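import Pool.Agent.Work.MP_bf01b2_co.MR.Cube

/-!
# The consistent adversary

`N` distinct marks `P 0, .., P (N - 1)` in `Q_n`, the first `K` are roots. A direction `j` has the
mask `μ` (bit `i` is set iff `P i` and `P 0` are on different sides) and the matched pairs
(roots which differ exactly in the coordinate `j`). Every pair of marks is separated by some
direction, a matched pair by exactly one, and if `K ≤ n` there is a direction without matched pairs.
`check` is a search of all consistent configurations which avoid a list `W` of winning types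
`(μ, req)` (`req` = mask of roots which must not be matched). Main theorem: `dir`.
-/

set_option autoImplicit false

namespace Pool.Agent.Work.MP_bf01b2_co.MR.Adv

/-! ### The abstract search -/

/-- conjunction, the second factor is evaluated only if needed -/
@[reducible] def nd (a b : Bool) : Bool := Bool.rec (motive := fun _ => Bool) false b a

theorem nd_iff {a b : Bool} : nd a b = true ↔ a = true ∧ b = true := by
  cases a <;> simp [nd]

/-- disjunction -/
@[reducible] def rr (a b : Bool) : Bool := Bool.rec (motive := fun _ => Bool) b true a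

theorem rr_iff {a b : Bool} : rr a b = true ↔ a = true ∨ b = true := by
  cases a <;> simp [rr]

/-- evaluation of the argument before the call -/
noncomputable def fB (n : ℕ) (f : ℕ → Bool) : Bool :=
  Nat.rec (motive := fun _ => Bool) (f 0) (fun m _ => f (Nat.succ m)) n

theorem fB_eq (n : ℕ) (f : ℕ → Bool) : fB n f = f n := by cases n <;> rfl

/-- union of the masks in `U` which do not meet `E` -/
noncomputable def orU (E : ℕ) (U : List ℕ) : ℕ :=
  List.rec (motive := fun _ => ℕ) 0
    (fun u _ ih => Bool.rec (motive := fun _ => ℕ) ih (Nat.lor u ih) (Nat.beq (Nat.land u E) 0)) U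

/-- union of the first components -/
noncomputable def orL (L : List (ℕ × ℕ)) : ℕ :=
  List.rec (motive := fun _ => ℕ) 0 (fun x _ ih => Nat.lor x.1 ih) L

/-- all bits of `full` are in `S` -/
noncomputable def cvd (full S : ℕ) : Bool := Nat.beq (Nat.land full S) full

/-- The search. `L` = losing types with matched pairs `(separated pairs, matched pairs)`, `U` =
losing types without matched pairs, `S` = union of the separated pairs of the chosen directions, `E` =
union of their matched pairs. -/
noncomputable def srch (full : ℕ) (U : List ℕ) (L : List (ℕ × ℕ)) : ℕ → ℕ → Bool :=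
  List.rec (motive := fun _ => ℕ → ℕ → Bool)
    (fun S E => cvd full (Nat.lor S (orU E U)))
    (fun x T ih S E => nd (cvd full (Nat.lor (Nat.lor S (orU E U)) (Nat.lor x.1 (orL T))))
      (rr (ih S E) (nd (Nat.beq (Nat.land x.1 E) 0) (nd (Nat.beq (Nat.land S x.2) 0)
        (fB (Nat.lor S x.1) fun S' => fB (Nat.lor E x.2) fun E' => ih S' E'))))) L

theorem srch_nil (full : ℕ) (U : List ℕ) (S E : ℕ) :
    srch full U [] S E = cvd full (S ||| orU E U) := rfl

theorem srch_cons (full : ℕ) (U : List ℕ) (x : ℕ × ℕ) (T : List (ℕ × ℕ)) (S E : ℕ) :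
    srch full U (x :: T) S E = nd (cvd full ((S ||| orU E U) ||| (x.1 ||| orL T)))
      (rr (srch full U T S E) (nd (Nat.beq (x.1 &&& E) 0) (nd (Nat.beq (S &&& x.2) 0)
        (srch full U T (S ||| x.1) (E ||| x.2))))) := by
  have h : srch full U (x :: T) S E = nd (cvd full ((S ||| orU E U) ||| (x.1 ||| orL T)))
      (rr (srch full U T S E) (nd (Nat.beq (x.1 &&& E) 0) (nd (Nat.beq (S &&& x.2) 0)
        (fB (Nat.lor S x.1) fun S' => fB (Nat.lor E x.2) fun E' => srch full U T S' E')))) := rfl
  rw [h, fB_eq, fB_eq]
  rfl

theorem beq0 {a b : ℕ} : Nat.beq (a &&& b) 0 = true ↔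
    ∀ i, a.testBit i = true → b.testBit i = false := by
  rw [Nat.beq_eq, Nat.eq_iff_testBit_eq]
  simp only [Nat.testBit_and, Nat.zero_testBit, Bool.and_eq_false_iff]
  constructor
  · intro h i hi
    rcases h i with h | h
    · rw [hi] at h; cases h
    · exact h
  · intro h i
    cases hi : a.testBit i
    · exact Or.inl rfl
    · exact Or.inr (h i hi)

theorem cvd_iff {full S : ℕ} : cvd full S = true ↔
    ∀ i, full.testBit i = true → S.testBit i = true := by
  unfold cvd
  rw [Nat.beq_eq, Nat.eq_iff_testBit_eq]
  have e : Nat.land full S = full &&& S := rfl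
  simp only [e, Nat.testBit_and]
  constructor
  · intro h i hi
    have := h i
    rw [hi] at this
    simpa using this
  · intro h i
    cases hi : full.testBit i
    · rfl
    · simp [h i hi]

theorem orU_bit {E : ℕ} : ∀ {U : List ℕ} {u i : ℕ}, u ∈ U → Nat.beq (u &&& E) 0 = true →
    u.testBit i = true → (orU E U).testBit i = true
  | v :: U, u, i, hu, hE, hi => by
    have e : orU E (v :: U) = Bool.rec (motive := fun _ => ℕ) (orU E U) (v ||| orU E U)
      (Nat.beq (v &&& E) 0) := rfl
    rcases List.mem_cons.1 hu with rfl | hu
    · rw [e, hE]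
      simp [hi]
    · have ih := orU_bit hu hE hi
      rw [e]
      cases Nat.beq (v &&& E) 0
      · exact ih
      · simp [ih]

theorem orL_bit : ∀ {L : List (ℕ × ℕ)} {x : ℕ × ℕ} {i : ℕ}, x ∈ L → x.1.testBit i = true →
    (orL L).testBit i = true
  | y :: L, x, i, hx, hi => by
    have e : orL (y :: L) = y.1 ||| orL L := rfl
    rw [e, Nat.testBit_or]
    rcases List.mem_cons.1 hx with rfl | hx
    · simp [hi]
    · simp [orL_bit hx hi]

theorem srch_sound {n : ℕ} {full : ℕ} {c M : Fin n → ℕ} {U : List ℕ}
    (hfull : ∀ i, full.testBit i = true → ∃ j, (c j).testBit i = true)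
    (hM : ∀ j i, (M j).testBit i = true → (c j).testBit i = true ∧
      ∀ k, k ≠ j → (c k).testBit i = false)
    (hU : ∀ j, M j = 0 → c j ∈ U) :
    ∀ (L : List (ℕ × ℕ)) (J : Finset (Fin n)) (S E : ℕ),
      (∀ j ∈ J, M j ≠ 0) →
      (∀ i, S.testBit i = true ↔ ∃ j ∈ J, (c j).testBit i = true) →
      (∀ i, E.testBit i = true ↔ ∃ j ∈ J, (M j).testBit i = true) →
      (∀ j, j ∉ J → M j ≠ 0 → (c j, M j) ∈ L) → srch full U L S E = true := by
  -- an unmatched direction is compatible
  have hcomp : ∀ (J : Finset (Fin n)) (E : ℕ), (∀ j ∈ J, M j ≠ 0) →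
      (∀ i, E.testBit i = true ↔ ∃ j ∈ J, (M j).testBit i = true) → ∀ j, M j = 0 →
      Nat.beq (c j &&& E) 0 = true := by
    intro J E hJ hE j hj
    refine beq0.2 fun i hi => ?_
    by_contra h
    rw [Bool.not_eq_false, hE] at h
    obtain ⟨k, hk, hki⟩ := h
    have hkj : j ≠ k := by
      rintro rfl
      exact hJ _ hk hj
    have h4 := (hM k i hki).2 j hkj
    rw [hi] at h4
    cases h4
  -- all pairs are separated
  have hall : ∀ (L : List (ℕ × ℕ)) (J : Finset (Fin n)) (S E : ℕ), (∀ j ∈ J, M j ≠ 0) →
      (∀ i, S.testBit i = true ↔ ∃ j ∈ J, (c j).testBit i = true) →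
      (∀ i, E.testBit i = true ↔ ∃ j ∈ J, (M j).testBit i = true) →
      (∀ j, j ∉ J → M j ≠ 0 → (c j, M j) ∈ L) → ∀ i, full.testBit i = true →
        ((S ||| orU E U) ||| orL L).testBit i = true := by
    intro L J S E hJ hS hE hL i hi
    rw [Nat.testBit_or, Nat.testBit_or]
    obtain ⟨j, hj⟩ := hfull i hi
    by_cases h1 : j ∈ J
    · rw [(hS i).2 ⟨j, h1, hj⟩]
      simp
    · by_cases h2 : M j = 0
      · rw [orU_bit (hU j h2) (hcomp J E hJ hE j h2) hj]
        simp
      · rw [orL_bit (hL j h1 h2) hj]
        simp
  intro L
  induction L with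
  | nil =>
    intro J S E hJ hS hE hL
    rw [srch_nil, cvd_iff]
    intro i hi
    have := hall [] J S E hJ hS hE hL i hi
    have e : orL [] = 0 := rfl
    rwa [e, Nat.or_zero] at this
  | cons x T ih =>
    intro J S E hJ hS hE hL
    rw [srch_cons, nd_iff, rr_iff]
    refine ⟨?_, ?_⟩
    · rw [cvd_iff]
      intro i hi
      exact hall (x :: T) J S E hJ hS hE hL i hi
    · by_cases hx : ∃ j, j ∉ J ∧ M j ≠ 0 ∧ x = (c j, M j)
      · right
        obtain ⟨j, hj, hMj, rfl⟩ := hx
        rw [nd_iff, nd_iff]
        refine ⟨?_, ?_, ?_⟩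
        · rw [beq0]
          intro i hi
          by_contra h
          rw [Bool.not_eq_false, hE] at h
          obtain ⟨k, hk, hki⟩ := h
          have hkj : j ≠ k := by
            rintro rfl
            exact hj hk
          have h4 := (hM k i hki).2 j hkj
          simp only at hi
          rw [hi] at h4
          cases h4
        · rw [beq0]
          intro i hi
          by_contra h
          rw [Bool.not_eq_false] at h
          rw [hS] at hi
          obtain ⟨k, hk, hki⟩ := hi
          have hkj : k ≠ j := by
            rintro rfl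
            exact hj hk
          have h4 := (hM j i h).2 k hkj
          rw [hki] at h4
          cases h4
        · refine ih (insert j J) _ _ ?_ ?_ ?_ ?_
          · intro k hk
            rcases Finset.mem_insert.1 hk with rfl | hk
            · exact hMj
            · exact hJ k hk
          · intro i
            rw [Nat.testBit_or, Bool.or_eq_true, hS]
            constructor
            · rintro (⟨k, hk, h⟩ | h)
              · exact ⟨k, Finset.mem_insert_of_mem hk, h⟩
              · exact ⟨j, Finset.mem_insert_self _ _, h⟩
            · rintro ⟨k, hk, h⟩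
              rcases Finset.mem_insert.1 hk with rfl | hk
              · exact Or.inr h
              · exact Or.inl ⟨k, hk, h⟩
          · intro i
            rw [Nat.testBit_or, Bool.or_eq_true, hE]
            constructor
            · rintro (⟨k, hk, h⟩ | h)
              · exact ⟨k, Finset.mem_insert_of_mem hk, h⟩
              · exact ⟨j, Finset.mem_insert_self _ _, h⟩
            · rintro ⟨k, hk, h⟩
              rcases Finset.mem_insert.1 hk with rfl | hk
              · exact Or.inr h
              · exact Or.inl ⟨k, hk, h⟩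
          · intro k hk hMk
            have hk1 : k ≠ j := fun h => hk (by rw [h]; exact Finset.mem_insert_self _ _)
            have hk2 : k ∉ J := fun h => hk (Finset.mem_insert_of_mem h)
            rcases List.mem_cons.1 (hL k hk2 hMk) with h | h
            · exfalso
              have h5 : M k = M j := by
                have := congrArg Prod.snd h
                simpa using this
              have h6 : ∃ i, (M j).testBit i = true := by
                by_contra hcon
                push Not at hcon
                apply hMj
                apply Nat.eq_of_testBit_eq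
                intro i
                rw [Nat.zero_testBit]
                simpa using hcon i
              obtain ⟨i, hi⟩ := h6
              have h7 := (hM j i hi).2 k hk1
              have h8 := (hM k i (by rw [h5]; exact hi)).1
              rw [h8] at h7
              cases h7
            · exact h
      · left
        refine ih J S E hJ hS hE ?_
        intro k hk hMk
        rcases List.mem_cons.1 (hL k hk hMk) with h | h
        · exact absurd ⟨k, hk, hMk, h.symm⟩ hx
        · exact h

/-! ### Directions with matched pairs -/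

theorem forest_dirs {n : ℕ} : ∀ (J : Finset (Fin n)) (P : Finset (Fin n → Bool)), P.Nonempty →
    (∀ j ∈ J, ∃ a ∈ P, flip j a ∈ P) → J.card + 1 ≤ P.card := by
  intro J
  induction J using Finset.induction_on with
  | empty =>
    intro P hP _
    simpa using Finset.card_pos.2 hP
  | insert j J hj ih =>
    intro P hP h
    obtain ⟨a, ha, hfa⟩ := h j (Finset.mem_insert_self _ _)
    have hne : flip j a ≠ a := by
      intro h1
      have := congrFun h1 j
      rw [flip_apply_self] at this
      cases h2 : a j <;> simp [h2] at this
    let f : (Fin n → Bool) → (Fin n → Bool) := fun p => Function.update p j false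
    have hff : f (flip j a) = f a := by
      simp only [f, flip, Function.update_idem]
    have h1 : P.image f = (P.erase (flip j a)).image f := by
      ext x
      simp only [Finset.mem_image]
      constructor
      · rintro ⟨p, hp, rfl⟩
        by_cases h2 : p = flip j a
        · exact ⟨a, Finset.mem_erase.2 ⟨hne.symm, ha⟩, by rw [h2, hff]⟩
        · exact ⟨p, Finset.mem_erase.2 ⟨h2, hp⟩, rfl⟩
      · rintro ⟨p, hp, rfl⟩
        exact ⟨p, Finset.mem_of_mem_erase hp, rfl⟩
    have h2 : (P.image f).card + 1 ≤ P.card := by
      rw [h1]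
      have h3 := Finset.card_image_le (s := P.erase (flip j a)) (f := f)
      rw [Finset.card_erase_of_mem hfa] at h3
      have h4 : 0 < P.card := Finset.card_pos.2 hP
      omega
    have h3 := ih (P.image f) (hP.image f) (by
      intro i hi
      obtain ⟨b, hb, hfb⟩ := h i (Finset.mem_insert_of_mem hi)
      have hij : i ≠ j := by
        rintro rfl
        exact hj hi
      refine ⟨f b, Finset.mem_image_of_mem f hb, ?_⟩
      have h5 : flip i (f b) = f (flip i b) := by
        simp only [f, flip]
        rw [Function.update_of_ne hij, Function.update_comm hij]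
      rw [h5]
      exact Finset.mem_image_of_mem f hfb)
    rw [Finset.card_insert_of_notMem hj]
    omega

/-! ### Sets of pairs as bit masks -/

/-- union of the bits `b * N + a` of the pairs `(a, b)` in the list with `f a b` -/
def pbits (N : ℕ) (f : ℕ → ℕ → Bool) : List (ℕ × ℕ) → ℕ
  | [] => 0
  | p :: ps => if f p.1 p.2 then 2 ^ (p.2 * N + p.1) ||| pbits N f ps else pbits N f ps

theorem two_pow_bit (k i : ℕ) : (2 ^ k).testBit i = true ↔ i = k := by
  rw [Nat.testBit_two_pow]
  constructor
  · intro h
    exact (by simpa using h : k = i).symm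
  · rintro rfl
    simp

theorem pbits_bit {N : ℕ} {f : ℕ → ℕ → Bool} : ∀ {ps : List (ℕ × ℕ)} {i : ℕ},
    (pbits N f ps).testBit i = true ↔ ∃ p ∈ ps, f p.1 p.2 = true ∧ i = p.2 * N + p.1
  | [], i => by simp [pbits]
  | q :: ps, i => by
    unfold pbits
    split_ifs with h
    · rw [Nat.testBit_or, Bool.or_eq_true, two_pow_bit, pbits_bit]
      constructor
      · rintro (h1 | ⟨p, hp, h1, h2⟩)
        · exact ⟨q, List.mem_cons_self, h, h1⟩
        · exact ⟨p, List.mem_cons_of_mem _ hp, h1, h2⟩
      · rintro ⟨p, hp, h1, h2⟩
        rcases List.mem_cons.1 hp with rfl | hp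
        · exact Or.inl h2
        · exact Or.inr ⟨p, hp, h1, h2⟩
    · rw [pbits_bit]
      constructor
      · rintro ⟨p, hp, h1, h2⟩
        exact ⟨p, List.mem_cons_of_mem _ hp, h1, h2⟩
      · rintro ⟨p, hp, h1, h2⟩
        rcases List.mem_cons.1 hp with rfl | hp
        · exact absurd h1 h
        · exact ⟨p, hp, h1, h2⟩

/-- all pairs `a < b < N` -/
def prs : ℕ → List (ℕ × ℕ)
  | 0 => []
  | b + 1 => prs b ++ (List.range b).map (fun a => (a, b))

theorem mem_prs : ∀ {N : ℕ} {p : ℕ × ℕ}, p ∈ prs N ↔ p.1 < p.2 ∧ p.2 < N
  | 0, p => by simp [prs]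
  | b + 1, p => by
    unfold prs
    rw [List.mem_append, mem_prs, List.mem_map]
    constructor
    · rintro (h | ⟨a, ha, rfl⟩)
      · exact ⟨h.1, by omega⟩
      · exact ⟨List.mem_range.1 ha, Nat.lt_succ_self _⟩
    · rintro ⟨h1, h2⟩
      by_cases h3 : p.2 < b
      · exact Or.inl ⟨h1, h3⟩
      · have h4 : p.2 = b := by omega
        exact Or.inr ⟨p.1, List.mem_range.2 (by omega), by rw [← h4]⟩

theorem idx_inj {N a b c d : ℕ} (ha : a < N) (hc : c < N) (h : b * N + a = d * N + c) :
    a = c ∧ b = d := by
  have h1 : (b * N + a) / N = b := by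
    rw [Nat.add_comm, Nat.add_mul_div_right _ _ (by omega), Nat.div_eq_of_lt ha, Nat.zero_add]
  have h2 : (d * N + c) / N = d := by
    rw [Nat.add_comm, Nat.add_mul_div_right _ _ (by omega), Nat.div_eq_of_lt hc, Nat.zero_add]
  have h3 : b = d := by rw [← h1, ← h2, h]
  subst h3
  exact ⟨by omega, rfl⟩

/-- separated by the mask -/
def sp (μ a b : ℕ) : Bool := μ.testBit a != μ.testBit b

/-- pairs separated by the mask `μ` -/
def seps (N μ : ℕ) : ℕ := pbits N (sp μ) (prs N)

/-- bit of an unmatched direction -/
def sen (N : ℕ) : ℕ := 2 ^ (N * N)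

/-! ### Matchings -/

/-- all matchings with pairs in the list separated by `μ` which do not use the marks in `d`; result:
(matched pairs, matched marks) -/
def mts (N μ : ℕ) : List (ℕ × ℕ) → ℕ → ℕ → List (ℕ × ℕ)
  | [], d, M => [(M, d)]
  | p :: ps, d, M => mts N μ ps d M ++
      (if sp μ p.1 p.2 && !d.testBit p.1 && !d.testBit p.2 then
        mts N μ ps (d ||| (2 ^ p.1 ||| 2 ^ p.2)) (M ||| 2 ^ (p.2 * N + p.1)) else [])

theorem mts_mem {N μ : ℕ} {f : ℕ → ℕ → Bool} : ∀ {ps : List (ℕ × ℕ)} {d M : ℕ},
    (∀ p ∈ ps, f p.1 p.2 = true → sp μ p.1 p.2 = true ∧ d.testBit p.1 = false ∧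
      d.testBit p.2 = false) →
    ps.Pairwise (fun p q => f p.1 p.2 = true → f q.1 q.2 = true →
      q.1 ≠ p.1 ∧ q.1 ≠ p.2 ∧ q.2 ≠ p.1 ∧ q.2 ≠ p.2) →
    ∃ D, (M ||| pbits N f ps, D) ∈ mts N μ ps d M ∧ (∀ i, d.testBit i = true → D.testBit i = true) ∧
      ∀ p ∈ ps, f p.1 p.2 = true → D.testBit p.1 = true ∧ D.testBit p.2 = true
  | [], d, M, _, _ => ⟨d, by simp [mts, pbits], fun i hi => hi, by simp⟩
  | q :: ps, d, M, h, hp => by
    rw [List.pairwise_cons] at hp
    by_cases hq : f q.1 q.2 = true
    · obtain ⟨h1, h2, h3⟩ := h q List.mem_cons_self hq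
      obtain ⟨D, hD, hD2, hD3⟩ := mts_mem (N := N) (μ := μ) (f := f) (ps := ps)
        (d := d ||| (2 ^ q.1 ||| 2 ^ q.2)) (M := M ||| 2 ^ (q.2 * N + q.1)) (by
          intro p hp' hf
          obtain ⟨g1, g2, g3⟩ := h p (List.mem_cons_of_mem _ hp') hf
          obtain ⟨e1, e2, e3, e4⟩ := hp.1 p hp' hq hf
          refine ⟨g1, ?_, ?_⟩
          · rw [Nat.testBit_or, Nat.testBit_or, g2, Nat.testBit_two_pow, Nat.testBit_two_pow]
            simp [e1.symm, e2.symm]
          · rw [Nat.testBit_or, Nat.testBit_or, g3, Nat.testBit_two_pow, Nat.testBit_two_pow]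
            simp [e3.symm, e4.symm]) hp.2
      have hDq : D.testBit q.1 = true ∧ D.testBit q.2 = true := by
        constructor
        · apply hD2
          rw [Nat.testBit_or, Nat.testBit_or, (two_pow_bit q.1 q.1).2 rfl]
          simp
        · apply hD2
          rw [Nat.testBit_or, Nat.testBit_or, (two_pow_bit q.2 q.2).2 rfl]
          simp
      refine ⟨D, ?_, ?_, ?_⟩
      · unfold mts pbits
        rw [if_pos hq, if_pos (by simp [h1, h2, h3]), List.mem_append]
        right
        rw [← Nat.or_assoc M (2 ^ (q.2 * N + q.1)) (pbits N f ps)]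
        exact hD
      · intro i hi
        apply hD2
        rw [Nat.testBit_or, hi, Bool.true_or]
      · intro p hp' hf
        rcases List.mem_cons.1 hp' with rfl | hp'
        · exact hDq
        · exact hD3 p hp' hf
    · obtain ⟨D, hD, hD2, hD3⟩ := mts_mem (N := N) (μ := μ) (f := f) (ps := ps) (d := d) (M := M)
        (fun p hp' => h p (List.mem_cons_of_mem _ hp')) hp.2
      refine ⟨D, ?_, hD2, ?_⟩
      · unfold mts pbits
        rw [if_neg hq, List.mem_append]
        exact Or.inl hD
      · intro p hp' hf
        rcases List.mem_cons.1 hp' with rfl | hp'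
        · exact absurd hf hq
        · exact hD3 p hp' hf

/-- for the mask number `g` (that is `μ = 2 * g`): the separated pairs and all nonempty matchings of
roots `(matched pairs, matched marks)` -/
def group (N K g : ℕ) : ℕ × List (ℕ × ℕ) :=
  (seps N (2 * g), (mts N (2 * g) (prs K) 0 0).filter (fun x => x.1 != 0))

/-- all groups -/
def groups (N K : ℕ) : List (ℕ × List (ℕ × ℕ)) := (List.range (2 ^ (N - 1))).map (group N K)

/-- is some requirement in `r` compatible with the matched marks `d`? -/
noncomputable def cov (r : List ℕ) (d : ℕ) : Bool :=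
  List.rec (motive := fun _ => Bool) false (fun q _ ih => rr (Nat.beq (Nat.land q d) 0) ih) r

theorem cov_iff {d : ℕ} : ∀ {r : List ℕ}, cov r d = true ↔ ∃ q ∈ r, q &&& d = 0
  | [] => by simp [cov]
  | q :: r => by
    have e : cov (q :: r) d = rr (Nat.beq (q &&& d) 0) (cov r d) := rfl
    rw [e, rr_iff, cov_iff, Nat.beq_eq]
    simp

/-- is the requirement `0` in `r`? -/
noncomputable def has0 (r : List ℕ) : Bool :=
  List.rec (motive := fun _ => Bool) false (fun q _ ih => rr (Nat.beq q 0) ih) r

theorem has0_cov {d : ℕ} : ∀ {r : List ℕ}, has0 r = true → cov r d = true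
  | q :: r, h => by
    have e : has0 (q :: r) = rr (Nat.beq q 0) (has0 r) := rfl
    have e' : cov (q :: r) d = rr (Nat.beq (q &&& d) 0) (cov r d) := rfl
    rw [e, rr_iff, Nat.beq_eq] at h
    rw [e', rr_iff, Nat.beq_eq]
    rcases h with rfl | h
    · exact Or.inl (Nat.zero_and d)
    · exact Or.inr (has0_cov h)

/-- losing matched types of one group -/
noncomputable def loseG (s : ℕ) (r : List ℕ) (tl : List (ℕ × ℕ)) (ms : List (ℕ × ℕ)) : List (ℕ × ℕ) :=
  List.rec (motive := fun _ => List (ℕ × ℕ)) tl
    (fun x _ ih => Bool.rec (motive := fun _ => List (ℕ × ℕ)) ((s, x.1) :: ih) ih (cov r x.2)) ms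

theorem mem_loseG {s : ℕ} {r : List ℕ} {tl : List (ℕ × ℕ)} {y : ℕ × ℕ} : ∀ {ms : List (ℕ × ℕ)},
    y ∈ loseG s r tl ms ↔ y ∈ tl ∨ ∃ x ∈ ms, cov r x.2 = false ∧ y = (s, x.1)
  | [] => by simp [loseG]
  | x :: ms => by
    have e : loseG s r tl (x :: ms) = Bool.rec (motive := fun _ => List (ℕ × ℕ))
      ((s, x.1) :: loseG s r tl ms) (loseG s r tl ms) (cov r x.2) := rfl
    rw [e]
    cases hc : cov r x.2
    · simp only [List.mem_cons, mem_loseG (ms := ms)]
      constructor
      · rintro (h | h | ⟨z, hz, h1, h2⟩)
        · exact Or.inr ⟨x, Or.inl rfl, hc, h⟩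
        · exact Or.inl h
        · exact Or.inr ⟨z, Or.inr hz, h1, h2⟩
      · rintro (h | ⟨z, rfl | hz, h1, h2⟩)
        · exact Or.inr (Or.inl h)
        · exact Or.inl h2
        · exact Or.inr (Or.inr ⟨z, hz, h1, h2⟩)
    · simp only [mem_loseG (ms := ms)]
      constructor
      · rintro (h | ⟨z, hz, h1, h2⟩)
        · exact Or.inl h
        · exact Or.inr ⟨z, List.mem_cons_of_mem _ hz, h1, h2⟩
      · rintro (h | ⟨z, hz, h1, h2⟩)
        · exact Or.inl h
        · rcases List.mem_cons.1 hz with rfl | hz
          · rw [hc] at h1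
            cases h1
          · exact Or.inr ⟨z, hz, h1, h2⟩

/-- losing matched types; `W` = list of requirements for each group -/
noncomputable def lose (G : List (ℕ × List (ℕ × ℕ))) : List (List ℕ) → List (ℕ × ℕ) :=
  List.rec (motive := fun _ => List (List ℕ) → List (ℕ × ℕ)) (fun _ => [])
    (fun g _ ih W => List.rec (motive := fun _ => List (ℕ × ℕ)) (loseG g.1 [] (ih []) g.2)
      (fun r W' _ => Bool.rec (motive := fun _ => List (ℕ × ℕ)) (loseG g.1 r (ih W') g.2) (ih W')
        (has0 r)) W) G

/-- losing types without matched pairs -/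
noncomputable def loseU (sn : ℕ) (G : List (ℕ × List (ℕ × ℕ))) : List (List ℕ) → List ℕ :=
  List.rec (motive := fun _ => List (List ℕ) → List ℕ) (fun _ => [])
    (fun g _ ih W => List.rec (motive := fun _ => List ℕ) (Nat.lor g.1 sn :: ih [])
      (fun r W' _ => List.rec (motive := fun _ => List ℕ) (Nat.lor g.1 sn :: ih W')
        (fun _ _ _ => ih W') r) W) G

theorem mem_lose : ∀ {G : List (ℕ × List (ℕ × ℕ))} {W : List (List ℕ)} {i : ℕ} (hi : i < G.length)
    {x : ℕ × ℕ}, x ∈ G[i].2 → cov (W.getD i []) x.2 = false → (G[i].1, x.1) ∈ lose G W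
  | g :: G, [], i, hi, x, hx, hc => by
    have e : lose (g :: G) [] = loseG g.1 [] (lose G []) g.2 := rfl
    rw [e, mem_loseG]
    cases i with
    | zero => exact Or.inr ⟨x, hx, rfl, rfl⟩
    | succ i =>
      left
      exact mem_lose (G := G) (W := []) (i := i) (by simpa using hi) hx (by simp [cov])
  | g :: G, r :: W, i, hi, x, hx, hc => by
    have e : lose (g :: G) (r :: W) = Bool.rec (motive := fun _ => List (ℕ × ℕ))
      (loseG g.1 r (lose G W) g.2) (lose G W) (has0 r) := rfl
    rw [e]
    cases i with
    | zero =>
      have hc' : cov r x.2 = false := by simpa using hc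
      cases h : has0 r
      · exact mem_loseG.2 (Or.inr ⟨x, hx, hc', rfl⟩)
      · rw [has0_cov h] at hc'
        cases hc'
    | succ i =>
      have ih := mem_lose (G := G) (W := W) (i := i) (by simpa using hi) hx (by simpa using hc)
      cases has0 r
      · exact mem_loseG.2 (Or.inl ih)
      · exact ih

theorem mem_loseU {sn : ℕ} : ∀ {G : List (ℕ × List (ℕ × ℕ))} {W : List (List ℕ)} {i : ℕ}
    (hi : i < G.length), W.getD i [] = [] → (G[i].1 ||| sn) ∈ loseU sn G W
  | g :: G, [], i, hi, hc => by
    have e : loseU sn (g :: G) [] = (g.1 ||| sn) :: loseU sn G [] := rfl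
    rw [e]
    cases i with
    | zero => exact List.mem_cons_self
    | succ i => exact List.mem_cons_of_mem _ (mem_loseU (G := G) (W := []) (i := i) (by simpa using hi) (by simp))
  | g :: G, r :: W, i, hi, hc => by
    have e : loseU sn (g :: G) (r :: W) = List.rec (motive := fun _ => List ℕ)
      ((g.1 ||| sn) :: loseU sn G W) (fun _ _ _ => loseU sn G W) r := rfl
    rw [e]
    cases i with
    | zero =>
      have hr : r = [] := by simpa using hc
      subst hr
      exact List.mem_cons_self
    | succ i =>
      have ih := mem_loseU (sn := sn) (G := G) (W := W) (i := i) (by simpa using hi) (by simpa using hc)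
      cases r with
      | nil => exact List.mem_cons_of_mem _ ih
      | cons _ _ => exact ih

/-- The check. `G` = groups, `sn` = sentinel, `full` = all pairs and the sentinel, `W` = the winning
types: for every mask the list of the requirements. -/
noncomputable def check (G : List (ℕ × List (ℕ × ℕ))) (sn full : ℕ) (W : List (List ℕ)) : Bool :=
  Bool.rec (motive := fun _ => Bool) true false (srch full (loseU sn G W) (lose G W) 0 0)

/-- all pairs and the sentinel -/
def fullN (N : ℕ) : ℕ := pbits N (fun _ _ => true) (prs N) ||| sen N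

/-! ### Configurations of marks -/

/-- a number with prescribed bits below `N` -/
theorem exists_bits (N : ℕ) (f : ℕ → Bool) : ∃ μ < 2 ^ N, ∀ i < N, μ.testBit i = f i := by
  induction N with
  | zero => exact ⟨0, by norm_num, fun i hi => absurd hi (by omega)⟩
  | succ N ih =>
    obtain ⟨μ, h1, h2⟩ := ih
    cases hf : f N
    · refine ⟨μ, by rw [pow_succ]; omega, fun i hi => ?_⟩
      rcases Nat.lt_succ_iff_lt_or_eq.1 hi with h | rfl
      · exact h2 i h
      · rw [hf]
        exact Nat.testBit_lt_two_pow h1
    · refine ⟨μ ||| 2 ^ N, ?_, fun i hi => ?_⟩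
      · refine Nat.or_lt_two_pow ?_ ?_
        · rw [pow_succ]; omega
        · exact Nat.pow_lt_pow_right (by norm_num) (Nat.lt_succ_self N)
      · rw [Nat.testBit_or, Nat.testBit_two_pow]
        rcases Nat.lt_succ_iff_lt_or_eq.1 hi with h | rfl
        · rw [h2 i h]
          simp [show N ≠ i by omega]
        · simp [hf]

/-- **The consistent adversary.** If the check is passed, every configuration of `N` marks in `Q_n`
has a direction `j` whose type is winning: its mask is `2 * g`, and for some requirement `q` in
`W[g]` no root in `q` is matched. -/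
theorem dir {n N K : ℕ} (hK : 1 ≤ K) (hKN : K ≤ N) (hNn : K ≤ n) (P : ℕ → Fin n → Bool)
    (hP : ∀ a b, a < b → b < N → P a ≠ P b) (W : List (List ℕ))
    (hW : check (groups N K) (sen N) (fullN N) W = true) :
    ∃ j : Fin n, ∃ g < 2 ^ (N - 1), ∃ q ∈ W.getD g [],
      (∀ i < N, (2 * g).testBit i = (P i j != P 0 j)) ∧
      ∀ a < K, q.testBit a = true → ∀ b < K, P b ≠ flip j (P a) := by
  by_contra hcon
  push Not at hcon
  -- masks
  have hmask : ∀ j : Fin n, ∃ g < 2 ^ (N - 1), ∀ i < N, (2 * g).testBit i = (P i j != P 0 j) := by
    intro j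
    obtain ⟨μ, h1, h2⟩ := exists_bits N (fun i => P i j != P 0 j)
    have h3 : μ.testBit 0 = false := by
      rw [h2 0 (by omega)]
      simp
    refine ⟨μ / 2, ?_, ?_⟩
    · have : 2 ^ N = 2 * 2 ^ (N - 1) := by
        rw [← pow_succ']
        congr 1
        omega
      omega
    · have h4 : 2 * (μ / 2) = μ := by
        rw [Nat.testBit_zero] at h3
        have : μ % 2 ≠ 1 := by simpa using h3
        omega
      rw [h4]
      exact h2
  choose g hg hgm using hmask
  have hsp : ∀ (j : Fin n) (a b : ℕ), a < N → b < N → (sp (2 * g j) a b = true ↔ P a j ≠ P b j) := by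
    intro j a b ha hb
    unfold sp
    rw [hgm j a ha, hgm j b hb]
    cases P a j <;> cases P b j <;> cases P 0 j <;> simp
  -- matched pairs
  classical
  let f : Fin n → ℕ → ℕ → Bool := fun j a b => decide (P b = flip j (P a))
  let M : Fin n → ℕ := fun j => pbits N (f j) (prs K)
  let c : Fin n → ℕ := fun j => if M j = 0 then seps N (2 * g j) ||| sen N else seps N (2 * g j)
  have hMbit : ∀ j i, (M j).testBit i = true ↔ ∃ p ∈ prs K, P p.2 = flip j (P p.1) ∧
      i = p.2 * N + p.1 := by
    intro j i
    simp only [M, f, pbits_bit, decide_eq_true_eq]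
  have hsbit : ∀ j i, (seps N (2 * g j)).testBit i = true ↔ ∃ p ∈ prs N, P p.1 j ≠ P p.2 j ∧
      i = p.2 * N + p.1 := by
    intro j i
    unfold seps
    rw [pbits_bit]
    constructor
    · rintro ⟨p, hp, h1, h2⟩
      have hp' := mem_prs.1 hp
      exact ⟨p, hp, (hsp j p.1 p.2 (by omega) (by omega)).1 h1, h2⟩
    · rintro ⟨p, hp, h1, h2⟩
      have hp' := mem_prs.1 hp
      exact ⟨p, hp, (hsp j p.1 p.2 (by omega) (by omega)).2 h1, h2⟩
  have hlt : ∀ p ∈ prs N, p.2 * N + p.1 < N * N := by
    intro p hp
    have h1 := mem_prs.1 hp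
    have h2 : (p.2 + 1) * N ≤ N * N := Nat.mul_le_mul_right _ (by omega)
    rw [Nat.add_mul, Nat.one_mul] at h2
    omega
  have hflip_ne : ∀ (j : Fin n) (x : Fin n → Bool), flip j x j ≠ x j := by
    intro j x
    rw [flip_apply_self]
    cases x j <;> simp
  have hex : ∃ j, M j = 0 := by
    by_contra hno
    push Not at hno
    have h1 := forest_dirs (Finset.univ : Finset (Fin n)) ((Finset.range K).image P)
      ⟨P 0, Finset.mem_image_of_mem P (Finset.mem_range.2 (by omega))⟩ (by
      intro j _
      have h2 : ∃ i, (M j).testBit i = true := by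
        by_contra hc
        push Not at hc
        apply hno j
        apply Nat.eq_of_testBit_eq
        intro i
        rw [Nat.zero_testBit]
        simpa using hc i
      obtain ⟨i, hi⟩ := h2
      obtain ⟨p, hp, h3, -⟩ := (hMbit j i).1 hi
      have h4 := mem_prs.1 hp
      refine ⟨P p.1, Finset.mem_image_of_mem P (Finset.mem_range.2 (by omega)), ?_⟩
      rw [← h3]
      exact Finset.mem_image_of_mem P (Finset.mem_range.2 h4.2))
    have h2 := Finset.card_image_le (s := Finset.range K) (f := P)
    rw [Finset.card_range] at h2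
    rw [Finset.card_univ, Fintype.card_fin] at h1
    omega
  have hs : srch (fullN N) (loseU (sen N) (groups N K) W) (lose (groups N K) W) 0 0 = true := by
    refine srch_sound (c := c) (M := M) ?_ ?_ ?_ _ ∅ 0 0 (by simp) (by simp) (by simp) ?_
    · -- all pairs are separated
      intro i hi
      unfold fullN at hi
      rw [Nat.testBit_or, Bool.or_eq_true, pbits_bit] at hi
      rcases hi with ⟨p, hp, -, rfl⟩ | hi
      · have hp' := mem_prs.1 hp
        obtain ⟨j, hj⟩ := exists_sep (hP p.1 p.2 hp'.1 hp'.2)
        refine ⟨j, ?_⟩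
        have h1 := (hsbit j _).2 ⟨p, hp, hj, rfl⟩
        simp only [c]
        split_ifs
        · rw [Nat.testBit_or, h1, Bool.true_or]
        · exact h1
      · unfold sen at hi
        rw [two_pow_bit] at hi
        subst hi
        obtain ⟨j, hj⟩ := hex
        refine ⟨j, ?_⟩
        simp only [c]
        rw [if_pos hj, Nat.testBit_or]
        unfold sen
        rw [(two_pow_bit _ _).2 rfl, Bool.or_true]
    · -- matched pairs
      intro j i hi
      have hMj : M j ≠ 0 := by
        intro h
        rw [h, Nat.zero_testBit] at hi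
        cases hi
      obtain ⟨p, hp, h1, rfl⟩ := (hMbit j i).1 hi
      have hp' := mem_prs.1 hp
      have hpN : p ∈ prs N := mem_prs.2 ⟨hp'.1, by omega⟩
      constructor
      · simp only [c]
        rw [if_neg hMj, hsbit]
        refine ⟨p, hpN, ?_, rfl⟩
        rw [h1]
        exact (hflip_ne j _).symm
      · intro k hk
        have h2 : (seps N (2 * g k)).testBit (p.2 * N + p.1) = false := by
          by_contra h3
          rw [Bool.not_eq_false, hsbit] at h3
          obtain ⟨r, hr, h4, h5⟩ := h3
          have hr' := mem_prs.1 hr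
          obtain ⟨e1, e2⟩ := idx_inj (N := N) (by omega) (by omega) h5
          apply h4
          rw [← e1, ← e2, h1, flip_apply_of_ne hk]
        simp only [c]
        split_ifs
        · rw [Nat.testBit_or, h2, Bool.false_or]
          unfold sen
          rw [Nat.testBit_two_pow]
          have := hlt p hpN
          simp
          omega
        · exact h2
    · -- unmatched directions lose
      intro j hj
      simp only [c]
      rw [if_pos hj]
      have h1 : W.getD (g j) [] = [] := by
        by_contra hne
        obtain ⟨q, hq⟩ := List.exists_mem_of_ne_nil _ hne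
        obtain ⟨a, ha, h2, b, hb, h3⟩ := hcon j (g j) (hg j) q hq (hgm j)
        have hab : a ≠ b := by
          rintro rfl
          exact hflip_ne j (P a) (by rw [← h3])
        have h4 : ∃ i, (M j).testBit i = true := by
          rcases lt_or_gt_of_ne hab with h | h
          · exact ⟨_, (hMbit j _).2 ⟨(a, b), mem_prs.2 ⟨h, hb⟩, h3, rfl⟩⟩
          · exact ⟨_, (hMbit j _).2 ⟨(b, a), mem_prs.2 ⟨h, ha⟩, by rw [h3, flip_flip], rfl⟩⟩
        obtain ⟨i, hi⟩ := h4
        rw [hj, Nat.zero_testBit] at hi
        cases hi
      have h2 : g j < (groups N K).length := by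
        unfold groups
        rw [List.length_map, List.length_range]
        exact hg j
      have h3 := mem_loseU (sn := sen N) h2 h1
      have h4 : (groups N K)[g j].1 = seps N (2 * g j) := by
        simp [groups, group]
      rwa [h4] at h3
    · -- matched directions lose
      intro j _ hj
      simp only [c]
      rw [if_neg hj]
      have h2 : g j < (groups N K).length := by
        unfold groups
        rw [List.length_map, List.length_range]
        exact hg j
      obtain ⟨D, hD, -, hD3⟩ := mts_mem (N := N) (μ := 2 * g j) (f := f j) (ps := prs K) (d := 0) (M := 0)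
        (by
          intro p hp hf
          have hp' := mem_prs.1 hp
          simp only [f, decide_eq_true_eq] at hf
          refine ⟨(hsp j _ _ (by omega) (by omega)).2 ?_, by simp, by simp⟩
          rw [hf]
          exact (hflip_ne j _).symm)
        (by
          have hinj : ∀ a b, a < N → b < N → P a = P b → a = b := by
            intro a b ha hb hab
            rcases lt_trichotomy a b with h | h | h
            · exact absurd hab (hP a b h hb)
            · exact h
            · exact absurd hab.symm (hP b a h ha)
          have hnd : (prs K).Nodup := by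
            clear * -
            induction K with
            | zero => simp [prs]
            | succ b ih =>
              unfold prs
              rw [List.nodup_append]
              refine ⟨ih, (List.nodup_range).map (fun x y h => by simpa using h), ?_⟩
              intro x hx y hy hxy
              subst hxy
              have := mem_prs.1 hx
              obtain ⟨a, -, rfl⟩ := List.mem_map.1 hy
              simp at this
          refine hnd.imp_of_mem ?_
          intro p q hp hq hpq h1 h2
          have hp' := mem_prs.1 hp
          have hq' := mem_prs.1 hq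
          simp only [f, decide_eq_true_eq] at h1 h2
          refine ⟨?_, ?_, ?_, ?_⟩
          · intro h
            apply hpq
            have : P q.2 = P p.2 := by rw [h2, h1, h]
            exact Prod.ext h.symm (hinj _ _ (by omega) (by omega) this).symm
          · intro h
            have : P q.2 = P p.1 := by rw [h2, h, h1, flip_flip]
            have := hinj _ _ (by omega) (by omega) this
            omega
          · intro h
            have h3 : P q.1 = P p.2 := by rw [h1, ← h, h2, flip_flip]
            have := hinj _ _ (by omega) (by omega) h3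
            omega
          · intro h
            have h3 : P q.1 = P p.1 := by
              have : flip j (P q.1) = flip j (P p.1) := by rw [← h2, ← h1, h]
              exact flip_injective j this
            apply hpq
            exact Prod.ext (hinj _ _ (by omega) (by omega) h3).symm h.symm)
      rw [Nat.zero_or] at hD
      have h3 : (M j, D) ∈ (groups N K)[g j].2 := by
        simp only [groups, group, List.getElem_map, List.getElem_range, List.mem_filter]
        exact ⟨hD, by simpa using hj⟩
      have h4 : cov (W.getD (g j) []) D = false := by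
        by_contra h5
        rw [Bool.not_eq_false, cov_iff] at h5
        obtain ⟨q, hq, h6⟩ := h5
        obtain ⟨a, ha, h7, b, hb, h8⟩ := hcon j (g j) (hg j) q hq (hgm j)
        have hab : a ≠ b := by
          rintro rfl
          exact hflip_ne j (P a) (by rw [← h8])
        have h9 : D.testBit a = true := by
          rcases lt_or_gt_of_ne hab with h | h
          · exact (hD3 (a, b) (mem_prs.2 ⟨h, hb⟩) (by simp only [f, decide_eq_true_eq]; exact h8)).1
          · exact (hD3 (b, a) (mem_prs.2 ⟨h, ha⟩) (by
              simp only [f, decide_eq_true_eq]; rw [h8, flip_flip])).2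
        have h10 : (q &&& D).testBit a = true := by rw [Nat.testBit_and, h7, h9]; rfl
        rw [h6, Nat.zero_testBit] at h10
        cases h10
      have h5 := mem_lose h2 h3 h4
      have h6 : (groups N K)[g j].1 = seps N (2 * g j) := by
        simp [groups, group]
      rwa [h6] at h5
  unfold check at hW
  rw [hs] at hW
  cases hW

end Pool.Agent.Work.MP_bf01b2_co.MR.Adv
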