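import Pool.Agent.Work.MP_bf01b2_co.MR.Adv

/-!
# The consistent adversary, exact matched sets

As `Adv`, but the winning types of a mask are given by pairs `(c, r)`: the direction is winning if the
set `D` of all matched marks satisfies `D ∩ c = r`.
-/

set_option autoImplicit false

namespace Pool.Agent.Work.MP_bf01b2_co.MR.Adv

/-- as `mts_mem`, the matched marks are exactly those of the chosen pairs -/
theorem mts_mem' {N μ : ℕ} {f : ℕ → ℕ → Bool} : ∀ {ps : List (ℕ × ℕ)} {d M : ℕ},
    (∀ p ∈ ps, f p.1 p.2 = true → sp μ p.1 p.2 = true ∧ d.testBit p.1 = false ∧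
      d.testBit p.2 = false) →
    ps.Pairwise (fun p q => f p.1 p.2 = true → f q.1 q.2 = true →
      q.1 ≠ p.1 ∧ q.1 ≠ p.2 ∧ q.2 ≠ p.1 ∧ q.2 ≠ p.2) →
    ∃ D, (M ||| pbits N f ps, D) ∈ mts N μ ps d M ∧ ∀ i, D.testBit i = true ↔
      d.testBit i = true ∨ ∃ p ∈ ps, f p.1 p.2 = true ∧ (i = p.1 ∨ i = p.2)
  | [], d, M, _, _ => ⟨d, by simp [mts, pbits], fun i => by simp⟩
  | q :: ps, d, M, h, hp => by
    rw [List.pairwise_cons] at hp
    by_cases hq : f q.1 q.2 = true
    · obtain ⟨h1, h2, h3⟩ := h q List.mem_cons_self hq
      obtain ⟨D, hD, hD2⟩ := mts_mem' (N := N) (μ := μ) (f := f) (ps := ps)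
        (d := d ||| (2 ^ q.1 ||| 2 ^ q.2)) (M := M ||| 2 ^ (q.2 * N + q.1)) (by
          intro p hp' hf
          obtain ⟨g1, g2, g3⟩ := h p (List.mem_cons_of_mem _ hp') hf
          obtain ⟨e1, e2, e3, e4⟩ := hp.1 p hp' hq hf
          refine ⟨g1, ?_, ?_⟩
          · rw [Nat.testBit_or, Nat.testBit_or, g2, Nat.testBit_two_pow, Nat.testBit_two_pow]
            simp [e1.symm, e2.symm]
          · rw [Nat.testBit_or, Nat.testBit_or, g3, Nat.testBit_two_pow, Nat.testBit_two_pow]
            simp [e3.symm, e4.symm]) hp.2
      refine ⟨D, ?_, ?_⟩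
      · unfold mts pbits
        rw [if_pos hq, if_pos (by simp [h1, h2, h3]), List.mem_append]
        right
        rw [← Nat.or_assoc M (2 ^ (q.2 * N + q.1)) (pbits N f ps)]
        exact hD
      · intro i
        rw [hD2, Nat.testBit_or, Nat.testBit_or, Bool.or_eq_true, Bool.or_eq_true, two_pow_bit,
          two_pow_bit]
        constructor
        · rintro ((h4 | h4) | ⟨p, hp1, hp2, hp3⟩)
          · exact Or.inl h4
          · exact Or.inr ⟨q, List.mem_cons_self, hq, h4⟩
          · exact Or.inr ⟨p, List.mem_cons_of_mem _ hp1, hp2, hp3⟩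
        · rintro (h4 | ⟨p, hp1, hp2, hp3⟩)
          · exact Or.inl (Or.inl h4)
          · rcases List.mem_cons.1 hp1 with rfl | hp1
            · exact Or.inl (Or.inr hp3)
            · exact Or.inr ⟨p, hp1, hp2, hp3⟩
    · obtain ⟨D, hD, hD2⟩ := mts_mem' (N := N) (μ := μ) (f := f) (ps := ps) (d := d) (M := M)
        (fun p hp' => h p (List.mem_cons_of_mem _ hp')) hp.2
      refine ⟨D, ?_, ?_⟩
      · unfold mts pbits
        rw [if_neg hq, List.mem_append]
        exact Or.inl hD
      · intro i
        rw [hD2]
        constructor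
        · rintro (h4 | ⟨p, hp1, hp2, hp3⟩)
          · exact Or.inl h4
          · exact Or.inr ⟨p, List.mem_cons_of_mem _ hp1, hp2, hp3⟩
        · rintro (h4 | ⟨p, hp1, hp2, hp3⟩)
          · exact Or.inl h4
          · rcases List.mem_cons.1 hp1 with rfl | hp1
            · exact absurd hp2 hq
            · exact Or.inr ⟨p, hp1, hp2, hp3⟩

/-- is `d ∩ c = r` for some pair of the list? -/
noncomputable def cov2 (r : List (ℕ × ℕ)) (d : ℕ) : Bool :=
  List.rec (motive := fun _ => Bool) false
    (fun q _ ih => rr (Nat.beq (Nat.land d q.1) q.2) ih) r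

theorem cov2_iff {d : ℕ} : ∀ {r : List (ℕ × ℕ)}, cov2 r d = true ↔ ∃ q ∈ r, d &&& q.1 = q.2
  | [] => by simp [cov2]
  | q :: r => by
    have e : cov2 (q :: r) d = rr (Nat.beq (d &&& q.1) q.2) (cov2 r d) := rfl
    rw [e, rr_iff, cov2_iff, Nat.beq_eq]
    simp

/-- does the list start with `(0, 0)`? -/
noncomputable def all2 (r : List (ℕ × ℕ)) : Bool :=
  List.rec (motive := fun _ => Bool) false
    (fun q _ _ => nd (Nat.beq q.1 0) (Nat.beq q.2 0)) r

theorem all2_cov {d : ℕ} : ∀ {r : List (ℕ × ℕ)}, all2 r = true → cov2 r d = true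
  | q :: r, h => by
    have e : all2 (q :: r) = nd (Nat.beq q.1 0) (Nat.beq q.2 0) := rfl
    have e' : cov2 (q :: r) d = rr (Nat.beq (d &&& q.1) q.2) (cov2 r d) := rfl
    rw [e, nd_iff, Nat.beq_eq, Nat.beq_eq] at h
    rw [e', rr_iff, Nat.beq_eq]
    left
    rw [h.1, h.2, Nat.and_zero]

/-- losing matched types of one group -/
noncomputable def loseG2 (s : ℕ) (r : List (ℕ × ℕ)) (tl : List (ℕ × ℕ)) (ms : List (ℕ × ℕ)) :
    List (ℕ × ℕ) :=
  List.rec (motive := fun _ => List (ℕ × ℕ)) tl
    (fun x _ ih => Bool.rec (motive := fun _ => List (ℕ × ℕ)) ((s, x.1) :: ih) ih (cov2 r x.2)) ms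

theorem mem_loseG2 {s : ℕ} {r tl : List (ℕ × ℕ)} {y : ℕ × ℕ} : ∀ {ms : List (ℕ × ℕ)},
    y ∈ loseG2 s r tl ms ↔ y ∈ tl ∨ ∃ x ∈ ms, cov2 r x.2 = false ∧ y = (s, x.1)
  | [] => by simp [loseG2]
  | x :: ms => by
    have e : loseG2 s r tl (x :: ms) = Bool.rec (motive := fun _ => List (ℕ × ℕ))
      ((s, x.1) :: loseG2 s r tl ms) (loseG2 s r tl ms) (cov2 r x.2) := rfl
    rw [e]
    cases hc : cov2 r x.2
    · simp only [List.mem_cons, mem_loseG2 (ms := ms)]
      constructor
      · rintro (h | h | ⟨z, hz, h1, h2⟩)
        · exact Or.inr ⟨x, Or.inl rfl, hc, h⟩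
        · exact Or.inl h
        · exact Or.inr ⟨z, Or.inr hz, h1, h2⟩
      · rintro (h | ⟨z, rfl | hz, h1, h2⟩)
        · exact Or.inr (Or.inl h)
        · exact Or.inl h2
        · exact Or.inr (Or.inr ⟨z, hz, h1, h2⟩)
    · simp only [mem_loseG2 (ms := ms)]
      constructor
      · rintro (h | ⟨z, hz, h1, h2⟩)
        · exact Or.inl h
        · exact Or.inr ⟨z, List.mem_cons_of_mem _ hz, h1, h2⟩
      · rintro (h | ⟨z, hz, h1, h2⟩)
        · exact Or.inl h
        · rcases List.mem_cons.1 hz with rfl | hz
          · rw [hc] at h1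
            cases h1
          · exact Or.inr ⟨z, hz, h1, h2⟩

/-- losing matched types; `W` = winning pairs for each group -/
noncomputable def lose2 (G : List (ℕ × List (ℕ × ℕ))) : List (List (ℕ × ℕ)) → List (ℕ × ℕ) :=
  List.rec (motive := fun _ => List (List (ℕ × ℕ)) → List (ℕ × ℕ)) (fun _ => [])
    (fun g _ ih W => List.rec (motive := fun _ => List (ℕ × ℕ)) (loseG2 g.1 [] (ih []) g.2)
      (fun r W' _ => Bool.rec (motive := fun _ => List (ℕ × ℕ)) (loseG2 g.1 r (ih W') g.2) (ih W')
        (all2 r)) W) G

/-- losing types without matched pairs -/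
noncomputable def loseU2 (sn : ℕ) (G : List (ℕ × List (ℕ × ℕ))) : List (List (ℕ × ℕ)) → List ℕ :=
  List.rec (motive := fun _ => List (List (ℕ × ℕ)) → List ℕ) (fun _ => [])
    (fun g _ ih W => List.rec (motive := fun _ => List ℕ) (Nat.lor g.1 sn :: ih [])
      (fun r W' _ => Bool.rec (motive := fun _ => List ℕ) (Nat.lor g.1 sn :: ih W') (ih W')
        (cov2 r 0)) W) G

theorem mem_lose2 : ∀ {G : List (ℕ × List (ℕ × ℕ))} {W : List (List (ℕ × ℕ))} {i : ℕ}
    (hi : i < G.length) {x : ℕ × ℕ}, x ∈ G[i].2 → cov2 (W.getD i []) x.2 = false →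
      (G[i].1, x.1) ∈ lose2 G W
  | g :: G, [], i, hi, x, hx, hc => by
    have e : lose2 (g :: G) [] = loseG2 g.1 [] (lose2 G []) g.2 := rfl
    rw [e, mem_loseG2]
    cases i with
    | zero => exact Or.inr ⟨x, hx, rfl, rfl⟩
    | succ i =>
      left
      exact mem_lose2 (G := G) (W := []) (i := i) (by simpa using hi) hx (by simp [cov2])
  | g :: G, r :: W, i, hi, x, hx, hc => by
    have e : lose2 (g :: G) (r :: W) = Bool.rec (motive := fun _ => List (ℕ × ℕ))
      (loseG2 g.1 r (lose2 G W) g.2) (lose2 G W) (all2 r) := rfl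
    rw [e]
    cases i with
    | zero =>
      have hc' : cov2 r x.2 = false := by simpa using hc
      cases h : all2 r
      · exact mem_loseG2.2 (Or.inr ⟨x, hx, hc', rfl⟩)
      · rw [all2_cov h] at hc'
        cases hc'
    | succ i =>
      have ih := mem_lose2 (G := G) (W := W) (i := i) (by simpa using hi) hx (by simpa using hc)
      cases all2 r
      · exact mem_loseG2.2 (Or.inl ih)
      · exact ih

theorem mem_loseU2 {sn : ℕ} : ∀ {G : List (ℕ × List (ℕ × ℕ))} {W : List (List (ℕ × ℕ))} {i : ℕ}
    (hi : i < G.length), cov2 (W.getD i []) 0 = false → (G[i].1 ||| sn) ∈ loseU2 sn G W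
  | g :: G, [], i, hi, hc => by
    have e : loseU2 sn (g :: G) [] = (g.1 ||| sn) :: loseU2 sn G [] := rfl
    rw [e]
    cases i with
    | zero => exact List.mem_cons_self
    | succ i => exact List.mem_cons_of_mem _ (mem_loseU2 (G := G) (W := []) (i := i)
        (by simpa using hi) (by simp [cov2]))
  | g :: G, r :: W, i, hi, hc => by
    have e : loseU2 sn (g :: G) (r :: W) = Bool.rec (motive := fun _ => List ℕ)
      ((g.1 ||| sn) :: loseU2 sn G W) (loseU2 sn G W) (cov2 r 0) := rfl
    rw [e]
    cases i with
    | zero =>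
      have hr : cov2 r 0 = false := by simpa using hc
      rw [hr]
      exact List.mem_cons_self
    | succ i =>
      have ih := mem_loseU2 (sn := sn) (G := G) (W := W) (i := i) (by simpa using hi)
        (by simpa using hc)
      cases cov2 r 0
      · exact List.mem_cons_of_mem _ ih
      · exact ih

/-- The check, see `check`. -/
noncomputable def check2 (G : List (ℕ × List (ℕ × ℕ))) (sn full : ℕ)
    (W : List (List (ℕ × ℕ))) : Bool :=
  Bool.rec (motive := fun _ => Bool) true false (srch full (loseU2 sn G W) (lose2 G W) 0 0)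

/-- **The consistent adversary.** If the check is passed, every configuration of `N ≤ n` marks in
`Q_n` has a direction `j` whose type is winning. -/
theorem dir2 {n N : ℕ} (hN : 1 ≤ N) (hNn : N ≤ n) (P : ℕ → Fin n → Bool)
    (hP : ∀ a b, a < b → b < N → P a ≠ P b) (W : List (List (ℕ × ℕ)))
    (hW : check2 (groups N N) (sen N) (fullN N) W = true) :
    ∃ j : Fin n, ∃ g < 2 ^ (N - 1), ∃ D : ℕ, ∃ q ∈ W.getD g [], D &&& q.1 = q.2 ∧
      (∀ i < N, (2 * g).testBit i = (P i j != P 0 j)) ∧
      ∀ a, D.testBit a = true ↔ a < N ∧ ∃ b < N, P b = flip j (P a) := by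
  by_contra hcon
  push Not at hcon
  -- masks
  have hmask : ∀ j : Fin n, ∃ g < 2 ^ (N - 1), ∀ i < N, (2 * g).testBit i = (P i j != P 0 j) := by
    intro j
    obtain ⟨μ, h1, h2⟩ := exists_bits N (fun i => P i j != P 0 j)
    have h3 : μ.testBit 0 = false := by
      rw [h2 0 (by omega)]
      simp
    refine ⟨μ / 2, ?_, ?_⟩
    · have : 2 ^ N = 2 * 2 ^ (N - 1) := by
        rw [← pow_succ']
        congr 1
        omega
      omega
    · have h4 : 2 * (μ / 2) = μ := by
        rw [Nat.testBit_zero] at h3
        have : μ % 2 ≠ 1 := by simpa using h3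
        omega
      rw [h4]
      exact h2
  choose g hg hgm using hmask
  have hsp : ∀ (j : Fin n) (a b : ℕ), a < N → b < N → (sp (2 * g j) a b = true ↔ P a j ≠ P b j) := by
    intro j a b ha hb
    unfold sp
    rw [hgm j a ha, hgm j b hb]
    cases P a j <;> cases P b j <;> cases P 0 j <;> simp
  -- matched pairs
  classical
  let f : Fin n → ℕ → ℕ → Bool := fun j a b => decide (P b = flip j (P a))
  let M : Fin n → ℕ := fun j => pbits N (f j) (prs N)
  let c : Fin n → ℕ := fun j => if M j = 0 then seps N (2 * g j) ||| sen N else seps N (2 * g j)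
  have hMbit : ∀ j i, (M j).testBit i = true ↔ ∃ p ∈ prs N, P p.2 = flip j (P p.1) ∧
      i = p.2 * N + p.1 := by
    intro j i
    simp only [M, f, pbits_bit, decide_eq_true_eq]
  have hsbit : ∀ j i, (seps N (2 * g j)).testBit i = true ↔ ∃ p ∈ prs N, P p.1 j ≠ P p.2 j ∧
      i = p.2 * N + p.1 := by
    intro j i
    unfold seps
    rw [pbits_bit]
    constructor
    · rintro ⟨p, hp, h1, h2⟩
      have hp' := mem_prs.1 hp
      exact ⟨p, hp, (hsp j p.1 p.2 (by omega) (by omega)).1 h1, h2⟩
    · rintro ⟨p, hp, h1, h2⟩
      have hp' := mem_prs.1 hp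
      exact ⟨p, hp, (hsp j p.1 p.2 (by omega) (by omega)).2 h1, h2⟩
  have hlt : ∀ p ∈ prs N, p.2 * N + p.1 < N * N := by
    intro p hp
    have h1 := mem_prs.1 hp
    have h2 : (p.2 + 1) * N ≤ N * N := Nat.mul_le_mul_right _ (by omega)
    rw [Nat.add_mul, Nat.one_mul] at h2
    omega
  have hflip_ne : ∀ (j : Fin n) (x : Fin n → Bool), flip j x j ≠ x j := by
    intro j x
    rw [flip_apply_self]
    cases x j <;> simp
  have hex : ∃ j, M j = 0 := by
    by_contra hno
    push Not at hno
    have h1 := forest_dirs (Finset.univ : Finset (Fin n)) ((Finset.range N).image P)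
      ⟨P 0, Finset.mem_image_of_mem P (Finset.mem_range.2 (by omega))⟩ (by
      intro j _
      have h2 : ∃ i, (M j).testBit i = true := by
        by_contra hc
        push Not at hc
        apply hno j
        apply Nat.eq_of_testBit_eq
        intro i
        rw [Nat.zero_testBit]
        simpa using hc i
      obtain ⟨i, hi⟩ := h2
      obtain ⟨p, hp, h3, -⟩ := (hMbit j i).1 hi
      have h4 := mem_prs.1 hp
      refine ⟨P p.1, Finset.mem_image_of_mem P (Finset.mem_range.2 (by omega)), ?_⟩
      rw [← h3]
      exact Finset.mem_image_of_mem P (Finset.mem_range.2 h4.2))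
    have h2 := Finset.card_image_le (s := Finset.range N) (f := P)
    rw [Finset.card_range] at h2
    rw [Finset.card_univ, Fintype.card_fin] at h1
    omega
  have hs : srch (fullN N) (loseU2 (sen N) (groups N N) W) (lose2 (groups N N) W) 0 0 = true := by
    refine srch_sound (c := c) (M := M) ?_ ?_ ?_ _ ∅ 0 0 (by simp) (by simp) (by simp) ?_
    · -- all pairs are separated
      intro i hi
      unfold fullN at hi
      rw [Nat.testBit_or, Bool.or_eq_true, pbits_bit] at hi
      rcases hi with ⟨p, hp, -, rfl⟩ | hi
      · have hp' := mem_prs.1 hp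
        obtain ⟨j, hj⟩ := exists_sep (hP p.1 p.2 hp'.1 hp'.2)
        refine ⟨j, ?_⟩
        have h1 := (hsbit j _).2 ⟨p, hp, hj, rfl⟩
        simp only [c]
        split_ifs
        · rw [Nat.testBit_or, h1, Bool.true_or]
        · exact h1
      · unfold sen at hi
        rw [two_pow_bit] at hi
        subst hi
        obtain ⟨j, hj⟩ := hex
        refine ⟨j, ?_⟩
        simp only [c]
        rw [if_pos hj, Nat.testBit_or]
        unfold sen
        rw [(two_pow_bit _ _).2 rfl, Bool.or_true]
    · -- matched pairs
      intro j i hi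
      have hMj : M j ≠ 0 := by
        intro h
        rw [h, Nat.zero_testBit] at hi
        cases hi
      obtain ⟨p, hp, h1, rfl⟩ := (hMbit j i).1 hi
      have hp' := mem_prs.1 hp
      constructor
      · simp only [c]
        rw [if_neg hMj, hsbit]
        refine ⟨p, hp, ?_, rfl⟩
        rw [h1]
        exact (hflip_ne j _).symm
      · intro k hk
        have h2 : (seps N (2 * g k)).testBit (p.2 * N + p.1) = false := by
          by_contra h3
          rw [Bool.not_eq_false, hsbit] at h3
          obtain ⟨r, hr, h4, h5⟩ := h3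
          have hr' := mem_prs.1 hr
          obtain ⟨e1, e2⟩ := idx_inj (N := N) (by omega) (by omega) h5
          apply h4
          rw [← e1, ← e2, h1, flip_apply_of_ne hk]
        simp only [c]
        split_ifs
        · rw [Nat.testBit_or, h2, Bool.false_or]
          unfold sen
          rw [Nat.testBit_two_pow]
          have := hlt p hp
          simp
          omega
        · exact h2
    · -- unmatched directions lose
      intro j hj
      simp only [c]
      rw [if_pos hj]
      have h1 : cov2 (W.getD (g j) []) 0 = false := by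
        by_contra hne
        rw [Bool.not_eq_false, cov2_iff] at hne
        obtain ⟨q, hq, h2⟩ := hne
        obtain ⟨a, ha⟩ := hcon j (g j) (hg j) 0 q hq h2 (hgm j)
        rcases ha with ⟨h3, -⟩ | ⟨-, ha1, b, hb, h3⟩
        · rw [Nat.zero_testBit] at h3
          cases h3
        · have hab : a ≠ b := by
            rintro rfl
            exact hflip_ne j (P a) (by rw [← h3])
          have h4 : ∃ i, (M j).testBit i = true := by
            rcases lt_or_gt_of_ne hab with h | h
            · exact ⟨_, (hMbit j _).2 ⟨(a, b), mem_prs.2 ⟨h, hb⟩, h3, rfl⟩⟩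
            · exact ⟨_, (hMbit j _).2 ⟨(b, a), mem_prs.2 ⟨h, ha1⟩, by rw [h3, flip_flip], rfl⟩⟩
          obtain ⟨i, hi⟩ := h4
          rw [hj, Nat.zero_testBit] at hi
          cases hi
      have h2 : g j < (groups N N).length := by
        unfold groups
        rw [List.length_map, List.length_range]
        exact hg j
      have h3 := mem_loseU2 (sn := sen N) h2 h1
      have h4 : (groups N N)[g j].1 = seps N (2 * g j) := by
        simp [groups, group]
      rwa [h4] at h3
    · -- matched directions lose
      intro j _ hj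
      simp only [c]
      rw [if_neg hj]
      have h2 : g j < (groups N N).length := by
        unfold groups
        rw [List.length_map, List.length_range]
        exact hg j
      obtain ⟨D, hD, hD2⟩ := mts_mem' (N := N) (μ := 2 * g j) (f := f j) (ps := prs N) (d := 0)
        (M := 0) (by
          intro p hp hf
          have hp' := mem_prs.1 hp
          simp only [f, decide_eq_true_eq] at hf
          refine ⟨(hsp j _ _ (by omega) (by omega)).2 ?_, by simp, by simp⟩
          rw [hf]
          exact (hflip_ne j _).symm)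
        (by
          have hinj : ∀ a b, a < N → b < N → P a = P b → a = b := by
            intro a b ha hb hab
            rcases lt_trichotomy a b with h | h | h
            · exact absurd hab (hP a b h hb)
            · exact h
            · exact absurd hab.symm (hP b a h ha)
          have hnd : (prs N).Nodup := by
            clear * -
            induction N with
            | zero => simp [prs]
            | succ b ih =>
              unfold prs
              rw [List.nodup_append]
              refine ⟨ih, (List.nodup_range).map (fun x y h => by simpa using h), ?_⟩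
              intro x hx y hy hxy
              subst hxy
              have := mem_prs.1 hx
              obtain ⟨a, -, rfl⟩ := List.mem_map.1 hy
              simp at this
          refine hnd.imp_of_mem ?_
          intro p q hp hq hpq h1 h2
          have hp' := mem_prs.1 hp
          have hq' := mem_prs.1 hq
          simp only [f, decide_eq_true_eq] at h1 h2
          refine ⟨?_, ?_, ?_, ?_⟩
          · intro h
            apply hpq
            have : P q.2 = P p.2 := by rw [h2, h1, h]
            exact Prod.ext h.symm (hinj _ _ (by omega) (by omega) this).symm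
          · intro h
            have : P q.2 = P p.1 := by rw [h2, h, h1, flip_flip]
            have := hinj _ _ (by omega) (by omega) this
            omega
          · intro h
            have h3 : P q.1 = P p.2 := by rw [h1, ← h, h2, flip_flip]
            have := hinj _ _ (by omega) (by omega) h3
            omega
          · intro h
            have h3 : P q.1 = P p.1 := by
              have : flip j (P q.1) = flip j (P p.1) := by rw [← h2, ← h1, h]
              exact flip_injective j this
            apply hpq
            exact Prod.ext (hinj _ _ (by omega) (by omega) h3).symm h.symm)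
      rw [Nat.zero_or] at hD
      have h3 : (M j, D) ∈ (groups N N)[g j].2 := by
        simp only [groups, group, List.getElem_map, List.getElem_range, List.mem_filter]
        exact ⟨hD, by simpa using hj⟩
      have hDiff : ∀ a, D.testBit a = true ↔ a < N ∧ ∃ b < N, P b = flip j (P a) := by
        intro a
        rw [hD2]
        constructor
        · rintro (h | ⟨p, hp, hf, ha⟩)
          · rw [Nat.zero_testBit] at h
            cases h
          · have hp' := mem_prs.1 hp
            simp only [f, decide_eq_true_eq] at hf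
            rcases ha with rfl | rfl
            · exact ⟨by omega, p.2, hp'.2, hf⟩
            · exact ⟨hp'.2, p.1, by omega, by rw [hf, flip_flip]⟩
        · rintro ⟨ha, b, hb, h4⟩
          right
          have hab : a ≠ b := by
            rintro rfl
            exact hflip_ne j (P a) (by rw [← h4])
          rcases lt_or_gt_of_ne hab with h | h
          · exact ⟨(a, b), mem_prs.2 ⟨h, hb⟩, by simp only [f, decide_eq_true_eq]; exact h4,
              Or.inl rfl⟩
          · exact ⟨(b, a), mem_prs.2 ⟨h, ha⟩, by
              simp only [f, decide_eq_true_eq]; rw [h4, flip_flip], Or.inr rfl⟩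
      have h4 : cov2 (W.getD (g j) []) D = false := by
        by_contra h5
        rw [Bool.not_eq_false, cov2_iff] at h5
        obtain ⟨q, hq, h6⟩ := h5
        obtain ⟨a, ha⟩ := hcon j (g j) (hg j) D q hq h6 (hgm j)
        rcases ha with ⟨h7, h8⟩ | ⟨h7, h8⟩
        · obtain ⟨h9, b, hb, h10⟩ := (hDiff a).1 h7
          exact h8 h9 b hb h10
        · exact h7 ((hDiff a).2 h8)
      have h5 := mem_lose2 h2 h3 h4
      have h6 : (groups N N)[g j].1 = seps N (2 * g j) := by
        simp [groups, group]
      rwa [h6] at h5
  unfold check2 at hW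
  rw [hs] at hW
  cases hW

end Pool.Agent.Work.MP_bf01b2_co.MR.Adv
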