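import Pool.Agent.Work.MP_bf01b2_co.MR.AllV

/-!
# All sorted vectors with a given sum, covered by blocks (certificate)
-/

set_option autoImplicit false

namespace Pool.Agent.Work.MP_bf01b2_co.MR

open Adv (nd rr fB nd_iff rr_iff fB_eq)

/-- certificates: `blk w c n` = a block of width `w + 1`, `c` = certificate for the other
coordinates, `n` = the following blocks -/
inductive Ct : Type
  | lf : Ct
  | blk (w : ℕ) (c n : Ct) : Ct

/-- `min` by truncated subtraction -/
@[reducible] def mn (a b : ℕ) : ℕ := Nat.sub a (Nat.sub a b)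

theorem mn_eq (a b : ℕ) : mn a b = min a b := by
  unfold mn
  have e1 : Nat.sub a b = a - b := rfl
  have e2 : Nat.sub a (a - b) = a - (a - b) := rfl
  rw [e1, e2]
  omega

/-- `k` = number of the coordinates after the current one, `S` = sum of the current and the
following coordinates, `a` = first value not yet covered, `hi` = last value to cover. -/
noncomputable def runC : Ct → ℕ → ℕ → ℕ → ℕ → (List ℕ → Bool) → Bool :=
  Ct.rec (motive := fun _ => ℕ → ℕ → ℕ → ℕ → (List ℕ → Bool) → Bool)
    (fun _ _ a hi _ => Nat.ble (Nat.succ hi) a)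
    (fun w _ _ ihc ihn k S a hi f => fB (Nat.add a w) fun a1 =>
      nd (Nat.rec (motive := fun _ => Bool) false
          (fun k1 _ => Nat.rec (motive := fun _ => Bool)
            (fB (mn (Nat.sub S a) a1) fun z => f [a1, z])
            (fun _ _ => fB (mn (Nat.sub S a) (Nat.mul k a1)) fun S1 =>
              fB (Nat.div (Nat.add S1 k1) k) fun lo => fB (mn a1 (Nat.sub S1 k1)) fun h1 =>
                ihc k1 S1 lo h1 (fun l => f (a1 :: l))) k1) k)
        (fB (Nat.succ a1) fun a2 => ihn k S a2 hi f))

theorem raise : ∀ {v : List ℕ} {M S : ℕ}, v.Pairwise (fun a b => b ≤ a) → (∀ x ∈ v, x ≤ M) →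
    v.sum ≤ S → S ≤ v.length * M → ∃ u : List ℕ, List.Forall₂ (· ≤ ·) v u ∧ u.sum = S ∧
      u.Pairwise (fun a b => b ≤ a) ∧ ∀ x ∈ u, x ≤ M
  | [], M, S, _, _, _, h4 => ⟨[], .nil, by simp at h4 ⊢; omega, List.Pairwise.nil, by simp⟩
  | x :: r, M, S, h1, h2, h3, h4 => by
    rw [List.pairwise_cons] at h1
    rw [List.sum_cons] at h3
    have h5 := h2 x List.mem_cons_self
    by_cases h : S - r.sum ≤ M
    · refine ⟨(S - r.sum) :: r, .cons (by omega) (forall₂_le_refl r), by
        rw [List.sum_cons]; omega, ?_, ?_⟩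
      · rw [List.pairwise_cons]
        exact ⟨fun b hb => (h1.1 b hb).trans (by omega), h1.2⟩
      · intro y hy
        rcases List.mem_cons.1 hy with rfl | hy
        · exact h
        · exact h2 y (List.mem_cons_of_mem _ hy)
    · obtain ⟨u, e1, e2, e3, e4⟩ := raise (v := r) (M := M) (S := S - M) h1.2
        (fun y hy => h2 y (List.mem_cons_of_mem _ hy)) (by omega) (by
          rw [List.length_cons, Nat.succ_mul] at h4
          omega)
      refine ⟨M :: u, .cons h5 e1, by rw [List.sum_cons]; omega, ?_, ?_⟩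
      · rw [List.pairwise_cons]
        exact ⟨fun b hb => e4 b hb, e3⟩
      · intro y hy
        rcases List.mem_cons.1 hy with rfl | hy
        · exact le_rfl
        · exact e4 y hy

theorem forall₂_le_trans {u v w : List ℕ} (h1 : List.Forall₂ (· ≤ ·) u v)
    (h2 : List.Forall₂ (· ≤ ·) v w) : List.Forall₂ (· ≤ ·) u w := by
  induction h1 generalizing w with
  | nil => exact h2
  | cons h _ ih =>
    cases h2 with
    | cons h3 h4 => exact .cons (h.trans h3) (ih h4)

theorem forall₂_len {u v : List ℕ} (h1 : List.Forall₂ (· ≤ ·) u v) : u.length = v.length :=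
  h1.length_eq

theorem runC_sound : ∀ (c : Ct) {k S a hi : ℕ} {f : List ℕ → Bool}, runC c k S a hi f = true →
    1 ≤ k → ∀ (x : ℕ) (v : List ℕ), v.length = k → x + v.sum = S → (∀ y ∈ v, 1 ≤ y) →
      (∀ y ∈ v, y ≤ x) → v.Pairwise (fun a b => b ≤ a) → a ≤ x → x ≤ hi →
      ∃ u : List ℕ, List.Forall₂ (· ≤ ·) (x :: v) u ∧ f u = true
  | .lf, k, S, a, hi, f, h, _, x, v, _, _, _, _, _, h6, h7 => by
    have e : runC .lf k S a hi f = Nat.ble (Nat.succ hi) a := rfl
    rw [e] at h
    have := Nat.le_of_ble_eq_true h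
    omega
  | .blk w c n, k, S, a, hi, f, h, hk, x, v, h1, h2, h3, h4, h5, h6, h7 => by
    have e : runC (.blk w c n) k S a hi f = fB (Nat.add a w) fun a1 =>
      nd (Nat.rec (motive := fun _ => Bool) false
          (fun k1 _ => Nat.rec (motive := fun _ => Bool)
            (fB (mn (Nat.sub S a) a1) fun z => f [a1, z])
            (fun _ _ => fB (mn (Nat.sub S a) (Nat.mul k a1)) fun S1 =>
              fB (Nat.div (Nat.add S1 k1) k) fun lo => fB (mn a1 (Nat.sub S1 k1)) fun h1 =>
                runC c k1 S1 lo h1 (fun l => f (a1 :: l))) k1) k)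
        (fB (Nat.succ a1) fun a2 => runC n k S a2 hi f) := rfl
    rw [e, fB_eq, nd_iff, fB_eq] at h
    obtain ⟨g1, g2⟩ := h
    obtain ⟨a1, ha1⟩ : ∃ a1, a1 = Nat.add a w := ⟨_, rfl⟩
    rw [← ha1] at g1 g2
    have ha1' : a1 = a + w := ha1
    by_cases hx : x ≤ a1
    · match k, hk with
      | 1, _ =>
        have g3 : f [a1, mn (Nat.sub S a) a1] = true := g1
        rw [mn_eq] at g3
        have e3 : Nat.sub S a = S - a := rfl
        rw [e3] at g3
        match v, h1 with
        | [y], _ =>
          have h8 := h4 y List.mem_cons_self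
          have h9 : x + y = S := by simpa using h2
          exact ⟨_, .cons hx (.cons (by omega) .nil), g3⟩
      | k2 + 2, _ =>
        have g3 : (fB (mn (Nat.sub S a) (Nat.mul (k2 + 2) a1)) fun S1 =>
              fB (Nat.div (Nat.add S1 (k2 + 1)) (k2 + 2)) fun lo =>
                fB (mn a1 (Nat.sub S1 (k2 + 1))) fun h1 =>
                  runC c (k2 + 1) S1 lo h1 (fun l => f (a1 :: l))) = true := g1
        rw [fB_eq, fB_eq, fB_eq, mn_eq, mn_eq] at g3
        obtain ⟨S1, hS1⟩ : ∃ S1, S1 = min (Nat.sub S a) (Nat.mul (k2 + 2) a1) := ⟨_, rfl⟩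
        have hS1' : S1 = min (S - a) ((k2 + 2) * a1) := hS1
        have e5 : Nat.div (Nat.add S1 (k2 + 1)) (k2 + 2) = (S1 + (k2 + 1)) / (k2 + 2) := rfl
        have e6 : min a1 (Nat.sub S1 (k2 + 1)) = min a1 (S1 - (k2 + 1)) := rfl
        rw [← hS1, e5, e6] at g3
        have hvM : ∀ y ∈ v, y ≤ a1 := fun y hy => (h4 y hy).trans hx
        have hvs : v.sum ≤ (k2 + 2) * a1 := by
          have := sum_le_mul hvM
          rwa [h1] at this
        obtain ⟨u, f1, f2, f3, f4⟩ := raise (M := a1) (S := S1) h5 hvM (by omega) (by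
          rw [h1]; omega)
        have f5 : u.length = k2 + 2 := by rw [← f1.length_eq, h1]
        have f6 : ∀ y ∈ u, 1 ≤ y := by
          clear f2 f3 f4 f5 g3 g1 g2 h5 hvM hvs h4 h1 h2
          induction f1 with
          | nil => simp
          | cons h _ ih =>
            intro y hy
            rcases List.mem_cons.1 hy with rfl | hy
            · exact (h3 _ List.mem_cons_self).trans h
            · exact ih (fun z hz => h3 z (List.mem_cons_of_mem _ hz)) y hy
        match u, f5 with
        | y :: r, f5 =>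
          have f7 : r.length = k2 + 1 := by simpa using f5
          rw [List.pairwise_cons] at f3
          rw [List.sum_cons] at f2
          have f8 : r.sum ≤ (k2 + 1) * y := by
            rw [← f7]
            exact sum_le_mul f3.1
          have f9 : k2 + 1 ≤ r.sum := by
            rw [← f7]
            exact len_le_sum (fun z hz => f6 z (List.mem_cons_of_mem _ hz))
          have f10 := f4 y List.mem_cons_self
          obtain ⟨u', q1, q2⟩ := runC_sound c g3 (by omega) y r f7 f2
            (fun z hz => f6 z (List.mem_cons_of_mem _ hz)) f3.1 f3.2 (by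
              rw [Nat.div_le_iff_le_mul_add_pred (by omega)]
              have : (k2 + 2) * y = (k2 + 1) * y + y := by ring
              omega) (by omega)
          exact ⟨a1 :: u', .cons hx (forall₂_le_trans f1 q1), q2⟩
    · exact runC_sound n g2 hk x v h1 h2 h3 h4 h5 (by
        have : Nat.succ a1 = a1 + 1 := rfl
        omega) h7

end Pool.Agent.Work.MP_bf01b2_co.MR
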