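import Pool.Agent.Work.MP_bf01b2_co.MR.Gm2

/-!
# All sorted vectors with a given sum
-/

set_option autoImplicit false

namespace Pool.Agent.Work.MP_bf01b2_co.MR

open Adv (nd rr fB nd_iff rr_iff fB_eq)

/-- all nonincreasing vectors of length `k` with sum `T`, entries `≥ 1`, first entry `≤ mx` -/
noncomputable def av : ℕ → ℕ → ℕ → (List ℕ → Bool) → Bool :=
  Nat.rec (motive := fun _ => ℕ → ℕ → (List ℕ → Bool) → Bool)
    (fun T _ f => Nat.rec (motive := fun _ => Bool) (f []) (fun _ _ => true) T)
    (fun k ih T mx f => fB (Nat.div (Nat.add T k) (Nat.succ k)) fun lo =>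
      fB (Nat.sub T k) fun h => fB (Nat.sub h (Nat.sub h mx)) fun hi =>
        allF (fun a => fB (Nat.sub T a) fun T' => ih T' a (fun l => f (a :: l))) lo
          (Nat.sub (Nat.succ hi) lo))

theorem av_zero (mx : ℕ) (f : List ℕ → Bool) : av 0 0 mx f = f [] := rfl

theorem av_succ (k T mx : ℕ) (f : List ℕ → Bool) : av (k + 1) T mx f =
    allF (fun a => av k (T - a) a (fun l => f (a :: l))) ((T + k) / (k + 1))
      (((T - k) - ((T - k) - mx)) + 1 - (T + k) / (k + 1)) := by
  have e : av (k + 1) T mx f = fB (Nat.div (Nat.add T k) (Nat.succ k)) fun lo =>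
      fB (Nat.sub T k) fun h => fB (Nat.sub h (Nat.sub h mx)) fun hi =>
        allF (fun a => fB (Nat.sub T a) fun T' => av k T' a (fun l => f (a :: l))) lo
          (Nat.sub (Nat.succ hi) lo) := rfl
  rw [e, fB_eq, fB_eq, fB_eq]
  simp only [fB_eq]
  rfl

theorem sum_le_mul : ∀ {v : List ℕ} {a : ℕ}, (∀ x ∈ v, x ≤ a) → v.sum ≤ v.length * a
  | [], _, _ => by simp
  | x :: v, a, h => by
    have h1 := h x List.mem_cons_self
    have h2 := sum_le_mul (v := v) (fun y hy => h y (List.mem_cons_of_mem _ hy))
    rw [List.sum_cons, List.length_cons, Nat.succ_mul]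
    omega

theorem len_le_sum : ∀ {v : List ℕ}, (∀ x ∈ v, 1 ≤ x) → v.length ≤ v.sum
  | [], _ => by simp
  | x :: v, h => by
    have h1 := h x List.mem_cons_self
    have h2 := len_le_sum (v := v) (fun y hy => h y (List.mem_cons_of_mem _ hy))
    rw [List.sum_cons, List.length_cons]
    omega

theorem av_sound : ∀ (k : ℕ) {T mx : ℕ} {f : List ℕ → Bool}, av k T mx f = true →
    ∀ v : List ℕ, v.length = k → v.sum = T → (∀ x ∈ v, 1 ≤ x) →
      v.Pairwise (fun a b => b ≤ a) → (∀ x ∈ v, x ≤ mx) → f v = true
  | 0, T, mx, f, h, v, h1, h2, _, _, _ => by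
    have hv : v = [] := List.length_eq_zero_iff.1 h1
    subst hv
    have hT : T = 0 := by simpa using h2.symm
    subst hT
    rwa [av_zero] at h
  | k + 1, T, mx, f, h, v, h1, h2, h3, h4, h5 => by
    rw [av_succ] at h
    cases v with
    | nil => simp at h1
    | cons a l =>
      have hl : l.length = k := by simpa using h1
      rw [List.pairwise_cons] at h4
      have e1 : l.sum ≤ k * a := by
        rw [← hl]
        exact sum_le_mul h4.1
      have e2 : k ≤ l.sum := by
        rw [← hl]
        exact len_le_sum (fun x hx => h3 x (List.mem_cons_of_mem _ hx))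
      have e3 := h5 a List.mem_cons_self
      have e4 := h3 a List.mem_cons_self
      rw [List.sum_cons] at h2
      have e5 : (T + k) / (k + 1) ≤ a := by
        rw [Nat.div_le_iff_le_mul_add_pred (by omega)]
        have : (k + 1) * a = k * a + a := by ring
        omega
      have h6 := allF_iff _ _ h a e5 (by omega)
      exact av_sound k h6 l hl (by omega) (fun x hx => h3 x (List.mem_cons_of_mem _ hx)) h4.2 h4.1

end Pool.Agent.Work.MP_bf01b2_co.MR
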