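import Pool.Agent.Work.MP_bf01b2_co.MR.B5T

set_option maxRecDepth 100000

namespace Pool.Agent.Work.MP_bf01b2_co.MR

namespace Tab

/-- certificates 2000..2500 -/
def b5C4 : List Cf :=
  [.prs (.two (nat_lit 325) (nat_lit 16) (nat_lit 858) (nat_lit 1) (.one (nat_lit 1999) (nat_lit 1) .nil)),
   .der (nat_lit 1395) (nat_lit 106),
   .prs (.two (nat_lit 434) (nat_lit 1) (nat_lit 679) (nat_lit 2) (.two (nat_lit 1) (nat_lit 2) (nat_lit 616) (nat_lit 1) (.one (nat_lit 2001) (nat_lit 1) .nil))),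
   .prs (.two (nat_lit 2) (nat_lit 8) (nat_lit 720) (nat_lit 4) (.two (nat_lit 3) (nat_lit 4) (nat_lit 1413) (nat_lit 8) (.one (nat_lit 337) (nat_lit 8) .nil))),
   .prs (.two (nat_lit 173) (nat_lit 4) (nat_lit 482) (nat_lit 1) (.two (nat_lit 3) (nat_lit 1) (nat_lit 1868) (nat_lit 4) (.one (nat_lit 786) (nat_lit 2) .nil))),
   .der (nat_lit 2193) (nat_lit 93),
   .prs (.two (nat_lit 173) (nat_lit 16) (nat_lit 436) (nat_lit 1) (.two (nat_lit 3) (nat_lit 1) (nat_lit 2005) (nat_lit 16) .nil)),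
   .der (nat_lit 627) (nat_lit 10),
   .der (nat_lit 627) (nat_lit 64),
   .prs (.two (nat_lit 5) (nat_lit 16) (nat_lit 2007) (nat_lit 2) (.two (nat_lit 11) (nat_lit 16) (nat_lit 2008) (nat_lit 2) (.one (nat_lit 790) (nat_lit 2) .nil))),
   .der (nat_lit 627) (nat_lit 485),
   .prs (.two (nat_lit 740) (nat_lit 1) (nat_lit 1245) (nat_lit 4) (.two (nat_lit 0) (nat_lit 8) (nat_lit 2010) (nat_lit 4) .nil)),
   .der (nat_lit 100) (nat_lit 106),
   .prs (.two (nat_lit 202) (nat_lit 4) (nat_lit 1848) (nat_lit 2) (.one (nat_lit 2012) (nat_lit 2) .nil)),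
   .der (nat_lit 2) (nat_lit 84),
   .prs (.two (nat_lit 1068) (nat_lit 4) (nat_lit 122) (nat_lit 8) (.one (nat_lit 2014) (nat_lit 8) .nil)),
   .der (nat_lit 98) (nat_lit 709),
   .prs (.two (nat_lit 325) (nat_lit 8) (nat_lit 642) (nat_lit 1) (.one (nat_lit 2016) (nat_lit 1) .nil)),
   .prs (.two (nat_lit 7) (nat_lit 1) (nat_lit 434) (nat_lit 16) (.two (nat_lit 11) (nat_lit 16) (nat_lit 408) (nat_lit 1) .nil)),
   .der (nat_lit 137) (nat_lit 8),
   .der (nat_lit 577) (nat_lit 1209),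
   .prs (.two (nat_lit 202) (nat_lit 4) (nat_lit 2019) (nat_lit 8) (.two (nat_lit 1) (nat_lit 4) (nat_lit 2014) (nat_lit 8) (.one (nat_lit 2020) (nat_lit 8) .nil))),
   .der (nat_lit 5) (nat_lit 27),
   .der (nat_lit 339) (nat_lit 95),
   .der (nat_lit 36) (nat_lit 1163),
   .prs (.two (nat_lit 4) (nat_lit 2) (nat_lit 91) (nat_lit 4) (.two (nat_lit 1) (nat_lit 2) (nat_lit 2022) (nat_lit 4) (.two (nat_lit 0) (nat_lit 1) (nat_lit 2023) (nat_lit 2) (.one (nat_lit 2024) (nat_lit 1) .nil)))),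
   .der (nat_lit 1300) (nat_lit 21),
   .der (nat_lit 100) (nat_lit 700),
   .prs (.two (nat_lit 720) (nat_lit 1) (nat_lit 667) (nat_lit 2) (.two (nat_lit 16) (nat_lit 1) (nat_lit 2026) (nat_lit 2) (.two (nat_lit 0) (nat_lit 4) (nat_lit 2027) (nat_lit 2) .nil))),
   .der (nat_lit 9572) (nat_lit 13),
   .der (nat_lit 339) (nat_lit 149),
   .der (nat_lit 115) (nat_lit 909),
   .prs (.two (nat_lit 2) (nat_lit 16) (nat_lit 1401) (nat_lit 1) (.two (nat_lit 3) (nat_lit 16) (nat_lit 2029) (nat_lit 1) (.two (nat_lit 0) (nat_lit 2) (nat_lit 2030) (nat_lit 1) (.one (nat_lit 2031) (nat_lit 16) .nil)))),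
   .prs (.two (nat_lit 34) (nat_lit 8) (nat_lit 791) (nat_lit 2) (.two (nat_lit 1) (nat_lit 2) (nat_lit 63) (nat_lit 8) (.two (nat_lit 0) (nat_lit 16) (nat_lit 1691) (nat_lit 8) .nil))),
   .der (nat_lit 137) (nat_lit 135),
   .der (nat_lit 18) (nat_lit 666),
   .prs (.two (nat_lit 2) (nat_lit 8) (nat_lit 625) (nat_lit 1) (.two (nat_lit 1) (nat_lit 16) (nat_lit 2034) (nat_lit 8) (.one (nat_lit 2035) (nat_lit 1) .nil))),
   .der (nat_lit 30226) (nat_lit 539),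
   .prs (.two (nat_lit 482) (nat_lit 8) (nat_lit 1322) (nat_lit 2) (.two (nat_lit 0) (nat_lit 16) (nat_lit 2037) (nat_lit 2) .nil)),
   .der (nat_lit 1073) (nat_lit 539),
   .prs (.two (nat_lit 144) (nat_lit 4) (nat_lit 1245) (nat_lit 1) (.two (nat_lit 0) (nat_lit 2) (nat_lit 2039) (nat_lit 1) .nil)),
   .der (nat_lit 1074) (nat_lit 74),
   .prs (.two (nat_lit 5) (nat_lit 8) (nat_lit 273) (nat_lit 1) (.two (nat_lit 3) (nat_lit 8) (nat_lit 2041) (nat_lit 1) (.one (nat_lit 1318) (nat_lit 1) .nil))),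
   .der (nat_lit 101) (nat_lit 52),
   .der (nat_lit 35) (nat_lit 95),
   .prs (.two (nat_lit 463) (nat_lit 4) (nat_lit 791) (nat_lit 2) (.two (nat_lit 3) (nat_lit 1) (nat_lit 2043) (nat_lit 2) (.two (nat_lit 0) (nat_lit 1) (nat_lit 2044) (nat_lit 4) (.one (nat_lit 1321) (nat_lit 1) .nil)))),
   .der (nat_lit 1) (nat_lit 72),
   .prs (.two (nat_lit 7) (nat_lit 1) (nat_lit 124) (nat_lit 2) (.two (nat_lit 1) (nat_lit 16) (nat_lit 2046) (nat_lit 1) (.one (nat_lit 800) (nat_lit 2) .nil))),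
   .der (nat_lit 577) (nat_lit 317),
   .prs (.two (nat_lit 170) (nat_lit 4) (nat_lit 347) (nat_lit 1) (.one (nat_lit 2048) (nat_lit 4) .nil)),
   .der (nat_lit 9572) (nat_lit 106),
   .prs (.two (nat_lit 434) (nat_lit 1) (nat_lit 1161) (nat_lit 2) (.two (nat_lit 1) (nat_lit 2) (nat_lit 616) (nat_lit 1) (.one (nat_lit 2050) (nat_lit 1) .nil))),
   .prs (.two (nat_lit 202) (nat_lit 4) (nat_lit 968) (nat_lit 2) (.one (nat_lit 802) (nat_lit 4) .nil)),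
   .der (nat_lit 1556) (nat_lit 709),
   .prs (.two (nat_lit 463) (nat_lit 16) (nat_lit 17) (nat_lit 2) (.two (nat_lit 1) (nat_lit 2) (nat_lit 390) (nat_lit 16) (.one (nat_lit 2053) (nat_lit 2) .nil))),
   .der (nat_lit 117) (nat_lit 55),
   .der (nat_lit 1) (nat_lit 84),
   .prs (.two (nat_lit 463) (nat_lit 16) (nat_lit 2055) (nat_lit 8) (.one (nat_lit 2056) (nat_lit 8) .nil)),
   .der (nat_lit 1122) (nat_lit 31),
   .der (nat_lit 2193) (nat_lit 77),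
   .prs (.two (nat_lit 740) (nat_lit 1) (nat_lit 998) (nat_lit 2) (.two (nat_lit 0) (nat_lit 2) (nat_lit 2058) (nat_lit 1) (.one (nat_lit 2059) (nat_lit 1) .nil))),
   .der (nat_lit 10) (nat_lit 255),
   .prs (.two (nat_lit 384) (nat_lit 16) (nat_lit 543) (nat_lit 8) (.two (nat_lit 0) (nat_lit 8) (nat_lit 759) (nat_lit 16) (.one (nat_lit 2061) (nat_lit 8) .nil))),
   .der (nat_lit 1107) (nat_lit 31),
   .der (nat_lit 129) (nat_lit 106),
   .prs (.two (nat_lit 5) (nat_lit 16) (nat_lit 1048) (nat_lit 1) (.two (nat_lit 0) (nat_lit 16) (nat_lit 2063) (nat_lit 1) (.one (nat_lit 2064) (nat_lit 1) .nil))),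
   .der (nat_lit 37425) (nat_lit 10),
   .der (nat_lit 37425) (nat_lit 64),
   .der (nat_lit 1073) (nat_lit 461),
   .prs (.two (nat_lit 384) (nat_lit 8) (nat_lit 2066) (nat_lit 4) (.two (nat_lit 1) (nat_lit 4) (nat_lit 38) (nat_lit 8) (.two (nat_lit 0) (nat_lit 8) (nat_lit 2067) (nat_lit 4) (.one (nat_lit 2068) (nat_lit 4) .nil)))),
   .der (nat_lit 5218) (nat_lit 37),
   .der (nat_lit 1415) (nat_lit 760),
   .prs (.two (nat_lit 329) (nat_lit 16) (nat_lit 1113) (nat_lit 2) (.two (nat_lit 0) (nat_lit 16) (nat_lit 2070) (nat_lit 2) (.one (nat_lit 2071) (nat_lit 2) .nil))),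
   .der (nat_lit 52) (nat_lit 6),
   .der (nat_lit 2578) (nat_lit 27),
   .der (nat_lit 627) (nat_lit 455),
   .prs (.two (nat_lit 17) (nat_lit 4) (nat_lit 2073) (nat_lit 8) (.two (nat_lit 1) (nat_lit 4) (nat_lit 2074) (nat_lit 8) (.two (nat_lit 0) (nat_lit 1) (nat_lit 2075) (nat_lit 8) .nil))),
   .der (nat_lit 834) (nat_lit 77),
   .prs (.two (nat_lit 361) (nat_lit 2) (nat_lit 25) (nat_lit 8) (.two (nat_lit 1) (nat_lit 2) (nat_lit 2077) (nat_lit 8) .nil)),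
   .der (nat_lit 35) (nat_lit 135),
   .der (nat_lit 644) (nat_lit 702),
   .prs (.two (nat_lit 710) (nat_lit 4) (nat_lit 109) (nat_lit 8) (.two (nat_lit 0) (nat_lit 4) (nat_lit 2079) (nat_lit 2) (.one (nat_lit 2080) (nat_lit 2) .nil))),
   .der (nat_lit 9572) (nat_lit 220),
   .prs (.two (nat_lit 439) (nat_lit 2) (nat_lit 522) (nat_lit 8) (.two (nat_lit 0) (nat_lit 1) (nat_lit 2082) (nat_lit 2) (.one (nat_lit 1332) (nat_lit 8) .nil))),
   .prs (.two (nat_lit 334) (nat_lit 1) (nat_lit 825) (nat_lit 4) (.two (nat_lit 0) (nat_lit 1) (nat_lit 1426) (nat_lit 4) .nil)),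
   .der (nat_lit 354) (nat_lit 21),
   .der (nat_lit 50) (nat_lit 72),
   .prs (.two (nat_lit 99) (nat_lit 2) (nat_lit 91) (nat_lit 4) (.two (nat_lit 1) (nat_lit 4) (nat_lit 2085) (nat_lit 2) (.two (nat_lit 0) (nat_lit 16) (nat_lit 2086) (nat_lit 2) (.one (nat_lit 1335) (nat_lit 4) .nil)))),
   .der (nat_lit 2390) (nat_lit 307),
   .prs (.two (nat_lit 325) (nat_lit 16) (nat_lit 825) (nat_lit 4) (.two (nat_lit 0) (nat_lit 1) (nat_lit 2088) (nat_lit 4) (.one (nat_lit 805) (nat_lit 4) .nil))),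
   .der (nat_lit 2084) (nat_lit 4),
   .prs (.two (nat_lit 2090) (nat_lit 2) (nat_lit 1846) (nat_lit 8) (.one (nat_lit 1337) (nat_lit 8) .nil)),
   .der (nat_lit 1811) (nat_lit 27),
   .der (nat_lit 1893) (nat_lit 672),
   .prs (.two (nat_lit 2) (nat_lit 4) (nat_lit 2092) (nat_lit 1) (.two (nat_lit 0) (nat_lit 8) (nat_lit 2093) (nat_lit 1) .nil)),
   .der (nat_lit 561) (nat_lit 272),
   .prs (.two (nat_lit 2) (nat_lit 8) (nat_lit 519) (nat_lit 16) (.two (nat_lit 1) (nat_lit 16) (nat_lit 13) (nat_lit 8) (.one (nat_lit 2095) (nat_lit 1) .nil))),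
   .prs (.two (nat_lit 1068) (nat_lit 4) (nat_lit 1582) (nat_lit 1) (.two (nat_lit 0) (nat_lit 4) (nat_lit 354) (nat_lit 1) (.one (nat_lit 1345) (nat_lit 1) .nil))),
   .der (nat_lit 1073) (nat_lit 84),
   .prs (.two (nat_lit 4) (nat_lit 2) (nat_lit 965) (nat_lit 4) (.two (nat_lit 0) (nat_lit 2) (nat_lit 2098) (nat_lit 1) (.one (nat_lit 187) (nat_lit 1) .nil))),
   .der (nat_lit 161) (nat_lit 15),
   .der (nat_lit 21092) (nat_lit 208),
   .prs (.two (nat_lit 482) (nat_lit 4) (nat_lit 2100) (nat_lit 2) (.two (nat_lit 1) (nat_lit 2) (nat_lit 1236) (nat_lit 4) (.two (nat_lit 0) (nat_lit 8) (nat_lit 2101) (nat_lit 2) (.one (nat_lit 810) (nat_lit 4) .nil)))),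
   .der (nat_lit 101) (nat_lit 220),
   .prs (.two (nat_lit 7) (nat_lit 1) (nat_lit 352) (nat_lit 4) (.two (nat_lit 0) (nat_lit 1) (nat_lit 650) (nat_lit 4) (.one (nat_lit 2103) (nat_lit 1) .nil))),
   .der (nat_lit 150) (nat_lit 131),
   .prs (.two (nat_lit 2) (nat_lit 4) (nat_lit 1214) (nat_lit 16) (.two (nat_lit 3) (nat_lit 16) (nat_lit 2105) (nat_lit 4) .nil)),
   .der (nat_lit 150) (nat_lit 21),
   .der (nat_lit 2135) (nat_lit 610),
   .prs (.two (nat_lit 34) (nat_lit 2) (nat_lit 170) (nat_lit 4) (.two (nat_lit 1) (nat_lit 2) (nat_lit 2107) (nat_lit 4) (.one (nat_lit 2108) (nat_lit 4) .nil))),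
   .der (nat_lit 34068) (nat_lit 64),
   .prs (.two (nat_lit 356) (nat_lit 1) (nat_lit 998) (nat_lit 8) (.two (nat_lit 11) (nat_lit 1) (nat_lit 2110) (nat_lit 8) (.one (nat_lit 814) (nat_lit 8) .nil))),
   .der (nat_lit 83) (nat_lit 45),
   .der (nat_lit 66) (nat_lit 688),
   .prs (.two (nat_lit 5) (nat_lit 16) (nat_lit 2112) (nat_lit 2) (.two (nat_lit 0) (nat_lit 8) (nat_lit 2113) (nat_lit 2) .nil)),
   .der (nat_lit 1893) (nat_lit 39),
   .der (nat_lit 22803) (nat_lit 539),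
   .prs (.two (nat_lit 5) (nat_lit 16) (nat_lit 2115) (nat_lit 2) (.one (nat_lit 2116) (nat_lit 2) .nil)),
   .der (nat_lit 1620) (nat_lit 131),
   .prs (.two (nat_lit 4) (nat_lit 16) (nat_lit 9) (nat_lit 1) (.two (nat_lit 1) (nat_lit 16) (nat_lit 2118) (nat_lit 1) .nil)),
   .prs (.two (nat_lit 404) (nat_lit 8) (nat_lit 1413) (nat_lit 4) (.two (nat_lit 3) (nat_lit 8) (nat_lit 1460) (nat_lit 4) (.one (nat_lit 1352) (nat_lit 4) .nil))),
   .der (nat_lit 852) (nat_lit 495),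
   .prs (.two (nat_lit 75) (nat_lit 4) (nat_lit 53) (nat_lit 8) (.two (nat_lit 1) (nat_lit 4) (nat_lit 1313) (nat_lit 8) (.two (nat_lit 0) (nat_lit 8) (nat_lit 817) (nat_lit 4) (.one (nat_lit 2121) (nat_lit 4) .nil)))),
   .der (nat_lit 1299) (nat_lit 64),
   .prs (.two (nat_lit 190) (nat_lit 16) (nat_lit 1299) (nat_lit 1) (.two (nat_lit 11) (nat_lit 1) (nat_lit 2123) (nat_lit 16) (.one (nat_lit 545) (nat_lit 16) .nil))),
   .der (nat_lit 1430) (nat_lit 67),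
   .der (nat_lit 2135) (nat_lit 495),
   .prs (.two (nat_lit 482) (nat_lit 4) (nat_lit 965) (nat_lit 2) (.two (nat_lit 0) (nat_lit 4) (nat_lit 2125) (nat_lit 2) (.one (nat_lit 2126) (nat_lit 2) .nil))),
   .der (nat_lit 1620) (nat_lit 640),
   .prs (.two (nat_lit 556) (nat_lit 8) (nat_lit 1355) (nat_lit 4) (.one (nat_lit 2128) (nat_lit 4) .nil)),
   .der (nat_lit 354) (nat_lit 35),
   .der (nat_lit 1074) (nat_lit 485),
   .prs (.two (nat_lit 34) (nat_lit 16) (nat_lit 253) (nat_lit 8) (.two (nat_lit 1) (nat_lit 8) (nat_lit 2130) (nat_lit 16) (.one (nat_lit 2131) (nat_lit 16) .nil))),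
   .der (nat_lit 2433) (nat_lit 8),
   .der (nat_lit 117) (nat_lit 177),
   .der (nat_lit 644) (nat_lit 1196),
   .prs (.two (nat_lit 124) (nat_lit 1) (nat_lit 2133) (nat_lit 4) (.two (nat_lit 482) (nat_lit 4) (nat_lit 1390) (nat_lit 1) (.two (nat_lit 1) (nat_lit 8) (nat_lit 1471) (nat_lit 4) (.two (nat_lit 0) (nat_lit 8) (nat_lit 2134) (nat_lit 4) (.one (nat_lit 2135) (nat_lit 1) .nil))))),
   .der (nat_lit 118) (nat_lit 578),
   .prs (.two (nat_lit 9) (nat_lit 16) (nat_lit 1095) (nat_lit 4) (.two (nat_lit 0) (nat_lit 1) (nat_lit 2137) (nat_lit 4) .nil)),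
   .der (nat_lit 612) (nat_lit 74),
   .prs (.two (nat_lit 374) (nat_lit 16) (nat_lit 1180) (nat_lit 2) (.two (nat_lit 1) (nat_lit 2) (nat_lit 86) (nat_lit 16) (.two (nat_lit 0) (nat_lit 1) (nat_lit 2139) (nat_lit 2) (.one (nat_lit 1367) (nat_lit 2) .nil)))),
   .prs (.two (nat_lit 463) (nat_lit 16) (nat_lit 122) (nat_lit 8) (.two (nat_lit 0) (nat_lit 2) (nat_lit 93) (nat_lit 8) (.one (nat_lit 1369) (nat_lit 8) .nil))),
   .der (nat_lit 162) (nat_lit 551),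
   .prs (.two (nat_lit 7) (nat_lit 1) (nat_lit 858) (nat_lit 4) (.two (nat_lit 0) (nat_lit 8) (nat_lit 2142) (nat_lit 1) .nil)),
   .der (nat_lit 17185) (nat_lit 8),
   .der (nat_lit 5218) (nat_lit 106),
   .der (nat_lit 16738) (nat_lit 1265),
   .prs (.two (nat_lit 556) (nat_lit 8) (nat_lit 2144) (nat_lit 1) (.two (nat_lit 1) (nat_lit 8) (nat_lit 2145) (nat_lit 1) (.one (nat_lit 2146) (nat_lit 8) .nil))),
   .der (nat_lit 2593) (nat_lit 10),
   .der (nat_lit 98) (nat_lit 98),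
   .prs (.two (nat_lit 443) (nat_lit 4) (nat_lit 2148) (nat_lit 16) (.two (nat_lit 16) (nat_lit 4) (nat_lit 2149) (nat_lit 16) (.one (nat_lit 818) (nat_lit 16) .nil))),
   .prs (.two (nat_lit 214) (nat_lit 4) (nat_lit 13) (nat_lit 8) (.two (nat_lit 0) (nat_lit 4) (nat_lit 1764) (nat_lit 8) (.one (nat_lit 819) (nat_lit 8) .nil))),
   .der (nat_lit 22548) (nat_lit 131),
   .der (nat_lit 1556) (nat_lit 1345),
   .prs (.two (nat_lit 433) (nat_lit 4) (nat_lit 390) (nat_lit 2) (.two (nat_lit 0) (nat_lit 2) (nat_lit 2152) (nat_lit 4) (.one (nat_lit 2153) (nat_lit 2) .nil))),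
   .der (nat_lit 8) (nat_lit 76),
   .prs (.two (nat_lit 75) (nat_lit 4) (nat_lit 554) (nat_lit 2) (.two (nat_lit 0) (nat_lit 2) (nat_lit 2155) (nat_lit 4) (.one (nat_lit 1374) (nat_lit 8) .nil))),
   .der (nat_lit 17185) (nat_lit 31),
   .der (nat_lit 627) (nat_lit 93),
   .der (nat_lit 5) (nat_lit 640),
   .prs (.two (nat_lit 710) (nat_lit 1) (nat_lit 543) (nat_lit 8) (.two (nat_lit 1) (nat_lit 8) (nat_lit 2157) (nat_lit 1) (.two (nat_lit 0) (nat_lit 8) (nat_lit 2158) (nat_lit 1) (.one (nat_lit 2159) (nat_lit 1) .nil)))),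
   .der (nat_lit 1395) (nat_lit 649),
   .prs (.two (nat_lit 374) (nat_lit 16) (nat_lit 1842) (nat_lit 2) (.two (nat_lit 1) (nat_lit 2) (nat_lit 1195) (nat_lit 16) (.one (nat_lit 2161) (nat_lit 16) .nil))),
   .prs (.two (nat_lit 7) (nat_lit 16) (nat_lit 178) (nat_lit 1) (.two (nat_lit 3) (nat_lit 1) (nat_lit 1195) (nat_lit 16) .nil)),
   .der (nat_lit 1) (nat_lit 95),
   .prs (.two (nat_lit 4) (nat_lit 2) (nat_lit 68) (nat_lit 16) (.two (nat_lit 11) (nat_lit 16) (nat_lit 2164) (nat_lit 2) .nil)),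
   .der (nat_lit 2) (nat_lit 39),
   .prs (.two (nat_lit 4) (nat_lit 8) (nat_lit 7) (nat_lit 16) (.two (nat_lit 3) (nat_lit 16) (nat_lit 2166) (nat_lit 8) .nil)),
   .der (nat_lit 33) (nat_lit 37),
   .der (nat_lit 129) (nat_lit 421),
   .der (nat_lit 801) (nat_lit 1377),
   .prs (.two (nat_lit 6) (nat_lit 8) (nat_lit 2168) (nat_lit 1) (.two (nat_lit 1) (nat_lit 4) (nat_lit 2169) (nat_lit 8) (.one (nat_lit 2170) (nat_lit 1) .nil))),
   .der (nat_lit 18) (nat_lit 74),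
   .der (nat_lit 35) (nat_lit 403),
   .der (nat_lit 98) (nat_lit 850),
   .der (nat_lit 18) (nat_lit 1389),
   .prs (.two (nat_lit 6) (nat_lit 4) (nat_lit 554) (nat_lit 2) (.two (nat_lit 4) (nat_lit 2) (nat_lit 2172) (nat_lit 8) (.two (nat_lit 1) (nat_lit 2) (nat_lit 2173) (nat_lit 4) (.two (nat_lit 0) (nat_lit 1) (nat_lit 2174) (nat_lit 2) (.one (nat_lit 2175) (nat_lit 2) .nil))))),
   .der (nat_lit 49) (nat_lit 73),
   .der (nat_lit 49) (nat_lit 417),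
   .der (nat_lit 801) (nat_lit 861),
   .prs (.two (nat_lit 6) (nat_lit 4) (nat_lit 94) (nat_lit 2) (.two (nat_lit 2) (nat_lit 4) (nat_lit 2177) (nat_lit 1) (.two (nat_lit 1) (nat_lit 4) (nat_lit 2178) (nat_lit 1) (.one (nat_lit 2179) (nat_lit 1) .nil)))),
   .der (nat_lit 49) (nat_lit 421),
   .der (nat_lit 801) (nat_lit 864),
   .prs (.two (nat_lit 6) (nat_lit 4) (nat_lit 37) (nat_lit 8) (.two (nat_lit 1) (nat_lit 4) (nat_lit 2181) (nat_lit 1) (.one (nat_lit 2182) (nat_lit 1) .nil))),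
   .der (nat_lit 7) (nat_lit 64),
   .der (nat_lit 2578) (nat_lit 870),
   .prs (.two (nat_lit 227) (nat_lit 16) (nat_lit 1480) (nat_lit 8) (.two (nat_lit 325) (nat_lit 16) (nat_lit 2184) (nat_lit 8) (.two (nat_lit 1) (nat_lit 8) (nat_lit 1394) (nat_lit 16) (.two (nat_lit 0) (nat_lit 1) (nat_lit 2185) (nat_lit 16) (.one (nat_lit 1446) (nat_lit 8) .nil))))),
   .der (nat_lit 21092) (nat_lit 72),
   .prs (.two (nat_lit 537) (nat_lit 16) (nat_lit 459) (nat_lit 2) (.two (nat_lit 434) (nat_lit 16) (nat_lit 2187) (nat_lit 2) (.two (nat_lit 1) (nat_lit 2) (nat_lit 416) (nat_lit 16) (.two (nat_lit 0) (nat_lit 2) (nat_lit 906) (nat_lit 16) (.one (nat_lit 1448) (nat_lit 16) .nil))))),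
   .der (nat_lit 1) (nat_lit 59),
   .der (nat_lit 84) (nat_lit 923),
   .prs (.two (nat_lit 28) (nat_lit 16) (nat_lit 109) (nat_lit 1) (.two (nat_lit 3) (nat_lit 1) (nat_lit 2189) (nat_lit 16) (.two (nat_lit 0) (nat_lit 1) (nat_lit 451) (nat_lit 16) (.one (nat_lit 2190) (nat_lit 1) .nil)))),
   .prs (.two (nat_lit 129) (nat_lit 4) (nat_lit 32) (nat_lit 8) (.two (nat_lit 740) (nat_lit 8) (nat_lit 895) (nat_lit 2) (.two (nat_lit 1) (nat_lit 4) (nat_lit 1445) (nat_lit 2) (.two (nat_lit 0) (nat_lit 4) (nat_lit 917) (nat_lit 2) (.one (nat_lit 1453) (nat_lit 2) .nil))))),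
   .der (nat_lit 152) (nat_lit 67),
   .prs (.two (nat_lit 1459) (nat_lit 2) (nat_lit 1435) (nat_lit 4) (.two (nat_lit 384) (nat_lit 1) (nat_lit 1113) (nat_lit 2) (.two (nat_lit 1) (nat_lit 2) (nat_lit 2193) (nat_lit 4) (.two (nat_lit 0) (nat_lit 1) (nat_lit 453) (nat_lit 4) (.one (nat_lit 897) (nat_lit 1) .nil))))),
   .der (nat_lit 561) (nat_lit 35),
   .der (nat_lit 1893) (nat_lit 177),
   .prs (.two (nat_lit 6) (nat_lit 16) (nat_lit 2195) (nat_lit 1) (.two (nat_lit 0) (nat_lit 8) (nat_lit 2196) (nat_lit 16) (.one (nat_lit 1484) (nat_lit 2) .nil))),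
   .der (nat_lit 19) (nat_lit 417),
   .prs (.two (nat_lit 227) (nat_lit 8) (nat_lit 127) (nat_lit 2) (.two (nat_lit 75) (nat_lit 2) (nat_lit 1925) (nat_lit 8) (.two (nat_lit 1) (nat_lit 2) (nat_lit 82) (nat_lit 8) (.two (nat_lit 0) (nat_lit 1) (nat_lit 2198) (nat_lit 2) (.one (nat_lit 1456) (nat_lit 1) .nil))))),
   .der (nat_lit 834) (nat_lit 371),
   .prs (.two (nat_lit 6) (nat_lit 4) (nat_lit 53) (nat_lit 2) (.two (nat_lit 5) (nat_lit 16) (nat_lit 2168) (nat_lit 1) (.two (nat_lit 0) (nat_lit 1) (nat_lit 2200) (nat_lit 2) (.one (nat_lit 948) (nat_lit 1) .nil)))),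
   .der (nat_lit 50) (nat_lit 1408),
   .prs (.two (nat_lit 167) (nat_lit 1) (nat_lit 1587) (nat_lit 8) (.two (nat_lit 11) (nat_lit 1) (nat_lit 1404) (nat_lit 8) (.two (nat_lit 0) (nat_lit 1) (nat_lit 921) (nat_lit 8) (.one (nat_lit 2202) (nat_lit 8) .nil)))),
   .der (nat_lit 8) (nat_lit 82),
   .prs (.two (nat_lit 65) (nat_lit 2) (nat_lit 145) (nat_lit 4) (.two (nat_lit 4) (nat_lit 2) (nat_lit 1124) (nat_lit 4) (.two (nat_lit 1) (nat_lit 2) (nat_lit 2204) (nat_lit 4) (.two (nat_lit 0) (nat_lit 1) (nat_lit 925) (nat_lit 4) (.one (nat_lit 1461) (nat_lit 1) .nil))))),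
   .der (nat_lit 370) (nat_lit 98),
   .der (nat_lit 2323) (nat_lit 177),
   .der (nat_lit 3) (nat_lit 873),
   .der (nat_lit 339) (nat_lit 1428),
   .prs (.two (nat_lit 6) (nat_lit 8) (nat_lit 270) (nat_lit 1) (.two (nat_lit 170) (nat_lit 2) (nat_lit 2206) (nat_lit 1) (.two (nat_lit 1) (nat_lit 2) (nat_lit 2207) (nat_lit 1) (.two (nat_lit 0) (nat_lit 8) (nat_lit 2208) (nat_lit 1) (.one (nat_lit 2209) (nat_lit 2) .nil))))),
   .der (nat_lit 5) (nat_lit 95),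
   .der (nat_lit 137) (nat_lit 425),
   .der (nat_lit 12658) (nat_lit 1396),
   .prs (.two (nat_lit 42) (nat_lit 8) (nat_lit 145) (nat_lit 4) (.two (nat_lit 2) (nat_lit 8) (nat_lit 2211) (nat_lit 1) (.two (nat_lit 1) (nat_lit 4) (nat_lit 2212) (nat_lit 1) (.one (nat_lit 2213) (nat_lit 1) .nil)))),
   .der (nat_lit 1) (nat_lit 927),
   .prs (.two (nat_lit 6) (nat_lit 4) (nat_lit 520) (nat_lit 8) (.two (nat_lit 1) (nat_lit 4) (nat_lit 64) (nat_lit 8) (.two (nat_lit 0) (nat_lit 1) (nat_lit 2215) (nat_lit 4) .nil))),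
   .der (nat_lit 101) (nat_lit 39),
   .der (nat_lit 1554) (nat_lit 172),
   .der (nat_lit 33) (nat_lit 927),
   .prs (.two (nat_lit 12) (nat_lit 1) (nat_lit 520) (nat_lit 8) (.two (nat_lit 493) (nat_lit 8) (nat_lit 2217) (nat_lit 2) (.two (nat_lit 1) (nat_lit 8) (nat_lit 2218) (nat_lit 2) (.two (nat_lit 0) (nat_lit 2) (nat_lit 2219) (nat_lit 1) (.one (nat_lit 1475) (nat_lit 8) .nil))))),
   .der (nat_lit 2390) (nat_lit 172),
   .prs (.two (nat_lit 427) (nat_lit 2) (nat_lit 637) (nat_lit 8) (.two (nat_lit 1068) (nat_lit 16) (nat_lit 941) (nat_lit 1) (.two (nat_lit 0) (nat_lit 16) (nat_lit 2221) (nat_lit 1) (.one (nat_lit 1487) (nat_lit 8) .nil)))),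
   .der (nat_lit 37425) (nat_lit 76),
   .prs (.two (nat_lit 129) (nat_lit 8) (nat_lit 105) (nat_lit 16) (.two (nat_lit 1) (nat_lit 8) (nat_lit 2223) (nat_lit 16) (.two (nat_lit 0) (nat_lit 16) (nat_lit 461) (nat_lit 8) (.one (nat_lit 1490) (nat_lit 8) .nil)))),
   .der (nat_lit 1073) (nat_lit 37),
   .der (nat_lit 18) (nat_lit 1399),
   .prs (.two (nat_lit 404) (nat_lit 8) (nat_lit 71) (nat_lit 1) (.two (nat_lit 7) (nat_lit 8) (nat_lit 2225) (nat_lit 1) (.two (nat_lit 3) (nat_lit 1) (nat_lit 1404) (nat_lit 8) (.two (nat_lit 0) (nat_lit 1) (nat_lit 930) (nat_lit 8) (.one (nat_lit 2226) (nat_lit 1) .nil))))),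
   .der (nat_lit 145) (nat_lit 864),
   .prs (.two (nat_lit 723) (nat_lit 1) (nat_lit 582) (nat_lit 8) (.two (nat_lit 190) (nat_lit 1) (nat_lit 1462) (nat_lit 8) (.two (nat_lit 3) (nat_lit 1) (nat_lit 1429) (nat_lit 8) (.two (nat_lit 0) (nat_lit 1) (nat_lit 934) (nat_lit 8) (.one (nat_lit 2228) (nat_lit 8) .nil))))),
   .der (nat_lit 21107) (nat_lit 98),
   .der (nat_lit 2390) (nat_lit 897),
   .prs (.two (nat_lit 65) (nat_lit 2) (nat_lit 509) (nat_lit 8) (.two (nat_lit 11) (nat_lit 2) (nat_lit 2230) (nat_lit 1) (.two (nat_lit 0) (nat_lit 16) (nat_lit 2231) (nat_lit 1) .nil))),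
   .der (nat_lit 16738) (nat_lit 101),
   .der (nat_lit 339) (nat_lit 453),
   .der (nat_lit 83) (nat_lit 897),
   .prs (.two (nat_lit 129) (nat_lit 4) (nat_lit 1416) (nat_lit 8) (.two (nat_lit 1) (nat_lit 4) (nat_lit 2233) (nat_lit 2) (.two (nat_lit 0) (nat_lit 8) (nat_lit 2234) (nat_lit 2) (.one (nat_lit 2235) (nat_lit 8) .nil)))),
   .der (nat_lit 21107) (nat_lit 76),
   .prs (.two (nat_lit 6) (nat_lit 4) (nat_lit 965) (nat_lit 2) (.two (nat_lit 1) (nat_lit 4) (nat_lit 2237) (nat_lit 2) (.two (nat_lit 0) (nat_lit 1) (nat_lit 465) (nat_lit 2) (.one (nat_lit 1491) (nat_lit 1) .nil)))),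
   .der (nat_lit 145) (nat_lit 101),
   .der (nat_lit 103) (nat_lit 432),
   .prs (.two (nat_lit 489) (nat_lit 2) (nat_lit 528) (nat_lit 8) (.two (nat_lit 75) (nat_lit 2) (nat_lit 122) (nat_lit 8) (.two (nat_lit 1) (nat_lit 2) (nat_lit 2239) (nat_lit 8) (.two (nat_lit 0) (nat_lit 1) (nat_lit 2240) (nat_lit 2) (.one (nat_lit 1493) (nat_lit 2) .nil))))),
   .der (nat_lit 644) (nat_lit 10),
   .der (nat_lit 659) (nat_lit 29),
   .prs (.two (nat_lit 12) (nat_lit 8) (nat_lit 2242) (nat_lit 1) (.two (nat_lit 7) (nat_lit 8) (nat_lit 2243) (nat_lit 1) (.two (nat_lit 1) (nat_lit 16) (nat_lit 82) (nat_lit 8) (.one (nat_lit 1494) (nat_lit 1) .nil)))),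
   .der (nat_lit 33345) (nat_lit 37),
   .der (nat_lit 2084) (nat_lit 417),
   .prs (.two (nat_lit 6) (nat_lit 16) (nat_lit 522) (nat_lit 4) (.two (nat_lit 75) (nat_lit 16) (nat_lit 2245) (nat_lit 4) (.two (nat_lit 46) (nat_lit 8) (nat_lit 2246) (nat_lit 4) (.one (nat_lit 1482) (nat_lit 4) .nil)))),
   .prs (.two (nat_lit 65) (nat_lit 2) (nat_lit 129) (nat_lit 8) (.two (nat_lit 34) (nat_lit 2) (nat_lit 1000) (nat_lit 1) (.two (nat_lit 1) (nat_lit 16) (nat_lit 924) (nat_lit 1) (.one (nat_lit 1496) (nat_lit 2) .nil)))),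
   .prs (.two (nat_lit 36) (nat_lit 2) (nat_lit 145) (nat_lit 4) (.two (nat_lit 493) (nat_lit 2) (nat_lit 1124) (nat_lit 4) (.two (nat_lit 1) (nat_lit 2) (nat_lit 1460) (nat_lit 4) (.two (nat_lit 0) (nat_lit 2) (nat_lit 943) (nat_lit 4) (.one (nat_lit 1428) (nat_lit 2) .nil))))),
   .der (nat_lit 1299) (nat_lit 182),
   .prs (.two (nat_lit 362) (nat_lit 2) (nat_lit 40) (nat_lit 8) (.two (nat_lit 622) (nat_lit 8) (nat_lit 1113) (nat_lit 2) (.two (nat_lit 3) (nat_lit 8) (nat_lit 900) (nat_lit 4) (.two (nat_lit 0) (nat_lit 16) (nat_lit 2250) (nat_lit 4) (.one (nat_lit 1497) (nat_lit 4) .nil))))),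
   .der (nat_lit 2135) (nat_lit 39),
   .der (nat_lit 118) (nat_lit 182),
   .der (nat_lit 1653) (nat_lit 421),
   .prs (.two (nat_lit 882) (nat_lit 4) (nat_lit 147) (nat_lit 2) (.two (nat_lit 170) (nat_lit 2) (nat_lit 2252) (nat_lit 4) (.two (nat_lit 0) (nat_lit 4) (nat_lit 2253) (nat_lit 2) (.one (nat_lit 2254) (nat_lit 2) .nil)))),
   .der (nat_lit 1653) (nat_lit 95),
   .prs (.two (nat_lit 129) (nat_lit 4) (nat_lit 44) (nat_lit 8) (.two (nat_lit 7) (nat_lit 8) (nat_lit 2256) (nat_lit 2) (.two (nat_lit 0) (nat_lit 8) (nat_lit 972) (nat_lit 2) (.one (nat_lit 1498) (nat_lit 2) .nil)))),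
   .prs (.two (nat_lit 1459) (nat_lit 2) (nat_lit 209) (nat_lit 4) (.two (nat_lit 34) (nat_lit 2) (nat_lit 145) (nat_lit 4) (.two (nat_lit 1) (nat_lit 2) (nat_lit 1417) (nat_lit 4) (.one (nat_lit 1500) (nat_lit 4) .nil)))),
   .der (nat_lit 152) (nat_lit 87),
   .der (nat_lit 2113) (nat_lit 923),
   .prs (.two (nat_lit 51) (nat_lit 2) (nat_lit 15) (nat_lit 1) (.two (nat_lit 99) (nat_lit 2) (nat_lit 2259) (nat_lit 1) (.two (nat_lit 0) (nat_lit 2) (nat_lit 477) (nat_lit 1) (.one (nat_lit 2260) (nat_lit 1) .nil)))),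
   .prs (.two (nat_lit 65) (nat_lit 8) (nat_lit 815) (nat_lit 2) (.two (nat_lit 34) (nat_lit 8) (nat_lit 94) (nat_lit 2) (.two (nat_lit 1) (nat_lit 2) (nat_lit 1410) (nat_lit 8) (.one (nat_lit 1503) (nat_lit 8) .nil)))),
   .der (nat_lit 1395) (nat_lit 371),
   .prs (.two (nat_lit 404) (nat_lit 8) (nat_lit 956) (nat_lit 4) (.two (nat_lit 2) (nat_lit 4) (nat_lit 550) (nat_lit 8) (.two (nat_lit 3) (nat_lit 8) (nat_lit 2263) (nat_lit 4) (.one (nat_lit 1506) (nat_lit 4) .nil)))),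
   .der (nat_lit 1811) (nat_lit 84),
   .prs (.two (nat_lit 30) (nat_lit 8) (nat_lit 1413) (nat_lit 4) (.two (nat_lit 1) (nat_lit 8) (nat_lit 2265) (nat_lit 2) (.two (nat_lit 0) (nat_lit 8) (nat_lit 479) (nat_lit 4) (.one (nat_lit 1508) (nat_lit 2) .nil)))),
   .der (nat_lit 833) (nat_lit 182),
   .prs (.two (nat_lit 129) (nat_lit 4) (nat_lit 49) (nat_lit 1) (.two (nat_lit 514) (nat_lit 2) (nat_lit 43) (nat_lit 1) (.two (nat_lit 1) (nat_lit 16) (nat_lit 2267) (nat_lit 1) (.one (nat_lit 1510) (nat_lit 2) .nil)))),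
   .der (nat_lit 67) (nat_lit 101),
   .der (nat_lit 49) (nat_lit 897),
   .prs (.two (nat_lit 227) (nat_lit 8) (nat_lit 273) (nat_lit 2) (.two (nat_lit 68) (nat_lit 2) (nat_lit 80) (nat_lit 8) (.two (nat_lit 1) (nat_lit 8) (nat_lit 2269) (nat_lit 4) (.two (nat_lit 0) (nat_lit 2) (nat_lit 455) (nat_lit 4) (.one (nat_lit 2270) (nat_lit 2) .nil))))),
   .der (nat_lit 2390) (nat_lit 414),
   .prs (.two (nat_lit 1118) (nat_lit 1) (nat_lit 49) (nat_lit 8) (.two (nat_lit 173) (nat_lit 1) (nat_lit 233) (nat_lit 8) (.two (nat_lit 16) (nat_lit 4) (nat_lit 2272) (nat_lit 1) (.one (nat_lit 981) (nat_lit 1) .nil)))),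
   .der (nat_lit 5) (nat_lit 15),
   .der (nat_lit 2433) (nat_lit 87),
   .der (nat_lit 1811) (nat_lit 472),
   .prs (.two (nat_lit 2007) (nat_lit 2) (nat_lit 2274) (nat_lit 1) (.two (nat_lit 99) (nat_lit 1) (nat_lit 2275) (nat_lit 2) (.two (nat_lit 0) (nat_lit 4) (nat_lit 2276) (nat_lit 2) (.one (nat_lit 1514) (nat_lit 2) .nil)))),
   .der (nat_lit 147) (nat_lit 76),
   .der (nat_lit 4) (nat_lit 453),
   .prs (.two (nat_lit 28) (nat_lit 4) (nat_lit 233) (nat_lit 8) (.two (nat_lit 3) (nat_lit 4) (nat_lit 2278) (nat_lit 2) (.two (nat_lit 0) (nat_lit 4) (nat_lit 2279) (nat_lit 8) (.one (nat_lit 1516) (nat_lit 2) .nil)))),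
   .der (nat_lit 5) (nat_lit 37),
   .prs (.two (nat_lit 14) (nat_lit 1) (nat_lit 440) (nat_lit 8) (.two (nat_lit 0) (nat_lit 1) (nat_lit 2281) (nat_lit 8) (.one (nat_lit 1525) (nat_lit 8) .nil))),
   .der (nat_lit 2593) (nat_lit 101),
   .prs (.two (nat_lit 6) (nat_lit 4) (nat_lit 209) (nat_lit 2) (.two (nat_lit 463) (nat_lit 4) (nat_lit 127) (nat_lit 2) (.two (nat_lit 16) (nat_lit 2) (nat_lit 2283) (nat_lit 1) (.two (nat_lit 0) (nat_lit 4) (nat_lit 989) (nat_lit 1) (.one (nat_lit 1518) (nat_lit 4) .nil))))),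
   .prs (.two (nat_lit 456) (nat_lit 4) (nat_lit 522) (nat_lit 1) (.two (nat_lit 16) (nat_lit 1) (nat_lit 1857) (nat_lit 4) (.two (nat_lit 0) (nat_lit 4) (nat_lit 485) (nat_lit 2) (.one (nat_lit 1520) (nat_lit 4) .nil)))),
   .der (nat_lit 1556) (nat_lit 64),
   .der (nat_lit 135) (nat_lit 472),
   .der (nat_lit 10) (nat_lit 852),
   .prs (.two (nat_lit 6) (nat_lit 16) (nat_lit 80) (nat_lit 2) (.two (nat_lit 1) (nat_lit 4) (nat_lit 2286) (nat_lit 2) (.two (nat_lit 0) (nat_lit 4) (nat_lit 2287) (nat_lit 2) (.one (nat_lit 2288) (nat_lit 2) .nil)))),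
   .der (nat_lit 2135) (nat_lit 59),
   .prs (.two (nat_lit 427) (nat_lit 4) (nat_lit 1413) (nat_lit 8) (.two (nat_lit 1) (nat_lit 4) (nat_lit 2290) (nat_lit 8) (.two (nat_lit 0) (nat_lit 4) (nat_lit 488) (nat_lit 8) (.one (nat_lit 992) (nat_lit 4) .nil)))),
   .prs (.two (nat_lit 397) (nat_lit 4) (nat_lit 758) (nat_lit 8) (.two (nat_lit 383) (nat_lit 8) (nat_lit 825) (nat_lit 4) (.two (nat_lit 16) (nat_lit 2) (nat_lit 2023) (nat_lit 8) (.two (nat_lit 0) (nat_lit 4) (nat_lit 994) (nat_lit 2) (.one (nat_lit 1523) (nat_lit 2) .nil))))),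
   .prs (.two (nat_lit 5) (nat_lit 1) (nat_lit 53) (nat_lit 8) (.two (nat_lit 11) (nat_lit 8) (nat_lit 1834) (nat_lit 2) (.two (nat_lit 0) (nat_lit 2) (nat_lit 218) (nat_lit 1) (.one (nat_lit 1527) (nat_lit 2) .nil)))),
   .der (nat_lit 356) (nat_lit 10),
   .der (nat_lit 644) (nat_lit 106),
   .prs (.two (nat_lit 2) (nat_lit 4) (nat_lit 2294) (nat_lit 8) (.two (nat_lit 11) (nat_lit 1) (nat_lit 2295) (nat_lit 16) (.one (nat_lit 1529) (nat_lit 16) .nil))),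
   .der (nat_lit 9) (nat_lit 182),
   .prs (.two (nat_lit 622) (nat_lit 2) (nat_lit 1039) (nat_lit 4) (.one (nat_lit 2297) (nat_lit 4) .nil)),
   .der (nat_lit 137) (nat_lit 870),
   .prs (.two (nat_lit 6) (nat_lit 4) (nat_lit 80) (nat_lit 8) (.two (nat_lit 202) (nat_lit 8) (nat_lit 1460) (nat_lit 4) (.two (nat_lit 0) (nat_lit 1) (nat_lit 2299) (nat_lit 4) (.one (nat_lit 1533) (nat_lit 8) .nil)))),
   .der (nat_lit 2433) (nat_lit 31),
   .der (nat_lit 37425) (nat_lit 35),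
   .der (nat_lit 19) (nat_lit 435),
   .der (nat_lit 801) (nat_lit 955),
   .prs (.two (nat_lit 65) (nat_lit 8) (nat_lit 2301) (nat_lit 4) (.two (nat_lit 1) (nat_lit 8) (nat_lit 2302) (nat_lit 4) (.two (nat_lit 0) (nat_lit 4) (nat_lit 2303) (nat_lit 8) (.one (nat_lit 2304) (nat_lit 8) .nil)))),
   .der (nat_lit 19) (nat_lit 943),
   .prs (.two (nat_lit 65) (nat_lit 8) (nat_lit 105) (nat_lit 4) (.two (nat_lit 4) (nat_lit 8) (nat_lit 1471) (nat_lit 4) (.two (nat_lit 1) (nat_lit 8) (nat_lit 1417) (nat_lit 4) (.two (nat_lit 0) (nat_lit 8) (nat_lit 2306) (nat_lit 4) (.one (nat_lit 1534) (nat_lit 8) .nil))))),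
   .der (nat_lit 2433) (nat_lit 365),
   .prs (.two (nat_lit 2) (nat_lit 4) (nat_lit 227) (nat_lit 16) (.two (nat_lit 1) (nat_lit 16) (nat_lit 2308) (nat_lit 4) .nil)),
   .der (nat_lit 1395) (nat_lit 84),
   .der (nat_lit 67) (nat_lit 479),
   .prs (.two (nat_lit 2) (nat_lit 8) (nat_lit 109) (nat_lit 1) (.two (nat_lit 0) (nat_lit 8) (nat_lit 2310) (nat_lit 1) (.one (nat_lit 2311) (nat_lit 1) .nil))),
   .der (nat_lit 118) (nat_lit 76),
   .der (nat_lit 5218) (nat_lit 82),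
   .der (nat_lit 340) (nat_lit 1015),
   .der (nat_lit 115) (nat_lit 1400),
   .prs (.two (nat_lit 36) (nat_lit 16) (nat_lit 532) (nat_lit 1) (.two (nat_lit 1214) (nat_lit 1) (nat_lit 2313) (nat_lit 16) (.two (nat_lit 11) (nat_lit 16) (nat_lit 2314) (nat_lit 1) (.two (nat_lit 0) (nat_lit 4) (nat_lit 2315) (nat_lit 1) (.one (nat_lit 2316) (nat_lit 4) .nil))))),
   .der (nat_lit 2) (nat_lit 126),
   .der (nat_lit 1620) (nat_lit 889),
   .prs (.two (nat_lit 129) (nat_lit 4) (nat_lit 858) (nat_lit 1) (.two (nat_lit 2) (nat_lit 4) (nat_lit 2318) (nat_lit 1) (.two (nat_lit 1) (nat_lit 2) (nat_lit 849) (nat_lit 1) (.two (nat_lit 0) (nat_lit 2) (nat_lit 2319) (nat_lit 1) (.one (nat_lit 1562) (nat_lit 2) .nil))))),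
   .der (nat_lit 114) (nat_lit 396),
   .prs (.two (nat_lit 147) (nat_lit 2) (nat_lit 509) (nat_lit 4) (.two (nat_lit 1) (nat_lit 4) (nat_lit 2321) (nat_lit 2) (.one (nat_lit 1577) (nat_lit 2) .nil))),
   .der (nat_lit 7) (nat_lit 113),
   .der (nat_lit 10545) (nat_lit 82),
   .der (nat_lit 66) (nat_lit 417),
   .der (nat_lit 132) (nat_lit 1456),
   .prs (.two (nat_lit 30) (nat_lit 8) (nat_lit 1254) (nat_lit 4) (.two (nat_lit 7) (nat_lit 8) (nat_lit 2323) (nat_lit 4) (.two (nat_lit 3) (nat_lit 8) (nat_lit 2324) (nat_lit 4) (.two (nat_lit 0) (nat_lit 2) (nat_lit 2325) (nat_lit 8) (.one (nat_lit 2326) (nat_lit 8) .nil))))),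
   .der (nat_lit 7) (nat_lit 37),
   .der (nat_lit 1653) (nat_lit 82),
   .der (nat_lit 114) (nat_lit 946),
   .der (nat_lit 1893) (nat_lit 1408),
   .prs (.two (nat_lit 6) (nat_lit 4) (nat_lit 1480) (nat_lit 2) (.two (nat_lit 463) (nat_lit 4) (nat_lit 2328) (nat_lit 2) (.two (nat_lit 1) (nat_lit 4) (nat_lit 2329) (nat_lit 2) (.two (nat_lit 0) (nat_lit 4) (nat_lit 2330) (nat_lit 2) (.one (nat_lit 2331) (nat_lit 2) .nil))))),
   .der (nat_lit 2193) (nat_lit 24),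
   .der (nat_lit 1554) (nat_lit 98),
   .prs (.two (nat_lit 227) (nat_lit 8) (nat_lit 44) (nat_lit 1) (.two (nat_lit 34) (nat_lit 8) (nat_lit 2333) (nat_lit 1) (.two (nat_lit 1) (nat_lit 8) (nat_lit 2334) (nat_lit 1) (.two (nat_lit 0) (nat_lit 8) (nat_lit 589) (nat_lit 1) (.one (nat_lit 1078) (nat_lit 8) .nil))))),
   .der (nat_lit 84) (nat_lit 10),
   .der (nat_lit 1554) (nat_lit 82),
   .der (nat_lit 339) (nat_lit 1494),
   .prs (.two (nat_lit 489) (nat_lit 2) (nat_lit 2336) (nat_lit 4) (.two (nat_lit 740) (nat_lit 16) (nat_lit 2337) (nat_lit 2) (.one (nat_lit 2338) (nat_lit 4) .nil))),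
   .der (nat_lit 100) (nat_lit 479),
   .der (nat_lit 801) (nat_lit 1033),
   .prs (.two (nat_lit 30) (nat_lit 8) (nat_lit 613) (nat_lit 4) (.two (nat_lit 7) (nat_lit 8) (nat_lit 1574) (nat_lit 4) (.two (nat_lit 0) (nat_lit 2) (nat_lit 2340) (nat_lit 4) (.one (nat_lit 2341) (nat_lit 8) .nil)))),
   .prs (.two (nat_lit 227) (nat_lit 8) (nat_lit 1582) (nat_lit 1) (.two (nat_lit 1) (nat_lit 8) (nat_lit 2334) (nat_lit 1) (.two (nat_lit 0) (nat_lit 8) (nat_lit 592) (nat_lit 1) (.one (nat_lit 1078) (nat_lit 8) .nil)))),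
   .der (nat_lit 801) (nat_lit 35),
   .der (nat_lit 3) (nat_lit 187),
   .prs (.two (nat_lit 1459) (nat_lit 16) (nat_lit 742) (nat_lit 2) (.two (nat_lit 11) (nat_lit 2) (nat_lit 2344) (nat_lit 16) (.two (nat_lit 0) (nat_lit 2) (nat_lit 2345) (nat_lit 16) (.one (nat_lit 1579) (nat_lit 16) .nil)))),
   .der (nat_lit 370) (nat_lit 131),
   .der (nat_lit 2084) (nat_lit 192),
   .prs (.two (nat_lit 65) (nat_lit 16) (nat_lit 673) (nat_lit 1) (.two (nat_lit 34) (nat_lit 16) (nat_lit 2347) (nat_lit 1) (.two (nat_lit 0) (nat_lit 16) (nat_lit 2348) (nat_lit 1) (.one (nat_lit 1581) (nat_lit 1) .nil)))),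
   .der (nat_lit 4978) (nat_lit 93),
   .der (nat_lit 577) (nat_lit 177),
   .der (nat_lit 49) (nat_lit 1415),
   .prs (.two (nat_lit 44) (nat_lit 1) (nat_lit 440) (nat_lit 8) (.two (nat_lit 436) (nat_lit 1) (nat_lit 2350) (nat_lit 8) (.two (nat_lit 1) (nat_lit 8) (nat_lit 2351) (nat_lit 1) (.two (nat_lit 0) (nat_lit 8) (nat_lit 1070) (nat_lit 1) (.one (nat_lit 2352) (nat_lit 8) .nil))))),
   .der (nat_lit 1122) (nat_lit 578),
   .der (nat_lit 3) (nat_lit 1033),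
   .prs (.two (nat_lit 1387) (nat_lit 8) (nat_lit 1239) (nat_lit 2) (.two (nat_lit 3) (nat_lit 4) (nat_lit 1035) (nat_lit 2) (.two (nat_lit 0) (nat_lit 2) (nat_lit 2354) (nat_lit 4) (.one (nat_lit 2355) (nat_lit 4) .nil)))),
   .der (nat_lit 2323) (nat_lit 24),
   .der (nat_lit 37425) (nat_lit 110),
   .der (nat_lit 147) (nat_lit 934),
   .prs (.two (nat_lit 42) (nat_lit 4) (nat_lit 2357) (nat_lit 1) (.two (nat_lit 202) (nat_lit 4) (nat_lit 2358) (nat_lit 1) (.two (nat_lit 3) (nat_lit 4) (nat_lit 1437) (nat_lit 1) (.two (nat_lit 0) (nat_lit 4) (nat_lit 2359) (nat_lit 1) (.one (nat_lit 2182) (nat_lit 1) .nil))))),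
   .der (nat_lit 1811) (nat_lit 39),
   .der (nat_lit 118) (nat_lit 1491),
   .prs (.two (nat_lit 91) (nat_lit 16) (nat_lit 2361) (nat_lit 2) (.two (nat_lit 0) (nat_lit 16) (nat_lit 1079) (nat_lit 2) (.one (nat_lit 2362) (nat_lit 2) .nil))),
   .der (nat_lit 10) (nat_lit 584),
   .prs (.two (nat_lit 30) (nat_lit 1) (nat_lit 85) (nat_lit 4) (.two (nat_lit 433) (nat_lit 4) (nat_lit 69) (nat_lit 1) (.two (nat_lit 3) (nat_lit 1) (nat_lit 1124) (nat_lit 4) (.two (nat_lit 0) (nat_lit 4) (nat_lit 2364) (nat_lit 1) (.one (nat_lit 1584) (nat_lit 4) .nil))))),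
   .der (nat_lit 577) (nat_lit 135),
   .der (nat_lit 33345) (nat_lit 177),
   .der (nat_lit 354) (nat_lit 1400),
   .prs (.two (nat_lit 427) (nat_lit 4) (nat_lit 330) (nat_lit 1) (.two (nat_lit 170) (nat_lit 4) (nat_lit 2366) (nat_lit 1) (.two (nat_lit 1) (nat_lit 4) (nat_lit 2367) (nat_lit 1) (.two (nat_lit 0) (nat_lit 4) (nat_lit 1073) (nat_lit 1) (.one (nat_lit 2368) (nat_lit 4) .nil))))),
   .der (nat_lit 1893) (nat_lit 199),
   .der (nat_lit 8) (nat_lit 864),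
   .prs (.two (nat_lit 36) (nat_lit 2) (nat_lit 145) (nat_lit 4) (.two (nat_lit 493) (nat_lit 2) (nat_lit 593) (nat_lit 4) (.two (nat_lit 1) (nat_lit 4) (nat_lit 2370) (nat_lit 2) (.two (nat_lit 0) (nat_lit 4) (nat_lit 1074) (nat_lit 2) (.one (nat_lit 2371) (nat_lit 4) .nil))))),
   .prs (.two (nat_lit 91) (nat_lit 4) (nat_lit 1631) (nat_lit 1) (.two (nat_lit 1) (nat_lit 4) (nat_lit 1511) (nat_lit 1) (.two (nat_lit 0) (nat_lit 4) (nat_lit 1080) (nat_lit 1) (.one (nat_lit 1586) (nat_lit 4) .nil)))),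
   .der (nat_lit 1107) (nat_lit 584),
   .prs (.two (nat_lit 489) (nat_lit 2) (nat_lit 576) (nat_lit 8) (.two (nat_lit 1) (nat_lit 2) (nat_lit 1502) (nat_lit 8) (.two (nat_lit 0) (nat_lit 2) (nat_lit 2374) (nat_lit 8) (.one (nat_lit 1589) (nat_lit 2) .nil)))),
   .prs (.two (nat_lit 36) (nat_lit 2) (nat_lit 145) (nat_lit 4) (.two (nat_lit 34) (nat_lit 2) (nat_lit 1174) (nat_lit 4) (.two (nat_lit 1) (nat_lit 2) (nat_lit 1460) (nat_lit 4) (.two (nat_lit 0) (nat_lit 2) (nat_lit 1076) (nat_lit 4) (.one (nat_lit 2371) (nat_lit 4) .nil))))),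
   .prs (.two (nat_lit 404) (nat_lit 8) (nat_lit 40) (nat_lit 2) (.two (nat_lit 482) (nat_lit 4) (nat_lit 1999) (nat_lit 2) (.two (nat_lit 0) (nat_lit 8) (nat_lit 1083) (nat_lit 4) (.one (nat_lit 1592) (nat_lit 4) .nil)))),
   .der (nat_lit 12658) (nat_lit 84),
   .der (nat_lit 2390) (nat_lit 999),
   .prs (.two (nat_lit 397) (nat_lit 4) (nat_lit 444) (nat_lit 2) (.two (nat_lit 3) (nat_lit 4) (nat_lit 2378) (nat_lit 8) (.two (nat_lit 0) (nat_lit 4) (nat_lit 2379) (nat_lit 2) (.one (nat_lit 1597) (nat_lit 4) .nil)))),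
   .der (nat_lit 1299) (nat_lit 1085),
   .prs (.two (nat_lit 1126) (nat_lit 2) (nat_lit 1239) (nat_lit 8) (.two (nat_lit 11) (nat_lit 2) (nat_lit 1502) (nat_lit 8) (.two (nat_lit 0) (nat_lit 2) (nat_lit 1559) (nat_lit 8) (.one (nat_lit 2381) (nat_lit 2) .nil)))),
   .der (nat_lit 1300) (nat_lit 31),
   .der (nat_lit 2390) (nat_lit 205),
   .prs (.two (nat_lit 36) (nat_lit 2) (nat_lit 2383) (nat_lit 4) (.two (nat_lit 1) (nat_lit 2) (nat_lit 1164) (nat_lit 4) (.two (nat_lit 0) (nat_lit 2) (nat_lit 2384) (nat_lit 4) (.one (nat_lit 1088) (nat_lit 2) .nil)))),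
   .prs (.two (nat_lit 404) (nat_lit 8) (nat_lit 422) (nat_lit 2) (.two (nat_lit 1068) (nat_lit 4) (nat_lit 444) (nat_lit 2) (.two (nat_lit 3) (nat_lit 4) (nat_lit 1511) (nat_lit 2) (.two (nat_lit 0) (nat_lit 4) (nat_lit 1090) (nat_lit 8) (.one (nat_lit 1600) (nat_lit 4) .nil))))),
   .der (nat_lit 162) (nat_lit 108),
   .der (nat_lit 18) (nat_lit 1078),
   .prs (.two (nat_lit 12) (nat_lit 8) (nat_lit 882) (nat_lit 4) (.two (nat_lit 2) (nat_lit 4) (nat_lit 32) (nat_lit 8) (.two (nat_lit 1) (nat_lit 4) (nat_lit 2387) (nat_lit 8) (.two (nat_lit 0) (nat_lit 8) (nat_lit 597) (nat_lit 4) (.one (nat_lit 2388) (nat_lit 8) .nil))))),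
   .der (nat_lit 101) (nat_lit 64),
   .prs (.two (nat_lit 1459) (nat_lit 2) (nat_lit 882) (nat_lit 16) (.two (nat_lit 2) (nat_lit 16) (nat_lit 2390) (nat_lit 2) (.two (nat_lit 0) (nat_lit 16) (nat_lit 599) (nat_lit 2) (.one (nat_lit 1602) (nat_lit 1) .nil)))),
   .der (nat_lit 1122) (nat_lit 98),
   .der (nat_lit 1074) (nat_lit 441),
   .prs (.two (nat_lit 12) (nat_lit 8) (nat_lit 97) (nat_lit 16) (.two (nat_lit 1) (nat_lit 16) (nat_lit 2392) (nat_lit 8) (.two (nat_lit 0) (nat_lit 1) (nat_lit 2393) (nat_lit 8) (.one (nat_lit 1604) (nat_lit 8) .nil)))),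
   .der (nat_lit 371) (nat_lit 572),
   .prs (.two (nat_lit 174) (nat_lit 1) (nat_lit 265) (nat_lit 2) (.two (nat_lit 3) (nat_lit 16) (nat_lit 2395) (nat_lit 1) (.one (nat_lit 1094) (nat_lit 1) .nil))),
   .der (nat_lit 2353) (nat_lit 29),
   .prs (.two (nat_lit 2) (nat_lit 8) (nat_lit 2397) (nat_lit 4) (.two (nat_lit 0) (nat_lit 8) (nat_lit 585) (nat_lit 4) (.one (nat_lit 1636) (nat_lit 4) .nil))),
   .der (nat_lit 37425) (nat_lit 229),
   .der (nat_lit 1300) (nat_lit 371),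
   .prs (.two (nat_lit 1126) (nat_lit 2) (nat_lit 444) (nat_lit 4) (.two (nat_lit 11) (nat_lit 2) (nat_lit 2399) (nat_lit 4) (.two (nat_lit 0) (nat_lit 2) (nat_lit 2400) (nat_lit 4) (.one (nat_lit 1606) (nat_lit 4) .nil)))),
   .der (nat_lit 1057) (nat_lit 57),
   .der (nat_lit 4978) (nat_lit 239),
   .der (nat_lit 1074) (nat_lit 199),
   .prs (.two (nat_lit 489) (nat_lit 2) (nat_lit 625) (nat_lit 1) (.two (nat_lit 17) (nat_lit 2) (nat_lit 2402) (nat_lit 1) (.two (nat_lit 1) (nat_lit 2) (nat_lit 2403) (nat_lit 1) (.two (nat_lit 0) (nat_lit 2) (nat_lit 2404) (nat_lit 1) (.one (nat_lit 1608) (nat_lit 1) .nil))))),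
   .der (nat_lit 339) (nat_lit 597),
   .prs (.two (nat_lit 227) (nat_lit 8) (nat_lit 44) (nat_lit 1) (.two (nat_lit 34) (nat_lit 8) (nat_lit 2333) (nat_lit 1) (.two (nat_lit 1) (nat_lit 8) (nat_lit 2334) (nat_lit 1) (.two (nat_lit 0) (nat_lit 8) (nat_lit 2406) (nat_lit 1) (.one (nat_lit 1078) (nat_lit 8) .nil))))),
   .der (nat_lit 21092) (nat_lit 504),
   .prs (.two (nat_lit 489) (nat_lit 4) (nat_lit 573) (nat_lit 2) (.two (nat_lit 11) (nat_lit 1) (nat_lit 2408) (nat_lit 4) (.one (nat_lit 1613) (nat_lit 4) .nil))),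
   .der (nat_lit 2433) (nat_lit 461),
   .der (nat_lit 2433) (nat_lit 1490),
   .prs (.two (nat_lit 6) (nat_lit 4) (nat_lit 129) (nat_lit 16) (.two (nat_lit 2) (nat_lit 4) (nat_lit 582) (nat_lit 1) (.two (nat_lit 3) (nat_lit 16) (nat_lit 2410) (nat_lit 4) (.one (nat_lit 2411) (nat_lit 4) .nil)))),
   .der (nat_lit 2068) (nat_lit 115),
   .prs (.two (nat_lit 65) (nat_lit 2) (nat_lit 42) (nat_lit 16) (.two (nat_lit 2) (nat_lit 16) (nat_lit 717) (nat_lit 2) (.two (nat_lit 1) (nat_lit 16) (nat_lit 2413) (nat_lit 2) (.two (nat_lit 0) (nat_lit 16) (nat_lit 599) (nat_lit 2) (.one (nat_lit 1616) (nat_lit 1) .nil))))),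
   .der (nat_lit 5716) (nat_lit 39),
   .prs (.two (nat_lit 1118) (nat_lit 16) (nat_lit 1149) (nat_lit 4) (.two (nat_lit 463) (nat_lit 16) (nat_lit 1059) (nat_lit 4) (.two (nat_lit 46) (nat_lit 2) (nat_lit 2415) (nat_lit 4) (.two (nat_lit 0) (nat_lit 2) (nat_lit 1061) (nat_lit 4) (.one (nat_lit 1619) (nat_lit 4) .nil))))),
   .der (nat_lit 5) (nat_lit 55),
   .der (nat_lit 162) (nat_lit 199),
   .der (nat_lit 50) (nat_lit 894),
   .prs (.two (nat_lit 489) (nat_lit 2) (nat_lit 2417) (nat_lit 8) (.two (nat_lit 1) (nat_lit 2) (nat_lit 1502) (nat_lit 8) (.two (nat_lit 0) (nat_lit 2) (nat_lit 2418) (nat_lit 8) (.one (nat_lit 2419) (nat_lit 2) .nil)))),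
   .prs (.two (nat_lit 129) (nat_lit 4) (nat_lit 520) (nat_lit 8) (.two (nat_lit 1) (nat_lit 4) (nat_lit 1064) (nat_lit 2) (.one (nat_lit 1622) (nat_lit 2) .nil))),
   .der (nat_lit 3) (nat_lit 172),
   .der (nat_lit 2) (nat_lit 894),
   .prs (.two (nat_lit 791) (nat_lit 2) (nat_lit 306) (nat_lit 1) (.two (nat_lit 1) (nat_lit 16) (nat_lit 2422) (nat_lit 1) (.one (nat_lit 2423) (nat_lit 2) .nil))),
   .prs (.two (nat_lit 427) (nat_lit 4) (nat_lit 459) (nat_lit 8) (.two (nat_lit 1) (nat_lit 4) (nat_lit 1031) (nat_lit 8) (.two (nat_lit 0) (nat_lit 16) (nat_lit 572) (nat_lit 4) (.one (nat_lit 1099) (nat_lit 4) .nil)))),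
   .der (nat_lit 2068) (nat_lit 578),
   .prs (.two (nat_lit 42) (nat_lit 4) (nat_lit 637) (nat_lit 8) (.two (nat_lit 2) (nat_lit 4) (nat_lit 1322) (nat_lit 8) (.two (nat_lit 16) (nat_lit 16) (nat_lit 2426) (nat_lit 8) (.one (nat_lit 1624) (nat_lit 8) .nil)))),
   .der (nat_lit 2353) (nat_lit 432),
   .prs (.two (nat_lit 537) (nat_lit 1) (nat_lit 1587) (nat_lit 8) (.two (nat_lit 0) (nat_lit 1) (nat_lit 2428) (nat_lit 8) (.one (nat_lit 1628) (nat_lit 8) .nil))),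
   .der (nat_lit 114) (nat_lit 72),
   .der (nat_lit 114) (nat_lit 405),
   .prs (.two (nat_lit 12) (nat_lit 8) (nat_lit 449) (nat_lit 2) (.two (nat_lit 3) (nat_lit 8) (nat_lit 2430) (nat_lit 2) (.two (nat_lit 0) (nat_lit 8) (nat_lit 2431) (nat_lit 2) (.one (nat_lit 1630) (nat_lit 2) .nil)))),
   .der (nat_lit 2578) (nat_lit 24),
   .der (nat_lit 162) (nat_lit 135),
   .prs (.two (nat_lit 6) (nat_lit 8) (nat_lit 2433) (nat_lit 1) (.two (nat_lit 1) (nat_lit 8) (nat_lit 2434) (nat_lit 1) (.two (nat_lit 0) (nat_lit 8) (nat_lit 605) (nat_lit 1) (.one (nat_lit 1632) (nat_lit 1) .nil)))),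
   .der (nat_lit 114) (nat_lit 70),
   .der (nat_lit 882) (nat_lit 399),
   .prs (.two (nat_lit 12) (nat_lit 8) (nat_lit 1239) (nat_lit 2) (.two (nat_lit 3) (nat_lit 8) (nat_lit 2436) (nat_lit 2) (.two (nat_lit 0) (nat_lit 8) (nat_lit 2437) (nat_lit 2) (.one (nat_lit 1634) (nat_lit 2) .nil)))),
   .der (nat_lit 8) (nat_lit 87),
   .prs (.two (nat_lit 436) (nat_lit 16) (nat_lit 2439) (nat_lit 1) (.one (nat_lit 624) (nat_lit 1) .nil)),
   .der (nat_lit 339) (nat_lit 76),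
   .der (nat_lit 1) (nat_lit 624),
   .prs (.two (nat_lit 329) (nat_lit 16) (nat_lit 2441) (nat_lit 2) (.one (nat_lit 2442) (nat_lit 2) .nil)),
   .der (nat_lit 150) (nat_lit 43),
   .der (nat_lit 2390) (nat_lit 566),
   .prs (.two (nat_lit 384) (nat_lit 8) (nat_lit 2444) (nat_lit 1) (.two (nat_lit 0) (nat_lit 1) (nat_lit 2445) (nat_lit 4) (.one (nat_lit 1639) (nat_lit 4) .nil))),
   .der (nat_lit 20) (nat_lit 29),
   .prs (.two (nat_lit 384) (nat_lit 8) (nat_lit 2447) (nat_lit 1) (.two (nat_lit 0) (nat_lit 1) (nat_lit 1035) (nat_lit 4) (.one (nat_lit 1641) (nat_lit 4) .nil))),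
   .der (nat_lit 801) (nat_lit 21),
   .prs (.two (nat_lit 2) (nat_lit 4) (nat_lit 12) (nat_lit 8) (.two (nat_lit 1) (nat_lit 4) (nat_lit 2449) (nat_lit 8) (.two (nat_lit 0) (nat_lit 8) (nat_lit 1355) (nat_lit 4) (.one (nat_lit 641) (nat_lit 8) .nil)))),
   .der (nat_lit 9) (nat_lit 108),
   .der (nat_lit 1) (nat_lit 641),
   .prs (.two (nat_lit 2) (nat_lit 4) (nat_lit 65) (nat_lit 8) (.two (nat_lit 1) (nat_lit 8) (nat_lit 2451) (nat_lit 4) (.one (nat_lit 2452) (nat_lit 8) .nil))),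
   .der (nat_lit 1620) (nat_lit 236),
   .prs (.two (nat_lit 740) (nat_lit 16) (nat_lit 132) (nat_lit 8) (.two (nat_lit 3) (nat_lit 16) (nat_lit 2454) (nat_lit 8) (.one (nat_lit 1128) (nat_lit 8) .nil))),
   .der (nat_lit 137) (nat_lit 52),
   .prs (.two (nat_lit 1068) (nat_lit 16) (nat_lit 2456) (nat_lit 1) (.two (nat_lit 0) (nat_lit 16) (nat_lit 266) (nat_lit 1) (.one (nat_lit 1643) (nat_lit 1) .nil))),
   .der (nat_lit 118) (nat_lit 41),
   .der (nat_lit 2433) (nat_lit 255),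
   .prs (.two (nat_lit 374) (nat_lit 2) (nat_lit 2458) (nat_lit 1) (.one (nat_lit 2459) (nat_lit 1) .nil)),
   .der (nat_lit 1395) (nat_lit 77),
   .der (nat_lit 4978) (nat_lit 640),
   .der (nat_lit 833) (nat_lit 1409),
   .prs (.two (nat_lit 65) (nat_lit 2) (nat_lit 289) (nat_lit 4) (.two (nat_lit 4) (nat_lit 2) (nat_lit 2461) (nat_lit 4) (.two (nat_lit 0) (nat_lit 1) (nat_lit 2462) (nat_lit 4) (.one (nat_lit 2463) (nat_lit 2) .nil)))),
   .der (nat_lit 87) (nat_lit 108),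
   .der (nat_lit 10) (nat_lit 521),
   .der (nat_lit 6) (nat_lit 1409),
   .prs (.two (nat_lit 12) (nat_lit 16) (nat_lit 145) (nat_lit 4) (.two (nat_lit 3) (nat_lit 16) (nat_lit 2465) (nat_lit 4) (.two (nat_lit 0) (nat_lit 16) (nat_lit 2466) (nat_lit 4) (.one (nat_lit 2467) (nat_lit 16) .nil)))),
   .der (nat_lit 8) (nat_lit 37),
   .der (nat_lit 37425) (nat_lit 946),
   .der (nat_lit 2323) (nat_lit 1534),
   .prs (.two (nat_lit 6) (nat_lit 16) (nat_lit 462) (nat_lit 8) (.two (nat_lit 144) (nat_lit 8) (nat_lit 2469) (nat_lit 16) (.two (nat_lit 1) (nat_lit 8) (nat_lit 2204) (nat_lit 16) (.two (nat_lit 0) (nat_lit 1) (nat_lit 2470) (nat_lit 16) (.one (nat_lit 2471) (nat_lit 1) .nil))))),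
   .der (nat_lit 26386) (nat_lit 39),
   .der (nat_lit 12658) (nat_lit 172),
   .prs (.two (nat_lit 227) (nat_lit 16) (nat_lit 778) (nat_lit 1) (.two (nat_lit 1) (nat_lit 2) (nat_lit 2473) (nat_lit 1) (.two (nat_lit 0) (nat_lit 1) (nat_lit 2474) (nat_lit 4) (.one (nat_lit 1670) (nat_lit 4) .nil)))),
   .der (nat_lit 87) (nat_lit 594),
   .prs (.two (nat_lit 6) (nat_lit 8) (nat_lit 1648) (nat_lit 2) (.two (nat_lit 1068) (nat_lit 1) (nat_lit 1095) (nat_lit 2) (.two (nat_lit 3) (nat_lit 1) (nat_lit 1147) (nat_lit 2) (.two (nat_lit 0) (nat_lit 16) (nat_lit 2476) (nat_lit 1) (.one (nat_lit 1672) (nat_lit 1) .nil))))),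
   .der (nat_lit 36) (nat_lit 10),
   .der (nat_lit 36) (nat_lit 64),
   .der (nat_lit 114) (nat_lit 438),
   .prs (.two (nat_lit 489) (nat_lit 2) (nat_lit 2478) (nat_lit 8) (.two (nat_lit 2090) (nat_lit 8) (nat_lit 127) (nat_lit 2) (.two (nat_lit 1) (nat_lit 2) (nat_lit 2479) (nat_lit 8) (.two (nat_lit 0) (nat_lit 8) (nat_lit 2480) (nat_lit 2) (.one (nat_lit 1675) (nat_lit 2) .nil))))),
   .der (nat_lit 10305) (nat_lit 172),
   .prs (.two (nat_lit 129) (nat_lit 16) (nat_lit 1413) (nat_lit 8) (.two (nat_lit 1) (nat_lit 8) (nat_lit 1655) (nat_lit 16) (.two (nat_lit 0) (nat_lit 8) (nat_lit 2482) (nat_lit 1) (.one (nat_lit 1678) (nat_lit 16) .nil)))),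
   .der (nat_lit 833) (nat_lit 73),
   .der (nat_lit 129) (nat_lit 192),
   .der (nat_lit 833) (nat_lit 417),
   .prs (.two (nat_lit 65) (nat_lit 2) (nat_lit 32) (nat_lit 16) (.two (nat_lit 75) (nat_lit 2) (nat_lit 2484) (nat_lit 4) (.two (nat_lit 3) (nat_lit 1) (nat_lit 2485) (nat_lit 4) (.two (nat_lit 0) (nat_lit 1) (nat_lit 2486) (nat_lit 4) (.one (nat_lit 1667) (nat_lit 4) .nil))))),
   .der (nat_lit 10305) (nat_lit 21),
   .der (nat_lit 161) (nat_lit 106),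
   .der (nat_lit 2353) (nat_lit 1101),
   .prs (.two (nat_lit 42) (nat_lit 8) (nat_lit 637) (nat_lit 2) (.two (nat_lit 5) (nat_lit 1) (nat_lit 2488) (nat_lit 8) (.two (nat_lit 1) (nat_lit 2) (nat_lit 2489) (nat_lit 1) (.two (nat_lit 0) (nat_lit 8) (nat_lit 1136) (nat_lit 2) (.one (nat_lit 2490) (nat_lit 2) .nil))))),
   .der (nat_lit 16738) (nat_lit 192),
   .der (nat_lit 87) (nat_lit 907),
   .prs (.two (nat_lit 65) (nat_lit 16) (nat_lit 717) (nat_lit 2) (.two (nat_lit 1) (nat_lit 16) (nat_lit 2492) (nat_lit 2) (.one (nat_lit 2493) (nat_lit 2) .nil))),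
   .der (nat_lit 36) (nat_lit 21),
   .prs (.two (nat_lit 36) (nat_lit 2) (nat_lit 2495) (nat_lit 8) (.two (nat_lit 1) (nat_lit 2) (nat_lit 2479) (nat_lit 8) (.two (nat_lit 0) (nat_lit 8) (nat_lit 2480) (nat_lit 2) (.one (nat_lit 1680) (nat_lit 2) .nil)))),
   .der (nat_lit 852) (nat_lit 266),
   .der (nat_lit 2135) (nat_lit 651),
   .prs (.two (nat_lit 75) (nat_lit 16) (nat_lit 522) (nat_lit 4) (.two (nat_lit 0) (nat_lit 4) (nat_lit 2497) (nat_lit 16) (.one (nat_lit 2498) (nat_lit 16) .nil)))]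

theorem b5_step4 (h : ∀ j < 2000, Good b5T j) : ∀ j < 2500, Good b5T j := by
  intro j hj
  refine chkL_ok b5C4 2000 h (by decide +kernel) j ?_
  have h : b5C4.length = 500 := by decide +kernel
  omega

/-- certificates 2500..3000 -/
def b5C5 : List Cf :=
  [.der (nat_lit 2593) (nat_lit 98),
   .prs (.two (nat_lit 427) (nat_lit 16) (nat_lit 522) (nat_lit 4) (.two (nat_lit 1) (nat_lit 16) (nat_lit 2500) (nat_lit 4) (.two (nat_lit 0) (nat_lit 4) (nat_lit 1139) (nat_lit 16) (.one (nat_lit 1682) (nat_lit 4) .nil)))),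
   .der (nat_lit 101) (nat_lit 55),
   .prs (.two (nat_lit 227) (nat_lit 16) (nat_lit 264) (nat_lit 2) (.two (nat_lit 34) (nat_lit 16) (nat_lit 2502) (nat_lit 2) (.two (nat_lit 11) (nat_lit 1) (nat_lit 1658) (nat_lit 2) (.one (nat_lit 1684) (nat_lit 2) .nil)))),
   .der (nat_lit 20) (nat_lit 115),
   .der (nat_lit 8) (nat_lit 599),
   .der (nat_lit 1810) (nat_lit 1542),
   .prs (.two (nat_lit 129) (nat_lit 16) (nat_lit 94) (nat_lit 2) (.two (nat_lit 1) (nat_lit 16) (nat_lit 2504) (nat_lit 2) (.two (nat_lit 0) (nat_lit 16) (nat_lit 2505) (nat_lit 2) (.one (nat_lit 2506) (nat_lit 16) .nil)))),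
   .der (nat_lit 137) (nat_lit 461),
   .prs (.two (nat_lit 6) (nat_lit 8) (nat_lit 1648) (nat_lit 2) (.two (nat_lit 34) (nat_lit 2) (nat_lit 509) (nat_lit 8) (.two (nat_lit 3) (nat_lit 16) (nat_lit 2508) (nat_lit 8) (.one (nat_lit 1686) (nat_lit 8) .nil)))),
   .der (nat_lit 1890) (nat_lit 64),
   .der (nat_lit 1893) (nat_lit 388),
   .prs (.two (nat_lit 2) (nat_lit 16) (nat_lit 2510) (nat_lit 2) (.one (nat_lit 2511) (nat_lit 2) .nil)),
   .der (nat_lit 9572) (nat_lit 84),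
   .prs (.two (nat_lit 34) (nat_lit 2) (nat_lit 918) (nat_lit 8) (.two (nat_lit 1) (nat_lit 16) (nat_lit 2513) (nat_lit 8) (.one (nat_lit 1687) (nat_lit 8) .nil))),
   .der (nat_lit 118) (nat_lit 10),
   .der (nat_lit 145) (nat_lit 115),
   .der (nat_lit 118) (nat_lit 555),
   .prs (.two (nat_lit 42) (nat_lit 4) (nat_lit 2515) (nat_lit 16) (.two (nat_lit 493) (nat_lit 16) (nat_lit 2516) (nat_lit 4) (.two (nat_lit 0) (nat_lit 1) (nat_lit 2517) (nat_lit 4) (.one (nat_lit 1186) (nat_lit 1) .nil)))),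
   .der (nat_lit 33345) (nat_lit 104),
   .der (nat_lit 98) (nat_lit 857),
   .prs (.two (nat_lit 6) (nat_lit 8) (nat_lit 456) (nat_lit 4) (.two (nat_lit 2) (nat_lit 4) (nat_lit 2519) (nat_lit 8) (.two (nat_lit 0) (nat_lit 4) (nat_lit 1188) (nat_lit 8) (.one (nat_lit 2520) (nat_lit 4) .nil)))),
   .der (nat_lit 10305) (nat_lit 572),
   .der (nat_lit 10305) (nat_lit 1099),
   .prs (.two (nat_lit 1387) (nat_lit 1) (nat_lit 956) (nat_lit 8) (.two (nat_lit 224) (nat_lit 1) (nat_lit 1210) (nat_lit 8) (.two (nat_lit 1) (nat_lit 16) (nat_lit 2522) (nat_lit 8) (.one (nat_lit 2523) (nat_lit 8) .nil)))),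
   .der (nat_lit 1395) (nat_lit 39),
   .prs (.two (nat_lit 1387) (nat_lit 1) (nat_lit 2525) (nat_lit 4) (.two (nat_lit 0) (nat_lit 1) (nat_lit 2263) (nat_lit 4) (.one (nat_lit 1744) (nat_lit 4) .nil))),
   .der (nat_lit 2353) (nat_lit 98),
   .prs (.two (nat_lit 427) (nat_lit 2) (nat_lit 509) (nat_lit 4) (.two (nat_lit 1) (nat_lit 2) (nat_lit 2527) (nat_lit 4) (.two (nat_lit 0) (nat_lit 1) (nat_lit 1746) (nat_lit 2) (.one (nat_lit 1747) (nat_lit 1) .nil)))),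
   .der (nat_lit 1556) (nat_lit 1070),
   .der (nat_lit 161) (nat_lit 1482),
   .prs (.two (nat_lit 36) (nat_lit 8) (nat_lit 94) (nat_lit 2) (.two (nat_lit 75) (nat_lit 2) (nat_lit 1809) (nat_lit 8) (.two (nat_lit 1) (nat_lit 2) (nat_lit 82) (nat_lit 8) (.two (nat_lit 0) (nat_lit 2) (nat_lit 2529) (nat_lit 8) (.one (nat_lit 2530) (nat_lit 2) .nil))))),
   .der (nat_lit 339) (nat_lit 169),
   .prs (.two (nat_lit 427) (nat_lit 2) (nat_lit 94) (nat_lit 4) (.two (nat_lit 1) (nat_lit 2) (nat_lit 2532) (nat_lit 1) (.one (nat_lit 1750) (nat_lit 1) .nil))),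
   .der (nat_lit 33) (nat_lit 55),
   .der (nat_lit 2593) (nat_lit 229),
   .prs (.two (nat_lit 6) (nat_lit 4) (nat_lit 6) (nat_lit 16) (.two (nat_lit 5) (nat_lit 16) (nat_lit 2534) (nat_lit 1) (.two (nat_lit 3) (nat_lit 4) (nat_lit 2535) (nat_lit 1) (.two (nat_lit 0) (nat_lit 4) (nat_lit 688) (nat_lit 1) (.one (nat_lit 1756) (nat_lit 1) .nil))))),
   .der (nat_lit 1811) (nat_lit 29),
   .der (nat_lit 103) (nat_lit 533),
   .der (nat_lit 1415) (nat_lit 1186),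
   .prs (.two (nat_lit 6) (nat_lit 8) (nat_lit 18) (nat_lit 4) (.two (nat_lit 34) (nat_lit 8) (nat_lit 2537) (nat_lit 2) (.two (nat_lit 1) (nat_lit 8) (nat_lit 541) (nat_lit 2) (.two (nat_lit 0) (nat_lit 2) (nat_lit 2538) (nat_lit 8) (.one (nat_lit 2539) (nat_lit 2) .nil))))),
   .der (nat_lit 165) (nat_lit 37),
   .der (nat_lit 129) (nat_lit 980),
   .prs (.two (nat_lit 227) (nat_lit 8) (nat_lit 1007) (nat_lit 2) (.two (nat_lit 75) (nat_lit 2) (nat_lit 2541) (nat_lit 8) (.two (nat_lit 1) (nat_lit 2) (nat_lit 82) (nat_lit 8) (.two (nat_lit 0) (nat_lit 2) (nat_lit 2542) (nat_lit 8) (.one (nat_lit 1728) (nat_lit 1) .nil))))),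
   .der (nat_lit 7) (nat_lit 504),
   .prs (.two (nat_lit 42) (nat_lit 8) (nat_lit 1480) (nat_lit 2) (.two (nat_lit 1) (nat_lit 8) (nat_lit 2544) (nat_lit 1) (.one (nat_lit 1758) (nat_lit 1) .nil))),
   .der (nat_lit 1057) (nat_lit 511),
   .der (nat_lit 10) (nat_lit 1491),
   .prs (.two (nat_lit 12) (nat_lit 16) (nat_lit 145) (nat_lit 2) (.two (nat_lit 1) (nat_lit 8) (nat_lit 2546) (nat_lit 2) (.one (nat_lit 2547) (nat_lit 16) .nil))),
   .der (nat_lit 150) (nat_lit 93),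
   .der (nat_lit 50) (nat_lit 1051),
   .prs (.two (nat_lit 36) (nat_lit 8) (nat_lit 138) (nat_lit 4) (.two (nat_lit 463) (nat_lit 4) (nat_lit 80) (nat_lit 8) (.two (nat_lit 1) (nat_lit 4) (nat_lit 2549) (nat_lit 8) (.two (nat_lit 0) (nat_lit 2) (nat_lit 2550) (nat_lit 1) .nil)))),
   .der (nat_lit 37425) (nat_lit 373),
   .der (nat_lit 6) (nat_lit 1487),
   .prs (.two (nat_lit 227) (nat_lit 8) (nat_lit 543) (nat_lit 4) (.two (nat_lit 439) (nat_lit 4) (nat_lit 80) (nat_lit 8) (.two (nat_lit 1) (nat_lit 8) (nat_lit 2552) (nat_lit 4) (.one (nat_lit 2553) (nat_lit 4) .nil)))),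
   .der (nat_lit 627) (nat_lit 15),
   .der (nat_lit 2323) (nat_lit 192),
   .prs (.two (nat_lit 65) (nat_lit 8) (nat_lit 2555) (nat_lit 1) (.two (nat_lit 75) (nat_lit 4) (nat_lit 708) (nat_lit 1) (.two (nat_lit 1) (nat_lit 16) (nat_lit 2556) (nat_lit 1) (.one (nat_lit 1699) (nat_lit 4) .nil)))),
   .der (nat_lit 5218) (nat_lit 110),
   .der (nat_lit 37425) (nat_lit 425),
   .prs (.two (nat_lit 28) (nat_lit 4) (nat_lit 97) (nat_lit 16) (.two (nat_lit 556) (nat_lit 4) (nat_lit 2558) (nat_lit 16) (.two (nat_lit 16) (nat_lit 16) (nat_lit 2324) (nat_lit 4) (.two (nat_lit 0) (nat_lit 2) (nat_lit 2559) (nat_lit 16) (.one (nat_lit 1741) (nat_lit 16) .nil))))),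
   .der (nat_lit 7) (nat_lit 432),
   .prs (.two (nat_lit 6) (nat_lit 8) (nat_lit 462) (nat_lit 2) (.two (nat_lit 1) (nat_lit 16) (nat_lit 2561) (nat_lit 8) (.one (nat_lit 1760) (nat_lit 8) .nil))),
   .der (nat_lit 2068) (nat_lit 542),
   .prs (.two (nat_lit 30) (nat_lit 16) (nat_lit 1554) (nat_lit 2) (.two (nat_lit 3) (nat_lit 16) (nat_lit 2513) (nat_lit 4) (.two (nat_lit 0) (nat_lit 16) (nat_lit 2563) (nat_lit 2) (.one (nat_lit 1763) (nat_lit 16) .nil)))),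
   .der (nat_lit 852) (nat_lit 39),
   .der (nat_lit 4) (nat_lit 82),
   .der (nat_lit 162) (nat_lit 425),
   .der (nat_lit 101) (nat_lit 1741),
   .prs (.two (nat_lit 397) (nat_lit 4) (nat_lit 1326) (nat_lit 8) (.two (nat_lit 78) (nat_lit 4) (nat_lit 2565) (nat_lit 8) (.two (nat_lit 3) (nat_lit 4) (nat_lit 2566) (nat_lit 8) (.two (nat_lit 0) (nat_lit 16) (nat_lit 2567) (nat_lit 4) (.one (nat_lit 2568) (nat_lit 4) .nil))))),
   .der (nat_lit 354) (nat_lit 15),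
   .der (nat_lit 118) (nat_lit 19),
   .der (nat_lit 2339) (nat_lit 101),
   .der (nat_lit 1810) (nat_lit 477),
   .prs (.two (nat_lit 65) (nat_lit 8) (nat_lit 2570) (nat_lit 2) (.two (nat_lit 34) (nat_lit 8) (nat_lit 2571) (nat_lit 2) (.two (nat_lit 11) (nat_lit 8) (nat_lit 2572) (nat_lit 1) (.two (nat_lit 0) (nat_lit 1) (nat_lit 2573) (nat_lit 2) (.one (nat_lit 1766) (nat_lit 2) .nil))))),
   .der (nat_lit 5971) (nat_lit 15),
   .der (nat_lit 98) (nat_lit 31),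
   .der (nat_lit 101) (nat_lit 1074),
   .prs (.two (nat_lit 65) (nat_lit 8) (nat_lit 2575) (nat_lit 1) (.two (nat_lit 2) (nat_lit 8) (nat_lit 2576) (nat_lit 1) (.two (nat_lit 1) (nat_lit 2) (nat_lit 2532) (nat_lit 1) (.one (nat_lit 2577) (nat_lit 2) .nil)))),
   .der (nat_lit 2390) (nat_lit 108),
   .der (nat_lit 87) (nat_lit 432),
   .prs (.two (nat_lit 65) (nat_lit 8) (nat_lit 1435) (nat_lit 4) (.two (nat_lit 96) (nat_lit 4) (nat_lit 440) (nat_lit 8) (.two (nat_lit 1) (nat_lit 8) (nat_lit 2579) (nat_lit 4) (.two (nat_lit 0) (nat_lit 1) (nat_lit 2580) (nat_lit 8) (.one (nat_lit 1770) (nat_lit 8) .nil))))),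
   .der (nat_lit 612) (nat_lit 192),
   .prs (.two (nat_lit 134) (nat_lit 4) (nat_lit 2478) (nat_lit 2) (.two (nat_lit 4) (nat_lit 2) (nat_lit 2344) (nat_lit 16) (.two (nat_lit 0) (nat_lit 1) (nat_lit 2582) (nat_lit 2) (.one (nat_lit 1773) (nat_lit 16) .nil)))),
   .der (nat_lit 1299) (nat_lit 70),
   .prs (.two (nat_lit 6) (nat_lit 8) (nat_lit 53) (nat_lit 2) (.two (nat_lit 78) (nat_lit 16) (nat_lit 2584) (nat_lit 2) (.two (nat_lit 0) (nat_lit 16) (nat_lit 2561) (nat_lit 8) (.one (nat_lit 1775) (nat_lit 8) .nil)))),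
   .der (nat_lit 2578) (nat_lit 243),
   .prs (.two (nat_lit 2) (nat_lit 4) (nat_lit 127) (nat_lit 16) (.two (nat_lit 0) (nat_lit 1) (nat_lit 2586) (nat_lit 4) (.one (nat_lit 1209) (nat_lit 1) .nil))),
   .der (nat_lit 6) (nat_lit 255),
   .der (nat_lit 87) (nat_lit 1088),
   .prs (.two (nat_lit 42) (nat_lit 4) (nat_lit 459) (nat_lit 2) (.two (nat_lit 1) (nat_lit 2) (nat_lit 2588) (nat_lit 4) (.two (nat_lit 0) (nat_lit 4) (nat_lit 693) (nat_lit 2) (.one (nat_lit 2589) (nat_lit 4) .nil)))),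
   .der (nat_lit 36) (nat_lit 45),
   .der (nat_lit 561) (nat_lit 169),
   .prs (.two (nat_lit 65) (nat_lit 2) (nat_lit 2591) (nat_lit 4) (.two (nat_lit 1) (nat_lit 2) (nat_lit 2302) (nat_lit 4) (.two (nat_lit 0) (nat_lit 1) (nat_lit 2592) (nat_lit 4) (.one (nat_lit 1780) (nat_lit 2) .nil)))),
   .der (nat_lit 2593) (nat_lit 54),
   .der (nat_lit 35) (nat_lit 169),
   .prs (.two (nat_lit 427) (nat_lit 2) (nat_lit 1459) (nat_lit 8) (.two (nat_lit 384) (nat_lit 8) (nat_lit 2594) (nat_lit 2) (.two (nat_lit 3) (nat_lit 1) (nat_lit 1947) (nat_lit 2) (.two (nat_lit 0) (nat_lit 4) (nat_lit 2595) (nat_lit 1) (.one (nat_lit 1783) (nat_lit 8) .nil))))),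
   .der (nat_lit 1554) (nat_lit 57),
   .der (nat_lit 87) (nat_lit 35),
   .der (nat_lit 150) (nat_lit 182),
   .prs (.two (nat_lit 227) (nat_lit 16) (nat_lit 2597) (nat_lit 4) (.two (nat_lit 1) (nat_lit 2) (nat_lit 2598) (nat_lit 4) (.two (nat_lit 0) (nat_lit 2) (nat_lit 2599) (nat_lit 4) (.one (nat_lit 1792) (nat_lit 4) .nil)))),
   .der (nat_lit 1554) (nat_lit 50),
   .der (nat_lit 26386) (nat_lit 651),
   .prs (.two (nat_lit 6) (nat_lit 8) (nat_lit 150) (nat_lit 1) (.two (nat_lit 2) (nat_lit 8) (nat_lit 2601) (nat_lit 1) (.two (nat_lit 3) (nat_lit 8) (nat_lit 2602) (nat_lit 1) (.one (nat_lit 1795) (nat_lit 8) .nil)))),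
   .der (nat_lit 35) (nat_lit 59),
   .der (nat_lit 833) (nat_lit 693),
   .prs (.two (nat_lit 124) (nat_lit 16) (nat_lit 625) (nat_lit 2) (.two (nat_lit 338) (nat_lit 2) (nat_lit 1554) (nat_lit 16) (.two (nat_lit 11) (nat_lit 2) (nat_lit 2604) (nat_lit 16) (.two (nat_lit 0) (nat_lit 2) (nat_lit 2605) (nat_lit 16) (.one (nat_lit 1196) (nat_lit 2) .nil))))),
   .der (nat_lit 6) (nat_lit 172),
   .der (nat_lit 10) (nat_lit 1756),
   .prs (.two (nat_lit 129) (nat_lit 4) (nat_lit 520) (nat_lit 8) (.two (nat_lit 1) (nat_lit 4) (nat_lit 1063) (nat_lit 2) (.two (nat_lit 0) (nat_lit 4) (nat_lit 2607) (nat_lit 2) (.one (nat_lit 2608) (nat_lit 2) .nil)))),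
   .der (nat_lit 5218) (nat_lit 10),
   .der (nat_lit 137) (nat_lit 123),
   .der (nat_lit 118) (nat_lit 657),
   .der (nat_lit 371) (nat_lit 1022),
   .prs (.two (nat_lit 134) (nat_lit 1) (nat_lit 2610) (nat_lit 2) (.two (nat_lit 622) (nat_lit 2) (nat_lit 1254) (nat_lit 1) (.two (nat_lit 3) (nat_lit 1) (nat_lit 2611) (nat_lit 2) (.two (nat_lit 0) (nat_lit 1) (nat_lit 2612) (nat_lit 2) (.one (nat_lit 2613) (nat_lit 1) .nil))))),
   .der (nat_lit 1057) (nat_lit 59),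
   .der (nat_lit 4978) (nat_lit 467),
   .der (nat_lit 852) (nat_lit 1045),
   .prs (.two (nat_lit 6) (nat_lit 8) (nat_lit 1582) (nat_lit 1) (.two (nat_lit 3) (nat_lit 8) (nat_lit 2615) (nat_lit 1) (.two (nat_lit 0) (nat_lit 8) (nat_lit 2616) (nat_lit 1) (.one (nat_lit 2617) (nat_lit 8) .nil)))),
   .der (nat_lit 65) (nat_lit 84),
   .der (nat_lit 10305) (nat_lit 672),
   .prs (.two (nat_lit 404) (nat_lit 16) (nat_lit 94) (nat_lit 4) (.two (nat_lit 1) (nat_lit 8) (nat_lit 2619) (nat_lit 16) (.two (nat_lit 0) (nat_lit 2) (nat_lit 2620) (nat_lit 4) (.one (nat_lit 1798) (nat_lit 16) .nil)))),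
   .der (nat_lit 1811) (nat_lit 101),
   .der (nat_lit 22803) (nat_lit 479),
   .prs (.two (nat_lit 91) (nat_lit 16) (nat_lit 1435) (nat_lit 4) (.two (nat_lit 463) (nat_lit 4) (nat_lit 390) (nat_lit 16) (.two (nat_lit 1) (nat_lit 4) (nat_lit 2622) (nat_lit 16) (.two (nat_lit 0) (nat_lit 4) (nat_lit 2623) (nat_lit 16) (.one (nat_lit 1800) (nat_lit 1) .nil))))),
   .der (nat_lit 52) (nat_lit 43),
   .der (nat_lit 10305) (nat_lit 106),
   .der (nat_lit 137) (nat_lit 627),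
   .prs (.two (nat_lit 227) (nat_lit 16) (nat_lit 111) (nat_lit 2) (.two (nat_lit 463) (nat_lit 16) (nat_lit 2625) (nat_lit 2) (.two (nat_lit 1) (nat_lit 16) (nat_lit 2626) (nat_lit 2) (.two (nat_lit 0) (nat_lit 4) (nat_lit 2627) (nat_lit 16) (.one (nat_lit 1803) (nat_lit 16) .nil))))),
   .prs (.two (nat_lit 397) (nat_lit 4) (nat_lit 1048) (nat_lit 1) (.two (nat_lit 341) (nat_lit 1) (nat_lit 941) (nat_lit 4) (.two (nat_lit 0) (nat_lit 1) (nat_lit 1813) (nat_lit 4) (.one (nat_lit 1806) (nat_lit 4) .nil)))),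
   .der (nat_lit 2193) (nat_lit 57),
   .der (nat_lit 35) (nat_lit 39),
   .der (nat_lit 561) (nat_lit 172),
   .prs (.two (nat_lit 404) (nat_lit 8) (nat_lit 2630) (nat_lit 2) (.two (nat_lit 1) (nat_lit 2) (nat_lit 2631) (nat_lit 4) (.two (nat_lit 0) (nat_lit 2) (nat_lit 2632) (nat_lit 4) (.one (nat_lit 1808) (nat_lit 8) .nil)))),
   .der (nat_lit 2353) (nat_lit 15),
   .der (nat_lit 135) (nat_lit 182),
   .der (nat_lit 6) (nat_lit 421),
   .prs (.two (nat_lit 1804) (nat_lit 8) (nat_lit 2634) (nat_lit 2) (.two (nat_lit 439) (nat_lit 8) (nat_lit 103) (nat_lit 2) (.two (nat_lit 1) (nat_lit 2) (nat_lit 1764) (nat_lit 8) (.two (nat_lit 0) (nat_lit 8) (nat_lit 2635) (nat_lit 2) (.one (nat_lit 2636) (nat_lit 2) .nil))))),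
   .der (nat_lit 19) (nat_lit 55),
   .der (nat_lit 29011) (nat_lit 101),
   .der (nat_lit 2135) (nat_lit 465),
   .prs (.two (nat_lit 6) (nat_lit 8) (nat_lit 1435) (nat_lit 4) (.two (nat_lit 5) (nat_lit 8) (nat_lit 2638) (nat_lit 4) (.two (nat_lit 3) (nat_lit 8) (nat_lit 2639) (nat_lit 1) (.two (nat_lit 0) (nat_lit 1) (nat_lit 2640) (nat_lit 8) (.one (nat_lit 1810) (nat_lit 4) .nil))))),
   .der (nat_lit 2339) (nat_lit 564),
   .prs (.two (nat_lit 463) (nat_lit 8) (nat_lit 1729) (nat_lit 2) (.two (nat_lit 0) (nat_lit 8) (nat_lit 2642) (nat_lit 2) (.one (nat_lit 1830) (nat_lit 8) .nil))),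
   .der (nat_lit 86) (nat_lit 64),
   .der (nat_lit 1300) (nat_lit 681),
   .der (nat_lit 371) (nat_lit 1186),
   .prs (.two (nat_lit 489) (nat_lit 4) (nat_lit 2515) (nat_lit 2) (.two (nat_lit 4) (nat_lit 2) (nat_lit 145) (nat_lit 4) (.two (nat_lit 1) (nat_lit 2) (nat_lit 2644) (nat_lit 4) (.two (nat_lit 0) (nat_lit 1) (nat_lit 2645) (nat_lit 2) (.one (nat_lit 2646) (nat_lit 2) .nil))))),
   .der (nat_lit 1299) (nat_lit 62),
   .prs (.two (nat_lit 91) (nat_lit 4) (nat_lit 2515) (nat_lit 2) (.two (nat_lit 493) (nat_lit 2) (nat_lit 145) (nat_lit 4) (.two (nat_lit 1) (nat_lit 2) (nat_lit 2648) (nat_lit 4) (.two (nat_lit 0) (nat_lit 8) (nat_lit 2645) (nat_lit 2) (.one (nat_lit 1814) (nat_lit 2) .nil))))),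
   .der (nat_lit 1893) (nat_lit 536),
   .prs (.two (nat_lit 36) (nat_lit 2) (nat_lit 217) (nat_lit 4) (.two (nat_lit 1) (nat_lit 2) (nat_lit 118) (nat_lit 4) (.two (nat_lit 0) (nat_lit 2) (nat_lit 2650) (nat_lit 1) (.one (nat_lit 1817) (nat_lit 2) .nil)))),
   .der (nat_lit 2135) (nat_lit 21),
   .der (nat_lit 118) (nat_lit 35),
   .prs (.two (nat_lit 2) (nat_lit 8) (nat_lit 2652) (nat_lit 2) (.two (nat_lit 0) (nat_lit 8) (nat_lit 2653) (nat_lit 2) (.one (nat_lit 1213) (nat_lit 2) .nil))),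
   .prs (.two (nat_lit 129) (nat_lit 8) (nat_lit 1272) (nat_lit 2) (.two (nat_lit 1) (nat_lit 8) (nat_lit 2653) (nat_lit 2) (.two (nat_lit 0) (nat_lit 8) (nat_lit 2635) (nat_lit 2) (.one (nat_lit 1818) (nat_lit 2) .nil)))),
   .der (nat_lit 145) (nat_lit 31),
   .der (nat_lit 354) (nat_lit 37),
   .der (nat_lit 2) (nat_lit 592),
   .der (nat_lit 101) (nat_lit 967),
   .prs (.two (nat_lit 167) (nat_lit 1) (nat_lit 2656) (nat_lit 4) (.two (nat_lit 3) (nat_lit 4) (nat_lit 2657) (nat_lit 1) (.two (nat_lit 0) (nat_lit 1) (nat_lit 2658) (nat_lit 4) (.one (nat_lit 2659) (nat_lit 1) .nil)))),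
   .der (nat_lit 38163) (nat_lit 10),
   .der (nat_lit 19) (nat_lit 121),
   .der (nat_lit 2) (nat_lit 1179),
   .prs (.two (nat_lit 30) (nat_lit 1) (nat_lit 2661) (nat_lit 4) (.two (nat_lit 1068) (nat_lit 4) (nat_lit 69) (nat_lit 1) (.two (nat_lit 3) (nat_lit 1) (nat_lit 2662) (nat_lit 4) (.two (nat_lit 0) (nat_lit 16) (nat_lit 2663) (nat_lit 4) .nil)))),
   .der (nat_lit 2323) (nat_lit 59),
   .der (nat_lit 165) (nat_lit 693),
   .prs (.two (nat_lit 1387) (nat_lit 1) (nat_lit 1245) (nat_lit 4) (.two (nat_lit 3) (nat_lit 1) (nat_lit 2665) (nat_lit 4) (.two (nat_lit 0) (nat_lit 1) (nat_lit 2666) (nat_lit 4) (.one (nat_lit 1819) (nat_lit 4) .nil)))),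
   .der (nat_lit 1811) (nat_lit 283),
   .prs (.two (nat_lit 329) (nat_lit 16) (nat_lit 717) (nat_lit 2) (.two (nat_lit 0) (nat_lit 16) (nat_lit 2668) (nat_lit 2) (.one (nat_lit 1219) (nat_lit 2) .nil))),
   .der (nat_lit 10545) (nat_lit 110),
   .der (nat_lit 1395) (nat_lit 572),
   .der (nat_lit 150) (nat_lit 1678),
   .prs (.two (nat_lit 427) (nat_lit 4) (nat_lit 825) (nat_lit 1) (.two (nat_lit 1) (nat_lit 4) (nat_lit 2670) (nat_lit 1) (.two (nat_lit 0) (nat_lit 4) (nat_lit 2671) (nat_lit 2) (.one (nat_lit 2672) (nat_lit 2) .nil)))),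
   .der (nat_lit 137) (nat_lit 87),
   .der (nat_lit 10) (nat_lit 666),
   .prs (.two (nat_lit 1387) (nat_lit 16) (nat_lit 147) (nat_lit 2) (.two (nat_lit 2) (nat_lit 16) (nat_lit 2456) (nat_lit 4) (.two (nat_lit 1) (nat_lit 2) (nat_lit 2674) (nat_lit 4) (.two (nat_lit 0) (nat_lit 4) (nat_lit 2675) (nat_lit 2) (.one (nat_lit 1824) (nat_lit 4) .nil))))),
   .der (nat_lit 161) (nat_lit 10),
   .der (nat_lit 83) (nat_lit 169),
   .prs (.two (nat_lit 537) (nat_lit 1) (nat_lit 2677) (nat_lit 8) (.two (nat_lit 2) (nat_lit 8) (nat_lit 306) (nat_lit 1) (.two (nat_lit 1) (nat_lit 16) (nat_lit 2678) (nat_lit 1) (.one (nat_lit 1826) (nat_lit 8) .nil)))),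
   .der (nat_lit 882) (nat_lit 655),
   .prs (.two (nat_lit 75) (nat_lit 2) (nat_lit 1852) (nat_lit 4) (.one (nat_lit 2680) (nat_lit 4) .nil)),
   .prs (.two (nat_lit 4) (nat_lit 16) (nat_lit 1555) (nat_lit 1) (.one (nat_lit 1831) (nat_lit 1) .nil)),
   .der (nat_lit 38163) (nat_lit 229),
   .prs (.two (nat_lit 463) (nat_lit 8) (nat_lit 462) (nat_lit 4) (.two (nat_lit 0) (nat_lit 1) (nat_lit 2683) (nat_lit 4) (.one (nat_lit 1832) (nat_lit 1) .nil))),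
   .der (nat_lit 135) (nat_lit 52),
   .der (nat_lit 103) (nat_lit 266),
   .der (nat_lit 2084) (nat_lit 521),
   .der (nat_lit 1415) (nat_lit 425),
   .prs (.two (nat_lit 882) (nat_lit 4) (nat_lit 886) (nat_lit 1) (.two (nat_lit 2) (nat_lit 4) (nat_lit 2685) (nat_lit 1) (.two (nat_lit 1) (nat_lit 4) (nat_lit 2686) (nat_lit 1) (.two (nat_lit 0) (nat_lit 4) (nat_lit 2687) (nat_lit 1) (.one (nat_lit 2688) (nat_lit 1) .nil))))),
   .der (nat_lit 135) (nat_lit 95),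
   .prs (.two (nat_lit 34) (nat_lit 16) (nat_lit 397) (nat_lit 1) (.two (nat_lit 1) (nat_lit 2) (nat_lit 2690) (nat_lit 1) (.one (nat_lit 1833) (nat_lit 1) .nil))),
   .der (nat_lit 145) (nat_lit 87),
   .prs (.two (nat_lit 173) (nat_lit 1) (nat_lit 2692) (nat_lit 4) (.one (nat_lit 707) (nat_lit 4) .nil)),
   .der (nat_lit 26386) (nat_lit 59),
   .prs (.two (nat_lit 34) (nat_lit 8) (nat_lit 791) (nat_lit 2) (.two (nat_lit 1) (nat_lit 2) (nat_lit 2694) (nat_lit 8) (.one (nat_lit 1222) (nat_lit 8) .nil))),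
   .der (nat_lit 9587) (nat_lit 74),
   .der (nat_lit 10) (nat_lit 681),
   .prs (.two (nat_lit 514) (nat_lit 2) (nat_lit 674) (nat_lit 1) (.two (nat_lit 0) (nat_lit 2) (nat_lit 2696) (nat_lit 1) (.one (nat_lit 2697) (nat_lit 1) .nil))),
   .prs (.two (nat_lit 556) (nat_lit 8) (nat_lit 12) (nat_lit 1) (.two (nat_lit 1) (nat_lit 2) (nat_lit 242) (nat_lit 1) (.two (nat_lit 0) (nat_lit 2) (nat_lit 709) (nat_lit 8) (.one (nat_lit 1835) (nat_lit 1) .nil)))),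
   .prs (.two (nat_lit 439) (nat_lit 4) (nat_lit 965) (nat_lit 2) (.two (nat_lit 0) (nat_lit 4) (nat_lit 1447) (nat_lit 1) (.one (nat_lit 1836) (nat_lit 1) .nil))),
   .der (nat_lit 5) (nat_lit 84),
   .prs (.two (nat_lit 2) (nat_lit 4) (nat_lit 246) (nat_lit 2) (.two (nat_lit 0) (nat_lit 1) (nat_lit 2701) (nat_lit 4) (.one (nat_lit 1837) (nat_lit 4) .nil))),
   .der (nat_lit 162) (nat_lit 10),
   .prs (.two (nat_lit 5) (nat_lit 8) (nat_lit 2703) (nat_lit 2) (.two (nat_lit 1) (nat_lit 2) (nat_lit 2576) (nat_lit 8) (.two (nat_lit 0) (nat_lit 8) (nat_lit 715) (nat_lit 4) (.one (nat_lit 1839) (nat_lit 8) .nil)))),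
   .der (nat_lit 340) (nat_lit 84),
   .prs (.two (nat_lit 75) (nat_lit 2) (nat_lit 543) (nat_lit 4) (.two (nat_lit 1) (nat_lit 4) (nat_lit 825) (nat_lit 1) (.two (nat_lit 0) (nat_lit 2) (nat_lit 2705) (nat_lit 4) (.one (nat_lit 1841) (nat_lit 4) .nil)))),
   .der (nat_lit 150) (nat_lit 465),
   .prs (.two (nat_lit 34) (nat_lit 2) (nat_lit 459) (nat_lit 4) (.two (nat_lit 0) (nat_lit 2) (nat_lit 1786) (nat_lit 4) (.one (nat_lit 2707) (nat_lit 4) .nil))),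
   .der (nat_lit 7) (nat_lit 108),
   .der (nat_lit 117) (nat_lit 465),
   .prs (.two (nat_lit 2) (nat_lit 8) (nat_lit 1480) (nat_lit 2) (.two (nat_lit 0) (nat_lit 8) (nat_lit 2709) (nat_lit 2) (.one (nat_lit 2710) (nat_lit 2) .nil))),
   .der (nat_lit 162) (nat_lit 243),
   .prs (.two (nat_lit 2) (nat_lit 4) (nat_lit 71) (nat_lit 16) (.two (nat_lit 0) (nat_lit 1) (nat_lit 2712) (nat_lit 4) (.one (nat_lit 1844) (nat_lit 4) .nil))),
   .prs (.two (nat_lit 463) (nat_lit 8) (nat_lit 1440) (nat_lit 16) .nil),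
   .der (nat_lit 18) (nat_lit 84),
   .prs (.two (nat_lit 384) (nat_lit 1) (nat_lit 321) (nat_lit 2) (.two (nat_lit 0) (nat_lit 4) (nat_lit 2715) (nat_lit 1) (.one (nat_lit 1845) (nat_lit 1) .nil))),
   .der (nat_lit 1) (nat_lit 64),
   .prs (.two (nat_lit 2) (nat_lit 16) (nat_lit 2717) (nat_lit 8) (.one (nat_lit 1847) (nat_lit 2) .nil)),
   .der (nat_lit 21092) (nat_lit 10),
   .der (nat_lit 65) (nat_lit 19),
   .der (nat_lit 2578) (nat_lit 288),
   .prs (.two (nat_lit 214) (nat_lit 4) (nat_lit 2719) (nat_lit 2) (.two (nat_lit 1) (nat_lit 2) (nat_lit 2720) (nat_lit 4) (.two (nat_lit 0) (nat_lit 4) (nat_lit 2721) (nat_lit 2) (.one (nat_lit 729) (nat_lit 4) .nil)))),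
   .der (nat_lit 101) (nat_lit 106),
   .prs (.two (nat_lit 384) (nat_lit 16) (nat_lit 694) (nat_lit 1) (.two (nat_lit 1) (nat_lit 8) (nat_lit 80) (nat_lit 16) (.two (nat_lit 0) (nat_lit 8) (nat_lit 2723) (nat_lit 1) (.one (nat_lit 1851) (nat_lit 1) .nil)))),
   .prs (.two (nat_lit 4) (nat_lit 2) (nat_lit 459) (nat_lit 4) (.two (nat_lit 0) (nat_lit 1) (nat_lit 1574) (nat_lit 4) (.one (nat_lit 1853) (nat_lit 1) .nil))),
   .der (nat_lit 30226) (nat_lit 243),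
   .prs (.two (nat_lit 2) (nat_lit 16) (nat_lit 94) (nat_lit 4) (.two (nat_lit 0) (nat_lit 8) (nat_lit 2726) (nat_lit 4) (.one (nat_lit 1856) (nat_lit 4) .nil))),
   .prs (.two (nat_lit 99) (nat_lit 16) (nat_lit 173) (nat_lit 1) (.two (nat_lit 3) (nat_lit 1) (nat_lit 1113) (nat_lit 16) (.one (nat_lit 146) (nat_lit 16) .nil))),
   .prs (.two (nat_lit 2) (nat_lit 8) (nat_lit 315) (nat_lit 4) (.two (nat_lit 0) (nat_lit 16) (nat_lit 1811) (nat_lit 4) .nil)),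
   .der (nat_lit 2578) (nat_lit 87),
   .prs (.two (nat_lit 2) (nat_lit 8) (nat_lit 206) (nat_lit 4) (.two (nat_lit 1) (nat_lit 4) (nat_lit 2730) (nat_lit 8) .nil)),
   .der (nat_lit 659) (nat_lit 222),
   .der (nat_lit 100) (nat_lit 182),
   .der (nat_lit 1074) (nat_lit 1466),
   .prs (.two (nat_lit 42) (nat_lit 16) (nat_lit 273) (nat_lit 1) (.two (nat_lit 2) (nat_lit 16) (nat_lit 2625) (nat_lit 1) (.two (nat_lit 1) (nat_lit 16) (nat_lit 2732) (nat_lit 1) (.two (nat_lit 0) (nat_lit 16) (nat_lit 2733) (nat_lit 1) (.one (nat_lit 2734) (nat_lit 1) .nil))))),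
   .der (nat_lit 1556) (nat_lit 39),
   .der (nat_lit 1556) (nat_lit 371),
   .prs (.two (nat_lit 6) (nat_lit 16) (nat_lit 12) (nat_lit 1) (.two (nat_lit 78) (nat_lit 16) (nat_lit 1239) (nat_lit 1) (.two (nat_lit 1) (nat_lit 2) (nat_lit 2736) (nat_lit 1) (.two (nat_lit 0) (nat_lit 2) (nat_lit 2737) (nat_lit 1) (.one (nat_lit 1895) (nat_lit 1) .nil))))),
   .der (nat_lit 5218) (nat_lit 177),
   .prs (.two (nat_lit 91) (nat_lit 2) (nat_lit 145) (nat_lit 4) (.two (nat_lit 1) (nat_lit 2) (nat_lit 2739) (nat_lit 8) (.one (nat_lit 1897) (nat_lit 8) .nil))),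
   .der (nat_lit 340) (nat_lit 15),
   .der (nat_lit 86) (nat_lit 21),
   .der (nat_lit 98) (nat_lit 247),
   .prs (.two (nat_lit 489) (nat_lit 16) (nat_lit 2741) (nat_lit 1) (.two (nat_lit 374) (nat_lit 1) (nat_lit 2742) (nat_lit 16) (.two (nat_lit 1) (nat_lit 16) (nat_lit 2743) (nat_lit 1) (.two (nat_lit 0) (nat_lit 8) (nat_lit 1237) (nat_lit 1) (.one (nat_lit 1900) (nat_lit 8) .nil))))),
   .der (nat_lit 2433) (nat_lit 39),
   .der (nat_lit 1073) (nat_lit 511),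
   .prs (.two (nat_lit 397) (nat_lit 4) (nat_lit 543) (nat_lit 2) (.two (nat_lit 1068) (nat_lit 4) (nat_lit 490) (nat_lit 2) (.two (nat_lit 1) (nat_lit 2) (nat_lit 2745) (nat_lit 4) (.two (nat_lit 0) (nat_lit 1) (nat_lit 2746) (nat_lit 2) (.one (nat_lit 1902) (nat_lit 2) .nil))))),
   .der (nat_lit 52) (nat_lit 492),
   .prs (.two (nat_lit 397) (nat_lit 4) (nat_lit 1842) (nat_lit 2) (.two (nat_lit 173) (nat_lit 4) (nat_lit 755) (nat_lit 2) (.two (nat_lit 1) (nat_lit 2) (nat_lit 2748) (nat_lit 4) (.one (nat_lit 1904) (nat_lit 4) .nil)))),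
   .der (nat_lit 2339) (nat_lit 39),
   .der (nat_lit 1057) (nat_lit 1235),
   .der (nat_lit 49) (nat_lit 1758),
   .prs (.two (nat_lit 427) (nat_lit 4) (nat_lit 410) (nat_lit 16) (.two (nat_lit 11) (nat_lit 16) (nat_lit 2750) (nat_lit 4) (.two (nat_lit 0) (nat_lit 16) (nat_lit 2751) (nat_lit 4) (.one (nat_lit 2752) (nat_lit 4) .nil)))),
   .der (nat_lit 339) (nat_lit 15),
   .der (nat_lit 9) (nat_lit 121),
   .der (nat_lit 1057) (nat_lit 536),
   .prs (.two (nat_lit 397) (nat_lit 4) (nat_lit 2754) (nat_lit 1) (.two (nat_lit 5) (nat_lit 1) (nat_lit 825) (nat_lit 4) (.two (nat_lit 1) (nat_lit 2) (nat_lit 2755) (nat_lit 4) (.two (nat_lit 0) (nat_lit 1) (nat_lit 2756) (nat_lit 2) (.one (nat_lit 1909) (nat_lit 1) .nil))))),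
   .der (nat_lit 20) (nat_lit 8),
   .der (nat_lit 18) (nat_lit 172),
   .prs (.two (nat_lit 489) (nat_lit 16) (nat_lit 2758) (nat_lit 2) (.two (nat_lit 443) (nat_lit 2) (nat_lit 127) (nat_lit 16) (.two (nat_lit 16) (nat_lit 2) (nat_lit 2759) (nat_lit 16) (.one (nat_lit 1911) (nat_lit 16) .nil)))),
   .der (nat_lit 354) (nat_lit 10),
   .der (nat_lit 2193) (nat_lit 220),
   .der (nat_lit 162) (nat_lit 695),
   .prs (.two (nat_lit 65) (nat_lit 16) (nat_lit 2761) (nat_lit 1) (.two (nat_lit 384) (nat_lit 1) (nat_lit 440) (nat_lit 16) (.two (nat_lit 1) (nat_lit 4) (nat_lit 2762) (nat_lit 16) (.two (nat_lit 0) (nat_lit 4) (nat_lit 2763) (nat_lit 1) (.one (nat_lit 1914) (nat_lit 4) .nil))))),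
   .der (nat_lit 4) (nat_lit 50),
   .der (nat_lit 561) (nat_lit 187),
   .prs (.two (nat_lit 30) (nat_lit 1) (nat_lit 2765) (nat_lit 4) (.two (nat_lit 3) (nat_lit 1) (nat_lit 1124) (nat_lit 4) (.two (nat_lit 0) (nat_lit 16) (nat_lit 2766) (nat_lit 4) (.one (nat_lit 1917) (nat_lit 1) .nil)))),
   .der (nat_lit 1875) (nat_lit 177),
   .prs (.two (nat_lit 65) (nat_lit 2) (nat_lit 80) (nat_lit 8) (.two (nat_lit 1) (nat_lit 2) (nat_lit 2768) (nat_lit 4) (.one (nat_lit 1919) (nat_lit 2) .nil))),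
   .der (nat_lit 26386) (nat_lit 10),
   .der (nat_lit 1890) (nat_lit 580),
   .prs (.two (nat_lit 1387) (nat_lit 16) (nat_lit 2770) (nat_lit 8) (.two (nat_lit 7) (nat_lit 16) (nat_lit 1239) (nat_lit 8) (.two (nat_lit 11) (nat_lit 2) (nat_lit 2771) (nat_lit 8) (.one (nat_lit 1922) (nat_lit 8) .nil)))),
   .der (nat_lit 21092) (nat_lit 50),
   .der (nat_lit 1554) (nat_lit 955),
   .prs (.two (nat_lit 129) (nat_lit 8) (nat_lit 2773) (nat_lit 1) (.two (nat_lit 1) (nat_lit 16) (nat_lit 2207) (nat_lit 1) (.one (nat_lit 2774) (nat_lit 8) .nil))),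
   .der (nat_lit 1620) (nat_lit 21),
   .der (nat_lit 26386) (nat_lit 552),
   .der (nat_lit 356) (nat_lit 1051),
   .prs (.two (nat_lit 1333) (nat_lit 16) (nat_lit 2776) (nat_lit 1) (.two (nat_lit 1) (nat_lit 4) (nat_lit 2390) (nat_lit 16) (.two (nat_lit 0) (nat_lit 1) (nat_lit 2777) (nat_lit 16) (.one (nat_lit 2778) (nat_lit 1) .nil)))),
   .der (nat_lit 129) (nat_lit 115),
   .der (nat_lit 7) (nat_lit 599),
   .der (nat_lit 9) (nat_lit 1425),
   .prs (.two (nat_lit 1459) (nat_lit 16) (nat_lit 543) (nat_lit 2) (.two (nat_lit 99) (nat_lit 16) (nat_lit 522) (nat_lit 1) (.two (nat_lit 1) (nat_lit 2) (nat_lit 2780) (nat_lit 16) (.two (nat_lit 0) (nat_lit 2) (nat_lit 2781) (nat_lit 16) (.one (nat_lit 2782) (nat_lit 2) .nil))))),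
   .der (nat_lit 833) (nat_lit 135),
   .der (nat_lit 2593) (nat_lit 923),
   .prs (.two (nat_lit 28) (nat_lit 1) (nat_lit 1423) (nat_lit 4) (.two (nat_lit 383) (nat_lit 4) (nat_lit 71) (nat_lit 1) (.two (nat_lit 3) (nat_lit 1) (nat_lit 2784) (nat_lit 4) (.two (nat_lit 0) (nat_lit 16) (nat_lit 2785) (nat_lit 4) .nil)))),
   .der (nat_lit 145) (nat_lit 477),
   .prs (.two (nat_lit 91) (nat_lit 4) (nat_lit 1331) (nat_lit 2) (.two (nat_lit 1) (nat_lit 4) (nat_lit 2787) (nat_lit 2) (.one (nat_lit 1926) (nat_lit 2) .nil))),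
   .der (nat_lit 1556) (nat_lit 21),
   .der (nat_lit 2135) (nat_lit 216),
   .prs (.two (nat_lit 68) (nat_lit 2) (nat_lit 2789) (nat_lit 8) (.two (nat_lit 0) (nat_lit 4) (nat_lit 2790) (nat_lit 8) (.one (nat_lit 1258) (nat_lit 8) .nil))),
   .der (nat_lit 4) (nat_lit 10),
   .der (nat_lit 834) (nat_lit 39),
   .der (nat_lit 833) (nat_lit 594),
   .der (nat_lit 12658) (nat_lit 421),
   .prs (.two (nat_lit 2792) (nat_lit 1) (nat_lit 770) (nat_lit 16) (.two (nat_lit 68) (nat_lit 16) (nat_lit 2793) (nat_lit 1) (.two (nat_lit 0) (nat_lit 1) (nat_lit 2794) (nat_lit 16) (.one (nat_lit 2795) (nat_lit 1) .nil)))),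
   .der (nat_lit 852) (nat_lit 126),
   .der (nat_lit 1893) (nat_lit 1498),
   .prs (.two (nat_lit 227) (nat_lit 8) (nat_lit 2073) (nat_lit 1) (.two (nat_lit 248) (nat_lit 1) (nat_lit 2797) (nat_lit 8) (.two (nat_lit 0) (nat_lit 8) (nat_lit 743) (nat_lit 1) (.one (nat_lit 2798) (nat_lit 1) .nil)))),
   .der (nat_lit 1556) (nat_lit 76),
   .der (nat_lit 833) (nat_lit 451),
   .prs (.two (nat_lit 6) (nat_lit 4) (nat_lit 30) (nat_lit 16) (.two (nat_lit 17) (nat_lit 16) (nat_lit 1784) (nat_lit 4) (.two (nat_lit 3) (nat_lit 4) (nat_lit 2800) (nat_lit 1) (.two (nat_lit 0) (nat_lit 1) (nat_lit 2801) (nat_lit 4) (.one (nat_lit 1244) (nat_lit 1) .nil))))),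
   .der (nat_lit 33) (nat_lit 108),
   .prs (.two (nat_lit 384) (nat_lit 16) (nat_lit 918) (nat_lit 8) (.two (nat_lit 3) (nat_lit 8) (nat_lit 2803) (nat_lit 16) (.one (nat_lit 1893) (nat_lit 8) .nil))),
   .der (nat_lit 1380) (nat_lit 45),
   .der (nat_lit 1811) (nat_lit 123),
   .der (nat_lit 118) (nat_lit 199),
   .prs (.two (nat_lit 791) (nat_lit 2) (nat_lit 2805) (nat_lit 1) (.two (nat_lit 1) (nat_lit 2) (nat_lit 2806) (nat_lit 1) (.two (nat_lit 0) (nat_lit 1) (nat_lit 2807) (nat_lit 2) (.one (nat_lit 2423) (nat_lit 2) .nil)))),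
   .der (nat_lit 2135) (nat_lit 255),
   .der (nat_lit 1620) (nat_lit 599),
   .der (nat_lit 2084) (nat_lit 1569),
   .prs (.two (nat_lit 100) (nat_lit 16) (nat_lit 1245) (nat_lit 4) (.two (nat_lit 1) (nat_lit 4) (nat_lit 2809) (nat_lit 16) (.two (nat_lit 0) (nat_lit 1) (nat_lit 2810) (nat_lit 4) (.one (nat_lit 2811) (nat_lit 16) .nil)))),
   .der (nat_lit 1107) (nat_lit 131),
   .prs (.two (nat_lit 482) (nat_lit 4) (nat_lit 2336) (nat_lit 8) (.two (nat_lit 3) (nat_lit 4) (nat_lit 2813) (nat_lit 8) (.one (nat_lit 1263) (nat_lit 4) .nil))),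
   .der (nat_lit 2578) (nat_lit 74),
   .prs (.two (nat_lit 144) (nat_lit 4) (nat_lit 553) (nat_lit 8) (.two (nat_lit 1) (nat_lit 4) (nat_lit 2815) (nat_lit 8) (.one (nat_lit 1957) (nat_lit 8) .nil))),
   .prs (.two (nat_lit 482) (nat_lit 4) (nat_lit 1259) (nat_lit 8) (.two (nat_lit 1) (nat_lit 8) (nat_lit 1462) (nat_lit 4) (.one (nat_lit 1960) (nat_lit 4) .nil))),
   .der (nat_lit 66) (nat_lit 208),
   .prs (.two (nat_lit 65) (nat_lit 2) (nat_lit 1278) (nat_lit 8) (.two (nat_lit 1) (nat_lit 2) (nat_lit 2818) (nat_lit 1) (.two (nat_lit 0) (nat_lit 2) (nat_lit 1871) (nat_lit 8) (.one (nat_lit 1932) (nat_lit 8) .nil)))),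
   .der (nat_lit 12658) (nat_lit 73),
   .prs (.two (nat_lit 224) (nat_lit 2) (nat_lit 2820) (nat_lit 8) (.one (nat_lit 1265) (nat_lit 8) .nil)),
   .prs (.two (nat_lit 91) (nat_lit 2) (nat_lit 145) (nat_lit 4) (.two (nat_lit 1) (nat_lit 2) (nat_lit 2739) (nat_lit 8) (.one (nat_lit 1934) (nat_lit 8) .nil))),
   .der (nat_lit 19) (nat_lit 266),
   .prs (.two (nat_lit 68) (nat_lit 1) (nat_lit 1170) (nat_lit 8) (.two (nat_lit 0) (nat_lit 1) (nat_lit 2823) (nat_lit 8) (.one (nat_lit 1962) (nat_lit 1) .nil))),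
   .der (nat_lit 882) (nat_lit 451),
   .prs (.two (nat_lit 100) (nat_lit 2) (nat_lit 1326) (nat_lit 8) (.two (nat_lit 3) (nat_lit 8) (nat_lit 2825) (nat_lit 2) (.one (nat_lit 1936) (nat_lit 2) .nil))),
   .der (nat_lit 162) (nat_lit 70),
   .prs (.two (nat_lit 2) (nat_lit 4) (nat_lit 352) (nat_lit 1) (.two (nat_lit 1) (nat_lit 8) (nat_lit 2827) (nat_lit 1) (.one (nat_lit 1965) (nat_lit 4) .nil))),
   .der (nat_lit 833) (nat_lit 35),
   .prs (.two (nat_lit 129) (nat_lit 8) (nat_lit 410) (nat_lit 16) (.two (nat_lit 11) (nat_lit 16) (nat_lit 2829) (nat_lit 8) (.two (nat_lit 0) (nat_lit 1) (nat_lit 1878) (nat_lit 8) (.one (nat_lit 1943) (nat_lit 8) .nil)))),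
   .der (nat_lit 354) (nat_lit 98),
   .der (nat_lit 1554) (nat_lit 927),
   .prs (.two (nat_lit 1459) (nat_lit 2) (nat_lit 100) (nat_lit 8) (.two (nat_lit 463) (nat_lit 8) (nat_lit 717) (nat_lit 2) (.two (nat_lit 1) (nat_lit 2) (nat_lit 2831) (nat_lit 8) (.two (nat_lit 0) (nat_lit 16) (nat_lit 2832) (nat_lit 8) .nil)))),
   .der (nat_lit 1554) (nat_lit 87),
   .der (nat_lit 2353) (nat_lit 705),
   .prs (.two (nat_lit 124) (nat_lit 2) (nat_lit 1331) (nat_lit 4) (.two (nat_lit 11) (nat_lit 2) (nat_lit 2834) (nat_lit 4) (.two (nat_lit 0) (nat_lit 2) (nat_lit 2835) (nat_lit 4) (.one (nat_lit 1949) (nat_lit 4) .nil)))),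
   .der (nat_lit 2113) (nat_lit 516),
   .prs (.two (nat_lit 1435) (nat_lit 2) (nat_lit 573) (nat_lit 1) (.two (nat_lit 1) (nat_lit 2) (nat_lit 2837) (nat_lit 1) (.one (nat_lit 1248) (nat_lit 1) .nil))),
   .der (nat_lit 801) (nat_lit 8),
   .der (nat_lit 1890) (nat_lit 106),
   .prs (.two (nat_lit 2) (nat_lit 8) (nat_lit 2839) (nat_lit 16) (.two (nat_lit 1) (nat_lit 8) (nat_lit 2840) (nat_lit 16) (.one (nat_lit 1269) (nat_lit 8) .nil))),
   .der (nat_lit 117) (nat_lit 95),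
   .prs (.two (nat_lit 75) (nat_lit 16) (nat_lit 145) (nat_lit 4) (.two (nat_lit 0) (nat_lit 16) (nat_lit 2842) (nat_lit 1) (.one (nat_lit 1967) (nat_lit 1) .nil))),
   .der (nat_lit 26386) (nat_lit 15),
   .der (nat_lit 852) (nat_lit 13),
   .der (nat_lit 24916) (nat_lit 70),
   .prs (.two (nat_lit 998) (nat_lit 8) (nat_lit 2844) (nat_lit 16) (.two (nat_lit 202) (nat_lit 16) (nat_lit 2845) (nat_lit 8) (.two (nat_lit 1) (nat_lit 16) (nat_lit 2846) (nat_lit 8) (.two (nat_lit 0) (nat_lit 8) (nat_lit 745) (nat_lit 16) (.one (nat_lit 1252) (nat_lit 16) .nil))))),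
   .der (nat_lit 2433) (nat_lit 84),
   .prs (.two (nat_lit 5) (nat_lit 16) (nat_lit 2848) (nat_lit 1) (.one (nat_lit 1969) (nat_lit 1) .nil)),
   .der (nat_lit 145) (nat_lit 110),
   .prs (.two (nat_lit 5) (nat_lit 8) (nat_lit 2242) (nat_lit 1) (.two (nat_lit 1) (nat_lit 16) (nat_lit 2850) (nat_lit 8) (.one (nat_lit 1971) (nat_lit 1) .nil))),
   .der (nat_lit 612) (nat_lit 6),
   .prs (.two (nat_lit 2) (nat_lit 4) (nat_lit 2852) (nat_lit 1) (.two (nat_lit 1) (nat_lit 16) (nat_lit 764) (nat_lit 1) (.one (nat_lit 1973) (nat_lit 1) .nil))),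
   .der (nat_lit 801) (nat_lit 67),
   .prs (.two (nat_lit 556) (nat_lit 16) (nat_lit 147) (nat_lit 2) (.two (nat_lit 1) (nat_lit 2) (nat_lit 2854) (nat_lit 16) (.one (nat_lit 1276) (nat_lit 2) .nil))),
   .der (nat_lit 165) (nat_lit 67),
   .prs (.two (nat_lit 170) (nat_lit 16) (nat_lit 80) (nat_lit 8) (.two (nat_lit 0) (nat_lit 16) (nat_lit 2856) (nat_lit 8) (.one (nat_lit 1277) (nat_lit 8) .nil))),
   .der (nat_lit 34068) (nat_lit 226),
   .prs (.two (nat_lit 9) (nat_lit 1) (nat_lit 132) (nat_lit 8) (.two (nat_lit 3) (nat_lit 1) (nat_lit 80) (nat_lit 8) (.two (nat_lit 0) (nat_lit 1) (nat_lit 2858) (nat_lit 8) (.one (nat_lit 1976) (nat_lit 8) .nil)))),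
   .der (nat_lit 117) (nat_lit 10),
   .der (nat_lit 147) (nat_lit 123),
   .prs (.two (nat_lit 5) (nat_lit 16) (nat_lit 2860) (nat_lit 8) (.two (nat_lit 1) (nat_lit 8) (nat_lit 428) (nat_lit 16) (.two (nat_lit 0) (nat_lit 1) (nat_lit 2861) (nat_lit 8) (.one (nat_lit 1977) (nat_lit 8) .nil)))),
   .der (nat_lit 67) (nat_lit 31),
   .der (nat_lit 10305) (nat_lit 263),
   .prs (.two (nat_lit 463) (nat_lit 16) (nat_lit 30) (nat_lit 8) (.two (nat_lit 1) (nat_lit 16) (nat_lit 2863) (nat_lit 2) (.two (nat_lit 0) (nat_lit 2) (nat_lit 2864) (nat_lit 8) (.one (nat_lit 1287) (nat_lit 2) .nil)))),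
   .der (nat_lit 1810) (nat_lit 29),
   .der (nat_lit 1893) (nat_lit 108),
   .prs (.two (nat_lit 1068) (nat_lit 1) (nat_lit 2866) (nat_lit 2) (.two (nat_lit 0) (nat_lit 1) (nat_lit 2867) (nat_lit 2) (.one (nat_lit 1979) (nat_lit 1) .nil))),
   .der (nat_lit 644) (nat_lit 59),
   .prs (.two (nat_lit 2) (nat_lit 4) (nat_lit 762) (nat_lit 8) (.two (nat_lit 0) (nat_lit 8) (nat_lit 2869) (nat_lit 4) (.one (nat_lit 1981) (nat_lit 4) .nil))),
   .prs (.two (nat_lit 170) (nat_lit 16) (nat_lit 80) (nat_lit 8) (.two (nat_lit 0) (nat_lit 2) (nat_lit 2856) (nat_lit 8) (.one (nat_lit 1289) (nat_lit 8) .nil))),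
   .prs (.two (nat_lit 99) (nat_lit 1) (nat_lit 1091) (nat_lit 16) (.one (nat_lit 1983) (nat_lit 4) .nil)),
   .der (nat_lit 65) (nat_lit 21),
   .der (nat_lit 129) (nat_lit 123),
   .prs (.two (nat_lit 68) (nat_lit 2) (nat_lit 53) (nat_lit 8) (.two (nat_lit 3) (nat_lit 4) (nat_lit 2873) (nat_lit 8) (.two (nat_lit 0) (nat_lit 4) (nat_lit 2874) (nat_lit 2) (.one (nat_lit 1985) (nat_lit 2) .nil)))),
   .der (nat_lit 5971) (nat_lit 21),
   .prs (.two (nat_lit 75) (nat_lit 2) (nat_lit 2876) (nat_lit 16) (.two (nat_lit 0) (nat_lit 1) (nat_lit 767) (nat_lit 2) (.one (nat_lit 1987) (nat_lit 2) .nil))),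
   .prs (.two (nat_lit 329) (nat_lit 16) (nat_lit 543) (nat_lit 2) (.two (nat_lit 1) (nat_lit 2) (nat_lit 1958) (nat_lit 16) (.two (nat_lit 0) (nat_lit 1) (nat_lit 1959) (nat_lit 2) (.one (nat_lit 1990) (nat_lit 2) .nil)))),
   .prs (.two (nat_lit 78) (nat_lit 1) (nat_lit 428) (nat_lit 16) (.two (nat_lit 0) (nat_lit 1) (nat_lit 1941) (nat_lit 2) (.one (nat_lit 1994) (nat_lit 2) .nil))),
   .der (nat_lit 150) (nat_lit 84),
   .prs (.two (nat_lit 99) (nat_lit 1) (nat_lit 410) (nat_lit 16) (.two (nat_lit 0) (nat_lit 1) (nat_lit 2880) (nat_lit 4) (.one (nat_lit 1996) (nat_lit 4) .nil))),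
   .prs (.two (nat_lit 2) (nat_lit 4) (nat_lit 754) (nat_lit 8) (.two (nat_lit 3) (nat_lit 8) (nat_lit 1127) (nat_lit 16) (.one (nat_lit 1998) (nat_lit 16) .nil))),
   .der (nat_lit 36) (nat_lit 236),
   .der (nat_lit 354) (nat_lit 1128),
   .prs (.two (nat_lit 5) (nat_lit 16) (nat_lit 2144) (nat_lit 1) (.two (nat_lit 3) (nat_lit 16) (nat_lit 2883) (nat_lit 1) (.one (nat_lit 2884) (nat_lit 1) .nil))),
   .der (nat_lit 21092) (nat_lit 84),
   .prs (.two (nat_lit 2) (nat_lit 4) (nat_lit 370) (nat_lit 1) (.two (nat_lit 1) (nat_lit 8) (nat_lit 38) (nat_lit 1) (.two (nat_lit 0) (nat_lit 4) (nat_lit 2886) (nat_lit 8) (.one (nat_lit 2000) (nat_lit 8) .nil)))),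
   .der (nat_lit 2593) (nat_lit 84),
   .prs (.two (nat_lit 2) (nat_lit 4) (nat_lit 444) (nat_lit 1) (.two (nat_lit 0) (nat_lit 16) (nat_lit 2888) (nat_lit 4) (.one (nat_lit 2002) (nat_lit 4) .nil))),
   .der (nat_lit 135) (nat_lit 84),
   .der (nat_lit 2323) (nat_lit 2002),
   .prs (.two (nat_lit 75) (nat_lit 4) (nat_lit 858) (nat_lit 16) (.two (nat_lit 0) (nat_lit 16) (nat_lit 2890) (nat_lit 4) (.one (nat_lit 2891) (nat_lit 4) .nil))),
   .der (nat_lit 100) (nat_lit 39),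
   .der (nat_lit 2433) (nat_lit 743),
   .prs (.two (nat_lit 9) (nat_lit 1) (nat_lit 2893) (nat_lit 2) (.one (nat_lit 2894) (nat_lit 2) .nil)),
   .der (nat_lit 2084) (nat_lit 305),
   .prs (.two (nat_lit 439) (nat_lit 2) (nat_lit 114) (nat_lit 16) (.two (nat_lit 1) (nat_lit 2) (nat_lit 2896) (nat_lit 16) (.one (nat_lit 2006) (nat_lit 2) .nil))),
   .der (nat_lit 2) (nat_lit 131),
   .der (nat_lit 1395) (nat_lit 1544),
   .prs (.two (nat_lit 1126) (nat_lit 16) (nat_lit 83) (nat_lit 1) (.two (nat_lit 3) (nat_lit 1) (nat_lit 2898) (nat_lit 16) (.two (nat_lit 0) (nat_lit 1) (nat_lit 1296) (nat_lit 16) (.one (nat_lit 2899) (nat_lit 1) .nil)))),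
   .der (nat_lit 2113) (nat_lit 288),
   .der (nat_lit 1395) (nat_lit 467),
   .der (nat_lit 6) (nat_lit 982),
   .prs (.two (nat_lit 12) (nat_lit 8) (nat_lit 42) (nat_lit 4) (.two (nat_lit 5) (nat_lit 8) (nat_lit 19) (nat_lit 4) (.two (nat_lit 3) (nat_lit 4) (nat_lit 2901) (nat_lit 8) (.two (nat_lit 0) (nat_lit 8) (nat_lit 2902) (nat_lit 4) (.one (nat_lit 2903) (nat_lit 8) .nil))))),
   .der (nat_lit 101) (nat_lit 10),
   .der (nat_lit 2353) (nat_lit 73),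
   .der (nat_lit 1430) (nat_lit 504),
   .prs (.two (nat_lit 174) (nat_lit 4) (nat_lit 2905) (nat_lit 2) (.two (nat_lit 75) (nat_lit 2) (nat_lit 2906) (nat_lit 4) (.two (nat_lit 0) (nat_lit 1) (nat_lit 2907) (nat_lit 4) (.one (nat_lit 2011) (nat_lit 2) .nil)))),
   .der (nat_lit 38163) (nat_lit 551),
   .der (nat_lit 19) (nat_lit 927),
   .prs (.two (nat_lit 791) (nat_lit 2) (nat_lit 1331) (nat_lit 4) (.two (nat_lit 1) (nat_lit 2) (nat_lit 2834) (nat_lit 4) (.two (nat_lit 0) (nat_lit 2) (nat_lit 2909) (nat_lit 4) (.one (nat_lit 2910) (nat_lit 4) .nil)))),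
   .der (nat_lit 1653) (nat_lit 1454),
   .prs (.two (nat_lit 91) (nat_lit 16) (nat_lit 582) (nat_lit 4) (.two (nat_lit 3) (nat_lit 4) (nat_lit 833) (nat_lit 16) (.one (nat_lit 2912) (nat_lit 16) .nil))),
   .der (nat_lit 2578) (nat_lit 84),
   .prs (.two (nat_lit 5) (nat_lit 1) (nat_lit 12) (nat_lit 8) (.two (nat_lit 3) (nat_lit 8) (nat_lit 83) (nat_lit 1) (.two (nat_lit 0) (nat_lit 1) (nat_lit 2914) (nat_lit 8) (.one (nat_lit 2013) (nat_lit 8) .nil)))),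
   .der (nat_lit 1554) (nat_lit 84),
   .prs (.two (nat_lit 68) (nat_lit 2) (nat_lit 1200) (nat_lit 1) (.two (nat_lit 0) (nat_lit 1) (nat_lit 2916) (nat_lit 2) (.one (nat_lit 2015) (nat_lit 2) .nil))),
   .der (nat_lit 152) (nat_lit 54),
   .der (nat_lit 1653) (nat_lit 106),
   .prs (.two (nat_lit 740) (nat_lit 1) (nat_lit 2918) (nat_lit 2) (.two (nat_lit 0) (nat_lit 1) (nat_lit 2919) (nat_lit 2) (.one (nat_lit 1298) (nat_lit 1) .nil))),
   .der (nat_lit 1395) (nat_lit 283),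
   .prs (.two (nat_lit 5) (nat_lit 8) (nat_lit 741) (nat_lit 1) (.two (nat_lit 1) (nat_lit 4) (nat_lit 2921) (nat_lit 1) (.one (nat_lit 2017) (nat_lit 4) .nil))),
   .der (nat_lit 1415) (nat_lit 77),
   .der (nat_lit 3) (nat_lit 453),
   .der (nat_lit 3) (nat_lit 1454),
   .prs (.two (nat_lit 36) (nat_lit 2) (nat_lit 2852) (nat_lit 1) (.two (nat_lit 99) (nat_lit 2) (nat_lit 2923) (nat_lit 16) (.two (nat_lit 0) (nat_lit 16) (nat_lit 2924) (nat_lit 1) (.one (nat_lit 2925) (nat_lit 1) .nil)))),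
   .der (nat_lit 36) (nat_lit 547),
   .prs (.two (nat_lit 111) (nat_lit 1) (nat_lit 1095) (nat_lit 2) (.two (nat_lit 46) (nat_lit 1) (nat_lit 2927) (nat_lit 8) (.one (nat_lit 2028) (nat_lit 8) .nil))),
   .der (nat_lit 1300) (nat_lit 76),
   .der (nat_lit 87) (nat_lit 401),
   .prs (.two (nat_lit 758) (nat_lit 4) (nat_lit 616) (nat_lit 1) (.two (nat_lit 11) (nat_lit 1) (nat_lit 2929) (nat_lit 4) (.two (nat_lit 0) (nat_lit 1) (nat_lit 2930) (nat_lit 4) (.one (nat_lit 2032) (nat_lit 4) .nil)))),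
   .der (nat_lit 882) (nat_lit 24),
   .der (nat_lit 152) (nat_lit 118),
   .der (nat_lit 2084) (nat_lit 592),
   .prs (.two (nat_lit 427) (nat_lit 2) (nat_lit 2932) (nat_lit 8) (.two (nat_lit 1) (nat_lit 2) (nat_lit 2933) (nat_lit 8) (.two (nat_lit 0) (nat_lit 1) (nat_lit 2934) (nat_lit 8) (.one (nat_lit 2033) (nat_lit 1) .nil)))),
   .der (nat_lit 129) (nat_lit 545),
   .der (nat_lit 2390) (nat_lit 1889),
   .prs (.two (nat_lit 956) (nat_lit 16) (nat_lit 2029) (nat_lit 4) (.two (nat_lit 16) (nat_lit 4) (nat_lit 2936) (nat_lit 16) (.one (nat_lit 2937) (nat_lit 16) .nil))),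
   .der (nat_lit 1890) (nat_lit 187),
   .prs (.two (nat_lit 129) (nat_lit 8) (nat_lit 490) (nat_lit 2) (.two (nat_lit 1) (nat_lit 8) (nat_lit 2653) (nat_lit 2) (.two (nat_lit 0) (nat_lit 1) (nat_lit 2939) (nat_lit 2) (.one (nat_lit 2036) (nat_lit 2) .nil)))),
   .der (nat_lit 35) (nat_lit 236),
   .der (nat_lit 29011) (nat_lit 672),
   .der (nat_lit 20) (nat_lit 1907),
   .prs (.two (nat_lit 370) (nat_lit 4) (nat_lit 522) (nat_lit 1) (.two (nat_lit 3) (nat_lit 1) (nat_lit 2941) (nat_lit 4) (.two (nat_lit 0) (nat_lit 1) (nat_lit 2942) (nat_lit 2) (.one (nat_lit 2943) (nat_lit 4) .nil)))),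
   .der (nat_lit 21107) (nat_lit 269),
   .prs (.two (nat_lit 202) (nat_lit 4) (nat_lit 2019) (nat_lit 8) (.two (nat_lit 1) (nat_lit 4) (nat_lit 2945) (nat_lit 8) (.one (nat_lit 2049) (nat_lit 8) .nil))),
   .der (nat_lit 1811) (nat_lit 149),
   .der (nat_lit 100) (nat_lit 455),
   .der (nat_lit 115) (nat_lit 1788),
   .prs (.two (nat_lit 91) (nat_lit 4) (nat_lit 1019) (nat_lit 2) (.two (nat_lit 170) (nat_lit 4) (nat_lit 573) (nat_lit 2) (.two (nat_lit 3) (nat_lit 16) (nat_lit 2947) (nat_lit 4) (.two (nat_lit 0) (nat_lit 16) (nat_lit 2948) (nat_lit 4) (.one (nat_lit 2949) (nat_lit 2) .nil))))),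
   .der (nat_lit 2193) (nat_lit 15),
   .der (nat_lit 1653) (nat_lit 19),
   .der (nat_lit 833) (nat_lit 104),
   .der (nat_lit 20) (nat_lit 1045),
   .prs (.two (nat_lit 6) (nat_lit 8) (nat_lit 2951) (nat_lit 2) (.two (nat_lit 1161) (nat_lit 2) (nat_lit 2952) (nat_lit 8) (.two (nat_lit 1) (nat_lit 2) (nat_lit 2953) (nat_lit 8) (.two (nat_lit 0) (nat_lit 2) (nat_lit 1310) (nat_lit 8) (.one (nat_lit 2954) (nat_lit 2) .nil))))),
   .der (nat_lit 1890) (nat_lit 10),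
   .der (nat_lit 114) (nat_lit 572),
   .prs (.two (nat_lit 6) (nat_lit 8) (nat_lit 2956) (nat_lit 2) (.two (nat_lit 361) (nat_lit 2) (nat_lit 13) (nat_lit 8) (.two (nat_lit 1) (nat_lit 2) (nat_lit 1846) (nat_lit 8) (.two (nat_lit 0) (nat_lit 16) (nat_lit 2957) (nat_lit 2) (.one (nat_lit 1312) (nat_lit 2) .nil))))),
   .der (nat_lit 33) (nat_lit 39),
   .der (nat_lit 18) (nat_lit 521),
   .der (nat_lit 10) (nat_lit 1033),
   .prs (.two (nat_lit 6) (nat_lit 8) (nat_lit 625) (nat_lit 2) (.two (nat_lit 361) (nat_lit 2) (nat_lit 13) (nat_lit 8) (.two (nat_lit 1) (nat_lit 2) (nat_lit 2959) (nat_lit 8) (.two (nat_lit 0) (nat_lit 8) (nat_lit 2960) (nat_lit 2) (.one (nat_lit 2961) (nat_lit 8) .nil))))),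
   .der (nat_lit 100) (nat_lit 131),
   .der (nat_lit 1107) (nat_lit 1153),
   .prs (.two (nat_lit 91) (nat_lit 4) (nat_lit 83) (nat_lit 1) (.two (nat_lit 11) (nat_lit 8) (nat_lit 2963) (nat_lit 1) (.two (nat_lit 0) (nat_lit 8) (nat_lit 2964) (nat_lit 1) (.one (nat_lit 2042) (nat_lit 4) .nil)))),
   .der (nat_lit 103) (nat_lit 275),
   .prs (.two (nat_lit 2) (nat_lit 8) (nat_lit 968) (nat_lit 4) (.two (nat_lit 0) (nat_lit 1) (nat_lit 2966) (nat_lit 8) (.one (nat_lit 2051) (nat_lit 8) .nil))),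
   .der (nat_lit 2135) (nat_lit 467),
   .prs (.two (nat_lit 791) (nat_lit 2) (nat_lit 449) (nat_lit 8) (.two (nat_lit 1) (nat_lit 2) (nat_lit 2694) (nat_lit 8) (.two (nat_lit 0) (nat_lit 2) (nat_lit 2968) (nat_lit 8) (.one (nat_lit 2045) (nat_lit 8) .nil)))),
   .der (nat_lit 21107) (nat_lit 48),
   .der (nat_lit 10) (nat_lit 199),
   .prs (.two (nat_lit 791) (nat_lit 2) (nat_lit 1435) (nat_lit 8) (.two (nat_lit 493) (nat_lit 2) (nat_lit 2970) (nat_lit 8) (.two (nat_lit 1) (nat_lit 2) (nat_lit 2971) (nat_lit 8) (.one (nat_lit 2047) (nat_lit 8) .nil)))),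
   .der (nat_lit 10) (nat_lit 1004),
   .prs (.two (nat_lit 2) (nat_lit 16) (nat_lit 1095) (nat_lit 4) (.two (nat_lit 0) (nat_lit 1) (nat_lit 2973) (nat_lit 4) .nil)),
   .der (nat_lit 66) (nat_lit 773),
   .prs (.two (nat_lit 2) (nat_lit 8) (nat_lit 1326) (nat_lit 1) (.two (nat_lit 0) (nat_lit 8) (nat_lit 2975) (nat_lit 1) .nil)),
   .der (nat_lit 370) (nat_lit 84),
   .der (nat_lit 100) (nat_lit 2015),
   .prs (.two (nat_lit 2) (nat_lit 8) (nat_lit 2845) (nat_lit 2) (.two (nat_lit 0) (nat_lit 8) (nat_lit 2977) (nat_lit 16) (.one (nat_lit 2978) (nat_lit 16) .nil))),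
   .der (nat_lit 137) (nat_lit 19),
   .der (nat_lit 2339) (nat_lit 653),
   .prs (.two (nat_lit 2) (nat_lit 16) (nat_lit 2956) (nat_lit 2) (.two (nat_lit 11) (nat_lit 2) (nat_lit 2980) (nat_lit 16) (.two (nat_lit 0) (nat_lit 16) (nat_lit 2981) (nat_lit 2) (.one (nat_lit 1314) (nat_lit 16) .nil)))),
   .prs (.two (nat_lit 384) (nat_lit 1) (nat_lit 2852) (nat_lit 2) (.two (nat_lit 16) (nat_lit 4) (nat_lit 2715) (nat_lit 1) (.one (nat_lit 2052) (nat_lit 1) .nil))),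
   .der (nat_lit 5218) (nat_lit 1213),
   .prs (.two (nat_lit 7) (nat_lit 8) (nat_lit 616) (nat_lit 1) (.two (nat_lit 0) (nat_lit 1) (nat_lit 2056) (nat_lit 8) (.one (nat_lit 2984) (nat_lit 8) .nil))),
   .der (nat_lit 145) (nat_lit 84),
   .prs (.two (nat_lit 4) (nat_lit 2) (nat_lit 65) (nat_lit 16) (.two (nat_lit 11) (nat_lit 2) (nat_lit 2986) (nat_lit 1) (.one (nat_lit 2054) (nat_lit 1) .nil))),
   .der (nat_lit 371) (nat_lit 67),
   .der (nat_lit 1811) (nat_lit 495),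
   .prs (.two (nat_lit 170) (nat_lit 2) (nat_lit 1393) (nat_lit 1) (.two (nat_lit 0) (nat_lit 2) (nat_lit 2988) (nat_lit 1) (.one (nat_lit 2989) (nat_lit 1) .nil))),
   .der (nat_lit 165) (nat_lit 21),
   .der (nat_lit 3) (nat_lit 208),
   .prs (.two (nat_lit 482) (nat_lit 8) (nat_lit 2991) (nat_lit 2) (.two (nat_lit 0) (nat_lit 16) (nat_lit 2992) (nat_lit 2) (.one (nat_lit 1316) (nat_lit 2) .nil))),
   .der (nat_lit 340) (nat_lit 95),
   .prs (.two (nat_lit 341) (nat_lit 1) (nat_lit 1095) (nat_lit 4) (.two (nat_lit 0) (nat_lit 1) (nat_lit 2994) (nat_lit 16) (.one (nat_lit 2057) (nat_lit 1) .nil))),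
   .der (nat_lit 356) (nat_lit 41),
   .der (nat_lit 10305) (nat_lit 288),
   .prs (.two (nat_lit 1161) (nat_lit 2) (nat_lit 2996) (nat_lit 16) (.two (nat_lit 0) (nat_lit 2) (nat_lit 2997) (nat_lit 16) (.one (nat_lit 2060) (nat_lit 16) .nil))),
   .prs (.two (nat_lit 556) (nat_lit 16) (nat_lit 1095) (nat_lit 4) (.two (nat_lit 0) (nat_lit 2) (nat_lit 1629) (nat_lit 16) (.one (nat_lit 2062) (nat_lit 4) .nil)))]

theorem b5_step5 (h : ∀ j < 2500, Good b5T j) : ∀ j < 3000, Good b5T j := by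
  intro j hj
  refine chkL_ok b5C5 2500 h (by decide +kernel) j ?_
  have h : b5C5.length = 500 := by decide +kernel
  omega

/-- certificates 3000..3500 -/
def b5C6 : List Cf :=
  [.der (nat_lit 6) (nat_lit 110),
   .der (nat_lit 117) (nat_lit 1217),
   .prs (.two (nat_lit 439) (nat_lit 4) (nat_lit 3000) (nat_lit 2) (.one (nat_lit 3001) (nat_lit 2) .nil)),
   .prs (.two (nat_lit 5) (nat_lit 8) (nat_lit 273) (nat_lit 1) (.two (nat_lit 0) (nat_lit 8) (nat_lit 1912) (nat_lit 1) (.one (nat_lit 348) (nat_lit 1) .nil))),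
   .der (nat_lit 1057) (nat_lit 39),
   .der (nat_lit 659) (nat_lit 524),
   .der (nat_lit 1074) (nat_lit 425),
   .der (nat_lit 852) (nat_lit 1406),
   .prs (.two (nat_lit 129) (nat_lit 4) (nat_lit 1326) (nat_lit 1) (.two (nat_lit 556) (nat_lit 4) (nat_lit 3004) (nat_lit 1) (.two (nat_lit 1) (nat_lit 2) (nat_lit 3005) (nat_lit 1) (.two (nat_lit 0) (nat_lit 2) (nat_lit 3006) (nat_lit 4) (.one (nat_lit 3007) (nat_lit 2) .nil))))),
   .der (nat_lit 147) (nat_lit 82),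
   .der (nat_lit 1395) (nat_lit 930),
   .prs (.two (nat_lit 370) (nat_lit 4) (nat_lit 97) (nat_lit 16) (.two (nat_lit 11) (nat_lit 16) (nat_lit 2525) (nat_lit 4) (.two (nat_lit 0) (nat_lit 16) (nat_lit 3009) (nat_lit 4) (.one (nat_lit 3010) (nat_lit 4) .nil)))),
   .der (nat_lit 1057) (nat_lit 76),
   .prs (.two (nat_lit 1459) (nat_lit 2) (nat_lit 1236) (nat_lit 8) (.two (nat_lit 1) (nat_lit 2) (nat_lit 3012) (nat_lit 8) (.two (nat_lit 0) (nat_lit 8) (nat_lit 2071) (nat_lit 2) (.one (nat_lit 2076) (nat_lit 2) .nil)))),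
   .der (nat_lit 354) (nat_lit 43),
   .der (nat_lit 114) (nat_lit 232),
   .der (nat_lit 370) (nat_lit 182),
   .prs (.two (nat_lit 42) (nat_lit 4) (nat_lit 758) (nat_lit 1) (.two (nat_lit 170) (nat_lit 4) (nat_lit 3014) (nat_lit 1) (.two (nat_lit 1) (nat_lit 4) (nat_lit 3015) (nat_lit 1) (.two (nat_lit 0) (nat_lit 4) (nat_lit 3016) (nat_lit 1) (.one (nat_lit 2087) (nat_lit 1) .nil))))),
   .der (nat_lit 2353) (nat_lit 37),
   .der (nat_lit 2433) (nat_lit 429),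
   .prs (.two (nat_lit 397) (nat_lit 4) (nat_lit 1259) (nat_lit 8) (.two (nat_lit 206) (nat_lit 8) (nat_lit 3018) (nat_lit 4) (.two (nat_lit 0) (nat_lit 8) (nat_lit 3019) (nat_lit 4) (.one (nat_lit 2089) (nat_lit 8) .nil)))),
   .der (nat_lit 66) (nat_lit 27),
   .der (nat_lit 147) (nat_lit 255),
   .der (nat_lit 132) (nat_lit 467),
   .der (nat_lit 1810) (nat_lit 1094),
   .prs (.two (nat_lit 489) (nat_lit 16) (nat_lit 537) (nat_lit 1) (.two (nat_lit 17) (nat_lit 16) (nat_lit 3021) (nat_lit 1) (.two (nat_lit 16) (nat_lit 1) (nat_lit 3022) (nat_lit 16) (.two (nat_lit 0) (nat_lit 16) (nat_lit 3023) (nat_lit 1) (.one (nat_lit 3024) (nat_lit 16) .nil))))),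
   .der (nat_lit 801) (nat_lit 802),
   .der (nat_lit 8) (nat_lit 2078),
   .prs (.two (nat_lit 5) (nat_lit 8) (nat_lit 522) (nat_lit 4) (.two (nat_lit 0) (nat_lit 2) (nat_lit 3026) (nat_lit 8) (.one (nat_lit 3027) (nat_lit 8) .nil))),
   .der (nat_lit 117) (nat_lit 35),
   .der (nat_lit 340) (nat_lit 187),
   .prs (.two (nat_lit 147) (nat_lit 2) (nat_lit 509) (nat_lit 4) (.two (nat_lit 1) (nat_lit 4) (nat_lit 3029) (nat_lit 2) (.two (nat_lit 0) (nat_lit 4) (nat_lit 3030) (nat_lit 2) (.one (nat_lit 2094) (nat_lit 2) .nil)))),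
   .der (nat_lit 36) (nat_lit 151),
   .der (nat_lit 52) (nat_lit 67),
   .der (nat_lit 165) (nat_lit 1120),
   .prs (.two (nat_lit 556) (nat_lit 8) (nat_lit 389) (nat_lit 16) (.two (nat_lit 1) (nat_lit 8) (nat_lit 3032) (nat_lit 16) (.two (nat_lit 0) (nat_lit 4) (nat_lit 3033) (nat_lit 8) (.one (nat_lit 3034) (nat_lit 8) .nil)))),
   .prs (.two (nat_lit 2) (nat_lit 8) (nat_lit 53) (nat_lit 2) (.two (nat_lit 1) (nat_lit 2) (nat_lit 13) (nat_lit 8) (.two (nat_lit 0) (nat_lit 16) (nat_lit 2579) (nat_lit 2) (.one (nat_lit 2096) (nat_lit 2) .nil)))),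
   .der (nat_lit 114) (nat_lit 24),
   .der (nat_lit 132) (nat_lit 208),
   .prs (.two (nat_lit 556) (nat_lit 16) (nat_lit 3037) (nat_lit 2) (.two (nat_lit 0) (nat_lit 1) (nat_lit 3038) (nat_lit 2) (.one (nat_lit 1340) (nat_lit 2) .nil))),
   .der (nat_lit 103) (nat_lit 10),
   .der (nat_lit 137) (nat_lit 128),
   .der (nat_lit 162) (nat_lit 2097),
   .prs (.two (nat_lit 427) (nat_lit 4) (nat_lit 3040) (nat_lit 2) (.two (nat_lit 4) (nat_lit 2) (nat_lit 2107) (nat_lit 4) (.two (nat_lit 11) (nat_lit 1) (nat_lit 3041) (nat_lit 4) (.two (nat_lit 0) (nat_lit 2) (nat_lit 1345) (nat_lit 1) (.one (nat_lit 3042) (nat_lit 2) .nil))))),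
   .der (nat_lit 4978) (nat_lit 19),
   .der (nat_lit 34068) (nat_lit 104),
   .der (nat_lit 114) (nat_lit 1088),
   .prs (.two (nat_lit 1459) (nat_lit 2) (nat_lit 998) (nat_lit 1) (.two (nat_lit 361) (nat_lit 2) (nat_lit 3044) (nat_lit 1) (.two (nat_lit 11) (nat_lit 2) (nat_lit 3045) (nat_lit 1) (.two (nat_lit 0) (nat_lit 16) (nat_lit 3046) (nat_lit 2) .nil)))),
   .prs (.two (nat_lit 4) (nat_lit 16) (nat_lit 1341) (nat_lit 8) (.two (nat_lit 1) (nat_lit 8) (nat_lit 2281) (nat_lit 16) (.one (nat_lit 2104) (nat_lit 16) .nil))),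
   .der (nat_lit 17185) (nat_lit 10),
   .der (nat_lit 659) (nat_lit 351),
   .prs (.two (nat_lit 2) (nat_lit 4) (nat_lit 3049) (nat_lit 16) (.two (nat_lit 1) (nat_lit 4) (nat_lit 2776) (nat_lit 2) (.two (nat_lit 0) (nat_lit 4) (nat_lit 3050) (nat_lit 16) (.one (nat_lit 2106) (nat_lit 2) .nil)))),
   .prs (.two (nat_lit 4) (nat_lit 2) (nat_lit 650) (nat_lit 4) (.two (nat_lit 0) (nat_lit 2) (nat_lit 2103) (nat_lit 1) (.one (nat_lit 2109) (nat_lit 1) .nil))),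
   .der (nat_lit 1073) (nat_lit 27),
   .der (nat_lit 2084) (nat_lit 64),
   .der (nat_lit 118) (nat_lit 790),
   .prs (.two (nat_lit 44) (nat_lit 1) (nat_lit 3053) (nat_lit 4) (.two (nat_lit 3) (nat_lit 1) (nat_lit 3054) (nat_lit 4) (.two (nat_lit 0) (nat_lit 1) (nat_lit 3055) (nat_lit 4) (.one (nat_lit 2114) (nat_lit 4) .nil)))),
   .der (nat_lit 17185) (nat_lit 110),
   .der (nat_lit 6) (nat_lit 521),
   .der (nat_lit 1430) (nat_lit 1052),
   .prs (.two (nat_lit 12) (nat_lit 8) (nat_lit 882) (nat_lit 4) (.two (nat_lit 2) (nat_lit 4) (nat_lit 32) (nat_lit 8) (.two (nat_lit 1) (nat_lit 4) (nat_lit 3057) (nat_lit 8) (.two (nat_lit 0) (nat_lit 8) (nat_lit 3058) (nat_lit 4) (.one (nat_lit 3059) (nat_lit 8) .nil))))),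
   .der (nat_lit 37425) (nat_lit 108),
   .prs (.two (nat_lit 397) (nat_lit 4) (nat_lit 410) (nat_lit 1) (.two (nat_lit 68) (nat_lit 1) (nat_lit 3061) (nat_lit 4) (.two (nat_lit 11) (nat_lit 1) (nat_lit 1351) (nat_lit 4) (.two (nat_lit 0) (nat_lit 1) (nat_lit 1350) (nat_lit 4) (.one (nat_lit 2120) (nat_lit 1) .nil))))),
   .der (nat_lit 129) (nat_lit 48),
   .prs (.two (nat_lit 2) (nat_lit 8) (nat_lit 1006) (nat_lit 4) (.two (nat_lit 1) (nat_lit 8) (nat_lit 3063) (nat_lit 2) (.two (nat_lit 0) (nat_lit 2) (nat_lit 721) (nat_lit 4) (.one (nat_lit 1354) (nat_lit 4) .nil)))),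
   .der (nat_lit 10305) (nat_lit 226),
   .der (nat_lit 356) (nat_lit 172),
   .prs (.two (nat_lit 1435) (nat_lit 4) (nat_lit 490) (nat_lit 8) (.two (nat_lit 1) (nat_lit 8) (nat_lit 3065) (nat_lit 4) (.two (nat_lit 0) (nat_lit 4) (nat_lit 3066) (nat_lit 1) (.one (nat_lit 2122) (nat_lit 1) .nil)))),
   .der (nat_lit 86) (nat_lit 35),
   .prs (.two (nat_lit 65) (nat_lit 16) (nat_lit 462) (nat_lit 8) (.two (nat_lit 1) (nat_lit 8) (nat_lit 3068) (nat_lit 16) (.two (nat_lit 0) (nat_lit 8) (nat_lit 2766) (nat_lit 16) (.one (nat_lit 2124) (nat_lit 8) .nil)))),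
   .der (nat_lit 7) (nat_lit 151),
   .der (nat_lit 10545) (nat_lit 802),
   .prs (.two (nat_lit 34) (nat_lit 2) (nat_lit 1081) (nat_lit 8) (.two (nat_lit 0) (nat_lit 2) (nat_lit 3070) (nat_lit 4) (.one (nat_lit 3071) (nat_lit 4) .nil))),
   .der (nat_lit 3) (nat_lit 76),
   .prs (.two (nat_lit 4) (nat_lit 2) (nat_lit 3073) (nat_lit 16) .nil),
   .der (nat_lit 165) (nat_lit 39),
   .der (nat_lit 1073) (nat_lit 948),
   .prs (.two (nat_lit 6) (nat_lit 4) (nat_lit 3075) (nat_lit 8) (.two (nat_lit 0) (nat_lit 4) (nat_lit 3076) (nat_lit 1) .nil)),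
   .der (nat_lit 50) (nat_lit 8),
   .der (nat_lit 1122) (nat_lit 177),
   .prs (.two (nat_lit 3078) (nat_lit 16) (nat_lit 1519) (nat_lit 1) (.two (nat_lit 740) (nat_lit 1) (nat_lit 2166) (nat_lit 16) (.two (nat_lit 0) (nat_lit 1) (nat_lit 3079) (nat_lit 16) (.one (nat_lit 2150) (nat_lit 1) .nil)))),
   .der (nat_lit 33345) (nat_lit 4),
   .der (nat_lit 19) (nat_lit 618),
   .prs (.two (nat_lit 3081) (nat_lit 16) (nat_lit 3075) (nat_lit 8) (.one (nat_lit 3082) (nat_lit 8) .nil)),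
   .der (nat_lit 1554) (nat_lit 76),
   .der (nat_lit 22803) (nat_lit 508),
   .prs (.two (nat_lit 427) (nat_lit 2) (nat_lit 91) (nat_lit 4) (.two (nat_lit 4) (nat_lit 2) (nat_lit 554) (nat_lit 4) (.two (nat_lit 1) (nat_lit 2) (nat_lit 3084) (nat_lit 1) (.two (nat_lit 0) (nat_lit 1) (nat_lit 3085) (nat_lit 2) (.one (nat_lit 2156) (nat_lit 1) .nil))))),
   .der (nat_lit 100) (nat_lit 98),
   .der (nat_lit 370) (nat_lit 897),
   .prs (.two (nat_lit 227) (nat_lit 2) (nat_lit 69) (nat_lit 16) (.two (nat_lit 1) (nat_lit 2) (nat_lit 3087) (nat_lit 4) (.two (nat_lit 0) (nat_lit 4) (nat_lit 1362) (nat_lit 2) (.one (nat_lit 3088) (nat_lit 4) .nil)))),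
   .der (nat_lit 150) (nat_lit 446),
   .prs (.two (nat_lit 7) (nat_lit 1) (nat_lit 1748) (nat_lit 16) (.one (nat_lit 3090) (nat_lit 16) .nil)),
   .der (nat_lit 2) (nat_lit 106),
   .prs (.two (nat_lit 68) (nat_lit 16) (nat_lit 1180) (nat_lit 2) (.two (nat_lit 1) (nat_lit 2) (nat_lit 1360) (nat_lit 16) (.two (nat_lit 0) (nat_lit 1) (nat_lit 3092) (nat_lit 2) (.one (nat_lit 2163) (nat_lit 2) .nil)))),
   .der (nat_lit 17185) (nat_lit 527),
   .der (nat_lit 2390) (nat_lit 1581),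
   .prs (.two (nat_lit 456) (nat_lit 4) (nat_lit 2333) (nat_lit 16) (.two (nat_lit 1) (nat_lit 4) (nat_lit 3094) (nat_lit 2) (.one (nat_lit 3095) (nat_lit 2) .nil))),
   .der (nat_lit 5) (nat_lit 35),
   .prs (.two (nat_lit 68) (nat_lit 16) (nat_lit 1854) (nat_lit 1) (.two (nat_lit 16) (nat_lit 1) (nat_lit 3097) (nat_lit 16) (.one (nat_lit 1371) (nat_lit 16) .nil))),
   .der (nat_lit 834) (nat_lit 2002),
   .prs (.two (nat_lit 75) (nat_lit 2) (nat_lit 1796) (nat_lit 4) (.one (nat_lit 3099) (nat_lit 1) .nil)),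
   .der (nat_lit 86) (nat_lit 76),
   .prs (.two (nat_lit 740) (nat_lit 16) (nat_lit 3101) (nat_lit 4) (.one (nat_lit 2165) (nat_lit 4) .nil)),
   .der (nat_lit 137) (nat_lit 268),
   .prs (.two (nat_lit 384) (nat_lit 8) (nat_lit 1854) (nat_lit 1) (.two (nat_lit 0) (nat_lit 8) (nat_lit 3103) (nat_lit 1) .nil)),
   .der (nat_lit 20) (nat_lit 113),
   .prs (.two (nat_lit 2) (nat_lit 4) (nat_lit 623) (nat_lit 16) (.two (nat_lit 1) (nat_lit 16) (nat_lit 3105) (nat_lit 4) .nil)),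
   .der (nat_lit 19) (nat_lit 421),
   .der (nat_lit 6) (nat_lit 1392),
   .prs (.two (nat_lit 13) (nat_lit 8) (nat_lit 822) (nat_lit 1) (.two (nat_lit 2) (nat_lit 4) (nat_lit 2595) (nat_lit 1) (.two (nat_lit 1) (nat_lit 2) (nat_lit 3107) (nat_lit 4) (.two (nat_lit 0) (nat_lit 2) (nat_lit 3108) (nat_lit 4) (.one (nat_lit 2183) (nat_lit 2) .nil))))),
   .der (nat_lit 1299) (nat_lit 864),
   .der (nat_lit 801) (nat_lit 2180),
   .prs (.two (nat_lit 676) (nat_lit 4) (nat_lit 825) (nat_lit 1) (.two (nat_lit 427) (nat_lit 2) (nat_lit 423) (nat_lit 4) (.two (nat_lit 170) (nat_lit 2) (nat_lit 2204) (nat_lit 4) (.two (nat_lit 1) (nat_lit 2) (nat_lit 3110) (nat_lit 4) (.one (nat_lit 3111) (nat_lit 1) .nil))))),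
   .der (nat_lit 1073) (nat_lit 35),
   .der (nat_lit 339) (nat_lit 417),
   .der (nat_lit 19) (nat_lit 861),
   .prs (.two (nat_lit 69) (nat_lit 8) (nat_lit 3113) (nat_lit 1) (.two (nat_lit 34) (nat_lit 2) (nat_lit 82) (nat_lit 8) (.two (nat_lit 3) (nat_lit 1) (nat_lit 3114) (nat_lit 2) (.two (nat_lit 0) (nat_lit 1) (nat_lit 3115) (nat_lit 2) (.one (nat_lit 2214) (nat_lit 2) .nil))))),
   .der (nat_lit 339) (nat_lit 70),
   .prs (.two (nat_lit 167) (nat_lit 16) (nat_lit 1393) (nat_lit 1) (.two (nat_lit 581) (nat_lit 1) (nat_lit 3117) (nat_lit 16) (.two (nat_lit 16) (nat_lit 1) (nat_lit 3115) (nat_lit 16) .nil))),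
   .der (nat_lit 1300) (nat_lit 169),
   .prs (.two (nat_lit 543) (nat_lit 4) (nat_lit 1480) (nat_lit 2) (.two (nat_lit 206) (nat_lit 2) (nat_lit 3119) (nat_lit 4) (.two (nat_lit 0) (nat_lit 2) (nat_lit 907) (nat_lit 4) (.one (nat_lit 2191) (nat_lit 4) .nil)))),
   .der (nat_lit 882) (nat_lit 2186),
   .prs (.two (nat_lit 69) (nat_lit 8) (nat_lit 71) (nat_lit 1) (.two (nat_lit 65) (nat_lit 2) (nat_lit 33) (nat_lit 8) (.two (nat_lit 34) (nat_lit 2) (nat_lit 82) (nat_lit 8) (.two (nat_lit 3) (nat_lit 1) (nat_lit 3114) (nat_lit 2) (.two (nat_lit 0) (nat_lit 1) (nat_lit 3115) (nat_lit 2) (.one (nat_lit 3121) (nat_lit 8) .nil)))))),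
   .der (nat_lit 577) (nat_lit 59),
   .prs (.two (nat_lit 129) (nat_lit 8) (nat_lit 522) (nat_lit 1) (.two (nat_lit 710) (nat_lit 8) (nat_lit 3123) (nat_lit 1) (.two (nat_lit 1) (nat_lit 2) (nat_lit 909) (nat_lit 1) (.two (nat_lit 0) (nat_lit 2) (nat_lit 911) (nat_lit 8) (.one (nat_lit 1450) (nat_lit 2) .nil))))),
   .der (nat_lit 165) (nat_lit 897),
   .prs (.two (nat_lit 12) (nat_lit 1) (nat_lit 1326) (nat_lit 4) (.two (nat_lit 7) (nat_lit 16) (nat_lit 872) (nat_lit 1) (.two (nat_lit 0) (nat_lit 16) (nat_lit 3125) (nat_lit 1) (.one (nat_lit 2255) (nat_lit 1) .nil)))),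
   .prs (.two (nat_lit 42) (nat_lit 4) (nat_lit 1302) (nat_lit 1) (.two (nat_lit 519) (nat_lit 4) (nat_lit 2225) (nat_lit 1) (.two (nat_lit 3) (nat_lit 4) (nat_lit 1548) (nat_lit 1) (.two (nat_lit 0) (nat_lit 4) (nat_lit 914) (nat_lit 1) (.one (nat_lit 2257) (nat_lit 1) .nil))))),
   .der (nat_lit 30226) (nat_lit 24),
   .der (nat_lit 103) (nat_lit 87),
   .der (nat_lit 49) (nat_lit 177),
   .der (nat_lit 137) (nat_lit 881),
   .prs (.two (nat_lit 397) (nat_lit 4) (nat_lit 3128) (nat_lit 1) (.two (nat_lit 341) (nat_lit 4) (nat_lit 3129) (nat_lit 1) (.two (nat_lit 11) (nat_lit 1) (nat_lit 3130) (nat_lit 4) (.two (nat_lit 0) (nat_lit 1) (nat_lit 3131) (nat_lit 4) (.one (nat_lit 2197) (nat_lit 4) .nil))))),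
   .prs (.two (nat_lit 36) (nat_lit 8) (nat_lit 94) (nat_lit 2) (.two (nat_lit 75) (nat_lit 2) (nat_lit 1925) (nat_lit 8) (.two (nat_lit 1) (nat_lit 2) (nat_lit 82) (nat_lit 8) (.two (nat_lit 0) (nat_lit 16) (nat_lit 1412) (nat_lit 1) .nil)))),
   .der (nat_lit 16738) (nat_lit 37),
   .der (nat_lit 83) (nat_lit 417),
   .der (nat_lit 1299) (nat_lit 861),
   .der (nat_lit 98) (nat_lit 2192),
   .prs (.two (nat_lit 418) (nat_lit 8) (nat_lit 3134) (nat_lit 1) (.two (nat_lit 2) (nat_lit 4) (nat_lit 82) (nat_lit 8) (.two (nat_lit 3) (nat_lit 4) (nat_lit 3135) (nat_lit 1) (.two (nat_lit 0) (nat_lit 1) (nat_lit 3136) (nat_lit 4) (.one (nat_lit 3137) (nat_lit 4) .nil))))),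
   .der (nat_lit 30226) (nat_lit 39),
   .der (nat_lit 165) (nat_lit 873),
   .prs (.two (nat_lit 65) (nat_lit 8) (nat_lit 1113) (nat_lit 2) (.two (nat_lit 34) (nat_lit 8) (nat_lit 3139) (nat_lit 2) (.two (nat_lit 11) (nat_lit 2) (nat_lit 1397) (nat_lit 8) (.two (nat_lit 0) (nat_lit 2) (nat_lit 3140) (nat_lit 8) (.one (nat_lit 2194) (nat_lit 8) .nil))))),
   .der (nat_lit 356) (nat_lit 177),
   .der (nat_lit 21107) (nat_lit 417),
   .prs (.two (nat_lit 676) (nat_lit 8) (nat_lit 145) (nat_lit 16) (.two (nat_lit 91) (nat_lit 16) (nat_lit 941) (nat_lit 1) (.two (nat_lit 78) (nat_lit 1) (nat_lit 3142) (nat_lit 8) (.two (nat_lit 1) (nat_lit 2) (nat_lit 3143) (nat_lit 1) (.two (nat_lit 0) (nat_lit 16) (nat_lit 1431) (nat_lit 2) (.one (nat_lit 2229) (nat_lit 2) .nil)))))),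
   .der (nat_lit 2390) (nat_lit 37),
   .der (nat_lit 145) (nat_lit 425),
   .prs (.two (nat_lit 65) (nat_lit 2) (nat_lit 145) (nat_lit 4) (.two (nat_lit 4) (nat_lit 2) (nat_lit 3145) (nat_lit 4) (.two (nat_lit 1) (nat_lit 2) (nat_lit 2204) (nat_lit 4) (.two (nat_lit 0) (nat_lit 1) (nat_lit 3146) (nat_lit 2) (.one (nat_lit 2258) (nat_lit 1) .nil))))),
   .der (nat_lit 2390) (nat_lit 187),
   .der (nat_lit 1430) (nat_lit 907),
   .prs (.two (nat_lit 129) (nat_lit 8) (nat_lit 476) (nat_lit 1) (.two (nat_lit 1) (nat_lit 16) (nat_lit 3148) (nat_lit 1) (.two (nat_lit 0) (nat_lit 16) (nat_lit 3149) (nat_lit 8) (.one (nat_lit 2261) (nat_lit 8) .nil)))),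
   .der (nat_lit 22548) (nat_lit 1438),
   .prs (.two (nat_lit 28) (nat_lit 16) (nat_lit 109) (nat_lit 1) (.two (nat_lit 710) (nat_lit 1) (nat_lit 2592) (nat_lit 16) (.two (nat_lit 0) (nat_lit 1) (nat_lit 898) (nat_lit 16) (.one (nat_lit 3151) (nat_lit 1) .nil)))),
   .der (nat_lit 147) (nat_lit 407),
   .der (nat_lit 6) (nat_lit 1458),
   .prs (.two (nat_lit 227) (nat_lit 8) (nat_lit 462) (nat_lit 4) (.two (nat_lit 1) (nat_lit 8) (nat_lit 3153) (nat_lit 4) (.one (nat_lit 3154) (nat_lit 4) .nil))),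
   .der (nat_lit 1074) (nat_lit 82),
   .der (nat_lit 101) (nat_lit 1448),
   .prs (.two (nat_lit 42) (nat_lit 4) (nat_lit 1194) (nat_lit 1) (.two (nat_lit 1068) (nat_lit 1) (nat_lit 1471) (nat_lit 4) (.two (nat_lit 3) (nat_lit 4) (nat_lit 3156) (nat_lit 1) (.two (nat_lit 0) (nat_lit 8) (nat_lit 3157) (nat_lit 1) .nil)))),
   .der (nat_lit 49) (nat_lit 864),
   .der (nat_lit 2) (nat_lit 2220),
   .prs (.two (nat_lit 13) (nat_lit 4) (nat_lit 13) (nat_lit 8) (.two (nat_lit 6) (nat_lit 4) (nat_lit 37) (nat_lit 8) (.two (nat_lit 482) (nat_lit 4) (nat_lit 169) (nat_lit 8) (.two (nat_lit 1) (nat_lit 4) (nat_lit 2181) (nat_lit 1) (.two (nat_lit 0) (nat_lit 4) (nat_lit 3159) (nat_lit 1) (.one (nat_lit 3160) (nat_lit 1) .nil)))))),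
   .der (nat_lit 10305) (nat_lit 432),
   .der (nat_lit 101) (nat_lit 906),
   .prs (.two (nat_lit 42) (nat_lit 4) (nat_lit 1194) (nat_lit 1) (.two (nat_lit 1068) (nat_lit 1) (nat_lit 1471) (nat_lit 4) (.two (nat_lit 1) (nat_lit 8) (nat_lit 3162) (nat_lit 1) (.two (nat_lit 0) (nat_lit 8) (nat_lit 3163) (nat_lit 1) (.one (nat_lit 2266) (nat_lit 1) .nil))))),
   .der (nat_lit 2323) (nat_lit 1448),
   .prs (.two (nat_lit 30) (nat_lit 1) (nat_lit 462) (nat_lit 8) (.two (nat_lit 7) (nat_lit 1) (nat_lit 1429) (nat_lit 8) (.two (nat_lit 0) (nat_lit 8) (nat_lit 1463) (nat_lit 1) (.one (nat_lit 3165) (nat_lit 8) .nil)))),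
   .der (nat_lit 17185) (nat_lit 37),
   .der (nat_lit 17185) (nat_lit 873),
   .prs (.two (nat_lit 65) (nat_lit 8) (nat_lit 550) (nat_lit 1) (.two (nat_lit 325) (nat_lit 8) (nat_lit 3167) (nat_lit 1) (.two (nat_lit 11) (nat_lit 8) (nat_lit 3156) (nat_lit 1) (.two (nat_lit 0) (nat_lit 8) (nat_lit 3168) (nat_lit 1) (.one (nat_lit 2271) (nat_lit 1) .nil))))),
   .der (nat_lit 150) (nat_lit 29),
   .der (nat_lit 38163) (nat_lit 169),
   .prs (.two (nat_lit 1401) (nat_lit 2) (nat_lit 3170) (nat_lit 8) (.two (nat_lit 4) (nat_lit 2) (nat_lit 184) (nat_lit 8) (.two (nat_lit 1) (nat_lit 16) (nat_lit 3171) (nat_lit 2) (.two (nat_lit 0) (nat_lit 16) (nat_lit 1466) (nat_lit 2) (.one (nat_lit 2273) (nat_lit 2) .nil))))),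
   .der (nat_lit 17185) (nat_lit 169),
   .der (nat_lit 8) (nat_lit 1406),
   .prs (.two (nat_lit 30) (nat_lit 1) (nat_lit 86) (nat_lit 4) (.two (nat_lit 1214) (nat_lit 1) (nat_lit 2745) (nat_lit 4) (.two (nat_lit 3) (nat_lit 4) (nat_lit 3173) (nat_lit 1) (.two (nat_lit 0) (nat_lit 4) (nat_lit 2235) (nat_lit 1) (.one (nat_lit 3174) (nat_lit 1) .nil))))),
   .prs (.two (nat_lit 6) (nat_lit 8) (nat_lit 80) (nat_lit 2) (.two (nat_lit 2) (nat_lit 8) (nat_lit 186) (nat_lit 2) (.two (nat_lit 1) (nat_lit 2) (nat_lit 441) (nat_lit 4) (.two (nat_lit 0) (nat_lit 2) (nat_lit 927) (nat_lit 4) (.one (nat_lit 1473) (nat_lit 2) .nil))))),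
   .der (nat_lit 33) (nat_lit 98),
   .der (nat_lit 87) (nat_lit 381),
   .der (nat_lit 6) (nat_lit 911),
   .prs (.two (nat_lit 42) (nat_lit 16) (nat_lit 825) (nat_lit 1) (.two (nat_lit 2) (nat_lit 16) (nat_lit 3177) (nat_lit 1) (.two (nat_lit 11) (nat_lit 2) (nat_lit 3178) (nat_lit 1) (.two (nat_lit 0) (nat_lit 16) (nat_lit 3179) (nat_lit 2) (.one (nat_lit 1478) (nat_lit 16) .nil))))),
   .der (nat_lit 37425) (nat_lit 72),
   .der (nat_lit 37425) (nat_lit 837),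
   .der (nat_lit 6) (nat_lit 2232),
   .prs (.two (nat_lit 227) (nat_lit 8) (nat_lit 332) (nat_lit 4) (.two (nat_lit 34) (nat_lit 8) (nat_lit 3181) (nat_lit 4) (.two (nat_lit 1) (nat_lit 8) (nat_lit 3182) (nat_lit 4) (.one (nat_lit 3183) (nat_lit 4) .nil)))),
   .der (nat_lit 2390) (nat_lit 21),
   .der (nat_lit 2390) (nat_lit 67),
   .prs (.two (nat_lit 1459) (nat_lit 2) (nat_lit 3185) (nat_lit 4) (.two (nat_lit 34) (nat_lit 2) (nat_lit 3186) (nat_lit 4) (.two (nat_lit 1) (nat_lit 2) (nat_lit 902) (nat_lit 4) (.one (nat_lit 2248) (nat_lit 4) .nil)))),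
   .prs (.two (nat_lit 6) (nat_lit 8) (nat_lit 462) (nat_lit 2) (.two (nat_lit 2) (nat_lit 16) (nat_lit 1722) (nat_lit 8) (.two (nat_lit 0) (nat_lit 16) (nat_lit 1411) (nat_lit 2) (.one (nat_lit 2238) (nat_lit 8) .nil)))),
   .der (nat_lit 86) (nat_lit 172),
   .prs (.two (nat_lit 6) (nat_lit 8) (nat_lit 1433) (nat_lit 1) (.two (nat_lit 1) (nat_lit 16) (nat_lit 3189) (nat_lit 1) (.two (nat_lit 0) (nat_lit 16) (nat_lit 936) (nat_lit 1) (.one (nat_lit 2277) (nat_lit 8) .nil)))),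
   .der (nat_lit 145) (nat_lit 39),
   .der (nat_lit 24916) (nat_lit 407),
   .der (nat_lit 13345) (nat_lit 834),
   .prs (.two (nat_lit 6) (nat_lit 4) (nat_lit 462) (nat_lit 2) (.two (nat_lit 2) (nat_lit 4) (nat_lit 3191) (nat_lit 1) (.two (nat_lit 1) (nat_lit 2) (nat_lit 3192) (nat_lit 4) (.two (nat_lit 0) (nat_lit 1) (nat_lit 3193) (nat_lit 2) (.one (nat_lit 2289) (nat_lit 1) .nil))))),
   .der (nat_lit 147) (nat_lit 904),
   .prs (.two (nat_lit 1387) (nat_lit 1) (nat_lit 122) (nat_lit 8) (.two (nat_lit 206) (nat_lit 8) (nat_lit 419) (nat_lit 1) (.two (nat_lit 46) (nat_lit 8) (nat_lit 1437) (nat_lit 1) (.two (nat_lit 0) (nat_lit 8) (nat_lit 3195) (nat_lit 1) (.one (nat_lit 2292) (nat_lit 1) .nil))))),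
   .der (nat_lit 2339) (nat_lit 21),
   .der (nat_lit 2390) (nat_lit 864),
   .prs (.two (nat_lit 537) (nat_lit 1) (nat_lit 3197) (nat_lit 4) (.two (nat_lit 68) (nat_lit 1) (nat_lit 1465) (nat_lit 4) (.two (nat_lit 11) (nat_lit 1) (nat_lit 2221) (nat_lit 4) (.two (nat_lit 0) (nat_lit 1) (nat_lit 3198) (nat_lit 4) .nil)))),
   .prs (.two (nat_lit 129) (nat_lit 4) (nat_lit 38) (nat_lit 8) (.two (nat_lit 1214) (nat_lit 8) (nat_lit 1908) (nat_lit 4) (.two (nat_lit 3) (nat_lit 8) (nat_lit 1531) (nat_lit 4) (.two (nat_lit 0) (nat_lit 16) (nat_lit 1419) (nat_lit 2) .nil)))),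
   .der (nat_lit 9587) (nat_lit 10),
   .der (nat_lit 1395) (nat_lit 29),
   .der (nat_lit 1) (nat_lit 101),
   .prs (.two (nat_lit 1387) (nat_lit 1) (nat_lit 3201) (nat_lit 4) (.two (nat_lit 7) (nat_lit 1) (nat_lit 3202) (nat_lit 4) (.two (nat_lit 11) (nat_lit 8) (nat_lit 3203) (nat_lit 4) (.two (nat_lit 0) (nat_lit 1) (nat_lit 975) (nat_lit 4) (.one (nat_lit 2293) (nat_lit 4) .nil))))),
   .der (nat_lit 627) (nat_lit 19),
   .der (nat_lit 2353) (nat_lit 104),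
   .prs (.two (nat_lit 456) (nat_lit 4) (nat_lit 667) (nat_lit 2) (.two (nat_lit 2) (nat_lit 4) (nat_lit 3205) (nat_lit 2) (.two (nat_lit 1) (nat_lit 2) (nat_lit 3206) (nat_lit 4) (.two (nat_lit 0) (nat_lit 4) (nat_lit 976) (nat_lit 2) (.one (nat_lit 2296) (nat_lit 2) .nil))))),
   .der (nat_lit 21107) (nat_lit 35),
   .der (nat_lit 36) (nat_lit 429),
   .prs (.two (nat_lit 6) (nat_lit 4) (nat_lit 462) (nat_lit 8) (.two (nat_lit 1) (nat_lit 4) (nat_lit 3208) (nat_lit 1) (.two (nat_lit 0) (nat_lit 4) (nat_lit 3209) (nat_lit 8) (.one (nat_lit 1512) (nat_lit 8) .nil)))),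
   .prs (.two (nat_lit 44) (nat_lit 1) (nat_lit 444) (nat_lit 4) (.two (nat_lit 11) (nat_lit 8) (nat_lit 2619) (nat_lit 1) (.two (nat_lit 0) (nat_lit 1) (nat_lit 483) (nat_lit 4) (.one (nat_lit 2298) (nat_lit 1) .nil)))),
   .der (nat_lit 1893) (nat_lit 21),
   .der (nat_lit 152) (nat_lit 169),
   .prs (.two (nat_lit 42) (nat_lit 4) (nat_lit 100) (nat_lit 16) (.two (nat_lit 2) (nat_lit 4) (nat_lit 3212) (nat_lit 16) (.two (nat_lit 1) (nat_lit 16) (nat_lit 3213) (nat_lit 4) (.one (nat_lit 2309) (nat_lit 1) .nil)))),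
   .der (nat_lit 50) (nat_lit 524),
   .prs (.two (nat_lit 65) (nat_lit 16) (nat_lit 2195) (nat_lit 1) (.two (nat_lit 0) (nat_lit 16) (nat_lit 3215) (nat_lit 2) (.one (nat_lit 2312) (nat_lit 2) .nil))),
   .der (nat_lit 36) (nat_lit 169),
   .der (nat_lit 5) (nat_lit 873),
   .der (nat_lit 10) (nat_lit 2262),
   .prs (.two (nat_lit 6) (nat_lit 16) (nat_lit 522) (nat_lit 4) (.two (nat_lit 2) (nat_lit 16) (nat_lit 3217) (nat_lit 4) (.two (nat_lit 0) (nat_lit 4) (nat_lit 3218) (nat_lit 16) (.one (nat_lit 3219) (nat_lit 4) .nil)))),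
   .der (nat_lit 101) (nat_lit 172),
   .der (nat_lit 117) (nat_lit 1450),
   .prs (.two (nat_lit 6) (nat_lit 8) (nat_lit 822) (nat_lit 1) (.two (nat_lit 1) (nat_lit 2) (nat_lit 3221) (nat_lit 1) (.two (nat_lit 0) (nat_lit 2) (nat_lit 3222) (nat_lit 4) .nil))),
   .der (nat_lit 10) (nat_lit 55),
   .der (nat_lit 19) (nat_lit 187),
   .der (nat_lit 35) (nat_lit 417),
   .der (nat_lit 33) (nat_lit 864),
   .der (nat_lit 33) (nat_lit 2320),
   .prs (.two (nat_lit 13) (nat_lit 8) (nat_lit 3224) (nat_lit 4) (.two (nat_lit 227) (nat_lit 2) (nat_lit 33) (nat_lit 8) (.two (nat_lit 463) (nat_lit 8) (nat_lit 3225) (nat_lit 2) (.two (nat_lit 1) (nat_lit 2) (nat_lit 3226) (nat_lit 4) (.two (nat_lit 0) (nat_lit 2) (nat_lit 3227) (nat_lit 8) (.one (nat_lit 3228) (nat_lit 8) .nil)))))),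
   .der (nat_lit 2113) (nat_lit 27),
   .der (nat_lit 16738) (nat_lit 104),
   .der (nat_lit 29011) (nat_lit 453),
   .prs (.two (nat_lit 1126) (nat_lit 16) (nat_lit 3230) (nat_lit 8) (.two (nat_lit 384) (nat_lit 16) (nat_lit 3231) (nat_lit 8) (.two (nat_lit 3) (nat_lit 8) (nat_lit 3232) (nat_lit 16) (.two (nat_lit 0) (nat_lit 4) (nat_lit 1045) (nat_lit 16) (.one (nat_lit 2394) (nat_lit 4) .nil))))),
   .der (nat_lit 50) (nat_lit 187),
   .der (nat_lit 1554) (nat_lit 421),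
   .prs (.two (nat_lit 13) (nat_lit 4) (nat_lit 440) (nat_lit 8) (.two (nat_lit 65) (nat_lit 8) (nat_lit 2168) (nat_lit 1) (.two (nat_lit 556) (nat_lit 4) (nat_lit 3234) (nat_lit 1) (.two (nat_lit 1) (nat_lit 2) (nat_lit 3235) (nat_lit 8) (.two (nat_lit 0) (nat_lit 2) (nat_lit 1550) (nat_lit 8) (.one (nat_lit 2360) (nat_lit 2) .nil)))))),
   .der (nat_lit 10545) (nat_lit 192),
   .der (nat_lit 354) (nat_lit 417),
   .prs (.two (nat_lit 13) (nat_lit 4) (nat_lit 38) (nat_lit 8) (.two (nat_lit 404) (nat_lit 8) (nat_lit 2168) (nat_lit 1) (.two (nat_lit 384) (nat_lit 8) (nat_lit 3237) (nat_lit 4) (.two (nat_lit 3) (nat_lit 1) (nat_lit 3238) (nat_lit 2) (.two (nat_lit 0) (nat_lit 1) (nat_lit 1557) (nat_lit 8) (.one (nat_lit 2372) (nat_lit 1) .nil)))))),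
   .der (nat_lit 13345) (nat_lit 465),
   .prs (.two (nat_lit 6) (nat_lit 8) (nat_lit 956) (nat_lit 4) (.two (nat_lit 2) (nat_lit 4) (nat_lit 13) (nat_lit 8) (.two (nat_lit 1) (nat_lit 8) (nat_lit 978) (nat_lit 4) (.two (nat_lit 0) (nat_lit 8) (nat_lit 3240) (nat_lit 4) (.one (nat_lit 2440) (nat_lit 4) .nil))))),
   .der (nat_lit 22803) (nat_lit 1022),
   .prs (.two (nat_lit 91) (nat_lit 2) (nat_lit 676) (nat_lit 4) (.two (nat_lit 329) (nat_lit 2) (nat_lit 978) (nat_lit 4) (.two (nat_lit 3) (nat_lit 8) (nat_lit 3242) (nat_lit 2) (.one (nat_lit 2396) (nat_lit 4) .nil)))),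
   .der (nat_lit 1122) (nat_lit 192),
   .prs (.two (nat_lit 13) (nat_lit 4) (nat_lit 38) (nat_lit 8) (.two (nat_lit 404) (nat_lit 8) (nat_lit 2168) (nat_lit 1) (.two (nat_lit 384) (nat_lit 8) (nat_lit 3244) (nat_lit 2) (.two (nat_lit 3) (nat_lit 1) (nat_lit 3238) (nat_lit 2) (.two (nat_lit 0) (nat_lit 1) (nat_lit 1558) (nat_lit 8) (.one (nat_lit 2376) (nat_lit 1) .nil)))))),
   .der (nat_lit 1810) (nat_lit 24),
   .der (nat_lit 5) (nat_lit 128),
   .der (nat_lit 8) (nat_lit 1448),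
   .prs (.two (nat_lit 36) (nat_lit 2) (nat_lit 3246) (nat_lit 1) (.two (nat_lit 173) (nat_lit 1) (nat_lit 3247) (nat_lit 2) (.two (nat_lit 11) (nat_lit 2) (nat_lit 1548) (nat_lit 1) (.two (nat_lit 0) (nat_lit 1) (nat_lit 1051) (nat_lit 2) (.one (nat_lit 3248) (nat_lit 1) .nil))))),
   .der (nat_lit 2339) (nat_lit 441),
   .prs (.two (nat_lit 167) (nat_lit 2) (nat_lit 444) (nat_lit 4) (.two (nat_lit 7) (nat_lit 8) (nat_lit 1574) (nat_lit 4) (.two (nat_lit 3) (nat_lit 8) (nat_lit 3250) (nat_lit 4) (.two (nat_lit 0) (nat_lit 2) (nat_lit 1052) (nat_lit 4) (.one (nat_lit 2401) (nat_lit 8) .nil))))),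
   .der (nat_lit 161) (nat_lit 110),
   .der (nat_lit 1074) (nat_lit 504),
   .der (nat_lit 1875) (nat_lit 1052),
   .prs (.two (nat_lit 456) (nat_lit 4) (nat_lit 267) (nat_lit 1) (.two (nat_lit 433) (nat_lit 1) (nat_lit 3252) (nat_lit 4) (.two (nat_lit 1) (nat_lit 8) (nat_lit 3253) (nat_lit 4) (.two (nat_lit 0) (nat_lit 8) (nat_lit 3254) (nat_lit 4) (.one (nat_lit 2405) (nat_lit 4) .nil))))),
   .der (nat_lit 2353) (nat_lit 106),
   .der (nat_lit 1299) (nat_lit 974),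
   .prs (.two (nat_lit 791) (nat_lit 2) (nat_lit 306) (nat_lit 1) (.two (nat_lit 170) (nat_lit 2) (nat_lit 3256) (nat_lit 1) (.two (nat_lit 1) (nat_lit 16) (nat_lit 3257) (nat_lit 1) (.one (nat_lit 2407) (nat_lit 2) .nil)))),
   .der (nat_lit 2353) (nat_lit 33),
   .der (nat_lit 1122) (nat_lit 1448),
   .prs (.two (nat_lit 227) (nat_lit 8) (nat_lit 1254) (nat_lit 4) (.two (nat_lit 463) (nat_lit 8) (nat_lit 3259) (nat_lit 4) (.two (nat_lit 1) (nat_lit 8) (nat_lit 3009) (nat_lit 4) (.two (nat_lit 0) (nat_lit 1) (nat_lit 3260) (nat_lit 4) .nil)))),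
   .der (nat_lit 16738) (nat_lit 21),
   .der (nat_lit 1074) (nat_lit 72),
   .der (nat_lit 1650) (nat_lit 177),
   .der (nat_lit 2593) (nat_lit 960),
   .der (nat_lit 1107) (nat_lit 2194),
   .prs (.two (nat_lit 489) (nat_lit 2) (nat_lit 3262) (nat_lit 1) (.two (nat_lit 170) (nat_lit 2) (nat_lit 3263) (nat_lit 1) (.two (nat_lit 1) (nat_lit 2) (nat_lit 3264) (nat_lit 1) (.two (nat_lit 0) (nat_lit 2) (nat_lit 3265) (nat_lit 1) (.one (nat_lit 3266) (nat_lit 1) .nil))))),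
   .der (nat_lit 1810) (nat_lit 967),
   .der (nat_lit 1057) (nat_lit 1421),
   .prs (.two (nat_lit 537) (nat_lit 1) (nat_lit 1039) (nat_lit 2) (.two (nat_lit 11) (nat_lit 1) (nat_lit 3268) (nat_lit 2) (.one (nat_lit 3269) (nat_lit 1) .nil))),
   .der (nat_lit 627) (nat_lit 70),
   .der (nat_lit 29011) (nat_lit 417),
   .prs (.two (nat_lit 456) (nat_lit 4) (nat_lit 1095) (nat_lit 2) (.two (nat_lit 2) (nat_lit 4) (nat_lit 3271) (nat_lit 2) (.two (nat_lit 1) (nat_lit 4) (nat_lit 3272) (nat_lit 2) (.one (nat_lit 1565) (nat_lit 2) .nil)))),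
   .der (nat_lit 5218) (nat_lit 192),
   .der (nat_lit 1057) (nat_lit 907),
   .prs (.two (nat_lit 6) (nat_lit 4) (nat_lit 462) (nat_lit 2) (.two (nat_lit 2) (nat_lit 16) (nat_lit 3274) (nat_lit 1) (.two (nat_lit 0) (nat_lit 16) (nat_lit 3275) (nat_lit 4) (.one (nat_lit 2412) (nat_lit 2) .nil)))),
   .der (nat_lit 87) (nat_lit 37),
   .der (nat_lit 2193) (nat_lit 82),
   .prs (.two (nat_lit 1126) (nat_lit 2) (nat_lit 3277) (nat_lit 8) (.two (nat_lit 11) (nat_lit 2) (nat_lit 3278) (nat_lit 8) (.two (nat_lit 0) (nat_lit 2) (nat_lit 1058) (nat_lit 8) (.one (nat_lit 2414) (nat_lit 8) .nil)))),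
   .der (nat_lit 1122) (nat_lit 35),
   .der (nat_lit 1620) (nat_lit 82),
   .prs (.two (nat_lit 65) (nat_lit 16) (nat_lit 674) (nat_lit 1) (.two (nat_lit 4) (nat_lit 16) (nat_lit 3280) (nat_lit 1) (.two (nat_lit 11) (nat_lit 16) (nat_lit 3281) (nat_lit 1) (.two (nat_lit 0) (nat_lit 16) (nat_lit 1062) (nat_lit 1) (.one (nat_lit 2416) (nat_lit 1) .nil))))),
   .der (nat_lit 21107) (nat_lit 135),
   .der (nat_lit 117) (nat_lit 1052),
   .prs (.two (nat_lit 427) (nat_lit 2) (nat_lit 86) (nat_lit 4) (.two (nat_lit 9) (nat_lit 4) (nat_lit 3283) (nat_lit 1) (.two (nat_lit 3) (nat_lit 4) (nat_lit 3284) (nat_lit 1) (.one (nat_lit 2420) (nat_lit 1) .nil)))),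
   .der (nat_lit 67) (nat_lit 110),
   .der (nat_lit 10545) (nat_lit 472),
   .prs (.two (nat_lit 6) (nat_lit 4) (nat_lit 520) (nat_lit 8) (.two (nat_lit 2) (nat_lit 4) (nat_lit 3286) (nat_lit 1) (.two (nat_lit 1) (nat_lit 4) (nat_lit 3287) (nat_lit 1) (.two (nat_lit 0) (nat_lit 4) (nat_lit 1065) (nat_lit 1) (.one (nat_lit 2421) (nat_lit 1) .nil))))),
   .der (nat_lit 4978) (nat_lit 135),
   .der (nat_lit 16738) (nat_lit 923),
   .prs (.two (nat_lit 6) (nat_lit 4) (nat_lit 520) (nat_lit 8) (.two (nat_lit 2) (nat_lit 8) (nat_lit 3289) (nat_lit 1) (.two (nat_lit 1) (nat_lit 8) (nat_lit 3290) (nat_lit 1) (.one (nat_lit 2424) (nat_lit 4) .nil)))),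
   .der (nat_lit 1554) (nat_lit 864),
   .prs (.two (nat_lit 1387) (nat_lit 1) (nat_lit 1554) (nat_lit 2) (.two (nat_lit 493) (nat_lit 2) (nat_lit 3256) (nat_lit 1) (.two (nat_lit 1) (nat_lit 16) (nat_lit 3292) (nat_lit 2) .nil))),
   .der (nat_lit 22803) (nat_lit 72),
   .der (nat_lit 1893) (nat_lit 187),
   .prs (.two (nat_lit 456) (nat_lit 4) (nat_lit 1095) (nat_lit 2) (.two (nat_lit 2) (nat_lit 4) (nat_lit 3294) (nat_lit 2) (.two (nat_lit 1) (nat_lit 4) (nat_lit 3295) (nat_lit 2) (.two (nat_lit 0) (nat_lit 4) (nat_lit 1567) (nat_lit 2) (.one (nat_lit 2427) (nat_lit 2) .nil))))),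
   .der (nat_lit 834) (nat_lit 245),
   .der (nat_lit 882) (nat_lit 192),
   .der (nat_lit 2433) (nat_lit 907),
   .prs (.two (nat_lit 489) (nat_lit 2) (nat_lit 576) (nat_lit 8) (.two (nat_lit 17) (nat_lit 2) (nat_lit 3297) (nat_lit 8) (.two (nat_lit 1) (nat_lit 2) (nat_lit 3298) (nat_lit 8) (.two (nat_lit 0) (nat_lit 2) (nat_lit 3299) (nat_lit 8) (.one (nat_lit 2429) (nat_lit 2) .nil))))),
   .der (nat_lit 1074) (nat_lit 8),
   .der (nat_lit 2113) (nat_lit 192),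
   .der (nat_lit 1893) (nat_lit 907),
   .der (nat_lit 339) (nat_lit 2389),
   .prs (.two (nat_lit 3301) (nat_lit 1) (nat_lit 509) (nat_lit 8) (.two (nat_lit 224) (nat_lit 1) (nat_lit 3302) (nat_lit 8) (.two (nat_lit 0) (nat_lit 1) (nat_lit 3303) (nat_lit 8) (.one (nat_lit 3304) (nat_lit 8) .nil)))),
   .prs (.two (nat_lit 427) (nat_lit 4) (nat_lit 2242) (nat_lit 1) (.two (nat_lit 75) (nat_lit 4) (nat_lit 2243) (nat_lit 1) (.two (nat_lit 1) (nat_lit 4) (nat_lit 1999) (nat_lit 1) (.two (nat_lit 0) (nat_lit 4) (nat_lit 1598) (nat_lit 1) (.one (nat_lit 1085) (nat_lit 4) .nil))))),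
   .der (nat_lit 2068) (nat_lit 2342),
   .prs (.two (nat_lit 404) (nat_lit 8) (nat_lit 390) (nat_lit 2) (.two (nat_lit 34) (nat_lit 2) (nat_lit 1502) (nat_lit 8) (.two (nat_lit 1) (nat_lit 2) (nat_lit 1559) (nat_lit 8) (.two (nat_lit 0) (nat_lit 2) (nat_lit 897) (nat_lit 8) (.one (nat_lit 3307) (nat_lit 2) .nil))))),
   .prs (.two (nat_lit 129) (nat_lit 8) (nat_lit 882) (nat_lit 4) (.two (nat_lit 2) (nat_lit 4) (nat_lit 520) (nat_lit 8) (.two (nat_lit 1) (nat_lit 8) (nat_lit 3058) (nat_lit 4) (.one (nat_lit 2443) (nat_lit 4) .nil)))),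
   .der (nat_lit 67) (nat_lit 57),
   .prs (.two (nat_lit 100) (nat_lit 2) (nat_lit 3310) (nat_lit 8) (.two (nat_lit 3) (nat_lit 16) (nat_lit 2233) (nat_lit 2) (.two (nat_lit 0) (nat_lit 16) (nat_lit 2379) (nat_lit 2) (.one (nat_lit 2446) (nat_lit 2) .nil)))),
   .der (nat_lit 150) (nat_lit 41),
   .der (nat_lit 30226) (nat_lit 365),
   .prs (.two (nat_lit 100) (nat_lit 2) (nat_lit 3312) (nat_lit 8) (.two (nat_lit 3) (nat_lit 8) (nat_lit 1978) (nat_lit 2) (.two (nat_lit 0) (nat_lit 8) (nat_lit 3313) (nat_lit 2) (.one (nat_lit 2448) (nat_lit 2) .nil)))),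
   .der (nat_lit 8) (nat_lit 90),
   .prs (.two (nat_lit 1387) (nat_lit 8) (nat_lit 637) (nat_lit 2) (.two (nat_lit 206) (nat_lit 2) (nat_lit 3315) (nat_lit 4) (.two (nat_lit 0) (nat_lit 4) (nat_lit 1096) (nat_lit 8) (.one (nat_lit 1610) (nat_lit 8) .nil)))),
   .der (nat_lit 2593) (nat_lit 599),
   .prs (.two (nat_lit 30) (nat_lit 8) (nat_lit 1413) (nat_lit 4) (.two (nat_lit 1) (nat_lit 8) (nat_lit 3317) (nat_lit 4) (.one (nat_lit 2450) (nat_lit 2) .nil))),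
   .der (nat_lit 2323) (nat_lit 115),
   .der (nat_lit 2323) (nat_lit 544),
   .prs (.two (nat_lit 36) (nat_lit 8) (nat_lit 509) (nat_lit 4) (.two (nat_lit 1) (nat_lit 8) (nat_lit 3319) (nat_lit 4) (.two (nat_lit 0) (nat_lit 8) (nat_lit 3320) (nat_lit 4) (.one (nat_lit 2453) (nat_lit 1) .nil)))),
   .prs (.two (nat_lit 537) (nat_lit 16) (nat_lit 1121) (nat_lit 8) (.two (nat_lit 16) (nat_lit 4) (nat_lit 1046) (nat_lit 16) (.two (nat_lit 0) (nat_lit 4) (nat_lit 1626) (nat_lit 16) (.one (nat_lit 2455) (nat_lit 4) .nil)))),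
   .prs (.two (nat_lit 42) (nat_lit 16) (nat_lit 717) (nat_lit 2) (.two (nat_lit 1) (nat_lit 2) (nat_lit 1574) (nat_lit 8) (.two (nat_lit 0) (nat_lit 8) (nat_lit 1552) (nat_lit 2) (.one (nat_lit 2363) (nat_lit 8) .nil)))),
   .der (nat_lit 1380) (nat_lit 544),
   .prs (.two (nat_lit 723) (nat_lit 4) (nat_lit 1095) (nat_lit 2) (.two (nat_lit 11) (nat_lit 8) (nat_lit 654) (nat_lit 4) (.two (nat_lit 0) (nat_lit 8) (nat_lit 3324) (nat_lit 2) (.one (nat_lit 1633) (nat_lit 8) .nil)))),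
   .der (nat_lit 577) (nat_lit 67),
   .der (nat_lit 145) (nat_lit 837),
   .prs (.two (nat_lit 1118) (nat_lit 4) (nat_lit 273) (nat_lit 1) (.two (nat_lit 68) (nat_lit 1) (nat_lit 3326) (nat_lit 4) (.two (nat_lit 0) (nat_lit 1) (nat_lit 3327) (nat_lit 4) .nil))),
   .der (nat_lit 1620) (nat_lit 24),
   .der (nat_lit 129) (nat_lit 371),
   .prs (.two (nat_lit 397) (nat_lit 16) (nat_lit 134) (nat_lit 4) (.two (nat_lit 1068) (nat_lit 16) (nat_lit 3329) (nat_lit 4) (.two (nat_lit 3) (nat_lit 4) (nat_lit 3330) (nat_lit 16) (.one (nat_lit 1101) (nat_lit 16) .nil)))),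
   .prs (.two (nat_lit 489) (nat_lit 4) (nat_lit 462) (nat_lit 2) (.two (nat_lit 1) (nat_lit 2) (nat_lit 106) (nat_lit 1) (.two (nat_lit 0) (nat_lit 4) (nat_lit 903) (nat_lit 2) (.one (nat_lit 2457) (nat_lit 2) .nil)))),
   .der (nat_lit 8) (nat_lit 101),
   .prs (.two (nat_lit 2) (nat_lit 16) (nat_lit 701) (nat_lit 1) (.two (nat_lit 1) (nat_lit 4) (nat_lit 3333) (nat_lit 16) (.one (nat_lit 2460) (nat_lit 16) .nil))),
   .der (nat_lit 10305) (nat_lit 39),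
   .der (nat_lit 37425) (nat_lit 169),
   .der (nat_lit 37425) (nat_lit 827),
   .prs (.two (nat_lit 3301) (nat_lit 1) (nat_lit 3335) (nat_lit 4) (.two (nat_lit 11) (nat_lit 1) (nat_lit 3336) (nat_lit 4) (.two (nat_lit 0) (nat_lit 1) (nat_lit 3337) (nat_lit 4) (.one (nat_lit 2491) (nat_lit 4) .nil)))),
   .der (nat_lit 13345) (nat_lit 861),
   .prs (.two (nat_lit 505) (nat_lit 4) (nat_lit 522) (nat_lit 8) (.two (nat_lit 329) (nat_lit 4) (nat_lit 2484) (nat_lit 8) (.two (nat_lit 1) (nat_lit 4) (nat_lit 3339) (nat_lit 8) .nil))),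
   .der (nat_lit 50) (nat_lit 128),
   .der (nat_lit 101) (nat_lit 461),
   .der (nat_lit 66) (nat_lit 923),
   .prs (.two (nat_lit 65) (nat_lit 2) (nat_lit 80) (nat_lit 16) (.two (nat_lit 7) (nat_lit 16) (nat_lit 3341) (nat_lit 1) (.two (nat_lit 1) (nat_lit 16) (nat_lit 3342) (nat_lit 2) (.two (nat_lit 0) (nat_lit 1) (nat_lit 3343) (nat_lit 2) (.one (nat_lit 2494) (nat_lit 1) .nil))))),
   .der (nat_lit 1074) (nat_lit 70),
   .der (nat_lit 2433) (nat_lit 864),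
   .prs (.two (nat_lit 370) (nat_lit 4) (nat_lit 550) (nat_lit 1) (.two (nat_lit 173) (nat_lit 4) (nat_lit 3345) (nat_lit 1) (.two (nat_lit 3) (nat_lit 1) (nat_lit 3346) (nat_lit 4) .nil))),
   .der (nat_lit 147) (nat_lit 72),
   .der (nat_lit 37425) (nat_lit 421),
   .prs (.two (nat_lit 1459) (nat_lit 2) (nat_lit 1476) (nat_lit 4) (.two (nat_lit 34) (nat_lit 2) (nat_lit 3348) (nat_lit 4) (.two (nat_lit 1) (nat_lit 2) (nat_lit 3349) (nat_lit 4) (.one (nat_lit 2496) (nat_lit 4) .nil)))),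
   .der (nat_lit 152) (nat_lit 73),
   .der (nat_lit 2433) (nat_lit 421),
   .prs (.two (nat_lit 132) (nat_lit 8) (nat_lit 1413) (nat_lit 4) (.two (nat_lit 622) (nat_lit 8) (nat_lit 3351) (nat_lit 4) (.two (nat_lit 11) (nat_lit 8) (nat_lit 3352) (nat_lit 4) (.one (nat_lit 3346) (nat_lit 4) .nil)))),
   .der (nat_lit 2113) (nat_lit 108),
   .der (nat_lit 6) (nat_lit 1062),
   .der (nat_lit 24916) (nat_lit 1421),
   .prs (.two (nat_lit 42) (nat_lit 16) (nat_lit 550) (nat_lit 1) (.two (nat_lit 384) (nat_lit 16) (nat_lit 3354) (nat_lit 1) (.two (nat_lit 3) (nat_lit 16) (nat_lit 3355) (nat_lit 1) (.one (nat_lit 3356) (nat_lit 1) .nil)))),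
   .der (nat_lit 147) (nat_lit 74),
   .prs (.two (nat_lit 91) (nat_lit 4) (nat_lit 953) (nat_lit 2) (.two (nat_lit 34) (nat_lit 2) (nat_lit 3358) (nat_lit 4) (.two (nat_lit 1) (nat_lit 2) (nat_lit 3182) (nat_lit 4) (.one (nat_lit 1651) (nat_lit 4) .nil)))),
   .der (nat_lit 1) (nat_lit 29),
   .der (nat_lit 1650) (nat_lit 95),
   .der (nat_lit 50) (nat_lit 1047),
   .prs (.two (nat_lit 227) (nat_lit 16) (nat_lit 3360) (nat_lit 1) (.two (nat_lit 463) (nat_lit 4) (nat_lit 3361) (nat_lit 2) (.two (nat_lit 1) (nat_lit 4) (nat_lit 3362) (nat_lit 1) (.two (nat_lit 0) (nat_lit 1) (nat_lit 1659) (nat_lit 4) (.one (nat_lit 2503) (nat_lit 4) .nil))))),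
   .der (nat_lit 6) (nat_lit 199),
   .prs (.two (nat_lit 489) (nat_lit 2) (nat_lit 882) (nat_lit 16) (.two (nat_lit 2) (nat_lit 16) (nat_lit 3364) (nat_lit 2) (.one (nat_lit 2512) (nat_lit 1) .nil))),
   .der (nat_lit 9) (nat_lit 39),
   .der (nat_lit 5218) (nat_lit 1062),
   .prs (.two (nat_lit 1126) (nat_lit 2) (nat_lit 462) (nat_lit 4) (.two (nat_lit 374) (nat_lit 2) (nat_lit 3366) (nat_lit 4) (.two (nat_lit 16) (nat_lit 2) (nat_lit 3367) (nat_lit 4) (.one (nat_lit 2507) (nat_lit 4) .nil)))),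
   .der (nat_lit 35) (nat_lit 101),
   .der (nat_lit 36) (nat_lit 627),
   .prs (.two (nat_lit 36) (nat_lit 2) (nat_lit 2852) (nat_lit 1) (.two (nat_lit 34) (nat_lit 2) (nat_lit 1200) (nat_lit 1) (.two (nat_lit 1) (nat_lit 16) (nat_lit 3369) (nat_lit 1) (.two (nat_lit 0) (nat_lit 16) (nat_lit 3370) (nat_lit 1) (.one (nat_lit 2514) (nat_lit 1) .nil))))),
   .der (nat_lit 101) (nat_lit 123),
   .der (nat_lit 7) (nat_lit 521),
   .der (nat_lit 4978) (nat_lit 923),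
   .prs (.two (nat_lit 956) (nat_lit 4) (nat_lit 673) (nat_lit 1) (.two (nat_lit 7) (nat_lit 1) (nat_lit 3372) (nat_lit 4) (.two (nat_lit 0) (nat_lit 1) (nat_lit 3373) (nat_lit 4) (.one (nat_lit 3374) (nat_lit 1) .nil)))),
   .der (nat_lit 117) (nat_lit 123),
   .prs (.two (nat_lit 1019) (nat_lit 1) (nat_lit 85) (nat_lit 4) (.two (nat_lit 433) (nat_lit 4) (nat_lit 2845) (nat_lit 1) (.two (nat_lit 11) (nat_lit 1) (nat_lit 3376) (nat_lit 4) (.two (nat_lit 0) (nat_lit 1) (nat_lit 2466) (nat_lit 4) (.one (nat_lit 3343) (nat_lit 1) .nil))))),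
   .der (nat_lit 152) (nat_lit 8),
   .der (nat_lit 150) (nat_lit 74),
   .der (nat_lit 2390) (nat_lit 421),
   .prs (.two (nat_lit 3378) (nat_lit 4) (nat_lit 1341) (nat_lit 8) (.two (nat_lit 325) (nat_lit 8) (nat_lit 3379) (nat_lit 4) (.two (nat_lit 0) (nat_lit 8) (nat_lit 3380) (nat_lit 4) .nil))),
   .der (nat_lit 1299) (nat_lit 72),
   .der (nat_lit 86) (nat_lit 414),
   .der (nat_lit 129) (nat_lit 2216),
   .prs (.two (nat_lit 6) (nat_lit 4) (nat_lit 386) (nat_lit 8) (.two (nat_lit 2) (nat_lit 4) (nat_lit 3382) (nat_lit 1) (.two (nat_lit 1) (nat_lit 4) (nat_lit 3383) (nat_lit 1) (.two (nat_lit 0) (nat_lit 1) (nat_lit 2520) (nat_lit 4) (.one (nat_lit 3384) (nat_lit 1) .nil))))),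
   .der (nat_lit 1) (nat_lit 21),
   .der (nat_lit 33) (nat_lit 72),
   .der (nat_lit 50) (nat_lit 421),
   .prs (.two (nat_lit 1648) (nat_lit 4) (nat_lit 3386) (nat_lit 16) (.two (nat_lit 684) (nat_lit 4) (nat_lit 3387) (nat_lit 16) (.two (nat_lit 1) (nat_lit 4) (nat_lit 3388) (nat_lit 16) (.one (nat_lit 2593) (nat_lit 16) .nil)))),
   .der (nat_lit 19) (nat_lit 62),
   .der (nat_lit 1299) (nat_lit 837),
   .prs (.two (nat_lit 422) (nat_lit 2) (nat_lit 94) (nat_lit 16) (.two (nat_lit 14) (nat_lit 2) (nat_lit 3390) (nat_lit 16) (.two (nat_lit 11) (nat_lit 2) (nat_lit 3391) (nat_lit 16) (.one (nat_lit 2596) (nat_lit 16) .nil)))),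
   .der (nat_lit 4978) (nat_lit 126),
   .der (nat_lit 161) (nat_lit 524),
   .der (nat_lit 22548) (nat_lit 876),
   .der (nat_lit 161) (nat_lit 1438),
   .prs (.two (nat_lit 937) (nat_lit 1) (nat_lit 323) (nat_lit 2) (.two (nat_lit 338) (nat_lit 2) (nat_lit 3393) (nat_lit 1) (.two (nat_lit 3) (nat_lit 1) (nat_lit 3394) (nat_lit 2) (.two (nat_lit 0) (nat_lit 1) (nat_lit 3395) (nat_lit 2) (.one (nat_lit 3396) (nat_lit 1) .nil))))),
   .der (nat_lit 612) (nat_lit 50),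
   .der (nat_lit 3) (nat_lit 417),
   .prs (.two (nat_lit 227) (nat_lit 8) (nat_lit 3398) (nat_lit 1) (.two (nat_lit 34) (nat_lit 8) (nat_lit 2145) (nat_lit 1) (.two (nat_lit 1) (nat_lit 16) (nat_lit 3399) (nat_lit 1) (.one (nat_lit 1714) (nat_lit 1) .nil)))),
   .der (nat_lit 18) (nat_lit 29),
   .der (nat_lit 5218) (nat_lit 182),
   .prs (.two (nat_lit 227) (nat_lit 16) (nat_lit 3401) (nat_lit 1) (.two (nat_lit 4) (nat_lit 2) (nat_lit 1694) (nat_lit 16) (.two (nat_lit 1) (nat_lit 2) (nat_lit 3402) (nat_lit 1) (.two (nat_lit 0) (nat_lit 2) (nat_lit 1716) (nat_lit 16) (.one (nat_lit 2600) (nat_lit 1) .nil))))),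
   .prs (.two (nat_lit 489) (nat_lit 16) (nat_lit 459) (nat_lit 2) (.two (nat_lit 96) (nat_lit 2) (nat_lit 593) (nat_lit 16) (.two (nat_lit 1) (nat_lit 2) (nat_lit 2204) (nat_lit 16) (.two (nat_lit 0) (nat_lit 2) (nat_lit 1176) (nat_lit 16) (.one (nat_lit 2603) (nat_lit 16) .nil))))),
   .der (nat_lit 19) (nat_lit 1065),
   .prs (.two (nat_lit 6) (nat_lit 4) (nat_lit 520) (nat_lit 8) (.two (nat_lit 2) (nat_lit 4) (nat_lit 3286) (nat_lit 1) (.two (nat_lit 1) (nat_lit 4) (nat_lit 3287) (nat_lit 1) (.two (nat_lit 0) (nat_lit 8) (nat_lit 3405) (nat_lit 4) (.one (nat_lit 2609) (nat_lit 1) .nil))))),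
   .der (nat_lit 801) (nat_lit 101),
   .der (nat_lit 132) (nat_lit 578),
   .der (nat_lit 1554) (nat_lit 967),
   .prs (.two (nat_lit 227) (nat_lit 8) (nat_lit 1582) (nat_lit 1) (.two (nat_lit 325) (nat_lit 8) (nat_lit 3407) (nat_lit 1) (.two (nat_lit 1) (nat_lit 8) (nat_lit 3408) (nat_lit 1) (.two (nat_lit 0) (nat_lit 8) (nat_lit 3409) (nat_lit 4) (.one (nat_lit 2618) (nat_lit 4) .nil))))),
   .der (nat_lit 24916) (nat_lit 72),
   .der (nat_lit 1650) (nat_lit 864),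
   .prs (.two (nat_lit 2661) (nat_lit 4) (nat_lit 2789) (nat_lit 8) (.two (nat_lit 1068) (nat_lit 4) (nat_lit 3411) (nat_lit 8) (.two (nat_lit 3) (nat_lit 4) (nat_lit 3412) (nat_lit 8) .nil))),
   .der (nat_lit 22548) (nat_lit 24),
   .der (nat_lit 21107) (nat_lit 10),
   .der (nat_lit 2084) (nat_lit 1076),
   .der (nat_lit 1653) (nat_lit 2377),
   .prs (.two (nat_lit 3415) (nat_lit 4) (nat_lit 3414) (nat_lit 8) (.two (nat_lit 329) (nat_lit 4) (nat_lit 2674) (nat_lit 8) (.two (nat_lit 1) (nat_lit 4) (nat_lit 3416) (nat_lit 8) (.one (nat_lit 3417) (nat_lit 8) .nil)))),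
   .der (nat_lit 12658) (nat_lit 64),
   .der (nat_lit 5716) (nat_lit 453),
   .der (nat_lit 801) (nat_lit 1052),
   .prs (.two (nat_lit 36) (nat_lit 8) (nat_lit 462) (nat_lit 4) (.two (nat_lit 34) (nat_lit 8) (nat_lit 3419) (nat_lit 1) (.two (nat_lit 1) (nat_lit 8) (nat_lit 3420) (nat_lit 1) (.two (nat_lit 0) (nat_lit 8) (nat_lit 3421) (nat_lit 4) (.one (nat_lit 2621) (nat_lit 1) .nil))))),
   .der (nat_lit 1299) (nat_lit 82),
   .prs (.two (nat_lit 42) (nat_lit 16) (nat_lit 1767) (nat_lit 4) (.two (nat_lit 1068) (nat_lit 4) (nat_lit 3423) (nat_lit 16) (.one (nat_lit 1753) (nat_lit 16) .nil))),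
   .der (nat_lit 7) (nat_lit 187),
   .der (nat_lit 103) (nat_lit 897),
   .prs (.two (nat_lit 65) (nat_lit 16) (nat_lit 1239) (nat_lit 2) (.two (nat_lit 4) (nat_lit 16) (nat_lit 1822) (nat_lit 2) (.two (nat_lit 1) (nat_lit 16) (nat_lit 3425) (nat_lit 2) (.two (nat_lit 0) (nat_lit 16) (nat_lit 3426) (nat_lit 2) (.one (nat_lit 1724) (nat_lit 2) .nil))))),
   .der (nat_lit 86) (nat_lit 19),
   .prs (.two (nat_lit 42) (nat_lit 4) (nat_lit 3428) (nat_lit 16) (.two (nat_lit 3) (nat_lit 4) (nat_lit 691) (nat_lit 16) (.two (nat_lit 0) (nat_lit 16) (nat_lit 1191) (nat_lit 4) (.one (nat_lit 2691) (nat_lit 4) .nil)))),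
   .der (nat_lit 2084) (nat_lit 1176),
   .prs (.two (nat_lit 998) (nat_lit 8) (nat_lit 1059) (nat_lit 2) (.two (nat_lit 623) (nat_lit 2) (nat_lit 2846) (nat_lit 8) (.two (nat_lit 1) (nat_lit 2) (nat_lit 3430) (nat_lit 8) (.one (nat_lit 2628) (nat_lit 8) .nil)))),
   .der (nat_lit 165) (nat_lit 2255),
   .prs (.two (nat_lit 12) (nat_lit 8) (nat_lit 418) (nat_lit 1) (.two (nat_lit 7) (nat_lit 1) (nat_lit 1559) (nat_lit 8) (.two (nat_lit 0) (nat_lit 1) (nat_lit 897) (nat_lit 8) (.one (nat_lit 3432) (nat_lit 8) .nil)))),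
   .der (nat_lit 33345) (nat_lit 48),
   .der (nat_lit 18) (nat_lit 169),
   .prs (.two (nat_lit 791) (nat_lit 4) (nat_lit 3434) (nat_lit 2) (.two (nat_lit 556) (nat_lit 4) (nat_lit 39) (nat_lit 8) (.two (nat_lit 1) (nat_lit 2) (nat_lit 3435) (nat_lit 8) (.two (nat_lit 0) (nat_lit 2) (nat_lit 1727) (nat_lit 8) (.one (nat_lit 2629) (nat_lit 2) .nil))))),
   .der (nat_lit 2390) (nat_lit 923),
   .der (nat_lit 3) (nat_lit 2420),
   .prs (.two (nat_lit 6) (nat_lit 4) (nat_lit 520) (nat_lit 8) (.two (nat_lit 2) (nat_lit 4) (nat_lit 1947) (nat_lit 1) (.two (nat_lit 1) (nat_lit 8) (nat_lit 3437) (nat_lit 4) (.one (nat_lit 3438) (nat_lit 4) .nil)))),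
   .der (nat_lit 19) (nat_lit 98),
   .der (nat_lit 145) (nat_lit 508),
   .der (nat_lit 35) (nat_lit 927),
   .prs (.two (nat_lit 489) (nat_lit 4) (nat_lit 3434) (nat_lit 2) (.two (nat_lit 556) (nat_lit 4) (nat_lit 3440) (nat_lit 1) (.two (nat_lit 1) (nat_lit 4) (nat_lit 3441) (nat_lit 1) (.two (nat_lit 0) (nat_lit 2) (nat_lit 3442) (nat_lit 1) (.one (nat_lit 2633) (nat_lit 1) .nil))))),
   .der (nat_lit 1057) (nat_lit 923),
   .prs (.two (nat_lit 42) (nat_lit 8) (nat_lit 1480) (nat_lit 2) (.two (nat_lit 2) (nat_lit 8) (nat_lit 2484) (nat_lit 1) (.two (nat_lit 1) (nat_lit 8) (nat_lit 3444) (nat_lit 1) (.one (nat_lit 2548) (nat_lit 1) .nil)))),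
   .der (nat_lit 83) (nat_lit 1074),
   .prs (.two (nat_lit 397) (nat_lit 4) (nat_lit 858) (nat_lit 1) (.two (nat_lit 173) (nat_lit 1) (nat_lit 941) (nat_lit 4) (.two (nat_lit 3) (nat_lit 1) (nat_lit 1813) (nat_lit 4) (.two (nat_lit 0) (nat_lit 1) (nat_lit 3446) (nat_lit 4) (.one (nat_lit 2637) (nat_lit 4) .nil))))),
   .der (nat_lit 2) (nat_lit 76),
   .der (nat_lit 1) (nat_lit 850),
   .der (nat_lit 354) (nat_lit 1473),
   .prs (.two (nat_lit 2719) (nat_lit 2) (nat_lit 157) (nat_lit 16) (.two (nat_lit 684) (nat_lit 2) (nat_lit 3448) (nat_lit 16) (.two (nat_lit 1) (nat_lit 2) (nat_lit 3449) (nat_lit 16) (.one (nat_lit 3450) (nat_lit 16) .nil)))),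
   .der (nat_lit 1893) (nat_lit 37),
   .der (nat_lit 33) (nat_lit 1073),
   .prs (.two (nat_lit 6) (nat_lit 8) (nat_lit 717) (nat_lit 2) (.two (nat_lit 463) (nat_lit 8) (nat_lit 3452) (nat_lit 2) (.two (nat_lit 1) (nat_lit 8) (nat_lit 1445) (nat_lit 2) (.two (nat_lit 0) (nat_lit 8) (nat_lit 3453) (nat_lit 2) (.one (nat_lit 2641) (nat_lit 2) .nil))))),
   .der (nat_lit 801) (nat_lit 1070),
   .der (nat_lit 6) (nat_lit 1441),
   .prs (.two (nat_lit 129) (nat_lit 8) (nat_lit 449) (nat_lit 2) (.two (nat_lit 519) (nat_lit 8) (nat_lit 1939) (nat_lit 2) (.two (nat_lit 0) (nat_lit 8) (nat_lit 3455) (nat_lit 2) (.one (nat_lit 3456) (nat_lit 8) .nil)))),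
   .der (nat_lit 2578) (nat_lit 70),
   .der (nat_lit 165) (nat_lit 1030),
   .prs (.two (nat_lit 791) (nat_lit 2) (nat_lit 449) (nat_lit 8) (.two (nat_lit 170) (nat_lit 2) (nat_lit 3458) (nat_lit 8) (.two (nat_lit 1) (nat_lit 2) (nat_lit 3459) (nat_lit 8) (.one (nat_lit 2651) (nat_lit 8) .nil)))),
   .der (nat_lit 145) (nat_lit 57),
   .der (nat_lit 2) (nat_lit 269),
   .der (nat_lit 21107) (nat_lit 205),
   .prs (.two (nat_lit 36) (nat_lit 2) (nat_lit 3461) (nat_lit 4) (.two (nat_lit 493) (nat_lit 2) (nat_lit 3462) (nat_lit 4) (.two (nat_lit 1) (nat_lit 2) (nat_lit 3463) (nat_lit 4) (.two (nat_lit 0) (nat_lit 2) (nat_lit 1735) (nat_lit 4) (.one (nat_lit 2660) (nat_lit 2) .nil))))),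
   .der (nat_lit 22803) (nat_lit 24),
   .prs (.two (nat_lit 227) (nat_lit 2) (nat_lit 3465) (nat_lit 1) (.two (nat_lit 78) (nat_lit 1) (nat_lit 1908) (nat_lit 4) (.two (nat_lit 1) (nat_lit 2) (nat_lit 2134) (nat_lit 4) (.two (nat_lit 0) (nat_lit 2) (nat_lit 1179) (nat_lit 1) (.one (nat_lit 2664) (nat_lit 2) .nil))))),
   .der (nat_lit 3) (nat_lit 39),
   .prs (.two (nat_lit 397) (nat_lit 4) (nat_lit 410) (nat_lit 1) (.two (nat_lit 173) (nat_lit 4) (nat_lit 3467) (nat_lit 1) (.two (nat_lit 3) (nat_lit 16) (nat_lit 3110) (nat_lit 4) .nil))),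
   .der (nat_lit 1380) (nat_lit 84),
   .der (nat_lit 834) (nat_lit 192),
   .der (nat_lit 1811) (nat_lit 946),
   .der (nat_lit 340) (nat_lit 2257),
   .prs (.two (nat_lit 427) (nat_lit 2) (nat_lit 825) (nat_lit 4) (.two (nat_lit 78) (nat_lit 4) (nat_lit 3469) (nat_lit 1) (.two (nat_lit 3) (nat_lit 1) (nat_lit 3470) (nat_lit 2) (.two (nat_lit 0) (nat_lit 1) (nat_lit 3471) (nat_lit 2) (.one (nat_lit 3472) (nat_lit 2) .nil))))),
   .der (nat_lit 103) (nat_lit 172),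
   .der (nat_lit 103) (nat_lit 827),
   .der (nat_lit 162) (nat_lit 1453),
   .prs (.two (nat_lit 723) (nat_lit 1) (nat_lit 502) (nat_lit 8) (.two (nat_lit 173) (nat_lit 1) (nat_lit 3474) (nat_lit 8) (.two (nat_lit 0) (nat_lit 1) (nat_lit 3475) (nat_lit 8) (.one (nat_lit 3476) (nat_lit 8) .nil)))),
   .der (nat_lit 1107) (nat_lit 21),
   .der (nat_lit 5218) (nat_lit 113),
   .der (nat_lit 1299) (nat_lit 1441),
   .prs (.two (nat_lit 397) (nat_lit 4) (nat_lit 3478) (nat_lit 1) (.two (nat_lit 7) (nat_lit 1) (nat_lit 3479) (nat_lit 4) (.two (nat_lit 3) (nat_lit 1) (nat_lit 424) (nat_lit 4) (.two (nat_lit 0) (nat_lit 1) (nat_lit 1184) (nat_lit 4) (.one (nat_lit 3480) (nat_lit 1) .nil))))),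
   .der (nat_lit 150) (nat_lit 936),
   .prs (.two (nat_lit 65) (nat_lit 8) (nat_lit 783) (nat_lit 1) (.two (nat_lit 384) (nat_lit 1) (nat_lit 454) (nat_lit 2) (.two (nat_lit 1) (nat_lit 2) (nat_lit 2532) (nat_lit 1) (.two (nat_lit 0) (nat_lit 4) (nat_lit 3482) (nat_lit 1) (.one (nat_lit 2673) (nat_lit 8) .nil))))),
   .der (nat_lit 66) (nat_lit 921),
   .prs (.two (nat_lit 791) (nat_lit 2) (nat_lit 2845) (nat_lit 8) (.two (nat_lit 170) (nat_lit 2) (nat_lit 1172) (nat_lit 8) (.two (nat_lit 0) (nat_lit 2) (nat_lit 3484) (nat_lit 8) (.one (nat_lit 2676) (nat_lit 8) .nil)))),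
   .der (nat_lit 17185) (nat_lit 29),
   .der (nat_lit 1074) (nat_lit 172),
   .der (nat_lit 354) (nat_lit 897),
   .der (nat_lit 2) (nat_lit 1412),
   .prs (.two (nat_lit 12) (nat_lit 8) (nat_lit 3486) (nat_lit 1) (.two (nat_lit 5) (nat_lit 8) (nat_lit 2118) (nat_lit 1) (.two (nat_lit 3) (nat_lit 8) (nat_lit 3487) (nat_lit 1) (.two (nat_lit 0) (nat_lit 8) (nat_lit 3488) (nat_lit 1) (.one (nat_lit 3489) (nat_lit 1) .nil))))),
   .der (nat_lit 5716) (nat_lit 77),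
   .prs (.two (nat_lit 173) (nat_lit 1) (nat_lit 742) (nat_lit 2) (.two (nat_lit 0) (nat_lit 1) (nat_lit 3491) (nat_lit 2) (.one (nat_lit 2728) (nat_lit 2) .nil))),
   .der (nat_lit 98) (nat_lit 205),
   .der (nat_lit 6) (nat_lit 1714),
   .prs (.two (nat_lit 6) (nat_lit 8) (nat_lit 717) (nat_lit 2) (.two (nat_lit 4) (nat_lit 2) (nat_lit 3075) (nat_lit 8) (.two (nat_lit 1) (nat_lit 2) (nat_lit 3493) (nat_lit 8) (.two (nat_lit 0) (nat_lit 8) (nat_lit 3494) (nat_lit 1) .nil)))),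
   .der (nat_lit 18) (nat_lit 101),
   .der (nat_lit 1554) (nat_lit 479),
   .prs (.two (nat_lit 427) (nat_lit 2) (nat_lit 449) (nat_lit 8) (.two (nat_lit 1) (nat_lit 2) (nat_lit 3496) (nat_lit 8) (.two (nat_lit 0) (nat_lit 2) (nat_lit 3497) (nat_lit 8) (.one (nat_lit 2695) (nat_lit 1) .nil)))),
   .prs (.two (nat_lit 91) (nat_lit 16) (nat_lit 543) (nat_lit 4) (.two (nat_lit 75) (nat_lit 4) (nat_lit 390) (nat_lit 16) (.two (nat_lit 11) (nat_lit 1) (nat_lit 2690) (nat_lit 4) (.two (nat_lit 0) (nat_lit 1) (nat_lit 1193) (nat_lit 16) (.one (nat_lit 1777) (nat_lit 16) .nil)))))]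

theorem b5_step6 (h : ∀ j < 3000, Good b5T j) : ∀ j < 3500, Good b5T j := by
  intro j hj
  refine chkL_ok b5C6 3000 h (by decide +kernel) j ?_
  have h : b5C6.length = 500 := by decide +kernel
  omega

/-- certificates 3500..4000 -/
def b5C7 : List Cf :=
  [.der (nat_lit 4) (nat_lit 39),
   .der (nat_lit 65) (nat_lit 373),
   .prs (.two (nat_lit 6) (nat_lit 8) (nat_lit 3500) (nat_lit 1) (.two (nat_lit 0) (nat_lit 2) (nat_lit 3501) (nat_lit 1) (.one (nat_lit 2698) (nat_lit 8) .nil))),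
   .der (nat_lit 115) (nat_lit 131),
   .der (nat_lit 2390) (nat_lit 177),
   .der (nat_lit 24916) (nat_lit 897),
   .prs (.two (nat_lit 36) (nat_lit 2) (nat_lit 462) (nat_lit 4) (.two (nat_lit 439) (nat_lit 4) (nat_lit 3503) (nat_lit 2) (.two (nat_lit 1) (nat_lit 4) (nat_lit 3504) (nat_lit 2) (.two (nat_lit 0) (nat_lit 4) (nat_lit 3505) (nat_lit 2) (.one (nat_lit 2689) (nat_lit 2) .nil))))),
   .der (nat_lit 1073) (nat_lit 19),
   .der (nat_lit 17185) (nat_lit 670),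
   .prs (.two (nat_lit 1387) (nat_lit 1) (nat_lit 3507) (nat_lit 4) (.two (nat_lit 3) (nat_lit 1) (nat_lit 3508) (nat_lit 4) (.one (nat_lit 2699) (nat_lit 4) .nil))),
   .der (nat_lit 150) (nat_lit 73),
   .der (nat_lit 87) (nat_lit 852),
   .prs (.two (nat_lit 209) (nat_lit 4) (nat_lit 746) (nat_lit 2) (.two (nat_lit 99) (nat_lit 2) (nat_lit 965) (nat_lit 4) (.two (nat_lit 11) (nat_lit 2) (nat_lit 3510) (nat_lit 4) (.two (nat_lit 0) (nat_lit 2) (nat_lit 3511) (nat_lit 4) .nil)))),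
   .der (nat_lit 5218) (nat_lit 640),
   .prs (.two (nat_lit 44) (nat_lit 1) (nat_lit 613) (nat_lit 4) (.two (nat_lit 436) (nat_lit 1) (nat_lit 699) (nat_lit 4) (.two (nat_lit 0) (nat_lit 8) (nat_lit 3513) (nat_lit 4) (.one (nat_lit 1788) (nat_lit 1) .nil)))),
   .der (nat_lit 35) (nat_lit 77),
   .der (nat_lit 1653) (nat_lit 495),
   .der (nat_lit 145) (nat_lit 1653),
   .prs (.two (nat_lit 6) (nat_lit 8) (nat_lit 509) (nat_lit 4) (.two (nat_lit 1) (nat_lit 4) (nat_lit 3515) (nat_lit 2) (.two (nat_lit 0) (nat_lit 2) (nat_lit 3516) (nat_lit 4) (.one (nat_lit 3517) (nat_lit 2) .nil)))),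
   .der (nat_lit 86) (nat_lit 54),
   .der (nat_lit 7) (nat_lit 106),
   .der (nat_lit 103) (nat_lit 465),
   .prs (.two (nat_lit 6) (nat_lit 8) (nat_lit 53) (nat_lit 2) (.two (nat_lit 4) (nat_lit 8) (nat_lit 3519) (nat_lit 16) (.two (nat_lit 1) (nat_lit 8) (nat_lit 3520) (nat_lit 16) (.two (nat_lit 0) (nat_lit 16) (nat_lit 3521) (nat_lit 8) (.one (nat_lit 2700) (nat_lit 8) .nil))))),
   .prs (.two (nat_lit 227) (nat_lit 16) (nat_lit 111) (nat_lit 2) (.two (nat_lit 374) (nat_lit 2) (nat_lit 80) (nat_lit 16) (.two (nat_lit 11) (nat_lit 2) (nat_lit 2723) (nat_lit 1) (.two (nat_lit 0) (nat_lit 1) (nat_lit 2627) (nat_lit 16) (.one (nat_lit 2702) (nat_lit 16) .nil))))),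
   .der (nat_lit 20) (nat_lit 401),
   .prs (.two (nat_lit 456) (nat_lit 4) (nat_lit 459) (nat_lit 2) (.two (nat_lit 1) (nat_lit 4) (nat_lit 3524) (nat_lit 2) (.one (nat_lit 2587) (nat_lit 2) .nil))),
   .der (nat_lit 1299) (nat_lit 467),
   .prs (.two (nat_lit 427) (nat_lit 4) (nat_lit 825) (nat_lit 1) (.two (nat_lit 16) (nat_lit 2) (nat_lit 3526) (nat_lit 1) (.one (nat_lit 2704) (nat_lit 1) .nil))),
   .prs (.two (nat_lit 427) (nat_lit 2) (nat_lit 449) (nat_lit 8) (.two (nat_lit 1) (nat_lit 2) (nat_lit 3496) (nat_lit 8) (.two (nat_lit 0) (nat_lit 2) (nat_lit 3497) (nat_lit 8) (.one (nat_lit 2706) (nat_lit 8) .nil)))),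
   .der (nat_lit 9) (nat_lit 911),
   .prs (.two (nat_lit 1387) (nat_lit 1) (nat_lit 956) (nat_lit 8) (.two (nat_lit 3081) (nat_lit 8) (nat_lit 155) (nat_lit 1) (.two (nat_lit 3) (nat_lit 16) (nat_lit 3529) (nat_lit 8) .nil))),
   .der (nat_lit 2433) (nat_lit 115),
   .prs (.two (nat_lit 65) (nat_lit 2) (nat_lit 459) (nat_lit 4) (.two (nat_lit 1) (nat_lit 2) (nat_lit 3531) (nat_lit 4) (.two (nat_lit 0) (nat_lit 1) (nat_lit 2707) (nat_lit 4) (.one (nat_lit 2708) (nat_lit 1) .nil)))),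
   .prs (.two (nat_lit 370) (nat_lit 16) (nat_lit 100) (nat_lit 2) (.two (nat_lit 34) (nat_lit 2) (nat_lit 1530) (nat_lit 16) (.two (nat_lit 0) (nat_lit 2) (nat_lit 2768) (nat_lit 16) (.one (nat_lit 2711) (nat_lit 16) .nil)))),
   .der (nat_lit 21107) (nat_lit 1777),
   .prs (.two (nat_lit 36) (nat_lit 8) (nat_lit 2066) (nat_lit 4) (.two (nat_lit 463) (nat_lit 4) (nat_lit 80) (nat_lit 8) (.two (nat_lit 1) (nat_lit 4) (nat_lit 721) (nat_lit 1) (.two (nat_lit 0) (nat_lit 1) (nat_lit 695) (nat_lit 4) (.one (nat_lit 3534) (nat_lit 4) .nil))))),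
   .der (nat_lit 834) (nat_lit 627),
   .prs (.two (nat_lit 6) (nat_lit 8) (nat_lit 2066) (nat_lit 16) (.two (nat_lit 34) (nat_lit 8) (nat_lit 1095) (nat_lit 2) (.two (nat_lit 1) (nat_lit 16) (nat_lit 3536) (nat_lit 8) (.one (nat_lit 2716) (nat_lit 8) .nil)))),
   .der (nat_lit 10545) (nat_lit 446),
   .prs (.two (nat_lit 6) (nat_lit 8) (nat_lit 582) (nat_lit 1) (.two (nat_lit 1) (nat_lit 16) (nat_lit 3538) (nat_lit 1) (.one (nat_lit 2718) (nat_lit 1) .nil))),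
   .der (nat_lit 66) (nat_lit 29),
   .prs (.two (nat_lit 6) (nat_lit 8) (nat_lit 609) (nat_lit 1) (.two (nat_lit 2) (nat_lit 8) (nat_lit 3540) (nat_lit 1) (.two (nat_lit 1) (nat_lit 16) (nat_lit 2678) (nat_lit 1) (.one (nat_lit 1821) (nat_lit 1) .nil)))),
   .der (nat_lit 161) (nat_lit 182),
   .prs (.two (nat_lit 12) (nat_lit 16) (nat_lit 457) (nat_lit 2) (.two (nat_lit 1) (nat_lit 8) (nat_lit 3542) (nat_lit 16) (.one (nat_lit 2722) (nat_lit 16) .nil))),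
   .der (nat_lit 7) (nat_lit 1153),
   .prs (.two (nat_lit 129) (nat_lit 16) (nat_lit 1555) (nat_lit 1) (.two (nat_lit 0) (nat_lit 8) (nat_lit 3544) (nat_lit 1) (.one (nat_lit 2727) (nat_lit 1) .nil))),
   .der (nat_lit 1057) (nat_lit 653),
   .prs (.two (nat_lit 7) (nat_lit 1) (nat_lit 1204) (nat_lit 4) (.two (nat_lit 0) (nat_lit 1) (nat_lit 3546) (nat_lit 4) (.one (nat_lit 1850) (nat_lit 1) .nil))),
   .der (nat_lit 114) (nat_lit 21),
   .der (nat_lit 35) (nat_lit 255),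
   .prs (.two (nat_lit 2) (nat_lit 8) (nat_lit 3548) (nat_lit 1) (.two (nat_lit 0) (nat_lit 8) (nat_lit 3549) (nat_lit 1) (.one (nat_lit 2729) (nat_lit 1) .nil))),
   .der (nat_lit 13345) (nat_lit 98),
   .prs (.two (nat_lit 2) (nat_lit 8) (nat_lit 1950) (nat_lit 1) (.two (nat_lit 1) (nat_lit 4) (nat_lit 3551) (nat_lit 8) (.one (nat_lit 2731) (nat_lit 1) .nil))),
   .der (nat_lit 833) (nat_lit 19),
   .der (nat_lit 1074) (nat_lit 513),
   .der (nat_lit 103) (nat_lit 421),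
   .prs (.two (nat_lit 528) (nat_lit 4) (nat_lit 3553) (nat_lit 1) (.two (nat_lit 5) (nat_lit 1) (nat_lit 2281) (nat_lit 16) (.two (nat_lit 1) (nat_lit 4) (nat_lit 3554) (nat_lit 1) (.two (nat_lit 0) (nat_lit 2) (nat_lit 3555) (nat_lit 4) (.one (nat_lit 2735) (nat_lit 4) .nil))))),
   .der (nat_lit 1554) (nat_lit 549),
   .der (nat_lit 22803) (nat_lit 1653),
   .prs (.two (nat_lit 427) (nat_lit 2) (nat_lit 145) (nat_lit 4) (.two (nat_lit 5) (nat_lit 1) (nat_lit 880) (nat_lit 8) (.two (nat_lit 1) (nat_lit 2) (nat_lit 3557) (nat_lit 4) (.two (nat_lit 0) (nat_lit 8) (nat_lit 3558) (nat_lit 1) (.one (nat_lit 2788) (nat_lit 1) .nil))))),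
   .der (nat_lit 3) (nat_lit 72),
   .der (nat_lit 561) (nat_lit 857),
   .prs (.two (nat_lit 167) (nat_lit 16) (nat_lit 2336) (nat_lit 1) (.two (nat_lit 716) (nat_lit 1) (nat_lit 3560) (nat_lit 16) (.two (nat_lit 0) (nat_lit 1) (nat_lit 3561) (nat_lit 16) .nil))),
   .der (nat_lit 50) (nat_lit 1065),
   .der (nat_lit 101) (nat_lit 2740),
   .prs (.two (nat_lit 6) (nat_lit 4) (nat_lit 520) (nat_lit 8) (.two (nat_lit 2) (nat_lit 4) (nat_lit 1167) (nat_lit 8) (.two (nat_lit 1) (nat_lit 8) (nat_lit 3563) (nat_lit 4) (.one (nat_lit 3564) (nat_lit 1) .nil)))),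
   .der (nat_lit 33345) (nat_lit 31),
   .der (nat_lit 100) (nat_lit 123),
   .der (nat_lit 24916) (nat_lit 169),
   .der (nat_lit 5) (nat_lit 907),
   .prs (.two (nat_lit 1459) (nat_lit 16) (nat_lit 3566) (nat_lit 1) (.two (nat_lit 2) (nat_lit 16) (nat_lit 3567) (nat_lit 1) (.two (nat_lit 1) (nat_lit 2) (nat_lit 3568) (nat_lit 1) (.two (nat_lit 0) (nat_lit 2) (nat_lit 3569) (nat_lit 4) (.one (nat_lit 2796) (nat_lit 4) .nil))))),
   .der (nat_lit 22803) (nat_lit 74),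
   .der (nat_lit 12658) (nat_lit 1052),
   .prs (.two (nat_lit 758) (nat_lit 1) (nat_lit 301) (nat_lit 2) (.two (nat_lit 341) (nat_lit 2) (nat_lit 83) (nat_lit 1) (.two (nat_lit 3) (nat_lit 1) (nat_lit 3571) (nat_lit 2) (.two (nat_lit 0) (nat_lit 8) (nat_lit 3572) (nat_lit 2) .nil)))),
   .der (nat_lit 2323) (nat_lit 135),
   .der (nat_lit 1650) (nat_lit 827),
   .prs (.two (nat_lit 227) (nat_lit 8) (nat_lit 858) (nat_lit 16) (.two (nat_lit 34) (nat_lit 8) (nat_lit 3574) (nat_lit 16) (.two (nat_lit 3) (nat_lit 16) (nat_lit 3575) (nat_lit 8) (.one (nat_lit 2802) (nat_lit 8) .nil)))),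
   .der (nat_lit 801) (nat_lit 29),
   .der (nat_lit 36) (nat_lit 135),
   .prs (.two (nat_lit 667) (nat_lit 1) (nat_lit 3577) (nat_lit 16) (.two (nat_lit 9) (nat_lit 16) (nat_lit 3578) (nat_lit 1) (.two (nat_lit 16) (nat_lit 1) (nat_lit 2759) (nat_lit 16) (.two (nat_lit 0) (nat_lit 1) (nat_lit 1872) (nat_lit 16) (.one (nat_lit 2819) (nat_lit 16) .nil))))),
   .der (nat_lit 33345) (nat_lit 241),
   .der (nat_lit 24916) (nat_lit 205),
   .der (nat_lit 5716) (nat_lit 1022),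
   .der (nat_lit 33345) (nat_lit 2679),
   .prs (.two (nat_lit 30) (nat_lit 1) (nat_lit 990) (nat_lit 2) (.two (nat_lit 325) (nat_lit 2) (nat_lit 3580) (nat_lit 1) (.two (nat_lit 1) (nat_lit 2) (nat_lit 3581) (nat_lit 4) (.two (nat_lit 0) (nat_lit 4) (nat_lit 3582) (nat_lit 2) (.one (nat_lit 3583) (nat_lit 1) .nil))))),
   .der (nat_lit 35) (nat_lit 850),
   .der (nat_lit 101) (nat_lit 1473),
   .prs (.two (nat_lit 129) (nat_lit 16) (nat_lit 502) (nat_lit 8) (.two (nat_lit 308) (nat_lit 8) (nat_lit 3101) (nat_lit 16) (.two (nat_lit 11) (nat_lit 8) (nat_lit 3585) (nat_lit 16) (.one (nat_lit 3586) (nat_lit 16) .nil)))),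
   .der (nat_lit 801) (nat_lit 146),
   .der (nat_lit 339) (nat_lit 1078),
   .prs (.two (nat_lit 427) (nat_lit 2) (nat_lit 145) (nat_lit 4) (.two (nat_lit 75) (nat_lit 2) (nat_lit 3588) (nat_lit 4) (.two (nat_lit 1) (nat_lit 2) (nat_lit 3589) (nat_lit 4) (.one (nat_lit 2822) (nat_lit 1) .nil)))),
   .der (nat_lit 5971) (nat_lit 485),
   .prs (.two (nat_lit 427) (nat_lit 2) (nat_lit 2839) (nat_lit 16) (.two (nat_lit 556) (nat_lit 16) (nat_lit 1571) (nat_lit 2) (.two (nat_lit 0) (nat_lit 1) (nat_lit 3591) (nat_lit 2) (.one (nat_lit 2849) (nat_lit 2) .nil)))),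
   .der (nat_lit 33) (nat_lit 850),
   .der (nat_lit 86) (nat_lit 1473),
   .prs (.two (nat_lit 1459) (nat_lit 16) (nat_lit 459) (nat_lit 2) (.two (nat_lit 684) (nat_lit 2) (nat_lit 76) (nat_lit 16) (.two (nat_lit 1) (nat_lit 2) (nat_lit 3593) (nat_lit 16) (.one (nat_lit 3594) (nat_lit 16) .nil)))),
   .der (nat_lit 161) (nat_lit 177),
   .der (nat_lit 9572) (nat_lit 907),
   .prs (.two (nat_lit 174) (nat_lit 4) (nat_lit 755) (nat_lit 2) (.two (nat_lit 173) (nat_lit 4) (nat_lit 2861) (nat_lit 2) (.two (nat_lit 1) (nat_lit 2) (nat_lit 3596) (nat_lit 4) (.two (nat_lit 0) (nat_lit 4) (nat_lit 3597) (nat_lit 2) (.one (nat_lit 2826) (nat_lit 4) .nil))))),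
   .der (nat_lit 1554) (nat_lit 850),
   .prs (.two (nat_lit 537) (nat_lit 16) (nat_lit 1236) (nat_lit 1) (.two (nat_lit 3) (nat_lit 1) (nat_lit 3599) (nat_lit 16) .nil)),
   .der (nat_lit 52) (nat_lit 21),
   .der (nat_lit 5) (nat_lit 73),
   .der (nat_lit 49) (nat_lit 2633),
   .prs (.two (nat_lit 227) (nat_lit 16) (nat_lit 3601) (nat_lit 8) (.two (nat_lit 248) (nat_lit 8) (nat_lit 3602) (nat_lit 16) (.two (nat_lit 3) (nat_lit 8) (nat_lit 2174) (nat_lit 16) (.one (nat_lit 3603) (nat_lit 16) .nil)))),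
   .der (nat_lit 8) (nat_lit 187),
   .prs (.two (nat_lit 397) (nat_lit 4) (nat_lit 1095) (nat_lit 1) (.two (nat_lit 1) (nat_lit 8) (nat_lit 900) (nat_lit 4) (.two (nat_lit 0) (nat_lit 1) (nat_lit 3605) (nat_lit 4) (.one (nat_lit 2853) (nat_lit 8) .nil)))),
   .der (nat_lit 1811) (nat_lit 70),
   .der (nat_lit 1811) (nat_lit 861),
   .prs (.two (nat_lit 456) (nat_lit 4) (nat_lit 965) (nat_lit 2) (.two (nat_lit 2) (nat_lit 4) (nat_lit 3607) (nat_lit 2) (.two (nat_lit 1) (nat_lit 4) (nat_lit 3608) (nat_lit 2) .nil))),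
   .der (nat_lit 65) (nat_lit 123),
   .der (nat_lit 152) (nat_lit 601),
   .prs (.two (nat_lit 886) (nat_lit 1) (nat_lit 79) (nat_lit 16) (.two (nat_lit 341) (nat_lit 1) (nat_lit 3610) (nat_lit 16) (.two (nat_lit 0) (nat_lit 1) (nat_lit 3611) (nat_lit 16) (.one (nat_lit 1907) (nat_lit 1) .nil)))),
   .der (nat_lit 35) (nat_lit 87),
   .der (nat_lit 577) (nat_lit 461),
   .prs (.two (nat_lit 6) (nat_lit 16) (nat_lit 427) (nat_lit 2) (.two (nat_lit 75) (nat_lit 2) (nat_lit 13) (nat_lit 16) (.two (nat_lit 1) (nat_lit 2) (nat_lit 3613) (nat_lit 16) (.two (nat_lit 0) (nat_lit 2) (nat_lit 3614) (nat_lit 1) (.one (nat_lit 2855) (nat_lit 1) .nil))))),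
   .der (nat_lit 35) (nat_lit 894),
   .prs (.two (nat_lit 65) (nat_lit 2) (nat_lit 1925) (nat_lit 8) (.two (nat_lit 46) (nat_lit 8) (nat_lit 3616) (nat_lit 2) (.one (nat_lit 2833) (nat_lit 1) .nil))),
   .der (nat_lit 38163) (nat_lit 70),
   .prs (.two (nat_lit 1459) (nat_lit 2) (nat_lit 965) (nat_lit 4) (.two (nat_lit 34) (nat_lit 2) (nat_lit 3618) (nat_lit 4) (.two (nat_lit 1) (nat_lit 2) (nat_lit 3198) (nat_lit 4) .nil))),
   .der (nat_lit 1620) (nat_lit 113),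
   .der (nat_lit 3) (nat_lit 640),
   .prs (.two (nat_lit 227) (nat_lit 8) (nat_lit 147) (nat_lit 16) (.two (nat_lit 170) (nat_lit 16) (nat_lit 3620) (nat_lit 8) (.two (nat_lit 0) (nat_lit 16) (nat_lit 3621) (nat_lit 8) (.one (nat_lit 2857) (nat_lit 1) .nil)))),
   .der (nat_lit 1556) (nat_lit 59),
   .der (nat_lit 7) (nat_lit 881),
   .der (nat_lit 114) (nat_lit 1415),
   .prs (.two (nat_lit 427) (nat_lit 4) (nat_lit 3623) (nat_lit 8) (.two (nat_lit 1) (nat_lit 4) (nat_lit 2329) (nat_lit 8) (.two (nat_lit 0) (nat_lit 4) (nat_lit 3624) (nat_lit 8) (.one (nat_lit 3625) (nat_lit 4) .nil)))),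
   .der (nat_lit 19) (nat_lit 974),
   .prs (.two (nat_lit 30) (nat_lit 1) (nat_lit 2765) (nat_lit 4) (.two (nat_lit 7) (nat_lit 1) (nat_lit 1947) (nat_lit 4) (.two (nat_lit 11) (nat_lit 16) (nat_lit 3627) (nat_lit 1) (.one (nat_lit 2836) (nat_lit 1) .nil)))),
   .der (nat_lit 1890) (nat_lit 76),
   .der (nat_lit 5218) (nat_lit 407),
   .prs (.two (nat_lit 397) (nat_lit 16) (nat_lit 717) (nat_lit 2) (.two (nat_lit 3) (nat_lit 16) (nat_lit 3629) (nat_lit 2) (.two (nat_lit 0) (nat_lit 16) (nat_lit 3630) (nat_lit 2) (.one (nat_lit 1924) (nat_lit 2) .nil)))),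
   .der (nat_lit 834) (nat_lit 481),
   .der (nat_lit 1299) (nat_lit 927),
   .der (nat_lit 24916) (nat_lit 1880),
   .prs (.two (nat_lit 427) (nat_lit 2) (nat_lit 145) (nat_lit 4) (.two (nat_lit 463) (nat_lit 4) (nat_lit 1635) (nat_lit 2) (.two (nat_lit 3) (nat_lit 1) (nat_lit 3632) (nat_lit 2) (.two (nat_lit 0) (nat_lit 1) (nat_lit 3633) (nat_lit 2) (.one (nat_lit 3634) (nat_lit 4) .nil))))),
   .der (nat_lit 2339) (nat_lit 87),
   .prs (.two (nat_lit 68) (nat_lit 1) (nat_lit 561) (nat_lit 4) (.two (nat_lit 11) (nat_lit 16) (nat_lit 3636) (nat_lit 4) (.one (nat_lit 1255) (nat_lit 4) .nil))),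
   .der (nat_lit 129) (nat_lit 133),
   .der (nat_lit 8) (nat_lit 146),
   .der (nat_lit 1811) (nat_lit 551),
   .prs (.two (nat_lit 124) (nat_lit 2) (nat_lit 619) (nat_lit 1) (.two (nat_lit 374) (nat_lit 2) (nat_lit 3638) (nat_lit 1) (.two (nat_lit 3) (nat_lit 1) (nat_lit 3639) (nat_lit 2) (.two (nat_lit 0) (nat_lit 1) (nat_lit 3640) (nat_lit 2) (.one (nat_lit 2859) (nat_lit 2) .nil))))),
   .der (nat_lit 1811) (nat_lit 21),
   .der (nat_lit 834) (nat_lit 6),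
   .der (nat_lit 114) (nat_lit 93),
   .der (nat_lit 9587) (nat_lit 453),
   .prs (.two (nat_lit 3643) (nat_lit 16) (nat_lit 3642) (nat_lit 2) (.two (nat_lit 1) (nat_lit 2) (nat_lit 3644) (nat_lit 16) (.two (nat_lit 0) (nat_lit 4) (nat_lit 3645) (nat_lit 2) (.one (nat_lit 2862) (nat_lit 2) .nil)))),
   .der (nat_lit 2068) (nat_lit 670),
   .prs (.two (nat_lit 427) (nat_lit 16) (nat_lit 858) (nat_lit 1) (.two (nat_lit 11) (nat_lit 16) (nat_lit 3647) (nat_lit 1) (.one (nat_lit 2865) (nat_lit 1) .nil))),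
   .der (nat_lit 117) (nat_lit 24),
   .prs (.two (nat_lit 42) (nat_lit 4) (nat_lit 147) (nat_lit 2) (.two (nat_lit 2) (nat_lit 4) (nat_lit 3649) (nat_lit 2) (.two (nat_lit 1) (nat_lit 2) (nat_lit 2451) (nat_lit 4) (.two (nat_lit 0) (nat_lit 4) (nat_lit 1241) (nat_lit 2) (.one (nat_lit 2868) (nat_lit 4) .nil))))),
   .der (nat_lit 627) (nat_lit 1230),
   .prs (.two (nat_lit 882) (nat_lit 4) (nat_lit 1862) (nat_lit 8) (.two (nat_lit 1) (nat_lit 8) (nat_lit 3636) (nat_lit 4) (.two (nat_lit 0) (nat_lit 4) (nat_lit 3651) (nat_lit 1) (.one (nat_lit 2870) (nat_lit 1) .nil)))),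
   .der (nat_lit 1554) (nat_lit 43),
   .der (nat_lit 152) (nat_lit 123),
   .der (nat_lit 5) (nat_lit 521),
   .der (nat_lit 17185) (nat_lit 923),
   .prs (.two (nat_lit 723) (nat_lit 1) (nat_lit 1771) (nat_lit 2) (.two (nat_lit 190) (nat_lit 1) (nat_lit 3653) (nat_lit 2) (.two (nat_lit 3) (nat_lit 1) (nat_lit 3654) (nat_lit 2) (.two (nat_lit 0) (nat_lit 1) (nat_lit 3655) (nat_lit 2) (.one (nat_lit 3656) (nat_lit 1) .nil))))),
   .der (nat_lit 162) (nat_lit 31),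
   .der (nat_lit 83) (nat_lit 74),
   .prs (.two (nat_lit 227) (nat_lit 8) (nat_lit 613) (nat_lit 1) (.two (nat_lit 9) (nat_lit 1) (nat_lit 3658) (nat_lit 8) (.two (nat_lit 1) (nat_lit 16) (nat_lit 3659) (nat_lit 1) (.two (nat_lit 0) (nat_lit 16) (nat_lit 3621) (nat_lit 8) (.one (nat_lit 2871) (nat_lit 1) .nil))))),
   .der (nat_lit 132) (nat_lit 98),
   .der (nat_lit 18) (nat_lit 465),
   .prs (.two (nat_lit 12) (nat_lit 16) (nat_lit 449) (nat_lit 8) (.two (nat_lit 16) (nat_lit 1) (nat_lit 3661) (nat_lit 8) (.two (nat_lit 0) (nat_lit 1) (nat_lit 3662) (nat_lit 16) (.one (nat_lit 2872) (nat_lit 8) .nil)))),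
   .der (nat_lit 33345) (nat_lit 497),
   .prs (.two (nat_lit 30) (nat_lit 16) (nat_lit 528) (nat_lit 8) (.two (nat_lit 202) (nat_lit 8) (nat_lit 225) (nat_lit 16) (.two (nat_lit 16) (nat_lit 1) (nat_lit 3664) (nat_lit 8) (.one (nat_lit 2875) (nat_lit 16) .nil)))),
   .der (nat_lit 5) (nat_lit 108),
   .der (nat_lit 1653) (nat_lit 597),
   .prs (.two (nat_lit 227) (nat_lit 16) (nat_lit 117) (nat_lit 8) (.two (nat_lit 3) (nat_lit 8) (nat_lit 3666) (nat_lit 16) (.two (nat_lit 0) (nat_lit 8) (nat_lit 3667) (nat_lit 16) (.one (nat_lit 1928) (nat_lit 8) .nil)))),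
   .der (nat_lit 5971) (nat_lit 1102),
   .prs (.two (nat_lit 456) (nat_lit 4) (nat_lit 3465) (nat_lit 16) (.two (nat_lit 1) (nat_lit 4) (nat_lit 2813) (nat_lit 8) (.two (nat_lit 0) (nat_lit 8) (nat_lit 3669) (nat_lit 4) (.one (nat_lit 2877) (nat_lit 4) .nil)))),
   .der (nat_lit 84) (nat_lit 77),
   .der (nat_lit 65) (nat_lit 586),
   .der (nat_lit 2433) (nat_lit 1924),
   .prs (.two (nat_lit 129) (nat_lit 8) (nat_lit 253) (nat_lit 4) (.two (nat_lit 2) (nat_lit 8) (nat_lit 3671) (nat_lit 4) (.two (nat_lit 0) (nat_lit 4) (nat_lit 3672) (nat_lit 8) (.one (nat_lit 3673) (nat_lit 16) .nil)))),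
   .der (nat_lit 1300) (nat_lit 82),
   .prs (.two (nat_lit 882) (nat_lit 4) (nat_lit 569) (nat_lit 8) (.two (nat_lit 1) (nat_lit 8) (nat_lit 3675) (nat_lit 4) (.one (nat_lit 2878) (nat_lit 4) .nil))),
   .prs (.two (nat_lit 42) (nat_lit 8) (nat_lit 410) (nat_lit 16) (.two (nat_lit 11) (nat_lit 1) (nat_lit 1873) (nat_lit 8) (.one (nat_lit 2879) (nat_lit 8) .nil))),
   .prs (.two (nat_lit 12) (nat_lit 16) (nat_lit 449) (nat_lit 8) (.two (nat_lit 3) (nat_lit 1) (nat_lit 3662) (nat_lit 16) (.one (nat_lit 2881) (nat_lit 8) .nil))),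
   .der (nat_lit 29011) (nat_lit 627),
   .prs (.two (nat_lit 129) (nat_lit 4) (nat_lit 1393) (nat_lit 1) (.two (nat_lit 11) (nat_lit 2) (nat_lit 1875) (nat_lit 1) (.two (nat_lit 0) (nat_lit 2) (nat_lit 3679) (nat_lit 1) (.one (nat_lit 2882) (nat_lit 1) .nil)))),
   .der (nat_lit 577) (nat_lit 84),
   .prs (.two (nat_lit 129) (nat_lit 16) (nat_lit 1223) (nat_lit 1) (.two (nat_lit 1) (nat_lit 2) (nat_lit 3681) (nat_lit 16) (.two (nat_lit 0) (nat_lit 2) (nat_lit 1938) (nat_lit 16) (.one (nat_lit 2885) (nat_lit 2) .nil)))),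
   .der (nat_lit 1107) (nat_lit 10),
   .der (nat_lit 370) (nat_lit 135),
   .der (nat_lit 21092) (nat_lit 681),
   .prs (.two (nat_lit 1126) (nat_lit 2) (nat_lit 3683) (nat_lit 1) (.two (nat_lit 9) (nat_lit 1) (nat_lit 1223) (nat_lit 2) (.two (nat_lit 3) (nat_lit 1) (nat_lit 3684) (nat_lit 2) (.two (nat_lit 0) (nat_lit 16) (nat_lit 3685) (nat_lit 1) (.one (nat_lit 1940) (nat_lit 1) .nil))))),
   .der (nat_lit 10) (nat_lit 2695),
   .prs (.two (nat_lit 489) (nat_lit 16) (nat_lit 522) (nat_lit 4) (.two (nat_lit 1) (nat_lit 16) (nat_lit 2245) (nat_lit 4) (.two (nat_lit 0) (nat_lit 4) (nat_lit 1906) (nat_lit 16) (.one (nat_lit 3687) (nat_lit 4) .nil)))),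
   .der (nat_lit 1057) (nat_lit 135),
   .der (nat_lit 152) (nat_lit 485),
   .prs (.two (nat_lit 6) (nat_lit 4) (nat_lit 965) (nat_lit 2) (.two (nat_lit 1) (nat_lit 4) (nat_lit 3689) (nat_lit 1) (.two (nat_lit 0) (nat_lit 4) (nat_lit 3690) (nat_lit 2) (.one (nat_lit 2887) (nat_lit 2) .nil)))),
   .der (nat_lit 9587) (nat_lit 135),
   .der (nat_lit 117) (nat_lit 530),
   .prs (.two (nat_lit 227) (nat_lit 8) (nat_lit 422) (nat_lit 1) (.two (nat_lit 170) (nat_lit 16) (nat_lit 1554) (nat_lit 1) (.two (nat_lit 1) (nat_lit 16) (nat_lit 3692) (nat_lit 1) (.two (nat_lit 0) (nat_lit 16) (nat_lit 3693) (nat_lit 8) (.one (nat_lit 2889) (nat_lit 8) .nil))))),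
   .der (nat_lit 50) (nat_lit 76),
   .der (nat_lit 98) (nat_lit 441),
   .prs (.two (nat_lit 1459) (nat_lit 2) (nat_lit 124) (nat_lit 1) (.two (nat_lit 34) (nat_lit 2) (nat_lit 1390) (nat_lit 1) (.two (nat_lit 1) (nat_lit 2) (nat_lit 3695) (nat_lit 1) (.two (nat_lit 0) (nat_lit 8) (nat_lit 3696) (nat_lit 1) (.one (nat_lit 1945) (nat_lit 1) .nil))))),
   .der (nat_lit 1395) (nat_lit 54),
   .prs (.two (nat_lit 129) (nat_lit 8) (nat_lit 3698) (nat_lit 16) (.two (nat_lit 1) (nat_lit 8) (nat_lit 2840) (nat_lit 16) (.two (nat_lit 0) (nat_lit 16) (nat_lit 1250) (nat_lit 8) (.one (nat_lit 2895) (nat_lit 8) .nil)))),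
   .der (nat_lit 12658) (nat_lit 1144),
   .prs (.two (nat_lit 1387) (nat_lit 1) (nat_lit 1253) (nat_lit 16) (.two (nat_lit 4) (nat_lit 16) (nat_lit 418) (nat_lit 1) (.two (nat_lit 11) (nat_lit 16) (nat_lit 3700) (nat_lit 1) (.one (nat_lit 1954) (nat_lit 1) .nil)))),
   .prs (.two (nat_lit 30) (nat_lit 16) (nat_lit 882) (nat_lit 8) (.two (nat_lit 2) (nat_lit 8) (nat_lit 1892) (nat_lit 16) (.two (nat_lit 46) (nat_lit 4) (nat_lit 560) (nat_lit 16) (.one (nat_lit 2897) (nat_lit 8) .nil)))),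
   .der (nat_lit 2135) (nat_lit 41),
   .prs (.two (nat_lit 4) (nat_lit 8) (nat_lit 3703) (nat_lit 16) (.two (nat_lit 0) (nat_lit 16) (nat_lit 1925) (nat_lit 8) (.one (nat_lit 1282) (nat_lit 8) .nil))),
   .prs (.two (nat_lit 1203) (nat_lit 4) (nat_lit 2378) (nat_lit 1) (.one (nat_lit 1992) (nat_lit 1) .nil)),
   .der (nat_lit 152) (nat_lit 255),
   .der (nat_lit 147) (nat_lit 1812),
   .prs (.two (nat_lit 356) (nat_lit 1) (nat_lit 761) (nat_lit 8) (.two (nat_lit 11) (nat_lit 1) (nat_lit 3706) (nat_lit 8) (.one (nat_lit 3707) (nat_lit 8) .nil))),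
   .prs (.two (nat_lit 99) (nat_lit 1) (nat_lit 117) (nat_lit 8) (.two (nat_lit 0) (nat_lit 4) (nat_lit 2916) (nat_lit 1) (.one (nat_lit 2003) (nat_lit 1) .nil))),
   .der (nat_lit 801) (nat_lit 108),
   .prs (.two (nat_lit 1024) (nat_lit 1) (nat_lit 418) (nat_lit 16) (.two (nat_lit 0) (nat_lit 1) (nat_lit 3710) (nat_lit 16) (.one (nat_lit 2004) (nat_lit 16) .nil))),
   .der (nat_lit 2113) (nat_lit 24),
   .der (nat_lit 114) (nat_lit 98),
   .der (nat_lit 1107) (nat_lit 702),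
   .der (nat_lit 1107) (nat_lit 1033),
   .prs (.two (nat_lit 6) (nat_lit 4) (nat_lit 3712) (nat_lit 8) (.two (nat_lit 17) (nat_lit 4) (nat_lit 3713) (nat_lit 2) (.two (nat_lit 1) (nat_lit 8) (nat_lit 3714) (nat_lit 4) (.two (nat_lit 0) (nat_lit 1) (nat_lit 3715) (nat_lit 2) (.one (nat_lit 2904) (nat_lit 2) .nil))))),
   .der (nat_lit 2323) (nat_lit 50),
   .der (nat_lit 87) (nat_lit 287),
   .der (nat_lit 150) (nat_lit 698),
   .der (nat_lit 83) (nat_lit 1727),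
   .der (nat_lit 83) (nat_lit 2629),
   .prs (.two (nat_lit 1387) (nat_lit 8) (nat_lit 3717) (nat_lit 1) (.two (nat_lit 7) (nat_lit 8) (nat_lit 3718) (nat_lit 1) (.two (nat_lit 3) (nat_lit 1) (nat_lit 3719) (nat_lit 2) (.two (nat_lit 0) (nat_lit 1) (nat_lit 3720) (nat_lit 4) (.one (nat_lit 3721) (nat_lit 1) .nil))))),
   .der (nat_lit 86) (nat_lit 70),
   .der (nat_lit 3) (nat_lit 1406),
   .prs (.two (nat_lit 489) (nat_lit 16) (nat_lit 1480) (nat_lit 2) (.two (nat_lit 1528) (nat_lit 2) (nat_lit 3723) (nat_lit 16) (.two (nat_lit 1) (nat_lit 2) (nat_lit 417) (nat_lit 16) (.one (nat_lit 3724) (nat_lit 16) .nil)))),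
   .der (nat_lit 65) (nat_lit 135),
   .prs (.two (nat_lit 129) (nat_lit 8) (nat_lit 522) (nat_lit 4) (.two (nat_lit 383) (nat_lit 8) (nat_lit 3726) (nat_lit 4) (.two (nat_lit 1) (nat_lit 8) (nat_lit 1702) (nat_lit 2) (.two (nat_lit 0) (nat_lit 2) (nat_lit 3656) (nat_lit 4) (.one (nat_lit 2908) (nat_lit 8) .nil))))),
   .der (nat_lit 1556) (nat_lit 90),
   .der (nat_lit 2) (nat_lit 458),
   .der (nat_lit 659) (nat_lit 981),
   .prs (.two (nat_lit 12) (nat_lit 8) (nat_lit 80) (nat_lit 2) (.two (nat_lit 5) (nat_lit 8) (nat_lit 3728) (nat_lit 2) (.two (nat_lit 1) (nat_lit 2) (nat_lit 3729) (nat_lit 4) (.two (nat_lit 0) (nat_lit 2) (nat_lit 3730) (nat_lit 8) (.one (nat_lit 2911) (nat_lit 8) .nil))))),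
   .der (nat_lit 612) (nat_lit 146),
   .der (nat_lit 2353) (nat_lit 441),
   .prs (.two (nat_lit 1387) (nat_lit 8) (nat_lit 273) (nat_lit 1) (.two (nat_lit 556) (nat_lit 8) (nat_lit 3732) (nat_lit 4) (.two (nat_lit 0) (nat_lit 1) (nat_lit 3733) (nat_lit 4) (.one (nat_lit 2915) (nat_lit 4) .nil)))),
   .der (nat_lit 1300) (nat_lit 84),
   .der (nat_lit 2578) (nat_lit 972),
   .prs (.two (nat_lit 30) (nat_lit 8) (nat_lit 251) (nat_lit 1) (.two (nat_lit 1) (nat_lit 8) (nat_lit 3735) (nat_lit 1) (.two (nat_lit 0) (nat_lit 8) (nat_lit 3736) (nat_lit 1) (.one (nat_lit 2917) (nat_lit 8) .nil)))),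
   .der (nat_lit 1554) (nat_lit 624),
   .prs (.two (nat_lit 6) (nat_lit 4) (nat_lit 520) (nat_lit 8) (.two (nat_lit 1) (nat_lit 8) (nat_lit 3738) (nat_lit 4) (.one (nat_lit 2920) (nat_lit 4) .nil))),
   .der (nat_lit 1300) (nat_lit 589),
   .prs (.two (nat_lit 723) (nat_lit 16) (nat_lit 1019) (nat_lit 1) (.two (nat_lit 1214) (nat_lit 16) (nat_lit 278) (nat_lit 1) (.two (nat_lit 11) (nat_lit 1) (nat_lit 3740) (nat_lit 16) (.one (nat_lit 2922) (nat_lit 16) .nil)))),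
   .der (nat_lit 2) (nat_lit 43),
   .der (nat_lit 1057) (nat_lit 106),
   .prs (.two (nat_lit 34) (nat_lit 2) (nat_lit 3742) (nat_lit 8) (.two (nat_lit 0) (nat_lit 2) (nat_lit 3743) (nat_lit 8) (.one (nat_lit 2018) (nat_lit 8) .nil))),
   .der (nat_lit 98) (nat_lit 70),
   .der (nat_lit 36) (nat_lit 417),
   .der (nat_lit 145) (nat_lit 1534),
   .prs (.two (nat_lit 1137) (nat_lit 4) (nat_lit 1113) (nat_lit 16) (.two (nat_lit 78) (nat_lit 4) (nat_lit 3745) (nat_lit 16) (.two (nat_lit 16) (nat_lit 16) (nat_lit 3746) (nat_lit 4) (.one (nat_lit 3747) (nat_lit 4) .nil)))),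
   .der (nat_lit 1430) (nat_lit 72),
   .der (nat_lit 1811) (nat_lit 848),
   .der (nat_lit 86) (nat_lit 1450),
   .prs (.two (nat_lit 456) (nat_lit 4) (nat_lit 968) (nat_lit 2) (.two (nat_lit 383) (nat_lit 4) (nat_lit 3749) (nat_lit 2) (.two (nat_lit 1) (nat_lit 4) (nat_lit 3750) (nat_lit 2) (.one (nat_lit 3751) (nat_lit 2) .nil)))),
   .der (nat_lit 21107) (nat_lit 106),
   .der (nat_lit 29011) (nat_lit 1022),
   .prs (.two (nat_lit 918) (nat_lit 1) (nat_lit 418) (nat_lit 16) (.two (nat_lit 2) (nat_lit 16) (nat_lit 3753) (nat_lit 2) (.two (nat_lit 3) (nat_lit 1) (nat_lit 3754) (nat_lit 2) (.one (nat_lit 2944) (nat_lit 16) .nil)))),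
   .prs (.two (nat_lit 489) (nat_lit 16) (nat_lit 459) (nat_lit 2) (.two (nat_lit 206) (nat_lit 2) (nat_lit 1075) (nat_lit 16) (.two (nat_lit 1) (nat_lit 2) (nat_lit 3110) (nat_lit 16) .nil))),
   .der (nat_lit 150) (nat_lit 1616),
   .prs (.two (nat_lit 1126) (nat_lit 16) (nat_lit 1413) (nat_lit 8) (.two (nat_lit 1) (nat_lit 8) (nat_lit 3221) (nat_lit 16) (.one (nat_lit 3757) (nat_lit 16) .nil))),
   .der (nat_lit 370) (nat_lit 187),
   .prs (.two (nat_lit 42) (nat_lit 8) (nat_lit 490) (nat_lit 2) (.two (nat_lit 1) (nat_lit 8) (nat_lit 3759) (nat_lit 1) (.one (nat_lit 2976) (nat_lit 2) .nil))),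
   .der (nat_lit 67) (nat_lit 259),
   .der (nat_lit 801) (nat_lit 1104),
   .prs (.two (nat_lit 42) (nat_lit 8) (nat_lit 490) (nat_lit 2) (.two (nat_lit 1) (nat_lit 2) (nat_lit 3761) (nat_lit 1) (.two (nat_lit 0) (nat_lit 2) (nat_lit 3762) (nat_lit 1) (.one (nat_lit 2979) (nat_lit 1) .nil)))),
   .der (nat_lit 129) (nat_lit 182),
   .der (nat_lit 12658) (nat_lit 992),
   .prs (.two (nat_lit 36) (nat_lit 8) (nat_lit 127) (nat_lit 2) (.two (nat_lit 75) (nat_lit 2) (nat_lit 2350) (nat_lit 8) (.two (nat_lit 3) (nat_lit 8) (nat_lit 3764) (nat_lit 1) (.two (nat_lit 0) (nat_lit 2) (nat_lit 3765) (nat_lit 8) (.one (nat_lit 2955) (nat_lit 1) .nil))))),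
   .der (nat_lit 1620) (nat_lit 108),
   .der (nat_lit 21092) (nat_lit 521),
   .der (nat_lit 20) (nat_lit 1546),
   .prs (.two (nat_lit 65) (nat_lit 8) (nat_lit 1313) (nat_lit 1) (.two (nat_lit 4) (nat_lit 8) (nat_lit 3767) (nat_lit 1) (.two (nat_lit 1) (nat_lit 8) (nat_lit 3768) (nat_lit 1) (.two (nat_lit 0) (nat_lit 16) (nat_lit 3769) (nat_lit 8) .nil)))),
   .der (nat_lit 2323) (nat_lit 506),
   .der (nat_lit 49) (nat_lit 984),
   .prs (.two (nat_lit 30) (nat_lit 8) (nat_lit 71) (nat_lit 1) (.two (nat_lit 493) (nat_lit 8) (nat_lit 2115) (nat_lit 2) (.two (nat_lit 1) (nat_lit 2) (nat_lit 3771) (nat_lit 8) (.two (nat_lit 0) (nat_lit 1) (nat_lit 3772) (nat_lit 8) (.one (nat_lit 2958) (nat_lit 1) .nil))))),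
   .der (nat_lit 137) (nat_lit 33),
   .der (nat_lit 9) (nat_lit 82),
   .der (nat_lit 161) (nat_lit 425),
   .der (nat_lit 145) (nat_lit 1412),
   .prs (.two (nat_lit 12) (nat_lit 1) (nat_lit 3774) (nat_lit 8) (.two (nat_lit 1) (nat_lit 2) (nat_lit 3775) (nat_lit 8) (.two (nat_lit 0) (nat_lit 1) (nat_lit 3776) (nat_lit 2) (.one (nat_lit 3777) (nat_lit 2) .nil)))),
   .der (nat_lit 22548) (nat_lit 113),
   .prs (.two (nat_lit 1459) (nat_lit 8) (nat_lit 1095) (nat_lit 2) (.two (nat_lit 16) (nat_lit 2) (nat_lit 3779) (nat_lit 8) (.two (nat_lit 0) (nat_lit 2) (nat_lit 2538) (nat_lit 8) (.one (nat_lit 2983) (nat_lit 8) .nil)))),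
   .der (nat_lit 2135) (nat_lit 177),
   .der (nat_lit 18) (nat_lit 936),
   .prs (.two (nat_lit 129) (nat_lit 8) (nat_lit 490) (nat_lit 2) (.two (nat_lit 493) (nat_lit 8) (nat_lit 2653) (nat_lit 2) (.two (nat_lit 1) (nat_lit 8) (nat_lit 3781) (nat_lit 2) (.two (nat_lit 0) (nat_lit 1) (nat_lit 3782) (nat_lit 2) (.one (nat_lit 2962) (nat_lit 1) .nil))))),
   .der (nat_lit 4978) (nat_lit 50),
   .der (nat_lit 9) (nat_lit 2496),
   .prs (.two (nat_lit 129) (nat_lit 8) (nat_lit 3784) (nat_lit 1) (.two (nat_lit 4) (nat_lit 2) (nat_lit 1846) (nat_lit 8) (.two (nat_lit 1) (nat_lit 2) (nat_lit 2759) (nat_lit 8) (.two (nat_lit 0) (nat_lit 1) (nat_lit 2961) (nat_lit 8) (.one (nat_lit 3785) (nat_lit 1) .nil))))),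
   .der (nat_lit 7) (nat_lit 98),
   .der (nat_lit 659) (nat_lit 177),
   .prs (.two (nat_lit 489) (nat_lit 2) (nat_lit 628) (nat_lit 4) (.two (nat_lit 341) (nat_lit 4) (nat_lit 3787) (nat_lit 2) (.two (nat_lit 0) (nat_lit 4) (nat_lit 3788) (nat_lit 2) (.one (nat_lit 2985) (nat_lit 2) .nil)))),
   .der (nat_lit 13345) (nat_lit 126),
   .der (nat_lit 34068) (nat_lit 527),
   .der (nat_lit 86) (nat_lit 967),
   .prs (.two (nat_lit 36) (nat_lit 8) (nat_lit 127) (nat_lit 2) (.two (nat_lit 75) (nat_lit 2) (nat_lit 3790) (nat_lit 8) (.two (nat_lit 1) (nat_lit 2) (nat_lit 3791) (nat_lit 8) (.two (nat_lit 0) (nat_lit 2) (nat_lit 3792) (nat_lit 1) (.one (nat_lit 2969) (nat_lit 1) .nil))))),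
   .der (nat_lit 339) (nat_lit 39),
   .der (nat_lit 135) (nat_lit 483),
   .der (nat_lit 118) (nat_lit 1033),
   .prs (.two (nat_lit 30) (nat_lit 8) (nat_lit 71) (nat_lit 1) (.two (nat_lit 144) (nat_lit 8) (nat_lit 3794) (nat_lit 2) (.two (nat_lit 3) (nat_lit 1) (nat_lit 3795) (nat_lit 8) (.two (nat_lit 0) (nat_lit 1) (nat_lit 3796) (nat_lit 2) (.one (nat_lit 2972) (nat_lit 1) .nil))))),
   .der (nat_lit 21092) (nat_lit 146),
   .der (nat_lit 2323) (nat_lit 504),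
   .prs (.two (nat_lit 65) (nat_lit 2) (nat_lit 886) (nat_lit 4) (.two (nat_lit 341) (nat_lit 4) (nat_lit 3798) (nat_lit 2) (.two (nat_lit 0) (nat_lit 1) (nat_lit 3799) (nat_lit 2) (.one (nat_lit 2038) (nat_lit 4) .nil)))),
   .der (nat_lit 834) (nat_lit 317),
   .der (nat_lit 4) (nat_lit 485),
   .der (nat_lit 145) (nat_lit 2821),
   .prs (.two (nat_lit 1435) (nat_lit 4) (nat_lit 462) (nat_lit 8) (.two (nat_lit 1) (nat_lit 8) (nat_lit 3801) (nat_lit 4) (.two (nat_lit 0) (nat_lit 1) (nat_lit 3802) (nat_lit 8) (.one (nat_lit 3803) (nat_lit 4) .nil)))),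
   .der (nat_lit 13345) (nat_lit 429),
   .der (nat_lit 165) (nat_lit 2021),
   .prs (.two (nat_lit 543) (nat_lit 2) (nat_lit 1393) (nat_lit 4) (.two (nat_lit 16) (nat_lit 4) (nat_lit 3805) (nat_lit 1) (.one (nat_lit 3806) (nat_lit 1) .nil))),
   .der (nat_lit 21107) (nat_lit 592),
   .prs (.two (nat_lit 129) (nat_lit 8) (nat_lit 1554) (nat_lit 16) (.two (nat_lit 11) (nat_lit 16) (nat_lit 3808) (nat_lit 8) (.one (nat_lit 2987) (nat_lit 8) .nil))),
   .der (nat_lit 22548) (nat_lit 72),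
   .der (nat_lit 2339) (nat_lit 172),
   .prs (.two (nat_lit 456) (nat_lit 16) (nat_lit 1401) (nat_lit 1) (.two (nat_lit 434) (nat_lit 1) (nat_lit 3810) (nat_lit 2) (.two (nat_lit 0) (nat_lit 1) (nat_lit 3811) (nat_lit 16) (.one (nat_lit 2990) (nat_lit 16) .nil)))),
   .der (nat_lit 13345) (nat_lit 627),
   .der (nat_lit 7) (nat_lit 2587),
   .prs (.two (nat_lit 489) (nat_lit 2) (nat_lit 1095) (nat_lit 4) (.two (nat_lit 1) (nat_lit 2) (nat_lit 3813) (nat_lit 8) (.one (nat_lit 3814) (nat_lit 8) .nil))),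
   .der (nat_lit 101) (nat_lit 213),
   .der (nat_lit 354) (nat_lit 453),
   .prs (.two (nat_lit 6) (nat_lit 8) (nat_lit 49) (nat_lit 1) (.two (nat_lit 214) (nat_lit 1) (nat_lit 953) (nat_lit 8) (.two (nat_lit 1) (nat_lit 16) (nat_lit 3816) (nat_lit 1) (.two (nat_lit 0) (nat_lit 16) (nat_lit 3817) (nat_lit 1) (.one (nat_lit 2040) (nat_lit 8) .nil))))),
   .der (nat_lit 21107) (nat_lit 128),
   .der (nat_lit 37425) (nat_lit 521),
   .der (nat_lit 1430) (nat_lit 923),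
   .prs (.two (nat_lit 637) (nat_lit 2) (nat_lit 215) (nat_lit 1) (.two (nat_lit 96) (nat_lit 2) (nat_lit 3819) (nat_lit 1) (.two (nat_lit 0) (nat_lit 2) (nat_lit 3820) (nat_lit 1) (.one (nat_lit 3821) (nat_lit 2) .nil)))),
   .der (nat_lit 2339) (nat_lit 67),
   .prs (.two (nat_lit 65) (nat_lit 2) (nat_lit 886) (nat_lit 4) (.two (nat_lit 482) (nat_lit 1) (nat_lit 3823) (nat_lit 4) (.two (nat_lit 0) (nat_lit 1) (nat_lit 2924) (nat_lit 4) (.one (nat_lit 2993) (nat_lit 4) .nil)))),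
   .der (nat_lit 34068) (nat_lit 106),
   .prs (.two (nat_lit 404) (nat_lit 1) (nat_lit 1313) (nat_lit 8) (.two (nat_lit 1) (nat_lit 4) (nat_lit 3825) (nat_lit 1) (.two (nat_lit 0) (nat_lit 1) (nat_lit 2121) (nat_lit 4) (.one (nat_lit 2995) (nat_lit 8) .nil)))),
   .der (nat_lit 882) (nat_lit 698),
   .prs (.two (nat_lit 543) (nat_lit 2) (nat_lit 667) (nat_lit 4) (.two (nat_lit 361) (nat_lit 16) (nat_lit 490) (nat_lit 2) (.two (nat_lit 16) (nat_lit 4) (nat_lit 3827) (nat_lit 1) (.one (nat_lit 2998) (nat_lit 1) .nil)))),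
   .der (nat_lit 36) (nat_lit 465),
   .prs (.two (nat_lit 543) (nat_lit 4) (nat_lit 1326) (nat_lit 8) (.two (nat_lit 3) (nat_lit 8) (nat_lit 2061) (nat_lit 4) (.two (nat_lit 0) (nat_lit 2) (nat_lit 3829) (nat_lit 4) (.one (nat_lit 2999) (nat_lit 8) .nil)))),
   .der (nat_lit 1810) (nat_lit 77),
   .der (nat_lit 2113) (nat_lit 544),
   .der (nat_lit 2135) (nat_lit 1653),
   .prs (.two (nat_lit 1435) (nat_lit 4) (nat_lit 462) (nat_lit 8) (.two (nat_lit 3) (nat_lit 8) (nat_lit 3831) (nat_lit 1) (.two (nat_lit 0) (nat_lit 1) (nat_lit 3832) (nat_lit 8) (.one (nat_lit 3833) (nat_lit 1) .nil)))),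
   .der (nat_lit 354) (nat_lit 115),
   .der (nat_lit 9572) (nat_lit 544),
   .prs (.two (nat_lit 791) (nat_lit 2) (nat_lit 136) (nat_lit 1) (.two (nat_lit 463) (nat_lit 4) (nat_lit 1059) (nat_lit 2) (.two (nat_lit 1) (nat_lit 4) (nat_lit 3835) (nat_lit 2) (.two (nat_lit 0) (nat_lit 4) (nat_lit 3836) (nat_lit 2) (.one (nat_lit 3002) (nat_lit 1) .nil))))),
   .der (nat_lit 354) (nat_lit 74),
   .prs (.two (nat_lit 170) (nat_lit 4) (nat_lit 347) (nat_lit 1) (.two (nat_lit 0) (nat_lit 8) (nat_lit 3838) (nat_lit 1) (.one (nat_lit 3003) (nat_lit 4) .nil))),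
   .der (nat_lit 801) (nat_lit 41),
   .der (nat_lit 52) (nat_lit 255),
   .prs (.two (nat_lit 9) (nat_lit 16) (nat_lit 3840) (nat_lit 4) (.two (nat_lit 0) (nat_lit 16) (nat_lit 3841) (nat_lit 4) (.one (nat_lit 2065) (nat_lit 4) .nil))),
   .der (nat_lit 2593) (nat_lit 31),
   .der (nat_lit 1415) (nat_lit 336),
   .der (nat_lit 2113) (nat_lit 426),
   .prs (.two (nat_lit 741) (nat_lit 2) (nat_lit 3843) (nat_lit 8) (.two (nat_lit 3) (nat_lit 8) (nat_lit 3844) (nat_lit 2) (.two (nat_lit 0) (nat_lit 8) (nat_lit 3845) (nat_lit 2) (.one (nat_lit 2072) (nat_lit 8) .nil)))),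
   .der (nat_lit 103) (nat_lit 205),
   .der (nat_lit 152) (nat_lit 1616),
   .prs (.two (nat_lit 404) (nat_lit 8) (nat_lit 968) (nat_lit 2) (.two (nat_lit 1) (nat_lit 2) (nat_lit 3847) (nat_lit 8) (.one (nat_lit 3848) (nat_lit 8) .nil))),
   .der (nat_lit 147) (nat_lit 24),
   .der (nat_lit 10) (nat_lit 98),
   .der (nat_lit 2084) (nat_lit 432),
   .der (nat_lit 22548) (nat_lit 1033),
   .prs (.two (nat_lit 1126) (nat_lit 1) (nat_lit 3850) (nat_lit 16) (.two (nat_lit 622) (nat_lit 1) (nat_lit 3851) (nat_lit 8) (.two (nat_lit 1) (nat_lit 4) (nat_lit 3852) (nat_lit 1) (.two (nat_lit 0) (nat_lit 4) (nat_lit 3853) (nat_lit 8) (.one (nat_lit 3025) (nat_lit 8) .nil))))),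
   .der (nat_lit 145) (nat_lit 441),
   .prs (.two (nat_lit 6) (nat_lit 4) (nat_lit 2077) (nat_lit 8) (.two (nat_lit 0) (nat_lit 8) (nat_lit 3855) (nat_lit 4) (.one (nat_lit 2084) (nat_lit 8) .nil))),
   .der (nat_lit 165) (nat_lit 777),
   .der (nat_lit 67) (nat_lit 407),
   .prs (.two (nat_lit 543) (nat_lit 8) (nat_lit 590) (nat_lit 1) (.two (nat_lit 224) (nat_lit 1) (nat_lit 122) (nat_lit 8) (.two (nat_lit 1) (nat_lit 8) (nat_lit 3857) (nat_lit 1) (.two (nat_lit 0) (nat_lit 8) (nat_lit 3858) (nat_lit 1) (.one (nat_lit 3035) (nat_lit 1) .nil))))),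
   .der (nat_lit 35) (nat_lit 187),
   .der (nat_lit 2433) (nat_lit 1033),
   .prs (.two (nat_lit 1126) (nat_lit 1) (nat_lit 1322) (nat_lit 2) (.two (nat_lit 556) (nat_lit 4) (nat_lit 2118) (nat_lit 1) (.two (nat_lit 1) (nat_lit 2) (nat_lit 3860) (nat_lit 4) (.two (nat_lit 0) (nat_lit 2) (nat_lit 3861) (nat_lit 4) (.one (nat_lit 3017) (nat_lit 2) .nil))))),
   .der (nat_lit 101) (nat_lit 594),
   .prs (.two (nat_lit 397) (nat_lit 4) (nat_lit 1048) (nat_lit 1) (.two (nat_lit 341) (nat_lit 1) (nat_lit 2302) (nat_lit 4) (.two (nat_lit 0) (nat_lit 1) (nat_lit 3863) (nat_lit 4) (.one (nat_lit 2091) (nat_lit 4) .nil)))),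
   .prs (.two (nat_lit 397) (nat_lit 4) (nat_lit 1048) (nat_lit 1) (.two (nat_lit 341) (nat_lit 1) (nat_lit 2302) (nat_lit 4) (.two (nat_lit 0) (nat_lit 1) (nat_lit 1426) (nat_lit 4) (.one (nat_lit 3036) (nat_lit 4) .nil)))),
   .der (nat_lit 132) (nat_lit 453),
   .prs (.two (nat_lit 537) (nat_lit 2) (nat_lit 53) (nat_lit 8) (.two (nat_lit 710) (nat_lit 4) (nat_lit 3033) (nat_lit 8) (.two (nat_lit 0) (nat_lit 4) (nat_lit 3866) (nat_lit 8) (.one (nat_lit 3039) (nat_lit 8) .nil)))),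
   .der (nat_lit 2135) (nat_lit 123),
   .der (nat_lit 9) (nat_lit 495),
   .der (nat_lit 852) (nat_lit 1633),
   .prs (.two (nat_lit 6) (nat_lit 4) (nat_lit 209) (nat_lit 2) (.two (nat_lit 78) (nat_lit 4) (nat_lit 3868) (nat_lit 1) (.two (nat_lit 0) (nat_lit 1) (nat_lit 3869) (nat_lit 2) (.one (nat_lit 3870) (nat_lit 1) .nil)))),
   .der (nat_lit 33) (nat_lit 429),
   .der (nat_lit 83) (nat_lit 2021),
   .prs (.two (nat_lit 129) (nat_lit 4) (nat_lit 490) (nat_lit 8) (.two (nat_lit 1) (nat_lit 8) (nat_lit 3872) (nat_lit 4) (.one (nat_lit 3873) (nat_lit 4) .nil))),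
   .der (nat_lit 8) (nat_lit 113),
   .der (nat_lit 370) (nat_lit 395),
   .prs (.two (nat_lit 42) (nat_lit 4) (nat_lit 1236) (nat_lit 1) (.two (nat_lit 1) (nat_lit 4) (nat_lit 3875) (nat_lit 1) (.two (nat_lit 0) (nat_lit 4) (nat_lit 3876) (nat_lit 1) (.one (nat_lit 3051) (nat_lit 1) .nil)))),
   .der (nat_lit 118) (nat_lit 852),
   .prs (.two (nat_lit 456) (nat_lit 4) (nat_lit 459) (nat_lit 2) (.two (nat_lit 1) (nat_lit 4) (nat_lit 3878) (nat_lit 2) .nil)),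
   .prs (.two (nat_lit 6) (nat_lit 16) (nat_lit 1341) (nat_lit 8) (.two (nat_lit 325) (nat_lit 8) (nat_lit 1440) (nat_lit 16) (.one (nat_lit 3052) (nat_lit 16) .nil))),
   .der (nat_lit 2433) (nat_lit 192),
   .prs (.two (nat_lit 100) (nat_lit 2) (nat_lit 3063) (nat_lit 1) (.two (nat_lit 1) (nat_lit 8) (nat_lit 3881) (nat_lit 1) (.one (nat_lit 2102) (nat_lit 1) .nil))),
   .der (nat_lit 10) (nat_lit 77),
   .der (nat_lit 2593) (nat_lit 848),
   .prs (.two (nat_lit 1804) (nat_lit 8) (nat_lit 1245) (nat_lit 4) (.two (nat_lit 173) (nat_lit 4) (nat_lit 3883) (nat_lit 8) (.two (nat_lit 3) (nat_lit 4) (nat_lit 3884) (nat_lit 8) (.one (nat_lit 3056) (nat_lit 8) .nil)))),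
   .der (nat_lit 26386) (nat_lit 72),
   .der (nat_lit 165) (nat_lit 848),
   .der (nat_lit 1074) (nat_lit 1478),
   .prs (.two (nat_lit 791) (nat_lit 2) (nat_lit 1239) (nat_lit 8) (.two (nat_lit 170) (nat_lit 2) (nat_lit 3886) (nat_lit 8) (.two (nat_lit 1) (nat_lit 2) (nat_lit 3887) (nat_lit 8) (.one (nat_lit 3888) (nat_lit 8) .nil)))),
   .der (nat_lit 2578) (nat_lit 686),
   .prs (.two (nat_lit 590) (nat_lit 8) (nat_lit 2610) (nat_lit 1) (.two (nat_lit 622) (nat_lit 1) (nat_lit 3886) (nat_lit 8) (.two (nat_lit 0) (nat_lit 8) (nat_lit 3890) (nat_lit 4) (.one (nat_lit 2111) (nat_lit 4) .nil)))),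
   .der (nat_lit 10) (nat_lit 39),
   .der (nat_lit 137) (nat_lit 2312),
   .prs (.two (nat_lit 65) (nat_lit 8) (nat_lit 543) (nat_lit 2) (.two (nat_lit 34) (nat_lit 8) (nat_lit 968) (nat_lit 2) (.two (nat_lit 1) (nat_lit 2) (nat_lit 3892) (nat_lit 8) (.two (nat_lit 0) (nat_lit 2) (nat_lit 3234) (nat_lit 1) (.one (nat_lit 3893) (nat_lit 8) .nil))))),
   .der (nat_lit 612) (nat_lit 45),
   .der (nat_lit 1893) (nat_lit 584),
   .der (nat_lit 2339) (nat_lit 907),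
   .prs (.two (nat_lit 167) (nat_lit 1) (nat_lit 3895) (nat_lit 4) (.two (nat_lit 434) (nat_lit 1) (nat_lit 585) (nat_lit 4) (.two (nat_lit 3) (nat_lit 4) (nat_lit 3896) (nat_lit 1) (.two (nat_lit 0) (nat_lit 4) (nat_lit 3897) (nat_lit 1) (.one (nat_lit 3060) (nat_lit 1) .nil))))),
   .der (nat_lit 2084) (nat_lit 21),
   .der (nat_lit 1890) (nat_lit 67),
   .prs (.two (nat_lit 124) (nat_lit 2) (nat_lit 3899) (nat_lit 1) (.two (nat_lit 3) (nat_lit 1) (nat_lit 3900) (nat_lit 2) (.two (nat_lit 0) (nat_lit 1) (nat_lit 2511) (nat_lit 2) (.one (nat_lit 2117) (nat_lit 1) .nil)))),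
   .der (nat_lit 8) (nat_lit 41),
   .der (nat_lit 2578) (nat_lit 277),
   .prs (.two (nat_lit 144) (nat_lit 2) (nat_lit 3902) (nat_lit 1) (.two (nat_lit 0) (nat_lit 2) (nat_lit 3903) (nat_lit 1) (.one (nat_lit 2119) (nat_lit 2) .nil))),
   .der (nat_lit 18) (nat_lit 1073),
   .der (nat_lit 2433) (nat_lit 2651),
   .prs (.two (nat_lit 12) (nat_lit 8) (nat_lit 676) (nat_lit 4) (.two (nat_lit 2) (nat_lit 4) (nat_lit 880) (nat_lit 8) (.two (nat_lit 3) (nat_lit 8) (nat_lit 1460) (nat_lit 4) (.two (nat_lit 0) (nat_lit 8) (nat_lit 3905) (nat_lit 4) (.one (nat_lit 3906) (nat_lit 4) .nil))))),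
   .der (nat_lit 21092) (nat_lit 1269),
   .prs (.two (nat_lit 2) (nat_lit 16) (nat_lit 1644) (nat_lit 4) (.one (nat_lit 3908) (nat_lit 4) .nil)),
   .der (nat_lit 1395) (nat_lit 2038),
   .prs (.two (nat_lit 227) (nat_lit 2) (nat_lit 2177) (nat_lit 16) (.two (nat_lit 0) (nat_lit 4) (nat_lit 3910) (nat_lit 2) .nil)),
   .der (nat_lit 370) (nat_lit 95),
   .prs (.two (nat_lit 2) (nat_lit 4) (nat_lit 410) (nat_lit 16) (.two (nat_lit 0) (nat_lit 2) (nat_lit 3912) (nat_lit 4) (.one (nat_lit 3074) (nat_lit 4) .nil))),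
   .der (nat_lit 1811) (nat_lit 115),
   .der (nat_lit 18) (nat_lit 455),
   .prs (.two (nat_lit 12) (nat_lit 8) (nat_lit 1480) (nat_lit 2) (.two (nat_lit 11) (nat_lit 8) (nat_lit 3914) (nat_lit 2) (.two (nat_lit 0) (nat_lit 1) (nat_lit 3915) (nat_lit 2) (.one (nat_lit 2127) (nat_lit 8) .nil)))),
   .der (nat_lit 87) (nat_lit 87),
   .der (nat_lit 67) (nat_lit 205),
   .der (nat_lit 1380) (nat_lit 2660),
   .prs (.two (nat_lit 1118) (nat_lit 16) (nat_lit 83) (nat_lit 4) (.two (nat_lit 173) (nat_lit 16) (nat_lit 3917) (nat_lit 4) (.two (nat_lit 11) (nat_lit 16) (nat_lit 3918) (nat_lit 2) (.two (nat_lit 0) (nat_lit 4) (nat_lit 2138) (nat_lit 2) (.one (nat_lit 3919) (nat_lit 4) .nil))))),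
   .der (nat_lit 161) (nat_lit 24),
   .der (nat_lit 2068) (nat_lit 98),
   .der (nat_lit 22803) (nat_lit 481),
   .der (nat_lit 5716) (nat_lit 2838),
   .prs (.two (nat_lit 370) (nat_lit 16) (nat_lit 3921) (nat_lit 4) (.two (nat_lit 374) (nat_lit 16) (nat_lit 3922) (nat_lit 2) (.two (nat_lit 3) (nat_lit 4) (nat_lit 3923) (nat_lit 16) (.two (nat_lit 0) (nat_lit 2) (nat_lit 2219) (nat_lit 16) (.one (nat_lit 3924) (nat_lit 2) .nil))))),
   .der (nat_lit 371) (nat_lit 48),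
   .der (nat_lit 49) (nat_lit 146),
   .der (nat_lit 1) (nat_lit 555),
   .prs (.two (nat_lit 227) (nat_lit 2) (nat_lit 3926) (nat_lit 8) (.two (nat_lit 5) (nat_lit 8) (nat_lit 3927) (nat_lit 2) (.two (nat_lit 1) (nat_lit 2) (nat_lit 3928) (nat_lit 4) (.two (nat_lit 0) (nat_lit 8) (nat_lit 2136) (nat_lit 2) .nil)))),
   .der (nat_lit 84) (nat_lit 21),
   .der (nat_lit 4) (nat_lit 72),
   .der (nat_lit 612) (nat_lit 177),
   .der (nat_lit 371) (nat_lit 906),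
   .prs (.two (nat_lit 100) (nat_lit 2) (nat_lit 3930) (nat_lit 1) (.two (nat_lit 34) (nat_lit 2) (nat_lit 3931) (nat_lit 1) (.two (nat_lit 1) (nat_lit 2) (nat_lit 3932) (nat_lit 1) (.two (nat_lit 0) (nat_lit 2) (nat_lit 3933) (nat_lit 1) (.one (nat_lit 3089) (nat_lit 1) .nil))))),
   .der (nat_lit 66) (nat_lit 39),
   .der (nat_lit 137) (nat_lit 524),
   .der (nat_lit 137) (nat_lit 1438),
   .prs (.two (nat_lit 1459) (nat_lit 2) (nat_lit 2845) (nat_lit 1) (.two (nat_lit 361) (nat_lit 2) (nat_lit 3935) (nat_lit 1) (.two (nat_lit 1) (nat_lit 2) (nat_lit 3936) (nat_lit 1) (.two (nat_lit 0) (nat_lit 2) (nat_lit 1359) (nat_lit 1) (.one (nat_lit 3937) (nat_lit 2) .nil))))),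
   .der (nat_lit 801) (nat_lit 87),
   .der (nat_lit 1057) (nat_lit 477),
   .prs (.two (nat_lit 528) (nat_lit 8) (nat_lit 2719) (nat_lit 4) (.two (nat_lit 99) (nat_lit 1) (nat_lit 3939) (nat_lit 16) (.two (nat_lit 0) (nat_lit 1) (nat_lit 3940) (nat_lit 16) (.one (nat_lit 3098) (nat_lit 8) .nil)))),
   .der (nat_lit 882) (nat_lit 135),
   .der (nat_lit 659) (nat_lit 1052),
   .prs (.two (nat_lit 91) (nat_lit 2) (nat_lit 676) (nat_lit 4) (.two (nat_lit 5) (nat_lit 8) (nat_lit 3942) (nat_lit 2) (.two (nat_lit 1) (nat_lit 2) (nat_lit 3928) (nat_lit 4) (.two (nat_lit 0) (nat_lit 8) (nat_lit 3943) (nat_lit 2) (.one (nat_lit 1473) (nat_lit 2) .nil))))),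
   .der (nat_lit 561) (nat_lit 73),
   .der (nat_lit 1810) (nat_lit 1052),
   .prs (.two (nat_lit 28) (nat_lit 16) (nat_lit 352) (nat_lit 1) (.two (nat_lit 1068) (nat_lit 1) (nat_lit 3945) (nat_lit 16) (.two (nat_lit 0) (nat_lit 1) (nat_lit 3946) (nat_lit 16) .nil))),
   .der (nat_lit 103) (nat_lit 93),
   .der (nat_lit 137) (nat_lit 601),
   .der (nat_lit 150) (nat_lit 2277),
   .prs (.two (nat_lit 427) (nat_lit 4) (nat_lit 94) (nat_lit 2) (.two (nat_lit 17) (nat_lit 2) (nat_lit 3948) (nat_lit 4) (.two (nat_lit 1) (nat_lit 2) (nat_lit 3949) (nat_lit 4) (.two (nat_lit 0) (nat_lit 2) (nat_lit 2147) (nat_lit 4) (.one (nat_lit 3950) (nat_lit 4) .nil))))),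
   .der (nat_lit 1057) (nat_lit 72),
   .der (nat_lit 17185) (nat_lit 952),
   .prs (.two (nat_lit 882) (nat_lit 4) (nat_lit 2873) (nat_lit 1) (.two (nat_lit 519) (nat_lit 4) (nat_lit 3952) (nat_lit 1) (.two (nat_lit 1) (nat_lit 4) (nat_lit 3953) (nat_lit 1) (.one (nat_lit 3096) (nat_lit 1) .nil)))),
   .der (nat_lit 19) (nat_lit 84),
   .der (nat_lit 2) (nat_lit 1241),
   .prs (.two (nat_lit 1387) (nat_lit 1) (nat_lit 1333) (nat_lit 2) (.two (nat_lit 7) (nat_lit 1) (nat_lit 3246) (nat_lit 2) (.two (nat_lit 3) (nat_lit 1) (nat_lit 3955) (nat_lit 2) (.two (nat_lit 0) (nat_lit 1) (nat_lit 3956) (nat_lit 2) (.one (nat_lit 2154) (nat_lit 1) .nil))))),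
   .der (nat_lit 86) (nat_lit 465),
   .prs (.two (nat_lit 6) (nat_lit 8) (nat_lit 717) (nat_lit 16) (.two (nat_lit 1) (nat_lit 16) (nat_lit 3958) (nat_lit 8) (.one (nat_lit 3100) (nat_lit 8) .nil))),
   .der (nat_lit 162) (nat_lit 59),
   .der (nat_lit 2593) (nat_lit 451),
   .prs (.two (nat_lit 456) (nat_lit 4) (nat_lit 2073) (nat_lit 1) (.two (nat_lit 7) (nat_lit 8) (nat_lit 3960) (nat_lit 1) (.two (nat_lit 0) (nat_lit 8) (nat_lit 3961) (nat_lit 1) (.one (nat_lit 3102) (nat_lit 1) .nil)))),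
   .der (nat_lit 1122) (nat_lit 15),
   .der (nat_lit 101) (nat_lit 87),
   .der (nat_lit 2) (nat_lit 2151),
   .prs (.two (nat_lit 404) (nat_lit 8) (nat_lit 3963) (nat_lit 1) (.two (nat_lit 4) (nat_lit 2) (nat_lit 1582) (nat_lit 8) (.two (nat_lit 3) (nat_lit 1) (nat_lit 3964) (nat_lit 2) (.two (nat_lit 0) (nat_lit 1) (nat_lit 1365) (nat_lit 8) (.one (nat_lit 3965) (nat_lit 2) .nil))))),
   .der (nat_lit 135) (nat_lit 39),
   .der (nat_lit 371) (nat_lit 657),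
   .prs (.two (nat_lit 147) (nat_lit 2) (nat_lit 1333) (nat_lit 1) (.two (nat_lit 434) (nat_lit 1) (nat_lit 3967) (nat_lit 2) (.two (nat_lit 0) (nat_lit 2) (nat_lit 3968) (nat_lit 1) (.one (nat_lit 2160) (nat_lit 2) .nil)))),
   .der (nat_lit 37425) (nat_lit 657),
   .prs (.two (nat_lit 42) (nat_lit 4) (nat_lit 408) (nat_lit 16) (.two (nat_lit 0) (nat_lit 16) (nat_lit 3970) (nat_lit 4) (.one (nat_lit 2162) (nat_lit 4) .nil))),
   .der (nat_lit 2323) (nat_lit 77),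
   .prs (.two (nat_lit 227) (nat_lit 16) (nat_lit 1767) (nat_lit 4) (.two (nat_lit 34) (nat_lit 16) (nat_lit 3972) (nat_lit 4) (.two (nat_lit 0) (nat_lit 16) (nat_lit 2141) (nat_lit 4) .nil))),
   .der (nat_lit 7) (nat_lit 95),
   .prs (.two (nat_lit 384) (nat_lit 1) (nat_lit 94) (nat_lit 16) (.two (nat_lit 0) (nat_lit 4) (nat_lit 3974) (nat_lit 1) (.one (nat_lit 3104) (nat_lit 16) .nil))),
   .der (nat_lit 145) (nat_lit 106),
   .prs (.two (nat_lit 2) (nat_lit 4) (nat_lit 47) (nat_lit 1) (.two (nat_lit 1) (nat_lit 16) (nat_lit 38) (nat_lit 1) (.two (nat_lit 0) (nat_lit 16) (nat_lit 3976) (nat_lit 1) (.one (nat_lit 3106) (nat_lit 1) .nil)))),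
   .prs (.two (nat_lit 384) (nat_lit 8) (nat_lit 1854) (nat_lit 1) (.two (nat_lit 3) (nat_lit 8) (nat_lit 3103) (nat_lit 1) (.one (nat_lit 2167) (nat_lit 1) .nil))),
   .der (nat_lit 98) (nat_lit 2180),
   .der (nat_lit 801) (nat_lit 3112),
   .prs (.two (nat_lit 13) (nat_lit 4) (nat_lit 1722) (nat_lit 8) (.two (nat_lit 2) (nat_lit 4) (nat_lit 3226) (nat_lit 1) (.two (nat_lit 1) (nat_lit 2) (nat_lit 3136) (nat_lit 4) (.two (nat_lit 0) (nat_lit 1) (nat_lit 3979) (nat_lit 2) (.one (nat_lit 3980) (nat_lit 1) .nil))))),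
   .der (nat_lit 801) (nat_lit 421),
   .der (nat_lit 1) (nat_lit 864),
   .der (nat_lit 49) (nat_lit 3122),
   .prs (.two (nat_lit 13) (nat_lit 4) (nat_lit 1397) (nat_lit 8) (.two (nat_lit 1161) (nat_lit 8) (nat_lit 3982) (nat_lit 1) (.two (nat_lit 1) (nat_lit 4) (nat_lit 3983) (nat_lit 8) (.two (nat_lit 0) (nat_lit 1) (nat_lit 2199) (nat_lit 4) (.one (nat_lit 3984) (nat_lit 4) .nil))))),
   .der (nat_lit 16738) (nat_lit 59),
   .der (nat_lit 150) (nat_lit 425),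
   .prs (.two (nat_lit 127) (nat_lit 4) (nat_lit 717) (nat_lit 2) (.two (nat_lit 28) (nat_lit 4) (nat_lit 3986) (nat_lit 1) (.two (nat_lit 78) (nat_lit 1) (nat_lit 1460) (nat_lit 4) (.two (nat_lit 1) (nat_lit 2) (nat_lit 3987) (nat_lit 1) (.two (nat_lit 0) (nat_lit 2) (nat_lit 1421) (nat_lit 4) (.one (nat_lit 3175) (nat_lit 2) .nil)))))),
   .der (nat_lit 9) (nat_lit 19),
   .der (nat_lit 35) (nat_lit 72),
   .prs (.two (nat_lit 676) (nat_lit 8) (nat_lit 3989) (nat_lit 4) (.two (nat_lit 6) (nat_lit 4) (nat_lit 3990) (nat_lit 2) (.two (nat_lit 2) (nat_lit 8) (nat_lit 187) (nat_lit 1) (.two (nat_lit 1) (nat_lit 2) (nat_lit 894) (nat_lit 1) (.two (nat_lit 0) (nat_lit 1) (nat_lit 2216) (nat_lit 2) (.one (nat_lit 3176) (nat_lit 1) .nil)))))),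
   .der (nat_lit 5218) (nat_lit 73),
   .der (nat_lit 38163) (nat_lit 417),
   .der (nat_lit 38163) (nat_lit 861),
   .der (nat_lit 612) (nat_lit 2188),
   .prs (.two (nat_lit 794) (nat_lit 4) (nat_lit 674) (nat_lit 2) (.two (nat_lit 209) (nat_lit 4) (nat_lit 3992) (nat_lit 2) (.two (nat_lit 22) (nat_lit 2) (nat_lit 3993) (nat_lit 4) (.two (nat_lit 0) (nat_lit 2) (nat_lit 3994) (nat_lit 4) (.one (nat_lit 3995) (nat_lit 2) .nil))))),
   .der (nat_lit 561) (nat_lit 421),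
   .der (nat_lit 129) (nat_lit 864),
   .prs (.two (nat_lit 825) (nat_lit 16) (nat_lit 3930) (nat_lit 1) (.two (nat_lit 723) (nat_lit 16) (nat_lit 3931) (nat_lit 1) (.two (nat_lit 308) (nat_lit 1) (nat_lit 3997) (nat_lit 16) (.two (nat_lit 0) (nat_lit 1) (nat_lit 3998) (nat_lit 16) (.one (nat_lit 2220) (nat_lit 16) .nil)))))]

theorem b5_step7 (h : ∀ j < 3500, Good b5T j) : ∀ j < 4000, Good b5T j := by
  intro j hj
  refine chkL_ok b5C7 3500 h (by decide +kernel) j ?_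
  have h : b5C7.length = 500 := by decide +kernel
  omega


end Tab

end Pool.Agent.Work.MP_bf01b2_co.MR
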