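import Pool.Agent.Work.MP_bf01b2_co.MR.B5T

set_option maxRecDepth 100000

namespace Pool.Agent.Work.MP_bf01b2_co.MR

namespace Tab

/-- certificates 4000..4500 -/
def b5C8 : List Cf :=
  [.der (nat_lit 1415) (nat_lit 379),
   .der (nat_lit 9) (nat_lit 1377),
   .prs (.two (nat_lit 1113) (nat_lit 2) (nat_lit 932) (nat_lit 4) (.two (nat_lit 99) (nat_lit 2) (nat_lit 4000) (nat_lit 4) (.two (nat_lit 16) (nat_lit 2) (nat_lit 4001) (nat_lit 4) (.one (nat_lit 3180) (nat_lit 4) .nil)))),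
   .der (nat_lit 38163) (nat_lit 369),
   .der (nat_lit 38163) (nat_lit 824),
   .prs (.two (nat_lit 1113) (nat_lit 2) (nat_lit 965) (nat_lit 4) (.two (nat_lit 111) (nat_lit 4) (nat_lit 1307) (nat_lit 2) (.two (nat_lit 374) (nat_lit 2) (nat_lit 4003) (nat_lit 4) (.two (nat_lit 16) (nat_lit 2) (nat_lit 4004) (nat_lit 4) (.two (nat_lit 0) (nat_lit 2) (nat_lit 2222) (nat_lit 4) (.one (nat_lit 3184) (nat_lit 2) .nil)))))),
   .der (nat_lit 13345) (nat_lit 82),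
   .der (nat_lit 17185) (nat_lit 892),
   .der (nat_lit 17185) (nat_lit 2197),
   .der (nat_lit 833) (nat_lit 3118),
   .prs (.two (nat_lit 794) (nat_lit 2) (nat_lit 2793) (nat_lit 8) (.two (nat_lit 78) (nat_lit 1) (nat_lit 4006) (nat_lit 8) (.two (nat_lit 1) (nat_lit 2) (nat_lit 4007) (nat_lit 8) (.two (nat_lit 0) (nat_lit 1) (nat_lit 4008) (nat_lit 8) (.one (nat_lit 4009) (nat_lit 1) .nil))))),
   .der (nat_lit 67) (nat_lit 892),
   .der (nat_lit 8) (nat_lit 2203),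
   .prs (.two (nat_lit 440) (nat_lit 2) (nat_lit 1200) (nat_lit 4) (.two (nat_lit 489) (nat_lit 4) (nat_lit 1517) (nat_lit 2) (.two (nat_lit 433) (nat_lit 4) (nat_lit 429) (nat_lit 2) (.two (nat_lit 1) (nat_lit 2) (nat_lit 4011) (nat_lit 4) (.two (nat_lit 0) (nat_lit 1) (nat_lit 4012) (nat_lit 2) .nil))))),
   .der (nat_lit 8) (nat_lit 1421),
   .prs (.two (nat_lit 390) (nat_lit 8) (nat_lit 94) (nat_lit 2) (.two (nat_lit 100) (nat_lit 8) (nat_lit 95) (nat_lit 1) (.two (nat_lit 5) (nat_lit 1) (nat_lit 1410) (nat_lit 8) (.two (nat_lit 1) (nat_lit 2) (nat_lit 1713) (nat_lit 1) (.two (nat_lit 0) (nat_lit 2) (nat_lit 4014) (nat_lit 8) (.one (nat_lit 2227) (nat_lit 2) .nil)))))),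
   .prs (.two (nat_lit 440) (nat_lit 2) (nat_lit 1000) (nat_lit 4) (.two (nat_lit 65) (nat_lit 2) (nat_lit 3948) (nat_lit 4) (.two (nat_lit 710) (nat_lit 4) (nat_lit 435) (nat_lit 1) (.two (nat_lit 46) (nat_lit 4) (nat_lit 3388) (nat_lit 1) (.two (nat_lit 0) (nat_lit 1) (nat_lit 1428) (nat_lit 2) (.one (nat_lit 3187) (nat_lit 1) .nil)))))),
   .der (nat_lit 2593) (nat_lit 95),
   .der (nat_lit 2433) (nat_lit 425),
   .der (nat_lit 10) (nat_lit 3132),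
   .prs (.two (nat_lit 676) (nat_lit 4) (nat_lit 4017) (nat_lit 8) (.two (nat_lit 2) (nat_lit 4) (nat_lit 4018) (nat_lit 8) (.two (nat_lit 0) (nat_lit 1) (nat_lit 3994) (nat_lit 4) (.one (nat_lit 4019) (nat_lit 8) .nil)))),
   .der (nat_lit 1074) (nat_lit 21),
   .der (nat_lit 2353) (nat_lit 74),
   .der (nat_lit 2353) (nat_lit 407),
   .prs (.two (nat_lit 537) (nat_lit 2) (nat_lit 4021) (nat_lit 1) (.two (nat_lit 5) (nat_lit 1) (nat_lit 4022) (nat_lit 4) (.two (nat_lit 1) (nat_lit 2) (nat_lit 4023) (nat_lit 4) (.two (nat_lit 0) (nat_lit 1) (nat_lit 1454) (nat_lit 4) (.one (nat_lit 3204) (nat_lit 2) .nil))))),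
   .der (nat_lit 2339) (nat_lit 392),
   .der (nat_lit 2339) (nat_lit 837),
   .der (nat_lit 86) (nat_lit 2203),
   .prs (.two (nat_lit 440) (nat_lit 2) (nat_lit 3348) (nat_lit 4) (.two (nat_lit 5) (nat_lit 1) (nat_lit 4025) (nat_lit 4) (.two (nat_lit 1) (nat_lit 2) (nat_lit 4026) (nat_lit 4) (.two (nat_lit 0) (nat_lit 1) (nat_lit 2232) (nat_lit 4) (.one (nat_lit 4027) (nat_lit 2) .nil))))),
   .der (nat_lit 33345) (nat_lit 93),
   .der (nat_lit 339) (nat_lit 3187),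
   .prs (.two (nat_lit 676) (nat_lit 4) (nat_lit 1302) (nat_lit 1) (.two (nat_lit 129) (nat_lit 4) (nat_lit 4029) (nat_lit 1) (.two (nat_lit 361) (nat_lit 2) (nat_lit 438) (nat_lit 1) (.two (nat_lit 3) (nat_lit 4) (nat_lit 889) (nat_lit 1) (.two (nat_lit 0) (nat_lit 2) (nat_lit 2236) (nat_lit 1) (.one (nat_lit 4030) (nat_lit 2) .nil)))))),
   .prs (.two (nat_lit 13) (nat_lit 8) (nat_lit 522) (nat_lit 1) (.two (nat_lit 65) (nat_lit 8) (nat_lit 3191) (nat_lit 1) (.two (nat_lit 2) (nat_lit 16) (nat_lit 3226) (nat_lit 1) (.two (nat_lit 0) (nat_lit 1) (nat_lit 2238) (nat_lit 8) (.one (nat_lit 3188) (nat_lit 1) .nil))))),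
   .der (nat_lit 162) (nat_lit 21),
   .der (nat_lit 129) (nat_lit 2227),
   .prs (.two (nat_lit 21) (nat_lit 4) (nat_lit 4033) (nat_lit 8) (.two (nat_lit 456) (nat_lit 4) (nat_lit 2815) (nat_lit 8) (.two (nat_lit 2) (nat_lit 4) (nat_lit 945) (nat_lit 8) (.two (nat_lit 1) (nat_lit 4) (nat_lit 897) (nat_lit 8) (.two (nat_lit 0) (nat_lit 8) (nat_lit 2241) (nat_lit 4) (.one (nat_lit 4034) (nat_lit 8) .nil)))))),
   .der (nat_lit 22803) (nat_lit 93),
   .der (nat_lit 50) (nat_lit 2188),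
   .prs (.two (nat_lit 86) (nat_lit 16) (nat_lit 109) (nat_lit 1) (.two (nat_lit 937) (nat_lit 1) (nat_lit 4036) (nat_lit 16) (.two (nat_lit 710) (nat_lit 1) (nat_lit 2592) (nat_lit 16) (.two (nat_lit 3) (nat_lit 1) (nat_lit 898) (nat_lit 16) (.two (nat_lit 0) (nat_lit 1) (nat_lit 1432) (nat_lit 16) (.one (nat_lit 4037) (nat_lit 1) .nil)))))),
   .prs (.two (nat_lit 80) (nat_lit 8) (nat_lit 3278) (nat_lit 4) (.two (nat_lit 1) (nat_lit 8) (nat_lit 1434) (nat_lit 4) (.two (nat_lit 0) (nat_lit 2) (nat_lit 1408) (nat_lit 4) (.one (nat_lit 3190) (nat_lit 4) .nil)))),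
   .der (nat_lit 6) (nat_lit 3155),
   .prs (.two (nat_lit 65) (nat_lit 2) (nat_lit 459) (nat_lit 4) (.two (nat_lit 4) (nat_lit 2) (nat_lit 1852) (nat_lit 4) (.two (nat_lit 1) (nat_lit 2) (nat_lit 4023) (nat_lit 4) (.two (nat_lit 0) (nat_lit 1) (nat_lit 1458) (nat_lit 4) (.one (nat_lit 4040) (nat_lit 1) .nil))))),
   .der (nat_lit 129) (nat_lit 1434),
   .prs (.two (nat_lit 227) (nat_lit 8) (nat_lit 2237) (nat_lit 2) (.two (nat_lit 1) (nat_lit 2) (nat_lit 4042) (nat_lit 8) (.one (nat_lit 2262) (nat_lit 1) .nil))),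
   .der (nat_lit 145) (nat_lit 77),
   .prs (.two (nat_lit 167) (nat_lit 1) (nat_lit 4044) (nat_lit 4) (.two (nat_lit 16) (nat_lit 1) (nat_lit 3511) (nat_lit 4) (.one (nat_lit 2264) (nat_lit 1) .nil))),
   .der (nat_lit 165) (nat_lit 417),
   .der (nat_lit 34068) (nat_lit 2192),
   .prs (.two (nat_lit 80) (nat_lit 8) (nat_lit 965) (nat_lit 2) (.two (nat_lit 100) (nat_lit 8) (nat_lit 3607) (nat_lit 2) (.two (nat_lit 679) (nat_lit 2) (nat_lit 4046) (nat_lit 8) (.two (nat_lit 0) (nat_lit 2) (nat_lit 4047) (nat_lit 8) .nil)))),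
   .der (nat_lit 10) (nat_lit 2238),
   .prs (.two (nat_lit 6) (nat_lit 8) (nat_lit 105) (nat_lit 16) (.two (nat_lit 2) (nat_lit 16) (nat_lit 82) (nat_lit 8) (.two (nat_lit 0) (nat_lit 1) (nat_lit 4049) (nat_lit 8) .nil))),
   .der (nat_lit 145) (nat_lit 67),
   .der (nat_lit 2433) (nat_lit 873),
   .der (nat_lit 49) (nat_lit 2241),
   .der (nat_lit 1554) (nat_lit 2210),
   .prs (.two (nat_lit 13) (nat_lit 8) (nat_lit 4051) (nat_lit 4) (.two (nat_lit 2) (nat_lit 8) (nat_lit 1460) (nat_lit 4) (.two (nat_lit 3) (nat_lit 8) (nat_lit 4052) (nat_lit 4) (.two (nat_lit 0) (nat_lit 8) (nat_lit 4053) (nat_lit 4) (.one (nat_lit 4054) (nat_lit 8) .nil))))),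
   .der (nat_lit 21107) (nat_lit 90),
   .der (nat_lit 1057) (nat_lit 169),
   .prs (.two (nat_lit 36) (nat_lit 2) (nat_lit 2652) (nat_lit 4) (.two (nat_lit 493) (nat_lit 2) (nat_lit 4056) (nat_lit 4) (.two (nat_lit 3) (nat_lit 4) (nat_lit 4057) (nat_lit 1) (.two (nat_lit 0) (nat_lit 1) (nat_lit 923) (nat_lit 2) (.one (nat_lit 3207) (nat_lit 1) .nil))))),
   .der (nat_lit 152) (nat_lit 892),
   .prs (.two (nat_lit 85) (nat_lit 4) (nat_lit 1413) (nat_lit 8) (.two (nat_lit 433) (nat_lit 4) (nat_lit 101) (nat_lit 8) (.two (nat_lit 46) (nat_lit 4) (nat_lit 1410) (nat_lit 8) (.two (nat_lit 0) (nat_lit 2) (nat_lit 4059) (nat_lit 8) (.one (nat_lit 2268) (nat_lit 8) .nil))))),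
   .prs (.two (nat_lit 71) (nat_lit 4) (nat_lit 418) (nat_lit 1) (.two (nat_lit 65) (nat_lit 2) (nat_lit 3186) (nat_lit 4) (.two (nat_lit 75) (nat_lit 2) (nat_lit 1460) (nat_lit 4) (.two (nat_lit 1) (nat_lit 2) (nat_lit 902) (nat_lit 4) (.two (nat_lit 0) (nat_lit 1) (nat_lit 2248) (nat_lit 4) (.one (nat_lit 2249) (nat_lit 1) .nil)))))),
   .der (nat_lit 10545) (nat_lit 19),
   .der (nat_lit 9572) (nat_lit 98),
   .der (nat_lit 2135) (nat_lit 2247),
   .prs (.two (nat_lit 4062) (nat_lit 1) (nat_lit 233) (nat_lit 8) (.two (nat_lit 30) (nat_lit 1) (nat_lit 4063) (nat_lit 8) (.two (nat_lit 7) (nat_lit 1) (nat_lit 1429) (nat_lit 8) (.two (nat_lit 3) (nat_lit 1) (nat_lit 904) (nat_lit 8) (.two (nat_lit 0) (nat_lit 1) (nat_lit 1444) (nat_lit 8) (.one (nat_lit 4064) (nat_lit 1) .nil)))))),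
   .der (nat_lit 17185) (nat_lit 187),
   .prs (.two (nat_lit 794) (nat_lit 4) (nat_lit 2906) (nat_lit 1) (.two (nat_lit 679) (nat_lit 2) (nat_lit 4066) (nat_lit 1) (.two (nat_lit 16) (nat_lit 4) (nat_lit 1438) (nat_lit 2) (.one (nat_lit 3196) (nat_lit 2) .nil)))),
   .der (nat_lit 2390) (nat_lit 73),
   .der (nat_lit 38163) (nat_lit 421),
   .der (nat_lit 38163) (nat_lit 864),
   .prs (.two (nat_lit 390) (nat_lit 2) (nat_lit 1848) (nat_lit 4) (.two (nat_lit 36) (nat_lit 2) (nat_lit 4068) (nat_lit 4) (.two (nat_lit 493) (nat_lit 2) (nat_lit 4069) (nat_lit 4) (.two (nat_lit 0) (nat_lit 2) (nat_lit 4070) (nat_lit 4) (.one (nat_lit 3199) (nat_lit 2) .nil))))),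
   .der (nat_lit 35) (nat_lit 902),
   .prs (.two (nat_lit 3386) (nat_lit 4) (nat_lit 41) (nat_lit 1) (.two (nat_lit 456) (nat_lit 4) (nat_lit 3315) (nat_lit 1) (.two (nat_lit 173) (nat_lit 4) (nat_lit 1437) (nat_lit 1) (.two (nat_lit 16) (nat_lit 4) (nat_lit 4072) (nat_lit 1) (.two (nat_lit 0) (nat_lit 4) (nat_lit 2251) (nat_lit 1) (.one (nat_lit 3200) (nat_lit 1) .nil)))))),
   .der (nat_lit 150) (nat_lit 33),
   .der (nat_lit 150) (nat_lit 82),
   .der (nat_lit 6) (nat_lit 904),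
   .prs (.two (nat_lit 6) (nat_lit 4) (nat_lit 4074) (nat_lit 2) (.two (nat_lit 1) (nat_lit 4) (nat_lit 4075) (nat_lit 2) (.two (nat_lit 0) (nat_lit 1) (nat_lit 4076) (nat_lit 2) (.one (nat_lit 3210) (nat_lit 2) .nil)))),
   .der (nat_lit 161) (nat_lit 98),
   .prs (.two (nat_lit 28) (nat_lit 16) (nat_lit 109) (nat_lit 1) (.two (nat_lit 173) (nat_lit 16) (nat_lit 4078) (nat_lit 1) (.two (nat_lit 3) (nat_lit 1) (nat_lit 1531) (nat_lit 16) (.two (nat_lit 0) (nat_lit 1) (nat_lit 1469) (nat_lit 16) (.one (nat_lit 3151) (nat_lit 1) .nil))))),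
   .der (nat_lit 5218) (nat_lit 62),
   .prs (.two (nat_lit 404) (nat_lit 1) (nat_lit 616) (nat_lit 2) (.two (nat_lit 384) (nat_lit 1) (nat_lit 4080) (nat_lit 2) (.two (nat_lit 1) (nat_lit 2) (nat_lit 446) (nat_lit 4) (.two (nat_lit 0) (nat_lit 2) (nat_lit 1479) (nat_lit 4) (.one (nat_lit 3211) (nat_lit 2) .nil))))),
   .der (nat_lit 9572) (nat_lit 172),
   .prs (.two (nat_lit 404) (nat_lit 1) (nat_lit 122) (nat_lit 8) (.two (nat_lit 206) (nat_lit 8) (nat_lit 1436) (nat_lit 1) (.two (nat_lit 1) (nat_lit 4) (nat_lit 4082) (nat_lit 1) (.two (nat_lit 0) (nat_lit 4) (nat_lit 939) (nat_lit 1) (.one (nat_lit 2280) (nat_lit 1) .nil))))),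
   .prs (.two (nat_lit 227) (nat_lit 8) (nat_lit 127) (nat_lit 2) (.two (nat_lit 34) (nat_lit 8) (nat_lit 2653) (nat_lit 2) (.two (nat_lit 1) (nat_lit 8) (nat_lit 448) (nat_lit 2) (.two (nat_lit 0) (nat_lit 8) (nat_lit 2282) (nat_lit 2) (.one (nat_lit 2284) (nat_lit 8) .nil))))),
   .der (nat_lit 18) (nat_lit 921),
   .prs (.two (nat_lit 167) (nat_lit 1) (nat_lit 221) (nat_lit 8) (.two (nat_lit 22) (nat_lit 1) (nat_lit 929) (nat_lit 8) (.two (nat_lit 0) (nat_lit 1) (nat_lit 4085) (nat_lit 8) (.one (nat_lit 2285) (nat_lit 8) .nil)))),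
   .der (nat_lit 1395) (nat_lit 939),
   .prs (.two (nat_lit 489) (nat_lit 4) (nat_lit 3774) (nat_lit 8) (.two (nat_lit 1) (nat_lit 4) (nat_lit 1429) (nat_lit 8) (.two (nat_lit 0) (nat_lit 4) (nat_lit 4087) (nat_lit 8) (.one (nat_lit 2291) (nat_lit 1) .nil)))),
   .der (nat_lit 1300) (nat_lit 70),
   .der (nat_lit 98) (nat_lit 172),
   .der (nat_lit 1554) (nat_lit 861),
   .prs (.two (nat_lit 94) (nat_lit 16) (nat_lit 462) (nat_lit 4) (.two (nat_lit 91) (nat_lit 16) (nat_lit 4089) (nat_lit 4) (.two (nat_lit 2090) (nat_lit 4) (nat_lit 4090) (nat_lit 16) (.two (nat_lit 1) (nat_lit 4) (nat_lit 4091) (nat_lit 16) (.one (nat_lit 2300) (nat_lit 16) .nil))))),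
   .der (nat_lit 5) (nat_lit 964),
   .prs (.two (nat_lit 105) (nat_lit 4) (nat_lit 219) (nat_lit 8) (.two (nat_lit 1333) (nat_lit 1) (nat_lit 2572) (nat_lit 4) (.two (nat_lit 202) (nat_lit 8) (nat_lit 1460) (nat_lit 4) (.two (nat_lit 1) (nat_lit 8) (nat_lit 4093) (nat_lit 4) (.two (nat_lit 0) (nat_lit 4) (nat_lit 2305) (nat_lit 1) (.one (nat_lit 2307) (nat_lit 1) .nil)))))),
   .der (nat_lit 50) (nat_lit 939),
   .prs (.two (nat_lit 456) (nat_lit 4) (nat_lit 3212) (nat_lit 16) (.two (nat_lit 34) (nat_lit 16) (nat_lit 2204) (nat_lit 4) (.two (nat_lit 0) (nat_lit 16) (nat_lit 4095) (nat_lit 4) (.one (nat_lit 3216) (nat_lit 4) .nil)))),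
   .der (nat_lit 1810) (nat_lit 39),
   .der (nat_lit 1890) (nat_lit 425),
   .prs (.two (nat_lit 71) (nat_lit 1) (nat_lit 502) (nat_lit 2) (.two (nat_lit 370) (nat_lit 1) (nat_lit 4097) (nat_lit 2) (.two (nat_lit 308) (nat_lit 2) (nat_lit 4098) (nat_lit 1) (.two (nat_lit 0) (nat_lit 8) (nat_lit 2317) (nat_lit 2) .nil)))),
   .der (nat_lit 100) (nat_lit 417),
   .der (nat_lit 67) (nat_lit 864),
   .der (nat_lit 17185) (nat_lit 3229),
   .prs (.two (nat_lit 71) (nat_lit 4) (nat_lit 415) (nat_lit 16) (.two (nat_lit 370) (nat_lit 4) (nat_lit 1548) (nat_lit 16) (.two (nat_lit 1068) (nat_lit 4) (nat_lit 4100) (nat_lit 2) (.two (nat_lit 3) (nat_lit 4) (nat_lit 4101) (nat_lit 16) (.two (nat_lit 0) (nat_lit 2) (nat_lit 2327) (nat_lit 16) (.one (nat_lit 4102) (nat_lit 2) .nil)))))),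
   .der (nat_lit 165) (nat_lit 110),
   .der (nat_lit 370) (nat_lit 952),
   .prs (.two (nat_lit 122) (nat_lit 4) (nat_lit 1059) (nat_lit 1) (.two (nat_lit 537) (nat_lit 1) (nat_lit 4104) (nat_lit 16) (.two (nat_lit 439) (nat_lit 4) (nat_lit 1061) (nat_lit 1) (.two (nat_lit 1) (nat_lit 16) (nat_lit 4105) (nat_lit 1) (.two (nat_lit 0) (nat_lit 1) (nat_lit 2349) (nat_lit 4) (.one (nat_lit 3282) (nat_lit 4) .nil)))))),
   .der (nat_lit 2193) (nat_lit 106),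
   .der (nat_lit 5971) (nat_lit 177),
   .der (nat_lit 834) (nat_lit 936),
   .der (nat_lit 2193) (nat_lit 1478),
   .prs (.two (nat_lit 520) (nat_lit 4) (nat_lit 4107) (nat_lit 1) (.two (nat_lit 2) (nat_lit 4) (nat_lit 4108) (nat_lit 2) (.two (nat_lit 1) (nat_lit 8) (nat_lit 4109) (nat_lit 4) (.two (nat_lit 0) (nat_lit 4) (nat_lit 4110) (nat_lit 8) (.one (nat_lit 3285) (nat_lit 8) .nil))))),
   .der (nat_lit 8) (nat_lit 27),
   .prs (.two (nat_lit 440) (nat_lit 2) (nat_lit 4112) (nat_lit 8) (.two (nat_lit 6) (nat_lit 8) (nat_lit 1502) (nat_lit 1) (.two (nat_lit 4) (nat_lit 8) (nat_lit 3493) (nat_lit 4) (.two (nat_lit 3) (nat_lit 4) (nat_lit 952) (nat_lit 2) (.two (nat_lit 0) (nat_lit 2) (nat_lit 3222) (nat_lit 4) (.one (nat_lit 3288) (nat_lit 2) .nil)))))),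
   .der (nat_lit 4978) (nat_lit 192),
   .der (nat_lit 33) (nat_lit 894),
   .der (nat_lit 137) (nat_lit 1450),
   .prs (.two (nat_lit 676) (nat_lit 8) (nat_lit 509) (nat_lit 4) (.two (nat_lit 6) (nat_lit 8) (nat_lit 4114) (nat_lit 2) (.two (nat_lit 3) (nat_lit 4) (nat_lit 4115) (nat_lit 2) (.two (nat_lit 0) (nat_lit 8) (nat_lit 4116) (nat_lit 2) (.one (nat_lit 3291) (nat_lit 2) .nil))))),
   .der (nat_lit 117) (nat_lit 37),
   .prs (.two (nat_lit 6) (nat_lit 8) (nat_lit 4118) (nat_lit 2) (.two (nat_lit 1) (nat_lit 8) (nat_lit 1539) (nat_lit 2) .nil)),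
   .der (nat_lit 17185) (nat_lit 76),
   .der (nat_lit 2339) (nat_lit 904),
   .der (nat_lit 84) (nat_lit 2292),
   .prs (.two (nat_lit 440) (nat_lit 8) (nat_lit 759) (nat_lit 1) (.two (nat_lit 791) (nat_lit 4) (nat_lit 4120) (nat_lit 1) (.two (nat_lit 338) (nat_lit 8) (nat_lit 1437) (nat_lit 1) (.two (nat_lit 16) (nat_lit 4) (nat_lit 4121) (nat_lit 1) (.two (nat_lit 0) (nat_lit 4) (nat_lit 4122) (nat_lit 1) (.one (nat_lit 2353) (nat_lit 4) .nil)))))),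
   .der (nat_lit 561) (nat_lit 417),
   .der (nat_lit 115) (nat_lit 1396),
   .prs (.two (nat_lit 13) (nat_lit 4) (nat_lit 520) (nat_lit 8) (.two (nat_lit 129) (nat_lit 8) (nat_lit 1559) (nat_lit 1) (.two (nat_lit 1) (nat_lit 4) (nat_lit 4124) (nat_lit 1) (.two (nat_lit 0) (nat_lit 4) (nat_lit 4125) (nat_lit 1) (.one (nat_lit 3293) (nat_lit 4) .nil))))),
   .der (nat_lit 21107) (nat_lit 70),
   .der (nat_lit 1) (nat_lit 199),
   .der (nat_lit 10) (nat_lit 1534),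
   .der (nat_lit 1890) (nat_lit 2317),
   .prs (.two (nat_lit 13) (nat_lit 8) (nat_lit 1200) (nat_lit 4) (.two (nat_lit 456) (nat_lit 8) (nat_lit 4127) (nat_lit 4) (.two (nat_lit 1203) (nat_lit 4) (nat_lit 4128) (nat_lit 8) (.two (nat_lit 16) (nat_lit 2) (nat_lit 4129) (nat_lit 8) (.one (nat_lit 4130) (nat_lit 8) .nil))))),
   .der (nat_lit 9) (nat_lit 73),
   .der (nat_lit 1057) (nat_lit 952),
   .prs (.two (nat_lit 858) (nat_lit 1) (nat_lit 509) (nat_lit 4) (.two (nat_lit 1118) (nat_lit 1) (nat_lit 4132) (nat_lit 4) (.two (nat_lit 3081) (nat_lit 4) (nat_lit 575) (nat_lit 1) (.two (nat_lit 1) (nat_lit 4) (nat_lit 4133) (nat_lit 1) (.two (nat_lit 0) (nat_lit 4) (nat_lit 2356) (nat_lit 1) (.one (nat_lit 3270) (nat_lit 4) .nil)))))),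
   .der (nat_lit 129) (nat_lit 39),
   .der (nat_lit 83) (nat_lit 429),
   .prs (.two (nat_lit 38) (nat_lit 8) (nat_lit 1322) (nat_lit 2) (.two (nat_lit 886) (nat_lit 2) (nat_lit 4135) (nat_lit 4) (.two (nat_lit 684) (nat_lit 2) (nat_lit 4136) (nat_lit 4) (.two (nat_lit 3) (nat_lit 4) (nat_lit 1544) (nat_lit 8) (.two (nat_lit 0) (nat_lit 4) (nat_lit 1546) (nat_lit 8) (.one (nat_lit 3296) (nat_lit 8) .nil)))))),
   .der (nat_lit 9572) (nat_lit 74),
   .prs (.two (nat_lit 427) (nat_lit 2) (nat_lit 4138) (nat_lit 4) (.two (nat_lit 3) (nat_lit 1) (nat_lit 1047) (nat_lit 4) (.two (nat_lit 0) (nat_lit 1) (nat_lit 2363) (nat_lit 4) .nil))),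
   .der (nat_lit 10) (nat_lit 76),
   .der (nat_lit 354) (nat_lit 873),
   .prs (.two (nat_lit 13) (nat_lit 4) (nat_lit 4140) (nat_lit 8) (.two (nat_lit 178) (nat_lit 4) (nat_lit 1383) (nat_lit 1) (.two (nat_lit 3) (nat_lit 4) (nat_lit 4141) (nat_lit 1) (.two (nat_lit 0) (nat_lit 1) (nat_lit 2365) (nat_lit 8) (.one (nat_lit 2369) (nat_lit 8) .nil))))),
   .der (nat_lit 1107) (nat_lit 72),
   .der (nat_lit 38163) (nat_lit 923),
   .prs (.two (nat_lit 794) (nat_lit 2) (nat_lit 86) (nat_lit 4) (.two (nat_lit 28) (nat_lit 4) (nat_lit 4143) (nat_lit 1) (.two (nat_lit 173) (nat_lit 4) (nat_lit 578) (nat_lit 1) (.two (nat_lit 16) (nat_lit 4) (nat_lit 4144) (nat_lit 1) (.two (nat_lit 0) (nat_lit 4) (nat_lit 2375) (nat_lit 1) (.one (nat_lit 3300) (nat_lit 1) .nil)))))),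
   .prs (.two (nat_lit 6) (nat_lit 4) (nat_lit 520) (nat_lit 8) (.two (nat_lit 2) (nat_lit 8) (nat_lit 2193) (nat_lit 4) (.two (nat_lit 1) (nat_lit 8) (nat_lit 586) (nat_lit 4) (.two (nat_lit 0) (nat_lit 4) (nat_lit 2398) (nat_lit 1) (.one (nat_lit 3309) (nat_lit 1) .nil))))),
   .der (nat_lit 5218) (nat_lit 1041),
   .der (nat_lit 35) (nat_lit 2365),
   .prs (.two (nat_lit 794) (nat_lit 2) (nat_lit 883) (nat_lit 4) (.two (nat_lit 170) (nat_lit 2) (nat_lit 580) (nat_lit 4) (.two (nat_lit 1) (nat_lit 2) (nat_lit 4147) (nat_lit 1) (.two (nat_lit 0) (nat_lit 2) (nat_lit 4148) (nat_lit 4) (.one (nat_lit 3305) (nat_lit 4) .nil))))),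
   .der (nat_lit 29011) (nat_lit 110),
   .der (nat_lit 13345) (nat_lit 904),
   .der (nat_lit 1073) (nat_lit 2247),
   .prs (.two (nat_lit 390) (nat_lit 2) (nat_lit 1223) (nat_lit 1) (.two (nat_lit 100) (nat_lit 2) (nat_lit 4150) (nat_lit 1) (.two (nat_lit 338) (nat_lit 2) (nat_lit 1548) (nat_lit 1) (.two (nat_lit 11) (nat_lit 2) (nat_lit 4151) (nat_lit 1) (.two (nat_lit 0) (nat_lit 2) (nat_lit 2377) (nat_lit 1) (.one (nat_lit 4152) (nat_lit 2) .nil)))))),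
   .der (nat_lit 30226) (nat_lit 45),
   .der (nat_lit 66) (nat_lit 131),
   .der (nat_lit 1811) (nat_lit 432),
   .der (nat_lit 2390) (nat_lit 1484),
   .prs (.two (nat_lit 28) (nat_lit 1) (nat_lit 4154) (nat_lit 2) (.two (nat_lit 34) (nat_lit 2) (nat_lit 4155) (nat_lit 1) (.two (nat_lit 11) (nat_lit 2) (nat_lit 4156) (nat_lit 1) (.two (nat_lit 0) (nat_lit 1) (nat_lit 4157) (nat_lit 2) (.one (nat_lit 3311) (nat_lit 1) .nil))))),
   .der (nat_lit 1430) (nat_lit 161),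
   .prs (.two (nat_lit 28) (nat_lit 1) (nat_lit 614) (nat_lit 2) (.two (nat_lit 9) (nat_lit 1) (nat_lit 4159) (nat_lit 2) (.two (nat_lit 11) (nat_lit 2) (nat_lit 2355) (nat_lit 1) (.one (nat_lit 3314) (nat_lit 1) .nil)))),
   .der (nat_lit 1811) (nat_lit 220),
   .der (nat_lit 19) (nat_lit 182),
   .der (nat_lit 4978) (nat_lit 917),
   .prs (.two (nat_lit 537) (nat_lit 1) (nat_lit 968) (nat_lit 2) (.two (nat_lit 374) (nat_lit 1) (nat_lit 4161) (nat_lit 2) (.two (nat_lit 1) (nat_lit 2) (nat_lit 4162) (nat_lit 1) (.two (nat_lit 0) (nat_lit 2) (nat_lit 4163) (nat_lit 1) (.one (nat_lit 3316) (nat_lit 1) .nil))))),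
   .der (nat_lit 152) (nat_lit 59),
   .der (nat_lit 132) (nat_lit 939),
   .prs (.two (nat_lit 42) (nat_lit 4) (nat_lit 267) (nat_lit 1) (.two (nat_lit 1068) (nat_lit 1) (nat_lit 4165) (nat_lit 4) (.two (nat_lit 1) (nat_lit 8) (nat_lit 3162) (nat_lit 1) (.two (nat_lit 0) (nat_lit 8) (nat_lit 4166) (nat_lit 1) (.one (nat_lit 3318) (nat_lit 1) .nil))))),
   .der (nat_lit 801) (nat_lit 84),
   .der (nat_lit 5) (nat_lit 524),
   .prs (.two (nat_lit 1113) (nat_lit 2) (nat_lit 4168) (nat_lit 1) (.two (nat_lit 434) (nat_lit 2) (nat_lit 4169) (nat_lit 1) (.two (nat_lit 11) (nat_lit 2) (nat_lit 1560) (nat_lit 1) (.two (nat_lit 0) (nat_lit 2) (nat_lit 2382) (nat_lit 1) (.one (nat_lit 3308) (nat_lit 1) .nil))))),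
   .der (nat_lit 1395) (nat_lit 24),
   .der (nat_lit 1653) (nat_lit 465),
   .der (nat_lit 1810) (nat_lit 425),
   .prs (.two (nat_lit 456) (nat_lit 4) (nat_lit 4171) (nat_lit 2) (.two (nat_lit 170) (nat_lit 2) (nat_lit 2193) (nat_lit 4) (.two (nat_lit 1) (nat_lit 2) (nat_lit 4172) (nat_lit 4) (.two (nat_lit 0) (nat_lit 8) (nat_lit 4173) (nat_lit 4) (.one (nat_lit 3321) (nat_lit 2) .nil))))),
   .der (nat_lit 4) (nat_lit 70),
   .der (nat_lit 101) (nat_lit 861),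
   .der (nat_lit 370) (nat_lit 2186),
   .prs (.two (nat_lit 1113) (nat_lit 16) (nat_lit 1254) (nat_lit 1) (.two (nat_lit 167) (nat_lit 16) (nat_lit 4175) (nat_lit 1) (.two (nat_lit 248) (nat_lit 1) (nat_lit 2607) (nat_lit 16) (.two (nat_lit 3) (nat_lit 1) (nat_lit 4176) (nat_lit 16) (.one (nat_lit 4177) (nat_lit 16) .nil))))),
   .der (nat_lit 801) (nat_lit 1546),
   .der (nat_lit 561) (nat_lit 3308),
   .prs (.two (nat_lit 32) (nat_lit 8) (nat_lit 3955) (nat_lit 1) (.two (nat_lit 519) (nat_lit 4) (nat_lit 82) (nat_lit 8) (.two (nat_lit 3) (nat_lit 8) (nat_lit 4179) (nat_lit 1) (.one (nat_lit 4180) (nat_lit 1) .nil)))),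
   .der (nat_lit 5218) (nat_lit 39),
   .der (nat_lit 1620) (nat_lit 575),
   .prs (.two (nat_lit 1459) (nat_lit 16) (nat_lit 4182) (nat_lit 2) (.two (nat_lit 11) (nat_lit 2) (nat_lit 4183) (nat_lit 16) (.two (nat_lit 0) (nat_lit 2) (nat_lit 1054) (nat_lit 16) (.one (nat_lit 2409) (nat_lit 16) .nil)))),
   .der (nat_lit 1653) (nat_lit 73),
   .der (nat_lit 52) (nat_lit 584),
   .der (nat_lit 8) (nat_lit 1438),
   .der (nat_lit 8) (nat_lit 3196),
   .prs (.two (nat_lit 440) (nat_lit 2) (nat_lit 4185) (nat_lit 8) (.two (nat_lit 1161) (nat_lit 8) (nat_lit 4186) (nat_lit 1) (.two (nat_lit 11) (nat_lit 2) (nat_lit 4187) (nat_lit 8) (.one (nat_lit 4188) (nat_lit 8) .nil)))),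
   .der (nat_lit 21092) (nat_lit 31),
   .der (nat_lit 22803) (nat_lit 161),
   .der (nat_lit 29011) (nat_lit 169),
   .prs (.two (nat_lit 129) (nat_lit 8) (nat_lit 4190) (nat_lit 2) (.two (nat_lit 556) (nat_lit 8) (nat_lit 4191) (nat_lit 2) (.two (nat_lit 1) (nat_lit 8) (nat_lit 4192) (nat_lit 2) (.two (nat_lit 0) (nat_lit 8) (nat_lit 1067) (nat_lit 2) (.one (nat_lit 2425) (nat_lit 2) .nil))))),
   .der (nat_lit 4978) (nat_lit 37),
   .der (nat_lit 1875) (nat_lit 82),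
   .der (nat_lit 65) (nat_lit 939),
   .prs (.two (nat_lit 129) (nat_lit 8) (nat_lit 742) (nat_lit 2) (.two (nat_lit 2) (nat_lit 8) (nat_lit 4194) (nat_lit 2) (.two (nat_lit 1) (nat_lit 8) (nat_lit 4195) (nat_lit 2) (.two (nat_lit 0) (nat_lit 1) (nat_lit 4196) (nat_lit 2) (.one (nat_lit 3322) (nat_lit 2) .nil))))),
   .der (nat_lit 10) (nat_lit 52),
   .der (nat_lit 2135) (nat_lit 184),
   .der (nat_lit 30226) (nat_lit 426),
   .der (nat_lit 8) (nat_lit 967),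
   .prs (.two (nat_lit 227) (nat_lit 2) (nat_lit 4198) (nat_lit 8) (.two (nat_lit 78) (nat_lit 4) (nat_lit 4199) (nat_lit 2) (.two (nat_lit 3) (nat_lit 4) (nat_lit 4200) (nat_lit 2) (.two (nat_lit 0) (nat_lit 16) (nat_lit 4201) (nat_lit 4) (.one (nat_lit 2432) (nat_lit 4) .nil))))),
   .der (nat_lit 1875) (nat_lit 72),
   .der (nat_lit 29011) (nat_lit 392),
   .der (nat_lit 561) (nat_lit 1406),
   .prs (.two (nat_lit 42) (nat_lit 4) (nat_lit 4203) (nat_lit 2) (.two (nat_lit 1) (nat_lit 4) (nat_lit 4204) (nat_lit 2) (.two (nat_lit 0) (nat_lit 4) (nat_lit 1572) (nat_lit 2) (.one (nat_lit 4205) (nat_lit 2) .nil)))),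
   .prs (.two (nat_lit 36) (nat_lit 2) (nat_lit 2399) (nat_lit 4) (.two (nat_lit 1) (nat_lit 2) (nat_lit 2400) (nat_lit 4) (.two (nat_lit 0) (nat_lit 2) (nat_lit 1575) (nat_lit 4) (.one (nat_lit 3323) (nat_lit 4) .nil)))),
   .der (nat_lit 354) (nat_lit 64),
   .der (nat_lit 1) (nat_lit 1065),
   .prs (.two (nat_lit 489) (nat_lit 16) (nat_lit 4208) (nat_lit 1) (.two (nat_lit 1) (nat_lit 16) (nat_lit 4209) (nat_lit 4) (.one (nat_lit 2435) (nat_lit 4) .nil))),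
   .der (nat_lit 561) (nat_lit 110),
   .der (nat_lit 2353) (nat_lit 876),
   .prs (.two (nat_lit 543) (nat_lit 4) (nat_lit 4211) (nat_lit 1) (.two (nat_lit 46) (nat_lit 4) (nat_lit 4212) (nat_lit 1) (.one (nat_lit 3325) (nat_lit 1) .nil))),
   .der (nat_lit 87) (nat_lit 369),
   .der (nat_lit 87) (nat_lit 824),
   .prs (.two (nat_lit 36) (nat_lit 2) (nat_lit 1848) (nat_lit 4) (.two (nat_lit 493) (nat_lit 2) (nat_lit 4214) (nat_lit 4) (.two (nat_lit 0) (nat_lit 2) (nat_lit 4215) (nat_lit 4) (.one (nat_lit 3328) (nat_lit 2) .nil)))),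
   .der (nat_lit 1554) (nat_lit 255),
   .der (nat_lit 162) (nat_lit 1479),
   .prs (.two (nat_lit 404) (nat_lit 8) (nat_lit 459) (nat_lit 2) (.two (nat_lit 325) (nat_lit 2) (nat_lit 4217) (nat_lit 8) (.two (nat_lit 1) (nat_lit 2) (nat_lit 1036) (nat_lit 4) (.two (nat_lit 0) (nat_lit 4) (nat_lit 4218) (nat_lit 8) (.one (nat_lit 2438) (nat_lit 4) .nil))))),
   .der (nat_lit 370) (nat_lit 37),
   .der (nat_lit 1) (nat_lit 441),
   .der (nat_lit 371) (nat_lit 967),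
   .prs (.two (nat_lit 456) (nat_lit 16) (nat_lit 576) (nat_lit 8) (.two (nat_lit 2) (nat_lit 16) (nat_lit 4220) (nat_lit 8) (.two (nat_lit 11) (nat_lit 8) (nat_lit 4221) (nat_lit 16) (.two (nat_lit 0) (nat_lit 1) (nat_lit 4222) (nat_lit 8) (.one (nat_lit 3331) (nat_lit 8) .nil))))),
   .prs (.two (nat_lit 427) (nat_lit 4) (nat_lit 3774) (nat_lit 8) (.two (nat_lit 1) (nat_lit 4) (nat_lit 1429) (nat_lit 8) (.two (nat_lit 0) (nat_lit 4) (nat_lit 904) (nat_lit 8) (.one (nat_lit 3332) (nat_lit 8) .nil)))),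
   .prs (.two (nat_lit 427) (nat_lit 4) (nat_lit 1568) (nat_lit 8) (.two (nat_lit 0) (nat_lit 4) (nat_lit 601) (nat_lit 8) (.one (nat_lit 3334) (nat_lit 8) .nil))),
   .der (nat_lit 67) (nat_lit 435),
   .der (nat_lit 24916) (nat_lit 952),
   .der (nat_lit 2084) (nat_lit 1419),
   .prs (.two (nat_lit 1582) (nat_lit 1) (nat_lit 359) (nat_lit 16) (.two (nat_lit 404) (nat_lit 1) (nat_lit 2281) (nat_lit 16) (.two (nat_lit 325) (nat_lit 16) (nat_lit 4226) (nat_lit 1) (.two (nat_lit 1) (nat_lit 4) (nat_lit 4227) (nat_lit 1) (.two (nat_lit 0) (nat_lit 4) (nat_lit 4228) (nat_lit 16) (.one (nat_lit 3357) (nat_lit 4) .nil)))))),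
   .der (nat_lit 2433) (nat_lit 843),
   .prs (.two (nat_lit 12) (nat_lit 8) (nat_lit 2479) (nat_lit 4) (.two (nat_lit 3) (nat_lit 8) (nat_lit 4230) (nat_lit 4) (.one (nat_lit 3350) (nat_lit 8) .nil))),
   .der (nat_lit 2433) (nat_lit 172),
   .prs (.two (nat_lit 145) (nat_lit 4) (nat_lit 1754) (nat_lit 2) (.two (nat_lit 65) (nat_lit 2) (nat_lit 883) (nat_lit 4) (.two (nat_lit 4) (nat_lit 2) (nat_lit 4232) (nat_lit 4) (.two (nat_lit 1) (nat_lit 2) (nat_lit 3346) (nat_lit 4) (.one (nat_lit 3359) (nat_lit 1) .nil))))),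
   .der (nat_lit 2068) (nat_lit 82),
   .der (nat_lit 150) (nat_lit 1647),
   .prs (.two (nat_lit 13) (nat_lit 16) (nat_lit 965) (nat_lit 2) (.two (nat_lit 489) (nat_lit 16) (nat_lit 4234) (nat_lit 2) (.two (nat_lit 1) (nat_lit 2) (nat_lit 4235) (nat_lit 16) (.one (nat_lit 2472) (nat_lit 2) .nil)))),
   .der (nat_lit 1875) (nat_lit 123),
   .der (nat_lit 162) (nat_lit 524),
   .der (nat_lit 2578) (nat_lit 1560),
   .der (nat_lit 2193) (nat_lit 1647),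
   .der (nat_lit 165) (nat_lit 2203),
   .prs (.two (nat_lit 13) (nat_lit 16) (nat_lit 4237) (nat_lit 4) (.two (nat_lit 75) (nat_lit 16) (nat_lit 4238) (nat_lit 4) (.two (nat_lit 16) (nat_lit 16) (nat_lit 4239) (nat_lit 4) (.two (nat_lit 0) (nat_lit 4) (nat_lit 4240) (nat_lit 16) (.one (nat_lit 4241) (nat_lit 4) .nil))))),
   .der (nat_lit 1415) (nat_lit 84),
   .der (nat_lit 26386) (nat_lit 82),
   .der (nat_lit 1650) (nat_lit 824),
   .prs (.two (nat_lit 1322) (nat_lit 8) (nat_lit 4243) (nat_lit 2) (.two (nat_lit 170) (nat_lit 2) (nat_lit 4244) (nat_lit 8) (.two (nat_lit 1) (nat_lit 2) (nat_lit 4245) (nat_lit 8) (.two (nat_lit 0) (nat_lit 2) (nat_lit 2475) (nat_lit 8) (.one (nat_lit 3363) (nat_lit 8) .nil))))),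
   .der (nat_lit 2353) (nat_lit 62),
   .der (nat_lit 37425) (nat_lit 392),
   .prs (.two (nat_lit 97) (nat_lit 1) (nat_lit 1302) (nat_lit 4) (.two (nat_lit 1401) (nat_lit 1) (nat_lit 4247) (nat_lit 4) (.two (nat_lit 22) (nat_lit 1) (nat_lit 4248) (nat_lit 4) (.two (nat_lit 16) (nat_lit 1) (nat_lit 3182) (nat_lit 4) (.two (nat_lit 0) (nat_lit 1) (nat_lit 2477) (nat_lit 4) (.one (nat_lit 3353) (nat_lit 1) .nil)))))),
   .der (nat_lit 29011) (nat_lit 70),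
   .der (nat_lit 100) (nat_lit 3340),
   .prs (.two (nat_lit 69) (nat_lit 1) (nat_lit 674) (nat_lit 2) (.two (nat_lit 3643) (nat_lit 1) (nat_lit 4250) (nat_lit 2) (.two (nat_lit 442) (nat_lit 1) (nat_lit 3272) (nat_lit 2) (.two (nat_lit 0) (nat_lit 1) (nat_lit 3608) (nat_lit 2) (.one (nat_lit 4251) (nat_lit 1) .nil))))),
   .der (nat_lit 49) (nat_lit 3199),
   .prs (.two (nat_lit 440) (nat_lit 2) (nat_lit 3358) (nat_lit 4) (.two (nat_lit 5) (nat_lit 1) (nat_lit 4248) (nat_lit 4) (.two (nat_lit 1) (nat_lit 2) (nat_lit 3182) (nat_lit 4) (.two (nat_lit 0) (nat_lit 1) (nat_lit 1651) (nat_lit 4) (.one (nat_lit 4253) (nat_lit 1) .nil))))),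
   .der (nat_lit 38163) (nat_lit 77),
   .der (nat_lit 833) (nat_lit 2363),
   .prs (.two (nat_lit 6) (nat_lit 16) (nat_lit 4255) (nat_lit 4) (.two (nat_lit 1) (nat_lit 16) (nat_lit 1133) (nat_lit 4) (.two (nat_lit 0) (nat_lit 16) (nat_lit 1653) (nat_lit 4) (.one (nat_lit 4256) (nat_lit 4) .nil)))),
   .der (nat_lit 135) (nat_lit 93),
   .der (nat_lit 83) (nat_lit 640),
   .der (nat_lit 66) (nat_lit 1022),
   .prs (.two (nat_lit 489) (nat_lit 2) (nat_lit 1095) (nat_lit 1) (.two (nat_lit 482) (nat_lit 1) (nat_lit 4258) (nat_lit 8) (.two (nat_lit 1) (nat_lit 2) (nat_lit 4259) (nat_lit 8) (.two (nat_lit 0) (nat_lit 2) (nat_lit 4260) (nat_lit 1) (.one (nat_lit 3371) (nat_lit 8) .nil))))),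
   .der (nat_lit 1073) (nat_lit 481),
   .prs (.two (nat_lit 80) (nat_lit 8) (nat_lit 1413) (nat_lit 4) (.two (nat_lit 36) (nat_lit 8) (nat_lit 3351) (nat_lit 4) (.two (nat_lit 34) (nat_lit 8) (nat_lit 4262) (nat_lit 4) (.two (nat_lit 1) (nat_lit 8) (nat_lit 3346) (nat_lit 4) (.one (nat_lit 3184) (nat_lit 1) .nil))))),
   .der (nat_lit 10545) (nat_lit 10),
   .der (nat_lit 118) (nat_lit 39),
   .der (nat_lit 101) (nat_lit 199),
   .der (nat_lit 150) (nat_lit 907),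
   .prs (.two (nat_lit 4264) (nat_lit 4) (nat_lit 69) (nat_lit 1) (.two (nat_lit 96) (nat_lit 4) (nat_lit 4265) (nat_lit 2) (.two (nat_lit 1) (nat_lit 4) (nat_lit 4266) (nat_lit 2) (.two (nat_lit 0) (nat_lit 1) (nat_lit 4267) (nat_lit 2) (.one (nat_lit 3375) (nat_lit 2) .nil))))),
   .der (nat_lit 356) (nat_lit 72),
   .der (nat_lit 17185) (nat_lit 578),
   .prs (.two (nat_lit 1435) (nat_lit 4) (nat_lit 4269) (nat_lit 2) (.two (nat_lit 11) (nat_lit 1) (nat_lit 4270) (nat_lit 2) (.two (nat_lit 0) (nat_lit 1) (nat_lit 2499) (nat_lit 2) (.one (nat_lit 2501) (nat_lit 2) .nil)))),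
   .der (nat_lit 2323) (nat_lit 21),
   .der (nat_lit 22548) (nat_lit 401),
   .der (nat_lit 52) (nat_lit 1438),
   .prs (.two (nat_lit 6) (nat_lit 16) (nat_lit 4272) (nat_lit 4) (.two (nat_lit 2) (nat_lit 16) (nat_lit 4273) (nat_lit 4) (.two (nat_lit 0) (nat_lit 16) (nat_lit 1656) (nat_lit 4) (.one (nat_lit 4274) (nat_lit 4) .nil)))),
   .der (nat_lit 1) (nat_lit 87),
   .der (nat_lit 9) (nat_lit 432),
   .prs (.two (nat_lit 65) (nat_lit 16) (nat_lit 4276) (nat_lit 2) (.two (nat_lit 1) (nat_lit 16) (nat_lit 4277) (nat_lit 2) (.two (nat_lit 0) (nat_lit 16) (nat_lit 2493) (nat_lit 2) (.one (nat_lit 3377) (nat_lit 2) .nil)))),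
   .prs (.two (nat_lit 132) (nat_lit 8) (nat_lit 2488) (nat_lit 4) (.two (nat_lit 622) (nat_lit 8) (nat_lit 3181) (nat_lit 4) (.two (nat_lit 46) (nat_lit 8) (nat_lit 1651) (nat_lit 4) .nil))),
   .der (nat_lit 1395) (nat_lit 161),
   .der (nat_lit 17185) (nat_lit 536),
   .prs (.two (nat_lit 36) (nat_lit 8) (nat_lit 4280) (nat_lit 4) (.two (nat_lit 1) (nat_lit 4) (nat_lit 4281) (nat_lit 8) (.two (nat_lit 0) (nat_lit 4) (nat_lit 1662) (nat_lit 8) (.one (nat_lit 3381) (nat_lit 1) .nil)))),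
   .der (nat_lit 577) (nat_lit 545),
   .prs (.two (nat_lit 65) (nat_lit 2) (nat_lit 509) (nat_lit 8) (.two (nat_lit 34) (nat_lit 2) (nat_lit 3358) (nat_lit 1) (.two (nat_lit 11) (nat_lit 2) (nat_lit 4283) (nat_lit 1) (.two (nat_lit 0) (nat_lit 2) (nat_lit 1664) (nat_lit 1) (.one (nat_lit 2509) (nat_lit 1) .nil))))),
   .der (nat_lit 1) (nat_lit 2238),
   .prs (.two (nat_lit 6) (nat_lit 16) (nat_lit 1413) (nat_lit 8) (.two (nat_lit 2) (nat_lit 8) (nat_lit 82) (nat_lit 16) (.two (nat_lit 0) (nat_lit 1) (nat_lit 4285) (nat_lit 16) .nil))),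
   .der (nat_lit 644) (nat_lit 48),
   .der (nat_lit 1556) (nat_lit 87),
   .der (nat_lit 5971) (nat_lit 192),
   .der (nat_lit 339) (nat_lit 421),
   .der (nat_lit 4978) (nat_lit 1539),
   .prs (.two (nat_lit 127) (nat_lit 4) (nat_lit 4287) (nat_lit 2) (.two (nat_lit 12) (nat_lit 1) (nat_lit 4288) (nat_lit 8) (.two (nat_lit 75) (nat_lit 2) (nat_lit 4289) (nat_lit 4) (.two (nat_lit 1) (nat_lit 2) (nat_lit 4290) (nat_lit 1) (.two (nat_lit 0) (nat_lit 2) (nat_lit 4291) (nat_lit 1) (.one (nat_lit 3433) (nat_lit 2) .nil)))))),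
   .der (nat_lit 852) (nat_lit 48),
   .der (nat_lit 30226) (nat_lit 118),
   .der (nat_lit 1299) (nat_lit 169),
   .prs (.two (nat_lit 794) (nat_lit 4) (nat_lit 4293) (nat_lit 8) (.two (nat_lit 12) (nat_lit 1) (nat_lit 4294) (nat_lit 8) (.two (nat_lit 439) (nat_lit 2) (nat_lit 4295) (nat_lit 4) (.two (nat_lit 1) (nat_lit 2) (nat_lit 4290) (nat_lit 1) (.two (nat_lit 0) (nat_lit 2) (nat_lit 4291) (nat_lit 1) (.one (nat_lit 3436) (nat_lit 1) .nil)))))),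
   .der (nat_lit 2193) (nat_lit 21),
   .der (nat_lit 9572) (nat_lit 618),
   .der (nat_lit 137) (nat_lit 1606),
   .prs (.two (nat_lit 676) (nat_lit 8) (nat_lit 4297) (nat_lit 4) (.two (nat_lit 6) (nat_lit 4) (nat_lit 935) (nat_lit 2) (.two (nat_lit 2) (nat_lit 4) (nat_lit 4298) (nat_lit 2) (.two (nat_lit 3) (nat_lit 4) (nat_lit 4299) (nat_lit 1) (.two (nat_lit 0) (nat_lit 8) (nat_lit 4116) (nat_lit 2) (.one (nat_lit 3439) (nat_lit 2) .nil)))))),
   .der (nat_lit 8) (nat_lit 24),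
   .der (nat_lit 118) (nat_lit 67),
   .der (nat_lit 6) (nat_lit 655),
   .der (nat_lit 2433) (nat_lit 904),
   .der (nat_lit 52) (nat_lit 2386),
   .der (nat_lit 339) (nat_lit 2353),
   .prs (.two (nat_lit 94) (nat_lit 2) (nat_lit 4301) (nat_lit 8) (.two (nat_lit 36) (nat_lit 8) (nat_lit 4302) (nat_lit 2) (.two (nat_lit 7) (nat_lit 8) (nat_lit 4303) (nat_lit 1) (.two (nat_lit 3) (nat_lit 1) (nat_lit 4304) (nat_lit 8) (.two (nat_lit 0) (nat_lit 1) (nat_lit 4305) (nat_lit 8) (.one (nat_lit 4306) (nat_lit 1) .nil)))))),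
   .der (nat_lit 2193) (nat_lit 59),
   .der (nat_lit 6) (nat_lit 542),
   .der (nat_lit 1650) (nat_lit 1630),
   .prs (.two (nat_lit 13) (nat_lit 4) (nat_lit 4308) (nat_lit 8) (.two (nat_lit 7) (nat_lit 1) (nat_lit 4309) (nat_lit 8) (.two (nat_lit 3) (nat_lit 4) (nat_lit 4310) (nat_lit 8) (.two (nat_lit 0) (nat_lit 4) (nat_lit 2540) (nat_lit 1) (.one (nat_lit 3443) (nat_lit 8) .nil))))),
   .der (nat_lit 1415) (nat_lit 73),
   .der (nat_lit 4) (nat_lit 421),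
   .der (nat_lit 4) (nat_lit 864),
   .der (nat_lit 371) (nat_lit 2188),
   .prs (.two (nat_lit 122) (nat_lit 4) (nat_lit 83) (nat_lit 1) (.two (nat_lit 758) (nat_lit 1) (nat_lit 4312) (nat_lit 4) (.two (nat_lit 684) (nat_lit 4) (nat_lit 4313) (nat_lit 1) (.two (nat_lit 0) (nat_lit 4) (nat_lit 4314) (nat_lit 1) (.one (nat_lit 4315) (nat_lit 4) .nil))))),
   .der (nat_lit 38163) (nat_lit 39),
   .der (nat_lit 118) (nat_lit 492),
   .der (nat_lit 339) (nat_lit 864),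
   .der (nat_lit 354) (nat_lit 2372),
   .prs (.two (nat_lit 794) (nat_lit 2) (nat_lit 4317) (nat_lit 4) (.two (nat_lit 75) (nat_lit 2) (nat_lit 4318) (nat_lit 4) (.two (nat_lit 3) (nat_lit 1) (nat_lit 4290) (nat_lit 2) (.two (nat_lit 0) (nat_lit 1) (nat_lit 4319) (nat_lit 2) (.one (nat_lit 4320) (nat_lit 1) .nil))))),
   .prs (.two (nat_lit 13) (nat_lit 16) (nat_lit 424) (nat_lit 4) (.two (nat_lit 1) (nat_lit 16) (nat_lit 1706) (nat_lit 4) (.two (nat_lit 0) (nat_lit 16) (nat_lit 2545) (nat_lit 4) (.one (nat_lit 3445) (nat_lit 4) .nil)))),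
   .der (nat_lit 87) (nat_lit 1409),
   .der (nat_lit 2390) (nat_lit 3377),
   .prs (.two (nat_lit 6) (nat_lit 4) (nat_lit 145) (nat_lit 2) (.two (nat_lit 2) (nat_lit 8) (nat_lit 1695) (nat_lit 2) (.two (nat_lit 0) (nat_lit 4) (nat_lit 4323) (nat_lit 1) (.one (nat_lit 4324) (nat_lit 4) .nil)))),
   .der (nat_lit 52) (nat_lit 48),
   .der (nat_lit 98) (nat_lit 421),
   .der (nat_lit 19) (nat_lit 1473),
   .prs (.two (nat_lit 390) (nat_lit 8) (nat_lit 4326) (nat_lit 2) (.two (nat_lit 1256) (nat_lit 4) (nat_lit 1809) (nat_lit 8) (.two (nat_lit 4) (nat_lit 2) (nat_lit 3244) (nat_lit 8) (.two (nat_lit 1) (nat_lit 2) (nat_lit 4327) (nat_lit 1) (.two (nat_lit 0) (nat_lit 8) (nat_lit 4328) (nat_lit 1) (.one (nat_lit 3447) (nat_lit 2) .nil)))))),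
   .der (nat_lit 5218) (nat_lit 35),
   .der (nat_lit 6) (nat_lit 2409),
   .prs (.two (nat_lit 427) (nat_lit 4) (nat_lit 4330) (nat_lit 2) (.two (nat_lit 1) (nat_lit 2) (nat_lit 2263) (nat_lit 4) (.two (nat_lit 0) (nat_lit 2) (nat_lit 1707) (nat_lit 4) (.one (nat_lit 4331) (nat_lit 2) .nil)))),
   .der (nat_lit 117) (nat_lit 980),
   .prs (.two (nat_lit 520) (nat_lit 8) (nat_lit 449) (nat_lit 2) (.two (nat_lit 12) (nat_lit 8) (nat_lit 747) (nat_lit 1) (.two (nat_lit 202) (nat_lit 8) (nat_lit 1939) (nat_lit 2) (.two (nat_lit 1) (nat_lit 8) (nat_lit 4333) (nat_lit 2) (.two (nat_lit 0) (nat_lit 1) (nat_lit 3456) (nat_lit 8) (.one (nat_lit 3454) (nat_lit 1) .nil)))))),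
   .der (nat_lit 1556) (nat_lit 110),
   .prs (.two (nat_lit 6) (nat_lit 4) (nat_lit 459) (nat_lit 2) (.two (nat_lit 2) (nat_lit 4) (nat_lit 4335) (nat_lit 2) (.two (nat_lit 1) (nat_lit 4) (nat_lit 3524) (nat_lit 2) (.two (nat_lit 0) (nat_lit 1) (nat_lit 2587) (nat_lit 2) (.one (nat_lit 2590) (nat_lit 1) .nil))))),
   .der (nat_lit 4) (nat_lit 74),
   .der (nat_lit 19) (nat_lit 2531),
   .prs (.two (nat_lit 71) (nat_lit 16) (nat_lit 4337) (nat_lit 1) (.two (nat_lit 224) (nat_lit 1) (nat_lit 4124) (nat_lit 16) (.two (nat_lit 0) (nat_lit 1) (nat_lit 4338) (nat_lit 16) .nil))),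
   .der (nat_lit 101) (nat_lit 82),
   .der (nat_lit 1554) (nat_lit 950),
   .der (nat_lit 6) (nat_lit 1400),
   .prs (.two (nat_lit 13) (nat_lit 8) (nat_lit 449) (nat_lit 2) (.two (nat_lit 65) (nat_lit 2) (nat_lit 1764) (nat_lit 8) (.two (nat_lit 96) (nat_lit 8) (nat_lit 4340) (nat_lit 2) (.two (nat_lit 16) (nat_lit 1) (nat_lit 4341) (nat_lit 2) (.two (nat_lit 0) (nat_lit 8) (nat_lit 4342) (nat_lit 1) (.one (nat_lit 3457) (nat_lit 1) .nil)))))),
   .der (nat_lit 118) (nat_lit 461),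
   .der (nat_lit 165) (nat_lit 1033),
   .prs (.two (nat_lit 4264) (nat_lit 4) (nat_lit 440) (nat_lit 8) (.two (nat_lit 556) (nat_lit 4) (nat_lit 1809) (nat_lit 8) (.two (nat_lit 11) (nat_lit 2) (nat_lit 4344) (nat_lit 4) (.two (nat_lit 0) (nat_lit 2) (nat_lit 4345) (nat_lit 8) (.one (nat_lit 3509) (nat_lit 8) .nil))))),
   .der (nat_lit 644) (nat_lit 834),
   .prs (.two (nat_lit 30) (nat_lit 1) (nat_lit 4082) (nat_lit 4) (.two (nat_lit 0) (nat_lit 1) (nat_lit 4347) (nat_lit 4) (.one (nat_lit 3512) (nat_lit 1) .nil))),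
   .der (nat_lit 137) (nat_lit 911),
   .prs (.two (nat_lit 6) (nat_lit 8) (nat_lit 2827) (nat_lit 1) (.two (nat_lit 3) (nat_lit 1) (nat_lit 3516) (nat_lit 4) (.two (nat_lit 0) (nat_lit 8) (nat_lit 4349) (nat_lit 4) (.one (nat_lit 3518) (nat_lit 1) .nil)))),
   .der (nat_lit 1057) (nat_lit 1444),
   .prs (.two (nat_lit 97) (nat_lit 1) (nat_lit 221) (nat_lit 8) (.two (nat_lit 44) (nat_lit 8) (nat_lit 1049) (nat_lit 1) (.two (nat_lit 224) (nat_lit 1) (nat_lit 1404) (nat_lit 8) (.two (nat_lit 46) (nat_lit 1) (nat_lit 4351) (nat_lit 8) (.one (nat_lit 3466) (nat_lit 8) .nil))))),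
   .prs (.two (nat_lit 65) (nat_lit 8) (nat_lit 522) (nat_lit 4) (.two (nat_lit 68) (nat_lit 16) (nat_lit 2768) (nat_lit 4) (.two (nat_lit 0) (nat_lit 16) (nat_lit 936) (nat_lit 4) (.one (nat_lit 3522) (nat_lit 4) .nil)))),
   .der (nat_lit 135) (nat_lit 27),
   .der (nat_lit 5) (nat_lit 943),
   .der (nat_lit 561) (nat_lit 2369),
   .prs (.two (nat_lit 13) (nat_lit 8) (nat_lit 4354) (nat_lit 2) (.two (nat_lit 882) (nat_lit 8) (nat_lit 2867) (nat_lit 2) (.two (nat_lit 96) (nat_lit 2) (nat_lit 2971) (nat_lit 8) (.two (nat_lit 1) (nat_lit 8) (nat_lit 4355) (nat_lit 2) (.two (nat_lit 0) (nat_lit 8) (nat_lit 2557) (nat_lit 2) (.one (nat_lit 4356) (nat_lit 8) .nil)))))),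
   .der (nat_lit 659) (nat_lit 192),
   .der (nat_lit 135) (nat_lit 1565),
   .prs (.two (nat_lit 13) (nat_lit 4) (nat_lit 80) (nat_lit 8) (.two (nat_lit 227) (nat_lit 8) (nat_lit 2168) (nat_lit 1) (.two (nat_lit 34) (nat_lit 2) (nat_lit 4358) (nat_lit 4) (.two (nat_lit 1) (nat_lit 2) (nat_lit 1556) (nat_lit 1) (.two (nat_lit 0) (nat_lit 2) (nat_lit 4359) (nat_lit 1) (.one (nat_lit 3468) (nat_lit 8) .nil)))))),
   .der (nat_lit 801) (nat_lit 417),
   .der (nat_lit 114) (nat_lit 1396),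
   .prs (.two (nat_lit 30) (nat_lit 16) (nat_lit 109) (nat_lit 1) (.two (nat_lit 710) (nat_lit 1) (nat_lit 4361) (nat_lit 16) (.one (nat_lit 4362) (nat_lit 16) .nil))),
   .der (nat_lit 18) (nat_lit 1428),
   .prs (.two (nat_lit 69) (nat_lit 16) (nat_lit 109) (nat_lit 1) (.two (nat_lit 937) (nat_lit 1) (nat_lit 419) (nat_lit 16) (.two (nat_lit 710) (nat_lit 1) (nat_lit 4361) (nat_lit 16) (.two (nat_lit 0) (nat_lit 1) (nat_lit 4364) (nat_lit 16) (.one (nat_lit 3473) (nat_lit 16) .nil))))),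
   .der (nat_lit 24916) (nat_lit 76),
   .der (nat_lit 26386) (nat_lit 172),
   .der (nat_lit 26386) (nat_lit 864),
   .prs (.two (nat_lit 794) (nat_lit 4) (nat_lit 4366) (nat_lit 8) (.two (nat_lit 75) (nat_lit 4) (nat_lit 4367) (nat_lit 8) (.two (nat_lit 1) (nat_lit 4) (nat_lit 4368) (nat_lit 8) (.one (nat_lit 3477) (nat_lit 4) .nil)))),
   .der (nat_lit 114) (nat_lit 121),
   .der (nat_lit 8) (nat_lit 1073),
   .der (nat_lit 1074) (nat_lit 2375),
   .der (nat_lit 1380) (nat_lit 2369),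
   .prs (.two (nat_lit 1113) (nat_lit 16) (nat_lit 4370) (nat_lit 2) (.two (nat_lit 68) (nat_lit 2) (nat_lit 859) (nat_lit 16) (.two (nat_lit 3) (nat_lit 4) (nat_lit 4371) (nat_lit 16) (.two (nat_lit 0) (nat_lit 16) (nat_lit 4372) (nat_lit 4) (.one (nat_lit 4373) (nat_lit 4) .nil))))),
   .der (nat_lit 86) (nat_lit 39),
   .der (nat_lit 1299) (nat_lit 848),
   .der (nat_lit 1430) (nat_lit 1450),
   .der (nat_lit 6) (nat_lit 3291),
   .prs (.two (nat_lit 676) (nat_lit 16) (nat_lit 459) (nat_lit 4) (.two (nat_lit 637) (nat_lit 4) (nat_lit 4375) (nat_lit 16) (.two (nat_lit 684) (nat_lit 4) (nat_lit 1472) (nat_lit 16) (.two (nat_lit 1) (nat_lit 4) (nat_lit 4376) (nat_lit 16) (.two (nat_lit 0) (nat_lit 4) (nat_lit 4377) (nat_lit 16) (.one (nat_lit 4378) (nat_lit 16) .nil)))))),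
   .der (nat_lit 101) (nat_lit 33),
   .der (nat_lit 19) (nat_lit 82),
   .der (nat_lit 86) (nat_lit 837),
   .prs (.two (nat_lit 390) (nat_lit 16) (nat_lit 459) (nat_lit 2) (.two (nat_lit 637) (nat_lit 2) (nat_lit 4380) (nat_lit 16) (.two (nat_lit 206) (nat_lit 2) (nat_lit 4381) (nat_lit 16) (.two (nat_lit 1) (nat_lit 2) (nat_lit 4382) (nat_lit 16) (.two (nat_lit 0) (nat_lit 2) (nat_lit 2578) (nat_lit 16) (.one (nat_lit 3483) (nat_lit 16) .nil)))))),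
   .der (nat_lit 86) (nat_lit 1428),
   .der (nat_lit 561) (nat_lit 2360),
   .prs (.two (nat_lit 13) (nat_lit 8) (nat_lit 1857) (nat_lit 4) (.two (nat_lit 2) (nat_lit 4) (nat_lit 2561) (nat_lit 8) (.two (nat_lit 1) (nat_lit 4) (nat_lit 4384) (nat_lit 8) (.one (nat_lit 4385) (nat_lit 4) .nil)))),
   .der (nat_lit 117) (nat_lit 108),
   .der (nat_lit 1893) (nat_lit 873),
   .der (nat_lit 801) (nat_lit 2210),
   .prs (.two (nat_lit 13) (nat_lit 8) (nat_lit 449) (nat_lit 2) (.two (nat_lit 227) (nat_lit 8) (nat_lit 4387) (nat_lit 2) (.two (nat_lit 463) (nat_lit 8) (nat_lit 1939) (nat_lit 2) (.two (nat_lit 1) (nat_lit 8) (nat_lit 4388) (nat_lit 2) (.two (nat_lit 0) (nat_lit 8) (nat_lit 2581) (nat_lit 2) (.one (nat_lit 4389) (nat_lit 8) .nil)))))),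
   .der (nat_lit 161) (nat_lit 123),
   .der (nat_lit 1893) (nat_lit 477),
   .der (nat_lit 2135) (nat_lit 2382),
   .prs (.two (nat_lit 227) (nat_lit 16) (nat_lit 4391) (nat_lit 2) (.two (nat_lit 1) (nat_lit 4) (nat_lit 4392) (nat_lit 2) (.two (nat_lit 0) (nat_lit 2) (nat_lit 1718) (nat_lit 16) (.one (nat_lit 4393) (nat_lit 2) .nil)))),
   .der (nat_lit 4) (nat_lit 199),
   .der (nat_lit 5716) (nat_lit 934),
   .der (nat_lit 371) (nat_lit 1438),
   .prs (.two (nat_lit 825) (nat_lit 4) (nat_lit 2674) (nat_lit 8) (.two (nat_lit 78) (nat_lit 4) (nat_lit 4395) (nat_lit 8) (.two (nat_lit 3) (nat_lit 4) (nat_lit 4396) (nat_lit 8) (.two (nat_lit 0) (nat_lit 16) (nat_lit 4397) (nat_lit 4) (.one (nat_lit 3485) (nat_lit 4) .nil))))),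
   .der (nat_lit 6) (nat_lit 37),
   .der (nat_lit 19) (nat_lit 169),
   .der (nat_lit 84) (nat_lit 3233),
   .prs (.two (nat_lit 127) (nat_lit 16) (nat_lit 459) (nat_lit 2) (.two (nat_lit 637) (nat_lit 2) (nat_lit 4399) (nat_lit 16) (.two (nat_lit 206) (nat_lit 2) (nat_lit 4400) (nat_lit 16) (.two (nat_lit 1) (nat_lit 2) (nat_lit 1693) (nat_lit 16) (.one (nat_lit 4401) (nat_lit 16) .nil))))),
   .der (nat_lit 2084) (nat_lit 24),
   .der (nat_lit 5971) (nat_lit 39),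
   .der (nat_lit 66) (nat_lit 594),
   .der (nat_lit 659) (nat_lit 1051),
   .der (nat_lit 659) (nat_lit 2369),
   .prs (.two (nat_lit 1059) (nat_lit 2) (nat_lit 4403) (nat_lit 8) (.two (nat_lit 543) (nat_lit 8) (nat_lit 4404) (nat_lit 2) (.two (nat_lit 25) (nat_lit 8) (nat_lit 4405) (nat_lit 2) (.two (nat_lit 1) (nat_lit 8) (nat_lit 4406) (nat_lit 2) (.two (nat_lit 0) (nat_lit 2) (nat_lit 2583) (nat_lit 8) (.one (nat_lit 4407) (nat_lit 2) .nil)))))),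
   .der (nat_lit 1554) (nat_lit 52),
   .der (nat_lit 20) (nat_lit 2564),
   .prs (.two (nat_lit 80) (nat_lit 8) (nat_lit 4409) (nat_lit 2) (.two (nat_lit 30) (nat_lit 8) (nat_lit 1084) (nat_lit 1) (.two (nat_lit 442) (nat_lit 1) (nat_lit 1722) (nat_lit 8) (.two (nat_lit 1) (nat_lit 2) (nat_lit 1713) (nat_lit 1) (.two (nat_lit 0) (nat_lit 2) (nat_lit 4410) (nat_lit 8) (.one (nat_lit 3490) (nat_lit 2) .nil)))))),
   .der (nat_lit 98) (nat_lit 392),
   .prs (.two (nat_lit 1126) (nat_lit 16) (nat_lit 2433) (nat_lit 2) (.two (nat_lit 9) (nat_lit 16) (nat_lit 1574) (nat_lit 4) (.two (nat_lit 3) (nat_lit 4) (nat_lit 4412) (nat_lit 16) (.two (nat_lit 0) (nat_lit 2) (nat_lit 1721) (nat_lit 16) (.one (nat_lit 2606) (nat_lit 4) .nil))))),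
   .der (nat_lit 3) (nat_lit 578),
   .der (nat_lit 3) (nat_lit 2375),
   .der (nat_lit 3) (nat_lit 3300),
   .prs (.two (nat_lit 13) (nat_lit 4) (nat_lit 520) (nat_lit 8) (.two (nat_lit 129) (nat_lit 8) (nat_lit 3960) (nat_lit 1) (.two (nat_lit 2) (nat_lit 8) (nat_lit 4414) (nat_lit 4) (.two (nat_lit 1) (nat_lit 8) (nat_lit 3437) (nat_lit 4) (.two (nat_lit 0) (nat_lit 8) (nat_lit 4415) (nat_lit 4) (.one (nat_lit 4416) (nat_lit 4) .nil)))))),
   .der (nat_lit 834) (nat_lit 187),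
   .der (nat_lit 137) (nat_lit 1579),
   .prs (.two (nat_lit 528) (nat_lit 8) (nat_lit 1059) (nat_lit 2) (.two (nat_lit 75) (nat_lit 2) (nat_lit 3411) (nat_lit 8) (.two (nat_lit 1) (nat_lit 2) (nat_lit 4418) (nat_lit 8) (.two (nat_lit 0) (nat_lit 1) (nat_lit 4419) (nat_lit 8) (.one (nat_lit 3523) (nat_lit 8) .nil))))),
   .der (nat_lit 87) (nat_lit 187),
   .der (nat_lit 135) (nat_lit 907),
   .prs (.two (nat_lit 129) (nat_lit 8) (nat_lit 2245) (nat_lit 1) (.two (nat_lit 1) (nat_lit 8) (nat_lit 4421) (nat_lit 1) (.two (nat_lit 0) (nat_lit 8) (nat_lit 4422) (nat_lit 16) (.one (nat_lit 2614) (nat_lit 16) .nil)))),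
   .der (nat_lit 627) (nat_lit 162),
   .der (nat_lit 627) (nat_lit 381),
   .prs (.two (nat_lit 6) (nat_lit 4) (nat_lit 459) (nat_lit 2) (.two (nat_lit 463) (nat_lit 4) (nat_lit 4424) (nat_lit 2) (.two (nat_lit 1) (nat_lit 4) (nat_lit 4425) (nat_lit 2) (.two (nat_lit 0) (nat_lit 1) (nat_lit 2589) (nat_lit 4) (.one (nat_lit 3525) (nat_lit 1) .nil))))),
   .der (nat_lit 17185) (nat_lit 39),
   .der (nat_lit 6) (nat_lit 897),
   .der (nat_lit 1122) (nat_lit 1444),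
   .der (nat_lit 6) (nat_lit 3141),
   .prs (.two (nat_lit 71) (nat_lit 1) (nat_lit 3262) (nat_lit 2) (.two (nat_lit 1333) (nat_lit 2) (nat_lit 4427) (nat_lit 1) (.two (nat_lit 190) (nat_lit 1) (nat_lit 1702) (nat_lit 2) (.two (nat_lit 3) (nat_lit 1) (nat_lit 4428) (nat_lit 2) (.two (nat_lit 0) (nat_lit 1) (nat_lit 4429) (nat_lit 2) (.one (nat_lit 4430) (nat_lit 1) .nil)))))),
   .der (nat_lit 26386) (nat_lit 121),
   .der (nat_lit 101) (nat_lit 1051),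
   .prs (.two (nat_lit 36) (nat_lit 8) (nat_lit 180) (nat_lit 2) (.two (nat_lit 5) (nat_lit 1) (nat_lit 4432) (nat_lit 8) (.two (nat_lit 1) (nat_lit 2) (nat_lit 2532) (nat_lit 1) (.two (nat_lit 0) (nat_lit 4) (nat_lit 4433) (nat_lit 2) (.one (nat_lit 3527) (nat_lit 8) .nil))))),
   .der (nat_lit 354) (nat_lit 906),
   .prs (.two (nat_lit 1767) (nat_lit 4) (nat_lit 423) (nat_lit 16) (.two (nat_lit 3) (nat_lit 4) (nat_lit 4435) (nat_lit 16) (.one (nat_lit 3528) (nat_lit 16) .nil))),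
   .der (nat_lit 2578) (nat_lit 594),
   .der (nat_lit 644) (nat_lit 934),
   .der (nat_lit 10) (nat_lit 2188),
   .prs (.two (nat_lit 825) (nat_lit 4) (nat_lit 1326) (nat_lit 8) (.two (nat_lit 134) (nat_lit 8) (nat_lit 2906) (nat_lit 4) (.two (nat_lit 78) (nat_lit 4) (nat_lit 4437) (nat_lit 8) (.two (nat_lit 3) (nat_lit 4) (nat_lit 4438) (nat_lit 8) (.two (nat_lit 0) (nat_lit 16) (nat_lit 4439) (nat_lit 4) .nil))))),
   .der (nat_lit 87) (nat_lit 45),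
   .der (nat_lit 1122) (nat_lit 441),
   .der (nat_lit 132) (nat_lit 1415),
   .der (nat_lit 65) (nat_lit 2249),
   .prs (.two (nat_lit 1582) (nat_lit 16) (nat_lit 4441) (nat_lit 4) (.two (nat_lit 129) (nat_lit 4) (nat_lit 2558) (nat_lit 16) (.two (nat_lit 75) (nat_lit 4) (nat_lit 4442) (nat_lit 16) (.two (nat_lit 46) (nat_lit 2) (nat_lit 4443) (nat_lit 16) (.one (nat_lit 4444) (nat_lit 2) .nil))))),
   .der (nat_lit 20) (nat_lit 70),
   .der (nat_lit 115) (nat_lit 906),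
   .prs (.two (nat_lit 1137) (nat_lit 4) (nat_lit 459) (nat_lit 2) (.two (nat_lit 78) (nat_lit 4) (nat_lit 4446) (nat_lit 2) (.two (nat_lit 3) (nat_lit 4) (nat_lit 432) (nat_lit 2) (.two (nat_lit 0) (nat_lit 4) (nat_lit 4447) (nat_lit 2) (.one (nat_lit 2624) (nat_lit 2) .nil))))),
   .der (nat_lit 5218) (nat_lit 64),
   .der (nat_lit 22548) (nat_lit 192),
   .der (nat_lit 9587) (nat_lit 1070),
   .der (nat_lit 162) (nat_lit 2574),
   .prs (.two (nat_lit 502) (nat_lit 8) (nat_lit 4449) (nat_lit 2) (.two (nat_lit 99) (nat_lit 2) (nat_lit 4450) (nat_lit 8) (.two (nat_lit 46) (nat_lit 2) (nat_lit 4451) (nat_lit 8) (.two (nat_lit 0) (nat_lit 2) (nat_lit 4452) (nat_lit 8) (.one (nat_lit 3418) (nat_lit 2) .nil))))),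
   .der (nat_lit 150) (nat_lit 1396),
   .prs (.two (nat_lit 13) (nat_lit 4) (nat_lit 2685) (nat_lit 2) (.two (nat_lit 886) (nat_lit 2) (nat_lit 1429) (nat_lit 4) (.two (nat_lit 3) (nat_lit 8) (nat_lit 4454) (nat_lit 2) (.one (nat_lit 3506) (nat_lit 1) .nil)))),
   .der (nat_lit 147) (nat_lit 29),
   .der (nat_lit 1811) (nat_lit 252),
   .der (nat_lit 101) (nat_lit 421),
   .prs (.two (nat_lit 12) (nat_lit 1) (nat_lit 4456) (nat_lit 4) (.two (nat_lit 5) (nat_lit 1) (nat_lit 4457) (nat_lit 4) (.two (nat_lit 1) (nat_lit 2) (nat_lit 3470) (nat_lit 1) (.two (nat_lit 0) (nat_lit 2) (nat_lit 4458) (nat_lit 8) (.one (nat_lit 3530) (nat_lit 4) .nil))))),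
   .der (nat_lit 801) (nat_lit 73),
   .der (nat_lit 1073) (nat_lit 923),
   .der (nat_lit 2390) (nat_lit 2468),
   .prs (.two (nat_lit 91) (nat_lit 2) (nat_lit 4460) (nat_lit 16) (.two (nat_lit 3) (nat_lit 8) (nat_lit 4461) (nat_lit 16) (.one (nat_lit 4462) (nat_lit 16) .nil))),
   .der (nat_lit 1653) (nat_lit 1469),
   .prs (.two (nat_lit 791) (nat_lit 2) (nat_lit 449) (nat_lit 8) (.two (nat_lit 170) (nat_lit 2) (nat_lit 1694) (nat_lit 8) (.two (nat_lit 1) (nat_lit 2) (nat_lit 4464) (nat_lit 8) (.one (nat_lit 3532) (nat_lit 8) .nil)))),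
   .der (nat_lit 18) (nat_lit 621),
   .der (nat_lit 33) (nat_lit 906),
   .prs (.two (nat_lit 65) (nat_lit 2) (nat_lit 454) (nat_lit 4) (.two (nat_lit 3) (nat_lit 1) (nat_lit 4466) (nat_lit 2) (.two (nat_lit 0) (nat_lit 1) (nat_lit 4467) (nat_lit 2) (.one (nat_lit 3535) (nat_lit 2) .nil)))),
   .der (nat_lit 86) (nat_lit 2238),
   .prs (.two (nat_lit 42) (nat_lit 16) (nat_lit 965) (nat_lit 4) (.two (nat_lit 170) (nat_lit 4) (nat_lit 3423) (nat_lit 16) (.two (nat_lit 0) (nat_lit 4) (nat_lit 4435) (nat_lit 16) (.one (nat_lit 4469) (nat_lit 16) .nil)))),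
   .der (nat_lit 8) (nat_lit 10),
   .der (nat_lit 2068) (nat_lit 584),
   .prs (.two (nat_lit 4471) (nat_lit 2) (nat_lit 145) (nat_lit 4) (.two (nat_lit 75) (nat_lit 2) (nat_lit 593) (nat_lit 4) (.two (nat_lit 1) (nat_lit 2) (nat_lit 4472) (nat_lit 4) (.two (nat_lit 0) (nat_lit 2) (nat_lit 1734) (nat_lit 4) (.one (nat_lit 2649) (nat_lit 1) .nil))))),
   .der (nat_lit 6) (nat_lit 898),
   .prs (.two (nat_lit 42) (nat_lit 16) (nat_lit 965) (nat_lit 4) (.two (nat_lit 170) (nat_lit 4) (nat_lit 3423) (nat_lit 16) (.two (nat_lit 0) (nat_lit 4) (nat_lit 4474) (nat_lit 16) (.one (nat_lit 4469) (nat_lit 16) .nil)))),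
   .der (nat_lit 5971) (nat_lit 131),
   .prs (.two (nat_lit 370) (nat_lit 4) (nat_lit 4476) (nat_lit 1) (.two (nat_lit 3) (nat_lit 1) (nat_lit 3148) (nat_lit 4) (.two (nat_lit 0) (nat_lit 1) (nat_lit 2654) (nat_lit 4) (.one (nat_lit 2655) (nat_lit 4) .nil)))),
   .der (nat_lit 21107) (nat_lit 1586),
   .prs (.two (nat_lit 6) (nat_lit 8) (nat_lit 233) (nat_lit 1) (.two (nat_lit 34) (nat_lit 8) (nat_lit 1449) (nat_lit 1) (.two (nat_lit 1) (nat_lit 16) (nat_lit 4478) (nat_lit 1) (.one (nat_lit 3537) (nat_lit 1) .nil)))),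
   .der (nat_lit 103) (nat_lit 177),
   .der (nat_lit 1) (nat_lit 936),
   .prs (.two (nat_lit 227) (nat_lit 8) (nat_lit 3366) (nat_lit 4) (.two (nat_lit 1) (nat_lit 8) (nat_lit 4480) (nat_lit 4) (.two (nat_lit 0) (nat_lit 2) (nat_lit 4481) (nat_lit 4) (.one (nat_lit 3539) (nat_lit 4) .nil)))),
   .der (nat_lit 165) (nat_lit 201),
   .der (nat_lit 1653) (nat_lit 1432),
   .prs (.two (nat_lit 723) (nat_lit 1) (nat_lit 550) (nat_lit 8) (.two (nat_lit 173) (nat_lit 1) (nat_lit 4483) (nat_lit 8) (.two (nat_lit 3) (nat_lit 1) (nat_lit 4484) (nat_lit 8) .nil))),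
   .der (nat_lit 98) (nat_lit 1381),
   .prs (.two (nat_lit 489) (nat_lit 16) (nat_lit 762) (nat_lit 2) (.two (nat_lit 206) (nat_lit 2) (nat_lit 2337) (nat_lit 16) (.two (nat_lit 0) (nat_lit 2) (nat_lit 4486) (nat_lit 16) .nil))),
   .der (nat_lit 2339) (nat_lit 74),
   .der (nat_lit 2578) (nat_lit 1604),
   .prs (.two (nat_lit 12) (nat_lit 1) (nat_lit 1245) (nat_lit 4) (.two (nat_lit 4) (nat_lit 2) (nat_lit 4488) (nat_lit 4) (.two (nat_lit 1) (nat_lit 2) (nat_lit 4489) (nat_lit 4) (.one (nat_lit 2667) (nat_lit 2) .nil)))),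
   .der (nat_lit 22803) (nat_lit 57),
   .der (nat_lit 22803) (nat_lit 243),
   .prs (.two (nat_lit 6) (nat_lit 8) (nat_lit 4491) (nat_lit 2) (.two (nat_lit 2) (nat_lit 8) (nat_lit 4492) (nat_lit 2) (.two (nat_lit 3) (nat_lit 16) (nat_lit 2636) (nat_lit 2) (.one (nat_lit 2679) (nat_lit 2) .nil)))),
   .der (nat_lit 13345) (nat_lit 33),
   .der (nat_lit 1057) (nat_lit 82),
   .der (nat_lit 13345) (nat_lit 881),
   .prs (.two (nat_lit 6) (nat_lit 8) (nat_lit 4494) (nat_lit 1) (.two (nat_lit 1) (nat_lit 8) (nat_lit 4495) (nat_lit 1) (.two (nat_lit 0) (nat_lit 8) (nat_lit 4496) (nat_lit 1) (.one (nat_lit 3543) (nat_lit 1) .nil)))),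
   .der (nat_lit 882) (nat_lit 73),
   .der (nat_lit 340) (nat_lit 401)]

theorem b5_step8 (h : ∀ j < 4000, Good b5T j) : ∀ j < 4500, Good b5T j := by
  intro j hj
  refine chkL_ok b5C8 4000 h (by decide +kernel) j ?_
  have h : b5C8.length = 500 := by decide +kernel
  omega

/-- certificates 4500..5000 -/
def b5C9 : List Cf :=
  [.prs (.two (nat_lit 28) (nat_lit 1) (nat_lit 742) (nat_lit 2) (.two (nat_lit 3) (nat_lit 1) (nat_lit 4498) (nat_lit 2) (.two (nat_lit 0) (nat_lit 1) (nat_lit 4499) (nat_lit 2) (.one (nat_lit 2693) (nat_lit 2) .nil)))),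
   .der (nat_lit 5971) (nat_lit 98),
   .der (nat_lit 5) (nat_lit 1022),
   .der (nat_lit 17185) (nat_lit 2409),
   .prs (.two (nat_lit 397) (nat_lit 1) (nat_lit 965) (nat_lit 4) (.two (nat_lit 170) (nat_lit 4) (nat_lit 4501) (nat_lit 1) (.two (nat_lit 1) (nat_lit 2) (nat_lit 4502) (nat_lit 1) (.one (nat_lit 4503) (nat_lit 1) .nil)))),
   .prs (.two (nat_lit 129) (nat_lit 16) (nat_lit 4380) (nat_lit 2) (.two (nat_lit 1) (nat_lit 16) (nat_lit 1394) (nat_lit 2) (.two (nat_lit 0) (nat_lit 16) (nat_lit 2682) (nat_lit 2) (.one (nat_lit 3545) (nat_lit 2) .nil)))),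
   .der (nat_lit 7) (nat_lit 201),
   .der (nat_lit 115) (nat_lit 989),
   .prs (.two (nat_lit 6) (nat_lit 4) (nat_lit 390) (nat_lit 16) (.two (nat_lit 78) (nat_lit 4) (nat_lit 4506) (nat_lit 1) (.two (nat_lit 16) (nat_lit 4) (nat_lit 4507) (nat_lit 1) (.two (nat_lit 0) (nat_lit 1) (nat_lit 2684) (nat_lit 16) (.one (nat_lit 3429) (nat_lit 1) .nil))))),
   .der (nat_lit 22803) (nat_lit 279),
   .der (nat_lit 1) (nat_lit 982),
   .prs (.two (nat_lit 397) (nat_lit 4) (nat_lit 4509) (nat_lit 1) (.two (nat_lit 0) (nat_lit 4) (nat_lit 1785) (nat_lit 1) (.one (nat_lit 4510) (nat_lit 1) .nil))),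
   .prs (.two (nat_lit 129) (nat_lit 4) (nat_lit 370) (nat_lit 16) (.two (nat_lit 34) (nat_lit 2) (nat_lit 1843) (nat_lit 4) (.two (nat_lit 0) (nat_lit 2) (nat_lit 1812) (nat_lit 16) (.one (nat_lit 2713) (nat_lit 2) .nil)))),
   .der (nat_lit 370) (nat_lit 15),
   .der (nat_lit 2193) (nat_lit 43),
   .der (nat_lit 1057) (nat_lit 123),
   .prs (.two (nat_lit 6) (nat_lit 16) (nat_lit 4513) (nat_lit 4) (.two (nat_lit 75) (nat_lit 16) (nat_lit 4514) (nat_lit 4) (.two (nat_lit 1) (nat_lit 16) (nat_lit 4515) (nat_lit 4) (.two (nat_lit 0) (nat_lit 4) (nat_lit 1722) (nat_lit 16) (.one (nat_lit 2714) (nat_lit 4) .nil))))),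
   .prs (.two (nat_lit 404) (nat_lit 16) (nat_lit 3649) (nat_lit 2) (.two (nat_lit 1) (nat_lit 2) (nat_lit 81) (nat_lit 16) (.two (nat_lit 0) (nat_lit 4) (nat_lit 2546) (nat_lit 2) (.one (nat_lit 2724) (nat_lit 2) .nil)))),
   .der (nat_lit 1650) (nat_lit 1128),
   .prs (.two (nat_lit 6) (nat_lit 4) (nat_lit 127) (nat_lit 16) (.two (nat_lit 1) (nat_lit 4) (nat_lit 2622) (nat_lit 16) (.two (nat_lit 0) (nat_lit 4) (nat_lit 4518) (nat_lit 16) (.one (nat_lit 3550) (nat_lit 16) .nil)))),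
   .der (nat_lit 161) (nat_lit 115),
   .der (nat_lit 7) (nat_lit 465),
   .prs (.two (nat_lit 65) (nat_lit 2) (nat_lit 1480) (nat_lit 8) (.two (nat_lit 1) (nat_lit 2) (nat_lit 4520) (nat_lit 8) (.two (nat_lit 0) (nat_lit 1) (nat_lit 4521) (nat_lit 2) (.one (nat_lit 3552) (nat_lit 2) .nil)))),
   .der (nat_lit 1653) (nat_lit 451),
   .prs (.two (nat_lit 791) (nat_lit 2) (nat_lit 449) (nat_lit 8) (.two (nat_lit 1) (nat_lit 2) (nat_lit 4523) (nat_lit 8) (.one (nat_lit 2725) (nat_lit 8) .nil))),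
   .der (nat_lit 17185) (nat_lit 87),
   .prs (.two (nat_lit 1256) (nat_lit 8) (nat_lit 2754) (nat_lit 1) (.two (nat_lit 329) (nat_lit 2) (nat_lit 674) (nat_lit 1) (.two (nat_lit 1) (nat_lit 2) (nat_lit 4525) (nat_lit 1) (.two (nat_lit 0) (nat_lit 8) (nat_lit 2697) (nat_lit 1) (.one (nat_lit 1828) (nat_lit 1) .nil))))),
   .der (nat_lit 83) (nat_lit 76),
   .der (nat_lit 354) (nat_lit 414),
   .der (nat_lit 18) (nat_lit 2540),
   .prs (.two (nat_lit 858) (nat_lit 16) (nat_lit 1059) (nat_lit 1) (.two (nat_lit 1149) (nat_lit 1) (nat_lit 4527) (nat_lit 16) (.two (nat_lit 334) (nat_lit 1) (nat_lit 4528) (nat_lit 16) (.two (nat_lit 16) (nat_lit 1) (nat_lit 2520) (nat_lit 16) (.two (nat_lit 0) (nat_lit 1) (nat_lit 4529) (nat_lit 16) (.one (nat_lit 3587) (nat_lit 1) .nil)))))),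
   .der (nat_lit 161) (nat_lit 62),
   .der (nat_lit 339) (nat_lit 578),
   .der (nat_lit 1893) (nat_lit 3120),
   .prs (.two (nat_lit 105) (nat_lit 4) (nat_lit 509) (nat_lit 8) (.two (nat_lit 6) (nat_lit 4) (nat_lit 4531) (nat_lit 8) (.two (nat_lit 68) (nat_lit 1) (nat_lit 4532) (nat_lit 8) (.two (nat_lit 16) (nat_lit 1) (nat_lit 4461) (nat_lit 8) (.two (nat_lit 0) (nat_lit 1) (nat_lit 2747) (nat_lit 8) (.one (nat_lit 4533) (nat_lit 1) .nil)))))),
   .der (nat_lit 34068) (nat_lit 90),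
   .der (nat_lit 147) (nat_lit 177),
   .der (nat_lit 24916) (nat_lit 1861),
   .prs (.two (nat_lit 6) (nat_lit 4) (nat_lit 520) (nat_lit 8) (.two (nat_lit 463) (nat_lit 4) (nat_lit 4535) (nat_lit 8) (.two (nat_lit 1) (nat_lit 4) (nat_lit 4536) (nat_lit 2) (.two (nat_lit 0) (nat_lit 4) (nat_lit 4537) (nat_lit 2) (.one (nat_lit 3641) (nat_lit 4) .nil))))),
   .der (nat_lit 340) (nat_lit 39),
   .der (nat_lit 20) (nat_lit 169),
   .der (nat_lit 114) (nat_lit 967),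
   .der (nat_lit 118) (nat_lit 1693),
   .der (nat_lit 114) (nat_lit 2188),
   .prs (.two (nat_lit 522) (nat_lit 8) (nat_lit 4539) (nat_lit 2) (.two (nat_lit 482) (nat_lit 8) (nat_lit 4540) (nat_lit 2) (.two (nat_lit 3) (nat_lit 8) (nat_lit 4541) (nat_lit 2) (.two (nat_lit 0) (nat_lit 8) (nat_lit 4542) (nat_lit 2) (.one (nat_lit 4543) (nat_lit 8) .nil))))),
   .der (nat_lit 5971) (nat_lit 87),
   .der (nat_lit 1299) (nat_lit 497),
   .der (nat_lit 21107) (nat_lit 1664),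
   .prs (.two (nat_lit 791) (nat_lit 2) (nat_lit 4545) (nat_lit 1) (.two (nat_lit 1) (nat_lit 16) (nat_lit 4546) (nat_lit 2) (.two (nat_lit 0) (nat_lit 2) (nat_lit 4547) (nat_lit 1) (.one (nat_lit 3646) (nat_lit 1) .nil)))),
   .der (nat_lit 135) (nat_lit 101),
   .prs (.two (nat_lit 30) (nat_lit 1) (nat_lit 459) (nat_lit 8) (.two (nat_lit 7) (nat_lit 1) (nat_lit 4549) (nat_lit 8) (.two (nat_lit 1) (nat_lit 16) (nat_lit 1869) (nat_lit 1) (.two (nat_lit 0) (nat_lit 16) (nat_lit 2791) (nat_lit 1) (.one (nat_lit 3648) (nat_lit 8) .nil))))),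
   .der (nat_lit 114) (nat_lit 95),
   .der (nat_lit 8) (nat_lit 719),
   .der (nat_lit 35) (nat_lit 857),
   .der (nat_lit 87) (nat_lit 2518),
   .prs (.two (nat_lit 69) (nat_lit 16) (nat_lit 959) (nat_lit 1) (.two (nat_lit 65) (nat_lit 16) (nat_lit 4551) (nat_lit 2) (.two (nat_lit 34) (nat_lit 16) (nat_lit 4552) (nat_lit 2) (.two (nat_lit 1) (nat_lit 2) (nat_lit 4553) (nat_lit 16) (.two (nat_lit 0) (nat_lit 1) (nat_lit 4554) (nat_lit 16) (.one (nat_lit 3595) (nat_lit 1) .nil)))))),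
   .der (nat_lit 1875) (nat_lit 110),
   .der (nat_lit 9572) (nat_lit 504),
   .der (nat_lit 33345) (nat_lit 1052),
   .prs (.two (nat_lit 32) (nat_lit 16) (nat_lit 4556) (nat_lit 2) (.two (nat_lit 5) (nat_lit 16) (nat_lit 4557) (nat_lit 2) (.two (nat_lit 3) (nat_lit 16) (nat_lit 4558) (nat_lit 2) (.two (nat_lit 0) (nat_lit 8) (nat_lit 2749) (nat_lit 16) (.one (nat_lit 3598) (nat_lit 16) .nil))))),
   .der (nat_lit 4978) (nat_lit 133),
   .der (nat_lit 2135) (nat_lit 594),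
   .der (nat_lit 10) (nat_lit 897),
   .prs (.two (nat_lit 404) (nat_lit 8) (nat_lit 4560) (nat_lit 1) (.two (nat_lit 5) (nat_lit 1) (nat_lit 4561) (nat_lit 8) (.two (nat_lit 0) (nat_lit 1) (nat_lit 4562) (nat_lit 8) (.one (nat_lit 3650) (nat_lit 8) .nil)))),
   .der (nat_lit 33) (nat_lit 414),
   .der (nat_lit 33) (nat_lit 857),
   .prs (.two (nat_lit 227) (nat_lit 16) (nat_lit 122) (nat_lit 8) (.two (nat_lit 439) (nat_lit 8) (nat_lit 4564) (nat_lit 16) (.two (nat_lit 0) (nat_lit 8) (nat_lit 4565) (nat_lit 16) (.one (nat_lit 3600) (nat_lit 8) .nil)))),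
   .der (nat_lit 98) (nat_lit 1144),
   .prs (.two (nat_lit 882) (nat_lit 4) (nat_lit 965) (nat_lit 2) (.two (nat_lit 170) (nat_lit 2) (nat_lit 1815) (nat_lit 4) (.two (nat_lit 1) (nat_lit 4) (nat_lit 4567) (nat_lit 2) (.two (nat_lit 0) (nat_lit 4) (nat_lit 1864) (nat_lit 2) (.one (nat_lit 3652) (nat_lit 2) .nil))))),
   .der (nat_lit 1875) (nat_lit 98),
   .prs (.two (nat_lit 105) (nat_lit 4) (nat_lit 4569) (nat_lit 2) (.two (nat_lit 2) (nat_lit 4) (nat_lit 1564) (nat_lit 2) (.two (nat_lit 0) (nat_lit 1) (nat_lit 3608) (nat_lit 2) (.one (nat_lit 3609) (nat_lit 1) .nil)))),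
   .der (nat_lit 852) (nat_lit 98),
   .der (nat_lit 339) (nat_lit 412),
   .der (nat_lit 339) (nat_lit 850),
   .der (nat_lit 8) (nat_lit 1473),
   .prs (.two (nat_lit 462) (nat_lit 8) (nat_lit 359) (nat_lit 16) (.two (nat_lit 227) (nat_lit 16) (nat_lit 4571) (nat_lit 8) (.two (nat_lit 433) (nat_lit 1) (nat_lit 4572) (nat_lit 16) (.two (nat_lit 1) (nat_lit 8) (nat_lit 4573) (nat_lit 16) (.two (nat_lit 0) (nat_lit 1) (nat_lit 4574) (nat_lit 16) (.one (nat_lit 3579) (nat_lit 8) .nil)))))),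
   .der (nat_lit 2339) (nat_lit 135),
   .der (nat_lit 50) (nat_lit 702),
   .der (nat_lit 882) (nat_lit 1546),
   .prs (.two (nat_lit 12) (nat_lit 16) (nat_lit 4576) (nat_lit 1) (.two (nat_lit 3) (nat_lit 16) (nat_lit 4577) (nat_lit 1) (.two (nat_lit 0) (nat_lit 1) (nat_lit 1867) (nat_lit 16) (.one (nat_lit 4578) (nat_lit 1) .nil)))),
   .der (nat_lit 118) (nat_lit 907),
   .prs (.two (nat_lit 6) (nat_lit 4) (nat_lit 145) (nat_lit 2) (.two (nat_lit 2) (nat_lit 4) (nat_lit 900) (nat_lit 1) (.two (nat_lit 1) (nat_lit 4) (nat_lit 924) (nat_lit 1) (.two (nat_lit 0) (nat_lit 4) (nat_lit 4580) (nat_lit 8) (.one (nat_lit 3657) (nat_lit 8) .nil))))),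
   .der (nat_lit 147) (nat_lit 156),
   .der (nat_lit 2339) (nat_lit 827),
   .der (nat_lit 49) (nat_lit 1408),
   .prs (.two (nat_lit 717) (nat_lit 2) (nat_lit 965) (nat_lit 4) (.two (nat_lit 65) (nat_lit 2) (nat_lit 4582) (nat_lit 4) (.two (nat_lit 4) (nat_lit 2) (nat_lit 3171) (nat_lit 4) (.two (nat_lit 1) (nat_lit 2) (nat_lit 4583) (nat_lit 4) (.two (nat_lit 0) (nat_lit 2) (nat_lit 4584) (nat_lit 4) (.one (nat_lit 3619) (nat_lit 1) .nil)))))),
   .der (nat_lit 24916) (nat_lit 95),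
   .der (nat_lit 627) (nat_lit 1415),
   .prs (.two (nat_lit 808) (nat_lit 2) (nat_lit 4586) (nat_lit 8) (.two (nat_lit 1) (nat_lit 8) (nat_lit 4587) (nat_lit 2) .nil)),
   .der (nat_lit 1073) (nat_lit 29),
   .der (nat_lit 1300) (nat_lit 255),
   .der (nat_lit 9) (nat_lit 1079),
   .der (nat_lit 118) (nat_lit 1469),
   .prs (.two (nat_lit 1149) (nat_lit 2) (nat_lit 4589) (nat_lit 1) (.two (nat_lit 1214) (nat_lit 1) (nat_lit 4590) (nat_lit 2) (.two (nat_lit 3) (nat_lit 1) (nat_lit 4591) (nat_lit 2) (.two (nat_lit 0) (nat_lit 1) (nat_lit 4592) (nat_lit 2) (.one (nat_lit 3660) (nat_lit 2) .nil))))),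
   .der (nat_lit 2593) (nat_lit 24),
   .der (nat_lit 370) (nat_lit 87),
   .der (nat_lit 852) (nat_lit 435),
   .der (nat_lit 21107) (nat_lit 923),
   .prs (.two (nat_lit 12) (nat_lit 8) (nat_lit 4594) (nat_lit 1) (.two (nat_lit 384) (nat_lit 8) (nat_lit 4595) (nat_lit 1) (.two (nat_lit 3) (nat_lit 1) (nat_lit 4596) (nat_lit 8) (.two (nat_lit 0) (nat_lit 1) (nat_lit 4597) (nat_lit 2) (.one (nat_lit 2799) (nat_lit 2) .nil))))),
   .der (nat_lit 49) (nat_lit 72),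
   .der (nat_lit 22803) (nat_lit 417),
   .der (nat_lit 340) (nat_lit 2214),
   .prs (.two (nat_lit 94) (nat_lit 2) (nat_lit 4599) (nat_lit 16) (.two (nat_lit 7) (nat_lit 16) (nat_lit 4600) (nat_lit 2) (.two (nat_lit 0) (nat_lit 16) (nat_lit 4601) (nat_lit 2) .nil))),
   .der (nat_lit 29011) (nat_lit 72),
   .der (nat_lit 1299) (nat_lit 177),
   .der (nat_lit 16738) (nat_lit 936),
   .prs (.two (nat_lit 30) (nat_lit 16) (nat_lit 94) (nat_lit 2) (.two (nat_lit 556) (nat_lit 16) (nat_lit 4603) (nat_lit 2) (.two (nat_lit 1) (nat_lit 16) (nat_lit 4604) (nat_lit 2) (.two (nat_lit 0) (nat_lit 4) (nat_lit 4605) (nat_lit 2) (.one (nat_lit 3663) (nat_lit 2) .nil))))),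
   .der (nat_lit 2113) (nat_lit 95),
   .der (nat_lit 19) (nat_lit 192),
   .prs (.two (nat_lit 91) (nat_lit 4) (nat_lit 4607) (nat_lit 2) (.two (nat_lit 3) (nat_lit 16) (nat_lit 4608) (nat_lit 4) (.two (nat_lit 0) (nat_lit 2) (nat_lit 1870) (nat_lit 4) (.one (nat_lit 3665) (nat_lit 4) .nil)))),
   .der (nat_lit 147) (nat_lit 39),
   .der (nat_lit 24916) (nat_lit 177),
   .prs (.two (nat_lit 79) (nat_lit 16) (nat_lit 4610) (nat_lit 1) (.two (nat_lit 11) (nat_lit 16) (nat_lit 4611) (nat_lit 1) (.two (nat_lit 0) (nat_lit 16) (nat_lit 2804) (nat_lit 1) (.one (nat_lit 3668) (nat_lit 1) .nil)))),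
   .der (nat_lit 2353) (nat_lit 481),
   .der (nat_lit 9) (nat_lit 1760),
   .prs (.two (nat_lit 6) (nat_lit 4) (nat_lit 520) (nat_lit 8) (.two (nat_lit 2) (nat_lit 8) (nat_lit 2827) (nat_lit 1) (.two (nat_lit 1) (nat_lit 8) (nat_lit 4613) (nat_lit 1) (.two (nat_lit 0) (nat_lit 1) (nat_lit 4614) (nat_lit 4) (.one (nat_lit 2808) (nat_lit 4) .nil))))),
   .der (nat_lit 882) (nat_lit 220),
   .der (nat_lit 1380) (nat_lit 1704),
   .prs (.two (nat_lit 397) (nat_lit 4) (nat_lit 4616) (nat_lit 2) (.two (nat_lit 1) (nat_lit 2) (nat_lit 969) (nat_lit 4) (.two (nat_lit 0) (nat_lit 2) (nat_lit 4617) (nat_lit 4) (.one (nat_lit 2812) (nat_lit 2) .nil)))),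
   .der (nat_lit 9587) (nat_lit 39),
   .der (nat_lit 12658) (nat_lit 1706),
   .der (nat_lit 165) (nat_lit 2753),
   .der (nat_lit 834) (nat_lit 3422),
   .prs (.two (nat_lit 490) (nat_lit 2) (nat_lit 4619) (nat_lit 4) (.two (nat_lit 206) (nat_lit 2) (nat_lit 3596) (nat_lit 4) (.two (nat_lit 16) (nat_lit 4) (nat_lit 4620) (nat_lit 2) (.two (nat_lit 0) (nat_lit 2) (nat_lit 4621) (nat_lit 4) (.one (nat_lit 4622) (nat_lit 2) .nil))))),
   .der (nat_lit 5971) (nat_lit 1544),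
   .prs (.two (nat_lit 65) (nat_lit 8) (nat_lit 3703) (nat_lit 16) (.two (nat_lit 11) (nat_lit 16) (nat_lit 2303) (nat_lit 8) (.one (nat_lit 4624) (nat_lit 8) .nil))),
   .der (nat_lit 1122) (nat_lit 395),
   .prs (.two (nat_lit 456) (nat_lit 4) (nat_lit 1393) (nat_lit 1) (.two (nat_lit 341) (nat_lit 1) (nat_lit 2223) (nat_lit 4) (.two (nat_lit 3) (nat_lit 4) (nat_lit 4626) (nat_lit 1) (.two (nat_lit 0) (nat_lit 4) (nat_lit 2814) (nat_lit 1) (.one (nat_lit 3670) (nat_lit 1) .nil))))),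
   .der (nat_lit 65) (nat_lit 162),
   .der (nat_lit 10545) (nat_lit 172),
   .der (nat_lit 10545) (nat_lit 834),
   .prs (.two (nat_lit 6) (nat_lit 8) (nat_lit 2845) (nat_lit 1) (.two (nat_lit 2) (nat_lit 8) (nat_lit 4628) (nat_lit 1) (.two (nat_lit 1) (nat_lit 4) (nat_lit 4629) (nat_lit 1) (.two (nat_lit 0) (nat_lit 4) (nat_lit 4630) (nat_lit 1) (.one (nat_lit 3674) (nat_lit 1) .nil))))),
   .der (nat_lit 22548) (nat_lit 187),
   .der (nat_lit 371) (nat_lit 3652),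
   .prs (.two (nat_lit 427) (nat_lit 2) (nat_lit 4632) (nat_lit 4) (.two (nat_lit 0) (nat_lit 2) (nat_lit 2816) (nat_lit 1) (.one (nat_lit 4633) (nat_lit 1) .nil))),
   .der (nat_lit 1300) (nat_lit 39),
   .prs (.two (nat_lit 882) (nat_lit 4) (nat_lit 1862) (nat_lit 8) (.two (nat_lit 374) (nat_lit 1) (nat_lit 4635) (nat_lit 4) (.two (nat_lit 1) (nat_lit 8) (nat_lit 1429) (nat_lit 4) (.two (nat_lit 0) (nat_lit 4) (nat_lit 2817) (nat_lit 1) (.one (nat_lit 3676) (nat_lit 1) .nil))))),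
   .der (nat_lit 18) (nat_lit 59),
   .der (nat_lit 5) (nat_lit 451),
   .der (nat_lit 9) (nat_lit 950),
   .der (nat_lit 577) (nat_lit 2247),
   .prs (.two (nat_lit 13) (nat_lit 4) (nat_lit 4637) (nat_lit 16) (.two (nat_lit 384) (nat_lit 1) (nat_lit 4638) (nat_lit 16) (.two (nat_lit 1) (nat_lit 16) (nat_lit 4639) (nat_lit 4) (.two (nat_lit 0) (nat_lit 1) (nat_lit 2783) (nat_lit 4) (.one (nat_lit 4640) (nat_lit 16) .nil))))),
   .der (nat_lit 2323) (nat_lit 82),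
   .der (nat_lit 5218) (nat_lit 914),
   .der (nat_lit 103) (nat_lit 2414),
   .prs (.two (nat_lit 6) (nat_lit 16) (nat_lit 145) (nat_lit 4) (.two (nat_lit 2) (nat_lit 16) (nat_lit 4642) (nat_lit 4) (.two (nat_lit 0) (nat_lit 16) (nat_lit 4643) (nat_lit 4) (.one (nat_lit 4644) (nat_lit 4) .nil)))),
   .der (nat_lit 103) (nat_lit 39),
   .der (nat_lit 9587) (nat_lit 407),
   .der (nat_lit 1554) (nat_lit 2614),
   .prs (.two (nat_lit 44) (nat_lit 1) (nat_lit 4646) (nat_lit 8) (.two (nat_lit 11) (nat_lit 8) (nat_lit 4647) (nat_lit 1) (.two (nat_lit 0) (nat_lit 8) (nat_lit 2821) (nat_lit 1) (.one (nat_lit 4648) (nat_lit 8) .nil)))),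
   .der (nat_lit 114) (nat_lit 319),
   .der (nat_lit 833) (nat_lit 504),
   .prs (.two (nat_lit 489) (nat_lit 4) (nat_lit 410) (nat_lit 16) (.two (nat_lit 170) (nat_lit 4) (nat_lit 4650) (nat_lit 16) (.two (nat_lit 11) (nat_lit 1) (nat_lit 4651) (nat_lit 4) (.two (nat_lit 0) (nat_lit 1) (nat_lit 1874) (nat_lit 4) (.one (nat_lit 3677) (nat_lit 4) .nil))))),
   .der (nat_lit 9587) (nat_lit 73),
   .der (nat_lit 1653) (nat_lit 172),
   .der (nat_lit 1653) (nat_lit 864),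
   .prs (.two (nat_lit 1239) (nat_lit 8) (nat_lit 2029) (nat_lit 1) (.two (nat_lit 590) (nat_lit 8) (nat_lit 4653) (nat_lit 1) (.two (nat_lit 1010) (nat_lit 1) (nat_lit 4654) (nat_lit 8) (.two (nat_lit 46) (nat_lit 1) (nat_lit 4655) (nat_lit 8) (.one (nat_lit 3576) (nat_lit 1) .nil))))),
   .der (nat_lit 4) (nat_lit 2753),
   .prs (.two (nat_lit 36) (nat_lit 16) (nat_lit 1676) (nat_lit 4) (.two (nat_lit 1) (nat_lit 16) (nat_lit 3250) (nat_lit 4) (.two (nat_lit 0) (nat_lit 2) (nat_lit 4657) (nat_lit 16) .nil))),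
   .prs (.two (nat_lit 427) (nat_lit 2) (nat_lit 69) (nat_lit 16) (.two (nat_lit 556) (nat_lit 16) (nat_lit 4603) (nat_lit 2) (.two (nat_lit 1) (nat_lit 16) (nat_lit 4604) (nat_lit 2) (.two (nat_lit 0) (nat_lit 1) (nat_lit 4605) (nat_lit 2) (.one (nat_lit 3678) (nat_lit 2) .nil))))),
   .der (nat_lit 21107) (nat_lit 245),
   .der (nat_lit 1875) (nat_lit 580),
   .der (nat_lit 2593) (nat_lit 2501),
   .prs (.two (nat_lit 427) (nat_lit 2) (nat_lit 965) (nat_lit 4) (.two (nat_lit 78) (nat_lit 1) (nat_lit 4660) (nat_lit 4) (.two (nat_lit 16) (nat_lit 2) (nat_lit 4661) (nat_lit 4) (.two (nat_lit 0) (nat_lit 2) (nat_lit 2824) (nat_lit 4) (.one (nat_lit 4662) (nat_lit 4) .nil))))),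
   .der (nat_lit 87) (nat_lit 21),
   .der (nat_lit 1430) (nat_lit 446),
   .prs (.two (nat_lit 12) (nat_lit 8) (nat_lit 4664) (nat_lit 4) (.two (nat_lit 1) (nat_lit 4) (nat_lit 880) (nat_lit 8) (.two (nat_lit 0) (nat_lit 1) (nat_lit 4665) (nat_lit 4) (.one (nat_lit 2851) (nat_lit 4) .nil)))),
   .der (nat_lit 1653) (nat_lit 2614),
   .prs (.two (nat_lit 65) (nat_lit 8) (nat_lit 717) (nat_lit 2) (.two (nat_lit 34) (nat_lit 8) (nat_lit 3452) (nat_lit 2) (.two (nat_lit 1) (nat_lit 2) (nat_lit 2303) (nat_lit 8) (.two (nat_lit 0) (nat_lit 8) (nat_lit 4667) (nat_lit 2) .nil)))),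
   .der (nat_lit 371) (nat_lit 35),
   .der (nat_lit 339) (nat_lit 584),
   .prs (.two (nat_lit 404) (nat_lit 8) (nat_lit 1393) (nat_lit 1) (.two (nat_lit 7) (nat_lit 8) (nat_lit 4669) (nat_lit 1) (.two (nat_lit 3) (nat_lit 1) (nat_lit 4670) (nat_lit 8) (.two (nat_lit 0) (nat_lit 1) (nat_lit 1876) (nat_lit 8) (.one (nat_lit 3680) (nat_lit 8) .nil))))),
   .prs (.two (nat_lit 537) (nat_lit 1) (nat_lit 582) (nat_lit 4) (.two (nat_lit 463) (nat_lit 8) (nat_lit 1429) (nat_lit 4) (.two (nat_lit 0) (nat_lit 8) (nat_lit 4087) (nat_lit 4) (.one (nat_lit 3682) (nat_lit 4) .nil)))),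
   .der (nat_lit 20) (nat_lit 123),
   .prs (.two (nat_lit 427) (nat_lit 16) (nat_lit 4673) (nat_lit 1) (.two (nat_lit 11) (nat_lit 1) (nat_lit 3611) (nat_lit 16) (.two (nat_lit 0) (nat_lit 1) (nat_lit 2828) (nat_lit 16) (.one (nat_lit 3688) (nat_lit 1) .nil)))),
   .der (nat_lit 1074) (nat_lit 852),
   .der (nat_lit 1057) (nat_lit 1546),
   .prs (.two (nat_lit 91) (nat_lit 4) (nat_lit 3671) (nat_lit 1) (.two (nat_lit 16) (nat_lit 4) (nat_lit 4675) (nat_lit 1) (.one (nat_lit 4676) (nat_lit 1) .nil))),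
   .der (nat_lit 87) (nat_lit 1589),
   .prs (.two (nat_lit 427) (nat_lit 4) (nat_lit 410) (nat_lit 16) (.two (nat_lit 356) (nat_lit 16) (nat_lit 2631) (nat_lit 4) (.two (nat_lit 11) (nat_lit 16) (nat_lit 4678) (nat_lit 4) (.one (nat_lit 2830) (nat_lit 4) .nil)))),
   .der (nat_lit 659) (nat_lit 87),
   .der (nat_lit 1299) (nat_lit 1045),
   .der (nat_lit 26386) (nat_lit 2786),
   .prs (.two (nat_lit 30) (nat_lit 16) (nat_lit 2534) (nat_lit 1) (.two (nat_lit 68) (nat_lit 1) (nat_lit 4680) (nat_lit 4) (.two (nat_lit 16) (nat_lit 1) (nat_lit 4681) (nat_lit 16) (.one (nat_lit 4682) (nat_lit 1) .nil)))),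
   .prs (.two (nat_lit 404) (nat_lit 8) (nat_lit 2594) (nat_lit 2) (.two (nat_lit 34) (nat_lit 8) (nat_lit 2504) (nat_lit 2) (.two (nat_lit 1) (nat_lit 2) (nat_lit 82) (nat_lit 8) (.two (nat_lit 0) (nat_lit 1) (nat_lit 1411) (nat_lit 2) (.one (nat_lit 3691) (nat_lit 8) .nil))))),
   .der (nat_lit 1430) (nat_lit 82),
   .der (nat_lit 2390) (nat_lit 1706),
   .prs (.two (nat_lit 85) (nat_lit 4) (nat_lit 4685) (nat_lit 2) (.two (nat_lit 0) (nat_lit 4) (nat_lit 4686) (nat_lit 2) (.one (nat_lit 3694) (nat_lit 2) .nil))),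
   .der (nat_lit 101) (nat_lit 72),
   .der (nat_lit 18) (nat_lit 848),
   .prs (.two (nat_lit 2758) (nat_lit 2) (nat_lit 127) (nat_lit 16) (.two (nat_lit 581) (nat_lit 2) (nat_lit 4688) (nat_lit 16) (.two (nat_lit 16) (nat_lit 2) (nat_lit 4689) (nat_lit 16) (.one (nat_lit 3697) (nat_lit 16) .nil)))),
   .der (nat_lit 371) (nat_lit 73),
   .der (nat_lit 5971) (nat_lit 850),
   .prs (.two (nat_lit 543) (nat_lit 4) (nat_lit 1200) (nat_lit 1) (.two (nat_lit 439) (nat_lit 4) (nat_lit 4691) (nat_lit 1) (.two (nat_lit 46) (nat_lit 4) (nat_lit 4692) (nat_lit 1) (.one (nat_lit 1880) (nat_lit 1) .nil)))),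
   .der (nat_lit 5716) (nat_lit 446),
   .der (nat_lit 612) (nat_lit 1409),
   .prs (.two (nat_lit 370) (nat_lit 1) (nat_lit 2252) (nat_lit 4) (.two (nat_lit 1) (nat_lit 8) (nat_lit 4694) (nat_lit 1) (.two (nat_lit 0) (nat_lit 8) (nat_lit 4695) (nat_lit 4) (.one (nat_lit 2838) (nat_lit 4) .nil)))),
   .der (nat_lit 1875) (nat_lit 106),
   .der (nat_lit 354) (nat_lit 172),
   .der (nat_lit 83) (nat_lit 2786),
   .prs (.two (nat_lit 227) (nat_lit 8) (nat_lit 3398) (nat_lit 1) (.two (nat_lit 34) (nat_lit 8) (nat_lit 4697) (nat_lit 1) (.two (nat_lit 1) (nat_lit 16) (nat_lit 4698) (nat_lit 1) (.two (nat_lit 0) (nat_lit 16) (nat_lit 4699) (nat_lit 1) .nil)))),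
   .prs (.two (nat_lit 111) (nat_lit 2) (nat_lit 4456) (nat_lit 4) (.two (nat_lit 16) (nat_lit 4) (nat_lit 4604) (nat_lit 2) (.one (nat_lit 3704) (nat_lit 2) .nil))),
   .prs (.two (nat_lit 91) (nat_lit 4) (nat_lit 1393) (nat_lit 2) (.two (nat_lit 170) (nat_lit 4) (nat_lit 4604) (nat_lit 2) (.two (nat_lit 0) (nat_lit 2) (nat_lit 2841) (nat_lit 4) (.one (nat_lit 3699) (nat_lit 4) .nil)))),
   .der (nat_lit 10305) (nat_lit 10),
   .der (nat_lit 16738) (nat_lit 95),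
   .der (nat_lit 150) (nat_lit 1041),
   .prs (.two (nat_lit 4703) (nat_lit 1) (nat_lit 94) (nat_lit 16) (.two (nat_lit 75) (nat_lit 16) (nat_lit 4704) (nat_lit 1) (.two (nat_lit 1) (nat_lit 2) (nat_lit 4705) (nat_lit 16) (.one (nat_lit 2847) (nat_lit 1) .nil)))),
   .der (nat_lit 801) (nat_lit 74),
   .der (nat_lit 2084) (nat_lit 182),
   .der (nat_lit 370) (nat_lit 1444),
   .prs (.two (nat_lit 227) (nat_lit 2) (nat_lit 4707) (nat_lit 16) (.two (nat_lit 3) (nat_lit 4) (nat_lit 4708) (nat_lit 2) (.two (nat_lit 0) (nat_lit 16) (nat_lit 4709) (nat_lit 2) .nil))),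
   .der (nat_lit 834) (nat_lit 2386),
   .prs (.two (nat_lit 227) (nat_lit 2) (nat_lit 3774) (nat_lit 8) (.two (nat_lit 1) (nat_lit 8) (nat_lit 465) (nat_lit 2) (.two (nat_lit 0) (nat_lit 4) (nat_lit 4711) (nat_lit 8) .nil))),
   .der (nat_lit 10545) (nat_lit 131),
   .prs (.two (nat_lit 1259) (nat_lit 2) (nat_lit 4713) (nat_lit 1) (.two (nat_lit 0) (nat_lit 2) (nat_lit 1238) (nat_lit 1) (.one (nat_lit 3701) (nat_lit 2) .nil))),
   .der (nat_lit 52) (nat_lit 24),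
   .der (nat_lit 135) (nat_lit 110),
   .der (nat_lit 33) (nat_lit 497),
   .prs (.two (nat_lit 28) (nat_lit 1) (nat_lit 4715) (nat_lit 4) (.two (nat_lit 173) (nat_lit 1) (nat_lit 4716) (nat_lit 4) (.two (nat_lit 11) (nat_lit 16) (nat_lit 4717) (nat_lit 1) (.two (nat_lit 0) (nat_lit 16) (nat_lit 1891) (nat_lit 1) (.one (nat_lit 3701) (nat_lit 4) .nil))))),
   .der (nat_lit 21092) (nat_lit 135),
   .der (nat_lit 10545) (nat_lit 187),
   .prs (.two (nat_lit 129) (nat_lit 8) (nat_lit 4719) (nat_lit 1) (.two (nat_lit 3) (nat_lit 8) (nat_lit 4720) (nat_lit 1) (.two (nat_lit 0) (nat_lit 8) (nat_lit 1894) (nat_lit 1) (.one (nat_lit 3702) (nat_lit 1) .nil)))),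
   .der (nat_lit 33) (nat_lit 1047),
   .prs (.two (nat_lit 114) (nat_lit 16) (nat_lit 264) (nat_lit 2) (.two (nat_lit 623) (nat_lit 16) (nat_lit 714) (nat_lit 2) (.two (nat_lit 1) (nat_lit 16) (nat_lit 1881) (nat_lit 2) (.two (nat_lit 0) (nat_lit 1) (nat_lit 4722) (nat_lit 2) (.one (nat_lit 2892) (nat_lit 2) .nil))))),
   .der (nat_lit 1380) (nat_lit 568),
   .prs (.two (nat_lit 489) (nat_lit 4) (nat_lit 456) (nat_lit 16) (.two (nat_lit 2) (nat_lit 16) (nat_lit 145) (nat_lit 4) (.two (nat_lit 1) (nat_lit 4) (nat_lit 4724) (nat_lit 16) (.two (nat_lit 0) (nat_lit 4) (nat_lit 1952) (nat_lit 16) (.one (nat_lit 3708) (nat_lit 4) .nil))))),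
   .der (nat_lit 1810) (nat_lit 87),
   .prs (.two (nat_lit 36) (nat_lit 16) (nat_lit 758) (nat_lit 8) (.two (nat_lit 34) (nat_lit 16) (nat_lit 462) (nat_lit 8) (.two (nat_lit 16) (nat_lit 2) (nat_lit 4726) (nat_lit 8) (.two (nat_lit 0) (nat_lit 2) (nat_lit 1884) (nat_lit 16) (.one (nat_lit 3709) (nat_lit 16) .nil))))),
   .prs (.two (nat_lit 65) (nat_lit 8) (nat_lit 738) (nat_lit 2) (.two (nat_lit 433) (nat_lit 2) (nat_lit 80) (nat_lit 8) (.two (nat_lit 1) (nat_lit 8) (nat_lit 2919) (nat_lit 2) (.two (nat_lit 0) (nat_lit 16) (nat_lit 4304) (nat_lit 8) .nil)))),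
   .der (nat_lit 1) (nat_lit 1160),
   .prs (.two (nat_lit 147) (nat_lit 4) (nat_lit 1435) (nat_lit 2) (.two (nat_lit 96) (nat_lit 2) (nat_lit 4074) (nat_lit 4) (.two (nat_lit 0) (nat_lit 2) (nat_lit 4729) (nat_lit 4) .nil))),
   .der (nat_lit 101) (nat_lit 672),
   .prs (.two (nat_lit 30) (nat_lit 16) (nat_lit 1886) (nat_lit 4) (.two (nat_lit 17) (nat_lit 4) (nat_lit 38) (nat_lit 16) (.two (nat_lit 11) (nat_lit 1) (nat_lit 3671) (nat_lit 4) (.two (nat_lit 0) (nat_lit 1) (nat_lit 4731) (nat_lit 16) (.one (nat_lit 3711) (nat_lit 4) .nil))))),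
   .der (nat_lit 9572) (nat_lit 1196),
   .prs (.two (nat_lit 12) (nat_lit 8) (nat_lit 2239) (nat_lit 4) (.two (nat_lit 1) (nat_lit 2) (nat_lit 4733) (nat_lit 8) (.one (nat_lit 3734) (nat_lit 2) .nil))),
   .der (nat_lit 83) (nat_lit 52),
   .der (nat_lit 161) (nat_lit 84),
   .der (nat_lit 3) (nat_lit 1744),
   .prs (.two (nat_lit 227) (nat_lit 2) (nat_lit 4735) (nat_lit 8) (.two (nat_lit 34) (nat_lit 2) (nat_lit 4736) (nat_lit 8) (.two (nat_lit 1) (nat_lit 2) (nat_lit 4737) (nat_lit 4) (.one (nat_lit 3737) (nat_lit 4) .nil)))),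
   .der (nat_lit 137) (nat_lit 1422),
   .prs (.two (nat_lit 91) (nat_lit 16) (nat_lit 582) (nat_lit 4) (.two (nat_lit 452) (nat_lit 4) (nat_lit 935) (nat_lit 16) (.two (nat_lit 3) (nat_lit 4) (nat_lit 833) (nat_lit 16) (.two (nat_lit 0) (nat_lit 1) (nat_lit 4739) (nat_lit 16) (.one (nat_lit 3739) (nat_lit 16) .nil))))),
   .der (nat_lit 21107) (nat_lit 95),
   .der (nat_lit 21092) (nat_lit 1045),
   .prs (.two (nat_lit 489) (nat_lit 16) (nat_lit 4741) (nat_lit 4) (.two (nat_lit 1) (nat_lit 4) (nat_lit 4742) (nat_lit 16) (.one (nat_lit 3741) (nat_lit 4) .nil))),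
   .der (nat_lit 9) (nat_lit 37),
   .der (nat_lit 1073) (nat_lit 192),
   .der (nat_lit 7) (nat_lit 907),
   .der (nat_lit 10) (nat_lit 3657),
   .prs (.two (nat_lit 6) (nat_lit 16) (nat_lit 105) (nat_lit 4) (.two (nat_lit 2) (nat_lit 16) (nat_lit 4744) (nat_lit 4) (.two (nat_lit 1) (nat_lit 16) (nat_lit 4745) (nat_lit 4) (.two (nat_lit 0) (nat_lit 8) (nat_lit 4746) (nat_lit 4) (.one (nat_lit 4747) (nat_lit 4) .nil))))),
   .der (nat_lit 2353) (nat_lit 52),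
   .der (nat_lit 2339) (nat_lit 275),
   .der (nat_lit 29011) (nat_lit 2783),
   .prs (.two (nat_lit 404) (nat_lit 1) (nat_lit 4749) (nat_lit 2) (.two (nat_lit 384) (nat_lit 1) (nat_lit 4750) (nat_lit 2) (.two (nat_lit 1) (nat_lit 2) (nat_lit 3719) (nat_lit 1) (.two (nat_lit 0) (nat_lit 4) (nat_lit 4751) (nat_lit 1) .nil)))),
   .der (nat_lit 115) (nat_lit 432),
   .der (nat_lit 12658) (nat_lit 2812),
   .prs (.two (nat_lit 404) (nat_lit 1) (nat_lit 534) (nat_lit 2) (.two (nat_lit 384) (nat_lit 1) (nat_lit 4750) (nat_lit 2) (.two (nat_lit 1) (nat_lit 4) (nat_lit 4753) (nat_lit 1) (.two (nat_lit 0) (nat_lit 4) (nat_lit 4754) (nat_lit 1) .nil)))),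
   .der (nat_lit 3) (nat_lit 74),
   .der (nat_lit 1653) (nat_lit 1458),
   .prs (.two (nat_lit 590) (nat_lit 1) (nat_lit 4756) (nat_lit 16) (.two (nat_lit 11) (nat_lit 1) (nat_lit 833) (nat_lit 16) (.two (nat_lit 0) (nat_lit 1) (nat_lit 4757) (nat_lit 16) (.one (nat_lit 2913) (nat_lit 1) .nil)))),
   .der (nat_lit 561) (nat_lit 266),
   .der (nat_lit 50) (nat_lit 172),
   .prs (.two (nat_lit 65) (nat_lit 2) (nat_lit 1387) (nat_lit 8) (.two (nat_lit 34) (nat_lit 2) (nat_lit 4759) (nat_lit 1) (.two (nat_lit 0) (nat_lit 1) (nat_lit 4760) (nat_lit 4) (.one (nat_lit 3744) (nat_lit 1) .nil)))),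
   .der (nat_lit 52) (nat_lit 95),
   .der (nat_lit 137) (nat_lit 841),
   .prs (.two (nat_lit 124) (nat_lit 16) (nat_lit 4762) (nat_lit 8) (.two (nat_lit 11) (nat_lit 16) (nat_lit 4763) (nat_lit 8) (.one (nat_lit 3807) (nat_lit 8) .nil))),
   .der (nat_lit 67) (nat_lit 472),
   .prs (.two (nat_lit 418) (nat_lit 1) (nat_lit 2259) (nat_lit 4) (.two (nat_lit 740) (nat_lit 1) (nat_lit 4765) (nat_lit 4) (.two (nat_lit 3) (nat_lit 1) (nat_lit 3994) (nat_lit 4) (.one (nat_lit 3778) (nat_lit 4) .nil)))),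
   .der (nat_lit 115) (nat_lit 73),
   .der (nat_lit 103) (nat_lit 504),
   .der (nat_lit 29011) (nat_lit 1586),
   .prs (.two (nat_lit 111) (nat_lit 1) (nat_lit 4767) (nat_lit 2) (.two (nat_lit 46) (nat_lit 1) (nat_lit 4768) (nat_lit 2) (.two (nat_lit 0) (nat_lit 1) (nat_lit 4769) (nat_lit 2) (.one (nat_lit 3809) (nat_lit 2) .nil)))),
   .der (nat_lit 1299) (nat_lit 421),
   .prs (.two (nat_lit 127) (nat_lit 16) (nat_lit 2187) (nat_lit 2) (.two (nat_lit 1528) (nat_lit 2) (nat_lit 4771) (nat_lit 16) (.two (nat_lit 0) (nat_lit 2) (nat_lit 3110) (nat_lit 16) (.one (nat_lit 3786) (nat_lit 16) .nil)))),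
   .der (nat_lit 2390) (nat_lit 146),
   .der (nat_lit 22803) (nat_lit 892),
   .der (nat_lit 37425) (nat_lit 1415),
   .der (nat_lit 37425) (nat_lit 2203),
   .prs (.two (nat_lit 94) (nat_lit 16) (nat_lit 459) (nat_lit 2) (.two (nat_lit 124) (nat_lit 16) (nat_lit 4773) (nat_lit 1) (.two (nat_lit 434) (nat_lit 16) (nat_lit 796) (nat_lit 2) (.two (nat_lit 3) (nat_lit 1) (nat_lit 4774) (nat_lit 16) (.two (nat_lit 0) (nat_lit 1) (nat_lit 4775) (nat_lit 2) (.one (nat_lit 4776) (nat_lit 1) .nil)))))),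
   .der (nat_lit 1122) (nat_lit 82),
   .der (nat_lit 4978) (nat_lit 2464),
   .prs (.two (nat_lit 537) (nat_lit 2) (nat_lit 490) (nat_lit 8) (.two (nat_lit 463) (nat_lit 8) (nat_lit 2893) (nat_lit 2) (.two (nat_lit 1) (nat_lit 8) (nat_lit 4778) (nat_lit 2) (.two (nat_lit 0) (nat_lit 4) (nat_lit 4779) (nat_lit 2) .nil)))),
   .der (nat_lit 577) (nat_lit 73),
   .der (nat_lit 612) (nat_lit 852),
   .prs (.two (nat_lit 167) (nat_lit 1) (nat_lit 4781) (nat_lit 4) (.two (nat_lit 16) (nat_lit 1) (nat_lit 4782) (nat_lit 4) (.one (nat_lit 3812) (nat_lit 4) .nil))),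
   .der (nat_lit 627) (nat_lit 1586),
   .prs (.two (nat_lit 129) (nat_lit 8) (nat_lit 2050) (nat_lit 1) (.two (nat_lit 1) (nat_lit 2) (nat_lit 4784) (nat_lit 1) (.one (nat_lit 3815) (nat_lit 1) .nil))),
   .der (nat_lit 9587) (nat_lit 87),
   .der (nat_lit 1395) (nat_lit 646),
   .der (nat_lit 21107) (nat_lit 1885),
   .prs (.two (nat_lit 427) (nat_lit 4) (nat_lit 1784) (nat_lit 1) (.two (nat_lit 170) (nat_lit 4) (nat_lit 4786) (nat_lit 1) (.two (nat_lit 1) (nat_lit 2) (nat_lit 4787) (nat_lit 4) (.two (nat_lit 0) (nat_lit 2) (nat_lit 4788) (nat_lit 1) (.one (nat_lit 2950) (nat_lit 1) .nil))))),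
   .der (nat_lit 30226) (nat_lit 160),
   .der (nat_lit 30226) (nat_lit 172),
   .der (nat_lit 150) (nat_lit 1022),
   .prs (.two (nat_lit 129) (nat_lit 8) (nat_lit 522) (nat_lit 1) (.two (nat_lit 202) (nat_lit 8) (nat_lit 4790) (nat_lit 2) (.two (nat_lit 1) (nat_lit 8) (nat_lit 4791) (nat_lit 2) (.two (nat_lit 0) (nat_lit 2) (nat_lit 4792) (nat_lit 1) (.one (nat_lit 3818) (nat_lit 2) .nil))))),
   .der (nat_lit 2068) (nat_lit 192),
   .der (nat_lit 2113) (nat_lit 907),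
   .prs (.two (nat_lit 6) (nat_lit 16) (nat_lit 825) (nat_lit 1) (.two (nat_lit 2) (nat_lit 8) (nat_lit 4794) (nat_lit 1) (.two (nat_lit 0) (nat_lit 8) (nat_lit 4795) (nat_lit 16) (.one (nat_lit 3822) (nat_lit 16) .nil)))),
   .der (nat_lit 9572) (nat_lit 72),
   .der (nat_lit 1300) (nat_lit 861),
   .der (nat_lit 37425) (nat_lit 3118),
   .prs (.two (nat_lit 1582) (nat_lit 1) (nat_lit 4797) (nat_lit 4) (.two (nat_lit 436) (nat_lit 1) (nat_lit 3746) (nat_lit 4) (.two (nat_lit 0) (nat_lit 1) (nat_lit 4798) (nat_lit 4) (.one (nat_lit 4799) (nat_lit 1) .nil)))),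
   .der (nat_lit 49) (nat_lit 98),
   .der (nat_lit 129) (nat_lit 441),
   .der (nat_lit 137) (nat_lit 1022),
   .prs (.two (nat_lit 882) (nat_lit 16) (nat_lit 2029) (nat_lit 4) (.two (nat_lit 1203) (nat_lit 4) (nat_lit 4801) (nat_lit 16) (.two (nat_lit 16) (nat_lit 4) (nat_lit 4802) (nat_lit 16) (.two (nat_lit 0) (nat_lit 1) (nat_lit 4803) (nat_lit 16) (.one (nat_lit 3824) (nat_lit 16) .nil))))),
   .der (nat_lit 882) (nat_lit 39),
   .der (nat_lit 5716) (nat_lit 172),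
   .der (nat_lit 5716) (nat_lit 834),
   .prs (.two (nat_lit 30) (nat_lit 1) (nat_lit 4805) (nat_lit 2) (.two (nat_lit 3) (nat_lit 1) (nat_lit 4806) (nat_lit 2) (.two (nat_lit 0) (nat_lit 1) (nat_lit 4807) (nat_lit 2) (.one (nat_lit 3826) (nat_lit 2) .nil)))),
   .der (nat_lit 1122) (nat_lit 796),
   .der (nat_lit 4) (nat_lit 2938),
   .prs (.two (nat_lit 701) (nat_lit 16) (nat_lit 109) (nat_lit 1) (.two (nat_lit 740) (nat_lit 16) (nat_lit 3004) (nat_lit 1) (.two (nat_lit 3) (nat_lit 1) (nat_lit 4809) (nat_lit 16) (.two (nat_lit 0) (nat_lit 4) (nat_lit 4810) (nat_lit 16) .nil)))),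
   .prs (.two (nat_lit 543) (nat_lit 2) (nat_lit 1333) (nat_lit 16) (.two (nat_lit 361) (nat_lit 16) (nat_lit 490) (nat_lit 2) (.two (nat_lit 46) (nat_lit 4) (nat_lit 3805) (nat_lit 1) (.one (nat_lit 2982) (nat_lit 1) .nil)))),
   .der (nat_lit 100) (nat_lit 21),
   .der (nat_lit 34068) (nat_lit 82),
   .prs (.two (nat_lit 882) (nat_lit 8) (nat_lit 4813) (nat_lit 4) (.two (nat_lit 1010) (nat_lit 4) (nat_lit 4814) (nat_lit 8) (.two (nat_lit 0) (nat_lit 4) (nat_lit 4763) (nat_lit 8) (.one (nat_lit 3828) (nat_lit 8) .nil)))),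
   .der (nat_lit 84) (nat_lit 128),
   .der (nat_lit 1811) (nat_lit 702),
   .der (nat_lit 1653) (nat_lit 2409),
   .prs (.two (nat_lit 65) (nat_lit 16) (nat_lit 573) (nat_lit 2) (.two (nat_lit 463) (nat_lit 16) (nat_lit 4816) (nat_lit 2) (.two (nat_lit 1) (nat_lit 2) (nat_lit 4817) (nat_lit 16) (.two (nat_lit 0) (nat_lit 2) (nat_lit 2025) (nat_lit 16) (.one (nat_lit 4818) (nat_lit 2) .nil))))),
   .der (nat_lit 137) (nat_lit 508),
   .der (nat_lit 9587) (nat_lit 1544),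
   .prs (.two (nat_lit 1126) (nat_lit 16) (nat_lit 83) (nat_lit 1) (.two (nat_lit 1) (nat_lit 2) (nat_lit 4820) (nat_lit 16) (.one (nat_lit 4821) (nat_lit 1) .nil))),
   .der (nat_lit 9587) (nat_lit 72),
   .der (nat_lit 29011) (nat_lit 1018),
   .prs (.two (nat_lit 528) (nat_lit 4) (nat_lit 1245) (nat_lit 1) (.two (nat_lit 519) (nat_lit 4) (nat_lit 4823) (nat_lit 1) (.two (nat_lit 3) (nat_lit 4) (nat_lit 4824) (nat_lit 1) (.one (nat_lit 3830) (nat_lit 1) .nil)))),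
   .der (nat_lit 1554) (nat_lit 110),
   .der (nat_lit 1430) (nat_lit 545),
   .der (nat_lit 21092) (nat_lit 2606),
   .prs (.two (nat_lit 42) (nat_lit 8) (nat_lit 449) (nat_lit 2) (.two (nat_lit 2) (nat_lit 8) (nat_lit 4826) (nat_lit 2) (.two (nat_lit 1) (nat_lit 8) (nat_lit 4827) (nat_lit 2) (.two (nat_lit 0) (nat_lit 1) (nat_lit 2967) (nat_lit 2) (.one (nat_lit 4828) (nat_lit 1) .nil))))),
   .der (nat_lit 19) (nat_lit 291),
   .der (nat_lit 1653) (nat_lit 907),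
   .der (nat_lit 627) (nat_lit 2373),
   .prs (.two (nat_lit 628) (nat_lit 4) (nat_lit 127) (nat_lit 2) (.two (nat_lit 17) (nat_lit 2) (nat_lit 4830) (nat_lit 8) (.two (nat_lit 16) (nat_lit 4) (nat_lit 4831) (nat_lit 2) (.one (nat_lit 4832) (nat_lit 2) .nil)))),
   .der (nat_lit 2390) (nat_lit 24),
   .der (nat_lit 37425) (nat_lit 1889),
   .der (nat_lit 2193) (nat_lit 2667),
   .prs (.two (nat_lit 1459) (nat_lit 16) (nat_lit 4834) (nat_lit 2) (.two (nat_lit 740) (nat_lit 16) (nat_lit 3087) (nat_lit 1) (.two (nat_lit 1) (nat_lit 2) (nat_lit 4835) (nat_lit 16) (.one (nat_lit 4836) (nat_lit 1) .nil)))),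
   .der (nat_lit 1650) (nat_lit 126),
   .der (nat_lit 21092) (nat_lit 432),
   .prs (.two (nat_lit 36) (nat_lit 2) (nat_lit 4838) (nat_lit 8) (.two (nat_lit 1) (nat_lit 2) (nat_lit 4839) (nat_lit 8) (.two (nat_lit 0) (nat_lit 8) (nat_lit 4807) (nat_lit 2) (.one (nat_lit 3834) (nat_lit 2) .nil)))),
   .der (nat_lit 852) (nat_lit 15),
   .der (nat_lit 98) (nat_lit 76),
   .prs (.two (nat_lit 65) (nat_lit 16) (nat_lit 4841) (nat_lit 2) (.two (nat_lit 4) (nat_lit 2) (nat_lit 4842) (nat_lit 16) (.two (nat_lit 0) (nat_lit 2) (nat_lit 4821) (nat_lit 1) .nil))),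
   .der (nat_lit 5716) (nat_lit 67),
   .der (nat_lit 1890) (nat_lit 845),
   .der (nat_lit 5) (nat_lit 2526),
   .prs (.two (nat_lit 6) (nat_lit 8) (nat_lit 4844) (nat_lit 2) (.two (nat_lit 1) (nat_lit 8) (nat_lit 4845) (nat_lit 2) (.one (nat_lit 4846) (nat_lit 8) .nil))),
   .der (nat_lit 1650) (nat_lit 41),
   .der (nat_lit 5971) (nat_lit 255),
   .der (nat_lit 16738) (nat_lit 451),
   .prs (.two (nat_lit 404) (nat_lit 8) (nat_lit 4848) (nat_lit 1) (.two (nat_lit 7) (nat_lit 8) (nat_lit 4849) (nat_lit 1) (.two (nat_lit 3) (nat_lit 1) (nat_lit 4850) (nat_lit 2) (.two (nat_lit 0) (nat_lit 1) (nat_lit 2954) (nat_lit 2) (.one (nat_lit 3837) (nat_lit 8) .nil))))),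
   .der (nat_lit 29011) (nat_lit 87),
   .der (nat_lit 9572) (nat_lit 641),
   .der (nat_lit 371) (nat_lit 2468),
   .prs (.two (nat_lit 886) (nat_lit 4) (nat_lit 4852) (nat_lit 2) (.two (nat_lit 3) (nat_lit 1) (nat_lit 4853) (nat_lit 4) (.two (nat_lit 0) (nat_lit 1) (nat_lit 4854) (nat_lit 2) .nil))),
   .der (nat_lit 83) (nat_lit 15),
   .prs (.two (nat_lit 1459) (nat_lit 16) (nat_lit 4856) (nat_lit 2) (.two (nat_lit 4) (nat_lit 2) (nat_lit 2390) (nat_lit 16) (.two (nat_lit 0) (nat_lit 2) (nat_lit 4820) (nat_lit 16) (.one (nat_lit 3839) (nat_lit 16) .nil)))),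
   .der (nat_lit 1107) (nat_lit 59),
   .der (nat_lit 34068) (nat_lit 1633),
   .prs (.two (nat_lit 6) (nat_lit 8) (nat_lit 1611) (nat_lit 1) (.two (nat_lit 338) (nat_lit 1) (nat_lit 520) (nat_lit 8) (.two (nat_lit 3) (nat_lit 8) (nat_lit 4858) (nat_lit 1) (.two (nat_lit 0) (nat_lit 1) (nat_lit 2971) (nat_lit 8) (.one (nat_lit 4859) (nat_lit 8) .nil))))),
   .der (nat_lit 2193) (nat_lit 146),
   .der (nat_lit 117) (nat_lit 1012),
   .prs (.two (nat_lit 1387) (nat_lit 1) (nat_lit 4861) (nat_lit 8) (.two (nat_lit 0) (nat_lit 1) (nat_lit 4862) (nat_lit 8) (.one (nat_lit 3842) (nat_lit 8) .nil))),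
   .der (nat_lit 66) (nat_lit 76),
   .der (nat_lit 9) (nat_lit 1196),
   .der (nat_lit 100) (nat_lit 2409),
   .prs (.two (nat_lit 227) (nat_lit 8) (nat_lit 4864) (nat_lit 1) (.two (nat_lit 1) (nat_lit 8) (nat_lit 4865) (nat_lit 1) (.one (nat_lit 4866) (nat_lit 1) .nil))),
   .der (nat_lit 612) (nat_lit 39),
   .der (nat_lit 22803) (nat_lit 1706),
   .der (nat_lit 147) (nat_lit 1647),
   .der (nat_lit 21107) (nat_lit 3609),
   .prs (.two (nat_lit 390) (nat_lit 16) (nat_lit 4868) (nat_lit 2) (.two (nat_lit 144) (nat_lit 2) (nat_lit 4340) (nat_lit 16) (.two (nat_lit 46) (nat_lit 2) (nat_lit 4869) (nat_lit 16) (.two (nat_lit 0) (nat_lit 2) (nat_lit 4870) (nat_lit 16) (.one (nat_lit 4871) (nat_lit 2) .nil))))),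
   .der (nat_lit 340) (nat_lit 24),
   .der (nat_lit 1107) (nat_lit 98),
   .der (nat_lit 24916) (nat_lit 1052),
   .prs (.two (nat_lit 36) (nat_lit 2) (nat_lit 4873) (nat_lit 1) (.two (nat_lit 34) (nat_lit 2) (nat_lit 4874) (nat_lit 1) (.two (nat_lit 1) (nat_lit 16) (nat_lit 4875) (nat_lit 1) (.one (nat_lit 3013) (nat_lit 1) .nil)))),
   .der (nat_lit 2433) (nat_lit 72),
   .der (nat_lit 118) (nat_lit 504),
   .prs (.two (nat_lit 42) (nat_lit 8) (nat_lit 4877) (nat_lit 4) (.two (nat_lit 16) (nat_lit 1) (nat_lit 4878) (nat_lit 4) (.two (nat_lit 0) (nat_lit 1) (nat_lit 3656) (nat_lit 4) (.one (nat_lit 3849) (nat_lit 4) .nil)))),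
   .der (nat_lit 834) (nat_lit 31),
   .der (nat_lit 3) (nat_lit 1508),
   .prs (.two (nat_lit 6) (nat_lit 4) (nat_lit 4880) (nat_lit 8) (.two (nat_lit 5) (nat_lit 1) (nat_lit 1017) (nat_lit 4) (.two (nat_lit 1) (nat_lit 2) (nat_lit 1807) (nat_lit 1) (.two (nat_lit 0) (nat_lit 8) (nat_lit 4881) (nat_lit 2) (.one (nat_lit 3864) (nat_lit 8) .nil))))),
   .der (nat_lit 1380) (nat_lit 21),
   .der (nat_lit 1299) (nat_lit 135),
   .der (nat_lit 4978) (nat_lit 641),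
   .prs (.two (nat_lit 124) (nat_lit 2) (nat_lit 4883) (nat_lit 4) (.two (nat_lit 170) (nat_lit 4) (nat_lit 4884) (nat_lit 2) (.two (nat_lit 11) (nat_lit 2) (nat_lit 4885) (nat_lit 4) (.two (nat_lit 0) (nat_lit 16) (nat_lit 3020) (nat_lit 2) .nil)))),
   .der (nat_lit 137) (nat_lit 118),
   .der (nat_lit 137) (nat_lit 552),
   .der (nat_lit 117) (nat_lit 1041),
   .der (nat_lit 834) (nat_lit 2481),
   .prs (.two (nat_lit 6) (nat_lit 4) (nat_lit 1372) (nat_lit 2) (.two (nat_lit 75) (nat_lit 2) (nat_lit 4887) (nat_lit 4) (.two (nat_lit 3) (nat_lit 1) (nat_lit 4888) (nat_lit 4) (.two (nat_lit 0) (nat_lit 1) (nat_lit 4889) (nat_lit 2) (.one (nat_lit 4890) (nat_lit 4) .nil))))),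
   .der (nat_lit 84) (nat_lit 74),
   .der (nat_lit 103) (nat_lit 575),
   .der (nat_lit 18) (nat_lit 864),
   .prs (.two (nat_lit 109) (nat_lit 1) (nat_lit 1451) (nat_lit 16) (.two (nat_lit 12) (nat_lit 16) (nat_lit 4892) (nat_lit 1) (.two (nat_lit 7) (nat_lit 16) (nat_lit 4893) (nat_lit 1) (.two (nat_lit 3) (nat_lit 1) (nat_lit 4894) (nat_lit 16) (.one (nat_lit 3862) (nat_lit 16) .nil))))),
   .der (nat_lit 801) (nat_lit 2967),
   .prs (.two (nat_lit 6) (nat_lit 4) (nat_lit 2077) (nat_lit 8) (.two (nat_lit 1) (nat_lit 8) (nat_lit 3855) (nat_lit 4) (.two (nat_lit 0) (nat_lit 8) (nat_lit 4896) (nat_lit 4) (.one (nat_lit 3865) (nat_lit 8) .nil)))),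
   .der (nat_lit 1073) (nat_lit 76),
   .der (nat_lit 67) (nat_lit 401),
   .prs (.two (nat_lit 543) (nat_lit 8) (nat_lit 4021) (nat_lit 1) (.two (nat_lit 206) (nat_lit 8) (nat_lit 4898) (nat_lit 1) (.two (nat_lit 46) (nat_lit 8) (nat_lit 4899) (nat_lit 1) (.two (nat_lit 0) (nat_lit 8) (nat_lit 2081) (nat_lit 1) (.one (nat_lit 3867) (nat_lit 1) .nil))))),
   .der (nat_lit 1810) (nat_lit 21),
   .der (nat_lit 1122) (nat_lit 907),
   .der (nat_lit 7) (nat_lit 2373),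
   .prs (.two (nat_lit 389) (nat_lit 1) (nat_lit 4901) (nat_lit 2) (.two (nat_lit 374) (nat_lit 1) (nat_lit 3452) (nat_lit 2) (.two (nat_lit 1) (nat_lit 8) (nat_lit 4902) (nat_lit 2) (.one (nat_lit 4903) (nat_lit 2) .nil)))),
   .der (nat_lit 3) (nat_lit 84),
   .der (nat_lit 801) (nat_lit 2052),
   .der (nat_lit 801) (nat_lit 3780),
   .prs (.two (nat_lit 36) (nat_lit 2) (nat_lit 238) (nat_lit 1) (.two (nat_lit 170) (nat_lit 2) (nat_lit 4905) (nat_lit 1) (.two (nat_lit 1) (nat_lit 2) (nat_lit 4906) (nat_lit 1) (.two (nat_lit 0) (nat_lit 2) (nat_lit 3028) (nat_lit 1) (.one (nat_lit 4907) (nat_lit 2) .nil))))),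
   .prs (.two (nat_lit 456) (nat_lit 8) (nat_lit 145) (nat_lit 4) (.two (nat_lit 329) (nat_lit 2) (nat_lit 1174) (nat_lit 4) (.two (nat_lit 1) (nat_lit 2) (nat_lit 1411) (nat_lit 4) (.one (nat_lit 3871) (nat_lit 8) .nil)))),
   .der (nat_lit 852) (nat_lit 21),
   .der (nat_lit 852) (nat_lit 67),
   .der (nat_lit 2353) (nat_lit 392),
   .der (nat_lit 1074) (nat_lit 2950),
   .prs (.two (nat_lit 456) (nat_lit 4) (nat_lit 4910) (nat_lit 8) (.two (nat_lit 2) (nat_lit 4) (nat_lit 4911) (nat_lit 8) (.two (nat_lit 1) (nat_lit 8) (nat_lit 4912) (nat_lit 4) (.two (nat_lit 0) (nat_lit 8) (nat_lit 2083) (nat_lit 4) (.one (nat_lit 4913) (nat_lit 4) .nil))))),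
   .der (nat_lit 577) (nat_lit 1777),
   .prs (.two (nat_lit 12) (nat_lit 1) (nat_lit 4168) (nat_lit 4) (.two (nat_lit 1) (nat_lit 2) (nat_lit 1807) (nat_lit 1) (.two (nat_lit 0) (nat_lit 8) (nat_lit 4915) (nat_lit 4) (.one (nat_lit 3874) (nat_lit 1) .nil)))),
   .der (nat_lit 9572) (nat_lit 149),
   .der (nat_lit 1300) (nat_lit 1718),
   .prs (.two (nat_lit 6) (nat_lit 4) (nat_lit 2092) (nat_lit 2) (.two (nat_lit 1214) (nat_lit 1) (nat_lit 4917) (nat_lit 2) (.two (nat_lit 3) (nat_lit 1) (nat_lit 2093) (nat_lit 2) (.two (nat_lit 0) (nat_lit 1) (nat_lit 4918) (nat_lit 4) (.one (nat_lit 3031) (nat_lit 1) .nil))))),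
   .der (nat_lit 66) (nat_lit 158),
   .der (nat_lit 12658) (nat_lit 448),
   .prs (.two (nat_lit 227) (nat_lit 16) (nat_lit 3486) (nat_lit 1) (.two (nat_lit 325) (nat_lit 16) (nat_lit 4920) (nat_lit 1) (.two (nat_lit 16) (nat_lit 1) (nat_lit 4921) (nat_lit 16) (.two (nat_lit 0) (nat_lit 1) (nat_lit 2097) (nat_lit 16) (.one (nat_lit 3877) (nat_lit 16) .nil))))),
   .der (nat_lit 115) (nat_lit 160),
   .der (nat_lit 1875) (nat_lit 834),
   .prs (.two (nat_lit 6) (nat_lit 4) (nat_lit 4923) (nat_lit 2) (.two (nat_lit 1) (nat_lit 4) (nat_lit 4924) (nat_lit 2) (.one (nat_lit 3879) (nat_lit 1) .nil))),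
   .der (nat_lit 5716) (nat_lit 74),
   .prs (.two (nat_lit 65) (nat_lit 16) (nat_lit 1034) (nat_lit 2) (.two (nat_lit 34) (nat_lit 16) (nat_lit 4926) (nat_lit 2) (.two (nat_lit 1) (nat_lit 16) (nat_lit 1343) (nat_lit 2) (.two (nat_lit 0) (nat_lit 16) (nat_lit 3048) (nat_lit 2) (.one (nat_lit 3880) (nat_lit 2) .nil))))),
   .der (nat_lit 9572) (nat_lit 1062),
   .der (nat_lit 5) (nat_lit 2238),
   .prs (.two (nat_lit 6) (nat_lit 16) (nat_lit 449) (nat_lit 8) (.two (nat_lit 34) (nat_lit 8) (nat_lit 1440) (nat_lit 16) (.two (nat_lit 0) (nat_lit 8) (nat_lit 4928) (nat_lit 16) (.one (nat_lit 4929) (nat_lit 16) .nil)))),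
   .prs (.two (nat_lit 129) (nat_lit 4) (nat_lit 1236) (nat_lit 1) (.two (nat_lit 34) (nat_lit 2) (nat_lit 1881) (nat_lit 1) (.two (nat_lit 3) (nat_lit 4) (nat_lit 3876) (nat_lit 1) (.two (nat_lit 0) (nat_lit 2) (nat_lit 3051) (nat_lit 1) (.one (nat_lit 3882) (nat_lit 4) .nil))))),
   .prs (.two (nat_lit 6) (nat_lit 16) (nat_lit 449) (nat_lit 8) (.two (nat_lit 34) (nat_lit 8) (nat_lit 1440) (nat_lit 16) (.two (nat_lit 0) (nat_lit 8) (nat_lit 2099) (nat_lit 16) (.one (nat_lit 4929) (nat_lit 16) .nil)))),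
   .der (nat_lit 21092) (nat_lit 1945),
   .der (nat_lit 2433) (nat_lit 2950),
   .prs (.two (nat_lit 36) (nat_lit 2) (nat_lit 3899) (nat_lit 8) (.two (nat_lit 34) (nat_lit 2) (nat_lit 1020) (nat_lit 8) (.two (nat_lit 11) (nat_lit 8) (nat_lit 4933) (nat_lit 2) (.one (nat_lit 4934) (nat_lit 2) .nil)))),
   .der (nat_lit 117) (nat_lit 73),
   .der (nat_lit 7) (nat_lit 852),
   .der (nat_lit 339) (nat_lit 3885),
   .prs (.two (nat_lit 6) (nat_lit 8) (nat_lit 449) (nat_lit 2) (.two (nat_lit 463) (nat_lit 8) (nat_lit 4936) (nat_lit 2) (.two (nat_lit 1) (nat_lit 8) (nat_lit 4937) (nat_lit 2) (.one (nat_lit 4938) (nat_lit 8) .nil)))),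
   .der (nat_lit 1430) (nat_lit 73),
   .der (nat_lit 137) (nat_lit 845),
   .der (nat_lit 98) (nat_lit 1546),
   .prs (.two (nat_lit 489) (nat_lit 2) (nat_lit 197) (nat_lit 8) (.two (nat_lit 34) (nat_lit 8) (nat_lit 4940) (nat_lit 2) (.two (nat_lit 1) (nat_lit 2) (nat_lit 4941) (nat_lit 8) (.one (nat_lit 4942) (nat_lit 2) .nil)))),
   .der (nat_lit 34068) (nat_lit 172),
   .prs (.two (nat_lit 882) (nat_lit 4) (nat_lit 88) (nat_lit 1) (.two (nat_lit 433) (nat_lit 1) (nat_lit 4744) (nat_lit 4) (.two (nat_lit 0) (nat_lit 8) (nat_lit 4944) (nat_lit 4) (.one (nat_lit 3904) (nat_lit 4) .nil)))),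
   .der (nat_lit 117) (nat_lit 775),
   .der (nat_lit 161) (nat_lit 615),
   .der (nat_lit 5) (nat_lit 2335),
   .prs (.two (nat_lit 6) (nat_lit 8) (nat_lit 270) (nat_lit 1) (.two (nat_lit 34) (nat_lit 8) (nat_lit 4946) (nat_lit 1) (.two (nat_lit 3) (nat_lit 8) (nat_lit 4947) (nat_lit 1) (.two (nat_lit 0) (nat_lit 2) (nat_lit 3064) (nat_lit 1) (.one (nat_lit 4948) (nat_lit 2) .nil))))),
   .prs (.two (nat_lit 956) (nat_lit 4) (nat_lit 965) (nat_lit 2) (.two (nat_lit 3081) (nat_lit 4) (nat_lit 4940) (nat_lit 2) (.two (nat_lit 1) (nat_lit 4) (nat_lit 4937) (nat_lit 2) (.one (nat_lit 3067) (nat_lit 2) .nil)))),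
   .der (nat_lit 17185) (nat_lit 655),
   .prs (.two (nat_lit 129) (nat_lit 4) (nat_lit 1313) (nat_lit 8) (.two (nat_lit 1) (nat_lit 2) (nat_lit 4951) (nat_lit 8) (.one (nat_lit 3909) (nat_lit 8) .nil))),
   .der (nat_lit 135) (nat_lit 653),
   .prs (.two (nat_lit 12) (nat_lit 16) (nat_lit 38) (nat_lit 8) (.two (nat_lit 3) (nat_lit 8) (nat_lit 4953) (nat_lit 16) (.two (nat_lit 0) (nat_lit 8) (nat_lit 3072) (nat_lit 16) (.one (nat_lit 3913) (nat_lit 8) .nil)))),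
   .der (nat_lit 577) (nat_lit 52),
   .der (nat_lit 114) (nat_lit 243),
   .der (nat_lit 36) (nat_lit 2507),
   .prs (.two (nat_lit 12) (nat_lit 8) (nat_lit 4955) (nat_lit 2) (.two (nat_lit 5) (nat_lit 8) (nat_lit 4956) (nat_lit 2) (.two (nat_lit 1) (nat_lit 2) (nat_lit 4006) (nat_lit 8) (.two (nat_lit 0) (nat_lit 1) (nat_lit 4957) (nat_lit 8) .nil)))),
   .der (nat_lit 10) (nat_lit 417),
   .der (nat_lit 33345) (nat_lit 1428),
   .prs (.two (nat_lit 6) (nat_lit 8) (nat_lit 676) (nat_lit 16) (.two (nat_lit 2) (nat_lit 16) (nat_lit 4959) (nat_lit 8) (.one (nat_lit 4960) (nat_lit 8) .nil))),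
   .der (nat_lit 2578) (nat_lit 897),
   .prs (.two (nat_lit 138) (nat_lit 4) (nat_lit 1551) (nat_lit 8) (.two (nat_lit 556) (nat_lit 4) (nat_lit 1414) (nat_lit 8) (.two (nat_lit 1) (nat_lit 4) (nat_lit 4962) (nat_lit 8) (.one (nat_lit 3957) (nat_lit 8) .nil)))),
   .der (nat_lit 86) (nat_lit 857),
   .der (nat_lit 50) (nat_lit 2647),
   .prs (.two (nat_lit 370) (nat_lit 16) (nat_lit 2495) (nat_lit 4) (.two (nat_lit 248) (nat_lit 4) (nat_lit 3382) (nat_lit 16) (.two (nat_lit 3) (nat_lit 4) (nat_lit 4964) (nat_lit 16) (.one (nat_lit 4965) (nat_lit 16) .nil)))),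
   .der (nat_lit 1890) (nat_lit 126),
   .der (nat_lit 339) (nat_lit 172),
   .der (nat_lit 152) (nat_lit 1670),
   .der (nat_lit 152) (nat_lit 2503),
   .der (nat_lit 18) (nat_lit 3604),
   .prs (.two (nat_lit 390) (nat_lit 16) (nat_lit 4967) (nat_lit 2) (.two (nat_lit 433) (nat_lit 2) (nat_lit 4968) (nat_lit 16) (.two (nat_lit 16) (nat_lit 2) (nat_lit 4969) (nat_lit 16) (.two (nat_lit 0) (nat_lit 2) (nat_lit 4970) (nat_lit 16) (.one (nat_lit 4971) (nat_lit 2) .nil))))),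
   .der (nat_lit 161) (nat_lit 508),
   .der (nat_lit 1890) (nat_lit 3859),
   .prs (.two (nat_lit 129) (nat_lit 4) (nat_lit 418) (nat_lit 16) (.two (nat_lit 2) (nat_lit 4) (nat_lit 2334) (nat_lit 16) (.two (nat_lit 3) (nat_lit 16) (nat_lit 4973) (nat_lit 4) (.two (nat_lit 0) (nat_lit 2) (nat_lit 2140) (nat_lit 4) (.one (nat_lit 4974) (nat_lit 2) .nil))))),
   .der (nat_lit 1300) (nat_lit 72),
   .der (nat_lit 8) (nat_lit 414),
   .der (nat_lit 2193) (nat_lit 1450),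
   .prs (.two (nat_lit 825) (nat_lit 16) (nat_lit 4976) (nat_lit 4) (.two (nat_lit 452) (nat_lit 4) (nat_lit 4977) (nat_lit 16) (.two (nat_lit 3) (nat_lit 4) (nat_lit 834) (nat_lit 16) (.two (nat_lit 0) (nat_lit 4) (nat_lit 4978) (nat_lit 16) (.one (nat_lit 3944) (nat_lit 16) .nil))))),
   .der (nat_lit 9) (nat_lit 2526),
   .prs (.two (nat_lit 227) (nat_lit 16) (nat_lit 1568) (nat_lit 8) (.two (nat_lit 1) (nat_lit 8) (nat_lit 1053) (nat_lit 16) (.two (nat_lit 0) (nat_lit 2) (nat_lit 4980) (nat_lit 8) .nil))),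
   .der (nat_lit 2578) (nat_lit 29),
   .der (nat_lit 34068) (nat_lit 131),
   .der (nat_lit 98) (nat_lit 592),
   .der (nat_lit 98) (nat_lit 1078),
   .prs (.two (nat_lit 520) (nat_lit 4) (nat_lit 4982) (nat_lit 8) (.two (nat_lit 2148) (nat_lit 4) (nat_lit 4983) (nat_lit 8) (.two (nat_lit 329) (nat_lit 2) (nat_lit 4984) (nat_lit 4) (.two (nat_lit 3) (nat_lit 8) (nat_lit 4985) (nat_lit 2) (.two (nat_lit 0) (nat_lit 8) (nat_lit 2136) (nat_lit 2) (.one (nat_lit 3951) (nat_lit 8) .nil)))))),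
   .der (nat_lit 2) (nat_lit 172),
   .der (nat_lit 20) (nat_lit 2772),
   .prs (.two (nat_lit 6) (nat_lit 16) (nat_lit 1827) (nat_lit 8) (.two (nat_lit 11) (nat_lit 8) (nat_lit 4987) (nat_lit 16) (.two (nat_lit 0) (nat_lit 8) (nat_lit 4988) (nat_lit 16) .nil))),
   .der (nat_lit 1299) (nat_lit 834),
   .prs (.two (nat_lit 65) (nat_lit 16) (nat_lit 1393) (nat_lit 2) (.two (nat_lit 443) (nat_lit 2) (nat_lit 4968) (nat_lit 16) (.two (nat_lit 0) (nat_lit 2) (nat_lit 4990) (nat_lit 16) (.one (nat_lit 3086) (nat_lit 16) .nil)))),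
   .der (nat_lit 1074) (nat_lit 27),
   .der (nat_lit 7) (nat_lit 243),
   .der (nat_lit 22548) (nat_lit 589),
   .der (nat_lit 49) (nat_lit 2922),
   .der (nat_lit 103) (nat_lit 2432),
   .prs (.two (nat_lit 36) (nat_lit 16) (nat_lit 4992) (nat_lit 2) (.two (nat_lit 34) (nat_lit 16) (nat_lit 4993) (nat_lit 2) (.two (nat_lit 3) (nat_lit 4) (nat_lit 4994) (nat_lit 16) (.two (nat_lit 0) (nat_lit 4) (nat_lit 4995) (nat_lit 16) (.one (nat_lit 4996) (nat_lit 4) .nil))))),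
   .der (nat_lit 1) (nat_lit 187),
   .prs (.two (nat_lit 537) (nat_lit 16) (nat_lit 1326) (nat_lit 1) (.two (nat_lit 356) (nat_lit 16) (nat_lit 1043) (nat_lit 1) (.two (nat_lit 3) (nat_lit 1) (nat_lit 4998) (nat_lit 16) (.two (nat_lit 0) (nat_lit 1) (nat_lit 2143) (nat_lit 16) (.one (nat_lit 3962) (nat_lit 16) .nil)))))]

theorem b5_step9 (h : ∀ j < 4500, Good b5T j) : ∀ j < 5000, Good b5T j := by
  intro j hj
  refine chkL_ok b5C9 4500 h (by decide +kernel) j ?_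
  have h : b5C9.length = 500 := by decide +kernel
  omega

/-- certificates 5000..5500 -/
def b5C10 : List Cf :=
  [.der (nat_lit 135) (nat_lit 21),
   .der (nat_lit 10305) (nat_lit 655),
   .prs (.two (nat_lit 227) (nat_lit 16) (nat_lit 543) (nat_lit 8) (.two (nat_lit 7) (nat_lit 16) (nat_lit 5000) (nat_lit 8) (.two (nat_lit 46) (nat_lit 2) (nat_lit 5001) (nat_lit 8) (.one (nat_lit 3091) (nat_lit 8) .nil)))),
   .der (nat_lit 83) (nat_lit 64),
   .der (nat_lit 4978) (nat_lit 533),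
   .prs (.two (nat_lit 129) (nat_lit 4) (nat_lit 5003) (nat_lit 16) (.two (nat_lit 1) (nat_lit 4) (nat_lit 5004) (nat_lit 16) (.two (nat_lit 0) (nat_lit 2) (nat_lit 3093) (nat_lit 4) (.one (nat_lit 3971) (nat_lit 2) .nil)))),
   .der (nat_lit 165) (nat_lit 126),
   .der (nat_lit 1554) (nat_lit 1265),
   .der (nat_lit 1810) (nat_lit 1078),
   .prs (.two (nat_lit 543) (nat_lit 4) (nat_lit 576) (nat_lit 8) (.two (nat_lit 439) (nat_lit 4) (nat_lit 5006) (nat_lit 8) (.two (nat_lit 11) (nat_lit 1) (nat_lit 5007) (nat_lit 4) (.two (nat_lit 0) (nat_lit 1) (nat_lit 5008) (nat_lit 8) (.one (nat_lit 3973) (nat_lit 8) .nil))))),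
   .der (nat_lit 2593) (nat_lit 146),
   .der (nat_lit 49) (nat_lit 1309),
   .der (nat_lit 33345) (nat_lit 1546),
   .prs (.two (nat_lit 1387) (nat_lit 16) (nat_lit 5010) (nat_lit 8) (.two (nat_lit 3) (nat_lit 16) (nat_lit 5011) (nat_lit 8) (.one (nat_lit 5012) (nat_lit 8) .nil))),
   .der (nat_lit 22803) (nat_lit 31),
   .der (nat_lit 9) (nat_lit 101),
   .der (nat_lit 103) (nat_lit 1833),
   .prs (.two (nat_lit 6) (nat_lit 8) (nat_lit 937) (nat_lit 4) (.two (nat_lit 34) (nat_lit 8) (nat_lit 5014) (nat_lit 2) (.two (nat_lit 3) (nat_lit 4) (nat_lit 5015) (nat_lit 8) (.two (nat_lit 0) (nat_lit 2) (nat_lit 5016) (nat_lit 4) (.one (nat_lit 2151) (nat_lit 2) .nil))))),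
   .der (nat_lit 103) (nat_lit 15),
   .der (nat_lit 145) (nat_lit 612),
   .prs (.two (nat_lit 65) (nat_lit 8) (nat_lit 5018) (nat_lit 4) (.two (nat_lit 9) (nat_lit 4) (nat_lit 5000) (nat_lit 8) (.two (nat_lit 3) (nat_lit 4) (nat_lit 1925) (nat_lit 8) (.two (nat_lit 0) (nat_lit 2) (nat_lit 5019) (nat_lit 8) (.one (nat_lit 3977) (nat_lit 8) .nil))))),
   .prs (.two (nat_lit 404) (nat_lit 1) (nat_lit 1748) (nat_lit 16) (.two (nat_lit 0) (nat_lit 4) (nat_lit 3090) (nat_lit 16) (.one (nat_lit 3978) (nat_lit 16) .nil))),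
   .der (nat_lit 612) (nat_lit 72),
   .der (nat_lit 1300) (nat_lit 417),
   .der (nat_lit 2433) (nat_lit 1412),
   .prs (.two (nat_lit 490) (nat_lit 2) (nat_lit 5022) (nat_lit 4) (.two (nat_lit 514) (nat_lit 2) (nat_lit 5023) (nat_lit 4) (.two (nat_lit 0) (nat_lit 2) (nat_lit 5024) (nat_lit 4) (.one (nat_lit 4079) (nat_lit 4) .nil)))),
   .prs (.two (nat_lit 490) (nat_lit 2) (nat_lit 5022) (nat_lit 4) (.two (nat_lit 206) (nat_lit 2) (nat_lit 5023) (nat_lit 4) (.two (nat_lit 0) (nat_lit 2) (nat_lit 3152) (nat_lit 4) .nil))),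
   .der (nat_lit 2353) (nat_lit 67),
   .der (nat_lit 2578) (nat_lit 861),
   .prs (.two (nat_lit 13) (nat_lit 8) (nat_lit 5027) (nat_lit 4) (.two (nat_lit 2) (nat_lit 4) (nat_lit 5028) (nat_lit 8) (.one (nat_lit 4043) (nat_lit 4) .nil))),
   .der (nat_lit 1650) (nat_lit 182),
   .der (nat_lit 66) (nat_lit 425),
   .der (nat_lit 83) (nat_lit 1406),
   .prs (.two (nat_lit 13) (nat_lit 8) (nat_lit 1439) (nat_lit 1) (.two (nat_lit 6) (nat_lit 8) (nat_lit 5030) (nat_lit 2) (.two (nat_lit 1214) (nat_lit 8) (nat_lit 5031) (nat_lit 4) (.two (nat_lit 3) (nat_lit 8) (nat_lit 5032) (nat_lit 2) (.two (nat_lit 0) (nat_lit 8) (nat_lit 3158) (nat_lit 2) (.one (nat_lit 3161) (nat_lit 2) .nil)))))),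
   .der (nat_lit 644) (nat_lit 74),
   .prs (.two (nat_lit 13) (nat_lit 8) (nat_lit 5034) (nat_lit 4) (.two (nat_lit 2) (nat_lit 8) (nat_lit 3153) (nat_lit 4) (.two (nat_lit 1) (nat_lit 8) (nat_lit 1422) (nat_lit 4) (.two (nat_lit 0) (nat_lit 8) (nat_lit 2224) (nat_lit 4) (.one (nat_lit 4050) (nat_lit 4) .nil))))),
   .der (nat_lit 9587) (nat_lit 1396),
   .prs (.two (nat_lit 13) (nat_lit 8) (nat_lit 822) (nat_lit 1) (.two (nat_lit 6) (nat_lit 8) (nat_lit 5030) (nat_lit 2) (.two (nat_lit 1214) (nat_lit 8) (nat_lit 5031) (nat_lit 4) (.two (nat_lit 16) (nat_lit 2) (nat_lit 5036) (nat_lit 4) (.two (nat_lit 0) (nat_lit 8) (nat_lit 3164) (nat_lit 2) (.one (nat_lit 3161) (nat_lit 2) .nil)))))),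
   .der (nat_lit 2) (nat_lit 1406),
   .prs (.two (nat_lit 32) (nat_lit 8) (nat_lit 2265) (nat_lit 1) (.two (nat_lit 42) (nat_lit 8) (nat_lit 424) (nat_lit 4) (.two (nat_lit 248) (nat_lit 4) (nat_lit 3135) (nat_lit 1) (.two (nat_lit 11) (nat_lit 1) (nat_lit 5038) (nat_lit 4) (.two (nat_lit 0) (nat_lit 1) (nat_lit 4027) (nat_lit 8) (.one (nat_lit 4055) (nat_lit 1) .nil)))))),
   .der (nat_lit 882) (nat_lit 169),
   .der (nat_lit 2593) (nat_lit 1406),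
   .prs (.two (nat_lit 440) (nat_lit 16) (nat_lit 4182) (nat_lit 2) (.two (nat_lit 4) (nat_lit 16) (nat_lit 5040) (nat_lit 2) (.two (nat_lit 46) (nat_lit 2) (nat_lit 1425) (nat_lit 16) (.two (nat_lit 0) (nat_lit 1) (nat_lit 5041) (nat_lit 2) (.one (nat_lit 4081) (nat_lit 16) .nil))))),
   .der (nat_lit 52) (nat_lit 421),
   .der (nat_lit 9) (nat_lit 3132),
   .prs (.two (nat_lit 80) (nat_lit 16) (nat_lit 1852) (nat_lit 2) (.two (nat_lit 34) (nat_lit 16) (nat_lit 432) (nat_lit 2) (.two (nat_lit 16) (nat_lit 16) (nat_lit 5043) (nat_lit 1) (.two (nat_lit 0) (nat_lit 1) (nat_lit 5044) (nat_lit 2) .nil)))),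
   .prs (.two (nat_lit 717) (nat_lit 8) (nat_lit 3139) (nat_lit 2) (.two (nat_lit 129) (nat_lit 4) (nat_lit 1397) (nat_lit 8) (.two (nat_lit 2) (nat_lit 8) (nat_lit 885) (nat_lit 4) (.two (nat_lit 1) (nat_lit 4) (nat_lit 2194) (nat_lit 8) (.two (nat_lit 0) (nat_lit 2) (nat_lit 2205) (nat_lit 8) (.one (nat_lit 4061) (nat_lit 8) .nil)))))),
   .der (nat_lit 86) (nat_lit 169),
   .der (nat_lit 129) (nat_lit 876),
   .der (nat_lit 36) (nat_lit 1406),
   .prs (.two (nat_lit 145) (nat_lit 16) (nat_lit 5047) (nat_lit 2) (.two (nat_lit 224) (nat_lit 1) (nat_lit 5048) (nat_lit 8) (.two (nat_lit 1) (nat_lit 16) (nat_lit 5049) (nat_lit 1) (.two (nat_lit 0) (nat_lit 16) (nat_lit 3166) (nat_lit 2) (.one (nat_lit 4065) (nat_lit 2) .nil))))),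
   .der (nat_lit 49) (nat_lit 1400),
   .prs (.two (nat_lit 794) (nat_lit 4) (nat_lit 2302) (nat_lit 1) (.two (nat_lit 1435) (nat_lit 2) (nat_lit 2532) (nat_lit 1) (.two (nat_lit 206) (nat_lit 2) (nat_lit 3107) (nat_lit 4) (.two (nat_lit 16) (nat_lit 2) (nat_lit 5051) (nat_lit 4) (.two (nat_lit 0) (nat_lit 2) (nat_lit 3169) (nat_lit 4) (.one (nat_lit 4067) (nat_lit 8) .nil)))))),
   .prs (.two (nat_lit 127) (nat_lit 4) (nat_lit 4265) (nat_lit 2) (.two (nat_lit 28) (nat_lit 4) (nat_lit 1548) (nat_lit 1) (.two (nat_lit 9) (nat_lit 4) (nat_lit 889) (nat_lit 1) (.two (nat_lit 1) (nat_lit 2) (nat_lit 1419) (nat_lit 1) (.two (nat_lit 0) (nat_lit 2) (nat_lit 2210) (nat_lit 4) (.one (nat_lit 4073) (nat_lit 2) .nil)))))),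
   .der (nat_lit 21107) (nat_lit 177),
   .der (nat_lit 1875) (nat_lit 870),
   .prs (.two (nat_lit 390) (nat_lit 2) (nat_lit 321) (nat_lit 1) (.two (nat_lit 2852) (nat_lit 1) (nat_lit 98) (nat_lit 2) (.two (nat_lit 679) (nat_lit 2) (nat_lit 5054) (nat_lit 1) (.two (nat_lit 1) (nat_lit 16) (nat_lit 5055) (nat_lit 1) (.two (nat_lit 0) (nat_lit 16) (nat_lit 1438) (nat_lit 2) (.one (nat_lit 4083) (nat_lit 2) .nil)))))),
   .prs (.two (nat_lit 69) (nat_lit 8) (nat_lit 858) (nat_lit 1) (.two (nat_lit 543) (nat_lit 2) (nat_lit 1397) (nat_lit 8) (.two (nat_lit 11) (nat_lit 2) (nat_lit 2212) (nat_lit 1) (.two (nat_lit 0) (nat_lit 1) (nat_lit 1441) (nat_lit 2) (.one (nat_lit 4084) (nat_lit 1) .nil))))),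
   .der (nat_lit 1415) (nat_lit 95),
   .prs (.two (nat_lit 13) (nat_lit 8) (nat_lit 462) (nat_lit 2) (.two (nat_lit 65) (nat_lit 8) (nat_lit 5058) (nat_lit 2) (.two (nat_lit 2) (nat_lit 16) (nat_lit 1410) (nat_lit 8) (.two (nat_lit 1) (nat_lit 16) (nat_lit 1411) (nat_lit 2) (.two (nat_lit 0) (nat_lit 16) (nat_lit 2244) (nat_lit 2) (.one (nat_lit 4050) (nat_lit 2) .nil)))))),
   .der (nat_lit 1074) (nat_lit 1431),
   .prs (.two (nat_lit 32) (nat_lit 16) (nat_lit 742) (nat_lit 1) (.two (nat_lit 111) (nat_lit 1) (nat_lit 1439) (nat_lit 16) (.two (nat_lit 68) (nat_lit 1) (nat_lit 82) (nat_lit 16) (.two (nat_lit 1) (nat_lit 8) (nat_lit 5060) (nat_lit 1) (.one (nat_lit 2247) (nat_lit 1) .nil))))),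
   .der (nat_lit 118) (nat_lit 37),
   .der (nat_lit 2) (nat_lit 1399),
   .prs (.two (nat_lit 80) (nat_lit 8) (nat_lit 24) (nat_lit 2) (.two (nat_lit 1459) (nat_lit 8) (nat_lit 5062) (nat_lit 2) (.two (nat_lit 433) (nat_lit 4) (nat_lit 2240) (nat_lit 2) (.two (nat_lit 1) (nat_lit 2) (nat_lit 4059) (nat_lit 8) (.two (nat_lit 0) (nat_lit 4) (nat_lit 5063) (nat_lit 2) (.one (nat_lit 4086) (nat_lit 2) .nil)))))),
   .der (nat_lit 33345) (nat_lit 381),
   .der (nat_lit 161) (nat_lit 1377),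
   .prs (.two (nat_lit 80) (nat_lit 8) (nat_lit 965) (nat_lit 2) (.two (nat_lit 791) (nat_lit 2) (nat_lit 5065) (nat_lit 8) (.two (nat_lit 1) (nat_lit 2) (nat_lit 5066) (nat_lit 8) (.one (nat_lit 3194) (nat_lit 8) .nil)))),
   .der (nat_lit 33345) (nat_lit 64),
   .der (nat_lit 1395) (nat_lit 1438),
   .prs (.two (nat_lit 390) (nat_lit 2) (nat_lit 5068) (nat_lit 8) (.two (nat_lit 34) (nat_lit 2) (nat_lit 3278) (nat_lit 8) (.two (nat_lit 3) (nat_lit 4) (nat_lit 5069) (nat_lit 2) (.one (nat_lit 4088) (nat_lit 2) .nil)))),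
   .prs (.two (nat_lit 13) (nat_lit 8) (nat_lit 462) (nat_lit 2) (.two (nat_lit 65) (nat_lit 8) (nat_lit 4199) (nat_lit 2) (.two (nat_lit 2) (nat_lit 16) (nat_lit 1722) (nat_lit 8) (.two (nat_lit 1) (nat_lit 2) (nat_lit 4049) (nat_lit 8) (.one (nat_lit 4077) (nat_lit 8) .nil))))),
   .der (nat_lit 1650) (nat_lit 64),
   .der (nat_lit 13345) (nat_lit 906),
   .prs (.two (nat_lit 676) (nat_lit 4) (nat_lit 5072) (nat_lit 8) (.two (nat_lit 2) (nat_lit 4) (nat_lit 4244) (nat_lit 8) (.two (nat_lit 1) (nat_lit 4) (nat_lit 5073) (nat_lit 8) (.two (nat_lit 0) (nat_lit 4) (nat_lit 3214) (nat_lit 8) (.one (nat_lit 4096) (nat_lit 8) .nil))))),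
   .der (nat_lit 2390) (nat_lit 39),
   .der (nat_lit 9) (nat_lit 1022),
   .der (nat_lit 50) (nat_lit 2194),
   .der (nat_lit 86) (nat_lit 2210),
   .prs (.two (nat_lit 794) (nat_lit 2) (nat_lit 5075) (nat_lit 4) (.two (nat_lit 537) (nat_lit 2) (nat_lit 1437) (nat_lit 1) (.two (nat_lit 2) (nat_lit 4) (nat_lit 5076) (nat_lit 1) (.two (nat_lit 3) (nat_lit 4) (nat_lit 5077) (nat_lit 1) (.two (nat_lit 0) (nat_lit 4) (nat_lit 5078) (nat_lit 2) (.one (nat_lit 4142) (nat_lit 2) .nil)))))),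
   .der (nat_lit 4) (nat_lit 123),
   .der (nat_lit 8) (nat_lit 425),
   .der (nat_lit 852) (nat_lit 1534),
   .der (nat_lit 13345) (nat_lit 4073),
   .prs (.two (nat_lit 1413) (nat_lit 16) (nat_lit 5080) (nat_lit 2) (.two (nat_lit 36) (nat_lit 2) (nat_lit 1410) (nat_lit 16) (.two (nat_lit 99) (nat_lit 2) (nat_lit 5081) (nat_lit 1) (.two (nat_lit 11) (nat_lit 16) (nat_lit 5082) (nat_lit 1) (.two (nat_lit 0) (nat_lit 1) (nat_lit 2332) (nat_lit 16) (.one (nat_lit 5083) (nat_lit 1) .nil)))))),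
   .der (nat_lit 117) (nat_lit 192),
   .der (nat_lit 1073) (nat_lit 1482),
   .prs (.two (nat_lit 13) (nat_lit 8) (nat_lit 1502) (nat_lit 1) (.two (nat_lit 956) (nat_lit 4) (nat_lit 5085) (nat_lit 8) (.two (nat_lit 195) (nat_lit 2) (nat_lit 1038) (nat_lit 1) (.two (nat_lit 3) (nat_lit 4) (nat_lit 5086) (nat_lit 2) (.two (nat_lit 0) (nat_lit 8) (nat_lit 3249) (nat_lit 4) (.one (nat_lit 4153) (nat_lit 4) .nil)))))),
   .der (nat_lit 37425) (nat_lit 73),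
   .der (nat_lit 5218) (nat_lit 421),
   .der (nat_lit 3) (nat_lit 1539),
   .prs (.two (nat_lit 1302) (nat_lit 4) (nat_lit 853) (nat_lit 2) (.two (nat_lit 427) (nat_lit 2) (nat_lit 5088) (nat_lit 4) (.two (nat_lit 1068) (nat_lit 4) (nat_lit 572) (nat_lit 2) (.two (nat_lit 3) (nat_lit 1) (nat_lit 5089) (nat_lit 2) (.two (nat_lit 0) (nat_lit 1) (nat_lit 5090) (nat_lit 2) (.one (nat_lit 4193) (nat_lit 4) .nil)))))),
   .der (nat_lit 84) (nat_lit 84),
   .der (nat_lit 129) (nat_lit 939),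
   .der (nat_lit 1556) (nat_lit 2342),
   .prs (.two (nat_lit 80) (nat_lit 8) (nat_lit 5092) (nat_lit 4) (.two (nat_lit 489) (nat_lit 2) (nat_lit 455) (nat_lit 4) (.two (nat_lit 34) (nat_lit 8) (nat_lit 5093) (nat_lit 2) (.two (nat_lit 1) (nat_lit 2) (nat_lit 5094) (nat_lit 8) (.two (nat_lit 0) (nat_lit 4) (nat_lit 4389) (nat_lit 8) (.one (nat_lit 4181) (nat_lit 2) .nil)))))),
   .der (nat_lit 22803) (nat_lit 106),
   .der (nat_lit 50) (nat_lit 2292),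
   .der (nat_lit 2390) (nat_lit 2247),
   .der (nat_lit 86) (nat_lit 3988),
   .prs (.two (nat_lit 794) (nat_lit 4) (nat_lit 5096) (nat_lit 1) (.two (nat_lit 427) (nat_lit 2) (nat_lit 1460) (nat_lit 4) (.two (nat_lit 170) (nat_lit 2) (nat_lit 4095) (nat_lit 4) (.two (nat_lit 1) (nat_lit 2) (nat_lit 5097) (nat_lit 4) (.two (nat_lit 0) (nat_lit 2) (nat_lit 5098) (nat_lit 1) (.one (nat_lit 5099) (nat_lit 4) .nil)))))),
   .der (nat_lit 852) (nat_lit 118),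
   .der (nat_lit 65) (nat_lit 1438),
   .prs (.two (nat_lit 145) (nat_lit 4) (nat_lit 5101) (nat_lit 2) (.two (nat_lit 17) (nat_lit 4) (nat_lit 3281) (nat_lit 2) (.two (nat_lit 11) (nat_lit 1) (nat_lit 5102) (nat_lit 4) (.one (nat_lit 4197) (nat_lit 4) .nil)))),
   .der (nat_lit 9) (nat_lit 229),
   .der (nat_lit 1653) (nat_lit 530),
   .der (nat_lit 98) (nat_lit 1534),
   .prs (.two (nat_lit 794) (nat_lit 4) (nat_lit 5104) (nat_lit 1) (.two (nat_lit 65) (nat_lit 2) (nat_lit 5105) (nat_lit 8) (.two (nat_lit 9) (nat_lit 4) (nat_lit 939) (nat_lit 1) (.two (nat_lit 11) (nat_lit 2) (nat_lit 5106) (nat_lit 8) (.two (nat_lit 0) (nat_lit 2) (nat_lit 4152) (nat_lit 8) (.one (nat_lit 4189) (nat_lit 4) .nil)))))),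
   .der (nat_lit 135) (nat_lit 31),
   .der (nat_lit 1430) (nat_lit 159),
   .der (nat_lit 1893) (nat_lit 169),
   .der (nat_lit 16738) (nat_lit 907),
   .der (nat_lit 339) (nat_lit 2249),
   .prs (.two (nat_lit 97) (nat_lit 1) (nat_lit 5108) (nat_lit 2) (.two (nat_lit 537) (nat_lit 1) (nat_lit 5109) (nat_lit 2) (.two (nat_lit 434) (nat_lit 1) (nat_lit 5110) (nat_lit 2) (.two (nat_lit 11) (nat_lit 1) (nat_lit 5111) (nat_lit 2) (.two (nat_lit 0) (nat_lit 1) (nat_lit 2373) (nat_lit 2) (.one (nat_lit 5112) (nat_lit 2) .nil)))))),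
   .der (nat_lit 627) (nat_lit 187),
   .prs (.two (nat_lit 69) (nat_lit 1) (nat_lit 4154) (nat_lit 2) (.two (nat_lit 1459) (nat_lit 2) (nat_lit 4155) (nat_lit 1) (.two (nat_lit 434) (nat_lit 1) (nat_lit 5114) (nat_lit 2) (.two (nat_lit 11) (nat_lit 1) (nat_lit 4157) (nat_lit 2) (.two (nat_lit 0) (nat_lit 2) (nat_lit 2380) (nat_lit 1) (.one (nat_lit 4202) (nat_lit 1) .nil)))))),
   .prs (.two (nat_lit 13) (nat_lit 8) (nat_lit 2461) (nat_lit 4) (.two (nat_lit 2) (nat_lit 8) (nat_lit 3993) (nat_lit 4) (.two (nat_lit 0) (nat_lit 4) (nat_lit 5028) (nat_lit 8) (.one (nat_lit 4130) (nat_lit 8) .nil)))),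
   .der (nat_lit 1073) (nat_lit 451),
   .der (nat_lit 3) (nat_lit 881),
   .prs (.two (nat_lit 390) (nat_lit 2) (nat_lit 1402) (nat_lit 1) (.two (nat_lit 100) (nat_lit 2) (nat_lit 1511) (nat_lit 1) (.two (nat_lit 622) (nat_lit 2) (nat_lit 5117) (nat_lit 1) (.two (nat_lit 11) (nat_lit 2) (nat_lit 5118) (nat_lit 1) (.two (nat_lit 0) (nat_lit 1) (nat_lit 3306) (nat_lit 2) (.one (nat_lit 4152) (nat_lit 2) .nil)))))),
   .der (nat_lit 9587) (nat_lit 245),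
   .der (nat_lit 67) (nat_lit 169),
   .der (nat_lit 1299) (nat_lit 2373),
   .der (nat_lit 5971) (nat_lit 3166),
   .prs (.two (nat_lit 1113) (nat_lit 2) (nat_lit 5120) (nat_lit 1) (.two (nat_lit 434) (nat_lit 2) (nat_lit 5121) (nat_lit 1) (.two (nat_lit 16) (nat_lit 2) (nat_lit 5122) (nat_lit 1) (.one (nat_lit 5123) (nat_lit 1) .nil)))),
   .der (nat_lit 162) (nat_lit 201),
   .der (nat_lit 30226) (nat_lit 367),
   .der (nat_lit 86) (nat_lit 946),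
   .der (nat_lit 101) (nat_lit 2375),
   .prs (.two (nat_lit 520) (nat_lit 4) (nat_lit 38) (nat_lit 8) (.two (nat_lit 404) (nat_lit 8) (nat_lit 5125) (nat_lit 4) (.two (nat_lit 170) (nat_lit 4) (nat_lit 5126) (nat_lit 2) (.two (nat_lit 1) (nat_lit 2) (nat_lit 5127) (nat_lit 4) (.two (nat_lit 0) (nat_lit 4) (nat_lit 5128) (nat_lit 8) (.one (nat_lit 4206) (nat_lit 8) .nil)))))),
   .der (nat_lit 371) (nat_lit 472),
   .der (nat_lit 150) (nat_lit 1546),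
   .prs (.two (nat_lit 32) (nat_lit 8) (nat_lit 1574) (nat_lit 4) (.two (nat_lit 493) (nat_lit 2) (nat_lit 5130) (nat_lit 4) (.two (nat_lit 1) (nat_lit 2) (nat_lit 5131) (nat_lit 4) (.one (nat_lit 4207) (nat_lit 8) .nil)))),
   .der (nat_lit 83) (nat_lit 128),
   .der (nat_lit 1073) (nat_lit 169),
   .prs (.two (nat_lit 71) (nat_lit 1) (nat_lit 614) (nat_lit 2) (.two (nat_lit 1118) (nat_lit 1) (nat_lit 5133) (nat_lit 2) (.two (nat_lit 338) (nat_lit 2) (nat_lit 5134) (nat_lit 1) (.two (nat_lit 11) (nat_lit 2) (nat_lit 2355) (nat_lit 1) (.two (nat_lit 0) (nat_lit 1) (nat_lit 2373) (nat_lit 2) (.one (nat_lit 4210) (nat_lit 2) .nil)))))),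
   .der (nat_lit 36) (nat_lit 55),
   .der (nat_lit 6) (nat_lit 939),
   .prs (.two (nat_lit 440) (nat_lit 8) (nat_lit 5136) (nat_lit 1) (.two (nat_lit 543) (nat_lit 2) (nat_lit 2350) (nat_lit 8) (.two (nat_lit 206) (nat_lit 2) (nat_lit 4162) (nat_lit 1) (.two (nat_lit 11) (nat_lit 8) (nat_lit 5137) (nat_lit 1) (.two (nat_lit 0) (nat_lit 2) (nat_lit 2352) (nat_lit 8) (.one (nat_lit 4213) (nat_lit 8) .nil)))))),
   .der (nat_lit 18) (nat_lit 98),
   .der (nat_lit 137) (nat_lit 465),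
   .der (nat_lit 50) (nat_lit 864),
   .prs (.two (nat_lit 390) (nat_lit 2) (nat_lit 1402) (nat_lit 1) (.two (nat_lit 528) (nat_lit 2) (nat_lit 5139) (nat_lit 1) (.two (nat_lit 356) (nat_lit 1) (nat_lit 5140) (nat_lit 2) (.two (nat_lit 3) (nat_lit 16) (nat_lit 5141) (nat_lit 1) (.one (nat_lit 4152) (nat_lit 2) .nil))))),
   .der (nat_lit 2113) (nat_lit 37),
   .der (nat_lit 35) (nat_lit 934),
   .der (nat_lit 1395) (nat_lit 2247),
   .prs (.two (nat_lit 1582) (nat_lit 8) (nat_lit 3414) (nat_lit 4) (.two (nat_lit 36) (nat_lit 8) (nat_lit 5143) (nat_lit 4) (.two (nat_lit 202) (nat_lit 8) (nat_lit 3009) (nat_lit 4) (.two (nat_lit 1) (nat_lit 8) (nat_lit 5144) (nat_lit 4) (.two (nat_lit 0) (nat_lit 1) (nat_lit 5145) (nat_lit 8) .nil))))),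
   .der (nat_lit 12658) (nat_lit 39),
   .der (nat_lit 834) (nat_lit 421),
   .der (nat_lit 129) (nat_lit 1438),
   .der (nat_lit 1653) (nat_lit 3279),
   .prs (.two (nat_lit 1554) (nat_lit 2) (nat_lit 5147) (nat_lit 1) (.two (nat_lit 356) (nat_lit 2) (nat_lit 584) (nat_lit 1) (.two (nat_lit 3) (nat_lit 8) (nat_lit 5148) (nat_lit 1) (.two (nat_lit 0) (nat_lit 8) (nat_lit 5149) (nat_lit 1) (.one (nat_lit 5150) (nat_lit 1) .nil))))),
   .der (nat_lit 1300) (nat_lit 59),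
   .der (nat_lit 9) (nat_lit 371),
   .der (nat_lit 9) (nat_lit 824),
   .prs (.two (nat_lit 418) (nat_lit 1) (nat_lit 582) (nat_lit 4) (.two (nat_lit 65) (nat_lit 2) (nat_lit 5152) (nat_lit 4) (.two (nat_lit 4) (nat_lit 2) (nat_lit 5153) (nat_lit 4) (.two (nat_lit 1) (nat_lit 2) (nat_lit 5154) (nat_lit 4) (.two (nat_lit 0) (nat_lit 4) (nat_lit 2385) (nat_lit 1) (.one (nat_lit 4216) (nat_lit 1) .nil)))))),
   .prs (.two (nat_lit 97) (nat_lit 1) (nat_lit 1039) (nat_lit 2) (.two (nat_lit 434) (nat_lit 1) (nat_lit 1537) (nat_lit 2) (.two (nat_lit 11) (nat_lit 1) (nat_lit 3268) (nat_lit 2) (.two (nat_lit 0) (nat_lit 2) (nat_lit 2386) (nat_lit 1) (.one (nat_lit 4219) (nat_lit 1) .nil))))),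
   .der (nat_lit 2068) (nat_lit 1419),
   .der (nat_lit 1300) (nat_lit 3251),
   .prs (.two (nat_lit 676) (nat_lit 4) (nat_lit 3271) (nat_lit 2) (.two (nat_lit 170) (nat_lit 4) (nat_lit 3272) (nat_lit 2) (.two (nat_lit 0) (nat_lit 4) (nat_lit 5157) (nat_lit 2) (.one (nat_lit 5158) (nat_lit 4) .nil)))),
   .der (nat_lit 1653) (nat_lit 87),
   .der (nat_lit 1) (nat_lit 894),
   .prs (.two (nat_lit 462) (nat_lit 4) (nat_lit 5160) (nat_lit 8) (.two (nat_lit 740) (nat_lit 8) (nat_lit 5161) (nat_lit 16) (.two (nat_lit 0) (nat_lit 4) (nat_lit 2389) (nat_lit 16) (.one (nat_lit 4223) (nat_lit 4) .nil)))),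
   .prs (.two (nat_lit 520) (nat_lit 8) (nat_lit 145) (nat_lit 16) (.two (nat_lit 91) (nat_lit 16) (nat_lit 2607) (nat_lit 2) (.two (nat_lit 1) (nat_lit 8) (nat_lit 2362) (nat_lit 2) (.two (nat_lit 0) (nat_lit 16) (nat_lit 2391) (nat_lit 8) (.one (nat_lit 4224) (nat_lit 2) .nil))))),
   .prs (.two (nat_lit 91) (nat_lit 16) (nat_lit 1307) (nat_lit 2) (.two (nat_lit 1) (nat_lit 16) (nat_lit 1308) (nat_lit 2) (.two (nat_lit 0) (nat_lit 16) (nat_lit 1569) (nat_lit 2) (.one (nat_lit 4225) (nat_lit 2) .nil)))),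
   .der (nat_lit 659) (nat_lit 948),
   .der (nat_lit 24916) (nat_lit 2317),
   .prs (.two (nat_lit 520) (nat_lit 16) (nat_lit 2237) (nat_lit 2) (.two (nat_lit 427) (nat_lit 2) (nat_lit 1531) (nat_lit 16) (.two (nat_lit 7) (nat_lit 16) (nat_lit 5165) (nat_lit 1) (.two (nat_lit 3) (nat_lit 1) (nat_lit 2471) (nat_lit 2) (.two (nat_lit 0) (nat_lit 1) (nat_lit 5166) (nat_lit 2) (.one (nat_lit 4236) (nat_lit 1) .nil)))))),
   .der (nat_lit 87) (nat_lit 870),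
   .der (nat_lit 13345) (nat_lit 2210),
   .der (nat_lit 2578) (nat_lit 4055),
   .prs (.two (nat_lit 32) (nat_lit 16) (nat_lit 3341) (nat_lit 1) (.two (nat_lit 1459) (nat_lit 2) (nat_lit 1410) (nat_lit 16) (.two (nat_lit 34) (nat_lit 16) (nat_lit 5168) (nat_lit 2) (.two (nat_lit 3) (nat_lit 1) (nat_lit 5041) (nat_lit 2) (.two (nat_lit 0) (nat_lit 1) (nat_lit 5169) (nat_lit 16) (.one (nat_lit 5170) (nat_lit 1) .nil)))))),
   .der (nat_lit 1300) (nat_lit 64),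
   .der (nat_lit 9) (nat_lit 399),
   .der (nat_lit 152) (nat_lit 843),
   .der (nat_lit 1) (nat_lit 3350),
   .prs (.two (nat_lit 440) (nat_lit 8) (nat_lit 5172) (nat_lit 4) (.two (nat_lit 4) (nat_lit 8) (nat_lit 5173) (nat_lit 4) (.two (nat_lit 1) (nat_lit 8) (nat_lit 5174) (nat_lit 4) (.two (nat_lit 0) (nat_lit 1) (nat_lit 5175) (nat_lit 8) .nil)))),
   .der (nat_lit 50) (nat_lit 2363),
   .prs (.two (nat_lit 94) (nat_lit 2) (nat_lit 2473) (nat_lit 1) (.two (nat_lit 463) (nat_lit 16) (nat_lit 2498) (nat_lit 2) (.two (nat_lit 1) (nat_lit 4) (nat_lit 5177) (nat_lit 1) (.one (nat_lit 4271) (nat_lit 16) .nil)))),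
   .der (nat_lit 1893) (nat_lit 104),
   .der (nat_lit 577) (nat_lit 381),
   .der (nat_lit 801) (nat_lit 1500),
   .der (nat_lit 1650) (nat_lit 2339),
   .prs (.two (nat_lit 13) (nat_lit 16) (nat_lit 2029) (nat_lit 4) (.two (nat_lit 129) (nat_lit 16) (nat_lit 5179) (nat_lit 4) (.two (nat_lit 2) (nat_lit 16) (nat_lit 5180) (nat_lit 4) (.two (nat_lit 1) (nat_lit 4) (nat_lit 5181) (nat_lit 16) (.two (nat_lit 0) (nat_lit 1) (nat_lit 5182) (nat_lit 4) (.one (nat_lit 4275) (nat_lit 1) .nil)))))),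
   .der (nat_lit 118) (nat_lit 74),
   .der (nat_lit 340) (nat_lit 1579),
   .der (nat_lit 9572) (nat_lit 3251),
   .prs (.two (nat_lit 676) (nat_lit 4) (nat_lit 968) (nat_lit 2) (.two (nat_lit 427) (nat_lit 4) (nat_lit 5184) (nat_lit 2) (.two (nat_lit 144) (nat_lit 2) (nat_lit 3423) (nat_lit 4) (.two (nat_lit 11) (nat_lit 8) (nat_lit 5185) (nat_lit 2) (.two (nat_lit 0) (nat_lit 8) (nat_lit 5186) (nat_lit 4) .nil))))),
   .der (nat_lit 137) (nat_lit 177),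
   .der (nat_lit 30226) (nat_lit 1491),
   .der (nat_lit 50) (nat_lit 2414),
   .der (nat_lit 882) (nat_lit 4224),
   .prs (.two (nat_lit 440) (nat_lit 16) (nat_lit 5188) (nat_lit 2) (.two (nat_lit 11) (nat_lit 1) (nat_lit 5189) (nat_lit 2) (.two (nat_lit 0) (nat_lit 16) (nat_lit 5190) (nat_lit 1) (.one (nat_lit 5191) (nat_lit 2) .nil)))),
   .der (nat_lit 1653) (nat_lit 461),
   .prs (.two (nat_lit 80) (nat_lit 16) (nat_lit 4842) (nat_lit 2) (.two (nat_lit 463) (nat_lit 16) (nat_lit 5193) (nat_lit 2) (.two (nat_lit 3) (nat_lit 1) (nat_lit 3343) (nat_lit 2) (.two (nat_lit 0) (nat_lit 1) (nat_lit 2468) (nat_lit 2) (.one (nat_lit 4278) (nat_lit 1) .nil))))),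
   .der (nat_lit 66) (nat_lit 77),
   .der (nat_lit 4978) (nat_lit 984),
   .prs (.two (nat_lit 86) (nat_lit 4) (nat_lit 550) (nat_lit 1) (.two (nat_lit 370) (nat_lit 4) (nat_lit 5195) (nat_lit 1) (.two (nat_lit 173) (nat_lit 4) (nat_lit 5196) (nat_lit 1) (.two (nat_lit 0) (nat_lit 1) (nat_lit 3346) (nat_lit 4) (.one (nat_lit 4279) (nat_lit 1) .nil))))),
   .der (nat_lit 1556) (nat_lit 255),
   .der (nat_lit 1810) (nat_lit 432),
   .der (nat_lit 152) (nat_lit 1469),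
   .prs (.two (nat_lit 69) (nat_lit 1) (nat_lit 582) (nat_lit 4) (.two (nat_lit 44) (nat_lit 1) (nat_lit 5198) (nat_lit 4) (.two (nat_lit 248) (nat_lit 4) (nat_lit 5199) (nat_lit 1) (.two (nat_lit 3) (nat_lit 1) (nat_lit 5200) (nat_lit 4) (.two (nat_lit 0) (nat_lit 1) (nat_lit 3365) (nat_lit 4) (.one (nat_lit 3368) (nat_lit 1) .nil)))))),
   .der (nat_lit 4978) (nat_lit 90),
   .prs (.two (nat_lit 390) (nat_lit 2) (nat_lit 5202) (nat_lit 4) (.two (nat_lit 170) (nat_lit 2) (nat_lit 3349) (nat_lit 4) (.two (nat_lit 0) (nat_lit 2) (nat_lit 2481) (nat_lit 4) (.one (nat_lit 4282) (nat_lit 2) .nil)))),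
   .der (nat_lit 7) (nat_lit 27),
   .der (nat_lit 52) (nat_lit 126),
   .der (nat_lit 118) (nat_lit 497),
   .prs (.two (nat_lit 4901) (nat_lit 2) (nat_lit 5204) (nat_lit 4) (.two (nat_lit 132) (nat_lit 8) (nat_lit 5205) (nat_lit 4) (.two (nat_lit 34) (nat_lit 2) (nat_lit 5206) (nat_lit 4) (.two (nat_lit 1) (nat_lit 2) (nat_lit 3346) (nat_lit 4) (.one (nat_lit 4284) (nat_lit 4) .nil))))),
   .der (nat_lit 152) (nat_lit 852),
   .prs (.two (nat_lit 13) (nat_lit 16) (nat_lit 4255) (nat_lit 4) (.two (nat_lit 2) (nat_lit 16) (nat_lit 5208) (nat_lit 4) (.two (nat_lit 0) (nat_lit 16) (nat_lit 2483) (nat_lit 4) (.one (nat_lit 4286) (nat_lit 4) .nil)))),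
   .der (nat_lit 2578) (nat_lit 39),
   .der (nat_lit 1074) (nat_lit 169),
   .der (nat_lit 1122) (nat_lit 960),
   .der (nat_lit 37425) (nat_lit 2191),
   .der (nat_lit 1122) (nat_lit 3166),
   .der (nat_lit 1122) (nat_lit 4065),
   .prs (.two (nat_lit 440) (nat_lit 2) (nat_lit 5210) (nat_lit 8) (.two (nat_lit 30) (nat_lit 8) (nat_lit 5211) (nat_lit 1) (.two (nat_lit 442) (nat_lit 1) (nat_lit 5212) (nat_lit 2) (.two (nat_lit 11) (nat_lit 2) (nat_lit 5213) (nat_lit 1) (.two (nat_lit 0) (nat_lit 8) (nat_lit 5214) (nat_lit 1) (.one (nat_lit 5215) (nat_lit 1) .nil)))))),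
   .der (nat_lit 627) (nat_lit 192),
   .der (nat_lit 644) (nat_lit 892),
   .der (nat_lit 370) (nat_lit 2203),
   .prs (.two (nat_lit 86) (nat_lit 16) (nat_lit 5217) (nat_lit 4) (.two (nat_lit 1024) (nat_lit 2) (nat_lit 5218) (nat_lit 8) (.two (nat_lit 3) (nat_lit 16) (nat_lit 5219) (nat_lit 2) (.one (nat_lit 4408) (nat_lit 16) .nil)))),
   .der (nat_lit 20) (nat_lit 84),
   .der (nat_lit 18) (nat_lit 1448),
   .der (nat_lit 152) (nat_lit 2247),
   .prs (.two (nat_lit 13) (nat_lit 8) (nat_lit 5221) (nat_lit 1) (.two (nat_lit 42) (nat_lit 8) (nat_lit 1460) (nat_lit 4) (.two (nat_lit 308) (nat_lit 1) (nat_lit 3226) (nat_lit 4) (.two (nat_lit 3) (nat_lit 8) (nat_lit 5222) (nat_lit 4) (.two (nat_lit 0) (nat_lit 8) (nat_lit 5223) (nat_lit 1) (.one (nat_lit 4411) (nat_lit 4) .nil)))))),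
   .der (nat_lit 1) (nat_lit 848),
   .der (nat_lit 161) (nat_lit 2289),
   .prs (.two (nat_lit 1326) (nat_lit 1) (nat_lit 4756) (nat_lit 16) (.two (nat_lit 68) (nat_lit 16) (nat_lit 686) (nat_lit 1) (.two (nat_lit 1) (nat_lit 2) (nat_lit 5225) (nat_lit 16) (.two (nat_lit 0) (nat_lit 1) (nat_lit 5226) (nat_lit 16) (.one (nat_lit 3451) (nat_lit 1) .nil))))),
   .der (nat_lit 801) (nat_lit 1392),
   .prs (.two (nat_lit 105) (nat_lit 16) (nat_lit 1159) (nat_lit 4) (.two (nat_lit 622) (nat_lit 1) (nat_lit 4361) (nat_lit 16) (.two (nat_lit 0) (nat_lit 1) (nat_lit 5228) (nat_lit 16) (.one (nat_lit 4468) (nat_lit 16) .nil)))),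
   .prs (.two (nat_lit 676) (nat_lit 16) (nat_lit 965) (nat_lit 4) (.two (nat_lit 489) (nat_lit 4) (nat_lit 3423) (nat_lit 16) (.two (nat_lit 1) (nat_lit 4) (nat_lit 2299) (nat_lit 16) (.two (nat_lit 0) (nat_lit 1) (nat_lit 4469) (nat_lit 16) (.one (nat_lit 4470) (nat_lit 1) .nil))))),
   .der (nat_lit 137) (nat_lit 101),
   .der (nat_lit 86) (nat_lit 984),
   .der (nat_lit 1299) (nat_lit 1475),
   .prs (.two (nat_lit 13) (nat_lit 8) (nat_lit 509) (nat_lit 4) (.two (nat_lit 42) (nat_lit 8) (nat_lit 5231) (nat_lit 4) (.two (nat_lit 9) (nat_lit 4) (nat_lit 2207) (nat_lit 1) (.two (nat_lit 3) (nat_lit 4) (nat_lit 5232) (nat_lit 8) (.two (nat_lit 0) (nat_lit 2) (nat_lit 5233) (nat_lit 4) (.one (nat_lit 4473) (nat_lit 8) .nil)))))),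
   .der (nat_lit 165) (nat_lit 93),
   .prs (.two (nat_lit 676) (nat_lit 16) (nat_lit 5235) (nat_lit 4) (.two (nat_lit 17) (nat_lit 4) (nat_lit 3423) (nat_lit 16) (.two (nat_lit 1) (nat_lit 4) (nat_lit 4435) (nat_lit 16) (.two (nat_lit 0) (nat_lit 1) (nat_lit 4469) (nat_lit 16) (.one (nat_lit 4475) (nat_lit 1) .nil))))),
   .der (nat_lit 17185) (nat_lit 113),
   .der (nat_lit 2578) (nat_lit 169),
   .prs (.two (nat_lit 94) (nat_lit 2) (nat_lit 5237) (nat_lit 8) (.two (nat_lit 75) (nat_lit 2) (nat_lit 5238) (nat_lit 8) (.two (nat_lit 1) (nat_lit 2) (nat_lit 4484) (nat_lit 8) (.one (nat_lit 3460) (nat_lit 1) .nil)))),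
   .der (nat_lit 87) (nat_lit 113),
   .der (nat_lit 98) (nat_lit 837),
   .der (nat_lit 67) (nat_lit 3413),
   .prs (.two (nat_lit 418) (nat_lit 16) (nat_lit 5240) (nat_lit 1) (.two (nat_lit 224) (nat_lit 1) (nat_lit 4412) (nat_lit 16) (.two (nat_lit 11) (nat_lit 1) (nat_lit 5241) (nat_lit 16) (.two (nat_lit 0) (nat_lit 1) (nat_lit 2551) (nat_lit 16) (.one (nat_lit 5242) (nat_lit 1) .nil))))),
   .der (nat_lit 52) (nat_lit 74),
   .der (nat_lit 1650) (nat_lit 412),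
   .der (nat_lit 5) (nat_lit 2494),
   .prs (.two (nat_lit 676) (nat_lit 4) (nat_lit 5244) (nat_lit 8) (.two (nat_lit 2) (nat_lit 4) (nat_lit 5245) (nat_lit 8) (.two (nat_lit 1) (nat_lit 4) (nat_lit 5246) (nat_lit 8) (.one (nat_lit 4322) (nat_lit 8) .nil)))),
   .der (nat_lit 26386) (nat_lit 1534),
   .der (nat_lit 577) (nat_lit 2332),
   .prs (.two (nat_lit 440) (nat_lit 16) (nat_lit 2701) (nat_lit 4) (.two (nat_lit 65) (nat_lit 16) (nat_lit 2093) (nat_lit 2) (.two (nat_lit 75) (nat_lit 16) (nat_lit 2688) (nat_lit 2) (.two (nat_lit 1) (nat_lit 4) (nat_lit 5248) (nat_lit 2) (.two (nat_lit 0) (nat_lit 2) (nat_lit 5249) (nat_lit 4) (.one (nat_lit 4455) (nat_lit 16) .nil)))))),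
   .der (nat_lit 18) (nat_lit 271),
   .der (nat_lit 35) (nat_lit 429),
   .prs (.two (nat_lit 227) (nat_lit 8) (nat_lit 1784) (nat_lit 1) (.two (nat_lit 4) (nat_lit 2) (nat_lit 5251) (nat_lit 4) (.two (nat_lit 1) (nat_lit 2) (nat_lit 5252) (nat_lit 4) (.two (nat_lit 0) (nat_lit 2) (nat_lit 1710) (nat_lit 4) (.one (nat_lit 4511) (nat_lit 8) .nil))))),
   .der (nat_lit 1554) (nat_lit 24),
   .der (nat_lit 165) (nat_lit 2322),
   .prs (.two (nat_lit 32) (nat_lit 8) (nat_lit 5254) (nat_lit 1) (.two (nat_lit 3643) (nat_lit 8) (nat_lit 419) (nat_lit 1) (.two (nat_lit 7) (nat_lit 1) (nat_lit 1559) (nat_lit 8) (.two (nat_lit 3) (nat_lit 1) (nat_lit 5255) (nat_lit 8) (.one (nat_lit 3464) (nat_lit 8) .nil))))),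
   .der (nat_lit 98) (nat_lit 135),
   .der (nat_lit 100) (nat_lit 2264),
   .der (nat_lit 3) (nat_lit 3464),
   .prs (.two (nat_lit 32) (nat_lit 8) (nat_lit 5257) (nat_lit 1) (.two (nat_lit 7) (nat_lit 8) (nat_lit 5211) (nat_lit 1) (.two (nat_lit 3) (nat_lit 8) (nat_lit 5258) (nat_lit 1) (.one (nat_lit 5259) (nat_lit 1) .nil)))),
   .der (nat_lit 9) (nat_lit 72),
   .der (nat_lit 2433) (nat_lit 848),
   .prs (.two (nat_lit 80) (nat_lit 8) (nat_lit 122) (nat_lit 4) (.two (nat_lit 30) (nat_lit 8) (nat_lit 5261) (nat_lit 4) (.two (nat_lit 383) (nat_lit 8) (nat_lit 5262) (nat_lit 4) (.two (nat_lit 0) (nat_lit 2) (nat_lit 1450) (nat_lit 4) (.one (nat_lit 4479) (nat_lit 4) .nil))))),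
   .der (nat_lit 1554) (nat_lit 589),
   .prs (.two (nat_lit 440) (nat_lit 8) (nat_lit 462) (nat_lit 4) (.two (nat_lit 227) (nat_lit 8) (nat_lit 1951) (nat_lit 1) (.two (nat_lit 1068) (nat_lit 1) (nat_lit 5264) (nat_lit 4) (.two (nat_lit 3) (nat_lit 1) (nat_lit 2463) (nat_lit 8) (.two (nat_lit 0) (nat_lit 8) (nat_lit 4179) (nat_lit 1) (.one (nat_lit 4482) (nat_lit 1) .nil)))))),
   .der (nat_lit 114) (nat_lit 77),
   .der (nat_lit 1811) (nat_lit 641),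
   .prs (.two (nat_lit 427) (nat_lit 2) (nat_lit 509) (nat_lit 4) (.two (nat_lit 384) (nat_lit 1) (nat_lit 5266) (nat_lit 2) (.two (nat_lit 11) (nat_lit 1) (nat_lit 5267) (nat_lit 2) (.two (nat_lit 0) (nat_lit 1) (nat_lit 1711) (nat_lit 2) (.one (nat_lit 3514) (nat_lit 2) .nil))))),
   .der (nat_lit 659) (nat_lit 41),
   .der (nat_lit 162) (nat_lit 72),
   .der (nat_lit 13345) (nat_lit 955),
   .der (nat_lit 165) (nat_lit 2194),
   .prs (.two (nat_lit 94) (nat_lit 2) (nat_lit 5269) (nat_lit 8) (.two (nat_lit 427) (nat_lit 2) (nat_lit 5270) (nat_lit 8) (.two (nat_lit 75) (nat_lit 2) (nat_lit 5271) (nat_lit 8) (.two (nat_lit 0) (nat_lit 1) (nat_lit 5272) (nat_lit 8) (.one (nat_lit 4485) (nat_lit 2) .nil))))),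
   .der (nat_lit 2353) (nat_lit 1088),
   .prs (.two (nat_lit 390) (nat_lit 16) (nat_lit 4834) (nat_lit 2) (.two (nat_lit 124) (nat_lit 16) (nat_lit 3087) (nat_lit 1) (.two (nat_lit 740) (nat_lit 16) (nat_lit 5274) (nat_lit 1) (.two (nat_lit 0) (nat_lit 1) (nat_lit 3292) (nat_lit 16) (.one (nat_lit 4487) (nat_lit 1) .nil))))),
   .der (nat_lit 2193) (nat_lit 485),
   .prs (.two (nat_lit 13) (nat_lit 8) (nat_lit 522) (nat_lit 4) (.two (nat_lit 6) (nat_lit 8) (nat_lit 5276) (nat_lit 4) (.two (nat_lit 11) (nat_lit 16) (nat_lit 3226) (nat_lit 4) (.two (nat_lit 0) (nat_lit 16) (nat_lit 5094) (nat_lit 8) (.one (nat_lit 4490) (nat_lit 8) .nil))))),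
   .der (nat_lit 129) (nat_lit 861),
   .der (nat_lit 152) (nat_lit 2332),
   .prs (.two (nat_lit 676) (nat_lit 16) (nat_lit 509) (nat_lit 4) (.two (nat_lit 956) (nat_lit 4) (nat_lit 423) (nat_lit 16) (.two (nat_lit 2) (nat_lit 4) (nat_lit 5278) (nat_lit 16) (.one (nat_lit 5279) (nat_lit 16) .nil)))),
   .der (nat_lit 33) (nat_lit 417),
   .der (nat_lit 1) (nat_lit 2183),
   .prs (.two (nat_lit 32) (nat_lit 16) (nat_lit 462) (nat_lit 8) (.two (nat_lit 53) (nat_lit 8) (nat_lit 2168) (nat_lit 16) (.two (nat_lit 206) (nat_lit 8) (nat_lit 5281) (nat_lit 16) (.two (nat_lit 0) (nat_lit 8) (nat_lit 5282) (nat_lit 16) .nil)))),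
   .der (nat_lit 9587) (nat_lit 95),
   .der (nat_lit 1810) (nat_lit 182),
   .der (nat_lit 100) (nat_lit 1534),
   .prs (.two (nat_lit 676) (nat_lit 4) (nat_lit 5284) (nat_lit 1) (.two (nat_lit 34) (nat_lit 2) (nat_lit 5285) (nat_lit 1) (.two (nat_lit 1) (nat_lit 2) (nat_lit 5286) (nat_lit 1) (.one (nat_lit 2560) (nat_lit 1) .nil)))),
   .der (nat_lit 4) (nat_lit 45),
   .der (nat_lit 2433) (nat_lit 123),
   .prs (.two (nat_lit 397) (nat_lit 4) (nat_lit 5288) (nat_lit 1) (.two (nat_lit 78) (nat_lit 4) (nat_lit 5289) (nat_lit 1) (.two (nat_lit 16) (nat_lit 1) (nat_lit 3130) (nat_lit 4) (.two (nat_lit 0) (nat_lit 1) (nat_lit 2562) (nat_lit 4) .nil)))),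
   .der (nat_lit 1811) (nat_lit 8),
   .der (nat_lit 161) (nat_lit 2464),
   .prs (.two (nat_lit 5291) (nat_lit 2) (nat_lit 449) (nat_lit 8) (.two (nat_lit 433) (nat_lit 2) (nat_lit 1694) (nat_lit 8) (.two (nat_lit 16) (nat_lit 2) (nat_lit 1695) (nat_lit 8) (.two (nat_lit 0) (nat_lit 2) (nat_lit 5292) (nat_lit 8) .nil)))),
   .prs (.two (nat_lit 520) (nat_lit 4) (nat_lit 4494) (nat_lit 8) (.two (nat_lit 2) (nat_lit 4) (nat_lit 4495) (nat_lit 8) (.two (nat_lit 1) (nat_lit 2) (nat_lit 2567) (nat_lit 4) (.two (nat_lit 0) (nat_lit 4) (nat_lit 2564) (nat_lit 8) (.one (nat_lit 2569) (nat_lit 2) .nil))))),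
   .der (nat_lit 1554) (nat_lit 296),
   .der (nat_lit 5218) (nat_lit 960),
   .prs (.two (nat_lit 440) (nat_lit 8) (nat_lit 5295) (nat_lit 1) (.two (nat_lit 341) (nat_lit 1) (nat_lit 3423) (nat_lit 4) (.two (nat_lit 3) (nat_lit 4) (nat_lit 5296) (nat_lit 1) (.two (nat_lit 0) (nat_lit 1) (nat_lit 2574) (nat_lit 4) (.one (nat_lit 3481) (nat_lit 8) .nil))))),
   .der (nat_lit 13345) (nat_lit 192),
   .der (nat_lit 801) (nat_lit 939),
   .der (nat_lit 339) (nat_lit 2203),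
   .prs (.two (nat_lit 825) (nat_lit 4) (nat_lit 522) (nat_lit 1) (.two (nat_lit 427) (nat_lit 2) (nat_lit 2745) (nat_lit 4) (.two (nat_lit 214) (nat_lit 1) (nat_lit 5298) (nat_lit 4) (.two (nat_lit 16) (nat_lit 4) (nat_lit 5299) (nat_lit 2) (.two (nat_lit 0) (nat_lit 1) (nat_lit 5300) (nat_lit 4) .nil))))),
   .der (nat_lit 354) (nat_lit 73),
   .der (nat_lit 1299) (nat_lit 2203),
   .prs (.two (nat_lit 1113) (nat_lit 16) (nat_lit 449) (nat_lit 2) (.two (nat_lit 808) (nat_lit 2) (nat_lit 5302) (nat_lit 16) (.two (nat_lit 34) (nat_lit 2) (nat_lit 3238) (nat_lit 16) (.two (nat_lit 0) (nat_lit 2) (nat_lit 5303) (nat_lit 16) .nil)))),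
   .der (nat_lit 117) (nat_lit 131),
   .der (nat_lit 17185) (nat_lit 934),
   .der (nat_lit 1893) (nat_lit 1444),
   .der (nat_lit 19) (nat_lit 3267),
   .prs (.two (nat_lit 94) (nat_lit 2) (nat_lit 5305) (nat_lit 1) (.two (nat_lit 716) (nat_lit 1) (nat_lit 5306) (nat_lit 8) (.two (nat_lit 0) (nat_lit 2) (nat_lit 5307) (nat_lit 8) (.one (nat_lit 5308) (nat_lit 2) .nil)))),
   .der (nat_lit 9572) (nat_lit 29),
   .der (nat_lit 1554) (nat_lit 848),
   .prs (.two (nat_lit 21) (nat_lit 16) (nat_lit 5310) (nat_lit 4) (.two (nat_lit 42) (nat_lit 16) (nat_lit 4138) (nat_lit 4) (.two (nat_lit 214) (nat_lit 4) (nat_lit 5311) (nat_lit 16) (.two (nat_lit 0) (nat_lit 4) (nat_lit 3292) (nat_lit 16) (.one (nat_lit 4459) (nat_lit 16) .nil))))),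
   .der (nat_lit 38163) (nat_lit 104),
   .der (nat_lit 2433) (nat_lit 371),
   .der (nat_lit 86) (nat_lit 897),
   .prs (.two (nat_lit 71) (nat_lit 1) (nat_lit 5313) (nat_lit 4) (.two (nat_lit 173) (nat_lit 1) (nat_lit 5314) (nat_lit 4) (.two (nat_lit 3) (nat_lit 1) (nat_lit 5315) (nat_lit 4) (.two (nat_lit 0) (nat_lit 1) (nat_lit 2585) (nat_lit 4) (.one (nat_lit 4493) (nat_lit 4) .nil))))),
   .der (nat_lit 659) (nat_lit 1508),
   .der (nat_lit 1620) (nat_lit 1421),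
   .prs (.two (nat_lit 794) (nat_lit 16) (nat_lit 550) (nat_lit 1) (.two (nat_lit 12) (nat_lit 1) (nat_lit 5047) (nat_lit 16) (.two (nat_lit 1) (nat_lit 2) (nat_lit 5317) (nat_lit 1) (.two (nat_lit 0) (nat_lit 2) (nat_lit 5318) (nat_lit 1) (.one (nat_lit 4497) (nat_lit 16) .nil))))),
   .der (nat_lit 35) (nat_lit 2203),
   .prs (.two (nat_lit 1113) (nat_lit 16) (nat_lit 449) (nat_lit 2) (.two (nat_lit 808) (nat_lit 2) (nat_lit 1555) (nat_lit 16) (.two (nat_lit 34) (nat_lit 2) (nat_lit 1556) (nat_lit 16) (.two (nat_lit 0) (nat_lit 2) (nat_lit 5320) (nat_lit 16) .nil)))),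
   .der (nat_lit 49) (nat_lit 24),
   .der (nat_lit 1) (nat_lit 3147),
   .prs (.two (nat_lit 676) (nat_lit 4) (nat_lit 5322) (nat_lit 8) (.two (nat_lit 956) (nat_lit 4) (nat_lit 33) (nat_lit 8) (.two (nat_lit 2) (nat_lit 8) (nat_lit 424) (nat_lit 4) (.two (nat_lit 1) (nat_lit 8) (nat_lit 1169) (nat_lit 4) (.two (nat_lit 0) (nat_lit 16) (nat_lit 5323) (nat_lit 8) .nil))))),
   .der (nat_lit 135) (nat_lit 41),
   .der (nat_lit 34068) (nat_lit 62),
   .der (nat_lit 1556) (nat_lit 837),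
   .der (nat_lit 882) (nat_lit 2477),
   .der (nat_lit 882) (nat_lit 3338),
   .prs (.two (nat_lit 462) (nat_lit 8) (nat_lit 5325) (nat_lit 1) (.two (nat_lit 1387) (nat_lit 1) (nat_lit 5326) (nat_lit 8) (.two (nat_lit 7) (nat_lit 1) (nat_lit 5327) (nat_lit 8) (.two (nat_lit 0) (nat_lit 1) (nat_lit 5328) (nat_lit 8) (.one (nat_lit 5329) (nat_lit 1) .nil))))),
   .der (nat_lit 115) (nat_lit 39),
   .der (nat_lit 852) (nat_lit 169),
   .der (nat_lit 5) (nat_lit 3431),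
   .prs (.two (nat_lit 502) (nat_lit 8) (nat_lit 5331) (nat_lit 2) (.two (nat_lit 99) (nat_lit 2) (nat_lit 5332) (nat_lit 8) (.two (nat_lit 11) (nat_lit 2) (nat_lit 1173) (nat_lit 8) (.two (nat_lit 0) (nat_lit 1) (nat_lit 5333) (nat_lit 2) .nil)))),
   .der (nat_lit 100) (nat_lit 74),
   .prs (.two (nat_lit 71) (nat_lit 16) (nat_lit 5335) (nat_lit 1) (.two (nat_lit 338) (nat_lit 1) (nat_lit 4124) (nat_lit 16) (.two (nat_lit 0) (nat_lit 1) (nat_lit 5278) (nat_lit 16) (.one (nat_lit 3495) (nat_lit 16) .nil)))),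
   .der (nat_lit 17185) (nat_lit 1613),
   .der (nat_lit 2193) (nat_lit 1546),
   .prs (.two (nat_lit 676) (nat_lit 8) (nat_lit 2465) (nat_lit 4) (.two (nat_lit 2) (nat_lit 8) (nat_lit 3420) (nat_lit 1) (.two (nat_lit 1) (nat_lit 8) (nat_lit 5337) (nat_lit 1) (.two (nat_lit 0) (nat_lit 8) (nat_lit 5338) (nat_lit 4) (.one (nat_lit 4504) (nat_lit 8) .nil))))),
   .der (nat_lit 26386) (nat_lit 1058),
   .der (nat_lit 26386) (nat_lit 2414),
   .prs (.two (nat_lit 13) (nat_lit 16) (nat_lit 4340) (nat_lit 2) (.two (nat_lit 1) (nat_lit 16) (nat_lit 5340) (nat_lit 2) (.two (nat_lit 0) (nat_lit 16) (nat_lit 5341) (nat_lit 2) (.one (nat_lit 4505) (nat_lit 1) .nil)))),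
   .der (nat_lit 22803) (nat_lit 39),
   .der (nat_lit 1810) (nat_lit 524),
   .der (nat_lit 1811) (nat_lit 1484),
   .der (nat_lit 6) (nat_lit 2562),
   .der (nat_lit 6) (nat_lit 3188),
   .prs (.two (nat_lit 390) (nat_lit 2) (nat_lit 5343) (nat_lit 4) (.two (nat_lit 34) (nat_lit 2) (nat_lit 5344) (nat_lit 4) (.two (nat_lit 1) (nat_lit 2) (nat_lit 5345) (nat_lit 4) (.two (nat_lit 0) (nat_lit 2) (nat_lit 5346) (nat_lit 4) (.one (nat_lit 5347) (nat_lit 4) .nil))))),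
   .der (nat_lit 20) (nat_lit 399),
   .prs (.two (nat_lit 509) (nat_lit 4) (nat_lit 459) (nat_lit 2) (.two (nat_lit 456) (nat_lit 4) (nat_lit 4446) (nat_lit 2) (.two (nat_lit 75) (nat_lit 4) (nat_lit 5349) (nat_lit 2) (.two (nat_lit 1) (nat_lit 4) (nat_lit 4447) (nat_lit 2) (.two (nat_lit 0) (nat_lit 4) (nat_lit 3499) (nat_lit 2) (.one (nat_lit 4508) (nat_lit 2) .nil)))))),
   .der (nat_lit 1) (nat_lit 521),
   .der (nat_lit 30226) (nat_lit 2247),
   .prs (.two (nat_lit 127) (nat_lit 2) (nat_lit 582) (nat_lit 4) (.two (nat_lit 791) (nat_lit 2) (nat_lit 1164) (nat_lit 4) (.two (nat_lit 17) (nat_lit 2) (nat_lit 5351) (nat_lit 4) (.two (nat_lit 1) (nat_lit 2) (nat_lit 2562) (nat_lit 4) (.one (nat_lit 5352) (nat_lit 4) .nil))))),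
   .der (nat_lit 5218) (nat_lit 98),
   .der (nat_lit 356) (nat_lit 481),
   .der (nat_lit 10545) (nat_lit 923),
   .prs (.two (nat_lit 65) (nat_lit 2) (nat_lit 2029) (nat_lit 4) (.two (nat_lit 1203) (nat_lit 4) (nat_lit 5354) (nat_lit 2) (.two (nat_lit 3) (nat_lit 1) (nat_lit 5355) (nat_lit 4) (.two (nat_lit 0) (nat_lit 1) (nat_lit 5356) (nat_lit 4) (.one (nat_lit 3533) (nat_lit 4) .nil))))),
   .der (nat_lit 35) (nat_lit 1004),
   .der (nat_lit 577) (nat_lit 1088),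
   .prs (.two (nat_lit 129) (nat_lit 4) (nat_lit 1254) (nat_lit 1) (.two (nat_lit 34) (nat_lit 2) (nat_lit 1224) (nat_lit 4) (.two (nat_lit 1) (nat_lit 2) (nat_lit 5358) (nat_lit 1) (.two (nat_lit 0) (nat_lit 2) (nat_lit 5359) (nat_lit 4) (.one (nat_lit 4512) (nat_lit 1) .nil))))),
   .der (nat_lit 161) (nat_lit 21),
   .prs (.two (nat_lit 6) (nat_lit 8) (nat_lit 5361) (nat_lit 4) (.two (nat_lit 2) (nat_lit 8) (nat_lit 1725) (nat_lit 4) (.two (nat_lit 1) (nat_lit 8) (nat_lit 1731) (nat_lit 4) (.two (nat_lit 0) (nat_lit 8) (nat_lit 2643) (nat_lit 4) (.one (nat_lit 2647) (nat_lit 8) .nil))))),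
   .der (nat_lit 370) (nat_lit 19),
   .der (nat_lit 101) (nat_lit 425),
   .prs (.two (nat_lit 12) (nat_lit 16) (nat_lit 5363) (nat_lit 1) (.two (nat_lit 7) (nat_lit 16) (nat_lit 4628) (nat_lit 1) (.two (nat_lit 11) (nat_lit 8) (nat_lit 5364) (nat_lit 1) (.one (nat_lit 4516) (nat_lit 1) .nil)))),
   .der (nat_lit 86) (nat_lit 50),
   .der (nat_lit 24916) (nat_lit 686),
   .der (nat_lit 98) (nat_lit 4511),
   .prs (.two (nat_lit 65) (nat_lit 8) (nat_lit 5366) (nat_lit 2) (.two (nat_lit 4) (nat_lit 2) (nat_lit 2281) (nat_lit 8) (.two (nat_lit 1) (nat_lit 2) (nat_lit 5367) (nat_lit 1) (.two (nat_lit 0) (nat_lit 2) (nat_lit 1738) (nat_lit 8) (.one (nat_lit 5368) (nat_lit 8) .nil))))),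
   .prs (.two (nat_lit 6) (nat_lit 16) (nat_lit 2636) (nat_lit 2) (.one (nat_lit 3541) (nat_lit 2) .nil)),
   .der (nat_lit 132) (nat_lit 472),
   .prs (.two (nat_lit 427) (nat_lit 2) (nat_lit 5160) (nat_lit 8) (.two (nat_lit 1) (nat_lit 2) (nat_lit 5371) (nat_lit 8) (.two (nat_lit 0) (nat_lit 1) (nat_lit 3444) (nat_lit 8) (.one (nat_lit 4517) (nat_lit 8) .nil)))),
   .der (nat_lit 2068) (nat_lit 77),
   .der (nat_lit 86) (nat_lit 1656),
   .prs (.two (nat_lit 456) (nat_lit 4) (nat_lit 459) (nat_lit 2) (.two (nat_lit 75) (nat_lit 4) (nat_lit 5373) (nat_lit 2) (.two (nat_lit 1) (nat_lit 4) (nat_lit 5374) (nat_lit 2) (.one (nat_lit 4519) (nat_lit 2) .nil)))),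
   .der (nat_lit 30226) (nat_lit 87),
   .der (nat_lit 1430) (nat_lit 1058),
   .prs (.two (nat_lit 1459) (nat_lit 2) (nat_lit 965) (nat_lit 4) (.two (nat_lit 34) (nat_lit 2) (nat_lit 5376) (nat_lit 4) (.two (nat_lit 1) (nat_lit 2) (nat_lit 1417) (nat_lit 4) (.two (nat_lit 0) (nat_lit 2) (nat_lit 5377) (nat_lit 4) (.one (nat_lit 4522) (nat_lit 4) .nil))))),
   .der (nat_lit 2135) (nat_lit 580),
   .prs (.two (nat_lit 427) (nat_lit 2) (nat_lit 449) (nat_lit 8) (.two (nat_lit 75) (nat_lit 2) (nat_lit 5354) (nat_lit 8) (.two (nat_lit 1) (nat_lit 2) (nat_lit 5379) (nat_lit 8) (.two (nat_lit 0) (nat_lit 1) (nat_lit 2681) (nat_lit 8) (.one (nat_lit 4524) (nat_lit 1) .nil))))),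
   .der (nat_lit 371) (nat_lit 72),
   .der (nat_lit 340) (nat_lit 981),
   .prs (.two (nat_lit 397) (nat_lit 4) (nat_lit 5381) (nat_lit 1) (.two (nat_lit 3) (nat_lit 4) (nat_lit 5382) (nat_lit 1) (.one (nat_lit 4526) (nat_lit 4) .nil))),
   .der (nat_lit 6) (nat_lit 106),
   .prs (.two (nat_lit 65) (nat_lit 2) (nat_lit 145) (nat_lit 16) (.two (nat_lit 1) (nat_lit 2) (nat_lit 5384) (nat_lit 1) (.two (nat_lit 0) (nat_lit 16) (nat_lit 1206) (nat_lit 2) (.one (nat_lit 3547) (nat_lit 2) .nil)))),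
   .der (nat_lit 8) (nat_lit 39),
   .der (nat_lit 129) (nat_lit 172),
   .prs (.two (nat_lit 794) (nat_lit 16) (nat_lit 582) (nat_lit 4) (.two (nat_lit 49) (nat_lit 4) (nat_lit 5386) (nat_lit 16) (.two (nat_lit 248) (nat_lit 4) (nat_lit 5387) (nat_lit 16) (.two (nat_lit 3) (nat_lit 4) (nat_lit 5225) (nat_lit 16) (.two (nat_lit 0) (nat_lit 4) (nat_lit 3565) (nat_lit 16) .nil))))),
   .der (nat_lit 6) (nat_lit 39),
   .der (nat_lit 19) (nat_lit 172),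
   .der (nat_lit 1653) (nat_lit 1478),
   .prs (.two (nat_lit 390) (nat_lit 16) (nat_lit 444) (nat_lit 2) (.two (nat_lit 2852) (nat_lit 2) (nat_lit 5389) (nat_lit 16) (.two (nat_lit 1203) (nat_lit 2) (nat_lit 5390) (nat_lit 16) (.two (nat_lit 16) (nat_lit 2) (nat_lit 5391) (nat_lit 16) (.one (nat_lit 3590) (nat_lit 16) .nil))))),
   .der (nat_lit 2193) (nat_lit 87),
   .der (nat_lit 35) (nat_lit 1078),
   .der (nat_lit 2433) (nat_lit 2385),
   .prs (.two (nat_lit 1480) (nat_lit 8) (nat_lit 117) (nat_lit 1) (.two (nat_lit 918) (nat_lit 1) (nat_lit 5393) (nat_lit 8) (.two (nat_lit 78) (nat_lit 1) (nat_lit 5394) (nat_lit 16) (.two (nat_lit 0) (nat_lit 1) (nat_lit 5395) (nat_lit 16) (.one (nat_lit 4612) (nat_lit 8) .nil))))),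
   .der (nat_lit 1) (nat_lit 465),
   .der (nat_lit 65) (nat_lit 1613),
   .der (nat_lit 2433) (nat_lit 1546),
   .der (nat_lit 65) (nat_lit 4184),
   .prs (.two (nat_lit 145) (nat_lit 16) (nat_lit 2705) (nat_lit 4) (.two (nat_lit 34) (nat_lit 16) (nat_lit 5397) (nat_lit 1) (.two (nat_lit 1) (nat_lit 4) (nat_lit 5398) (nat_lit 1) (.two (nat_lit 0) (nat_lit 4) (nat_lit 5399) (nat_lit 16) (.one (nat_lit 5400) (nat_lit 4) .nil))))),
   .der (nat_lit 21107) (nat_lit 151),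
   .der (nat_lit 1073) (nat_lit 74),
   .der (nat_lit 49) (nat_lit 182),
   .der (nat_lit 20) (nat_lit 2375),
   .prs (.two (nat_lit 32) (nat_lit 8) (nat_lit 5402) (nat_lit 1) (.two (nat_lit 30) (nat_lit 8) (nat_lit 5403) (nat_lit 1) (.two (nat_lit 436) (nat_lit 1) (nat_lit 5404) (nat_lit 8) (.two (nat_lit 11) (nat_lit 1) (nat_lit 5405) (nat_lit 2) (.one (nat_lit 4671) (nat_lit 2) .nil))))),
   .der (nat_lit 2135) (nat_lit 572),
   .prs (.two (nat_lit 80) (nat_lit 16) (nat_lit 122) (nat_lit 8) (.two (nat_lit 543) (nat_lit 8) (nat_lit 5407) (nat_lit 16) (.two (nat_lit 1) (nat_lit 8) (nat_lit 4565) (nat_lit 16) (.two (nat_lit 0) (nat_lit 1) (nat_lit 3600) (nat_lit 8) (.one (nat_lit 3604) (nat_lit 1) .nil))))),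
   .der (nat_lit 117) (nat_lit 432),
   .der (nat_lit 834) (nat_lit 1041),
   .der (nat_lit 2084) (nat_lit 2749),
   .der (nat_lit 2084) (nat_lit 3598),
   .prs (.two (nat_lit 13) (nat_lit 4) (nat_lit 520) (nat_lit 8) (.two (nat_lit 129) (nat_lit 8) (nat_lit 2827) (nat_lit 1) (.two (nat_lit 1068) (nat_lit 1) (nat_lit 5409) (nat_lit 4) (.two (nat_lit 1) (nat_lit 8) (nat_lit 5410) (nat_lit 1) (.two (nat_lit 0) (nat_lit 8) (nat_lit 5411) (nat_lit 4) (.one (nat_lit 5412) (nat_lit 4) .nil)))))),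
   .der (nat_lit 13345) (nat_lit 608),
   .der (nat_lit 1122) (nat_lit 1662),
   .der (nat_lit 33345) (nat_lit 1406),
   .prs (.two (nat_lit 390) (nat_lit 16) (nat_lit 509) (nat_lit 4) (.two (nat_lit 129) (nat_lit 4) (nat_lit 5414) (nat_lit 16) (.two (nat_lit 3) (nat_lit 4) (nat_lit 5415) (nat_lit 1) (.two (nat_lit 0) (nat_lit 2) (nat_lit 5416) (nat_lit 1) (.one (nat_lit 4672) (nat_lit 16) .nil))))),
   .der (nat_lit 2390) (nat_lit 139),
   .der (nat_lit 117) (nat_lit 182),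
   .der (nat_lit 1893) (nat_lit 1493),
   .prs (.two (nat_lit 13) (nat_lit 16) (nat_lit 5418) (nat_lit 1) (.two (nat_lit 882) (nat_lit 16) (nat_lit 932) (nat_lit 4) (.two (nat_lit 2) (nat_lit 16) (nat_lit 5419) (nat_lit 4) (.two (nat_lit 1) (nat_lit 2) (nat_lit 5420) (nat_lit 4) (.two (nat_lit 0) (nat_lit 1) (nat_lit 3612) (nat_lit 4) (.one (nat_lit 4674) (nat_lit 4) .nil)))))),
   .prs (.two (nat_lit 80) (nat_lit 16) (nat_lit 2789) (nat_lit 8) (.two (nat_lit 53) (nat_lit 8) (nat_lit 2831) (nat_lit 16) (.two (nat_lit 202) (nat_lit 8) (nat_lit 2174) (nat_lit 16) (.two (nat_lit 0) (nat_lit 1) (nat_lit 4662) (nat_lit 16) (.one (nat_lit 4566) (nat_lit 1) .nil))))),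
   .der (nat_lit 1620) (nat_lit 536),
   .der (nat_lit 34068) (nat_lit 1693),
   .prs (.two (nat_lit 80) (nat_lit 8) (nat_lit 858) (nat_lit 16) (.two (nat_lit 36) (nat_lit 8) (nat_lit 3574) (nat_lit 16) (.two (nat_lit 1068) (nat_lit 16) (nat_lit 5423) (nat_lit 8) (.two (nat_lit 3) (nat_lit 16) (nat_lit 5424) (nat_lit 8) (.one (nat_lit 4683) (nat_lit 8) .nil))))),
   .der (nat_lit 101) (nat_lit 2363),
   .der (nat_lit 101) (nat_lit 3279),
   .prs (.two (nat_lit 440) (nat_lit 2) (nat_lit 520) (nat_lit 16) (.two (nat_lit 129) (nat_lit 16) (nat_lit 4460) (nat_lit 1) (.two (nat_lit 2) (nat_lit 16) (nat_lit 5193) (nat_lit 2) (.two (nat_lit 1) (nat_lit 2) (nat_lit 5426) (nat_lit 1) (.one (nat_lit 5427) (nat_lit 1) .nil))))),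
   .prs (.two (nat_lit 94) (nat_lit 16) (nat_lit 3974) (nat_lit 2) (.two (nat_lit 325) (nat_lit 2) (nat_lit 3136) (nat_lit 16) (.one (nat_lit 4684) (nat_lit 16) .nil))),
   .der (nat_lit 9) (nat_lit 472),
   .der (nat_lit 561) (nat_lit 850),
   .prs (.two (nat_lit 520) (nat_lit 16) (nat_lit 502) (nat_lit 8) (.two (nat_lit 998) (nat_lit 8) (nat_lit 4801) (nat_lit 16) (.two (nat_lit 308) (nat_lit 8) (nat_lit 5430) (nat_lit 16) (.two (nat_lit 11) (nat_lit 8) (nat_lit 5431) (nat_lit 16) (.two (nat_lit 0) (nat_lit 1) (nat_lit 3586) (nat_lit 16) (.one (nat_lit 3617) (nat_lit 16) .nil)))))),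
   .der (nat_lit 2135) (nat_lit 84),
   .der (nat_lit 161) (nat_lit 169),
   .der (nat_lit 2084) (nat_lit 967),
   .der (nat_lit 9) (nat_lit 2614),
   .der (nat_lit 84) (nat_lit 4679),
   .prs (.two (nat_lit 13) (nat_lit 8) (nat_lit 5433) (nat_lit 4) (.two (nat_lit 2) (nat_lit 4) (nat_lit 5434) (nat_lit 8) (.two (nat_lit 1) (nat_lit 4) (nat_lit 5435) (nat_lit 8) (.two (nat_lit 0) (nat_lit 4) (nat_lit 5436) (nat_lit 8) (.one (nat_lit 5437) (nat_lit 4) .nil))))),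
   .der (nat_lit 52) (nat_lit 98),
   .der (nat_lit 8) (nat_lit 432),
   .der (nat_lit 22803) (nat_lit 2464),
   .der (nat_lit 22803) (nat_lit 4257),
   .prs (.two (nat_lit 522) (nat_lit 8) (nat_lit 1480) (nat_lit 2) (.two (nat_lit 2073) (nat_lit 8) (nat_lit 5439) (nat_lit 2) (.two (nat_lit 716) (nat_lit 8) (nat_lit 5440) (nat_lit 2) (.two (nat_lit 46) (nat_lit 8) (nat_lit 5441) (nat_lit 2) (.one (nat_lit 5442) (nat_lit 8) .nil))))),
   .der (nat_lit 117) (nat_lit 1412),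
   .prs (.two (nat_lit 105) (nat_lit 4) (nat_lit 2730) (nat_lit 8) (.two (nat_lit 439) (nat_lit 8) (nat_lit 3374) (nat_lit 2) (.two (nat_lit 0) (nat_lit 4) (nat_lit 5444) (nat_lit 2) (.one (nat_lit 3626) (nat_lit 2) .nil)))),
   .der (nat_lit 801) (nat_lit 401),
   .der (nat_lit 801) (nat_lit 845),
   .prs (.two (nat_lit 418) (nat_lit 16) (nat_lit 2720) (nat_lit 1) (.two (nat_lit 758) (nat_lit 1) (nat_lit 5003) (nat_lit 16) (.two (nat_lit 214) (nat_lit 1) (nat_lit 5446) (nat_lit 16) (.two (nat_lit 3) (nat_lit 1) (nat_lit 5447) (nat_lit 16) (.two (nat_lit 0) (nat_lit 8) (nat_lit 2760) (nat_lit 1) (.one (nat_lit 4690) (nat_lit 1) .nil)))))),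
   .der (nat_lit 16738) (nat_lit 113),
   .der (nat_lit 103) (nat_lit 392),
   .der (nat_lit 103) (nat_lit 837),
   .der (nat_lit 36) (nat_lit 3413),
   .prs (.two (nat_lit 1413) (nat_lit 8) (nat_lit 5449) (nat_lit 4) (.two (nat_lit 75) (nat_lit 4) (nat_lit 5450) (nat_lit 8) (.two (nat_lit 1) (nat_lit 4) (nat_lit 5451) (nat_lit 8) (.two (nat_lit 0) (nat_lit 4) (nat_lit 2764) (nat_lit 8) (.one (nat_lit 5452) (nat_lit 4) .nil))))),
   .der (nat_lit 1) (nat_lit 90),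
   .der (nat_lit 356) (nat_lit 644),
   .der (nat_lit 801) (nat_lit 1065),
   .prs (.two (nat_lit 440) (nat_lit 2) (nat_lit 80) (nat_lit 8) (.two (nat_lit 124) (nat_lit 1) (nat_lit 5454) (nat_lit 2) (.two (nat_lit 96) (nat_lit 8) (nat_lit 5455) (nat_lit 2) (.two (nat_lit 1) (nat_lit 8) (nat_lit 5456) (nat_lit 2) (.two (nat_lit 0) (nat_lit 8) (nat_lit 2767) (nat_lit 2) (.one (nat_lit 3628) (nat_lit 2) .nil)))))),
   .der (nat_lit 833) (nat_lit 37),
   .der (nat_lit 370) (nat_lit 172),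
   .prs (.two (nat_lit 1322) (nat_lit 8) (nat_lit 5458) (nat_lit 1) (.two (nat_lit 34) (nat_lit 8) (nat_lit 5459) (nat_lit 1) (.two (nat_lit 1) (nat_lit 8) (nat_lit 1861) (nat_lit 1) (.two (nat_lit 0) (nat_lit 8) (nat_lit 2772) (nat_lit 1) (.one (nat_lit 4693) (nat_lit 8) .nil))))),
   .der (nat_lit 162) (nat_lit 2551),
   .der (nat_lit 1875) (nat_lit 2353),
   .prs (.two (nat_lit 1413) (nat_lit 8) (nat_lit 1671) (nat_lit 4) (.two (nat_lit 514) (nat_lit 4) (nat_lit 5450) (nat_lit 8) (.two (nat_lit 1) (nat_lit 4) (nat_lit 5451) (nat_lit 8) (.two (nat_lit 0) (nat_lit 4) (nat_lit 5461) (nat_lit 8) (.one (nat_lit 5462) (nat_lit 4) .nil))))),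
   .der (nat_lit 370) (nat_lit 45),
   .der (nat_lit 150) (nat_lit 177),
   .der (nat_lit 33345) (nat_lit 2562),
   .prs (.two (nat_lit 440) (nat_lit 16) (nat_lit 5464) (nat_lit 1) (.two (nat_lit 427) (nat_lit 16) (nat_lit 4673) (nat_lit 1) (.two (nat_lit 68) (nat_lit 1) (nat_lit 5465) (nat_lit 16) (.two (nat_lit 16) (nat_lit 16) (nat_lit 5466) (nat_lit 1) (.one (nat_lit 4696) (nat_lit 16) .nil))))),
   .der (nat_lit 2) (nat_lit 627),
   .der (nat_lit 1074) (nat_lit 923),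
   .prs (.two (nat_lit 794) (nat_lit 2) (nat_lit 145) (nat_lit 4) (.two (nat_lit 147) (nat_lit 2) (nat_lit 3684) (nat_lit 1) (.two (nat_lit 341) (nat_lit 4) (nat_lit 5468) (nat_lit 1) (.two (nat_lit 1) (nat_lit 2) (nat_lit 5469) (nat_lit 1) (.two (nat_lit 0) (nat_lit 2) (nat_lit 2775) (nat_lit 4) (.one (nat_lit 4700) (nat_lit 2) .nil)))))),
   .der (nat_lit 9) (nat_lit 62),
   .der (nat_lit 33) (nat_lit 187),
   .der (nat_lit 2193) (nat_lit 2548),
   .prs (.two (nat_lit 440) (nat_lit 16) (nat_lit 1413) (nat_lit 8) (.two (nat_lit 227) (nat_lit 16) (nat_lit 5471) (nat_lit 8) (.two (nat_lit 2) (nat_lit 8) (nat_lit 5472) (nat_lit 16) (.two (nat_lit 11) (nat_lit 1) (nat_lit 5473) (nat_lit 16) (.one (nat_lit 4706) (nat_lit 8) .nil))))),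
   .der (nat_lit 2068) (nat_lit 62),
   .der (nat_lit 83) (nat_lit 848),
   .der (nat_lit 86) (nat_lit 2216),
   .prs (.two (nat_lit 717) (nat_lit 16) (nat_lit 5475) (nat_lit 2) (.two (nat_lit 514) (nat_lit 2) (nat_lit 5476) (nat_lit 16) (.two (nat_lit 0) (nat_lit 2) (nat_lit 5477) (nat_lit 16) (.one (nat_lit 3635) (nat_lit 16) .nil)))),
   .der (nat_lit 370) (nat_lit 960),
   .prs (.two (nat_lit 1582) (nat_lit 1) (nat_lit 742) (nat_lit 2) (.two (nat_lit 134) (nat_lit 1) (nat_lit 4498) (nat_lit 2) (.two (nat_lit 1984) (nat_lit 1) (nat_lit 5479) (nat_lit 2) (.two (nat_lit 0) (nat_lit 1) (nat_lit 2779) (nat_lit 2) (.one (nat_lit 4710) (nat_lit 1) .nil))))),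
   .der (nat_lit 36) (nat_lit 950),
   .der (nat_lit 36) (nat_lit 1415),
   .prs (.two (nat_lit 440) (nat_lit 2) (nat_lit 4814) (nat_lit 8) (.two (nat_lit 1) (nat_lit 2) (nat_lit 5481) (nat_lit 8) (.two (nat_lit 0) (nat_lit 1) (nat_lit 5482) (nat_lit 2) (.one (nat_lit 4712) (nat_lit 1) .nil)))),
   .der (nat_lit 135) (nat_lit 146),
   .der (nat_lit 1893) (nat_lit 897),
   .prs (.two (nat_lit 389) (nat_lit 1) (nat_lit 262) (nat_lit 2) (.two (nat_lit 68) (nat_lit 1) (nat_lit 5484) (nat_lit 2) (.two (nat_lit 11) (nat_lit 1) (nat_lit 5485) (nat_lit 2) (.one (nat_lit 3686) (nat_lit 8) .nil)))),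
   .der (nat_lit 152) (nat_lit 48),
   .der (nat_lit 17185) (nat_lit 131),
   .der (nat_lit 101) (nat_lit 898),
   .der (nat_lit 8) (nat_lit 3424),
   .prs (.two (nat_lit 12) (nat_lit 16) (nat_lit 5487) (nat_lit 1) (.two (nat_lit 7) (nat_lit 16) (nat_lit 5488) (nat_lit 1) (.two (nat_lit 16) (nat_lit 1) (nat_lit 5489) (nat_lit 16) (.one (nat_lit 5490) (nat_lit 1) .nil)))),
   .der (nat_lit 1556) (nat_lit 8),
   .der (nat_lit 9) (nat_lit 1478),
   .prs (.two (nat_lit 5492) (nat_lit 8) (nat_lit 2959) (nat_lit 16) (.two (nat_lit 3) (nat_lit 8) (nat_lit 5493) (nat_lit 16) .nil)),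
   .der (nat_lit 10305) (nat_lit 239),
   .der (nat_lit 37425) (nat_lit 508),
   .prs (.two (nat_lit 370) (nat_lit 16) (nat_lit 5495) (nat_lit 4) (.two (nat_lit 1) (nat_lit 8) (nat_lit 5496) (nat_lit 4) (.two (nat_lit 0) (nat_lit 4) (nat_lit 1883) (nat_lit 8) (.one (nat_lit 4723) (nat_lit 8) .nil)))),
   .der (nat_lit 5218) (nat_lit 74),
   .prs (.two (nat_lit 456) (nat_lit 16) (nat_lit 717) (nat_lit 2) (.two (nat_lit 75) (nat_lit 16) (nat_lit 5498) (nat_lit 2) (.two (nat_lit 1) (nat_lit 16) (nat_lit 3630) (nat_lit 2) (.two (nat_lit 0) (nat_lit 16) (nat_lit 2843) (nat_lit 2) (.one (nat_lit 4725) (nat_lit 2) .nil)))))]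

theorem b5_step10 (h : ∀ j < 5000, Good b5T j) : ∀ j < 5500, Good b5T j := by
  intro j hj
  refine chkL_ok b5C10 5000 h (by decide +kernel) j ?_
  have h : b5C10.length = 500 := by decide +kernel
  omega

/-- certificates 5500..6000 -/
def b5C11 : List Cf :=
  [.der (nat_lit 1395) (nat_lit 72),
   .der (nat_lit 5) (nat_lit 432),
   .prs (.two (nat_lit 227) (nat_lit 16) (nat_lit 5500) (nat_lit 1) (.two (nat_lit 3) (nat_lit 1) (nat_lit 5501) (nat_lit 8) (.two (nat_lit 0) (nat_lit 8) (nat_lit 1885) (nat_lit 1) (.one (nat_lit 4727) (nat_lit 1) .nil)))),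
   .der (nat_lit 2084) (nat_lit 126),
   .der (nat_lit 1057) (nat_lit 1058),
   .prs (.two (nat_lit 227) (nat_lit 8) (nat_lit 1042) (nat_lit 1) (.two (nat_lit 190) (nat_lit 1) (nat_lit 5503) (nat_lit 8) (.two (nat_lit 3) (nat_lit 1) (nat_lit 1397) (nat_lit 8) (.two (nat_lit 0) (nat_lit 1) (nat_lit 5504) (nat_lit 8) (.one (nat_lit 4728) (nat_lit 1) .nil))))),
   .prs (.two (nat_lit 543) (nat_lit 2) (nat_lit 4074) (nat_lit 4) (.two (nat_lit 1) (nat_lit 2) (nat_lit 4685) (nat_lit 4) (.two (nat_lit 0) (nat_lit 2) (nat_lit 4076) (nat_lit 4) (.one (nat_lit 4730) (nat_lit 1) .nil)))),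
   .der (nat_lit 577) (nat_lit 10),
   .der (nat_lit 2433) (nat_lit 70),
   .der (nat_lit 2353) (nat_lit 1438),
   .prs (.two (nat_lit 5507) (nat_lit 4) (nat_lit 71) (nat_lit 1) (.two (nat_lit 173) (nat_lit 1) (nat_lit 5508) (nat_lit 4) (.two (nat_lit 16) (nat_lit 16) (nat_lit 5509) (nat_lit 4) .nil))),
   .der (nat_lit 4978) (nat_lit 453),
   .prs (.two (nat_lit 1459) (nat_lit 8) (nat_lit 3440) (nat_lit 16) (.two (nat_lit 1) (nat_lit 2) (nat_lit 5511) (nat_lit 8) (.two (nat_lit 0) (nat_lit 2) (nat_lit 1889) (nat_lit 8) (.one (nat_lit 4732) (nat_lit 8) .nil)))),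
   .prs (.two (nat_lit 65) (nat_lit 2) (nat_lit 91) (nat_lit 16) (.two (nat_lit 34) (nat_lit 2) (nat_lit 444) (nat_lit 1) (.two (nat_lit 1) (nat_lit 2) (nat_lit 1991) (nat_lit 1) (.two (nat_lit 0) (nat_lit 16) (nat_lit 1219) (nat_lit 2) (.one (nat_lit 3705) (nat_lit 2) .nil))))),
   .der (nat_lit 10545) (nat_lit 425),
   .der (nat_lit 5) (nat_lit 3158),
   .prs (.two (nat_lit 127) (nat_lit 16) (nat_lit 1480) (nat_lit 2) (.two (nat_lit 1259) (nat_lit 2) (nat_lit 98) (nat_lit 16) (.two (nat_lit 1528) (nat_lit 2) (nat_lit 5514) (nat_lit 16) (.two (nat_lit 0) (nat_lit 8) (nat_lit 5515) (nat_lit 16) .nil)))),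
   .der (nat_lit 114) (nat_lit 110),
   .der (nat_lit 50) (nat_lit 1381),
   .der (nat_lit 833) (nat_lit 3273),
   .prs (.two (nat_lit 69) (nat_lit 16) (nat_lit 576) (nat_lit 1) (.two (nat_lit 723) (nat_lit 16) (nat_lit 5517) (nat_lit 1) (.two (nat_lit 224) (nat_lit 1) (nat_lit 859) (nat_lit 16) (.two (nat_lit 11) (nat_lit 1) (nat_lit 5518) (nat_lit 16) (.one (nat_lit 5519) (nat_lit 1) .nil))))),
   .der (nat_lit 84) (nat_lit 24),
   .der (nat_lit 339) (nat_lit 106),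
   .der (nat_lit 801) (nat_lit 824),
   .prs (.two (nat_lit 69) (nat_lit 16) (nat_lit 5521) (nat_lit 1) (.two (nat_lit 427) (nat_lit 16) (nat_lit 5522) (nat_lit 2) (.two (nat_lit 78) (nat_lit 1) (nat_lit 5523) (nat_lit 16) (.two (nat_lit 0) (nat_lit 16) (nat_lit 2900) (nat_lit 2) (.one (nat_lit 3725) (nat_lit 1) .nil))))),
   .der (nat_lit 10) (nat_lit 87),
   .der (nat_lit 2433) (nat_lit 432),
   .der (nat_lit 83) (nat_lit 1909),
   .der (nat_lit 834) (nat_lit 1444),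
   .prs (.two (nat_lit 13) (nat_lit 8) (nat_lit 550) (nat_lit 1) (.two (nat_lit 129) (nat_lit 8) (nat_lit 5525) (nat_lit 1) (.two (nat_lit 556) (nat_lit 8) (nat_lit 5526) (nat_lit 1) (.two (nat_lit 1) (nat_lit 8) (nat_lit 5527) (nat_lit 1) (.two (nat_lit 0) (nat_lit 8) (nat_lit 5528) (nat_lit 1) (.one (nat_lit 3727) (nat_lit 1) .nil)))))),
   .der (nat_lit 22548) (nat_lit 156),
   .der (nat_lit 561) (nat_lit 1693),
   .prs (.two (nat_lit 825) (nat_lit 16) (nat_lit 5530) (nat_lit 4) (.two (nat_lit 452) (nat_lit 4) (nat_lit 1474) (nat_lit 16) (.two (nat_lit 3) (nat_lit 4) (nat_lit 5531) (nat_lit 16) (.one (nat_lit 3731) (nat_lit 16) .nil)))),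
   .der (nat_lit 34068) (nat_lit 74),
   .der (nat_lit 1107) (nat_lit 417),
   .der (nat_lit 9587) (nat_lit 2353),
   .prs (.two (nat_lit 97) (nat_lit 1) (nat_lit 5533) (nat_lit 8) (.two (nat_lit 716) (nat_lit 8) (nat_lit 5534) (nat_lit 1) (.two (nat_lit 0) (nat_lit 8) (nat_lit 5535) (nat_lit 1) .nil))),
   .der (nat_lit 86) (nat_lit 1385),
   .prs (.two (nat_lit 390) (nat_lit 16) (nat_lit 459) (nat_lit 2) (.two (nat_lit 637) (nat_lit 2) (nat_lit 895) (nat_lit 16) (.two (nat_lit 679) (nat_lit 2) (nat_lit 1391) (nat_lit 16) (.two (nat_lit 0) (nat_lit 2) (nat_lit 5537) (nat_lit 16) (.one (nat_lit 4752) (nat_lit 16) .nil))))),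
   .der (nat_lit 627) (nat_lit 21),
   .der (nat_lit 8) (nat_lit 417),
   .der (nat_lit 98) (nat_lit 1419),
   .prs (.two (nat_lit 440) (nat_lit 16) (nat_lit 5539) (nat_lit 2) (.two (nat_lit 36) (nat_lit 16) (nat_lit 2008) (nat_lit 2) (.two (nat_lit 623) (nat_lit 2) (nat_lit 5540) (nat_lit 16) (.two (nat_lit 0) (nat_lit 2) (nat_lit 5541) (nat_lit 16) (.one (nat_lit 4755) (nat_lit 16) .nil))))),
   .der (nat_lit 340) (nat_lit 2560),
   .prs (.two (nat_lit 390) (nat_lit 16) (nat_lit 4335) (nat_lit 2) (.two (nat_lit 75) (nat_lit 2) (nat_lit 5540) (nat_lit 16) (.two (nat_lit 0) (nat_lit 2) (nat_lit 5543) (nat_lit 16) .nil))),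
   .der (nat_lit 38163) (nat_lit 745),
   .der (nat_lit 5) (nat_lit 3725),
   .prs (.two (nat_lit 69) (nat_lit 16) (nat_lit 3930) (nat_lit 1) (.two (nat_lit 489) (nat_lit 16) (nat_lit 4741) (nat_lit 4) (.two (nat_lit 170) (nat_lit 16) (nat_lit 5545) (nat_lit 4) (.two (nat_lit 1) (nat_lit 4) (nat_lit 5518) (nat_lit 16) (.one (nat_lit 5546) (nat_lit 1) .nil))))),
   .prs (.two (nat_lit 12) (nat_lit 16) (nat_lit 5539) (nat_lit 1) (.two (nat_lit 434) (nat_lit 1) (nat_lit 5523) (nat_lit 16) (.one (nat_lit 4761) (nat_lit 16) .nil))),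
   .der (nat_lit 2113) (nat_lit 177),
   .prs (.two (nat_lit 1480) (nat_lit 2) (nat_lit 573) (nat_lit 1) (.two (nat_lit 129) (nat_lit 16) (nat_lit 1246) (nat_lit 1) (.two (nat_lit 740) (nat_lit 1) (nat_lit 5549) (nat_lit 16) (.two (nat_lit 1) (nat_lit 2) (nat_lit 3754) (nat_lit 1) (.two (nat_lit 0) (nat_lit 2) (nat_lit 2938) (nat_lit 1) (.one (nat_lit 4811) (nat_lit 2) .nil)))))),
   .der (nat_lit 612) (nat_lit 2369),
   .prs (.two (nat_lit 122) (nat_lit 4) (nat_lit 1480) (nat_lit 8) (.two (nat_lit 1259) (nat_lit 8) (nat_lit 3277) (nat_lit 4) (.two (nat_lit 206) (nat_lit 8) (nat_lit 5023) (nat_lit 4) (.two (nat_lit 0) (nat_lit 8) (nat_lit 5551) (nat_lit 4) .nil)))),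
   .der (nat_lit 1810) (nat_lit 74),
   .der (nat_lit 2390) (nat_lit 848),
   .der (nat_lit 19) (nat_lit 1450),
   .der (nat_lit 2390) (nat_lit 3243),
   .prs (.two (nat_lit 1113) (nat_lit 2) (nat_lit 1095) (nat_lit 4) (.two (nat_lit 111) (nat_lit 4) (nat_lit 5553) (nat_lit 2) (.two (nat_lit 443) (nat_lit 2) (nat_lit 5554) (nat_lit 4) (.two (nat_lit 0) (nat_lit 2) (nat_lit 5555) (nat_lit 4) (.one (nat_lit 5556) (nat_lit 4) .nil))))),
   .der (nat_lit 150) (nat_lit 24),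
   .der (nat_lit 5971) (nat_lit 907),
   .der (nat_lit 5) (nat_lit 1450),
   .prs (.two (nat_lit 127) (nat_lit 2) (nat_lit 5558) (nat_lit 16) (.two (nat_lit 882) (nat_lit 16) (nat_lit 4399) (nat_lit 2) (.two (nat_lit 2) (nat_lit 16) (nat_lit 5559) (nat_lit 2) (.two (nat_lit 0) (nat_lit 1) (nat_lit 5560) (nat_lit 2) (.one (nat_lit 3770) (nat_lit 2) .nil))))),
   .der (nat_lit 561) (nat_lit 864),
   .prs (.two (nat_lit 858) (nat_lit 16) (nat_lit 4337) (nat_lit 1) (.two (nat_lit 224) (nat_lit 1) (nat_lit 3997) (nat_lit 16) (.two (nat_lit 0) (nat_lit 1) (nat_lit 5562) (nat_lit 16) (.one (nat_lit 3773) (nat_lit 16) .nil)))),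
   .der (nat_lit 1430) (nat_lit 35),
   .der (nat_lit 12658) (nat_lit 542),
   .der (nat_lit 86) (nat_lit 1094),
   .der (nat_lit 86) (nat_lit 3243),
   .prs (.two (nat_lit 390) (nat_lit 8) (nat_lit 5564) (nat_lit 2) (.two (nat_lit 25) (nat_lit 2) (nat_lit 5565) (nat_lit 8) (.two (nat_lit 3) (nat_lit 1) (nat_lit 5566) (nat_lit 2) (.two (nat_lit 0) (nat_lit 2) (nat_lit 3780) (nat_lit 1) (.one (nat_lit 5567) (nat_lit 1) .nil))))),
   .der (nat_lit 627) (nat_lit 87),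
   .der (nat_lit 833) (nat_lit 199),
   .der (nat_lit 115) (nat_lit 1824),
   .prs (.two (nat_lit 717) (nat_lit 16) (nat_lit 5569) (nat_lit 2) (.two (nat_lit 740) (nat_lit 16) (nat_lit 5570) (nat_lit 1) (.two (nat_lit 3) (nat_lit 16) (nat_lit 5571) (nat_lit 1) (.two (nat_lit 0) (nat_lit 2) (nat_lit 4810) (nat_lit 16) (.one (nat_lit 4819) (nat_lit 1) .nil))))),
   .der (nat_lit 1653) (nat_lit 429),
   .der (nat_lit 34068) (nat_lit 829),
   .der (nat_lit 882) (nat_lit 2464),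
   .prs (.two (nat_lit 1413) (nat_lit 8) (nat_lit 2893) (nat_lit 2) (.two (nat_lit 434) (nat_lit 2) (nat_lit 5573) (nat_lit 8) (.two (nat_lit 11) (nat_lit 2) (nat_lit 5574) (nat_lit 8) (.two (nat_lit 0) (nat_lit 8) (nat_lit 5575) (nat_lit 2) (.one (nat_lit 4764) (nat_lit 2) .nil))))),
   .der (nat_lit 1) (nat_lit 110),
   .der (nat_lit 83) (nat_lit 435),
   .der (nat_lit 49) (nat_lit 1051),
   .prs (.two (nat_lit 32) (nat_lit 8) (nat_lit 5577) (nat_lit 4) (.two (nat_lit 3081) (nat_lit 4) (nat_lit 5578) (nat_lit 8) (.two (nat_lit 1) (nat_lit 4) (nat_lit 5579) (nat_lit 8) (.two (nat_lit 0) (nat_lit 8) (nat_lit 2940) (nat_lit 4) (.one (nat_lit 3783) (nat_lit 4) .nil))))),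
   .der (nat_lit 356) (nat_lit 146),
   .der (nat_lit 29011) (nat_lit 608),
   .der (nat_lit 852) (nat_lit 1022),
   .prs (.two (nat_lit 449) (nat_lit 8) (nat_lit 1326) (nat_lit 1) (.two (nat_lit 758) (nat_lit 1) (nat_lit 5581) (nat_lit 8) (.two (nat_lit 325) (nat_lit 8) (nat_lit 5582) (nat_lit 1) (.two (nat_lit 1) (nat_lit 16) (nat_lit 5583) (nat_lit 8) (.two (nat_lit 0) (nat_lit 16) (nat_lit 3769) (nat_lit 8) (.one (nat_lit 4825) (nat_lit 8) .nil)))))),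
   .der (nat_lit 29011) (nat_lit 187),
   .der (nat_lit 49) (nat_lit 1085),
   .der (nat_lit 129) (nat_lit 1714),
   .prs (.two (nat_lit 676) (nat_lit 4) (nat_lit 968) (nat_lit 2) (.two (nat_lit 791) (nat_lit 4) (nat_lit 1614) (nat_lit 2) (.two (nat_lit 622) (nat_lit 8) (nat_lit 5585) (nat_lit 2) (.two (nat_lit 11) (nat_lit 8) (nat_lit 5586) (nat_lit 4) (.two (nat_lit 0) (nat_lit 8) (nat_lit 5587) (nat_lit 2) (.one (nat_lit 4829) (nat_lit 4) .nil)))))),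
   .der (nat_lit 1653) (nat_lit 504),
   .prs (.two (nat_lit 858) (nat_lit 1) (nat_lit 616) (nat_lit 2) (.two (nat_lit 6) (nat_lit 8) (nat_lit 2994) (nat_lit 2) (.two (nat_lit 740) (nat_lit 1) (nat_lit 5589) (nat_lit 2) (.two (nat_lit 3) (nat_lit 1) (nat_lit 4784) (nat_lit 2) (.two (nat_lit 0) (nat_lit 8) (nat_lit 3789) (nat_lit 1) (.one (nat_lit 4833) (nat_lit 1) .nil)))))),
   .der (nat_lit 17185) (nat_lit 70),
   .der (nat_lit 17185) (nat_lit 417),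
   .der (nat_lit 84) (nat_lit 1557),
   .der (nat_lit 83) (nat_lit 3506),
   .prs (.two (nat_lit 69) (nat_lit 1) (nat_lit 1239) (nat_lit 8) (.two (nat_lit 741) (nat_lit 8) (nat_lit 5591) (nat_lit 1) (.two (nat_lit 308) (nat_lit 8) (nat_lit 5592) (nat_lit 1) (.two (nat_lit 0) (nat_lit 8) (nat_lit 5593) (nat_lit 1) (.one (nat_lit 5594) (nat_lit 1) .nil))))),
   .der (nat_lit 2135) (nat_lit 1030),
   .der (nat_lit 147) (nat_lit 2342),
   .prs (.two (nat_lit 1413) (nat_lit 8) (nat_lit 444) (nat_lit 4) (.two (nat_lit 2852) (nat_lit 4) (nat_lit 3774) (nat_lit 8) (.two (nat_lit 443) (nat_lit 4) (nat_lit 5596) (nat_lit 8) (.two (nat_lit 0) (nat_lit 4) (nat_lit 5597) (nat_lit 8) (.one (nat_lit 4837) (nat_lit 8) .nil))))),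
   .der (nat_lit 2135) (nat_lit 1133),
   .der (nat_lit 2135) (nat_lit 2483),
   .prs (.two (nat_lit 1245) (nat_lit 1) (nat_lit 3831) (nat_lit 2) (.two (nat_lit 178) (nat_lit 1) (nat_lit 5599) (nat_lit 2) (.two (nat_lit 3) (nat_lit 1) (nat_lit 3833) (nat_lit 2) (.two (nat_lit 0) (nat_lit 1) (nat_lit 5600) (nat_lit 2) (.one (nat_lit 4840) (nat_lit 1) .nil))))),
   .der (nat_lit 132) (nat_lit 76),
   .der (nat_lit 129) (nat_lit 1381),
   .der (nat_lit 2323) (nat_lit 3338),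
   .prs (.two (nat_lit 32) (nat_lit 16) (nat_lit 5539) (nat_lit 1) (.two (nat_lit 30) (nat_lit 16) (nat_lit 5602) (nat_lit 1) (.two (nat_lit 334) (nat_lit 1) (nat_lit 3330) (nat_lit 16) (.two (nat_lit 16) (nat_lit 1) (nat_lit 5603) (nat_lit 16) (.one (nat_lit 5604) (nat_lit 1) .nil))))),
   .prs (.two (nat_lit 129) (nat_lit 8) (nat_lit 3221) (nat_lit 16) (.two (nat_lit 0) (nat_lit 8) (nat_lit 2946) (nat_lit 16) (.one (nat_lit 4857) (nat_lit 8) .nil))),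
   .der (nat_lit 30226) (nat_lit 848),
   .prs (.two (nat_lit 520) (nat_lit 8) (nat_lit 490) (nat_lit 2) (.two (nat_lit 129) (nat_lit 8) (nat_lit 5569) (nat_lit 2) (.two (nat_lit 493) (nat_lit 8) (nat_lit 5607) (nat_lit 2) (.two (nat_lit 0) (nat_lit 1) (nat_lit 5560) (nat_lit 2) (.one (nat_lit 4847) (nat_lit 1) .nil))))),
   .der (nat_lit 86) (nat_lit 864),
   .prs (.two (nat_lit 676) (nat_lit 16) (nat_lit 1095) (nat_lit 4) (.two (nat_lit 111) (nat_lit 4) (nat_lit 423) (nat_lit 16) (.two (nat_lit 433) (nat_lit 4) (nat_lit 5609) (nat_lit 16) (.one (nat_lit 3793) (nat_lit 16) .nil)))),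
   .der (nat_lit 67) (nat_lit 41),
   .der (nat_lit 340) (nat_lit 681),
   .prs (.two (nat_lit 105) (nat_lit 16) (nat_lit 5611) (nat_lit 8) (.two (nat_lit 1259) (nat_lit 8) (nat_lit 95) (nat_lit 16) (.two (nat_lit 206) (nat_lit 8) (nat_lit 5612) (nat_lit 16) (.two (nat_lit 1) (nat_lit 8) (nat_lit 5562) (nat_lit 16) (.one (nat_lit 3797) (nat_lit 16) .nil))))),
   .der (nat_lit 1) (nat_lit 1693),
   .prs (.two (nat_lit 794) (nat_lit 16) (nat_lit 742) (nat_lit 2) (.two (nat_lit 998) (nat_lit 2) (nat_lit 682) (nat_lit 16) (.two (nat_lit 195) (nat_lit 2) (nat_lit 4474) (nat_lit 16) (.two (nat_lit 0) (nat_lit 2) (nat_lit 5614) (nat_lit 16) (.one (nat_lit 4851) (nat_lit 16) .nil))))),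
   .der (nat_lit 354) (nat_lit 2753),
   .prs (.two (nat_lit 456) (nat_lit 4) (nat_lit 1433) (nat_lit 8) (.two (nat_lit 1) (nat_lit 4) (nat_lit 5616) (nat_lit 8) .nil)),
   .prs (.two (nat_lit 1126) (nat_lit 16) (nat_lit 1413) (nat_lit 8) (.two (nat_lit 2) (nat_lit 8) (nat_lit 3221) (nat_lit 16) (.two (nat_lit 0) (nat_lit 8) (nat_lit 2021) (nat_lit 16) (.one (nat_lit 4822) (nat_lit 8) .nil)))),
   .prs (.two (nat_lit 65) (nat_lit 16) (nat_lit 191) (nat_lit 2) (.two (nat_lit 75) (nat_lit 2) (nat_lit 2390) (nat_lit 16) (.two (nat_lit 1) (nat_lit 2) (nat_lit 4820) (nat_lit 16) (.two (nat_lit 0) (nat_lit 2) (nat_lit 4821) (nat_lit 1) (.one (nat_lit 2965) (nat_lit 16) .nil))))),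
   .der (nat_lit 6) (nat_lit 55),
   .der (nat_lit 22548) (nat_lit 84),
   .der (nat_lit 34068) (nat_lit 655),
   .der (nat_lit 114) (nat_lit 2693),
   .prs (.two (nat_lit 489) (nat_lit 2) (nat_lit 5620) (nat_lit 4) (.two (nat_lit 17) (nat_lit 2) (nat_lit 5621) (nat_lit 4) (.two (nat_lit 16) (nat_lit 2) (nat_lit 5622) (nat_lit 8) (.two (nat_lit 0) (nat_lit 2) (nat_lit 5623) (nat_lit 8) (.one (nat_lit 4860) (nat_lit 2) .nil))))),
   .prs (.two (nat_lit 1126) (nat_lit 16) (nat_lit 83) (nat_lit 1) (.two (nat_lit 4) (nat_lit 2) (nat_lit 2390) (nat_lit 16) (.two (nat_lit 1) (nat_lit 2) (nat_lit 4820) (nat_lit 16) (.two (nat_lit 0) (nat_lit 2) (nat_lit 2965) (nat_lit 16) .nil)))),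
   .der (nat_lit 24916) (nat_lit 530),
   .prs (.two (nat_lit 404) (nat_lit 1) (nat_lit 462) (nat_lit 8) (.two (nat_lit 7) (nat_lit 1) (nat_lit 5626) (nat_lit 8) (.two (nat_lit 0) (nat_lit 1) (nat_lit 2974) (nat_lit 8) (.one (nat_lit 4863) (nat_lit 4) .nil)))),
   .der (nat_lit 16738) (nat_lit 93),
   .der (nat_lit 2193) (nat_lit 1616),
   .der (nat_lit 50) (nat_lit 1438),
   .der (nat_lit 2193) (nat_lit 3279),
   .prs (.two (nat_lit 145) (nat_lit 4) (nat_lit 1322) (nat_lit 2) (.two (nat_lit 791) (nat_lit 4) (nat_lit 5628) (nat_lit 2) (.two (nat_lit 361) (nat_lit 2) (nat_lit 1328) (nat_lit 4) (.two (nat_lit 11) (nat_lit 2) (nat_lit 5629) (nat_lit 4) (.two (nat_lit 0) (nat_lit 8) (nat_lit 5630) (nat_lit 2) (.one (nat_lit 5631) (nat_lit 2) .nil)))))),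
   .der (nat_lit 1650) (nat_lit 513),
   .der (nat_lit 86) (nat_lit 1248),
   .prs (.two (nat_lit 520) (nat_lit 8) (nat_lit 3875) (nat_lit 1) (.two (nat_lit 556) (nat_lit 8) (nat_lit 5633) (nat_lit 1) (.two (nat_lit 3) (nat_lit 8) (nat_lit 5634) (nat_lit 1) (.two (nat_lit 0) (nat_lit 8) (nat_lit 3846) (nat_lit 1) (.one (nat_lit 4876) (nat_lit 8) .nil))))),
   .der (nat_lit 8) (nat_lit 104),
   .der (nat_lit 1300) (nat_lit 1196),
   .prs (.two (nat_lit 965) (nat_lit 4) (nat_lit 5636) (nat_lit 2) (.two (nat_lit 7) (nat_lit 1) (nat_lit 1330) (nat_lit 4) (.two (nat_lit 16) (nat_lit 2) (nat_lit 5637) (nat_lit 1) (.two (nat_lit 0) (nat_lit 1) (nat_lit 3856) (nat_lit 2) (.one (nat_lit 4897) (nat_lit 2) .nil))))),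
   .der (nat_lit 1430) (nat_lit 37),
   .der (nat_lit 1430) (nat_lit 392),
   .der (nat_lit 7) (nat_lit 1586),
   .der (nat_lit 19) (nat_lit 2747),
   .prs (.two (nat_lit 676) (nat_lit 4) (nat_lit 1848) (nat_lit 2) (.two (nat_lit 6) (nat_lit 4) (nat_lit 5639) (nat_lit 2) (.two (nat_lit 17) (nat_lit 4) (nat_lit 5640) (nat_lit 2) (.two (nat_lit 3) (nat_lit 4) (nat_lit 5641) (nat_lit 2) (.two (nat_lit 0) (nat_lit 1) (nat_lit 5642) (nat_lit 2) (.one (nat_lit 4904) (nat_lit 4) .nil)))))),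
   .der (nat_lit 3) (nat_lit 3164),
   .prs (.two (nat_lit 145) (nat_lit 16) (nat_lit 1254) (nat_lit 4) (.two (nat_lit 134) (nat_lit 4) (nat_lit 935) (nat_lit 16) (.two (nat_lit 248) (nat_lit 4) (nat_lit 1411) (nat_lit 16) (.two (nat_lit 0) (nat_lit 1) (nat_lit 5644) (nat_lit 16) .nil)))),
   .der (nat_lit 1299) (nat_lit 1385),
   .prs (.two (nat_lit 1113) (nat_lit 16) (nat_lit 444) (nat_lit 2) (.two (nat_lit 2852) (nat_lit 2) (nat_lit 1555) (nat_lit 16) (.two (nat_lit 443) (nat_lit 2) (nat_lit 3114) (nat_lit 16) (.two (nat_lit 0) (nat_lit 2) (nat_lit 5646) (nat_lit 16) (.one (nat_lit 4909) (nat_lit 16) .nil))))),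
   .der (nat_lit 2) (nat_lit 837),
   .der (nat_lit 2) (nat_lit 1381),
   .prs (.two (nat_lit 13) (nat_lit 16) (nat_lit 4910) (nat_lit 8) (.two (nat_lit 1259) (nat_lit 8) (nat_lit 33) (nat_lit 16) (.two (nat_lit 25) (nat_lit 8) (nat_lit 5648) (nat_lit 16) (.two (nat_lit 0) (nat_lit 8) (nat_lit 5649) (nat_lit 16) (.one (nat_lit 4916) (nat_lit 16) .nil))))),
   .der (nat_lit 1811) (nat_lit 98),
   .der (nat_lit 2084) (nat_lit 906),
   .der (nat_lit 2084) (nat_lit 1448),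
   .prs (.two (nat_lit 440) (nat_lit 8) (nat_lit 1059) (nat_lit 2) (.two (nat_lit 65) (nat_lit 8) (nat_lit 5651) (nat_lit 2) (.two (nat_lit 2090) (nat_lit 2) (nat_lit 1404) (nat_lit 8) (.two (nat_lit 1) (nat_lit 2) (nat_lit 5652) (nat_lit 8) (.two (nat_lit 0) (nat_lit 16) (nat_lit 5653) (nat_lit 8) (.one (nat_lit 4919) (nat_lit 8) .nil)))))),
   .der (nat_lit 30226) (nat_lit 62),
   .der (nat_lit 5218) (nat_lit 417),
   .der (nat_lit 132) (nat_lit 1565),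
   .der (nat_lit 33) (nat_lit 4780),
   .prs (.two (nat_lit 717) (nat_lit 2) (nat_lit 3601) (nat_lit 8) (.two (nat_lit 53) (nat_lit 8) (nat_lit 5655) (nat_lit 2) (.two (nat_lit 206) (nat_lit 8) (nat_lit 5656) (nat_lit 2) (.two (nat_lit 0) (nat_lit 8) (nat_lit 5657) (nat_lit 2) (.one (nat_lit 5658) (nat_lit 2) .nil))))),
   .der (nat_lit 114) (nat_lit 76),
   .der (nat_lit 8) (nat_lit 1753),
   .prs (.two (nat_lit 13) (nat_lit 16) (nat_lit 449) (nat_lit 8) (.two (nat_lit 129) (nat_lit 16) (nat_lit 5660) (nat_lit 8) (.two (nat_lit 34) (nat_lit 8) (nat_lit 1410) (nat_lit 16) (.two (nat_lit 16) (nat_lit 1) (nat_lit 5661) (nat_lit 16) (.two (nat_lit 0) (nat_lit 1) (nat_lit 4929) (nat_lit 16) (.one (nat_lit 4930) (nat_lit 1) .nil)))))),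
   .der (nat_lit 1893) (nat_lit 1058),
   .prs (.two (nat_lit 717) (nat_lit 16) (nat_lit 809) (nat_lit 1) (.two (nat_lit 9) (nat_lit 1) (nat_lit 1440) (nat_lit 16) (.two (nat_lit 16) (nat_lit 1) (nat_lit 5663) (nat_lit 16) (.two (nat_lit 0) (nat_lit 1) (nat_lit 3043) (nat_lit 16) (.one (nat_lit 4931) (nat_lit 16) .nil))))),
   .der (nat_lit 117) (nat_lit 74),
   .der (nat_lit 1810) (nat_lit 848),
   .der (nat_lit 165) (nat_lit 1450),
   .der (nat_lit 83) (nat_lit 3251),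
   .prs (.two (nat_lit 13) (nat_lit 16) (nat_lit 127) (nat_lit 2) (.two (nat_lit 65) (nat_lit 16) (nat_lit 5665) (nat_lit 2) (.two (nat_lit 34) (nat_lit 16) (nat_lit 5666) (nat_lit 2) (.two (nat_lit 0) (nat_lit 16) (nat_lit 5667) (nat_lit 2) (.one (nat_lit 5668) (nat_lit 16) .nil))))),
   .der (nat_lit 101) (nat_lit 980),
   .prs (.two (nat_lit 13) (nat_lit 16) (nat_lit 449) (nat_lit 8) (.two (nat_lit 129) (nat_lit 16) (nat_lit 5660) (nat_lit 8) (.two (nat_lit 34) (nat_lit 8) (nat_lit 5670) (nat_lit 16) (.two (nat_lit 0) (nat_lit 1) (nat_lit 4929) (nat_lit 16) (.one (nat_lit 4932) (nat_lit 1) .nil))))),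
   .der (nat_lit 65) (nat_lit 143),
   .der (nat_lit 1057) (nat_lit 64),
   .der (nat_lit 101) (nat_lit 536),
   .der (nat_lit 66) (nat_lit 2983),
   .prs (.two (nat_lit 129) (nat_lit 4) (nat_lit 5672) (nat_lit 1) (.two (nat_lit 68) (nat_lit 2) (nat_lit 5673) (nat_lit 1) (.two (nat_lit 1) (nat_lit 2) (nat_lit 5674) (nat_lit 1) (.two (nat_lit 0) (nat_lit 4) (nat_lit 5675) (nat_lit 1) (.one (nat_lit 3047) (nat_lit 4) .nil))))),
   .der (nat_lit 2068) (nat_lit 84),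
   .der (nat_lit 19) (nat_lit 1428),
   .der (nat_lit 1107) (nat_lit 2332),
   .der (nat_lit 83) (nat_lit 4390),
   .prs (.two (nat_lit 440) (nat_lit 2) (nat_lit 5677) (nat_lit 4) (.two (nat_lit 397) (nat_lit 1) (nat_lit 1417) (nat_lit 4) (.two (nat_lit 1203) (nat_lit 4) (nat_lit 1391) (nat_lit 2) (.two (nat_lit 1) (nat_lit 2) (nat_lit 5678) (nat_lit 1) (.two (nat_lit 0) (nat_lit 2) (nat_lit 5679) (nat_lit 1) (.one (nat_lit 5680) (nat_lit 2) .nil)))))),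
   .der (nat_lit 2339) (nat_lit 104),
   .der (nat_lit 2) (nat_lit 1080),
   .der (nat_lit 6) (nat_lit 943),
   .der (nat_lit 98) (nat_lit 2377),
   .der (nat_lit 2) (nat_lit 2369),
   .prs (.two (nat_lit 390) (nat_lit 2) (nat_lit 5682) (nat_lit 4) (.two (nat_lit 34) (nat_lit 2) (nat_lit 5683) (nat_lit 4) (.two (nat_lit 1) (nat_lit 2) (nat_lit 5684) (nat_lit 4) (.two (nat_lit 0) (nat_lit 2) (nat_lit 5685) (nat_lit 4) (.one (nat_lit 5686) (nat_lit 2) .nil))))),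
   .der (nat_lit 8) (nat_lit 74),
   .der (nat_lit 86) (nat_lit 412),
   .der (nat_lit 1073) (nat_lit 2494),
   .der (nat_lit 1073) (nat_lit 4278),
   .prs (.two (nat_lit 1245) (nat_lit 4) (nat_lit 5688) (nat_lit 16) (.two (nat_lit 173) (nat_lit 4) (nat_lit 5689) (nat_lit 16) (.two (nat_lit 3) (nat_lit 4) (nat_lit 5690) (nat_lit 16) (.one (nat_lit 5691) (nat_lit 16) .nil)))),
   .der (nat_lit 2390) (nat_lit 987),
   .prs (.two (nat_lit 13) (nat_lit 8) (nat_lit 449) (nat_lit 2) (.two (nat_lit 6) (nat_lit 8) (nat_lit 5581) (nat_lit 2) (.two (nat_lit 463) (nat_lit 8) (nat_lit 5693) (nat_lit 2) (.two (nat_lit 0) (nat_lit 4) (nat_lit 4938) (nat_lit 8) .nil)))),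
   .der (nat_lit 1107) (nat_lit 2931),
   .prs (.two (nat_lit 390) (nat_lit 2) (nat_lit 576) (nat_lit 8) (.two (nat_lit 36) (nat_lit 2) (nat_lit 3129) (nat_lit 8) (.two (nat_lit 144) (nat_lit 2) (nat_lit 1022) (nat_lit 4) (.two (nat_lit 0) (nat_lit 8) (nat_lit 5695) (nat_lit 4) (.one (nat_lit 4935) (nat_lit 4) .nil))))),
   .der (nat_lit 150) (nat_lit 441),
   .prs (.two (nat_lit 13) (nat_lit 8) (nat_lit 80) (nat_lit 2) (.two (nat_lit 6) (nat_lit 8) (nat_lit 5581) (nat_lit 2) (.two (nat_lit 170) (nat_lit 2) (nat_lit 5697) (nat_lit 4) (.two (nat_lit 1) (nat_lit 2) (nat_lit 927) (nat_lit 4) (.two (nat_lit 0) (nat_lit 2) (nat_lit 3894) (nat_lit 4) (.one (nat_lit 3898) (nat_lit 2) .nil)))))),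
   .der (nat_lit 5716) (nat_lit 143),
   .der (nat_lit 1890) (nat_lit 77),
   .der (nat_lit 2339) (nat_lit 960),
   .der (nat_lit 165) (nat_lit 1478),
   .der (nat_lit 98) (nat_lit 4943),
   .prs (.two (nat_lit 858) (nat_lit 1) (nat_lit 5699) (nat_lit 2) (.two (nat_lit 723) (nat_lit 1) (nat_lit 5700) (nat_lit 2) (.two (nat_lit 338) (nat_lit 2) (nat_lit 5701) (nat_lit 1) (.two (nat_lit 0) (nat_lit 1) (nat_lit 5702) (nat_lit 2) (.one (nat_lit 5703) (nat_lit 1) .nil))))),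
   .der (nat_lit 137) (nat_lit 1213),
   .der (nat_lit 1893) (nat_lit 1041),
   .prs (.two (nat_lit 42) (nat_lit 4) (nat_lit 3185) (nat_lit 2) (.two (nat_lit 170) (nat_lit 2) (nat_lit 2110) (nat_lit 4) (.two (nat_lit 11) (nat_lit 16) (nat_lit 5705) (nat_lit 2) (.two (nat_lit 0) (nat_lit 16) (nat_lit 5706) (nat_lit 2) (.one (nat_lit 4945) (nat_lit 2) .nil))))),
   .der (nat_lit 1811) (nat_lit 31),
   .der (nat_lit 1893) (nat_lit 161),
   .der (nat_lit 1893) (nat_lit 172),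
   .der (nat_lit 87) (nat_lit 1770),
   .prs (.two (nat_lit 42) (nat_lit 4) (nat_lit 5708) (nat_lit 2) (.two (nat_lit 202) (nat_lit 4) (nat_lit 5709) (nat_lit 2) (.two (nat_lit 1) (nat_lit 4) (nat_lit 5710) (nat_lit 2) (.two (nat_lit 0) (nat_lit 2) (nat_lit 5711) (nat_lit 4) (.one (nat_lit 3901) (nat_lit 4) .nil))))),
   .der (nat_lit 1073) (nat_lit 21),
   .der (nat_lit 17185) (nat_lit 1241),
   .der (nat_lit 2433) (nat_lit 1817),
   .der (nat_lit 10545) (nat_lit 1444),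
   .prs (.two (nat_lit 97) (nat_lit 1) (nat_lit 5713) (nat_lit 4) (.two (nat_lit 1118) (nat_lit 4) (nat_lit 3467) (nat_lit 1) (.two (nat_lit 356) (nat_lit 1) (nat_lit 5714) (nat_lit 4) (.two (nat_lit 11) (nat_lit 1) (nat_lit 5715) (nat_lit 4) (.two (nat_lit 0) (nat_lit 1) (nat_lit 5716) (nat_lit 4) (.one (nat_lit 3907) (nat_lit 1) .nil)))))),
   .der (nat_lit 100) (nat_lit 57),
   .der (nat_lit 1057) (nat_lit 158),
   .der (nat_lit 17185) (nat_lit 172),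
   .der (nat_lit 33) (nat_lit 2581),
   .der (nat_lit 49) (nat_lit 2249),
   .prs (.two (nat_lit 825) (nat_lit 4) (nat_lit 5718) (nat_lit 1) (.two (nat_lit 370) (nat_lit 4) (nat_lit 5719) (nat_lit 1) (.two (nat_lit 173) (nat_lit 4) (nat_lit 5720) (nat_lit 1) (.two (nat_lit 3) (nat_lit 4) (nat_lit 2270) (nat_lit 1) (.two (nat_lit 0) (nat_lit 1) (nat_lit 5721) (nat_lit 4) (.one (nat_lit 5722) (nat_lit 1) .nil)))))),
   .der (nat_lit 12658) (nat_lit 281),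
   .der (nat_lit 17185) (nat_lit 1633),
   .prs (.two (nat_lit 65) (nat_lit 2) (nat_lit 968) (nat_lit 4) (.two (nat_lit 2) (nat_lit 4) (nat_lit 5724) (nat_lit 1) (.two (nat_lit 1) (nat_lit 2) (nat_lit 5725) (nat_lit 1) (.one (nat_lit 4952) (nat_lit 1) .nil)))),
   .der (nat_lit 129) (nat_lit 1747),
   .der (nat_lit 1) (nat_lit 3911),
   .prs (.two (nat_lit 65) (nat_lit 8) (nat_lit 3068) (nat_lit 16) (.two (nat_lit 11) (nat_lit 8) (nat_lit 5727) (nat_lit 16) (.one (nat_lit 5728) (nat_lit 8) .nil))),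
   .der (nat_lit 659) (nat_lit 848),
   .der (nat_lit 37425) (nat_lit 1450),
   .der (nat_lit 659) (nat_lit 3243),
   .prs (.two (nat_lit 676) (nat_lit 16) (nat_lit 69) (nat_lit 1) (.two (nat_lit 30) (nat_lit 1) (nat_lit 2123) (nat_lit 16) (.two (nat_lit 190) (nat_lit 16) (nat_lit 5730) (nat_lit 1) (.two (nat_lit 0) (nat_lit 16) (nat_lit 5731) (nat_lit 1) (.one (nat_lit 5732) (nat_lit 1) .nil))))),
   .der (nat_lit 35) (nat_lit 64),
   .der (nat_lit 86) (nat_lit 495),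
   .der (nat_lit 2193) (nat_lit 1718),
   .prs (.two (nat_lit 227) (nat_lit 2) (nat_lit 5734) (nat_lit 16) (.two (nat_lit 1) (nat_lit 16) (nat_lit 5735) (nat_lit 2) (.two (nat_lit 0) (nat_lit 4) (nat_lit 5736) (nat_lit 2) (.one (nat_lit 3916) (nat_lit 16) .nil)))),
   .der (nat_lit 26386) (nat_lit 1099),
   .prs (.two (nat_lit 227) (nat_lit 16) (nat_lit 1511) (nat_lit 2) (.two (nat_lit 1) (nat_lit 16) (nat_lit 5738) (nat_lit 8) (.one (nat_lit 4954) (nat_lit 2) .nil))),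
   .der (nat_lit 1556) (nat_lit 421),
   .der (nat_lit 34068) (nat_lit 1475),
   .der (nat_lit 834) (nat_lit 4482),
   .prs (.two (nat_lit 1554) (nat_lit 16) (nat_lit 1551) (nat_lit 8) (.two (nat_lit 6) (nat_lit 8) (nat_lit 5003) (nat_lit 16) (.two (nat_lit 7) (nat_lit 16) (nat_lit 5740) (nat_lit 8) (.two (nat_lit 0) (nat_lit 16) (nat_lit 5741) (nat_lit 8) (.one (nat_lit 5742) (nat_lit 8) .nil))))),
   .der (nat_lit 5) (nat_lit 407),
   .der (nat_lit 3) (nat_lit 2769),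
   .prs (.two (nat_lit 127) (nat_lit 16) (nat_lit 83) (nat_lit 4) (.two (nat_lit 91) (nat_lit 16) (nat_lit 4781) (nat_lit 4) (.two (nat_lit 214) (nat_lit 4) (nat_lit 5744) (nat_lit 16) (.two (nat_lit 3) (nat_lit 4) (nat_lit 5745) (nat_lit 16) (.one (nat_lit 4991) (nat_lit 4) .nil))))),
   .der (nat_lit 52) (nat_lit 82),
   .der (nat_lit 100) (nat_lit 3846),
   .prs (.two (nat_lit 94) (nat_lit 16) (nat_lit 1582) (nat_lit 8) (.two (nat_lit 42) (nat_lit 16) (nat_lit 4494) (nat_lit 8) (.two (nat_lit 2) (nat_lit 16) (nat_lit 5747) (nat_lit 8) (.two (nat_lit 1) (nat_lit 16) (nat_lit 3430) (nat_lit 8) (.two (nat_lit 0) (nat_lit 8) (nat_lit 5748) (nat_lit 16) (.one (nat_lit 4997) (nat_lit 8) .nil)))))),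
   .prs (.two (nat_lit 13) (nat_lit 8) (nat_lit 676) (nat_lit 16) (.two (nat_lit 42) (nat_lit 16) (nat_lit 1414) (nat_lit 8) (.two (nat_lit 2) (nat_lit 16) (nat_lit 4959) (nat_lit 8) (.two (nat_lit 0) (nat_lit 16) (nat_lit 4960) (nat_lit 8) (.one (nat_lit 3934) (nat_lit 8) .nil))))),
   .der (nat_lit 644) (nat_lit 1248),
   .prs (.two (nat_lit 134) (nat_lit 4) (nat_lit 86) (nat_lit 16) (.two (nat_lit 3081) (nat_lit 4) (nat_lit 3382) (nat_lit 16) (.two (nat_lit 1) (nat_lit 4) (nat_lit 5751) (nat_lit 16) (.one (nat_lit 5017) (nat_lit 16) .nil)))),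
   .der (nat_lit 12658) (nat_lit 93),
   .der (nat_lit 161) (nat_lit 2468),
   .prs (.two (nat_lit 315) (nat_lit 4) (nat_lit 1554) (nat_lit 2) (.two (nat_lit 443) (nat_lit 4) (nat_lit 5753) (nat_lit 2) (.two (nat_lit 16) (nat_lit 2) (nat_lit 5351) (nat_lit 4) (.two (nat_lit 0) (nat_lit 2) (nat_lit 3083) (nat_lit 4) (.one (nat_lit 5754) (nat_lit 2) .nil))))),
   .der (nat_lit 2135) (nat_lit 70),
   .prs (.two (nat_lit 418) (nat_lit 16) (nat_lit 5756) (nat_lit 8) (.two (nat_lit 7) (nat_lit 16) (nat_lit 5740) (nat_lit 8) (.two (nat_lit 0) (nat_lit 16) (nat_lit 3080) (nat_lit 8) (.one (nat_lit 4999) (nat_lit 8) .nil)))),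
   .der (nat_lit 10) (nat_lit 73),
   .der (nat_lit 834) (nat_lit 1412),
   .prs (.two (nat_lit 13) (nat_lit 8) (nat_lit 280) (nat_lit 4) (.two (nat_lit 42) (nat_lit 4) (nat_lit 5758) (nat_lit 8) (.two (nat_lit 2) (nat_lit 4) (nat_lit 4959) (nat_lit 8) (.two (nat_lit 0) (nat_lit 4) (nat_lit 5759) (nat_lit 8) (.one (nat_lit 3938) (nat_lit 8) .nil))))),
   .prs (.two (nat_lit 13) (nat_lit 16) (nat_lit 4494) (nat_lit 8) (.two (nat_lit 7) (nat_lit 8) (nat_lit 4987) (nat_lit 16) (.two (nat_lit 3) (nat_lit 8) (nat_lit 4988) (nat_lit 16) (.one (nat_lit 3925) (nat_lit 8) .nil)))),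
   .der (nat_lit 834) (nat_lit 82),
   .der (nat_lit 17185) (nat_lit 1169),
   .der (nat_lit 1057) (nat_lit 2562),
   .der (nat_lit 5) (nat_lit 3925),
   .prs (.two (nat_lit 440) (nat_lit 16) (nat_lit 5762) (nat_lit 8) (.two (nat_lit 1) (nat_lit 16) (nat_lit 5763) (nat_lit 8) (.two (nat_lit 0) (nat_lit 8) (nat_lit 5764) (nat_lit 16) (.one (nat_lit 5765) (nat_lit 8) .nil)))),
   .der (nat_lit 9587) (nat_lit 70),
   .der (nat_lit 9587) (nat_lit 417),
   .der (nat_lit 4978) (nat_lit 1557),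
   .der (nat_lit 16738) (nat_lit 3308),
   .prs (.two (nat_lit 32) (nat_lit 16) (nat_lit 5767) (nat_lit 1) (.two (nat_lit 7) (nat_lit 16) (nat_lit 5768) (nat_lit 1) (.two (nat_lit 0) (nat_lit 16) (nat_lit 5769) (nat_lit 1) (.one (nat_lit 5770) (nat_lit 1) .nil)))),
   .der (nat_lit 4) (nat_lit 2562),
   .der (nat_lit 4) (nat_lit 3188),
   .prs (.two (nat_lit 1413) (nat_lit 4) (nat_lit 4494) (nat_lit 8) (.two (nat_lit 3081) (nat_lit 8) (nat_lit 3596) (nat_lit 4) (.two (nat_lit 1) (nat_lit 8) (nat_lit 5772) (nat_lit 4) (.one (nat_lit 5773) (nat_lit 4) .nil)))),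
   .der (nat_lit 1893) (nat_lit 41),
   .der (nat_lit 84) (nat_lit 72),
   .der (nat_lit 4978) (nat_lit 955),
   .der (nat_lit 370) (nat_lit 2284),
   .prs (.two (nat_lit 1413) (nat_lit 4) (nat_lit 5775) (nat_lit 1) (.two (nat_lit 456) (nat_lit 4) (nat_lit 5776) (nat_lit 1) (.two (nat_lit 383) (nat_lit 4) (nat_lit 5777) (nat_lit 1) (.two (nat_lit 0) (nat_lit 4) (nat_lit 5778) (nat_lit 1) (.one (nat_lit 5005) (nat_lit 1) .nil))))),
   .prs (.two (nat_lit 1854) (nat_lit 1) (nat_lit 1547) (nat_lit 16) (.two (nat_lit 16) (nat_lit 1) (nat_lit 4988) (nat_lit 16) .nil)),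
   .der (nat_lit 2323) (nat_lit 166),
   .der (nat_lit 2323) (nat_lit 396),
   .der (nat_lit 1811) (nat_lit 2950),
   .prs (.two (nat_lit 6) (nat_lit 8) (nat_lit 5781) (nat_lit 4) (.two (nat_lit 1) (nat_lit 8) (nat_lit 5782) (nat_lit 4) (.two (nat_lit 0) (nat_lit 8) (nat_lit 2141) (nat_lit 4) (.one (nat_lit 5783) (nat_lit 8) .nil)))),
   .der (nat_lit 5) (nat_lit 106),
   .der (nat_lit 129) (nat_lit 936),
   .prs (.two (nat_lit 65) (nat_lit 8) (nat_lit 5785) (nat_lit 4) (.two (nat_lit 1) (nat_lit 16) (nat_lit 5786) (nat_lit 8) (.one (nat_lit 3959) (nat_lit 4) .nil))),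
   .der (nat_lit 627) (nat_lit 31),
   .der (nat_lit 627) (nat_lit 77),
   .der (nat_lit 3) (nat_lit 2132),
   .prs (.two (nat_lit 1387) (nat_lit 16) (nat_lit 5788) (nat_lit 1) (.two (nat_lit 7) (nat_lit 16) (nat_lit 5789) (nat_lit 1) (.two (nat_lit 1) (nat_lit 4) (nat_lit 5790) (nat_lit 8) (.one (nat_lit 5020) (nat_lit 16) .nil)))),
   .der (nat_lit 83) (nat_lit 371),
   .der (nat_lit 9) (nat_lit 1707),
   .prs (.two (nat_lit 134) (nat_lit 1) (nat_lit 2225) (nat_lit 16) (.two (nat_lit 3) (nat_lit 1) (nat_lit 5792) (nat_lit 16) (.two (nat_lit 0) (nat_lit 1) (nat_lit 5793) (nat_lit 16) (.one (nat_lit 3966) (nat_lit 16) .nil)))),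
   .der (nat_lit 801) (nat_lit 128),
   .der (nat_lit 38163) (nat_lit 1909),
   .prs (.two (nat_lit 1470) (nat_lit 8) (nat_lit 280) (nat_lit 4) (.two (nat_lit 463) (nat_lit 8) (nat_lit 5795) (nat_lit 1) (.two (nat_lit 1) (nat_lit 8) (nat_lit 5796) (nat_lit 4) (.one (nat_lit 3969) (nat_lit 4) .nil)))),
   .der (nat_lit 2353) (nat_lit 640),
   .prs (.two (nat_lit 65) (nat_lit 8) (nat_lit 157) (nat_lit 16) (.two (nat_lit 46) (nat_lit 2) (nat_lit 5798) (nat_lit 8) (.one (nat_lit 3975) (nat_lit 8) .nil))),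
   .prs (.two (nat_lit 423) (nat_lit 16) (nat_lit 4976) (nat_lit 4) (.two (nat_lit 582) (nat_lit 4) (nat_lit 3423) (nat_lit 16) (.two (nat_lit 49) (nat_lit 4) (nat_lit 5609) (nat_lit 16) (.two (nat_lit 3) (nat_lit 4) (nat_lit 3109) (nat_lit 16) (.one (nat_lit 5037) (nat_lit 16) .nil))))),
   .prs (.two (nat_lit 1846) (nat_lit 8) (nat_lit 84) (nat_lit 2) (.two (nat_lit 520) (nat_lit 4) (nat_lit 1397) (nat_lit 8) (.two (nat_lit 134) (nat_lit 4) (nat_lit 864) (nat_lit 8) (.two (nat_lit 1) (nat_lit 2) (nat_lit 3133) (nat_lit 4) (.two (nat_lit 0) (nat_lit 2) (nat_lit 4013) (nat_lit 8) (.one (nat_lit 5039) (nat_lit 2) .nil)))))),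
   .der (nat_lit 1890) (nat_lit 37),
   .der (nat_lit 2433) (nat_lit 870),
   .der (nat_lit 354) (nat_lit 2192),
   .prs (.two (nat_lit 390) (nat_lit 8) (nat_lit 5802) (nat_lit 2) (.two (nat_lit 6) (nat_lit 4) (nat_lit 5803) (nat_lit 8) (.two (nat_lit 1) (nat_lit 4) (nat_lit 1399) (nat_lit 2) (.two (nat_lit 0) (nat_lit 1) (nat_lit 5804) (nat_lit 4) (.one (nat_lit 4035) (nat_lit 1) .nil))))),
   .der (nat_lit 1) (nat_lit 1399),
   .prs (.two (nat_lit 35) (nat_lit 4) (nat_lit 1970) (nat_lit 8) (.two (nat_lit 13) (nat_lit 4) (nat_lit 1722) (nat_lit 8) (.two (nat_lit 6) (nat_lit 4) (nat_lit 873) (nat_lit 8) (.two (nat_lit 7) (nat_lit 1) (nat_lit 5806) (nat_lit 2) (.two (nat_lit 3) (nat_lit 1) (nat_lit 5804) (nat_lit 4) (.two (nat_lit 0) (nat_lit 1) (nat_lit 3138) (nat_lit 2) (.one (nat_lit 3985) (nat_lit 2) .nil))))))),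
   .der (nat_lit 38163) (nat_lit 1400),
   .prs (.two (nat_lit 490) (nat_lit 2) (nat_lit 5022) (nat_lit 4) (.two (nat_lit 637) (nat_lit 2) (nat_lit 5023) (nat_lit 4) (.two (nat_lit 1) (nat_lit 2) (nat_lit 5808) (nat_lit 4) (.two (nat_lit 0) (nat_lit 2) (nat_lit 3152) (nat_lit 4) (.one (nat_lit 4038) (nat_lit 4) .nil))))),
   .der (nat_lit 1107) (nat_lit 39),
   .prs (.two (nat_lit 5810) (nat_lit 1) (nat_lit 90) (nat_lit 8) (.two (nat_lit 13) (nat_lit 4) (nat_lit 1397) (nat_lit 8) (.two (nat_lit 3643) (nat_lit 8) (nat_lit 5031) (nat_lit 4) (.two (nat_lit 3081) (nat_lit 4) (nat_lit 1400) (nat_lit 1) (.two (nat_lit 1) (nat_lit 4) (nat_lit 3141) (nat_lit 1) (.two (nat_lit 0) (nat_lit 1) (nat_lit 4016) (nat_lit 8) (.one (nat_lit 5046) (nat_lit 1) .nil))))))),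
   .der (nat_lit 834) (nat_lit 861),
   .der (nat_lit 612) (nat_lit 2186),
   .der (nat_lit 9) (nat_lit 4010),
   .prs (.two (nat_lit 676) (nat_lit 4) (nat_lit 4006) (nat_lit 8) (.two (nat_lit 2) (nat_lit 4) (nat_lit 5812) (nat_lit 8) (.two (nat_lit 0) (nat_lit 4) (nat_lit 5813) (nat_lit 8) (.one (nat_lit 5814) (nat_lit 4) .nil)))),
   .der (nat_lit 87) (nat_lit 3118),
   .prs (.two (nat_lit 80) (nat_lit 8) (nat_lit 1429) (nat_lit 4) (.two (nat_lit 34) (nat_lit 8) (nat_lit 876) (nat_lit 4) (.two (nat_lit 3) (nat_lit 1) (nat_lit 1408) (nat_lit 4) (.two (nat_lit 0) (nat_lit 16) (nat_lit 5816) (nat_lit 8) (.one (nat_lit 4039) (nat_lit 1) .nil))))),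
   .prs (.two (nat_lit 440) (nat_lit 8) (nat_lit 1127) (nat_lit 2) (.two (nat_lit 808) (nat_lit 8) (nat_lit 878) (nat_lit 2) (.two (nat_lit 34) (nat_lit 8) (nat_lit 1409) (nat_lit 2) (.two (nat_lit 1) (nat_lit 8) (nat_lit 3155) (nat_lit 2) (.two (nat_lit 0) (nat_lit 2) (nat_lit 4041) (nat_lit 8) (.one (nat_lit 5035) (nat_lit 2) .nil)))))),
   .der (nat_lit 21107) (nat_lit 73),
   .der (nat_lit 21107) (nat_lit 392),
   .der (nat_lit 38163) (nat_lit 1385),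
   .der (nat_lit 38163) (nat_lit 2171),
   .prs (.two (nat_lit 419) (nat_lit 1) (nat_lit 5819) (nat_lit 4) (.two (nat_lit 69) (nat_lit 1) (nat_lit 5820) (nat_lit 4) (.two (nat_lit 30) (nat_lit 1) (nat_lit 3143) (nat_lit 4) (.two (nat_lit 1214) (nat_lit 1) (nat_lit 5821) (nat_lit 4) (.two (nat_lit 3) (nat_lit 1) (nat_lit 5822) (nat_lit 4) (.two (nat_lit 0) (nat_lit 1) (nat_lit 3144) (nat_lit 4) (.one (nat_lit 5050) (nat_lit 4) .nil))))))),
   .der (nat_lit 2) (nat_lit 425),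
   .der (nat_lit 86) (nat_lit 2171),
   .der (nat_lit 147) (nat_lit 4002),
   .prs (.two (nat_lit 895) (nat_lit 16) (nat_lit 93) (nat_lit 2) (.two (nat_lit 122) (nat_lit 2) (nat_lit 2607) (nat_lit 16) (.two (nat_lit 723) (nat_lit 16) (nat_lit 5824) (nat_lit 1) (.two (nat_lit 439) (nat_lit 2) (nat_lit 4176) (nat_lit 16) (.two (nat_lit 1) (nat_lit 2) (nat_lit 5825) (nat_lit 16) (.two (nat_lit 0) (nat_lit 16) (nat_lit 5826) (nat_lit 1) (.one (nat_lit 5052) (nat_lit 16) .nil))))))),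
   .prs (.two (nat_lit 13) (nat_lit 8) (nat_lit 5027) (nat_lit 4) (.two (nat_lit 6) (nat_lit 4) (nat_lit 5028) (nat_lit 8) (.two (nat_lit 0) (nat_lit 1) (nat_lit 4043) (nat_lit 4) (.one (nat_lit 5029) (nat_lit 1) .nil)))),
   .der (nat_lit 21107) (nat_lit 164),
   .der (nat_lit 38163) (nat_lit 848),
   .der (nat_lit 3) (nat_lit 2194),
   .prs (.two (nat_lit 71) (nat_lit 1) (nat_lit 5829) (nat_lit 4) (.two (nat_lit 397) (nat_lit 1) (nat_lit 5830) (nat_lit 4) (.two (nat_lit 46) (nat_lit 4) (nat_lit 5831) (nat_lit 1) (.two (nat_lit 0) (nat_lit 1) (nat_lit 4045) (nat_lit 2) (.one (nat_lit 5056) (nat_lit 4) .nil))))),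
   .der (nat_lit 1620) (nat_lit 76),
   .der (nat_lit 1380) (nat_lit 417),
   .der (nat_lit 17185) (nat_lit 1399),
   .der (nat_lit 33) (nat_lit 3138),
   .prs (.two (nat_lit 825) (nat_lit 16) (nat_lit 5833) (nat_lit 1) (.two (nat_lit 723) (nat_lit 16) (nat_lit 5834) (nat_lit 1) (.two (nat_lit 3) (nat_lit 16) (nat_lit 5835) (nat_lit 1) (.two (nat_lit 0) (nat_lit 1) (nat_lit 5836) (nat_lit 16) .nil)))),
   .der (nat_lit 13345) (nat_lit 172),
   .der (nat_lit 13345) (nat_lit 827),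
   .prs (.two (nat_lit 794) (nat_lit 2) (nat_lit 5838) (nat_lit 8) (.two (nat_lit 78) (nat_lit 1) (nat_lit 5839) (nat_lit 8) (.two (nat_lit 1) (nat_lit 2) (nat_lit 2201) (nat_lit 8) (.two (nat_lit 0) (nat_lit 1) (nat_lit 2203) (nat_lit 2) (.one (nat_lit 4048) (nat_lit 1) .nil))))),
   .der (nat_lit 10) (nat_lit 867),
   .der (nat_lit 103) (nat_lit 2186),
   .prs (.two (nat_lit 717) (nat_lit 8) (nat_lit 3139) (nat_lit 2) (.two (nat_lit 456) (nat_lit 8) (nat_lit 424) (nat_lit 4) (.two (nat_lit 439) (nat_lit 8) (nat_lit 5841) (nat_lit 4) (.two (nat_lit 16) (nat_lit 16) (nat_lit 3136) (nat_lit 4) (.two (nat_lit 0) (nat_lit 16) (nat_lit 5842) (nat_lit 4) (.one (nat_lit 5057) (nat_lit 4) .nil)))))),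
   .der (nat_lit 35) (nat_lit 90),
   .prs (.two (nat_lit 880) (nat_lit 8) (nat_lit 5844) (nat_lit 4) (.two (nat_lit 676) (nat_lit 8) (nat_lit 1460) (nat_lit 4) (.two (nat_lit 882) (nat_lit 4) (nat_lit 2212) (nat_lit 1) (.two (nat_lit 519) (nat_lit 4) (nat_lit 1406) (nat_lit 1) (.two (nat_lit 3) (nat_lit 1) (nat_lit 3147) (nat_lit 8) (.two (nat_lit 0) (nat_lit 4) (nat_lit 4031) (nat_lit 8) (.one (nat_lit 5053) (nat_lit 8) .nil))))))),
   .der (nat_lit 21107) (nat_lit 72),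
   .der (nat_lit 1) (nat_lit 3996),
   .prs (.two (nat_lit 390) (nat_lit 2) (nat_lit 5846) (nat_lit 4) (.two (nat_lit 36) (nat_lit 2) (nat_lit 3776) (nat_lit 4) (.two (nat_lit 1) (nat_lit 2) (nat_lit 3994) (nat_lit 4) (.two (nat_lit 0) (nat_lit 1) (nat_lit 5847) (nat_lit 2) .nil)))),
   .der (nat_lit 87) (nat_lit 172),
   .prs (.two (nat_lit 13) (nat_lit 8) (nat_lit 4635) (nat_lit 1) (.two (nat_lit 65) (nat_lit 8) (nat_lit 5849) (nat_lit 1) (.two (nat_lit 2) (nat_lit 16) (nat_lit 3226) (nat_lit 1) (.two (nat_lit 1) (nat_lit 16) (nat_lit 1412) (nat_lit 1) (.two (nat_lit 0) (nat_lit 1) (nat_lit 4050) (nat_lit 2) (.one (nat_lit 5059) (nat_lit 1) .nil)))))),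
   .der (nat_lit 1430) (nat_lit 62),
   .der (nat_lit 34068) (nat_lit 417),
   .der (nat_lit 161) (nat_lit 1406),
   .prs (.two (nat_lit 80) (nat_lit 16) (nat_lit 5851) (nat_lit 2) (.two (nat_lit 489) (nat_lit 2) (nat_lit 1397) (nat_lit 16) (.two (nat_lit 170) (nat_lit 2) (nat_lit 5852) (nat_lit 4) (.two (nat_lit 1) (nat_lit 4) (nat_lit 5853) (nat_lit 2) (.two (nat_lit 0) (nat_lit 2) (nat_lit 4058) (nat_lit 16) (.one (nat_lit 5061) (nat_lit 2) .nil)))))),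
   .der (nat_lit 33) (nat_lit 90),
   .prs (.two (nat_lit 1554) (nat_lit 2) (nat_lit 5855) (nat_lit 8) (.two (nat_lit 44) (nat_lit 8) (nat_lit 426) (nat_lit 1) (.two (nat_lit 4) (nat_lit 2) (nat_lit 881) (nat_lit 8) (.two (nat_lit 1) (nat_lit 2) (nat_lit 1415) (nat_lit 1) (.two (nat_lit 0) (nat_lit 2) (nat_lit 4060) (nat_lit 1) (.one (nat_lit 5064) (nat_lit 1) .nil)))))),
   .der (nat_lit 10) (nat_lit 2171),
   .prs (.two (nat_lit 80) (nat_lit 8) (nat_lit 2237) (nat_lit 2) (.two (nat_lit 427) (nat_lit 2) (nat_lit 2288) (nat_lit 8) (.two (nat_lit 1) (nat_lit 2) (nat_lit 5857) (nat_lit 8) (.one (nat_lit 5067) (nat_lit 1) .nil)))),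
   .der (nat_lit 135) (nat_lit 870),
   .der (nat_lit 834) (nat_lit 2188),
   .prs (.two (nat_lit 440) (nat_lit 2) (nat_lit 3278) (nat_lit 8) (.two (nat_lit 34) (nat_lit 2) (nat_lit 5859) (nat_lit 8) (.two (nat_lit 11) (nat_lit 2) (nat_lit 5860) (nat_lit 1) (.one (nat_lit 5070) (nat_lit 1) .nil)))),
   .der (nat_lit 2339) (nat_lit 405),
   .der (nat_lit 2339) (nat_lit 1381),
   .prs (.two (nat_lit 440) (nat_lit 2) (nat_lit 3348) (nat_lit 4) (.two (nat_lit 65) (nat_lit 2) (nat_lit 5862) (nat_lit 4) (.two (nat_lit 75) (nat_lit 2) (nat_lit 5863) (nat_lit 4) (.two (nat_lit 0) (nat_lit 1) (nat_lit 3172) (nat_lit 4) (.one (nat_lit 4071) (nat_lit 1) .nil))))),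
   .der (nat_lit 165) (nat_lit 850),
   .der (nat_lit 10) (nat_lit 861),
   .der (nat_lit 1556) (nat_lit 2192),
   .der (nat_lit 801) (nat_lit 4020),
   .prs (.two (nat_lit 520) (nat_lit 8) (nat_lit 1768) (nat_lit 4) (.two (nat_lit 42) (nat_lit 4) (nat_lit 5865) (nat_lit 8) (.two (nat_lit 1) (nat_lit 4) (nat_lit 5866) (nat_lit 8) (.two (nat_lit 0) (nat_lit 4) (nat_lit 5867) (nat_lit 8) (.one (nat_lit 5868) (nat_lit 4) .nil))))),
   .der (nat_lit 145) (nat_lit 82),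
   .prs (.two (nat_lit 13) (nat_lit 8) (nat_lit 5870) (nat_lit 4) (.two (nat_lit 2) (nat_lit 8) (nat_lit 892) (nat_lit 4) (.two (nat_lit 11) (nat_lit 16) (nat_lit 4054) (nat_lit 8) (.one (nat_lit 4032) (nat_lit 4) .nil)))),
   .der (nat_lit 1554) (nat_lit 417),
   .prs (.two (nat_lit 390) (nat_lit 16) (nat_lit 4446) (nat_lit 2) (.two (nat_lit 637) (nat_lit 2) (nat_lit 5872) (nat_lit 16) (.two (nat_lit 1) (nat_lit 2) (nat_lit 3112) (nat_lit 16) .nil))),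
   .der (nat_lit 1890) (nat_lit 426),
   .der (nat_lit 7) (nat_lit 1408),
   .prs (.two (nat_lit 13) (nat_lit 8) (nat_lit 1462) (nat_lit 1) (.two (nat_lit 65) (nat_lit 8) (nat_lit 5874) (nat_lit 2) (.two (nat_lit 2) (nat_lit 16) (nat_lit 3226) (nat_lit 1) (.two (nat_lit 1) (nat_lit 8) (nat_lit 5875) (nat_lit 2) (.two (nat_lit 0) (nat_lit 1) (nat_lit 4077) (nat_lit 8) (.one (nat_lit 5071) (nat_lit 1) .nil)))))),
   .der (nat_lit 354) (nat_lit 39),
   .der (nat_lit 1073) (nat_lit 417),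
   .der (nat_lit 2) (nat_lit 1408),
   .der (nat_lit 371) (nat_lit 2192),
   .der (nat_lit 2113) (nat_lit 3122),
   .der (nat_lit 17185) (nat_lit 3985),
   .prs (.two (nat_lit 5877) (nat_lit 16) (nat_lit 680) (nat_lit 2) (.two (nat_lit 1554) (nat_lit 16) (nat_lit 5878) (nat_lit 4) (.two (nat_lit 7) (nat_lit 8) (nat_lit 5879) (nat_lit 16) (.two (nat_lit 11) (nat_lit 2) (nat_lit 5880) (nat_lit 8) (.two (nat_lit 0) (nat_lit 2) (nat_lit 5881) (nat_lit 8) (.one (nat_lit 5882) (nat_lit 4) .nil)))))),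
   .der (nat_lit 100) (nat_lit 76),
   .der (nat_lit 36) (nat_lit 530),
   .der (nat_lit 5218) (nat_lit 892),
   .der (nat_lit 1122) (nat_lit 1408),
   .der (nat_lit 1893) (nat_lit 2203),
   .der (nat_lit 5971) (nat_lit 3996),
   .prs (.two (nat_lit 390) (nat_lit 16) (nat_lit 5884) (nat_lit 2) (.two (nat_lit 91) (nat_lit 16) (nat_lit 5885) (nat_lit 4) (.two (nat_lit 202) (nat_lit 4) (nat_lit 5886) (nat_lit 16) (.two (nat_lit 1) (nat_lit 4) (nat_lit 5887) (nat_lit 16) (.two (nat_lit 0) (nat_lit 2) (nat_lit 5888) (nat_lit 4) (.one (nat_lit 5889) (nat_lit 2) .nil)))))),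
   .der (nat_lit 36) (nat_lit 74),
   .der (nat_lit 612) (nat_lit 481),
   .der (nat_lit 1) (nat_lit 2188),
   .prs (.two (nat_lit 127) (nat_lit 16) (nat_lit 5891) (nat_lit 4) (.two (nat_lit 537) (nat_lit 16) (nat_lit 5892) (nat_lit 1) (.two (nat_lit 170) (nat_lit 16) (nat_lit 5023) (nat_lit 4) (.two (nat_lit 1) (nat_lit 4) (nat_lit 4091) (nat_lit 16) (.two (nat_lit 0) (nat_lit 1) (nat_lit 5893) (nat_lit 4) (.one (nat_lit 4092) (nat_lit 1) .nil)))))),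
   .der (nat_lit 117) (nat_lit 82),
   .der (nat_lit 1415) (nat_lit 870),
   .der (nat_lit 13345) (nat_lit 2188),
   .prs (.two (nat_lit 105) (nat_lit 4) (nat_lit 5895) (nat_lit 8) (.two (nat_lit 2) (nat_lit 4) (nat_lit 5896) (nat_lit 8) (.two (nat_lit 3) (nat_lit 4) (nat_lit 5897) (nat_lit 1) (.one (nat_lit 5074) (nat_lit 1) .nil)))),
   .der (nat_lit 103) (nat_lit 417),
   .der (nat_lit 2) (nat_lit 4020),
   .prs (.two (nat_lit 440) (nat_lit 16) (nat_lit 5899) (nat_lit 8) (.two (nat_lit 1) (nat_lit 8) (nat_lit 5078) (nat_lit 16) (.one (nat_lit 5900) (nat_lit 16) .nil))),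
   .der (nat_lit 644) (nat_lit 77),
   .der (nat_lit 22548) (nat_lit 417),
   .der (nat_lit 87) (nat_lit 2186),
   .prs (.two (nat_lit 127) (nat_lit 16) (nat_lit 5902) (nat_lit 4) (.two (nat_lit 91) (nat_lit 16) (nat_lit 5903) (nat_lit 4) (.two (nat_lit 1) (nat_lit 4) (nat_lit 5904) (nat_lit 16) (.one (nat_lit 4094) (nat_lit 16) .nil)))),
   .der (nat_lit 9572) (nat_lit 110),
   .der (nat_lit 1430) (nat_lit 549),
   .der (nat_lit 2) (nat_lit 1385),
   .der (nat_lit 2) (nat_lit 2171),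
   .prs (.two (nat_lit 440) (nat_lit 16) (nat_lit 5906) (nat_lit 2) (.two (nat_lit 1459) (nat_lit 16) (nat_lit 5907) (nat_lit 2) (.two (nat_lit 433) (nat_lit 2) (nat_lit 5908) (nat_lit 16) (.two (nat_lit 0) (nat_lit 2) (nat_lit 5909) (nat_lit 16) (.one (nat_lit 3239) (nat_lit 16) .nil))))),
   .der (nat_lit 10305) (nat_lit 73),
   .prs (.two (nat_lit 825) (nat_lit 16) (nat_lit 5911) (nat_lit 4) (.two (nat_lit 918) (nat_lit 4) (nat_lit 3226) (nat_lit 16) (.two (nat_lit 3) (nat_lit 4) (nat_lit 3229) (nat_lit 16) .nil))),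
   .der (nat_lit 1074) (nat_lit 1030),
   .der (nat_lit 1107) (nat_lit 3220),
   .prs (.two (nat_lit 13) (nat_lit 8) (nat_lit 1439) (nat_lit 1) (.two (nat_lit 129) (nat_lit 4) (nat_lit 1036) (nat_lit 1) (.two (nat_lit 68) (nat_lit 2) (nat_lit 5913) (nat_lit 1) (.two (nat_lit 3) (nat_lit 4) (nat_lit 2209) (nat_lit 2) (.two (nat_lit 0) (nat_lit 8) (nat_lit 5914) (nat_lit 4) (.one (nat_lit 5113) (nat_lit 4) .nil)))))),
   .der (nat_lit 161) (nat_lit 897),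
   .prs (.two (nat_lit 520) (nat_lit 4) (nat_lit 4107) (nat_lit 1) (.two (nat_lit 129) (nat_lit 8) (nat_lit 3298) (nat_lit 1) (.two (nat_lit 2) (nat_lit 8) (nat_lit 5916) (nat_lit 2) (.two (nat_lit 1) (nat_lit 2) (nat_lit 3241) (nat_lit 1) (.two (nat_lit 0) (nat_lit 8) (nat_lit 3243) (nat_lit 1) (.one (nat_lit 4145) (nat_lit 8) .nil)))))),
   .der (nat_lit 9) (nat_lit 67),
   .der (nat_lit 1) (nat_lit 955),
   .prs (.two (nat_lit 676) (nat_lit 8) (nat_lit 5918) (nat_lit 4) (.two (nat_lit 6) (nat_lit 8) (nat_lit 4114) (nat_lit 2) (.two (nat_lit 720) (nat_lit 4) (nat_lit 5919) (nat_lit 2) (.two (nat_lit 11) (nat_lit 2) (nat_lit 2335) (nat_lit 4) (.two (nat_lit 0) (nat_lit 1) (nat_lit 4146) (nat_lit 2) (.one (nat_lit 4149) (nat_lit 8) .nil)))))),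
   .der (nat_lit 49) (nat_lit 67),
   .der (nat_lit 2353) (nat_lit 497),
   .der (nat_lit 50) (nat_lit 848),
   .prs (.two (nat_lit 462) (nat_lit 4) (nat_lit 5921) (nat_lit 16) (.two (nat_lit 53) (nat_lit 4) (nat_lit 5922) (nat_lit 16) (.two (nat_lit 206) (nat_lit 4) (nat_lit 5923) (nat_lit 16) (.two (nat_lit 1) (nat_lit 4) (nat_lit 5909) (nat_lit 16) (.one (nat_lit 3245) (nat_lit 16) .nil))))),
   .der (nat_lit 145) (nat_lit 421),
   .prs (.two (nat_lit 794) (nat_lit 2) (nat_lit 5925) (nat_lit 4) (.two (nat_lit 3) (nat_lit 4) (nat_lit 3266) (nat_lit 1) (.two (nat_lit 0) (nat_lit 1) (nat_lit 4158) (nat_lit 4) (.one (nat_lit 5115) (nat_lit 4) .nil)))),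
   .der (nat_lit 2) (nat_lit 3116),
   .prs (.two (nat_lit 1554) (nat_lit 16) (nat_lit 4446) (nat_lit 2) (.two (nat_lit 1259) (nat_lit 2) (nat_lit 1713) (nat_lit 16) (.two (nat_lit 1) (nat_lit 2) (nat_lit 5927) (nat_lit 16) .nil))),
   .der (nat_lit 21107) (nat_lit 74),
   .der (nat_lit 2323) (nat_lit 417),
   .der (nat_lit 8) (nat_lit 3132),
   .prs (.two (nat_lit 13) (nat_lit 8) (nat_lit 5929) (nat_lit 4) (.two (nat_lit 42) (nat_lit 8) (nat_lit 5930) (nat_lit 4) (.two (nat_lit 1) (nat_lit 4) (nat_lit 5028) (nat_lit 8) (.two (nat_lit 0) (nat_lit 1) (nat_lit 5931) (nat_lit 4) (.one (nat_lit 5116) (nat_lit 1) .nil))))),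
   .der (nat_lit 561) (nat_lit 425),
   .der (nat_lit 129) (nat_lit 3122),
   .prs (.two (nat_lit 32) (nat_lit 16) (nat_lit 5906) (nat_lit 1) (.two (nat_lit 1387) (nat_lit 16) (nat_lit 5933) (nat_lit 1) (.two (nat_lit 1) (nat_lit 8) (nat_lit 5934) (nat_lit 16) .nil))),
   .der (nat_lit 2193) (nat_lit 1033),
   .der (nat_lit 129) (nat_lit 2291),
   .der (nat_lit 1556) (nat_lit 3233),
   .prs (.two (nat_lit 13) (nat_lit 8) (nat_lit 1816) (nat_lit 4) (.two (nat_lit 75) (nat_lit 2) (nat_lit 5936) (nat_lit 4) (.two (nat_lit 1) (nat_lit 2) (nat_lit 5937) (nat_lit 1) (.two (nat_lit 0) (nat_lit 4) (nat_lit 5938) (nat_lit 1) (.one (nat_lit 5119) (nat_lit 4) .nil))))),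
   .der (nat_lit 26386) (nat_lit 499),
   .der (nat_lit 86) (nat_lit 3175),
   .prs (.two (nat_lit 520) (nat_lit 8) (nat_lit 5940) (nat_lit 1) (.two (nat_lit 433) (nat_lit 1) (nat_lit 4173) (nat_lit 4) (.two (nat_lit 1) (nat_lit 8) (nat_lit 2339) (nat_lit 1) (.two (nat_lit 0) (nat_lit 4) (nat_lit 5941) (nat_lit 8) (.one (nat_lit 5124) (nat_lit 8) .nil))))),
   .der (nat_lit 83) (nat_lit 84),
   .der (nat_lit 26386) (nat_lit 1033),
   .der (nat_lit 86) (nat_lit 1400),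
   .der (nat_lit 1430) (nat_lit 3166),
   .prs (.two (nat_lit 145) (nat_lit 4) (nat_lit 5943) (nat_lit 1) (.two (nat_lit 489) (nat_lit 4) (nat_lit 5110) (nat_lit 2) (.two (nat_lit 17) (nat_lit 4) (nat_lit 5944) (nat_lit 2) (.two (nat_lit 1) (nat_lit 2) (nat_lit 5945) (nat_lit 1) (.two (nat_lit 0) (nat_lit 1) (nat_lit 5946) (nat_lit 2) (.one (nat_lit 5129) (nat_lit 1) .nil)))))),
   .der (nat_lit 354) (nat_lit 4126),
   .prs (.two (nat_lit 742) (nat_lit 2) (nat_lit 1394) (nat_lit 16) (.two (nat_lit 308) (nat_lit 2) (nat_lit 3115) (nat_lit 16) (.two (nat_lit 0) (nat_lit 1) (nat_lit 5948) (nat_lit 16) .nil))),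
   .der (nat_lit 103) (nat_lit 73),
   .der (nat_lit 5) (nat_lit 864),
   .der (nat_lit 5) (nat_lit 2171),
   .prs (.two (nat_lit 33) (nat_lit 16) (nat_lit 5950) (nat_lit 8) (.two (nat_lit 122) (nat_lit 8) (nat_lit 1440) (nat_lit 16) (.two (nat_lit 543) (nat_lit 8) (nat_lit 5951) (nat_lit 16) (.two (nat_lit 1) (nat_lit 8) (nat_lit 5952) (nat_lit 16) (.two (nat_lit 0) (nat_lit 8) (nat_lit 3236) (nat_lit 16) (.one (nat_lit 5107) (nat_lit 16) .nil)))))),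
   .prs (.two (nat_lit 676) (nat_lit 8) (nat_lit 2451) (nat_lit 4) (.two (nat_lit 6) (nat_lit 8) (nat_lit 4114) (nat_lit 2) (.two (nat_lit 720) (nat_lit 4) (nat_lit 5919) (nat_lit 2) (.two (nat_lit 11) (nat_lit 2) (nat_lit 2343) (nat_lit 4) (.two (nat_lit 0) (nat_lit 8) (nat_lit 3255) (nat_lit 2) (.one (nat_lit 4149) (nat_lit 8) .nil)))))),
   .der (nat_lit 1074) (nat_lit 192),
   .der (nat_lit 1810) (nat_lit 421),
   .prs (.two (nat_lit 13) (nat_lit 8) (nat_lit 5955) (nat_lit 2) (.two (nat_lit 463) (nat_lit 8) (nat_lit 5956) (nat_lit 2) (.two (nat_lit 1) (nat_lit 4) (nat_lit 1539) (nat_lit 2) (.two (nat_lit 0) (nat_lit 8) (nat_lit 4160) (nat_lit 4) (.one (nat_lit 5135) (nat_lit 4) .nil))))),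
   .der (nat_lit 1556) (nat_lit 126),
   .der (nat_lit 150) (nat_lit 545),
   .der (nat_lit 6) (nat_lit 1438),
   .prs (.two (nat_lit 440) (nat_lit 8) (nat_lit 5958) (nat_lit 4) (.two (nat_lit 543) (nat_lit 8) (nat_lit 5959) (nat_lit 4) (.two (nat_lit 14) (nat_lit 8) (nat_lit 5960) (nat_lit 4) (.two (nat_lit 0) (nat_lit 8) (nat_lit 4164) (nat_lit 4) (.one (nat_lit 5138) (nat_lit 4) .nil))))),
   .prs (.two (nat_lit 13) (nat_lit 8) (nat_lit 5238) (nat_lit 2) (.two (nat_lit 202) (nat_lit 8) (nat_lit 3242) (nat_lit 2) (.two (nat_lit 3) (nat_lit 4) (nat_lit 5086) (nat_lit 2) (.two (nat_lit 0) (nat_lit 8) (nat_lit 4167) (nat_lit 2) (.one (nat_lit 5142) (nat_lit 4) .nil))))),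
   .der (nat_lit 9) (nat_lit 907),
   .der (nat_lit 1) (nat_lit 3241),
   .prs (.two (nat_lit 520) (nat_lit 4) (nat_lit 1947) (nat_lit 1) (.two (nat_lit 129) (nat_lit 8) (nat_lit 1559) (nat_lit 1) (.two (nat_lit 2) (nat_lit 8) (nat_lit 5963) (nat_lit 2) (.two (nat_lit 1) (nat_lit 2) (nat_lit 5964) (nat_lit 1) (.two (nat_lit 0) (nat_lit 2) (nat_lit 3258) (nat_lit 4) (.one (nat_lit 4170) (nat_lit 8) .nil)))))),
   .der (nat_lit 1074) (nat_lit 229),
   .der (nat_lit 132) (nat_lit 82),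
   .der (nat_lit 50) (nat_lit 897),
   .der (nat_lit 1300) (nat_lit 1396),
   .prs (.two (nat_lit 32) (nat_lit 8) (nat_lit 5966) (nat_lit 4) (.two (nat_lit 91) (nat_lit 2) (nat_lit 5967) (nat_lit 4) (.two (nat_lit 325) (nat_lit 16) (nat_lit 5968) (nat_lit 4) (.two (nat_lit 1) (nat_lit 2) (nat_lit 5969) (nat_lit 8) (.two (nat_lit 0) (nat_lit 16) (nat_lit 3261) (nat_lit 2) (.one (nat_lit 5146) (nat_lit 2) .nil)))))),
   .der (nat_lit 26386) (nat_lit 1431),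
   .der (nat_lit 1811) (nat_lit 2247),
   .prs (.two (nat_lit 105) (nat_lit 4) (nat_lit 4421) (nat_lit 1) (.two (nat_lit 2) (nat_lit 16) (nat_lit 5971) (nat_lit 1) (.two (nat_lit 0) (nat_lit 16) (nat_lit 5972) (nat_lit 1) (.one (nat_lit 5151) (nat_lit 4) .nil)))),
   .der (nat_lit 340) (nat_lit 72),
   .der (nat_lit 26386) (nat_lit 481),
   .prs (.two (nat_lit 717) (nat_lit 16) (nat_lit 5974) (nat_lit 2) (.two (nat_lit 1259) (nat_lit 2) (nat_lit 5975) (nat_lit 16) (.two (nat_lit 206) (nat_lit 2) (nat_lit 3238) (nat_lit 16) (.two (nat_lit 1) (nat_lit 2) (nat_lit 5909) (nat_lit 16) (.one (nat_lit 3239) (nat_lit 16) .nil))))),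
   .prs (.two (nat_lit 520) (nat_lit 4) (nat_lit 1947) (nat_lit 1) (.two (nat_lit 129) (nat_lit 8) (nat_lit 1559) (nat_lit 1) (.two (nat_lit 2) (nat_lit 8) (nat_lit 5963) (nat_lit 2) (.two (nat_lit 46) (nat_lit 4) (nat_lit 4125) (nat_lit 1) (.two (nat_lit 0) (nat_lit 8) (nat_lit 4174) (nat_lit 1) (.one (nat_lit 4170) (nat_lit 8) .nil)))))),
   .der (nat_lit 1415) (nat_lit 169),
   .der (nat_lit 145) (nat_lit 967),
   .der (nat_lit 86) (nat_lit 2271),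
   .der (nat_lit 5) (nat_lit 4134),
   .prs (.two (nat_lit 520) (nat_lit 4) (nat_lit 4155) (nat_lit 1) (.two (nat_lit 42) (nat_lit 4) (nat_lit 5978) (nat_lit 2) (.two (nat_lit 2) (nat_lit 4) (nat_lit 5979) (nat_lit 2) (.two (nat_lit 46) (nat_lit 2) (nat_lit 5980) (nat_lit 1) (.two (nat_lit 0) (nat_lit 2) (nat_lit 3267) (nat_lit 4) (.one (nat_lit 5981) (nat_lit 4) .nil)))))),
   .prs (.two (nat_lit 13) (nat_lit 8) (nat_lit 2461) (nat_lit 4) (.two (nat_lit 456) (nat_lit 8) (nat_lit 3993) (nat_lit 4) (.two (nat_lit 1) (nat_lit 4) (nat_lit 5028) (nat_lit 8) (.two (nat_lit 0) (nat_lit 2) (nat_lit 4130) (nat_lit 8) (.one (nat_lit 5155) (nat_lit 8) .nil))))),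
   .der (nat_lit 1653) (nat_lit 472),
   .der (nat_lit 16738) (nat_lit 1406),
   .prs (.two (nat_lit 13) (nat_lit 16) (nat_lit 5950) (nat_lit 8) (.two (nat_lit 543) (nat_lit 8) (nat_lit 5984) (nat_lit 16) (.two (nat_lit 740) (nat_lit 16) (nat_lit 5985) (nat_lit 1) (.two (nat_lit 0) (nat_lit 1) (nat_lit 5893) (nat_lit 8) (.one (nat_lit 4178) (nat_lit 8) .nil))))),
   .der (nat_lit 2593) (nat_lit 73),
   .der (nat_lit 101) (nat_lit 1438),
   .prs (.two (nat_lit 13) (nat_lit 8) (nat_lit 5987) (nat_lit 1) (.two (nat_lit 956) (nat_lit 4) (nat_lit 1036) (nat_lit 1) (.two (nat_lit 2) (nat_lit 8) (nat_lit 1041) (nat_lit 4) (.two (nat_lit 3) (nat_lit 8) (nat_lit 5988) (nat_lit 4) (.two (nat_lit 0) (nat_lit 8) (nat_lit 3270) (nat_lit 4) (.one (nat_lit 5156) (nat_lit 4) .nil)))))),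
   .der (nat_lit 1554) (nat_lit 876),
   .der (nat_lit 1650) (nat_lit 1415),
   .prs (.two (nat_lit 38) (nat_lit 8) (nat_lit 4244) (nat_lit 2) (.two (nat_lit 384) (nat_lit 8) (nat_lit 5990) (nat_lit 2) (.two (nat_lit 11) (nat_lit 8) (nat_lit 5991) (nat_lit 4) (.two (nat_lit 0) (nat_lit 4) (nat_lit 3273) (nat_lit 8) (.one (nat_lit 5159) (nat_lit 8) .nil))))),
   .der (nat_lit 1107) (nat_lit 524),
   .prs (.two (nat_lit 1239) (nat_lit 2) (nat_lit 5993) (nat_lit 8) (.two (nat_lit 622) (nat_lit 2) (nat_lit 1542) (nat_lit 8) (.two (nat_lit 11) (nat_lit 2) (nat_lit 2346) (nat_lit 8) (.two (nat_lit 0) (nat_lit 2) (nat_lit 4184) (nat_lit 8) (.one (nat_lit 5162) (nat_lit 2) .nil))))),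
   .der (nat_lit 10) (nat_lit 824),
   .der (nat_lit 101) (nat_lit 2222),
   .der (nat_lit 8) (nat_lit 4028),
   .prs (.two (nat_lit 676) (nat_lit 4) (nat_lit 3278) (nat_lit 8) (.two (nat_lit 2) (nat_lit 4) (nat_lit 5995) (nat_lit 8) (.two (nat_lit 1) (nat_lit 4) (nat_lit 5996) (nat_lit 8) (.two (nat_lit 0) (nat_lit 4) (nat_lit 3276) (nat_lit 8) (.one (nat_lit 5997) (nat_lit 4) .nil))))),
   .der (nat_lit 10545) (nat_lit 506)]

theorem b5_step11 (h : ∀ j < 5500, Good b5T j) : ∀ j < 6000, Good b5T j := by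
  intro j hj
  refine chkL_ok b5C11 5500 h (by decide +kernel) j ?_
  have h : b5C11.length = 500 := by decide +kernel
  omega


end Tab

end Pool.Agent.Work.MP_bf01b2_co.MR
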