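import Pool.Agent.Work.MP_bf01b2_co.MR.B5T

set_option maxRecDepth 100000

namespace Pool.Agent.Work.MP_bf01b2_co.MR

namespace Tab

/-- certificates 6000..6500 -/
def b5C12 : List Cf :=
  [.prs (.two (nat_lit 1113) (nat_lit 2) (nat_lit 582) (nat_lit 1) (.two (nat_lit 65) (nat_lit 2) (nat_lit 1574) (nat_lit 8) (.two (nat_lit 2) (nat_lit 16) (nat_lit 5999) (nat_lit 2) (.two (nat_lit 3) (nat_lit 8) (nat_lit 1553) (nat_lit 1) (.two (nat_lit 0) (nat_lit 1) (nat_lit 2363) (nat_lit 8) (.one (nat_lit 5164) (nat_lit 8) .nil)))))),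
   .der (nat_lit 852) (nat_lit 1446),
   .prs (.two (nat_lit 94) (nat_lit 2) (nat_lit 3208) (nat_lit 4) (.two (nat_lit 427) (nat_lit 2) (nat_lit 3143) (nat_lit 4) (.two (nat_lit 1) (nat_lit 2) (nat_lit 6001) (nat_lit 4) (.two (nat_lit 0) (nat_lit 1) (nat_lit 3279) (nat_lit 4) (.one (nat_lit 5163) (nat_lit 4) .nil))))),
   .der (nat_lit 24916) (nat_lit 405),
   .der (nat_lit 834) (nat_lit 834),
   .der (nat_lit 101) (nat_lit 2224),
   .prs (.two (nat_lit 105) (nat_lit 4) (nat_lit 6003) (nat_lit 8) (.two (nat_lit 2) (nat_lit 4) (nat_lit 6004) (nat_lit 8) (.two (nat_lit 1) (nat_lit 4) (nat_lit 6005) (nat_lit 8) (.two (nat_lit 0) (nat_lit 4) (nat_lit 3344) (nat_lit 8) (.one (nat_lit 5194) (nat_lit 8) .nil))))),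
   .der (nat_lit 103) (nat_lit 401),
   .der (nat_lit 1653) (nat_lit 861),
   .der (nat_lit 161) (nat_lit 2192),
   .der (nat_lit 6) (nat_lit 4099),
   .prs (.two (nat_lit 676) (nat_lit 4) (nat_lit 6007) (nat_lit 8) (.two (nat_lit 2) (nat_lit 4) (nat_lit 6008) (nat_lit 8) (.two (nat_lit 0) (nat_lit 4) (nat_lit 6009) (nat_lit 8) (.one (nat_lit 6010) (nat_lit 4) .nil)))),
   .der (nat_lit 24916) (nat_lit 417),
   .der (nat_lit 10) (nat_lit 1399),
   .der (nat_lit 66) (nat_lit 3132),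
   .prs (.two (nat_lit 69) (nat_lit 16) (nat_lit 2473) (nat_lit 8) (.two (nat_lit 44) (nat_lit 16) (nat_lit 6012) (nat_lit 8) (.two (nat_lit 3) (nat_lit 16) (nat_lit 6013) (nat_lit 8) (.two (nat_lit 0) (nat_lit 2) (nat_lit 6014) (nat_lit 8) (.one (nat_lit 4242) (nat_lit 8) .nil))))),
   .der (nat_lit 339) (nat_lit 572),
   .der (nat_lit 152) (nat_lit 421),
   .der (nat_lit 152) (nat_lit 864),
   .prs (.two (nat_lit 509) (nat_lit 4) (nat_lit 2541) (nat_lit 8) (.two (nat_lit 167) (nat_lit 1) (nat_lit 6016) (nat_lit 4) (.two (nat_lit 4) (nat_lit 8) (nat_lit 6017) (nat_lit 4) (.two (nat_lit 1) (nat_lit 8) (nat_lit 6018) (nat_lit 4) (.two (nat_lit 0) (nat_lit 1) (nat_lit 3347) (nat_lit 8) (.one (nat_lit 5197) (nat_lit 8) .nil)))))),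
   .der (nat_lit 165) (nat_lit 1076),
   .der (nat_lit 1810) (nat_lit 2332),
   .prs (.two (nat_lit 794) (nat_lit 2) (nat_lit 2473) (nat_lit 8) (.two (nat_lit 489) (nat_lit 2) (nat_lit 6020) (nat_lit 8) (.two (nat_lit 1) (nat_lit 2) (nat_lit 6008) (nat_lit 8) (.two (nat_lit 0) (nat_lit 1) (nat_lit 6021) (nat_lit 8) (.one (nat_lit 4246) (nat_lit 1) .nil))))),
   .der (nat_lit 2353) (nat_lit 169),
   .der (nat_lit 1300) (nat_lit 1542),
   .der (nat_lit 1299) (nat_lit 1400),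
   .der (nat_lit 339) (nat_lit 3296),
   .prs (.two (nat_lit 97) (nat_lit 1) (nat_lit 3335) (nat_lit 4) (.two (nat_lit 124) (nat_lit 1) (nat_lit 6023) (nat_lit 4) (.two (nat_lit 622) (nat_lit 1) (nat_lit 6024) (nat_lit 8) (.two (nat_lit 46) (nat_lit 1) (nat_lit 6025) (nat_lit 8) (.two (nat_lit 0) (nat_lit 4) (nat_lit 6026) (nat_lit 8) (.one (nat_lit 4249) (nat_lit 8) .nil)))))),
   .der (nat_lit 86) (nat_lit 446),
   .der (nat_lit 7) (nat_lit 3118),
   .prs (.two (nat_lit 676) (nat_lit 4) (nat_lit 6028) (nat_lit 2) (.two (nat_lit 2) (nat_lit 4) (nat_lit 1564) (nat_lit 2) (.two (nat_lit 1) (nat_lit 4) (nat_lit 3608) (nat_lit 2) (.two (nat_lit 0) (nat_lit 1) (nat_lit 6029) (nat_lit 4) (.one (nat_lit 4252) (nat_lit 4) .nil))))),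
   .der (nat_lit 137) (nat_lit 172),
   .der (nat_lit 162) (nat_lit 417),
   .der (nat_lit 137) (nat_lit 2227),
   .prs (.two (nat_lit 390) (nat_lit 8) (nat_lit 6031) (nat_lit 4) (.two (nat_lit 34) (nat_lit 8) (nat_lit 6032) (nat_lit 1) (.two (nat_lit 1) (nat_lit 8) (nat_lit 6033) (nat_lit 2) (.one (nat_lit 5201) (nat_lit 2) .nil)))),
   .der (nat_lit 26386) (nat_lit 631),
   .der (nat_lit 5716) (nat_lit 1448),
   .prs (.two (nat_lit 32) (nat_lit 8) (nat_lit 6035) (nat_lit 4) (.two (nat_lit 170) (nat_lit 2) (nat_lit 4230) (nat_lit 4) (.two (nat_lit 11) (nat_lit 8) (nat_lit 6036) (nat_lit 2) (.two (nat_lit 0) (nat_lit 2) (nat_lit 3350) (nat_lit 8) (.one (nat_lit 5203) (nat_lit 8) .nil))))),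
   .der (nat_lit 2353) (nat_lit 35),
   .der (nat_lit 33) (nat_lit 2373),
   .prs (.two (nat_lit 13) (nat_lit 8) (nat_lit 6038) (nat_lit 4) (.two (nat_lit 6) (nat_lit 8) (nat_lit 6023) (nat_lit 4) (.two (nat_lit 2) (nat_lit 8) (nat_lit 3337) (nat_lit 4) (.two (nat_lit 11) (nat_lit 8) (nat_lit 6039) (nat_lit 4) (.two (nat_lit 0) (nat_lit 16) (nat_lit 2205) (nat_lit 8) (.one (nat_lit 4254) (nat_lit 8) .nil)))))),
   .der (nat_lit 1395) (nat_lit 35),
   .der (nat_lit 2353) (nat_lit 172),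
   .der (nat_lit 2353) (nat_lit 834),
   .prs (.two (nat_lit 13) (nat_lit 16) (nat_lit 6041) (nat_lit 4) (.two (nat_lit 6) (nat_lit 16) (nat_lit 6042) (nat_lit 4) (.two (nat_lit 2) (nat_lit 16) (nat_lit 6043) (nat_lit 4) (.two (nat_lit 1) (nat_lit 4) (nat_lit 2464) (nat_lit 16) (.two (nat_lit 0) (nat_lit 4) (nat_lit 4257) (nat_lit 1) (.one (nat_lit 5209) (nat_lit 1) .nil)))))),
   .der (nat_lit 101) (nat_lit 4170),
   .prs (.two (nat_lit 440) (nat_lit 8) (nat_lit 1857) (nat_lit 4) (.two (nat_lit 227) (nat_lit 8) (nat_lit 3693) (nat_lit 2) (.two (nat_lit 34) (nat_lit 8) (nat_lit 5185) (nat_lit 2) (.two (nat_lit 1) (nat_lit 8) (nat_lit 5186) (nat_lit 4) (.one (nat_lit 6045) (nat_lit 8) .nil))))),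
   .der (nat_lit 150) (nat_lit 169),
   .der (nat_lit 2390) (nat_lit 827),
   .prs (.two (nat_lit 390) (nat_lit 2) (nat_lit 1671) (nat_lit 4) (.two (nat_lit 791) (nat_lit 2) (nat_lit 6047) (nat_lit 4) (.two (nat_lit 170) (nat_lit 2) (nat_lit 6048) (nat_lit 4) (.two (nat_lit 1) (nat_lit 2) (nat_lit 1647) (nat_lit 4) (.two (nat_lit 0) (nat_lit 2) (nat_lit 4261) (nat_lit 4) (.one (nat_lit 4263) (nat_lit 2) .nil)))))),
   .der (nat_lit 1810) (nat_lit 82),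
   .der (nat_lit 1893) (nat_lit 1469),
   .der (nat_lit 86) (nat_lit 1647),
   .der (nat_lit 5) (nat_lit 4032),
   .prs (.two (nat_lit 13) (nat_lit 8) (nat_lit 6050) (nat_lit 2) (.two (nat_lit 2) (nat_lit 8) (nat_lit 6051) (nat_lit 2) (.two (nat_lit 1) (nat_lit 8) (nat_lit 6052) (nat_lit 2) (.two (nat_lit 0) (nat_lit 2) (nat_lit 4268) (nat_lit 8) (.one (nat_lit 6053) (nat_lit 2) .nil))))),
   .der (nat_lit 147) (nat_lit 77),
   .der (nat_lit 10305) (nat_lit 472),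
   .prs (.two (nat_lit 509) (nat_lit 8) (nat_lit 6055) (nat_lit 4) (.two (nat_lit 329) (nat_lit 4) (nat_lit 6056) (nat_lit 8) (.two (nat_lit 1) (nat_lit 4) (nat_lit 3339) (nat_lit 8) (.one (nat_lit 2487) (nat_lit 8) .nil)))),
   .der (nat_lit 36) (nat_lit 70),
   .der (nat_lit 1) (nat_lit 3109),
   .prs (.two (nat_lit 676) (nat_lit 16) (nat_lit 6058) (nat_lit 4) (.two (nat_lit 49) (nat_lit 4) (nat_lit 5562) (nat_lit 16) (.two (nat_lit 0) (nat_lit 4) (nat_lit 6059) (nat_lit 16) .nil))),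
   .der (nat_lit 10) (nat_lit 881),
   .der (nat_lit 26386) (nat_lit 861),
   .der (nat_lit 87) (nat_lit 2332),
   .der (nat_lit 26386) (nat_lit 4013),
   .der (nat_lit 7) (nat_lit 5171),
   .prs (.two (nat_lit 3774) (nat_lit 4) (nat_lit 868) (nat_lit 2) (.two (nat_lit 520) (nat_lit 4) (nat_lit 82) (nat_lit 16) (.two (nat_lit 227) (nat_lit 2) (nat_lit 6061) (nat_lit 16) (.two (nat_lit 170) (nat_lit 16) (nat_lit 6062) (nat_lit 2) (.two (nat_lit 1) (nat_lit 2) (nat_lit 6063) (nat_lit 4) (.two (nat_lit 0) (nat_lit 4) (nat_lit 6064) (nat_lit 2) (.one (nat_lit 6065) (nat_lit 4) .nil))))))),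
   .der (nat_lit 16738) (nat_lit 77),
   .der (nat_lit 16738) (nat_lit 396),
   .der (nat_lit 2135) (nat_lit 417),
   .der (nat_lit 12658) (nat_lit 1400),
   .der (nat_lit 577) (nat_lit 3144),
   .prs (.two (nat_lit 3366) (nat_lit 8) (nat_lit 6067) (nat_lit 1) (.two (nat_lit 462) (nat_lit 8) (nat_lit 6068) (nat_lit 1) (.two (nat_lit 44) (nat_lit 1) (nat_lit 6069) (nat_lit 8) (.two (nat_lit 1024) (nat_lit 1) (nat_lit 6070) (nat_lit 8) (.two (nat_lit 46) (nat_lit 8) (nat_lit 6071) (nat_lit 1) (.one (nat_lit 5220) (nat_lit 1) .nil)))))),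
   .der (nat_lit 7) (nat_lit 67),
   .der (nat_lit 18) (nat_lit 861),
   .der (nat_lit 29011) (nat_lit 3340),
   .der (nat_lit 33345) (nat_lit 4252),
   .prs (.two (nat_lit 717) (nat_lit 16) (nat_lit 6073) (nat_lit 2) (.two (nat_lit 427) (nat_lit 2) (nat_lit 6074) (nat_lit 16) (.two (nat_lit 0) (nat_lit 1) (nat_lit 6075) (nat_lit 2) (.one (nat_lit 6076) (nat_lit 1) .nil)))),
   .der (nat_lit 2593) (nat_lit 3116),
   .prs (.two (nat_lit 38) (nat_lit 8) (nat_lit 2212) (nat_lit 16) (.two (nat_lit 3) (nat_lit 16) (nat_lit 6078) (nat_lit 8) .nil)),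
   .der (nat_lit 30226) (nat_lit 287),
   .der (nat_lit 1556) (nat_lit 589),
   .der (nat_lit 1893) (nat_lit 1577),
   .prs (.two (nat_lit 418) (nat_lit 1) (nat_lit 6080) (nat_lit 4) (.two (nat_lit 543) (nat_lit 4) (nat_lit 6081) (nat_lit 8) (.two (nat_lit 75) (nat_lit 2) (nat_lit 6082) (nat_lit 4) (.two (nat_lit 3) (nat_lit 8) (nat_lit 2524) (nat_lit 4) (.two (nat_lit 0) (nat_lit 2) (nat_lit 4346) (nat_lit 1) (.one (nat_lit 5256) (nat_lit 2) .nil)))))),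
   .der (nat_lit 2433) (nat_lit 93),
   .der (nat_lit 612) (nat_lit 1579),
   .der (nat_lit 801) (nat_lit 2427),
   .der (nat_lit 37425) (nat_lit 3120),
   .prs (.two (nat_lit 80) (nat_lit 8) (nat_lit 6084) (nat_lit 1) (.two (nat_lit 543) (nat_lit 4) (nat_lit 6081) (nat_lit 8) (.two (nat_lit 75) (nat_lit 2) (nat_lit 6085) (nat_lit 4) (.two (nat_lit 1) (nat_lit 2) (nat_lit 6086) (nat_lit 4) (.two (nat_lit 0) (nat_lit 4) (nat_lit 6087) (nat_lit 2) (.one (nat_lit 5260) (nat_lit 2) .nil)))))),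
   .der (nat_lit 644) (nat_lit 67),
   .der (nat_lit 356) (nat_lit 495),
   .der (nat_lit 37425) (nat_lit 845),
   .prs (.two (nat_lit 440) (nat_lit 8) (nat_lit 6089) (nat_lit 4) (.two (nat_lit 65) (nat_lit 8) (nat_lit 6090) (nat_lit 4) (.two (nat_lit 1068) (nat_lit 1) (nat_lit 6091) (nat_lit 4) (.two (nat_lit 3) (nat_lit 1) (nat_lit 2526) (nat_lit 8) (.two (nat_lit 0) (nat_lit 1) (nat_lit 4348) (nat_lit 8) (.one (nat_lit 5263) (nat_lit 1) .nil)))))),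
   .der (nat_lit 612) (nat_lit 405),
   .der (nat_lit 19) (nat_lit 864),
   .der (nat_lit 354) (nat_lit 2220),
   .prs (.two (nat_lit 794) (nat_lit 16) (nat_lit 6093) (nat_lit 4) (.two (nat_lit 2) (nat_lit 4) (nat_lit 6094) (nat_lit 16) (.two (nat_lit 0) (nat_lit 4) (nat_lit 6095) (nat_lit 16) (.one (nat_lit 5265) (nat_lit 16) .nil)))),
   .der (nat_lit 101) (nat_lit 1377),
   .prs (.two (nat_lit 794) (nat_lit 16) (nat_lit 3675) (nat_lit 4) (.two (nat_lit 2) (nat_lit 4) (nat_lit 6097) (nat_lit 16) (.two (nat_lit 0) (nat_lit 4) (nat_lit 4350) (nat_lit 16) (.one (nat_lit 5275) (nat_lit 4) .nil)))),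
   .der (nat_lit 1122) (nat_lit 1022),
   .der (nat_lit 1299) (nat_lit 2396),
   .prs (.two (nat_lit 145) (nat_lit 4) (nat_lit 2745) (nat_lit 1) (.two (nat_lit 91) (nat_lit 4) (nat_lit 3148) (nat_lit 1) (.two (nat_lit 623) (nat_lit 4) (nat_lit 6099) (nat_lit 1) (.two (nat_lit 11) (nat_lit 8) (nat_lit 6100) (nat_lit 2) (.two (nat_lit 0) (nat_lit 4) (nat_lit 3400) (nat_lit 2) (.one (nat_lit 4352) (nat_lit 4) .nil)))))),
   .der (nat_lit 84) (nat_lit 451),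
   .der (nat_lit 6) (nat_lit 2339),
   .prs (.two (nat_lit 13) (nat_lit 8) (nat_lit 3129) (nat_lit 2) (.two (nat_lit 65) (nat_lit 8) (nat_lit 6102) (nat_lit 2) (.two (nat_lit 206) (nat_lit 4) (nat_lit 1713) (nat_lit 2) (.two (nat_lit 1) (nat_lit 4) (nat_lit 6103) (nat_lit 2) (.two (nat_lit 0) (nat_lit 8) (nat_lit 4353) (nat_lit 2) (.one (nat_lit 5277) (nat_lit 2) .nil)))))),
   .der (nat_lit 152) (nat_lit 172),
   .der (nat_lit 1893) (nat_lit 2528),
   .der (nat_lit 86) (nat_lit 2249),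
   .prs (.two (nat_lit 794) (nat_lit 2) (nat_lit 6105) (nat_lit 4) (.two (nat_lit 178) (nat_lit 4) (nat_lit 1699) (nat_lit 2) (.two (nat_lit 16) (nat_lit 1) (nat_lit 6106) (nat_lit 2) (.two (nat_lit 0) (nat_lit 1) (nat_lit 6107) (nat_lit 4) (.one (nat_lit 4357) (nat_lit 4) .nil))))),
   .der (nat_lit 2135) (nat_lit 95),
   .der (nat_lit 18) (nat_lit 2171),
   .prs (.two (nat_lit 13) (nat_lit 16) (nat_lit 6109) (nat_lit 8) (.two (nat_lit 5492) (nat_lit 8) (nat_lit 1404) (nat_lit 16) (.two (nat_lit 214) (nat_lit 8) (nat_lit 6074) (nat_lit 16) (.two (nat_lit 0) (nat_lit 2) (nat_lit 6110) (nat_lit 16) (.one (nat_lit 4360) (nat_lit 16) .nil))))),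
   .prs (.two (nat_lit 676) (nat_lit 16) (nat_lit 2527) (nat_lit 4) (.two (nat_lit 6) (nat_lit 4) (nat_lit 5278) (nat_lit 16) (.two (nat_lit 0) (nat_lit 1) (nat_lit 5279) (nat_lit 16) (.one (nat_lit 5280) (nat_lit 1) .nil)))),
   .der (nat_lit 9587) (nat_lit 110),
   .der (nat_lit 101) (nat_lit 864),
   .der (nat_lit 101) (nat_lit 2176),
   .prs (.two (nat_lit 717) (nat_lit 16) (nat_lit 6113) (nat_lit 2) (.two (nat_lit 111) (nat_lit 2) (nat_lit 6114) (nat_lit 16) (.two (nat_lit 0) (nat_lit 2) (nat_lit 6115) (nat_lit 16) (.one (nat_lit 5283) (nat_lit 2) .nil)))),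
   .der (nat_lit 101) (nat_lit 177),
   .der (nat_lit 354) (nat_lit 1533),
   .prs (.two (nat_lit 825) (nat_lit 16) (nat_lit 6117) (nat_lit 4) (.two (nat_lit 384) (nat_lit 1) (nat_lit 6118) (nat_lit 16) (.two (nat_lit 0) (nat_lit 1) (nat_lit 4363) (nat_lit 4) (.one (nat_lit 4365) (nat_lit 4) .nil)))),
   .der (nat_lit 852) (nat_lit 74),
   .der (nat_lit 852) (nat_lit 407),
   .der (nat_lit 1650) (nat_lit 1381),
   .prs (.two (nat_lit 127) (nat_lit 4) (nat_lit 6120) (nat_lit 8) (.two (nat_lit 489) (nat_lit 4) (nat_lit 6121) (nat_lit 8) (.two (nat_lit 463) (nat_lit 4) (nat_lit 6122) (nat_lit 8) (.two (nat_lit 0) (nat_lit 1) (nat_lit 3403) (nat_lit 8) (.one (nat_lit 4369) (nat_lit 1) .nil))))),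
   .der (nat_lit 1380) (nat_lit 39),
   .der (nat_lit 132) (nat_lit 421),
   .der (nat_lit 67) (nat_lit 1400),
   .der (nat_lit 1620) (nat_lit 2210),
   .prs (.two (nat_lit 122) (nat_lit 4) (nat_lit 6124) (nat_lit 1) (.two (nat_lit 637) (nat_lit 4) (nat_lit 6125) (nat_lit 1) (.two (nat_lit 1) (nat_lit 4) (nat_lit 6126) (nat_lit 1) (.two (nat_lit 0) (nat_lit 4) (nat_lit 6127) (nat_lit 1) (.one (nat_lit 4374) (nat_lit 1) .nil))))),
   .der (nat_lit 165) (nat_lit 1406),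
   .der (nat_lit 35) (nat_lit 3251),
   .prs (.two (nat_lit 13) (nat_lit 16) (nat_lit 2558) (nat_lit 1) (.two (nat_lit 129) (nat_lit 16) (nat_lit 2559) (nat_lit 1) (.two (nat_lit 1) (nat_lit 8) (nat_lit 6129) (nat_lit 1) (.two (nat_lit 0) (nat_lit 8) (nat_lit 6130) (nat_lit 16) (.one (nat_lit 5287) (nat_lit 16) .nil))))),
   .der (nat_lit 129) (nat_lit 3161),
   .prs (.two (nat_lit 32) (nat_lit 16) (nat_lit 4571) (nat_lit 8) (.two (nat_lit 528) (nat_lit 8) (nat_lit 5281) (nat_lit 16) (.two (nat_lit 1) (nat_lit 8) (nat_lit 5282) (nat_lit 16) (.one (nat_lit 6132) (nat_lit 16) .nil)))),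
   .der (nat_lit 1893) (nat_lit 992),
   .der (nat_lit 3) (nat_lit 2176),
   .prs (.two (nat_lit 105) (nat_lit 16) (nat_lit 5022) (nat_lit 4) (.two (nat_lit 456) (nat_lit 16) (nat_lit 6134) (nat_lit 4) (.two (nat_lit 1) (nat_lit 4) (nat_lit 6135) (nat_lit 16) (.one (nat_lit 4379) (nat_lit 1) .nil)))),
   .prs (.two (nat_lit 155) (nat_lit 16) (nat_lit 3912) (nat_lit 1) (.two (nat_lit 439) (nat_lit 2) (nat_lit 6114) (nat_lit 16) (.one (nat_lit 6115) (nat_lit 16) .nil))),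
   .der (nat_lit 21092) (nat_lit 77),
   .prs (.two (nat_lit 94) (nat_lit 16) (nat_lit 6138) (nat_lit 2) (.two (nat_lit 99) (nat_lit 2) (nat_lit 3136) (nat_lit 16) (.one (nat_lit 2543) (nat_lit 16) .nil))),
   .der (nat_lit 1057) (nat_lit 448),
   .der (nat_lit 659) (nat_lit 417),
   .der (nat_lit 67) (nat_lit 2320),
   .prs (.two (nat_lit 676) (nat_lit 4) (nat_lit 6140) (nat_lit 1) (.two (nat_lit 2) (nat_lit 4) (nat_lit 6141) (nat_lit 1) (.two (nat_lit 3) (nat_lit 4) (nat_lit 6142) (nat_lit 1) (.one (nat_lit 5294) (nat_lit 1) .nil)))),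
   .der (nat_lit 20) (nat_lit 2327),
   .prs (.two (nat_lit 97) (nat_lit 16) (nat_lit 3912) (nat_lit 1) (.two (nat_lit 482) (nat_lit 1) (nat_lit 1556) (nat_lit 16) (.two (nat_lit 0) (nat_lit 1) (nat_lit 6144) (nat_lit 16) .nil))),
   .der (nat_lit 83) (nat_lit 106),
   .der (nat_lit 10) (nat_lit 1022),
   .der (nat_lit 87) (nat_lit 1546),
   .der (nat_lit 9) (nat_lit 3338),
   .prs (.two (nat_lit 825) (nat_lit 16) (nat_lit 6146) (nat_lit 1) (.two (nat_lit 543) (nat_lit 2) (nat_lit 4381) (nat_lit 16) (.two (nat_lit 434) (nat_lit 16) (nat_lit 6147) (nat_lit 1) (.two (nat_lit 11) (nat_lit 16) (nat_lit 6148) (nat_lit 1) (.two (nat_lit 0) (nat_lit 1) (nat_lit 6149) (nat_lit 2) (.one (nat_lit 4383) (nat_lit 1) .nil)))))),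
   .der (nat_lit 33) (nat_lit 95),
   .der (nat_lit 1) (nat_lit 1074),
   .der (nat_lit 1) (nat_lit 2369),
   .prs (.two (nat_lit 490) (nat_lit 2) (nat_lit 6151) (nat_lit 16) (.two (nat_lit 937) (nat_lit 1) (nat_lit 6152) (nat_lit 16) (.two (nat_lit 1) (nat_lit 2) (nat_lit 5228) (nat_lit 16) (.two (nat_lit 0) (nat_lit 1) (nat_lit 6153) (nat_lit 16) (.one (nat_lit 5301) (nat_lit 16) .nil))))),
   .der (nat_lit 8) (nat_lit 681),
   .der (nat_lit 2339) (nat_lit 1400),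
   .prs (.two (nat_lit 522) (nat_lit 4) (nat_lit 3912) (nat_lit 1) (.two (nat_lit 134) (nat_lit 4) (nat_lit 6155) (nat_lit 1) (.two (nat_lit 482) (nat_lit 1) (nat_lit 3746) (nat_lit 4) (.two (nat_lit 1) (nat_lit 2) (nat_lit 6156) (nat_lit 4) (.two (nat_lit 0) (nat_lit 1) (nat_lit 3404) (nat_lit 4) (.one (nat_lit 5304) (nat_lit 1) .nil)))))),
   .der (nat_lit 19) (nat_lit 74),
   .der (nat_lit 98) (nat_lit 412),
   .der (nat_lit 18) (nat_lit 425),
   .prs (.two (nat_lit 1480) (nat_lit 2) (nat_lit 6158) (nat_lit 16) (.two (nat_lit 543) (nat_lit 2) (nat_lit 6159) (nat_lit 16) (.two (nat_lit 99) (nat_lit 16) (nat_lit 6160) (nat_lit 2) (.two (nat_lit 1) (nat_lit 2) (nat_lit 5282) (nat_lit 16) (.one (nat_lit 4386) (nat_lit 16) .nil))))),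
   .der (nat_lit 834) (nat_lit 128),
   .prs (.two (nat_lit 32) (nat_lit 8) (nat_lit 6162) (nat_lit 1) (.two (nat_lit 65) (nat_lit 2) (nat_lit 1397) (nat_lit 8) (.two (nat_lit 493) (nat_lit 8) (nat_lit 1703) (nat_lit 2) (.two (nat_lit 11) (nat_lit 8) (nat_lit 4342) (nat_lit 1) (.two (nat_lit 0) (nat_lit 1) (nat_lit 4389) (nat_lit 8) (.one (nat_lit 4390) (nat_lit 1) .nil)))))),
   .der (nat_lit 1890) (nat_lit 121),
   .der (nat_lit 10305) (nat_lit 446),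
   .der (nat_lit 1057) (nat_lit 921),
   .der (nat_lit 4978) (nat_lit 1408),
   .prs (.two (nat_lit 1239) (nat_lit 8) (nat_lit 6164) (nat_lit 2) (.two (nat_lit 91) (nat_lit 4) (nat_lit 6165) (nat_lit 8) (.two (nat_lit 556) (nat_lit 4) (nat_lit 6166) (nat_lit 8) (.two (nat_lit 1) (nat_lit 4) (nat_lit 6167) (nat_lit 8) (.two (nat_lit 0) (nat_lit 2) (nat_lit 4394) (nat_lit 8) (.one (nat_lit 4398) (nat_lit 2) .nil)))))),
   .der (nat_lit 4978) (nat_lit 1094),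
   .der (nat_lit 145) (nat_lit 1651),
   .der (nat_lit 2433) (nat_lit 3126),
   .prs (.two (nat_lit 825) (nat_lit 16) (nat_lit 6146) (nat_lit 1) (.two (nat_lit 723) (nat_lit 16) (nat_lit 6169) (nat_lit 1) (.two (nat_lit 1) (nat_lit 2) (nat_lit 6170) (nat_lit 16) (.two (nat_lit 0) (nat_lit 2) (nat_lit 6171) (nat_lit 16) (.one (nat_lit 4402) (nat_lit 1) .nil))))),
   .prs (.two (nat_lit 13) (nat_lit 16) (nat_lit 825) (nat_lit 1) (.two (nat_lit 427) (nat_lit 2) (nat_lit 1846) (nat_lit 16) (.two (nat_lit 170) (nat_lit 2) (nat_lit 2971) (nat_lit 16) (.two (nat_lit 16) (nat_lit 1) (nat_lit 4324) (nat_lit 16) (.one (nat_lit 4463) (nat_lit 1) .nil))))),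
   .der (nat_lit 4) (nat_lit 608),
   .der (nat_lit 801) (nat_lit 1624),
   .der (nat_lit 801) (nat_lit 3296),
   .prs (.two (nat_lit 440) (nat_lit 8) (nat_lit 2815) (nat_lit 1) (.two (nat_lit 397) (nat_lit 1) (nat_lit 6174) (nat_lit 4) (.two (nat_lit 5) (nat_lit 1) (nat_lit 6175) (nat_lit 4) (.two (nat_lit 1) (nat_lit 2) (nat_lit 6176) (nat_lit 1) (.one (nat_lit 5316) (nat_lit 2) .nil))))),
   .der (nat_lit 145) (nat_lit 1133),
   .prs (.two (nat_lit 1326) (nat_lit 1) (nat_lit 4756) (nat_lit 16) (.two (nat_lit 918) (nat_lit 1) (nat_lit 6178) (nat_lit 16) (.two (nat_lit 5) (nat_lit 1) (nat_lit 5225) (nat_lit 16) (.two (nat_lit 1) (nat_lit 2) (nat_lit 4116) (nat_lit 16) (.two (nat_lit 0) (nat_lit 1) (nat_lit 3406) (nat_lit 16) (.one (nat_lit 4417) (nat_lit 16) .nil)))))),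
   .prs (.two (nat_lit 94) (nat_lit 2) (nat_lit 5660) (nat_lit 8) (.two (nat_lit 75) (nat_lit 2) (nat_lit 1695) (nat_lit 8) (.two (nat_lit 1) (nat_lit 2) (nat_lit 5292) (nat_lit 8) (.one (nat_lit 4465) (nat_lit 1) .nil)))),
   .prs (.two (nat_lit 520) (nat_lit 16) (nat_lit 2302) (nat_lit 4) (.two (nat_lit 2) (nat_lit 16) (nat_lit 936) (nat_lit 4) (.two (nat_lit 0) (nat_lit 8) (nat_lit 2548) (nat_lit 4) (.one (nat_lit 5357) (nat_lit 16) .nil)))),
   .der (nat_lit 2578) (nat_lit 1073),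
   .der (nat_lit 103) (nat_lit 1647),
   .der (nat_lit 2353) (nat_lit 4339),
   .prs (.two (nat_lit 38) (nat_lit 8) (nat_lit 3774) (nat_lit 4) (.two (nat_lit 44) (nat_lit 8) (nat_lit 6182) (nat_lit 4) (.two (nat_lit 3) (nat_lit 8) (nat_lit 6183) (nat_lit 4) (.two (nat_lit 0) (nat_lit 8) (nat_lit 4423) (nat_lit 4) (.one (nat_lit 6184) (nat_lit 8) .nil))))),
   .der (nat_lit 161) (nat_lit 1441),
   .prs (.two (nat_lit 418) (nat_lit 16) (nat_lit 1326) (nat_lit 1) (.two (nat_lit 370) (nat_lit 1) (nat_lit 1440) (nat_lit 16) (.two (nat_lit 1) (nat_lit 8) (nat_lit 6186) (nat_lit 1) (.one (nat_lit 5360) (nat_lit 16) .nil)))),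
   .der (nat_lit 354) (nat_lit 106),
   .prs (.two (nat_lit 522) (nat_lit 4) (nat_lit 6188) (nat_lit 1) (.two (nat_lit 134) (nat_lit 4) (nat_lit 1163) (nat_lit 1) (.two (nat_lit 482) (nat_lit 1) (nat_lit 3746) (nat_lit 4) (.two (nat_lit 1) (nat_lit 2) (nat_lit 4776) (nat_lit 4) (.one (nat_lit 5321) (nat_lit 1) .nil))))),
   .der (nat_lit 1074) (nat_lit 252),
   .der (nat_lit 37425) (nat_lit 562),
   .prs (.two (nat_lit 13) (nat_lit 8) (nat_lit 6190) (nat_lit 2) (.two (nat_lit 556) (nat_lit 4) (nat_lit 6191) (nat_lit 8) (.two (nat_lit 3) (nat_lit 4) (nat_lit 5232) (nat_lit 8) (.two (nat_lit 0) (nat_lit 2) (nat_lit 5233) (nat_lit 4) (.one (nat_lit 5362) (nat_lit 1) .nil))))),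
   .der (nat_lit 37425) (nat_lit 1088),
   .prs (.two (nat_lit 418) (nat_lit 8) (nat_lit 1049) (nat_lit 1) (.two (nat_lit 6) (nat_lit 4) (nat_lit 1404) (nat_lit 8) (.two (nat_lit 173) (nat_lit 4) (nat_lit 6193) (nat_lit 8) (.two (nat_lit 46) (nat_lit 1) (nat_lit 3136) (nat_lit 4) (.two (nat_lit 0) (nat_lit 1) (nat_lit 2531) (nat_lit 4) (.one (nat_lit 5324) (nat_lit 1) .nil)))))),
   .der (nat_lit 1122) (nat_lit 67),
   .der (nat_lit 24916) (nat_lit 864),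
   .prs (.two (nat_lit 576) (nat_lit 8) (nat_lit 6195) (nat_lit 1) (.two (nat_lit 404) (nat_lit 1) (nat_lit 6196) (nat_lit 8) (.two (nat_lit 0) (nat_lit 4) (nat_lit 3413) (nat_lit 1) (.one (nat_lit 5330) (nat_lit 4) .nil)))),
   .der (nat_lit 98) (nat_lit 2332),
   .der (nat_lit 2578) (nat_lit 4039),
   .prs (.two (nat_lit 390) (nat_lit 2) (nat_lit 2829) (nat_lit 8) (.two (nat_lit 227) (nat_lit 2) (nat_lit 2486) (nat_lit 8) (.two (nat_lit 1) (nat_lit 8) (nat_lit 6198) (nat_lit 2) (.one (nat_lit 6199) (nat_lit 8) .nil)))),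
   .der (nat_lit 152) (nat_lit 1033),
   .prs (.two (nat_lit 13) (nat_lit 8) (nat_lit 1857) (nat_lit 4) (.two (nat_lit 42) (nat_lit 4) (nat_lit 4344) (nat_lit 2) (.two (nat_lit 439) (nat_lit 8) (nat_lit 6201) (nat_lit 4) (.two (nat_lit 1) (nat_lit 4) (nat_lit 4384) (nat_lit 8) (.two (nat_lit 0) (nat_lit 4) (nat_lit 4356) (nat_lit 8) (.one (nat_lit 4431) (nat_lit 4) .nil)))))),
   .der (nat_lit 339) (nat_lit 2214),
   .prs (.two (nat_lit 71) (nat_lit 16) (nat_lit 1116) (nat_lit 1) (.two (nat_lit 17) (nat_lit 4) (nat_lit 5278) (nat_lit 16) (.one (nat_lit 6203) (nat_lit 16) .nil))),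
   .der (nat_lit 65) (nat_lit 113),
   .der (nat_lit 6) (nat_lit 1030),
   .prs (.two (nat_lit 390) (nat_lit 16) (nat_lit 6205) (nat_lit 2) (.two (nat_lit 1435) (nat_lit 2) (nat_lit 6206) (nat_lit 16) (.two (nat_lit 1) (nat_lit 2) (nat_lit 2533) (nat_lit 16) (.two (nat_lit 0) (nat_lit 2) (nat_lit 4434) (nat_lit 16) (.one (nat_lit 5336) (nat_lit 2) .nil))))),
   .der (nat_lit 4978) (nat_lit 76),
   .der (nat_lit 1890) (nat_lit 441),
   .der (nat_lit 114) (nat_lit 4099),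
   .prs (.two (nat_lit 13) (nat_lit 16) (nat_lit 6208) (nat_lit 2) (.two (nat_lit 1459) (nat_lit 16) (nat_lit 6209) (nat_lit 2) (.two (nat_lit 356) (nat_lit 2) (nat_lit 6074) (nat_lit 16) (.two (nat_lit 0) (nat_lit 8) (nat_lit 6210) (nat_lit 2) .nil)))),
   .der (nat_lit 834) (nat_lit 172),
   .der (nat_lit 2578) (nat_lit 974),
   .der (nat_lit 1556) (nat_lit 2429),
   .prs (.two (nat_lit 520) (nat_lit 8) (nat_lit 6212) (nat_lit 1) (.two (nat_lit 2) (nat_lit 8) (nat_lit 6213) (nat_lit 1) (.two (nat_lit 1) (nat_lit 8) (nat_lit 6214) (nat_lit 1) (.two (nat_lit 0) (nat_lit 8) (nat_lit 3422) (nat_lit 2) (.one (nat_lit 5339) (nat_lit 2) .nil))))),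
   .der (nat_lit 137) (nat_lit 243),
   .der (nat_lit 98) (nat_lit 1396),
   .der (nat_lit 33345) (nat_lit 4170),
   .prs (.two (nat_lit 13) (nat_lit 16) (nat_lit 6216) (nat_lit 4) (.two (nat_lit 427) (nat_lit 2) (nat_lit 1440) (nat_lit 16) (.two (nat_lit 68) (nat_lit 2) (nat_lit 5081) (nat_lit 1) (.two (nat_lit 16) (nat_lit 1) (nat_lit 6217) (nat_lit 2) (.two (nat_lit 0) (nat_lit 1) (nat_lit 3427) (nat_lit 4) (.one (nat_lit 6218) (nat_lit 4) .nil)))))),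
   .der (nat_lit 162) (nat_lit 1073),
   .prs (.two (nat_lit 105) (nat_lit 4) (nat_lit 2726) (nat_lit 2) (.two (nat_lit 91) (nat_lit 2) (nat_lit 6220) (nat_lit 4) (.two (nat_lit 1) (nat_lit 2) (nat_lit 4711) (nat_lit 4) (.two (nat_lit 0) (nat_lit 8) (nat_lit 4640) (nat_lit 2) (.one (nat_lit 5342) (nat_lit 4) .nil))))),
   .der (nat_lit 2135) (nat_lit 378),
   .der (nat_lit 103) (nat_lit 831),
   .der (nat_lit 101) (nat_lit 4002),
   .prs (.two (nat_lit 127) (nat_lit 4) (nat_lit 1790) (nat_lit 8) (.two (nat_lit 427) (nat_lit 4) (nat_lit 6222) (nat_lit 8) (.two (nat_lit 75) (nat_lit 4) (nat_lit 6223) (nat_lit 8) (.two (nat_lit 1) (nat_lit 4) (nat_lit 2536) (nat_lit 8) (.two (nat_lit 0) (nat_lit 4) (nat_lit 6224) (nat_lit 1) .nil))))),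
   .prs (.two (nat_lit 462) (nat_lit 4) (nat_lit 1813) (nat_lit 16) (.two (nat_lit 206) (nat_lit 4) (nat_lit 4124) (nat_lit 16) (.two (nat_lit 1) (nat_lit 4) (nat_lit 6132) (nat_lit 16) .nil))),
   .der (nat_lit 66) (nat_lit 1441),
   .der (nat_lit 4978) (nat_lit 4353),
   .prs (.two (nat_lit 1239) (nat_lit 8) (nat_lit 1089) (nat_lit 4) (.two (nat_lit 129) (nat_lit 4) (nat_lit 6166) (nat_lit 8) (.two (nat_lit 1) (nat_lit 4) (nat_lit 6227) (nat_lit 2) (.two (nat_lit 0) (nat_lit 8) (nat_lit 6228) (nat_lit 4) (.one (nat_lit 4440) (nat_lit 2) .nil))))),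
   .der (nat_lit 4978) (nat_lit 421),
   .der (nat_lit 2113) (nat_lit 1456),
   .der (nat_lit 1380) (nat_lit 2214),
   .prs (.two (nat_lit 676) (nat_lit 4) (nat_lit 5776) (nat_lit 1) (.two (nat_lit 227) (nat_lit 2) (nat_lit 6230) (nat_lit 1) (.two (nat_lit 1) (nat_lit 2) (nat_lit 6231) (nat_lit 1) (.two (nat_lit 0) (nat_lit 2) (nat_lit 6232) (nat_lit 1) (.one (nat_lit 4445) (nat_lit 1) .nil))))),
   .der (nat_lit 1299) (nat_lit 524),
   .der (nat_lit 83) (nat_lit 1546),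
   .der (nat_lit 35) (nat_lit 3308),
   .prs (.two (nat_lit 440) (nat_lit 2) (nat_lit 5210) (nat_lit 8) (.two (nat_lit 65) (nat_lit 2) (nat_lit 6234) (nat_lit 8) (.two (nat_lit 4) (nat_lit 2) (nat_lit 1704) (nat_lit 8) (.two (nat_lit 3) (nat_lit 1) (nat_lit 6235) (nat_lit 8) (.two (nat_lit 0) (nat_lit 1) (nat_lit 6236) (nat_lit 8) (.one (nat_lit 5348) (nat_lit 1) .nil)))))),
   .der (nat_lit 30226) (nat_lit 29),
   .der (nat_lit 5716) (nat_lit 131),
   .prs (.two (nat_lit 520) (nat_lit 16) (nat_lit 6238) (nat_lit 1) (.two (nat_lit 12) (nat_lit 16) (nat_lit 6239) (nat_lit 4) (.two (nat_lit 4) (nat_lit 8) (nat_lit 6013) (nat_lit 1) (.one (nat_lit 5365) (nat_lit 4) .nil)))),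
   .der (nat_lit 1074) (nat_lit 472),
   .der (nat_lit 165) (nat_lit 3368),
   .prs (.two (nat_lit 32) (nat_lit 8) (nat_lit 6241) (nat_lit 1) (.two (nat_lit 5) (nat_lit 8) (nat_lit 1166) (nat_lit 1) (.two (nat_lit 3) (nat_lit 1) (nat_lit 4179) (nat_lit 2) (.two (nat_lit 0) (nat_lit 8) (nat_lit 6242) (nat_lit 1) (.one (nat_lit 5353) (nat_lit 1) .nil))))),
   .der (nat_lit 6) (nat_lit 84),
   .der (nat_lit 50) (nat_lit 870),
   .der (nat_lit 66) (nat_lit 1400),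
   .prs (.two (nat_lit 582) (nat_lit 8) (nat_lit 6244) (nat_lit 2) (.two (nat_lit 227) (nat_lit 2) (nat_lit 5747) (nat_lit 8) (.two (nat_lit 34) (nat_lit 2) (nat_lit 6245) (nat_lit 8) (.two (nat_lit 1) (nat_lit 2) (nat_lit 6246) (nat_lit 4) (.two (nat_lit 0) (nat_lit 2) (nat_lit 3431) (nat_lit 4) (.one (nat_lit 4453) (nat_lit 4) .nil)))))),
   .der (nat_lit 2135) (nat_lit 131),
   .der (nat_lit 1811) (nat_lit 552),
   .prs (.two (nat_lit 80) (nat_lit 8) (nat_lit 6248) (nat_lit 1) (.two (nat_lit 78) (nat_lit 1) (nat_lit 6249) (nat_lit 4) (.two (nat_lit 1) (nat_lit 2) (nat_lit 2550) (nat_lit 1) (.two (nat_lit 0) (nat_lit 2) (nat_lit 2554) (nat_lit 1) (.one (nat_lit 4477) (nat_lit 2) .nil))))),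
   .prs (.two (nat_lit 858) (nat_lit 1) (nat_lit 1637) (nat_lit 8) (.two (nat_lit 1118) (nat_lit 1) (nat_lit 2619) (nat_lit 8) (.two (nat_lit 720) (nat_lit 1) (nat_lit 2467) (nat_lit 8) (.two (nat_lit 0) (nat_lit 1) (nat_lit 5292) (nat_lit 8) (.one (nat_lit 5293) (nat_lit 1) .nil))))),
   .der (nat_lit 162) (nat_lit 288),
   .der (nat_lit 29011) (nat_lit 516),
   .der (nat_lit 1890) (nat_lit 1589),
   .der (nat_lit 22803) (nat_lit 2266),
   .der (nat_lit 833) (nat_lit 3270),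
   .prs (.two (nat_lit 1239) (nat_lit 2) (nat_lit 1254) (nat_lit 1) (.two (nat_lit 937) (nat_lit 1) (nat_lit 6252) (nat_lit 2) (.two (nat_lit 710) (nat_lit 1) (nat_lit 6253) (nat_lit 2) (.two (nat_lit 3) (nat_lit 1) (nat_lit 6254) (nat_lit 2) (.two (nat_lit 0) (nat_lit 1) (nat_lit 6255) (nat_lit 2) (.one (nat_lit 6256) (nat_lit 1) .nil)))))),
   .der (nat_lit 801) (nat_lit 272),
   .der (nat_lit 101) (nat_lit 1125),
   .prs (.two (nat_lit 13) (nat_lit 8) (nat_lit 6258) (nat_lit 2) (.two (nat_lit 2) (nat_lit 4) (nat_lit 6259) (nat_lit 2) (.two (nat_lit 11) (nat_lit 2) (nat_lit 3107) (nat_lit 4) (.two (nat_lit 0) (nat_lit 2) (nat_lit 5233) (nat_lit 4) (.one (nat_lit 5369) (nat_lit 4) .nil))))),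
   .prs (.two (nat_lit 71) (nat_lit 1) (nat_lit 582) (nat_lit 4) (.two (nat_lit 370) (nat_lit 4) (nat_lit 4476) (nat_lit 1) (.two (nat_lit 173) (nat_lit 1) (nat_lit 3130) (nat_lit 4) (.two (nat_lit 3) (nat_lit 1) (nat_lit 5315) (nat_lit 4) (.two (nat_lit 0) (nat_lit 1) (nat_lit 2562) (nat_lit 4) (.one (nat_lit 5370) (nat_lit 4) .nil)))))),
   .der (nat_lit 52) (nat_lit 72),
   .der (nat_lit 65) (nat_lit 948),
   .prs (.two (nat_lit 105) (nat_lit 4) (nat_lit 6262) (nat_lit 8) (.two (nat_lit 2) (nat_lit 4) (nat_lit 6263) (nat_lit 8) (.two (nat_lit 0) (nat_lit 1) (nat_lit 5426) (nat_lit 8) (.one (nat_lit 5372) (nat_lit 4) .nil)))),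
   .der (nat_lit 86) (nat_lit 1141),
   .prs (.two (nat_lit 676) (nat_lit 4) (nat_lit 1852) (nat_lit 2) (.two (nat_lit 384) (nat_lit 1) (nat_lit 6265) (nat_lit 2) (.two (nat_lit 3) (nat_lit 1) (nat_lit 3492) (nat_lit 4) (.two (nat_lit 0) (nat_lit 1) (nat_lit 4500) (nat_lit 4) (.one (nat_lit 5375) (nat_lit 1) .nil))))),
   .der (nat_lit 33) (nat_lit 48),
   .der (nat_lit 1) (nat_lit 70),
   .der (nat_lit 1) (nat_lit 417),
   .der (nat_lit 18) (nat_lit 2372),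
   .prs (.two (nat_lit 105) (nat_lit 16) (nat_lit 6267) (nat_lit 4) (.two (nat_lit 689) (nat_lit 4) (nat_lit 6268) (nat_lit 16) (.two (nat_lit 17) (nat_lit 4) (nat_lit 6269) (nat_lit 16) (.two (nat_lit 0) (nat_lit 1) (nat_lit 6270) (nat_lit 16) .nil)))),
   .der (nat_lit 627) (nat_lit 76),
   .der (nat_lit 165) (nat_lit 432),
   .der (nat_lit 1299) (nat_lit 950),
   .der (nat_lit 1299) (nat_lit 1415),
   .prs (.two (nat_lit 717) (nat_lit 2) (nat_lit 6272) (nat_lit 4) (.two (nat_lit 4) (nat_lit 2) (nat_lit 6273) (nat_lit 4) (.two (nat_lit 3) (nat_lit 1) (nat_lit 6274) (nat_lit 4) (.two (nat_lit 0) (nat_lit 2) (nat_lit 6275) (nat_lit 1) (.one (nat_lit 5378) (nat_lit 1) .nil))))),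
   .prs (.two (nat_lit 676) (nat_lit 16) (nat_lit 1768) (nat_lit 4) (.two (nat_lit 2) (nat_lit 4) (nat_lit 4435) (nat_lit 16) (.two (nat_lit 0) (nat_lit 4) (nat_lit 3498) (nat_lit 16) (.one (nat_lit 5380) (nat_lit 16) .nil)))),
   .der (nat_lit 2) (nat_lit 417),
   .der (nat_lit 8) (nat_lit 2531),
   .prs (.two (nat_lit 418) (nat_lit 16) (nat_lit 3671) (nat_lit 1) (.two (nat_lit 341) (nat_lit 1) (nat_lit 6278) (nat_lit 16) (.two (nat_lit 0) (nat_lit 1) (nat_lit 6279) (nat_lit 16) .nil))),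
   .der (nat_lit 10) (nat_lit 558),
   .prs (.two (nat_lit 80) (nat_lit 8) (nat_lit 6281) (nat_lit 1) (.two (nat_lit 1) (nat_lit 16) (nat_lit 2550) (nat_lit 1) (.two (nat_lit 0) (nat_lit 8) (nat_lit 3502) (nat_lit 4) (.one (nat_lit 5383) (nat_lit 8) .nil)))),
   .der (nat_lit 101) (nat_lit 2227),
   .prs (.two (nat_lit 105) (nat_lit 16) (nat_lit 496) (nat_lit 4) (.two (nat_lit 78) (nat_lit 4) (nat_lit 6269) (nat_lit 16) (.two (nat_lit 0) (nat_lit 4) (nat_lit 6283) (nat_lit 16) .nil))),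
   .der (nat_lit 339) (nat_lit 610),
   .prs (.two (nat_lit 6) (nat_lit 4) (nat_lit 1204) (nat_lit 2) (.two (nat_lit 2) (nat_lit 4) (nat_lit 6285) (nat_lit 2) (.two (nat_lit 3) (nat_lit 1) (nat_lit 1787) (nat_lit 4) (.two (nat_lit 0) (nat_lit 1) (nat_lit 2669) (nat_lit 4) (.one (nat_lit 5385) (nat_lit 4) .nil))))),
   .der (nat_lit 1) (nat_lit 39),
   .der (nat_lit 34068) (nat_lit 861),
   .der (nat_lit 2135) (nat_lit 2249),
   .der (nat_lit 165) (nat_lit 3116),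
   .der (nat_lit 83) (nat_lit 4103),
   .prs (.two (nat_lit 33) (nat_lit 16) (nat_lit 6287) (nat_lit 1) (.two (nat_lit 13) (nat_lit 4) (nat_lit 1404) (nat_lit 16) (.two (nat_lit 6) (nat_lit 4) (nat_lit 1723) (nat_lit 2) (.two (nat_lit 75) (nat_lit 2) (nat_lit 6288) (nat_lit 4) (.two (nat_lit 1) (nat_lit 4) (nat_lit 6289) (nat_lit 1) (.two (nat_lit 0) (nat_lit 1) (nat_lit 6290) (nat_lit 2) (.one (nat_lit 6291) (nat_lit 1) .nil))))))),
   .der (nat_lit 2193) (nat_lit 861),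
   .der (nat_lit 356) (nat_lit 2186),
   .prs (.two (nat_lit 676) (nat_lit 4) (nat_lit 3278) (nat_lit 8) (.two (nat_lit 2) (nat_lit 4) (nat_lit 6293) (nat_lit 8) (.two (nat_lit 0) (nat_lit 4) (nat_lit 6294) (nat_lit 8) (.one (nat_lit 5428) (nat_lit 8) .nil)))),
   .der (nat_lit 21107) (nat_lit 37),
   .der (nat_lit 137) (nat_lit 472),
   .der (nat_lit 137) (nat_lit 970),
   .der (nat_lit 1893) (nat_lit 2494),
   .der (nat_lit 101) (nat_lit 4379),
   .prs (.two (nat_lit 105) (nat_lit 16) (nat_lit 6296) (nat_lit 4) (.two (nat_lit 111) (nat_lit 4) (nat_lit 6297) (nat_lit 16) (.two (nat_lit 433) (nat_lit 4) (nat_lit 6298) (nat_lit 16) (.two (nat_lit 46) (nat_lit 1) (nat_lit 6299) (nat_lit 16) (.two (nat_lit 0) (nat_lit 1) (nat_lit 6300) (nat_lit 4) .nil))))),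
   .der (nat_lit 137) (nat_lit 1706),
   .prs (.two (nat_lit 13) (nat_lit 16) (nat_lit 476) (nat_lit 8) (.two (nat_lit 12) (nat_lit 8) (nat_lit 82) (nat_lit 16) (.two (nat_lit 224) (nat_lit 8) (nat_lit 6302) (nat_lit 16) (.two (nat_lit 11) (nat_lit 8) (nat_lit 4235) (nat_lit 16) (.two (nat_lit 0) (nat_lit 8) (nat_lit 4581) (nat_lit 16) (.one (nat_lit 5429) (nat_lit 8) .nil)))))),
   .der (nat_lit 1) (nat_lit 3285),
   .prs (.two (nat_lit 390) (nat_lit 16) (nat_lit 2008) (nat_lit 2) (.two (nat_lit 1149) (nat_lit 2) (nat_lit 3616) (nat_lit 16) (.two (nat_lit 1) (nat_lit 2) (nat_lit 6304) (nat_lit 16) (.one (nat_lit 5432) (nat_lit 2) .nil)))),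
   .der (nat_lit 2353) (nat_lit 417),
   .der (nat_lit 150) (nat_lit 1400),
   .prs (.two (nat_lit 520) (nat_lit 16) (nat_lit 2906) (nat_lit 4) (.two (nat_lit 42) (nat_lit 16) (nat_lit 6306) (nat_lit 4) (.two (nat_lit 1) (nat_lit 16) (nat_lit 6307) (nat_lit 4) (.two (nat_lit 0) (nat_lit 4) (nat_lit 4588) (nat_lit 16) (.one (nat_lit 5443) (nat_lit 4) .nil))))),
   .der (nat_lit 1300) (nat_lit 319),
   .der (nat_lit 26386) (nat_lit 169),
   .der (nat_lit 137) (nat_lit 1693),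
   .der (nat_lit 9587) (nat_lit 3233),
   .der (nat_lit 29011) (nat_lit 4316),
   .prs (.two (nat_lit 32) (nat_lit 8) (nat_lit 6309) (nat_lit 1) (.two (nat_lit 427) (nat_lit 2) (nat_lit 6310) (nat_lit 8) (.two (nat_lit 482) (nat_lit 1) (nat_lit 6311) (nat_lit 8) (.two (nat_lit 0) (nat_lit 1) (nat_lit 6312) (nat_lit 8) (.one (nat_lit 6313) (nat_lit 2) .nil))))),
   .der (nat_lit 2193) (nat_lit 417),
   .der (nat_lit 24916) (nat_lit 1399),
   .der (nat_lit 18) (nat_lit 3368),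
   .prs (.two (nat_lit 13) (nat_lit 4) (nat_lit 6315) (nat_lit 8) (.two (nat_lit 1) (nat_lit 4) (nat_lit 6316) (nat_lit 8) (.two (nat_lit 0) (nat_lit 4) (nat_lit 6317) (nat_lit 8) (.one (nat_lit 5445) (nat_lit 1) .nil)))),
   .der (nat_lit 67) (nat_lit 74),
   .der (nat_lit 1893) (nat_lit 641),
   .der (nat_lit 2593) (nat_lit 2369),
   .prs (.two (nat_lit 674) (nat_lit 2) (nat_lit 6319) (nat_lit 1) (.two (nat_lit 1974) (nat_lit 1) (nat_lit 6320) (nat_lit 2) (.two (nat_lit 374) (nat_lit 1) (nat_lit 3272) (nat_lit 2) (.two (nat_lit 11) (nat_lit 1) (nat_lit 6321) (nat_lit 8) (.one (nat_lit 5453) (nat_lit 2) .nil))))),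
   .der (nat_lit 115) (nat_lit 417),
   .der (nat_lit 118) (nat_lit 1400),
   .prs (.two (nat_lit 440) (nat_lit 16) (nat_lit 6323) (nat_lit 2) (.two (nat_lit 1) (nat_lit 16) (nat_lit 6324) (nat_lit 2) (.two (nat_lit 0) (nat_lit 2) (nat_lit 4570) (nat_lit 16) .nil))),
   .der (nat_lit 24916) (nat_lit 39),
   .der (nat_lit 49) (nat_lit 472),
   .der (nat_lit 2339) (nat_lit 417),
   .der (nat_lit 150) (nat_lit 3454),
   .der (nat_lit 1556) (nat_lit 4028),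
   .prs (.two (nat_lit 825) (nat_lit 4) (nat_lit 6326) (nat_lit 8) (.two (nat_lit 1435) (nat_lit 8) (nat_lit 6327) (nat_lit 4) (.two (nat_lit 206) (nat_lit 8) (nat_lit 6328) (nat_lit 4) (.two (nat_lit 1) (nat_lit 8) (nat_lit 6329) (nat_lit 4) (.one (nat_lit 6330) (nat_lit 8) .nil))))),
   .der (nat_lit 18) (nat_lit 870),
   .prs (.two (nat_lit 522) (nat_lit 8) (nat_lit 4244) (nat_lit 2) (.two (nat_lit 482) (nat_lit 8) (nat_lit 6332) (nat_lit 2) (.two (nat_lit 3) (nat_lit 4) (nat_lit 4543) (nat_lit 8) (.one (nat_lit 4602) (nat_lit 8) .nil)))),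
   .der (nat_lit 1810) (nat_lit 93),
   .der (nat_lit 2068) (nat_lit 1542),
   .prs (.two (nat_lit 676) (nat_lit 4) (nat_lit 6334) (nat_lit 16) (.two (nat_lit 384) (nat_lit 16) (nat_lit 6335) (nat_lit 4) (.two (nat_lit 0) (nat_lit 16) (nat_lit 3592) (nat_lit 4) (.one (nat_lit 4659) (nat_lit 4) .nil)))),
   .der (nat_lit 118) (nat_lit 131),
   .der (nat_lit 17185) (nat_lit 2503),
   .prs (.two (nat_lit 390) (nat_lit 16) (nat_lit 6337) (nat_lit 2) (.two (nat_lit 338) (nat_lit 2) (nat_lit 5390) (nat_lit 16) (.two (nat_lit 11) (nat_lit 2) (nat_lit 6338) (nat_lit 16) (.one (nat_lit 4663) (nat_lit 16) .nil)))),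
   .der (nat_lit 145) (nat_lit 1747),
   .der (nat_lit 35) (nat_lit 2464),
   .der (nat_lit 1) (nat_lit 4325),
   .der (nat_lit 2135) (nat_lit 4252),
   .prs (.two (nat_lit 676) (nat_lit 16) (nat_lit 3366) (nat_lit 4) (.two (nat_lit 427) (nat_lit 16) (nat_lit 891) (nat_lit 4) (.two (nat_lit 173) (nat_lit 16) (nat_lit 6340) (nat_lit 4) (.two (nat_lit 46) (nat_lit 4) (nat_lit 6341) (nat_lit 16) (.two (nat_lit 0) (nat_lit 4) (nat_lit 6342) (nat_lit 16) (.one (nat_lit 6343) (nat_lit 4) .nil)))))),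
   .der (nat_lit 1073) (nat_lit 1065),
   .der (nat_lit 1810) (nat_lit 1415),
   .prs (.two (nat_lit 127) (nat_lit 4) (nat_lit 4680) (nat_lit 8) (.two (nat_lit 489) (nat_lit 4) (nat_lit 2801) (nat_lit 8) (.two (nat_lit 356) (nat_lit 1) (nat_lit 6345) (nat_lit 4) (.two (nat_lit 11) (nat_lit 1) (nat_lit 6346) (nat_lit 4) (.two (nat_lit 0) (nat_lit 1) (nat_lit 3576) (nat_lit 4) (.one (nat_lit 5463) (nat_lit 1) .nil)))))),
   .der (nat_lit 1653) (nat_lit 33),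
   .der (nat_lit 20) (nat_lit 1030),
   .der (nat_lit 13345) (nat_lit 2342),
   .der (nat_lit 101) (nat_lit 3570),
   .der (nat_lit 36) (nat_lit 4252),
   .prs (.two (nat_lit 522) (nat_lit 8) (nat_lit 6348) (nat_lit 2) (.two (nat_lit 49) (nat_lit 8) (nat_lit 6349) (nat_lit 2) (.two (nat_lit 3) (nat_lit 8) (nat_lit 6350) (nat_lit 2) (.two (nat_lit 0) (nat_lit 8) (nat_lit 6351) (nat_lit 2) (.one (nat_lit 6352) (nat_lit 8) .nil))))),
   .der (nat_lit 129) (nat_lit 848),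
   .der (nat_lit 137) (nat_lit 2224),
   .der (nat_lit 6) (nat_lit 4575),
   .prs (.two (nat_lit 794) (nat_lit 16) (nat_lit 3774) (nat_lit 4) (.two (nat_lit 956) (nat_lit 4) (nat_lit 6354) (nat_lit 16) (.two (nat_lit 1) (nat_lit 4) (nat_lit 6355) (nat_lit 16) (.two (nat_lit 0) (nat_lit 4) (nat_lit 4615) (nat_lit 16) (.one (nat_lit 6356) (nat_lit 4) .nil))))),
   .der (nat_lit 2390) (nat_lit 907),
   .prs (.two (nat_lit 459) (nat_lit 2) (nat_lit 1939) (nat_lit 16) (.two (nat_lit 206) (nat_lit 2) (nat_lit 6358) (nat_lit 16) (.two (nat_lit 1) (nat_lit 2) (nat_lit 4378) (nat_lit 16) (.one (nat_lit 5470) (nat_lit 16) .nil)))),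
   .der (nat_lit 1122) (nat_lit 580),
   .der (nat_lit 33345) (nat_lit 1438),
   .prs (.two (nat_lit 32) (nat_lit 16) (nat_lit 6360) (nat_lit 8) (.two (nat_lit 384) (nat_lit 8) (nat_lit 6361) (nat_lit 16) (.two (nat_lit 0) (nat_lit 8) (nat_lit 4618) (nat_lit 16) (.one (nat_lit 4623) (nat_lit 16) .nil)))),
   .der (nat_lit 26386) (nat_lit 108),
   .prs (.two (nat_lit 80) (nat_lit 8) (nat_lit 449) (nat_lit 2) (.two (nat_lit 65) (nat_lit 2) (nat_lit 6363) (nat_lit 8) (.two (nat_lit 519) (nat_lit 8) (nat_lit 5193) (nat_lit 2) (.two (nat_lit 3) (nat_lit 1) (nat_lit 5469) (nat_lit 2) (.two (nat_lit 0) (nat_lit 1) (nat_lit 4666) (nat_lit 2) (.one (nat_lit 4668) (nat_lit 1) .nil)))))),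
   .der (nat_lit 17185) (nat_lit 1670),
   .prs (.two (nat_lit 676) (nat_lit 16) (nat_lit 4642) (nat_lit 4) (.two (nat_lit 170) (nat_lit 4) (nat_lit 6365) (nat_lit 16) (.two (nat_lit 1) (nat_lit 4) (nat_lit 6338) (nat_lit 16) (.two (nat_lit 0) (nat_lit 4) (nat_lit 4634) (nat_lit 16) (.one (nat_lit 5422) (nat_lit 4) .nil))))),
   .prs (.two (nat_lit 1413) (nat_lit 4) (nat_lit 965) (nat_lit 2) (.two (nat_lit 91) (nat_lit 2) (nat_lit 3774) (nat_lit 4) (.two (nat_lit 206) (nat_lit 4) (nat_lit 4567) (nat_lit 2) (.two (nat_lit 3) (nat_lit 8) (nat_lit 4018) (nat_lit 2) (.two (nat_lit 0) (nat_lit 8) (nat_lit 4636) (nat_lit 2) .nil))))),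
   .der (nat_lit 2323) (nat_lit 62),
   .der (nat_lit 8) (nat_lit 545),
   .der (nat_lit 150) (nat_lit 864),
   .der (nat_lit 145) (nat_lit 2188),
   .prs (.two (nat_lit 13) (nat_lit 16) (nat_lit 6368) (nat_lit 4) (.two (nat_lit 91) (nat_lit 4) (nat_lit 6369) (nat_lit 16) (.two (nat_lit 2) (nat_lit 16) (nat_lit 6370) (nat_lit 4) (.two (nat_lit 0) (nat_lit 1) (nat_lit 6371) (nat_lit 16) (.one (nat_lit 5474) (nat_lit 4) .nil))))),
   .der (nat_lit 1875) (nat_lit 594),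
   .der (nat_lit 1653) (nat_lit 970),
   .prs (.two (nat_lit 717) (nat_lit 16) (nat_lit 6373) (nat_lit 2) (.two (nat_lit 144) (nat_lit 2) (nat_lit 6374) (nat_lit 16) (.two (nat_lit 3) (nat_lit 1) (nat_lit 3594) (nat_lit 16) (.two (nat_lit 0) (nat_lit 1) (nat_lit 3579) (nat_lit 2) (.one (nat_lit 5478) (nat_lit 1) .nil))))),
   .der (nat_lit 165) (nat_lit 936),
   .der (nat_lit 26386) (nat_lit 3460),
   .prs (.two (nat_lit 13) (nat_lit 16) (nat_lit 2777) (nat_lit 2) (.two (nat_lit 190) (nat_lit 1) (nat_lit 6376) (nat_lit 2) (.two (nat_lit 16) (nat_lit 1) (nat_lit 6377) (nat_lit 16) (.one (nat_lit 5480) (nat_lit 16) .nil)))),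
   .der (nat_lit 6) (nat_lit 64),
   .der (nat_lit 2578) (nat_lit 417),
   .der (nat_lit 52) (nat_lit 2300),
   .prs (.two (nat_lit 440) (nat_lit 8) (nat_lit 6379) (nat_lit 16) (.two (nat_lit 427) (nat_lit 16) (nat_lit 6380) (nat_lit 8) (.two (nat_lit 1) (nat_lit 16) (nat_lit 6381) (nat_lit 8) (.one (nat_lit 4641) (nat_lit 8) .nil)))),
   .der (nat_lit 21107) (nat_lit 675),
   .prs (.two (nat_lit 145) (nat_lit 4) (nat_lit 5564) (nat_lit 2) (.two (nat_lit 4) (nat_lit 2) (nat_lit 6383) (nat_lit 4) (.two (nat_lit 1) (nat_lit 2) (nat_lit 1858) (nat_lit 4) (.two (nat_lit 0) (nat_lit 1) (nat_lit 3606) (nat_lit 2) (.one (nat_lit 5486) (nat_lit 4) .nil))))),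
   .der (nat_lit 627) (nat_lit 37),
   .der (nat_lit 1810) (nat_lit 472),
   .der (nat_lit 1810) (nat_lit 970),
   .der (nat_lit 6) (nat_lit 1473),
   .der (nat_lit 8) (nat_lit 4379),
   .prs (.two (nat_lit 717) (nat_lit 16) (nat_lit 6385) (nat_lit 2) (.two (nat_lit 111) (nat_lit 2) (nat_lit 6386) (nat_lit 16) (.two (nat_lit 433) (nat_lit 2) (nat_lit 6387) (nat_lit 16) (.two (nat_lit 16) (nat_lit 2) (nat_lit 6388) (nat_lit 16) (.two (nat_lit 0) (nat_lit 4) (nat_lit 6389) (nat_lit 2) .nil))))),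
   .der (nat_lit 37425) (nat_lit 95),
   .der (nat_lit 37425) (nat_lit 2332),
   .prs (.two (nat_lit 676) (nat_lit 16) (nat_lit 6391) (nat_lit 4) (.two (nat_lit 17) (nat_lit 4) (nat_lit 3136) (nat_lit 16) (.one (nat_lit 6392) (nat_lit 16) .nil))),
   .der (nat_lit 129) (nat_lit 572),
   .der (nat_lit 354) (nat_lit 907),
   .der (nat_lit 1890) (nat_lit 1450),
   .prs (.two (nat_lit 390) (nat_lit 16) (nat_lit 418) (nat_lit 1) (.two (nat_lit 12) (nat_lit 1) (nat_lit 5389) (nat_lit 16) (.two (nat_lit 493) (nat_lit 16) (nat_lit 6394) (nat_lit 1) (.two (nat_lit 1) (nat_lit 2) (nat_lit 6395) (nat_lit 1) (.two (nat_lit 0) (nat_lit 2) (nat_lit 6396) (nat_lit 1) (.one (nat_lit 4677) (nat_lit 16) .nil)))))),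
   .der (nat_lit 1057) (nat_lit 87),
   .der (nat_lit 1057) (nat_lit 435),
   .der (nat_lit 118) (nat_lit 1041),
   .prs (.two (nat_lit 86) (nat_lit 4) (nat_lit 6398) (nat_lit 1) (.two (nat_lit 173) (nat_lit 4) (nat_lit 6399) (nat_lit 1) (.two (nat_lit 1) (nat_lit 16) (nat_lit 6400) (nat_lit 4) (.two (nat_lit 0) (nat_lit 16) (nat_lit 2753) (nat_lit 1) (.one (nat_lit 4679) (nat_lit 1) .nil))))),
   .der (nat_lit 145) (nat_lit 48),
   .der (nat_lit 5971) (nat_lit 74),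
   .der (nat_lit 162) (nat_lit 421),
   .der (nat_lit 162) (nat_lit 864),
   .der (nat_lit 2193) (nat_lit 4436),
   .prs (.two (nat_lit 32) (nat_lit 8) (nat_lit 6402) (nat_lit 1) (.two (nat_lit 44) (nat_lit 8) (nat_lit 6403) (nat_lit 1) (.two (nat_lit 443) (nat_lit 1) (nat_lit 6404) (nat_lit 8) (.two (nat_lit 0) (nat_lit 1) (nat_lit 6405) (nat_lit 8) (.one (nat_lit 6406) (nat_lit 1) .nil))))),
   .der (nat_lit 10) (nat_lit 441),
   .der (nat_lit 1650) (nat_lit 1179),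
   .der (nat_lit 340) (nat_lit 2194),
   .prs (.two (nat_lit 1413) (nat_lit 8) (nat_lit 1671) (nat_lit 4) (.two (nat_lit 147) (nat_lit 4) (nat_lit 6408) (nat_lit 8) (.two (nat_lit 514) (nat_lit 4) (nat_lit 6409) (nat_lit 8) (.two (nat_lit 16) (nat_lit 2) (nat_lit 6410) (nat_lit 8) (.two (nat_lit 0) (nat_lit 2) (nat_lit 5462) (nat_lit 4) (.one (nat_lit 4656) (nat_lit 4) .nil)))))),
   .der (nat_lit 339) (nat_lit 64),
   .der (nat_lit 833) (nat_lit 1088),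
   .prs (.two (nat_lit 717) (nat_lit 16) (nat_lit 418) (nat_lit 1) (.two (nat_lit 12) (nat_lit 1) (nat_lit 6412) (nat_lit 16) (.two (nat_lit 329) (nat_lit 16) (nat_lit 6413) (nat_lit 1) (.two (nat_lit 0) (nat_lit 2) (nat_lit 4658) (nat_lit 1) .nil)))),
   .der (nat_lit 1300) (nat_lit 1045),
   .der (nat_lit 2084) (nat_lit 2214),
   .der (nat_lit 137) (nat_lit 4181),
   .prs (.two (nat_lit 80) (nat_lit 8) (nat_lit 1748) (nat_lit 16) (.two (nat_lit 227) (nat_lit 8) (nat_lit 6415) (nat_lit 16) (.two (nat_lit 1) (nat_lit 16) (nat_lit 6416) (nat_lit 8) (.one (nat_lit 6417) (nat_lit 8) .nil)))),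
   .der (nat_lit 65) (nat_lit 172),
   .der (nat_lit 13345) (nat_lit 897),
   .der (nat_lit 34068) (nat_lit 2203),
   .prs (.two (nat_lit 825) (nat_lit 4) (nat_lit 4719) (nat_lit 1) (.two (nat_lit 173) (nat_lit 4) (nat_lit 6419) (nat_lit 1) (.two (nat_lit 16) (nat_lit 4) (nat_lit 6420) (nat_lit 1) (.two (nat_lit 0) (nat_lit 1) (nat_lit 3615) (nat_lit 4) (.one (nat_lit 6421) (nat_lit 1) .nil))))),
   .der (nat_lit 627) (nat_lit 35),
   .prs (.two (nat_lit 1095) (nat_lit 2) (nat_lit 3638) (nat_lit 1) (.two (nat_lit 619) (nat_lit 1) (nat_lit 6423) (nat_lit 2) (.two (nat_lit 442) (nat_lit 1) (nat_lit 1235) (nat_lit 2) (.two (nat_lit 11) (nat_lit 1) (nat_lit 4592) (nat_lit 2) (.two (nat_lit 0) (nat_lit 1) (nat_lit 3622) (nat_lit 2) (.one (nat_lit 4687) (nat_lit 1) .nil)))))),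
   .der (nat_lit 340) (nat_lit 76),
   .der (nat_lit 852) (nat_lit 575),
   .der (nat_lit 33) (nat_lit 1030),
   .prs (.two (nat_lit 80) (nat_lit 16) (nat_lit 3840) (nat_lit 2) (.two (nat_lit 1459) (nat_lit 16) (nat_lit 6425) (nat_lit 2) (.two (nat_lit 144) (nat_lit 2) (nat_lit 6426) (nat_lit 16) (.two (nat_lit 1) (nat_lit 2) (nat_lit 6427) (nat_lit 16) (.two (nat_lit 0) (nat_lit 2) (nat_lit 2757) (nat_lit 16) (.one (nat_lit 5491) (nat_lit 2) .nil)))))),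
   .der (nat_lit 371) (nat_lit 21),
   .der (nat_lit 801) (nat_lit 64),
   .der (nat_lit 18) (nat_lit 852),
   .prs (.two (nat_lit 32) (nat_lit 16) (nat_lit 6429) (nat_lit 1) (.two (nat_lit 886) (nat_lit 1) (nat_lit 6430) (nat_lit 16) (.two (nat_lit 341) (nat_lit 1) (nat_lit 6431) (nat_lit 16) (.two (nat_lit 0) (nat_lit 1) (nat_lit 2769) (nat_lit 16) (.one (nat_lit 5494) (nat_lit 1) .nil))))),
   .der (nat_lit 103) (nat_lit 1633),
   .der (nat_lit 83) (nat_lit 2503),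
   .prs (.two (nat_lit 122) (nat_lit 8) (nat_lit 2793) (nat_lit 1) (.two (nat_lit 4) (nat_lit 8) (nat_lit 6433) (nat_lit 1) (.two (nat_lit 0) (nat_lit 8) (nat_lit 6434) (nat_lit 1) (.one (nat_lit 5497) (nat_lit 1) .nil)))),
   .der (nat_lit 1893) (nat_lit 681),
   .der (nat_lit 38163) (nat_lit 1186),
   .prs (.two (nat_lit 32) (nat_lit 8) (nat_lit 6248) (nat_lit 1) (.two (nat_lit 384) (nat_lit 8) (nat_lit 6436) (nat_lit 1) (.two (nat_lit 11) (nat_lit 8) (nat_lit 6437) (nat_lit 1) (.two (nat_lit 0) (nat_lit 4) (nat_lit 4701) (nat_lit 1) (.one (nat_lit 4702) (nat_lit 1) .nil))))),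
   .der (nat_lit 2135) (nat_lit 508),
   .der (nat_lit 659) (nat_lit 1544),
   .prs (.two (nat_lit 676) (nat_lit 16) (nat_lit 4842) (nat_lit 2) (.two (nat_lit 202) (nat_lit 16) (nat_lit 6439) (nat_lit 2) (.two (nat_lit 3) (nat_lit 16) (nat_lit 6440) (nat_lit 1) (.two (nat_lit 0) (nat_lit 16) (nat_lit 3631) (nat_lit 1) (.one (nat_lit 5499) (nat_lit 1) .nil))))),
   .der (nat_lit 2323) (nat_lit 864),
   .prs (.two (nat_lit 794) (nat_lit 4) (nat_lit 2211) (nat_lit 16) (.two (nat_lit 3081) (nat_lit 16) (nat_lit 6442) (nat_lit 4) (.one (nat_lit 5502) (nat_lit 4) .nil))),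
   .der (nat_lit 10545) (nat_lit 41),
   .der (nat_lit 370) (nat_lit 218),
   .der (nat_lit 2) (nat_lit 950),
   .der (nat_lit 2) (nat_lit 1415),
   .prs (.two (nat_lit 94) (nat_lit 2) (nat_lit 6444) (nat_lit 8) (.two (nat_lit 791) (nat_lit 2) (nat_lit 6445) (nat_lit 1) (.two (nat_lit 482) (nat_lit 1) (nat_lit 1397) (nat_lit 8) (.two (nat_lit 1) (nat_lit 2) (nat_lit 6446) (nat_lit 8) (.two (nat_lit 0) (nat_lit 1) (nat_lit 6447) (nat_lit 2) (.one (nat_lit 5505) (nat_lit 2) .nil)))))),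
   .der (nat_lit 2084) (nat_lit 72),
   .prs (.two (nat_lit 145) (nat_lit 4) (nat_lit 6449) (nat_lit 2) (.two (nat_lit 2) (nat_lit 16) (nat_lit 4642) (nat_lit 4) (.two (nat_lit 1) (nat_lit 2) (nat_lit 4644) (nat_lit 4) (.one (nat_lit 5506) (nat_lit 16) .nil)))),
   .der (nat_lit 8) (nat_lit 586),
   .prs (.two (nat_lit 147) (nat_lit 16) (nat_lit 2959) (nat_lit 8) (.two (nat_lit 1) (nat_lit 16) (nat_lit 6451) (nat_lit 8) (.two (nat_lit 0) (nat_lit 1) (nat_lit 2669) (nat_lit 8) (.one (nat_lit 5513) (nat_lit 8) .nil)))),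
   .der (nat_lit 2113) (nat_lit 21),
   .der (nat_lit 33) (nat_lit 700),
   .der (nat_lit 577) (nat_lit 1022),
   .der (nat_lit 114) (nat_lit 2526),
   .prs (.two (nat_lit 1322) (nat_lit 8) (nat_lit 6453) (nat_lit 1) (.two (nat_lit 12) (nat_lit 1) (nat_lit 4646) (nat_lit 8) (.two (nat_lit 34) (nat_lit 8) (nat_lit 6454) (nat_lit 1) (.two (nat_lit 1) (nat_lit 2) (nat_lit 6455) (nat_lit 1) (.two (nat_lit 0) (nat_lit 2) (nat_lit 6456) (nat_lit 8) (.one (nat_lit 5512) (nat_lit 1) .nil)))))),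
   .der (nat_lit 17185) (nat_lit 177),
   .prs (.two (nat_lit 1413) (nat_lit 4) (nat_lit 785) (nat_lit 1) (.two (nat_lit 397) (nat_lit 1) (nat_lit 1815) (nat_lit 4) (.two (nat_lit 173) (nat_lit 1) (nat_lit 6458) (nat_lit 4) (.two (nat_lit 16) (nat_lit 1) (nat_lit 3637) (nat_lit 2) (.two (nat_lit 0) (nat_lit 2) (nat_lit 4714) (nat_lit 4) (.one (nat_lit 4718) (nat_lit 2) .nil)))))),
   .der (nat_lit 1554) (nat_lit 93),
   .der (nat_lit 17185) (nat_lit 1065),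
   .prs (.two (nat_lit 38) (nat_lit 8) (nat_lit 6460) (nat_lit 1) (.two (nat_lit 7) (nat_lit 8) (nat_lit 6461) (nat_lit 1) (.two (nat_lit 0) (nat_lit 8) (nat_lit 4676) (nat_lit 1) (.one (nat_lit 4721) (nat_lit 4) .nil)))),
   .der (nat_lit 8) (nat_lit 2360),
   .prs (.two (nat_lit 794) (nat_lit 16) (nat_lit 1815) (nat_lit 4) (.two (nat_lit 956) (nat_lit 4) (nat_lit 1549) (nat_lit 16) (.two (nat_lit 3) (nat_lit 4) (nat_lit 6463) (nat_lit 16) (.one (nat_lit 5529) (nat_lit 16) .nil)))),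
   .der (nat_lit 101) (nat_lit 229),
   .der (nat_lit 3) (nat_lit 414),
   .der (nat_lit 19) (nat_lit 894),
   .der (nat_lit 98) (nat_lit 2220),
   .prs (.two (nat_lit 990) (nat_lit 8) (nat_lit 6465) (nat_lit 16) (.two (nat_lit 590) (nat_lit 8) (nat_lit 6466) (nat_lit 16) (.two (nat_lit 224) (nat_lit 8) (nat_lit 6467) (nat_lit 16) (.two (nat_lit 11) (nat_lit 8) (nat_lit 6468) (nat_lit 16) (.one (nat_lit 5532) (nat_lit 8) .nil))))),
   .der (nat_lit 161) (nat_lit 93),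
   .der (nat_lit 66) (nat_lit 745),
   .der (nat_lit 84) (nat_lit 1415),
   .der (nat_lit 18) (nat_lit 3477),
   .prs (.two (nat_lit 145) (nat_lit 4) (nat_lit 6470) (nat_lit 1) (.two (nat_lit 505) (nat_lit 4) (nat_lit 6471) (nat_lit 1) (.two (nat_lit 329) (nat_lit 4) (nat_lit 6472) (nat_lit 1) (.two (nat_lit 0) (nat_lit 2) (nat_lit 6473) (nat_lit 1) (.one (nat_lit 5536) (nat_lit 4) .nil))))),
   .der (nat_lit 22803) (nat_lit 187),
   .der (nat_lit 83) (nat_lit 831),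
   .der (nat_lit 1299) (nat_lit 4487),
   .prs (.two (nat_lit 717) (nat_lit 16) (nat_lit 4868) (nat_lit 2) (.two (nat_lit 1126) (nat_lit 16) (nat_lit 6475) (nat_lit 2) (.two (nat_lit 439) (nat_lit 2) (nat_lit 6476) (nat_lit 16) (.two (nat_lit 46) (nat_lit 1) (nat_lit 4751) (nat_lit 16) (.two (nat_lit 0) (nat_lit 1) (nat_lit 6477) (nat_lit 2) (.one (nat_lit 5538) (nat_lit 1) .nil)))))),
   .der (nat_lit 370) (nat_lit 90),
   .der (nat_lit 1415) (nat_lit 199),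
   .der (nat_lit 1395) (nat_lit 3273),
   .prs (.two (nat_lit 418) (nat_lit 16) (nat_lit 6479) (nat_lit 1) (.two (nat_lit 227) (nat_lit 16) (nat_lit 6480) (nat_lit 2) (.two (nat_lit 434) (nat_lit 16) (nat_lit 2009) (nat_lit 1) (.two (nat_lit 46) (nat_lit 1) (nat_lit 4754) (nat_lit 16) (.two (nat_lit 0) (nat_lit 2) (nat_lit 6481) (nat_lit 1) (.one (nat_lit 5542) (nat_lit 1) .nil)))))),
   .der (nat_lit 118) (nat_lit 93),
   .der (nat_lit 50) (nat_lit 827),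
   .der (nat_lit 33) (nat_lit 1432),
   .prs (.two (nat_lit 1113) (nat_lit 16) (nat_lit 6483) (nat_lit 4) (.two (nat_lit 42) (nat_lit 4) (nat_lit 6484) (nat_lit 16) (.two (nat_lit 1) (nat_lit 4) (nat_lit 6485) (nat_lit 16) (.two (nat_lit 0) (nat_lit 4) (nat_lit 4738) (nat_lit 16) (.one (nat_lit 5524) (nat_lit 4) .nil))))),
   .der (nat_lit 2) (nat_lit 3175),
   .prs (.two (nat_lit 390) (nat_lit 16) (nat_lit 1424) (nat_lit 4) (.two (nat_lit 456) (nat_lit 4) (nat_lit 860) (nat_lit 16) (.two (nat_lit 1) (nat_lit 4) (nat_lit 6487) (nat_lit 16) (.one (nat_lit 5544) (nat_lit 4) .nil)))),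
   .der (nat_lit 50) (nat_lit 74),
   .prs (.two (nat_lit 520) (nat_lit 16) (nat_lit 6489) (nat_lit 1) (.two (nat_lit 374) (nat_lit 1) (nat_lit 3444) (nat_lit 4) (.two (nat_lit 0) (nat_lit 8) (nat_lit 5246) (nat_lit 1) (.one (nat_lit 4748) (nat_lit 1) .nil)))),
   .der (nat_lit 36) (nat_lit 67),
   .der (nat_lit 38163) (nat_lit 560),
   .der (nat_lit 801) (nat_lit 1381),
   .prs (.two (nat_lit 97) (nat_lit 16) (nat_lit 6491) (nat_lit 1) (.two (nat_lit 791) (nat_lit 16) (nat_lit 6492) (nat_lit 2) (.two (nat_lit 78) (nat_lit 1) (nat_lit 6493) (nat_lit 16) (.two (nat_lit 0) (nat_lit 1) (nat_lit 3722) (nat_lit 16) (.one (nat_lit 5516) (nat_lit 1) .nil))))),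
   .der (nat_lit 20) (nat_lit 481),
   .der (nat_lit 65) (nat_lit 1041),
   .prs (.two (nat_lit 794) (nat_lit 16) (nat_lit 6495) (nat_lit 4) (.two (nat_lit 1) (nat_lit 16) (nat_lit 6496) (nat_lit 4) (.two (nat_lit 0) (nat_lit 2) (nat_lit 6481) (nat_lit 4) .nil))),
   .der (nat_lit 1395) (nat_lit 1597),
   .der (nat_lit 135) (nat_lit 2614)]

theorem b5_step12 (h : ∀ j < 6000, Good b5T j) : ∀ j < 6500, Good b5T j := by
  intro j hj
  refine chkL_ok b5C12 6000 h (by decide +kernel) j ?_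
  have h : b5C12.length = 500 := by decide +kernel
  omega

/-- certificates 6500..7000 -/
def b5C13 : List Cf :=
  [.prs (.two (nat_lit 122) (nat_lit 4) (nat_lit 2692) (nat_lit 2) (.two (nat_lit 206) (nat_lit 2) (nat_lit 5501) (nat_lit 4) (.two (nat_lit 1) (nat_lit 2) (nat_lit 6498) (nat_lit 4) (.two (nat_lit 0) (nat_lit 2) (nat_lit 6499) (nat_lit 4) (.one (nat_lit 4758) (nat_lit 2) .nil))))),
   .der (nat_lit 49) (nat_lit 824),
   .der (nat_lit 354) (nat_lit 2464),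
   .prs (.two (nat_lit 97) (nat_lit 16) (nat_lit 5114) (nat_lit 2) (.two (nat_lit 1) (nat_lit 2) (nat_lit 6501) (nat_lit 16) (.two (nat_lit 0) (nat_lit 2) (nat_lit 6502) (nat_lit 16) (.one (nat_lit 5548) (nat_lit 2) .nil)))),
   .der (nat_lit 7) (nat_lit 73),
   .der (nat_lit 2) (nat_lit 1392),
   .der (nat_lit 627) (nat_lit 3273),
   .prs (.two (nat_lit 1113) (nat_lit 16) (nat_lit 6504) (nat_lit 2) (.two (nat_lit 528) (nat_lit 2) (nat_lit 3987) (nat_lit 16) (.two (nat_lit 1) (nat_lit 2) (nat_lit 6505) (nat_lit 16) (.two (nat_lit 0) (nat_lit 8) (nat_lit 6506) (nat_lit 2) (.one (nat_lit 5588) (nat_lit 16) .nil))))),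
   .der (nat_lit 1875) (nat_lit 39),
   .der (nat_lit 50) (nat_lit 417),
   .der (nat_lit 98) (nat_lit 1385),
   .der (nat_lit 18) (nat_lit 4067),
   .prs (.two (nat_lit 69) (nat_lit 16) (nat_lit 6508) (nat_lit 1) (.two (nat_lit 1149) (nat_lit 1) (nat_lit 6509) (nat_lit 16) (.two (nat_lit 16) (nat_lit 1) (nat_lit 6510) (nat_lit 16) (.two (nat_lit 0) (nat_lit 1) (nat_lit 6511) (nat_lit 16) .nil)))),
   .der (nat_lit 115) (nat_lit 108),
   .der (nat_lit 1299) (nat_lit 1377),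
   .der (nat_lit 2323) (nat_lit 3124),
   .der (nat_lit 150) (nat_lit 4254),
   .prs (.two (nat_lit 794) (nat_lit 16) (nat_lit 6513) (nat_lit 2) (.two (nat_lit 489) (nat_lit 16) (nat_lit 4234) (nat_lit 2) (.two (nat_lit 170) (nat_lit 2) (nat_lit 6514) (nat_lit 16) (.two (nat_lit 0) (nat_lit 2) (nat_lit 6515) (nat_lit 16) (.one (nat_lit 6516) (nat_lit 2) .nil))))),
   .der (nat_lit 150) (nat_lit 1047),
   .der (nat_lit 150) (nat_lit 2363),
   .prs (.two (nat_lit 676) (nat_lit 8) (nat_lit 6489) (nat_lit 16) (.two (nat_lit 173) (nat_lit 1) (nat_lit 6518) (nat_lit 16) (.two (nat_lit 3) (nat_lit 1) (nat_lit 6519) (nat_lit 16) (.one (nat_lit 5617) (nat_lit 16) .nil)))),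
   .der (nat_lit 340) (nat_lit 2317),
   .prs (.two (nat_lit 520) (nat_lit 4) (nat_lit 1556) (nat_lit 16) (.two (nat_lit 1) (nat_lit 2) (nat_lit 6521) (nat_lit 4) (.one (nat_lit 4777) (nat_lit 4) .nil))),
   .der (nat_lit 2068) (nat_lit 904),
   .prs (.two (nat_lit 1413) (nat_lit 8) (nat_lit 1393) (nat_lit 4) (.two (nat_lit 124) (nat_lit 16) (nat_lit 4762) (nat_lit 8) (.two (nat_lit 78) (nat_lit 4) (nat_lit 6523) (nat_lit 8) (.two (nat_lit 0) (nat_lit 4) (nat_lit 4812) (nat_lit 8) (.one (nat_lit 4815) (nat_lit 16) .nil))))),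
   .der (nat_lit 132) (nat_lit 495),
   .der (nat_lit 132) (nat_lit 897),
   .der (nat_lit 5716) (nat_lit 2468),
   .prs (.two (nat_lit 69) (nat_lit 1) (nat_lit 2981) (nat_lit 8) (.two (nat_lit 44) (nat_lit 1) (nat_lit 6525) (nat_lit 8) (.two (nat_lit 75) (nat_lit 4) (nat_lit 6526) (nat_lit 1) (.two (nat_lit 1) (nat_lit 4) (nat_lit 6527) (nat_lit 1) (.two (nat_lit 0) (nat_lit 4) (nat_lit 4780) (nat_lit 1) (.one (nat_lit 5595) (nat_lit 4) .nil)))))),
   .der (nat_lit 1300) (nat_lit 187),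
   .der (nat_lit 2433) (nat_lit 417),
   .der (nat_lit 36) (nat_lit 2192),
   .der (nat_lit 1) (nat_lit 4071),
   .prs (.two (nat_lit 440) (nat_lit 8) (nat_lit 6529) (nat_lit 4) (.two (nat_lit 4) (nat_lit 8) (nat_lit 6530) (nat_lit 4) (.two (nat_lit 1) (nat_lit 8) (nat_lit 6531) (nat_lit 4) (.one (nat_lit 6532) (nat_lit 8) .nil)))),
   .der (nat_lit 577) (nat_lit 1033),
   .der (nat_lit 103) (nat_lit 1432),
   .der (nat_lit 1) (nat_lit 3755),
   .prs (.two (nat_lit 522) (nat_lit 8) (nat_lit 4805) (nat_lit 1) (.two (nat_lit 1333) (nat_lit 1) (nat_lit 6534) (nat_lit 8) (.two (nat_lit 11) (nat_lit 1) (nat_lit 6535) (nat_lit 8) (.two (nat_lit 0) (nat_lit 1) (nat_lit 6536) (nat_lit 8) (.one (nat_lit 5598) (nat_lit 1) .nil))))),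
   .der (nat_lit 34068) (nat_lit 1760),
   .der (nat_lit 1395) (nat_lit 2931),
   .der (nat_lit 577) (nat_lit 4677),
   .prs (.two (nat_lit 520) (nat_lit 8) (nat_lit 2245) (nat_lit 1) (.two (nat_lit 129) (nat_lit 8) (nat_lit 4839) (nat_lit 1) (.two (nat_lit 2) (nat_lit 8) (nat_lit 6538) (nat_lit 2) (.two (nat_lit 1) (nat_lit 16) (nat_lit 6539) (nat_lit 1) (.two (nat_lit 0) (nat_lit 16) (nat_lit 6540) (nat_lit 8) (.one (nat_lit 5601) (nat_lit 8) .nil)))))),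
   .der (nat_lit 135) (nat_lit 73),
   .der (nat_lit 86) (nat_lit 421),
   .der (nat_lit 6) (nat_lit 3999),
   .prs (.two (nat_lit 94) (nat_lit 16) (nat_lit 6542) (nat_lit 2) (.two (nat_lit 1435) (nat_lit 2) (nat_lit 2957) (nat_lit 16) (.two (nat_lit 96) (nat_lit 2) (nat_lit 6543) (nat_lit 16) (.two (nat_lit 1) (nat_lit 2) (nat_lit 5609) (nat_lit 16) (.two (nat_lit 0) (nat_lit 4) (nat_lit 6544) (nat_lit 2) .nil))))),
   .der (nat_lit 38163) (nat_lit 255),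
   .der (nat_lit 852) (nat_lit 481),
   .prs (.two (nat_lit 1095) (nat_lit 2) (nat_lit 6546) (nat_lit 1) (.two (nat_lit 581) (nat_lit 1) (nat_lit 6547) (nat_lit 2) (.two (nat_lit 16) (nat_lit 1) (nat_lit 1309) (nat_lit 2) (.two (nat_lit 0) (nat_lit 1) (nat_lit 3758) (nat_lit 2) (.one (nat_lit 5618) (nat_lit 2) .nil))))),
   .der (nat_lit 19) (nat_lit 524),
   .der (nat_lit 340) (nat_lit 1542),
   .prs (.two (nat_lit 32) (nat_lit 8) (nat_lit 5577) (nat_lit 4) (.two (nat_lit 956) (nat_lit 4) (nat_lit 6549) (nat_lit 8) (.two (nat_lit 3081) (nat_lit 4) (nat_lit 6550) (nat_lit 8) (.two (nat_lit 1) (nat_lit 4) (nat_lit 3752) (nat_lit 8) (.one (nat_lit 5608) (nat_lit 4) .nil))))),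
   .der (nat_lit 2593) (nat_lit 508),
   .der (nat_lit 2353) (nat_lit 3353),
   .prs (.two (nat_lit 1554) (nat_lit 16) (nat_lit 4773) (nat_lit 1) (.two (nat_lit 723) (nat_lit 16) (nat_lit 6552) (nat_lit 1) (.two (nat_lit 482) (nat_lit 1) (nat_lit 1692) (nat_lit 16) (.two (nat_lit 1) (nat_lit 2) (nat_lit 2935) (nat_lit 16) (.two (nat_lit 0) (nat_lit 1) (nat_lit 6553) (nat_lit 2) (.one (nat_lit 4402) (nat_lit 1) .nil)))))),
   .der (nat_lit 115) (nat_lit 172),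
   .der (nat_lit 49) (nat_lit 2220),
   .prs (.two (nat_lit 794) (nat_lit 16) (nat_lit 4182) (nat_lit 2) (.two (nat_lit 489) (nat_lit 16) (nat_lit 6555) (nat_lit 2) (.two (nat_lit 338) (nat_lit 2) (nat_lit 4771) (nat_lit 16) (.two (nat_lit 11) (nat_lit 2) (nat_lit 3110) (nat_lit 16) (.two (nat_lit 0) (nat_lit 2) (nat_lit 6556) (nat_lit 16) (.one (nat_lit 5610) (nat_lit 2) .nil)))))),
   .der (nat_lit 103) (nat_lit 1051),
   .prs (.two (nat_lit 440) (nat_lit 16) (nat_lit 424) (nat_lit 4) (.two (nat_lit 173) (nat_lit 4) (nat_lit 6558) (nat_lit 16) (.two (nat_lit 11) (nat_lit 16) (nat_lit 3763) (nat_lit 4) (.two (nat_lit 0) (nat_lit 16) (nat_lit 4796) (nat_lit 4) (.one (nat_lit 4800) (nat_lit 16) .nil))))),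
   .der (nat_lit 86) (nat_lit 686),
   .der (nat_lit 6) (nat_lit 2220),
   .prs (.two (nat_lit 105) (nat_lit 16) (nat_lit 1863) (nat_lit 1) (.two (nat_lit 28) (nat_lit 16) (nat_lit 6560) (nat_lit 1) (.two (nat_lit 374) (nat_lit 1) (nat_lit 3110) (nat_lit 16) (.two (nat_lit 0) (nat_lit 1) (nat_lit 6561) (nat_lit 16) (.one (nat_lit 5613) (nat_lit 1) .nil))))),
   .prs (.two (nat_lit 109) (nat_lit 1) (nat_lit 3382) (nat_lit 16) (.two (nat_lit 723) (nat_lit 16) (nat_lit 6125) (nat_lit 1) (.two (nat_lit 3) (nat_lit 1) (nat_lit 5609) (nat_lit 16) (.two (nat_lit 0) (nat_lit 1) (nat_lit 3766) (nat_lit 16) (.one (nat_lit 5615) (nat_lit 1) .nil))))),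
   .prs (.two (nat_lit 105) (nat_lit 8) (nat_lit 3221) (nat_lit 16) (.two (nat_lit 1) (nat_lit 2) (nat_lit 3757) (nat_lit 16) (.two (nat_lit 0) (nat_lit 2) (nat_lit 4822) (nat_lit 8) (.one (nat_lit 5619) (nat_lit 8) .nil)))),
   .der (nat_lit 67) (nat_lit 702),
   .der (nat_lit 1107) (nat_lit 1022),
   .prs (.two (nat_lit 717) (nat_lit 16) (nat_lit 4762) (nat_lit 1) (.two (nat_lit 4) (nat_lit 2) (nat_lit 6565) (nat_lit 16) (.two (nat_lit 1) (nat_lit 2) (nat_lit 6566) (nat_lit 1) (.two (nat_lit 0) (nat_lit 1) (nat_lit 4804) (nat_lit 2) .nil)))),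
   .der (nat_lit 20) (nat_lit 128),
   .prs (.two (nat_lit 825) (nat_lit 16) (nat_lit 6568) (nat_lit 4) (.two (nat_lit 202) (nat_lit 4) (nat_lit 3110) (nat_lit 16) (.one (nat_lit 6561) (nat_lit 16) .nil))),
   .der (nat_lit 340) (nat_lit 74),
   .der (nat_lit 115) (nat_lit 1041),
   .der (nat_lit 2339) (nat_lit 3305),
   .prs (.two (nat_lit 1095) (nat_lit 4) (nat_lit 6570) (nat_lit 2) (.two (nat_lit 96) (nat_lit 2) (nat_lit 6571) (nat_lit 4) (.two (nat_lit 0) (nat_lit 2) (nat_lit 6572) (nat_lit 4) .nil))),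
   .der (nat_lit 8) (nat_lit 110),
   .prs (.two (nat_lit 1113) (nat_lit 16) (nat_lit 6574) (nat_lit 8) (.two (nat_lit 2) (nat_lit 8) (nat_lit 3221) (nat_lit 16) (.two (nat_lit 3) (nat_lit 8) (nat_lit 2021) (nat_lit 16) (.two (nat_lit 0) (nat_lit 16) (nat_lit 4843) (nat_lit 8) (.one (nat_lit 5625) (nat_lit 8) .nil))))),
   .prs (.two (nat_lit 717) (nat_lit 16) (nat_lit 573) (nat_lit 2) (.two (nat_lit 625) (nat_lit 2) (nat_lit 204) (nat_lit 16) (.two (nat_lit 361) (nat_lit 2) (nat_lit 6565) (nat_lit 16) (.two (nat_lit 11) (nat_lit 2) (nat_lit 2025) (nat_lit 16) (.two (nat_lit 0) (nat_lit 8) (nat_lit 4804) (nat_lit 2) .nil))))),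
   .der (nat_lit 114) (nat_lit 74),
   .der (nat_lit 1554) (nat_lit 2360),
   .prs (.two (nat_lit 1113) (nat_lit 16) (nat_lit 6577) (nat_lit 2) (.two (nat_lit 361) (nat_lit 2) (nat_lit 1556) (nat_lit 16) (.two (nat_lit 0) (nat_lit 2) (nat_lit 6578) (nat_lit 16) .nil))),
   .prs (.two (nat_lit 418) (nat_lit 16) (nat_lit 3952) (nat_lit 1) (.two (nat_lit 710) (nat_lit 1) (nat_lit 4803) (nat_lit 16) (.two (nat_lit 0) (nat_lit 1) (nat_lit 3800) (nat_lit 16) (.one (nat_lit 4855) (nat_lit 16) .nil)))),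
   .der (nat_lit 129) (nat_lit 24),
   .prs (.two (nat_lit 674) (nat_lit 2) (nat_lit 6581) (nat_lit 1) (.two (nat_lit 30) (nat_lit 1) (nat_lit 4805) (nat_lit 2) (.two (nat_lit 7) (nat_lit 1) (nat_lit 3066) (nat_lit 2) (.two (nat_lit 3) (nat_lit 1) (nat_lit 5725) (nat_lit 2) (.two (nat_lit 0) (nat_lit 1) (nat_lit 3804) (nat_lit 2) (.one (nat_lit 5627) (nat_lit 2) .nil)))))),
   .der (nat_lit 33345) (nat_lit 106),
   .der (nat_lit 37425) (nat_lit 172),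
   .der (nat_lit 356) (nat_lit 2812),
   .der (nat_lit 354) (nat_lit 4252),
   .prs (.two (nat_lit 13) (nat_lit 8) (nat_lit 6583) (nat_lit 4) (.two (nat_lit 42) (nat_lit 8) (nat_lit 6584) (nat_lit 4) (.two (nat_lit 248) (nat_lit 8) (nat_lit 2069) (nat_lit 1) (.two (nat_lit 16) (nat_lit 1) (nat_lit 6585) (nat_lit 8) (.two (nat_lit 0) (nat_lit 4) (nat_lit 6586) (nat_lit 1) .nil))))),
   .der (nat_lit 65) (nat_lit 521),
   .der (nat_lit 21107) (nat_lit 2021),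
   .der (nat_lit 129) (nat_lit 1647),
   .der (nat_lit 1074) (nat_lit 4796),
   .prs (.two (nat_lit 13) (nat_lit 8) (nat_lit 6588) (nat_lit 4) (.two (nat_lit 4) (nat_lit 8) (nat_lit 6589) (nat_lit 4) (.two (nat_lit 3) (nat_lit 4) (nat_lit 6590) (nat_lit 8) (.two (nat_lit 0) (nat_lit 4) (nat_lit 6591) (nat_lit 8) (.one (nat_lit 4010) (nat_lit 4) .nil))))),
   .der (nat_lit 24916) (nat_lit 317),
   .prs (.two (nat_lit 32) (nat_lit 8) (nat_lit 6593) (nat_lit 4) (.two (nat_lit 882) (nat_lit 8) (nat_lit 424) (nat_lit 4) (.two (nat_lit 2) (nat_lit 4) (nat_lit 5866) (nat_lit 8) (.two (nat_lit 0) (nat_lit 4) (nat_lit 3008) (nat_lit 8) (.one (nat_lit 5868) (nat_lit 4) .nil))))),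
   .der (nat_lit 165) (nat_lit 90),
   .der (nat_lit 1) (nat_lit 2249),
   .prs (.two (nat_lit 794) (nat_lit 4) (nat_lit 6595) (nat_lit 16) (.two (nat_lit 30) (nat_lit 16) (nat_lit 6278) (nat_lit 1) (.two (nat_lit 3) (nat_lit 16) (nat_lit 6596) (nat_lit 2) (.one (nat_lit 5632) (nat_lit 1) .nil)))),
   .der (nat_lit 161) (nat_lit 698),
   .der (nat_lit 1415) (nat_lit 3541),
   .prs (.two (nat_lit 105) (nat_lit 8) (nat_lit 3844) (nat_lit 1) (.two (nat_lit 489) (nat_lit 4) (nat_lit 6598) (nat_lit 2) (.two (nat_lit 170) (nat_lit 4) (nat_lit 6017) (nat_lit 8) (.two (nat_lit 1) (nat_lit 4) (nat_lit 6599) (nat_lit 8) (.two (nat_lit 0) (nat_lit 2) (nat_lit 4867) (nat_lit 4) (.one (nat_lit 5635) (nat_lit 2) .nil)))))),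
   .der (nat_lit 10305) (nat_lit 35),
   .der (nat_lit 2323) (nat_lit 594),
   .der (nat_lit 2323) (nat_lit 4039),
   .prs (.two (nat_lit 127) (nat_lit 16) (nat_lit 6601) (nat_lit 4) (.two (nat_lit 489) (nat_lit 16) (nat_lit 6602) (nat_lit 4) (.two (nat_lit 556) (nat_lit 4) (nat_lit 4091) (nat_lit 16) (.two (nat_lit 0) (nat_lit 2) (nat_lit 6603) (nat_lit 4) .nil)))),
   .der (nat_lit 9587) (nat_lit 243),
   .der (nat_lit 5716) (nat_lit 177),
   .der (nat_lit 9) (nat_lit 897),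
   .prs (.two (nat_lit 676) (nat_lit 16) (nat_lit 6605) (nat_lit 8) (.two (nat_lit 6) (nat_lit 16) (nat_lit 6606) (nat_lit 8) (.two (nat_lit 34) (nat_lit 16) (nat_lit 6607) (nat_lit 8) (.two (nat_lit 3) (nat_lit 8) (nat_lit 4870) (nat_lit 16) (.two (nat_lit 0) (nat_lit 4) (nat_lit 4776) (nat_lit 8) (.one (nat_lit 4872) (nat_lit 8) .nil)))))),
   .der (nat_lit 10305) (nat_lit 37),
   .der (nat_lit 35) (nat_lit 1074),
   .der (nat_lit 152) (nat_lit 1400),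
   .der (nat_lit 3) (nat_lit 4383),
   .prs (.two (nat_lit 127) (nat_lit 16) (nat_lit 6609) (nat_lit 4) (.two (nat_lit 758) (nat_lit 4) (nat_lit 6610) (nat_lit 16) (.two (nat_lit 1) (nat_lit 16) (nat_lit 6611) (nat_lit 4) (.two (nat_lit 0) (nat_lit 8) (nat_lit 6612) (nat_lit 4) .nil)))),
   .der (nat_lit 1875) (nat_lit 3144),
   .prs (.two (nat_lit 676) (nat_lit 16) (nat_lit 932) (nat_lit 4) (.two (nat_lit 528) (nat_lit 4) (nat_lit 5609) (nat_lit 16) (.two (nat_lit 0) (nat_lit 4) (nat_lit 6614) (nat_lit 16) .nil))),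
   .der (nat_lit 2353) (nat_lit 115),
   .der (nat_lit 29011) (nat_lit 599),
   .der (nat_lit 612) (nat_lit 1803),
   .der (nat_lit 7) (nat_lit 2427),
   .der (nat_lit 98) (nat_lit 4145),
   .prs (.two (nat_lit 794) (nat_lit 2) (nat_lit 6616) (nat_lit 4) (.two (nat_lit 397) (nat_lit 1) (nat_lit 6617) (nat_lit 4) (.two (nat_lit 493) (nat_lit 2) (nat_lit 6618) (nat_lit 4) (.two (nat_lit 11) (nat_lit 2) (nat_lit 6619) (nat_lit 1) (.two (nat_lit 0) (nat_lit 1) (nat_lit 4879) (nat_lit 2) (.one (nat_lit 6620) (nat_lit 2) .nil)))))),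
   .der (nat_lit 2323) (nat_lit 1160),
   .prs (.two (nat_lit 13) (nat_lit 16) (nat_lit 4911) (nat_lit 8) (.two (nat_lit 590) (nat_lit 8) (nat_lit 6622) (nat_lit 16) (.two (nat_lit 1) (nat_lit 8) (nat_lit 5649) (nat_lit 16) (.two (nat_lit 0) (nat_lit 8) (nat_lit 4882) (nat_lit 16) (.one (nat_lit 5645) (nat_lit 8) .nil))))),
   .der (nat_lit 83) (nat_lit 1392),
   .der (nat_lit 35) (nat_lit 3725),
   .prs (.two (nat_lit 145) (nat_lit 16) (nat_lit 6609) (nat_lit 4) (.two (nat_lit 758) (nat_lit 4) (nat_lit 1411) (nat_lit 16) (.two (nat_lit 3) (nat_lit 4) (nat_lit 6624) (nat_lit 16) (.two (nat_lit 0) (nat_lit 1) (nat_lit 6625) (nat_lit 4) (.one (nat_lit 5647) (nat_lit 4) .nil))))),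
   .der (nat_lit 339) (nat_lit 110),
   .der (nat_lit 2068) (nat_lit 1747),
   .prs (.two (nat_lit 1848) (nat_lit 2) (nat_lit 6627) (nat_lit 1) (.two (nat_lit 514) (nat_lit 2) (nat_lit 2080) (nat_lit 1) (.two (nat_lit 11) (nat_lit 1) (nat_lit 6628) (nat_lit 2) (.two (nat_lit 0) (nat_lit 1) (nat_lit 3859) (nat_lit 2) (.one (nat_lit 4900) (nat_lit 2) .nil))))),
   .der (nat_lit 1) (nat_lit 686),
   .prs (.two (nat_lit 717) (nat_lit 16) (nat_lit 4446) (nat_lit 2) (.two (nat_lit 1459) (nat_lit 16) (nat_lit 6630) (nat_lit 2) (.two (nat_lit 5) (nat_lit 1) (nat_lit 864) (nat_lit 16) (.two (nat_lit 0) (nat_lit 1) (nat_lit 4891) (nat_lit 16) (.one (nat_lit 4895) (nat_lit 2) .nil))))),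
   .der (nat_lit 115) (nat_lit 37),
   .der (nat_lit 67) (nat_lit 448),
   .der (nat_lit 7) (nat_lit 1600),
   .der (nat_lit 50) (nat_lit 3793),
   .prs (.two (nat_lit 32) (nat_lit 16) (nat_lit 6632) (nat_lit 1) (.two (nat_lit 12) (nat_lit 16) (nat_lit 6633) (nat_lit 1) (.two (nat_lit 5) (nat_lit 16) (nat_lit 6634) (nat_lit 1) (.two (nat_lit 1) (nat_lit 8) (nat_lit 4894) (nat_lit 16) (.two (nat_lit 0) (nat_lit 1) (nat_lit 6635) (nat_lit 16) (.one (nat_lit 5650) (nat_lit 1) .nil)))))),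
   .der (nat_lit 561) (nat_lit 118),
   .der (nat_lit 18) (nat_lit 605),
   .der (nat_lit 1893) (nat_lit 870),
   .der (nat_lit 7) (nat_lit 2847),
   .der (nat_lit 2084) (nat_lit 2188),
   .prs (.two (nat_lit 13) (nat_lit 8) (nat_lit 6637) (nat_lit 4) (.two (nat_lit 42) (nat_lit 8) (nat_lit 6638) (nat_lit 4) (.two (nat_lit 482) (nat_lit 4) (nat_lit 6639) (nat_lit 8) (.two (nat_lit 16) (nat_lit 1) (nat_lit 6640) (nat_lit 4) (.two (nat_lit 0) (nat_lit 1) (nat_lit 6641) (nat_lit 4) (.one (nat_lit 5654) (nat_lit 4) .nil)))))),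
   .der (nat_lit 38163) (nat_lit 425),
   .der (nat_lit 132) (nat_lit 3273),
   .prs (.two (nat_lit 122) (nat_lit 8) (nat_lit 6643) (nat_lit 2) (.two (nat_lit 46) (nat_lit 8) (nat_lit 6644) (nat_lit 1) (.one (nat_lit 5659) (nat_lit 1) .nil))),
   .der (nat_lit 101) (nat_lit 101),
   .der (nat_lit 117) (nat_lit 907),
   .prs (.two (nat_lit 676) (nat_lit 4) (nat_lit 522) (nat_lit 1) (.two (nat_lit 124) (nat_lit 1) (nat_lit 6646) (nat_lit 2) (.two (nat_lit 96) (nat_lit 8) (nat_lit 6647) (nat_lit 4) (.two (nat_lit 0) (nat_lit 8) (nat_lit 3017) (nat_lit 2) (.one (nat_lit 4908) (nat_lit 4) .nil))))),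
   .der (nat_lit 22548) (nat_lit 702),
   .der (nat_lit 2068) (nat_lit 1711),
   .prs (.two (nat_lit 965) (nat_lit 4) (nat_lit 674) (nat_lit 2) (.two (nat_lit 427) (nat_lit 4) (nat_lit 4884) (nat_lit 2) (.two (nat_lit 144) (nat_lit 4) (nat_lit 6649) (nat_lit 2) (.two (nat_lit 11) (nat_lit 2) (nat_lit 6650) (nat_lit 4) (.two (nat_lit 0) (nat_lit 16) (nat_lit 3020) (nat_lit 2) (.one (nat_lit 4914) (nat_lit 2) .nil)))))),
   .der (nat_lit 12658) (nat_lit 199),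
   .der (nat_lit 10) (nat_lit 1085),
   .prs (.two (nat_lit 105) (nat_lit 16) (nat_lit 3366) (nat_lit 4) (.two (nat_lit 7) (nat_lit 16) (nat_lit 6652) (nat_lit 1) (.two (nat_lit 3) (nat_lit 16) (nat_lit 6653) (nat_lit 4) (.two (nat_lit 0) (nat_lit 1) (nat_lit 2651) (nat_lit 16) (.one (nat_lit 5676) (nat_lit 16) .nil))))),
   .der (nat_lit 118) (nat_lit 769),
   .der (nat_lit 2390) (nat_lit 508),
   .der (nat_lit 8) (nat_lit 1169),
   .der (nat_lit 165) (nat_lit 2244),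
   .prs (.two (nat_lit 13) (nat_lit 16) (nat_lit 853) (nat_lit 2) (.two (nat_lit 227) (nat_lit 16) (nat_lit 6655) (nat_lit 2) (.two (nat_lit 34) (nat_lit 16) (nat_lit 6656) (nat_lit 2) (.two (nat_lit 3) (nat_lit 1) (nat_lit 6657) (nat_lit 16) (.two (nat_lit 0) (nat_lit 1) (nat_lit 6658) (nat_lit 2) (.one (nat_lit 4927) (nat_lit 1) .nil)))))),
   .der (nat_lit 1057) (nat_lit 395),
   .der (nat_lit 10545) (nat_lit 2744),
   .prs (.two (nat_lit 1322) (nat_lit 16) (nat_lit 6425) (nat_lit 2) (.two (nat_lit 44) (nat_lit 16) (nat_lit 6660) (nat_lit 1) (.two (nat_lit 1214) (nat_lit 1) (nat_lit 6657) (nat_lit 16) (.two (nat_lit 11) (nat_lit 1) (nat_lit 6661) (nat_lit 16) (.two (nat_lit 0) (nat_lit 16) (nat_lit 4922) (nat_lit 2) (.one (nat_lit 5664) (nat_lit 2) .nil)))))),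
   .der (nat_lit 1395) (nat_lit 495),
   .der (nat_lit 114) (nat_lit 845),
   .der (nat_lit 34068) (nat_lit 1438),
   .prs (.two (nat_lit 13) (nat_lit 16) (nat_lit 1595) (nat_lit 2) (.two (nat_lit 6) (nat_lit 16) (nat_lit 6663) (nat_lit 2) (.two (nat_lit 34) (nat_lit 16) (nat_lit 6664) (nat_lit 2) (.two (nat_lit 3) (nat_lit 1) (nat_lit 6665) (nat_lit 2) (.two (nat_lit 0) (nat_lit 1) (nat_lit 4925) (nat_lit 16) (.one (nat_lit 5669) (nat_lit 1) .nil)))))),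
   .der (nat_lit 1875) (nat_lit 74),
   .der (nat_lit 101) (nat_lit 1169),
   .der (nat_lit 165) (nat_lit 2224),
   .der (nat_lit 165) (nat_lit 4050),
   .prs (.two (nat_lit 440) (nat_lit 16) (nat_lit 6667) (nat_lit 2) (.two (nat_lit 791) (nat_lit 2) (nat_lit 6668) (nat_lit 16) (.two (nat_lit 1) (nat_lit 16) (nat_lit 6669) (nat_lit 2) (.two (nat_lit 0) (nat_lit 4) (nat_lit 6670) (nat_lit 2) (.one (nat_lit 5671) (nat_lit 2) .nil))))),
   .der (nat_lit 145) (nat_lit 131),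
   .der (nat_lit 9572) (nat_lit 627),
   .der (nat_lit 2) (nat_lit 1632),
   .der (nat_lit 129) (nat_lit 2203),
   .prs (.two (nat_lit 440) (nat_lit 2) (nat_lit 6672) (nat_lit 4) (.two (nat_lit 65) (nat_lit 2) (nat_lit 6673) (nat_lit 4) (.two (nat_lit 4) (nat_lit 2) (nat_lit 6674) (nat_lit 4) (.two (nat_lit 3) (nat_lit 1) (nat_lit 6675) (nat_lit 8) (.one (nat_lit 5687) (nat_lit 1) .nil))))),
   .der (nat_lit 22803) (nat_lit 266),
   .der (nat_lit 6) (nat_lit 1328),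
   .der (nat_lit 147) (nat_lit 1408),
   .der (nat_lit 35) (nat_lit 4465),
   .prs (.two (nat_lit 38) (nat_lit 8) (nat_lit 6677) (nat_lit 4) (.two (nat_lit 7) (nat_lit 8) (nat_lit 6678) (nat_lit 4) (.two (nat_lit 1) (nat_lit 16) (nat_lit 6679) (nat_lit 4) (.one (nat_lit 6680) (nat_lit 8) .nil)))),
   .der (nat_lit 49) (nat_lit 104),
   .der (nat_lit 612) (nat_lit 1196),
   .der (nat_lit 49) (nat_lit 3734),
   .der (nat_lit 370) (nat_lit 3770),
   .prs (.two (nat_lit 13) (nat_lit 4) (nat_lit 6682) (nat_lit 8) (.two (nat_lit 6) (nat_lit 8) (nat_lit 4998) (nat_lit 2) (.two (nat_lit 75) (nat_lit 2) (nat_lit 6683) (nat_lit 8) (.two (nat_lit 1) (nat_lit 2) (nat_lit 6684) (nat_lit 8) (.two (nat_lit 0) (nat_lit 1) (nat_lit 6685) (nat_lit 2) (.one (nat_lit 5698) (nat_lit 1) .nil)))))),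
   .der (nat_lit 24916) (nat_lit 164),
   .der (nat_lit 1650) (nat_lit 852),
   .der (nat_lit 1) (nat_lit 3885),
   .prs (.two (nat_lit 717) (nat_lit 2) (nat_lit 6687) (nat_lit 8) (.two (nat_lit 34) (nat_lit 2) (nat_lit 6688) (nat_lit 8) (.two (nat_lit 0) (nat_lit 8) (nat_lit 3891) (nat_lit 2) (.one (nat_lit 6689) (nat_lit 2) .nil)))),
   .der (nat_lit 2193) (nat_lit 271),
   .der (nat_lit 2113) (nat_lit 796),
   .prs (.two (nat_lit 13) (nat_lit 8) (nat_lit 6691) (nat_lit 2) (.two (nat_lit 956) (nat_lit 4) (nat_lit 6692) (nat_lit 8) (.two (nat_lit 463) (nat_lit 8) (nat_lit 5693) (nat_lit 2) (.two (nat_lit 1) (nat_lit 4) (nat_lit 4938) (nat_lit 8) (.one (nat_lit 5704) (nat_lit 4) .nil))))),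
   .prs (.two (nat_lit 94) (nat_lit 2) (nat_lit 1239) (nat_lit 8) (.two (nat_lit 427) (nat_lit 2) (nat_lit 3886) (nat_lit 8) (.two (nat_lit 5) (nat_lit 1) (nat_lit 3887) (nat_lit 8) (.two (nat_lit 0) (nat_lit 1) (nat_lit 3888) (nat_lit 8) (.one (nat_lit 5707) (nat_lit 8) .nil))))),
   .der (nat_lit 2578) (nat_lit 317),
   .der (nat_lit 86) (nat_lit 2305),
   .prs (.two (nat_lit 69) (nat_lit 1) (nat_lit 5713) (nat_lit 4) (.two (nat_lit 44) (nat_lit 1) (nat_lit 6695) (nat_lit 4) (.two (nat_lit 436) (nat_lit 1) (nat_lit 1347) (nat_lit 4) (.two (nat_lit 11) (nat_lit 16) (nat_lit 6696) (nat_lit 1) (.one (nat_lit 5712) (nat_lit 1) .nil))))),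
   .der (nat_lit 161) (nat_lit 283),
   .der (nat_lit 86) (nat_lit 1345),
   .der (nat_lit 1430) (nat_lit 867),
   .der (nat_lit 38163) (nat_lit 1482),
   .prs (.two (nat_lit 520) (nat_lit 4) (nat_lit 6698) (nat_lit 8) (.two (nat_lit 124) (nat_lit 1) (nat_lit 6699) (nat_lit 4) (.two (nat_lit 439) (nat_lit 2) (nat_lit 6700) (nat_lit 4) (.two (nat_lit 1) (nat_lit 2) (nat_lit 6701) (nat_lit 8) (.two (nat_lit 0) (nat_lit 2) (nat_lit 3062) (nat_lit 8) (.one (nat_lit 5717) (nat_lit 8) .nil)))))),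
   .der (nat_lit 1299) (nat_lit 1438),
   .prs (.two (nat_lit 13) (nat_lit 8) (nat_lit 1313) (nat_lit 1) (.two (nat_lit 6) (nat_lit 16) (nat_lit 82) (nat_lit 8) (.two (nat_lit 1) (nat_lit 16) (nat_lit 6703) (nat_lit 1) (.one (nat_lit 5726) (nat_lit 8) .nil)))),
   .der (nat_lit 833) (nat_lit 146),
   .der (nat_lit 129) (nat_lit 1036),
   .der (nat_lit 2353) (nat_lit 1169),
   .der (nat_lit 8) (nat_lit 1399),
   .prs (.two (nat_lit 440) (nat_lit 2) (nat_lit 6705) (nat_lit 8) (.two (nat_lit 36) (nat_lit 8) (nat_lit 6706) (nat_lit 2) (.two (nat_lit 78) (nat_lit 1) (nat_lit 6707) (nat_lit 4) (.two (nat_lit 1) (nat_lit 2) (nat_lit 6708) (nat_lit 1) (.two (nat_lit 0) (nat_lit 2) (nat_lit 4949) (nat_lit 4) (.one (nat_lit 5723) (nat_lit 8) .nil)))))),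
   .der (nat_lit 356) (nat_lit 382),
   .prs (.two (nat_lit 509) (nat_lit 4) (nat_lit 2237) (nat_lit 2) (.two (nat_lit 463) (nat_lit 4) (nat_lit 6710) (nat_lit 2) (.two (nat_lit 1) (nat_lit 4) (nat_lit 4807) (nat_lit 2) (.two (nat_lit 0) (nat_lit 4) (nat_lit 3826) (nat_lit 2) (.one (nat_lit 4950) (nat_lit 1) .nil))))),
   .der (nat_lit 66) (nat_lit 1314),
   .der (nat_lit 8) (nat_lit 1747),
   .prs (.two (nat_lit 32) (nat_lit 8) (nat_lit 2195) (nat_lit 16) (.two (nat_lit 9) (nat_lit 16) (nat_lit 6712) (nat_lit 8) (.two (nat_lit 11) (nat_lit 8) (nat_lit 6713) (nat_lit 16) (.two (nat_lit 0) (nat_lit 4) (nat_lit 3911) (nat_lit 8) (.one (nat_lit 5737) (nat_lit 8) .nil))))),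
   .der (nat_lit 147) (nat_lit 524),
   .der (nat_lit 370) (nat_lit 1542),
   .der (nat_lit 145) (nat_lit 3752),
   .prs (.two (nat_lit 440) (nat_lit 16) (nat_lit 6715) (nat_lit 8) (.two (nat_lit 34) (nat_lit 16) (nat_lit 6716) (nat_lit 8) (.two (nat_lit 11) (nat_lit 16) (nat_lit 6717) (nat_lit 8) (.one (nat_lit 5733) (nat_lit 8) .nil)))),
   .der (nat_lit 5218) (nat_lit 149),
   .der (nat_lit 17185) (nat_lit 624),
   .der (nat_lit 66) (nat_lit 3309),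
   .prs (.two (nat_lit 12) (nat_lit 16) (nat_lit 38) (nat_lit 8) (.two (nat_lit 384) (nat_lit 8) (nat_lit 6719) (nat_lit 16) (.two (nat_lit 16) (nat_lit 2) (nat_lit 6720) (nat_lit 8) (.two (nat_lit 0) (nat_lit 2) (nat_lit 3913) (nat_lit 8) (.one (nat_lit 6721) (nat_lit 2) .nil))))),
   .der (nat_lit 1653) (nat_lit 98),
   .der (nat_lit 833) (nat_lit 1441),
   .der (nat_lit 1653) (nat_lit 3270),
   .prs (.two (nat_lit 676) (nat_lit 4) (nat_lit 6723) (nat_lit 8) (.two (nat_lit 882) (nat_lit 4) (nat_lit 3006) (nat_lit 8) (.two (nat_lit 1) (nat_lit 4) (nat_lit 6724) (nat_lit 8) (.two (nat_lit 0) (nat_lit 2) (nat_lit 6725) (nat_lit 8) (.one (nat_lit 5760) (nat_lit 2) .nil))))),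
   .der (nat_lit 2113) (nat_lit 87),
   .der (nat_lit 4978) (nat_lit 1546),
   .prs (.two (nat_lit 32) (nat_lit 16) (nat_lit 6727) (nat_lit 1) (.two (nat_lit 7) (nat_lit 16) (nat_lit 6345) (nat_lit 1) (.two (nat_lit 0) (nat_lit 8) (nat_lit 6728) (nat_lit 1) (.one (nat_lit 4989) (nat_lit 1) .nil)))),
   .der (nat_lit 4) (nat_lit 3490),
   .prs (.two (nat_lit 32) (nat_lit 16) (nat_lit 5767) (nat_lit 1) (.two (nat_lit 1387) (nat_lit 16) (nat_lit 5768) (nat_lit 1) (.two (nat_lit 11) (nat_lit 16) (nat_lit 6730) (nat_lit 1) (.one (nat_lit 5761) (nat_lit 1) .nil)))),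
   .der (nat_lit 882) (nat_lit 37),
   .der (nat_lit 339) (nat_lit 1309),
   .der (nat_lit 35) (nat_lit 3559),
   .prs (.two (nat_lit 390) (nat_lit 16) (nat_lit 6732) (nat_lit 2) (.two (nat_lit 91) (nat_lit 16) (nat_lit 6495) (nat_lit 4) (.two (nat_lit 383) (nat_lit 16) (nat_lit 6733) (nat_lit 4) (.two (nat_lit 3) (nat_lit 4) (nat_lit 6734) (nat_lit 16) (.one (nat_lit 4979) (nat_lit 2) .nil))))),
   .der (nat_lit 2593) (nat_lit 1074),
   .der (nat_lit 882) (nat_lit 3350),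
   .prs (.two (nat_lit 69) (nat_lit 16) (nat_lit 6723) (nat_lit 8) (.two (nat_lit 1387) (nat_lit 16) (nat_lit 6736) (nat_lit 8) (.two (nat_lit 11) (nat_lit 16) (nat_lit 6737) (nat_lit 2) (.one (nat_lit 5743) (nat_lit 2) .nil)))),
   .der (nat_lit 20) (nat_lit 1922),
   .der (nat_lit 129) (nat_lit 1473),
   .prs (.two (nat_lit 86) (nat_lit 16) (nat_lit 233) (nat_lit 4) (.two (nat_lit 404) (nat_lit 16) (nat_lit 4571) (nat_lit 8) (.two (nat_lit 144) (nat_lit 8) (nat_lit 6739) (nat_lit 16) (.two (nat_lit 0) (nat_lit 1) (nat_lit 6740) (nat_lit 16) (.one (nat_lit 5780) (nat_lit 8) .nil))))),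
   .der (nat_lit 2084) (nat_lit 10),
   .der (nat_lit 65) (nat_lit 1030),
   .der (nat_lit 1653) (nat_lit 2342),
   .prs (.two (nat_lit 462) (nat_lit 8) (nat_lit 4494) (nat_lit 1) (.two (nat_lit 6742) (nat_lit 8) (nat_lit 2566) (nat_lit 1) (.two (nat_lit 2090) (nat_lit 8) (nat_lit 6743) (nat_lit 1) (.two (nat_lit 1) (nat_lit 8) (nat_lit 6744) (nat_lit 1) (.two (nat_lit 0) (nat_lit 8) (nat_lit 3925) (nat_lit 1) (.one (nat_lit 5771) (nat_lit 8) .nil)))))),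
   .der (nat_lit 801) (nat_lit 24),
   .der (nat_lit 37425) (nat_lit 29),
   .der (nat_lit 37425) (nat_lit 74),
   .der (nat_lit 33345) (nat_lit 1074),
   .der (nat_lit 5716) (nat_lit 3350),
   .prs (.two (nat_lit 6747) (nat_lit 4) (nat_lit 6746) (nat_lit 8) (.two (nat_lit 456) (nat_lit 8) (nat_lit 6748) (nat_lit 4) (.two (nat_lit 3081) (nat_lit 4) (nat_lit 6749) (nat_lit 8) (.two (nat_lit 0) (nat_lit 4) (nat_lit 6750) (nat_lit 2) .nil)))),
   .der (nat_lit 103) (nat_lit 2753),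
   .der (nat_lit 1057) (nat_lit 4268),
   .prs (.two (nat_lit 1582) (nat_lit 8) (nat_lit 2265) (nat_lit 16) (.two (nat_lit 44) (nat_lit 8) (nat_lit 1356) (nat_lit 16) (.two (nat_lit 7) (nat_lit 8) (nat_lit 2129) (nat_lit 16) (.two (nat_lit 11) (nat_lit 8) (nat_lit 6752) (nat_lit 16) (.two (nat_lit 0) (nat_lit 16) (nat_lit 6753) (nat_lit 8) (.one (nat_lit 5774) (nat_lit 16) .nil)))))),
   .der (nat_lit 882) (nat_lit 21),
   .der (nat_lit 2) (nat_lit 441),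
   .der (nat_lit 370) (nat_lit 1518),
   .der (nat_lit 2578) (nat_lit 4649),
   .prs (.two (nat_lit 1554) (nat_lit 16) (nat_lit 6755) (nat_lit 2) (.two (nat_lit 6) (nat_lit 4) (nat_lit 6756) (nat_lit 16) (.two (nat_lit 11) (nat_lit 1) (nat_lit 6757) (nat_lit 2) (.two (nat_lit 0) (nat_lit 1) (nat_lit 6758) (nat_lit 2) .nil)))),
   .der (nat_lit 38163) (nat_lit 146),
   .der (nat_lit 34068) (nat_lit 435),
   .der (nat_lit 5218) (nat_lit 2405),
   .prs (.two (nat_lit 13) (nat_lit 8) (nat_lit 6760) (nat_lit 4) (.two (nat_lit 248) (nat_lit 4) (nat_lit 6761) (nat_lit 8) (.two (nat_lit 1) (nat_lit 8) (nat_lit 6762) (nat_lit 2) (.one (nat_lit 5784) (nat_lit 2) .nil)))),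
   .der (nat_lit 2353) (nat_lit 1054),
   .der (nat_lit 19) (nat_lit 2216),
   .prs (.two (nat_lit 825) (nat_lit 16) (nat_lit 3208) (nat_lit 4) (.two (nat_lit 397) (nat_lit 16) (nat_lit 6764) (nat_lit 4) (.two (nat_lit 3) (nat_lit 4) (nat_lit 6765) (nat_lit 16) (.two (nat_lit 0) (nat_lit 4) (nat_lit 3929) (nat_lit 16) (.one (nat_lit 4986) (nat_lit 16) .nil))))),
   .der (nat_lit 852) (nat_lit 177),
   .der (nat_lit 1415) (nat_lit 1704),
   .der (nat_lit 9572) (nat_lit 3592),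
   .prs (.two (nat_lit 86) (nat_lit 4) (nat_lit 6767) (nat_lit 2) (.two (nat_lit 3) (nat_lit 4) (nat_lit 6768) (nat_lit 2) (.two (nat_lit 0) (nat_lit 4) (nat_lit 6769) (nat_lit 2) (.one (nat_lit 5787) (nat_lit 2) .nil)))),
   .der (nat_lit 2) (nat_lit 927),
   .prs (.two (nat_lit 1554) (nat_lit 16) (nat_lit 6755) (nat_lit 2) (.two (nat_lit 129) (nat_lit 4) (nat_lit 5003) (nat_lit 16) (.two (nat_lit 2) (nat_lit 4) (nat_lit 6771) (nat_lit 16) (.two (nat_lit 0) (nat_lit 2) (nat_lit 5754) (nat_lit 16) (.one (nat_lit 6758) (nat_lit 2) .nil))))),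
   .der (nat_lit 115) (nat_lit 407),
   .der (nat_lit 115) (nat_lit 845),
   .prs (.two (nat_lit 69) (nat_lit 16) (nat_lit 231) (nat_lit 2) (.two (nat_lit 36) (nat_lit 2) (nat_lit 408) (nat_lit 16) (.two (nat_lit 740) (nat_lit 16) (nat_lit 6773) (nat_lit 2) (.two (nat_lit 11) (nat_lit 16) (nat_lit 6774) (nat_lit 2) (.two (nat_lit 0) (nat_lit 16) (nat_lit 3941) (nat_lit 2) (.one (nat_lit 5791) (nat_lit 2) .nil)))))),
   .prs (.two (nat_lit 80) (nat_lit 16) (nat_lit 1568) (nat_lit 8) (.two (nat_lit 308) (nat_lit 2) (nat_lit 5501) (nat_lit 8) (.two (nat_lit 1) (nat_lit 8) (nat_lit 4995) (nat_lit 16) (.two (nat_lit 0) (nat_lit 2) (nat_lit 4980) (nat_lit 8) (.one (nat_lit 5794) (nat_lit 8) .nil))))),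
   .der (nat_lit 612) (nat_lit 401),
   .der (nat_lit 3) (nat_lit 1656),
   .der (nat_lit 33) (nat_lit 3587),
   .prs (.two (nat_lit 69) (nat_lit 16) (nat_lit 965) (nat_lit 4) (.two (nat_lit 427) (nat_lit 4) (nat_lit 2344) (nat_lit 16) (.two (nat_lit 202) (nat_lit 16) (nat_lit 6777) (nat_lit 4) (.two (nat_lit 1) (nat_lit 16) (nat_lit 6778) (nat_lit 4) (.two (nat_lit 0) (nat_lit 16) (nat_lit 3947) (nat_lit 4) (.one (nat_lit 6779) (nat_lit 4) .nil)))))),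
   .der (nat_lit 354) (nat_lit 95),
   .der (nat_lit 103) (nat_lit 1088),
   .prs (.two (nat_lit 65) (nat_lit 16) (nat_lit 6781) (nat_lit 4) (.two (nat_lit 1) (nat_lit 8) (nat_lit 6782) (nat_lit 16) (.one (nat_lit 5799) (nat_lit 4) .nil))),
   .der (nat_lit 13345) (nat_lit 351),
   .der (nat_lit 627) (nat_lit 1267),
   .der (nat_lit 83) (nat_lit 3606),
   .prs (.two (nat_lit 520) (nat_lit 4) (nat_lit 6784) (nat_lit 8) (.two (nat_lit 5) (nat_lit 8) (nat_lit 6785) (nat_lit 4) (.two (nat_lit 3) (nat_lit 8) (nat_lit 4889) (nat_lit 2) (.two (nat_lit 0) (nat_lit 8) (nat_lit 6786) (nat_lit 4) (.one (nat_lit 5797) (nat_lit 2) .nil))))),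
   .der (nat_lit 1122) (nat_lit 37),
   .der (nat_lit 1620) (nat_lit 948),
   .der (nat_lit 370) (nat_lit 1450),
   .prs (.two (nat_lit 550) (nat_lit 1) (nat_lit 6788) (nat_lit 2) (.two (nat_lit 442) (nat_lit 1) (nat_lit 6789) (nat_lit 2) (.two (nat_lit 0) (nat_lit 1) (nat_lit 6790) (nat_lit 2) (.one (nat_lit 5009) (nat_lit 2) .nil)))),
   .der (nat_lit 612) (nat_lit 64),
   .der (nat_lit 1299) (nat_lit 405),
   .der (nat_lit 34068) (nat_lit 1196),
   .der (nat_lit 1430) (nat_lit 3800),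
   .prs (.two (nat_lit 86) (nat_lit 16) (nat_lit 6792) (nat_lit 4) (.two (nat_lit 17) (nat_lit 4) (nat_lit 6793) (nat_lit 16) (.two (nat_lit 1) (nat_lit 4) (nat_lit 6794) (nat_lit 16) (.two (nat_lit 0) (nat_lit 1) (nat_lit 6795) (nat_lit 4) (.one (nat_lit 5013) (nat_lit 4) .nil))))),
   .der (nat_lit 21107) (nat_lit 3011),
   .prs (.two (nat_lit 1322) (nat_lit 8) (nat_lit 5665) (nat_lit 2) (.two (nat_lit 96) (nat_lit 2) (nat_lit 4046) (nat_lit 8) (.two (nat_lit 0) (nat_lit 2) (nat_lit 6797) (nat_lit 8) (.one (nat_lit 3954) (nat_lit 8) .nil)))),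
   .der (nat_lit 5) (nat_lit 64),
   .der (nat_lit 49) (nat_lit 636),
   .prs (.two (nat_lit 65) (nat_lit 8) (nat_lit 6799) (nat_lit 16) (.two (nat_lit 11) (nat_lit 8) (nat_lit 6800) (nat_lit 16) (.two (nat_lit 0) (nat_lit 2) (nat_lit 3091) (nat_lit 8) (.one (nat_lit 5021) (nat_lit 8) .nil)))),
   .der (nat_lit 356) (nat_lit 59),
   .der (nat_lit 1653) (nat_lit 37),
   .der (nat_lit 1073) (nat_lit 177),
   .der (nat_lit 354) (nat_lit 1396),
   .der (nat_lit 1300) (nat_lit 3120),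
   .prs (.two (nat_lit 6803) (nat_lit 16) (nat_lit 6802) (nat_lit 2) (.two (nat_lit 582) (nat_lit 4) (nat_lit 6804) (nat_lit 16) (.two (nat_lit 427) (nat_lit 2) (nat_lit 5803) (nat_lit 16) (.two (nat_lit 22) (nat_lit 2) (nat_lit 6805) (nat_lit 1) (.two (nat_lit 11) (nat_lit 16) (nat_lit 6806) (nat_lit 4) (.two (nat_lit 0) (nat_lit 1) (nat_lit 5042) (nat_lit 4) (.one (nat_lit 5854) (nat_lit 1) .nil))))))),
   .der (nat_lit 561) (nat_lit 3118),
   .der (nat_lit 161) (nat_lit 5828),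
   .prs (.two (nat_lit 1587) (nat_lit 1) (nat_lit 87) (nat_lit 16) (.two (nat_lit 13) (nat_lit 4) (nat_lit 6074) (nat_lit 16) (.two (nat_lit 1) (nat_lit 4) (nat_lit 6808) (nat_lit 1) (.two (nat_lit 0) (nat_lit 1) (nat_lit 5045) (nat_lit 4) (.one (nat_lit 6809) (nat_lit 1) .nil))))),
   .prs (.two (nat_lit 1063) (nat_lit 1) (nat_lit 5802) (nat_lit 2) (.two (nat_lit 1113) (nat_lit 2) (nat_lit 182) (nat_lit 8) (.two (nat_lit 6) (nat_lit 4) (nat_lit 5803) (nat_lit 8) (.two (nat_lit 622) (nat_lit 1) (nat_lit 1399) (nat_lit 2) (.two (nat_lit 46) (nat_lit 1) (nat_lit 5804) (nat_lit 4) (.two (nat_lit 0) (nat_lit 2) (nat_lit 4015) (nat_lit 4) (.one (nat_lit 5856) (nat_lit 4) .nil))))))),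
   .der (nat_lit 103) (nat_lit 74),
   .der (nat_lit 561) (nat_lit 39),
   .der (nat_lit 103) (nat_lit 407),
   .der (nat_lit 165) (nat_lit 2180),
   .der (nat_lit 33345) (nat_lit 3138),
   .prs (.two (nat_lit 6813) (nat_lit 4) (nat_lit 6812) (nat_lit 8) (.two (nat_lit 676) (nat_lit 4) (nat_lit 6814) (nat_lit 8) (.two (nat_lit 42) (nat_lit 4) (nat_lit 5865) (nat_lit 8) (.two (nat_lit 2) (nat_lit 4) (nat_lit 6815) (nat_lit 8) (.two (nat_lit 0) (nat_lit 4) (nat_lit 6816) (nat_lit 8) (.one (nat_lit 5858) (nat_lit 4) .nil)))))),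
   .der (nat_lit 1122) (nat_lit 73),
   .der (nat_lit 16738) (nat_lit 39),
   .der (nat_lit 1300) (nat_lit 1400),
   .prs (.two (nat_lit 6819) (nat_lit 1) (nat_lit 6818) (nat_lit 2) (.two (nat_lit 965) (nat_lit 4) (nat_lit 4340) (nat_lit 2) (.two (nat_lit 36) (nat_lit 2) (nat_lit 3776) (nat_lit 4) (.two (nat_lit 4) (nat_lit 2) (nat_lit 6820) (nat_lit 4) (.two (nat_lit 3) (nat_lit 1) (nat_lit 3995) (nat_lit 2) (.two (nat_lit 0) (nat_lit 1) (nat_lit 4020) (nat_lit 2) (.one (nat_lit 5861) (nat_lit 4) .nil))))))),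
   .der (nat_lit 2433) (nat_lit 824),
   .prs (.two (nat_lit 33) (nat_lit 8) (nat_lit 184) (nat_lit 4) (.two (nat_lit 509) (nat_lit 4) (nat_lit 1722) (nat_lit 8) (.two (nat_lit 456) (nat_lit 8) (nat_lit 6822) (nat_lit 4) (.two (nat_lit 2090) (nat_lit 4) (nat_lit 2194) (nat_lit 8) (.two (nat_lit 1) (nat_lit 4) (nat_lit 4024) (nat_lit 8) (.two (nat_lit 0) (nat_lit 2) (nat_lit 4028) (nat_lit 8) (.one (nat_lit 5864) (nat_lit 8) .nil))))))),
   .der (nat_lit 66) (nat_lit 82),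
   .der (nat_lit 2578) (nat_lit 824),
   .der (nat_lit 129) (nat_lit 1399),
   .der (nat_lit 17185) (nat_lit 3132),
   .prs (.two (nat_lit 411) (nat_lit 1) (nat_lit 6824) (nat_lit 8) (.two (nat_lit 6) (nat_lit 4) (nat_lit 6825) (nat_lit 8) (.two (nat_lit 248) (nat_lit 8) (nat_lit 6826) (nat_lit 1) (.two (nat_lit 11) (nat_lit 1) (nat_lit 6827) (nat_lit 4) (.two (nat_lit 0) (nat_lit 1) (nat_lit 4010) (nat_lit 4) (.one (nat_lit 5869) (nat_lit 1) .nil)))))),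
   .der (nat_lit 1) (nat_lit 867),
   .prs (.two (nat_lit 33) (nat_lit 8) (nat_lit 1429) (nat_lit 4) (.two (nat_lit 129) (nat_lit 8) (nat_lit 6829) (nat_lit 4) (.two (nat_lit 2) (nat_lit 8) (nat_lit 2197) (nat_lit 4) (.two (nat_lit 1) (nat_lit 8) (nat_lit 3150) (nat_lit 4) (.two (nat_lit 0) (nat_lit 1) (nat_lit 4032) (nat_lit 4) (.one (nat_lit 5871) (nat_lit 1) .nil)))))),
   .der (nat_lit 98) (nat_lit 3138),
   .prs (.two (nat_lit 423) (nat_lit 16) (nat_lit 1462) (nat_lit 4) (.two (nat_lit 522) (nat_lit 4) (nat_lit 3110) (nat_lit 16) (.two (nat_lit 3) (nat_lit 4) (nat_lit 6831) (nat_lit 16) (.one (nat_lit 5873) (nat_lit 4) .nil)))),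
   .der (nat_lit 577) (nat_lit 837),
   .der (nat_lit 2433) (nat_lit 2171),
   .der (nat_lit 6) (nat_lit 3144),
   .prs (.two (nat_lit 33) (nat_lit 8) (nat_lit 3774) (nat_lit 4) (.two (nat_lit 13) (nat_lit 8) (nat_lit 6833) (nat_lit 4) (.two (nat_lit 2) (nat_lit 8) (nat_lit 6834) (nat_lit 4) (.two (nat_lit 0) (nat_lit 8) (nat_lit 6835) (nat_lit 4) (.one (nat_lit 5876) (nat_lit 4) .nil))))),
   .der (nat_lit 22803) (nat_lit 3132),
   .der (nat_lit 1430) (nat_lit 4020),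
   .prs (.two (nat_lit 6348) (nat_lit 8) (nat_lit 186) (nat_lit 16) (.two (nat_lit 80) (nat_lit 16) (nat_lit 4244) (nat_lit 8) (.two (nat_lit 227) (nat_lit 8) (nat_lit 4091) (nat_lit 16) (.two (nat_lit 1) (nat_lit 8) (nat_lit 6837) (nat_lit 4) (.two (nat_lit 0) (nat_lit 4) (nat_lit 6838) (nat_lit 8) (.one (nat_lit 5898) (nat_lit 16) .nil)))))),
   .der (nat_lit 114) (nat_lit 106),
   .der (nat_lit 5716) (nat_lit 441),
   .der (nat_lit 12658) (nat_lit 873),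
   .der (nat_lit 1875) (nat_lit 1408),
   .der (nat_lit 17185) (nat_lit 4010),
   .prs (.two (nat_lit 4380) (nat_lit 16) (nat_lit 6840) (nat_lit 8) (.two (nat_lit 69) (nat_lit 16) (nat_lit 6841) (nat_lit 8) (.two (nat_lit 100) (nat_lit 16) (nat_lit 6842) (nat_lit 8) (.two (nat_lit 7) (nat_lit 8) (nat_lit 6843) (nat_lit 16) (.two (nat_lit 16) (nat_lit 1) (nat_lit 6844) (nat_lit 8) (.one (nat_lit 5901) (nat_lit 1) .nil)))))),
   .der (nat_lit 2390) (nat_lit 448),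
   .der (nat_lit 19) (nat_lit 4016),
   .prs (.two (nat_lit 2598) (nat_lit 4) (nat_lit 1297) (nat_lit 16) (.two (nat_lit 94) (nat_lit 16) (nat_lit 6846) (nat_lit 4) (.two (nat_lit 147) (nat_lit 16) (nat_lit 5023) (nat_lit 4) (.two (nat_lit 75) (nat_lit 4) (nat_lit 4091) (nat_lit 16) (.two (nat_lit 11) (nat_lit 1) (nat_lit 6847) (nat_lit 16) (.one (nat_lit 5905) (nat_lit 1) .nil)))))),
   .der (nat_lit 8) (nat_lit 35),
   .prs (.two (nat_lit 6849) (nat_lit 8) (nat_lit 1424) (nat_lit 4) (.two (nat_lit 1594) (nat_lit 8) (nat_lit 5434) (nat_lit 4) (.two (nat_lit 129) (nat_lit 8) (nat_lit 1033) (nat_lit 4) (.two (nat_lit 325) (nat_lit 8) (nat_lit 2322) (nat_lit 1) (.two (nat_lit 1) (nat_lit 4) (nat_lit 4119) (nat_lit 1) (.two (nat_lit 0) (nat_lit 1) (nat_lit 5091) (nat_lit 8) (.one (nat_lit 5957) (nat_lit 1) .nil))))))),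
   .der (nat_lit 21092) (nat_lit 455),
   .der (nat_lit 6) (nat_lit 930),
   .der (nat_lit 1554) (nat_lit 1399),
   .der (nat_lit 5) (nat_lit 2210),
   .prs (.two (nat_lit 3134) (nat_lit 1) (nat_lit 263) (nat_lit 4) (.two (nat_lit 1113) (nat_lit 2) (nat_lit 6851) (nat_lit 1) (.two (nat_lit 1435) (nat_lit 4) (nat_lit 6852) (nat_lit 2) (.two (nat_lit 206) (nat_lit 4) (nat_lit 6853) (nat_lit 1) (.two (nat_lit 46) (nat_lit 4) (nat_lit 6854) (nat_lit 2) (.two (nat_lit 0) (nat_lit 4) (nat_lit 4123) (nat_lit 2) (.one (nat_lit 5961) (nat_lit 2) .nil))))))),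
   .der (nat_lit 882) (nat_lit 492),
   .der (nat_lit 18) (nat_lit 827),
   .der (nat_lit 18) (nat_lit 1377),
   .der (nat_lit 50) (nat_lit 4117),
   .prs (.two (nat_lit 33) (nat_lit 16) (nat_lit 2829) (nat_lit 8) (.two (nat_lit 13) (nat_lit 16) (nat_lit 6856) (nat_lit 8) (.two (nat_lit 937) (nat_lit 8) (nat_lit 6857) (nat_lit 16) (.two (nat_lit 556) (nat_lit 8) (nat_lit 6858) (nat_lit 16) (.two (nat_lit 1) (nat_lit 8) (nat_lit 6859) (nat_lit 16) (.one (nat_lit 5949) (nat_lit 8) .nil)))))),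
   .der (nat_lit 8) (nat_lit 861),
   .der (nat_lit 13345) (nat_lit 3144),
   .prs (.two (nat_lit 423) (nat_lit 16) (nat_lit 4635) (nat_lit 4) (.two (nat_lit 522) (nat_lit 4) (nat_lit 2204) (nat_lit 16) (.two (nat_lit 918) (nat_lit 4) (nat_lit 6861) (nat_lit 16) (.two (nat_lit 3) (nat_lit 4) (nat_lit 6862) (nat_lit 16) (.one (nat_lit 5962) (nat_lit 16) .nil))))),
   .der (nat_lit 1) (nat_lit 2171),
   .prs (.two (nat_lit 423) (nat_lit 16) (nat_lit 4063) (nat_lit 4) (.two (nat_lit 462) (nat_lit 4) (nat_lit 1460) (nat_lit 16) (.two (nat_lit 1435) (nat_lit 4) (nat_lit 5278) (nat_lit 16) (.two (nat_lit 1) (nat_lit 4) (nat_lit 6864) (nat_lit 16) (.two (nat_lit 0) (nat_lit 1) (nat_lit 4126) (nat_lit 16) (.one (nat_lit 5965) (nat_lit 16) .nil)))))),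
   .der (nat_lit 1620) (nat_lit 39),
   .der (nat_lit 5716) (nat_lit 82),
   .der (nat_lit 24916) (nat_lit 934),
   .der (nat_lit 1122) (nat_lit 864),
   .der (nat_lit 659) (nat_lit 2214),
   .der (nat_lit 35) (nat_lit 3144),
   .prs (.two (nat_lit 2217) (nat_lit 2) (nat_lit 6866) (nat_lit 1) (.two (nat_lit 127) (nat_lit 2) (nat_lit 6867) (nat_lit 1) (.two (nat_lit 489) (nat_lit 2) (nat_lit 6868) (nat_lit 1) (.two (nat_lit 17) (nat_lit 2) (nat_lit 6869) (nat_lit 1) (.two (nat_lit 1) (nat_lit 2) (nat_lit 6870) (nat_lit 1) (.two (nat_lit 0) (nat_lit 2) (nat_lit 6871) (nat_lit 1) (.one (nat_lit 5970) (nat_lit 1) .nil))))))),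
   .der (nat_lit 10) (nat_lit 837),
   .der (nat_lit 152) (nat_lit 3132),
   .der (nat_lit 18) (nat_lit 4010),
   .prs (.two (nat_lit 4135) (nat_lit 4) (nat_lit 5870) (nat_lit 8) (.two (nat_lit 227) (nat_lit 2) (nat_lit 6873) (nat_lit 8) (.two (nat_lit 1068) (nat_lit 4) (nat_lit 5069) (nat_lit 2) (.two (nat_lit 3) (nat_lit 4) (nat_lit 6874) (nat_lit 2) (.two (nat_lit 0) (nat_lit 4) (nat_lit 6875) (nat_lit 2) (.one (nat_lit 5973) (nat_lit 8) .nil)))))),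
   .der (nat_lit 356) (nat_lit 98),
   .der (nat_lit 17185) (nat_lit 1441),
   .prs (.two (nat_lit 5389) (nat_lit 16) (nat_lit 6877) (nat_lit 2) (.two (nat_lit 418) (nat_lit 16) (nat_lit 5824) (nat_lit 1) (.two (nat_lit 7) (nat_lit 16) (nat_lit 6878) (nat_lit 1) (.two (nat_lit 1) (nat_lit 2) (nat_lit 5934) (nat_lit 16) (.one (nat_lit 5976) (nat_lit 1) .nil))))),
   .prs (.two (nat_lit 423) (nat_lit 16) (nat_lit 4063) (nat_lit 4) (.two (nat_lit 462) (nat_lit 4) (nat_lit 1460) (nat_lit 16) (.two (nat_lit 1435) (nat_lit 4) (nat_lit 5278) (nat_lit 16) (.two (nat_lit 1) (nat_lit 4) (nat_lit 6864) (nat_lit 16) (.two (nat_lit 0) (nat_lit 1) (nat_lit 4126) (nat_lit 16) (.one (nat_lit 5977) (nat_lit 16) .nil)))))),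
   .der (nat_lit 1) (nat_lit 177),
   .der (nat_lit 9587) (nat_lit 897),
   .der (nat_lit 801) (nat_lit 2199),
   .der (nat_lit 87) (nat_lit 4099),
   .prs (.two (nat_lit 822) (nat_lit 16) (nat_lit 2105) (nat_lit 1) (.two (nat_lit 38) (nat_lit 16) (nat_lit 6881) (nat_lit 1) (.two (nat_lit 404) (nat_lit 16) (nat_lit 6882) (nat_lit 1) (.two (nat_lit 75) (nat_lit 2) (nat_lit 861) (nat_lit 16) (.two (nat_lit 1) (nat_lit 2) (nat_lit 6883) (nat_lit 16) (.two (nat_lit 0) (nat_lit 1) (nat_lit 6884) (nat_lit 2) (.one (nat_lit 5982) (nat_lit 16) .nil))))))),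
   .der (nat_lit 833) (nat_lit 98),
   .der (nat_lit 150) (nat_lit 35),
   .prs (.two (nat_lit 6887) (nat_lit 4) (nat_lit 6886) (nat_lit 8) (.two (nat_lit 676) (nat_lit 8) (nat_lit 5930) (nat_lit 4) (.two (nat_lit 463) (nat_lit 4) (nat_lit 5028) (nat_lit 8) (.two (nat_lit 3) (nat_lit 1) (nat_lit 5931) (nat_lit 4) (.two (nat_lit 0) (nat_lit 4) (nat_lit 4131) (nat_lit 1) (.one (nat_lit 5983) (nat_lit 1) .nil)))))),
   .der (nat_lit 5) (nat_lit 74),
   .der (nat_lit 150) (nat_lit 37),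
   .der (nat_lit 98) (nat_lit 894),
   .der (nat_lit 3) (nat_lit 1456),
   .der (nat_lit 6) (nat_lit 2227),
   .der (nat_lit 5218) (nat_lit 3996),
   .prs (.two (nat_lit 6890) (nat_lit 2) (nat_lit 6889) (nat_lit 16) (.two (nat_lit 965) (nat_lit 2) (nat_lit 6891) (nat_lit 16) (.two (nat_lit 170) (nat_lit 2) (nat_lit 6892) (nat_lit 16) (.two (nat_lit 1) (nat_lit 2) (nat_lit 6893) (nat_lit 16) (.two (nat_lit 0) (nat_lit 16) (nat_lit 6894) (nat_lit 2) (.one (nat_lit 5986) (nat_lit 2) .nil)))))),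
   .der (nat_lit 1415) (nat_lit 35),
   .der (nat_lit 2135) (nat_lit 530),
   .der (nat_lit 67) (nat_lit 1482),
   .der (nat_lit 801) (nat_lit 2203),
   .prs (.two (nat_lit 2469) (nat_lit 8) (nat_lit 6896) (nat_lit 4) (.two (nat_lit 13) (nat_lit 8) (nat_lit 6897) (nat_lit 4) (.two (nat_lit 637) (nat_lit 4) (nat_lit 2169) (nat_lit 8) (.two (nat_lit 452) (nat_lit 4) (nat_lit 6898) (nat_lit 8) (.two (nat_lit 3) (nat_lit 4) (nat_lit 6899) (nat_lit 8) (.two (nat_lit 0) (nat_lit 8) (nat_lit 4134) (nat_lit 2) (.one (nat_lit 5989) (nat_lit 2) .nil))))))),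
   .der (nat_lit 9572) (nat_lit 76),
   .der (nat_lit 49) (nat_lit 2180),
   .prs (.two (nat_lit 4135) (nat_lit 16) (nat_lit 6901) (nat_lit 4) (.two (nat_lit 522) (nat_lit 4) (nat_lit 3226) (nat_lit 16) (.two (nat_lit 482) (nat_lit 4) (nat_lit 1456) (nat_lit 16) (.two (nat_lit 3) (nat_lit 4) (nat_lit 6902) (nat_lit 16) (.two (nat_lit 0) (nat_lit 4) (nat_lit 3229) (nat_lit 16) (.one (nat_lit 5095) (nat_lit 16) .nil)))))),
   .der (nat_lit 33) (nat_lit 2180),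
   .der (nat_lit 86) (nat_lit 3138),
   .prs (.two (nat_lit 408) (nat_lit 16) (nat_lit 1913) (nat_lit 1) (.two (nat_lit 576) (nat_lit 1) (nat_lit 2422) (nat_lit 16) (.two (nat_lit 590) (nat_lit 1) (nat_lit 4361) (nat_lit 16) (.two (nat_lit 68) (nat_lit 1) (nat_lit 6904) (nat_lit 16) (.two (nat_lit 0) (nat_lit 1) (nat_lit 6905) (nat_lit 16) (.one (nat_lit 5100) (nat_lit 16) .nil)))))),
   .der (nat_lit 9587) (nat_lit 84),
   .der (nat_lit 87) (nat_lit 972),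
   .der (nat_lit 117) (nat_lit 827),
   .der (nat_lit 21092) (nat_lit 1453),
   .der (nat_lit 22803) (nat_lit 2188),
   .prs (.two (nat_lit 423) (nat_lit 4) (nat_lit 6907) (nat_lit 1) (.two (nat_lit 825) (nat_lit 4) (nat_lit 6908) (nat_lit 1) (.two (nat_lit 489) (nat_lit 4) (nat_lit 6909) (nat_lit 2) (.two (nat_lit 170) (nat_lit 4) (nat_lit 6910) (nat_lit 2) (.two (nat_lit 16) (nat_lit 1) (nat_lit 6911) (nat_lit 4) (.two (nat_lit 0) (nat_lit 4) (nat_lit 4137) (nat_lit 1) (.one (nat_lit 5992) (nat_lit 1) .nil))))))),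
   .der (nat_lit 145) (nat_lit 59),
   .der (nat_lit 10545) (nat_lit 37),
   .der (nat_lit 1875) (nat_lit 946),
   .der (nat_lit 7) (nat_lit 2257),
   .prs (.two (nat_lit 6914) (nat_lit 16) (nat_lit 6913) (nat_lit 4) (.two (nat_lit 717) (nat_lit 8) (nat_lit 6915) (nat_lit 2) (.two (nat_lit 34) (nat_lit 8) (nat_lit 6916) (nat_lit 2) (.two (nat_lit 1) (nat_lit 4) (nat_lit 3233) (nat_lit 2) (.two (nat_lit 0) (nat_lit 16) (nat_lit 5103) (nat_lit 8) (.one (nat_lit 5994) (nat_lit 16) .nil)))))),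
   .der (nat_lit 165) (nat_lit 824),
   .der (nat_lit 1650) (nat_lit 1453),
   .der (nat_lit 8) (nat_lit 3150),
   .der (nat_lit 8) (nat_lit 4032),
   .prs (.two (nat_lit 423) (nat_lit 4) (nat_lit 3775) (nat_lit 8) (.two (nat_lit 6) (nat_lit 4) (nat_lit 6918) (nat_lit 8) (.two (nat_lit 2) (nat_lit 4) (nat_lit 6919) (nat_lit 8) (.two (nat_lit 1) (nat_lit 4) (nat_lit 6920) (nat_lit 8) (.two (nat_lit 0) (nat_lit 1) (nat_lit 6921) (nat_lit 8) (.one (nat_lit 5998) (nat_lit 1) .nil)))))),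
   .der (nat_lit 118) (nat_lit 435),
   .der (nat_lit 98) (nat_lit 960),
   .prs (.two (nat_lit 127) (nat_lit 2) (nat_lit 4805) (nat_lit 1) (.two (nat_lit 791) (nat_lit 2) (nat_lit 6923) (nat_lit 1) (.two (nat_lit 17) (nat_lit 2) (nat_lit 6924) (nat_lit 1) (.two (nat_lit 16) (nat_lit 2) (nat_lit 2342) (nat_lit 1) (.two (nat_lit 0) (nat_lit 2) (nat_lit 3251) (nat_lit 1) (.one (nat_lit 5132) (nat_lit 1) .nil)))))),
   .der (nat_lit 137) (nat_lit 64),
   .der (nat_lit 6) (nat_lit 35),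
   .der (nat_lit 7) (nat_lit 586),
   .der (nat_lit 1653) (nat_lit 892),
   .der (nat_lit 2578) (nat_lit 1438),
   .der (nat_lit 1653) (nat_lit 3150),
   .der (nat_lit 161) (nat_lit 4010),
   .prs (.two (nat_lit 6927) (nat_lit 16) (nat_lit 6926) (nat_lit 4) (.two (nat_lit 520) (nat_lit 16) (nat_lit 6928) (nat_lit 4) (.two (nat_lit 6) (nat_lit 4) (nat_lit 6929) (nat_lit 16) (.two (nat_lit 78) (nat_lit 16) (nat_lit 6930) (nat_lit 1) (.two (nat_lit 1) (nat_lit 4) (nat_lit 6931) (nat_lit 16) (.two (nat_lit 0) (nat_lit 1) (nat_lit 6932) (nat_lit 4) (.one (nat_lit 6034) (nat_lit 16) .nil))))))),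
   .der (nat_lit 117) (nat_lit 898),
   .der (nat_lit 5218) (nat_lit 1421),
   .prs (.two (nat_lit 1815) (nat_lit 4) (nat_lit 2177) (nat_lit 1) (.two (nat_lit 794) (nat_lit 2) (nat_lit 3213) (nat_lit 4) (.two (nat_lit 1126) (nat_lit 1) (nat_lit 6934) (nat_lit 2) (.two (nat_lit 434) (nat_lit 1) (nat_lit 6935) (nat_lit 2) (.two (nat_lit 1) (nat_lit 2) (nat_lit 4231) (nat_lit 1) (.two (nat_lit 0) (nat_lit 1) (nat_lit 5176) (nat_lit 2) (.one (nat_lit 6037) (nat_lit 1) .nil))))))),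
   .der (nat_lit 1556) (nat_lit 285),
   .der (nat_lit 356) (nat_lit 1052),
   .prs (.two (nat_lit 3075) (nat_lit 8) (nat_lit 6937) (nat_lit 4) (.two (nat_lit 509) (nat_lit 4) (nat_lit 82) (nat_lit 8) (.two (nat_lit 12) (nat_lit 8) (nat_lit 6938) (nat_lit 4) (.two (nat_lit 2) (nat_lit 8) (nat_lit 6018) (nat_lit 4) (.two (nat_lit 16) (nat_lit 1) (nat_lit 4253) (nat_lit 8) (.two (nat_lit 0) (nat_lit 1) (nat_lit 4233) (nat_lit 8) (.one (nat_lit 6040) (nat_lit 1) .nil))))))),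
   .der (nat_lit 2433) (nat_lit 74),
   .der (nat_lit 4) (nat_lit 967),
   .der (nat_lit 340) (nat_lit 2346),
   .der (nat_lit 3) (nat_lit 3296),
   .prs (.two (nat_lit 423) (nat_lit 4) (nat_lit 6940) (nat_lit 1) (.two (nat_lit 13) (nat_lit 4) (nat_lit 2627) (nat_lit 8) (.two (nat_lit 537) (nat_lit 1) (nat_lit 6941) (nat_lit 8) (.two (nat_lit 34) (nat_lit 8) (nat_lit 6942) (nat_lit 1) (.two (nat_lit 1) (nat_lit 8) (nat_lit 6943) (nat_lit 1) (.two (nat_lit 0) (nat_lit 8) (nat_lit 5187) (nat_lit 1) (.one (nat_lit 6046) (nat_lit 1) .nil))))))),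
   .der (nat_lit 1073) (nat_lit 95),
   .der (nat_lit 84) (nat_lit 441),
   .der (nat_lit 2593) (nat_lit 2363),
   .der (nat_lit 1107) (nat_lit 2203),
   .der (nat_lit 1057) (nat_lit 4039),
   .der (nat_lit 3) (nat_lit 6015),
   .prs (.two (nat_lit 33) (nat_lit 16) (nat_lit 6945) (nat_lit 1) (.two (nat_lit 32) (nat_lit 16) (nat_lit 6946) (nat_lit 1) (.two (nat_lit 3643) (nat_lit 16) (nat_lit 5834) (nat_lit 1) (.two (nat_lit 2) (nat_lit 16) (nat_lit 6947) (nat_lit 1) (.two (nat_lit 1) (nat_lit 4) (nat_lit 6948) (nat_lit 1) (.two (nat_lit 0) (nat_lit 4) (nat_lit 6949) (nat_lit 1) (.one (nat_lit 6950) (nat_lit 4) .nil))))))),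
   .der (nat_lit 132) (nat_lit 417),
   .der (nat_lit 1074) (nat_lit 1400),
   .der (nat_lit 129) (nat_lit 3229),
   .der (nat_lit 354) (nat_lit 5800),
   .prs (.two (nat_lit 6609) (nat_lit 1) (nat_lit 3745) (nat_lit 16) (.two (nat_lit 418) (nat_lit 16) (nat_lit 6952) (nat_lit 1) (.two (nat_lit 7) (nat_lit 16) (nat_lit 6953) (nat_lit 1) (.two (nat_lit 3) (nat_lit 1) (nat_lit 6954) (nat_lit 16) (.one (nat_lit 6955) (nat_lit 1) .nil))))),
   .der (nat_lit 84) (nat_lit 542),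
   .der (nat_lit 339) (nat_lit 1412),
   .der (nat_lit 6) (nat_lit 4028),
   .prs (.two (nat_lit 1436) (nat_lit 1) (nat_lit 3263) (nat_lit 2) (.two (nat_lit 69) (nat_lit 1) (nat_lit 6957) (nat_lit 4) (.two (nat_lit 427) (nat_lit 2) (nat_lit 4004) (nat_lit 4) (.two (nat_lit 1010) (nat_lit 4) (nat_lit 6958) (nat_lit 1) (.two (nat_lit 3) (nat_lit 1) (nat_lit 3184) (nat_lit 2) (.two (nat_lit 0) (nat_lit 1) (nat_lit 6959) (nat_lit 2) (.one (nat_lit 6049) (nat_lit 1) .nil))))))),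
   .der (nat_lit 13345) (nat_lit 939),
   .der (nat_lit 5) (nat_lit 3150),
   .prs (.two (nat_lit 33) (nat_lit 8) (nat_lit 2329) (nat_lit 2) (.two (nat_lit 404) (nat_lit 8) (nat_lit 6961) (nat_lit 2) (.two (nat_lit 14) (nat_lit 2) (nat_lit 3489) (nat_lit 1) (.two (nat_lit 1) (nat_lit 8) (nat_lit 6962) (nat_lit 2) (.two (nat_lit 0) (nat_lit 1) (nat_lit 6053) (nat_lit 2) (.one (nat_lit 6054) (nat_lit 1) .nil)))))),
   .der (nat_lit 65) (nat_lit 636),
   .der (nat_lit 8) (nat_lit 1415),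
   .prs (.two (nat_lit 440) (nat_lit 2) (nat_lit 3358) (nat_lit 4) (.two (nat_lit 1118) (nat_lit 4) (nat_lit 6964) (nat_lit 1) (.two (nat_lit 78) (nat_lit 1) (nat_lit 3182) (nat_lit 4) (.two (nat_lit 1) (nat_lit 2) (nat_lit 6965) (nat_lit 1) (.two (nat_lit 0) (nat_lit 2) (nat_lit 3353) (nat_lit 1) (.one (nat_lit 5207) (nat_lit 1) .nil)))))),
   .prs (.two (nat_lit 390) (nat_lit 2) (nat_lit 6348) (nat_lit 8) (.two (nat_lit 808) (nat_lit 2) (nat_lit 6008) (nat_lit 8) (.two (nat_lit 0) (nat_lit 2) (nat_lit 6021) (nat_lit 8) (.one (nat_lit 5192) (nat_lit 8) .nil)))),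
   .der (nat_lit 33345) (nat_lit 29),
   .der (nat_lit 2084) (nat_lit 172),
   .der (nat_lit 1650) (nat_lit 2307),
   .prs (.two (nat_lit 6968) (nat_lit 8) (nat_lit 291) (nat_lit 1) (.two (nat_lit 2761) (nat_lit 1) (nat_lit 6969) (nat_lit 8) (.two (nat_lit 384) (nat_lit 1) (nat_lit 4959) (nat_lit 8) (.two (nat_lit 1) (nat_lit 4) (nat_lit 6970) (nat_lit 8) (.one (nat_lit 6057) (nat_lit 1) .nil))))),
   .der (nat_lit 10) (nat_lit 288),
   .der (nat_lit 98) (nat_lit 864),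
   .der (nat_lit 1554) (nat_lit 2176),
   .prs (.two (nat_lit 390) (nat_lit 16) (nat_lit 6972) (nat_lit 2) (.two (nat_lit 528) (nat_lit 2) (nat_lit 6973) (nat_lit 16) (.two (nat_lit 0) (nat_lit 2) (nat_lit 6974) (nat_lit 16) (.one (nat_lit 4296) (nat_lit 16) .nil)))),
   .der (nat_lit 21107) (nat_lit 110),
   .der (nat_lit 33345) (nat_lit 3122),
   .der (nat_lit 10) (nat_lit 5910),
   .prs (.two (nat_lit 2473) (nat_lit 8) (nat_lit 6976) (nat_lit 2) (.two (nat_lit 38) (nat_lit 8) (nat_lit 2212) (nat_lit 16) (.two (nat_lit 623) (nat_lit 2) (nat_lit 5248) (nat_lit 8) (.two (nat_lit 1) (nat_lit 2) (nat_lit 6977) (nat_lit 8) (.one (nat_lit 6978) (nat_lit 16) .nil))))),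
   .der (nat_lit 340) (nat_lit 177),
   .der (nat_lit 6) (nat_lit 967),
   .prs (.two (nat_lit 411) (nat_lit 16) (nat_lit 6980) (nat_lit 1) (.two (nat_lit 2073) (nat_lit 1) (nat_lit 6981) (nat_lit 16) (.two (nat_lit 214) (nat_lit 1) (nat_lit 2521) (nat_lit 16) (.two (nat_lit 3) (nat_lit 1) (nat_lit 4311) (nat_lit 16) (.one (nat_lit 6116) (nat_lit 1) .nil))))),
   .der (nat_lit 8) (nat_lit 62),
   .der (nat_lit 4) (nat_lit 1018),
   .der (nat_lit 19) (nat_lit 2176),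
   .prs (.two (nat_lit 6601) (nat_lit 4) (nat_lit 6983) (nat_lit 16) (.two (nat_lit 676) (nat_lit 16) (nat_lit 6984) (nat_lit 4) (.two (nat_lit 383) (nat_lit 4) (nat_lit 6985) (nat_lit 16) (.two (nat_lit 0) (nat_lit 4) (nat_lit 4329) (nat_lit 16) (.one (nat_lit 6177) (nat_lit 16) .nil))))),
   .der (nat_lit 100) (nat_lit 481),
   .prs (.two (nat_lit 3500) (nat_lit 1) (nat_lit 300) (nat_lit 16) (.two (nat_lit 105) (nat_lit 16) (nat_lit 6987) (nat_lit 4) (.two (nat_lit 6) (nat_lit 4) (nat_lit 3593) (nat_lit 16) (.two (nat_lit 482) (nat_lit 4) (nat_lit 3438) (nat_lit 16) (.two (nat_lit 3) (nat_lit 4) (nat_lit 4416) (nat_lit 16) (.two (nat_lit 0) (nat_lit 1) (nat_lit 5227) (nat_lit 4) (.one (nat_lit 6179) (nat_lit 4) .nil))))))),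
   .prs (.two (nat_lit 509) (nat_lit 4) (nat_lit 3423) (nat_lit 16) (.two (nat_lit 2) (nat_lit 4) (nat_lit 5278) (nat_lit 16) (.two (nat_lit 0) (nat_lit 4) (nat_lit 4334) (nat_lit 16) .nil))),
   .der (nat_lit 3) (nat_lit 2210),
   .prs (.two (nat_lit 676) (nat_lit 16) (nat_lit 2906) (nat_lit 4) (.two (nat_lit 397) (nat_lit 4) (nat_lit 3136) (nat_lit 16) (.two (nat_lit 0) (nat_lit 4) (nat_lit 6990) (nat_lit 16) (.one (nat_lit 5273) (nat_lit 16) .nil)))),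
   .der (nat_lit 20) (nat_lit 1482),
   .prs (.two (nat_lit 520) (nat_lit 16) (nat_lit 2592) (nat_lit 1) (.two (nat_lit 2) (nat_lit 8) (nat_lit 6992) (nat_lit 16) (.two (nat_lit 0) (nat_lit 8) (nat_lit 3397) (nat_lit 16) (.one (nat_lit 6257) (nat_lit 16) .nil)))),
   .prs (.two (nat_lit 423) (nat_lit 4) (nat_lit 4515) (nat_lit 1) (.two (nat_lit 520) (nat_lit 16) (nat_lit 1556) (nat_lit 1) (.two (nat_lit 2) (nat_lit 16) (nat_lit 5320) (nat_lit 1) (.two (nat_lit 0) (nat_lit 8) (nat_lit 4322) (nat_lit 1) (.one (nat_lit 6189) (nat_lit 16) .nil))))),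
   .der (nat_lit 5) (nat_lit 1076),
   .prs (.two (nat_lit 155) (nat_lit 16) (nat_lit 3912) (nat_lit 1) (.two (nat_lit 667) (nat_lit 2) (nat_lit 6995) (nat_lit 16) (.two (nat_lit 1) (nat_lit 2) (nat_lit 6115) (nat_lit 16) (.one (nat_lit 6260) (nat_lit 16) .nil)))),
   .der (nat_lit 882) (nat_lit 98),
   .der (nat_lit 30226) (nat_lit 4254),
   .prs (.two (nat_lit 2252) (nat_lit 8) (nat_lit 6997) (nat_lit 2) (.two (nat_lit 440) (nat_lit 2) (nat_lit 6315) (nat_lit 8) (.two (nat_lit 5) (nat_lit 1) (nat_lit 6321) (nat_lit 8) (.two (nat_lit 0) (nat_lit 1) (nat_lit 6998) (nat_lit 2) (.one (nat_lit 6200) (nat_lit 1) .nil)))))]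

theorem b5_step13 (h : ∀ j < 6500, Good b5T j) : ∀ j < 7000, Good b5T j := by
  intro j hj
  refine chkL_ok b5C13 6500 h (by decide +kernel) j ?_
  have h : b5C13.length = 500 := by decide +kernel
  omega

/-- certificates 7000..7500 -/
def b5C14 : List Cf :=
  [.der (nat_lit 1415) (nat_lit 980),
   .der (nat_lit 1653) (nat_lit 4002),
   .prs (.two (nat_lit 2245) (nat_lit 4) (nat_lit 303) (nat_lit 16) (.two (nat_lit 145) (nat_lit 16) (nat_lit 7000) (nat_lit 4) (.two (nat_lit 173) (nat_lit 16) (nat_lit 6930) (nat_lit 1) (.two (nat_lit 3) (nat_lit 4) (nat_lit 7001) (nat_lit 1) (.one (nat_lit 6098) (nat_lit 1) .nil))))),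
   .der (nat_lit 1380) (nat_lit 64),
   .der (nat_lit 561) (nat_lit 3229),
   .der (nat_lit 19) (nat_lit 5935),
   .prs (.two (nat_lit 411) (nat_lit 16) (nat_lit 7003) (nat_lit 1) (.two (nat_lit 1245) (nat_lit 1) (nat_lit 3238) (nat_lit 16) (.two (nat_lit 173) (nat_lit 1) (nat_lit 3979) (nat_lit 16) (.two (nat_lit 0) (nat_lit 1) (nat_lit 7004) (nat_lit 16) (.one (nat_lit 7005) (nat_lit 1) .nil))))),
   .der (nat_lit 2) (nat_lit 2188),
   .der (nat_lit 33345) (nat_lit 4099),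
   .prs (.two (nat_lit 423) (nat_lit 16) (nat_lit 2527) (nat_lit 4) (.two (nat_lit 13) (nat_lit 4) (nat_lit 5278) (nat_lit 16) (.two (nat_lit 1) (nat_lit 4) (nat_lit 7007) (nat_lit 1) (.two (nat_lit 0) (nat_lit 4) (nat_lit 7008) (nat_lit 1) (.one (nat_lit 6215) (nat_lit 16) .nil))))),
   .der (nat_lit 20) (nat_lit 87),
   .der (nat_lit 561) (nat_lit 1030),
   .der (nat_lit 2390) (nat_lit 2224),
   .prs (.two (nat_lit 676) (nat_lit 16) (nat_lit 7010) (nat_lit 2) (.two (nat_lit 227) (nat_lit 2) (nat_lit 7011) (nat_lit 16) (.two (nat_lit 1) (nat_lit 16) (nat_lit 7012) (nat_lit 2) (.two (nat_lit 0) (nat_lit 4) (nat_lit 5230) (nat_lit 2) .nil)))),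
   .der (nat_lit 852) (nat_lit 417),
   .der (nat_lit 2084) (nat_lit 1385),
   .der (nat_lit 2084) (nat_lit 2171),
   .der (nat_lit 137) (nat_lit 3239),
   .prs (.two (nat_lit 4494) (nat_lit 8) (nat_lit 4501) (nat_lit 1) (.two (nat_lit 794) (nat_lit 2) (nat_lit 7014) (nat_lit 8) (.two (nat_lit 75) (nat_lit 2) (nat_lit 7015) (nat_lit 8) (.two (nat_lit 1) (nat_lit 2) (nat_lit 7016) (nat_lit 8) (.two (nat_lit 0) (nat_lit 1) (nat_lit 7017) (nat_lit 8) (.one (nat_lit 6219) (nat_lit 8) .nil)))))),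
   .der (nat_lit 118) (nat_lit 881),
   .der (nat_lit 150) (nat_lit 2197),
   .der (nat_lit 162) (nat_lit 3340),
   .der (nat_lit 1299) (nat_lit 6211),
   .prs (.two (nat_lit 4380) (nat_lit 16) (nat_lit 2977) (nat_lit 1) (.two (nat_lit 440) (nat_lit 2) (nat_lit 2204) (nat_lit 16) (.two (nat_lit 65) (nat_lit 2) (nat_lit 7019) (nat_lit 16) (.two (nat_lit 34) (nat_lit 2) (nat_lit 7020) (nat_lit 16) (.two (nat_lit 11) (nat_lit 1) (nat_lit 7021) (nat_lit 2) (.two (nat_lit 0) (nat_lit 1) (nat_lit 4339) (nat_lit 2) (.one (nat_lit 7022) (nat_lit 2) .nil))))))),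
   .der (nat_lit 129) (nat_lit 98),
   .der (nat_lit 2323) (nat_lit 3251),
   .der (nat_lit 2) (nat_lit 5151),
   .prs (.two (nat_lit 1587) (nat_lit 1) (nat_lit 7024) (nat_lit 16) (.two (nat_lit 13) (nat_lit 4) (nat_lit 5281) (nat_lit 16) (.two (nat_lit 463) (nat_lit 4) (nat_lit 6118) (nat_lit 16) (.two (nat_lit 3) (nat_lit 1) (nat_lit 7025) (nat_lit 4) (.two (nat_lit 0) (nat_lit 4) (nat_lit 7026) (nat_lit 16) (.one (nat_lit 6221) (nat_lit 16) .nil)))))),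
   .der (nat_lit 2084) (nat_lit 77),
   .der (nat_lit 52) (nat_lit 401),
   .der (nat_lit 161) (nat_lit 852),
   .der (nat_lit 161) (nat_lit 1385),
   .der (nat_lit 13345) (nat_lit 4067),
   .prs (.two (nat_lit 895) (nat_lit 2) (nat_lit 7028) (nat_lit 8) (.two (nat_lit 390) (nat_lit 2) (nat_lit 7029) (nat_lit 8) (.two (nat_lit 36) (nat_lit 2) (nat_lit 7030) (nat_lit 8) (.two (nat_lit 34) (nat_lit 2) (nat_lit 7031) (nat_lit 8) (.two (nat_lit 11) (nat_lit 2) (nat_lit 7032) (nat_lit 8) (.one (nat_lit 6225) (nat_lit 2) .nil)))))),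
   .der (nat_lit 83) (nat_lit 247),
   .der (nat_lit 49) (nat_lit 906),
   .prs (.two (nat_lit 6927) (nat_lit 16) (nat_lit 7034) (nat_lit 2) (.two (nat_lit 1239) (nat_lit 2) (nat_lit 7035) (nat_lit 16) (.two (nat_lit 99) (nat_lit 2) (nat_lit 6115) (nat_lit 16) (.two (nat_lit 0) (nat_lit 2) (nat_lit 5234) (nat_lit 16) (.one (nat_lit 6226) (nat_lit 2) .nil))))),
   .der (nat_lit 38163) (nat_lit 74),
   .der (nat_lit 65) (nat_lit 621),
   .der (nat_lit 659) (nat_lit 421),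
   .der (nat_lit 1057) (nat_lit 2203),
   .der (nat_lit 1122) (nat_lit 4334),
   .prs (.two (nat_lit 471) (nat_lit 1) (nat_lit 7037) (nat_lit 4) (.two (nat_lit 965) (nat_lit 4) (nat_lit 7038) (nat_lit 1) (.two (nat_lit 209) (nat_lit 4) (nat_lit 7039) (nat_lit 1) (.two (nat_lit 2) (nat_lit 4) (nat_lit 7040) (nat_lit 1) (.two (nat_lit 0) (nat_lit 4) (nat_lit 7041) (nat_lit 1) (.one (nat_lit 6229) (nat_lit 1) .nil)))))),
   .der (nat_lit 371) (nat_lit 636),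
   .der (nat_lit 33345) (nat_lit 4020),
   .prs (.two (nat_lit 33) (nat_lit 16) (nat_lit 2558) (nat_lit 1) (.two (nat_lit 80) (nat_lit 16) (nat_lit 7043) (nat_lit 1) (.two (nat_lit 129) (nat_lit 16) (nat_lit 2559) (nat_lit 1) (.two (nat_lit 2) (nat_lit 16) (nat_lit 4443) (nat_lit 1) (.two (nat_lit 1) (nat_lit 8) (nat_lit 7044) (nat_lit 16) (.one (nat_lit 6233) (nat_lit 16) .nil)))))),
   .der (nat_lit 129) (nat_lit 62),
   .der (nat_lit 33) (nat_lit 2183),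
   .der (nat_lit 8) (nat_lit 4170),
   .prs (.two (nat_lit 1671) (nat_lit 4) (nat_lit 7046) (nat_lit 16) (.two (nat_lit 1848) (nat_lit 4) (nat_lit 2178) (nat_lit 16) (.two (nat_lit 170) (nat_lit 4) (nat_lit 7047) (nat_lit 16) (.two (nat_lit 0) (nat_lit 4) (nat_lit 7048) (nat_lit 16) (.one (nat_lit 6237) (nat_lit 16) .nil))))),
   .der (nat_lit 7) (nat_lit 39),
   .der (nat_lit 98) (nat_lit 35),
   .der (nat_lit 135) (nat_lit 898),
   .der (nat_lit 129) (nat_lit 3385),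
   .der (nat_lit 1554) (nat_lit 4311),
   .der (nat_lit 6) (nat_lit 6136),
   .prs (.two (nat_lit 7051) (nat_lit 16) (nat_lit 7050) (nat_lit 2) (.two (nat_lit 1113) (nat_lit 16) (nat_lit 7052) (nat_lit 2) (.two (nat_lit 34) (nat_lit 2) (nat_lit 2170) (nat_lit 16) (.two (nat_lit 1) (nat_lit 2) (nat_lit 7053) (nat_lit 16) (.two (nat_lit 0) (nat_lit 2) (nat_lit 7054) (nat_lit 16) (.one (nat_lit 7055) (nat_lit 2) .nil)))))),
   .der (nat_lit 162) (nat_lit 412),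
   .prs (.two (nat_lit 440) (nat_lit 8) (nat_lit 7057) (nat_lit 1) (.two (nat_lit 5) (nat_lit 1) (nat_lit 2463) (nat_lit 8) (.two (nat_lit 1) (nat_lit 2) (nat_lit 4179) (nat_lit 1) (.two (nat_lit 0) (nat_lit 1) (nat_lit 5290) (nat_lit 2) (.one (nat_lit 6261) (nat_lit 2) .nil))))),
   .der (nat_lit 5) (nat_lit 3116),
   .prs (.two (nat_lit 97) (nat_lit 16) (nat_lit 6155) (nat_lit 1) (.two (nat_lit 482) (nat_lit 1) (nat_lit 1556) (nat_lit 16) (.two (nat_lit 1) (nat_lit 2) (nat_lit 7059) (nat_lit 16) .nil))),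
   .prs (.two (nat_lit 97) (nat_lit 16) (nat_lit 6155) (nat_lit 1) (.two (nat_lit 482) (nat_lit 1) (nat_lit 1556) (nat_lit 16) (.two (nat_lit 1) (nat_lit 2) (nat_lit 6144) (nat_lit 16) (.one (nat_lit 5297) (nat_lit 16) .nil)))),
   .der (nat_lit 1057) (nat_lit 104),
   .der (nat_lit 152) (nat_lit 834),
   .der (nat_lit 98) (nat_lit 1412),
   .der (nat_lit 801) (nat_lit 4137),
   .prs (.two (nat_lit 1382) (nat_lit 1) (nat_lit 7062) (nat_lit 4) (.two (nat_lit 794) (nat_lit 2) (nat_lit 7063) (nat_lit 4) (.two (nat_lit 1010) (nat_lit 4) (nat_lit 7064) (nat_lit 1) (.two (nat_lit 46) (nat_lit 4) (nat_lit 4430) (nat_lit 1) (.two (nat_lit 0) (nat_lit 1) (nat_lit 7065) (nat_lit 2) (.one (nat_lit 6092) (nat_lit 2) .nil)))))),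
   .der (nat_lit 19) (nat_lit 2210),
   .prs (.two (nat_lit 858) (nat_lit 16) (nat_lit 5335) (nat_lit 1) (.two (nat_lit 2610) (nat_lit 1) (nat_lit 683) (nat_lit 16) (.two (nat_lit 622) (nat_lit 1) (nat_lit 3226) (nat_lit 16) (.two (nat_lit 1) (nat_lit 4) (nat_lit 7067) (nat_lit 16) (.one (nat_lit 5309) (nat_lit 16) .nil))))),
   .der (nat_lit 3) (nat_lit 421),
   .der (nat_lit 129) (nat_lit 4067),
   .prs (.two (nat_lit 2252) (nat_lit 4) (nat_lit 2177) (nat_lit 16) (.two (nat_lit 1413) (nat_lit 4) (nat_lit 7069) (nat_lit 16) (.two (nat_lit 2) (nat_lit 4) (nat_lit 7047) (nat_lit 16) (.two (nat_lit 0) (nat_lit 4) (nat_lit 7070) (nat_lit 16) (.one (nat_lit 6243) (nat_lit 16) .nil))))),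
   .der (nat_lit 2578) (nat_lit 1550),
   .prs (.two (nat_lit 2473) (nat_lit 8) (nat_lit 6976) (nat_lit 2) (.two (nat_lit 38) (nat_lit 8) (nat_lit 2212) (nat_lit 16) (.two (nat_lit 1068) (nat_lit 16) (nat_lit 7072) (nat_lit 8) (.two (nat_lit 3) (nat_lit 16) (nat_lit 6078) (nat_lit 8) (.one (nat_lit 5250) (nat_lit 8) .nil))))),
   .der (nat_lit 161) (nat_lit 218),
   .der (nat_lit 1811) (nat_lit 981),
   .der (nat_lit 10) (nat_lit 3403),
   .prs (.two (nat_lit 127) (nat_lit 16) (nat_lit 7074) (nat_lit 4) (.two (nat_lit 129) (nat_lit 16) (nat_lit 1489) (nat_lit 4) (.two (nat_lit 2) (nat_lit 16) (nat_lit 7075) (nat_lit 4) (.two (nat_lit 1) (nat_lit 4) (nat_lit 4486) (nat_lit 16) (.two (nat_lit 0) (nat_lit 1) (nat_lit 7076) (nat_lit 16) (.one (nat_lit 5312) (nat_lit 1) .nil)))))),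
   .der (nat_lit 161) (nat_lit 288),
   .der (nat_lit 84) (nat_lit 403),
   .der (nat_lit 9572) (nat_lit 10),
   .der (nat_lit 1380) (nat_lit 984),
   .der (nat_lit 5971) (nat_lit 2266),
   .prs (.two (nat_lit 1413) (nat_lit 4) (nat_lit 7078) (nat_lit 1) (.two (nat_lit 7080) (nat_lit 4) (nat_lit 7079) (nat_lit 1) (.two (nat_lit 482) (nat_lit 4) (nat_lit 7081) (nat_lit 1) (.two (nat_lit 3) (nat_lit 4) (nat_lit 7082) (nat_lit 1) (.two (nat_lit 0) (nat_lit 4) (nat_lit 4413) (nat_lit 1) (.one (nat_lit 5319) (nat_lit 4) .nil)))))),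
   .der (nat_lit 2390) (nat_lit 2332),
   .prs (.two (nat_lit 676) (nat_lit 16) (nat_lit 1768) (nat_lit 4) (.two (nat_lit 42) (nat_lit 4) (nat_lit 3136) (nat_lit 16) (.two (nat_lit 0) (nat_lit 4) (nat_lit 7084) (nat_lit 16) (.one (nat_lit 6180) (nat_lit 16) .nil)))),
   .der (nat_lit 137) (nat_lit 1542),
   .der (nat_lit 137) (nat_lit 2346),
   .prs (.two (nat_lit 965) (nat_lit 4) (nat_lit 4330) (nat_lit 2) (.two (nat_lit 2007) (nat_lit 2) (nat_lit 3373) (nat_lit 4) (.two (nat_lit 17) (nat_lit 2) (nat_lit 7086) (nat_lit 4) (.two (nat_lit 1) (nat_lit 2) (nat_lit 7087) (nat_lit 4) (.two (nat_lit 0) (nat_lit 2) (nat_lit 4420) (nat_lit 4) (.one (nat_lit 6264) (nat_lit 2) .nil)))))),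
   .der (nat_lit 19) (nat_lit 1076),
   .prs (.two (nat_lit 509) (nat_lit 4) (nat_lit 7089) (nat_lit 16) (.two (nat_lit 1) (nat_lit 4) (nat_lit 4343) (nat_lit 16) .nil)),
   .der (nat_lit 137) (nat_lit 236),
   .der (nat_lit 35) (nat_lit 1073),
   .der (nat_lit 137) (nat_lit 1432),
   .prs (.two (nat_lit 13) (nat_lit 16) (nat_lit 7091) (nat_lit 8) (.two (nat_lit 129) (nat_lit 8) (nat_lit 7092) (nat_lit 16) (.two (nat_lit 1) (nat_lit 8) (nat_lit 7093) (nat_lit 16) (.two (nat_lit 0) (nat_lit 8) (nat_lit 4426) (nat_lit 16) (.one (nat_lit 6266) (nat_lit 16) .nil))))),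
   .der (nat_lit 1810) (nat_lit 64),
   .prs (.two (nat_lit 390) (nat_lit 16) (nat_lit 7095) (nat_lit 2) (.two (nat_lit 1459) (nat_lit 2) (nat_lit 3292) (nat_lit 16) (.two (nat_lit 0) (nat_lit 2) (nat_lit 3410) (nat_lit 16) (.one (nat_lit 6271) (nat_lit 2) .nil)))),
   .der (nat_lit 10) (nat_lit 873),
   .der (nat_lit 165) (nat_lit 2332),
   .prs (.two (nat_lit 449) (nat_lit 8) (nat_lit 7097) (nat_lit 16) (.two (nat_lit 1) (nat_lit 2) (nat_lit 7098) (nat_lit 16) (.one (nat_lit 6276) (nat_lit 16) .nil))),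
   .der (nat_lit 2068) (nat_lit 158),
   .der (nat_lit 339) (nat_lit 827),
   .der (nat_lit 7) (nat_lit 10),
   .der (nat_lit 3) (nat_lit 4311),
   .prs (.two (nat_lit 390) (nat_lit 16) (nat_lit 7100) (nat_lit 2) (.two (nat_lit 7102) (nat_lit 2) (nat_lit 7101) (nat_lit 16) (.two (nat_lit 1) (nat_lit 2) (nat_lit 3385) (nat_lit 16) (.one (nat_lit 7103) (nat_lit 16) .nil)))),
   .der (nat_lit 801) (nat_lit 904),
   .prs (.two (nat_lit 520) (nat_lit 4) (nat_lit 5747) (nat_lit 8) (.two (nat_lit 2) (nat_lit 4) (nat_lit 7105) (nat_lit 8) (.two (nat_lit 1) (nat_lit 2) (nat_lit 6472) (nat_lit 4) (.two (nat_lit 0) (nat_lit 4) (nat_lit 3418) (nat_lit 2) (.one (nat_lit 5334) (nat_lit 4) .nil))))),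
   .prs (.two (nat_lit 676) (nat_lit 16) (nat_lit 2516) (nat_lit 4) (.two (nat_lit 6) (nat_lit 4) (nat_lit 4474) (nat_lit 16) (.two (nat_lit 3) (nat_lit 4) (nat_lit 3424) (nat_lit 1) (.two (nat_lit 0) (nat_lit 4) (nat_lit 4436) (nat_lit 1) (.one (nat_lit 6277) (nat_lit 1) .nil))))),
   .der (nat_lit 103) (nat_lit 461),
   .der (nat_lit 103) (nat_lit 1033),
   .prs (.two (nat_lit 676) (nat_lit 4) (nat_lit 7108) (nat_lit 2) (.two (nat_lit 463) (nat_lit 4) (nat_lit 7109) (nat_lit 2) (.two (nat_lit 3) (nat_lit 1) (nat_lit 3429) (nat_lit 2) (.two (nat_lit 0) (nat_lit 4) (nat_lit 4448) (nat_lit 1) (.one (nat_lit 5350) (nat_lit 1) .nil))))),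
   .der (nat_lit 36) (nat_lit 101),
   .der (nat_lit 66) (nat_lit 172),
   .der (nat_lit 2) (nat_lit 1699),
   .der (nat_lit 1122) (nat_lit 2291),
   .prs (.two (nat_lit 825) (nat_lit 4) (nat_lit 7111) (nat_lit 1) (.two (nat_lit 28) (nat_lit 4) (nat_lit 7112) (nat_lit 1) (.two (nat_lit 716) (nat_lit 1) (nat_lit 7113) (nat_lit 2) (.two (nat_lit 16) (nat_lit 4) (nat_lit 7114) (nat_lit 1) (.two (nat_lit 0) (nat_lit 1) (nat_lit 5300) (nat_lit 4) (.one (nat_lit 6282) (nat_lit 2) .nil)))))),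
   .der (nat_lit 33) (nat_lit 2494),
   .prs (.two (nat_lit 520) (nat_lit 4) (nat_lit 5245) (nat_lit 8) (.two (nat_lit 325) (nat_lit 2) (nat_lit 7116) (nat_lit 8) (.two (nat_lit 0) (nat_lit 2) (nat_lit 4322) (nat_lit 8) .nil))),
   .der (nat_lit 2) (nat_lit 681),
   .prs (.two (nat_lit 459) (nat_lit 4) (nat_lit 106) (nat_lit 2) (.two (nat_lit 42) (nat_lit 16) (nat_lit 7118) (nat_lit 4) (.two (nat_lit 556) (nat_lit 4) (nat_lit 3292) (nat_lit 16) (.two (nat_lit 0) (nat_lit 2) (nat_lit 4459) (nat_lit 16) (.one (nat_lit 6284) (nat_lit 2) .nil))))),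
   .der (nat_lit 38163) (nat_lit 288),
   .prs (.two (nat_lit 440) (nat_lit 8) (nat_lit 7120) (nat_lit 2) (.two (nat_lit 1528) (nat_lit 2) (nat_lit 1404) (nat_lit 8) (.two (nat_lit 1) (nat_lit 2) (nat_lit 5292) (nat_lit 8) (.one (nat_lit 6286) (nat_lit 8) .nil)))),
   .der (nat_lit 33) (nat_lit 845),
   .der (nat_lit 18) (nat_lit 2633),
   .der (nat_lit 145) (nat_lit 4257),
   .prs (.two (nat_lit 3774) (nat_lit 4) (nat_lit 935) (nat_lit 16) (.two (nat_lit 145) (nat_lit 16) (nat_lit 1429) (nat_lit 4) (.two (nat_lit 6) (nat_lit 4) (nat_lit 7122) (nat_lit 16) (.two (nat_lit 482) (nat_lit 4) (nat_lit 7123) (nat_lit 16) (.two (nat_lit 3) (nat_lit 16) (nat_lit 7124) (nat_lit 1) (.two (nat_lit 0) (nat_lit 1) (nat_lit 4555) (nat_lit 4) (.one (nat_lit 6357) (nat_lit 1) .nil))))))),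
   .der (nat_lit 5971) (nat_lit 407),
   .der (nat_lit 33) (nat_lit 1422),
   .der (nat_lit 37425) (nat_lit 1478),
   .der (nat_lit 33345) (nat_lit 3251),
   .prs (.two (nat_lit 6348) (nat_lit 2) (nat_lit 6403) (nat_lit 1) (.two (nat_lit 1239) (nat_lit 2) (nat_lit 7126) (nat_lit 1) (.two (nat_lit 741) (nat_lit 2) (nat_lit 7127) (nat_lit 1) (.two (nat_lit 308) (nat_lit 2) (nat_lit 7128) (nat_lit 1) (.two (nat_lit 46) (nat_lit 1) (nat_lit 7129) (nat_lit 2) (.two (nat_lit 0) (nat_lit 2) (nat_lit 4559) (nat_lit 1) (.one (nat_lit 6362) (nat_lit 1) .nil))))))),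
   .der (nat_lit 2) (nat_lit 72),
   .der (nat_lit 100) (nat_lit 636),
   .der (nat_lit 135) (nat_lit 867),
   .der (nat_lit 2323) (nat_lit 2386),
   .der (nat_lit 1299) (nat_lit 3418),
   .prs (.two (nat_lit 13) (nat_lit 4) (nat_lit 7131) (nat_lit 16) (.two (nat_lit 134) (nat_lit 4) (nat_lit 7132) (nat_lit 1) (.two (nat_lit 173) (nat_lit 1) (nat_lit 7133) (nat_lit 4) (.two (nat_lit 1) (nat_lit 16) (nat_lit 7134) (nat_lit 4) (.two (nat_lit 0) (nat_lit 16) (nat_lit 7135) (nat_lit 1) (.one (nat_lit 6422) (nat_lit 16) .nil)))))),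
   .der (nat_lit 9) (nat_lit 177),
   .der (nat_lit 29011) (nat_lit 897),
   .der (nat_lit 21107) (nat_lit 1724),
   .der (nat_lit 1430) (nat_lit 2214),
   .der (nat_lit 21092) (nat_lit 4181),
   .der (nat_lit 627) (nat_lit 6104),
   .prs (.two (nat_lit 5389) (nat_lit 2) (nat_lit 4801) (nat_lit 16) (.two (nat_lit 520) (nat_lit 16) (nat_lit 7137) (nat_lit 2) (.two (nat_lit 129) (nat_lit 16) (nat_lit 7138) (nat_lit 2) (.two (nat_lit 2) (nat_lit 16) (nat_lit 7139) (nat_lit 2) (.two (nat_lit 1) (nat_lit 16) (nat_lit 7140) (nat_lit 2) (.two (nat_lit 0) (nat_lit 16) (nat_lit 7141) (nat_lit 2) (.one (nat_lit 7142) (nat_lit 2) .nil))))))),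
   .der (nat_lit 115) (nat_lit 72),
   .der (nat_lit 627) (nat_lit 952),
   .prs (.two (nat_lit 80) (nat_lit 16) (nat_lit 7144) (nat_lit 2) (.two (nat_lit 36) (nat_lit 16) (nat_lit 7145) (nat_lit 2) (.two (nat_lit 11) (nat_lit 2) (nat_lit 4533) (nat_lit 16) (.one (nat_lit 5438) (nat_lit 16) .nil)))),
   .der (nat_lit 12658) (nat_lit 72),
   .prs (.two (nat_lit 13) (nat_lit 16) (nat_lit 7147) (nat_lit 8) (.two (nat_lit 404) (nat_lit 8) (nat_lit 6074) (nat_lit 16) (.two (nat_lit 0) (nat_lit 8) (nat_lit 4027) (nat_lit 16) (.one (nat_lit 4585) (nat_lit 16) .nil)))),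
   .der (nat_lit 1300) (nat_lit 1169),
   .prs (.two (nat_lit 6890) (nat_lit 4) (nat_lit 121) (nat_lit 16) (.two (nat_lit 105) (nat_lit 16) (nat_lit 4685) (nat_lit 4) (.two (nat_lit 456) (nat_lit 16) (nat_lit 7149) (nat_lit 4) (.two (nat_lit 173) (nat_lit 16) (nat_lit 2744) (nat_lit 4) (.two (nat_lit 11) (nat_lit 1) (nat_lit 4566) (nat_lit 4) (.two (nat_lit 0) (nat_lit 1) (nat_lit 5408) (nat_lit 4) (.one (nat_lit 6366) (nat_lit 1) .nil))))))),
   .der (nat_lit 118) (nat_lit 707),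
   .der (nat_lit 1811) (nat_lit 425),
   .der (nat_lit 371) (nat_lit 2689),
   .prs (.two (nat_lit 520) (nat_lit 8) (nat_lit 7151) (nat_lit 4) (.two (nat_lit 2) (nat_lit 8) (nat_lit 7152) (nat_lit 4) (.two (nat_lit 1) (nat_lit 4) (nat_lit 7153) (nat_lit 2) (.two (nat_lit 0) (nat_lit 2) (nat_lit 4593) (nat_lit 4) (.one (nat_lit 6424) (nat_lit 4) .nil))))),
   .der (nat_lit 18) (nat_lit 87),
   .der (nat_lit 2578) (nat_lit 1052),
   .der (nat_lit 165) (nat_lit 2205),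
   .der (nat_lit 2578) (nat_lit 4028),
   .der (nat_lit 2578) (nat_lit 6303),
   .prs (.two (nat_lit 33) (nat_lit 8) (nat_lit 7155) (nat_lit 16) (.two (nat_lit 440) (nat_lit 8) (nat_lit 7156) (nat_lit 2) (.two (nat_lit 2) (nat_lit 16) (nat_lit 7157) (nat_lit 8) (.two (nat_lit 0) (nat_lit 16) (nat_lit 7158) (nat_lit 8) (.one (nat_lit 7159) (nat_lit 2) .nil))))),
   .der (nat_lit 117) (nat_lit 934),
   .der (nat_lit 8) (nat_lit 4436),
   .prs (.two (nat_lit 1326) (nat_lit 1) (nat_lit 5488) (nat_lit 2) (.two (nat_lit 1573) (nat_lit 2) (nat_lit 7161) (nat_lit 16) (.two (nat_lit 3) (nat_lit 1) (nat_lit 7162) (nat_lit 2) (.one (nat_lit 6428) (nat_lit 1) .nil)))),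
   .der (nat_lit 2135) (nat_lit 446),
   .der (nat_lit 5218) (nat_lit 1179),
   .der (nat_lit 834) (nat_lit 1478),
   .der (nat_lit 1) (nat_lit 3443),
   .prs (.two (nat_lit 717) (nat_lit 16) (nat_lit 7164) (nat_lit 2) (.two (nat_lit 34) (nat_lit 16) (nat_lit 7165) (nat_lit 2) (.two (nat_lit 1) (nat_lit 2) (nat_lit 7166) (nat_lit 16) (.two (nat_lit 0) (nat_lit 2) (nat_lit 7167) (nat_lit 16) (.one (nat_lit 5448) (nat_lit 2) .nil))))),
   .der (nat_lit 13345) (nat_lit 594),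
   .der (nat_lit 1653) (nat_lit 1074),
   .der (nat_lit 34068) (nat_lit 1534),
   .der (nat_lit 165) (nat_lit 4383),
   .prs (.two (nat_lit 1307) (nat_lit 2) (nat_lit 4571) (nat_lit 8) (.two (nat_lit 1113) (nat_lit 2) (nat_lit 7169) (nat_lit 8) (.two (nat_lit 1126) (nat_lit 2) (nat_lit 7170) (nat_lit 8) (.two (nat_lit 68) (nat_lit 1) (nat_lit 7171) (nat_lit 8) (.two (nat_lit 11) (nat_lit 1) (nat_lit 7172) (nat_lit 2) (.one (nat_lit 6378) (nat_lit 8) .nil)))))),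
   .der (nat_lit 2433) (nat_lit 584),
   .der (nat_lit 2084) (nat_lit 3118),
   .prs (.two (nat_lit 6927) (nat_lit 16) (nat_lit 1905) (nat_lit 8) (.two (nat_lit 38) (nat_lit 8) (nat_lit 7174) (nat_lit 16) (.two (nat_lit 489) (nat_lit 16) (nat_lit 4018) (nat_lit 8) (.two (nat_lit 463) (nat_lit 16) (nat_lit 6062) (nat_lit 8) (.two (nat_lit 3) (nat_lit 16) (nat_lit 7175) (nat_lit 1) (.two (nat_lit 0) (nat_lit 1) (nat_lit 5417) (nat_lit 8) (.one (nat_lit 6382) (nat_lit 1) .nil))))))),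
   .der (nat_lit 1299) (nat_lit 435),
   .der (nat_lit 356) (nat_lit 1619),
   .der (nat_lit 5) (nat_lit 3565),
   .prs (.two (nat_lit 1480) (nat_lit 8) (nat_lit 7177) (nat_lit 16) (.two (nat_lit 206) (nat_lit 8) (nat_lit 7178) (nat_lit 16) (.two (nat_lit 1) (nat_lit 8) (nat_lit 7179) (nat_lit 16) (.one (nat_lit 5457) (nat_lit 16) .nil)))),
   .der (nat_lit 5) (nat_lit 4570),
   .prs (.two (nat_lit 13) (nat_lit 16) (nat_lit 2827) (nat_lit 8) (.two (nat_lit 404) (nat_lit 8) (nat_lit 6074) (nat_lit 16) (.two (nat_lit 0) (nat_lit 8) (nat_lit 7181) (nat_lit 16) .nil))),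
   .der (nat_lit 135) (nat_lit 1558),
   .der (nat_lit 114) (nat_lit 3457),
   .der (nat_lit 7) (nat_lit 6054),
   .prs (.two (nat_lit 39) (nat_lit 16) (nat_lit 4203) (nat_lit 2) (.two (nat_lit 440) (nat_lit 16) (nat_lit 6323) (nat_lit 2) (.two (nat_lit 4) (nat_lit 16) (nat_lit 7183) (nat_lit 2) (.two (nat_lit 11) (nat_lit 16) (nat_lit 7184) (nat_lit 2) (.two (nat_lit 0) (nat_lit 2) (nat_lit 4570) (nat_lit 16) (.one (nat_lit 7185) (nat_lit 2) .nil)))))),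
   .der (nat_lit 145) (nat_lit 392),
   .der (nat_lit 10305) (nat_lit 1085),
   .der (nat_lit 8) (nat_lit 5438),
   .prs (.two (nat_lit 520) (nat_lit 8) (nat_lit 1355) (nat_lit 4) (.two (nat_lit 42) (nat_lit 8) (nat_lit 7187) (nat_lit 4) (.two (nat_lit 4) (nat_lit 8) (nat_lit 7188) (nat_lit 4) (.two (nat_lit 1) (nat_lit 8) (nat_lit 3573) (nat_lit 4) (.two (nat_lit 0) (nat_lit 1) (nat_lit 4598) (nat_lit 4) (.one (nat_lit 7189) (nat_lit 1) .nil)))))),
   .der (nat_lit 135) (nat_lit 446),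
   .der (nat_lit 801) (nat_lit 834),
   .der (nat_lit 8) (nat_lit 2216),
   .der (nat_lit 19) (nat_lit 3443),
   .prs (.two (nat_lit 80) (nat_lit 16) (nat_lit 7191) (nat_lit 8) (.two (nat_lit 1068) (nat_lit 1) (nat_lit 7192) (nat_lit 16) (.two (nat_lit 3) (nat_lit 1) (nat_lit 7193) (nat_lit 16) (.two (nat_lit 0) (nat_lit 8) (nat_lit 7194) (nat_lit 16) (.one (nat_lit 6432) (nat_lit 8) .nil))))),
   .der (nat_lit 5971) (nat_lit 641),
   .der (nat_lit 356) (nat_lit 1065),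
   .der (nat_lit 1380) (nat_lit 1473),
   .prs (.two (nat_lit 94) (nat_lit 2) (nat_lit 7196) (nat_lit 1) (.two (nat_lit 14) (nat_lit 1) (nat_lit 7197) (nat_lit 2) (.two (nat_lit 3) (nat_lit 8) (nat_lit 7198) (nat_lit 1) (.two (nat_lit 0) (nat_lit 8) (nat_lit 4606) (nat_lit 1) (.one (nat_lit 5460) (nat_lit 2) .nil))))),
   .der (nat_lit 644) (nat_lit 146),
   .der (nat_lit 36) (nat_lit 594),
   .der (nat_lit 132) (nat_lit 927),
   .der (nat_lit 100) (nat_lit 1473),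
   .prs (.two (nat_lit 1326) (nat_lit 1) (nat_lit 7200) (nat_lit 4) (.two (nat_lit 427) (nat_lit 2) (nat_lit 7201) (nat_lit 4) (.two (nat_lit 5) (nat_lit 8) (nat_lit 7202) (nat_lit 1) (.two (nat_lit 3) (nat_lit 8) (nat_lit 7203) (nat_lit 1) (.two (nat_lit 0) (nat_lit 2) (nat_lit 4609) (nat_lit 1) (.one (nat_lit 6435) (nat_lit 4) .nil)))))),
   .der (nat_lit 114) (nat_lit 291),
   .der (nat_lit 5218) (nat_lit 438),
   .der (nat_lit 833) (nat_lit 2385),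
   .prs (.two (nat_lit 13) (nat_lit 16) (nat_lit 7205) (nat_lit 4) (.two (nat_lit 543) (nat_lit 2) (nat_lit 7206) (nat_lit 4) (.two (nat_lit 740) (nat_lit 16) (nat_lit 7202) (nat_lit 1) (.two (nat_lit 1) (nat_lit 2) (nat_lit 7207) (nat_lit 1) (.two (nat_lit 0) (nat_lit 1) (nat_lit 4612) (nat_lit 4) (.one (nat_lit 5467) (nat_lit 4) .nil)))))),
   .der (nat_lit 1620) (nat_lit 1230),
   .der (nat_lit 98) (nat_lit 1088),
   .prs (.two (nat_lit 80) (nat_lit 8) (nat_lit 7209) (nat_lit 1) (.two (nat_lit 99) (nat_lit 2) (nat_lit 7210) (nat_lit 8) (.two (nat_lit 1) (nat_lit 2) (nat_lit 4625) (nat_lit 1) (.two (nat_lit 0) (nat_lit 2) (nat_lit 4627) (nat_lit 8) (.one (nat_lit 6438) (nat_lit 2) .nil))))),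
   .der (nat_lit 5) (nat_lit 441),
   .der (nat_lit 561) (nat_lit 1166),
   .prs (.two (nat_lit 13) (nat_lit 4) (nat_lit 846) (nat_lit 16) (.two (nat_lit 30) (nat_lit 1) (nat_lit 7212) (nat_lit 16) (.two (nat_lit 2) (nat_lit 4) (nat_lit 7213) (nat_lit 16) (.two (nat_lit 3) (nat_lit 4) (nat_lit 5399) (nat_lit 16) (.two (nat_lit 0) (nat_lit 4) (nat_lit 4631) (nat_lit 16) (.one (nat_lit 6397) (nat_lit 4) .nil)))))),
   .der (nat_lit 356) (nat_lit 64),
   .der (nat_lit 19) (nat_lit 848),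
   .der (nat_lit 1) (nat_lit 4145),
   .prs (.two (nat_lit 390) (nat_lit 16) (nat_lit 7215) (nat_lit 2) (.two (nat_lit 1401) (nat_lit 2) (nat_lit 7216) (nat_lit 16) (.two (nat_lit 11) (nat_lit 2) (nat_lit 7217) (nat_lit 16) .nil))),
   .der (nat_lit 2339) (nat_lit 1073),
   .der (nat_lit 2135) (nat_lit 2244),
   .prs (.two (nat_lit 105) (nat_lit 8) (nat_lit 3774) (nat_lit 4) (.two (nat_lit 956) (nat_lit 8) (nat_lit 7219) (nat_lit 4) (.two (nat_lit 1) (nat_lit 8) (nat_lit 7220) (nat_lit 2) (.two (nat_lit 0) (nat_lit 8) (nat_lit 4636) (nat_lit 2) (.one (nat_lit 6441) (nat_lit 4) .nil))))),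
   .der (nat_lit 21092) (nat_lit 3340),
   .prs (.two (nat_lit 717) (nat_lit 2) (nat_lit 5235) (nat_lit 4) (.two (nat_lit 100) (nat_lit 2) (nat_lit 5482) (nat_lit 4) (.two (nat_lit 0) (nat_lit 1) (nat_lit 7222) (nat_lit 2) (.one (nat_lit 5483) (nat_lit 4) .nil)))),
   .der (nat_lit 83) (nat_lit 95),
   .der (nat_lit 5971) (nat_lit 1616),
   .der (nat_lit 1300) (nat_lit 2596),
   .der (nat_lit 135) (nat_lit 2203),
   .prs (.two (nat_lit 390) (nat_lit 16) (nat_lit 7224) (nat_lit 1) (.two (nat_lit 65) (nat_lit 16) (nat_lit 2010) (nat_lit 4) (.two (nat_lit 740) (nat_lit 1) (nat_lit 7225) (nat_lit 16) (.two (nat_lit 1) (nat_lit 16) (nat_lit 7226) (nat_lit 4) (.two (nat_lit 0) (nat_lit 1) (nat_lit 7227) (nat_lit 16) (.one (nat_lit 6443) (nat_lit 1) .nil)))))),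
   .prs (.two (nat_lit 676) (nat_lit 16) (nat_lit 6391) (nat_lit 4) (.two (nat_lit 3415) (nat_lit 4) (nat_lit 3905) (nat_lit 16) (.two (nat_lit 1) (nat_lit 4) (nat_lit 6392) (nat_lit 16) (.one (nat_lit 6448) (nat_lit 16) .nil)))),
   .der (nat_lit 2084) (nat_lit 169),
   .der (nat_lit 36) (nat_lit 917),
   .der (nat_lit 627) (nat_lit 1406),
   .prs (.two (nat_lit 13) (nat_lit 16) (nat_lit 832) (nat_lit 1) (.two (nat_lit 91) (nat_lit 4) (nat_lit 7230) (nat_lit 1) (.two (nat_lit 2) (nat_lit 16) (nat_lit 7231) (nat_lit 4) (.two (nat_lit 1) (nat_lit 2) (nat_lit 7232) (nat_lit 1) (.two (nat_lit 0) (nat_lit 2) (nat_lit 4645) (nat_lit 1) (.one (nat_lit 6450) (nat_lit 1) .nil)))))),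
   .der (nat_lit 1122) (nat_lit 834),
   .der (nat_lit 114) (nat_lit 2585),
   .prs (.two (nat_lit 13) (nat_lit 16) (nat_lit 4168) (nat_lit 1) (.two (nat_lit 723) (nat_lit 1) (nat_lit 5188) (nat_lit 16) (.two (nat_lit 190) (nat_lit 16) (nat_lit 7234) (nat_lit 1) (.two (nat_lit 3) (nat_lit 16) (nat_lit 7235) (nat_lit 1) (.two (nat_lit 0) (nat_lit 1) (nat_lit 4649) (nat_lit 16) (.one (nat_lit 6457) (nat_lit 16) .nil)))))),
   .der (nat_lit 1380) (nat_lit 98),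
   .der (nat_lit 12658) (nat_lit 169),
   .der (nat_lit 2353) (nat_lit 1800),
   .der (nat_lit 340) (nat_lit 2614),
   .prs (.two (nat_lit 717) (nat_lit 2) (nat_lit 7237) (nat_lit 8) (.two (nat_lit 100) (nat_lit 2) (nat_lit 7238) (nat_lit 8) (.two (nat_lit 25) (nat_lit 2) (nat_lit 7239) (nat_lit 8) (.two (nat_lit 1) (nat_lit 2) (nat_lit 7240) (nat_lit 8) (.two (nat_lit 0) (nat_lit 8) (nat_lit 4652) (nat_lit 2) (.one (nat_lit 6336) (nat_lit 8) .nil)))))),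
   .prs (.two (nat_lit 1582) (nat_lit 8) (nat_lit 6403) (nat_lit 1) (.two (nat_lit 761) (nat_lit 1) (nat_lit 6405) (nat_lit 8) (.two (nat_lit 0) (nat_lit 16) (nat_lit 3584) (nat_lit 8) (.one (nat_lit 6459) (nat_lit 8) .nil)))),
   .der (nat_lit 145) (nat_lit 93),
   .der (nat_lit 129) (nat_lit 992),
   .der (nat_lit 135) (nat_lit 2375),
   .prs (.two (nat_lit 717) (nat_lit 16) (nat_lit 7243) (nat_lit 1) (.two (nat_lit 167) (nat_lit 16) (nat_lit 7244) (nat_lit 1) (.two (nat_lit 1) (nat_lit 2) (nat_lit 7245) (nat_lit 1) (.two (nat_lit 0) (nat_lit 2) (nat_lit 4658) (nat_lit 1) (.one (nat_lit 6462) (nat_lit 16) .nil))))),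
   .der (nat_lit 35) (nat_lit 151),
   .der (nat_lit 1554) (nat_lit 894),
   .prs (.two (nat_lit 71) (nat_lit 1) (nat_lit 7247) (nat_lit 8) (.two (nat_lit 28) (nat_lit 1) (nat_lit 2256) (nat_lit 8) (.two (nat_lit 68) (nat_lit 16) (nat_lit 4698) (nat_lit 1) (.two (nat_lit 11) (nat_lit 16) (nat_lit 7248) (nat_lit 1) (.two (nat_lit 0) (nat_lit 16) (nat_lit 2786) (nat_lit 8) (.one (nat_lit 5510) (nat_lit 8) .nil)))))),
   .der (nat_lit 20) (nat_lit 461),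
   .der (nat_lit 50) (nat_lit 837),
   .der (nat_lit 577) (nat_lit 864),
   .der (nat_lit 147) (nat_lit 2188),
   .der (nat_lit 1395) (nat_lit 4137),
   .prs (.two (nat_lit 2344) (nat_lit 16) (nat_lit 3732) (nat_lit 4) (.two (nat_lit 71) (nat_lit 16) (nat_lit 7250) (nat_lit 4) (.two (nat_lit 6) (nat_lit 4) (nat_lit 7251) (nat_lit 16) (.two (nat_lit 383) (nat_lit 16) (nat_lit 7252) (nat_lit 4) (.two (nat_lit 46) (nat_lit 1) (nat_lit 7253) (nat_lit 16) (.two (nat_lit 0) (nat_lit 1) (nat_lit 7254) (nat_lit 4) (.one (nat_lit 6488) (nat_lit 1) .nil))))))),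
   .der (nat_lit 84) (nat_lit 64),
   .der (nat_lit 801) (nat_lit 841),
   .prs (.two (nat_lit 69) (nat_lit 16) (nat_lit 7256) (nat_lit 1) (.two (nat_lit 3643) (nat_lit 1) (nat_lit 7257) (nat_lit 16) (.two (nat_lit 3) (nat_lit 1) (nat_lit 5518) (nat_lit 16) (.two (nat_lit 0) (nat_lit 1) (nat_lit 3716) (nat_lit 16) (.one (nat_lit 6497) (nat_lit 1) .nil))))),
   .der (nat_lit 2135) (nat_lit 461),
   .der (nat_lit 1653) (nat_lit 1711),
   .der (nat_lit 9) (nat_lit 2468),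
   .prs (.two (nat_lit 462) (nat_lit 4) (nat_lit 1852) (nat_lit 2) (.two (nat_lit 637) (nat_lit 2) (nat_lit 7259) (nat_lit 4) (.two (nat_lit 519) (nat_lit 4) (nat_lit 7260) (nat_lit 2) (.two (nat_lit 3) (nat_lit 1) (nat_lit 7261) (nat_lit 2) (.two (nat_lit 0) (nat_lit 1) (nat_lit 4740) (nat_lit 2) (.one (nat_lit 6500) (nat_lit 1) .nil)))))),
   .prs (.two (nat_lit 1113) (nat_lit 16) (nat_lit 1563) (nat_lit 2) (.two (nat_lit 34) (nat_lit 2) (nat_lit 5531) (nat_lit 16) (.two (nat_lit 0) (nat_lit 16) (nat_lit 4743) (nat_lit 2) (.one (nat_lit 5547) (nat_lit 2) .nil)))),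
   .der (nat_lit 29011) (nat_lit 646),
   .der (nat_lit 1395) (nat_lit 1565),
   .prs (.two (nat_lit 390) (nat_lit 16) (nat_lit 2008) (nat_lit 2) (.two (nat_lit 754) (nat_lit 1) (nat_lit 7264) (nat_lit 2) (.two (nat_lit 4) (nat_lit 2) (nat_lit 7265) (nat_lit 16) (.two (nat_lit 0) (nat_lit 2) (nat_lit 5543) (nat_lit 16) (.one (nat_lit 6503) (nat_lit 1) .nil))))),
   .der (nat_lit 18) (nat_lit 417),
   .der (nat_lit 1415) (nat_lit 1446),
   .der (nat_lit 33) (nat_lit 3609),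
   .der (nat_lit 161) (nat_lit 6522),
   .prs (.two (nat_lit 3097) (nat_lit 16) (nat_lit 2827) (nat_lit 8) (.two (nat_lit 38) (nat_lit 8) (nat_lit 7267) (nat_lit 16) (.two (nat_lit 384) (nat_lit 8) (nat_lit 7268) (nat_lit 16) (.two (nat_lit 3) (nat_lit 8) (nat_lit 7269) (nat_lit 16) (.two (nat_lit 0) (nat_lit 8) (nat_lit 4766) (nat_lit 16) (.one (nat_lit 7270) (nat_lit 16) .nil)))))),
   .der (nat_lit 2353) (nat_lit 77),
   .prs (.two (nat_lit 676) (nat_lit 16) (nat_lit 7272) (nat_lit 4) (.two (nat_lit 2066) (nat_lit 4) (nat_lit 3110) (nat_lit 16) (.two (nat_lit 0) (nat_lit 4) (nat_lit 6561) (nat_lit 16) (.one (nat_lit 5590) (nat_lit 16) .nil)))),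
   .der (nat_lit 98) (nat_lit 906),
   .der (nat_lit 137) (nat_lit 10),
   .der (nat_lit 1299) (nat_lit 3466),
   .prs (.two (nat_lit 858) (nat_lit 16) (nat_lit 4337) (nat_lit 1) (.two (nat_lit 7275) (nat_lit 4) (nat_lit 7274) (nat_lit 16) (.two (nat_lit 1) (nat_lit 4) (nat_lit 7276) (nat_lit 16) (.one (nat_lit 6569) (nat_lit 1) .nil)))),
   .der (nat_lit 24916) (nat_lit 182),
   .der (nat_lit 6) (nat_lit 2372),
   .der (nat_lit 5) (nat_lit 4357),
   .prs (.two (nat_lit 122) (nat_lit 4) (nat_lit 5393) (nat_lit 8) (.two (nat_lit 1259) (nat_lit 8) (nat_lit 7278) (nat_lit 4) (.two (nat_lit 206) (nat_lit 8) (nat_lit 5023) (nat_lit 4) (.two (nat_lit 1) (nat_lit 4) (nat_lit 7279) (nat_lit 16) (.one (nat_lit 7280) (nat_lit 16) .nil))))),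
   .der (nat_lit 371) (nat_lit 263),
   .der (nat_lit 117) (nat_lit 1088),
   .der (nat_lit 147) (nat_lit 3199),
   .prs (.two (nat_lit 676) (nat_lit 16) (nat_lit 7282) (nat_lit 8) (.two (nat_lit 528) (nat_lit 8) (nat_lit 5612) (nat_lit 16) (.two (nat_lit 2) (nat_lit 16) (nat_lit 7283) (nat_lit 8) (.two (nat_lit 1) (nat_lit 4) (nat_lit 7284) (nat_lit 1) (.one (nat_lit 5605) (nat_lit 8) .nil))))),
   .prs (.two (nat_lit 1095) (nat_lit 2) (nat_lit 6546) (nat_lit 1) (.two (nat_lit 667) (nat_lit 1) (nat_lit 6547) (nat_lit 2) (.two (nat_lit 1203) (nat_lit 1) (nat_lit 1309) (nat_lit 2) (.two (nat_lit 46) (nat_lit 1) (nat_lit 3758) (nat_lit 2) (.two (nat_lit 0) (nat_lit 1) (nat_lit 5606) (nat_lit 2) (.one (nat_lit 6575) (nat_lit 2) .nil)))))),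
   .der (nat_lit 371) (nat_lit 702),
   .der (nat_lit 2193) (nat_lit 1022),
   .der (nat_lit 24916) (nat_lit 2618),
   .prs (.two (nat_lit 717) (nat_lit 16) (nat_lit 5569) (nat_lit 2) (.two (nat_lit 1435) (nat_lit 2) (nat_lit 7287) (nat_lit 16) (.two (nat_lit 78) (nat_lit 1) (nat_lit 7288) (nat_lit 16) (.two (nat_lit 16) (nat_lit 4) (nat_lit 7289) (nat_lit 1) (.two (nat_lit 0) (nat_lit 2) (nat_lit 4789) (nat_lit 16) (.one (nat_lit 6576) (nat_lit 1) .nil)))))),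
   .prs (.two (nat_lit 1413) (nat_lit 8) (nat_lit 2893) (nat_lit 2) (.two (nat_lit 537) (nat_lit 2) (nat_lit 5573) (nat_lit 8) (.two (nat_lit 556) (nat_lit 4) (nat_lit 5574) (nat_lit 8) (.two (nat_lit 1) (nat_lit 4) (nat_lit 4764) (nat_lit 2) (.one (nat_lit 6524) (nat_lit 2) .nil))))),
   .der (nat_lit 20) (nat_lit 74),
   .der (nat_lit 3) (nat_lit 1176),
   .prs (.two (nat_lit 94) (nat_lit 16) (nat_lit 7292) (nat_lit 2) (.two (nat_lit 879) (nat_lit 4) (nat_lit 7293) (nat_lit 16) (.two (nat_lit 3) (nat_lit 4) (nat_lit 5567) (nat_lit 16) (.one (nat_lit 6579) (nat_lit 4) .nil)))),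
   .der (nat_lit 2390) (nat_lit 182),
   .der (nat_lit 10305) (nat_lit 1493),
   .der (nat_lit 1057) (nat_lit 5474),
   .prs (.two (nat_lit 32) (nat_lit 8) (nat_lit 7295) (nat_lit 4) (.two (nat_lit 5) (nat_lit 8) (nat_lit 7296) (nat_lit 4) (.two (nat_lit 3) (nat_lit 8) (nat_lit 3760) (nat_lit 4) (.two (nat_lit 0) (nat_lit 8) (nat_lit 4793) (nat_lit 4) (.one (nat_lit 7297) (nat_lit 4) .nil))))),
   .prs (.two (nat_lit 717) (nat_lit 16) (nat_lit 4762) (nat_lit 1) (.two (nat_lit 1333) (nat_lit 1) (nat_lit 3754) (nat_lit 2) (.two (nat_lit 1) (nat_lit 2) (nat_lit 4854) (nat_lit 16) (.two (nat_lit 0) (nat_lit 1) (nat_lit 4804) (nat_lit 2) (.one (nat_lit 6580) (nat_lit 2) .nil))))),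
   .der (nat_lit 35) (nat_lit 967),
   .prs (.two (nat_lit 13) (nat_lit 8) (nat_lit 5626) (nat_lit 2) (.two (nat_lit 2) (nat_lit 16) (nat_lit 7300) (nat_lit 8) (.two (nat_lit 1) (nat_lit 16) (nat_lit 4846) (nat_lit 8) (.two (nat_lit 0) (nat_lit 16) (nat_lit 4808) (nat_lit 8) (.one (nat_lit 6582) (nat_lit 8) .nil))))),
   .der (nat_lit 5971) (nat_lit 108),
   .der (nat_lit 30226) (nat_lit 1191),
   .der (nat_lit 5) (nat_lit 3780),
   .prs (.two (nat_lit 69) (nat_lit 8) (nat_lit 7302) (nat_lit 1) (.two (nat_lit 5) (nat_lit 1) (nat_lit 7303) (nat_lit 8) (.two (nat_lit 1) (nat_lit 2) (nat_lit 4784) (nat_lit 1) (.two (nat_lit 0) (nat_lit 2) (nat_lit 7304) (nat_lit 1) (.one (nat_lit 5624) (nat_lit 1) .nil))))),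
   .der (nat_lit 162) (nat_lit 87),
   .der (nat_lit 1430) (nat_lit 655),
   .prs (.two (nat_lit 423) (nat_lit 4) (nat_lit 7306) (nat_lit 8) (.two (nat_lit 32) (nat_lit 8) (nat_lit 7307) (nat_lit 1) (.two (nat_lit 6) (nat_lit 4) (nat_lit 5866) (nat_lit 8) (.two (nat_lit 11) (nat_lit 1) (nat_lit 4009) (nat_lit 4) (.two (nat_lit 0) (nat_lit 1) (nat_lit 5868) (nat_lit 4) (.one (nat_lit 6592) (nat_lit 1) .nil)))))),
   .der (nat_lit 5971) (nat_lit 1438),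
   .prs (.two (nat_lit 411) (nat_lit 1) (nat_lit 6824) (nat_lit 8) (.two (nat_lit 167) (nat_lit 1) (nat_lit 2567) (nat_lit 4) (.two (nat_lit 434) (nat_lit 1) (nat_lit 7309) (nat_lit 4) (.two (nat_lit 3) (nat_lit 4) (nat_lit 6586) (nat_lit 1) (.one (nat_lit 6594) (nat_lit 1) .nil))))),
   .der (nat_lit 1057) (nat_lit 881),
   .der (nat_lit 49) (nat_lit 3609),
   .prs (.two (nat_lit 411) (nat_lit 1) (nat_lit 6824) (nat_lit 8) (.two (nat_lit 6) (nat_lit 4) (nat_lit 7311) (nat_lit 8) (.two (nat_lit 434) (nat_lit 1) (nat_lit 7309) (nat_lit 4) (.two (nat_lit 3) (nat_lit 4) (nat_lit 7312) (nat_lit 1) (.two (nat_lit 0) (nat_lit 1) (nat_lit 4010) (nat_lit 4) (.one (nat_lit 6597) (nat_lit 8) .nil)))))),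
   .der (nat_lit 834) (nat_lit 131),
   .der (nat_lit 19) (nat_lit 1047),
   .der (nat_lit 18) (nat_lit 2210),
   .der (nat_lit 561) (nat_lit 4242),
   .prs (.two (nat_lit 3794) (nat_lit 16) (nat_lit 7314) (nat_lit 4) (.two (nat_lit 127) (nat_lit 16) (nat_lit 7315) (nat_lit 4) (.two (nat_lit 404) (nat_lit 1) (nat_lit 4091) (nat_lit 16) (.two (nat_lit 1) (nat_lit 4) (nat_lit 7316) (nat_lit 16) (.two (nat_lit 0) (nat_lit 1) (nat_lit 7317) (nat_lit 4) (.one (nat_lit 6604) (nat_lit 1) .nil)))))),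
   .der (nat_lit 87) (nat_lit 106),
   .der (nat_lit 84) (nat_lit 530),
   .der (nat_lit 612) (nat_lit 1073),
   .der (nat_lit 37425) (nat_lit 2201),
   .der (nat_lit 612) (nat_lit 6128),
   .prs (.two (nat_lit 423) (nat_lit 16) (nat_lit 7319) (nat_lit 1) (.two (nat_lit 858) (nat_lit 16) (nat_lit 7320) (nat_lit 1) (.two (nat_lit 1435) (nat_lit 4) (nat_lit 7321) (nat_lit 16) (.two (nat_lit 384) (nat_lit 1) (nat_lit 7322) (nat_lit 16) (.two (nat_lit 1) (nat_lit 4) (nat_lit 6612) (nat_lit 1) (.one (nat_lit 7323) (nat_lit 4) .nil)))))),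
   .der (nat_lit 2323) (nat_lit 39),
   .der (nat_lit 20) (nat_lit 1052),
   .der (nat_lit 2323) (nat_lit 1408),
   .der (nat_lit 22803) (nat_lit 4800),
   .prs (.two (nat_lit 4380) (nat_lit 16) (nat_lit 7325) (nat_lit 2) (.two (nat_lit 1095) (nat_lit 2) (nat_lit 4340) (nat_lit 16) (.two (nat_lit 1019) (nat_lit 1) (nat_lit 7326) (nat_lit 16) (.two (nat_lit 356) (nat_lit 1) (nat_lit 7327) (nat_lit 16) (.two (nat_lit 11) (nat_lit 1) (nat_lit 7328) (nat_lit 2) (.one (nat_lit 6608) (nat_lit 1) .nil)))))),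
   .der (nat_lit 4978) (nat_lit 74),
   .der (nat_lit 35) (nat_lit 1085),
   .der (nat_lit 98) (nat_lit 2320),
   .der (nat_lit 50) (nat_lit 4142),
   .prs (.two (nat_lit 2130) (nat_lit 16) (nat_lit 7330) (nat_lit 1) (.two (nat_lit 576) (nat_lit 1) (nat_lit 7331) (nat_lit 16) (.two (nat_lit 68) (nat_lit 1) (nat_lit 7332) (nat_lit 16) (.two (nat_lit 0) (nat_lit 1) (nat_lit 7333) (nat_lit 16) (.one (nat_lit 6613) (nat_lit 1) .nil))))),
   .der (nat_lit 115) (nat_lit 115),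
   .der (nat_lit 37425) (nat_lit 631),
   .der (nat_lit 2578) (nat_lit 1022),
   .der (nat_lit 6) (nat_lit 4111),
   .prs (.two (nat_lit 1530) (nat_lit 16) (nat_lit 7335) (nat_lit 4) (.two (nat_lit 105) (nat_lit 16) (nat_lit 7336) (nat_lit 4) (.two (nat_lit 397) (nat_lit 16) (nat_lit 7337) (nat_lit 4) (.two (nat_lit 17) (nat_lit 4) (nat_lit 6514) (nat_lit 16) (.two (nat_lit 16) (nat_lit 4) (nat_lit 7338) (nat_lit 16) (.one (nat_lit 6615) (nat_lit 1) .nil)))))),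
   .der (nat_lit 1890) (nat_lit 524),
   .der (nat_lit 35) (nat_lit 827),
   .der (nat_lit 35) (nat_lit 3223),
   .der (nat_lit 19) (nat_lit 4117),
   .prs (.two (nat_lit 423) (nat_lit 16) (nat_lit 4868) (nat_lit 4) (.two (nat_lit 676) (nat_lit 16) (nat_lit 7340) (nat_lit 4) (.two (nat_lit 528) (nat_lit 4) (nat_lit 7341) (nat_lit 16) (.two (nat_lit 144) (nat_lit 4) (nat_lit 6514) (nat_lit 16) (.two (nat_lit 1) (nat_lit 4) (nat_lit 7342) (nat_lit 16) (.two (nat_lit 0) (nat_lit 4) (nat_lit 7343) (nat_lit 16) (.one (nat_lit 6621) (nat_lit 16) .nil))))))),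
   .der (nat_lit 135) (nat_lit 263),
   .der (nat_lit 137) (nat_lit 3199),
   .prs (.two (nat_lit 32) (nat_lit 16) (nat_lit 7345) (nat_lit 1) (.two (nat_lit 12) (nat_lit 16) (nat_lit 1163) (nat_lit 1) (.two (nat_lit 7) (nat_lit 16) (nat_lit 5777) (nat_lit 1) (.two (nat_lit 1) (nat_lit 2) (nat_lit 4894) (nat_lit 16) (.two (nat_lit 0) (nat_lit 1) (nat_lit 7346) (nat_lit 2) (.one (nat_lit 6648) (nat_lit 16) .nil)))))),
   .der (nat_lit 118) (nat_lit 3556),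
   .der (nat_lit 2193) (nat_lit 4233),
   .prs (.two (nat_lit 3774) (nat_lit 4) (nat_lit 4887) (nat_lit 16) (.two (nat_lit 676) (nat_lit 16) (nat_lit 1429) (nat_lit 4) (.two (nat_lit 6) (nat_lit 4) (nat_lit 3983) (nat_lit 16) (.two (nat_lit 3) (nat_lit 4) (nat_lit 7348) (nat_lit 16) (.two (nat_lit 0) (nat_lit 1) (nat_lit 7349) (nat_lit 4) (.one (nat_lit 6631) (nat_lit 4) .nil)))))),
   .der (nat_lit 18) (nat_lit 62),
   .der (nat_lit 135) (nat_lit 864),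
   .der (nat_lit 129) (nat_lit 2220),
   .prs (.two (nat_lit 5639) (nat_lit 2) (nat_lit 7351) (nat_lit 16) (.two (nat_lit 717) (nat_lit 16) (nat_lit 7352) (nat_lit 2) (.two (nat_lit 1) (nat_lit 2) (nat_lit 7353) (nat_lit 16) (.two (nat_lit 0) (nat_lit 2) (nat_lit 5643) (nat_lit 16) (.one (nat_lit 6636) (nat_lit 2) .nil))))),
   .der (nat_lit 37425) (nat_lit 336),
   .der (nat_lit 86) (nat_lit 455),
   .der (nat_lit 1556) (nat_lit 939),
   .der (nat_lit 52) (nat_lit 2210),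
   .der (nat_lit 52) (nat_lit 4137),
   .prs (.two (nat_lit 33) (nat_lit 16) (nat_lit 7355) (nat_lit 2) (.two (nat_lit 440) (nat_lit 16) (nat_lit 7356) (nat_lit 2) (.two (nat_lit 456) (nat_lit 4) (nat_lit 7357) (nat_lit 16) (.two (nat_lit 434) (nat_lit 2) (nat_lit 2651) (nat_lit 16) (.two (nat_lit 16) (nat_lit 2) (nat_lit 7358) (nat_lit 4) (.two (nat_lit 0) (nat_lit 4) (nat_lit 7359) (nat_lit 16) (.one (nat_lit 6666) (nat_lit 4) .nil))))))),
   .der (nat_lit 115) (nat_lit 98),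
   .der (nat_lit 2135) (nat_lit 700),
   .der (nat_lit 19) (nat_lit 1073),
   .prs (.two (nat_lit 33) (nat_lit 16) (nat_lit 7361) (nat_lit 2) (.two (nat_lit 80) (nat_lit 16) (nat_lit 7362) (nat_lit 2) (.two (nat_lit 791) (nat_lit 2) (nat_lit 7363) (nat_lit 16) (.two (nat_lit 14) (nat_lit 1) (nat_lit 6669) (nat_lit 2) (.two (nat_lit 11) (nat_lit 1) (nat_lit 6670) (nat_lit 2) (.two (nat_lit 0) (nat_lit 1) (nat_lit 5662) (nat_lit 2) (.one (nat_lit 6671) (nat_lit 1) .nil))))))),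
   .der (nat_lit 34068) (nat_lit 77),
   .der (nat_lit 1) (nat_lit 495),
   .der (nat_lit 1) (nat_lit 3291),
   .prs (.two (nat_lit 32) (nat_lit 16) (nat_lit 7365) (nat_lit 8) (.two (nat_lit 397) (nat_lit 16) (nat_lit 7366) (nat_lit 4) (.two (nat_lit 173) (nat_lit 4) (nat_lit 848) (nat_lit 16) (.two (nat_lit 11) (nat_lit 8) (nat_lit 7367) (nat_lit 16) (.one (nat_lit 5692) (nat_lit 8) .nil))))),
   .der (nat_lit 1073) (nat_lit 544),
   .prs (.two (nat_lit 69) (nat_lit 1) (nat_lit 2988) (nat_lit 4) (.two (nat_lit 30) (nat_lit 1) (nat_lit 7369) (nat_lit 4) (.two (nat_lit 329) (nat_lit 16) (nat_lit 5679) (nat_lit 1) (.one (nat_lit 6681) (nat_lit 1) .nil)))),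
   .der (nat_lit 52) (nat_lit 220),
   .der (nat_lit 129) (nat_lit 187),
   .der (nat_lit 339) (nat_lit 1022),
   .der (nat_lit 16738) (nat_lit 2926),
   .prs (.two (nat_lit 35) (nat_lit 4) (nat_lit 7371) (nat_lit 8) (.two (nat_lit 509) (nat_lit 4) (nat_lit 7372) (nat_lit 2) (.two (nat_lit 12) (nat_lit 1) (nat_lit 7373) (nat_lit 8) (.two (nat_lit 99) (nat_lit 1) (nat_lit 7374) (nat_lit 2) (.two (nat_lit 1) (nat_lit 4) (nat_lit 4939) (nat_lit 1) (.two (nat_lit 0) (nat_lit 4) (nat_lit 5694) (nat_lit 1) (.one (nat_lit 6693) (nat_lit 1) .nil))))))),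
   .der (nat_lit 10) (nat_lit 845),
   .der (nat_lit 86) (nat_lit 1546),
   .prs (.two (nat_lit 105) (nat_lit 4) (nat_lit 2110) (nat_lit 8) (.two (nat_lit 6) (nat_lit 4) (nat_lit 7376) (nat_lit 8) (.two (nat_lit 11) (nat_lit 1) (nat_lit 7377) (nat_lit 4) (.two (nat_lit 0) (nat_lit 1) (nat_lit 3889) (nat_lit 4) (.one (nat_lit 6694) (nat_lit 4) .nil))))),
   .der (nat_lit 8) (nat_lit 1456),
   .der (nat_lit 52) (nat_lit 4103),
   .prs (.two (nat_lit 6287) (nat_lit 16) (nat_lit 3411) (nat_lit 8) (.two (nat_lit 462) (nat_lit 8) (nat_lit 6278) (nat_lit 16) (.two (nat_lit 206) (nat_lit 8) (nat_lit 7379) (nat_lit 16) (.two (nat_lit 1) (nat_lit 8) (nat_lit 7380) (nat_lit 16) .nil)))),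
   .der (nat_lit 52) (nat_lit 166),
   .der (nat_lit 34068) (nat_lit 2913),
   .prs (.two (nat_lit 390) (nat_lit 2) (nat_lit 7382) (nat_lit 8) (.two (nat_lit 227) (nat_lit 2) (nat_lit 3884) (nat_lit 8) (.two (nat_lit 1) (nat_lit 2) (nat_lit 7383) (nat_lit 4) (.two (nat_lit 0) (nat_lit 2) (nat_lit 4943) (nat_lit 4) (.one (nat_lit 6697) (nat_lit 8) .nil))))),
   .der (nat_lit 135) (nat_lit 544),
   .prs (.two (nat_lit 13) (nat_lit 8) (nat_lit 7385) (nat_lit 2) (.two (nat_lit 2) (nat_lit 16) (nat_lit 6703) (nat_lit 2) (.two (nat_lit 0) (nat_lit 16) (nat_lit 4808) (nat_lit 8) (.one (nat_lit 6711) (nat_lit 8) .nil)))),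
   .der (nat_lit 2593) (nat_lit 2483),
   .prs (.two (nat_lit 440) (nat_lit 16) (nat_lit 858) (nat_lit 1) (.two (nat_lit 723) (nat_lit 1) (nat_lit 5688) (nat_lit 16) (.two (nat_lit 356) (nat_lit 16) (nat_lit 7387) (nat_lit 1) (.one (nat_lit 5739) (nat_lit 1) .nil)))),
   .der (nat_lit 1430) (nat_lit 4811),
   .der (nat_lit 132) (nat_lit 6738),
   .prs (.two (nat_lit 520) (nat_lit 16) (nat_lit 1471) (nat_lit 4) (.two (nat_lit 42) (nat_lit 16) (nat_lit 6017) (nat_lit 4) (.two (nat_lit 1) (nat_lit 16) (nat_lit 7389) (nat_lit 4) (.one (nat_lit 7390) (nat_lit 16) .nil)))),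
   .der (nat_lit 371) (nat_lit 417),
   .der (nat_lit 340) (nat_lit 1431),
   .der (nat_lit 340) (nat_lit 2229),
   .der (nat_lit 1380) (nat_lit 4170),
   .prs (.two (nat_lit 3191) (nat_lit 4) (nat_lit 5767) (nat_lit 1) (.two (nat_lit 522) (nat_lit 4) (nat_lit 7392) (nat_lit 1) (.two (nat_lit 482) (nat_lit 4) (nat_lit 7393) (nat_lit 1) (.two (nat_lit 3) (nat_lit 4) (nat_lit 7394) (nat_lit 1) (.two (nat_lit 0) (nat_lit 4) (nat_lit 7395) (nat_lit 1) (.one (nat_lit 6754) (nat_lit 1) .nil)))))),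
   .der (nat_lit 1653) (nat_lit 1597),
   .der (nat_lit 13345) (nat_lit 2528),
   .prs (.two (nat_lit 440) (nat_lit 16) (nat_lit 5762) (nat_lit 8) (.two (nat_lit 75) (nat_lit 16) (nat_lit 7397) (nat_lit 8) (.two (nat_lit 1) (nat_lit 16) (nat_lit 7398) (nat_lit 8) (.two (nat_lit 0) (nat_lit 16) (nat_lit 4975) (nat_lit 8) (.one (nat_lit 6772) (nat_lit 8) .nil))))),
   .der (nat_lit 1890) (nat_lit 72),
   .der (nat_lit 2) (nat_lit 4598),
   .prs (.two (nat_lit 86) (nat_lit 16) (nat_lit 7400) (nat_lit 2) (.two (nat_lit 1459) (nat_lit 2) (nat_lit 2219) (nat_lit 16) (.two (nat_lit 1) (nat_lit 2) (nat_lit 7401) (nat_lit 16) (.one (nat_lit 6775) (nat_lit 4) .nil)))),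
   .der (nat_lit 801) (nat_lit 1747),
   .der (nat_lit 5) (nat_lit 5750),
   .prs (.two (nat_lit 80) (nat_lit 8) (nat_lit 1077) (nat_lit 16) (.two (nat_lit 202) (nat_lit 8) (nat_lit 7403) (nat_lit 16) (.two (nat_lit 1) (nat_lit 16) (nat_lit 7398) (nat_lit 8) (.two (nat_lit 0) (nat_lit 1) (nat_lit 5535) (nat_lit 16) (.one (nat_lit 7404) (nat_lit 1) .nil))))),
   .der (nat_lit 1074) (nat_lit 95),
   .der (nat_lit 36) (nat_lit 927),
   .der (nat_lit 1620) (nat_lit 1539),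
   .prs (.two (nat_lit 717) (nat_lit 16) (nat_lit 7406) (nat_lit 4) (.two (nat_lit 6) (nat_lit 16) (nat_lit 7407) (nat_lit 4) (.two (nat_lit 1) (nat_lit 16) (nat_lit 7408) (nat_lit 4) (.two (nat_lit 0) (nat_lit 2) (nat_lit 4981) (nat_lit 4) (.one (nat_lit 6776) (nat_lit 4) .nil))))),
   .der (nat_lit 117) (nat_lit 472),
   .der (nat_lit 129) (nat_lit 1065),
   .der (nat_lit 4978) (nat_lit 2249),
   .prs (.two (nat_lit 440) (nat_lit 8) (nat_lit 7410) (nat_lit 16) (.two (nat_lit 4) (nat_lit 8) (nat_lit 7411) (nat_lit 16) (.two (nat_lit 3) (nat_lit 16) (nat_lit 7412) (nat_lit 1) (.one (nat_lit 5766) (nat_lit 1) .nil)))),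
   .der (nat_lit 35) (nat_lit 230),
   .der (nat_lit 852) (nat_lit 1248),
   .der (nat_lit 1122) (nat_lit 8),
   .der (nat_lit 29011) (nat_lit 3344),
   .prs (.two (nat_lit 155) (nat_lit 16) (nat_lit 7414) (nat_lit 1) (.two (nat_lit 7416) (nat_lit 1) (nat_lit 7415) (nat_lit 16) (.two (nat_lit 3) (nat_lit 1) (nat_lit 7417) (nat_lit 16) (.one (nat_lit 6787) (nat_lit 16) .nil)))),
   .der (nat_lit 1653) (nat_lit 3267),
   .prs (.two (nat_lit 440) (nat_lit 8) (nat_lit 3602) (nat_lit 16) (.two (nat_lit 227) (nat_lit 16) (nat_lit 4046) (nat_lit 8) (.two (nat_lit 11) (nat_lit 16) (nat_lit 7419) (nat_lit 8) (.one (nat_lit 5779) (nat_lit 8) .nil)))),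
   .der (nat_lit 354) (nat_lit 796),
   .der (nat_lit 1380) (nat_lit 4770),
   .prs (.two (nat_lit 13) (nat_lit 8) (nat_lit 7421) (nat_lit 2) (.two (nat_lit 2) (nat_lit 8) (nat_lit 5008) (nat_lit 2) (.two (nat_lit 1) (nat_lit 8) (nat_lit 6762) (nat_lit 2) (.two (nat_lit 0) (nat_lit 8) (nat_lit 7422) (nat_lit 2) (.one (nat_lit 6791) (nat_lit 8) .nil))))),
   .der (nat_lit 4) (nat_lit 98),
   .der (nat_lit 561) (nat_lit 177),
   .der (nat_lit 2135) (nat_lit 3592),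
   .der (nat_lit 1073) (nat_lit 4649),
   .der (nat_lit 3) (nat_lit 6775),
   .prs (.two (nat_lit 109) (nat_lit 1) (nat_lit 7424) (nat_lit 2) (.two (nat_lit 667) (nat_lit 2) (nat_lit 7425) (nat_lit 1) (.two (nat_lit 710) (nat_lit 1) (nat_lit 2132) (nat_lit 2) (.two (nat_lit 46) (nat_lit 1) (nat_lit 7426) (nat_lit 2) (.two (nat_lit 0) (nat_lit 2) (nat_lit 7427) (nat_lit 1) (.one (nat_lit 7428) (nat_lit 1) .nil)))))),
   .der (nat_lit 35) (nat_lit 715),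
   .der (nat_lit 371) (nat_lit 435),
   .der (nat_lit 152) (nat_lit 10),
   .der (nat_lit 1057) (nat_lit 930),
   .der (nat_lit 659) (nat_lit 2353),
   .prs (.two (nat_lit 2845) (nat_lit 8) (nat_lit 7430) (nat_lit 1) (.two (nat_lit 7432) (nat_lit 2) (nat_lit 7431) (nat_lit 8) (.two (nat_lit 78) (nat_lit 1) (nat_lit 7433) (nat_lit 8) (.two (nat_lit 3) (nat_lit 1) (nat_lit 7434) (nat_lit 2) (.one (nat_lit 6798) (nat_lit 1) .nil))))),
   .der (nat_lit 33345) (nat_lit 467),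
   .prs (.two (nat_lit 440) (nat_lit 8) (nat_lit 7436) (nat_lit 16) (.two (nat_lit 1) (nat_lit 8) (nat_lit 6782) (nat_lit 16) (.two (nat_lit 0) (nat_lit 8) (nat_lit 5002) (nat_lit 4) (.one (nat_lit 6801) (nat_lit 4) .nil)))),
   .der (nat_lit 18) (nat_lit 3999),
   .prs (.two (nat_lit 423) (nat_lit 16) (nat_lit 425) (nat_lit 4) (.two (nat_lit 427) (nat_lit 16) (nat_lit 7007) (nat_lit 4) (.two (nat_lit 1) (nat_lit 16) (nat_lit 7438) (nat_lit 2) (.two (nat_lit 0) (nat_lit 2) (nat_lit 3981) (nat_lit 16) (.one (nat_lit 5800) (nat_lit 2) .nil))))),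
   .der (nat_lit 339) (nat_lit 5800),
   .prs (.two (nat_lit 6326) (nat_lit 2) (nat_lit 1411) (nat_lit 16) (.two (nat_lit 543) (nat_lit 2) (nat_lit 6624) (nat_lit 16) (.two (nat_lit 434) (nat_lit 16) (nat_lit 5893) (nat_lit 2) (.two (nat_lit 1) (nat_lit 2) (nat_lit 3116) (nat_lit 16) (.two (nat_lit 0) (nat_lit 1) (nat_lit 7440) (nat_lit 2) .nil))))),
   .der (nat_lit 101) (nat_lit 3112),
   .der (nat_lit 35) (nat_lit 3985),
   .prs (.two (nat_lit 5386) (nat_lit 16) (nat_lit 6093) (nat_lit 4) (.two (nat_lit 794) (nat_lit 16) (nat_lit 4798) (nat_lit 4) (.two (nat_lit 2) (nat_lit 4) (nat_lit 7442) (nat_lit 16) (.two (nat_lit 0) (nat_lit 4) (nat_lit 7443) (nat_lit 16) (.one (nat_lit 5827) (nat_lit 4) .nil))))),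
   .der (nat_lit 2135) (nat_lit 3118),
   .der (nat_lit 161) (nat_lit 6810),
   .prs (.two (nat_lit 3097) (nat_lit 2) (nat_lit 6380) (nat_lit 8) (.two (nat_lit 6) (nat_lit 4) (nat_lit 5028) (nat_lit 8) (.two (nat_lit 463) (nat_lit 4) (nat_lit 7445) (nat_lit 2) (.two (nat_lit 1) (nat_lit 2) (nat_lit 5029) (nat_lit 1) (.two (nat_lit 0) (nat_lit 1) (nat_lit 5828) (nat_lit 2) (.one (nat_lit 7446) (nat_lit 1) .nil)))))),
   .der (nat_lit 561) (nat_lit 2180),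
   .der (nat_lit 2) (nat_lit 5800),
   .prs (.two (nat_lit 423) (nat_lit 16) (nat_lit 5023) (nat_lit 4) (.two (nat_lit 543) (nat_lit 4) (nat_lit 7448) (nat_lit 16) (.two (nat_lit 1) (nat_lit 4) (nat_lit 3981) (nat_lit 16) (.one (nat_lit 7449) (nat_lit 4) .nil)))),
   .der (nat_lit 137) (nat_lit 37),
   .der (nat_lit 152) (nat_lit 1377),
   .prs (.two (nat_lit 7451) (nat_lit 4) (nat_lit 82) (nat_lit 8) (.two (nat_lit 676) (nat_lit 8) (nat_lit 7452) (nat_lit 4) (.two (nat_lit 1068) (nat_lit 1) (nat_lit 3124) (nat_lit 4) (.two (nat_lit 1) (nat_lit 8) (nat_lit 4005) (nat_lit 1) (.two (nat_lit 0) (nat_lit 4) (nat_lit 5832) (nat_lit 8) (.one (nat_lit 6823) (nat_lit 1) .nil)))))),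
   .der (nat_lit 1299) (nat_lit 1381),
   .der (nat_lit 8) (nat_lit 5827),
   .prs (.two (nat_lit 423) (nat_lit 16) (nat_lit 3675) (nat_lit 4) (.two (nat_lit 1413) (nat_lit 4) (nat_lit 7454) (nat_lit 16) (.two (nat_lit 2) (nat_lit 4) (nat_lit 3109) (nat_lit 16) (.two (nat_lit 0) (nat_lit 4) (nat_lit 5033) (nat_lit 16) (.one (nat_lit 7455) (nat_lit 4) .nil))))),
   .der (nat_lit 132) (nat_lit 861),
   .der (nat_lit 86) (nat_lit 2180),
   .der (nat_lit 1) (nat_lit 3122),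
   .der (nat_lit 2339) (nat_lit 6817),
   .prs (.two (nat_lit 2217) (nat_lit 16) (nat_lit 177) (nat_lit 2) (.two (nat_lit 858) (nat_lit 16) (nat_lit 7457) (nat_lit 1) (.two (nat_lit 78) (nat_lit 1) (nat_lit 7458) (nat_lit 16) (.two (nat_lit 1) (nat_lit 2) (nat_lit 7459) (nat_lit 16) (.two (nat_lit 0) (nat_lit 1) (nat_lit 5837) (nat_lit 2) (.one (nat_lit 7460) (nat_lit 2) .nil)))))),
   .der (nat_lit 833) (nat_lit 67),
   .der (nat_lit 2593) (nat_lit 837),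
   .prs (.two (nat_lit 7462) (nat_lit 8) (nat_lit 1531) (nat_lit 4) (.two (nat_lit 520) (nat_lit 4) (nat_lit 7463) (nat_lit 8) (.two (nat_lit 2073) (nat_lit 8) (nat_lit 2371) (nat_lit 4) (.two (nat_lit 2) (nat_lit 4) (nat_lit 3126) (nat_lit 8) (.two (nat_lit 1) (nat_lit 2) (nat_lit 4010) (nat_lit 4) (.two (nat_lit 0) (nat_lit 2) (nat_lit 5840) (nat_lit 4) (.one (nat_lit 6828) (nat_lit 2) .nil))))))),
   .der (nat_lit 5) (nat_lit 3122),
   .prs (.two (nat_lit 1502) (nat_lit 1) (nat_lit 1410) (nat_lit 8) (.two (nat_lit 509) (nat_lit 4) (nat_lit 3226) (nat_lit 1) (.two (nat_lit 111) (nat_lit 1) (nat_lit 4091) (nat_lit 2) (.two (nat_lit 7) (nat_lit 8) (nat_lit 3127) (nat_lit 2) (.two (nat_lit 46) (nat_lit 1) (nat_lit 7465) (nat_lit 2) (.two (nat_lit 0) (nat_lit 2) (nat_lit 5843) (nat_lit 1) (.one (nat_lit 5845) (nat_lit 2) .nil))))))),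
   .der (nat_lit 26386) (nat_lit 417),
   .der (nat_lit 1299) (nat_lit 4010),
   .prs (.two (nat_lit 33) (nat_lit 8) (nat_lit 7467) (nat_lit 2) (.two (nat_lit 53) (nat_lit 4) (nat_lit 3115) (nat_lit 2) (.two (nat_lit 2) (nat_lit 8) (nat_lit 3132) (nat_lit 2) (.two (nat_lit 1) (nat_lit 8) (nat_lit 7468) (nat_lit 2) (.two (nat_lit 0) (nat_lit 2) (nat_lit 5848) (nat_lit 8) (.one (nat_lit 6830) (nat_lit 2) .nil)))))),
   .der (nat_lit 1650) (nat_lit 19),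
   .der (nat_lit 1) (nat_lit 5033),
   .prs (.two (nat_lit 415) (nat_lit 16) (nat_lit 3932) (nat_lit 1) (.two (nat_lit 7470) (nat_lit 1) (nat_lit 2181) (nat_lit 16) (.two (nat_lit 590) (nat_lit 1) (nat_lit 2179) (nat_lit 16) (.two (nat_lit 224) (nat_lit 1) (nat_lit 2192) (nat_lit 16) (.two (nat_lit 11) (nat_lit 1) (nat_lit 6059) (nat_lit 16) (.two (nat_lit 0) (nat_lit 1) (nat_lit 7471) (nat_lit 16) (.one (nat_lit 6832) (nat_lit 1) .nil))))))),
   .der (nat_lit 1300) (nat_lit 824),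
   .prs (.two (nat_lit 33) (nat_lit 8) (nat_lit 3278) (nat_lit 4) (.two (nat_lit 13) (nat_lit 8) (nat_lit 7473) (nat_lit 4) (.two (nat_lit 456) (nat_lit 8) (nat_lit 7452) (nat_lit 4) (.two (nat_lit 434) (nat_lit 2) (nat_lit 6371) (nat_lit 8) (.two (nat_lit 1) (nat_lit 4) (nat_lit 5035) (nat_lit 2) (.two (nat_lit 0) (nat_lit 2) (nat_lit 5850) (nat_lit 4) (.one (nat_lit 6836) (nat_lit 2) .nil))))))),
   .der (nat_lit 98) (nat_lit 508),
   .der (nat_lit 2) (nat_lit 904),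
   .der (nat_lit 1122) (nat_lit 2197),
   .prs (.two (nat_lit 2115) (nat_lit 16) (nat_lit 7475) (nat_lit 8) (.two (nat_lit 390) (nat_lit 16) (nat_lit 7476) (nat_lit 8) (.two (nat_lit 404) (nat_lit 8) (nat_lit 7477) (nat_lit 16) (.two (nat_lit 7) (nat_lit 8) (nat_lit 5888) (nat_lit 4) (.two (nat_lit 1) (nat_lit 4) (nat_lit 6844) (nat_lit 8) (.two (nat_lit 0) (nat_lit 4) (nat_lit 5890) (nat_lit 8) (.one (nat_lit 6845) (nat_lit 4) .nil))))))),
   .der (nat_lit 6) (nat_lit 2205),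
   .der (nat_lit 2353) (nat_lit 4005),
   .prs (.two (nat_lit 3097) (nat_lit 16) (nat_lit 1665) (nat_lit 8) (.two (nat_lit 490) (nat_lit 8) (nat_lit 2304) (nat_lit 16) (.two (nat_lit 1459) (nat_lit 8) (nat_lit 4091) (nat_lit 16) (.two (nat_lit 34) (nat_lit 8) (nat_lit 7479) (nat_lit 16) (.two (nat_lit 1) (nat_lit 8) (nat_lit 7480) (nat_lit 4) (.two (nat_lit 0) (nat_lit 4) (nat_lit 5894) (nat_lit 8) (.one (nat_lit 6848) (nat_lit 8) .nil))))))),
   .der (nat_lit 9) (nat_lit 421),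
   .der (nat_lit 9) (nat_lit 864),
   .der (nat_lit 7) (nat_lit 4106),
   .prs (.two (nat_lit 6849) (nat_lit 16) (nat_lit 7482) (nat_lit 4) (.two (nat_lit 42) (nat_lit 16) (nat_lit 7483) (nat_lit 4) (.two (nat_lit 2) (nat_lit 4) (nat_lit 2320) (nat_lit 16) (.two (nat_lit 3) (nat_lit 4) (nat_lit 7484) (nat_lit 16) (.two (nat_lit 0) (nat_lit 4) (nat_lit 5926) (nat_lit 16) (.one (nat_lit 6885) (nat_lit 4) .nil)))))),
   .der (nat_lit 339) (nat_lit 906),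
   .der (nat_lit 1890) (nat_lit 1406),
   .der (nat_lit 33) (nat_lit 2171),
   .der (nat_lit 5218) (nat_lit 4002),
   .prs (.two (nat_lit 1020) (nat_lit 8) (nat_lit 1404) (nat_lit 16) (.two (nat_lit 522) (nat_lit 8) (nat_lit 7486) (nat_lit 16) (.two (nat_lit 1459) (nat_lit 16) (nat_lit 7487) (nat_lit 2) (.two (nat_lit 5) (nat_lit 8) (nat_lit 7488) (nat_lit 16) (.two (nat_lit 11) (nat_lit 8) (nat_lit 7489) (nat_lit 2) (.two (nat_lit 0) (nat_lit 2) (nat_lit 5928) (nat_lit 8) (.one (nat_lit 6860) (nat_lit 2) .nil))))))),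
   .der (nat_lit 9572) (nat_lit 414),
   .der (nat_lit 10) (nat_lit 2205),
   .der (nat_lit 8) (nat_lit 3996),
   .prs (.two (nat_lit 2469) (nat_lit 8) (nat_lit 7491) (nat_lit 4) (.two (nat_lit 676) (nat_lit 8) (nat_lit 6328) (nat_lit 4) (.two (nat_lit 65) (nat_lit 2) (nat_lit 7492) (nat_lit 8) (.two (nat_lit 3) (nat_lit 4) (nat_lit 7493) (nat_lit 1) (.two (nat_lit 0) (nat_lit 1) (nat_lit 5932) (nat_lit 2) (.one (nat_lit 6888) (nat_lit 2) .nil)))))),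
   .der (nat_lit 129) (nat_lit 177),
   .der (nat_lit 627) (nat_lit 906),
   .der (nat_lit 2193) (nat_lit 3144),
   .der (nat_lit 1554) (nat_lit 5827),
   .prs (.two (nat_lit 415) (nat_lit 16) (nat_lit 7495) (nat_lit 1) (.two (nat_lit 717) (nat_lit 16) (nat_lit 7496) (nat_lit 2) (.two (nat_lit 65) (nat_lit 2) (nat_lit 5909) (nat_lit 16) (.two (nat_lit 1) (nat_lit 2) (nat_lit 7497) (nat_lit 16) (.two (nat_lit 0) (nat_lit 1) (nat_lit 7498) (nat_lit 2) .nil)))))]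

theorem b5_step14 (h : ∀ j < 7000, Good b5T j) : ∀ j < 7500, Good b5T j := by
  intro j hj
  refine chkL_ok b5C14 7000 h (by decide +kernel) j ?_
  have h : b5C14.length = 500 := by decide +kernel
  omega

/-- certificates 7500..8000 -/
def b5C15 : List Cf :=
  [.der (nat_lit 12658) (nat_lit 1453),
   .der (nat_lit 356) (nat_lit 2188),
   .der (nat_lit 129) (nat_lit 4055),
   .der (nat_lit 1554) (nat_lit 5046),
   .der (nat_lit 129) (nat_lit 5801),
   .prs (.two (nat_lit 35) (nat_lit 4) (nat_lit 5434) (nat_lit 8) (.two (nat_lit 13) (nat_lit 4) (nat_lit 7500) (nat_lit 8) (.two (nat_lit 170) (nat_lit 4) (nat_lit 7501) (nat_lit 1) (.two (nat_lit 1) (nat_lit 2) (nat_lit 7502) (nat_lit 1) (.two (nat_lit 0) (nat_lit 1) (nat_lit 7503) (nat_lit 4) (.one (nat_lit 7504) (nat_lit 2) .nil)))))),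
   .der (nat_lit 34068) (nat_lit 169),
   .der (nat_lit 2135) (nat_lit 876),
   .der (nat_lit 882) (nat_lit 2188),
   .der (nat_lit 118) (nat_lit 4010),
   .der (nat_lit 2390) (nat_lit 5815),
   .prs (.two (nat_lit 2484) (nat_lit 8) (nat_lit 7506) (nat_lit 2) (.two (nat_lit 97) (nat_lit 16) (nat_lit 7507) (nat_lit 2) (.two (nat_lit 427) (nat_lit 2) (nat_lit 2179) (nat_lit 16) (.two (nat_lit 325) (nat_lit 16) (nat_lit 7508) (nat_lit 8) (.two (nat_lit 46) (nat_lit 1) (nat_lit 7509) (nat_lit 2) (.two (nat_lit 0) (nat_lit 1) (nat_lit 7510) (nat_lit 8) (.one (nat_lit 6895) (nat_lit 1) .nil))))))),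
   .der (nat_lit 2390) (nat_lit 545),
   .der (nat_lit 129) (nat_lit 837),
   .der (nat_lit 1057) (nat_lit 4002),
   .prs (.two (nat_lit 423) (nat_lit 16) (nat_lit 7512) (nat_lit 4) (.two (nat_lit 1848) (nat_lit 4) (nat_lit 7513) (nat_lit 16) (.two (nat_lit 489) (nat_lit 4) (nat_lit 2171) (nat_lit 16) (.two (nat_lit 16) (nat_lit 4) (nat_lit 7514) (nat_lit 1) (.two (nat_lit 0) (nat_lit 1) (nat_lit 5935) (nat_lit 4) (.one (nat_lit 6900) (nat_lit 16) .nil)))))),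
   .der (nat_lit 1) (nat_lit 861),
   .der (nat_lit 1122) (nat_lit 3144),
   .prs (.two (nat_lit 2793) (nat_lit 8) (nat_lit 1410) (nat_lit 16) (.two (nat_lit 576) (nat_lit 8) (nat_lit 1030) (nat_lit 16) (.two (nat_lit 590) (nat_lit 8) (nat_lit 7516) (nat_lit 16) (.two (nat_lit 224) (nat_lit 8) (nat_lit 3228) (nat_lit 16) (.two (nat_lit 11) (nat_lit 8) (nat_lit 7517) (nat_lit 16) (.two (nat_lit 0) (nat_lit 1) (nat_lit 5912) (nat_lit 8) (.one (nat_lit 6903) (nat_lit 8) .nil))))))),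
   .der (nat_lit 34068) (nat_lit 930),
   .prs (.two (nat_lit 423) (nat_lit 16) (nat_lit 3775) (nat_lit 4) (.two (nat_lit 86) (nat_lit 16) (nat_lit 7519) (nat_lit 4) (.two (nat_lit 42) (nat_lit 4) (nat_lit 2171) (nat_lit 16) (.two (nat_lit 1) (nat_lit 4) (nat_lit 6862) (nat_lit 16) (.two (nat_lit 0) (nat_lit 4) (nat_lit 5939) (nat_lit 16) (.one (nat_lit 6879) (nat_lit 4) .nil)))))),
   .der (nat_lit 36) (nat_lit 76),
   .prs (.two (nat_lit 7521) (nat_lit 4) (nat_lit 1460) (nat_lit 16) (.two (nat_lit 490) (nat_lit 4) (nat_lit 4124) (nat_lit 16) (.two (nat_lit 1435) (nat_lit 4) (nat_lit 5278) (nat_lit 16) (.two (nat_lit 384) (nat_lit 1) (nat_lit 6864) (nat_lit 16) (.two (nat_lit 46) (nat_lit 4) (nat_lit 5099) (nat_lit 16) (.two (nat_lit 0) (nat_lit 4) (nat_lit 5942) (nat_lit 16) (.one (nat_lit 6906) (nat_lit 4) .nil))))))),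
   .der (nat_lit 20) (nat_lit 172),
   .der (nat_lit 101) (nat_lit 35),
   .der (nat_lit 20) (nat_lit 864),
   .der (nat_lit 5) (nat_lit 2180),
   .der (nat_lit 561) (nat_lit 3138),
   .prs (.two (nat_lit 7524) (nat_lit 16) (nat_lit 7523) (nat_lit 2) (.two (nat_lit 390) (nat_lit 16) (nat_lit 7525) (nat_lit 2) (.two (nat_lit 34) (nat_lit 2) (nat_lit 7526) (nat_lit 16) (.two (nat_lit 1) (nat_lit 2) (nat_lit 7527) (nat_lit 16) (.two (nat_lit 0) (nat_lit 2) (nat_lit 5947) (nat_lit 16) (.one (nat_lit 6912) (nat_lit 16) .nil)))))),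
   .der (nat_lit 35) (nat_lit 904),
   .der (nat_lit 84) (nat_lit 1428),
   .der (nat_lit 20) (nat_lit 2186),
   .der (nat_lit 10545) (nat_lit 3999),
   .der (nat_lit 132) (nat_lit 5928),
   .prs (.two (nat_lit 3259) (nat_lit 1) (nat_lit 5697) (nat_lit 4) (.two (nat_lit 676) (nat_lit 4) (nat_lit 7529) (nat_lit 1) (.two (nat_lit 1459) (nat_lit 8) (nat_lit 7530) (nat_lit 1) (.two (nat_lit 623) (nat_lit 4) (nat_lit 7531) (nat_lit 1) (.two (nat_lit 11) (nat_lit 8) (nat_lit 7532) (nat_lit 4) (.two (nat_lit 0) (nat_lit 8) (nat_lit 7533) (nat_lit 4) (.one (nat_lit 6917) (nat_lit 1) .nil))))))),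
   .der (nat_lit 834) (nat_lit 1448),
   .der (nat_lit 49) (nat_lit 2210),
   .der (nat_lit 18) (nat_lit 5840),
   .prs (.two (nat_lit 2469) (nat_lit 4) (nat_lit 5870) (nat_lit 8) (.two (nat_lit 520) (nat_lit 4) (nat_lit 6873) (nat_lit 8) (.two (nat_lit 427) (nat_lit 4) (nat_lit 7535) (nat_lit 8) (.two (nat_lit 206) (nat_lit 8) (nat_lit 7536) (nat_lit 4) (.two (nat_lit 1) (nat_lit 2) (nat_lit 6921) (nat_lit 8) (.two (nat_lit 0) (nat_lit 4) (nat_lit 7537) (nat_lit 2) (.one (nat_lit 6922) (nat_lit 2) .nil))))))),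
   .der (nat_lit 1107) (nat_lit 1516),
   .der (nat_lit 18) (nat_lit 3223),
   .der (nat_lit 101) (nat_lit 4111),
   .prs (.two (nat_lit 2829) (nat_lit 8) (nat_lit 82) (nat_lit 16) (.two (nat_lit 520) (nat_lit 16) (nat_lit 7539) (nat_lit 8) (.two (nat_lit 1145) (nat_lit 1) (nat_lit 6126) (nat_lit 8) (.two (nat_lit 202) (nat_lit 8) (nat_lit 7540) (nat_lit 16) (.two (nat_lit 3) (nat_lit 8) (nat_lit 7541) (nat_lit 16) (.two (nat_lit 0) (nat_lit 1) (nat_lit 5949) (nat_lit 8) (.one (nat_lit 5953) (nat_lit 1) .nil))))))),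
   .der (nat_lit 7) (nat_lit 873),
   .der (nat_lit 30226) (nat_lit 2201),
   .prs (.two (nat_lit 4380) (nat_lit 16) (nat_lit 1563) (nat_lit 2) (.two (nat_lit 94) (nat_lit 16) (nat_lit 7543) (nat_lit 2) (.two (nat_lit 808) (nat_lit 2) (nat_lit 7544) (nat_lit 16) (.two (nat_lit 34) (nat_lit 2) (nat_lit 3223) (nat_lit 16) (.two (nat_lit 1) (nat_lit 2) (nat_lit 4117) (nat_lit 16) (.two (nat_lit 0) (nat_lit 2) (nat_lit 5954) (nat_lit 16) (.one (nat_lit 6865) (nat_lit 2) .nil))))))),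
   .der (nat_lit 49) (nat_lit 220),
   .der (nat_lit 33345) (nat_lit 1415),
   .prs (.two (nat_lit 3774) (nat_lit 4) (nat_lit 7546) (nat_lit 2) (.two (nat_lit 105) (nat_lit 8) (nat_lit 7473) (nat_lit 4) (.two (nat_lit 556) (nat_lit 8) (nat_lit 7547) (nat_lit 2) (.two (nat_lit 1) (nat_lit 4) (nat_lit 4139) (nat_lit 8) (.two (nat_lit 0) (nat_lit 8) (nat_lit 6000) (nat_lit 4) (.one (nat_lit 6002) (nat_lit 8) .nil)))))),
   .der (nat_lit 115) (nat_lit 35),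
   .der (nat_lit 1380) (nat_lit 1018),
   .der (nat_lit 18) (nat_lit 3109),
   .der (nat_lit 50) (nat_lit 5033),
   .prs (.two (nat_lit 7549) (nat_lit 2) (nat_lit 4340) (nat_lit 16) (.two (nat_lit 127) (nat_lit 16) (nat_lit 7550) (nat_lit 2) (.two (nat_lit 1259) (nat_lit 2) (nat_lit 6973) (nat_lit 16) (.two (nat_lit 623) (nat_lit 2) (nat_lit 7551) (nat_lit 16) (.two (nat_lit 0) (nat_lit 2) (nat_lit 7552) (nat_lit 16) (.one (nat_lit 6944) (nat_lit 16) .nil)))))),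
   .der (nat_lit 132) (nat_lit 399),
   .der (nat_lit 1620) (nat_lit 1562),
   .der (nat_lit 24916) (nat_lit 2320),
   .der (nat_lit 834) (nat_lit 4020),
   .prs (.two (nat_lit 1827) (nat_lit 8) (nat_lit 7554) (nat_lit 1) (.two (nat_lit 576) (nat_lit 8) (nat_lit 7555) (nat_lit 1) (.two (nat_lit 248) (nat_lit 1) (nat_lit 7556) (nat_lit 8) (.two (nat_lit 3) (nat_lit 1) (nat_lit 7557) (nat_lit 8) (.two (nat_lit 0) (nat_lit 8) (nat_lit 6015) (nat_lit 1) (.one (nat_lit 6951) (nat_lit 8) .nil)))))),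
   .der (nat_lit 98) (nat_lit 3985),
   .prs (.two (nat_lit 895) (nat_lit 16) (nat_lit 7164) (nat_lit 2) (.two (nat_lit 390) (nat_lit 16) (nat_lit 6160) (nat_lit 2) (.two (nat_lit 30) (nat_lit 16) (nat_lit 6878) (nat_lit 1) (.two (nat_lit 78) (nat_lit 1) (nat_lit 3112) (nat_lit 16) (.two (nat_lit 0) (nat_lit 1) (nat_lit 7559) (nat_lit 16) (.one (nat_lit 6956) (nat_lit 2) .nil)))))),
   .der (nat_lit 162) (nat_lit 77),
   .der (nat_lit 2339) (nat_lit 539),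
   .der (nat_lit 1) (nat_lit 4055),
   .prs (.two (nat_lit 33) (nat_lit 8) (nat_lit 7561) (nat_lit 1) (.two (nat_lit 13) (nat_lit 8) (nat_lit 7562) (nat_lit 4) (.two (nat_lit 42) (nat_lit 8) (nat_lit 3337) (nat_lit 4) (.two (nat_lit 14) (nat_lit 1) (nat_lit 5038) (nat_lit 4) (.two (nat_lit 1) (nat_lit 16) (nat_lit 7563) (nat_lit 1) (.one (nat_lit 6966) (nat_lit 8) .nil)))))),
   .der (nat_lit 1875) (nat_lit 59),
   .der (nat_lit 1556) (nat_lit 429),
   .prs (.two (nat_lit 6348) (nat_lit 8) (nat_lit 7565) (nat_lit 2) (.two (nat_lit 794) (nat_lit 2) (nat_lit 7566) (nat_lit 8) (.two (nat_lit 65) (nat_lit 2) (nat_lit 4245) (nat_lit 8) (.two (nat_lit 9) (nat_lit 1) (nat_lit 6167) (nat_lit 8) (.two (nat_lit 3) (nat_lit 1) (nat_lit 3340) (nat_lit 2) (.two (nat_lit 0) (nat_lit 1) (nat_lit 5178) (nat_lit 8) (.one (nat_lit 6967) (nat_lit 1) .nil))))))),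
   .der (nat_lit 10) (nat_lit 67),
   .der (nat_lit 2339) (nat_lit 824),
   .der (nat_lit 339) (nat_lit 4137),
   .prs (.two (nat_lit 7568) (nat_lit 4) (nat_lit 1397) (nat_lit 8) (.two (nat_lit 105) (nat_lit 8) (nat_lit 7569) (nat_lit 4) (.two (nat_lit 882) (nat_lit 4) (nat_lit 6447) (nat_lit 2) (.two (nat_lit 2) (nat_lit 8) (nat_lit 3338) (nat_lit 2) (.two (nat_lit 11) (nat_lit 2) (nat_lit 7570) (nat_lit 8) (.two (nat_lit 0) (nat_lit 8) (nat_lit 6027) (nat_lit 2) (.one (nat_lit 6960) (nat_lit 8) .nil))))))),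
   .der (nat_lit 22803) (nat_lit 939),
   .der (nat_lit 33) (nat_lit 1441),
   .der (nat_lit 165) (nat_lit 3132),
   .prs (.two (nat_lit 33) (nat_lit 8) (nat_lit 4244) (nat_lit 2) (.two (nat_lit 13) (nat_lit 8) (nat_lit 7572) (nat_lit 2) (.two (nat_lit 1435) (nat_lit 2) (nat_lit 7573) (nat_lit 4) (.two (nat_lit 25) (nat_lit 8) (nat_lit 7574) (nat_lit 4) (.two (nat_lit 1) (nat_lit 4) (nat_lit 6053) (nat_lit 2) (.two (nat_lit 0) (nat_lit 4) (nat_lit 6030) (nat_lit 8) (.one (nat_lit 6963) (nat_lit 4) .nil))))))),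
   .der (nat_lit 5) (nat_lit 586),
   .der (nat_lit 1893) (nat_lit 1432),
   .der (nat_lit 833) (nat_lit 4207),
   .prs (.two (nat_lit 33) (nat_lit 16) (nat_lit 4842) (nat_lit 2) (.two (nat_lit 80) (nat_lit 16) (nat_lit 7576) (nat_lit 2) (.two (nat_lit 65) (nat_lit 2) (nat_lit 2463) (nat_lit 16) (.two (nat_lit 34) (nat_lit 16) (nat_lit 7577) (nat_lit 2) (.two (nat_lit 3) (nat_lit 1) (nat_lit 7578) (nat_lit 2) (.two (nat_lit 0) (nat_lit 1) (nat_lit 5183) (nat_lit 2) (.one (nat_lit 6044) (nat_lit 2) .nil))))))),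
   .der (nat_lit 12658) (nat_lit 95),
   .der (nat_lit 801) (nat_lit 39),
   .der (nat_lit 65) (nat_lit 2203),
   .prs (.two (nat_lit 7581) (nat_lit 1) (nat_lit 7580) (nat_lit 8) (.two (nat_lit 390) (nat_lit 2) (nat_lit 5895) (nat_lit 8) (.two (nat_lit 65) (nat_lit 2) (nat_lit 6008) (nat_lit 8) (.two (nat_lit 3) (nat_lit 8) (nat_lit 7582) (nat_lit 1) (.two (nat_lit 0) (nat_lit 1) (nat_lit 5192) (nat_lit 8) (.one (nat_lit 6971) (nat_lit 2) .nil)))))),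
   .der (nat_lit 2) (nat_lit 3188),
   .der (nat_lit 33) (nat_lit 4181),
   .der (nat_lit 33) (nat_lit 5095),
   .der (nat_lit 17185) (nat_lit 6066),
   .prs (.two (nat_lit 33) (nat_lit 8) (nat_lit 4046) (nat_lit 2) (.two (nat_lit 6) (nat_lit 8) (nat_lit 3007) (nat_lit 2) (.two (nat_lit 556) (nat_lit 4) (nat_lit 7584) (nat_lit 1) (.two (nat_lit 1) (nat_lit 2) (nat_lit 7585) (nat_lit 4) (.two (nat_lit 0) (nat_lit 1) (nat_lit 7586) (nat_lit 2) (.one (nat_lit 7587) (nat_lit 2) .nil)))))),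
   .der (nat_lit 115) (nat_lit 655),
   .der (nat_lit 145) (nat_lit 1630),
   .der (nat_lit 1) (nat_lit 3239),
   .prs (.two (nat_lit 33) (nat_lit 16) (nat_lit 7589) (nat_lit 8) (.two (nat_lit 418) (nat_lit 16) (nat_lit 7590) (nat_lit 1) (.two (nat_lit 370) (nat_lit 1) (nat_lit 6110) (nat_lit 16) (.two (nat_lit 1) (nat_lit 8) (nat_lit 7591) (nat_lit 16) (.two (nat_lit 0) (nat_lit 8) (nat_lit 6111) (nat_lit 1) (.one (nat_lit 7006) (nat_lit 8) .nil)))))),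
   .der (nat_lit 34068) (nat_lit 921),
   .prs (.two (nat_lit 35) (nat_lit 16) (nat_lit 1471) (nat_lit 4) (.two (nat_lit 676) (nat_lit 4) (nat_lit 82) (nat_lit 16) (.two (nat_lit 427) (nat_lit 16) (nat_lit 7593) (nat_lit 4) (.two (nat_lit 170) (nat_lit 16) (nat_lit 6183) (nat_lit 4) (.two (nat_lit 1) (nat_lit 4) (nat_lit 4325) (nat_lit 16) (.two (nat_lit 0) (nat_lit 16) (nat_lit 6173) (nat_lit 4) (.one (nat_lit 6077) (nat_lit 4) .nil))))))),
   .der (nat_lit 165) (nat_lit 172),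
   .der (nat_lit 1430) (nat_lit 892),
   .der (nat_lit 150) (nat_lit 1408),
   .der (nat_lit 2323) (nat_lit 3996),
   .prs (.two (nat_lit 593) (nat_lit 16) (nat_lit 7595) (nat_lit 1) (.two (nat_lit 13) (nat_lit 4) (nat_lit 7596) (nat_lit 16) (.two (nat_lit 6) (nat_lit 4) (nat_lit 7597) (nat_lit 16) (.two (nat_lit 2) (nat_lit 4) (nat_lit 4776) (nat_lit 1) (.two (nat_lit 3) (nat_lit 4) (nat_lit 7598) (nat_lit 2) (.two (nat_lit 0) (nat_lit 1) (nat_lit 6112) (nat_lit 2) (.one (nat_lit 7009) (nat_lit 2) .nil))))))),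
   .der (nat_lit 49) (nat_lit 655),
   .der (nat_lit 50) (nat_lit 2210),
   .der (nat_lit 101) (nat_lit 6112),
   .prs (.two (nat_lit 33) (nat_lit 16) (nat_lit 7361) (nat_lit 2) (.two (nat_lit 38) (nat_lit 16) (nat_lit 7600) (nat_lit 2) (.two (nat_lit 427) (nat_lit 2) (nat_lit 7601) (nat_lit 16) (.two (nat_lit 0) (nat_lit 1) (nat_lit 7602) (nat_lit 2) .nil)))),
   .der (nat_lit 1430) (nat_lit 3132),
   .der (nat_lit 2433) (nat_lit 4010),
   .der (nat_lit 612) (nat_lit 5890),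
   .prs (.two (nat_lit 4380) (nat_lit 16) (nat_lit 1695) (nat_lit 2) (.two (nat_lit 13) (nat_lit 4) (nat_lit 4091) (nat_lit 16) (.two (nat_lit 4) (nat_lit 2) (nat_lit 7604) (nat_lit 4) (.two (nat_lit 1) (nat_lit 2) (nat_lit 7605) (nat_lit 4) (.two (nat_lit 0) (nat_lit 2) (nat_lit 7606) (nat_lit 16) (.one (nat_lit 7023) (nat_lit 4) .nil)))))),
   .der (nat_lit 1554) (nat_lit 824),
   .der (nat_lit 12658) (nat_lit 1550),
   .der (nat_lit 103) (nat_lit 3273),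
   .der (nat_lit 103) (nat_lit 5159),
   .prs (.two (nat_lit 6927) (nat_lit 16) (nat_lit 5238) (nat_lit 2) (.two (nat_lit 13) (nat_lit 4) (nat_lit 7608) (nat_lit 16) (.two (nat_lit 91) (nat_lit 16) (nat_lit 7609) (nat_lit 1) (.two (nat_lit 384) (nat_lit 1) (nat_lit 7610) (nat_lit 2) (.two (nat_lit 3) (nat_lit 1) (nat_lit 7611) (nat_lit 2) (.two (nat_lit 0) (nat_lit 4) (nat_lit 6119) (nat_lit 2) (.one (nat_lit 7027) (nat_lit 2) .nil))))))),
   .der (nat_lit 13345) (nat_lit 35),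
   .der (nat_lit 49) (nat_lit 1041),
   .der (nat_lit 13345) (nat_lit 1392),
   .der (nat_lit 2593) (nat_lit 2188),
   .der (nat_lit 115) (nat_lit 4123),
   .prs (.two (nat_lit 7613) (nat_lit 8) (nat_lit 675) (nat_lit 2) (.two (nat_lit 676) (nat_lit 8) (nat_lit 7614) (nat_lit 4) (.two (nat_lit 65) (nat_lit 2) (nat_lit 7615) (nat_lit 8) (.two (nat_lit 9) (nat_lit 1) (nat_lit 7616) (nat_lit 2) (.two (nat_lit 11) (nat_lit 8) (nat_lit 7617) (nat_lit 2) (.two (nat_lit 0) (nat_lit 1) (nat_lit 6123) (nat_lit 2) (.one (nat_lit 7033) (nat_lit 4) .nil))))))),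
   .der (nat_lit 1380) (nat_lit 74),
   .der (nat_lit 86) (nat_lit 1456),
   .prs (.two (nat_lit 411) (nat_lit 16) (nat_lit 7619) (nat_lit 1) (.two (nat_lit 97) (nat_lit 16) (nat_lit 681) (nat_lit 1) (.two (nat_lit 899) (nat_lit 1) (nat_lit 7620) (nat_lit 16) (.two (nat_lit 1) (nat_lit 2) (nat_lit 7059) (nat_lit 16) (.one (nat_lit 5224) (nat_lit 16) .nil))))),
   .der (nat_lit 833) (nat_lit 1456),
   .der (nat_lit 33345) (nat_lit 3187),
   .der (nat_lit 103) (nat_lit 4134),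
   .prs (.two (nat_lit 39) (nat_lit 16) (nat_lit 4458) (nat_lit 8) (.two (nat_lit 34) (nat_lit 8) (nat_lit 7622) (nat_lit 4) (.two (nat_lit 1) (nat_lit 8) (nat_lit 7623) (nat_lit 4) (.two (nat_lit 0) (nat_lit 8) (nat_lit 7624) (nat_lit 16) (.one (nat_lit 7083) (nat_lit 16) .nil))))),
   .der (nat_lit 801) (nat_lit 1456),
   .der (nat_lit 561) (nat_lit 3187),
   .prs (.two (nat_lit 39) (nat_lit 8) (nat_lit 4450) (nat_lit 1) (.two (nat_lit 440) (nat_lit 16) (nat_lit 7626) (nat_lit 8) (.two (nat_lit 4) (nat_lit 16) (nat_lit 7627) (nat_lit 4) (.two (nat_lit 1) (nat_lit 8) (nat_lit 4316) (nat_lit 16) (.two (nat_lit 0) (nat_lit 8) (nat_lit 6128) (nat_lit 16) (.one (nat_lit 7042) (nat_lit 8) .nil)))))),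
   .der (nat_lit 145) (nat_lit 177),
   .der (nat_lit 339) (nat_lit 936),
   .der (nat_lit 1299) (nat_lit 1565),
   .der (nat_lit 4978) (nat_lit 2353),
   .der (nat_lit 1380) (nat_lit 4181),
   .prs (.two (nat_lit 33) (nat_lit 16) (nat_lit 7629) (nat_lit 1) (.two (nat_lit 32) (nat_lit 16) (nat_lit 7630) (nat_lit 1) (.two (nat_lit 12) (nat_lit 16) (nat_lit 7631) (nat_lit 1) (.two (nat_lit 2) (nat_lit 16) (nat_lit 7632) (nat_lit 1) (.two (nat_lit 11) (nat_lit 16) (nat_lit 7633) (nat_lit 1) (.two (nat_lit 0) (nat_lit 1) (nat_lit 6131) (nat_lit 2) (.one (nat_lit 7045) (nat_lit 2) .nil))))))),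
   .der (nat_lit 10) (nat_lit 93),
   .prs (.two (nat_lit 7524) (nat_lit 16) (nat_lit 7635) (nat_lit 2) (.two (nat_lit 390) (nat_lit 16) (nat_lit 2517) (nat_lit 2) (.two (nat_lit 427) (nat_lit 2) (nat_lit 6115) (nat_lit 16) (.two (nat_lit 0) (nat_lit 1) (nat_lit 6133) (nat_lit 2) .nil)))),
   .der (nat_lit 38163) (nat_lit 441),
   .der (nat_lit 38163) (nat_lit 927),
   .der (nat_lit 561) (nat_lit 2183),
   .der (nat_lit 561) (nat_lit 3161),
   .prs (.two (nat_lit 2469) (nat_lit 16) (nat_lit 7637) (nat_lit 4) (.two (nat_lit 676) (nat_lit 16) (nat_lit 7638) (nat_lit 4) (.two (nat_lit 489) (nat_lit 4) (nat_lit 7639) (nat_lit 16) (.two (nat_lit 1) (nat_lit 4) (nat_lit 7640) (nat_lit 16) (.two (nat_lit 0) (nat_lit 1) (nat_lit 6133) (nat_lit 4) (.one (nat_lit 7049) (nat_lit 1) .nil)))))),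
   .der (nat_lit 1653) (nat_lit 3144),
   .der (nat_lit 1811) (nat_lit 6079),
   .der (nat_lit 137) (nat_lit 6836),
   .prs (.two (nat_lit 423) (nat_lit 16) (nat_lit 1429) (nat_lit 4) (.two (nat_lit 825) (nat_lit 16) (nat_lit 2688) (nat_lit 1) (.two (nat_lit 6) (nat_lit 4) (nat_lit 6864) (nat_lit 16) (.two (nat_lit 1) (nat_lit 4) (nat_lit 7642) (nat_lit 16) (.two (nat_lit 0) (nat_lit 1) (nat_lit 7643) (nat_lit 4) (.one (nat_lit 7644) (nat_lit 1) .nil)))))),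
   .der (nat_lit 1074) (nat_lit 562),
   .der (nat_lit 340) (nat_lit 930),
   .der (nat_lit 50) (nat_lit 2176),
   .der (nat_lit 834) (nat_lit 4002),
   .prs (.two (nat_lit 4539) (nat_lit 2) (nat_lit 7646) (nat_lit 16) (.two (nat_lit 94) (nat_lit 16) (nat_lit 7647) (nat_lit 2) (.two (nat_lit 227) (nat_lit 2) (nat_lit 7648) (nat_lit 16) (.two (nat_lit 1) (nat_lit 2) (nat_lit 7649) (nat_lit 4) (.two (nat_lit 0) (nat_lit 4) (nat_lit 6136) (nat_lit 2) (.one (nat_lit 7056) (nat_lit 4) .nil)))))),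
   .der (nat_lit 101) (nat_lit 681),
   .der (nat_lit 2) (nat_lit 3229),
   .der (nat_lit 10) (nat_lit 6006),
   .prs (.two (nat_lit 423) (nat_lit 16) (nat_lit 2527) (nat_lit 4) (.two (nat_lit 71) (nat_lit 16) (nat_lit 7651) (nat_lit 1) (.two (nat_lit 6) (nat_lit 4) (nat_lit 7448) (nat_lit 16) (.two (nat_lit 0) (nat_lit 1) (nat_lit 7652) (nat_lit 16) (.one (nat_lit 7653) (nat_lit 1) .nil))))),
   .prs (.two (nat_lit 32) (nat_lit 8) (nat_lit 7120) (nat_lit 1) (.two (nat_lit 667) (nat_lit 1) (nat_lit 872) (nat_lit 8) (.two (nat_lit 482) (nat_lit 1) (nat_lit 1696) (nat_lit 8) (.two (nat_lit 46) (nat_lit 1) (nat_lit 2528) (nat_lit 8) (.two (nat_lit 0) (nat_lit 1) (nat_lit 5268) (nat_lit 8) (.one (nat_lit 6251) (nat_lit 2) .nil)))))),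
   .der (nat_lit 118) (nat_lit 586),
   .prs (.two (nat_lit 423) (nat_lit 16) (nat_lit 1768) (nat_lit 4) (.two (nat_lit 105) (nat_lit 16) (nat_lit 7656) (nat_lit 4) (.two (nat_lit 6) (nat_lit 4) (nat_lit 7084) (nat_lit 16) (.two (nat_lit 0) (nat_lit 1) (nat_lit 6180) (nat_lit 16) (.one (nat_lit 7085) (nat_lit 1) .nil))))),
   .der (nat_lit 115) (nat_lit 77),
   .der (nat_lit 1057) (nat_lit 199),
   .der (nat_lit 1650) (nat_lit 2183),
   .der (nat_lit 2593) (nat_lit 6161),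
   .prs (.two (nat_lit 6803) (nat_lit 8) (nat_lit 7658) (nat_lit 2) (.two (nat_lit 418) (nat_lit 1) (nat_lit 7659) (nat_lit 8) (.two (nat_lit 12) (nat_lit 1) (nat_lit 7660) (nat_lit 8) (.two (nat_lit 0) (nat_lit 2) (nat_lit 7661) (nat_lit 1) .nil)))),
   .der (nat_lit 354) (nat_lit 421),
   .der (nat_lit 101) (nat_lit 1546),
   .prs (.two (nat_lit 822) (nat_lit 8) (nat_lit 1172) (nat_lit 2) (.two (nat_lit 6) (nat_lit 16) (nat_lit 7663) (nat_lit 2) (.two (nat_lit 2) (nat_lit 16) (nat_lit 7664) (nat_lit 2) (.two (nat_lit 1) (nat_lit 16) (nat_lit 4332) (nat_lit 8) (.two (nat_lit 0) (nat_lit 8) (nat_lit 6181) (nat_lit 2) (.one (nat_lit 7088) (nat_lit 8) .nil)))))),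
   .der (nat_lit 161) (nat_lit 1102),
   .der (nat_lit 7) (nat_lit 2186),
   .prs (.two (nat_lit 423) (nat_lit 16) (nat_lit 2527) (nat_lit 4) (.two (nat_lit 71) (nat_lit 16) (nat_lit 7666) (nat_lit 1) (.two (nat_lit 6) (nat_lit 4) (nat_lit 5278) (nat_lit 16) (.two (nat_lit 1) (nat_lit 4) (nat_lit 7667) (nat_lit 16) (.two (nat_lit 0) (nat_lit 1) (nat_lit 4334) (nat_lit 16) (.one (nat_lit 7090) (nat_lit 1) .nil)))))),
   .der (nat_lit 38163) (nat_lit 578),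
   .der (nat_lit 5716) (nat_lit 1438),
   .der (nat_lit 26386) (nat_lit 4002),
   .prs (.two (nat_lit 5950) (nat_lit 2) (nat_lit 6449) (nat_lit 8) (.two (nat_lit 1480) (nat_lit 2) (nat_lit 7669) (nat_lit 8) (.two (nat_lit 1259) (nat_lit 8) (nat_lit 7670) (nat_lit 2) (.two (nat_lit 1) (nat_lit 8) (nat_lit 7671) (nat_lit 2) (.one (nat_lit 6982) (nat_lit 2) .nil))))),
   .der (nat_lit 1395) (nat_lit 401),
   .der (nat_lit 1300) (nat_lit 852),
   .der (nat_lit 33) (nat_lit 2369),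
   .prs (.two (nat_lit 2469) (nat_lit 16) (nat_lit 7673) (nat_lit 4) (.two (nat_lit 676) (nat_lit 16) (nat_lit 7674) (nat_lit 4) (.two (nat_lit 111) (nat_lit 4) (nat_lit 7675) (nat_lit 16) (.two (nat_lit 3) (nat_lit 4) (nat_lit 4321) (nat_lit 16) (.two (nat_lit 0) (nat_lit 4) (nat_lit 6108) (nat_lit 16) (.one (nat_lit 7066) (nat_lit 16) .nil)))))),
   .der (nat_lit 9) (nat_lit 873),
   .der (nat_lit 10) (nat_lit 3150),
   .der (nat_lit 5) (nat_lit 4252),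
   .prs (.two (nat_lit 2281) (nat_lit 8) (nat_lit 2245) (nat_lit 4) (.two (nat_lit 440) (nat_lit 8) (nat_lit 1429) (nat_lit 4) (.two (nat_lit 65) (nat_lit 8) (nat_lit 7677) (nat_lit 4) (.two (nat_lit 4) (nat_lit 8) (nat_lit 6183) (nat_lit 4) (.two (nat_lit 1) (nat_lit 8) (nat_lit 7678) (nat_lit 4) (.two (nat_lit 0) (nat_lit 1) (nat_lit 7679) (nat_lit 8) (.one (nat_lit 6185) (nat_lit 1) .nil))))))),
   .der (nat_lit 161) (nat_lit 1400),
   .prs (.two (nat_lit 33) (nat_lit 16) (nat_lit 941) (nat_lit 1) (.two (nat_lit 440) (nat_lit 16) (nat_lit 5298) (nat_lit 1) (.two (nat_lit 42) (nat_lit 8) (nat_lit 7681) (nat_lit 2) (.two (nat_lit 1) (nat_lit 8) (nat_lit 4336) (nat_lit 16) (.two (nat_lit 0) (nat_lit 8) (nat_lit 6187) (nat_lit 2) (.one (nat_lit 7094) (nat_lit 1) .nil)))))),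
   .der (nat_lit 84) (nat_lit 1088),
   .prs (.two (nat_lit 4380) (nat_lit 16) (nat_lit 1066) (nat_lit 2) (.two (nat_lit 1113) (nat_lit 16) (nat_lit 7683) (nat_lit 1) (.two (nat_lit 4) (nat_lit 2) (nat_lit 4486) (nat_lit 16) (.two (nat_lit 3) (nat_lit 1) (nat_lit 3389) (nat_lit 2) (.two (nat_lit 0) (nat_lit 1) (nat_lit 5229) (nat_lit 2) (.one (nat_lit 7096) (nat_lit 1) .nil)))))),
   .der (nat_lit 4978) (nat_lit 123),
   .der (nat_lit 30226) (nat_lit 1102),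
   .prs (.two (nat_lit 33) (nat_lit 16) (nat_lit 7685) (nat_lit 1) (.two (nat_lit 418) (nat_lit 16) (nat_lit 7686) (nat_lit 1) (.two (nat_lit 36) (nat_lit 8) (nat_lit 6074) (nat_lit 16) (.two (nat_lit 1) (nat_lit 2) (nat_lit 7098) (nat_lit 16) (.two (nat_lit 0) (nat_lit 8) (nat_lit 6343) (nat_lit 2) (.one (nat_lit 7099) (nat_lit 1) .nil)))))),
   .der (nat_lit 36) (nat_lit 277),
   .prs (.two (nat_lit 4399) (nat_lit 16) (nat_lit 7688) (nat_lit 2) (.two (nat_lit 4062) (nat_lit 16) (nat_lit 6155) (nat_lit 1) (.two (nat_lit 667) (nat_lit 2) (nat_lit 1051) (nat_lit 16) (.two (nat_lit 75) (nat_lit 2) (nat_lit 6115) (nat_lit 16) (.two (nat_lit 0) (nat_lit 1) (nat_lit 6192) (nat_lit 16) (.one (nat_lit 7104) (nat_lit 1) .nil)))))),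
   .der (nat_lit 49) (nat_lit 495),
   .der (nat_lit 2433) (nat_lit 927),
   .prs (.two (nat_lit 2469) (nat_lit 16) (nat_lit 7690) (nat_lit 4) (.two (nat_lit 676) (nat_lit 16) (nat_lit 7691) (nat_lit 4) (.two (nat_lit 6) (nat_lit 4) (nat_lit 7639) (nat_lit 16) (.two (nat_lit 1) (nat_lit 4) (nat_lit 7640) (nat_lit 16) (.two (nat_lit 0) (nat_lit 1) (nat_lit 6161) (nat_lit 4) (.one (nat_lit 7071) (nat_lit 1) .nil)))))),
   .der (nat_lit 100) (nat_lit 77),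
   .der (nat_lit 33) (nat_lit 1456),
   .prs (.two (nat_lit 411) (nat_lit 16) (nat_lit 7693) (nat_lit 1) (.two (nat_lit 97) (nat_lit 16) (nat_lit 6155) (nat_lit 1) (.two (nat_lit 768) (nat_lit 1) (nat_lit 7694) (nat_lit 16) (.two (nat_lit 1) (nat_lit 2) (nat_lit 7059) (nat_lit 16) (.one (nat_lit 6194) (nat_lit 16) .nil))))),
   .der (nat_lit 84) (nat_lit 87),
   .der (nat_lit 1057) (nat_lit 37),
   .der (nat_lit 13345) (nat_lit 417),
   .der (nat_lit 4978) (nat_lit 2229),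
   .der (nat_lit 1893) (nat_lit 4254),
   .prs (.two (nat_lit 7697) (nat_lit 8) (nat_lit 7696) (nat_lit 1) (.two (nat_lit 440) (nat_lit 2) (nat_lit 7698) (nat_lit 8) (.two (nat_lit 5) (nat_lit 1) (nat_lit 7699) (nat_lit 8) (.two (nat_lit 0) (nat_lit 1) (nat_lit 7700) (nat_lit 2) (.one (nat_lit 6197) (nat_lit 2) .nil))))),
   .der (nat_lit 9587) (nat_lit 4142),
   .prs (.two (nat_lit 2525) (nat_lit 1) (nat_lit 1132) (nat_lit 4) (.two (nat_lit 676) (nat_lit 4) (nat_lit 6140) (nat_lit 1) (.two (nat_lit 129) (nat_lit 4) (nat_lit 6246) (nat_lit 1) (.two (nat_lit 1) (nat_lit 2) (nat_lit 5535) (nat_lit 1) (.two (nat_lit 0) (nat_lit 2) (nat_lit 7702) (nat_lit 1) (.one (nat_lit 7106) (nat_lit 1) .nil)))))),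
   .der (nat_lit 12658) (nat_lit 906),
   .der (nat_lit 17185) (nat_lit 3144),
   .prs (.two (nat_lit 3259) (nat_lit 4) (nat_lit 3775) (nat_lit 8) (.two (nat_lit 1302) (nat_lit 4) (nat_lit 7704) (nat_lit 8) (.two (nat_lit 1118) (nat_lit 4) (nat_lit 6288) (nat_lit 8) (.two (nat_lit 173) (nat_lit 4) (nat_lit 5249) (nat_lit 8) (.two (nat_lit 3) (nat_lit 4) (nat_lit 7705) (nat_lit 8) (.two (nat_lit 0) (nat_lit 1) (nat_lit 6079) (nat_lit 4) (.one (nat_lit 7073) (nat_lit 4) .nil))))))),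
   .der (nat_lit 5) (nat_lit 897),
   .prs (.two (nat_lit 822) (nat_lit 16) (nat_lit 908) (nat_lit 1) (.two (nat_lit 462) (nat_lit 8) (nat_lit 7707) (nat_lit 16) (.two (nat_lit 78) (nat_lit 1) (nat_lit 6132) (nat_lit 16) (.one (nat_lit 6202) (nat_lit 16) .nil)))),
   .der (nat_lit 2390) (nat_lit 521),
   .der (nat_lit 35) (nat_lit 824),
   .prs (.two (nat_lit 4380) (nat_lit 16) (nat_lit 460) (nat_lit 2) (.two (nat_lit 717) (nat_lit 16) (nat_lit 7709) (nat_lit 2) (.two (nat_lit 65) (nat_lit 2) (nat_lit 7710) (nat_lit 16) (.two (nat_lit 4) (nat_lit 2) (nat_lit 1693) (nat_lit 16) (.two (nat_lit 11) (nat_lit 2) (nat_lit 3392) (nat_lit 1) (.two (nat_lit 0) (nat_lit 1) (nat_lit 6204) (nat_lit 2) (.one (nat_lit 6207) (nat_lit 1) .nil))))))),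
   .der (nat_lit 354) (nat_lit 1456),
   .der (nat_lit 2433) (nat_lit 6066),
   .prs (.two (nat_lit 2631) (nat_lit 16) (nat_lit 678) (nat_lit 4) (.two (nat_lit 794) (nat_lit 16) (nat_lit 425) (nat_lit 4) (.two (nat_lit 937) (nat_lit 4) (nat_lit 7712) (nat_lit 16) (.two (nat_lit 556) (nat_lit 4) (nat_lit 7442) (nat_lit 16) (.two (nat_lit 0) (nat_lit 2) (nat_lit 7713) (nat_lit 16) .nil))))),
   .der (nat_lit 65) (nat_lit 98),
   .der (nat_lit 1554) (nat_lit 59),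
   .der (nat_lit 1395) (nat_lit 1088),
   .der (nat_lit 137) (nat_lit 3996),
   .prs (.two (nat_lit 7716) (nat_lit 16) (nat_lit 7715) (nat_lit 1) (.two (nat_lit 717) (nat_lit 16) (nat_lit 7717) (nat_lit 1) (.two (nat_lit 9) (nat_lit 1) (nat_lit 6074) (nat_lit 16) (.two (nat_lit 1) (nat_lit 8) (nat_lit 7718) (nat_lit 1) (.one (nat_lit 6211) (nat_lit 1) .nil))))),
   .der (nat_lit 86) (nat_lit 2194),
   .der (nat_lit 2390) (nat_lit 4050),
   .prs (.two (nat_lit 423) (nat_lit 16) (nat_lit 7010) (nat_lit 2) (.two (nat_lit 520) (nat_lit 4) (nat_lit 7011) (nat_lit 16) (.two (nat_lit 2) (nat_lit 4) (nat_lit 7720) (nat_lit 16) (.two (nat_lit 1) (nat_lit 4) (nat_lit 7721) (nat_lit 2) (.two (nat_lit 0) (nat_lit 4) (nat_lit 5230) (nat_lit 2) (.one (nat_lit 7107) (nat_lit 2) .nil)))))),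
   .der (nat_lit 21092) (nat_lit 64),
   .der (nat_lit 1875) (nat_lit 1651),
   .prs (.two (nat_lit 895) (nat_lit 16) (nat_lit 7723) (nat_lit 2) (.two (nat_lit 965) (nat_lit 2) (nat_lit 7724) (nat_lit 16) (.two (nat_lit 1) (nat_lit 2) (nat_lit 6115) (nat_lit 16) (.two (nat_lit 0) (nat_lit 4) (nat_lit 6133) (nat_lit 2) .nil)))),
   .prs (.two (nat_lit 423) (nat_lit 16) (nat_lit 496) (nat_lit 4) (.two (nat_lit 509) (nat_lit 4) (nat_lit 3136) (nat_lit 16) (.two (nat_lit 1) (nat_lit 4) (nat_lit 7652) (nat_lit 16) (.one (nat_lit 6163) (nat_lit 16) .nil)))),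
   .der (nat_lit 86) (nat_lit 580),
   .der (nat_lit 137) (nat_lit 904),
   .prs (.two (nat_lit 423) (nat_lit 16) (nat_lit 6997) (nat_lit 2) (.two (nat_lit 145) (nat_lit 16) (nat_lit 7727) (nat_lit 2) (.two (nat_lit 1459) (nat_lit 2) (nat_lit 7728) (nat_lit 16) (.two (nat_lit 7) (nat_lit 1) (nat_lit 5716) (nat_lit 16) (.two (nat_lit 11) (nat_lit 1) (nat_lit 7721) (nat_lit 2) (.two (nat_lit 0) (nat_lit 1) (nat_lit 5236) (nat_lit 2) (.one (nat_lit 7013) (nat_lit 1) .nil))))))),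
   .prs (.two (nat_lit 94) (nat_lit 2) (nat_lit 5660) (nat_lit 8) (.two (nat_lit 147) (nat_lit 2) (nat_lit 1746) (nat_lit 8) (.two (nat_lit 78) (nat_lit 1) (nat_lit 2467) (nat_lit 8) (.two (nat_lit 1) (nat_lit 2) (nat_lit 5292) (nat_lit 8) (.two (nat_lit 0) (nat_lit 2) (nat_lit 5293) (nat_lit 1) (.one (nat_lit 7121) (nat_lit 1) .nil)))))),
   .der (nat_lit 9572) (nat_lit 2327),
   .prs (.two (nat_lit 423) (nat_lit 16) (nat_lit 2527) (nat_lit 4) (.two (nat_lit 71) (nat_lit 16) (nat_lit 7651) (nat_lit 1) (.two (nat_lit 6) (nat_lit 4) (nat_lit 5278) (nat_lit 16) (.two (nat_lit 1) (nat_lit 4) (nat_lit 7731) (nat_lit 16) (.two (nat_lit 0) (nat_lit 1) (nat_lit 4343) (nat_lit 16) (.one (nat_lit 6989) (nat_lit 1) .nil)))))),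
   .der (nat_lit 6) (nat_lit 446),
   .der (nat_lit 117) (nat_lit 992),
   .der (nat_lit 1) (nat_lit 6991),
   .prs (.two (nat_lit 423) (nat_lit 16) (nat_lit 5846) (nat_lit 4) (.two (nat_lit 825) (nat_lit 16) (nat_lit 7733) (nat_lit 4) (.two (nat_lit 42) (nat_lit 16) (nat_lit 7734) (nat_lit 4) (.two (nat_lit 463) (nat_lit 4) (nat_lit 7084) (nat_lit 16) (.two (nat_lit 0) (nat_lit 1) (nat_lit 5239) (nat_lit 16) (.one (nat_lit 7735) (nat_lit 1) .nil)))))),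
   .der (nat_lit 3) (nat_lit 1073),
   .der (nat_lit 1556) (nat_lit 861),
   .der (nat_lit 2193) (nat_lit 3200),
   .prs (.two (nat_lit 33) (nat_lit 16) (nat_lit 1799) (nat_lit 2) (.two (nat_lit 163) (nat_lit 8) (nat_lit 7737) (nat_lit 16) (.two (nat_lit 2) (nat_lit 8) (nat_lit 7738) (nat_lit 2) (.two (nat_lit 1) (nat_lit 8) (nat_lit 7739) (nat_lit 2) (.two (nat_lit 0) (nat_lit 8) (nat_lit 6240) (nat_lit 2) (.one (nat_lit 7110) (nat_lit 16) .nil)))))),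
   .der (nat_lit 2) (nat_lit 497),
   .prs (.two (nat_lit 2344) (nat_lit 16) (nat_lit 7741) (nat_lit 1) (.two (nat_lit 12) (nat_lit 1) (nat_lit 5228) (nat_lit 16) (.two (nat_lit 11) (nat_lit 1) (nat_lit 6153) (nat_lit 16) (.two (nat_lit 0) (nat_lit 1) (nat_lit 5243) (nat_lit 2) (.one (nat_lit 7115) (nat_lit 16) .nil))))),
   .der (nat_lit 9587) (nat_lit 76),
   .der (nat_lit 1107) (nat_lit 64),
   .der (nat_lit 1057) (nat_lit 555),
   .der (nat_lit 100) (nat_lit 1022),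
   .der (nat_lit 1554) (nat_lit 2342),
   .der (nat_lit 152) (nat_lit 4257),
   .prs (.two (nat_lit 7744) (nat_lit 1) (nat_lit 7743) (nat_lit 4) (.two (nat_lit 1245) (nat_lit 4) (nat_lit 7745) (nat_lit 1) (.two (nat_lit 1401) (nat_lit 1) (nat_lit 7746) (nat_lit 4) (.two (nat_lit 78) (nat_lit 1) (nat_lit 7747) (nat_lit 4) (.two (nat_lit 1) (nat_lit 2) (nat_lit 7748) (nat_lit 1) (.two (nat_lit 0) (nat_lit 2) (nat_lit 5247) (nat_lit 1) (.one (nat_lit 7117) (nat_lit 1) .nil))))))),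
   .der (nat_lit 577) (nat_lit 76),
   .der (nat_lit 561) (nat_lit 5079),
   .prs (.two (nat_lit 423) (nat_lit 16) (nat_lit 7750) (nat_lit 4) (.two (nat_lit 509) (nat_lit 4) (nat_lit 3136) (nat_lit 16) (.two (nat_lit 1) (nat_lit 4) (nat_lit 7751) (nat_lit 16) .nil))),
   .der (nat_lit 34068) (nat_lit 70),
   .der (nat_lit 833) (nat_lit 1400),
   .der (nat_lit 17185) (nat_lit 4013),
   .prs (.two (nat_lit 419) (nat_lit 1) (nat_lit 7753) (nat_lit 8) (.two (nat_lit 440) (nat_lit 2) (nat_lit 6069) (nat_lit 8) (.two (nat_lit 4) (nat_lit 2) (nat_lit 7754) (nat_lit 8) (.two (nat_lit 1) (nat_lit 2) (nat_lit 5535) (nat_lit 1) (.two (nat_lit 0) (nat_lit 2) (nat_lit 7755) (nat_lit 1) (.one (nat_lit 6247) (nat_lit 1) .nil)))))),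
   .der (nat_lit 2068) (nat_lit 247),
   .der (nat_lit 18) (nat_lit 615),
   .prs (.two (nat_lit 3794) (nat_lit 16) (nat_lit 7757) (nat_lit 4) (.two (nat_lit 418) (nat_lit 16) (nat_lit 7758) (nat_lit 1) (.two (nat_lit 404) (nat_lit 1) (nat_lit 4486) (nat_lit 16) (.two (nat_lit 1) (nat_lit 4) (nat_lit 5253) (nat_lit 16) (.two (nat_lit 0) (nat_lit 1) (nat_lit 6250) (nat_lit 16) (.one (nat_lit 7119) (nat_lit 1) .nil)))))),
   .der (nat_lit 29011) (nat_lit 95),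
   .prs (.two (nat_lit 462) (nat_lit 8) (nat_lit 7760) (nat_lit 2) (.two (nat_lit 1081) (nat_lit 2) (nat_lit 1723) (nat_lit 8) (.two (nat_lit 1) (nat_lit 2) (nat_lit 6075) (nat_lit 8) (.one (nat_lit 6280) (nat_lit 8) .nil)))),
   .der (nat_lit 801) (nat_lit 495),
   .der (nat_lit 12658) (nat_lit 841),
   .der (nat_lit 162) (nat_lit 2171),
   .der (nat_lit 129) (nat_lit 3144),
   .der (nat_lit 659) (nat_lit 5220),
   .prs (.two (nat_lit 423) (nat_lit 4) (nat_lit 7762) (nat_lit 8) (.two (nat_lit 676) (nat_lit 4) (nat_lit 7763) (nat_lit 8) (.two (nat_lit 6) (nat_lit 4) (nat_lit 7764) (nat_lit 8) (.two (nat_lit 1) (nat_lit 4) (nat_lit 7765) (nat_lit 8) (.two (nat_lit 0) (nat_lit 1) (nat_lit 7766) (nat_lit 8) (.one (nat_lit 6817) (nat_lit 1) .nil)))))),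
   .der (nat_lit 833) (nat_lit 2210),
   .der (nat_lit 19) (nat_lit 4145),
   .der (nat_lit 10) (nat_lit 7009),
   .prs (.two (nat_lit 3097) (nat_lit 16) (nat_lit 6315) (nat_lit 8) (.two (nat_lit 65) (nat_lit 16) (nat_lit 7768) (nat_lit 8) (.two (nat_lit 1) (nat_lit 8) (nat_lit 7769) (nat_lit 16) (.two (nat_lit 0) (nat_lit 8) (nat_lit 6318) (nat_lit 16) (.one (nat_lit 7770) (nat_lit 16) .nil))))),
   .der (nat_lit 1) (nat_lit 412),
   .der (nat_lit 129) (nat_lit 850),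
   .der (nat_lit 1430) (nat_lit 1446),
   .der (nat_lit 22803) (nat_lit 4374),
   .prs (.two (nat_lit 1764) (nat_lit 8) (nat_lit 7772) (nat_lit 16) (.two (nat_lit 13) (nat_lit 8) (nat_lit 7773) (nat_lit 16) (.two (nat_lit 1470) (nat_lit 16) (nat_lit 7774) (nat_lit 8) (.two (nat_lit 463) (nat_lit 16) (nat_lit 7768) (nat_lit 8) (.two (nat_lit 1) (nat_lit 16) (nat_lit 7775) (nat_lit 8) (.two (nat_lit 0) (nat_lit 8) (nat_lit 6322) (nat_lit 16) (.one (nat_lit 7173) (nat_lit 16) .nil))))))),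
   .der (nat_lit 49) (nat_lit 845),
   .prs (.two (nat_lit 1355) (nat_lit 16) (nat_lit 1852) (nat_lit 4) (.two (nat_lit 105) (nat_lit 16) (nat_lit 2680) (nat_lit 4) (.two (nat_lit 12) (nat_lit 1) (nat_lit 7777) (nat_lit 16) (.two (nat_lit 439) (nat_lit 2) (nat_lit 3562) (nat_lit 4) (.two (nat_lit 1) (nat_lit 2) (nat_lit 4379) (nat_lit 1) (.one (nat_lit 6359) (nat_lit 1) .nil)))))),
   .der (nat_lit 135) (nat_lit 521),
   .der (nat_lit 20) (nat_lit 892),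
   .der (nat_lit 103) (nat_lit 1408),
   .der (nat_lit 561) (nat_lit 3340),
   .der (nat_lit 2390) (nat_lit 4339),
   .der (nat_lit 152) (nat_lit 6112),
   .prs (.two (nat_lit 3774) (nat_lit 4) (nat_lit 2834) (nat_lit 2) (.two (nat_lit 520) (nat_lit 4) (nat_lit 7779) (nat_lit 8) (.two (nat_lit 6) (nat_lit 8) (nat_lit 7780) (nat_lit 4) (.two (nat_lit 2) (nat_lit 8) (nat_lit 7781) (nat_lit 4) (.two (nat_lit 1) (nat_lit 2) (nat_lit 7782) (nat_lit 8) (.two (nat_lit 0) (nat_lit 2) (nat_lit 7783) (nat_lit 8) (.one (nat_lit 7784) (nat_lit 2) .nil))))))),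
   .der (nat_lit 34068) (nat_lit 72),
   .der (nat_lit 1893) (nat_lit 1169),
   .der (nat_lit 5716) (nat_lit 2210),
   .der (nat_lit 30226) (nat_lit 4131),
   .prs (.two (nat_lit 7786) (nat_lit 8) (nat_lit 4244) (nat_lit 2) (.two (nat_lit 582) (nat_lit 8) (nat_lit 7787) (nat_lit 2) (.two (nat_lit 49) (nat_lit 8) (nat_lit 4709) (nat_lit 2) (.two (nat_lit 452) (nat_lit 8) (nat_lit 7788) (nat_lit 2) (.two (nat_lit 3) (nat_lit 4) (nat_lit 7789) (nat_lit 2) (.two (nat_lit 0) (nat_lit 4) (nat_lit 6325) (nat_lit 8) (.one (nat_lit 7186) (nat_lit 8) .nil))))))),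
   .der (nat_lit 129) (nat_lit 578),
   .der (nat_lit 152) (nat_lit 2472),
   .der (nat_lit 98) (nat_lit 4099),
   .der (nat_lit 117) (nat_lit 7160),
   .prs (.two (nat_lit 6348) (nat_lit 8) (nat_lit 7791) (nat_lit 2) (.two (nat_lit 440) (nat_lit 2) (nat_lit 6062) (nat_lit 8) (.two (nat_lit 4) (nat_lit 2) (nat_lit 7792) (nat_lit 8) (.two (nat_lit 11) (nat_lit 2) (nat_lit 7793) (nat_lit 1) (.two (nat_lit 0) (nat_lit 2) (nat_lit 6331) (nat_lit 1) (.one (nat_lit 7794) (nat_lit 1) .nil)))))),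
   .der (nat_lit 37425) (nat_lit 495),
   .der (nat_lit 2193) (nat_lit 1408),
   .der (nat_lit 16738) (nat_lit 3340),
   .der (nat_lit 49) (nat_lit 4339),
   .der (nat_lit 801) (nat_lit 6112),
   .prs (.two (nat_lit 33) (nat_lit 16) (nat_lit 476) (nat_lit 8) (.two (nat_lit 13) (nat_lit 16) (nat_lit 7796) (nat_lit 8) (.two (nat_lit 12) (nat_lit 8) (nat_lit 7797) (nat_lit 16) (.two (nat_lit 3) (nat_lit 4) (nat_lit 7798) (nat_lit 8) (.two (nat_lit 0) (nat_lit 4) (nat_lit 7799) (nat_lit 8) (.one (nat_lit 7800) (nat_lit 4) .nil)))))),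
   .der (nat_lit 33) (nat_lit 506),
   .der (nat_lit 147) (nat_lit 1478),
   .der (nat_lit 10) (nat_lit 3344),
   .prs (.two (nat_lit 7581) (nat_lit 16) (nat_lit 7802) (nat_lit 1) (.two (nat_lit 537) (nat_lit 1) (nat_lit 7803) (nat_lit 16) (.two (nat_lit 11) (nat_lit 1) (nat_lit 7804) (nat_lit 16) (.two (nat_lit 0) (nat_lit 1) (nat_lit 6364) (nat_lit 16) (.one (nat_lit 7211) (nat_lit 16) .nil))))),
   .der (nat_lit 86) (nat_lit 907),
   .der (nat_lit 137) (nat_lit 3422),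
   .prs (.two (nat_lit 6348) (nat_lit 2) (nat_lit 6945) (nat_lit 1) (.two (nat_lit 509) (nat_lit 4) (nat_lit 969) (nat_lit 1) (.two (nat_lit 6) (nat_lit 4) (nat_lit 7806) (nat_lit 2) (.two (nat_lit 99) (nat_lit 1) (nat_lit 6350) (nat_lit 2) (.two (nat_lit 1) (nat_lit 4) (nat_lit 7807) (nat_lit 2) (.two (nat_lit 0) (nat_lit 4) (nat_lit 5401) (nat_lit 2) (.one (nat_lit 7214) (nat_lit 2) .nil))))))),
   .der (nat_lit 67) (nat_lit 220),
   .der (nat_lit 339) (nat_lit 67),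
   .der (nat_lit 659) (nat_lit 414),
   .der (nat_lit 1299) (nat_lit 852),
   .prs (.two (nat_lit 7810) (nat_lit 16) (nat_lit 7809) (nat_lit 1) (.two (nat_lit 858) (nat_lit 16) (nat_lit 7811) (nat_lit 1) (.two (nat_lit 2144) (nat_lit 1) (nat_lit 7812) (nat_lit 16) (.two (nat_lit 710) (nat_lit 1) (nat_lit 2740) (nat_lit 16) (.two (nat_lit 3) (nat_lit 1) (nat_lit 4563) (nat_lit 16) (.two (nat_lit 0) (nat_lit 1) (nat_lit 5406) (nat_lit 16) (.one (nat_lit 7218) (nat_lit 1) .nil))))))),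
   .der (nat_lit 18) (nat_lit 435),
   .der (nat_lit 13345) (nat_lit 1557),
   .der (nat_lit 2593) (nat_lit 3141),
   .prs (.two (nat_lit 2473) (nat_lit 8) (nat_lit 7155) (nat_lit 16) (.two (nat_lit 1239) (nat_lit 8) (nat_lit 7814) (nat_lit 16) (.two (nat_lit 956) (nat_lit 16) (nat_lit 7815) (nat_lit 8) (.two (nat_lit 3) (nat_lit 16) (nat_lit 7816) (nat_lit 8) (.two (nat_lit 0) (nat_lit 2) (nat_lit 6344) (nat_lit 8) .nil))))),
   .der (nat_lit 36) (nat_lit 39),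
   .der (nat_lit 87) (nat_lit 946),
   .der (nat_lit 145) (nat_lit 1482),
   .prs (.two (nat_lit 3068) (nat_lit 2) (nat_lit 7818) (nat_lit 4) (.two (nat_lit 676) (nat_lit 8) (nat_lit 3278) (nat_lit 4) (.two (nat_lit 42) (nat_lit 8) (nat_lit 7819) (nat_lit 4) (.two (nat_lit 2) (nat_lit 8) (nat_lit 7820) (nat_lit 2) (.two (nat_lit 1) (nat_lit 8) (nat_lit 4568) (nat_lit 1) (.two (nat_lit 0) (nat_lit 8) (nat_lit 6367) (nat_lit 1) (.one (nat_lit 7221) (nat_lit 1) .nil))))))),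
   .der (nat_lit 8) (nat_lit 992),
   .der (nat_lit 2084) (nat_lit 3413),
   .der (nat_lit 833) (nat_lit 5132),
   .prs (.two (nat_lit 1846) (nat_lit 16) (nat_lit 4842) (nat_lit 2) (.two (nat_lit 13) (nat_lit 16) (nat_lit 7822) (nat_lit 2) (.two (nat_lit 2) (nat_lit 16) (nat_lit 7823) (nat_lit 2) (.two (nat_lit 0) (nat_lit 1) (nat_lit 7824) (nat_lit 2) (.one (nat_lit 6372) (nat_lit 2) .nil))))),
   .der (nat_lit 35) (nat_lit 396),
   .der (nat_lit 117) (nat_lit 1478),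
   .prs (.two (nat_lit 3068) (nat_lit 16) (nat_lit 1355) (nat_lit 4) (.two (nat_lit 509) (nat_lit 4) (nat_lit 7826) (nat_lit 16) (.two (nat_lit 956) (nat_lit 4) (nat_lit 6354) (nat_lit 16) (.two (nat_lit 75) (nat_lit 4) (nat_lit 7827) (nat_lit 16) (.two (nat_lit 1) (nat_lit 4) (nat_lit 3565) (nat_lit 16) (.two (nat_lit 0) (nat_lit 4) (nat_lit 5413) (nat_lit 16) (.one (nat_lit 6375) (nat_lit 4) .nil))))))),
   .der (nat_lit 339) (nat_lit 230),
   .der (nat_lit 1810) (nat_lit 177),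
   .der (nat_lit 13345) (nat_lit 1478),
   .der (nat_lit 152) (nat_lit 3344),
   .prs (.two (nat_lit 2344) (nat_lit 16) (nat_lit 7829) (nat_lit 1) (.two (nat_lit 83) (nat_lit 1) (nat_lit 7830) (nat_lit 16) (.two (nat_lit 758) (nat_lit 1) (nat_lit 6467) (nat_lit 16) (.two (nat_lit 1214) (nat_lit 1) (nat_lit 7831) (nat_lit 16) (.two (nat_lit 3) (nat_lit 1) (nat_lit 7832) (nat_lit 16) (.two (nat_lit 0) (nat_lit 1) (nat_lit 6384) (nat_lit 16) (.one (nat_lit 6390) (nat_lit 1) .nil))))))),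
   .prs (.two (nat_lit 33) (nat_lit 16) (nat_lit 2827) (nat_lit 8) (.two (nat_lit 38) (nat_lit 8) (nat_lit 6074) (nat_lit 16) (.two (nat_lit 3) (nat_lit 8) (nat_lit 7679) (nat_lit 16) (.one (nat_lit 7223) (nat_lit 16) .nil)))),
   .der (nat_lit 103) (nat_lit 271),
   .der (nat_lit 145) (nat_lit 3169),
   .der (nat_lit 7) (nat_lit 4013),
   .prs (.two (nat_lit 3018) (nat_lit 4) (nat_lit 7835) (nat_lit 1) (.two (nat_lit 122) (nat_lit 2) (nat_lit 6306) (nat_lit 4) (.two (nat_lit 482) (nat_lit 1) (nat_lit 6307) (nat_lit 4) (.two (nat_lit 1) (nat_lit 2) (nat_lit 7836) (nat_lit 4) (.two (nat_lit 0) (nat_lit 1) (nat_lit 7837) (nat_lit 2) (.one (nat_lit 7228) (nat_lit 2) .nil)))))),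
   .der (nat_lit 137) (nat_lit 255),
   .der (nat_lit 356) (nat_lit 407),
   .prs (.two (nat_lit 423) (nat_lit 16) (nat_lit 7839) (nat_lit 2) (.two (nat_lit 94) (nat_lit 16) (nat_lit 7840) (nat_lit 2) (.two (nat_lit 65) (nat_lit 2) (nat_lit 6392) (nat_lit 16) (.two (nat_lit 0) (nat_lit 1) (nat_lit 6393) (nat_lit 2) (.one (nat_lit 7229) (nat_lit 2) .nil))))),
   .der (nat_lit 8) (nat_lit 98),
   .der (nat_lit 36) (nat_lit 421),
   .der (nat_lit 5) (nat_lit 4379),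
   .prs (.two (nat_lit 4805) (nat_lit 2) (nat_lit 7842) (nat_lit 16) (.two (nat_lit 145) (nat_lit 16) (nat_lit 7843) (nat_lit 4) (.two (nat_lit 99) (nat_lit 2) (nat_lit 1473) (nat_lit 16) (.two (nat_lit 16) (nat_lit 2) (nat_lit 7844) (nat_lit 4) (.one (nat_lit 6305) (nat_lit 4) .nil))))),
   .der (nat_lit 118) (nat_lit 902),
   .der (nat_lit 1893) (nat_lit 1647),
   .prs (.two (nat_lit 1492) (nat_lit 8) (nat_lit 6896) (nat_lit 4) (.two (nat_lit 1413) (nat_lit 8) (nat_lit 7846) (nat_lit 4) (.two (nat_lit 2) (nat_lit 4) (nat_lit 7847) (nat_lit 8) (.two (nat_lit 1) (nat_lit 4) (nat_lit 3570) (nat_lit 8) (.two (nat_lit 0) (nat_lit 4) (nat_lit 5421) (nat_lit 8) (.one (nat_lit 7233) (nat_lit 8) .nil)))))),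
   .der (nat_lit 103) (nat_lit 187),
   .der (nat_lit 150) (nat_lit 421),
   .der (nat_lit 37425) (nat_lit 2264),
   .der (nat_lit 577) (nat_lit 4332),
   .prs (.two (nat_lit 3366) (nat_lit 8) (nat_lit 7849) (nat_lit 1) (.two (nat_lit 882) (nat_lit 4) (nat_lit 7850) (nat_lit 16) (.two (nat_lit 482) (nat_lit 4) (nat_lit 7851) (nat_lit 8) (.two (nat_lit 3) (nat_lit 4) (nat_lit 7852) (nat_lit 8) (.two (nat_lit 0) (nat_lit 8) (nat_lit 6397) (nat_lit 4) (.one (nat_lit 7236) (nat_lit 8) .nil)))))),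
   .der (nat_lit 1415) (nat_lit 131),
   .der (nat_lit 162) (nat_lit 1047),
   .der (nat_lit 34068) (nat_lit 1186),
   .der (nat_lit 644) (nat_lit 3120),
   .prs (.two (nat_lit 2745) (nat_lit 4) (nat_lit 7854) (nat_lit 1) (.two (nat_lit 825) (nat_lit 4) (nat_lit 7855) (nat_lit 1) (.two (nat_lit 28) (nat_lit 4) (nat_lit 7856) (nat_lit 1) (.two (nat_lit 224) (nat_lit 2) (nat_lit 7857) (nat_lit 1) (.two (nat_lit 0) (nat_lit 1) (nat_lit 6401) (nat_lit 2) (.one (nat_lit 7241) (nat_lit 1) .nil)))))),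
   .der (nat_lit 118) (nat_lit 2412),
   .der (nat_lit 1415) (nat_lit 4336),
   .prs (.two (nat_lit 6849) (nat_lit 16) (nat_lit 6887) (nat_lit 4) (.two (nat_lit 676) (nat_lit 16) (nat_lit 4642) (nat_lit 4) (.two (nat_lit 28) (nat_lit 4) (nat_lit 7859) (nat_lit 16) (.two (nat_lit 11) (nat_lit 2) (nat_lit 7860) (nat_lit 4) (.two (nat_lit 0) (nat_lit 2) (nat_lit 5422) (nat_lit 4) (.one (nat_lit 6308) (nat_lit 2) .nil)))))),
   .der (nat_lit 1395) (nat_lit 906),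
   .der (nat_lit 834) (nat_lit 2342),
   .der (nat_lit 101) (nat_lit 4575),
   .der (nat_lit 6) (nat_lit 6301),
   .prs (.two (nat_lit 5172) (nat_lit 4) (nat_lit 2692) (nat_lit 2) (.two (nat_lit 459) (nat_lit 2) (nat_lit 7862) (nat_lit 4) (.two (nat_lit 206) (nat_lit 2) (nat_lit 7863) (nat_lit 4) (.two (nat_lit 1) (nat_lit 2) (nat_lit 7864) (nat_lit 4) (.one (nat_lit 7865) (nat_lit 2) .nil))))),
   .der (nat_lit 5) (nat_lit 1213),
   .der (nat_lit 2578) (nat_lit 837),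
   .der (nat_lit 5716) (nat_lit 2501),
   .der (nat_lit 801) (nat_lit 3338),
   .prs (.two (nat_lit 4302) (nat_lit 2) (nat_lit 571) (nat_lit 8) (.two (nat_lit 1239) (nat_lit 8) (nat_lit 7867) (nat_lit 2) (.two (nat_lit 543) (nat_lit 2) (nat_lit 7868) (nat_lit 8) (.two (nat_lit 224) (nat_lit 8) (nat_lit 7869) (nat_lit 1) (.two (nat_lit 46) (nat_lit 2) (nat_lit 7870) (nat_lit 1) (.two (nat_lit 0) (nat_lit 1) (nat_lit 6407) (nat_lit 2) (.one (nat_lit 7242) (nat_lit 2) .nil))))))),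
   .der (nat_lit 1890) (nat_lit 123),
   .der (nat_lit 1650) (nat_lit 35),
   .der (nat_lit 882) (nat_lit 592),
   .der (nat_lit 24916) (nat_lit 824),
   .der (nat_lit 1893) (nat_lit 3338),
   .prs (.two (nat_lit 7873) (nat_lit 8) (nat_lit 7872) (nat_lit 4) (.two (nat_lit 676) (nat_lit 8) (nat_lit 7874) (nat_lit 4) (.two (nat_lit 404) (nat_lit 1) (nat_lit 7875) (nat_lit 8) (.two (nat_lit 7) (nat_lit 1) (nat_lit 6346) (nat_lit 4) (.two (nat_lit 3) (nat_lit 1) (nat_lit 7876) (nat_lit 4) (.two (nat_lit 0) (nat_lit 1) (nat_lit 5425) (nat_lit 4) (.one (nat_lit 6411) (nat_lit 1) .nil))))))),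
   .der (nat_lit 2193) (nat_lit 187),
   .der (nat_lit 150) (nat_lit 1088),
   .der (nat_lit 9) (nat_lit 2679),
   .prs (.two (nat_lit 3366) (nat_lit 8) (nat_lit 2473) (nat_lit 1) (.two (nat_lit 13) (nat_lit 4) (nat_lit 7878) (nat_lit 8) (.two (nat_lit 370) (nat_lit 1) (nat_lit 7879) (nat_lit 4) (.two (nat_lit 2) (nat_lit 4) (nat_lit 7880) (nat_lit 16) (.two (nat_lit 3) (nat_lit 4) (nat_lit 4579) (nat_lit 8) (.two (nat_lit 0) (nat_lit 8) (nat_lit 6414) (nat_lit 4) (.one (nat_lit 7246) (nat_lit 4) .nil))))))),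
   .der (nat_lit 6) (nat_lit 73),
   .der (nat_lit 1893) (nat_lit 923),
   .der (nat_lit 2593) (nat_lit 3308),
   .der (nat_lit 1430) (nat_lit 4252),
   .prs (.two (nat_lit 7882) (nat_lit 16) (nat_lit 645) (nat_lit 1) (.two (nat_lit 80) (nat_lit 8) (nat_lit 7883) (nat_lit 16) (.two (nat_lit 78) (nat_lit 1) (nat_lit 7884) (nat_lit 8) (.two (nat_lit 0) (nat_lit 2) (nat_lit 7885) (nat_lit 16) (.one (nat_lit 6418) (nat_lit 1) .nil))))),
   .der (nat_lit 1810) (nat_lit 1438),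
   .prs (.two (nat_lit 794) (nat_lit 2) (nat_lit 4643) (nat_lit 4) (.two (nat_lit 1) (nat_lit 2) (nat_lit 7887) (nat_lit 1) (.two (nat_lit 0) (nat_lit 1) (nat_lit 6452) (nat_lit 4) (.one (nat_lit 7249) (nat_lit 2) .nil)))),
   .der (nat_lit 834) (nat_lit 84),
   .der (nat_lit 612) (nat_lit 21),
   .der (nat_lit 1107) (nat_lit 1400),
   .prs (.two (nat_lit 6491) (nat_lit 4) (nat_lit 7889) (nat_lit 1) (.two (nat_lit 7890) (nat_lit 4) (nat_lit 3932) (nat_lit 1) (.two (nat_lit 134) (nat_lit 4) (nat_lit 7891) (nat_lit 1) (.two (nat_lit 11) (nat_lit 1) (nat_lit 5516) (nat_lit 4) (.one (nat_lit 6486) (nat_lit 1) .nil))))),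
   .der (nat_lit 84) (nat_lit 172),
   .prs (.two (nat_lit 415) (nat_lit 16) (nat_lit 7893) (nat_lit 1) (.two (nat_lit 12) (nat_lit 1) (nat_lit 5531) (nat_lit 16) (.two (nat_lit 1) (nat_lit 2) (nat_lit 4734) (nat_lit 16) (.two (nat_lit 0) (nat_lit 1) (nat_lit 5520) (nat_lit 2) (.one (nat_lit 7258) (nat_lit 2) .nil))))),
   .der (nat_lit 8) (nat_lit 67),
   .der (nat_lit 5716) (nat_lit 1478),
   .der (nat_lit 5) (nat_lit 3344),
   .prs (.two (nat_lit 7895) (nat_lit 8) (nat_lit 3411) (nat_lit 4) (.two (nat_lit 105) (nat_lit 8) (nat_lit 6003) (nat_lit 4) (.two (nat_lit 6) (nat_lit 8) (nat_lit 7896) (nat_lit 2) (.two (nat_lit 1) (nat_lit 8) (nat_lit 7897) (nat_lit 2) (.two (nat_lit 0) (nat_lit 8) (nat_lit 6490) (nat_lit 2) (.one (nat_lit 7262) (nat_lit 16) .nil)))))),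
   .der (nat_lit 2339) (nat_lit 90),
   .der (nat_lit 1300) (nat_lit 827),
   .prs (.two (nat_lit 415) (nat_lit 16) (nat_lit 7899) (nat_lit 4) (.two (nat_lit 825) (nat_lit 16) (nat_lit 7900) (nat_lit 4) (.two (nat_lit 2) (nat_lit 4) (nat_lit 5531) (nat_lit 16) (.two (nat_lit 3) (nat_lit 4) (nat_lit 4734) (nat_lit 16) (.two (nat_lit 0) (nat_lit 1) (nat_lit 5524) (nat_lit 4) (.one (nat_lit 6494) (nat_lit 4) .nil)))))),
   .der (nat_lit 20) (nat_lit 72),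
   .der (nat_lit 4) (nat_lit 417),
   .der (nat_lit 33) (nat_lit 4038),
   .prs (.two (nat_lit 7902) (nat_lit 2) (nat_lit 1305) (nat_lit 1) (.two (nat_lit 3930) (nat_lit 2) (nat_lit 7903) (nat_lit 1) (.two (nat_lit 308) (nat_lit 2) (nat_lit 6126) (nat_lit 1) (.two (nat_lit 46) (nat_lit 2) (nat_lit 7904) (nat_lit 1) (.one (nat_lit 7263) (nat_lit 1) .nil))))),
   .der (nat_lit 86) (nat_lit 77),
   .der (nat_lit 152) (nat_lit 4038),
   .prs (.two (nat_lit 7906) (nat_lit 16) (nat_lit 2265) (nat_lit 2) (.two (nat_lit 616) (nat_lit 2) (nat_lit 4187) (nat_lit 16) (.two (nat_lit 1) (nat_lit 4) (nat_lit 6487) (nat_lit 16) (.two (nat_lit 0) (nat_lit 2) (nat_lit 7907) (nat_lit 16) (.one (nat_lit 7266) (nat_lit 4) .nil))))),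
   .der (nat_lit 5716) (nat_lit 234),
   .der (nat_lit 103) (nat_lit 558),
   .der (nat_lit 49) (nat_lit 3999),
   .der (nat_lit 2) (nat_lit 6464),
   .prs (.two (nat_lit 2631) (nat_lit 16) (nat_lit 7909) (nat_lit 4) (.two (nat_lit 86) (nat_lit 16) (nat_lit 7910) (nat_lit 1) (.two (nat_lit 12) (nat_lit 1) (nat_lit 5562) (nat_lit 16) (.two (nat_lit 1) (nat_lit 4) (nat_lit 7911) (nat_lit 1) (.one (nat_lit 7912) (nat_lit 4) .nil))))),
   .der (nat_lit 161) (nat_lit 76),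
   .der (nat_lit 22803) (nat_lit 3180),
   .prs (.two (nat_lit 593) (nat_lit 16) (nat_lit 7914) (nat_lit 1) (.two (nat_lit 440) (nat_lit 2) (nat_lit 6514) (nat_lit 16) (.two (nat_lit 1) (nat_lit 2) (nat_lit 7915) (nat_lit 16) (.two (nat_lit 0) (nat_lit 1) (nat_lit 5563) (nat_lit 2) (.one (nat_lit 6545) (nat_lit 1) .nil))))),
   .der (nat_lit 30226) (nat_lit 192),
   .der (nat_lit 49) (nat_lit 2376),
   .der (nat_lit 1057) (nat_lit 6372),
   .prs (.two (nat_lit 3467) (nat_lit 16) (nat_lit 7917) (nat_lit 1) (.two (nat_lit 6) (nat_lit 4) (nat_lit 3238) (nat_lit 16) (.two (nat_lit 384) (nat_lit 1) (nat_lit 7918) (nat_lit 16) (.two (nat_lit 0) (nat_lit 16) (nat_lit 7919) (nat_lit 4) .nil)))),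
   .der (nat_lit 21092) (nat_lit 373),
   .prs (.two (nat_lit 6927) (nat_lit 16) (nat_lit 7921) (nat_lit 2) (.two (nat_lit 36) (nat_lit 2) (nat_lit 6514) (nat_lit 16) (.two (nat_lit 11) (nat_lit 2) (nat_lit 6515) (nat_lit 16) (.two (nat_lit 0) (nat_lit 2) (nat_lit 5568) (nat_lit 16) (.one (nat_lit 7285) (nat_lit 2) .nil))))),
   .der (nat_lit 21107) (nat_lit 852),
   .prs (.two (nat_lit 105) (nat_lit 16) (nat_lit 7923) (nat_lit 4) (.two (nat_lit 1) (nat_lit 16) (nat_lit 4770) (nat_lit 4) (.one (nat_lit 6548) (nat_lit 4) .nil))),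
   .der (nat_lit 86) (nat_lit 101),
   .der (nat_lit 561) (nat_lit 72),
   .prs (.two (nat_lit 7926) (nat_lit 16) (nat_lit 7925) (nat_lit 4) (.two (nat_lit 105) (nat_lit 16) (nat_lit 7923) (nat_lit 4) (.two (nat_lit 2) (nat_lit 16) (nat_lit 2928) (nat_lit 4) (.two (nat_lit 1) (nat_lit 16) (nat_lit 4770) (nat_lit 4) (.two (nat_lit 0) (nat_lit 8) (nat_lit 6548) (nat_lit 4) (.one (nat_lit 7286) (nat_lit 4) .nil)))))),
   .der (nat_lit 19) (nat_lit 39),
   .der (nat_lit 6) (nat_lit 2249),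
   .der (nat_lit 145) (nat_lit 4028),
   .prs (.two (nat_lit 7928) (nat_lit 16) (nat_lit 1746) (nat_lit 2) (.two (nat_lit 129) (nat_lit 4) (nat_lit 1556) (nat_lit 16) (.two (nat_lit 34) (nat_lit 2) (nat_lit 7929) (nat_lit 16) (.two (nat_lit 0) (nat_lit 2) (nat_lit 7930) (nat_lit 4) (.one (nat_lit 6554) (nat_lit 4) .nil))))),
   .der (nat_lit 2113) (nat_lit 73),
   .der (nat_lit 1073) (nat_lit 64),
   .der (nat_lit 10545) (nat_lit 1078),
   .der (nat_lit 7) (nat_lit 2808),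
   .der (nat_lit 118) (nat_lit 3305),
   .der (nat_lit 22803) (nat_lit 4002),
   .prs (.two (nat_lit 7933) (nat_lit 16) (nat_lit 7932) (nat_lit 1) (.two (nat_lit 858) (nat_lit 16) (nat_lit 7934) (nat_lit 1) (.two (nat_lit 374) (nat_lit 16) (nat_lit 7935) (nat_lit 2) (.two (nat_lit 1) (nat_lit 16) (nat_lit 7936) (nat_lit 2) (.two (nat_lit 0) (nat_lit 1) (nat_lit 7937) (nat_lit 2) (.one (nat_lit 6557) (nat_lit 1) .nil)))))),
   .der (nat_lit 801) (nat_lit 110),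
   .der (nat_lit 1415) (nat_lit 1419),
   .der (nat_lit 5716) (nat_lit 4645),
   .prs (.two (nat_lit 1492) (nat_lit 8) (nat_lit 7939) (nat_lit 1) (.two (nat_lit 1582) (nat_lit 1) (nat_lit 4763) (nat_lit 8) (.two (nat_lit 75) (nat_lit 4) (nat_lit 7940) (nat_lit 1) (.two (nat_lit 1) (nat_lit 4) (nat_lit 7941) (nat_lit 1) (.two (nat_lit 0) (nat_lit 4) (nat_lit 5576) (nat_lit 1) (.one (nat_lit 7291) (nat_lit 1) .nil)))))),
   .der (nat_lit 1620) (nat_lit 59),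
   .der (nat_lit 1380) (nat_lit 371),
   .der (nat_lit 9) (nat_lit 5557),
   .prs (.two (nat_lit 1382) (nat_lit 16) (nat_lit 7943) (nat_lit 1) (.two (nat_lit 71) (nat_lit 16) (nat_lit 7944) (nat_lit 1) (.two (nat_lit 30) (nat_lit 1) (nat_lit 6514) (nat_lit 16) (.two (nat_lit 11) (nat_lit 1) (nat_lit 6515) (nat_lit 16) (.two (nat_lit 0) (nat_lit 16) (nat_lit 7945) (nat_lit 1) (.one (nat_lit 7294) (nat_lit 1) .nil)))))),
   .der (nat_lit 370) (nat_lit 194),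
   .der (nat_lit 18) (nat_lit 6464),
   .prs (.two (nat_lit 3382) (nat_lit 16) (nat_lit 7947) (nat_lit 2) (.two (nat_lit 94) (nat_lit 16) (nat_lit 3524) (nat_lit 2) (.two (nat_lit 227) (nat_lit 2) (nat_lit 5609) (nat_lit 16) (.two (nat_lit 3) (nat_lit 4) (nat_lit 6544) (nat_lit 2) (.one (nat_lit 7948) (nat_lit 4) .nil))))),
   .der (nat_lit 83) (nat_lit 421),
   .der (nat_lit 49) (nat_lit 2372),
   .prs (.two (nat_lit 3467) (nat_lit 16) (nat_lit 1587) (nat_lit 1) (.two (nat_lit 1582) (nat_lit 1) (nat_lit 7950) (nat_lit 16) (.two (nat_lit 7) (nat_lit 1) (nat_lit 7951) (nat_lit 16) (.two (nat_lit 0) (nat_lit 1) (nat_lit 5580) (nat_lit 16) (.one (nat_lit 7298) (nat_lit 16) .nil))))),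
   .der (nat_lit 1300) (nat_lit 87),
   .der (nat_lit 1300) (nat_lit 435),
   .der (nat_lit 103) (nat_lit 2372),
   .der (nat_lit 2433) (nat_lit 4028),
   .prs (.two (nat_lit 2736) (nat_lit 8) (nat_lit 7953) (nat_lit 4) (.two (nat_lit 502) (nat_lit 8) (nat_lit 7954) (nat_lit 4) (.two (nat_lit 129) (nat_lit 4) (nat_lit 7955) (nat_lit 8) (.two (nat_lit 0) (nat_lit 2) (nat_lit 7956) (nat_lit 4) (.one (nat_lit 6559) (nat_lit 8) .nil))))),
   .der (nat_lit 84) (nat_lit 98),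
   .der (nat_lit 4978) (nat_lit 73),
   .der (nat_lit 1620) (nat_lit 421),
   .der (nat_lit 147) (nat_lit 1428),
   .der (nat_lit 150) (nat_lit 4233),
   .prs (.two (nat_lit 7959) (nat_lit 1) (nat_lit 7958) (nat_lit 4) (.two (nat_lit 2029) (nat_lit 4) (nat_lit 7960) (nat_lit 1) (.two (nat_lit 224) (nat_lit 1) (nat_lit 7961) (nat_lit 4) (.two (nat_lit 11) (nat_lit 1) (nat_lit 7284) (nat_lit 4) (.two (nat_lit 0) (nat_lit 1) (nat_lit 7962) (nat_lit 4) (.one (nat_lit 6562) (nat_lit 4) .nil)))))),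
   .der (nat_lit 1299) (nat_lit 1022),
   .prs (.two (nat_lit 390) (nat_lit 8) (nat_lit 6577) (nat_lit 2) (.two (nat_lit 808) (nat_lit 8) (nat_lit 1306) (nat_lit 2) (.two (nat_lit 25) (nat_lit 2) (nat_lit 7964) (nat_lit 8) (.two (nat_lit 1) (nat_lit 2) (nat_lit 2931) (nat_lit 8) (.two (nat_lit 0) (nat_lit 2) (nat_lit 4783) (nat_lit 8) (.one (nat_lit 6573) (nat_lit 1) .nil)))))),
   .der (nat_lit 2339) (nat_lit 177),
   .der (nat_lit 801) (nat_lit 907),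
   .der (nat_lit 1380) (nat_lit 2373),
   .prs (.two (nat_lit 3004) (nat_lit 8) (nat_lit 7966) (nat_lit 1) (.two (nat_lit 167) (nat_lit 1) (nat_lit 7967) (nat_lit 8) (.two (nat_lit 356) (nat_lit 1) (nat_lit 7968) (nat_lit 8) (.two (nat_lit 11) (nat_lit 1) (nat_lit 3755) (nat_lit 8) (.two (nat_lit 0) (nat_lit 1) (nat_lit 6567) (nat_lit 8) (.one (nat_lit 7299) (nat_lit 8) .nil)))))),
   .der (nat_lit 7) (nat_lit 126),
   .der (nat_lit 1300) (nat_lit 74),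
   .prs (.two (nat_lit 7971) (nat_lit 4) (nat_lit 7970) (nat_lit 2) (.two (nat_lit 1095) (nat_lit 2) (nat_lit 6156) (nat_lit 4) (.two (nat_lit 16) (nat_lit 2) (nat_lit 3756) (nat_lit 4) (.two (nat_lit 0) (nat_lit 2) (nat_lit 4772) (nat_lit 4) (.one (nat_lit 6557) (nat_lit 4) .nil))))),
   .der (nat_lit 2135) (nat_lit 263),
   .der (nat_lit 35) (nat_lit 421),
   .der (nat_lit 137) (nat_lit 3573),
   .der (nat_lit 340) (nat_lit 4223),
   .prs (.two (nat_lit 3794) (nat_lit 2) (nat_lit 7973) (nat_lit 1) (.two (nat_lit 13) (nat_lit 16) (nat_lit 7974) (nat_lit 1) (.two (nat_lit 463) (nat_lit 16) (nat_lit 7975) (nat_lit 8) (.two (nat_lit 3) (nat_lit 16) (nat_lit 7976) (nat_lit 1) (.two (nat_lit 0) (nat_lit 8) (nat_lit 5584) (nat_lit 2) (.one (nat_lit 7301) (nat_lit 1) .nil)))))),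
   .der (nat_lit 24916) (nat_lit 118),
   .prs (.two (nat_lit 127) (nat_lit 16) (nat_lit 7978) (nat_lit 2) (.two (nat_lit 998) (nat_lit 2) (nat_lit 4831) (nat_lit 16) (.two (nat_lit 11) (nat_lit 2) (nat_lit 6514) (nat_lit 16) (.two (nat_lit 0) (nat_lit 2) (nat_lit 4785) (nat_lit 16) (.one (nat_lit 7305) (nat_lit 16) .nil))))),
   .der (nat_lit 6) (nat_lit 545),
   .der (nat_lit 882) (nat_lit 1907),
   .prs (.two (nat_lit 2829) (nat_lit 8) (nat_lit 7980) (nat_lit 4) (.two (nat_lit 440) (nat_lit 8) (nat_lit 7981) (nat_lit 4) (.two (nat_lit 882) (nat_lit 4) (nat_lit 4008) (nat_lit 8) (.two (nat_lit 519) (nat_lit 4) (nat_lit 2203) (nat_lit 2) (.two (nat_lit 1) (nat_lit 2) (nat_lit 4010) (nat_lit 4) (.two (nat_lit 0) (nat_lit 4) (nat_lit 6587) (nat_lit 2) (.one (nat_lit 7310) (nat_lit 2) .nil))))))),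
   .der (nat_lit 801) (nat_lit 892),
   .der (nat_lit 1) (nat_lit 1558),
   .der (nat_lit 147) (nat_lit 2472),
   .der (nat_lit 8) (nat_lit 5039),
   .prs (.two (nat_lit 73) (nat_lit 4) (nat_lit 2566) (nat_lit 8) (.two (nat_lit 520) (nat_lit 4) (nat_lit 7983) (nat_lit 8) (.two (nat_lit 2073) (nat_lit 8) (nat_lit 7984) (nat_lit 2) (.two (nat_lit 2090) (nat_lit 8) (nat_lit 7985) (nat_lit 2) (.two (nat_lit 1) (nat_lit 2) (nat_lit 4010) (nat_lit 4) (.two (nat_lit 0) (nat_lit 16) (nat_lit 7986) (nat_lit 2) (.one (nat_lit 7313) (nat_lit 2) .nil))))))),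
   .der (nat_lit 1810) (nat_lit 681),
   .der (nat_lit 145) (nat_lit 850),
   .der (nat_lit 612) (nat_lit 1473),
   .der (nat_lit 354) (nat_lit 2210),
   .der (nat_lit 612) (nat_lit 3161),
   .der (nat_lit 9) (nat_lit 6562),
   .prs (.two (nat_lit 4380) (nat_lit 16) (nat_lit 7988) (nat_lit 4) (.two (nat_lit 94) (nat_lit 16) (nat_lit 7989) (nat_lit 4) (.two (nat_lit 791) (nat_lit 16) (nat_lit 7990) (nat_lit 4) (.two (nat_lit 463) (nat_lit 4) (nat_lit 7991) (nat_lit 16) (.two (nat_lit 1) (nat_lit 16) (nat_lit 7992) (nat_lit 4) (.two (nat_lit 0) (nat_lit 4) (nat_lit 7993) (nat_lit 16) (.one (nat_lit 7329) (nat_lit 4) .nil))))))),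
   .der (nat_lit 145) (nat_lit 504),
   .der (nat_lit 49) (nat_lit 2194),
   .der (nat_lit 561) (nat_lit 3152),
   .der (nat_lit 65) (nat_lit 4020),
   .der (nat_lit 66) (nat_lit 6022)]

theorem b5_step15 (h : ∀ j < 7500, Good b5T j) : ∀ j < 8000, Good b5T j := by
  intro j hj
  refine chkL_ok b5C15 7500 h (by decide +kernel) j ?_
  have h : b5C15.length = 500 := by decide +kernel
  omega


end Tab

end Pool.Agent.Work.MP_bf01b2_co.MR
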