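import Pool.Agent.Work.MP_bf01b2_co.MR.B5T

set_option maxRecDepth 100000

namespace Pool.Agent.Work.MP_bf01b2_co.MR

namespace Tab

/-- certificates 8000..8500 -/
def b5C16 : List Cf :=
  [.der (nat_lit 2390) (nat_lit 6845),
   .prs (.two (nat_lit 415) (nat_lit 16) (nat_lit 7995) (nat_lit 8) (.two (nat_lit 80) (nat_lit 8) (nat_lit 3168) (nat_lit 16) (.two (nat_lit 227) (nat_lit 8) (nat_lit 7996) (nat_lit 16) (.two (nat_lit 34) (nat_lit 8) (nat_lit 7997) (nat_lit 4) (.two (nat_lit 1) (nat_lit 8) (nat_lit 7998) (nat_lit 16) (.two (nat_lit 0) (nat_lit 4) (nat_lit 7999) (nat_lit 16) (.one (nat_lit 8000) (nat_lit 8) .nil))))))),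
   .der (nat_lit 644) (nat_lit 495),
   .der (nat_lit 3) (nat_lit 3716),
   .der (nat_lit 801) (nat_lit 6507),
   .prs (.two (nat_lit 33) (nat_lit 16) (nat_lit 8002) (nat_lit 8) (.two (nat_lit 528) (nat_lit 8) (nat_lit 5094) (nat_lit 16) (.two (nat_lit 1) (nat_lit 8) (nat_lit 8003) (nat_lit 16) (.two (nat_lit 0) (nat_lit 1) (nat_lit 8004) (nat_lit 8) .nil)))),
   .der (nat_lit 10545) (nat_lit 39),
   .der (nat_lit 5716) (nat_lit 1741),
   .der (nat_lit 2) (nat_lit 2227),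
   .der (nat_lit 49) (nat_lit 4365),
   .prs (.two (nat_lit 8006) (nat_lit 4) (nat_lit 1174) (nat_lit 16) (.two (nat_lit 83) (nat_lit 4) (nat_lit 4344) (nat_lit 16) (.two (nat_lit 758) (nat_lit 4) (nat_lit 1411) (nat_lit 16) (.two (nat_lit 214) (nat_lit 4) (nat_lit 8007) (nat_lit 16) (.two (nat_lit 3) (nat_lit 4) (nat_lit 8008) (nat_lit 16) (.two (nat_lit 0) (nat_lit 1) (nat_lit 8009) (nat_lit 4) (.one (nat_lit 6642) (nat_lit 16) .nil))))))),
   .der (nat_lit 22548) (nat_lit 82),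
   .der (nat_lit 1430) (nat_lit 837),
   .der (nat_lit 577) (nat_lit 2342),
   .der (nat_lit 33) (nat_lit 5595),
   .prs (.two (nat_lit 5564) (nat_lit 2) (nat_lit 3510) (nat_lit 4) (.two (nat_lit 676) (nat_lit 4) (nat_lit 8011) (nat_lit 2) (.two (nat_lit 209) (nat_lit 4) (nat_lit 8012) (nat_lit 2) (.two (nat_lit 178) (nat_lit 4) (nat_lit 8013) (nat_lit 2) (.two (nat_lit 1) (nat_lit 4) (nat_lit 3854) (nat_lit 2) (.two (nat_lit 0) (nat_lit 16) (nat_lit 8014) (nat_lit 4) (.one (nat_lit 6645) (nat_lit 4) .nil))))))),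
   .der (nat_lit 66) (nat_lit 95),
   .der (nat_lit 1890) (nat_lit 495),
   .der (nat_lit 162) (nat_lit 1478),
   .prs (.two (nat_lit 1848) (nat_lit 4) (nat_lit 8016) (nat_lit 1) (.two (nat_lit 1767) (nat_lit 4) (nat_lit 8017) (nat_lit 1) (.two (nat_lit 178) (nat_lit 4) (nat_lit 8018) (nat_lit 1) (.two (nat_lit 0) (nat_lit 16) (nat_lit 4886) (nat_lit 1) (.one (nat_lit 6651) (nat_lit 1) .nil))))),
   .der (nat_lit 137) (nat_lit 453),
   .der (nat_lit 2135) (nat_lit 2557),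
   .der (nat_lit 1650) (nat_lit 5079),
   .prs (.two (nat_lit 33) (nat_lit 16) (nat_lit 3448) (nat_lit 2) (.two (nat_lit 440) (nat_lit 16) (nat_lit 8020) (nat_lit 4) (.two (nat_lit 42) (nat_lit 4) (nat_lit 1723) (nat_lit 2) (.two (nat_lit 9) (nat_lit 4) (nat_lit 8021) (nat_lit 16) (.two (nat_lit 1) (nat_lit 2) (nat_lit 6063) (nat_lit 4) (.two (nat_lit 0) (nat_lit 4) (nat_lit 6654) (nat_lit 2) (.one (nat_lit 8022) (nat_lit 2) .nil))))))),
   .der (nat_lit 8) (nat_lit 73),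
   .der (nat_lit 147) (nat_lit 1022),
   .der (nat_lit 1556) (nat_lit 1438),
   .der (nat_lit 659) (nat_lit 2188),
   .der (nat_lit 18) (nat_lit 5183),
   .der (nat_lit 165) (nat_lit 5832),
   .prs (.two (nat_lit 8024) (nat_lit 4) (nat_lit 1722) (nat_lit 16) (.two (nat_lit 32) (nat_lit 16) (nat_lit 8025) (nat_lit 4) (.two (nat_lit 456) (nat_lit 4) (nat_lit 8026) (nat_lit 1) (.two (nat_lit 7) (nat_lit 16) (nat_lit 8027) (nat_lit 4) (.two (nat_lit 3) (nat_lit 4) (nat_lit 8028) (nat_lit 1) (.two (nat_lit 0) (nat_lit 4) (nat_lit 8029) (nat_lit 16) (.one (nat_lit 7360) (nat_lit 1) .nil))))))),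
   .der (nat_lit 20) (nat_lit 1271),
   .der (nat_lit 33) (nat_lit 1088),
   .der (nat_lit 2193) (nat_lit 3147),
   .prs (.two (nat_lit 33) (nat_lit 16) (nat_lit 6489) (nat_lit 1) (.two (nat_lit 13) (nat_lit 16) (nat_lit 8031) (nat_lit 4) (.two (nat_lit 30) (nat_lit 16) (nat_lit 8032) (nat_lit 4) (.two (nat_lit 99) (nat_lit 1) (nat_lit 2528) (nat_lit 16) (.two (nat_lit 16) (nat_lit 1) (nat_lit 8033) (nat_lit 4) (.two (nat_lit 0) (nat_lit 1) (nat_lit 6659) (nat_lit 4) (.one (nat_lit 6662) (nat_lit 4) .nil))))))),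
   .der (nat_lit 6) (nat_lit 425),
   .der (nat_lit 801) (nat_lit 3122),
   .prs (.two (nat_lit 5389) (nat_lit 16) (nat_lit 2690) (nat_lit 2) (.two (nat_lit 676) (nat_lit 16) (nat_lit 8035) (nat_lit 4) (.two (nat_lit 1214) (nat_lit 8) (nat_lit 8036) (nat_lit 16) (.one (nat_lit 5681) (nat_lit 16) .nil)))),
   .der (nat_lit 5971) (nat_lit 172),
   .der (nat_lit 22803) (nat_lit 2021),
   .der (nat_lit 659) (nat_lit 2391),
   .der (nat_lit 83) (nat_lit 3188),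
   .der (nat_lit 2) (nat_lit 4137),
   .prs (.two (nat_lit 415) (nat_lit 1) (nat_lit 8038) (nat_lit 2) (.two (nat_lit 404) (nat_lit 1) (nat_lit 8039) (nat_lit 2) (.two (nat_lit 173) (nat_lit 1) (nat_lit 8040) (nat_lit 4) (.two (nat_lit 16) (nat_lit 4) (nat_lit 8041) (nat_lit 2) (.two (nat_lit 0) (nat_lit 1) (nat_lit 8042) (nat_lit 4) (.one (nat_lit 7370) (nat_lit 2) .nil)))))),
   .der (nat_lit 33) (nat_lit 4360),
   .der (nat_lit 1073) (nat_lit 6006),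
   .prs (.two (nat_lit 33) (nat_lit 16) (nat_lit 7365) (nat_lit 8) (.two (nat_lit 676) (nat_lit 16) (nat_lit 7366) (nat_lit 4) (.two (nat_lit 723) (nat_lit 4) (nat_lit 2171) (nat_lit 16) (.two (nat_lit 0) (nat_lit 4) (nat_lit 8044) (nat_lit 16) (.one (nat_lit 8045) (nat_lit 8) .nil))))),
   .der (nat_lit 6) (nat_lit 5095),
   .prs (.two (nat_lit 1477) (nat_lit 4) (nat_lit 1460) (nat_lit 16) (.two (nat_lit 1095) (nat_lit 4) (nat_lit 5278) (nat_lit 16) (.two (nat_lit 433) (nat_lit 4) (nat_lit 3116) (nat_lit 16) (.two (nat_lit 0) (nat_lit 1) (nat_lit 8047) (nat_lit 16) (.one (nat_lit 7381) (nat_lit 4) .nil))))),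
   .der (nat_lit 114) (nat_lit 303),
   .der (nat_lit 1875) (nat_lit 77),
   .der (nat_lit 165) (nat_lit 2385),
   .prs (.two (nat_lit 8050) (nat_lit 2) (nat_lit 8049) (nat_lit 1) (.two (nat_lit 440) (nat_lit 2) (nat_lit 6688) (nat_lit 8) (.two (nat_lit 22) (nat_lit 1) (nat_lit 8051) (nat_lit 8) (.two (nat_lit 1) (nat_lit 2) (nat_lit 3885) (nat_lit 1) (.two (nat_lit 0) (nat_lit 8) (nat_lit 5696) (nat_lit 1) (.one (nat_lit 7384) (nat_lit 1) .nil)))))),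
   .der (nat_lit 1430) (nat_lit 199),
   .der (nat_lit 10545) (nat_lit 1824),
   .der (nat_lit 1299) (nat_lit 5953),
   .prs (.two (nat_lit 423) (nat_lit 16) (nat_lit 8053) (nat_lit 4) (.two (nat_lit 676) (nat_lit 16) (nat_lit 8054) (nat_lit 4) (.two (nat_lit 489) (nat_lit 4) (nat_lit 7458) (nat_lit 16) (.two (nat_lit 1) (nat_lit 4) (nat_lit 7459) (nat_lit 16) (.two (nat_lit 0) (nat_lit 4) (nat_lit 8055) (nat_lit 1) .nil))))),
   .der (nat_lit 801) (nat_lit 192),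
   .der (nat_lit 18) (nat_lit 1412),
   .der (nat_lit 2578) (nat_lit 4275),
   .prs (.two (nat_lit 33) (nat_lit 8) (nat_lit 2245) (nat_lit 1) (.two (nat_lit 440) (nat_lit 8) (nat_lit 8057) (nat_lit 1) (.two (nat_lit 6) (nat_lit 8) (nat_lit 6538) (nat_lit 2) (.two (nat_lit 2) (nat_lit 16) (nat_lit 8058) (nat_lit 2) (.two (nat_lit 1) (nat_lit 16) (nat_lit 8059) (nat_lit 1) (.two (nat_lit 0) (nat_lit 1) (nat_lit 6704) (nat_lit 2) (.one (nat_lit 7386) (nat_lit 1) .nil))))))),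
   .der (nat_lit 7) (nat_lit 21),
   .der (nat_lit 1430) (nat_lit 3144),
   .prs (.two (nat_lit 4380) (nat_lit 16) (nat_lit 6425) (nat_lit 2) (.two (nat_lit 8061) (nat_lit 2) (nat_lit 2337) (nat_lit 16) (.two (nat_lit 528) (nat_lit 2) (nat_lit 4091) (nat_lit 16) (.two (nat_lit 1) (nat_lit 2) (nat_lit 8062) (nat_lit 16) (.one (nat_lit 6709) (nat_lit 16) .nil))))),
   .der (nat_lit 1) (nat_lit 892),
   .der (nat_lit 145) (nat_lit 7182),
   .prs (.two (nat_lit 33) (nat_lit 8) (nat_lit 4814) (nat_lit 4) (.two (nat_lit 6) (nat_lit 8) (nat_lit 8064) (nat_lit 4) (.two (nat_lit 99) (nat_lit 16) (nat_lit 7601) (nat_lit 8) (.two (nat_lit 0) (nat_lit 16) (nat_lit 4032) (nat_lit 4) (.one (nat_lit 8065) (nat_lit 16) .nil))))),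
   .der (nat_lit 659) (nat_lit 182),
   .der (nat_lit 1122) (nat_lit 1897),
   .prs (.two (nat_lit 1480) (nat_lit 2) (nat_lit 8067) (nat_lit 1) (.two (nat_lit 1528) (nat_lit 2) (nat_lit 8068) (nat_lit 1) (.two (nat_lit 1) (nat_lit 2) (nat_lit 4954) (nat_lit 1) (.two (nat_lit 0) (nat_lit 2) (nat_lit 6722) (nat_lit 1) (.one (nat_lit 7388) (nat_lit 2) .nil))))),
   .der (nat_lit 132) (nat_lit 104),
   .der (nat_lit 1430) (nat_lit 162),
   .der (nat_lit 1073) (nat_lit 477),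
   .der (nat_lit 1415) (nat_lit 897),
   .prs (.two (nat_lit 8071) (nat_lit 2) (nat_lit 8070) (nat_lit 1) (.two (nat_lit 410) (nat_lit 1) (nat_lit 8072) (nat_lit 2) (.two (nat_lit 1333) (nat_lit 1) (nat_lit 8073) (nat_lit 2) (.two (nat_lit 434) (nat_lit 1) (nat_lit 3069) (nat_lit 2) (.two (nat_lit 11) (nat_lit 1) (nat_lit 5729) (nat_lit 2) (.two (nat_lit 0) (nat_lit 2) (nat_lit 6714) (nat_lit 1) (.one (nat_lit 6718) (nat_lit 2) .nil))))))),
   .der (nat_lit 356) (nat_lit 76),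
   .der (nat_lit 834) (nat_lit 1711),
   .der (nat_lit 801) (nat_lit 5598),
   .prs (.two (nat_lit 3967) (nat_lit 2) (nat_lit 8075) (nat_lit 1) (.two (nat_lit 1848) (nat_lit 2) (nat_lit 1762) (nat_lit 1) (.two (nat_lit 489) (nat_lit 2) (nat_lit 8076) (nat_lit 1) (.two (nat_lit 170) (nat_lit 2) (nat_lit 3924) (nat_lit 1) (.two (nat_lit 1) (nat_lit 2) (nat_lit 5752) (nat_lit 1) (.two (nat_lit 0) (nat_lit 4) (nat_lit 8077) (nat_lit 2) (.one (nat_lit 6745) (nat_lit 2) .nil))))))),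
   .der (nat_lit 9) (nat_lit 126),
   .der (nat_lit 20) (nat_lit 1880),
   .prs (.two (nat_lit 6158) (nat_lit 16) (nat_lit 8079) (nat_lit 4) (.two (nat_lit 86) (nat_lit 4) (nat_lit 8080) (nat_lit 16) (.two (nat_lit 3) (nat_lit 4) (nat_lit 4963) (nat_lit 16) (.two (nat_lit 0) (nat_lit 4) (nat_lit 6751) (nat_lit 16) (.one (nat_lit 6738) (nat_lit 4) .nil))))),
   .der (nat_lit 66) (nat_lit 1041),
   .der (nat_lit 22548) (nat_lit 1880),
   .der (nat_lit 339) (nat_lit 4379),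
   .prs (.two (nat_lit 6887) (nat_lit 16) (nat_lit 5891) (nat_lit 4) (.two (nat_lit 968) (nat_lit 8) (nat_lit 8082) (nat_lit 16) (.two (nat_lit 99) (nat_lit 1) (nat_lit 8083) (nat_lit 16) (.two (nat_lit 1) (nat_lit 4) (nat_lit 8084) (nat_lit 8) (.one (nat_lit 7418) (nat_lit 4) .nil))))),
   .der (nat_lit 30226) (nat_lit 1900),
   .der (nat_lit 1057) (nat_lit 2757),
   .der (nat_lit 5971) (nat_lit 3267),
   .prs (.two (nat_lit 2130) (nat_lit 16) (nat_lit 6799) (nat_lit 8) (.two (nat_lit 80) (nat_lit 8) (nat_lit 1077) (nat_lit 16) (.two (nat_lit 689) (nat_lit 16) (nat_lit 8086) (nat_lit 8) (.two (nat_lit 334) (nat_lit 1) (nat_lit 8087) (nat_lit 8) (.two (nat_lit 46) (nat_lit 1) (nat_lit 8088) (nat_lit 16) (.two (nat_lit 0) (nat_lit 1) (nat_lit 6759) (nat_lit 8) (.one (nat_lit 7420) (nat_lit 1) .nil))))))),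
   .der (nat_lit 20) (nat_lit 90),
   .der (nat_lit 561) (nat_lit 67),
   .der (nat_lit 6) (nat_lit 3789),
   .prs (.two (nat_lit 8091) (nat_lit 16) (nat_lit 8090) (nat_lit 2) (.two (nat_lit 717) (nat_lit 2) (nat_lit 2219) (nat_lit 16) (.two (nat_lit 34) (nat_lit 2) (nat_lit 8092) (nat_lit 16) (.two (nat_lit 1) (nat_lit 2) (nat_lit 7401) (nat_lit 16) (.two (nat_lit 0) (nat_lit 2) (nat_lit 6763) (nat_lit 16) (.one (nat_lit 7423) (nat_lit 16) .nil)))))),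
   .der (nat_lit 18) (nat_lit 432),
   .der (nat_lit 12658) (nat_lit 1033),
   .der (nat_lit 33) (nat_lit 4530),
   .prs (.two (nat_lit 3967) (nat_lit 2) (nat_lit 3922) (nat_lit 1) (.two (nat_lit 965) (nat_lit 2) (nat_lit 8094) (nat_lit 1) (.two (nat_lit 209) (nat_lit 2) (nat_lit 8095) (nat_lit 1) (.two (nat_lit 170) (nat_lit 2) (nat_lit 3924) (nat_lit 1) (.two (nat_lit 1) (nat_lit 2) (nat_lit 4966) (nat_lit 1) (.two (nat_lit 0) (nat_lit 2) (nat_lit 8096) (nat_lit 1) (.one (nat_lit 6745) (nat_lit 2) .nil))))))),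
   .der (nat_lit 66) (nat_lit 182),
   .der (nat_lit 5) (nat_lit 845),
   .der (nat_lit 103) (nat_lit 4840),
   .prs (.two (nat_lit 1249) (nat_lit 2) (nat_lit 4104) (nat_lit 16) (.two (nat_lit 390) (nat_lit 16) (nat_lit 8098) (nat_lit 2) (.two (nat_lit 905) (nat_lit 2) (nat_lit 8099) (nat_lit 16) (.two (nat_lit 325) (nat_lit 2) (nat_lit 5745) (nat_lit 16) (.two (nat_lit 1) (nat_lit 2) (nat_lit 8100) (nat_lit 4) (.two (nat_lit 0) (nat_lit 2) (nat_lit 4972) (nat_lit 4) (.one (nat_lit 6766) (nat_lit 2) .nil))))))),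
   .der (nat_lit 1) (nat_lit 126),
   .der (nat_lit 5218) (nat_lit 1065),
   .der (nat_lit 117) (nat_lit 2796),
   .der (nat_lit 1300) (nat_lit 4679),
   .prs (.two (nat_lit 408) (nat_lit 16) (nat_lit 8102) (nat_lit 2) (.two (nat_lit 418) (nat_lit 16) (nat_lit 3890) (nat_lit 2) (.two (nat_lit 1387) (nat_lit 16) (nat_lit 8103) (nat_lit 2) (.two (nat_lit 7) (nat_lit 16) (nat_lit 8104) (nat_lit 8) (.two (nat_lit 1) (nat_lit 8) (nat_lit 8105) (nat_lit 16) (.two (nat_lit 0) (nat_lit 8) (nat_lit 5757) (nat_lit 2) (.one (nat_lit 7429) (nat_lit 8) .nil))))))),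
   .der (nat_lit 882) (nat_lit 691),
   .der (nat_lit 1) (nat_lit 834),
   .der (nat_lit 22803) (nat_lit 3141),
   .der (nat_lit 561) (nat_lit 6726),
   .prs (.two (nat_lit 7050) (nat_lit 2) (nat_lit 8107) (nat_lit 16) (.two (nat_lit 717) (nat_lit 2) (nat_lit 8108) (nat_lit 16) (.two (nat_lit 17) (nat_lit 16) (nat_lit 8109) (nat_lit 2) (.two (nat_lit 0) (nat_lit 2) (nat_lit 8110) (nat_lit 16) .nil)))),
   .der (nat_lit 118) (nat_lit 982),
   .der (nat_lit 33) (nat_lit 4598),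
   .prs (.two (nat_lit 1554) (nat_lit 16) (nat_lit 8112) (nat_lit 2) (.two (nat_lit 11) (nat_lit 1) (nat_lit 8113) (nat_lit 16) (.one (nat_lit 6780) (nat_lit 2) .nil))),
   .der (nat_lit 2) (nat_lit 2799),
   .prs (.two (nat_lit 520) (nat_lit 16) (nat_lit 1452) (nat_lit 2) (.two (nat_lit 42) (nat_lit 16) (nat_lit 8115) (nat_lit 2) (.two (nat_lit 0) (nat_lit 16) (nat_lit 6783) (nat_lit 2) (.one (nat_lit 7437) (nat_lit 2) .nil)))),
   .der (nat_lit 2068) (nat_lit 4867),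
   .prs (.two (nat_lit 86) (nat_lit 16) (nat_lit 6782) (nat_lit 2) (.two (nat_lit 3) (nat_lit 1) (nat_lit 8117) (nat_lit 2) (.one (nat_lit 6796) (nat_lit 2) .nil))),
   .der (nat_lit 1395) (nat_lit 2188),
   .prs (.two (nat_lit 3423) (nat_lit 16) (nat_lit 1429) (nat_lit 4) (.two (nat_lit 423) (nat_lit 16) (nat_lit 870) (nat_lit 4) (.two (nat_lit 825) (nat_lit 16) (nat_lit 8119) (nat_lit 1) (.two (nat_lit 463) (nat_lit 4) (nat_lit 3991) (nat_lit 16) (.two (nat_lit 3) (nat_lit 4) (nat_lit 5800) (nat_lit 1) (.one (nat_lit 7456) (nat_lit 1) .nil)))))),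
   .der (nat_lit 103) (nat_lit 1396),
   .prs (.two (nat_lit 82) (nat_lit 8) (nat_lit 3278) (nat_lit 4) (.two (nat_lit 33) (nat_lit 8) (nat_lit 6032) (nat_lit 1) (.two (nat_lit 122) (nat_lit 4) (nat_lit 8121) (nat_lit 2) (.two (nat_lit 53) (nat_lit 4) (nat_lit 3121) (nat_lit 8) (.two (nat_lit 173) (nat_lit 1) (nat_lit 3996) (nat_lit 8) (.two (nat_lit 1) (nat_lit 8) (nat_lit 5817) (nat_lit 2) (.two (nat_lit 0) (nat_lit 1) (nat_lit 6821) (nat_lit 8) (.one (nat_lit 7469) (nat_lit 1) .nil)))))))),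
   .der (nat_lit 2193) (nat_lit 870),
   .der (nat_lit 137) (nat_lit 39),
   .der (nat_lit 1554) (nat_lit 2188),
   .der (nat_lit 644) (nat_lit 8),
   .prs (.two (nat_lit 424) (nat_lit 16) (nat_lit 3119) (nat_lit 4) (.two (nat_lit 8124) (nat_lit 4) (nat_lit 8123) (nat_lit 16) (.two (nat_lit 145) (nat_lit 16) (nat_lit 2191) (nat_lit 4) (.two (nat_lit 8126) (nat_lit 4) (nat_lit 8125) (nat_lit 2) (.two (nat_lit 2090) (nat_lit 4) (nat_lit 3999) (nat_lit 2) (.two (nat_lit 1) (nat_lit 2) (nat_lit 7449) (nat_lit 4) (.one (nat_lit 7472) (nat_lit 2) .nil))))))),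
   .der (nat_lit 66) (nat_lit 870),
   .der (nat_lit 84) (nat_lit 2188),
   .prs (.two (nat_lit 82) (nat_lit 8) (nat_lit 3675) (nat_lit 4) (.two (nat_lit 4635) (nat_lit 4) (nat_lit 8128) (nat_lit 8) (.two (nat_lit 676) (nat_lit 8) (nat_lit 7452) (nat_lit 4) (.two (nat_lit 758) (nat_lit 4) (nat_lit 8129) (nat_lit 8) (.two (nat_lit 463) (nat_lit 8) (nat_lit 4002) (nat_lit 1) (.two (nat_lit 1) (nat_lit 4) (nat_lit 5818) (nat_lit 1) (.two (nat_lit 0) (nat_lit 1) (nat_lit 5823) (nat_lit 8) (.one (nat_lit 7474) (nat_lit 1) .nil)))))))),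
   .der (nat_lit 4) (nat_lit 892),
   .der (nat_lit 1556) (nat_lit 1428),
   .der (nat_lit 8) (nat_lit 2188),
   .prs (.two (nat_lit 3423) (nat_lit 16) (nat_lit 1429) (nat_lit 4) (.two (nat_lit 423) (nat_lit 16) (nat_lit 8131) (nat_lit 4) (.two (nat_lit 86) (nat_lit 16) (nat_lit 8132) (nat_lit 1) (.two (nat_lit 1611) (nat_lit 1) (nat_lit 8133) (nat_lit 4) (.two (nat_lit 78) (nat_lit 4) (nat_lit 4111) (nat_lit 16) (.two (nat_lit 3) (nat_lit 4) (nat_lit 5917) (nat_lit 16) (.two (nat_lit 0) (nat_lit 4) (nat_lit 6863) (nat_lit 1) (.one (nat_lit 7520) (nat_lit 1) .nil)))))))),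
   .der (nat_lit 21107) (nat_lit 1408),
   .der (nat_lit 1122) (nat_lit 2188),
   .der (nat_lit 1122) (nat_lit 4111),
   .der (nat_lit 339) (nat_lit 5850),
   .prs (.two (nat_lit 2337) (nat_lit 2) (nat_lit 3281) (nat_lit 1) (.two (nat_lit 4380) (nat_lit 2) (nat_lit 6915) (nat_lit 1) (.two (nat_lit 105) (nat_lit 4) (nat_lit 8135) (nat_lit 1) (.two (nat_lit 882) (nat_lit 4) (nat_lit 8136) (nat_lit 2) (.two (nat_lit 434) (nat_lit 2) (nat_lit 8137) (nat_lit 1) (.two (nat_lit 46) (nat_lit 4) (nat_lit 8138) (nat_lit 1) (.two (nat_lit 0) (nat_lit 2) (nat_lit 6872) (nat_lit 4) (.one (nat_lit 7534) (nat_lit 2) .nil)))))))),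
   .der (nat_lit 2193) (nat_lit 827),
   .der (nat_lit 2) (nat_lit 4048),
   .der (nat_lit 18) (nat_lit 5869),
   .prs (.two (nat_lit 2204) (nat_lit 4) (nat_lit 5870) (nat_lit 8) (.two (nat_lit 35) (nat_lit 4) (nat_lit 8140) (nat_lit 8) (.two (nat_lit 13) (nat_lit 4) (nat_lit 7500) (nat_lit 8) (.two (nat_lit 791) (nat_lit 4) (nat_lit 7501) (nat_lit 1) (.two (nat_lit 7) (nat_lit 1) (nat_lit 8141) (nat_lit 4) (.two (nat_lit 11) (nat_lit 1) (nat_lit 8142) (nat_lit 4) (.two (nat_lit 0) (nat_lit 4) (nat_lit 6876) (nat_lit 1) (.one (nat_lit 7538) (nat_lit 1) .nil)))))))),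
   .der (nat_lit 2353) (nat_lit 1446),
   .der (nat_lit 2323) (nat_lit 2188),
   .der (nat_lit 561) (nat_lit 5074),
   .prs (.two (nat_lit 2469) (nat_lit 8) (nat_lit 3775) (nat_lit 4) (.two (nat_lit 13) (nat_lit 8) (nat_lit 8144) (nat_lit 1) (.two (nat_lit 202) (nat_lit 8) (nat_lit 8145) (nat_lit 2) (.two (nat_lit 3) (nat_lit 8) (nat_lit 8146) (nat_lit 2) (.two (nat_lit 0) (nat_lit 4) (nat_lit 6925) (nat_lit 8) (.one (nat_lit 7548) (nat_lit 1) .nil)))))),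
   .der (nat_lit 9572) (nat_lit 396),
   .der (nat_lit 162) (nat_lit 3229),
   .prs (.two (nat_lit 7451) (nat_lit 8) (nat_lit 8148) (nat_lit 4) (.two (nat_lit 105) (nat_lit 4) (nat_lit 5249) (nat_lit 8) (.two (nat_lit 1) (nat_lit 4) (nat_lit 8149) (nat_lit 8) (.two (nat_lit 0) (nat_lit 4) (nat_lit 5171) (nat_lit 8) (.one (nat_lit 7579) (nat_lit 8) .nil))))),
   .der (nat_lit 150) (nat_lit 72),
   .der (nat_lit 2390) (nat_lit 837),
   .der (nat_lit 49) (nat_lit 2353),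
   .der (nat_lit 2339) (nat_lit 4229),
   .prs (.two (nat_lit 8151) (nat_lit 4) (nat_lit 666) (nat_lit 2) (.two (nat_lit 105) (nat_lit 8) (nat_lit 8152) (nat_lit 4) (.two (nat_lit 882) (nat_lit 4) (nat_lit 4305) (nat_lit 8) (.two (nat_lit 514) (nat_lit 4) (nat_lit 8153) (nat_lit 8) (.two (nat_lit 46) (nat_lit 4) (nat_lit 8154) (nat_lit 2) (.two (nat_lit 0) (nat_lit 8) (nat_lit 6019) (nat_lit 2) (.one (nat_lit 6939) (nat_lit 2) .nil))))))),
   .der (nat_lit 1380) (nat_lit 2186),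
   .prs (.two (nat_lit 895) (nat_lit 2) (nat_lit 6050) (nat_lit 8) (.two (nat_lit 520) (nat_lit 4) (nat_lit 6008) (nat_lit 8) (.two (nat_lit 2) (nat_lit 4) (nat_lit 8156) (nat_lit 8) (.two (nat_lit 1) (nat_lit 2) (nat_lit 6010) (nat_lit 4) (.two (nat_lit 0) (nat_lit 2) (nat_lit 6022) (nat_lit 4) (.one (nat_lit 7583) (nat_lit 4) .nil)))))),
   .der (nat_lit 145) (nat_lit 950),
   .der (nat_lit 12658) (nat_lit 2210),
   .der (nat_lit 137) (nat_lit 5850),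
   .der (nat_lit 137) (nat_lit 5823),
   .prs (.two (nat_lit 3423) (nat_lit 16) (nat_lit 3278) (nat_lit 4) (.two (nat_lit 4375) (nat_lit 16) (nat_lit 8158) (nat_lit 4) (.two (nat_lit 520) (nat_lit 4) (nat_lit 1377) (nat_lit 16) (.two (nat_lit 91) (nat_lit 16) (nat_lit 8159) (nat_lit 2) (.two (nat_lit 556) (nat_lit 4) (nat_lit 4300) (nat_lit 16) (.two (nat_lit 1) (nat_lit 2) (nat_lit 8160) (nat_lit 16) (.two (nat_lit 0) (nat_lit 2) (nat_lit 8161) (nat_lit 4) (.one (nat_lit 7645) (nat_lit 2) .nil)))))))),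
   .der (nat_lit 150) (nat_lit 2472),
   .der (nat_lit 37425) (nat_lit 6044),
   .prs (.two (nat_lit 7131) (nat_lit 16) (nat_lit 672) (nat_lit 1) (.two (nat_lit 794) (nat_lit 2) (nat_lit 8163) (nat_lit 16) (.two (nat_lit 1) (nat_lit 2) (nat_lit 6210) (nat_lit 1) (.two (nat_lit 0) (nat_lit 2) (nat_lit 8164) (nat_lit 16) (.one (nat_lit 7719) (nat_lit 2) .nil))))),
   .der (nat_lit 644) (nat_lit 3267),
   .der (nat_lit 2390) (nat_lit 5035),
   .prs (.two (nat_lit 423) (nat_lit 16) (nat_lit 2580) (nat_lit 2) (.two (nat_lit 13) (nat_lit 4) (nat_lit 5716) (nat_lit 16) (.two (nat_lit 2) (nat_lit 4) (nat_lit 8166) (nat_lit 1) (.two (nat_lit 1) (nat_lit 4) (nat_lit 8167) (nat_lit 1) (.two (nat_lit 0) (nat_lit 4) (nat_lit 7013) (nat_lit 1) (.one (nat_lit 7722) (nat_lit 1) .nil)))))),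
   .der (nat_lit 52) (nat_lit 861),
   .der (nat_lit 165) (nat_lit 6054),
   .prs (.two (nat_lit 3382) (nat_lit 16) (nat_lit 3423) (nat_lit 4) (.two (nat_lit 676) (nat_lit 4) (nat_lit 8169) (nat_lit 8) (.two (nat_lit 2) (nat_lit 4) (nat_lit 6977) (nat_lit 8) (.two (nat_lit 0) (nat_lit 16) (nat_lit 8170) (nat_lit 8) (.one (nat_lit 7018) (nat_lit 4) .nil))))),
   .der (nat_lit 135) (nat_lit 1425),
   .der (nat_lit 36) (nat_lit 3233),
   .prs (.two (nat_lit 4380) (nat_lit 16) (nat_lit 1185) (nat_lit 2) (.two (nat_lit 80) (nat_lit 16) (nat_lit 8172) (nat_lit 2) (.two (nat_lit 427) (nat_lit 2) (nat_lit 6097) (nat_lit 16) (.two (nat_lit 514) (nat_lit 2) (nat_lit 8173) (nat_lit 16) (.two (nat_lit 1) (nat_lit 2) (nat_lit 4311) (nat_lit 16) (.two (nat_lit 0) (nat_lit 2) (nat_lit 6116) (nat_lit 1) (.one (nat_lit 7725) (nat_lit 1) .nil))))))),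
   .der (nat_lit 7) (nat_lit 1425),
   .der (nat_lit 8) (nat_lit 4311),
   .der (nat_lit 8) (nat_lit 6116),
   .prs (.two (nat_lit 4380) (nat_lit 16) (nat_lit 7523) (nat_lit 2) (.two (nat_lit 145) (nat_lit 16) (nat_lit 8175) (nat_lit 2) (.two (nat_lit 65) (nat_lit 2) (nat_lit 6097) (nat_lit 16) (.two (nat_lit 4) (nat_lit 2) (nat_lit 3385) (nat_lit 16) (.two (nat_lit 1) (nat_lit 2) (nat_lit 8176) (nat_lit 16) (.two (nat_lit 0) (nat_lit 2) (nat_lit 8177) (nat_lit 1) (.one (nat_lit 7036) (nat_lit 1) .nil))))))),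
   .der (nat_lit 6) (nat_lit 508),
   .prs (.two (nat_lit 423) (nat_lit 16) (nat_lit 8179) (nat_lit 4) (.two (nat_lit 509) (nat_lit 4) (nat_lit 3136) (nat_lit 16) (.two (nat_lit 2) (nat_lit 4) (nat_lit 3116) (nat_lit 16) (.two (nat_lit 0) (nat_lit 1) (nat_lit 7751) (nat_lit 16) (.one (nat_lit 7726) (nat_lit 1) .nil))))),
   .der (nat_lit 65) (nat_lit 536),
   .der (nat_lit 22548) (nat_lit 2210),
   .der (nat_lit 1415) (nat_lit 6112),
   .prs (.two (nat_lit 2125) (nat_lit 2) (nat_lit 8181) (nat_lit 4) (.two (nat_lit 965) (nat_lit 2) (nat_lit 4798) (nat_lit 4) (.two (nat_lit 75) (nat_lit 2) (nat_lit 8182) (nat_lit 4) (.two (nat_lit 11) (nat_lit 1) (nat_lit 8167) (nat_lit 4) (.two (nat_lit 0) (nat_lit 1) (nat_lit 8183) (nat_lit 2) (.one (nat_lit 7729) (nat_lit 4) .nil)))))),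
   .der (nat_lit 137) (nat_lit 467),
   .der (nat_lit 2578) (nat_lit 7662),
   .prs (.two (nat_lit 4380) (nat_lit 16) (nat_lit 8185) (nat_lit 2) (.two (nat_lit 520) (nat_lit 4) (nat_lit 6985) (nat_lit 16) (.two (nat_lit 1) (nat_lit 2) (nat_lit 6137) (nat_lit 4) (.two (nat_lit 0) (nat_lit 2) (nat_lit 7058) (nat_lit 16) (.one (nat_lit 8186) (nat_lit 2) .nil))))),
   .der (nat_lit 1299) (nat_lit 2171),
   .der (nat_lit 6) (nat_lit 4126),
   .prs (.two (nat_lit 423) (nat_lit 16) (nat_lit 1787) (nat_lit 4) (.two (nat_lit 520) (nat_lit 4) (nat_lit 8188) (nat_lit 16) (.two (nat_lit 1) (nat_lit 2) (nat_lit 8189) (nat_lit 16) (.two (nat_lit 0) (nat_lit 2) (nat_lit 7060) (nat_lit 4) (.one (nat_lit 7654) (nat_lit 2) .nil))))),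
   .der (nat_lit 3) (nat_lit 861),
   .der (nat_lit 101) (nat_lit 2210),
   .der (nat_lit 561) (nat_lit 4263),
   .prs (.two (nat_lit 33) (nat_lit 8) (nat_lit 4046) (nat_lit 16) (.two (nat_lit 65) (nat_lit 16) (nat_lit 8191) (nat_lit 1) (.two (nat_lit 4) (nat_lit 16) (nat_lit 8192) (nat_lit 8) (.two (nat_lit 1) (nat_lit 16) (nat_lit 8193) (nat_lit 8) (.two (nat_lit 0) (nat_lit 16) (nat_lit 6143) (nat_lit 8) (.one (nat_lit 7703) (nat_lit 8) .nil)))))),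
   .der (nat_lit 147) (nat_lit 2248),
   .prs (.two (nat_lit 1786) (nat_lit 4) (nat_lit 424) (nat_lit 16) (.two (nat_lit 520) (nat_lit 4) (nat_lit 4382) (nat_lit 16) (.two (nat_lit 882) (nat_lit 4) (nat_lit 8195) (nat_lit 16) (.two (nat_lit 519) (nat_lit 4) (nat_lit 6553) (nat_lit 2) (.two (nat_lit 1) (nat_lit 2) (nat_lit 6145) (nat_lit 4) (.two (nat_lit 0) (nat_lit 2) (nat_lit 7061) (nat_lit 4) (.one (nat_lit 7732) (nat_lit 2) .nil))))))),
   .der (nat_lit 6) (nat_lit 6112),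
   .prs (.two (nat_lit 423) (nat_lit 16) (nat_lit 2260) (nat_lit 4) (.two (nat_lit 227) (nat_lit 2) (nat_lit 6990) (nat_lit 16) (.two (nat_lit 16) (nat_lit 4) (nat_lit 8197) (nat_lit 2) (.one (nat_lit 7736) (nat_lit 2) .nil)))),
   .der (nat_lit 17185) (nat_lit 192),
   .der (nat_lit 35) (nat_lit 2214),
   .prs (.two (nat_lit 3390) (nat_lit 16) (nat_lit 8199) (nat_lit 4) (.two (nat_lit 520) (nat_lit 4) (nat_lit 8200) (nat_lit 16) (.two (nat_lit 1) (nat_lit 2) (nat_lit 7605) (nat_lit 4) (.two (nat_lit 0) (nat_lit 2) (nat_lit 6150) (nat_lit 4) (.one (nat_lit 7711) (nat_lit 4) .nil))))),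
   .der (nat_lit 50) (nat_lit 967),
   .der (nat_lit 50) (nat_lit 2472),
   .der (nat_lit 2193) (nat_lit 4073),
   .der (nat_lit 33345) (nat_lit 5961),
   .prs (.two (nat_lit 33) (nat_lit 16) (nat_lit 2592) (nat_lit 1) (.two (nat_lit 440) (nat_lit 16) (nat_lit 8202) (nat_lit 1) (.two (nat_lit 42) (nat_lit 8) (nat_lit 8203) (nat_lit 2) (.two (nat_lit 1) (nat_lit 8) (nat_lit 8204) (nat_lit 1) (.two (nat_lit 0) (nat_lit 8) (nat_lit 8205) (nat_lit 16) (.one (nat_lit 7740) (nat_lit 1) .nil)))))),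
   .der (nat_lit 1299) (nat_lit 584),
   .der (nat_lit 1) (nat_lit 1385),
   .der (nat_lit 137) (nat_lit 5071),
   .prs (.two (nat_lit 2195) (nat_lit 16) (nat_lit 8207) (nat_lit 4) (.two (nat_lit 13) (nat_lit 4) (nat_lit 8208) (nat_lit 16) (.two (nat_lit 99) (nat_lit 1) (nat_lit 5300) (nat_lit 16) (.two (nat_lit 3) (nat_lit 1) (nat_lit 8209) (nat_lit 16) (.two (nat_lit 0) (nat_lit 1) (nat_lit 6154) (nat_lit 4) (.one (nat_lit 7742) (nat_lit 4) .nil)))))),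
   .der (nat_lit 34068) (nat_lit 850),
   .prs (.two (nat_lit 33) (nat_lit 8) (nat_lit 8211) (nat_lit 4) (.two (nat_lit 6) (nat_lit 8) (nat_lit 5246) (nat_lit 1) (.two (nat_lit 2) (nat_lit 16) (nat_lit 5303) (nat_lit 1) (.two (nat_lit 1) (nat_lit 8) (nat_lit 4322) (nat_lit 1) (.two (nat_lit 0) (nat_lit 8) (nat_lit 6157) (nat_lit 16) (.one (nat_lit 7749) (nat_lit 8) .nil)))))),
   .der (nat_lit 8) (nat_lit 904),
   .der (nat_lit 9) (nat_lit 1408),
   .der (nat_lit 1890) (nat_lit 3340),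
   .der (nat_lit 137) (nat_lit 4032),
   .prs (.two (nat_lit 33) (nat_lit 16) (nat_lit 5140) (nat_lit 8) (.two (nat_lit 145) (nat_lit 16) (nat_lit 8213) (nat_lit 4) (.two (nat_lit 42) (nat_lit 4) (nat_lit 8214) (nat_lit 16) (.two (nat_lit 2) (nat_lit 4) (nat_lit 8215) (nat_lit 8) (.two (nat_lit 1) (nat_lit 8) (nat_lit 8216) (nat_lit 16) (.two (nat_lit 0) (nat_lit 4) (nat_lit 7068) (nat_lit 8) (.one (nat_lit 7687) (nat_lit 4) .nil))))))),
   .prs (.two (nat_lit 496) (nat_lit 4) (nat_lit 1460) (nat_lit 16) (.two (nat_lit 509) (nat_lit 4) (nat_lit 3136) (nat_lit 16) (.two (nat_lit 2) (nat_lit 4) (nat_lit 3116) (nat_lit 16) (.two (nat_lit 0) (nat_lit 1) (nat_lit 6163) (nat_lit 16) (.one (nat_lit 7752) (nat_lit 1) .nil))))),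
   .der (nat_lit 561) (nat_lit 1392),
   .der (nat_lit 1653) (nat_lit 5163),
   .der (nat_lit 1811) (nat_lit 6015),
   .der (nat_lit 10) (nat_lit 7701),
   .prs (.two (nat_lit 2195) (nat_lit 16) (nat_lit 1695) (nat_lit 2) (.two (nat_lit 13) (nat_lit 4) (nat_lit 8219) (nat_lit 16) (.two (nat_lit 2) (nat_lit 4) (nat_lit 6107) (nat_lit 16) (.two (nat_lit 1) (nat_lit 2) (nat_lit 8220) (nat_lit 16) (.two (nat_lit 0) (nat_lit 1) (nat_lit 8221) (nat_lit 4) (.one (nat_lit 8222) (nat_lit 4) .nil)))))),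
   .der (nat_lit 103) (nat_lit 495),
   .der (nat_lit 35) (nat_lit 960),
   .prs (.two (nat_lit 6914) (nat_lit 1) (nat_lit 8224) (nat_lit 4) (.two (nat_lit 965) (nat_lit 4) (nat_lit 8225) (nat_lit 1) (.two (nat_lit 129) (nat_lit 4) (nat_lit 7040) (nat_lit 1) (.two (nat_lit 16) (nat_lit 4) (nat_lit 7702) (nat_lit 1) (.two (nat_lit 0) (nat_lit 2) (nat_lit 6168) (nat_lit 1) (.one (nat_lit 7756) (nat_lit 4) .nil)))))),
   .der (nat_lit 22548) (nat_lit 172),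
   .der (nat_lit 6) (nat_lit 1478),
   .der (nat_lit 8) (nat_lit 4321),
   .prs (.two (nat_lit 7046) (nat_lit 16) (nat_lit 8227) (nat_lit 4) (.two (nat_lit 520) (nat_lit 16) (nat_lit 8172) (nat_lit 4) (.two (nat_lit 129) (nat_lit 16) (nat_lit 8228) (nat_lit 4) (.two (nat_lit 2) (nat_lit 4) (nat_lit 8229) (nat_lit 16) (.two (nat_lit 0) (nat_lit 4) (nat_lit 5216) (nat_lit 16) (.one (nat_lit 7672) (nat_lit 4) .nil)))))),
   .der (nat_lit 86) (nat_lit 2199),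
   .prs (.two (nat_lit 4380) (nat_lit 16) (nat_lit 1746) (nat_lit 2) (.two (nat_lit 520) (nat_lit 4) (nat_lit 4091) (nat_lit 16) (.two (nat_lit 34) (nat_lit 2) (nat_lit 8231) (nat_lit 16) (.two (nat_lit 1) (nat_lit 2) (nat_lit 7605) (nat_lit 4) (.two (nat_lit 0) (nat_lit 2) (nat_lit 6172) (nat_lit 4) (.one (nat_lit 7680) (nat_lit 16) .nil)))))),
   .der (nat_lit 2) (nat_lit 461),
   .der (nat_lit 1299) (nat_lit 2307),
   .der (nat_lit 30226) (nat_lit 4307),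
   .prs (.two (nat_lit 2344) (nat_lit 16) (nat_lit 8233) (nat_lit 1) (.two (nat_lit 440) (nat_lit 2) (nat_lit 5228) (nat_lit 16) (.two (nat_lit 7) (nat_lit 1) (nat_lit 8234) (nat_lit 16) (.two (nat_lit 1) (nat_lit 16) (nat_lit 8235) (nat_lit 2) (.two (nat_lit 0) (nat_lit 1) (nat_lit 7077) (nat_lit 2) (.one (nat_lit 7759) (nat_lit 2) .nil)))))),
   .prs (.two (nat_lit 423) (nat_lit 16) (nat_lit 8224) (nat_lit 4) (.two (nat_lit 129) (nat_lit 4) (nat_lit 7084) (nat_lit 16) (.two (nat_lit 0) (nat_lit 2) (nat_lit 6180) (nat_lit 16) (.one (nat_lit 7761) (nat_lit 4) .nil)))),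
   .der (nat_lit 5) (nat_lit 729),
   .der (nat_lit 1074) (nat_lit 64),
   .der (nat_lit 2113) (nat_lit 876),
   .der (nat_lit 34068) (nat_lit 2651),
   .prs (.two (nat_lit 8239) (nat_lit 16) (nat_lit 8238) (nat_lit 1) (.two (nat_lit 145) (nat_lit 16) (nat_lit 8240) (nat_lit 4) (.two (nat_lit 370) (nat_lit 16) (nat_lit 8241) (nat_lit 4) (.two (nat_lit 202) (nat_lit 4) (nat_lit 4538) (nat_lit 16) (.two (nat_lit 3) (nat_lit 4) (nat_lit 5388) (nat_lit 1) (.two (nat_lit 0) (nat_lit 1) (nat_lit 7168) (nat_lit 4) (.one (nat_lit 7828) (nat_lit 1) .nil))))))),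
   .der (nat_lit 36) (nat_lit 182),
   .der (nat_lit 2578) (nat_lit 72),
   .der (nat_lit 10305) (nat_lit 1597),
   .der (nat_lit 52) (nat_lit 1557),
   .der (nat_lit 833) (nat_lit 4073),
   .der (nat_lit 21092) (nat_lit 6030),
   .prs (.two (nat_lit 8244) (nat_lit 8) (nat_lit 8243) (nat_lit 2) (.two (nat_lit 38) (nat_lit 8) (nat_lit 8245) (nat_lit 2) (.two (nat_lit 456) (nat_lit 16) (nat_lit 8246) (nat_lit 8) (.two (nat_lit 2) (nat_lit 16) (nat_lit 8247) (nat_lit 8) (.two (nat_lit 0) (nat_lit 8) (nat_lit 8248) (nat_lit 2) (.one (nat_lit 7176) (nat_lit 2) .nil)))))),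
   .der (nat_lit 67) (nat_lit 923),
   .der (nat_lit 833) (nat_lit 2432),
   .der (nat_lit 8) (nat_lit 3559),
   .prs (.two (nat_lit 6326) (nat_lit 2) (nat_lit 5440) (nat_lit 8) (.two (nat_lit 122) (nat_lit 2) (nat_lit 8250) (nat_lit 16) (.two (nat_lit 528) (nat_lit 8) (nat_lit 8251) (nat_lit 2) (.two (nat_lit 1068) (nat_lit 1) (nat_lit 8252) (nat_lit 16) (.two (nat_lit 1) (nat_lit 2) (nat_lit 6389) (nat_lit 1) (.two (nat_lit 0) (nat_lit 2) (nat_lit 7180) (nat_lit 1) (.one (nat_lit 7833) (nat_lit 2) .nil))))))),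
   .der (nat_lit 152) (nat_lit 425),
   .der (nat_lit 34068) (nat_lit 1415),
   .der (nat_lit 9587) (nat_lit 3340),
   .der (nat_lit 10305) (nat_lit 4339),
   .prs (.two (nat_lit 33) (nat_lit 16) (nat_lit 8254) (nat_lit 8) (.two (nat_lit 129) (nat_lit 16) (nat_lit 8255) (nat_lit 8) (.two (nat_lit 2) (nat_lit 16) (nat_lit 8256) (nat_lit 8) (.two (nat_lit 1) (nat_lit 16) (nat_lit 8257) (nat_lit 8) (.two (nat_lit 0) (nat_lit 1) (nat_lit 7182) (nat_lit 2) (.one (nat_lit 7834) (nat_lit 2) .nil)))))),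
   .der (nat_lit 5716) (nat_lit 4334),
   .der (nat_lit 2193) (nat_lit 6229),
   .prs (.two (nat_lit 1601) (nat_lit 2) (nat_lit 4802) (nat_lit 16) (.two (nat_lit 2873) (nat_lit 1) (nat_lit 4676) (nat_lit 2) (.two (nat_lit 2) (nat_lit 16) (nat_lit 7227) (nat_lit 2) (.two (nat_lit 11) (nat_lit 16) (nat_lit 8259) (nat_lit 2) (.two (nat_lit 0) (nat_lit 1) (nat_lit 8260) (nat_lit 2) (.one (nat_lit 7838) (nat_lit 16) .nil)))))),
   .der (nat_lit 2578) (nat_lit 1415),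
   .der (nat_lit 1107) (nat_lit 3340),
   .der (nat_lit 801) (nat_lit 4339),
   .der (nat_lit 8) (nat_lit 6077),
   .prs (.two (nat_lit 7451) (nat_lit 4) (nat_lit 5081) (nat_lit 8) (.two (nat_lit 956) (nat_lit 4) (nat_lit 8262) (nat_lit 8) (.two (nat_lit 2) (nat_lit 4) (nat_lit 8263) (nat_lit 8) (.two (nat_lit 1) (nat_lit 4) (nat_lit 8264) (nat_lit 8) (.two (nat_lit 0) (nat_lit 8) (nat_lit 8265) (nat_lit 4) (.one (nat_lit 7841) (nat_lit 4) .nil)))))),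
   .der (nat_lit 10545) (nat_lit 407),
   .der (nat_lit 1875) (nat_lit 1478),
   .der (nat_lit 8) (nat_lit 4534),
   .prs (.two (nat_lit 411) (nat_lit 16) (nat_lit 8267) (nat_lit 1) (.two (nat_lit 69) (nat_lit 1) (nat_lit 8268) (nat_lit 16) (.two (nat_lit 1214) (nat_lit 1) (nat_lit 8269) (nat_lit 16) (.two (nat_lit 0) (nat_lit 1) (nat_lit 7190) (nat_lit 16) (.one (nat_lit 7845) (nat_lit 1) .nil))))),
   .der (nat_lit 2113) (nat_lit 1444),
   .der (nat_lit 103) (nat_lit 2199),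
   .der (nat_lit 135) (nat_lit 4055),
   .der (nat_lit 21092) (nat_lit 6054),
   .prs (.two (nat_lit 5508) (nat_lit 4) (nat_lit 5870) (nat_lit 8) (.two (nat_lit 105) (nat_lit 4) (nat_lit 8271) (nat_lit 8) (.two (nat_lit 2) (nat_lit 4) (nat_lit 8272) (nat_lit 8) (.two (nat_lit 1) (nat_lit 4) (nat_lit 8273) (nat_lit 2) (.two (nat_lit 0) (nat_lit 4) (nat_lit 8274) (nat_lit 2) (.one (nat_lit 7848) (nat_lit 2) .nil)))))),
   .der (nat_lit 852) (nat_lit 453),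
   .der (nat_lit 150) (nat_lit 897),
   .der (nat_lit 2390) (nat_lit 2241),
   .der (nat_lit 115) (nat_lit 3152),
   .prs (.two (nat_lit 2525) (nat_lit 1) (nat_lit 8276) (nat_lit 2) (.two (nat_lit 13) (nat_lit 4) (nat_lit 8277) (nat_lit 2) (.two (nat_lit 6) (nat_lit 4) (nat_lit 8278) (nat_lit 2) (.two (nat_lit 2) (nat_lit 4) (nat_lit 8279) (nat_lit 1) (.two (nat_lit 1) (nat_lit 4) (nat_lit 4544) (nat_lit 1) (.two (nat_lit 0) (nat_lit 4) (nat_lit 6333) (nat_lit 1) (.one (nat_lit 7853) (nat_lit 2) .nil))))))),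
   .der (nat_lit 1620) (nat_lit 560),
   .der (nat_lit 1653) (nat_lit 967),
   .prs (.two (nat_lit 2793) (nat_lit 1) (nat_lit 8281) (nat_lit 8) (.two (nat_lit 509) (nat_lit 8) (nat_lit 8282) (nat_lit 1) (.two (nat_lit 956) (nat_lit 8) (nat_lit 7240) (nat_lit 1) (.two (nat_lit 4) (nat_lit 8) (nat_lit 4548) (nat_lit 4) (.two (nat_lit 1) (nat_lit 8) (nat_lit 6336) (nat_lit 1) (.two (nat_lit 0) (nat_lit 8) (nat_lit 7199) (nat_lit 4) (.one (nat_lit 7858) (nat_lit 8) .nil))))))),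
   .der (nat_lit 1300) (nat_lit 627),
   .der (nat_lit 8) (nat_lit 64),
   .der (nat_lit 145) (nat_lit 1448),
   .prs (.two (nat_lit 8285) (nat_lit 16) (nat_lit 8284) (nat_lit 4) (.two (nat_lit 105) (nat_lit 16) (nat_lit 8286) (nat_lit 4) (.two (nat_lit 2) (nat_lit 16) (nat_lit 4550) (nat_lit 4) (.two (nat_lit 1) (nat_lit 4) (nat_lit 6339) (nat_lit 1) (.two (nat_lit 0) (nat_lit 4) (nat_lit 7204) (nat_lit 16) (.one (nat_lit 7861) (nat_lit 1) .nil)))))),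
   .der (nat_lit 2) (nat_lit 850),
   .der (nat_lit 2084) (nat_lit 1456),
   .der (nat_lit 1556) (nat_lit 4055),
   .der (nat_lit 161) (nat_lit 6157),
   .prs (.two (nat_lit 880) (nat_lit 8) (nat_lit 8288) (nat_lit 16) (.two (nat_lit 6) (nat_lit 16) (nat_lit 8289) (nat_lit 8) (.two (nat_lit 2) (nat_lit 16) (nat_lit 8290) (nat_lit 8) (.two (nat_lit 0) (nat_lit 8) (nat_lit 8291) (nat_lit 16) (.one (nat_lit 7866) (nat_lit 8) .nil))))),
   .der (nat_lit 1653) (nat_lit 2249),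
   .der (nat_lit 129) (nat_lit 4028),
   .prs (.two (nat_lit 2473) (nat_lit 8) (nat_lit 7259) (nat_lit 2) (.two (nat_lit 509) (nat_lit 16) (nat_lit 7815) (nat_lit 8) (.two (nat_lit 96) (nat_lit 2) (nat_lit 8293) (nat_lit 8) (.two (nat_lit 1) (nat_lit 2) (nat_lit 8294) (nat_lit 16) (.two (nat_lit 0) (nat_lit 2) (nat_lit 6344) (nat_lit 8) (.one (nat_lit 7871) (nat_lit 16) .nil)))))),
   .der (nat_lit 2578) (nat_lit 461),
   .der (nat_lit 34068) (nat_lit 1533),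
   .der (nat_lit 5716) (nat_lit 3152),
   .der (nat_lit 5716) (nat_lit 4038),
   .prs (.two (nat_lit 2829) (nat_lit 8) (nat_lit 8296) (nat_lit 2) (.two (nat_lit 440) (nat_lit 2) (nat_lit 8297) (nat_lit 8) (.two (nat_lit 5) (nat_lit 1) (nat_lit 8298) (nat_lit 8) (.two (nat_lit 1) (nat_lit 2) (nat_lit 8299) (nat_lit 8) (.two (nat_lit 0) (nat_lit 1) (nat_lit 6347) (nat_lit 2) (.one (nat_lit 7877) (nat_lit 2) .nil)))))),
   .der (nat_lit 100) (nat_lit 1444),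
   .der (nat_lit 150) (nat_lit 3141),
   .der (nat_lit 356) (nat_lit 4383),
   .prs (.two (nat_lit 471) (nat_lit 1) (nat_lit 2771) (nat_lit 2) (.two (nat_lit 13) (nat_lit 4) (nat_lit 8277) (nat_lit 2) (.two (nat_lit 6) (nat_lit 4) (nat_lit 8301) (nat_lit 2) (.two (nat_lit 2) (nat_lit 4) (nat_lit 8302) (nat_lit 1) (.two (nat_lit 1) (nat_lit 4) (nat_lit 8303) (nat_lit 1) (.two (nat_lit 0) (nat_lit 4) (nat_lit 6353) (nat_lit 1) (.one (nat_lit 7881) (nat_lit 2) .nil))))))),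
   .der (nat_lit 1415) (nat_lit 392),
   .der (nat_lit 852) (nat_lit 2578),
   .der (nat_lit 165) (nat_lit 4434),
   .prs (.two (nat_lit 1492) (nat_lit 8) (nat_lit 8305) (nat_lit 4) (.two (nat_lit 1413) (nat_lit 4) (nat_lit 8306) (nat_lit 8) (.two (nat_lit 452) (nat_lit 4) (nat_lit 8307) (nat_lit 8) (.two (nat_lit 1) (nat_lit 8) (nat_lit 5396) (nat_lit 4) (.two (nat_lit 0) (nat_lit 4) (nat_lit 7208) (nat_lit 8) (.one (nat_lit 7886) (nat_lit 4) .nil)))))),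
   .der (nat_lit 67) (nat_lit 492),
   .der (nat_lit 137) (nat_lit 1478),
   .der (nat_lit 150) (nat_lit 4041),
   .prs (.two (nat_lit 6849) (nat_lit 16) (nat_lit 6887) (nat_lit 4) (.two (nat_lit 1848) (nat_lit 4) (nat_lit 8309) (nat_lit 16) (.two (nat_lit 209) (nat_lit 4) (nat_lit 8310) (nat_lit 16) (.two (nat_lit 11) (nat_lit 2) (nat_lit 8311) (nat_lit 4) (.two (nat_lit 0) (nat_lit 2) (nat_lit 4575) (nat_lit 4) (.one (nat_lit 7888) (nat_lit 16) .nil)))))),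
   .der (nat_lit 1620) (nat_lit 481),
   .der (nat_lit 801) (nat_lit 3180),
   .der (nat_lit 2113) (nat_lit 4038),
   .prs (.two (nat_lit 6849) (nat_lit 8) (nat_lit 8313) (nat_lit 4) (.two (nat_lit 13) (nat_lit 16) (nat_lit 7827) (nat_lit 2) (.two (nat_lit 2) (nat_lit 8) (nat_lit 8314) (nat_lit 1) (.two (nat_lit 3) (nat_lit 4) (nat_lit 8315) (nat_lit 16) (.two (nat_lit 0) (nat_lit 2) (nat_lit 6474) (nat_lit 8) (.one (nat_lit 7898) (nat_lit 1) .nil)))))),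
   .der (nat_lit 2433) (nat_lit 562),
   .der (nat_lit 1380) (nat_lit 3477),
   .prs (.two (nat_lit 4744) (nat_lit 4) (nat_lit 8317) (nat_lit 16) (.two (nat_lit 520) (nat_lit 4) (nat_lit 5518) (nat_lit 16) (.two (nat_lit 170) (nat_lit 16) (nat_lit 8318) (nat_lit 2) (.two (nat_lit 1) (nat_lit 2) (nat_lit 7254) (nat_lit 4) (.two (nat_lit 0) (nat_lit 2) (nat_lit 6478) (nat_lit 4) (.one (nat_lit 7901) (nat_lit 2) .nil)))))),
   .der (nat_lit 340) (nat_lit 5287),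
   .der (nat_lit 18) (nat_lit 6221),
   .prs (.two (nat_lit 1815) (nat_lit 4) (nat_lit 2658) (nat_lit 16) (.two (nat_lit 520) (nat_lit 4) (nat_lit 1392) (nat_lit 16) (.two (nat_lit 2) (nat_lit 4) (nat_lit 5515) (nat_lit 16) (.two (nat_lit 1) (nat_lit 4) (nat_lit 8320) (nat_lit 2) (.two (nat_lit 0) (nat_lit 8) (nat_lit 8321) (nat_lit 16) (.one (nat_lit 7905) (nat_lit 4) .nil)))))),
   .der (nat_lit 644) (nat_lit 504),
   .der (nat_lit 49) (nat_lit 35),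
   .der (nat_lit 5971) (nat_lit 1651),
   .der (nat_lit 2339) (nat_lit 2188),
   .prs (.two (nat_lit 8324) (nat_lit 16) (nat_lit 8323) (nat_lit 1) (.two (nat_lit 13) (nat_lit 4) (nat_lit 7251) (nat_lit 16) (.two (nat_lit 30) (nat_lit 1) (nat_lit 8325) (nat_lit 16) (.two (nat_lit 383) (nat_lit 16) (nat_lit 8326) (nat_lit 1) (.two (nat_lit 3) (nat_lit 1) (nat_lit 7254) (nat_lit 4) (.two (nat_lit 0) (nat_lit 1) (nat_lit 6482) (nat_lit 4) (.one (nat_lit 7908) (nat_lit 1) .nil))))))),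
   .der (nat_lit 50) (nat_lit 586),
   .der (nat_lit 2135) (nat_lit 37),
   .prs (.two (nat_lit 8329) (nat_lit 8) (nat_lit 8328) (nat_lit 1) (.two (nat_lit 440) (nat_lit 2) (nat_lit 5574) (nat_lit 8) (.two (nat_lit 36) (nat_lit 2) (nat_lit 5575) (nat_lit 1) (.two (nat_lit 34) (nat_lit 2) (nat_lit 4764) (nat_lit 1) (.two (nat_lit 1) (nat_lit 2) (nat_lit 6524) (nat_lit 1) (.two (nat_lit 0) (nat_lit 8) (nat_lit 6528) (nat_lit 2) (.one (nat_lit 7942) (nat_lit 2) .nil))))))),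
   .der (nat_lit 20) (nat_lit 688),
   .prs (.two (nat_lit 3990) (nat_lit 16) (nat_lit 8331) (nat_lit 1) (.two (nat_lit 122) (nat_lit 2) (nat_lit 5566) (nat_lit 16) (.two (nat_lit 12) (nat_lit 1) (nat_lit 5562) (nat_lit 16) (.two (nat_lit 99) (nat_lit 1) (nat_lit 7937) (nat_lit 2) (.two (nat_lit 0) (nat_lit 2) (nat_lit 7912) (nat_lit 4) (.one (nat_lit 7946) (nat_lit 2) .nil)))))),
   .der (nat_lit 17185) (nat_lit 441),
   .der (nat_lit 137) (nat_lit 1027),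
   .der (nat_lit 17185) (nat_lit 3576),
   .prs (.two (nat_lit 7933) (nat_lit 16) (nat_lit 8333) (nat_lit 1) (.two (nat_lit 1582) (nat_lit 1) (nat_lit 8334) (nat_lit 16) (.two (nat_lit 12) (nat_lit 1) (nat_lit 5562) (nat_lit 16) (.two (nat_lit 96) (nat_lit 4) (nat_lit 8335) (nat_lit 2) (.two (nat_lit 1) (nat_lit 4) (nat_lit 7911) (nat_lit 1) (.two (nat_lit 0) (nat_lit 2) (nat_lit 7912) (nat_lit 4) (.one (nat_lit 7952) (nat_lit 4) .nil))))))),
   .der (nat_lit 5) (nat_lit 199),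
   .der (nat_lit 18) (nat_lit 72),
   .der (nat_lit 2578) (nat_lit 1392),
   .der (nat_lit 1650) (nat_lit 2369),
   .der (nat_lit 1650) (nat_lit 5156),
   .der (nat_lit 1) (nat_lit 6522),
   .prs (.two (nat_lit 8338) (nat_lit 16) (nat_lit 8337) (nat_lit 8) (.two (nat_lit 38) (nat_lit 16) (nat_lit 8339) (nat_lit 8) (.two (nat_lit 9) (nat_lit 16) (nat_lit 8340) (nat_lit 8) (.two (nat_lit 16) (nat_lit 1) (nat_lit 8341) (nat_lit 8) (.two (nat_lit 0) (nat_lit 1) (nat_lit 8342) (nat_lit 8) (.one (nat_lit 7957) (nat_lit 16) .nil)))))),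
   .der (nat_lit 29011) (nat_lit 414),
   .der (nat_lit 6) (nat_lit 2376),
   .der (nat_lit 6) (nat_lit 4071),
   .prs (.two (nat_lit 1307) (nat_lit 16) (nat_lit 8344) (nat_lit 2) (.two (nat_lit 717) (nat_lit 2) (nat_lit 8345) (nat_lit 16) (.two (nat_lit 1) (nat_lit 2) (nat_lit 8346) (nat_lit 16) (.two (nat_lit 0) (nat_lit 2) (nat_lit 6533) (nat_lit 16) (.one (nat_lit 7963) (nat_lit 2) .nil))))),
   .der (nat_lit 145) (nat_lit 1874),
   .der (nat_lit 9572) (nat_lit 3127),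
   .der (nat_lit 659) (nat_lit 4002),
   .prs (.two (nat_lit 6609) (nat_lit 1) (nat_lit 7970) (nat_lit 4) (.two (nat_lit 109) (nat_lit 1) (nat_lit 8348) (nat_lit 16) (.two (nat_lit 433) (nat_lit 4) (nat_lit 8349) (nat_lit 1) (.two (nat_lit 0) (nat_lit 4) (nat_lit 8350) (nat_lit 1) (.one (nat_lit 7979) (nat_lit 1) .nil))))),
   .der (nat_lit 1556) (nat_lit 1169),
   .der (nat_lit 2135) (nat_lit 864),
   .der (nat_lit 24916) (nat_lit 3410),
   .prs (.two (nat_lit 1492) (nat_lit 8) (nat_lit 7971) (nat_lit 4) (.two (nat_lit 444) (nat_lit 4) (nat_lit 8352) (nat_lit 8) (.two (nat_lit 78) (nat_lit 4) (nat_lit 8353) (nat_lit 8) (.two (nat_lit 3) (nat_lit 4) (nat_lit 8354) (nat_lit 8) (.two (nat_lit 0) (nat_lit 1) (nat_lit 5572) (nat_lit 8) (.one (nat_lit 7290) (nat_lit 8) .nil)))))),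
   .der (nat_lit 2135) (nat_lit 269),
   .der (nat_lit 86) (nat_lit 3141),
   .der (nat_lit 339) (nat_lit 4170),
   .prs (.two (nat_lit 3467) (nat_lit 16) (nat_lit 8356) (nat_lit 1) (.two (nat_lit 1302) (nat_lit 1) (nat_lit 5945) (nat_lit 16) (.two (nat_lit 3) (nat_lit 1) (nat_lit 8357) (nat_lit 16) (.two (nat_lit 0) (nat_lit 1) (nat_lit 8358) (nat_lit 16) (.one (nat_lit 6551) (nat_lit 16) .nil))))),
   .der (nat_lit 65) (nat_lit 765),
   .der (nat_lit 10545) (nat_lit 2343),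
   .der (nat_lit 340) (nat_lit 5994),
   .prs (.two (nat_lit 3467) (nat_lit 16) (nat_lit 8360) (nat_lit 1) (.two (nat_lit 97) (nat_lit 16) (nat_lit 8361) (nat_lit 1) (.two (nat_lit 7) (nat_lit 1) (nat_lit 7951) (nat_lit 16) (.two (nat_lit 11) (nat_lit 1) (nat_lit 8358) (nat_lit 16) (.two (nat_lit 0) (nat_lit 1) (nat_lit 8362) (nat_lit 16) (.one (nat_lit 7972) (nat_lit 1) .nil)))))),
   .der (nat_lit 10) (nat_lit 1076),
   .der (nat_lit 9587) (nat_lit 2346),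
   .prs (.two (nat_lit 3774) (nat_lit 4) (nat_lit 6549) (nat_lit 8) (.two (nat_lit 32) (nat_lit 8) (nat_lit 8364) (nat_lit 4) (.two (nat_lit 44) (nat_lit 8) (nat_lit 8365) (nat_lit 4) (.two (nat_lit 206) (nat_lit 4) (nat_lit 3752) (nat_lit 8) (.two (nat_lit 11) (nat_lit 8) (nat_lit 5561) (nat_lit 4) (.two (nat_lit 0) (nat_lit 8) (nat_lit 6541) (nat_lit 4) (.one (nat_lit 7977) (nat_lit 4) .nil))))))),
   .der (nat_lit 2323) (nat_lit 435),
   .der (nat_lit 612) (nat_lit 1074),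
   .der (nat_lit 9) (nat_lit 2365),
   .der (nat_lit 1893) (nat_lit 4656),
   .prs (.two (nat_lit 8124) (nat_lit 4) (nat_lit 5393) (nat_lit 8) (.two (nat_lit 1480) (nat_lit 8) (nat_lit 8367) (nat_lit 4) (.two (nat_lit 1259) (nat_lit 8) (nat_lit 8368) (nat_lit 4) (.two (nat_lit 206) (nat_lit 8) (nat_lit 8369) (nat_lit 4) (.two (nat_lit 1) (nat_lit 8) (nat_lit 8370) (nat_lit 4) (.one (nat_lit 6563) (nat_lit 4) .nil)))))),
   .der (nat_lit 22803) (nat_lit 441),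
   .prs (.two (nat_lit 941) (nat_lit 4) (nat_lit 6379) (nat_lit 16) (.two (nat_lit 1113) (nat_lit 2) (nat_lit 8372) (nat_lit 16) (.two (nat_lit 42) (nat_lit 16) (nat_lit 5555) (nat_lit 4) (.two (nat_lit 1) (nat_lit 16) (nat_lit 5556) (nat_lit 4) (.two (nat_lit 0) (nat_lit 2) (nat_lit 6564) (nat_lit 4) (.one (nat_lit 7924) (nat_lit 2) .nil)))))),
   .der (nat_lit 117) (nat_lit 1009),
   .der (nat_lit 152) (nat_lit 897),
   .der (nat_lit 1415) (nat_lit 2581),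
   .der (nat_lit 147) (nat_lit 2249),
   .prs (.two (nat_lit 900) (nat_lit 16) (nat_lit 8374) (nat_lit 4) (.two (nat_lit 490) (nat_lit 4) (nat_lit 8375) (nat_lit 16) (.two (nat_lit 1435) (nat_lit 4) (nat_lit 8376) (nat_lit 16) (.two (nat_lit 144) (nat_lit 4) (nat_lit 8377) (nat_lit 1) (.two (nat_lit 1) (nat_lit 4) (nat_lit 6612) (nat_lit 1) (.two (nat_lit 0) (nat_lit 4) (nat_lit 6600) (nat_lit 16) (.one (nat_lit 7334) (nat_lit 4) .nil))))))),
   .der (nat_lit 5971) (nat_lit 461),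
   .der (nat_lit 2113) (nat_lit 35),
   .der (nat_lit 101) (nat_lit 894),
   .der (nat_lit 29011) (nat_lit 2363),
   .der (nat_lit 147) (nat_lit 3144),
   .der (nat_lit 356) (nat_lit 5220),
   .prs (.two (nat_lit 8380) (nat_lit 1) (nat_lit 8379) (nat_lit 16) (.two (nat_lit 490) (nat_lit 4) (nat_lit 8381) (nat_lit 16) (.two (nat_lit 91) (nat_lit 16) (nat_lit 8382) (nat_lit 1) (.two (nat_lit 384) (nat_lit 1) (nat_lit 8383) (nat_lit 16) (.two (nat_lit 0) (nat_lit 4) (nat_lit 8384) (nat_lit 16) (.one (nat_lit 7344) (nat_lit 1) .nil)))))),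
   .der (nat_lit 114) (nat_lit 760),
   .der (nat_lit 117) (nat_lit 3180),
   .der (nat_lit 2193) (nat_lit 4254),
   .prs (.two (nat_lit 6849) (nat_lit 16) (nat_lit 8386) (nat_lit 4) (.two (nat_lit 520) (nat_lit 4) (nat_lit 1377) (nat_lit 16) (.two (nat_lit 34) (nat_lit 2) (nat_lit 8387) (nat_lit 16) (.two (nat_lit 1) (nat_lit 2) (nat_lit 8388) (nat_lit 4) (.two (nat_lit 0) (nat_lit 2) (nat_lit 7347) (nat_lit 4) (.one (nat_lit 7350) (nat_lit 2) .nil)))))),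
   .der (nat_lit 1395) (nat_lit 1328),
   .der (nat_lit 22548) (nat_lit 2708),
   .der (nat_lit 7) (nat_lit 2438),
   .der (nat_lit 1057) (nat_lit 4231),
   .prs (.two (nat_lit 33) (nat_lit 16) (nat_lit 8390) (nat_lit 2) (.two (nat_lit 38) (nat_lit 16) (nat_lit 8391) (nat_lit 2) (.two (nat_lit 758) (nat_lit 1) (nat_lit 8392) (nat_lit 2) (.two (nat_lit 214) (nat_lit 1) (nat_lit 8393) (nat_lit 2) (.two (nat_lit 3) (nat_lit 1) (nat_lit 6623) (nat_lit 2) (.one (nat_lit 7354) (nat_lit 1) .nil)))))),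
   .der (nat_lit 117) (nat_lit 245),
   .der (nat_lit 10) (nat_lit 1747),
   .der (nat_lit 1620) (nat_lit 2609),
   .der (nat_lit 1074) (nat_lit 4789),
   .prs (.two (nat_lit 5553) (nat_lit 2) (nat_lit 8395) (nat_lit 8) (.two (nat_lit 1322) (nat_lit 2) (nat_lit 6649) (nat_lit 1) (.two (nat_lit 1435) (nat_lit 8) (nat_lit 8396) (nat_lit 1) (.two (nat_lit 338) (nat_lit 2) (nat_lit 8397) (nat_lit 1) (.two (nat_lit 46) (nat_lit 2) (nat_lit 8398) (nat_lit 1) (.two (nat_lit 0) (nat_lit 2) (nat_lit 6629) (nat_lit 4) (.one (nat_lit 8019) (nat_lit 2) .nil))))))),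
   .der (nat_lit 137) (nat_lit 3172),
   .der (nat_lit 2390) (nat_lit 5425),
   .prs (.two (nat_lit 4911) (nat_lit 8) (nat_lit 1404) (nat_lit 16) (.two (nat_lit 576) (nat_lit 8) (nat_lit 6639) (nat_lit 16) (.two (nat_lit 1259) (nat_lit 8) (nat_lit 6665) (nat_lit 2) (.two (nat_lit 325) (nat_lit 8) (nat_lit 8400) (nat_lit 16) (.two (nat_lit 11) (nat_lit 8) (nat_lit 8401) (nat_lit 2) (.two (nat_lit 0) (nat_lit 2) (nat_lit 6626) (nat_lit 8) (.one (nat_lit 8010) (nat_lit 8) .nil))))))),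
   .der (nat_lit 37425) (nat_lit 539),
   .der (nat_lit 2068) (nat_lit 1788),
   .der (nat_lit 135) (nat_lit 2464),
   .der (nat_lit 33) (nat_lit 6528),
   .prs (.two (nat_lit 4074) (nat_lit 2) (nat_lit 8403) (nat_lit 4) (.two (nat_lit 122) (nat_lit 2) (nat_lit 8404) (nat_lit 4) (.two (nat_lit 6) (nat_lit 4) (nat_lit 8405) (nat_lit 2) (.two (nat_lit 338) (nat_lit 1) (nat_lit 6644) (nat_lit 4) (.two (nat_lit 46) (nat_lit 1) (nat_lit 8406) (nat_lit 4) (.one (nat_lit 8015) (nat_lit 1) .nil)))))),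
   .der (nat_lit 4) (nat_lit 1544),
   .der (nat_lit 18) (nat_lit 2464),
   .der (nat_lit 86) (nat_lit 4627),
   .der (nat_lit 135) (nat_lit 5443),
   .der (nat_lit 165) (nat_lit 5818),
   .prs (.two (nat_lit 6489) (nat_lit 1) (nat_lit 1722) (nat_lit 16) (.two (nat_lit 576) (nat_lit 1) (nat_lit 8408) (nat_lit 16) (.two (nat_lit 6) (nat_lit 4) (nat_lit 8409) (nat_lit 16) (.two (nat_lit 7) (nat_lit 16) (nat_lit 8410) (nat_lit 4) (.two (nat_lit 3) (nat_lit 4) (nat_lit 8411) (nat_lit 1) (.two (nat_lit 0) (nat_lit 4) (nat_lit 8412) (nat_lit 1) (.one (nat_lit 7364) (nat_lit 4) .nil))))))),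
   .der (nat_lit 1875) (nat_lit 982),
   .der (nat_lit 49) (nat_lit 4360),
   .der (nat_lit 49) (nat_lit 7060),
   .der (nat_lit 561) (nat_lit 7621),
   .prs (.two (nat_lit 415) (nat_lit 16) (nat_lit 5496) (nat_lit 1) (.two (nat_lit 717) (nat_lit 16) (nat_lit 8414) (nat_lit 2) (.two (nat_lit 397) (nat_lit 1) (nat_lit 5909) (nat_lit 16) (.two (nat_lit 1) (nat_lit 2) (nat_lit 8415) (nat_lit 16) (.two (nat_lit 0) (nat_lit 2) (nat_lit 8416) (nat_lit 1) (.one (nat_lit 8417) (nat_lit 1) .nil)))))),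
   .der (nat_lit 29011) (nat_lit 555),
   .der (nat_lit 1890) (nat_lit 927),
   .der (nat_lit 83) (nat_lit 3229),
   .der (nat_lit 2) (nat_lit 5935),
   .prs (.two (nat_lit 895) (nat_lit 16) (nat_lit 8419) (nat_lit 2) (.two (nat_lit 390) (nat_lit 16) (nat_lit 8420) (nat_lit 2) (.two (nat_lit 167) (nat_lit 2) (nat_lit 7526) (nat_lit 16) (.two (nat_lit 1) (nat_lit 2) (nat_lit 8421) (nat_lit 16) (.two (nat_lit 0) (nat_lit 8) (nat_lit 8422) (nat_lit 2) (.one (nat_lit 8043) (nat_lit 16) .nil)))))),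
   .der (nat_lit 1057) (nat_lit 382),
   .der (nat_lit 49) (nat_lit 1788),
   .der (nat_lit 1) (nat_lit 1377),
   .der (nat_lit 561) (nat_lit 3223),
   .der (nat_lit 1) (nat_lit 4117),
   .prs (.two (nat_lit 2344) (nat_lit 16) (nat_lit 8424) (nat_lit 1) (.two (nat_lit 105) (nat_lit 16) (nat_lit 8425) (nat_lit 1) (.two (nat_lit 537) (nat_lit 1) (nat_lit 8426) (nat_lit 16) (.two (nat_lit 434) (nat_lit 1) (nat_lit 8427) (nat_lit 16) (.two (nat_lit 16) (nat_lit 1) (nat_lit 8428) (nat_lit 16) (.two (nat_lit 0) (nat_lit 16) (nat_lit 7368) (nat_lit 1) (.one (nat_lit 8046) (nat_lit 1) .nil))))))),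
   .der (nat_lit 34068) (nat_lit 834),
   .der (nat_lit 152) (nat_lit 2926),
   .prs (.two (nat_lit 35) (nat_lit 4) (nat_lit 4944) (nat_lit 8) (.two (nat_lit 13) (nat_lit 4) (nat_lit 8430) (nat_lit 8) (.two (nat_lit 6) (nat_lit 4) (nat_lit 8431) (nat_lit 8) (.two (nat_lit 623) (nat_lit 4) (nat_lit 4935) (nat_lit 1) (.two (nat_lit 11) (nat_lit 1) (nat_lit 6690) (nat_lit 4) (.two (nat_lit 0) (nat_lit 1) (nat_lit 7378) (nat_lit 2) (.one (nat_lit 8052) (nat_lit 4) .nil))))))),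
   .der (nat_lit 2) (nat_lit 3236),
   .prs (.two (nat_lit 4926) (nat_lit 2) (nat_lit 1394) (nat_lit 16) (.two (nat_lit 122) (nat_lit 2) (nat_lit 6708) (nat_lit 16) (.two (nat_lit 75) (nat_lit 2) (nat_lit 8433) (nat_lit 16) (.two (nat_lit 0) (nat_lit 1) (nat_lit 6702) (nat_lit 16) (.one (nat_lit 8063) (nat_lit 1) .nil))))),
   .der (nat_lit 13345) (nat_lit 2339),
   .der (nat_lit 145) (nat_lit 4712),
   .der (nat_lit 152) (nat_lit 6077),
   .prs (.two (nat_lit 33) (nat_lit 8) (nat_lit 2688) (nat_lit 2) (.two (nat_lit 65) (nat_lit 8) (nat_lit 8435) (nat_lit 2) (.two (nat_lit 308) (nat_lit 2) (nat_lit 8436) (nat_lit 4) (.two (nat_lit 16) (nat_lit 2) (nat_lit 7679) (nat_lit 8) (.two (nat_lit 0) (nat_lit 2) (nat_lit 8437) (nat_lit 8) (.one (nat_lit 8066) (nat_lit 2) .nil)))))),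
   .der (nat_lit 9587) (nat_lit 123),
   .der (nat_lit 98) (nat_lit 67),
   .prs (.two (nat_lit 8440) (nat_lit 16) (nat_lit 8439) (nat_lit 1) (.two (nat_lit 1554) (nat_lit 16) (nat_lit 2517) (nat_lit 2) (.two (nat_lit 427) (nat_lit 2) (nat_lit 4964) (nat_lit 16) (.two (nat_lit 4) (nat_lit 2) (nat_lit 2540) (nat_lit 16) (.two (nat_lit 1) (nat_lit 4) (nat_lit 6779) (nat_lit 2) (.two (nat_lit 0) (nat_lit 1) (nat_lit 6741) (nat_lit 2) (.one (nat_lit 8114) (nat_lit 4) .nil))))))),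
   .der (nat_lit 103) (nat_lit 467),
   .der (nat_lit 10) (nat_lit 70),
   .der (nat_lit 1299) (nat_lit 857),
   .der (nat_lit 852) (nat_lit 1415),
   .der (nat_lit 801) (nat_lit 3587),
   .prs (.two (nat_lit 8443) (nat_lit 8) (nat_lit 8442) (nat_lit 16) (.two (nat_lit 13) (nat_lit 8) (nat_lit 8444) (nat_lit 16) (.two (nat_lit 12) (nat_lit 16) (nat_lit 8445) (nat_lit 8) (.two (nat_lit 463) (nat_lit 8) (nat_lit 8446) (nat_lit 2) (.two (nat_lit 1) (nat_lit 8) (nat_lit 6729) (nat_lit 2) (.two (nat_lit 0) (nat_lit 8) (nat_lit 6731) (nat_lit 2) (.one (nat_lit 8097) (nat_lit 8) .nil))))))),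
   .der (nat_lit 65) (nat_lit 864),
   .prs (.two (nat_lit 1607) (nat_lit 16) (nat_lit 3542) (nat_lit 1) (.two (nat_lit 97) (nat_lit 16) (nat_lit 8448) (nat_lit 1) (.two (nat_lit 68) (nat_lit 16) (nat_lit 3920) (nat_lit 1) (.two (nat_lit 1) (nat_lit 2) (nat_lit 5746) (nat_lit 1) (.two (nat_lit 0) (nat_lit 2) (nat_lit 6735) (nat_lit 1) (.one (nat_lit 8101) (nat_lit 1) .nil)))))),
   .der (nat_lit 137) (nat_lit 95),
   .der (nat_lit 103) (nat_lit 906),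
   .der (nat_lit 833) (nat_lit 2284),
   .der (nat_lit 1650) (nat_lit 4038),
   .prs (.two (nat_lit 4494) (nat_lit 8) (nat_lit 8450) (nat_lit 1) (.two (nat_lit 440) (nat_lit 2) (nat_lit 8451) (nat_lit 8) (.two (nat_lit 5) (nat_lit 1) (nat_lit 8452) (nat_lit 8) (.two (nat_lit 3) (nat_lit 1) (nat_lit 8453) (nat_lit 2) (.one (nat_lit 8116) (nat_lit 8) .nil))))),
   .der (nat_lit 1620) (nat_lit 169),
   .der (nat_lit 36) (nat_lit 1396),
   .der (nat_lit 35) (nat_lit 4563),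
   .der (nat_lit 22803) (nat_lit 5035),
   .der (nat_lit 21107) (nat_lit 6671),
   .prs (.two (nat_lit 4892) (nat_lit 1) (nat_lit 8455) (nat_lit 2) (.two (nat_lit 390) (nat_lit 16) (nat_lit 8456) (nat_lit 2) (.two (nat_lit 4) (nat_lit 2) (nat_lit 8457) (nat_lit 16) (.two (nat_lit 3) (nat_lit 1) (nat_lit 8458) (nat_lit 2) (.two (nat_lit 0) (nat_lit 1) (nat_lit 8459) (nat_lit 2) (.one (nat_lit 8111) (nat_lit 1) .nil)))))),
   .der (nat_lit 1650) (nat_lit 1309),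
   .der (nat_lit 147) (nat_lit 1475),
   .der (nat_lit 33) (nat_lit 4649),
   .der (nat_lit 2084) (nat_lit 6738),
   .der (nat_lit 2084) (nat_lit 8106),
   .prs (.two (nat_lit 4135) (nat_lit 4) (nat_lit 3923) (nat_lit 16) (.two (nat_lit 825) (nat_lit 4) (nat_lit 8461) (nat_lit 16) (.two (nat_lit 1118) (nat_lit 16) (nat_lit 8462) (nat_lit 4) (.two (nat_lit 68) (nat_lit 16) (nat_lit 8463) (nat_lit 4) (.two (nat_lit 1) (nat_lit 2) (nat_lit 8464) (nat_lit 16) (.one (nat_lit 8465) (nat_lit 16) .nil)))))),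
   .der (nat_lit 834) (nat_lit 255),
   .der (nat_lit 833) (nat_lit 461),
   .der (nat_lit 17185) (nat_lit 1520),
   .prs (.two (nat_lit 5877) (nat_lit 16) (nat_lit 8467) (nat_lit 2) (.two (nat_lit 965) (nat_lit 2) (nat_lit 8468) (nat_lit 4) (.two (nat_lit 36) (nat_lit 2) (nat_lit 8469) (nat_lit 16) (.two (nat_lit 2) (nat_lit 4) (nat_lit 6795) (nat_lit 2) (.two (nat_lit 1) (nat_lit 2) (nat_lit 5755) (nat_lit 16) (.two (nat_lit 0) (nat_lit 4) (nat_lit 6770) (nat_lit 16) (.one (nat_lit 8118) (nat_lit 4) .nil))))))),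
   .der (nat_lit 115) (nat_lit 113),
   .der (nat_lit 84) (nat_lit 3862),
   .der (nat_lit 9587) (nat_lit 4137),
   .prs (.two (nat_lit 7697) (nat_lit 8) (nat_lit 8471) (nat_lit 1) (.two (nat_lit 1413) (nat_lit 16) (nat_lit 4451) (nat_lit 8) (.two (nat_lit 710) (nat_lit 1) (nat_lit 8472) (nat_lit 8) (.two (nat_lit 0) (nat_lit 1) (nat_lit 8473) (nat_lit 8) (.one (nat_lit 7435) (nat_lit 16) .nil))))),
   .der (nat_lit 162) (nat_lit 1534),
   .der (nat_lit 65) (nat_lit 3141),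
   .prs (.two (nat_lit 2166) (nat_lit 8) (nat_lit 7410) (nat_lit 16) (.two (nat_lit 227) (nat_lit 8) (nat_lit 1078) (nat_lit 16) (.two (nat_lit 384) (nat_lit 16) (nat_lit 8475) (nat_lit 8) (.two (nat_lit 3) (nat_lit 16) (nat_lit 8476) (nat_lit 1) (.two (nat_lit 0) (nat_lit 8) (nat_lit 7399) (nat_lit 1) .nil))))),
   .der (nat_lit 21107) (nat_lit 2188),
   .der (nat_lit 1) (nat_lit 5800),
   .der (nat_lit 18) (nat_lit 7439),
   .prs (.two (nat_lit 424) (nat_lit 16) (nat_lit 4798) (nat_lit 4) (.two (nat_lit 794) (nat_lit 16) (nat_lit 8478) (nat_lit 2) (.two (nat_lit 129) (nat_lit 4) (nat_lit 3981) (nat_lit 16) (.two (nat_lit 1) (nat_lit 4) (nat_lit 8479) (nat_lit 2) (.two (nat_lit 0) (nat_lit 2) (nat_lit 8480) (nat_lit 4) (.one (nat_lit 8122) (nat_lit 16) .nil)))))),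
   .der (nat_lit 1299) (nat_lit 417),
   .der (nat_lit 2339) (nat_lit 6810),
   .prs (.two (nat_lit 3775) (nat_lit 4) (nat_lit 8482) (nat_lit 16) (.two (nat_lit 676) (nat_lit 4) (nat_lit 7442) (nat_lit 16) (.two (nat_lit 3) (nat_lit 4) (nat_lit 8483) (nat_lit 16) (.one (nat_lit 7461) (nat_lit 4) .nil)))),
   .der (nat_lit 1556) (nat_lit 172),
   .der (nat_lit 1) (nat_lit 169),
   .der (nat_lit 2193) (nat_lit 3116),
   .prs (.two (nat_lit 8486) (nat_lit 4) (nat_lit 8485) (nat_lit 8) (.two (nat_lit 35) (nat_lit 4) (nat_lit 4959) (nat_lit 8) (.two (nat_lit 13) (nat_lit 4) (nat_lit 8487) (nat_lit 8) (.two (nat_lit 1) (nat_lit 2) (nat_lit 5815) (nat_lit 1) (.two (nat_lit 0) (nat_lit 1) (nat_lit 6817) (nat_lit 2) (.one (nat_lit 7464) (nat_lit 1) .nil)))))),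
   .der (nat_lit 612) (nat_lit 1381),
   .der (nat_lit 1300) (nat_lit 2171),
   .prs (.two (nat_lit 3775) (nat_lit 4) (nat_lit 8482) (nat_lit 16) (.two (nat_lit 5386) (nat_lit 16) (nat_lit 8489) (nat_lit 4) (.two (nat_lit 794) (nat_lit 16) (nat_lit 8490) (nat_lit 4) (.two (nat_lit 42) (nat_lit 4) (nat_lit 3985) (nat_lit 16) (.two (nat_lit 1) (nat_lit 4) (nat_lit 5811) (nat_lit 16) (.two (nat_lit 0) (nat_lit 4) (nat_lit 7453) (nat_lit 16) (.one (nat_lit 8130) (nat_lit 16) .nil))))))),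
   .der (nat_lit 18) (nat_lit 5800),
   .prs (.two (nat_lit 1460) (nat_lit 16) (nat_lit 3746) (nat_lit 4) (.two (nat_lit 522) (nat_lit 4) (nat_lit 3136) (nat_lit 16) (.two (nat_lit 918) (nat_lit 4) (nat_lit 7459) (nat_lit 16) (.two (nat_lit 3) (nat_lit 4) (nat_lit 3981) (nat_lit 16) (.two (nat_lit 0) (nat_lit 1) (nat_lit 8492) (nat_lit 4) (.one (nat_lit 7466) (nat_lit 16) .nil)))))),
   .der (nat_lit 84) (nat_lit 417),
   .der (nat_lit 98) (nat_lit 3122),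
   .der (nat_lit 1) (nat_lit 7450),
   .prs (.two (nat_lit 1437) (nat_lit 16) (nat_lit 8494) (nat_lit 1) (.two (nat_lit 576) (nat_lit 1) (nat_lit 8191) (nat_lit 16) (.two (nat_lit 590) (nat_lit 1) (nat_lit 8495) (nat_lit 16) (.two (nat_lit 11) (nat_lit 1) (nat_lit 3981) (nat_lit 16) (.two (nat_lit 0) (nat_lit 8) (nat_lit 8496) (nat_lit 1) .nil))))),
   .der (nat_lit 4) (nat_lit 481),
   .der (nat_lit 2433) (nat_lit 1400)]

theorem b5_step16 (h : ∀ j < 8000, Good b5T j) : ∀ j < 8500, Good b5T j := by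
  intro j hj
  refine chkL_ok b5C16 8000 h (by decide +kernel) j ?_
  have h : b5C16.length = 500 := by decide +kernel
  omega

/-- certificates 8500..9000 -/
def b5C17 : List Cf :=
  [.der (nat_lit 18) (nat_lit 2188),
   .der (nat_lit 561) (nat_lit 5800),
   .prs (.two (nat_lit 3423) (nat_lit 16) (nat_lit 8498) (nat_lit 4) (.two (nat_lit 423) (nat_lit 16) (nat_lit 5903) (nat_lit 4) (.two (nat_lit 676) (nat_lit 16) (nat_lit 8499) (nat_lit 4) (.two (nat_lit 397) (nat_lit 16) (nat_lit 8500) (nat_lit 4) (.two (nat_lit 463) (nat_lit 4) (nat_lit 3981) (nat_lit 16) (.two (nat_lit 0) (nat_lit 1) (nat_lit 8501) (nat_lit 4) (.one (nat_lit 7450) (nat_lit 1) .nil))))))),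
   .der (nat_lit 117) (nat_lit 425),
   .der (nat_lit 5971) (nat_lit 82),
   .der (nat_lit 98) (nat_lit 1441),
   .der (nat_lit 1380) (nat_lit 2171),
   .der (nat_lit 1554) (nat_lit 3116),
   .der (nat_lit 339) (nat_lit 5046),
   .der (nat_lit 561) (nat_lit 5827),
   .der (nat_lit 339) (nat_lit 7474),
   .prs (.two (nat_lit 8504) (nat_lit 1) (nat_lit 8503) (nat_lit 16) (.two (nat_lit 3280) (nat_lit 1) (nat_lit 8505) (nat_lit 16) (.two (nat_lit 69) (nat_lit 16) (nat_lit 8506) (nat_lit 1) (.two (nat_lit 723) (nat_lit 1) (nat_lit 8507) (nat_lit 16) (.two (nat_lit 99) (nat_lit 1) (nat_lit 8508) (nat_lit 16) (.two (nat_lit 1) (nat_lit 4) (nat_lit 8509) (nat_lit 1) (.two (nat_lit 0) (nat_lit 4) (nat_lit 8510) (nat_lit 16) (.one (nat_lit 8139) (nat_lit 16) .nil)))))))),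
   .der (nat_lit 6) (nat_lit 2186),
   .der (nat_lit 1556) (nat_lit 5883),
   .prs (.two (nat_lit 82) (nat_lit 16) (nat_lit 5043) (nat_lit 8) (.two (nat_lit 33) (nat_lit 16) (nat_lit 6288) (nat_lit 8) (.two (nat_lit 13) (nat_lit 16) (nat_lit 8512) (nat_lit 8) (.two (nat_lit 129) (nat_lit 8) (nat_lit 3981) (nat_lit 16) (.two (nat_lit 1) (nat_lit 8) (nat_lit 8513) (nat_lit 16) (.two (nat_lit 0) (nat_lit 8) (nat_lit 7505) (nat_lit 16) (.one (nat_lit 8143) (nat_lit 16) .nil))))))),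
   .der (nat_lit 644) (nat_lit 2194),
   .der (nat_lit 2339) (nat_lit 3199),
   .der (nat_lit 2390) (nat_lit 3996),
   .der (nat_lit 98) (nat_lit 5039),
   .prs (.two (nat_lit 4234) (nat_lit 2) (nat_lit 1061) (nat_lit 1) (.two (nat_lit 33) (nat_lit 16) (nat_lit 1022) (nat_lit 1) (.two (nat_lit 38) (nat_lit 16) (nat_lit 8515) (nat_lit 1) (.two (nat_lit 404) (nat_lit 16) (nat_lit 8516) (nat_lit 2) (.two (nat_lit 34) (nat_lit 16) (nat_lit 8517) (nat_lit 1) (.two (nat_lit 1) (nat_lit 2) (nat_lit 8518) (nat_lit 16) (.two (nat_lit 0) (nat_lit 2) (nat_lit 7490) (nat_lit 1) .nil))))))),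
   .der (nat_lit 1890) (nat_lit 917),
   .prs (.two (nat_lit 4381) (nat_lit 16) (nat_lit 2329) (nat_lit 2) (.two (nat_lit 4380) (nat_lit 16) (nat_lit 8520) (nat_lit 2) (.two (nat_lit 1113) (nat_lit 16) (nat_lit 3396) (nat_lit 1) (.two (nat_lit 65) (nat_lit 2) (nat_lit 3223) (nat_lit 16) (.two (nat_lit 34) (nat_lit 2) (nat_lit 4113) (nat_lit 16) (.two (nat_lit 1) (nat_lit 2) (nat_lit 5920) (nat_lit 16) (.two (nat_lit 0) (nat_lit 1) (nat_lit 6865) (nat_lit 2) (.one (nat_lit 7522) (nat_lit 2) .nil)))))))),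
   .der (nat_lit 1556) (nat_lit 2210),
   .der (nat_lit 852) (nat_lit 4103),
   .der (nat_lit 8) (nat_lit 7441),
   .prs (.two (nat_lit 5870) (nat_lit 8) (nat_lit 6278) (nat_lit 16) (.two (nat_lit 32) (nat_lit 16) (nat_lit 6288) (nat_lit 8) (.two (nat_lit 12) (nat_lit 16) (nat_lit 8522) (nat_lit 8) (.two (nat_lit 2) (nat_lit 8) (nat_lit 8523) (nat_lit 16) (.two (nat_lit 0) (nat_lit 2) (nat_lit 8524) (nat_lit 8) .nil))))),
   .der (nat_lit 16738) (nat_lit 205),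
   .der (nat_lit 13345) (nat_lit 39),
   .der (nat_lit 340) (nat_lit 1381),
   .prs (.two (nat_lit 1548) (nat_lit 16) (nat_lit 8526) (nat_lit 1) (.two (nat_lit 8527) (nat_lit 1) (nat_lit 5933) (nat_lit 2) (.two (nat_lit 717) (nat_lit 16) (nat_lit 8528) (nat_lit 2) (.two (nat_lit 65) (nat_lit 2) (nat_lit 5909) (nat_lit 16) (.two (nat_lit 4) (nat_lit 2) (nat_lit 7497) (nat_lit 16) (.two (nat_lit 3) (nat_lit 1) (nat_lit 5924) (nat_lit 2) (.two (nat_lit 0) (nat_lit 1) (nat_lit 7498) (nat_lit 2) (.one (nat_lit 7528) (nat_lit 1) .nil)))))))),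
   .der (nat_lit 30226) (nat_lit 914),
   .der (nat_lit 2433) (nat_lit 1438),
   .der (nat_lit 129) (nat_lit 5052),
   .prs (.two (nat_lit 1410) (nat_lit 16) (nat_lit 1021) (nat_lit 8) (.two (nat_lit 2086) (nat_lit 16) (nat_lit 8530) (nat_lit 2) (.two (nat_lit 80) (nat_lit 16) (nat_lit 8531) (nat_lit 8) (.two (nat_lit 227) (nat_lit 16) (nat_lit 7508) (nat_lit 8) (.two (nat_lit 5) (nat_lit 8) (nat_lit 8532) (nat_lit 16) (.two (nat_lit 0) (nat_lit 1) (nat_lit 6860) (nat_lit 2) (.one (nat_lit 7542) (nat_lit 2) .nil))))))),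
   .der (nat_lit 87) (nat_lit 837),
   .der (nat_lit 162) (nat_lit 1438),
   .prs (.two (nat_lit 1460) (nat_lit 16) (nat_lit 8534) (nat_lit 4) (.two (nat_lit 825) (nat_lit 16) (nat_lit 8535) (nat_lit 1) (.two (nat_lit 6) (nat_lit 4) (nat_lit 2171) (nat_lit 16) (.two (nat_lit 463) (nat_lit 4) (nat_lit 6862) (nat_lit 16) (.two (nat_lit 1) (nat_lit 4) (nat_lit 5087) (nat_lit 16) (.two (nat_lit 0) (nat_lit 1) (nat_lit 6879) (nat_lit 4) (.one (nat_lit 8147) (nat_lit 16) .nil))))))),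
   .der (nat_lit 833) (nat_lit 914),
   .der (nat_lit 161) (nat_lit 3194),
   .der (nat_lit 86) (nat_lit 4113),
   .der (nat_lit 1) (nat_lit 5917),
   .prs (.two (nat_lit 4381) (nat_lit 16) (nat_lit 2329) (nat_lit 2) (.two (nat_lit 4380) (nat_lit 16) (nat_lit 8537) (nat_lit 2) (.two (nat_lit 1113) (nat_lit 16) (nat_lit 3396) (nat_lit 1) (.two (nat_lit 1459) (nat_lit 2) (nat_lit 8538) (nat_lit 16) (.two (nat_lit 361) (nat_lit 2) (nat_lit 8539) (nat_lit 16) (.two (nat_lit 3) (nat_lit 1) (nat_lit 8540) (nat_lit 16) (.two (nat_lit 0) (nat_lit 1) (nat_lit 6880) (nat_lit 2) (.one (nat_lit 7545) (nat_lit 1) .nil)))))))),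
   .der (nat_lit 2068) (nat_lit 177),
   .der (nat_lit 162) (nat_lit 1400),
   .der (nat_lit 34068) (nat_lit 3127),
   .der (nat_lit 6) (nat_lit 6860),
   .der (nat_lit 6) (nat_lit 7518),
   .prs (.two (nat_lit 1397) (nat_lit 16) (nat_lit 8542) (nat_lit 8) (.two (nat_lit 2829) (nat_lit 8) (nat_lit 8543) (nat_lit 4) (.two (nat_lit 2073) (nat_lit 8) (nat_lit 8544) (nat_lit 4) (.two (nat_lit 556) (nat_lit 8) (nat_lit 7649) (nat_lit 4) (.two (nat_lit 1) (nat_lit 8) (nat_lit 8545) (nat_lit 4) (.one (nat_lit 8546) (nat_lit 8) .nil)))))),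
   .der (nat_lit 36) (nat_lit 855),
   .der (nat_lit 1300) (nat_lit 864),
   .der (nat_lit 50) (nat_lit 3229),
   .der (nat_lit 129) (nat_lit 5079),
   .prs (.two (nat_lit 2204) (nat_lit 16) (nat_lit 8548) (nat_lit 4) (.two (nat_lit 676) (nat_lit 16) (nat_lit 8549) (nat_lit 4) (.two (nat_lit 42) (nat_lit 4) (nat_lit 8550) (nat_lit 16) (.two (nat_lit 1) (nat_lit 4) (nat_lit 8551) (nat_lit 16) (.two (nat_lit 0) (nat_lit 4) (nat_lit 6936) (nat_lit 16) (.one (nat_lit 7560) (nat_lit 4) .nil)))))),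
   .der (nat_lit 1893) (nat_lit 495),
   .der (nat_lit 132) (nat_lit 2280),
   .der (nat_lit 1) (nat_lit 3133),
   .der (nat_lit 49) (nat_lit 4028),
   .der (nat_lit 1) (nat_lit 5039),
   .prs (.two (nat_lit 82) (nat_lit 8) (nat_lit 8553) (nat_lit 4) (.two (nat_lit 1124) (nat_lit 2) (nat_lit 7569) (nat_lit 4) (.two (nat_lit 550) (nat_lit 8) (nat_lit 8554) (nat_lit 1) (.two (nat_lit 543) (nat_lit 2) (nat_lit 8555) (nat_lit 4) (.two (nat_lit 341) (nat_lit 2) (nat_lit 8556) (nat_lit 1) (.two (nat_lit 46) (nat_lit 2) (nat_lit 8557) (nat_lit 1) (.two (nat_lit 0) (nat_lit 1) (nat_lit 7564) (nat_lit 2) (.one (nat_lit 8155) (nat_lit 1) .nil)))))))),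
   .der (nat_lit 84) (nat_lit 485),
   .der (nat_lit 10) (nat_lit 1453),
   .der (nat_lit 7) (nat_lit 2203),
   .der (nat_lit 117) (nat_lit 4048),
   .prs (.two (nat_lit 2204) (nat_lit 4) (nat_lit 8559) (nat_lit 8) (.two (nat_lit 3097) (nat_lit 2) (nat_lit 3575) (nat_lit 8) (.two (nat_lit 440) (nat_lit 2) (nat_lit 8560) (nat_lit 8) (.two (nat_lit 1459) (nat_lit 2) (nat_lit 8561) (nat_lit 4) (.two (nat_lit 34) (nat_lit 2) (nat_lit 8562) (nat_lit 1) (.two (nat_lit 1) (nat_lit 2) (nat_lit 6011) (nat_lit 1) (.two (nat_lit 0) (nat_lit 1) (nat_lit 7567) (nat_lit 4) (.one (nat_lit 8157) (nat_lit 1) .nil)))))))),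
   .der (nat_lit 30226) (nat_lit 435),
   .der (nat_lit 161) (nat_lit 417),
   .der (nat_lit 1653) (nat_lit 2199),
   .der (nat_lit 2135) (nat_lit 4092),
   .der (nat_lit 1) (nat_lit 5869),
   .der (nat_lit 135) (nat_lit 6848),
   .der (nat_lit 1) (nat_lit 7464),
   .prs (.two (nat_lit 2204) (nat_lit 4) (nat_lit 8564) (nat_lit 2) (.two (nat_lit 35) (nat_lit 4) (nat_lit 8565) (nat_lit 8) (.two (nat_lit 13) (nat_lit 4) (nat_lit 8566) (nat_lit 8) (.two (nat_lit 2) (nat_lit 4) (nat_lit 8567) (nat_lit 1) (.two (nat_lit 1) (nat_lit 2) (nat_lit 8568) (nat_lit 1) (.two (nat_lit 0) (nat_lit 1) (nat_lit 8569) (nat_lit 4) (.one (nat_lit 8570) (nat_lit 2) .nil))))))),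
   .der (nat_lit 1890) (nat_lit 169),
   .der (nat_lit 84) (nat_lit 1448),
   .der (nat_lit 67) (nat_lit 5155),
   .der (nat_lit 2353) (nat_lit 5167),
   .prs (.two (nat_lit 1394) (nat_lit 2) (nat_lit 8572) (nat_lit 1) (.two (nat_lit 1124) (nat_lit 2) (nat_lit 8152) (nat_lit 4) (.two (nat_lit 69) (nat_lit 8) (nat_lit 8573) (nat_lit 1) (.two (nat_lit 882) (nat_lit 4) (nat_lit 4306) (nat_lit 1) (.two (nat_lit 341) (nat_lit 2) (nat_lit 8574) (nat_lit 1) (.two (nat_lit 46) (nat_lit 2) (nat_lit 8575) (nat_lit 1) (.two (nat_lit 0) (nat_lit 1) (nat_lit 6939) (nat_lit 2) (.one (nat_lit 7571) (nat_lit 1) .nil)))))))),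
   .der (nat_lit 20) (nat_lit 861),
   .der (nat_lit 644) (nat_lit 4103),
   .der (nat_lit 18) (nat_lit 5827),
   .prs (.two (nat_lit 4244) (nat_lit 2) (nat_lit 3114) (nat_lit 16) (.two (nat_lit 1113) (nat_lit 16) (nat_lit 8577) (nat_lit 2) (.two (nat_lit 227) (nat_lit 2) (nat_lit 8578) (nat_lit 16) (.two (nat_lit 0) (nat_lit 4) (nat_lit 8579) (nat_lit 2) (.one (nat_lit 7575) (nat_lit 16) .nil))))),
   .der (nat_lit 1653) (nat_lit 572),
   .der (nat_lit 36) (nat_lit 864),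
   .der (nat_lit 1) (nat_lit 7560),
   .prs (.two (nat_lit 2204) (nat_lit 16) (nat_lit 8581) (nat_lit 4) (.two (nat_lit 423) (nat_lit 16) (nat_lit 8582) (nat_lit 4) (.two (nat_lit 6) (nat_lit 4) (nat_lit 8550) (nat_lit 16) (.two (nat_lit 1) (nat_lit 4) (nat_lit 5087) (nat_lit 16) (.two (nat_lit 0) (nat_lit 1) (nat_lit 8583) (nat_lit 4) .nil))))),
   .der (nat_lit 98) (nat_lit 897),
   .der (nat_lit 5) (nat_lit 3161),
   .prs (.two (nat_lit 4244) (nat_lit 2) (nat_lit 8585) (nat_lit 16) (.two (nat_lit 13) (nat_lit 4) (nat_lit 8586) (nat_lit 16) (.two (nat_lit 1) (nat_lit 2) (nat_lit 7653) (nat_lit 1) (.two (nat_lit 0) (nat_lit 1) (nat_lit 6988) (nat_lit 2) (.one (nat_lit 7650) (nat_lit 1) .nil))))),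
   .der (nat_lit 2593) (nat_lit 169),
   .der (nat_lit 1554) (nat_lit 834),
   .der (nat_lit 8) (nat_lit 6982),
   .prs (.two (nat_lit 4381) (nat_lit 16) (nat_lit 8588) (nat_lit 1) (.two (nat_lit 1764) (nat_lit 4) (nat_lit 8589) (nat_lit 16) (.two (nat_lit 13) (nat_lit 4) (nat_lit 6974) (nat_lit 16) (.two (nat_lit 4) (nat_lit 2) (nat_lit 7671) (nat_lit 4) (.two (nat_lit 1) (nat_lit 2) (nat_lit 6096) (nat_lit 1) (.two (nat_lit 0) (nat_lit 1) (nat_lit 8590) (nat_lit 4) (.one (nat_lit 8187) (nat_lit 1) .nil))))))),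
   .der (nat_lit 86) (nat_lit 4126),
   .prs (.two (nat_lit 1460) (nat_lit 16) (nat_lit 1787) (nat_lit 4) (.two (nat_lit 423) (nat_lit 16) (nat_lit 2467) (nat_lit 1) (.two (nat_lit 13) (nat_lit 4) (nat_lit 8188) (nat_lit 16) (.two (nat_lit 2) (nat_lit 4) (nat_lit 8592) (nat_lit 16) (.two (nat_lit 3) (nat_lit 1) (nat_lit 7653) (nat_lit 2) (.two (nat_lit 0) (nat_lit 1) (nat_lit 7654) (nat_lit 2) (.one (nat_lit 8190) (nat_lit 1) .nil))))))),
   .der (nat_lit 101) (nat_lit 407),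
   .der (nat_lit 2578) (nat_lit 3109),
   .der (nat_lit 26386) (nat_lit 5033),
   .der (nat_lit 33345) (nat_lit 7641),
   .prs (.two (nat_lit 1410) (nat_lit 8) (nat_lit 8594) (nat_lit 16) (.two (nat_lit 33) (nat_lit 8) (nat_lit 8589) (nat_lit 16) (.two (nat_lit 13) (nat_lit 16) (nat_lit 8595) (nat_lit 8) (.two (nat_lit 3) (nat_lit 16) (nat_lit 8596) (nat_lit 8) (.two (nat_lit 0) (nat_lit 8) (nat_lit 7662) (nat_lit 16) (.one (nat_lit 8597) (nat_lit 16) .nil)))))),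
   .der (nat_lit 103) (nat_lit 1562),
   .der (nat_lit 137) (nat_lit 2369),
   .der (nat_lit 1) (nat_lit 4181),
   .der (nat_lit 33) (nat_lit 5871),
   .prs (.two (nat_lit 1440) (nat_lit 8) (nat_lit 5747) (nat_lit 1) (.two (nat_lit 33) (nat_lit 8) (nat_lit 8599) (nat_lit 16) (.two (nat_lit 6) (nat_lit 8) (nat_lit 8600) (nat_lit 4) (.two (nat_lit 2) (nat_lit 16) (nat_lit 8601) (nat_lit 1) (.two (nat_lit 3) (nat_lit 16) (nat_lit 8602) (nat_lit 4) (.two (nat_lit 0) (nat_lit 8) (nat_lit 7665) (nat_lit 1) (.one (nat_lit 8194) (nat_lit 4) .nil))))))),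
   .der (nat_lit 1415) (nat_lit 3279),
   .der (nat_lit 18) (nat_lit 7444),
   .prs (.two (nat_lit 1460) (nat_lit 16) (nat_lit 5356) (nat_lit 4) (.two (nat_lit 145) (nat_lit 16) (nat_lit 8604) (nat_lit 4) (.two (nat_lit 4) (nat_lit 2) (nat_lit 5927) (nat_lit 16) (.two (nat_lit 1) (nat_lit 2) (nat_lit 5095) (nat_lit 16) (.two (nat_lit 0) (nat_lit 1) (nat_lit 8605) (nat_lit 4) .nil))))),
   .der (nat_lit 2135) (nat_lit 448),
   .der (nat_lit 1299) (nat_lit 827),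
   .der (nat_lit 152) (nat_lit 2203),
   .der (nat_lit 2353) (nat_lit 4249),
   .prs (.two (nat_lit 3423) (nat_lit 16) (nat_lit 8607) (nat_lit 2) (.two (nat_lit 1764) (nat_lit 4) (nat_lit 8608) (nat_lit 16) (.two (nat_lit 13) (nat_lit 4) (nat_lit 7322) (nat_lit 16) (.two (nat_lit 6) (nat_lit 4) (nat_lit 8609) (nat_lit 2) (.two (nat_lit 439) (nat_lit 4) (nat_lit 8610) (nat_lit 1) (.two (nat_lit 3) (nat_lit 1) (nat_lit 6989) (nat_lit 2) (.two (nat_lit 0) (nat_lit 1) (nat_lit 7668) (nat_lit 2) (.one (nat_lit 8196) (nat_lit 1) .nil)))))))),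
   .der (nat_lit 801) (nat_lit 3132),
   .der (nat_lit 2193) (nat_lit 4092),
   .der (nat_lit 2113) (nat_lit 5823),
   .prs (.two (nat_lit 3423) (nat_lit 4) (nat_lit 2212) (nat_lit 16) (.two (nat_lit 676) (nat_lit 4) (nat_lit 8612) (nat_lit 16) (.two (nat_lit 2) (nat_lit 4) (nat_lit 8613) (nat_lit 2) (.two (nat_lit 1) (nat_lit 4) (nat_lit 8614) (nat_lit 16) (.one (nat_lit 8171) (nat_lit 2) .nil))))),
   .der (nat_lit 5) (nat_lit 636),
   .der (nat_lit 1300) (nat_lit 172),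
   .der (nat_lit 33) (nat_lit 3161),
   .der (nat_lit 6) (nat_lit 5818),
   .prs (.two (nat_lit 8617) (nat_lit 4) (nat_lit 8616) (nat_lit 16) (.two (nat_lit 1355) (nat_lit 4) (nat_lit 2215) (nat_lit 16) (.two (nat_lit 105) (nat_lit 16) (nat_lit 8228) (nat_lit 4) (.two (nat_lit 6) (nat_lit 4) (nat_lit 7047) (nat_lit 16) (.two (nat_lit 2) (nat_lit 4) (nat_lit 8618) (nat_lit 16) (.two (nat_lit 46) (nat_lit 1) (nat_lit 8619) (nat_lit 16) (.two (nat_lit 0) (nat_lit 1) (nat_lit 7672) (nat_lit 4) (.one (nat_lit 7676) (nat_lit 1) .nil)))))))),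
   .der (nat_lit 5) (nat_lit 1033),
   .der (nat_lit 19) (nat_lit 4013),
   .der (nat_lit 1554) (nat_lit 5982),
   .prs (.two (nat_lit 1394) (nat_lit 16) (nat_lit 1746) (nat_lit 2) (.two (nat_lit 4399) (nat_lit 16) (nat_lit 8621) (nat_lit 2) (.two (nat_lit 13) (nat_lit 4) (nat_lit 4091) (nat_lit 16) (.two (nat_lit 65) (nat_lit 2) (nat_lit 8231) (nat_lit 16) (.two (nat_lit 5) (nat_lit 1) (nat_lit 8622) (nat_lit 16) (.two (nat_lit 11) (nat_lit 2) (nat_lit 8623) (nat_lit 16) (.two (nat_lit 0) (nat_lit 1) (nat_lit 7680) (nat_lit 16) (.one (nat_lit 8201) (nat_lit 1) .nil)))))))),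
   .der (nat_lit 6) (nat_lit 1534),
   .der (nat_lit 34068) (nat_lit 4010),
   .prs (.two (nat_lit 1722) (nat_lit 16) (nat_lit 5872) (nat_lit 2) (.two (nat_lit 13) (nat_lit 16) (nat_lit 8625) (nat_lit 2) (.two (nat_lit 456) (nat_lit 16) (nat_lit 4019) (nat_lit 2) (.two (nat_lit 329) (nat_lit 16) (nat_lit 8626) (nat_lit 2) (.two (nat_lit 1) (nat_lit 16) (nat_lit 6993) (nat_lit 4) (.two (nat_lit 0) (nat_lit 2) (nat_lit 7682) (nat_lit 4) (.one (nat_lit 8206) (nat_lit 4) .nil))))))),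
   .der (nat_lit 833) (nat_lit 1074),
   .der (nat_lit 1890) (nat_lit 2203),
   .prs (.two (nat_lit 2337) (nat_lit 16) (nat_lit 5404) (nat_lit 1) (.two (nat_lit 4399) (nat_lit 16) (nat_lit 8628) (nat_lit 1) (.two (nat_lit 145) (nat_lit 16) (nat_lit 8255) (nat_lit 1) (.two (nat_lit 36) (nat_lit 2) (nat_lit 8629) (nat_lit 1) (.two (nat_lit 325) (nat_lit 2) (nat_lit 7001) (nat_lit 1) (.two (nat_lit 1) (nat_lit 2) (nat_lit 6098) (nat_lit 1) (.two (nat_lit 0) (nat_lit 1) (nat_lit 7684) (nat_lit 4) (.one (nat_lit 8210) (nat_lit 2) .nil)))))))),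
   .der (nat_lit 1650) (nat_lit 857),
   .der (nat_lit 33) (nat_lit 5079),
   .prs (.two (nat_lit 1722) (nat_lit 8) (nat_lit 8631) (nat_lit 4) (.two (nat_lit 13) (nat_lit 8) (nat_lit 7896) (nat_lit 2) (.two (nat_lit 6) (nat_lit 16) (nat_lit 7465) (nat_lit 2) (.two (nat_lit 1) (nat_lit 16) (nat_lit 8632) (nat_lit 8) (.two (nat_lit 0) (nat_lit 8) (nat_lit 6994) (nat_lit 2) (.one (nat_lit 8212) (nat_lit 2) .nil)))))),
   .der (nat_lit 834) (nat_lit 177),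
   .der (nat_lit 101) (nat_lit 3210),
   .der (nat_lit 33345) (nat_lit 6054),
   .prs (.two (nat_lit 82) (nat_lit 16) (nat_lit 8634) (nat_lit 1) (.two (nat_lit 6287) (nat_lit 16) (nat_lit 1545) (nat_lit 1) (.two (nat_lit 145) (nat_lit 16) (nat_lit 8635) (nat_lit 4) (.two (nat_lit 6) (nat_lit 4) (nat_lit 8215) (nat_lit 8) (.two (nat_lit 34) (nat_lit 8) (nat_lit 8216) (nat_lit 16) (.two (nat_lit 1) (nat_lit 8) (nat_lit 8636) (nat_lit 1) (.two (nat_lit 0) (nat_lit 1) (nat_lit 7687) (nat_lit 4) (.one (nat_lit 8217) (nat_lit 1) .nil)))))))),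
   .der (nat_lit 882) (nat_lit 59),
   .prs (.two (nat_lit 1445) (nat_lit 16) (nat_lit 670) (nat_lit 2) (.two (nat_lit 8638) (nat_lit 2) (nat_lit 3453) (nat_lit 16) (.two (nat_lit 520) (nat_lit 4) (nat_lit 6985) (nat_lit 16) (.two (nat_lit 96) (nat_lit 2) (nat_lit 7065) (nat_lit 16) (.two (nat_lit 1) (nat_lit 2) (nat_lit 6996) (nat_lit 4) (.two (nat_lit 0) (nat_lit 2) (nat_lit 7689) (nat_lit 4) (.one (nat_lit 7692) (nat_lit 2) .nil))))))),
   .der (nat_lit 1122) (nat_lit 640),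
   .der (nat_lit 1653) (nat_lit 1630),
   .der (nat_lit 152) (nat_lit 39),
   .der (nat_lit 1299) (nat_lit 3109),
   .der (nat_lit 19) (nat_lit 5037),
   .der (nat_lit 6) (nat_lit 7641),
   .prs (.two (nat_lit 2204) (nat_lit 16) (nat_lit 8640) (nat_lit 4) (.two (nat_lit 8642) (nat_lit 16) (nat_lit 8641) (nat_lit 4) (.two (nat_lit 520) (nat_lit 4) (nat_lit 8643) (nat_lit 16) (.two (nat_lit 1) (nat_lit 2) (nat_lit 8644) (nat_lit 16) (.two (nat_lit 0) (nat_lit 16) (nat_lit 8645) (nat_lit 2) .nil))))),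
   .der (nat_lit 9572) (nat_lit 407),
   .der (nat_lit 1) (nat_lit 425),
   .der (nat_lit 35) (nat_lit 3236),
   .prs (.two (nat_lit 424) (nat_lit 16) (nat_lit 8647) (nat_lit 4) (.two (nat_lit 4138) (nat_lit 4) (nat_lit 8648) (nat_lit 2) (.two (nat_lit 520) (nat_lit 4) (nat_lit 8649) (nat_lit 16) (.two (nat_lit 3) (nat_lit 4) (nat_lit 6101) (nat_lit 16) (.two (nat_lit 0) (nat_lit 2) (nat_lit 7695) (nat_lit 4) (.one (nat_lit 8218) (nat_lit 2) .nil)))))),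
   .der (nat_lit 4978) (nat_lit 3144),
   .der (nat_lit 20) (nat_lit 6015),
   .prs (.two (nat_lit 1397) (nat_lit 8) (nat_lit 6269) (nat_lit 16) (.two (nat_lit 13) (nat_lit 16) (nat_lit 8651) (nat_lit 8) (.two (nat_lit 1) (nat_lit 8) (nat_lit 8652) (nat_lit 16) (.two (nat_lit 0) (nat_lit 8) (nat_lit 7701) (nat_lit 16) (.one (nat_lit 8223) (nat_lit 8) .nil))))),
   .der (nat_lit 2135) (nat_lit 421),
   .der (nat_lit 13345) (nat_lit 1456),
   .der (nat_lit 129) (nat_lit 2300),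
   .der (nat_lit 101) (nat_lit 4073),
   .prs (.two (nat_lit 82) (nat_lit 8) (nat_lit 8654) (nat_lit 4) (.two (nat_lit 13) (nat_lit 8) (nat_lit 8655) (nat_lit 16) (.two (nat_lit 65) (nat_lit 16) (nat_lit 8656) (nat_lit 1) (.two (nat_lit 4) (nat_lit 16) (nat_lit 8657) (nat_lit 4) (.two (nat_lit 1) (nat_lit 16) (nat_lit 6104) (nat_lit 1) (.two (nat_lit 0) (nat_lit 4) (nat_lit 7703) (nat_lit 8) (.one (nat_lit 8226) (nat_lit 8) .nil))))))),
   .der (nat_lit 2593) (nat_lit 3236),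
   .der (nat_lit 129) (nat_lit 5926),
   .der (nat_lit 5) (nat_lit 7607),
   .prs (.two (nat_lit 1410) (nat_lit 8) (nat_lit 6269) (nat_lit 16) (.two (nat_lit 13) (nat_lit 16) (nat_lit 8659) (nat_lit 8) (.two (nat_lit 11) (nat_lit 8) (nat_lit 8660) (nat_lit 16) (.two (nat_lit 0) (nat_lit 8) (nat_lit 6999) (nat_lit 16) (.one (nat_lit 8661) (nat_lit 8) .nil))))),
   .der (nat_lit 4978) (nat_lit 655),
   .der (nat_lit 49) (nat_lit 904),
   .der (nat_lit 66) (nat_lit 1448),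
   .prs (.two (nat_lit 3278) (nat_lit 8) (nat_lit 8663) (nat_lit 4) (.two (nat_lit 3774) (nat_lit 8) (nat_lit 8664) (nat_lit 4) (.two (nat_lit 122) (nat_lit 8) (nat_lit 8665) (nat_lit 4) (.two (nat_lit 227) (nat_lit 2) (nat_lit 7705) (nat_lit 8) (.two (nat_lit 1) (nat_lit 2) (nat_lit 6979) (nat_lit 4) (.one (nat_lit 7706) (nat_lit 2) .nil)))))),
   .der (nat_lit 84) (nat_lit 412),
   .der (nat_lit 1395) (nat_lit 845),
   .der (nat_lit 5) (nat_lit 1428),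
   .prs (.two (nat_lit 5211) (nat_lit 16) (nat_lit 8667) (nat_lit 1) (.two (nat_lit 2469) (nat_lit 16) (nat_lit 8668) (nat_lit 4) (.two (nat_lit 965) (nat_lit 4) (nat_lit 8669) (nat_lit 16) (.two (nat_lit 6) (nat_lit 4) (nat_lit 7639) (nat_lit 16) (.two (nat_lit 2) (nat_lit 4) (nat_lit 7640) (nat_lit 16) (.two (nat_lit 1) (nat_lit 4) (nat_lit 6108) (nat_lit 16) (.two (nat_lit 0) (nat_lit 1) (nat_lit 7708) (nat_lit 4) (.one (nat_lit 8230) (nat_lit 1) .nil)))))))),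
   .der (nat_lit 2339) (nat_lit 6015),
   .prs (.two (nat_lit 4381) (nat_lit 16) (nat_lit 1695) (nat_lit 2) (.two (nat_lit 3097) (nat_lit 2) (nat_lit 4091) (nat_lit 16) (.two (nat_lit 6) (nat_lit 4) (nat_lit 8200) (nat_lit 16) (.two (nat_lit 75) (nat_lit 2) (nat_lit 7605) (nat_lit 4) (.two (nat_lit 16) (nat_lit 2) (nat_lit 8671) (nat_lit 1) (.two (nat_lit 0) (nat_lit 1) (nat_lit 7711) (nat_lit 4) (.one (nat_lit 8232) (nat_lit 1) .nil))))))),
   .der (nat_lit 24916) (nat_lit 2353),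
   .der (nat_lit 34068) (nat_lit 3109),
   .der (nat_lit 2084) (nat_lit 5037),
   .der (nat_lit 5) (nat_lit 6807),
   .der (nat_lit 33345) (nat_lit 7518),
   .prs (.two (nat_lit 3278) (nat_lit 8) (nat_lit 7637) (nat_lit 4) (.two (nat_lit 6041) (nat_lit 4) (nat_lit 6829) (nat_lit 8) (.two (nat_lit 127) (nat_lit 4) (nat_lit 8673) (nat_lit 8) (.two (nat_lit 384) (nat_lit 1) (nat_lit 8674) (nat_lit 8) (.two (nat_lit 1) (nat_lit 4) (nat_lit 8675) (nat_lit 8) (.two (nat_lit 0) (nat_lit 1) (nat_lit 8676) (nat_lit 8) (.one (nat_lit 8677) (nat_lit 1) .nil))))))),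
   .der (nat_lit 12658) (nat_lit 2353),
   .prs (.two (nat_lit 1429) (nat_lit 4) (nat_lit 6105) (nat_lit 16) (.two (nat_lit 81) (nat_lit 1) (nat_lit 8208) (nat_lit 16) (.two (nat_lit 397) (nat_lit 16) (nat_lit 8679) (nat_lit 2) (.two (nat_lit 78) (nat_lit 1) (nat_lit 8209) (nat_lit 16) (.two (nat_lit 16) (nat_lit 1) (nat_lit 8221) (nat_lit 4) (.two (nat_lit 0) (nat_lit 1) (nat_lit 7002) (nat_lit 2) (.one (nat_lit 8236) (nat_lit 4) .nil))))))),
   .der (nat_lit 4) (nat_lit 850),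
   .der (nat_lit 86) (nat_lit 3229),
   .der (nat_lit 35) (nat_lit 5800),
   .prs (.two (nat_lit 1383) (nat_lit 16) (nat_lit 4717) (nat_lit 1) (.two (nat_lit 415) (nat_lit 16) (nat_lit 8681) (nat_lit 1) (.two (nat_lit 145) (nat_lit 16) (nat_lit 5024) (nat_lit 4) (.two (nat_lit 404) (nat_lit 1) (nat_lit 8682) (nat_lit 16) (.two (nat_lit 3) (nat_lit 1) (nat_lit 8683) (nat_lit 4) (.one (nat_lit 7714) (nat_lit 1) .nil)))))),
   .der (nat_lit 882) (nat_lit 640),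
   .prs (.two (nat_lit 423) (nat_lit 16) (nat_lit 8685) (nat_lit 4) (.two (nat_lit 13) (nat_lit 4) (nat_lit 7084) (nat_lit 16) (.two (nat_lit 1) (nat_lit 4) (nat_lit 6139) (nat_lit 1) (.two (nat_lit 0) (nat_lit 1) (nat_lit 7730) (nat_lit 16) (.one (nat_lit 8237) (nat_lit 1) .nil))))),
   .der (nat_lit 5971) (nat_lit 640),
   .der (nat_lit 1811) (nat_lit 1166),
   .der (nat_lit 2113) (nat_lit 3144),
   .der (nat_lit 26386) (nat_lit 5827),
   .prs (.two (nat_lit 424) (nat_lit 4) (nat_lit 8687) (nat_lit 8) (.two (nat_lit 2829) (nat_lit 8) (nat_lit 8688) (nat_lit 2) (.two (nat_lit 520) (nat_lit 4) (nat_lit 8689) (nat_lit 8) (.two (nat_lit 1) (nat_lit 4) (nat_lit 8690) (nat_lit 2) (.one (nat_lit 7767) (nat_lit 2) .nil))))),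
   .der (nat_lit 86) (nat_lit 448),
   .der (nat_lit 22803) (nat_lit 6128),
   .prs (.two (nat_lit 3278) (nat_lit 8) (nat_lit 8692) (nat_lit 16) (.two (nat_lit 3097) (nat_lit 16) (nat_lit 6315) (nat_lit 8) (.two (nat_lit 440) (nat_lit 16) (nat_lit 6293) (nat_lit 8) (.two (nat_lit 65) (nat_lit 16) (nat_lit 7768) (nat_lit 8) (.two (nat_lit 4) (nat_lit 8) (nat_lit 7769) (nat_lit 16) (.two (nat_lit 11) (nat_lit 16) (nat_lit 8693) (nat_lit 1) (.two (nat_lit 0) (nat_lit 1) (nat_lit 7770) (nat_lit 16) (.one (nat_lit 7776) (nat_lit 1) .nil)))))))),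
   .der (nat_lit 22548) (nat_lit 169),
   .der (nat_lit 1893) (nat_lit 2407),
   .prs (.two (nat_lit 8695) (nat_lit 2) (nat_lit 1489) (nat_lit 4) (.two (nat_lit 1443) (nat_lit 2) (nat_lit 7109) (nat_lit 4) (.two (nat_lit 1113) (nat_lit 16) (nat_lit 8696) (nat_lit 2) (.two (nat_lit 404) (nat_lit 1) (nat_lit 3559) (nat_lit 16) (.two (nat_lit 439) (nat_lit 4) (nat_lit 4530) (nat_lit 2) (.two (nat_lit 1) (nat_lit 4) (nat_lit 6305) (nat_lit 1) (.two (nat_lit 0) (nat_lit 1) (nat_lit 7805) (nat_lit 2) (.one (nat_lit 8270) (nat_lit 4) .nil)))))))),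
   .der (nat_lit 13345) (nat_lit 4123),
   .der (nat_lit 21107) (nat_lit 6168),
   .prs (.two (nat_lit 4814) (nat_lit 8) (nat_lit 7152) (nat_lit 4) (.two (nat_lit 13) (nat_lit 4) (nat_lit 7768) (nat_lit 8) (.two (nat_lit 2) (nat_lit 4) (nat_lit 8698) (nat_lit 8) (.two (nat_lit 1) (nat_lit 4) (nat_lit 8699) (nat_lit 8) (.two (nat_lit 0) (nat_lit 4) (nat_lit 7143) (nat_lit 8) (.one (nat_lit 8275) (nat_lit 1) .nil)))))),
   .der (nat_lit 1122) (nat_lit 1052),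
   .der (nat_lit 1893) (nat_lit 3132),
   .der (nat_lit 24916) (nat_lit 4242),
   .der (nat_lit 1893) (nat_lit 6172),
   .prs (.two (nat_lit 82) (nat_lit 8) (nat_lit 2508) (nat_lit 16) (.two (nat_lit 39) (nat_lit 8) (nat_lit 8701) (nat_lit 16) (.two (nat_lit 13) (nat_lit 16) (nat_lit 8702) (nat_lit 2) (.two (nat_lit 463) (nat_lit 16) (nat_lit 8703) (nat_lit 2) (.two (nat_lit 1) (nat_lit 16) (nat_lit 8704) (nat_lit 8) (.two (nat_lit 0) (nat_lit 2) (nat_lit 7808) (nat_lit 8) (.one (nat_lit 8280) (nat_lit 8) .nil))))))),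
   .der (nat_lit 65) (nat_lit 205),
   .der (nat_lit 37425) (nat_lit 987),
   .der (nat_lit 5218) (nat_lit 1478),
   .der (nat_lit 2390) (nat_lit 3344),
   .prs (.two (nat_lit 8267) (nat_lit 1) (nat_lit 8706) (nat_lit 16) (.two (nat_lit 2130) (nat_lit 16) (nat_lit 8707) (nat_lit 1) (.two (nat_lit 69) (nat_lit 1) (nat_lit 8708) (nat_lit 16) (.two (nat_lit 404) (nat_lit 1) (nat_lit 8709) (nat_lit 16) (.two (nat_lit 384) (nat_lit 1) (nat_lit 4534) (nat_lit 16) (.two (nat_lit 1) (nat_lit 4) (nat_lit 7146) (nat_lit 1) (.two (nat_lit 0) (nat_lit 1) (nat_lit 7813) (nat_lit 4) (.one (nat_lit 8283) (nat_lit 16) .nil)))))))),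
   .der (nat_lit 65) (nat_lit 448),
   .der (nat_lit 659) (nat_lit 4145),
   .der (nat_lit 1073) (nat_lit 7795),
   .prs (.two (nat_lit 1440) (nat_lit 16) (nat_lit 8711) (nat_lit 1) (.two (nat_lit 1547) (nat_lit 1) (nat_lit 6074) (nat_lit 16) (.two (nat_lit 397) (nat_lit 1) (nat_lit 4054) (nat_lit 16) (.two (nat_lit 7) (nat_lit 16) (nat_lit 8712) (nat_lit 1) (.two (nat_lit 1) (nat_lit 2) (nat_lit 7148) (nat_lit 1) (.two (nat_lit 0) (nat_lit 2) (nat_lit 8713) (nat_lit 1) .nil)))))),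
   .der (nat_lit 5971) (nat_lit 187),
   .der (nat_lit 1122) (nat_lit 407),
   .der (nat_lit 370) (nat_lit 850),
   .der (nat_lit 371) (nat_lit 2633),
   .der (nat_lit 577) (nat_lit 4374),
   .prs (.two (nat_lit 8716) (nat_lit 1) (nat_lit 8715) (nat_lit 2) (.two (nat_lit 2893) (nat_lit 2) (nat_lit 8717) (nat_lit 1) (.two (nat_lit 573) (nat_lit 2) (nat_lit 8718) (nat_lit 1) (.two (nat_lit 42) (nat_lit 16) (nat_lit 6371) (nat_lit 2) (.two (nat_lit 170) (nat_lit 16) (nat_lit 8719) (nat_lit 2) (.two (nat_lit 1) (nat_lit 2) (nat_lit 6308) (nat_lit 1) (.two (nat_lit 0) (nat_lit 1) (nat_lit 7150) (nat_lit 2) (.one (nat_lit 8287) (nat_lit 2) .nil)))))))),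
   .der (nat_lit 145) (nat_lit 861),
   .der (nat_lit 10305) (nat_lit 2210),
   .der (nat_lit 22548) (nat_lit 4307),
   .der (nat_lit 8) (nat_lit 7771),
   .prs (.two (nat_lit 5870) (nat_lit 4) (nat_lit 6383) (nat_lit 16) (.two (nat_lit 3774) (nat_lit 4) (nat_lit 1858) (nat_lit 16) (.two (nat_lit 145) (nat_lit 16) (nat_lit 8721) (nat_lit 4) (.two (nat_lit 147) (nat_lit 16) (nat_lit 8722) (nat_lit 4) (.two (nat_lit 1068) (nat_lit 16) (nat_lit 8723) (nat_lit 4) (.two (nat_lit 1) (nat_lit 4) (nat_lit 7154) (nat_lit 16) (.two (nat_lit 0) (nat_lit 8) (nat_lit 8724) (nat_lit 1) .nil))))))),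
   .der (nat_lit 2390) (nat_lit 1396),
   .der (nat_lit 1299) (nat_lit 4145),
   .der (nat_lit 165) (nat_lit 7009),
   .prs (.two (nat_lit 4244) (nat_lit 8) (nat_lit 7177) (nat_lit 16) (.two (nat_lit 35) (nat_lit 16) (nat_lit 8726) (nat_lit 8) (.two (nat_lit 6) (nat_lit 16) (nat_lit 8159) (nat_lit 8) (.two (nat_lit 463) (nat_lit 8) (nat_lit 8727) (nat_lit 16) (.two (nat_lit 16) (nat_lit 2) (nat_lit 8728) (nat_lit 16) (.one (nat_lit 8292) (nat_lit 2) .nil)))))),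
   .der (nat_lit 129) (nat_lit 1088),
   .der (nat_lit 1395) (nat_lit 3473),
   .der (nat_lit 152) (nat_lit 4131),
   .prs (.two (nat_lit 1460) (nat_lit 16) (nat_lit 560) (nat_lit 4) (.two (nat_lit 1507) (nat_lit 16) (nat_lit 8730) (nat_lit 4) (.two (nat_lit 1245) (nat_lit 4) (nat_lit 8731) (nat_lit 1) (.two (nat_lit 9) (nat_lit 4) (nat_lit 8732) (nat_lit 1) (.two (nat_lit 1) (nat_lit 2) (nat_lit 6314) (nat_lit 16) (.two (nat_lit 0) (nat_lit 2) (nat_lit 7817) (nat_lit 1) (.one (nat_lit 8295) (nat_lit 1) .nil))))))),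
   .der (nat_lit 67) (nat_lit 852),
   .der (nat_lit 1299) (nat_lit 4055),
   .der (nat_lit 29011) (nat_lit 6951),
   .prs (.two (nat_lit 1417) (nat_lit 4) (nat_lit 7874) (nat_lit 2) (.two (nat_lit 1436) (nat_lit 1) (nat_lit 8734) (nat_lit 2) (.two (nat_lit 13) (nat_lit 4) (nat_lit 6346) (nat_lit 2) (.two (nat_lit 489) (nat_lit 4) (nat_lit 6198) (nat_lit 2) (.two (nat_lit 190) (nat_lit 16) (nat_lit 8735) (nat_lit 1) (.two (nat_lit 3) (nat_lit 16) (nat_lit 8736) (nat_lit 4) (.one (nat_lit 8300) (nat_lit 4) .nil))))))),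
   .der (nat_lit 1) (nat_lit 530),
   .der (nat_lit 161) (nat_lit 861),
   .der (nat_lit 30226) (nat_lit 4039),
   .der (nat_lit 26386) (nat_lit 6991),
   .prs (.two (nat_lit 1722) (nat_lit 8) (nat_lit 8738) (nat_lit 16) (.two (nat_lit 1492) (nat_lit 16) (nat_lit 8739) (nat_lit 8) (.two (nat_lit 129) (nat_lit 16) (nat_lit 8702) (nat_lit 2) (.two (nat_lit 4) (nat_lit 16) (nat_lit 8740) (nat_lit 2) (.two (nat_lit 1) (nat_lit 2) (nat_lit 8741) (nat_lit 1) (.two (nat_lit 0) (nat_lit 2) (nat_lit 7160) (nat_lit 1) (.one (nat_lit 8304) (nat_lit 8) .nil))))))),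
   .der (nat_lit 1554) (nat_lit 555),
   .der (nat_lit 2578) (nat_lit 4073),
   .der (nat_lit 37425) (nat_lit 6119),
   .prs (.two (nat_lit 7595) (nat_lit 8) (nat_lit 8743) (nat_lit 16) (.two (nat_lit 880) (nat_lit 8) (nat_lit 6388) (nat_lit 16) (.two (nat_lit 6) (nat_lit 16) (nat_lit 8744) (nat_lit 8) (.two (nat_lit 3) (nat_lit 8) (nat_lit 8745) (nat_lit 16) (.two (nat_lit 0) (nat_lit 8) (nat_lit 7771) (nat_lit 4) .nil))))),
   .der (nat_lit 129) (nat_lit 3332),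
   .der (nat_lit 137) (nat_lit 8266),
   .prs (.two (nat_lit 82) (nat_lit 16) (nat_lit 1522) (nat_lit 8) (.two (nat_lit 1355) (nat_lit 4) (nat_lit 3746) (nat_lit 8) (.two (nat_lit 86) (nat_lit 16) (nat_lit 8747) (nat_lit 4) (.two (nat_lit 12) (nat_lit 8) (nat_lit 8216) (nat_lit 16) (.two (nat_lit 46) (nat_lit 8) (nat_lit 7163) (nat_lit 4) (.two (nat_lit 0) (nat_lit 8) (nat_lit 7821) (nat_lit 16) (.one (nat_lit 8748) (nat_lit 8) .nil))))))),
   .der (nat_lit 37425) (nat_lit 1074),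
   .der (nat_lit 7) (nat_lit 4055),
   .der (nat_lit 2135) (nat_lit 5848),
   .prs (.two (nat_lit 3278) (nat_lit 8) (nat_lit 8750) (nat_lit 4) (.two (nat_lit 105) (nat_lit 4) (nat_lit 8271) (nat_lit 8) (.two (nat_lit 129) (nat_lit 4) (nat_lit 7768) (nat_lit 8) (.two (nat_lit 206) (nat_lit 8) (nat_lit 8751) (nat_lit 2) (.two (nat_lit 1) (nat_lit 4) (nat_lit 8752) (nat_lit 8) (.two (nat_lit 0) (nat_lit 2) (nat_lit 7825) (nat_lit 8) (.one (nat_lit 8308) (nat_lit 2) .nil))))))),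
   .der (nat_lit 1430) (nat_lit 2224),
   .der (nat_lit 5) (nat_lit 3559),
   .prs (.two (nat_lit 4074) (nat_lit 4) (nat_lit 6495) (nat_lit 1) (.two (nat_lit 105) (nat_lit 16) (nat_lit 4076) (nat_lit 4) (.two (nat_lit 404) (nat_lit 1) (nat_lit 8754) (nat_lit 16) (.two (nat_lit 7) (nat_lit 1) (nat_lit 8755) (nat_lit 16) (.two (nat_lit 1) (nat_lit 4) (nat_lit 5392) (nat_lit 1) (.two (nat_lit 0) (nat_lit 1) (nat_lit 7195) (nat_lit 4) (.one (nat_lit 8312) (nat_lit 1) .nil))))))),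
   .der (nat_lit 19) (nat_lit 855),
   .der (nat_lit 5) (nat_lit 1392),
   .der (nat_lit 4978) (nat_lit 4339),
   .der (nat_lit 33) (nat_lit 5809),
   .prs (.two (nat_lit 5870) (nat_lit 4) (nat_lit 1893) (nat_lit 1) (.two (nat_lit 1414) (nat_lit 4) (nat_lit 8757) (nat_lit 16) (.two (nat_lit 13) (nat_lit 4) (nat_lit 8758) (nat_lit 16) (.two (nat_lit 65) (nat_lit 2) (nat_lit 3158) (nat_lit 16) (.two (nat_lit 68) (nat_lit 16) (nat_lit 8759) (nat_lit 2) (.two (nat_lit 16) (nat_lit 16) (nat_lit 8760) (nat_lit 2) (.two (nat_lit 0) (nat_lit 1) (nat_lit 7892) (nat_lit 2) (.one (nat_lit 8319) (nat_lit 1) .nil)))))))),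
   .der (nat_lit 6) (nat_lit 417),
   .der (nat_lit 1073) (nat_lit 3427),
   .der (nat_lit 2193) (nat_lit 3122),
   .der (nat_lit 66) (nat_lit 5869),
   .der (nat_lit 162) (nat_lit 7444),
   .prs (.two (nat_lit 82) (nat_lit 8) (nat_lit 8762) (nat_lit 16) (.two (nat_lit 13) (nat_lit 8) (nat_lit 8763) (nat_lit 16) (.two (nat_lit 75) (nat_lit 16) (nat_lit 8764) (nat_lit 8) (.two (nat_lit 3) (nat_lit 8) (nat_lit 8765) (nat_lit 1) (.two (nat_lit 0) (nat_lit 1) (nat_lit 8766) (nat_lit 16) .nil))))),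
   .der (nat_lit 1299) (nat_lit 605),
   .der (nat_lit 5971) (nat_lit 3172),
   .der (nat_lit 340) (nat_lit 6131),
   .prs (.two (nat_lit 1383) (nat_lit 16) (nat_lit 8768) (nat_lit 1) (.two (nat_lit 81) (nat_lit 1) (nat_lit 6493) (nat_lit 16) (.two (nat_lit 12) (nat_lit 1) (nat_lit 8769) (nat_lit 16) (.two (nat_lit 2) (nat_lit 4) (nat_lit 5516) (nat_lit 1) (.two (nat_lit 1) (nat_lit 4) (nat_lit 8770) (nat_lit 1) (.two (nat_lit 0) (nat_lit 2) (nat_lit 7894) (nat_lit 4) (.one (nat_lit 8322) (nat_lit 1) .nil))))))),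
   .der (nat_lit 1074) (nat_lit 530),
   .der (nat_lit 114) (nat_lit 4316),
   .der (nat_lit 12658) (nat_lit 5992),
   .prs (.two (nat_lit 416) (nat_lit 16) (nat_lit 8772) (nat_lit 1) (.two (nat_lit 81) (nat_lit 1) (nat_lit 5531) (nat_lit 16) (.two (nat_lit 397) (nat_lit 16) (nat_lit 8773) (nat_lit 2) (.two (nat_lit 16) (nat_lit 1) (nat_lit 8774) (nat_lit 4) (.two (nat_lit 0) (nat_lit 1) (nat_lit 7255) (nat_lit 2) (.one (nat_lit 8327) (nat_lit 2) .nil)))))),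
   .der (nat_lit 83) (nat_lit 837),
   .der (nat_lit 1890) (nat_lit 2624),
   .der (nat_lit 161) (nat_lit 3239),
   .der (nat_lit 834) (nat_lit 5033),
   .der (nat_lit 1) (nat_lit 7612),
   .prs (.two (nat_lit 82) (nat_lit 8) (nat_lit 8776) (nat_lit 16) (.two (nat_lit 94) (nat_lit 16) (nat_lit 8777) (nat_lit 8) (.two (nat_lit 30) (nat_lit 16) (nat_lit 8778) (nat_lit 8) (.two (nat_lit 1) (nat_lit 16) (nat_lit 8779) (nat_lit 8) (.two (nat_lit 0) (nat_lit 1) (nat_lit 8780) (nat_lit 8) .nil))))),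
   .der (nat_lit 86) (nat_lit 597),
   .der (nat_lit 38163) (nat_lit 1651),
   .der (nat_lit 1107) (nat_lit 3556),
   .prs (.two (nat_lit 4685) (nat_lit 2) (nat_lit 8782) (nat_lit 16) (.two (nat_lit 4337) (nat_lit 2) (nat_lit 6125) (nat_lit 1) (.two (nat_lit 94) (nat_lit 16) (nat_lit 8783) (nat_lit 2) (.two (nat_lit 65) (nat_lit 2) (nat_lit 8784) (nat_lit 16) (.two (nat_lit 68) (nat_lit 2) (nat_lit 8350) (nat_lit 1) (.two (nat_lit 3) (nat_lit 4) (nat_lit 6517) (nat_lit 1) (.two (nat_lit 0) (nat_lit 4) (nat_lit 7922) (nat_lit 1) (.one (nat_lit 8347) (nat_lit 4) .nil)))))))),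
   .der (nat_lit 371) (nat_lit 1128),
   .der (nat_lit 1875) (nat_lit 5448),
   .prs (.two (nat_lit 4375) (nat_lit 16) (nat_lit 8786) (nat_lit 2) (.two (nat_lit 440) (nat_lit 2) (nat_lit 6514) (nat_lit 16) (.two (nat_lit 34) (nat_lit 2) (nat_lit 7915) (nat_lit 16) (.two (nat_lit 11) (nat_lit 1) (nat_lit 8787) (nat_lit 16) (.two (nat_lit 0) (nat_lit 1) (nat_lit 7277) (nat_lit 2) (.one (nat_lit 7949) (nat_lit 1) .nil)))))),
   .der (nat_lit 18) (nat_lit 392),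
   .der (nat_lit 1299) (nat_lit 2569),
   .der (nat_lit 2593) (nat_lit 4252),
   .der (nat_lit 145) (nat_lit 8295),
   .prs (.two (nat_lit 8789) (nat_lit 16) (nat_lit 872) (nat_lit 8) (.two (nat_lit 3097) (nat_lit 16) (nat_lit 6032) (nat_lit 8) (.two (nat_lit 440) (nat_lit 16) (nat_lit 8790) (nat_lit 8) (.two (nat_lit 75) (nat_lit 16) (nat_lit 8791) (nat_lit 8) (.two (nat_lit 1) (nat_lit 2) (nat_lit 6522) (nat_lit 8) (.two (nat_lit 0) (nat_lit 2) (nat_lit 7931) (nat_lit 8) (.one (nat_lit 8792) (nat_lit 16) .nil))))))),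
   .der (nat_lit 4) (nat_lit 172),
   .der (nat_lit 1380) (nat_lit 894),
   .der (nat_lit 1074) (nat_lit 39),
   .der (nat_lit 2433) (nat_lit 6344),
   .prs (.two (nat_lit 5720) (nat_lit 16) (nat_lit 8794) (nat_lit 1) (.two (nat_lit 8796) (nat_lit 16) (nat_lit 8795) (nat_lit 1) (.two (nat_lit 13) (nat_lit 4) (nat_lit 7951) (nat_lit 16) (.two (nat_lit 2) (nat_lit 4) (nat_lit 8358) (nat_lit 16) (.two (nat_lit 3) (nat_lit 1) (nat_lit 8797) (nat_lit 16) (.two (nat_lit 0) (nat_lit 1) (nat_lit 7938) (nat_lit 4) (.one (nat_lit 8366) (nat_lit 16) .nil))))))),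
   .der (nat_lit 20) (nat_lit 852),
   .der (nat_lit 118) (nat_lit 2740),
   .prs (.two (nat_lit 6732) (nat_lit 1) (nat_lit 8799) (nat_lit 2) (.two (nat_lit 625) (nat_lit 1) (nat_lit 8800) (nat_lit 2) (.two (nat_lit 433) (nat_lit 2) (nat_lit 3748) (nat_lit 1) (.two (nat_lit 46) (nat_lit 1) (nat_lit 5552) (nat_lit 2) (.two (nat_lit 0) (nat_lit 1) (nat_lit 7281) (nat_lit 2) (.one (nat_lit 8371) (nat_lit 2) .nil)))))),
   .der (nat_lit 129) (nat_lit 448),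
   .der (nat_lit 801) (nat_lit 1518),
   .der (nat_lit 644) (nat_lit 2346),
   .der (nat_lit 2084) (nat_lit 4420),
   .prs (.two (nat_lit 6927) (nat_lit 16) (nat_lit 8802) (nat_lit 1) (.two (nat_lit 127) (nat_lit 16) (nat_lit 8803) (nat_lit 1) (.two (nat_lit 129) (nat_lit 16) (nat_lit 8804) (nat_lit 1) (.two (nat_lit 9) (nat_lit 16) (nat_lit 8805) (nat_lit 1) (.two (nat_lit 1) (nat_lit 16) (nat_lit 5557) (nat_lit 1) (.two (nat_lit 0) (nat_lit 1) (nat_lit 7965) (nat_lit 16) (.one (nat_lit 8373) (nat_lit 1) .nil))))))),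
   .der (nat_lit 2068) (nat_lit 4002),
   .prs (.two (nat_lit 5891) (nat_lit 4) (nat_lit 5870) (nat_lit 8) (.two (nat_lit 127) (nat_lit 2) (nat_lit 4818) (nat_lit 8) (.two (nat_lit 2090) (nat_lit 4) (nat_lit 8807) (nat_lit 2) (.two (nat_lit 0) (nat_lit 4) (nat_lit 6537) (nat_lit 2) (.one (nat_lit 7969) (nat_lit 2) .nil))))),
   .der (nat_lit 1811) (nat_lit 192),
   .der (nat_lit 34068) (nat_lit 2188),
   .der (nat_lit 1650) (nat_lit 5898),
   .der (nat_lit 1) (nat_lit 6912),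
   .prs (.two (nat_lit 1531) (nat_lit 4) (nat_lit 8809) (nat_lit 1) (.two (nat_lit 35) (nat_lit 4) (nat_lit 4959) (nat_lit 8) (.two (nat_lit 13) (nat_lit 4) (nat_lit 5866) (nat_lit 8) (.two (nat_lit 6) (nat_lit 4) (nat_lit 8810) (nat_lit 2) (.two (nat_lit 7) (nat_lit 1) (nat_lit 6586) (nat_lit 2) (.two (nat_lit 1) (nat_lit 4) (nat_lit 8811) (nat_lit 8) (.two (nat_lit 0) (nat_lit 1) (nat_lit 8812) (nat_lit 8) (.one (nat_lit 7982) (nat_lit 1) .nil)))))))),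
   .der (nat_lit 129) (nat_lit 1033),
   .der (nat_lit 2390) (nat_lit 2317),
   .der (nat_lit 65) (nat_lit 4575),
   .prs (.two (nat_lit 424) (nat_lit 4) (nat_lit 8814) (nat_lit 8) (.two (nat_lit 13) (nat_lit 4) (nat_lit 5866) (nat_lit 8) (.two (nat_lit 129) (nat_lit 4) (nat_lit 8815) (nat_lit 8) (.two (nat_lit 383) (nat_lit 8) (nat_lit 8816) (nat_lit 4) (.two (nat_lit 46) (nat_lit 1) (nat_lit 7308) (nat_lit 2) (.one (nat_lit 7987) (nat_lit 1) .nil)))))),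
   .der (nat_lit 5971) (nat_lit 435),
   .der (nat_lit 1650) (nat_lit 417),
   .der (nat_lit 10545) (nat_lit 3184),
   .der (nat_lit 882) (nat_lit 5463),
   .der (nat_lit 833) (nat_lit 5809),
   .der (nat_lit 2433) (nat_lit 6839),
   .prs (.two (nat_lit 4244) (nat_lit 8) (nat_lit 8818) (nat_lit 1) (.two (nat_lit 1913) (nat_lit 1) (nat_lit 8819) (nat_lit 8) (.two (nat_lit 80) (nat_lit 8) (nat_lit 8820) (nat_lit 1) (.two (nat_lit 34) (nat_lit 8) (nat_lit 8821) (nat_lit 16) (.two (nat_lit 1) (nat_lit 8) (nat_lit 8822) (nat_lit 1) (.two (nat_lit 0) (nat_lit 8) (nat_lit 8823) (nat_lit 1) (.one (nat_lit 8001) (nat_lit 1) .nil))))))),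
   .der (nat_lit 19) (nat_lit 4028),
   .der (nat_lit 21107) (nat_lit 5216),
   .der (nat_lit 612) (nat_lit 7650),
   .prs (.two (nat_lit 2329) (nat_lit 8) (nat_lit 6607) (nat_lit 4) (.two (nat_lit 440) (nat_lit 8) (nat_lit 4776) (nat_lit 4) (.two (nat_lit 4) (nat_lit 8) (nat_lit 8825) (nat_lit 16) (.two (nat_lit 1) (nat_lit 16) (nat_lit 8826) (nat_lit 4) (.two (nat_lit 0) (nat_lit 4) (nat_lit 7318) (nat_lit 8) (.one (nat_lit 8827) (nat_lit 16) .nil)))))),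
   .der (nat_lit 2390) (nat_lit 572),
   .der (nat_lit 1556) (nat_lit 82),
   .der (nat_lit 135) (nat_lit 1033),
   .der (nat_lit 84) (nat_lit 1444),
   .der (nat_lit 135) (nat_lit 3445),
   .der (nat_lit 117) (nat_lit 4016),
   .der (nat_lit 20) (nat_lit 5982),
   .prs (.two (nat_lit 8830) (nat_lit 8) (nat_lit 8829) (nat_lit 2) (.two (nat_lit 4118) (nat_lit 8) (nat_lit 8831) (nat_lit 2) (.two (nat_lit 509) (nat_lit 16) (nat_lit 8832) (nat_lit 8) (.two (nat_lit 227) (nat_lit 16) (nat_lit 8833) (nat_lit 8) (.two (nat_lit 144) (nat_lit 2) (nat_lit 8834) (nat_lit 8) (.two (nat_lit 46) (nat_lit 2) (nat_lit 8835) (nat_lit 8) (.two (nat_lit 0) (nat_lit 2) (nat_lit 7324) (nat_lit 8) (.one (nat_lit 8378) (nat_lit 8) .nil)))))))),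
   .der (nat_lit 1299) (nat_lit 560),
   .der (nat_lit 12658) (nat_lit 1309),
   .der (nat_lit 1811) (nat_lit 5084),
   .der (nat_lit 5) (nat_lit 5827),
   .prs (.two (nat_lit 2204) (nat_lit 16) (nat_lit 8837) (nat_lit 2) (.two (nat_lit 6348) (nat_lit 2) (nat_lit 8838) (nat_lit 16) (.two (nat_lit 127) (nat_lit 16) (nat_lit 8577) (nat_lit 2) (.two (nat_lit 65) (nat_lit 2) (nat_lit 8550) (nat_lit 16) (.two (nat_lit 1) (nat_lit 2) (nat_lit 8839) (nat_lit 16) (.two (nat_lit 0) (nat_lit 1) (nat_lit 8840) (nat_lit 2) (.one (nat_lit 8385) (nat_lit 2) .nil))))))),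
   .der (nat_lit 1890) (nat_lit 1885),
   .der (nat_lit 2593) (nat_lit 1438),
   .der (nat_lit 5971) (nat_lit 3144),
   .der (nat_lit 612) (nat_lit 5220),
   .der (nat_lit 50) (nat_lit 7542),
   .prs (.two (nat_lit 3423) (nat_lit 16) (nat_lit 8837) (nat_lit 2) (.two (nat_lit 415) (nat_lit 16) (nat_lit 8842) (nat_lit 1) (.two (nat_lit 410) (nat_lit 16) (nat_lit 8843) (nat_lit 1) (.two (nat_lit 65) (nat_lit 2) (nat_lit 8844) (nat_lit 16) (.two (nat_lit 3) (nat_lit 1) (nat_lit 8845) (nat_lit 16) (.two (nat_lit 0) (nat_lit 1) (nat_lit 7339) (nat_lit 2) (.one (nat_lit 8846) (nat_lit 2) .nil))))))),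
   .der (nat_lit 165) (nat_lit 461),
   .der (nat_lit 22803) (nat_lit 82),
   .der (nat_lit 161) (nat_lit 1718),
   .der (nat_lit 3) (nat_lit 4734),
   .prs (.two (nat_lit 8849) (nat_lit 2) (nat_lit 8848) (nat_lit 16) (.two (nat_lit 4074) (nat_lit 2) (nat_lit 8850) (nat_lit 16) (.two (nat_lit 80) (nat_lit 16) (nat_lit 8405) (nat_lit 2) (.two (nat_lit 427) (nat_lit 2) (nat_lit 8851) (nat_lit 16) (.two (nat_lit 75) (nat_lit 2) (nat_lit 5638) (nat_lit 16) (.two (nat_lit 3) (nat_lit 1) (nat_lit 6623) (nat_lit 2) (.two (nat_lit 0) (nat_lit 1) (nat_lit 8005) (nat_lit 2) (.one (nat_lit 8407) (nat_lit 16) .nil)))))))),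
   .der (nat_lit 101) (nat_lit 870),
   .der (nat_lit 1893) (nat_lit 67),
   .der (nat_lit 7) (nat_lit 2332),
   .der (nat_lit 24916) (nat_lit 5079),
   .prs (.two (nat_lit 1404) (nat_lit 16) (nat_lit 4820) (nat_lit 8) (.two (nat_lit 8854) (nat_lit 8) (nat_lit 8853) (nat_lit 2) (.two (nat_lit 717) (nat_lit 8) (nat_lit 8855) (nat_lit 2) (.two (nat_lit 4) (nat_lit 8) (nat_lit 8856) (nat_lit 2) (.two (nat_lit 0) (nat_lit 8) (nat_lit 8034) (nat_lit 2) (.one (nat_lit 8413) (nat_lit 2) .nil)))))),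
   .der (nat_lit 66) (nat_lit 848),
   .der (nat_lit 354) (nat_lit 5953),
   .prs (.two (nat_lit 1548) (nat_lit 16) (nat_lit 8858) (nat_lit 1) (.two (nat_lit 71) (nat_lit 1) (nat_lit 3239) (nat_lit 16) (.two (nat_lit 16) (nat_lit 1) (nat_lit 8859) (nat_lit 2) (.one (nat_lit 8423) (nat_lit 1) .nil)))),
   .der (nat_lit 659) (nat_lit 646),
   .der (nat_lit 29011) (nat_lit 1454),
   .der (nat_lit 577) (nat_lit 2401),
   .der (nat_lit 18) (nat_lit 3236),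
   .prs (.two (nat_lit 416) (nat_lit 16) (nat_lit 8861) (nat_lit 1) (.two (nat_lit 8324) (nat_lit 16) (nat_lit 8862) (nat_lit 1) (.two (nat_lit 71) (nat_lit 16) (nat_lit 8863) (nat_lit 4) (.two (nat_lit 1126) (nat_lit 1) (nat_lit 5909) (nat_lit 16) (.two (nat_lit 384) (nat_lit 1) (nat_lit 8864) (nat_lit 16) (.two (nat_lit 3) (nat_lit 1) (nat_lit 6676) (nat_lit 16) (.two (nat_lit 0) (nat_lit 4) (nat_lit 8037) (nat_lit 1) (.one (nat_lit 8429) (nat_lit 4) .nil)))))))),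
   .der (nat_lit 9572) (nat_lit 495),
   .der (nat_lit 115) (nat_lit 848),
   .der (nat_lit 1380) (nat_lit 1450),
   .der (nat_lit 83) (nat_lit 2210),
   .der (nat_lit 3) (nat_lit 5033),
   .prs (.two (nat_lit 4381) (nat_lit 16) (nat_lit 8866) (nat_lit 2) (.two (nat_lit 4380) (nat_lit 16) (nat_lit 8867) (nat_lit 2) (.two (nat_lit 127) (nat_lit 16) (nat_lit 8868) (nat_lit 2) (.two (nat_lit 543) (nat_lit 2) (nat_lit 8869) (nat_lit 16) (.two (nat_lit 4) (nat_lit 2) (nat_lit 8643) (nat_lit 16) (.two (nat_lit 1) (nat_lit 2) (nat_lit 8870) (nat_lit 16) (.two (nat_lit 0) (nat_lit 1) (nat_lit 8055) (nat_lit 2) (.one (nat_lit 8048) (nat_lit 2) .nil)))))))),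
   .der (nat_lit 67) (nat_lit 477),
   .der (nat_lit 86) (nat_lit 6163),
   .der (nat_lit 5) (nat_lit 6880),
   .prs (.two (nat_lit 4814) (nat_lit 8) (nat_lit 8872) (nat_lit 4) (.two (nat_lit 3774) (nat_lit 8) (nat_lit 425) (nat_lit 4) (.two (nat_lit 80) (nat_lit 16) (nat_lit 6288) (nat_lit 8) (.two (nat_lit 456) (nat_lit 8) (nat_lit 7465) (nat_lit 16) (.two (nat_lit 1) (nat_lit 8) (nat_lit 8873) (nat_lit 16) (.two (nat_lit 0) (nat_lit 2) (nat_lit 8874) (nat_lit 8) (.one (nat_lit 8434) (nat_lit 8) .nil))))))),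
   .der (nat_lit 834) (nat_lit 417),
   .der (nat_lit 26386) (nat_lit 2353),
   .prs (.two (nat_lit 1404) (nat_lit 8) (nat_lit 8876) (nat_lit 1) (.two (nat_lit 13) (nat_lit 8) (nat_lit 8877) (nat_lit 1) (.two (nat_lit 493) (nat_lit 8) (nat_lit 5561) (nat_lit 4) (.two (nat_lit 1) (nat_lit 8) (nat_lit 6541) (nat_lit 4) (.two (nat_lit 0) (nat_lit 1) (nat_lit 8060) (nat_lit 4) (.one (nat_lit 8438) (nat_lit 1) .nil)))))),
   .der (nat_lit 10) (nat_lit 373),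
   .der (nat_lit 1810) (nat_lit 1824),
   .der (nat_lit 2593) (nat_lit 2373),
   .der (nat_lit 137) (nat_lit 4811),
   .der (nat_lit 577) (nat_lit 5263),
   .prs (.two (nat_lit 2252) (nat_lit 8) (nat_lit 8879) (nat_lit 1) (.two (nat_lit 13) (nat_lit 4) (nat_lit 8880) (nat_lit 8) (.two (nat_lit 6) (nat_lit 4) (nat_lit 8881) (nat_lit 8) (.two (nat_lit 2) (nat_lit 4) (nat_lit 8882) (nat_lit 2) (.two (nat_lit 3) (nat_lit 4) (nat_lit 8883) (nat_lit 2) (.two (nat_lit 0) (nat_lit 2) (nat_lit 8069) (nat_lit 8) (.one (nat_lit 8074) (nat_lit 16) .nil))))))),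
   .der (nat_lit 21092) (nat_lit 824),
   .der (nat_lit 339) (nat_lit 3626),
   .der (nat_lit 2323) (nat_lit 5059),
   .der (nat_lit 2593) (nat_lit 6528),
   .prs (.two (nat_lit 4685) (nat_lit 2) (nat_lit 3225) (nat_lit 16) (.two (nat_lit 3452) (nat_lit 16) (nat_lit 8885) (nat_lit 2) (.two (nat_lit 520) (nat_lit 4) (nat_lit 4970) (nat_lit 16) (.two (nat_lit 543) (nat_lit 4) (nat_lit 8886) (nat_lit 16) (.two (nat_lit 2) (nat_lit 4) (nat_lit 8887) (nat_lit 16) (.two (nat_lit 1) (nat_lit 16) (nat_lit 8888) (nat_lit 4) (.two (nat_lit 0) (nat_lit 4) (nat_lit 8085) (nat_lit 2) (.one (nat_lit 8460) (nat_lit 4) .nil)))))))),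
   .der (nat_lit 801) (nat_lit 6173),
   .prs (.two (nat_lit 1502) (nat_lit 8) (nat_lit 5012) (nat_lit 2) (.two (nat_lit 214) (nat_lit 1) (nat_lit 8476) (nat_lit 2) (.two (nat_lit 1) (nat_lit 2) (nat_lit 8890) (nat_lit 8) (.two (nat_lit 0) (nat_lit 1) (nat_lit 7405) (nat_lit 2) (.one (nat_lit 8470) (nat_lit 8) .nil))))),
   .der (nat_lit 1073) (nat_lit 453),
   .der (nat_lit 145) (nat_lit 169),
   .der (nat_lit 84) (nat_lit 1399),
   .der (nat_lit 33) (nat_lit 5733),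
   .prs (.two (nat_lit 8893) (nat_lit 4) (nat_lit 8892) (nat_lit 16) (.two (nat_lit 4744) (nat_lit 4) (nat_lit 2567) (nat_lit 16) (.two (nat_lit 13) (nat_lit 16) (nat_lit 8894) (nat_lit 4) (.two (nat_lit 6) (nat_lit 16) (nat_lit 4958) (nat_lit 4) (.two (nat_lit 514) (nat_lit 4) (nat_lit 8895) (nat_lit 8) (.two (nat_lit 1) (nat_lit 4) (nat_lit 7402) (nat_lit 8) (.two (nat_lit 0) (nat_lit 4) (nat_lit 8093) (nat_lit 8) (.one (nat_lit 8466) (nat_lit 8) .nil)))))))),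
   .der (nat_lit 801) (nat_lit 870),
   .der (nat_lit 9587) (nat_lit 3296),
   .prs (.two (nat_lit 8124) (nat_lit 4) (nat_lit 8897) (nat_lit 8) (.two (nat_lit 30) (nat_lit 8) (nat_lit 4980) (nat_lit 4) (.two (nat_lit 75) (nat_lit 4) (nat_lit 8898) (nat_lit 8) (.two (nat_lit 1) (nat_lit 2) (nat_lit 5749) (nat_lit 4) (.two (nat_lit 0) (nat_lit 2) (nat_lit 7409) (nat_lit 8) (.one (nat_lit 8474) (nat_lit 4) .nil)))))),
   .der (nat_lit 356) (nat_lit 580),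
   .der (nat_lit 2323) (nat_lit 74),
   .der (nat_lit 10) (nat_lit 1653),
   .der (nat_lit 5218) (nat_lit 2740),
   .prs (.two (nat_lit 8901) (nat_lit 4) (nat_lit 8900) (nat_lit 2) (.two (nat_lit 968) (nat_lit 2) (nat_lit 8902) (nat_lit 4) (.two (nat_lit 1189) (nat_lit 4) (nat_lit 8903) (nat_lit 2) (.two (nat_lit 206) (nat_lit 2) (nat_lit 4961) (nat_lit 4) (.two (nat_lit 1) (nat_lit 2) (nat_lit 5750) (nat_lit 4) (.two (nat_lit 0) (nat_lit 4) (nat_lit 7413) (nat_lit 2) (.one (nat_lit 8477) (nat_lit 2) .nil))))))),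
   .der (nat_lit 10) (nat_lit 74),
   .prs (.two (nat_lit 1460) (nat_lit 16) (nat_lit 425) (nat_lit 4) (.two (nat_lit 8905) (nat_lit 2) (nat_lit 8191) (nat_lit 16) (.two (nat_lit 145) (nat_lit 16) (nat_lit 3120) (nat_lit 1) (.two (nat_lit 91) (nat_lit 16) (nat_lit 5026) (nat_lit 1) (.two (nat_lit 4) (nat_lit 2) (nat_lit 3981) (nat_lit 16) (.two (nat_lit 1) (nat_lit 2) (nat_lit 7450) (nat_lit 1) (.one (nat_lit 8127) (nat_lit 1) .nil))))))),
   .der (nat_lit 2135) (nat_lit 2186),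
   .der (nat_lit 33) (nat_lit 7450),
   .prs (.two (nat_lit 424) (nat_lit 16) (nat_lit 5023) (nat_lit 4) (.two (nat_lit 8124) (nat_lit 4) (nat_lit 3136) (nat_lit 16) (.two (nat_lit 490) (nat_lit 2) (nat_lit 8907) (nat_lit 16) (.two (nat_lit 543) (nat_lit 4) (nat_lit 3122) (nat_lit 16) (.two (nat_lit 17) (nat_lit 2) (nat_lit 3981) (nat_lit 16) (.two (nat_lit 1) (nat_lit 2) (nat_lit 7449) (nat_lit 4) (.two (nat_lit 0) (nat_lit 2) (nat_lit 8908) (nat_lit 4) (.one (nat_lit 8497) (nat_lit 2) .nil)))))))),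
   .der (nat_lit 2339) (nat_lit 1392),
   .der (nat_lit 1300) (nat_lit 3138),
   .der (nat_lit 35) (nat_lit 5079),
   .der (nat_lit 1653) (nat_lit 6839),
   .prs (.two (nat_lit 1531) (nat_lit 16) (nat_lit 8910) (nat_lit 4) (.two (nat_lit 676) (nat_lit 16) (nat_lit 8911) (nat_lit 4) (.two (nat_lit 214) (nat_lit 4) (nat_lit 8912) (nat_lit 16) (.two (nat_lit 1) (nat_lit 16) (nat_lit 8913) (nat_lit 4) (.two (nat_lit 0) (nat_lit 4) (nat_lit 7494) (nat_lit 16) (.one (nat_lit 8525) (nat_lit 4) .nil)))))),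
   .der (nat_lit 129) (nat_lit 169),
   .der (nat_lit 147) (nat_lit 1456),
   .der (nat_lit 339) (nat_lit 4055),
   .der (nat_lit 371) (nat_lit 7481),
   .prs (.two (nat_lit 8915) (nat_lit 16) (nat_lit 1018) (nat_lit 4) (.two (nat_lit 6849) (nat_lit 16) (nat_lit 8916) (nat_lit 4) (.two (nat_lit 676) (nat_lit 4) (nat_lit 2180) (nat_lit 16) (.two (nat_lit 456) (nat_lit 4) (nat_lit 8917) (nat_lit 16) (.two (nat_lit 2) (nat_lit 4) (nat_lit 5079) (nat_lit 16) (.two (nat_lit 3) (nat_lit 4) (nat_lit 8918) (nat_lit 16) (.one (nat_lit 8519) (nat_lit 4) .nil))))))),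
   .der (nat_lit 5716) (nat_lit 1534),
   .der (nat_lit 33) (nat_lit 3116),
   .der (nat_lit 2193) (nat_lit 5823),
   .prs (.two (nat_lit 3278) (nat_lit 8) (nat_lit 1418) (nat_lit 16) (.two (nat_lit 1307) (nat_lit 16) (nat_lit 8920) (nat_lit 2) (.two (nat_lit 520) (nat_lit 8) (nat_lit 8921) (nat_lit 16) (.two (nat_lit 384) (nat_lit 16) (nat_lit 5084) (nat_lit 8) (.two (nat_lit 1) (nat_lit 2) (nat_lit 8922) (nat_lit 8) (.two (nat_lit 0) (nat_lit 2) (nat_lit 7499) (nat_lit 8) (.one (nat_lit 8529) (nat_lit 8) .nil))))))),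
   .der (nat_lit 36) (nat_lit 3152),
   .der (nat_lit 371) (nat_lit 3996),
   .der (nat_lit 129) (nat_lit 5827),
   .prs (.two (nat_lit 1722) (nat_lit 16) (nat_lit 1022) (nat_lit 4) (.two (nat_lit 2793) (nat_lit 8) (nat_lit 6288) (nat_lit 4) (.two (nat_lit 13) (nat_lit 16) (nat_lit 8924) (nat_lit 8) (.two (nat_lit 6) (nat_lit 16) (nat_lit 8925) (nat_lit 8) (.two (nat_lit 2) (nat_lit 4) (nat_lit 5912) (nat_lit 8) (.two (nat_lit 11) (nat_lit 8) (nat_lit 8926) (nat_lit 4) (.two (nat_lit 0) (nat_lit 8) (nat_lit 7511) (nat_lit 4) (.one (nat_lit 8533) (nat_lit 4) .nil)))))))),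
   .der (nat_lit 33) (nat_lit 10),
   .der (nat_lit 101) (nat_lit 5827),
   .prs (.two (nat_lit 424) (nat_lit 16) (nat_lit 7483) (nat_lit 4) (.two (nat_lit 520) (nat_lit 4) (nat_lit 2171) (nat_lit 16) (.two (nat_lit 8928) (nat_lit 4) (nat_lit 6862) (nat_lit 16) (.two (nat_lit 556) (nat_lit 4) (nat_lit 5915) (nat_lit 16) (.two (nat_lit 1) (nat_lit 4) (nat_lit 8929) (nat_lit 2) (.two (nat_lit 0) (nat_lit 4) (nat_lit 7515) (nat_lit 2) (.one (nat_lit 8536) (nat_lit 2) .nil))))))),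
   .der (nat_lit 1653) (nat_lit 873),
   .der (nat_lit 1811) (nat_lit 82),
   .der (nat_lit 10) (nat_lit 4020),
   .der (nat_lit 10) (nat_lit 5828),
   .der (nat_lit 1554) (nat_lit 7461),
   .prs (.two (nat_lit 8932) (nat_lit 16) (nat_lit 8931) (nat_lit 2) (.two (nat_lit 5034) (nat_lit 2) (nat_lit 4798) (nat_lit 4) (.two (nat_lit 520) (nat_lit 4) (nat_lit 6110) (nat_lit 16) (.two (nat_lit 209) (nat_lit 16) (nat_lit 8933) (nat_lit 2) (.two (nat_lit 452) (nat_lit 8) (nat_lit 8934) (nat_lit 2) (.two (nat_lit 3) (nat_lit 8) (nat_lit 8935) (nat_lit 2) (.one (nat_lit 8541) (nat_lit 4) .nil))))))),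
   .der (nat_lit 612) (nat_lit 169),
   .der (nat_lit 3) (nat_lit 1446),
   .der (nat_lit 117) (nat_lit 4039),
   .der (nat_lit 6) (nat_lit 5912),
   .prs (.two (nat_lit 8937) (nat_lit 2) (nat_lit 1027) (nat_lit 4) (.two (nat_lit 4330) (nat_lit 16) (nat_lit 8938) (nat_lit 2) (.two (nat_lit 522) (nat_lit 8) (nat_lit 3220) (nat_lit 2) (.two (nat_lit 625) (nat_lit 8) (nat_lit 8939) (nat_lit 2) (.two (nat_lit 374) (nat_lit 2) (nat_lit 8940) (nat_lit 8) (.two (nat_lit 1) (nat_lit 4) (nat_lit 6860) (nat_lit 2) (.two (nat_lit 0) (nat_lit 2) (nat_lit 7518) (nat_lit 4) (.one (nat_lit 8547) (nat_lit 2) .nil)))))))),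
   .der (nat_lit 145) (nat_lit 1558),
   .der (nat_lit 2390) (nat_lit 2227),
   .der (nat_lit 339) (nat_lit 3985),
   .der (nat_lit 35) (nat_lit 7450),
   .prs (.two (nat_lit 424) (nat_lit 16) (nat_lit 5903) (nat_lit 4) (.two (nat_lit 1972) (nat_lit 16) (nat_lit 8942) (nat_lit 4) (.two (nat_lit 105) (nat_lit 16) (nat_lit 8943) (nat_lit 4) (.two (nat_lit 528) (nat_lit 4) (nat_lit 3122) (nat_lit 16) (.two (nat_lit 144) (nat_lit 4) (nat_lit 8944) (nat_lit 16) (.two (nat_lit 1) (nat_lit 2) (nat_lit 8945) (nat_lit 4) (.one (nat_lit 8576) (nat_lit 16) .nil))))))),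
   .der (nat_lit 1650) (nat_lit 2227),
   .der (nat_lit 8) (nat_lit 3116),
   .der (nat_lit 21092) (nat_lit 5901),
   .der (nat_lit 50) (nat_lit 6885),
   .prs (.two (nat_lit 1410) (nat_lit 16) (nat_lit 3339) (nat_lit 8) (.two (nat_lit 440) (nat_lit 16) (nat_lit 8947) (nat_lit 8) (.two (nat_lit 12) (nat_lit 8) (nat_lit 8948) (nat_lit 16) (.two (nat_lit 514) (nat_lit 16) (nat_lit 8949) (nat_lit 8) (.two (nat_lit 46) (nat_lit 1) (nat_lit 8950) (nat_lit 8) (.two (nat_lit 0) (nat_lit 1) (nat_lit 8605) (nat_lit 8) (.one (nat_lit 8580) (nat_lit 8) .nil))))))),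
   .der (nat_lit 1650) (nat_lit 850),
   .der (nat_lit 10) (nat_lit 2183),
   .der (nat_lit 1299) (nat_lit 3985),
   .der (nat_lit 152) (nat_lit 6066),
   .der (nat_lit 33) (nat_lit 7469),
   .prs (.two (nat_lit 82) (nat_lit 8) (nat_lit 8952) (nat_lit 2) (.two (nat_lit 33) (nat_lit 8) (nat_lit 8953) (nat_lit 2) (.two (nat_lit 6) (nat_lit 16) (nat_lit 8954) (nat_lit 1) (.two (nat_lit 1) (nat_lit 16) (nat_lit 8955) (nat_lit 1) (.two (nat_lit 0) (nat_lit 16) (nat_lit 8956) (nat_lit 2) (.one (nat_lit 8633) (nat_lit 1) .nil)))))),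
   .der (nat_lit 24916) (nat_lit 906),
   .der (nat_lit 561) (nat_lit 2171),
   .der (nat_lit 13345) (nat_lit 5033),
   .der (nat_lit 26386) (nat_lit 6888),
   .der (nat_lit 10) (nat_lit 8606),
   .prs (.two (nat_lit 1531) (nat_lit 16) (nat_lit 8958) (nat_lit 8) (.two (nat_lit 33) (nat_lit 8) (nat_lit 8959) (nat_lit 16) (.two (nat_lit 6) (nat_lit 8) (nat_lit 8844) (nat_lit 16) (.two (nat_lit 2) (nat_lit 16) (nat_lit 8960) (nat_lit 8) (.two (nat_lit 1) (nat_lit 16) (nat_lit 8961) (nat_lit 8) (.two (nat_lit 0) (nat_lit 8) (nat_lit 7618) (nat_lit 16) (.one (nat_lit 8962) (nat_lit 16) .nil))))))),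
   .der (nat_lit 30226) (nat_lit 950),
   .der (nat_lit 165) (nat_lit 2391),
   .der (nat_lit 38163) (nat_lit 4010),
   .der (nat_lit 101) (nat_lit 7599),
   .prs (.two (nat_lit 82) (nat_lit 16) (nat_lit 8964) (nat_lit 2) (.two (nat_lit 4135) (nat_lit 16) (nat_lit 8965) (nat_lit 2) (.two (nat_lit 105) (nat_lit 4) (nat_lit 8966) (nat_lit 2) (.two (nat_lit 170) (nat_lit 2) (nat_lit 6077) (nat_lit 4) (.two (nat_lit 1) (nat_lit 4) (nat_lit 8967) (nat_lit 2) (.one (nat_lit 8637) (nat_lit 2) .nil)))))),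
   .der (nat_lit 1299) (nat_lit 984),
   .der (nat_lit 10) (nat_lit 169),
   .prs (.two (nat_lit 8970) (nat_lit 4) (nat_lit 8969) (nat_lit 16) (.two (nat_lit 37) (nat_lit 4) (nat_lit 6974) (nat_lit 16) (.two (nat_lit 6) (nat_lit 4) (nat_lit 4296) (nat_lit 16) (.two (nat_lit 4) (nat_lit 2) (nat_lit 6088) (nat_lit 16) (.two (nat_lit 1) (nat_lit 2) (nat_lit 6986) (nat_lit 1) (.two (nat_lit 0) (nat_lit 1) (nat_lit 8178) (nat_lit 4) (.one (nat_lit 8639) (nat_lit 1) .nil))))))),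
   .der (nat_lit 33) (nat_lit 1033),
   .der (nat_lit 1) (nat_lit 3116),
   .der (nat_lit 1299) (nat_lit 5800),
   .der (nat_lit 1554) (nat_lit 7592),
   .prs (.two (nat_lit 3423) (nat_lit 16) (nat_lit 8972) (nat_lit 1) (.two (nat_lit 1764) (nat_lit 4) (nat_lit 7458) (nat_lit 16) (.two (nat_lit 6) (nat_lit 4) (nat_lit 8973) (nat_lit 16) (.two (nat_lit 2) (nat_lit 4) (nat_lit 8974) (nat_lit 1) (.two (nat_lit 0) (nat_lit 2) (nat_lit 8975) (nat_lit 1) (.one (nat_lit 8646) (nat_lit 1) .nil)))))),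
   .der (nat_lit 10) (nat_lit 172),
   .der (nat_lit 86) (nat_lit 5965),
   .prs (.two (nat_lit 8977) (nat_lit 1) (nat_lit 2198) (nat_lit 16) (.two (nat_lit 37) (nat_lit 4) (nat_lit 8188) (nat_lit 16) (.two (nat_lit 6) (nat_lit 4) (nat_lit 8592) (nat_lit 16) (.two (nat_lit 2) (nat_lit 4) (nat_lit 8978) (nat_lit 16) (.two (nat_lit 1) (nat_lit 2) (nat_lit 7621) (nat_lit 4) (.two (nat_lit 0) (nat_lit 1) (nat_lit 8180) (nat_lit 2) (.one (nat_lit 8650) (nat_lit 1) .nil))))))),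
   .der (nat_lit 83) (nat_lit 4123),
   .prs (.two (nat_lit 3423) (nat_lit 16) (nat_lit 2580) (nat_lit 2) (.two (nat_lit 81) (nat_lit 1) (nat_lit 6990) (nat_lit 16) (.two (nat_lit 2) (nat_lit 4) (nat_lit 8980) (nat_lit 16) (.two (nat_lit 1) (nat_lit 2) (nat_lit 7655) (nat_lit 16) (.two (nat_lit 0) (nat_lit 1) (nat_lit 7657) (nat_lit 2) (.one (nat_lit 8686) (nat_lit 2) .nil)))))),
   .der (nat_lit 129) (nat_lit 1392),
   .der (nat_lit 26386) (nat_lit 3122),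
   .der (nat_lit 1650) (nat_lit 5039),
   .der (nat_lit 161) (nat_lit 5953),
   .der (nat_lit 20) (nat_lit 7558),
   .prs (.two (nat_lit 82) (nat_lit 8) (nat_lit 8982) (nat_lit 16) (.two (nat_lit 520) (nat_lit 16) (nat_lit 8983) (nat_lit 8) (.two (nat_lit 7) (nat_lit 16) (nat_lit 8984) (nat_lit 8) (.two (nat_lit 11) (nat_lit 16) (nat_lit 8985) (nat_lit 1) (.two (nat_lit 0) (nat_lit 8) (nat_lit 8986) (nat_lit 1) (.one (nat_lit 8653) (nat_lit 1) .nil)))))),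
   .der (nat_lit 29011) (nat_lit 2327),
   .der (nat_lit 1653) (nat_lit 4031),
   .der (nat_lit 13345) (nat_lit 5982),
   .prs (.two (nat_lit 1722) (nat_lit 8) (nat_lit 4438) (nat_lit 1) (.two (nat_lit 33) (nat_lit 8) (nat_lit 8988) (nat_lit 2) (.two (nat_lit 129) (nat_lit 8) (nat_lit 8989) (nat_lit 2) (.two (nat_lit 519) (nat_lit 8) (nat_lit 8990) (nat_lit 1) (.two (nat_lit 1) (nat_lit 8) (nat_lit 7625) (nat_lit 2) (.two (nat_lit 0) (nat_lit 8) (nat_lit 7628) (nat_lit 2) (.one (nat_lit 8658) (nat_lit 2) .nil))))))),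
   .der (nat_lit 1875) (nat_lit 2472),
   .der (nat_lit 2578) (nat_lit 3239),
   .der (nat_lit 2593) (nat_lit 5953),
   .prs (.two (nat_lit 82) (nat_lit 8) (nat_lit 5278) (nat_lit 16) (.two (nat_lit 440) (nat_lit 8) (nat_lit 8992) (nat_lit 16) (.two (nat_lit 129) (nat_lit 16) (nat_lit 8993) (nat_lit 8) (.two (nat_lit 7) (nat_lit 16) (nat_lit 8994) (nat_lit 1) (.two (nat_lit 0) (nat_lit 1) (nat_lit 8661) (nat_lit 8) (.one (nat_lit 8662) (nat_lit 1) .nil)))))),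
   .der (nat_lit 1554) (nat_lit 1085),
   .prs (.two (nat_lit 3423) (nat_lit 16) (nat_lit 8996) (nat_lit 1) (.two (nat_lit 13) (nat_lit 4) (nat_lit 7067) (nat_lit 16) (.two (nat_lit 2) (nat_lit 4) (nat_lit 4307) (nat_lit 16) (.two (nat_lit 1) (nat_lit 2) (nat_lit 6991) (nat_lit 1) (.two (nat_lit 0) (nat_lit 1) (nat_lit 7657) (nat_lit 2) (.one (nat_lit 8198) (nat_lit 1) .nil)))))),
   .der (nat_lit 2593) (nat_lit 1441),
   .der (nat_lit 2135) (nat_lit 2180)]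

theorem b5_step17 (h : ∀ j < 8500, Good b5T j) : ∀ j < 9000, Good b5T j := by
  intro j hj
  refine chkL_ok b5C17 8500 h (by decide +kernel) j ?_
  have h : b5C17.length = 500 := by decide +kernel
  omega

/-- certificates 9000..9500 -/
def b5C18 : List Cf :=
  [.der (nat_lit 4978) (nat_lit 4123),
   .der (nat_lit 1) (nat_lit 5171),
   .der (nat_lit 2113) (nat_lit 6836),
   .prs (.two (nat_lit 3156) (nat_lit 1) (nat_lit 5081) (nat_lit 8) (.two (nat_lit 419) (nat_lit 1) (nat_lit 8998) (nat_lit 8) (.two (nat_lit 440) (nat_lit 2) (nat_lit 8999) (nat_lit 8) (.two (nat_lit 49) (nat_lit 8) (nat_lit 9000) (nat_lit 1) (.two (nat_lit 4) (nat_lit 2) (nat_lit 9001) (nat_lit 8) (.two (nat_lit 1) (nat_lit 2) (nat_lit 9002) (nat_lit 1) (.two (nat_lit 0) (nat_lit 1) (nat_lit 7634) (nat_lit 8) (.one (nat_lit 8666) (nat_lit 1) .nil)))))))),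
   .der (nat_lit 29011) (nat_lit 857),
   .der (nat_lit 8) (nat_lit 4292),
   .prs (.two (nat_lit 1445) (nat_lit 16) (nat_lit 9004) (nat_lit 2) (.two (nat_lit 4380) (nat_lit 16) (nat_lit 2518) (nat_lit 2) (.two (nat_lit 520) (nat_lit 4) (nat_lit 9005) (nat_lit 16) (.two (nat_lit 96) (nat_lit 2) (nat_lit 6092) (nat_lit 16) (.two (nat_lit 1) (nat_lit 2) (nat_lit 7636) (nat_lit 4) (.two (nat_lit 0) (nat_lit 4) (nat_lit 7641) (nat_lit 2) (.one (nat_lit 8670) (nat_lit 2) .nil))))))),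
   .der (nat_lit 10) (nat_lit 5894),
   .der (nat_lit 36) (nat_lit 6951),
   .prs (.two (nat_lit 1722) (nat_lit 8) (nat_lit 4091) (nat_lit 16) (.two (nat_lit 13) (nat_lit 8) (nat_lit 7985) (nat_lit 16) (.two (nat_lit 456) (nat_lit 8) (nat_lit 4020) (nat_lit 16) (.two (nat_lit 581) (nat_lit 2) (nat_lit 9007) (nat_lit 16) (.two (nat_lit 16) (nat_lit 2) (nat_lit 9008) (nat_lit 8) (.two (nat_lit 0) (nat_lit 2) (nat_lit 7607) (nat_lit 8) (.one (nat_lit 8672) (nat_lit 8) .nil))))))),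
   .der (nat_lit 162) (nat_lit 1415),
   .der (nat_lit 834) (nat_lit 3175),
   .der (nat_lit 2578) (nat_lit 3138),
   .der (nat_lit 13345) (nat_lit 5947),
   .der (nat_lit 1556) (nat_lit 5800),
   .der (nat_lit 115) (nat_lit 7534),
   .prs (.two (nat_lit 1445) (nat_lit 2) (nat_lit 1723) (nat_lit 8) (.two (nat_lit 4380) (nat_lit 2) (nat_lit 9010) (nat_lit 8) (.two (nat_lit 794) (nat_lit 2) (nat_lit 9011) (nat_lit 8) (.two (nat_lit 65) (nat_lit 2) (nat_lit 9012) (nat_lit 8) (.two (nat_lit 78) (nat_lit 1) (nat_lit 9013) (nat_lit 8) (.two (nat_lit 3) (nat_lit 1) (nat_lit 9014) (nat_lit 2) (.two (nat_lit 0) (nat_lit 1) (nat_lit 9015) (nat_lit 2) (.one (nat_lit 8678) (nat_lit 2) .nil)))))))),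
   .der (nat_lit 49) (nat_lit 1392),
   .der (nat_lit 137) (nat_lit 3116),
   .der (nat_lit 10) (nat_lit 6030),
   .der (nat_lit 20) (nat_lit 6951),
   .der (nat_lit 2578) (nat_lit 7444),
   .prs (.two (nat_lit 82) (nat_lit 8) (nat_lit 9017) (nat_lit 16) (.two (nat_lit 520) (nat_lit 16) (nat_lit 9018) (nat_lit 8) (.two (nat_lit 623) (nat_lit 16) (nat_lit 9019) (nat_lit 8) (.two (nat_lit 16) (nat_lit 1) (nat_lit 9020) (nat_lit 8) (.two (nat_lit 0) (nat_lit 1) (nat_lit 9021) (nat_lit 16) (.one (nat_lit 8680) (nat_lit 8) .nil)))))),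
   .der (nat_lit 882) (nat_lit 907),
   .der (nat_lit 1554) (nat_lit 6956),
   .der (nat_lit 5) (nat_lit 7441),
   .prs (.two (nat_lit 1383) (nat_lit 16) (nat_lit 9023) (nat_lit 1) (.two (nat_lit 3139) (nat_lit 16) (nat_lit 8577) (nat_lit 2) (.two (nat_lit 440) (nat_lit 2) (nat_lit 8578) (nat_lit 16) (.two (nat_lit 3) (nat_lit 1) (nat_lit 9024) (nat_lit 2) (.two (nat_lit 0) (nat_lit 1) (nat_lit 9025) (nat_lit 2) (.one (nat_lit 8684) (nat_lit 2) .nil)))))),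
   .der (nat_lit 10) (nat_lit 8184),
   .prs (.two (nat_lit 1722) (nat_lit 8) (nat_lit 6074) (nat_lit 16) (.two (nat_lit 6) (nat_lit 8) (nat_lit 7601) (nat_lit 16) (.two (nat_lit 2) (nat_lit 8) (nat_lit 8437) (nat_lit 16) (.two (nat_lit 0) (nat_lit 8) (nat_lit 9027) (nat_lit 16) .nil)))),
   .der (nat_lit 4) (nat_lit 5250),
   .der (nat_lit 659) (nat_lit 6072),
   .der (nat_lit 1395) (nat_lit 7478),
   .prs (.two (nat_lit 4340) (nat_lit 2) (nat_lit 2493) (nat_lit 8) (.two (nat_lit 1414) (nat_lit 4) (nat_lit 6815) (nat_lit 8) (.two (nat_lit 6) (nat_lit 4) (nat_lit 8487) (nat_lit 8) (.two (nat_lit 2) (nat_lit 4) (nat_lit 9029) (nat_lit 8) (.two (nat_lit 1) (nat_lit 2) (nat_lit 9030) (nat_lit 1) (.two (nat_lit 0) (nat_lit 1) (nat_lit 9031) (nat_lit 8) (.one (nat_lit 8691) (nat_lit 1) .nil))))))),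
   .der (nat_lit 1653) (nat_lit 1428),
   .der (nat_lit 2433) (nat_lit 7736),
   .prs (.two (nat_lit 1429) (nat_lit 4) (nat_lit 5852) (nat_lit 8) (.two (nat_lit 13) (nat_lit 4) (nat_lit 9033) (nat_lit 8) (.two (nat_lit 6) (nat_lit 4) (nat_lit 6343) (nat_lit 8) (.two (nat_lit 1) (nat_lit 8) (nat_lit 8265) (nat_lit 4) (.two (nat_lit 0) (nat_lit 2) (nat_lit 9034) (nat_lit 1) (.one (nat_lit 8266) (nat_lit 1) .nil)))))),
   .der (nat_lit 1430) (nat_lit 3188),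
   .der (nat_lit 1653) (nat_lit 4252),
   .der (nat_lit 20) (nat_lit 6185),
   .prs (.two (nat_lit 4244) (nat_lit 2) (nat_lit 5485) (nat_lit 16) (.two (nat_lit 7928) (nat_lit 16) (nat_lit 5991) (nat_lit 4) (.two (nat_lit 449) (nat_lit 2) (nat_lit 9036) (nat_lit 16) (.two (nat_lit 370) (nat_lit 16) (nat_lit 9037) (nat_lit 2) (.two (nat_lit 1203) (nat_lit 2) (nat_lit 9038) (nat_lit 16) (.two (nat_lit 1) (nat_lit 2) (nat_lit 7785) (nat_lit 16) (.two (nat_lit 0) (nat_lit 2) (nat_lit 8253) (nat_lit 4) (.one (nat_lit 8725) (nat_lit 2) .nil)))))))),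
   .der (nat_lit 38163) (nat_lit 2203),
   .der (nat_lit 2193) (nat_lit 3996),
   .der (nat_lit 577) (nat_lit 6054),
   .der (nat_lit 129) (nat_lit 7687),
   .prs (.two (nat_lit 3278) (nat_lit 8) (nat_lit 7815) (nat_lit 1) (.two (nat_lit 418) (nat_lit 8) (nat_lit 9040) (nat_lit 1) (.two (nat_lit 12) (nat_lit 8) (nat_lit 9041) (nat_lit 4) (.two (nat_lit 383) (nat_lit 4) (nat_lit 9042) (nat_lit 1) (.two (nat_lit 11) (nat_lit 1) (nat_lit 9043) (nat_lit 8) (.two (nat_lit 0) (nat_lit 1) (nat_lit 8258) (nat_lit 4) (.one (nat_lit 8733) (nat_lit 8) .nil))))))),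
   .der (nat_lit 2) (nat_lit 1662),
   .der (nat_lit 101) (nat_lit 2216),
   .der (nat_lit 5218) (nat_lit 4123),
   .der (nat_lit 5218) (nat_lit 5961),
   .der (nat_lit 6) (nat_lit 7125),
   .prs (.two (nat_lit 6050) (nat_lit 2) (nat_lit 3090) (nat_lit 16) (.two (nat_lit 1547) (nat_lit 16) (nat_lit 9045) (nat_lit 2) (.two (nat_lit 440) (nat_lit 2) (nat_lit 9046) (nat_lit 16) (.two (nat_lit 91) (nat_lit 16) (nat_lit 9047) (nat_lit 2) (.two (nat_lit 1) (nat_lit 16) (nat_lit 9048) (nat_lit 2) (.two (nat_lit 0) (nat_lit 1) (nat_lit 9049) (nat_lit 2) (.one (nat_lit 8756) (nat_lit 2) .nil))))))),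
   .der (nat_lit 29011) (nat_lit 939),
   .der (nat_lit 7) (nat_lit 2247),
   .der (nat_lit 86) (nat_lit 3122),
   .der (nat_lit 10) (nat_lit 5084),
   .der (nat_lit 2433) (nat_lit 7045),
   .prs (.two (nat_lit 1440) (nat_lit 8) (nat_lit 9051) (nat_lit 2) (.two (nat_lit 33) (nat_lit 8) (nat_lit 9052) (nat_lit 16) (.two (nat_lit 12) (nat_lit 16) (nat_lit 9053) (nat_lit 2) (.two (nat_lit 5) (nat_lit 16) (nat_lit 9054) (nat_lit 4) (.two (nat_lit 11) (nat_lit 16) (nat_lit 9055) (nat_lit 8) (.two (nat_lit 0) (nat_lit 4) (nat_lit 7790) (nat_lit 16) (.one (nat_lit 8737) (nat_lit 8) .nil))))))),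
   .der (nat_lit 577) (nat_lit 930),
   .der (nat_lit 26386) (nat_lit 1438),
   .der (nat_lit 834) (nat_lit 3270),
   .der (nat_lit 37425) (nat_lit 4178),
   .der (nat_lit 37425) (nat_lit 5107),
   .der (nat_lit 2135) (nat_lit 7607),
   .prs (.two (nat_lit 1404) (nat_lit 8) (nat_lit 9057) (nat_lit 4) (.two (nat_lit 33) (nat_lit 8) (nat_lit 9058) (nat_lit 16) (.two (nat_lit 13) (nat_lit 8) (nat_lit 9059) (nat_lit 16) (.two (nat_lit 6) (nat_lit 8) (nat_lit 9060) (nat_lit 16) (.two (nat_lit 2) (nat_lit 8) (nat_lit 9061) (nat_lit 4) (.two (nat_lit 3) (nat_lit 16) (nat_lit 9062) (nat_lit 4) (.one (nat_lit 8742) (nat_lit 4) .nil))))))),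
   .der (nat_lit 150) (nat_lit 1557),
   .der (nat_lit 145) (nat_lit 8184),
   .prs (.two (nat_lit 3775) (nat_lit 4) (nat_lit 9064) (nat_lit 1) (.two (nat_lit 676) (nat_lit 4) (nat_lit 9040) (nat_lit 1) (.two (nat_lit 167) (nat_lit 1) (nat_lit 6076) (nat_lit 4) (.two (nat_lit 2) (nat_lit 4) (nat_lit 6303) (nat_lit 1) (.two (nat_lit 3) (nat_lit 4) (nat_lit 7801) (nat_lit 1) (.two (nat_lit 0) (nat_lit 1) (nat_lit 9065) (nat_lit 4) (.one (nat_lit 8749) (nat_lit 1) .nil))))))),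
   .der (nat_lit 10305) (nat_lit 417),
   .der (nat_lit 340) (nat_lit 1396),
   .der (nat_lit 2353) (nat_lit 4134),
   .der (nat_lit 13345) (nat_lit 5961),
   .der (nat_lit 2193) (nat_lit 7042),
   .prs (.two (nat_lit 3775) (nat_lit 8) (nat_lit 9067) (nat_lit 4) (.two (nat_lit 4744) (nat_lit 8) (nat_lit 9068) (nat_lit 4) (.two (nat_lit 13) (nat_lit 4) (nat_lit 7768) (nat_lit 8) (.two (nat_lit 370) (nat_lit 1) (nat_lit 9069) (nat_lit 4) (.two (nat_lit 2) (nat_lit 4) (nat_lit 9070) (nat_lit 8) (.two (nat_lit 11) (nat_lit 1) (nat_lit 9071) (nat_lit 8) (.two (nat_lit 0) (nat_lit 1) (nat_lit 8261) (nat_lit 8) (.one (nat_lit 8753) (nat_lit 1) .nil)))))))),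
   .der (nat_lit 1811) (nat_lit 3556),
   .der (nat_lit 33345) (nat_lit 5037),
   .der (nat_lit 162) (nat_lit 7441),
   .prs (.two (nat_lit 82) (nat_lit 8) (nat_lit 3159) (nat_lit 16) (.two (nat_lit 13) (nat_lit 8) (nat_lit 9073) (nat_lit 16) (.two (nat_lit 1387) (nat_lit 16) (nat_lit 8993) (nat_lit 8) (.two (nat_lit 7) (nat_lit 16) (nat_lit 9074) (nat_lit 8) (.two (nat_lit 46) (nat_lit 1) (nat_lit 9075) (nat_lit 16) (.one (nat_lit 8771) (nat_lit 8) .nil)))))),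
   .der (nat_lit 83) (nat_lit 864),
   .der (nat_lit 2) (nat_lit 2332),
   .der (nat_lit 24916) (nat_lit 5095),
   .der (nat_lit 834) (nat_lit 7560),
   .prs (.two (nat_lit 82) (nat_lit 8) (nat_lit 9077) (nat_lit 16) (.two (nat_lit 1113) (nat_lit 16) (nat_lit 9078) (nat_lit 8) (.two (nat_lit 404) (nat_lit 16) (nat_lit 9018) (nat_lit 8) (.two (nat_lit 7) (nat_lit 16) (nat_lit 9079) (nat_lit 8) (.two (nat_lit 11) (nat_lit 1) (nat_lit 9080) (nat_lit 16) (.one (nat_lit 8775) (nat_lit 8) .nil)))))),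
   .der (nat_lit 3) (nat_lit 864),
   .der (nat_lit 86) (nat_lit 2188),
   .der (nat_lit 137) (nat_lit 3122),
   .der (nat_lit 9) (nat_lit 5084),
   .der (nat_lit 13345) (nat_lit 7560),
   .prs (.two (nat_lit 1722) (nat_lit 8) (nat_lit 9082) (nat_lit 16) (.two (nat_lit 80) (nat_lit 8) (nat_lit 9083) (nat_lit 2) (.two (nat_lit 12) (nat_lit 16) (nat_lit 9084) (nat_lit 8) (.two (nat_lit 5) (nat_lit 16) (nat_lit 9085) (nat_lit 8) (.two (nat_lit 1) (nat_lit 2) (nat_lit 9086) (nat_lit 16) (.one (nat_lit 8781) (nat_lit 2) .nil)))))),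
   .der (nat_lit 30226) (nat_lit 1099),
   .der (nat_lit 2353) (nat_lit 1428),
   .der (nat_lit 2353) (nat_lit 31),
   .der (nat_lit 5) (nat_lit 6092),
   .prs (.two (nat_lit 6555) (nat_lit 2) (nat_lit 793) (nat_lit 1) (.two (nat_lit 1249) (nat_lit 2) (nat_lit 9088) (nat_lit 1) (.two (nat_lit 9090) (nat_lit 4) (nat_lit 9089) (nat_lit 1) (.two (nat_lit 905) (nat_lit 2) (nat_lit 6561) (nat_lit 16) (.two (nat_lit 99) (nat_lit 1) (nat_lit 9091) (nat_lit 16) (.two (nat_lit 0) (nat_lit 4) (nat_lit 8351) (nat_lit 2) (.one (nat_lit 8801) (nat_lit 4) .nil))))))),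
   .der (nat_lit 100) (nat_lit 192),
   .der (nat_lit 9) (nat_lit 1775),
   .der (nat_lit 3) (nat_lit 4479),
   .prs (.two (nat_lit 6584) (nat_lit 4) (nat_lit 9093) (nat_lit 2) (.two (nat_lit 593) (nat_lit 4) (nat_lit 9094) (nat_lit 16) (.two (nat_lit 105) (nat_lit 16) (nat_lit 9095) (nat_lit 4) (.two (nat_lit 78) (nat_lit 1) (nat_lit 6520) (nat_lit 4) (.two (nat_lit 1) (nat_lit 2) (nat_lit 7924) (nat_lit 1) (.two (nat_lit 0) (nat_lit 2) (nat_lit 7927) (nat_lit 1) (.one (nat_lit 8806) (nat_lit 2) .nil))))))),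
   .der (nat_lit 132) (nat_lit 974),
   .der (nat_lit 1415) (nat_lit 1428),
   .der (nat_lit 1415) (nat_lit 31),
   .der (nat_lit 37425) (nat_lit 4649),
   .der (nat_lit 165) (nat_lit 6092),
   .prs (.two (nat_lit 1429) (nat_lit 8) (nat_lit 1301) (nat_lit 4) (.two (nat_lit 4330) (nat_lit 2) (nat_lit 9097) (nat_lit 1) (.two (nat_lit 9099) (nat_lit 4) (nat_lit 9098) (nat_lit 2) (.two (nat_lit 1126) (nat_lit 1) (nat_lit 9100) (nat_lit 8) (.two (nat_lit 4) (nat_lit 2) (nat_lit 5550) (nat_lit 8) (.two (nat_lit 1) (nat_lit 4) (nat_lit 9101) (nat_lit 8) (.two (nat_lit 0) (nat_lit 1) (nat_lit 8355) (nat_lit 2) (.one (nat_lit 8808) (nat_lit 1) .nil)))))))),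
   .der (nat_lit 129) (nat_lit 1482),
   .der (nat_lit 152) (nat_lit 77),
   .der (nat_lit 30226) (nat_lit 3300),
   .der (nat_lit 33345) (nat_lit 4623),
   .prs (.two (nat_lit 3423) (nat_lit 16) (nat_lit 1304) (nat_lit 1) (.two (nat_lit 9104) (nat_lit 4) (nat_lit 9103) (nat_lit 2) (.two (nat_lit 2860) (nat_lit 4) (nat_lit 9105) (nat_lit 2) (.two (nat_lit 96) (nat_lit 4) (nat_lit 9106) (nat_lit 2) (.two (nat_lit 1) (nat_lit 2) (nat_lit 7273) (nat_lit 1) (.two (nat_lit 0) (nat_lit 1) (nat_lit 8359) (nat_lit 4) (.one (nat_lit 8363) (nat_lit 4) .nil))))))),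
   .der (nat_lit 2339) (nat_lit 1431),
   .der (nat_lit 1107) (nat_lit 2227),
   .der (nat_lit 66) (nat_lit 4055),
   .der (nat_lit 1074) (nat_lit 6817),
   .der (nat_lit 33) (nat_lit 7447),
   .prs (.two (nat_lit 416) (nat_lit 16) (nat_lit 7392) (nat_lit 1) (.two (nat_lit 3167) (nat_lit 16) (nat_lit 9108) (nat_lit 1) (.two (nat_lit 71) (nat_lit 16) (nat_lit 9109) (nat_lit 1) (.two (nat_lit 723) (nat_lit 16) (nat_lit 9110) (nat_lit 1) (.two (nat_lit 341) (nat_lit 1) (nat_lit 8954) (nat_lit 16) (.two (nat_lit 3) (nat_lit 16) (nat_lit 9111) (nat_lit 1) (.two (nat_lit 0) (nat_lit 1) (nat_lit 9112) (nat_lit 16) (.one (nat_lit 8817) (nat_lit 16) .nil)))))))),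
   .der (nat_lit 10) (nat_lit 927),
   .der (nat_lit 833) (nat_lit 2188),
   .der (nat_lit 13345) (nat_lit 3229),
   .der (nat_lit 1650) (nat_lit 5053),
   .der (nat_lit 137) (nat_lit 5800),
   .der (nat_lit 833) (nat_lit 7474),
   .der (nat_lit 833) (nat_lit 8491),
   .prs (.two (nat_lit 424) (nat_lit 4) (nat_lit 9114) (nat_lit 8) (.two (nat_lit 1307) (nat_lit 2) (nat_lit 9115) (nat_lit 4) (.two (nat_lit 129) (nat_lit 4) (nat_lit 9116) (nat_lit 8) (.two (nat_lit 556) (nat_lit 4) (nat_lit 9117) (nat_lit 8) (.two (nat_lit 11) (nat_lit 2) (nat_lit 9118) (nat_lit 4) (.two (nat_lit 0) (nat_lit 2) (nat_lit 9119) (nat_lit 8) (.one (nat_lit 9120) (nat_lit 2) .nil))))))),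
   .der (nat_lit 165) (nat_lit 1647),
   .der (nat_lit 29011) (nat_lit 2353),
   .der (nat_lit 147) (nat_lit 4005),
   .der (nat_lit 21107) (nat_lit 6243),
   .der (nat_lit 2068) (nat_lit 7042),
   .prs (.two (nat_lit 5895) (nat_lit 8) (nat_lit 6607) (nat_lit 4) (.two (nat_lit 3191) (nat_lit 4) (nat_lit 9122) (nat_lit 8) (.two (nat_lit 522) (nat_lit 4) (nat_lit 9123) (nat_lit 1) (.two (nat_lit 36) (nat_lit 8) (nat_lit 9124) (nat_lit 4) (.two (nat_lit 178) (nat_lit 16) (nat_lit 9125) (nat_lit 4) (.two (nat_lit 3) (nat_lit 4) (nat_lit 9126) (nat_lit 1) (.two (nat_lit 0) (nat_lit 1) (nat_lit 8827) (nat_lit 16) (.one (nat_lit 8836) (nat_lit 4) .nil)))))))),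
   .der (nat_lit 1556) (nat_lit 1252),
   .der (nat_lit 2593) (nat_lit 1550),
   .der (nat_lit 52) (nat_lit 4343),
   .der (nat_lit 1430) (nat_lit 5905),
   .der (nat_lit 339) (nat_lit 7308),
   .der (nat_lit 84) (nat_lit 8001),
   .prs (.two (nat_lit 169) (nat_lit 16) (nat_lit 9128) (nat_lit 8) (.two (nat_lit 35) (nat_lit 16) (nat_lit 9129) (nat_lit 8) (.two (nat_lit 13) (nat_lit 16) (nat_lit 9130) (nat_lit 8) (.two (nat_lit 581) (nat_lit 1) (nat_lit 9131) (nat_lit 8) (.two (nat_lit 1) (nat_lit 8) (nat_lit 9132) (nat_lit 16) (.two (nat_lit 0) (nat_lit 1) (nat_lit 9133) (nat_lit 16) (.one (nat_lit 8841) (nat_lit 8) .nil))))))),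
   .der (nat_lit 50) (nat_lit 1022),
   .der (nat_lit 9587) (nat_lit 2938),
   .der (nat_lit 1380) (nat_lit 6372),
   .der (nat_lit 612) (nat_lit 6072),
   .der (nat_lit 834) (nat_lit 7511),
   .prs (.two (nat_lit 416) (nat_lit 16) (nat_lit 9135) (nat_lit 8) (.two (nat_lit 3167) (nat_lit 16) (nat_lit 9136) (nat_lit 8) (.two (nat_lit 520) (nat_lit 8) (nat_lit 8959) (nat_lit 16) (.two (nat_lit 42) (nat_lit 8) (nat_lit 8844) (nat_lit 16) (.two (nat_lit 740) (nat_lit 16) (nat_lit 9137) (nat_lit 8) (.two (nat_lit 16) (nat_lit 1) (nat_lit 9138) (nat_lit 8) (.two (nat_lit 0) (nat_lit 1) (nat_lit 9139) (nat_lit 16) (.one (nat_lit 8847) (nat_lit 8) .nil)))))))),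
   .der (nat_lit 2068) (nat_lit 421),
   .der (nat_lit 117) (nat_lit 39),
   .der (nat_lit 101) (nat_lit 2191),
   .der (nat_lit 852) (nat_lit 4134),
   .der (nat_lit 1300) (nat_lit 7083),
   .prs (.two (nat_lit 82) (nat_lit 16) (nat_lit 2078) (nat_lit 1) (.two (nat_lit 9142) (nat_lit 2) (nat_lit 9141) (nat_lit 8) (.two (nat_lit 490) (nat_lit 8) (nat_lit 9143) (nat_lit 2) (.two (nat_lit 1435) (nat_lit 8) (nat_lit 9144) (nat_lit 1) (.two (nat_lit 1) (nat_lit 8) (nat_lit 9145) (nat_lit 1) (.two (nat_lit 0) (nat_lit 1) (nat_lit 8399) (nat_lit 16) (.one (nat_lit 8402) (nat_lit 1) .nil))))))),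
   .der (nat_lit 117) (nat_lit 936),
   .der (nat_lit 4) (nat_lit 2772),
   .der (nat_lit 86) (nat_lit 2186),
   .der (nat_lit 33345) (nat_lit 3229),
   .der (nat_lit 3) (nat_lit 4103),
   .prs (.two (nat_lit 1404) (nat_lit 16) (nat_lit 9147) (nat_lit 1) (.two (nat_lit 33) (nat_lit 16) (nat_lit 9148) (nat_lit 4) (.two (nat_lit 390) (nat_lit 8) (nat_lit 9149) (nat_lit 2) (.two (nat_lit 36) (nat_lit 8) (nat_lit 9150) (nat_lit 2) (.two (nat_lit 463) (nat_lit 8) (nat_lit 9151) (nat_lit 1) (.two (nat_lit 1) (nat_lit 8) (nat_lit 8023) (nat_lit 1) (.two (nat_lit 0) (nat_lit 8) (nat_lit 8030) (nat_lit 2) (.one (nat_lit 8857) (nat_lit 1) .nil)))))))),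
   .der (nat_lit 577) (nat_lit 1478),
   .der (nat_lit 2) (nat_lit 5915),
   .der (nat_lit 561) (nat_lit 7006),
   .der (nat_lit 2) (nat_lit 7515),
   .prs (.two (nat_lit 1548) (nat_lit 16) (nat_lit 8858) (nat_lit 1) (.two (nat_lit 4427) (nat_lit 16) (nat_lit 9153) (nat_lit 1) (.two (nat_lit 390) (nat_lit 2) (nat_lit 8415) (nat_lit 16) (.two (nat_lit 78) (nat_lit 1) (nat_lit 9154) (nat_lit 16) (.two (nat_lit 11) (nat_lit 2) (nat_lit 9155) (nat_lit 1) (.two (nat_lit 0) (nat_lit 1) (nat_lit 9156) (nat_lit 2) (.one (nat_lit 8865) (nat_lit 2) .nil))))))),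
   .der (nat_lit 114) (nat_lit 850),
   .der (nat_lit 1875) (nat_lit 2420),
   .der (nat_lit 21107) (nat_lit 6353),
   .der (nat_lit 30226) (nat_lit 8598),
   .prs (.two (nat_lit 1394) (nat_lit 16) (nat_lit 9158) (nat_lit 2) (.two (nat_lit 7051) (nat_lit 16) (nat_lit 9159) (nat_lit 2) (.two (nat_lit 717) (nat_lit 2) (nat_lit 7459) (nat_lit 16) (.two (nat_lit 430) (nat_lit 2) (nat_lit 9160) (nat_lit 1) (.two (nat_lit 3) (nat_lit 1) (nat_lit 7049) (nat_lit 2) (.two (nat_lit 0) (nat_lit 1) (nat_lit 8056) (nat_lit 2) (.one (nat_lit 9161) (nat_lit 1) .nil))))))),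
   .der (nat_lit 135) (nat_lit 837),
   .der (nat_lit 35) (nat_lit 2769),
   .der (nat_lit 3) (nat_lit 3559),
   .der (nat_lit 1299) (nat_lit 4555),
   .der (nat_lit 17185) (nat_lit 6563),
   .der (nat_lit 114) (nat_lit 7908),
   .prs (.two (nat_lit 4540) (nat_lit 4) (nat_lit 9163) (nat_lit 2) (.two (nat_lit 3097) (nat_lit 2) (nat_lit 9164) (nat_lit 16) (.two (nat_lit 13) (nat_lit 4) (nat_lit 9165) (nat_lit 16) (.two (nat_lit 6) (nat_lit 4) (nat_lit 9166) (nat_lit 2) (.two (nat_lit 356) (nat_lit 16) (nat_lit 9167) (nat_lit 4) (.two (nat_lit 16) (nat_lit 16) (nat_lit 9168) (nat_lit 4) (.two (nat_lit 0) (nat_lit 2) (nat_lit 8449) (nat_lit 4) (.one (nat_lit 8889) (nat_lit 1) .nil)))))))),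
   .der (nat_lit 1300) (nat_lit 205),
   .der (nat_lit 150) (nat_lit 396),
   .der (nat_lit 21107) (nat_lit 1094),
   .der (nat_lit 9587) (nat_lit 2183),
   .der (nat_lit 9587) (nat_lit 3161),
   .der (nat_lit 1122) (nat_lit 5216),
   .prs (.two (nat_lit 9171) (nat_lit 4) (nat_lit 9170) (nat_lit 1) (.two (nat_lit 471) (nat_lit 1) (nat_lit 9172) (nat_lit 4) (.two (nat_lit 462) (nat_lit 4) (nat_lit 6246) (nat_lit 1) (.two (nat_lit 937) (nat_lit 4) (nat_lit 9173) (nat_lit 1) (.two (nat_lit 248) (nat_lit 4) (nat_lit 9174) (nat_lit 1) (.two (nat_lit 3) (nat_lit 4) (nat_lit 9175) (nat_lit 1) (.two (nat_lit 0) (nat_lit 1) (nat_lit 7396) (nat_lit 2) (.one (nat_lit 8899) (nat_lit 1) .nil)))))))),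
   .der (nat_lit 22548) (nat_lit 3013),
   .der (nat_lit 1073) (nat_lit 4365),
   .der (nat_lit 33) (nat_lit 6718),
   .der (nat_lit 16738) (nat_lit 7676),
   .prs (.two (nat_lit 2482) (nat_lit 1) (nat_lit 6017) (nat_lit 4) (.two (nat_lit 6813) (nat_lit 4) (nat_lit 9177) (nat_lit 16) (.two (nat_lit 32) (nat_lit 16) (nat_lit 9178) (nat_lit 4) (.two (nat_lit 144) (nat_lit 4) (nat_lit 9179) (nat_lit 1) (.two (nat_lit 11) (nat_lit 16) (nat_lit 9180) (nat_lit 4) (.one (nat_lit 8896) (nat_lit 1) .nil)))))),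
   .der (nat_lit 24916) (nat_lit 441),
   .prs (.two (nat_lit 4006) (nat_lit 8) (nat_lit 9182) (nat_lit 1) (.two (nat_lit 822) (nat_lit 8) (nat_lit 5012) (nat_lit 2) (.two (nat_lit 427) (nat_lit 2) (nat_lit 6758) (nat_lit 8) (.two (nat_lit 5) (nat_lit 1) (nat_lit 8890) (nat_lit 8) (.two (nat_lit 3) (nat_lit 1) (nat_lit 7399) (nat_lit 2) (.two (nat_lit 0) (nat_lit 1) (nat_lit 8089) (nat_lit 2) (.one (nat_lit 8904) (nat_lit 1) .nil))))))),
   .der (nat_lit 1395) (nat_lit 4045),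
   .der (nat_lit 370) (nat_lit 5696),
   .prs (.two (nat_lit 4135) (nat_lit 4) (nat_lit 8080) (nat_lit 16) (.two (nat_lit 99) (nat_lit 16) (nat_lit 9184) (nat_lit 4) (.two (nat_lit 3) (nat_lit 1) (nat_lit 9185) (nat_lit 4) (.two (nat_lit 0) (nat_lit 1) (nat_lit 6738) (nat_lit 4) (.one (nat_lit 8106) (nat_lit 4) .nil))))),
   .der (nat_lit 33) (nat_lit 824),
   .der (nat_lit 165) (nat_lit 421),
   .der (nat_lit 162) (nat_lit 2183),
   .der (nat_lit 10) (nat_lit 3985),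
   .der (nat_lit 1) (nat_lit 8481),
   .prs (.two (nat_lit 9188) (nat_lit 8) (nat_lit 9187) (nat_lit 16) (.two (nat_lit 82) (nat_lit 16) (nat_lit 9189) (nat_lit 8) (.two (nat_lit 13) (nat_lit 16) (nat_lit 9190) (nat_lit 8) (.two (nat_lit 2) (nat_lit 16) (nat_lit 6810) (nat_lit 8) (.two (nat_lit 1) (nat_lit 8) (nat_lit 7447) (nat_lit 16) (.two (nat_lit 0) (nat_lit 8) (nat_lit 8488) (nat_lit 16) (.one (nat_lit 9191) (nat_lit 8) .nil))))))),
   .der (nat_lit 1074) (nat_lit 417),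
   .der (nat_lit 1620) (nat_lit 409),
   .der (nat_lit 1300) (nat_lit 3109),
   .der (nat_lit 2433) (nat_lit 8120),
   .prs (.two (nat_lit 9193) (nat_lit 16) (nat_lit 7960) (nat_lit 1) (.two (nat_lit 9194) (nat_lit 1) (nat_lit 7457) (nat_lit 4) (.two (nat_lit 4182) (nat_lit 1) (nat_lit 2188) (nat_lit 4) (.two (nat_lit 145) (nat_lit 16) (nat_lit 9195) (nat_lit 4) (.two (nat_lit 6) (nat_lit 4) (nat_lit 5805) (nat_lit 16) (.two (nat_lit 2) (nat_lit 4) (nat_lit 6811) (nat_lit 16) (.two (nat_lit 46) (nat_lit 1) (nat_lit 9196) (nat_lit 16) (.one (nat_lit 8491) (nat_lit 1) .nil)))))))),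
   .der (nat_lit 10305) (nat_lit 1392),
   .der (nat_lit 577) (nat_lit 2180),
   .der (nat_lit 6) (nat_lit 7444),
   .der (nat_lit 1299) (nat_lit 8481),
   .prs (.two (nat_lit 8482) (nat_lit 16) (nat_lit 867) (nat_lit 4) (.two (nat_lit 2204) (nat_lit 16) (nat_lit 9198) (nat_lit 4) (.two (nat_lit 423) (nat_lit 16) (nat_lit 9199) (nat_lit 4) (.two (nat_lit 105) (nat_lit 4) (nat_lit 3981) (nat_lit 16) (.two (nat_lit 2) (nat_lit 4) (nat_lit 5807) (nat_lit 16) (.two (nat_lit 1) (nat_lit 4) (nat_lit 9200) (nat_lit 2) (.two (nat_lit 0) (nat_lit 2) (nat_lit 9201) (nat_lit 4) .nil))))))),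
   .der (nat_lit 2068) (nat_lit 417),
   .der (nat_lit 20) (nat_lit 417),
   .der (nat_lit 103) (nat_lit 35),
   .prs (.two (nat_lit 9204) (nat_lit 4) (nat_lit 9203) (nat_lit 2) (.two (nat_lit 1394) (nat_lit 16) (nat_lit 1396) (nat_lit 2) (.two (nat_lit 9205) (nat_lit 4) (nat_lit 3118) (nat_lit 2) (.two (nat_lit 145) (nat_lit 16) (nat_lit 5025) (nat_lit 1) (.two (nat_lit 91) (nat_lit 16) (nat_lit 5809) (nat_lit 1) (.two (nat_lit 463) (nat_lit 4) (nat_lit 8501) (nat_lit 2) (.two (nat_lit 1) (nat_lit 2) (nat_lit 7450) (nat_lit 1) (.two (nat_lit 0) (nat_lit 1) (nat_lit 8493) (nat_lit 2) (.one (nat_lit 8909) (nat_lit 1) .nil))))))))),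
   .der (nat_lit 833) (nat_lit 2192),
   .der (nat_lit 1893) (nat_lit 4020),
   .der (nat_lit 1) (nat_lit 7439),
   .der (nat_lit 1554) (nat_lit 8481),
   .prs (.two (nat_lit 7014) (nat_lit 8) (nat_lit 1723) (nat_lit 4) (.two (nat_lit 1722) (nat_lit 16) (nat_lit 6196) (nat_lit 8) (.two (nat_lit 3075) (nat_lit 16) (nat_lit 9207) (nat_lit 8) (.two (nat_lit 520) (nat_lit 16) (nat_lit 9208) (nat_lit 4) (.two (nat_lit 227) (nat_lit 8) (nat_lit 3981) (nat_lit 16) (.two (nat_lit 325) (nat_lit 8) (nat_lit 8501) (nat_lit 4) (.two (nat_lit 1) (nat_lit 4) (nat_lit 9209) (nat_lit 8) (.two (nat_lit 0) (nat_lit 4) (nat_lit 8502) (nat_lit 8) (.one (nat_lit 9210) (nat_lit 4) .nil))))))))),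
   .der (nat_lit 1430) (nat_lit 2249),
   .der (nat_lit 18) (nat_lit 4028),
   .der (nat_lit 18) (nat_lit 5807),
   .der (nat_lit 101) (nat_lit 7450),
   .der (nat_lit 86) (nat_lit 8502),
   .prs (.two (nat_lit 3143) (nat_lit 2) (nat_lit 3146) (nat_lit 16) (.two (nat_lit 1410) (nat_lit 16) (nat_lit 6288) (nat_lit 8) (.two (nat_lit 6425) (nat_lit 8) (nat_lit 9212) (nat_lit 2) (.two (nat_lit 1480) (nat_lit 8) (nat_lit 9213) (nat_lit 16) (.two (nat_lit 42) (nat_lit 8) (nat_lit 3981) (nat_lit 16) (.two (nat_lit 202) (nat_lit 8) (nat_lit 9214) (nat_lit 16) (.two (nat_lit 1) (nat_lit 8) (nat_lit 9215) (nat_lit 2) (.two (nat_lit 0) (nat_lit 1) (nat_lit 9216) (nat_lit 8) (.one (nat_lit 8514) (nat_lit 1) .nil))))))))),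
   .der (nat_lit 87) (nat_lit 417),
   .der (nat_lit 9587) (nat_lit 1482),
   .der (nat_lit 5971) (nat_lit 4092),
   .der (nat_lit 117) (nat_lit 5823),
   .der (nat_lit 561) (nat_lit 7444),
   .der (nat_lit 3) (nat_lit 8514),
   .prs (.two (nat_lit 9218) (nat_lit 4) (nat_lit 5127) (nat_lit 16) (.two (nat_lit 1531) (nat_lit 16) (nat_lit 9219) (nat_lit 4) (.two (nat_lit 8124) (nat_lit 4) (nat_lit 7067) (nat_lit 16) (.two (nat_lit 71) (nat_lit 16) (nat_lit 9220) (nat_lit 4) (.two (nat_lit 528) (nat_lit 4) (nat_lit 9221) (nat_lit 2) (.two (nat_lit 1) (nat_lit 2) (nat_lit 9222) (nat_lit 4) (.two (nat_lit 0) (nat_lit 2) (nat_lit 9223) (nat_lit 4) .nil))))))),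
   .der (nat_lit 52) (nat_lit 873),
   .der (nat_lit 1122) (nat_lit 417),
   .der (nat_lit 1380) (nat_lit 1400),
   .der (nat_lit 24916) (nat_lit 2210),
   .der (nat_lit 22548) (nat_lit 4092),
   .der (nat_lit 21107) (nat_lit 5837),
   .der (nat_lit 2113) (nat_lit 6817),
   .der (nat_lit 2135) (nat_lit 7447),
   .der (nat_lit 2135) (nat_lit 8488),
   .der (nat_lit 2084) (nat_lit 8514),
   .prs (.two (nat_lit 9226) (nat_lit 1) (nat_lit 9225) (nat_lit 8) (.two (nat_lit 5747) (nat_lit 8) (nat_lit 9227) (nat_lit 1) (.two (nat_lit 411) (nat_lit 1) (nat_lit 9228) (nat_lit 8) (.two (nat_lit 522) (nat_lit 8) (nat_lit 9229) (nat_lit 1) (.two (nat_lit 49) (nat_lit 8) (nat_lit 9230) (nat_lit 1) (.two (nat_lit 248) (nat_lit 8) (nat_lit 9231) (nat_lit 1) (.two (nat_lit 11) (nat_lit 1) (nat_lit 9232) (nat_lit 8) (.two (nat_lit 0) (nat_lit 1) (nat_lit 9233) (nat_lit 8) (.one (nat_lit 9234) (nat_lit 1) .nil))))))))),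
   .der (nat_lit 3) (nat_lit 936),
   .der (nat_lit 340) (nat_lit 2188),
   .der (nat_lit 1554) (nat_lit 3122),
   .der (nat_lit 21107) (nat_lit 6836),
   .prs (.two (nat_lit 5540) (nat_lit 16) (nat_lit 9236) (nat_lit 4) (.two (nat_lit 4778) (nat_lit 1) (nat_lit 9237) (nat_lit 16) (.two (nat_lit 676) (nat_lit 4) (nat_lit 9238) (nat_lit 16) (.two (nat_lit 6) (nat_lit 4) (nat_lit 5079) (nat_lit 16) (.two (nat_lit 1214) (nat_lit 16) (nat_lit 9239) (nat_lit 4) (.two (nat_lit 3) (nat_lit 4) (nat_lit 8918) (nat_lit 16) (.two (nat_lit 0) (nat_lit 1) (nat_lit 8519) (nat_lit 4) (.one (nat_lit 8927) (nat_lit 1) .nil)))))))),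
   .der (nat_lit 577) (nat_lit 827),
   .der (nat_lit 833) (nat_lit 2307),
   .der (nat_lit 10) (nat_lit 4048),
   .prs (.two (nat_lit 5023) (nat_lit 2) (nat_lit 9241) (nat_lit 4) (.two (nat_lit 3423) (nat_lit 16) (nat_lit 4129) (nat_lit 2) (.two (nat_lit 941) (nat_lit 16) (nat_lit 9242) (nat_lit 2) (.two (nat_lit 105) (nat_lit 4) (nat_lit 9243) (nat_lit 1) (.two (nat_lit 12) (nat_lit 1) (nat_lit 5910) (nat_lit 4) (.two (nat_lit 384) (nat_lit 1) (nat_lit 6850) (nat_lit 16) (.two (nat_lit 1) (nat_lit 2) (nat_lit 7485) (nat_lit 1) (.two (nat_lit 0) (nat_lit 1) (nat_lit 8134) (nat_lit 2) (.one (nat_lit 8930) (nat_lit 1) .nil))))))))),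
   .der (nat_lit 37425) (nat_lit 974),
   .der (nat_lit 1875) (nat_lit 2292),
   .der (nat_lit 50) (nat_lit 5052),
   .der (nat_lit 161) (nat_lit 6817),
   .prs (.two (nat_lit 3746) (nat_lit 4) (nat_lit 9245) (nat_lit 2) (.two (nat_lit 1445) (nat_lit 16) (nat_lit 9246) (nat_lit 2) (.two (nat_lit 81) (nat_lit 1) (nat_lit 6110) (nat_lit 16) (.two (nat_lit 1848) (nat_lit 16) (nat_lit 8933) (nat_lit 2) (.two (nat_lit 30) (nat_lit 1) (nat_lit 9247) (nat_lit 16) (.two (nat_lit 173) (nat_lit 1) (nat_lit 9248) (nat_lit 2) (.two (nat_lit 16) (nat_lit 1) (nat_lit 8935) (nat_lit 2) (.two (nat_lit 0) (nat_lit 1) (nat_lit 8521) (nat_lit 4) (.one (nat_lit 8936) (nat_lit 1) .nil))))))))),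
   .der (nat_lit 1300) (nat_lit 421),
   .der (nat_lit 152) (nat_lit 417),
   .der (nat_lit 6) (nat_lit 1415),
   .der (nat_lit 2353) (nat_lit 2227),
   .der (nat_lit 4) (nat_lit 3109),
   .der (nat_lit 132) (nat_lit 5033),
   .der (nat_lit 16738) (nat_lit 8120),
   .prs (.two (nat_lit 9251) (nat_lit 16) (nat_lit 9250) (nat_lit 4) (.two (nat_lit 4778) (nat_lit 1) (nat_lit 9252) (nat_lit 16) (.two (nat_lit 7818) (nat_lit 4) (nat_lit 9253) (nat_lit 16) (.two (nat_lit 69) (nat_lit 16) (nat_lit 9254) (nat_lit 1) (.two (nat_lit 3643) (nat_lit 16) (nat_lit 9255) (nat_lit 1) (.two (nat_lit 9) (nat_lit 1) (nat_lit 6855) (nat_lit 16) (.two (nat_lit 1) (nat_lit 4) (nat_lit 7490) (nat_lit 1) (.two (nat_lit 0) (nat_lit 4) (nat_lit 9256) (nat_lit 16) (.one (nat_lit 8941) (nat_lit 1) .nil))))))))),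
   .der (nat_lit 10) (nat_lit 980),
   .der (nat_lit 833) (nat_lit 1392),
   .der (nat_lit 10) (nat_lit 3116),
   .der (nat_lit 5) (nat_lit 7447),
   .der (nat_lit 18) (nat_lit 8481),
   .prs (.two (nat_lit 7267) (nat_lit 16) (nat_lit 9258) (nat_lit 8) (.two (nat_lit 82) (nat_lit 16) (nat_lit 9259) (nat_lit 8) (.two (nat_lit 33) (nat_lit 16) (nat_lit 9260) (nat_lit 8) (.two (nat_lit 129) (nat_lit 8) (nat_lit 3981) (nat_lit 16) (.two (nat_lit 2) (nat_lit 8) (nat_lit 5807) (nat_lit 16) (.two (nat_lit 1) (nat_lit 8) (nat_lit 9261) (nat_lit 16) (.two (nat_lit 0) (nat_lit 1) (nat_lit 9262) (nat_lit 8) .nil))))))),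
   .der (nat_lit 9572) (nat_lit 417),
   .der (nat_lit 339) (nat_lit 1396),
   .der (nat_lit 10545) (nat_lit 3132),
   .der (nat_lit 161) (nat_lit 5163),
   .der (nat_lit 165) (nat_lit 5084),
   .der (nat_lit 8) (nat_lit 5800),
   .der (nat_lit 6) (nat_lit 7450),
   .prs (.two (nat_lit 5023) (nat_lit 2) (nat_lit 9264) (nat_lit 4) (.two (nat_lit 424) (nat_lit 16) (nat_lit 9265) (nat_lit 4) (.two (nat_lit 6041) (nat_lit 4) (nat_lit 9266) (nat_lit 1) (.two (nat_lit 86) (nat_lit 16) (nat_lit 9267) (nat_lit 4) (.two (nat_lit 543) (nat_lit 2) (nat_lit 9268) (nat_lit 16) (.two (nat_lit 5) (nat_lit 1) (nat_lit 9269) (nat_lit 4) (.two (nat_lit 1) (nat_lit 2) (nat_lit 9270) (nat_lit 1) (.two (nat_lit 0) (nat_lit 1) (nat_lit 8558) (nat_lit 16) (.one (nat_lit 8946) (nat_lit 1) .nil))))))))),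
   .der (nat_lit 1811) (nat_lit 417),
   .der (nat_lit 35) (nat_lit 1448),
   .der (nat_lit 2068) (nat_lit 2210),
   .der (nat_lit 117) (nat_lit 4010),
   .der (nat_lit 18) (nat_lit 5037),
   .prs (.two (nat_lit 9272) (nat_lit 16) (nat_lit 7550) (nat_lit 2) (.two (nat_lit 4244) (nat_lit 8) (nat_lit 9273) (nat_lit 16) (.two (nat_lit 7549) (nat_lit 2) (nat_lit 9274) (nat_lit 8) (.two (nat_lit 1480) (nat_lit 2) (nat_lit 9275) (nat_lit 16) (.two (nat_lit 227) (nat_lit 8) (nat_lit 9276) (nat_lit 16) (.two (nat_lit 623) (nat_lit 2) (nat_lit 8579) (nat_lit 8) (.two (nat_lit 1) (nat_lit 8) (nat_lit 7518) (nat_lit 2) (.two (nat_lit 0) (nat_lit 2) (nat_lit 8563) (nat_lit 16) (.one (nat_lit 8951) (nat_lit 2) .nil))))))))),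
   .der (nat_lit 13345) (nat_lit 1062),
   .der (nat_lit 115) (nat_lit 1392),
   .der (nat_lit 2068) (nat_lit 2376),
   .der (nat_lit 30226) (nat_lit 5046),
   .prs (.two (nat_lit 5872) (nat_lit 16) (nat_lit 9278) (nat_lit 2) (.two (nat_lit 4340) (nat_lit 16) (nat_lit 9279) (nat_lit 2) (.two (nat_lit 7524) (nat_lit 16) (nat_lit 9280) (nat_lit 2) (.two (nat_lit 80) (nat_lit 16) (nat_lit 9208) (nat_lit 2) (.two (nat_lit 36) (nat_lit 16) (nat_lit 9281) (nat_lit 2) (.two (nat_lit 170) (nat_lit 2) (nat_lit 5807) (nat_lit 16) (.two (nat_lit 1) (nat_lit 2) (nat_lit 9261) (nat_lit 16) (.two (nat_lit 0) (nat_lit 2) (nat_lit 8571) (nat_lit 16) (.one (nat_lit 9210) (nat_lit 2) .nil))))))))),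
   .der (nat_lit 135) (nat_lit 960),
   .der (nat_lit 34068) (nat_lit 2372),
   .der (nat_lit 1) (nat_lit 3985),
   .der (nat_lit 801) (nat_lit 7538),
   .prs (.two (nat_lit 6278) (nat_lit 8) (nat_lit 9283) (nat_lit 2) (.two (nat_lit 82) (nat_lit 8) (nat_lit 9284) (nat_lit 4) (.two (nat_lit 13) (nat_lit 16) (nat_lit 9285) (nat_lit 1) (.two (nat_lit 2) (nat_lit 16) (nat_lit 5801) (nat_lit 1) (.two (nat_lit 3) (nat_lit 16) (nat_lit 9286) (nat_lit 2) (.two (nat_lit 0) (nat_lit 4) (nat_lit 8603) (nat_lit 2) (.one (nat_lit 8991) (nat_lit 4) .nil))))))),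
   .der (nat_lit 1057) (nat_lit 894),
   .der (nat_lit 67) (nat_lit 417),
   .der (nat_lit 33345) (nat_lit 2171),
   .der (nat_lit 1620) (nat_lit 3144),
   .der (nat_lit 561) (nat_lit 5037),
   .der (nat_lit 33) (nat_lit 5953),
   .der (nat_lit 340) (nat_lit 7558),
   .der (nat_lit 1554) (nat_lit 8914),
   .prs (.two (nat_lit 9289) (nat_lit 16) (nat_lit 9288) (nat_lit 1) (.two (nat_lit 82) (nat_lit 16) (nat_lit 3339) (nat_lit 8) (.two (nat_lit 33) (nat_lit 16) (nat_lit 9290) (nat_lit 8) (.two (nat_lit 13) (nat_lit 16) (nat_lit 9291) (nat_lit 8) (.two (nat_lit 12) (nat_lit 8) (nat_lit 9292) (nat_lit 16) (.two (nat_lit 7) (nat_lit 8) (nat_lit 9293) (nat_lit 1) (.two (nat_lit 11) (nat_lit 16) (nat_lit 9294) (nat_lit 1) (.two (nat_lit 0) (nat_lit 1) (nat_lit 8606) (nat_lit 8) (.one (nat_lit 9295) (nat_lit 1) .nil))))))))),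
   .der (nat_lit 2353) (nat_lit 914),
   .der (nat_lit 2135) (nat_lit 2414),
   .der (nat_lit 21092) (nat_lit 2353),
   .der (nat_lit 150) (nat_lit 4028),
   .der (nat_lit 1415) (nat_lit 5850),
   .der (nat_lit 1415) (nat_lit 5823),
   .prs (.two (nat_lit 9272) (nat_lit 16) (nat_lit 9297) (nat_lit 2) (.two (nat_lit 4244) (nat_lit 8) (nat_lit 9298) (nat_lit 2) (.two (nat_lit 6890) (nat_lit 2) (nat_lit 9299) (nat_lit 8) (.two (nat_lit 80) (nat_lit 8) (nat_lit 9300) (nat_lit 2) (.two (nat_lit 227) (nat_lit 16) (nat_lit 9301) (nat_lit 8) (.two (nat_lit 384) (nat_lit 16) (nat_lit 9302) (nat_lit 2) (.two (nat_lit 1) (nat_lit 2) (nat_lit 7599) (nat_lit 8) (.two (nat_lit 0) (nat_lit 2) (nat_lit 8611) (nat_lit 8) (.one (nat_lit 8995) (nat_lit 2) .nil))))))))),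
   .der (nat_lit 8) (nat_lit 2180),
   .der (nat_lit 19) (nat_lit 3122),
   .der (nat_lit 5971) (nat_lit 5823),
   .der (nat_lit 26386) (nat_lit 7494),
   .der (nat_lit 26386) (nat_lit 8525),
   .prs (.two (nat_lit 417) (nat_lit 16) (nat_lit 4007) (nat_lit 8) (.two (nat_lit 82) (nat_lit 8) (nat_lit 9304) (nat_lit 16) (.two (nat_lit 13) (nat_lit 8) (nat_lit 9305) (nat_lit 16) (.two (nat_lit 12) (nat_lit 8) (nat_lit 9306) (nat_lit 1) (.two (nat_lit 1) (nat_lit 16) (nat_lit 9307) (nat_lit 8) (.two (nat_lit 0) (nat_lit 1) (nat_lit 9308) (nat_lit 16) (.one (nat_lit 8963) (nat_lit 1) .nil))))))),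
   .der (nat_lit 561) (nat_lit 2332),
   .der (nat_lit 2353) (nat_lit 82),
   .prs (.two (nat_lit 3993) (nat_lit 4) (nat_lit 1160) (nat_lit 1) (.two (nat_lit 9311) (nat_lit 1) (nat_lit 9310) (nat_lit 4) (.two (nat_lit 520) (nat_lit 4) (nat_lit 8613) (nat_lit 1) (.two (nat_lit 129) (nat_lit 4) (nat_lit 6079) (nat_lit 1) (.two (nat_lit 2) (nat_lit 4) (nat_lit 6979) (nat_lit 1) (.two (nat_lit 1) (nat_lit 2) (nat_lit 8171) (nat_lit 1) (.two (nat_lit 0) (nat_lit 2) (nat_lit 8615) (nat_lit 1) (.one (nat_lit 9003) (nat_lit 4) .nil)))))))),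
   .der (nat_lit 118) (nat_lit 1473),
   .prs (.two (nat_lit 4327) (nat_lit 16) (nat_lit 6647) (nat_lit 4) (.two (nat_lit 1394) (nat_lit 16) (nat_lit 9313) (nat_lit 2) (.two (nat_lit 37) (nat_lit 4) (nat_lit 6974) (nat_lit 16) (.two (nat_lit 13) (nat_lit 4) (nat_lit 4292) (nat_lit 16) (.two (nat_lit 65) (nat_lit 2) (nat_lit 6083) (nat_lit 16) (.two (nat_lit 4) (nat_lit 2) (nat_lit 6982) (nat_lit 4) (.two (nat_lit 1) (nat_lit 2) (nat_lit 8174) (nat_lit 4) (.two (nat_lit 0) (nat_lit 1) (nat_lit 8620) (nat_lit 2) (.one (nat_lit 9006) (nat_lit 1) .nil))))))))),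
   .der (nat_lit 8) (nat_lit 1015),
   .der (nat_lit 18) (nat_lit 421),
   .der (nat_lit 8) (nat_lit 2214),
   .der (nat_lit 162) (nat_lit 3236),
   .der (nat_lit 145) (nat_lit 6077),
   .der (nat_lit 2339) (nat_lit 6951),
   .prs (.two (nat_lit 9316) (nat_lit 16) (nat_lit 9315) (nat_lit 8) (.two (nat_lit 82) (nat_lit 8) (nat_lit 9317) (nat_lit 16) (.two (nat_lit 440) (nat_lit 16) (nat_lit 9318) (nat_lit 8) (.two (nat_lit 427) (nat_lit 16) (nat_lit 9319) (nat_lit 8) (.two (nat_lit 173) (nat_lit 1) (nat_lit 9320) (nat_lit 16) (.two (nat_lit 3) (nat_lit 1) (nat_lit 7607) (nat_lit 8) (.two (nat_lit 0) (nat_lit 1) (nat_lit 8624) (nat_lit 8) (.one (nat_lit 9009) (nat_lit 1) .nil)))))))),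
   .der (nat_lit 52) (nat_lit 3267),
   .der (nat_lit 152) (nat_lit 7603),
   .prs (.two (nat_lit 82) (nat_lit 8) (nat_lit 6074) (nat_lit 16) (.two (nat_lit 13) (nat_lit 8) (nat_lit 9322) (nat_lit 1) (.two (nat_lit 65) (nat_lit 8) (nat_lit 6076) (nat_lit 1) (.two (nat_lit 2) (nat_lit 8) (nat_lit 8437) (nat_lit 16) (.two (nat_lit 1) (nat_lit 8) (nat_lit 9323) (nat_lit 16) (.two (nat_lit 0) (nat_lit 1) (nat_lit 8184) (nat_lit 8) (.one (nat_lit 9028) (nat_lit 1) .nil))))))),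
   .der (nat_lit 33) (nat_lit 421),
   .der (nat_lit 26386) (nat_lit 1419),
   .der (nat_lit 2323) (nat_lit 2210),
   .der (nat_lit 2578) (nat_lit 3985),
   .der (nat_lit 7) (nat_lit 6066),
   .der (nat_lit 165) (nat_lit 7441),
   .prs (.two (nat_lit 9325) (nat_lit 8) (nat_lit 2212) (nat_lit 16) (.two (nat_lit 1531) (nat_lit 4) (nat_lit 9326) (nat_lit 8) (.two (nat_lit 6041) (nat_lit 2) (nat_lit 9327) (nat_lit 4) (.two (nat_lit 520) (nat_lit 4) (nat_lit 9328) (nat_lit 8) (.two (nat_lit 2) (nat_lit 4) (nat_lit 9329) (nat_lit 8) (.two (nat_lit 3) (nat_lit 16) (nat_lit 9330) (nat_lit 2) (.two (nat_lit 0) (nat_lit 2) (nat_lit 8627) (nat_lit 8) (.one (nat_lit 9016) (nat_lit 4) .nil)))))))),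
   .der (nat_lit 339) (nat_lit 837),
   .der (nat_lit 339) (nat_lit 1381),
   .der (nat_lit 5) (nat_lit 2332),
   .der (nat_lit 2578) (nat_lit 5037),
   .der (nat_lit 2578) (nat_lit 5827),
   .prs (.two (nat_lit 9332) (nat_lit 16) (nat_lit 1411) (nat_lit 2) (.two (nat_lit 1722) (nat_lit 8) (nat_lit 9333) (nat_lit 16) (.two (nat_lit 6913) (nat_lit 16) (nat_lit 9334) (nat_lit 8) (.two (nat_lit 509) (nat_lit 16) (nat_lit 8595) (nat_lit 8) (.two (nat_lit 6) (nat_lit 16) (nat_lit 9335) (nat_lit 8) (.two (nat_lit 144) (nat_lit 2) (nat_lit 9336) (nat_lit 16) (.two (nat_lit 1) (nat_lit 2) (nat_lit 7612) (nat_lit 8) (.two (nat_lit 0) (nat_lit 2) (nat_lit 8630) (nat_lit 8) (.one (nat_lit 9022) (nat_lit 2) .nil))))))))),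
   .der (nat_lit 66) (nat_lit 892),
   .der (nat_lit 10) (nat_lit 421),
   .der (nat_lit 161) (nat_lit 1392),
   .der (nat_lit 2593) (nat_lit 3161),
   .der (nat_lit 83) (nat_lit 5100),
   .der (nat_lit 50) (nat_lit 6895),
   .der (nat_lit 101) (nat_lit 7494),
   .der (nat_lit 2593) (nat_lit 8587),
   .prs (.two (nat_lit 9339) (nat_lit 8) (nat_lit 9338) (nat_lit 16) (.two (nat_lit 1440) (nat_lit 16) (nat_lit 9340) (nat_lit 8) (.two (nat_lit 33) (nat_lit 16) (nat_lit 9341) (nat_lit 8) (.two (nat_lit 1048) (nat_lit 1) (nat_lit 9342) (nat_lit 16) (.two (nat_lit 443) (nat_lit 1) (nat_lit 9343) (nat_lit 8) (.two (nat_lit 1) (nat_lit 8) (nat_lit 9344) (nat_lit 16) (.two (nat_lit 0) (nat_lit 1) (nat_lit 9345) (nat_lit 16) (.one (nat_lit 9026) (nat_lit 8) .nil)))))))),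
   .der (nat_lit 833) (nat_lit 930),
   .der (nat_lit 34068) (nat_lit 2300),
   .der (nat_lit 33345) (nat_lit 4073),
   .der (nat_lit 12658) (nat_lit 5869),
   .der (nat_lit 33345) (nat_lit 5823),
   .der (nat_lit 1380) (nat_lit 7542),
   .der (nat_lit 6) (nat_lit 8139),
   .prs (.two (nat_lit 3399) (nat_lit 4) (nat_lit 9347) (nat_lit 1) (.two (nat_lit 82) (nat_lit 8) (nat_lit 4655) (nat_lit 2) (.two (nat_lit 33) (nat_lit 8) (nat_lit 9348) (nat_lit 1) (.two (nat_lit 440) (nat_lit 8) (nat_lit 9349) (nat_lit 4) (.two (nat_lit 404) (nat_lit 8) (nat_lit 9350) (nat_lit 4) (.two (nat_lit 7) (nat_lit 8) (nat_lit 9351) (nat_lit 4) (.two (nat_lit 3) (nat_lit 8) (nat_lit 9352) (nat_lit 2) (.two (nat_lit 0) (nat_lit 4) (nat_lit 9353) (nat_lit 2) (.one (nat_lit 9056) (nat_lit 1) .nil))))))))),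
   .der (nat_lit 12658) (nat_lit 417),
   .der (nat_lit 26386) (nat_lit 2531),
   .der (nat_lit 1810) (nat_lit 4316),
   .der (nat_lit 1810) (nat_lit 6128),
   .der (nat_lit 37425) (nat_lit 5953),
   .prs (.two (nat_lit 8565) (nat_lit 8) (nat_lit 9355) (nat_lit 1) (.two (nat_lit 1429) (nat_lit 4) (nat_lit 9356) (nat_lit 8) (.two (nat_lit 13) (nat_lit 8) (nat_lit 9357) (nat_lit 1) (.two (nat_lit 6) (nat_lit 8) (nat_lit 9358) (nat_lit 1) (.two (nat_lit 2) (nat_lit 8) (nat_lit 9359) (nat_lit 1) (.two (nat_lit 46) (nat_lit 1) (nat_lit 9062) (nat_lit 4) (.two (nat_lit 0) (nat_lit 1) (nat_lit 8705) (nat_lit 4) (.one (nat_lit 9063) (nat_lit 1) .nil)))))))),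
   .der (nat_lit 87) (nat_lit 1033),
   .der (nat_lit 86) (nat_lit 4379),
   .der (nat_lit 5) (nat_lit 7771),
   .prs (.two (nat_lit 2329) (nat_lit 8) (nat_lit 9361) (nat_lit 2) (.two (nat_lit 1492) (nat_lit 16) (nat_lit 8159) (nat_lit 8) (.two (nat_lit 65) (nat_lit 8) (nat_lit 9362) (nat_lit 1) (.two (nat_lit 2) (nat_lit 16) (nat_lit 7136) (nat_lit 8) (.two (nat_lit 1) (nat_lit 2) (nat_lit 9363) (nat_lit 1) (.one (nat_lit 8729) (nat_lit 1) .nil)))))),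
   .der (nat_lit 1300) (nat_lit 946),
   .der (nat_lit 2323) (nat_lit 1557),
   .der (nat_lit 612) (nat_lit 2360),
   .der (nat_lit 87) (nat_lit 4252),
   .der (nat_lit 1) (nat_lit 5250),
   .der (nat_lit 1073) (nat_lit 7771),
   .prs (.two (nat_lit 3380) (nat_lit 16) (nat_lit 9365) (nat_lit 4) (.two (nat_lit 3278) (nat_lit 4) (nat_lit 9366) (nat_lit 8) (.two (nat_lit 4744) (nat_lit 4) (nat_lit 9367) (nat_lit 2) (.two (nat_lit 520) (nat_lit 4) (nat_lit 9368) (nat_lit 8) (.two (nat_lit 1435) (nat_lit 8) (nat_lit 9369) (nat_lit 2) (.two (nat_lit 356) (nat_lit 16) (nat_lit 7130) (nat_lit 4) (.two (nat_lit 3) (nat_lit 4) (nat_lit 9370) (nat_lit 8) (.two (nat_lit 0) (nat_lit 2) (nat_lit 8714) (nat_lit 4) (.one (nat_lit 9066) (nat_lit 2) .nil))))))))),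
   .der (nat_lit 24916) (nat_lit 1051),
   .der (nat_lit 33) (nat_lit 3340),
   .der (nat_lit 1430) (nat_lit 6030),
   .der (nat_lit 5) (nat_lit 8694),
   .prs (.two (nat_lit 7595) (nat_lit 8) (nat_lit 9372) (nat_lit 2) (.two (nat_lit 6287) (nat_lit 8) (nat_lit 3594) (nat_lit 16) (.two (nat_lit 13) (nat_lit 16) (nat_lit 9373) (nat_lit 2) (.two (nat_lit 6) (nat_lit 16) (nat_lit 8247) (nat_lit 8) (.two (nat_lit 34) (nat_lit 16) (nat_lit 9374) (nat_lit 2) (.two (nat_lit 3) (nat_lit 1) (nat_lit 9363) (nat_lit 2) (.one (nat_lit 9375) (nat_lit 2) .nil))))))),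
   .der (nat_lit 135) (nat_lit 992),
   .der (nat_lit 4978) (nat_lit 2633),
   .der (nat_lit 1893) (nat_lit 3344),
   .der (nat_lit 87) (nat_lit 5247),
   .der (nat_lit 577) (nat_lit 6168),
   .der (nat_lit 5) (nat_lit 7776),
   .der (nat_lit 100) (nat_lit 8720),
   .prs (.two (nat_lit 8849) (nat_lit 2) (nat_lit 9377) (nat_lit 16) (.two (nat_lit 4404) (nat_lit 2) (nat_lit 9378) (nat_lit 1) (.two (nat_lit 794) (nat_lit 2) (nat_lit 9379) (nat_lit 16) (.two (nat_lit 227) (nat_lit 16) (nat_lit 9380) (nat_lit 1) (.two (nat_lit 34) (nat_lit 16) (nat_lit 9381) (nat_lit 2) (.two (nat_lit 3) (nat_lit 1) (nat_lit 9382) (nat_lit 2) (.one (nat_lit 9383) (nat_lit 2) .nil))))))),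
   .der (nat_lit 577) (nat_lit 417),
   .der (nat_lit 9572) (nat_lit 1533),
   .der (nat_lit 162) (nat_lit 3473),
   .der (nat_lit 627) (nat_lit 4316),
   .der (nat_lit 19) (nat_lit 6002),
   .prs (.two (nat_lit 9385) (nat_lit 4) (nat_lit 3993) (nat_lit 16) (.two (nat_lit 3675) (nat_lit 8) (nat_lit 9386) (nat_lit 4) (.two (nat_lit 3097) (nat_lit 16) (nat_lit 9387) (nat_lit 8) (.two (nat_lit 117) (nat_lit 4) (nat_lit 9388) (nat_lit 16) (.two (nat_lit 956) (nat_lit 8) (nat_lit 9389) (nat_lit 16) (.two (nat_lit 78) (nat_lit 4) (nat_lit 7770) (nat_lit 16) (.two (nat_lit 1) (nat_lit 16) (nat_lit 8249) (nat_lit 4) (.two (nat_lit 0) (nat_lit 4) (nat_lit 8700) (nat_lit 16) (.one (nat_lit 9072) (nat_lit 16) .nil))))))))),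
   .der (nat_lit 340) (nat_lit 2332),
   .der (nat_lit 2) (nat_lit 4316),
   .prs (.two (nat_lit 5434) (nat_lit 16) (nat_lit 6062) (nat_lit 8) (.two (nat_lit 13) (nat_lit 16) (nat_lit 9391) (nat_lit 8) (.two (nat_lit 53) (nat_lit 2) (nat_lit 9392) (nat_lit 8) (.two (nat_lit 463) (nat_lit 8) (nat_lit 6301) (nat_lit 2) (.two (nat_lit 1) (nat_lit 2) (nat_lit 8728) (nat_lit 16) (.two (nat_lit 0) (nat_lit 2) (nat_lit 7795) (nat_lit 16) (.one (nat_lit 8746) (nat_lit 2) .nil))))))),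
   .der (nat_lit 7) (nat_lit 425),
   .der (nat_lit 1620) (nat_lit 4123),
   .der (nat_lit 2339) (nat_lit 4103),
   .der (nat_lit 65) (nat_lit 7027),
   .der (nat_lit 13345) (nat_lit 7520),
   .prs (.two (nat_lit 7467) (nat_lit 8) (nat_lit 9394) (nat_lit 1) (.two (nat_lit 1397) (nat_lit 8) (nat_lit 2188) (nat_lit 1) (.two (nat_lit 38) (nat_lit 8) (nat_lit 9395) (nat_lit 1) (.two (nat_lit 543) (nat_lit 2) (nat_lit 9396) (nat_lit 8) (.two (nat_lit 144) (nat_lit 2) (nat_lit 9397) (nat_lit 8) (.two (nat_lit 1) (nat_lit 2) (nat_lit 9398) (nat_lit 1) (.two (nat_lit 0) (nat_lit 1) (nat_lit 8767) (nat_lit 2) (.one (nat_lit 9087) (nat_lit 1) .nil)))))))),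
   .der (nat_lit 1122) (nat_lit 1917),
   .der (nat_lit 834) (nat_lit 169),
   .der (nat_lit 1073) (nat_lit 1456),
   .der (nat_lit 659) (nat_lit 3199),
   .der (nat_lit 132) (nat_lit 4134),
   .der (nat_lit 13345) (nat_lit 8552),
   .prs (.two (nat_lit 9401) (nat_lit 8) (nat_lit 9400) (nat_lit 1) (.two (nat_lit 1587) (nat_lit 8) (nat_lit 9402) (nat_lit 1) (.two (nat_lit 32) (nat_lit 8) (nat_lit 9403) (nat_lit 1) (.two (nat_lit 111) (nat_lit 4) (nat_lit 9404) (nat_lit 1) (.two (nat_lit 5) (nat_lit 8) (nat_lit 6469) (nat_lit 1) (.two (nat_lit 46) (nat_lit 4) (nat_lit 9398) (nat_lit 1) (.one (nat_lit 9405) (nat_lit 1) .nil))))))),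
   .der (nat_lit 49) (nat_lit 1065),
   .der (nat_lit 1554) (nat_lit 169),
   .der (nat_lit 3) (nat_lit 2435),
   .der (nat_lit 86) (nat_lit 3273),
   .der (nat_lit 24916) (nat_lit 4365),
   .der (nat_lit 98) (nat_lit 5989),
   .prs (.two (nat_lit 9408) (nat_lit 16) (nat_lit 9407) (nat_lit 2) (.two (nat_lit 7524) (nat_lit 16) (nat_lit 9409) (nat_lit 2) (.two (nat_lit 80) (nat_lit 16) (nat_lit 9410) (nat_lit 1) (.two (nat_lit 36) (nat_lit 16) (nat_lit 9411) (nat_lit 2) (.two (nat_lit 75) (nat_lit 2) (nat_lit 9412) (nat_lit 16) (.two (nat_lit 1) (nat_lit 2) (nat_lit 7271) (nat_lit 1) (.two (nat_lit 0) (nat_lit 1) (nat_lit 8343) (nat_lit 2) (.one (nat_lit 8793) (nat_lit 1) .nil)))))))),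
   .der (nat_lit 852) (nat_lit 1196),
   .der (nat_lit 5) (nat_lit 172),
   .der (nat_lit 1556) (nat_lit 1557),
   .der (nat_lit 18) (nat_lit 3164),
   .der (nat_lit 2433) (nat_lit 8295),
   .prs (.two (nat_lit 9415) (nat_lit 16) (nat_lit 9414) (nat_lit 1) (.two (nat_lit 81) (nat_lit 16) (nat_lit 9416) (nat_lit 8) (.two (nat_lit 440) (nat_lit 8) (nat_lit 9417) (nat_lit 16) (.two (nat_lit 227) (nat_lit 8) (nat_lit 5187) (nat_lit 16) (.two (nat_lit 34) (nat_lit 8) (nat_lit 6512) (nat_lit 2) (.two (nat_lit 1) (nat_lit 2) (nat_lit 7920) (nat_lit 8) (.two (nat_lit 0) (nat_lit 1) (nat_lit 9418) (nat_lit 8) (.one (nat_lit 8798) (nat_lit 8) .nil)))))))),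
   .der (nat_lit 10) (nat_lit 425),
   .der (nat_lit 2593) (nat_lit 2581),
   .der (nat_lit 370) (nat_lit 3340),
   .der (nat_lit 9) (nat_lit 4131),
   .der (nat_lit 356) (nat_lit 5883),
   .der (nat_lit 1299) (nat_lit 7450),
   .der (nat_lit 83) (nat_lit 8502),
   .der (nat_lit 8) (nat_lit 8481),
   .prs (.two (nat_lit 7267) (nat_lit 16) (nat_lit 9420) (nat_lit 1) (.two (nat_lit 1440) (nat_lit 16) (nat_lit 9421) (nat_lit 8) (.two (nat_lit 33) (nat_lit 16) (nat_lit 9422) (nat_lit 1) (.two (nat_lit 32) (nat_lit 16) (nat_lit 9423) (nat_lit 1) (.two (nat_lit 42) (nat_lit 8) (nat_lit 9424) (nat_lit 16) (.two (nat_lit 1) (nat_lit 8) (nat_lit 9425) (nat_lit 1) (.two (nat_lit 0) (nat_lit 8) (nat_lit 9426) (nat_lit 1) (.one (nat_lit 9427) (nat_lit 1) .nil)))))))),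
   .der (nat_lit 135) (nat_lit 421),
   .der (nat_lit 1810) (nat_lit 1557),
   .der (nat_lit 50) (nat_lit 4020),
   .der (nat_lit 3) (nat_lit 5901),
   .prs (.two (nat_lit 9429) (nat_lit 2) (nat_lit 1325) (nat_lit 16) (.two (nat_lit 1445) (nat_lit 16) (nat_lit 9430) (nat_lit 2) (.two (nat_lit 1536) (nat_lit 2) (nat_lit 7479) (nat_lit 16) (.two (nat_lit 1480) (nat_lit 2) (nat_lit 9431) (nat_lit 16) (.two (nat_lit 808) (nat_lit 16) (nat_lit 9432) (nat_lit 2) (.two (nat_lit 206) (nat_lit 2) (nat_lit 7308) (nat_lit 16) (.two (nat_lit 1) (nat_lit 2) (nat_lit 9112) (nat_lit 16) (.two (nat_lit 0) (nat_lit 2) (nat_lit 8813) (nat_lit 16) (.one (nat_lit 9113) (nat_lit 2) .nil))))))))),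
   .der (nat_lit 1074) (nat_lit 1015),
   .der (nat_lit 833) (nat_lit 2194),
   .der (nat_lit 9587) (nat_lit 2214),
   .der (nat_lit 10545) (nat_lit 5171),
   .der (nat_lit 833) (nat_lit 7125),
   .der (nat_lit 33345) (nat_lit 8120),
   .prs (.two (nat_lit 9193) (nat_lit 1) (nat_lit 9434) (nat_lit 8) (.two (nat_lit 3156) (nat_lit 1) (nat_lit 9435) (nat_lit 8) (.two (nat_lit 7697) (nat_lit 8) (nat_lit 9436) (nat_lit 1) (.two (nat_lit 13) (nat_lit 4) (nat_lit 8595) (nat_lit 8) (.two (nat_lit 42) (nat_lit 8) (nat_lit 9437) (nat_lit 4) (.two (nat_lit 173) (nat_lit 4) (nat_lit 9438) (nat_lit 1) (.two (nat_lit 3) (nat_lit 1) (nat_lit 9439) (nat_lit 4) (.one (nat_lit 9121) (nat_lit 1) .nil)))))))),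
   .der (nat_lit 4) (nat_lit 3413),
   .der (nat_lit 135) (nat_lit 5247),
   .der (nat_lit 86) (nat_lit 6314),
   .der (nat_lit 22548) (nat_lit 7056),
   .prs (.two (nat_lit 4244) (nat_lit 8) (nat_lit 2795) (nat_lit 1) (.two (nat_lit 1809) (nat_lit 16) (nat_lit 9441) (nat_lit 1) (.two (nat_lit 65) (nat_lit 16) (nat_lit 9442) (nat_lit 1) (.two (nat_lit 34) (nat_lit 8) (nat_lit 9443) (nat_lit 16) (.two (nat_lit 3) (nat_lit 8) (nat_lit 9444) (nat_lit 16) (.two (nat_lit 0) (nat_lit 1) (nat_lit 7994) (nat_lit 8) (.one (nat_lit 8828) (nat_lit 1) .nil))))))),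
   .der (nat_lit 1299) (nat_lit 892),
   .der (nat_lit 22548) (nat_lit 1392),
   .der (nat_lit 2068) (nat_lit 5304),
   .der (nat_lit 10305) (nat_lit 5216),
   .der (nat_lit 86) (nat_lit 6836),
   .der (nat_lit 118) (nat_lit 7494),
   .der (nat_lit 612) (nat_lit 8587),
   .prs (.two (nat_lit 5903) (nat_lit 4) (nat_lit 9446) (nat_lit 2) (.two (nat_lit 8849) (nat_lit 2) (nat_lit 9447) (nat_lit 4) (.two (nat_lit 5564) (nat_lit 2) (nat_lit 9367) (nat_lit 4) (.two (nat_lit 32) (nat_lit 16) (nat_lit 9448) (nat_lit 4) (.two (nat_lit 53) (nat_lit 2) (nat_lit 9449) (nat_lit 4) (.two (nat_lit 202) (nat_lit 4) (nat_lit 9450) (nat_lit 16) (.two (nat_lit 1) (nat_lit 4) (nat_lit 9451) (nat_lit 2) (.two (nat_lit 0) (nat_lit 16) (nat_lit 9452) (nat_lit 2) (.one (nat_lit 9127) (nat_lit 2) .nil))))))))),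
   .der (nat_lit 19) (nat_lit 907),
   .der (nat_lit 612) (nat_lit 1415),
   .der (nat_lit 117) (nat_lit 2307),
   .der (nat_lit 33345) (nat_lit 4602),
   .der (nat_lit 22803) (nat_lit 5823),
   .der (nat_lit 36) (nat_lit 8139),
   .prs (.two (nat_lit 6306) (nat_lit 16) (nat_lit 9454) (nat_lit 4) (.two (nat_lit 1445) (nat_lit 16) (nat_lit 9455) (nat_lit 8) (.two (nat_lit 4074) (nat_lit 2) (nat_lit 9456) (nat_lit 4) (.two (nat_lit 105) (nat_lit 8) (nat_lit 9457) (nat_lit 4) (.two (nat_lit 91) (nat_lit 2) (nat_lit 9458) (nat_lit 4) (.two (nat_lit 16) (nat_lit 4) (nat_lit 9459) (nat_lit 8) (.one (nat_lit 9140) (nat_lit 2) .nil))))))),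
   .der (nat_lit 2113) (nat_lit 2396),
   .der (nat_lit 801) (nat_lit 5610),
   .der (nat_lit 50) (nat_lit 6507),
   .der (nat_lit 577) (nat_lit 6951),
   .prs (.two (nat_lit 1429) (nat_lit 4) (nat_lit 8404) (nat_lit 16) (.two (nat_lit 2793) (nat_lit 1) (nat_lit 9461) (nat_lit 8) (.two (nat_lit 105) (nat_lit 4) (nat_lit 9462) (nat_lit 1) (.two (nat_lit 2) (nat_lit 4) (nat_lit 9463) (nat_lit 8) (.two (nat_lit 1) (nat_lit 8) (nat_lit 9464) (nat_lit 16) (.two (nat_lit 0) (nat_lit 1) (nat_lit 8394) (nat_lit 4) (.one (nat_lit 8852) (nat_lit 4) .nil))))))),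
   .der (nat_lit 145) (nat_lit 829),
   .der (nat_lit 834) (nat_lit 1438),
   .der (nat_lit 145) (nat_lit 4002),
   .der (nat_lit 22803) (nat_lit 6494),
   .der (nat_lit 2) (nat_lit 6850),
   .prs (.two (nat_lit 5903) (nat_lit 2) (nat_lit 9466) (nat_lit 4) (.two (nat_lit 3423) (nat_lit 16) (nat_lit 9467) (nat_lit 2) (.two (nat_lit 4744) (nat_lit 4) (nat_lit 8609) (nat_lit 2) (.two (nat_lit 676) (nat_lit 4) (nat_lit 9468) (nat_lit 2) (.two (nat_lit 528) (nat_lit 4) (nat_lit 9469) (nat_lit 16) (.two (nat_lit 202) (nat_lit 4) (nat_lit 9470) (nat_lit 16) (.two (nat_lit 1) (nat_lit 2) (nat_lit 8418) (nat_lit 4) (.two (nat_lit 0) (nat_lit 2) (nat_lit 8860) (nat_lit 4) (.one (nat_lit 9157) (nat_lit 4) .nil))))))))),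
   .der (nat_lit 52) (nat_lit 831),
   .der (nat_lit 34068) (nat_lit 1377),
   .der (nat_lit 7) (nat_lit 3755),
   .prs (.two (nat_lit 82) (nat_lit 16) (nat_lit 9472) (nat_lit 8) (.two (nat_lit 33) (nat_lit 16) (nat_lit 9473) (nat_lit 8) (.two (nat_lit 13) (nat_lit 16) (nat_lit 9474) (nat_lit 8) (.two (nat_lit 6) (nat_lit 8) (nat_lit 3991) (nat_lit 16) (.two (nat_lit 2) (nat_lit 8) (nat_lit 6686) (nat_lit 16) (.two (nat_lit 1) (nat_lit 8) (nat_lit 7375) (nat_lit 16) (.two (nat_lit 0) (nat_lit 8) (nat_lit 8432) (nat_lit 16) (.one (nat_lit 8871) (nat_lit 8) .nil)))))))),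
   .der (nat_lit 370) (nat_lit 4602),
   .der (nat_lit 1554) (nat_lit 5910),
   .der (nat_lit 5) (nat_lit 6865),
   .der (nat_lit 6) (nat_lit 7592),
   .der (nat_lit 17185) (nat_lit 9039),
   .prs (.two (nat_lit 2254) (nat_lit 16) (nat_lit 6288) (nat_lit 8) (.two (nat_lit 8124) (nat_lit 4) (nat_lit 5931) (nat_lit 16) (.two (nat_lit 676) (nat_lit 8) (nat_lit 9476) (nat_lit 4) (.two (nat_lit 42) (nat_lit 8) (nat_lit 9477) (nat_lit 4) (.two (nat_lit 384) (nat_lit 1) (nat_lit 9478) (nat_lit 8) (.two (nat_lit 1) (nat_lit 4) (nat_lit 9479) (nat_lit 8) (.two (nat_lit 0) (nat_lit 4) (nat_lit 8875) (nat_lit 1) (.one (nat_lit 9480) (nat_lit 16) .nil)))))))),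
   .der (nat_lit 2135) (nat_lit 1450),
   .der (nat_lit 7) (nat_lit 3291),
   .der (nat_lit 22548) (nat_lit 4103),
   .der (nat_lit 33) (nat_lit 7575),
   .prs (.two (nat_lit 8482) (nat_lit 16) (nat_lit 4018) (nat_lit 2) (.two (nat_lit 4381) (nat_lit 16) (nat_lit 9482) (nat_lit 2) (.two (nat_lit 4380) (nat_lit 16) (nat_lit 9483) (nat_lit 2) (.two (nat_lit 520) (nat_lit 4) (nat_lit 9484) (nat_lit 16) (.two (nat_lit 17) (nat_lit 2) (nat_lit 7713) (nat_lit 16) (.two (nat_lit 1) (nat_lit 2) (nat_lit 9485) (nat_lit 16) (.two (nat_lit 0) (nat_lit 2) (nat_lit 8878) (nat_lit 16) (.one (nat_lit 9162) (nat_lit 4) .nil)))))))),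
   .der (nat_lit 86) (nat_lit 381),
   .der (nat_lit 67) (nat_lit 2349),
   .der (nat_lit 340) (nat_lit 3300),
   .der (nat_lit 3) (nat_lit 7391),
   .prs (.two (nat_lit 9487) (nat_lit 16) (nat_lit 4994) (nat_lit 4) (.two (nat_lit 2172) (nat_lit 1) (nat_lit 4964) (nat_lit 16) (.two (nat_lit 1582) (nat_lit 16) (nat_lit 9488) (nat_lit 4) (.two (nat_lit 625) (nat_lit 2) (nat_lit 9489) (nat_lit 16) (.two (nat_lit 4) (nat_lit 2) (nat_lit 5743) (nat_lit 4) (.two (nat_lit 3) (nat_lit 1) (nat_lit 9490) (nat_lit 2) (.two (nat_lit 0) (nat_lit 1) (nat_lit 8081) (nat_lit 2) (.one (nat_lit 9186) (nat_lit 2) .nil)))))))),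
   .der (nat_lit 161) (nat_lit 974),
   .der (nat_lit 801) (nat_lit 1473),
   .der (nat_lit 17185) (nat_lit 3120),
   .der (nat_lit 17185) (nat_lit 5025),
   .prs (.two (nat_lit 4006) (nat_lit 8) (nat_lit 9492) (nat_lit 1) (.two (nat_lit 35) (nat_lit 16) (nat_lit 9493) (nat_lit 4) (.two (nat_lit 13) (nat_lit 16) (nat_lit 9494) (nat_lit 1) (.two (nat_lit 129) (nat_lit 16) (nat_lit 9495) (nat_lit 1) (.two (nat_lit 2) (nat_lit 8) (nat_lit 7391) (nat_lit 1) (.two (nat_lit 1) (nat_lit 4) (nat_lit 8454) (nat_lit 16) (.two (nat_lit 0) (nat_lit 1) (nat_lit 8891) (nat_lit 4) (.one (nat_lit 9183) (nat_lit 4) .nil)))))))),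
   .der (nat_lit 4) (nat_lit 861),
   .der (nat_lit 10) (nat_lit 3981),
   .der (nat_lit 834) (nat_lit 5800)]

theorem b5_step18 (h : ∀ j < 9000, Good b5T j) : ∀ j < 9500, Good b5T j := by
  intro j hj
  refine chkL_ok b5C18 9000 h (by decide +kernel) j ?_
  have h : b5C18.length = 500 := by decide +kernel
  omega

/-- certificates 9500..10000 -/
def b5C19 : List Cf :=
  [.der (nat_lit 801) (nat_lit 7444),
   .der (nat_lit 801) (nat_lit 8484),
   .der (nat_lit 165) (nat_lit 8481),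
   .der (nat_lit 165) (nat_lit 9192),
   .prs (.two (nat_lit 5768) (nat_lit 1) (nat_lit 9497) (nat_lit 8) (.two (nat_lit 82) (nat_lit 8) (nat_lit 8959) (nat_lit 16) (.two (nat_lit 33) (nat_lit 8) (nat_lit 3116) (nat_lit 16) (.two (nat_lit 520) (nat_lit 16) (nat_lit 9498) (nat_lit 8) (.two (nat_lit 30) (nat_lit 16) (nat_lit 9499) (nat_lit 1) (.two (nat_lit 7) (nat_lit 8) (nat_lit 9500) (nat_lit 1) (.two (nat_lit 11) (nat_lit 8) (nat_lit 9501) (nat_lit 1) (.two (nat_lit 0) (nat_lit 1) (nat_lit 9502) (nat_lit 16) (.one (nat_lit 9503) (nat_lit 1) .nil))))))))),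
   .der (nat_lit 87) (nat_lit 2180),
   .der (nat_lit 2433) (nat_lit 3116),
   .der (nat_lit 2390) (nat_lit 10),
   .der (nat_lit 35) (nat_lit 7444),
   .der (nat_lit 35) (nat_lit 8481),
   .der (nat_lit 1) (nat_lit 9202),
   .prs (.two (nat_lit 9203) (nat_lit 4) (nat_lit 8577) (nat_lit 2) (.two (nat_lit 424) (nat_lit 16) (nat_lit 9505) (nat_lit 4) (.two (nat_lit 423) (nat_lit 16) (nat_lit 9506) (nat_lit 4) (.two (nat_lit 520) (nat_lit 4) (nat_lit 3981) (nat_lit 16) (.two (nat_lit 9507) (nat_lit 4) (nat_lit 7440) (nat_lit 2) (.two (nat_lit 1161) (nat_lit 2) (nat_lit 9508) (nat_lit 4) (.two (nat_lit 1) (nat_lit 2) (nat_lit 9509) (nat_lit 4) (.one (nat_lit 9510) (nat_lit 2) .nil)))))))),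
   .der (nat_lit 371) (nat_lit 1392),
   .der (nat_lit 50) (nat_lit 5827),
   .der (nat_lit 26386) (nat_lit 7461),
   .der (nat_lit 161) (nat_lit 8481),
   .prs (.two (nat_lit 5534) (nat_lit 16) (nat_lit 9512) (nat_lit 1) (.two (nat_lit 82) (nat_lit 8) (nat_lit 3979) (nat_lit 16) (.two (nat_lit 33) (nat_lit 8) (nat_lit 7059) (nat_lit 16) (.two (nat_lit 80) (nat_lit 16) (nat_lit 9498) (nat_lit 8) (.two (nat_lit 723) (nat_lit 1) (nat_lit 9513) (nat_lit 8) (.two (nat_lit 1068) (nat_lit 1) (nat_lit 9514) (nat_lit 16) (.two (nat_lit 3) (nat_lit 1) (nat_lit 9515) (nat_lit 16) (.one (nat_lit 9249) (nat_lit 8) .nil)))))))),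
   .der (nat_lit 117) (nat_lit 861),
   .der (nat_lit 5) (nat_lit 5837),
   .der (nat_lit 84) (nat_lit 5827),
   .der (nat_lit 5971) (nat_lit 7444),
   .der (nat_lit 5971) (nat_lit 8484),
   .prs (.two (nat_lit 9429) (nat_lit 8) (nat_lit 9517) (nat_lit 2) (.two (nat_lit 8932) (nat_lit 16) (nat_lit 2317) (nat_lit 2) (.two (nat_lit 5564) (nat_lit 16) (nat_lit 4106) (nat_lit 2) (.two (nat_lit 390) (nat_lit 2) (nat_lit 9518) (nat_lit 8) (.two (nat_lit 1401) (nat_lit 16) (nat_lit 9519) (nat_lit 2) (.two (nat_lit 308) (nat_lit 2) (nat_lit 9520) (nat_lit 8) (.two (nat_lit 11) (nat_lit 2) (nat_lit 9521) (nat_lit 8) (.two (nat_lit 0) (nat_lit 8) (nat_lit 8511) (nat_lit 2) (.one (nat_lit 9257) (nat_lit 2) .nil))))))))),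
   .der (nat_lit 12658) (nat_lit 2199),
   .der (nat_lit 1380) (nat_lit 8139),
   .der (nat_lit 6) (nat_lit 8511),
   .prs (.two (nat_lit 5852) (nat_lit 2) (nat_lit 6008) (nat_lit 8) (.two (nat_lit 1404) (nat_lit 16) (nat_lit 9523) (nat_lit 8) (.two (nat_lit 1492) (nat_lit 16) (nat_lit 4229) (nat_lit 8) (.two (nat_lit 440) (nat_lit 8) (nat_lit 8492) (nat_lit 1) (.two (nat_lit 34) (nat_lit 8) (nat_lit 7553) (nat_lit 1) (.two (nat_lit 11) (nat_lit 8) (nat_lit 9524) (nat_lit 1) (.two (nat_lit 0) (nat_lit 2) (nat_lit 9525) (nat_lit 8) (.one (nat_lit 9277) (nat_lit 1) .nil)))))))),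
   .der (nat_lit 10305) (nat_lit 421),
   .der (nat_lit 2353) (nat_lit 4020),
   .der (nat_lit 86) (nat_lit 5800),
   .der (nat_lit 17185) (nat_lit 9235),
   .prs (.two (nat_lit 9527) (nat_lit 4) (nat_lit 4798) (nat_lit 8) (.two (nat_lit 3278) (nat_lit 8) (nat_lit 2205) (nat_lit 16) (.two (nat_lit 985) (nat_lit 4) (nat_lit 9528) (nat_lit 8) (.two (nat_lit 520) (nat_lit 8) (nat_lit 3981) (nat_lit 16) (.two (nat_lit 956) (nat_lit 8) (nat_lit 9529) (nat_lit 4) (.two (nat_lit 2) (nat_lit 8) (nat_lit 9425) (nat_lit 4) (.two (nat_lit 3) (nat_lit 4) (nat_lit 9262) (nat_lit 8) (.one (nat_lit 9530) (nat_lit 4) .nil)))))))),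
   .der (nat_lit 2113) (nat_lit 421),
   .der (nat_lit 627) (nat_lit 2180),
   .der (nat_lit 118) (nat_lit 3116),
   .der (nat_lit 1430) (nat_lit 5100),
   .der (nat_lit 5) (nat_lit 8514),
   .prs (.two (nat_lit 9532) (nat_lit 1) (nat_lit 4101) (nat_lit 16) (.two (nat_lit 1394) (nat_lit 16) (nat_lit 9533) (nat_lit 2) (.two (nat_lit 4380) (nat_lit 16) (nat_lit 9534) (nat_lit 2) (.two (nat_lit 1113) (nat_lit 16) (nat_lit 9535) (nat_lit 2) (.two (nat_lit 427) (nat_lit 2) (nat_lit 5807) (nat_lit 16) (.two (nat_lit 7) (nat_lit 16) (nat_lit 7558) (nat_lit 2) (.two (nat_lit 3) (nat_lit 1) (nat_lit 9536) (nat_lit 2) (.one (nat_lit 9282) (nat_lit 1) .nil)))))))),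
   .der (nat_lit 2433) (nat_lit 881),
   .prs (.two (nat_lit 7267) (nat_lit 8) (nat_lit 9538) (nat_lit 16) (.two (nat_lit 82) (nat_lit 16) (nat_lit 6990) (nat_lit 4) (.two (nat_lit 13) (nat_lit 8) (nat_lit 8216) (nat_lit 16) (.two (nat_lit 6) (nat_lit 8) (nat_lit 6077) (nat_lit 4) (.two (nat_lit 34) (nat_lit 8) (nat_lit 7603) (nat_lit 4) (.two (nat_lit 1) (nat_lit 4) (nat_lit 8168) (nat_lit 8) (.two (nat_lit 0) (nat_lit 4) (nat_lit 8997) (nat_lit 8) (.one (nat_lit 9324) (nat_lit 4) .nil)))))))),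
   .der (nat_lit 150) (nat_lit 417),
   .der (nat_lit 87) (nat_lit 2203),
   .der (nat_lit 29011) (nat_lit 4099),
   .der (nat_lit 21107) (nat_lit 39),
   .der (nat_lit 833) (nat_lit 5873),
   .der (nat_lit 833) (nat_lit 7560),
   .der (nat_lit 103) (nat_lit 8511),
   .prs (.two (nat_lit 9540) (nat_lit 2) (nat_lit 3994) (nat_lit 4) (.two (nat_lit 9311) (nat_lit 1) (nat_lit 9541) (nat_lit 4) (.two (nat_lit 9543) (nat_lit 2) (nat_lit 9542) (nat_lit 1) (.two (nat_lit 520) (nat_lit 4) (nat_lit 9544) (nat_lit 1) (.two (nat_lit 174) (nat_lit 4) (nat_lit 6072) (nat_lit 2) (.two (nat_lit 2) (nat_lit 4) (nat_lit 9545) (nat_lit 1) (.two (nat_lit 16) (nat_lit 4) (nat_lit 9546) (nat_lit 2) (.one (nat_lit 9331) (nat_lit 1) .nil)))))))),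
   .der (nat_lit 137) (nat_lit 824),
   .der (nat_lit 161) (nat_lit 1534),
   .der (nat_lit 561) (nat_lit 3273),
   .der (nat_lit 137) (nat_lit 5059),
   .der (nat_lit 22548) (nat_lit 6185),
   .der (nat_lit 5) (nat_lit 8697),
   .prs (.two (nat_lit 6032) (nat_lit 16) (nat_lit 9548) (nat_lit 8) (.two (nat_lit 1429) (nat_lit 8) (nat_lit 9549) (nat_lit 16) (.two (nat_lit 822) (nat_lit 16) (nat_lit 9550) (nat_lit 4) (.two (nat_lit 13) (nat_lit 8) (nat_lit 9551) (nat_lit 16) (.two (nat_lit 918) (nat_lit 4) (nat_lit 9552) (nat_lit 16) (.two (nat_lit 2) (nat_lit 4) (nat_lit 7778) (nat_lit 8) (.two (nat_lit 3) (nat_lit 4) (nat_lit 9553) (nat_lit 8) (.one (nat_lit 9364) (nat_lit 4) .nil)))))))),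
   .der (nat_lit 137) (nat_lit 417),
   .der (nat_lit 135) (nat_lit 2472),
   .der (nat_lit 37425) (nat_lit 4099),
   .der (nat_lit 1810) (nat_lit 5912),
   .der (nat_lit 10305) (nat_lit 5827),
   .der (nat_lit 67) (nat_lit 7511),
   .der (nat_lit 5218) (nat_lit 8511),
   .der (nat_lit 37425) (nat_lit 9240),
   .prs (.two (nat_lit 9555) (nat_lit 4) (nat_lit 8739) (nat_lit 8) (.two (nat_lit 1429) (nat_lit 4) (nat_lit 9556) (nat_lit 8) (.two (nat_lit 3774) (nat_lit 4) (nat_lit 9557) (nat_lit 1) (.two (nat_lit 390) (nat_lit 8) (nat_lit 9558) (nat_lit 4) (.two (nat_lit 956) (nat_lit 8) (nat_lit 9559) (nat_lit 1) (.two (nat_lit 3081) (nat_lit 8) (nat_lit 9560) (nat_lit 4) (.two (nat_lit 1) (nat_lit 8) (nat_lit 9561) (nat_lit 1) (.one (nat_lit 9562) (nat_lit 8) .nil)))))))),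
   .der (nat_lit 2084) (nat_lit 421),
   .der (nat_lit 2578) (nat_lit 421),
   .der (nat_lit 2578) (nat_lit 2210),
   .der (nat_lit 1430) (nat_lit 6197),
   .der (nat_lit 4) (nat_lit 7125),
   .prs (.two (nat_lit 9565) (nat_lit 8) (nat_lit 9564) (nat_lit 1) (.two (nat_lit 2329) (nat_lit 8) (nat_lit 9143) (nat_lit 2) (.two (nat_lit 1492) (nat_lit 16) (nat_lit 9566) (nat_lit 8) (.two (nat_lit 440) (nat_lit 8) (nat_lit 9362) (nat_lit 1) (.two (nat_lit 528) (nat_lit 2) (nat_lit 9567) (nat_lit 8) (.two (nat_lit 7) (nat_lit 16) (nat_lit 9568) (nat_lit 8) (.two (nat_lit 1) (nat_lit 2) (nat_lit 9363) (nat_lit 1) (.two (nat_lit 0) (nat_lit 1) (nat_lit 8710) (nat_lit 8) (.one (nat_lit 9393) (nat_lit 1) .nil))))))))),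
   .der (nat_lit 833) (nat_lit 898),
   .der (nat_lit 161) (nat_lit 421),
   .der (nat_lit 852) (nat_lit 2300),
   .der (nat_lit 1415) (nat_lit 5230),
   .der (nat_lit 1430) (nat_lit 6044),
   .der (nat_lit 33345) (nat_lit 7042),
   .der (nat_lit 577) (nat_lit 8226),
   .prs (.two (nat_lit 9571) (nat_lit 8) (nat_lit 9570) (nat_lit 4) (.two (nat_lit 1429) (nat_lit 8) (nat_lit 8721) (nat_lit 4) (.two (nat_lit 3774) (nat_lit 4) (nat_lit 9572) (nat_lit 8) (.two (nat_lit 13) (nat_lit 8) (nat_lit 9573) (nat_lit 16) (.two (nat_lit 6) (nat_lit 8) (nat_lit 9574) (nat_lit 4) (.two (nat_lit 34) (nat_lit 16) (nat_lit 9575) (nat_lit 8) (.two (nat_lit 1) (nat_lit 16) (nat_lit 9576) (nat_lit 4) (.two (nat_lit 0) (nat_lit 4) (nat_lit 8720) (nat_lit 8) (.one (nat_lit 9384) (nat_lit 4) .nil))))))))),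
   .der (nat_lit 101) (nat_lit 2360),
   .der (nat_lit 1299) (nat_lit 4170),
   .der (nat_lit 2578) (nat_lit 5832),
   .der (nat_lit 117) (nat_lit 7173),
   .der (nat_lit 13345) (nat_lit 7494),
   .prs (.two (nat_lit 8762) (nat_lit 16) (nat_lit 1713) (nat_lit 2) (.two (nat_lit 1722) (nat_lit 8) (nat_lit 9578) (nat_lit 16) (.two (nat_lit 13) (nat_lit 8) (nat_lit 9579) (nat_lit 16) (.two (nat_lit 489) (nat_lit 16) (nat_lit 9580) (nat_lit 8) (.two (nat_lit 17) (nat_lit 16) (nat_lit 9581) (nat_lit 2) (.two (nat_lit 1) (nat_lit 2) (nat_lit 9582) (nat_lit 8) (.two (nat_lit 0) (nat_lit 2) (nat_lit 8761) (nat_lit 8) (.one (nat_lit 9406) (nat_lit 2) .nil)))))))),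
   .der (nat_lit 38163) (nat_lit 834),
   .der (nat_lit 145) (nat_lit 2277),
   .der (nat_lit 86) (nat_lit 6044),
   .prs (.two (nat_lit 3993) (nat_lit 16) (nat_lit 9584) (nat_lit 4) (.two (nat_lit 2204) (nat_lit 16) (nat_lit 9585) (nat_lit 4) (.two (nat_lit 4375) (nat_lit 4) (nat_lit 4776) (nat_lit 8) (.two (nat_lit 676) (nat_lit 4) (nat_lit 8350) (nat_lit 8) (.two (nat_lit 528) (nat_lit 4) (nat_lit 9586) (nat_lit 8) (.two (nat_lit 2) (nat_lit 4) (nat_lit 7916) (nat_lit 8) (.two (nat_lit 1) (nat_lit 4) (nat_lit 8788) (nat_lit 8) (.two (nat_lit 0) (nat_lit 4) (nat_lit 9102) (nat_lit 16) (.one (nat_lit 9413) (nat_lit 4) .nil))))))))),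
   .der (nat_lit 9) (nat_lit 845),
   .der (nat_lit 37425) (nat_lit 388),
   .der (nat_lit 9) (nat_lit 2205),
   .der (nat_lit 2433) (nat_lit 64),
   .der (nat_lit 9) (nat_lit 4028),
   .prs (.two (nat_lit 3993) (nat_lit 16) (nat_lit 9588) (nat_lit 4) (.two (nat_lit 9589) (nat_lit 4) (nat_lit 4798) (nat_lit 8) (.two (nat_lit 9591) (nat_lit 4) (nat_lit 9590) (nat_lit 8) (.two (nat_lit 676) (nat_lit 4) (nat_lit 9592) (nat_lit 8) (.two (nat_lit 6) (nat_lit 8) (nat_lit 6507) (nat_lit 4) (.two (nat_lit 2) (nat_lit 4) (nat_lit 7913) (nat_lit 8) (.two (nat_lit 1) (nat_lit 4) (nat_lit 8336) (nat_lit 8) (.two (nat_lit 0) (nat_lit 4) (nat_lit 9107) (nat_lit 8) (.one (nat_lit 9419) (nat_lit 4) .nil))))))))),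
   .der (nat_lit 33) (nat_lit 1565),
   .der (nat_lit 1395) (nat_lit 2353),
   .der (nat_lit 2390) (nat_lit 4252),
   .der (nat_lit 10) (nat_lit 6292),
   .der (nat_lit 129) (nat_lit 8122),
   .der (nat_lit 129) (nat_lit 8481),
   .prs (.two (nat_lit 7267) (nat_lit 16) (nat_lit 9594) (nat_lit 2) (.two (nat_lit 1440) (nat_lit 16) (nat_lit 9595) (nat_lit 2) (.two (nat_lit 33) (nat_lit 16) (nat_lit 9596) (nat_lit 2) (.two (nat_lit 676) (nat_lit 8) (nat_lit 3981) (nat_lit 16) (.two (nat_lit 42) (nat_lit 8) (nat_lit 9597) (nat_lit 16) (.two (nat_lit 2) (nat_lit 8) (nat_lit 8908) (nat_lit 2) (.two (nat_lit 1) (nat_lit 2) (nat_lit 9598) (nat_lit 16) (.two (nat_lit 0) (nat_lit 1) (nat_lit 9599) (nat_lit 2) (.one (nat_lit 9428) (nat_lit 2) .nil))))))))),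
   .der (nat_lit 29011) (nat_lit 421),
   .der (nat_lit 10545) (nat_lit 2199),
   .der (nat_lit 1653) (nat_lit 3229),
   .der (nat_lit 152) (nat_lit 6353),
   .der (nat_lit 33345) (nat_lit 5800),
   .der (nat_lit 33345) (nat_lit 7456),
   .prs (.two (nat_lit 9601) (nat_lit 1) (nat_lit 3608) (nat_lit 2) (.two (nat_lit 4495) (nat_lit 8) (nat_lit 9602) (nat_lit 1) (.two (nat_lit 81) (nat_lit 1) (nat_lit 9603) (nat_lit 8) (.two (nat_lit 127) (nat_lit 4) (nat_lit 9604) (nat_lit 8) (.two (nat_lit 65) (nat_lit 2) (nat_lit 9605) (nat_lit 4) (.two (nat_lit 4) (nat_lit 2) (nat_lit 9606) (nat_lit 4) (.two (nat_lit 1) (nat_lit 2) (nat_lit 9120) (nat_lit 1) (.one (nat_lit 9440) (nat_lit 2) .nil)))))))),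
   .der (nat_lit 1875) (nat_lit 897),
   .der (nat_lit 1890) (nat_lit 848),
   .der (nat_lit 1122) (nat_lit 3347),
   .der (nat_lit 52) (nat_lit 4316),
   .der (nat_lit 101) (nat_lit 6488),
   .der (nat_lit 1122) (nat_lit 5845),
   .der (nat_lit 1395) (nat_lit 7485),
   .der (nat_lit 115) (nat_lit 8930),
   .prs (.two (nat_lit 9609) (nat_lit 2) (nat_lit 9608) (nat_lit 1) (.two (nat_lit 8849) (nat_lit 2) (nat_lit 3011) (nat_lit 1) (.two (nat_lit 3794) (nat_lit 2) (nat_lit 9610) (nat_lit 1) (.two (nat_lit 127) (nat_lit 2) (nat_lit 9611) (nat_lit 1) (.two (nat_lit 1387) (nat_lit 1) (nat_lit 9612) (nat_lit 2) (.two (nat_lit 1203) (nat_lit 2) (nat_lit 9613) (nat_lit 1) (.two (nat_lit 16) (nat_lit 2) (nat_lit 9614) (nat_lit 1) (.two (nat_lit 0) (nat_lit 1) (nat_lit 8824) (nat_lit 2) (.one (nat_lit 9615) (nat_lit 1) .nil))))))))),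
   .der (nat_lit 135) (nat_lit 881),
   .der (nat_lit 1415) (nat_lit 864),
   .der (nat_lit 1299) (nat_lit 3506),
   .der (nat_lit 17185) (nat_lit 6567),
   .der (nat_lit 2339) (nat_lit 5890),
   .der (nat_lit 152) (nat_lit 7023),
   .der (nat_lit 22548) (nat_lit 8168),
   .der (nat_lit 4) (nat_lit 9039),
   .prs (.two (nat_lit 6530) (nat_lit 16) (nat_lit 9617) (nat_lit 4) (.two (nat_lit 3775) (nat_lit 4) (nat_lit 9618) (nat_lit 2) (.two (nat_lit 1355) (nat_lit 4) (nat_lit 9619) (nat_lit 16) (.two (nat_lit 520) (nat_lit 4) (nat_lit 9620) (nat_lit 16) (.two (nat_lit 209) (nat_lit 2) (nat_lit 9621) (nat_lit 16) (.two (nat_lit 170) (nat_lit 2) (nat_lit 9622) (nat_lit 16) (.two (nat_lit 1) (nat_lit 16) (nat_lit 9623) (nat_lit 2) (.two (nat_lit 0) (nat_lit 2) (nat_lit 9146) (nat_lit 4) (.one (nat_lit 9624) (nat_lit 16) .nil))))))))),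
   .der (nat_lit 2068) (nat_lit 861),
   .der (nat_lit 129) (nat_lit 59),
   .der (nat_lit 129) (nat_lit 7439),
   .der (nat_lit 10) (nat_lit 8120),
   .der (nat_lit 10) (nat_lit 9504),
   .prs (.two (nat_lit 3608) (nat_lit 16) (nat_lit 9626) (nat_lit 2) (.two (nat_lit 9272) (nat_lit 16) (nat_lit 2186) (nat_lit 2) (.two (nat_lit 1404) (nat_lit 16) (nat_lit 8674) (nat_lit 8) (.two (nat_lit 9627) (nat_lit 8) (nat_lit 3981) (nat_lit 16) (.two (nat_lit 440) (nat_lit 16) (nat_lit 6807) (nat_lit 8) (.two (nat_lit 227) (nat_lit 8) (nat_lit 9628) (nat_lit 2) (.two (nat_lit 206) (nat_lit 2) (nat_lit 9629) (nat_lit 16) (.two (nat_lit 1) (nat_lit 2) (nat_lit 8906) (nat_lit 8) (.two (nat_lit 0) (nat_lit 2) (nat_lit 9206) (nat_lit 8) (.one (nat_lit 9630) (nat_lit 2) .nil)))))))))),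
   .der (nat_lit 1057) (nat_lit 35),
   .der (nat_lit 86) (nat_lit 5827),
   .der (nat_lit 5971) (nat_lit 7469),
   .der (nat_lit 1122) (nat_lit 8130),
   .prs (.two (nat_lit 9517) (nat_lit 2) (nat_lit 9626) (nat_lit 4) (.two (nat_lit 9316) (nat_lit 2) (nat_lit 5952) (nat_lit 16) (.two (nat_lit 1394) (nat_lit 16) (nat_lit 4099) (nat_lit 4) (.two (nat_lit 9632) (nat_lit 16) (nat_lit 4103) (nat_lit 1) (.two (nat_lit 390) (nat_lit 2) (nat_lit 9633) (nat_lit 4) (.two (nat_lit 590) (nat_lit 2) (nat_lit 9634) (nat_lit 1) (.two (nat_lit 9) (nat_lit 4) (nat_lit 9635) (nat_lit 1) (.two (nat_lit 3) (nat_lit 1) (nat_lit 8919) (nat_lit 2) (.two (nat_lit 0) (nat_lit 1) (nat_lit 9240) (nat_lit 2) (.one (nat_lit 9522) (nat_lit 4) .nil)))))))))),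
   .der (nat_lit 339) (nat_lit 1448),
   .der (nat_lit 35) (nat_lit 864),
   .der (nat_lit 35) (nat_lit 2171),
   .der (nat_lit 10305) (nat_lit 4020),
   .der (nat_lit 13345) (nat_lit 67),
   .der (nat_lit 83) (nat_lit 5883),
   .der (nat_lit 2578) (nat_lit 7439),
   .der (nat_lit 13345) (nat_lit 8130),
   .der (nat_lit 1) (nat_lit 9516),
   .prs (.two (nat_lit 9638) (nat_lit 16) (nat_lit 9637) (nat_lit 8) (.two (nat_lit 3226) (nat_lit 4) (nat_lit 9639) (nat_lit 16) (.two (nat_lit 9311) (nat_lit 4) (nat_lit 9640) (nat_lit 16) (.two (nat_lit 9641) (nat_lit 16) (nat_lit 9498) (nat_lit 8) (.two (nat_lit 550) (nat_lit 16) (nat_lit 9642) (nat_lit 8) (.two (nat_lit 918) (nat_lit 4) (nat_lit 9643) (nat_lit 16) (.two (nat_lit 78) (nat_lit 4) (nat_lit 9644) (nat_lit 8) (.two (nat_lit 1) (nat_lit 8) (nat_lit 8923) (nat_lit 4) (.two (nat_lit 0) (nat_lit 4) (nat_lit 9244) (nat_lit 8) (.one (nat_lit 9645) (nat_lit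 4) .nil)))))))))),
   .der (nat_lit 20) (nat_lit 2247),
   .der (nat_lit 65) (nat_lit 4126),
   .der (nat_lit 852) (nat_lit 5883),
   .der (nat_lit 35) (nat_lit 8122),
   .der (nat_lit 33) (nat_lit 8491),
   .der (nat_lit 801) (nat_lit 9263),
   .der (nat_lit 2) (nat_lit 9511),
   .prs (.two (nat_lit 6008) (nat_lit 2) (nat_lit 1415) (nat_lit 16) (.two (nat_lit 2198) (nat_lit 16) (nat_lit 9647) (nat_lit 1) (.two (nat_lit 1548) (nat_lit 16) (nat_lit 9648) (nat_lit 1) (.two (nat_lit 81) (nat_lit 1) (nat_lit 3981) (nat_lit 16) (.two (nat_lit 13) (nat_lit 4) (nat_lit 9649) (nat_lit 16) (.two (nat_lit 6) (nat_lit 4) (nat_lit 8945) (nat_lit 2) (.two (nat_lit 2) (nat_lit 4) (nat_lit 9650) (nat_lit 16) (.two (nat_lit 3) (nat_lit 4) (nat_lit 9651) (nat_lit 2) (.two (nat_lit 0) (nat_lit 2) (nat_lit 9652) (nat_lit 4) (.one (nat_lit 9653) (nat_lit 4) .nil)))))))))),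
   .der (nat_lit 83) (nat_lit 1396),
   .der (nat_lit 34068) (nat_lit 2171),
   .der (nat_lit 52) (nat_lit 417),
   .der (nat_lit 9) (nat_lit 4039),
   .der (nat_lit 145) (nat_lit 6817),
   .der (nat_lit 49) (nat_lit 7450),
   .der (nat_lit 1) (nat_lit 8143),
   .prs (.two (nat_lit 3994) (nat_lit 16) (nat_lit 9655) (nat_lit 4) (.two (nat_lit 9657) (nat_lit 4) (nat_lit 9656) (nat_lit 8) (.two (nat_lit 5870) (nat_lit 8) (nat_lit 9658) (nat_lit 4) (.two (nat_lit 4756) (nat_lit 2) (nat_lit 3981) (nat_lit 16) (.two (nat_lit 582) (nat_lit 4) (nat_lit 9659) (nat_lit 2) (.two (nat_lit 6) (nat_lit 8) (nat_lit 9660) (nat_lit 2) (.two (nat_lit 9) (nat_lit 4) (nat_lit 9661) (nat_lit 16) (.two (nat_lit 3) (nat_lit 4) (nat_lit 8514) (nat_lit 2) (.two (nat_lit 0) (nat_lit 2) (nat_lit 9271) (nat_lit 8) (.one (nat_lit 9531) (nat_lit 2) .nil)))))))))),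
   .der (nat_lit 1430) (nat_lit 2186),
   .der (nat_lit 135) (nat_lit 4126),
   .der (nat_lit 5) (nat_lit 8122),
   .der (nat_lit 101) (nat_lit 8514),
   .der (nat_lit 6) (nat_lit 9263),
   .prs (.two (nat_lit 8739) (nat_lit 16) (nat_lit 6288) (nat_lit 8) (.two (nat_lit 5852) (nat_lit 8) (nat_lit 9663) (nat_lit 16) (.two (nat_lit 1445) (nat_lit 16) (nat_lit 9664) (nat_lit 2) (.two (nat_lit 4635) (nat_lit 4) (nat_lit 5167) (nat_lit 8) (.two (nat_lit 105) (nat_lit 8) (nat_lit 8492) (nat_lit 4) (.two (nat_lit 227) (nat_lit 2) (nat_lit 8480) (nat_lit 8) (.two (nat_lit 2) (nat_lit 8) (nat_lit 9665) (nat_lit 16) (.two (nat_lit 1) (nat_lit 8) (nat_lit 9666) (nat_lit 4) (.two (nat_lit 0) (nat_lit 4) (nat_lit 9667) (nat_lit 8) (.one (nat_lit 9537) (nat_lit 8) .nil)))))))))),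
   .der (nat_lit 561) (nat_lit 1546),
   .der (nat_lit 2193) (nat_lit 2188),
   .der (nat_lit 33345) (nat_lit 3999),
   .der (nat_lit 2193) (nat_lit 5928),
   .der (nat_lit 103) (nat_lit 6879),
   .der (nat_lit 162) (nat_lit 7481),
   .der (nat_lit 8) (nat_lit 8914),
   .der (nat_lit 801) (nat_lit 9240),
   .prs (.two (nat_lit 417) (nat_lit 16) (nat_lit 9669) (nat_lit 2) (.two (nat_lit 82) (nat_lit 16) (nat_lit 9670) (nat_lit 2) (.two (nat_lit 33) (nat_lit 16) (nat_lit 9671) (nat_lit 1) (.two (nat_lit 440) (nat_lit 16) (nat_lit 9672) (nat_lit 2) (.two (nat_lit 227) (nat_lit 16) (nat_lit 9673) (nat_lit 2) (.two (nat_lit 361) (nat_lit 16) (nat_lit 9674) (nat_lit 2) (.two (nat_lit 1) (nat_lit 2) (nat_lit 9675) (nat_lit 1) (.one (nat_lit 9676) (nat_lit 1) .nil)))))))),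
   .der (nat_lit 801) (nat_lit 1408),
   .der (nat_lit 18) (nat_lit 3985),
   .der (nat_lit 2193) (nat_lit 5845),
   .der (nat_lit 52) (nat_lit 7538),
   .der (nat_lit 1057) (nat_lit 8162),
   .der (nat_lit 145) (nat_lit 8968),
   .prs (.two (nat_lit 861) (nat_lit 8) (nat_lit 9678) (nat_lit 16) (.two (nat_lit 8482) (nat_lit 2) (nat_lit 8522) (nat_lit 4) (.two (nat_lit 82) (nat_lit 16) (nat_lit 9679) (nat_lit 1) (.two (nat_lit 440) (nat_lit 8) (nat_lit 9680) (nat_lit 1) (.two (nat_lit 404) (nat_lit 8) (nat_lit 9681) (nat_lit 16) (.two (nat_lit 7) (nat_lit 8) (nat_lit 9682) (nat_lit 2) (.two (nat_lit 3) (nat_lit 8) (nat_lit 9683) (nat_lit 2) (.two (nat_lit 0) (nat_lit 2) (nat_lit 9312) (nat_lit 8) (.one (nat_lit 9547) (nat_lit 8) .nil))))))))),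
   .der (nat_lit 1650) (nat_lit 2332),
   .der (nat_lit 1430) (nat_lit 421),
   .der (nat_lit 86) (nat_lit 5037),
   .der (nat_lit 19) (nat_lit 7441),
   .prs (.two (nat_lit 9686) (nat_lit 2) (nat_lit 9685) (nat_lit 8) (.two (nat_lit 33) (nat_lit 8) (nat_lit 3109) (nat_lit 16) (.two (nat_lit 440) (nat_lit 8) (nat_lit 9687) (nat_lit 16) (.two (nat_lit 227) (nat_lit 8) (nat_lit 9688) (nat_lit 2) (.two (nat_lit 1) (nat_lit 2) (nat_lit 8591) (nat_lit 8) (.two (nat_lit 0) (nat_lit 2) (nat_lit 8976) (nat_lit 8) (.one (nat_lit 9309) (nat_lit 2) .nil))))))),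
   .der (nat_lit 1554) (nat_lit 4111),
   .der (nat_lit 1) (nat_lit 5976),
   .der (nat_lit 1430) (nat_lit 5823),
   .prs (.two (nat_lit 8482) (nat_lit 4) (nat_lit 1377) (nat_lit 16) (.two (nat_lit 1722) (nat_lit 16) (nat_lit 9670) (nat_lit 4) (.two (nat_lit 1846) (nat_lit 8) (nat_lit 9690) (nat_lit 16) (.two (nat_lit 13) (nat_lit 8) (nat_lit 9691) (nat_lit 4) (.two (nat_lit 12) (nat_lit 8) (nat_lit 9692) (nat_lit 4) (.two (nat_lit 2) (nat_lit 8) (nat_lit 7592) (nat_lit 4) (.two (nat_lit 1) (nat_lit 4) (nat_lit 8593) (nat_lit 8) (.two (nat_lit 0) (nat_lit 4) (nat_lit 8979) (nat_lit 8) (.one (nat_lit 9321) (nat_lit 4) .nil))))))))),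
   .der (nat_lit 137) (nat_lit 2197),
   .prs (.two (nat_lit 6278) (nat_lit 8) (nat_lit 9694) (nat_lit 16) (.two (nat_lit 82) (nat_lit 8) (nat_lit 8216) (nat_lit 16) (.two (nat_lit 13) (nat_lit 8) (nat_lit 8636) (nat_lit 1) (.two (nat_lit 6) (nat_lit 8) (nat_lit 7594) (nat_lit 1) (.two (nat_lit 5) (nat_lit 8) (nat_lit 8165) (nat_lit 4) (.two (nat_lit 1) (nat_lit 4) (nat_lit 8981) (nat_lit 8) (.two (nat_lit 0) (nat_lit 1) (nat_lit 9324) (nat_lit 4) (.one (nat_lit 9539) (nat_lit 1) .nil)))))))),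
   .der (nat_lit 2084) (nat_lit 3138),
   .der (nat_lit 2578) (nat_lit 5800),
   .der (nat_lit 33345) (nat_lit 7444),
   .prs (.two (nat_lit 8482) (nat_lit 2) (nat_lit 6985) (nat_lit 16) (.two (nat_lit 1492) (nat_lit 16) (nat_lit 9696) (nat_lit 8) (.two (nat_lit 440) (nat_lit 8) (nat_lit 6975) (nat_lit 1) (.two (nat_lit 6) (nat_lit 16) (nat_lit 9697) (nat_lit 1) (.two (nat_lit 384) (nat_lit 16) (nat_lit 9698) (nat_lit 2) (.two (nat_lit 1) (nat_lit 2) (nat_lit 8598) (nat_lit 1) (.two (nat_lit 0) (nat_lit 1) (nat_lit 8987) (nat_lit 2) (.one (nat_lit 9337) (nat_lit 1) .nil)))))))),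
   .der (nat_lit 98) (nat_lit 2339),
   .der (nat_lit 10) (nat_lit 3239),
   .der (nat_lit 18) (nat_lit 5953),
   .der (nat_lit 18) (nat_lit 8976),
   .prs (.two (nat_lit 1556) (nat_lit 16) (nat_lit 9700) (nat_lit 2) (.two (nat_lit 82) (nat_lit 16) (nat_lit 9701) (nat_lit 8) (.two (nat_lit 13) (nat_lit 8) (nat_lit 9276) (nat_lit 16) (.two (nat_lit 65) (nat_lit 8) (nat_lit 9702) (nat_lit 2) (.two (nat_lit 170) (nat_lit 2) (nat_lit 9025) (nat_lit 8) (.two (nat_lit 1) (nat_lit 2) (nat_lit 9703) (nat_lit 8) (.one (nat_lit 9346) (nat_lit 2) .nil))))))),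
   .der (nat_lit 2135) (nat_lit 3138),
   .der (nat_lit 34068) (nat_lit 5883),
   .der (nat_lit 1) (nat_lit 8488),
   .der (nat_lit 8) (nat_lit 9217),
   .prs (.two (nat_lit 824) (nat_lit 16) (nat_lit 6405) (nat_lit 8) (.two (nat_lit 82) (nat_lit 16) (nat_lit 9705) (nat_lit 8) (.two (nat_lit 13) (nat_lit 8) (nat_lit 9706) (nat_lit 16) (.two (nat_lit 2) (nat_lit 8) (nat_lit 7447) (nat_lit 16) (.two (nat_lit 1) (nat_lit 8) (nat_lit 9707) (nat_lit 16) (.two (nat_lit 0) (nat_lit 8) (nat_lit 9032) (nat_lit 16) (.one (nat_lit 9708) (nat_lit 8) .nil))))))),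
   .der (nat_lit 577) (nat_lit 1412),
   .der (nat_lit 561) (nat_lit 3439),
   .der (nat_lit 145) (nat_lit 5059),
   .der (nat_lit 87) (nat_lit 6054),
   .der (nat_lit 2135) (nat_lit 7575),
   .der (nat_lit 2193) (nat_lit 8658),
   .prs (.two (nat_lit 9555) (nat_lit 4) (nat_lit 9710) (nat_lit 2) (.two (nat_lit 82) (nat_lit 16) (nat_lit 9711) (nat_lit 8) (.two (nat_lit 33) (nat_lit 16) (nat_lit 9712) (nat_lit 2) (.two (nat_lit 13) (nat_lit 4) (nat_lit 9713) (nat_lit 2) (.two (nat_lit 129) (nat_lit 8) (nat_lit 9714) (nat_lit 1) (.two (nat_lit 11) (nat_lit 8) (nat_lit 9715) (nat_lit 1) (.two (nat_lit 0) (nat_lit 1) (nat_lit 9044) (nat_lit 2) (.one (nat_lit 9371) (nat_lit 1) .nil)))))))),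
   .der (nat_lit 2135) (nat_lit 1412),
   .der (nat_lit 1653) (nat_lit 3118),
   .der (nat_lit 152) (nat_lit 4322),
   .prs (.two (nat_lit 6315) (nat_lit 8) (nat_lit 9717) (nat_lit 1) (.two (nat_lit 1429) (nat_lit 4) (nat_lit 9718) (nat_lit 16) (.two (nat_lit 2166) (nat_lit 16) (nat_lit 9719) (nat_lit 1) (.two (nat_lit 440) (nat_lit 16) (nat_lit 6295) (nat_lit 1) (.two (nat_lit 6) (nat_lit 4) (nat_lit 7770) (nat_lit 16) (.two (nat_lit 2) (nat_lit 4) (nat_lit 7776) (nat_lit 1) (.two (nat_lit 1) (nat_lit 4) (nat_lit 8700) (nat_lit 16) (.two (nat_lit 0) (nat_lit 1) (nat_lit 9376) (nat_lit 4) (.one (nat_lit 9577) (nat_lit 1) .nil))))))))),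
   .der (nat_lit 833) (nat_lit 1557),
   .der (nat_lit 6) (nat_lit 4379),
   .der (nat_lit 2323) (nat_lit 6229),
   .prs (.two (nat_lit 9571) (nat_lit 8) (nat_lit 9721) (nat_lit 1) (.two (nat_lit 1429) (nat_lit 4) (nat_lit 9572) (nat_lit 8) (.two (nat_lit 2959) (nat_lit 8) (nat_lit 9722) (nat_lit 1) (.two (nat_lit 122) (nat_lit 4) (nat_lit 9723) (nat_lit 8) (.two (nat_lit 6) (nat_lit 8) (nat_lit 8724) (nat_lit 1) (.two (nat_lit 1) (nat_lit 4) (nat_lit 9050) (nat_lit 8) (.two (nat_lit 0) (nat_lit 1) (nat_lit 9384) (nat_lit 4) (.one (nat_lit 9390) (nat_lit 1) .nil)))))))),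
   .der (nat_lit 354) (nat_lit 864),
   .der (nat_lit 35) (nat_lit 4045),
   .der (nat_lit 87) (nat_lit 4656),
   .der (nat_lit 1073) (nat_lit 6362),
   .der (nat_lit 1650) (nat_lit 5953),
   .der (nat_lit 34068) (nat_lit 7676),
   .prs (.two (nat_lit 4771) (nat_lit 2) (nat_lit 9725) (nat_lit 16) (.two (nat_lit 1437) (nat_lit 16) (nat_lit 9726) (nat_lit 2) (.two (nat_lit 2344) (nat_lit 16) (nat_lit 9727) (nat_lit 2) (.two (nat_lit 94) (nat_lit 16) (nat_lit 9728) (nat_lit 2) (.two (nat_lit 30) (nat_lit 16) (nat_lit 9729) (nat_lit 1) (.two (nat_lit 325) (nat_lit 16) (nat_lit 9730) (nat_lit 1) (.two (nat_lit 3) (nat_lit 1) (nat_lit 9405) (nat_lit 2) (.two (nat_lit 0) (nat_lit 1) (nat_lit 9081) (nat_lit 2) (.one (nat_lit 9583) (nat_lit 1) .nil))))))))),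
   .der (nat_lit 2353) (nat_lit 2472),
   .der (nat_lit 147) (nat_lit 4065),
   .der (nat_lit 20) (nat_lit 5994),
   .der (nat_lit 5716) (nat_lit 6839),
   .der (nat_lit 834) (nat_lit 7494),
   .der (nat_lit 1556) (nat_lit 8525),
   .der (nat_lit 9) (nat_lit 9003),
   .prs (.two (nat_lit 1549) (nat_lit 16) (nat_lit 9732) (nat_lit 8) (.two (nat_lit 423) (nat_lit 4) (nat_lit 9733) (nat_lit 16) (.two (nat_lit 440) (nat_lit 8) (nat_lit 9734) (nat_lit 16) (.two (nat_lit 427) (nat_lit 16) (nat_lit 9735) (nat_lit 4) (.two (nat_lit 2) (nat_lit 4) (nat_lit 9736) (nat_lit 8) (.two (nat_lit 1) (nat_lit 16) (nat_lit 9737) (nat_lit 4) (.two (nat_lit 0) (nat_lit 16) (nat_lit 9738) (nat_lit 4) (.one (nat_lit 9399) (nat_lit 4) .nil)))))))),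
   .der (nat_lit 1300) (nat_lit 834),
   .der (nat_lit 13345) (nat_lit 2186),
   .der (nat_lit 132) (nat_lit 4002),
   .der (nat_lit 162) (nat_lit 7258),
   .der (nat_lit 10545) (nat_lit 7255),
   .der (nat_lit 10) (nat_lit 9413),
   .prs (.two (nat_lit 9740) (nat_lit 4) (nat_lit 4798) (nat_lit 8) (.two (nat_lit 8617) (nat_lit 4) (nat_lit 9741) (nat_lit 16) (.two (nat_lit 2793) (nat_lit 1) (nat_lit 9742) (nat_lit 16) (.two (nat_lit 13) (nat_lit 16) (nat_lit 9743) (nat_lit 1) (.two (nat_lit 397) (nat_lit 4) (nat_lit 9744) (nat_lit 8) (.two (nat_lit 78) (nat_lit 4) (nat_lit 8330) (nat_lit 16) (.two (nat_lit 1) (nat_lit 4) (nat_lit 9092) (nat_lit 8) (.two (nat_lit 0) (nat_lit 1) (nat_lit 9745) (nat_lit 4) (.one (nat_lit 9593) (nat_lit 1) .nil))))))))),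
   .der (nat_lit 3) (nat_lit 4348),
   .der (nat_lit 3) (nat_lit 5263),
   .der (nat_lit 2353) (nat_lit 6049),
   .der (nat_lit 10) (nat_lit 9587),
   .prs (.two (nat_lit 3235) (nat_lit 8) (nat_lit 5603) (nat_lit 16) (.two (nat_lit 1417) (nat_lit 16) (nat_lit 9747) (nat_lit 1) (.two (nat_lit 423) (nat_lit 16) (nat_lit 9748) (nat_lit 8) (.two (nat_lit 676) (nat_lit 4) (nat_lit 9749) (nat_lit 1) (.two (nat_lit 6) (nat_lit 4) (nat_lit 7913) (nat_lit 8) (.two (nat_lit 2) (nat_lit 4) (nat_lit 8332) (nat_lit 8) (.two (nat_lit 1) (nat_lit 16) (nat_lit 9096) (nat_lit 8) (.two (nat_lit 0) (nat_lit 1) (nat_lit 9419) (nat_lit 4) (.one (nat_lit 9750) (nat_lit 1) .nil))))))))),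
   .der (nat_lit 9572) (nat_lit 4099),
   .der (nat_lit 2193) (nat_lit 7023),
   .der (nat_lit 801) (nat_lit 8122),
   .prs (.two (nat_lit 8654) (nat_lit 2) (nat_lit 8169) (nat_lit 8) (.two (nat_lit 4495) (nat_lit 8) (nat_lit 6014) (nat_lit 1) (.two (nat_lit 7451) (nat_lit 16) (nat_lit 9752) (nat_lit 4) (.two (nat_lit 462) (nat_lit 4) (nat_lit 9753) (nat_lit 16) (.two (nat_lit 5) (nat_lit 1) (nat_lit 9754) (nat_lit 16) (.two (nat_lit 0) (nat_lit 8) (nat_lit 8946) (nat_lit 1) (.one (nat_lit 9433) (nat_lit 1) .nil))))))),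
   .der (nat_lit 852) (nat_lit 2249),
   .der (nat_lit 371) (nat_lit 4602),
   .der (nat_lit 162) (nat_lit 6011),
   .der (nat_lit 29011) (nat_lit 7558),
   .der (nat_lit 22548) (nat_lit 8767),
   .prs (.two (nat_lit 6069) (nat_lit 4) (nat_lit 9756) (nat_lit 8) (.two (nat_lit 3794) (nat_lit 2) (nat_lit 9757) (nat_lit 4) (.two (nat_lit 32) (nat_lit 8) (nat_lit 9758) (nat_lit 2) (.two (nat_lit 12) (nat_lit 1) (nat_lit 9759) (nat_lit 4) (.two (nat_lit 11) (nat_lit 8) (nat_lit 9760) (nat_lit 1) (.two (nat_lit 0) (nat_lit 1) (nat_lit 9445) (nat_lit 2) (.one (nat_lit 9453) (nat_lit 1) .nil))))))),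
   .der (nat_lit 882) (nat_lit 2940),
   .der (nat_lit 3) (nat_lit 4658),
   .der (nat_lit 5218) (nat_lit 5095),
   .der (nat_lit 161) (nat_lit 6860),
   .der (nat_lit 161) (nat_lit 7518),
   .der (nat_lit 161) (nat_lit 8927),
   .der (nat_lit 50) (nat_lit 9360),
   .prs (.two (nat_lit 6269) (nat_lit 4) (nat_lit 9762) (nat_lit 8) (.two (nat_lit 1722) (nat_lit 8) (nat_lit 9763) (nat_lit 1) (.two (nat_lit 4380) (nat_lit 2) (nat_lit 9764) (nat_lit 4) (.two (nat_lit 65) (nat_lit 2) (nat_lit 9765) (nat_lit 4) (.two (nat_lit 2) (nat_lit 4) (nat_lit 9766) (nat_lit 1) (.two (nat_lit 1) (nat_lit 2) (nat_lit 9767) (nat_lit 1) (.one (nat_lit 9768) (nat_lit 2) .nil))))))),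
   .der (nat_lit 577) (nat_lit 2380),
   .der (nat_lit 114) (nat_lit 2353),
   .der (nat_lit 35) (nat_lit 4092),
   .der (nat_lit 1073) (nat_lit 7073),
   .der (nat_lit 101) (nat_lit 7485),
   .der (nat_lit 22803) (nat_lit 8130),
   .prs (.two (nat_lit 9251) (nat_lit 8) (nat_lit 9770) (nat_lit 4) (.two (nat_lit 424) (nat_lit 16) (nat_lit 9771) (nat_lit 1) (.two (nat_lit 6849) (nat_lit 8) (nat_lit 9772) (nat_lit 4) (.two (nat_lit 676) (nat_lit 8) (nat_lit 9773) (nat_lit 4) (.two (nat_lit 5) (nat_lit 1) (nat_lit 9774) (nat_lit 4) (.two (nat_lit 1) (nat_lit 2) (nat_lit 9775) (nat_lit 1) (.two (nat_lit 0) (nat_lit 1) (nat_lit 9134) (nat_lit 2) (.one (nat_lit 9460) (nat_lit 1) .nil)))))))),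
   .der (nat_lit 17185) (nat_lit 2950),
   .der (nat_lit 2) (nat_lit 4780),
   .der (nat_lit 1620) (nat_lit 4149),
   .der (nat_lit 1556) (nat_lit 6185),
   .der (nat_lit 17185) (nat_lit 7969),
   .der (nat_lit 7) (nat_lit 8627),
   .prs (.two (nat_lit 8565) (nat_lit 4) (nat_lit 9777) (nat_lit 16) (.two (nat_lit 1429) (nat_lit 4) (nat_lit 9778) (nat_lit 16) (.two (nat_lit 4494) (nat_lit 1) (nat_lit 9779) (nat_lit 2) (.two (nat_lit 105) (nat_lit 16) (nat_lit 9780) (nat_lit 1) (.two (nat_lit 129) (nat_lit 4) (nat_lit 9781) (nat_lit 1) (.two (nat_lit 5) (nat_lit 8) (nat_lit 8389) (nat_lit 1) (.two (nat_lit 3) (nat_lit 8) (nat_lit 9782) (nat_lit 1) (.two (nat_lit 0) (nat_lit 1) (nat_lit 9465) (nat_lit 2) (.one (nat_lit 9625) (nat_lit 1) .nil))))))))),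
   .der (nat_lit 1057) (nat_lit 2277),
   .der (nat_lit 1074) (nat_lit 2569),
   .der (nat_lit 129) (nat_lit 4126),
   .der (nat_lit 17185) (nat_lit 6006),
   .der (nat_lit 129) (nat_lit 6906),
   .der (nat_lit 2193) (nat_lit 8130),
   .der (nat_lit 33) (nat_lit 8936),
   .prs (.two (nat_lit 417) (nat_lit 16) (nat_lit 9784) (nat_lit 8) (.two (nat_lit 1429) (nat_lit 4) (nat_lit 9785) (nat_lit 2) (.two (nat_lit 35) (nat_lit 4) (nat_lit 9786) (nat_lit 16) (.two (nat_lit 440) (nat_lit 2) (nat_lit 9787) (nat_lit 4) (.two (nat_lit 6) (nat_lit 4) (nat_lit 9788) (nat_lit 8) (.two (nat_lit 7) (nat_lit 8) (nat_lit 9789) (nat_lit 1) (.two (nat_lit 0) (nat_lit 8) (nat_lit 9790) (nat_lit 2) (.one (nat_lit 9471) (nat_lit 1) .nil)))))))),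
   .der (nat_lit 2193) (nat_lit 1534),
   .der (nat_lit 118) (nat_lit 4379),
   .der (nat_lit 129) (nat_lit 7714),
   .der (nat_lit 1811) (nat_lit 8598),
   .der (nat_lit 118) (nat_lit 9039),
   .prs (.two (nat_lit 9188) (nat_lit 2) (nat_lit 9792) (nat_lit 8) (.two (nat_lit 8932) (nat_lit 16) (nat_lit 9793) (nat_lit 1) (.two (nat_lit 13) (nat_lit 4) (nat_lit 8492) (nat_lit 8) (.two (nat_lit 2) (nat_lit 4) (nat_lit 9794) (nat_lit 2) (.two (nat_lit 1) (nat_lit 4) (nat_lit 9795) (nat_lit 8) (.two (nat_lit 0) (nat_lit 1) (nat_lit 9796) (nat_lit 16) (.one (nat_lit 9486) (nat_lit 1) .nil))))))),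
   .der (nat_lit 1299) (nat_lit 381),
   .der (nat_lit 165) (nat_lit 3635),
   .der (nat_lit 137) (nat_lit 4534),
   .der (nat_lit 10305) (nat_lit 6537),
   .der (nat_lit 1122) (nat_lit 7641),
   .prs (.two (nat_lit 852) (nat_lit 2) (nat_lit 8444) (nat_lit 16) (.two (nat_lit 9798) (nat_lit 16) (nat_lit 3077) (nat_lit 2) (.two (nat_lit 8443) (nat_lit 8) (nat_lit 9799) (nat_lit 16) (.two (nat_lit 1413) (nat_lit 8) (nat_lit 9800) (nat_lit 2) (.two (nat_lit 129) (nat_lit 16) (nat_lit 9801) (nat_lit 8) (.two (nat_lit 2) (nat_lit 4) (nat_lit 8078) (nat_lit 8) (.two (nat_lit 3) (nat_lit 8) (nat_lit 9802) (nat_lit 2) (.two (nat_lit 0) (nat_lit 2) (nat_lit 9176) (nat_lit 16) (.one (nat_lit 9181) (nat_lit 2) .nil))))))))),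
   .der (nat_lit 137) (nat_lit 2277),
   .der (nat_lit 103) (nat_lit 4020),
   .der (nat_lit 1) (nat_lit 6879),
   .der (nat_lit 86) (nat_lit 7444),
   .der (nat_lit 1554) (nat_lit 8525),
   .der (nat_lit 627) (nat_lit 8919),
   .der (nat_lit 340) (nat_lit 9240),
   .prs (.two (nat_lit 864) (nat_lit 16) (nat_lit 9804) (nat_lit 8) (.two (nat_lit 4959) (nat_lit 8) (nat_lit 4241) (nat_lit 4) (.two (nat_lit 1429) (nat_lit 8) (nat_lit 9805) (nat_lit 16) (.two (nat_lit 1846) (nat_lit 8) (nat_lit 5873) (nat_lit 4) (.two (nat_lit 13) (nat_lit 8) (nat_lit 9806) (nat_lit 4) (.two (nat_lit 6) (nat_lit 8) (nat_lit 9807) (nat_lit 4) (.two (nat_lit 2) (nat_lit 4) (nat_lit 9808) (nat_lit 8) (.two (nat_lit 11) (nat_lit 16) (nat_lit 9809) (nat_lit 4) (.two (nat_lit 0) (nat_lit 4) (nat_lit 9810) (nat_lit 8) (.one (nat_lit 9677) (nat_lit 4) .nil)))))))))),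
   .der (nat_lit 137) (nat_lit 2238),
   .der (nat_lit 21092) (nat_lit 2317),
   .der (nat_lit 137) (nat_lit 421),
   .der (nat_lit 8) (nat_lit 5045),
   .der (nat_lit 8) (nat_lit 5167),
   .der (nat_lit 101) (nat_lit 9263),
   .prs (.two (nat_lit 6074) (nat_lit 16) (nat_lit 9812) (nat_lit 8) (.two (nat_lit 9814) (nat_lit 8) (nat_lit 9813) (nat_lit 4) (.two (nat_lit 3278) (nat_lit 8) (nat_lit 9815) (nat_lit 4) (.two (nat_lit 3774) (nat_lit 4) (nat_lit 9816) (nat_lit 8) (.two (nat_lit 520) (nat_lit 8) (nat_lit 8480) (nat_lit 4) (.two (nat_lit 2) (nat_lit 4) (nat_lit 9262) (nat_lit 8) (.two (nat_lit 0) (nat_lit 4) (nat_lit 9817) (nat_lit 8) (.one (nat_lit 9537) (nat_lit 4) .nil)))))))),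
   .der (nat_lit 612) (nat_lit 3988),
   .der (nat_lit 137) (nat_lit 5037),
   .der (nat_lit 137) (nat_lit 5827),
   .der (nat_lit 1415) (nat_lit 7515),
   .prs (.two (nat_lit 6114) (nat_lit 16) (nat_lit 3136) (nat_lit 4) (.two (nat_lit 4458) (nat_lit 16) (nat_lit 6392) (nat_lit 4) (.two (nat_lit 3278) (nat_lit 8) (nat_lit 9819) (nat_lit 4) (.two (nat_lit 3774) (nat_lit 4) (nat_lit 9820) (nat_lit 8) (.two (nat_lit 80) (nat_lit 16) (nat_lit 9821) (nat_lit 4) (.two (nat_lit 129) (nat_lit 8) (nat_lit 9822) (nat_lit 16) (.two (nat_lit 2) (nat_lit 4) (nat_lit 8591) (nat_lit 8) (.two (nat_lit 1) (nat_lit 4) (nat_lit 8971) (nat_lit 8) (.two (nat_lit 0) (nat_lit 4) (nat_lit 9314) (nat_lit 8) (.one (nat_lit 9699) (nat_lit 4) .nil)))))))))),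
   .der (nat_lit 5) (nat_lit 2203),
   .der (nat_lit 129) (nat_lit 3116),
   .der (nat_lit 5) (nat_lit 8963),
   .der (nat_lit 33) (nat_lit 9296),
   .prs (.two (nat_lit 861) (nat_lit 16) (nat_lit 9824) (nat_lit 2) (.two (nat_lit 82) (nat_lit 8) (nat_lit 9825) (nat_lit 16) (.two (nat_lit 33) (nat_lit 8) (nat_lit 8492) (nat_lit 1) (.two (nat_lit 227) (nat_lit 8) (nat_lit 7553) (nat_lit 1) (.two (nat_lit 7) (nat_lit 8) (nat_lit 9524) (nat_lit 1) (.two (nat_lit 1) (nat_lit 2) (nat_lit 9826) (nat_lit 1) (.two (nat_lit 0) (nat_lit 2) (nat_lit 9827) (nat_lit 1) (.one (nat_lit 9704) (nat_lit 1) .nil)))))))),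
   .der (nat_lit 137) (nat_lit 4020),
   .der (nat_lit 2578) (nat_lit 5100),
   .der (nat_lit 2) (nat_lit 6951),
   .der (nat_lit 118) (nat_lit 7481),
   .der (nat_lit 152) (nat_lit 8525),
   .der (nat_lit 2353) (nat_lit 8511),
   .der (nat_lit 114) (nat_lit 9240),
   .der (nat_lit 9) (nat_lit 9677),
   .prs (.two (nat_lit 861) (nat_lit 8) (nat_lit 6074) (nat_lit 16) (.two (nat_lit 5540) (nat_lit 8) (nat_lit 4027) (nat_lit 16) (.two (nat_lit 82) (nat_lit 8) (nat_lit 9829) (nat_lit 2) (.two (nat_lit 33) (nat_lit 8) (nat_lit 9830) (nat_lit 16) (.two (nat_lit 13) (nat_lit 8) (nat_lit 9831) (nat_lit 2) (.two (nat_lit 65) (nat_lit 8) (nat_lit 9832) (nat_lit 1) (.two (nat_lit 2) (nat_lit 8) (nat_lit 9833) (nat_lit 1) (.two (nat_lit 1) (nat_lit 8) (nat_lit 9834) (nat_lit 1) (.two (nat_lit 0) (nat_lit 8) (nat_lit 9835) (nat_lit 16) (.one (nat_lit 9836) (nat_lit 8) .nil)))))))))),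
   .der (nat_lit 1810) (nat_lit 3276),
   .der (nat_lit 340) (nat_lit 5224),
   .der (nat_lit 37425) (nat_lit 6860),
   .der (nat_lit 37425) (nat_lit 7542),
   .der (nat_lit 5218) (nat_lit 8139),
   .der (nat_lit 37425) (nat_lit 8927),
   .prs (.two (nat_lit 4176) (nat_lit 2) (nat_lit 4578) (nat_lit 4) (.two (nat_lit 9339) (nat_lit 4) (nat_lit 9838) (nat_lit 8) (.two (nat_lit 1394) (nat_lit 2) (nat_lit 9839) (nat_lit 4) (.two (nat_lit 105) (nat_lit 8) (nat_lit 9840) (nat_lit 1) (.two (nat_lit 456) (nat_lit 8) (nat_lit 9841) (nat_lit 1) (.two (nat_lit 170) (nat_lit 2) (nat_lit 9842) (nat_lit 1) (.two (nat_lit 16) (nat_lit 2) (nat_lit 9843) (nat_lit 8) (.two (nat_lit 0) (nat_lit 1) (nat_lit 9360) (nat_lit 2) (.one (nat_lit 9563) (nat_lit 2) .nil))))))))),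
   .der (nat_lit 1650) (nat_lit 2320),
   .der (nat_lit 162) (nat_lit 6119),
   .prs (.two (nat_lit 6293) (nat_lit 4) (nat_lit 2738) (nat_lit 8) (.two (nat_lit 9548) (nat_lit 8) (nat_lit 9845) (nat_lit 2) (.two (nat_lit 1429) (nat_lit 8) (nat_lit 8744) (nat_lit 16) (.two (nat_lit 6287) (nat_lit 16) (nat_lit 9846) (nat_lit 2) (.two (nat_lit 13) (nat_lit 8) (nat_lit 7125) (nat_lit 2) (.two (nat_lit 6) (nat_lit 8) (nat_lit 8242) (nat_lit 2) (.two (nat_lit 556) (nat_lit 4) (nat_lit 8697) (nat_lit 8) (.two (nat_lit 1) (nat_lit 2) (nat_lit 9364) (nat_lit 4) (.two (nat_lit 0) (nat_lit 2) (nat_lit 9569) (nat_lit 4) (.one (nat_lit 9724) (nat_lit 2) .nil)))))))))),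
   .der (nat_lit 5) (nat_lit 2214),
   .der (nat_lit 561) (nat_lit 3999),
   .der (nat_lit 145) (nat_lit 5827),
   .der (nat_lit 18) (nat_lit 7612),
   .der (nat_lit 10) (nat_lit 8552),
   .der (nat_lit 1556) (nat_lit 8914),
   .der (nat_lit 577) (nat_lit 9309),
   .prs (.two (nat_lit 3159) (nat_lit 16) (nat_lit 9848) (nat_lit 4) (.two (nat_lit 82) (nat_lit 8) (nat_lit 9849) (nat_lit 4) (.two (nat_lit 33) (nat_lit 8) (nat_lit 6464) (nat_lit 1) (.two (nat_lit 145) (nat_lit 16) (nat_lit 9850) (nat_lit 8) (.two (nat_lit 6) (nat_lit 4) (nat_lit 9851) (nat_lit 8) (.two (nat_lit 556) (nat_lit 16) (nat_lit 9852) (nat_lit 1) (.two (nat_lit 1) (nat_lit 16) (nat_lit 9853) (nat_lit 1) (.two (nat_lit 0) (nat_lit 1) (nat_lit 9854) (nat_lit 16) (.one (nat_lit 9739) (nat_lit 1) .nil))))))))),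
   .der (nat_lit 1299) (nat_lit 2376),
   .der (nat_lit 86) (nat_lit 824),
   .der (nat_lit 3) (nat_lit 4357),
   .der (nat_lit 3) (nat_lit 6092),
   .der (nat_lit 150) (nat_lit 6960),
   .der (nat_lit 38163) (nat_lit 7474),
   .der (nat_lit 577) (nat_lit 8139),
   .der (nat_lit 5971) (nat_lit 9390),
   .prs (.two (nat_lit 3994) (nat_lit 16) (nat_lit 2926) (nat_lit 4) (.two (nat_lit 9857) (nat_lit 16) (nat_lit 9856) (nat_lit 4) (.two (nat_lit 2204) (nat_lit 16) (nat_lit 9858) (nat_lit 4) (.two (nat_lit 423) (nat_lit 16) (nat_lit 9859) (nat_lit 2) (.two (nat_lit 105) (nat_lit 4) (nat_lit 9860) (nat_lit 2) (.two (nat_lit 528) (nat_lit 4) (nat_lit 9861) (nat_lit 8) (.two (nat_lit 206) (nat_lit 4) (nat_lit 9862) (nat_lit 8) (.two (nat_lit 1) (nat_lit 2) (nat_lit 9413) (nat_lit 4) (.two (nat_lit 0) (nat_lit 8) (nat_lit 9863) (nat_lit 4) (.one (nat_lit 9751) (nat_lit 2) .nil)))))))))),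
   .der (nat_lit 2113) (nat_lit 2248),
   .der (nat_lit 2578) (nat_lit 4386),
   .prs (.two (nat_lit 4959) (nat_lit 4) (nat_lit 9865) (nat_lit 8) (.two (nat_lit 4006) (nat_lit 8) (nat_lit 9866) (nat_lit 4) (.two (nat_lit 13) (nat_lit 16) (nat_lit 6726) (nat_lit 1) (.two (nat_lit 6) (nat_lit 4) (nat_lit 8441) (nat_lit 8) (.two (nat_lit 2) (nat_lit 4) (nat_lit 8447) (nat_lit 1) (.two (nat_lit 1) (nat_lit 2) (nat_lit 9491) (nat_lit 8) (.two (nat_lit 0) (nat_lit 1) (nat_lit 9496) (nat_lit 2) (.one (nat_lit 9803) (nat_lit 1) .nil)))))))),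
   .der (nat_lit 13345) (nat_lit 3112),
   .der (nat_lit 8) (nat_lit 9631),
   .prs (.two (nat_lit 5028) (nat_lit 16) (nat_lit 9868) (nat_lit 8) (.two (nat_lit 3423) (nat_lit 4) (nat_lit 3981) (nat_lit 16) (.two (nat_lit 423) (nat_lit 4) (nat_lit 8492) (nat_lit 8) (.two (nat_lit 32) (nat_lit 8) (nat_lit 8480) (nat_lit 4) (.two (nat_lit 12) (nat_lit 8) (nat_lit 9509) (nat_lit 4) (.two (nat_lit 1) (nat_lit 4) (nat_lit 9202) (nat_lit 8) (.two (nat_lit 0) (nat_lit 4) (nat_lit 9511) (nat_lit 8) (.one (nat_lit 9869) (nat_lit 8) .nil)))))))),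
   .der (nat_lit 50) (nat_lit 3996),
   .der (nat_lit 162) (nat_lit 5800),
   .der (nat_lit 801) (nat_lit 7466),
   .der (nat_lit 101) (nat_lit 8493),
   .der (nat_lit 10) (nat_lit 9516),
   .prs (.two (nat_lit 861) (nat_lit 16) (nat_lit 4009) (nat_lit 1) (.two (nat_lit 860) (nat_lit 16) (nat_lit 9871) (nat_lit 1) (.two (nat_lit 82) (nat_lit 16) (nat_lit 9872) (nat_lit 2) (.two (nat_lit 13) (nat_lit 8) (nat_lit 9873) (nat_lit 16) (.two (nat_lit 65) (nat_lit 8) (nat_lit 9874) (nat_lit 2) (.two (nat_lit 34) (nat_lit 8) (nat_lit 9210) (nat_lit 2) (.two (nat_lit 1) (nat_lit 8) (nat_lit 9875) (nat_lit 2) (.one (nat_lit 9631) (nat_lit 1) .nil)))))))),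
   .der (nat_lit 8) (nat_lit 3112),
   .der (nat_lit 8) (nat_lit 5815),
   .der (nat_lit 50) (nat_lit 5823),
   .der (nat_lit 161) (nat_lit 7450),
   .der (nat_lit 833) (nat_lit 8484),
   .der (nat_lit 370) (nat_lit 9235),
   .der (nat_lit 2578) (nat_lit 9511),
   .prs (.two (nat_lit 4894) (nat_lit 8) (nat_lit 9877) (nat_lit 16) (.two (nat_lit 1531) (nat_lit 16) (nat_lit 9878) (nat_lit 1) (.two (nat_lit 37) (nat_lit 16) (nat_lit 9879) (nat_lit 1) (.two (nat_lit 13) (nat_lit 16) (nat_lit 9880) (nat_lit 1) (.two (nat_lit 42) (nat_lit 16) (nat_lit 9881) (nat_lit 1) (.two (nat_lit 2) (nat_lit 8) (nat_lit 8914) (nat_lit 1) (.two (nat_lit 1) (nat_lit 16) (nat_lit 9882) (nat_lit 1) (.two (nat_lit 0) (nat_lit 1) (nat_lit 9883) (nat_lit 16) (.one (nat_lit 9646) (nat_lit 1) .nil))))))))),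
   .der (nat_lit 33345) (nat_lit 3239),
   .der (nat_lit 103) (nat_lit 5935),
   .der (nat_lit 10) (nat_lit 5827),
   .der (nat_lit 1) (nat_lit 7520),
   .der (nat_lit 101) (nat_lit 9240),
   .prs (.two (nat_lit 864) (nat_lit 16) (nat_lit 4533) (nat_lit 2) (.two (nat_lit 9564) (nat_lit 4) (nat_lit 9885) (nat_lit 8) (.two (nat_lit 1404) (nat_lit 16) (nat_lit 9886) (nat_lit 4) (.two (nat_lit 3774) (nat_lit 4) (nat_lit 9887) (nat_lit 16) (.two (nat_lit 13) (nat_lit 8) (nat_lit 9888) (nat_lit 2) (.two (nat_lit 6) (nat_lit 8) (nat_lit 8552) (nat_lit 2) (.two (nat_lit 2) (nat_lit 4) (nat_lit 9295) (nat_lit 2) (.two (nat_lit 11) (nat_lit 2) (nat_lit 9889) (nat_lit 4) (.two (nat_lit 0) (nat_lit 2) (nat_lit 9526) (nat_lit 4) (.one (nat_lit 9811) (nat_lit 2) .nil)))))))))),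
   .der (nat_lit 9) (nat_lit 3188),
   .der (nat_lit 10) (nat_lit 4010),
   .der (nat_lit 152) (nat_lit 5828),
   .der (nat_lit 8) (nat_lit 8122),
   .der (nat_lit 1299) (nat_lit 9511),
   .prs (.two (nat_lit 6074) (nat_lit 16) (nat_lit 9891) (nat_lit 1) (.two (nat_lit 4959) (nat_lit 4) (nat_lit 9892) (nat_lit 8) (.two (nat_lit 1429) (nat_lit 4) (nat_lit 9893) (nat_lit 2) (.two (nat_lit 3097) (nat_lit 2) (nat_lit 7449) (nat_lit 8) (.two (nat_lit 13) (nat_lit 4) (nat_lit 9894) (nat_lit 16) (.two (nat_lit 2) (nat_lit 4) (nat_lit 9427) (nat_lit 1) (.two (nat_lit 1) (nat_lit 4) (nat_lit 9895) (nat_lit 8) (.one (nat_lit 9668) (nat_lit 1) .nil)))))))),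
   .der (nat_lit 13345) (nat_lit 2300),
   .der (nat_lit 137) (nat_lit 864),
   .der (nat_lit 10) (nat_lit 4015),
   .der (nat_lit 33345) (nat_lit 417),
   .der (nat_lit 1) (nat_lit 5858),
   .der (nat_lit 1) (nat_lit 8122),
   .der (nat_lit 118) (nat_lit 9516),
   .prs (.two (nat_lit 9898) (nat_lit 8) (nat_lit 9897) (nat_lit 4) (.two (nat_lit 9900) (nat_lit 8) (nat_lit 9899) (nat_lit 4) (.two (nat_lit 1429) (nat_lit 4) (nat_lit 9901) (nat_lit 16) (.two (nat_lit 3774) (nat_lit 4) (nat_lit 9659) (nat_lit 1) (.two (nat_lit 520) (nat_lit 8) (nat_lit 9902) (nat_lit 16) (.two (nat_lit 2) (nat_lit 4) (nat_lit 8514) (nat_lit 1) (.two (nat_lit 1) (nat_lit 4) (nat_lit 9903) (nat_lit 8) (.one (nat_lit 9818) (nat_lit 1) .nil)))))))),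
   .der (nat_lit 2193) (nat_lit 3245),
   .der (nat_lit 8) (nat_lit 8514),
   .der (nat_lit 161) (nat_lit 9244),
   .prs (.two (nat_lit 6405) (nat_lit 16) (nat_lit 9656) (nat_lit 8) (.two (nat_lit 9564) (nat_lit 4) (nat_lit 9905) (nat_lit 8) (.two (nat_lit 82) (nat_lit 16) (nat_lit 6006) (nat_lit 2) (.two (nat_lit 3774) (nat_lit 4) (nat_lit 9659) (nat_lit 2) (.two (nat_lit 13) (nat_lit 16) (nat_lit 8150) (nat_lit 2) (.two (nat_lit 6) (nat_lit 8) (nat_lit 9906) (nat_lit 2) (.two (nat_lit 3) (nat_lit 4) (nat_lit 9907) (nat_lit 16) (.two (nat_lit 0) (nat_lit 2) (nat_lit 9875) (nat_lit 4) (.one (nat_lit 9818) (nat_lit 2) .nil))))))))),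
   .der (nat_lit 2578) (nat_lit 2203),
   .der (nat_lit 1893) (nat_lit 8162),
   .prs (.two (nat_lit 861) (nat_lit 8) (nat_lit 9909) (nat_lit 2) (.two (nat_lit 860) (nat_lit 8) (nat_lit 7718) (nat_lit 4) (.two (nat_lit 82) (nat_lit 8) (nat_lit 6065) (nat_lit 4) (.two (nat_lit 33) (nat_lit 8) (nat_lit 6066) (nat_lit 1) (.two (nat_lit 13) (nat_lit 8) (nat_lit 9714) (nat_lit 1) (.two (nat_lit 36) (nat_lit 16) (nat_lit 9910) (nat_lit 1) (.two (nat_lit 34) (nat_lit 8) (nat_lit 8968) (nat_lit 1) (.two (nat_lit 1) (nat_lit 2) (nat_lit 9539) (nat_lit 1) (.two (nat_lit 0) (nat_lit 1) (nat_lit 9695) (nat_lit 2) (.one (nat_lit 9837) (nat_lit 4) .nil)))))))))),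
   .der (nat_lit 2084) (nat_lit 5100),
   .der (nat_lit 1554) (nat_lit 5823),
   .der (nat_lit 161) (nat_lit 7456),
   .der (nat_lit 9) (nat_lit 8963),
   .der (nat_lit 2084) (nat_lit 9296),
   .der (nat_lit 33345) (nat_lit 9689),
   .der (nat_lit 1) (nat_lit 9823),
   .prs (.two (nat_lit 4894) (nat_lit 8) (nat_lit 3161) (nat_lit 16) (.two (nat_lit 1429) (nat_lit 4) (nat_lit 9912) (nat_lit 8) (.two (nat_lit 3097) (nat_lit 16) (nat_lit 9913) (nat_lit 1) (.two (nat_lit 440) (nat_lit 16) (nat_lit 9914) (nat_lit 1) (.two (nat_lit 6) (nat_lit 4) (nat_lit 8587) (nat_lit 8) (.two (nat_lit 4) (nat_lit 16) (nat_lit 9915) (nat_lit 1) (.two (nat_lit 11) (nat_lit 16) (nat_lit 9916) (nat_lit 1) (.two (nat_lit 0) (nat_lit 16) (nat_lit 9917) (nat_lit 1) (.one (nat_lit 9918) (nat_lit 1) .nil))))))))),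
   .der (nat_lit 33) (nat_lit 3363),
   .der (nat_lit 52) (nat_lit 864),
   .der (nat_lit 2135) (nat_lit 824),
   .der (nat_lit 12658) (nat_lit 5053),
   .der (nat_lit 9587) (nat_lit 7045),
   .prs (.two (nat_lit 9921) (nat_lit 1) (nat_lit 9920) (nat_lit 8) (.two (nat_lit 9922) (nat_lit 8) (nat_lit 9603) (nat_lit 1) (.two (nat_lit 1429) (nat_lit 8) (nat_lit 9923) (nat_lit 1) (.two (nat_lit 1568) (nat_lit 4) (nat_lit 9924) (nat_lit 2) (.two (nat_lit 13) (nat_lit 4) (nat_lit 7771) (nat_lit 2) (.two (nat_lit 6) (nat_lit 4) (nat_lit 8694) (nat_lit 2) (.two (nat_lit 556) (nat_lit 8) (nat_lit 9039) (nat_lit 1) (.two (nat_lit 1) (nat_lit 2) (nat_lit 9554) (nat_lit 1) (.two (nat_lit 0) (nat_lit 1) (nat_lit 9720) (nat_lit 2) (.one (nat_lit 9847) (nat_lit 1) .nil)))))))))),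
   .der (nat_lit 1875) (nat_lit 3180),
   .der (nat_lit 2323) (nat_lit 4300),
   .der (nat_lit 98) (nat_lit 5095),
   .der (nat_lit 19) (nat_lit 6823),
   .der (nat_lit 2323) (nat_lit 7592),
   .der (nat_lit 35) (nat_lit 8139),
   .der (nat_lit 137) (nat_lit 9277),
   .prs (.two (nat_lit 7516) (nat_lit 8) (nat_lit 9926) (nat_lit 16) (.two (nat_lit 6306) (nat_lit 16) (nat_lit 9927) (nat_lit 4) (.two (nat_lit 416) (nat_lit 16) (nat_lit 9928) (nat_lit 4) (.two (nat_lit 2195) (nat_lit 16) (nat_lit 9929) (nat_lit 8) (.two (nat_lit 105) (nat_lit 8) (nat_lit 9930) (nat_lit 16) (.two (nat_lit 12) (nat_lit 16) (nat_lit 9931) (nat_lit 4) (.two (nat_lit 2) (nat_lit 4) (nat_lit 9076) (nat_lit 2) (.two (nat_lit 1) (nat_lit 2) (nat_lit 9932) (nat_lit 16) (.two (nat_lit 0) (nat_lit 2) (nat_lit 9731) (nat_lit 4) (.one (nat_lit 9855) (nat_lit 2) .nil)))))))))),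
   .der (nat_lit 882) (nat_lit 3285),
   .der (nat_lit 1430) (nat_lit 861),
   .der (nat_lit 801) (nat_lit 3161),
   .der (nat_lit 8) (nat_lit 837),
   .der (nat_lit 3) (nat_lit 6108),
   .der (nat_lit 3) (nat_lit 7066),
   .der (nat_lit 162) (nat_lit 8322),
   .der (nat_lit 101) (nat_lit 8987),
   .prs (.two (nat_lit 9935) (nat_lit 2) (nat_lit 9934) (nat_lit 1) (.two (nat_lit 9937) (nat_lit 16) (nat_lit 9936) (nat_lit 4) (.two (nat_lit 2204) (nat_lit 16) (nat_lit 9938) (nat_lit 1) (.two (nat_lit 423) (nat_lit 16) (nat_lit 9939) (nat_lit 1) (.two (nat_lit 13) (nat_lit 16) (nat_lit 9940) (nat_lit 4) (.two (nat_lit 6) (nat_lit 4) (nat_lit 8785) (nat_lit 8) (.two (nat_lit 493) (nat_lit 8) (nat_lit 9941) (nat_lit 4) (.two (nat_lit 1) (nat_lit 2) (nat_lit 9587) (nat_lit 1) (.two (nat_lit 0) (nat_lit 1) (nat_lit 9746) (nat_lit 2) (.one (nat_lit 9864) (nat_lit 1) .nil)))))))))),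
   .der (nat_lit 1122) (nat_lit 2180),
   .der (nat_lit 16738) (nat_lit 2180),
   .der (nat_lit 10) (nat_lit 8481),
   .der (nat_lit 10) (nat_lit 9192),
   .der (nat_lit 34068) (nat_lit 9504),
   .der (nat_lit 10) (nat_lit 9631),
   .der (nat_lit 161) (nat_lit 9870),
   .prs (.two (nat_lit 9944) (nat_lit 16) (nat_lit 9943) (nat_lit 1) (.two (nat_lit 2182) (nat_lit 16) (nat_lit 3988) (nat_lit 8) (.two (nat_lit 7467) (nat_lit 16) (nat_lit 9498) (nat_lit 8) (.two (nat_lit 82) (nat_lit 8) (nat_lit 8974) (nat_lit 4) (.two (nat_lit 33) (nat_lit 8) (nat_lit 7444) (nat_lit 1) (.two (nat_lit 13) (nat_lit 8) (nat_lit 8484) (nat_lit 1) (.two (nat_lit 6) (nat_lit 4) (nat_lit 9945) (nat_lit 16) (.two (nat_lit 2) (nat_lit 4) (nat_lit 9946) (nat_lit 1) (.two (nat_lit 3) (nat_lit 16) (nat_lit 9947) (nat_lit 1) (.two (nat_lit 0) (nat_lit 1) (nat_lit 9948) (nat_lit 4) (.one (nat_lit 9949) (nat_lit 1) .nil))))))))))),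
   .der (nat_lit 9) (nat_lit 2229),
   .der (nat_lit 129) (nat_lit 2176),
   .der (nat_lit 18) (nat_lit 3116),
   .der (nat_lit 2135) (nat_lit 852),
   .der (nat_lit 152) (nat_lit 5827),
   .der (nat_lit 86) (nat_lit 7456),
   .der (nat_lit 165) (nat_lit 8497),
   .der (nat_lit 101) (nat_lit 8491),
   .prs (.two (nat_lit 9952) (nat_lit 16) (nat_lit 9951) (nat_lit 4) (.two (nat_lit 864) (nat_lit 8) (nat_lit 9953) (nat_lit 16) (.two (nat_lit 9954) (nat_lit 16) (nat_lit 9498) (nat_lit 8) (.two (nat_lit 424) (nat_lit 16) (nat_lit 9955) (nat_lit 8) (.two (nat_lit 593) (nat_lit 4) (nat_lit 9956) (nat_lit 8) (.two (nat_lit 13) (nat_lit 16) (nat_lit 9957) (nat_lit 4) (.two (nat_lit 427) (nat_lit 4) (nat_lit 9958) (nat_lit 2) (.two (nat_lit 2) (nat_lit 16) (nat_lit 9235) (nat_lit 2) (.two (nat_lit 1) (nat_lit 2) (nat_lit 9516) (nat_lit 4) (.two (nat_lit 0) (nat_lit 2) (nat_lit 9636) (nat_lit 8) (.one (nat_lit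 9884) (nat_lit 2) .nil))))))))))),
   .der (nat_lit 137) (nat_lit 861),
   .der (nat_lit 101) (nat_lit 834),
   .der (nat_lit 33) (nat_lit 6933),
   .der (nat_lit 1554) (nat_lit 7505),
   .der (nat_lit 8) (nat_lit 8130),
   .der (nat_lit 2578) (nat_lit 9244),
   .prs (.two (nat_lit 6815) (nat_lit 16) (nat_lit 9656) (nat_lit 8) (.two (nat_lit 9960) (nat_lit 4) (nat_lit 9905) (nat_lit 8) (.two (nat_lit 9961) (nat_lit 1) (nat_lit 3981) (nat_lit 16) (.two (nat_lit 1429) (nat_lit 8) (nat_lit 9962) (nat_lit 4) (.two (nat_lit 7524) (nat_lit 8) (nat_lit 9963) (nat_lit 16) (.two (nat_lit 13) (nat_lit 4) (nat_lit 9964) (nat_lit 16) (.two (nat_lit 6) (nat_lit 8) (nat_lit 8481) (nat_lit 1) (.two (nat_lit 463) (nat_lit 4) (nat_lit 9965) (nat_lit 16) (.two (nat_lit 3) (nat_lit 1) (nat_lit 9875) (nat_lit 4) (.two (nat_lit 0) (nat_lit 4) (nat_lit 9662) (nat_lit 1) (.one (nat_lit 9908) (nat_lit 1) .nil))))))))))),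
   .der (nat_lit 165) (nat_lit 8120),
   .der (nat_lit 5) (nat_lit 9504),
   .der (nat_lit 137) (nat_lit 9631),
   .der (nat_lit 1556) (nat_lit 9870),
   .prs (.two (nat_lit 6904) (nat_lit 8) (nat_lit 3980) (nat_lit 16) (.two (nat_lit 864) (nat_lit 8) (nat_lit 8954) (nat_lit 16) (.two (nat_lit 421) (nat_lit 8) (nat_lit 5801) (nat_lit 16) (.two (nat_lit 1722) (nat_lit 8) (nat_lit 7441) (nat_lit 4) (.two (nat_lit 6287) (nat_lit 16) (nat_lit 9967) (nat_lit 4) (.two (nat_lit 520) (nat_lit 4) (nat_lit 9945) (nat_lit 16) (.two (nat_lit 6) (nat_lit 8) (nat_lit 9197) (nat_lit 2) (.two (nat_lit 2) (nat_lit 4) (nat_lit 9968) (nat_lit 2) (.two (nat_lit 1) (nat_lit 2) (nat_lit 9969) (nat_lit 16) (.two (nat_lit 0) (nat_lit 2) (nat_lit 9970) (nat_lit 16) (.one (nat_lit 9950) (nat_lit 2) .nil))))))))))),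
   .der (nat_lit 137) (nat_lit 2180),
   .der (nat_lit 52) (nat_lit 5052),
   .der (nat_lit 852) (nat_lit 5827),
   .der (nat_lit 1556) (nat_lit 7461),
   .der (nat_lit 129) (nat_lit 9511),
   .der (nat_lit 161) (nat_lit 9646),
   .der (nat_lit 17185) (nat_lit 9959),
   .prs (.two (nat_lit 9972) (nat_lit 4) (nat_lit 9905) (nat_lit 8) (.two (nat_lit 9960) (nat_lit 4) (nat_lit 9973) (nat_lit 8) (.two (nat_lit 7698) (nat_lit 16) (nat_lit 9974) (nat_lit 1) (.two (nat_lit 1429) (nat_lit 4) (nat_lit 9975) (nat_lit 2) (.two (nat_lit 35) (nat_lit 4) (nat_lit 9661) (nat_lit 16) (.two (nat_lit 13) (nat_lit 4) (nat_lit 8514) (nat_lit 2) (.two (nat_lit 6) (nat_lit 4) (nat_lit 9263) (nat_lit 2) (.two (nat_lit 2) (nat_lit 4) (nat_lit 9976) (nat_lit 2) (.two (nat_lit 1) (nat_lit 2) (nat_lit 9977) (nat_lit 1) (.two (nat_lit 0) (nat_lit 1) (nat_lit 9904) (nat_lit 2) (.one (nat_lit 9978) (nat_lit 2) .nil))))))))))),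
   .der (nat_lit 1) (nat_lit 4111),
   .der (nat_lit 561) (nat_lit 5953),
   .der (nat_lit 1) (nat_lit 8930),
   .der (nat_lit 1074) (nat_lit 9890),
   .prs (.two (nat_lit 5282) (nat_lit 1) (nat_lit 3223) (nat_lit 16) (.two (nat_lit 861) (nat_lit 8) (nat_lit 9980) (nat_lit 16) (.two (nat_lit 417) (nat_lit 8) (nat_lit 9981) (nat_lit 2) (.two (nat_lit 33) (nat_lit 8) (nat_lit 8162) (nat_lit 1) (.two (nat_lit 129) (nat_lit 8) (nat_lit 9982) (nat_lit 2) (.two (nat_lit 2) (nat_lit 4) (nat_lit 9303) (nat_lit 1) (.two (nat_lit 1) (nat_lit 2) (nat_lit 9693) (nat_lit 1) (.two (nat_lit 0) (nat_lit 2) (nat_lit 9983) (nat_lit 4) .nil)))))))),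
   .der (nat_lit 6) (nat_lit 3122),
   .der (nat_lit 19) (nat_lit 8914),
   .prs (.two (nat_lit 2171) (nat_lit 16) (nat_lit 9985) (nat_lit 4) (.two (nat_lit 417) (nat_lit 16) (nat_lit 7986) (nat_lit 2) (.two (nat_lit 1722) (nat_lit 8) (nat_lit 8161) (nat_lit 4) (.two (nat_lit 37) (nat_lit 8) (nat_lit 9888) (nat_lit 2) (.two (nat_lit 13) (nat_lit 8) (nat_lit 8584) (nat_lit 2) (.two (nat_lit 129) (nat_lit 8) (nat_lit 9986) (nat_lit 2) (.two (nat_lit 2) (nat_lit 4) (nat_lit 9309) (nat_lit 2) (.two (nat_lit 1) (nat_lit 2) (nat_lit 9526) (nat_lit 4) (.two (nat_lit 0) (nat_lit 2) (nat_lit 9828) (nat_lit 4) (.one (nat_lit 9919) (nat_lit 2) .nil)))))))))),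
   .der (nat_lit 3) (nat_lit 3161),
   .der (nat_lit 165) (nat_lit 5854),
   .der (nat_lit 33) (nat_lit 8909),
   .der (nat_lit 129) (nat_lit 9870),
   .prs (.two (nat_lit 5825) (nat_lit 16) (nat_lit 9988) (nat_lit 2) (.two (nat_lit 2371) (nat_lit 16) (nat_lit 9989) (nat_lit 1) (.two (nat_lit 6543) (nat_lit 2) (nat_lit 5801) (nat_lit 16) (.two (nat_lit 82) (nat_lit 8) (nat_lit 8496) (nat_lit 2) (.two (nat_lit 33) (nat_lit 8) (nat_lit 8127) (nat_lit 1) (.two (nat_lit 13) (nat_lit 8) (nat_lit 9990) (nat_lit 2) (.two (nat_lit 6) (nat_lit 8) (nat_lit 9224) (nat_lit 1) (.two (nat_lit 4) (nat_lit 2) (nat_lit 9504) (nat_lit 4) (.two (nat_lit 1) (nat_lit 2) (nat_lit 9991) (nat_lit 1) (.one (nat_lit 9959) (nat_lit 1) .nil)))))))))),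
   .der (nat_lit 801) (nat_lit 3991),
   .der (nat_lit 3) (nat_lit 5800),
   .der (nat_lit 1) (nat_lit 7456),
   .der (nat_lit 1) (nat_lit 9890),
   .prs (.two (nat_lit 2183) (nat_lit 2) (nat_lit 9993) (nat_lit 16) (.two (nat_lit 861) (nat_lit 8) (nat_lit 6060) (nat_lit 2) (.two (nat_lit 417) (nat_lit 4) (nat_lit 9994) (nat_lit 8) (.two (nat_lit 82) (nat_lit 8) (nat_lit 9995) (nat_lit 2) (.two (nat_lit 33) (nat_lit 8) (nat_lit 8162) (nat_lit 1) (.two (nat_lit 13) (nat_lit 4) (nat_lit 8963) (nat_lit 2) (.two (nat_lit 6) (nat_lit 4) (nat_lit 9296) (nat_lit 2) (.two (nat_lit 2) (nat_lit 4) (nat_lit 9689) (nat_lit 1) (.two (nat_lit 1) (nat_lit 2) (nat_lit 9823) (nat_lit 1) (.two (nat_lit 0) (nat_lit 1) (nat_lit 9996) (nat_lit 2) (.one (nat_lit 9987) (nat_lit 1) .nil))))))))))),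
   .prs (.two (nat_lit 3109) (nat_lit 16) (nat_lit 3980) (nat_lit 1) (.two (nat_lit 2171) (nat_lit 16) (nat_lit 3985) (nat_lit 2) (.two (nat_lit 861) (nat_lit 8) (nat_lit 5800) (nat_lit 2) (.two (nat_lit 417) (nat_lit 4) (nat_lit 7439) (nat_lit 8) (.two (nat_lit 82) (nat_lit 8) (nat_lit 8120) (nat_lit 2) (.two (nat_lit 33) (nat_lit 8) (nat_lit 8481) (nat_lit 1) (.two (nat_lit 13) (nat_lit 4) (nat_lit 9192) (nat_lit 2) (.two (nat_lit 6) (nat_lit 4) (nat_lit 9504) (nat_lit 2) (.two (nat_lit 2) (nat_lit 4) (nat_lit 9631) (nat_lit 1) (.two (nat_lit 1) (nat_lit 2) (nat_lit 9870) (nat_lit 1) (.two (nat_lit 0) (nat_lit 1) (nat_lit 9950) (nat_lit 2) (.one (nat_lit 9971) (nat_lit 1) .nil)))))))))))),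
   .der (nat_lit 1) (nat_lit 1045)]

theorem b5_step19 (h : ∀ j < 9500, Good b5T j) : ∀ j < 10000, Good b5T j := by
  intro j hj
  refine chkL_ok b5C19 9500 h (by decide +kernel) j ?_
  have h : b5C19.length = 500 := by decide +kernel
  omega


end Tab

end Pool.Agent.Work.MP_bf01b2_co.MR
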