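import Pool.Agent.Work.MP_bf01b2_co.MR.B5T

set_option maxRecDepth 100000

namespace Pool.Agent.Work.MP_bf01b2_co.MR

namespace Tab

/-- certificates 10000..10500 -/
def b5C20 : List Cf :=
  [.der (nat_lit 1) (nat_lit 1482),
   .der (nat_lit 1) (nat_lit 1503),
   .der (nat_lit 1) (nat_lit 1760),
   .der (nat_lit 1) (nat_lit 1763),
   .der (nat_lit 1) (nat_lit 1864),
   .der (nat_lit 1) (nat_lit 1928),
   .der (nat_lit 1) (nat_lit 2247),
   .der (nat_lit 1) (nat_lit 2346),
   .der (nat_lit 1) (nat_lit 2464),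
   .der (nat_lit 1) (nat_lit 2847),
   .der (nat_lit 1) (nat_lit 3118),
   .der (nat_lit 1) (nat_lit 3194),
   .der (nat_lit 1) (nat_lit 3590),
   .der (nat_lit 1) (nat_lit 3727),
   .der (nat_lit 1) (nat_lit 3999),
   .der (nat_lit 1) (nat_lit 4092),
   .der (nat_lit 1) (nat_lit 4113),
   .der (nat_lit 1) (nat_lit 4236),
   .der (nat_lit 1) (nat_lit 4271),
   .der (nat_lit 1) (nat_lit 4379),
   .der (nat_lit 1) (nat_lit 4383),
   .der (nat_lit 1) (nat_lit 4402),
   .der (nat_lit 1) (nat_lit 4487),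
   .der (nat_lit 1) (nat_lit 4504),
   .der (nat_lit 1) (nat_lit 4534),
   .der (nat_lit 1) (nat_lit 4581),
   .der (nat_lit 1) (nat_lit 5167),
   .der (nat_lit 1) (nat_lit 5227),
   .der (nat_lit 1) (nat_lit 5601),
   .der (nat_lit 1) (nat_lit 5827),
   .der (nat_lit 1) (nat_lit 5837),
   .der (nat_lit 1) (nat_lit 5873),
   .der (nat_lit 1) (nat_lit 5901),
   .der (nat_lit 1) (nat_lit 5935),
   .der (nat_lit 1) (nat_lit 5949),
   .der (nat_lit 1) (nat_lit 6145),
   .der (nat_lit 1) (nat_lit 6157),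
   .der (nat_lit 1) (nat_lit 6474),
   .der (nat_lit 1) (nat_lit 6557),
   .der (nat_lit 1) (nat_lit 6582),
   .der (nat_lit 1) (nat_lit 6850),
   .der (nat_lit 1) (nat_lit 6982),
   .der (nat_lit 1) (nat_lit 7060),
   .der (nat_lit 1) (nat_lit 7444),
   .der (nat_lit 1) (nat_lit 7558),
   .der (nat_lit 1) (nat_lit 7607),
   .der (nat_lit 1) (nat_lit 7618),
   .der (nat_lit 1) (nat_lit 7672),
   .der (nat_lit 1) (nat_lit 7714),
   .der (nat_lit 1) (nat_lit 7821),
   .der (nat_lit 1) (nat_lit 8078),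
   .der (nat_lit 1) (nat_lit 8184),
   .der (nat_lit 1) (nat_lit 8266),
   .der (nat_lit 1) (nat_lit 8502),
   .der (nat_lit 1) (nat_lit 8514),
   .der (nat_lit 1) (nat_lit 8672),
   .der (nat_lit 1) (nat_lit 8946),
   .der (nat_lit 1) (nat_lit 9035),
   .der (nat_lit 1) (nat_lit 9192),
   .der (nat_lit 1) (nat_lit 9504),
   .der (nat_lit 1) (nat_lit 9631),
   .der (nat_lit 1) (nat_lit 9797),
   .der (nat_lit 2) (nat_lit 1045),
   .der (nat_lit 2) (nat_lit 1062),
   .der (nat_lit 2) (nat_lit 2238),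
   .der (nat_lit 2) (nat_lit 2277),
   .der (nat_lit 2) (nat_lit 2346),
   .der (nat_lit 2) (nat_lit 2464),
   .der (nat_lit 2) (nat_lit 3118),
   .der (nat_lit 2) (nat_lit 3716),
   .der (nat_lit 2) (nat_lit 3725),
   .der (nat_lit 2) (nat_lit 3999),
   .der (nat_lit 2) (nat_lit 4092),
   .der (nat_lit 2) (nat_lit 4103),
   .der (nat_lit 2) (nat_lit 4111),
   .der (nat_lit 2) (nat_lit 4292),
   .der (nat_lit 2) (nat_lit 4379),
   .der (nat_lit 2) (nat_lit 4504),
   .der (nat_lit 2) (nat_lit 4772),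
   .der (nat_lit 2) (nat_lit 5283),
   .der (nat_lit 2) (nat_lit 5360),
   .der (nat_lit 2) (nat_lit 5429),
   .der (nat_lit 2) (nat_lit 5827),
   .der (nat_lit 2) (nat_lit 5837),
   .der (nat_lit 2) (nat_lit 5873),
   .der (nat_lit 2) (nat_lit 5901),
   .der (nat_lit 2) (nat_lit 5920),
   .der (nat_lit 2) (nat_lit 5928),
   .der (nat_lit 2) (nat_lit 6393),
   .der (nat_lit 2) (nat_lit 6557),
   .der (nat_lit 2) (nat_lit 6839),
   .der (nat_lit 2) (nat_lit 6933),
   .der (nat_lit 2) (nat_lit 7450),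
   .der (nat_lit 2) (nat_lit 7461),
   .der (nat_lit 2) (nat_lit 7558),
   .der (nat_lit 2) (nat_lit 8481),
   .der (nat_lit 2) (nat_lit 8502),
   .der (nat_lit 2) (nat_lit 8514),
   .der (nat_lit 2) (nat_lit 9211),
   .der (nat_lit 2) (nat_lit 9531),
   .der (nat_lit 2) (nat_lit 9631),
   .der (nat_lit 2) (nat_lit 9746),
   .der (nat_lit 3) (nat_lit 907),
   .der (nat_lit 3) (nat_lit 939),
   .der (nat_lit 3) (nat_lit 1478),
   .der (nat_lit 3) (nat_lit 1653),
   .der (nat_lit 3) (nat_lit 2188),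
   .der (nat_lit 3) (nat_lit 2472),
   .der (nat_lit 3) (nat_lit 2483),
   .der (nat_lit 3) (nat_lit 2760),
   .der (nat_lit 3) (nat_lit 2822),
   .der (nat_lit 3) (nat_lit 3118),
   .der (nat_lit 3) (nat_lit 3748),
   .der (nat_lit 3) (nat_lit 3999),
   .der (nat_lit 3) (nat_lit 4092),
   .der (nat_lit 3) (nat_lit 4178),
   .der (nat_lit 3) (nat_lit 4257),
   .der (nat_lit 3) (nat_lit 5283),
   .der (nat_lit 3) (nat_lit 5392),
   .der (nat_lit 3) (nat_lit 5443),
   .der (nat_lit 3) (nat_lit 5552),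
   .der (nat_lit 3) (nat_lit 5837),
   .der (nat_lit 3) (nat_lit 5873),
   .der (nat_lit 3) (nat_lit 5912),
   .der (nat_lit 3) (nat_lit 5935),
   .der (nat_lit 3) (nat_lit 5953),
   .der (nat_lit 3) (nat_lit 5976),
   .der (nat_lit 3) (nat_lit 6226),
   .der (nat_lit 3) (nat_lit 6621),
   .der (nat_lit 3) (nat_lit 6879),
   .der (nat_lit 3) (nat_lit 6885),
   .der (nat_lit 3) (nat_lit 6906),
   .der (nat_lit 3) (nat_lit 7450),
   .der (nat_lit 3) (nat_lit 7461),
   .der (nat_lit 3) (nat_lit 7560),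
   .der (nat_lit 3) (nat_lit 8127),
   .der (nat_lit 3) (nat_lit 8481),
   .der (nat_lit 3) (nat_lit 8511),
   .der (nat_lit 3) (nat_lit 9169),
   .der (nat_lit 3) (nat_lit 9202),
   .der (nat_lit 3) (nat_lit 9511),
   .der (nat_lit 3) (nat_lit 9616),
   .der (nat_lit 3) (nat_lit 9662),
   .der (nat_lit 3) (nat_lit 9761),
   .der (nat_lit 4) (nat_lit 62),
   .der (nat_lit 4) (nat_lit 76),
   .der (nat_lit 4) (nat_lit 1051),
   .der (nat_lit 4) (nat_lit 1415),
   .der (nat_lit 4) (nat_lit 1438),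
   .der (nat_lit 4) (nat_lit 1664),
   .der (nat_lit 4) (nat_lit 1710),
   .der (nat_lit 4) (nat_lit 2040),
   .der (nat_lit 4) (nat_lit 2210),
   .der (nat_lit 4) (nat_lit 2342),
   .der (nat_lit 4) (nat_lit 2976),
   .der (nat_lit 4) (nat_lit 3267),
   .der (nat_lit 4) (nat_lit 4065),
   .der (nat_lit 4) (nat_lit 4071),
   .der (nat_lit 4) (nat_lit 5026),
   .der (nat_lit 4) (nat_lit 5801),
   .der (nat_lit 4) (nat_lit 6066),
   .der (nat_lit 4) (nat_lit 9371),
   .der (nat_lit 4) (nat_lit 9847),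
   .der (nat_lit 4) (nat_lit 9890),
   .der (nat_lit 5) (nat_lit 425),
   .der (nat_lit 5) (nat_lit 465),
   .der (nat_lit 5) (nat_lit 824),
   .der (nat_lit 5) (nat_lit 1446),
   .der (nat_lit 5) (nat_lit 1928),
   .der (nat_lit 5) (nat_lit 2188),
   .der (nat_lit 5) (nat_lit 2346),
   .der (nat_lit 5) (nat_lit 3118),
   .der (nat_lit 5) (nat_lit 3120),
   .der (nat_lit 5) (nat_lit 3223),
   .der (nat_lit 5) (nat_lit 3340),
   .der (nat_lit 5) (nat_lit 3584),
   .der (nat_lit 5) (nat_lit 3999),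
   .der (nat_lit 5) (nat_lit 4092),
   .der (nat_lit 5) (nat_lit 4111),
   .der (nat_lit 5) (nat_lit 4300),
   .der (nat_lit 5) (nat_lit 4383),
   .der (nat_lit 5) (nat_lit 5107),
   .der (nat_lit 5) (nat_lit 5800),
   .der (nat_lit 5) (nat_lit 5873),
   .der (nat_lit 5) (nat_lit 5920),
   .der (nat_lit 5) (nat_lit 5928),
   .der (nat_lit 5) (nat_lit 5954),
   .der (nat_lit 5) (nat_lit 6133),
   .der (nat_lit 5) (nat_lit 6157),
   .der (nat_lit 5) (nat_lit 6325),
   .der (nat_lit 5) (nat_lit 6839),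
   .der (nat_lit 5) (nat_lit 6903),
   .der (nat_lit 5) (nat_lit 7009),
   .der (nat_lit 5) (nat_lit 7117),
   .der (nat_lit 5) (nat_lit 7481),
   .der (nat_lit 5) (nat_lit 7641),
   .der (nat_lit 5) (nat_lit 7654),
   .der (nat_lit 5) (nat_lit 7672),
   .der (nat_lit 5) (nat_lit 8180),
   .der (nat_lit 5) (nat_lit 8218),
   .der (nat_lit 5) (nat_lit 8580),
   .der (nat_lit 5) (nat_lit 9026),
   .der (nat_lit 5) (nat_lit 9192),
   .der (nat_lit 5) (nat_lit 9206),
   .der (nat_lit 5) (nat_lit 9263),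
   .der (nat_lit 5) (nat_lit 9537),
   .der (nat_lit 5) (nat_lit 9631),
   .der (nat_lit 6) (nat_lit 1041),
   .der (nat_lit 6) (nat_lit 1088),
   .der (nat_lit 6) (nat_lit 1770),
   .der (nat_lit 6) (nat_lit 2188),
   .der (nat_lit 6) (nat_lit 2332),
   .der (nat_lit 6) (nat_lit 2346),
   .der (nat_lit 6) (nat_lit 2432),
   .der (nat_lit 6) (nat_lit 2913),
   .der (nat_lit 6) (nat_lit 3118),
   .der (nat_lit 6) (nat_lit 3604),
   .der (nat_lit 6) (nat_lit 4092),
   .der (nat_lit 6) (nat_lit 4236),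
   .der (nat_lit 6) (nat_lit 4339),
   .der (nat_lit 6) (nat_lit 4365),
   .der (nat_lit 6) (nat_lit 4758),
   .der (nat_lit 6) (nat_lit 5045),
   .der (nat_lit 6) (nat_lit 5167),
   .der (nat_lit 6) (nat_lit 5283),
   .der (nat_lit 6) (nat_lit 5800),
   .der (nat_lit 6) (nat_lit 5873),
   .der (nat_lit 6) (nat_lit 5924),
   .der (nat_lit 6) (nat_lit 5928),
   .der (nat_lit 6) (nat_lit 6060),
   .der (nat_lit 6) (nat_lit 6325),
   .der (nat_lit 6) (nat_lit 6832),
   .der (nat_lit 6) (nat_lit 6848),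
   .der (nat_lit 6) (nat_lit 6850),
   .der (nat_lit 6) (nat_lit 6903),
   .der (nat_lit 6) (nat_lit 6917),
   .der (nat_lit 6) (nat_lit 6933),
   .der (nat_lit 6) (nat_lit 7354),
   .der (nat_lit 6) (nat_lit 7485),
   .der (nat_lit 6) (nat_lit 7892),
   .der (nat_lit 6) (nat_lit 8481),
   .der (nat_lit 6) (nat_lit 8493),
   .der (nat_lit 6) (nat_lit 8497),
   .der (nat_lit 6) (nat_lit 8514),
   .der (nat_lit 6) (nat_lit 9202),
   .der (nat_lit 6) (nat_lit 9217),
   .der (nat_lit 6) (nat_lit 9428),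
   .der (nat_lit 6) (nat_lit 9531),
   .der (nat_lit 7) (nat_lit 35),
   .der (nat_lit 7) (nat_lit 934),
   .der (nat_lit 7) (nat_lit 1444),
   .der (nat_lit 7) (nat_lit 1546),
   .der (nat_lit 7) (nat_lit 1686),
   .der (nat_lit 7) (nat_lit 2188),
   .der (nat_lit 7) (nat_lit 2557),
   .der (nat_lit 7) (nat_lit 2775),
   .der (nat_lit 7) (nat_lit 3175),
   .der (nat_lit 7) (nat_lit 3229),
   .der (nat_lit 7) (nat_lit 3273),
   .der (nat_lit 7) (nat_lit 3340),
   .der (nat_lit 7) (nat_lit 3609),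
   .der (nat_lit 7) (nat_lit 4252),
   .der (nat_lit 7) (nat_lit 4431),
   .der (nat_lit 7) (nat_lit 4570),
   .der (nat_lit 7) (nat_lit 4602),
   .der (nat_lit 7) (nat_lit 4679),
   .der (nat_lit 7) (nat_lit 5445),
   .der (nat_lit 7) (nat_lit 6318),
   .der (nat_lit 7) (nat_lit 8637),
   .der (nat_lit 7) (nat_lit 9022),
   .der (nat_lit 7) (nat_lit 9720),
   .der (nat_lit 7) (nat_lit 9724),
   .der (nat_lit 8) (nat_lit 1088),
   .der (nat_lit 8) (nat_lit 1432),
   .der (nat_lit 8) (nat_lit 1469),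
   .der (nat_lit 8) (nat_lit 2346),
   .der (nat_lit 8) (nat_lit 2681),
   .der (nat_lit 8) (nat_lit 2821),
   .der (nat_lit 8) (nat_lit 3118),
   .der (nat_lit 8) (nat_lit 3451),
   .der (nat_lit 8) (nat_lit 3579),
   .der (nat_lit 8) (nat_lit 3991),
   .der (nat_lit 8) (nat_lit 3999),
   .der (nat_lit 8) (nat_lit 4092),
   .der (nat_lit 8) (nat_lit 4117),
   .der (nat_lit 8) (nat_lit 4242),
   .der (nat_lit 8) (nat_lit 4300),
   .der (nat_lit 8) (nat_lit 4325),
   .der (nat_lit 8) (nat_lit 4374),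
   .der (nat_lit 8) (nat_lit 4588),
   .der (nat_lit 8) (nat_lit 4800),
   .der (nat_lit 8) (nat_lit 5026),
   .der (nat_lit 8) (nat_lit 5033),
   .der (nat_lit 8) (nat_lit 5107),
   .der (nat_lit 8) (nat_lit 5837),
   .der (nat_lit 8) (nat_lit 5912),
   .der (nat_lit 8) (nat_lit 5920),
   .der (nat_lit 8) (nat_lit 5939),
   .der (nat_lit 8) (nat_lit 6015),
   .der (nat_lit 8) (nat_lit 6157),
   .der (nat_lit 8) (nat_lit 6173),
   .der (nat_lit 8) (nat_lit 6189),
   .der (nat_lit 8) (nat_lit 6325),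
   .der (nat_lit 8) (nat_lit 6557),
   .der (nat_lit 8) (nat_lit 6850),
   .der (nat_lit 8) (nat_lit 6933),
   .der (nat_lit 8) (nat_lit 7006),
   .der (nat_lit 8) (nat_lit 7439),
   .der (nat_lit 8) (nat_lit 7444),
   .der (nat_lit 8) (nat_lit 7450),
   .der (nat_lit 8) (nat_lit 7485),
   .der (nat_lit 8) (nat_lit 7558),
   .der (nat_lit 8) (nat_lit 7607),
   .der (nat_lit 8) (nat_lit 7672),
   .der (nat_lit 8) (nat_lit 7708),
   .der (nat_lit 8) (nat_lit 7821),
   .der (nat_lit 8) (nat_lit 7892),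
   .der (nat_lit 8) (nat_lit 7905),
   .der (nat_lit 8) (nat_lit 8184),
   .der (nat_lit 8) (nat_lit 8491),
   .der (nat_lit 8) (nat_lit 8502),
   .der (nat_lit 8) (nat_lit 8525),
   .der (nat_lit 8) (nat_lit 8580),
   .der (nat_lit 8) (nat_lit 8624),
   .der (nat_lit 8) (nat_lit 8684),
   .der (nat_lit 8) (nat_lit 8906),
   .der (nat_lit 8) (nat_lit 8946),
   .der (nat_lit 8) (nat_lit 9026),
   .der (nat_lit 8) (nat_lit 9035),
   .der (nat_lit 8) (nat_lit 9192),
   .der (nat_lit 8) (nat_lit 9197),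
   .der (nat_lit 8) (nat_lit 9202),
   .der (nat_lit 8) (nat_lit 9419),
   .der (nat_lit 8) (nat_lit 9481),
   .der (nat_lit 8) (nat_lit 9511),
   .der (nat_lit 8) (nat_lit 9870),
   .der (nat_lit 9) (nat_lit 8),
   .der (nat_lit 9) (nat_lit 74),
   .der (nat_lit 9) (nat_lit 861),
   .der (nat_lit 9) (nat_lit 892),
   .der (nat_lit 9) (nat_lit 927),
   .der (nat_lit 9) (nat_lit 992),
   .der (nat_lit 9) (nat_lit 1389),
   .der (nat_lit 9) (nat_lit 1399),
   .der (nat_lit 9) (nat_lit 1400),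
   .der (nat_lit 9) (nat_lit 1542),
   .der (nat_lit 9) (nat_lit 1714),
   .der (nat_lit 9) (nat_lit 1924),
   .der (nat_lit 9) (nat_lit 1928),
   .der (nat_lit 9) (nat_lit 2025),
   .der (nat_lit 9) (nat_lit 2176),
   .der (nat_lit 9) (nat_lit 2180),
   .der (nat_lit 9) (nat_lit 2409),
   .der (nat_lit 9) (nat_lit 2753),
   .der (nat_lit 9) (nat_lit 3267),
   .der (nat_lit 9) (nat_lit 3460),
   .der (nat_lit 9) (nat_lit 3485),
   .der (nat_lit 9) (nat_lit 3755),
   .der (nat_lit 9) (nat_lit 4002),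
   .der (nat_lit 9) (nat_lit 4005),
   .der (nat_lit 9) (nat_lit 4020),
   .der (nat_lit 9) (nat_lit 4032),
   .der (nat_lit 9) (nat_lit 4041),
   .der (nat_lit 9) (nat_lit 4055),
   .der (nat_lit 9) (nat_lit 4061),
   .der (nat_lit 9) (nat_lit 4263),
   .der (nat_lit 9) (nat_lit 4278),
   .der (nat_lit 9) (nat_lit 4766),
   .der (nat_lit 9) (nat_lit 5039),
   .der (nat_lit 9) (nat_lit 5171),
   .der (nat_lit 9) (nat_lit 5194),
   .der (nat_lit 9) (nat_lit 5216),
   .der (nat_lit 9) (nat_lit 5239),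
   .der (nat_lit 9) (nat_lit 5273),
   .der (nat_lit 9) (nat_lit 5818),
   .der (nat_lit 9) (nat_lit 5850),
   .der (nat_lit 9) (nat_lit 6180),
   .der (nat_lit 9) (nat_lit 6314),
   .der (nat_lit 9) (nat_lit 6397),
   .der (nat_lit 9) (nat_lit 6821),
   .der (nat_lit 9) (nat_lit 7163),
   .der (nat_lit 9) (nat_lit 7176),
   .der (nat_lit 9) (nat_lit 7182),
   .der (nat_lit 9) (nat_lit 7271),
   .der (nat_lit 9) (nat_lit 7364),
   .der (nat_lit 9) (nat_lit 7579),
   .der (nat_lit 9) (nat_lit 7607),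
   .der (nat_lit 9) (nat_lit 7612),
   .der (nat_lit 9) (nat_lit 7687),
   .der (nat_lit 9) (nat_lit 7834),
   .der (nat_lit 9) (nat_lit 8258),
   .der (nat_lit 9) (nat_lit 8591),
   .der (nat_lit 9) (nat_lit 8598),
   .der (nat_lit 9) (nat_lit 8714),
   .der (nat_lit 9) (nat_lit 8767),
   .der (nat_lit 9) (nat_lit 8781),
   .der (nat_lit 9) (nat_lit 9321),
   .der (nat_lit 9) (nat_lit 9337),
   .der (nat_lit 9) (nat_lit 9376),
   .der (nat_lit 9) (nat_lit 9413),
   .der (nat_lit 9) (nat_lit 9526),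
   .der (nat_lit 9) (nat_lit 9699),
   .der (nat_lit 10) (nat_lit 59),
   .der (nat_lit 10) (nat_lit 465),
   .der (nat_lit 10) (nat_lit 864),
   .der (nat_lit 10) (nat_lit 950),
   .der (nat_lit 10) (nat_lit 1377),
   .der (nat_lit 10) (nat_lit 1928),
   .der (nat_lit 10) (nat_lit 2176),
   .der (nat_lit 10) (nat_lit 2180),
   .der (nat_lit 10) (nat_lit 2197),
   .der (nat_lit 10) (nat_lit 2203),
   .der (nat_lit 10) (nat_lit 2363),
   .der (nat_lit 10) (nat_lit 2464),
   .der (nat_lit 10) (nat_lit 2847),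
   .der (nat_lit 10) (nat_lit 2965),
   .der (nat_lit 10) (nat_lit 3109),
   .der (nat_lit 10) (nat_lit 3112),
   .der (nat_lit 10) (nat_lit 3133),
   .der (nat_lit 10) (nat_lit 3147),
   .der (nat_lit 10) (nat_lit 3194),
   .der (nat_lit 10) (nat_lit 3223),
   .der (nat_lit 10) (nat_lit 3285),
   .der (nat_lit 10) (nat_lit 3556),
   .der (nat_lit 10) (nat_lit 3996),
   .der (nat_lit 10) (nat_lit 4043),
   .der (nat_lit 10) (nat_lit 4113),
   .der (nat_lit 10) (nat_lit 4145),
   .der (nat_lit 10) (nat_lit 4292),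
   .der (nat_lit 10) (nat_lit 4379),
   .der (nat_lit 10) (nat_lit 4402),
   .der (nat_lit 10) (nat_lit 4487),
   .der (nat_lit 10) (nat_lit 4504),
   .der (nat_lit 10) (nat_lit 4563),
   .der (nat_lit 10) (nat_lit 4581),
   .der (nat_lit 10) (nat_lit 5026),
   .der (nat_lit 10) (nat_lit 5052),
   .der (nat_lit 10) (nat_lit 5053),
   .der (nat_lit 10) (nat_lit 5239),
   .der (nat_lit 10) (nat_lit 5848),
   .der (nat_lit 10) (nat_lit 6079),
   .der (nat_lit 10) (nat_lit 6136),
   .der (nat_lit 10) (nat_lit 6359),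
   .der (nat_lit 10) (nat_lit 6393),
   .der (nat_lit 10) (nat_lit 6474),
   .der (nat_lit 10) (nat_lit 6702),
   .der (nat_lit 10) (nat_lit 6821),
   .der (nat_lit 10) (nat_lit 6900),
   .der (nat_lit 10) (nat_lit 6944),
   .der (nat_lit 10) (nat_lit 6988),
   .der (nat_lit 10) (nat_lit 6991),
   .der (nat_lit 10) (nat_lit 7068),
   .der (nat_lit 10) (nat_lit 7073),
   .der (nat_lit 10) (nat_lit 7223),
   .der (nat_lit 10) (nat_lit 7229),
   .der (nat_lit 10) (nat_lit 7441),
   .der (nat_lit 10) (nat_lit 7599),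
   .der (nat_lit 10) (nat_lit 7778),
   .der (nat_lit 10) (nat_lit 7898),
   .der (nat_lit 10) (nat_lit 7916),
   .der (nat_lit 10) (nat_lit 7994),
   .der (nat_lit 10) (nat_lit 8168),
   .der (nat_lit 10) (nat_lit 8171),
   .der (nat_lit 10) (nat_lit 8187),
   .der (nat_lit 10) (nat_lit 8190),
   .der (nat_lit 10) (nat_lit 8198),
   .der (nat_lit 10) (nat_lit 8407),
   .der (nat_lit 10) (nat_lit 8591),
   .der (nat_lit 10) (nat_lit 8593),
   .der (nat_lit 10) (nat_lit 8615),
   .der (nat_lit 10) (nat_lit 8646),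
   .der (nat_lit 10) (nat_lit 8650),
   .der (nat_lit 10) (nat_lit 8737),
   .der (nat_lit 10) (nat_lit 8767),
   .der (nat_lit 10) (nat_lit 8884),
   .der (nat_lit 10) (nat_lit 8976),
   .der (nat_lit 10) (nat_lit 8979),
   .der (nat_lit 10) (nat_lit 8997),
   .der (nat_lit 10) (nat_lit 9006),
   .der (nat_lit 10) (nat_lit 9235),
   .der (nat_lit 10) (nat_lit 9312),
   .der (nat_lit 10) (nat_lit 9331),
   .der (nat_lit 10) (nat_lit 9547),
   .der (nat_lit 18) (nat_lit 1045),
   .der (nat_lit 18) (nat_lit 1678),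
   .der (nat_lit 18) (nat_lit 1867),
   .der (nat_lit 18) (nat_lit 1880),
   .der (nat_lit 18) (nat_lit 2238),
   .der (nat_lit 18) (nat_lit 2346),
   .der (nat_lit 18) (nat_lit 3118),
   .der (nat_lit 18) (nat_lit 3285),
   .der (nat_lit 18) (nat_lit 3385),
   .der (nat_lit 18) (nat_lit 3570),
   .der (nat_lit 18) (nat_lit 3617),
   .der (nat_lit 18) (nat_lit 4092),
   .der (nat_lit 18) (nat_lit 4111),
   .der (nat_lit 18) (nat_lit 4271),
   .der (nat_lit 18) (nat_lit 4379),
   .der (nat_lit 18) (nat_lit 4383),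
   .der (nat_lit 18) (nat_lit 4504)]

theorem b5_step20 (h : ∀ j < 10000, Good b5T j) : ∀ j < 10500, Good b5T j := by
  intro j hj
  refine chkL_ok b5C20 10000 h (by decide +kernel) j ?_
  have h : b5C20.length = 500 := by decide +kernel
  omega

/-- certificates 10500..11000 -/
def b5C21 : List Cf :=
  [.der (nat_lit 18) (nat_lit 4530),
   .der (nat_lit 18) (nat_lit 4772),
   .der (nat_lit 18) (nat_lit 5227),
   .der (nat_lit 18) (nat_lit 5429),
   .der (nat_lit 18) (nat_lit 5837),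
   .der (nat_lit 18) (nat_lit 5901),
   .der (nat_lit 18) (nat_lit 5920),
   .der (nat_lit 18) (nat_lit 5935),
   .der (nat_lit 18) (nat_lit 6015),
   .der (nat_lit 18) (nat_lit 6197),
   .der (nat_lit 18) (nat_lit 6557),
   .der (nat_lit 18) (nat_lit 6839),
   .der (nat_lit 18) (nat_lit 6944),
   .der (nat_lit 18) (nat_lit 6988),
   .der (nat_lit 18) (nat_lit 7117),
   .der (nat_lit 18) (nat_lit 7450),
   .der (nat_lit 18) (nat_lit 7695),
   .der (nat_lit 18) (nat_lit 7701),
   .der (nat_lit 18) (nat_lit 7714),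
   .der (nat_lit 18) (nat_lit 8127),
   .der (nat_lit 18) (nat_lit 8178),
   .der (nat_lit 18) (nat_lit 8190),
   .der (nat_lit 18) (nat_lit 8502),
   .der (nat_lit 18) (nat_lit 8514),
   .der (nat_lit 18) (nat_lit 8593),
   .der (nat_lit 18) (nat_lit 8650),
   .der (nat_lit 18) (nat_lit 8946),
   .der (nat_lit 18) (nat_lit 8971),
   .der (nat_lit 18) (nat_lit 9224),
   .der (nat_lit 18) (nat_lit 9263),
   .der (nat_lit 18) (nat_lit 9314),
   .der (nat_lit 18) (nat_lit 9504),
   .der (nat_lit 18) (nat_lit 9631),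
   .der (nat_lit 18) (nat_lit 9959),
   .der (nat_lit 19) (nat_lit 824),
   .der (nat_lit 19) (nat_lit 1421),
   .der (nat_lit 19) (nat_lit 2342),
   .der (nat_lit 19) (nat_lit 3118),
   .der (nat_lit 19) (nat_lit 3999),
   .der (nat_lit 19) (nat_lit 4092),
   .der (nat_lit 19) (nat_lit 4111),
   .der (nat_lit 19) (nat_lit 4178),
   .der (nat_lit 19) (nat_lit 4379),
   .der (nat_lit 19) (nat_lit 4487),
   .der (nat_lit 19) (nat_lit 5283),
   .der (nat_lit 19) (nat_lit 5800),
   .der (nat_lit 19) (nat_lit 5837),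
   .der (nat_lit 19) (nat_lit 5873),
   .der (nat_lit 19) (nat_lit 5901),
   .der (nat_lit 19) (nat_lit 5953),
   .der (nat_lit 19) (nat_lit 6015),
   .der (nat_lit 19) (nat_lit 6621),
   .der (nat_lit 19) (nat_lit 6810),
   .der (nat_lit 19) (nat_lit 6879),
   .der (nat_lit 19) (nat_lit 6885),
   .der (nat_lit 19) (nat_lit 6956),
   .der (nat_lit 19) (nat_lit 6982),
   .der (nat_lit 19) (nat_lit 7006),
   .der (nat_lit 19) (nat_lit 7104),
   .der (nat_lit 19) (nat_lit 7444),
   .der (nat_lit 19) (nat_lit 7450),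
   .der (nat_lit 19) (nat_lit 7461),
   .der (nat_lit 19) (nat_lit 7520),
   .der (nat_lit 19) (nat_lit 7672),
   .der (nat_lit 19) (nat_lit 7695),
   .der (nat_lit 19) (nat_lit 7714),
   .der (nat_lit 19) (nat_lit 7790),
   .der (nat_lit 19) (nat_lit 8127),
   .der (nat_lit 19) (nat_lit 8481),
   .der (nat_lit 19) (nat_lit 8484),
   .der (nat_lit 19) (nat_lit 8491),
   .der (nat_lit 19) (nat_lit 9224),
   .der (nat_lit 19) (nat_lit 9511),
   .der (nat_lit 20) (nat_lit 39),
   .der (nat_lit 20) (nat_lit 62),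
   .der (nat_lit 20) (nat_lit 76),
   .der (nat_lit 20) (nat_lit 955),
   .der (nat_lit 20) (nat_lit 1058),
   .der (nat_lit 20) (nat_lit 1085),
   .der (nat_lit 20) (nat_lit 1438),
   .der (nat_lit 20) (nat_lit 2040),
   .der (nat_lit 20) (nat_lit 2210),
   .der (nat_lit 20) (nat_lit 2305),
   .der (nat_lit 20) (nat_lit 2360),
   .der (nat_lit 20) (nat_lit 2369),
   .der (nat_lit 20) (nat_lit 3404),
   .der (nat_lit 20) (nat_lit 3996),
   .der (nat_lit 20) (nat_lit 4065),
   .der (nat_lit 20) (nat_lit 5250),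
   .der (nat_lit 20) (nat_lit 6072),
   .der (nat_lit 20) (nat_lit 7520),
   .der (nat_lit 20) (nat_lit 8824),
   .der (nat_lit 20) (nat_lit 9044),
   .der (nat_lit 20) (nat_lit 9066),
   .der (nat_lit 20) (nat_lit 9371),
   .der (nat_lit 20) (nat_lit 9739),
   .der (nat_lit 20) (nat_lit 9823),
   .der (nat_lit 20) (nat_lit 9890),
   .der (nat_lit 20) (nat_lit 9919),
   .der (nat_lit 33) (nat_lit 425),
   .der (nat_lit 33) (nat_lit 465),
   .der (nat_lit 33) (nat_lit 1546),
   .der (nat_lit 33) (nat_lit 1867),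
   .der (nat_lit 33) (nat_lit 1928),
   .der (nat_lit 33) (nat_lit 2099),
   .der (nat_lit 33) (nat_lit 2188),
   .der (nat_lit 33) (nat_lit 2277),
   .der (nat_lit 33) (nat_lit 2332),
   .der (nat_lit 33) (nat_lit 2346),
   .der (nat_lit 33) (nat_lit 2624),
   .der (nat_lit 33) (nat_lit 3118),
   .der (nat_lit 33) (nat_lit 3579),
   .der (nat_lit 33) (nat_lit 3999),
   .der (nat_lit 33) (nat_lit 4092),
   .der (nat_lit 33) (nat_lit 4111),
   .der (nat_lit 33) (nat_lit 4246),
   .der (nat_lit 33) (nat_lit 4271),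
   .der (nat_lit 33) (nat_lit 4379),
   .der (nat_lit 33) (nat_lit 4555),
   .der (nat_lit 33) (nat_lit 4840),
   .der (nat_lit 33) (nat_lit 5045),
   .der (nat_lit 33) (nat_lit 5283),
   .der (nat_lit 33) (nat_lit 5357),
   .der (nat_lit 33) (nat_lit 5429),
   .der (nat_lit 33) (nat_lit 5800),
   .der (nat_lit 33) (nat_lit 5837),
   .der (nat_lit 33) (nat_lit 5901),
   .der (nat_lit 33) (nat_lit 5912),
   .der (nat_lit 33) (nat_lit 5920),
   .der (nat_lit 33) (nat_lit 5928),
   .der (nat_lit 33) (nat_lit 6060),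
   .der (nat_lit 33) (nat_lit 6204),
   .der (nat_lit 33) (nat_lit 6839),
   .der (nat_lit 33) (nat_lit 6845),
   .der (nat_lit 33) (nat_lit 6850),
   .der (nat_lit 33) (nat_lit 7085),
   .der (nat_lit 33) (nat_lit 7125),
   .der (nat_lit 33) (nat_lit 7173),
   .der (nat_lit 33) (nat_lit 7441),
   .der (nat_lit 33) (nat_lit 7641),
   .der (nat_lit 33) (nat_lit 7654),
   .der (nat_lit 33) (nat_lit 7657),
   .der (nat_lit 33) (nat_lit 7853),
   .der (nat_lit 33) (nat_lit 7905),
   .der (nat_lit 33) (nat_lit 8180),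
   .der (nat_lit 33) (nat_lit 8218),
   .der (nat_lit 33) (nat_lit 8275),
   .der (nat_lit 33) (nat_lit 8330),
   .der (nat_lit 33) (nat_lit 8481),
   .der (nat_lit 33) (nat_lit 8502),
   .der (nat_lit 33) (nat_lit 8514),
   .der (nat_lit 33) (nat_lit 8563),
   .der (nat_lit 33) (nat_lit 8620),
   .der (nat_lit 33) (nat_lit 8670),
   .der (nat_lit 33) (nat_lit 9202),
   .der (nat_lit 33) (nat_lit 9206),
   .der (nat_lit 33) (nat_lit 9631),
   .der (nat_lit 33) (nat_lit 9746),
   .der (nat_lit 33) (nat_lit 9751),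
   .der (nat_lit 35) (nat_lit 10),
   .der (nat_lit 35) (nat_lit 432),
   .der (nat_lit 35) (nat_lit 2569),
   .der (nat_lit 35) (nat_lit 3118),
   .der (nat_lit 35) (nat_lit 3404),
   .der (nat_lit 35) (nat_lit 3579),
   .der (nat_lit 35) (nat_lit 3999),
   .der (nat_lit 35) (nat_lit 4178),
   .der (nat_lit 35) (nat_lit 4379),
   .der (nat_lit 35) (nat_lit 4383),
   .der (nat_lit 35) (nat_lit 4772),
   .der (nat_lit 35) (nat_lit 5283),
   .der (nat_lit 35) (nat_lit 5827),
   .der (nat_lit 35) (nat_lit 5837),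
   .der (nat_lit 35) (nat_lit 5873),
   .der (nat_lit 35) (nat_lit 5901),
   .der (nat_lit 35) (nat_lit 5928),
   .der (nat_lit 35) (nat_lit 5949),
   .der (nat_lit 35) (nat_lit 5953),
   .der (nat_lit 35) (nat_lit 7461),
   .der (nat_lit 35) (nat_lit 7558),
   .der (nat_lit 35) (nat_lit 8502),
   .der (nat_lit 35) (nat_lit 8514),
   .der (nat_lit 35) (nat_lit 8620),
   .der (nat_lit 35) (nat_lit 9039),
   .der (nat_lit 35) (nat_lit 9224),
   .der (nat_lit 35) (nat_lit 9511),
   .der (nat_lit 36) (nat_lit 435),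
   .der (nat_lit 36) (nat_lit 1085),
   .der (nat_lit 36) (nat_lit 1385),
   .der (nat_lit 36) (nat_lit 1475),
   .der (nat_lit 36) (nat_lit 1867),
   .der (nat_lit 36) (nat_lit 2468),
   .der (nat_lit 36) (nat_lit 2548),
   .der (nat_lit 36) (nat_lit 3169),
   .der (nat_lit 36) (nat_lit 3229),
   .der (nat_lit 36) (nat_lit 3251),
   .der (nat_lit 36) (nat_lit 3267),
   .der (nat_lit 36) (nat_lit 3404),
   .der (nat_lit 36) (nat_lit 3999),
   .der (nat_lit 36) (nat_lit 4071),
   .der (nat_lit 36) (nat_lit 4379),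
   .der (nat_lit 36) (nat_lit 5901),
   .der (nat_lit 36) (nat_lit 6143),
   .der (nat_lit 36) (nat_lit 7461),
   .der (nat_lit 36) (nat_lit 8484),
   .der (nat_lit 36) (nat_lit 8767),
   .der (nat_lit 36) (nat_lit 9526),
   .der (nat_lit 49) (nat_lit 446),
   .der (nat_lit 49) (nat_lit 907),
   .der (nat_lit 49) (nat_lit 1478),
   .der (nat_lit 49) (nat_lit 2203),
   .der (nat_lit 49) (nat_lit 2464),
   .der (nat_lit 49) (nat_lit 3118),
   .der (nat_lit 49) (nat_lit 3716),
   .der (nat_lit 49) (nat_lit 3748),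
   .der (nat_lit 49) (nat_lit 4300),
   .der (nat_lit 49) (nat_lit 4379),
   .der (nat_lit 49) (nat_lit 4534),
   .der (nat_lit 49) (nat_lit 4840),
   .der (nat_lit 49) (nat_lit 5045),
   .der (nat_lit 49) (nat_lit 5167),
   .der (nat_lit 49) (nat_lit 5873),
   .der (nat_lit 49) (nat_lit 5894),
   .der (nat_lit 49) (nat_lit 5912),
   .der (nat_lit 49) (nat_lit 5924),
   .der (nat_lit 49) (nat_lit 6325),
   .der (nat_lit 49) (nat_lit 6390),
   .der (nat_lit 49) (nat_lit 6557),
   .der (nat_lit 49) (nat_lit 6621),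
   .der (nat_lit 49) (nat_lit 6848),
   .der (nat_lit 49) (nat_lit 7444),
   .der (nat_lit 49) (nat_lit 7560),
   .der (nat_lit 49) (nat_lit 7645),
   .der (nat_lit 49) (nat_lit 7672),
   .der (nat_lit 49) (nat_lit 7892),
   .der (nat_lit 49) (nat_lit 8493),
   .der (nat_lit 49) (nat_lit 8497),
   .der (nat_lit 49) (nat_lit 8502),
   .der (nat_lit 49) (nat_lit 8514),
   .der (nat_lit 50) (nat_lit 789),
   .der (nat_lit 50) (nat_lit 1062),
   .der (nat_lit 50) (nat_lit 1711),
   .der (nat_lit 50) (nat_lit 2342),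
   .der (nat_lit 50) (nat_lit 3220),
   .der (nat_lit 50) (nat_lit 3251),
   .der (nat_lit 50) (nat_lit 3587),
   .der (nat_lit 50) (nat_lit 3999),
   .der (nat_lit 50) (nat_lit 4092),
   .der (nat_lit 50) (nat_lit 4242),
   .der (nat_lit 50) (nat_lit 4292),
   .der (nat_lit 50) (nat_lit 4463),
   .der (nat_lit 50) (nat_lit 4783),
   .der (nat_lit 50) (nat_lit 5132),
   .der (nat_lit 50) (nat_lit 5283),
   .der (nat_lit 50) (nat_lit 5800),
   .der (nat_lit 50) (nat_lit 5873),
   .der (nat_lit 50) (nat_lit 5917),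
   .der (nat_lit 50) (nat_lit 5920),
   .der (nat_lit 50) (nat_lit 5924),
   .der (nat_lit 50) (nat_lit 5935),
   .der (nat_lit 50) (nat_lit 5953),
   .der (nat_lit 50) (nat_lit 6157),
   .der (nat_lit 50) (nat_lit 6557),
   .der (nat_lit 50) (nat_lit 6848),
   .der (nat_lit 50) (nat_lit 6879),
   .der (nat_lit 50) (nat_lit 6888),
   .der (nat_lit 50) (nat_lit 7450),
   .der (nat_lit 50) (nat_lit 7560),
   .der (nat_lit 50) (nat_lit 7790),
   .der (nat_lit 50) (nat_lit 8143),
   .der (nat_lit 50) (nat_lit 8481),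
   .der (nat_lit 50) (nat_lit 8502),
   .der (nat_lit 50) (nat_lit 9202),
   .der (nat_lit 50) (nat_lit 9511),
   .der (nat_lit 52) (nat_lit 907),
   .der (nat_lit 52) (nat_lit 1444),
   .der (nat_lit 52) (nat_lit 1653),
   .der (nat_lit 52) (nat_lit 2176),
   .der (nat_lit 52) (nat_lit 2744),
   .der (nat_lit 52) (nat_lit 2822),
   .der (nat_lit 52) (nat_lit 3404),
   .der (nat_lit 52) (nat_lit 4236),
   .der (nat_lit 52) (nat_lit 4292),
   .der (nat_lit 52) (nat_lit 5033),
   .der (nat_lit 52) (nat_lit 5037),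
   .der (nat_lit 52) (nat_lit 5800),
   .der (nat_lit 52) (nat_lit 5827),
   .der (nat_lit 52) (nat_lit 5873),
   .der (nat_lit 52) (nat_lit 5901),
   .der (nat_lit 52) (nat_lit 5953),
   .der (nat_lit 52) (nat_lit 6128),
   .der (nat_lit 52) (nat_lit 7456),
   .der (nat_lit 52) (nat_lit 8162),
   .der (nat_lit 52) (nat_lit 8491),
   .der (nat_lit 52) (nat_lit 9616),
   .der (nat_lit 52) (nat_lit 9636),
   .der (nat_lit 52) (nat_lit 9761),
   .der (nat_lit 65) (nat_lit 35),
   .der (nat_lit 65) (nat_lit 37),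
   .der (nat_lit 65) (nat_lit 39),
   .der (nat_lit 65) (nat_lit 64),
   .der (nat_lit 65) (nat_lit 73),
   .der (nat_lit 65) (nat_lit 987),
   .der (nat_lit 65) (nat_lit 1425),
   .der (nat_lit 65) (nat_lit 1444),
   .der (nat_lit 65) (nat_lit 1546),
   .der (nat_lit 65) (nat_lit 2363),
   .der (nat_lit 65) (nat_lit 2380),
   .der (nat_lit 65) (nat_lit 3340),
   .der (nat_lit 65) (nat_lit 3451),
   .der (nat_lit 65) (nat_lit 3609),
   .der (nat_lit 65) (nat_lit 4252),
   .der (nat_lit 65) (nat_lit 4365),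
   .der (nat_lit 65) (nat_lit 4386),
   .der (nat_lit 65) (nat_lit 4431),
   .der (nat_lit 65) (nat_lit 4534),
   .der (nat_lit 65) (nat_lit 4570),
   .der (nat_lit 65) (nat_lit 4602),
   .der (nat_lit 65) (nat_lit 4840),
   .der (nat_lit 65) (nat_lit 5171),
   .der (nat_lit 65) (nat_lit 5445),
   .der (nat_lit 65) (nat_lit 5977),
   .der (nat_lit 65) (nat_lit 7125),
   .der (nat_lit 65) (nat_lit 8637),
   .der (nat_lit 65) (nat_lit 9022),
   .der (nat_lit 65) (nat_lit 9724),
   .der (nat_lit 66) (nat_lit 927),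
   .der (nat_lit 66) (nat_lit 992),
   .der (nat_lit 66) (nat_lit 1399),
   .der (nat_lit 66) (nat_lit 1542),
   .der (nat_lit 66) (nat_lit 2194),
   .der (nat_lit 66) (nat_lit 2847),
   .der (nat_lit 66) (nat_lit 2878),
   .der (nat_lit 66) (nat_lit 3141),
   .der (nat_lit 66) (nat_lit 3347),
   .der (nat_lit 66) (nat_lit 3996),
   .der (nat_lit 66) (nat_lit 4010),
   .der (nat_lit 66) (nat_lit 4041),
   .der (nat_lit 66) (nat_lit 4071),
   .der (nat_lit 66) (nat_lit 4263),
   .der (nat_lit 66) (nat_lit 4307),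
   .der (nat_lit 66) (nat_lit 5056),
   .der (nat_lit 66) (nat_lit 5499),
   .der (nat_lit 66) (nat_lit 5818),
   .der (nat_lit 66) (nat_lit 5823),
   .der (nat_lit 66) (nat_lit 6397),
   .der (nat_lit 66) (nat_lit 6414),
   .der (nat_lit 66) (nat_lit 6541),
   .der (nat_lit 66) (nat_lit 6817),
   .der (nat_lit 66) (nat_lit 7176),
   .der (nat_lit 66) (nat_lit 7558),
   .der (nat_lit 66) (nat_lit 7767),
   .der (nat_lit 66) (nat_lit 8171),
   .der (nat_lit 66) (nat_lit 8598),
   .der (nat_lit 66) (nat_lit 9337),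
   .der (nat_lit 67) (nat_lit 70),
   .der (nat_lit 67) (nat_lit 87),
   .der (nat_lit 67) (nat_lit 861),
   .der (nat_lit 67) (nat_lit 927),
   .der (nat_lit 67) (nat_lit 981),
   .der (nat_lit 67) (nat_lit 1018),
   .der (nat_lit 67) (nat_lit 1475),
   .der (nat_lit 67) (nat_lit 1544),
   .der (nat_lit 67) (nat_lit 1557),
   .der (nat_lit 67) (nat_lit 1664),
   .der (nat_lit 67) (nat_lit 2227),
   .der (nat_lit 67) (nat_lit 2342),
   .der (nat_lit 67) (nat_lit 2440),
   .der (nat_lit 67) (nat_lit 3144),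
   .der (nat_lit 67) (nat_lit 3996),
   .der (nat_lit 67) (nat_lit 4048),
   .der (nat_lit 67) (nat_lit 4071),
   .der (nat_lit 67) (nat_lit 4131),
   .der (nat_lit 67) (nat_lit 4145),
   .der (nat_lit 67) (nat_lit 4504),
   .der (nat_lit 67) (nat_lit 5026),
   .der (nat_lit 67) (nat_lit 6079),
   .der (nat_lit 67) (nat_lit 6817),
   .der (nat_lit 67) (nat_lit 7599),
   .der (nat_lit 67) (nat_lit 9235),
   .der (nat_lit 67) (nat_lit 9399),
   .der (nat_lit 67) (nat_lit 9547),
   .der (nat_lit 67) (nat_lit 9569),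
   .der (nat_lit 67) (nat_lit 9699),
   .der (nat_lit 67) (nat_lit 9959),
   .der (nat_lit 83) (nat_lit 432),
   .der (nat_lit 83) (nat_lit 970),
   .der (nat_lit 83) (nat_lit 3118),
   .der (nat_lit 83) (nat_lit 3604),
   .der (nat_lit 83) (nat_lit 3725),
   .der (nat_lit 83) (nat_lit 3760),
   .der (nat_lit 83) (nat_lit 3999),
   .der (nat_lit 83) (nat_lit 4236),
   .der (nat_lit 83) (nat_lit 4292),
   .der (nat_lit 83) (nat_lit 4365),
   .der (nat_lit 83) (nat_lit 4379),
   .der (nat_lit 83) (nat_lit 4598),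
   .der (nat_lit 83) (nat_lit 5283),
   .der (nat_lit 83) (nat_lit 5800),
   .der (nat_lit 83) (nat_lit 5837),
   .der (nat_lit 83) (nat_lit 5873),
   .der (nat_lit 83) (nat_lit 5920),
   .der (nat_lit 83) (nat_lit 6226),
   .der (nat_lit 83) (nat_lit 6314),
   .der (nat_lit 83) (nat_lit 6411),
   .der (nat_lit 83) (nat_lit 6810),
   .der (nat_lit 83) (nat_lit 6832),
   .der (nat_lit 83) (nat_lit 6885),
   .der (nat_lit 83) (nat_lit 7450),
   .der (nat_lit 83) (nat_lit 7461),
   .der (nat_lit 83) (nat_lit 7790),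
   .der (nat_lit 83) (nat_lit 7963),
   .der (nat_lit 83) (nat_lit 7972),
   .der (nat_lit 83) (nat_lit 8481),
   .der (nat_lit 83) (nat_lit 8511),
   .der (nat_lit 83) (nat_lit 8519),
   .der (nat_lit 83) (nat_lit 9761),
   .der (nat_lit 84) (nat_lit 435),
   .der (nat_lit 84) (nat_lit 1078),
   .der (nat_lit 84) (nat_lit 1438),
   .der (nat_lit 84) (nat_lit 1867),
   .der (nat_lit 84) (nat_lit 2353),
   .der (nat_lit 84) (nat_lit 3166),
   .der (nat_lit 84) (nat_lit 3381),
   .der (nat_lit 84) (nat_lit 4048),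
   .der (nat_lit 84) (nat_lit 4065),
   .der (nat_lit 84) (nat_lit 5901),
   .der (nat_lit 84) (nat_lit 6895),
   .der (nat_lit 84) (nat_lit 8287),
   .der (nat_lit 86) (nat_lit 425),
   .der (nat_lit 86) (nat_lit 1478),
   .der (nat_lit 86) (nat_lit 2332),
   .der (nat_lit 86) (nat_lit 2346),
   .der (nat_lit 86) (nat_lit 2913),
   .der (nat_lit 86) (nat_lit 3043),
   .der (nat_lit 86) (nat_lit 3223),
   .der (nat_lit 86) (nat_lit 3340),
   .der (nat_lit 86) (nat_lit 4092),
   .der (nat_lit 86) (nat_lit 4236),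
   .der (nat_lit 86) (nat_lit 4300),
   .der (nat_lit 86) (nat_lit 4402),
   .der (nat_lit 86) (nat_lit 4534),
   .der (nat_lit 86) (nat_lit 4555),
   .der (nat_lit 86) (nat_lit 4800),
   .der (nat_lit 86) (nat_lit 5167),
   .der (nat_lit 86) (nat_lit 5229),
   .der (nat_lit 86) (nat_lit 5283),
   .der (nat_lit 86) (nat_lit 5837),
   .der (nat_lit 86) (nat_lit 5873),
   .der (nat_lit 86) (nat_lit 5912),
   .der (nat_lit 86) (nat_lit 5920),
   .der (nat_lit 86) (nat_lit 5928),
   .der (nat_lit 86) (nat_lit 5949),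
   .der (nat_lit 86) (nat_lit 6060),
   .der (nat_lit 86) (nat_lit 6204),
   .der (nat_lit 86) (nat_lit 6557),
   .der (nat_lit 86) (nat_lit 6832),
   .der (nat_lit 86) (nat_lit 6845),
   .der (nat_lit 86) (nat_lit 6848),
   .der (nat_lit 86) (nat_lit 6850),
   .der (nat_lit 86) (nat_lit 7375),
   .der (nat_lit 86) (nat_lit 7441),
   .der (nat_lit 86) (nat_lit 7450),
   .der (nat_lit 86) (nat_lit 7472),
   .der (nat_lit 86) (nat_lit 7641),
   .der (nat_lit 86) (nat_lit 7654),
   .der (nat_lit 86) (nat_lit 8180),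
   .der (nat_lit 86) (nat_lit 8481),
   .der (nat_lit 86) (nat_lit 8514),
   .der (nat_lit 86) (nat_lit 8580),
   .der (nat_lit 86) (nat_lit 8606),
   .der (nat_lit 86) (nat_lit 9026),
   .der (nat_lit 86) (nat_lit 9206),
   .der (nat_lit 86) (nat_lit 9263),
   .der (nat_lit 86) (nat_lit 9271),
   .der (nat_lit 86) (nat_lit 9531),
   .der (nat_lit 86) (nat_lit 9818),
   .der (nat_lit 86) (nat_lit 9904),
   .der (nat_lit 87) (nat_lit 1078),
   .der (nat_lit 87) (nat_lit 1412),
   .der (nat_lit 87) (nat_lit 1432),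
   .der (nat_lit 87) (nat_lit 2224),
   .der (nat_lit 87) (nat_lit 2244),
   .der (nat_lit 87) (nat_lit 2380),
   .der (nat_lit 87) (nat_lit 2747),
   .der (nat_lit 87) (nat_lit 2965),
   .der (nat_lit 87) (nat_lit 3122),
   .der (nat_lit 87) (nat_lit 3175),
   .der (nat_lit 87) (nat_lit 3229),
   .der (nat_lit 87) (nat_lit 3255),
   .der (nat_lit 87) (nat_lit 3273),
   .der (nat_lit 87) (nat_lit 3340),
   .der (nat_lit 87) (nat_lit 3609),
   .der (nat_lit 87) (nat_lit 3988),
   .der (nat_lit 87) (nat_lit 4365),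
   .der (nat_lit 87) (nat_lit 4534),
   .der (nat_lit 87) (nat_lit 4570),
   .der (nat_lit 87) (nat_lit 4602),
   .der (nat_lit 87) (nat_lit 5912),
   .der (nat_lit 87) (nat_lit 6999)]

theorem b5_step21 (h : ∀ j < 10500, Good b5T j) : ∀ j < 11000, Good b5T j := by
  intro j hj
  refine chkL_ok b5C21 10500 h (by decide +kernel) j ?_
  have h : b5C21.length = 500 := by decide +kernel
  omega

/-- certificates 11000..11500 -/
def b5C22 : List Cf :=
  [.der (nat_lit 87) (nat_lit 7009),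
   .der (nat_lit 87) (nat_lit 7033),
   .der (nat_lit 87) (nat_lit 7160),
   .der (nat_lit 87) (nat_lit 7618),
   .der (nat_lit 87) (nat_lit 7692),
   .der (nat_lit 87) (nat_lit 7771),
   .der (nat_lit 87) (nat_lit 7776),
   .der (nat_lit 87) (nat_lit 8030),
   .der (nat_lit 87) (nat_lit 8332),
   .der (nat_lit 87) (nat_lit 8413),
   .der (nat_lit 87) (nat_lit 8653),
   .der (nat_lit 87) (nat_lit 8662),
   .der (nat_lit 87) (nat_lit 8694),
   .der (nat_lit 87) (nat_lit 8700),
   .der (nat_lit 87) (nat_lit 8995),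
   .der (nat_lit 87) (nat_lit 9022),
   .der (nat_lit 87) (nat_lit 9063),
   .der (nat_lit 87) (nat_lit 9076),
   .der (nat_lit 98) (nat_lit 1041),
   .der (nat_lit 98) (nat_lit 1196),
   .der (nat_lit 98) (nat_lit 2188),
   .der (nat_lit 98) (nat_lit 2432),
   .der (nat_lit 98) (nat_lit 2913),
   .der (nat_lit 98) (nat_lit 3999),
   .der (nat_lit 98) (nat_lit 4178),
   .der (nat_lit 98) (nat_lit 4236),
   .der (nat_lit 98) (nat_lit 4242),
   .der (nat_lit 98) (nat_lit 4263),
   .der (nat_lit 98) (nat_lit 4271),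
   .der (nat_lit 98) (nat_lit 4339),
   .der (nat_lit 98) (nat_lit 4365),
   .der (nat_lit 98) (nat_lit 4383),
   .der (nat_lit 98) (nat_lit 4575),
   .der (nat_lit 98) (nat_lit 5167),
   .der (nat_lit 98) (nat_lit 5283),
   .der (nat_lit 98) (nat_lit 5827),
   .der (nat_lit 98) (nat_lit 5873),
   .der (nat_lit 98) (nat_lit 5917),
   .der (nat_lit 98) (nat_lit 5928),
   .der (nat_lit 98) (nat_lit 6557),
   .der (nat_lit 98) (nat_lit 6832),
   .der (nat_lit 98) (nat_lit 7444),
   .der (nat_lit 98) (nat_lit 7450),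
   .der (nat_lit 98) (nat_lit 7478),
   .der (nat_lit 98) (nat_lit 7790),
   .der (nat_lit 98) (nat_lit 7892),
   .der (nat_lit 98) (nat_lit 8481),
   .der (nat_lit 98) (nat_lit 8514),
   .der (nat_lit 98) (nat_lit 9282),
   .der (nat_lit 98) (nat_lit 9531),
   .der (nat_lit 98) (nat_lit 9761),
   .der (nat_lit 98) (nat_lit 9811),
   .der (nat_lit 98) (nat_lit 9818),
   .der (nat_lit 100) (nat_lit 169),
   .der (nat_lit 100) (nat_lit 1033),
   .der (nat_lit 100) (nat_lit 1062),
   .der (nat_lit 100) (nat_lit 1546),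
   .der (nat_lit 100) (nat_lit 2038),
   .der (nat_lit 100) (nat_lit 2192),
   .der (nat_lit 100) (nat_lit 2210),
   .der (nat_lit 100) (nat_lit 2481),
   .der (nat_lit 100) (nat_lit 3175),
   .der (nat_lit 100) (nat_lit 5595),
   .der (nat_lit 100) (nat_lit 5901),
   .der (nat_lit 100) (nat_lit 5915),
   .der (nat_lit 100) (nat_lit 8371),
   .der (nat_lit 100) (nat_lit 9739),
   .der (nat_lit 101) (nat_lit 907),
   .der (nat_lit 101) (nat_lit 1015),
   .der (nat_lit 101) (nat_lit 1409),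
   .der (nat_lit 101) (nat_lit 1478),
   .der (nat_lit 101) (nat_lit 1542),
   .der (nat_lit 101) (nat_lit 2346),
   .der (nat_lit 101) (nat_lit 2432),
   .der (nat_lit 101) (nat_lit 2472),
   .der (nat_lit 101) (nat_lit 2747),
   .der (nat_lit 101) (nat_lit 2913),
   .der (nat_lit 101) (nat_lit 3120),
   .der (nat_lit 101) (nat_lit 3579),
   .der (nat_lit 101) (nat_lit 3991),
   .der (nat_lit 101) (nat_lit 3999),
   .der (nat_lit 101) (nat_lit 4092),
   .der (nat_lit 101) (nat_lit 4103),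
   .der (nat_lit 101) (nat_lit 4117),
   .der (nat_lit 101) (nat_lit 4300),
   .der (nat_lit 101) (nat_lit 4325),
   .der (nat_lit 101) (nat_lit 4383),
   .der (nat_lit 101) (nat_lit 4402),
   .der (nat_lit 101) (nat_lit 4463),
   .der (nat_lit 101) (nat_lit 4500),
   .der (nat_lit 101) (nat_lit 4555),
   .der (nat_lit 101) (nat_lit 4588),
   .der (nat_lit 101) (nat_lit 4800),
   .der (nat_lit 101) (nat_lit 5443),
   .der (nat_lit 101) (nat_lit 5552),
   .der (nat_lit 101) (nat_lit 5800),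
   .der (nat_lit 101) (nat_lit 5873),
   .der (nat_lit 101) (nat_lit 5894),
   .der (nat_lit 101) (nat_lit 5928),
   .der (nat_lit 101) (nat_lit 6060),
   .der (nat_lit 101) (nat_lit 6621),
   .der (nat_lit 101) (nat_lit 6686),
   .der (nat_lit 101) (nat_lit 6848),
   .der (nat_lit 101) (nat_lit 6850),
   .der (nat_lit 101) (nat_lit 6879),
   .der (nat_lit 101) (nat_lit 6903),
   .der (nat_lit 101) (nat_lit 7439),
   .der (nat_lit 101) (nat_lit 7444),
   .der (nat_lit 101) (nat_lit 7672),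
   .der (nat_lit 101) (nat_lit 7687),
   .der (nat_lit 101) (nat_lit 7761),
   .der (nat_lit 101) (nat_lit 7892),
   .der (nat_lit 101) (nat_lit 8481),
   .der (nat_lit 101) (nat_lit 8502),
   .der (nat_lit 101) (nat_lit 9026),
   .der (nat_lit 101) (nat_lit 9202),
   .der (nat_lit 101) (nat_lit 9511),
   .der (nat_lit 101) (nat_lit 9870),
   .der (nat_lit 103) (nat_lit 425),
   .der (nat_lit 103) (nat_lit 864),
   .der (nat_lit 103) (nat_lit 878),
   .der (nat_lit 103) (nat_lit 898),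
   .der (nat_lit 103) (nat_lit 967),
   .der (nat_lit 103) (nat_lit 1196),
   .der (nat_lit 103) (nat_lit 1389),
   .der (nat_lit 103) (nat_lit 1409),
   .der (nat_lit 103) (nat_lit 1864),
   .der (nat_lit 103) (nat_lit 2192),
   .der (nat_lit 103) (nat_lit 2343),
   .der (nat_lit 103) (nat_lit 3175),
   .der (nat_lit 103) (nat_lit 3716),
   .der (nat_lit 103) (nat_lit 4325),
   .der (nat_lit 103) (nat_lit 4339),
   .der (nat_lit 103) (nat_lit 4365),
   .der (nat_lit 103) (nat_lit 4534),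
   .der (nat_lit 103) (nat_lit 4570),
   .der (nat_lit 103) (nat_lit 4740),
   .der (nat_lit 103) (nat_lit 5280),
   .der (nat_lit 103) (nat_lit 5283),
   .der (nat_lit 103) (nat_lit 6060),
   .der (nat_lit 103) (nat_lit 6112),
   .der (nat_lit 103) (nat_lit 6325),
   .der (nat_lit 103) (nat_lit 6832),
   .der (nat_lit 103) (nat_lit 6903),
   .der (nat_lit 103) (nat_lit 6906),
   .der (nat_lit 103) (nat_lit 7190),
   .der (nat_lit 103) (nat_lit 7441),
   .der (nat_lit 103) (nat_lit 7472),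
   .der (nat_lit 103) (nat_lit 7485),
   .der (nat_lit 103) (nat_lit 7518),
   .der (nat_lit 103) (nat_lit 7618),
   .der (nat_lit 103) (nat_lit 8584),
   .der (nat_lit 103) (nat_lit 8637),
   .der (nat_lit 103) (nat_lit 8725),
   .der (nat_lit 103) (nat_lit 8927),
   .der (nat_lit 103) (nat_lit 9240),
   .der (nat_lit 114) (nat_lit 35),
   .der (nat_lit 114) (nat_lit 417),
   .der (nat_lit 114) (nat_lit 934),
   .der (nat_lit 114) (nat_lit 955),
   .der (nat_lit 114) (nat_lit 1454),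
   .der (nat_lit 114) (nat_lit 1546),
   .der (nat_lit 114) (nat_lit 2564),
   .der (nat_lit 114) (nat_lit 2753),
   .der (nat_lit 114) (nat_lit 2786),
   .der (nat_lit 114) (nat_lit 3122),
   .der (nat_lit 114) (nat_lit 3273),
   .der (nat_lit 114) (nat_lit 3340),
   .der (nat_lit 114) (nat_lit 3609),
   .der (nat_lit 114) (nat_lit 4602),
   .der (nat_lit 114) (nat_lit 5070),
   .der (nat_lit 114) (nat_lit 6200),
   .der (nat_lit 114) (nat_lit 7628),
   .der (nat_lit 114) (nat_lit 8327),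
   .der (nat_lit 114) (nat_lit 8987),
   .der (nat_lit 114) (nat_lit 9942),
   .der (nat_lit 115) (nat_lit 864),
   .der (nat_lit 115) (nat_lit 907),
   .der (nat_lit 115) (nat_lit 930),
   .der (nat_lit 115) (nat_lit 967),
   .der (nat_lit 115) (nat_lit 1546),
   .der (nat_lit 115) (nat_lit 1550),
   .der (nat_lit 115) (nat_lit 2038),
   .der (nat_lit 115) (nat_lit 2365),
   .der (nat_lit 115) (nat_lit 2380),
   .der (nat_lit 115) (nat_lit 2501),
   .der (nat_lit 115) (nat_lit 2545),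
   .der (nat_lit 115) (nat_lit 4764),
   .der (nat_lit 115) (nat_lit 5115),
   .der (nat_lit 115) (nat_lit 5873),
   .der (nat_lit 115) (nat_lit 6488),
   .der (nat_lit 115) (nat_lit 6528),
   .der (nat_lit 115) (nat_lit 6533),
   .der (nat_lit 117) (nat_lit 421),
   .der (nat_lit 117) (nat_lit 864),
   .der (nat_lit 117) (nat_lit 892),
   .der (nat_lit 117) (nat_lit 1399),
   .der (nat_lit 117) (nat_lit 1534),
   .der (nat_lit 117) (nat_lit 1926),
   .der (nat_lit 117) (nat_lit 2197),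
   .der (nat_lit 117) (nat_lit 2249),
   .der (nat_lit 117) (nat_lit 2753),
   .der (nat_lit 117) (nat_lit 3132),
   .der (nat_lit 117) (nat_lit 3141),
   .der (nat_lit 117) (nat_lit 3150),
   .der (nat_lit 117) (nat_lit 3172),
   .der (nat_lit 117) (nat_lit 3184),
   .der (nat_lit 117) (nat_lit 3190),
   .der (nat_lit 117) (nat_lit 3338),
   .der (nat_lit 117) (nat_lit 3996),
   .der (nat_lit 117) (nat_lit 4020),
   .der (nat_lit 117) (nat_lit 4032),
   .der (nat_lit 117) (nat_lit 4055),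
   .der (nat_lit 117) (nat_lit 4071),
   .der (nat_lit 117) (nat_lit 4766),
   .der (nat_lit 117) (nat_lit 5091),
   .der (nat_lit 117) (nat_lit 5801),
   .der (nat_lit 117) (nat_lit 5818),
   .der (nat_lit 117) (nat_lit 5848),
   .der (nat_lit 117) (nat_lit 5850),
   .der (nat_lit 117) (nat_lit 7650),
   .der (nat_lit 117) (nat_lit 7795),
   .der (nat_lit 117) (nat_lit 7825),
   .der (nat_lit 117) (nat_lit 7886),
   .der (nat_lit 117) (nat_lit 9314),
   .der (nat_lit 118) (nat_lit 417),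
   .der (nat_lit 118) (nat_lit 960),
   .der (nat_lit 118) (nat_lit 1051),
   .der (nat_lit 118) (nat_lit 1065),
   .der (nat_lit 118) (nat_lit 1074),
   .der (nat_lit 118) (nat_lit 1399),
   .der (nat_lit 118) (nat_lit 1406),
   .der (nat_lit 118) (nat_lit 1444),
   .der (nat_lit 118) (nat_lit 1456),
   .der (nat_lit 118) (nat_lit 1546),
   .der (nat_lit 118) (nat_lit 1728),
   .der (nat_lit 118) (nat_lit 2194),
   .der (nat_lit 118) (nat_lit 2203),
   .der (nat_lit 118) (nat_lit 2227),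
   .der (nat_lit 118) (nat_lit 2241),
   .der (nat_lit 118) (nat_lit 2753),
   .der (nat_lit 118) (nat_lit 3138),
   .der (nat_lit 118) (nat_lit 3172),
   .der (nat_lit 118) (nat_lit 3276),
   .der (nat_lit 118) (nat_lit 3340),
   .der (nat_lit 118) (nat_lit 3576),
   .der (nat_lit 118) (nat_lit 3609),
   .der (nat_lit 118) (nat_lit 4252),
   .der (nat_lit 118) (nat_lit 4268),
   .der (nat_lit 118) (nat_lit 4530),
   .der (nat_lit 118) (nat_lit 4548),
   .der (nat_lit 118) (nat_lit 4570),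
   .der (nat_lit 118) (nat_lit 4679),
   .der (nat_lit 118) (nat_lit 6817),
   .der (nat_lit 118) (nat_lit 7364),
   .der (nat_lit 118) (nat_lit 8226),
   .der (nat_lit 118) (nat_lit 8914),
   .der (nat_lit 118) (nat_lit 9235),
   .der (nat_lit 129) (nat_lit 873),
   .der (nat_lit 129) (nat_lit 1711),
   .der (nat_lit 129) (nat_lit 1952),
   .der (nat_lit 129) (nat_lit 2247),
   .der (nat_lit 129) (nat_lit 2342),
   .der (nat_lit 129) (nat_lit 2346),
   .der (nat_lit 129) (nat_lit 2528),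
   .der (nat_lit 129) (nat_lit 2681),
   .der (nat_lit 129) (nat_lit 2725),
   .der (nat_lit 129) (nat_lit 2847),
   .der (nat_lit 129) (nat_lit 3118),
   .der (nat_lit 129) (nat_lit 3120),
   .der (nat_lit 129) (nat_lit 3190),
   .der (nat_lit 129) (nat_lit 3220),
   .der (nat_lit 129) (nat_lit 3251),
   .der (nat_lit 129) (nat_lit 3615),
   .der (nat_lit 129) (nat_lit 3716),
   .der (nat_lit 129) (nat_lit 3748),
   .der (nat_lit 129) (nat_lit 3999),
   .der (nat_lit 129) (nat_lit 4092),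
   .der (nat_lit 129) (nat_lit 4242),
   .der (nat_lit 129) (nat_lit 4292),
   .der (nat_lit 129) (nat_lit 4325),
   .der (nat_lit 129) (nat_lit 4379),
   .der (nat_lit 129) (nat_lit 4402),
   .der (nat_lit 129) (nat_lit 4772),
   .der (nat_lit 129) (nat_lit 5026),
   .der (nat_lit 129) (nat_lit 5033),
   .der (nat_lit 129) (nat_lit 5304),
   .der (nat_lit 129) (nat_lit 5800),
   .der (nat_lit 129) (nat_lit 5837),
   .der (nat_lit 129) (nat_lit 5894),
   .der (nat_lit 129) (nat_lit 5920),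
   .der (nat_lit 129) (nat_lit 5928),
   .der (nat_lit 129) (nat_lit 6015),
   .der (nat_lit 129) (nat_lit 6157),
   .der (nat_lit 129) (nat_lit 6189),
   .der (nat_lit 129) (nat_lit 6557),
   .der (nat_lit 129) (nat_lit 6848),
   .der (nat_lit 129) (nat_lit 6850),
   .der (nat_lit 129) (nat_lit 6982),
   .der (nat_lit 129) (nat_lit 7444),
   .der (nat_lit 129) (nat_lit 7450),
   .der (nat_lit 129) (nat_lit 7558),
   .der (nat_lit 129) (nat_lit 7607),
   .der (nat_lit 129) (nat_lit 7790),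
   .der (nat_lit 129) (nat_lit 7795),
   .der (nat_lit 129) (nat_lit 7821),
   .der (nat_lit 129) (nat_lit 7866),
   .der (nat_lit 129) (nat_lit 7963),
   .der (nat_lit 129) (nat_lit 8127),
   .der (nat_lit 129) (nat_lit 8174),
   .der (nat_lit 129) (nat_lit 8184),
   .der (nat_lit 129) (nat_lit 8407),
   .der (nat_lit 129) (nat_lit 8491),
   .der (nat_lit 129) (nat_lit 8946),
   .der (nat_lit 129) (nat_lit 9169),
   .der (nat_lit 129) (nat_lit 9192),
   .der (nat_lit 129) (nat_lit 9197),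
   .der (nat_lit 129) (nat_lit 9202),
   .der (nat_lit 129) (nat_lit 9271),
   .der (nat_lit 129) (nat_lit 9481),
   .der (nat_lit 129) (nat_lit 9755),
   .der (nat_lit 129) (nat_lit 9867),
   .der (nat_lit 132) (nat_lit 39),
   .der (nat_lit 132) (nat_lit 62),
   .der (nat_lit 132) (nat_lit 1051),
   .der (nat_lit 132) (nat_lit 1058),
   .der (nat_lit 132) (nat_lit 1078),
   .der (nat_lit 132) (nat_lit 1550),
   .der (nat_lit 132) (nat_lit 2210),
   .der (nat_lit 132) (nat_lit 3141),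
   .der (nat_lit 132) (nat_lit 3725),
   .der (nat_lit 132) (nat_lit 4045),
   .der (nat_lit 132) (nat_lit 4071),
   .der (nat_lit 132) (nat_lit 5053),
   .der (nat_lit 132) (nat_lit 5818),
   .der (nat_lit 132) (nat_lit 5823),
   .der (nat_lit 132) (nat_lit 6072),
   .der (nat_lit 132) (nat_lit 6143),
   .der (nat_lit 132) (nat_lit 6872),
   .der (nat_lit 135) (nat_lit 35),
   .der (nat_lit 135) (nat_lit 1078),
   .der (nat_lit 135) (nat_lit 1088),
   .der (nat_lit 135) (nat_lit 1432),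
   .der (nat_lit 135) (nat_lit 1546),
   .der (nat_lit 135) (nat_lit 2072),
   .der (nat_lit 135) (nat_lit 2224),
   .der (nat_lit 135) (nat_lit 2227),
   .der (nat_lit 135) (nat_lit 2305),
   .der (nat_lit 135) (nat_lit 2363),
   .der (nat_lit 135) (nat_lit 2409),
   .der (nat_lit 135) (nat_lit 2841),
   .der (nat_lit 135) (nat_lit 2908),
   .der (nat_lit 135) (nat_lit 3144),
   .der (nat_lit 135) (nat_lit 3273),
   .der (nat_lit 135) (nat_lit 3353),
   .der (nat_lit 135) (nat_lit 3609),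
   .der (nat_lit 135) (nat_lit 3699),
   .der (nat_lit 135) (nat_lit 4263),
   .der (nat_lit 135) (nat_lit 4353),
   .der (nat_lit 135) (nat_lit 4398),
   .der (nat_lit 135) (nat_lit 4440),
   .der (nat_lit 135) (nat_lit 4570),
   .der (nat_lit 135) (nat_lit 4602),
   .der (nat_lit 135) (nat_lit 5039),
   .der (nat_lit 135) (nat_lit 6541),
   .der (nat_lit 135) (nat_lit 6836),
   .der (nat_lit 135) (nat_lit 8637),
   .der (nat_lit 135) (nat_lit 9022),
   .der (nat_lit 137) (nat_lit 67),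
   .der (nat_lit 137) (nat_lit 74),
   .der (nat_lit 137) (nat_lit 169),
   .der (nat_lit 137) (nat_lit 898),
   .der (nat_lit 137) (nat_lit 1309),
   .der (nat_lit 137) (nat_lit 1350),
   .der (nat_lit 137) (nat_lit 1408),
   .der (nat_lit 137) (nat_lit 1434),
   .der (nat_lit 137) (nat_lit 1534),
   .der (nat_lit 137) (nat_lit 1647),
   .der (nat_lit 137) (nat_lit 1659),
   .der (nat_lit 137) (nat_lit 1753),
   .der (nat_lit 137) (nat_lit 1824),
   .der (nat_lit 137) (nat_lit 2356),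
   .der (nat_lit 137) (nat_lit 2464),
   .der (nat_lit 137) (nat_lit 2545),
   .der (nat_lit 137) (nat_lit 3132),
   .der (nat_lit 137) (nat_lit 3190),
   .der (nat_lit 137) (nat_lit 3229),
   .der (nat_lit 137) (nat_lit 3338),
   .der (nat_lit 137) (nat_lit 3347),
   .der (nat_lit 137) (nat_lit 3445),
   .der (nat_lit 137) (nat_lit 3490),
   .der (nat_lit 137) (nat_lit 3758),
   .der (nat_lit 137) (nat_lit 4039),
   .der (nat_lit 137) (nat_lit 4131),
   .der (nat_lit 137) (nat_lit 4300),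
   .der (nat_lit 137) (nat_lit 4325),
   .der (nat_lit 137) (nat_lit 4360),
   .der (nat_lit 137) (nat_lit 4463),
   .der (nat_lit 137) (nat_lit 4800),
   .der (nat_lit 137) (nat_lit 5052),
   .der (nat_lit 137) (nat_lit 5095),
   .der (nat_lit 137) (nat_lit 5239),
   .der (nat_lit 137) (nat_lit 5273),
   .der (nat_lit 137) (nat_lit 5275),
   .der (nat_lit 137) (nat_lit 5380),
   .der (nat_lit 137) (nat_lit 5817),
   .der (nat_lit 137) (nat_lit 5818),
   .der (nat_lit 137) (nat_lit 5915),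
   .der (nat_lit 137) (nat_lit 5920),
   .der (nat_lit 137) (nat_lit 5953),
   .der (nat_lit 137) (nat_lit 6077),
   .der (nat_lit 137) (nat_lit 6173),
   .der (nat_lit 137) (nat_lit 6180),
   .der (nat_lit 137) (nat_lit 6215),
   .der (nat_lit 137) (nat_lit 6375),
   .der (nat_lit 137) (nat_lit 6879),
   .der (nat_lit 137) (nat_lit 7066),
   .der (nat_lit 137) (nat_lit 7148),
   .der (nat_lit 137) (nat_lit 7182),
   .der (nat_lit 137) (nat_lit 7271),
   .der (nat_lit 137) (nat_lit 7511),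
   .der (nat_lit 137) (nat_lit 7592),
   .der (nat_lit 137) (nat_lit 7603),
   .der (nat_lit 137) (nat_lit 7655),
   .der (nat_lit 137) (nat_lit 7672),
   .der (nat_lit 137) (nat_lit 7687),
   .der (nat_lit 137) (nat_lit 7708),
   .der (nat_lit 137) (nat_lit 7795),
   .der (nat_lit 137) (nat_lit 8258),
   .der (nat_lit 137) (nat_lit 8484),
   .der (nat_lit 137) (nat_lit 8771),
   .der (nat_lit 137) (nat_lit 8991),
   .der (nat_lit 137) (nat_lit 9009),
   .der (nat_lit 137) (nat_lit 9028),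
   .der (nat_lit 137) (nat_lit 9321),
   .der (nat_lit 137) (nat_lit 9324),
   .der (nat_lit 137) (nat_lit 9413),
   .der (nat_lit 137) (nat_lit 9419),
   .der (nat_lit 137) (nat_lit 9704),
   .der (nat_lit 137) (nat_lit 9828),
   .der (nat_lit 137) (nat_lit 9837),
   .der (nat_lit 145) (nat_lit 867),
   .der (nat_lit 145) (nat_lit 927),
   .der (nat_lit 145) (nat_lit 992),
   .der (nat_lit 145) (nat_lit 1399),
   .der (nat_lit 145) (nat_lit 1408),
   .der (nat_lit 145) (nat_lit 1542),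
   .der (nat_lit 145) (nat_lit 1711),
   .der (nat_lit 145) (nat_lit 1714),
   .der (nat_lit 145) (nat_lit 1928),
   .der (nat_lit 145) (nat_lit 2203),
   .der (nat_lit 145) (nat_lit 2264),
   .der (nat_lit 145) (nat_lit 2531),
   .der (nat_lit 145) (nat_lit 2753),
   .der (nat_lit 145) (nat_lit 2847),
   .der (nat_lit 145) (nat_lit 3251),
   .der (nat_lit 145) (nat_lit 3267),
   .der (nat_lit 145) (nat_lit 3996),
   .der (nat_lit 145) (nat_lit 4010),
   .der (nat_lit 145) (nat_lit 4020),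
   .der (nat_lit 145) (nat_lit 4039),
   .der (nat_lit 145) (nat_lit 4055),
   .der (nat_lit 145) (nat_lit 4071),
   .der (nat_lit 145) (nat_lit 4131),
   .der (nat_lit 145) (nat_lit 4431),
   .der (nat_lit 145) (nat_lit 4563),
   .der (nat_lit 145) (nat_lit 5039),
   .der (nat_lit 145) (nat_lit 5171),
   .der (nat_lit 145) (nat_lit 5304),
   .der (nat_lit 145) (nat_lit 5321),
   .der (nat_lit 145) (nat_lit 5815),
   .der (nat_lit 145) (nat_lit 5818),
   .der (nat_lit 145) (nat_lit 5823),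
   .der (nat_lit 145) (nat_lit 5949),
   .der (nat_lit 145) (nat_lit 6002),
   .der (nat_lit 145) (nat_lit 6243),
   .der (nat_lit 145) (nat_lit 6512),
   .der (nat_lit 145) (nat_lit 6522),
   .der (nat_lit 145) (nat_lit 6821),
   .der (nat_lit 145) (nat_lit 6979),
   .der (nat_lit 145) (nat_lit 7099),
   .der (nat_lit 145) (nat_lit 7603),
   .der (nat_lit 145) (nat_lit 7687),
   .der (nat_lit 145) (nat_lit 7795),
   .der (nat_lit 145) (nat_lit 7834),
   .der (nat_lit 145) (nat_lit 8122),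
   .der (nat_lit 145) (nat_lit 8258),
   .der (nat_lit 145) (nat_lit 9022),
   .der (nat_lit 145) (nat_lit 9337),
   .der (nat_lit 145) (nat_lit 9526),
   .der (nat_lit 147) (nat_lit 199),
   .der (nat_lit 147) (nat_lit 861),
   .der (nat_lit 147) (nat_lit 1392),
   .der (nat_lit 147) (nat_lit 2210),
   .der (nat_lit 147) (nat_lit 2365),
   .der (nat_lit 147) (nat_lit 2551),
   .der (nat_lit 147) (nat_lit 2603),
   .der (nat_lit 147) (nat_lit 2660),
   .der (nat_lit 147) (nat_lit 2985),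
   .der (nat_lit 147) (nat_lit 3132)]

theorem b5_step22 (h : ∀ j < 11000, Good b5T j) : ∀ j < 11500, Good b5T j := by
  intro j hj
  refine chkL_ok b5C22 11000 h (by decide +kernel) j ?_
  have h : b5C22.length = 500 := by decide +kernel
  omega

/-- certificates 11500..12000 -/
def b5C23 : List Cf :=
  [.der (nat_lit 147) (nat_lit 3267),
   .der (nat_lit 147) (nat_lit 3347),
   .der (nat_lit 147) (nat_lit 4020),
   .der (nat_lit 147) (nat_lit 4039),
   .der (nat_lit 147) (nat_lit 4045),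
   .der (nat_lit 147) (nat_lit 4055),
   .der (nat_lit 147) (nat_lit 4398),
   .der (nat_lit 147) (nat_lit 4766),
   .der (nat_lit 147) (nat_lit 4800),
   .der (nat_lit 147) (nat_lit 5052),
   .der (nat_lit 147) (nat_lit 5151),
   .der (nat_lit 147) (nat_lit 5818),
   .der (nat_lit 147) (nat_lit 7045),
   .der (nat_lit 147) (nat_lit 7271),
   .der (nat_lit 147) (nat_lit 7634),
   .der (nat_lit 147) (nat_lit 8484),
   .der (nat_lit 150) (nat_lit 8),
   .der (nat_lit 150) (nat_lit 172),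
   .der (nat_lit 150) (nat_lit 1425),
   .der (nat_lit 150) (nat_lit 1428),
   .der (nat_lit 150) (nat_lit 1461),
   .der (nat_lit 150) (nat_lit 1703),
   .der (nat_lit 150) (nat_lit 1824),
   .der (nat_lit 150) (nat_lit 2176),
   .der (nat_lit 150) (nat_lit 3144),
   .der (nat_lit 150) (nat_lit 3184),
   .der (nat_lit 150) (nat_lit 3856),
   .der (nat_lit 150) (nat_lit 3996),
   .der (nat_lit 150) (nat_lit 4055),
   .der (nat_lit 150) (nat_lit 4071),
   .der (nat_lit 150) (nat_lit 4094),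
   .der (nat_lit 150) (nat_lit 4123),
   .der (nat_lit 150) (nat_lit 4263),
   .der (nat_lit 150) (nat_lit 4365),
   .der (nat_lit 150) (nat_lit 4431),
   .der (nat_lit 150) (nat_lit 4588),
   .der (nat_lit 150) (nat_lit 4636),
   .der (nat_lit 150) (nat_lit 4700),
   .der (nat_lit 150) (nat_lit 4800),
   .der (nat_lit 150) (nat_lit 5026),
   .der (nat_lit 150) (nat_lit 5050),
   .der (nat_lit 150) (nat_lit 5100),
   .der (nat_lit 150) (nat_lit 5818),
   .der (nat_lit 150) (nat_lit 6821),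
   .der (nat_lit 150) (nat_lit 7719),
   .der (nat_lit 150) (nat_lit 8603),
   .der (nat_lit 150) (nat_lit 8987),
   .der (nat_lit 150) (nat_lit 9346),
   .der (nat_lit 150) (nat_lit 9837),
   .der (nat_lit 152) (nat_lit 29),
   .der (nat_lit 152) (nat_lit 74),
   .der (nat_lit 152) (nat_lit 861),
   .der (nat_lit 152) (nat_lit 881),
   .der (nat_lit 152) (nat_lit 992),
   .der (nat_lit 152) (nat_lit 1045),
   .der (nat_lit 152) (nat_lit 1399),
   .der (nat_lit 152) (nat_lit 1924),
   .der (nat_lit 152) (nat_lit 1928),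
   .der (nat_lit 152) (nat_lit 2171),
   .der (nat_lit 152) (nat_lit 2197),
   .der (nat_lit 152) (nat_lit 2199),
   .der (nat_lit 152) (nat_lit 2227),
   .der (nat_lit 152) (nat_lit 2327),
   .der (nat_lit 152) (nat_lit 2753),
   .der (nat_lit 152) (nat_lit 2847),
   .der (nat_lit 152) (nat_lit 2908),
   .der (nat_lit 152) (nat_lit 3109),
   .der (nat_lit 152) (nat_lit 3118),
   .der (nat_lit 152) (nat_lit 3138),
   .der (nat_lit 152) (nat_lit 3144),
   .der (nat_lit 152) (nat_lit 3258),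
   .der (nat_lit 152) (nat_lit 3276),
   .der (nat_lit 152) (nat_lit 3285),
   .der (nat_lit 152) (nat_lit 3332),
   .der (nat_lit 152) (nat_lit 3340),
   .der (nat_lit 152) (nat_lit 3431),
   .der (nat_lit 152) (nat_lit 3981),
   .der (nat_lit 152) (nat_lit 3996),
   .der (nat_lit 152) (nat_lit 4010),
   .der (nat_lit 152) (nat_lit 4020),
   .der (nat_lit 152) (nat_lit 4028),
   .der (nat_lit 152) (nat_lit 4035),
   .der (nat_lit 152) (nat_lit 4041),
   .der (nat_lit 152) (nat_lit 4145),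
   .der (nat_lit 152) (nat_lit 4170),
   .der (nat_lit 152) (nat_lit 4504),
   .der (nat_lit 152) (nat_lit 4706),
   .der (nat_lit 152) (nat_lit 5050),
   .der (nat_lit 152) (nat_lit 5499),
   .der (nat_lit 152) (nat_lit 5805),
   .der (nat_lit 152) (nat_lit 5823),
   .der (nat_lit 152) (nat_lit 5848),
   .der (nat_lit 152) (nat_lit 6079),
   .der (nat_lit 152) (nat_lit 6441),
   .der (nat_lit 152) (nat_lit 6474),
   .der (nat_lit 152) (nat_lit 6817),
   .der (nat_lit 152) (nat_lit 6821),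
   .der (nat_lit 152) (nat_lit 6888),
   .der (nat_lit 152) (nat_lit 7736),
   .der (nat_lit 152) (nat_lit 7767),
   .der (nat_lit 152) (nat_lit 8767),
   .der (nat_lit 152) (nat_lit 8781),
   .der (nat_lit 152) (nat_lit 9076),
   .der (nat_lit 152) (nat_lit 9235),
   .der (nat_lit 152) (nat_lit 9331),
   .der (nat_lit 152) (nat_lit 9516),
   .der (nat_lit 161) (nat_lit 29),
   .der (nat_lit 161) (nat_lit 64),
   .der (nat_lit 161) (nat_lit 67),
   .der (nat_lit 161) (nat_lit 74),
   .der (nat_lit 161) (nat_lit 465),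
   .der (nat_lit 161) (nat_lit 1030),
   .der (nat_lit 161) (nat_lit 1475),
   .der (nat_lit 161) (nat_lit 1497),
   .der (nat_lit 161) (nat_lit 1928),
   .der (nat_lit 161) (nat_lit 2188),
   .der (nat_lit 161) (nat_lit 2203),
   .der (nat_lit 161) (nat_lit 2227),
   .der (nat_lit 161) (nat_lit 2262),
   .der (nat_lit 161) (nat_lit 2277),
   .der (nat_lit 161) (nat_lit 2332),
   .der (nat_lit 161) (nat_lit 2409),
   .der (nat_lit 161) (nat_lit 2647),
   .der (nat_lit 161) (nat_lit 2757),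
   .der (nat_lit 161) (nat_lit 2847),
   .der (nat_lit 161) (nat_lit 3118),
   .der (nat_lit 161) (nat_lit 3144),
   .der (nat_lit 161) (nat_lit 3147),
   .der (nat_lit 161) (nat_lit 3285),
   .der (nat_lit 161) (nat_lit 3590),
   .der (nat_lit 161) (nat_lit 3996),
   .der (nat_lit 161) (nat_lit 4048),
   .der (nat_lit 161) (nat_lit 4092),
   .der (nat_lit 161) (nat_lit 4113),
   .der (nat_lit 161) (nat_lit 4131),
   .der (nat_lit 161) (nat_lit 4145),
   .der (nat_lit 161) (nat_lit 4292),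
   .der (nat_lit 161) (nat_lit 4402),
   .der (nat_lit 161) (nat_lit 4487),
   .der (nat_lit 161) (nat_lit 4504),
   .der (nat_lit 161) (nat_lit 4706),
   .der (nat_lit 161) (nat_lit 5053),
   .der (nat_lit 161) (nat_lit 5187),
   .der (nat_lit 161) (nat_lit 5429),
   .der (nat_lit 161) (nat_lit 5827),
   .der (nat_lit 161) (nat_lit 5982),
   .der (nat_lit 161) (nat_lit 6015),
   .der (nat_lit 161) (nat_lit 6046),
   .der (nat_lit 161) (nat_lit 6079),
   .der (nat_lit 161) (nat_lit 6096),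
   .der (nat_lit 161) (nat_lit 6143),
   .der (nat_lit 161) (nat_lit 6276),
   .der (nat_lit 161) (nat_lit 6359),
   .der (nat_lit 161) (nat_lit 6474),
   .der (nat_lit 161) (nat_lit 6537),
   .der (nat_lit 161) (nat_lit 6579),
   .der (nat_lit 161) (nat_lit 6876),
   .der (nat_lit 161) (nat_lit 6912),
   .der (nat_lit 161) (nat_lit 6944),
   .der (nat_lit 161) (nat_lit 6991),
   .der (nat_lit 161) (nat_lit 6994),
   .der (nat_lit 161) (nat_lit 7013),
   .der (nat_lit 161) (nat_lit 7042),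
   .der (nat_lit 161) (nat_lit 7068),
   .der (nat_lit 161) (nat_lit 7085),
   .der (nat_lit 161) (nat_lit 7107),
   .der (nat_lit 161) (nat_lit 7229),
   .der (nat_lit 161) (nat_lit 7339),
   .der (nat_lit 161) (nat_lit 7654),
   .der (nat_lit 161) (nat_lit 7657),
   .der (nat_lit 161) (nat_lit 7692),
   .der (nat_lit 161) (nat_lit 7703),
   .der (nat_lit 161) (nat_lit 7722),
   .der (nat_lit 161) (nat_lit 7749),
   .der (nat_lit 161) (nat_lit 7778),
   .der (nat_lit 161) (nat_lit 8168),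
   .der (nat_lit 161) (nat_lit 8187),
   .der (nat_lit 161) (nat_lit 8198),
   .der (nat_lit 161) (nat_lit 8226),
   .der (nat_lit 161) (nat_lit 8593),
   .der (nat_lit 161) (nat_lit 8615),
   .der (nat_lit 161) (nat_lit 8646),
   .der (nat_lit 161) (nat_lit 8733),
   .der (nat_lit 161) (nat_lit 8767),
   .der (nat_lit 161) (nat_lit 8871),
   .der (nat_lit 161) (nat_lit 8914),
   .der (nat_lit 161) (nat_lit 8976),
   .der (nat_lit 161) (nat_lit 8979),
   .der (nat_lit 161) (nat_lit 9006),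
   .der (nat_lit 161) (nat_lit 9312),
   .der (nat_lit 161) (nat_lit 9314),
   .der (nat_lit 161) (nat_lit 9516),
   .der (nat_lit 162) (nat_lit 994),
   .der (nat_lit 162) (nat_lit 1022),
   .der (nat_lit 162) (nat_lit 1928),
   .der (nat_lit 162) (nat_lit 2186),
   .der (nat_lit 162) (nat_lit 2188),
   .der (nat_lit 162) (nat_lit 2203),
   .der (nat_lit 162) (nat_lit 2261),
   .der (nat_lit 162) (nat_lit 2277),
   .der (nat_lit 162) (nat_lit 2464),
   .der (nat_lit 162) (nat_lit 3118),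
   .der (nat_lit 162) (nat_lit 3138),
   .der (nat_lit 162) (nat_lit 3161),
   .der (nat_lit 162) (nat_lit 3239),
   .der (nat_lit 162) (nat_lit 3996),
   .der (nat_lit 162) (nat_lit 4010),
   .der (nat_lit 162) (nat_lit 4103),
   .der (nat_lit 162) (nat_lit 4246),
   .der (nat_lit 162) (nat_lit 4254),
   .der (nat_lit 162) (nat_lit 4379),
   .der (nat_lit 162) (nat_lit 5550),
   .der (nat_lit 162) (nat_lit 5837),
   .der (nat_lit 162) (nat_lit 5932),
   .der (nat_lit 162) (nat_lit 6888),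
   .der (nat_lit 162) (nat_lit 6966),
   .der (nat_lit 162) (nat_lit 7461),
   .der (nat_lit 162) (nat_lit 7612),
   .der (nat_lit 162) (nat_lit 7703),
   .der (nat_lit 162) (nat_lit 7714),
   .der (nat_lit 162) (nat_lit 8180),
   .der (nat_lit 162) (nat_lit 8187),
   .der (nat_lit 162) (nat_lit 8620),
   .der (nat_lit 165) (nat_lit 177),
   .der (nat_lit 165) (nat_lit 864),
   .der (nat_lit 165) (nat_lit 1022),
   .der (nat_lit 165) (nat_lit 1415),
   .der (nat_lit 165) (nat_lit 1880),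
   .der (nat_lit 165) (nat_lit 1928),
   .der (nat_lit 165) (nat_lit 2188),
   .der (nat_lit 165) (nat_lit 2238),
   .der (nat_lit 165) (nat_lit 2284),
   .der (nat_lit 165) (nat_lit 2464),
   .der (nat_lit 165) (nat_lit 3118),
   .der (nat_lit 165) (nat_lit 3194),
   .der (nat_lit 165) (nat_lit 3609),
   .der (nat_lit 165) (nat_lit 3999),
   .der (nat_lit 165) (nat_lit 4010),
   .der (nat_lit 165) (nat_lit 4024),
   .der (nat_lit 165) (nat_lit 4035),
   .der (nat_lit 165) (nat_lit 4041),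
   .der (nat_lit 165) (nat_lit 4111),
   .der (nat_lit 165) (nat_lit 4379),
   .der (nat_lit 165) (nat_lit 4504),
   .der (nat_lit 165) (nat_lit 4570),
   .der (nat_lit 165) (nat_lit 5067),
   .der (nat_lit 165) (nat_lit 5124),
   .der (nat_lit 165) (nat_lit 5229),
   .der (nat_lit 165) (nat_lit 5928),
   .der (nat_lit 165) (nat_lit 6006),
   .der (nat_lit 165) (nat_lit 6030),
   .der (nat_lit 165) (nat_lit 6079),
   .der (nat_lit 165) (nat_lit 6136),
   .der (nat_lit 165) (nat_lit 6207),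
   .der (nat_lit 165) (nat_lit 6888),
   .der (nat_lit 165) (nat_lit 7324),
   .der (nat_lit 165) (nat_lit 7607),
   .der (nat_lit 165) (nat_lit 7701),
   .der (nat_lit 165) (nat_lit 8226),
   .der (nat_lit 165) (nat_lit 8611),
   .der (nat_lit 165) (nat_lit 8624),
   .der (nat_lit 165) (nat_lit 8684),
   .der (nat_lit 165) (nat_lit 8697),
   .der (nat_lit 165) (nat_lit 8710),
   .der (nat_lit 339) (nat_lit 182),
   .der (nat_lit 339) (nat_lit 432),
   .der (nat_lit 339) (nat_lit 1421),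
   .der (nat_lit 339) (nat_lit 1478),
   .der (nat_lit 339) (nat_lit 1867),
   .der (nat_lit 339) (nat_lit 2188),
   .der (nat_lit 339) (nat_lit 2356),
   .der (nat_lit 339) (nat_lit 2472),
   .der (nat_lit 339) (nat_lit 3118),
   .der (nat_lit 339) (nat_lit 3120),
   .der (nat_lit 339) (nat_lit 3220),
   .der (nat_lit 339) (nat_lit 3579),
   .der (nat_lit 339) (nat_lit 3595),
   .der (nat_lit 339) (nat_lit 3725),
   .der (nat_lit 339) (nat_lit 3999),
   .der (nat_lit 339) (nat_lit 4092),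
   .der (nat_lit 339) (nat_lit 4178),
   .der (nat_lit 339) (nat_lit 4365),
   .der (nat_lit 339) (nat_lit 4374),
   .der (nat_lit 339) (nat_lit 4383),
   .der (nat_lit 339) (nat_lit 4772),
   .der (nat_lit 339) (nat_lit 5283),
   .der (nat_lit 339) (nat_lit 5827),
   .der (nat_lit 339) (nat_lit 5837),
   .der (nat_lit 339) (nat_lit 5873),
   .der (nat_lit 339) (nat_lit 5901),
   .der (nat_lit 339) (nat_lit 5920),
   .der (nat_lit 339) (nat_lit 5928),
   .der (nat_lit 339) (nat_lit 7450),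
   .der (nat_lit 339) (nat_lit 7528),
   .der (nat_lit 339) (nat_lit 7790),
   .der (nat_lit 339) (nat_lit 7892),
   .der (nat_lit 339) (nat_lit 7972),
   .der (nat_lit 339) (nat_lit 8511),
   .der (nat_lit 339) (nat_lit 9224),
   .der (nat_lit 339) (nat_lit 9257),
   .der (nat_lit 339) (nat_lit 9531),
   .der (nat_lit 340) (nat_lit 64),
   .der (nat_lit 340) (nat_lit 70),
   .der (nat_lit 340) (nat_lit 417),
   .der (nat_lit 340) (nat_lit 421),
   .der (nat_lit 340) (nat_lit 864),
   .der (nat_lit 340) (nat_lit 894),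
   .der (nat_lit 340) (nat_lit 1415),
   .der (nat_lit 340) (nat_lit 1438),
   .der (nat_lit 340) (nat_lit 2183),
   .der (nat_lit 340) (nat_lit 2210),
   .der (nat_lit 340) (nat_lit 2369),
   .der (nat_lit 340) (nat_lit 2838),
   .der (nat_lit 340) (nat_lit 3141),
   .der (nat_lit 340) (nat_lit 4065),
   .der (nat_lit 340) (nat_lit 4631),
   .der (nat_lit 340) (nat_lit 5901),
   .der (nat_lit 340) (nat_lit 6072),
   .der (nat_lit 354) (nat_lit 481),
   .der (nat_lit 354) (nat_lit 495),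
   .der (nat_lit 354) (nat_lit 1196),
   .der (nat_lit 354) (nat_lit 1409),
   .der (nat_lit 354) (nat_lit 2618),
   .der (nat_lit 354) (nat_lit 2913),
   .der (nat_lit 354) (nat_lit 3118),
   .der (nat_lit 354) (nat_lit 3604),
   .der (nat_lit 354) (nat_lit 3725),
   .der (nat_lit 354) (nat_lit 3999),
   .der (nat_lit 354) (nat_lit 4178),
   .der (nat_lit 354) (nat_lit 4271),
   .der (nat_lit 354) (nat_lit 4365),
   .der (nat_lit 354) (nat_lit 4379),
   .der (nat_lit 354) (nat_lit 4575),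
   .der (nat_lit 354) (nat_lit 5167),
   .der (nat_lit 354) (nat_lit 5283),
   .der (nat_lit 354) (nat_lit 5388),
   .der (nat_lit 354) (nat_lit 5605),
   .der (nat_lit 354) (nat_lit 5873),
   .der (nat_lit 354) (nat_lit 5912),
   .der (nat_lit 354) (nat_lit 6305),
   .der (nat_lit 354) (nat_lit 6557),
   .der (nat_lit 354) (nat_lit 6832),
   .der (nat_lit 354) (nat_lit 6845),
   .der (nat_lit 354) (nat_lit 6848),
   .der (nat_lit 354) (nat_lit 7450),
   .der (nat_lit 354) (nat_lit 8514),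
   .der (nat_lit 354) (nat_lit 8552),
   .der (nat_lit 354) (nat_lit 9217),
   .der (nat_lit 354) (nat_lit 9677),
   .der (nat_lit 354) (nat_lit 9761),
   .der (nat_lit 356) (nat_lit 169),
   .der (nat_lit 356) (nat_lit 417),
   .der (nat_lit 356) (nat_lit 930),
   .der (nat_lit 356) (nat_lit 952),
   .der (nat_lit 356) (nat_lit 1022),
   .der (nat_lit 356) (nat_lit 1444),
   .der (nat_lit 356) (nat_lit 1546),
   .der (nat_lit 356) (nat_lit 1550),
   .der (nat_lit 356) (nat_lit 2038),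
   .der (nat_lit 356) (nat_lit 2210),
   .der (nat_lit 356) (nat_lit 2353),
   .der (nat_lit 356) (nat_lit 2365),
   .der (nat_lit 356) (nat_lit 3175),
   .der (nat_lit 356) (nat_lit 3267),
   .der (nat_lit 356) (nat_lit 3889),
   .der (nat_lit 356) (nat_lit 5595),
   .der (nat_lit 370) (nat_lit 967),
   .der (nat_lit 370) (nat_lit 1415),
   .der (nat_lit 370) (nat_lit 1441),
   .der (nat_lit 370) (nat_lit 1546),
   .der (nat_lit 370) (nat_lit 2227),
   .der (nat_lit 370) (nat_lit 2380),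
   .der (nat_lit 370) (nat_lit 2900),
   .der (nat_lit 370) (nat_lit 3273),
   .der (nat_lit 370) (nat_lit 3595),
   .der (nat_lit 370) (nat_lit 3609),
   .der (nat_lit 370) (nat_lit 3628),
   .der (nat_lit 370) (nat_lit 3752),
   .der (nat_lit 370) (nat_lit 4365),
   .der (nat_lit 370) (nat_lit 6482),
   .der (nat_lit 370) (nat_lit 6903),
   .der (nat_lit 371) (nat_lit 1544),
   .der (nat_lit 371) (nat_lit 1546),
   .der (nat_lit 371) (nat_lit 1880),
   .der (nat_lit 371) (nat_lit 2038),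
   .der (nat_lit 371) (nat_lit 2210),
   .der (nat_lit 371) (nat_lit 2365),
   .der (nat_lit 371) (nat_lit 2380),
   .der (nat_lit 371) (nat_lit 2501),
   .der (nat_lit 371) (nat_lit 3002),
   .der (nat_lit 371) (nat_lit 3175),
   .der (nat_lit 371) (nat_lit 3273),
   .der (nat_lit 371) (nat_lit 4855),
   .der (nat_lit 371) (nat_lit 6895),
   .der (nat_lit 371) (nat_lit 8371),
   .der (nat_lit 371) (nat_lit 9739),
   .der (nat_lit 371) (nat_lit 9751),
   .der (nat_lit 561) (nat_lit 1478),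
   .der (nat_lit 561) (nat_lit 2188),
   .der (nat_lit 561) (nat_lit 2432),
   .der (nat_lit 561) (nat_lit 2528),
   .der (nat_lit 561) (nat_lit 3579),
   .der (nat_lit 561) (nat_lit 4092),
   .der (nat_lit 561) (nat_lit 4336),
   .der (nat_lit 561) (nat_lit 4339),
   .der (nat_lit 561) (nat_lit 4365),
   .der (nat_lit 561) (nat_lit 4379),
   .der (nat_lit 561) (nat_lit 4383),
   .der (nat_lit 561) (nat_lit 4534),
   .der (nat_lit 561) (nat_lit 4555),
   .der (nat_lit 561) (nat_lit 4772),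
   .der (nat_lit 561) (nat_lit 4800),
   .der (nat_lit 561) (nat_lit 5045),
   .der (nat_lit 561) (nat_lit 5283),
   .der (nat_lit 561) (nat_lit 5837),
   .der (nat_lit 561) (nat_lit 5873),
   .der (nat_lit 561) (nat_lit 5912),
   .der (nat_lit 561) (nat_lit 5920),
   .der (nat_lit 561) (nat_lit 5928),
   .der (nat_lit 561) (nat_lit 6060),
   .der (nat_lit 561) (nat_lit 6112),
   .der (nat_lit 561) (nat_lit 6204),
   .der (nat_lit 561) (nat_lit 6810),
   .der (nat_lit 561) (nat_lit 6832),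
   .der (nat_lit 561) (nat_lit 6845),
   .der (nat_lit 561) (nat_lit 6880),
   .der (nat_lit 561) (nat_lit 6988),
   .der (nat_lit 561) (nat_lit 7441),
   .der (nat_lit 561) (nat_lit 7450),
   .der (nat_lit 561) (nat_lit 7641),
   .der (nat_lit 561) (nat_lit 7654),
   .der (nat_lit 561) (nat_lit 7790),
   .der (nat_lit 561) (nat_lit 8218),
   .der (nat_lit 561) (nat_lit 8514),
   .der (nat_lit 561) (nat_lit 9206),
   .der (nat_lit 561) (nat_lit 9271),
   .der (nat_lit 561) (nat_lit 9531),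
   .der (nat_lit 561) (nat_lit 9761),
   .der (nat_lit 577) (nat_lit 967),
   .der (nat_lit 577) (nat_lit 2171),
   .der (nat_lit 577) (nat_lit 2188),
   .der (nat_lit 577) (nat_lit 2210),
   .der (nat_lit 577) (nat_lit 2224),
   .der (nat_lit 577) (nat_lit 2528),
   .der (nat_lit 577) (nat_lit 2562),
   .der (nat_lit 577) (nat_lit 2740),
   .der (nat_lit 577) (nat_lit 2841),
   .der (nat_lit 577) (nat_lit 3120),
   .der (nat_lit 577) (nat_lit 3340),
   .der (nat_lit 577) (nat_lit 3609),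
   .der (nat_lit 577) (nat_lit 3699),
   .der (nat_lit 577) (nat_lit 3985),
   .der (nat_lit 577) (nat_lit 4016),
   .der (nat_lit 577) (nat_lit 4268),
   .der (nat_lit 577) (nat_lit 4602),
   .der (nat_lit 577) (nat_lit 4666),
   .der (nat_lit 577) (nat_lit 5035),
   .der (nat_lit 577) (nat_lit 5067),
   .der (nat_lit 577) (nat_lit 5229),
   .der (nat_lit 577) (nat_lit 6200),
   .der (nat_lit 577) (nat_lit 7009),
   .der (nat_lit 577) (nat_lit 7027),
   .der (nat_lit 577) (nat_lit 8653),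
   .der (nat_lit 577) (nat_lit 8700),
   .der (nat_lit 577) (nat_lit 9072),
   .der (nat_lit 577) (nat_lit 9087),
   .der (nat_lit 612) (nat_lit 417),
   .der (nat_lit 612) (nat_lit 472),
   .der (nat_lit 612) (nat_lit 1385),
   .der (nat_lit 612) (nat_lit 1412),
   .der (nat_lit 612) (nat_lit 1682),
   .der (nat_lit 612) (nat_lit 2038),
   .der (nat_lit 612) (nat_lit 2210),
   .der (nat_lit 612) (nat_lit 2356),
   .der (nat_lit 612) (nat_lit 2363),
   .der (nat_lit 612) (nat_lit 2501),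
   .der (nat_lit 612) (nat_lit 4055),
   .der (nat_lit 612) (nat_lit 4398),
   .der (nat_lit 612) (nat_lit 4631),
   .der (nat_lit 612) (nat_lit 5901),
   .der (nat_lit 612) (nat_lit 7461),
   .der (nat_lit 612) (nat_lit 9309),
   .der (nat_lit 627) (nat_lit 421),
   .der (nat_lit 627) (nat_lit 889),
   .der (nat_lit 627) (nat_lit 1022),
   .der (nat_lit 627) (nat_lit 1169),
   .der (nat_lit 627) (nat_lit 1546),
   .der (nat_lit 627) (nat_lit 1880),
   .der (nat_lit 627) (nat_lit 2183),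
   .der (nat_lit 627) (nat_lit 2365),
   .der (nat_lit 627) (nat_lit 2380),
   .der (nat_lit 627) (nat_lit 3122),
   .der (nat_lit 627) (nat_lit 3288),
   .der (nat_lit 627) (nat_lit 3340),
   .der (nat_lit 627) (nat_lit 3609),
   .der (nat_lit 627) (nat_lit 3789),
   .der (nat_lit 627) (nat_lit 4048),
   .der (nat_lit 627) (nat_lit 4236),
   .der (nat_lit 627) (nat_lit 4252),
   .der (nat_lit 627) (nat_lit 4602)]

theorem b5_step23 (h : ∀ j < 11500, Good b5T j) : ∀ j < 12000, Good b5T j := by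
  intro j hj
  refine chkL_ok b5C23 11500 h (by decide +kernel) j ?_
  have h : b5C23.length = 500 := by decide +kernel
  omega


end Tab

end Pool.Agent.Work.MP_bf01b2_co.MR
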