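import Pool.Agent.Work.MP_bf01b2_co.MR.B5T

set_option maxRecDepth 100000

namespace Pool.Agent.Work.MP_bf01b2_co.MR

namespace Tab

/-- certificates 12000..12500 -/
def b5C24 : List Cf :=
  [.der (nat_lit 627) (nat_lit 4631),
   .der (nat_lit 627) (nat_lit 5115),
   .der (nat_lit 627) (nat_lit 7485),
   .der (nat_lit 627) (nat_lit 9044),
   .der (nat_lit 627) (nat_lit 9677),
   .der (nat_lit 644) (nat_lit 39),
   .der (nat_lit 644) (nat_lit 421),
   .der (nat_lit 644) (nat_lit 923),
   .der (nat_lit 644) (nat_lit 1392),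
   .der (nat_lit 644) (nat_lit 1539),
   .der (nat_lit 644) (nat_lit 2176),
   .der (nat_lit 644) (nat_lit 2210),
   .der (nat_lit 644) (nat_lit 2255),
   .der (nat_lit 644) (nat_lit 2385),
   .der (nat_lit 644) (nat_lit 2740),
   .der (nat_lit 644) (nat_lit 3199),
   .der (nat_lit 644) (nat_lit 3404),
   .der (nat_lit 644) (nat_lit 4055),
   .der (nat_lit 644) (nat_lit 4563),
   .der (nat_lit 644) (nat_lit 5873),
   .der (nat_lit 644) (nat_lit 5901),
   .der (nat_lit 644) (nat_lit 5935),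
   .der (nat_lit 644) (nat_lit 6128),
   .der (nat_lit 644) (nat_lit 7271),
   .der (nat_lit 644) (nat_lit 8484),
   .der (nat_lit 644) (nat_lit 9039),
   .der (nat_lit 659) (nat_lit 39),
   .der (nat_lit 659) (nat_lit 1534),
   .der (nat_lit 659) (nat_lit 1788),
   .der (nat_lit 659) (nat_lit 2210),
   .der (nat_lit 659) (nat_lit 2365),
   .der (nat_lit 659) (nat_lit 3147),
   .der (nat_lit 659) (nat_lit 3347),
   .der (nat_lit 659) (nat_lit 3350),
   .der (nat_lit 659) (nat_lit 3619),
   .der (nat_lit 659) (nat_lit 3748),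
   .der (nat_lit 659) (nat_lit 4071),
   .der (nat_lit 659) (nat_lit 4585),
   .der (nat_lit 659) (nat_lit 5818),
   .der (nat_lit 659) (nat_lit 5823),
   .der (nat_lit 659) (nat_lit 5850),
   .der (nat_lit 659) (nat_lit 6397),
   .der (nat_lit 659) (nat_lit 6817),
   .der (nat_lit 659) (nat_lit 7271),
   .der (nat_lit 659) (nat_lit 8258),
   .der (nat_lit 659) (nat_lit 8824),
   .der (nat_lit 801) (nat_lit 960),
   .der (nat_lit 801) (nat_lit 1478),
   .der (nat_lit 801) (nat_lit 1693),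
   .der (nat_lit 801) (nat_lit 1753),
   .der (nat_lit 801) (nat_lit 1891),
   .der (nat_lit 801) (nat_lit 2186),
   .der (nat_lit 801) (nat_lit 3118),
   .der (nat_lit 801) (nat_lit 3120),
   .der (nat_lit 801) (nat_lit 3220),
   .der (nat_lit 801) (nat_lit 3261),
   .der (nat_lit 801) (nat_lit 3604),
   .der (nat_lit 801) (nat_lit 3999),
   .der (nat_lit 801) (nat_lit 4092),
   .der (nat_lit 801) (nat_lit 4103),
   .der (nat_lit 801) (nat_lit 4117),
   .der (nat_lit 801) (nat_lit 4242),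
   .der (nat_lit 801) (nat_lit 4311),
   .der (nat_lit 801) (nat_lit 4379),
   .der (nat_lit 801) (nat_lit 4463),
   .der (nat_lit 801) (nat_lit 4555),
   .der (nat_lit 801) (nat_lit 4800),
   .der (nat_lit 801) (nat_lit 5025),
   .der (nat_lit 801) (nat_lit 5283),
   .der (nat_lit 801) (nat_lit 5552),
   .der (nat_lit 801) (nat_lit 5873),
   .der (nat_lit 801) (nat_lit 5894),
   .der (nat_lit 801) (nat_lit 5912),
   .der (nat_lit 801) (nat_lit 5920),
   .der (nat_lit 801) (nat_lit 5935),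
   .der (nat_lit 801) (nat_lit 6390),
   .der (nat_lit 801) (nat_lit 6488),
   .der (nat_lit 801) (nat_lit 6557),
   .der (nat_lit 801) (nat_lit 6600),
   .der (nat_lit 801) (nat_lit 7163),
   .der (nat_lit 801) (nat_lit 7286),
   .der (nat_lit 801) (nat_lit 7450),
   .der (nat_lit 801) (nat_lit 7478),
   .der (nat_lit 801) (nat_lit 7485),
   .der (nat_lit 801) (nat_lit 7560),
   .der (nat_lit 801) (nat_lit 7761),
   .der (nat_lit 801) (nat_lit 8481),
   .der (nat_lit 801) (nat_lit 8493),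
   .der (nat_lit 801) (nat_lit 8497),
   .der (nat_lit 801) (nat_lit 8502),
   .der (nat_lit 801) (nat_lit 8519),
   .der (nat_lit 801) (nat_lit 8919),
   .der (nat_lit 801) (nat_lit 9511),
   .der (nat_lit 801) (nat_lit 9677),
   .der (nat_lit 801) (nat_lit 9870),
   .der (nat_lit 833) (nat_lit 10),
   .der (nat_lit 833) (nat_lit 39),
   .der (nat_lit 833) (nat_lit 421),
   .der (nat_lit 833) (nat_lit 495),
   .der (nat_lit 833) (nat_lit 864),
   .der (nat_lit 833) (nat_lit 1169),
   .der (nat_lit 833) (nat_lit 1444),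
   .der (nat_lit 833) (nat_lit 2332),
   .der (nat_lit 833) (nat_lit 2380),
   .der (nat_lit 833) (nat_lit 2557),
   .der (nat_lit 833) (nat_lit 3152),
   .der (nat_lit 833) (nat_lit 3699),
   .der (nat_lit 833) (nat_lit 3716),
   .der (nat_lit 833) (nat_lit 4038),
   .der (nat_lit 833) (nat_lit 4202),
   .der (nat_lit 833) (nat_lit 4365),
   .der (nat_lit 833) (nat_lit 4534),
   .der (nat_lit 833) (nat_lit 4566),
   .der (nat_lit 833) (nat_lit 4570),
   .der (nat_lit 833) (nat_lit 4740),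
   .der (nat_lit 833) (nat_lit 4925),
   .der (nat_lit 833) (nat_lit 5280),
   .der (nat_lit 833) (nat_lit 5935),
   .der (nat_lit 833) (nat_lit 6318),
   .der (nat_lit 833) (nat_lit 6903),
   .der (nat_lit 833) (nat_lit 6906),
   .der (nat_lit 833) (nat_lit 7190),
   .der (nat_lit 833) (nat_lit 7472),
   .der (nat_lit 833) (nat_lit 7518),
   .der (nat_lit 833) (nat_lit 7528),
   .der (nat_lit 833) (nat_lit 7618),
   .der (nat_lit 833) (nat_lit 7676),
   .der (nat_lit 833) (nat_lit 7892),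
   .der (nat_lit 833) (nat_lit 8134),
   .der (nat_lit 833) (nat_lit 8637),
   .der (nat_lit 834) (nat_lit 76),
   .der (nat_lit 834) (nat_lit 199),
   .der (nat_lit 834) (nat_lit 1309),
   .der (nat_lit 834) (nat_lit 2210),
   .der (nat_lit 834) (nat_lit 2346),
   .der (nat_lit 834) (nat_lit 2816),
   .der (nat_lit 834) (nat_lit 2931),
   .der (nat_lit 834) (nat_lit 2985),
   .der (nat_lit 834) (nat_lit 3132),
   .der (nat_lit 834) (nat_lit 3267),
   .der (nat_lit 834) (nat_lit 3604),
   .der (nat_lit 834) (nat_lit 3748),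
   .der (nat_lit 834) (nat_lit 4039),
   .der (nat_lit 834) (nat_lit 4092),
   .der (nat_lit 834) (nat_lit 4463),
   .der (nat_lit 834) (nat_lit 4706),
   .der (nat_lit 834) (nat_lit 4766),
   .der (nat_lit 834) (nat_lit 5039),
   .der (nat_lit 834) (nat_lit 5046),
   .der (nat_lit 834) (nat_lit 5873),
   .der (nat_lit 834) (nat_lit 5915),
   .der (nat_lit 834) (nat_lit 5994),
   .der (nat_lit 834) (nat_lit 6157),
   .der (nat_lit 834) (nat_lit 6879),
   .der (nat_lit 834) (nat_lit 6906),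
   .der (nat_lit 834) (nat_lit 7182),
   .der (nat_lit 834) (nat_lit 7271),
   .der (nat_lit 834) (nat_lit 7592),
   .der (nat_lit 834) (nat_lit 7795),
   .der (nat_lit 834) (nat_lit 8165),
   .der (nat_lit 834) (nat_lit 8484),
   .der (nat_lit 852) (nat_lit 864),
   .der (nat_lit 852) (nat_lit 906),
   .der (nat_lit 852) (nat_lit 907),
   .der (nat_lit 852) (nat_lit 923),
   .der (nat_lit 852) (nat_lit 934),
   .der (nat_lit 852) (nat_lit 1421),
   .der (nat_lit 852) (nat_lit 1444),
   .der (nat_lit 852) (nat_lit 1448),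
   .der (nat_lit 852) (nat_lit 2353),
   .der (nat_lit 852) (nat_lit 3357),
   .der (nat_lit 852) (nat_lit 3404),
   .der (nat_lit 852) (nat_lit 4035),
   .der (nat_lit 852) (nat_lit 4048),
   .der (nat_lit 852) (nat_lit 4178),
   .der (nat_lit 852) (nat_lit 4383),
   .der (nat_lit 852) (nat_lit 4598),
   .der (nat_lit 852) (nat_lit 5037),
   .der (nat_lit 852) (nat_lit 5052),
   .der (nat_lit 852) (nat_lit 5463),
   .der (nat_lit 852) (nat_lit 5953),
   .der (nat_lit 852) (nat_lit 6128),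
   .der (nat_lit 852) (nat_lit 6615),
   .der (nat_lit 852) (nat_lit 6832),
   .der (nat_lit 852) (nat_lit 6956),
   .der (nat_lit 852) (nat_lit 7186),
   .der (nat_lit 852) (nat_lit 7790),
   .der (nat_lit 852) (nat_lit 7972),
   .der (nat_lit 882) (nat_lit 421),
   .der (nat_lit 882) (nat_lit 864),
   .der (nat_lit 882) (nat_lit 923),
   .der (nat_lit 882) (nat_lit 1250),
   .der (nat_lit 882) (nat_lit 2432),
   .der (nat_lit 882) (nat_lit 3020),
   .der (nat_lit 882) (nat_lit 3609),
   .der (nat_lit 882) (nat_lit 4249),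
   .der (nat_lit 882) (nat_lit 4570),
   .der (nat_lit 882) (nat_lit 4588),
   .der (nat_lit 882) (nat_lit 4641),
   .der (nat_lit 882) (nat_lit 4904),
   .der (nat_lit 882) (nat_lit 6308),
   .der (nat_lit 882) (nat_lit 6645),
   .der (nat_lit 882) (nat_lit 7143),
   .der (nat_lit 1057) (nat_lit 861),
   .der (nat_lit 1057) (nat_lit 927),
   .der (nat_lit 1057) (nat_lit 992),
   .der (nat_lit 1057) (nat_lit 1252),
   .der (nat_lit 1057) (nat_lit 1406),
   .der (nat_lit 1057) (nat_lit 1425),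
   .der (nat_lit 1057) (nat_lit 1542),
   .der (nat_lit 1057) (nat_lit 2205),
   .der (nat_lit 1057) (nat_lit 2224),
   .der (nat_lit 1057) (nat_lit 2346),
   .der (nat_lit 1057) (nat_lit 2464),
   .der (nat_lit 1057) (nat_lit 2503),
   .der (nat_lit 1057) (nat_lit 2747),
   .der (nat_lit 1057) (nat_lit 2847),
   .der (nat_lit 1057) (nat_lit 3124),
   .der (nat_lit 1057) (nat_lit 3132),
   .der (nat_lit 1057) (nat_lit 3133),
   .der (nat_lit 1057) (nat_lit 3184),
   .der (nat_lit 1057) (nat_lit 3338),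
   .der (nat_lit 1057) (nat_lit 3617),
   .der (nat_lit 1057) (nat_lit 3854),
   .der (nat_lit 1057) (nat_lit 3996),
   .der (nat_lit 1057) (nat_lit 4005),
   .der (nat_lit 1057) (nat_lit 4020),
   .der (nat_lit 1057) (nat_lit 4032),
   .der (nat_lit 1057) (nat_lit 4055),
   .der (nat_lit 1057) (nat_lit 4170),
   .der (nat_lit 1057) (nat_lit 4184),
   .der (nat_lit 1057) (nat_lit 4254),
   .der (nat_lit 1057) (nat_lit 4263),
   .der (nat_lit 1057) (nat_lit 4585),
   .der (nat_lit 1057) (nat_lit 4588),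
   .der (nat_lit 1057) (nat_lit 4770),
   .der (nat_lit 1057) (nat_lit 4800),
   .der (nat_lit 1057) (nat_lit 5194),
   .der (nat_lit 1057) (nat_lit 5425),
   .der (nat_lit 1057) (nat_lit 5815),
   .der (nat_lit 1057) (nat_lit 5848),
   .der (nat_lit 1057) (nat_lit 5850),
   .der (nat_lit 1057) (nat_lit 6079),
   .der (nat_lit 1057) (nat_lit 6807),
   .der (nat_lit 1057) (nat_lit 6817),
   .der (nat_lit 1057) (nat_lit 6821),
   .der (nat_lit 1057) (nat_lit 7176),
   .der (nat_lit 1057) (nat_lit 7795),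
   .der (nat_lit 1057) (nat_lit 7825),
   .der (nat_lit 1057) (nat_lit 7838),
   .der (nat_lit 1057) (nat_lit 7886),
   .der (nat_lit 1057) (nat_lit 8987),
   .der (nat_lit 1057) (nat_lit 9607),
   .der (nat_lit 1073) (nat_lit 586),
   .der (nat_lit 1073) (nat_lit 939),
   .der (nat_lit 1073) (nat_lit 1444),
   .der (nat_lit 1073) (nat_lit 2203),
   .der (nat_lit 1073) (nat_lit 2227),
   .der (nat_lit 1073) (nat_lit 2262),
   .der (nat_lit 1073) (nat_lit 2424),
   .der (nat_lit 1073) (nat_lit 3126),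
   .der (nat_lit 1073) (nat_lit 3175),
   .der (nat_lit 1073) (nat_lit 3258),
   .der (nat_lit 1073) (nat_lit 3340),
   .der (nat_lit 1073) (nat_lit 3473),
   .der (nat_lit 1073) (nat_lit 3576),
   .der (nat_lit 1073) (nat_lit 3609),
   .der (nat_lit 1073) (nat_lit 3628),
   .der (nat_lit 1073) (nat_lit 3752),
   .der (nat_lit 1073) (nat_lit 4028),
   .der (nat_lit 1073) (nat_lit 4048),
   .der (nat_lit 1073) (nat_lit 4268),
   .der (nat_lit 1073) (nat_lit 4555),
   .der (nat_lit 1073) (nat_lit 4570),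
   .der (nat_lit 1073) (nat_lit 4598),
   .der (nat_lit 1073) (nat_lit 4702),
   .der (nat_lit 1073) (nat_lit 5116),
   .der (nat_lit 1073) (nat_lit 5965),
   .der (nat_lit 1073) (nat_lit 6079),
   .der (nat_lit 1073) (nat_lit 6807),
   .der (nat_lit 1073) (nat_lit 9081),
   .der (nat_lit 1073) (nat_lit 9235),
   .der (nat_lit 1073) (nat_lit 9453),
   .der (nat_lit 1073) (nat_lit 9547),
   .der (nat_lit 1073) (nat_lit 9646),
   .der (nat_lit 1073) (nat_lit 9731),
   .der (nat_lit 1074) (nat_lit 435),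
   .der (nat_lit 1074) (nat_lit 939),
   .der (nat_lit 1074) (nat_lit 992),
   .der (nat_lit 1074) (nat_lit 1399),
   .der (nat_lit 1074) (nat_lit 1415),
   .der (nat_lit 1074) (nat_lit 1542),
   .der (nat_lit 1074) (nat_lit 2183),
   .der (nat_lit 1074) (nat_lit 2203),
   .der (nat_lit 1074) (nat_lit 2944),
   .der (nat_lit 1074) (nat_lit 3755),
   .der (nat_lit 1074) (nat_lit 3985),
   .der (nat_lit 1074) (nat_lit 4061),
   .der (nat_lit 1074) (nat_lit 4131),
   .der (nat_lit 1074) (nat_lit 4145),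
   .der (nat_lit 1074) (nat_lit 4254),
   .der (nat_lit 1074) (nat_lit 5116),
   .der (nat_lit 1074) (nat_lit 5220),
   .der (nat_lit 1074) (nat_lit 6079),
   .der (nat_lit 1074) (nat_lit 6397),
   .der (nat_lit 1074) (nat_lit 6441),
   .der (nat_lit 1074) (nat_lit 6807),
   .der (nat_lit 1074) (nat_lit 7073),
   .der (nat_lit 1074) (nat_lit 7858),
   .der (nat_lit 1074) (nat_lit 9121),
   .der (nat_lit 1074) (nat_lit 9235),
   .der (nat_lit 1074) (nat_lit 9699),
   .der (nat_lit 1107) (nat_lit 435),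
   .der (nat_lit 1107) (nat_lit 992),
   .der (nat_lit 1107) (nat_lit 1415),
   .der (nat_lit 1107) (nat_lit 2040),
   .der (nat_lit 1107) (nat_lit 4048),
   .der (nat_lit 1107) (nat_lit 6079),
   .der (nat_lit 1107) (nat_lit 8139),
   .der (nat_lit 1107) (nat_lit 9235),
   .der (nat_lit 1107) (nat_lit 9399),
   .der (nat_lit 1107) (nat_lit 9547),
   .der (nat_lit 1122) (nat_lit 861),
   .der (nat_lit 1122) (nat_lit 897),
   .der (nat_lit 1122) (nat_lit 1659),
   .der (nat_lit 1122) (nat_lit 1824),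
   .der (nat_lit 1122) (nat_lit 2210),
   .der (nat_lit 1122) (nat_lit 3184),
   .der (nat_lit 1122) (nat_lit 3353),
   .der (nat_lit 1122) (nat_lit 3359),
   .der (nat_lit 1122) (nat_lit 3619),
   .der (nat_lit 1122) (nat_lit 3996),
   .der (nat_lit 1122) (nat_lit 4020),
   .der (nat_lit 1122) (nat_lit 4035),
   .der (nat_lit 1122) (nat_lit 4071),
   .der (nat_lit 1122) (nat_lit 4094),
   .der (nat_lit 1122) (nat_lit 4800),
   .der (nat_lit 1122) (nat_lit 4867),
   .der (nat_lit 1122) (nat_lit 6533),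
   .der (nat_lit 1122) (nat_lit 6541),
   .der (nat_lit 1122) (nat_lit 6821),
   .der (nat_lit 1122) (nat_lit 8122),
   .der (nat_lit 1122) (nat_lit 9607),
   .der (nat_lit 1299) (nat_lit 8),
   .der (nat_lit 1299) (nat_lit 2356),
   .der (nat_lit 1299) (nat_lit 3118),
   .der (nat_lit 1299) (nat_lit 3120),
   .der (nat_lit 1299) (nat_lit 3305),
   .der (nat_lit 1299) (nat_lit 3579),
   .der (nat_lit 1299) (nat_lit 3999),
   .der (nat_lit 1299) (nat_lit 4092),
   .der (nat_lit 1299) (nat_lit 4111),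
   .der (nat_lit 1299) (nat_lit 4113),
   .der (nat_lit 1299) (nat_lit 4178),
   .der (nat_lit 1299) (nat_lit 4379),
   .der (nat_lit 1299) (nat_lit 4383),
   .der (nat_lit 1299) (nat_lit 5026),
   .der (nat_lit 1299) (nat_lit 5312),
   .der (nat_lit 1299) (nat_lit 5827),
   .der (nat_lit 1299) (nat_lit 5837),
   .der (nat_lit 1299) (nat_lit 5873),
   .der (nat_lit 1299) (nat_lit 5901),
   .der (nat_lit 1299) (nat_lit 5920),
   .der (nat_lit 1299) (nat_lit 5935),
   .der (nat_lit 1299) (nat_lit 6411),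
   .der (nat_lit 1299) (nat_lit 6933),
   .der (nat_lit 1299) (nat_lit 7006),
   .der (nat_lit 1299) (nat_lit 7444),
   .der (nat_lit 1299) (nat_lit 7461),
   .der (nat_lit 1299) (nat_lit 7672),
   .der (nat_lit 1299) (nat_lit 7695),
   .der (nat_lit 1299) (nat_lit 7714),
   .der (nat_lit 1299) (nat_lit 7790),
   .der (nat_lit 1299) (nat_lit 7866),
   .der (nat_lit 1299) (nat_lit 8127),
   .der (nat_lit 1299) (nat_lit 8178),
   .der (nat_lit 1299) (nat_lit 8650),
   .der (nat_lit 1299) (nat_lit 8976),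
   .der (nat_lit 1299) (nat_lit 9224),
   .der (nat_lit 1299) (nat_lit 9314),
   .der (nat_lit 1299) (nat_lit 9662),
   .der (nat_lit 1299) (nat_lit 9668),
   .der (nat_lit 1299) (nat_lit 9890),
   .der (nat_lit 1299) (nat_lit 9908),
   .der (nat_lit 1300) (nat_lit 62),
   .der (nat_lit 1300) (nat_lit 1058),
   .der (nat_lit 1300) (nat_lit 1085),
   .der (nat_lit 1300) (nat_lit 1412),
   .der (nat_lit 1300) (nat_lit 1415),
   .der (nat_lit 1300) (nat_lit 1438),
   .der (nat_lit 1300) (nat_lit 1444),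
   .der (nat_lit 1300) (nat_lit 2040),
   .der (nat_lit 1300) (nat_lit 2210),
   .der (nat_lit 1300) (nat_lit 2838),
   .der (nat_lit 1300) (nat_lit 4065),
   .der (nat_lit 1300) (nat_lit 4178),
   .der (nat_lit 1300) (nat_lit 4379),
   .der (nat_lit 1300) (nat_lit 4383),
   .der (nat_lit 1300) (nat_lit 5901),
   .der (nat_lit 1300) (nat_lit 6072),
   .der (nat_lit 1300) (nat_lit 6474),
   .der (nat_lit 1300) (nat_lit 7461),
   .der (nat_lit 1300) (nat_lit 7599),
   .der (nat_lit 1300) (nat_lit 9056),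
   .der (nat_lit 1380) (nat_lit 1078),
   .der (nat_lit 1380) (nat_lit 1438),
   .der (nat_lit 1380) (nat_lit 1444),
   .der (nat_lit 1380) (nat_lit 1880),
   .der (nat_lit 1380) (nat_lit 2021),
   .der (nat_lit 1380) (nat_lit 2038),
   .der (nat_lit 1380) (nat_lit 2210),
   .der (nat_lit 1380) (nat_lit 2353),
   .der (nat_lit 1380) (nat_lit 2360),
   .der (nat_lit 1380) (nat_lit 3267),
   .der (nat_lit 1380) (nat_lit 3789),
   .der (nat_lit 1380) (nat_lit 5595),
   .der (nat_lit 1380) (nat_lit 5901),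
   .der (nat_lit 1380) (nat_lit 5915),
   .der (nat_lit 1380) (nat_lit 6072),
   .der (nat_lit 1380) (nat_lit 6353),
   .der (nat_lit 1380) (nat_lit 8637),
   .der (nat_lit 1380) (nat_lit 9371),
   .der (nat_lit 1380) (nat_lit 9739),
   .der (nat_lit 1395) (nat_lit 37),
   .der (nat_lit 1395) (nat_lit 417),
   .der (nat_lit 1395) (nat_lit 841),
   .der (nat_lit 1395) (nat_lit 894),
   .der (nat_lit 1395) (nat_lit 967),
   .der (nat_lit 1395) (nat_lit 1155),
   .der (nat_lit 1395) (nat_lit 1546),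
   .der (nat_lit 1395) (nat_lit 2180),
   .der (nat_lit 1395) (nat_lit 2210),
   .der (nat_lit 1395) (nat_lit 2557),
   .der (nat_lit 1395) (nat_lit 3397),
   .der (nat_lit 1395) (nat_lit 3609),
   .der (nat_lit 1395) (nat_lit 3752),
   .der (nat_lit 1395) (nat_lit 4099),
   .der (nat_lit 1395) (nat_lit 4236),
   .der (nat_lit 1395) (nat_lit 4440),
   .der (nat_lit 1395) (nat_lit 5115),
   .der (nat_lit 1395) (nat_lit 5167),
   .der (nat_lit 1395) (nat_lit 5220),
   .der (nat_lit 1395) (nat_lit 6895),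
   .der (nat_lit 1395) (nat_lit 8637),
   .der (nat_lit 1395) (nat_lit 9390),
   .der (nat_lit 1395) (nat_lit 9751),
   .der (nat_lit 1415) (nat_lit 421),
   .der (nat_lit 1415) (nat_lit 907),
   .der (nat_lit 1415) (nat_lit 923),
   .der (nat_lit 1415) (nat_lit 1389),
   .der (nat_lit 1415) (nat_lit 1478),
   .der (nat_lit 1415) (nat_lit 1741),
   .der (nat_lit 1415) (nat_lit 2191),
   .der (nat_lit 1415) (nat_lit 2224),
   .der (nat_lit 1415) (nat_lit 2380),
   .der (nat_lit 1415) (nat_lit 2432),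
   .der (nat_lit 1415) (nat_lit 3229),
   .der (nat_lit 1415) (nat_lit 3273),
   .der (nat_lit 1415) (nat_lit 3609),
   .der (nat_lit 1415) (nat_lit 3622),
   .der (nat_lit 1415) (nat_lit 4039),
   .der (nat_lit 1415) (nat_lit 4123),
   .der (nat_lit 1415) (nat_lit 4263),
   .der (nat_lit 1415) (nat_lit 4339),
   .der (nat_lit 1415) (nat_lit 4365),
   .der (nat_lit 1415) (nat_lit 4431),
   .der (nat_lit 1415) (nat_lit 4570),
   .der (nat_lit 1415) (nat_lit 5216),
   .der (nat_lit 1415) (nat_lit 5388),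
   .der (nat_lit 1415) (nat_lit 7190),
   .der (nat_lit 1415) (nat_lit 7511),
   .der (nat_lit 1415) (nat_lit 7518),
   .der (nat_lit 1415) (nat_lit 8725),
   .der (nat_lit 1415) (nat_lit 8987),
   .der (nat_lit 1415) (nat_lit 9346),
   .der (nat_lit 1430) (nat_lit 172),
   .der (nat_lit 1430) (nat_lit 521),
   .der (nat_lit 1430) (nat_lit 864),
   .der (nat_lit 1430) (nat_lit 921),
   .der (nat_lit 1430) (nat_lit 1088),
   .der (nat_lit 1430) (nat_lit 1428),
   .der (nat_lit 1430) (nat_lit 1461),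
   .der (nat_lit 1430) (nat_lit 1542),
   .der (nat_lit 1430) (nat_lit 1647),
   .der (nat_lit 1430) (nat_lit 2072),
   .der (nat_lit 1430) (nat_lit 2176),
   .der (nat_lit 1430) (nat_lit 2241),
   .der (nat_lit 1430) (nat_lit 2282),
   .der (nat_lit 1430) (nat_lit 2346),
   .der (nat_lit 1430) (nat_lit 2356),
   .der (nat_lit 1430) (nat_lit 2581),
   .der (nat_lit 1430) (nat_lit 3020),
   .der (nat_lit 1430) (nat_lit 3112),
   .der (nat_lit 1430) (nat_lit 3155),
   .der (nat_lit 1430) (nat_lit 3172),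
   .der (nat_lit 1430) (nat_lit 3184),
   .der (nat_lit 1430) (nat_lit 3204),
   .der (nat_lit 1430) (nat_lit 3338),
   .der (nat_lit 1430) (nat_lit 3617),
   .der (nat_lit 1430) (nat_lit 3619)]

theorem b5_step24 (h : ∀ j < 12000, Good b5T j) : ∀ j < 12500, Good b5T j := by
  intro j hj
  refine chkL_ok b5C24 12000 h (by decide +kernel) j ?_
  have h : b5C24.length = 500 := by decide +kernel
  omega

/-- certificates 12500..13000 -/
def b5C25 : List Cf :=
  [.der (nat_lit 1430) (nat_lit 3699),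
   .der (nat_lit 1430) (nat_lit 3748),
   .der (nat_lit 1430) (nat_lit 3996),
   .der (nat_lit 1430) (nat_lit 4032),
   .der (nat_lit 1430) (nat_lit 4035),
   .der (nat_lit 1430) (nat_lit 4071),
   .der (nat_lit 1430) (nat_lit 4184),
   .der (nat_lit 1430) (nat_lit 4233),
   .der (nat_lit 1430) (nat_lit 4263),
   .der (nat_lit 1430) (nat_lit 4343),
   .der (nat_lit 1430) (nat_lit 4398),
   .der (nat_lit 1430) (nat_lit 4588),
   .der (nat_lit 1430) (nat_lit 5026),
   .der (nat_lit 1430) (nat_lit 5194),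
   .der (nat_lit 1430) (nat_lit 5848),
   .der (nat_lit 1430) (nat_lit 6821),
   .der (nat_lit 1430) (nat_lit 6836),
   .der (nat_lit 1430) (nat_lit 7795),
   .der (nat_lit 1430) (nat_lit 9022),
   .der (nat_lit 1430) (nat_lit 9127),
   .der (nat_lit 1554) (nat_lit 1539),
   .der (nat_lit 1554) (nat_lit 1597),
   .der (nat_lit 1554) (nat_lit 1600),
   .der (nat_lit 1554) (nat_lit 1651),
   .der (nat_lit 1554) (nat_lit 2186),
   .der (nat_lit 1554) (nat_lit 2322),
   .der (nat_lit 1554) (nat_lit 2483),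
   .der (nat_lit 1554) (nat_lit 2681),
   .der (nat_lit 1554) (nat_lit 2847),
   .der (nat_lit 1554) (nat_lit 3118),
   .der (nat_lit 1554) (nat_lit 3220),
   .der (nat_lit 1554) (nat_lit 3410),
   .der (nat_lit 1554) (nat_lit 3587),
   .der (nat_lit 1554) (nat_lit 3748),
   .der (nat_lit 1554) (nat_lit 3999),
   .der (nat_lit 1554) (nat_lit 4092),
   .der (nat_lit 1554) (nat_lit 4242),
   .der (nat_lit 1554) (nat_lit 4800),
   .der (nat_lit 1554) (nat_lit 5837),
   .der (nat_lit 1554) (nat_lit 5873),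
   .der (nat_lit 1554) (nat_lit 5894),
   .der (nat_lit 1554) (nat_lit 5917),
   .der (nat_lit 1554) (nat_lit 5920),
   .der (nat_lit 1554) (nat_lit 5935),
   .der (nat_lit 1554) (nat_lit 5953),
   .der (nat_lit 1554) (nat_lit 5976),
   .der (nat_lit 1554) (nat_lit 6111),
   .der (nat_lit 1554) (nat_lit 6157),
   .der (nat_lit 1554) (nat_lit 6211),
   .der (nat_lit 1554) (nat_lit 6557),
   .der (nat_lit 1554) (nat_lit 6666),
   .der (nat_lit 1554) (nat_lit 6848),
   .der (nat_lit 1554) (nat_lit 6879),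
   .der (nat_lit 1554) (nat_lit 6885),
   .der (nat_lit 1554) (nat_lit 6982),
   .der (nat_lit 1554) (nat_lit 7094),
   .der (nat_lit 1554) (nat_lit 7444),
   .der (nat_lit 1554) (nat_lit 7450),
   .der (nat_lit 1554) (nat_lit 7672),
   .der (nat_lit 1554) (nat_lit 7695),
   .der (nat_lit 1554) (nat_lit 7761),
   .der (nat_lit 1554) (nat_lit 7790),
   .der (nat_lit 1554) (nat_lit 8484),
   .der (nat_lit 1554) (nat_lit 8491),
   .der (nat_lit 1554) (nat_lit 8502),
   .der (nat_lit 1554) (nat_lit 9192),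
   .der (nat_lit 1554) (nat_lit 9202),
   .der (nat_lit 1554) (nat_lit 9224),
   .der (nat_lit 1554) (nat_lit 9511),
   .der (nat_lit 1554) (nat_lit 9828),
   .der (nat_lit 1556) (nat_lit 62),
   .der (nat_lit 1556) (nat_lit 72),
   .der (nat_lit 1556) (nat_lit 169),
   .der (nat_lit 1556) (nat_lit 417),
   .der (nat_lit 1556) (nat_lit 864),
   .der (nat_lit 1556) (nat_lit 1444),
   .der (nat_lit 1556) (nat_lit 2377),
   .der (nat_lit 1556) (nat_lit 2380),
   .der (nat_lit 1556) (nat_lit 2386),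
   .der (nat_lit 1556) (nat_lit 2760),
   .der (nat_lit 1556) (nat_lit 3267),
   .der (nat_lit 1556) (nat_lit 3556),
   .der (nat_lit 1556) (nat_lit 4202),
   .der (nat_lit 1556) (nat_lit 5033),
   .der (nat_lit 1556) (nat_lit 5087),
   .der (nat_lit 1556) (nat_lit 5827),
   .der (nat_lit 1556) (nat_lit 5901),
   .der (nat_lit 1556) (nat_lit 5939),
   .der (nat_lit 1556) (nat_lit 5953),
   .der (nat_lit 1556) (nat_lit 5957),
   .der (nat_lit 1556) (nat_lit 6128),
   .der (nat_lit 1556) (nat_lit 6143),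
   .der (nat_lit 1556) (nat_lit 6621),
   .der (nat_lit 1556) (nat_lit 6832),
   .der (nat_lit 1556) (nat_lit 6863),
   .der (nat_lit 1556) (nat_lit 6900),
   .der (nat_lit 1556) (nat_lit 6922),
   .der (nat_lit 1556) (nat_lit 7456),
   .der (nat_lit 1556) (nat_lit 7520),
   .der (nat_lit 1556) (nat_lit 7645),
   .der (nat_lit 1556) (nat_lit 7714),
   .der (nat_lit 1556) (nat_lit 8162),
   .der (nat_lit 1556) (nat_lit 8280),
   .der (nat_lit 1556) (nat_lit 8484),
   .der (nat_lit 1556) (nat_lit 8491),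
   .der (nat_lit 1556) (nat_lit 9240),
   .der (nat_lit 1620) (nat_lit 861),
   .der (nat_lit 1620) (nat_lit 1051),
   .der (nat_lit 1620) (nat_lit 1550),
   .der (nat_lit 1620) (nat_lit 1824),
   .der (nat_lit 1620) (nat_lit 2369),
   .der (nat_lit 1620) (nat_lit 3512),
   .der (nat_lit 1620) (nat_lit 3725),
   .der (nat_lit 1620) (nat_lit 4045),
   .der (nat_lit 1620) (nat_lit 5056),
   .der (nat_lit 1620) (nat_lit 5901),
   .der (nat_lit 1620) (nat_lit 8371),
   .der (nat_lit 1650) (nat_lit 172),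
   .der (nat_lit 1650) (nat_lit 495),
   .der (nat_lit 1650) (nat_lit 894),
   .der (nat_lit 1650) (nat_lit 952),
   .der (nat_lit 1650) (nat_lit 1041),
   .der (nat_lit 1650) (nat_lit 1600),
   .der (nat_lit 1650) (nat_lit 2188),
   .der (nat_lit 1650) (nat_lit 2380),
   .der (nat_lit 1650) (nat_lit 2432),
   .der (nat_lit 1650) (nat_lit 3340),
   .der (nat_lit 1650) (nat_lit 3985),
   .der (nat_lit 1650) (nat_lit 3999),
   .der (nat_lit 1650) (nat_lit 4134),
   .der (nat_lit 1650) (nat_lit 4142),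
   .der (nat_lit 1650) (nat_lit 4339),
   .der (nat_lit 1650) (nat_lit 4365),
   .der (nat_lit 1650) (nat_lit 4398),
   .der (nat_lit 1650) (nat_lit 4563),
   .der (nat_lit 1650) (nat_lit 5052),
   .der (nat_lit 1650) (nat_lit 6353),
   .der (nat_lit 1650) (nat_lit 9371),
   .der (nat_lit 1650) (nat_lit 9761),
   .der (nat_lit 1653) (nat_lit 35),
   .der (nat_lit 1653) (nat_lit 39),
   .der (nat_lit 1653) (nat_lit 64),
   .der (nat_lit 1653) (nat_lit 74),
   .der (nat_lit 1653) (nat_lit 898),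
   .der (nat_lit 1653) (nat_lit 955),
   .der (nat_lit 1653) (nat_lit 992),
   .der (nat_lit 1653) (nat_lit 1309),
   .der (nat_lit 1653) (nat_lit 1409),
   .der (nat_lit 1653) (nat_lit 1647),
   .der (nat_lit 1653) (nat_lit 2464),
   .der (nat_lit 1653) (nat_lit 2526),
   .der (nat_lit 1653) (nat_lit 2691),
   .der (nat_lit 1653) (nat_lit 2747),
   .der (nat_lit 1653) (nat_lit 3132),
   .der (nat_lit 1653) (nat_lit 3245),
   .der (nat_lit 1653) (nat_lit 3255),
   .der (nat_lit 1653) (nat_lit 3579),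
   .der (nat_lit 1653) (nat_lit 3748),
   .der (nat_lit 1653) (nat_lit 3856),
   .der (nat_lit 1653) (nat_lit 4020),
   .der (nat_lit 1653) (nat_lit 4039),
   .der (nat_lit 1653) (nat_lit 4092),
   .der (nat_lit 1653) (nat_lit 4117),
   .der (nat_lit 1653) (nat_lit 4145),
   .der (nat_lit 1653) (nat_lit 4146),
   .der (nat_lit 1653) (nat_lit 4254),
   .der (nat_lit 1653) (nat_lit 4263),
   .der (nat_lit 1653) (nat_lit 4325),
   .der (nat_lit 1653) (nat_lit 4463),
   .der (nat_lit 1653) (nat_lit 4575),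
   .der (nat_lit 1653) (nat_lit 4588),
   .der (nat_lit 1653) (nat_lit 4800),
   .der (nat_lit 1653) (nat_lit 5033),
   .der (nat_lit 1653) (nat_lit 5087),
   .der (nat_lit 1653) (nat_lit 5216),
   .der (nat_lit 1653) (nat_lit 5422),
   .der (nat_lit 1653) (nat_lit 5817),
   .der (nat_lit 1653) (nat_lit 5818),
   .der (nat_lit 1653) (nat_lit 5935),
   .der (nat_lit 1653) (nat_lit 6077),
   .der (nat_lit 1653) (nat_lit 6173),
   .der (nat_lit 1653) (nat_lit 6189),
   .der (nat_lit 1653) (nat_lit 6686),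
   .der (nat_lit 1653) (nat_lit 6850),
   .der (nat_lit 1653) (nat_lit 6906),
   .der (nat_lit 1653) (nat_lit 7560),
   .der (nat_lit 1653) (nat_lit 7592),
   .der (nat_lit 1653) (nat_lit 7708),
   .der (nat_lit 1653) (nat_lit 7761),
   .der (nat_lit 1810) (nat_lit 441),
   .der (nat_lit 1810) (nat_lit 927),
   .der (nat_lit 1810) (nat_lit 992),
   .der (nat_lit 1810) (nat_lit 1399),
   .der (nat_lit 1810) (nat_lit 2201),
   .der (nat_lit 1810) (nat_lit 2203),
   .der (nat_lit 1810) (nat_lit 2241),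
   .der (nat_lit 1810) (nat_lit 2342),
   .der (nat_lit 1810) (nat_lit 2346),
   .der (nat_lit 1810) (nat_lit 2847),
   .der (nat_lit 1810) (nat_lit 3124),
   .der (nat_lit 1810) (nat_lit 3188),
   .der (nat_lit 1810) (nat_lit 3347),
   .der (nat_lit 1810) (nat_lit 3996),
   .der (nat_lit 1810) (nat_lit 4002),
   .der (nat_lit 1810) (nat_lit 4041),
   .der (nat_lit 1810) (nat_lit 4045),
   .der (nat_lit 1810) (nat_lit 4071),
   .der (nat_lit 1810) (nat_lit 4131),
   .der (nat_lit 1810) (nat_lit 4261),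
   .der (nat_lit 1810) (nat_lit 4263),
   .der (nat_lit 1810) (nat_lit 4679),
   .der (nat_lit 1810) (nat_lit 5026),
   .der (nat_lit 1810) (nat_lit 5039),
   .der (nat_lit 1810) (nat_lit 5584),
   .der (nat_lit 1810) (nat_lit 5801),
   .der (nat_lit 1810) (nat_lit 5815),
   .der (nat_lit 1810) (nat_lit 5823),
   .der (nat_lit 1810) (nat_lit 6079),
   .der (nat_lit 1810) (nat_lit 6541),
   .der (nat_lit 1810) (nat_lit 6979),
   .der (nat_lit 1810) (nat_lit 7271),
   .der (nat_lit 1810) (nat_lit 9761),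
   .der (nat_lit 1811) (nat_lit 177),
   .der (nat_lit 1811) (nat_lit 545),
   .der (nat_lit 1811) (nat_lit 936),
   .der (nat_lit 1811) (nat_lit 1400),
   .der (nat_lit 1811) (nat_lit 1928),
   .der (nat_lit 1811) (nat_lit 2227),
   .der (nat_lit 1811) (nat_lit 2229),
   .der (nat_lit 1811) (nat_lit 2353),
   .der (nat_lit 1811) (nat_lit 3988),
   .der (nat_lit 1811) (nat_lit 3996),
   .der (nat_lit 1811) (nat_lit 4045),
   .der (nat_lit 1811) (nat_lit 4145),
   .der (nat_lit 1811) (nat_lit 4504),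
   .der (nat_lit 1811) (nat_lit 4656),
   .der (nat_lit 1811) (nat_lit 5220),
   .der (nat_lit 1811) (nat_lit 5832),
   .der (nat_lit 1811) (nat_lit 6474),
   .der (nat_lit 1811) (nat_lit 6817),
   .der (nat_lit 1811) (nat_lit 8767),
   .der (nat_lit 1811) (nat_lit 8824),
   .der (nat_lit 1811) (nat_lit 9312),
   .der (nat_lit 1811) (nat_lit 9547),
   .der (nat_lit 1811) (nat_lit 9699),
   .der (nat_lit 1875) (nat_lit 417),
   .der (nat_lit 1875) (nat_lit 421),
   .der (nat_lit 1875) (nat_lit 1309),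
   .der (nat_lit 1875) (nat_lit 1428),
   .der (nat_lit 1875) (nat_lit 1824),
   .der (nat_lit 1875) (nat_lit 2210),
   .der (nat_lit 1875) (nat_lit 2356),
   .der (nat_lit 1875) (nat_lit 2585),
   .der (nat_lit 1875) (nat_lit 2660),
   .der (nat_lit 1875) (nat_lit 3132),
   .der (nat_lit 1875) (nat_lit 3184),
   .der (nat_lit 1875) (nat_lit 3199),
   .der (nat_lit 1875) (nat_lit 3347),
   .der (nat_lit 1875) (nat_lit 4005),
   .der (nat_lit 1875) (nat_lit 4020),
   .der (nat_lit 1875) (nat_lit 4035),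
   .der (nat_lit 1875) (nat_lit 4170),
   .der (nat_lit 1875) (nat_lit 4766),
   .der (nat_lit 1875) (nat_lit 4800),
   .der (nat_lit 1875) (nat_lit 5869),
   .der (nat_lit 1890) (nat_lit 95),
   .der (nat_lit 1890) (nat_lit 417),
   .der (nat_lit 1890) (nat_lit 1022),
   .der (nat_lit 1890) (nat_lit 1412),
   .der (nat_lit 1890) (nat_lit 1415),
   .der (nat_lit 1890) (nat_lit 1444),
   .der (nat_lit 1890) (nat_lit 1544),
   .der (nat_lit 1890) (nat_lit 2199),
   .der (nat_lit 1890) (nat_lit 2210),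
   .der (nat_lit 1890) (nat_lit 2227),
   .der (nat_lit 1890) (nat_lit 2786),
   .der (nat_lit 1890) (nat_lit 2812),
   .der (nat_lit 1890) (nat_lit 3273),
   .der (nat_lit 1890) (nat_lit 3609),
   .der (nat_lit 1890) (nat_lit 4048),
   .der (nat_lit 1890) (nat_lit 4268),
   .der (nat_lit 1890) (nat_lit 4602),
   .der (nat_lit 1890) (nat_lit 4679),
   .der (nat_lit 1890) (nat_lit 5029),
   .der (nat_lit 1890) (nat_lit 5178),
   .der (nat_lit 1890) (nat_lit 5858),
   .der (nat_lit 1890) (nat_lit 6079),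
   .der (nat_lit 1890) (nat_lit 7494),
   .der (nat_lit 1890) (nat_lit 8785),
   .der (nat_lit 1890) (nat_lit 9547),
   .der (nat_lit 1890) (nat_lit 9864),
   .der (nat_lit 1893) (nat_lit 417),
   .der (nat_lit 1893) (nat_lit 421),
   .der (nat_lit 1893) (nat_lit 861),
   .der (nat_lit 1893) (nat_lit 864),
   .der (nat_lit 1893) (nat_lit 1399),
   .der (nat_lit 1893) (nat_lit 2171),
   .der (nat_lit 1893) (nat_lit 2183),
   .der (nat_lit 1893) (nat_lit 2197),
   .der (nat_lit 1893) (nat_lit 3109),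
   .der (nat_lit 1893) (nat_lit 3118),
   .der (nat_lit 1893) (nat_lit 3138),
   .der (nat_lit 1893) (nat_lit 3144),
   .der (nat_lit 1893) (nat_lit 3150),
   .der (nat_lit 1893) (nat_lit 3229),
   .der (nat_lit 1893) (nat_lit 3251),
   .der (nat_lit 1893) (nat_lit 3556),
   .der (nat_lit 1893) (nat_lit 3570),
   .der (nat_lit 1893) (nat_lit 3981),
   .der (nat_lit 1893) (nat_lit 3996),
   .der (nat_lit 1893) (nat_lit 4028),
   .der (nat_lit 1893) (nat_lit 4041),
   .der (nat_lit 1893) (nat_lit 4071),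
   .der (nat_lit 1893) (nat_lit 4170),
   .der (nat_lit 1893) (nat_lit 5421),
   .der (nat_lit 1893) (nat_lit 5815),
   .der (nat_lit 1893) (nat_lit 5823),
   .der (nat_lit 1893) (nat_lit 5848),
   .der (nat_lit 1893) (nat_lit 6002),
   .der (nat_lit 1893) (nat_lit 6817),
   .der (nat_lit 1893) (nat_lit 7233),
   .der (nat_lit 1893) (nat_lit 7464),
   .der (nat_lit 1893) (nat_lit 9006),
   .der (nat_lit 1893) (nat_lit 9235),
   .der (nat_lit 1893) (nat_lit 9331),
   .der (nat_lit 1893) (nat_lit 9376),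
   .der (nat_lit 1893) (nat_lit 9516),
   .der (nat_lit 1893) (nat_lit 9731),
   .der (nat_lit 1893) (nat_lit 9971),
   .der (nat_lit 2068) (nat_lit 39),
   .der (nat_lit 2068) (nat_lit 72),
   .der (nat_lit 2068) (nat_lit 76),
   .der (nat_lit 2068) (nat_lit 172),
   .der (nat_lit 2068) (nat_lit 923),
   .der (nat_lit 2068) (nat_lit 1051),
   .der (nat_lit 2068) (nat_lit 1824),
   .der (nat_lit 2068) (nat_lit 3615),
   .der (nat_lit 2068) (nat_lit 4039),
   .der (nat_lit 2068) (nat_lit 4106),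
   .der (nat_lit 2068) (nat_lit 6872),
   .der (nat_lit 2068) (nat_lit 9044),
   .der (nat_lit 2084) (nat_lit 29),
   .der (nat_lit 2084) (nat_lit 74),
   .der (nat_lit 2084) (nat_lit 974),
   .der (nat_lit 2084) (nat_lit 1421),
   .der (nat_lit 2084) (nat_lit 1475),
   .der (nat_lit 2084) (nat_lit 2760),
   .der (nat_lit 2084) (nat_lit 3116),
   .der (nat_lit 2084) (nat_lit 3229),
   .der (nat_lit 2084) (nat_lit 3236),
   .der (nat_lit 2084) (nat_lit 4257),
   .der (nat_lit 2084) (nat_lit 4383),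
   .der (nat_lit 2084) (nat_lit 5095),
   .der (nat_lit 2084) (nat_lit 5107),
   .der (nat_lit 2084) (nat_lit 5265),
   .der (nat_lit 2084) (nat_lit 5598),
   .der (nat_lit 2084) (nat_lit 5800),
   .der (nat_lit 2084) (nat_lit 5801),
   .der (nat_lit 2084) (nat_lit 5827),
   .der (nat_lit 2084) (nat_lit 5837),
   .der (nat_lit 2084) (nat_lit 5901),
   .der (nat_lit 2084) (nat_lit 5953),
   .der (nat_lit 2084) (nat_lit 7066),
   .der (nat_lit 2084) (nat_lit 7456),
   .der (nat_lit 2084) (nat_lit 7461),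
   .der (nat_lit 2084) (nat_lit 7469),
   .der (nat_lit 2084) (nat_lit 7520),
   .der (nat_lit 2084) (nat_lit 7752),
   .der (nat_lit 2084) (nat_lit 8511),
   .der (nat_lit 2084) (nat_lit 9039),
   .der (nat_lit 2084) (nat_lit 9526),
   .der (nat_lit 2084) (nat_lit 9689),
   .der (nat_lit 2113) (nat_lit 39),
   .der (nat_lit 2113) (nat_lit 1425),
   .der (nat_lit 2113) (nat_lit 1432),
   .der (nat_lit 2113) (nat_lit 1473),
   .der (nat_lit 2113) (nat_lit 1546),
   .der (nat_lit 2113) (nat_lit 1557),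
   .der (nat_lit 2113) (nat_lit 1907),
   .der (nat_lit 2113) (nat_lit 2191),
   .der (nat_lit 2113) (nat_lit 2205),
   .der (nat_lit 2113) (nat_lit 2227),
   .der (nat_lit 2113) (nat_lit 2300),
   .der (nat_lit 2113) (nat_lit 2363),
   .der (nat_lit 2113) (nat_lit 2380),
   .der (nat_lit 2113) (nat_lit 2432),
   .der (nat_lit 2113) (nat_lit 2669),
   .der (nat_lit 2113) (nat_lit 3013),
   .der (nat_lit 2113) (nat_lit 3020),
   .der (nat_lit 2113) (nat_lit 3273),
   .der (nat_lit 2113) (nat_lit 3338),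
   .der (nat_lit 2113) (nat_lit 3609),
   .der (nat_lit 2113) (nat_lit 3996),
   .der (nat_lit 2113) (nat_lit 4092),
   .der (nat_lit 2113) (nat_lit 4263),
   .der (nat_lit 2113) (nat_lit 4365),
   .der (nat_lit 2113) (nat_lit 4570),
   .der (nat_lit 2113) (nat_lit 4602),
   .der (nat_lit 2113) (nat_lit 4700),
   .der (nat_lit 2113) (nat_lit 4740),
   .der (nat_lit 2113) (nat_lit 4758),
   .der (nat_lit 2113) (nat_lit 4840),
   .der (nat_lit 2113) (nat_lit 5601),
   .der (nat_lit 2113) (nat_lit 5850),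
   .der (nat_lit 2113) (nat_lit 7154),
   .der (nat_lit 2113) (nat_lit 7771),
   .der (nat_lit 2113) (nat_lit 9022),
   .der (nat_lit 2113) (nat_lit 9072),
   .der (nat_lit 2113) (nat_lit 9390),
   .der (nat_lit 2113) (nat_lit 9607),
   .der (nat_lit 2135) (nat_lit 64),
   .der (nat_lit 2135) (nat_lit 73),
   .der (nat_lit 2135) (nat_lit 425),
   .der (nat_lit 2135) (nat_lit 873),
   .der (nat_lit 2135) (nat_lit 930),
   .der (nat_lit 2135) (nat_lit 1088),
   .der (nat_lit 2135) (nat_lit 1385),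
   .der (nat_lit 2135) (nat_lit 1409),
   .der (nat_lit 2135) (nat_lit 1432),
   .der (nat_lit 2135) (nat_lit 1448),
   .der (nat_lit 2135) (nat_lit 1546),
   .der (nat_lit 2135) (nat_lit 1597),
   .der (nat_lit 2135) (nat_lit 1880),
   .der (nat_lit 2135) (nat_lit 2171),
   .der (nat_lit 2135) (nat_lit 2183),
   .der (nat_lit 2135) (nat_lit 2188),
   .der (nat_lit 2135) (nat_lit 2192),
   .der (nat_lit 2135) (nat_lit 2203),
   .der (nat_lit 2135) (nat_lit 2332),
   .der (nat_lit 2135) (nat_lit 2380),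
   .der (nat_lit 2135) (nat_lit 2409),
   .der (nat_lit 2135) (nat_lit 3340),
   .der (nat_lit 2135) (nat_lit 3609),
   .der (nat_lit 2135) (nat_lit 3635),
   .der (nat_lit 2135) (nat_lit 4055),
   .der (nat_lit 2135) (nat_lit 4339),
   .der (nat_lit 2135) (nat_lit 4534),
   .der (nat_lit 2135) (nat_lit 4570),
   .der (nat_lit 2135) (nat_lit 4602),
   .der (nat_lit 2135) (nat_lit 4740),
   .der (nat_lit 2135) (nat_lit 5035),
   .der (nat_lit 2135) (nat_lit 5039),
   .der (nat_lit 2135) (nat_lit 5283),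
   .der (nat_lit 2135) (nat_lit 5837),
   .der (nat_lit 2135) (nat_lit 5845),
   .der (nat_lit 2135) (nat_lit 6325),
   .der (nat_lit 2135) (nat_lit 6557),
   .der (nat_lit 2135) (nat_lit 6562),
   .der (nat_lit 2135) (nat_lit 6693),
   .der (nat_lit 2135) (nat_lit 6865),
   .der (nat_lit 2135) (nat_lit 6880),
   .der (nat_lit 2135) (nat_lit 6994),
   .der (nat_lit 2135) (nat_lit 6999),
   .der (nat_lit 2135) (nat_lit 7375),
   .der (nat_lit 2135) (nat_lit 7472),
   .der (nat_lit 2135) (nat_lit 7618),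
   .der (nat_lit 2135) (nat_lit 8212),
   .der (nat_lit 2135) (nat_lit 8658),
   .der (nat_lit 2135) (nat_lit 8700),
   .der (nat_lit 2135) (nat_lit 8963),
   .der (nat_lit 2135) (nat_lit 8995),
   .der (nat_lit 2135) (nat_lit 9044),
   .der (nat_lit 2135) (nat_lit 9063),
   .der (nat_lit 2135) (nat_lit 9072),
   .der (nat_lit 2135) (nat_lit 9296),
   .der (nat_lit 2135) (nat_lit 9309),
   .der (nat_lit 2135) (nat_lit 9346),
   .der (nat_lit 2135) (nat_lit 9390),
   .der (nat_lit 2135) (nat_lit 9539),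
   .der (nat_lit 2135) (nat_lit 9695),
   .der (nat_lit 2135) (nat_lit 9720),
   .der (nat_lit 2135) (nat_lit 9724),
   .der (nat_lit 2135) (nat_lit 9919),
   .der (nat_lit 2193) (nat_lit 1169),
   .der (nat_lit 2193) (nat_lit 1434),
   .der (nat_lit 2193) (nat_lit 1706),
   .der (nat_lit 2193) (nat_lit 1864),
   .der (nat_lit 2193) (nat_lit 1952),
   .der (nat_lit 2193) (nat_lit 2271),
   .der (nat_lit 2193) (nat_lit 2327),
   .der (nat_lit 2193) (nat_lit 2409),
   .der (nat_lit 2193) (nat_lit 2468),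
   .der (nat_lit 2193) (nat_lit 2528),
   .der (nat_lit 2193) (nat_lit 2531),
   .der (nat_lit 2193) (nat_lit 2681),
   .der (nat_lit 2193) (nat_lit 2725),
   .der (nat_lit 2193) (nat_lit 2847),
   .der (nat_lit 2193) (nat_lit 3120),
   .der (nat_lit 2193) (nat_lit 3150),
   .der (nat_lit 2193) (nat_lit 3239),
   .der (nat_lit 2193) (nat_lit 3528),
   .der (nat_lit 2193) (nat_lit 3619),
   .der (nat_lit 2193) (nat_lit 3748),
   .der (nat_lit 2193) (nat_lit 4020),
   .der (nat_lit 2193) (nat_lit 4041),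
   .der (nat_lit 2193) (nat_lit 4131),
   .der (nat_lit 2193) (nat_lit 4292),
   .der (nat_lit 2193) (nat_lit 4325),
   .der (nat_lit 2193) (nat_lit 4423),
   .der (nat_lit 2193) (nat_lit 4463)]

theorem b5_step25 (h : ∀ j < 12500, Good b5T j) : ∀ j < 13000, Good b5T j := by
  intro j hj
  refine chkL_ok b5C25 12500 h (by decide +kernel) j ?_
  have h : b5C25.length = 500 := by decide +kernel
  omega

/-- certificates 13000..13500 -/
def b5C26 : List Cf :=
  [.der (nat_lit 2193) (nat_lit 4684),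
   .der (nat_lit 2193) (nat_lit 4766),
   .der (nat_lit 2193) (nat_lit 5026),
   .der (nat_lit 2193) (nat_lit 5052),
   .der (nat_lit 2193) (nat_lit 5309),
   .der (nat_lit 2193) (nat_lit 5380),
   .der (nat_lit 2193) (nat_lit 5818),
   .der (nat_lit 2193) (nat_lit 5910),
   .der (nat_lit 2193) (nat_lit 6077),
   .der (nat_lit 2193) (nat_lit 6180),
   .der (nat_lit 2193) (nat_lit 6243),
   .der (nat_lit 2193) (nat_lit 6522),
   .der (nat_lit 2193) (nat_lit 6821),
   .der (nat_lit 2193) (nat_lit 6850),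
   .der (nat_lit 2193) (nat_lit 6879),
   .der (nat_lit 2193) (nat_lit 6885),
   .der (nat_lit 2193) (nat_lit 6982),
   .der (nat_lit 2193) (nat_lit 7163),
   .der (nat_lit 2193) (nat_lit 7182),
   .der (nat_lit 2193) (nat_lit 7558),
   .der (nat_lit 2193) (nat_lit 7603),
   .der (nat_lit 2193) (nat_lit 7607),
   .der (nat_lit 2193) (nat_lit 7655),
   .der (nat_lit 2193) (nat_lit 7687),
   .der (nat_lit 2193) (nat_lit 7795),
   .der (nat_lit 2193) (nat_lit 8258),
   .der (nat_lit 2193) (nat_lit 8347),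
   .der (nat_lit 2193) (nat_lit 8418),
   .der (nat_lit 2193) (nat_lit 8591),
   .der (nat_lit 2193) (nat_lit 9028),
   .der (nat_lit 2193) (nat_lit 9346),
   .der (nat_lit 2193) (nat_lit 9526),
   .der (nat_lit 2193) (nat_lit 9704),
   .der (nat_lit 2193) (nat_lit 9828),
   .der (nat_lit 2323) (nat_lit 199),
   .der (nat_lit 2323) (nat_lit 861),
   .der (nat_lit 2323) (nat_lit 1461),
   .der (nat_lit 2323) (nat_lit 2197),
   .der (nat_lit 2323) (nat_lit 2681),
   .der (nat_lit 2323) (nat_lit 2985),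
   .der (nat_lit 2323) (nat_lit 3122),
   .der (nat_lit 2323) (nat_lit 3132),
   .der (nat_lit 2323) (nat_lit 3229),
   .der (nat_lit 2323) (nat_lit 3267),
   .der (nat_lit 2323) (nat_lit 3512),
   .der (nat_lit 2323) (nat_lit 4800),
   .der (nat_lit 2323) (nat_lit 5406),
   .der (nat_lit 2323) (nat_lit 5818),
   .der (nat_lit 2323) (nat_lit 5823),
   .der (nat_lit 2323) (nat_lit 5901),
   .der (nat_lit 2339) (nat_lit 64),
   .der (nat_lit 2339) (nat_lit 72),
   .der (nat_lit 2339) (nat_lit 425),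
   .der (nat_lit 2339) (nat_lit 435),
   .der (nat_lit 2339) (nat_lit 994),
   .der (nat_lit 2339) (nat_lit 1022),
   .der (nat_lit 2339) (nat_lit 1415),
   .der (nat_lit 2339) (nat_lit 1475),
   .der (nat_lit 2339) (nat_lit 1628),
   .der (nat_lit 2339) (nat_lit 2040),
   .der (nat_lit 2339) (nat_lit 2203),
   .der (nat_lit 2339) (nat_lit 2227),
   .der (nat_lit 2339) (nat_lit 2229),
   .der (nat_lit 2339) (nat_lit 4010),
   .der (nat_lit 2339) (nat_lit 4035),
   .der (nat_lit 2339) (nat_lit 4048),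
   .der (nat_lit 2339) (nat_lit 4131),
   .der (nat_lit 2339) (nat_lit 4379),
   .der (nat_lit 2339) (nat_lit 5052),
   .der (nat_lit 2339) (nat_lit 5220),
   .der (nat_lit 2339) (nat_lit 5421),
   .der (nat_lit 2339) (nat_lit 5536),
   .der (nat_lit 2339) (nat_lit 5983),
   .der (nat_lit 2339) (nat_lit 6072),
   .der (nat_lit 2339) (nat_lit 6143),
   .der (nat_lit 2339) (nat_lit 6474),
   .der (nat_lit 2339) (nat_lit 7494),
   .der (nat_lit 2339) (nat_lit 7703),
   .der (nat_lit 2339) (nat_lit 8639),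
   .der (nat_lit 2339) (nat_lit 9006),
   .der (nat_lit 2353) (nat_lit 199),
   .der (nat_lit 2353) (nat_lit 421),
   .der (nat_lit 2353) (nat_lit 861),
   .der (nat_lit 2353) (nat_lit 864),
   .der (nat_lit 2353) (nat_lit 1425),
   .der (nat_lit 2353) (nat_lit 1647),
   .der (nat_lit 2353) (nat_lit 1824),
   .der (nat_lit 2353) (nat_lit 1907),
   .der (nat_lit 2353) (nat_lit 2356),
   .der (nat_lit 2353) (nat_lit 2365),
   .der (nat_lit 2353) (nat_lit 2667),
   .der (nat_lit 2353) (nat_lit 2817),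
   .der (nat_lit 2353) (nat_lit 3155),
   .der (nat_lit 2353) (nat_lit 3158),
   .der (nat_lit 2353) (nat_lit 3699),
   .der (nat_lit 2353) (nat_lit 3996),
   .der (nat_lit 2353) (nat_lit 4002),
   .der (nat_lit 2353) (nat_lit 4035),
   .der (nat_lit 2353) (nat_lit 4041),
   .der (nat_lit 2353) (nat_lit 4094),
   .der (nat_lit 2353) (nat_lit 4263),
   .der (nat_lit 2353) (nat_lit 4268),
   .der (nat_lit 2353) (nat_lit 4325),
   .der (nat_lit 2353) (nat_lit 4588),
   .der (nat_lit 2353) (nat_lit 4641),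
   .der (nat_lit 2353) (nat_lit 4766),
   .der (nat_lit 2353) (nat_lit 4800),
   .der (nat_lit 2353) (nat_lit 5100),
   .der (nat_lit 2353) (nat_lit 5818),
   .der (nat_lit 2353) (nat_lit 5848),
   .der (nat_lit 2353) (nat_lit 6533),
   .der (nat_lit 2353) (nat_lit 6821),
   .der (nat_lit 2353) (nat_lit 7180),
   .der (nat_lit 2353) (nat_lit 7255),
   .der (nat_lit 2353) (nat_lit 8060),
   .der (nat_lit 2390) (nat_lit 1022),
   .der (nat_lit 2390) (nat_lit 1444),
   .der (nat_lit 2390) (nat_lit 1647),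
   .der (nat_lit 2390) (nat_lit 2188),
   .der (nat_lit 2390) (nat_lit 2203),
   .der (nat_lit 2390) (nat_lit 2543),
   .der (nat_lit 2390) (nat_lit 3138),
   .der (nat_lit 2390) (nat_lit 3199),
   .der (nat_lit 2390) (nat_lit 3236),
   .der (nat_lit 2390) (nat_lit 3273),
   .der (nat_lit 2390) (nat_lit 3285),
   .der (nat_lit 2390) (nat_lit 3340),
   .der (nat_lit 2390) (nat_lit 3609),
   .der (nat_lit 2390) (nat_lit 4048),
   .der (nat_lit 2390) (nat_lit 4268),
   .der (nat_lit 2390) (nat_lit 4570),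
   .der (nat_lit 2390) (nat_lit 5067),
   .der (nat_lit 2390) (nat_lit 6030),
   .der (nat_lit 2390) (nat_lit 6079),
   .der (nat_lit 2390) (nat_lit 6083),
   .der (nat_lit 2390) (nat_lit 7692),
   .der (nat_lit 2390) (nat_lit 7701),
   .der (nat_lit 2390) (nat_lit 7913),
   .der (nat_lit 2390) (nat_lit 8226),
   .der (nat_lit 2390) (nat_lit 9504),
   .der (nat_lit 2390) (nat_lit 9646),
   .der (nat_lit 2390) (nat_lit 9884),
   .der (nat_lit 2433) (nat_lit 867),
   .der (nat_lit 2433) (nat_lit 992),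
   .der (nat_lit 2433) (nat_lit 1058),
   .der (nat_lit 2433) (nat_lit 1399),
   .der (nat_lit 2433) (nat_lit 1444),
   .der (nat_lit 2433) (nat_lit 1728),
   .der (nat_lit 2433) (nat_lit 1928),
   .der (nat_lit 2433) (nat_lit 2203),
   .der (nat_lit 2433) (nat_lit 2409),
   .der (nat_lit 2433) (nat_lit 2753),
   .der (nat_lit 2433) (nat_lit 2847),
   .der (nat_lit 2433) (nat_lit 3118),
   .der (nat_lit 2433) (nat_lit 3138),
   .der (nat_lit 2433) (nat_lit 3245),
   .der (nat_lit 2433) (nat_lit 3332),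
   .der (nat_lit 2433) (nat_lit 3340),
   .der (nat_lit 2433) (nat_lit 3996),
   .der (nat_lit 2433) (nat_lit 4020),
   .der (nat_lit 2433) (nat_lit 4041),
   .der (nat_lit 2433) (nat_lit 4131),
   .der (nat_lit 2433) (nat_lit 4184),
   .der (nat_lit 2433) (nat_lit 4369),
   .der (nat_lit 2433) (nat_lit 4408),
   .der (nat_lit 2433) (nat_lit 4504),
   .der (nat_lit 2433) (nat_lit 4766),
   .der (nat_lit 2433) (nat_lit 5321),
   .der (nat_lit 2433) (nat_lit 5463),
   .der (nat_lit 2433) (nat_lit 5807),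
   .der (nat_lit 2433) (nat_lit 5983),
   .der (nat_lit 2433) (nat_lit 6079),
   .der (nat_lit 2433) (nat_lit 6276),
   .der (nat_lit 2433) (nat_lit 6331),
   .der (nat_lit 2433) (nat_lit 6441),
   .der (nat_lit 2433) (nat_lit 6474),
   .der (nat_lit 2433) (nat_lit 6817),
   .der (nat_lit 2433) (nat_lit 6979),
   .der (nat_lit 2433) (nat_lit 6991),
   .der (nat_lit 2433) (nat_lit 7068),
   .der (nat_lit 2433) (nat_lit 7223),
   .der (nat_lit 2433) (nat_lit 8198),
   .der (nat_lit 2433) (nat_lit 8615),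
   .der (nat_lit 2433) (nat_lit 8733),
   .der (nat_lit 2433) (nat_lit 8767),
   .der (nat_lit 2433) (nat_lit 8781),
   .der (nat_lit 2433) (nat_lit 9235),
   .der (nat_lit 2578) (nat_lit 67),
   .der (nat_lit 2578) (nat_lit 172),
   .der (nat_lit 2578) (nat_lit 864),
   .der (nat_lit 2578) (nat_lit 1400),
   .der (nat_lit 2578) (nat_lit 1475),
   .der (nat_lit 2578) (nat_lit 1928),
   .der (nat_lit 2578) (nat_lit 2176),
   .der (nat_lit 2578) (nat_lit 2277),
   .der (nat_lit 2578) (nat_lit 2464),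
   .der (nat_lit 2578) (nat_lit 3118),
   .der (nat_lit 2578) (nat_lit 3285),
   .der (nat_lit 2578) (nat_lit 3413),
   .der (nat_lit 2578) (nat_lit 4010),
   .der (nat_lit 2578) (nat_lit 4048),
   .der (nat_lit 2578) (nat_lit 4131),
   .der (nat_lit 2578) (nat_lit 4145),
   .der (nat_lit 2578) (nat_lit 4365),
   .der (nat_lit 2578) (nat_lit 4504),
   .der (nat_lit 2578) (nat_lit 4712),
   .der (nat_lit 2578) (nat_lit 5033),
   .der (nat_lit 2578) (nat_lit 5681),
   .der (nat_lit 2578) (nat_lit 6143),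
   .der (nat_lit 2578) (nat_lit 6359),
   .der (nat_lit 2578) (nat_lit 6474),
   .der (nat_lit 2578) (nat_lit 6557),
   .der (nat_lit 2578) (nat_lit 6888),
   .der (nat_lit 2578) (nat_lit 6994),
   .der (nat_lit 2578) (nat_lit 7023),
   .der (nat_lit 2578) (nat_lit 7441),
   .der (nat_lit 2578) (nat_lit 7461),
   .der (nat_lit 2578) (nat_lit 7599),
   .der (nat_lit 2578) (nat_lit 7703),
   .der (nat_lit 2578) (nat_lit 7714),
   .der (nat_lit 2578) (nat_lit 8043),
   .der (nat_lit 2578) (nat_lit 8178),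
   .der (nat_lit 2578) (nat_lit 8639),
   .der (nat_lit 2578) (nat_lit 8646),
   .der (nat_lit 2578) (nat_lit 8767),
   .der (nat_lit 2578) (nat_lit 9006),
   .der (nat_lit 2578) (nat_lit 9516),
   .der (nat_lit 2593) (nat_lit 417),
   .der (nat_lit 2593) (nat_lit 465),
   .der (nat_lit 2593) (nat_lit 911),
   .der (nat_lit 2593) (nat_lit 1399),
   .der (nat_lit 2593) (nat_lit 1788),
   .der (nat_lit 2593) (nat_lit 1874),
   .der (nat_lit 2593) (nat_lit 1928),
   .der (nat_lit 2593) (nat_lit 2171),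
   .der (nat_lit 2593) (nat_lit 2180),
   .der (nat_lit 2593) (nat_lit 2203),
   .der (nat_lit 2593) (nat_lit 2205),
   .der (nat_lit 2593) (nat_lit 2227),
   .der (nat_lit 2593) (nat_lit 2229),
   .der (nat_lit 2593) (nat_lit 2238),
   .der (nat_lit 2593) (nat_lit 2277),
   .der (nat_lit 2593) (nat_lit 2346),
   .der (nat_lit 2593) (nat_lit 2464),
   .der (nat_lit 2593) (nat_lit 3118),
   .der (nat_lit 2593) (nat_lit 3138),
   .der (nat_lit 2593) (nat_lit 3279),
   .der (nat_lit 2593) (nat_lit 3389),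
   .der (nat_lit 2593) (nat_lit 3404),
   .der (nat_lit 2593) (nat_lit 3996),
   .der (nat_lit 2593) (nat_lit 3999),
   .der (nat_lit 2593) (nat_lit 4010),
   .der (nat_lit 2593) (nat_lit 4024),
   .der (nat_lit 2593) (nat_lit 4041),
   .der (nat_lit 2593) (nat_lit 4061),
   .der (nat_lit 2593) (nat_lit 4092),
   .der (nat_lit 2593) (nat_lit 4268),
   .der (nat_lit 2593) (nat_lit 4379),
   .der (nat_lit 2593) (nat_lit 4555),
   .der (nat_lit 2593) (nat_lit 4575),
   .der (nat_lit 2593) (nat_lit 4772),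
   .der (nat_lit 2593) (nat_lit 5726),
   .der (nat_lit 2593) (nat_lit 5805),
   .der (nat_lit 2593) (nat_lit 5828),
   .der (nat_lit 2593) (nat_lit 5832),
   .der (nat_lit 2593) (nat_lit 5837),
   .der (nat_lit 2593) (nat_lit 5858),
   .der (nat_lit 2593) (nat_lit 5949),
   .der (nat_lit 2593) (nat_lit 6083),
   .der (nat_lit 2593) (nat_lit 6136),
   .der (nat_lit 2593) (nat_lit 6157),
   .der (nat_lit 2593) (nat_lit 6557),
   .der (nat_lit 2593) (nat_lit 6900),
   .der (nat_lit 2593) (nat_lit 6988),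
   .der (nat_lit 2593) (nat_lit 7049),
   .der (nat_lit 2593) (nat_lit 7447),
   .der (nat_lit 2593) (nat_lit 7654),
   .der (nat_lit 2593) (nat_lit 7776),
   .der (nat_lit 2593) (nat_lit 8147),
   .der (nat_lit 2593) (nat_lit 8275),
   .der (nat_lit 2593) (nat_lit 8611),
   .der (nat_lit 2593) (nat_lit 9864),
   .der (nat_lit 2593) (nat_lit 9942),
   .der (nat_lit 4978) (nat_lit 39),
   .der (nat_lit 4978) (nat_lit 907),
   .der (nat_lit 4978) (nat_lit 1425),
   .der (nat_lit 4978) (nat_lit 1597),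
   .der (nat_lit 4978) (nat_lit 2072),
   .der (nat_lit 4978) (nat_lit 2192),
   .der (nat_lit 4978) (nat_lit 2380),
   .der (nat_lit 4978) (nat_lit 2432),
   .der (nat_lit 4978) (nat_lit 2786),
   .der (nat_lit 4978) (nat_lit 3020),
   .der (nat_lit 4978) (nat_lit 3152),
   .der (nat_lit 4978) (nat_lit 3353),
   .der (nat_lit 4978) (nat_lit 3609),
   .der (nat_lit 4978) (nat_lit 4038),
   .der (nat_lit 4978) (nat_lit 4249),
   .der (nat_lit 4978) (nat_lit 4365),
   .der (nat_lit 4978) (nat_lit 4602),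
   .der (nat_lit 4978) (nat_lit 5467),
   .der (nat_lit 4978) (nat_lit 5510),
   .der (nat_lit 4978) (nat_lit 6533),
   .der (nat_lit 4978) (nat_lit 6551),
   .der (nat_lit 4978) (nat_lit 6645),
   .der (nat_lit 4978) (nat_lit 7938),
   .der (nat_lit 4978) (nat_lit 8603),
   .der (nat_lit 4978) (nat_lit 9563),
   .der (nat_lit 5218) (nat_lit 33),
   .der (nat_lit 5218) (nat_lit 172),
   .der (nat_lit 5218) (nat_lit 861),
   .der (nat_lit 5218) (nat_lit 1409),
   .der (nat_lit 5218) (nat_lit 1428),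
   .der (nat_lit 5218) (nat_lit 1659),
   .der (nat_lit 5218) (nat_lit 1824),
   .der (nat_lit 5218) (nat_lit 2385),
   .der (nat_lit 5218) (nat_lit 2429),
   .der (nat_lit 5218) (nat_lit 3338),
   .der (nat_lit 5218) (nat_lit 3347),
   .der (nat_lit 5218) (nat_lit 3359),
   .der (nat_lit 5218) (nat_lit 4013),
   .der (nat_lit 5218) (nat_lit 4020),
   .der (nat_lit 5218) (nat_lit 4035),
   .der (nat_lit 5218) (nat_lit 4263),
   .der (nat_lit 5218) (nat_lit 4766),
   .der (nat_lit 5218) (nat_lit 4867),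
   .der (nat_lit 5218) (nat_lit 5848),
   .der (nat_lit 5218) (nat_lit 6821),
   .der (nat_lit 5218) (nat_lit 7334),
   .der (nat_lit 5218) (nat_lit 9837),
   .der (nat_lit 5716) (nat_lit 421),
   .der (nat_lit 5716) (nat_lit 861),
   .der (nat_lit 5716) (nat_lit 864),
   .der (nat_lit 5716) (nat_lit 1051),
   .der (nat_lit 5716) (nat_lit 1539),
   .der (nat_lit 5716) (nat_lit 1546),
   .der (nat_lit 5716) (nat_lit 1824),
   .der (nat_lit 5716) (nat_lit 2257),
   .der (nat_lit 5716) (nat_lit 2369),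
   .der (nat_lit 5716) (nat_lit 3144),
   .der (nat_lit 5716) (nat_lit 3273),
   .der (nat_lit 5716) (nat_lit 5823),
   .der (nat_lit 5716) (nat_lit 5901),
   .der (nat_lit 5971) (nat_lit 199),
   .der (nat_lit 5971) (nat_lit 861),
   .der (nat_lit 5971) (nat_lit 1428),
   .der (nat_lit 5971) (nat_lit 1824),
   .der (nat_lit 5971) (nat_lit 2210),
   .der (nat_lit 5971) (nat_lit 3132),
   .der (nat_lit 5971) (nat_lit 3184),
   .der (nat_lit 5971) (nat_lit 3199),
   .der (nat_lit 5971) (nat_lit 3347),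
   .der (nat_lit 5971) (nat_lit 3725),
   .der (nat_lit 5971) (nat_lit 4800),
   .der (nat_lit 5971) (nat_lit 6917),
   .der (nat_lit 5971) (nat_lit 9465),
   .der (nat_lit 9572) (nat_lit 923),
   .der (nat_lit 9572) (nat_lit 1041),
   .der (nat_lit 9572) (nat_lit 1444),
   .der (nat_lit 9572) (nat_lit 1448),
   .der (nat_lit 9572) (nat_lit 1546),
   .der (nat_lit 9572) (nat_lit 2038),
   .der (nat_lit 9572) (nat_lit 2210),
   .der (nat_lit 9572) (nat_lit 2227),
   .der (nat_lit 9572) (nat_lit 2363),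
   .der (nat_lit 9572) (nat_lit 2708),
   .der (nat_lit 9572) (nat_lit 2744),
   .der (nat_lit 9572) (nat_lit 3267),
   .der (nat_lit 9572) (nat_lit 3716),
   .der (nat_lit 9572) (nat_lit 4623),
   .der (nat_lit 9572) (nat_lit 5283),
   .der (nat_lit 9572) (nat_lit 6353),
   .der (nat_lit 9572) (nat_lit 8919),
   .der (nat_lit 9572) (nat_lit 9636),
   .der (nat_lit 9587) (nat_lit 35),
   .der (nat_lit 9587) (nat_lit 960),
   .der (nat_lit 9587) (nat_lit 987),
   .der (nat_lit 9587) (nat_lit 1415),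
   .der (nat_lit 9587) (nat_lit 1425),
   .der (nat_lit 9587) (nat_lit 1546),
   .der (nat_lit 9587) (nat_lit 1667),
   .der (nat_lit 9587) (nat_lit 1880),
   .der (nat_lit 9587) (nat_lit 2038),
   .der (nat_lit 9587) (nat_lit 2188),
   .der (nat_lit 9587) (nat_lit 2380),
   .der (nat_lit 9587) (nat_lit 2564),
   .der (nat_lit 9587) (nat_lit 3122),
   .der (nat_lit 9587) (nat_lit 3273),
   .der (nat_lit 9587) (nat_lit 3609),
   .der (nat_lit 9587) (nat_lit 4252),
   .der (nat_lit 9587) (nat_lit 4575),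
   .der (nat_lit 9587) (nat_lit 4602),
   .der (nat_lit 9587) (nat_lit 4631),
   .der (nat_lit 9587) (nat_lit 5107),
   .der (nat_lit 9587) (nat_lit 5115),
   .der (nat_lit 9587) (nat_lit 5912),
   .der (nat_lit 9587) (nat_lit 6488),
   .der (nat_lit 9587) (nat_lit 7027),
   .der (nat_lit 9587) (nat_lit 7485),
   .der (nat_lit 9587) (nat_lit 8637),
   .der (nat_lit 9587) (nat_lit 8749),
   .der (nat_lit 9587) (nat_lit 9739),
   .der (nat_lit 9587) (nat_lit 9751),
   .der (nat_lit 9587) (nat_lit 9811),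
   .der (nat_lit 10305) (nat_lit 864),
   .der (nat_lit 10305) (nat_lit 907),
   .der (nat_lit 10305) (nat_lit 952),
   .der (nat_lit 10305) (nat_lit 1428),
   .der (nat_lit 10305) (nat_lit 1444),
   .der (nat_lit 10305) (nat_lit 2192),
   .der (nat_lit 10305) (nat_lit 2332),
   .der (nat_lit 10305) (nat_lit 2356),
   .der (nat_lit 10305) (nat_lit 2380),
   .der (nat_lit 10305) (nat_lit 2432),
   .der (nat_lit 10305) (nat_lit 2554),
   .der (nat_lit 10305) (nat_lit 3155),
   .der (nat_lit 10305) (nat_lit 3622),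
   .der (nat_lit 10305) (nat_lit 3694),
   .der (nat_lit 10305) (nat_lit 3699),
   .der (nat_lit 10305) (nat_lit 4031),
   .der (nat_lit 10305) (nat_lit 4134),
   .der (nat_lit 10305) (nat_lit 4202),
   .der (nat_lit 10305) (nat_lit 4263),
   .der (nat_lit 10305) (nat_lit 4365),
   .der (nat_lit 10305) (nat_lit 4534),
   .der (nat_lit 10305) (nat_lit 4570),
   .der (nat_lit 10305) (nat_lit 4588),
   .der (nat_lit 10305) (nat_lit 4641),
   .der (nat_lit 10305) (nat_lit 4652),
   .der (nat_lit 10305) (nat_lit 4743),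
   .der (nat_lit 10305) (nat_lit 5171),
   .der (nat_lit 10305) (nat_lit 5547),
   .der (nat_lit 10305) (nat_lit 5552),
   .der (nat_lit 10305) (nat_lit 5873),
   .der (nat_lit 10305) (nat_lit 5957),
   .der (nat_lit 10305) (nat_lit 6308),
   .der (nat_lit 10305) (nat_lit 6906),
   .der (nat_lit 10305) (nat_lit 7518),
   .der (nat_lit 10305) (nat_lit 8060),
   .der (nat_lit 10305) (nat_lit 8725),
   .der (nat_lit 10545) (nat_lit 67),
   .der (nat_lit 10545) (nat_lit 421),
   .der (nat_lit 10545) (nat_lit 451),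
   .der (nat_lit 10545) (nat_lit 861),
   .der (nat_lit 10545) (nat_lit 864),
   .der (nat_lit 10545) (nat_lit 1428),
   .der (nat_lit 10545) (nat_lit 1461),
   .der (nat_lit 10545) (nat_lit 2205),
   .der (nat_lit 10545) (nat_lit 2356),
   .der (nat_lit 10545) (nat_lit 2409),
   .der (nat_lit 10545) (nat_lit 2669),
   .der (nat_lit 10545) (nat_lit 3120),
   .der (nat_lit 10545) (nat_lit 3199),
   .der (nat_lit 10545) (nat_lit 3204),
   .der (nat_lit 10545) (nat_lit 3338),
   .der (nat_lit 10545) (nat_lit 3359),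
   .der (nat_lit 10545) (nat_lit 3617),
   .der (nat_lit 10545) (nat_lit 3996),
   .der (nat_lit 10545) (nat_lit 4010),
   .der (nat_lit 10545) (nat_lit 4020),
   .der (nat_lit 10545) (nat_lit 4035),
   .der (nat_lit 10545) (nat_lit 4071),
   .der (nat_lit 10545) (nat_lit 4184),
   .der (nat_lit 10545) (nat_lit 4261),
   .der (nat_lit 10545) (nat_lit 4263),
   .der (nat_lit 10545) (nat_lit 4365),
   .der (nat_lit 10545) (nat_lit 4588),
   .der (nat_lit 10545) (nat_lit 4700),
   .der (nat_lit 10545) (nat_lit 4758),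
   .der (nat_lit 10545) (nat_lit 4766),
   .der (nat_lit 10545) (nat_lit 4800),
   .der (nat_lit 10545) (nat_lit 5026),
   .der (nat_lit 10545) (nat_lit 5091),
   .der (nat_lit 10545) (nat_lit 5815),
   .der (nat_lit 10545) (nat_lit 5850),
   .der (nat_lit 10545) (nat_lit 6308),
   .der (nat_lit 10545) (nat_lit 6541),
   .der (nat_lit 10545) (nat_lit 7180),
   .der (nat_lit 10545) (nat_lit 7795),
   .der (nat_lit 10545) (nat_lit 7825),
   .der (nat_lit 10545) (nat_lit 8603),
   .der (nat_lit 10545) (nat_lit 9022),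
   .der (nat_lit 10545) (nat_lit 9314),
   .der (nat_lit 10545) (nat_lit 9607),
   .der (nat_lit 12658) (nat_lit 35),
   .der (nat_lit 12658) (nat_lit 495),
   .der (nat_lit 12658) (nat_lit 864),
   .der (nat_lit 12658) (nat_lit 967),
   .der (nat_lit 12658) (nat_lit 1381),
   .der (nat_lit 12658) (nat_lit 1409),
   .der (nat_lit 12658) (nat_lit 1600),
   .der (nat_lit 12658) (nat_lit 2188),
   .der (nat_lit 12658) (nat_lit 2332),
   .der (nat_lit 12658) (nat_lit 2380),
   .der (nat_lit 12658) (nat_lit 3152),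
   .der (nat_lit 12658) (nat_lit 3999),
   .der (nat_lit 12658) (nat_lit 4142),
   .der (nat_lit 12658) (nat_lit 4325),
   .der (nat_lit 12658) (nat_lit 4365),
   .der (nat_lit 12658) (nat_lit 5229)]

theorem b5_step26 (h : ∀ j < 13000, Good b5T j) : ∀ j < 13500, Good b5T j := by
  intro j hj
  refine chkL_ok b5C26 13000 h (by decide +kernel) j ?_
  have h : b5C26.length = 500 := by decide +kernel
  omega

/-- certificates 13500..14000 -/
def b5C27 : List Cf :=
  [.der (nat_lit 12658) (nat_lit 5283),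
   .der (nat_lit 12658) (nat_lit 6318),
   .der (nat_lit 12658) (nat_lit 6353),
   .der (nat_lit 12658) (nat_lit 7313),
   .der (nat_lit 12658) (nat_lit 8584),
   .der (nat_lit 13345) (nat_lit 421),
   .der (nat_lit 13345) (nat_lit 878),
   .der (nat_lit 13345) (nat_lit 1309),
   .der (nat_lit 13345) (nat_lit 1409),
   .der (nat_lit 13345) (nat_lit 1428),
   .der (nat_lit 13345) (nat_lit 1469),
   .der (nat_lit 13345) (nat_lit 1542),
   .der (nat_lit 13345) (nat_lit 1647),
   .der (nat_lit 13345) (nat_lit 2203),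
   .der (nat_lit 13345) (nat_lit 2667),
   .der (nat_lit 13345) (nat_lit 2691),
   .der (nat_lit 13345) (nat_lit 3155),
   .der (nat_lit 13345) (nat_lit 3184),
   .der (nat_lit 13345) (nat_lit 3220),
   .der (nat_lit 13345) (nat_lit 3604),
   .der (nat_lit 13345) (nat_lit 3748),
   .der (nat_lit 13345) (nat_lit 3991),
   .der (nat_lit 13345) (nat_lit 3996),
   .der (nat_lit 13345) (nat_lit 4020),
   .der (nat_lit 13345) (nat_lit 4092),
   .der (nat_lit 13345) (nat_lit 4117),
   .der (nat_lit 13345) (nat_lit 4170),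
   .der (nat_lit 13345) (nat_lit 4263),
   .der (nat_lit 13345) (nat_lit 4588),
   .der (nat_lit 13345) (nat_lit 4636),
   .der (nat_lit 13345) (nat_lit 4766),
   .der (nat_lit 13345) (nat_lit 4800),
   .der (nat_lit 13345) (nat_lit 4867),
   .der (nat_lit 13345) (nat_lit 4897),
   .der (nat_lit 13345) (nat_lit 5025),
   .der (nat_lit 13345) (nat_lit 5079),
   .der (nat_lit 13345) (nat_lit 5321),
   .der (nat_lit 13345) (nat_lit 5422),
   .der (nat_lit 13345) (nat_lit 5552),
   .der (nat_lit 13345) (nat_lit 5818),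
   .der (nat_lit 13345) (nat_lit 5850),
   .der (nat_lit 13345) (nat_lit 5873),
   .der (nat_lit 13345) (nat_lit 5935),
   .der (nat_lit 13345) (nat_lit 6325),
   .der (nat_lit 13345) (nat_lit 6548),
   .der (nat_lit 13345) (nat_lit 6900),
   .der (nat_lit 13345) (nat_lit 6903),
   .der (nat_lit 13345) (nat_lit 7163),
   .der (nat_lit 13345) (nat_lit 7485),
   .der (nat_lit 13345) (nat_lit 7592),
   .der (nat_lit 13345) (nat_lit 8147),
   .der (nat_lit 13345) (nat_lit 8923),
   .der (nat_lit 16738) (nat_lit 417),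
   .der (nat_lit 16738) (nat_lit 1412),
   .der (nat_lit 16738) (nat_lit 1415),
   .der (nat_lit 16738) (nat_lit 1444),
   .der (nat_lit 16738) (nat_lit 1810),
   .der (nat_lit 16738) (nat_lit 2227),
   .der (nat_lit 16738) (nat_lit 2229),
   .der (nat_lit 16738) (nat_lit 3609),
   .der (nat_lit 16738) (nat_lit 3628),
   .der (nat_lit 16738) (nat_lit 4048),
   .der (nat_lit 16738) (nat_lit 4268),
   .der (nat_lit 16738) (nat_lit 4271),
   .der (nat_lit 16738) (nat_lit 4602),
   .der (nat_lit 16738) (nat_lit 4886),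
   .der (nat_lit 16738) (nat_lit 5973),
   .der (nat_lit 16738) (nat_lit 6079),
   .der (nat_lit 16738) (nat_lit 6807),
   .der (nat_lit 16738) (nat_lit 9677),
   .der (nat_lit 16738) (nat_lit 9724),
   .der (nat_lit 16738) (nat_lit 9864),
   .der (nat_lit 17185) (nat_lit 35),
   .der (nat_lit 17185) (nat_lit 861),
   .der (nat_lit 17185) (nat_lit 927),
   .der (nat_lit 17185) (nat_lit 1074),
   .der (nat_lit 17185) (nat_lit 2171),
   .der (nat_lit 17185) (nat_lit 2203),
   .der (nat_lit 17185) (nat_lit 2227),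
   .der (nat_lit 17185) (nat_lit 2346),
   .der (nat_lit 17185) (nat_lit 2974),
   .der (nat_lit 17185) (nat_lit 3109),
   .der (nat_lit 17185) (nat_lit 3118),
   .der (nat_lit 17185) (nat_lit 3184),
   .der (nat_lit 17185) (nat_lit 3258),
   .der (nat_lit 17185) (nat_lit 3293),
   .der (nat_lit 17185) (nat_lit 3338),
   .der (nat_lit 17185) (nat_lit 3981),
   .der (nat_lit 17185) (nat_lit 3996),
   .der (nat_lit 17185) (nat_lit 4020),
   .der (nat_lit 17185) (nat_lit 4131),
   .der (nat_lit 17185) (nat_lit 4170),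
   .der (nat_lit 17185) (nat_lit 4254),
   .der (nat_lit 17185) (nat_lit 4271),
   .der (nat_lit 17185) (nat_lit 4322),
   .der (nat_lit 17185) (nat_lit 4504),
   .der (nat_lit 17185) (nat_lit 4530),
   .der (nat_lit 17185) (nat_lit 4770),
   .der (nat_lit 17185) (nat_lit 5116),
   .der (nat_lit 17185) (nat_lit 5194),
   .der (nat_lit 17185) (nat_lit 5425),
   .der (nat_lit 17185) (nat_lit 5805),
   .der (nat_lit 17185) (nat_lit 5828),
   .der (nat_lit 17185) (nat_lit 5848),
   .der (nat_lit 17185) (nat_lit 6817),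
   .der (nat_lit 17185) (nat_lit 7160),
   .der (nat_lit 17185) (nat_lit 7599),
   .der (nat_lit 17185) (nat_lit 9092),
   .der (nat_lit 17185) (nat_lit 9547),
   .der (nat_lit 17185) (nat_lit 9731),
   .der (nat_lit 17185) (nat_lit 9950),
   .der (nat_lit 17185) (nat_lit 9971),
   .der (nat_lit 21092) (nat_lit 70),
   .der (nat_lit 21092) (nat_lit 417),
   .der (nat_lit 21092) (nat_lit 843),
   .der (nat_lit 21092) (nat_lit 894),
   .der (nat_lit 21092) (nat_lit 952),
   .der (nat_lit 21092) (nat_lit 1041),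
   .der (nat_lit 21092) (nat_lit 2021),
   .der (nat_lit 21092) (nat_lit 2183),
   .der (nat_lit 21092) (nat_lit 2501),
   .der (nat_lit 21092) (nat_lit 2581),
   .der (nat_lit 21092) (nat_lit 3267),
   .der (nat_lit 21092) (nat_lit 3381),
   .der (nat_lit 21092) (nat_lit 4099),
   .der (nat_lit 21092) (nat_lit 4142),
   .der (nat_lit 21092) (nat_lit 4631),
   .der (nat_lit 21092) (nat_lit 4931),
   .der (nat_lit 21092) (nat_lit 6895),
   .der (nat_lit 21092) (nat_lit 7534),
   .der (nat_lit 21092) (nat_lit 8919),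
   .der (nat_lit 21092) (nat_lit 9044),
   .der (nat_lit 21107) (nat_lit 952),
   .der (nat_lit 21107) (nat_lit 1041),
   .der (nat_lit 21107) (nat_lit 1051),
   .der (nat_lit 21107) (nat_lit 1155),
   .der (nat_lit 21107) (nat_lit 1389),
   .der (nat_lit 21107) (nat_lit 1546),
   .der (nat_lit 21107) (nat_lit 2192),
   .der (nat_lit 21107) (nat_lit 2210),
   .der (nat_lit 21107) (nat_lit 2227),
   .der (nat_lit 21107) (nat_lit 2380),
   .der (nat_lit 21107) (nat_lit 3175),
   .der (nat_lit 21107) (nat_lit 3288),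
   .der (nat_lit 21107) (nat_lit 3789),
   .der (nat_lit 21107) (nat_lit 4134),
   .der (nat_lit 21107) (nat_lit 4252),
   .der (nat_lit 21107) (nat_lit 5095),
   .der (nat_lit 21107) (nat_lit 5115),
   .der (nat_lit 21107) (nat_lit 6580),
   .der (nat_lit 21107) (nat_lit 6895),
   .der (nat_lit 21107) (nat_lit 8987),
   .der (nat_lit 21107) (nat_lit 9044),
   .der (nat_lit 21107) (nat_lit 9309),
   .der (nat_lit 21107) (nat_lit 9677),
   .der (nat_lit 21107) (nat_lit 9695),
   .der (nat_lit 21107) (nat_lit 9811),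
   .der (nat_lit 22548) (nat_lit 39),
   .der (nat_lit 22548) (nat_lit 62),
   .der (nat_lit 22548) (nat_lit 421),
   .der (nat_lit 22548) (nat_lit 837),
   .der (nat_lit 22548) (nat_lit 1051),
   .der (nat_lit 22548) (nat_lit 1704),
   .der (nat_lit 22548) (nat_lit 2120),
   .der (nat_lit 22548) (nat_lit 3267),
   .der (nat_lit 22548) (nat_lit 3306),
   .der (nat_lit 22548) (nat_lit 3725),
   .der (nat_lit 22548) (nat_lit 3988),
   .der (nat_lit 22548) (nat_lit 4031),
   .der (nat_lit 22548) (nat_lit 5053),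
   .der (nat_lit 22548) (nat_lit 5250),
   .der (nat_lit 22548) (nat_lit 5901),
   .der (nat_lit 22548) (nat_lit 6143),
   .der (nat_lit 22548) (nat_lit 8746),
   .der (nat_lit 22548) (nat_lit 9371),
   .der (nat_lit 22803) (nat_lit 76),
   .der (nat_lit 22803) (nat_lit 1070),
   .der (nat_lit 22803) (nat_lit 1542),
   .der (nat_lit 22803) (nat_lit 1824),
   .der (nat_lit 22803) (nat_lit 2210),
   .der (nat_lit 22803) (nat_lit 2342),
   .der (nat_lit 22803) (nat_lit 3150),
   .der (nat_lit 22803) (nat_lit 3251),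
   .der (nat_lit 22803) (nat_lit 3347),
   .der (nat_lit 22803) (nat_lit 4071),
   .der (nat_lit 22803) (nat_lit 4766),
   .der (nat_lit 22803) (nat_lit 5260),
   .der (nat_lit 22803) (nat_lit 6817),
   .der (nat_lit 24916) (nat_lit 10),
   .der (nat_lit 24916) (nat_lit 421),
   .der (nat_lit 24916) (nat_lit 857),
   .der (nat_lit 24916) (nat_lit 1101),
   .der (nat_lit 24916) (nat_lit 2220),
   .der (nat_lit 24916) (nat_lit 3141),
   .der (nat_lit 24916) (nat_lit 3251),
   .der (nat_lit 24916) (nat_lit 3424),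
   .der (nat_lit 24916) (nat_lit 3460),
   .der (nat_lit 24916) (nat_lit 3725),
   .der (nat_lit 24916) (nat_lit 4436),
   .der (nat_lit 24916) (nat_lit 4598),
   .der (nat_lit 24916) (nat_lit 5037),
   .der (nat_lit 24916) (nat_lit 5052),
   .der (nat_lit 24916) (nat_lit 5800),
   .der (nat_lit 24916) (nat_lit 5901),
   .der (nat_lit 24916) (nat_lit 5915),
   .der (nat_lit 24916) (nat_lit 5953),
   .der (nat_lit 24916) (nat_lit 6284),
   .der (nat_lit 24916) (nat_lit 6832),
   .der (nat_lit 24916) (nat_lit 6876),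
   .der (nat_lit 24916) (nat_lit 6956),
   .der (nat_lit 24916) (nat_lit 7461),
   .der (nat_lit 26386) (nat_lit 421),
   .der (nat_lit 26386) (nat_lit 1711),
   .der (nat_lit 26386) (nat_lit 1824),
   .der (nat_lit 26386) (nat_lit 2197),
   .der (nat_lit 26386) (nat_lit 2210),
   .der (nat_lit 26386) (nat_lit 2528),
   .der (nat_lit 26386) (nat_lit 2548),
   .der (nat_lit 26386) (nat_lit 2681),
   .der (nat_lit 26386) (nat_lit 2684),
   .der (nat_lit 26386) (nat_lit 2760),
   .der (nat_lit 26386) (nat_lit 2847),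
   .der (nat_lit 26386) (nat_lit 2985),
   .der (nat_lit 26386) (nat_lit 3133),
   .der (nat_lit 26386) (nat_lit 3176),
   .der (nat_lit 26386) (nat_lit 3267),
   .der (nat_lit 26386) (nat_lit 3410),
   .der (nat_lit 26386) (nat_lit 3604),
   .der (nat_lit 26386) (nat_lit 3748),
   .der (nat_lit 26386) (nat_lit 3996),
   .der (nat_lit 26386) (nat_lit 4020),
   .der (nat_lit 26386) (nat_lit 4092),
   .der (nat_lit 26386) (nat_lit 4094),
   .der (nat_lit 26386) (nat_lit 4139),
   .der (nat_lit 26386) (nat_lit 4292),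
   .der (nat_lit 26386) (nat_lit 4463),
   .der (nat_lit 26386) (nat_lit 4800),
   .der (nat_lit 26386) (nat_lit 5698),
   .der (nat_lit 26386) (nat_lit 5910),
   .der (nat_lit 26386) (nat_lit 5920),
   .der (nat_lit 26386) (nat_lit 5924),
   .der (nat_lit 26386) (nat_lit 5957),
   .der (nat_lit 26386) (nat_lit 6111),
   .der (nat_lit 26386) (nat_lit 6488),
   .der (nat_lit 26386) (nat_lit 6879),
   .der (nat_lit 26386) (nat_lit 6944),
   .der (nat_lit 26386) (nat_lit 7592),
   .der (nat_lit 26386) (nat_lit 7695),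
   .der (nat_lit 26386) (nat_lit 7719),
   .der (nat_lit 26386) (nat_lit 8147),
   .der (nat_lit 26386) (nat_lit 8165),
   .der (nat_lit 26386) (nat_lit 8484),
   .der (nat_lit 29011) (nat_lit 64),
   .der (nat_lit 29011) (nat_lit 1085),
   .der (nat_lit 29011) (nat_lit 1399),
   .der (nat_lit 29011) (nat_lit 1406),
   .der (nat_lit 29011) (nat_lit 1412),
   .der (nat_lit 29011) (nat_lit 1415),
   .der (nat_lit 29011) (nat_lit 1446),
   .der (nat_lit 29011) (nat_lit 2203),
   .der (nat_lit 29011) (nat_lit 2227),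
   .der (nat_lit 29011) (nat_lit 2317),
   .der (nat_lit 29011) (nat_lit 2481),
   .der (nat_lit 29011) (nat_lit 2569),
   .der (nat_lit 29011) (nat_lit 3141),
   .der (nat_lit 29011) (nat_lit 3164),
   .der (nat_lit 29011) (nat_lit 3276),
   .der (nat_lit 29011) (nat_lit 4048),
   .der (nat_lit 29011) (nat_lit 4679),
   .der (nat_lit 29011) (nat_lit 5220),
   .der (nat_lit 29011) (nat_lit 6072),
   .der (nat_lit 29011) (nat_lit 9547),
   .der (nat_lit 30226) (nat_lit 417),
   .der (nat_lit 30226) (nat_lit 441),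
   .der (nat_lit 30226) (nat_lit 861),
   .der (nat_lit 30226) (nat_lit 927),
   .der (nat_lit 30226) (nat_lit 992),
   .der (nat_lit 30226) (nat_lit 1248),
   .der (nat_lit 30226) (nat_lit 1399),
   .der (nat_lit 30226) (nat_lit 1542),
   .der (nat_lit 30226) (nat_lit 2183),
   .der (nat_lit 30226) (nat_lit 2227),
   .der (nat_lit 30226) (nat_lit 2847),
   .der (nat_lit 30226) (nat_lit 3138),
   .der (nat_lit 30226) (nat_lit 3188),
   .der (nat_lit 30226) (nat_lit 3576),
   .der (nat_lit 30226) (nat_lit 3755),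
   .der (nat_lit 30226) (nat_lit 3985),
   .der (nat_lit 30226) (nat_lit 3996),
   .der (nat_lit 30226) (nat_lit 4010),
   .der (nat_lit 30226) (nat_lit 4071),
   .der (nat_lit 30226) (nat_lit 4145),
   .der (nat_lit 30226) (nat_lit 4369),
   .der (nat_lit 30226) (nat_lit 5704),
   .der (nat_lit 30226) (nat_lit 5807),
   .der (nat_lit 30226) (nat_lit 6079),
   .der (nat_lit 30226) (nat_lit 6817),
   .der (nat_lit 30226) (nat_lit 9235),
   .der (nat_lit 30226) (nat_lit 9312),
   .der (nat_lit 30226) (nat_lit 9526),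
   .der (nat_lit 30226) (nat_lit 9547),
   .der (nat_lit 30226) (nat_lit 9699),
   .der (nat_lit 33345) (nat_lit 967),
   .der (nat_lit 33345) (nat_lit 1196),
   .der (nat_lit 33345) (nat_lit 1409),
   .der (nat_lit 33345) (nat_lit 1448),
   .der (nat_lit 33345) (nat_lit 2188),
   .der (nat_lit 33345) (nat_lit 2192),
   .der (nat_lit 33345) (nat_lit 2227),
   .der (nat_lit 33345) (nat_lit 2464),
   .der (nat_lit 33345) (nat_lit 2528),
   .der (nat_lit 33345) (nat_lit 2740),
   .der (nat_lit 33345) (nat_lit 3120),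
   .der (nat_lit 33345) (nat_lit 3340),
   .der (nat_lit 33345) (nat_lit 3609),
   .der (nat_lit 33345) (nat_lit 3789),
   .der (nat_lit 33345) (nat_lit 4032),
   .der (nat_lit 33345) (nat_lit 4035),
   .der (nat_lit 33345) (nat_lit 4149),
   .der (nat_lit 33345) (nat_lit 4263),
   .der (nat_lit 33345) (nat_lit 4339),
   .der (nat_lit 33345) (nat_lit 4743),
   .der (nat_lit 33345) (nat_lit 5035),
   .der (nat_lit 33345) (nat_lit 5052),
   .der (nat_lit 33345) (nat_lit 5171),
   .der (nat_lit 33345) (nat_lit 5229),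
   .der (nat_lit 33345) (nat_lit 5837),
   .der (nat_lit 33345) (nat_lit 6060),
   .der (nat_lit 33345) (nat_lit 6830),
   .der (nat_lit 33345) (nat_lit 6865),
   .der (nat_lit 33345) (nat_lit 6944),
   .der (nat_lit 33345) (nat_lit 6999),
   .der (nat_lit 33345) (nat_lit 7273),
   .der (nat_lit 33345) (nat_lit 7285),
   .der (nat_lit 33345) (nat_lit 7618),
   .der (nat_lit 33345) (nat_lit 8332),
   .der (nat_lit 33345) (nat_lit 8658),
   .der (nat_lit 33345) (nat_lit 8878),
   .der (nat_lit 33345) (nat_lit 8951),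
   .der (nat_lit 33345) (nat_lit 9296),
   .der (nat_lit 34068) (nat_lit 421),
   .der (nat_lit 34068) (nat_lit 864),
   .der (nat_lit 34068) (nat_lit 906),
   .der (nat_lit 34068) (nat_lit 1385),
   .der (nat_lit 34068) (nat_lit 1412),
   .der (nat_lit 34068) (nat_lit 2176),
   .der (nat_lit 34068) (nat_lit 2183),
   .der (nat_lit 34068) (nat_lit 2229),
   .der (nat_lit 34068) (nat_lit 2255),
   .der (nat_lit 34068) (nat_lit 2320),
   .der (nat_lit 34068) (nat_lit 2483),
   .der (nat_lit 34068) (nat_lit 2540),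
   .der (nat_lit 34068) (nat_lit 3305),
   .der (nat_lit 34068) (nat_lit 4145),
   .der (nat_lit 34068) (nat_lit 5033),
   .der (nat_lit 34068) (nat_lit 5052),
   .der (nat_lit 34068) (nat_lit 5087),
   .der (nat_lit 34068) (nat_lit 5107),
   .der (nat_lit 34068) (nat_lit 5800),
   .der (nat_lit 34068) (nat_lit 5801),
   .der (nat_lit 34068) (nat_lit 5843),
   .der (nat_lit 34068) (nat_lit 5901),
   .der (nat_lit 34068) (nat_lit 5915),
   .der (nat_lit 34068) (nat_lit 5939),
   .der (nat_lit 34068) (nat_lit 5953),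
   .der (nat_lit 34068) (nat_lit 6128),
   .der (nat_lit 34068) (nat_lit 6411),
   .der (nat_lit 34068) (nat_lit 7665),
   .der (nat_lit 34068) (nat_lit 8212),
   .der (nat_lit 34068) (nat_lit 8316),
   .der (nat_lit 34068) (nat_lit 8484),
   .der (nat_lit 34068) (nat_lit 8633),
   .der (nat_lit 34068) (nat_lit 9056),
   .der (nat_lit 34068) (nat_lit 9689),
   .der (nat_lit 34068) (nat_lit 9823),
   .der (nat_lit 34068) (nat_lit 9890),
   .der (nat_lit 34068) (nat_lit 9987),
   .der (nat_lit 37425) (nat_lit 448),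
   .der (nat_lit 37425) (nat_lit 586),
   .der (nat_lit 37425) (nat_lit 1022),
   .der (nat_lit 37425) (nat_lit 1047),
   .der (nat_lit 37425) (nat_lit 1444),
   .der (nat_lit 37425) (nat_lit 1456),
   .der (nat_lit 37425) (nat_lit 2180),
   .der (nat_lit 37425) (nat_lit 2188),
   .der (nat_lit 37425) (nat_lit 2199),
   .der (nat_lit 37425) (nat_lit 2210),
   .der (nat_lit 37425) (nat_lit 2222),
   .der (nat_lit 37425) (nat_lit 2227),
   .der (nat_lit 37425) (nat_lit 2317),
   .der (nat_lit 37425) (nat_lit 2363),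
   .der (nat_lit 37425) (nat_lit 3340),
   .der (nat_lit 37425) (nat_lit 3477),
   .der (nat_lit 37425) (nat_lit 3609),
   .der (nat_lit 37425) (nat_lit 3985),
   .der (nat_lit 37425) (nat_lit 4010),
   .der (nat_lit 37425) (nat_lit 4016),
   .der (nat_lit 37425) (nat_lit 4048),
   .der (nat_lit 37425) (nat_lit 4131),
   .der (nat_lit 37425) (nat_lit 4139),
   .der (nat_lit 37425) (nat_lit 4252),
   .der (nat_lit 37425) (nat_lit 4268),
   .der (nat_lit 37425) (nat_lit 4602),
   .der (nat_lit 37425) (nat_lit 5067),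
   .der (nat_lit 37425) (nat_lit 5229),
   .der (nat_lit 37425) (nat_lit 5828),
   .der (nat_lit 37425) (nat_lit 5837),
   .der (nat_lit 37425) (nat_lit 6079),
   .der (nat_lit 37425) (nat_lit 7009),
   .der (nat_lit 37425) (nat_lit 7173),
   .der (nat_lit 37425) (nat_lit 7692),
   .der (nat_lit 37425) (nat_lit 7701),
   .der (nat_lit 37425) (nat_lit 8275),
   .der (nat_lit 37425) (nat_lit 9504),
   .der (nat_lit 37425) (nat_lit 9646),
   .der (nat_lit 37425) (nat_lit 9942),
   .der (nat_lit 38163) (nat_lit 64),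
   .der (nat_lit 38163) (nat_lit 1022),
   .der (nat_lit 38163) (nat_lit 1070),
   .der (nat_lit 38163) (nat_lit 1415),
   .der (nat_lit 38163) (nat_lit 1431),
   .der (nat_lit 38163) (nat_lit 1444),
   .der (nat_lit 38163) (nat_lit 2227),
   .der (nat_lit 38163) (nat_lit 2229),
   .der (nat_lit 38163) (nat_lit 2277),
   .der (nat_lit 38163) (nat_lit 3109),
   .der (nat_lit 38163) (nat_lit 3138),
   .der (nat_lit 38163) (nat_lit 3239),
   .der (nat_lit 38163) (nat_lit 3609),
   .der (nat_lit 38163) (nat_lit 3996),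
   .der (nat_lit 38163) (nat_lit 4048),
   .der (nat_lit 38163) (nat_lit 4103),
   .der (nat_lit 38163) (nat_lit 4504),
   .der (nat_lit 38163) (nat_lit 5220),
   .der (nat_lit 38163) (nat_lit 6072),
   .der (nat_lit 38163) (nat_lit 6079),
   .der (nat_lit 38163) (nat_lit 6143),
   .der (nat_lit 38163) (nat_lit 6474),
   .der (nat_lit 38163) (nat_lit 7599),
   .der (nat_lit 38163) (nat_lit 7703),
   .der (nat_lit 38163) (nat_lit 8226),
   .der (nat_lit 38163) (nat_lit 9003),
   .der (nat_lit 38163) (nat_lit 9312),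
   .der (nat_lit 38163) (nat_lit 9331),
   .der (nat_lit 38163) (nat_lit 9547),
   .der (nat_lit 38163) (nat_lit 9959),
   .der (nat_lit 1) (nat_lit 3579),
   .der (nat_lit 1) (nat_lit 3587),
   .der (nat_lit 1) (nat_lit 4641),
   .der (nat_lit 1) (nat_lit 6839),
   .der (nat_lit 1) (nat_lit 7481),
   .der (nat_lit 1) (nat_lit 9263),
   .der (nat_lit 2) (nat_lit 6895),
   .der (nat_lit 3) (nat_lit 432),
   .der (nat_lit 3) (nat_lit 3120),
   .der (nat_lit 3) (nat_lit 4145),
   .der (nat_lit 3) (nat_lit 5928),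
   .der (nat_lit 3) (nat_lit 6810),
   .der (nat_lit 4) (nat_lit 448),
   .der (nat_lit 4) (nat_lit 3199),
   .der (nat_lit 5) (nat_lit 2540),
   .der (nat_lit 5) (nat_lit 5912),
   .der (nat_lit 6) (nat_lit 6079),
   .der (nat_lit 8) (nat_lit 3748),
   .der (nat_lit 9) (nat_lit 3184),
   .der (nat_lit 9) (nat_lit 8729),
   .der (nat_lit 10) (nat_lit 1788),
   .der (nat_lit 10) (nat_lit 4131),
   .der (nat_lit 10) (nat_lit 5429),
   .der (nat_lit 10) (nat_lit 7722),
   .der (nat_lit 10) (nat_lit 9959),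
   .der (nat_lit 18) (nat_lit 4178),
   .der (nat_lit 19) (nat_lit 5894),
   .der (nat_lit 33) (nat_lit 6557),
   .der (nat_lit 35) (nat_lit 4339),
   .der (nat_lit 36) (nat_lit 952),
   .der (nat_lit 36) (nat_lit 5837),
   .der (nat_lit 49) (nat_lit 7485),
   .der (nat_lit 49) (nat_lit 7528),
   .der (nat_lit 49) (nat_lit 9453),
   .der (nat_lit 50) (nat_lit 4145),
   .der (nat_lit 50) (nat_lit 6488),
   .der (nat_lit 50) (nat_lit 6832),
   .der (nat_lit 52) (nat_lit 39),
   .der (nat_lit 52) (nat_lit 3999),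
   .der (nat_lit 52) (nat_lit 5100),
   .der (nat_lit 65) (nat_lit 2210),
   .der (nat_lit 66) (nat_lit 1419),
   .der (nat_lit 66) (nat_lit 2307),
   .der (nat_lit 66) (nat_lit 3460),
   .der (nat_lit 66) (nat_lit 4020),
   .der (nat_lit 66) (nat_lit 4766),
   .der (nat_lit 66) (nat_lit 4800),
   .der (nat_lit 67) (nat_lit 992),
   .der (nat_lit 67) (nat_lit 1558),
   .der (nat_lit 83) (nat_lit 907),
   .der (nat_lit 83) (nat_lit 3120),
   .der (nat_lit 84) (nat_lit 2210),
   .der (nat_lit 84) (nat_lit 3236),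
   .der (nat_lit 84) (nat_lit 4067)]

theorem b5_step27 (h : ∀ j < 13500, Good b5T j) : ∀ j < 14000, Good b5T j := by
  intro j hj
  refine chkL_ok b5C27 13500 h (by decide +kernel) j ?_
  have h : b5C27.length = 500 := by decide +kernel
  omega


end Tab

end Pool.Agent.Work.MP_bf01b2_co.MR
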