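import Pool.Agent.Work.MP_bf01b2_co.MR.B5T

set_option maxRecDepth 100000

namespace Pool.Agent.Work.MP_bf01b2_co.MR

namespace Tab

/-- certificates 14000..14500 -/
def b5C28 : List Cf :=
  [.der (nat_lit 86) (nat_lit 9811),
   .der (nat_lit 87) (nat_lit 2188),
   .der (nat_lit 87) (nat_lit 5928),
   .der (nat_lit 100) (nat_lit 2360),
   .der (nat_lit 100) (nat_lit 3267),
   .der (nat_lit 101) (nat_lit 5912),
   .der (nat_lit 114) (nat_lit 1022),
   .der (nat_lit 114) (nat_lit 4544),
   .der (nat_lit 118) (nat_lit 172),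
   .der (nat_lit 118) (nat_lit 3273),
   .der (nat_lit 118) (nat_lit 6079),
   .der (nat_lit 132) (nat_lit 74),
   .der (nat_lit 137) (nat_lit 6111),
   .der (nat_lit 147) (nat_lit 6488),
   .der (nat_lit 147) (nat_lit 6848),
   .der (nat_lit 147) (nat_lit 7485),
   .der (nat_lit 152) (nat_lit 271),
   .der (nat_lit 152) (nat_lit 8171),
   .der (nat_lit 152) (nat_lit 8615),
   .der (nat_lit 161) (nat_lit 3389),
   .der (nat_lit 161) (nat_lit 5229),
   .der (nat_lit 162) (nat_lit 3999),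
   .der (nat_lit 162) (nat_lit 9504),
   .der (nat_lit 339) (nat_lit 907),
   .der (nat_lit 339) (nat_lit 4339),
   .der (nat_lit 339) (nat_lit 5953),
   .der (nat_lit 339) (nat_lit 7461),
   .der (nat_lit 340) (nat_lit 1085),
   .der (nat_lit 354) (nat_lit 7485),
   .der (nat_lit 354) (nat_lit 7528),
   .der (nat_lit 354) (nat_lit 9511),
   .der (nat_lit 370) (nat_lit 74),
   .der (nat_lit 370) (nat_lit 4134),
   .der (nat_lit 370) (nat_lit 4252),
   .der (nat_lit 371) (nat_lit 2180),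
   .der (nat_lit 371) (nat_lit 3609),
   .der (nat_lit 561) (nat_lit 4236),
   .der (nat_lit 561) (nat_lit 4402),
   .der (nat_lit 561) (nat_lit 6557),
   .der (nat_lit 627) (nat_lit 73),
   .der (nat_lit 627) (nat_lit 2210),
   .der (nat_lit 627) (nat_lit 6895),
   .der (nat_lit 659) (nat_lit 59),
   .der (nat_lit 659) (nat_lit 82),
   .der (nat_lit 659) (nat_lit 146),
   .der (nat_lit 659) (nat_lit 1400),
   .der (nat_lit 659) (nat_lit 1428),
   .der (nat_lit 659) (nat_lit 3141),
   .der (nat_lit 659) (nat_lit 3996),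
   .der (nat_lit 659) (nat_lit 4800),
   .der (nat_lit 801) (nat_lit 1542),
   .der (nat_lit 801) (nat_lit 3595),
   .der (nat_lit 801) (nat_lit 6325),
   .der (nat_lit 801) (nat_lit 9202),
   .der (nat_lit 833) (nat_lit 64),
   .der (nat_lit 833) (nat_lit 1428),
   .der (nat_lit 833) (nat_lit 4339),
   .der (nat_lit 833) (nat_lit 5229),
   .der (nat_lit 833) (nat_lit 5973),
   .der (nat_lit 833) (nat_lit 7641),
   .der (nat_lit 834) (nat_lit 3220),
   .der (nat_lit 852) (nat_lit 4316),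
   .der (nat_lit 852) (nat_lit 7461),
   .der (nat_lit 1057) (nat_lit 1428),
   .der (nat_lit 1057) (nat_lit 2409),
   .der (nat_lit 1073) (nat_lit 172),
   .der (nat_lit 1073) (nat_lit 1728),
   .der (nat_lit 1073) (nat_lit 9032),
   .der (nat_lit 1074) (nat_lit 3138),
   .der (nat_lit 1074) (nat_lit 3285),
   .der (nat_lit 1107) (nat_lit 4020),
   .der (nat_lit 1122) (nat_lit 421),
   .der (nat_lit 1122) (nat_lit 1428),
   .der (nat_lit 1122) (nat_lit 1461),
   .der (nat_lit 1122) (nat_lit 4263),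
   .der (nat_lit 1299) (nat_lit 9531),
   .der (nat_lit 1380) (nat_lit 952),
   .der (nat_lit 1380) (nat_lit 2227),
   .der (nat_lit 1395) (nat_lit 3270),
   .der (nat_lit 1395) (nat_lit 5873),
   .der (nat_lit 1554) (nat_lit 5924),
   .der (nat_lit 1554) (nat_lit 8120),
   .der (nat_lit 1556) (nat_lit 5989),
   .der (nat_lit 1620) (nat_lit 417),
   .der (nat_lit 1620) (nat_lit 3175),
   .der (nat_lit 1620) (nat_lit 4134),
   .der (nat_lit 1620) (nat_lit 5053),
   .der (nat_lit 1650) (nat_lit 2614),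
   .der (nat_lit 1650) (nat_lit 4236),
   .der (nat_lit 1650) (nat_lit 4602),
   .der (nat_lit 1653) (nat_lit 2760),
   .der (nat_lit 1653) (nat_lit 4103),
   .der (nat_lit 1653) (nat_lit 5928),
   .der (nat_lit 1811) (nat_lit 992),
   .der (nat_lit 1875) (nat_lit 861),
   .der (nat_lit 1875) (nat_lit 2494),
   .der (nat_lit 1875) (nat_lit 6488),
   .der (nat_lit 1875) (nat_lit 7485),
   .der (nat_lit 1890) (nat_lit 2262),
   .der (nat_lit 1890) (nat_lit 2503),
   .der (nat_lit 1893) (nat_lit 8691),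
   .der (nat_lit 2068) (nat_lit 1428),
   .der (nat_lit 2068) (nat_lit 2369),
   .der (nat_lit 2084) (nat_lit 1484),
   .der (nat_lit 2084) (nat_lit 3579),
   .der (nat_lit 2084) (nat_lit 6072),
   .der (nat_lit 2113) (nat_lit 2192),
   .der (nat_lit 2113) (nat_lit 2747),
   .der (nat_lit 2113) (nat_lit 4766),
   .der (nat_lit 2135) (nat_lit 4386),
   .der (nat_lit 2135) (nat_lit 9811),
   .der (nat_lit 2193) (nat_lit 1409),
   .der (nat_lit 2193) (nat_lit 6280),
   .der (nat_lit 2193) (nat_lit 6828),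
   .der (nat_lit 2323) (nat_lit 76),
   .der (nat_lit 2323) (nat_lit 7481),
   .der (nat_lit 2353) (nat_lit 897),
   .der (nat_lit 2353) (nat_lit 3220),
   .der (nat_lit 2353) (nat_lit 5026),
   .der (nat_lit 2390) (nat_lit 4379),
   .der (nat_lit 2390) (nat_lit 7218),
   .der (nat_lit 2433) (nat_lit 7641),
   .der (nat_lit 2578) (nat_lit 448),
   .der (nat_lit 2578) (nat_lit 1309),
   .der (nat_lit 2578) (nat_lit 4339),
   .der (nat_lit 2578) (nat_lit 9504),
   .der (nat_lit 2593) (nat_lit 8923),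
   .der (nat_lit 2593) (nat_lit 9884),
   .der (nat_lit 4978) (nat_lit 35),
   .der (nat_lit 4978) (nat_lit 417),
   .der (nat_lit 4978) (nat_lit 1392),
   .der (nat_lit 4978) (nat_lit 5406),
   .der (nat_lit 5218) (nat_lit 864),
   .der (nat_lit 5218) (nat_lit 2180),
   .der (nat_lit 5218) (nat_lit 3112),
   .der (nat_lit 5218) (nat_lit 4800),
   .der (nat_lit 5218) (nat_lit 5026),
   .der (nat_lit 5716) (nat_lit 3357),
   .der (nat_lit 5971) (nat_lit 2369),
   .der (nat_lit 5971) (nat_lit 2376),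
   .der (nat_lit 5971) (nat_lit 3619),
   .der (nat_lit 5971) (nat_lit 8488),
   .der (nat_lit 9587) (nat_lit 67),
   .der (nat_lit 9587) (nat_lit 3789),
   .der (nat_lit 9587) (nat_lit 4048),
   .der (nat_lit 10305) (nat_lit 3609),
   .der (nat_lit 10305) (nat_lit 6112),
   .der (nat_lit 10545) (nat_lit 2203),
   .der (nat_lit 10545) (nat_lit 3347),
   .der (nat_lit 10545) (nat_lit 8488),
   .der (nat_lit 12658) (nat_lit 960),
   .der (nat_lit 12658) (nat_lit 1444),
   .der (nat_lit 12658) (nat_lit 4339),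
   .der (nat_lit 13345) (nat_lit 1928),
   .der (nat_lit 13345) (nat_lit 2913),
   .der (nat_lit 16738) (nat_lit 1728),
   .der (nat_lit 16738) (nat_lit 2262),
   .der (nat_lit 17185) (nat_lit 421),
   .der (nat_lit 17185) (nat_lit 2740),
   .der (nat_lit 17185) (nat_lit 5807),
   .der (nat_lit 17185) (nat_lit 6322),
   .der (nat_lit 17185) (nat_lit 9032),
   .der (nat_lit 21092) (nat_lit 1431),
   .der (nat_lit 21092) (nat_lit 7461),
   .der (nat_lit 22803) (nat_lit 1051),
   .der (nat_lit 24916) (nat_lit 907),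
   .der (nat_lit 26386) (nat_lit 2365),
   .der (nat_lit 29011) (nat_lit 2229),
   .der (nat_lit 33345) (nat_lit 421),
   .der (nat_lit 34068) (nat_lit 9695),
   .der (nat_lit 34068) (nat_lit 9919),
   .der (nat_lit 1) (nat_lit 1491),
   .der (nat_lit 1) (nat_lit 1880),
   .der (nat_lit 1) (nat_lit 3609),
   .der (nat_lit 1) (nat_lit 5445),
   .der (nat_lit 1) (nat_lit 6200),
   .der (nat_lit 1) (nat_lit 8127),
   .der (nat_lit 2) (nat_lit 3220),
   .der (nat_lit 2) (nat_lit 4035),
   .der (nat_lit 2) (nat_lit 4766),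
   .der (nat_lit 2) (nat_lit 5986),
   .der (nat_lit 2) (nat_lit 7481),
   .der (nat_lit 3) (nat_lit 5894),
   .der (nat_lit 3) (nat_lit 6956),
   .der (nat_lit 4) (nat_lit 3347),
   .der (nat_lit 4) (nat_lit 9724),
   .der (nat_lit 5) (nat_lit 2847),
   .der (nat_lit 5) (nat_lit 9876),
   .der (nat_lit 6) (nat_lit 907),
   .der (nat_lit 6) (nat_lit 3220),
   .der (nat_lit 6) (nat_lit 6390),
   .der (nat_lit 6) (nat_lit 9453),
   .der (nat_lit 7) (nat_lit 3996),
   .der (nat_lit 7) (nat_lit 6006),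
   .der (nat_lit 7) (nat_lit 8753),
   .der (nat_lit 8) (nat_lit 1711),
   .der (nat_lit 8) (nat_lit 2913),
   .der (nat_lit 8) (nat_lit 4146),
   .der (nat_lit 8) (nat_lit 5905),
   .der (nat_lit 8) (nat_lit 6848),
   .der (nat_lit 9) (nat_lit 1450),
   .der (nat_lit 9) (nat_lit 4092),
   .der (nat_lit 10) (nat_lit 3118),
   .der (nat_lit 10) (nat_lit 3999),
   .der (nat_lit 10) (nat_lit 4470),
   .der (nat_lit 10) (nat_lit 7049),
   .der (nat_lit 10) (nat_lit 7641),
   .der (nat_lit 10) (nat_lit 7654),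
   .der (nat_lit 10) (nat_lit 7657),
   .der (nat_lit 10) (nat_lit 8180),
   .der (nat_lit 10) (nat_lit 8620),
   .der (nat_lit 10) (nat_lit 8670),
   .der (nat_lit 18) (nat_lit 1760),
   .der (nat_lit 18) (nat_lit 1928),
   .der (nat_lit 18) (nat_lit 4706),
   .der (nat_lit 18) (nat_lit 5986),
   .der (nat_lit 18) (nat_lit 7033),
   .der (nat_lit 18) (nat_lit 7558),
   .der (nat_lit 20) (nat_lit 984),
   .der (nat_lit 20) (nat_lit 1385),
   .der (nat_lit 20) (nat_lit 2176),
   .der (nat_lit 20) (nat_lit 2183),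
   .der (nat_lit 20) (nat_lit 3109),
   .der (nat_lit 20) (nat_lit 3347),
   .der (nat_lit 20) (nat_lit 4045),
   .der (nat_lit 20) (nat_lit 8700),
   .der (nat_lit 35) (nat_lit 1880),
   .der (nat_lit 35) (nat_lit 9531),
   .der (nat_lit 36) (nat_lit 448),
   .der (nat_lit 36) (nat_lit 2744),
   .der (nat_lit 49) (nat_lit 4236),
   .der (nat_lit 49) (nat_lit 5283),
   .der (nat_lit 49) (nat_lit 6832),
   .der (nat_lit 50) (nat_lit 6956),
   .der (nat_lit 65) (nat_lit 3273),
   .der (nat_lit 65) (nat_lit 3368),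
   .der (nat_lit 65) (nat_lit 3996),
   .der (nat_lit 66) (nat_lit 4369),
   .der (nat_lit 67) (nat_lit 3477),
   .der (nat_lit 83) (nat_lit 4178),
   .der (nat_lit 83) (nat_lit 6557),
   .der (nat_lit 84) (nat_lit 981),
   .der (nat_lit 84) (nat_lit 2847),
   .der (nat_lit 84) (nat_lit 6072),
   .der (nat_lit 84) (nat_lit 9569),
   .der (nat_lit 86) (nat_lit 3999),
   .der (nat_lit 86) (nat_lit 9282),
   .der (nat_lit 86) (nat_lit 9537),
   .der (nat_lit 98) (nat_lit 3725),
   .der (nat_lit 98) (nat_lit 5800),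
   .der (nat_lit 98) (nat_lit 7528),
   .der (nat_lit 100) (nat_lit 960),
   .der (nat_lit 101) (nat_lit 2188),
   .der (nat_lit 101) (nat_lit 3595),
   .der (nat_lit 101) (nat_lit 4149),
   .der (nat_lit 101) (nat_lit 5026),
   .der (nat_lit 101) (nat_lit 6077),
   .der (nat_lit 101) (nat_lit 8165),
   .der (nat_lit 103) (nat_lit 64),
   .der (nat_lit 103) (nat_lit 5229),
   .der (nat_lit 103) (nat_lit 7641),
   .der (nat_lit 103) (nat_lit 7752),
   .der (nat_lit 114) (nat_lit 2210),
   .der (nat_lit 114) (nat_lit 4252),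
   .der (nat_lit 115) (nat_lit 1747),
   .der (nat_lit 115) (nat_lit 2180),
   .der (nat_lit 117) (nat_lit 172),
   .der (nat_lit 117) (nat_lit 549),
   .der (nat_lit 117) (nat_lit 1425),
   .der (nat_lit 117) (nat_lit 2180),
   .der (nat_lit 117) (nat_lit 3112),
   .der (nat_lit 117) (nat_lit 4028),
   .der (nat_lit 117) (nat_lit 6331),
   .der (nat_lit 118) (nat_lit 683),
   .der (nat_lit 118) (nat_lit 3122),
   .der (nat_lit 118) (nat_lit 4020),
   .der (nat_lit 118) (nat_lit 9032),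
   .der (nat_lit 129) (nat_lit 4487),
   .der (nat_lit 129) (nat_lit 5873),
   .der (nat_lit 129) (nat_lit 6079),
   .der (nat_lit 132) (nat_lit 72),
   .der (nat_lit 135) (nat_lit 3020),
   .der (nat_lit 135) (nat_lit 4568),
   .der (nat_lit 135) (nat_lit 4766),
   .der (nat_lit 135) (nat_lit 4879),
   .der (nat_lit 137) (nat_lit 1409),
   .der (nat_lit 137) (nat_lit 3155),
   .der (nat_lit 137) (nat_lit 5935),
   .der (nat_lit 137) (nat_lit 8951),
   .der (nat_lit 137) (nat_lit 8987),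
   .der (nat_lit 137) (nat_lit 9346),
   .der (nat_lit 145) (nat_lit 4092),
   .der (nat_lit 145) (nat_lit 4103),
   .der (nat_lit 147) (nat_lit 1051),
   .der (nat_lit 147) (nat_lit 3748),
   .der (nat_lit 147) (nat_lit 5823),
   .der (nat_lit 150) (nat_lit 2526),
   .der (nat_lit 150) (nat_lit 3220),
   .der (nat_lit 152) (nat_lit 2412),
   .der (nat_lit 152) (nat_lit 3338),
   .der (nat_lit 152) (nat_lit 3576),
   .der (nat_lit 152) (nat_lit 4436),
   .der (nat_lit 152) (nat_lit 6991),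
   .der (nat_lit 161) (nat_lit 1022),
   .der (nat_lit 161) (nat_lit 6557),
   .der (nat_lit 161) (nat_lit 7071),
   .der (nat_lit 161) (nat_lit 8650),
   .der (nat_lit 162) (nat_lit 4339),
   .der (nat_lit 162) (nat_lit 7009),
   .der (nat_lit 165) (nat_lit 3451),
   .der (nat_lit 165) (nat_lit 7173),
   .der (nat_lit 165) (nat_lit 8178),
   .der (nat_lit 165) (nat_lit 8923),
   .der (nat_lit 165) (nat_lit 9016),
   .der (nat_lit 165) (nat_lit 9504),
   .der (nat_lit 339) (nat_lit 4145),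
   .der (nat_lit 339) (nat_lit 4149),
   .der (nat_lit 339) (nat_lit 4242),
   .der (nat_lit 340) (nat_lit 1041),
   .der (nat_lit 340) (nat_lit 2227),
   .der (nat_lit 340) (nat_lit 3236),
   .der (nat_lit 340) (nat_lit 9312),
   .der (nat_lit 354) (nat_lit 7461),
   .der (nat_lit 354) (nat_lit 8841),
   .der (nat_lit 356) (nat_lit 421),
   .der (nat_lit 356) (nat_lit 2360),
   .der (nat_lit 356) (nat_lit 3789),
   .der (nat_lit 370) (nat_lit 417),
   .der (nat_lit 371) (nat_lit 39),
   .der (nat_lit 561) (nat_lit 3587),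
   .der (nat_lit 612) (nat_lit 1444),
   .der (nat_lit 612) (nat_lit 3267),
   .der (nat_lit 659) (nat_lit 3132),
   .der (nat_lit 801) (nat_lit 3748),
   .der (nat_lit 801) (nat_lit 5910),
   .der (nat_lit 801) (nat_lit 5924),
   .der (nat_lit 801) (nat_lit 8230),
   .der (nat_lit 833) (nat_lit 2468),
   .der (nat_lit 833) (nat_lit 5924),
   .der (nat_lit 833) (nat_lit 6832),
   .der (nat_lit 834) (nat_lit 4035),
   .der (nat_lit 834) (nat_lit 4142),
   .der (nat_lit 852) (nat_lit 3579),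
   .der (nat_lit 852) (nat_lit 4339),
   .der (nat_lit 852) (nat_lit 5283),
   .der (nat_lit 852) (nat_lit 6211),
   .der (nat_lit 882) (nat_lit 417),
   .der (nat_lit 882) (nat_lit 1030),
   .der (nat_lit 882) (nat_lit 1392),
   .der (nat_lit 882) (nat_lit 1647),
   .der (nat_lit 882) (nat_lit 2210),
   .der (nat_lit 882) (nat_lit 3122),
   .der (nat_lit 882) (nat_lit 3229),
   .der (nat_lit 882) (nat_lit 4134),
   .der (nat_lit 1057) (nat_lit 2327),
   .der (nat_lit 1057) (nat_lit 5247),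
   .der (nat_lit 1057) (nat_lit 9121),
   .der (nat_lit 1073) (nat_lit 1022),
   .der (nat_lit 1073) (nat_lit 3273),
   .der (nat_lit 1073) (nat_lit 6817),
   .der (nat_lit 1122) (nat_lit 39),
   .der (nat_lit 1122) (nat_lit 1837),
   .der (nat_lit 1299) (nat_lit 4339),
   .der (nat_lit 1299) (nat_lit 4772),
   .der (nat_lit 1299) (nat_lit 5283),
   .der (nat_lit 1299) (nat_lit 5406),
   .der (nat_lit 1299) (nat_lit 6557),
   .der (nat_lit 1300) (nat_lit 2744),
   .der (nat_lit 1300) (nat_lit 3999),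
   .der (nat_lit 1300) (nat_lit 5837),
   .der (nat_lit 1300) (nat_lit 8767),
   .der (nat_lit 1300) (nat_lit 9399),
   .der (nat_lit 1380) (nat_lit 1392),
   .der (nat_lit 1380) (nat_lit 1431),
   .der (nat_lit 1415) (nat_lit 2188),
   .der (nat_lit 1415) (nat_lit 5873),
   .der (nat_lit 1430) (nat_lit 1399),
   .der (nat_lit 1430) (nat_lit 1419),
   .der (nat_lit 1430) (nat_lit 1557),
   .der (nat_lit 1430) (nat_lit 7464),
   .der (nat_lit 1430) (nat_lit 8488),
   .der (nat_lit 1554) (nat_lit 2385),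
   .der (nat_lit 1554) (nat_lit 2409),
   .der (nat_lit 1556) (nat_lit 3999),
   .der (nat_lit 1556) (nat_lit 4316),
   .der (nat_lit 1556) (nat_lit 7752),
   .der (nat_lit 1620) (nat_lit 72),
   .der (nat_lit 1620) (nat_lit 1534),
   .der (nat_lit 1620) (nat_lit 2838),
   .der (nat_lit 1650) (nat_lit 37),
   .der (nat_lit 1650) (nat_lit 960),
   .der (nat_lit 1650) (nat_lit 3152),
   .der (nat_lit 1653) (nat_lit 2913),
   .der (nat_lit 1653) (nat_lit 5321),
   .der (nat_lit 1653) (nat_lit 6488),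
   .der (nat_lit 1653) (nat_lit 6982),
   .der (nat_lit 1653) (nat_lit 7060),
   .der (nat_lit 1653) (nat_lit 7444),
   .der (nat_lit 1653) (nat_lit 7714),
   .der (nat_lit 1810) (nat_lit 2194),
   .der (nat_lit 1810) (nat_lit 2307),
   .der (nat_lit 1810) (nat_lit 3184),
   .der (nat_lit 1810) (nat_lit 4020),
   .der (nat_lit 1810) (nat_lit 4766),
   .der (nat_lit 1810) (nat_lit 6817),
   .der (nat_lit 1811) (nat_lit 1399),
   .der (nat_lit 1811) (nat_lit 1557),
   .der (nat_lit 1811) (nat_lit 4783),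
   .der (nat_lit 1811) (nat_lit 7453),
   .der (nat_lit 1875) (nat_lit 4071),
   .der (nat_lit 1890) (nat_lit 1441),
   .der (nat_lit 1890) (nat_lit 1546),
   .der (nat_lit 1890) (nat_lit 1728),
   .der (nat_lit 1890) (nat_lit 3122),
   .der (nat_lit 1890) (nat_lit 6322),
   .der (nat_lit 1890) (nat_lit 7447),
   .der (nat_lit 1893) (nat_lit 2409),
   .der (nat_lit 1893) (nat_lit 2740),
   .der (nat_lit 1893) (nat_lit 3985),
   .der (nat_lit 1893) (nat_lit 4131),
   .der (nat_lit 1893) (nat_lit 4307),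
   .der (nat_lit 1893) (nat_lit 5116),
   .der (nat_lit 1893) (nat_lit 5807),
   .der (nat_lit 1893) (nat_lit 9032),
   .der (nat_lit 2068) (nat_lit 448),
   .der (nat_lit 2068) (nat_lit 4045),
   .der (nat_lit 2068) (nat_lit 5053),
   .der (nat_lit 2068) (nat_lit 5832),
   .der (nat_lit 2084) (nat_lit 4181),
   .der (nat_lit 2113) (nat_lit 3184),
   .der (nat_lit 2135) (nat_lit 4598),
   .der (nat_lit 2135) (nat_lit 8987),
   .der (nat_lit 2135) (nat_lit 9324),
   .der (nat_lit 2135) (nat_lit 9677),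
   .der (nat_lit 2193) (nat_lit 1309),
   .der (nat_lit 2193) (nat_lit 6111),
   .der (nat_lit 2193) (nat_lit 8292),
   .der (nat_lit 2193) (nat_lit 9009),
   .der (nat_lit 2323) (nat_lit 8484),
   .der (nat_lit 2339) (nat_lit 3477),
   .der (nat_lit 2353) (nat_lit 2401),
   .der (nat_lit 2390) (nat_lit 2363),
   .der (nat_lit 2390) (nat_lit 4010),
   .der (nat_lit 2433) (nat_lit 8171),
   .der (nat_lit 2578) (nat_lit 6161),
   .der (nat_lit 2578) (nat_lit 9026),
   .der (nat_lit 2593) (nat_lit 3340),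
   .der (nat_lit 2593) (nat_lit 4131),
   .der (nat_lit 2593) (nat_lit 5220),
   .der (nat_lit 2593) (nat_lit 5983),
   .der (nat_lit 2593) (nat_lit 7444),
   .der (nat_lit 2593) (nat_lit 9646),
   .der (nat_lit 4978) (nat_lit 1030),
   .der (nat_lit 4978) (nat_lit 3338),
   .der (nat_lit 4978) (nat_lit 3619),
   .der (nat_lit 5218) (nat_lit 59),
   .der (nat_lit 5218) (nat_lit 2249),
   .der (nat_lit 5218) (nat_lit 2369),
   .der (nat_lit 5218) (nat_lit 3184),
   .der (nat_lit 5218) (nat_lit 4071),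
   .der (nat_lit 5716) (nat_lit 417),
   .der (nat_lit 5716) (nat_lit 1550),
   .der (nat_lit 5716) (nat_lit 2365),
   .der (nat_lit 5716) (nat_lit 3512),
   .der (nat_lit 5971) (nat_lit 897),
   .der (nat_lit 5971) (nat_lit 4002),
   .der (nat_lit 5971) (nat_lit 4071),
   .der (nat_lit 9572) (nat_lit 7461),
   .der (nat_lit 10305) (nat_lit 2188),
   .der (nat_lit 10545) (nat_lit 1399),
   .der (nat_lit 10545) (nat_lit 2327),
   .der (nat_lit 10545) (nat_lit 7464),
   .der (nat_lit 12658) (nat_lit 5167),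
   .der (nat_lit 13345) (nat_lit 4103),
   .der (nat_lit 21092) (nat_lit 2210),
   .der (nat_lit 21092) (nat_lit 2227),
   .der (nat_lit 22548) (nat_lit 864),
   .der (nat_lit 22548) (nat_lit 923),
   .der (nat_lit 22548) (nat_lit 6128),
   .der (nat_lit 22803) (nat_lit 1399),
   .der (nat_lit 22803) (nat_lit 1428),
   .der (nat_lit 22803) (nat_lit 3175),
   .der (nat_lit 22803) (nat_lit 4263),
   .der (nat_lit 22803) (nat_lit 8488),
   .der (nat_lit 24916) (nat_lit 904),
   .der (nat_lit 24916) (nat_lit 3267),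
   .der (nat_lit 24916) (nat_lit 4339),
   .der (nat_lit 26386) (nat_lit 2320),
   .der (nat_lit 26386) (nat_lit 7901),
   .der (nat_lit 29011) (nat_lit 5858),
   .der (nat_lit 30226) (nat_lit 2203),
   .der (nat_lit 30226) (nat_lit 2409),
   .der (nat_lit 30226) (nat_lit 9032),
   .der (nat_lit 33345) (nat_lit 425),
   .der (nat_lit 34068) (nat_lit 1085),
   .der (nat_lit 34068) (nat_lit 2976),
   .der (nat_lit 34068) (nat_lit 3579),
   .der (nat_lit 34068) (nat_lit 3999),
   .der (nat_lit 34068) (nat_lit 5935),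
   .der (nat_lit 34068) (nat_lit 9828)]

theorem b5_step28 (h : ∀ j < 14000, Good b5T j) : ∀ j < 14500, Good b5T j := by
  intro j hj
  refine chkL_ok b5C28 14000 h (by decide +kernel) j ?_
  have h : b5C28.length = 500 := by decide +kernel
  omega

/-- certificates 14500..15000 -/
def b5C29 : List Cf :=
  [.der (nat_lit 37425) (nat_lit 3418),
   .der (nat_lit 38163) (nat_lit 9516),
   .der (nat_lit 1) (nat_lit 3413),
   .der (nat_lit 1) (nat_lit 5912),
   .der (nat_lit 1) (nat_lit 6903),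
   .der (nat_lit 2) (nat_lit 1022),
   .der (nat_lit 2) (nat_lit 4178),
   .der (nat_lit 2) (nat_lit 4229),
   .der (nat_lit 2) (nat_lit 5953),
   .der (nat_lit 2) (nat_lit 6848),
   .der (nat_lit 2) (nat_lit 8946),
   .der (nat_lit 2) (nat_lit 9224),
   .der (nat_lit 4) (nat_lit 1880),
   .der (nat_lit 4) (nat_lit 9919),
   .der (nat_lit 5) (nat_lit 3579),
   .der (nat_lit 5) (nat_lit 4530),
   .der (nat_lit 5) (nat_lit 8606),
   .der (nat_lit 5) (nat_lit 9531),
   .der (nat_lit 6) (nat_lit 2965),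
   .der (nat_lit 6) (nat_lit 4800),
   .der (nat_lit 6) (nat_lit 7645),
   .der (nat_lit 6) (nat_lit 8502),
   .der (nat_lit 6) (nat_lit 9511),
   .der (nat_lit 7) (nat_lit 2380),
   .der (nat_lit 8) (nat_lit 106),
   .der (nat_lit 8) (nat_lit 123),
   .der (nat_lit 8) (nat_lit 5552),
   .der (nat_lit 9) (nat_lit 1088),
   .der (nat_lit 9) (nat_lit 1252),
   .der (nat_lit 9) (nat_lit 5815),
   .der (nat_lit 10) (nat_lit 4530),
   .der (nat_lit 10) (nat_lit 7692),
   .der (nat_lit 10) (nat_lit 7736),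
   .der (nat_lit 10) (nat_lit 8781),
   .der (nat_lit 18) (nat_lit 10),
   .der (nat_lit 18) (nat_lit 1022),
   .der (nat_lit 18) (nat_lit 2847),
   .der (nat_lit 18) (nat_lit 3404),
   .der (nat_lit 18) (nat_lit 7461),
   .der (nat_lit 19) (nat_lit 5827),
   .der (nat_lit 19) (nat_lit 5976),
   .der (nat_lit 19) (nat_lit 8511),
   .der (nat_lit 19) (nat_lit 9202),
   .der (nat_lit 20) (nat_lit 421),
   .der (nat_lit 20) (nat_lit 1051),
   .der (nat_lit 20) (nat_lit 1550),
   .der (nat_lit 20) (nat_lit 4071),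
   .der (nat_lit 20) (nat_lit 6022),
   .der (nat_lit 33) (nat_lit 2261),
   .der (nat_lit 33) (nat_lit 8580),
   .der (nat_lit 33) (nat_lit 9217),
   .der (nat_lit 33) (nat_lit 9263),
   .der (nat_lit 35) (nat_lit 907),
   .der (nat_lit 35) (nat_lit 8946),
   .der (nat_lit 36) (nat_lit 98),
   .der (nat_lit 36) (nat_lit 4178),
   .der (nat_lit 36) (nat_lit 6072),
   .der (nat_lit 49) (nat_lit 2188),
   .der (nat_lit 49) (nat_lit 2346),
   .der (nat_lit 49) (nat_lit 5809),
   .der (nat_lit 50) (nat_lit 5894),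
   .der (nat_lit 65) (nat_lit 1880),
   .der (nat_lit 66) (nat_lit 2227),
   .der (nat_lit 66) (nat_lit 4045),
   .der (nat_lit 66) (nat_lit 5815),
   .der (nat_lit 66) (nat_lit 7246),
   .der (nat_lit 83) (nat_lit 1478),
   .der (nat_lit 83) (nat_lit 4383),
   .der (nat_lit 83) (nat_lit 5388),
   .der (nat_lit 83) (nat_lit 5827),
   .der (nat_lit 86) (nat_lit 4365),
   .der (nat_lit 86) (nat_lit 4383),
   .der (nat_lit 86) (nat_lit 4772),
   .der (nat_lit 87) (nat_lit 2562),
   .der (nat_lit 87) (nat_lit 5837),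
   .der (nat_lit 87) (nat_lit 8746),
   .der (nat_lit 98) (nat_lit 1724),
   .der (nat_lit 98) (nat_lit 9240),
   .der (nat_lit 98) (nat_lit 9654),
   .der (nat_lit 98) (nat_lit 9896),
   .der (nat_lit 101) (nat_lit 6136),
   .der (nat_lit 101) (nat_lit 8533),
   .der (nat_lit 101) (nat_lit 9376),
   .der (nat_lit 103) (nat_lit 2332),
   .der (nat_lit 103) (nat_lit 3389),
   .der (nat_lit 103) (nat_lit 3587),
   .der (nat_lit 103) (nat_lit 3999),
   .der (nat_lit 103) (nat_lit 5432),
   .der (nat_lit 103) (nat_lit 7528),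
   .der (nat_lit 114) (nat_lit 683),
   .der (nat_lit 114) (nat_lit 1412),
   .der (nat_lit 114) (nat_lit 1550),
   .der (nat_lit 114) (nat_lit 2180),
   .der (nat_lit 114) (nat_lit 2380),
   .der (nat_lit 114) (nat_lit 3229),
   .der (nat_lit 114) (nat_lit 4035),
   .der (nat_lit 114) (nat_lit 4048),
   .der (nat_lit 115) (nat_lit 873),
   .der (nat_lit 117) (nat_lit 307),
   .der (nat_lit 117) (nat_lit 417),
   .der (nat_lit 117) (nat_lit 1054),
   .der (nat_lit 117) (nat_lit 4263),
   .der (nat_lit 117) (nat_lit 4431),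
   .der (nat_lit 117) (nat_lit 5425),
   .der (nat_lit 117) (nat_lit 7464),
   .der (nat_lit 118) (nat_lit 939),
   .der (nat_lit 118) (nat_lit 1560),
   .der (nat_lit 118) (nat_lit 2788),
   .der (nat_lit 118) (nat_lit 4602),
   .der (nat_lit 129) (nat_lit 6933),
   .der (nat_lit 132) (nat_lit 4656),
   .der (nat_lit 132) (nat_lit 5050),
   .der (nat_lit 135) (nat_lit 873),
   .der (nat_lit 135) (nat_lit 2380),
   .der (nat_lit 135) (nat_lit 2432),
   .der (nat_lit 135) (nat_lit 2528),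
   .der (nat_lit 135) (nat_lit 3996),
   .der (nat_lit 137) (nat_lit 3748),
   .der (nat_lit 137) (nat_lit 7518),
   .der (nat_lit 145) (nat_lit 4005),
   .der (nat_lit 145) (nat_lit 8987),
   .der (nat_lit 150) (nat_lit 2560),
   .der (nat_lit 150) (nat_lit 3132),
   .der (nat_lit 152) (nat_lit 4369),
   .der (nat_lit 152) (nat_lit 7817),
   .der (nat_lit 152) (nat_lit 9950),
   .der (nat_lit 161) (nat_lit 5159),
   .der (nat_lit 161) (nat_lit 6393),
   .der (nat_lit 162) (nat_lit 4131),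
   .der (nat_lit 162) (nat_lit 5928),
   .der (nat_lit 162) (nat_lit 5983),
   .der (nat_lit 162) (nat_lit 9516),
   .der (nat_lit 165) (nat_lit 3144),
   .der (nat_lit 165) (nat_lit 9646),
   .der (nat_lit 339) (nat_lit 6810),
   .der (nat_lit 339) (nat_lit 6933),
   .der (nat_lit 339) (nat_lit 9654),
   .der (nat_lit 340) (nat_lit 1076),
   .der (nat_lit 340) (nat_lit 2320),
   .der (nat_lit 340) (nat_lit 2360),
   .der (nat_lit 340) (nat_lit 4189),
   .der (nat_lit 354) (nat_lit 2247),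
   .der (nat_lit 354) (nat_lit 6226),
   .der (nat_lit 354) (nat_lit 6885),
   .der (nat_lit 354) (nat_lit 9240),
   .der (nat_lit 356) (nat_lit 1392),
   .der (nat_lit 370) (nat_lit 955),
   .der (nat_lit 370) (nat_lit 4548),
   .der (nat_lit 371) (nat_lit 37),
   .der (nat_lit 371) (nat_lit 898),
   .der (nat_lit 371) (nat_lit 930),
   .der (nat_lit 561) (nat_lit 2346),
   .der (nat_lit 577) (nat_lit 5912),
   .der (nat_lit 612) (nat_lit 421),
   .der (nat_lit 612) (nat_lit 864),
   .der (nat_lit 612) (nat_lit 1041),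
   .der (nat_lit 612) (nat_lit 2289),
   .der (nat_lit 612) (nat_lit 2317),
   .der (nat_lit 627) (nat_lit 873),
   .der (nat_lit 627) (nat_lit 1550),
   .der (nat_lit 644) (nat_lit 1051),
   .der (nat_lit 644) (nat_lit 2472),
   .der (nat_lit 644) (nat_lit 3306),
   .der (nat_lit 659) (nat_lit 76),
   .der (nat_lit 801) (nat_lit 2346),
   .der (nat_lit 801) (nat_lit 2913),
   .der (nat_lit 801) (nat_lit 4563),
   .der (nat_lit 801) (nat_lit 5045),
   .der (nat_lit 801) (nat_lit 5809),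
   .der (nat_lit 801) (nat_lit 5883),
   .der (nat_lit 833) (nat_lit 1196),
   .der (nat_lit 833) (nat_lit 5336),
   .der (nat_lit 833) (nat_lit 7520),
   .der (nat_lit 833) (nat_lit 8536),
   .der (nat_lit 833) (nat_lit 8552),
   .der (nat_lit 833) (nat_lit 8927),
   .der (nat_lit 834) (nat_lit 2365),
   .der (nat_lit 882) (nat_lit 1597),
   .der (nat_lit 882) (nat_lit 2380),
   .der (nat_lit 1057) (nat_lit 1399),
   .der (nat_lit 1073) (nat_lit 435),
   .der (nat_lit 1073) (nat_lit 4602),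
   .der (nat_lit 1073) (nat_lit 6119),
   .der (nat_lit 1074) (nat_lit 4369),
   .der (nat_lit 1074) (nat_lit 5823),
   .der (nat_lit 1107) (nat_lit 2481),
   .der (nat_lit 1107) (nat_lit 6072),
   .der (nat_lit 1122) (nat_lit 923),
   .der (nat_lit 1122) (nat_lit 5026),
   .der (nat_lit 1299) (nat_lit 10),
   .der (nat_lit 1299) (nat_lit 3404),
   .der (nat_lit 1300) (nat_lit 521),
   .der (nat_lit 1300) (nat_lit 981),
   .der (nat_lit 1300) (nat_lit 1421),
   .der (nat_lit 1300) (nat_lit 3404),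
   .der (nat_lit 1300) (nat_lit 9526),
   .der (nat_lit 1380) (nat_lit 1058),
   .der (nat_lit 1380) (nat_lit 3725),
   .der (nat_lit 1415) (nat_lit 3338),
   .der (nat_lit 1430) (nat_lit 1534),
   .der (nat_lit 1430) (nat_lit 2205),
   .der (nat_lit 1430) (nat_lit 4028),
   .der (nat_lit 1430) (nat_lit 4431),
   .der (nat_lit 1554) (nat_lit 1542),
   .der (nat_lit 1554) (nat_lit 4329),
   .der (nat_lit 1554) (nat_lit 5800),
   .der (nat_lit 1554) (nat_lit 6810),
   .der (nat_lit 1554) (nat_lit 7560),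
   .der (nat_lit 1554) (nat_lit 8127),
   .der (nat_lit 1554) (nat_lit 9526),
   .der (nat_lit 1554) (nat_lit 9636),
   .der (nat_lit 1556) (nat_lit 3175),
   .der (nat_lit 1556) (nat_lit 3404),
   .der (nat_lit 1556) (nat_lit 3725),
   .der (nat_lit 1556) (nat_lit 3988),
   .der (nat_lit 1556) (nat_lit 5312),
   .der (nat_lit 1556) (nat_lit 6615),
   .der (nat_lit 1556) (nat_lit 9636),
   .der (nat_lit 1620) (nat_lit 5823),
   .der (nat_lit 1620) (nat_lit 9616),
   .der (nat_lit 1650) (nat_lit 421),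
   .der (nat_lit 1650) (nat_lit 479),
   .der (nat_lit 1650) (nat_lit 5229),
   .der (nat_lit 1650) (nat_lit 5283),
   .der (nat_lit 1650) (nat_lit 5912),
   .der (nat_lit 1650) (nat_lit 5928),
   .der (nat_lit 1653) (nat_lit 1542),
   .der (nat_lit 1653) (nat_lit 3604),
   .der (nat_lit 1810) (nat_lit 1419),
   .der (nat_lit 1810) (nat_lit 1558),
   .der (nat_lit 1810) (nat_lit 2667),
   .der (nat_lit 1810) (nat_lit 3199),
   .der (nat_lit 1810) (nat_lit 3251),
   .der (nat_lit 1810) (nat_lit 4369),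
   .der (nat_lit 1811) (nat_lit 64),
   .der (nat_lit 1811) (nat_lit 1714),
   .der (nat_lit 1811) (nat_lit 4071),
   .der (nat_lit 1811) (nat_lit 5807),
   .der (nat_lit 1811) (nat_lit 9235),
   .der (nat_lit 1875) (nat_lit 1562),
   .der (nat_lit 1875) (nat_lit 4263),
   .der (nat_lit 1890) (nat_lit 1400),
   .der (nat_lit 1890) (nat_lit 2360),
   .der (nat_lit 1890) (nat_lit 2369),
   .der (nat_lit 1890) (nat_lit 3138),
   .der (nat_lit 1890) (nat_lit 3229),
   .der (nat_lit 1890) (nat_lit 5067),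
   .der (nat_lit 1890) (nat_lit 5220),
   .der (nat_lit 1890) (nat_lit 7173),
   .der (nat_lit 1893) (nat_lit 1560),
   .der (nat_lit 1893) (nat_lit 4398),
   .der (nat_lit 1893) (nat_lit 4766),
   .der (nat_lit 1893) (nat_lit 5029),
   .der (nat_lit 1893) (nat_lit 5425),
   .der (nat_lit 1893) (nat_lit 5805),
   .der (nat_lit 1893) (nat_lit 5828),
   .der (nat_lit 1893) (nat_lit 5932),
   .der (nat_lit 1893) (nat_lit 6821),
   .der (nat_lit 1893) (nat_lit 7767),
   .der (nat_lit 2068) (nat_lit 1533),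
   .der (nat_lit 2068) (nat_lit 1550),
   .der (nat_lit 2068) (nat_lit 3199),
   .der (nat_lit 2068) (nat_lit 3512),
   .der (nat_lit 2068) (nat_lit 4134),
   .der (nat_lit 2068) (nat_lit 4696),
   .der (nat_lit 2068) (nat_lit 6072),
   .der (nat_lit 2084) (nat_lit 2317),
   .der (nat_lit 2084) (nat_lit 3267),
   .der (nat_lit 2084) (nat_lit 4379),
   .der (nat_lit 2113) (nat_lit 873),
   .der (nat_lit 2113) (nat_lit 1088),
   .der (nat_lit 2135) (nat_lit 6301),
   .der (nat_lit 2135) (nat_lit 6353),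
   .der (nat_lit 2193) (nat_lit 84),
   .der (nat_lit 2193) (nat_lit 2346),
   .der (nat_lit 2193) (nat_lit 2438),
   .der (nat_lit 2193) (nat_lit 2483),
   .der (nat_lit 2193) (nat_lit 3118),
   .der (nat_lit 2193) (nat_lit 4103),
   .der (nat_lit 2193) (nat_lit 5949),
   .der (nat_lit 2353) (nat_lit 84),
   .der (nat_lit 2353) (nat_lit 2327),
   .der (nat_lit 2353) (nat_lit 2432),
   .der (nat_lit 2390) (nat_lit 1456),
   .der (nat_lit 2390) (nat_lit 1458),
   .der (nat_lit 2390) (nat_lit 5837),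
   .der (nat_lit 2433) (nat_lit 7767),
   .der (nat_lit 2578) (nat_lit 177),
   .der (nat_lit 2578) (nat_lit 5837),
   .der (nat_lit 2578) (nat_lit 9959),
   .der (nat_lit 2593) (nat_lit 6079),
   .der (nat_lit 2593) (nat_lit 9504),
   .der (nat_lit 4978) (nat_lit 873),
   .der (nat_lit 4978) (nat_lit 3359),
   .der (nat_lit 5218) (nat_lit 897),
   .der (nat_lit 5218) (nat_lit 1534),
   .der (nat_lit 5218) (nat_lit 2205),
   .der (nat_lit 5218) (nat_lit 2376),
   .der (nat_lit 5218) (nat_lit 3619),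
   .der (nat_lit 5716) (nat_lit 1392),
   .der (nat_lit 5971) (nat_lit 4766),
   .der (nat_lit 5971) (nat_lit 6533),
   .der (nat_lit 9572) (nat_lit 421),
   .der (nat_lit 9572) (nat_lit 864),
   .der (nat_lit 9572) (nat_lit 5087),
   .der (nat_lit 9587) (nat_lit 1444),
   .der (nat_lit 9587) (nat_lit 5595),
   .der (nat_lit 10305) (nat_lit 2191),
   .der (nat_lit 10305) (nat_lit 5280),
   .der (nat_lit 10545) (nat_lit 84),
   .der (nat_lit 10545) (nat_lit 3846),
   .der (nat_lit 12658) (nat_lit 1546),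
   .der (nat_lit 12658) (nat_lit 3397),
   .der (nat_lit 13345) (nat_lit 2365),
   .der (nat_lit 13345) (nat_lit 4035),
   .der (nat_lit 16738) (nat_lit 1022),
   .der (nat_lit 16738) (nat_lit 1546),
   .der (nat_lit 17185) (nat_lit 2327),
   .der (nat_lit 17185) (nat_lit 2365),
   .der (nat_lit 17185) (nat_lit 3138),
   .der (nat_lit 17185) (nat_lit 3251),
   .der (nat_lit 17185) (nat_lit 4028),
   .der (nat_lit 17185) (nat_lit 4766),
   .der (nat_lit 21092) (nat_lit 472),
   .der (nat_lit 21092) (nat_lit 923),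
   .der (nat_lit 21107) (nat_lit 479),
   .der (nat_lit 21107) (nat_lit 864),
   .der (nat_lit 21107) (nat_lit 2171),
   .der (nat_lit 21107) (nat_lit 2180),
   .der (nat_lit 21107) (nat_lit 3752),
   .der (nat_lit 21107) (nat_lit 4710),
   .der (nat_lit 21107) (nat_lit 6832),
   .der (nat_lit 22548) (nat_lit 861),
   .der (nat_lit 22548) (nat_lit 5935),
   .der (nat_lit 22803) (nat_lit 861),
   .der (nat_lit 22803) (nat_lit 864),
   .der (nat_lit 22803) (nat_lit 897),
   .der (nat_lit 22803) (nat_lit 1533),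
   .der (nat_lit 22803) (nat_lit 2176),
   .der (nat_lit 22803) (nat_lit 3199),
   .der (nat_lit 22803) (nat_lit 4055),
   .der (nat_lit 24916) (nat_lit 3357),
   .der (nat_lit 24916) (nat_lit 4631),
   .der (nat_lit 26386) (nat_lit 7708),
   .der (nat_lit 29011) (nat_lit 852),
   .der (nat_lit 29011) (nat_lit 2360),
   .der (nat_lit 29011) (nat_lit 3138),
   .der (nat_lit 29011) (nat_lit 5067),
   .der (nat_lit 30226) (nat_lit 852),
   .der (nat_lit 30226) (nat_lit 1400),
   .der (nat_lit 30226) (nat_lit 2342),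
   .der (nat_lit 30226) (nat_lit 3251),
   .der (nat_lit 30226) (nat_lit 5869),
   .der (nat_lit 30226) (nat_lit 8488),
   .der (nat_lit 33345) (nat_lit 2380),
   .der (nat_lit 33345) (nat_lit 8987),
   .der (nat_lit 33345) (nat_lit 9309),
   .der (nat_lit 34068) (nat_lit 981),
   .der (nat_lit 34068) (nat_lit 1421),
   .der (nat_lit 34068) (nat_lit 1444),
   .der (nat_lit 34068) (nat_lit 2760),
   .der (nat_lit 34068) (nat_lit 4383),
   .der (nat_lit 34068) (nat_lit 5873),
   .der (nat_lit 34068) (nat_lit 6072),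
   .der (nat_lit 34068) (nat_lit 7461),
   .der (nat_lit 38163) (nat_lit 1647),
   .der (nat_lit 38163) (nat_lit 2040),
   .der (nat_lit 1) (nat_lit 3404),
   .der (nat_lit 1) (nat_lit 3533),
   .der (nat_lit 1) (nat_lit 4772),
   .der (nat_lit 2) (nat_lit 3413),
   .der (nat_lit 3) (nat_lit 5827),
   .der (nat_lit 4) (nat_lit 981),
   .der (nat_lit 4) (nat_lit 2838),
   .der (nat_lit 4) (nat_lit 9699),
   .der (nat_lit 5) (nat_lit 4178),
   .der (nat_lit 5) (nat_lit 5901),
   .der (nat_lit 6) (nat_lit 2343),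
   .der (nat_lit 6) (nat_lit 4402),
   .der (nat_lit 6) (nat_lit 6885),
   .der (nat_lit 7) (nat_lit 3172),
   .der (nat_lit 8) (nat_lit 3220),
   .der (nat_lit 8) (nat_lit 5873),
   .der (nat_lit 8) (nat_lit 7603),
   .der (nat_lit 8) (nat_lit 9413),
   .der (nat_lit 9) (nat_lit 1534),
   .der (nat_lit 9) (nat_lit 3112),
   .der (nat_lit 9) (nat_lit 3996),
   .der (nat_lit 9) (nat_lit 4656),
   .der (nat_lit 9) (nat_lit 6817),
   .der (nat_lit 9) (nat_lit 7453),
   .der (nat_lit 9) (nat_lit 8488),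
   .der (nat_lit 10) (nat_lit 1678),
   .der (nat_lit 10) (nat_lit 6137),
   .der (nat_lit 10) (nat_lit 7006),
   .der (nat_lit 18) (nat_lit 8646),
   .der (nat_lit 20) (nat_lit 135),
   .der (nat_lit 20) (nat_lit 3999),
   .der (nat_lit 20) (nat_lit 9699),
   .der (nat_lit 33) (nat_lit 6006),
   .der (nat_lit 35) (nat_lit 6810),
   .der (nat_lit 35) (nat_lit 9636),
   .der (nat_lit 36) (nat_lit 894),
   .der (nat_lit 36) (nat_lit 4048),
   .der (nat_lit 36) (nat_lit 5052),
   .der (nat_lit 36) (nat_lit 5536),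
   .der (nat_lit 49) (nat_lit 6885),
   .der (nat_lit 50) (nat_lit 5883),
   .der (nat_lit 50) (nat_lit 5912),
   .der (nat_lit 65) (nat_lit 4555),
   .der (nat_lit 65) (nat_lit 9081),
   .der (nat_lit 83) (nat_lit 5901),
   .der (nat_lit 86) (nat_lit 3120),
   .der (nat_lit 86) (nat_lit 6865),
   .der (nat_lit 87) (nat_lit 1415),
   .der (nat_lit 98) (nat_lit 5883),
   .der (nat_lit 98) (nat_lit 9202),
   .der (nat_lit 101) (nat_lit 3118),
   .der (nat_lit 101) (nat_lit 7592),
   .der (nat_lit 114) (nat_lit 1052),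
   .der (nat_lit 114) (nat_lit 9864),
   .der (nat_lit 115) (nat_lit 952),
   .der (nat_lit 115) (nat_lit 2353),
   .der (nat_lit 115) (nat_lit 5595),
   .der (nat_lit 129) (nat_lit 4229),
   .der (nat_lit 129) (nat_lit 5910),
   .der (nat_lit 129) (nat_lit 6810),
   .der (nat_lit 129) (nat_lit 7603),
   .der (nat_lit 129) (nat_lit 8418),
   .der (nat_lit 135) (nat_lit 5171),
   .der (nat_lit 137) (nat_lit 4092),
   .der (nat_lit 137) (nat_lit 4184),
   .der (nat_lit 137) (nat_lit 6488),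
   .der (nat_lit 137) (nat_lit 6522),
   .der (nat_lit 137) (nat_lit 7485),
   .der (nat_lit 137) (nat_lit 7607),
   .der (nat_lit 137) (nat_lit 7636),
   .der (nat_lit 137) (nat_lit 8184),
   .der (nat_lit 137) (nat_lit 8624),
   .der (nat_lit 137) (nat_lit 8684),
   .der (nat_lit 137) (nat_lit 9197),
   .der (nat_lit 145) (nat_lit 3245),
   .der (nat_lit 145) (nat_lit 4766),
   .der (nat_lit 145) (nat_lit 5801),
   .der (nat_lit 145) (nat_lit 8488),
   .der (nat_lit 150) (nat_lit 861),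
   .der (nat_lit 150) (nat_lit 1409),
   .der (nat_lit 150) (nat_lit 3112),
   .der (nat_lit 150) (nat_lit 4020),
   .der (nat_lit 150) (nat_lit 4039),
   .der (nat_lit 150) (nat_lit 5848),
   .der (nat_lit 150) (nat_lit 7464),
   .der (nat_lit 150) (nat_lit 8488),
   .der (nat_lit 150) (nat_lit 8691),
   .der (nat_lit 152) (nat_lit 3460),
   .der (nat_lit 152) (nat_lit 3985),
   .der (nat_lit 152) (nat_lit 4307),
   .der (nat_lit 152) (nat_lit 5029),
   .der (nat_lit 152) (nat_lit 5273),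
   .der (nat_lit 152) (nat_lit 5807),
   .der (nat_lit 152) (nat_lit 7447),
   .der (nat_lit 152) (nat_lit 8488),
   .der (nat_lit 152) (nat_lit 9032),
   .der (nat_lit 161) (nat_lit 3562),
   .der (nat_lit 161) (nat_lit 3999),
   .der (nat_lit 161) (nat_lit 5837),
   .der (nat_lit 162) (nat_lit 2847),
   .der (nat_lit 165) (nat_lit 7654),
   .der (nat_lit 165) (nat_lit 8180),
   .der (nat_lit 165) (nat_lit 8678),
   .der (nat_lit 339) (nat_lit 6848),
   .der (nat_lit 339) (nat_lit 8502),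
   .der (nat_lit 340) (nat_lit 77),
   .der (nat_lit 370) (nat_lit 9864),
   .der (nat_lit 561) (nat_lit 4149),
   .der (nat_lit 561) (nat_lit 4743),
   .der (nat_lit 561) (nat_lit 7528),
   .der (nat_lit 561) (nat_lit 9654),
   .der (nat_lit 577) (nat_lit 2227),
   .der (nat_lit 577) (nat_lit 3122),
   .der (nat_lit 577) (nat_lit 7173),
   .der (nat_lit 577) (nat_lit 7701),
   .der (nat_lit 612) (nat_lit 70),
   .der (nat_lit 612) (nat_lit 1389),
   .der (nat_lit 627) (nat_lit 417),
   .der (nat_lit 627) (nat_lit 2501),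
   .der (nat_lit 627) (nat_lit 6292),
   .der (nat_lit 644) (nat_lit 417),
   .der (nat_lit 644) (nat_lit 861),
   .der (nat_lit 644) (nat_lit 2360),
   .der (nat_lit 644) (nat_lit 2369),
   .der (nat_lit 644) (nat_lit 4045),
   .der (nat_lit 644) (nat_lit 5052),
   .der (nat_lit 801) (nat_lit 4897),
   .der (nat_lit 801) (nat_lit 7592),
   .der (nat_lit 833) (nat_lit 3999),
   .der (nat_lit 834) (nat_lit 4103),
   .der (nat_lit 852) (nat_lit 8484),
   .der (nat_lit 852) (nat_lit 8491),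
   .der (nat_lit 852) (nat_lit 8511)]

theorem b5_step29 (h : ∀ j < 14500, Good b5T j) : ∀ j < 15000, Good b5T j := by
  intro j hj
  refine chkL_ok b5C29 14500 h (by decide +kernel) j ?_
  have h : b5C29.length = 500 := by decide +kernel
  omega

/-- certificates 15000..15500 -/
def b5C30 : List Cf :=
  [.der (nat_lit 1057) (nat_lit 1099),
   .der (nat_lit 1073) (nat_lit 1412),
   .der (nat_lit 1073) (nat_lit 3451),
   .der (nat_lit 1074) (nat_lit 2327),
   .der (nat_lit 1074) (nat_lit 3340),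
   .der (nat_lit 1074) (nat_lit 5499),
   .der (nat_lit 1074) (nat_lit 8598),
   .der (nat_lit 1074) (nat_lit 9337),
   .der (nat_lit 1122) (nat_lit 87),
   .der (nat_lit 1122) (nat_lit 2327),
   .der (nat_lit 1122) (nat_lit 3020),
   .der (nat_lit 1299) (nat_lit 3725),
   .der (nat_lit 1299) (nat_lit 8491),
   .der (nat_lit 1299) (nat_lit 9636),
   .der (nat_lit 1300) (nat_lit 2353),
   .der (nat_lit 1300) (nat_lit 6817),
   .der (nat_lit 1395) (nat_lit 73),
   .der (nat_lit 1415) (nat_lit 3328),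
   .der (nat_lit 1430) (nat_lit 897),
   .der (nat_lit 1430) (nat_lit 4800),
   .der (nat_lit 1554) (nat_lit 3604),
   .der (nat_lit 1554) (nat_lit 4463),
   .der (nat_lit 1554) (nat_lit 5698),
   .der (nat_lit 1554) (nat_lit 5883),
   .der (nat_lit 1554) (nat_lit 5957),
   .der (nat_lit 1554) (nat_lit 9277),
   .der (nat_lit 1556) (nat_lit 5935),
   .der (nat_lit 1556) (nat_lit 6885),
   .der (nat_lit 1556) (nat_lit 6956),
   .der (nat_lit 1620) (nat_lit 9465),
   .der (nat_lit 1650) (nat_lit 1409),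
   .der (nat_lit 1875) (nat_lit 1051),
   .der (nat_lit 1893) (nat_lit 4369),
   .der (nat_lit 1893) (nat_lit 9950),
   .der (nat_lit 2084) (nat_lit 5873),
   .der (nat_lit 2084) (nat_lit 7528),
   .der (nat_lit 2113) (nat_lit 2332),
   .der (nat_lit 2113) (nat_lit 6308),
   .der (nat_lit 2135) (nat_lit 5229),
   .der (nat_lit 2135) (nat_lit 5236),
   .der (nat_lit 2135) (nat_lit 7441),
   .der (nat_lit 2135) (nat_lit 7485),
   .der (nat_lit 2135) (nat_lit 7641),
   .der (nat_lit 2193) (nat_lit 5873),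
   .der (nat_lit 2193) (nat_lit 6189),
   .der (nat_lit 2193) (nat_lit 9197),
   .der (nat_lit 2323) (nat_lit 1428),
   .der (nat_lit 2323) (nat_lit 2120),
   .der (nat_lit 2323) (nat_lit 4071),
   .der (nat_lit 2323) (nat_lit 4585),
   .der (nat_lit 2339) (nat_lit 3985),
   .der (nat_lit 2353) (nat_lit 2249),
   .der (nat_lit 2353) (nat_lit 3112),
   .der (nat_lit 2353) (nat_lit 3184),
   .der (nat_lit 2353) (nat_lit 4055),
   .der (nat_lit 2390) (nat_lit 417),
   .der (nat_lit 2390) (nat_lit 1400),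
   .der (nat_lit 2390) (nat_lit 1558),
   .der (nat_lit 2390) (nat_lit 1728),
   .der (nat_lit 2390) (nat_lit 7447),
   .der (nat_lit 2390) (nat_lit 9032),
   .der (nat_lit 2433) (nat_lit 3985),
   .der (nat_lit 2433) (nat_lit 5869),
   .der (nat_lit 2433) (nat_lit 8488),
   .der (nat_lit 2578) (nat_lit 1880),
   .der (nat_lit 2578) (nat_lit 8650),
   .der (nat_lit 2593) (nat_lit 7641),
   .der (nat_lit 2593) (nat_lit 7657),
   .der (nat_lit 5218) (nat_lit 2327),
   .der (nat_lit 5218) (nat_lit 3020),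
   .der (nat_lit 9572) (nat_lit 1392),
   .der (nat_lit 9572) (nat_lit 2360),
   .der (nat_lit 9572) (nat_lit 5624),
   .der (nat_lit 10305) (nat_lit 1647),
   .der (nat_lit 10305) (nat_lit 3020),
   .der (nat_lit 10305) (nat_lit 3175),
   .der (nat_lit 10305) (nat_lit 3338),
   .der (nat_lit 10305) (nat_lit 5087),
   .der (nat_lit 10545) (nat_lit 73),
   .der (nat_lit 10545) (nat_lit 4740),
   .der (nat_lit 12658) (nat_lit 4602),
   .der (nat_lit 13345) (nat_lit 4311),
   .der (nat_lit 13345) (nat_lit 5817),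
   .der (nat_lit 16738) (nat_lit 3595),
   .der (nat_lit 21107) (nat_lit 64),
   .der (nat_lit 21107) (nat_lit 1381),
   .der (nat_lit 21107) (nat_lit 1438),
   .der (nat_lit 22548) (nat_lit 974),
   .der (nat_lit 22548) (nat_lit 2660),
   .der (nat_lit 22548) (nat_lit 4045),
   .der (nat_lit 22548) (nat_lit 4134),
   .der (nat_lit 24916) (nat_lit 8511),
   .der (nat_lit 24916) (nat_lit 9257),
   .der (nat_lit 26386) (nat_lit 6211),
   .der (nat_lit 33345) (nat_lit 4365),
   .der (nat_lit 33345) (nat_lit 5912),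
   .der (nat_lit 33345) (nat_lit 6906),
   .der (nat_lit 33345) (nat_lit 7441),
   .der (nat_lit 34068) (nat_lit 8976),
   .der (nat_lit 37425) (nat_lit 1399),
   .der (nat_lit 37425) (nat_lit 1400),
   .der (nat_lit 37425) (nat_lit 1412),
   .der (nat_lit 37425) (nat_lit 2740),
   .der (nat_lit 37425) (nat_lit 4666),
   .der (nat_lit 37425) (nat_lit 5035),
   .der (nat_lit 38163) (nat_lit 657),
   .der (nat_lit 38163) (nat_lit 3985),
   .der (nat_lit 38163) (nat_lit 6817),
   .der (nat_lit 4) (nat_lit 6072),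
   .der (nat_lit 5) (nat_lit 2186),
   .der (nat_lit 6) (nat_lit 4383),
   .der (nat_lit 6) (nat_lit 4772),
   .der (nat_lit 7) (nat_lit 461),
   .der (nat_lit 8) (nat_lit 6060),
   .der (nat_lit 8) (nat_lit 9206),
   .der (nat_lit 9) (nat_lit 417),
   .der (nat_lit 9) (nat_lit 1419),
   .der (nat_lit 9) (nat_lit 2307),
   .der (nat_lit 9) (nat_lit 5801),
   .der (nat_lit 10) (nat_lit 469),
   .der (nat_lit 10) (nat_lit 1052),
   .der (nat_lit 19) (nat_lit 4383),
   .der (nat_lit 35) (nat_lit 9654),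
   .der (nat_lit 36) (nat_lit 2214),
   .der (nat_lit 36) (nat_lit 2320),
   .der (nat_lit 36) (nat_lit 5053),
   .der (nat_lit 49) (nat_lit 4383),
   .der (nat_lit 49) (nat_lit 5827),
   .der (nat_lit 50) (nat_lit 1542),
   .der (nat_lit 50) (nat_lit 2913),
   .der (nat_lit 83) (nat_lit 4092),
   .der (nat_lit 86) (nat_lit 9511),
   .der (nat_lit 101) (nat_lit 4242),
   .der (nat_lit 117) (nat_lit 5815),
   .der (nat_lit 117) (nat_lit 5898),
   .der (nat_lit 118) (nat_lit 1022),
   .der (nat_lit 129) (nat_lit 5924),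
   .der (nat_lit 129) (nat_lit 8502),
   .der (nat_lit 129) (nat_lit 9636),
   .der (nat_lit 132) (nat_lit 2369),
   .der (nat_lit 132) (nat_lit 3158),
   .der (nat_lit 135) (nat_lit 1909),
   .der (nat_lit 145) (nat_lit 1419),
   .der (nat_lit 145) (nat_lit 2307),
   .der (nat_lit 147) (nat_lit 84),
   .der (nat_lit 147) (nat_lit 894),
   .der (nat_lit 147) (nat_lit 897),
   .der (nat_lit 147) (nat_lit 1534),
   .der (nat_lit 150) (nat_lit 1534),
   .der (nat_lit 150) (nat_lit 2205),
   .der (nat_lit 150) (nat_lit 2249),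
   .der (nat_lit 150) (nat_lit 4035),
   .der (nat_lit 150) (nat_lit 5864),
   .der (nat_lit 152) (nat_lit 1419),
   .der (nat_lit 152) (nat_lit 2429),
   .der (nat_lit 152) (nat_lit 5932),
   .der (nat_lit 161) (nat_lit 469),
   .der (nat_lit 161) (nat_lit 1052),
   .der (nat_lit 339) (nat_lit 9211),
   .der (nat_lit 561) (nat_lit 907),
   .der (nat_lit 577) (nat_lit 3229),
   .der (nat_lit 627) (nat_lit 479),
   .der (nat_lit 644) (nat_lit 1428),
   .der (nat_lit 644) (nat_lit 1550),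
   .der (nat_lit 852) (nat_lit 2317),
   .der (nat_lit 1073) (nat_lit 3122),
   .der (nat_lit 1107) (nat_lit 1647),
   .der (nat_lit 1300) (nat_lit 5807),
   .der (nat_lit 1300) (nat_lit 6022),
   .der (nat_lit 1380) (nat_lit 70),
   .der (nat_lit 1380) (nat_lit 1041),
   .der (nat_lit 1395) (nat_lit 421),
   .der (nat_lit 1415) (nat_lit 3122),
   .der (nat_lit 1415) (nat_lit 5091),
   .der (nat_lit 1554) (nat_lit 2346),
   .der (nat_lit 1554) (nat_lit 4379),
   .der (nat_lit 1554) (nat_lit 9870),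
   .der (nat_lit 1556) (nat_lit 1421),
   .der (nat_lit 1620) (nat_lit 182),
   .der (nat_lit 1650) (nat_lit 5167),
   .der (nat_lit 1650) (nat_lit 7511),
   .der (nat_lit 1810) (nat_lit 4103),
   .der (nat_lit 1811) (nat_lit 1647),
   .der (nat_lit 1875) (nat_lit 923),
   .der (nat_lit 2113) (nat_lit 5171),
   .der (nat_lit 2135) (nat_lit 5171),
   .der (nat_lit 2135) (nat_lit 6292),
   .der (nat_lit 2193) (nat_lit 4800),
   .der (nat_lit 2323) (nat_lit 897),
   .der (nat_lit 2323) (nat_lit 1533),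
   .der (nat_lit 2323) (nat_lit 3199),
   .der (nat_lit 2323) (nat_lit 4249),
   .der (nat_lit 2353) (nat_lit 1461),
   .der (nat_lit 2353) (nat_lit 2205),
   .der (nat_lit 2390) (nat_lit 1399),
   .der (nat_lit 2433) (nat_lit 4048),
   .der (nat_lit 2433) (nat_lit 5932),
   .der (nat_lit 2578) (nat_lit 6079),
   .der (nat_lit 4978) (nat_lit 584),
   .der (nat_lit 5971) (nat_lit 1533),
   .der (nat_lit 9572) (nat_lit 392),
   .der (nat_lit 9572) (nat_lit 898),
   .der (nat_lit 9587) (nat_lit 479),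
   .der (nat_lit 9587) (nat_lit 873),
   .der (nat_lit 17185) (nat_lit 7767),
   .der (nat_lit 21092) (nat_lit 1392),
   .der (nat_lit 21107) (nat_lit 848),
   .der (nat_lit 21107) (nat_lit 1033),
   .der (nat_lit 21107) (nat_lit 2320),
   .der (nat_lit 22548) (nat_lit 1428),
   .der (nat_lit 22548) (nat_lit 1550),
   .der (nat_lit 22548) (nat_lit 2369),
   .der (nat_lit 24916) (nat_lit 6072),
   .der (nat_lit 29011) (nat_lit 1431),
   .der (nat_lit 33345) (nat_lit 3397),
   .der (nat_lit 37425) (nat_lit 1728),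
   .der (nat_lit 37425) (nat_lit 3229),
   .der (nat_lit 38163) (nat_lit 992),
   .der (nat_lit 38163) (nat_lit 5807),
   .der (nat_lit 1) (nat_lit 3595),
   .der (nat_lit 1) (nat_lit 4530),
   .der (nat_lit 1) (nat_lit 5429),
   .der (nat_lit 1) (nat_lit 6060),
   .der (nat_lit 1) (nat_lit 7013),
   .der (nat_lit 1) (nat_lit 7441),
   .der (nat_lit 1) (nat_lit 8198),
   .der (nat_lit 1) (nat_lit 8606),
   .der (nat_lit 1) (nat_lit 8733),
   .der (nat_lit 2) (nat_lit 5949),
   .der (nat_lit 2) (nat_lit 8180),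
   .der (nat_lit 3) (nat_lit 904),
   .der (nat_lit 3) (nat_lit 4236),
   .der (nat_lit 3) (nat_lit 4292),
   .der (nat_lit 4) (nat_lit 4048),
   .der (nat_lit 4) (nat_lit 9569),
   .der (nat_lit 5) (nat_lit 7450),
   .der (nat_lit 5) (nat_lit 8684),
   .der (nat_lit 5) (nat_lit 8710),
   .der (nat_lit 5) (nat_lit 9211),
   .der (nat_lit 5) (nat_lit 9271),
   .der (nat_lit 6) (nat_lit 1422),
   .der (nat_lit 6) (nat_lit 7441),
   .der (nat_lit 6) (nat_lit 7511),
   .der (nat_lit 6) (nat_lit 8725),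
   .der (nat_lit 7) (nat_lit 967),
   .der (nat_lit 7) (nat_lit 1647),
   .der (nat_lit 7) (nat_lit 3144),
   .der (nat_lit 8) (nat_lit 921),
   .der (nat_lit 8) (nat_lit 4229),
   .der (nat_lit 8) (nat_lit 5928),
   .der (nat_lit 8) (nat_lit 5953),
   .der (nat_lit 8) (nat_lit 6810),
   .der (nat_lit 8) (nat_lit 7592),
   .der (nat_lit 8) (nat_lit 7687),
   .der (nat_lit 8) (nat_lit 8127),
   .der (nat_lit 8) (nat_lit 9249),
   .der (nat_lit 8) (nat_lit 9654),
   .der (nat_lit 9) (nat_lit 3116),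
   .der (nat_lit 9) (nat_lit 4035),
   .der (nat_lit 9) (nat_lit 5823),
   .der (nat_lit 10) (nat_lit 177),
   .der (nat_lit 10) (nat_lit 1415),
   .der (nat_lit 10) (nat_lit 3451),
   .der (nat_lit 10) (nat_lit 6150),
   .der (nat_lit 10) (nat_lit 8525),
   .der (nat_lit 10) (nat_lit 8923),
   .der (nat_lit 10) (nat_lit 9337),
   .der (nat_lit 18) (nat_lit 5949),
   .der (nat_lit 19) (nat_lit 960),
   .der (nat_lit 19) (nat_lit 2744),
   .der (nat_lit 19) (nat_lit 4242),
   .der (nat_lit 19) (nat_lit 9314),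
   .der (nat_lit 20) (nat_lit 1444),
   .der (nat_lit 20) (nat_lit 8767),
   .der (nat_lit 33) (nat_lit 5949),
   .der (nat_lit 33) (nat_lit 6123),
   .der (nat_lit 35) (nat_lit 1244),
   .der (nat_lit 35) (nat_lit 2349),
   .der (nat_lit 35) (nat_lit 5265),
   .der (nat_lit 35) (nat_lit 7456),
   .der (nat_lit 35) (nat_lit 8511),
   .der (nat_lit 35) (nat_lit 9249),
   .der (nat_lit 36) (nat_lit 2799),
   .der (nat_lit 36) (nat_lit 3138),
   .der (nat_lit 36) (nat_lit 7308),
   .der (nat_lit 36) (nat_lit 7703),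
   .der (nat_lit 49) (nat_lit 3604),
   .der (nat_lit 49) (nat_lit 4566),
   .der (nat_lit 49) (nat_lit 7511),
   .der (nat_lit 49) (nat_lit 7518),
   .der (nat_lit 52) (nat_lit 2483),
   .der (nat_lit 52) (nat_lit 4383),
   .der (nat_lit 52) (nat_lit 6879),
   .der (nat_lit 65) (nat_lit 544),
   .der (nat_lit 65) (nat_lit 1422),
   .der (nat_lit 65) (nat_lit 5070),
   .der (nat_lit 66) (nat_lit 1406),
   .der (nat_lit 66) (nat_lit 2753),
   .der (nat_lit 66) (nat_lit 4005),
   .der (nat_lit 66) (nat_lit 4131),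
   .der (nat_lit 66) (nat_lit 9121),
   .der (nat_lit 67) (nat_lit 2040),
   .der (nat_lit 67) (nat_lit 6072),
   .der (nat_lit 83) (nat_lit 4316),
   .der (nat_lit 83) (nat_lit 5953),
   .der (nat_lit 83) (nat_lit 6615),
   .der (nat_lit 83) (nat_lit 6956),
   .der (nat_lit 86) (nat_lit 4740),
   .der (nat_lit 86) (nat_lit 6880),
   .der (nat_lit 86) (nat_lit 7354),
   .der (nat_lit 86) (nat_lit 9346),
   .der (nat_lit 86) (nat_lit 9668),
   .der (nat_lit 86) (nat_lit 9724),
   .der (nat_lit 86) (nat_lit 9896),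
   .der (nat_lit 87) (nat_lit 421),
   .der (nat_lit 87) (nat_lit 864),
   .der (nat_lit 87) (nat_lit 967),
   .der (nat_lit 87) (nat_lit 1169),
   .der (nat_lit 87) (nat_lit 2262),
   .der (nat_lit 87) (nat_lit 8143),
   .der (nat_lit 98) (nat_lit 4563),
   .der (nat_lit 98) (nat_lit 7641),
   .der (nat_lit 100) (nat_lit 1041),
   .der (nat_lit 100) (nat_lit 2501),
   .der (nat_lit 100) (nat_lit 5167),
   .der (nat_lit 101) (nat_lit 3255),
   .der (nat_lit 101) (nat_lit 5905),
   .der (nat_lit 101) (nat_lit 6189),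
   .der (nat_lit 101) (nat_lit 7006),
   .der (nat_lit 103) (nat_lit 1041),
   .der (nat_lit 103) (nat_lit 1478),
   .der (nat_lit 103) (nat_lit 1546),
   .der (nat_lit 103) (nat_lit 7511),
   .der (nat_lit 114) (nat_lit 84),
   .der (nat_lit 114) (nat_lit 2203),
   .der (nat_lit 115) (nat_lit 1444),
   .der (nat_lit 115) (nat_lit 7942),
   .der (nat_lit 117) (nat_lit 7767),
   .der (nat_lit 118) (nat_lit 3144),
   .der (nat_lit 129) (nat_lit 1542),
   .der (nat_lit 129) (nat_lit 1597),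
   .der (nat_lit 129) (nat_lit 2322),
   .der (nat_lit 129) (nat_lit 2409),
   .der (nat_lit 129) (nat_lit 3731),
   .der (nat_lit 129) (nat_lit 4463),
   .der (nat_lit 129) (nat_lit 5025),
   .der (nat_lit 129) (nat_lit 5905),
   .der (nat_lit 129) (nat_lit 6077),
   .der (nat_lit 129) (nat_lit 6885),
   .der (nat_lit 129) (nat_lit 7163),
   .der (nat_lit 129) (nat_lit 7499),
   .der (nat_lit 129) (nat_lit 8258),
   .der (nat_lit 129) (nat_lit 8529),
   .der (nat_lit 129) (nat_lit 8936),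
   .der (nat_lit 135) (nat_lit 2205),
   .der (nat_lit 135) (nat_lit 3338),
   .der (nat_lit 135) (nat_lit 4032),
   .der (nat_lit 137) (nat_lit 921),
   .der (nat_lit 137) (nat_lit 1724),
   .der (nat_lit 137) (nat_lit 4575),
   .der (nat_lit 137) (nat_lit 5026),
   .der (nat_lit 137) (nat_lit 9026),
   .der (nat_lit 137) (nat_lit 9035),
   .der (nat_lit 137) (nat_lit 9249),
   .der (nat_lit 145) (nat_lit 2409),
   .der (nat_lit 145) (nat_lit 3122),
   .der (nat_lit 145) (nat_lit 4035),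
   .der (nat_lit 145) (nat_lit 7464),
   .der (nat_lit 145) (nat_lit 7767),
   .der (nat_lit 145) (nat_lit 8615),
   .der (nat_lit 147) (nat_lit 2176),
   .der (nat_lit 147) (nat_lit 2385),
   .der (nat_lit 147) (nat_lit 2578),
   .der (nat_lit 150) (nat_lit 2192),
   .der (nat_lit 150) (nat_lit 3204),
   .der (nat_lit 150) (nat_lit 4002),
   .der (nat_lit 150) (nat_lit 4032),
   .der (nat_lit 150) (nat_lit 8122),
   .der (nat_lit 150) (nat_lit 9287),
   .der (nat_lit 152) (nat_lit 2342),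
   .der (nat_lit 152) (nat_lit 3251),
   .der (nat_lit 152) (nat_lit 4292),
   .der (nat_lit 152) (nat_lit 4585),
   .der (nat_lit 152) (nat_lit 5239),
   .der (nat_lit 152) (nat_lit 5818),
   .der (nat_lit 152) (nat_lit 9321),
   .der (nat_lit 161) (nat_lit 4712),
   .der (nat_lit 161) (nat_lit 5227),
   .der (nat_lit 161) (nat_lit 6982),
   .der (nat_lit 161) (nat_lit 8178),
   .der (nat_lit 162) (nat_lit 3716),
   .der (nat_lit 162) (nat_lit 6393),
   .der (nat_lit 162) (nat_lit 6988),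
   .der (nat_lit 165) (nat_lit 7641),
   .der (nat_lit 340) (nat_lit 4656),
   .der (nat_lit 354) (nat_lit 2188),
   .der (nat_lit 356) (nat_lit 960),
   .der (nat_lit 356) (nat_lit 1058),
   .der (nat_lit 356) (nat_lit 7942),
   .der (nat_lit 370) (nat_lit 9076),
   .der (nat_lit 371) (nat_lit 952),
   .der (nat_lit 561) (nat_lit 1196),
   .der (nat_lit 561) (nat_lit 7472),
   .der (nat_lit 561) (nat_lit 7518),
   .der (nat_lit 561) (nat_lit 7645),
   .der (nat_lit 561) (nat_lit 8134),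
   .der (nat_lit 561) (nat_lit 8481),
   .der (nat_lit 561) (nat_lit 8497),
   .der (nat_lit 561) (nat_lit 8529),
   .der (nat_lit 577) (nat_lit 1169),
   .der (nat_lit 577) (nat_lit 2203),
   .der (nat_lit 577) (nat_lit 4010),
   .der (nat_lit 577) (nat_lit 4563),
   .der (nat_lit 612) (nat_lit 843),
   .der (nat_lit 612) (nat_lit 952),
   .der (nat_lit 612) (nat_lit 2171),
   .der (nat_lit 612) (nat_lit 3175),
   .der (nat_lit 612) (nat_lit 9354),
   .der (nat_lit 612) (nat_lit 9684),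
   .der (nat_lit 627) (nat_lit 1544),
   .der (nat_lit 627) (nat_lit 7534),
   .der (nat_lit 644) (nat_lit 1533),
   .der (nat_lit 644) (nat_lit 2300),
   .der (nat_lit 644) (nat_lit 4031),
   .der (nat_lit 644) (nat_lit 8130),
   .der (nat_lit 659) (nat_lit 861),
   .der (nat_lit 801) (nat_lit 123),
   .der (nat_lit 801) (nat_lit 1711),
   .der (nat_lit 801) (nat_lit 2342),
   .der (nat_lit 801) (nat_lit 3251),
   .der (nat_lit 801) (nat_lit 9197),
   .der (nat_lit 833) (nat_lit 6876),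
   .der (nat_lit 833) (nat_lit 7511),
   .der (nat_lit 834) (nat_lit 2203),
   .der (nat_lit 834) (nat_lit 3996),
   .der (nat_lit 852) (nat_lit 192),
   .der (nat_lit 852) (nat_lit 4292),
   .der (nat_lit 882) (nat_lit 2356),
   .der (nat_lit 1057) (nat_lit 4271),
   .der (nat_lit 1057) (nat_lit 7767),
   .der (nat_lit 1073) (nat_lit 2224),
   .der (nat_lit 1073) (nat_lit 2363),
   .der (nat_lit 1074) (nat_lit 1924),
   .der (nat_lit 1074) (nat_lit 3996),
   .der (nat_lit 1074) (nat_lit 5815),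
   .der (nat_lit 1107) (nat_lit 9569),
   .der (nat_lit 1299) (nat_lit 4631),
   .der (nat_lit 1299) (nat_lit 8511),
   .der (nat_lit 1299) (nat_lit 9654),
   .der (nat_lit 1300) (nat_lit 10),
   .der (nat_lit 1300) (nat_lit 3236),
   .der (nat_lit 1300) (nat_lit 4631),
   .der (nat_lit 1300) (nat_lit 5858),
   .der (nat_lit 1300) (nat_lit 9003),
   .der (nat_lit 1300) (nat_lit 9312),
   .der (nat_lit 1380) (nat_lit 864),
   .der (nat_lit 1380) (nat_lit 873),
   .der (nat_lit 1380) (nat_lit 9522),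
   .der (nat_lit 1395) (nat_lit 479),
   .der (nat_lit 1395) (nat_lit 864),
   .der (nat_lit 1395) (nat_lit 952),
   .der (nat_lit 1395) (nat_lit 1030),
   .der (nat_lit 1415) (nat_lit 1909),
   .der (nat_lit 1415) (nat_lit 2769),
   .der (nat_lit 1415) (nat_lit 4032),
   .der (nat_lit 1415) (nat_lit 4700),
   .der (nat_lit 1415) (nat_lit 9684),
   .der (nat_lit 1430) (nat_lit 2432),
   .der (nat_lit 1430) (nat_lit 4002),
   .der (nat_lit 1430) (nat_lit 4039),
   .der (nat_lit 1430) (nat_lit 7143),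
   .der (nat_lit 1554) (nat_lit 2528),
   .der (nat_lit 1554) (nat_lit 3731),
   .der (nat_lit 1554) (nat_lit 9197),
   .der (nat_lit 1556) (nat_lit 192),
   .der (nat_lit 1556) (nat_lit 5167),
   .der (nat_lit 1556) (nat_lit 6879),
   .der (nat_lit 1650) (nat_lit 1196),
   .der (nat_lit 1650) (nat_lit 2192),
   .der (nat_lit 1650) (nat_lit 7490),
   .der (nat_lit 1650) (nat_lit 7790),
   .der (nat_lit 1653) (nat_lit 84),
   .der (nat_lit 1653) (nat_lit 4071),
   .der (nat_lit 1653) (nat_lit 5924),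
   .der (nat_lit 1653) (nat_lit 6375),
   .der (nat_lit 1653) (nat_lit 7687),
   .der (nat_lit 1810) (nat_lit 1248),
   .der (nat_lit 1810) (nat_lit 2753),
   .der (nat_lit 1811) (nat_lit 1004),
   .der (nat_lit 1811) (nat_lit 1444),
   .der (nat_lit 1811) (nat_lit 4020),
   .der (nat_lit 1811) (nat_lit 6072),
   .der (nat_lit 1811) (nat_lit 9003),
   .der (nat_lit 1893) (nat_lit 1400),
   .der (nat_lit 2068) (nat_lit 1534),
   .der (nat_lit 2068) (nat_lit 1704),
   .der (nat_lit 2068) (nat_lit 3150),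
   .der (nat_lit 2084) (nat_lit 3169),
   .der (nat_lit 2084) (nat_lit 3725),
   .der (nat_lit 2084) (nat_lit 9522)]

theorem b5_step30 (h : ∀ j < 15000, Good b5T j) : ∀ j < 15500, Good b5T j := by
  intro j hj
  refine chkL_ok b5C30 15000 h (by decide +kernel) j ?_
  have h : b5C30.length = 500 := by decide +kernel
  omega

/-- certificates 15500..16000 -/
def b5C31 : List Cf :=
  [.der (nat_lit 2135) (nat_lit 1033),
   .der (nat_lit 2135) (nat_lit 4365),
   .der (nat_lit 2135) (nat_lit 5912),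
   .der (nat_lit 2135) (nat_lit 5915),
   .der (nat_lit 2135) (nat_lit 5928),
   .der (nat_lit 2135) (nat_lit 6060),
   .der (nat_lit 2135) (nat_lit 7522),
   .der (nat_lit 2135) (nat_lit 7654),
   .der (nat_lit 2135) (nat_lit 8180),
   .der (nat_lit 2135) (nat_lit 8606),
   .der (nat_lit 2193) (nat_lit 421),
   .der (nat_lit 2193) (nat_lit 864),
   .der (nat_lit 2193) (nat_lit 1542),
   .der (nat_lit 2193) (nat_lit 1724),
   .der (nat_lit 2193) (nat_lit 2322),
   .der (nat_lit 2193) (nat_lit 3220),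
   .der (nat_lit 2193) (nat_lit 5025),
   .der (nat_lit 2193) (nat_lit 5304),
   .der (nat_lit 2193) (nat_lit 6157),
   .der (nat_lit 2193) (nat_lit 7444),
   .der (nat_lit 2193) (nat_lit 7499),
   .der (nat_lit 2193) (nat_lit 8184),
   .der (nat_lit 2193) (nat_lit 8491),
   .der (nat_lit 2193) (nat_lit 8529),
   .der (nat_lit 2193) (nat_lit 8936),
   .der (nat_lit 2323) (nat_lit 8122),
   .der (nat_lit 2323) (nat_lit 8130),
   .der (nat_lit 2323) (nat_lit 9287),
   .der (nat_lit 2339) (nat_lit 3138),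
   .der (nat_lit 2339) (nat_lit 5037),
   .der (nat_lit 2339) (nat_lit 5053),
   .der (nat_lit 2339) (nat_lit 7308),
   .der (nat_lit 2339) (nat_lit 8139),
   .der (nat_lit 2353) (nat_lit 845),
   .der (nat_lit 2353) (nat_lit 2554),
   .der (nat_lit 2353) (nat_lit 3133),
   .der (nat_lit 2353) (nat_lit 5039),
   .der (nat_lit 2353) (nat_lit 5091),
   .der (nat_lit 2353) (nat_lit 7464),
   .der (nat_lit 2390) (nat_lit 909),
   .der (nat_lit 2390) (nat_lit 1546),
   .der (nat_lit 2390) (nat_lit 2171),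
   .der (nat_lit 2390) (nat_lit 8143),
   .der (nat_lit 2390) (nat_lit 9022),
   .der (nat_lit 2433) (nat_lit 4307),
   .der (nat_lit 2433) (nat_lit 4585),
   .der (nat_lit 2433) (nat_lit 5425),
   .der (nat_lit 2433) (nat_lit 5828),
   .der (nat_lit 2433) (nat_lit 6002),
   .der (nat_lit 2433) (nat_lit 6083),
   .der (nat_lit 2578) (nat_lit 2188),
   .der (nat_lit 2578) (nat_lit 7841),
   .der (nat_lit 2578) (nat_lit 9646),
   .der (nat_lit 2593) (nat_lit 4020),
   .der (nat_lit 2593) (nat_lit 5932),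
   .der (nat_lit 2593) (nat_lit 8180),
   .der (nat_lit 2593) (nat_lit 8620),
   .der (nat_lit 2593) (nat_lit 8670),
   .der (nat_lit 2593) (nat_lit 9746),
   .der (nat_lit 2593) (nat_lit 9751),
   .der (nat_lit 5218) (nat_lit 2356),
   .der (nat_lit 5218) (nat_lit 2526),
   .der (nat_lit 5218) (nat_lit 4588),
   .der (nat_lit 5218) (nat_lit 6645),
   .der (nat_lit 9572) (nat_lit 1438),
   .der (nat_lit 9572) (nat_lit 2320),
   .der (nat_lit 9572) (nat_lit 5107),
   .der (nat_lit 10305) (nat_lit 898),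
   .der (nat_lit 10305) (nat_lit 2908),
   .der (nat_lit 10305) (nat_lit 3133),
   .der (nat_lit 10305) (nat_lit 4879),
   .der (nat_lit 10305) (nat_lit 5091),
   .der (nat_lit 10545) (nat_lit 1907),
   .der (nat_lit 13345) (nat_lit 84),
   .der (nat_lit 13345) (nat_lit 7286),
   .der (nat_lit 17185) (nat_lit 5815),
   .der (nat_lit 17185) (nat_lit 5932),
   .der (nat_lit 21092) (nat_lit 2365),
   .der (nat_lit 21107) (nat_lit 843),
   .der (nat_lit 21107) (nat_lit 930),
   .der (nat_lit 21107) (nat_lit 1392),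
   .der (nat_lit 21107) (nat_lit 3800),
   .der (nat_lit 21107) (nat_lit 3988),
   .der (nat_lit 21107) (nat_lit 9354),
   .der (nat_lit 21107) (nat_lit 9684),
   .der (nat_lit 22548) (nat_lit 182),
   .der (nat_lit 22548) (nat_lit 2176),
   .der (nat_lit 22548) (nat_lit 2360),
   .der (nat_lit 22548) (nat_lit 3512),
   .der (nat_lit 22548) (nat_lit 4002),
   .der (nat_lit 22548) (nat_lit 4061),
   .der (nat_lit 22548) (nat_lit 5801),
   .der (nat_lit 22548) (nat_lit 8122),
   .der (nat_lit 22548) (nat_lit 8130),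
   .der (nat_lit 24916) (nat_lit 9522),
   .der (nat_lit 26386) (nat_lit 6077),
   .der (nat_lit 26386) (nat_lit 6885),
   .der (nat_lit 29011) (nat_lit 4246),
   .der (nat_lit 30226) (nat_lit 1073),
   .der (nat_lit 30226) (nat_lit 4041),
   .der (nat_lit 30226) (nat_lit 4679),
   .der (nat_lit 30226) (nat_lit 5026),
   .der (nat_lit 30226) (nat_lit 6979),
   .der (nat_lit 33345) (nat_lit 2332),
   .der (nat_lit 33345) (nat_lit 6112),
   .der (nat_lit 33345) (nat_lit 6243),
   .der (nat_lit 33345) (nat_lit 7522),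
   .der (nat_lit 33345) (nat_lit 7654),
   .der (nat_lit 33345) (nat_lit 7790),
   .der (nat_lit 33345) (nat_lit 8134),
   .der (nat_lit 33345) (nat_lit 8218),
   .der (nat_lit 34068) (nat_lit 5827),
   .der (nat_lit 34068) (nat_lit 8650),
   .der (nat_lit 34068) (nat_lit 9314),
   .der (nat_lit 34068) (nat_lit 9522),
   .der (nat_lit 37425) (nat_lit 417),
   .der (nat_lit 37425) (nat_lit 1557),
   .der (nat_lit 37425) (nat_lit 4534),
   .der (nat_lit 38163) (nat_lit 477),
   .der (nat_lit 38163) (nat_lit 1714),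
   .der (nat_lit 38163) (nat_lit 4145),
   .der (nat_lit 38163) (nat_lit 5858),
   .der (nat_lit 1) (nat_lit 2277),
   .der (nat_lit 1) (nat_lit 2472),
   .der (nat_lit 1) (nat_lit 2647),
   .der (nat_lit 1) (nat_lit 3392),
   .der (nat_lit 1) (nat_lit 4555),
   .der (nat_lit 2) (nat_lit 1880),
   .der (nat_lit 2) (nat_lit 2040),
   .der (nat_lit 2) (nat_lit 7073),
   .der (nat_lit 2) (nat_lit 9271),
   .der (nat_lit 3) (nat_lit 1408),
   .der (nat_lit 3) (nat_lit 3392),
   .der (nat_lit 3) (nat_lit 3725),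
   .der (nat_lit 3) (nat_lit 3756),
   .der (nat_lit 3) (nat_lit 3760),
   .der (nat_lit 3) (nat_lit 4772),
   .der (nat_lit 3) (nat_lit 5613),
   .der (nat_lit 3) (nat_lit 9776),
   .der (nat_lit 4) (nat_lit 192),
   .der (nat_lit 4) (nat_lit 8733),
   .der (nat_lit 4) (nat_lit 9399),
   .der (nat_lit 5) (nat_lit 5905),
   .der (nat_lit 5) (nat_lit 6474),
   .der (nat_lit 5) (nat_lit 7461),
   .der (nat_lit 5) (nat_lit 8946),
   .der (nat_lit 5) (nat_lit 9217),
   .der (nat_lit 6) (nat_lit 1444),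
   .der (nat_lit 6) (nat_lit 2472),
   .der (nat_lit 6) (nat_lit 6865),
   .der (nat_lit 6) (nat_lit 7461),
   .der (nat_lit 6) (nat_lit 7472),
   .der (nat_lit 6) (nat_lit 8584),
   .der (nat_lit 6) (nat_lit 9206),
   .der (nat_lit 7) (nat_lit 3365),
   .der (nat_lit 7) (nat_lit 4793),
   .der (nat_lit 8) (nat_lit 5976),
   .der (nat_lit 8) (nat_lit 6111),
   .der (nat_lit 8) (nat_lit 6879),
   .der (nat_lit 8) (nat_lit 8120),
   .der (nat_lit 8) (nat_lit 8258),
   .der (nat_lit 8) (nat_lit 8936),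
   .der (nat_lit 8) (nat_lit 8971),
   .der (nat_lit 8) (nat_lit 9277),
   .der (nat_lit 9) (nat_lit 1428),
   .der (nat_lit 9) (nat_lit 1728),
   .der (nat_lit 9) (nat_lit 3172),
   .der (nat_lit 9) (nat_lit 3199),
   .der (nat_lit 9) (nat_lit 3200),
   .der (nat_lit 9) (nat_lit 3258),
   .der (nat_lit 9) (nat_lit 3347),
   .der (nat_lit 9) (nat_lit 4233),
   .der (nat_lit 9) (nat_lit 4292),
   .der (nat_lit 9) (nat_lit 4585),
   .der (nat_lit 9) (nat_lit 5817),
   .der (nat_lit 9) (nat_lit 5848),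
   .der (nat_lit 9) (nat_lit 5864),
   .der (nat_lit 9) (nat_lit 7767),
   .der (nat_lit 9) (nat_lit 9331),
   .der (nat_lit 9) (nat_lit 9607),
   .der (nat_lit 10) (nat_lit 695),
   .der (nat_lit 10) (nat_lit 2229),
   .der (nat_lit 10) (nat_lit 5858),
   .der (nat_lit 10) (nat_lit 7262),
   .der (nat_lit 10) (nat_lit 7461),
   .der (nat_lit 10) (nat_lit 7672),
   .der (nat_lit 10) (nat_lit 8678),
   .der (nat_lit 10) (nat_lit 9776),
   .der (nat_lit 18) (nat_lit 1542),
   .der (nat_lit 18) (nat_lit 6060),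
   .der (nat_lit 18) (nat_lit 6079),
   .der (nat_lit 18) (nat_lit 6979),
   .der (nat_lit 19) (nat_lit 2472),
   .der (nat_lit 19) (nat_lit 3725),
   .der (nat_lit 19) (nat_lit 3756),
   .der (nat_lit 19) (nat_lit 6832),
   .der (nat_lit 19) (nat_lit 8519),
   .der (nat_lit 19) (nat_lit 9600),
   .der (nat_lit 20) (nat_lit 10),
   .der (nat_lit 20) (nat_lit 981),
   .der (nat_lit 20) (nat_lit 2838),
   .der (nat_lit 20) (nat_lit 2917),
   .der (nat_lit 33) (nat_lit 1446),
   .der (nat_lit 33) (nat_lit 9211),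
   .der (nat_lit 33) (nat_lit 9277),
   .der (nat_lit 35) (nat_lit 2188),
   .der (nat_lit 35) (nat_lit 5155),
   .der (nat_lit 35) (nat_lit 5920),
   .der (nat_lit 35) (nat_lit 5976),
   .der (nat_lit 35) (nat_lit 7520),
   .der (nat_lit 35) (nat_lit 8936),
   .der (nat_lit 35) (nat_lit 9522),
   .der (nat_lit 35) (nat_lit 9526),
   .der (nat_lit 36) (nat_lit 1562),
   .der (nat_lit 36) (nat_lit 2183),
   .der (nat_lit 36) (nat_lit 2360),
   .der (nat_lit 36) (nat_lit 2838),
   .der (nat_lit 36) (nat_lit 4145),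
   .der (nat_lit 36) (nat_lit 4149),
   .der (nat_lit 36) (nat_lit 6817),
   .der (nat_lit 49) (nat_lit 2332),
   .der (nat_lit 49) (nat_lit 6318),
   .der (nat_lit 49) (nat_lit 7472),
   .der (nat_lit 49) (nat_lit 7490),
   .der (nat_lit 49) (nat_lit 8134),
   .der (nat_lit 50) (nat_lit 1928),
   .der (nat_lit 50) (nat_lit 3604),
   .der (nat_lit 50) (nat_lit 4002),
   .der (nat_lit 50) (nat_lit 5949),
   .der (nat_lit 52) (nat_lit 1085),
   .der (nat_lit 52) (nat_lit 5107),
   .der (nat_lit 52) (nat_lit 5935),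
   .der (nat_lit 52) (nat_lit 6072),
   .der (nat_lit 52) (nat_lit 7461),
   .der (nat_lit 65) (nat_lit 967),
   .der (nat_lit 65) (nat_lit 2224),
   .der (nat_lit 66) (nat_lit 2346),
   .der (nat_lit 66) (nat_lit 3011),
   .der (nat_lit 67) (nat_lit 1085),
   .der (nat_lit 67) (nat_lit 1867),
   .der (nat_lit 67) (nat_lit 5901),
   .der (nat_lit 67) (nat_lit 6888),
   .der (nat_lit 83) (nat_lit 2472),
   .der (nat_lit 83) (nat_lit 5463),
   .der (nat_lit 84) (nat_lit 2040),
   .der (nat_lit 84) (nat_lit 5107),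
   .der (nat_lit 86) (nat_lit 1041),
   .der (nat_lit 86) (nat_lit 5388),
   .der (nat_lit 86) (nat_lit 5894),
   .der (nat_lit 86) (nat_lit 7645),
   .der (nat_lit 86) (nat_lit 8134),
   .der (nat_lit 86) (nat_lit 8584),
   .der (nat_lit 86) (nat_lit 9244),
   .der (nat_lit 86) (nat_lit 9296),
   .der (nat_lit 86) (nat_lit 9654),
   .der (nat_lit 86) (nat_lit 9720),
   .der (nat_lit 87) (nat_lit 64),
   .der (nat_lit 87) (nat_lit 873),
   .der (nat_lit 87) (nat_lit 930),
   .der (nat_lit 87) (nat_lit 2227),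
   .der (nat_lit 87) (nat_lit 2557),
   .der (nat_lit 87) (nat_lit 4145),
   .der (nat_lit 87) (nat_lit 7701),
   .der (nat_lit 98) (nat_lit 8134),
   .der (nat_lit 98) (nat_lit 8941),
   .der (nat_lit 100) (nat_lit 10),
   .der (nat_lit 100) (nat_lit 72),
   .der (nat_lit 100) (nat_lit 943),
   .der (nat_lit 100) (nat_lit 952),
   .der (nat_lit 101) (nat_lit 4229),
   .der (nat_lit 101) (nat_lit 4459),
   .der (nat_lit 101) (nat_lit 6839),
   .der (nat_lit 101) (nat_lit 7318),
   .der (nat_lit 101) (nat_lit 7481),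
   .der (nat_lit 101) (nat_lit 7542),
   .der (nat_lit 101) (nat_lit 8906),
   .der (nat_lit 101) (nat_lit 9127),
   .der (nat_lit 101) (nat_lit 9277),
   .der (nat_lit 103) (nat_lit 37),
   .der (nat_lit 103) (nat_lit 121),
   .der (nat_lit 103) (nat_lit 934),
   .der (nat_lit 103) (nat_lit 4602),
   .der (nat_lit 103) (nat_lit 6353),
   .der (nat_lit 103) (nat_lit 7461),
   .der (nat_lit 114) (nat_lit 2740),
   .der (nat_lit 117) (nat_lit 1400),
   .der (nat_lit 117) (nat_lit 3485),
   .der (nat_lit 117) (nat_lit 5817),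
   .der (nat_lit 117) (nat_lit 6817),
   .der (nat_lit 117) (nat_lit 7607),
   .der (nat_lit 118) (nat_lit 1647),
   .der (nat_lit 129) (nat_lit 1539),
   .der (nat_lit 129) (nat_lit 4002),
   .der (nat_lit 129) (nat_lit 4588),
   .der (nat_lit 129) (nat_lit 4800),
   .der (nat_lit 129) (nat_lit 6111),
   .der (nat_lit 129) (nat_lit 6865),
   .der (nat_lit 132) (nat_lit 1824),
   .der (nat_lit 132) (nat_lit 5850),
   .der (nat_lit 132) (nat_lit 8258),
   .der (nat_lit 135) (nat_lit 2332),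
   .der (nat_lit 135) (nat_lit 3132),
   .der (nat_lit 135) (nat_lit 4343),
   .der (nat_lit 135) (nat_lit 4588),
   .der (nat_lit 137) (nat_lit 4002),
   .der (nat_lit 137) (nat_lit 5809),
   .der (nat_lit 137) (nat_lit 5873),
   .der (nat_lit 137) (nat_lit 6906),
   .der (nat_lit 137) (nat_lit 7560),
   .der (nat_lit 137) (nat_lit 8936),
   .der (nat_lit 145) (nat_lit 98),
   .der (nat_lit 145) (nat_lit 172),
   .der (nat_lit 145) (nat_lit 1252),
   .der (nat_lit 145) (nat_lit 1533),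
   .der (nat_lit 145) (nat_lit 3338),
   .der (nat_lit 145) (nat_lit 4263),
   .der (nat_lit 145) (nat_lit 4504),
   .der (nat_lit 145) (nat_lit 6474),
   .der (nat_lit 147) (nat_lit 87),
   .der (nat_lit 147) (nat_lit 187),
   .der (nat_lit 147) (nat_lit 864),
   .der (nat_lit 147) (nat_lit 1166),
   .der (nat_lit 147) (nat_lit 1461),
   .der (nat_lit 147) (nat_lit 2300),
   .der (nat_lit 147) (nat_lit 2838),
   .der (nat_lit 147) (nat_lit 4035),
   .der (nat_lit 147) (nat_lit 4071),
   .der (nat_lit 147) (nat_lit 5216),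
   .der (nat_lit 147) (nat_lit 6088),
   .der (nat_lit 147) (nat_lit 8130),
   .der (nat_lit 150) (nat_lit 1940),
   .der (nat_lit 150) (nat_lit 2356),
   .der (nat_lit 150) (nat_lit 3172),
   .der (nat_lit 150) (nat_lit 3353),
   .der (nat_lit 150) (nat_lit 3716),
   .der (nat_lit 150) (nat_lit 4585),
   .der (nat_lit 150) (nat_lit 4766),
   .der (nat_lit 150) (nat_lit 5845),
   .der (nat_lit 150) (nat_lit 6541),
   .der (nat_lit 150) (nat_lit 6850),
   .der (nat_lit 150) (nat_lit 7154),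
   .der (nat_lit 152) (nat_lit 1074),
   .der (nat_lit 152) (nat_lit 2300),
   .der (nat_lit 152) (nat_lit 3116),
   .der (nat_lit 152) (nat_lit 3141),
   .der (nat_lit 152) (nat_lit 4071),
   .der (nat_lit 152) (nat_lit 4766),
   .der (nat_lit 152) (nat_lit 6331),
   .der (nat_lit 152) (nat_lit 7453),
   .der (nat_lit 152) (nat_lit 7494),
   .der (nat_lit 152) (nat_lit 9440),
   .der (nat_lit 161) (nat_lit 1647),
   .der (nat_lit 161) (nat_lit 2543),
   .der (nat_lit 161) (nat_lit 5067),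
   .der (nat_lit 161) (nat_lit 5220),
   .der (nat_lit 161) (nat_lit 7461),
   .der (nat_lit 161) (nat_lit 9504),
   .der (nat_lit 162) (nat_lit 6079),
   .der (nat_lit 165) (nat_lit 1569),
   .der (nat_lit 165) (nat_lit 1864),
   .der (nat_lit 165) (nat_lit 2847),
   .der (nat_lit 165) (nat_lit 3340),
   .der (nat_lit 165) (nat_lit 3556),
   .der (nat_lit 165) (nat_lit 4706),
   .der (nat_lit 339) (nat_lit 7456),
   .der (nat_lit 339) (nat_lit 7481),
   .der (nat_lit 339) (nat_lit 9890),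
   .der (nat_lit 339) (nat_lit 9966),
   .der (nat_lit 340) (nat_lit 1867),
   .der (nat_lit 340) (nat_lit 2557),
   .der (nat_lit 340) (nat_lit 3251),
   .der (nat_lit 354) (nat_lit 1448),
   .der (nat_lit 354) (nat_lit 4339),
   .der (nat_lit 354) (nat_lit 4534),
   .der (nat_lit 354) (nat_lit 7490),
   .der (nat_lit 354) (nat_lit 8134),
   .der (nat_lit 356) (nat_lit 74),
   .der (nat_lit 356) (nat_lit 1041),
   .der (nat_lit 356) (nat_lit 7534),
   .der (nat_lit 370) (nat_lit 2188),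
   .der (nat_lit 370) (nat_lit 2917),
   .der (nat_lit 370) (nat_lit 9087),
   .der (nat_lit 371) (nat_lit 1041),
   .der (nat_lit 561) (nat_lit 495),
   .der (nat_lit 561) (nat_lit 686),
   .der (nat_lit 561) (nat_lit 1041),
   .der (nat_lit 561) (nat_lit 6850),
   .der (nat_lit 561) (nat_lit 7027),
   .der (nat_lit 561) (nat_lit 8951),
   .der (nat_lit 577) (nat_lit 172),
   .der (nat_lit 577) (nat_lit 586),
   .der (nat_lit 577) (nat_lit 1399),
   .der (nat_lit 577) (nat_lit 1557),
   .der (nat_lit 577) (nat_lit 2363),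
   .der (nat_lit 577) (nat_lit 4048),
   .der (nat_lit 577) (nat_lit 4534),
   .der (nat_lit 577) (nat_lit 5858),
   .der (nat_lit 577) (nat_lit 6817),
   .der (nat_lit 612) (nat_lit 172),
   .der (nat_lit 612) (nat_lit 848),
   .der (nat_lit 612) (nat_lit 1051),
   .der (nat_lit 612) (nat_lit 1562),
   .der (nat_lit 612) (nat_lit 2183),
   .der (nat_lit 612) (nat_lit 6885),
   .der (nat_lit 612) (nat_lit 7628),
   .der (nat_lit 627) (nat_lit 2192),
   .der (nat_lit 627) (nat_lit 2201),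
   .der (nat_lit 627) (nat_lit 3175),
   .der (nat_lit 644) (nat_lit 864),
   .der (nat_lit 644) (nat_lit 5046),
   .der (nat_lit 644) (nat_lit 5818),
   .der (nat_lit 644) (nat_lit 5823),
   .der (nat_lit 644) (nat_lit 6088),
   .der (nat_lit 659) (nat_lit 7634),
   .der (nat_lit 801) (nat_lit 655),
   .der (nat_lit 801) (nat_lit 1261),
   .der (nat_lit 801) (nat_lit 1446),
   .der (nat_lit 801) (nat_lit 4002),
   .der (nat_lit 801) (nat_lit 4292),
   .der (nat_lit 801) (nat_lit 4487),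
   .der (nat_lit 801) (nat_lit 6083),
   .der (nat_lit 801) (nat_lit 6088),
   .der (nat_lit 801) (nat_lit 8906),
   .der (nat_lit 833) (nat_lit 479),
   .der (nat_lit 833) (nat_lit 1478),
   .der (nat_lit 833) (nat_lit 4602),
   .der (nat_lit 833) (nat_lit 5283),
   .der (nat_lit 833) (nat_lit 6562),
   .der (nat_lit 834) (nat_lit 4184),
   .der (nat_lit 834) (nat_lit 4420),
   .der (nat_lit 834) (nat_lit 5478),
   .der (nat_lit 852) (nat_lit 421),
   .der (nat_lit 852) (nat_lit 1085),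
   .der (nat_lit 852) (nat_lit 4379),
   .der (nat_lit 852) (nat_lit 5800),
   .der (nat_lit 882) (nat_lit 84),
   .der (nat_lit 882) (nat_lit 2072),
   .der (nat_lit 882) (nat_lit 4602),
   .der (nat_lit 882) (nat_lit 4652),
   .der (nat_lit 882) (nat_lit 7511),
   .der (nat_lit 882) (nat_lit 7618),
   .der (nat_lit 1057) (nat_lit 1088),
   .der (nat_lit 1057) (nat_lit 1512),
   .der (nat_lit 1057) (nat_lit 1928),
   .der (nat_lit 1057) (nat_lit 3118),
   .der (nat_lit 1073) (nat_lit 1425),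
   .der (nat_lit 1073) (nat_lit 2740),
   .der (nat_lit 1073) (nat_lit 4131),
   .der (nat_lit 1073) (nat_lit 5445),
   .der (nat_lit 1073) (nat_lit 5973),
   .der (nat_lit 1074) (nat_lit 1406),
   .der (nat_lit 1074) (nat_lit 2346),
   .der (nat_lit 1074) (nat_lit 3133),
   .der (nat_lit 1074) (nat_lit 3144),
   .der (nat_lit 1074) (nat_lit 4184),
   .der (nat_lit 1074) (nat_lit 5194),
   .der (nat_lit 1074) (nat_lit 7176),
   .der (nat_lit 1074) (nat_lit 8171),
   .der (nat_lit 1107) (nat_lit 5901),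
   .der (nat_lit 1122) (nat_lit 2356),
   .der (nat_lit 1122) (nat_lit 3748),
   .der (nat_lit 1122) (nat_lit 4365),
   .der (nat_lit 1122) (nat_lit 4879),
   .der (nat_lit 1299) (nat_lit 2188),
   .der (nat_lit 1299) (nat_lit 2255),
   .der (nat_lit 1299) (nat_lit 4117),
   .der (nat_lit 1299) (nat_lit 4242),
   .der (nat_lit 1299) (nat_lit 4300),
   .der (nat_lit 1299) (nat_lit 6810),
   .der (nat_lit 1299) (nat_lit 7456),
   .der (nat_lit 1299) (nat_lit 8162),
   .der (nat_lit 1299) (nat_lit 9522),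
   .der (nat_lit 1299) (nat_lit 9979),
   .der (nat_lit 1300) (nat_lit 1392),
   .der (nat_lit 1300) (nat_lit 1475),
   .der (nat_lit 1300) (nat_lit 1562),
   .der (nat_lit 1300) (nat_lit 4145),
   .der (nat_lit 1300) (nat_lit 9547),
   .der (nat_lit 1380) (nat_lit 923),
   .der (nat_lit 1380) (nat_lit 2284),
   .der (nat_lit 1395) (nat_lit 1389),
   .der (nat_lit 1395) (nat_lit 1550),
   .der (nat_lit 1395) (nat_lit 2241),
   .der (nat_lit 1395) (nat_lit 2369),
   .der (nat_lit 1415) (nat_lit 417),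
   .der (nat_lit 1415) (nat_lit 873),
   .der (nat_lit 1415) (nat_lit 967),
   .der (nat_lit 1415) (nat_lit 1425),
   .der (nat_lit 1415) (nat_lit 1940),
   .der (nat_lit 1415) (nat_lit 3199),
   .der (nat_lit 1415) (nat_lit 3716),
   .der (nat_lit 1415) (nat_lit 5510),
   .der (nat_lit 1415) (nat_lit 6850),
   .der (nat_lit 1415) (nat_lit 9287),
   .der (nat_lit 1415) (nat_lit 9837),
   .der (nat_lit 1430) (nat_lit 1425),
   .der (nat_lit 1554) (nat_lit 4292),
   .der (nat_lit 1554) (nat_lit 5928),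
   .der (nat_lit 1554) (nat_lit 7553),
   .der (nat_lit 1554) (nat_lit 8927)]

theorem b5_step31 (h : ∀ j < 15500, Good b5T j) : ∀ j < 16000, Good b5T j := by
  intro j hj
  refine chkL_ok b5C31 15500 h (by decide +kernel) j ?_
  have h : b5C31.length = 500 := by decide +kernel
  omega


end Tab

end Pool.Agent.Work.MP_bf01b2_co.MR
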