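import Pool.Agent.Work.MP_bf01b2_co.MR.B5T

set_option maxRecDepth 100000

namespace Pool.Agent.Work.MP_bf01b2_co.MR

namespace Tab

/-- certificates 16000..16500 -/
def b5C32 : List Cf :=
  [.der (nat_lit 1556) (nat_lit 481),
   .der (nat_lit 1556) (nat_lit 2191),
   .der (nat_lit 1556) (nat_lit 3760),
   .der (nat_lit 1556) (nat_lit 4575),
   .der (nat_lit 1556) (nat_lit 5107),
   .der (nat_lit 1556) (nat_lit 8316),
   .der (nat_lit 1620) (nat_lit 4106),
   .der (nat_lit 1620) (nat_lit 9127),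
   .der (nat_lit 1650) (nat_lit 1904),
   .der (nat_lit 1650) (nat_lit 4202),
   .der (nat_lit 1653) (nat_lit 3199),
   .der (nat_lit 1653) (nat_lit 8491),
   .der (nat_lit 1653) (nat_lit 9127),
   .der (nat_lit 1810) (nat_lit 4035),
   .der (nat_lit 1810) (nat_lit 4563),
   .der (nat_lit 1810) (nat_lit 9331),
   .der (nat_lit 1811) (nat_lit 1052),
   .der (nat_lit 1811) (nat_lit 2543),
   .der (nat_lit 1811) (nat_lit 4010),
   .der (nat_lit 1890) (nat_lit 889),
   .der (nat_lit 1890) (nat_lit 3576),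
   .der (nat_lit 1890) (nat_lit 3716),
   .der (nat_lit 1890) (nat_lit 4365),
   .der (nat_lit 1893) (nat_lit 7795),
   .der (nat_lit 2068) (nat_lit 952),
   .der (nat_lit 2068) (nat_lit 2838),
   .der (nat_lit 2068) (nat_lit 3008),
   .der (nat_lit 2068) (nat_lit 5915),
   .der (nat_lit 2068) (nat_lit 6885),
   .der (nat_lit 2084) (nat_lit 864),
   .der (nat_lit 2084) (nat_lit 5920),
   .der (nat_lit 2084) (nat_lit 5939),
   .der (nat_lit 2084) (nat_lit 6292),
   .der (nat_lit 2084) (nat_lit 8936),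
   .der (nat_lit 2084) (nat_lit 9636),
   .der (nat_lit 2113) (nat_lit 4588),
   .der (nat_lit 2113) (nat_lit 5445),
   .der (nat_lit 2113) (nat_lit 7143),
   .der (nat_lit 2135) (nat_lit 7560),
   .der (nat_lit 2135) (nat_lit 8363),
   .der (nat_lit 2193) (nat_lit 2526),
   .der (nat_lit 2193) (nat_lit 3132),
   .der (nat_lit 2193) (nat_lit 7672),
   .der (nat_lit 2193) (nat_lit 7714),
   .der (nat_lit 2193) (nat_lit 7790),
   .der (nat_lit 2193) (nat_lit 7866),
   .der (nat_lit 2323) (nat_lit 3147),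
   .der (nat_lit 2323) (nat_lit 3359),
   .der (nat_lit 2323) (nat_lit 4002),
   .der (nat_lit 2323) (nat_lit 4035),
   .der (nat_lit 2323) (nat_lit 4254),
   .der (nat_lit 2323) (nat_lit 4263),
   .der (nat_lit 2323) (nat_lit 4766),
   .der (nat_lit 2323) (nat_lit 7469),
   .der (nat_lit 2339) (nat_lit 70),
   .der (nat_lit 2339) (nat_lit 1399),
   .der (nat_lit 2339) (nat_lit 2262),
   .der (nat_lit 2339) (nat_lit 3144),
   .der (nat_lit 2339) (nat_lit 3229),
   .der (nat_lit 2339) (nat_lit 3460),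
   .der (nat_lit 2339) (nat_lit 4145),
   .der (nat_lit 2339) (nat_lit 5107),
   .der (nat_lit 2353) (nat_lit 1534),
   .der (nat_lit 2353) (nat_lit 2194),
   .der (nat_lit 2353) (nat_lit 2251),
   .der (nat_lit 2353) (nat_lit 2581),
   .der (nat_lit 2353) (nat_lit 3338),
   .der (nat_lit 2353) (nat_lit 3454),
   .der (nat_lit 2353) (nat_lit 3716),
   .der (nat_lit 2353) (nat_lit 4028),
   .der (nat_lit 2353) (nat_lit 4039),
   .der (nat_lit 2353) (nat_lit 4071),
   .der (nat_lit 2353) (nat_lit 4254),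
   .der (nat_lit 2353) (nat_lit 4585),
   .der (nat_lit 2353) (nat_lit 5510),
   .der (nat_lit 2353) (nat_lit 6541),
   .der (nat_lit 2353) (nat_lit 6836),
   .der (nat_lit 2353) (nat_lit 7154),
   .der (nat_lit 2390) (nat_lit 1078),
   .der (nat_lit 2390) (nat_lit 2386),
   .der (nat_lit 2390) (nat_lit 2557),
   .der (nat_lit 2390) (nat_lit 3122),
   .der (nat_lit 2390) (nat_lit 3144),
   .der (nat_lit 2390) (nat_lit 3229),
   .der (nat_lit 2390) (nat_lit 3276),
   .der (nat_lit 2390) (nat_lit 4131),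
   .der (nat_lit 2390) (nat_lit 4534),
   .der (nat_lit 2390) (nat_lit 5220),
   .der (nat_lit 2390) (nat_lit 5858),
   .der (nat_lit 2390) (nat_lit 7494),
   .der (nat_lit 2390) (nat_lit 8995),
   .der (nat_lit 2390) (nat_lit 9076),
   .der (nat_lit 2433) (nat_lit 1647),
   .der (nat_lit 2433) (nat_lit 2262),
   .der (nat_lit 2433) (nat_lit 2531),
   .der (nat_lit 2433) (nat_lit 2543),
   .der (nat_lit 2433) (nat_lit 3144),
   .der (nat_lit 2433) (nat_lit 3619),
   .der (nat_lit 2433) (nat_lit 4233),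
   .der (nat_lit 2433) (nat_lit 4292),
   .der (nat_lit 2433) (nat_lit 5116),
   .der (nat_lit 2433) (nat_lit 6243),
   .der (nat_lit 2433) (nat_lit 7464),
   .der (nat_lit 2433) (nat_lit 8691),
   .der (nat_lit 2433) (nat_lit 9331),
   .der (nat_lit 2433) (nat_lit 9607),
   .der (nat_lit 2578) (nat_lit 2847),
   .der (nat_lit 2578) (nat_lit 3340),
   .der (nat_lit 2578) (nat_lit 4246),
   .der (nat_lit 2578) (nat_lit 4271),
   .der (nat_lit 2578) (nat_lit 5067),
   .der (nat_lit 2578) (nat_lit 5220),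
   .der (nat_lit 2578) (nat_lit 7262),
   .der (nat_lit 2578) (nat_lit 8678),
   .der (nat_lit 2593) (nat_lit 2847),
   .der (nat_lit 2593) (nat_lit 3576),
   .der (nat_lit 2593) (nat_lit 4246),
   .der (nat_lit 2593) (nat_lit 6888),
   .der (nat_lit 4978) (nat_lit 2356),
   .der (nat_lit 4978) (nat_lit 4184),
   .der (nat_lit 4978) (nat_lit 4202),
   .der (nat_lit 4978) (nat_lit 7511),
   .der (nat_lit 5218) (nat_lit 3727),
   .der (nat_lit 5218) (nat_lit 4652),
   .der (nat_lit 5218) (nat_lit 7143),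
   .der (nat_lit 5716) (nat_lit 1309),
   .der (nat_lit 5716) (nat_lit 4292),
   .der (nat_lit 5971) (nat_lit 1579),
   .der (nat_lit 5971) (nat_lit 1682),
   .der (nat_lit 5971) (nat_lit 3748),
   .der (nat_lit 5971) (nat_lit 5901),
   .der (nat_lit 5971) (nat_lit 9127),
   .der (nat_lit 9572) (nat_lit 930),
   .der (nat_lit 9572) (nat_lit 952),
   .der (nat_lit 9572) (nat_lit 7534),
   .der (nat_lit 9587) (nat_lit 37),
   .der (nat_lit 9587) (nat_lit 930),
   .der (nat_lit 9587) (nat_lit 5861),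
   .der (nat_lit 9587) (nat_lit 9371),
   .der (nat_lit 10305) (nat_lit 1747),
   .der (nat_lit 10305) (nat_lit 2307),
   .der (nat_lit 10305) (nat_lit 2528),
   .der (nat_lit 10305) (nat_lit 4055),
   .der (nat_lit 10305) (nat_lit 5818),
   .der (nat_lit 10305) (nat_lit 7154),
   .der (nat_lit 10545) (nat_lit 1425),
   .der (nat_lit 10545) (nat_lit 1473),
   .der (nat_lit 10545) (nat_lit 1534),
   .der (nat_lit 10545) (nat_lit 3172),
   .der (nat_lit 10545) (nat_lit 4041),
   .der (nat_lit 10545) (nat_lit 5510),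
   .der (nat_lit 10545) (nat_lit 7143),
   .der (nat_lit 10545) (nat_lit 7154),
   .der (nat_lit 12658) (nat_lit 2432),
   .der (nat_lit 12658) (nat_lit 4379),
   .der (nat_lit 13345) (nat_lit 1261),
   .der (nat_lit 13345) (nat_lit 3132),
   .der (nat_lit 13345) (nat_lit 4039),
   .der (nat_lit 13345) (nat_lit 4061),
   .der (nat_lit 13345) (nat_lit 4706),
   .der (nat_lit 13345) (nat_lit 5162),
   .der (nat_lit 13345) (nat_lit 9197),
   .der (nat_lit 16738) (nat_lit 2203),
   .der (nat_lit 16738) (nat_lit 3126),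
   .der (nat_lit 16738) (nat_lit 3473),
   .der (nat_lit 16738) (nat_lit 4365),
   .der (nat_lit 16738) (nat_lit 5220),
   .der (nat_lit 16738) (nat_lit 9855),
   .der (nat_lit 17185) (nat_lit 992),
   .der (nat_lit 17185) (nat_lit 1542),
   .der (nat_lit 17185) (nat_lit 3133),
   .der (nat_lit 17185) (nat_lit 4588),
   .der (nat_lit 21092) (nat_lit 441),
   .der (nat_lit 21092) (nat_lit 4134),
   .der (nat_lit 21107) (nat_lit 845),
   .der (nat_lit 21107) (nat_lit 855),
   .der (nat_lit 21107) (nat_lit 873),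
   .der (nat_lit 21107) (nat_lit 943),
   .der (nat_lit 21107) (nat_lit 1030),
   .der (nat_lit 21107) (nat_lit 2356),
   .der (nat_lit 21107) (nat_lit 2365),
   .der (nat_lit 21107) (nat_lit 2369),
   .der (nat_lit 21107) (nat_lit 3229),
   .der (nat_lit 21107) (nat_lit 5053),
   .der (nat_lit 21107) (nat_lit 7628),
   .der (nat_lit 21107) (nat_lit 9056),
   .der (nat_lit 21107) (nat_lit 9911),
   .der (nat_lit 22548) (nat_lit 2197),
   .der (nat_lit 22548) (nat_lit 2940),
   .der (nat_lit 22548) (nat_lit 9684),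
   .der (nat_lit 22803) (nat_lit 873),
   .der (nat_lit 22803) (nat_lit 2651),
   .der (nat_lit 24916) (nat_lit 5107),
   .der (nat_lit 26386) (nat_lit 84),
   .der (nat_lit 26386) (nat_lit 4103),
   .der (nat_lit 26386) (nat_lit 7542),
   .der (nat_lit 26386) (nat_lit 7553),
   .der (nat_lit 26386) (nat_lit 7761),
   .der (nat_lit 26386) (nat_lit 8580),
   .der (nat_lit 26386) (nat_lit 9026),
   .der (nat_lit 29011) (nat_lit 177),
   .der (nat_lit 29011) (nat_lit 2040),
   .der (nat_lit 29011) (nat_lit 4504),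
   .der (nat_lit 29011) (nat_lit 5046),
   .der (nat_lit 29011) (nat_lit 6817),
   .der (nat_lit 30226) (nat_lit 1589),
   .der (nat_lit 30226) (nat_lit 2429),
   .der (nat_lit 30226) (nat_lit 2769),
   .der (nat_lit 30226) (nat_lit 7494),
   .der (nat_lit 33345) (nat_lit 873),
   .der (nat_lit 33345) (nat_lit 3389),
   .der (nat_lit 33345) (nat_lit 8930),
   .der (nat_lit 34068) (nat_lit 76),
   .der (nat_lit 34068) (nat_lit 2210),
   .der (nat_lit 34068) (nat_lit 4113),
   .der (nat_lit 34068) (nat_lit 4117),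
   .der (nat_lit 34068) (nat_lit 4300),
   .der (nat_lit 34068) (nat_lit 5283),
   .der (nat_lit 34068) (nat_lit 7790),
   .der (nat_lit 34068) (nat_lit 8936),
   .der (nat_lit 34068) (nat_lit 9249),
   .der (nat_lit 37425) (nat_lit 2183),
   .der (nat_lit 37425) (nat_lit 2224),
   .der (nat_lit 37425) (nat_lit 3126),
   .der (nat_lit 37425) (nat_lit 3133),
   .der (nat_lit 37425) (nat_lit 4563),
   .der (nat_lit 37425) (nat_lit 5858),
   .der (nat_lit 37425) (nat_lit 6322),
   .der (nat_lit 37425) (nat_lit 6817),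
   .der (nat_lit 37425) (nat_lit 7447),
   .der (nat_lit 38163) (nat_lit 545),
   .der (nat_lit 38163) (nat_lit 1399),
   .der (nat_lit 38163) (nat_lit 1456),
   .der (nat_lit 38163) (nat_lit 2543),
   .der (nat_lit 38163) (nat_lit 3251),
   .der (nat_lit 38163) (nat_lit 3340),
   .der (nat_lit 38163) (nat_lit 5067),
   .der (nat_lit 38163) (nat_lit 7308),
   .der (nat_lit 1) (nat_lit 3220),
   .der (nat_lit 1) (nat_lit 6077),
   .der (nat_lit 1) (nat_lit 6292),
   .der (nat_lit 1) (nat_lit 6810),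
   .der (nat_lit 1) (nat_lit 6885),
   .der (nat_lit 1) (nat_lit 7528),
   .der (nat_lit 1) (nat_lit 9197),
   .der (nat_lit 1) (nat_lit 9654),
   .der (nat_lit 2) (nat_lit 3357),
   .der (nat_lit 2) (nat_lit 4242),
   .der (nat_lit 2) (nat_lit 6810),
   .der (nat_lit 2) (nat_lit 6832),
   .der (nat_lit 2) (nat_lit 7472),
   .der (nat_lit 2) (nat_lit 9636),
   .der (nat_lit 2) (nat_lit 9654),
   .der (nat_lit 4) (nat_lit 960),
   .der (nat_lit 4) (nat_lit 4316),
   .der (nat_lit 4) (nat_lit 6474),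
   .der (nat_lit 5) (nat_lit 4365),
   .der (nat_lit 5) (nat_lit 6060),
   .der (nat_lit 5) (nat_lit 6292),
   .der (nat_lit 5) (nat_lit 7528),
   .der (nat_lit 6) (nat_lit 5905),
   .der (nat_lit 6) (nat_lit 6839),
   .der (nat_lit 6) (nat_lit 8491),
   .der (nat_lit 8) (nat_lit 7461),
   .der (nat_lit 9) (nat_lit 2560),
   .der (nat_lit 9) (nat_lit 3008),
   .der (nat_lit 9) (nat_lit 5250),
   .der (nat_lit 9) (nat_lit 9249),
   .der (nat_lit 10) (nat_lit 524),
   .der (nat_lit 10) (nat_lit 3138),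
   .der (nat_lit 10) (nat_lit 5029),
   .der (nat_lit 10) (nat_lit 5801),
   .der (nat_lit 10) (nat_lit 5807),
   .der (nat_lit 10) (nat_lit 6817),
   .der (nat_lit 10) (nat_lit 7447),
   .der (nat_lit 10) (nat_lit 8488),
   .der (nat_lit 10) (nat_lit 8558),
   .der (nat_lit 10) (nat_lit 9032),
   .der (nat_lit 18) (nat_lit 7560),
   .der (nat_lit 18) (nat_lit 9636),
   .der (nat_lit 18) (nat_lit 9654),
   .der (nat_lit 19) (nat_lit 3748),
   .der (nat_lit 19) (nat_lit 8514),
   .der (nat_lit 33) (nat_lit 1482),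
   .der (nat_lit 33) (nat_lit 4106),
   .der (nat_lit 33) (nat_lit 4242),
   .der (nat_lit 33) (nat_lit 4339),
   .der (nat_lit 33) (nat_lit 5873),
   .der (nat_lit 33) (nat_lit 6292),
   .der (nat_lit 33) (nat_lit 6880),
   .der (nat_lit 33) (nat_lit 7444),
   .der (nat_lit 33) (nat_lit 7472),
   .der (nat_lit 33) (nat_lit 9654),
   .der (nat_lit 35) (nat_lit 9211),
   .der (nat_lit 35) (nat_lit 9277),
   .der (nat_lit 35) (nat_lit 9631),
   .der (nat_lit 36) (nat_lit 6292),
   .der (nat_lit 36) (nat_lit 9636),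
   .der (nat_lit 49) (nat_lit 106),
   .der (nat_lit 49) (nat_lit 1446),
   .der (nat_lit 49) (nat_lit 5953),
   .der (nat_lit 49) (nat_lit 8491),
   .der (nat_lit 50) (nat_lit 2197),
   .der (nat_lit 50) (nat_lit 3190),
   .der (nat_lit 50) (nat_lit 5837),
   .der (nat_lit 50) (nat_lit 7461),
   .der (nat_lit 52) (nat_lit 77),
   .der (nat_lit 52) (nat_lit 952),
   .der (nat_lit 52) (nat_lit 1534),
   .der (nat_lit 52) (nat_lit 5053),
   .der (nat_lit 52) (nat_lit 8122),
   .der (nat_lit 65) (nat_lit 2332),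
   .der (nat_lit 66) (nat_lit 5250),
   .der (nat_lit 83) (nat_lit 2188),
   .der (nat_lit 83) (nat_lit 7528),
   .der (nat_lit 84) (nat_lit 76),
   .der (nat_lit 86) (nat_lit 1446),
   .der (nat_lit 86) (nat_lit 3118),
   .der (nat_lit 86) (nat_lit 3562),
   .der (nat_lit 86) (nat_lit 5905),
   .der (nat_lit 86) (nat_lit 8491),
   .der (nat_lit 86) (nat_lit 9211),
   .der (nat_lit 86) (nat_lit 9966),
   .der (nat_lit 87) (nat_lit 5171),
   .der (nat_lit 87) (nat_lit 9244),
   .der (nat_lit 98) (nat_lit 3604),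
   .der (nat_lit 98) (nat_lit 5986),
   .der (nat_lit 98) (nat_lit 6848),
   .der (nat_lit 100) (nat_lit 580),
   .der (nat_lit 101) (nat_lit 7461),
   .der (nat_lit 103) (nat_lit 2180),
   .der (nat_lit 114) (nat_lit 1444),
   .der (nat_lit 114) (nat_lit 2332),
   .der (nat_lit 117) (nat_lit 1428),
   .der (nat_lit 117) (nat_lit 2689),
   .der (nat_lit 117) (nat_lit 4002),
   .der (nat_lit 129) (nat_lit 4236),
   .der (nat_lit 129) (nat_lit 7461),
   .der (nat_lit 137) (nat_lit 1428),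
   .der (nat_lit 137) (nat_lit 3112),
   .der (nat_lit 137) (nat_lit 4055),
   .der (nat_lit 137) (nat_lit 5815),
   .der (nat_lit 137) (nat_lit 7453),
   .der (nat_lit 137) (nat_lit 7464),
   .der (nat_lit 145) (nat_lit 2320),
   .der (nat_lit 145) (nat_lit 2322),
   .der (nat_lit 145) (nat_lit 4800),
   .der (nat_lit 145) (nat_lit 9249),
   .der (nat_lit 147) (nat_lit 4092),
   .der (nat_lit 150) (nat_lit 4092),
   .der (nat_lit 150) (nat_lit 4231),
   .der (nat_lit 152) (nat_lit 1647),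
   .der (nat_lit 152) (nat_lit 9337),
   .der (nat_lit 161) (nat_lit 1399),
   .der (nat_lit 161) (nat_lit 1415),
   .der (nat_lit 161) (nat_lit 2342),
   .der (nat_lit 161) (nat_lit 3116),
   .der (nat_lit 161) (nat_lit 3138),
   .der (nat_lit 161) (nat_lit 3184),
   .der (nat_lit 161) (nat_lit 3985),
   .der (nat_lit 161) (nat_lit 4307),
   .der (nat_lit 161) (nat_lit 5116),
   .der (nat_lit 161) (nat_lit 5801),
   .der (nat_lit 161) (nat_lit 8488),
   .der (nat_lit 161) (nat_lit 9032),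
   .der (nat_lit 162) (nat_lit 1399),
   .der (nat_lit 162) (nat_lit 1419),
   .der (nat_lit 162) (nat_lit 2531),
   .der (nat_lit 162) (nat_lit 4048),
   .der (nat_lit 165) (nat_lit 1400),
   .der (nat_lit 165) (nat_lit 2227),
   .der (nat_lit 165) (nat_lit 6817),
   .der (nat_lit 165) (nat_lit 7447),
   .der (nat_lit 339) (nat_lit 5912),
   .der (nat_lit 340) (nat_lit 9636),
   .der (nat_lit 354) (nat_lit 3282),
   .der (nat_lit 371) (nat_lit 2432),
   .der (nat_lit 561) (nat_lit 4229),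
   .der (nat_lit 561) (nat_lit 8491),
   .der (nat_lit 577) (nat_lit 686),
   .der (nat_lit 577) (nat_lit 5171),
   .der (nat_lit 612) (nat_lit 3138),
   .der (nat_lit 612) (nat_lit 4178),
   .der (nat_lit 612) (nat_lit 5986),
   .der (nat_lit 627) (nat_lit 5067),
   .der (nat_lit 627) (nat_lit 8941),
   .der (nat_lit 659) (nat_lit 641),
   .der (nat_lit 659) (nat_lit 4055),
   .der (nat_lit 659) (nat_lit 5059),
   .der (nat_lit 659) (nat_lit 5815),
   .der (nat_lit 801) (nat_lit 3190),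
   .der (nat_lit 801) (nat_lit 4365),
   .der (nat_lit 801) (nat_lit 5837),
   .der (nat_lit 833) (nat_lit 1647),
   .der (nat_lit 833) (nat_lit 2180),
   .der (nat_lit 833) (nat_lit 3229),
   .der (nat_lit 833) (nat_lit 3609),
   .der (nat_lit 833) (nat_lit 3617),
   .der (nat_lit 833) (nat_lit 4233),
   .der (nat_lit 833) (nat_lit 4343),
   .der (nat_lit 834) (nat_lit 1428),
   .der (nat_lit 834) (nat_lit 4055),
   .der (nat_lit 834) (nat_lit 4800),
   .der (nat_lit 834) (nat_lit 6533),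
   .der (nat_lit 834) (nat_lit 7588),
   .der (nat_lit 852) (nat_lit 76),
   .der (nat_lit 852) (nat_lit 952),
   .der (nat_lit 852) (nat_lit 1438),
   .der (nat_lit 852) (nat_lit 2360),
   .der (nat_lit 852) (nat_lit 2369),
   .der (nat_lit 1057) (nat_lit 1534),
   .der (nat_lit 1073) (nat_lit 4020),
   .der (nat_lit 1074) (nat_lit 3166),
   .der (nat_lit 1074) (nat_lit 6072),
   .der (nat_lit 1299) (nat_lit 5883),
   .der (nat_lit 1300) (nat_lit 5800),
   .der (nat_lit 1300) (nat_lit 8930),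
   .der (nat_lit 1300) (nat_lit 9636),
   .der (nat_lit 1380) (nat_lit 9823),
   .der (nat_lit 1415) (nat_lit 3999),
   .der (nat_lit 1554) (nat_lit 4383),
   .der (nat_lit 1556) (nat_lit 98),
   .der (nat_lit 1556) (nat_lit 5801),
   .der (nat_lit 1556) (nat_lit 7453),
   .der (nat_lit 1556) (nat_lit 8130),
   .der (nat_lit 1650) (nat_lit 2171),
   .der (nat_lit 1650) (nat_lit 2180),
   .der (nat_lit 1650) (nat_lit 2210),
   .der (nat_lit 1650) (nat_lit 3122),
   .der (nat_lit 1650) (nat_lit 3229),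
   .der (nat_lit 1653) (nat_lit 3122),
   .der (nat_lit 1653) (nat_lit 3184),
   .der (nat_lit 1653) (nat_lit 4035),
   .der (nat_lit 1653) (nat_lit 4585),
   .der (nat_lit 1653) (nat_lit 4766),
   .der (nat_lit 1653) (nat_lit 5961),
   .der (nat_lit 1653) (nat_lit 7453),
   .der (nat_lit 1810) (nat_lit 1282),
   .der (nat_lit 1811) (nat_lit 1560),
   .der (nat_lit 1875) (nat_lit 5883),
   .der (nat_lit 1890) (nat_lit 6072),
   .der (nat_lit 1893) (nat_lit 9337),
   .der (nat_lit 2084) (nat_lit 70),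
   .der (nat_lit 2084) (nat_lit 545),
   .der (nat_lit 2084) (nat_lit 1438),
   .der (nat_lit 2084) (nat_lit 1550),
   .der (nat_lit 2084) (nat_lit 5053),
   .der (nat_lit 2113) (nat_lit 1758),
   .der (nat_lit 2113) (nat_lit 6243),
   .der (nat_lit 2135) (nat_lit 1456),
   .der (nat_lit 2135) (nat_lit 3122),
   .der (nat_lit 2135) (nat_lit 3229),
   .der (nat_lit 2135) (nat_lit 3273),
   .der (nat_lit 2135) (nat_lit 3457),
   .der (nat_lit 2135) (nat_lit 6030),
   .der (nat_lit 2135) (nat_lit 8143),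
   .der (nat_lit 2193) (nat_lit 1399),
   .der (nat_lit 2193) (nat_lit 1419),
   .der (nat_lit 2193) (nat_lit 1558),
   .der (nat_lit 2193) (nat_lit 2307),
   .der (nat_lit 2193) (nat_lit 3347),
   .der (nat_lit 2193) (nat_lit 4002),
   .der (nat_lit 2193) (nat_lit 4035),
   .der (nat_lit 2193) (nat_lit 4071),
   .der (nat_lit 2193) (nat_lit 7453),
   .der (nat_lit 2193) (nat_lit 7767),
   .der (nat_lit 2323) (nat_lit 2327),
   .der (nat_lit 2353) (nat_lit 4092),
   .der (nat_lit 2390) (nat_lit 1052),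
   .der (nat_lit 2433) (nat_lit 7023),
   .der (nat_lit 2578) (nat_lit 2227),
   .der (nat_lit 2578) (nat_lit 3477),
   .der (nat_lit 2578) (nat_lit 5807),
   .der (nat_lit 2578) (nat_lit 6072),
   .der (nat_lit 2578) (nat_lit 6817),
   .der (nat_lit 2578) (nat_lit 8813),
   .der (nat_lit 2593) (nat_lit 1022),
   .der (nat_lit 2593) (nat_lit 1456),
   .der (nat_lit 2593) (nat_lit 3122),
   .der (nat_lit 2593) (nat_lit 3229),
   .der (nat_lit 2593) (nat_lit 3985),
   .der (nat_lit 2593) (nat_lit 4048),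
   .der (nat_lit 2593) (nat_lit 5067),
   .der (nat_lit 2593) (nat_lit 5224),
   .der (nat_lit 2593) (nat_lit 6322),
   .der (nat_lit 2593) (nat_lit 6817),
   .der (nat_lit 4978) (nat_lit 2220),
   .der (nat_lit 5218) (nat_lit 5823),
   .der (nat_lit 5716) (nat_lit 960),
   .der (nat_lit 5716) (nat_lit 1041),
   .der (nat_lit 5971) (nat_lit 2327),
   .der (nat_lit 5971) (nat_lit 3229),
   .der (nat_lit 9572) (nat_lit 3282),
   .der (nat_lit 9572) (nat_lit 4178),
   .der (nat_lit 9572) (nat_lit 5869),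
   .der (nat_lit 9587) (nat_lit 2432),
   .der (nat_lit 10305) (nat_lit 4236),
   .der (nat_lit 10305) (nat_lit 5167),
   .der (nat_lit 10545) (nat_lit 2365),
   .der (nat_lit 10545) (nat_lit 7767)]

theorem b5_step32 (h : ∀ j < 16000, Good b5T j) : ∀ j < 16500, Good b5T j := by
  intro j hj
  refine chkL_ok b5C32 16000 h (by decide +kernel) j ?_
  have h : b5C32.length = 500 := by decide +kernel
  omega

/-- certificates 16500..17000 -/
def b5C33 : List Cf :=
  [.der (nat_lit 12658) (nat_lit 955),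
   .der (nat_lit 12658) (nat_lit 2180),
   .der (nat_lit 12658) (nat_lit 3229),
   .der (nat_lit 12658) (nat_lit 3988),
   .der (nat_lit 13345) (nat_lit 1534),
   .der (nat_lit 13345) (nat_lit 2194),
   .der (nat_lit 13345) (nat_lit 2249),
   .der (nat_lit 13345) (nat_lit 3359),
   .der (nat_lit 13345) (nat_lit 5026),
   .der (nat_lit 13345) (nat_lit 6533),
   .der (nat_lit 13345) (nat_lit 6939),
   .der (nat_lit 13345) (nat_lit 7466),
   .der (nat_lit 17185) (nat_lit 1400),
   .der (nat_lit 17185) (nat_lit 4602),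
   .der (nat_lit 21107) (nat_lit 2509),
   .der (nat_lit 22548) (nat_lit 1408),
   .der (nat_lit 22548) (nat_lit 9689),
   .der (nat_lit 22803) (nat_lit 7464),
   .der (nat_lit 24916) (nat_lit 1041),
   .der (nat_lit 24916) (nat_lit 1392),
   .der (nat_lit 24916) (nat_lit 2171),
   .der (nat_lit 24916) (nat_lit 2183),
   .der (nat_lit 24916) (nat_lit 2360),
   .der (nat_lit 26386) (nat_lit 187),
   .der (nat_lit 26386) (nat_lit 1428),
   .der (nat_lit 26386) (nat_lit 1550),
   .der (nat_lit 26386) (nat_lit 4035),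
   .der (nat_lit 26386) (nat_lit 4071),
   .der (nat_lit 26386) (nat_lit 5052),
   .der (nat_lit 29011) (nat_lit 1052),
   .der (nat_lit 33345) (nat_lit 201),
   .der (nat_lit 33345) (nat_lit 2199),
   .der (nat_lit 33345) (nat_lit 5067),
   .der (nat_lit 33345) (nat_lit 6030),
   .der (nat_lit 33345) (nat_lit 8143),
   .der (nat_lit 34068) (nat_lit 2360),
   .der (nat_lit 34068) (nat_lit 3236),
   .der (nat_lit 38163) (nat_lit 1560),
   .der (nat_lit 38163) (nat_lit 9646),
   .der (nat_lit 1) (nat_lit 6933),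
   .der (nat_lit 1) (nat_lit 9249),
   .der (nat_lit 2) (nat_lit 881),
   .der (nat_lit 2) (nat_lit 4402),
   .der (nat_lit 2) (nat_lit 5924),
   .der (nat_lit 2) (nat_lit 6879),
   .der (nat_lit 2) (nat_lit 7560),
   .der (nat_lit 3) (nat_lit 5883),
   .der (nat_lit 3) (nat_lit 8946),
   .der (nat_lit 4) (nat_lit 551),
   .der (nat_lit 4) (nat_lit 1385),
   .der (nat_lit 4) (nat_lit 2176),
   .der (nat_lit 4) (nat_lit 5155),
   .der (nat_lit 5) (nat_lit 1482),
   .der (nat_lit 5) (nat_lit 5084),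
   .der (nat_lit 5) (nat_lit 5890),
   .der (nat_lit 5) (nat_lit 8481),
   .der (nat_lit 5) (nat_lit 8502),
   .der (nat_lit 5) (nat_lit 9511),
   .der (nat_lit 6) (nat_lit 1446),
   .der (nat_lit 6) (nat_lit 9197),
   .der (nat_lit 7) (nat_lit 2560),
   .der (nat_lit 7) (nat_lit 9244),
   .der (nat_lit 8) (nat_lit 6839),
   .der (nat_lit 8) (nat_lit 7481),
   .der (nat_lit 8) (nat_lit 8606),
   .der (nat_lit 8) (nat_lit 9662),
   .der (nat_lit 9) (nat_lit 77),
   .der (nat_lit 9) (nat_lit 921),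
   .der (nat_lit 9) (nat_lit 6885),
   .der (nat_lit 9) (nat_lit 8936),
   .der (nat_lit 10) (nat_lit 1406),
   .der (nat_lit 10) (nat_lit 1569),
   .der (nat_lit 10) (nat_lit 2227),
   .der (nat_lit 10) (nat_lit 5116),
   .der (nat_lit 10) (nat_lit 5805),
   .der (nat_lit 10) (nat_lit 7464),
   .der (nat_lit 10) (nat_lit 8576),
   .der (nat_lit 10) (nat_lit 9607),
   .der (nat_lit 18) (nat_lit 1173),
   .der (nat_lit 18) (nat_lit 4229),
   .der (nat_lit 18) (nat_lit 5924),
   .der (nat_lit 18) (nat_lit 6848),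
   .der (nat_lit 18) (nat_lit 9249),
   .der (nat_lit 18) (nat_lit 9271),
   .der (nat_lit 19) (nat_lit 5520),
   .der (nat_lit 19) (nat_lit 8493),
   .der (nat_lit 19) (nat_lit 9870),
   .der (nat_lit 20) (nat_lit 923),
   .der (nat_lit 20) (nat_lit 3282),
   .der (nat_lit 33) (nat_lit 686),
   .der (nat_lit 33) (nat_lit 3282),
   .der (nat_lit 33) (nat_lit 5171),
   .der (nat_lit 33) (nat_lit 6832),
   .der (nat_lit 33) (nat_lit 7560),
   .der (nat_lit 33) (nat_lit 7645),
   .der (nat_lit 33) (nat_lit 9896),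
   .der (nat_lit 35) (nat_lit 1928),
   .der (nat_lit 35) (nat_lit 2487),
   .der (nat_lit 35) (nat_lit 4246),
   .der (nat_lit 35) (nat_lit 8580),
   .der (nat_lit 36) (nat_lit 873),
   .der (nat_lit 36) (nat_lit 5827),
   .der (nat_lit 36) (nat_lit 8936),
   .der (nat_lit 36) (nat_lit 9522),
   .der (nat_lit 49) (nat_lit 2186),
   .der (nat_lit 49) (nat_lit 4092),
   .der (nat_lit 49) (nat_lit 5265),
   .der (nat_lit 49) (nat_lit 5905),
   .der (nat_lit 49) (nat_lit 9206),
   .der (nat_lit 50) (nat_lit 3150),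
   .der (nat_lit 50) (nat_lit 3725),
   .der (nat_lit 52) (nat_lit 169),
   .der (nat_lit 52) (nat_lit 1562),
   .der (nat_lit 52) (nat_lit 4379),
   .der (nat_lit 67) (nat_lit 889),
   .der (nat_lit 67) (nat_lit 2203),
   .der (nat_lit 83) (nat_lit 5924),
   .der (nat_lit 83) (nat_lit 9282),
   .der (nat_lit 84) (nat_lit 934),
   .der (nat_lit 84) (nat_lit 960),
   .der (nat_lit 84) (nat_lit 3175),
   .der (nat_lit 86) (nat_lit 6116),
   .der (nat_lit 86) (nat_lit 9890),
   .der (nat_lit 86) (nat_lit 9908),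
   .der (nat_lit 87) (nat_lit 7515),
   .der (nat_lit 98) (nat_lit 6088),
   .der (nat_lit 100) (nat_lit 1085),
   .der (nat_lit 100) (nat_lit 5050),
   .der (nat_lit 101) (nat_lit 5837),
   .der (nat_lit 103) (nat_lit 873),
   .der (nat_lit 103) (nat_lit 3229),
   .der (nat_lit 103) (nat_lit 4343),
   .der (nat_lit 114) (nat_lit 930),
   .der (nat_lit 114) (nat_lit 2201),
   .der (nat_lit 114) (nat_lit 6333),
   .der (nat_lit 118) (nat_lit 2847),
   .der (nat_lit 129) (nat_lit 469),
   .der (nat_lit 129) (nat_lit 2188),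
   .der (nat_lit 129) (nat_lit 2472),
   .der (nat_lit 132) (nat_lit 923),
   .der (nat_lit 135) (nat_lit 495),
   .der (nat_lit 135) (nat_lit 967),
   .der (nat_lit 135) (nat_lit 2229),
   .der (nat_lit 137) (nat_lit 77),
   .der (nat_lit 137) (nat_lit 146),
   .der (nat_lit 137) (nat_lit 930),
   .der (nat_lit 137) (nat_lit 1399),
   .der (nat_lit 137) (nat_lit 1419),
   .der (nat_lit 137) (nat_lit 3200),
   .der (nat_lit 137) (nat_lit 4263),
   .der (nat_lit 137) (nat_lit 6817),
   .der (nat_lit 137) (nat_lit 8488),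
   .der (nat_lit 137) (nat_lit 9032),
   .der (nat_lit 145) (nat_lit 1704),
   .der (nat_lit 145) (nat_lit 3158),
   .der (nat_lit 145) (nat_lit 6131),
   .der (nat_lit 147) (nat_lit 2327),
   .der (nat_lit 147) (nat_lit 4103),
   .der (nat_lit 150) (nat_lit 3748),
   .der (nat_lit 150) (nat_lit 4005),
   .der (nat_lit 150) (nat_lit 5894),
   .der (nat_lit 150) (nat_lit 6848),
   .der (nat_lit 152) (nat_lit 469),
   .der (nat_lit 152) (nat_lit 1022),
   .der (nat_lit 152) (nat_lit 1052),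
   .der (nat_lit 152) (nat_lit 3122),
   .der (nat_lit 161) (nat_lit 992),
   .der (nat_lit 161) (nat_lit 4020),
   .der (nat_lit 161) (nat_lit 5807),
   .der (nat_lit 161) (nat_lit 5811),
   .der (nat_lit 161) (nat_lit 5932),
   .der (nat_lit 161) (nat_lit 6823),
   .der (nat_lit 161) (nat_lit 9121),
   .der (nat_lit 162) (nat_lit 1664),
   .der (nat_lit 162) (nat_lit 2227),
   .der (nat_lit 165) (nat_lit 1399),
   .der (nat_lit 165) (nat_lit 3122),
   .der (nat_lit 165) (nat_lit 3127),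
   .der (nat_lit 165) (nat_lit 4048),
   .der (nat_lit 165) (nat_lit 5805),
   .der (nat_lit 165) (nat_lit 5932),
   .der (nat_lit 165) (nat_lit 7505),
   .der (nat_lit 340) (nat_lit 907),
   .der (nat_lit 340) (nat_lit 9522),
   .der (nat_lit 354) (nat_lit 1446),
   .der (nat_lit 354) (nat_lit 2317),
   .der (nat_lit 354) (nat_lit 4487),
   .der (nat_lit 354) (nat_lit 6956),
   .der (nat_lit 356) (nat_lit 2472),
   .der (nat_lit 370) (nat_lit 73),
   .der (nat_lit 370) (nat_lit 1381),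
   .der (nat_lit 371) (nat_lit 575),
   .der (nat_lit 561) (nat_lit 1446),
   .der (nat_lit 561) (nat_lit 4292),
   .der (nat_lit 577) (nat_lit 421),
   .der (nat_lit 577) (nat_lit 2826),
   .der (nat_lit 577) (nat_lit 4158),
   .der (nat_lit 577) (nat_lit 5982),
   .der (nat_lit 577) (nat_lit 6494),
   .der (nat_lit 612) (nat_lit 9828),
   .der (nat_lit 644) (nat_lit 960),
   .der (nat_lit 644) (nat_lit 2197),
   .der (nat_lit 644) (nat_lit 3760),
   .der (nat_lit 644) (nat_lit 5167),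
   .der (nat_lit 644) (nat_lit 5827),
   .der (nat_lit 644) (nat_lit 7461),
   .der (nat_lit 644) (nat_lit 9522),
   .der (nat_lit 659) (nat_lit 2593),
   .der (nat_lit 659) (nat_lit 3133),
   .der (nat_lit 659) (nat_lit 4766),
   .der (nat_lit 801) (nat_lit 2188),
   .der (nat_lit 801) (nat_lit 3150),
   .der (nat_lit 801) (nat_lit 6885),
   .der (nat_lit 833) (nat_lit 845),
   .der (nat_lit 833) (nat_lit 1381),
   .der (nat_lit 833) (nat_lit 2205),
   .der (nat_lit 833) (nat_lit 3988),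
   .der (nat_lit 833) (nat_lit 4028),
   .der (nat_lit 833) (nat_lit 9684),
   .der (nat_lit 834) (nat_lit 1533),
   .der (nat_lit 834) (nat_lit 1534),
   .der (nat_lit 834) (nat_lit 2543),
   .der (nat_lit 834) (nat_lit 3199),
   .der (nat_lit 834) (nat_lit 4254),
   .der (nat_lit 834) (nat_lit 5052),
   .der (nat_lit 834) (nat_lit 8957),
   .der (nat_lit 852) (nat_lit 1550),
   .der (nat_lit 852) (nat_lit 2210),
   .der (nat_lit 852) (nat_lit 2365),
   .der (nat_lit 852) (nat_lit 4142),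
   .der (nat_lit 852) (nat_lit 7628),
   .der (nat_lit 882) (nat_lit 2180),
   .der (nat_lit 1057) (nat_lit 4766),
   .der (nat_lit 1073) (nat_lit 572),
   .der (nat_lit 1073) (nat_lit 992),
   .der (nat_lit 1073) (nat_lit 1400),
   .der (nat_lit 1074) (nat_lit 469),
   .der (nat_lit 1074) (nat_lit 1052),
   .der (nat_lit 1074) (nat_lit 1085),
   .der (nat_lit 1074) (nat_lit 1647),
   .der (nat_lit 1074) (nat_lit 2171),
   .der (nat_lit 1074) (nat_lit 4010),
   .der (nat_lit 1074) (nat_lit 4048),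
   .der (nat_lit 1074) (nat_lit 6888),
   .der (nat_lit 1122) (nat_lit 4039),
   .der (nat_lit 1299) (nat_lit 2847),
   .der (nat_lit 1299) (nat_lit 8514),
   .der (nat_lit 1299) (nat_lit 9504),
   .der (nat_lit 1300) (nat_lit 3158),
   .der (nat_lit 1300) (nat_lit 3988),
   .der (nat_lit 1300) (nat_lit 7515),
   .der (nat_lit 1380) (nat_lit 421),
   .der (nat_lit 1395) (nat_lit 5883),
   .der (nat_lit 1430) (nat_lit 3011),
   .der (nat_lit 1430) (nat_lit 4055),
   .der (nat_lit 1430) (nat_lit 6817),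
   .der (nat_lit 1554) (nat_lit 2472),
   .der (nat_lit 1554) (nat_lit 3579),
   .der (nat_lit 1554) (nat_lit 6845),
   .der (nat_lit 1554) (nat_lit 9271),
   .der (nat_lit 1556) (nat_lit 1550),
   .der (nat_lit 1556) (nat_lit 2360),
   .der (nat_lit 1556) (nat_lit 4300),
   .der (nat_lit 1556) (nat_lit 5039),
   .der (nat_lit 1620) (nat_lit 1444),
   .der (nat_lit 1653) (nat_lit 1558),
   .der (nat_lit 1653) (nat_lit 3619),
   .der (nat_lit 1653) (nat_lit 6522),
   .der (nat_lit 1811) (nat_lit 2429),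
   .der (nat_lit 1893) (nat_lit 469),
   .der (nat_lit 1893) (nat_lit 1052),
   .der (nat_lit 1893) (nat_lit 7494),
   .der (nat_lit 2068) (nat_lit 1085),
   .der (nat_lit 2068) (nat_lit 3490),
   .der (nat_lit 2084) (nat_lit 401),
   .der (nat_lit 2084) (nat_lit 850),
   .der (nat_lit 2084) (nat_lit 2183),
   .der (nat_lit 2084) (nat_lit 2210),
   .der (nat_lit 2084) (nat_lit 4031),
   .der (nat_lit 2084) (nat_lit 5811),
   .der (nat_lit 2113) (nat_lit 967),
   .der (nat_lit 2113) (nat_lit 1169),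
   .der (nat_lit 2135) (nat_lit 2227),
   .der (nat_lit 2135) (nat_lit 2548),
   .der (nat_lit 2135) (nat_lit 3985),
   .der (nat_lit 2135) (nat_lit 6161),
   .der (nat_lit 2193) (nat_lit 1400),
   .der (nat_lit 2193) (nat_lit 1533),
   .der (nat_lit 2193) (nat_lit 2300),
   .der (nat_lit 2193) (nat_lit 3008),
   .der (nat_lit 2193) (nat_lit 4039),
   .der (nat_lit 2193) (nat_lit 4263),
   .der (nat_lit 2193) (nat_lit 4585),
   .der (nat_lit 2193) (nat_lit 5224),
   .der (nat_lit 2193) (nat_lit 8571),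
   .der (nat_lit 2193) (nat_lit 9607),
   .der (nat_lit 2323) (nat_lit 84),
   .der (nat_lit 2323) (nat_lit 2931),
   .der (nat_lit 2323) (nat_lit 4103),
   .der (nat_lit 2339) (nat_lit 1880),
   .der (nat_lit 2339) (nat_lit 2569),
   .der (nat_lit 2339) (nat_lit 6079),
   .der (nat_lit 2339) (nat_lit 9016),
   .der (nat_lit 2339) (nat_lit 9516),
   .der (nat_lit 2353) (nat_lit 3169),
   .der (nat_lit 2353) (nat_lit 5823),
   .der (nat_lit 2353) (nat_lit 7318),
   .der (nat_lit 2390) (nat_lit 3118),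
   .der (nat_lit 2433) (nat_lit 469),
   .der (nat_lit 2433) (nat_lit 508),
   .der (nat_lit 2433) (nat_lit 1052),
   .der (nat_lit 2433) (nat_lit 1421),
   .der (nat_lit 2433) (nat_lit 5050),
   .der (nat_lit 2433) (nat_lit 9504),
   .der (nat_lit 2578) (nat_lit 1399),
   .der (nat_lit 2578) (nat_lit 5801),
   .der (nat_lit 2578) (nat_lit 7466),
   .der (nat_lit 2578) (nat_lit 8817),
   .der (nat_lit 2593) (nat_lit 1400),
   .der (nat_lit 2593) (nat_lit 1412),
   .der (nat_lit 2593) (nat_lit 2531),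
   .der (nat_lit 2593) (nat_lit 7767),
   .der (nat_lit 4978) (nat_lit 2472),
   .der (nat_lit 4978) (nat_lit 3999),
   .der (nat_lit 5218) (nat_lit 2749),
   .der (nat_lit 5218) (nat_lit 9127),
   .der (nat_lit 5716) (nat_lit 5832),
   .der (nat_lit 9572) (nat_lit 2317),
   .der (nat_lit 9572) (nat_lit 7456),
   .der (nat_lit 10305) (nat_lit 934),
   .der (nat_lit 10305) (nat_lit 1041),
   .der (nat_lit 10545) (nat_lit 1533),
   .der (nat_lit 12658) (nat_lit 1392),
   .der (nat_lit 12658) (nat_lit 6037),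
   .der (nat_lit 13345) (nat_lit 1558),
   .der (nat_lit 13345) (nat_lit 2464),
   .der (nat_lit 13345) (nat_lit 2526),
   .der (nat_lit 13345) (nat_lit 4032),
   .der (nat_lit 13345) (nat_lit 4254),
   .der (nat_lit 16738) (nat_lit 1399),
   .der (nat_lit 16738) (nat_lit 3236),
   .der (nat_lit 17185) (nat_lit 469),
   .der (nat_lit 17185) (nat_lit 1052),
   .der (nat_lit 17185) (nat_lit 1647),
   .der (nat_lit 17185) (nat_lit 4048),
   .der (nat_lit 21092) (nat_lit 1647),
   .der (nat_lit 21107) (nat_lit 627),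
   .der (nat_lit 22548) (nat_lit 1706),
   .der (nat_lit 22548) (nat_lit 4796),
   .der (nat_lit 22803) (nat_lit 3011),
   .der (nat_lit 22803) (nat_lit 5042),
   .der (nat_lit 22803) (nat_lit 6939),
   .der (nat_lit 26386) (nat_lit 146),
   .der (nat_lit 26386) (nat_lit 1179),
   .der (nat_lit 26386) (nat_lit 1533),
   .der (nat_lit 26386) (nat_lit 3175),
   .der (nat_lit 26386) (nat_lit 3199),
   .der (nat_lit 26386) (nat_lit 4039),
   .der (nat_lit 26386) (nat_lit 5053),
   .der (nat_lit 26386) (nat_lit 5823),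
   .der (nat_lit 26386) (nat_lit 9607),
   .der (nat_lit 29011) (nat_lit 1880),
   .der (nat_lit 29011) (nat_lit 2188),
   .der (nat_lit 30226) (nat_lit 469),
   .der (nat_lit 30226) (nat_lit 1052),
   .der (nat_lit 30226) (nat_lit 1431),
   .der (nat_lit 30226) (nat_lit 2291),
   .der (nat_lit 30226) (nat_lit 3144),
   .der (nat_lit 30226) (nat_lit 5116),
   .der (nat_lit 30226) (nat_lit 5983),
   .der (nat_lit 30226) (nat_lit 6072),
   .der (nat_lit 33345) (nat_lit 843),
   .der (nat_lit 33345) (nat_lit 2180),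
   .der (nat_lit 33345) (nat_lit 3439),
   .der (nat_lit 33345) (nat_lit 3985),
   .der (nat_lit 33345) (nat_lit 7447),
   .der (nat_lit 34068) (nat_lit 837),
   .der (nat_lit 34068) (nat_lit 3138),
   .der (nat_lit 34068) (nat_lit 4031),
   .der (nat_lit 34068) (nat_lit 5039),
   .der (nat_lit 37425) (nat_lit 3576),
   .der (nat_lit 37425) (nat_lit 4246),
   .der (nat_lit 37425) (nat_lit 7776),
   .der (nat_lit 38163) (nat_lit 9504),
   .der (nat_lit 1) (nat_lit 1542),
   .der (nat_lit 1) (nat_lit 5084),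
   .der (nat_lit 1) (nat_lit 7499),
   .der (nat_lit 1) (nat_lit 8529),
   .der (nat_lit 1) (nat_lit 8936),
   .der (nat_lit 2) (nat_lit 432),
   .der (nat_lit 2) (nat_lit 7456),
   .der (nat_lit 2) (nat_lit 9522),
   .der (nat_lit 3) (nat_lit 2847),
   .der (nat_lit 3) (nat_lit 5520),
   .der (nat_lit 5) (nat_lit 7522),
   .der (nat_lit 5) (nat_lit 7645),
   .der (nat_lit 5) (nat_lit 9244),
   .der (nat_lit 6) (nat_lit 5827),
   .der (nat_lit 7) (nat_lit 2908),
   .der (nat_lit 7) (nat_lit 7618),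
   .der (nat_lit 9) (nat_lit 8230),
   .der (nat_lit 10) (nat_lit 4369),
   .der (nat_lit 10) (nat_lit 5039),
   .der (nat_lit 10) (nat_lit 5046),
   .der (nat_lit 10) (nat_lit 6823),
   .der (nat_lit 10) (nat_lit 7767),
   .der (nat_lit 18) (nat_lit 7456),
   .der (nat_lit 19) (nat_lit 8946),
   .der (nat_lit 33) (nat_lit 4743),
   .der (nat_lit 33) (nat_lit 5155),
   .der (nat_lit 33) (nat_lit 8134),
   .der (nat_lit 52) (nat_lit 1392),
   .der (nat_lit 52) (nat_lit 5039),
   .der (nat_lit 86) (nat_lit 4292),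
   .der (nat_lit 114) (nat_lit 2171),
   .der (nat_lit 114) (nat_lit 7701),
   .der (nat_lit 117) (nat_lit 8),
   .der (nat_lit 117) (nat_lit 1461),
   .der (nat_lit 129) (nat_lit 9662),
   .der (nat_lit 137) (nat_lit 1533),
   .der (nat_lit 137) (nat_lit 4035),
   .der (nat_lit 137) (nat_lit 5224),
   .der (nat_lit 145) (nat_lit 2356),
   .der (nat_lit 145) (nat_lit 2382),
   .der (nat_lit 145) (nat_lit 2528),
   .der (nat_lit 145) (nat_lit 8936),
   .der (nat_lit 150) (nat_lit 9197),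
   .der (nat_lit 152) (nat_lit 9504),
   .der (nat_lit 161) (nat_lit 3122),
   .der (nat_lit 161) (nat_lit 7464),
   .der (nat_lit 161) (nat_lit 7767),
   .der (nat_lit 161) (nat_lit 8558),
   .der (nat_lit 162) (nat_lit 2244),
   .der (nat_lit 165) (nat_lit 1441),
   .der (nat_lit 165) (nat_lit 1456),
   .der (nat_lit 165) (nat_lit 2171),
   .der (nat_lit 165) (nat_lit 3229),
   .der (nat_lit 165) (nat_lit 5087),
   .der (nat_lit 165) (nat_lit 8143),
   .der (nat_lit 339) (nat_lit 8941),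
   .der (nat_lit 354) (nat_lit 4383),
   .der (nat_lit 354) (nat_lit 5827),
   .der (nat_lit 354) (nat_lit 6615),
   .der (nat_lit 370) (nat_lit 501),
   .der (nat_lit 371) (nat_lit 1444),
   .der (nat_lit 577) (nat_lit 2487),
   .der (nat_lit 577) (nat_lit 7515),
   .der (nat_lit 801) (nat_lit 5800),
   .der (nat_lit 801) (nat_lit 7511),
   .der (nat_lit 833) (nat_lit 3133),
   .der (nat_lit 834) (nat_lit 1179),
   .der (nat_lit 834) (nat_lit 2176),
   .der (nat_lit 834) (nat_lit 2376),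
   .der (nat_lit 834) (nat_lit 5053),
   .der (nat_lit 834) (nat_lit 8130),
   .der (nat_lit 852) (nat_lit 1018),
   .der (nat_lit 852) (nat_lit 1392),
   .der (nat_lit 852) (nat_lit 9354),
   .der (nat_lit 1057) (nat_lit 2247),
   .der (nat_lit 1074) (nat_lit 2291),
   .der (nat_lit 1300) (nat_lit 4706),
   .der (nat_lit 1300) (nat_lit 8936),
   .der (nat_lit 1300) (nat_lit 9249),
   .der (nat_lit 1415) (nat_lit 934),
   .der (nat_lit 1556) (nat_lit 1392),
   .der (nat_lit 1556) (nat_lit 2926),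
   .der (nat_lit 1620) (nat_lit 1058),
   .der (nat_lit 1650) (nat_lit 1392),
   .der (nat_lit 1653) (nat_lit 2205),
   .der (nat_lit 1653) (nat_lit 3112),
   .der (nat_lit 1653) (nat_lit 4028),
   .der (nat_lit 1653) (nat_lit 7466),
   .der (nat_lit 1653) (nat_lit 8122),
   .der (nat_lit 1810) (nat_lit 62),
   .der (nat_lit 1811) (nat_lit 2203),
   .der (nat_lit 1875) (nat_lit 2551),
   .der (nat_lit 1875) (nat_lit 2931),
   .der (nat_lit 2084) (nat_lit 5039),
   .der (nat_lit 2113) (nat_lit 4555),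
   .der (nat_lit 2193) (nat_lit 2194),
   .der (nat_lit 2193) (nat_lit 2201),
   .der (nat_lit 2193) (nat_lit 6817),
   .der (nat_lit 2193) (nat_lit 8488),
   .der (nat_lit 2323) (nat_lit 2356),
   .der (nat_lit 2323) (nat_lit 9197),
   .der (nat_lit 2353) (nat_lit 6848),
   .der (nat_lit 2390) (nat_lit 9516),
   .der (nat_lit 2578) (nat_lit 5858),
   .der (nat_lit 2593) (nat_lit 2386),
   .der (nat_lit 2593) (nat_lit 8558),
   .der (nat_lit 5716) (nat_lit 952),
   .der (nat_lit 10545) (nat_lit 4005),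
   .der (nat_lit 12658) (nat_lit 898),
   .der (nat_lit 13345) (nat_lit 864),
   .der (nat_lit 13345) (nat_lit 3122),
   .der (nat_lit 13345) (nat_lit 3133),
   .der (nat_lit 21092) (nat_lit 1385),
   .der (nat_lit 21107) (nat_lit 5883),
   .der (nat_lit 22803) (nat_lit 3996),
   .der (nat_lit 24916) (nat_lit 4142)]

theorem b5_step33 (h : ∀ j < 16500, Good b5T j) : ∀ j < 17000, Good b5T j := by
  intro j hj
  refine chkL_ok b5C33 16500 h (by decide +kernel) j ?_
  have h : b5C33.length = 500 := by decide +kernel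
  omega

/-- certificates 17000..17500 -/
def b5C34 : List Cf :=
  [.der (nat_lit 26386) (nat_lit 1542),
   .der (nat_lit 26386) (nat_lit 2346),
   .der (nat_lit 26386) (nat_lit 8122),
   .der (nat_lit 26386) (nat_lit 8130),
   .der (nat_lit 30226) (nat_lit 4048),
   .der (nat_lit 30226) (nat_lit 6888),
   .der (nat_lit 33345) (nat_lit 435),
   .der (nat_lit 33345) (nat_lit 2201),
   .der (nat_lit 38163) (nat_lit 4246),
   .der (nat_lit 2) (nat_lit 421),
   .der (nat_lit 2) (nat_lit 864),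
   .der (nat_lit 2) (nat_lit 5155),
   .der (nat_lit 2) (nat_lit 6292),
   .der (nat_lit 5) (nat_lit 934),
   .der (nat_lit 5) (nat_lit 5283),
   .der (nat_lit 6) (nat_lit 5894),
   .der (nat_lit 6) (nat_lit 7542),
   .der (nat_lit 8) (nat_lit 2472),
   .der (nat_lit 8) (nat_lit 3144),
   .der (nat_lit 10) (nat_lit 6811),
   .der (nat_lit 10) (nat_lit 7453),
   .der (nat_lit 18) (nat_lit 867),
   .der (nat_lit 18) (nat_lit 8162),
   .der (nat_lit 19) (nat_lit 7499),
   .der (nat_lit 19) (nat_lit 9277),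
   .der (nat_lit 20) (nat_lit 3008),
   .der (nat_lit 33) (nat_lit 5924),
   .der (nat_lit 33) (nat_lit 9244),
   .der (nat_lit 36) (nat_lit 6128),
   .der (nat_lit 49) (nat_lit 4292),
   .der (nat_lit 49) (nat_lit 6839),
   .der (nat_lit 66) (nat_lit 6933),
   .der (nat_lit 67) (nat_lit 2262),
   .der (nat_lit 67) (nat_lit 3133),
   .der (nat_lit 67) (nat_lit 5194),
   .der (nat_lit 67) (nat_lit 8781),
   .der (nat_lit 83) (nat_lit 3727),
   .der (nat_lit 83) (nat_lit 4339),
   .der (nat_lit 83) (nat_lit 7490),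
   .der (nat_lit 83) (nat_lit 8134),
   .der (nat_lit 86) (nat_lit 3392),
   .der (nat_lit 86) (nat_lit 4329),
   .der (nat_lit 86) (nat_lit 7461),
   .der (nat_lit 98) (nat_lit 7456),
   .der (nat_lit 98) (nat_lit 9890),
   .der (nat_lit 101) (nat_lit 3152),
   .der (nat_lit 101) (nat_lit 7511),
   .der (nat_lit 103) (nat_lit 9287),
   .der (nat_lit 117) (nat_lit 2581),
   .der (nat_lit 118) (nat_lit 992),
   .der (nat_lit 129) (nat_lit 3392),
   .der (nat_lit 129) (nat_lit 4383),
   .der (nat_lit 132) (nat_lit 892),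
   .der (nat_lit 137) (nat_lit 1651),
   .der (nat_lit 137) (nat_lit 4028),
   .der (nat_lit 137) (nat_lit 4766),
   .der (nat_lit 145) (nat_lit 199),
   .der (nat_lit 150) (nat_lit 3556),
   .der (nat_lit 150) (nat_lit 8491),
   .der (nat_lit 161) (nat_lit 5100),
   .der (nat_lit 161) (nat_lit 6811),
   .der (nat_lit 161) (nat_lit 7453),
   .der (nat_lit 161) (nat_lit 9607),
   .der (nat_lit 162) (nat_lit 2214),
   .der (nat_lit 162) (nat_lit 6817),
   .der (nat_lit 162) (nat_lit 7308),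
   .der (nat_lit 162) (nat_lit 8576),
   .der (nat_lit 162) (nat_lit 8813),
   .der (nat_lit 165) (nat_lit 3161),
   .der (nat_lit 165) (nat_lit 5858),
   .der (nat_lit 339) (nat_lit 2416),
   .der (nat_lit 339) (nat_lit 8134),
   .der (nat_lit 354) (nat_lit 2186),
   .der (nat_lit 370) (nat_lit 5167),
   .der (nat_lit 561) (nat_lit 4872),
   .der (nat_lit 659) (nat_lit 3011),
   .der (nat_lit 833) (nat_lit 7154),
   .der (nat_lit 834) (nat_lit 2300),
   .der (nat_lit 834) (nat_lit 2633),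
   .der (nat_lit 834) (nat_lit 3133),
   .der (nat_lit 834) (nat_lit 5107),
   .der (nat_lit 852) (nat_lit 1381),
   .der (nat_lit 852) (nat_lit 5107),
   .der (nat_lit 852) (nat_lit 7534),
   .der (nat_lit 1107) (nat_lit 9855),
   .der (nat_lit 1122) (nat_lit 9127),
   .der (nat_lit 1430) (nat_lit 2011),
   .der (nat_lit 1430) (nat_lit 4766),
   .der (nat_lit 1554) (nat_lit 678),
   .der (nat_lit 1554) (nat_lit 6832),
   .der (nat_lit 1556) (nat_lit 2197),
   .der (nat_lit 1556) (nat_lit 2320),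
   .der (nat_lit 1653) (nat_lit 3172),
   .der (nat_lit 1810) (nat_lit 864),
   .der (nat_lit 1810) (nat_lit 2176),
   .der (nat_lit 1875) (nat_lit 3338),
   .der (nat_lit 1890) (nat_lit 6817),
   .der (nat_lit 1893) (nat_lit 1415),
   .der (nat_lit 2068) (nat_lit 3786),
   .der (nat_lit 2084) (nat_lit 1562),
   .der (nat_lit 2084) (nat_lit 2320),
   .der (nat_lit 2084) (nat_lit 4142),
   .der (nat_lit 2084) (nat_lit 7505),
   .der (nat_lit 2135) (nat_lit 2339),
   .der (nat_lit 2135) (nat_lit 7505),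
   .der (nat_lit 2390) (nat_lit 8678),
   .der (nat_lit 2433) (nat_lit 477),
   .der (nat_lit 2578) (nat_lit 3122),
   .der (nat_lit 2578) (nat_lit 8576),
   .der (nat_lit 2593) (nat_lit 1858),
   .der (nat_lit 9572) (nat_lit 2186),
   .der (nat_lit 9587) (nat_lit 7511),
   .der (nat_lit 10545) (nat_lit 2011),
   .der (nat_lit 12658) (nat_lit 8813),
   .der (nat_lit 13345) (nat_lit 1179),
   .der (nat_lit 13345) (nat_lit 5843),
   .der (nat_lit 17185) (nat_lit 3340),
   .der (nat_lit 21092) (nat_lit 984),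
   .der (nat_lit 21107) (nat_lit 3311),
   .der (nat_lit 21107) (nat_lit 4202),
   .der (nat_lit 22548) (nat_lit 1421),
   .der (nat_lit 22803) (nat_lit 4103),
   .der (nat_lit 24916) (nat_lit 2369),
   .der (nat_lit 26386) (nat_lit 2194),
   .der (nat_lit 26386) (nat_lit 4254),
   .der (nat_lit 26386) (nat_lit 5107),
   .der (nat_lit 30226) (nat_lit 1415),
   .der (nat_lit 33345) (nat_lit 7505),
   .der (nat_lit 34068) (nat_lit 441),
   .der (nat_lit 34068) (nat_lit 1392),
   .der (nat_lit 34068) (nat_lit 5056),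
   .der (nat_lit 1) (nat_lit 1724),
   .der (nat_lit 1) (nat_lit 7360),
   .der (nat_lit 1) (nat_lit 8120),
   .der (nat_lit 1) (nat_lit 8413),
   .der (nat_lit 1) (nat_lit 8547),
   .der (nat_lit 1) (nat_lit 9066),
   .der (nat_lit 1) (nat_lit 9475),
   .der (nat_lit 2) (nat_lit 6044),
   .der (nat_lit 2) (nat_lit 6243),
   .der (nat_lit 2) (nat_lit 6982),
   .der (nat_lit 4) (nat_lit 4417),
   .der (nat_lit 5) (nat_lit 7056),
   .der (nat_lit 5) (nat_lit 7545),
   .der (nat_lit 5) (nat_lit 8857),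
   .der (nat_lit 6) (nat_lit 4872),
   .der (nat_lit 6) (nat_lit 7344),
   .der (nat_lit 6) (nat_lit 9460),
   .der (nat_lit 7) (nat_lit 6333),
   .der (nat_lit 7) (nat_lit 8968),
   .der (nat_lit 7) (nat_lit 9864),
   .der (nat_lit 8) (nat_lit 6202),
   .der (nat_lit 8) (nat_lit 7594),
   .der (nat_lit 9) (nat_lit 1244),
   .der (nat_lit 9) (nat_lit 5871),
   .der (nat_lit 10) (nat_lit 909),
   .der (nat_lit 10) (nat_lit 3176),
   .der (nat_lit 10) (nat_lit 6922),
   .der (nat_lit 10) (nat_lit 7575),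
   .der (nat_lit 10) (nat_lit 9746),
   .der (nat_lit 18) (nat_lit 6982),
   .der (nat_lit 18) (nat_lit 8120),
   .der (nat_lit 18) (nat_lit 8134),
   .der (nat_lit 33) (nat_lit 3169),
   .der (nat_lit 33) (nat_lit 3344),
   .der (nat_lit 33) (nat_lit 4932),
   .der (nat_lit 33) (nat_lit 5194),
   .der (nat_lit 33) (nat_lit 5662),
   .der (nat_lit 49) (nat_lit 4544),
   .der (nat_lit 49) (nat_lit 4872),
   .der (nat_lit 49) (nat_lit 9631),
   .der (nat_lit 50) (nat_lit 3152),
   .der (nat_lit 65) (nat_lit 8775),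
   .der (nat_lit 83) (nat_lit 8429),
   .der (nat_lit 86) (nat_lit 3427),
   .der (nat_lit 86) (nat_lit 7056),
   .der (nat_lit 86) (nat_lit 7545),
   .der (nat_lit 87) (nat_lit 6963),
   .der (nat_lit 98) (nat_lit 3579),
   .der (nat_lit 98) (nat_lit 3898),
   .der (nat_lit 101) (nat_lit 4872),
   .der (nat_lit 101) (nat_lit 5059),
   .der (nat_lit 101) (nat_lit 7344),
   .der (nat_lit 101) (nat_lit 8127),
   .der (nat_lit 101) (nat_lit 9303),
   .der (nat_lit 101) (nat_lit 9460),
   .der (nat_lit 101) (nat_lit 9693),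
   .der (nat_lit 103) (nat_lit 930),
   .der (nat_lit 103) (nat_lit 3152),
   .der (nat_lit 117) (nat_lit 3506),
   .der (nat_lit 117) (nat_lit 4585),
   .der (nat_lit 117) (nat_lit 6066),
   .der (nat_lit 117) (nat_lit 9371),
   .der (nat_lit 118) (nat_lit 5840),
   .der (nat_lit 129) (nat_lit 6344),
   .der (nat_lit 129) (nat_lit 8120),
   .der (nat_lit 132) (nat_lit 1478),
   .der (nat_lit 135) (nat_lit 4002),
   .der (nat_lit 137) (nat_lit 1453),
   .der (nat_lit 137) (nat_lit 2307),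
   .der (nat_lit 137) (nat_lit 5871),
   .der (nat_lit 137) (nat_lit 6260),
   .der (nat_lit 137) (nat_lit 7469),
   .der (nat_lit 137) (nat_lit 7474),
   .der (nat_lit 137) (nat_lit 8212),
   .der (nat_lit 137) (nat_lit 8633),
   .der (nat_lit 145) (nat_lit 982),
   .der (nat_lit 145) (nat_lit 2483),
   .der (nat_lit 145) (nat_lit 7474),
   .der (nat_lit 145) (nat_lit 8438),
   .der (nat_lit 147) (nat_lit 2353),
   .der (nat_lit 150) (nat_lit 6384),
   .der (nat_lit 152) (nat_lit 6922),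
   .der (nat_lit 161) (nat_lit 2244),
   .der (nat_lit 161) (nat_lit 4050),
   .der (nat_lit 161) (nat_lit 4417),
   .der (nat_lit 161) (nat_lit 5845),
   .der (nat_lit 161) (nat_lit 9746),
   .der (nat_lit 162) (nat_lit 2468),
   .der (nat_lit 165) (nat_lit 1714),
   .der (nat_lit 165) (nat_lit 2382),
   .der (nat_lit 165) (nat_lit 4390),
   .der (nat_lit 165) (nat_lit 5095),
   .der (nat_lit 165) (nat_lit 5871),
   .der (nat_lit 165) (nat_lit 7469),
   .der (nat_lit 339) (nat_lit 7542),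
   .der (nat_lit 339) (nat_lit 8429),
   .der (nat_lit 339) (nat_lit 9475),
   .der (nat_lit 354) (nat_lit 5890),
   .der (nat_lit 577) (nat_lit 6362),
   .der (nat_lit 577) (nat_lit 6378),
   .der (nat_lit 627) (nat_lit 4544),
   .der (nat_lit 627) (nat_lit 6333),
   .der (nat_lit 801) (nat_lit 4067),
   .der (nat_lit 801) (nat_lit 4872),
   .der (nat_lit 801) (nat_lit 5167),
   .der (nat_lit 801) (nat_lit 6478),
   .der (nat_lit 801) (nat_lit 7344),
   .der (nat_lit 801) (nat_lit 8127),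
   .der (nat_lit 833) (nat_lit 1546),
   .der (nat_lit 833) (nat_lit 3308),
   .der (nat_lit 833) (nat_lit 6333),
   .der (nat_lit 834) (nat_lit 4013),
   .der (nat_lit 834) (nat_lit 6702),
   .der (nat_lit 852) (nat_lit 5087),
   .der (nat_lit 852) (nat_lit 8139),
   .der (nat_lit 882) (nat_lit 479),
   .der (nat_lit 882) (nat_lit 2926),
   .der (nat_lit 1057) (nat_lit 3506),
   .der (nat_lit 1299) (nat_lit 7339),
   .der (nat_lit 1300) (nat_lit 2220),
   .der (nat_lit 1300) (nat_lit 7682),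
   .der (nat_lit 1554) (nat_lit 4079),
   .der (nat_lit 1554) (nat_lit 5135),
   .der (nat_lit 1556) (nat_lit 1074),
   .der (nat_lit 1556) (nat_lit 2786),
   .der (nat_lit 1650) (nat_lit 3270),
   .der (nat_lit 1653) (nat_lit 1557),
   .der (nat_lit 1653) (nat_lit 1808),
   .der (nat_lit 1653) (nat_lit 2176),
   .der (nat_lit 1653) (nat_lit 2401),
   .der (nat_lit 1653) (nat_lit 6237),
   .der (nat_lit 1653) (nat_lit 7474),
   .der (nat_lit 1810) (nat_lit 3152),
   .der (nat_lit 1810) (nat_lit 4585),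
   .der (nat_lit 1810) (nat_lit 8749),
   .der (nat_lit 1811) (nat_lit 1415),
   .der (nat_lit 1811) (nat_lit 5840),
   .der (nat_lit 1890) (nat_lit 4932),
   .der (nat_lit 1890) (nat_lit 9746),
   .der (nat_lit 2084) (nat_lit 2429),
   .der (nat_lit 2135) (nat_lit 943),
   .der (nat_lit 2135) (nat_lit 2117),
   .der (nat_lit 2135) (nat_lit 2940),
   .der (nat_lit 2193) (nat_lit 2120),
   .der (nat_lit 2193) (nat_lit 2554),
   .der (nat_lit 2193) (nat_lit 5039),
   .der (nat_lit 2193) (nat_lit 6185),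
   .der (nat_lit 2193) (nat_lit 6830),
   .der (nat_lit 2193) (nat_lit 6994),
   .der (nat_lit 2193) (nat_lit 8212),
   .der (nat_lit 2339) (nat_lit 2429),
   .der (nat_lit 2353) (nat_lit 4886),
   .der (nat_lit 2390) (nat_lit 3141),
   .der (nat_lit 2433) (nat_lit 2291),
   .der (nat_lit 2578) (nat_lit 2220),
   .der (nat_lit 2578) (nat_lit 3783),
   .der (nat_lit 2578) (nat_lit 5039),
   .der (nat_lit 2593) (nat_lit 1415),
   .der (nat_lit 2593) (nat_lit 1714),
   .der (nat_lit 2593) (nat_lit 4278),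
   .der (nat_lit 2593) (nat_lit 4465),
   .der (nat_lit 2593) (nat_lit 5095),
   .der (nat_lit 2593) (nat_lit 5818),
   .der (nat_lit 2593) (nat_lit 5840),
   .der (nat_lit 2593) (nat_lit 6251),
   .der (nat_lit 5218) (nat_lit 4005),
   .der (nat_lit 5218) (nat_lit 6366),
   .der (nat_lit 5218) (nat_lit 7329),
   .der (nat_lit 5218) (nat_lit 7861),
   .der (nat_lit 5716) (nat_lit 2040),
   .der (nat_lit 9572) (nat_lit 1421),
   .der (nat_lit 9572) (nat_lit 5056),
   .der (nat_lit 10305) (nat_lit 6424),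
   .der (nat_lit 12658) (nat_lit 2940),
   .der (nat_lit 12658) (nat_lit 5079),
   .der (nat_lit 13345) (nat_lit 4002),
   .der (nat_lit 13345) (nat_lit 4005),
   .der (nat_lit 16738) (nat_lit 9746),
   .der (nat_lit 22803) (nat_lit 8134),
   .der (nat_lit 24916) (nat_lit 6900),
   .der (nat_lit 26386) (nat_lit 3062),
   .der (nat_lit 26386) (nat_lit 5039),
   .der (nat_lit 26386) (nat_lit 8043),
   .der (nat_lit 29011) (nat_lit 6917),
   .der (nat_lit 33345) (nat_lit 2833),
   .der (nat_lit 33345) (nat_lit 5095),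
   .der (nat_lit 34068) (nat_lit 2353),
   .der (nat_lit 34068) (nat_lit 2369),
   .der (nat_lit 38163) (nat_lit 2220),
   .der (nat_lit 38163) (nat_lit 2429),
   .der (nat_lit 1) (nat_lit 6066),
   .der (nat_lit 1) (nat_lit 7472),
   .der (nat_lit 1) (nat_lit 7898),
   .der (nat_lit 1) (nat_lit 9152),
   .der (nat_lit 2) (nat_lit 3150),
   .der (nat_lit 2) (nat_lit 7542),
   .der (nat_lit 2) (nat_lit 8936),
   .der (nat_lit 2) (nat_lit 9249),
   .der (nat_lit 3) (nat_lit 7339),
   .der (nat_lit 5) (nat_lit 7456),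
   .der (nat_lit 5) (nat_lit 8521),
   .der (nat_lit 6) (nat_lit 6615),
   .der (nat_lit 6) (nat_lit 9303),
   .der (nat_lit 7) (nat_lit 9942),
   .der (nat_lit 8) (nat_lit 5163),
   .der (nat_lit 8) (nat_lit 7456),
   .der (nat_lit 8) (nat_lit 8749),
   .der (nat_lit 8) (nat_lit 9942),
   .der (nat_lit 9) (nat_lit 2247),
   .der (nat_lit 9) (nat_lit 4322),
   .der (nat_lit 9) (nat_lit 5155),
   .der (nat_lit 9) (nat_lit 6830),
   .der (nat_lit 10) (nat_lit 1494),
   .der (nat_lit 10) (nat_lit 1821),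
   .der (nat_lit 10) (nat_lit 3991),
   .der (nat_lit 10) (nat_lit 5277),
   .der (nat_lit 10) (nat_lit 5998),
   .der (nat_lit 10) (nat_lit 6994),
   .der (nat_lit 10) (nat_lit 7466),
   .der (nat_lit 10) (nat_lit 8212),
   .der (nat_lit 10) (nat_lit 9056),
   .der (nat_lit 10) (nat_lit 9751),
   .der (nat_lit 18) (nat_lit 4242),
   .der (nat_lit 18) (nat_lit 5155),
   .der (nat_lit 19) (nat_lit 2188),
   .der (nat_lit 19) (nat_lit 4329),
   .der (nat_lit 33) (nat_lit 936),
   .der (nat_lit 33) (nat_lit 1408),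
   .der (nat_lit 33) (nat_lit 3190),
   .der (nat_lit 33) (nat_lit 5052),
   .der (nat_lit 33) (nat_lit 8971),
   .der (nat_lit 33) (nat_lit 9157),
   .der (nat_lit 33) (nat_lit 9249),
   .der (nat_lit 35) (nat_lit 4242),
   .der (nat_lit 49) (nat_lit 6608),
   .der (nat_lit 49) (nat_lit 7344),
   .der (nat_lit 50) (nat_lit 2507),
   .der (nat_lit 50) (nat_lit 3180),
   .der (nat_lit 50) (nat_lit 4487),
   .der (nat_lit 50) (nat_lit 7339),
   .der (nat_lit 52) (nat_lit 8043),
   .der (nat_lit 65) (nat_lit 1491),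
   .der (nat_lit 66) (nat_lit 2667),
   .der (nat_lit 67) (nat_lit 8678),
   .der (nat_lit 83) (nat_lit 5890),
   .der (nat_lit 83) (nat_lit 6597),
   .der (nat_lit 83) (nat_lit 7339),
   .der (nat_lit 87) (nat_lit 2772),
   .der (nat_lit 98) (nat_lit 3180),
   .der (nat_lit 98) (nat_lit 4032),
   .der (nat_lit 98) (nat_lit 5924),
   .der (nat_lit 101) (nat_lit 3133),
   .der (nat_lit 101) (nat_lit 3424),
   .der (nat_lit 101) (nat_lit 5850),
   .der (nat_lit 101) (nat_lit 9689),
   .der (nat_lit 103) (nat_lit 2339),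
   .der (nat_lit 103) (nat_lit 3122),
   .der (nat_lit 103) (nat_lit 3314),
   .der (nat_lit 103) (nat_lit 3731),
   .der (nat_lit 103) (nat_lit 8785),
   .der (nat_lit 115) (nat_lit 3752),
   .der (nat_lit 117) (nat_lit 9039),
   .der (nat_lit 129) (nat_lit 6060),
   .der (nat_lit 129) (nat_lit 7472),
   .der (nat_lit 129) (nat_lit 8217),
   .der (nat_lit 135) (nat_lit 8968),
   .der (nat_lit 137) (nat_lit 1377),
   .der (nat_lit 137) (nat_lit 4322),
   .der (nat_lit 137) (nat_lit 6830),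
   .der (nat_lit 137) (nat_lit 8122),
   .der (nat_lit 137) (nat_lit 8130),
   .der (nat_lit 145) (nat_lit 3132),
   .der (nat_lit 145) (nat_lit 8316),
   .der (nat_lit 152) (nat_lit 524),
   .der (nat_lit 152) (nat_lit 9751),
   .der (nat_lit 161) (nat_lit 8316),
   .der (nat_lit 161) (nat_lit 8957),
   .der (nat_lit 162) (nat_lit 8781),
   .der (nat_lit 162) (nat_lit 9056),
   .der (nat_lit 162) (nat_lit 9731),
   .der (nat_lit 165) (nat_lit 3400),
   .der (nat_lit 165) (nat_lit 3985),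
   .der (nat_lit 165) (nat_lit 5194),
   .der (nat_lit 165) (nat_lit 5998),
   .der (nat_lit 165) (nat_lit 6163),
   .der (nat_lit 165) (nat_lit 6922),
   .der (nat_lit 165) (nat_lit 9823),
   .der (nat_lit 339) (nat_lit 5890),
   .der (nat_lit 354) (nat_lit 2503),
   .der (nat_lit 370) (nat_lit 8620),
   .der (nat_lit 561) (nat_lit 5924),
   .der (nat_lit 577) (nat_lit 936),
   .der (nat_lit 577) (nat_lit 3188),
   .der (nat_lit 577) (nat_lit 5059),
   .der (nat_lit 577) (nat_lit 6292),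
   .der (nat_lit 644) (nat_lit 2838),
   .der (nat_lit 644) (nat_lit 6072),
   .der (nat_lit 801) (nat_lit 2176),
   .der (nat_lit 801) (nat_lit 2197),
   .der (nat_lit 801) (nat_lit 5052),
   .der (nat_lit 833) (nat_lit 3731),
   .der (nat_lit 834) (nat_lit 2307),
   .der (nat_lit 834) (nat_lit 5681),
   .der (nat_lit 834) (nat_lit 6136),
   .der (nat_lit 852) (nat_lit 5039),
   .der (nat_lit 882) (nat_lit 7329),
   .der (nat_lit 1057) (nat_lit 2526),
   .der (nat_lit 1057) (nat_lit 8316),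
   .der (nat_lit 1073) (nat_lit 3626),
   .der (nat_lit 1074) (nat_lit 7706),
   .der (nat_lit 1107) (nat_lit 6917),
   .der (nat_lit 1299) (nat_lit 8429),
   .der (nat_lit 1300) (nat_lit 8316),
   .der (nat_lit 1395) (nat_lit 1250),
   .der (nat_lit 1415) (nat_lit 1633),
   .der (nat_lit 1415) (nat_lit 4687),
   .der (nat_lit 1415) (nat_lit 8015),
   .der (nat_lit 1554) (nat_lit 3562),
   .der (nat_lit 1554) (nat_lit 9296),
   .der (nat_lit 1556) (nat_lit 177),
   .der (nat_lit 1556) (nat_lit 827),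
   .der (nat_lit 1556) (nat_lit 5681),
   .der (nat_lit 1556) (nat_lit 8957),
   .der (nat_lit 1650) (nat_lit 2047),
   .der (nat_lit 1650) (nat_lit 5087),
   .der (nat_lit 1650) (nat_lit 8720),
   .der (nat_lit 1653) (nat_lit 1533),
   .der (nat_lit 1653) (nat_lit 1534),
   .der (nat_lit 1653) (nat_lit 1651),
   .der (nat_lit 1653) (nat_lit 4094),
   .der (nat_lit 1653) (nat_lit 8130),
   .der (nat_lit 1890) (nat_lit 1399),
   .der (nat_lit 1893) (nat_lit 2229),
   .der (nat_lit 1893) (nat_lit 2491),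
   .der (nat_lit 2068) (nat_lit 7534),
   .der (nat_lit 2068) (nat_lit 7881),
   .der (nat_lit 2084) (nat_lit 1051),
   .der (nat_lit 2084) (nat_lit 5052),
   .der (nat_lit 2084) (nat_lit 8603),
   .der (nat_lit 2135) (nat_lit 3308),
   .der (nat_lit 2135) (nat_lit 5811),
   .der (nat_lit 2193) (nat_lit 8122),
   .der (nat_lit 2193) (nat_lit 9354),
   .der (nat_lit 2193) (nat_lit 9684),
   .der (nat_lit 2339) (nat_lit 9731),
   .der (nat_lit 2353) (nat_lit 2738),
   .der (nat_lit 2353) (nat_lit 2904),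
   .der (nat_lit 2353) (nat_lit 3731),
   .der (nat_lit 2433) (nat_lit 2229),
   .der (nat_lit 2578) (nat_lit 1406),
   .der (nat_lit 2578) (nat_lit 1494),
   .der (nat_lit 2578) (nat_lit 2262),
   .der (nat_lit 2578) (nat_lit 3133),
   .der (nat_lit 2578) (nat_lit 3400),
   .der (nat_lit 2578) (nat_lit 6830),
   .der (nat_lit 2578) (nat_lit 8122),
   .der (nat_lit 2578) (nat_lit 9076),
   .der (nat_lit 2593) (nat_lit 3188),
   .der (nat_lit 2593) (nat_lit 3190),
   .der (nat_lit 2593) (nat_lit 4032),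
   .der (nat_lit 2593) (nat_lit 5059),
   .der (nat_lit 2593) (nat_lit 5850),
   .der (nat_lit 2593) (nat_lit 8598),
   .der (nat_lit 2593) (nat_lit 9337),
   .der (nat_lit 4978) (nat_lit 967),
   .der (nat_lit 5218) (nat_lit 4925),
   .der (nat_lit 5971) (nat_lit 3011),
   .der (nat_lit 9572) (nat_lit 169),
   .der (nat_lit 10305) (nat_lit 967)]

theorem b5_step34 (h : ∀ j < 17000, Good b5T j) : ∀ j < 17500, Good b5T j := by
  intro j hj
  refine chkL_ok b5C34 17000 h (by decide +kernel) j ?_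
  have h : b5C34.length = 500 := by decide +kernel
  omega

/-- certificates 17500..18000 -/
def b5C35 : List Cf :=
  [.der (nat_lit 12658) (nat_lit 2047),
   .der (nat_lit 12658) (nat_lit 2192),
   .der (nat_lit 12658) (nat_lit 6900),
   .der (nat_lit 13345) (nat_lit 1377),
   .der (nat_lit 13345) (nat_lit 5823),
   .der (nat_lit 13345) (nat_lit 6096),
   .der (nat_lit 13345) (nat_lit 8187),
   .der (nat_lit 16738) (nat_lit 6034),
   .der (nat_lit 17185) (nat_lit 2229),
   .der (nat_lit 17185) (nat_lit 2291),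
   .der (nat_lit 17185) (nat_lit 2491),
   .der (nat_lit 21107) (nat_lit 1904),
   .der (nat_lit 21107) (nat_lit 8720),
   .der (nat_lit 22548) (nat_lit 4065),
   .der (nat_lit 22548) (nat_lit 5052),
   .der (nat_lit 26386) (nat_lit 824),
   .der (nat_lit 26386) (nat_lit 2249),
   .der (nat_lit 26386) (nat_lit 4311),
   .der (nat_lit 26386) (nat_lit 5681),
   .der (nat_lit 26386) (nat_lit 5801),
   .der (nat_lit 26386) (nat_lit 9855),
   .der (nat_lit 29011) (nat_lit 6807),
   .der (nat_lit 30226) (nat_lit 9044),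
   .der (nat_lit 33345) (nat_lit 7469),
   .der (nat_lit 33345) (nat_lit 7575),
   .der (nat_lit 33345) (nat_lit 9287),
   .der (nat_lit 34068) (nat_lit 827),
   .der (nat_lit 34068) (nat_lit 1076),
   .der (nat_lit 34068) (nat_lit 7588),
   .der (nat_lit 34068) (nat_lit 8558),
   .der (nat_lit 34068) (nat_lit 8957),
   .der (nat_lit 34068) (nat_lit 9354),
   .der (nat_lit 34068) (nat_lit 9684),
   .der (nat_lit 38163) (nat_lit 4641),
   .der (nat_lit 1) (nat_lit 3152),
   .der (nat_lit 1) (nat_lit 5953),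
   .der (nat_lit 1) (nat_lit 7339),
   .der (nat_lit 1) (nat_lit 9044),
   .der (nat_lit 1) (nat_lit 9244),
   .der (nat_lit 1) (nat_lit 9716),
   .der (nat_lit 2) (nat_lit 6088),
   .der (nat_lit 2) (nat_lit 7339),
   .der (nat_lit 2) (nat_lit 8120),
   .der (nat_lit 2) (nat_lit 8134),
   .der (nat_lit 3) (nat_lit 4010),
   .der (nat_lit 3) (nat_lit 6314),
   .der (nat_lit 5) (nat_lit 7339),
   .der (nat_lit 5) (nat_lit 8120),
   .der (nat_lit 5) (nat_lit 9460),
   .der (nat_lit 6) (nat_lit 7339),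
   .der (nat_lit 8) (nat_lit 1309),
   .der (nat_lit 8) (nat_lit 7645),
   .der (nat_lit 8) (nat_lit 8134),
   .der (nat_lit 8) (nat_lit 9751),
   .der (nat_lit 9) (nat_lit 3502),
   .der (nat_lit 10) (nat_lit 834),
   .der (nat_lit 10) (nat_lit 2199),
   .der (nat_lit 10) (nat_lit 2241),
   .der (nat_lit 10) (nat_lit 3127),
   .der (nat_lit 10) (nat_lit 7505),
   .der (nat_lit 10) (nat_lit 8957),
   .der (nat_lit 18) (nat_lit 3783),
   .der (nat_lit 18) (nat_lit 7339),
   .der (nat_lit 18) (nat_lit 7542),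
   .der (nat_lit 19) (nat_lit 5883),
   .der (nat_lit 19) (nat_lit 7339),
   .der (nat_lit 33) (nat_lit 2271),
   .der (nat_lit 33) (nat_lit 4278),
   .der (nat_lit 33) (nat_lit 6860),
   .der (nat_lit 33) (nat_lit 8120),
   .der (nat_lit 35) (nat_lit 4459),
   .der (nat_lit 36) (nat_lit 8194),
   .der (nat_lit 49) (nat_lit 7339),
   .der (nat_lit 50) (nat_lit 2277),
   .der (nat_lit 52) (nat_lit 834),
   .der (nat_lit 52) (nat_lit 837),
   .der (nat_lit 52) (nat_lit 2369),
   .der (nat_lit 52) (nat_lit 4083),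
   .der (nat_lit 52) (nat_lit 5056),
   .der (nat_lit 52) (nat_lit 7505),
   .der (nat_lit 67) (nat_lit 5220),
   .der (nat_lit 86) (nat_lit 7339),
   .der (nat_lit 86) (nat_lit 8120),
   .der (nat_lit 87) (nat_lit 8968),
   .der (nat_lit 98) (nat_lit 1446),
   .der (nat_lit 98) (nat_lit 6845),
   .der (nat_lit 98) (nat_lit 7339),
   .der (nat_lit 98) (nat_lit 7542),
   .der (nat_lit 101) (nat_lit 1408),
   .der (nat_lit 101) (nat_lit 8979),
   .der (nat_lit 103) (nat_lit 2380),
   .der (nat_lit 103) (nat_lit 4334),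
   .der (nat_lit 103) (nat_lit 5973),
   .der (nat_lit 103) (nat_lit 7505),
   .der (nat_lit 103) (nat_lit 8143),
   .der (nat_lit 103) (nat_lit 8968),
   .der (nat_lit 114) (nat_lit 1904),
   .der (nat_lit 114) (nat_lit 3126),
   .der (nat_lit 114) (nat_lit 4010),
   .der (nat_lit 114) (nat_lit 8620),
   .der (nat_lit 115) (nat_lit 5883),
   .der (nat_lit 118) (nat_lit 513),
   .der (nat_lit 118) (nat_lit 981),
   .der (nat_lit 118) (nat_lit 5421),
   .der (nat_lit 129) (nat_lit 5163),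
   .der (nat_lit 129) (nat_lit 5167),
   .der (nat_lit 129) (nat_lit 7456),
   .der (nat_lit 129) (nat_lit 7801),
   .der (nat_lit 129) (nat_lit 8749),
   .der (nat_lit 132) (nat_lit 934),
   .der (nat_lit 132) (nat_lit 7534),
   .der (nat_lit 137) (nat_lit 2300),
   .der (nat_lit 137) (nat_lit 4585),
   .der (nat_lit 137) (nat_lit 5107),
   .der (nat_lit 137) (nat_lit 7588),
   .der (nat_lit 137) (nat_lit 8957),
   .der (nat_lit 137) (nat_lit 9684),
   .der (nat_lit 145) (nat_lit 921),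
   .der (nat_lit 145) (nat_lit 1400),
   .der (nat_lit 145) (nat_lit 5250),
   .der (nat_lit 145) (nat_lit 6830),
   .der (nat_lit 152) (nat_lit 1415),
   .der (nat_lit 152) (nat_lit 2543),
   .der (nat_lit 161) (nat_lit 1494),
   .der (nat_lit 161) (nat_lit 1557),
   .der (nat_lit 161) (nat_lit 3727),
   .der (nat_lit 161) (nat_lit 8212),
   .der (nat_lit 162) (nat_lit 1494),
   .der (nat_lit 162) (nat_lit 3400),
   .der (nat_lit 162) (nat_lit 6828),
   .der (nat_lit 162) (nat_lit 8122),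
   .der (nat_lit 162) (nat_lit 9076),
   .der (nat_lit 165) (nat_lit 2718),
   .der (nat_lit 165) (nat_lit 3138),
   .der (nat_lit 165) (nat_lit 4032),
   .der (nat_lit 165) (nat_lit 9337),
   .der (nat_lit 339) (nat_lit 681),
   .der (nat_lit 339) (nat_lit 1880),
   .der (nat_lit 339) (nat_lit 5883),
   .der (nat_lit 339) (nat_lit 6860),
   .der (nat_lit 340) (nat_lit 4497),
   .der (nat_lit 354) (nat_lit 4329),
   .der (nat_lit 354) (nat_lit 7339),
   .der (nat_lit 370) (nat_lit 5171),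
   .der (nat_lit 561) (nat_lit 2186),
   .der (nat_lit 561) (nat_lit 6860),
   .der (nat_lit 561) (nat_lit 7339),
   .der (nat_lit 561) (nat_lit 7542),
   .der (nat_lit 577) (nat_lit 584),
   .der (nat_lit 577) (nat_lit 1400),
   .der (nat_lit 577) (nat_lit 3454),
   .der (nat_lit 577) (nat_lit 6900),
   .der (nat_lit 627) (nat_lit 6917),
   .der (nat_lit 644) (nat_lit 5220),
   .der (nat_lit 801) (nat_lit 3285),
   .der (nat_lit 801) (nat_lit 4236),
   .der (nat_lit 801) (nat_lit 4383),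
   .der (nat_lit 801) (nat_lit 5827),
   .der (nat_lit 801) (nat_lit 6615),
   .der (nat_lit 833) (nat_lit 3285),
   .der (nat_lit 834) (nat_lit 4005),
   .der (nat_lit 834) (nat_lit 4585),
   .der (nat_lit 852) (nat_lit 6872),
   .der (nat_lit 882) (nat_lit 1478),
   .der (nat_lit 882) (nat_lit 4005),
   .der (nat_lit 882) (nat_lit 8407),
   .der (nat_lit 1057) (nat_lit 187),
   .der (nat_lit 1057) (nat_lit 4455),
   .der (nat_lit 1057) (nat_lit 9039),
   .der (nat_lit 1299) (nat_lit 8134),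
   .der (nat_lit 1299) (nat_lit 8860),
   .der (nat_lit 1415) (nat_lit 1408),
   .der (nat_lit 1415) (nat_lit 1647),
   .der (nat_lit 1415) (nat_lit 3152),
   .der (nat_lit 1554) (nat_lit 4555),
   .der (nat_lit 1554) (nat_lit 6860),
   .der (nat_lit 1554) (nat_lit 7339),
   .der (nat_lit 1554) (nat_lit 8134),
   .der (nat_lit 1556) (nat_lit 3236),
   .der (nat_lit 1556) (nat_lit 6072),
   .der (nat_lit 1556) (nat_lit 8143),
   .der (nat_lit 1556) (nat_lit 9354),
   .der (nat_lit 1650) (nat_lit 405),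
   .der (nat_lit 1650) (nat_lit 6900),
   .der (nat_lit 1653) (nat_lit 834),
   .der (nat_lit 1653) (nat_lit 2300),
   .der (nat_lit 1653) (nat_lit 2424),
   .der (nat_lit 1653) (nat_lit 4041),
   .der (nat_lit 1653) (nat_lit 5107),
   .der (nat_lit 1653) (nat_lit 5864),
   .der (nat_lit 1810) (nat_lit 2464),
   .der (nat_lit 1810) (nat_lit 7821),
   .der (nat_lit 1875) (nat_lit 2327),
   .der (nat_lit 1890) (nat_lit 4246),
   .der (nat_lit 2068) (nat_lit 1444),
   .der (nat_lit 2084) (nat_lit 76),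
   .der (nat_lit 2084) (nat_lit 8122),
   .der (nat_lit 2084) (nat_lit 9287),
   .der (nat_lit 2084) (nat_lit 9354),
   .der (nat_lit 2113) (nat_lit 2472),
   .der (nat_lit 2113) (nat_lit 5167),
   .der (nat_lit 2135) (nat_lit 898),
   .der (nat_lit 2135) (nat_lit 1381),
   .der (nat_lit 2135) (nat_lit 3617),
   .der (nat_lit 2135) (nat_lit 4236),
   .der (nat_lit 2135) (nat_lit 5095),
   .der (nat_lit 2135) (nat_lit 6963),
   .der (nat_lit 2135) (nat_lit 8122),
   .der (nat_lit 2135) (nat_lit 9287),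
   .der (nat_lit 2135) (nat_lit 9684),
   .der (nat_lit 2135) (nat_lit 9911),
   .der (nat_lit 2193) (nat_lit 1428),
   .der (nat_lit 2193) (nat_lit 1453),
   .der (nat_lit 2193) (nat_lit 2224),
   .der (nat_lit 2193) (nat_lit 3385),
   .der (nat_lit 2193) (nat_lit 5277),
   .der (nat_lit 2193) (nat_lit 7588),
   .der (nat_lit 2193) (nat_lit 7628),
   .der (nat_lit 2339) (nat_lit 5067),
   .der (nat_lit 2339) (nat_lit 5194),
   .der (nat_lit 2353) (nat_lit 5898),
   .der (nat_lit 2390) (nat_lit 981),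
   .der (nat_lit 2390) (nat_lit 1415),
   .der (nat_lit 2390) (nat_lit 1880),
   .der (nat_lit 2390) (nat_lit 1936),
   .der (nat_lit 2390) (nat_lit 9337),
   .der (nat_lit 2433) (nat_lit 1557),
   .der (nat_lit 2433) (nat_lit 5277),
   .der (nat_lit 2433) (nat_lit 5840),
   .der (nat_lit 2578) (nat_lit 631),
   .der (nat_lit 2578) (nat_lit 3126),
   .der (nat_lit 2578) (nat_lit 9731),
   .der (nat_lit 2593) (nat_lit 3133),
   .der (nat_lit 2593) (nat_lit 3344),
   .der (nat_lit 2593) (nat_lit 4390),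
   .der (nat_lit 2593) (nat_lit 5194),
   .der (nat_lit 2593) (nat_lit 5293),
   .der (nat_lit 2593) (nat_lit 5811),
   .der (nat_lit 2593) (nat_lit 6180),
   .der (nat_lit 2593) (nat_lit 6828),
   .der (nat_lit 2593) (nat_lit 7453),
   .der (nat_lit 5218) (nat_lit 2011),
   .der (nat_lit 5218) (nat_lit 8330),
   .der (nat_lit 9572) (nat_lit 964),
   .der (nat_lit 10545) (nat_lit 5817),
   .der (nat_lit 12658) (nat_lit 1448),
   .der (nat_lit 12658) (nat_lit 1473),
   .der (nat_lit 12658) (nat_lit 3122),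
   .der (nat_lit 12658) (nat_lit 5087),
   .der (nat_lit 13345) (nat_lit 451),
   .der (nat_lit 13345) (nat_lit 2176),
   .der (nat_lit 13345) (nat_lit 2543),
   .der (nat_lit 13345) (nat_lit 4094),
   .der (nat_lit 13345) (nat_lit 4585),
   .der (nat_lit 13345) (nat_lit 5100),
   .der (nat_lit 17185) (nat_lit 3477),
   .der (nat_lit 21092) (nat_lit 1421),
   .der (nat_lit 22548) (nat_lit 3133),
   .der (nat_lit 22803) (nat_lit 2327),
   .der (nat_lit 24916) (nat_lit 8139),
   .der (nat_lit 24916) (nat_lit 9354),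
   .der (nat_lit 26386) (nat_lit 897),
   .der (nat_lit 26386) (nat_lit 3200),
   .der (nat_lit 26386) (nat_lit 4585),
   .der (nat_lit 26386) (nat_lit 5947),
   .der (nat_lit 29011) (nat_lit 513),
   .der (nat_lit 29011) (nat_lit 3598),
   .der (nat_lit 29011) (nat_lit 4010),
   .der (nat_lit 30226) (nat_lit 2238),
   .der (nat_lit 33345) (nat_lit 3245),
   .der (nat_lit 33345) (nat_lit 3308),
   .der (nat_lit 33345) (nat_lit 3454),
   .der (nat_lit 33345) (nat_lit 6163),
   .der (nat_lit 33345) (nat_lit 6900),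
   .der (nat_lit 33345) (nat_lit 8122),
   .der (nat_lit 34068) (nat_lit 1381),
   .der (nat_lit 34068) (nat_lit 8603),
   .der (nat_lit 34068) (nat_lit 9287),
   .der (nat_lit 37425) (nat_lit 7211),
   .der (nat_lit 37425) (nat_lit 7612),
   .der (nat_lit 38163) (nat_lit 1589),
   .der (nat_lit 38163) (nat_lit 9731),
   .der (nat_lit 1) (nat_lit 870),
   .der (nat_lit 1) (nat_lit 873),
   .der (nat_lit 1) (nat_lit 2197),
   .der (nat_lit 1) (nat_lit 6832),
   .der (nat_lit 1) (nat_lit 7056),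
   .der (nat_lit 1) (nat_lit 8134),
   .der (nat_lit 1) (nat_lit 8316),
   .der (nat_lit 1) (nat_lit 9791),
   .der (nat_lit 4) (nat_lit 881),
   .der (nat_lit 4) (nat_lit 4300),
   .der (nat_lit 4) (nat_lit 9522),
   .der (nat_lit 4) (nat_lit 9625),
   .der (nat_lit 4) (nat_lit 9925),
   .der (nat_lit 5) (nat_lit 455),
   .der (nat_lit 5) (nat_lit 881),
   .der (nat_lit 5) (nat_lit 936),
   .der (nat_lit 5) (nat_lit 3190),
   .der (nat_lit 5) (nat_lit 3194),
   .der (nat_lit 5) (nat_lit 3570),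
   .der (nat_lit 5) (nat_lit 4113),
   .der (nat_lit 5) (nat_lit 4872),
   .der (nat_lit 5) (nat_lit 6621),
   .der (nat_lit 6) (nat_lit 432),
   .der (nat_lit 7) (nat_lit 5998),
   .der (nat_lit 7) (nat_lit 9716),
   .der (nat_lit 8) (nat_lit 892),
   .der (nat_lit 8) (nat_lit 1408),
   .der (nat_lit 8) (nat_lit 2197),
   .der (nat_lit 8) (nat_lit 2296),
   .der (nat_lit 8) (nat_lit 3152),
   .der (nat_lit 8) (nat_lit 3190),
   .der (nat_lit 8) (nat_lit 4236),
   .der (nat_lit 8) (nat_lit 4575),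
   .der (nat_lit 8) (nat_lit 6860),
   .der (nat_lit 8) (nat_lit 8536),
   .der (nat_lit 8) (nat_lit 9044),
   .der (nat_lit 9) (nat_lit 829),
   .der (nat_lit 9) (nat_lit 930),
   .der (nat_lit 9) (nat_lit 1508),
   .der (nat_lit 9) (nat_lit 2197),
   .der (nat_lit 9) (nat_lit 4895),
   .der (nat_lit 9) (nat_lit 6066),
   .der (nat_lit 9) (nat_lit 8066),
   .der (nat_lit 9) (nat_lit 8316),
   .der (nat_lit 9) (nat_lit 8627),
   .der (nat_lit 10) (nat_lit 2244),
   .der (nat_lit 10) (nat_lit 3144),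
   .der (nat_lit 10) (nat_lit 4050),
   .der (nat_lit 10) (nat_lit 4088),
   .der (nat_lit 10) (nat_lit 5037),
   .der (nat_lit 10) (nat_lit 5220),
   .der (nat_lit 10) (nat_lit 5811),
   .der (nat_lit 10) (nat_lit 5840),
   .der (nat_lit 10) (nat_lit 7665),
   .der (nat_lit 10) (nat_lit 8143),
   .der (nat_lit 10) (nat_lit 8633),
   .der (nat_lit 18) (nat_lit 1408),
   .der (nat_lit 18) (nat_lit 4113),
   .der (nat_lit 18) (nat_lit 5547),
   .der (nat_lit 18) (nat_lit 8316),
   .der (nat_lit 19) (nat_lit 6860),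
   .der (nat_lit 33) (nat_lit 881),
   .der (nat_lit 35) (nat_lit 3190),
   .der (nat_lit 35) (nat_lit 5883),
   .der (nat_lit 36) (nat_lit 876),
   .der (nat_lit 36) (nat_lit 5087),
   .der (nat_lit 36) (nat_lit 7628),
   .der (nat_lit 50) (nat_lit 2618),
   .der (nat_lit 50) (nat_lit 4111),
   .der (nat_lit 52) (nat_lit 1074),
   .der (nat_lit 52) (nat_lit 1421),
   .der (nat_lit 52) (nat_lit 1647),
   .der (nat_lit 52) (nat_lit 2307),
   .der (nat_lit 65) (nat_lit 1058),
   .der (nat_lit 67) (nat_lit 1880),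
   .der (nat_lit 67) (nat_lit 4408),
   .der (nat_lit 67) (nat_lit 9933),
   .der (nat_lit 83) (nat_lit 2327),
   .der (nat_lit 83) (nat_lit 5949),
   .der (nat_lit 83) (nat_lit 6860),
   .der (nat_lit 83) (nat_lit 7542),
   .der (nat_lit 86) (nat_lit 5917),
   .der (nat_lit 87) (nat_lit 73),
   .der (nat_lit 87) (nat_lit 867),
   .der (nat_lit 87) (nat_lit 2764),
   .der (nat_lit 87) (nat_lit 3133),
   .der (nat_lit 87) (nat_lit 3188),
   .der (nat_lit 87) (nat_lit 3194),
   .der (nat_lit 87) (nat_lit 5059),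
   .der (nat_lit 87) (nat_lit 6034),
   .der (nat_lit 87) (nat_lit 6292),
   .der (nat_lit 87) (nat_lit 6378),
   .der (nat_lit 87) (nat_lit 8857),
   .der (nat_lit 87) (nat_lit 9152),
   .der (nat_lit 98) (nat_lit 5890),
   .der (nat_lit 101) (nat_lit 881),
   .der (nat_lit 101) (nat_lit 2197),
   .der (nat_lit 101) (nat_lit 5448),
   .der (nat_lit 101) (nat_lit 5953),
   .der (nat_lit 101) (nat_lit 7107),
   .der (nat_lit 101) (nat_lit 7898),
   .der (nat_lit 101) (nat_lit 8650),
   .der (nat_lit 101) (nat_lit 8976),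
   .der (nat_lit 103) (nat_lit 3454),
   .der (nat_lit 114) (nat_lit 923),
   .der (nat_lit 114) (nat_lit 2487),
   .der (nat_lit 114) (nat_lit 2908),
   .der (nat_lit 114) (nat_lit 4925),
   .der (nat_lit 117) (nat_lit 373),
   .der (nat_lit 117) (nat_lit 2676),
   .der (nat_lit 117) (nat_lit 2738),
   .der (nat_lit 117) (nat_lit 3626),
   .der (nat_lit 118) (nat_lit 2291),
   .der (nat_lit 118) (nat_lit 3626),
   .der (nat_lit 129) (nat_lit 1408),
   .der (nat_lit 129) (nat_lit 2197),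
   .der (nat_lit 129) (nat_lit 3152),
   .der (nat_lit 129) (nat_lit 3604),
   .der (nat_lit 129) (nat_lit 4111),
   .der (nat_lit 129) (nat_lit 6860),
   .der (nat_lit 129) (nat_lit 7511),
   .der (nat_lit 129) (nat_lit 7520),
   .der (nat_lit 132) (nat_lit 1421),
   .der (nat_lit 135) (nat_lit 4119),
   .der (nat_lit 135) (nat_lit 5957),
   .der (nat_lit 137) (nat_lit 2176),
   .der (nat_lit 137) (nat_lit 2249),
   .der (nat_lit 137) (nat_lit 3008),
   .der (nat_lit 137) (nat_lit 3245),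
   .der (nat_lit 137) (nat_lit 4254),
   .der (nat_lit 137) (nat_lit 6202),
   .der (nat_lit 137) (nat_lit 6448),
   .der (nat_lit 137) (nat_lit 6994),
   .der (nat_lit 137) (nat_lit 7466),
   .der (nat_lit 137) (nat_lit 9056),
   .der (nat_lit 137) (nat_lit 9287),
   .der (nat_lit 137) (nat_lit 9844),
   .der (nat_lit 145) (nat_lit 2197),
   .der (nat_lit 145) (nat_lit 2468),
   .der (nat_lit 145) (nat_lit 3988),
   .der (nat_lit 147) (nat_lit 5059),
   .der (nat_lit 150) (nat_lit 2533),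
   .der (nat_lit 150) (nat_lit 5823),
   .der (nat_lit 150) (nat_lit 8130),
   .der (nat_lit 152) (nat_lit 521),
   .der (nat_lit 152) (nat_lit 3150),
   .der (nat_lit 152) (nat_lit 4249),
   .der (nat_lit 152) (nat_lit 5840),
   .der (nat_lit 152) (nat_lit 9303),
   .der (nat_lit 161) (nat_lit 881),
   .der (nat_lit 161) (nat_lit 909),
   .der (nat_lit 161) (nat_lit 1453),
   .der (nat_lit 161) (nat_lit 2171),
   .der (nat_lit 161) (nat_lit 2249),
   .der (nat_lit 161) (nat_lit 3109),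
   .der (nat_lit 161) (nat_lit 3124),
   .der (nat_lit 161) (nat_lit 3133),
   .der (nat_lit 161) (nat_lit 4111),
   .der (nat_lit 161) (nat_lit 4126),
   .der (nat_lit 161) (nat_lit 5037),
   .der (nat_lit 161) (nat_lit 5039),
   .der (nat_lit 161) (nat_lit 5840),
   .der (nat_lit 161) (nat_lit 5858),
   .der (nat_lit 161) (nat_lit 7898),
   .der (nat_lit 161) (nat_lit 8143),
   .der (nat_lit 162) (nat_lit 824),
   .der (nat_lit 162) (nat_lit 850),
   .der (nat_lit 162) (nat_lit 1406),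
   .der (nat_lit 162) (nat_lit 2197),
   .der (nat_lit 162) (nat_lit 3133),
   .der (nat_lit 162) (nat_lit 4111),
   .der (nat_lit 162) (nat_lit 5801),
   .der (nat_lit 162) (nat_lit 7505),
   .der (nat_lit 162) (nat_lit 9081),
   .der (nat_lit 165) (nat_lit 1381),
   .der (nat_lit 165) (nat_lit 2199),
   .der (nat_lit 165) (nat_lit 3188),
   .der (nat_lit 165) (nat_lit 5037),
   .der (nat_lit 165) (nat_lit 5801),
   .der (nat_lit 165) (nat_lit 5811),
   .der (nat_lit 165) (nat_lit 8488),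
   .der (nat_lit 165) (nat_lit 8576),
   .der (nat_lit 165) (nat_lit 9303),
   .der (nat_lit 165) (nat_lit 9699),
   .der (nat_lit 340) (nat_lit 169),
   .der (nat_lit 340) (nat_lit 3363),
   .der (nat_lit 354) (nat_lit 9481),
   .der (nat_lit 356) (nat_lit 3282),
   .der (nat_lit 370) (nat_lit 544),
   .der (nat_lit 561) (nat_lit 4113),
   .der (nat_lit 561) (nat_lit 5917),
   .der (nat_lit 561) (nat_lit 7553),
   .der (nat_lit 561) (nat_lit 8120),
   .der (nat_lit 577) (nat_lit 873),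
   .der (nat_lit 577) (nat_lit 1381),
   .der (nat_lit 577) (nat_lit 1406),
   .der (nat_lit 577) (nat_lit 2551),
   .der (nat_lit 577) (nat_lit 3020),
   .der (nat_lit 577) (nat_lit 4236),
   .der (nat_lit 577) (nat_lit 4242),
   .der (nat_lit 577) (nat_lit 8857),
   .der (nat_lit 644) (nat_lit 177),
   .der (nat_lit 644) (nat_lit 952),
   .der (nat_lit 644) (nat_lit 2307),
   .der (nat_lit 644) (nat_lit 3133),
   .der (nat_lit 659) (nat_lit 3190),
   .der (nat_lit 659) (nat_lit 5524),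
   .der (nat_lit 801) (nat_lit 4111),
   .der (nat_lit 833) (nat_lit 967),
   .der (nat_lit 833) (nat_lit 2339),
   .der (nat_lit 833) (nat_lit 3122),
   .der (nat_lit 833) (nat_lit 7505),
   .der (nat_lit 833) (nat_lit 8143),
   .der (nat_lit 834) (nat_lit 889),
   .der (nat_lit 834) (nat_lit 3062),
   .der (nat_lit 834) (nat_lit 3590),
   .der (nat_lit 834) (nat_lit 4010),
   .der (nat_lit 834) (nat_lit 5864)]

theorem b5_step35 (h : ∀ j < 17500, Good b5T j) : ∀ j < 18000, Good b5T j := by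
  intro j hj
  refine chkL_ok b5C35 17500 h (by decide +kernel) j ?_
  have h : b5C35.length = 500 := by decide +kernel
  omega


end Tab

end Pool.Agent.Work.MP_bf01b2_co.MR
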