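import Pool.Agent.Work.MP_bf01b2_co.MR.B5T

set_option maxRecDepth 100000

namespace Pool.Agent.Work.MP_bf01b2_co.MR

namespace Tab

/-- certificates 18000..18500 -/
def b5C36 : List Cf :=
  [.der (nat_lit 852) (nat_lit 1191),
   .der (nat_lit 852) (nat_lit 3988),
   .der (nat_lit 852) (nat_lit 5811),
   .der (nat_lit 852) (nat_lit 6900),
   .der (nat_lit 852) (nat_lit 7023),
   .der (nat_lit 852) (nat_lit 7636),
   .der (nat_lit 882) (nat_lit 885),
   .der (nat_lit 1057) (nat_lit 2738),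
   .der (nat_lit 1057) (nat_lit 5524),
   .der (nat_lit 1074) (nat_lit 2197),
   .der (nat_lit 1074) (nat_lit 8678),
   .der (nat_lit 1107) (nat_lit 2819),
   .der (nat_lit 1107) (nat_lit 5220),
   .der (nat_lit 1122) (nat_lit 3190),
   .der (nat_lit 1122) (nat_lit 4032),
   .der (nat_lit 1299) (nat_lit 1581),
   .der (nat_lit 1300) (nat_lit 2176),
   .der (nat_lit 1300) (nat_lit 3008),
   .der (nat_lit 1300) (nat_lit 5947),
   .der (nat_lit 1300) (nat_lit 7634),
   .der (nat_lit 1300) (nat_lit 8627),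
   .der (nat_lit 1415) (nat_lit 1058),
   .der (nat_lit 1415) (nat_lit 3347),
   .der (nat_lit 1415) (nat_lit 4028),
   .der (nat_lit 1415) (nat_lit 8637),
   .der (nat_lit 1415) (nat_lit 9942),
   .der (nat_lit 1430) (nat_lit 1897),
   .der (nat_lit 1430) (nat_lit 3731),
   .der (nat_lit 1430) (nat_lit 5957),
   .der (nat_lit 1430) (nat_lit 8603),
   .der (nat_lit 1554) (nat_lit 1248),
   .der (nat_lit 1554) (nat_lit 3190),
   .der (nat_lit 1554) (nat_lit 5524),
   .der (nat_lit 1554) (nat_lit 7490),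
   .der (nat_lit 1554) (nat_lit 7511),
   .der (nat_lit 1556) (nat_lit 3132),
   .der (nat_lit 1556) (nat_lit 4005),
   .der (nat_lit 1556) (nat_lit 4031),
   .der (nat_lit 1556) (nat_lit 4777),
   .der (nat_lit 1556) (nat_lit 6545),
   .der (nat_lit 1620) (nat_lit 3270),
   .der (nat_lit 1620) (nat_lit 3556),
   .der (nat_lit 1650) (nat_lit 906),
   .der (nat_lit 1650) (nat_lit 1448),
   .der (nat_lit 1650) (nat_lit 2203),
   .der (nat_lit 1653) (nat_lit 417),
   .der (nat_lit 1653) (nat_lit 1421),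
   .der (nat_lit 1653) (nat_lit 2307),
   .der (nat_lit 1653) (nat_lit 2578),
   .der (nat_lit 1653) (nat_lit 3043),
   .der (nat_lit 1653) (nat_lit 3635),
   .der (nat_lit 1653) (nat_lit 4024),
   .der (nat_lit 1653) (nat_lit 4032),
   .der (nat_lit 1653) (nat_lit 5052),
   .der (nat_lit 1653) (nat_lit 5059),
   .der (nat_lit 1653) (nat_lit 5811),
   .der (nat_lit 1653) (nat_lit 5823),
   .der (nat_lit 1653) (nat_lit 5850),
   .der (nat_lit 1653) (nat_lit 6215),
   .der (nat_lit 1810) (nat_lit 2197),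
   .der (nat_lit 1810) (nat_lit 4111),
   .der (nat_lit 1810) (nat_lit 6006),
   .der (nat_lit 1811) (nat_lit 365),
   .der (nat_lit 1811) (nat_lit 939),
   .der (nat_lit 1811) (nat_lit 9016),
   .der (nat_lit 1875) (nat_lit 4073),
   .der (nat_lit 1890) (nat_lit 2429),
   .der (nat_lit 1890) (nat_lit 5805),
   .der (nat_lit 1890) (nat_lit 5890),
   .der (nat_lit 1890) (nat_lit 7916),
   .der (nat_lit 1893) (nat_lit 2291),
   .der (nat_lit 1893) (nat_lit 3243),
   .der (nat_lit 1893) (nat_lit 5840),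
   .der (nat_lit 1893) (nat_lit 7599),
   .der (nat_lit 1893) (nat_lit 7898),
   .der (nat_lit 2068) (nat_lit 1381),
   .der (nat_lit 2084) (nat_lit 499),
   .der (nat_lit 2084) (nat_lit 824),
   .der (nat_lit 2084) (nat_lit 837),
   .der (nat_lit 2084) (nat_lit 1381),
   .der (nat_lit 2084) (nat_lit 1651),
   .der (nat_lit 2084) (nat_lit 2192),
   .der (nat_lit 2084) (nat_lit 7575),
   .der (nat_lit 2084) (nat_lit 8658),
   .der (nat_lit 2084) (nat_lit 9056),
   .der (nat_lit 2113) (nat_lit 870),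
   .der (nat_lit 2135) (nat_lit 2769),
   .der (nat_lit 2135) (nat_lit 4111),
   .der (nat_lit 2135) (nat_lit 6054),
   .der (nat_lit 2135) (nat_lit 7469),
   .der (nat_lit 2193) (nat_lit 2197),
   .der (nat_lit 2193) (nat_lit 3190),
   .der (nat_lit 2193) (nat_lit 6260),
   .der (nat_lit 2193) (nat_lit 7466),
   .der (nat_lit 2323) (nat_lit 1070),
   .der (nat_lit 2323) (nat_lit 2192),
   .der (nat_lit 2323) (nat_lit 5883),
   .der (nat_lit 2339) (nat_lit 864),
   .der (nat_lit 2353) (nat_lit 1408),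
   .der (nat_lit 2353) (nat_lit 1448),
   .der (nat_lit 2353) (nat_lit 5850),
   .der (nat_lit 2353) (nat_lit 8771),
   .der (nat_lit 2390) (nat_lit 1441),
   .der (nat_lit 2390) (nat_lit 1575),
   .der (nat_lit 2390) (nat_lit 3323),
   .der (nat_lit 2390) (nat_lit 3663),
   .der (nat_lit 2390) (nat_lit 9699),
   .der (nat_lit 2433) (nat_lit 861),
   .der (nat_lit 2578) (nat_lit 1377),
   .der (nat_lit 2578) (nat_lit 4111),
   .der (nat_lit 2578) (nat_lit 5052),
   .der (nat_lit 2578) (nat_lit 5840),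
   .der (nat_lit 2578) (nat_lit 7313),
   .der (nat_lit 2578) (nat_lit 7464),
   .der (nat_lit 2578) (nat_lit 7898),
   .der (nat_lit 2578) (nat_lit 9933),
   .der (nat_lit 2593) (nat_lit 824),
   .der (nat_lit 2593) (nat_lit 1408),
   .der (nat_lit 2593) (nat_lit 2199),
   .der (nat_lit 2593) (nat_lit 2300),
   .der (nat_lit 2593) (nat_lit 2382),
   .der (nat_lit 2593) (nat_lit 2718),
   .der (nat_lit 2593) (nat_lit 3144),
   .der (nat_lit 2593) (nat_lit 4111),
   .der (nat_lit 2593) (nat_lit 9769),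
   .der (nat_lit 4978) (nat_lit 1478),
   .der (nat_lit 5218) (nat_lit 8165),
   .der (nat_lit 5218) (nat_lit 9337),
   .der (nat_lit 9587) (nat_lit 1904),
   .der (nat_lit 9587) (nat_lit 2819),
   .der (nat_lit 9587) (nat_lit 6333),
   .der (nat_lit 9587) (nat_lit 8327),
   .der (nat_lit 10305) (nat_lit 451),
   .der (nat_lit 10305) (nat_lit 9942),
   .der (nat_lit 10545) (nat_lit 3626),
   .der (nat_lit 10545) (nat_lit 9127),
   .der (nat_lit 12658) (nat_lit 461),
   .der (nat_lit 12658) (nat_lit 2203),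
   .der (nat_lit 12658) (nat_lit 8737),
   .der (nat_lit 13345) (nat_lit 1453),
   .der (nat_lit 13345) (nat_lit 3251),
   .der (nat_lit 13345) (nat_lit 3635),
   .der (nat_lit 13345) (nat_lit 5052),
   .der (nat_lit 13345) (nat_lit 7474),
   .der (nat_lit 17185) (nat_lit 455),
   .der (nat_lit 17185) (nat_lit 7898),
   .der (nat_lit 21107) (nat_lit 9724),
   .der (nat_lit 22548) (nat_lit 3166),
   .der (nat_lit 22548) (nat_lit 5033),
   .der (nat_lit 22803) (nat_lit 824),
   .der (nat_lit 24916) (nat_lit 3988),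
   .der (nat_lit 26386) (nat_lit 3443),
   .der (nat_lit 26386) (nat_lit 4010),
   .der (nat_lit 26386) (nat_lit 4028),
   .der (nat_lit 26386) (nat_lit 5119),
   .der (nat_lit 26386) (nat_lit 5850),
   .der (nat_lit 26386) (nat_lit 7464),
   .der (nat_lit 26386) (nat_lit 7466),
   .der (nat_lit 26386) (nat_lit 7650),
   .der (nat_lit 29011) (nat_lit 2772),
   .der (nat_lit 30226) (nat_lit 3291),
   .der (nat_lit 30226) (nat_lit 5220),
   .der (nat_lit 30226) (nat_lit 5840),
   .der (nat_lit 30226) (nat_lit 7881),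
   .der (nat_lit 33345) (nat_lit 824),
   .der (nat_lit 33345) (nat_lit 1381),
   .der (nat_lit 33345) (nat_lit 2320),
   .der (nat_lit 33345) (nat_lit 2339),
   .der (nat_lit 33345) (nat_lit 2548),
   .der (nat_lit 33345) (nat_lit 3457),
   .der (nat_lit 33345) (nat_lit 4010),
   .der (nat_lit 33345) (nat_lit 4559),
   .der (nat_lit 33345) (nat_lit 5100),
   .der (nat_lit 33345) (nat_lit 5817),
   .der (nat_lit 33345) (nat_lit 8991),
   .der (nat_lit 33345) (nat_lit 9684),
   .der (nat_lit 34068) (nat_lit 3008),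
   .der (nat_lit 34068) (nat_lit 3190),
   .der (nat_lit 34068) (nat_lit 5053),
   .der (nat_lit 34068) (nat_lit 7453),
   .der (nat_lit 34068) (nat_lit 8122),
   .der (nat_lit 34068) (nat_lit 9925),
   .der (nat_lit 34068) (nat_lit 9984),
   .der (nat_lit 37425) (nat_lit 881),
   .der (nat_lit 37425) (nat_lit 6828),
   .der (nat_lit 37425) (nat_lit 6986),
   .der (nat_lit 38163) (nat_lit 1073),
   .der (nat_lit 38163) (nat_lit 9087),
   .der (nat_lit 1) (nat_lit 2203),
   .der (nat_lit 1) (nat_lit 2262),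
   .der (nat_lit 1) (nat_lit 4020),
   .der (nat_lit 1) (nat_lit 5067),
   .der (nat_lit 1) (nat_lit 5807),
   .der (nat_lit 1) (nat_lit 6817),
   .der (nat_lit 1) (nat_lit 6830),
   .der (nat_lit 1) (nat_lit 7505),
   .der (nat_lit 1) (nat_lit 9032),
   .der (nat_lit 2) (nat_lit 169),
   .der (nat_lit 2) (nat_lit 2203),
   .der (nat_lit 2) (nat_lit 3122),
   .der (nat_lit 2) (nat_lit 3132),
   .der (nat_lit 2) (nat_lit 4010),
   .der (nat_lit 2) (nat_lit 5505),
   .der (nat_lit 2) (nat_lit 6251),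
   .der (nat_lit 2) (nat_lit 8143),
   .der (nat_lit 3) (nat_lit 8122),
   .der (nat_lit 4) (nat_lit 5220),
   .der (nat_lit 4) (nat_lit 9933),
   .der (nat_lit 5) (nat_lit 837),
   .der (nat_lit 5) (nat_lit 1400),
   .der (nat_lit 5) (nat_lit 1728),
   .der (nat_lit 5) (nat_lit 3127),
   .der (nat_lit 5) (nat_lit 4010),
   .der (nat_lit 5) (nat_lit 5293),
   .der (nat_lit 5) (nat_lit 5811),
   .der (nat_lit 5) (nat_lit 7575),
   .der (nat_lit 5) (nat_lit 8143),
   .der (nat_lit 6) (nat_lit 2180),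
   .der (nat_lit 6) (nat_lit 3166),
   .der (nat_lit 6) (nat_lit 7505),
   .der (nat_lit 6) (nat_lit 8122),
   .der (nat_lit 7) (nat_lit 1880),
   .der (nat_lit 7) (nat_lit 9554),
   .der (nat_lit 8) (nat_lit 1392),
   .der (nat_lit 8) (nat_lit 1557),
   .der (nat_lit 8) (nat_lit 3166),
   .der (nat_lit 8) (nat_lit 3239),
   .der (nat_lit 8) (nat_lit 4002),
   .der (nat_lit 8) (nat_lit 4585),
   .der (nat_lit 8) (nat_lit 5801),
   .der (nat_lit 8) (nat_lit 5811),
   .der (nat_lit 8) (nat_lit 6185),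
   .der (nat_lit 8) (nat_lit 6817),
   .der (nat_lit 8) (nat_lit 6823),
   .der (nat_lit 8) (nat_lit 7453),
   .der (nat_lit 8) (nat_lit 7464),
   .der (nat_lit 8) (nat_lit 7474),
   .der (nat_lit 8) (nat_lit 7588),
   .der (nat_lit 8) (nat_lit 8488),
   .der (nat_lit 8) (nat_lit 8576),
   .der (nat_lit 8) (nat_lit 8991),
   .der (nat_lit 8) (nat_lit 9844),
   .der (nat_lit 9) (nat_lit 1431),
   .der (nat_lit 9) (nat_lit 5584),
   .der (nat_lit 9) (nat_lit 5840),
   .der (nat_lit 9) (nat_lit 9303),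
   .der (nat_lit 10) (nat_lit 3008),
   .der (nat_lit 10) (nat_lit 3220),
   .der (nat_lit 10) (nat_lit 5100),
   .der (nat_lit 10) (nat_lit 6066),
   .der (nat_lit 10) (nat_lit 8162),
   .der (nat_lit 10) (nat_lit 8968),
   .der (nat_lit 10) (nat_lit 9244),
   .der (nat_lit 10) (nat_lit 9249),
   .der (nat_lit 18) (nat_lit 1406),
   .der (nat_lit 18) (nat_lit 1438),
   .der (nat_lit 18) (nat_lit 2203),
   .der (nat_lit 18) (nat_lit 2369),
   .der (nat_lit 18) (nat_lit 3138),
   .der (nat_lit 18) (nat_lit 6830),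
   .der (nat_lit 18) (nat_lit 7588),
   .der (nat_lit 18) (nat_lit 8813),
   .der (nat_lit 18) (nat_lit 8817),
   .der (nat_lit 19) (nat_lit 827),
   .der (nat_lit 19) (nat_lit 1550),
   .der (nat_lit 19) (nat_lit 5039),
   .der (nat_lit 19) (nat_lit 5087),
   .der (nat_lit 19) (nat_lit 5100),
   .der (nat_lit 19) (nat_lit 5801),
   .der (nat_lit 19) (nat_lit 7453),
   .der (nat_lit 19) (nat_lit 7588),
   .der (nat_lit 19) (nat_lit 8130),
   .der (nat_lit 33) (nat_lit 2205),
   .der (nat_lit 33) (nat_lit 3122),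
   .der (nat_lit 33) (nat_lit 3132),
   .der (nat_lit 33) (nat_lit 4010),
   .der (nat_lit 33) (nat_lit 4048),
   .der (nat_lit 33) (nat_lit 5293),
   .der (nat_lit 33) (nat_lit 5811),
   .der (nat_lit 33) (nat_lit 6251),
   .der (nat_lit 33) (nat_lit 6963),
   .der (nat_lit 33) (nat_lit 8122),
   .der (nat_lit 33) (nat_lit 8143),
   .der (nat_lit 33) (nat_lit 9354),
   .der (nat_lit 33) (nat_lit 9769),
   .der (nat_lit 35) (nat_lit 2183),
   .der (nat_lit 35) (nat_lit 3122),
   .der (nat_lit 35) (nat_lit 3490),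
   .der (nat_lit 35) (nat_lit 4111),
   .der (nat_lit 35) (nat_lit 5801),
   .der (nat_lit 35) (nat_lit 9354),
   .der (nat_lit 36) (nat_lit 5801),
   .der (nat_lit 49) (nat_lit 1534),
   .der (nat_lit 49) (nat_lit 2205),
   .der (nat_lit 49) (nat_lit 3483),
   .der (nat_lit 49) (nat_lit 6855),
   .der (nat_lit 50) (nat_lit 861),
   .der (nat_lit 50) (nat_lit 1534),
   .der (nat_lit 50) (nat_lit 2543),
   .der (nat_lit 50) (nat_lit 4094),
   .der (nat_lit 50) (nat_lit 8122),
   .der (nat_lit 65) (nat_lit 1139),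
   .der (nat_lit 65) (nat_lit 4641),
   .der (nat_lit 65) (nat_lit 5998),
   .der (nat_lit 65) (nat_lit 6551),
   .der (nat_lit 66) (nat_lit 2203),
   .der (nat_lit 66) (nat_lit 2472),
   .der (nat_lit 66) (nat_lit 6537),
   .der (nat_lit 66) (nat_lit 7969),
   .der (nat_lit 67) (nat_lit 2667),
   .der (nat_lit 83) (nat_lit 5079),
   .der (nat_lit 83) (nat_lit 9354),
   .der (nat_lit 84) (nat_lit 1073),
   .der (nat_lit 86) (nat_lit 392),
   .der (nat_lit 86) (nat_lit 1381),
   .der (nat_lit 86) (nat_lit 3308),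
   .der (nat_lit 86) (nat_lit 3985),
   .der (nat_lit 86) (nat_lit 6054),
   .der (nat_lit 86) (nat_lit 7575),
   .der (nat_lit 86) (nat_lit 8122),
   .der (nat_lit 86) (nat_lit 8143),
   .der (nat_lit 87) (nat_lit 469),
   .der (nat_lit 87) (nat_lit 3138),
   .der (nat_lit 98) (nat_lit 74),
   .der (nat_lit 98) (nat_lit 1456),
   .der (nat_lit 98) (nat_lit 2171),
   .der (nat_lit 98) (nat_lit 2210),
   .der (nat_lit 98) (nat_lit 3270),
   .der (nat_lit 98) (nat_lit 4585),
   .der (nat_lit 98) (nat_lit 9354),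
   .der (nat_lit 101) (nat_lit 1400),
   .der (nat_lit 101) (nat_lit 1428),
   .der (nat_lit 101) (nat_lit 1557),
   .der (nat_lit 101) (nat_lit 3229),
   .der (nat_lit 101) (nat_lit 3245),
   .der (nat_lit 101) (nat_lit 4005),
   .der (nat_lit 101) (nat_lit 5811),
   .der (nat_lit 101) (nat_lit 6600),
   .der (nat_lit 101) (nat_lit 7464),
   .der (nat_lit 101) (nat_lit 8122),
   .der (nat_lit 103) (nat_lit 9197),
   .der (nat_lit 114) (nat_lit 3477),
   .der (nat_lit 118) (nat_lit 2332),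
   .der (nat_lit 118) (nat_lit 8968),
   .der (nat_lit 129) (nat_lit 417),
   .der (nat_lit 129) (nat_lit 1428),
   .der (nat_lit 129) (nat_lit 1557),
   .der (nat_lit 129) (nat_lit 2554),
   .der (nat_lit 129) (nat_lit 3124),
   .der (nat_lit 129) (nat_lit 4020),
   .der (nat_lit 129) (nat_lit 5039),
   .der (nat_lit 129) (nat_lit 7466),
   .der (nat_lit 129) (nat_lit 8571),
   .der (nat_lit 129) (nat_lit 9607),
   .der (nat_lit 132) (nat_lit 5059),
   .der (nat_lit 135) (nat_lit 6830),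
   .der (nat_lit 137) (nat_lit 892),
   .der (nat_lit 137) (nat_lit 1412),
   .der (nat_lit 137) (nat_lit 2472),
   .der (nat_lit 137) (nat_lit 6303),
   .der (nat_lit 137) (nat_lit 9303),
   .der (nat_lit 147) (nat_lit 3999),
   .der (nat_lit 147) (nat_lit 5827),
   .der (nat_lit 150) (nat_lit 2819),
   .der (nat_lit 150) (nat_lit 4236),
   .der (nat_lit 152) (nat_lit 3008),
   .der (nat_lit 152) (nat_lit 5100),
   .der (nat_lit 152) (nat_lit 8627),
   .der (nat_lit 152) (nat_lit 8968),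
   .der (nat_lit 152) (nat_lit 9249),
   .der (nat_lit 161) (nat_lit 5167),
   .der (nat_lit 161) (nat_lit 6292),
   .der (nat_lit 161) (nat_lit 8120),
   .der (nat_lit 161) (nat_lit 8134),
   .der (nat_lit 161) (nat_lit 8627),
   .der (nat_lit 161) (nat_lit 9249),
   .der (nat_lit 162) (nat_lit 3579),
   .der (nat_lit 165) (nat_lit 2606),
   .der (nat_lit 165) (nat_lit 2999),
   .der (nat_lit 165) (nat_lit 6292),
   .der (nat_lit 165) (nat_lit 7056),
   .der (nat_lit 339) (nat_lit 1392),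
   .der (nat_lit 339) (nat_lit 2171),
   .der (nat_lit 339) (nat_lit 3122),
   .der (nat_lit 339) (nat_lit 5074),
   .der (nat_lit 354) (nat_lit 1579),
   .der (nat_lit 354) (nat_lit 2180),
   .der (nat_lit 354) (nat_lit 2205),
   .der (nat_lit 354) (nat_lit 9354),
   .der (nat_lit 371) (nat_lit 580),
   .der (nat_lit 371) (nat_lit 1078),
   .der (nat_lit 561) (nat_lit 1400),
   .der (nat_lit 561) (nat_lit 2192),
   .der (nat_lit 561) (nat_lit 3122),
   .der (nat_lit 561) (nat_lit 3454),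
   .der (nat_lit 561) (nat_lit 3985),
   .der (nat_lit 561) (nat_lit 4010),
   .der (nat_lit 561) (nat_lit 4043),
   .der (nat_lit 561) (nat_lit 6963),
   .der (nat_lit 561) (nat_lit 8122),
   .der (nat_lit 577) (nat_lit 1453),
   .der (nat_lit 577) (nat_lit 7628),
   .der (nat_lit 612) (nat_lit 906),
   .der (nat_lit 612) (nat_lit 5883),
   .der (nat_lit 644) (nat_lit 4092),
   .der (nat_lit 644) (nat_lit 5059),
   .der (nat_lit 659) (nat_lit 1421),
   .der (nat_lit 801) (nat_lit 967),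
   .der (nat_lit 801) (nat_lit 1453),
   .der (nat_lit 801) (nat_lit 2249),
   .der (nat_lit 801) (nat_lit 2543),
   .der (nat_lit 801) (nat_lit 2578),
   .der (nat_lit 801) (nat_lit 4043),
   .der (nat_lit 801) (nat_lit 4254),
   .der (nat_lit 801) (nat_lit 8558),
   .der (nat_lit 833) (nat_lit 2186),
   .der (nat_lit 833) (nat_lit 2317),
   .der (nat_lit 833) (nat_lit 8120),
   .der (nat_lit 834) (nat_lit 2197),
   .der (nat_lit 834) (nat_lit 3144),
   .der (nat_lit 834) (nat_lit 3190),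
   .der (nat_lit 834) (nat_lit 3778),
   .der (nat_lit 834) (nat_lit 5119),
   .der (nat_lit 834) (nat_lit 8806),
   .der (nat_lit 882) (nat_lit 6366),
   .der (nat_lit 1057) (nat_lit 1400),
   .der (nat_lit 1057) (nat_lit 2197),
   .der (nat_lit 1057) (nat_lit 3141),
   .der (nat_lit 1057) (nat_lit 5818),
   .der (nat_lit 1057) (nat_lit 5840),
   .der (nat_lit 1073) (nat_lit 855),
   .der (nat_lit 1073) (nat_lit 1491),
   .der (nat_lit 1073) (nat_lit 2332),
   .der (nat_lit 1073) (nat_lit 4170),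
   .der (nat_lit 1074) (nat_lit 1533),
   .der (nat_lit 1074) (nat_lit 8304),
   .der (nat_lit 1107) (nat_lit 492),
   .der (nat_lit 1122) (nat_lit 1584),
   .der (nat_lit 1122) (nat_lit 2220),
   .der (nat_lit 1122) (nat_lit 2472),
   .der (nat_lit 1299) (nat_lit 843),
   .der (nat_lit 1299) (nat_lit 2183),
   .der (nat_lit 1299) (nat_lit 2320),
   .der (nat_lit 1299) (nat_lit 3122),
   .der (nat_lit 1299) (nat_lit 3138),
   .der (nat_lit 1299) (nat_lit 3236),
   .der (nat_lit 1299) (nat_lit 4035),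
   .der (nat_lit 1299) (nat_lit 5039),
   .der (nat_lit 1299) (nat_lit 5801),
   .der (nat_lit 1299) (nat_lit 7588),
   .der (nat_lit 1299) (nat_lit 8122),
   .der (nat_lit 1299) (nat_lit 9354),
   .der (nat_lit 1300) (nat_lit 4242),
   .der (nat_lit 1300) (nat_lit 5067),
   .der (nat_lit 1395) (nat_lit 2317),
   .der (nat_lit 1395) (nat_lit 2786),
   .der (nat_lit 1554) (nat_lit 2578),
   .der (nat_lit 1554) (nat_lit 4002),
   .der (nat_lit 1554) (nat_lit 5039),
   .der (nat_lit 1554) (nat_lit 5801),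
   .der (nat_lit 1554) (nat_lit 7464),
   .der (nat_lit 1554) (nat_lit 8130),
   .der (nat_lit 1554) (nat_lit 8143),
   .der (nat_lit 1554) (nat_lit 9354),
   .der (nat_lit 1554) (nat_lit 9844),
   .der (nat_lit 1556) (nat_lit 894),
   .der (nat_lit 1556) (nat_lit 5438),
   .der (nat_lit 1556) (nat_lit 6344),
   .der (nat_lit 1620) (nat_lit 187),
   .der (nat_lit 1620) (nat_lit 2249),
   .der (nat_lit 1620) (nat_lit 7469),
   .der (nat_lit 1650) (nat_lit 2186),
   .der (nat_lit 1650) (nat_lit 2472),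
   .der (nat_lit 1650) (nat_lit 6982),
   .der (nat_lit 1653) (nat_lit 4777),
   .der (nat_lit 1653) (nat_lit 6314),
   .der (nat_lit 1810) (nat_lit 2472),
   .der (nat_lit 1810) (nat_lit 3477),
   .der (nat_lit 1890) (nat_lit 2332),
   .der (nat_lit 1890) (nat_lit 6292),
   .der (nat_lit 1893) (nat_lit 4002),
   .der (nat_lit 1893) (nat_lit 4236),
   .der (nat_lit 1893) (nat_lit 9039),
   .der (nat_lit 1893) (nat_lit 9625),
   .der (nat_lit 2068) (nat_lit 5801),
   .der (nat_lit 2068) (nat_lit 6823),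
   .der (nat_lit 2084) (nat_lit 6860),
   .der (nat_lit 2113) (nat_lit 2264),
   .der (nat_lit 2113) (nat_lit 8130),
   .der (nat_lit 2135) (nat_lit 9693),
   .der (nat_lit 2193) (nat_lit 2227),
   .der (nat_lit 2193) (nat_lit 2472),
   .der (nat_lit 2193) (nat_lit 2574),
   .der (nat_lit 2193) (nat_lit 3999),
   .der (nat_lit 2323) (nat_lit 2186),
   .der (nat_lit 2323) (nat_lit 2472),
   .der (nat_lit 2323) (nat_lit 9689),
   .der (nat_lit 2339) (nat_lit 4061),
   .der (nat_lit 2339) (nat_lit 9636),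
   .der (nat_lit 2353) (nat_lit 4819)]

theorem b5_step36 (h : ∀ j < 18000, Good b5T j) : ∀ j < 18500, Good b5T j := by
  intro j hj
  refine chkL_ok b5C36 18000 h (by decide +kernel) j ?_
  have h : b5C36.length = 500 := by decide +kernel
  omega

/-- certificates 18500..19000 -/
def b5C37 : List Cf :=
  [.der (nat_lit 2353) (nat_lit 4872),
   .der (nat_lit 2390) (nat_lit 3194),
   .der (nat_lit 2390) (nat_lit 8968),
   .der (nat_lit 2390) (nat_lit 9244),
   .der (nat_lit 2433) (nat_lit 3132),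
   .der (nat_lit 2433) (nat_lit 4002),
   .der (nat_lit 2433) (nat_lit 6422),
   .der (nat_lit 2433) (nat_lit 8968),
   .der (nat_lit 2433) (nat_lit 9249),
   .der (nat_lit 2578) (nat_lit 2369),
   .der (nat_lit 2578) (nat_lit 6292),
   .der (nat_lit 2593) (nat_lit 6292),
   .der (nat_lit 2593) (nat_lit 6378),
   .der (nat_lit 5218) (nat_lit 1651),
   .der (nat_lit 5218) (nat_lit 6424),
   .der (nat_lit 9572) (nat_lit 2913),
   .der (nat_lit 9572) (nat_lit 5883),
   .der (nat_lit 9572) (nat_lit 8968),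
   .der (nat_lit 9587) (nat_lit 4641),
   .der (nat_lit 9587) (nat_lit 9823),
   .der (nat_lit 10545) (nat_lit 2472),
   .der (nat_lit 10545) (nat_lit 4390),
   .der (nat_lit 10545) (nat_lit 5216),
   .der (nat_lit 10545) (nat_lit 6237),
   .der (nat_lit 12658) (nat_lit 2317),
   .der (nat_lit 12658) (nat_lit 2360),
   .der (nat_lit 13345) (nat_lit 1408),
   .der (nat_lit 13345) (nat_lit 3190),
   .der (nat_lit 13345) (nat_lit 4777),
   .der (nat_lit 13345) (nat_lit 4819),
   .der (nat_lit 13345) (nat_lit 4872),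
   .der (nat_lit 13345) (nat_lit 6860),
   .der (nat_lit 13345) (nat_lit 7056),
   .der (nat_lit 13345) (nat_lit 7545),
   .der (nat_lit 13345) (nat_lit 7579),
   .der (nat_lit 16738) (nat_lit 1475),
   .der (nat_lit 16738) (nat_lit 2332),
   .der (nat_lit 16738) (nat_lit 4061),
   .der (nat_lit 16738) (nat_lit 4321),
   .der (nat_lit 17185) (nat_lit 773),
   .der (nat_lit 17185) (nat_lit 1491),
   .der (nat_lit 21107) (nat_lit 2317),
   .der (nat_lit 21107) (nat_lit 2841),
   .der (nat_lit 21107) (nat_lit 3699),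
   .der (nat_lit 24916) (nat_lit 2192),
   .der (nat_lit 24916) (nat_lit 4005),
   .der (nat_lit 24916) (nat_lit 5883),
   .der (nat_lit 26386) (nat_lit 2472),
   .der (nat_lit 26386) (nat_lit 3999),
   .der (nat_lit 26386) (nat_lit 5837),
   .der (nat_lit 29011) (nat_lit 9636),
   .der (nat_lit 30226) (nat_lit 1922),
   .der (nat_lit 30226) (nat_lit 3152),
   .der (nat_lit 33345) (nat_lit 2183),
   .der (nat_lit 33345) (nat_lit 3118),
   .der (nat_lit 33345) (nat_lit 6860),
   .der (nat_lit 34068) (nat_lit 1073),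
   .der (nat_lit 34068) (nat_lit 9693),
   .der (nat_lit 37425) (nat_lit 1482),
   .der (nat_lit 37425) (nat_lit 2507),
   .der (nat_lit 38163) (nat_lit 2317),
   .der (nat_lit 38163) (nat_lit 3008),
   .der (nat_lit 38163) (nat_lit 9636),
   .der (nat_lit 1) (nat_lit 1557),
   .der (nat_lit 1) (nat_lit 3138),
   .der (nat_lit 1) (nat_lit 5277),
   .der (nat_lit 1) (nat_lit 5801),
   .der (nat_lit 1) (nat_lit 5811),
   .der (nat_lit 1) (nat_lit 6034),
   .der (nat_lit 1) (nat_lit 6811),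
   .der (nat_lit 1) (nat_lit 7466),
   .der (nat_lit 1) (nat_lit 7771),
   .der (nat_lit 1) (nat_lit 9390),
   .der (nat_lit 1) (nat_lit 9720),
   .der (nat_lit 2) (nat_lit 70),
   .der (nat_lit 2) (nat_lit 2197),
   .der (nat_lit 2) (nat_lit 3138),
   .der (nat_lit 2) (nat_lit 3579),
   .der (nat_lit 2) (nat_lit 3985),
   .der (nat_lit 2) (nat_lit 5052),
   .der (nat_lit 2) (nat_lit 7505),
   .der (nat_lit 2) (nat_lit 8598),
   .der (nat_lit 3) (nat_lit 1550),
   .der (nat_lit 3) (nat_lit 2307),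
   .der (nat_lit 3) (nat_lit 7505),
   .der (nat_lit 3) (nat_lit 9684),
   .der (nat_lit 4) (nat_lit 3133),
   .der (nat_lit 4) (nat_lit 4840),
   .der (nat_lit 5) (nat_lit 421),
   .der (nat_lit 5) (nat_lit 1406),
   .der (nat_lit 5) (nat_lit 2548),
   .der (nat_lit 5) (nat_lit 3229),
   .der (nat_lit 5) (nat_lit 4045),
   .der (nat_lit 5) (nat_lit 4048),
   .der (nat_lit 5) (nat_lit 4684),
   .der (nat_lit 5) (nat_lit 6054),
   .der (nat_lit 5) (nat_lit 6876),
   .der (nat_lit 5) (nat_lit 6963),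
   .der (nat_lit 5) (nat_lit 7469),
   .der (nat_lit 5) (nat_lit 7505),
   .der (nat_lit 5) (nat_lit 8576),
   .der (nat_lit 6) (nat_lit 864),
   .der (nat_lit 6) (nat_lit 1546),
   .der (nat_lit 6) (nat_lit 2578),
   .der (nat_lit 6) (nat_lit 6237),
   .der (nat_lit 6) (nat_lit 7469),
   .der (nat_lit 6) (nat_lit 8143),
   .der (nat_lit 7) (nat_lit 3138),
   .der (nat_lit 7) (nat_lit 3626),
   .der (nat_lit 8) (nat_lit 421),
   .der (nat_lit 8) (nat_lit 824),
   .der (nat_lit 8) (nat_lit 1400),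
   .der (nat_lit 8) (nat_lit 1546),
   .der (nat_lit 8) (nat_lit 3122),
   .der (nat_lit 8) (nat_lit 5046),
   .der (nat_lit 8) (nat_lit 7469),
   .der (nat_lit 8) (nat_lit 8558),
   .der (nat_lit 8) (nat_lit 9032),
   .der (nat_lit 8) (nat_lit 9056),
   .der (nat_lit 9) (nat_lit 1415),
   .der (nat_lit 9) (nat_lit 3144),
   .der (nat_lit 9) (nat_lit 4353),
   .der (nat_lit 10) (nat_lit 829),
   .der (nat_lit 10) (nat_lit 3120),
   .der (nat_lit 10) (nat_lit 5045),
   .der (nat_lit 10) (nat_lit 5800),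
   .der (nat_lit 10) (nat_lit 6303),
   .der (nat_lit 10) (nat_lit 6344),
   .der (nat_lit 10) (nat_lit 6863),
   .der (nat_lit 10) (nat_lit 7339),
   .der (nat_lit 10) (nat_lit 7456),
   .der (nat_lit 10) (nat_lit 8536),
   .der (nat_lit 10) (nat_lit 8627),
   .der (nat_lit 10) (nat_lit 8749),
   .der (nat_lit 10) (nat_lit 8936),
   .der (nat_lit 10) (nat_lit 9636),
   .der (nat_lit 10) (nat_lit 9783),
   .der (nat_lit 18) (nat_lit 843),
   .der (nat_lit 18) (nat_lit 1557),
   .der (nat_lit 18) (nat_lit 2183),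
   .der (nat_lit 18) (nat_lit 5801),
   .der (nat_lit 18) (nat_lit 7466),
   .der (nat_lit 18) (nat_lit 7505),
   .der (nat_lit 18) (nat_lit 7771),
   .der (nat_lit 19) (nat_lit 2560),
   .der (nat_lit 19) (nat_lit 3236),
   .der (nat_lit 19) (nat_lit 8143),
   .der (nat_lit 20) (nat_lit 2429),
   .der (nat_lit 33) (nat_lit 909),
   .der (nat_lit 33) (nat_lit 1412),
   .der (nat_lit 33) (nat_lit 2227),
   .der (nat_lit 33) (nat_lit 3188),
   .der (nat_lit 33) (nat_lit 3229),
   .der (nat_lit 33) (nat_lit 4032),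
   .der (nat_lit 33) (nat_lit 5059),
   .der (nat_lit 33) (nat_lit 5850),
   .der (nat_lit 33) (nat_lit 7453),
   .der (nat_lit 33) (nat_lit 8598),
   .der (nat_lit 33) (nat_lit 8729),
   .der (nat_lit 33) (nat_lit 9287),
   .der (nat_lit 33) (nat_lit 9607),
   .der (nat_lit 35) (nat_lit 3200),
   .der (nat_lit 35) (nat_lit 5052),
   .der (nat_lit 35) (nat_lit 7453),
   .der (nat_lit 35) (nat_lit 9287),
   .der (nat_lit 36) (nat_lit 3431),
   .der (nat_lit 36) (nat_lit 5084),
   .der (nat_lit 36) (nat_lit 5171),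
   .der (nat_lit 36) (nat_lit 9321),
   .der (nat_lit 49) (nat_lit 1419),
   .der (nat_lit 49) (nat_lit 1557),
   .der (nat_lit 49) (nat_lit 2380),
   .der (nat_lit 49) (nat_lit 2673),
   .der (nat_lit 50) (nat_lit 824),
   .der (nat_lit 50) (nat_lit 889),
   .der (nat_lit 50) (nat_lit 1392),
   .der (nat_lit 50) (nat_lit 2307),
   .der (nat_lit 50) (nat_lit 2320),
   .der (nat_lit 50) (nat_lit 2578),
   .der (nat_lit 50) (nat_lit 2926),
   .der (nat_lit 50) (nat_lit 4379),
   .der (nat_lit 50) (nat_lit 5039),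
   .der (nat_lit 50) (nat_lit 7466),
   .der (nat_lit 50) (nat_lit 7505),
   .der (nat_lit 50) (nat_lit 8488),
   .der (nat_lit 52) (nat_lit 5883),
   .der (nat_lit 65) (nat_lit 2186),
   .der (nat_lit 65) (nat_lit 3626),
   .der (nat_lit 66) (nat_lit 2197),
   .der (nat_lit 67) (nat_lit 2176),
   .der (nat_lit 67) (nat_lit 3245),
   .der (nat_lit 67) (nat_lit 4111),
   .der (nat_lit 67) (nat_lit 5917),
   .der (nat_lit 83) (nat_lit 3122),
   .der (nat_lit 83) (nat_lit 5811),
   .der (nat_lit 84) (nat_lit 6917),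
   .der (nat_lit 86) (nat_lit 435),
   .der (nat_lit 86) (nat_lit 898),
   .der (nat_lit 86) (nat_lit 2183),
   .der (nat_lit 86) (nat_lit 2227),
   .der (nat_lit 86) (nat_lit 5811),
   .der (nat_lit 86) (nat_lit 6963),
   .der (nat_lit 86) (nat_lit 7505),
   .der (nat_lit 87) (nat_lit 981),
   .der (nat_lit 87) (nat_lit 2247),
   .der (nat_lit 87) (nat_lit 2305),
   .der (nat_lit 98) (nat_lit 405),
   .der (nat_lit 98) (nat_lit 843),
   .der (nat_lit 98) (nat_lit 1469),
   .der (nat_lit 98) (nat_lit 3200),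
   .der (nat_lit 98) (nat_lit 7447),
   .der (nat_lit 98) (nat_lit 9287),
   .der (nat_lit 100) (nat_lit 1448),
   .der (nat_lit 101) (nat_lit 829),
   .der (nat_lit 101) (nat_lit 1534),
   .der (nat_lit 101) (nat_lit 2249),
   .der (nat_lit 101) (nat_lit 2578),
   .der (nat_lit 101) (nat_lit 6237),
   .der (nat_lit 101) (nat_lit 7866),
   .der (nat_lit 103) (nat_lit 5800),
   .der (nat_lit 103) (nat_lit 7360),
   .der (nat_lit 103) (nat_lit 7456),
   .der (nat_lit 103) (nat_lit 8120),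
   .der (nat_lit 103) (nat_lit 9127),
   .der (nat_lit 115) (nat_lit 7299),
   .der (nat_lit 117) (nat_lit 3144),
   .der (nat_lit 117) (nat_lit 3766),
   .der (nat_lit 117) (nat_lit 5095),
   .der (nat_lit 118) (nat_lit 873),
   .der (nat_lit 118) (nat_lit 2560),
   .der (nat_lit 118) (nat_lit 2764),
   .der (nat_lit 118) (nat_lit 3308),
   .der (nat_lit 118) (nat_lit 9244),
   .der (nat_lit 129) (nat_lit 824),
   .der (nat_lit 129) (nat_lit 923),
   .der (nat_lit 129) (nat_lit 2249),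
   .der (nat_lit 129) (nat_lit 2578),
   .der (nat_lit 129) (nat_lit 5811),
   .der (nat_lit 129) (nat_lit 6823),
   .der (nat_lit 129) (nat_lit 8143),
   .der (nat_lit 132) (nat_lit 1514),
   .der (nat_lit 132) (nat_lit 3133),
   .der (nat_lit 137) (nat_lit 3133),
   .der (nat_lit 137) (nat_lit 5045),
   .der (nat_lit 137) (nat_lit 9689),
   .der (nat_lit 145) (nat_lit 521),
   .der (nat_lit 145) (nat_lit 1647),
   .der (nat_lit 145) (nat_lit 5050),
   .der (nat_lit 145) (nat_lit 5840),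
   .der (nat_lit 145) (nat_lit 7771),
   .der (nat_lit 145) (nat_lit 8653),
   .der (nat_lit 145) (nat_lit 8662),
   .der (nat_lit 147) (nat_lit 2412),
   .der (nat_lit 147) (nat_lit 5070),
   .der (nat_lit 147) (nat_lit 6072),
   .der (nat_lit 150) (nat_lit 3133),
   .der (nat_lit 150) (nat_lit 4687),
   .der (nat_lit 152) (nat_lit 829),
   .der (nat_lit 152) (nat_lit 1444),
   .der (nat_lit 152) (nat_lit 2176),
   .der (nat_lit 152) (nat_lit 5250),
   .der (nat_lit 152) (nat_lit 8749),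
   .der (nat_lit 152) (nat_lit 8936),
   .der (nat_lit 161) (nat_lit 2201),
   .der (nat_lit 161) (nat_lit 3008),
   .der (nat_lit 161) (nat_lit 3988),
   .der (nat_lit 161) (nat_lit 4039),
   .der (nat_lit 161) (nat_lit 4353),
   .der (nat_lit 161) (nat_lit 6060),
   .der (nat_lit 161) (nat_lit 6344),
   .der (nat_lit 161) (nat_lit 8637),
   .der (nat_lit 162) (nat_lit 881),
   .der (nat_lit 162) (nat_lit 3158),
   .der (nat_lit 162) (nat_lit 4242),
   .der (nat_lit 162) (nat_lit 7542),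
   .der (nat_lit 162) (nat_lit 9249),
   .der (nat_lit 165) (nat_lit 881),
   .der (nat_lit 165) (nat_lit 1575),
   .der (nat_lit 165) (nat_lit 2339),
   .der (nat_lit 165) (nat_lit 8521),
   .der (nat_lit 339) (nat_lit 3988),
   .der (nat_lit 339) (nat_lit 9287),
   .der (nat_lit 354) (nat_lit 1033),
   .der (nat_lit 354) (nat_lit 3122),
   .der (nat_lit 354) (nat_lit 4555),
   .der (nat_lit 354) (nat_lit 5079),
   .der (nat_lit 354) (nat_lit 5947),
   .der (nat_lit 354) (nat_lit 7505),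
   .der (nat_lit 356) (nat_lit 967),
   .der (nat_lit 356) (nat_lit 2380),
   .der (nat_lit 356) (nat_lit 8407),
   .der (nat_lit 561) (nat_lit 1456),
   .der (nat_lit 561) (nat_lit 1647),
   .der (nat_lit 561) (nat_lit 4111),
   .der (nat_lit 561) (nat_lit 5811),
   .der (nat_lit 561) (nat_lit 7447),
   .der (nat_lit 561) (nat_lit 9287),
   .der (nat_lit 561) (nat_lit 9607),
   .der (nat_lit 577) (nat_lit 1446),
   .der (nat_lit 577) (nat_lit 8598),
   .der (nat_lit 612) (nat_lit 5624),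
   .der (nat_lit 644) (nat_lit 3126),
   .der (nat_lit 659) (nat_lit 2197),
   .der (nat_lit 801) (nat_lit 827),
   .der (nat_lit 801) (nat_lit 1557),
   .der (nat_lit 801) (nat_lit 2264),
   .der (nat_lit 801) (nat_lit 2464),
   .der (nat_lit 801) (nat_lit 4005),
   .der (nat_lit 801) (nat_lit 4071),
   .der (nat_lit 801) (nat_lit 6359),
   .der (nat_lit 801) (nat_lit 8576),
   .der (nat_lit 801) (nat_lit 8957),
   .der (nat_lit 801) (nat_lit 9032),
   .der (nat_lit 801) (nat_lit 9684),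
   .der (nat_lit 834) (nat_lit 1647),
   .der (nat_lit 834) (nat_lit 2412),
   .der (nat_lit 834) (nat_lit 4379),
   .der (nat_lit 834) (nat_lit 6096),
   .der (nat_lit 834) (nat_lit 6615),
   .der (nat_lit 852) (nat_lit 2192),
   .der (nat_lit 852) (nat_lit 6469),
   .der (nat_lit 882) (nat_lit 4020),
   .der (nat_lit 882) (nat_lit 4071),
   .der (nat_lit 882) (nat_lit 5823),
   .der (nat_lit 1057) (nat_lit 469),
   .der (nat_lit 1057) (nat_lit 1408),
   .der (nat_lit 1057) (nat_lit 2291),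
   .der (nat_lit 1073) (nat_lit 824),
   .der (nat_lit 1073) (nat_lit 934),
   .der (nat_lit 1073) (nat_lit 936),
   .der (nat_lit 1073) (nat_lit 1664),
   .der (nat_lit 1073) (nat_lit 5954),
   .der (nat_lit 1073) (nat_lit 7785),
   .der (nat_lit 1074) (nat_lit 2450),
   .der (nat_lit 1107) (nat_lit 2257),
   .der (nat_lit 1122) (nat_lit 2944),
   .der (nat_lit 1122) (nat_lit 2950),
   .der (nat_lit 1299) (nat_lit 1076),
   .der (nat_lit 1299) (nat_lit 1412),
   .der (nat_lit 1299) (nat_lit 2210),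
   .der (nat_lit 1299) (nat_lit 3008),
   .der (nat_lit 1299) (nat_lit 5845),
   .der (nat_lit 1299) (nat_lit 7308),
   .der (nat_lit 1299) (nat_lit 8143),
   .der (nat_lit 1300) (nat_lit 2203),
   .der (nat_lit 1300) (nat_lit 5042),
   .der (nat_lit 1300) (nat_lit 8653),
   .der (nat_lit 1380) (nat_lit 1250),
   .der (nat_lit 1395) (nat_lit 5800),
   .der (nat_lit 1415) (nat_lit 1546),
   .der (nat_lit 1430) (nat_lit 967),
   .der (nat_lit 1430) (nat_lit 1408),
   .der (nat_lit 1430) (nat_lit 3229),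
   .der (nat_lit 1554) (nat_lit 837),
   .der (nat_lit 1554) (nat_lit 1533),
   .der (nat_lit 1554) (nat_lit 1534),
   .der (nat_lit 1554) (nat_lit 7466),
   .der (nat_lit 1554) (nat_lit 7588),
   .der (nat_lit 1554) (nat_lit 9607),
   .der (nat_lit 1556) (nat_lit 4242),
   .der (nat_lit 1650) (nat_lit 1421),
   .der (nat_lit 1650) (nat_lit 1446),
   .der (nat_lit 1653) (nat_lit 1052),
   .der (nat_lit 1653) (nat_lit 4872),
   .der (nat_lit 1653) (nat_lit 5800),
   .der (nat_lit 1653) (nat_lit 6876),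
   .der (nat_lit 1653) (nat_lit 9303),
   .der (nat_lit 1810) (nat_lit 1569),
   .der (nat_lit 1810) (nat_lit 2291),
   .der (nat_lit 1811) (nat_lit 5227),
   .der (nat_lit 1875) (nat_lit 1392),
   .der (nat_lit 1875) (nat_lit 2838),
   .der (nat_lit 1875) (nat_lit 3164),
   .der (nat_lit 1875) (nat_lit 6072),
   .der (nat_lit 1875) (nat_lit 8139),
   .der (nat_lit 1893) (nat_lit 881),
   .der (nat_lit 1893) (nat_lit 1491),
   .der (nat_lit 1893) (nat_lit 2238),
   .der (nat_lit 1893) (nat_lit 2676),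
   .der (nat_lit 1893) (nat_lit 4734),
   .der (nat_lit 1893) (nat_lit 5167),
   .der (nat_lit 1893) (nat_lit 9783),
   .der (nat_lit 2068) (nat_lit 2429),
   .der (nat_lit 2084) (nat_lit 3133),
   .der (nat_lit 2084) (nat_lit 3190),
   .der (nat_lit 2084) (nat_lit 5883),
   .der (nat_lit 2084) (nat_lit 7542),
   .der (nat_lit 2084) (nat_lit 9277),
   .der (nat_lit 2084) (nat_lit 9704),
   .der (nat_lit 2113) (nat_lit 3166),
   .der (nat_lit 2135) (nat_lit 2363),
   .der (nat_lit 2135) (nat_lit 5953),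
   .der (nat_lit 2135) (nat_lit 8491),
   .der (nat_lit 2135) (nat_lit 9890),
   .der (nat_lit 2193) (nat_lit 469),
   .der (nat_lit 2193) (nat_lit 6303),
   .der (nat_lit 2193) (nat_lit 8963),
   .der (nat_lit 2193) (nat_lit 8995),
   .der (nat_lit 2193) (nat_lit 9296),
   .der (nat_lit 2323) (nat_lit 2554),
   .der (nat_lit 2339) (nat_lit 881),
   .der (nat_lit 2339) (nat_lit 2201),
   .der (nat_lit 2339) (nat_lit 5087),
   .der (nat_lit 2339) (nat_lit 5827),
   .der (nat_lit 2339) (nat_lit 8936),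
   .der (nat_lit 2353) (nat_lit 3144),
   .der (nat_lit 2390) (nat_lit 6292),
   .der (nat_lit 2390) (nat_lit 9636),
   .der (nat_lit 2433) (nat_lit 1041),
   .der (nat_lit 2433) (nat_lit 3443),
   .der (nat_lit 2433) (nat_lit 3988),
   .der (nat_lit 2433) (nat_lit 4039),
   .der (nat_lit 2433) (nat_lit 8217),
   .der (nat_lit 2433) (nat_lit 8627),
   .der (nat_lit 2433) (nat_lit 8637),
   .der (nat_lit 2433) (nat_lit 9244),
   .der (nat_lit 2578) (nat_lit 9522),
   .der (nat_lit 2593) (nat_lit 867),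
   .der (nat_lit 2593) (nat_lit 881),
   .der (nat_lit 2593) (nat_lit 1058),
   .der (nat_lit 2593) (nat_lit 2201),
   .der (nat_lit 2593) (nat_lit 2332),
   .der (nat_lit 2593) (nat_lit 2562),
   .der (nat_lit 2593) (nat_lit 3427),
   .der (nat_lit 2593) (nat_lit 6860),
   .der (nat_lit 2593) (nat_lit 9244),
   .der (nat_lit 4978) (nat_lit 4332),
   .der (nat_lit 4978) (nat_lit 6488),
   .der (nat_lit 5218) (nat_lit 6855),
   .der (nat_lit 5218) (nat_lit 9864),
   .der (nat_lit 5716) (nat_lit 1558),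
   .der (nat_lit 5716) (nat_lit 4005),
   .der (nat_lit 5716) (nat_lit 4035),
   .der (nat_lit 5716) (nat_lit 4641),
   .der (nat_lit 5971) (nat_lit 182),
   .der (nat_lit 5971) (nat_lit 2944),
   .der (nat_lit 5971) (nat_lit 3122),
   .der (nat_lit 9572) (nat_lit 3126),
   .der (nat_lit 10305) (nat_lit 1704),
   .der (nat_lit 10305) (nat_lit 4872),
   .der (nat_lit 10545) (nat_lit 1377),
   .der (nat_lit 10545) (nat_lit 2197),
   .der (nat_lit 10545) (nat_lit 4348),
   .der (nat_lit 12658) (nat_lit 177),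
   .der (nat_lit 12658) (nat_lit 3158),
   .der (nat_lit 12658) (nat_lit 4383),
   .der (nat_lit 12658) (nat_lit 6207),
   .der (nat_lit 12658) (nat_lit 7711),
   .der (nat_lit 13345) (nat_lit 870),
   .der (nat_lit 13345) (nat_lit 2197),
   .der (nat_lit 13345) (nat_lit 3392),
   .der (nat_lit 13345) (nat_lit 4379),
   .der (nat_lit 13345) (nat_lit 6517),
   .der (nat_lit 13345) (nat_lit 8650),
   .der (nat_lit 13345) (nat_lit 9006),
   .der (nat_lit 17185) (nat_lit 834),
   .der (nat_lit 17185) (nat_lit 881),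
   .der (nat_lit 17185) (nat_lit 7785),
   .der (nat_lit 17185) (nat_lit 8316),
   .der (nat_lit 22803) (nat_lit 3144),
   .der (nat_lit 26386) (nat_lit 1647),
   .der (nat_lit 26386) (nat_lit 3778),
   .der (nat_lit 26386) (nat_lit 4365),
   .der (nat_lit 26386) (nat_lit 7490),
   .der (nat_lit 29011) (nat_lit 1819),
   .der (nat_lit 30226) (nat_lit 2689),
   .der (nat_lit 30226) (nat_lit 3196),
   .der (nat_lit 30226) (nat_lit 3676),
   .der (nat_lit 30226) (nat_lit 9244),
   .der (nat_lit 33345) (nat_lit 2186),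
   .der (nat_lit 33345) (nat_lit 9704),
   .der (nat_lit 37425) (nat_lit 873),
   .der (nat_lit 37425) (nat_lit 897),
   .der (nat_lit 37425) (nat_lit 4242),
   .der (nat_lit 37425) (nat_lit 5982),
   .der (nat_lit 37425) (nat_lit 6292),
   .der (nat_lit 1) (nat_lit 524),
   .der (nat_lit 3) (nat_lit 1438),
   .der (nat_lit 4) (nat_lit 2203),
   .der (nat_lit 5) (nat_lit 8598),
   .der (nat_lit 8) (nat_lit 1409),
   .der (nat_lit 8) (nat_lit 3184),
   .der (nat_lit 8) (nat_lit 4758),
   .der (nat_lit 8) (nat_lit 5843),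
   .der (nat_lit 9) (nat_lit 7771),
   .der (nat_lit 10) (nat_lit 7645),
   .der (nat_lit 10) (nat_lit 8134),
   .der (nat_lit 10) (nat_lit 8637),
   .der (nat_lit 18) (nat_lit 8598),
   .der (nat_lit 19) (nat_lit 6359),
   .der (nat_lit 20) (nat_lit 4311),
   .der (nat_lit 33) (nat_lit 1400),
   .der (nat_lit 33) (nat_lit 3141),
   .der (nat_lit 33) (nat_lit 5818),
   .der (nat_lit 33) (nat_lit 6876),
   .der (nat_lit 83) (nat_lit 870),
   .der (nat_lit 87) (nat_lit 8598),
   .der (nat_lit 98) (nat_lit 1033),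
   .der (nat_lit 101) (nat_lit 1788),
   .der (nat_lit 101) (nat_lit 6821)]

theorem b5_step37 (h : ∀ j < 18500, Good b5T j) : ∀ j < 19000, Good b5T j := by
  intro j hj
  refine chkL_ok b5C37 18500 h (by decide +kernel) j ?_
  have h : b5C37.length = 500 := by decide +kernel
  omega

/-- certificates 19000..19219 -/
def b5C38 : List Cf :=
  [.der (nat_lit 103) (nat_lit 4379),
   .der (nat_lit 103) (nat_lit 5949),
   .der (nat_lit 115) (nat_lit 657),
   .der (nat_lit 117) (nat_lit 8280),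
   .der (nat_lit 129) (nat_lit 5843),
   .der (nat_lit 135) (nat_lit 3166),
   .der (nat_lit 135) (nat_lit 6629),
   .der (nat_lit 137) (nat_lit 6344),
   .der (nat_lit 137) (nat_lit 6865),
   .der (nat_lit 137) (nat_lit 8995),
   .der (nat_lit 137) (nat_lit 9296),
   .der (nat_lit 147) (nat_lit 2554),
   .der (nat_lit 152) (nat_lit 8637),
   .der (nat_lit 161) (nat_lit 6303),
   .der (nat_lit 161) (nat_lit 6863),
   .der (nat_lit 161) (nat_lit 8536),
   .der (nat_lit 162) (nat_lit 3169),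
   .der (nat_lit 162) (nat_lit 7518),
   .der (nat_lit 165) (nat_lit 521),
   .der (nat_lit 165) (nat_lit 892),
   .der (nat_lit 165) (nat_lit 2562),
   .der (nat_lit 612) (nat_lit 2503),
   .der (nat_lit 627) (nat_lit 5568),
   .der (nat_lit 644) (nat_lit 3338),
   .der (nat_lit 801) (nat_lit 1633),
   .der (nat_lit 801) (nat_lit 2380),
   .der (nat_lit 801) (nat_lit 7866),
   .der (nat_lit 1300) (nat_lit 4010),
   .der (nat_lit 1300) (nat_lit 9321),
   .der (nat_lit 1395) (nat_lit 2841),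
   .der (nat_lit 1430) (nat_lit 831),
   .der (nat_lit 1430) (nat_lit 4348),
   .der (nat_lit 1556) (nat_lit 5187),
   .der (nat_lit 1653) (nat_lit 3392),
   .der (nat_lit 1653) (nat_lit 8650),
   .der (nat_lit 1811) (nat_lit 4111),
   .der (nat_lit 1875) (nat_lit 4634),
   .der (nat_lit 1890) (nat_lit 923),
   .der (nat_lit 1890) (nat_lit 4618),
   .der (nat_lit 1893) (nat_lit 3506),
   .der (nat_lit 1893) (nat_lit 7785),
   .der (nat_lit 2113) (nat_lit 4002),
   .der (nat_lit 2135) (nat_lit 9321),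
   .der (nat_lit 2135) (nat_lit 9704),
   .der (nat_lit 2193) (nat_lit 2386),
   .der (nat_lit 2353) (nat_lit 3397),
   .der (nat_lit 2390) (nat_lit 2222),
   .der (nat_lit 2578) (nat_lit 192),
   .der (nat_lit 5218) (nat_lit 4634),
   .der (nat_lit 5218) (nat_lit 4663),
   .der (nat_lit 9572) (nat_lit 2926),
   .der (nat_lit 9587) (nat_lit 4423),
   .der (nat_lit 9587) (nat_lit 6541),
   .der (nat_lit 12658) (nat_lit 907),
   .der (nat_lit 13345) (nat_lit 5800),
   .der (nat_lit 16738) (nat_lit 3124),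
   .der (nat_lit 26386) (nat_lit 4555),
   .der (nat_lit 30226) (nat_lit 1453),
   .der (nat_lit 30226) (nat_lit 7821),
   .der (nat_lit 1) (nat_lit 881),
   .der (nat_lit 2) (nat_lit 843),
   .der (nat_lit 2) (nat_lit 2300),
   .der (nat_lit 3) (nat_lit 827),
   .der (nat_lit 3) (nat_lit 1453),
   .der (nat_lit 5) (nat_lit 3126),
   .der (nat_lit 5) (nat_lit 3138),
   .der (nat_lit 5) (nat_lit 5801),
   .der (nat_lit 6) (nat_lit 827),
   .der (nat_lit 6) (nat_lit 881),
   .der (nat_lit 6) (nat_lit 3239),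
   .der (nat_lit 6) (nat_lit 3483),
   .der (nat_lit 7) (nat_lit 4113),
   .der (nat_lit 8) (nat_lit 2176),
   .der (nat_lit 8) (nat_lit 3172),
   .der (nat_lit 8) (nat_lit 4254),
   .der (nat_lit 8) (nat_lit 7466),
   .der (nat_lit 9) (nat_lit 9044),
   .der (nat_lit 10) (nat_lit 8930),
   .der (nat_lit 10) (nat_lit 9791),
   .der (nat_lit 18) (nat_lit 4300),
   .der (nat_lit 18) (nat_lit 7464),
   .der (nat_lit 18) (nat_lit 8143),
   .der (nat_lit 18) (nat_lit 8957),
   .der (nat_lit 19) (nat_lit 1377),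
   .der (nat_lit 19) (nat_lit 4005),
   .der (nat_lit 19) (nat_lit 7571),
   .der (nat_lit 20) (nat_lit 5220),
   .der (nat_lit 33) (nat_lit 474),
   .der (nat_lit 33) (nat_lit 837),
   .der (nat_lit 33) (nat_lit 3126),
   .der (nat_lit 35) (nat_lit 1651),
   .der (nat_lit 49) (nat_lit 1453),
   .der (nat_lit 49) (nat_lit 2307),
   .der (nat_lit 49) (nat_lit 3229),
   .der (nat_lit 49) (nat_lit 5811),
   .der (nat_lit 50) (nat_lit 3483),
   .der (nat_lit 65) (nat_lit 7612),
   .der (nat_lit 67) (nat_lit 9522),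
   .der (nat_lit 83) (nat_lit 7505),
   .der (nat_lit 83) (nat_lit 8122),
   .der (nat_lit 86) (nat_lit 3483),
   .der (nat_lit 98) (nat_lit 3223),
   .der (nat_lit 98) (nat_lit 4113),
   .der (nat_lit 101) (nat_lit 2543),
   .der (nat_lit 101) (nat_lit 3172),
   .der (nat_lit 101) (nat_lit 8576),
   .der (nat_lit 101) (nat_lit 8957),
   .der (nat_lit 103) (nat_lit 4360),
   .der (nat_lit 117) (nat_lit 1408),
   .der (nat_lit 129) (nat_lit 2320),
   .der (nat_lit 129) (nat_lit 3239),
   .der (nat_lit 129) (nat_lit 3245),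
   .der (nat_lit 145) (nat_lit 3144),
   .der (nat_lit 150) (nat_lit 892),
   .der (nat_lit 152) (nat_lit 4895),
   .der (nat_lit 161) (nat_lit 5250),
   .der (nat_lit 161) (nat_lit 9152),
   .der (nat_lit 161) (nat_lit 9791),
   .der (nat_lit 162) (nat_lit 5052),
   .der (nat_lit 162) (nat_lit 6292),
   .der (nat_lit 165) (nat_lit 930),
   .der (nat_lit 165) (nat_lit 8936),
   .der (nat_lit 165) (nat_lit 9942),
   .der (nat_lit 356) (nat_lit 672),
   .der (nat_lit 561) (nat_lit 827),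
   .der (nat_lit 561) (nat_lit 1381),
   .der (nat_lit 561) (nat_lit 1399),
   .der (nat_lit 561) (nat_lit 3245),
   .der (nat_lit 561) (nat_lit 7575),
   .der (nat_lit 561) (nat_lit 9056),
   .der (nat_lit 644) (nat_lit 5883),
   .der (nat_lit 834) (nat_lit 1408),
   .der (nat_lit 852) (nat_lit 2327),
   .der (nat_lit 1057) (nat_lit 892),
   .der (nat_lit 1057) (nat_lit 3190),
   .der (nat_lit 1299) (nat_lit 824),
   .der (nat_lit 1299) (nat_lit 1392),
   .der (nat_lit 1299) (nat_lit 5807),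
   .der (nat_lit 1299) (nat_lit 8558),
   .der (nat_lit 1299) (nat_lit 8957),
   .der (nat_lit 1300) (nat_lit 6807),
   .der (nat_lit 1554) (nat_lit 829),
   .der (nat_lit 1554) (nat_lit 1377),
   .der (nat_lit 1554) (nat_lit 1558),
   .der (nat_lit 1554) (nat_lit 2320),
   .der (nat_lit 1554) (nat_lit 4005),
   .der (nat_lit 1554) (nat_lit 9684),
   .der (nat_lit 1556) (nat_lit 2188),
   .der (nat_lit 1650) (nat_lit 5107),
   .der (nat_lit 1653) (nat_lit 1434),
   .der (nat_lit 1653) (nat_lit 2197),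
   .der (nat_lit 1810) (nat_lit 3144),
   .der (nat_lit 1810) (nat_lit 5220),
   .der (nat_lit 1890) (nat_lit 921),
   .der (nat_lit 1890) (nat_lit 9152),
   .der (nat_lit 1893) (nat_lit 2268),
   .der (nat_lit 2068) (nat_lit 2569),
   .der (nat_lit 2113) (nat_lit 9127),
   .der (nat_lit 2193) (nat_lit 1651),
   .der (nat_lit 2193) (nat_lit 3133),
   .der (nat_lit 2193) (nat_lit 9044),
   .der (nat_lit 2353) (nat_lit 898),
   .der (nat_lit 2353) (nat_lit 9942),
   .der (nat_lit 2433) (nat_lit 4061),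
   .der (nat_lit 2578) (nat_lit 930),
   .der (nat_lit 2578) (nat_lit 5155),
   .der (nat_lit 2578) (nat_lit 8316),
   .der (nat_lit 2593) (nat_lit 405),
   .der (nat_lit 2593) (nat_lit 841),
   .der (nat_lit 2593) (nat_lit 1381),
   .der (nat_lit 2593) (nat_lit 3126),
   .der (nat_lit 2593) (nat_lit 8971),
   .der (nat_lit 4978) (nat_lit 3190),
   .der (nat_lit 10305) (nat_lit 2472),
   .der (nat_lit 10545) (nat_lit 892),
   .der (nat_lit 12658) (nat_lit 2186),
   .der (nat_lit 13345) (nat_lit 892),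
   .der (nat_lit 13345) (nat_lit 4111),
   .der (nat_lit 17185) (nat_lit 9783),
   .der (nat_lit 22803) (nat_lit 2197),
   .der (nat_lit 26386) (nat_lit 1408),
   .der (nat_lit 26386) (nat_lit 2603),
   .der (nat_lit 30226) (nat_lit 2197),
   .der (nat_lit 33345) (nat_lit 6123),
   .der (nat_lit 37425) (nat_lit 1381),
   .der (nat_lit 38163) (nat_lit 8316),
   .der (nat_lit 1) (nat_lit 2528),
   .der (nat_lit 8) (nat_lit 1693),
   .der (nat_lit 9) (nat_lit 876),
   .der (nat_lit 9) (nat_lit 7977),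
   .der (nat_lit 49) (nat_lit 2528),
   .der (nat_lit 103) (nat_lit 4123),
   .der (nat_lit 103) (nat_lit 5961),
   .der (nat_lit 129) (nat_lit 1577),
   .der (nat_lit 129) (nat_lit 5917),
   .der (nat_lit 129) (nat_lit 8316),
   .der (nat_lit 577) (nat_lit 2922),
   .der (nat_lit 1554) (nat_lit 9169),
   .der (nat_lit 2135) (nat_lit 2913),
   .der (nat_lit 2433) (nat_lit 1408),
   .der (nat_lit 9587) (nat_lit 7255),
   .der (nat_lit 1) (nat_lit 1711),
   .der (nat_lit 7) (nat_lit 4279),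
   .der (nat_lit 8) (nat_lit 1706),
   .der (nat_lit 8) (nat_lit 2545),
   .der (nat_lit 10) (nat_lit 4111),
   .der (nat_lit 115) (nat_lit 9751),
   .der (nat_lit 137) (nat_lit 6850),
   .der (nat_lit 161) (nat_lit 824),
   .der (nat_lit 161) (nat_lit 1651),
   .der (nat_lit 165) (nat_lit 6621),
   .der (nat_lit 339) (nat_lit 898),
   .der (nat_lit 801) (nat_lit 2528),
   .der (nat_lit 1074) (nat_lit 861),
   .der (nat_lit 10305) (nat_lit 5850),
   .der (nat_lit 10545) (nat_lit 870),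
   .der (nat_lit 577) (nat_lit 6092),
   .der (nat_lit 145) (nat_lit 5052),
   .der (nat_lit 2433) (nat_lit 1475)]

theorem b5_step38 (h : ∀ j < 19000, Good b5T j) : ∀ j < 19219, Good b5T j := by
  intro j hj
  refine chkL_ok b5C38 19000 h (by decide +kernel) j ?_
  have h : b5C38.length = 219 := by decide +kernel
  omega


end Tab

end Pool.Agent.Work.MP_bf01b2_co.MR
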