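import Pool.Agent.Work.MP_bf01b2_co.MR.B5C0
import Pool.Agent.Work.MP_bf01b2_co.MR.B5C1
import Pool.Agent.Work.MP_bf01b2_co.MR.B5C2
import Pool.Agent.Work.MP_bf01b2_co.MR.B5C3
import Pool.Agent.Work.MP_bf01b2_co.MR.B5C4
import Pool.Agent.Work.MP_bf01b2_co.MR.B5C5
import Pool.Agent.Work.MP_bf01b2_co.MR.B5C6
import Pool.Agent.Work.MP_bf01b2_co.MR.B5C7
import Pool.Agent.Work.MP_bf01b2_co.MR.B5C8
import Pool.Agent.Work.MP_bf01b2_co.MR.B5C9

namespace Pool.Agent.Work.MP_bf01b2_co.MR

namespace Tab

theorem b5_ok : ∀ j < 19219, Good b5T j := by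
  have h : ∀ j < 0, Good b5T j := fun j hj => absurd hj (Nat.not_lt_zero j)
  replace h := b5_step0 h
  replace h := b5_step1 h
  replace h := b5_step2 h
  replace h := b5_step3 h
  replace h := b5_step4 h
  replace h := b5_step5 h
  replace h := b5_step6 h
  replace h := b5_step7 h
  replace h := b5_step8 h
  replace h := b5_step9 h
  replace h := b5_step10 h
  replace h := b5_step11 h
  replace h := b5_step12 h
  replace h := b5_step13 h
  replace h := b5_step14 h
  replace h := b5_step15 h
  replace h := b5_step16 h
  replace h := b5_step17 h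
  replace h := b5_step18 h
  replace h := b5_step19 h
  replace h := b5_step20 h
  replace h := b5_step21 h
  replace h := b5_step22 h
  replace h := b5_step23 h
  replace h := b5_step24 h
  replace h := b5_step25 h
  replace h := b5_step26 h
  replace h := b5_step27 h
  replace h := b5_step28 h
  replace h := b5_step29 h
  replace h := b5_step30 h
  replace h := b5_step31 h
  replace h := b5_step32 h
  replace h := b5_step33 h
  replace h := b5_step34 h
  replace h := b5_step35 h
  replace h := b5_step36 h
  replace h := b5_step37 h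
  replace h := b5_step38 h
  exact h

end Tab

end Pool.Agent.Work.MP_bf01b2_co.MR
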