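import Pool.Agent.Work.MP_bf01b2_co.MR.B5K23
import Pool.Agent.Work.MP_bf01b2_co.MR.B5K4p0
import Pool.Agent.Work.MP_bf01b2_co.MR.B5K4p1
import Pool.Agent.Work.MP_bf01b2_co.MR.B5K4p2
import Pool.Agent.Work.MP_bf01b2_co.MR.B5K4p3
import Pool.Agent.Work.MP_bf01b2_co.MR.B5K4p4
import Pool.Agent.Work.MP_bf01b2_co.MR.B5K4p5

set_option autoImplicit false
set_option maxRecDepth 100000

namespace Pool.Agent.Work.MP_bf01b2_co.MR

namespace Tab

/-- representatives -/
def b5R2 : ℕ := nat_lit 0x8000000100008001000000810000000900000003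

theorem b5R2_ok : ∀ i < 5, CM (rep b5R2 i) 23 := by
  intro i hi
  have e : ∀ i < 5, rep b5R2 i = [maskL [0, 1], maskL [0, 3], maskL [0, 7], maskL [0, 15], maskL [0, 31]].getD i 0 := by decide +kernel
  rw [e i hi]
  interval_cases i
  · exact b5c2_0
  · exact b5c2_1
  · exact b5c2_2
  · exact b5c2_3
  · exact b5c2_4

/-- codes of all position sets -/
def b5A2 : List ℕ :=
  [(nat_lit 0), (nat_lit 64), (nat_lit 1), (nat_lit 1152), (nat_lit 321), (nat_lit 2113), (nat_lit 2), (nat_lit 83136), (nat_lit 5505), (nat_lit 35905), (nat_lit 514), (nat_lit 6273), (nat_lit 6466), (nat_lit 51266), (nat_lit 3), (nat_lit 2180352), (nat_lit 136641), (nat_lit 2134081), (nat_lit 8770), (nat_lit 105601), (nat_lit 105794), (nat_lit 854082), (nat_lit 643), (nat_lit 1350849), (nat_lit 9602), (nat_lit 150594), (nat_lit 9731), (nat_lit 333954), (nat_lit 121155), (nat_lit 1099843), (nat_lit 4)]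

theorem b5A2_ok : all2 b5R2 5 b5A2 = true := by decide +kernel

/-- representatives -/
def b5R3 : ℕ := nat_lit 0x82001000280010002400100018001000002810000024100000181000000290000001900000007

theorem b5R3_ok : ∀ i < 10, CM (rep b5R3 i) 22 := by
  intro i hi
  have e : ∀ i < 10, rep b5R3 i = [maskL [0, 1, 2], maskL [0, 3, 4], maskL [0, 3, 5], maskL [0, 7, 8], maskL [0, 6, 9], maskL [0, 7, 9], maskL [0, 15, 16], maskL [0, 14, 17], maskL [0, 15, 17], maskL [0, 13, 19]].getD i 0 := by decide +kernel
  rw [e i hi]
  interval_cases i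
  · exact b5c3_0
  · exact b5c3_1
  · exact b5c3_2
  · exact b5c3_3
  · exact b5c3_4
  · exact b5c3_5
  · exact b5c3_6
  · exact b5c3_7
  · exact b5c3_8
  · exact b5c3_9

/-- codes of all position sets -/
def b5A3 : List (List ℕ) :=
  [[(nat_lit 0), (nat_lit 4194304), (nat_lit 320), (nat_lit 4194624), (nat_lit 2113), (nat_lit 4196417), (nat_lit 5504), (nat_lit 4199808), (nat_lit 35905), (nat_lit 4230209), (nat_lit 6273), (nat_lit 4200577), (nat_lit 51267), (nat_lit 4245571), (nat_lit 136640), (nat_lit 4330944), (nat_lit 2134081), (nat_lit 6328385), (nat_lit 105601), (nat_lit 4299905), (nat_lit 854083), (nat_lit 5048387), (nat_lit 1350849), (nat_lit 5545153), (nat_lit 150595), (nat_lit 4344899), (nat_lit 333955), (nat_lit 4528259), (nat_lit 1099846), (nat_lit 5294150)],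
   [(nat_lit 8388608), (nat_lit 2112), (nat_lit 321), (nat_lit 8390720), (nat_lit 8388929), (nat_lit 35904), (nat_lit 5505), (nat_lit 8424512), (nat_lit 8394113), (nat_lit 22657), (nat_lit 6467), (nat_lit 8411265), (nat_lit 8395075), (nat_lit 2134080), (nat_lit 136641), (nat_lit 10522688), (nat_lit 8525249), (nat_lit 810113), (nat_lit 105795), (nat_lit 9198721), (nat_lit 8494403), (nat_lit 89281), (nat_lit 9603), (nat_lit 8477889), (nat_lit 8398211), (nat_lit 71811), (nat_lit 121158), (nat_lit 8460419), (nat_lit 8509766)],
   [(nat_lit 1), (nat_lit 2), (nat_lit 12582914), (nat_lit 12582913), (nat_lit 513), (nat_lit 514), (nat_lit 12583426), (nat_lit 12583425), (nat_lit 6468), (nat_lit 6469), (nat_lit 12589381), (nat_lit 12589380), (nat_lit 8769), (nat_lit 8770), (nat_lit 12591682), (nat_lit 12591681), (nat_lit 105796), (nat_lit 105797), (nat_lit 12688709), (nat_lit 12688708), (nat_lit 9604), (nat_lit 9605), (nat_lit 12592517), (nat_lit 12592516), (nat_lit 121159), (nat_lit 121160), (nat_lit 12704072), (nat_lit 12704071)],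
   [(nat_lit 16777536), (nat_lit 16779328), (nat_lit 16777217), (nat_lit 6272), (nat_lit 385), (nat_lit 3137), (nat_lit 515), (nat_lit 16783488), (nat_lit 16777601), (nat_lit 16780353), (nat_lit 16777731), (nat_lit 105600), (nat_lit 6593), (nat_lit 53313), (nat_lit 8771), (nat_lit 16882816), (nat_lit 16783809), (nat_lit 16830529), (nat_lit 16785987), (nat_lit 7361), (nat_lit 91523), (nat_lit 674883), (nat_lit 9734), (nat_lit 16784577), (nat_lit 16868739), (nat_lit 17452099), (nat_lit 16786950)],
   [(nat_lit 20971522), (nat_lit 20971841), (nat_lit 6465), (nat_lit 6466), (nat_lit 516), (nat_lit 517), (nat_lit 20977986), (nat_lit 20977985), (nat_lit 20972037), (nat_lit 20972036), (nat_lit 105793), (nat_lit 105794), (nat_lit 8772), (nat_lit 8773), (nat_lit 21077314), (nat_lit 21077313), (nat_lit 20980293), (nat_lit 20980292), (nat_lit 91524), (nat_lit 91525), (nat_lit 9735), (nat_lit 9736), (nat_lit 21063045), (nat_lit 21063044), (nat_lit 20981256), (nat_lit 20981255)],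
   [(nat_lit 25167937), (nat_lit 51265), (nat_lit 4), (nat_lit 51266), (nat_lit 8261), (nat_lit 25217090), (nat_lit 25174085), (nat_lit 25217089), (nat_lit 25165828), (nat_lit 854081), (nat_lit 644), (nat_lit 854082), (nat_lit 140357), (nat_lit 26019906), (nat_lit 25306181), (nat_lit 26019905), (nat_lit 25166468), (nat_lit 674884), (nat_lit 155719), (nat_lit 674885), (nat_lit 155720), (nat_lit 25840709), (nat_lit 25321544), (nat_lit 25840708), (nat_lit 25321543)],
   [(nat_lit 3), (nat_lit 5), (nat_lit 69), (nat_lit 29361285), (nat_lit 1157), (nat_lit 29360197), (nat_lit 29360133), (nat_lit 29360131), (nat_lit 643), (nat_lit 645), (nat_lit 10309), (nat_lit 29525125), (nat_lit 164997), (nat_lit 29370437), (nat_lit 29360773), (nat_lit 29360771), (nat_lit 83143), (nat_lit 9737), (nat_lit 155721), (nat_lit 31294601), (nat_lit 1934473), (nat_lit 29515849), (nat_lit 29369865), (nat_lit 29443271)],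
   [(nat_lit 33559936), (nat_lit 33590336), (nat_lit 33554945), (nat_lit 33560704), (nat_lit 33560897), (nat_lit 33605697), (nat_lit 33554435), (nat_lit 1350848), (nat_lit 90561), (nat_lit 659521), (nat_lit 579), (nat_lit 56449), (nat_lit 7491), (nat_lit 67651), (nat_lit 646), (nat_lit 34905280), (nat_lit 33644993), (nat_lit 34213953), (nat_lit 33555011), (nat_lit 33610881), (nat_lit 33561923), (nat_lit 33622083), (nat_lit 33555078)],
   [(nat_lit 37749250), (nat_lit 37754241), (nat_lit 37755202), (nat_lit 37749121), (nat_lit 37748741), (nat_lit 37748740), (nat_lit 9601), (nat_lit 9602), (nat_lit 580), (nat_lit 581), (nat_lit 7492), (nat_lit 7493), (nat_lit 647), (nat_lit 648), (nat_lit 37758338), (nat_lit 37758337), (nat_lit 37749317), (nat_lit 37749316), (nat_lit 37756229), (nat_lit 37756228), (nat_lit 37749384), (nat_lit 37749383)],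
   [(nat_lit 41978945), (nat_lit 41994306), (nat_lit 41943109), (nat_lit 41946177), (nat_lit 41943556), (nat_lit 150593), (nat_lit 9732), (nat_lit 150594), (nat_lit 9285), (nat_lit 67652), (nat_lit 10311), (nat_lit 67653), (nat_lit 10312), (nat_lit 42093634), (nat_lit 41952325), (nat_lit 42093633), (nat_lit 41952772), (nat_lit 42010693), (nat_lit 41953352), (nat_lit 42010692), (nat_lit 41953351)],
   [(nat_lit 50332805), (nat_lit 46145605), (nat_lit 46137861), (nat_lit 46137859), (nat_lit 9731), (nat_lit 9733), (nat_lit 155717), (nat_lit 48579781), (nat_lit 1159), (nat_lit 649), (nat_lit 10313), (nat_lit 46253257), (nat_lit 2442437), (nat_lit 46293061), (nat_lit 46147077), (nat_lit 46147075), (nat_lit 115913), (nat_lit 46147657), (nat_lit 46137993), (nat_lit 46138503)],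
   [(nat_lit 50337921), (nat_lit 50354305), (nat_lit 50338116), (nat_lit 333953), (nat_lit 121156), (nat_lit 1099844), (nat_lit 164999), (nat_lit 333954), (nat_lit 115845), (nat_lit 4229), (nat_lit 165000), (nat_lit 50665602), (nat_lit 50447493), (nat_lit 50335877), (nat_lit 50496648), (nat_lit 50665601), (nat_lit 50452804), (nat_lit 51431492), (nat_lit 50496647)],
   [(nat_lit 54532421), (nat_lit 54532419), (nat_lit 121155), (nat_lit 121157), (nat_lit 71), (nat_lit 9), (nat_lit 1934469), (nat_lit 54641861), (nat_lit 165001), (nat_lit 56968393), (nat_lit 115909), (nat_lit 56460421), (nat_lit 2442441), (nat_lit 54690953), (nat_lit 54647109), (nat_lit 54647107), (nat_lit 54525961), (nat_lit 54526023)],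
   [(nat_lit 58771523), (nat_lit 1099843), (nat_lit 7), (nat_lit 1099845), (nat_lit 73), (nat_lit 68741), (nat_lit 1161), (nat_lit 58724549), (nat_lit 58803401), (nat_lit 4293), (nat_lit 83145), (nat_lit 58788997), (nat_lit 58721417), (nat_lit 59820101), (nat_lit 58720329), (nat_lit 59820099), (nat_lit 58720263)],
   [(nat_lit 6), (nat_lit 8), (nat_lit 72), (nat_lit 79693065), (nat_lit 1160), (nat_lit 88163593), (nat_lit 94455049), (nat_lit 62997704), (nat_lit 83144), (nat_lit 107037961), (nat_lit 109135113), (nat_lit 62915720), (nat_lit 117441801), (nat_lit 62914632), (nat_lit 62914568), (nat_lit 62914566)],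
   [(nat_lit 67245504), (nat_lit 69242944), (nat_lit 67117633), (nat_lit 67214464), (nat_lit 67214657), (nat_lit 67962945), (nat_lit 67109507), (nat_lit 68459712), (nat_lit 67118465), (nat_lit 67259457), (nat_lit 67118595), (nat_lit 67442817), (nat_lit 67230019), (nat_lit 68208707), (nat_lit 67108870)],
   [(nat_lit 71311938), (nat_lit 71439809), (nat_lit 71408962), (nat_lit 71309761), (nat_lit 71303813), (nat_lit 71303812), (nat_lit 71312770), (nat_lit 71393729), (nat_lit 71312901), (nat_lit 71312900), (nat_lit 71424325), (nat_lit 71424324), (nat_lit 71303176), (nat_lit 71303175)],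
   [(nat_lit 77631553), (nat_lit 76351554), (nat_lit 75507781), (nat_lit 75550785), (nat_lit 75506244), (nat_lit 75648066), (nat_lit 75653189), (nat_lit 76156993), (nat_lit 75498052), (nat_lit 76597317), (nat_lit 75497544), (nat_lit 76597316), (nat_lit 75497543)],
   [(nat_lit 84051077), (nat_lit 79832133), (nat_lit 79700549), (nat_lit 79700547), (nat_lit 103105733), (nat_lit 79701061), (nat_lit 79692357), (nat_lit 79692355), (nat_lit 1289), (nat_lit 79691849), (nat_lit 79691785), (nat_lit 79856775)],
   [(nat_lit 83991681), (nat_lit 84696193), (nat_lit 83991876), (nat_lit 84220034), (nat_lit 85820549), (nat_lit 83954821), (nat_lit 83887240), (nat_lit 83942529), (nat_lit 83893572), (nat_lit 83953732), (nat_lit 83887239)],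
   [(nat_lit 88186181), (nat_lit 88186179), (nat_lit 100779205), (nat_lit 88196229), (nat_lit 83209), (nat_lit 88081545), (nat_lit 88087877), (nat_lit 88087875), (nat_lit 88081033), (nat_lit 88090695)],
   [(nat_lit 93128771), (nat_lit 100667589), (nat_lit 2180361), (nat_lit 92278917), (nat_lit 92439689), (nat_lit 92342341), (nat_lit 92285001), (nat_lit 92342339), (nat_lit 92275335)],
   [(nat_lit 100746440), (nat_lit 104940745), (nat_lit 111494345), (nat_lit 96633992), (nat_lit 117556425), (nat_lit 96479304), (nat_lit 96469640), (nat_lit 96469638)],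
   [(nat_lit 102014145), (nat_lit 100752577), (nat_lit 100672900), (nat_lit 100670657), (nat_lit 100754820), (nat_lit 101338180), (nat_lit 100746439)],
   [(nat_lit 104867205), (nat_lit 104867203), (nat_lit 104949125), (nat_lit 104949123), (nat_lit 104867337), (nat_lit 105013319)],
   [(nat_lit 109202499), (nat_lit 109726789), (nat_lit 109207625), (nat_lit 109726787), (nat_lit 109061639)],
   [(nat_lit 119374985), (nat_lit 113401928), (nat_lit 113255944), (nat_lit 113255942)],
   [(nat_lit 117774467), (nat_lit 117512323), (nat_lit 117561671)],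
   [(nat_lit 121755976), (nat_lit 121755974)],
   [(nat_lit 126928966)],
   []]

theorem b5A3_ok : all3 b5R3 10 b5A3 = true := by decide +kernel

/-- representatives -/
def b5R4 : ℕ := nat_lit 0x80024001800180010240800101808001000890010008801100086001000830010008204100068001000380010002c001000280410002800500024081000240090002400500020881000204810002028100020241000180810001800900018003000108810001028100010241000101810000824100008181000018810000068100000381000002c10000028500000249000002290000018900000183000001290000011900000099000000690000002d0000001b000000170000000f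

theorem b5R4_ok : ∀ i < 47, CM (rep b5R4 i) 21 := by
  intro i hi
  have e : ∀ i < 47, rep b5R4 i = [maskL [0, 1, 2, 3], maskL [0, 1, 2, 4], maskL [0, 1, 3, 4], maskL [0, 2, 3, 5], maskL [0, 3, 5, 6], maskL [0, 3, 4, 7], maskL [0, 3, 4, 8], maskL [0, 3, 5, 8], maskL [0, 1, 7, 8], maskL [0, 3, 7, 8], maskL [0, 3, 5, 9], maskL [0, 3, 6, 9], maskL [0, 2, 7, 9], maskL [0, 6, 7, 9], maskL [0, 7, 8, 9], maskL [0, 7, 9, 10], maskL [0, 7, 11, 12], maskL [0, 7, 8, 15], maskL [0, 6, 9, 15], maskL [0, 7, 8, 16], maskL [0, 6, 9, 16], maskL [0, 7, 9, 16], maskL [0, 7, 11, 16], maskL [0, 1, 15, 16], maskL [0, 3, 15, 16], maskL [0, 7, 15, 16], maskL [0, 6, 9, 17], maskL [0, 7, 9, 17], maskL [0, 7, 10, 17], maskL [0, 7, 11, 17], maskL [0, 2, 14, 17], maskL [0, 3, 14, 17], maskL [0, 7, 14, 17], maskL [0, 2, 15, 17], maskL [0, 6, 15, 17], maskL [0, 14, 15, 17], maskL [0, 15, 16, 17], maskL [0, 15, 17, 18], maskL [0, 6, 13, 19], maskL [0, 12, 13, 19], maskL [0, 13, 14, 19], maskL [0, 4, 15, 19], maskL [0, 12, 15, 19], maskL [0, 15, 23, 24], maskL [0, 15, 22, 25],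 maskL [0, 15, 16, 31], maskL [0, 14, 17, 31]].getD i 0 := by decide +kernel
  rw [e i hi]
  interval_cases i
  · exact b5c4_0
  · exact b5c4_1
  · exact b5c4_2
  · exact b5c4_3
  · exact b5c4_4
  · exact b5c4_5
  · exact b5c4_6
  · exact b5c4_7
  · exact b5c4_8
  · exact b5c4_9
  · exact b5c4_10
  · exact b5c4_11
  · exact b5c4_12
  · exact b5c4_13
  · exact b5c4_14
  · exact b5c4_15
  · exact b5c4_16
  · exact b5c4_17
  · exact b5c4_18
  · exact b5c4_19
  · exact b5c4_20
  · exact b5c4_21
  · exact b5c4_22
  · exact b5c4_23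
  · exact b5c4_24
  · exact b5c4_25
  · exact b5c4_26
  · exact b5c4_27
  · exact b5c4_28
  · exact b5c4_29
  · exact b5c4_30
  · exact b5c4_31
  · exact b5c4_32
  · exact b5c4_33
  · exact b5c4_34
  · exact b5c4_35
  · exact b5c4_36
  · exact b5c4_37
  · exact b5c4_38
  · exact b5c4_39
  · exact b5c4_40
  · exact b5c4_41
  · exact b5c4_42
  · exact b5c4_43
  · exact b5c4_44
  · exact b5c4_45
  · exact b5c4_46

/-- codes of all position sets -/
def b5A4 : List (List (List ℕ)) :=
  [[[(nat_lit 0), (nat_lit 1), (nat_lit 4194306), (nat_lit 8388674), (nat_lit 8388611), (nat_lit 513), (nat_lit 4194818), (nat_lit 8396866), (nat_lit 8389123), (nat_lit 6278), (nat_lit 6472), (nat_lit 51272), (nat_lit 8395086), (nat_lit 8769), (nat_lit 4203074), (nat_lit 8528962), (nat_lit 8397379), (nat_lit 105606), (nat_lit 105800), (nat_lit 854088), (nat_lit 8494414), (nat_lit 1350854), (nat_lit 9608), (nat_lit 150600), (nat_lit 8398222), (nat_lit 333971), (nat_lit 121175), (nat_lit 1099863), (nat_lit 8509796)], [(nat_lit 2), (nat_lit 4194305), (nat_lit 12582915), (nat_lit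 12582978), (nat_lit 514), (nat_lit 4194817), (nat_lit 12583427), (nat_lit 12591170), (nat_lit 4200776), (nat_lit 4200582), (nat_lit 12589390), (nat_lit 4245576), (nat_lit 8770), (nat_lit 4203073), (nat_lit 12591683), (nat_lit 12723266), (nat_lit 4300104), (nat_lit 4299910), (nat_lit 12688718), (nat_lit 5048392), (nat_lit 4203912), (nat_lit 5545158), (nat_lit 12592526), (nat_lit 4344904), (nat_lit 4315479), (nat_lit 4528275), (nat_lit 12704100), (nat_lit 5294167)], [(nat_lit 320), (nat_lit 16778370), (nat_lit 16777539), (nat_lit 6465), (nat_lit 4200770), (nat_lit 35910), (nat_lit 520), (nat_lit 16876674), (nat_lit 16783683), (nat_lit 3208), (nat_lit 16777742), (nat_lit 105793), (nat_lit 4300098), (nat_lit 2134086), (nat_lit 8776), (nat_lit 18465922), (nat_lit 16883011), (nat_lit 53384), (nat_lit 16785998), (nat_lit 40134), (nat_lit 91528), (nat_lit 150611), (nat_lit 9751), (nat_lit 333960), (nat_lit 16868750), (nat_lit 68759), (nat_lit 16786980)], [(nat_lit 20971843), (nat_lit 20972674), (nat_lit 6466), (nat_lit 4200769), (nat_lit 4194824), (nat_lit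 4230214), (nat_lit 20977987), (nat_lit 21070978), (nat_lit 20972046), (nat_lit 4197512), (nat_lit 105794), (nat_lit 4300097), (nat_lit 4203080), (nat_lit 6328390), (nat_lit 21077315), (nat_lit 22660226), (nat_lit 20980302), (nat_lit 4247688), (nat_lit 4285832), (nat_lit 4234438), (nat_lit 4204055), (nat_lit 4344915), (nat_lit 21063054), (nat_lit 4528264), (nat_lit 20981284), (nat_lit 4263063)], [(nat_lit 2117), (nat_lit 2118), (nat_lit 4194312), (nat_lit 51271), (nat_lit 4194380), (nat_lit 3207), (nat_lit 4195468), (nat_lit 25167945), (nat_lit 25165837), (nat_lit 165958), (nat_lit 4194952), (nat_lit 854087), (nat_lit 4204620), (nat_lit 53383), (nat_lit 4359308), (nat_lit 25331785), (nat_lit 25166477), (nat_lit 674900), (nat_lit 155742), (nat_lit 674901), (nat_lit 155745), (nat_lit 71829), (nat_lit 1934497), (nat_lit 1099864), (nat_lit 25171367)], [(nat_lit 8), (nat_lit 4196422), (nat_lit 76), (nat_lit 4245575), (nat_lit 1164), (nat_lit 4197511), (nat_lit 29360141), (nat_lit 29362249), (nat_lit 648), (nat_lit 4360262), (nat_lit 10316), (nat_lit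 5048391), (nat_lit 165004), (nat_lit 4247687), (nat_lit 29360781), (nat_lit 29526089), (nat_lit 4350046), (nat_lit 4869204), (nat_lit 4350049), (nat_lit 4869205), (nat_lit 6128801), (nat_lit 4266133), (nat_lit 29365671), (nat_lit 5294168)], [(nat_lit 5504), (nat_lit 33637570), (nat_lit 33559939), (nat_lit 33555650), (nat_lit 33554819), (nat_lit 200), (nat_lit 33554446), (nat_lit 9601), (nat_lit 4203906), (nat_lit 36934), (nat_lit 584), (nat_lit 7302), (nat_lit 7496), (nat_lit 854099), (nat_lit 663), (nat_lit 33703106), (nat_lit 33564035), (nat_lit 9416), (nat_lit 33555022), (nat_lit 120008), (nat_lit 33561934), (nat_lit 4311), (nat_lit 33555108)], [(nat_lit 37754243), (nat_lit 37831874), (nat_lit 37749123), (nat_lit 37749954), (nat_lit 37748750), (nat_lit 4194504), (nat_lit 9602), (nat_lit 4203905), (nat_lit 4194888), (nat_lit 4231238), (nat_lit 4201800), (nat_lit 4201606), (nat_lit 4194967), (nat_lit 5048403), (nat_lit 37758339), (nat_lit 37897410), (nat_lit 37749326), (nat_lit 4203720), (nat_lit 37756238), (nat_lit 4314312), (nat_lit 37749412),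 (nat_lit 4198615)], [(nat_lit 35909), (nat_lit 199), (nat_lit 4277452), (nat_lit 41978953), (nat_lit 41943565), (nat_lit 2395206), (nat_lit 4204040), (nat_lit 150599), (nat_lit 4350028), (nat_lit 67668), (nat_lit 10334), (nat_lit 67669), (nat_lit 10337), (nat_lit 9415), (nat_lit 6636748), (nat_lit 44338249), (nat_lit 41952781), (nat_lit 382165), (nat_lit 115937), (nat_lit 68696), (nat_lit 41943399)], [(nat_lit 83148), (nat_lit 4194503), (nat_lit 46137869), (nat_lit 46173257), (nat_lit 9736), (nat_lit 6589510), (nat_lit 155724), (nat_lit 4344903), (nat_lit 4204638), (nat_lit 4261972), (nat_lit 4204641), (nat_lit 4261973), (nat_lit 2442444), (nat_lit 4203719), (nat_lit 46147085), (nat_lit 48532553), (nat_lit 4310241), (nat_lit 4576469), (nat_lit 46137703), (nat_lit 4263000)], [(nat_lit 6277), (nat_lit 50337929), (nat_lit 50338125), (nat_lit 120966), (nat_lit 4315464), (nat_lit 1099860), (nat_lit 4194398), (nat_lit 333959), (nat_lit 6128780), (nat_lit 4245), (nat_lit 165025), (nat_lit 120007), (nat_lit 4310220), (nat_lit 42197), (nat_lit 2442465),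 (nat_lit 50452617), (nat_lit 50452813), (nat_lit 1071256), (nat_lit 50331687)], [(nat_lit 54532429), (nat_lit 54532233), (nat_lit 121160), (nat_lit 4315270), (nat_lit 94), (nat_lit 5294164), (nat_lit 1934476), (nat_lit 4528263), (nat_lit 4359329), (nat_lit 4198549), (nat_lit 115916), (nat_lit 4314311), (nat_lit 6636769), (nat_lit 4236501), (nat_lit 54647117), (nat_lit 54646921), (nat_lit 54525991), (nat_lit 5265560)], [(nat_lit 51281), (nat_lit 51283), (nat_lit 4194327), (nat_lit 1099861), (nat_lit 4194401), (nat_lit 68757), (nat_lit 4195489), (nat_lit 1099862), (nat_lit 4196457), (nat_lit 4309), (nat_lit 4277473), (nat_lit 68694), (nat_lit 4230249), (nat_lit 1071254), (nat_lit 4200617), (nat_lit 58771545), (nat_lit 58720291)], [(nat_lit 23), (nat_lit 4245587), (nat_lit 97), (nat_lit 5294165), (nat_lit 1185), (nat_lit 4263061), (nat_lit 2153), (nat_lit 5294166), (nat_lit 83169), (nat_lit 4198613), (nat_lit 35945), (nat_lit 4262998), (nat_lit 6313), (nat_lit 5265558), (nat_lit 62914595), (nat_lit 62965849)], [(nat_lit 136640), (nat_lit 69289218),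 (nat_lit 67245507), (nat_lit 67208450), (nat_lit 67115459), (nat_lit 3336), (nat_lit 67109518), (nat_lit 68551938), (nat_lit 67199427), (nat_lit 41224), (nat_lit 67118606), (nat_lit 365832), (nat_lit 67230030), (nat_lit 279), (nat_lit 67108900)], [(nat_lit 71439811), (nat_lit 73483522), (nat_lit 71309763), (nat_lit 71402754), (nat_lit 71303822), (nat_lit 4197640), (nat_lit 71393731), (nat_lit 72746242), (nat_lit 71312910), (nat_lit 4235528), (nat_lit 71424334), (nat_lit 4560136), (nat_lit 71303204), (nat_lit 4194583)], [(nat_lit 2134085), (nat_lit 3335), (nat_lit 6374668), (nat_lit 77631561), (nat_lit 75506253), (nat_lit 41223), (nat_lit 4277516), (nat_lit 75534409), (nat_lit 75498061), (nat_lit 103701), (nat_lit 1313), (nat_lit 4184), (nat_lit 75508071)], [(nat_lit 2180364), (nat_lit 4197639), (nat_lit 79700557), (nat_lit 81825865), (nat_lit 83212), (nat_lit 4235527), (nat_lit 79692365), (nat_lit 79728713), (nat_lit 4195617), (nat_lit 4298005), (nat_lit 79702375), (nat_lit 4198488)], [(nat_lit 105605), (nat_lit 83991689), (nat_lit 83991885), (nat_lit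 365831), (nat_lit 4195596), (nat_lit 8469), (nat_lit 83233), (nat_lit 83893385), (nat_lit 83893581), (nat_lit 23704), (nat_lit 83886759)], [(nat_lit 88186189), (nat_lit 88185993), (nat_lit 1292), (nat_lit 4560135), (nat_lit 4277537), (nat_lit 4202773), (nat_lit 88087885), (nat_lit 88087689), (nat_lit 88081063), (nat_lit 4218008)], [(nat_lit 854097), (nat_lit 277), (nat_lit 6374689), (nat_lit 4182), (nat_lit 6328425), (nat_lit 23702), (nat_lit 4299945), (nat_lit 93128793), (nat_lit 92275363)], [(nat_lit 2180385), (nat_lit 4194581), (nat_lit 2134121), (nat_lit 4198486), (nat_lit 105641), (nat_lit 4218006), (nat_lit 96469667), (nat_lit 97323097)], [(nat_lit 1350853), (nat_lit 102014153), (nat_lit 100672909), (nat_lit 100703433), (nat_lit 100754829), (nat_lit 613592), (nat_lit 100673063)], [(nat_lit 104867213), (nat_lit 106208457), (nat_lit 104949133), (nat_lit 104897737), (nat_lit 104867367), (nat_lit 4807896)], [(nat_lit 150609), (nat_lit 613590), (nat_lit 5545193), (nat_lit 109202521), (nat_lit 109061667)], [(nat_lit 1350889), (nat_lit 4807894),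 (nat_lit 113255971), (nat_lit 113396825)], [(nat_lit 333969), (nat_lit 117774489), (nat_lit 117561699)], [(nat_lit 121756003), (nat_lit 121968793)], [(nat_lit 1099885)], []],
   [[(nat_lit 66), (nat_lit 3), (nat_lit 8388609), (nat_lit 12582914), (nat_lit 8258), (nat_lit 515), (nat_lit 8389121), (nat_lit 12583426), (nat_lit 8439880), (nat_lit 6478), (nat_lit 8394886), (nat_lit 8395080), (nat_lit 140354), (nat_lit 8771), (nat_lit 8397377), (nat_lit 12591682), (nat_lit 9242696), (nat_lit 105806), (nat_lit 8494214), (nat_lit 8494408), (nat_lit 8539208), (nat_lit 9614), (nat_lit 9739462), (nat_lit 8398216), (nat_lit 9488471), (nat_lit 121188), (nat_lit 8722579), (nat_lit 8509783)], [(nat_lit 1154), (nat_lit 2112), (nat_lit 16779331), (nat_lit 51265), (nat_lit 5510), (nat_lit 8439874), (nat_lit 8264), (nat_lit 16780418), (nat_lit 99464), (nat_lit 16828483), (nat_lit 16785486), (nat_lit 854081), (nat_lit 136646), (nat_lit 9242690), (nat_lit 140360), (nat_lit 16830594), (nat_lit 1688712), (nat_lit 17631299), (nat_lit 16917582), (nat_lit 613574), (nat_lit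 9619), (nat_lit 674888), (nat_lit 155735), (nat_lit 71816), (nat_lit 1934487), (nat_lit 17452110), (nat_lit 16932964)], [(nat_lit 25167939), (nat_lit 325), (nat_lit 326), (nat_lit 6471), (nat_lit 8388680), (nat_lit 8388620), (nat_lit 99463), (nat_lit 20971849), (nat_lit 8388748), (nat_lit 20971597), (nat_lit 10566), (nat_lit 105799), (nat_lit 8398920), (nat_lit 8389260), (nat_lit 1688711), (nat_lit 20982089), (nat_lit 8398988), (nat_lit 20981837), (nat_lit 91540), (nat_lit 91541), (nat_lit 9758), (nat_lit 9761), (nat_lit 333973), (nat_lit 121176), (nat_lit 68769), (nat_lit 21007463)], [(nat_lit 8389762), (nat_lit 51266), (nat_lit 8396872), (nat_lit 8439873), (nat_lit 8394118), (nat_lit 25217091), (nat_lit 25174094), (nat_lit 25169026), (nat_lit 8488072), (nat_lit 854082), (nat_lit 8528968), (nat_lit 9242689), (nat_lit 8525254), (nat_lit 26019907), (nat_lit 25306190), (nat_lit 25219202), (nat_lit 10077320), (nat_lit 9063496), (nat_lit 8544343), (nat_lit 9002182), (nat_lit 8398227), (nat_lit 25840718), (nat_lit 25321572), (nat_lit 8460424), (nat_lit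 10323095)], [(nat_lit 72), (nat_lit 12), (nat_lit 8388934), (nat_lit 8395079), (nat_lit 140), (nat_lit 29360205), (nat_lit 8488071), (nat_lit 29360457), (nat_lit 10312), (nat_lit 652), (nat_lit 8399174), (nat_lit 8494407), (nat_lit 10380), (nat_lit 29370445), (nat_lit 10077319), (nat_lit 29370697), (nat_lit 8398366), (nat_lit 8398369), (nat_lit 8480148), (nat_lit 8480149), (nat_lit 8457377), (nat_lit 29396071), (nat_lit 8722581), (nat_lit 8509784)], [(nat_lit 83138), (nat_lit 35904), (nat_lit 33590339), (nat_lit 33554626), (nat_lit 1224), (nat_lit 33557571), (nat_lit 33554510), (nat_lit 150593), (nat_lit 5574), (nat_lit 8539202), (nat_lit 9288), (nat_lit 23686), (nat_lit 105811), (nat_lit 67656), (nat_lit 10327), (nat_lit 33563842), (nat_lit 148680), (nat_lit 33705027), (nat_lit 33563726), (nat_lit 382152), (nat_lit 115927), (nat_lit 33622094), (nat_lit 33564772)], [(nat_lit 41978947), (nat_lit 5509), (nat_lit 1223), (nat_lit 37754249), (nat_lit 8390860), (nat_lit 37757005), (nat_lit 152966), (nat_lit 9607), (nat_lit 8544328), (nat_lit 8398348),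 (nat_lit 7508), (nat_lit 7509), (nat_lit 670), (nat_lit 673), (nat_lit 148679), (nat_lit 37901705), (nat_lit 8538316), (nat_lit 37904461), (nat_lit 120021), (nat_lit 7576), (nat_lit 4321), (nat_lit 37750887)], [(nat_lit 8471746), (nat_lit 41946179), (nat_lit 41943118), (nat_lit 41943234), (nat_lit 8389832), (nat_lit 150594), (nat_lit 8397896), (nat_lit 8539201), (nat_lit 8394182), (nat_lit 8456264), (nat_lit 8398935), (nat_lit 8412294), (nat_lit 8494419), (nat_lit 42093635), (nat_lit 41952334), (nat_lit 41952450), (nat_lit 8537288), (nat_lit 42010702), (nat_lit 41953380), (nat_lit 8770760), (nat_lit 8504535)], [(nat_lit 2252), (nat_lit 46145613), (nat_lit 8389831), (nat_lit 46142857), (nat_lit 155720), (nat_lit 9740), (nat_lit 8541574), (nat_lit 8398215), (nat_lit 8389278), (nat_lit 8389281), (nat_lit 8396116), (nat_lit 8396117), (nat_lit 149708), (nat_lit 46293069), (nat_lit 8537287), (nat_lit 46290313), (nat_lit 8392929), (nat_lit 46139495), (nat_lit 8508629), (nat_lit 8396184)], [(nat_lit 6281), (nat_lit 22661), (nat_lit 50382925), (nat_lit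 1071238), (nat_lit 121172), (nat_lit 9488456), (nat_lit 8388638), (nat_lit 71815), (nat_lit 115861), (nat_lit 8457356), (nat_lit 10401), (nat_lit 382151), (nat_lit 1459413), (nat_lit 8392908), (nat_lit 149729), (nat_lit 51402889), (nat_lit 120984), (nat_lit 51431501), (nat_lit 50331751)], [(nat_lit 58771533), (nat_lit 6481), (nat_lit 6483), (nat_lit 121173), (nat_lit 8388695), (nat_lit 8388641), (nat_lit 1934485), (nat_lit 121174), (nat_lit 8388769), (nat_lit 8388969), (nat_lit 115925), (nat_lit 7574), (nat_lit 8390881), (nat_lit 8394153), (nat_lit 120982), (nat_lit 54532441), (nat_lit 8411305), (nat_lit 54526051)], [(nat_lit 8394889), (nat_lit 1099848), (nat_lit 30), (nat_lit 9459846), (nat_lit 8509780), (nat_lit 68748), (nat_lit 8399009), (nat_lit 8460423), (nat_lit 8504469), (nat_lit 4300), (nat_lit 8538337), (nat_lit 8770759), (nat_lit 9848021), (nat_lit 59820109), (nat_lit 58720359), (nat_lit 59791497), (nat_lit 8509592)], [(nat_lit 87), (nat_lit 33), (nat_lit 8395091), (nat_lit 8509781), (nat_lit 161), (nat_lit 361), (nat_lit 10323093), (nat_lit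 8509782), (nat_lit 2273), (nat_lit 5545), (nat_lit 8504533), (nat_lit 8396182), (nat_lit 22697), (nat_lit 62914659), (nat_lit 8509590), (nat_lit 62921049)], [(nat_lit 2180354), (nat_lit 2134080), (nat_lit 69242947), (nat_lit 67112194), (nat_lit 99592), (nat_lit 67162179), (nat_lit 67119182), (nat_lit 67150082), (nat_lit 1443080), (nat_lit 67768387), (nat_lit 67264590), (nat_lit 103688), (nat_lit 1303), (nat_lit 68208718), (nat_lit 67108964)], [(nat_lit 77631555), (nat_lit 136645), (nat_lit 99591), (nat_lit 71439817), (nat_lit 8521996), (nat_lit 71443533), (nat_lit 1443079), (nat_lit 71308745), (nat_lit 8390924), (nat_lit 71312461), (nat_lit 365845), (nat_lit 472), (nat_lit 289), (nat_lit 71469159)], [(nat_lit 10568962), (nat_lit 75550787), (nat_lit 75507790), (nat_lit 75500802), (nat_lit 8488200), (nat_lit 76156995), (nat_lit 75653198), (nat_lit 75538690), (nat_lit 9831688), (nat_lit 76597326), (nat_lit 75497572), (nat_lit 8492296), (nat_lit 8389911)], [(nat_lit 133388), (nat_lit 79832141), (nat_lit 8488199), (nat_lit 79828425), (nat_lit 2316),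 (nat_lit 79701069), (nat_lit 9831687), (nat_lit 79697353), (nat_lit 8388897), (nat_lit 79857767), (nat_lit 8754453), (nat_lit 8389080)], [(nat_lit 105609), (nat_lit 810117), (nat_lit 84740173), (nat_lit 103687), (nat_lit 132373), (nat_lit 8388876), (nat_lit 2337), (nat_lit 83909769), (nat_lit 7320), (nat_lit 83953741), (nat_lit 83896423)], [(nat_lit 93128781), (nat_lit 105809), (nat_lit 1301), (nat_lit 470), (nat_lit 8522017), (nat_lit 8525289), (nat_lit 7318), (nat_lit 88186201), (nat_lit 9198761), (nat_lit 88090723)], [(nat_lit 8494217), (nat_lit 268), (nat_lit 8390945), (nat_lit 8492295), (nat_lit 8520981), (nat_lit 92342349), (nat_lit 92285031), (nat_lit 92298377), (nat_lit 8395928)], [(nat_lit 133409), (nat_lit 136681), (nat_lit 8389909), (nat_lit 8389078), (nat_lit 810153), (nat_lit 96479331), (nat_lit 8395926), (nat_lit 96574809)], [(nat_lit 1350857), (nat_lit 89285), (nat_lit 100813901), (nat_lit 101276873), (nat_lit 40152), (nat_lit 101338189), (nat_lit 100819047)], [(nat_lit 109202509), (nat_lit 9617), (nat_lit 40150), (nat_lit 104867225),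 (nat_lit 8477929), (nat_lit 105013347)], [(nat_lit 9739465), (nat_lit 109726797), (nat_lit 109207655), (nat_lit 109665481), (nat_lit 8428760)], [(nat_lit 89321), (nat_lit 113401955), (nat_lit 8428758), (nat_lit 113255833)], [(nat_lit 333977), (nat_lit 71825), (nat_lit 118540387)], [(nat_lit 126928995), (nat_lit 121197)], [(nat_lit 8722585)], []],
   [[(nat_lit 323), (nat_lit 2115), (nat_lit 5), (nat_lit 6), (nat_lit 519), (nat_lit 8263), (nat_lit 12582921), (nat_lit 16778376), (nat_lit 16777548), (nat_lit 16779340), (nat_lit 12584077), (nat_lit 646), (nat_lit 8775), (nat_lit 140359), (nat_lit 12583561), (nat_lit 16942216), (nat_lit 16787788), (nat_lit 16943180), (nat_lit 12747917), (nat_lit 9620), (nat_lit 9621), (nat_lit 150613), (nat_lit 9752), (nat_lit 121182), (nat_lit 121185), (nat_lit 1099873), (nat_lit 12589223)], [(nat_lit 4), (nat_lit 12585027), (nat_lit 7), (nat_lit 10), (nat_lit 12582923), (nat_lit 12582983), (nat_lit 20971851), (nat_lit 20972679), (nat_lit 20972047), (nat_lit 20973643), (nat_lit 647), (nat_lit 650), (nat_lit 12583563),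 (nat_lit 12593223), (nat_lit 20982091), (nat_lit 21136519), (nat_lit 20980303), (nat_lit 21137483), (nat_lit 9626), (nat_lit 9627), (nat_lit 9759), (nat_lit 12733530), (nat_lit 121183), (nat_lit 21305498), (nat_lit 20981285), (nat_lit 13682783)], [(nat_lit 12583235), (nat_lit 71), (nat_lit 11), (nat_lit 12582922), (nat_lit 12582919), (nat_lit 25167947), (nat_lit 25166351), (nat_lit 25166983), (nat_lit 25166155), (nat_lit 10311), (nat_lit 651), (nat_lit 12583562), (nat_lit 12583559), (nat_lit 25331787), (nat_lit 25174607), (nat_lit 25330823), (nat_lit 25176395), (nat_lit 150618), (nat_lit 12592671), (nat_lit 12592539), (nat_lit 12592538), (nat_lit 1099871), (nat_lit 25175589), (nat_lit 25499802), (nat_lit 12704095)], [(nat_lit 9), (nat_lit 12591175), (nat_lit 12583431), (nat_lit 12582918), (nat_lit 1165), (nat_lit 29362252), (nat_lit 29360460), (nat_lit 29361288), (nat_lit 649), (nat_lit 12723271), (nat_lit 12591687), (nat_lit 12583558), (nat_lit 165005), (nat_lit 29526092), (nat_lit 29370700), (nat_lit 29525128), (nat_lit 12592664), (nat_lit 12733525),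 (nat_lit 12592533), (nat_lit 12592532), (nat_lit 6311), (nat_lit 13682785), (nat_lit 12704097), (nat_lit 12704094)], [(nat_lit 5507), (nat_lit 35907), (nat_lit 517), (nat_lit 33637576), (nat_lit 33559948), (nat_lit 33590348), (nat_lit 12666061), (nat_lit 9734), (nat_lit 583), (nat_lit 9287), (nat_lit 12592649), (nat_lit 105812), (nat_lit 105813), (nat_lit 854101), (nat_lit 664), (nat_lit 35996872), (nat_lit 33707404), (nat_lit 35949644), (nat_lit 15025357), (nat_lit 7582), (nat_lit 7585), (nat_lit 68705), (nat_lit 12604647)], [(nat_lit 516), (nat_lit 12618819), (nat_lit 37754251), (nat_lit 37831879), (nat_lit 37748751), (nat_lit 37784651), (nat_lit 9735), (nat_lit 9738), (nat_lit 12592651), (nat_lit 12738631), (nat_lit 105818), (nat_lit 105819), (nat_lit 671), (nat_lit 13437018), (nat_lit 37901707), (nat_lit 40191175), (nat_lit 37749327), (nat_lit 40143947), (nat_lit 7583), (nat_lit 37868762), (nat_lit 37749413), (nat_lit 12651615)], [(nat_lit 12588419), (nat_lit 41978955), (nat_lit 41943055), (nat_lit 42026183), (nat_lit 41948555), (nat_lit 155719),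 (nat_lit 9739), (nat_lit 12592650), (nat_lit 12592647), (nat_lit 854106), (nat_lit 12583583), (nat_lit 12688731), (nat_lit 12688730), (nat_lit 44338251), (nat_lit 41943631), (nat_lit 44385479), (nat_lit 42096011), (nat_lit 68703), (nat_lit 41943717), (nat_lit 42063066), (nat_lit 12590495)], [(nat_lit 83149), (nat_lit 46173260), (nat_lit 46142860), (nat_lit 46220488), (nat_lit 9737), (nat_lit 12592199), (nat_lit 12583495), (nat_lit 12592646), (nat_lit 12583576), (nat_lit 13437013), (nat_lit 12688725), (nat_lit 12688724), (nat_lit 2442445), (nat_lit 48532556), (nat_lit 46290316), (nat_lit 48579784), (nat_lit 21735), (nat_lit 12651617), (nat_lit 12590497), (nat_lit 12590494)], [(nat_lit 6477), (nat_lit 51277), (nat_lit 6482), (nat_lit 6484), (nat_lit 6490), (nat_lit 51290), (nat_lit 12582936), (nat_lit 1178), (nat_lit 7516), (nat_lit 67676), (nat_lit 12584098), (nat_lit 83162), (nat_lit 91548), (nat_lit 674908), (nat_lit 12666082), (nat_lit 50337944), (nat_lit 50338146), (nat_lit 50382946), (nat_lit 50331690)], [(nat_lit 6288), (nat_lit 12634189),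 (nat_lit 6485), (nat_lit 6491), (nat_lit 12582943), (nat_lit 12634197), (nat_lit 121180), (nat_lit 121181), (nat_lit 12584102), (nat_lit 13682780), (nat_lit 7580), (nat_lit 7581), (nat_lit 12666086), (nat_lit 12651612), (nat_lit 54532448), (nat_lit 54532246), (nat_lit 54525992), (nat_lit 54577248)], [(nat_lit 12589389), (nat_lit 51285), (nat_lit 31), (nat_lit 12589403), (nat_lit 12589397), (nat_lit 1099868), (nat_lit 1190), (nat_lit 12704093), (nat_lit 12704092), (nat_lit 68700), (nat_lit 83174), (nat_lit 12590493), (nat_lit 12590492), (nat_lit 58771552), (nat_lit 58720296), (nat_lit 58726550), (nat_lit 58726752)], [(nat_lit 24), (nat_lit 12634202), (nat_lit 12589402), (nat_lit 12589396), (nat_lit 1186), (nat_lit 12650588), (nat_lit 12590428), (nat_lit 12584090), (nat_lit 83170), (nat_lit 13257820), (nat_lit 12674460), (nat_lit 12666074), (nat_lit 62914602), (nat_lit 62965858), (nat_lit 62921058), (nat_lit 62920856)], [(nat_lit 136643), (nat_lit 2134083), (nat_lit 8773), (nat_lit 69289224), (nat_lit 67245516), (nat_lit 69242956), (nat_lit 14763277),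 (nat_lit 67192072), (nat_lit 67114444), (nat_lit 67145804), (nat_lit 12666125), (nat_lit 478), (nat_lit 481), (nat_lit 4193), (nat_lit 14177575)], [(nat_lit 8772), (nat_lit 14716995), (nat_lit 71439819), (nat_lit 73483527), (nat_lit 71303823), (nat_lit 73437259), (nat_lit 71308747), (nat_lit 71386375), (nat_lit 71312911), (nat_lit 71340107), (nat_lit 479), (nat_lit 71669018), (nat_lit 71303205), (nat_lit 12587103)], [(nat_lit 12719555), (nat_lit 77631563), (nat_lit 75498127), (nat_lit 77677831), (nat_lit 75634123), (nat_lit 75534411), (nat_lit 75507215), (nat_lit 75580679), (nat_lit 75503051), (nat_lit 4191), (nat_lit 75497509), (nat_lit 75863322), (nat_lit 12583391)], [(nat_lit 2180365), (nat_lit 81825868), (nat_lit 79828428), (nat_lit 81872136), (nat_lit 83213), (nat_lit 79728716), (nat_lit 79697356), (nat_lit 79774984), (nat_lit 1594663), (nat_lit 12587105), (nat_lit 12583393), (nat_lit 12583390)], [(nat_lit 105805), (nat_lit 854093), (nat_lit 105810), (nat_lit 2180378), (nat_lit 8668), (nat_lit 135260), (nat_lit 14763298), (nat_lit 83991704),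 (nat_lit 83991906), (nat_lit 84740194), (nat_lit 83886762)], [(nat_lit 105616), (nat_lit 13437005), (nat_lit 476), (nat_lit 477), (nat_lit 14763302), (nat_lit 12587100), (nat_lit 88186208), (nat_lit 88186006), (nat_lit 88081064), (nat_lit 88934496)], [(nat_lit 12688717), (nat_lit 4188), (nat_lit 2180390), (nat_lit 12583389), (nat_lit 12583388), (nat_lit 93128800), (nat_lit 92275368), (nat_lit 92380310), (nat_lit 92380512)], [(nat_lit 2180386), (nat_lit 12718172), (nat_lit 12591580), (nat_lit 14763290), (nat_lit 96469674), (nat_lit 97323106), (nat_lit 96574818), (nat_lit 96574616)], [(nat_lit 9613), (nat_lit 150605), (nat_lit 9618), (nat_lit 102014168), (nat_lit 100672930), (nat_lit 100813922), (nat_lit 100673066)], [(nat_lit 1350864), (nat_lit 12733517), (nat_lit 104867232), (nat_lit 106208470), (nat_lit 104867368), (nat_lit 105008224)], [(nat_lit 12592525), (nat_lit 109202528), (nat_lit 109061672), (nat_lit 110402774), (nat_lit 109061536)], [(nat_lit 113255978), (nat_lit 113396834), (nat_lit 113255842), (nat_lit 114597080)], [(nat_lit 121187),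 (nat_lit 1099875), (nat_lit 121198)], [(nat_lit 333995), (nat_lit 13682787)], [(nat_lit 12704099)], []],
   [[(nat_lit 16777217), (nat_lit 16777218), (nat_lit 99458), (nat_lit 6467), (nat_lit 16780424), (nat_lit 526), (nat_lit 16783681), (nat_lit 20977986), (nat_lit 16813126), (nat_lit 16777736), (nat_lit 1688706), (nat_lit 105795), (nat_lit 16830600), (nat_lit 8782), (nat_lit 16883009), (nat_lit 21077314), (nat_lit 18911302), (nat_lit 16785992), (nat_lit 17111176), (nat_lit 91534), (nat_lit 16845975), (nat_lit 9764), (nat_lit 16817350), (nat_lit 16868744), (nat_lit 16927827), (nat_lit 16786967)], [(nat_lit 16777282), (nat_lit 3202), (nat_lit 16876680), (nat_lit 51267), (nat_lit 8270), (nat_lit 16828481), (nat_lit 16782726), (nat_lit 25217090), (nat_lit 16785480), (nat_lit 53378), (nat_lit 18465928), (nat_lit 854083), (nat_lit 140366), (nat_lit 17631297), (nat_lit 16913862), (nat_lit 26019906), (nat_lit 16917576), (nat_lit 16849032), (nat_lit 18711703), (nat_lit 674894), (nat_lit 155748), (nat_lit 17390790), (nat_lit 16786835), (nat_lit 17452104),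 (nat_lit 16932951)], [(nat_lit 1160), (nat_lit 332), (nat_lit 2124), (nat_lit 29361293), (nat_lit 16777222), (nat_lit 16777735), (nat_lit 16785479), (nat_lit 29360137), (nat_lit 165000), (nat_lit 10572), (nat_lit 165964), (nat_lit 29525133), (nat_lit 16777862), (nat_lit 16785991), (nat_lit 16917575), (nat_lit 29360777), (nat_lit 16898398), (nat_lit 16898401), (nat_lit 17877089), (nat_lit 29366439), (nat_lit 16786836), (nat_lit 16786837), (nat_lit 16927829), (nat_lit 16786968)], [(nat_lit 1218), (nat_lit 194), (nat_lit 83144), (nat_lit 6272), (nat_lit 33560707), (nat_lit 33577091), (nat_lit 33555598), (nat_lit 333953), (nat_lit 454), (nat_lit 4166), (nat_lit 8787), (nat_lit 17111170), (nat_lit 115848), (nat_lit 4232), (nat_lit 165015), (nat_lit 33674434), (nat_lit 1459400), (nat_lit 42184), (nat_lit 2442455), (nat_lit 33888387), (nat_lit 33670286), (nat_lit 33558670), (nat_lit 33719460)], [(nat_lit 83143), (nat_lit 5513), (nat_lit 50337923), (nat_lit 389), (nat_lit 16798924), (nat_lit 37848205), (nat_lit 7558), (nat_lit 91527), (nat_lit 596), (nat_lit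 597), (nat_lit 18711688), (nat_lit 16898380), (nat_lit 10590), (nat_lit 10593), (nat_lit 1459399), (nat_lit 37756297), (nat_lit 9429), (nat_lit 152984), (nat_lit 18633932), (nat_lit 39683213), (nat_lit 70881), (nat_lit 37748903)], [(nat_lit 35913), (nat_lit 50354307), (nat_lit 21708), (nat_lit 3141), (nat_lit 41946253), (nat_lit 68678), (nat_lit 9748), (nat_lit 674887), (nat_lit 9301), (nat_lit 16845960), (nat_lit 16777566), (nat_lit 17877068), (nat_lit 165985), (nat_lit 42183), (nat_lit 148693), (nat_lit 42011721), (nat_lit 2395224), (nat_lit 16848076), (nat_lit 1856737), (nat_lit 42011789), (nat_lit 41944231)], [(nat_lit 50332814), (nat_lit 54625421), (nat_lit 58723469), (nat_lit 529), (nat_lit 531), (nat_lit 9749), (nat_lit 155733), (nat_lit 9750), (nat_lit 16778391), (nat_lit 16777569), (nat_lit 16779361), (nat_lit 16777257), (nat_lit 2442453), (nat_lit 152982), (nat_lit 2395222), (nat_lit 46137881), (nat_lit 16798945), (nat_lit 16777641), (nat_lit 16780393), (nat_lit 46138531)], [(nat_lit 16778434), (nat_lit 16777410), (nat_lit 16860360),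 (nat_lit 333954), (nat_lit 16893064), (nat_lit 16781448), (nat_lit 16942231), (nat_lit 17111169), (nat_lit 16777670), (nat_lit 16781382), (nat_lit 16786003), (nat_lit 50665603), (nat_lit 50447502), (nat_lit 50335886), (nat_lit 50496676), (nat_lit 50451650), (nat_lit 18236616), (nat_lit 16819400), (nat_lit 19219671)], [(nat_lit 16860359), (nat_lit 16782729), (nat_lit 1934472), (nat_lit 121164), (nat_lit 16787806), (nat_lit 16787809), (nat_lit 16784774), (nat_lit 16868743), (nat_lit 16777812), (nat_lit 16777813), (nat_lit 1856716), (nat_lit 56460429), (nat_lit 16848097), (nat_lit 54526119), (nat_lit 18236615), (nat_lit 54533513), (nat_lit 16786645), (nat_lit 16930200)], [(nat_lit 16813129), (nat_lit 68744), (nat_lit 350), (nat_lit 1099852), (nat_lit 16943201), (nat_lit 16845894), (nat_lit 16786964), (nat_lit 17452103), (nat_lit 16786517), (nat_lit 70860), (nat_lit 18633953), (nat_lit 58789005), (nat_lit 58721447), (nat_lit 16819399), (nat_lit 16925909), (nat_lit 58788937), (nat_lit 19172440)], [(nat_lit 1175), (nat_lit 353), (nat_lit 2145), (nat_lit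 41), (nat_lit 16777747), (nat_lit 16786965), (nat_lit 16932949), (nat_lit 16786966), (nat_lit 21729), (nat_lit 425), (nat_lit 3177), (nat_lit 62915747), (nat_lit 19219669), (nat_lit 16930198), (nat_lit 19172438), (nat_lit 62915097)], [(nat_lit 99586), (nat_lit 3330), (nat_lit 2180360), (nat_lit 105600), (nat_lit 67214467), (nat_lit 67918979), (nat_lit 67273870), (nat_lit 67474690), (nat_lit 132360), (nat_lit 8456), (nat_lit 83223), (nat_lit 67165315), (nat_lit 69043342), (nat_lit 67177614), (nat_lit 67110052)], [(nat_lit 2180359), (nat_lit 136649), (nat_lit 83991683), (nat_lit 6597), (nat_lit 18371852), (nat_lit 72991885), (nat_lit 132359), (nat_lit 71303625), (nat_lit 41237), (nat_lit 5592), (nat_lit 16798988), (nat_lit 71419021), (nat_lit 5409), (nat_lit 71313575)], [(nat_lit 2134089), (nat_lit 84696195), (nat_lit 1594636), (nat_lit 53317), (nat_lit 75550861), (nat_lit 8455), (nat_lit 1443093), (nat_lit 75501641), (nat_lit 36952), (nat_lit 16782604), (nat_lit 21793), (nat_lit 75501709), (nat_lit 75662503)], [(nat_lit 84051086), (nat_lit 89769101),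 (nat_lit 92328077), (nat_lit 8785), (nat_lit 83221), (nat_lit 5590), (nat_lit 36950), (nat_lit 79700569), (nat_lit 18371873), (nat_lit 16783849), (nat_lit 16830569), (nat_lit 79856803)], [(nat_lit 16876802), (nat_lit 16780546), (nat_lit 18957576), (nat_lit 83942531), (nat_lit 85820558), (nat_lit 83954830), (nat_lit 83887268), (nat_lit 84251906), (nat_lit 16909576), (nat_lit 16785672), (nat_lit 16860439)], [(nat_lit 18957575), (nat_lit 16913865), (nat_lit 21772), (nat_lit 88196237), (nat_lit 16782625), (nat_lit 88090791), (nat_lit 16909575), (nat_lit 88080841), (nat_lit 16818453), (nat_lit 16782808)], [(nat_lit 18911305), (nat_lit 5388), (nat_lit 16799009), (nat_lit 92278925), (nat_lit 92439719), (nat_lit 16785671), (nat_lit 18220309), (nat_lit 92278857), (nat_lit 16814168)], [(nat_lit 1594657), (nat_lit 6633), (nat_lit 53353), (nat_lit 96634019), (nat_lit 16860437), (nat_lit 16782806), (nat_lit 16814166), (nat_lit 96477785)], [(nat_lit 40137), (nat_lit 613577), (nat_lit 1350872), (nat_lit 7365), (nat_lit 100997261), (nat_lit 100735117), (nat_lit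 102597799)], [(nat_lit 1350870), (nat_lit 9625), (nat_lit 117774477), (nat_lit 91537), (nat_lit 16784617), (nat_lit 106792099)], [(nat_lit 150617), (nat_lit 117512333), (nat_lit 7401), (nat_lit 674897), (nat_lit 109120675)], [(nat_lit 119375015), (nat_lit 123569315), (nat_lit 125897891), (nat_lit 9773)], [(nat_lit 16817353), (nat_lit 17390793), (nat_lit 18128088)], [(nat_lit 18128086), (nat_lit 16786841)], [(nat_lit 16927833)], []],
   [[(nat_lit 20971523), (nat_lit 1159), (nat_lit 331), (nat_lit 2123), (nat_lit 527), (nat_lit 20971530), (nat_lit 20971527), (nat_lit 25165895), (nat_lit 25165835), (nat_lit 164999), (nat_lit 10571), (nat_lit 165963), (nat_lit 8783), (nat_lit 20972170), (nat_lit 20972167), (nat_lit 25176135), (nat_lit 25166475), (nat_lit 333978), (nat_lit 21092703), (nat_lit 26265695), (nat_lit 9765), (nat_lit 20981147), (nat_lit 20981146), (nat_lit 25316442), (nat_lit 20981279)], [(nat_lit 329), (nat_lit 21070983), (nat_lit 77), (nat_lit 29360268), (nat_lit 20977991), (nat_lit 20971846), (nat_lit 29360140), (nat_lit 29360200), (nat_lit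 10569), (nat_lit 22660231), (nat_lit 10317), (nat_lit 29370508), (nat_lit 21077319), (nat_lit 20982086), (nat_lit 29360780), (nat_lit 29370440), (nat_lit 21092696), (nat_lit 21305493), (nat_lit 35943), (nat_lit 21040289), (nat_lit 21063061), (nat_lit 21063060), (nat_lit 20981281), (nat_lit 20981278)], [(nat_lit 387), (nat_lit 33555656), (nat_lit 5516), (nat_lit 6275), (nat_lit 6469), (nat_lit 33560716), (nat_lit 20972749), (nat_lit 121158), (nat_lit 7495), (nat_lit 8788), (nat_lit 8789), (nat_lit 115847), (nat_lit 21092681), (nat_lit 53397), (nat_lit 10584), (nat_lit 33670344), (nat_lit 33561996), (nat_lit 152990), (nat_lit 152993), (nat_lit 33675404), (nat_lit 21087437), (nat_lit 1071265), (nat_lit 20973799)], [(nat_lit 5515), (nat_lit 37749959), (nat_lit 6468), (nat_lit 20977795), (nat_lit 37749071), (nat_lit 37755019), (nat_lit 121159), (nat_lit 121162), (nat_lit 8794), (nat_lit 8795), (nat_lit 21092683), (nat_lit 22905991), (nat_lit 10591), (nat_lit 21024922), (nat_lit 37756299), (nat_lit 37864647), (nat_lit 152991), (nat_lit 37758170), (nat_lit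 37756239), (nat_lit 37869707), (nat_lit 37759333), (nat_lit 22042783)], [(nat_lit 525), (nat_lit 50337931), (nat_lit 1229), (nat_lit 3213), (nat_lit 530), (nat_lit 532), (nat_lit 538), (nat_lit 90), (nat_lit 604), (nat_lit 3226), (nat_lit 20971864), (nat_lit 854108), (nat_lit 20971618), (nat_lit 1242), (nat_lit 9628), (nat_lit 41978968), (nat_lit 41943586), (nat_lit 71836), (nat_lit 20972770), (nat_lit 41946274), (nat_lit 41943402)], [(nat_lit 50331983), (nat_lit 54532236), (nat_lit 35920), (nat_lit 20974733), (nat_lit 533), (nat_lit 539), (nat_lit 9756), (nat_lit 9757), (nat_lit 20971871), (nat_lit 20974741), (nat_lit 20971622), (nat_lit 21022812), (nat_lit 152988), (nat_lit 152989), (nat_lit 46137888), (nat_lit 46173270), (nat_lit 20972774), (nat_lit 22042780), (nat_lit 46137704), (nat_lit 46140576)], [(nat_lit 20971907), (nat_lit 50332871), (nat_lit 20977035), (nat_lit 1934471), (nat_lit 121163), (nat_lit 53402), (nat_lit 20982111), (nat_lit 21092682), (nat_lit 21092679), (nat_lit 20980315), (nat_lit 20980314), (nat_lit 50452619), (nat_lit 50339151),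 (nat_lit 1071263), (nat_lit 50342245), (nat_lit 50447559), (nat_lit 50339211), (nat_lit 50341082), (nat_lit 21124511)], [(nat_lit 20977036), (nat_lit 54527176), (nat_lit 121161), (nat_lit 21087367), (nat_lit 20982104), (nat_lit 21024917), (nat_lit 20979015), (nat_lit 21092678), (nat_lit 20980309), (nat_lit 20980308), (nat_lit 115917), (nat_lit 54646924), (nat_lit 2279), (nat_lit 22042785), (nat_lit 54533516), (nat_lit 54641864), (nat_lit 21124513), (nat_lit 21124510)], [(nat_lit 20972045), (nat_lit 3221), (nat_lit 351), (nat_lit 51292), (nat_lit 102), (nat_lit 20972059), (nat_lit 20972053), (nat_lit 20981277), (nat_lit 20981276), (nat_lit 1071260), (nat_lit 1254), (nat_lit 58723488), (nat_lit 58720616), (nat_lit 21124509), (nat_lit 21124508), (nat_lit 58756182), (nat_lit 58720800)], [(nat_lit 344), (nat_lit 20974746), (nat_lit 98), (nat_lit 21825628), (nat_lit 20972058), (nat_lit 20972052), (nat_lit 20972124), (nat_lit 20971610), (nat_lit 1250), (nat_lit 21043356), (nat_lit 62914922), (nat_lit 62917794), (nat_lit 20981148), (nat_lit 20972762),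 (nat_lit 62915106), (nat_lit 62950488)], [(nat_lit 6595), (nat_lit 67208456), (nat_lit 136652), (nat_lit 105603), (nat_lit 105797), (nat_lit 67214476), (nat_lit 21071117), (nat_lit 67110152), (nat_lit 67109324), (nat_lit 5598), (nat_lit 5601), (nat_lit 67116172), (nat_lit 20972813), (nat_lit 23713), (nat_lit 21104935)], [(nat_lit 136651), (nat_lit 71402759), (nat_lit 105796), (nat_lit 21077123), (nat_lit 71313743), (nat_lit 71408779), (nat_lit 71303627), (nat_lit 71304455), (nat_lit 5599), (nat_lit 71344410), (nat_lit 71424335), (nat_lit 71310475), (nat_lit 71303525), (nat_lit 20995231)], [(nat_lit 8781), (nat_lit 83991691), (nat_lit 99597), (nat_lit 53389), (nat_lit 8786), (nat_lit 99610), (nat_lit 90588), (nat_lit 77631576), (nat_lit 75506274), (nat_lit 318620), (nat_lit 21071138), (nat_lit 75550882), (nat_lit 75508074)], [(nat_lit 83896655), (nat_lit 88185996), (nat_lit 2134096), (nat_lit 21024909), (nat_lit 5596), (nat_lit 5597), (nat_lit 79700576), (nat_lit 81825878), (nat_lit 21071142), (nat_lit 20995228), (nat_lit 79702376), (nat_lit 79745184)],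 [(nat_lit 20978115), (nat_lit 83985671), (nat_lit 21108171), (nat_lit 83893387), (nat_lit 84007247), (nat_lit 23711), (nat_lit 83886437), (nat_lit 83887367), (nat_lit 83886539), (nat_lit 83927322), (nat_lit 20977119)], [(nat_lit 21108172), (nat_lit 88179976), (nat_lit 1293), (nat_lit 88087692), (nat_lit 133415), (nat_lit 20995233), (nat_lit 88080844), (nat_lit 88081672), (nat_lit 20977121), (nat_lit 20977118)], [(nat_lit 20980301), (nat_lit 23708), (nat_lit 99622), (nat_lit 92328096), (nat_lit 92285288), (nat_lit 20977117), (nat_lit 20977116), (nat_lit 94408790), (nat_lit 92283488)], [(nat_lit 99618), (nat_lit 21290140), (nat_lit 96479594), (nat_lit 96522402), (nat_lit 21062108), (nat_lit 21071130), (nat_lit 96477794), (nat_lit 98603096)], [(nat_lit 91533), (nat_lit 100703448), (nat_lit 9634), (nat_lit 333965), (nat_lit 91538), (nat_lit 100997282), (nat_lit 100784490)], [(nat_lit 9632), (nat_lit 104897750), (nat_lit 40144), (nat_lit 21305485), (nat_lit 104978792), (nat_lit 105191584)], [(nat_lit 9763), (nat_lit 117774496), (nat_lit 121756010),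 (nat_lit 68771), (nat_lit 9774)], [(nat_lit 117561704), (nat_lit 121968802), (nat_lit 150635), (nat_lit 21040291)], [(nat_lit 21063053), (nat_lit 117480662), (nat_lit 20981152)], [(nat_lit 20981154), (nat_lit 121674968)], [(nat_lit 20981283)], []],
   [[(nat_lit 2121), (nat_lit 13), (nat_lit 25169031), (nat_lit 29361292), (nat_lit 25217095), (nat_lit 29360204), (nat_lit 25167942), (nat_lit 29360136), (nat_lit 165961), (nat_lit 653), (nat_lit 25219207), (nat_lit 29525132), (nat_lit 26019911), (nat_lit 29370444), (nat_lit 25331782), (nat_lit 29360776), (nat_lit 26265688), (nat_lit 5543), (nat_lit 25237653), (nat_lit 27100321), (nat_lit 25840725), (nat_lit 25321569), (nat_lit 25840724), (nat_lit 25321566)], [(nat_lit 33554632), (nat_lit 3139), (nat_lit 35916), (nat_lit 22659), (nat_lit 6284), (nat_lit 51269), (nat_lit 25166029), (nat_lit 1099846), (nat_lit 660), (nat_lit 67655), (nat_lit 140373), (nat_lit 4231), (nat_lit 1688725), (nat_lit 26265673), (nat_lit 165976), (nat_lit 33558728), (nat_lit 33559966), (nat_lit 33623116), (nat_lit 2395233), (nat_lit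 34625676), (nat_lit 120993), (nat_lit 25170125), (nat_lit 25248999)], [(nat_lit 35915), (nat_lit 8269), (nat_lit 6283), (nat_lit 99469), (nat_lit 205), (nat_lit 18), (nat_lit 20), (nat_lit 26), (nat_lit 8282), (nat_lit 8796), (nat_lit 99482), (nat_lit 105820), (nat_lit 25167960), (nat_lit 25165858), (nat_lit 218), (nat_lit 37754264), (nat_lit 150620), (nat_lit 37757026), (nat_lit 333980), (nat_lit 37848226), (nat_lit 25166050), (nat_lit 25171370)], [(nat_lit 41943239), (nat_lit 51268), (nat_lit 41945167), (nat_lit 25188483), (nat_lit 25172107), (nat_lit 1099847), (nat_lit 140378), (nat_lit 1099850), (nat_lit 140379), (nat_lit 26265675), (nat_lit 165983), (nat_lit 25234567), (nat_lit 26854554), (nat_lit 42011723), (nat_lit 2395231), (nat_lit 41947335), (nat_lit 42091738), (nat_lit 42010703), (nat_lit 42109029), (nat_lit 43014283), (nat_lit 25286815)], [(nat_lit 50333775), (nat_lit 5520), (nat_lit 25172108), (nat_lit 25265293), (nat_lit 8277), (nat_lit 540), (nat_lit 8283), (nat_lit 155741), (nat_lit 25167967), (nat_lit 25165862), (nat_lit 25265301),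 (nat_lit 25172316), (nat_lit 2395228), (nat_lit 46145632), (nat_lit 46142877), (nat_lit 46142870), (nat_lit 25166054), (nat_lit 46139496), (nat_lit 25286812), (nat_lit 46236832)], [(nat_lit 50331847), (nat_lit 25168963), (nat_lit 25201739), (nat_lit 68743), (nat_lit 1688730), (nat_lit 1099851), (nat_lit 25331807), (nat_lit 26265674), (nat_lit 25306203), (nat_lit 26265671), (nat_lit 25306202), (nat_lit 51402891), (nat_lit 120991), (nat_lit 50399311), (nat_lit 50497637), (nat_lit 50335943), (nat_lit 50480346), (nat_lit 50400331), (nat_lit 27561055)], [(nat_lit 25201740), (nat_lit 25174093), (nat_lit 99477), (nat_lit 6492), (nat_lit 2143), (nat_lit 38), (nat_lit 25174107), (nat_lit 25321565), (nat_lit 25174101), (nat_lit 25166364), (nat_lit 120988), (nat_lit 54625440), (nat_lit 230), (nat_lit 54528104), (nat_lit 54531485), (nat_lit 54531478), (nat_lit 27561052), (nat_lit 54534240)], [(nat_lit 58720456), (nat_lit 1099849), (nat_lit 25331800), (nat_lit 25170055), (nat_lit 26854549), (nat_lit 25233479), (nat_lit 25306197), (nat_lit 26265670), (nat_lit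 25166484), (nat_lit 4301), (nat_lit 83175), (nat_lit 59791500), (nat_lit 25286817), (nat_lit 58788940), (nat_lit 27561057), (nat_lit 58724552), (nat_lit 58725790)], [(nat_lit 2136), (nat_lit 34), (nat_lit 25265306), (nat_lit 25271644), (nat_lit 25174106), (nat_lit 25174620), (nat_lit 25165844), (nat_lit 25165850), (nat_lit 226), (nat_lit 5546), (nat_lit 25499804), (nat_lit 63014050), (nat_lit 25316444), (nat_lit 62922850), (nat_lit 25166042), (nat_lit 62920088)], [(nat_lit 67112200), (nat_lit 53315), (nat_lit 2134092), (nat_lit 810115), (nat_lit 105612), (nat_lit 854085), (nat_lit 25169165), (nat_lit 67109128), (nat_lit 67245534), (nat_lit 67113036), (nat_lit 36961), (nat_lit 67132556), (nat_lit 7329), (nat_lit 25166093), (nat_lit 27346215)], [(nat_lit 2134091), (nat_lit 140365), (nat_lit 105611), (nat_lit 1688717), (nat_lit 3341), (nat_lit 658), (nat_lit 3354), (nat_lit 71439832), (nat_lit 659548), (nat_lit 71443554), (nat_lit 56476), (nat_lit 72991906), (nat_lit 25169186), (nat_lit 25302506)], [(nat_lit 75500807), (nat_lit 854084), (nat_lit 75663439),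 (nat_lit 25975939), (nat_lit 25271435), (nat_lit 75501643), (nat_lit 36959), (nat_lit 75497735), (nat_lit 76940570), (nat_lit 76597327), (nat_lit 75499621), (nat_lit 75521163), (nat_lit 25173151)], [(nat_lit 84052047), (nat_lit 136656), (nat_lit 25271436), (nat_lit 26854541), (nat_lit 36956), (nat_lit 79832160), (nat_lit 79828445), (nat_lit 79828438), (nat_lit 25169190), (nat_lit 79857768), (nat_lit 25173148), (nat_lit 81380512)], [(nat_lit 83889415), (nat_lit 25219139), (nat_lit 27299915), (nat_lit 83909771), (nat_lit 7327), (nat_lit 84985935), (nat_lit 83888229), (nat_lit 83886343), (nat_lit 85329178), (nat_lit 83890251), (nat_lit 25202783)], [(nat_lit 27299916), (nat_lit 25306189), (nat_lit 7324), (nat_lit 89769120), (nat_lit 3366), (nat_lit 88246376), (nat_lit 88217053), (nat_lit 88217046), (nat_lit 25202780), (nat_lit 88220768)], [(nat_lit 92278024), (nat_lit 269), (nat_lit 2180391), (nat_lit 92298380), (nat_lit 25173153), (nat_lit 92278860), (nat_lit 25202785), (nat_lit 92274952), (nat_lit 92411358)], [(nat_lit 3362), (nat_lit 136682), (nat_lit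 25222300), (nat_lit 98157730), (nat_lit 25825372), (nat_lit 96609378), (nat_lit 25169178), (nat_lit 96605656)], [(nat_lit 101276888), (nat_lit 674893), (nat_lit 150626), (nat_lit 71821), (nat_lit 333986), (nat_lit 674898), (nat_lit 101763178)], [(nat_lit 150624), (nat_lit 155747), (nat_lit 333984), (nat_lit 1934499), (nat_lit 126929002), (nat_lit 155758)], [(nat_lit 109665494), (nat_lit 613584), (nat_lit 110151784), (nat_lit 25237645), (nat_lit 25499808)], [(nat_lit 118540392), (nat_lit 9643), (nat_lit 25499810), (nat_lit 27100323)], [(nat_lit 118054102), (nat_lit 25840717), (nat_lit 25316448)], [(nat_lit 25316450), (nat_lit 25321571)], [(nat_lit 126442712)], []],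
   [[(nat_lit 14), (nat_lit 78), (nat_lit 46220493), (nat_lit 1166), (nat_lit 54527181), (nat_lit 58720461), (nat_lit 17), (nat_lit 19), (nat_lit 661), (nat_lit 10325), (nat_lit 662), (nat_lit 165013), (nat_lit 10582), (nat_lit 165974), (nat_lit 29360153), (nat_lit 33637591), (nat_lit 33559969), (nat_lit 33590369), (nat_lit 33554985), (nat_lit 33560737), (nat_lit 33560937), (nat_lit 33605737), (nat_lit 29443299)], [(nat_lit 15), (nat_lit 46139596), (nat_lit 335), (nat_lit 54547660), (nat_lit 2128), (nat_lit 37748941), (nat_lit 21), (nat_lit 27), (nat_lit 668), (nat_lit 669), (nat_lit 10588), (nat_lit 10589), (nat_lit 29360160), (nat_lit 29362262), (nat_lit 37754271), (nat_lit 37748949), (nat_lit 37757030), (nat_lit 37751900), (nat_lit 37848230), (nat_lit 37771420), (nat_lit 29365672), (nat_lit 29360352)], [(nat_lit 46220492), (nat_lit 2127), (nat_lit 336), (nat_lit 41964748), (nat_lit 41944269), (nat_lit 85), (nat_lit 28), (nat_lit 91), (nat_lit 10333), (nat_lit 165980), (nat_lit 29360224), (nat_lit 29360477), (nat_lit 29360470), (nat_lit 41978975),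 (nat_lit 41943590), (nat_lit 41944277), (nat_lit 41943452), (nat_lit 41946278), (nat_lit 29396072), (nat_lit 41949340), (nat_lit 29361376)], [(nat_lit 16), (nat_lit 29362255), (nat_lit 29360463), (nat_lit 29361294), (nat_lit 22), (nat_lit 29), (nat_lit 93), (nat_lit 29361307), (nat_lit 1184), (nat_lit 29362268), (nat_lit 29360476), (nat_lit 29361301), (nat_lit 83168), (nat_lit 46173276), (nat_lit 46142876), (nat_lit 46220501), (nat_lit 6312), (nat_lit 46188646), (nat_lit 46143846), (nat_lit 46143647)], [(nat_lit 50414796), (nat_lit 50333900), (nat_lit 50414797), (nat_lit 1173), (nat_lit 348), (nat_lit 2140), (nat_lit 29361312), (nat_lit 1179), (nat_lit 29360221), (nat_lit 29360157), (nat_lit 29360150), (nat_lit 50337951), (nat_lit 50338150), (nat_lit 50382950), (nat_lit 29366440), (nat_lit 50414805), (nat_lit 50337180), (nat_lit 50367580), (nat_lit 29443296)], [(nat_lit 29360143), (nat_lit 29360206), (nat_lit 342), (nat_lit 349), (nat_lit 96), (nat_lit 29526108), (nat_lit 29370461), (nat_lit 29360219), (nat_lit 29360156), (nat_lit 29360213), (nat_lit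 1248), (nat_lit 54532252), (nat_lit 35944), (nat_lit 54529190), (nat_lit 54526364), (nat_lit 54527189), (nat_lit 54526502), (nat_lit 54561887)], [(nat_lit 29360142), (nat_lit 2134), (nat_lit 32), (nat_lit 29370717), (nat_lit 29370716), (nat_lit 29360797), (nat_lit 29360796), (nat_lit 29360155), (nat_lit 29360149), (nat_lit 224), (nat_lit 5544), (nat_lit 58742940), (nat_lit 58819750), (nat_lit 58723420), (nat_lit 58728550), (nat_lit 58720469), (nat_lit 58725791)], [(nat_lit 25), (nat_lit 29526102), (nat_lit 29370710), (nat_lit 29525141), (nat_lit 29360790), (nat_lit 29370453), (nat_lit 29360789), (nat_lit 29360147), (nat_lit 83171), (nat_lit 62965865), (nat_lit 62921065), (nat_lit 62920865), (nat_lit 62915113), (nat_lit 62950497), (nat_lit 62920097), (nat_lit 62997719)], [(nat_lit 654), (nat_lit 10318), (nat_lit 81872141), (nat_lit 165006), (nat_lit 88179981), (nat_lit 92278029), (nat_lit 657), (nat_lit 69289239), (nat_lit 67245537), (nat_lit 69242977), (nat_lit 67117673), (nat_lit 67214497), (nat_lit 67214697), (nat_lit 67962985), (nat_lit 31540515)],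 [(nat_lit 655), (nat_lit 79825164), (nat_lit 10575), (nat_lit 89675020), (nat_lit 165968), (nat_lit 71306509), (nat_lit 71439839), (nat_lit 71306517), (nat_lit 71443558), (nat_lit 71356508), (nat_lit 72991910), (nat_lit 72113308), (nat_lit 29496808), (nat_lit 29363488)], [(nat_lit 81872140), (nat_lit 165967), (nat_lit 10576), (nat_lit 77092108), (nat_lit 75597069), (nat_lit 77631583), (nat_lit 75506278), (nat_lit 75597077), (nat_lit 75504092), (nat_lit 75550886), (nat_lit 31494248), (nat_lit 75603100), (nat_lit 29459744)], [(nat_lit 656), (nat_lit 29526095), (nat_lit 29370703), (nat_lit 29525134), (nat_lit 2180384), (nat_lit 81825884), (nat_lit 79828444), (nat_lit 81872149), (nat_lit 105640), (nat_lit 80545894), (nat_lit 79797606), (nat_lit 79797407)], [(nat_lit 86066444), (nat_lit 84019468), (nat_lit 86066445), (nat_lit 83991711), (nat_lit 83991910), (nat_lit 84740198), (nat_lit 29465768), (nat_lit 86066453), (nat_lit 84022748), (nat_lit 86020188), (nat_lit 31540512)], [(nat_lit 29360783), (nat_lit 29370446), (nat_lit 99616), (nat_lit 88186012),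 (nat_lit 2134120), (nat_lit 88133798), (nat_lit 88087004), (nat_lit 88179989), (nat_lit 88089190), (nat_lit 90214495)], [(nat_lit 29360782), (nat_lit 3360), (nat_lit 136680), (nat_lit 93084828), (nat_lit 93963430), (nat_lit 92328028), (nat_lit 92415078), (nat_lit 92278037), (nat_lit 92411359)], [(nat_lit 2180387), (nat_lit 97323113), (nat_lit 96574825), (nat_lit 96574625), (nat_lit 96477801), (nat_lit 98603105), (nat_lit 96605665), (nat_lit 98649367)], [(nat_lit 9767), (nat_lit 155751), (nat_lit 9770), (nat_lit 1934503), (nat_lit 121194), (nat_lit 1099882), (nat_lit 83182)], [(nat_lit 9768), (nat_lit 113335529), (nat_lit 121192), (nat_lit 121642217), (nat_lit 674924), (nat_lit 30460010)], [(nat_lit 114597097), (nat_lit 1099880), (nat_lit 91564), (nat_lit 109059305), (nat_lit 29481322)], [(nat_lit 9644), (nat_lit 30460008), (nat_lit 29481320), (nat_lit 31294631)], [(nat_lit 118791401), (nat_lit 117529833), (nat_lit 29369898)], [(nat_lit 29369896), (nat_lit 29515879)], [(nat_lit 29369895)], []],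
   [[(nat_lit 33554945), (nat_lit 33554946), (nat_lit 33560897), (nat_lit 33560898), (nat_lit 33556550), (nat_lit 33554440), (nat_lit 148674), (nat_lit 9603), (nat_lit 33563848), (nat_lit 590), (nat_lit 33674440), (nat_lit 7502), (nat_lit 33558743), (nat_lit 676), (nat_lit 33564033), (nat_lit 37758338), (nat_lit 33591366), (nat_lit 33555016), (nat_lit 33561734), (nat_lit 33561928), (nat_lit 34408531), (nat_lit 33555095)], [(nat_lit 33562690), (nat_lit 33605697), (nat_lit 33554758), (nat_lit 33605698), (nat_lit 33554504), (nat_lit 9410), (nat_lit 33703112), (nat_lit 150595), (nat_lit 9294), (nat_lit 33936584), (nat_lit 33670359), (nat_lit 67662), (nat_lit 10340), (nat_lit 33705025), (nat_lit 33560006), (nat_lit 42093634), (nat_lit 33563720), (nat_lit 33578118), (nat_lit 33660243), (nat_lit 33622088), (nat_lit 33564759)], [(nat_lit 33554438), (nat_lit 33554439), (nat_lit 33554503), (nat_lit 33554441), (nat_lit 2442440), (nat_lit 152972), (nat_lit 2395212), (nat_lit 48579789), (nat_lit 33562014), (nat_lit 33562017), (nat_lit 33623137), (nat_lit 46159079),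 (nat_lit 33564166), (nat_lit 33555015), (nat_lit 33563719), (nat_lit 46147081), (nat_lit 33660244), (nat_lit 33660245), (nat_lit 34408533), (nat_lit 33555096)], [(nat_lit 33653890), (nat_lit 33557634), (nat_lit 33555592), (nat_lit 120002), (nat_lit 35013832), (nat_lit 33596616), (nat_lit 35996887), (nat_lit 333955), (nat_lit 115854), (nat_lit 4238), (nat_lit 165028), (nat_lit 33888385), (nat_lit 33554886), (nat_lit 33558598), (nat_lit 33563219), (nat_lit 50665602), (nat_lit 33670280), (nat_lit 33558664), (nat_lit 33719447)], [(nat_lit 33555591), (nat_lit 33554761), (nat_lit 115912), (nat_lit 7564), (nat_lit 33707422), (nat_lit 33707425), (nat_lit 120972), (nat_lit 54641869), (nat_lit 34625697), (nat_lit 54528231), (nat_lit 33675590), (nat_lit 33561927), (nat_lit 33563220), (nat_lit 33563221), (nat_lit 33670279), (nat_lit 54647113), (nat_lit 33607829), (nat_lit 33565016)], [(nat_lit 33556553), (nat_lit 4296), (nat_lit 5534), (nat_lit 68684), (nat_lit 35949665), (nat_lit 1071244), (nat_lit 33675425), (nat_lit 58724557), (nat_lit 58803431), (nat_lit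 34654278), (nat_lit 33555092), (nat_lit 33622087), (nat_lit 33694805), (nat_lit 33558663), (nat_lit 35243157), (nat_lit 59820105), (nat_lit 33720408)], [(nat_lit 83159), (nat_lit 5537), (nat_lit 35937), (nat_lit 553), (nat_lit 6305), (nat_lit 6505), (nat_lit 51305), (nat_lit 62997731), (nat_lit 33554451), (nat_lit 33555093), (nat_lit 33564757), (nat_lit 33555094), (nat_lit 33719445), (nat_lit 33565014), (nat_lit 33720406), (nat_lit 62914585)], [(nat_lit 1443074), (nat_lit 41218), (nat_lit 83208), (nat_lit 365826), (nat_lit 1288), (nat_lit 264), (nat_lit 2180375), (nat_lit 1350848), (nat_lit 68459715), (nat_lit 67198147), (nat_lit 69551310), (nat_lit 67116227), (nat_lit 67224782), (nat_lit 67113166), (nat_lit 67192036)], [(nat_lit 83207), (nat_lit 5577), (nat_lit 1287), (nat_lit 457), (nat_lit 3349), (nat_lit 136664), (nat_lit 102014147), (nat_lit 90565), (nat_lit 33593612), (nat_lit 71451853), (nat_lit 34904332), (nat_lit 72762573), (nat_lit 88353), (nat_lit 71452903)], [(nat_lit 36937), (nat_lit 263), (nat_lit 99605), (nat_lit 4169), (nat_lit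 2134104), (nat_lit 100752579), (nat_lit 39180), (nat_lit 659525), (nat_lit 75506893), (nat_lit 33642764), (nat_lit 1349921), (nat_lit 75539661), (nat_lit 77939943)], [(nat_lit 2180373), (nat_lit 136662), (nat_lit 2134102), (nat_lit 8793), (nat_lit 103105742), (nat_lit 105006285), (nat_lit 109061325), (nat_lit 593), (nat_lit 33593633), (nat_lit 33645033), (nat_lit 34213993), (nat_lit 82134243)], [(nat_lit 7305), (nat_lit 23689), (nat_lit 105624), (nat_lit 100670659), (nat_lit 1349900), (nat_lit 88332), (nat_lit 39201), (nat_lit 56453), (nat_lit 84006093), (nat_lit 84268237), (nat_lit 84002023)], [(nat_lit 105622), (nat_lit 105817), (nat_lit 100779214), (nat_lit 106317005), (nat_lit 34904353), (nat_lit 90601), (nat_lit 117560525), (nat_lit 7505), (nat_lit 33610921), (nat_lit 88196323)], [(nat_lit 854105), (nat_lit 100667598), (nat_lit 33642785), (nat_lit 109094093), (nat_lit 659561), (nat_lit 117822669), (nat_lit 56489), (nat_lit 67665), (nat_lit 92279011)], [(nat_lit 100746468), (nat_lit 105007335), (nat_lit 111494375), (nat_lit 115688675), (nat_lit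 117556455), (nat_lit 121750755), (nat_lit 125833443), (nat_lit 685)], [(nat_lit 34997506), (nat_lit 33595650), (nat_lit 33637640), (nat_lit 33920258), (nat_lit 33555720), (nat_lit 33554696), (nat_lit 35734807)], [(nat_lit 33637639), (nat_lit 33560009), (nat_lit 33555719), (nat_lit 33554889), (nat_lit 33557781), (nat_lit 33691096)], [(nat_lit 33591369), (nat_lit 33554695), (nat_lit 33654037), (nat_lit 33558601), (nat_lit 35688536)], [(nat_lit 35734805), (nat_lit 33691094), (nat_lit 35688534), (nat_lit 33563225)], [(nat_lit 33561737), (nat_lit 33578121), (nat_lit 33660056)], [(nat_lit 33660054), (nat_lit 33660249)], [(nat_lit 34408537)], []],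
   [[(nat_lit 37749251), (nat_lit 37748746), (nat_lit 37749255), (nat_lit 41951303), (nat_lit 37748747), (nat_lit 2442439), (nat_lit 152971), (nat_lit 2395211), (nat_lit 591), (nat_lit 120026), (nat_lit 37756319), (nat_lit 42011743), (nat_lit 677), (nat_lit 37758474), (nat_lit 37758471), (nat_lit 42098759), (nat_lit 41952779), (nat_lit 37854555), (nat_lit 37854554), (nat_lit 42797146), (nat_lit 37749407)], [(nat_lit 37755207), (nat_lit 37754246), (nat_lit 37748748), (nat_lit 46145608), (nat_lit 152969), (nat_lit 37897415), (nat_lit 155725), (nat_lit 46287052), (nat_lit 37756312), (nat_lit 37868757), (nat_lit 2151), (nat_lit 37753057), (nat_lit 37758343), (nat_lit 37901702), (nat_lit 46147084), (nat_lit 46293064), (nat_lit 37756245), (nat_lit 37756244), (nat_lit 37749409), (nat_lit 37749406)], [(nat_lit 37755203), (nat_lit 50431111), (nat_lit 37749067), (nat_lit 115911), (nat_lit 7563), (nat_lit 9434), (nat_lit 37901727), (nat_lit 120971), (nat_lit 7503), (nat_lit 51402911), (nat_lit 10597), (nat_lit 37869898), (nat_lit 37869895), (nat_lit 37757531),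 (nat_lit 37757530), (nat_lit 52266119), (nat_lit 50452811), (nat_lit 50385050), (nat_lit 37759327)], [(nat_lit 37749068), (nat_lit 54625416), (nat_lit 7561), (nat_lit 39208135), (nat_lit 37901720), (nat_lit 37758165), (nat_lit 1934477), (nat_lit 56382668), (nat_lit 167), (nat_lit 37819617), (nat_lit 37840263), (nat_lit 37756294), (nat_lit 37749333), (nat_lit 37749332), (nat_lit 54647116), (nat_lit 56460424), (nat_lit 37759329), (nat_lit 37759326)], [(nat_lit 37748749), (nat_lit 213), (nat_lit 5535), (nat_lit 3164), (nat_lit 8294), (nat_lit 22684), (nat_lit 99494), (nat_lit 58720480), (nat_lit 58725800), (nat_lit 37748763), (nat_lit 37748757), (nat_lit 37749405), (nat_lit 37749404), (nat_lit 37759325), (nat_lit 37759324), (nat_lit 58722390), (nat_lit 58720288)], [(nat_lit 5528), (nat_lit 37748954), (nat_lit 8290), (nat_lit 37899356), (nat_lit 99490), (nat_lit 38082716), (nat_lit 62920106), (nat_lit 62914786), (nat_lit 37748762), (nat_lit 37748756), (nat_lit 37757532), (nat_lit 37757018), (nat_lit 37854556), (nat_lit 37848218), (nat_lit 62914594),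 (nat_lit 62916696)], [(nat_lit 90563), (nat_lit 68551944), (nat_lit 5580), (nat_lit 67241224), (nat_lit 460), (nat_lit 136670), (nat_lit 136673), (nat_lit 1350851), (nat_lit 9605), (nat_lit 68459724), (nat_lit 39191821), (nat_lit 67149004), (nat_lit 37881101), (nat_lit 613601), (nat_lit 37751079)], [(nat_lit 5579), (nat_lit 72746247), (nat_lit 459), (nat_lit 71435527), (nat_lit 136671), (nat_lit 71306522), (nat_lit 9604), (nat_lit 39099587), (nat_lit 71456143), (nat_lit 72654027), (nat_lit 71310735), (nat_lit 71343307), (nat_lit 71308709), (nat_lit 38362335)], [(nat_lit 589), (nat_lit 1443098), (nat_lit 6620), (nat_lit 75534424), (nat_lit 8802), (nat_lit 102014155), (nat_lit 1443085), (nat_lit 9421), (nat_lit 594), (nat_lit 23772), (nat_lit 39191842), (nat_lit 75506914), (nat_lit 75650474)], [(nat_lit 136668), (nat_lit 136669), (nat_lit 8800), (nat_lit 79728726), (nat_lit 100816271), (nat_lit 106208460), (nat_lit 36944), (nat_lit 37758157), (nat_lit 39191846), (nat_lit 38362332), (nat_lit 79844776), (nat_lit 79701216)], [(nat_lit 7501), (nat_lit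 83893400), (nat_lit 105826), (nat_lit 100703435), (nat_lit 132365), (nat_lit 613596), (nat_lit 1443106), (nat_lit 120013), (nat_lit 7506), (nat_lit 84006114), (nat_lit 83893674)], [(nat_lit 105824), (nat_lit 88087702), (nat_lit 100670863), (nat_lit 104897740), (nat_lit 1443110), (nat_lit 37772508), (nat_lit 7312), (nat_lit 37868749), (nat_lit 88087976), (nat_lit 88200416)], [(nat_lit 675), (nat_lit 613599), (nat_lit 2343), (nat_lit 109061344), (nat_lit 113399210), (nat_lit 117560544), (nat_lit 121642410), (nat_lit 4323), (nat_lit 686)], [(nat_lit 100668837), (nat_lit 38362337), (nat_lit 109204904), (nat_lit 113255650), (nat_lit 117448104), (nat_lit 121754850), (nat_lit 854123), (nat_lit 37753059)], [(nat_lit 37839299), (nat_lit 102106375), (nat_lit 37754315), (nat_lit 100795655), (nat_lit 37749195), (nat_lit 100666650), (nat_lit 37885407)], [(nat_lit 37754316), (nat_lit 106300680), (nat_lit 37749196), (nat_lit 104989960), (nat_lit 37885409), (nat_lit 37885406)], [(nat_lit 37749325), (nat_lit 37885405), (nat_lit 37885404), (nat_lit 109088854), (nat_lit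 37757536)], [(nat_lit 37755356), (nat_lit 39191834), (nat_lit 37757538), (nat_lit 113283160)], [(nat_lit 37756237), (nat_lit 117447830), (nat_lit 37854560)], [(nat_lit 37854562), (nat_lit 121642136)], [(nat_lit 37749411)], []],
   [[(nat_lit 41994311), (nat_lit 41943116), (nat_lit 41978950), (nat_lit 46137864), (nat_lit 2395209), (nat_lit 9741), (nat_lit 41952455), (nat_lit 48579788), (nat_lit 42011736), (nat_lit 359), (nat_lit 42325205), (nat_lit 42058977), (nat_lit 42093639), (nat_lit 46293068), (nat_lit 44338246), (nat_lit 46147080), (nat_lit 42010709), (nat_lit 41953377), (nat_lit 42010708), (nat_lit 41953374)], [(nat_lit 50334855), (nat_lit 41994307), (nat_lit 41945163), (nat_lit 4295), (nat_lit 148698), (nat_lit 68683), (nat_lit 44338271), (nat_lit 1071243), (nat_lit 50452639), (nat_lit 67663), (nat_lit 165989), (nat_lit 43042890), (nat_lit 42083419), (nat_lit 43042887), (nat_lit 42083418), (nat_lit 50400391), (nat_lit 52020378), (nat_lit 51431499), (nat_lit 42109023)], [(nat_lit 41945164), (nat_lit 41943117), (nat_lit 1237), (nat_lit 412),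 (nat_lit 35935), (nat_lit 550), (nat_lit 6300), (nat_lit 54527200), (nat_lit 3238), (nat_lit 54561896), (nat_lit 41943131), (nat_lit 41953373), (nat_lit 41943125), (nat_lit 41943068), (nat_lit 54526301), (nat_lit 54526294), (nat_lit 42109020), (nat_lit 54526048)], [(nat_lit 58723464), (nat_lit 68681), (nat_lit 44338264), (nat_lit 41985223), (nat_lit 42091733), (nat_lit 68749), (nat_lit 1191), (nat_lit 58791116), (nat_lit 43799777), (nat_lit 42617927), (nat_lit 41952341), (nat_lit 42011718), (nat_lit 41952788), (nat_lit 59820108), (nat_lit 42109025), (nat_lit 58789000), (nat_lit 58720606)], [(nat_lit 35928), (nat_lit 546), (nat_lit 41944282), (nat_lit 41952668), (nat_lit 3234), (nat_lit 362), (nat_lit 42014876), (nat_lit 62915810), (nat_lit 41943130), (nat_lit 41943644), (nat_lit 41943572), (nat_lit 41943578), (nat_lit 42797148), (nat_lit 62914658), (nat_lit 41946266), (nat_lit 62914904)], [(nat_lit 67150088), (nat_lit 659523), (nat_lit 36940), (nat_lit 67117320), (nat_lit 67114462), (nat_lit 4172), (nat_lit 2134113), (nat_lit 89283), (nat_lit 1350860),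 (nat_lit 150597), (nat_lit 41984269), (nat_lit 67722444), (nat_lit 40161), (nat_lit 41951501), (nat_lit 42026279)], [(nat_lit 36939), (nat_lit 9293), (nat_lit 41242), (nat_lit 71308760), (nat_lit 53340), (nat_lit 140386), (nat_lit 1350859), (nat_lit 148685), (nat_lit 41229), (nat_lit 9746), (nat_lit 7388), (nat_lit 71451874), (nat_lit 41984290), (nat_lit 41948650)], [(nat_lit 75538695), (nat_lit 4171), (nat_lit 2134111), (nat_lit 75505927), (nat_lit 75597082), (nat_lit 150596), (nat_lit 77892687), (nat_lit 42032323), (nat_lit 43293899), (nat_lit 75566159), (nat_lit 75533413), (nat_lit 76111051), (nat_lit 41983199)], [(nat_lit 2134108), (nat_lit 140384), (nat_lit 79697373), (nat_lit 79697366), (nat_lit 103058511), (nat_lit 5584), (nat_lit 43293900), (nat_lit 42091725), (nat_lit 41984294), (nat_lit 82087016), (nat_lit 41983196), (nat_lit 79840480)], [(nat_lit 83909784), (nat_lit 67661), (nat_lit 854114), (nat_lit 101276875), (nat_lit 40156), (nat_lit 8461), (nat_lit 41250), (nat_lit 382157), (nat_lit 120034), (nat_lit 67666), (nat_lit 83954794)],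 [(nat_lit 854112), (nat_lit 10339), (nat_lit 40159), (nat_lit 105006304), (nat_lit 83239), (nat_lit 5610), (nat_lit 120032), (nat_lit 115939), (nat_lit 125897834), (nat_lit 10350)], [(nat_lit 92298390), (nat_lit 100731983), (nat_lit 41254), (nat_lit 109665484), (nat_lit 41950428), (nat_lit 23696), (nat_lit 92343400), (nat_lit 42325197), (nat_lit 42063072)], [(nat_lit 100699237), (nat_lit 107252840), (nat_lit 41983201), (nat_lit 113394914), (nat_lit 117509224), (nat_lit 105835), (nat_lit 42063074), (nat_lit 42058979)], [(nat_lit 100704519), (nat_lit 42602563), (nat_lit 41979979), (nat_lit 100671751), (nat_lit 100762906), (nat_lit 41947211), (nat_lit 44077151)], [(nat_lit 41979980), (nat_lit 41952333), (nat_lit 104863197), (nat_lit 104863190), (nat_lit 44077148), (nat_lit 42083424)], [(nat_lit 109093128), (nat_lit 41947212), (nat_lit 44077153), (nat_lit 109060360), (nat_lit 109057502)], [(nat_lit 41996380), (nat_lit 42083426), (nat_lit 41984282), (nat_lit 113251800)], [(nat_lit 117464214), (nat_lit 42010701), (nat_lit 42797152)], [(nat_lit 42797154),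 (nat_lit 41953379)], [(nat_lit 125852824)], []],
   [[(nat_lit 50332812), (nat_lit 50331788), (nat_lit 50332813), (nat_lit 83157), (nat_lit 5532), (nat_lit 35932), (nat_lit 46220512), (nat_lit 6303), (nat_lit 6502), (nat_lit 51302), (nat_lit 46143656), (nat_lit 50332827), (nat_lit 46137437), (nat_lit 46137373), (nat_lit 46137366), (nat_lit 50332821), (nat_lit 50331996), (nat_lit 50333788), (nat_lit 46138528)], [(nat_lit 46137871), (nat_lit 46145614), (nat_lit 5526), (nat_lit 5533), (nat_lit 8288), (nat_lit 48532572), (nat_lit 99488), (nat_lit 54646940), (nat_lit 2152), (nat_lit 54526182), (nat_lit 46293085), (nat_lit 46145627), (nat_lit 46137884), (nat_lit 46145621), (nat_lit 54532444), (nat_lit 54625429), (nat_lit 54525990), (nat_lit 54528095)], [(nat_lit 46137870), (nat_lit 35926), (nat_lit 544), (nat_lit 46290333), (nat_lit 46290332), (nat_lit 3232), (nat_lit 360), (nat_lit 59791516), (nat_lit 58721510), (nat_lit 46147101), (nat_lit 46147100), (nat_lit 46137883), (nat_lit 46137877), (nat_lit 58771548), (nat_lit 58720358), (nat_lit 58723477),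 (nat_lit 58720607)], [(nat_lit 537), (nat_lit 48532566), (nat_lit 46290326), (nat_lit 48579797), (nat_lit 1187), (nat_lit 62917737), (nat_lit 62914985), (nat_lit 62936289), (nat_lit 46147094), (nat_lit 46293077), (nat_lit 46147093), (nat_lit 46137875), (nat_lit 62914601), (nat_lit 62916705), (nat_lit 62914913), (nat_lit 62915735)], [(nat_lit 9742), (nat_lit 155726), (nat_lit 79774989), (nat_lit 67192087), (nat_lit 67114465), (nat_lit 67145825), (nat_lit 8809), (nat_lit 2442446), (nat_lit 106300685), (nat_lit 109093133), (nat_lit 9745), (nat_lit 68459745), (nat_lit 67118505), (nat_lit 67259497), (nat_lit 46220579)], [(nat_lit 9743), (nat_lit 79694092), (nat_lit 71308767), (nat_lit 71344405), (nat_lit 140390), (nat_lit 71962716), (nat_lit 152975), (nat_lit 104896780), (nat_lit 2395216), (nat_lit 71344397), (nat_lit 71451878), (nat_lit 71392476), (nat_lit 46142952), (nat_lit 46178592)], [(nat_lit 79774988), (nat_lit 75534431), (nat_lit 8806), (nat_lit 76940565), (nat_lit 75588060), (nat_lit 2395215), (nat_lit 152976), (nat_lit 75536652), (nat_lit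 76940557), (nat_lit 75506918), (nat_lit 46174312), (nat_lit 76848348), (nat_lit 47580448)], [(nat_lit 81872160), (nat_lit 79728732), (nat_lit 79697372), (nat_lit 79774997), (nat_lit 9744), (nat_lit 48532559), (nat_lit 46290319), (nat_lit 48579790), (nat_lit 1350888), (nat_lit 79842406), (nat_lit 79701414), (nat_lit 81042655)], [(nat_lit 679), (nat_lit 10343), (nat_lit 682), (nat_lit 102014175), (nat_lit 1443104), (nat_lit 41248), (nat_lit 83235), (nat_lit 115943), (nat_lit 7594), (nat_lit 68714), (nat_lit 1198)], [(nat_lit 680), (nat_lit 97279145), (nat_lit 100672934), (nat_lit 106208476), (nat_lit 5608), (nat_lit 113396841), (nat_lit 7592), (nat_lit 121691305), (nat_lit 67692), (nat_lit 46206058)], [(nat_lit 96574633), (nat_lit 100813926), (nat_lit 36968), (nat_lit 109141212), (nat_lit 113255849), (nat_lit 68712), (nat_lit 7532), (nat_lit 92331177), (nat_lit 46144938)], [(nat_lit 47488232), (nat_lit 104867046), (nat_lit 109200614), (nat_lit 114597089), (nat_lit 105836), (nat_lit 46206056), (nat_lit 46144936), (nat_lit 46253287)], [(nat_lit 100746508),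 (nat_lit 100665612), (nat_lit 100746509), (nat_lit 100746517), (nat_lit 100668892), (nat_lit 100700252), (nat_lit 102843680)], [(nat_lit 46147087), (nat_lit 46293070), (nat_lit 104948188), (nat_lit 106300693), (nat_lit 46146150), (nat_lit 104894559)], [(nat_lit 46147086), (nat_lit 109711452), (nat_lit 46277734), (nat_lit 109093141), (nat_lit 109057503)], [(nat_lit 46146153), (nat_lit 113283169), (nat_lit 113251809), (nat_lit 113329431)], [(nat_lit 117546153), (nat_lit 118250665), (nat_lit 46138026)], [(nat_lit 46138024), (nat_lit 46147687)], [(nat_lit 46138023)], []],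
   [[(nat_lit 50337926), (nat_lit 54532424), (nat_lit 120969), (nat_lit 121165), (nat_lit 51402904), (nat_lit 39), (nat_lit 50451655), (nat_lit 54641868), (nat_lit 50373845), (nat_lit 52774113), (nat_lit 50665607), (nat_lit 56460428), (nat_lit 50335893), (nat_lit 50496673), (nat_lit 50452614), (nat_lit 54647112), (nat_lit 51431508), (nat_lit 54526046)], [(nat_lit 58771528), (nat_lit 1071241), (nat_lit 50452632), (nat_lit 1099853), (nat_lit 103), (nat_lit 50713799), (nat_lit 51791061), (nat_lit 58724556), (nat_lit 50481377), (nat_lit 50403463), (nat_lit 50447509), (nat_lit 58789004), (nat_lit 50342049), (nat_lit 51402886), (nat_lit 50452820), (nat_lit 59820104), (nat_lit 58720286)], [(nat_lit 6296), (nat_lit 6498), (nat_lit 51298), (nat_lit 42), (nat_lit 50414810), (nat_lit 50423196), (nat_lit 51006556), (nat_lit 62997730), (nat_lit 50332826), (nat_lit 50339164), (nat_lit 50399324), (nat_lit 62915746), (nat_lit 50338132), (nat_lit 50338138), (nat_lit 50382938), (nat_lit 62914584)], [(nat_lit 67474696), (nat_lit 67212552), (nat_lit 67109342), (nat_lit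 56451), (nat_lit 7308), (nat_lit 23692), (nat_lit 105633), (nat_lit 7363), (nat_lit 40140), (nat_lit 613580), (nat_lit 1350881), (nat_lit 333957), (nat_lit 50697485), (nat_lit 50435341), (nat_lit 50332967)], [(nat_lit 365850), (nat_lit 71303640), (nat_lit 7307), (nat_lit 115853), (nat_lit 810140), (nat_lit 1688738), (nat_lit 40139), (nat_lit 1459405), (nat_lit 89308), (nat_lit 148706), (nat_lit 365837), (nat_lit 121170), (nat_lit 50697506), (nat_lit 50332138)], [(nat_lit 75501656), (nat_lit 23691), (nat_lit 105628), (nat_lit 4237), (nat_lit 53410), (nat_lit 613579), (nat_lit 1350876), (nat_lit 42189), (nat_lit 9442), (nat_lit 103693), (nat_lit 365858), (nat_lit 1099858), (nat_lit 50335850)], [(nat_lit 105631), (nat_lit 1688736), (nat_lit 53408), (nat_lit 165027), (nat_lit 1350879), (nat_lit 148704), (nat_lit 9440), (nat_lit 2442467), (nat_lit 1319), (nat_lit 490), (nat_lit 4202), (nat_lit 165038)], [(nat_lit 84251911), (nat_lit 83989767), (nat_lit 86066458), (nat_lit 333956), (nat_lit 84007055), (nat_lit 84957327), (nat_lit 83892389), (nat_lit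 50339011), (nat_lit 50371787), (nat_lit 50945227), (nat_lit 51682527)], [(nat_lit 88080861), (nat_lit 88080854), (nat_lit 100784271), (nat_lit 464), (nat_lit 50697510), (nat_lit 88201384), (nat_lit 50371788), (nat_lit 51791053), (nat_lit 51682524), (nat_lit 50480352)], [(nat_lit 92278870), (nat_lit 101734543), (nat_lit 365862), (nat_lit 4176), (nat_lit 93345960), (nat_lit 50945228), (nat_lit 50420956), (nat_lit 50373837), (nat_lit 50341088)], [(nat_lit 100669605), (nat_lit 104978600), (nat_lit 110123176), (nat_lit 8811), (nat_lit 51682529), (nat_lit 50480354), (nat_lit 50341090), (nat_lit 52774115)], [(nat_lit 101029127), (nat_lit 100766983), (nat_lit 102843674), (nat_lit 50388099), (nat_lit 50338955), (nat_lit 50355339), (nat_lit 50437279)], [(nat_lit 104858077), (nat_lit 104858070), (nat_lit 50338956), (nat_lit 50447501), (nat_lit 50437276), (nat_lit 52020384)], [(nat_lit 109056086), (nat_lit 50355340), (nat_lit 51141788), (nat_lit 50335885), (nat_lit 50385056)], [(nat_lit 50437281), (nat_lit 52020386), (nat_lit 50385058), (nat_lit 50496675)],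 [(nat_lit 117806344), (nat_lit 117544200), (nat_lit 117440990)], [(nat_lit 50697498), (nat_lit 121635288)], [(nat_lit 125833304)], []],
   [[(nat_lit 54532430), (nat_lit 6294), (nat_lit 6496), (nat_lit 51296), (nat_lit 40), (nat_lit 54533533), (nat_lit 54533532), (nat_lit 58788956), (nat_lit 58803430), (nat_lit 54647133), (nat_lit 54647132), (nat_lit 59820124), (nat_lit 58721446), (nat_lit 54532443), (nat_lit 54532437), (nat_lit 58771541), (nat_lit 58720287)], [(nat_lit 6489), (nat_lit 54646934), (nat_lit 99), (nat_lit 62937257), (nat_lit 54533526), (nat_lit 54641877), (nat_lit 62920105), (nat_lit 62916833), (nat_lit 54647126), (nat_lit 56460437), (nat_lit 62914921), (nat_lit 62914721), (nat_lit 54647125), (nat_lit 54532435), (nat_lit 62914593), (nat_lit 62914647)], [(nat_lit 121166), (nat_lit 67110167), (nat_lit 67109345), (nat_lit 1934478), (nat_lit 88081677), (nat_lit 67116193), (nat_lit 105833), (nat_lit 115918), (nat_lit 104989965), (nat_lit 67149025), (nat_lit 9641), (nat_lit 117806349), (nat_lit 121169), (nat_lit 67442857), (nat_lit 54527267)],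 [(nat_lit 71303647), (nat_lit 71669013), (nat_lit 121167), (nat_lit 88102156), (nat_lit 1688742), (nat_lit 71359644), (nat_lit 7567), (nat_lit 106207500), (nat_lit 148710), (nat_lit 71310556), (nat_lit 120976), (nat_lit 71669005), (nat_lit 54526440), (nat_lit 54891808)], [(nat_lit 10599), (nat_lit 83893407), (nat_lit 88180000), (nat_lit 165031), (nat_lit 10602), (nat_lit 100703455), (nat_lit 106300704), (nat_lit 2442471), (nat_lit 153002), (nat_lit 365856), (nat_lit 1315), (nat_lit 125833322), (nat_lit 110)], [(nat_lit 105830), (nat_lit 88087708), (nat_lit 10600), (nat_lit 96522345), (nat_lit 9638), (nat_lit 104897756), (nat_lit 153000), (nat_lit 113905769), (nat_lit 488), (nat_lit 121968809), (nat_lit 1099884), (nat_lit 79695978)], [(nat_lit 88081676), (nat_lit 84018453), (nat_lit 83894748), (nat_lit 120975), (nat_lit 7568), (nat_lit 84006118), (nat_lit 54533288), (nat_lit 85235980), (nat_lit 84018445), (nat_lit 83926236), (nat_lit 85329184)], [(nat_lit 88080860), (nat_lit 88081685), (nat_lit 121168), (nat_lit 54646927), (nat_lit 40168), (nat_lit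 88414374), (nat_lit 54533519), (nat_lit 54641870), (nat_lit 54535590), (nat_lit 88120543)], [(nat_lit 98603113), (nat_lit 100997286), (nat_lit 7336), (nat_lit 1071272), (nat_lit 620), (nat_lit 117447900), (nat_lit 54535593), (nat_lit 92934249), (nat_lit 54678954)], [(nat_lit 54566120), (nat_lit 104977638), (nat_lit 8812), (nat_lit 55597224), (nat_lit 54674662), (nat_lit 121674977), (nat_lit 54678952), (nat_lit 56968423)], [(nat_lit 100664588), (nat_lit 100664597), (nat_lit 100663772), (nat_lit 100685068), (nat_lit 100664589), (nat_lit 100670620), (nat_lit 100762912)], [(nat_lit 104866268), (nat_lit 104989973), (nat_lit 54647119), (nat_lit 56460430), (nat_lit 54631782), (nat_lit 104864927)], [(nat_lit 111186025), (nat_lit 117496988), (nat_lit 54631785), (nat_lit 109105257), (nat_lit 54536554)], [(nat_lit 56214694), (nat_lit 121642145), (nat_lit 54536552), (nat_lit 54690983)], [(nat_lit 54647118), (nat_lit 117806357), (nat_lit 117440991)], [(nat_lit 121635297), (nat_lit 121636119)], [(nat_lit 54536551)], []],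
   [[(nat_lit 51289), (nat_lit 35), (nat_lit 59791510), (nat_lit 62920873), (nat_lit 58788950), (nat_lit 62950505), (nat_lit 58724565), (nat_lit 62997729), (nat_lit 59820118), (nat_lit 62916713), (nat_lit 58789013), (nat_lit 62915745), (nat_lit 59820117), (nat_lit 62914657), (nat_lit 58771539), (nat_lit 62914583)], [(nat_lit 67109143), (nat_lit 1099854), (nat_lit 67113057), (nat_lit 68750), (nat_lit 67132577), (nat_lit 92274957), (nat_lit 854121), (nat_lit 4302), (nat_lit 67722465), (nat_lit 109060365), (nat_lit 150633), (nat_lit 117544205), (nat_lit 333993), (nat_lit 1099857), (nat_lit 58720547)], [(nat_lit 75501663), (nat_lit 165991), (nat_lit 83909791), (nat_lit 10407), (nat_lit 92278048), (nat_lit 96605674), (nat_lit 101276895), (nat_lit 149735), (nat_lit 109093152), (nat_lit 113251818), (nat_lit 117806368), (nat_lit 121635306), (nat_lit 291), (nat_lit 46)], [(nat_lit 75601173), (nat_lit 1099855), (nat_lit 53414), (nat_lit 92280076), (nat_lit 75816092), (nat_lit 68687), (nat_lit 9446), (nat_lit 109140236), (nat_lit 75521244), (nat_lit 1071248),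 (nat_lit 58724456), (nat_lit 75601165), (nat_lit 75863328)], [(nat_lit 854118), (nat_lit 165992), (nat_lit 92298396), (nat_lit 96475625), (nat_lit 150630), (nat_lit 2395240), (nat_lit 109665500), (nat_lit 113336809), (nat_lit 4200), (nat_lit 121196), (nat_lit 59054249), (nat_lit 79692266)], [(nat_lit 83894549), (nat_lit 92274956), (nat_lit 84021340), (nat_lit 1071247), (nat_lit 120038), (nat_lit 68688), (nat_lit 58743976), (nat_lit 83974412), (nat_lit 84499676), (nat_lit 83894541), (nat_lit 83927328)], [(nat_lit 92278876), (nat_lit 96605673), (nat_lit 333990), (nat_lit 121000), (nat_lit 23720), (nat_lit 9772), (nat_lit 117464284), (nat_lit 88170985), (nat_lit 58870889), (nat_lit 88085994)], [(nat_lit 92274965), (nat_lit 1099856), (nat_lit 613608), (nat_lit 59791503), (nat_lit 59054246), (nat_lit 58788943), (nat_lit 58870886), (nat_lit 58724558), (nat_lit 92888287)], [(nat_lit 59333864), (nat_lit 684), (nat_lit 58840294), (nat_lit 58841256), (nat_lit 58729702), (nat_lit 61115496), (nat_lit 126442721), (nat_lit 58869991)], [(nat_lit 100663573), (nat_lit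 100663564), (nat_lit 100667484), (nat_lit 100668684), (nat_lit 100687004), (nat_lit 100663565), (nat_lit 100666656)], [(nat_lit 109187164), (nat_lit 104994281), (nat_lit 117759132), (nat_lit 104864233), (nat_lit 59574377), (nat_lit 104994282)], [(nat_lit 109060373), (nat_lit 59820111), (nat_lit 59574374), (nat_lit 58789006), (nat_lit 109075615)], [(nat_lit 58773670), (nat_lit 58886248), (nat_lit 125852833), (nat_lit 58730663)], [(nat_lit 117544213), (nat_lit 59820110), (nat_lit 117444703)], [(nat_lit 125833313), (nat_lit 58886247)], [(nat_lit 125829399)], []],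
   [[(nat_lit 36), (nat_lit 100), (nat_lit 81286439), (nat_lit 1188), (nat_lit 88213799), (nat_lit 94455079), (nat_lit 98649379), (nat_lit 83172), (nat_lit 104859943), (nat_lit 109135143), (nat_lit 113329443), (nat_lit 117441831), (nat_lit 121636131), (nat_lit 125829411), (nat_lit 45)], [(nat_lit 37), (nat_lit 71303457), (nat_lit 357), (nat_lit 71308577), (nat_lit 92411368), (nat_lit 96472354), (nat_lit 5541), (nat_lit 71391521), (nat_lit 109057512), (nat_lit 113287458), (nat_lit 117441000), (nat_lit 122000674), (nat_lit 51307), (nat_lit 71303459)], [(nat_lit 75498785), (nat_lit 2149), (nat_lit 90214504), (nat_lit 75519265), (nat_lit 96568610), (nat_lit 35941), (nat_lit 104894568), (nat_lit 76847393), (nat_lit 114689314), (nat_lit 117444712), (nat_lit 6507), (nat_lit 75863330), (nat_lit 75498787)], [(nat_lit 79797416), (nat_lit 88083750), (nat_lit 92374310), (nat_lit 98063649), (nat_lit 81042664), (nat_lit 104898854), (nat_lit 110495014), (nat_lit 113285409), (nat_lit 6508), (nat_lit 79695976), (nat_lit 79692264), (nat_lit 79693095)], [(nat_lit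 83969313), (nat_lit 83888417), (nat_lit 98649378), (nat_lit 6309), (nat_lit 104864936), (nat_lit 109075624), (nat_lit 555), (nat_lit 83925281), (nat_lit 85329186), (nat_lit 83927330), (nat_lit 83969315)], [(nat_lit 94455078), (nat_lit 96602401), (nat_lit 88120552), (nat_lit 105223462), (nat_lit 556), (nat_lit 88104104), (nat_lit 89523494), (nat_lit 122984737), (nat_lit 88085992), (nat_lit 88163623)], [(nat_lit 98649377), (nat_lit 92888296), (nat_lit 44), (nat_lit 92640550), (nat_lit 92282024), (nat_lit 92315942), (nat_lit 92311656), (nat_lit 125917473), (nat_lit 92277031)], [(nat_lit 43), (nat_lit 105471208), (nat_lit 109092072), (nat_lit 62920869), (nat_lit 118791400), (nat_lit 62950501), (nat_lit 62920101), (nat_lit 62997732)], [(nat_lit 102843681), (nat_lit 100796705), (nat_lit 102843682), (nat_lit 102257953), (nat_lit 100762914), (nat_lit 100666658), (nat_lit 102843683)], [(nat_lit 107037990), (nat_lit 113248545), (nat_lit 104957222), (nat_lit 121656609), (nat_lit 104994280), (nat_lit 107037991)], [(nat_lit 113329441), (nat_lit 109055270),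 (nat_lit 111186024), (nat_lit 125834529), (nat_lit 109185319)], [(nat_lit 117546152), (nat_lit 62916709), (nat_lit 62914917), (nat_lit 62915748)], [(nat_lit 121636129), (nat_lit 125829409), (nat_lit 119035175)], [(nat_lit 62914597), (nat_lit 62914660)], [(nat_lit 62914596)], []],
   [[(nat_lit 67117633), (nat_lit 67117634), (nat_lit 67214657), (nat_lit 67214658), (nat_lit 67274822), (nat_lit 67109512), (nat_lit 67118465), (nat_lit 67118466), (nat_lit 69504070), (nat_lit 67118600), (nat_lit 67229830), (nat_lit 67230024), (nat_lit 67160147), (nat_lit 67108887)], [(nat_lit 67249218), (nat_lit 67962945), (nat_lit 67119430), (nat_lit 67962946), (nat_lit 67119176), (nat_lit 67259457), (nat_lit 67261830), (nat_lit 67259458), (nat_lit 67264584), (nat_lit 68180102), (nat_lit 67115347), (nat_lit 68208712), (nat_lit 67108951)], [(nat_lit 67109510), (nat_lit 67109511), (nat_lit 67119175), (nat_lit 67109513), (nat_lit 67118598), (nat_lit 67118599), (nat_lit 67264583), (nat_lit 67118601), (nat_lit 67115348), (nat_lit 67115349), (nat_lit 67160149), (nat_lit 67108888)],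 [(nat_lit 68797570), (nat_lit 67162242), (nat_lit 67273864), (nat_lit 67442817), (nat_lit 67116422), (nat_lit 67177542), (nat_lit 67109395), (nat_lit 67442818), (nat_lit 69043336), (nat_lit 67177608), (nat_lit 67110039)], [(nat_lit 67273863), (nat_lit 67119433), (nat_lit 67230022), (nat_lit 67230023), (nat_lit 67109396), (nat_lit 67109397), (nat_lit 69043335), (nat_lit 67230025), (nat_lit 67112085), (nat_lit 67109208)], [(nat_lit 67274825), (nat_lit 68208710), (nat_lit 67108884), (nat_lit 68208711), (nat_lit 67117141), (nat_lit 67177607), (nat_lit 67208341), (nat_lit 68208713), (nat_lit 67111000)], [(nat_lit 67108883), (nat_lit 67108885), (nat_lit 67108949), (nat_lit 67108886), (nat_lit 67110037), (nat_lit 67109206), (nat_lit 67110998), (nat_lit 67108889)], [(nat_lit 67257538), (nat_lit 67118274), (nat_lit 69551304), (nat_lit 67228866), (nat_lit 67224776), (nat_lit 67113160), (nat_lit 67192023)], [(nat_lit 69551303), (nat_lit 67261833), (nat_lit 67224775), (nat_lit 67116425), (nat_lit 67109077), (nat_lit 67114392)], [(nat_lit 69504073), (nat_lit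 67113159), (nat_lit 67110101), (nat_lit 67177545), (nat_lit 67144792)], [(nat_lit 67192021), (nat_lit 67114390), (nat_lit 67144790), (nat_lit 67109401)], [(nat_lit 67229833), (nat_lit 68180105), (nat_lit 67115160)], [(nat_lit 67115158), (nat_lit 67115353)], [(nat_lit 67160153)], []],
   [[(nat_lit 71311939), (nat_lit 71303818), (nat_lit 71311943), (nat_lit 75637831), (nat_lit 71303819), (nat_lit 71312906), (nat_lit 71303751), (nat_lit 75506759), (nat_lit 71312907), (nat_lit 71309659), (nat_lit 71309658), (nat_lit 75548762), (nat_lit 71303199)], [(nat_lit 71408967), (nat_lit 71439814), (nat_lit 71303820), (nat_lit 79832136), (nat_lit 71312775), (nat_lit 71308742), (nat_lit 71312908), (nat_lit 79701064), (nat_lit 71424341), (nat_lit 71424340), (nat_lit 71303201), (nat_lit 71303198)], [(nat_lit 71408963), (nat_lit 85574791), (nat_lit 71313739), (nat_lit 71424330), (nat_lit 71310663), (nat_lit 71303707), (nat_lit 71303706), (nat_lit 84001927), (nat_lit 71424331), (nat_lit 83889306), (nat_lit 71303519)], [(nat_lit 71313740), (nat_lit 89769096), (nat_lit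 71394695), (nat_lit 71303622), (nat_lit 71312917), (nat_lit 71312916), (nat_lit 71424332), (nat_lit 88196232), (nat_lit 71303521), (nat_lit 71303518)], [(nat_lit 71303821), (nat_lit 71303195), (nat_lit 71303829), (nat_lit 71303197), (nat_lit 71303196), (nat_lit 71303517), (nat_lit 71303516), (nat_lit 92440662), (nat_lit 71303200)], [(nat_lit 71303194), (nat_lit 71303828), (nat_lit 71303708), (nat_lit 71443546), (nat_lit 71309660), (nat_lit 72991898), (nat_lit 71303202), (nat_lit 96634968)], [(nat_lit 71312771), (nat_lit 100811975), (nat_lit 71456139), (nat_lit 102122695), (nat_lit 71310731), (nat_lit 100663514), (nat_lit 71308703)], [(nat_lit 71456140), (nat_lit 105006280), (nat_lit 71310732), (nat_lit 106317000), (nat_lit 71308705), (nat_lit 71308702)], [(nat_lit 71312909), (nat_lit 71308701), (nat_lit 71308700), (nat_lit 111447126), (nat_lit 71303712)], [(nat_lit 71303580), (nat_lit 71451866), (nat_lit 71303714), (nat_lit 115641432)], [(nat_lit 71424333), (nat_lit 117561494), (nat_lit 71309664)], [(nat_lit 71309666), (nat_lit 121755800)], [(nat_lit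 71303203)], []],
   [[(nat_lit 76351559), (nat_lit 75507788), (nat_lit 77631558), (nat_lit 79700552), (nat_lit 75648071), (nat_lit 75653196), (nat_lit 75534406), (nat_lit 79692360), (nat_lit 76597333), (nat_lit 75497569), (nat_lit 76597332), (nat_lit 75497566)], [(nat_lit 83939463), (nat_lit 76351555), (nat_lit 75663435), (nat_lit 76597322), (nat_lit 75505755), (nat_lit 75565127), (nat_lit 75505754), (nat_lit 83890311), (nat_lit 83985562), (nat_lit 76597323), (nat_lit 75499615)], [(nat_lit 75663436), (nat_lit 75507789), (nat_lit 75497563), (nat_lit 75497565), (nat_lit 75507797), (nat_lit 75498140), (nat_lit 88090973), (nat_lit 88090966), (nat_lit 75499612), (nat_lit 75497568)], [(nat_lit 92328072), (nat_lit 76172359), (nat_lit 75653205), (nat_lit 75501638), (nat_lit 75498068), (nat_lit 76597324), (nat_lit 75499617), (nat_lit 92278920), (nat_lit 92285278)], [(nat_lit 75497562), (nat_lit 75507228), (nat_lit 75506260), (nat_lit 75506266), (nat_lit 75548764), (nat_lit 75497570), (nat_lit 75550874), (nat_lit 96479576)], [(nat_lit 100672711), (nat_lit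 75648067), (nat_lit 77892683), (nat_lit 100705479), (nat_lit 100664538), (nat_lit 75566155), (nat_lit 75533407)], [(nat_lit 77892684), (nat_lit 75653197), (nat_lit 105010589), (nat_lit 105010582), (nat_lit 75533404), (nat_lit 75505760)], [(nat_lit 109061320), (nat_lit 75566156), (nat_lit 75533409), (nat_lit 109094088), (nat_lit 109204894)], [(nat_lit 75500636), (nat_lit 75505762), (nat_lit 75506906), (nat_lit 113399192)], [(nat_lit 118511766), (nat_lit 76597325), (nat_lit 75548768)], [(nat_lit 75548770), (nat_lit 75497571)], [(nat_lit 126900376)], []],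
   [[(nat_lit 84051084), (nat_lit 83896460), (nat_lit 84051085), (nat_lit 83887259), (nat_lit 79702109), (nat_lit 79692445), (nat_lit 79692438), (nat_lit 84051093), (nat_lit 83896668), (nat_lit 84052060), (nat_lit 83887264)], [(nat_lit 79700559), (nat_lit 79832142), (nat_lit 79847517), (nat_lit 79832155), (nat_lit 79700572), (nat_lit 79832149), (nat_lit 88186204), (nat_lit 89769109), (nat_lit 79691814), (nat_lit 88246367)], [(nat_lit 79700558), (nat_lit 79701533), (nat_lit 79692380), (nat_lit 79700571), (nat_lit 79700565), (nat_lit 93128796), (nat_lit 79691878), (nat_lit 92328085), (nat_lit 92285279)], [(nat_lit 79701526), (nat_lit 79701077), (nat_lit 79692373), (nat_lit 79700563), (nat_lit 79691817), (nat_lit 96634977), (nat_lit 96479585), (nat_lit 96634007)], [(nat_lit 103105740), (nat_lit 100813004), (nat_lit 103105741), (nat_lit 103105749), (nat_lit 100816284), (nat_lit 103058524), (nat_lit 100746464)], [(nat_lit 79692367), (nat_lit 79701070), (nat_lit 104867228), (nat_lit 105006293), (nat_lit 79692326), (nat_lit 107252831)], [(nat_lit 79692366),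 (nat_lit 109202524), (nat_lit 79700070), (nat_lit 109061333), (nat_lit 109204895)], [(nat_lit 79692329), (nat_lit 115641441), (nat_lit 113399201), (nat_lit 115688663)], [(nat_lit 117446825), (nat_lit 117463209), (nat_lit 79691818)], [(nat_lit 79691816), (nat_lit 79691879)], [(nat_lit 79691815)], []],
   [[(nat_lit 83991686), (nat_lit 88186184), (nat_lit 84220039), (nat_lit 85820556), (nat_lit 83954837), (nat_lit 83887265), (nat_lit 83893382), (nat_lit 88087880), (nat_lit 83953748), (nat_lit 88090718)], [(nat_lit 93128776), (nat_lit 83957895), (nat_lit 85820565), (nat_lit 83954828), (nat_lit 83886241), (nat_lit 83909766), (nat_lit 83893588), (nat_lit 92342344), (nat_lit 92275358)], [(nat_lit 83887258), (nat_lit 84007260), (nat_lit 84985948), (nat_lit 83887266), (nat_lit 83991892), (nat_lit 83991898), (nat_lit 84740186), (nat_lit 96469656)], [(nat_lit 100783303), (nat_lit 101045447), (nat_lit 100746458), (nat_lit 84220035), (nat_lit 84007051), (nat_lit 84957323), (nat_lit 83892383)], [(nat_lit 104865181), (nat_lit 104865174), (nat_lit 84007052),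 (nat_lit 85820557), (nat_lit 83892380), (nat_lit 83985568)], [(nat_lit 109120598), (nat_lit 84957324), (nat_lit 83908764), (nat_lit 83954829), (nat_lit 83889312)], [(nat_lit 83892385), (nat_lit 83985570), (nat_lit 83889314), (nat_lit 83887267)], [(nat_lit 117560520), (nat_lit 117822664), (nat_lit 117448094)], [(nat_lit 84006106), (nat_lit 121642392)], [(nat_lit 125897816)], []],
   [[(nat_lit 88186190), (nat_lit 88201565), (nat_lit 88087900), (nat_lit 92342364), (nat_lit 88081574), (nat_lit 88186203), (nat_lit 88186197), (nat_lit 93128789), (nat_lit 92275359)], [(nat_lit 88201558), (nat_lit 88196245), (nat_lit 88080745), (nat_lit 96479393), (nat_lit 88087893), (nat_lit 88186195), (nat_lit 96469665), (nat_lit 96479319)], [(nat_lit 100779212), (nat_lit 100779221), (nat_lit 100670876), (nat_lit 102520012), (nat_lit 100779213), (nat_lit 100784284), (nat_lit 100664544)], [(nat_lit 104949148), (nat_lit 106317013), (nat_lit 88087887), (nat_lit 88196238), (nat_lit 88086886), (nat_lit 104978591)], [(nat_lit 109087849), (nat_lit 117774492), (nat_lit 88086889),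 (nat_lit 109055081), (nat_lit 88080746)], [(nat_lit 88179878), (nat_lit 121755809), (nat_lit 88080744), (nat_lit 88081575)], [(nat_lit 88087886), (nat_lit 117560533), (nat_lit 117448095)], [(nat_lit 121642401), (nat_lit 121750743)], [(nat_lit 88080743)], []],
   [[(nat_lit 93374550), (nat_lit 92276841), (nat_lit 92278933), (nat_lit 96634017), (nat_lit 92342357), (nat_lit 96479329), (nat_lit 93128787), (nat_lit 96469655)], [(nat_lit 100667605), (nat_lit 100667596), (nat_lit 100731996), (nat_lit 100734156), (nat_lit 101734556), (nat_lit 100667597), (nat_lit 100663520)], [(nat_lit 109726812), (nat_lit 104863145), (nat_lit 117512348), (nat_lit 104858025), (nat_lit 92325993), (nat_lit 104863146)], [(nat_lit 109094101), (nat_lit 92342351), (nat_lit 92325990), (nat_lit 92278926), (nat_lit 110123167)], [(nat_lit 92277926), (nat_lit 92276840), (nat_lit 126900385), (nat_lit 92274855)], [(nat_lit 117822677), (nat_lit 92342350), (nat_lit 117509215)], [(nat_lit 125897825), (nat_lit 92276839)], [(nat_lit 125833431)], []],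
   [[(nat_lit 100746465), (nat_lit 100665569), (nat_lit 100746466), (nat_lit 100685025), (nat_lit 100664546), (nat_lit 100663522), (nat_lit 100746467)], [(nat_lit 104940774), (nat_lit 113395937), (nat_lit 104858854), (nat_lit 123491553), (nat_lit 104863144), (nat_lit 104940775)], [(nat_lit 115688673), (nat_lit 109052134), (nat_lit 109087848), (nat_lit 125900001), (nat_lit 109054183)], [(nat_lit 117446824), (nat_lit 96634981), (nat_lit 96479589), (nat_lit 96634020)], [(nat_lit 121750753), (nat_lit 125833441), (nat_lit 117462247)], [(nat_lit 96469669), (nat_lit 96479332)], [(nat_lit 96469668)], []],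
   [[(nat_lit 102014150), (nat_lit 104867208), (nat_lit 100703430), (nat_lit 104949128), (nat_lit 101338196), (nat_lit 105013342)], [(nat_lit 109202504), (nat_lit 101276870), (nat_lit 100754836), (nat_lit 109726792), (nat_lit 109061662)], [(nat_lit 100672916), (nat_lit 100672922), (nat_lit 100813914), (nat_lit 113255960)], [(nat_lit 117774472), (nat_lit 117512328), (nat_lit 117561694)], [(nat_lit 100997274), (nat_lit 121755992)], [(nat_lit 126928984)], []],
   [[(nat_lit 104867214), (nat_lit 104867227), (nat_lit 104867221), (nat_lit 109202517), (nat_lit 109061663)], [(nat_lit 104949141), (nat_lit 104867219), (nat_lit 113255969), (nat_lit 113401943)], [(nat_lit 104949134), (nat_lit 117774485), (nat_lit 117561695)], [(nat_lit 121756001), (nat_lit 123569303)], [(nat_lit 104863143)], []],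
   [[(nat_lit 109726805), (nat_lit 113401953), (nat_lit 109202515), (nat_lit 113255959)], [(nat_lit 117512341), (nat_lit 109726798), (nat_lit 118540383)], [(nat_lit 126928993), (nat_lit 109087847)], [(nat_lit 125897879)], []],
   [[(nat_lit 123569313), (nat_lit 125897889), (nat_lit 117446823)], [(nat_lit 113255973), (nat_lit 113401956)], [(nat_lit 113255972)], []],
   [[(nat_lit 117774483), (nat_lit 121755991)], [(nat_lit 126928983)], []],
   [[(nat_lit 121756004)], []],
   [[]],
   []]

theorem b5A4_ok : all4 b5R4 47 b5A4 = true := by decide +kernel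

theorem b5_one : CM (maskL [0]) 23 := by
  have h1 := b5_ok 9998 (by norm_num)
  refine CM.of_cls (zs := [0]) (by decide) (by decide) ?_
  intro k hk
  have hk' : k 0 + 1 + 0 ≤ 23 := hk
  have e1 : tX b5T 9998 = FULL := by decide +kernel
  have e2 : tn b5T 9998 = 23 := by decide +kernel
  unfold Good at h1
  rw [e1, e2] at h1
  exact one_of h1 (by omega) (by decide)

/-- **The hard facts of `Q_5`** for at most four roots, total sizes `23, 23, 22, 21`. -/
theorem base5 (ms : List ((Fin 5 → Bool) × ℕ)) (hnd : (ms.map Prod.fst).Nodup)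
    (h : ms.length = 0 ∨ (ms.length = 1 ∧ (ms.map Prod.snd).sum ≤ 23) ∨
      (ms.length = 2 ∧ (ms.map Prod.snd).sum ≤ 23) ∨
      (ms.length = 3 ∧ (ms.map Prod.snd).sum ≤ 22) ∨
      (ms.length = 4 ∧ (ms.map Prod.snd).sum ≤ 21)) :
    HF (cadj 5) Finset.univ ms :=
  base_of b5_one (fun _ h0 hb => all2_ok b5R2_ok b5A2_ok h0 hb)
    (fun _ _ h0 h1 h2 => all3_ok b5R3_ok b5A3_ok h0 h1 h2)
    (fun _ _ _ h0 h1 h2 h3 => all4_ok b5R4_ok b5A4_ok h0 h1 h2 h3) ms hnd h


end Tab

end Pool.Agent.Work.MP_bf01b2_co.MR
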