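import Pool.Agent.Work.MP_bf01b2_co.MR.B5T

set_option maxRecDepth 100000

namespace Pool.Agent.Work.MP_bf01b2_co.MR

namespace Tab

/-- certificates 0..500 -/
def b5C0 : List Cf :=
  [.prs .nil,
   .prs (.one (nat_lit 0) (nat_lit 1) .nil),
   .prs (.two (nat_lit 0) (nat_lit 1) (nat_lit 1) (nat_lit 2) .nil),
   .der (nat_lit 1) (nat_lit 1),
   .prs (.two (nat_lit 0) (nat_lit 4) (nat_lit 3) (nat_lit 1) .nil),
   .der (nat_lit 1) (nat_lit 4),
   .prs (.two (nat_lit 0) (nat_lit 1) (nat_lit 1) (nat_lit 2) (.one (nat_lit 5) (nat_lit 1) .nil)),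
   .der (nat_lit 33) (nat_lit 2),
   .prs (.two (nat_lit 0) (nat_lit 8) (nat_lit 7) (nat_lit 1) .nil),
   .der (nat_lit 801) (nat_lit 4),
   .prs (.two (nat_lit 0) (nat_lit 4) (nat_lit 9) (nat_lit 1) .nil),
   .der (nat_lit 18) (nat_lit 1),
   .der (nat_lit 33) (nat_lit 6),
   .prs (.two (nat_lit 1) (nat_lit 2) (nat_lit 11) (nat_lit 1) (.two (nat_lit 0) (nat_lit 2) (nat_lit 7) (nat_lit 1) (.one (nat_lit 12) (nat_lit 1) .nil))),
   .der (nat_lit 1556) (nat_lit 4),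
   .prs (.two (nat_lit 0) (nat_lit 2) (nat_lit 14) (nat_lit 8) .nil),
   .der (nat_lit 1299) (nat_lit 1),
   .der (nat_lit 101) (nat_lit 4),
   .der (nat_lit 129) (nat_lit 10),
   .prs (.two (nat_lit 1) (nat_lit 2) (nat_lit 16) (nat_lit 1) (.two (nat_lit 0) (nat_lit 1) (nat_lit 17) (nat_lit 2) (.one (nat_lit 18) (nat_lit 1) .nil))),
   .der (nat_lit 801) (nat_lit 10),
   .prs (.two (nat_lit 1) (nat_lit 2) (nat_lit 16) (nat_lit 1) (.two (nat_lit 0) (nat_lit 2) (nat_lit 9) (nat_lit 1) (.one (nat_lit 20) (nat_lit 1) .nil))),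
   .der (nat_lit 115) (nat_lit 4),
   .der (nat_lit 33) (nat_lit 15),
   .prs (.two (nat_lit 1) (nat_lit 8) (nat_lit 11) (nat_lit 1) (.two (nat_lit 0) (nat_lit 8) (nat_lit 22) (nat_lit 1) (.one (nat_lit 23) (nat_lit 1) .nil))),
   .der (nat_lit 103) (nat_lit 4),
   .der (nat_lit 66) (nat_lit 15),
   .prs (.two (nat_lit 1) (nat_lit 8) (nat_lit 3) (nat_lit 1) (.two (nat_lit 0) (nat_lit 1) (nat_lit 25) (nat_lit 8) (.one (nat_lit 26) (nat_lit 1) .nil))),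
   .der (nat_lit 49) (nat_lit 6),
   .prs (.two (nat_lit 3) (nat_lit 4) (nat_lit 28) (nat_lit 1) .nil),
   .der (nat_lit 801) (nat_lit 6),
   .prs (.two (nat_lit 3) (nat_lit 1) (nat_lit 11) (nat_lit 8) (.two (nat_lit 0) (nat_lit 8) (nat_lit 30) (nat_lit 1) .nil)),
   .der (nat_lit 33) (nat_lit 13),
   .prs (.two (nat_lit 1) (nat_lit 2) (nat_lit 6) (nat_lit 4) (.one (nat_lit 32) (nat_lit 1) .nil)),
   .der (nat_lit 5) (nat_lit 2),
   .prs (.two (nat_lit 11) (nat_lit 1) (nat_lit 34) (nat_lit 2) (.two (nat_lit 0) (nat_lit 8) (nat_lit 32) (nat_lit 1) .nil)),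
   .der (nat_lit 101) (nat_lit 6),
   .prs (.two (nat_lit 11) (nat_lit 1) (nat_lit 36) (nat_lit 2) (.one (nat_lit 32) (nat_lit 1) .nil)),
   .der (nat_lit 2) (nat_lit 13),
   .prs (.two (nat_lit 3) (nat_lit 4) (nat_lit 30) (nat_lit 1) (.one (nat_lit 38) (nat_lit 1) .nil)),
   .der (nat_lit 834) (nat_lit 10),
   .prs (.two (nat_lit 11) (nat_lit 8) (nat_lit 16) (nat_lit 16) (.two (nat_lit 0) (nat_lit 16) (nat_lit 40) (nat_lit 8) .nil)),
   .der (nat_lit 8) (nat_lit 6),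
   .prs (.two (nat_lit 1) (nat_lit 16) (nat_lit 42) (nat_lit 4) .nil),
   .der (nat_lit 13345) (nat_lit 6),
   .prs (.two (nat_lit 3) (nat_lit 8) (nat_lit 11) (nat_lit 1) (.two (nat_lit 0) (nat_lit 1) (nat_lit 44) (nat_lit 8) .nil)),
   .der (nat_lit 34068) (nat_lit 1),
   .der (nat_lit 162) (nat_lit 15),
   .prs (.two (nat_lit 3) (nat_lit 4) (nat_lit 46) (nat_lit 8) (.two (nat_lit 0) (nat_lit 8) (nat_lit 47) (nat_lit 4) .nil)),
   .der (nat_lit 2084) (nat_lit 6),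
   .prs (.two (nat_lit 3) (nat_lit 8) (nat_lit 11) (nat_lit 1) (.two (nat_lit 0) (nat_lit 1) (nat_lit 49) (nat_lit 8) .nil)),
   .der (nat_lit 22803) (nat_lit 8),
   .prs (.two (nat_lit 3) (nat_lit 4) (nat_lit 16) (nat_lit 2) (.two (nat_lit 0) (nat_lit 4) (nat_lit 51) (nat_lit 2) .nil)),
   .der (nat_lit 34068) (nat_lit 6),
   .prs (.two (nat_lit 1) (nat_lit 4) (nat_lit 3) (nat_lit 8) (.two (nat_lit 0) (nat_lit 8) (nat_lit 53) (nat_lit 4) .nil)),
   .prs (.two (nat_lit 1) (nat_lit 2) (nat_lit 3) (nat_lit 16) (.two (nat_lit 0) (nat_lit 16) (nat_lit 36) (nat_lit 2) .nil)),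
   .der (nat_lit 1057) (nat_lit 15),
   .prs (.two (nat_lit 3) (nat_lit 4) (nat_lit 16) (nat_lit 2) (.two (nat_lit 0) (nat_lit 4) (nat_lit 56) (nat_lit 2) .nil)),
   .der (nat_lit 8) (nat_lit 29),
   .prs (.two (nat_lit 1) (nat_lit 8) (nat_lit 12) (nat_lit 1) (.one (nat_lit 58) (nat_lit 2) .nil)),
   .der (nat_lit 50) (nat_lit 10),
   .der (nat_lit 801) (nat_lit 19),
   .prs (.two (nat_lit 1) (nat_lit 2) (nat_lit 60) (nat_lit 1) (.one (nat_lit 61) (nat_lit 1) .nil)),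
   .der (nat_lit 101) (nat_lit 19),
   .prs (.two (nat_lit 3) (nat_lit 4) (nat_lit 20) (nat_lit 1) (.one (nat_lit 63) (nat_lit 2) .nil)),
   .der (nat_lit 5) (nat_lit 6),
   .der (nat_lit 33) (nat_lit 31),
   .prs (.two (nat_lit 1) (nat_lit 8) (nat_lit 65) (nat_lit 2) (.one (nat_lit 66) (nat_lit 1) .nil)),
   .der (nat_lit 50) (nat_lit 4),
   .der (nat_lit 801) (nat_lit 13),
   .prs (.two (nat_lit 1) (nat_lit 2) (nat_lit 68) (nat_lit 1) (.two (nat_lit 0) (nat_lit 2) (nat_lit 69) (nat_lit 1) .nil)),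
   .der (nat_lit 49) (nat_lit 13),
   .prs (.two (nat_lit 1) (nat_lit 4) (nat_lit 71) (nat_lit 1) .nil),
   .prs (.two (nat_lit 11) (nat_lit 2) (nat_lit 71) (nat_lit 1) .nil),
   .prs (.two (nat_lit 3) (nat_lit 4) (nat_lit 71) (nat_lit 1) .nil),
   .der (nat_lit 8) (nat_lit 4),
   .prs (.two (nat_lit 3) (nat_lit 1) (nat_lit 75) (nat_lit 4) (.two (nat_lit 0) (nat_lit 4) (nat_lit 69) (nat_lit 1) .nil)),
   .prs (.two (nat_lit 11) (nat_lit 8) (nat_lit 69) (nat_lit 1) .nil),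
   .der (nat_lit 129) (nat_lit 4),
   .der (nat_lit 18) (nat_lit 8),
   .der (nat_lit 18) (nat_lit 13),
   .der (nat_lit 33) (nat_lit 35),
   .prs (.two (nat_lit 2) (nat_lit 4) (nat_lit 78) (nat_lit 1) (.two (nat_lit 1) (nat_lit 2) (nat_lit 79) (nat_lit 1) (.two (nat_lit 0) (nat_lit 1) (nat_lit 80) (nat_lit 2) (.one (nat_lit 81) (nat_lit 1) .nil)))),
   .der (nat_lit 10305) (nat_lit 13),
   .prs (.two (nat_lit 11) (nat_lit 1) (nat_lit 83) (nat_lit 4) .nil),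
   .der (nat_lit 38163) (nat_lit 8),
   .der (nat_lit 35) (nat_lit 13),
   .prs (.two (nat_lit 11) (nat_lit 2) (nat_lit 85) (nat_lit 4) (.one (nat_lit 86) (nat_lit 4) .nil)),
   .der (nat_lit 147) (nat_lit 10),
   .der (nat_lit 33) (nat_lit 27),
   .prs (.two (nat_lit 11) (nat_lit 2) (nat_lit 88) (nat_lit 4) (.one (nat_lit 89) (nat_lit 4) .nil)),
   .der (nat_lit 1299) (nat_lit 6),
   .der (nat_lit 87) (nat_lit 27),
   .prs (.two (nat_lit 3) (nat_lit 1) (nat_lit 91) (nat_lit 16) (.one (nat_lit 92) (nat_lit 16) .nil)),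
   .der (nat_lit 19) (nat_lit 13),
   .prs (.two (nat_lit 46) (nat_lit 4) (nat_lit 94) (nat_lit 2) .nil),
   .der (nat_lit 1653) (nat_lit 4),
   .der (nat_lit 354) (nat_lit 13),
   .prs (.two (nat_lit 11) (nat_lit 1) (nat_lit 96) (nat_lit 8) (.two (nat_lit 0) (nat_lit 8) (nat_lit 97) (nat_lit 1) .nil)),
   .der (nat_lit 1554) (nat_lit 4),
   .der (nat_lit 1653) (nat_lit 6),
   .prs (.two (nat_lit 3) (nat_lit 1) (nat_lit 99) (nat_lit 2) (.two (nat_lit 0) (nat_lit 1) (nat_lit 100) (nat_lit 2) (.one (nat_lit 55) (nat_lit 1) .nil))),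
   .der (nat_lit 659) (nat_lit 15),
   .der (nat_lit 577) (nat_lit 48),
   .prs (.two (nat_lit 1) (nat_lit 8) (nat_lit 102) (nat_lit 1) (.one (nat_lit 103) (nat_lit 4) .nil)),
   .der (nat_lit 129) (nat_lit 13),
   .prs (.two (nat_lit 16) (nat_lit 4) (nat_lit 105) (nat_lit 16) .nil),
   .der (nat_lit 339) (nat_lit 45),
   .prs (.two (nat_lit 1) (nat_lit 8) (nat_lit 65) (nat_lit 2) (.one (nat_lit 107) (nat_lit 1) .nil)),
   .der (nat_lit 833) (nat_lit 13),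
   .prs (.two (nat_lit 16) (nat_lit 2) (nat_lit 109) (nat_lit 1) .nil),
   .der (nat_lit 21107) (nat_lit 6),
   .der (nat_lit 38163) (nat_lit 27),
   .prs (.two (nat_lit 11) (nat_lit 16) (nat_lit 111) (nat_lit 2) (.one (nat_lit 112) (nat_lit 2) .nil)),
   .der (nat_lit 3) (nat_lit 8),
   .prs (.two (nat_lit 1) (nat_lit 2) (nat_lit 7) (nat_lit 8) (.two (nat_lit 0) (nat_lit 1) (nat_lit 114) (nat_lit 2) (.one (nat_lit 57) (nat_lit 8) .nil))),
   .der (nat_lit 29011) (nat_lit 15),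
   .der (nat_lit 10305) (nat_lit 19),
   .prs (.two (nat_lit 1) (nat_lit 2) (nat_lit 116) (nat_lit 1) (.one (nat_lit 117) (nat_lit 1) .nil)),
   .der (nat_lit 1650) (nat_lit 15),
   .der (nat_lit 6) (nat_lit 19),
   .prs (.two (nat_lit 3) (nat_lit 8) (nat_lit 119) (nat_lit 1) (.one (nat_lit 120) (nat_lit 2) .nil)),
   .der (nat_lit 2135) (nat_lit 13),
   .prs (.two (nat_lit 46) (nat_lit 8) (nat_lit 122) (nat_lit 4) .nil),
   .der (nat_lit 339) (nat_lit 6),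
   .der (nat_lit 2390) (nat_lit 55),
   .prs (.two (nat_lit 1) (nat_lit 8) (nat_lit 124) (nat_lit 2) (.one (nat_lit 125) (nat_lit 2) .nil)),
   .der (nat_lit 6) (nat_lit 13),
   .prs (.two (nat_lit 1) (nat_lit 16) (nat_lit 127) (nat_lit 2) .nil),
   .der (nat_lit 1) (nat_lit 6),
   .der (nat_lit 35) (nat_lit 57),
   .prs (.two (nat_lit 3) (nat_lit 4) (nat_lit 129) (nat_lit 8) (.one (nat_lit 130) (nat_lit 8) .nil)),
   .der (nat_lit 2578) (nat_lit 8),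
   .prs (.two (nat_lit 11) (nat_lit 8) (nat_lit 46) (nat_lit 1) (.two (nat_lit 0) (nat_lit 1) (nat_lit 132) (nat_lit 8) .nil)),
   .der (nat_lit 644) (nat_lit 6),
   .prs (.two (nat_lit 1) (nat_lit 8) (nat_lit 134) (nat_lit 1) (.one (nat_lit 112) (nat_lit 1) .nil)),
   .der (nat_lit 10545) (nat_lit 15),
   .prs (.two (nat_lit 11) (nat_lit 2) (nat_lit 16) (nat_lit 16) (.two (nat_lit 0) (nat_lit 16) (nat_lit 136) (nat_lit 2) .nil)),
   .der (nat_lit 561) (nat_lit 10),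
   .prs (.two (nat_lit 1) (nat_lit 4) (nat_lit 138) (nat_lit 16) .nil),
   .der (nat_lit 132) (nat_lit 15),
   .prs (.two (nat_lit 1) (nat_lit 8) (nat_lit 140) (nat_lit 16) .nil),
   .der (nat_lit 30226) (nat_lit 10),
   .prs (.two (nat_lit 11) (nat_lit 2) (nat_lit 16) (nat_lit 1) (.two (nat_lit 0) (nat_lit 1) (nat_lit 142) (nat_lit 2) .nil)),
   .der (nat_lit 150) (nat_lit 4),
   .der (nat_lit 1299) (nat_lit 13),
   .prs (.two (nat_lit 11) (nat_lit 8) (nat_lit 144) (nat_lit 4) (.two (nat_lit 0) (nat_lit 8) (nat_lit 145) (nat_lit 4) .nil)),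
   .der (nat_lit 150) (nat_lit 6),
   .der (nat_lit 1430) (nat_lit 43),
   .prs (.two (nat_lit 1) (nat_lit 2) (nat_lit 147) (nat_lit 16) (.one (nat_lit 148) (nat_lit 1) .nil)),
   .der (nat_lit 2193) (nat_lit 8),
   .prs (.two (nat_lit 1) (nat_lit 16) (nat_lit 150) (nat_lit 8) .nil),
   .prs (.two (nat_lit 11) (nat_lit 2) (nat_lit 46) (nat_lit 1) (.two (nat_lit 0) (nat_lit 1) (nat_lit 142) (nat_lit 2) .nil)),
   .der (nat_lit 18) (nat_lit 31),
   .prs (.two (nat_lit 3) (nat_lit 4) (nat_lit 68) (nat_lit 1) (.two (nat_lit 0) (nat_lit 2) (nat_lit 153) (nat_lit 1) .nil)),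
   .der (nat_lit 33) (nat_lit 19),
   .prs (.two (nat_lit 1) (nat_lit 8) (nat_lit 155) (nat_lit 1) .nil),
   .der (nat_lit 5) (nat_lit 21),
   .prs (.two (nat_lit 1) (nat_lit 8) (nat_lit 157) (nat_lit 2) .nil),
   .prs (.two (nat_lit 3) (nat_lit 8) (nat_lit 155) (nat_lit 1) .nil),
   .prs (.two (nat_lit 3) (nat_lit 8) (nat_lit 157) (nat_lit 2) .nil),
   .prs (.two (nat_lit 3) (nat_lit 8) (nat_lit 21) (nat_lit 4) .nil),
   .prs (.two (nat_lit 1) (nat_lit 2) (nat_lit 78) (nat_lit 4) (.two (nat_lit 0) (nat_lit 4) (nat_lit 36) (nat_lit 2) (.one (nat_lit 66) (nat_lit 4) .nil))),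
   .der (nat_lit 129) (nat_lit 21),
   .prs (.two (nat_lit 1) (nat_lit 8) (nat_lit 163) (nat_lit 4) .nil),
   .der (nat_lit 8) (nat_lit 21),
   .prs (.two (nat_lit 11) (nat_lit 8) (nat_lit 165) (nat_lit 4) .nil),
   .der (nat_lit 83) (nat_lit 6),
   .der (nat_lit 33) (nat_lit 59),
   .prs (.two (nat_lit 34) (nat_lit 2) (nat_lit 167) (nat_lit 1) (.two (nat_lit 0) (nat_lit 1) (nat_lit 157) (nat_lit 2) (.one (nat_lit 168) (nat_lit 1) .nil))),
   .der (nat_lit 86) (nat_lit 2),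
   .der (nat_lit 5) (nat_lit 67),
   .prs (.two (nat_lit 2) (nat_lit 4) (nat_lit 170) (nat_lit 2) (.two (nat_lit 1) (nat_lit 2) (nat_lit 42) (nat_lit 4) (.two (nat_lit 0) (nat_lit 2) (nat_lit 21) (nat_lit 4) (.one (nat_lit 171) (nat_lit 2) .nil)))),
   .der (nat_lit 561) (nat_lit 2),
   .der (nat_lit 147) (nat_lit 6),
   .der (nat_lit 3) (nat_lit 24),
   .der (nat_lit 21107) (nat_lit 108),
   .prs (.two (nat_lit 170) (nat_lit 16) (nat_lit 173) (nat_lit 1) (.two (nat_lit 1) (nat_lit 16) (nat_lit 174) (nat_lit 1) (.two (nat_lit 0) (nat_lit 1) (nat_lit 175) (nat_lit 16) (.one (nat_lit 176) (nat_lit 1) .nil)))),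
   .der (nat_lit 1395) (nat_lit 4),
   .der (nat_lit 9) (nat_lit 15),
   .der (nat_lit 118) (nat_lit 21),
   .der (nat_lit 561) (nat_lit 90),
   .prs (.two (nat_lit 170) (nat_lit 4) (nat_lit 178) (nat_lit 1) (.two (nat_lit 1) (nat_lit 4) (nat_lit 179) (nat_lit 1) (.two (nat_lit 0) (nat_lit 1) (nat_lit 180) (nat_lit 4) (.one (nat_lit 181) (nat_lit 4) .nil)))),
   .der (nat_lit 21107) (nat_lit 45),
   .prs (.two (nat_lit 1) (nat_lit 2) (nat_lit 78) (nat_lit 16) (.two (nat_lit 0) (nat_lit 1) (nat_lit 183) (nat_lit 16) .nil)),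
   .der (nat_lit 5218) (nat_lit 24),
   .der (nat_lit 19) (nat_lit 87),
   .prs (.two (nat_lit 34) (nat_lit 2) (nat_lit 170) (nat_lit 4) (.two (nat_lit 1) (nat_lit 2) (nat_lit 42) (nat_lit 4) (.two (nat_lit 0) (nat_lit 4) (nat_lit 185) (nat_lit 2) (.one (nat_lit 186) (nat_lit 2) .nil)))),
   .der (nat_lit 16738) (nat_lit 19),
   .prs (.two (nat_lit 1) (nat_lit 2) (nat_lit 188) (nat_lit 1) .nil),
   .der (nat_lit 83) (nat_lit 4),
   .der (nat_lit 5) (nat_lit 24),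
   .prs (.two (nat_lit 75) (nat_lit 16) (nat_lit 190) (nat_lit 1) (.two (nat_lit 1) (nat_lit 16) (nat_lit 15) (nat_lit 1) (.two (nat_lit 0) (nat_lit 1) (nat_lit 191) (nat_lit 16) (.one (nat_lit 135) (nat_lit 16) .nil)))),
   .der (nat_lit 1875) (nat_lit 41),
   .prs (.two (nat_lit 1) (nat_lit 16) (nat_lit 68) (nat_lit 1) (.two (nat_lit 0) (nat_lit 1) (nat_lit 129) (nat_lit 16) (.one (nat_lit 193) (nat_lit 16) .nil))),
   .der (nat_lit 882) (nat_lit 4),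
   .der (nat_lit 1430) (nat_lit 15),
   .der (nat_lit 2578) (nat_lit 21),
   .der (nat_lit 2323) (nat_lit 113),
   .prs (.two (nat_lit 34) (nat_lit 2) (nat_lit 195) (nat_lit 1) (.two (nat_lit 1) (nat_lit 2) (nat_lit 196) (nat_lit 1) (.two (nat_lit 0) (nat_lit 1) (nat_lit 197) (nat_lit 2) (.one (nat_lit 198) (nat_lit 2) .nil)))),
   .der (nat_lit 1430) (nat_lit 19),
   .prs (.two (nat_lit 3) (nat_lit 4) (nat_lit 200) (nat_lit 2) .nil),
   .der (nat_lit 86) (nat_lit 4),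
   .der (nat_lit 2135) (nat_lit 24),
   .der (nat_lit 9) (nat_lit 93),
   .prs (.two (nat_lit 4) (nat_lit 8) (nat_lit 202) (nat_lit 4) (.two (nat_lit 1) (nat_lit 4) (nat_lit 65) (nat_lit 8) (.two (nat_lit 0) (nat_lit 4) (nat_lit 203) (nat_lit 8) (.one (nat_lit 204) (nat_lit 8) .nil)))),
   .der (nat_lit 2135) (nat_lit 2),
   .der (nat_lit 145) (nat_lit 45),
   .prs (.two (nat_lit 3) (nat_lit 1) (nat_lit 206) (nat_lit 8) (.two (nat_lit 0) (nat_lit 4) (nat_lit 207) (nat_lit 1) .nil)),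
   .der (nat_lit 2323) (nat_lit 6),
   .der (nat_lit 16738) (nat_lit 50),
   .prs (.two (nat_lit 11) (nat_lit 1) (nat_lit 209) (nat_lit 16) (.one (nat_lit 210) (nat_lit 1) .nil)),
   .der (nat_lit 6) (nat_lit 27),
   .prs (.two (nat_lit 46) (nat_lit 8) (nat_lit 212) (nat_lit 4) .nil),
   .der (nat_lit 2353) (nat_lit 4),
   .der (nat_lit 66) (nat_lit 10),
   .prs (.two (nat_lit 1) (nat_lit 2) (nat_lit 214) (nat_lit 4) (.two (nat_lit 0) (nat_lit 1) (nat_lit 215) (nat_lit 2) (.one (nat_lit 137) (nat_lit 4) .nil))),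
   .der (nat_lit 118) (nat_lit 24),
   .prs (.two (nat_lit 11) (nat_lit 2) (nat_lit 217) (nat_lit 8) .nil),
   .der (nat_lit 117) (nat_lit 21),
   .prs (.two (nat_lit 3) (nat_lit 8) (nat_lit 219) (nat_lit 2) .nil),
   .der (nat_lit 17185) (nat_lit 21),
   .prs (.two (nat_lit 11) (nat_lit 1) (nat_lit 221) (nat_lit 8) .nil),
   .prs (.two (nat_lit 11) (nat_lit 2) (nat_lit 175) (nat_lit 4) .nil),
   .der (nat_lit 834) (nat_lit 4),
   .der (nat_lit 1057) (nat_lit 21),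
   .prs (.two (nat_lit 16) (nat_lit 2) (nat_lit 224) (nat_lit 8) (.two (nat_lit 0) (nat_lit 1) (nat_lit 225) (nat_lit 8) .nil)),
   .der (nat_lit 18) (nat_lit 6),
   .der (nat_lit 117) (nat_lit 50),
   .prs (.two (nat_lit 1) (nat_lit 2) (nat_lit 227) (nat_lit 8) (.one (nat_lit 228) (nat_lit 2) .nil)),
   .prs (.two (nat_lit 46) (nat_lit 2) (nat_lit 217) (nat_lit 8) .nil),
   .der (nat_lit 1430) (nat_lit 21),
   .prs (.two (nat_lit 1) (nat_lit 2) (nat_lit 231) (nat_lit 16) .nil),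
   .der (nat_lit 644) (nat_lit 21),
   .prs (.two (nat_lit 11) (nat_lit 1) (nat_lit 233) (nat_lit 8) .nil),
   .der (nat_lit 36) (nat_lit 24),
   .prs (.two (nat_lit 3) (nat_lit 1) (nat_lit 235) (nat_lit 2) .nil),
   .prs (.two (nat_lit 3) (nat_lit 1) (nat_lit 188) (nat_lit 2) .nil),
   .der (nat_lit 1890) (nat_lit 21),
   .prs (.two (nat_lit 1) (nat_lit 2) (nat_lit 238) (nat_lit 1) .nil),
   .der (nat_lit 2353) (nat_lit 24),
   .prs (.two (nat_lit 1) (nat_lit 16) (nat_lit 240) (nat_lit 8) .nil),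
   .der (nat_lit 132) (nat_lit 54),
   .prs (.two (nat_lit 46) (nat_lit 4) (nat_lit 51) (nat_lit 2) (.one (nat_lit 242) (nat_lit 2) .nil)),
   .der (nat_lit 1057) (nat_lit 27),
   .prs (.two (nat_lit 1) (nat_lit 4) (nat_lit 244) (nat_lit 1) .nil),
   .der (nat_lit 4) (nat_lit 24),
   .prs (.two (nat_lit 46) (nat_lit 1) (nat_lit 246) (nat_lit 2) .nil),
   .der (nat_lit 33345) (nat_lit 2),
   .der (nat_lit 8) (nat_lit 50),
   .prs (.two (nat_lit 1) (nat_lit 2) (nat_lit 248) (nat_lit 4) (.two (nat_lit 0) (nat_lit 8) (nat_lit 249) (nat_lit 2) .nil)),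
   .der (nat_lit 17185) (nat_lit 27),
   .prs (.two (nat_lit 46) (nat_lit 8) (nat_lit 251) (nat_lit 1) .nil),
   .der (nat_lit 52) (nat_lit 8),
   .der (nat_lit 152) (nat_lit 50),
   .prs (.two (nat_lit 3) (nat_lit 1) (nat_lit 253) (nat_lit 8) (.one (nat_lit 254) (nat_lit 8) .nil)),
   .der (nat_lit 7) (nat_lit 24),
   .prs (.two (nat_lit 1) (nat_lit 4) (nat_lit 256) (nat_lit 2) .nil),
   .der (nat_lit 33345) (nat_lit 27),
   .prs (.two (nat_lit 3) (nat_lit 1) (nat_lit 258) (nat_lit 8) .nil),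
   .der (nat_lit 103) (nat_lit 19),
   .prs (.two (nat_lit 3) (nat_lit 8) (nat_lit 260) (nat_lit 4) .nil),
   .der (nat_lit 5218) (nat_lit 21),
   .prs (.two (nat_lit 1) (nat_lit 16) (nat_lit 262) (nat_lit 2) .nil),
   .der (nat_lit 30226) (nat_lit 8),
   .der (nat_lit 10) (nat_lit 54),
   .prs (.two (nat_lit 16) (nat_lit 16) (nat_lit 264) (nat_lit 2) (.one (nat_lit 265) (nat_lit 2) .nil)),
   .der (nat_lit 21107) (nat_lit 24),
   .prs (.two (nat_lit 16) (nat_lit 16) (nat_lit 267) (nat_lit 4) .nil),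
   .prs (.two (nat_lit 11) (nat_lit 16) (nat_lit 267) (nat_lit 4) .nil),
   .der (nat_lit 561) (nat_lit 24),
   .prs (.two (nat_lit 16) (nat_lit 2) (nat_lit 4) (nat_lit 8) (.two (nat_lit 0) (nat_lit 2) (nat_lit 270) (nat_lit 8) .nil)),
   .prs (.two (nat_lit 11) (nat_lit 16) (nat_lit 256) (nat_lit 2) .nil),
   .der (nat_lit 66) (nat_lit 8),
   .der (nat_lit 1) (nat_lit 54),
   .prs (.two (nat_lit 11) (nat_lit 8) (nat_lit 273) (nat_lit 1) (.one (nat_lit 274) (nat_lit 1) .nil)),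
   .der (nat_lit 1620) (nat_lit 10),
   .prs (.two (nat_lit 46) (nat_lit 4) (nat_lit 276) (nat_lit 1) (.one (nat_lit 141) (nat_lit 1) .nil)),
   .der (nat_lit 34068) (nat_lit 24),
   .prs (.two (nat_lit 1) (nat_lit 8) (nat_lit 278) (nat_lit 1) .nil),
   .der (nat_lit 145) (nat_lit 21),
   .prs (.two (nat_lit 16) (nat_lit 4) (nat_lit 280) (nat_lit 16) .nil),
   .der (nat_lit 87) (nat_lit 24),
   .prs (.two (nat_lit 46) (nat_lit 2) (nat_lit 282) (nat_lit 4) .nil),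
   .der (nat_lit 152) (nat_lit 43),
   .prs (.two (nat_lit 1) (nat_lit 8) (nat_lit 99) (nat_lit 2) (.two (nat_lit 0) (nat_lit 16) (nat_lit 284) (nat_lit 2) .nil)),
   .der (nat_lit 152) (nat_lit 27),
   .prs (.two (nat_lit 3) (nat_lit 8) (nat_lit 286) (nat_lit 4) .nil),
   .prs (.two (nat_lit 46) (nat_lit 1) (nat_lit 253) (nat_lit 8) (.one (nat_lit 254) (nat_lit 8) .nil)),
   .der (nat_lit 147) (nat_lit 8),
   .der (nat_lit 9) (nat_lit 45),
   .prs (.two (nat_lit 16) (nat_lit 2) (nat_lit 289) (nat_lit 4) (.one (nat_lit 290) (nat_lit 4) .nil)),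
   .der (nat_lit 1057) (nat_lit 8),
   .der (nat_lit 18) (nat_lit 54),
   .prs (.two (nat_lit 3) (nat_lit 16) (nat_lit 292) (nat_lit 1) (.one (nat_lit 293) (nat_lit 1) .nil)),
   .der (nat_lit 67) (nat_lit 21),
   .prs (.two (nat_lit 16) (nat_lit 16) (nat_lit 295) (nat_lit 1) .nil),
   .der (nat_lit 117) (nat_lit 19),
   .prs (.two (nat_lit 3) (nat_lit 16) (nat_lit 297) (nat_lit 8) .nil),
   .der (nat_lit 129) (nat_lit 43),
   .prs (.two (nat_lit 16) (nat_lit 2) (nat_lit 85) (nat_lit 4) (.one (nat_lit 299) (nat_lit 4) .nil)),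
   .der (nat_lit 87) (nat_lit 15),
   .der (nat_lit 20) (nat_lit 45),
   .prs (.two (nat_lit 3) (nat_lit 8) (nat_lit 301) (nat_lit 1) (.one (nat_lit 302) (nat_lit 1) .nil)),
   .der (nat_lit 577) (nat_lit 27),
   .prs (.two (nat_lit 1) (nat_lit 4) (nat_lit 304) (nat_lit 16) .nil),
   .der (nat_lit 161) (nat_lit 54),
   .prs (.two (nat_lit 1) (nat_lit 4) (nat_lit 224) (nat_lit 8) (.two (nat_lit 0) (nat_lit 2) (nat_lit 306) (nat_lit 8) .nil)),
   .der (nat_lit 1650) (nat_lit 2),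
   .der (nat_lit 50) (nat_lit 54),
   .prs (.two (nat_lit 1) (nat_lit 4) (nat_lit 308) (nat_lit 8) (.two (nat_lit 0) (nat_lit 2) (nat_lit 309) (nat_lit 4) .nil)),
   .der (nat_lit 1893) (nat_lit 10),
   .prs (.two (nat_lit 1) (nat_lit 4) (nat_lit 311) (nat_lit 2) (.one (nat_lit 103) (nat_lit 2) .nil)),
   .der (nat_lit 22548) (nat_lit 21),
   .prs (.two (nat_lit 1) (nat_lit 8) (nat_lit 313) (nat_lit 4) .nil),
   .der (nat_lit 1300) (nat_lit 8),
   .der (nat_lit 67) (nat_lit 50),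
   .prs (.two (nat_lit 1) (nat_lit 8) (nat_lit 315) (nat_lit 4) (.one (nat_lit 316) (nat_lit 4) .nil)),
   .der (nat_lit 1893) (nat_lit 24),
   .prs (.two (nat_lit 3) (nat_lit 4) (nat_lit 318) (nat_lit 8) .nil),
   .prs (.two (nat_lit 3) (nat_lit 1) (nat_lit 246) (nat_lit 4) .nil),
   .der (nat_lit 9572) (nat_lit 21),
   .prs (.two (nat_lit 3) (nat_lit 4) (nat_lit 321) (nat_lit 1) .nil),
   .der (nat_lit 114) (nat_lit 19),
   .prs (.two (nat_lit 11) (nat_lit 8) (nat_lit 323) (nat_lit 2) .nil),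
   .der (nat_lit 2) (nat_lit 4),
   .prs (.two (nat_lit 46) (nat_lit 2) (nat_lit 325) (nat_lit 16) (.two (nat_lit 0) (nat_lit 8) (nat_lit 221) (nat_lit 16) .nil)),
   .der (nat_lit 1074) (nat_lit 24),
   .prs (.two (nat_lit 46) (nat_lit 2) (nat_lit 327) (nat_lit 8) .nil),
   .der (nat_lit 35) (nat_lit 4),
   .der (nat_lit 145) (nat_lit 24),
   .prs (.two (nat_lit 46) (nat_lit 2) (nat_lit 329) (nat_lit 16) (.two (nat_lit 0) (nat_lit 4) (nat_lit 330) (nat_lit 16) .nil)),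
   .der (nat_lit 2433) (nat_lit 21),
   .prs (.two (nat_lit 1) (nat_lit 16) (nat_lit 332) (nat_lit 4) .nil),
   .der (nat_lit 1875) (nat_lit 4),
   .der (nat_lit 67) (nat_lit 45),
   .prs (.two (nat_lit 1) (nat_lit 16) (nat_lit 334) (nat_lit 2) (.two (nat_lit 0) (nat_lit 2) (nat_lit 227) (nat_lit 16) (.one (nat_lit 335) (nat_lit 2) .nil))),
   .prs (.two (nat_lit 16) (nat_lit 4) (nat_lit 117) (nat_lit 1) .nil),
   .der (nat_lit 5218) (nat_lit 4),
   .der (nat_lit 118) (nat_lit 31),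
   .prs (.two (nat_lit 1) (nat_lit 8) (nat_lit 338) (nat_lit 1) (.two (nat_lit 0) (nat_lit 2) (nat_lit 339) (nat_lit 8) .nil)),
   .der (nat_lit 147) (nat_lit 4),
   .der (nat_lit 5971) (nat_lit 10),
   .der (nat_lit 10) (nat_lit 141),
   .prs (.two (nat_lit 1) (nat_lit 8) (nat_lit 341) (nat_lit 4) (.two (nat_lit 0) (nat_lit 1) (nat_lit 342) (nat_lit 4) (.one (nat_lit 343) (nat_lit 4) .nil))),
   .der (nat_lit 2593) (nat_lit 137),
   .prs (.two (nat_lit 11) (nat_lit 1) (nat_lit 142) (nat_lit 2) (.one (nat_lit 345) (nat_lit 2) .nil)),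
   .der (nat_lit 17185) (nat_lit 24),
   .prs (.two (nat_lit 1) (nat_lit 8) (nat_lit 347) (nat_lit 4) .nil),
   .prs (.two (nat_lit 46) (nat_lit 8) (nat_lit 155) (nat_lit 1) .nil),
   .der (nat_lit 35) (nat_lit 24),
   .prs (.two (nat_lit 16) (nat_lit 1) (nat_lit 350) (nat_lit 2) .nil),
   .der (nat_lit 1395) (nat_lit 10),
   .der (nat_lit 4978) (nat_lit 21),
   .prs (.two (nat_lit 16) (nat_lit 4) (nat_lit 308) (nat_lit 2) (.two (nat_lit 0) (nat_lit 2) (nat_lit 352) (nat_lit 4) (.one (nat_lit 353) (nat_lit 2) .nil))),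
   .prs (.two (nat_lit 3) (nat_lit 1) (nat_lit 238) (nat_lit 2) .nil),
   .der (nat_lit 3) (nat_lit 4),
   .der (nat_lit 5218) (nat_lit 50),
   .prs (.two (nat_lit 1) (nat_lit 2) (nat_lit 356) (nat_lit 1) (.two (nat_lit 0) (nat_lit 16) (nat_lit 357) (nat_lit 2) .nil)),
   .der (nat_lit 1554) (nat_lit 21),
   .prs (.two (nat_lit 1) (nat_lit 16) (nat_lit 359) (nat_lit 2) .nil),
   .der (nat_lit 98) (nat_lit 4),
   .der (nat_lit 1554) (nat_lit 10),
   .der (nat_lit 101) (nat_lit 29),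
   .der (nat_lit 1) (nat_lit 158),
   .prs (.two (nat_lit 5) (nat_lit 1) (nat_lit 361) (nat_lit 8) (.two (nat_lit 1) (nat_lit 2) (nat_lit 362) (nat_lit 1) (.two (nat_lit 0) (nat_lit 2) (nat_lit 363) (nat_lit 4) (.one (nat_lit 364) (nat_lit 2) .nil)))),
   .der (nat_lit 101) (nat_lit 74),
   .prs (.two (nat_lit 4) (nat_lit 8) (nat_lit 12) (nat_lit 1) (.two (nat_lit 0) (nat_lit 2) (nat_lit 366) (nat_lit 4) .nil)),
   .der (nat_lit 129) (nat_lit 160),
   .prs (.two (nat_lit 4) (nat_lit 8) (nat_lit 32) (nat_lit 1) (.one (nat_lit 368) (nat_lit 2) .nil)),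
   .der (nat_lit 35) (nat_lit 6),
   .prs (.two (nat_lit 2) (nat_lit 4) (nat_lit 370) (nat_lit 1) (.two (nat_lit 0) (nat_lit 8) (nat_lit 38) (nat_lit 1) (.one (nat_lit 366) (nat_lit 4) .nil))),
   .der (nat_lit 18) (nat_lit 164),
   .prs (.two (nat_lit 2) (nat_lit 4) (nat_lit 4) (nat_lit 8) (.two (nat_lit 1) (nat_lit 8) (nat_lit 80) (nat_lit 2) (.one (nat_lit 372) (nat_lit 4) .nil))),
   .der (nat_lit 19) (nat_lit 4),
   .der (nat_lit 2) (nat_lit 31),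
   .prs (.two (nat_lit 75) (nat_lit 4) (nat_lit 374) (nat_lit 2) (.two (nat_lit 11) (nat_lit 1) (nat_lit 60) (nat_lit 2) (.two (nat_lit 0) (nat_lit 1) (nat_lit 375) (nat_lit 2) (.one (nat_lit 161) (nat_lit 1) .nil)))),
   .der (nat_lit 33) (nat_lit 77),
   .prs (.two (nat_lit 75) (nat_lit 2) (nat_lit 78) (nat_lit 4) (.two (nat_lit 3) (nat_lit 1) (nat_lit 60) (nat_lit 2) (.two (nat_lit 0) (nat_lit 1) (nat_lit 377) (nat_lit 4) .nil))),
   .prs (.two (nat_lit 7) (nat_lit 1) (nat_lit 374) (nat_lit 2) (.two (nat_lit 11) (nat_lit 1) (nat_lit 36) (nat_lit 2) (.two (nat_lit 0) (nat_lit 1) (nat_lit 157) (nat_lit 2) (.one (nat_lit 162) (nat_lit 1) .nil)))),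
   .der (nat_lit 561) (nat_lit 77),
   .prs (.two (nat_lit 5) (nat_lit 8) (nat_lit 227) (nat_lit 2) (.two (nat_lit 0) (nat_lit 4) (nat_lit 380) (nat_lit 8) .nil)),
   .prs (.two (nat_lit 5) (nat_lit 8) (nat_lit 34) (nat_lit 2) (.two (nat_lit 3) (nat_lit 8) (nat_lit 157) (nat_lit 2) (.one (nat_lit 380) (nat_lit 8) .nil))),
   .der (nat_lit 561) (nat_lit 4),
   .der (nat_lit 18) (nat_lit 4),
   .prs (.two (nat_lit 384) (nat_lit 1) (nat_lit 383) (nat_lit 8) (.two (nat_lit 1) (nat_lit 8) (nat_lit 61) (nat_lit 1) (.one (nat_lit 159) (nat_lit 2) .nil))),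
   .der (nat_lit 8) (nat_lit 19),
   .der (nat_lit 1) (nat_lit 161),
   .prs (.two (nat_lit 2) (nat_lit 4) (nat_lit 202) (nat_lit 8) (.two (nat_lit 1) (nat_lit 8) (nat_lit 386) (nat_lit 4) (.one (nat_lit 387) (nat_lit 1) .nil))),
   .der (nat_lit 3) (nat_lit 10),
   .der (nat_lit 101) (nat_lit 13),
   .der (nat_lit 8) (nat_lit 156),
   .prs (.two (nat_lit 34) (nat_lit 2) (nat_lit 389) (nat_lit 1) (.two (nat_lit 0) (nat_lit 1) (nat_lit 390) (nat_lit 2) (.one (nat_lit 391) (nat_lit 2) .nil))),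
   .der (nat_lit 1554) (nat_lit 29),
   .der (nat_lit 33) (nat_lit 158),
   .prs (.two (nat_lit 99) (nat_lit 1) (nat_lit 99) (nat_lit 2) (.two (nat_lit 11) (nat_lit 1) (nat_lit 362) (nat_lit 2) (.two (nat_lit 0) (nat_lit 1) (nat_lit 393) (nat_lit 2) (.one (nat_lit 394) (nat_lit 1) .nil)))),
   .prs (.two (nat_lit 7) (nat_lit 1) (nat_lit 190) (nat_lit 4) (.two (nat_lit 3) (nat_lit 4) (nat_lit 69) (nat_lit 1) (.one (nat_lit 77) (nat_lit 4) .nil))),
   .der (nat_lit 561) (nat_lit 6),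
   .der (nat_lit 354) (nat_lit 154),
   .prs (.two (nat_lit 75) (nat_lit 4) (nat_lit 397) (nat_lit 1) (.two (nat_lit 0) (nat_lit 2) (nat_lit 69) (nat_lit 1) (.one (nat_lit 398) (nat_lit 1) .nil))),
   .der (nat_lit 2) (nat_lit 160),
   .prs (.two (nat_lit 78) (nat_lit 4) (nat_lit 397) (nat_lit 1) (.two (nat_lit 0) (nat_lit 1) (nat_lit 390) (nat_lit 2) (.one (nat_lit 400) (nat_lit 1) .nil))),
   .der (nat_lit 2) (nat_lit 159),
   .prs (.two (nat_lit 78) (nat_lit 4) (nat_lit 356) (nat_lit 1) (.two (nat_lit 11) (nat_lit 1) (nat_lit 18) (nat_lit 4) (.two (nat_lit 0) (nat_lit 1) (nat_lit 163) (nat_lit 4) (.one (nat_lit 402) (nat_lit 1) .nil)))),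
   .der (nat_lit 2) (nat_lit 6),
   .prs (.two (nat_lit 4) (nat_lit 8) (nat_lit 404) (nat_lit 1) (.two (nat_lit 0) (nat_lit 4) (nat_lit 69) (nat_lit 1) (.one (nat_lit 366) (nat_lit 4) .nil))),
   .der (nat_lit 8) (nat_lit 77),
   .prs (.two (nat_lit 78) (nat_lit 4) (nat_lit 370) (nat_lit 1) (.two (nat_lit 0) (nat_lit 4) (nat_lit 71) (nat_lit 1) (.one (nat_lit 406) (nat_lit 8) .nil))),
   .der (nat_lit 49) (nat_lit 39),
   .prs (.two (nat_lit 7) (nat_lit 1) (nat_lit 374) (nat_lit 2) (.two (nat_lit 11) (nat_lit 2) (nat_lit 408) (nat_lit 1) .nil)),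
   .der (nat_lit 83) (nat_lit 13),
   .der (nat_lit 50) (nat_lit 39),
   .prs (.two (nat_lit 99) (nat_lit 2) (nat_lit 410) (nat_lit 1) (.one (nat_lit 411) (nat_lit 1) .nil)),
   .der (nat_lit 1554) (nat_lit 64),
   .prs (.two (nat_lit 78) (nat_lit 4) (nat_lit 170) (nat_lit 2) (.two (nat_lit 3) (nat_lit 4) (nat_lit 127) (nat_lit 2) (.one (nat_lit 413) (nat_lit 2) .nil))),
   .der (nat_lit 801) (nat_lit 33),
   .der (nat_lit 801) (nat_lit 82),
   .prs (.two (nat_lit 34) (nat_lit 2) (nat_lit 410) (nat_lit 1) (.two (nat_lit 0) (nat_lit 2) (nat_lit 415) (nat_lit 1) (.one (nat_lit 416) (nat_lit 1) .nil))),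
   .der (nat_lit 50) (nat_lit 13),
   .der (nat_lit 801) (nat_lit 37),
   .der (nat_lit 801) (nat_lit 169),
   .prs (.two (nat_lit 374) (nat_lit 2) (nat_lit 418) (nat_lit 1) (.two (nat_lit 0) (nat_lit 2) (nat_lit 419) (nat_lit 1) (.one (nat_lit 420) (nat_lit 1) .nil))),
   .der (nat_lit 2068) (nat_lit 8),
   .der (nat_lit 8) (nat_lit 33),
   .der (nat_lit 2433) (nat_lit 82),
   .prs (.two (nat_lit 170) (nat_lit 16) (nat_lit 422) (nat_lit 2) (.two (nat_lit 11) (nat_lit 2) (nat_lit 423) (nat_lit 16) (.one (nat_lit 424) (nat_lit 16) .nil))),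
   .prs (.two (nat_lit 17) (nat_lit 2) (nat_lit 342) (nat_lit 4) (.two (nat_lit 0) (nat_lit 4) (nat_lit 45) (nat_lit 2) (.one (nat_lit 222) (nat_lit 2) .nil))),
   .der (nat_lit 86) (nat_lit 6),
   .der (nat_lit 370) (nat_lit 24),
   .prs (.two (nat_lit 75) (nat_lit 4) (nat_lit 190) (nat_lit 1) (.two (nat_lit 3) (nat_lit 1) (nat_lit 427) (nat_lit 4) (.two (nat_lit 0) (nat_lit 4) (nat_lit 428) (nat_lit 1) (.one (nat_lit 223) (nat_lit 1) .nil)))),
   .der (nat_lit 356) (nat_lit 4),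
   .der (nat_lit 1122) (nat_lit 84),
   .prs (.two (nat_lit 99) (nat_lit 16) (nat_lit 430) (nat_lit 1) (.two (nat_lit 11) (nat_lit 1) (nat_lit 145) (nat_lit 16) (.one (nat_lit 431) (nat_lit 1) .nil))),
   .der (nat_lit 2323) (nat_lit 4),
   .der (nat_lit 98) (nat_lit 2),
   .prs (.two (nat_lit 434) (nat_lit 2) (nat_lit 433) (nat_lit 4) (.two (nat_lit 11) (nat_lit 2) (nat_lit 85) (nat_lit 4) (.two (nat_lit 0) (nat_lit 2) (nat_lit 86) (nat_lit 4) (.one (nat_lit 126) (nat_lit 4) .nil)))),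
   .der (nat_lit 833) (nat_lit 4),
   .der (nat_lit 17185) (nat_lit 19),
   .prs (.two (nat_lit 383) (nat_lit 4) (nat_lit 436) (nat_lit 8) (.two (nat_lit 1) (nat_lit 4) (nat_lit 437) (nat_lit 8) (.one (nat_lit 226) (nat_lit 4) .nil))),
   .der (nat_lit 137) (nat_lit 4),
   .der (nat_lit 5) (nat_lit 13),
   .prs (.two (nat_lit 4) (nat_lit 8) (nat_lit 439) (nat_lit 2) (.two (nat_lit 1) (nat_lit 2) (nat_lit 440) (nat_lit 8) (.one (nat_lit 229) (nat_lit 1) .nil))),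
   .der (nat_lit 12658) (nat_lit 4),
   .der (nat_lit 22548) (nat_lit 4),
   .der (nat_lit 612) (nat_lit 13),
   .der (nat_lit 86) (nat_lit 123),
   .prs (.two (nat_lit 443) (nat_lit 2) (nat_lit 442) (nat_lit 1) (.two (nat_lit 3) (nat_lit 1) (nat_lit 444) (nat_lit 2) (.one (nat_lit 445) (nat_lit 1) .nil))),
   .der (nat_lit 129) (nat_lit 126),
   .prs (.two (nat_lit 325) (nat_lit 8) (nat_lit 338) (nat_lit 1) (.two (nat_lit 11) (nat_lit 1) (nat_lit 80) (nat_lit 8) (.one (nat_lit 447) (nat_lit 8) .nil))),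
   .der (nat_lit 26386) (nat_lit 13),
   .der (nat_lit 370) (nat_lit 123),
   .prs (.two (nat_lit 34) (nat_lit 2) (nat_lit 202) (nat_lit 8) (.two (nat_lit 1) (nat_lit 8) (nat_lit 449) (nat_lit 2) (.one (nat_lit 450) (nat_lit 1) .nil))),
   .der (nat_lit 34068) (nat_lit 4),
   .prs (.two (nat_lit 374) (nat_lit 2) (nat_lit 452) (nat_lit 1) (.two (nat_lit 1) (nat_lit 16) (nat_lit 427) (nat_lit 2) (.two (nat_lit 0) (nat_lit 16) (nat_lit 27) (nat_lit 2) (.one (nat_lit 128) (nat_lit 1) .nil)))),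
   .der (nat_lit 17185) (nat_lit 123),
   .prs (.two (nat_lit 4) (nat_lit 8) (nat_lit 443) (nat_lit 2) (.two (nat_lit 3) (nat_lit 16) (nat_lit 6) (nat_lit 8) (.two (nat_lit 0) (nat_lit 16) (nat_lit 454) (nat_lit 2) .nil))),
   .der (nat_lit 129) (nat_lit 6),
   .der (nat_lit 3) (nat_lit 29),
   .prs (.two (nat_lit 2) (nat_lit 8) (nat_lit 9) (nat_lit 4) (.two (nat_lit 3) (nat_lit 4) (nat_lit 456) (nat_lit 8) (.two (nat_lit 0) (nat_lit 16) (nat_lit 457) (nat_lit 2) (.one (nat_lit 131) (nat_lit 2) .nil)))),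
   .der (nat_lit 22548) (nat_lit 13),
   .der (nat_lit 30226) (nat_lit 115),
   .prs (.two (nat_lit 9) (nat_lit 1) (nat_lit 422) (nat_lit 2) (.two (nat_lit 0) (nat_lit 1) (nat_lit 459) (nat_lit 2) (.one (nat_lit 460) (nat_lit 2) .nil))),
   .der (nat_lit 34068) (nat_lit 13),
   .der (nat_lit 5) (nat_lit 4),
   .der (nat_lit 132) (nat_lit 123),
   .prs (.two (nat_lit 463) (nat_lit 4) (nat_lit 462) (nat_lit 8) (.one (nat_lit 464) (nat_lit 1) .nil)),
   .der (nat_lit 1) (nat_lit 131),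
   .prs (.two (nat_lit 2) (nat_lit 8) (nat_lit 17) (nat_lit 4) (.two (nat_lit 1) (nat_lit 4) (nat_lit 42) (nat_lit 8) (.two (nat_lit 0) (nat_lit 1) (nat_lit 133) (nat_lit 4) (.one (nat_lit 466) (nat_lit 1) .nil)))),
   .der (nat_lit 86) (nat_lit 128),
   .prs (.two (nat_lit 384) (nat_lit 8) (nat_lit 443) (nat_lit 1) (.two (nat_lit 1) (nat_lit 16) (nat_lit 36) (nat_lit 8) (.two (nat_lit 0) (nat_lit 4) (nat_lit 468) (nat_lit 1) .nil))),
   .der (nat_lit 659) (nat_lit 8),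
   .der (nat_lit 10545) (nat_lit 35),
   .prs (.two (nat_lit 356) (nat_lit 1) (nat_lit 206) (nat_lit 2) (.two (nat_lit 1) (nat_lit 2) (nat_lit 470) (nat_lit 1) (.two (nat_lit 0) (nat_lit 2) (nat_lit 471) (nat_lit 1) .nil))),
   .der (nat_lit 1299) (nat_lit 74),
   .prs (.two (nat_lit 34) (nat_lit 8) (nat_lit 75) (nat_lit 2) (.two (nat_lit 1) (nat_lit 2) (nat_lit 36) (nat_lit 8) (.two (nat_lit 0) (nat_lit 16) (nat_lit 473) (nat_lit 1) .nil))),
   .der (nat_lit 34068) (nat_lit 8),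
   .der (nat_lit 33345) (nat_lit 35),
   .prs (.two (nat_lit 374) (nat_lit 2) (nat_lit 475) (nat_lit 8) (.two (nat_lit 0) (nat_lit 2) (nat_lit 476) (nat_lit 8) .nil)),
   .der (nat_lit 34068) (nat_lit 84),
   .prs (.two (nat_lit 374) (nat_lit 2) (nat_lit 248) (nat_lit 1) (.two (nat_lit 3) (nat_lit 1) (nat_lit 124) (nat_lit 2) (.two (nat_lit 0) (nat_lit 8) (nat_lit 478) (nat_lit 1) .nil))),
   .der (nat_lit 9572) (nat_lit 39),
   .prs (.two (nat_lit 374) (nat_lit 16) (nat_lit 83) (nat_lit 1) (.one (nat_lit 480) (nat_lit 1) .nil)),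
   .der (nat_lit 2193) (nat_lit 4),
   .prs (.two (nat_lit 374) (nat_lit 16) (nat_lit 482) (nat_lit 1) (.two (nat_lit 1) (nat_lit 2) (nat_lit 422) (nat_lit 8) (.two (nat_lit 0) (nat_lit 8) (nat_lit 148) (nat_lit 1) (.one (nat_lit 232) (nat_lit 1) .nil)))),
   .der (nat_lit 17185) (nat_lit 106),
   .prs (.two (nat_lit 75) (nat_lit 4) (nat_lit 49) (nat_lit 1) (.two (nat_lit 0) (nat_lit 16) (nat_lit 484) (nat_lit 4) .nil)),
   .der (nat_lit 1810) (nat_lit 10),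
   .der (nat_lit 833) (nat_lit 131),
   .prs (.two (nat_lit 4) (nat_lit 16) (nat_lit 5) (nat_lit 1) (.two (nat_lit 1) (nat_lit 2) (nat_lit 486) (nat_lit 1) (.two (nat_lit 0) (nat_lit 2) (nat_lit 487) (nat_lit 16) .nil))),
   .der (nat_lit 6) (nat_lit 6),
   .der (nat_lit 103) (nat_lit 13),
   .der (nat_lit 20) (nat_lit 101),
   .prs (.two (nat_lit 2) (nat_lit 16) (nat_lit 489) (nat_lit 2) (.two (nat_lit 0) (nat_lit 16) (nat_lit 490) (nat_lit 2) (.one (nat_lit 491) (nat_lit 2) .nil))),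
   .der (nat_lit 6) (nat_lit 4),
   .der (nat_lit 36) (nat_lit 77),
   .prs (.two (nat_lit 2) (nat_lit 16) (nat_lit 493) (nat_lit 8) (.two (nat_lit 1) (nat_lit 8) (nat_lit 105) (nat_lit 16) (.one (nat_lit 494) (nat_lit 1) .nil))),
   .der (nat_lit 10305) (nat_lit 74),
   .prs (.two (nat_lit 14) (nat_lit 2) (nat_lit 178) (nat_lit 1) (.two (nat_lit 3) (nat_lit 1) (nat_lit 422) (nat_lit 2) (.two (nat_lit 0) (nat_lit 1) (nat_lit 459) (nat_lit 2) (.one (nat_lit 496) (nat_lit 1) .nil)))),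
   .der (nat_lit 49) (nat_lit 131),
   .prs (.two (nat_lit 2) (nat_lit 8) (nat_lit 102) (nat_lit 1) (.two (nat_lit 0) (nat_lit 4) (nat_lit 86) (nat_lit 1) (.one (nat_lit 498) (nat_lit 8) .nil)))]

theorem b5_step0 (h : ∀ j < 0, Good b5T j) : ∀ j < 500, Good b5T j := by
  intro j hj
  refine chkL_ok b5C0 0 h (by decide +kernel) j ?_
  have h : b5C0.length = 500 := by decide +kernel
  omega

/-- certificates 500..1000 -/
def b5C1 : List Cf :=
  [.der (nat_lit 38163) (nat_lit 115),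
   .prs (.two (nat_lit 2) (nat_lit 16) (nat_lit 489) (nat_lit 2) (.two (nat_lit 0) (nat_lit 8) (nat_lit 500) (nat_lit 2) .nil)),
   .der (nat_lit 24916) (nat_lit 13),
   .der (nat_lit 66) (nat_lit 84),
   .prs (.two (nat_lit 75) (nat_lit 16) (nat_lit 308) (nat_lit 2) (.two (nat_lit 1) (nat_lit 16) (nat_lit 502) (nat_lit 2) (.one (nat_lit 503) (nat_lit 2) .nil))),
   .der (nat_lit 2339) (nat_lit 10),
   .prs (.two (nat_lit 17) (nat_lit 2) (nat_lit 505) (nat_lit 16) (.two (nat_lit 0) (nat_lit 16) (nat_lit 50) (nat_lit 2) (.one (nat_lit 234) (nat_lit 2) .nil))),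
   .der (nat_lit 1395) (nat_lit 74),
   .prs (.two (nat_lit 206) (nat_lit 8) (nat_lit 436) (nat_lit 1) (.two (nat_lit 3) (nat_lit 1) (nat_lit 462) (nat_lit 8) (.one (nat_lit 507) (nat_lit 1) .nil))),
   .der (nat_lit 2193) (nat_lit 13),
   .der (nat_lit 1) (nat_lit 123),
   .prs (.two (nat_lit 2) (nat_lit 4) (nat_lit 68) (nat_lit 16) (.two (nat_lit 11) (nat_lit 16) (nat_lit 509) (nat_lit 4) (.one (nat_lit 510) (nat_lit 16) .nil))),
   .der (nat_lit 20) (nat_lit 184),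
   .prs (.two (nat_lit 96) (nat_lit 8) (nat_lit 433) (nat_lit 2) (.two (nat_lit 16) (nat_lit 2) (nat_lit 122) (nat_lit 8) (.one (nat_lit 512) (nat_lit 8) .nil))),
   .der (nat_lit 1415) (nat_lit 4),
   .der (nat_lit 561) (nat_lit 95),
   .prs (.two (nat_lit 34) (nat_lit 8) (nat_lit 514) (nat_lit 2) (.two (nat_lit 1) (nat_lit 2) (nat_lit 80) (nat_lit 8) (.one (nat_lit 515) (nat_lit 2) .nil))),
   .der (nat_lit 16738) (nat_lit 234),
   .prs (.two (nat_lit 374) (nat_lit 16) (nat_lit 224) (nat_lit 1) (.two (nat_lit 11) (nat_lit 8) (nat_lit 210) (nat_lit 1) (.one (nat_lit 517) (nat_lit 1) .nil))),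
   .der (nat_lit 2135) (nat_lit 4),
   .der (nat_lit 1) (nat_lit 13),
   .prs (.two (nat_lit 2) (nat_lit 8) (nat_lit 519) (nat_lit 16) (.two (nat_lit 1) (nat_lit 16) (nat_lit 520) (nat_lit 8) (.one (nat_lit 454) (nat_lit 1) .nil))),
   .der (nat_lit 33345) (nat_lit 13),
   .der (nat_lit 132) (nat_lit 115),
   .prs (.two (nat_lit 173) (nat_lit 4) (nat_lit 522) (nat_lit 8) (.one (nat_lit 523) (nat_lit 8) .nil)),
   .der (nat_lit 1122) (nat_lit 10),
   .der (nat_lit 2) (nat_lit 27),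
   .prs (.two (nat_lit 2) (nat_lit 8) (nat_lit 525) (nat_lit 2) (.two (nat_lit 0) (nat_lit 8) (nat_lit 526) (nat_lit 2) (.one (nat_lit 237) (nat_lit 8) .nil))),
   .der (nat_lit 1415) (nat_lit 6),
   .der (nat_lit 2084) (nat_lit 84),
   .prs (.two (nat_lit 99) (nat_lit 1) (nat_lit 528) (nat_lit 2) (.two (nat_lit 0) (nat_lit 4) (nat_lit 529) (nat_lit 2) .nil)),
   .der (nat_lit 1430) (nat_lit 10),
   .der (nat_lit 18) (nat_lit 27),
   .prs (.two (nat_lit 2) (nat_lit 8) (nat_lit 531) (nat_lit 4) (.two (nat_lit 0) (nat_lit 8) (nat_lit 532) (nat_lit 1) (.one (nat_lit 239) (nat_lit 8) .nil))),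
   .der (nat_lit 115) (nat_lit 19),
   .der (nat_lit 644) (nat_lit 104),
   .prs (.two (nat_lit 5) (nat_lit 16) (nat_lit 209) (nat_lit 2) (.two (nat_lit 0) (nat_lit 16) (nat_lit 534) (nat_lit 2) (.one (nat_lit 535) (nat_lit 2) .nil))),
   .der (nat_lit 354) (nat_lit 6),
   .der (nat_lit 2578) (nat_lit 123),
   .prs (.two (nat_lit 75) (nat_lit 2) (nat_lit 214) (nat_lit 4) (.two (nat_lit 3) (nat_lit 1) (nat_lit 537) (nat_lit 2) (.two (nat_lit 0) (nat_lit 1) (nat_lit 538) (nat_lit 4) .nil))),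
   .der (nat_lit 137) (nat_lit 50),
   .der (nat_lit 20) (nat_lit 131),
   .prs (.two (nat_lit 463) (nat_lit 4) (nat_lit 206) (nat_lit 8) (.two (nat_lit 1) (nat_lit 4) (nat_lit 528) (nat_lit 8) (.two (nat_lit 0) (nat_lit 1) (nat_lit 540) (nat_lit 8) (.one (nat_lit 541) (nat_lit 1) .nil)))),
   .der (nat_lit 2135) (nat_lit 6),
   .prs (.two (nat_lit 7) (nat_lit 8) (nat_lit 543) (nat_lit 2) (.two (nat_lit 0) (nat_lit 1) (nat_lit 52) (nat_lit 8) (.one (nat_lit 243) (nat_lit 8) .nil))),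
   .prs (.two (nat_lit 4) (nat_lit 8) (nat_lit 482) (nat_lit 1) (.two (nat_lit 1) (nat_lit 2) (nat_lit 440) (nat_lit 8) (.one (nat_lit 245) (nat_lit 8) .nil))),
   .der (nat_lit 1299) (nat_lit 115),
   .prs (.two (nat_lit 2) (nat_lit 4) (nat_lit 147) (nat_lit 2) (.two (nat_lit 0) (nat_lit 16) (nat_lit 546) (nat_lit 2) .nil)),
   .der (nat_lit 2353) (nat_lit 121),
   .prs (.two (nat_lit 170) (nat_lit 4) (nat_lit 361) (nat_lit 2) (.two (nat_lit 1) (nat_lit 2) (nat_lit 145) (nat_lit 4) (.one (nat_lit 548) (nat_lit 4) .nil))),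
   .der (nat_lit 834) (nat_lit 13),
   .prs (.two (nat_lit 17) (nat_lit 2) (nat_lit 195) (nat_lit 1) (.two (nat_lit 1) (nat_lit 2) (nat_lit 273) (nat_lit 1) (.two (nat_lit 0) (nat_lit 2) (nat_lit 550) (nat_lit 1) (.one (nat_lit 250) (nat_lit 1) .nil)))),
   .prs (.two (nat_lit 514) (nat_lit 2) (nat_lit 14) (nat_lit 1) (.two (nat_lit 1) (nat_lit 2) (nat_lit 116) (nat_lit 1) (.two (nat_lit 0) (nat_lit 2) (nat_lit 233) (nat_lit 1) (.one (nat_lit 252) (nat_lit 2) .nil)))),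
   .der (nat_lit 1) (nat_lit 10),
   .der (nat_lit 19) (nat_lit 21),
   .prs (.two (nat_lit 5) (nat_lit 8) (nat_lit 482) (nat_lit 1) (.two (nat_lit 3) (nat_lit 1) (nat_lit 553) (nat_lit 8) (.two (nat_lit 0) (nat_lit 1) (nat_lit 554) (nat_lit 2) (.one (nat_lit 257) (nat_lit 8) .nil)))),
   .der (nat_lit 33) (nat_lit 4),
   .der (nat_lit 83) (nat_lit 31),
   .prs (.two (nat_lit 556) (nat_lit 8) (nat_lit 75) (nat_lit 4) (.two (nat_lit 1) (nat_lit 4) (nat_lit 30) (nat_lit 8) (.two (nat_lit 0) (nat_lit 2) (nat_lit 557) (nat_lit 4) (.one (nat_lit 259) (nat_lit 4) .nil)))),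
   .der (nat_lit 833) (nat_lit 106),
   .prs (.two (nat_lit 99) (nat_lit 2) (nat_lit 462) (nat_lit 8) (.one (nat_lit 559) (nat_lit 2) .nil)),
   .der (nat_lit 34068) (nat_lit 10),
   .prs (.two (nat_lit 356) (nat_lit 1) (nat_lit 561) (nat_lit 4) (.two (nat_lit 0) (nat_lit 16) (nat_lit 54) (nat_lit 1) (.one (nat_lit 261) (nat_lit 1) .nil))),
   .der (nat_lit 1122) (nat_lit 48),
   .prs (.two (nat_lit 46) (nat_lit 8) (nat_lit 563) (nat_lit 4) .nil),
   .der (nat_lit 7) (nat_lit 52),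
   .prs (.two (nat_lit 3) (nat_lit 1) (nat_lit 565) (nat_lit 2) .nil),
   .der (nat_lit 370) (nat_lit 50),
   .prs (.two (nat_lit 1) (nat_lit 16) (nat_lit 567) (nat_lit 2) .nil),
   .der (nat_lit 33345) (nat_lit 52),
   .prs (.two (nat_lit 1) (nat_lit 8) (nat_lit 569) (nat_lit 2) .nil),
   .der (nat_lit 117) (nat_lit 64),
   .prs (.two (nat_lit 190) (nat_lit 1) (nat_lit 308) (nat_lit 8) (.two (nat_lit 3) (nat_lit 1) (nat_lit 449) (nat_lit 8) (.one (nat_lit 571) (nat_lit 8) .nil))),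
   .der (nat_lit 882) (nat_lit 13),
   .der (nat_lit 29011) (nat_lit 121),
   .prs (.two (nat_lit 7) (nat_lit 8) (nat_lit 308) (nat_lit 2) (.two (nat_lit 3) (nat_lit 8) (nat_lit 573) (nat_lit 2) (.one (nat_lit 574) (nat_lit 2) .nil))),
   .der (nat_lit 12658) (nat_lit 13),
   .der (nat_lit 152) (nat_lit 84),
   .prs (.two (nat_lit 170) (nat_lit 2) (nat_lit 576) (nat_lit 8) (.one (nat_lit 577) (nat_lit 2) .nil)),
   .der (nat_lit 1074) (nat_lit 84),
   .prs (.two (nat_lit 2) (nat_lit 8) (nat_lit 338) (nat_lit 1) (.two (nat_lit 3) (nat_lit 8) (nat_lit 167) (nat_lit 1) (.two (nat_lit 0) (nat_lit 1) (nat_lit 509) (nat_lit 8) (.one (nat_lit 579) (nat_lit 1) .nil)))),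
   .der (nat_lit 5716) (nat_lit 4),
   .der (nat_lit 2084) (nat_lit 13),
   .der (nat_lit 115) (nat_lit 84),
   .prs (.two (nat_lit 214) (nat_lit 4) (nat_lit 581) (nat_lit 2) (.two (nat_lit 16) (nat_lit 2) (nat_lit 582) (nat_lit 4) (.one (nat_lit 583) (nat_lit 2) .nil))),
   .der (nat_lit 1107) (nat_lit 123),
   .prs (.two (nat_lit 170) (nat_lit 2) (nat_lit 14) (nat_lit 1) (.two (nat_lit 1) (nat_lit 16) (nat_lit 94) (nat_lit 2) (.one (nat_lit 585) (nat_lit 1) .nil))),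
   .der (nat_lit 135) (nat_lit 15),
   .der (nat_lit 49) (nat_lit 43),
   .prs (.two (nat_lit 224) (nat_lit 2) (nat_lit 224) (nat_lit 8) (.two (nat_lit 11) (nat_lit 2) (nat_lit 587) (nat_lit 8) (.two (nat_lit 0) (nat_lit 2) (nat_lit 588) (nat_lit 8) (.one (nat_lit 268) (nat_lit 2) .nil)))),
   .der (nat_lit 12658) (nat_lit 6),
   .der (nat_lit 65) (nat_lit 27),
   .prs (.two (nat_lit 224) (nat_lit 8) (nat_lit 590) (nat_lit 2) (.two (nat_lit 0) (nat_lit 2) (nat_lit 591) (nat_lit 4) (.one (nat_lit 269) (nat_lit 2) .nil))),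
   .der (nat_lit 86) (nat_lit 37),
   .prs (.two (nat_lit 75) (nat_lit 4) (nat_lit 96) (nat_lit 8) (.two (nat_lit 1) (nat_lit 4) (nat_lit 80) (nat_lit 8) (.one (nat_lit 593) (nat_lit 4) .nil))),
   .der (nat_lit 4978) (nat_lit 15),
   .der (nat_lit 1107) (nat_lit 54),
   .prs (.two (nat_lit 482) (nat_lit 1) (nat_lit 482) (nat_lit 8) (.two (nat_lit 3) (nat_lit 1) (nat_lit 595) (nat_lit 8) (.two (nat_lit 0) (nat_lit 1) (nat_lit 596) (nat_lit 8) (.one (nat_lit 272) (nat_lit 8) .nil)))),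
   .der (nat_lit 129) (nat_lit 52),
   .prs (.two (nat_lit 170) (nat_lit 4) (nat_lit 49) (nat_lit 1) (.two (nat_lit 0) (nat_lit 8) (nat_lit 598) (nat_lit 4) (.one (nat_lit 275) (nat_lit 4) .nil))),
   .der (nat_lit 10545) (nat_lit 123),
   .prs (.two (nat_lit 2) (nat_lit 16) (nat_lit 384) (nat_lit 1) (.two (nat_lit 1) (nat_lit 4) (nat_lit 582) (nat_lit 1) (.one (nat_lit 600) (nat_lit 1) .nil))),
   .der (nat_lit 10) (nat_lit 15),
   .der (nat_lit 1107) (nat_lit 57),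
   .der (nat_lit 16738) (nat_lit 245),
   .prs (.two (nat_lit 7) (nat_lit 8) (nat_lit 602) (nat_lit 4) (.two (nat_lit 0) (nat_lit 4) (nat_lit 603) (nat_lit 8) (.one (nat_lit 604) (nat_lit 8) .nil))),
   .der (nat_lit 10545) (nat_lit 55),
   .der (nat_lit 4978) (nat_lit 269),
   .prs (.two (nat_lit 5) (nat_lit 8) (nat_lit 329) (nat_lit 16) (.two (nat_lit 1) (nat_lit 16) (nat_lit 606) (nat_lit 2) (.one (nat_lit 607) (nat_lit 2) .nil))),
   .der (nat_lit 52) (nat_lit 10),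
   .prs (.two (nat_lit 1) (nat_lit 16) (nat_lit 17) (nat_lit 4) (.two (nat_lit 0) (nat_lit 4) (nat_lit 609) (nat_lit 1) (.one (nat_lit 139) (nat_lit 1) .nil))),
   .der (nat_lit 10305) (nat_lit 128),
   .prs (.two (nat_lit 2) (nat_lit 16) (nat_lit 325) (nat_lit 2) (.two (nat_lit 1) (nat_lit 2) (nat_lit 42) (nat_lit 16) (.two (nat_lit 0) (nat_lit 4) (nat_lit 462) (nat_lit 2) (.one (nat_lit 611) (nat_lit 2) .nil)))),
   .der (nat_lit 22548) (nat_lit 8),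
   .der (nat_lit 2068) (nat_lit 31),
   .prs (.two (nat_lit 384) (nat_lit 1) (nat_lit 170) (nat_lit 16) (.two (nat_lit 1) (nat_lit 4) (nat_lit 613) (nat_lit 1) (.two (nat_lit 0) (nat_lit 4) (nat_lit 614) (nat_lit 1) (.one (nat_lit 277) (nat_lit 16) .nil)))),
   .der (nat_lit 5218) (nat_lit 13),
   .der (nat_lit 29011) (nat_lit 106),
   .prs (.two (nat_lit 325) (nat_lit 8) (nat_lit 195) (nat_lit 2) (.two (nat_lit 1) (nat_lit 8) (nat_lit 616) (nat_lit 2) (.one (nat_lit 617) (nat_lit 8) .nil))),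
   .der (nat_lit 16738) (nat_lit 10),
   .der (nat_lit 18) (nat_lit 201),
   .prs (.two (nat_lit 2) (nat_lit 8) (nat_lit 619) (nat_lit 1) (.two (nat_lit 0) (nat_lit 1) (nat_lit 13) (nat_lit 8) (.one (nat_lit 620) (nat_lit 8) .nil))),
   .der (nat_lit 26386) (nat_lit 4),
   .der (nat_lit 339) (nat_lit 4),
   .prs (.two (nat_lit 623) (nat_lit 2) (nat_lit 622) (nat_lit 8) (.two (nat_lit 1) (nat_lit 2) (nat_lit 38) (nat_lit 8) (.one (nat_lit 515) (nat_lit 2) .nil))),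
   .der (nat_lit 882) (nat_lit 6),
   .der (nat_lit 2390) (nat_lit 84),
   .prs (.two (nat_lit 2) (nat_lit 8) (nat_lit 625) (nat_lit 2) (.two (nat_lit 0) (nat_lit 1) (nat_lit 626) (nat_lit 8) .nil)),
   .der (nat_lit 659) (nat_lit 10),
   .der (nat_lit 129) (nat_lit 27),
   .der (nat_lit 10) (nat_lit 216),
   .prs (.two (nat_lit 2) (nat_lit 8) (nat_lit 341) (nat_lit 4) (.two (nat_lit 16) (nat_lit 2) (nat_lit 628) (nat_lit 4) (.two (nat_lit 0) (nat_lit 2) (nat_lit 629) (nat_lit 8) (.one (nat_lit 630) (nat_lit 8) .nil)))),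
   .der (nat_lit 22548) (nat_lit 10),
   .der (nat_lit 1430) (nat_lit 54),
   .prs (.two (nat_lit 338) (nat_lit 1) (nat_lit 632) (nat_lit 2) (.two (nat_lit 0) (nat_lit 2) (nat_lit 633) (nat_lit 1) (.one (nat_lit 281) (nat_lit 1) .nil))),
   .der (nat_lit 10545) (nat_lit 50),
   .prs (.two (nat_lit 384) (nat_lit 8) (nat_lit 622) (nat_lit 1) (.two (nat_lit 3) (nat_lit 8) (nat_lit 264) (nat_lit 1) (.two (nat_lit 0) (nat_lit 1) (nat_lit 635) (nat_lit 8) (.one (nat_lit 283) (nat_lit 8) .nil)))),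
   .der (nat_lit 22548) (nat_lit 6),
   .der (nat_lit 86) (nat_lit 52),
   .der (nat_lit 118) (nat_lit 266),
   .prs (.two (nat_lit 173) (nat_lit 4) (nat_lit 637) (nat_lit 8) (.two (nat_lit 0) (nat_lit 16) (nat_lit 638) (nat_lit 4) (.one (nat_lit 639) (nat_lit 4) .nil))),
   .prs (.two (nat_lit 361) (nat_lit 2) (nat_lit 433) (nat_lit 4) (.two (nat_lit 1) (nat_lit 2) (nat_lit 86) (nat_lit 4) (.one (nat_lit 285) (nat_lit 4) .nil))),
   .der (nat_lit 86) (nat_lit 41),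
   .der (nat_lit 370) (nat_lit 189),
   .prs (.two (nat_lit 383) (nat_lit 4) (nat_lit 308) (nat_lit 8) (.two (nat_lit 1) (nat_lit 4) (nat_lit 642) (nat_lit 8) (.one (nat_lit 643) (nat_lit 8) .nil))),
   .der (nat_lit 339) (nat_lit 77),
   .prs (.two (nat_lit 78) (nat_lit 1) (nat_lit 132) (nat_lit 8) (.two (nat_lit 0) (nat_lit 1) (nat_lit 80) (nat_lit 8) (.one (nat_lit 645) (nat_lit 1) .nil))),
   .der (nat_lit 67) (nat_lit 15),
   .der (nat_lit 1299) (nat_lit 50),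
   .prs (.two (nat_lit 356) (nat_lit 1) (nat_lit 647) (nat_lit 4) (.two (nat_lit 0) (nat_lit 16) (nat_lit 648) (nat_lit 1) (.one (nat_lit 287) (nat_lit 1) .nil))),
   .der (nat_lit 1057) (nat_lit 41),
   .prs (.two (nat_lit 384) (nat_lit 8) (nat_lit 147) (nat_lit 16) (.two (nat_lit 0) (nat_lit 1) (nat_lit 650) (nat_lit 16) (.one (nat_lit 288) (nat_lit 16) .nil))),
   .der (nat_lit 34068) (nat_lit 133),
   .prs (.two (nat_lit 1) (nat_lit 16) (nat_lit 215) (nat_lit 8) (.one (nat_lit 652) (nat_lit 8) .nil)),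
   .der (nat_lit 659) (nat_lit 95),
   .prs (.two (nat_lit 434) (nat_lit 2) (nat_lit 206) (nat_lit 8) (.two (nat_lit 1) (nat_lit 8) (nat_lit 616) (nat_lit 2) (.one (nat_lit 654) (nat_lit 8) .nil))),
   .der (nat_lit 1057) (nat_lit 230),
   .prs (.two (nat_lit 2) (nat_lit 8) (nat_lit 463) (nat_lit 4) (.two (nat_lit 1) (nat_lit 4) (nat_lit 212) (nat_lit 8) (.one (nat_lit 656) (nat_lit 1) .nil))),
   .der (nat_lit 117) (nat_lit 52),
   .prs (.two (nat_lit 11) (nat_lit 1) (nat_lit 17) (nat_lit 16) (.two (nat_lit 0) (nat_lit 16) (nat_lit 658) (nat_lit 1) .nil)),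
   .prs (.two (nat_lit 11) (nat_lit 1) (nat_lit 642) (nat_lit 8) .nil),
   .der (nat_lit 1893) (nat_lit 52),
   .prs (.two (nat_lit 3) (nat_lit 8) (nat_lit 661) (nat_lit 1) .nil),
   .der (nat_lit 1653) (nat_lit 54),
   .prs (.two (nat_lit 16) (nat_lit 1) (nat_lit 663) (nat_lit 4) .nil),
   .der (nat_lit 6) (nat_lit 128),
   .prs (.two (nat_lit 5) (nat_lit 8) (nat_lit 443) (nat_lit 1) (.two (nat_lit 1) (nat_lit 16) (nat_lit 42) (nat_lit 8) (.two (nat_lit 0) (nat_lit 4) (nat_lit 665) (nat_lit 1) .nil))),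
   .der (nat_lit 356) (nat_lit 6),
   .der (nat_lit 882) (nat_lit 31),
   .der (nat_lit 627) (nat_lit 131),
   .prs (.two (nat_lit 75) (nat_lit 4) (nat_lit 493) (nat_lit 16) (.two (nat_lit 11) (nat_lit 1) (nat_lit 667) (nat_lit 4) (.two (nat_lit 0) (nat_lit 1) (nat_lit 668) (nat_lit 16) (.one (nat_lit 669) (nat_lit 16) .nil)))),
   .der (nat_lit 118) (nat_lit 106),
   .prs (.two (nat_lit 5) (nat_lit 8) (nat_lit 206) (nat_lit 2) (.two (nat_lit 3) (nat_lit 8) (nat_lit 528) (nat_lit 2) (.two (nat_lit 0) (nat_lit 4) (nat_lit 671) (nat_lit 8) .nil))),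
   .der (nat_lit 5971) (nat_lit 8),
   .der (nat_lit 1875) (nat_lit 13),
   .prs (.two (nat_lit 202) (nat_lit 4) (nat_lit 178) (nat_lit 1) (.two (nat_lit 1) (nat_lit 4) (nat_lit 673) (nat_lit 1) (.two (nat_lit 0) (nat_lit 4) (nat_lit 674) (nat_lit 1) (.one (nat_lit 310) (nat_lit 1) .nil)))),
   .der (nat_lit 8) (nat_lit 13),
   .der (nat_lit 1057) (nat_lit 211),
   .prs (.two (nat_lit 170) (nat_lit 16) (nat_lit 14) (nat_lit 2) (.two (nat_lit 11) (nat_lit 2) (nat_lit 676) (nat_lit 16) (.one (nat_lit 677) (nat_lit 16) .nil))),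
   .der (nat_lit 21107) (nat_lit 4),
   .der (nat_lit 67) (nat_lit 39),
   .prs (.two (nat_lit 68) (nat_lit 16) (nat_lit 679) (nat_lit 2) (.two (nat_lit 1) (nat_lit 2) (nat_lit 680) (nat_lit 16) .nil)),
   .der (nat_lit 147) (nat_lit 135),
   .prs (.two (nat_lit 4) (nat_lit 8) (nat_lit 623) (nat_lit 2) (.two (nat_lit 1) (nat_lit 2) (nat_lit 520) (nat_lit 8) (.one (nat_lit 682) (nat_lit 2) .nil))),
   .der (nat_lit 612) (nat_lit 4),
   .der (nat_lit 13345) (nat_lit 118),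
   .prs (.two (nat_lit 68) (nat_lit 16) (nat_lit 684) (nat_lit 2) (.two (nat_lit 1) (nat_lit 2) (nat_lit 69) (nat_lit 16) (.one (nat_lit 685) (nat_lit 16) .nil))),
   .der (nat_lit 24916) (nat_lit 77),
   .prs (.two (nat_lit 2) (nat_lit 16) (nat_lit 482) (nat_lit 4) (.two (nat_lit 3) (nat_lit 4) (nat_lit 6) (nat_lit 16) (.two (nat_lit 0) (nat_lit 8) (nat_lit 687) (nat_lit 4) .nil))),
   .der (nat_lit 135) (nat_lit 10),
   .der (nat_lit 659) (nat_lit 133),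
   .prs (.two (nat_lit 1) (nat_lit 8) (nat_lit 689) (nat_lit 4) (.one (nat_lit 690) (nat_lit 1) .nil)),
   .der (nat_lit 627) (nat_lit 95),
   .prs (.two (nat_lit 170) (nat_lit 16) (nat_lit 439) (nat_lit 4) (.two (nat_lit 1) (nat_lit 4) (nat_lit 147) (nat_lit 16) (.two (nat_lit 0) (nat_lit 1) (nat_lit 692) (nat_lit 4) .nil))),
   .der (nat_lit 114) (nat_lit 15),
   .prs (.two (nat_lit 4) (nat_lit 8) (nat_lit 443) (nat_lit 2) (.two (nat_lit 16) (nat_lit 1) (nat_lit 694) (nat_lit 2) (.two (nat_lit 0) (nat_lit 1) (nat_lit 454) (nat_lit 2) .nil))),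
   .der (nat_lit 2353) (nat_lit 21),
   .der (nat_lit 2390) (nat_lit 229),
   .prs (.two (nat_lit 75) (nat_lit 16) (nat_lit 111) (nat_lit 2) (.two (nat_lit 0) (nat_lit 2) (nat_lit 696) (nat_lit 16) (.one (nat_lit 697) (nat_lit 2) .nil))),
   .der (nat_lit 612) (nat_lit 77),
   .prs (.two (nat_lit 5) (nat_lit 1) (nat_lit 145) (nat_lit 16) (.one (nat_lit 699) (nat_lit 1) .nil)),
   .der (nat_lit 1554) (nat_lit 8),
   .prs (.two (nat_lit 2) (nat_lit 4) (nat_lit 701) (nat_lit 16) (.two (nat_lit 0) (nat_lit 16) (nat_lit 459) (nat_lit 4) (.one (nat_lit 149) (nat_lit 4) .nil))),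
   .der (nat_lit 26386) (nat_lit 50),
   .der (nat_lit 2135) (nat_lit 287),
   .prs (.two (nat_lit 4) (nat_lit 2) (nat_lit 5) (nat_lit 8) (.two (nat_lit 3) (nat_lit 1) (nat_lit 389) (nat_lit 2) (.two (nat_lit 0) (nat_lit 1) (nat_lit 703) (nat_lit 8) (.one (nat_lit 704) (nat_lit 8) .nil)))),
   .der (nat_lit 1395) (nat_lit 128),
   .prs (.two (nat_lit 374) (nat_lit 16) (nat_lit 338) (nat_lit 1) (.two (nat_lit 11) (nat_lit 1) (nat_lit 145) (nat_lit 16) (.one (nat_lit 706) (nat_lit 1) .nil))),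
   .der (nat_lit 340) (nat_lit 50),
   .prs (.two (nat_lit 11) (nat_lit 2) (nat_lit 708) (nat_lit 1) .nil),
   .der (nat_lit 13345) (nat_lit 4),
   .der (nat_lit 83) (nat_lit 43),
   .der (nat_lit 627) (nat_lit 232),
   .prs (.two (nat_lit 556) (nat_lit 8) (nat_lit 710) (nat_lit 4) (.two (nat_lit 1) (nat_lit 8) (nat_lit 711) (nat_lit 4) (.one (nat_lit 712) (nat_lit 4) .nil))),
   .der (nat_lit 5218) (nat_lit 29),
   .prs (.two (nat_lit 16) (nat_lit 1) (nat_lit 714) (nat_lit 2) .nil),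
   .der (nat_lit 852) (nat_lit 4),
   .der (nat_lit 1554) (nat_lit 13),
   .der (nat_lit 5) (nat_lit 121),
   .prs (.two (nat_lit 434) (nat_lit 16) (nat_lit 716) (nat_lit 1) (.two (nat_lit 3) (nat_lit 1) (nat_lit 717) (nat_lit 16) (.one (nat_lit 718) (nat_lit 16) .nil))),
   .der (nat_lit 10305) (nat_lit 4),
   .der (nat_lit 86) (nat_lit 95),
   .prs (.two (nat_lit 2) (nat_lit 8) (nat_lit 720) (nat_lit 4) (.two (nat_lit 3) (nat_lit 4) (nat_lit 6) (nat_lit 8) (.two (nat_lit 0) (nat_lit 16) (nat_lit 721) (nat_lit 4) .nil))),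
   .der (nat_lit 3) (nat_lit 6),
   .der (nat_lit 1430) (nat_lit 50),
   .der (nat_lit 1) (nat_lit 283),
   .prs (.two (nat_lit 556) (nat_lit 4) (nat_lit 224) (nat_lit 8) (.two (nat_lit 1) (nat_lit 2) (nat_lit 723) (nat_lit 4) (.two (nat_lit 0) (nat_lit 8) (nat_lit 724) (nat_lit 2) (.one (nat_lit 725) (nat_lit 2) .nil)))),
   .der (nat_lit 882) (nat_lit 10),
   .der (nat_lit 162) (nat_lit 24),
   .prs (.two (nat_lit 99) (nat_lit 2) (nat_lit 9) (nat_lit 16) (.two (nat_lit 3) (nat_lit 16) (nat_lit 727) (nat_lit 2) (.two (nat_lit 0) (nat_lit 16) (nat_lit 728) (nat_lit 2) (.one (nat_lit 324) (nat_lit 16) .nil)))),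
   .der (nat_lit 561) (nat_lit 27),
   .prs (.two (nat_lit 384) (nat_lit 16) (nat_lit 720) (nat_lit 4) (.two (nat_lit 3) (nat_lit 4) (nat_lit 30) (nat_lit 16) (.two (nat_lit 0) (nat_lit 4) (nat_lit 730) (nat_lit 16) (.one (nat_lit 326) (nat_lit 4) .nil)))),
   .der (nat_lit 1074) (nat_lit 45),
   .prs (.two (nat_lit 11) (nat_lit 8) (nat_lit 732) (nat_lit 1) .nil),
   .der (nat_lit 162) (nat_lit 29),
   .prs (.two (nat_lit 46) (nat_lit 2) (nat_lit 734) (nat_lit 8) .nil),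
   .der (nat_lit 9) (nat_lit 41),
   .prs (.two (nat_lit 1) (nat_lit 2) (nat_lit 736) (nat_lit 1) .nil),
   .der (nat_lit 2390) (nat_lit 15),
   .prs (.two (nat_lit 3) (nat_lit 8) (nat_lit 738) (nat_lit 1) (.one (nat_lit 302) (nat_lit 1) .nil)),
   .der (nat_lit 354) (nat_lit 4),
   .der (nat_lit 1650) (nat_lit 6),
   .der (nat_lit 5716) (nat_lit 13),
   .prs (.two (nat_lit 740) (nat_lit 16) (nat_lit 622) (nat_lit 8) (.two (nat_lit 3) (nat_lit 16) (nat_lit 741) (nat_lit 8) (.two (nat_lit 0) (nat_lit 2) (nat_lit 742) (nat_lit 8) (.one (nat_lit 328) (nat_lit 16) .nil)))),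
   .der (nat_lit 1556) (nat_lit 307),
   .prs (.two (nat_lit 34) (nat_lit 8) (nat_lit 334) (nat_lit 2) (.two (nat_lit 16) (nat_lit 2) (nat_lit 80) (nat_lit 8) (.one (nat_lit 744) (nat_lit 8) .nil))),
   .der (nat_lit 1810) (nat_lit 8),
   .der (nat_lit 1893) (nat_lit 106),
   .prs (.two (nat_lit 99) (nat_lit 2) (nat_lit 178) (nat_lit 1) (.two (nat_lit 3) (nat_lit 1) (nat_lit 746) (nat_lit 2) (.two (nat_lit 0) (nat_lit 1) (nat_lit 449) (nat_lit 2) (.one (nat_lit 747) (nat_lit 1) .nil)))),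
   .der (nat_lit 101) (nat_lit 48),
   .prs (.two (nat_lit 1) (nat_lit 2) (nat_lit 749) (nat_lit 4) .nil),
   .der (nat_lit 1653) (nat_lit 10),
   .der (nat_lit 3) (nat_lit 143),
   .prs (.two (nat_lit 1) (nat_lit 8) (nat_lit 751) (nat_lit 2) (.one (nat_lit 752) (nat_lit 1) .nil)),
   .der (nat_lit 1620) (nat_lit 8),
   .der (nat_lit 340) (nat_lit 29),
   .der (nat_lit 114) (nat_lit 257),
   .prs (.two (nat_lit 623) (nat_lit 16) (nat_lit 96) (nat_lit 4) (.two (nat_lit 1) (nat_lit 4) (nat_lit 754) (nat_lit 8) (.two (nat_lit 0) (nat_lit 8) (nat_lit 755) (nat_lit 4) (.one (nat_lit 756) (nat_lit 4) .nil)))),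
   .der (nat_lit 10305) (nat_lit 6),
   .der (nat_lit 98) (nat_lit 24),
   .prs (.two (nat_lit 463) (nat_lit 16) (nat_lit 758) (nat_lit 4) (.two (nat_lit 0) (nat_lit 4) (nat_lit 759) (nat_lit 16) (.one (nat_lit 336) (nat_lit 4) .nil))),
   .der (nat_lit 852) (nat_lit 10),
   .der (nat_lit 1073) (nat_lit 41),
   .prs (.two (nat_lit 16) (nat_lit 1) (nat_lit 761) (nat_lit 8) (.one (nat_lit 762) (nat_lit 8) .nil)),
   .der (nat_lit 101) (nat_lit 95),
   .prs (.two (nat_lit 2) (nat_lit 4) (nat_lit 178) (nat_lit 1) (.two (nat_lit 3) (nat_lit 1) (nat_lit 105) (nat_lit 4) (.one (nat_lit 764) (nat_lit 1) .nil))),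
   .der (nat_lit 22803) (nat_lit 48),
   .prs (.two (nat_lit 16) (nat_lit 1) (nat_lit 766) (nat_lit 8) .nil),
   .der (nat_lit 13345) (nat_lit 10),
   .prs (.two (nat_lit 1) (nat_lit 8) (nat_lit 768) (nat_lit 1) (.one (nat_lit 752) (nat_lit 1) .nil)),
   .der (nat_lit 21092) (nat_lit 15),
   .der (nat_lit 7) (nat_lit 54),
   .der (nat_lit 13345) (nat_lit 272),
   .prs (.two (nat_lit 99) (nat_lit 1) (nat_lit 99) (nat_lit 2) (.two (nat_lit 11) (nat_lit 1) (nat_lit 770) (nat_lit 2) (.two (nat_lit 0) (nat_lit 1) (nat_lit 771) (nat_lit 2) (.one (nat_lit 772) (nat_lit 2) .nil)))),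
   .der (nat_lit 561) (nat_lit 57),
   .prs (.two (nat_lit 46) (nat_lit 2) (nat_lit 774) (nat_lit 16) .nil),
   .der (nat_lit 29011) (nat_lit 151),
   .prs (.two (nat_lit 11) (nat_lit 2) (nat_lit 761) (nat_lit 8) (.one (nat_lit 776) (nat_lit 8) .nil)),
   .der (nat_lit 1380) (nat_lit 48),
   .prs (.two (nat_lit 11) (nat_lit 8) (nat_lit 778) (nat_lit 16) .nil),
   .der (nat_lit 1650) (nat_lit 52),
   .prs (.two (nat_lit 16) (nat_lit 1) (nat_lit 609) (nat_lit 8) (.one (nat_lit 780) (nat_lit 8) .nil)),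
   .der (nat_lit 2084) (nat_lit 15),
   .der (nat_lit 87) (nat_lit 43),
   .prs (.two (nat_lit 1) (nat_lit 2) (nat_lit 782) (nat_lit 16) (.one (nat_lit 783) (nat_lit 16) .nil)),
   .der (nat_lit 117) (nat_lit 41),
   .prs (.two (nat_lit 3) (nat_lit 1) (nat_lit 785) (nat_lit 4) .nil),
   .der (nat_lit 12658) (nat_lit 10),
   .der (nat_lit 627) (nat_lit 151),
   .prs (.two (nat_lit 1) (nat_lit 2) (nat_lit 787) (nat_lit 8) (.one (nat_lit 788) (nat_lit 8) .nil)),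
   .prs (.two (nat_lit 463) (nat_lit 16) (nat_lit 14) (nat_lit 8) (.two (nat_lit 11) (nat_lit 8) (nat_lit 127) (nat_lit 16) (.one (nat_lit 340) (nat_lit 16) .nil))),
   .der (nat_lit 19) (nat_lit 6),
   .der (nat_lit 114) (nat_lit 27),
   .prs (.two (nat_lit 170) (nat_lit 16) (nat_lit 684) (nat_lit 4) (.two (nat_lit 1) (nat_lit 4) (nat_lit 791) (nat_lit 16) (.two (nat_lit 0) (nat_lit 8) (nat_lit 792) (nat_lit 16) (.one (nat_lit 344) (nat_lit 16) .nil)))),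
   .der (nat_lit 86) (nat_lit 13),
   .der (nat_lit 1556) (nat_lit 135),
   .prs (.two (nat_lit 170) (nat_lit 16) (nat_lit 436) (nat_lit 1) (.two (nat_lit 3) (nat_lit 1) (nat_lit 794) (nat_lit 16) (.one (nat_lit 795) (nat_lit 1) .nil))),
   .der (nat_lit 147) (nat_lit 50),
   .prs (.two (nat_lit 75) (nat_lit 4) (nat_lit 78) (nat_lit 1) (.two (nat_lit 1) (nat_lit 2) (nat_lit 362) (nat_lit 1) (.two (nat_lit 0) (nat_lit 2) (nat_lit 797) (nat_lit 4) (.one (nat_lit 349) (nat_lit 4) .nil)))),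
   .der (nat_lit 20) (nat_lit 324),
   .prs (.two (nat_lit 7) (nat_lit 1) (nat_lit 361) (nat_lit 8) (.two (nat_lit 1) (nat_lit 8) (nat_lit 258) (nat_lit 1) (.one (nat_lit 799) (nat_lit 4) .nil))),
   .der (nat_lit 1810) (nat_lit 31),
   .prs (.two (nat_lit 16) (nat_lit 1) (nat_lit 801) (nat_lit 2) .nil),
   .prs (.two (nat_lit 46) (nat_lit 2) (nat_lit 41) (nat_lit 1) .nil),
   .der (nat_lit 115) (nat_lit 106),
   .prs (.two (nat_lit 384) (nat_lit 16) (nat_lit 91) (nat_lit 2) (.two (nat_lit 0) (nat_lit 8) (nat_lit 804) (nat_lit 16) .nil)),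
   .der (nat_lit 577) (nat_lit 57),
   .prs (.two (nat_lit 1) (nat_lit 2) (nat_lit 806) (nat_lit 4) .nil),
   .der (nat_lit 26386) (nat_lit 6),
   .der (nat_lit 1300) (nat_lit 123),
   .prs (.two (nat_lit 34) (nat_lit 2) (nat_lit 9) (nat_lit 16) (.two (nat_lit 3) (nat_lit 16) (nat_lit 808) (nat_lit 2) (.two (nat_lit 0) (nat_lit 16) (nat_lit 728) (nat_lit 2) (.one (nat_lit 809) (nat_lit 16) .nil)))),
   .der (nat_lit 1890) (nat_lit 15),
   .der (nat_lit 137) (nat_lit 31),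
   .der (nat_lit 12658) (nat_lit 259),
   .prs (.two (nat_lit 4) (nat_lit 16) (nat_lit 78) (nat_lit 1) (.two (nat_lit 1) (nat_lit 2) (nat_lit 811) (nat_lit 1) (.two (nat_lit 0) (nat_lit 2) (nat_lit 812) (nat_lit 16) (.one (nat_lit 813) (nat_lit 16) .nil)))),
   .der (nat_lit 29011) (nat_lit 10),
   .der (nat_lit 118) (nat_lit 143),
   .prs (.two (nat_lit 3) (nat_lit 1) (nat_lit 815) (nat_lit 16) (.one (nat_lit 816) (nat_lit 16) .nil)),
   .prs (.two (nat_lit 96) (nat_lit 4) (nat_lit 622) (nat_lit 2) (.two (nat_lit 11) (nat_lit 1) (nat_lit 40) (nat_lit 2) (.two (nat_lit 0) (nat_lit 1) (nat_lit 676) (nat_lit 4) (.one (nat_lit 358) (nat_lit 4) .nil)))),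
   .prs (.two (nat_lit 34) (nat_lit 2) (nat_lit 14) (nat_lit 1) (.two (nat_lit 1) (nat_lit 16) (nat_lit 32) (nat_lit 1) (.one (nat_lit 360) (nat_lit 1) .nil))),
   .der (nat_lit 1300) (nat_lit 57),
   .prs (.two (nat_lit 16) (nat_lit 16) (nat_lit 820) (nat_lit 4) .nil),
   .der (nat_lit 18) (nat_lit 39),
   .der (nat_lit 5) (nat_lit 373),
   .prs (.two (nat_lit 2) (nat_lit 4) (nat_lit 397) (nat_lit 1) (.two (nat_lit 1) (nat_lit 8) (nat_lit 822) (nat_lit 1) (.one (nat_lit 823) (nat_lit 1) .nil))),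
   .der (nat_lit 561) (nat_lit 13),
   .der (nat_lit 1) (nat_lit 371),
   .prs (.two (nat_lit 2) (nat_lit 4) (nat_lit 825) (nat_lit 1) (.two (nat_lit 0) (nat_lit 1) (nat_lit 171) (nat_lit 2) (.one (nat_lit 826) (nat_lit 1) .nil))),
   .der (nat_lit 2) (nat_lit 77),
   .prs (.two (nat_lit 2) (nat_lit 4) (nat_lit 427) (nat_lit 2) (.two (nat_lit 3) (nat_lit 1) (nat_lit 828) (nat_lit 2) (.one (nat_lit 172) (nat_lit 1) .nil))),
   .der (nat_lit 8) (nat_lit 382),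
   .prs (.two (nat_lit 5) (nat_lit 8) (nat_lit 32) (nat_lit 1) (.two (nat_lit 0) (nat_lit 1) (nat_lit 380) (nat_lit 8) (.one (nat_lit 830) (nat_lit 1) .nil))),
   .der (nat_lit 98) (nat_lit 77),
   .der (nat_lit 50) (nat_lit 407),
   .prs (.two (nat_lit 2) (nat_lit 4) (nat_lit 91) (nat_lit 2) (.two (nat_lit 1) (nat_lit 2) (nat_lit 832) (nat_lit 8) (.one (nat_lit 833) (nat_lit 2) .nil))),
   .der (nat_lit 49) (nat_lit 19),
   .der (nat_lit 5) (nat_lit 169),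
   .prs (.two (nat_lit 2) (nat_lit 4) (nat_lit 835) (nat_lit 1) (.two (nat_lit 0) (nat_lit 8) (nat_lit 836) (nat_lit 2) .nil)),
   .der (nat_lit 6) (nat_lit 10),
   .der (nat_lit 1) (nat_lit 77),
   .der (nat_lit 2) (nat_lit 379),
   .prs (.two (nat_lit 75) (nat_lit 4) (nat_lit 838) (nat_lit 2) (.two (nat_lit 1) (nat_lit 2) (nat_lit 165) (nat_lit 4) (.two (nat_lit 0) (nat_lit 1) (nat_lit 839) (nat_lit 4) (.one (nat_lit 840) (nat_lit 1) .nil)))),
   .der (nat_lit 354) (nat_lit 376),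
   .prs (.two (nat_lit 4) (nat_lit 8) (nat_lit 61) (nat_lit 1) (.two (nat_lit 0) (nat_lit 2) (nat_lit 366) (nat_lit 4) (.one (nat_lit 842) (nat_lit 1) .nil))),
   .der (nat_lit 2) (nat_lit 382),
   .prs (.two (nat_lit 4) (nat_lit 8) (nat_lit 63) (nat_lit 2) (.two (nat_lit 0) (nat_lit 1) (nat_lit 839) (nat_lit 4) (.one (nat_lit 844) (nat_lit 1) .nil))),
   .der (nat_lit 19) (nat_lit 64),
   .der (nat_lit 1554) (nat_lit 401),
   .prs (.two (nat_lit 2) (nat_lit 4) (nat_lit 554) (nat_lit 2) (.two (nat_lit 0) (nat_lit 4) (nat_lit 846) (nat_lit 2) (.one (nat_lit 847) (nat_lit 2) .nil))),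
   .der (nat_lit 801) (nat_lit 172),
   .prs (.two (nat_lit 99) (nat_lit 2) (nat_lit 410) (nat_lit 1) (.two (nat_lit 0) (nat_lit 2) (nat_lit 849) (nat_lit 1) .nil)),
   .der (nat_lit 49) (nat_lit 172),
   .prs (.two (nat_lit 2) (nat_lit 4) (nat_lit 13) (nat_lit 8) (.two (nat_lit 0) (nat_lit 4) (nat_lit 851) (nat_lit 1) .nil)),
   .der (nat_lit 6) (nat_lit 21),
   .der (nat_lit 98) (nat_lit 403),
   .prs (.two (nat_lit 78) (nat_lit 4) (nat_lit 853) (nat_lit 2) (.two (nat_lit 0) (nat_lit 1) (nat_lit 413) (nat_lit 2) (.one (nat_lit 854) (nat_lit 2) .nil))),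
   .der (nat_lit 98) (nat_lit 395),
   .prs (.two (nat_lit 5) (nat_lit 8) (nat_lit 359) (nat_lit 2) (.two (nat_lit 0) (nat_lit 4) (nat_lit 846) (nat_lit 2) (.one (nat_lit 856) (nat_lit 2) .nil))),
   .der (nat_lit 3) (nat_lit 13),
   .der (nat_lit 50) (nat_lit 82),
   .der (nat_lit 5) (nat_lit 417),
   .prs (.two (nat_lit 129) (nat_lit 4) (nat_lit 858) (nat_lit 1) (.two (nat_lit 1) (nat_lit 2) (nat_lit 411) (nat_lit 1) (.two (nat_lit 0) (nat_lit 2) (nat_lit 859) (nat_lit 1) (.one (nat_lit 860) (nat_lit 2) .nil)))),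
   .der (nat_lit 101) (nat_lit 62),
   .der (nat_lit 1) (nat_lit 421),
   .prs (.two (nat_lit 42) (nat_lit 4) (nat_lit 427) (nat_lit 2) (.two (nat_lit 2) (nat_lit 4) (nat_lit 853) (nat_lit 2) (.two (nat_lit 1) (nat_lit 4) (nat_lit 862) (nat_lit 2) (.two (nat_lit 0) (nat_lit 4) (nat_lit 420) (nat_lit 1) (.one (nat_lit 863) (nat_lit 4) .nil))))),
   .der (nat_lit 1122) (nat_lit 41),
   .der (nat_lit 38163) (nat_lit 87),
   .prs (.two (nat_lit 2) (nat_lit 16) (nat_lit 427) (nat_lit 2) (.two (nat_lit 3) (nat_lit 1) (nat_lit 865) (nat_lit 16) (.two (nat_lit 0) (nat_lit 1) (nat_lit 866) (nat_lit 16) (.one (nat_lit 492) (nat_lit 1) .nil)))),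
   .der (nat_lit 36) (nat_lit 72),
   .der (nat_lit 100) (nat_lit 177),
   .prs (.two (nat_lit 5) (nat_lit 1) (nat_lit 42) (nat_lit 16) (.two (nat_lit 11) (nat_lit 1) (nat_lit 868) (nat_lit 2) (.one (nat_lit 869) (nat_lit 2) .nil))),
   .der (nat_lit 1299) (nat_lit 87),
   .der (nat_lit 5) (nat_lit 187),
   .prs (.two (nat_lit 2) (nat_lit 4) (nat_lit 427) (nat_lit 2) (.two (nat_lit 1) (nat_lit 2) (nat_lit 509) (nat_lit 4) (.two (nat_lit 0) (nat_lit 1) (nat_lit 871) (nat_lit 4) (.one (nat_lit 872) (nat_lit 1) .nil)))),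
   .der (nat_lit 34068) (nat_lit 31),
   .der (nat_lit 2193) (nat_lit 172),
   .prs (.two (nat_lit 2) (nat_lit 16) (nat_lit 12) (nat_lit 1) (.two (nat_lit 1) (nat_lit 2) (nat_lit 874) (nat_lit 1) (.two (nat_lit 0) (nat_lit 1) (nat_lit 194) (nat_lit 2) (.one (nat_lit 875) (nat_lit 2) .nil)))),
   .der (nat_lit 87) (nat_lit 67),
   .prs (.two (nat_lit 34) (nat_lit 8) (nat_lit 462) (nat_lit 4) (.one (nat_lit 877) (nat_lit 4) .nil)),
   .der (nat_lit 2193) (nat_lit 10),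
   .der (nat_lit 161) (nat_lit 39),
   .prs (.two (nat_lit 202) (nat_lit 4) (nat_lit 879) (nat_lit 1) (.two (nat_lit 1) (nat_lit 16) (nat_lit 880) (nat_lit 1) (.one (nat_lit 199) (nat_lit 4) .nil))),
   .der (nat_lit 137) (nat_lit 6),
   .der (nat_lit 2339) (nat_lit 76),
   .der (nat_lit 115) (nat_lit 177),
   .prs (.two (nat_lit 4) (nat_lit 2) (nat_lit 882) (nat_lit 8) (.two (nat_lit 11) (nat_lit 2) (nat_lit 86) (nat_lit 1) (.two (nat_lit 0) (nat_lit 1) (nat_lit 883) (nat_lit 2) (.one (nat_lit 884) (nat_lit 1) .nil)))),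
   .der (nat_lit 1395) (nat_lit 6),
   .der (nat_lit 1107) (nat_lit 67),
   .der (nat_lit 1107) (nat_lit 187),
   .prs (.two (nat_lit 173) (nat_lit 4) (nat_lit 886) (nat_lit 2) (.two (nat_lit 3) (nat_lit 4) (nat_lit 41) (nat_lit 2) (.two (nat_lit 0) (nat_lit 8) (nat_lit 887) (nat_lit 2) (.one (nat_lit 888) (nat_lit 8) .nil)))),
   .der (nat_lit 34068) (nat_lit 39),
   .der (nat_lit 6) (nat_lit 177),
   .prs (.two (nat_lit 2) (nat_lit 16) (nat_lit 397) (nat_lit 1) (.two (nat_lit 1) (nat_lit 8) (nat_lit 890) (nat_lit 1) (.one (nat_lit 891) (nat_lit 2) .nil))),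
   .der (nat_lit 101) (nat_lit 98),
   .prs (.two (nat_lit 2) (nat_lit 4) (nat_lit 440) (nat_lit 8) (.two (nat_lit 0) (nat_lit 8) (nat_lit 893) (nat_lit 4) (.one (nat_lit 441) (nat_lit 4) .nil))),
   .der (nat_lit 101) (nat_lit 37),
   .der (nat_lit 1415) (nat_lit 432),
   .prs (.two (nat_lit 493) (nat_lit 2) (nat_lit 543) (nat_lit 4) (.two (nat_lit 1) (nat_lit 2) (nat_lit 105) (nat_lit 4) (.two (nat_lit 0) (nat_lit 4) (nat_lit 895) (nat_lit 2) (.one (nat_lit 896) (nat_lit 2) .nil)))),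
   .prs (.two (nat_lit 2) (nat_lit 8) (nat_lit 65) (nat_lit 2) (.two (nat_lit 1) (nat_lit 8) (nat_lit 104) (nat_lit 2) (.one (nat_lit 499) (nat_lit 2) .nil))),
   .der (nat_lit 2353) (nat_lit 10),
   .der (nat_lit 37425) (nat_lit 37),
   .der (nat_lit 50) (nat_lit 438),
   .prs (.two (nat_lit 556) (nat_lit 8) (nat_lit 899) (nat_lit 1) (.two (nat_lit 1) (nat_lit 16) (nat_lit 900) (nat_lit 1) (.one (nat_lit 901) (nat_lit 2) .nil))),
   .der (nat_lit 612) (nat_lit 429),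
   .prs (.two (nat_lit 5) (nat_lit 1) (nat_lit 105) (nat_lit 16) (.two (nat_lit 0) (nat_lit 2) (nat_lit 106) (nat_lit 1) (.one (nat_lit 903) (nat_lit 2) .nil))),
   .der (nat_lit 98) (nat_lit 10),
   .prs (.two (nat_lit 5) (nat_lit 8) (nat_lit 905) (nat_lit 2) (.two (nat_lit 1) (nat_lit 2) (nat_lit 858) (nat_lit 4) (.two (nat_lit 0) (nat_lit 4) (nat_lit 201) (nat_lit 8) (.one (nat_lit 420) (nat_lit 8) .nil)))),
   .prs (.two (nat_lit 9) (nat_lit 16) (nat_lit 109) (nat_lit 1) (.two (nat_lit 0) (nat_lit 1) (nat_lit 108) (nat_lit 16) (.one (nat_lit 504) (nat_lit 1) .nil))),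
   .der (nat_lit 21107) (nat_lit 77),
   .prs (.two (nat_lit 2) (nat_lit 8) (nat_lit 78) (nat_lit 16) (.two (nat_lit 3) (nat_lit 16) (nat_lit 520) (nat_lit 8) (.one (nat_lit 908) (nat_lit 16) .nil))),
   .der (nat_lit 9572) (nat_lit 64),
   .prs (.two (nat_lit 493) (nat_lit 2) (nat_lit 321) (nat_lit 1) (.two (nat_lit 0) (nat_lit 2) (nat_lit 910) (nat_lit 1) (.one (nat_lit 506) (nat_lit 1) .nil))),
   .der (nat_lit 1074) (nat_lit 31),
   .der (nat_lit 67) (nat_lit 172),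
   .prs (.two (nat_lit 173) (nat_lit 4) (nat_lit 886) (nat_lit 2) (.two (nat_lit 3) (nat_lit 8) (nat_lit 912) (nat_lit 2) (.two (nat_lit 0) (nat_lit 8) (nat_lit 654) (nat_lit 4) (.one (nat_lit 913) (nat_lit 8) .nil)))),
   .der (nat_lit 1380) (nat_lit 15),
   .der (nat_lit 356) (nat_lit 90),
   .prs (.two (nat_lit 384) (nat_lit 8) (nat_lit 915) (nat_lit 1) (.two (nat_lit 3) (nat_lit 8) (nat_lit 916) (nat_lit 1) (.one (nat_lit 205) (nat_lit 1) .nil))),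
   .der (nat_lit 33345) (nat_lit 6),
   .der (nat_lit 52) (nat_lit 87),
   .der (nat_lit 2) (nat_lit 199),
   .prs (.two (nat_lit 5) (nat_lit 1) (nat_lit 918) (nat_lit 4) (.two (nat_lit 3) (nat_lit 1) (nat_lit 576) (nat_lit 2) (.two (nat_lit 0) (nat_lit 2) (nat_lit 919) (nat_lit 1) (.one (nat_lit 920) (nat_lit 1) .nil)))),
   .der (nat_lit 84) (nat_lit 108),
   .prs (.two (nat_lit 2) (nat_lit 4) (nat_lit 667) (nat_lit 1) (.two (nat_lit 3) (nat_lit 4) (nat_lit 922) (nat_lit 1) (.one (nat_lit 511) (nat_lit 1) .nil))),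
   .der (nat_lit 86) (nat_lit 187),
   .prs (.two (nat_lit 2) (nat_lit 8) (nat_lit 65) (nat_lit 2) (.two (nat_lit 3) (nat_lit 1) (nat_lit 284) (nat_lit 2) (.two (nat_lit 0) (nat_lit 16) (nat_lit 924) (nat_lit 1) .nil))),
   .der (nat_lit 12658) (nat_lit 15),
   .prs (.two (nat_lit 34) (nat_lit 8) (nat_lit 926) (nat_lit 2) (.two (nat_lit 1) (nat_lit 2) (nat_lit 440) (nat_lit 8) (.two (nat_lit 0) (nat_lit 1) (nat_lit 39) (nat_lit 8) (.one (nat_lit 516) (nat_lit 1) .nil)))),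
   .der (nat_lit 30226) (nat_lit 101),
   .der (nat_lit 165) (nat_lit 187),
   .prs (.two (nat_lit 2) (nat_lit 4) (nat_lit 543) (nat_lit 2) (.two (nat_lit 1) (nat_lit 2) (nat_lit 165) (nat_lit 4) (.two (nat_lit 0) (nat_lit 1) (nat_lit 928) (nat_lit 2) (.one (nat_lit 929) (nat_lit 1) .nil)))),
   .der (nat_lit 24916) (nat_lit 15),
   .der (nat_lit 1415) (nat_lit 37),
   .der (nat_lit 6) (nat_lit 192),
   .prs (.two (nat_lit 2) (nat_lit 16) (nat_lit 931) (nat_lit 1) (.two (nat_lit 1) (nat_lit 2) (nat_lit 105) (nat_lit 16) (.two (nat_lit 0) (nat_lit 1) (nat_lit 932) (nat_lit 2) (.one (nat_lit 933) (nat_lit 2) .nil)))),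
   .der (nat_lit 83) (nat_lit 98),
   .prs (.two (nat_lit 2) (nat_lit 8) (nat_lit 53) (nat_lit 2) (.two (nat_lit 3) (nat_lit 16) (nat_lit 935) (nat_lit 2) (.one (nat_lit 521) (nat_lit 2) .nil))),
   .der (nat_lit 833) (nat_lit 6),
   .der (nat_lit 50) (nat_lit 84),
   .prs (.two (nat_lit 9) (nat_lit 4) (nat_lit 937) (nat_lit 8) (.two (nat_lit 1) (nat_lit 8) (nat_lit 97) (nat_lit 2) (.two (nat_lit 0) (nat_lit 4) (nat_lit 938) (nat_lit 2) (.one (nat_lit 524) (nat_lit 2) .nil)))),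
   .der (nat_lit 21107) (nat_lit 15),
   .der (nat_lit 561) (nat_lit 37),
   .der (nat_lit 1653) (nat_lit 192),
   .prs (.two (nat_lit 2) (nat_lit 8) (nat_lit 940) (nat_lit 1) (.two (nat_lit 1) (nat_lit 16) (nat_lit 941) (nat_lit 1) (.one (nat_lit 942) (nat_lit 2) .nil))),
   .der (nat_lit 67) (nat_lit 84),
   .der (nat_lit 882) (nat_lit 177),
   .prs (.two (nat_lit 4) (nat_lit 2) (nat_lit 543) (nat_lit 4) (.two (nat_lit 3) (nat_lit 1) (nat_lit 944) (nat_lit 2) (.one (nat_lit 945) (nat_lit 1) .nil))),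
   .der (nat_lit 129) (nat_lit 472),
   .prs (.two (nat_lit 383) (nat_lit 4) (nat_lit 490) (nat_lit 2) (.two (nat_lit 0) (nat_lit 2) (nat_lit 110) (nat_lit 4) (.one (nat_lit 947) (nat_lit 4) .nil))),
   .der (nat_lit 1415) (nat_lit 177),
   .prs (.two (nat_lit 2) (nat_lit 4) (nat_lit 918) (nat_lit 1) (.two (nat_lit 11) (nat_lit 2) (nat_lit 484) (nat_lit 4) (.one (nat_lit 949) (nat_lit 2) .nil))),
   .der (nat_lit 17185) (nat_lit 62),
   .prs (.two (nat_lit 2) (nat_lit 8) (nat_lit 221) (nat_lit 1) (.two (nat_lit 0) (nat_lit 8) (nat_lit 951) (nat_lit 1) (.one (nat_lit 527) (nat_lit 1) .nil))),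
   .der (nat_lit 30226) (nat_lit 21),
   .der (nat_lit 30226) (nat_lit 64),
   .prs (.two (nat_lit 2) (nat_lit 8) (nat_lit 953) (nat_lit 2) (.two (nat_lit 0) (nat_lit 8) (nat_lit 954) (nat_lit 2) (.one (nat_lit 533) (nat_lit 2) .nil))),
   .der (nat_lit 2193) (nat_lit 6),
   .der (nat_lit 2578) (nat_lit 199),
   .prs (.two (nat_lit 78) (nat_lit 1) (nat_lit 956) (nat_lit 4) (.two (nat_lit 16) (nat_lit 1) (nat_lit 80) (nat_lit 2) (.two (nat_lit 0) (nat_lit 2) (nat_lit 213) (nat_lit 1) (.one (nat_lit 957) (nat_lit 2) .nil)))),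
   .der (nat_lit 132) (nat_lit 21),
   .prs (.two (nat_lit 433) (nat_lit 2) (nat_lit 959) (nat_lit 1) (.two (nat_lit 0) (nat_lit 2) (nat_lit 113) (nat_lit 1) (.one (nat_lit 536) (nat_lit 1) .nil))),
   .der (nat_lit 30226) (nat_lit 31),
   .der (nat_lit 1395) (nat_lit 93),
   .der (nat_lit 1811) (nat_lit 172),
   .prs (.two (nat_lit 325) (nat_lit 8) (nat_lit 486) (nat_lit 1) (.two (nat_lit 1) (nat_lit 8) (nat_lit 961) (nat_lit 1) (.two (nat_lit 0) (nat_lit 8) (nat_lit 962) (nat_lit 1) (.one (nat_lit 963) (nat_lit 8) .nil)))),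
   .der (nat_lit 2323) (nat_lit 13),
   .der (nat_lit 22803) (nat_lit 59),
   .prs (.two (nat_lit 78) (nat_lit 4) (nat_lit 965) (nat_lit 2) (.two (nat_lit 0) (nat_lit 4) (nat_lit 966) (nat_lit 2) (.one (nat_lit 542) (nat_lit 2) .nil))),
   .der (nat_lit 1415) (nat_lit 13),
   .der (nat_lit 644) (nat_lit 172),
   .prs (.two (nat_lit 206) (nat_lit 2) (nat_lit 470) (nat_lit 1) (.two (nat_lit 11) (nat_lit 1) (nat_lit 968) (nat_lit 2) (.two (nat_lit 0) (nat_lit 2) (nat_lit 471) (nat_lit 1) (.one (nat_lit 969) (nat_lit 1) .nil)))),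
   .der (nat_lit 339) (nat_lit 128),
   .prs (.two (nat_lit 2) (nat_lit 4) (nat_lit 224) (nat_lit 8) (.two (nat_lit 11) (nat_lit 8) (nat_lit 509) (nat_lit 4) (.one (nat_lit 971) (nat_lit 8) .nil))),
   .der (nat_lit 2) (nat_lit 87),
   .prs (.two (nat_lit 2) (nat_lit 4) (nat_lit 440) (nat_lit 8) (.two (nat_lit 0) (nat_lit 8) (nat_lit 973) (nat_lit 4) (.one (nat_lit 545) (nat_lit 4) .nil))),
   .prs (.two (nat_lit 78) (nat_lit 1) (nat_lit 116) (nat_lit 8) (.two (nat_lit 0) (nat_lit 2) (nat_lit 207) (nat_lit 1) (.one (nat_lit 230) (nat_lit 1) .nil))),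
   .prs (.two (nat_lit 75) (nat_lit 4) (nat_lit 68) (nat_lit 16) (.two (nat_lit 11) (nat_lit 1) (nat_lit 276) (nat_lit 4) (.two (nat_lit 0) (nat_lit 1) (nat_lit 48) (nat_lit 16) (.one (nat_lit 564) (nat_lit 16) .nil)))),
   .der (nat_lit 161) (nat_lit 8),
   .der (nat_lit 65) (nat_lit 93),
   .der (nat_lit 1395) (nat_lit 205),
   .prs (.two (nat_lit 2) (nat_lit 8) (nat_lit 977) (nat_lit 1) (.two (nat_lit 11) (nat_lit 2) (nat_lit 978) (nat_lit 8) (.one (nat_lit 979) (nat_lit 8) .nil))),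
   .prs (.two (nat_lit 433) (nat_lit 2) (nat_lit 217) (nat_lit 8) (.two (nat_lit 0) (nat_lit 2) (nat_lit 118) (nat_lit 8) (.one (nat_lit 552) (nat_lit 8) .nil))),
   .prs (.two (nat_lit 4) (nat_lit 8) (nat_lit 105) (nat_lit 4) (.two (nat_lit 0) (nat_lit 8) (nat_lit 121) (nat_lit 4) (.one (nat_lit 555) (nat_lit 4) .nil))),
   .der (nat_lit 2339) (nat_lit 118),
   .prs (.two (nat_lit 202) (nat_lit 4) (nat_lit 267) (nat_lit 1) (.two (nat_lit 0) (nat_lit 4) (nat_lit 983) (nat_lit 1) (.one (nat_lit 558) (nat_lit 1) .nil))),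
   .der (nat_lit 2353) (nat_lit 39),
   .der (nat_lit 1395) (nat_lit 172),
   .prs (.two (nat_lit 374) (nat_lit 16) (nat_lit 83) (nat_lit 1) (.two (nat_lit 0) (nat_lit 16) (nat_lit 985) (nat_lit 1) (.one (nat_lit 986) (nat_lit 1) .nil))),
   .der (nat_lit 117) (nat_lit 106),
   .prs (.two (nat_lit 17) (nat_lit 2) (nat_lit 214) (nat_lit 4) (.two (nat_lit 1) (nat_lit 2) (nat_lit 119) (nat_lit 4) (.two (nat_lit 0) (nat_lit 4) (nat_lit 200) (nat_lit 2) (.one (nat_lit 988) (nat_lit 4) .nil)))),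
   .der (nat_lit 1650) (nat_lit 21),
   .der (nat_lit 26386) (nat_lit 62),
   .prs (.two (nat_lit 190) (nat_lit 1) (nat_lit 990) (nat_lit 8) (.two (nat_lit 0) (nat_lit 1) (nat_lit 991) (nat_lit 8) (.one (nat_lit 562) (nat_lit 8) .nil))),
   .der (nat_lit 1893) (nat_lit 84),
   .prs (.two (nat_lit 170) (nat_lit 4) (nat_lit 522) (nat_lit 8) (.one (nat_lit 993) (nat_lit 4) .nil)),
   .prs (.two (nat_lit 338) (nat_lit 8) (nat_lit 720) (nat_lit 1) (.two (nat_lit 3) (nat_lit 1) (nat_lit 53) (nat_lit 8) (.two (nat_lit 0) (nat_lit 4) (nat_lit 230) (nat_lit 1) .nil))),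
   .der (nat_lit 145) (nat_lit 15),
   .prs (.two (nat_lit 2) (nat_lit 16) (nat_lit 996) (nat_lit 2) (.two (nat_lit 0) (nat_lit 4) (nat_lit 462) (nat_lit 2) (.one (nat_lit 236) (nat_lit 16) .nil))),
   .der (nat_lit 24916) (nat_lit 6),
   .prs (.two (nat_lit 2) (nat_lit 8) (nat_lit 998) (nat_lit 2) (.two (nat_lit 0) (nat_lit 8) (nat_lit 865) (nat_lit 16) (.one (nat_lit 566) (nat_lit 16) .nil)))]

theorem b5_step1 (h : ∀ j < 500, Good b5T j) : ∀ j < 1000, Good b5T j := by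
  intro j hj
  refine chkL_ok b5C1 500 h (by decide +kernel) j ?_
  have h : b5C1.length = 500 := by decide +kernel
  omega

/-- certificates 1000..1500 -/
def b5C2 : List Cf :=
  [.der (nat_lit 2339) (nat_lit 31),
   .prs (.two (nat_lit 439) (nat_lit 8) (nat_lit 443) (nat_lit 2) (.two (nat_lit 1) (nat_lit 4) (nat_lit 1000) (nat_lit 2) (.one (nat_lit 241) (nat_lit 2) .nil))),
   .der (nat_lit 1380) (nat_lit 43),
   .prs (.two (nat_lit 68) (nat_lit 2) (nat_lit 341) (nat_lit 1) (.two (nat_lit 1) (nat_lit 16) (nat_lit 111) (nat_lit 2) (.two (nat_lit 0) (nat_lit 4) (nat_lit 1002) (nat_lit 16) (.one (nat_lit 247) (nat_lit 16) .nil)))),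
   .prs (.two (nat_lit 384) (nat_lit 8) (nat_lit 427) (nat_lit 16) (.two (nat_lit 0) (nat_lit 16) (nat_lit 38) (nat_lit 8) (.one (nat_lit 255) (nat_lit 16) .nil))),
   .prs (.two (nat_lit 325) (nat_lit 2) (nat_lit 78) (nat_lit 16) (.two (nat_lit 3) (nat_lit 4) (nat_lit 53) (nat_lit 2) (.two (nat_lit 0) (nat_lit 4) (nat_lit 183) (nat_lit 16) (.one (nat_lit 570) (nat_lit 16) .nil)))),
   .der (nat_lit 2113) (nat_lit 10),
   .der (nat_lit 9) (nat_lit 27),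
   .der (nat_lit 18) (nat_lit 220),
   .prs (.two (nat_lit 75) (nat_lit 4) (nat_lit 720) (nat_lit 1) (.two (nat_lit 1) (nat_lit 4) (nat_lit 1006) (nat_lit 1) (.two (nat_lit 0) (nat_lit 1) (nat_lit 1007) (nat_lit 4) (.one (nat_lit 1008) (nat_lit 4) .nil)))),
   .der (nat_lit 644) (nat_lit 4),
   .der (nat_lit 10) (nat_lit 220),
   .prs (.two (nat_lit 34) (nat_lit 2) (nat_lit 1010) (nat_lit 4) (.two (nat_lit 1) (nat_lit 2) (nat_lit 522) (nat_lit 4) (.one (nat_lit 1011) (nat_lit 4) .nil))),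
   .der (nat_lit 18) (nat_lit 45),
   .der (nat_lit 1653) (nat_lit 177),
   .prs (.two (nat_lit 2) (nat_lit 8) (nat_lit 12) (nat_lit 1) (.two (nat_lit 1) (nat_lit 2) (nat_lit 1013) (nat_lit 1) (.two (nat_lit 0) (nat_lit 16) (nat_lit 1014) (nat_lit 2) .nil))),
   .der (nat_lit 29011) (nat_lit 27),
   .der (nat_lit 10545) (nat_lit 101),
   .prs (.two (nat_lit 170) (nat_lit 2) (nat_lit 1016) (nat_lit 1) (.two (nat_lit 0) (nat_lit 16) (nat_lit 1017) (nat_lit 1) (.one (nat_lit 608) (nat_lit 1) .nil))),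
   .der (nat_lit 852) (nat_lit 6),
   .der (nat_lit 2084) (nat_lit 67),
   .der (nat_lit 644) (nat_lit 453),
   .prs (.two (nat_lit 170) (nat_lit 2) (nat_lit 1019) (nat_lit 8) (.two (nat_lit 1) (nat_lit 2) (nat_lit 1020) (nat_lit 8) (.one (nat_lit 1021) (nat_lit 8) .nil))),
   .der (nat_lit 152) (nat_lit 19),
   .der (nat_lit 52) (nat_lit 4),
   .der (nat_lit 1875) (nat_lit 211),
   .der (nat_lit 1875) (nat_lit 518),
   .prs (.two (nat_lit 1024) (nat_lit 8) (nat_lit 1023) (nat_lit 16) (.two (nat_lit 0) (nat_lit 1) (nat_lit 1025) (nat_lit 16) (.one (nat_lit 1026) (nat_lit 16) .nil))),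
   .der (nat_lit 1810) (nat_lit 121),
   .der (nat_lit 33) (nat_lit 169),
   .prs (.two (nat_lit 2) (nat_lit 4) (nat_lit 282) (nat_lit 2) (.two (nat_lit 0) (nat_lit 1) (nat_lit 1028) (nat_lit 2) (.one (nat_lit 1029) (nat_lit 1) .nil))),
   .der (nat_lit 2068) (nat_lit 59),
   .der (nat_lit 5218) (nat_lit 542),
   .prs (.two (nat_lit 7) (nat_lit 1) (nat_lit 998) (nat_lit 2) (.two (nat_lit 11) (nat_lit 1) (nat_lit 1031) (nat_lit 2) (.one (nat_lit 1032) (nat_lit 2) .nil))),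
   .der (nat_lit 2433) (nat_lit 48),
   .der (nat_lit 1057) (nat_lit 131),
   .prs (.two (nat_lit 4) (nat_lit 8) (nat_lit 334) (nat_lit 2) (.two (nat_lit 1) (nat_lit 8) (nat_lit 1034) (nat_lit 2) (.one (nat_lit 1035) (nat_lit 2) .nil))),
   .der (nat_lit 16738) (nat_lit 199),
   .prs (.two (nat_lit 325) (nat_lit 8) (nat_lit 196) (nat_lit 2) (.two (nat_lit 1) (nat_lit 4) (nat_lit 410) (nat_lit 2) (.two (nat_lit 0) (nat_lit 16) (nat_lit 1037) (nat_lit 2) .nil))),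
   .der (nat_lit 135) (nat_lit 37),
   .der (nat_lit 21107) (nat_lit 187),
   .prs (.two (nat_lit 356) (nat_lit 1) (nat_lit 459) (nat_lit 2) (.two (nat_lit 0) (nat_lit 1) (nat_lit 1039) (nat_lit 2) (.one (nat_lit 1040) (nat_lit 2) .nil))),
   .der (nat_lit 2433) (nat_lit 24),
   .der (nat_lit 1650) (nat_lit 121),
   .der (nat_lit 33345) (nat_lit 597),
   .prs (.two (nat_lit 679) (nat_lit 4) (nat_lit 1042) (nat_lit 8) (.two (nat_lit 0) (nat_lit 2) (nat_lit 1043) (nat_lit 8) (.one (nat_lit 1044) (nat_lit 8) .nil))),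
   .der (nat_lit 4978) (nat_lit 84),
   .prs (.two (nat_lit 170) (nat_lit 16) (nat_lit 124) (nat_lit 2) (.two (nat_lit 0) (nat_lit 16) (nat_lit 1046) (nat_lit 2) .nil)),
   .der (nat_lit 67) (nat_lit 8),
   .der (nat_lit 16738) (nat_lit 35),
   .der (nat_lit 26386) (nat_lit 192),
   .prs (.two (nat_lit 75) (nat_lit 4) (nat_lit 1048) (nat_lit 1) (.two (nat_lit 16) (nat_lit 4) (nat_lit 1049) (nat_lit 1) (.one (nat_lit 1050) (nat_lit 1) .nil))),
   .prs (.two (nat_lit 5) (nat_lit 8) (nat_lit 145) (nat_lit 16) (.two (nat_lit 0) (nat_lit 16) (nat_lit 476) (nat_lit 8) (.one (nat_lit 612) (nat_lit 8) .nil))),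
   .der (nat_lit 644) (nat_lit 592),
   .prs (.two (nat_lit 434) (nat_lit 2) (nat_lit 256) (nat_lit 4) (.two (nat_lit 0) (nat_lit 1) (nat_lit 548) (nat_lit 4) (.one (nat_lit 1053) (nat_lit 4) .nil))),
   .der (nat_lit 2390) (nat_lit 54),
   .der (nat_lit 2135) (nat_lit 108),
   .der (nat_lit 1653) (nat_lit 448),
   .prs (.two (nat_lit 2) (nat_lit 16) (nat_lit 65) (nat_lit 2) (.two (nat_lit 3) (nat_lit 16) (nat_lit 1055) (nat_lit 1) (.two (nat_lit 0) (nat_lit 1) (nat_lit 1056) (nat_lit 2) (.one (nat_lit 1057) (nat_lit 16) .nil)))),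
   .der (nat_lit 115) (nat_lit 13),
   .der (nat_lit 2084) (nat_lit 135),
   .der (nat_lit 10545) (nat_lit 435),
   .prs (.two (nat_lit 384) (nat_lit 16) (nat_lit 625) (nat_lit 8) (.two (nat_lit 3) (nat_lit 16) (nat_lit 1059) (nat_lit 4) (.two (nat_lit 0) (nat_lit 4) (nat_lit 1060) (nat_lit 8) (.one (nat_lit 1061) (nat_lit 4) .nil)))),
   .der (nat_lit 1890) (nat_lit 35),
   .der (nat_lit 101) (nat_lit 187),
   .prs (.two (nat_lit 2) (nat_lit 8) (nat_lit 264) (nat_lit 2) (.two (nat_lit 1) (nat_lit 8) (nat_lit 1063) (nat_lit 2) (.one (nat_lit 1064) (nat_lit 2) .nil))),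
   .der (nat_lit 10) (nat_lit 104),
   .prs (.two (nat_lit 4) (nat_lit 8) (nat_lit 791) (nat_lit 16) (.two (nat_lit 1) (nat_lit 16) (nat_lit 1066) (nat_lit 8) (.one (nat_lit 615) (nat_lit 8) .nil))),
   .der (nat_lit 1299) (nat_lit 4),
   .der (nat_lit 2113) (nat_lit 223),
   .prs (.two (nat_lit 1068) (nat_lit 4) (nat_lit 886) (nat_lit 2) (.two (nat_lit 46) (nat_lit 2) (nat_lit 858) (nat_lit 4) (.two (nat_lit 0) (nat_lit 4) (nat_lit 1069) (nat_lit 2) (.one (nat_lit 618) (nat_lit 4) .nil)))),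
   .der (nat_lit 98) (nat_lit 128),
   .der (nat_lit 16738) (nat_lit 187),
   .prs (.two (nat_lit 384) (nat_lit 8) (nat_lit 590) (nat_lit 2) (.two (nat_lit 3) (nat_lit 4) (nat_lit 1071) (nat_lit 2) (.one (nat_lit 1072) (nat_lit 4) .nil))),
   .prs (.two (nat_lit 75) (nat_lit 4) (nat_lit 1048) (nat_lit 1) (.two (nat_lit 16) (nat_lit 4) (nat_lit 1049) (nat_lit 1) (.one (nat_lit 621) (nat_lit 4) .nil))),
   .der (nat_lit 86) (nat_lit 73),
   .prs (.two (nat_lit 2) (nat_lit 8) (nat_lit 940) (nat_lit 1) (.two (nat_lit 1) (nat_lit 2) (nat_lit 13) (nat_lit 8) (.two (nat_lit 0) (nat_lit 1) (nat_lit 1075) (nat_lit 2) (.one (nat_lit 942) (nat_lit 2) .nil)))),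
   .der (nat_lit 26386) (nat_lit 177),
   .prs (.two (nat_lit 2) (nat_lit 4) (nat_lit 1048) (nat_lit 1) (.two (nat_lit 3) (nat_lit 4) (nat_lit 1049) (nat_lit 1) (.one (nat_lit 1077) (nat_lit 1) .nil))),
   .prs (.two (nat_lit 170) (nat_lit 4) (nat_lit 462) (nat_lit 8) (.one (nat_lit 1056) (nat_lit 8) .nil)),
   .prs (.two (nat_lit 384) (nat_lit 8) (nat_lit 195) (nat_lit 16) (.two (nat_lit 3) (nat_lit 8) (nat_lit 85) (nat_lit 4) (.two (nat_lit 0) (nat_lit 4) (nat_lit 38) (nat_lit 8) (.one (nat_lit 1035) (nat_lit 4) .nil)))),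
   .der (nat_lit 114) (nat_lit 10),
   .der (nat_lit 3) (nat_lit 220),
   .prs (.two (nat_lit 2) (nat_lit 8) (nat_lit 1081) (nat_lit 2) (.two (nat_lit 0) (nat_lit 16) (nat_lit 1082) (nat_lit 8) .nil)),
   .der (nat_lit 16738) (nat_lit 64),
   .prs (.two (nat_lit 2) (nat_lit 8) (nat_lit 619) (nat_lit 1) (.two (nat_lit 3) (nat_lit 8) (nat_lit 1084) (nat_lit 1) (.one (nat_lit 631) (nat_lit 1) .nil))),
   .der (nat_lit 577) (nat_lit 21),
   .der (nat_lit 577) (nat_lit 64),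
   .prs (.two (nat_lit 195) (nat_lit 1) (nat_lit 1086) (nat_lit 4) (.two (nat_lit 0) (nat_lit 1) (nat_lit 1087) (nat_lit 4) (.one (nat_lit 634) (nat_lit 4) .nil))),
   .der (nat_lit 165) (nat_lit 84),
   .prs (.two (nat_lit 2) (nat_lit 4) (nat_lit 444) (nat_lit 2) (.one (nat_lit 1089) (nat_lit 4) .nil)),
   .der (nat_lit 26386) (nat_lit 93),
   .prs (.two (nat_lit 2) (nat_lit 4) (nat_lit 30) (nat_lit 8) (.two (nat_lit 1) (nat_lit 4) (nat_lit 1091) (nat_lit 2) (.one (nat_lit 849) (nat_lit 2) .nil))),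
   .der (nat_lit 137) (nat_lit 24),
   .prs (.two (nat_lit 710) (nat_lit 8) (nat_lit 1093) (nat_lit 2) (.two (nat_lit 0) (nat_lit 8) (nat_lit 718) (nat_lit 2) (.one (nat_lit 636) (nat_lit 2) .nil))),
   .der (nat_lit 21107) (nat_lit 13),
   .prs (.two (nat_lit 433) (nat_lit 2) (nat_lit 214) (nat_lit 4) (.two (nat_lit 3) (nat_lit 4) (nat_lit 1095) (nat_lit 2) (.one (nat_lit 654) (nat_lit 4) .nil))),
   .der (nat_lit 16738) (nat_lit 24),
   .der (nat_lit 18) (nat_lit 118),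
   .prs (.two (nat_lit 190) (nat_lit 1) (nat_lit 1097) (nat_lit 8) (.two (nat_lit 0) (nat_lit 1) (nat_lit 1098) (nat_lit 8) (.one (nat_lit 649) (nat_lit 8) .nil))),
   .der (nat_lit 1653) (nat_lit 93),
   .prs (.two (nat_lit 2) (nat_lit 8) (nat_lit 227) (nat_lit 2) (.two (nat_lit 3) (nat_lit 4) (nat_lit 1100) (nat_lit 2) (.one (nat_lit 657) (nat_lit 2) .nil))),
   .prs (.two (nat_lit 2) (nat_lit 4) (nat_lit 490) (nat_lit 8) (.one (nat_lit 659) (nat_lit 8) .nil)),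
   .der (nat_lit 1430) (nat_lit 659),
   .prs (.two (nat_lit 2) (nat_lit 16) (nat_lit 701) (nat_lit 1) (.two (nat_lit 0) (nat_lit 4) (nat_lit 582) (nat_lit 1) (.one (nat_lit 1103) (nat_lit 16) .nil))),
   .der (nat_lit 882) (nat_lit 19),
   .der (nat_lit 129) (nat_lit 84),
   .prs (.two (nat_lit 173) (nat_lit 1) (nat_lit 1105) (nat_lit 8) (.one (nat_lit 1106) (nat_lit 1) .nil)),
   .prs (.two (nat_lit 99) (nat_lit 2) (nat_lit 145) (nat_lit 16) (.one (nat_lit 464) (nat_lit 2) .nil)),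
   .der (nat_lit 13345) (nat_lit 41),
   .prs (.two (nat_lit 5) (nat_lit 1) (nat_lit 489) (nat_lit 16) (.two (nat_lit 0) (nat_lit 2) (nat_lit 1109) (nat_lit 16) (.one (nat_lit 279) (nat_lit 16) .nil))),
   .der (nat_lit 4978) (nat_lit 43),
   .prs (.two (nat_lit 17) (nat_lit 4) (nat_lit 88) (nat_lit 2) (.two (nat_lit 0) (nat_lit 2) (nat_lit 1111) (nat_lit 4) (.one (nat_lit 660) (nat_lit 4) .nil))),
   .der (nat_lit 98) (nat_lit 13),
   .prs (.two (nat_lit 2) (nat_lit 16) (nat_lit 1113) (nat_lit 1) (.one (nat_lit 662) (nat_lit 4) .nil)),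
   .der (nat_lit 9587) (nat_lit 24),
   .der (nat_lit 371) (nat_lit 95),
   .prs (.two (nat_lit 356) (nat_lit 16) (nat_lit 622) (nat_lit 2) (.two (nat_lit 11) (nat_lit 2) (nat_lit 1115) (nat_lit 16) (.one (nat_lit 1116) (nat_lit 2) .nil))),
   .der (nat_lit 2353) (nat_lit 6),
   .der (nat_lit 659) (nat_lit 241),
   .prs (.two (nat_lit 173) (nat_lit 4) (nat_lit 144) (nat_lit 8) (.two (nat_lit 1) (nat_lit 8) (nat_lit 1118) (nat_lit 4) (.two (nat_lit 0) (nat_lit 1) (nat_lit 591) (nat_lit 4) (.one (nat_lit 1119) (nat_lit 8) .nil)))),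
   .der (nat_lit 1653) (nat_lit 24),
   .der (nat_lit 9572) (nat_lit 128),
   .prs (.two (nat_lit 2) (nat_lit 8) (nat_lit 195) (nat_lit 16) (.two (nat_lit 11) (nat_lit 16) (nat_lit 1121) (nat_lit 8) (.one (nat_lit 1122) (nat_lit 16) .nil))),
   .der (nat_lit 2390) (nat_lit 35),
   .prs (.two (nat_lit 75) (nat_lit 4) (nat_lit 493) (nat_lit 16) (.two (nat_lit 1) (nat_lit 16) (nat_lit 1124) (nat_lit 4) .nil)),
   .der (nat_lit 98) (nat_lit 6),
   .der (nat_lit 371) (nat_lit 84),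
   .prs (.two (nat_lit 2) (nat_lit 4) (nat_lit 1126) (nat_lit 16) (.two (nat_lit 0) (nat_lit 16) (nat_lit 1121) (nat_lit 4) (.one (nat_lit 1127) (nat_lit 16) .nil))),
   .der (nat_lit 2339) (nat_lit 27),
   .der (nat_lit 1057) (nat_lit 128),
   .prs (.two (nat_lit 4) (nat_lit 2) (nat_lit 1129) (nat_lit 4) (.one (nat_lit 1130) (nat_lit 2) .nil)),
   .der (nat_lit 1415) (nat_lit 98),
   .prs (.two (nat_lit 2) (nat_lit 8) (nat_lit 676) (nat_lit 16) (.one (nat_lit 1132) (nat_lit 16) .nil)),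
   .der (nat_lit 1057) (nat_lit 10),
   .der (nat_lit 2390) (nat_lit 31),
   .prs (.two (nat_lit 9) (nat_lit 1) (nat_lit 329) (nat_lit 16) (.two (nat_lit 1) (nat_lit 8) (nat_lit 1134) (nat_lit 1) (.two (nat_lit 0) (nat_lit 16) (nat_lit 1135) (nat_lit 8) (.one (nat_lit 296) (nat_lit 8) .nil)))),
   .der (nat_lit 145) (nat_lit 8),
   .der (nat_lit 2068) (nat_lit 106),
   .prs (.two (nat_lit 78) (nat_lit 4) (nat_lit 720) (nat_lit 1) (.two (nat_lit 1) (nat_lit 8) (nat_lit 1137) (nat_lit 4) (.two (nat_lit 0) (nat_lit 1) (nat_lit 1138) (nat_lit 4) .nil))),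
   .der (nat_lit 9572) (nat_lit 77),
   .prs (.two (nat_lit 2) (nat_lit 16) (nat_lit 439) (nat_lit 8) (.two (nat_lit 1) (nat_lit 8) (nat_lit 520) (nat_lit 16) (.one (nat_lit 1140) (nat_lit 8) .nil))),
   .prs (.two (nat_lit 334) (nat_lit 2) (nat_lit 436) (nat_lit 1) (.two (nat_lit 3) (nat_lit 1) (nat_lit 1016) (nat_lit 2) (.one (nat_lit 445) (nat_lit 1) .nil))),
   .der (nat_lit 1650) (nat_lit 131),
   .prs (.two (nat_lit 622) (nat_lit 1) (nat_lit 308) (nat_lit 2) (.two (nat_lit 11) (nat_lit 1) (nat_lit 990) (nat_lit 2) (.one (nat_lit 1143) (nat_lit 4) .nil))),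
   .der (nat_lit 9572) (nat_lit 6),
   .der (nat_lit 1415) (nat_lit 21),
   .der (nat_lit 2390) (nat_lit 220),
   .prs (.two (nat_lit 482) (nat_lit 8) (nat_lit 1145) (nat_lit 1) (.two (nat_lit 0) (nat_lit 1) (nat_lit 1146) (nat_lit 8) (.one (nat_lit 1147) (nat_lit 1) .nil))),
   .der (nat_lit 115) (nat_lit 6),
   .der (nat_lit 115) (nat_lit 241),
   .prs (.two (nat_lit 78) (nat_lit 1) (nat_lit 202) (nat_lit 16) (.two (nat_lit 1) (nat_lit 2) (nat_lit 1149) (nat_lit 1) (.two (nat_lit 0) (nat_lit 2) (nat_lit 1150) (nat_lit 16) .nil))),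
   .der (nat_lit 34068) (nat_lit 266),
   .prs (.two (nat_lit 75) (nat_lit 4) (nat_lit 206) (nat_lit 2) (.two (nat_lit 1) (nat_lit 4) (nat_lit 490) (nat_lit 2) (.one (nat_lit 1152) (nat_lit 4) .nil))),
   .der (nat_lit 882) (nat_lit 106),
   .prs (.two (nat_lit 5) (nat_lit 16) (nat_lit 9) (nat_lit 1) (.two (nat_lit 1) (nat_lit 8) (nat_lit 32) (nat_lit 16) (.one (nat_lit 1154) (nat_lit 1) .nil))),
   .der (nat_lit 1) (nat_lit 45),
   .der (nat_lit 1810) (nat_lit 131),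
   .prs (.two (nat_lit 34) (nat_lit 8) (nat_lit 710) (nat_lit 1) (.two (nat_lit 1) (nat_lit 16) (nat_lit 1156) (nat_lit 1) (.one (nat_lit 1157) (nat_lit 1) .nil))),
   .der (nat_lit 577) (nat_lit 95),
   .prs (.two (nat_lit 17) (nat_lit 2) (nat_lit 86) (nat_lit 16) (.two (nat_lit 0) (nat_lit 8) (nat_lit 1159) (nat_lit 2) (.one (nat_lit 698) (nat_lit 8) .nil))),
   .der (nat_lit 1650) (nat_lit 4),
   .der (nat_lit 24916) (nat_lit 113),
   .prs (.two (nat_lit 374) (nat_lit 16) (nat_lit 1161) (nat_lit 2) (.two (nat_lit 1) (nat_lit 2) (nat_lit 1162) (nat_lit 16) .nil)),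
   .der (nat_lit 577) (nat_lit 35),
   .der (nat_lit 137) (nat_lit 547),
   .prs (.two (nat_lit 34) (nat_lit 2) (nat_lit 315) (nat_lit 4) (.two (nat_lit 1) (nat_lit 2) (nat_lit 1164) (nat_lit 4) (.one (nat_lit 1165) (nat_lit 4) .nil))),
   .der (nat_lit 1554) (nat_lit 126),
   .der (nat_lit 1057) (nat_lit 192),
   .prs (.two (nat_lit 556) (nat_lit 8) (nat_lit 926) (nat_lit 2) (.two (nat_lit 1) (nat_lit 2) (nat_lit 520) (nat_lit 8) (.two (nat_lit 0) (nat_lit 2) (nat_lit 1167) (nat_lit 8) (.one (nat_lit 1168) (nat_lit 8) .nil)))),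
   .der (nat_lit 2593) (nat_lit 27),
   .der (nat_lit 852) (nat_lit 72),
   .der (nat_lit 13345) (nat_lit 187),
   .prs (.two (nat_lit 2) (nat_lit 16) (nat_lit 1170) (nat_lit 4) (.two (nat_lit 0) (nat_lit 2) (nat_lit 1171) (nat_lit 4) (.one (nat_lit 1172) (nat_lit 2) .nil))),
   .der (nat_lit 1811) (nat_lit 110),
   .der (nat_lit 1415) (nat_lit 182),
   .prs (.two (nat_lit 5) (nat_lit 1) (nat_lit 13) (nat_lit 8) (.two (nat_lit 0) (nat_lit 1) (nat_lit 1174) (nat_lit 2) (.one (nat_lit 1175) (nat_lit 2) .nil))),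
   .der (nat_lit 833) (nat_lit 24),
   .der (nat_lit 147) (nat_lit 121),
   .prs (.two (nat_lit 224) (nat_lit 8) (nat_lit 1177) (nat_lit 4) (.two (nat_lit 0) (nat_lit 2) (nat_lit 1178) (nat_lit 4) (.one (nat_lit 705) (nat_lit 4) .nil))),
   .der (nat_lit 150) (nat_lit 10),
   .der (nat_lit 101) (nat_lit 27),
   .der (nat_lit 4) (nat_lit 113),
   .der (nat_lit 801) (nat_lit 182),
   .prs (.two (nat_lit 463) (nat_lit 8) (nat_lit 1180) (nat_lit 2) (.two (nat_lit 3) (nat_lit 1) (nat_lit 1181) (nat_lit 8) (.two (nat_lit 0) (nat_lit 1) (nat_lit 1182) (nat_lit 8) (.one (nat_lit 1183) (nat_lit 1) .nil)))),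
   .der (nat_lit 150) (nat_lit 199),
   .prs (.two (nat_lit 17) (nat_lit 16) (nat_lit 965) (nat_lit 4) (.two (nat_lit 0) (nat_lit 16) (nat_lit 1185) (nat_lit 4) .nil)),
   .der (nat_lit 86) (nat_lit 10),
   .prs (.two (nat_lit 463) (nat_lit 4) (nat_lit 144) (nat_lit 2) (.two (nat_lit 1) (nat_lit 2) (nat_lit 1187) (nat_lit 4) (.two (nat_lit 0) (nat_lit 1) (nat_lit 143) (nat_lit 4) (.one (nat_lit 312) (nat_lit 1) .nil)))),
   .der (nat_lit 2068) (nat_lit 10),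
   .der (nat_lit 147) (nat_lit 133),
   .prs (.two (nat_lit 78) (nat_lit 1) (nat_lit 17) (nat_lit 16) (.two (nat_lit 1) (nat_lit 2) (nat_lit 1189) (nat_lit 1) (.two (nat_lit 0) (nat_lit 2) (nat_lit 1190) (nat_lit 16) (.one (nat_lit 733) (nat_lit 16) .nil)))),
   .der (nat_lit 1893) (nat_lit 27),
   .prs (.two (nat_lit 202) (nat_lit 8) (nat_lit 637) (nat_lit 4) (.two (nat_lit 0) (nat_lit 8) (nat_lit 1192) (nat_lit 4) (.one (nat_lit 314) (nat_lit 1) .nil))),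
   .der (nat_lit 3) (nat_lit 21),
   .der (nat_lit 3) (nat_lit 64),
   .prs (.two (nat_lit 1010) (nat_lit 4) (nat_lit 1194) (nat_lit 16) (.two (nat_lit 0) (nat_lit 4) (nat_lit 1195) (nat_lit 16) (.one (nat_lit 713) (nat_lit 16) .nil))),
   .der (nat_lit 35) (nat_lit 45),
   .der (nat_lit 2353) (nat_lit 177),
   .prs (.two (nat_lit 2) (nat_lit 4) (nat_lit 427) (nat_lit 2) (.two (nat_lit 3) (nat_lit 1) (nat_lit 1197) (nat_lit 2) (.two (nat_lit 0) (nat_lit 1) (nat_lit 546) (nat_lit 2) (.one (nat_lit 1198) (nat_lit 1) .nil)))),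
   .der (nat_lit 1395) (nat_lit 13),
   .der (nat_lit 1057) (nat_lit 205),
   .prs (.two (nat_lit 384) (nat_lit 8) (nat_lit 28) (nat_lit 16) (.two (nat_lit 1) (nat_lit 16) (nat_lit 1200) (nat_lit 2) (.two (nat_lit 0) (nat_lit 2) (nat_lit 305) (nat_lit 8) (.one (nat_lit 1201) (nat_lit 2) .nil)))),
   .der (nat_lit 21107) (nat_lit 2),
   .der (nat_lit 115) (nat_lit 21),
   .der (nat_lit 38163) (nat_lit 106),
   .prs (.two (nat_lit 740) (nat_lit 1) (nat_lit 1203) (nat_lit 4) (.two (nat_lit 3) (nat_lit 1) (nat_lit 1204) (nat_lit 4) (.one (nat_lit 1205) (nat_lit 1) .nil))),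
   .der (nat_lit 2353) (nat_lit 57),
   .prs (.two (nat_lit 374) (nat_lit 2) (nat_lit 443) (nat_lit 1) (.two (nat_lit 1) (nat_lit 16) (nat_lit 1207) (nat_lit 2) (.one (nat_lit 247) (nat_lit 16) .nil))),
   .prs (.two (nat_lit 2) (nat_lit 4) (nat_lit 124) (nat_lit 16) (.two (nat_lit 0) (nat_lit 16) (nat_lit 676) (nat_lit 4) (.one (nat_lit 317) (nat_lit 16) .nil))),
   .der (nat_lit 1653) (nat_lit 27),
   .prs (.two (nat_lit 2) (nat_lit 8) (nat_lit 720) (nat_lit 4) (.two (nat_lit 3) (nat_lit 4) (nat_lit 1210) (nat_lit 8) (.one (nat_lit 721) (nat_lit 4) .nil))),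
   .der (nat_lit 882) (nat_lit 41),
   .prs (.two (nat_lit 2) (nat_lit 8) (nat_lit 609) (nat_lit 1) (.two (nat_lit 0) (nat_lit 16) (nat_lit 1212) (nat_lit 8) (.one (nat_lit 737) (nat_lit 8) .nil))),
   .der (nat_lit 49) (nat_lit 4),
   .der (nat_lit 1073) (nat_lit 10),
   .der (nat_lit 101) (nat_lit 307),
   .prs (.two (nat_lit 1214) (nat_lit 1) (nat_lit 96) (nat_lit 8) (.two (nat_lit 1) (nat_lit 8) (nat_lit 1215) (nat_lit 1) (.two (nat_lit 0) (nat_lit 8) (nat_lit 858) (nat_lit 1) (.one (nat_lit 1216) (nat_lit 1) .nil)))),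
   .der (nat_lit 2339) (nat_lit 24),
   .prs (.two (nat_lit 740) (nat_lit 1) (nat_lit 1203) (nat_lit 4) (.two (nat_lit 3) (nat_lit 1) (nat_lit 1218) (nat_lit 4) (.one (nat_lit 1205) (nat_lit 1) .nil))),
   .der (nat_lit 2113) (nat_lit 50),
   .der (nat_lit 882) (nat_lit 296),
   .prs (.two (nat_lit 4) (nat_lit 2) (nat_lit 637) (nat_lit 4) (.two (nat_lit 0) (nat_lit 2) (nat_lit 1220) (nat_lit 1) (.one (nat_lit 1221) (nat_lit 1) .nil))),
   .der (nat_lit 66) (nat_lit 24),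
   .der (nat_lit 30226) (nat_lit 95),
   .prs (.two (nat_lit 17) (nat_lit 16) (nat_lit 434) (nat_lit 1) (.two (nat_lit 1) (nat_lit 16) (nat_lit 1223) (nat_lit 1) (.one (nat_lit 1224) (nat_lit 16) .nil))),
   .der (nat_lit 150) (nat_lit 27),
   .der (nat_lit 145) (nat_lit 236),
   .prs (.two (nat_lit 2) (nat_lit 4) (nat_lit 15) (nat_lit 1) (.two (nat_lit 0) (nat_lit 1) (nat_lit 1226) (nat_lit 4) (.one (nat_lit 1227) (nat_lit 4) .nil))),
   .der (nat_lit 2593) (nat_lit 662),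
   .prs (.two (nat_lit 7) (nat_lit 1) (nat_lit 522) (nat_lit 8) (.one (nat_lit 1229) (nat_lit 8) .nil)),
   .prs (.two (nat_lit 3) (nat_lit 4) (nat_lit 628) (nat_lit 1) (.one (nat_lit 151) (nat_lit 1) .nil)),
   .der (nat_lit 659) (nat_lit 151),
   .prs (.two (nat_lit 11) (nat_lit 16) (nat_lit 1232) (nat_lit 8) .nil),
   .der (nat_lit 1415) (nat_lit 149),
   .prs (.two (nat_lit 34) (nat_lit 8) (nat_lit 170) (nat_lit 16) (.two (nat_lit 1) (nat_lit 16) (nat_lit 1234) (nat_lit 8) .nil)),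
   .der (nat_lit 4) (nat_lit 21),
   .prs (.two (nat_lit 325) (nat_lit 16) (nat_lit 49) (nat_lit 8) (.two (nat_lit 0) (nat_lit 4) (nat_lit 1236) (nat_lit 8) (.one (nat_lit 775) (nat_lit 8) .nil))),
   .prs (.two (nat_lit 9) (nat_lit 4) (nat_lit 723) (nat_lit 16) (.two (nat_lit 0) (nat_lit 2) (nat_lit 785) (nat_lit 4) (.one (nat_lit 777) (nat_lit 4) .nil))),
   .der (nat_lit 1650) (nat_lit 13),
   .der (nat_lit 9572) (nat_lit 767),
   .prs (.two (nat_lit 439) (nat_lit 4) (nat_lit 694) (nat_lit 1) (.two (nat_lit 0) (nat_lit 8) (nat_lit 1239) (nat_lit 1) (.one (nat_lit 1240) (nat_lit 4) .nil))),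
   .der (nat_lit 33345) (nat_lit 146),
   .der (nat_lit 4978) (nat_lit 481),
   .prs (.two (nat_lit 2) (nat_lit 4) (nat_lit 440) (nat_lit 16) (.two (nat_lit 0) (nat_lit 4) (nat_lit 1242) (nat_lit 16) (.one (nat_lit 1243) (nat_lit 16) .nil))),
   .der (nat_lit 147) (nat_lit 13),
   .der (nat_lit 1107) (nat_lit 95),
   .der (nat_lit 1415) (nat_lit 681),
   .prs (.two (nat_lit 5) (nat_lit 16) (nat_lit 1245) (nat_lit 4) (.two (nat_lit 0) (nat_lit 2) (nat_lit 1246) (nat_lit 16) (.one (nat_lit 1247) (nat_lit 2) .nil))),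
   .der (nat_lit 882) (nat_lit 35),
   .prs (.two (nat_lit 9) (nat_lit 1) (nat_lit 573) (nat_lit 2) (.one (nat_lit 1249) (nat_lit 2) .nil)),
   .der (nat_lit 1430) (nat_lit 27),
   .prs (.two (nat_lit 334) (nat_lit 2) (nat_lit 1251) (nat_lit 8) (.two (nat_lit 0) (nat_lit 1) (nat_lit 744) (nat_lit 8) (.one (nat_lit 773) (nat_lit 8) .nil))),
   .der (nat_lit 8) (nat_lit 8),
   .der (nat_lit 644) (nat_lit 13),
   .prs (.two (nat_lit 493) (nat_lit 16) (nat_lit 436) (nat_lit 1) (.two (nat_lit 3) (nat_lit 1) (nat_lit 1253) (nat_lit 16) (.two (nat_lit 0) (nat_lit 16) (nat_lit 1254) (nat_lit 1) (.one (nat_lit 331) (nat_lit 1) .nil)))),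
   .der (nat_lit 165) (nat_lit 10),
   .der (nat_lit 50) (nat_lit 139),
   .prs (.two (nat_lit 17) (nat_lit 16) (nat_lit 334) (nat_lit 2) (.two (nat_lit 16) (nat_lit 2) (nat_lit 1256) (nat_lit 16) (.two (nat_lit 0) (nat_lit 1) (nat_lit 1257) (nat_lit 2) (.one (nat_lit 779) (nat_lit 2) .nil)))),
   .der (nat_lit 1556) (nat_lit 6),
   .der (nat_lit 2135) (nat_lit 566),
   .prs (.two (nat_lit 206) (nat_lit 4) (nat_lit 1259) (nat_lit 8) (.two (nat_lit 0) (nat_lit 4) (nat_lit 762) (nat_lit 8) (.one (nat_lit 1260) (nat_lit 4) .nil))),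
   .der (nat_lit 87) (nat_lit 41),
   .prs (.two (nat_lit 170) (nat_lit 2) (nat_lit 167) (nat_lit 16) (.two (nat_lit 0) (nat_lit 2) (nat_lit 1262) (nat_lit 16) (.one (nat_lit 781) (nat_lit 2) .nil))),
   .der (nat_lit 135) (nat_lit 236),
   .prs (.two (nat_lit 7) (nat_lit 16) (nat_lit 514) (nat_lit 4) (.two (nat_lit 1) (nat_lit 4) (nat_lit 38) (nat_lit 16) (.one (nat_lit 1264) (nat_lit 4) .nil))),
   .der (nat_lit 1415) (nat_lit 27),
   .prs (.two (nat_lit 2) (nat_lit 4) (nat_lit 1126) (nat_lit 16) (.two (nat_lit 0) (nat_lit 16) (nat_lit 1266) (nat_lit 4) (.one (nat_lit 1127) (nat_lit 16) .nil))),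
   .der (nat_lit 30226) (nat_lit 106),
   .prs (.two (nat_lit 9) (nat_lit 1) (nat_lit 742) (nat_lit 2) (.one (nat_lit 1268) (nat_lit 1) .nil)),
   .der (nat_lit 1073) (nat_lit 131),
   .prs (.two (nat_lit 329) (nat_lit 16) (nat_lit 338) (nat_lit 2) (.two (nat_lit 46) (nat_lit 1) (nat_lit 1270) (nat_lit 2) .nil)),
   .der (nat_lit 3) (nat_lit 41),
   .der (nat_lit 115) (nat_lit 777),
   .prs (.two (nat_lit 78) (nat_lit 1) (nat_lit 53) (nat_lit 4) (.two (nat_lit 0) (nat_lit 2) (nat_lit 1272) (nat_lit 4) (.one (nat_lit 1273) (nat_lit 2) .nil))),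
   .der (nat_lit 103) (nat_lit 128),
   .prs (.two (nat_lit 5) (nat_lit 16) (nat_lit 433) (nat_lit 1) (.two (nat_lit 1) (nat_lit 8) (nat_lit 418) (nat_lit 16) (.one (nat_lit 1275) (nat_lit 1) .nil))),
   .prs (.two (nat_lit 2) (nat_lit 4) (nat_lit 514) (nat_lit 16) (.two (nat_lit 1) (nat_lit 16) (nat_lit 1181) (nat_lit 4) (.one (nat_lit 333) (nat_lit 1) .nil))),
   .der (nat_lit 2135) (nat_lit 27),
   .der (nat_lit 2578) (nat_lit 333),
   .prs (.two (nat_lit 34) (nat_lit 2) (nat_lit 361) (nat_lit 8) (.two (nat_lit 1) (nat_lit 8) (nat_lit 1278) (nat_lit 2) (.one (nat_lit 1279) (nat_lit 4) .nil))),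
   .der (nat_lit 16738) (nat_lit 131),
   .prs (.two (nat_lit 463) (nat_lit 4) (nat_lit 434) (nat_lit 16) (.two (nat_lit 11) (nat_lit 1) (nat_lit 1281) (nat_lit 4) .nil)),
   .der (nat_lit 5) (nat_lit 230),
   .prs (.two (nat_lit 452) (nat_lit 8) (nat_lit 195) (nat_lit 1) (.two (nat_lit 11) (nat_lit 1) (nat_lit 762) (nat_lit 8) (.one (nat_lit 1283) (nat_lit 1) .nil))),
   .der (nat_lit 98) (nat_lit 45),
   .der (nat_lit 137) (nat_lit 570),
   .prs (.two (nat_lit 5) (nat_lit 16) (nat_lit 44) (nat_lit 8) (.two (nat_lit 0) (nat_lit 8) (nat_lit 1285) (nat_lit 16) (.one (nat_lit 1286) (nat_lit 16) .nil))),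
   .der (nat_lit 8) (nat_lit 241),
   .prs (.two (nat_lit 2) (nat_lit 4) (nat_lit 514) (nat_lit 16) (.two (nat_lit 1) (nat_lit 16) (nat_lit 1181) (nat_lit 4) (.one (nat_lit 1288) (nat_lit 1) .nil))),
   .der (nat_lit 10) (nat_lit 123),
   .prs (.two (nat_lit 1068) (nat_lit 4) (nat_lit 430) (nat_lit 1) (.two (nat_lit 11) (nat_lit 1) (nat_lit 1194) (nat_lit 4) (.one (nat_lit 1290) (nat_lit 1) .nil))),
   .der (nat_lit 7) (nat_lit 41),
   .prs (.two (nat_lit 78) (nat_lit 16) (nat_lit 174) (nat_lit 4) (.two (nat_lit 0) (nat_lit 4) (nat_lit 1292) (nat_lit 16) (.one (nat_lit 789) (nat_lit 16) .nil))),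
   .der (nat_lit 3) (nat_lit 52),
   .der (nat_lit 36) (nat_lit 266),
   .prs (.two (nat_lit 5) (nat_lit 8) (nat_lit 436) (nat_lit 1) (.two (nat_lit 1) (nat_lit 4) (nat_lit 1294) (nat_lit 8) (.one (nat_lit 1295) (nat_lit 8) .nil))),
   .der (nat_lit 3) (nat_lit 98),
   .prs (.two (nat_lit 170) (nat_lit 2) (nat_lit 85) (nat_lit 4) (.two (nat_lit 0) (nat_lit 4) (nat_lit 1297) (nat_lit 2) .nil)),
   .der (nat_lit 132) (nat_lit 8),
   .der (nat_lit 87) (nat_lit 128),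
   .prs (.two (nat_lit 622) (nat_lit 2) (nat_lit 1299) (nat_lit 1) (.two (nat_lit 0) (nat_lit 1) (nat_lit 1300) (nat_lit 2) .nil)),
   .der (nat_lit 2353) (nat_lit 13),
   .der (nat_lit 1300) (nat_lit 146),
   .prs (.two (nat_lit 329) (nat_lit 4) (nat_lit 1161) (nat_lit 2) (.two (nat_lit 1) (nat_lit 2) (nat_lit 1302) (nat_lit 4) (.one (nat_lit 1303) (nat_lit 4) .nil))),
   .der (nat_lit 114) (nat_lit 128),
   .prs (.two (nat_lit 710) (nat_lit 1) (nat_lit 444) (nat_lit 4) (.one (nat_lit 1305) (nat_lit 1) .nil)),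
   .der (nat_lit 1554) (nat_lit 39),
   .der (nat_lit 1395) (nat_lit 177),
   .prs (.two (nat_lit 519) (nat_lit 8) (nat_lit 1113) (nat_lit 16) (.two (nat_lit 0) (nat_lit 8) (nat_lit 1307) (nat_lit 16) (.one (nat_lit 1308) (nat_lit 16) .nil))),
   .prs (.two (nat_lit 463) (nat_lit 4) (nat_lit 144) (nat_lit 2) (.two (nat_lit 3) (nat_lit 1) (nat_lit 525) (nat_lit 2) (.two (nat_lit 0) (nat_lit 1) (nat_lit 152) (nat_lit 4) (.one (nat_lit 346) (nat_lit 4) .nil)))),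
   .der (nat_lit 18) (nat_lit 64),
   .prs (.two (nat_lit 433) (nat_lit 4) (nat_lit 21) (nat_lit 8) (.two (nat_lit 0) (nat_lit 1) (nat_lit 1311) (nat_lit 8) (.one (nat_lit 798) (nat_lit 8) .nil))),
   .der (nat_lit 5716) (nat_lit 21),
   .prs (.two (nat_lit 190) (nat_lit 1) (nat_lit 1313) (nat_lit 2) (.one (nat_lit 1138) (nat_lit 1) .nil)),
   .der (nat_lit 2353) (nat_lit 45),
   .prs (.two (nat_lit 622) (nat_lit 1) (nat_lit 519) (nat_lit 8) (.two (nat_lit 1) (nat_lit 4) (nat_lit 111) (nat_lit 1) (.two (nat_lit 0) (nat_lit 4) (nat_lit 1315) (nat_lit 8) (.one (nat_lit 803) (nat_lit 8) .nil)))),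
   .der (nat_lit 833) (nat_lit 275),
   .prs (.two (nat_lit 2) (nat_lit 8) (nat_lit 83) (nat_lit 4) (.one (nat_lit 1317) (nat_lit 8) .nil)),
   .der (nat_lit 26386) (nat_lit 52),
   .der (nat_lit 26386) (nat_lit 243),
   .prs (.two (nat_lit 17) (nat_lit 2) (nat_lit 637) (nat_lit 4) (.two (nat_lit 0) (nat_lit 2) (nat_lit 1319) (nat_lit 4) (.one (nat_lit 1320) (nat_lit 4) .nil))),
   .der (nat_lit 1653) (nat_lit 13),
   .der (nat_lit 882) (nat_lit 146),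
   .der (nat_lit 2) (nat_lit 182),
   .prs (.two (nat_lit 325) (nat_lit 8) (nat_lit 531) (nat_lit 4) (.two (nat_lit 1) (nat_lit 4) (nat_lit 1322) (nat_lit 8) (.two (nat_lit 0) (nat_lit 1) (nat_lit 1323) (nat_lit 4) (.one (nat_lit 1324) (nat_lit 8) .nil)))),
   .der (nat_lit 52) (nat_lit 13),
   .der (nat_lit 65) (nat_lit 67),
   .prs (.two (nat_lit 4) (nat_lit 8) (nat_lit 1326) (nat_lit 1) (.one (nat_lit 1327) (nat_lit 1) .nil)),
   .der (nat_lit 19) (nat_lit 41),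
   .prs (.two (nat_lit 434) (nat_lit 2) (nat_lit 53) (nat_lit 8) (.two (nat_lit 0) (nat_lit 2) (nat_lit 1329) (nat_lit 8) (.one (nat_lit 938) (nat_lit 2) .nil))),
   .der (nat_lit 2390) (nat_lit 19),
   .prs (.two (nat_lit 5) (nat_lit 16) (nat_lit 209) (nat_lit 2) (.two (nat_lit 0) (nat_lit 16) (nat_lit 1331) (nat_lit 2) (.one (nat_lit 804) (nat_lit 16) .nil))),
   .der (nat_lit 5218) (nat_lit 6),
   .der (nat_lit 561) (nat_lit 29),
   .prs (.two (nat_lit 4) (nat_lit 2) (nat_lit 556) (nat_lit 8) (.two (nat_lit 1) (nat_lit 8) (nat_lit 1333) (nat_lit 2) (.two (nat_lit 0) (nat_lit 16) (nat_lit 1334) (nat_lit 8) (.one (nat_lit 351) (nat_lit 8) .nil)))),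
   .der (nat_lit 66) (nat_lit 236),
   .prs (.two (nat_lit 7) (nat_lit 1) (nat_lit 23) (nat_lit 2) (.two (nat_lit 0) (nat_lit 1) (nat_lit 157) (nat_lit 2) (.one (nat_lit 1336) (nat_lit 1) .nil))),
   .der (nat_lit 20) (nat_lit 15),
   .der (nat_lit 33345) (nat_lit 45),
   .prs (.two (nat_lit 5) (nat_lit 16) (nat_lit 1338) (nat_lit 4) (.two (nat_lit 0) (nat_lit 8) (nat_lit 1339) (nat_lit 16) (.one (nat_lit 807) (nat_lit 16) .nil))),
   .der (nat_lit 1650) (nat_lit 10),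
   .der (nat_lit 137) (nat_lit 763),
   .prs (.two (nat_lit 34) (nat_lit 16) (nat_lit 1341) (nat_lit 8) (.two (nat_lit 0) (nat_lit 8) (nat_lit 717) (nat_lit 16) (.one (nat_lit 1342) (nat_lit 16) .nil))),
   .der (nat_lit 4) (nat_lit 84),
   .prs (.two (nat_lit 75) (nat_lit 4) (nat_lit 308) (nat_lit 2) (.two (nat_lit 1) (nat_lit 4) (nat_lit 728) (nat_lit 2) (.one (nat_lit 1344) (nat_lit 2) .nil))),
   .der (nat_lit 2135) (nat_lit 149),
   .prs (.two (nat_lit 5) (nat_lit 16) (nat_lit 94) (nat_lit 2) (.one (nat_lit 1346) (nat_lit 2) .nil)),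
   .der (nat_lit 1893) (nat_lit 123),
   .der (nat_lit 2578) (nat_lit 760),
   .prs (.two (nat_lit 463) (nat_lit 8) (nat_lit 926) (nat_lit 2) (.two (nat_lit 1) (nat_lit 2) (nat_lit 13) (nat_lit 8) (.two (nat_lit 0) (nat_lit 1) (nat_lit 1348) (nat_lit 2) (.one (nat_lit 1349) (nat_lit 1) .nil)))),
   .der (nat_lit 2193) (nat_lit 601),
   .prs (.two (nat_lit 2) (nat_lit 8) (nat_lit 918) (nat_lit 1) (.two (nat_lit 1) (nat_lit 2) (nat_lit 1348) (nat_lit 1) (.one (nat_lit 1351) (nat_lit 1) .nil))),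
   .der (nat_lit 2578) (nat_lit 239),
   .prs (.two (nat_lit 34) (nat_lit 8) (nat_lit 338) (nat_lit 2) (.two (nat_lit 11) (nat_lit 2) (nat_lit 227) (nat_lit 8) (.two (nat_lit 0) (nat_lit 2) (nat_lit 1353) (nat_lit 8) .nil))),
   .der (nat_lit 9) (nat_lit 35),
   .prs (.two (nat_lit 2) (nat_lit 4) (nat_lit 325) (nat_lit 8) (.two (nat_lit 1) (nat_lit 8) (nat_lit 1355) (nat_lit 4) .nil)),
   .der (nat_lit 644) (nat_lit 101),
   .der (nat_lit 370) (nat_lit 169),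
   .prs (.two (nat_lit 7) (nat_lit 16) (nat_lit 397) (nat_lit 4) (.two (nat_lit 3) (nat_lit 4) (nat_lit 221) (nat_lit 16) (.two (nat_lit 0) (nat_lit 2) (nat_lit 1357) (nat_lit 4) (.one (nat_lit 1358) (nat_lit 2) .nil)))),
   .der (nat_lit 561) (nat_lit 19),
   .der (nat_lit 370) (nat_lit 128),
   .prs (.two (nat_lit 9) (nat_lit 16) (nat_lit 96) (nat_lit 4) (.two (nat_lit 1) (nat_lit 4) (nat_lit 1360) (nat_lit 16) (.one (nat_lit 1361) (nat_lit 4) .nil))),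
   .der (nat_lit 22803) (nat_lit 10),
   .der (nat_lit 100) (nat_lit 41),
   .prs (.two (nat_lit 2) (nat_lit 4) (nat_lit 1363) (nat_lit 2) (.two (nat_lit 0) (nat_lit 1) (nat_lit 1364) (nat_lit 4) (.one (nat_lit 355) (nat_lit 4) .nil))),
   .der (nat_lit 356) (nat_lit 113),
   .prs (.two (nat_lit 9) (nat_lit 16) (nat_lit 178) (nat_lit 1) (.two (nat_lit 3) (nat_lit 1) (nat_lit 1366) (nat_lit 16) .nil)),
   .der (nat_lit 24916) (nat_lit 279),
   .prs (.two (nat_lit 170) (nat_lit 16) (nat_lit 436) (nat_lit 1) (.two (nat_lit 3) (nat_lit 1) (nat_lit 120) (nat_lit 16) (.one (nat_lit 1368) (nat_lit 1) .nil))),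
   .der (nat_lit 1073) (nat_lit 54),
   .prs (.two (nat_lit 78) (nat_lit 4) (nat_lit 430) (nat_lit 1) (.two (nat_lit 11) (nat_lit 1) (nat_lit 15) (nat_lit 4) (.two (nat_lit 0) (nat_lit 8) (nat_lit 1370) (nat_lit 1) (.one (nat_lit 821) (nat_lit 1) .nil)))),
   .der (nat_lit 9) (nat_lit 24),
   .der (nat_lit 561) (nat_lit 87),
   .prs (.two (nat_lit 75) (nat_lit 4) (nat_lit 1372) (nat_lit 2) (.one (nat_lit 1373) (nat_lit 2) .nil)),
   .der (nat_lit 101) (nat_lit 162),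
   .der (nat_lit 5) (nat_lit 381),
   .prs (.two (nat_lit 129) (nat_lit 4) (nat_lit 723) (nat_lit 1) (.two (nat_lit 2) (nat_lit 4) (nat_lit 825) (nat_lit 1) (.two (nat_lit 1) (nat_lit 2) (nat_lit 1375) (nat_lit 1) (.two (nat_lit 0) (nat_lit 2) (nat_lit 1376) (nat_lit 1) (.one (nat_lit 834) (nat_lit 1) .nil))))),
   .der (nat_lit 50) (nat_lit 162),
   .der (nat_lit 50) (nat_lit 378),
   .der (nat_lit 2) (nat_lit 831),
   .prs (.two (nat_lit 129) (nat_lit 4) (nat_lit 370) (nat_lit 1) (.two (nat_lit 2) (nat_lit 4) (nat_lit 835) (nat_lit 1) (.two (nat_lit 1) (nat_lit 4) (nat_lit 1378) (nat_lit 1) (.two (nat_lit 0) (nat_lit 4) (nat_lit 1379) (nat_lit 1) (.one (nat_lit 1380) (nat_lit 1) .nil))))),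
   .der (nat_lit 49) (nat_lit 37),
   .der (nat_lit 3) (nat_lit 82),
   .der (nat_lit 801) (nat_lit 829),
   .prs (.two (nat_lit 6) (nat_lit 4) (nat_lit 13) (nat_lit 8) (.two (nat_lit 1) (nat_lit 4) (nat_lit 1382) (nat_lit 1) (.two (nat_lit 0) (nat_lit 4) (nat_lit 1383) (nat_lit 1) (.one (nat_lit 1384) (nat_lit 1) .nil)))),
   .der (nat_lit 19) (nat_lit 10),
   .der (nat_lit 50) (nat_lit 6),
   .der (nat_lit 1554) (nat_lit 855),
   .prs (.two (nat_lit 1387) (nat_lit 1) (nat_lit 1386) (nat_lit 2) (.two (nat_lit 5) (nat_lit 8) (nat_lit 32) (nat_lit 1) (.two (nat_lit 3) (nat_lit 8) (nat_lit 419) (nat_lit 1) (.two (nat_lit 0) (nat_lit 8) (nat_lit 420) (nat_lit 1) (.one (nat_lit 1388) (nat_lit 2) .nil))))),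
   .der (nat_lit 83) (nat_lit 21),
   .der (nat_lit 101) (nat_lit 417),
   .prs (.two (nat_lit 36) (nat_lit 2) (nat_lit 1390) (nat_lit 1) (.two (nat_lit 1) (nat_lit 2) (nat_lit 411) (nat_lit 1) (.two (nat_lit 0) (nat_lit 8) (nat_lit 1391) (nat_lit 2) .nil))),
   .der (nat_lit 356) (nat_lit 13),
   .der (nat_lit 1893) (nat_lit 82),
   .der (nat_lit 1) (nat_lit 914),
   .prs (.two (nat_lit 147) (nat_lit 16) (nat_lit 613) (nat_lit 4) (.two (nat_lit 434) (nat_lit 16) (nat_lit 1393) (nat_lit 1) (.two (nat_lit 3) (nat_lit 4) (nat_lit 1394) (nat_lit 16) (.one (nat_lit 1395) (nat_lit 16) .nil)))),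
   .der (nat_lit 2578) (nat_lit 82),
   .der (nat_lit 117) (nat_lit 867),
   .prs (.two (nat_lit 6) (nat_lit 8) (nat_lit 289) (nat_lit 4) (.two (nat_lit 2) (nat_lit 8) (nat_lit 145) (nat_lit 4) (.two (nat_lit 1) (nat_lit 4) (nat_lit 1397) (nat_lit 8) (.one (nat_lit 1398) (nat_lit 8) .nil)))),
   .prs (.two (nat_lit 124) (nat_lit 2) (nat_lit 449) (nat_lit 8) (.two (nat_lit 11) (nat_lit 2) (nat_lit 1397) (nat_lit 8) (.one (nat_lit 946) (nat_lit 8) .nil))),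
   .der (nat_lit 1875) (nat_lit 6),
   .der (nat_lit 659) (nat_lit 24),
   .der (nat_lit 1620) (nat_lit 84),
   .der (nat_lit 161) (nat_lit 82),
   .der (nat_lit 24916) (nat_lit 939),
   .prs (.two (nat_lit 65) (nat_lit 8) (nat_lit 1401) (nat_lit 2) (.two (nat_lit 4) (nat_lit 8) (nat_lit 1402) (nat_lit 2) (.two (nat_lit 1) (nat_lit 8) (nat_lit 1403) (nat_lit 2) (.two (nat_lit 0) (nat_lit 2) (nat_lit 1404) (nat_lit 8) (.one (nat_lit 1405) (nat_lit 8) .nil))))),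
   .der (nat_lit 1890) (nat_lit 84),
   .prs (.two (nat_lit 6) (nat_lit 8) (nat_lit 522) (nat_lit 1) (.two (nat_lit 16) (nat_lit 2) (nat_lit 1407) (nat_lit 8) (.two (nat_lit 0) (nat_lit 2) (nat_lit 455) (nat_lit 1) (.one (nat_lit 936) (nat_lit 1) .nil)))),
   .prs (.two (nat_lit 34) (nat_lit 8) (nat_lit 462) (nat_lit 4) (.two (nat_lit 0) (nat_lit 8) (nat_lit 877) (nat_lit 4) (.one (nat_lit 495) (nat_lit 4) .nil))),
   .der (nat_lit 10) (nat_lit 82),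
   .der (nat_lit 2193) (nat_lit 425),
   .prs (.two (nat_lit 227) (nat_lit 8) (nat_lit 147) (nat_lit 2) (.two (nat_lit 34) (nat_lit 8) (nat_lit 94) (nat_lit 2) (.two (nat_lit 1) (nat_lit 2) (nat_lit 1410) (nat_lit 8) (.one (nat_lit 1411) (nat_lit 2) .nil)))),
   .der (nat_lit 137) (nat_lit 13),
   .der (nat_lit 10) (nat_lit 37),
   .prs (.two (nat_lit 882) (nat_lit 8) (nat_lit 85) (nat_lit 4) (.two (nat_lit 433) (nat_lit 4) (nat_lit 1413) (nat_lit 8) (.two (nat_lit 16) (nat_lit 4) (nat_lit 1414) (nat_lit 8) (.two (nat_lit 0) (nat_lit 4) (nat_lit 1410) (nat_lit 8) (.one (nat_lit 950) (nat_lit 8) .nil))))),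
   .der (nat_lit 2593) (nat_lit 19),
   .der (nat_lit 38163) (nat_lit 82),
   .der (nat_lit 9) (nat_lit 425),
   .prs (.two (nat_lit 42) (nat_lit 4) (nat_lit 1416) (nat_lit 8) (.two (nat_lit 3) (nat_lit 8) (nat_lit 1417) (nat_lit 4) (.one (nat_lit 1418) (nat_lit 8) .nil))),
   .der (nat_lit 1122) (nat_lit 19),
   .prs (.two (nat_lit 6) (nat_lit 8) (nat_lit 12) (nat_lit 1) (.two (nat_lit 329) (nat_lit 2) (nat_lit 1420) (nat_lit 1) (.two (nat_lit 1) (nat_lit 2) (nat_lit 189) (nat_lit 8) (.two (nat_lit 0) (nat_lit 2) (nat_lit 458) (nat_lit 1) (.one (nat_lit 952) (nat_lit 2) .nil))))),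
   .prs (.two (nat_lit 2) (nat_lit 8) (nat_lit 105) (nat_lit 16) (.two (nat_lit 0) (nat_lit 1) (nat_lit 866) (nat_lit 8) (.one (nat_lit 497) (nat_lit 8) .nil))),
   .der (nat_lit 2353) (nat_lit 8),
   .der (nat_lit 577) (nat_lit 72),
   .prs (.two (nat_lit 710) (nat_lit 1) (nat_lit 1423) (nat_lit 4) (.two (nat_lit 3) (nat_lit 1) (nat_lit 1424) (nat_lit 4) (.one (nat_lit 446) (nat_lit 4) .nil))),
   .der (nat_lit 833) (nat_lit 177),
   .der (nat_lit 2339) (nat_lit 946),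
   .prs (.two (nat_lit 537) (nat_lit 1) (nat_lit 1118) (nat_lit 4) (.two (nat_lit 68) (nat_lit 1) (nat_lit 86) (nat_lit 4) (.two (nat_lit 11) (nat_lit 1) (nat_lit 1426) (nat_lit 4) (.one (nat_lit 1427) (nat_lit 4) .nil)))),
   .der (nat_lit 137) (nat_lit 82),
   .der (nat_lit 147) (nat_lit 417),
   .prs (.two (nat_lit 723) (nat_lit 1) (nat_lit 582) (nat_lit 8) (.two (nat_lit 3) (nat_lit 1) (nat_lit 1429) (nat_lit 8) (.one (nat_lit 1430) (nat_lit 1) .nil))),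
   .prs (.two (nat_lit 65) (nat_lit 2) (nat_lit 129) (nat_lit 8) (.two (nat_lit 202) (nat_lit 8) (nat_lit 297) (nat_lit 2) (.two (nat_lit 1) (nat_lit 8) (nat_lit 104) (nat_lit 2) (.two (nat_lit 0) (nat_lit 1) (nat_lit 467) (nat_lit 2) (.one (nat_lit 955) (nat_lit 1) .nil))))),
   .der (nat_lit 2193) (nat_lit 39),
   .prs (.two (nat_lit 2) (nat_lit 8) (nat_lit 1433) (nat_lit 1) (.one (nat_lit 501) (nat_lit 1) .nil)),
   .der (nat_lit 103) (nat_lit 6),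
   .der (nat_lit 1073) (nat_lit 39),
   .der (nat_lit 67) (nat_lit 82),
   .prs (.two (nat_lit 30) (nat_lit 1) (nat_lit 1435) (nat_lit 8) (.two (nat_lit 7) (nat_lit 1) (nat_lit 122) (nat_lit 8) (.two (nat_lit 1) (nat_lit 8) (nat_lit 1436) (nat_lit 1) (.two (nat_lit 0) (nat_lit 8) (nat_lit 1437) (nat_lit 1) (.one (nat_lit 939) (nat_lit 1) .nil))))),
   .der (nat_lit 2593) (nat_lit 37),
   .der (nat_lit 18) (nat_lit 82),
   .prs (.two (nat_lit 1387) (nat_lit 8) (nat_lit 1048) (nat_lit 1) (.two (nat_lit 341) (nat_lit 1) (nat_lit 38) (nat_lit 8) (.two (nat_lit 16) (nat_lit 1) (nat_lit 1439) (nat_lit 8) (.two (nat_lit 0) (nat_lit 1) (nat_lit 1440) (nat_lit 8) (.one (nat_lit 958) (nat_lit 8) .nil))))),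
   .der (nat_lit 49) (nat_lit 10),
   .der (nat_lit 1430) (nat_lit 39),
   .prs (.two (nat_lit 456) (nat_lit 16) (nat_lit 1442) (nat_lit 1) (.two (nat_lit 5) (nat_lit 1) (nat_lit 105) (nat_lit 16) (.two (nat_lit 1) (nat_lit 16) (nat_lit 1443) (nat_lit 2) (.two (nat_lit 0) (nat_lit 16) (nat_lit 192) (nat_lit 2) (.one (nat_lit 960) (nat_lit 16) .nil))))),
   .der (nat_lit 30226) (nat_lit 82),
   .prs (.two (nat_lit 1333) (nat_lit 16) (nat_lit 1393) (nat_lit 1) (.two (nat_lit 16) (nat_lit 1) (nat_lit 1445) (nat_lit 16) (.one (nat_lit 964) (nat_lit 16) .nil))),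
   .der (nat_lit 16738) (nat_lit 84),
   .prs (.two (nat_lit 1387) (nat_lit 8) (nat_lit 528) (nat_lit 2) (.two (nat_lit 325) (nat_lit 2) (nat_lit 32) (nat_lit 8) (.two (nat_lit 3) (nat_lit 4) (nat_lit 1447) (nat_lit 8) (.two (nat_lit 0) (nat_lit 4) (nat_lit 469) (nat_lit 2) (.one (nat_lit 967) (nat_lit 8) .nil))))),
   .der (nat_lit 2353) (nat_lit 76),
   .prs (.two (nat_lit 6) (nat_lit 8) (nat_lit 233) (nat_lit 1) (.two (nat_lit 1) (nat_lit 8) (nat_lit 1449) (nat_lit 1) (.two (nat_lit 0) (nat_lit 16) (nat_lit 472) (nat_lit 8) (.one (nat_lit 970) (nat_lit 8) .nil)))),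
   .der (nat_lit 50) (nat_lit 21),
   .der (nat_lit 19) (nat_lit 76),
   .prs (.two (nat_lit 6) (nat_lit 4) (nat_lit 227) (nat_lit 8) (.two (nat_lit 99) (nat_lit 1) (nat_lit 1451) (nat_lit 8) (.two (nat_lit 3) (nat_lit 4) (nat_lit 1452) (nat_lit 1) (.two (nat_lit 0) (nat_lit 1) (nat_lit 474) (nat_lit 4) (.one (nat_lit 974) (nat_lit 1) .nil))))),
   .prs (.two (nat_lit 329) (nat_lit 16) (nat_lit 427) (nat_lit 2) (.two (nat_lit 1) (nat_lit 16) (nat_lit 965) (nat_lit 2) (.two (nat_lit 0) (nat_lit 16) (nat_lit 208) (nat_lit 2) (.one (nat_lit 995) (nat_lit 2) .nil)))),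
   .der (nat_lit 117) (nat_lit 870),
   .prs (.two (nat_lit 791) (nat_lit 2) (nat_lit 100) (nat_lit 8) (.two (nat_lit 34) (nat_lit 8) (nat_lit 94) (nat_lit 2) (.two (nat_lit 1) (nat_lit 2) (nat_lit 1410) (nat_lit 8) (.one (nat_lit 1455) (nat_lit 8) .nil)))),
   .der (nat_lit 147) (nat_lit 98),
   .prs (.two (nat_lit 75) (nat_lit 2) (nat_lit 145) (nat_lit 16) (.two (nat_lit 0) (nat_lit 1) (nat_lit 1457) (nat_lit 2) (.one (nat_lit 508) (nat_lit 2) .nil))),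
   .der (nat_lit 1554) (nat_lit 6),
   .der (nat_lit 152) (nat_lit 82),
   .prs (.two (nat_lit 1459) (nat_lit 2) (nat_lit 147) (nat_lit 4) (.two (nat_lit 34) (nat_lit 2) (nat_lit 145) (nat_lit 4) (.two (nat_lit 1) (nat_lit 2) (nat_lit 1460) (nat_lit 4) (.one (nat_lit 980) (nat_lit 4) .nil)))),
   .der (nat_lit 577) (nat_lit 37),
   .prs (.two (nat_lit 9) (nat_lit 4) (nat_lit 1462) (nat_lit 8) (.one (nat_lit 997) (nat_lit 8) .nil)),
   .der (nat_lit 37425) (nat_lit 19),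
   .der (nat_lit 38163) (nat_lit 72),
   .prs (.two (nat_lit 173) (nat_lit 1) (nat_lit 49) (nat_lit 8) (.two (nat_lit 11) (nat_lit 8) (nat_lit 1464) (nat_lit 1) (.two (nat_lit 0) (nat_lit 4) (nat_lit 1465) (nat_lit 1) (.one (nat_lit 513) (nat_lit 1) .nil)))),
   .der (nat_lit 1107) (nat_lit 84),
   .der (nat_lit 87) (nat_lit 878),
   .prs (.two (nat_lit 2) (nat_lit 8) (nat_lit 449) (nat_lit 2) (.two (nat_lit 0) (nat_lit 8) (nat_lit 1467) (nat_lit 1) (.one (nat_lit 1468) (nat_lit 1) .nil))),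
   .der (nat_lit 5) (nat_lit 10),
   .der (nat_lit 152) (nat_lit 35),
   .der (nat_lit 1299) (nat_lit 172),
   .prs (.two (nat_lit 456) (nat_lit 4) (nat_lit 1470) (nat_lit 8) (.two (nat_lit 463) (nat_lit 8) (nat_lit 105) (nat_lit 4) (.two (nat_lit 1) (nat_lit 8) (nat_lit 1471) (nat_lit 4) (.two (nat_lit 0) (nat_lit 8) (nat_lit 1472) (nat_lit 4) (.one (nat_lit 982) (nat_lit 1) .nil))))),
   .der (nat_lit 49) (nat_lit 169),
   .prs (.two (nat_lit 723) (nat_lit 1) (nat_lit 362) (nat_lit 2) (.two (nat_lit 99) (nat_lit 2) (nat_lit 858) (nat_lit 1) (.two (nat_lit 3) (nat_lit 4) (nat_lit 1382) (nat_lit 1) (.two (nat_lit 0) (nat_lit 4) (nat_lit 1474) (nat_lit 1) (.one (nat_lit 984) (nat_lit 2) .nil))))),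
   .der (nat_lit 1395) (nat_lit 21),
   .der (nat_lit 644) (nat_lit 76),
   .prs (.two (nat_lit 1259) (nat_lit 2) (nat_lit 1476) (nat_lit 1) (.two (nat_lit 1) (nat_lit 2) (nat_lit 1477) (nat_lit 1) (.two (nat_lit 0) (nat_lit 8) (nat_lit 481) (nat_lit 2) (.one (nat_lit 987) (nat_lit 2) .nil)))),
   .prs (.two (nat_lit 7) (nat_lit 1) (nat_lit 444) (nat_lit 2) (.two (nat_lit 0) (nat_lit 1) (nat_lit 211) (nat_lit 2) (.one (nat_lit 518) (nat_lit 2) .nil))),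
   .der (nat_lit 1556) (nat_lit 13),
   .der (nat_lit 1) (nat_lit 950),
   .prs (.two (nat_lit 1459) (nat_lit 16) (nat_lit 1480) (nat_lit 2) (.two (nat_lit 1) (nat_lit 2) (nat_lit 1440) (nat_lit 16) (.one (nat_lit 1481) (nat_lit 16) .nil))),
   .der (nat_lit 4) (nat_lit 101),
   .prs (.two (nat_lit 2) (nat_lit 8) (nat_lit 109) (nat_lit 1) (.two (nat_lit 0) (nat_lit 8) (nat_lit 1483) (nat_lit 1) (.one (nat_lit 999) (nat_lit 1) .nil))),
   .der (nat_lit 115) (nat_lit 208),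
   .der (nat_lit 115) (nat_lit 995),
   .prs (.two (nat_lit 9) (nat_lit 1) (nat_lit 23) (nat_lit 2) (.two (nat_lit 1) (nat_lit 16) (nat_lit 1485) (nat_lit 2) (.one (nat_lit 1486) (nat_lit 2) .nil))),
   .der (nat_lit 644) (nat_lit 98),
   .der (nat_lit 10) (nat_lit 508),
   .prs (.two (nat_lit 9) (nat_lit 1) (nat_lit 422) (nat_lit 2) (.two (nat_lit 16) (nat_lit 1) (nat_lit 1488) (nat_lit 2) (.one (nat_lit 1489) (nat_lit 2) .nil))),
   .prs (.two (nat_lit 2) (nat_lit 4) (nat_lit 965) (nat_lit 2) (.two (nat_lit 0) (nat_lit 4) (nat_lit 1457) (nat_lit 2) (.one (nat_lit 465) (nat_lit 2) .nil))),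
   .der (nat_lit 137) (nat_lit 35),
   .prs (.two (nat_lit 5) (nat_lit 8) (nat_lit 1401) (nat_lit 1) (.two (nat_lit 3) (nat_lit 1) (nat_lit 1492) (nat_lit 8) (.one (nat_lit 530) (nat_lit 8) .nil))),
   .prs (.two (nat_lit 383) (nat_lit 16) (nat_lit 33) (nat_lit 8) (.one (nat_lit 1404) (nat_lit 8) .nil)),
   .der (nat_lit 2) (nat_lit 90),
   .prs (.two (nat_lit 384) (nat_lit 1) (nat_lit 882) (nat_lit 8) (.two (nat_lit 1) (nat_lit 4) (nat_lit 86) (nat_lit 1) (.two (nat_lit 0) (nat_lit 4) (nat_lit 1495) (nat_lit 8) (.one (nat_lit 1001) (nat_lit 1) .nil)))),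
   .prs (.two (nat_lit 4) (nat_lit 8) (nat_lit 1401) (nat_lit 2) (.two (nat_lit 1) (nat_lit 2) (nat_lit 437) (nat_lit 8) (.two (nat_lit 0) (nat_lit 2) (nat_lit 216) (nat_lit 8) (.one (nat_lit 539) (nat_lit 8) .nil)))),
   .prs (.two (nat_lit 7) (nat_lit 8) (nat_lit 509) (nat_lit 4) (.two (nat_lit 0) (nat_lit 16) (nat_lit 115) (nat_lit 4) (.one (nat_lit 544) (nat_lit 4) .nil))),
   .der (nat_lit 13345) (nat_lit 177)]

theorem b5_step2 (h : ∀ j < 1000, Good b5T j) : ∀ j < 1500, Good b5T j := by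
  intro j hj
  refine chkL_ok b5C2 1000 h (by decide +kernel) j ?_
  have h : b5C2.length = 500 := by decide +kernel
  omega

/-- certificates 1500..2000 -/
def b5C3 : List Cf :=
  [.prs (.two (nat_lit 2) (nat_lit 8) (nat_lit 65) (nat_lit 2) (.two (nat_lit 11) (nat_lit 2) (nat_lit 86) (nat_lit 1) (.two (nat_lit 0) (nat_lit 8) (nat_lit 220) (nat_lit 1) (.one (nat_lit 1499) (nat_lit 1) .nil)))),
   .der (nat_lit 145) (nat_lit 29),
   .der (nat_lit 2593) (nat_lit 35),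
   .prs (.two (nat_lit 2) (nat_lit 4) (nat_lit 1501) (nat_lit 1) (.two (nat_lit 0) (nat_lit 16) (nat_lit 1502) (nat_lit 1) (.one (nat_lit 547) (nat_lit 1) .nil))),
   .der (nat_lit 1811) (nat_lit 24),
   .der (nat_lit 1415) (nat_lit 87),
   .prs (.two (nat_lit 75) (nat_lit 2) (nat_lit 53) (nat_lit 8) (.two (nat_lit 1) (nat_lit 8) (nat_lit 1504) (nat_lit 2) (.two (nat_lit 0) (nat_lit 1) (nat_lit 1505) (nat_lit 2) (.one (nat_lit 1003) (nat_lit 8) .nil)))),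
   .der (nat_lit 9) (nat_lit 59),
   .prs (.two (nat_lit 2) (nat_lit 4) (nat_lit 12) (nat_lit 8) (.two (nat_lit 1) (nat_lit 4) (nat_lit 61) (nat_lit 8) (.two (nat_lit 0) (nat_lit 8) (nat_lit 1507) (nat_lit 4) (.one (nat_lit 549) (nat_lit 8) .nil)))),
   .der (nat_lit 2593) (nat_lit 108),
   .prs (.two (nat_lit 202) (nat_lit 4) (nat_lit 937) (nat_lit 1) (.two (nat_lit 46) (nat_lit 1) (nat_lit 19) (nat_lit 4) (.two (nat_lit 0) (nat_lit 8) (nat_lit 1509) (nat_lit 1) (.one (nat_lit 551) (nat_lit 4) .nil)))),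
   .der (nat_lit 5716) (nat_lit 84),
   .prs (.two (nat_lit 1068) (nat_lit 16) (nat_lit 1048) (nat_lit 1) (.two (nat_lit 3) (nat_lit 16) (nat_lit 1511) (nat_lit 1) (.one (nat_lit 1004) (nat_lit 1) .nil))),
   .der (nat_lit 2135) (nat_lit 35),
   .prs (.two (nat_lit 9) (nat_lit 1) (nat_lit 475) (nat_lit 8) (.two (nat_lit 3) (nat_lit 1) (nat_lit 1513) (nat_lit 8) (.one (nat_lit 560) (nat_lit 1) .nil))),
   .der (nat_lit 100) (nat_lit 208),
   .prs (.two (nat_lit 329) (nat_lit 16) (nat_lit 858) (nat_lit 4) (.two (nat_lit 0) (nat_lit 4) (nat_lit 1515) (nat_lit 8) (.one (nat_lit 1005) (nat_lit 8) .nil))),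
   .der (nat_lit 1890) (nat_lit 39),
   .prs (.two (nat_lit 430) (nat_lit 1) (nat_lit 1517) (nat_lit 2) (.one (nat_lit 1009) (nat_lit 2) .nil)),
   .der (nat_lit 370) (nat_lit 10),
   .prs (.two (nat_lit 99) (nat_lit 2) (nat_lit 1519) (nat_lit 1) (.two (nat_lit 11) (nat_lit 1) (nat_lit 449) (nat_lit 2) (.two (nat_lit 0) (nat_lit 1) (nat_lit 123) (nat_lit 2) (.one (nat_lit 1012) (nat_lit 1) .nil)))),
   .der (nat_lit 4) (nat_lit 216),
   .der (nat_lit 132) (nat_lit 544),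
   .prs (.two (nat_lit 202) (nat_lit 4) (nat_lit 522) (nat_lit 8) (.two (nat_lit 0) (nat_lit 4) (nat_lit 1521) (nat_lit 8) (.one (nat_lit 1522) (nat_lit 8) .nil))),
   .der (nat_lit 9) (nat_lit 21),
   .prs (.two (nat_lit 2) (nat_lit 4) (nat_lit 15) (nat_lit 1) (.two (nat_lit 0) (nat_lit 1) (nat_lit 1524) (nat_lit 4) (.one (nat_lit 1227) (nat_lit 4) .nil))),
   .der (nat_lit 22548) (nat_lit 41),
   .prs (.two (nat_lit 7) (nat_lit 1) (nat_lit 329) (nat_lit 16) (.two (nat_lit 1) (nat_lit 16) (nat_lit 1526) (nat_lit 1) (.one (nat_lit 568) (nat_lit 1) .nil))),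
   .der (nat_lit 24916) (nat_lit 4),
   .prs (.two (nat_lit 482) (nat_lit 4) (nat_lit 1528) (nat_lit 8) (.two (nat_lit 1) (nat_lit 8) (nat_lit 890) (nat_lit 4) .nil)),
   .der (nat_lit 1299) (nat_lit 39),
   .der (nat_lit 129) (nat_lit 82),
   .der (nat_lit 118) (nat_lit 876),
   .prs (.two (nat_lit 28) (nat_lit 4) (nat_lit 97) (nat_lit 1) (.two (nat_lit 11) (nat_lit 1) (nat_lit 1530) (nat_lit 4) (.two (nat_lit 0) (nat_lit 1) (nat_lit 1531) (nat_lit 4) (.one (nat_lit 1532) (nat_lit 4) .nil)))),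
   .prs (.two (nat_lit 1387) (nat_lit 1) (nat_lit 174) (nat_lit 4) (.two (nat_lit 7) (nat_lit 1) (nat_lit 86) (nat_lit 4) (.two (nat_lit 3) (nat_lit 1) (nat_lit 1417) (nat_lit 4) (.one (nat_lit 1015) (nat_lit 4) .nil)))),
   .der (nat_lit 1875) (nat_lit 10),
   .der (nat_lit 150) (nat_lit 39),
   .der (nat_lit 135) (nat_lit 169),
   .der (nat_lit 3) (nat_lit 1067),
   .prs (.two (nat_lit 637) (nat_lit 4) (nat_lit 1535) (nat_lit 1) (.two (nat_lit 433) (nat_lit 1) (nat_lit 1536) (nat_lit 4) (.two (nat_lit 0) (nat_lit 8) (nat_lit 1537) (nat_lit 4) (.one (nat_lit 1538) (nat_lit 4) .nil)))),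
   .der (nat_lit 98) (nat_lit 72),
   .der (nat_lit 2) (nat_lit 530),
   .prs (.two (nat_lit 308) (nat_lit 2) (nat_lit 717) (nat_lit 16) (.two (nat_lit 0) (nat_lit 2) (nat_lit 1540) (nat_lit 16) (.one (nat_lit 1541) (nat_lit 16) .nil))),
   .der (nat_lit 1811) (nat_lit 74),
   .prs (.two (nat_lit 2) (nat_lit 4) (nat_lit 1095) (nat_lit 2) (.two (nat_lit 0) (nat_lit 4) (nat_lit 1543) (nat_lit 2) (.one (nat_lit 1102) (nat_lit 2) .nil))),
   .der (nat_lit 86) (nat_lit 936),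
   .prs (.two (nat_lit 456) (nat_lit 4) (nat_lit 1095) (nat_lit 2) (.two (nat_lit 1) (nat_lit 4) (nat_lit 1063) (nat_lit 2) (.two (nat_lit 0) (nat_lit 4) (nat_lit 1308) (nat_lit 2) (.one (nat_lit 1545) (nat_lit 2) .nil)))),
   .der (nat_lit 83) (nat_lit 39),
   .der (nat_lit 17185) (nat_lit 82),
   .der (nat_lit 86) (nat_lit 417),
   .prs (.two (nat_lit 427) (nat_lit 4) (nat_lit 330) (nat_lit 1) (.two (nat_lit 1) (nat_lit 4) (nat_lit 1547) (nat_lit 1) (.two (nat_lit 0) (nat_lit 4) (nat_lit 1548) (nat_lit 1) (.one (nat_lit 1549) (nat_lit 4) .nil)))),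
   .der (nat_lit 137) (nat_lit 21),
   .der (nat_lit 118) (nat_lit 465),
   .prs (.two (nat_lit 2) (nat_lit 16) (nat_lit 1459) (nat_lit 2) (.two (nat_lit 11) (nat_lit 2) (nat_lit 1551) (nat_lit 16) (.two (nat_lit 0) (nat_lit 16) (nat_lit 610) (nat_lit 2) (.one (nat_lit 1552) (nat_lit 2) .nil)))),
   .der (nat_lit 339) (nat_lit 13),
   .der (nat_lit 98) (nat_lit 37),
   .der (nat_lit 98) (nat_lit 417),
   .prs (.two (nat_lit 427) (nat_lit 4) (nat_lit 1554) (nat_lit 2) (.two (nat_lit 1) (nat_lit 4) (nat_lit 1555) (nat_lit 2) (.two (nat_lit 0) (nat_lit 4) (nat_lit 594) (nat_lit 2) (.one (nat_lit 1556) (nat_lit 2) .nil)))),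
   .prs (.two (nat_lit 427) (nat_lit 4) (nat_lit 1554) (nat_lit 2) (.two (nat_lit 1) (nat_lit 4) (nat_lit 1555) (nat_lit 2) (.two (nat_lit 0) (nat_lit 2) (nat_lit 1417) (nat_lit 4) (.one (nat_lit 1556) (nat_lit 2) .nil)))),
   .der (nat_lit 10) (nat_lit 187),
   .prs (.two (nat_lit 374) (nat_lit 2) (nat_lit 1239) (nat_lit 8) (.two (nat_lit 0) (nat_lit 2) (nat_lit 1559) (nat_lit 8) .nil)),
   .der (nat_lit 1554) (nat_lit 205),
   .prs (.two (nat_lit 42) (nat_lit 4) (nat_lit 370) (nat_lit 1) (.two (nat_lit 2) (nat_lit 4) (nat_lit 858) (nat_lit 1) (.two (nat_lit 1) (nat_lit 4) (nat_lit 1561) (nat_lit 1) (.one (nat_lit 1092) (nat_lit 1) .nil)))),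
   .der (nat_lit 20) (nat_lit 82),
   .der (nat_lit 2578) (nat_lit 425),
   .prs (.two (nat_lit 427) (nat_lit 4) (nat_lit 1480) (nat_lit 8) (.two (nat_lit 1) (nat_lit 4) (nat_lit 1563) (nat_lit 8) (.one (nat_lit 1564) (nat_lit 4) .nil))),
   .der (nat_lit 1300) (nat_lit 477),
   .prs (.two (nat_lit 75) (nat_lit 4) (nat_lit 490) (nat_lit 8) (.two (nat_lit 0) (nat_lit 16) (nat_lit 1566) (nat_lit 4) .nil)),
   .der (nat_lit 2084) (nat_lit 39),
   .prs (.two (nat_lit 170) (nat_lit 4) (nat_lit 1568) (nat_lit 8) (.one (nat_lit 1104) (nat_lit 8) .nil)),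
   .der (nat_lit 340) (nat_lit 10),
   .der (nat_lit 118) (nat_lit 101),
   .prs (.two (nat_lit 75) (nat_lit 4) (nat_lit 1570) (nat_lit 8) (.two (nat_lit 1) (nat_lit 4) (nat_lit 449) (nat_lit 8) (.two (nat_lit 0) (nat_lit 16) (nat_lit 1571) (nat_lit 4) (.one (nat_lit 1107) (nat_lit 4) .nil)))),
   .der (nat_lit 339) (nat_lit 10),
   .der (nat_lit 87) (nat_lit 95),
   .prs (.two (nat_lit 2) (nat_lit 16) (nat_lit 1573) (nat_lit 2) (.two (nat_lit 1) (nat_lit 2) (nat_lit 1574) (nat_lit 8) (.one (nat_lit 1108) (nat_lit 8) .nil))),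
   .der (nat_lit 1074) (nat_lit 135),
   .prs (.two (nat_lit 68) (nat_lit 1) (nat_lit 613) (nat_lit 4) (.two (nat_lit 1) (nat_lit 8) (nat_lit 1576) (nat_lit 1) (.one (nat_lit 1110) (nat_lit 4) .nil))),
   .der (nat_lit 52) (nat_lit 84),
   .prs (.two (nat_lit 17) (nat_lit 4) (nat_lit 1223) (nat_lit 2) (.two (nat_lit 0) (nat_lit 1) (nat_lit 1578) (nat_lit 2) (.one (nat_lit 627) (nat_lit 4) .nil))),
   .der (nat_lit 117) (nat_lit 87),
   .prs (.two (nat_lit 463) (nat_lit 16) (nat_lit 1019) (nat_lit 8) (.two (nat_lit 1) (nat_lit 16) (nat_lit 278) (nat_lit 8) (.two (nat_lit 0) (nat_lit 2) (nat_lit 1580) (nat_lit 8) (.one (nat_lit 1112) (nat_lit 16) .nil)))),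
   .der (nat_lit 13345) (nat_lit 13),
   .der (nat_lit 659) (nat_lit 479),
   .prs (.two (nat_lit 2) (nat_lit 8) (nat_lit 1582) (nat_lit 1) (.two (nat_lit 0) (nat_lit 16) (nat_lit 1583) (nat_lit 1) .nil)),
   .der (nat_lit 1380) (nat_lit 627),
   .prs (.two (nat_lit 2) (nat_lit 8) (nat_lit 573) (nat_lit 1) (.two (nat_lit 0) (nat_lit 8) (nat_lit 574) (nat_lit 1) (.one (nat_lit 1585) (nat_lit 1) .nil))),
   .der (nat_lit 13345) (nat_lit 37),
   .der (nat_lit 1653) (nat_lit 479),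
   .prs (.two (nat_lit 434) (nat_lit 1) (nat_lit 1587) (nat_lit 8) (.one (nat_lit 1588) (nat_lit 8) .nil)),
   .der (nat_lit 33345) (nat_lit 24),
   .der (nat_lit 67) (nat_lit 485),
   .prs (.two (nat_lit 2) (nat_lit 8) (nat_lit 1081) (nat_lit 2) (.two (nat_lit 1) (nat_lit 2) (nat_lit 1590) (nat_lit 8) (.two (nat_lit 0) (nat_lit 16) (nat_lit 1591) (nat_lit 2) .nil))),
   .der (nat_lit 5218) (nat_lit 8),
   .der (nat_lit 13345) (nat_lit 21),
   .der (nat_lit 1875) (nat_lit 67),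
   .der (nat_lit 9587) (nat_lit 580),
   .prs (.two (nat_lit 5) (nat_lit 8) (nat_lit 1593) (nat_lit 2) (.two (nat_lit 1) (nat_lit 2) (nat_lit 1594) (nat_lit 8) (.two (nat_lit 0) (nat_lit 8) (nat_lit 1595) (nat_lit 2) (.one (nat_lit 1596) (nat_lit 2) .nil)))),
   .prs (.two (nat_lit 384) (nat_lit 8) (nat_lit 383) (nat_lit 16) (.two (nat_lit 1) (nat_lit 16) (nat_lit 86) (nat_lit 4) (.one (nat_lit 271) (nat_lit 4) .nil))),
   .der (nat_lit 882) (nat_lit 76),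
   .prs (.two (nat_lit 4) (nat_lit 8) (nat_lit 616) (nat_lit 2) (.two (nat_lit 0) (nat_lit 8) (nat_lit 1599) (nat_lit 2) (.one (nat_lit 1596) (nat_lit 2) .nil))),
   .der (nat_lit 98) (nat_lit 39),
   .prs (.two (nat_lit 2) (nat_lit 16) (nat_lit 1601) (nat_lit 2) (.one (nat_lit 1114) (nat_lit 2) .nil)),
   .der (nat_lit 33345) (nat_lit 236),
   .prs (.two (nat_lit 325) (nat_lit 2) (nat_lit 97) (nat_lit 16) (.two (nat_lit 0) (nat_lit 2) (nat_lit 1603) (nat_lit 4) (.one (nat_lit 1117) (nat_lit 4) .nil))),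
   .der (nat_lit 2578) (nat_lit 54),
   .prs (.two (nat_lit 2) (nat_lit 16) (nat_lit 1605) (nat_lit 8) (.two (nat_lit 0) (nat_lit 2) (nat_lit 1574) (nat_lit 8) (.one (nat_lit 1047) (nat_lit 8) .nil))),
   .der (nat_lit 83) (nat_lit 67),
   .prs (.two (nat_lit 493) (nat_lit 2) (nat_lit 694) (nat_lit 4) (.two (nat_lit 1) (nat_lit 2) (nat_lit 1194) (nat_lit 4) (.two (nat_lit 0) (nat_lit 16) (nat_lit 1607) (nat_lit 2) (.one (nat_lit 1120) (nat_lit 2) .nil)))),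
   .der (nat_lit 1380) (nat_lit 115),
   .prs (.two (nat_lit 173) (nat_lit 4) (nat_lit 1095) (nat_lit 2) (.two (nat_lit 0) (nat_lit 1) (nat_lit 1609) (nat_lit 2) (.one (nat_lit 640) (nat_lit 2) .nil))),
   .der (nat_lit 5716) (nat_lit 6),
   .der (nat_lit 86) (nat_lit 84),
   .prs (.two (nat_lit 2) (nat_lit 8) (nat_lit 1611) (nat_lit 2) (.two (nat_lit 1) (nat_lit 8) (nat_lit 1095) (nat_lit 2) (.two (nat_lit 0) (nat_lit 1) (nat_lit 1612) (nat_lit 8) (.one (nat_lit 1123) (nat_lit 2) .nil)))),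
   .der (nat_lit 1893) (nat_lit 35),
   .der (nat_lit 2578) (nat_lit 544),
   .prs (.two (nat_lit 2) (nat_lit 16) (nat_lit 390) (nat_lit 2) (.two (nat_lit 0) (nat_lit 16) (nat_lit 1614) (nat_lit 2) (.one (nat_lit 1615) (nat_lit 2) .nil))),
   .der (nat_lit 1380) (nat_lit 41),
   .der (nat_lit 100) (nat_lit 90),
   .prs (.two (nat_lit 308) (nat_lit 8) (nat_lit 1617) (nat_lit 16) (.two (nat_lit 0) (nat_lit 8) (nat_lit 1618) (nat_lit 16) (.one (nat_lit 644) (nat_lit 16) .nil))),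
   .der (nat_lit 101) (nat_lit 21),
   .der (nat_lit 6) (nat_lit 67),
   .prs (.two (nat_lit 2) (nat_lit 4) (nat_lit 6) (nat_lit 8) (.two (nat_lit 3) (nat_lit 4) (nat_lit 1620) (nat_lit 8) (.two (nat_lit 0) (nat_lit 16) (nat_lit 1621) (nat_lit 4) (.one (nat_lit 646) (nat_lit 4) .nil)))),
   .der (nat_lit 1556) (nat_lit 84),
   .prs (.two (nat_lit 17) (nat_lit 16) (nat_lit 145) (nat_lit 4) (.two (nat_lit 0) (nat_lit 16) (nat_lit 1623) (nat_lit 1) (.one (nat_lit 1125) (nat_lit 1) .nil))),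
   .der (nat_lit 13345) (nat_lit 223),
   .prs (.two (nat_lit 206) (nat_lit 8) (nat_lit 178) (nat_lit 4) (.two (nat_lit 3) (nat_lit 4) (nat_lit 1625) (nat_lit 8) .nil)),
   .der (nat_lit 644) (nat_lit 544),
   .prs (.two (nat_lit 99) (nat_lit 1) (nat_lit 741) (nat_lit 2) (.two (nat_lit 3) (nat_lit 4) (nat_lit 97) (nat_lit 1) (.two (nat_lit 0) (nat_lit 1) (nat_lit 1627) (nat_lit 4) .nil))),
   .der (nat_lit 49) (nat_lit 84),
   .prs (.two (nat_lit 556) (nat_lit 8) (nat_lit 459) (nat_lit 4) (.two (nat_lit 0) (nat_lit 1) (nat_lit 1629) (nat_lit 8) (.one (nat_lit 651) (nat_lit 4) .nil))),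
   .der (nat_lit 67) (nat_lit 27),
   .prs (.two (nat_lit 2) (nat_lit 8) (nat_lit 1631) (nat_lit 4) (.two (nat_lit 0) (nat_lit 16) (nat_lit 1511) (nat_lit 4) (.one (nat_lit 1131) (nat_lit 8) .nil))),
   .prs (.two (nat_lit 1068) (nat_lit 4) (nat_lit 1149) (nat_lit 2) (.two (nat_lit 46) (nat_lit 2) (nat_lit 295) (nat_lit 4) (.two (nat_lit 0) (nat_lit 4) (nat_lit 653) (nat_lit 2) (.one (nat_lit 655) (nat_lit 4) .nil)))),
   .prs (.two (nat_lit 556) (nat_lit 8) (nat_lit 459) (nat_lit 4) (.two (nat_lit 0) (nat_lit 16) (nat_lit 651) (nat_lit 4) .nil)),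
   .der (nat_lit 129) (nat_lit 87),
   .prs (.two (nat_lit 170) (nat_lit 2) (nat_lit 329) (nat_lit 16) (.two (nat_lit 1) (nat_lit 16) (nat_lit 1635) (nat_lit 2) .nil)),
   .der (nat_lit 1430) (nat_lit 41),
   .der (nat_lit 1107) (nat_lit 568),
   .prs (.two (nat_lit 7) (nat_lit 8) (nat_lit 195) (nat_lit 1) (.two (nat_lit 11) (nat_lit 1) (nat_lit 1637) (nat_lit 8) (.one (nat_lit 1638) (nat_lit 8) .nil))),
   .der (nat_lit 165) (nat_lit 52),
   .prs (.two (nat_lit 7) (nat_lit 8) (nat_lit 195) (nat_lit 1) (.two (nat_lit 11) (nat_lit 1) (nat_lit 1640) (nat_lit 8) (.one (nat_lit 664) (nat_lit 8) .nil))),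
   .der (nat_lit 21092) (nat_lit 45),
   .prs (.two (nat_lit 75) (nat_lit 16) (nat_lit 264) (nat_lit 2) (.two (nat_lit 0) (nat_lit 16) (nat_lit 1642) (nat_lit 2) (.one (nat_lit 106) (nat_lit 2) .nil))),
   .der (nat_lit 132) (nat_lit 84),
   .der (nat_lit 9) (nat_lit 530),
   .der (nat_lit 137) (nat_lit 907),
   .prs (.two (nat_lit 791) (nat_lit 2) (nat_lit 1095) (nat_lit 1) (.two (nat_lit 1) (nat_lit 2) (nat_lit 1644) (nat_lit 1) (.two (nat_lit 0) (nat_lit 2) (nat_lit 1645) (nat_lit 8) (.one (nat_lit 1646) (nat_lit 2) .nil)))),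
   .der (nat_lit 612) (nat_lit 10),
   .der (nat_lit 65) (nat_lit 192),
   .der (nat_lit 5971) (nat_lit 1067),
   .prs (.two (nat_lit 42) (nat_lit 8) (nat_lit 1648) (nat_lit 2) (.two (nat_lit 4) (nat_lit 2) (nat_lit 509) (nat_lit 8) (.two (nat_lit 3) (nat_lit 16) (nat_lit 1649) (nat_lit 8) (.one (nat_lit 1650) (nat_lit 8) .nil)))),
   .der (nat_lit 8) (nat_lit 551),
   .prs (.two (nat_lit 2) (nat_lit 8) (nat_lit 676) (nat_lit 16) (.two (nat_lit 0) (nat_lit 8) (nat_lit 1652) (nat_lit 16) .nil)),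
   .der (nat_lit 87) (nat_lit 10),
   .der (nat_lit 2433) (nat_lit 101),
   .prs (.two (nat_lit 2) (nat_lit 16) (nat_lit 1654) (nat_lit 8) (.two (nat_lit 1) (nat_lit 8) (nat_lit 1655) (nat_lit 16) (.one (nat_lit 1141) (nat_lit 1) .nil))),
   .der (nat_lit 12658) (nat_lit 21),
   .der (nat_lit 9587) (nat_lit 655),
   .prs (.two (nat_lit 34) (nat_lit 16) (nat_lit 741) (nat_lit 2) (.two (nat_lit 1) (nat_lit 16) (nat_lit 1657) (nat_lit 2) (.two (nat_lit 0) (nat_lit 1) (nat_lit 1658) (nat_lit 2) .nil))),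
   .der (nat_lit 1415) (nat_lit 59),
   .der (nat_lit 115) (nat_lit 455),
   .prs (.two (nat_lit 68) (nat_lit 1) (nat_lit 49) (nat_lit 4) (.two (nat_lit 3) (nat_lit 4) (nat_lit 616) (nat_lit 1) (.two (nat_lit 0) (nat_lit 1) (nat_lit 1660) (nat_lit 4) (.one (nat_lit 1661) (nat_lit 4) .nil)))),
   .der (nat_lit 165) (nat_lit 15),
   .prs (.two (nat_lit 2) (nat_lit 8) (nat_lit 1663) (nat_lit 2) (.two (nat_lit 1) (nat_lit 8) (nat_lit 1095) (nat_lit 2) (.two (nat_lit 0) (nat_lit 16) (nat_lit 1147) (nat_lit 2) (.one (nat_lit 1142) (nat_lit 8) .nil)))),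
   .der (nat_lit 1890) (nat_lit 182),
   .der (nat_lit 10) (nat_lit 917),
   .prs (.two (nat_lit 12) (nat_lit 16) (nat_lit 1459) (nat_lit 2) (.two (nat_lit 5) (nat_lit 16) (nat_lit 449) (nat_lit 2) (.two (nat_lit 3) (nat_lit 16) (nat_lit 1665) (nat_lit 2) (.one (nat_lit 1666) (nat_lit 2) .nil)))),
   .der (nat_lit 13345) (nat_lit 57),
   .der (nat_lit 52) (nat_lit 76),
   .prs (.two (nat_lit 34) (nat_lit 16) (nat_lit 1668) (nat_lit 2) (.two (nat_lit 0) (nat_lit 1) (nat_lit 1669) (nat_lit 2) (.one (nat_lit 1144) (nat_lit 16) .nil))),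
   .der (nat_lit 1415) (nat_lit 39),
   .prs (.two (nat_lit 1161) (nat_lit 8) (nat_lit 1671) (nat_lit 2) (.one (nat_lit 1148) (nat_lit 2) .nil)),
   .der (nat_lit 21107) (nat_lit 21),
   .der (nat_lit 1653) (nat_lit 104),
   .prs (.two (nat_lit 356) (nat_lit 1) (nat_lit 49) (nat_lit 8) (.two (nat_lit 3) (nat_lit 8) (nat_lit 1673) (nat_lit 1) (.two (nat_lit 0) (nat_lit 1) (nat_lit 1674) (nat_lit 8) (.one (nat_lit 1661) (nat_lit 8) .nil)))),
   .der (nat_lit 2323) (nat_lit 98),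
   .der (nat_lit 1122) (nat_lit 655),
   .prs (.two (nat_lit 34) (nat_lit 2) (nat_lit 1200) (nat_lit 1) (.two (nat_lit 0) (nat_lit 2) (nat_lit 1676) (nat_lit 1) (.one (nat_lit 1677) (nat_lit 1) .nil))),
   .der (nat_lit 2323) (nat_lit 72),
   .prs (.two (nat_lit 99) (nat_lit 1) (nat_lit 117) (nat_lit 8) (.two (nat_lit 0) (nat_lit 4) (nat_lit 1679) (nat_lit 1) (.one (nat_lit 1151) (nat_lit 8) .nil))),
   .der (nat_lit 1299) (nat_lit 131),
   .prs (.two (nat_lit 99) (nat_lit 16) (nat_lit 490) (nat_lit 2) (.two (nat_lit 0) (nat_lit 2) (nat_lit 1681) (nat_lit 16) (.one (nat_lit 1153) (nat_lit 16) .nil))),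
   .der (nat_lit 22548) (nat_lit 57),
   .prs (.two (nat_lit 5) (nat_lit 16) (nat_lit 1683) (nat_lit 4) (.two (nat_lit 0) (nat_lit 16) (nat_lit 294) (nat_lit 4) (.one (nat_lit 1155) (nat_lit 4) .nil))),
   .der (nat_lit 1811) (nat_lit 59),
   .prs (.two (nat_lit 1214) (nat_lit 1) (nat_lit 1016) (nat_lit 2) (.two (nat_lit 0) (nat_lit 1) (nat_lit 1685) (nat_lit 2) (.one (nat_lit 1158) (nat_lit 2) .nil))),
   .prs (.two (nat_lit 493) (nat_lit 2) (nat_lit 1068) (nat_lit 16) (.two (nat_lit 3) (nat_lit 16) (nat_lit 94) (nat_lit 2) (.one (nat_lit 298) (nat_lit 2) .nil))),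
   .der (nat_lit 129) (nat_lit 8),
   .der (nat_lit 13345) (nat_lit 19),
   .der (nat_lit 19) (nat_lit 72),
   .der (nat_lit 370) (nat_lit 670),
   .der (nat_lit 50) (nat_lit 1054),
   .prs (.two (nat_lit 227) (nat_lit 8) (nat_lit 1688) (nat_lit 1) (.two (nat_lit 5) (nat_lit 1) (nat_lit 1689) (nat_lit 8) (.two (nat_lit 1) (nat_lit 2) (nat_lit 1690) (nat_lit 1) (.two (nat_lit 0) (nat_lit 1) (nat_lit 1691) (nat_lit 8) (.one (nat_lit 1692) (nat_lit 1) .nil))))),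
   .der (nat_lit 1811) (nat_lit 87),
   .der (nat_lit 2390) (nat_lit 432),
   .prs (.two (nat_lit 482) (nat_lit 1) (nat_lit 509) (nat_lit 4) (.two (nat_lit 0) (nat_lit 1) (nat_lit 1694) (nat_lit 2) (.one (nat_lit 1695) (nat_lit 2) .nil))),
   .der (nat_lit 103) (nat_lit 48),
   .der (nat_lit 30226) (nat_lit 649),
   .prs (.two (nat_lit 4) (nat_lit 8) (nat_lit 619) (nat_lit 1) (.two (nat_lit 1) (nat_lit 8) (nat_lit 1697) (nat_lit 1) (.two (nat_lit 0) (nat_lit 8) (nat_lit 1084) (nat_lit 1) (.one (nat_lit 1698) (nat_lit 1) .nil)))),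
   .der (nat_lit 101) (nat_lit 43),
   .der (nat_lit 117) (nat_lit 220),
   .der (nat_lit 118) (nat_lit 187),
   .prs (.two (nat_lit 34) (nat_lit 8) (nat_lit 1435) (nat_lit 4) (.two (nat_lit 11) (nat_lit 1) (nat_lit 1700) (nat_lit 4) (.two (nat_lit 0) (nat_lit 8) (nat_lit 1701) (nat_lit 1) (.one (nat_lit 1702) (nat_lit 1) .nil)))),
   .prs (.two (nat_lit 34) (nat_lit 2) (nat_lit 1536) (nat_lit 4) (.one (nat_lit 1645) (nat_lit 4) .nil)),
   .der (nat_lit 1415) (nat_lit 530),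
   .prs (.two (nat_lit 2) (nat_lit 8) (nat_lit 522) (nat_lit 1) (.two (nat_lit 0) (nat_lit 8) (nat_lit 1705) (nat_lit 2) .nil)),
   .prs (.two (nat_lit 75) (nat_lit 2) (nat_lit 53) (nat_lit 8) (.two (nat_lit 1) (nat_lit 2) (nat_lit 1170) (nat_lit 8) (.two (nat_lit 0) (nat_lit 1) (nat_lit 1505) (nat_lit 2) (.one (nat_lit 1208) (nat_lit 8) .nil)))),
   .der (nat_lit 98) (nat_lit 19),
   .der (nat_lit 33) (nat_lit 229),
   .prs (.two (nat_lit 5) (nat_lit 8) (nat_lit 537) (nat_lit 1) (.two (nat_lit 3) (nat_lit 8) (nat_lit 1708) (nat_lit 1) (.two (nat_lit 0) (nat_lit 2) (nat_lit 1709) (nat_lit 1) (.one (nat_lit 1211) (nat_lit 1) .nil)))),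
   .prs (.two (nat_lit 68) (nat_lit 1) (nat_lit 613) (nat_lit 4) (.two (nat_lit 11) (nat_lit 1) (nat_lit 699) (nat_lit 4) (.one (nat_lit 700) (nat_lit 4) .nil))),
   .der (nat_lit 1107) (nat_lit 110),
   .der (nat_lit 1653) (nat_lit 425),
   .prs (.two (nat_lit 65) (nat_lit 8) (nat_lit 1333) (nat_lit 2) (.two (nat_lit 4) (nat_lit 8) (nat_lit 1223) (nat_lit 2) (.two (nat_lit 1) (nat_lit 8) (nat_lit 1712) (nat_lit 2) (.two (nat_lit 0) (nat_lit 16) (nat_lit 1713) (nat_lit 2) .nil)))),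
   .der (nat_lit 22548) (nat_lit 59),
   .prs (.two (nat_lit 482) (nat_lit 4) (nat_lit 278) (nat_lit 1) (.two (nat_lit 0) (nat_lit 1) (nat_lit 1715) (nat_lit 4) (.one (nat_lit 702) (nat_lit 1) .nil))),
   .der (nat_lit 87) (nat_lit 539),
   .prs (.two (nat_lit 99) (nat_lit 2) (nat_lit 459) (nat_lit 4) (.two (nat_lit 0) (nat_lit 2) (nat_lit 1715) (nat_lit 4) (.one (nat_lit 1717) (nat_lit 4) .nil))),
   .der (nat_lit 36) (nat_lit 115),
   .der (nat_lit 33) (nat_lit 469),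
   .prs (.two (nat_lit 34) (nat_lit 8) (nat_lit 937) (nat_lit 4) (.two (nat_lit 1) (nat_lit 8) (nat_lit 1719) (nat_lit 4) (.one (nat_lit 1720) (nat_lit 4) .nil))),
   .der (nat_lit 1) (nat_lit 82),
   .der (nat_lit 129) (nat_lit 425),
   .prs (.two (nat_lit 129) (nat_lit 16) (nat_lit 528) (nat_lit 4) (.two (nat_lit 2) (nat_lit 16) (nat_lit 462) (nat_lit 4) (.two (nat_lit 1) (nat_lit 4) (nat_lit 1722) (nat_lit 16) (.one (nat_lit 1723) (nat_lit 4) .nil)))),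
   .der (nat_lit 577) (nat_lit 104),
   .der (nat_lit 35) (nat_lit 516),
   .prs (.two (nat_lit 7) (nat_lit 1) (nat_lit 1118) (nat_lit 4) (.two (nat_lit 16) (nat_lit 4) (nat_lit 155) (nat_lit 1) (.two (nat_lit 0) (nat_lit 1) (nat_lit 1725) (nat_lit 4) (.one (nat_lit 1726) (nat_lit 1) .nil)))),
   .prs (.two (nat_lit 791) (nat_lit 2) (nat_lit 808) (nat_lit 8) (.two (nat_lit 34) (nat_lit 8) (nat_lit 94) (nat_lit 2) (.two (nat_lit 1) (nat_lit 2) (nat_lit 1397) (nat_lit 8) (.one (nat_lit 1199) (nat_lit 8) .nil)))),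
   .der (nat_lit 2339) (nat_lit 48),
   .der (nat_lit 33345) (nat_lit 291),
   .prs (.two (nat_lit 9) (nat_lit 1) (nat_lit 341) (nat_lit 2) (.two (nat_lit 1) (nat_lit 8) (nat_lit 1729) (nat_lit 2) (.one (nat_lit 1730) (nat_lit 2) .nil))),
   .der (nat_lit 1650) (nat_lit 288),
   .der (nat_lit 644) (nat_lit 578),
   .prs (.two (nat_lit 2) (nat_lit 8) (nat_lit 1387) (nat_lit 1) (.two (nat_lit 1) (nat_lit 8) (nat_lit 1732) (nat_lit 1) (.one (nat_lit 1733) (nat_lit 8) .nil))),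
   .prs (.two (nat_lit 17) (nat_lit 2) (nat_lit 1048) (nat_lit 1) (.two (nat_lit 1) (nat_lit 16) (nat_lit 1382) (nat_lit 1) (.one (nat_lit 1217) (nat_lit 2) .nil))),
   .der (nat_lit 65) (nat_lit 691),
   .der (nat_lit 3) (nat_lit 516),
   .prs (.two (nat_lit 2) (nat_lit 4) (nat_lit 723) (nat_lit 1) (.two (nat_lit 16) (nat_lit 1) (nat_lit 19) (nat_lit 4) (.two (nat_lit 0) (nat_lit 4) (nat_lit 1736) (nat_lit 1) (.one (nat_lit 1737) (nat_lit 4) .nil)))),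
   .der (nat_lit 834) (nat_lit 8),
   .der (nat_lit 644) (nat_lit 82),
   .prs (.two (nat_lit 49) (nat_lit 4) (nat_lit 1739) (nat_lit 8) (.two (nat_lit 325) (nat_lit 8) (nat_lit 1254) (nat_lit 4) (.two (nat_lit 1) (nat_lit 8) (nat_lit 1740) (nat_lit 4) (.one (nat_lit 1202) (nat_lit 4) .nil)))),
   .der (nat_lit 1556) (nat_lit 106),
   .der (nat_lit 2193) (nat_lit 1155),
   .prs (.two (nat_lit 5) (nat_lit 1) (nat_lit 53) (nat_lit 8) (.two (nat_lit 1) (nat_lit 2) (nat_lit 1742) (nat_lit 1) (.one (nat_lit 1743) (nat_lit 1) .nil))),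
   .der (nat_lit 117) (nat_lit 67),
   .der (nat_lit 5) (nat_lit 461),
   .prs (.two (nat_lit 170) (nat_lit 2) (nat_lit 509) (nat_lit 4) (.two (nat_lit 0) (nat_lit 4) (nat_lit 1745) (nat_lit 2) (.one (nat_lit 1746) (nat_lit 2) .nil))),
   .der (nat_lit 339) (nat_lit 72),
   .der (nat_lit 65) (nat_lit 670),
   .prs (.two (nat_lit 2) (nat_lit 8) (nat_lit 91) (nat_lit 4) (.two (nat_lit 1) (nat_lit 2) (nat_lit 1748) (nat_lit 4) (.one (nat_lit 1749) (nat_lit 8) .nil))),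
   .der (nat_lit 2193) (nat_lit 115),
   .der (nat_lit 87) (nat_lit 1079),
   .prs (.two (nat_lit 34) (nat_lit 8) (nat_lit 427) (nat_lit 2) (.two (nat_lit 1) (nat_lit 2) (nat_lit 1751) (nat_lit 8) (.one (nat_lit 1752) (nat_lit 1) .nil))),
   .der (nat_lit 1653) (nat_lit 21),
   .der (nat_lit 101) (nat_lit 495),
   .prs (.two (nat_lit 2) (nat_lit 4) (nat_lit 6) (nat_lit 16) (.two (nat_lit 3) (nat_lit 4) (nat_lit 1754) (nat_lit 16) (.two (nat_lit 0) (nat_lit 8) (nat_lit 1755) (nat_lit 4) .nil))),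
   .der (nat_lit 882) (nat_lit 672),
   .prs (.two (nat_lit 2) (nat_lit 8) (nat_lit 1480) (nat_lit 2) (.two (nat_lit 0) (nat_lit 8) (nat_lit 1757) (nat_lit 2) .nil)),
   .der (nat_lit 1810) (nat_lit 544),
   .prs (.two (nat_lit 7) (nat_lit 1) (nat_lit 51) (nat_lit 2) (.two (nat_lit 3) (nat_lit 1) (nat_lit 464) (nat_lit 2) (.one (nat_lit 1759) (nat_lit 2) .nil))),
   .der (nat_lit 882) (nat_lit 64),
   .der (nat_lit 16738) (nat_lit 580),
   .prs (.two (nat_lit 482) (nat_lit 4) (nat_lit 1393) (nat_lit 2) (.two (nat_lit 0) (nat_lit 4) (nat_lit 1761) (nat_lit 2) (.one (nat_lit 1762) (nat_lit 2) .nil))),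
   .der (nat_lit 10) (nat_lit 35),
   .der (nat_lit 1554) (nat_lit 1083),
   .prs (.two (nat_lit 190) (nat_lit 1) (nat_lit 977) (nat_lit 8) (.two (nat_lit 3) (nat_lit 1) (nat_lit 1764) (nat_lit 8) (.one (nat_lit 1765) (nat_lit 8) .nil))),
   .der (nat_lit 2323) (nat_lit 8),
   .der (nat_lit 150) (nat_lit 67),
   .der (nat_lit 86) (nat_lit 530),
   .prs (.two (nat_lit 7) (nat_lit 1) (nat_lit 1767) (nat_lit 4) (.two (nat_lit 3) (nat_lit 1) (nat_lit 1768) (nat_lit 4) (.one (nat_lit 1769) (nat_lit 4) .nil))),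
   .der (nat_lit 37425) (nat_lit 15),
   .der (nat_lit 5971) (nat_lit 539),
   .prs (.two (nat_lit 173) (nat_lit 4) (nat_lit 1771) (nat_lit 2) (.two (nat_lit 16) (nat_lit 2) (nat_lit 1042) (nat_lit 4) (.two (nat_lit 0) (nat_lit 1) (nat_lit 1772) (nat_lit 2) .nil))),
   .der (nat_lit 114) (nat_lit 45),
   .prs (.two (nat_lit 7) (nat_lit 1) (nat_lit 51) (nat_lit 2) (.two (nat_lit 3) (nat_lit 1) (nat_lit 1774) (nat_lit 2) (.two (nat_lit 0) (nat_lit 16) (nat_lit 1759) (nat_lit 2) .nil))),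
   .der (nat_lit 115) (nat_lit 229),
   .prs (.two (nat_lit 463) (nat_lit 8) (nat_lit 1239) (nat_lit 1) (.two (nat_lit 0) (nat_lit 8) (nat_lit 1776) (nat_lit 4) (.one (nat_lit 1225) (nat_lit 4) .nil))),
   .der (nat_lit 118) (nat_lit 184),
   .der (nat_lit 36) (nat_lit 426),
   .prs (.two (nat_lit 740) (nat_lit 1) (nat_lit 591) (nat_lit 4) (.two (nat_lit 0) (nat_lit 1) (nat_lit 1778) (nat_lit 4) (.one (nat_lit 1779) (nat_lit 4) .nil))),
   .der (nat_lit 5) (nat_lit 223),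
   .der (nat_lit 21107) (nat_lit 1206),
   .prs (.two (nat_lit 75) (nat_lit 4) (nat_lit 825) (nat_lit 1) (.two (nat_lit 0) (nat_lit 4) (nat_lit 1781) (nat_lit 1) (.one (nat_lit 1782) (nat_lit 2) .nil))),
   .der (nat_lit 37425) (nat_lit 24),
   .prs (.two (nat_lit 1068) (nat_lit 4) (nat_lit 1784) (nat_lit 8) (.one (nat_lit 735) (nat_lit 4) .nil)),
   .der (nat_lit 1415) (nat_lit 67),
   .der (nat_lit 6) (nat_lit 495),
   .prs (.two (nat_lit 622) (nat_lit 2) (nat_lit 459) (nat_lit 4) (.two (nat_lit 0) (nat_lit 2) (nat_lit 1786) (nat_lit 4) (.one (nat_lit 1787) (nat_lit 4) .nil))),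
   .der (nat_lit 150) (nat_lit 15),
   .der (nat_lit 2135) (nat_lit 162),
   .der (nat_lit 5) (nat_lit 688),
   .prs (.two (nat_lit 463) (nat_lit 16) (nat_lit 1789) (nat_lit 1) (.two (nat_lit 1) (nat_lit 8) (nat_lit 1790) (nat_lit 1) (.one (nat_lit 1791) (nat_lit 1) .nil))),
   .der (nat_lit 1810) (nat_lit 288),
   .der (nat_lit 9572) (nat_lit 578),
   .prs (.two (nat_lit 17) (nat_lit 2) (nat_lit 167) (nat_lit 1) (.two (nat_lit 1) (nat_lit 2) (nat_lit 1793) (nat_lit 1) (.one (nat_lit 1794) (nat_lit 2) .nil))),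
   .der (nat_lit 5716) (nat_lit 98),
   .der (nat_lit 165) (nat_lit 465),
   .prs (.two (nat_lit 622) (nat_lit 2) (nat_lit 459) (nat_lit 4) (.two (nat_lit 0) (nat_lit 2) (nat_lit 1796) (nat_lit 4) (.one (nat_lit 1797) (nat_lit 4) .nil))),
   .der (nat_lit 1299) (nat_lit 59),
   .prs (.two (nat_lit 170) (nat_lit 16) (nat_lit 543) (nat_lit 4) (.two (nat_lit 1) (nat_lit 4) (nat_lit 1799) (nat_lit 16) (.one (nat_lit 719) (nat_lit 4) .nil))),
   .der (nat_lit 30226) (nat_lit 27),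
   .der (nat_lit 17185) (nat_lit 672),
   .prs (.two (nat_lit 2) (nat_lit 4) (nat_lit 667) (nat_lit 2) (.two (nat_lit 1) (nat_lit 4) (nat_lit 1801) (nat_lit 2) (.two (nat_lit 0) (nat_lit 1) (nat_lit 1802) (nat_lit 2) .nil))),
   .der (nat_lit 10) (nat_lit 8),
   .der (nat_lit 22803) (nat_lit 698),
   .prs (.two (nat_lit 623) (nat_lit 2) (nat_lit 1804) (nat_lit 8) (.two (nat_lit 1) (nat_lit 2) (nat_lit 1764) (nat_lit 8) (.one (nat_lit 1805) (nat_lit 8) .nil))),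
   .der (nat_lit 9572) (nat_lit 681),
   .prs (.two (nat_lit 75) (nat_lit 4) (nat_lit 51) (nat_lit 2) (.two (nat_lit 1) (nat_lit 4) (nat_lit 541) (nat_lit 2) (.one (nat_lit 1807) (nat_lit 2) .nil))),
   .der (nat_lit 162) (nat_lit 39),
   .prs (.two (nat_lit 14) (nat_lit 1) (nat_lit 1809) (nat_lit 8) (.one (nat_lit 1228) (nat_lit 8) .nil)),
   .der (nat_lit 10305) (nat_lit 95),
   .prs (.two (nat_lit 383) (nat_lit 8) (nat_lit 315) (nat_lit 4) (.two (nat_lit 0) (nat_lit 2) (nat_lit 1811) (nat_lit 4) .nil)),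
   .der (nat_lit 1395) (nat_lit 182),
   .prs (.two (nat_lit 334) (nat_lit 1) (nat_lit 825) (nat_lit 4) (.two (nat_lit 0) (nat_lit 1) (nat_lit 1813) (nat_lit 4) .nil)),
   .der (nat_lit 87) (nat_lit 39),
   .der (nat_lit 1893) (nat_lit 192),
   .prs (.two (nat_lit 1068) (nat_lit 1) (nat_lit 1815) (nat_lit 4) (.one (nat_lit 1816) (nat_lit 4) .nil)),
   .prs (.two (nat_lit 2) (nat_lit 8) (nat_lit 215) (nat_lit 1) (.two (nat_lit 1) (nat_lit 16) (nat_lit 1709) (nat_lit 1) (.one (nat_lit 722) (nat_lit 1) .nil))),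
   .prs (.two (nat_lit 5) (nat_lit 1) (nat_lit 53) (nat_lit 8) (.two (nat_lit 1) (nat_lit 2) (nat_lit 1742) (nat_lit 1) (.one (nat_lit 1230) (nat_lit 2) .nil))),
   .der (nat_lit 2353) (nat_lit 446),
   .prs (.two (nat_lit 2) (nat_lit 8) (nat_lit 1118) (nat_lit 4) (.two (nat_lit 1) (nat_lit 8) (nat_lit 1194) (nat_lit 4) (.two (nat_lit 0) (nat_lit 16) (nat_lit 1820) (nat_lit 4) .nil))),
   .der (nat_lit 16738) (nat_lit 135),
   .der (nat_lit 87) (nat_lit 504),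
   .prs (.two (nat_lit 99) (nat_lit 16) (nat_lit 1239) (nat_lit 2) (.two (nat_lit 0) (nat_lit 16) (nat_lit 1822) (nat_lit 2) (.one (nat_lit 1823) (nat_lit 2) .nil))),
   .der (nat_lit 1810) (nat_lit 27),
   .prs (.two (nat_lit 96) (nat_lit 2) (nat_lit 1825) (nat_lit 1) (.two (nat_lit 0) (nat_lit 2) (nat_lit 307) (nat_lit 1) (.one (nat_lit 726) (nat_lit 1) .nil))),
   .der (nat_lit 12658) (nat_lit 37),
   .prs (.two (nat_lit 684) (nat_lit 2) (nat_lit 576) (nat_lit 8) (.two (nat_lit 0) (nat_lit 2) (nat_lit 1827) (nat_lit 8) (.one (nat_lit 731) (nat_lit 8) .nil))),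
   .der (nat_lit 118) (nat_lit 312),
   .prs (.two (nat_lit 99) (nat_lit 2) (nat_lit 356) (nat_lit 1) (.two (nat_lit 11) (nat_lit 1) (nat_lit 1829) (nat_lit 2) .nil)),
   .prs (.two (nat_lit 463) (nat_lit 16) (nat_lit 94) (nat_lit 4) (.one (nat_lit 739) (nat_lit 4) .nil)),
   .prs (.two (nat_lit 4) (nat_lit 8) (nat_lit 462) (nat_lit 4) (.one (nat_lit 1811) (nat_lit 4) .nil)),
   .prs (.two (nat_lit 34) (nat_lit 16) (nat_lit 329) (nat_lit 2) (.two (nat_lit 1) (nat_lit 2) (nat_lit 1601) (nat_lit 16) .nil)),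
   .der (nat_lit 354) (nat_lit 41),
   .prs (.two (nat_lit 325) (nat_lit 2) (nat_lit 543) (nat_lit 8) (.two (nat_lit 0) (nat_lit 2) (nat_lit 1834) (nat_lit 8) (.one (nat_lit 1231) (nat_lit 2) .nil))),
   .prs (.two (nat_lit 170) (nat_lit 2) (nat_lit 519) (nat_lit 4) (.two (nat_lit 1) (nat_lit 4) (nat_lit 965) (nat_lit 2) (.one (nat_lit 319) (nat_lit 2) .nil))),
   .prs (.two (nat_lit 338) (nat_lit 2) (nat_lit 442) (nat_lit 1) (.two (nat_lit 3) (nat_lit 1) (nat_lit 573) (nat_lit 2) (.one (nat_lit 320) (nat_lit 2) .nil))),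
   .der (nat_lit 84) (nat_lit 41),
   .prs (.two (nat_lit 170) (nat_lit 2) (nat_lit 91) (nat_lit 4) (.two (nat_lit 0) (nat_lit 2) (nat_lit 1838) (nat_lit 4) (.one (nat_lit 1233) (nat_lit 2) .nil))),
   .der (nat_lit 147) (nat_lit 106),
   .prs (.two (nat_lit 7) (nat_lit 1) (nat_lit 329) (nat_lit 16) (.two (nat_lit 1) (nat_lit 16) (nat_lit 418) (nat_lit 1) (.one (nat_lit 1840) (nat_lit 1) .nil))),
   .der (nat_lit 5716) (nat_lit 8),
   .der (nat_lit 834) (nat_lit 123),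
   .prs (.two (nat_lit 356) (nat_lit 1) (nat_lit 1842) (nat_lit 2) (.two (nat_lit 0) (nat_lit 1) (nat_lit 1843) (nat_lit 2) .nil)),
   .prs (.two (nat_lit 383) (nat_lit 4) (nat_lit 968) (nat_lit 2) (.one (nat_lit 322) (nat_lit 2) .nil)),
   .der (nat_lit 5) (nat_lit 39),
   .prs (.two (nat_lit 2) (nat_lit 16) (nat_lit 1846) (nat_lit 8) .nil),
   .der (nat_lit 150) (nat_lit 13),
   .der (nat_lit 165) (nat_lit 322),
   .prs (.two (nat_lit 170) (nat_lit 4) (nat_lit 430) (nat_lit 2) (.two (nat_lit 11) (nat_lit 2) (nat_lit 1848) (nat_lit 4) (.one (nat_lit 1849) (nat_lit 4) .nil))),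
   .prs (.two (nat_lit 4) (nat_lit 16) (nat_lit 556) (nat_lit 8) (.two (nat_lit 1) (nat_lit 8) (nat_lit 39) (nat_lit 16) .nil)),
   .der (nat_lit 612) (nat_lit 76),
   .prs (.two (nat_lit 17) (nat_lit 2) (nat_lit 459) (nat_lit 4) (.one (nat_lit 1852) (nat_lit 4) .nil)),
   .der (nat_lit 4) (nat_lit 8),
   .der (nat_lit 1650) (nat_lit 128),
   .prs (.two (nat_lit 384) (nat_lit 8) (nat_lit 1854) (nat_lit 1) (.two (nat_lit 0) (nat_lit 8) (nat_lit 1855) (nat_lit 1) .nil)),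
   .der (nat_lit 34068) (nat_lit 87),
   .prs (.two (nat_lit 341) (nat_lit 1) (nat_lit 1134) (nat_lit 8) (.two (nat_lit 46) (nat_lit 1) (nat_lit 1857) (nat_lit 8) (.one (nat_lit 748) (nat_lit 8) .nil))),
   .der (nat_lit 1122) (nat_lit 21),
   .der (nat_lit 114) (nat_lit 497),
   .prs (.two (nat_lit 434) (nat_lit 16) (nat_lit 625) (nat_lit 2) (.two (nat_lit 11) (nat_lit 2) (nat_lit 1859) (nat_lit 16) (.two (nat_lit 0) (nat_lit 2) (nat_lit 750) (nat_lit 16) (.one (nat_lit 1860) (nat_lit 2) .nil)))),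
   .der (nat_lit 152) (nat_lit 24),
   .der (nat_lit 7) (nat_lit 131),
   .prs (.two (nat_lit 206) (nat_lit 4) (nat_lit 1862) (nat_lit 8) (.two (nat_lit 0) (nat_lit 4) (nat_lit 1863) (nat_lit 1) (.one (nat_lit 1261) (nat_lit 1) .nil))),
   .der (nat_lit 137) (nat_lit 98),
   .der (nat_lit 1810) (nat_lit 748),
   .prs (.two (nat_lit 1068) (nat_lit 4) (nat_lit 352) (nat_lit 1) (.two (nat_lit 3) (nat_lit 1) (nat_lit 1865) (nat_lit 8) (.one (nat_lit 1866) (nat_lit 8) .nil))),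
   .der (nat_lit 10545) (nat_lit 21),
   .der (nat_lit 37425) (nat_lit 453),
   .prs (.two (nat_lit 556) (nat_lit 8) (nat_lit 30) (nat_lit 16) (.two (nat_lit 1) (nat_lit 8) (nat_lit 1868) (nat_lit 16) (.two (nat_lit 0) (nat_lit 1) (nat_lit 1869) (nat_lit 16) .nil))),
   .der (nat_lit 26386) (nat_lit 497),
   .prs (.two (nat_lit 4) (nat_lit 2) (nat_lit 359) (nat_lit 8) (.two (nat_lit 0) (nat_lit 2) (nat_lit 1871) (nat_lit 8) .nil)),
   .der (nat_lit 103) (nat_lit 627),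
   .prs (.two (nat_lit 2) (nat_lit 8) (nat_lit 410) (nat_lit 16) (.two (nat_lit 0) (nat_lit 1) (nat_lit 1873) (nat_lit 8) .nil)),
   .der (nat_lit 24916) (nat_lit 101),
   .prs (.two (nat_lit 482) (nat_lit 4) (nat_lit 742) (nat_lit 1) (.two (nat_lit 0) (nat_lit 2) (nat_lit 1875) (nat_lit 1) (.one (nat_lit 1267) (nat_lit 1) .nil))),
   .der (nat_lit 1380) (nat_lit 10),
   .der (nat_lit 66) (nat_lit 187),
   .der (nat_lit 33) (nat_lit 981),
   .prs (.two (nat_lit 937) (nat_lit 8) (nat_lit 1877) (nat_lit 4) (.two (nat_lit 214) (nat_lit 4) (nat_lit 1326) (nat_lit 8) (.two (nat_lit 3) (nat_lit 4) (nat_lit 1878) (nat_lit 8) (.one (nat_lit 1879) (nat_lit 16) .nil)))),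
   .der (nat_lit 1430) (nat_lit 131),
   .der (nat_lit 1890) (nat_lit 1230),
   .prs (.two (nat_lit 329) (nat_lit 16) (nat_lit 264) (nat_lit 2) (.two (nat_lit 1) (nat_lit 16) (nat_lit 1881) (nat_lit 2) (.one (nat_lit 1882) (nat_lit 2) .nil))),
   .der (nat_lit 145) (nat_lit 455),
   .prs (.two (nat_lit 34) (nat_lit 16) (nat_lit 582) (nat_lit 8) (.two (nat_lit 0) (nat_lit 2) (nat_lit 1884) (nat_lit 16) .nil)),
   .der (nat_lit 49) (nat_lit 15),
   .der (nat_lit 117) (nat_lit 84),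
   .der (nat_lit 3) (nat_lit 1131),
   .prs (.two (nat_lit 7) (nat_lit 16) (nat_lit 1886) (nat_lit 4) (.two (nat_lit 1) (nat_lit 4) (nat_lit 38) (nat_lit 16) (.two (nat_lit 0) (nat_lit 1) (nat_lit 1887) (nat_lit 4) (.one (nat_lit 1888) (nat_lit 16) .nil)))),
   .der (nat_lit 2323) (nat_lit 223),
   .prs (.two (nat_lit 195) (nat_lit 2) (nat_lit 637) (nat_lit 4) (.two (nat_lit 16) (nat_lit 2) (nat_lit 1890) (nat_lit 4) (.one (nat_lit 1271) (nat_lit 4) .nil))),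
   .der (nat_lit 10545) (nat_lit 27),
   .der (nat_lit 1300) (nat_lit 675),
   .prs (.two (nat_lit 7) (nat_lit 16) (nat_lit 918) (nat_lit 8) (.two (nat_lit 3) (nat_lit 8) (nat_lit 1892) (nat_lit 16) (.two (nat_lit 0) (nat_lit 4) (nat_lit 1893) (nat_lit 8) .nil))),
   .prs (.two (nat_lit 556) (nat_lit 4) (nat_lit 6) (nat_lit 16) (.two (nat_lit 1) (nat_lit 2) (nat_lit 1751) (nat_lit 16) (.one (nat_lit 1274) (nat_lit 16) .nil))),
   .der (nat_lit 86) (nat_lit 646),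
   .prs (.two (nat_lit 2) (nat_lit 4) (nat_lit 147) (nat_lit 2) (.two (nat_lit 16) (nat_lit 2) (nat_lit 21) (nat_lit 4) (.two (nat_lit 0) (nat_lit 2) (nat_lit 753) (nat_lit 4) (.one (nat_lit 1896) (nat_lit 2) .nil)))),
   .der (nat_lit 561) (nat_lit 247),
   .der (nat_lit 5) (nat_lit 1237),
   .prs (.two (nat_lit 75) (nat_lit 16) (nat_lit 673) (nat_lit 1) (.two (nat_lit 1) (nat_lit 16) (nat_lit 1898) (nat_lit 1) (.one (nat_lit 1899) (nat_lit 1) .nil))),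
   .der (nat_lit 833) (nat_lit 651),
   .prs (.two (nat_lit 1068) (nat_lit 4) (nat_lit 998) (nat_lit 1) (.two (nat_lit 1) (nat_lit 16) (nat_lit 145) (nat_lit 4) (.two (nat_lit 0) (nat_lit 16) (nat_lit 1901) (nat_lit 4) .nil))),
   .der (nat_lit 5716) (nat_lit 59),
   .prs (.two (nat_lit 248) (nat_lit 8) (nat_lit 1105) (nat_lit 2) (.two (nat_lit 0) (nat_lit 8) (nat_lit 1903) (nat_lit 2) (.one (nat_lit 757) (nat_lit 2) .nil))),
   .der (nat_lit 12658) (nat_lit 98),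
   .der (nat_lit 135) (nat_lit 465),
   .prs (.two (nat_lit 452) (nat_lit 8) (nat_lit 80) (nat_lit 16) (.two (nat_lit 0) (nat_lit 8) (nat_lit 1905) (nat_lit 16) (.one (nat_lit 1906) (nat_lit 16) .nil))),
   .der (nat_lit 37425) (nat_lit 39),
   .prs (.two (nat_lit 684) (nat_lit 2) (nat_lit 1908) (nat_lit 4) (.one (nat_lit 1168) (nat_lit 4) .nil)),
   .der (nat_lit 644) (nat_lit 113),
   .prs (.two (nat_lit 34) (nat_lit 2) (nat_lit 124) (nat_lit 1) (.two (nat_lit 1) (nat_lit 8) (nat_lit 1910) (nat_lit 1) (.one (nat_lit 1280) (nat_lit 1) .nil))),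
   .der (nat_lit 1074) (nat_lit 29),
   .der (nat_lit 370) (nat_lit 35),
   .prs (.two (nat_lit 4) (nat_lit 16) (nat_lit 1912) (nat_lit 1) (.two (nat_lit 0) (nat_lit 16) (nat_lit 1913) (nat_lit 1) (.one (nat_lit 760) (nat_lit 1) .nil))),
   .der (nat_lit 1653) (nat_lit 211),
   .der (nat_lit 22548) (nat_lit 726),
   .prs (.two (nat_lit 434) (nat_lit 2) (nat_lit 1331) (nat_lit 4) (.two (nat_lit 0) (nat_lit 2) (nat_lit 1915) (nat_lit 4) (.one (nat_lit 1916) (nat_lit 4) .nil))),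
   .der (nat_lit 117) (nat_lit 508),
   .prs (.two (nat_lit 1214) (nat_lit 1) (nat_lit 86) (nat_lit 4) (.two (nat_lit 0) (nat_lit 1) (nat_lit 935) (nat_lit 4) (.one (nat_lit 1918) (nat_lit 4) .nil))),
   .der (nat_lit 9587) (nat_lit 98),
   .der (nat_lit 114) (nat_lit 508),
   .prs (.two (nat_lit 383) (nat_lit 4) (nat_lit 410) (nat_lit 16) (.two (nat_lit 0) (nat_lit 4) (nat_lit 1920) (nat_lit 16) (.one (nat_lit 1921) (nat_lit 16) .nil))),
   .der (nat_lit 84) (nat_lit 151),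
   .prs (.two (nat_lit 17) (nat_lit 4) (nat_lit 1573) (nat_lit 16) (.two (nat_lit 1) (nat_lit 4) (nat_lit 1923) (nat_lit 16) (.two (nat_lit 0) (nat_lit 1) (nat_lit 763) (nat_lit 4) (.one (nat_lit 1284) (nat_lit 4) .nil)))),
   .der (nat_lit 165) (nat_lit 35),
   .prs (.two (nat_lit 224) (nat_lit 8) (nat_lit 1048) (nat_lit 1) (.two (nat_lit 46) (nat_lit 1) (nat_lit 1925) (nat_lit 8) (.one (nat_lit 765) (nat_lit 8) .nil))),
   .der (nat_lit 1107) (nat_lit 485),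
   .prs (.two (nat_lit 684) (nat_lit 2) (nat_lit 94) (nat_lit 16) (.two (nat_lit 0) (nat_lit 2) (nat_lit 1748) (nat_lit 16) (.one (nat_lit 1927) (nat_lit 16) .nil))),
   .der (nat_lit 150) (nat_lit 52),
   .der (nat_lit 644) (nat_lit 84),
   .der (nat_lit 5218) (nat_lit 497),
   .prs (.two (nat_lit 202) (nat_lit 4) (nat_lit 1929) (nat_lit 1) (.two (nat_lit 0) (nat_lit 4) (nat_lit 1930) (nat_lit 1) (.one (nat_lit 1931) (nat_lit 1) .nil))),
   .der (nat_lit 150) (nat_lit 700),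
   .prs (.two (nat_lit 2) (nat_lit 4) (nat_lit 147) (nat_lit 2) (.two (nat_lit 16) (nat_lit 2) (nat_lit 21) (nat_lit 4) (.two (nat_lit 0) (nat_lit 2) (nat_lit 769) (nat_lit 4) (.one (nat_lit 1933) (nat_lit 2) .nil)))),
   .der (nat_lit 65) (nat_lit 722),
   .prs (.two (nat_lit 96) (nat_lit 4) (nat_lit 1326) (nat_lit 8) (.two (nat_lit 0) (nat_lit 1) (nat_lit 1935) (nat_lit 16) .nil)),
   .der (nat_lit 659) (nat_lit 223),
   .prs (.two (nat_lit 25) (nat_lit 2) (nat_lit 742) (nat_lit 1) (.one (nat_lit 1937) (nat_lit 1) .nil)),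
   .der (nat_lit 370) (nat_lit 192),
   .prs (.two (nat_lit 224) (nat_lit 8) (nat_lit 390) (nat_lit 2) (.two (nat_lit 0) (nat_lit 8) (nat_lit 1939) (nat_lit 2) .nil)),
   .der (nat_lit 9) (nat_lit 84),
   .der (nat_lit 22548) (nat_lit 1123),
   .prs (.two (nat_lit 4) (nat_lit 2) (nat_lit 12) (nat_lit 16) (.two (nat_lit 1) (nat_lit 2) (nat_lit 629) (nat_lit 16) (.two (nat_lit 0) (nat_lit 1) (nat_lit 1941) (nat_lit 2) (.one (nat_lit 1942) (nat_lit 16) .nil)))),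
   .der (nat_lit 2) (nat_lit 10),
   .prs (.two (nat_lit 34) (nat_lit 2) (nat_lit 1944) (nat_lit 8) (.two (nat_lit 1) (nat_lit 8) (nat_lit 220) (nat_lit 4) (.one (nat_lit 1291) (nat_lit 2) .nil))),
   .der (nat_lit 2323) (nat_lit 10),
   .der (nat_lit 137) (nat_lit 106),
   .der (nat_lit 98) (nat_lit 722),
   .prs (.two (nat_lit 434) (nat_lit 2) (nat_lit 1946) (nat_lit 1) (.two (nat_lit 1) (nat_lit 8) (nat_lit 1554) (nat_lit 2) (.two (nat_lit 0) (nat_lit 2) (nat_lit 1947) (nat_lit 1) (.one (nat_lit 1948) (nat_lit 8) .nil)))),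
   .der (nat_lit 26386) (nat_lit 8),
   .der (nat_lit 165) (nat_lit 95),
   .prs (.two (nat_lit 384) (nat_lit 8) (nat_lit 482) (nat_lit 1) (.two (nat_lit 1) (nat_lit 2) (nat_lit 1950) (nat_lit 8) (.two (nat_lit 0) (nat_lit 1) (nat_lit 1951) (nat_lit 8) .nil))),
   .der (nat_lit 1) (nat_lit 24),
   .prs (.two (nat_lit 383) (nat_lit 16) (nat_lit 1953) (nat_lit 4) (.two (nat_lit 0) (nat_lit 4) (nat_lit 1270) (nat_lit 2) (.one (nat_lit 1293) (nat_lit 2) .nil))),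
   .der (nat_lit 87) (nat_lit 19),
   .der (nat_lit 87) (nat_lit 59),
   .prs (.two (nat_lit 17) (nat_lit 2) (nat_lit 1955) (nat_lit 4) (.one (nat_lit 1956) (nat_lit 4) .nil)),
   .der (nat_lit 7) (nat_lit 133),
   .der (nat_lit 10305) (nat_lit 220),
   .prs (.two (nat_lit 75) (nat_lit 16) (nat_lit 684) (nat_lit 2) (.two (nat_lit 1) (nat_lit 2) (nat_lit 1958) (nat_lit 16) (.one (nat_lit 1959) (nat_lit 2) .nil))),
   .der (nat_lit 33345) (nat_lit 213),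
   .prs (.two (nat_lit 173) (nat_lit 4) (nat_lit 122) (nat_lit 8) (.one (nat_lit 1961) (nat_lit 8) .nil)),
   .der (nat_lit 1620) (nat_lit 143),
   .der (nat_lit 161) (nat_lit 220),
   .prs (.two (nat_lit 96) (nat_lit 2) (nat_lit 338) (nat_lit 1) (.two (nat_lit 1) (nat_lit 2) (nat_lit 1963) (nat_lit 1) (.one (nat_lit 1964) (nat_lit 2) .nil))),
   .der (nat_lit 145) (nat_lit 271),
   .prs (.two (nat_lit 202) (nat_lit 16) (nat_lit 145) (nat_lit 4) (.one (nat_lit 1966) (nat_lit 4) .nil)),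
   .der (nat_lit 370) (nat_lit 106),
   .prs (.two (nat_lit 34) (nat_lit 8) (nat_lit 443) (nat_lit 2) (.two (nat_lit 16) (nat_lit 2) (nat_lit 1322) (nat_lit 8) (.one (nat_lit 1968) (nat_lit 8) .nil))),
   .der (nat_lit 2593) (nat_lit 39),
   .prs (.two (nat_lit 2) (nat_lit 8) (nat_lit 383) (nat_lit 16) (.two (nat_lit 1) (nat_lit 16) (nat_lit 1970) (nat_lit 8) .nil)),
   .der (nat_lit 152) (nat_lit 37),
   .prs (.two (nat_lit 2) (nat_lit 4) (nat_lit 679) (nat_lit 16) (.two (nat_lit 1) (nat_lit 16) (nat_lit 1972) (nat_lit 4) .nil)),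
   .der (nat_lit 67) (nat_lit 10),
   .der (nat_lit 8) (nat_lit 131),
   .prs (.two (nat_lit 78) (nat_lit 4) (nat_lit 1974) (nat_lit 1) (.two (nat_lit 0) (nat_lit 16) (nat_lit 1975) (nat_lit 1) .nil)),
   .prs (.two (nat_lit 356) (nat_lit 16) (nat_lit 195) (nat_lit 1) (.two (nat_lit 11) (nat_lit 1) (nat_lit 1091) (nat_lit 16) .nil)),
   .der (nat_lit 30226) (nat_lit 59),
   .prs (.two (nat_lit 34) (nat_lit 2) (nat_lit 325) (nat_lit 8) (.two (nat_lit 1) (nat_lit 8) (nat_lit 1978) (nat_lit 2) .nil)),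
   .der (nat_lit 100) (nat_lit 296),
   .prs (.two (nat_lit 329) (nat_lit 16) (nat_lit 439) (nat_lit 2) (.two (nat_lit 1) (nat_lit 2) (nat_lit 638) (nat_lit 16) (.one (nat_lit 1980) (nat_lit 2) .nil))),
   .der (nat_lit 24916) (nat_lit 305),
   .prs (.two (nat_lit 356) (nat_lit 16) (nat_lit 338) (nat_lit 1) (.two (nat_lit 11) (nat_lit 1) (nat_lit 410) (nat_lit 16) (.one (nat_lit 1982) (nat_lit 16) .nil))),
   .der (nat_lit 9572) (nat_lit 4),
   .prs (.two (nat_lit 482) (nat_lit 8) (nat_lit 1984) (nat_lit 4) (.two (nat_lit 3) (nat_lit 4) (nat_lit 522) (nat_lit 8) (.one (nat_lit 784) (nat_lit 8) .nil))),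
   .der (nat_lit 644) (nat_lit 294),
   .prs (.two (nat_lit 224) (nat_lit 8) (nat_lit 178) (nat_lit 1) (.two (nat_lit 3) (nat_lit 1) (nat_lit 1986) (nat_lit 8) .nil)),
   .der (nat_lit 49) (nat_lit 21),
   .der (nat_lit 1620) (nat_lit 653),
   .prs (.two (nat_lit 173) (nat_lit 16) (nat_lit 248) (nat_lit 1) (.two (nat_lit 3) (nat_lit 1) (nat_lit 1988) (nat_lit 16) (.one (nat_lit 1989) (nat_lit 16) .nil))),
   .der (nat_lit 67) (nat_lit 319),
   .prs (.two (nat_lit 519) (nat_lit 4) (nat_lit 444) (nat_lit 2) (.one (nat_lit 1991) (nat_lit 2) .nil)),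
   .der (nat_lit 87) (nat_lit 320),
   .prs (.two (nat_lit 7) (nat_lit 16) (nat_lit 214) (nat_lit 1) (.two (nat_lit 3) (nat_lit 1) (nat_lit 69) (nat_lit 16) (.one (nat_lit 1993) (nat_lit 16) .nil))),
   .der (nat_lit 1415) (nat_lit 320),
   .prs (.two (nat_lit 356) (nat_lit 16) (nat_lit 338) (nat_lit 1) (.two (nat_lit 11) (nat_lit 1) (nat_lit 410) (nat_lit 16) (.one (nat_lit 1995) (nat_lit 16) .nil))),
   .der (nat_lit 145) (nat_lit 213),
   .prs (.two (nat_lit 206) (nat_lit 4) (nat_lit 1024) (nat_lit 8) (.two (nat_lit 11) (nat_lit 8) (nat_lit 462) (nat_lit 4) (.one (nat_lit 1997) (nat_lit 4) .nil))),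
   .der (nat_lit 13345) (nat_lit 106)]

theorem b5_step3 (h : ∀ j < 1500, Good b5T j) : ∀ j < 2000, Good b5T j := by
  intro j hj
  refine chkL_ok b5C3 1500 h (by decide +kernel) j ?_
  have h : b5C3.length = 500 := by decide +kernel
  omega


end Tab

end Pool.Agent.Work.MP_bf01b2_co.MR
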