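import Pool.Agent.Work.MP_bf01b2_co.MR.Mask

/-!
# Marks recursion: hard facts of `Q_5` for all size vectors, up to automorphisms
-/

set_option autoImplicit false

namespace Pool.Agent.Work.MP_bf01b2_co.MR

/-- the positions of a 32 bit mask -/
def pos32 (S : ℕ) : Finset ℕ := (Finset.range 32).filter (fun z => S.testBit z = true)

theorem mem_pos32 {S : ℕ} (hS : S < 2 ^ 32) {z : ℕ} : z ∈ pos32 S ↔ S.testBit z = true := by
  unfold pos32
  rw [Finset.mem_filter, Finset.mem_range]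
  constructor
  · exact fun h => h.2
  · intro h
    refine ⟨?_, h⟩
    by_contra hc
    push Not at hc
    rw [testBit_ge hS hc] at h
    simp at h

/-- `CM S N`: all forests with roots at the positions of the mask `S` and total size at most `N`
embed in `Q_5` -/
def CM (S N : ℕ) : Prop := ∀ k : ℕ → ℕ, (∑ z ∈ pos32 S, (k z + 1)) ≤ N →
  ∀ ms : List (Mk ℕ), (∀ m, m ∈ ms ↔ S.testBit m.p = true ∧ m = ⟨m.p, k m.p, 0⟩) →
    NF 5 0xFFFFFFFF 0 ms

theorem CM.equiv {S S' N : ℕ} (hS : S < 2 ^ 32) (hS' : S' < 2 ^ 32) (e : ℕ ≃ ℕ)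
    (he : ∀ v, S'.testBit (e v) = S.testBit v)
    (hN : ∀ ms : List (Mk ℕ), NF 5 0xFFFFFFFF 0 ms → NF 5 0xFFFFFFFF 0 (ms.map (Mk.map e)))
    (h : CM S N) : CM S' N := by
  intro k hk ms hms
  have hsum : (∑ z ∈ pos32 S, (k (e z) + 1)) = ∑ z ∈ pos32 S', (k z + 1) := by
    refine Finset.sum_bij' (fun z _ => e z) (fun z _ => e.symm z) ?_ ?_ ?_ ?_ ?_
    · intro a ha
      rw [mem_pos32 hS'] 
      rw [mem_pos32 hS] at ha
      rw [he]; exact ha
    · intro a ha
      rw [mem_pos32 hS] 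
      rw [mem_pos32 hS'] at ha
      rw [← he, e.apply_symm_apply]; exact ha
    · intro a _; exact e.symm_apply_apply a
    · intro a _; exact e.apply_symm_apply a
    · intro a _; rfl
  have h1 := h (fun z => k (e z)) (by rw [hsum]; exact hk) (ms.map (Mk.map e.symm)) (by
    intro m
    constructor
    · intro hm
      obtain ⟨m', hm', rfl⟩ := List.mem_map.mp hm
      obtain ⟨h2, h3⟩ := (hms m').mp hm'
      have e1 : (Mk.map e.symm m').p = e.symm m'.p := rfl
      rw [e1, ← he, e.apply_symm_apply]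
      refine ⟨h2, ?_⟩
      have h4 : m'.k = k m'.p := congrArg Mk.k h3
      have h5 : m'.s = 0 := congrArg Mk.s h3
      show (⟨e.symm m'.p, m'.k, m'.s⟩ : Mk ℕ) = ⟨e.symm m'.p, _, 0⟩
      rw [h4, h5]
    · rintro ⟨h2, h3⟩
      refine List.mem_map.mpr ⟨⟨e m.p, k (e m.p), 0⟩, (hms _).mpr ⟨?_, rfl⟩, ?_⟩
      · show S'.testBit (e m.p) = true
        rw [he]; exact h2
      · rw [h3]
        show (⟨e.symm (e m.p), _, 0⟩ : Mk ℕ) = _
        rw [e.symm_apply_apply])
  have h2 := hN _ h1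
  rw [List.map_map] at h2
  have h3 : ms.map (Mk.map e ∘ Mk.map e.symm) = ms := by
    conv_rhs => rw [← List.map_id ms]
    refine List.map_congr_left fun m _ => ?_
    show (⟨e (e.symm m.p), m.k, m.s⟩ : Mk ℕ) = m
    rw [e.apply_symm_apply]
  rwa [h3] at h2

theorem flipM_lt {i X : ℕ} (hi : i < 5) (hX : X < 2 ^ 32) : flipM i X < 2 ^ 32 := by
  apply Nat.lt_pow_two_of_testBit
  intro v hv
  have h1 := testBit_flipM hi hX (flipV i v)
  rw [flipV_flipV] at h1
  rw [h1]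
  exact testBit_ge hX (flipV_ge hi hv)

theorem swapM_lt {i j X : ℕ} (hij : i < j) (hj : j < 5) (hX : X < 2 ^ 32) :
    swapM i j X < 2 ^ 32 := by
  apply Nat.lt_pow_two_of_testBit
  intro v hv
  have h1 := testBit_swapM hij hj hX (swapV i j v)
  rw [swapV_swapV] at h1
  rw [h1]
  exact testBit_ge hX (swapV_ge (lt_trans hij hj) hj hv)

theorem CM.flip {S N i : ℕ} (hi : i < 5) (hS : S < 2 ^ 32) (h : CM S N) : CM (flipM i S) N := by
  refine CM.equiv hS (flipM_lt hi hS) (flipE i) (testBit_flipM hi hS) ?_ h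
  intro ms hms
  have h1 := NF.flip hi (by norm_num) (by norm_num) hms
  have h2 : flipM i 0xFFFFFFFF = 0xFFFFFFFF := by
    have : ∀ i < 5, flipM i 0xFFFFFFFF = 0xFFFFFFFF := by decide +kernel
    exact this i hi
  have h3 : flipM i 0 = 0 := by
    have : ∀ i < 5, flipM i 0 = 0 := by decide +kernel
    exact this i hi
  rw [h2, h3] at h1
  exact h1

theorem CM.swap {S N i j : ℕ} (hij : i < j) (hj : j < 5) (hS : S < 2 ^ 32) (h : CM S N) :
    CM (swapM i j S) N := by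
  refine CM.equiv hS (swapM_lt hij hj hS) (swapE i j) (testBit_swapM hij hj hS) ?_ h
  intro ms hms
  have h1 := NF.swap hij hj (by norm_num) (by norm_num) hms
  have h2 : swapM i j 0xFFFFFFFF = 0xFFFFFFFF := by
    have : ∀ j < 5, ∀ i < j, swapM i j 0xFFFFFFFF = 0xFFFFFFFF := by decide +kernel
    exact this j hj i hij
  have h3 : swapM i j 0 = 0 := by
    have : ∀ j < 5, ∀ i < j, swapM i j 0 = 0 := by decide +kernel
    exact this j hj i hij
  rw [h2, h3] at h1
  exact h1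

/-- from lists of positions to masks -/
theorem CM.of_list {S N : ℕ} (zs : List ℕ) (hnd : zs.Nodup)
    (hS : ∀ z, z ∈ zs ↔ S.testBit z = true) (hS' : S < 2 ^ 32)
    (h : ∀ k : ℕ → ℕ, (zs.map fun z => k z + 1).sum ≤ N →
      NF 5 0xFFFFFFFF 0 (zs.map fun z => (⟨z, k z, 0⟩ : Mk ℕ))) : CM S N := by
  intro k hk ms hms
  have h1 : (zs.map fun z => k z + 1).sum = ∑ z ∈ pos32 S, (k z + 1) := by
    rw [← List.sum_toFinset _ hnd]
    apply Finset.sum_congr _ (fun _ _ => rfl)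
    ext z
    rw [List.mem_toFinset, mem_pos32 hS', hS]
  refine NF.congr ?_ (h k (by rw [h1]; exact hk))
  intro m
  rw [hms, List.mem_map]
  constructor
  · rintro ⟨z, hz, rfl⟩
    exact ⟨(hS z).mp hz, rfl⟩
  · rintro ⟨h2, h3⟩
    exact ⟨m.p, (hS _).mpr h2, h3.symm⟩

/-- back to lists of positions -/
theorem CM.to_list {S N : ℕ} (h : CM S N) (zs : List ℕ) (hnd : zs.Nodup)
    (hS : ∀ z, z ∈ zs ↔ S.testBit z = true) (hS' : S < 2 ^ 32) (k : ℕ → ℕ)
    (hk : (zs.map fun z => k z + 1).sum ≤ N) :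
      NF 5 0xFFFFFFFF 0 (zs.map fun z => (⟨z, k z, 0⟩ : Mk ℕ)) := by
  have h1 : (zs.map fun z => k z + 1).sum = ∑ z ∈ pos32 S, (k z + 1) := by
    rw [← List.sum_toFinset _ hnd]
    apply Finset.sum_congr _ (fun _ _ => rfl)
    ext z
    rw [List.mem_toFinset, mem_pos32 hS', hS]
  refine h k (by rw [← h1]; exact hk) _ ?_
  intro m
  rw [List.mem_map]
  constructor
  · rintro ⟨z, hz, rfl⟩
    exact ⟨(hS z).mp hz, rfl⟩
  · rintro ⟨h2, h3⟩
    exact ⟨m.p, (hS _).mpr h2, h3.symm⟩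

end Pool.Agent.Work.MP_bf01b2_co.MR
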