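import Pool.Agent.Work.MP_bf01b2_co.MR.B5Tab
import Pool.Agent.Work.MP_bf01b2_co.MR.B5Cls

/-!
# Kernel checker for facts about several roots on `Q_5`

Covers, expansions and chains of covers over all size vectors.
-/

set_option autoImplicit false

namespace Pool.Agent.Work.MP_bf01b2_co.MR

namespace Tab

/-- conjunction, lazy in the second argument -/
@[reducible] def cj (a b : Bool) : Bool := Bool.rec (motive := fun _ => Bool) false b a

theorem cj_iff {a b : Bool} : cj a b = true ↔ a = true ∧ b = true := by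
  cases a <;> simp [cj]

/-- the marks at the positions `zs` -/
def mkL (k : ℕ → ℕ) (zs : List ℕ) : List (Mk ℕ) := zs.map fun z => ⟨z, k z, 0⟩

/-- the sizes `k z + 1` are at most `ns` -/
def CapsL (k : ℕ → ℕ) : List ℕ → List ℕ → Prop
  | [], _ => True
  | _ :: _, [] => False
  | z :: zs, n :: ns => k z + 1 ≤ n ∧ CapsL k zs ns

/-- facts with bounds for the sizes -/
def GF (X : ℕ) (zs ns : List ℕ) : Prop := ∀ k : ℕ → ℕ, CapsL k zs ns → NF 5 X 0 (mkL k zs)

theorem mem_mkL {k : ℕ → ℕ} {zs : List ℕ} {m : Mk ℕ} :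
    m ∈ mkL k zs ↔ m.p ∈ zs ∧ m = ⟨m.p, k m.p, 0⟩ := by
  unfold mkL
  rw [List.mem_map]
  constructor
  · rintro ⟨z, hz, rfl⟩
    exact ⟨hz, rfl⟩
  · rintro ⟨h1, h2⟩
    exact ⟨m.p, h1, h2.symm⟩

theorem GF_nil (X : ℕ) (ns : List ℕ) : GF X [] ns := by
  intro k _ τ _
  exact ⟨fun _ => ∅, fun _ => [], by simp [mkL], by simp [mkL]⟩

/-- one more region -/
theorem GF_cons {X Y z n c : ℕ} {zs ns : List ℕ} (hY : NF 5 Y 0 [⟨z, c - 1, 0⟩]) (hn : n ≤ c)
    (hX : X &&& Y = Y) (h : GF (X ^^^ Y) zs ns) : GF X (z :: zs) (n :: ns) := by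
  intro k hk
  obtain ⟨hk1, hk2⟩ := hk
  have h1 := h k hk2
  refine NF.cover (refs := [⟨Y, 0, [⟨z, c - 1, 0⟩]⟩, ⟨X ^^^ Y, 0, mkL k zs⟩]) ?_ ?_ ?_
  · intro r hr
    simp only [List.mem_cons, List.not_mem_nil, or_false] at hr
    rcases hr with rfl | rfl
    · exact hY
    · exact h1
  · simp [coverB, hX]
  · rw [List.all_eq_true]
    intro x hx
    obtain ⟨hx1, hx2⟩ := mem_mkL.mp hx
    unfold servedB
    rw [List.any_eq_true]
    rcases List.mem_cons.mp hx1 with hz | hz
    · refine ⟨_, List.mem_cons_self, ?_⟩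
      rw [hx2, hz]
      have : k z ≤ c - 1 := by omega
      simp [Mk.domB, this]
    · refine ⟨_, List.mem_cons_of_mem _ List.mem_cons_self, ?_⟩
      rw [Bool.and_eq_true, List.any_eq_true, List.all_eq_true]
      refine ⟨⟨x, mem_mkL.mpr ⟨hz, hx2⟩, by simp⟩, ?_⟩
      intro y hy
      obtain ⟨hy1, hy2⟩ := mem_mkL.mp hy
      by_cases hxy : y.p = x.p
      · rw [hx2, hy2, hxy]
        simp [Mk.domB]
      · simp [hxy]

/-- check of a cover: `D` contains the indices of the regions, 16 bits each -/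
noncomputable def cvr (T M : ℕ) (zs : List ℕ) : List ℕ → ℕ → ℕ → Bool :=
  List.rec (motive := fun _ => List ℕ → ℕ → ℕ → Bool) (fun _ _ _ => true)
    (fun z _ ih ns D X => List.rec (motive := fun _ => Bool) false
      (fun n ns' _ =>
        cj (Nat.ble (Nat.succ (Nat.land D 65535)) M)
          (cj (Nat.ble n (tn T (Nat.land D 65535)))
            (cj (Nat.beq (Nat.land X (tr z (tX T (Nat.land D 65535))))
              (tr z (tX T (Nat.land D 65535))))
              (ih ns' (Nat.shiftRight D 16) (Nat.xor X (tr z (tX T (Nat.land D 65535)))))))) ns)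
    zs

theorem cvr_ok {T M : ℕ} (hT : ∀ i < M, Good T i) : ∀ (zs ns : List ℕ) (D X : ℕ),
    (∀ z ∈ zs, z < 32) → cvr T M zs ns D X = true → GF X zs ns
  | [], ns, _, X, _, _ => GF_nil X ns
  | z :: zs, [], _, X, _, h => by
    have h' : false = true := h
    exact absurd h' (by simp)
  | z :: zs, n :: ns, D, X, hz, h => by
    have h' : cj (Nat.ble (Nat.succ (Nat.land D 65535)) M)
          (cj (Nat.ble n (tn T (Nat.land D 65535)))
            (cj (Nat.beq (Nat.land X (tr z (tX T (Nat.land D 65535))))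
              (tr z (tX T (Nat.land D 65535))))
              (cvr T M zs ns (Nat.shiftRight D 16)
                (Nat.xor X (tr z (tX T (Nat.land D 65535))))))) = true := h
    rw [cj_iff, cj_iff, cj_iff] at h'
    obtain ⟨a1, a2, a3, a4⟩ := h'
    have b1 := lt_of_succ_ble a1
    have b2 : n ≤ tn T (Nat.land D 65535) := Nat.le_of_ble_eq_true a2
    have b3 : X &&& tr z (tX T (Nat.land D 65535)) = tr z (tX T (Nat.land D 65535)) :=
      Nat.eq_of_beq_eq_true a3
    have ih := cvr_ok hT zs ns _ _ (fun z' hz' => hz z' (List.mem_cons_of_mem _ hz')) a4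
    exact GF_cons (tr_ok (hz z List.mem_cons_self) (tX_lt T _) (hT _ b1)).2 b2 b3 ih

/-! ### Expansions -/

/-- certificates with expansions -/
inductive Ct : Type
  /-- cover -/
  | cov (D : ℕ) : Ct
  /-- no more branches -/
  | fin : Ct
  /-- last branch: only one child, in direction `i` -/
  | one (i : ℕ) (c : Ct) : Ct
  /-- branch: children in the directions `i` and `j` with at most `A` and `B` vertices -/
  | two (i j A B : ℕ) (c rest : Ct) : Ct
  /-- expansion of the mark number `m` -/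
  | exp (m : ℕ) (brs : Ct) : Ct

/-- is it a certificate of a fact (not of branches) -/
def Ct.isF : Ct → Bool
  | .cov _ => true
  | .exp _ _ => true
  | _ => false

/-- the check. `p`, `k`, `t` are only used for branches: the position of the root, the number of
the other vertices, the number of the open splits. -/
noncomputable def ck (T M : ℕ) : Ct → ℕ → List ℕ → List ℕ → ℕ → ℕ → ℕ → Bool
  | .cov D, X, zs, ns, _, _, _ => cvr T M zs ns D X
  | .exp m brs, X, zs, ns, _, _, _ =>
    decide (m < zs.length) && decide (m < ns.length) && decide (2 ≤ ns.getD m 0) &&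
      X.testBit (zs.getD m 0) && (zs.eraseIdx m).all (fun z => !(z == zs.getD m 0)) &&
      !brs.isF && ck T M brs (X ^^^ 2 ^ (zs.getD m 0)) (zs.eraseIdx m) (ns.eraseIdx m) (zs.getD m 0)
        (ns.getD m 0 - 1) ((ns.getD m 0 - 1) / 2 + 1)
  | .fin, _, _, _, _, _, t => t == 0
  | .one i c, X, zs, ns, p, k, t =>
    decide (t ≤ 1) && decide (i < 5) && zs.all (fun z => !(z == p ^^^ 2 ^ i)) && c.isF &&
      ck T M c X ((p ^^^ 2 ^ i) :: zs) (k :: ns) 0 0 0
  | .two i j A B c rest, X, zs, ns, p, k, t =>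
    decide (t ≤ B + 1) && decide (i < 5) && decide (j < 5) && !(i == j) &&
      zs.all (fun z => !(z == p ^^^ 2 ^ i)) && zs.all (fun z => !(z == p ^^^ 2 ^ j)) &&
      c.isF && !rest.isF && decide (1 ≤ B) && ck T M c X ((p ^^^ 2 ^ i) :: (p ^^^ 2 ^ j) :: zs) (A :: B :: ns) 0 0 0 &&
      ck T M rest X zs ns p k (k - A)

/-- what is proved for the split `b` -/
def SrvG (X : ℕ) (zs ns : List ℕ) (p k b : ℕ) : Prop :=
  (b = 0 → 1 ≤ k → ∃ i, i < 5 ∧ (∀ z ∈ zs, z ≠ p ^^^ 2 ^ i) ∧
    GF X ((p ^^^ 2 ^ i) :: zs) (k :: ns)) ∧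
  (1 ≤ b → b < k → ∃ i j, i < 5 ∧ j < 5 ∧ i ≠ j ∧ (∀ z ∈ zs, z ≠ p ^^^ 2 ^ i ∧ z ≠ p ^^^ 2 ^ j) ∧
    GF X ((p ^^^ 2 ^ i) :: (p ^^^ 2 ^ j) :: zs) ((k - b) :: b :: ns))

theorem CapsL.mono {k : ℕ → ℕ} : ∀ {zs ns : List ℕ}, CapsL k zs ns → ∀ {k' : ℕ → ℕ},
    (∀ z ∈ zs, k' z ≤ k z) → CapsL k' zs ns
  | [], _, _, _, _ => trivial
  | _ :: _, [], h, _, _ => h.elim
  | z :: zs, n :: ns, h, _, hk =>
    ⟨by have := h.1; have := hk z List.mem_cons_self; omega,
      CapsL.mono h.2 fun z' hz' => hk z' (List.mem_cons_of_mem _ hz')⟩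

theorem xor_two_pow_lt {p i : ℕ} (hp : p < 32) (hi : i < 5) : p ^^^ 2 ^ i < 32 :=
  Nat.xor_lt_two_pow (n := 5) hp (Nat.pow_lt_pow_right (by norm_num) hi)

theorem GF_drop {X x y A B : ℕ} {zs ns : List ℕ} (hxy : x ≠ y) (hy : ∀ z ∈ zs, z ≠ y) (hB : 1 ≤ B)
    (h : GF X (x :: y :: zs) (A :: B :: ns)) : GF X (x :: zs) (A :: ns) := by
  intro k hk
  have h1 := h (Function.update k y 0) (by
    refine ⟨?_, ?_, ?_⟩
    · rw [Function.update_of_ne hxy]; exact hk.1
    · rw [Function.update_self]; omega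
    · refine CapsL.mono hk.2 fun z hz => ?_
      rw [Function.update_of_ne (hy z hz)])
  refine NF.cover (refs := [⟨X, 0, mkL (Function.update k y 0) (x :: y :: zs)⟩]) ?_ ?_ ?_
  · intro r hr
    simp only [List.mem_cons, List.not_mem_nil, or_false] at hr
    rw [hr]; exact h1
  · simp [coverB]
  · rw [List.all_eq_true]
    intro m hm
    obtain ⟨hm1, hm2⟩ := mem_mkL.mp hm
    unfold servedB
    rw [List.any_eq_true]
    refine ⟨_, List.mem_cons_self, ?_⟩
    have hmy : m.p ≠ y := by
      rcases List.mem_cons.mp hm1 with h2 | h2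
      · rw [h2]; exact hxy
      · exact hy _ h2
    rw [Bool.and_eq_true, List.any_eq_true, List.all_eq_true]
    refine ⟨⟨m, mem_mkL.mpr ⟨?_, ?_⟩, by simp⟩, ?_⟩
    · rcases List.mem_cons.mp hm1 with h2 | h2
      · rw [h2]; exact List.mem_cons_self
      · exact List.mem_cons_of_mem _ (List.mem_cons_of_mem _ h2)
    · rw [Function.update_of_ne hmy]; exact hm2
    · intro m' hm'
      obtain ⟨hm1', hm2'⟩ := mem_mkL.mp hm'
      by_cases he : m'.p = m.p
      · rw [he, Function.update_of_ne hmy] at hm2'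
        rw [hm2, hm2']
        simp [Mk.domB]
      · simp [he]

theorem GF.le {X : ℕ} {zs ns ns' : List ℕ} (h : GF X zs ns)
    (hn : ∀ k : ℕ → ℕ, CapsL k zs ns' → CapsL k zs ns) : GF X zs ns' :=
  fun k hk => h k (hn k hk)

/-- expansion of a mark -/
theorem GF_expand {X p n : ℕ} {zs ns : List ℕ} (hn : 2 ≤ n) (hp : X.testBit p = true)
    (hpz : ∀ z ∈ zs, z ≠ p)
    (h : ∀ b, 2 * b ≤ n - 1 → SrvG (X ^^^ 2 ^ p) zs ns p (n - 1) b) :
    GF X (p :: zs) (n :: ns) := by
  intro k hk
  -- the full size of the expanded mark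
  have key : NF 5 X 0 (⟨p, n - 1, 0⟩ :: mkL k zs) := by
    refine NF.expand (by omega) hp ?_ ?_ ?_
    · intro m hm
      exact hpz _ (mem_mkL.mp hm).1
    · obtain ⟨i, hi, h1, h2⟩ := (h 0 (by omega)).1 rfl (by omega)
      refine ⟨i, hi, ?_, Or.inr rfl, ?_⟩
      · intro m hm
        exact h1 _ (mem_mkL.mp hm).1
      · have h3 := h2 (Function.update k (p ^^^ 2 ^ i) (n - 1 - 1)) ⟨by
          rw [Function.update_self]; omega, CapsL.mono hk.2 fun z hz => by
            rw [Function.update_of_ne (h1 z hz)]⟩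
        unfold mkL at h3 ⊢
        rw [List.map_cons, Function.update_self] at h3
        have e : zs.map (fun z => (⟨z, Function.update k (p ^^^ 2 ^ i) (n - 1 - 1) z, 0⟩ : Mk ℕ)) =
            zs.map (fun z => (⟨z, k z, 0⟩ : Mk ℕ)) :=
          List.map_congr_left fun z hz => by rw [Function.update_of_ne (h1 z hz)]
        rw [e] at h3
        exact h3
    · intro b hb hb2 sb hsb
      have hsb0 : sb = 0 := by omega
      subst hsb0
      obtain ⟨i, j, hi, hj, hij, h1, h2⟩ := (h b hb2).2 hb (by omega)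
      have hxy : p ^^^ 2 ^ i ≠ p ^^^ 2 ^ j := by
        intro e
        apply hij
        exact Nat.pow_right_injective (le_refl 2) (Nat.xor_right_injective e)
      refine ⟨i, j, hi, hj, hij, ?_, Or.inr rfl, Or.inr rfl, ?_⟩
      · intro m hm
        exact h1 _ (mem_mkL.mp hm).1
      · have h3 := h2 (Function.update (Function.update k (p ^^^ 2 ^ j) (b - 1)) (p ^^^ 2 ^ i)
          (n - 1 - b - 1)) ⟨by
            rw [Function.update_self]; omega, by
            rw [Function.update_of_ne hxy.symm, Function.update_self]; omega,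
            CapsL.mono hk.2 fun z hz => by
              rw [Function.update_of_ne (h1 z hz).1, Function.update_of_ne (h1 z hz).2]⟩
        unfold mkL at h3 ⊢
        rw [List.map_cons, List.map_cons, Function.update_self, Function.update_of_ne hxy.symm,
          Function.update_self] at h3
        have e : zs.map (fun z => (⟨z, Function.update (Function.update k (p ^^^ 2 ^ j) (b - 1))
            (p ^^^ 2 ^ i) (n - 1 - b - 1) z, 0⟩ : Mk ℕ)) = zs.map (fun z => (⟨z, k z, 0⟩ : Mk ℕ)) :=
          List.map_congr_left fun z hz => by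
            rw [Function.update_of_ne (h1 z hz).1, Function.update_of_ne (h1 z hz).2]
        rw [e] at h3
        exact h3
  refine NF.cover (refs := [⟨X, 0, ⟨p, n - 1, 0⟩ :: mkL k zs⟩]) ?_ ?_ ?_
  · intro r hr
    simp only [List.mem_cons, List.not_mem_nil, or_false] at hr
    rw [hr]; exact key
  · simp [coverB]
  · rw [List.all_eq_true]
    intro m hm
    obtain ⟨hm1, hm2⟩ := mem_mkL.mp hm
    unfold servedB
    rw [List.any_eq_true]
    refine ⟨_, List.mem_cons_self, ?_⟩
    rw [Bool.and_eq_true, List.any_eq_true, List.all_eq_true]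
    rcases List.mem_cons.mp hm1 with h2 | h2
    · refine ⟨⟨⟨p, n - 1, 0⟩, List.mem_cons_self, by simp [h2]⟩, ?_⟩
      intro m' hm'
      rcases List.mem_cons.mp hm' with rfl | h3
      · have := hk.1
        rw [hm2, h2]
        have h4 : k p ≤ n - 1 := by omega
        simp [Mk.domB, h4]
      · have := hpz _ (mem_mkL.mp h3).1
        rw [h2]
        simp [this]
    · have hmp : m.p ≠ p := hpz _ h2
      refine ⟨⟨m, List.mem_cons_of_mem _ (mem_mkL.mpr ⟨h2, hm2⟩), by simp⟩, ?_⟩
      intro m' hm'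
      rcases List.mem_cons.mp hm' with rfl | h3
      · simp [hmp.symm]
      · obtain ⟨_, h5⟩ := mem_mkL.mp h3
        by_cases he : m'.p = m.p
        · rw [h5, hm2, he]
          simp [Mk.domB]
        · simp [he]

theorem GF_perm : ∀ {zs ns : List ℕ} {m : ℕ}, m < zs.length → m < ns.length →
    (∀ k : ℕ → ℕ, CapsL k zs ns → CapsL k (zs.getD m 0 :: zs.eraseIdx m)
      (ns.getD m 0 :: ns.eraseIdx m)) := by
  intro zs
  induction zs with
  | nil => intro ns m h1; simp at h1
  | cons z zs ih =>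
    intro ns m h1 h2 k hk
    cases ns with
    | nil => simp at h2
    | cons n ns =>
      cases m with
      | zero => simpa using hk
      | succ m =>
        have h3 := ih (ns := ns) (m := m) (by simpa using h1) (by simpa using h2) k hk.2
        obtain ⟨h4, h5⟩ := h3
        refine ⟨by simpa using h4, ?_⟩
        simp only [List.eraseIdx_cons_succ]
        exact ⟨hk.1, h5⟩

theorem mem_getD_eraseIdx {zs : List ℕ} : ∀ {m : ℕ}, m < zs.length → ∀ z,
    z ∈ zs.getD m 0 :: zs.eraseIdx m ↔ z ∈ zs := by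
  induction zs with
  | nil => intro m h; simp at h
  | cons a zs ih =>
    intro m h z
    cases m with
    | zero => simp
    | succ m =>
      have := ih (m := m) (by simpa using h) z
      simp only [List.mem_cons, List.getD_cons_succ, List.eraseIdx_cons_succ] at *
      rw [← this]
      tauto

theorem ck_ok {T M : ℕ} (hT : ∀ i < M, Good T i) (c : Ct) : ∀ (X : ℕ) (zs ns : List ℕ) (p k t : ℕ),
    (∀ z ∈ zs, z < 32) → ck T M c X zs ns p k t = true →
    (c.isF = true → GF X zs ns) ∧
    (c.isF = false → p < 32 → ∀ b < t, SrvG X zs ns p k b) := by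
  induction c with
  | cov D =>
    intro X zs ns p k t hz h
    exact ⟨fun _ => cvr_ok hT zs ns D X hz h, fun h => by simp [Ct.isF] at h⟩
  | fin =>
    intro X zs ns p k t hz h
    refine ⟨fun h => by simp [Ct.isF] at h, fun _ _ b hb => ?_⟩
    have : t = 0 := by simpa [ck] using h
    omega
  | one i c ih =>
    intro X zs ns p k t hz h
    refine ⟨fun h => by simp [Ct.isF] at h, fun _ hp b hb => ?_⟩
    simp only [ck, Bool.and_eq_true, decide_eq_true_eq] at h
    obtain ⟨⟨⟨⟨h1, h2⟩, h3⟩, h3'⟩, h4⟩ := h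
    have hzz : ∀ z ∈ (p ^^^ 2 ^ i) :: zs, z < 32 := by
      intro z hz'
      rcases List.mem_cons.mp hz' with rfl | h'
      · exact xor_two_pow_lt hp h2
      · exact hz z h'
    have h5 : ∀ z ∈ zs, z ≠ p ^^^ 2 ^ i := by
      intro z hz'
      have := List.all_eq_true.mp h3 z hz'
      simpa using this
    have h6 := (ih X _ _ 0 0 0 hzz h4).1 h3'
    have hb0 : b = 0 := by omega
    subst hb0
    exact ⟨fun _ hk => ⟨i, h2, h5, h6⟩, fun h => by omega⟩
  | two i j A B c rest ih1 ih2 =>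
    intro X zs ns p k t hz h
    refine ⟨fun h => by simp [Ct.isF] at h, fun _ hp b hb => ?_⟩
    simp only [ck, Bool.and_eq_true, decide_eq_true_eq] at h
    obtain ⟨⟨⟨⟨⟨⟨⟨⟨⟨⟨h1, h2⟩, h3⟩, h4⟩, h5⟩, h6⟩, h7⟩, h8⟩, h9⟩, h10⟩, h11⟩ := h
    by_cases hbk : b < k - A
    · exact (ih2 X zs ns p k (k - A) hz h11).2 (by simpa using h8) hp b hbk
    have hij : i ≠ j := by simpa using h4
    have hxy : p ^^^ 2 ^ i ≠ p ^^^ 2 ^ j := by
      intro e
      apply hij
      exact Nat.pow_right_injective (le_refl 2) (Nat.xor_right_injective e)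
    have h5' : ∀ z ∈ zs, z ≠ p ^^^ 2 ^ i := by
      intro z hz'
      have := List.all_eq_true.mp h5 z hz'
      simpa using this
    have h6' : ∀ z ∈ zs, z ≠ p ^^^ 2 ^ j := by
      intro z hz'
      have := List.all_eq_true.mp h6 z hz'
      simpa using this
    have hzz : ∀ z ∈ (p ^^^ 2 ^ i) :: (p ^^^ 2 ^ j) :: zs, z < 32 := by
      intro z hz'
      rcases List.mem_cons.mp hz' with rfl | h'
      · exact xor_two_pow_lt hp h2
      rcases List.mem_cons.mp h' with rfl | h'
      · exact xor_two_pow_lt hp h3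
      · exact hz z h'
    have h12 := (ih1 X _ _ 0 0 0 hzz h10).1 h7
    refine ⟨fun hb0 hk => ⟨i, h2, h5', ?_⟩, fun hb1 hbk' => ⟨i, j, h2, h3, hij,
      fun z hz' => ⟨h5' z hz', h6' z hz'⟩, ?_⟩⟩
    · have h13 := GF_drop hxy h6' h9 h12
      refine h13.le fun k' hk' => ⟨?_, hk'.2⟩
      have := hk'.1
      omega
    · refine h12.le fun k' hk' => ⟨?_, ?_, hk'.2.2⟩
      · have := hk'.1
        omega
      · have := hk'.2.1
        omega
  | exp m brs ih =>
    intro X zs ns p k t hz h
    refine ⟨fun _ => ?_, fun h => by simp [Ct.isF] at h⟩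
    simp only [ck, Bool.and_eq_true, decide_eq_true_eq] at h
    obtain ⟨⟨⟨⟨⟨⟨h1, h2⟩, h3⟩, h4⟩, h5⟩, h6⟩, h7⟩ := h
    set q := zs.getD m 0 with hq
    set n := ns.getD m 0 with hn
    have hqz : q ∈ zs := (mem_getD_eraseIdx h1 q).mp (by rw [hq]; exact List.mem_cons_self)
    have h5' : ∀ z ∈ zs.eraseIdx m, z ≠ q := by
      intro z hz'
      have := List.all_eq_true.mp h5 z hz'
      simpa using this
    have hzz : ∀ z ∈ zs.eraseIdx m, z < 32 := fun z hz' =>
      hz z ((mem_getD_eraseIdx h1 z).mp (List.mem_cons_of_mem _ hz'))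
    have h8 := (ih (X ^^^ 2 ^ q) (zs.eraseIdx m) (ns.eraseIdx m) q (n - 1) ((n - 1) / 2 + 1) hzz
      h7).2 (by simpa using h6) (hz q hqz)
    have h9 := GF_expand h3 h4 h5' (fun b hb => h8 b (by omega))
    intro k' hk'
    have h10 := h9 k' (GF_perm h1 h2 k' hk')
    refine NF.congr ?_ h10
    intro mm
    rw [mem_mkL, mem_mkL, mem_getD_eraseIdx h1]

/-! ### Chains of covers over all size vectors -/

/-- the full region -/
def FULL : ℕ := 4294967295

/-- comparison of lists of naturals, entry by entry -/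
noncomputable def leL (ns : List ℕ) : List ℕ → Bool :=
  List.rec (motive := fun _ => List ℕ → Bool) (fun _ => true)
    (fun n _ ih cs => List.rec (motive := fun _ => Bool) false
      (fun c cs' _ => cj (Nat.ble n c) (ih cs')) cs) ns

theorem leL_ok : ∀ {ns cs : List ℕ}, leL ns cs = true → ∀ {zs : List ℕ} {k : ℕ → ℕ},
    CapsL k zs ns → CapsL k zs cs
  | _, _, _, [], _, _ => trivial
  | [], _, _, _ :: _, _, hk => hk.elim
  | n :: ns, [], h, _ :: _, _, _ => by
    have h' : false = true := h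
    exact absurd h' (by simp)
  | n :: ns, c :: cs, h, z :: zs, k, hk => by
    have h' : cj (Nat.ble n c) (leL ns cs) = true := h
    rw [cj_iff] at h'
    have h1 : n ≤ c := Nat.le_of_ble_eq_true h'.1
    exact ⟨hk.1.trans h1, leL_ok h'.2 hk.2⟩

/-- equality of lists -/
noncomputable def eqL (as : List ℕ) : List ℕ → Bool :=
  List.rec (motive := fun _ => List ℕ → Bool)
    (fun bs => List.rec (motive := fun _ => Bool) true (fun _ _ _ => false) bs)
    (fun a _ ih bs => List.rec (motive := fun _ => Bool) false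
      (fun b bs' _ => cj (Nat.beq a b) (ih bs')) bs) as

theorem eqL_ok : ∀ {as bs : List ℕ}, eqL as bs = true → as = bs
  | [], [], _ => rfl
  | [], _ :: _, h => by
    have h' : false = true := h
    exact absurd h' (by simp)
  | _ :: _, [], h => by
    have h' : false = true := h
    exact absurd h' (by simp)
  | a :: as, b :: bs, h => by
    have h' : cj (Nat.beq a b) (eqL as bs) = true := h
    rw [cj_iff] at h'
    rw [Nat.eq_of_beq_eq_true h'.1, eqL_ok h'.2]

/-- search in the list of special facts -/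
noncomputable def spc (sp : List (List ℕ × List ℕ)) (zs ns : List ℕ) : Bool :=
  List.rec (motive := fun _ => Bool) false
    (fun p _ ih => Bool.rec (motive := fun _ => Bool) ih true
      (cj (eqL zs p.1) (leL ns p.2))) sp

theorem spc_ok {sp : List (List ℕ × List ℕ)} (h : ∀ p ∈ sp, GF FULL p.1 p.2) {zs ns : List ℕ}
    (h1 : spc sp zs ns = true) : GF FULL zs ns := by
  induction sp with
  | nil =>
    have h' : false = true := h1
    exact absurd h' (by simp)
  | cons p sp ih =>
    have h' : Bool.rec (motive := fun _ => Bool) (spc sp zs ns) true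
      (cj (eqL zs p.1) (leL ns p.2)) = true := h1
    cases h2 : cj (eqL zs p.1) (leL ns p.2) with
    | true =>
      rw [cj_iff] at h2
      rw [eqL_ok h2.1]
      exact (h p List.mem_cons_self).le fun k hk => leL_ok h2.2 hk
    | false =>
      rw [h2] at h'
      exact ih (fun q hq => h q (List.mem_cons_of_mem _ hq)) h'

/-- one piece: a cover (indices in `D`) or a special fact (lowest index `65535`; then the number in
the next 16 bits is the bound of the last size) -/
noncomputable def pcC (T D sh : ℕ) : ℕ :=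
  Bool.rec (motive := fun _ => ℕ) (tn T (Nat.land (Nat.shiftRight D sh) 65535))
    (Nat.land (Nat.shiftRight D 16) 65535) (Nat.beq (Nat.land D 65535) 65535)

/-- check of a piece -/
noncomputable def pcB (T M : ℕ) (sp : List (List ℕ × List ℕ)) (zs ns : List ℕ) (D : ℕ) : Bool :=
  Bool.rec (motive := fun _ => Bool) (cvr T M zs ns D FULL) (spc sp zs ns)
    (Nat.beq (Nat.land D 65535) 65535)

theorem pcB_ok {T M : ℕ} (hT : ∀ i < M, Good T i) {sp : List (List ℕ × List ℕ)}
    (hsp : ∀ p ∈ sp, GF FULL p.1 p.2) {zs ns : List ℕ} {D : ℕ} (hz : ∀ z ∈ zs, z < 32)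
    (h : pcB T M sp zs ns D = true) : GF FULL zs ns := by
  unfold pcB at h
  cases h1 : Nat.beq (Nat.land D 65535) 65535 with
  | true => rw [h1] at h; exact spc_ok hsp h
  | false => rw [h1] at h; exact cvr_ok hT zs ns D FULL hz h

/-- chain of pieces: the last but one size is at most `t`, the sum of the last two sizes is at most
`left`; `mk t c` is the list of bounds with last entries `t` and `c`. -/
noncomputable def chn (T M : ℕ) (sp : List (List ℕ × List ℕ)) (zs : List ℕ)
    (mk : ℕ → ℕ → List ℕ) (left sh st f : ℕ) : ℕ → ℕ → Bool :=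
  Nat.rec (motive := fun _ => ℕ → ℕ → Bool) (fun t _ => Nat.beq t 0)
    (fun _ ih t D => Bool.rec (motive := fun _ => Bool)
      (cj (pcB T M sp zs (mk t (pcC T D sh)) D)
        (ih (Nat.pred (Nat.sub left (pcC T D sh))) (Nat.shiftRight D st)))
      true (Nat.beq t 0)) f

theorem chn_ok {T M : ℕ} (hT : ∀ i < M, Good T i) {sp : List (List ℕ × List ℕ)}
    (hsp : ∀ p ∈ sp, GF FULL p.1 p.2) {zs : List ℕ} (hz : ∀ z ∈ zs, z < 32)
    {mk : ℕ → ℕ → List ℕ} {left sh st : ℕ} {k : ℕ → ℕ} {a b : ℕ}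
    (hmk : ∀ t c, k a + 1 ≤ t → k b + 1 ≤ c → CapsL k zs (mk t c))
    (hab : k a + 1 + (k b + 1) ≤ left) : ∀ (f t D : ℕ),
    chn T M sp zs mk left sh st f t D = true → k a + 1 ≤ t → NF 5 FULL 0 (mkL k zs)
  | 0, t, D, h, ht => by
    have : t = 0 := Nat.eq_of_beq_eq_true h
    omega
  | f + 1, t, D, h, ht => by
    have h' : Bool.rec (motive := fun _ => Bool)
      (cj (pcB T M sp zs (mk t (pcC T D sh)) D)
        (chn T M sp zs mk left sh st f (Nat.pred (Nat.sub left (pcC T D sh)))
          (Nat.shiftRight D st)))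
      true (Nat.beq t 0) = true := h
    have h0 : Nat.beq t 0 = false := by
      cases t with
      | zero => omega
      | succ t => rfl
    rw [h0] at h'
    have h'' : cj (pcB T M sp zs (mk t (pcC T D sh)) D)
        (chn T M sp zs mk left sh st f (Nat.pred (Nat.sub left (pcC T D sh)))
          (Nat.shiftRight D st)) = true := h'
    rw [cj_iff] at h''
    obtain ⟨h1, h2⟩ := h''
    by_cases hc : k a + 1 ≤ Nat.pred (Nat.sub left (pcC T D sh))
    · exact chn_ok hT hsp hz hmk hab f _ _ h2 hc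
    · have h3 : Nat.pred (Nat.sub left (pcC T D sh)) = left - pcC T D sh - 1 := rfl
      rw [h3] at hc
      exact pcB_ok hT hsp hz h1 k (hmk _ _ ht (by omega))

/-- loop over the values `n, n + 1, ...` of a size -/
noncomputable def lp {α : Type} (stop : ℕ) (P : α → ℕ → Bool) (l : List α) : ℕ → Bool :=
  List.rec (motive := fun _ => ℕ → Bool) (fun n => Nat.ble stop n)
    (fun a _ ih n => cj (P a n) (ih (Nat.succ n))) l

theorem lp_ok {α : Type} {stop : ℕ} {P : α → ℕ → Bool} : ∀ {l : List α} {n : ℕ},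
    lp stop P l n = true → ∀ m, n ≤ m → m < stop → ∃ a, P a m = true
  | [], n, h, m, h1, h2 => by
    have : stop ≤ n := Nat.le_of_ble_eq_true h
    omega
  | a :: l, n, h, m, h1, h2 => by
    have h' : cj (P a n) (lp stop P l (Nat.succ n)) = true := h
    rw [cj_iff] at h'
    rcases h1.eq_or_lt with h3 | h3
    · rw [← h3]; exact ⟨a, h'.1⟩
    · exact lp_ok h'.2 m h3 h2

/-- two roots -/
noncomputable def cls2 (T M : ℕ) (sp : List (List ℕ × List ℕ)) (N a b D : ℕ) : Bool :=
  chn T M sp [a, b] (fun t c => [t, c]) N 16 32 32 (Nat.pred N) D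

/-- three roots -/
noncomputable def cls3 (T M : ℕ) (sp : List (List ℕ × List ℕ)) (N z a b : ℕ) (Ds : List ℕ) :
    Bool :=
  lp (Nat.pred N) (fun D n => chn T M sp [z, a, b] (fun t c => [n, t, c]) (Nat.sub N n) 32 48 32
    (Nat.pred (Nat.sub N n)) D) Ds 1

/-- four roots -/
noncomputable def cls4 (T M : ℕ) (sp : List (List ℕ × List ℕ)) (N z y a b : ℕ)
    (Dss : List (List ℕ)) : Bool :=
  lp (Nat.pred (Nat.pred N)) (fun Ds n =>
    lp (Nat.pred (Nat.sub N n)) (fun D n' => chn T M sp [z, y, a, b] (fun t c => [n, n', t, c])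
      (Nat.sub (Nat.sub N n) n') 48 64 32 (Nat.pred (Nat.sub (Nat.sub N n) n')) D) Ds 1) Dss 1

theorem cls2_ok {T M : ℕ} (hT : ∀ i < M, Good T i) {sp : List (List ℕ × List ℕ)}
    (hsp : ∀ p ∈ sp, GF FULL p.1 p.2) {N a b D : ℕ} (ha : a < 32) (hb : b < 32)
    (h : cls2 T M sp N a b D = true) (k : ℕ → ℕ) (hk : ([a, b].map fun z => k z + 1).sum ≤ N) :
    NF 5 FULL 0 (mkL k [a, b]) := by
  simp only [List.map_cons, List.map_nil, List.sum_cons, List.sum_nil] at hk
  refine chn_ok (mk := fun t c => [t, c]) (a := a) (b := b) hT hsp ?_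
    (fun t c h1 h2 => ⟨h1, h2, trivial⟩) ?_ _ _ _ h ?_
  · intro z hz
    simp only [List.mem_cons, List.not_mem_nil, or_false] at hz
    rcases hz with rfl | rfl <;> assumption
  · omega
  · show k a + 1 ≤ N - 1
    omega

theorem cls3_ok {T M : ℕ} (hT : ∀ i < M, Good T i) {sp : List (List ℕ × List ℕ)}
    (hsp : ∀ p ∈ sp, GF FULL p.1 p.2) {N z a b : ℕ} {Ds : List ℕ} (hz : z < 32) (ha : a < 32)
    (hb : b < 32) (h : cls3 T M sp N z a b Ds = true) (k : ℕ → ℕ)
    (hk : ([z, a, b].map fun z => k z + 1).sum ≤ N) :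
    NF 5 FULL 0 (mkL k [z, a, b]) := by
  simp only [List.map_cons, List.map_nil, List.sum_cons, List.sum_nil] at hk
  obtain ⟨D, hD⟩ := lp_ok h (k z + 1) (by omega) (by
    show k z + 1 < N - 1
    omega)
  have e : Nat.sub N (k z + 1) = N - (k z + 1) := rfl
  refine chn_ok (mk := fun t c => [k z + 1, t, c]) (a := a) (b := b) hT hsp ?_
    (fun t c h1 h2 => ⟨le_rfl, h1, h2, trivial⟩) ?_ _ _ _ hD ?_
  · intro x hx
    simp only [List.mem_cons, List.not_mem_nil, or_false] at hx
    rcases hx with rfl | rfl | rfl <;> assumption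
  · rw [e]; omega
  · show k a + 1 ≤ N - (k z + 1) - 1
    omega

theorem cls4_ok {T M : ℕ} (hT : ∀ i < M, Good T i) {sp : List (List ℕ × List ℕ)}
    (hsp : ∀ p ∈ sp, GF FULL p.1 p.2) {N z y a b : ℕ} {Dss : List (List ℕ)} (hz : z < 32)
    (hy : y < 32) (ha : a < 32) (hb : b < 32) (h : cls4 T M sp N z y a b Dss = true) (k : ℕ → ℕ)
    (hk : ([z, y, a, b].map fun z => k z + 1).sum ≤ N) :
    NF 5 FULL 0 (mkL k [z, y, a, b]) := by
  simp only [List.map_cons, List.map_nil, List.sum_cons, List.sum_nil] at hk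
  obtain ⟨Ds, hDs⟩ := lp_ok h (k z + 1) (by omega) (by
    show k z + 1 < N - 1 - 1
    omega)
  obtain ⟨D, hD⟩ := lp_ok hDs (k y + 1) (by omega) (by
    show k y + 1 < N - (k z + 1) - 1
    omega)
  have e : Nat.sub (Nat.sub N (k z + 1)) (k y + 1) = N - (k z + 1) - (k y + 1) := rfl
  refine chn_ok (mk := fun t c => [k z + 1, k y + 1, t, c]) (a := a) (b := b) hT hsp ?_
    (fun t c h1 h2 => ⟨le_rfl, le_rfl, h1, h2, trivial⟩) ?_ _ _ _ hD ?_
  · intro x hx
    simp only [List.mem_cons, List.not_mem_nil, or_false] at hx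
    rcases hx with rfl | rfl | rfl | rfl <;> assumption
  · rw [e]; omega
  · show k a + 1 ≤ N - (k z + 1) - (k y + 1) - 1
    omega

end Tab

end Pool.Agent.Work.MP_bf01b2_co.MR
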