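import Pool.Agent.Work.MP_bf01b2_co.MR.Graft

/-!
# Marks recursion: the cube and its two halves
-/

set_option autoImplicit false

namespace Pool.Agent.Work.MP_bf01b2_co.MR

/-- Adjacency in the cube `Q_m`. -/
def cadj (m : ℕ) (x y : Fin m → Bool) : Prop := hammingDist x y = 1

/-- change the coordinate `j` -/
def flip {m : ℕ} (j : Fin m) (x : Fin m → Bool) : Fin m → Bool := Function.update x j (!x j)

theorem cadj_flip {m : ℕ} (j : Fin m) (x : Fin m → Bool) : cadj m x (flip j x) := by
  unfold cadj hammingDist flip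
  rw [Finset.card_eq_one]
  refine ⟨j, ?_⟩
  ext i
  simp only [Finset.mem_filter, Finset.mem_univ, true_and, Finset.mem_singleton]
  constructor
  · intro h
    by_contra hij
    rw [Function.update_of_ne hij] at h
    exact h rfl
  · rintro rfl
    simp

theorem cadj_symm {m : ℕ} {x y : Fin m → Bool} (h : cadj m x y) : cadj m y x := by
  unfold cadj at *
  rwa [hammingDist_comm]

theorem cadj_iff {m : ℕ} {x y : Fin m → Bool} : cadj m x y ↔ ∃ j, y = flip j x := by
  constructor
  · intro h
    unfold cadj hammingDist at h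
    rw [Finset.card_eq_one] at h
    obtain ⟨j, hj⟩ := h
    refine ⟨j, ?_⟩
    ext i
    have hi : i ∈ Finset.univ.filter (fun i => x i ≠ y i) ↔ i ∈ ({j} : Finset (Fin m)) := by
      rw [hj]
    simp only [Finset.mem_filter, Finset.mem_univ, true_and, Finset.mem_singleton] at hi
    unfold flip
    by_cases hij : i = j
    · subst hij
      rw [Function.update_self]
      have := hi.2 rfl
      cases hx : x i <;> cases hy : y i <;> simp_all
    · rw [Function.update_of_ne hij]
      by_contra h
      exact hij (hi.1 (fun h' => h h'.symm))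
  · rintro ⟨j, rfl⟩
    exact cadj_flip j x

theorem flip_flip {m : ℕ} (j : Fin m) (x : Fin m → Bool) : flip j (flip j x) = x := by
  unfold flip
  simp

theorem flip_apply_self {m : ℕ} (j : Fin m) (x : Fin m → Bool) : flip j x j = !x j := by
  unfold flip
  simp

theorem flip_apply_of_ne {m : ℕ} {i j : Fin m} (h : i ≠ j) (x : Fin m → Bool) :
    flip j x i = x i := by
  unfold flip
  rw [Function.update_of_ne h]

theorem flip_injective {m : ℕ} (j : Fin m) : Function.Injective (flip (m := m) j) := fun x y h => by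
  rw [← flip_flip j x, h, flip_flip]

/-- Half of the cube. -/
def side {m : ℕ} (j : Fin m) (b : Bool) : Finset (Fin m → Bool) :=
  Finset.univ.filter (fun x => x j = b)

theorem mem_side {m : ℕ} {j : Fin m} {b : Bool} {x : Fin m → Bool} : x ∈ side j b ↔ x j = b := by
  simp [side]

theorem side_disjoint {m : ℕ} (j : Fin m) (b : Bool) : Disjoint (side j b) (side j (!b)) := by
  rw [Finset.disjoint_left]
  intro x hx hx'
  rw [mem_side] at hx hx'
  rw [hx] at hx'
  cases b <;> simp at hx'

theorem flip_mem_side {m : ℕ} {j : Fin m} {b : Bool} {x : Fin m → Bool} (h : x ∈ side j b) :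
    flip j x ∈ side j (!b) := by
  rw [mem_side] at *
  rw [flip_apply_self, h]

/-- The half of the cube as a copy of the smaller cube. -/
def ins {m : ℕ} (j : Fin (m + 1)) (b : Bool) : (Fin m → Bool) ↪ (Fin (m + 1) → Bool) where
  toFun x := Fin.insertNth (α := fun _ => Bool) j b x
  inj' x y h := by
    ext i
    have := congrFun h (j.succAbove i)
    simpa using this

theorem ins_self {m : ℕ} {j : Fin (m + 1)} {b : Bool} {x : Fin m → Bool} : ins j b x j = b := by
  change Fin.insertNth (α := fun _ => Bool) j b x j = b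
  rw [Fin.insertNth_apply_same]

theorem ins_succ {m : ℕ} {j : Fin (m + 1)} {b : Bool} {x : Fin m → Bool} {i : Fin m} :
    ins j b x (j.succAbove i) = x i := by
  change Fin.insertNth (α := fun _ => Bool) j b x (j.succAbove i) = x i
  rw [Fin.insertNth_apply_succAbove]

/-- delete the coordinate `j` -/
def del {m : ℕ} (j : Fin (m + 1)) (x : Fin (m + 1) → Bool) : Fin m → Bool :=
  fun i => x (j.succAbove i)

theorem ins_del {m : ℕ} {j : Fin (m + 1)} {b : Bool} {x : Fin (m + 1) → Bool} (h : x j = b) :
    ins j b (del j x) = x := by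
  ext i
  rcases Fin.eq_self_or_eq_succAbove j i with rfl | ⟨k, rfl⟩
  · rw [ins_self, h]
  · rw [ins_succ]; rfl

theorem del_ins {m : ℕ} {j : Fin (m + 1)} {b : Bool} {x : Fin m → Bool} :
    del j (ins j b x) = x := by
  ext i
  exact ins_succ

theorem ins_mem_side {m : ℕ} {j : Fin (m + 1)} {b : Bool} {x : Fin m → Bool} :
    ins j b x ∈ side j b := by
  rw [mem_side, ins_self]

theorem cadj_ins {m : ℕ} {j : Fin (m + 1)} {b : Bool} {x y : Fin m → Bool} (h : cadj m x y) :
    cadj (m + 1) (ins j b x) (ins j b y) := by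
  obtain ⟨i, rfl⟩ := cadj_iff.1 h
  rw [cadj_iff]
  refine ⟨j.succAbove i, ?_⟩
  ext k
  rcases Fin.eq_self_or_eq_succAbove j k with rfl | ⟨l, rfl⟩
  · rw [flip_apply_of_ne (Fin.succAbove_ne _ _).symm, ins_self, ins_self]
  · by_cases hl : l = i
    · subst hl
      rw [flip_apply_self, ins_succ, ins_succ, flip_apply_self]
    · rw [flip_apply_of_ne (fun h => hl (Fin.succAbove_right_injective h)), ins_succ, ins_succ,
        flip_apply_of_ne hl]

/-- Two different vertices are separated by a coordinate. -/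
theorem exists_sep {m : ℕ} {x y : Fin m → Bool} (h : x ≠ y) : ∃ j, x j ≠ y j := by
  by_contra hcon
  push Not at hcon
  exact h (funext hcon)

/-- A hard fact for `Q_m` gives one for a half of `Q_(m+1)`. -/
theorem HF_side {m : ℕ} {ms : List ((Fin (m + 1) → Bool) × ℕ)} (j : Fin (m + 1)) (b : Bool)
    (hb : ∀ a ∈ ms, a.1 j = b)
    (h : HF (cadj m) Finset.univ (ms.map fun a => (del j a.1, a.2))) :
    HF (cadj (m + 1)) (side j b) ms := by
  intro Ts hTs
  obtain ⟨S, p, h1, -⟩ := h (Ts.map (RT.map (del j))) (by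
    rw [List.forall₂_map_left_iff, List.forall₂_map_right_iff]
    refine hTs.imp fun T a ha => ⟨?_, ha.2⟩
    simp only [RT.map]
    rw [ha.1])
  have h2 := forest_map (ins j b) (fun x y => cadj_ins) h1
  have h3 : (Ts.map (RT.map (del j))).map (RT.map (ins j b)) = Ts := by
    rw [List.map_map]
    conv_rhs => rw [← List.map_id Ts]
    refine List.map_congr_left fun T hT => ?_
    rw [List.forall₂_iff_get] at hTs
    obtain ⟨i, hi, rfl⟩ := List.getElem_of_mem hT
    have hi' : i < ms.length := hTs.1 ▸ hi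
    have h4 := (hTs.2 i hi hi').1
    have h5 := hb _ (List.getElem_mem hi')
    simp only [List.get_eq_getElem] at h4
    rw [← h4] at h5
    simp only [Function.comp, RT.map, id]
    rw [ins_del h5]
  rw [h3] at h2
  refine ⟨_, _, h2, ?_⟩
  intro x hx
  obtain ⟨y, -, rfl⟩ := Finset.mem_map.1 hx
  exact ins_mem_side

/-- Automorphisms. -/
theorem HF_equiv {V W : Type*} [DecidableEq V] [DecidableEq W] {adj : V → V → Prop}
    {adj' : W → W → Prop} (φ : V ≃ W) (hφ : ∀ a b, adj a b → adj' (φ a) (φ b)) {X : Finset V}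
    {Y : Finset W} (hXY : ∀ x ∈ X, φ x ∈ Y) {ms : List (V × ℕ)} (h : HF adj X ms) :
    HF adj' Y (ms.map fun a => (φ a.1, a.2)) := by
  intro Ts hTs
  rw [List.forall₂_map_right_iff] at hTs
  obtain ⟨S, p, h1, h2⟩ := h (Ts.map (RT.map φ.symm)) (by
    rw [List.forall₂_map_left_iff]
    refine hTs.imp fun T a ha => ⟨?_, ha.2⟩
    simp only [RT.map]
    rw [ha.1, φ.symm_apply_apply])
  have h3 := forest_map φ.toEmbedding hφ h1
  have h4 : (Ts.map (RT.map φ.symm)).map (RT.map φ.toEmbedding) = Ts := by
    rw [List.map_map]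
    conv_rhs => rw [← List.map_id Ts]
    refine List.map_congr_left fun T _ => ?_
    simp [Function.comp, RT.map]
  rw [h4] at h3
  refine ⟨_, _, h3, ?_⟩
  intro x hx
  obtain ⟨y, hy, rfl⟩ := Finset.mem_map.1 hx
  exact hXY _ (h2 hy)

end Pool.Agent.Work.MP_bf01b2_co.MR
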