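import Pool.Agent.Work.MP_bf01b2_co.MR.B5Cls
import Pool.Agent.Work.MP_bf01b2_co.MR.Cube

/-!
# Marks recursion: from bit strings to `Fin m → Bool`
-/

set_option autoImplicit false

namespace Pool.Agent.Work.MP_bf01b2_co.MR

section mapOn

variable {V W : Type*} [DecidableEq V] [DecidableEq W]

theorem slot_mapOn {adj : V → V → Prop} {adj' : W → W → Prop}
    (f : V → W) (hf : ∀ a b, adj a b → adj' (f a) (f b)) :
    ∀ {t : HT} {v : V} {S : Finset V} {p : List V}, Set.InjOn f S →
      Slot adj t v S p → Slot adj' t (f v) (S.image f) (p.map f)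
  | .nil, _, _, _, _, h => by rw [h.1, h.2]; exact ⟨by simp, by simp⟩
  | .hole, _, _, _, _, h => by rw [h.1, h.2]; exact ⟨by simp, by simp⟩
  | .node l r, v, S, p, hi, h => by
    obtain ⟨x, hvx, A, B, pa, pb, hA, hB, hx, hx', hd, rfl, rfl⟩ := h
    rw [Finset.coe_insert, Finset.coe_union] at hi
    have hiA : Set.InjOn f A := hi.mono fun a ha => Or.inr (Or.inl ha)
    have hiB : Set.InjOn f B := hi.mono fun a ha => Or.inr (Or.inr ha)
    refine ⟨f x, hf _ _ hvx, A.image f, B.image f, pa.map f, pb.map f, slot_mapOn f hf hiA hA,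
      slot_mapOn f hf hiB hB, ?_, ?_, ?_, ?_, by simp⟩
    · intro h
      obtain ⟨a, ha, hax⟩ := Finset.mem_image.mp h
      have := hi (Or.inr (Or.inl ha)) (Or.inl rfl) hax
      exact hx (this ▸ ha)
    · intro h
      obtain ⟨a, ha, hax⟩ := Finset.mem_image.mp h
      have := hi (Or.inr (Or.inr ha)) (Or.inl rfl) hax
      exact hx' (this ▸ ha)
    · rw [Finset.disjoint_left]
      intro w hw hw'
      obtain ⟨a, ha, rfl⟩ := Finset.mem_image.mp hw
      obtain ⟨b, hb, hab⟩ := Finset.mem_image.mp hw'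
      have := hi (Or.inr (Or.inr hb)) (Or.inr (Or.inl ha)) hab
      exact Finset.disjoint_left.mp hd ha (this ▸ hb)
    · rw [Finset.image_insert, Finset.image_union]

theorem root_mapOn {adj : V → V → Prop} {adj' : W → W → Prop}
    (f : V → W) (hf : ∀ a b, adj a b → adj' (f a) (f b)) {l r : HT} {x : V} {S : Finset V}
    {p : List V} (hi : Set.InjOn f S) (h : Root adj l r x S p) :
    Root adj' l r (f x) (S.image f) (p.map f) := by
  obtain ⟨A, B, pa, pb, hA, hB, hx, hx', hd, rfl, rfl⟩ := h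
  rw [Finset.coe_insert, Finset.coe_union] at hi
  have hiA : Set.InjOn f A := hi.mono fun a ha => Or.inr (Or.inl ha)
  have hiB : Set.InjOn f B := hi.mono fun a ha => Or.inr (Or.inr ha)
  refine ⟨A.image f, B.image f, pa.map f, pb.map f, slot_mapOn f hf hiA hA,
    slot_mapOn f hf hiB hB, ?_, ?_, ?_, ?_, by simp⟩
  · intro h
    obtain ⟨a, ha, hax⟩ := Finset.mem_image.mp h
    have := hi (Or.inr (Or.inl ha)) (Or.inl rfl) hax
    exact hx (this ▸ ha)
  · intro h
    obtain ⟨a, ha, hax⟩ := Finset.mem_image.mp h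
    have := hi (Or.inr (Or.inr ha)) (Or.inl rfl) hax
    exact hx' (this ▸ ha)
  · rw [Finset.disjoint_left]
    intro w hw hw'
    obtain ⟨a, ha, rfl⟩ := Finset.mem_image.mp hw
    obtain ⟨b, hb, hab⟩ := Finset.mem_image.mp hw'
    have := hi (Or.inr (Or.inr hb)) (Or.inr (Or.inl ha)) hab
    exact Finset.disjoint_left.mp hd ha (this ▸ hb)
  · rw [Finset.image_insert, Finset.image_union]

/-- Transport of facts along a map which is bijective from `D` to everything. -/
theorem SF.mapOn {adj : V → V → Prop} {adj' : W → W → Prop}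
    (f : V → W) (g : W → V) (hf : ∀ a b, adj a b → adj' (f a) (f b)) (D : Set V)
    (hgf : ∀ v ∈ D, g (f v) = v) {X O : Set V} (hX : X ⊆ D) (hO : O ⊆ D)
    {ms : List (Mk V)} (hms : ∀ m ∈ ms, m.p ∈ D)
    (h : SF adj X O ms) : SF adj' (f '' X) (f '' O) (ms.map (Mk.map f)) := by
  intro τ hτ
  have hinj : Set.InjOn f D := fun a ha b hb hab => by
    rw [← hgf a ha, ← hgf b hb, hab]
  obtain ⟨A, q, hA, hAd⟩ := h (fun v => τ (f v)) (by
    intro m hm
    obtain ⟨h1, h2, h3⟩ := hτ (m.map f) (List.mem_map_of_mem hm)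
    refine ⟨h1, ?_, ?_⟩
    · rcases h2 with h2 | h2
      · exact Or.inl (Set.image_eq_empty.mp h2)
      · exact Or.inr h2
    · intro hm'
      exact h3 ⟨m.p, hm', rfl⟩)
  refine ⟨fun w => (A (g w)).image f, fun w => (q (g w)).map f, ?_, ?_⟩
  · intro m' hm'
    obtain ⟨m, hm, rfl⟩ := List.mem_map.mp hm'
    have h1 := hA m hm
    have hAD : Set.InjOn f (A m.p) := hinj.mono fun a ha => hX (h1.2.1 a ha)
    have h2 := root_mapOn (adj' := adj') f hf hAD h1.1
    show Root adj' (τ (f m.p)).1 (τ (f m.p)).2 (f m.p) ((A (g (f m.p))).image f)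
      ((q (g (f m.p))).map f) ∧ (∀ v ∈ (A (g (f m.p))).image f, v ∈ f '' X) ∧
      ∀ v ∈ (q (g (f m.p))).map f, v ∉ f '' O
    rw [hgf _ (hms m hm)]
    refine ⟨h2, ?_, ?_⟩
    · intro v hv
      obtain ⟨w, hw, rfl⟩ := Finset.mem_image.mp hv
      exact ⟨w, h1.2.1 w hw, rfl⟩
    · intro v hv hvO
      obtain ⟨w, hw, rfl⟩ := List.mem_map.mp hv
      obtain ⟨u, hu, huw⟩ := hvO
      have hw2 : w ∈ A m.p := (root_mem h1.1).1 w hw
      rw [hinj (hO hu) (hX (h1.2.1 w hw2)) huw] at hu
      exact h1.2.2 w hw hu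
  · intro m1' hm1' m2' hm2' hne
    obtain ⟨m1, hm1, rfl⟩ := List.mem_map.mp hm1'
    obtain ⟨m2, hm2, rfl⟩ := List.mem_map.mp hm2'
    show Disjoint ((A (g (f m1.p))).image f) ((A (g (f m2.p))).image f)
    rw [hgf _ (hms m1 hm1), hgf _ (hms m2 hm2)]
    have h3 := hAd m1 hm1 m2 hm2 (fun h => hne (congrArg f h))
    rw [Finset.disjoint_left]
    intro w hw hw'
    obtain ⟨a, ha, rfl⟩ := Finset.mem_image.mp hw
    obtain ⟨b, hb, hab⟩ := Finset.mem_image.mp hw'
    have := hinj (hX ((hA m2 hm2).2.1 b hb)) (hX ((hA m1 hm1).2.1 a ha)) hab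
    exact Finset.disjoint_left.mp h3 ha (this ▸ hb)

end mapOn

/-- vertex of the cube with given bit string -/
def decV (m : ℕ) (v : ℕ) : Fin m → Bool := fun i => v.testBit i

/-- bit string of a vertex -/
def encV {m : ℕ} (x : Fin m → Bool) : ℕ := Nat.ofBits x

theorem encV_lt {m : ℕ} (x : Fin m → Bool) : encV x < 2 ^ m := Nat.ofBits_lt_two_pow x

theorem dec_enc {m : ℕ} (x : Fin m → Bool) : decV m (encV x) = x := by
  ext i
  unfold decV encV
  rw [Nat.testBit_ofBits_lt _ _ i.2]

theorem enc_dec {m v : ℕ} (hv : v < 2 ^ m) : encV (decV m v) = v := by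
  apply Nat.eq_of_testBit_eq
  intro i
  unfold encV
  by_cases hi : i < m
  · rw [Nat.testBit_ofBits_lt _ _ hi]; rfl
  · rw [Nat.testBit_ofBits_ge _ _ (by omega)]
    push Not at hi
    rw [Nat.testBit_lt_two_pow (lt_of_lt_of_le hv (Nat.pow_le_pow_right (by norm_num) hi))]

theorem cadj_dec {m a b : ℕ} (h : ncadj m a b) : cadj m (decV m a) (decV m b) := by
  obtain ⟨i, hi, rfl⟩ := h
  rw [cadj_iff]
  refine ⟨⟨i, hi⟩, ?_⟩
  ext j
  unfold decV flip
  rw [Nat.testBit_xor, Nat.testBit_two_pow]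
  by_cases hj : j = ⟨i, hi⟩
  · subst hj
    rw [Function.update_self]
    simp
  · rw [Function.update_of_ne hj]
    have : ¬ i = (j : ℕ) := fun h => hj (Fin.ext h.symm)
    simp [this]

/-- facts for bit strings give facts for the cube -/
theorem NF.toFin {m : ℕ} {X O : ℕ} (hX : X < 2 ^ 2 ^ m) (hO : O < 2 ^ 2 ^ m) {ms : List (Mk ℕ)}
    (hms : ∀ a ∈ ms, a.p < 2 ^ m) (h : NF m X O ms) :
    SF (cadj m) (decV m '' msk X) (decV m '' msk O) (ms.map (Mk.map (decV m))) := by
  have hm : ∀ Y : ℕ, Y < 2 ^ 2 ^ m → msk Y ⊆ {v | v < 2 ^ m} := by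
    intro Y hY v hv
    rw [mem_msk] at hv
    by_contra hc
    have hc' : 2 ^ m ≤ v := by simpa using hc
    rw [Nat.testBit_lt_two_pow (lt_of_lt_of_le hY (Nat.pow_le_pow_right (by norm_num) hc'))] at hv
    simp at hv
  exact SF.mapOn (decV m) encV (fun a b => cadj_dec) {v | v < 2 ^ m} (fun v hv => enc_dec hv)
    (hm X hX) (hm O hO) hms h

/-- hard facts of `Q_5` for lists of marks -/
theorem CM.toHF {S N : ℕ} (h : CM S N) (hS : S < 2 ^ 32) (ms : List ((Fin 5 → Bool) × ℕ))
    (hnd : (ms.map Prod.fst).Nodup) (hms : ∀ z, z ∈ ms.map (fun a => encV a.1) ↔ S.testBit z = true)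
    (hN : (ms.map Prod.snd).sum ≤ N) : HF (cadj 5) Finset.univ ms := by
  classical
  by_cases hz : ∀ a ∈ ms, 1 ≤ a.2
  · -- the size at a position
    let k : ℕ → ℕ := fun v => match ms.find? (fun a => encV a.1 = v) with
      | some a => a.2 - 1
      | none => 0
    have hinj : Function.Injective (encV (m := 5)) := fun a b hab => by
      rw [← dec_enc a, hab, dec_enc]
    have hk : ∀ a ∈ ms, k (encV a.1) + 1 = a.2 := by
      intro a ha
      have h1 : ∃ b, ms.find? (fun a' => encV a'.1 = encV a.1) = some b := by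
        rw [← Option.isSome_iff_exists, List.find?_isSome]
        exact ⟨a, ha, by simp⟩
      obtain ⟨b, hb⟩ := h1
      have hb1 := List.mem_of_find?_eq_some hb
      have hb2 : encV b.1 = encV a.1 := by simpa using List.find?_some hb
      have hba : b = a := List.inj_on_of_nodup_map hnd hb1 ha (hinj hb2)
      show (match ms.find? (fun a' => encV a'.1 = encV a.1) with
        | some a => a.2 - 1
        | none => 0) + 1 = a.2
      rw [hb, hba]
      have := hz a ha
      show a.2 - 1 + 1 = a.2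
      omega
    have hnd2 : (ms.map (fun a => encV a.1)).Nodup := by
      have : ms.map (fun a => encV a.1) = (ms.map Prod.fst).map encV := by
        rw [List.map_map]; rfl
      rw [this]
      exact hnd.map hinj
    have h1 := CM.to_list h (ms.map (fun a => encV a.1)) hnd2 hms hS k (by
      rw [List.map_map]
      have : ms.map ((fun z => k z + 1) ∘ fun a => encV a.1) = ms.map Prod.snd :=
        List.map_congr_left fun a ha => hk a ha
      rw [this]; exact hN)
    have h2 := NF.toFin (m := 5) (by norm_num) (by norm_num) (by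
      intro a ha
      obtain ⟨z, hz', rfl⟩ := List.mem_map.mp ha
      obtain ⟨b, _, rfl⟩ := List.mem_map.mp hz'
      exact encV_lt b.1) h1
    rw [msk_zero, Set.image_empty] at h2
    have h3 := SF.toHF (F := Finset.univ) (fun v _ => Finset.mem_univ v) h2 (by
      rw [List.map_map, List.map_map, List.map_map]
      have : ms.map (((Mk.p ∘ Mk.map (decV 5)) ∘ fun z => (⟨z, k z, 0⟩ : Mk ℕ)) ∘
          fun a => encV a.1) = ms.map Prod.fst := by
        refine List.map_congr_left fun a _ => ?_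
        exact dec_enc a.1
      rw [this]
      exact hnd)
    rw [List.map_map, List.map_map, List.map_map] at h3
    have h4 : ms.map ((((fun m : Mk (Fin 5 → Bool) => (m.p, m.k + 1)) ∘ Mk.map (decV 5)) ∘
        fun z => (⟨z, k z, 0⟩ : Mk ℕ)) ∘ fun a => encV a.1) = ms := by
      conv_rhs => rw [← List.map_id ms]
      refine List.map_congr_left fun a ha => ?_
      show (decV 5 (encV a.1), k (encV a.1) + 1) = a
      rw [dec_enc, hk a ha]
    rw [h4] at h3
    exact h3
  · push Not at hz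
    obtain ⟨a, ha, ha1⟩ := hz
    intro Ts hTs
    exfalso
    obtain ⟨i, hi, rfl⟩ := List.getElem_of_mem ha
    rw [List.forall₂_iff_get] at hTs
    have h1 := (hTs.2 i (hTs.1 ▸ hi) hi).2
    simp only [List.get_eq_getElem] at h1
    unfold RT.size at h1
    omega

end Pool.Agent.Work.MP_bf01b2_co.MR
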