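import Pool.Agent.Work.MP_bf01b2_co.MR.B5Chain
import Pool.Agent.Work.MP_bf01b2_co.MR.B5Fin

/-!
# Hard facts of `Q_5`: reduction of the position sets to representatives
-/

set_option autoImplicit false

namespace Pool.Agent.Work.MP_bf01b2_co.MR

namespace Tab

/-- the mask of a list of positions -/
noncomputable def maskL (zs : List ℕ) : ℕ :=
  List.rec (motive := fun _ => ℕ) 0 (fun z _ m => Nat.lor (Nat.pow 2 z) m) zs

theorem testBit_maskL : ∀ {zs : List ℕ} {z : ℕ}, (maskL zs).testBit z = true ↔ z ∈ zs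
  | [], z => by
    have : maskL [] = 0 := rfl
    simp [this]
  | a :: zs, z => by
    have : maskL (a :: zs) = 2 ^ a ||| maskL zs := rfl
    rw [this, Nat.testBit_or, Nat.testBit_two_pow, Bool.or_eq_true, testBit_maskL,
      List.mem_cons, decide_eq_true_eq, eq_comm]

theorem maskL_lt : ∀ {zs : List ℕ}, (∀ z ∈ zs, z < 32) → maskL zs < 2 ^ 32
  | [], _ => by
    have : maskL [] = 0 := rfl
    rw [this]; norm_num
  | a :: zs, h => by
    have : maskL (a :: zs) = 2 ^ a ||| maskL zs := rfl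
    rw [this]
    exact Nat.or_lt_two_pow (Nat.pow_lt_pow_right (by norm_num) (h a List.mem_cons_self))
      (maskL_lt fun z hz => h z (List.mem_cons_of_mem _ hz))

theorem maskL_congr {zs zs' : List ℕ} (h : ∀ z, z ∈ zs ↔ z ∈ zs') : maskL zs = maskL zs' := by
  apply Nat.eq_of_testBit_eq
  intro i
  rw [Bool.eq_iff_iff, testBit_maskL, testBit_maskL]
  exact h i

/-- from a class certificate to the fact for the mask -/
theorem CM.of_cls {N : ℕ} {zs : List ℕ} (hnd : zs.Nodup) (hz : ∀ z ∈ zs, z < 32)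
    (h : ∀ k : ℕ → ℕ, (zs.map fun z => k z + 1).sum ≤ N → NF 5 FULL 0 (mkL k zs)) :
    CM (maskL zs) N :=
  CM.of_list zs hnd (fun _ => testBit_maskL.symm) (maskL_lt hz) h

theorem CM.sw1 {S N v : ℕ} (hv : v < 16) (hS : S < 2 ^ 32) (h : CM S N) :
    sw1 v S < 2 ^ 32 ∧ CM (sw1 v S) N := by
  by_cases h1 : 1 ≤ v ∧ v ≤ 10
  · obtain ⟨i, j, hij, hj, hs⟩ := sw1_swap v h1.1 h1.2
    rw [hs S]
    exact ⟨swapM_lt hij hj, CM.swap hij hj hS h⟩
  · rw [sw1_id (by omega) hv hS]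
    exact ⟨hS, h⟩

theorem CM.sw4 {S N s : ℕ} (hS : S < 2 ^ 32) (h : CM S N) :
    sw4 s S < 2 ^ 32 ∧ CM (sw4 s S) N := by
  have h1 := CM.sw1 (land15_lt s) hS h
  have h2 := CM.sw1 (land15_lt (Nat.shiftRight s 4)) h1.1 h1.2
  have h3 := CM.sw1 (land15_lt (Nat.shiftRight s 8)) h2.1 h2.2
  exact CM.sw1 (land15_lt (Nat.shiftRight s 12)) h3.1 h3.2

theorem CM.fl1 {S N r i : ℕ} (hi : i < 5) (hS : S < 2 ^ 32) (h : CM S N) :
    fl1 (lowM i) (2 ^ i) r S < 2 ^ 32 ∧ CM (fl1 (lowM i) (2 ^ i) r S) N ∧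
      ∀ zs, S = maskL zs → fl1 (lowM i) (2 ^ i) r S = maskL (zs.map fun z => z ^^^ (r &&& 2 ^ i)) := by
  have e0 : Nat.land r (2 ^ i) = r &&& 2 ^ i := rfl
  rcases and_two_pow_cases r i with h1 | h1
  · have e : Tab.fl1 (lowM i) (2 ^ i) r S = S := by
      unfold Tab.fl1
      rw [e0, h1]
      rfl
    rw [e]
    refine ⟨hS, h, ?_⟩
    intro zs hzs
    rw [h1, hzs]
    congr 1
    conv_lhs => rw [← List.map_id zs]
    refine List.map_congr_left fun z _ => by rw [Nat.xor_zero]; rfl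
  · have e : Tab.fl1 (lowM i) (2 ^ i) r S = flipM i S := by
      unfold Tab.fl1
      have h2 : Nat.beq (2 ^ i) 0 = false := by
        have : 2 ^ i ≠ 0 := by positivity
        cases h3 : Nat.beq (2 ^ i) 0 with
        | false => rfl
        | true => exact absurd (Nat.eq_of_beq_eq_true h3) this
      rw [e0, h1, h2]
      rfl
    rw [e]
    refine ⟨flipM_lt hi, CM.flip hi hS h, ?_⟩
    intro zs hzs
    rw [h1]
    apply Nat.eq_of_testBit_eq
    intro v
    rw [Bool.eq_iff_iff, testBit_maskL]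
    have h2 := testBit_flipM hi hS (flipV i v)
    rw [flipV_flipV] at h2
    rw [h2, hzs, testBit_maskL, List.mem_map]
    constructor
    · intro h3
      exact ⟨_, h3, by
        show flipV i (flipV i v) = v
        exact flipV_flipV i v⟩
    · rintro ⟨z, hz, rfl⟩
      have : flipV i (z ^^^ 2 ^ i) = z := flipV_flipV i z
      rw [this]; exact hz

theorem xor_parts : ∀ r < 32, ∀ z < 32, z ^^^ (r &&& 2 ^ 0) ^^^ (r &&& 2 ^ 1) ^^^ (r &&& 2 ^ 2) ^^^
    (r &&& 2 ^ 3) ^^^ (r &&& 2 ^ 4) = z ^^^ r := by decide +kernel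

theorem CM.tr {S N r : ℕ} (hr : r < 32) (hS : S < 2 ^ 32) (h : CM S N) :
    tr r S < 2 ^ 32 ∧ CM (tr r S) N ∧ ∀ zs, (∀ z ∈ zs, z < 32) → S = maskL zs →
      tr r S = maskL (zs.map fun z => z ^^^ r) := by
  have h1 := CM.fl1 (i := 0) (r := r) (by norm_num) hS h
  have h2 := CM.fl1 (i := 1) (r := r) (by norm_num) h1.1 h1.2.1
  have h3 := CM.fl1 (i := 2) (r := r) (by norm_num) h2.1 h2.2.1
  have h4 := CM.fl1 (i := 3) (r := r) (by norm_num) h3.1 h3.2.1
  have h5 := CM.fl1 (i := 4) (r := r) (by norm_num) h4.1 h4.2.1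
  refine ⟨h5.1, h5.2.1, ?_⟩
  intro zs hz hzs
  have e := h5.2.2 _ (h4.2.2 _ (h3.2.2 _ (h2.2.2 _ (h1.2.2 zs hzs))))
  rw [List.map_map, List.map_map, List.map_map, List.map_map] at e
  refine e.trans ?_
  congr 1
  refine List.map_congr_left fun z hz' => ?_
  exact xor_parts r hr z (hz z hz')

/-- the mask number `i` of a packed list of masks -/
def rep (R i : ℕ) : ℕ := Nat.land (Nat.shiftRight R (Nat.mul 32 i)) 4294967295

theorem rep_lt (R i : ℕ) : rep R i < 2 ^ 32 := by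
  unfold rep
  have h : Nat.land (Nat.shiftRight R (Nat.mul 32 i)) 4294967295 ≤ 4294967295 := Nat.and_le_right
  omega

/-- `e` codes a representative (6 bits), exchanges (16 bits) and a translation which produce the
mask of `zs` -/
noncomputable def gd (R M : ℕ) (zs : List ℕ) (e : ℕ) : Bool :=
  cj (Nat.ble (Nat.succ (Nat.land e 63)) M)
    (cj (Nat.ble (Nat.succ (Nat.shiftRight e 22)) 32)
      (Nat.beq (Tab.tr (Nat.shiftRight e 22)
        (Tab.sw4 (Nat.land (Nat.shiftRight e 6) 65535) (rep R (Nat.land e 63)))) (maskL zs)))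

theorem gd_ok {R M N : ℕ} (hR : ∀ i < M, CM (rep R i) N) {zs : List ℕ} {e : ℕ}
    (h : gd R M zs e = true) : CM (maskL zs) N := by
  unfold gd at h
  rw [cj_iff, cj_iff] at h
  obtain ⟨h1, h2, h3⟩ := h
  have h4 := CM.sw4 (s := Nat.land (Nat.shiftRight e 6) 65535) (rep_lt R _)
    (hR _ (lt_of_succ_ble h1))
  have h5 := CM.tr (lt_of_succ_ble h2) h4.1 h4.2
  rw [← Nat.eq_of_beq_eq_true h3]
  exact h5.2.1

/-- all pairs -/
noncomputable def all2 (R M : ℕ) (D : List ℕ) : Bool := lp 32 (fun e b => gd R M [0, b] e) D 1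

/-- all triples -/
noncomputable def all3 (R M : ℕ) (D : List (List ℕ)) : Bool :=
  lp 32 (fun D' b => lp 32 (fun e c => gd R M [0, b, c] e) D' (Nat.succ b)) D 1

/-- all quadruples -/
noncomputable def all4 (R M : ℕ) (D : List (List (List ℕ))) : Bool :=
  lp 32 (fun D' b => lp 32 (fun D'' c => lp 32 (fun e d => gd R M [0, b, c, d] e) D''
    (Nat.succ c)) D' (Nat.succ b)) D 1

theorem all2_ok {R M N : ℕ} (hR : ∀ i < M, CM (rep R i) N) {D : List ℕ} (h : all2 R M D = true)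
    {b : ℕ} (h0 : 0 < b) (hb : b < 32) : CM (maskL [0, b]) N := by
  obtain ⟨e, he⟩ := lp_ok h b h0 hb
  exact gd_ok hR he

theorem all3_ok {R M N : ℕ} (hR : ∀ i < M, CM (rep R i) N) {D : List (List ℕ)}
    (h : all3 R M D = true) {b c : ℕ} (h0 : 0 < b) (hbc : b < c) (hc : c < 32) :
    CM (maskL [0, b, c]) N := by
  obtain ⟨D', hD'⟩ := lp_ok h b h0 (by omega)
  obtain ⟨e, he⟩ := lp_ok hD' c hbc hc
  exact gd_ok hR he

theorem all4_ok {R M N : ℕ} (hR : ∀ i < M, CM (rep R i) N) {D : List (List (List ℕ))}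
    (h : all4 R M D = true) {b c d : ℕ} (h0 : 0 < b) (hbc : b < c) (hcd : c < d) (hd : d < 32) :
    CM (maskL [0, b, c, d]) N := by
  obtain ⟨D', hD'⟩ := lp_ok h b h0 (by omega)
  obtain ⟨D'', hD''⟩ := lp_ok hD' c hbc (by omega)
  obtain ⟨e, he⟩ := lp_ok hD'' d hcd hd
  exact gd_ok hR he

/-- translation to the origin -/
theorem CM.shift {N p : ℕ} (hp : p < 32) {qs : List ℕ} (hq : ∀ q ∈ qs, q < 32)
    (h : CM (maskL (0 :: qs.map fun q => q ^^^ p)) N) : CM (maskL (p :: qs)) N := by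
  have hz : ∀ z ∈ 0 :: qs.map (fun q => q ^^^ p), z < 32 := by
    intro z hz
    rcases List.mem_cons.mp hz with rfl | hz
    · norm_num
    · obtain ⟨q, hq', rfl⟩ := List.mem_map.mp hz
      exact Nat.xor_lt_two_pow (n := 5) (hq q hq') hp
  obtain ⟨_, h1, h2⟩ := CM.tr hp (maskL_lt hz) h
  have h3 := h2 _ hz rfl
  rw [h3] at h1
  rw [List.map_cons, List.map_map, Nat.zero_xor] at h1
  have h4 : qs.map ((fun z => z ^^^ p) ∘ fun q => q ^^^ p) = qs := by
    conv_rhs => rw [← List.map_id qs]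
    refine List.map_congr_left fun q _ => ?_
    show (q ^^^ p) ^^^ p = q
    rw [Nat.xor_assoc, Nat.xor_self, Nat.xor_zero]
  rwa [h4] at h1

theorem xor_pos {p q : ℕ} (h : q ≠ p) : 0 < q ^^^ p := by
  rw [Nat.pos_iff_ne_zero]
  intro e
  exact h (Nat.xor_eq_zero_iff.mp e)

theorem xor_ne {p q q' : ℕ} (h : q ≠ q') : q ^^^ p ≠ q' ^^^ p :=
  fun e => h (Nat.xor_left_injective e)

theorem pair_ok {N : ℕ} (h : ∀ b, 0 < b → b < 32 → CM (maskL [0, b]) N) {p q : ℕ} (hp : p < 32)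
    (hq : q < 32) (hpq : q ≠ p) : CM (maskL [p, q]) N := by
  refine CM.shift (qs := [q]) hp (by simpa using hq) ?_
  exact h _ (xor_pos hpq) (Nat.xor_lt_two_pow (n := 5) hq hp)

theorem triple_ok {N : ℕ} (h : ∀ b c, 0 < b → b < c → c < 32 → CM (maskL [0, b, c]) N)
    {p q r : ℕ} (hp : p < 32) (hq : q < 32) (hr : r < 32) (hpq : q ≠ p) (hpr : r ≠ p)
    (hqr : q ≠ r) : CM (maskL [p, q, r]) N := by
  refine CM.shift (qs := [q, r]) hp (by
    intro z hz
    simp only [List.mem_cons, List.not_mem_nil, or_false] at hz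
    rcases hz with rfl | rfl <;> assumption) ?_
  show CM (maskL [0, q ^^^ p, r ^^^ p]) N
  have a1 := xor_pos hpq
  have a2 := xor_pos hpr
  have b1 := Nat.xor_lt_two_pow (n := 5) hq hp
  have b2 := Nat.xor_lt_two_pow (n := 5) hr hp
  have c1 := xor_ne (p := p) hqr
  generalize q ^^^ p = x at *
  generalize r ^^^ p = y at *
  rcases lt_or_gt_of_ne c1 with h1 | h1
  · exact h x y a1 h1 b2
  · rw [maskL_congr (zs' := [0, y, x]) (by intro z; simp only [List.mem_cons, List.not_mem_nil]; tauto)]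
    exact h y x a2 h1 b1

theorem quad_ok {N : ℕ}
    (h : ∀ b c d, 0 < b → b < c → c < d → d < 32 → CM (maskL [0, b, c, d]) N)
    {p q r s : ℕ} (hp : p < 32) (hq : q < 32) (hr : r < 32) (hs : s < 32) (hpq : q ≠ p)
    (hpr : r ≠ p) (hps : s ≠ p) (hqr : q ≠ r) (hqs : q ≠ s) (hrs : r ≠ s) :
    CM (maskL [p, q, r, s]) N := by
  refine CM.shift (qs := [q, r, s]) hp (by
    intro z hz
    simp only [List.mem_cons, List.not_mem_nil, or_false] at hz
    rcases hz with rfl | rfl | rfl <;> assumption) ?_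
  show CM (maskL [0, q ^^^ p, r ^^^ p, s ^^^ p]) N
  have a1 := xor_pos hpq
  have a2 := xor_pos hpr
  have a3 := xor_pos hps
  have b1 := Nat.xor_lt_two_pow (n := 5) hq hp
  have b2 := Nat.xor_lt_two_pow (n := 5) hr hp
  have b3 := Nat.xor_lt_two_pow (n := 5) hs hp
  have c1 := xor_ne (p := p) hqr
  have c2 := xor_ne (p := p) hqs
  have c3 := xor_ne (p := p) hrs
  generalize q ^^^ p = x at *
  generalize r ^^^ p = y at *
  generalize s ^^^ p = w at *
  rcases lt_or_gt_of_ne c1 with h1 | h1 <;> rcases lt_or_gt_of_ne c2 with h2 | h2 <;>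
    rcases lt_or_gt_of_ne c3 with h3 | h3
  · exact h x y w a1 h1 h3 b3
  · rw [maskL_congr (zs' := [0, x, w, y]) (by intro z; simp only [List.mem_cons, List.not_mem_nil]; tauto)]
    exact h x w y a1 h2 h3 b2
  · omega
  · rw [maskL_congr (zs' := [0, w, x, y]) (by intro z; simp only [List.mem_cons, List.not_mem_nil]; tauto)]
    exact h w x y a3 h2 h1 b2
  · rw [maskL_congr (zs' := [0, y, x, w]) (by intro z; simp only [List.mem_cons, List.not_mem_nil]; tauto)]
    exact h y x w a2 h1 h2 b3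
  · omega
  · rw [maskL_congr (zs' := [0, y, w, x]) (by intro z; simp only [List.mem_cons, List.not_mem_nil]; tauto)]
    exact h y w x a2 h3 h2 b1
  · rw [maskL_congr (zs' := [0, w, y, x]) (by intro z; simp only [List.mem_cons, List.not_mem_nil]; tauto)]
    exact h w y x a3 h3 h1 b1

/-- From masks to lists of marks in the cube. -/
theorem CM.toHF' {N : ℕ} (ms : List ((Fin 5 → Bool) × ℕ)) (hnd : (ms.map Prod.fst).Nodup)
    (hN : (ms.map Prod.snd).sum ≤ N) (h : CM (maskL (ms.map fun a => encV a.1)) N) :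
    HF (cadj 5) Finset.univ ms :=
  CM.toHF h (maskL_lt (by
    intro z hz
    obtain ⟨a, _, rfl⟩ := List.mem_map.mp hz
    exact encV_lt a.1)) ms hnd (fun _ => testBit_maskL.symm) hN

theorem encV_ne {x y : Fin 5 → Bool} (h : x ≠ y) : encV x ≠ encV y := fun e =>
  h (by rw [← dec_enc x, e, dec_enc])

/-- The hard facts of `Q_5` for at most four roots. -/
theorem base_of {N₁ N₂ N₃ N₄ : ℕ}
    (h1 : CM (maskL [0]) N₁)
    (h2 : ∀ b, 0 < b → b < 32 → CM (maskL [0, b]) N₂)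
    (h3 : ∀ b c, 0 < b → b < c → c < 32 → CM (maskL [0, b, c]) N₃)
    (h4 : ∀ b c d, 0 < b → b < c → c < d → d < 32 → CM (maskL [0, b, c, d]) N₄)
    (ms : List ((Fin 5 → Bool) × ℕ)) (hnd : (ms.map Prod.fst).Nodup)
    (h : ms.length = 0 ∨ (ms.length = 1 ∧ (ms.map Prod.snd).sum ≤ N₁) ∨
      (ms.length = 2 ∧ (ms.map Prod.snd).sum ≤ N₂) ∨
      (ms.length = 3 ∧ (ms.map Prod.snd).sum ≤ N₃) ∨
      (ms.length = 4 ∧ (ms.map Prod.snd).sum ≤ N₄)) :
    HF (cadj 5) Finset.univ ms := by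
  rcases h with h | ⟨h, hN⟩ | ⟨h, hN⟩ | ⟨h, hN⟩ | ⟨h, hN⟩
  · have : ms = [] := List.eq_nil_of_length_eq_zero h
    subst this
    intro Ts hTs
    cases hTs
    exact ⟨∅, [], ⟨rfl, rfl⟩, by simp⟩
  · obtain ⟨a, rfl⟩ := List.length_eq_one_iff.mp h
    refine CM.toHF' [a] hnd hN ?_
    exact CM.shift (qs := []) (encV_lt a.1) (by simp) h1
  · match ms, h with
    | [a, b], _ =>
      have hab : a.1 ≠ b.1 := by
        simp only [List.map_cons, List.map_nil, List.nodup_cons, List.mem_cons,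
          List.not_mem_nil, or_false] at hnd
        exact hnd.1
      refine CM.toHF' [a, b] hnd hN ?_
      exact pair_ok h2 (encV_lt a.1) (encV_lt b.1) (encV_ne hab.symm)
  · match ms, h with
    | [a, b, c], _ =>
      have hd : (a.1 ≠ b.1 ∧ a.1 ≠ c.1) ∧ b.1 ≠ c.1 := by
        simp only [List.map_cons, List.map_nil, List.nodup_cons, List.mem_cons,
          List.not_mem_nil, or_false, not_or] at hnd
        exact ⟨hnd.1, hnd.2.1⟩
      refine CM.toHF' [a, b, c] hnd hN ?_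
      exact triple_ok h3 (encV_lt a.1) (encV_lt b.1) (encV_lt c.1) (encV_ne hd.1.1.symm)
        (encV_ne hd.1.2.symm) (encV_ne hd.2)
  · match ms, h with
    | [a, b, c, d], _ =>
      have hd : (a.1 ≠ b.1 ∧ a.1 ≠ c.1 ∧ a.1 ≠ d.1) ∧ (b.1 ≠ c.1 ∧ b.1 ≠ d.1) ∧ c.1 ≠ d.1 := by
        simp only [List.map_cons, List.map_nil, List.nodup_cons, List.mem_cons,
          List.not_mem_nil, or_false, not_or] at hnd
        exact ⟨hnd.1, hnd.2.1, hnd.2.2.1⟩
      refine CM.toHF' [a, b, c, d] hnd hN ?_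
      exact quad_ok h4 (encV_lt a.1) (encV_lt b.1) (encV_lt c.1) (encV_lt d.1)
        (encV_ne hd.1.1.symm) (encV_ne hd.1.2.1.symm) (encV_ne hd.1.2.2.symm)
        (encV_ne hd.2.1.1) (encV_ne hd.2.1.2) (encV_ne hd.2.2)

end Tab

end Pool.Agent.Work.MP_bf01b2_co.MR
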