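import Pool.Agent.Work.MP_bf01b2_co.MR.B5Tab

/-!
# Kernel checker for tables of single root facts with soft positions on `Q_5`

The table is a natural number `T`; entry `i` occupies 80 bits: the region `X` (32 bits, it contains the
vertex `0`), the soft positions `O` (32 bits), a number `n` (8 bits) and a number `s` (8 bits); the
claim `GoodS T i` is `NF 5 X O [⟨0, n - 1, s⟩]`. A certificate of an entry is a natural number, 88 bits
for every pair of regions: a number `c` (8 bits), the reference of the smaller child and the reference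
of the larger child (40 bits each: index 16 bits, exchanges 16 bits, direction 5 bits).
-/

namespace Pool.Agent.Work.MP_bf01b2_co.MR

section zero

variable {V : Type*} [DecidableEq V] {adj : V → V → Prop}

/-- Trees without holes do not see the soft positions. -/
theorem SF.zero {X O O' : Set V} {p : V} {k k' s' : ℕ} (h : SF adj X O' [⟨p, k', s'⟩])
    (hk : k ≤ k') (hO : O ≠ ∅) : SF adj X O [⟨p, k, 0⟩] := by
  intro τ hτ
  obtain ⟨h1, h2, _⟩ := hτ ⟨p, k, 0⟩ (by simp)
  have h3 : (τ p).1.holes + (τ p).2.holes = 0 := by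
    rcases h2 with h2 | h2
    · exact absurd h2 hO
    · simpa using h2
  obtain ⟨A, q, hA, hd⟩ := h τ (by
    intro m hm
    rw [List.mem_singleton] at hm
    subst hm
    refine ⟨h1.trans hk, Or.inr (by show (τ p).1.holes + (τ p).2.holes ≤ s'; omega), fun _ => ?_⟩
    have h4 : (τ p).1.holes = 0 ∧ (τ p).2.holes = 0 := by omega
    exact ⟨HT.ne_hole_of_holes h4.1, HT.ne_hole_of_holes h4.2⟩)
  refine ⟨A, q, ?_, ?_⟩
  · intro m hm
    rw [List.mem_singleton] at hm
    subst hm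
    obtain ⟨a1, a2, _⟩ := hA ⟨p, k', s'⟩ (by simp)
    refine ⟨a1, a2, ?_⟩
    obtain ⟨A1, A2, pa, pb, b1, b2, _, _, _, _, b3⟩ := a1
    have e1 := (slot_length b1).1
    have e2 := (slot_length b2).1
    have e3 : (q p).length = 0 := by
      show (q (⟨p, k', s'⟩ : Mk V).p).length = 0
      rw [b3, List.length_append, e1, e2]
      exact h3
    intro v hv
    rw [List.length_eq_zero_iff] at e3
    have hv' : v ∈ q p := hv
    rw [e3] at hv'
    exact absurd hv' (by simp)
  · intro m hm m' hm' hne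
    rw [List.mem_singleton] at hm hm'
    subst hm; subst hm'
    exact absurd rfl hne

/-- Use of a fact for a mark with `σ` holes. -/
theorem SF.use {X O O' : Set V} {p : V} {k k' s' σ : ℕ} (h : SF adj X O' [⟨p, k', s'⟩])
    (hk : k ≤ k') (hO : O ≠ ∅)
    (hc : σ = 0 ∨ ((∀ v ∈ X, v ∈ O → v ∈ O') ∧ p ∉ O' ∧ (O' = ∅ ∨ σ ≤ s'))) :
    SF adj X O [⟨p, k, σ⟩] := by
  rcases hc with rfl | ⟨c1, c2, c3⟩
  · exact h.zero hk hO
  · refine SF.cover [(X, O', [⟨p, k', s'⟩])] (by simpa using h) (by simp) (by simp) ?_ ?_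
    · intro r hr v hv hvO
      rw [List.mem_singleton] at hr
      subst hr
      exact c1 v hv hvO
    · intro m hm
      rw [List.mem_singleton] at hm
      subst hm
      refine ⟨_, List.mem_singleton_self _, ⟨_, List.mem_singleton_self _, rfl⟩, ?_⟩
      intro m' hm' _
      rw [List.mem_singleton] at hm'
      subst hm'
      refine ⟨hk, ?_⟩
      rcases c3 with c3 | c3
      · exact Or.inl c3
      · exact Or.inr ⟨hO, c3, fun hp => absurd hp c2⟩

theorem root_not_mem {l r : HT} {x : V} {S : Finset V} {q : List V} (h : Root adj l r x S q)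
    (hl : l ≠ .hole) (hr : r ≠ .hole) : x ∉ q := by
  obtain ⟨A, B, pa, pb, hA, hB, hx, hx', _, _, rfl⟩ := h
  intro hq
  rcases List.mem_append.mp hq with h' | h'
  · rcases slot_mem hA x h' with ⟨_, h1⟩ | h1
    · exact hl h1
    · exact hx h1
  · rcases slot_mem hB x h' with ⟨_, h1⟩ | h1
    · exact hr h1
    · exact hx' h1

/-- Use of a fact for a mark with `σ` holes; the root may lie on a soft position. -/
theorem SF.useR {X O O' : Set V} {p : V} {k k' s' σ : ℕ} (h : SF adj X O' [⟨p, k', s'⟩])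
    (hk : k ≤ k') (hO : O ≠ ∅)
    (hc : σ = 0 ∨ ((∀ v ∈ X, v ∈ O → v ∈ O' ∨ v = p) ∧ p ∉ O' ∧ (O' = ∅ ∨ σ ≤ s'))) :
    SF adj X O [⟨p, k, σ⟩] := by
  rcases hc with rfl | ⟨c1, c2, c3⟩
  · exact h.zero hk hO
  · intro τ hτ
    obtain ⟨h1, h2, h3⟩ := hτ ⟨p, k, σ⟩ (by simp)
    obtain ⟨A, q, hA, hd⟩ := h τ (by
      intro m hm
      rw [List.mem_singleton] at hm
      subst hm
      refine ⟨h1.trans hk, ?_, fun h4 => absurd h4 c2⟩
      rcases c3 with c3 | c3
      · exact Or.inl c3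
      · rcases h2 with h2 | h2
        · exact absurd h2 hO
        · exact Or.inr (le_trans h2 c3))
    refine ⟨A, q, ?_, ?_⟩
    · intro m hm
      rw [List.mem_singleton] at hm
      subst hm
      obtain ⟨a1, a2, a3⟩ := hA ⟨p, k', s'⟩ (by simp)
      refine ⟨a1, a2, ?_⟩
      intro v hv hvO
      have hv1 := a2 v ((root_mem a1).1 v hv)
      rcases c1 v hv1 hvO with h4 | h4
      · exact a3 v hv h4
      · subst h4
        obtain ⟨h5, h6⟩ := h3 hvO
        exact root_not_mem a1 h5 h6 hv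
    · intro m hm m' hm' hne
      rw [List.mem_singleton] at hm hm'
      subst hm; subst hm'
      exact absurd rfl hne

end zero

/-- Use of a fact for a mark with `σ` holes, bit masks; the root may lie on a soft position. -/
theorem NF.useR {d X O O' p k k' s' σ : ℕ} (h : NF d X O' [⟨p, k', s'⟩])
    (hk : k ≤ k') (hO : O ≠ 0)
    (hc : σ = 0 ∨ (((O &&& X) &&& (O' ||| 2 ^ p)) = (O &&& X) ∧ O'.testBit p = false ∧
      (O' = 0 ∨ σ ≤ s'))) :
    NF d X O [⟨p, k, σ⟩] := by
  refine SF.useR h hk (fun e => hO (msk_eq_empty.mp e)) ?_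
  rcases hc with hc | ⟨c1, c2, c3⟩
  · exact Or.inl hc
  · refine Or.inr ⟨?_, ?_, ?_⟩
    · intro v hv hvO
      have h4 : v ∈ msk ((O &&& X) &&& (O' ||| 2 ^ p)) := by
        rw [c1, msk_and]; exact ⟨hvO, hv⟩
      rw [msk_and, msk_or, msk_single] at h4
      rcases h4.2 with h5 | h5
      · exact Or.inl h5
      · exact Or.inr h5
    · intro hp
      rw [mem_msk, c2] at hp
      simp at hp
    · rcases c3 with c3 | c3
      · left; rw [c3]; exact msk_zero
      · exact Or.inr c3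

/-- Use of a fact for a mark with `σ` holes, bit masks. -/
theorem NF.use {d X O O' p k k' s' σ : ℕ} (h : NF d X O' [⟨p, k', s'⟩])
    (hk : k ≤ k') (hO : O ≠ 0)
    (hc : σ = 0 ∨ (((O &&& X) &&& O') = (O &&& X) ∧ O'.testBit p = false ∧ (O' = 0 ∨ σ ≤ s'))) :
    NF d X O [⟨p, k, σ⟩] := by
  refine SF.use h hk (fun e => hO (msk_eq_empty.mp e)) ?_
  rcases hc with hc | ⟨c1, c2, c3⟩
  · exact Or.inl hc
  · refine Or.inr ⟨?_, ?_, ?_⟩
    · intro v hv hvO
      have h4 : v ∈ msk ((O &&& X) &&& O') := by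
        rw [c1, msk_and]; exact ⟨hvO, hv⟩
      rw [msk_and] at h4
      exact h4.2
    · intro hp
      rw [mem_msk, c2] at hp
      simp at hp
    · rcases c3 with c3 | c3
      · left; rw [c3]; exact msk_zero
      · exact Or.inr c3

/-- larger region -/
theorem NF.larger {d X Y O p k s : ℕ} (h : NF d X O [⟨p, k, s⟩]) (hX : Y &&& X = X) :
    NF d Y O [⟨p, k, s⟩] := by
  refine NF.cover (refs := [⟨X, O, [⟨p, k, s⟩]⟩]) (by simpa [St.Ok] using h) ?_ ?_
  · have e : (O &&& X) &&& O = O &&& X := by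
      rw [Nat.land_comm O X, Nat.land_assoc, Nat.and_self]
    simp [coverB, hX, e]
  · simp only [List.all_cons, List.all_nil, Bool.and_true, servedB, List.any_cons, List.any_nil,
      Bool.or_false, beq_self_eq_true, Bool.true_and, Bool.not_true, Bool.false_or]
    unfold Mk.domB
    simp only [Bool.and_eq_true]
    refine ⟨Nat.ble_eq_true_of_le le_rfl, ?_⟩
    by_cases hO : O = 0
    · simp [hO]
    · cases O.testBit p <;> simp [hO]

/-- two disjoint regions, soft positions -/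
theorem NF.pair {d X X' Y O p p' k k' s s' : ℕ} (h : NF d X O [⟨p, k, s⟩])
    (h' : NF d X' O [⟨p', k', s'⟩]) (hX : Y &&& X = X)
    (hX' : (Y ^^^ X) &&& X' = X') :
    NF d Y O [⟨p, k, s⟩, ⟨p', k', s'⟩] := by
  have dom : ∀ p k s, Mk.domB O O ⟨p, k, s⟩ ⟨p, k, s⟩ = true := by
    intro p k s
    unfold Mk.domB
    simp only [Bool.and_eq_true]
    refine ⟨Nat.ble_eq_true_of_le le_rfl, ?_⟩
    by_cases hO : O = 0
    · simp [hO]
    · cases O.testBit p <;> simp [hO]
  refine NF.cover (refs := [⟨X, O, [⟨p, k, s⟩]⟩, ⟨X', O, [⟨p', k', s'⟩]⟩]) ?_ ?_ ?_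
  · intro r hr
    simp only [List.mem_cons, List.not_mem_nil, or_false] at hr
    rcases hr with rfl | rfl
    · exact h
    · exact h'
  · have e : ∀ Z : ℕ, (O &&& Z) &&& O = O &&& Z := by
      intro Z
      rw [Nat.land_comm O Z, Nat.land_assoc, Nat.and_self]
    simp [coverB, hX, hX', e]
  · simp [servedB, dom]

/-- a fact without soft positions, used with soft positions outside of the region -/
theorem NF.hardUse {d X O p k k' s' σ : ℕ} (h : NF d X 0 [⟨p, k', s'⟩]) (hk : k ≤ k')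
    (hO : O &&& X = 0) : NF d X O [⟨p, k, σ⟩] := by
  refine NF.cover (refs := [⟨X, 0, [⟨p, k', s'⟩]⟩]) (by simpa [St.Ok] using h) ?_ ?_
  · simp [coverB, hO]
  · simp [servedB, Mk.domB, hk]

/-- fewer holes -/
theorem NF.holes {d X O p k s s' : ℕ} (h : NF d X O [⟨p, k, s⟩]) (hs : s' ≤ s) :
    NF d X O [⟨p, k, s'⟩] := by
  refine NF.cover (refs := [⟨X, O, [⟨p, k, s⟩]⟩]) (by simpa [St.Ok] using h) ?_ ?_
  · have e : (O &&& X) &&& O = O &&& X := by
      rw [Nat.land_comm O X, Nat.land_assoc, Nat.and_self]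
    simp [coverB, e]
  · simp only [List.all_cons, List.all_nil, Bool.and_true, servedB, List.any_cons, List.any_nil,
      Bool.or_false, beq_self_eq_true, Bool.true_and, Bool.not_true, Bool.false_or]
    unfold Mk.domB
    simp only [Bool.and_eq_true]
    refine ⟨Nat.ble_eq_true_of_le le_rfl, ?_⟩
    have h1 : s'.ble s = true := Nat.ble_eq_true_of_le hs
    by_cases hO : O = 0
    · simp [hO]
    · cases O.testBit p <;> simp [h1]

namespace Sf

open Tab

/-! ### The entries -/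

/-- region of the entry `i` -/
noncomputable def sX (T i : ℕ) : ℕ :=
  Nat.land (Nat.shiftRight (fN (Nat.shiftRight i 5) (blk T)) (Nat.mul 80 (Nat.land i 31))) 4294967295

/-- soft positions of the entry `i` -/
noncomputable def sO (T i : ℕ) : ℕ :=
  Nat.land (Nat.shiftRight (fN (Nat.shiftRight i 5) (blk T))
    (Nat.add (Nat.mul 80 (Nat.land i 31)) 32)) 4294967295

/-- size bound of the entry `i` -/
noncomputable def sn (T i : ℕ) : ℕ :=
  Nat.land (Nat.shiftRight (fN (Nat.shiftRight i 5) (blk T))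
    (Nat.add (Nat.mul 80 (Nat.land i 31)) 64)) 255

/-- bound for the number of holes of the entry `i` -/
noncomputable def ss (T i : ℕ) : ℕ :=
  Nat.land (Nat.shiftRight (fN (Nat.shiftRight i 5) (blk T))
    (Nat.add (Nat.mul 80 (Nat.land i 31)) 72)) 255

theorem sX_lt (T i : ℕ) : sX T i < 2 ^ 32 := by
  unfold sX
  have h : Nat.land (Nat.shiftRight (fN (Nat.shiftRight i 5) (blk T))
    (Nat.mul 80 (Nat.land i 31))) 4294967295 ≤ 4294967295 := Nat.and_le_right
  omega

theorem sO_lt (T i : ℕ) : sO T i < 2 ^ 32 := by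
  unfold sO
  have h : Nat.land (Nat.shiftRight (fN (Nat.shiftRight i 5) (blk T))
    (Nat.add (Nat.mul 80 (Nat.land i 31)) 32)) 4294967295 ≤ 4294967295 := Nat.and_le_right
  omega

/-- the entry `i` is true -/
def GoodS (T i : ℕ) : Prop := NF 5 (sX T i) (sO T i) [⟨0, sn T i - 1, ss T i⟩]

/-! ### Exchanges and directions -/

theorem sw1_okS {v X O k s : ℕ} (hv : v < 16) (hX : X < 2 ^ 32) (hO : O < 2 ^ 32)
    (h : NF 5 X O [⟨0, k, s⟩]) :
    sw1 v X < 2 ^ 32 ∧ sw1 v O < 2 ^ 32 ∧ NF 5 (sw1 v X) (sw1 v O) [⟨0, k, s⟩] := by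
  by_cases h1 : 1 ≤ v ∧ v ≤ 10
  · obtain ⟨i, j, hij, hj, hs⟩ := sw1_swap v h1.1 h1.2
    rw [hs X, hs O]
    refine ⟨swapM_lt hij hj, swapM_lt hij hj, ?_⟩
    have h2 := NF.swap hij hj hX hO h
    have h4 : List.map (Mk.map (swapV i j)) [(⟨0, k, s⟩ : Mk ℕ)] = [⟨0, k, s⟩] := by
      simp [Mk.map, swapV_zero]
    rwa [h4] at h2
  · have e : sw1 v X = X := sw1_id (by omega) hv hX
    have e' : sw1 v O = O := sw1_id (by omega) hv hO
    rw [e, e']
    exact ⟨hX, hO, h⟩

theorem sw4_okS {v X O k s : ℕ} (hX : X < 2 ^ 32) (hO : O < 2 ^ 32) (h : NF 5 X O [⟨0, k, s⟩]) :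
    sw4 v X < 2 ^ 32 ∧ sw4 v O < 2 ^ 32 ∧ NF 5 (sw4 v X) (sw4 v O) [⟨0, k, s⟩] := by
  have h1 := sw1_okS (land15_lt v) hX hO h
  have h2 := sw1_okS (land15_lt (Nat.shiftRight v 4)) h1.1 h1.2.1 h1.2.2
  have h3 := sw1_okS (land15_lt (Nat.shiftRight v 8)) h2.1 h2.2.1 h2.2.2
  exact sw1_okS (land15_lt (Nat.shiftRight v 12)) h3.1 h3.2.1 h3.2.2

theorem fl1_okS {i r X O p k s : ℕ} (hi : i < 5) (hX : X < 2 ^ 32) (hO : O < 2 ^ 32)
    (h : NF 5 X O [⟨p, k, s⟩]) :
    fl1 (lowM i) (2 ^ i) r X < 2 ^ 32 ∧ fl1 (lowM i) (2 ^ i) r O < 2 ^ 32 ∧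
      NF 5 (fl1 (lowM i) (2 ^ i) r X) (fl1 (lowM i) (2 ^ i) r O) [⟨p ^^^ (r &&& 2 ^ i), k, s⟩] := by
  have e0 : Nat.land r (2 ^ i) = r &&& 2 ^ i := rfl
  rcases and_two_pow_cases r i with h1 | h1
  · have e : ∀ X, fl1 (lowM i) (2 ^ i) r X = X := by
      intro X
      unfold fl1
      rw [e0, h1]
      rfl
    rw [e, e, h1, Nat.xor_zero]
    exact ⟨hX, hO, h⟩
  · have e : ∀ X, fl1 (lowM i) (2 ^ i) r X = flipM i X := by
      intro X
      unfold fl1
      have h2 : Nat.beq (2 ^ i) 0 = false := by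
        have : 2 ^ i ≠ 0 := by positivity
        cases h3 : Nat.beq (2 ^ i) 0 with
        | false => rfl
        | true => exact absurd (Nat.eq_of_beq_eq_true h3) this
      rw [e0, h1, h2]
      rfl
    rw [e, e, h1]
    exact ⟨flipM_lt hi, flipM_lt hi, NF.flip hi hX hO h⟩

theorem tr_okS {r X O k s : ℕ} (hr : r < 32) (hX : X < 2 ^ 32) (hO : O < 2 ^ 32)
    (h : NF 5 X O [⟨0, k, s⟩]) :
    tr r X < 2 ^ 32 ∧ tr r O < 2 ^ 32 ∧ NF 5 (tr r X) (tr r O) [⟨r, k, s⟩] := by
  have h1 := fl1_okS (i := 0) (r := r) (by norm_num) hX hO h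
  have h2 := fl1_okS (i := 1) (r := r) (by norm_num) h1.1 h1.2.1 h1.2.2
  have h3 := fl1_okS (i := 2) (r := r) (by norm_num) h2.1 h2.2.1 h2.2.2
  have h4 := fl1_okS (i := 3) (r := r) (by norm_num) h3.1 h3.2.1 h3.2.2
  have h5 := fl1_okS (i := 4) (r := r) (by norm_num) h4.1 h4.2.1 h4.2.2
  refine ⟨h5.1, h5.2.1, ?_⟩
  have e : ∀ r < 32, 0 ^^^ (r &&& 2 ^ 0) ^^^ (r &&& 2 ^ 1) ^^^ (r &&& 2 ^ 2) ^^^ (r &&& 2 ^ 3) ^^^
      (r &&& 2 ^ 4) = r := by decide +kernel
  have h6 := h5.2.2
  rw [e r hr] at h6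
  exact h6

/-! ### References -/

/-- disjunction (the second member is evaluated only if the first one is false) -/
@[reducible] noncomputable def bo (a b : Bool) : Bool := Bool.rec (motive := fun _ => Bool) b true a

theorem bo_iff {a b : Bool} : bo a b = true ↔ a = true ∨ b = true := by
  cases a <;> simp [bo]

/-- index of a reference -/
noncomputable def ri (r : ℕ) : ℕ := Nat.land r 65535

/-- region of a reference -/
noncomputable def rX (T r : ℕ) : ℕ := sw4 (Nat.land (Nat.shiftRight r 16) 65535) (sX T (ri r))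

/-- exchanges of a set which may be empty -/
noncomputable def swz (v O : ℕ) : ℕ := Bool.rec (motive := fun _ => ℕ) (sw4 v O) 0 (Nat.beq O 0)

/-- soft positions of a reference -/
noncomputable def rO (T r : ℕ) : ℕ := swz (Nat.land (Nat.shiftRight r 16) 65535) (sO T (ri r))

/-- direction of a reference -/
noncomputable def rd (r : ℕ) : ℕ := Nat.land (Nat.shiftRight r 32) 31

/-- region of a child -/
noncomputable def cX (T r : ℕ) : ℕ := fld (rd r) (rX T r)

/-- flip of a set which may be empty -/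
noncomputable def fldz (s X : ℕ) : ℕ := Bool.rec (motive := fun _ => ℕ) (fld s X) 0 (Nat.beq X 0)

/-- soft positions of a child -/
noncomputable def cO (T r : ℕ) : ℕ := fldz (rd r) (rO T r)

theorem sw1_zero (v : ℕ) : sw1 v 0 = 0 := by
  unfold sw1
  cases Nat.beq v 0
  · show Nat.lor (Nat.lor (Nat.land 0 _) (Nat.shiftLeft (Nat.land 0 _) _))
      (Nat.land (Nat.shiftRight 0 _) _) = 0
    have e : ∀ a : ℕ, Nat.land 0 a = 0 := fun a => Nat.zero_and a
    have e2 : ∀ a : ℕ, Nat.shiftRight 0 a = 0 := fun a => Nat.zero_shiftRight a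
    have e3 : ∀ a : ℕ, Nat.shiftLeft 0 a = 0 := fun a => Nat.zero_shiftLeft a
    rw [e, e, e3, e2, e]
    rfl
  · rfl

theorem swz_eq (v O : ℕ) : swz v O = sw4 v O := by
  unfold swz
  cases h : Nat.beq O 0 with
  | false => rfl
  | true =>
    have h1 : O = 0 := Nat.eq_of_beq_eq_true h
    subst h1
    show 0 = sw4 v 0
    unfold sw4
    rw [sw1_zero, sw1_zero, sw1_zero, sw1_zero]

theorem fldz_eq {i : ℕ} (hi : i < 5) (X : ℕ) : fldz (2 ^ i) X = flipM i X := by
  unfold fldz
  cases h : Nat.beq X 0 with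
  | false => exact fld_eq hi X
  | true =>
    have h1 : X = 0 := Nat.eq_of_beq_eq_true h
    subst h1
    show 0 = flipM i 0
    simp [flipM]

theorem ref_okS {T r : ℕ} (h : GoodS T (ri r)) : rX T r < 2 ^ 32 ∧ rO T r < 2 ^ 32 ∧
    NF 5 (rX T r) (rO T r) [⟨0, sn T (ri r) - 1, ss T (ri r)⟩] := by
  unfold rX rO
  rw [swz_eq]
  exact sw4_okS (sX_lt T (ri r)) (sO_lt T (ri r)) h

/-- the root lies in the region -/
theorem mem_of {d X O p k s : ℕ} (h : NF d X O [⟨p, k, s⟩]) : X.testBit p = true := by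
  obtain ⟨A, q, hA, _⟩ := h (fun _ => (.nil, .nil)) (by
    intro m _
    exact Mk.adm_nil _ _)
  obtain ⟨h1, h2, _⟩ := hA ⟨p, k, s⟩ (by simp)
  exact h2 p (root_mem h1).2

/-! ### The use of a fact -/

/-- can a tree with `σ` holes be served by the region `XF` with soft positions `OF` (root not in
`OF` iff `o0 = 0`) and bound `s'`? -/
noncomputable def cnd (O σ XF OF o0 s' : ℕ) : Bool :=
  bo (nd (Nat.beq OF 0) (Nat.beq (Nat.land O XF) 0))
    (nd (Nat.ble 1 O) (bo (Nat.beq σ 0)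
      (nd (Nat.beq (Nat.land (Nat.land O XF) OF) (Nat.land O XF))
        (nd (Nat.beq o0 0) (Nat.ble σ s')))))

theorem cnd_ok {O σ XF OF o0 s' : ℕ} (h : cnd O σ XF OF o0 s' = true) :
    (OF = 0 ∧ O &&& XF = 0) ∨ (O ≠ 0 ∧ (σ = 0 ∨
      (((O &&& XF) &&& OF) = (O &&& XF) ∧ o0 = 0 ∧ σ ≤ s'))) := by
  unfold cnd at h
  rw [bo_iff, nd_iff, nd_iff, bo_iff, nd_iff, nd_iff] at h
  rcases h with ⟨h1, h2⟩ | ⟨h1, h2⟩
  · exact Or.inl ⟨Nat.eq_of_beq_eq_true h1, Nat.eq_of_beq_eq_true h2⟩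
  · right
    have h3 : 1 ≤ O := Nat.le_of_ble_eq_true h1
    refine ⟨by omega, ?_⟩
    rcases h2 with h2 | ⟨h2, h4, h5⟩
    · exact Or.inl (Nat.eq_of_beq_eq_true h2)
    · exact Or.inr ⟨Nat.eq_of_beq_eq_true h2, Nat.eq_of_beq_eq_true h4,
        Nat.le_of_ble_eq_true h5⟩

theorem cnd_use {X O O' p k k' s' σ o0 : ℕ} (h : NF 5 X O' [⟨p, k', s'⟩]) (hk : k ≤ k')
    (ho : o0 = 0 → O'.testBit p = false) (hc : cnd O σ X O' o0 s' = true) :
    NF 5 X O [⟨p, k, σ⟩] ∧ (O.testBit p = false ∨ σ = 0) := by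
  have hX := mem_of h
  rcases cnd_ok hc with ⟨h1, h2⟩ | ⟨h1, h2⟩
  · subst h1
    refine ⟨NF.hardUse h hk h2, Or.inl ?_⟩
    have h3 := congrArg (fun z => z.testBit p) h2
    simp only [Nat.testBit_and, hX, Bool.and_true, Nat.zero_testBit] at h3
    exact h3
  · rcases h2 with h2 | ⟨h2, h3, h4⟩
    · exact ⟨NF.use h hk h1 (Or.inl h2), Or.inr h2⟩
    · have h5 := ho h3
      refine ⟨NF.use h hk h1 (Or.inr ⟨h2, h5, Or.inr h4⟩), Or.inl ?_⟩
      have h6 := congrArg (fun z => z.testBit p) h2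
      simp only [Nat.testBit_and, hX, h5, Bool.and_true, Bool.and_false] at h6
      exact h6.symm

theorem bit0_of {O : ℕ} (h : Nat.land O 1 = 0) : O.testBit 0 = false := by
  have h6 : O &&& 1 = 0 := h
  have h7 : (O &&& 1).testBit 0 = false := by rw [h6]; simp
  rw [Nat.testBit_and] at h7
  simpa using h7

/-- a child of the root with `σ` holes and at most `k` further vertices is served by the
reference `r` -/
theorem child_ok {T r O k σ : ℕ} (h : GoodS T (ri r)) (hd : isDir (rd r) = true)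
    (hk : k ≤ sn T (ri r) - 1)
    (hc : cnd O σ (cX T r) (cO T r) (Nat.land (rO T r) 1) (ss T (ri r)) = true) :
    ∃ i, i < 5 ∧ NF 5 (cX T r) O [⟨2 ^ i, k, σ⟩] ∧ (O.testBit (2 ^ i) = false ∨ σ = 0) := by
  obtain ⟨h1, h2, h3⟩ := ref_okS h
  unfold cX cO at *
  obtain ⟨e, he, hr⟩ := isDir_ok hd
  rw [hr] at hc ⊢
  rw [fld_eq he] at hc ⊢
  rw [fldz_eq he] at hc
  refine ⟨e, he, ?_⟩
  have h4 := NF.flip he h1 h2 h3
  have h5 : List.map (Mk.map (flipV e)) [(⟨0, sn T (ri r) - 1, ss T (ri r)⟩ : Mk ℕ)] =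
      [⟨2 ^ e, sn T (ri r) - 1, ss T (ri r)⟩] := by
    simp [Mk.map, flipV]
  rw [h5] at h4
  refine cnd_use h4 hk ?_ hc
  intro h6
  have h7 := testBit_flipM he h2 0
  have h8 : flipV e 0 = 2 ^ e := by simp [flipV]
  rw [h8, bit0_of h6] at h7
  exact h7

/-! ### The check of an entry -/

/-- the split `b` with `σ` holes in the smaller child is served -/
def Sv (Y O k s b σ : ℕ) : Prop :=
  (b = 0 → σ = 0 → 1 ≤ k → ∃ i, i < 5 ∧ (O.testBit (2 ^ i) = false ∨ s = 0) ∧
    NF 5 Y O [⟨2 ^ i, k - 1, s⟩]) ∧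
  (1 ≤ b → b ≤ k → ∃ i j, i < 5 ∧ j < 5 ∧ i ≠ j ∧ (O.testBit (2 ^ i) = false ∨ s - σ = 0) ∧
    (O.testBit (2 ^ j) = false ∨ σ = 0) ∧
    NF 5 Y O [⟨2 ^ i, k - b - 1, s - σ⟩, ⟨2 ^ j, b - 1, σ⟩])

/-- the larger child alone -/
noncomputable def one (T lim Y O k s H u : ℕ) : Bool :=
  nd (Nat.ble u 1) (nd (Nat.ble (Nat.succ (ri H)) lim) (nd (isDir (rd H))
    (nd (Nat.ble k (sn T (ri H))) (nd (Nat.beq (Nat.land Y (cX T H)) (cX T H))
      (cnd O s (cX T H) (cO T H) (Nat.land (rO T H) 1) (ss T (ri H)))))))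

/-- one pair: the references `L` and `H` serve the numbers `lo, ..., c - 1` of holes in the smaller
child -/
noncomputable def stp (T lim Y O k s L H c t lo u : ℕ) (nx : ℕ → ℕ → ℕ → Bool) : Bool :=
  nd (Nat.ble (Nat.succ (ri L)) lim) (nd (Nat.ble (Nat.succ (ri H)) lim)
  (nd (isDir (rd L)) (nd (isDir (rd H))
  (nd (Nat.ble t (Nat.succ (sn T (ri L))))
  (nd (Nat.ble (Nat.succ lo) c) (nd (Nat.ble c (Nat.succ s))
  (nd (Nat.beq (Nat.land Y (cX T L)) (cX T L))
  (nd (Nat.beq (Nat.land (Nat.xor Y (cX T L)) (cX T H)) (cX T H))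
  (nd (cnd O (Nat.pred c) (cX T L) (cO T L) (Nat.land (rO T L) 1) (ss T (ri L)))
  (nd (cnd O (Nat.sub s lo) (cX T H) (cO T H) (Nat.land (rO T H) 1) (ss T (ri H)))
    (Bool.rec (motive := fun _ => Bool)
      (nx t c (Nat.add u (Nat.sub (Nat.sub k (sn T (ri H))) u)))
      (nx (Nat.add u (Nat.sub (Nat.sub k (sn T (ri H))) u)) 0 0)
      (Nat.beq c (Nat.succ s)))))))))))))

/-- loop over the pairs: all splits `b < t` with at least `lo` holes in the smaller child and all
splits `b < u` have to be served -/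
noncomputable def lpP (T lim Y O k s f : ℕ) : ℕ → ℕ → ℕ → ℕ → Bool :=
  Nat.rec (motive := fun _ => ℕ → ℕ → ℕ → ℕ → Bool) (fun _ _ _ _ => false)
    (fun _ ih C t lo u =>
      bo (nd (Nat.beq t 0) (Nat.beq u 0))
        (Bool.rec (motive := fun _ => Bool)
          (stp T lim Y O k s (Nat.land (Nat.shiftRight C 8) 1099511627775)
            (Nat.land (Nat.shiftRight C 48) 1099511627775) (Nat.land C 255) t lo u
            (ih (Nat.shiftRight C 88)))
          (one T lim Y O k s (Nat.land (Nat.shiftRight C 48) 1099511627775) u)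
          (Nat.ble t 1))) f

theorem one_ok {T lim Y O k s H u : ℕ} (hT : ∀ i < lim, GoodS T i)
    (h : one T lim Y O k s H u = true) {b : ℕ} (hb : b = 0) (σ : ℕ) : Sv Y O k s b σ := by
  subst hb
  refine ⟨fun _ _ hk => ?_, fun h => absurd h (by omega)⟩
  unfold one at h
  simp only [nd_iff] at h
  obtain ⟨_, a2, a3, a4, a5, a6⟩ := h
  have b4 : k ≤ sn T (ri H) := Nat.le_of_ble_eq_true a4
  obtain ⟨i, hi, h1, h2⟩ := child_ok (k := k - 1) (hT _ (lt_of_succ_ble a2)) a3 (by omega) a6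
  exact ⟨i, hi, h2, NF.larger h1 (Nat.eq_of_beq_eq_true a5)⟩

theorem disj_ne {Y XL XH p q : ℕ} (h8 : (Y ^^^ XL) &&& XH = XH) (h7 : Y &&& XL = XL)
    (hp : XL.testBit p = true) (hq : XH.testBit q = true) : p ≠ q := by
  rintro rfl
  have e1 := congrArg (fun z => z.testBit p) h8
  have e2 := congrArg (fun z => z.testBit p) h7
  simp only [Nat.testBit_and, Nat.testBit_xor, hp, hq, Bool.and_true] at e1 e2
  rw [e2] at e1
  simp at e1

theorem lpP_ok {T lim Y O k s : ℕ} (hT : ∀ i < lim, GoodS T i) : ∀ (f C t lo u : ℕ),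
    lpP T lim Y O k s f C t lo u = true →
      (∀ b < t, ∀ σ, lo ≤ σ → σ ≤ s → Sv Y O k s b σ) ∧ (∀ b < u, ∀ σ ≤ s, Sv Y O k s b σ)
  | 0, C, t, lo, u, h => by
    have h' : false = true := h
    exact absurd h' (by simp)
  | f + 1, C, t, lo, u, h => by
    have h' : bo (nd (Nat.beq t 0) (Nat.beq u 0))
        (Bool.rec (motive := fun _ => Bool)
          (stp T lim Y O k s (Nat.land (Nat.shiftRight C 8) 1099511627775)
            (Nat.land (Nat.shiftRight C 48) 1099511627775) (Nat.land C 255) t lo u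
            (lpP T lim Y O k s f (Nat.shiftRight C 88)))
          (one T lim Y O k s (Nat.land (Nat.shiftRight C 48) 1099511627775) u)
          (Nat.ble t 1)) = true := h
    rw [bo_iff, nd_iff] at h'
    generalize Nat.land (Nat.shiftRight C 8) 1099511627775 = L at h'
    generalize Nat.land (Nat.shiftRight C 48) 1099511627775 = H at h'
    generalize Nat.land C 255 = c at h'
    rcases h' with ⟨h1, h2⟩ | h'
    · have h1 : t = 0 := Nat.eq_of_beq_eq_true h1
      have h2 : u = 0 := Nat.eq_of_beq_eq_true h2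
      subst h1; subst h2
      exact ⟨fun b hb => absurd hb (by omega), fun b hb => absurd hb (by omega)⟩
    cases ht : Nat.ble t 1 with
    | true =>
      rw [ht] at h'
      have ht' : t ≤ 1 := Nat.le_of_ble_eq_true ht
      have hu : u ≤ 1 := by
        have h2 := h'
        unfold one at h2
        simp only [nd_iff] at h2
        exact Nat.le_of_ble_eq_true h2.1
      exact ⟨fun b hb σ _ _ => one_ok hT h' (by omega) σ,
        fun b hb σ _ => one_ok hT h' (by omega) σ⟩
    | false =>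
      rw [ht] at h'
      have h2 := h'
      unfold stp at h2
      simp only [nd_iff] at h2
      obtain ⟨a1, a2, a3, a4, a5, a6, a7, a8, a9, a10, a11, a12⟩ := h2
      have gL := hT _ (lt_of_succ_ble a1)
      have gH := hT _ (lt_of_succ_ble a2)
      have b5 : t ≤ sn T (ri L) + 1 := Nat.le_of_ble_eq_true a5
      have b6 : lo + 1 ≤ c := Nat.le_of_ble_eq_true a6
      have b7 : c ≤ s + 1 := Nat.le_of_ble_eq_true a7
      have b8 : Y &&& cX T L = cX T L := Nat.eq_of_beq_eq_true a8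
      have b9 : (Y ^^^ cX T L) &&& cX T H = cX T H := Nat.eq_of_beq_eq_true a9
      have hYH : Y &&& cX T H = cX T H := by
        have e2 : (Y ^^^ cX T L) &&& Y = Y ^^^ cX T L := (xor_and_disj b8).2
        calc Y &&& cX T H = Y &&& ((Y ^^^ cX T L) &&& cX T H) := by rw [b9]
          _ = ((Y ^^^ cX T L) &&& Y) &&& cX T H := by
            rw [← Nat.land_assoc, Nat.land_comm Y]
          _ = cX T H := by rw [e2, b9]
      have eu : Nat.add u (Nat.sub (Nat.sub k (sn T (ri H))) u) = u + (k - sn T (ri H) - u) := rfl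
      have es : Nat.sub s lo = s - lo := rfl
      have ec : Nat.pred c = c - 1 := rfl
      rw [eu] at a12
      rw [es] at a11
      rw [ec] at a10
      -- the pair serves all splits which it is meant to serve
      have srv : ∀ b < t, k - sn T (ri H) ≤ b → ∀ σ, lo ≤ σ → σ < c → Sv Y O k s b σ := by
        intro b hb hkb σ h1 h2
        refine ⟨?_, ?_⟩
        · intro _ hσ0 hk
          have hlo : lo = 0 := by omega
          subst hlo
          obtain ⟨i, hi, h3, h4⟩ := child_ok (k := k - 1) gH a4 (by omega) a11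
          rw [Nat.sub_zero] at h3 h4
          exact ⟨i, hi, h4, NF.larger h3 hYH⟩
        · intro hb1 hbk
          obtain ⟨i, hi, h3, h4⟩ := child_ok (k := k - b - 1) gH a4 (by omega) a11
          obtain ⟨j, hj, h5, h6⟩ := child_ok (k := b - 1) gL a3 (by omega) a10
          have hij : i ≠ j := by
            rintro rfl
            exact disj_ne b9 b8 (mem_of h5) (mem_of h3) rfl
          -- weaker bounds for the numbers of holes
          have h7 : NF 5 (cX T H) O [⟨2 ^ i, k - b - 1, s - σ⟩] := NF.holes h3 (by omega)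
          have h8 : NF 5 (cX T L) O [⟨2 ^ j, b - 1, σ⟩] := NF.holes h5 (by omega)
          refine ⟨i, j, hi, hj, hij, ?_, ?_, ?_⟩
          · rcases h4 with h4 | h4
            · exact Or.inl h4
            · exact Or.inr (by omega)
          · rcases h6 with h6 | h6
            · exact Or.inl h6
            · exact Or.inr (by omega)
          · exact NF.congr (by intro m; simp [or_comm]) (NF.pair h8 h7 b8 b9)
      cases hc : Nat.beq c (Nat.succ s) with
      | true =>
        rw [hc] at a12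
        have hc' : c = s + 1 := Nat.eq_of_beq_eq_true hc
        obtain ⟨i1, _⟩ := lpP_ok hT f _ _ _ _ a12
        refine ⟨fun b hb σ h1 h2 => ?_, fun b hb σ h1 => i1 b (by omega) σ (Nat.zero_le _) h1⟩
        by_cases hbu : b < u + (k - sn T (ri H) - u)
        · exact i1 b hbu σ (Nat.zero_le _) h2
        · exact srv b hb (by omega) σ h1 (by omega)
      | false =>
        rw [hc] at a12
        obtain ⟨i1, i2⟩ := lpP_ok hT f _ _ _ _ a12
        refine ⟨fun b hb σ h1 h2 => ?_, fun b hb σ h1 => i2 b (by omega) σ h1⟩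
        by_cases hσ : c ≤ σ
        · exact i1 b hb σ hσ h2
        · by_cases hbu : b < u + (k - sn T (ri H) - u)
          · exact i2 b hbu σ h2
          · exact srv b hb (by omega) σ h1 (by omega)

/-- check of the entry `i` with the certificate `C` -/
noncomputable def chkR (T i C : ℕ) : Bool :=
  nd (Nat.beq (Nat.land (sX T i) 1) 1)
    (bo (Nat.ble (sn T i) 1)
      (lpP T i (Nat.xor (sX T i) 1) (sO T i) (Nat.pred (sn T i)) (ss T i) 255 C
        (Nat.succ (Nat.shiftRight (Nat.pred (sn T i)) 1)) 0 0))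

theorem chkR_ok {T i C : ℕ} (hT : ∀ j < i, GoodS T j) (h : chkR T i C = true) : GoodS T i := by
  unfold chkR at h
  rw [nd_iff, bo_iff] at h
  obtain ⟨h1, h2⟩ := h
  have h3 : (sX T i) &&& 1 = 1 := Nat.eq_of_beq_eq_true h1
  have h4 := testBit_zero_of h3
  unfold GoodS
  by_cases h5 : sn T i ≤ 1
  · have h6 := St.ok_single 5 0 (ss T i) (sO T i)
    unfold St.Ok at h6
    have e : sn T i - 1 = 0 := by omega
    rw [e]
    refine NF.larger h6 ?_
    show sX T i &&& 2 ^ 0 = 2 ^ 0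
    rw [pow_zero]; exact h3
  · rcases h2 with h2 | h2
    · exact absurd (Nat.le_of_ble_eq_true h2) h5
    have h6 := (lpP_ok hT _ _ _ _ _ h2).1
    have e1 : Nat.pred (sn T i) = sn T i - 1 := rfl
    have e2 : Nat.shiftRight (sn T i - 1) 1 = (sn T i - 1) / 2 := rfl
    rw [e1, e2] at h6
    have h7 : ∀ σ ≤ ss T i, ∀ b, 2 * b ≤ sn T i - 1 →
        Sv (Nat.xor (sX T i) 1) (sO T i) (sn T i - 1) (ss T i) b σ := by
      intro σ hσ b hb
      apply h6 b _ σ (Nat.zero_le _) hσ
      show b < (sn T i - 1) / 2 + 1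
      omega
    have e3 : Nat.xor (sX T i) 1 = sX T i ^^^ 2 ^ 0 := rfl
    rw [e3] at h7
    refine NF.expand (by omega) h4 (by simp) ?_ ?_
    · obtain ⟨j, hj, h8, h9⟩ := (h7 0 (Nat.zero_le _) 0 (by omega)).1 rfl rfl (by omega)
      refine ⟨j, hj, by simp, ?_, ?_⟩
      · rw [Nat.zero_xor]; exact h8
      · rw [Nat.zero_xor]; exact h9
    · intro b hb hb2 sb hsb
      obtain ⟨i', j, hi, hj, hij, h8, h9, h10⟩ := (h7 sb hsb b hb2).2 hb (by omega)
      refine ⟨i', j, hi, hj, hij, by simp, ?_, ?_, ?_⟩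
      · rw [Nat.zero_xor]; exact h8
      · rw [Nat.zero_xor]; exact h9
      · rw [Nat.zero_xor, Nat.zero_xor]; exact h10

/-- check of a list of consecutive entries -/
noncomputable def chkL (T : ℕ) (cs : List ℕ) : ℕ → Bool :=
  List.rec (motive := fun _ => ℕ → Bool) (fun _ => true)
    (fun c _ ih i => nd (chkR T i c) (ih (Nat.succ i))) cs

theorem chkL_ok {T : ℕ} : ∀ (cs : List ℕ) (i : ℕ),
    (∀ j < i, GoodS T j) → chkL T cs i = true → ∀ j < i + cs.length, GoodS T j
  | [], i, hT, _, j, hj => hT j (by simpa using hj)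
  | c :: cs, i, hT, h, j, hj => by
    have h' : (nd (chkR T i c) (chkL T cs (Nat.succ i))) = true := h
    rw [nd_iff] at h'
    refine chkL_ok cs (i + 1) ?_ h'.2 j (by rw [List.length_cons] at hj; omega)
    intro l hl
    rcases Nat.lt_succ_iff_lt_or_eq.mp hl with hl | rfl
    · exact hT l hl
    · exact chkR_ok hT h'.1

end Sf

end Pool.Agent.Work.MP_bf01b2_co.MR
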