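import Pool.Agent.Work.MP_bf01b2_co.MR.B5Sf
import Pool.Agent.Work.MP_bf01b2_co.MR.B5Red

/-!
# Facts of `Q_5` with several roots and soft positions

Covers, chains of covers over all size vectors, reduction by automorphisms: an automorphism which
fixes all roots can be applied after the embedding, so that the parents of the holes avoid the soft
positions.
-/

set_option autoImplicit false

namespace Pool.Agent.Work.MP_bf01b2_co.MR

namespace Sf

open Tab

/-! ### Marks with sizes and numbers of holes -/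

/-- the marks at the positions `zs` -/
def mkS (k h : ℕ → ℕ) (zs : List ℕ) : List (Mk ℕ) := zs.map fun z => ⟨z, k z, h z⟩

theorem mem_mkS {k h : ℕ → ℕ} {zs : List ℕ} {m : Mk ℕ} :
    m ∈ mkS k h zs ↔ m.p ∈ zs ∧ m = ⟨m.p, k m.p, h m.p⟩ := by
  unfold mkS
  rw [List.mem_map]
  constructor
  · rintro ⟨z, hz, rfl⟩
    exact ⟨hz, rfl⟩
  · rintro ⟨h1, h2⟩
    exact ⟨m.p, h1, h2.symm⟩

/-- the numbers of holes `h z` are at most `hs` -/
def CapH (h : ℕ → ℕ) : List ℕ → List ℕ → Prop
  | [], _ => True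
  | _ :: _, [] => False
  | z :: zs, n :: ns => h z ≤ n ∧ CapH h zs ns

/-- facts with bounds for the sizes and the numbers of holes -/
def GS (X O : ℕ) (zs ns hs : List ℕ) : Prop := ∀ k h : ℕ → ℕ, CapsL k zs ns → CapH h zs hs →
  NF 5 X O (mkS k h zs)

theorem GS_nil (X O : ℕ) (ns hs : List ℕ) : GS X O [] ns hs := by
  intro k h _ _ τ _
  exact ⟨fun _ => ∅, fun _ => [], by simp [mkS], by simp [mkS]⟩

theorem domB_refl (O : ℕ) (m : Mk ℕ) : Mk.domB O O m m = true := by
  unfold Mk.domB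
  simp only [Bool.and_eq_true]
  refine ⟨Nat.ble_eq_true_of_le le_rfl, ?_⟩
  by_cases hO : O = 0
  · simp [hO]
  · cases O.testBit m.p <;> simp [hO]

/-- one more region -/
theorem GS_cons {X Y O z n a : ℕ} {zs ns hs : List ℕ}
    (hY : ∀ k h, k + 1 ≤ n → h ≤ a → NF 5 Y O [⟨z, k, h⟩])
    (hX : X &&& Y = Y) (h : GS (X ^^^ Y) O zs ns hs) : GS X O (z :: zs) (n :: ns) (a :: hs) := by
  intro k h' hk hh
  obtain ⟨hk1, hk2⟩ := hk
  obtain ⟨hh1, hh2⟩ := hh
  have h1 := h k h' hk2 hh2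
  refine NF.cover (refs := [⟨Y, O, [⟨z, k z, h' z⟩]⟩, ⟨X ^^^ Y, O, mkS k h' zs⟩]) ?_ ?_ ?_
  · intro r hr
    simp only [List.mem_cons, List.not_mem_nil, or_false] at hr
    rcases hr with rfl | rfl
    · exact hY _ _ hk1 hh1
    · exact h1
  · have e : ∀ Z : ℕ, (O &&& Z) &&& O = O &&& Z := by
      intro Z
      rw [Nat.land_comm O Z, Nat.land_assoc, Nat.and_self]
    simp [coverB, hX, e]
  · rw [List.all_eq_true]
    intro x hx
    obtain ⟨hx1, hx2⟩ := mem_mkS.mp hx
    unfold servedB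
    rw [List.any_eq_true]
    rcases List.mem_cons.mp hx1 with hz | hz
    · refine ⟨_, List.mem_cons_self, ?_⟩
      have hx3 : x = ⟨z, k z, h' z⟩ := by rw [hx2, hz]
      rw [hx3]
      simp [domB_refl]
    · refine ⟨_, List.mem_cons_of_mem _ List.mem_cons_self, ?_⟩
      rw [Bool.and_eq_true, List.any_eq_true, List.all_eq_true]
      refine ⟨⟨x, mem_mkS.mpr ⟨hz, hx2⟩, by simp⟩, ?_⟩
      intro y hy
      obtain ⟨hy1, hy2⟩ := mem_mkS.mp hy
      by_cases hxy : y.p = x.p
      · have : y = x := by rw [hx2, hy2, hxy]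
        rw [this]
        simp [domB_refl]
      · simp [hxy]

/-! ### Images of references -/

theorem fl1_tb {i r X v : ℕ} (hi : i < 5) (hX : X < 2 ^ 32) :
    fl1 (lowM i) (2 ^ i) r X < 2 ^ 32 ∧
      (fl1 (lowM i) (2 ^ i) r X).testBit (v ^^^ (r &&& 2 ^ i)) = X.testBit v := by
  have e0 : Nat.land r (2 ^ i) = r &&& 2 ^ i := rfl
  rcases and_two_pow_cases r i with h1 | h1
  · have e : fl1 (lowM i) (2 ^ i) r X = X := by
      unfold fl1
      rw [e0, h1]
      rfl
    rw [e, h1, Nat.xor_zero]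
    exact ⟨hX, rfl⟩
  · have e : fl1 (lowM i) (2 ^ i) r X = flipM i X := by
      unfold fl1
      have h2 : Nat.beq (2 ^ i) 0 = false := by
        have : 2 ^ i ≠ 0 := by positivity
        cases h3 : Nat.beq (2 ^ i) 0 with
        | false => rfl
        | true => exact absurd (Nat.eq_of_beq_eq_true h3) this
      rw [e0, h1, h2]
      rfl
    rw [e, h1]
    exact ⟨Tab.flipM_lt hi, testBit_flipM hi hX v⟩

theorem tr_tb0 {r X : ℕ} (hr : r < 32) (hX : X < 2 ^ 32) : (tr r X).testBit r = X.testBit 0 := by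
  have h1 := fl1_tb (i := 0) (r := r) (v := 0) (by norm_num) hX
  have h2 := fl1_tb (i := 1) (r := r) (v := 0 ^^^ (r &&& 2 ^ 0)) (by norm_num) h1.1
  have h3 := fl1_tb (i := 2) (r := r) (v := 0 ^^^ (r &&& 2 ^ 0) ^^^ (r &&& 2 ^ 1)) (by norm_num) h2.1
  have h4 := fl1_tb (i := 3) (r := r) (v := 0 ^^^ (r &&& 2 ^ 0) ^^^ (r &&& 2 ^ 1) ^^^ (r &&& 2 ^ 2))
    (by norm_num) h3.1
  have h5 := fl1_tb (i := 4) (r := r) (v := 0 ^^^ (r &&& 2 ^ 0) ^^^ (r &&& 2 ^ 1) ^^^ (r &&& 2 ^ 2) ^^^
    (r &&& 2 ^ 3)) (by norm_num) h4.1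
  have e : ∀ r < 32, 0 ^^^ (r &&& 2 ^ 0) ^^^ (r &&& 2 ^ 1) ^^^ (r &&& 2 ^ 2) ^^^ (r &&& 2 ^ 3) ^^^
      (r &&& 2 ^ 4) = r := by decide +kernel
  have h6 := h5.2
  rw [e r hr] at h6
  exact h6.trans (h4.2.trans (h3.2.trans (h2.2.trans h1.2)))

/-- translation of a set which may be empty -/
noncomputable def trz (z O : ℕ) : ℕ := Bool.rec (motive := fun _ => ℕ) (tr z O) 0 (Nat.beq O 0)

theorem fl1_zero (m s r : ℕ) : fl1 m s r 0 = 0 := by
  unfold fl1
  cases Nat.beq (Nat.land r s) 0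
  · show Nat.lor (Nat.land (Nat.shiftRight 0 _) _) (Nat.shiftLeft (Nat.land 0 _) _) = 0
    have e : ∀ a : ℕ, Nat.land 0 a = 0 := fun a => Nat.zero_and a
    have e2 : ∀ a : ℕ, Nat.shiftRight 0 a = 0 := fun a => Nat.zero_shiftRight a
    have e3 : ∀ a : ℕ, Nat.shiftLeft 0 a = 0 := fun a => Nat.zero_shiftLeft a
    rw [e2, e, e3]
    rfl
  · rfl

theorem trz_eq (z O : ℕ) : trz z O = tr z O := by
  unfold trz
  cases h : Nat.beq O 0 with
  | false => rfl
  | true =>
    have h1 : O = 0 := Nat.eq_of_beq_eq_true h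
    subst h1
    show 0 = tr z 0
    unfold tr
    rw [fl1_zero, fl1_zero, fl1_zero, fl1_zero, fl1_zero]

/-- check of a cover: `D` contains the references, 32 bits each (index, exchanges) -/
noncomputable def cvS (T M O : ℕ) (zs : List ℕ) : List ℕ → List ℕ → ℕ → ℕ → Bool :=
  List.rec (motive := fun _ => List ℕ → List ℕ → ℕ → ℕ → Bool) (fun _ _ _ _ => true)
    (fun z _ ih ns hs D X => List.rec (motive := fun _ => Bool) false
      (fun n ns' _ => List.rec (motive := fun _ => Bool) false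
        (fun a hs' _ =>
          nd (Nat.ble (Nat.succ (ri D)) M)
          (nd (Nat.ble n (sn T (ri D)))
          (nd (Nat.beq (Nat.land X (tr z (rX T D))) (tr z (rX T D)))
          (nd (cnd O a (tr z (rX T D)) (trz z (rO T D)) (Nat.land (rO T D) 1) (ss T (ri D)))
            (ih ns' hs' (Nat.shiftRight D 32) (Nat.xor X (tr z (rX T D)))))))) hs) ns) zs

theorem cvS_ok {T M O : ℕ} (hT : ∀ i < M, GoodS T i) : ∀ (zs ns hs : List ℕ) (D X : ℕ),
    (∀ z ∈ zs, z < 32) → (∀ n ∈ ns, 1 ≤ n) → cvS T M O zs ns hs D X = true → GS X O zs ns hs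
  | [], ns, hs, _, X, _, _, _ => GS_nil X O ns hs
  | z :: zs, [], _, _, X, _, _, h => by
    have h' : false = true := h
    exact absurd h' (by simp)
  | z :: zs, n :: ns, [], _, X, _, _, h => by
    have h' : false = true := h
    exact absurd h' (by simp)
  | z :: zs, n :: ns, a :: hs, D, X, hz, hn, h => by
    have h' : nd (Nat.ble (Nat.succ (ri D)) M)
          (nd (Nat.ble n (sn T (ri D)))
          (nd (Nat.beq (Nat.land X (tr z (rX T D))) (tr z (rX T D)))
          (nd (cnd O a (tr z (rX T D)) (trz z (rO T D)) (Nat.land (rO T D) 1) (ss T (ri D)))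
            (cvS T M O zs ns hs (Nat.shiftRight D 32) (Nat.xor X (tr z (rX T D))))))) = true := h
    simp only [nd_iff] at h'
    obtain ⟨a1, a2, a3, a4, a5⟩ := h'
    have g := hT _ (lt_of_succ_ble a1)
    have b2 : n ≤ sn T (ri D) := Nat.le_of_ble_eq_true a2
    have b3 : X &&& tr z (rX T D) = tr z (rX T D) := Nat.eq_of_beq_eq_true a3
    have hz' := hz z List.mem_cons_self
    obtain ⟨g1, g2, g3⟩ := ref_okS g
    obtain ⟨t1, t2, t3⟩ := tr_okS hz' g1 g2 g3
    rw [trz_eq] at a4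
    have ih := cvS_ok hT zs ns hs _ _ (fun z' h1 => hz z' (List.mem_cons_of_mem _ h1))
      (fun n' h1 => hn n' (List.mem_cons_of_mem _ h1)) a5
    refine GS_cons ?_ b3 ih
    intro k h hk hh
    refine NF.holes (cnd_use t3 (by omega) ?_ a4).1 hh
    intro h6
    rw [tr_tb0 hz' g2]
    exact bit0_of h6

/-! ### Patterns of holes -/

/-- `s` repeated -/
noncomputable def rep1 (s : ℕ) (zs : List ℕ) : List ℕ :=
  List.rec (motive := fun _ => List ℕ) [] (fun _ _ l => s :: l) zs

/-- some member of the list -/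
noncomputable def anyD (P : ℕ → Bool) (Ds : List ℕ) : Bool :=
  List.rec (motive := fun _ => Bool) false (fun D _ ih => bo (P D) ih) Ds

theorem anyD_ok {P : ℕ → Bool} : ∀ {Ds : List ℕ}, anyD P Ds = true → ∃ D, P D = true
  | [], h => by
    have h' : false = true := h
    exact absurd h' (by simp)
  | D :: Ds, h => by
    have h' : bo (P D) (anyD P Ds) = true := h
    rw [bo_iff] at h'
    rcases h' with h' | h'
    · exact ⟨D, h'⟩
    · exact anyD_ok h'

/-- all numbers up to `s` -/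
noncomputable def allLe (P : ℕ → Bool) (s : ℕ) : Bool :=
  Nat.rec (motive := fun _ => Bool) (P 0) (fun n ih => nd (P (Nat.succ n)) ih) s

theorem allLe_ok {P : ℕ → Bool} : ∀ {s : ℕ}, allLe P s = true → ∀ a ≤ s, P a = true
  | 0, h, a, ha => by
    have : a = 0 := by omega
    subst this; exact h
  | s + 1, h, a, ha => by
    have h' : nd (P (Nat.succ s)) (allLe P s) = true := h
    rw [nd_iff] at h'
    rcases Nat.lt_or_ge s a with h1 | h1
    · have : a = s + 1 := by omega
      subst this; exact h'.1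
    · exact allLe_ok h'.2 a h1

/-- all distributions of `s` holes on the marks `zs` -/
noncomputable def patB (zs : List ℕ) : ℕ → (List ℕ → Bool) → Bool :=
  List.rec (motive := fun _ => ℕ → (List ℕ → Bool) → Bool) (fun _ P => P [])
    (fun _ zs' ih s P => List.rec (motive := fun _ => Bool) (P [s])
      (fun _ _ _ => allLe (fun a => ih (Nat.sub s a) (fun l => P (a :: l))) s) zs') zs

theorem patB_ok {h : ℕ → ℕ} : ∀ {zs : List ℕ} {s : ℕ} {P : List ℕ → Bool},
    patB zs s P = true → (zs.map h).sum ≤ s → ∃ hs, P hs = true ∧ CapH h zs hs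
  | [], _, P, hP, _ => ⟨[], hP, trivial⟩
  | [z], s, P, hP, hs => by
    refine ⟨[s], hP, ?_, trivial⟩
    simpa using hs
  | z :: y :: zs, s, P, hP, hs => by
    have h' : allLe (fun a => patB (y :: zs) (Nat.sub s a) (fun l => P (a :: l))) s = true := hP
    rw [List.map_cons, List.sum_cons] at hs
    have h1 := allLe_ok h' (h z) (by omega)
    obtain ⟨hs', h2, h3⟩ := patB_ok (h := h) (zs := y :: zs) h1 (by
      show _ ≤ s - h z
      omega)
    exact ⟨h z :: hs', h2, le_rfl, h3⟩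

/-- facts with a bound for the total number of holes -/
def TS (X O : ℕ) (zs ns : List ℕ) (s : ℕ) : Prop := ∀ k h : ℕ → ℕ, CapsL k zs ns →
  (zs.map h).sum ≤ s → NF 5 X O (mkS k h zs)

theorem CapH_rep {h : ℕ → ℕ} {s : ℕ} : ∀ {zs : List ℕ}, (zs.map h).sum ≤ s →
    CapH h zs (rep1 s zs)
  | [], _ => trivial
  | z :: zs, hs => by
    rw [List.map_cons, List.sum_cons] at hs
    exact ⟨by omega, CapH_rep (by omega)⟩

/-- check of a piece: one universal cover or a list of covers for all patterns -/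
noncomputable def pcS (T M O s : ℕ) (zs ns Ds : List ℕ) : Bool :=
  bo (anyD (fun D => cvS T M O zs ns (rep1 s zs) D FULL) Ds)
    (patB zs s (fun hs => anyD (fun D => cvS T M O zs ns hs D FULL) Ds))

theorem pcS_ok {T M O s : ℕ} (hT : ∀ i < M, GoodS T i) {zs ns Ds : List ℕ}
    (hz : ∀ z ∈ zs, z < 32) (hn : ∀ n ∈ ns, 1 ≤ n) (h : pcS T M O s zs ns Ds = true) :
    TS FULL O zs ns s := by
  intro k h' hk hs
  unfold pcS at h
  rw [bo_iff] at h
  rcases h with h | h
  · obtain ⟨D, hD⟩ := anyD_ok h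
    exact cvS_ok hT zs ns _ D FULL hz hn hD k h' hk (CapH_rep hs)
  · obtain ⟨l, h1, h2⟩ := patB_ok (h := h') h hs
    obtain ⟨D, hD⟩ := anyD_ok h1
    exact cvS_ok hT zs ns l D FULL hz hn hD k h' hk h2

/-- chain of pieces: the last but one size is at most `t`, the sum of the last two sizes is at most
`left`; `mk t c` is the list of bounds with last entries `t` and `c`. A piece is a list: the bound of
the last size, then the covers. -/
noncomputable def chS (T M O s : ℕ) (zs : List ℕ) (mk : ℕ → ℕ → List ℕ) (left : ℕ)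
    (ps : List (List ℕ)) : ℕ → Bool :=
  List.rec (motive := fun _ => ℕ → Bool) (fun t => Nat.beq t 0)
    (fun p _ ih t => bo (Nat.beq t 0)
      (List.rec (motive := fun _ => Bool) false
        (fun c Ds _ => nd (Nat.ble 1 c) (nd (pcS T M O s zs (mk t c) Ds)
          (ih (Nat.pred (Nat.sub left c))))) p)) ps

theorem chS_ok {T M O s : ℕ} (hT : ∀ i < M, GoodS T i) {zs : List ℕ} (hz : ∀ z ∈ zs, z < 32)
    {mk : ℕ → ℕ → List ℕ} {left : ℕ} {k h : ℕ → ℕ} {a b : ℕ}
    (hmk : ∀ t c, k a + 1 ≤ t → k b + 1 ≤ c → CapsL k zs (mk t c))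
    (hmk1 : ∀ t c, 1 ≤ t → 1 ≤ c → ∀ n ∈ mk t c, 1 ≤ n)
    (hab : k a + 1 + (k b + 1) ≤ left) (hs : (zs.map h).sum ≤ s) :
    ∀ (ps : List (List ℕ)) (t : ℕ),
    chS T M O s zs mk left ps t = true → k a + 1 ≤ t → NF 5 FULL O (mkS k h zs)
  | [], t, h', ht => by
    have : t = 0 := Nat.eq_of_beq_eq_true h'
    omega
  | p :: ps, t, h', ht => by
    have h2 : bo (Nat.beq t 0)
      (List.rec (motive := fun _ => Bool) false
        (fun c Ds _ => nd (Nat.ble 1 c) (nd (pcS T M O s zs (mk t c) Ds)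
          (chS T M O s zs mk left ps (Nat.pred (Nat.sub left c))))) p) = true := h'
    rw [bo_iff] at h2
    rcases h2 with h2 | h2
    · have : t = 0 := Nat.eq_of_beq_eq_true h2
      omega
    · cases p with
      | nil => exact absurd h2 (by simp)
      | cons c Ds =>
        have h3 : nd (Nat.ble 1 c) (nd (pcS T M O s zs (mk t c) Ds)
          (chS T M O s zs mk left ps (Nat.pred (Nat.sub left c)))) = true := h2
        rw [nd_iff, nd_iff] at h3
        obtain ⟨h5, h3, h4⟩ := h3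
        have h6 : 1 ≤ c := Nat.le_of_ble_eq_true h5
        by_cases hc : k a + 1 ≤ Nat.pred (Nat.sub left c)
        · exact chS_ok hT hz hmk hmk1 hab hs ps _ h4 hc
        · have e3 : Nat.pred (Nat.sub left c) = left - c - 1 := rfl
          rw [e3] at hc
          exact pcS_ok hT hz (hmk1 t c (by omega) h6) h3 k h (hmk _ _ ht (by omega)) hs

/-- two roots -/
noncomputable def clS2 (T M O s N a b : ℕ) (ps : List (List ℕ)) : Bool :=
  chS T M O s [a, b] (fun t c => [t, c]) N ps (Nat.pred N)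

/-- three roots -/
noncomputable def clS3 (T M O s N z a b : ℕ) (pss : List (List (List ℕ))) : Bool :=
  lp (Nat.pred N) (fun ps n => chS T M O s [z, a, b] (fun t c => [n, t, c]) (Nat.sub N n) ps
    (Nat.pred (Nat.sub N n))) pss 1

theorem clS2_ok {T M O s : ℕ} (hT : ∀ i < M, GoodS T i) {N a b : ℕ} {ps : List (List ℕ)}
    (ha : a < 32) (hb : b < 32) (h : clS2 T M O s N a b ps = true) (k h' : ℕ → ℕ)
    (hk : ([a, b].map fun z => k z + 1).sum ≤ N) (hs : ([a, b].map h').sum ≤ s) :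
    NF 5 FULL O (mkS k h' [a, b]) := by
  simp only [List.map_cons, List.map_nil, List.sum_cons, List.sum_nil] at hk
  refine chS_ok (mk := fun t c => [t, c]) (a := a) (b := b) hT ?_
    (fun t c h1 h2 => ⟨h1, h2, trivial⟩) ?_ ?_ hs _ _ h ?_
  · intro z hz
    simp only [List.mem_cons, List.not_mem_nil, or_false] at hz
    rcases hz with rfl | rfl <;> assumption
  · intro t c h1 h2 n hn
    simp only [List.mem_cons, List.not_mem_nil, or_false] at hn
    rcases hn with rfl | rfl <;> assumption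
  · omega
  · show k a + 1 ≤ N - 1
    omega

theorem clS3_ok {T M O s : ℕ} (hT : ∀ i < M, GoodS T i) {N z a b : ℕ} {pss : List (List (List ℕ))}
    (hz : z < 32) (ha : a < 32) (hb : b < 32) (h : clS3 T M O s N z a b pss = true)
    (k h' : ℕ → ℕ) (hk : ([z, a, b].map fun z => k z + 1).sum ≤ N)
    (hs : ([z, a, b].map h').sum ≤ s) : NF 5 FULL O (mkS k h' [z, a, b]) := by
  simp only [List.map_cons, List.map_nil, List.sum_cons, List.sum_nil] at hk
  obtain ⟨ps, hps⟩ := lp_ok h (k z + 1) (by omega) (by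
    show k z + 1 < N - 1
    omega)
  have e : Nat.sub N (k z + 1) = N - (k z + 1) := rfl
  refine chS_ok (mk := fun t c => [k z + 1, t, c]) (a := a) (b := b) hT ?_
    (fun t c h1 h2 => ⟨le_rfl, h1, h2, trivial⟩) ?_ ?_ hs _ _ hps ?_
  · intro x hx
    simp only [List.mem_cons, List.not_mem_nil, or_false] at hx
    rcases hx with rfl | rfl | rfl <;> assumption
  · intro t c h1 h2 n hn
    simp only [List.mem_cons, List.not_mem_nil, or_false] at hn
    rcases hn with rfl | rfl | rfl <;> omega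
  · rw [e]; omega
  · show k a + 1 ≤ N - (k z + 1) - 1
    omega

/-! ### Facts for masks of marks -/

/-- `CS S O N s`: all forests with roots at the positions of the mask `S`, of total size at most `N`
and with at most `s` holes, embed in `Q_5` such that no parent of a hole lies in `O` -/
def CS (S O N s : ℕ) : Prop := ∀ k h : ℕ → ℕ, (∑ z ∈ pos32 S, (k z + 1)) ≤ N →
  (∑ z ∈ pos32 S, h z) ≤ s →
  ∀ ms : List (Mk ℕ), (∀ m, m ∈ ms ↔ S.testBit m.p = true ∧ m = ⟨m.p, k m.p, h m.p⟩) →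
    NF 5 FULL O ms

theorem sum_pos32 {S S' : ℕ} (hS : S < 2 ^ 32) (hS' : S' < 2 ^ 32) (e : ℕ ≃ ℕ)
    (he : ∀ v, S'.testBit (e v) = S.testBit v) (f : ℕ → ℕ) :
    (∑ z ∈ pos32 S, f (e z)) = ∑ z ∈ pos32 S', f z := by
  refine Finset.sum_bij' (fun z _ => e z) (fun z _ => e.symm z) ?_ ?_ ?_ ?_ ?_
  · intro a ha
    rw [mem_pos32 hS']
    rw [mem_pos32 hS] at ha
    rw [he]; exact ha
  · intro a ha
    rw [mem_pos32 hS]
    rw [mem_pos32 hS'] at ha
    rw [← he, e.apply_symm_apply]; exact ha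
  · intro a _; exact e.symm_apply_apply a
  · intro a _; exact e.apply_symm_apply a
  · intro a _; rfl

theorem CS.equiv {S S' O O' N s : ℕ} (hS : S < 2 ^ 32) (hS' : S' < 2 ^ 32) (e : ℕ ≃ ℕ)
    (he : ∀ v, S'.testBit (e v) = S.testBit v)
    (hN : ∀ ms : List (Mk ℕ), NF 5 FULL O ms → NF 5 FULL O' (ms.map (Mk.map e)))
    (h : CS S O N s) : CS S' O' N s := by
  intro k h' hk hh ms hms
  have h1 := h (fun z => k (e z)) (fun z => h' (e z))
    (by rw [sum_pos32 hS hS' e he (fun z => k z + 1)]; exact hk)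
    (by rw [sum_pos32 hS hS' e he h']; exact hh) (ms.map (Mk.map e.symm)) (by
    intro m
    constructor
    · intro hm
      obtain ⟨m', hm', rfl⟩ := List.mem_map.mp hm
      obtain ⟨h2, h3⟩ := (hms m').mp hm'
      have e1 : (Mk.map e.symm m').p = e.symm m'.p := rfl
      rw [e1, ← he, e.apply_symm_apply]
      refine ⟨h2, ?_⟩
      have h4 : m'.k = k m'.p := congrArg Mk.k h3
      have h5 : m'.s = h' m'.p := congrArg Mk.s h3
      show (⟨e.symm m'.p, m'.k, m'.s⟩ : Mk ℕ) = ⟨e.symm m'.p, _, _⟩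
      rw [h4, h5]
    · rintro ⟨h2, h3⟩
      refine List.mem_map.mpr ⟨⟨e m.p, k (e m.p), h' (e m.p)⟩, (hms _).mpr ⟨?_, rfl⟩, ?_⟩
      · show S'.testBit (e m.p) = true
        rw [he]; exact h2
      · rw [h3]
        show (⟨e.symm (e m.p), _, _⟩ : Mk ℕ) = _
        rw [e.symm_apply_apply])
  have h2 := hN _ h1
  rw [List.map_map] at h2
  have h3 : ms.map (Mk.map e ∘ Mk.map e.symm) = ms := by
    conv_rhs => rw [← List.map_id ms]
    refine List.map_congr_left fun m _ => ?_
    show (⟨e (e.symm m.p), m.k, m.s⟩ : Mk ℕ) = m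
    rw [e.apply_symm_apply]
  rwa [h3] at h2

theorem FULL_flip {i : ℕ} (hi : i < 5) : flipM i FULL = FULL := by
  have : ∀ i < 5, flipM i FULL = FULL := by decide +kernel
  exact this i hi

theorem FULL_swap {i j : ℕ} (hij : i < j) (hj : j < 5) : swapM i j FULL = FULL := by
  have : ∀ j < 5, ∀ i < j, swapM i j FULL = FULL := by decide +kernel
  exact this j hj i hij

theorem FULL_lt : FULL < 2 ^ 32 := by unfold FULL; norm_num

theorem CS.flip {S O N s i : ℕ} (hi : i < 5) (hS : S < 2 ^ 32) (hO : O < 2 ^ 32)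
    (h : CS S O N s) : CS (flipM i S) (flipM i O) N s := by
  refine CS.equiv hS (MR.flipM_lt hi hS) (flipE i) (testBit_flipM hi hS) ?_ h
  intro ms hms
  have h1 := NF.flip hi FULL_lt hO hms
  rw [FULL_flip hi] at h1
  exact h1

theorem CS.swap {S O N s i j : ℕ} (hij : i < j) (hj : j < 5) (hS : S < 2 ^ 32)
    (hO : O < 2 ^ 32) (h : CS S O N s) : CS (swapM i j S) (swapM i j O) N s := by
  refine CS.equiv hS (MR.swapM_lt hij hj hS) (swapE i j) (testBit_swapM hij hj hS) ?_ h
  intro ms hms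
  have h1 := NF.swap hij hj FULL_lt hO hms
  rw [FULL_swap hij hj] at h1
  exact h1

/-- from lists of positions to masks -/
theorem CS.of_list {O N s : ℕ} {zs : List ℕ} (hnd : zs.Nodup) (hz : ∀ z ∈ zs, z < 32)
    (h : ∀ k h : ℕ → ℕ, (zs.map fun z => k z + 1).sum ≤ N → (zs.map h).sum ≤ s →
      NF 5 FULL O (mkS k h zs)) : CS (maskL zs) O N s := by
  intro k h' hk hs ms hms
  have e : ∀ f : ℕ → ℕ, (zs.map f).sum = ∑ z ∈ pos32 (maskL zs), f z := by
    intro f
    rw [← List.sum_toFinset _ hnd]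
    apply Finset.sum_congr _ (fun _ _ => rfl)
    ext z
    rw [List.mem_toFinset, mem_pos32 (maskL_lt hz), testBit_maskL]
  refine NF.congr ?_ (h k h' (by rw [e]; exact hk) (by rw [e]; exact hs))
  intro m
  rw [hms, mem_mkS, testBit_maskL]

/-- back to lists of positions -/
theorem CS.to_list {O N s : ℕ} {zs : List ℕ} (h : CS (maskL zs) O N s) (hnd : zs.Nodup)
    (hz : ∀ z ∈ zs, z < 32) (k h' : ℕ → ℕ) (hk : (zs.map fun z => k z + 1).sum ≤ N)
    (hs : (zs.map h').sum ≤ s) : NF 5 FULL O (mkS k h' zs) := by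
  have e : ∀ f : ℕ → ℕ, (zs.map f).sum = ∑ z ∈ pos32 (maskL zs), f z := by
    intro f
    rw [← List.sum_toFinset _ hnd]
    apply Finset.sum_congr _ (fun _ _ => rfl)
    ext z
    rw [List.mem_toFinset, mem_pos32 (maskL_lt hz), testBit_maskL]
  refine h k h' (by rw [← e]; exact hk) (by rw [← e]; exact hs) _ ?_
  intro m
  rw [mem_mkS, testBit_maskL]

/-- hard facts have no soft positions -/
theorem CS.of_CM {S N N' s : ℕ} (h : CM S N) (hN : N' ≤ N) : CS S 0 N' s := by
  intro k h' hk _ ms hms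
  have h1 := h k (hk.trans hN) (ms.map fun m => ⟨m.p, m.k, 0⟩) (by
    intro m
    rw [List.mem_map]
    constructor
    · rintro ⟨m', hm', rfl⟩
      obtain ⟨h2, h3⟩ := (hms m').mp hm'
      refine ⟨h2, ?_⟩
      have : m'.k = k m'.p := congrArg Mk.k h3
      show (⟨m'.p, m'.k, 0⟩ : Mk ℕ) = ⟨m'.p, k m'.p, 0⟩
      rw [this]
    · rintro ⟨h2, h3⟩
      refine ⟨⟨m.p, k m.p, h' m.p⟩, (hms _).mpr ⟨h2, rfl⟩, h3.symm⟩)
  refine NF.cover (refs := [⟨FULL, 0, ms.map fun m => ⟨m.p, m.k, 0⟩⟩]) ?_ ?_ ?_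
  · intro r hr
    rw [List.mem_singleton] at hr
    subst hr
    exact h1
  · simp [coverB]
  · rw [List.all_eq_true]
    intro x hx
    unfold servedB
    rw [List.any_eq_true]
    refine ⟨_, List.mem_cons_self, ?_⟩
    rw [Bool.and_eq_true, List.any_eq_true, List.all_eq_true]
    refine ⟨⟨⟨x.p, x.k, 0⟩, List.mem_map_of_mem hx, by simp⟩, ?_⟩
    intro y hy
    obtain ⟨w, hw, rfl⟩ := List.mem_map.mp hy
    by_cases hwx : w.p = x.p
    · have e1 := ((hms w).mp hw).2
      have e2 := ((hms x).mp hx).2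
      have e3 : w.k = x.k := by rw [e1, e2, hwx]
      simp [Mk.domB, e3]
    · simp [hwx]

end Sf

end Pool.Agent.Work.MP_bf01b2_co.MR
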