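import Pool.Agent.Work.MP_bf01b2_co.MR.B5Chain
import Pool.Agent.Work.MP_bf01b2_co.MR.B5All

set_option autoImplicit false
set_option maxRecDepth 100000

namespace Pool.Agent.Work.MP_bf01b2_co.MR

namespace Tab

/-- facts which need an expansion -/
def b5sp : List (List ℕ × List ℕ × Ct) :=
  [([0, 3], [22, 1], (.exp 0 (.two 0 1 11 10 (.cov (nat_lit 903100214)) (.two 0 1 12 9 (.cov (nat_lit 872297947)) (.two 0 1 13 8 (.cov (nat_lit 101985303)) (.two 0 1 14 7 (.cov (nat_lit 151657782)) (.two 0 1 15 6 (.cov (nat_lit 380253953)) (.two 0 1 16 5 (.cov (nat_lit 72952680)) (.two 0 1 17 4 (.cov (nat_lit 73802747)) (.two 0 2 18 3 (.cov (nat_lit 5125830)) (.two 0 1 19 2 (.cov (nat_lit 731102)) (.two 0 1 20 1 (.cov (nat_lit 9870)) (.one 3 (.exp 0 (.two 0 1 10 10 (.cov (nat_lit 1108492635)) (.two 0 1 11 9 (.cov (nat_lit 872296151)) (.two 2 0 12 8 (.cov (nat_lit 1094069560)) (.two 0 1 13 7 (.cov (nat_lit 396509362))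 (.two 0 1 14 6 (.cov (nat_lit 198525107)) (.two 0 1 16 5 (.cov (nat_lit 46999552)) (.two 0 1 17 3 (.cov (nat_lit 2238468)) (.two 0 1 18 2 (.cov (nat_lit 82283)) (.two 2 1 19 1 (.cov (nat_lit 17170)) (.one 0 (.cov (nat_lit 16586)))))))))))))))))))))))))),
   ([0, 3], [15, 8], (.exp 0 (.two 0 1 7 7 (.cov (nat_lit 62904242681528)) (.two 0 1 8 6 (.cov (nat_lit 62728936370654)) (.two 0 1 9 5 (.cov (nat_lit 24292413682686)) (.two 0 1 11 4 (.cov (nat_lit 24292393103063)) (.two 0 1 12 2 (.cov (nat_lit 54829555529179)) (.two 0 1 13 1 (.cov (nat_lit 6682969123863)) (.one 0 (.exp 0 (.two 2 3 7 6 (.cov (nat_lit 60937824311022)) (.two 2 3 8 5 (.cov (nat_lit 63668682105891)) (.two 2 3 9 4 (.cov (nat_lit 53455189447358)) (.two 2 3 10 3 (.cov (nat_lit 53455188141039)) (.two 2 3 12 2 (.cov (nat_lit 53455163174200)) (.one 2 (.cov (nat_lit 514472718)))))))))))))))))),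
   ([0, 3], [8, 15], (.exp 1 (.two 1 0 7 7 (.cov (nat_lit 47927853201137)) (.two 1 0 8 6 (.cov (nat_lit 52630878631152)) (.two 1 0 9 5 (.cov (nat_lit 39625440047138)) (.two 1 0 11 4 (.cov (nat_lit 39625375560778)) (.two 1 0 12 2 (.cov (nat_lit 58205399822344)) (.two 1 0 13 1 (.cov (nat_lit 13907104113717)) (.one 1 (.exp 0 (.two 2 3 7 6 (.cov (nat_lit 45991008734911)) (.two 2 3 8 5 (.cov (nat_lit 52772350072705)) (.two 2 3 9 4 (.cov (nat_lit 40918168310462)) (.two 2 3 10 3 (.cov (nat_lit 40918155666415)) (.two 2 3 12 2 (.cov (nat_lit 40918153506104)) (.one 2 (.cov (nat_lit 857291359)))))))))))))))))),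
   ([0, 15], [22, 1], (.exp 0 (.two 0 1 11 10 (.cov (nat_lit 931936054)) (.two 0 1 12 9 (.cov (nat_lit 493170459)) (.two 0 1 13 8 (.cov (nat_lit 613100066)) (.two 0 1 14 7 (.cov (nat_lit 278148846)) (.two 0 1 15 6 (.cov (nat_lit 947332655)) (.two 0 1 16 5 (.cov (nat_lit 5253199)) (.two 0 1 18 4 (.cov (nat_lit 14890797)) (.two 0 1 19 2 (.cov (nat_lit 75513)) (.two 0 1 20 1 (.cov (nat_lit 9890)) (.one 0 (.cov (nat_lit 13970)))))))))))))),
   ([0, 15], [15, 8], (.exp 0 (.two 0 1 7 7 (.cov (nat_lit 25804441656019)) (.two 0 1 8 6 (.cov (nat_lit 27028496196211)) (.two 0 1 9 5 (.cov (nat_lit 21298780579097)) (.two 0 1 10 4 (.cov (nat_lit 21298745186174)) (.two 0 1 11 3 (.cov (nat_lit 39530881234742)) (.two 0 1 12 2 (.cov (nat_lit 41038413248234)) (.two 0 1 13 1 (.cov (nat_lit 32070520813345)) (.one 0 (.exp 0 (.two 1 2 7 6 (.cov (nat_lit 26036358750846)) (.two 1 2 8 5 (.cov (nat_lit 26036163513827)) (.two 1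 2 9 4 (.cov (nat_lit 77502760168303)) (.two 1 2 10 3 (.cov (nat_lit 17377482193217)) (.two 1 2 11 2 (.cov (nat_lit 21298742898137)) (.two 4 1 12 1 (.cov (nat_lit 43662637535117)) (.one 1 (.cov (nat_lit 561322773)))))))))))))))))))),
   ([0, 15], [8, 15], (.exp 1 (.two 3 2 7 7 (.cov (nat_lit 47919043776660)) (.two 3 2 8 6 (.cov (nat_lit 39823608395280)) (.two 3 2 9 5 (.cov (nat_lit 21573621584574)) (.two 3 2 11 4 (.cov (nat_lit 21573621136867)) (.two 3 2 12 2 (.cov (nat_lit 58664958375494)) (.two 3 2 13 1 (.cov (nat_lit 58664958311901)) (.one 3 (.exp 0 (.two 2 1 7 6 (.cov (nat_lit 52923459178634)) (.two 2 1 8 5 (.cov (nat_lit 46656362722073)) (.two 2 1 9 4 (.cov (nat_lit 19756885157274)) (.two 2 1 10 3 (.cov (nat_lit 19756878346685)) (.two 2 1 11 2 (.cov (nat_lit 40497246714115)) (.two 4 2 12 1 (.cov (nat_lit 45243185500045)) (.one 2 (.cov (nat_lit 836647211))))))))))))))))))),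
   ([0, 3, 5], [1, 20, 1], (.exp 1 (.two 1 0 10 9 (.cov (nat_lit 872298083)) (.two 1 0 11 8 (.cov (nat_lit 836644970)) (.two 1 0 12 7 (.exp 0 (.two 3 4 6 5 (.cov (nat_lit 50693524553761)) (.two 3 4 7 4 (.cov (nat_lit 61276313290114)) (.two 3 4 9 3 (.cov (nat_lit 9938556567907)) (.two 3 4 10 1 (.cov (nat_lit 61272003448292)) (.one 3 (.cov (nat_lit 151656194)))))))) (.two 1 0 13 6 (.cov (nat_lit 101919575)) (.two 1 0 14 5 (.cov (nat_lit 72952675)) (.two 1 0 16 4 (.cov (nat_lit 73806099)) (.two 1 0 17 2 (.cov (nat_lit 730088)) (.two 1 0 18 1 (.cov (nat_lit 9709)) (.one 0 (.cov (nat_lit 10206))))))))))))),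
   ([0, 6, 9], [1, 20, 1], (.exp 1 (.two 2 1 10 9 (.cov (nat_lit 979448929)) (.two 2 1 11 8 (.cov (nat_lit 397752481)) (.two 2 1 13 7 (.cov (nat_lit 307048874)) (.two 2 1 14 5 (.cov (nat_lit 52045212)) (.two 2 1 16 4 (.cov (nat_lit 27993082)) (.two 2 1 18 2 (.cov (nat_lit 79850)) (.one 2 (.cov (nat_lit 14451))))))))))),
   ([0, 15, 16], [10, 2, 10], (.exp 0 (.two 0 1 5 4 (.cov (nat_lit 5141703403875794982)) (.two 0 1 6 3 (.cov (nat_lit 1120551886586583947)) (.two 0 1 7 2 (.cov (nat_lit 5130444404800820866)) (.two 0 1 8 1 (.cov (nat_lit 1491817380861456862)) (.one 0 (.cov (nat_lit 79370995698955))))))))),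
   ([0, 15, 16], [10, 1, 11], (.exp 2 (.two 0 1 5 5 (.cov (nat_lit 46557450732720)) (.two 0 1 6 4 (.cov (nat_lit 44156632570763)) (.two 0 1 7 3 (.cov (nat_lit 42919631520603)) (.two 0 1 8 2 (.cov (nat_lit 44156558837268)) (.two 0 1 9 1 (.cov (nat_lit 45268955302022)) (.one 0 (.cov (nat_lit 726078626)))))))))),
   ([0, 1, 2, 4], [9, 1, 10, 1], (.exp 2 (.two 0 2 5 4 (.cov (nat_lit 56384388726881)) (.two 0 2 6 3 (.cov (nat_lit 51101543236633)) (.two 0 2 7 2 (.cov (nat_lit 51543903572650)) (.two 0 2 8 1 (.cov (nat_lit 53231824671713)) (.one 0 (.cov (nat_lit 912471038))))))))),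
   ([0, 1, 2, 4], [9, 1, 9, 2], (.exp 0 (.two 3 4 4 4 (.cov (nat_lit 22486754414437990465)) (.two 3 4 5 3 (.cov (nat_lit 22447629392675078157)) (.two 3 4 6 2 (.cov (nat_lit 22154050991965667361)) (.two 3 4 7 1 (.cov (nat_lit 20371469964457018754)) (.one 3 (.cov (nat_lit 331885007868767))))))))),
   ([0, 1, 2, 4], [9, 1, 2, 9], (.exp 0 (.two 3 4 4 4 (.cov (nat_lit 275299208837516325421062)) (.two 3 4 5 3 (.cov (nat_lit 211381240622112728809485)) (.two 3 4 6 2 (.cov (nat_lit 254472834778298241318945)) (.two 3 4 7 1 (.cov (nat_lit 275741930695285354268034)) (.one 3 (.cov (nat_lit 2784350473916781407))))))))),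
   ([0, 1, 2, 4], [9, 1, 1, 10], (.exp 3 (.two 0 1 5 4 (.cov (nat_lit 56384388726855)) (.two 0 1 6 3 (.cov (nat_lit 49396441222185)) (.two 0 1 7 2 (.cov (nat_lit 58617714706708)) (.two 0 1 8 1 (.cov (nat_lit 45470818775833)) (.one 0 (.cov (nat_lit 834155290))))))))),
   ([0, 1, 2, 4], [9, 2, 9, 1], (.exp 0 (.two 3 4 4 4 (.cov (nat_lit 4040010353613340737)) (.two 3 4 5 3 (.cov (nat_lit 4003700081617534989)) (.two 3 4 6 2 (.cov (nat_lit 1151795617584971809)) (.two 3 4 7 1 (.cov (nat_lit 1151795617584907650)) (.one 3 (.cov (nat_lit 18219251471199))))))))),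
   ([0, 1, 2, 4], [9, 2, 1, 9], (.exp 0 (.two 3 4 4 4 (.cov (nat_lit 275299208556054233612294)) (.two 3 4 5 3 (.cov (nat_lit 211381240340650637000717)) (.two 3 4 6 2 (.cov (nat_lit 254472834496836149510177)) (.two 3 4 7 1 (.cov (nat_lit 275741930413823262459266)) (.one 3 (.cov (nat_lit 2784350469622010719))))))))),
   ([0, 1, 2, 4], [9, 9, 2, 1], (.exp 0 (.two 3 4 4 4 (.cov (nat_lit 316212672593964)) (.two 3 4 5 3 (.cov (nat_lit 341746253234189)) (.two 3 4 6 2 (.cov (nat_lit 324489074376737)) (.two 3 4 7 1 (.cov (nat_lit 324489074181500)) (.one 3 (.cov (nat_lit 5211951967))))))))),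
   ([0, 1, 2, 4], [9, 9, 1, 2], (.exp 0 (.two 3 4 4 4 (.cov (nat_lit 18446804156007448620)) (.two 3 4 5 3 (.cov (nat_lit 18446790506601447437)) (.two 3 4 6 2 (.cov (nat_lit 18446804035748167713)) (.two 3 4 7 1 (.cov (nat_lit 18446804409410127228)) (.one 3 (.cov (nat_lit 281475778614111))))))))),
   ([0, 1, 2, 4], [9, 10, 1, 1], (.exp 1 (.two 1 2 5 4 (.cov (nat_lit 59687167788121)) (.two 1 2 6 3 (.cov (nat_lit 39011216327719)) (.two 1 2 7 2 (.cov (nat_lit 57526793013514)) (.two 1 2 8 1 (.cov (nat_lit 46978352296414)) (.one 1 (.cov (nat_lit 912471038))))))))),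
   ([0, 3, 4, 8], [9, 9, 2, 1], (.exp 0 (.two 0 1 4 4 (.cov (nat_lit 4547034705429813)) (.two 0 1 5 3 (.cov (nat_lit 4549405475733601)) (.two 0 1 6 2 (.cov (nat_lit 901633895565334)) (.two 0 1 7 1 (.cov (nat_lit 892580103459498)) (.one 0 (.cov (nat_lit 69693410027))))))))),
   ([0, 3, 4, 8], [9, 9, 1, 2], (.exp 0 (.two 0 1 4 4 (.cov (nat_lit 202914228245883127093)) (.two 0 1 5 3 (.cov (nat_lit 202914230616653430881)) (.two 0 1 6 2 (.cov (nat_lit 55340289430093760534)) (.two 0 1 7 1 (.cov (nat_lit 55340289571826963114)) (.one 0 (.cov (nat_lit 281475907455723))))))))),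
   ([0, 3, 4, 8], [9, 10, 1, 1], (.exp 1 (.two 1 2 5 4 (.cov (nat_lit 28398358364570)) (.two 1 2 6 3 (.cov (nat_lit 57501033313342)) (.two 1 2 7 2 (.cov (nat_lit 52969831735608)) (.two 1 2 8 1 (.cov (nat_lit 56861072045815)) (.one 1 (.cov (nat_lit 786247714))))))))),
   ([0, 7, 8, 16], [9, 1, 10, 1], (.exp 2 (.two 0 1 5 4 (.cov (nat_lit 54679302439494)) (.two 0 1 6 3 (.cov (nat_lit 56680698089870)) (.two 0 1 7 2 (.cov (nat_lit 52557515527810)) (.two 0 1 8 1 (.cov (nat_lit 49946174698689)) (.one 0 (.cov (nat_lit 725486859))))))))),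
   ([0, 7, 8, 16], [9, 1, 9, 2], (.exp 0 (.two 0 1 4 4 (.cov (nat_lit 21322573910797517918)) (.two 0 1 5 3 (.cov (nat_lit 21624033610851746905)) (.two 0 1 6 2 (.cov (nat_lit 23058148617160950231)) (.two 0 1 7 1 (.cov (nat_lit 59959518063927244507)) (.one 0 (.cov (nat_lit 352303282402433))))))))),
   ([0, 7, 8, 16], [9, 1, 2, 9], (.exp 0 (.two 0 1 4 4 (.cov (nat_lit 73436491253662503994067)) (.two 0 1 5 3 (.cov (nat_lit 107120243680456328676441)) (.two 0 1 6 2 (.cov (nat_lit 335546275545201674748375)) (.two 0 1 7 1 (.cov (nat_lit 339364751568459551225563)) (.one 0 (.cov (nat_lit 5205598232171787393))))))))),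
   ([0, 7, 8, 16], [9, 1, 1, 10], (.exp 3 (.two 0 1 5 4 (.cov (nat_lit 45466572357718)) (.two 0 1 6 3 (.cov (nat_lit 45054211391903)) (.two 0 1 7 2 (.cov (nat_lit 58407260980059)) (.two 0 1 8 1 (.cov (nat_lit 43001212571534)) (.one 0 (.cov (nat_lit 353306755))))))))),
   ([0, 7, 8, 16], [9, 2, 9, 1], (.exp 0 (.two 0 1 4 4 (.cov (nat_lit 2875829849972868190)) (.two 0 1 5 3 (.cov (nat_lit 2838393733902042201)) (.two 0 1 6 2 (.cov (nat_lit 4609152747933008343)) (.two 0 1 7 1 (.cov (nat_lit 3778238616682116827)) (.one 0 (.cov (nat_lit 70806830920833))))))))),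
   ([0, 7, 8, 16], [9, 2, 1, 9], (.exp 0 (.two 0 1 4 4 (.cov (nat_lit 73436488157450645078739)) (.two 0 1 5 3 (.cov (nat_lit 157037132299558164694105)) (.two 0 1 6 2 (.cov (nat_lit 335546274700781039911383)) (.two 0 1 7 1 (.cov (nat_lit 337446289340373122692827)) (.one 0 (.cov (nat_lit 5189835620591154305))))))))),
   ([0, 7, 8, 16], [9, 9, 2, 1], (.exp 0 (.two 0 1 4 4 (.cov (nat_lit 3145440809256030)) (.two 0 1 5 3 (.cov (nat_lit 900822178006105)) (.two 0 1 6 2 (.cov (nat_lit 904219465548247)) (.two 0 1 7 1 (.cov (nat_lit 911117182318299)) (.one 0 (.cov (nat_lit 47847250082))))))))),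
   ([0, 7, 8, 16], [9, 9, 1, 2], (.exp 0 (.two 0 1 4 4 (.cov (nat_lit 18446793289774990430)) (.two 0 1 5 3 (.cov (nat_lit 18446808635690255449)) (.two 0 1 6 2 (.cov (nat_lit 18446803868244967895)) (.two 0 1 7 1 (.cov (nat_lit 55340298913380841179)) (.one 0 (.cov (nat_lit 281475735361698))))))))),
   ([0, 7, 8, 16], [9, 10, 1, 1], (.exp 1 (.two 2 1 5 4 (.cov (nat_lit 56491715789895)) (.two 2 1 6 3 (.cov (nat_lit 56491728187527)) (.two 2 1 7 2 (.cov (nat_lit 43465070088781)) (.two 2 1 8 1 (.cov (nat_lit 50564649987033)) (.one 2 (.cov (nat_lit 743586291))))))))),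
   ([0, 6, 9, 16], [9, 1, 2, 9], (.exp 0 (.two 0 1 4 4 (.cov (nat_lit 336800653579264002163429)) (.two 0 1 5 3 (.cov (nat_lit 73510278229957329354821)) (.two 0 1 6 2 (.cov (nat_lit 73510275415207542915480)) (.two 0 1 7 1 (.cov (nat_lit 338479307289971539318402)) (.one 0 (.cov (nat_lit 5168162094629004139))))))))),
   ([0, 6, 9, 16], [9, 1, 1, 10], (.exp 3 (.two 0 1 5 4 (.cov (nat_lit 46797970931750)) (.two 0 1 6 3 (.cov (nat_lit 19597942266763)) (.two 0 1 7 2 (.cov (nat_lit 58385786143579)) (.two 0 1 8 1 (.cov (nat_lit 40772124544910)) (.one 0 (.cov (nat_lit 687671427))))))))),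
   ([0, 6, 9, 16], [9, 2, 1, 9], (.exp 0 (.two 0 1 4 4 (.cov (nat_lit 156705090906231392502501)) (.two 0 1 5 3 (.cov (nat_lit 73510275133745470439493)) (.two 0 1 6 2 (.cov (nat_lit 73510275133745451106712)) (.two 0 1 7 1 (.cov (nat_lit 339659898629282693387906)) (.one 0 (.cov (nat_lit 5180265471382987627)))))))))]

/-- the facts without their certificates -/
def b5sq : List (List ℕ × List ℕ) :=
  [([0, 3], [22, 1]),
   ([0, 3], [15, 8]),
   ([0, 3], [8, 15]),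
   ([0, 15], [22, 1]),
   ([0, 15], [15, 8]),
   ([0, 15], [8, 15]),
   ([0, 3, 5], [1, 20, 1]),
   ([0, 6, 9], [1, 20, 1]),
   ([0, 15, 16], [10, 2, 10]),
   ([0, 15, 16], [10, 1, 11]),
   ([0, 1, 2, 4], [9, 1, 10, 1]),
   ([0, 1, 2, 4], [9, 1, 9, 2]),
   ([0, 1, 2, 4], [9, 1, 2, 9]),
   ([0, 1, 2, 4], [9, 1, 1, 10]),
   ([0, 1, 2, 4], [9, 2, 9, 1]),
   ([0, 1, 2, 4], [9, 2, 1, 9]),
   ([0, 1, 2, 4], [9, 9, 2, 1]),
   ([0, 1, 2, 4], [9, 9, 1, 2]),
   ([0, 1, 2, 4], [9, 10, 1, 1]),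
   ([0, 3, 4, 8], [9, 9, 2, 1]),
   ([0, 3, 4, 8], [9, 9, 1, 2]),
   ([0, 3, 4, 8], [9, 10, 1, 1]),
   ([0, 7, 8, 16], [9, 1, 10, 1]),
   ([0, 7, 8, 16], [9, 1, 9, 2]),
   ([0, 7, 8, 16], [9, 1, 2, 9]),
   ([0, 7, 8, 16], [9, 1, 1, 10]),
   ([0, 7, 8, 16], [9, 2, 9, 1]),
   ([0, 7, 8, 16], [9, 2, 1, 9]),
   ([0, 7, 8, 16], [9, 9, 2, 1]),
   ([0, 7, 8, 16], [9, 9, 1, 2]),
   ([0, 7, 8, 16], [9, 10, 1, 1]),
   ([0, 6, 9, 16], [9, 1, 2, 9]),
   ([0, 6, 9, 16], [9, 1, 1, 10]),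
   ([0, 6, 9, 16], [9, 2, 1, 9])]

theorem b5_special : ∀ p ∈ b5sq, GF FULL p.1 p.2 := by
  have h1 : b5sp.all (fun p => p.1.all (fun z => decide (z < 32)) && p.2.2.isF &&
      ck b5T 19219 p.2.2 FULL p.1 p.2.1 0 0 0) = true := by decide +kernel
  have h2 : b5sq.all (fun q => b5sp.any (fun p => p.1 == q.1 && p.2.1 == q.2)) = true := by
    decide +kernel
  intro q hq
  have h3 := List.all_eq_true.mp h2 q hq
  rw [List.any_eq_true] at h3
  obtain ⟨p, hp, h4⟩ := h3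
  have h5 := List.all_eq_true.mp h1 p hp
  simp only [Bool.and_eq_true, beq_iff_eq] at h4 h5
  rw [← h4.1, ← h4.2]
  have h6 : ∀ z ∈ p.1, z < 32 := fun z hz => by
    have := List.all_eq_true.mp h5.1.1 z hz
    simpa using this
  exact (ck_ok b5_ok p.2.2 FULL p.1 p.2.1 0 0 0 h6 h5.2).1 h5.1.2


end Tab

end Pool.Agent.Work.MP_bf01b2_co.MR
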