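import Pool.Agent.Work.MP_bf01b2_co.MR.Mask

/-!
# Kernel checker for tables of single root facts on `Q_5`

The table is a natural number `T`; entry `i` occupies 40 bits: the region `X` (32 bits, it contains the
vertex `0`) and a number `n` (8 bits); the claim `Good T i` is that every tree with at most `n`
vertices embeds in `X` with its root at `0`. An entry is either derived from an earlier one by
exchanges of coordinates or certified by a list of pairs of disjoint regions for the two subtrees.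

All functions are written with recursors, so that the kernel evaluates them fast.
-/

namespace Pool.Agent.Work.MP_bf01b2_co.MR

namespace Tab

/-- evaluation of the argument before the call -/
noncomputable def fN (n : ℕ) (f : ℕ → ℕ) : ℕ := Nat.rec (f 0) (fun m _ => f (Nat.succ m)) n

theorem fN_eq (n : ℕ) (f : ℕ → ℕ) : fN n f = f n := by cases n <;> rfl

/-- `2 ^ 2560 - 1` -/
def MB : ℕ := nat_lit 0xffffffffffffffffffffffffffffffffffffffffffffffffffffffffffffffffffffffffffffffffffffffffffffffffffffffffffffffffffffffffffffffffffffffffffffffffffffffffffffffffffffffffffffffffffffffffffffffffffffffffffffffffffffffffffffffffffffffffffffffffffffffffffffffffffffffffffffffffffffffffffffffffffffffffffffffffffffffffffffffffffffffffffffffffffffffffffffffffffffffffffffffffffffffffffffffffffffffffffffffffffffffffffffffffffffffffffffffffffffffffffffffffffffffffffffffffffffffffffffffffffffffffffffffffffffffffffffffffffffffffffffffffffffffffffffffffffffffffffffffffffffffffffffffffffffffffffffffffffffffffffffffffffffffffffffffffffffffffffffffff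

/-- block number `b` of the table (64 entries) -/
def blk (T b : ℕ) : ℕ := Nat.land (Nat.shiftRight T (Nat.mul 2560 b)) MB

/-- region of the entry `i` -/
noncomputable def tX (T i : ℕ) : ℕ :=
  Nat.land (Nat.shiftRight (fN (Nat.shiftRight i 6) (blk T)) (Nat.mul 40 (Nat.land i 63))) 4294967295

/-- size bound of the entry `i` -/
noncomputable def tn (T i : ℕ) : ℕ :=
  Nat.land (Nat.shiftRight (fN (Nat.shiftRight i 6) (blk T))
    (Nat.add (Nat.mul 40 (Nat.land i 63)) 32)) 255

theorem tX_lt (T i : ℕ) : tX T i < 2 ^ 32 := by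
  unfold tX
  have h : Nat.land (Nat.shiftRight (fN (Nat.shiftRight i 6) (blk T))
    (Nat.mul 40 (Nat.land i 63))) 4294967295 ≤ 4294967295 := Nat.and_le_right
  omega

/-- the entry `i` is true -/
def Good (T i : ℕ) : Prop := NF 5 (tX T i) 0 [⟨0, tn T i - 1, 0⟩]

/-! ### Bounds -/

theorem or_lt32 {a b : ℕ} (ha : a < 2 ^ 32) (hb : b < 2 ^ 32) : a ||| b < 2 ^ 32 :=
  Nat.or_lt_two_pow ha hb

theorem shl_and_lt {X m s : ℕ} (h : m <<< s < 2 ^ 32) : (X &&& m) <<< s < 2 ^ 32 := by
  rw [Nat.shiftLeft_eq] at *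
  exact lt_of_le_of_lt (Nat.mul_le_mul_right _ Nat.and_le_right) h

theorem and_lt {X m : ℕ} (h : m < 2 ^ 32) : X &&& m < 2 ^ 32 :=
  lt_of_le_of_lt Nat.and_le_right h

theorem flipM_lt {i X : ℕ} (hi : i < 5) : flipM i X < 2 ^ 32 := by
  unfold flipM
  refine or_lt32 (and_lt (lowM_lt i)) (shl_and_lt ?_)
  interval_cases i <;> decide

theorem swapM_lt {i j X : ℕ} (hij : i < j) (hj : j < 5) : swapM i j X < 2 ^ 32 := by
  unfold swapM
  have h1 : ∀ j < 5, ∀ i < j, fixM i j < 2 ^ 32 ∧ tenM i j < 2 ^ 32 ∧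
      tenM i j <<< (2 ^ j - 2 ^ i) < 2 ^ 32 := by decide +kernel
  obtain ⟨h2, h3, h4⟩ := h1 j hj i hij
  exact or_lt32 (or_lt32 (and_lt h2) (shl_and_lt h4)) (and_lt h3)

/-! ### The exchanges -/

/-- masks of the fixed vertices, 32 bits for every nibble -/
def FIXT : ℕ := 0xffffffffffffffffffffffffffffffffffffffffff0000fff0f00f0ff00ff00fcccc3333cc33cc33c3c3c3c3aaaa5555aa55aa55a5a5a5a599999999ffffffff

/-- masks of the vertices moved up -/
def TENT : ℕ := 0xff000000f0f000f000f00000cccc00cc00cc0c0c0c0c0000aaaa00aa00aa0a0a0a0a2222222200000000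

/-- lengths of the shifts -/
def SHT : ℕ := 0x8c4e62f7310

/-- the exchange number `v` applied to a region -/
noncomputable def sw1 (v X : ℕ) : ℕ :=
  Bool.rec (Nat.lor
      (Nat.lor (Nat.land X (Nat.land (Nat.shiftRight FIXT (Nat.mul 32 v)) 4294967295))
        (Nat.shiftLeft (Nat.land X (Nat.land (Nat.shiftRight TENT (Nat.mul 32 v)) 4294967295))
          (Nat.land (Nat.shiftRight SHT (Nat.mul 4 v)) 15)))
      (Nat.land (Nat.shiftRight X (Nat.land (Nat.shiftRight SHT (Nat.mul 4 v)) 15))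
        (Nat.land (Nat.shiftRight TENT (Nat.mul 32 v)) 4294967295))) X (Nat.beq v 0)

theorem sw1_id {v X : ℕ} (hv : v = 0 ∨ 11 ≤ v) (hv' : v < 16) (hX : X < 2 ^ 32) : sw1 v X = X := by
  have key : ∀ v : ℕ, 11 ≤ v → v < 16 →
      Nat.land (Nat.shiftRight FIXT (Nat.mul 32 v)) 4294967295 = 2 ^ 32 - 1 ∧
      Nat.land (Nat.shiftRight TENT (Nat.mul 32 v)) 4294967295 = 0 := by
    intro v h1 h2
    interval_cases v <;> exact ⟨by decide +kernel, by decide +kernel⟩
  rcases hv with rfl | hv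
  · rfl
  · have hv0 : Nat.beq v 0 = false := by
      cases v with
      | zero => omega
      | succ n => rfl
    unfold sw1
    rw [hv0, (key v hv hv').1, (key v hv hv').2]
    show ((X &&& (2 ^ 32 - 1)) ||| ((X &&& 0) <<< _)) ||| ((X >>> _) &&& 0) = X
    rw [Nat.and_two_pow_sub_one_eq_mod, Nat.mod_eq_of_lt hX]
    simp

theorem sw1_swap (v : ℕ) (h1 : 1 ≤ v) (h2 : v ≤ 10) :
    ∃ i j, i < j ∧ j < 5 ∧ ∀ X, sw1 v X = swapM i j X := by
  interval_cases v
  · exact ⟨0, 1, by norm_num, by norm_num, fun X => rfl⟩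
  · exact ⟨0, 2, by norm_num, by norm_num, fun X => rfl⟩
  · exact ⟨0, 3, by norm_num, by norm_num, fun X => rfl⟩
  · exact ⟨0, 4, by norm_num, by norm_num, fun X => rfl⟩
  · exact ⟨1, 2, by norm_num, by norm_num, fun X => rfl⟩
  · exact ⟨1, 3, by norm_num, by norm_num, fun X => rfl⟩
  · exact ⟨1, 4, by norm_num, by norm_num, fun X => rfl⟩
  · exact ⟨2, 3, by norm_num, by norm_num, fun X => rfl⟩
  · exact ⟨2, 4, by norm_num, by norm_num, fun X => rfl⟩
  · exact ⟨3, 4, by norm_num, by norm_num, fun X => rfl⟩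

theorem swapV_zero (i j : ℕ) : swapV i j 0 = 0 := by simp [swapV]

theorem sw1_ok {v X k : ℕ} (hv : v < 16) (hX : X < 2 ^ 32) (h : NF 5 X 0 [⟨0, k, 0⟩]) :
    sw1 v X < 2 ^ 32 ∧ NF 5 (sw1 v X) 0 [⟨0, k, 0⟩] := by
  by_cases h1 : 1 ≤ v ∧ v ≤ 10
  · obtain ⟨i, j, hij, hj, hs⟩ := sw1_swap v h1.1 h1.2
    rw [hs X]
    refine ⟨swapM_lt hij hj, ?_⟩
    have h2 := NF.swap hij hj hX (show (0 : ℕ) < 2 ^ 32 by norm_num) h
    have h3 : swapM i j 0 = 0 := by simp [swapM]
    have h4 : List.map (Mk.map (swapV i j)) [(⟨0, k, 0⟩ : Mk ℕ)] = [⟨0, k, 0⟩] := by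
      simp [Mk.map, swapV_zero]
    rwa [h3, h4] at h2
  · have e : sw1 v X = X := sw1_id (by omega) hv hX
    rw [e]
    exact ⟨hX, h⟩

/-- four exchanges, coded by nibbles, the lowest nibble first -/
noncomputable def sw4 (s X : ℕ) : ℕ :=
  sw1 (Nat.land (Nat.shiftRight s 12) 15)
    (sw1 (Nat.land (Nat.shiftRight s 8) 15)
      (sw1 (Nat.land (Nat.shiftRight s 4) 15) (sw1 (Nat.land s 15) X)))

theorem land15_lt (a : ℕ) : Nat.land a 15 < 16 := by
  have h : Nat.land a 15 ≤ 15 := Nat.and_le_right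
  omega

theorem sw4_ok {s X k : ℕ} (hX : X < 2 ^ 32) (h : NF 5 X 0 [⟨0, k, 0⟩]) :
    sw4 s X < 2 ^ 32 ∧ NF 5 (sw4 s X) 0 [⟨0, k, 0⟩] := by
  have h1 := sw1_ok (land15_lt s) hX h
  have h2 := sw1_ok (land15_lt (Nat.shiftRight s 4)) h1.1 h1.2
  have h3 := sw1_ok (land15_lt (Nat.shiftRight s 8)) h2.1 h2.2
  exact sw1_ok (land15_lt (Nat.shiftRight s 12)) h3.1 h3.2

/-! ### Translations -/

/-- conditional flip; `m` is the mask `lowM i` and `s = 2 ^ i` -/
noncomputable def fl1 (m s r X : ℕ) : ℕ :=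
  Bool.rec (Nat.lor (Nat.land (Nat.shiftRight X s) m) (Nat.shiftLeft (Nat.land X m) s)) X
    (Nat.beq (Nat.land r s) 0)

/-- translation by `r` -/
noncomputable def tr (r X : ℕ) : ℕ :=
  fl1 0x0000FFFF 16 r (fl1 0x00FF00FF 8 r (fl1 0x0F0F0F0F 4 r (fl1 0x33333333 2 r
    (fl1 0x55555555 1 r X))))

theorem and_two_pow_cases (r i : ℕ) : r &&& 2 ^ i = 0 ∨ r &&& 2 ^ i = 2 ^ i := by
  cases h : r.testBit i with
  | false =>
    left
    apply Nat.eq_of_testBit_eq
    intro j
    rw [Nat.testBit_and, Nat.testBit_two_pow, Nat.zero_testBit]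
    by_cases hj : i = j
    · subst hj; simp [h]
    · simp [hj]
  | true =>
    right
    apply Nat.eq_of_testBit_eq
    intro j
    rw [Nat.testBit_and, Nat.testBit_two_pow]
    by_cases hj : i = j
    · subst hj; simp [h]
    · simp [hj]

theorem fl1_ok {i r X p k : ℕ} (hi : i < 5) (hX : X < 2 ^ 32) (h : NF 5 X 0 [⟨p, k, 0⟩]) :
    fl1 (lowM i) (2 ^ i) r X < 2 ^ 32 ∧
      NF 5 (fl1 (lowM i) (2 ^ i) r X) 0 [⟨p ^^^ (r &&& 2 ^ i), k, 0⟩] := by
  have e0 : Nat.land r (2 ^ i) = r &&& 2 ^ i := rfl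
  rcases and_two_pow_cases r i with h1 | h1
  · have e : fl1 (lowM i) (2 ^ i) r X = X := by
      unfold fl1
      rw [e0, h1]
      rfl
    rw [e, h1, Nat.xor_zero]
    exact ⟨hX, h⟩
  · have e : fl1 (lowM i) (2 ^ i) r X = flipM i X := by
      unfold fl1
      have h2 : Nat.beq (2 ^ i) 0 = false := by
        have : 2 ^ i ≠ 0 := by positivity
        cases h3 : Nat.beq (2 ^ i) 0 with
        | false => rfl
        | true => exact absurd (Nat.eq_of_beq_eq_true h3) this
      rw [e0, h1, h2]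
      rfl
    rw [e, h1]
    refine ⟨flipM_lt hi, ?_⟩
    have h2 := NF.flip hi hX (show (0 : ℕ) < 2 ^ 32 by norm_num) h
    have h3 : flipM i 0 = 0 := by simp [flipM]
    rwa [h3] at h2

theorem tr_ok {r X k : ℕ} (hr : r < 32) (hX : X < 2 ^ 32) (h : NF 5 X 0 [⟨0, k, 0⟩]) :
    tr r X < 2 ^ 32 ∧ NF 5 (tr r X) 0 [⟨r, k, 0⟩] := by
  have h1 := fl1_ok (i := 0) (r := r) (by norm_num) hX h
  have h2 := fl1_ok (i := 1) (r := r) (by norm_num) h1.1 h1.2
  have h3 := fl1_ok (i := 2) (r := r) (by norm_num) h2.1 h2.2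
  have h4 := fl1_ok (i := 3) (r := r) (by norm_num) h3.1 h3.2
  have h5 := fl1_ok (i := 4) (r := r) (by norm_num) h4.1 h4.2
  refine ⟨h5.1, ?_⟩
  have e : ∀ r < 32, 0 ^^^ (r &&& 2 ^ 0) ^^^ (r &&& 2 ^ 1) ^^^ (r &&& 2 ^ 2) ^^^ (r &&& 2 ^ 3) ^^^
      (r &&& 2 ^ 4) = r := by decide +kernel
  have h6 := h5.2
  rw [e r hr] at h6
  exact h6

/-! ### Directions -/

/-- flip of a region in the direction `s = 2 ^ i` -/
def fld (s X : ℕ) : ℕ :=
  Nat.lor (Nat.land (Nat.shiftRight X s) (Nat.div 4294967295 (Nat.succ (Nat.pow 2 s))))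
    (Nat.shiftLeft (Nat.land X (Nat.div 4294967295 (Nat.succ (Nat.pow 2 s)))) s)

theorem fld_eq {i : ℕ} (hi : i < 5) (X : ℕ) : fld (2 ^ i) X = flipM i X := by
  interval_cases i <;> rfl

/-! ### Two rules -/

/-- weaker bound, larger region, one mark -/
theorem one_of {X Y p k k' : ℕ} (h : NF 5 X 0 [⟨p, k, 0⟩]) (hk : k' ≤ k) (hX : Y &&& X = X) :
    NF 5 Y 0 [⟨p, k', 0⟩] := by
  refine NF.cover (refs := [⟨X, 0, [⟨p, k, 0⟩]⟩]) (by simpa [St.Ok] using h) ?_ ?_
  · simp [coverB, hX]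
  · simp [servedB, Mk.domB, hk]

/-- two disjoint regions -/
theorem two_of {X X' Y p p' k k' l l' : ℕ} (h : NF 5 X 0 [⟨p, k, 0⟩]) (h' : NF 5 X' 0 [⟨p', k', 0⟩])
    (hpp : p ≠ p') (hl : l ≤ k) (hl' : l' ≤ k') (hX : Y &&& X = X)
    (hX' : (Y ^^^ X) &&& X' = X') :
    NF 5 Y 0 [⟨p, l, 0⟩, ⟨p', l', 0⟩] := by
  refine NF.cover (refs := [⟨X, 0, [⟨p, k, 0⟩]⟩, ⟨X', 0, [⟨p', k', 0⟩]⟩]) ?_ ?_ ?_
  · intro r hr
    simp only [List.mem_cons, List.not_mem_nil, or_false] at hr
    rcases hr with rfl | rfl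
    · exact h
    · exact h'
  · simp [coverB, hX, hX']
  · simp [servedB, Mk.domB, hl, hl', hpp, hpp.symm]

/-! ### The check of an entry -/

/-- is `r` one of `1, 2, 4, 8, 16` -/
def isDir (r : ℕ) : Bool := Nat.beq (Nat.land (Nat.shiftRight 65814 r) 1) 1

theorem isDir_ok {r : ℕ} (h : isDir r = true) : ∃ i, i < 5 ∧ r = 2 ^ i := by
  have h1 : (65814 >>> r) &&& 1 = 1 := Nat.eq_of_beq_eq_true h
  have h2 : r < 17 := by
    by_contra hc
    push Not at hc
    have : 65814 >>> r = 0 := by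
      rw [Nat.shiftRight_eq_div_pow]
      apply Nat.div_eq_of_lt
      calc 65814 < 2 ^ 17 := by norm_num
        _ ≤ 2 ^ r := Nat.pow_le_pow_right (by norm_num) hc
    rw [this] at h1
    simp at h1
  have key : ∀ r < 17, (65814 >>> r) &&& 1 = 1 → r = 2 ^ 0 ∨ r = 2 ^ 1 ∨ r = 2 ^ 2 ∨ r = 2 ^ 3 ∨
      r = 2 ^ 4 := by decide +kernel
  rcases key r h2 h1 with h | h | h | h | h
  · exact ⟨0, by norm_num, h⟩
  · exact ⟨1, by norm_num, h⟩
  · exact ⟨2, by norm_num, h⟩
  · exact ⟨3, by norm_num, h⟩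
  · exact ⟨4, by norm_num, h⟩

theorem dir_ok {T i s : ℕ} (h : Good T i) (hs : isDir s = true) :
    NF 5 (fld s (tX T i)) 0 [⟨s, tn T i - 1, 0⟩] := by
  obtain ⟨e, he, rfl⟩ := isDir_ok hs
  rw [fld_eq he]
  have h1 := NF.flip he (tX_lt T i) (show (0 : ℕ) < 2 ^ 32 by norm_num) h
  have h2 : flipM e 0 = 0 := by simp [flipM]
  have h3 : List.map (Mk.map (flipV e)) [(⟨0, tn T i - 1, 0⟩ : Mk ℕ)] =
      [⟨2 ^ e, tn T i - 1, 0⟩] := by
    simp [Mk.map, flipV]
  rwa [h2, h3] at h1

/-- certificates: lists of pairs -/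
inductive Pr : Type
  | nil : Pr
  | one (iH dH : ℕ) (rest : Pr) : Pr
  | two (iL dL iH dH : ℕ) (rest : Pr) : Pr

/-- certificates -/
inductive Cf : Type
  | der (s j : ℕ) : Cf
  | prs (l : Pr) : Cf

/-- conjunction (the second factor is evaluated only if the first one is true) -/
@[reducible] noncomputable def nd (a b : Bool) : Bool := Bool.rec (motive := fun _ => Bool) false b a

theorem nd_iff {a b : Bool} : nd a b = true ↔ a = true ∧ b = true := by
  cases a <;> simp [nd]

/-- check of the pairs of an entry. `Y` is the region without the root, `k` the number of the other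
vertices, `t` the number of splits `b < t` which are still open. `lim`: the entries below `lim` are
known. -/
noncomputable def chkP (T lim Y k : ℕ) (l : Pr) : ℕ → Bool :=
  Pr.rec (motive := fun _ => ℕ → Bool) (fun t => Nat.beq t 0)
    (fun iH dH _ ih t =>
      nd (Nat.ble t 1) (nd (isDir dH) (nd (Nat.ble (Nat.succ iH) lim)
        (nd (Nat.beq (Nat.land Y (fld dH (tX T iH))) (fld dH (tX T iH)))
          (ih (Nat.sub k (tn T iH)))))))
    (fun iL dL iH dH _ ih t =>
      nd (Nat.ble t (Nat.succ (tn T iL))) (nd (isDir dL) (nd (isDir dH)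
        (nd (Bool.rec (motive := fun _ => Bool) true false (Nat.beq dL dH))
        (nd (Nat.ble (Nat.succ iL) lim) (nd (Nat.ble (Nat.succ iH) lim)
        (nd (Nat.beq (Nat.land Y (fld dL (tX T iL))) (fld dL (tX T iL)))
        (nd (Nat.beq (Nat.land (Nat.xor Y (fld dL (tX T iL))) (fld dH (tX T iH)))
            (fld dH (tX T iH)))
          (ih (Nat.sub k (tn T iH)))))))))))
    l

/-- the split `b` is served -/
def Srv (Y k b : ℕ) : Prop :=
  (b = 0 → 1 ≤ k → ∃ i, i < 5 ∧ NF 5 Y 0 [⟨2 ^ i, k - 1, 0⟩]) ∧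
  (1 ≤ b → b ≤ k → ∃ i j, i < 5 ∧ j < 5 ∧ i ≠ j ∧
    NF 5 Y 0 [⟨2 ^ i, k - b - 1, 0⟩, ⟨2 ^ j, b - 1, 0⟩])

theorem lt_of_succ_ble {a b : ℕ} (h : Nat.ble (Nat.succ a) b = true) : a < b :=
  Nat.le_of_ble_eq_true h

theorem chkP_ok {T lim Y k : ℕ} (hT : ∀ i < lim, Good T i) : ∀ (l : Pr) (t : ℕ),
    chkP T lim Y k l t = true → ∀ b < t, Srv Y k b
  | .nil, t, h, b, hb => by
    have : t = 0 := Nat.eq_of_beq_eq_true h
    omega
  | .one iH dH l, t, h, b, hb => by
    have h' : (nd (Nat.ble t 1) (nd (isDir dH) (nd (Nat.ble (Nat.succ iH) lim)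
        (nd (Nat.beq (Nat.land Y (fld dH (tX T iH))) (fld dH (tX T iH)))
          (chkP T lim Y k l (Nat.sub k (tn T iH))))))) = true := h
    simp only [nd_iff] at h'
    obtain ⟨a1, a2, a3, a4, h2⟩ := h'
    by_cases hbt : b < Nat.sub k (tn T iH)
    · exact chkP_ok hT l _ h2 b hbt
    have hbk : k - tn T iH ≤ b := by
      have : Nat.sub k (tn T iH) = k - tn T iH := rfl
      omega
    have b1 : t ≤ 1 := Nat.le_of_ble_eq_true a1
    have b3 := lt_of_succ_ble a3
    have b4 : Y &&& fld dH (tX T iH) = fld dH (tX T iH) := Nat.eq_of_beq_eq_true a4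
    have hf := dir_ok (hT _ b3) a2
    obtain ⟨i, hi, hr⟩ := isDir_ok a2
    have hb0 : b = 0 := by omega
    subst hb0
    refine ⟨fun _ hk => ⟨i, hi, ?_⟩, fun h => by omega⟩
    have h5 := one_of (k' := k - 1) hf (by omega) b4
    rwa [hr] at h5
  | .two iL dL iH dH l, t, h, b, hb => by
    have h' : (nd (Nat.ble t (Nat.succ (tn T iL))) (nd (isDir dL) (nd (isDir dH)
        (nd (Bool.rec (motive := fun _ => Bool) true false (Nat.beq dL dH))
        (nd (Nat.ble (Nat.succ iL) lim) (nd (Nat.ble (Nat.succ iH) lim)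
        (nd (Nat.beq (Nat.land Y (fld dL (tX T iL))) (fld dL (tX T iL)))
        (nd (Nat.beq (Nat.land (Nat.xor Y (fld dL (tX T iL))) (fld dH (tX T iH)))
            (fld dH (tX T iH)))
          (chkP T lim Y k l (Nat.sub k (tn T iH))))))))))) = true := h
    simp only [nd_iff] at h'
    obtain ⟨a1, a2, a3, a4, a5, a6, a7, a8, h2⟩ := h'
    by_cases hbt : b < Nat.sub k (tn T iH)
    · exact chkP_ok hT l _ h2 b hbt
    have hbk : k - tn T iH ≤ b := by
      have : Nat.sub k (tn T iH) = k - tn T iH := rfl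
      omega
    have b1 : t ≤ tn T iL + 1 := Nat.le_of_ble_eq_true a1
    have hfL := dir_ok (hT _ (lt_of_succ_ble a5)) a2
    have hfH := dir_ok (hT _ (lt_of_succ_ble a6)) a3
    obtain ⟨j, hj, hrL⟩ := isDir_ok a2
    obtain ⟨i, hi, hrH⟩ := isDir_ok a3
    have b4 : dL ≠ dH := by
      intro e
      rw [e] at a4
      have : Nat.beq dH dH = true := Nat.beq_refl _
      rw [this] at a4
      exact absurd a4 (by simp)
    generalize fld dL (tX T iL) = XL at *
    generalize fld dH (tX T iH) = XH at *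
    have b7 : Y &&& XL = XL := Nat.eq_of_beq_eq_true a7
    have b8 : (Y ^^^ XL) &&& XH = XH := Nat.eq_of_beq_eq_true a8
    have hYH : Y &&& XH = XH := by
      have e2 : (Y ^^^ XL) &&& Y = Y ^^^ XL := (xor_and_disj b7).2
      calc Y &&& XH = Y &&& ((Y ^^^ XL) &&& XH) := by rw [b8]
        _ = ((Y ^^^ XL) &&& Y) &&& XH := by
          rw [← Nat.land_assoc, Nat.land_comm Y]
        _ = XH := by rw [e2, b8]
    refine ⟨fun hb0 hk => ⟨i, hi, ?_⟩, fun hb1 hbk' => ⟨i, j, hi, hj, ?_, ?_⟩⟩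
    · have h5 := one_of (k' := k - 1) hfH (by omega) hYH
      rwa [hrH] at h5
    · intro e
      apply b4
      rw [hrL, hrH, e]
    · have h3 := two_of (l := b - 1) (l' := k - b - 1) hfL hfH b4 (by omega) (by omega) b7 b8
      rw [hrL, hrH] at h3
      exact NF.congr (by intro m; simp [or_comm]) h3

/-- check of the entry `i` with the certificate `c` -/
noncomputable def chkE (T i : ℕ) (c : Cf) : Bool :=
  Cf.rec (motive := fun _ => Bool)
    (fun s j => nd (Nat.ble (Nat.succ j) i) (nd (Nat.ble (tn T i) (tn T j))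
      (Nat.beq (tX T i) (sw4 s (tX T j)))))
    (fun l => nd (Nat.beq (Nat.land (tX T i) 1) 1)
      (Bool.rec (motive := fun _ => Bool)
        (chkP T i (Nat.xor (tX T i) 1) (Nat.pred (tn T i)) l
          (Nat.succ (Nat.shiftRight (Nat.pred (tn T i)) 1)))
        true (Nat.ble (tn T i) 1)))
    c

theorem testBit_zero_of {X : ℕ} (h : X &&& 1 = 1) : X.testBit 0 = true := by
  have h1 : (X &&& 1).testBit 0 = true := by rw [h]; rfl
  rw [Nat.testBit_and, Bool.and_eq_true] at h1
  exact h1.1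

theorem chkE_ok {T i : ℕ} {c : Cf} (hT : ∀ j < i, Good T j) (h : chkE T i c = true) :
    Good T i := by
  cases c with
  | der s j =>
    have h' : (nd (Nat.ble (Nat.succ j) i) (nd (Nat.ble (tn T i) (tn T j))
      (Nat.beq (tX T i) (sw4 s (tX T j))))) = true := h
    simp only [nd_iff] at h'
    obtain ⟨a1, a2, a3⟩ := h'
    have b1 := hT _ (lt_of_succ_ble a1)
    have b2 : tn T i ≤ tn T j := Nat.le_of_ble_eq_true a2
    have b3 : tX T i = sw4 s (tX T j) := Nat.eq_of_beq_eq_true a3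
    have h1 := (sw4_ok (s := s) (tX_lt T j) b1).2
    unfold Good
    rw [b3]
    exact one_of h1 (by omega) (by rw [Nat.and_self])
  | prs l =>
    have h' : (nd (Nat.beq (Nat.land (tX T i) 1) 1)
      (Bool.rec (motive := fun _ => Bool)
        (chkP T i (Nat.xor (tX T i) 1) (Nat.pred (tn T i)) l
          (Nat.succ (Nat.shiftRight (Nat.pred (tn T i)) 1)))
        true (Nat.ble (tn T i) 1))) = true := h
    rw [nd_iff] at h'
    obtain ⟨h1, h2⟩ := h'
    have h3 : (tX T i) &&& 1 = 1 := Nat.eq_of_beq_eq_true h1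
    have h4 := testBit_zero_of h3
    unfold Good
    cases hn : Nat.ble (tn T i) 1 with
    | true =>
      have h5 : tn T i ≤ 1 := Nat.le_of_ble_eq_true hn
      have h6 := St.ok_single 5 0 0 0
      unfold St.Ok at h6
      have e : tn T i - 1 = 0 := by omega
      rw [e]
      refine one_of h6 le_rfl ?_
      show tX T i &&& 2 ^ 0 = 2 ^ 0
      rw [pow_zero]; exact h3
    | false =>
      rw [hn] at h2
      have h5 : 1 < tn T i := by
        by_contra hc
        push Not at hc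
        have := Nat.ble_eq_true_of_le hc
        rw [this] at hn
        exact absurd hn (by simp)
      have h6 := chkP_ok hT l _ h2
      have e1 : Nat.pred (tn T i) = tn T i - 1 := rfl
      have e2 : Nat.shiftRight (tn T i - 1) 1 = (tn T i - 1) / 2 := rfl
      rw [e1, e2] at h6
      have h7 : ∀ b, 2 * b ≤ tn T i - 1 → Srv (Nat.xor (tX T i) 1) (tn T i - 1) b := by
        intro b hb
        apply h6
        show b < (tn T i - 1) / 2 + 1
        omega
      have e3 : Nat.xor (tX T i) 1 = tX T i ^^^ 2 ^ 0 := rfl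
      rw [e3] at h7
      refine NF.expand (by omega) h4 (by simp) ?_ ?_
      · obtain ⟨j, hj, h8⟩ := (h7 0 (by omega)).1 rfl (by omega)
        refine ⟨j, hj, by simp, Or.inr rfl, ?_⟩
        rw [Nat.zero_xor]
        exact h8
      · intro b hb hb2 sb hsb
        obtain ⟨i', j, hi, hj, hij, h8⟩ := (h7 b hb2).2 hb (by omega)
        have hsb0 : sb = 0 := by omega
        subst hsb0
        refine ⟨i', j, hi, hj, hij, by simp, Or.inr rfl, Or.inr rfl, ?_⟩
        rw [Nat.zero_xor, Nat.zero_xor]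
        exact h8

/-- check of a list of consecutive entries -/
noncomputable def chkL (T : ℕ) (cs : List Cf) : ℕ → Bool :=
  List.rec (motive := fun _ => ℕ → Bool) (fun _ => true)
    (fun c _ ih i => nd (chkE T i c) (ih (Nat.succ i))) cs

theorem chkL_ok {T : ℕ} : ∀ (cs : List Cf) (i : ℕ), (∀ j < i, Good T j) →
    chkL T cs i = true → ∀ j < i + cs.length, Good T j
  | [], i, hT, _, j, hj => hT j (by simpa using hj)
  | c :: cs, i, hT, h, j, hj => by
    have h' : (nd (chkE T i c) (chkL T cs (Nat.succ i))) = true := h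
    rw [nd_iff] at h'
    refine chkL_ok cs (i + 1) ?_ h'.2 j (by rw [List.length_cons] at hj; omega)
    intro l hl
    rcases Nat.lt_succ_iff_lt_or_eq.mp hl with hl | rfl
    · exact hT l hl
    · exact chkE_ok hT h'.1

/-! ### Covers -/

/-- entry of a reference (index + 2 ^ 20 * translation) -/
def rI (R : ℕ) : ℕ := Nat.land R 1048575

/-- translation of a reference -/
def rR (R : ℕ) : ℕ := Nat.shiftRight R 20

/-- region of a reference -/
noncomputable def img (T R : ℕ) : ℕ := tr (Nat.shiftRight R 20) (tX T (Nat.land R 1048575))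

/-- size bound of a reference -/
noncomputable def cap (T R : ℕ) : ℕ := tn T (Nat.land R 1048575)

theorem ref_ok {T R : ℕ} (h : Good T (rI R)) (hr : rR R < 32) :
    NF 5 (img T R) 0 [⟨rR R, cap T R - 1, 0⟩] :=
  (tr_ok hr (tX_lt T (rI R)) h).2

/-- image with exchanges computed on the fly -/
theorem refS_ok {T i s r : ℕ} (h : Good T i) (hr : r < 32) :
    NF 5 (tr r (sw4 s (tX T i))) 0 [⟨r, tn T i - 1, 0⟩] ∧ tr r (sw4 s (tX T i)) < 2 ^ 32 := by
  have h1 := sw4_ok (s := s) (tX_lt T i) h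
  have h2 := tr_ok hr h1.1 h1.2
  exact ⟨h2.2, h2.1⟩

theorem img_lt {T R : ℕ} (h : Good T (rI R)) (hr : rR R < 32) : img T R < 2 ^ 32 :=
  (tr_ok hr (tX_lt T (rI R)) h).1

/-- check of a cover: the `k`-th reference serves the `k`-th mark `(p, k)` (`k` = number of the
vertices other than the root); the regions are disjoint and contained in `X`. `M`: the entries
below `M` are known -/
noncomputable def covL (T M : ℕ) (ms : List (ℕ × ℕ)) : List ℕ → ℕ → Bool :=
  List.rec (motive := fun _ => List ℕ → ℕ → Bool) (fun _ _ => true)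
    (fun m _ ih Rs X => List.rec (motive := fun _ => Bool) false
      (fun R Rs' _ =>
        nd (Nat.beq (rR R) m.1) (nd (Nat.ble (Nat.succ m.1) 32) (nd (Nat.ble (Nat.succ (rI R)) M)
          (nd (Nat.ble m.2 (Nat.pred (cap T R)))
            (nd (Nat.beq (Nat.land X (img T R)) (img T R)) (ih Rs' (Nat.xor X (img T R)))))))) Rs)
    ms

/-- the mark of a pair -/
def mkOf (m : ℕ × ℕ) : Mk ℕ := ⟨m.1, m.2, 0⟩

theorem covL_ok {T M : ℕ} (hT : ∀ i < M, Good T i) : ∀ (ms : List (ℕ × ℕ)) (Rs : List ℕ) (X : ℕ),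
    (ms.map Prod.fst).Nodup → covL T M ms Rs X = true → NF 5 X 0 (ms.map mkOf)
  | [], _, X, _, _ => by
    intro τ _
    exact ⟨fun _ => ∅, fun _ => [], by simp, by simp⟩
  | m :: ms, [], X, _, h => by
    have h' : false = true := h
    exact absurd h' (by simp)
  | m :: ms, R :: Rs, X, hnd, h => by
    have h' : (nd (Nat.beq (rR R) m.1) (nd (Nat.ble (Nat.succ m.1) 32)
      (nd (Nat.ble (Nat.succ (rI R)) M) (nd (Nat.ble m.2 (Nat.pred (cap T R)))
      (nd (Nat.beq (Nat.land X (img T R)) (img T R))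
        (covL T M ms Rs (Nat.xor X (img T R)))))))) = true := h
    simp only [nd_iff] at h'
    obtain ⟨a1, a2, a3, a4, a5, a6⟩ := h'
    have b1 : rR R = m.1 := Nat.eq_of_beq_eq_true a1
    have b2 := lt_of_succ_ble a2
    have b3 := lt_of_succ_ble a3
    have b4 : m.2 ≤ cap T R - 1 := Nat.le_of_ble_eq_true a4
    have b5 : X &&& img T R = img T R := Nat.eq_of_beq_eq_true a5
    rw [List.map_cons, List.nodup_cons] at hnd
    have ih := covL_ok hT ms Rs _ hnd.2 a6
    have hf := ref_ok (hT _ b3) (by rw [b1]; exact b2)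
    rw [b1] at hf
    refine NF.cover (refs := [⟨img T R, 0, [⟨m.1, cap T R - 1, 0⟩]⟩,
      ⟨Nat.xor X (img T R), 0, ms.map mkOf⟩]) ?_ ?_ ?_
    · intro r hr
      simp only [List.mem_cons, List.not_mem_nil, or_false] at hr
      rcases hr with rfl | rfl
      · exact hf
      · exact ih
    · have e : Nat.xor X (img T R) = X ^^^ img T R := rfl
      simp [coverB, b5]
    · rw [List.all_eq_true]
      intro x hx
      rw [List.map_cons, List.mem_cons] at hx
      unfold servedB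
      rw [List.any_eq_true]
      rcases hx with rfl | hx
      · refine ⟨_, List.mem_cons_self, ?_⟩
        simp [mkOf, Mk.domB, b4]
      · refine ⟨_, List.mem_cons_of_mem _ List.mem_cons_self, ?_⟩
        obtain ⟨y, hy, rfl⟩ := List.mem_map.mp hx
        rw [Bool.and_eq_true, List.any_eq_true, List.all_eq_true]
        refine ⟨⟨mkOf y, hx, by simp⟩, ?_⟩
        intro z hz
        obtain ⟨w, hw, rfl⟩ := List.mem_map.mp hz
        by_cases hwy : w.1 = y.1
        · have hwy' : w = y := List.inj_on_of_nodup_map hnd.2 hw hy hwy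
          subst hwy'
          simp [mkOf, Mk.domB]
        · simp [mkOf, hwy]

end Tab

end Pool.Agent.Work.MP_bf01b2_co.MR
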