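import Pool.Agent.Work.MP_bf01b2_co.MR.TabsO

set_option autoImplicit false

namespace Pool.Agent.Work.MP_bf01b2_co.MR

/-- the facts of `Q_6` which are used -/
def LSy : List (ℕ × ℕ × ℕ) :=
  [(1, 0, 45), (1, 1, 43), (1, 2, 42), (1, 3, 38), (1, 4, 33), (2, 0, 42), (2, 1, 41), (2, 2, 39), (2, 3, 34), (3, 0, 42), (3, 1, 37), (3, 2, 35), (4, 0, 38), (4, 1, 36), (5, 0, 31)]

/-- the table of caps (row = number of trees, column = number of softs) -/
def CSy : List (List ℕ) :=
  [[],
  [45, 43, 42, 38, 33],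
  [42, 41, 39, 34],
  [42, 37, 35],
  [38, 36],
  [31]]

theorem CSy_chk : capChk 6 LSy CSy = true := by decide +kernel

theorem CSy_ok (h : BaseO 6 LSy) : CapO 6 CSy := h.capO CSy_chk

def GSy_1 : List (ℕ × List (ℕ × ℕ)) :=
  [(0, [])]

theorem GSy_1_ok : Adv.groups 1 1 = GSy_1 := by decide +kernel

theorem GSy_1_sen : Adv.sen 1 = 2 := by decide +kernel

theorem GSy_1_full : Adv.fullN 1 = 2 := by decide +kernel

def GSy_2 : List (ℕ × List (ℕ × ℕ)) :=
  [(0, []),
  (4, [(4, 3)])]

theorem GSy_2_ok : Adv.groups 2 2 = GSy_2 := by decide +kernel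

theorem GSy_2_sen : Adv.sen 2 = 16 := by decide +kernel

theorem GSy_2_full : Adv.fullN 2 = 20 := by decide +kernel

def GSy_3 : List (ℕ × List (ℕ × ℕ)) :=
  [(0, []),
  (136, [(128, 6), (8, 3)]),
  (192, [(128, 6), (64, 5)]),
  (72, [(64, 5), (8, 3)])]

theorem GSy_3_ok : Adv.groups 3 3 = GSy_3 := by decide +kernel

theorem GSy_3_sen : Adv.sen 3 = 512 := by decide +kernel

theorem GSy_3_full : Adv.fullN 3 = 712 := by decide +kernel

def GSy_4 : List (ℕ × List (ℕ × ℕ)) :=
  [(0, []),
  (8720, [(8192, 10), (512, 6), (16, 3)]),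
  (17152, [(16384, 12), (512, 6), (256, 5)]),
  (24848, [(16384, 12), (8192, 10), (256, 5), (8448, 15), (16, 3), (16400, 15)]),
  (28672, [(16384, 12), (8192, 10), (4096, 9)]),
  (21008, [(16384, 12), (4096, 9), (512, 6), (4608, 15), (16, 3), (16400, 15)]),
  (13056, [(8192, 10), (4096, 9), (512, 6), (4608, 15), (256, 5), (8448, 15)]),
  (4368, [(4096, 9), (256, 5), (16, 3)])]

theorem GSy_4_ok : Adv.groups 4 4 = GSy_4 := by decide +kernel

theorem GSy_4_sen : Adv.sen 4 = 65536 := by decide +kernel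

theorem GSy_4_full : Adv.fullN 4 = 94992 := by decide +kernel

def GSy_5 : List (ℕ × List (ℕ × ℕ)) :=
  [(0, []),
  (2164768, [(2097152, 18), (65536, 10), (2048, 6), (32, 3)]),
  (4328448, [(4194304, 20), (131072, 12), (2048, 6), (1024, 5)]),
  (6489120, [(4194304, 20), (2097152, 18), (131072, 12), (2228224, 30), (65536, 10), (4259840, 30), (1024, 5), 
    (2098176, 23), (66560, 15), (32, 3), (4194336, 23), (131104, 15)]),
  (8617984, [(8388608, 24), (131072, 12), (65536, 10), (32768, 9)]),
  (10651680, [(8388608, 24), (2097152, 18), (131072, 12), (2228224, 30), (32768, 9), (2129920, 27), (2048, 6), 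
    (8390656, 30), (34816, 15), (32, 3), (8388640, 27), (131104, 15)]),
  (12684288, [(8388608, 24), (4194304, 20), (65536, 10), (4259840, 30), (32768, 9), (4227072, 29), (2048, 6), 
    (8390656, 30), (34816, 15), (1024, 5), (8389632, 29), (66560, 15)]),
  (14713888, [(8388608, 24), (4194304, 20), (2097152, 18), (32768, 9), (4227072, 29), (2129920, 27), (1024, 5), 
    (8389632, 29), (2098176, 23), (32, 3), (8388640, 27), (4194336, 23)]),
  (15728640, [(8388608, 24), (4194304, 20), (2097152, 18), (1048576, 17)]),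
  (13699104, [(8388608, 24), (4194304, 20), (1048576, 17), (65536, 10), (4259840, 30), (1114112, 27), (2048, 6), 
    (8390656, 30), (1050624, 23), (32, 3), (8388640, 27), (4194336, 23)]),
  (11668480, [(8388608, 24), (2097152, 18), (1048576, 17), (131072, 12), (2228224, 30), (1179648, 29), (2048, 6), 
    (8390656, 30), (1050624, 23), (1024, 5), (8389632, 29), (2098176, 23)]),
  (9634848, [(8388608, 24), (1048576, 17), (131072, 12), (1179648, 29), (65536, 10), (1114112, 27), (1024, 5), 
    (8389632, 29), (66560, 15), (32, 3), (8388640, 27), (131104, 15)]),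
  (7569408, [(4194304, 20), (2097152, 18), (1048576, 17), (131072, 12), (2228224, 30), (1179648, 29), (65536, 10), 
    (4259840, 30), (1114112, 27), (32768, 9), (4227072, 29), (2129920, 27)]),
  (5408800, [(4194304, 20), (1048576, 17), (131072, 12), (1179648, 29), (32768, 9), (4227072, 29), (2048, 6), 
    (1050624, 23), (34816, 15), (32, 3), (4194336, 23), (131104, 15)]),
  (3247104, [(2097152, 18), (1048576, 17), (65536, 10), (1114112, 27), (32768, 9), (2129920, 27), (2048, 6), 
    (1050624, 23), (34816, 15), (1024, 5), (2098176, 23), (66560, 15)]),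
  (1082400, [(1048576, 17), (32768, 9), (1024, 5), (32, 3)])]

theorem GSy_5_ok : Adv.groups 5 5 = GSy_5 := by decide +kernel

theorem GSy_5_sen : Adv.sen 5 = 33554432 := by decide +kernel

theorem GSy_5_full : Adv.fullN 5 = 49515552 := by decide +kernel

end Pool.Agent.Work.MP_bf01b2_co.MR
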