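import Mathlib

/-!
# Marks recursion: trees with holes, embeddings of forests with prescribed roots
-/

namespace Pool.Agent.Work.MP_bf01b2_co.MR

/-- Binary trees with holes. A hole marks a child that has been cut off. -/
inductive HT : Type
  | nil : HT
  | hole : HT
  | node (l r : HT) : HT
  deriving DecidableEq

namespace HT

/-- number of vertices -/
def size : HT → ℕ
  | nil => 0
  | hole => 0
  | node l r => l.size + r.size + 1

/-- number of holes -/
def holes : HT → ℕ
  | nil => 0
  | hole => 1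
  | node l r => l.holes + r.holes

/-- no vertex has two hole children -/
def ok : HT → Prop
  | nil => True
  | hole => True
  | node l r => ¬ (l = hole ∧ r = hole) ∧ l.ok ∧ r.ok

end HT

section emb

variable {V : Type*} [DecidableEq V]

/-- `Slot adj t v S p`: the subtree `t`, hanging below the vertex at position `v`, is embedded with
image `S`; `p` is the list of the positions of the parents of the holes, from left to right. -/
def Slot (adj : V → V → Prop) : HT → V → Finset V → List V → Prop
  | .nil, _, S, p => S = ∅ ∧ p = []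
  | .hole, v, S, p => S = ∅ ∧ p = [v]
  | .node l r, v, S, p => ∃ x, adj v x ∧ ∃ A B pa pb, Slot adj l x A pa ∧ Slot adj r x B pb ∧
      x ∉ A ∧ x ∉ B ∧ Disjoint A B ∧ S = insert x (A ∪ B) ∧ p = pa ++ pb

/-- `Root adj l r x S p`: the tree `node l r` is embedded with root at `x`, image `S`, positions of
the hole parents `p`. -/
def Root (adj : V → V → Prop) (l r : HT) (x : V) (S : Finset V) (p : List V) : Prop :=
  ∃ A B pa pb, Slot adj l x A pa ∧ Slot adj r x B pb ∧
    x ∉ A ∧ x ∉ B ∧ Disjoint A B ∧ S = insert x (A ∪ B) ∧ p = pa ++ pb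

theorem slot_node {adj : V → V → Prop} {l r : HT} {v : V} {S : Finset V} {p : List V} :
    Slot adj (.node l r) v S p ↔ ∃ x, adj v x ∧ Root adj l r x S p := Iff.rfl

/-- A rooted tree with prescribed root position. -/
structure RT (V : Type*) where
  /-- position of the root -/
  pos : V
  /-- left subtree -/
  l : HT
  /-- right subtree -/
  r : HT

/-- number of vertices -/
def RT.size (T : RT V) : ℕ := T.l.size + T.r.size + 1

/-- number of holes -/
def RT.holes (T : RT V) : ℕ := T.l.holes + T.r.holes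

/-- the tree -/
def RT.tree (T : RT V) : HT := .node T.l T.r

/-- `Forest adj Ts S p`: the forest `Ts` is embedded with the prescribed roots; `S` is the image and
`p` the list of the positions of the hole parents. -/
def Forest (adj : V → V → Prop) : List (RT V) → Finset V → List V → Prop
  | [], S, p => S = ∅ ∧ p = []
  | T :: Ts, S, p => ∃ A B pa pb, Root adj T.l T.r T.pos A pa ∧ Forest adj Ts B pb ∧
      Disjoint A B ∧ S = A ∪ B ∧ p = pa ++ pb

/-! ### Positions of the hole parents -/

theorem slot_mem {adj : V → V → Prop} : ∀ {t : HT} {v : V} {S : Finset V} {p : List V},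
    Slot adj t v S p → ∀ q ∈ p, q = v ∧ t = .hole ∨ q ∈ S
  | .nil, _, _, _, h, q, hq => by
    rw [h.2] at hq; simp at hq
  | .hole, v, _, _, h, q, hq => by
    rw [h.2] at hq
    exact Or.inl ⟨by simpa using hq, rfl⟩
  | .node l r, v, S, p, h, q, hq => by
    obtain ⟨x, _, A, B, pa, pb, hA, hB, _, _, _, rfl, rfl⟩ := h
    right
    rcases List.mem_append.mp hq with h' | h'
    · rcases slot_mem hA q h' with ⟨h1, _⟩ | h1
      · simp [h1]
      · simp [h1]
    · rcases slot_mem hB q h' with ⟨h1, _⟩ | h1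
      · simp [h1]
      · simp [h1]

theorem root_mem {adj : V → V → Prop} {l r : HT} {x : V} {S : Finset V} {p : List V}
    (h : Root adj l r x S p) : (∀ q ∈ p, q ∈ S) ∧ x ∈ S := by
  obtain ⟨A, B, pa, pb, hA, hB, _, _, _, rfl, rfl⟩ := h
  refine ⟨fun q hq => ?_, by simp⟩
  rcases List.mem_append.mp hq with h' | h'
  · rcases slot_mem hA q h' with ⟨h1, _⟩ | h1 <;> simp [h1]
  · rcases slot_mem hB q h' with ⟨h1, _⟩ | h1 <;> simp [h1]

theorem forest_mem {adj : V → V → Prop} : ∀ {Ts : List (RT V)} {S : Finset V} {p : List V},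
    Forest adj Ts S p → (∀ q ∈ p, q ∈ S) ∧ ∀ T ∈ Ts, T.pos ∈ S
  | [], S, p, h => by
    refine ⟨fun q hq => ?_, by simp⟩
    rw [h.2] at hq; simp at hq
  | T :: Ts, S, p, h => by
    obtain ⟨A, B, pa, pb, hA, hB, _, rfl, rfl⟩ := h
    have h1 := root_mem hA
    have h2 := forest_mem hB
    refine ⟨fun q hq => ?_, fun U hU => ?_⟩
    · rcases List.mem_append.mp hq with h' | h'
      · exact Finset.mem_union_left _ (h1.1 q h')
      · exact Finset.mem_union_right _ (h2.1 q h')
    · rcases List.mem_cons.mp hU with rfl | h'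
      · exact Finset.mem_union_left _ h1.2
      · exact Finset.mem_union_right _ (h2.2 U h')

theorem slot_length {adj : V → V → Prop} : ∀ {t : HT} {v : V} {S : Finset V} {p : List V},
    Slot adj t v S p → p.length = t.holes ∧ S.card = t.size
  | .nil, _, _, _, h => by rw [h.1, h.2]; simp [HT.holes, HT.size]
  | .hole, _, _, _, h => by rw [h.1, h.2]; simp [HT.holes, HT.size]
  | .node l r, v, S, p, h => by
    obtain ⟨x, _, A, B, pa, pb, hA, hB, hx, hx', hd, rfl, rfl⟩ := h
    have h1 := slot_length hA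
    have h2 := slot_length hB
    refine ⟨?_, ?_⟩
    · rw [List.length_append, h1.1, h2.1, HT.holes]
    · rw [Finset.card_insert_of_notMem (by simp [hx, hx']), Finset.card_union_of_disjoint hd,
        h1.2, h2.2, HT.size]

theorem slot_nodup {adj : V → V → Prop} : ∀ {t : HT} {v : V} {S : Finset V} {p : List V},
    Slot adj t v S p → t.ok → v ∉ S → p.Nodup
  | .nil, _, _, _, h, _, _ => by rw [h.2]; simp
  | .hole, _, _, _, h, _, _ => by rw [h.2]; simp
  | .node l r, v, S, p, h, hok, _ => by
    obtain ⟨x, _, A, B, pa, pb, hA, hB, hx, hx', hd, rfl, rfl⟩ := h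
    obtain ⟨h0, h1, h2⟩ := hok
    rw [List.nodup_append]
    refine ⟨slot_nodup hA h1 hx, slot_nodup hB h2 hx', ?_⟩
    intro a ha b hb hab
    subst hab
    rcases slot_mem hA a ha with ⟨e1, e2⟩ | e1
    · rcases slot_mem hB a hb with ⟨e3, e4⟩ | e3
      · exact h0 ⟨e2, e4⟩
      · rw [e1] at e3; exact hx' e3
    · rcases slot_mem hB a hb with ⟨e3, e4⟩ | e3
      · rw [e3] at e1; exact hx e1
      · exact (Finset.disjoint_left.mp hd e1) e3

theorem root_nodup {adj : V → V → Prop} {l r : HT} {x : V} {S : Finset V} {p : List V}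
    (h : Root adj l r x S p) (hok : (HT.node l r).ok) : p.Nodup := by
  obtain ⟨A, B, pa, pb, hA, hB, hx, hx', hd, rfl, rfl⟩ := h
  obtain ⟨h0, h1, h2⟩ := hok
  rw [List.nodup_append]
  refine ⟨slot_nodup hA h1 hx, slot_nodup hB h2 hx', ?_⟩
  intro a ha b hb hab
  subst hab
  rcases slot_mem hA a ha with ⟨e1, e2⟩ | e1
  · rcases slot_mem hB a hb with ⟨e3, e4⟩ | e3
    · exact h0 ⟨e2, e4⟩
    · rw [e1] at e3; exact hx' e3
  · rcases slot_mem hB a hb with ⟨e3, e4⟩ | e3
    · rw [e3] at e1; exact hx e1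
    · exact (Finset.disjoint_left.mp hd e1) e3

theorem forest_nodup {adj : V → V → Prop} : ∀ {Ts : List (RT V)} {S : Finset V} {p : List V},
    Forest adj Ts S p → (∀ T ∈ Ts, T.tree.ok) → p.Nodup
  | [], S, p, h, _ => by rw [h.2]; simp
  | T :: Ts, S, p, h, hok => by
    obtain ⟨A, B, pa, pb, hA, hB, hd, rfl, rfl⟩ := h
    rw [List.nodup_append]
    refine ⟨root_nodup hA (hok T (by simp)), forest_nodup hB (fun U hU => hok U (by simp [hU])),
      ?_⟩
    intro a ha b hb hab
    subst hab
    exact (Finset.disjoint_left.mp hd ((root_mem hA).1 a ha)) ((forest_mem hB).1 a hb)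

/-! ### Transport -/

theorem slot_map {W : Type*} [DecidableEq W] {adj : V → V → Prop} {adj' : W → W → Prop}
    (φ : V ↪ W) (hφ : ∀ a b, adj a b → adj' (φ a) (φ b)) :
    ∀ {t : HT} {v : V} {S : Finset V} {p : List V},
      Slot adj t v S p → Slot adj' t (φ v) (S.map φ) (p.map φ)
  | .nil, _, _, _, h => by rw [h.1, h.2]; exact ⟨by simp, by simp⟩
  | .hole, _, _, _, h => by rw [h.1, h.2]; exact ⟨by simp, by simp⟩
  | .node l r, v, S, p, h => by
    obtain ⟨x, hvx, A, B, pa, pb, hA, hB, hx, hx', hd, rfl, rfl⟩ := h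
    refine ⟨φ x, hφ _ _ hvx, A.map φ, B.map φ, pa.map φ, pb.map φ, slot_map φ hφ hA,
      slot_map φ hφ hB, by simpa using hx, by simpa using hx', ?_, ?_, by simp⟩
    · rwa [Finset.disjoint_map]
    · rw [Finset.map_insert, Finset.map_union]

theorem root_map {W : Type*} [DecidableEq W] {adj : V → V → Prop} {adj' : W → W → Prop}
    (φ : V ↪ W) (hφ : ∀ a b, adj a b → adj' (φ a) (φ b)) {l r : HT} {x : V} {S : Finset V}
    {p : List V} (h : Root adj l r x S p) :
    Root adj' l r (φ x) (S.map φ) (p.map φ) := by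
  obtain ⟨A, B, pa, pb, hA, hB, hx, hx', hd, rfl, rfl⟩ := h
  refine ⟨A.map φ, B.map φ, pa.map φ, pb.map φ, slot_map φ hφ hA,
      slot_map φ hφ hB, by simpa using hx, by simpa using hx', ?_, ?_, by simp⟩
  · rwa [Finset.disjoint_map]
  · rw [Finset.map_insert, Finset.map_union]

/-- image of a rooted tree -/
def RT.map {W : Type*} (φ : V → W) (T : RT V) : RT W := ⟨φ T.pos, T.l, T.r⟩

theorem forest_map {W : Type*} [DecidableEq W] {adj : V → V → Prop} {adj' : W → W → Prop}
    (φ : V ↪ W) (hφ : ∀ a b, adj a b → adj' (φ a) (φ b)) :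
    ∀ {Ts : List (RT V)} {S : Finset V} {p : List V},
      Forest adj Ts S p → Forest adj' (Ts.map (RT.map φ)) (S.map φ) (p.map φ)
  | [], _, _, h => by rw [h.1, h.2]; exact ⟨by simp, by simp⟩
  | T :: Ts, S, p, h => by
    obtain ⟨A, B, pa, pb, hA, hB, hd, rfl, rfl⟩ := h
    refine ⟨A.map φ, B.map φ, pa.map φ, pb.map φ, root_map φ hφ hA, forest_map φ hφ hB, ?_, ?_,
      by simp⟩
    · rwa [Finset.disjoint_map]
    · rw [Finset.map_union]

/-! ### Hard facts -/

/-- `HF adj X ms`: every forest with roots at the positions of `ms` and sizes at most the numbers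
of `ms` embeds in `X`. -/
def HF (adj : V → V → Prop) (X : Finset V) (ms : List (V × ℕ)) : Prop :=
  ∀ Ts : List (RT V), List.Forall₂ (fun T m => T.pos = m.1 ∧ T.size ≤ m.2) Ts ms →
    ∃ S p, Forest adj Ts S p ∧ S ⊆ X

end emb

end Pool.Agent.Work.MP_bf01b2_co.MR
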