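import Pool.Agent.Work.MP_bf01b2_co.MR.J2
import Pool.Agent.Work.MP_bf01b2_co.MR.B5Chain

/-!
# Domination of all size vectors by a list of covers, with bit masks

For every root there is a number with rows of 512 bits; the bit `j` of the row `v` says that the
bound for this root in the cover `j` is at least `v`.
-/

set_option autoImplicit false

namespace Pool.Agent.Work.MP_bf01b2_co.MR

namespace Bm

open Tab JT

/-! ### Rows -/

/-- the bits `512 v`, `v < n` -/
def strR : ℕ → ℕ
  | 0 => 0
  | n + 1 => strR n ||| 2 ^ (512 * n)

theorem strR_bit : ∀ {n i : ℕ}, (strR n).testBit i = true → ∃ v, i = 512 * v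
  | 0, i, h => by
    have : (0 : ℕ).testBit i = true := h
    simp at this
  | n + 1, i, h => by
    have h' : (strR n ||| 2 ^ (512 * n)).testBit i = true := h
    rw [Nat.testBit_or, Bool.or_eq_true, Nat.testBit_two_pow, decide_eq_true_eq] at h'
    rcases h' with h' | h'
    · exact strR_bit h'
    · exact ⟨n, h'.symm⟩

/-- the same as a literal -/
def STR : ℕ := nat_lit 0x10000000000000000000000000000000000000000000000000000000000000000000000000000000000000000000000000000000000000000000000000000000100000000000000000000000000000000000000000000000000000000000000000000000000000000000000000000000000000000000000000000000000000001000000000000000000000000000000000000000000000000000000000000000000000000000000000000000000000000000000000000000000000000000000010000000000000000000000000000000000000000000000000000000000000000000000000000000000000000000000000000000000000000000000000000000100000000000000000000000000000000000000000000000000000000000000000000000000000000000000000000000000000000000000000000000000000001000000000000000000000000000000000000000000000000000000000000000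0000000000000000000000000000000000000000000000000000000000000000100000000000000000000000000000000000000000000000000000000000000000000000000000000000000000000000000000000000000000000000000000001000000000000000000000000000000000000000000000000000000000000000000000000000000000000000000000000000000000000000000000000000000010000000000000000000000000000000000000000000000000000000000000000000000000000000000000000000000000000000000000000000000000000000100000000000000000000000000000000000000000000000000000000000000000000000000000000000000000000000000000000000000000000000000000001000000000000000000000000000000000000000000000000000000000000000000000000000000000000000000000000000000000000000000000000000000010000000000000000000000000000000000000000000000000000000000000000000000000000000000000000000000000000000000000000000000000000000100000000000000000000000000000000000000000000000000000000000000000000000000000000000000000000000000000000000000000000000000000001000000000000000000000000000000000000000000000000000000000000000000000000000000000000000000000000000000000000000000000000000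00001000000000000000000000000000000000000000000000000000000000000000000000000000000000000000000000000000000000000000000000000000000010000000000000000000000000000000000000000000000000000000000000000000000000000000000000000000000000000000000000000000000000000000100000000000000000000000000000000000000000000000000000000000000000000000000000000000000000000000000000000000000000000000000000001000000000000000000000000000000000000000000000000000000000000000000000000000000000000000000000000000000000000000000000000000000010000000000000000000000000000000000000000000000000000000000000000000000000000000000000000000000000000000000000000000000000000000100000000000000000000000000000000000000000000000000000000000000000000000000000000000000000000000000000000000000000000000000000001000000000000000000000000000000000000000000000000000000000000000000000000000000000000000000000000000000000000000000000000000000010000000000000000000000000000000000000000000000000000000000000000000000000000000000000000000000000000000000000000000000000000000100000000000000000000000000000000000000000000000000000000000000000000000000000000000000000000000000000000000000000000000000000001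

theorem STR_eq : STR = strR 24 := by decide +kernel

/-- the bits `512 v`, `v ≤ c` -/
def pat (c : ℕ) : ℕ := Nat.land STR (Nat.pred (Nat.pow 2 (Nat.succ (Nat.mul 512 c))))

theorem pat_bit {c i : ℕ} (h : (pat c).testBit i = true) : ∃ v, v ≤ c ∧ i = 512 * v := by
  have h' : (STR &&& (2 ^ (512 * c + 1) - 1)).testBit i = true := h
  rw [Nat.testBit_and, Bool.and_eq_true, Nat.testBit_two_pow_sub_one, decide_eq_true_eq,
    STR_eq] at h'
  obtain ⟨v, hv⟩ := strR_bit h'.1
  exact ⟨v, by omega, hv⟩

/-- the number `P` describes the bounds `c j`, `j < M` -/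
def RowOK (P : ℕ) (c : ℕ → ℕ) (M : ℕ) : Prop :=
  ∀ v j, j < 512 → P.testBit (512 * v + j) = true → j < M ∧ v ≤ c j

theorem RowOK.zero (c : ℕ → ℕ) : RowOK 0 c 0 := by
  intro v j _ h
  simp at h

/-- one more cover -/
def up (j P n : ℕ) : ℕ := Nat.lor P (Nat.shiftLeft (pat n) j)

theorem RowOK.up {P M n : ℕ} {c : ℕ → ℕ} (hM : M < 512) (h : RowOK P c M) :
    RowOK (up M P n) (Function.update c M n) (M + 1) := by
  intro v j hj hb
  have hb' : (P ||| (pat n <<< M)).testBit (512 * v + j) = true := hb
  rw [Nat.testBit_or, Bool.or_eq_true] at hb'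
  rcases hb' with hb' | hb'
  · obtain ⟨h1, h2⟩ := h v j hj hb'
    refine ⟨by omega, ?_⟩
    rw [Function.update_of_ne (by omega)]
    exact h2
  · rw [Nat.testBit_shiftLeft, Bool.and_eq_true, decide_eq_true_eq] at hb'
    obtain ⟨w, hw1, hw2⟩ := pat_bit hb'.2
    have h1 : j = M := by omega
    have h2 : v = w := by omega
    subst h1 h2
    refine ⟨by omega, ?_⟩
    rw [Function.update_self]
    exact hw1

/-! ### Covers -/

/-- check of one cover and update of the rows -/
noncomputable def cvA (T lim j : ℕ) (zs : List ℕ) :
    ℕ → ℕ → List ℕ → (ℕ → List ℕ → Bool) → Bool :=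
  List.rec (motive := fun _ => ℕ → ℕ → List ℕ → (ℕ → List ℕ → Bool) → Bool)
    (fun D _ _ k => k D [])
    (fun z _ ih D X Ps k => List.rec (motive := fun _ => Bool) false
      (fun P Ps' _ => fB (Nat.land D 65535) (fun i =>
        nd (Nat.ble (Nat.succ i) lim) (fB (tr z (tX T i)) (fun Y =>
          nd (Nat.beq (Nat.land X Y) Y) (fB (Nat.xor X Y) (fun X' =>
            fB (Nat.shiftRight D 16) (fun D' => fB (up j P (tn T i)) (fun P' =>
              ih D' X' Ps' (fun D'' Ps'' => k D'' (P' :: Ps'')))))))))) Ps)
    zs

theorem cvA_ok {T lim j : ℕ} (hT : ∀ i < lim, Good T i) : ∀ {zs : List ℕ} {D X : ℕ}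
    {Ps : List ℕ} {k : ℕ → List ℕ → Bool}, (∀ z ∈ zs, z < 32) →
    cvA T lim j zs D X Ps k = true →
    ∃ (ns : List ℕ) (D' : ℕ), ns.length = zs.length ∧ GF X zs ns ∧
      k D' (List.zipWith (up j) Ps ns) = true
  | [], D, X, Ps, k, _, h => by
    refine ⟨[], D, rfl, GF_nil X [], ?_⟩
    rw [List.zipWith_nil_right]
    exact h
  | z :: zs, D, X, [], k, _, h => by
    have h' : false = true := h
    exact absurd h' (by simp)
  | z :: zs, D, X, P :: Ps, k, hz, h => by
    have h' : fB (Nat.land D 65535) (fun i =>
        nd (Nat.ble (Nat.succ i) lim) (fB (tr z (tX T i)) (fun Y =>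
          nd (Nat.beq (Nat.land X Y) Y) (fB (Nat.xor X Y) (fun X' =>
            fB (Nat.shiftRight D 16) (fun D' => fB (up j P (tn T i)) (fun P' =>
              cvA T lim j zs D' X' Ps (fun D'' Ps'' => k D'' (P' :: Ps''))))))))) = true := h
    rw [fB_eq, nd_iff, fB_eq, nd_iff, fB_eq, fB_eq, fB_eq] at h'
    obtain ⟨a1, a2, a3⟩ := h'
    set i := Nat.land D 65535 with hi
    have b1 := lt_of_succ_ble a1
    have b2 : X &&& tr z (tX T i) = tr z (tX T i) := Nat.eq_of_beq_eq_true a2
    obtain ⟨ns, D', c1, c2, c3⟩ := cvA_ok hT (fun z' hz' => hz z' (List.mem_cons_of_mem _ hz')) a3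
    refine ⟨tn T i :: ns, D', by rw [List.length_cons, List.length_cons, c1], ?_, ?_⟩
    · exact GF_cons (tr_ok (hz z List.mem_cons_self) (tX_lt T _) (hT _ b1)).2 le_rfl b2 c2
    · rw [List.zipWith_cons_cons]
      exact c3

/-- the rows `Ps` describe facts -/
structure Inv (zs Ps : List ℕ) (cs : List (ℕ → ℕ)) (M : ℕ) : Prop where
  row : List.Forall₂ (fun P c => RowOK P c M) Ps cs
  len : cs.length = zs.length
  fact : ∀ j < M, GF FULL zs (cs.map fun c => c j)

theorem map_update_lt {M j : ℕ} (h : j < M) : ∀ (cs : List (ℕ → ℕ)) (ns : List ℕ),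
    ns.length = cs.length →
    (List.zipWith (fun (c : ℕ → ℕ) n => Function.update c M n) cs ns).map (fun c => c j) =
      cs.map fun c => c j
  | [], [], _ => rfl
  | [], _ :: _, h' => by simp at h'
  | _ :: _, [], h' => by simp at h'
  | c :: cs, n :: ns, h' => by
    rw [List.zipWith_cons_cons, List.map_cons, List.map_cons,
      map_update_lt h cs ns (by simpa using h'), Function.update_of_ne (by omega)]

theorem map_update_eq {M : ℕ} : ∀ (cs : List (ℕ → ℕ)) (ns : List ℕ),
    ns.length = cs.length →
    (List.zipWith (fun (c : ℕ → ℕ) n => Function.update c M n) cs ns).map (fun c => c M) = ns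
  | [], [], _ => rfl
  | [], _ :: _, h' => by simp at h'
  | _ :: _, [], h' => by simp at h'
  | c :: cs, n :: ns, h' => by
    rw [List.zipWith_cons_cons, List.map_cons, map_update_eq cs ns (by simpa using h'),
      Function.update_self]

theorem forall₂_up {M : ℕ} (hM : M < 512) {Ps : List ℕ} {cs : List (ℕ → ℕ)}
    (h : List.Forall₂ (fun P c => RowOK P c M) Ps cs) : ∀ ns : List ℕ, ns.length = cs.length →
    List.Forall₂ (fun P c => RowOK P c (M + 1)) (List.zipWith (up M) Ps ns)
      (List.zipWith (fun (c : ℕ → ℕ) n => Function.update c M n) cs ns) := by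
  induction h with
  | nil =>
    intro ns hn
    cases ns with
    | nil => exact List.Forall₂.nil
    | cons n ns => simp at hn
  | @cons P c Ps cs h1 _ ih =>
    intro ns hn
    cases ns with
    | nil => simp at hn
    | cons n ns =>
      rw [List.zipWith_cons_cons, List.zipWith_cons_cons]
      exact List.Forall₂.cons (RowOK.up hM h1) (ih ns (by simpa using hn))

theorem Inv.step {zs Ps ns : List ℕ} {cs : List (ℕ → ℕ)} {M : ℕ} (hM : M < 512)
    (h : Inv zs Ps cs M) (hn : ns.length = zs.length) (hf : GF FULL zs ns) :
    Inv zs (List.zipWith (up M) Ps ns)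
      (List.zipWith (fun (c : ℕ → ℕ) n => Function.update c M n) cs ns) (M + 1) := by
  have hn' : ns.length = cs.length := by rw [h.len, hn]
  refine ⟨forall₂_up hM h.row ns hn', ?_, ?_⟩
  · rw [List.length_zipWith, hn', min_self, h.len]
  · intro j hj
    rcases Nat.lt_succ_iff_lt_or_eq.mp hj with hj | rfl
    · rw [map_update_lt hj cs ns hn']
      exact h.fact j hj
    · rw [map_update_eq cs ns hn']
      exact hf

/-- check of `M` covers -/
noncomputable def acc (T lim : ℕ) (zs : List ℕ) (fin : List ℕ → Bool) (M : ℕ) :
    ℕ → ℕ → List ℕ → Bool :=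
  Nat.rec (motive := fun _ => ℕ → ℕ → List ℕ → Bool) (fun _ _ Ps => fin Ps)
    (fun _ ih D j Ps => cvA T lim j zs D FULL Ps (fun D' Ps' => ih D' (Nat.succ j) Ps')) M

theorem acc_ok {T lim : ℕ} (hT : ∀ i < lim, Good T i) {zs : List ℕ} (hz : ∀ z ∈ zs, z < 32)
    {fin : List ℕ → Bool} : ∀ {M D j : ℕ} {Ps : List ℕ} {cs : List (ℕ → ℕ)},
    acc T lim zs fin M D j Ps = true → j + M ≤ 512 → Inv zs Ps cs j →
    ∃ (Ps' : List ℕ) (cs' : List (ℕ → ℕ)), Inv zs Ps' cs' (j + M) ∧ fin Ps' = true
  | 0, D, j, Ps, cs, h, _, hI => ⟨Ps, cs, hI, h⟩
  | M + 1, D, j, Ps, cs, h, hM, hI => by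
    have h' : cvA T lim j zs D FULL Ps (fun D' Ps' => acc T lim zs fin M D' (Nat.succ j) Ps') =
      true := h
    obtain ⟨ns, D', h1, h2, h3⟩ := cvA_ok hT hz h'
    have h4 := hI.step (by omega) h1 h2
    obtain ⟨Ps', cs', h5, h6⟩ := acc_ok hT hz (M := M) h3 (by omega) h4
    exact ⟨Ps', cs', by rw [show j + (M + 1) = j + 1 + M by omega]; exact h5, h6⟩

/-! ### Domination -/

/-- all vectors with sum `rem` are dominated by a cover in the set `m`, or `sp` holds; the last
size of the vector belongs to the row `P0` -/
noncomputable def dom (sp : List ℕ → Bool) (P0 : ℕ) (Ps : List ℕ) : ℕ → ℕ → List ℕ → Bool :=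
  List.rec (motive := fun _ => ℕ → ℕ → List ℕ → Bool)
    (fun m rem pre => ro (Nat.ble 1 (Nat.land m (Nat.shiftRight P0 (Nat.mul 512 rem))))
      (sp (rem :: pre)))
    (fun P _ ih m rem pre => Nat.rec (motive := fun _ => Bool) true
      (fun n ihn => nd (fB (Nat.land m (Nat.shiftRight P (Nat.mul 512 (Nat.succ n)))) (fun m' =>
        ih m' (Nat.sub rem (Nat.succ n)) (Nat.succ n :: pre))) ihn) (Nat.pred rem)) Ps

theorem loop_ok {f : ℕ → Bool} : ∀ {k : ℕ},
    Nat.rec (motive := fun _ => Bool) true (fun n ihn => nd (f n) ihn) k = true →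
    ∀ n < k, f n = true
  | 0, _, n, hn => absurd hn (Nat.not_lt_zero n)
  | k + 1, h, n, hn => by
    have h' : nd (f k) (Nat.rec (motive := fun _ => Bool) true (fun n ihn => nd (f n) ihn) k) =
      true := h
    rw [nd_iff] at h'
    rcases Nat.lt_succ_iff_lt_or_eq.mp hn with hn | rfl
    · exact loop_ok h'.2 n hn
    · exact h'.1

theorem exists_bit {x : ℕ} (h : 1 ≤ x) : ∃ i, x.testBit i = true := by
  by_contra hc
  push Not at hc
  have : x = 0 := Nat.eq_of_testBit_eq fun i => by
    rw [Nat.zero_testBit]
    exact Bool.eq_false_iff.2 (hc i)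
  omega

theorem dom_ok {sp : List ℕ → Bool} {P0 : ℕ} : ∀ {Ps : List ℕ} {m rem : ℕ} {pre : List ℕ},
    dom sp P0 Ps m rem pre = true → ∀ (ns : List ℕ) (n0 : ℕ), ns.length = Ps.length →
    (∀ n ∈ ns, 1 ≤ n) → 1 ≤ n0 → n0 + ns.sum = rem →
    (∃ j, m.testBit j = true ∧ P0.testBit (512 * n0 + j) = true ∧
      List.Forall₂ (fun P n => Nat.testBit P (512 * n + j) = true) Ps ns) ∨
      sp (n0 :: (ns.reverse ++ pre)) = true
  | [], m, rem, pre, h, ns, n0, hl, _, _, hs => by
    have hns : ns = [] := List.eq_nil_of_length_eq_zero hl
    subst hns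
    have hr : n0 = rem := by simpa using hs
    subst hr
    have h' : ro (Nat.ble 1 (Nat.land m (Nat.shiftRight P0 (Nat.mul 512 n0))))
      (sp (n0 :: pre)) = true := h
    rw [ro_iff] at h'
    rcases h' with h' | h'
    · left
      have h1 : 1 ≤ m &&& (P0 >>> (512 * n0)) := Nat.le_of_ble_eq_true h'
      obtain ⟨j, hj⟩ := exists_bit h1
      rw [Nat.testBit_and, Bool.and_eq_true, Nat.testBit_shiftRight] at hj
      exact ⟨j, hj.1, hj.2, List.Forall₂.nil⟩
    · right
      simpa using h'
  | P :: Ps, m, rem, pre, h, ns, n0, hl, hns, hn0, hs => by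
    cases ns with
    | nil => simp at hl
    | cons n ns =>
      have h1 : 1 ≤ n := hns n List.mem_cons_self
      rw [List.sum_cons] at hs
      have h2 := loop_ok h (n - 1) (by
        show n - 1 < rem - 1
        omega)
      have e : Nat.succ (n - 1) = n := by omega
      rw [fB_eq, e] at h2
      have h3 := dom_ok (Ps := Ps) h2 ns n0 (by simpa using hl)
        (fun x hx => hns x (List.mem_cons_of_mem _ hx)) hn0 (by
          show n0 + ns.sum = rem - n
          omega)
      rcases h3 with ⟨j, hj1, hj2, hj3⟩ | h3
      · left
        have hj1' : (m &&& (P >>> (512 * n))).testBit j = true := hj1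
        rw [Nat.testBit_and, Bool.and_eq_true, Nat.testBit_shiftRight] at hj1'
        exact ⟨j, hj1'.1, hj2, List.Forall₂.cons hj1'.2 hj3⟩
      · right
        simpa using h3

/-- the whole check of a class; `z0` is the first of the positions -/
noncomputable def cls (T lim : ℕ) (sp : List ℕ → Bool) (zs Ps : List ℕ) (M N D : ℕ) : Bool :=
  acc T lim zs (fun Ps' => List.rec (motive := fun _ => Bool) false
    (fun P0 Ps'' _ => fB (Nat.pred (Nat.pow 2 M)) (fun m => dom sp P0 Ps'' m N [])) Ps') M D 0 Ps

theorem inv_zero : ∀ zs : List ℕ, Inv zs (zs.map fun _ => 0) (zs.map fun _ => fun _ => 0) 0 := by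
  intro zs
  refine ⟨?_, by rw [List.length_map], fun j hj => absurd hj (Nat.not_lt_zero j)⟩
  induction zs with
  | nil => exact List.Forall₂.nil
  | cons z zs ih => exact List.Forall₂.cons (RowOK.zero _) ih

theorem capsL_of {j M : ℕ} (hj : j < 512) : ∀ {Ps ns : List ℕ} {cs : List (ℕ → ℕ)},
    List.Forall₂ (fun P c => RowOK P c M) Ps cs →
    List.Forall₂ (fun P n => Nat.testBit P (512 * n + j) = true) Ps ns →
    ∀ {k : ℕ → ℕ} {zs : List ℕ}, CapsL k zs ns → CapsL k zs (cs.map fun c => c j)
  | _, _, _, List.Forall₂.nil, List.Forall₂.nil, _, _, hk => hk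
  | _, _, _, List.Forall₂.cons _ _, List.Forall₂.cons _ _, _, [], _ => trivial
  | _, _, _, List.Forall₂.cons h1 h2, List.Forall₂.cons h3 h4, _, _ :: _, hk =>
    ⟨hk.1.trans (h1 _ _ hj h3).2, capsL_of hj h2 h4 hk.2⟩

theorem capsL_map (k : ℕ → ℕ) : ∀ zs : List ℕ, CapsL k zs (zs.map fun z => k z + 1)
  | [] => trivial
  | _ :: zs => ⟨le_rfl, capsL_map k zs⟩

theorem cls_ok {T lim : ℕ} (hT : ∀ i < lim, Good T i) {sp : List ℕ → Bool} {z0 : ℕ}
    {zs Ps : List ℕ} (hPs : Ps = (z0 :: zs).map fun _ => 0) (hz : ∀ z ∈ z0 :: zs, z < 32)
    {M N D : ℕ} (hM : M ≤ 512) (h : cls T lim sp (z0 :: zs) Ps M N D = true) (k : ℕ → ℕ)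
    (hk : ((z0 :: zs).map fun z => k z + 1).sum ≤ N) :
    NF 5 FULL 0 (mkL k (z0 :: zs)) ∨
      ∃ n0, k z0 + 1 ≤ n0 ∧ sp (n0 :: (zs.map fun z => k z + 1).reverse) = true := by
  rw [List.map_cons, List.sum_cons] at hk
  obtain ⟨Ps', cs', hI, hf⟩ := acc_ok hT hz h (by omega) (by rw [hPs]; exact inv_zero _)
  rw [Nat.zero_add] at hI
  cases hPc : Ps' with
  | nil =>
    rw [hPc] at hf
    have hf' : false = true := hf
    exact absurd hf' (by simp)
  | cons P0 Ps'' =>
    rw [hPc] at hf hI
    have hf' : fB (Nat.pred (Nat.pow 2 M)) (fun m => dom sp P0 Ps'' m N []) = true := hf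
    rw [fB_eq] at hf'
    have hrow := hI.row
    cases hcs : cs' with
    | nil =>
      rw [hcs] at hrow
      cases hrow
    | cons c0 cs'' =>
      rw [hcs] at hrow hI
      have hlen : cs''.length = zs.length := by
        have := hI.len
        simpa using this
      cases hrow with
      | cons hr0 hrs =>
        have hl : Ps''.length = cs''.length := hrs.length_eq
        set n0 := N - (zs.map fun z => k z + 1).sum with hn0
        rcases dom_ok hf' (zs.map fun z => k z + 1) n0 (by rw [List.length_map, hl, hlen])
          (fun n hn => by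
            obtain ⟨z, _, rfl⟩ := List.mem_map.1 hn
            omega) (by omega) (by omega) with ⟨j, h1, h2, h3⟩ | h1
        · left
          have hj : j < M := by
            have h1' : (2 ^ M - 1).testBit j = true := h1
            rw [Nat.testBit_two_pow_sub_one, decide_eq_true_eq] at h1'
            exact h1'
          have hg := hI.fact j hj
          rw [List.map_cons] at hg
          refine hg k ⟨?_, ?_⟩
          · have := (hr0 _ _ (by omega) h2).2
            omega
          · exact capsL_of (by omega) hrs h3 (capsL_map k zs)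
        · right
          refine ⟨n0, by omega, ?_⟩
          rw [List.append_nil] at h1
          exact h1

/-! ### Special vectors -/

/-- is the vector dominated by one of the vectors of the list -/
noncomputable def spV (S : List (List ℕ)) (l : List ℕ) : Bool :=
  List.rec (motive := fun _ => Bool) false (fun s _ ih => ro (leL l s) ih) S

theorem spV_ok {l : List ℕ} : ∀ {S : List (List ℕ)}, spV S l = true → ∃ s ∈ S, leL l s = true
  | [], h => by
    have h' : false = true := h
    exact absurd h' (by simp)
  | s :: S, h => by
    have h' : ro (leL l s) (spV S l) = true := h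
    rw [ro_iff] at h'
    rcases h' with h' | h'
    · exact ⟨s, List.mem_cons_self, h'⟩
    · obtain ⟨s', h1, h2⟩ := spV_ok h'
      exact ⟨s', List.mem_cons_of_mem _ h1, h2⟩

/-- use of the special facts; the positions of the special facts are in the order of the
enumeration -/
theorem spV_nf {S : List (List ℕ)} {z0 : ℕ} {zs : List ℕ}
    (hS : ∀ s ∈ S, GF FULL (z0 :: zs.reverse) s) {k : ℕ → ℕ} {n0 : ℕ} (hn : k z0 + 1 ≤ n0)
    (h : spV S (n0 :: (zs.map fun z => k z + 1).reverse) = true) :
    NF 5 FULL 0 (mkL k (z0 :: zs)) := by
  obtain ⟨s, hs, hl⟩ := spV_ok h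
  have h1 : CapsL k (z0 :: zs.reverse) (n0 :: (zs.map fun z => k z + 1).reverse) := by
    refine ⟨hn, ?_⟩
    rw [← List.map_reverse]
    exact capsL_map k _
  have h2 := hS s hs k (leL_ok hl h1)
  refine NF.congr ?_ h2
  intro m
  rw [mem_mkL, mem_mkL, List.mem_cons, List.mem_cons, List.mem_reverse]

end Bm

end Pool.Agent.Work.MP_bf01b2_co.MR
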