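import Pool.Agent.Work.MP_bf01b2_co.MR.Base

/-!
# Marks recursion: the calculus of facts

A fact `SF adj X O ms` says: all forests with roots at the positions of the marks `ms`, whose sizes
and numbers of holes are bounded by the marks, embed in `X` such that no parent of a hole lies in
`O`. Rules: `SF.cover` (disjoint union, monotonicity, trivial trees), `SF.single`, `SF.expand` (place
the root, choose the positions of its two children), `SF.map` (automorphisms).
-/

namespace Pool.Agent.Work.MP_bf01b2_co.MR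

section facts

variable {V : Type*} [DecidableEq V]

/-- A mark: position of the root, bound `k` for the number of the other vertices, bound `s` for the
number of holes. -/
structure Mk (V : Type*) where
  /-- position of the root -/
  p : V
  /-- bound for the number of vertices other than the root -/
  k : ℕ
  /-- bound for the number of holes (only used when the set of soft positions is nonempty) -/
  s : ℕ

/-- the pair `(l, r)` of subtrees is admissible for the mark: size and number of holes are bounded,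
and the root is not the parent of a hole when it lies on a soft position -/
def Mk.Adm (O : Set V) (m : Mk V) (t : HT × HT) : Prop :=
  t.1.size + t.2.size ≤ m.k ∧ (O = ∅ ∨ t.1.holes + t.2.holes ≤ m.s) ∧
    (m.p ∈ O → t.1 ≠ .hole ∧ t.2 ≠ .hole)

/-- Facts: every admissible forest `τ` embeds in `X`, no hole parent lies in `O`. -/
def SF (adj : V → V → Prop) (X O : Set V) (ms : List (Mk V)) : Prop :=
  ∀ τ : V → HT × HT, (∀ m ∈ ms, m.Adm O (τ m.p)) →
    ∃ (A : V → Finset V) (q : V → List V),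
      (∀ m ∈ ms, Root adj (τ m.p).1 (τ m.p).2 m.p (A m.p) (q m.p) ∧ (∀ v ∈ A m.p, v ∈ X) ∧
        ∀ v ∈ q m.p, v ∉ O) ∧
      ∀ m ∈ ms, ∀ m' ∈ ms, m.p ≠ m'.p → Disjoint (A m.p) (A m'.p)

variable {adj : V → V → Prop}

/-- the mark `m` of a state with soft positions `O` is dominated by `m'` of a state with soft
positions `O'` -/
def Mk.Dom (O O' : Set V) (m m' : Mk V) : Prop :=
  m.k ≤ m'.k ∧ (O' = ∅ ∨ (O ≠ ∅ ∧ m.s ≤ m'.s ∧ (m.p ∈ O' → m.p ∈ O ∨ m.s = 0)))

theorem HT.ne_hole_of_holes {t : HT} (h : t.holes = 0) : t ≠ .hole := by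
  rintro rfl
  simp [HT.holes] at h

theorem Mk.Adm.mono {O O' : Set V} {m m' : Mk V} (hp : m'.p = m.p) (hd : m.Dom O O' m')
    {t : HT × HT} (h : m.Adm O t) : m'.Adm O' t := by
  obtain ⟨h1, h2, h3⟩ := h
  obtain ⟨d1, d2⟩ := hd
  refine ⟨h1.trans d1, ?_, ?_⟩
  · rcases d2 with d2 | ⟨d2, d3, _⟩
    · exact Or.inl d2
    · rcases h2 with h2 | h2
      · exact absurd h2 d2
      · exact Or.inr (h2.trans d3)
  · intro hm
    rw [hp] at hm
    rcases d2 with d2 | ⟨d2, _, d4⟩
    · rw [d2] at hm; exact absurd hm (Set.notMem_empty _)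
    · rcases d4 hm with h5 | h5
      · exact h3 h5
      · rcases h2 with h2 | h2
        · exact absurd h2 d2
        · rw [h5] at h2
          exact ⟨HT.ne_hole_of_holes (by omega), HT.ne_hole_of_holes (by omega)⟩

theorem Mk.adm_nil (O : Set V) (m : Mk V) : m.Adm O (.nil, .nil) :=
  ⟨by simp [HT.size], Or.inr (by simp [HT.holes]), fun _ => ⟨by simp, by simp⟩⟩

/-- **Cover rule.** -/
theorem SF.cover {X O : Set V} {ms : List (Mk V)} (refs : List (Set V × Set V × List (Mk V)))
    (h : ∀ r ∈ refs, SF adj r.1 r.2.1 r.2.2)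
    (hd : refs.Pairwise (fun r r' => Disjoint r.1 r'.1))
    (hX : ∀ r ∈ refs, r.1 ⊆ X) (hO : ∀ r ∈ refs, ∀ v ∈ r.1, v ∈ O → v ∈ r.2.1)
    (hm : ∀ m ∈ ms, ∃ r ∈ refs, (∃ m' ∈ r.2.2, m'.p = m.p) ∧
      ∀ m' ∈ r.2.2, m'.p = m.p → m.Dom O r.2.1 m') :
    SF adj X O ms := by
  classical
  intro τ hτ
  -- the marks served by `r`
  let Sv : (Set V × Set V × List (Mk V)) → V → Prop := fun r p =>
    ∃ m ∈ ms, m.p = p ∧ (∃ m' ∈ r.2.2, m'.p = m.p) ∧ ∀ m' ∈ r.2.2, m'.p = m.p → m.Dom O r.2.1 m'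
  let τr : (Set V × Set V × List (Mk V)) → V → HT × HT := fun r p =>
    if Sv r p then τ p else (.nil, .nil)
  have key : ∀ r ∈ refs, ∃ (A : V → Finset V) (q : V → List V),
      (∀ m ∈ r.2.2, Root adj (τr r m.p).1 (τr r m.p).2 m.p (A m.p) (q m.p) ∧
        (∀ v ∈ A m.p, v ∈ r.1) ∧ ∀ v ∈ q m.p, v ∉ r.2.1) ∧
      ∀ m ∈ r.2.2, ∀ m' ∈ r.2.2, m.p ≠ m'.p → Disjoint (A m.p) (A m'.p) := by
    intro r hr
    apply h r hr
    intro m' hm'
    by_cases hs : Sv r m'.p
    · obtain ⟨m, hmm, hmp, hex, hdom⟩ := hs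
      have : τr r m'.p = τ m'.p := if_pos ⟨m, hmm, hmp, hex, hdom⟩
      rw [this, ← hmp]
      exact (hτ m hmm).mono hmp.symm (hdom m' hm' hmp.symm)
    · have : τr r m'.p = (.nil, .nil) := if_neg hs
      rw [this]
      exact Mk.adm_nil _ _
  choose! A q hA hAd using key
  have hsv : ∀ p, (∃ m ∈ ms, m.p = p) → ∃ r ∈ refs, Sv r p := by
    rintro p ⟨m, hmm, rfl⟩
    obtain ⟨r, hr, h1, h2⟩ := hm m hmm
    exact ⟨r, hr, m, hmm, rfl, h1, h2⟩
  choose! ρ hρ hρS using hsv
  refine ⟨fun p => A (ρ p) p, fun p => q (ρ p) p, ?_, ?_⟩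
  · intro m hmm
    have h1 := hρ m.p ⟨m, hmm, rfl⟩
    have h2 := hρS m.p ⟨m, hmm, rfl⟩
    have h2' := h2
    obtain ⟨m1, hm1, hp1, ⟨m', hm', hp'⟩, _⟩ := h2
    have h3 := hA (ρ m.p) h1 m' hm'
    rw [hp', hp1] at h3
    have h4 : τr (ρ m.p) m.p = τ m.p := if_pos h2'
    rw [h4] at h3
    refine ⟨h3.1, fun v hv => hX _ h1 (h3.2.1 v hv), fun v hv hvO => ?_⟩
    exact h3.2.2 v hv (hO _ h1 v (h3.2.1 v ((root_mem h3.1).1 v hv)) hvO)
  · intro m hmm m2 hmm2 hne
    have h1 := hρ m.p ⟨m, hmm, rfl⟩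
    have h2 := hρS m.p ⟨m, hmm, rfl⟩
    have k1 := hρ m2.p ⟨m2, hmm2, rfl⟩
    have k2 := hρS m2.p ⟨m2, hmm2, rfl⟩
    obtain ⟨m1, hm1, hp1, ⟨m', hm', hp'⟩, _⟩ := h2
    obtain ⟨n1, hn1, hq1, ⟨n', hn', hq'⟩, _⟩ := k2
    by_cases e : ρ m.p = ρ m2.p
    · have h5 := hAd (ρ m.p) h1 m' hm' n' (by rw [e]; exact hn')
        (by rw [hp', hq', hp1, hq1]; exact hne)
      rw [hp', hq', hp1, hq1] at h5
      show Disjoint (A (ρ m.p) m.p) (A (ρ m2.p) m2.p)
      rw [← e]
      exact h5
    · haveI : Std.Symm (fun r r' : Set V × Set V × List (Mk V) => Disjoint r.1 r'.1) :=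
        ⟨fun a b hab => hab.symm⟩
      have h6 : Disjoint (ρ m.p).1 (ρ m2.p).1 := hd.forall h1 k1 e
      have h3 := (hA (ρ m.p) h1 m' hm').2.1
      have k3 := (hA (ρ m2.p) k1 n' hn').2.1
      rw [hp', hp1] at h3
      rw [hq', hq1] at k3
      rw [Finset.disjoint_left]
      intro v hv hv'
      exact Set.disjoint_left.mp h6 (h3 v hv) (k3 v hv')

/-- **Single vertex.** -/
theorem SF.single (p : V) (s : ℕ) (O : Set V) : SF adj {p} O [⟨p, 0, s⟩] := by
  intro τ hτ
  have h := hτ ⟨p, 0, s⟩ (by simp)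
  obtain ⟨h1, _, h3⟩ := h
  simp only [Nat.le_zero, Nat.add_eq_zero_iff] at h1
  have aux : ∀ t : HT, t.size = 0 → ∃ q', Slot adj t p ∅ q' ∧ ∀ v ∈ q', v = p ∧ t = .hole := by
    intro t ht
    cases t with
    | nil => exact ⟨[], ⟨rfl, rfl⟩, by simp⟩
    | hole => exact ⟨[p], ⟨rfl, rfl⟩, by simp⟩
    | node l r => simp [HT.size] at ht
  obtain ⟨q1, hq1, hq1'⟩ := aux _ h1.1
  obtain ⟨q2, hq2, hq2'⟩ := aux _ h1.2
  refine ⟨fun _ => {p}, fun _ => q1 ++ q2, ?_, ?_⟩
  · intro m hm
    rw [List.mem_singleton] at hm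
    subst hm
    refine ⟨⟨∅, ∅, q1, q2, hq1, hq2, by simp, by simp, by simp, by simp, rfl⟩, by simp, ?_⟩
    intro v hv hvO
    rcases List.mem_append.mp hv with h' | h'
    · obtain ⟨rfl, e⟩ := hq1' v h'
      exact (h3 hvO).1 e
    · obtain ⟨rfl, e⟩ := hq2' v h'
      exact (h3 hvO).2 e
  · intro m hm m' hm' hne
    rw [List.mem_singleton] at hm hm'
    subst hm; subst hm'
    exact absurd rfl hne

/-- the two subtrees of a tree -/
def HT.ch : HT → HT × HT
  | .nil => (.nil, .nil)
  | .hole => (.nil, .nil)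
  | .node l r => (l, r)

theorem HT.ch_size (t : HT) : t.ch.1.size + t.ch.2.size ≤ t.size - 1 := by
  cases t <;> simp [HT.ch, HT.size]

theorem HT.ch_holes (t : HT) : t.ch.1.holes + t.ch.2.holes ≤ t.holes := by
  cases t <;> simp [HT.ch, HT.holes]

theorem slot_zero {c : HT} (hc : c.size = 0) (p : V) :
    ∃ q', Slot adj c p ∅ q' ∧ ∀ v ∈ q', v = p ∧ c = .hole := by
  cases c with
  | nil => exact ⟨[], ⟨rfl, rfl⟩, by simp⟩
  | hole => exact ⟨[p], ⟨rfl, rfl⟩, by simp⟩
  | node l r => simp [HT.size] at hc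

theorem slot_child {c : HT} {p x : V} (hx : adj p x) {S : Finset V} {qs : List V}
    (h : Root adj c.ch.1 c.ch.2 x S qs) :
    ∃ S' ⊆ S, ∃ q', Slot adj c p S' q' ∧ ∀ v ∈ q', v ∈ qs ∨ (v = p ∧ c = .hole) := by
  by_cases hc : c.size = 0
  · obtain ⟨q', h1, h2⟩ := slot_zero (adj := adj) hc p
    exact ⟨∅, Finset.empty_subset _, q', h1, fun v hv => Or.inr (h2 v hv)⟩
  · cases c with
    | nil => simp [HT.size] at hc
    | hole => simp [HT.size] at hc
    | node l r => exact ⟨S, Finset.Subset.refl _, qs, ⟨x, hx, h⟩, fun v hv => Or.inl hv⟩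

theorem root_swap {l r : HT} {x : V} {S : Finset V} {p : List V} (h : Root adj l r x S p) :
    ∃ p', Root adj r l x S p' ∧ ∀ v ∈ p', v ∈ p := by
  obtain ⟨A, B, pa, pb, hA, hB, hx, hx', hd, rfl, rfl⟩ := h
  exact ⟨pb ++ pa, ⟨B, A, pb, pa, hB, hA, hx', hx, hd.symm, by rw [Finset.union_comm], rfl⟩,
    fun v hv => by simpa [or_comm] using hv⟩

/-- **Expansion rule.** The root of the mark `⟨p, k, s⟩` is placed at `p`; for every distribution of
the sizes and of the holes on the two subtrees the positions of the children can be chosen. -/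
theorem SF.expand {X O : Set V} {p : V} {k s : ℕ} {ms : List (Mk V)} (hk : 1 ≤ k) (hp : p ∈ X)
    (hpm : ∀ m ∈ ms, m.p ≠ p)
    (h0 : ∃ x, adj p x ∧ (∀ m ∈ ms, m.p ≠ x) ∧ (x ∉ O ∨ s = 0) ∧
      SF adj (X \ {p}) O (⟨x, k - 1, s⟩ :: ms))
    (h1 : ∀ b, 1 ≤ b → 2 * b ≤ k → ∀ sb ≤ s, ∃ x y, adj p x ∧ adj p y ∧ x ≠ y ∧
      (∀ m ∈ ms, m.p ≠ x ∧ m.p ≠ y) ∧ (x ∉ O ∨ s - sb = 0) ∧ (y ∉ O ∨ sb = 0) ∧
      SF adj (X \ {p}) O (⟨x, k - b - 1, s - sb⟩ :: ⟨y, b - 1, sb⟩ :: ms)) :
    SF adj X O (⟨p, k, s⟩ :: ms) := by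
  classical
  intro τ hτ
  -- main construction, for the two children in the order (big, small)
  have main : ∀ c d : HT, d.size ≤ c.size → c.size + d.size ≤ k →
      (O = ∅ ∨ c.holes + d.holes ≤ s) → (p ∈ O → c ≠ .hole ∧ d ≠ .hole) →
      ∃ (A : V → Finset V) (q : V → List V) (S : Finset V) (qs : List V),
        (∀ m ∈ ms, Root adj (τ m.p).1 (τ m.p).2 m.p (A m.p) (q m.p) ∧ (∀ v ∈ A m.p, v ∈ X) ∧
          ∀ v ∈ q m.p, v ∉ O) ∧
        (∀ m ∈ ms, ∀ m' ∈ ms, m.p ≠ m'.p → Disjoint (A m.p) (A m'.p)) ∧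
        Root adj c d p S qs ∧ (∀ v ∈ S, v ∈ X) ∧ (∀ v ∈ qs, v ∉ O) ∧
        ∀ m ∈ ms, Disjoint S (A m.p) := by
    intro c d hcd hsz hho hsp
    by_cases hd0 : d.size = 0
    · obtain ⟨x, hx, hxm, hxO, hSF⟩ := h0
      obtain ⟨A, q, hA, hAd⟩ := hSF (Function.update τ x c.ch) (by
        intro m hm
        rcases List.mem_cons.mp hm with rfl | hm
        · rw [Function.update_self]
          have e1 := c.ch_size
          have e2 := c.ch_holes
          refine ⟨by show _ ≤ k - 1; omega, ?_, ?_⟩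
          · rcases hho with h | h
            · exact Or.inl h
            · right; show _ ≤ s; omega
          · intro hxO'
            rcases hxO with h | h
            · exact absurd hxO' h
            · rcases hho with h' | h'
              · rw [h'] at hxO'; exact absurd hxO' (Set.notMem_empty _)
              · exact ⟨HT.ne_hole_of_holes (by omega), HT.ne_hole_of_holes (by omega)⟩
        · rw [Function.update_of_ne (hxm m hm)]
          exact hτ m (List.mem_cons_of_mem _ hm))
      have hAx := hA ⟨x, k - 1, s⟩ (by simp)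
      simp only [Function.update_self] at hAx
      obtain ⟨S', hS', q1, hq1, hq1'⟩ := slot_child hx hAx.1
      obtain ⟨q2, hq2, hq2'⟩ := slot_zero (adj := adj) hd0 p
      have hpS : p ∉ S' := fun h => (hAx.2.1 p (hS' h)).2 rfl
      refine ⟨A, q, insert p (S' ∪ ∅), q1 ++ q2, ?_, ?_, ?_, ?_, ?_, ?_⟩
      · intro m hm
        have h' := hA m (List.mem_cons_of_mem _ hm)
        rw [Function.update_of_ne (hxm m hm)] at h'
        exact ⟨h'.1, fun v hv => (h'.2.1 v hv).1, h'.2.2⟩
      · intro m hm m' hm' hne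
        exact hAd m (List.mem_cons_of_mem _ hm) m' (List.mem_cons_of_mem _ hm') hne
      · exact ⟨S', ∅, q1, q2, hq1, hq2, hpS, by simp, by simp, rfl, rfl⟩
      · intro v hv
        rw [Finset.union_empty, Finset.mem_insert] at hv
        rcases hv with rfl | hv
        · exact hp
        · exact (hAx.2.1 v (hS' hv)).1
      · intro v hv hvO
        rcases List.mem_append.mp hv with h' | h'
        · rcases hq1' v h' with h'' | ⟨rfl, h''⟩
          · exact hAx.2.2 v h'' hvO
          · exact (hsp hvO).1 h''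
        · obtain ⟨rfl, h''⟩ := hq2' v h'
          exact (hsp hvO).2 h''
      · intro m hm
        have h' := hA m (List.mem_cons_of_mem _ hm)
        have h'' := hAd ⟨x, k - 1, s⟩ (by simp) m (List.mem_cons_of_mem _ hm) (hxm m hm).symm
        rw [Finset.union_empty, Finset.disjoint_insert_left]
        exact ⟨fun h => (h'.2.1 p h).2 rfl, Finset.disjoint_of_subset_left hS' h''⟩
    · have hb : 1 ≤ d.size := Nat.one_le_iff_ne_zero.mpr hd0
      obtain ⟨sb, hsb, hsb1, hsb2⟩ : ∃ sb, sb ≤ s ∧ (O = ∅ ∨ d.holes ≤ sb) ∧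
          (O = ∅ ∨ c.holes ≤ s - sb) := by
        rcases hho with h | h
        · exact ⟨0, Nat.zero_le _, Or.inl h, Or.inl h⟩
        · exact ⟨d.holes, by omega, Or.inr le_rfl, Or.inr (by omega)⟩
      obtain ⟨x, y, hx, hy, hxy, hxm, hxO, hyO, hSF⟩ := h1 d.size hb (by omega) sb hsb
      obtain ⟨A, q, hA, hAd⟩ := hSF (Function.update (Function.update τ x c.ch) y d.ch) (by
        intro m hm
        rcases List.mem_cons.mp hm with rfl | hm
        · show Mk.Adm O _ (Function.update (Function.update τ x c.ch) y d.ch x)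
          rw [Function.update_of_ne hxy, Function.update_self]
          have e1 := c.ch_size
          have e2 := c.ch_holes
          refine ⟨by show _ ≤ k - d.size - 1; omega, ?_, ?_⟩
          · rcases hsb2 with h | h
            · exact Or.inl h
            · right; show _ ≤ s - sb; omega
          · intro hxO'
            rcases hxO with h | h
            · exact absurd hxO' h
            · rcases hsb2 with h' | h'
              · rw [h'] at hxO'; exact absurd hxO' (Set.notMem_empty _)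
              · exact ⟨HT.ne_hole_of_holes (by omega), HT.ne_hole_of_holes (by omega)⟩
        · rcases List.mem_cons.mp hm with rfl | hm
          · show Mk.Adm O _ (Function.update (Function.update τ x c.ch) y d.ch y)
            rw [Function.update_self]
            have e1 := d.ch_size
            have e2 := d.ch_holes
            refine ⟨by show _ ≤ d.size - 1; omega, ?_, ?_⟩
            · rcases hsb1 with h | h
              · exact Or.inl h
              · right; show _ ≤ sb; omega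
            · intro hyO'
              rcases hyO with h | h
              · exact absurd hyO' h
              · rcases hsb1 with h' | h'
                · rw [h'] at hyO'; exact absurd hyO' (Set.notMem_empty _)
                · exact ⟨HT.ne_hole_of_holes (by omega), HT.ne_hole_of_holes (by omega)⟩
          · rw [Function.update_of_ne (hxm m hm).2, Function.update_of_ne (hxm m hm).1]
            exact hτ m (List.mem_cons_of_mem _ hm))
      have hAx := hA ⟨x, k - d.size - 1, s - sb⟩ (by simp)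
      have hAy := hA ⟨y, d.size - 1, sb⟩ (by simp)
      simp only [Function.update_self, Function.update_of_ne hxy] at hAx hAy
      obtain ⟨S1, hS1, q1, hq1, hq1'⟩ := slot_child hx hAx.1
      obtain ⟨S2, hS2, q2, hq2, hq2'⟩ := slot_child hy hAy.1
      have hpS1 : p ∉ S1 := fun h => (hAx.2.1 p (hS1 h)).2 rfl
      have hpS2 : p ∉ S2 := fun h => (hAy.2.1 p (hS2 h)).2 rfl
      have hd12 := hAd ⟨x, k - d.size - 1, s - sb⟩ (by simp) ⟨y, d.size - 1, sb⟩ (by simp) hxy
      refine ⟨A, q, insert p (S1 ∪ S2), q1 ++ q2, ?_, ?_, ?_, ?_, ?_, ?_⟩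
      · intro m hm
        have h' := hA m (List.mem_cons_of_mem _ (List.mem_cons_of_mem _ hm))
        rw [Function.update_of_ne (hxm m hm).2, Function.update_of_ne (hxm m hm).1] at h'
        exact ⟨h'.1, fun v hv => (h'.2.1 v hv).1, h'.2.2⟩
      · intro m hm m' hm' hne
        exact hAd m (List.mem_cons_of_mem _ (List.mem_cons_of_mem _ hm)) m'
          (List.mem_cons_of_mem _ (List.mem_cons_of_mem _ hm')) hne
      · exact ⟨S1, S2, q1, q2, hq1, hq2, hpS1, hpS2,
          Finset.disjoint_of_subset_left hS1 (Finset.disjoint_of_subset_right hS2 hd12), rfl, rfl⟩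
      · intro v hv
        rw [Finset.mem_insert, Finset.mem_union] at hv
        rcases hv with rfl | hv | hv
        · exact hp
        · exact (hAx.2.1 v (hS1 hv)).1
        · exact (hAy.2.1 v (hS2 hv)).1
      · intro v hv hvO
        rcases List.mem_append.mp hv with h' | h'
        · rcases hq1' v h' with h'' | ⟨rfl, h''⟩
          · exact hAx.2.2 v h'' hvO
          · exact (hsp hvO).1 h''
        · rcases hq2' v h' with h'' | ⟨rfl, h''⟩
          · exact hAy.2.2 v h'' hvO
          · exact (hsp hvO).2 h''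
      · intro m hm
        have hmm := List.mem_cons_of_mem (⟨x, k - d.size - 1, s - sb⟩ : Mk V)
          (List.mem_cons_of_mem (⟨y, d.size - 1, sb⟩ : Mk V) hm)
        have h' := hA m hmm
        have g1 := hAd ⟨x, k - d.size - 1, s - sb⟩ (by simp) m hmm (hxm m hm).1.symm
        have g2 := hAd ⟨y, d.size - 1, sb⟩ (by simp) m hmm (hxm m hm).2.symm
        rw [Finset.disjoint_insert_left, Finset.disjoint_union_left]
        exact ⟨fun h => (h'.2.1 p h).2 rfl, Finset.disjoint_of_subset_left hS1 g1,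
          Finset.disjoint_of_subset_left hS2 g2⟩
  have hadm := hτ ⟨p, k, s⟩ (by simp)
  have a1 : (τ p).1.size + (τ p).2.size ≤ k := hadm.1
  have a2 : O = ∅ ∨ (τ p).1.holes + (τ p).2.holes ≤ s := hadm.2.1
  have a3 : p ∈ O → (τ p).1 ≠ .hole ∧ (τ p).2 ≠ .hole := hadm.2.2
  -- assemble
  have fin : ∀ (A : V → Finset V) (q : V → List V) (S : Finset V) (qs : List V),
      (∀ m ∈ ms, Root adj (τ m.p).1 (τ m.p).2 m.p (A m.p) (q m.p) ∧ (∀ v ∈ A m.p, v ∈ X) ∧
          ∀ v ∈ q m.p, v ∉ O) →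
      (∀ m ∈ ms, ∀ m' ∈ ms, m.p ≠ m'.p → Disjoint (A m.p) (A m'.p)) →
      Root adj (τ p).1 (τ p).2 p S qs → (∀ v ∈ S, v ∈ X) → (∀ v ∈ qs, v ∉ O) →
      (∀ m ∈ ms, Disjoint S (A m.p)) →
      ∃ (A : V → Finset V) (q : V → List V),
        (∀ m ∈ (⟨p, k, s⟩ :: ms : List (Mk V)),
          Root adj (τ m.p).1 (τ m.p).2 m.p (A m.p) (q m.p) ∧ (∀ v ∈ A m.p, v ∈ X) ∧
          ∀ v ∈ q m.p, v ∉ O) ∧
        ∀ m ∈ (⟨p, k, s⟩ :: ms : List (Mk V)), ∀ m' ∈ (⟨p, k, s⟩ :: ms : List (Mk V)),
          m.p ≠ m'.p → Disjoint (A m.p) (A m'.p) := by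
    intro A q S qs g1 g2 g3 g4 g5 g6
    refine ⟨Function.update A p S, Function.update q p qs, ?_, ?_⟩
    · intro m hm
      rcases List.mem_cons.mp hm with rfl | hm
      · simp only [Function.update_self]
        exact ⟨g3, g4, g5⟩
      · rw [Function.update_of_ne (hpm m hm), Function.update_of_ne (hpm m hm)]
        exact g1 m hm
    · intro m hm m' hm' hne
      rcases List.mem_cons.mp hm with rfl | hm <;> rcases List.mem_cons.mp hm' with rfl | hm'
      · exact absurd rfl hne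
      · simp only [Function.update_self]
        rw [Function.update_of_ne (hpm m' hm')]
        exact g6 m' hm'
      · simp only [Function.update_self]
        rw [Function.update_of_ne (hpm m hm)]
        exact (g6 m hm).symm
      · rw [Function.update_of_ne (hpm m hm), Function.update_of_ne (hpm m' hm')]
        exact g2 m hm m' hm' hne
  rcases le_total (τ p).2.size (τ p).1.size with hle | hle
  · obtain ⟨A, q, S, qs, g1, g2, g3, g4, g5, g6⟩ := main (τ p).1 (τ p).2 hle a1 a2 a3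
    exact fin A q S qs g1 g2 g3 g4 g5 g6
  · obtain ⟨A, q, S, qs, g1, g2, g3, g4, g5, g6⟩ := main (τ p).2 (τ p).1 hle
      (by omega)
      (by rcases a2 with h | h
          · exact Or.inl h
          · right; omega)
      (fun h => ⟨(a3 h).2, (a3 h).1⟩)
    obtain ⟨qs', g3', hqs'⟩ := root_swap g3
    exact fin A q S qs' g1 g2 g3' g4 (fun v hv => g5 v (hqs' v hv)) g6

/-- image of a mark -/
def Mk.map {W : Type*} (e : V → W) (m : Mk V) : Mk W := ⟨e m.p, m.k, m.s⟩

/-- **Automorphisms.** -/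
theorem SF.map {W : Type*} [DecidableEq W] {adj' : W → W → Prop} (e : V ≃ W)
    (he : ∀ a b, adj a b → adj' (e a) (e b)) {X O : Set V} {ms : List (Mk V)}
    (h : SF adj X O ms) : SF adj' (e '' X) (e '' O) (ms.map (Mk.map e)) := by
  intro τ hτ
  obtain ⟨A, q, hA, hAd⟩ := h (fun v => τ (e v)) (by
    intro m hm
    obtain ⟨h1, h2, h3⟩ := hτ (m.map e) (List.mem_map_of_mem hm)
    refine ⟨h1, ?_, ?_⟩
    · rcases h2 with h2 | h2
      · exact Or.inl (Set.image_eq_empty.mp h2)
      · exact Or.inr h2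
    · intro hm'
      exact h3 ⟨m.p, hm', rfl⟩)
  refine ⟨fun w => (A (e.symm w)).map e.toEmbedding, fun w => (q (e.symm w)).map e, ?_, ?_⟩
  · intro m' hm'
    obtain ⟨m, hm, rfl⟩ := List.mem_map.mp hm'
    have h1 := hA m hm
    have h2 := root_map (adj' := adj') e.toEmbedding (fun a b hab => he a b hab) h1.1
    show Root adj' (τ (e m.p)).1 (τ (e m.p)).2 (e m.p) ((A (e.symm (e m.p))).map e.toEmbedding)
      ((q (e.symm (e m.p))).map e) ∧ (∀ v ∈ (A (e.symm (e m.p))).map e.toEmbedding, v ∈ e '' X) ∧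
      ∀ v ∈ (q (e.symm (e m.p))).map e, v ∉ e '' O
    rw [Equiv.symm_apply_apply]
    refine ⟨h2, ?_, ?_⟩
    · intro v hv
      obtain ⟨w, hw, rfl⟩ := Finset.mem_map.mp hv
      exact ⟨w, h1.2.1 w hw, rfl⟩
    · intro v hv hvO
      obtain ⟨w, hw, rfl⟩ := List.mem_map.mp hv
      obtain ⟨u, hu, huw⟩ := hvO
      rw [e.injective huw] at hu
      exact h1.2.2 w hw hu
  · intro m1' hm1' m2' hm2' hne
    obtain ⟨m1, hm1, rfl⟩ := List.mem_map.mp hm1'
    obtain ⟨m2, hm2, rfl⟩ := List.mem_map.mp hm2'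
    show Disjoint ((A (e.symm (e m1.p))).map e.toEmbedding) ((A (e.symm (e m2.p))).map e.toEmbedding)
    rw [Equiv.symm_apply_apply, Equiv.symm_apply_apply, Finset.disjoint_map]
    exact hAd m1 hm1 m2 hm2 (fun h => hne (congrArg e h))

/-! ### From facts with positions to forests given as lists -/

/-- A fact with distinct positions embeds forests given as lists (hard facts). -/
theorem SF.toHF {X : Set V} {F : Finset V} (hF : ∀ v ∈ X, v ∈ F) {ms : List (Mk V)}
    (h : SF adj X ∅ ms) (hnd : (ms.map Mk.p).Nodup) : HF adj F (ms.map fun m => (m.p, m.k + 1)) := by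
  classical
  intro Ts hTs
  -- the tree at position `v`
  let τ : V → HT × HT := fun v =>
    match Ts.find? (fun T => T.pos = v) with
    | some T => (T.l, T.r)
    | none => (.nil, .nil)
  have hpos : Ts.map RT.pos = ms.map Mk.p := by
    have : ∀ (Ts : List (RT V)) (ms : List (Mk V)), List.Forall₂
        (fun (T : RT V) (m : V × ℕ) => T.pos = m.1 ∧ T.size ≤ m.2) Ts
          (ms.map fun m => (m.p, m.k + 1)) → Ts.map RT.pos = ms.map Mk.p := by
      intro Ts
      induction Ts with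
      | nil =>
        intro ms h
        cases ms with
        | nil => rfl
        | cons m ms => simp at h
      | cons T Ts ih =>
        intro ms h
        cases ms with
        | nil => simp at h
        | cons m ms =>
          rw [List.map_cons, List.forall₂_cons] at h
          rw [List.map_cons, List.map_cons, ih ms h.2, h.1.1]
    exact this Ts ms hTs
  have hnd' : (Ts.map RT.pos).Nodup := hpos ▸ hnd
  have hτ : ∀ T ∈ Ts, τ T.pos = (T.l, T.r) := by
    intro T hT
    have h1 : ∃ T', Ts.find? (fun U => decide (U.pos = T.pos)) = some T' := by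
      cases hf : Ts.find? (fun U => decide (U.pos = T.pos)) with
      | none =>
        rw [List.find?_eq_none] at hf
        exact absurd (hf T hT) (by simp)
      | some T' => exact ⟨T', rfl⟩
    obtain ⟨T', hT'⟩ := h1
    have h2 : T'.pos = T.pos := by simpa using List.find?_some hT'
    have h3 : T' ∈ Ts := List.mem_of_find?_eq_some hT'
    have h4 : T' = T := List.inj_on_of_nodup_map hnd' h3 hT h2
    show (match Ts.find? (fun U => decide (U.pos = T.pos)) with
      | some T => (T.l, T.r)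
      | none => (.nil, .nil)) = (T.l, T.r)
    rw [hT', h4]
  have hsz : ∀ (Ts : List (RT V)) (ms : List (Mk V)), List.Forall₂
      (fun (T : RT V) (m : V × ℕ) => T.pos = m.1 ∧ T.size ≤ m.2) Ts
        (ms.map fun m => (m.p, m.k + 1)) → ∀ m ∈ ms, ∃ T ∈ Ts, T.pos = m.p ∧ T.size ≤ m.k + 1 := by
    intro Ts
    induction Ts with
    | nil =>
      intro ms h m hm
      cases ms with
      | nil => simp at hm
      | cons m ms => simp at h
    | cons T Ts ih =>
      intro ms h m hm
      cases ms with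
      | nil => simp at h
      | cons m' ms =>
        rw [List.map_cons, List.forall₂_cons] at h
        rcases List.mem_cons.mp hm with rfl | hm
        · exact ⟨T, by simp, h.1⟩
        · obtain ⟨T', h1, h2⟩ := ih ms h.2 m hm
          exact ⟨T', List.mem_cons_of_mem _ h1, h2⟩
  obtain ⟨A, q, hA, hAd⟩ := h τ (by
    intro m hm
    obtain ⟨T, hT, h1, h2⟩ := hsz Ts ms hTs m hm
    rw [← h1, hτ T hT]
    refine ⟨?_, Or.inl rfl, fun hh => absurd hh (Set.notMem_empty _)⟩
    show T.l.size + T.r.size ≤ m.k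
    have : T.l.size + T.r.size + 1 ≤ m.k + 1 := h2
    omega)
  have hmp : ∀ T ∈ Ts, ∃ m ∈ ms, m.p = T.pos := by
    intro T hT
    have : T.pos ∈ ms.map Mk.p := hpos ▸ List.mem_map_of_mem hT
    obtain ⟨m, h1, h2⟩ := List.mem_map.mp this
    exact ⟨m, h1, h2⟩
  have hR : ∀ T ∈ Ts, Root adj T.l T.r T.pos (A T.pos) (q T.pos) ∧ ∀ v ∈ A T.pos, v ∈ X := by
    intro T hT
    obtain ⟨m, h1, h2⟩ := hmp T hT
    have h3 := hA m h1
    rw [h2, hτ T hT] at h3
    exact ⟨h3.1, h3.2.1⟩
  have hD : ∀ T ∈ Ts, ∀ U ∈ Ts, T.pos ≠ U.pos → Disjoint (A T.pos) (A U.pos) := by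
    intro T hT U hU hne
    obtain ⟨m, h1, h2⟩ := hmp T hT
    obtain ⟨n, h3, h4⟩ := hmp U hU
    have h5 := hAd m h1 n h3 (by rw [h2, h4]; exact hne)
    rwa [h2, h4] at h5
  -- assemble the forest
  have fin : ∀ L : List (RT V), (L.map RT.pos).Nodup → (∀ T ∈ L, T ∈ Ts) →
      ∃ S p, Forest adj L S p ∧ ∀ v ∈ S, ∃ T ∈ L, v ∈ A T.pos := by
    intro L
    induction L with
    | nil => intro _ _; exact ⟨∅, [], ⟨rfl, rfl⟩, by simp⟩
    | cons T L ih =>
      intro hn hL
      rw [List.map_cons, List.nodup_cons] at hn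
      obtain ⟨S, p, h1, h2⟩ := ih hn.2 (fun U hU => hL U (List.mem_cons_of_mem _ hU))
      have hT := hL T (by simp)
      refine ⟨A T.pos ∪ S, q T.pos ++ p, ⟨A T.pos, S, q T.pos, p, (hR T hT).1, h1, ?_, rfl, rfl⟩, ?_⟩
      · rw [Finset.disjoint_right]
        intro v hv hv'
        obtain ⟨U, hU, hvU⟩ := h2 v hv
        have hne : T.pos ≠ U.pos := fun e => hn.1 (e ▸ List.mem_map_of_mem hU)
        exact Finset.disjoint_left.mp (hD T hT U (hL U (List.mem_cons_of_mem _ hU)) hne) hv' hvU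
      · intro v hv
        rcases Finset.mem_union.mp hv with h' | h'
        · exact ⟨T, by simp, h'⟩
        · obtain ⟨U, hU, hvU⟩ := h2 v h'
          exact ⟨U, List.mem_cons_of_mem _ hU, hvU⟩
  obtain ⟨S, p, h1, h2⟩ := fin Ts hnd' (fun T hT => hT)
  refine ⟨S, p, h1, fun v hv => ?_⟩
  obtain ⟨T, hT, hvT⟩ := h2 v hv
  exact hF v ((hR T hT).2 v hvT)

end facts

end Pool.Agent.Work.MP_bf01b2_co.MR
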