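import Pool.Agent.Work.MP_bf01b2_co.MR.State

/-!
# Marks recursion: states whose specials lie on one descending path per tree
-/

set_option autoImplicit false

namespace Pool.Agent.Work.MP_bf01b2_co.MR

section
variable {V : Type*}

/-- all labels are empty -/
def LT.flat (t : LT V) : Prop := ∀ F ∈ t.labs, F = ∅

/-- a hole, or all labels are empty -/
def LT.side (t : LT V) : Prop := (∃ F, t = .hole F) ∨ t.flat

/-- the parents of the holes with non-empty label lie on one descending path -/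
def LT.pth : LT V → Prop
  | .nil => True
  | .hole _ => True
  | .node l r => (l.side ∧ r.pth) ∨ (r.side ∧ l.pth)

theorem LT.flat_nil : (LT.nil : LT V).flat := by intro F hF; simp [LT.labs] at hF

theorem LT.flat_node {l r : LT V} : (LT.node l r).flat ↔ l.flat ∧ r.flat := by
  constructor
  · intro h
    exact ⟨fun F hF => h F (by simp [LT.labs, hF]), fun F hF => h F (by simp [LT.labs, hF])⟩
  · rintro ⟨h1, h2⟩ F hF
    simp only [LT.labs, List.mem_append] at hF
    rcases hF with hF | hF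
    · exact h1 F hF
    · exact h2 F hF

theorem LT.flat.pth : ∀ {t : LT V}, t.flat → t.pth
  | .nil, _ => trivial
  | .hole _, _ => trivial
  | .node _ _, h => Or.inl ⟨Or.inr (LT.flat_node.1 h).1, (LT.flat_node.1 h).2.pth⟩

theorem LT.pth_symm {l r : LT V} (h : (LT.node l r).pth) : (LT.node r l).pth := by
  rcases h with h | h
  · exact Or.inr h
  · exact Or.inl h

/-- subtrees -/
theorem LT.pth_left {l r : LT V} (h : (LT.node l r).pth) : l.pth := by
  rcases h with ⟨h | h, -⟩ | ⟨-, h⟩
  · obtain ⟨F, rfl⟩ := h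
    trivial
  · exact h.pth
  · exact h

theorem LT.pth_right {l r : LT V} (h : (LT.node l r).pth) : r.pth := LT.pth_left (LT.pth_symm h)

variable [DecidableEq V]

end

/-- The states with one descending path of specials per tree. -/
def GdP (m D s : ℕ) (v : List ℕ) : Prop :=
  ∀ Ts : List (LRT (Fin m → Bool)), (Ts.map LRT.pos).Nodup → (∀ T ∈ Ts, RootOK T) →
    List.Forall₂ (fun T n => LRT.size T ≤ n) Ts v → (softs Ts \ poss Ts).card ≤ D →
      nspec Ts ≤ s → (∀ T ∈ Ts, T.tree.pth) → ∃ S, Emb (cadj m) Ts S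

theorem Gd.toP {m D s : ℕ} {v : List ℕ} (h : Gd m D s v) : GdP m D s v :=
  fun Ts h1 h2 h3 h4 h5 _ => h Ts h1 h2 h3 h4 h5

theorem GdP.mono {m D D' s s' : ℕ} {v w : List ℕ} (hD : D ≤ D') (hs : s ≤ s')
    (hv : List.Forall₂ (· ≤ ·) v w) (h : GdP m D' s' w) : GdP m D s v := by
  intro Ts h1 h2 h3 h4 h5
  refine h Ts h1 h2 ?_ (h4.trans hD) (h5.trans hs)
  clear h1 h2 h4 h5 h
  induction h3 generalizing w with
  | nil => cases hv; exact .nil
  | cons h3 _ ih =>
    cases hv with
    | cons h6 h7 => exact .cons (h3.trans h6) (ih h7)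

theorem GdP.perm {m D s : ℕ} {v w : List ℕ} (hvw : v.Perm w) (h : GdP m D s v) :
    GdP m D s w := by
  intro Ts h1 h2 h3 h4 h5 h10
  have h6 : List.Forall₂ (fun n T => LRT.size T ≤ n) w Ts := h3.flip
  obtain ⟨Us, h7, h8⟩ := List.perm_comp_forall₂ hvw h6
  have h9 : List.Forall₂ (fun T n => LRT.size T ≤ n) Us v := h7.flip
  obtain ⟨S, hS⟩ := h Us ((h8.map LRT.pos).nodup_iff.2 h1) (fun T hT => h2 T (h8.mem_iff.1 hT)) h9
    (by rw [softs_perm h8, poss_perm h8]; exact h4) (by rw [nspec_perm h8]; exact h5)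
    (fun T hT => h10 T (h8.mem_iff.1 hT))
  exact ⟨S, hS.perm h8⟩

/-- a state without labels -/
theorem softs_of_nspec {V : Type*} [DecidableEq V] {Ts : List (LRT V)} (h : nspec Ts = 0) :
    softs Ts = ∅ := by
  rw [Finset.eq_empty_iff_forall_notMem]
  intro x hx
  obtain ⟨T, hT, F, hF, hxF⟩ := mem_softs.1 hx
  unfold nspec at h
  rw [List.countP_eq_zero] at h
  have := h F (List.mem_flatMap.2 ⟨T, hT, hF⟩)
  simp only [decide_eq_true_eq, not_not] at this
  rw [this] at hxF
  exact absurd hxF (Finset.notMem_empty _)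

/-- hard states: no specials or no softs -/
theorem Gd.of_hard0 {m s : ℕ} {v : List ℕ} (h : Gd m 0 0 v) (D : ℕ) (hD : D = 0 ∨ s = 0)
    (hl : v.length ≤ 2 ^ m) : Gd m D s v := by
  rcases hD with rfl | rfl
  · exact Gd.soft_of_hard (by simpa using h) (by simpa using hl)
  · intro Ts h1 h2 h3 h4 h5
    refine h Ts h1 h2 h3 ?_ h5
    rw [softs_of_nspec (Nat.le_zero.1 h5)]
    simp

end Pool.Agent.Work.MP_bf01b2_co.MR
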