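import Pool.Agent.Work.MP_bf01b2_co.MR.StateN
import Pool.Agent.Work.MP_bf01b2_co.MR.PathG

/-!
# Marks recursion: clean labels, partial hardening, path states

`nspecO O Ts` is the number of holes whose label is not contained in `O`; a state `Gd m D s v` applies
as soon as `nspecO (poss Ts) Ts ≤ s`. Some of the soft positions may be turned into trees with one
vertex.

`HT.pth t`: the parents of all the holes of `t` lie on one descending path from the root.
`GdP m D v`: every labelled forest on `Q_m` with sizes at most `v`, at most `D` soft positions outside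
of the roots such that in every tree the holes with non empty label form a path embeds.
-/

set_option autoImplicit false

namespace Pool.Agent.Work.MP_bf01b2_co.MR

section
variable {V : Type*} [DecidableEq V]

/-- number of holes whose label is not contained in `O` -/
def nspecO (O : Finset V) (Ts : List (LRT V)) : ℕ :=
  (Ts.flatMap LRT.labs).countP (fun F => decide (¬ F ⊆ O))

theorem nspecO_append (O : Finset V) (Ts Us : List (LRT V)) :
    nspecO O (Ts ++ Us) = nspecO O Ts + nspecO O Us := by
  unfold nspecO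
  rw [List.flatMap_append, List.countP_append]

theorem nspecO_mono {O P : Finset V} (h : O ⊆ P) (Ts : List (LRT V)) :
    nspecO P Ts ≤ nspecO O Ts := by
  unfold nspecO
  refine List.countP_mono_left fun F _ hF => ?_
  rw [decide_eq_true_iff] at hF ⊢
  exact fun h1 => hF (h1.trans h)

theorem nspecO_le (O : Finset V) (Ts : List (LRT V)) : nspecO O Ts ≤ nspec Ts := by
  unfold nspecO nspec
  refine List.countP_mono_left fun F _ hF => ?_
  rw [decide_eq_true_iff] at hF ⊢
  rintro rfl
  exact hF (Finset.empty_subset _)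

theorem nspec_strip (O : Finset V) (Ts : List (LRT V)) :
    nspec (Ts.map (stripT O)) = nspecO O Ts := by
  unfold nspec nspecO
  rw [strip_labs, List.countP_map]
  congr 1
  ext F
  simp only [Function.comp, ne_eq, Finset.sdiff_eq_empty_iff_subset]

theorem nspecO_dummies (P : Finset V) (Ts : List (LRT V)) (O : List V) :
    nspecO P (Ts ++ O.map dummy) = nspecO P Ts := by
  rw [nspecO_append]
  have : nspecO P (O.map (dummy (V := V))) = 0 := by
    unfold nspecO
    rw [List.countP_eq_zero]
    intro F hF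
    obtain ⟨T, hT, hF⟩ := List.mem_flatMap.1 hF
    obtain ⟨o, _, rfl⟩ := List.mem_map.1 hT
    simp [dummy_labs] at hF
  omega

theorem softs_strip_sub (O : Finset V) (Ts : List (LRT V)) :
    softs (Ts.map (stripT O)) \ poss (Ts.map (stripT O)) ⊆ (softs Ts \ poss Ts) \ O := by
  intro x hx
  rw [Finset.mem_sdiff, strip_poss, mem_softs_iff, mult_strip] at hx
  rw [Finset.mem_sdiff, Finset.mem_sdiff, mem_softs_iff]
  split_ifs at hx with h
  · exact absurd rfl hx.1
  · exact ⟨hx, h⟩

theorem poss_dummies (Ts : List (LRT V)) (O : List V) :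
    poss (Ts ++ O.map dummy) = poss Ts ∪ O.toFinset := by
  rw [poss_append]
  congr 1
  unfold poss
  rw [List.map_map]
  have : (LRT.pos ∘ dummy : V → V) = id := rfl
  rw [this, List.map_id]

theorem nodup_dummies {Ts : List (LRT V)} {O : List V} (h1 : (Ts.map LRT.pos).Nodup)
    (h2 : O.Nodup) (h3 : ∀ o ∈ O, o ∉ poss Ts) : ((Ts ++ O.map dummy).map LRT.pos).Nodup := by
  rw [List.map_append, List.nodup_append]
  have : (LRT.pos ∘ dummy : V → V) = id := rfl
  rw [List.map_map, this, List.map_id]
  refine ⟨h1, h2, ?_⟩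
  intro a ha c hc hac
  subst hac
  apply h3 a hc
  unfold poss
  exact List.mem_toFinset.2 ha

theorem rootOK_dummy (o : V) : RootOK (dummy o) := by
  constructor <;> simp [dummy, LT.top]

theorem dummies_sizes : ∀ O : List V,
    List.Forall₂ (fun T n => LRT.size T ≤ n) (O.map dummy) (List.replicate O.length 1)
  | [] => .nil
  | o :: O => by
    rw [List.map_cons, List.length_cons, List.replicate_succ]
    exact .cons (by simp [dummy, LRT.size]) (dummies_sizes O)

end

section
variable {m : ℕ}

/-- **Clean counting.** -/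
theorem Gd.emb {D s : ℕ} {v : List ℕ} (h : Gd m D s v) {Ts : List (LRT (Fin m → Bool))}
    (h1 : (Ts.map LRT.pos).Nodup) (h2 : ∀ T ∈ Ts, RootOK T)
    (h3 : List.Forall₂ (fun T n => LRT.size T ≤ n) Ts v) (h4 : (softs Ts \ poss Ts).card ≤ D)
    (h5 : nspecO (poss Ts) Ts ≤ s) : ∃ S, Emb (cadj m) Ts S := by
  obtain ⟨S, hS⟩ := h (Ts.map (stripT (poss Ts))) (by rw [strip_poss']; exact h1) (by
    intro T hT
    obtain ⟨U, hU, rfl⟩ := List.mem_map.1 hT
    exact strip_ok (h2 U hU)) (by
    rw [List.forall₂_map_left_iff]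
    exact h3.imp fun T n hn => by rw [stripT_size]; exact hn) (by
    refine le_trans (Finset.card_le_card ?_) h4
    exact (softs_strip_sub (poss Ts) Ts).trans Finset.sdiff_subset) (by
    rw [nspec_strip]; exact h5)
  exact ⟨S, emb_of_strip h2 hS⟩

/-- **Hardening.** The soft positions `O` are replaced by trees with one vertex. -/
theorem Gd.emb_harden {D s : ℕ} {v : List ℕ} {Ts : List (LRT (Fin m → Bool))}
    (O : Finset (Fin m → Bool)) (h : Gd m D s (v ++ List.replicate O.card 1))
    (hO : Disjoint O (poss Ts))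
    (h1 : (Ts.map LRT.pos).Nodup) (h2 : ∀ T ∈ Ts, RootOK T)
    (h3 : List.Forall₂ (fun T n => LRT.size T ≤ n) Ts v)
    (h4 : (softs Ts \ (poss Ts ∪ O)).card ≤ D)
    (h5 : nspecO (poss Ts ∪ O) Ts ≤ s) : ∃ S, Emb (cadj m) Ts S := by
  have hp : poss (Ts ++ O.toList.map dummy) = poss Ts ∪ O := by
    rw [poss_dummies, Finset.toList_toFinset]
  obtain ⟨S, hS⟩ := h.emb (Ts := Ts ++ O.toList.map dummy)
    (nodup_dummies h1 (Finset.nodup_toList O) (fun o ho =>
      Finset.disjoint_left.1 hO (Finset.mem_toList.1 ho))) (by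
    intro T hT
    rcases List.mem_append.1 hT with hT | hT
    · exact h2 T hT
    · obtain ⟨o, _, rfl⟩ := List.mem_map.1 hT
      exact rootOK_dummy o) (by
    refine forall₂_append' h3 ?_
    have := dummies_sizes O.toList
    rwa [Finset.length_toList] at this) (by
    rw [hp, softs_dummies]; exact h4) (by
    rw [hp, nspecO_dummies]; exact h5)
  obtain ⟨A, B, hA, -⟩ := emb_append.1 hS
  exact ⟨A, hA⟩

/-- without soft positions the number of labels does not matter -/
theorem Gd.zero {s s' : ℕ} {v : List ℕ} (h : Gd m 0 s v) : Gd m 0 s' v := by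
  intro Ts h1 h2 h3 h4 _
  refine h.emb h1 h2 h3 h4 ?_
  have h6 : softs Ts ⊆ poss Ts := by
    rw [← Finset.sdiff_eq_empty_iff_subset]
    exact Finset.card_eq_zero.1 (Nat.le_zero.1 h4)
  have : nspecO (poss Ts) Ts = 0 := by
    unfold nspecO
    rw [List.countP_eq_zero]
    intro F hF
    obtain ⟨T, hT, hF⟩ := List.mem_flatMap.1 hF
    rw [decide_eq_true_iff, not_not]
    intro x hx
    exact h6 (mem_softs.2 ⟨T, hT, F, hF, hx⟩)
  omega

/-- without labels the number of soft positions does not matter -/
theorem Gd.zeroS {D D' : ℕ} {v : List ℕ} (h : Gd m D 0 v) : Gd m D' 0 v := by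
  intro Ts h1 h2 h3 _ h5
  refine h Ts h1 h2 h3 ?_ h5
  have : softs Ts = ∅ := by
    rw [Finset.eq_empty_iff_forall_notMem]
    intro x hx
    obtain ⟨T, hT, F, hF, hxF⟩ := mem_softs.1 hx
    have h6 : nspec Ts = 0 := Nat.le_zero.1 h5
    unfold nspec at h6
    rw [List.countP_eq_zero] at h6
    have h7 := h6 F (List.mem_flatMap.2 ⟨T, hT, hF⟩)
    rw [decide_eq_true_iff, not_not] at h7
    rw [h7] at hxF
    exact absurd hxF (Finset.notMem_empty _)
  rw [this]
  simp

end

/-! ### Paths -/

namespace HT

/-- hole, or without holes -/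
def off (t : HT) : Prop := t = .hole ∨ t.holes = 0

/-- the parents of all holes lie on one descending path from the root -/
def pth : HT → Prop
  | nil => True
  | hole => True
  | node l r => (l.off ∧ r.pth) ∨ (l.pth ∧ r.off)

theorem pth_of_holes : ∀ {t : HT}, t.holes = 0 → t.pth
  | nil, _ => trivial
  | hole, _ => trivial
  | node l r, h => by
    rw [HT.holes] at h
    exact Or.inl ⟨Or.inr (by omega), pth_of_holes (by omega)⟩

theorem off.pth {t : HT} (h : t.off) : t.pth := by
  rcases h with rfl | h
  · trivial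
  · exact pth_of_holes h

theorem pth.left {l r : HT} (h : (HT.node l r).pth) : l.pth := by
  rcases h with h | h
  · exact h.1.pth
  · exact h.1

theorem pth.right {l r : HT} (h : (HT.node l r).pth) : r.pth := by
  rcases h with h | h
  · exact h.2
  · exact h.2.pth

theorem pth.symm {l r : HT} (h : (HT.node l r).pth) : (HT.node r l).pth := by
  rcases h with h | h
  · exact Or.inr ⟨h.2, h.1⟩
  · exact Or.inl ⟨h.2, h.1⟩

/-- some holes are filled with `nil` -/
inductive Le : HT → HT → Prop
  | nil : Le .nil .nil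
  | nh : Le .nil .hole
  | hole : Le .hole .hole
  | node {l r l' r' : HT} : Le l l' → Le r r' → Le (.node l r) (.node l' r')

theorem Le.refl : ∀ t : HT, Le t t
  | .nil => .nil
  | .hole => .hole
  | .node l r => .node (Le.refl l) (Le.refl r)

theorem Le.holes {a b : HT} (h : Le a b) : a.holes ≤ b.holes := by
  induction h with
  | nil => exact le_rfl
  | nh => exact Nat.zero_le _
  | hole => exact le_rfl
  | node _ _ ih1 ih2 =>
    rw [HT.holes, HT.holes]
    exact Nat.add_le_add ih1 ih2

theorem Le.off {a b : HT} (h : Le a b) (hb : b.off) : a.off := by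
  rcases hb with rfl | hb
  · cases h
    · exact Or.inr rfl
    · exact Or.inl rfl
  · exact Or.inr (Nat.le_zero.1 (hb ▸ h.holes))

theorem Le.pth {a b : HT} (h : Le a b) (hb : b.pth) : a.pth := by
  induction h with
  | nil => trivial
  | nh => trivial
  | hole => trivial
  | node h1 h2 ih1 ih2 =>
    rcases hb with hb | hb
    · exact Or.inl ⟨h1.off hb.1, ih2 hb.2⟩
    · exact Or.inr ⟨ih1 hb.1, h2.off hb.2⟩

end HT

section
variable {V : Type*}

theorem LT.core_le {R R' : Finset V → Bool} : ∀ {t : LT V}, (∀ F ∈ t.labs, R F = true → R' F = true) →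
    HT.Le (t.core R) (t.core R')
  | .nil, _ => .nil
  | .hole F, h => by
    have h1 := h F (by simp [LT.labs])
    unfold LT.core
    by_cases h2 : R F = true
    · rw [if_pos h2, if_pos (h1 h2)]; exact .hole
    · rw [if_neg h2]
      split_ifs
      · exact .nh
      · exact .nil
  | .node l r, h => .node (LT.core_le fun F hF => h F (by simp [LT.labs, hF]))
      (LT.core_le fun F hF => h F (by simp [LT.labs, hF]))

theorem LT.core_mapL {W : Type*} (g : Finset V → Finset W) (R : Finset W → Bool) : ∀ t : LT V,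
    (t.mapL g).core R = t.core (fun F => R (g F))
  | .nil => rfl
  | .hole F => rfl
  | .node l r => by
    simp only [LT.mapL, LT.core, LT.core_mapL g R l, LT.core_mapL g R r]

theorem LT.core_holes (R : Finset V → Bool) : ∀ t : LT V, (t.core R).holes = t.labs.countP R
  | .nil => rfl
  | .hole F => by
    unfold LT.core
    by_cases h : R F = true
    · rw [if_pos h]; simp [LT.labs, HT.holes, h]
    · rw [if_neg h]; simp [LT.labs, HT.holes, h]
  | .node l r => by
    simp only [LT.core, HT.holes, LT.core_holes R l, LT.core_holes R r, LT.labs, List.countP_append]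

/-- the labelled tree is a path tree with respect to the relevant labels -/
def PT (R : Finset V → Bool) (T : LRT V) : Prop := (T.tree.core R).pth

theorem PT.mono {R R' : Finset V → Bool} {T : LRT V}
    (h : ∀ F ∈ T.labs, R F = true → R' F = true) (hT : PT R' T) : PT R T :=
  (LT.core_le (t := T.tree) h).pth hT

theorem PT.of_none {R : Finset V → Bool} {T : LRT V} (h : ∀ F ∈ T.labs, R F = false) : PT R T := by
  refine HT.pth_of_holes ?_
  rw [LT.core_holes, List.countP_eq_zero]
  intro F hF
  have : F ∈ T.labs := hF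
  simp [h F this]

end

/-- non empty label -/
def nonE {V : Type*} [DecidableEq V] (F : Finset V) : Bool := decide (F ≠ ∅)

/-- label which is not contained in `O` -/
def notIn {V : Type*} [DecidableEq V] (O F : Finset V) : Bool := decide (¬ F ⊆ O)

/-- the two definitions of paths -/
theorem LT.pth_iff_core {V : Type*} [DecidableEq V] : ∀ t : LT V, t.pth ↔ (t.core nonE).pth
  | .nil => Iff.rfl
  | .hole F => by
    unfold LT.core
    split_ifs <;> simp [LT.pth, HT.pth]
  | .node l r => by
    have hflat : ∀ t : LT V, t.flat ↔ (t.core nonE).holes = 0 := by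
      intro t
      rw [LT.core_holes, List.countP_eq_zero]
      unfold LT.flat nonE
      refine forall₂_congr fun F _ => ?_
      rw [decide_eq_true_iff, not_not]
    have hside : ∀ t : LT V, t.side ↔ (t.core nonE).off := by
      intro t
      unfold LT.side HT.off
      constructor
      · rintro (⟨F, rfl⟩ | h)
        · unfold LT.core
          split_ifs
          · exact Or.inl rfl
          · exact Or.inr rfl
        · exact Or.inr ((hflat t).1 h)
      · rintro (h | h)
        · left
          cases t with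
          | nil => simp [LT.core] at h
          | hole F => exact ⟨F, rfl⟩
          | node _ _ => simp [LT.core] at h
        · exact Or.inr ((hflat t).2 h)
    have ih1 := LT.pth_iff_core l
    have ih2 := LT.pth_iff_core r
    simp only [LT.pth, LT.core, HT.pth]
    rw [ih1, ih2, hside, hside]
    tauto

theorem pth_iff_PT {V : Type*} [DecidableEq V] (T : LRT V) : T.tree.pth ↔ PT nonE T :=
  LT.pth_iff_core T.tree

section
variable {m : ℕ}

/-- **Clean paths.** -/
theorem GdP.emb {D s : ℕ} {v : List ℕ} (h : GdP m D s v) {Ts : List (LRT (Fin m → Bool))}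
    (h1 : (Ts.map LRT.pos).Nodup) (h2 : ∀ T ∈ Ts, RootOK T)
    (h3 : List.Forall₂ (fun T n => LRT.size T ≤ n) Ts v) (h4 : (softs Ts \ poss Ts).card ≤ D)
    (h0 : nspecO (poss Ts) Ts ≤ s)
    (h5 : ∀ T ∈ Ts, PT (notIn (poss Ts)) T) : ∃ S, Emb (cadj m) Ts S := by
  obtain ⟨S, hS⟩ := h (Ts.map (stripT (poss Ts))) (by rw [strip_poss']; exact h1) (by
    intro T hT
    obtain ⟨U, hU, rfl⟩ := List.mem_map.1 hT
    exact strip_ok (h2 U hU)) (by
    rw [List.forall₂_map_left_iff]
    exact h3.imp fun T n hn => by rw [stripT_size]; exact hn) (by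
    refine le_trans (Finset.card_le_card ?_) h4
    exact (softs_strip_sub (poss Ts) Ts).trans Finset.sdiff_subset) (by
    rw [nspec_strip]; exact h0) (by
    intro T hT
    obtain ⟨U, hU, rfl⟩ := List.mem_map.1 hT
    have h6 := h5 U hU
    rw [pth_iff_PT]
    unfold PT at h6 ⊢
    have h7 : (stripT (poss Ts) U).tree = U.tree.mapL (fun F => F \ poss Ts) := rfl
    rw [h7, LT.core_mapL]
    refine (LT.core_le fun F _ hF => ?_).pth h6
    simp only [nonE, notIn, ne_eq, Finset.sdiff_eq_empty_iff_subset] at hF ⊢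
    exact hF)
  exact ⟨S, emb_of_strip h2 hS⟩

/-- **Hardening for path states.** -/
theorem GdP.emb_harden {D s : ℕ} {v : List ℕ} {Ts : List (LRT (Fin m → Bool))}
    (O : Finset (Fin m → Bool)) (h : GdP m D s (v ++ List.replicate O.card 1))
    (hO : Disjoint O (poss Ts))
    (h1 : (Ts.map LRT.pos).Nodup) (h2 : ∀ T ∈ Ts, RootOK T)
    (h3 : List.Forall₂ (fun T n => LRT.size T ≤ n) Ts v)
    (h4 : (softs Ts \ (poss Ts ∪ O)).card ≤ D) (h0 : nspecO (poss Ts ∪ O) Ts ≤ s)
    (h5 : ∀ T ∈ Ts, PT (notIn (poss Ts ∪ O)) T) : ∃ S, Emb (cadj m) Ts S := by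
  have hp : poss (Ts ++ O.toList.map dummy) = poss Ts ∪ O := by
    rw [poss_dummies, Finset.toList_toFinset]
  obtain ⟨S, hS⟩ := h.emb (Ts := Ts ++ O.toList.map dummy)
    (nodup_dummies h1 (Finset.nodup_toList O) (fun o ho =>
      Finset.disjoint_left.1 hO (Finset.mem_toList.1 ho))) (by
    intro T hT
    rcases List.mem_append.1 hT with hT | hT
    · exact h2 T hT
    · obtain ⟨o, _, rfl⟩ := List.mem_map.1 hT
      exact rootOK_dummy o) (by
    refine forall₂_append' h3 ?_
    have := dummies_sizes O.toList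
    rwa [Finset.length_toList] at this) (by
    rw [hp, softs_dummies]; exact h4) (by
    rw [hp, nspecO_dummies]; exact h0) (by
    rw [hp]
    intro T hT
    rcases List.mem_append.1 hT with hT | hT
    · exact h5 T hT
    · obtain ⟨o, _, rfl⟩ := List.mem_map.1 hT
      exact PT.of_none (by simp [dummy_labs]))
  obtain ⟨A, B, hA, -⟩ := emb_append.1 hS
  exact ⟨A, hA⟩

/-- path states without soft positions are hard states -/
theorem GdP.toGd {s s' : ℕ} {v : List ℕ} (h : GdP m 0 s v) : Gd m 0 s' v := by
  intro Ts h1 h2 h3 h4 _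
  have h6 : softs Ts ⊆ poss Ts := by
    rw [← Finset.sdiff_eq_empty_iff_subset]
    exact Finset.card_eq_zero.1 (Nat.le_zero.1 h4)
  have h7 : ∀ T ∈ Ts, ∀ F ∈ T.labs, F ⊆ poss Ts := fun T hT F hF x hx =>
    h6 (mem_softs.2 ⟨T, hT, F, hF, hx⟩)
  refine h.emb h1 h2 h3 h4 ?_ fun T hT => PT.of_none fun F hF => ?_
  · have : nspecO (poss Ts) Ts = 0 := by
      unfold nspecO
      rw [List.countP_eq_zero]
      intro F hF
      obtain ⟨T, hT, hF⟩ := List.mem_flatMap.1 hF
      rw [decide_eq_true_iff, not_not]
      exact h7 T hT F hF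
    omega
  · unfold notIn
    rw [decide_eq_false_iff_not, not_not]
    exact h7 T hT F hF

/-- It is enough to treat forests whose labels are disjoint from the roots. -/
theorem Gd.of_clean {D s : ℕ} {v : List ℕ} (h : ∀ Ts : List (LRT (Fin m → Bool)),
    (Ts.map LRT.pos).Nodup → (∀ T ∈ Ts, RootOK T) →
    List.Forall₂ (fun T n => LRT.size T ≤ n) Ts v → (softs Ts \ poss Ts).card ≤ D →
      nspec Ts ≤ s → (∀ T ∈ Ts, ∀ F ∈ T.labs, Disjoint F (poss Ts)) →
      ∃ S, Emb (cadj m) Ts S) : Gd m D s v := by
  intro Ts h1 h2 h3 h4 h5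
  obtain ⟨S, hS⟩ := h (Ts.map (stripT (poss Ts))) (by rw [strip_poss']; exact h1) (by
    intro T hT
    obtain ⟨U, hU, rfl⟩ := List.mem_map.1 hT
    exact strip_ok (h2 U hU)) (by
    rw [List.forall₂_map_left_iff]
    exact h3.imp fun T n hn => by rw [stripT_size]; exact hn) (by
    refine le_trans (Finset.card_le_card ?_) h4
    exact (softs_strip_sub (poss Ts) Ts).trans Finset.sdiff_subset) (by
    rw [nspec_strip]; exact (nspecO_le _ _).trans h5) (by
    rw [strip_poss]
    intro T hT F hF
    have h6 : F ∈ (Ts.map (stripT (poss Ts))).flatMap LRT.labs := List.mem_flatMap.2 ⟨T, hT, hF⟩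
    rw [strip_labs] at h6
    obtain ⟨G, _, rfl⟩ := List.mem_map.1 h6
    exact Finset.sdiff_disjoint)
  exact ⟨S, emb_of_strip h2 hS⟩

/-- It is enough to treat forests whose labels are disjoint from the roots. -/
theorem GdP.of_clean {D s : ℕ} {v : List ℕ} (h : ∀ Ts : List (LRT (Fin m → Bool)),
    (Ts.map LRT.pos).Nodup → (∀ T ∈ Ts, RootOK T) →
    List.Forall₂ (fun T n => LRT.size T ≤ n) Ts v → (softs Ts \ poss Ts).card ≤ D →
      nspec Ts ≤ s → (∀ T ∈ Ts, T.tree.pth) → (∀ T ∈ Ts, ∀ F ∈ T.labs, Disjoint F (poss Ts)) →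
      ∃ S, Emb (cadj m) Ts S) : GdP m D s v := by
  intro Ts h1 h2 h3 h4 h5 h0
  obtain ⟨S, hS⟩ := h (Ts.map (stripT (poss Ts))) (by rw [strip_poss']; exact h1) (by
    intro T hT
    obtain ⟨U, hU, rfl⟩ := List.mem_map.1 hT
    exact strip_ok (h2 U hU)) (by
    rw [List.forall₂_map_left_iff]
    exact h3.imp fun T n hn => by rw [stripT_size]; exact hn) (by
    refine le_trans (Finset.card_le_card ?_) h4
    exact (softs_strip_sub (poss Ts) Ts).trans Finset.sdiff_subset) (by
    rw [nspec_strip]; exact (nspecO_le _ _).trans h5) (by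
    intro T hT
    obtain ⟨U, hU, rfl⟩ := List.mem_map.1 hT
    have h6 := (pth_iff_PT U).1 (h0 U hU)
    rw [pth_iff_PT]
    unfold PT at h6 ⊢
    have h7 : (stripT (poss Ts) U).tree = U.tree.mapL (fun F => F \ poss Ts) := rfl
    rw [h7, LT.core_mapL]
    refine (LT.core_le fun F _ hF => ?_).pth h6
    simp only [nonE, ne_eq, Finset.sdiff_eq_empty_iff_subset, decide_eq_true_iff] at hF ⊢
    rintro rfl
    exact hF (Finset.empty_subset _)) (by
    rw [strip_poss]
    intro T hT F hF
    have h6 : F ∈ (Ts.map (stripT (poss Ts))).flatMap LRT.labs := List.mem_flatMap.2 ⟨T, hT, hF⟩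
    rw [strip_labs] at h6
    obtain ⟨G, _, rfl⟩ := List.mem_map.1 h6
    exact Finset.sdiff_disjoint)
  exact ⟨S, emb_of_strip h2 hS⟩

end

end Pool.Agent.Work.MP_bf01b2_co.MR
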