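import Pool.Agent.Work.MP_bf01b2_co.MR.Base

/-!
# The single tree cut lemma with nested windows
-/

set_option autoImplicit false

namespace Pool.Agent.Work.MP_bf01b2_co.MR

/-- `Cuts t t' ps`: the tree `t'` arises from `t` by replacing some (non empty, disjoint) subtrees by
holes; `ps` is the list of these subtrees, from left to right. -/
inductive Cuts : HT → HT → List HT → Prop
  | nil : Cuts .nil .nil []
  | cut (l r : HT) : Cuts (.node l r) .hole [.node l r]
  | node {l r l' r' : HT} {ps qs : List HT} :
      Cuts l l' ps → Cuts r r' qs → Cuts (.node l r) (.node l' r') (ps ++ qs)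

/-- total size of a list of trees -/
def tot (ps : List HT) : ℕ := (ps.map HT.size).sum

@[simp] theorem tot_nil : tot [] = 0 := rfl

@[simp] theorem tot_cons (p : HT) (ps : List HT) : tot (p :: ps) = p.size + tot ps := by
  simp [tot]

@[simp] theorem tot_append (ps qs : List HT) : tot (ps ++ qs) = tot ps + tot qs := by
  simp [tot]

theorem Cuts.refl : ∀ {t : HT}, t.holes = 0 → Cuts t t []
  | .nil, _ => .nil
  | .hole, h => by simp [HT.holes] at h
  | .node l r, h => by
    rw [HT.holes] at h
    have h1 := Cuts.refl (t := l) (by omega)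
    have h2 := Cuts.refl (t := r) (by omega)
    exact .node h1 h2

theorem ok_of_holes : ∀ {t : HT}, t.holes = 0 → t.ok
  | .nil, _ => trivial
  | .hole, _ => trivial
  | .node l r, h => by
    rw [HT.holes] at h
    refine ⟨?_, ok_of_holes (by omega), ok_of_holes (by omega)⟩
    rintro ⟨rfl, -⟩
    simp [HT.holes] at h

theorem ne_hole_of_holes {t : HT} (h : t.holes = 0) : t ≠ .hole := by
  rintro rfl
  simp [HT.holes] at h

theorem Cuts.size : ∀ {t t' : HT} {ps : List HT}, Cuts t t' ps → t.size = t'.size + tot ps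
  | _, _, _, .nil => by simp [HT.size]
  | _, _, _, .cut l r => by simp [HT.size]
  | _, _, _, .node h1 h2 => by
    rw [HT.size, HT.size, h1.size, h2.size, tot_append]
    omega

theorem Cuts.holes : ∀ {t t' : HT} {ps : List HT}, Cuts t t' ps → t'.holes = ps.length
  | _, _, _, .nil => by simp [HT.holes]
  | _, _, _, .cut l r => by simp [HT.holes]
  | _, _, _, .node h1 h2 => by
    rw [HT.holes, h1.holes, h2.holes, List.length_append]

/-- the pieces are non empty subtrees without holes -/
theorem Cuts.pieces : ∀ {t t' : HT} {ps : List HT}, Cuts t t' ps → t.holes = 0 →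
    ∀ p ∈ ps, p.holes = 0 ∧ 1 ≤ p.size
  | _, _, _, .nil, _, p, hp => by simp at hp
  | _, _, _, .cut l r, h, p, hp => by
    rw [List.mem_singleton] at hp
    subst hp
    exact ⟨h, by simp [HT.size]⟩
  | _, _, _, .node h1 h2, h, p, hp => by
    rw [HT.holes] at h
    rcases List.mem_append.mp hp with hp | hp
    · exact h1.pieces (by omega) p hp
    · exact h2.pieces (by omega) p hp


/-! ### The exact single tree game -/

/-- `Win Acc n ss S`: (fuel `n`) whatever tree with `S` vertices is the active subtree (its root may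
be a cut parent, but is not moved itself), one can cut pieces such that the list of all the sizes of
the pieces (newest first, `ss` = the old ones) satisfies `Acc`. -/
def Win (Acc : List ℕ → Prop) : ℕ → List ℕ → ℕ → Prop
  | 0, ss, _ => Acc ss
  | n + 1, ss, S => Acc ss ∨ (2 ≤ S ∧ ∀ a b, a + b + 1 = S → b ≤ a →
      (Win Acc n ss a ∨ Win Acc n ss b ∨ Win Acc n (a :: ss) b ∨
        (1 ≤ b ∧ Win Acc n (b :: ss) a)))

theorem cuts_self : ∀ {t : HT}, 1 ≤ t.size → Cuts t .hole [t]
  | .nil, h => by simp [HT.size] at h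
  | .hole, h => by simp [HT.size] at h
  | .node l r, _ => .cut l r

/-- result of a game: pieces `ps` cut from `y`, their sizes in some order are `ts` -/
def Cutting (y : HT) (ts : List ℕ) : Prop :=
  ∃ y' ps, Cuts y y' ps ∧ y'.ok ∧ y' ≠ .hole ∧ (ps.map HT.size).Perm ts

theorem Cutting.refl {y : HT} (h : y.holes = 0) : Cutting y [] :=
  ⟨y, [], Cuts.refl h, ok_of_holes h, ne_hole_of_holes h, by simp⟩

theorem Cutting.left {l r : HT} {ts : List ℕ} (h : Cutting l ts) (hr : r.holes = 0) :
    Cutting (.node l r) ts := by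
  obtain ⟨l', ps, hc, hok, hne, hp⟩ := h
  exact ⟨.node l' r, ps ++ [], .node hc (Cuts.refl hr), ⟨fun h => hne h.1, hok, ok_of_holes hr⟩,
    by simp, by simpa using hp⟩

theorem Cutting.right {l r : HT} {ts : List ℕ} (h : Cutting r ts) (hl : l.holes = 0) :
    Cutting (.node l r) ts := by
  obtain ⟨r', ps, hc, hok, hne, hp⟩ := h
  exact ⟨.node l r', [] ++ ps, .node (Cuts.refl hl) hc, ⟨fun h => hne h.2, ok_of_holes hl, hok⟩,
    by simp, by simpa using hp⟩

/-- cut the left child, continue in the right one -/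
theorem Cutting.cutLeft {l r : HT} {ts : List ℕ} (h : Cutting r ts) (hl : 1 ≤ l.size) :
    Cutting (.node l r) (ts ++ [l.size]) := by
  obtain ⟨r', ps, hc, hok, hne, hp⟩ := h
  refine ⟨.node .hole r', [l] ++ ps, .node (cuts_self hl) hc, ⟨fun h => hne h.2, trivial, hok⟩,
    by simp, ?_⟩
  simp only [List.cons_append, List.nil_append, List.map_cons]
  exact (List.Perm.cons _ hp).trans (List.perm_append_comm (l₁ := [l.size]))

theorem Cutting.cutRight {l r : HT} {ts : List ℕ} (h : Cutting l ts) (hr : 1 ≤ r.size) :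
    Cutting (.node l r) (ts ++ [r.size]) := by
  obtain ⟨l', ps, hc, hok, hne, hp⟩ := h
  refine ⟨.node l' .hole, ps ++ [r], .node hc (cuts_self hr), ⟨fun h => hne h.1, hok, trivial⟩,
    by simp, ?_⟩
  simp only [List.map_append, List.map_cons, List.map_nil]
  exact List.Perm.append_right _ hp

/-- **Soundness of the exact game.** -/
theorem win_sound (Acc : List ℕ → Prop) : ∀ (n : ℕ) (ss : List ℕ) (y : HT), y.holes = 0 →
    Win Acc n ss y.size → ∃ ts, Cutting y ts ∧ Acc (ts ++ ss)
  | 0, ss, y, h0, h => ⟨[], Cutting.refl h0, by simpa [Win] using h⟩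
  | n + 1, ss, y, h0, h => by
    rcases h with h | ⟨hS, h⟩
    · exact ⟨[], Cutting.refl h0, by simpa using h⟩
    · cases y with
      | nil => simp [HT.size] at hS
      | hole => simp [HT.size] at hS
      | node l r =>
        rw [HT.holes] at h0
        have hl : l.holes = 0 := by omega
        have hr : r.holes = 0 := by omega
        rw [HT.size] at hS
        rcases le_total r.size l.size with hlr | hlr
        · rcases h l.size r.size rfl hlr with h | h | h | ⟨h1, h⟩
          · obtain ⟨ts, hc, ha⟩ := win_sound Acc n ss l hl h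
            exact ⟨ts, hc.left hr, ha⟩
          · obtain ⟨ts, hc, ha⟩ := win_sound Acc n ss r hr h
            exact ⟨ts, hc.right hl, ha⟩
          · obtain ⟨ts, hc, ha⟩ := win_sound Acc n _ r hr h
            exact ⟨ts ++ [l.size], hc.cutLeft (by omega), by simpa using ha⟩
          · obtain ⟨ts, hc, ha⟩ := win_sound Acc n _ l hl h
            exact ⟨ts ++ [r.size], hc.cutRight (by omega), by simpa using ha⟩
        · rcases h r.size l.size (by rw [HT.size]; omega) hlr with h | h | h | ⟨h1, h⟩
          · obtain ⟨ts, hc, ha⟩ := win_sound Acc n ss r hr h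
            exact ⟨ts, hc.right hl, ha⟩
          · obtain ⟨ts, hc, ha⟩ := win_sound Acc n ss l hl h
            exact ⟨ts, hc.left hr, ha⟩
          · obtain ⟨ts, hc, ha⟩ := win_sound Acc n _ l hl h
            exact ⟨ts ++ [r.size], hc.cutRight (by omega), by simpa using ha⟩
          · obtain ⟨ts, hc, ha⟩ := win_sound Acc n _ r hr h
            exact ⟨ts ++ [l.size], hc.cutLeft (by omega), by simpa using ha⟩

/-! ### Nested windows -/

/-- next deficit -/
def nxt (B : ℕ → ℕ) (i e : ℕ) : ℕ := e + 1 - (B i - B (i + 1))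

/-- The guaranteed remainder. `k` = number of pieces that may still be cut, `i` = number of pieces
already cut, `g` = gap `B i - M`, `e` = deficit of the active subtree. -/
def rem (B : ℕ → ℕ) : ℕ → ℕ → ℕ → ℕ → ℕ
  | 0, _, g, _ => g
  | k + 1, i, g, e =>
    if g ≤ B i - B (i + 1) then 0
    else rem B k (i + 1) ((g - (B i - B (i + 1)) + nxt B i e) / 2) (nxt B i e)

theorem rem_mono (B : ℕ → ℕ) : ∀ (k i : ℕ) {g g' e e' : ℕ}, g ≤ g' → e ≤ e' →
    rem B k i g e ≤ rem B k i g' e'
  | 0, _, _, _, _, _, hg, _ => hg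
  | k + 1, i, g, g', e, e', hg, he => by
    unfold rem nxt
    generalize B i - B (i + 1) = d
    by_cases h1 : g ≤ d
    · rw [if_pos h1]; exact Nat.zero_le _
    · rw [if_neg h1, if_neg (show ¬ g' ≤ d by omega)]
      exact rem_mono B k (i + 1) (by omega) (by omega)

/-- The stages of a cutting: `i` pieces are already cut, total of the second side `M`, deficit `e`;
the list contains the sizes of the next pieces in the order in which they are cut. The process stops
as soon as `Z ≤ M`. Every piece is at least half of the free place (up to the deficit). -/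
def Stages (B : ℕ → ℕ) (Z : ℕ) : ℕ → ℕ → ℕ → List ℕ → Prop
  | i, M, _, [] => Z ≤ M ∧ M ≤ B i
  | i, M, e, s :: ss => 1 ≤ s ∧ M < Z ∧ M + s ≤ B (i + 1) ∧ B (i + 1) ≤ M + 2 * s + nxt B i e ∧
      Stages B Z (i + 1) (M + s) (nxt B i e) ss

theorem Stages.total {B : ℕ → ℕ} {Z : ℕ} : ∀ {i M e : ℕ} {ss : List ℕ}, Stages B Z i M e ss →
    Z ≤ M + ss.sum ∧ M + ss.sum ≤ B (i + ss.length)
  | _, _, _, [], h => by simpa [Stages] using h
  | i, M, e, s :: ss, h => by
    obtain ⟨_, _, _, _, h5⟩ := h
    have h6 := h5.total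
    rw [List.sum_cons, List.length_cons]
    constructor
    · omega
    · have e1 : i + (ss.length + 1) = i + 1 + ss.length := by omega
      rw [e1]
      omega

theorem Stages.mono {B : ℕ → ℕ} {Z : ℕ} : ∀ {i M e e' : ℕ} {ss : List ℕ}, e ≤ e' →
    Stages B Z i M e ss → Stages B Z i M e' ss
  | _, _, _, _, [], _, h => h
  | i, M, e, e', s :: ss, he, h => by
    obtain ⟨h1, h2, h3, h4, h5⟩ := h
    have hn : nxt B i e ≤ nxt B i e' := by unfold nxt; omega
    exact ⟨h1, h2, h3, by omega, h5.mono hn⟩

theorem anti_le {B : ℕ → ℕ} (hB : ∀ j, B (j + 1) ≤ B j) (i : ℕ) : ∀ k, B (i + k) ≤ B i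
  | 0 => le_rfl
  | k + 1 => (hB (i + k)).trans (anti_le hB i k)

/-- result of the nested window strategy with at most `k` further pieces -/
def Good (B : ℕ → ℕ) (Z k i M e : ℕ) (y : HT) : Prop :=
  ∃ ss, Cutting y ss.reverse ∧ ss.length ≤ k ∧ Stages B Z i M e ss

theorem Good.mono {B : ℕ → ℕ} {Z k i M e e' : ℕ} {y : HT} (he : e ≤ e') (h : Good B Z k i M e y) :
    Good B Z k i M e' y := by
  obtain ⟨ss, h1, h2, h3⟩ := h
  exact ⟨ss, h1, h2, h3.mono he⟩

/-- Step at a vertex: cut the subtree `a`, continue in the other one. -/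
theorem good_vertex {B : ℕ → ℕ} {Z k i M e : ℕ} {a b : HT} (ha1 : 1 ≤ a.size) (hZ : M < Z)
    (hM : M + a.size ≤ B (i + 1)) (h2 : B (i + 1) ≤ M + 2 * a.size + nxt B i e)
    (ih : Good B Z k (i + 1) (M + a.size) (nxt B i e) b) :
    Good B Z (k + 1) i M e (.node a b) ∧ Good B Z (k + 1) i M e (.node b a) := by
  obtain ⟨ss, hc, hlen, hst⟩ := ih
  constructor
  · refine ⟨a.size :: ss, ?_, by simpa using hlen, ha1, hZ, hM, h2, hst⟩
    simpa using hc.cutLeft ha1
  · refine ⟨a.size :: ss, ?_, by simpa using hlen, ha1, hZ, hM, h2, hst⟩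
    simpa using hc.cutRight ha1

/-- **Nested windows**, large active subtree: `|y| > B (i + 1) - M`; no loss. -/
theorem good_big {B : ℕ → ℕ} {Z k i e : ℕ} {M : ℕ} (hZ : M < Z) (hM : M < B (i + 1))
    (ih : ∀ (M' : ℕ) (y : HT), y.holes = 0 → M' ≤ B (i + 1) →
      B (i + 1) ≤ M' + (B (i + 1) - M) / 2 → B (i + 1) ≤ M' + y.size →
      Good B Z k (i + 1) M' 0 y) :
    ∀ (y : HT), y.holes = 0 → B (i + 1) < M + y.size → Good B Z (k + 1) i M e y
  | .nil, _, h => by simp [HT.size] at h; omega
  | .hole, h, _ => by simp [HT.holes] at h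
  | .node l r, h0, h => by
    rw [HT.holes] at h0
    have hl : l.holes = 0 := by omega
    have hr : r.holes = 0 := by omega
    by_cases h1 : B (i + 1) < M + l.size
    · obtain ⟨ss, hc, hlen, hst⟩ := good_big (e := e) hZ hM ih l hl h1
      exact ⟨ss, hc.left hr, hlen, hst⟩
    · by_cases h2 : B (i + 1) < M + r.size
      · obtain ⟨ss, hc, hlen, hst⟩ := good_big (e := e) hZ hM ih r hr h2
        exact ⟨ss, hc.right hl, hlen, hst⟩
      · rw [HT.size] at h
        rcases le_total r.size l.size with hlr | hlr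
        · exact (good_vertex (by omega) hZ (by omega) (by omega)
            ((ih (M + l.size) r hr (by omega) (by omega) (by omega)).mono (Nat.zero_le _))).1
        · exact (good_vertex (by omega) hZ (by omega) (by omega)
            ((ih (M + r.size) l hl (by omega) (by omega) (by omega)).mono (Nat.zero_le _))).2

/-- **Nested windows.** `y` is the active subtree (its root may be a cut parent but may not be
moved itself), `M` the total of the second side after `i` pieces, gap `g`, deficit `e`. -/
theorem good_active {B : ℕ → ℕ} (hB : ∀ j, B (j + 1) ≤ B j) {Z : ℕ} :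
    ∀ (k i M g e : ℕ) (y : HT), y.holes = 0 → M ≤ B i → B i ≤ M + g → B i ≤ M + y.size + e →
      Z + rem B k i g e ≤ B (i + k) → Good B Z k i M e y
  | 0, i, M, g, e, y, h0, hM, hg, _, hZ =>
    ⟨[], Cutting.refl h0, le_rfl, by simp only [rem, add_zero] at hZ; omega, hM⟩
  | k + 1, i, M, g, e, y, h0, hM, hg, he, hZ => by
    by_cases hs : Z ≤ M
    · exact ⟨[], Cutting.refl h0, Nat.zero_le _, hs, hM⟩
    have hk : B (i + (k + 1)) ≤ B (i + 1) := by
      have := anti_le hB (i + 1) k
      rwa [show i + 1 + k = i + (k + 1) by omega] at this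
    have hd := hB i
    have hMB : M < B (i + 1) := by omega
    unfold rem at hZ
    rw [if_neg (show ¬ g ≤ B i - B (i + 1) by omega),
      show i + (k + 1) = i + 1 + k by omega] at hZ
    by_cases hbig : B (i + 1) < M + y.size
    · refine good_big (by omega) hMB (fun M' y' h0' hM' hg' he' => ?_) y h0 hbig
      refine good_active hB k (i + 1) M' ((B (i + 1) - M) / 2) 0 y' h0' hM' hg' (by omega) ?_
      have hm : rem B k (i + 1) ((B (i + 1) - M) / 2) 0 ≤
          rem B k (i + 1) ((g - (B i - B (i + 1)) + nxt B i e) / 2) (nxt B i e) :=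
        rem_mono B k (i + 1) (by omega) (Nat.zero_le _)
      omega
    · have hn : nxt B i e = e + 1 - (B i - B (i + 1)) := rfl
      have hed : ¬ e < B i - B (i + 1) := by omega
      -- a vertex without children: nothing to cut, the bound is weaker than the present total
      have hleaf : B (i + 1) ≤ M + e - (B i - B (i + 1)) + 1 → Good B Z (k + 1) i M e y := by
        intro h
        obtain ⟨ss, hc, hlen, hst⟩ := good_active hB (Z := Z) k (i + 1) M
          ((g - (B i - B (i + 1)) + nxt B i e) / 2) (nxt B i e) .nil rfl (by omega)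
          (by omega) (by simp only [HT.size]; omega) hZ
        obtain ⟨y', ps, hc1, -, -, hp⟩ := hc
        cases hc1
        have : ss = [] := by simpa using hp
        subst this
        exact absurd hst.1 hs
      cases y with
      | hole => simp [HT.holes] at h0
      | nil => exact hleaf (by simp only [HT.size] at he; omega)
      | node l r =>
        rw [HT.holes] at h0
        have hl : l.holes = 0 := by omega
        have hr : r.holes = 0 := by omega
        rw [HT.size] at he hbig
        by_cases hz : l.size + r.size = 0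
        · exact hleaf (by omega)
        · rcases le_total r.size l.size with hlr | hlr
          · exact (good_vertex (by omega) (by omega) (by omega) (by omega)
              (good_active hB k (i + 1) (M + l.size)
                ((g - (B i - B (i + 1)) + nxt B i e) / 2) (nxt B i e) r hr
                (by omega) (by omega) (by omega) hZ)).1
          · exact (good_vertex (by omega) (by omega) (by omega) (by omega)
              (good_active hB k (i + 1) (M + r.size)
                ((g - (B i - B (i + 1)) + nxt B i e) / 2) (nxt B i e) l hl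
                (by omega) (by omega) (by omega) hZ)).2

/-- **First cut (P1).** The tree `t` (root prescribed, may be a cut parent) has more than
`B 1 - M` vertices. At most `k + 1` pieces are cut. -/
theorem good_root {B : ℕ → ℕ} (hB : ∀ j, B (j + 1) ≤ B j) {Z k M e : ℕ} {t : HT}
    (h0 : t.holes = 0) (hM : M < B 1) (hZM : M < Z) (ht : B 1 < M + t.size)
    (hZ : Z + rem B k 1 ((B 1 - M) / 2) 0 ≤ B (1 + k)) : Good B Z (k + 1) 0 M e t :=
  good_big hZM hM (fun M' y' h0' hM' hg' he' =>
    good_active hB k 1 M' ((B 1 - M) / 2) 0 y' h0' hM' hg' (by omega) hZ) t h0 ht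

/-! ### Uncuttable root (P2) -/

/-- cutting of a tree whose root is not a cut parent -/
def CuttingU (l r : HT) (ts : List ℕ) : Prop :=
  ∃ l' r' ps qs, Cuts l l' ps ∧ Cuts r r' qs ∧ l'.ok ∧ r'.ok ∧ l' ≠ .hole ∧ r' ≠ .hole ∧
    ((ps ++ qs).map HT.size).Perm ts

theorem CuttingU.symm {l r : HT} {ts : List ℕ} (h : CuttingU l r ts) : CuttingU r l ts := by
  obtain ⟨l', r', ps, qs, h1, h2, h3, h4, h5, h6, h7⟩ := h
  refine ⟨r', l', qs, ps, h2, h1, h4, h3, h6, h5, ?_⟩
  refine List.Perm.trans ?_ h7
  rw [List.map_append, List.map_append]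
  exact List.perm_append_comm

theorem Cutting.toU {l r : HT} {ts : List ℕ} (h : Cutting l ts) (hr : r.holes = 0) :
    CuttingU l r ts := by
  obtain ⟨l', ps, hc, hok, hne, hp⟩ := h
  exact ⟨l', r, ps, [], hc, Cuts.refl hr, hok, ok_of_holes hr, hne, ne_hole_of_holes hr,
    by simpa using hp⟩

theorem Cutting.pair {l r : HT} {ts us : List ℕ} (h1 : Cutting l ts) (h2 : Cutting r us) :
    CuttingU l r (ts ++ us) := by
  obtain ⟨l', ps, hc, hok, hne, hp⟩ := h1
  obtain ⟨r', qs, hc', hok', hne', hp'⟩ := h2
  refine ⟨l', r', ps, qs, hc, hc', hok, hok', hne, hne', ?_⟩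
  rw [List.map_append]
  exact hp.append hp'

/-- result of the nested window strategy for a tree with uncuttable root -/
def GoodU (B : ℕ → ℕ) (Z k i M e : ℕ) (l r : HT) : Prop :=
  ∃ ss, CuttingU l r ss.reverse ∧ ss.length ≤ k ∧ Stages B Z i M e ss

theorem GoodU.symm {B : ℕ → ℕ} {Z k i M e : ℕ} {l r : HT} (h : GoodU B Z k i M e l r) :
    GoodU B Z k i M e r l := by
  obtain ⟨ss, h1, h2, h3⟩ := h
  exact ⟨ss, h1.symm, h2, h3⟩

/-- one child is large: no loss -/
theorem goodU_big {B : ℕ → ℕ} (hB : ∀ j, B (j + 1) ≤ B j) {Z k M e : ℕ} {l r : HT}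
    (hl : l.holes = 0) (hr : r.holes = 0) (hM : M < B 1) (hZM : M < Z) (ht : B 1 < M + l.size)
    (hZ : Z + rem B k 1 ((B 1 - M) / 2) 0 ≤ B (1 + k)) : GoodU B Z (k + 1) 0 M e l r := by
  obtain ⟨ss, hc, h2, h3⟩ := good_root (e := e) hB hl hM hZM ht hZ
  exact ⟨ss, hc.toU hr, h2, h3⟩

/-- both children are small: cut a child of the larger child `l`, continue in `r` -/
theorem goodU_small {B : ℕ → ℕ} (hB : ∀ j, B (j + 1) ≤ B j) {Z k M e g' e' : ℕ} {l r : HT}
    (hl : l.holes = 0) (hr : r.holes = 0) (h2 : 2 ≤ l.size)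
    (hM : M + l.size ≤ B 1) (hZM : M < Z)
    (hg : B 1 ≤ M + l.size / 2 + g') (he : B 1 ≤ M + l.size / 2 + r.size + e')
    (hn : e' ≤ nxt B 0 e) (hst : B 1 ≤ M + 2 * (l.size / 2) + nxt B 0 e)
    (hZ : Z + rem B k 1 g' e' ≤ B (1 + k)) : GoodU B Z (k + 1) 0 M e l r := by
  cases l with
  | nil => simp [HT.size] at h2
  | hole => simp [HT.size] at h2
  | node x y =>
    rw [HT.holes] at hl
    have hx : x.holes = 0 := by omega
    have hy : y.holes = 0 := by omega
    rw [HT.size] at *
    rcases le_total y.size x.size with h | h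
    · obtain ⟨ss, hc, hlen, hst'⟩ := good_active hB (Z := Z) k 1 (M + x.size) g' e' r hr
        (by omega) (by omega) (by omega) hZ
      have hc1 : Cutting (.node x y) ([] ++ [x.size]) :=
        (Cutting.refl hy).cutLeft (by omega)
      refine ⟨x.size :: ss, ?_, by simpa using hlen, by omega, hZM,
        (show M + x.size ≤ B 1 by omega), ?_, Stages.mono hn hst'⟩
      · obtain ⟨l', r', ps, qs, q1, q2, q3, q4, q5, q6, q7⟩ := (Cutting.pair hc1 hc)
        refine ⟨l', r', ps, qs, q1, q2, q3, q4, q5, q6, q7.trans ?_⟩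
        rw [List.reverse_cons]
        simp only [List.nil_append]
        exact List.perm_append_comm
      · show B (0 + 1) ≤ _
        rw [zero_add]
        omega
    · obtain ⟨ss, hc, hlen, hst'⟩ := good_active hB (Z := Z) k 1 (M + y.size) g' e' r hr
        (by omega) (by omega) (by omega) hZ
      have hc1 : Cutting (.node x y) ([] ++ [y.size]) :=
        (Cutting.refl hx).cutRight (by omega)
      refine ⟨y.size :: ss, ?_, by simpa using hlen, by omega, hZM,
        (show M + y.size ≤ B 1 by omega), ?_, Stages.mono hn hst'⟩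
      · obtain ⟨l', r', ps, qs, q1, q2, q3, q4, q5, q6, q7⟩ := (Cutting.pair hc1 hc)
        refine ⟨l', r', ps, qs, q1, q2, q3, q4, q5, q6, q7.trans ?_⟩
        rw [List.reverse_cons]
        simp only [List.nil_append]
        exact List.perm_append_comm
      · show B (0 + 1) ≤ _
        rw [zero_add]
        omega

end Pool.Agent.Work.MP_bf01b2_co.MR
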