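import Pool.Agent.Work.MP_bf01b2_co.MR.CutsR

/-!
# The cut lemma with uncuttable vertices

`CutsR` (helper8): the root of a piece has no (old, relevant) hole child. We prove the nested window
strategy with the penalty `c` = number of old holes. If the larger child `a` of the active vertex is
special (has a hole child) we go down its chain of specials to the first vertex without hole child,
which is cut; the loss is the number of specials of the chain.

Pieces of size `0` are allowed in the lists `ss` (nothing is cut).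
-/

set_option autoImplicit false

namespace Pool.Agent.Work.MP_bf01b2_co.MR

/-- clear the holes -/
def HT.clr : HT → HT
  | .nil => .nil
  | .hole => .nil
  | .node l r => .node l.clr r.clr

theorem HT.clr_holes : ∀ t : HT, t.clr.holes = 0
  | .nil => rfl
  | .hole => rfl
  | .node l r => by simp only [HT.clr, HT.holes, HT.clr_holes l, HT.clr_holes r]

theorem HT.clr_size : ∀ t : HT, t.clr.size = t.size
  | .nil => rfl
  | .hole => rfl
  | .node l r => by simp only [HT.clr, HT.size, HT.clr_size l, HT.clr_size r]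

theorem CutsR.refl : ∀ t : HT, CutsR t t.clr []
  | .nil => .nil
  | .hole => .old
  | .node l r => .node (CutsR.refl l) (CutsR.refl r)

theorem CutsR.size : ∀ {t t' : HT} {ps : List HT}, CutsR t t' ps → t.size = t'.size + tot ps
  | _, _, _, .nil => by simp [HT.size]
  | _, _, _, .old => by simp [HT.size]
  | _, _, _, .cut l r _ _ => by simp [HT.size]
  | _, _, _, .node h1 h2 => by
    rw [HT.size, HT.size, h1.size, h2.size, tot_append]
    omega

theorem CutsR.holes : ∀ {t t' : HT} {ps : List HT}, CutsR t t' ps → t'.holes = ps.length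
  | _, _, _, .nil => by simp [HT.holes]
  | _, _, _, .old => by simp [HT.holes]
  | _, _, _, .cut l r _ _ => by simp [HT.holes]
  | _, _, _, .node h1 h2 => by
    rw [HT.holes, h1.holes, h2.holes, List.length_append]

/-- the pieces are non empty subtrees whose roots have no hole child -/
theorem CutsR.piece : ∀ {t t' : HT} {ps : List HT}, CutsR t t' ps →
    ∀ p ∈ ps, ∃ l r, p = .node l r ∧ l ≠ .hole ∧ r ≠ .hole
  | _, _, _, .nil, p, hp => by simp at hp
  | _, _, _, .old, p, hp => by simp at hp
  | _, _, _, .cut l r hl hr, p, hp => by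
    rw [List.mem_singleton] at hp
    exact ⟨l, r, hp, hl, hr⟩
  | _, _, _, .node h1 h2, p, hp => by
    rcases List.mem_append.mp hp with hp | hp
    · exact h1.piece p hp
    · exact h2.piece p hp

/-- the pieces together do not contain more old holes than the tree -/
theorem CutsR.piece_holes : ∀ {t t' : HT} {ps : List HT}, CutsR t t' ps →
    (ps.map HT.holes).sum ≤ t.holes
  | _, _, _, .nil => by simp
  | _, _, _, .old => by simp
  | _, _, _, .cut l r _ _ => by simp
  | _, _, _, .node h1 h2 => by
    have e1 := h1.piece_holes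
    have e2 := h2.piece_holes
    rw [List.map_append, List.sum_append, HT.holes]
    omega

/-- a cutting whose rest may be a hole (the tree itself is cut) -/
def CuttingA (y : HT) (ts : List ℕ) : Prop :=
  ∃ y' ps, CutsR y y' ps ∧ y'.ok ∧ (ps.map HT.size).Perm ts

/-- result of a game: pieces `ps` cut from `y`, their sizes in some order are `ts`, the root of `y`
is not cut -/
def CuttingR (y : HT) (ts : List ℕ) : Prop :=
  ∃ y' ps, CutsR y y' ps ∧ y'.ok ∧ y' ≠ .hole ∧ (ps.map HT.size).Perm ts

theorem HT.clr_ne (t : HT) : t.clr ≠ .hole := ne_hole_of_holes (HT.clr_holes t)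

theorem CuttingR.refl (y : HT) : CuttingR y [] :=
  ⟨y.clr, [], CutsR.refl y, ok_of_holes (HT.clr_holes y), HT.clr_ne y, by simp⟩

theorem CuttingR.toA {y : HT} {ts : List ℕ} (h : CuttingR y ts) : CuttingA y ts := by
  obtain ⟨y', ps, h1, h2, _, h4⟩ := h
  exact ⟨y', ps, h1, h2, h4⟩

theorem CuttingA.perm {y : HT} {ts us : List ℕ} (h : CuttingA y ts) (hp : ts.Perm us) :
    CuttingA y us := by
  obtain ⟨y', ps, h1, h2, h4⟩ := h
  exact ⟨y', ps, h1, h2, h4.trans hp⟩

theorem CuttingR.perm {y : HT} {ts us : List ℕ} (h : CuttingR y ts) (hp : ts.Perm us) :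
    CuttingR y us := by
  obtain ⟨y', ps, h1, h2, h3, h4⟩ := h
  exact ⟨y', ps, h1, h2, h3, h4.trans hp⟩

/-- cut in both subtrees, the right one not at its root -/
theorem CuttingA.pair {l r : HT} {ts us : List ℕ} (h1 : CuttingA l ts) (h2 : CuttingR r us) :
    CuttingR (.node l r) (ts ++ us) := by
  obtain ⟨l', ps, hc, hok, hp⟩ := h1
  obtain ⟨r', qs, hc', hok', hne', hp'⟩ := h2
  refine ⟨.node l' r', ps ++ qs, .node hc hc', ⟨fun h => hne' h.2, hok, hok'⟩, by simp, ?_⟩
  rw [List.map_append]
  exact hp.append hp'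

/-- cut in both subtrees, the left one not at its root -/
theorem CuttingA.pair' {l r : HT} {ts us : List ℕ} (h1 : CuttingR l ts) (h2 : CuttingA r us) :
    CuttingR (.node l r) (ts ++ us) := by
  obtain ⟨l', ps, hc, hok, hne, hp⟩ := h1
  obtain ⟨r', qs, hc', hok', hp'⟩ := h2
  refine ⟨.node l' r', ps ++ qs, .node hc hc', ⟨fun h => hne h.1, hok, hok'⟩, by simp, ?_⟩
  rw [List.map_append]
  exact hp.append hp'

theorem CuttingR.left {l r : HT} {ts : List ℕ} (h : CuttingR l ts) : CuttingR (.node l r) ts := by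
  simpa using CuttingA.pair' h (CuttingR.refl r).toA

theorem CuttingR.right {l r : HT} {ts : List ℕ} (h : CuttingR r ts) : CuttingR (.node l r) ts := by
  simpa using CuttingA.pair (CuttingR.refl l).toA h

theorem CuttingR.nil_inv {ts : List ℕ} (h : CuttingR .nil ts) : ts = [] := by
  obtain ⟨y', ps, hc, -, -, hp⟩ := h
  cases hc
  simpa using hp

/-- the list `[s]`, or `[]` if `s = 0` -/
def sg (s : ℕ) : List ℕ := if s = 0 then [] else [s]

/-- the non zero elements -/
def nz (ss : List ℕ) : List ℕ := ss.filter (· ≠ 0)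

theorem nz_cons (s : ℕ) (ss : List ℕ) : nz (s :: ss) = sg s ++ nz ss := by
  unfold nz sg
  by_cases h : s = 0
  · simp [h]
  · simp [h]

theorem nz_sum : ∀ ss : List ℕ, (nz ss).sum = ss.sum
  | [] => rfl
  | s :: ss => by
    rw [nz_cons, List.sum_append, nz_sum ss, List.sum_cons]
    unfold sg
    split_ifs with h
    · simp [h]
    · simp

theorem nz_length (ss : List ℕ) : (nz ss).length ≤ ss.length := List.length_filter_le _ _

/-- **Chains of specials.** -/
theorem chain : ∀ a : HT, ∃ c, c ≤ a.holes ∧ c ≤ a.size ∧ CuttingA a (sg (a.size - c))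
  | .nil => ⟨0, le_rfl, le_rfl, by simpa [sg, HT.size] using (CuttingR.refl HT.nil).toA⟩
  | .hole => ⟨0, Nat.zero_le _, le_rfl, by simpa [sg, HT.size] using (CuttingR.refl HT.hole).toA⟩
  | .node l r => by
    by_cases hl : l = .hole
    · subst hl
      obtain ⟨c, h1, h2, h3⟩ := chain r
      refine ⟨c + 1, ?_, ?_, ?_⟩
      · rw [HT.holes, HT.holes]; omega
      · rw [HT.size, HT.size]; omega
      · have e : (HT.node .hole r).size - (c + 1) = r.size - c := by
          rw [HT.size, HT.size]; omega
        rw [e]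
        simpa using (CuttingA.pair' (CuttingR.refl HT.hole) h3).toA
    · by_cases hr : r = .hole
      · subst hr
        obtain ⟨c, h1, h2, h3⟩ := chain l
        refine ⟨c + 1, ?_, ?_, ?_⟩
        · rw [HT.holes, HT.holes]; omega
        · rw [HT.size, HT.size]; omega
        · have e : (HT.node l .hole).size - (c + 1) = l.size - c := by
            rw [HT.size, HT.size]; omega
          rw [e]
          simpa using (CuttingA.pair h3 (CuttingR.refl HT.hole)).toA
      · refine ⟨0, Nat.zero_le _, Nat.zero_le _, .hole, [.node l r], .cut l r hl hr, trivial, ?_⟩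
        simp [sg, HT.size]

/-! ### Stages -/

/-- The stages of a cutting with penalty `c`, see `Stages`; pieces of size `0` are allowed. -/
def StagesR (B : ℕ → ℕ) (Z c : ℕ) : ℕ → ℕ → ℕ → List ℕ → Prop
  | i, M, _, [] => Z ≤ M ∧ M ≤ B i
  | i, M, e, s :: ss => M < Z ∧ M + s ≤ B (i + 1) ∧
      B (i + 1) ≤ M + 2 * s + nxt B i e + 2 * c ∧ StagesR B Z c (i + 1) (M + s) (nxt B i e) ss

theorem StagesR.total {B : ℕ → ℕ} {Z c : ℕ} : ∀ {i M e : ℕ} {ss : List ℕ},
    StagesR B Z c i M e ss → Z ≤ M + ss.sum ∧ M + ss.sum ≤ B (i + ss.length)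
  | _, _, _, [], h => by simpa [StagesR] using h
  | i, M, e, s :: ss, h => by
    obtain ⟨_, _, _, h5⟩ := h
    have h6 := h5.total
    rw [List.sum_cons, List.length_cons]
    constructor
    · omega
    · have e1 : i + (ss.length + 1) = i + 1 + ss.length := by omega
      rw [e1]
      omega

theorem StagesR.mono {B : ℕ → ℕ} {Z c : ℕ} : ∀ {i M e e' : ℕ} {ss : List ℕ}, e ≤ e' →
    StagesR B Z c i M e ss → StagesR B Z c i M e' ss
  | _, _, _, _, [], _, h => h
  | i, M, e, e', s :: ss, he, h => by
    obtain ⟨h2, h3, h4, h5⟩ := h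
    have hn : nxt B i e ≤ nxt B i e' := by unfold nxt; omega
    exact ⟨h2, h3, by omega, h5.mono hn⟩

/-- result of the nested window strategy with at most `k` further pieces -/
def GoodR (B : ℕ → ℕ) (Z c k i M e : ℕ) (y : HT) : Prop :=
  ∃ ss, CuttingR y (nz ss).reverse ∧ ss.length ≤ k ∧ StagesR B Z c i M e ss

theorem GoodR.mono {B : ℕ → ℕ} {Z c k i M e e' : ℕ} {y : HT} (he : e ≤ e')
    (h : GoodR B Z c k i M e y) : GoodR B Z c k i M e' y := by
  obtain ⟨ss, h1, h2, h3⟩ := h
  exact ⟨ss, h1, h2, h3.mono he⟩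

/-- Step at a vertex: cut below the subtree `a`, continue in the other one. -/
theorem goodR_vertex {B : ℕ → ℕ} {Z c k i M e s : ℕ} {a b : HT} (hZ : M < Z)
    (hM : M + s ≤ B (i + 1)) (h2 : B (i + 1) ≤ M + 2 * s + nxt B i e + 2 * c)
    (hs : CuttingA a (sg s)) (ih : GoodR B Z c k (i + 1) (M + s) (nxt B i e) b) :
    GoodR B Z c (k + 1) i M e (.node a b) ∧ GoodR B Z c (k + 1) i M e (.node b a) := by
  obtain ⟨ss, hc, hlen, hst⟩ := ih
  have hp : (sg s ++ (nz ss).reverse).Perm (nz (s :: ss)).reverse := by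
    rw [nz_cons, List.reverse_append]
    refine List.perm_append_comm.trans ?_
    refine List.Perm.append_left _ ?_
    unfold sg
    split_ifs <;> simp
  constructor
  · exact ⟨s :: ss, (CuttingA.pair hs hc).perm hp, by simpa using hlen, hZ, hM, h2, hst⟩
  · exact ⟨s :: ss, (CuttingA.pair' hc hs).perm (List.perm_append_comm.trans hp),
      by simpa using hlen, hZ, hM, h2, hst⟩

/-- Large active subtree. -/
theorem goodR_big {B : ℕ → ℕ} {Z c k i e h : ℕ} {M : ℕ} (hZ : M < Z) (hM : M < B (i + 1))
    (hc : h ≤ c)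
    (ih : ∀ (M' c' : ℕ) (y : HT), y.holes + c' ≤ h → M' ≤ B (i + 1) →
      B (i + 1) ≤ M' + (B (i + 1) - M) / 2 + c' → B (i + 1) ≤ M' + y.size + c' →
      GoodR B Z c k (i + 1) M' (nxt B i e) y) :
    ∀ (y : HT), y.holes ≤ h → B (i + 1) < M + y.size → GoodR B Z c (k + 1) i M e y
  | .nil, _, h => by simp [HT.size] at h; omega
  | .hole, _, h => by simp [HT.size] at h; omega
  | .node l r, h0, h => by
    rw [HT.holes] at h0
    by_cases h1 : B (i + 1) < M + l.size
    · obtain ⟨ss, hc', hlen, hst⟩ := goodR_big hZ hM hc ih l (by omega) h1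
      exact ⟨ss, hc'.left, hlen, hst⟩
    · by_cases h2 : B (i + 1) < M + r.size
      · obtain ⟨ss, hc', hlen, hst⟩ := goodR_big hZ hM hc ih r (by omega) h2
        exact ⟨ss, hc'.right, hlen, hst⟩
      · rw [HT.size] at h
        rcases le_total r.size l.size with hlr | hlr
        · obtain ⟨c', e1, e2, e3⟩ := chain l
          exact (goodR_vertex hZ (by omega) (by omega) e3
            (ih (M + (l.size - c')) c' r (by omega) (by omega) (by omega) (by omega))).1
        · obtain ⟨c', e1, e2, e3⟩ := chain r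
          exact (goodR_vertex hZ (by omega) (by omega) e3
            (ih (M + (r.size - c')) c' l (by omega) (by omega) (by omega) (by omega))).2

/-- **Nested windows with uncuttable vertices.** `y` is the active subtree, `M` the total of the
second side after `i` pieces, gap `g`, deficit `e`, both up to the number `u` of the old holes which
were already used. -/
theorem goodR_active {B : ℕ → ℕ} (hB : ∀ j, B (j + 1) ≤ B j) {Z c : ℕ} :
    ∀ (k i M g e u : ℕ) (y : HT), y.holes + u ≤ c → M ≤ B i → B i ≤ M + g + u →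
      B i ≤ M + y.size + e + u → Z + rem B k i g e + c ≤ B (i + k) → GoodR B Z c k i M e y
  | 0, i, M, g, e, u, y, h0, hM, hg, _, hZ =>
    ⟨[], CuttingR.refl y, le_rfl, by simp only [rem, add_zero] at hZ; omega, hM⟩
  | k + 1, i, M, g, e, u, y, h0, hM, hg, he, hZ => by
    by_cases hs : Z ≤ M
    · exact ⟨[], CuttingR.refl y, Nat.zero_le _, hs, hM⟩
    have hk : B (i + (k + 1)) ≤ B (i + 1) := by
      have := anti_le hB (i + 1) k
      rwa [show i + 1 + k = i + (k + 1) by omega] at this
    have hd := hB i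
    have hMB : M < B (i + 1) := by omega
    unfold rem at hZ
    rw [if_neg (show ¬ g ≤ B i - B (i + 1) by omega),
      show i + (k + 1) = i + 1 + k by omega] at hZ
    have hn : nxt B i e = e + 1 - (B i - B (i + 1)) := rfl
    by_cases hbig : B (i + 1) < M + y.size
    · refine goodR_big (h := y.holes) (by omega) hMB (by omega)
        (fun M' c' y' h0' hM' hg' he' => ?_) y le_rfl hbig
      exact goodR_active hB k (i + 1) M' ((g - (B i - B (i + 1)) + nxt B i e) / 2) (nxt B i e)
        (u + c') y' (by omega) hM' (by omega) (by omega) hZ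
    · -- nothing to cut
      have hleaf : y.size ≤ 1 → GoodR B Z c (k + 1) i M e y := by
        intro h
        obtain ⟨ss, hc, hlen, hst⟩ := goodR_active hB (Z := Z) (c := c) k (i + 1) M
          ((g - (B i - B (i + 1)) + nxt B i e) / 2) (nxt B i e) u .nil
          (by simp only [HT.holes]; omega) (by omega)
          (by omega) (by simp only [HT.size]; omega) hZ
        have hc1 := hc.nil_inv
        refine ⟨0 :: ss, ?_, by simpa using hlen, by omega, by omega, ?_, by simpa using hst⟩
        · have : nz (0 :: ss) = nz ss := by simp [nz]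
          rw [this, hc1]
          exact CuttingR.refl y
        · omega
      cases y with
      | hole => exact hleaf (by simp [HT.size])
      | nil => exact hleaf (by simp [HT.size])
      | node l r =>
        rw [HT.holes] at h0
        by_cases hz : l.size + r.size = 0
        · exact hleaf (by rw [HT.size]; omega)
        · rw [HT.size] at he hbig
          rcases le_total r.size l.size with hlr | hlr
          · obtain ⟨c', e1, e2, e3⟩ := chain l
            exact (goodR_vertex (by omega) (by omega) (by omega) e3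
              (goodR_active hB k (i + 1) (M + (l.size - c'))
                ((g - (B i - B (i + 1)) + nxt B i e) / 2) (nxt B i e) (u + c') r
                (by omega) (by omega) (by omega) (by omega) hZ)).1
          · obtain ⟨c', e1, e2, e3⟩ := chain r
            exact (goodR_vertex (by omega) (by omega) (by omega) e3
              (goodR_active hB k (i + 1) (M + (r.size - c'))
                ((g - (B i - B (i + 1)) + nxt B i e) / 2) (nxt B i e) (u + c') l
                (by omega) (by omega) (by omega) (by omega) hZ)).2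

/-- **First cut (P1).** The tree `t` (root prescribed, may be a cut parent) has more than
`B 1 - M` vertices. At most `k + 1` pieces are cut. -/
theorem goodR_root {B : ℕ → ℕ} (hB : ∀ j, B (j + 1) ≤ B j) {Z c k M e : ℕ} {t : HT}
    (h0 : t.holes ≤ c) (hM : M < B 1) (hZM : M < Z) (ht : B 1 < M + t.size)
    (hZ : Z + rem B k 1 ((B 1 - M) / 2) 0 + c ≤ B (1 + k)) :
    GoodR B Z c (k + 1) 0 M e t :=
  goodR_big hZM hM h0 (fun M' c' y' h0' hM' hg' he' =>
    (goodR_active hB k 1 M' ((B 1 - M) / 2) 0 c' y' (h0'.trans h0) hM' hg'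
      he' hZ).mono (Nat.zero_le _)) t le_rfl ht

/-! ### Uncuttable root (P2) -/

/-- cutting of a tree whose root is not a cut parent -/
def CuttingUR (l r : HT) (ts : List ℕ) : Prop :=
  ∃ l' r' ps qs, CutsR l l' ps ∧ CutsR r r' qs ∧ l'.ok ∧ r'.ok ∧ l' ≠ .hole ∧ r' ≠ .hole ∧
    ((ps ++ qs).map HT.size).Perm ts

theorem CuttingUR.symm {l r : HT} {ts : List ℕ} (h : CuttingUR l r ts) : CuttingUR r l ts := by
  obtain ⟨l', r', ps, qs, h1, h2, h3, h4, h5, h6, h7⟩ := h
  refine ⟨r', l', qs, ps, h2, h1, h4, h3, h6, h5, ?_⟩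
  refine List.Perm.trans ?_ h7
  rw [List.map_append, List.map_append]
  exact List.perm_append_comm

theorem CuttingR.pairU {l r : HT} {ts us : List ℕ} (h1 : CuttingR l ts) (h2 : CuttingR r us) :
    CuttingUR l r (ts ++ us) := by
  obtain ⟨l', ps, hc, hok, hne, hp⟩ := h1
  obtain ⟨r', qs, hc', hok', hne', hp'⟩ := h2
  refine ⟨l', r', ps, qs, hc, hc', hok, hok', hne, hne', ?_⟩
  rw [List.map_append]
  exact hp.append hp'

theorem CuttingR.toU {l r : HT} {ts : List ℕ} (h : CuttingR l ts) : CuttingUR l r ts := by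
  simpa using h.pairU (CuttingR.refl r)

theorem CuttingUR.perm {l r : HT} {ts us : List ℕ} (h : CuttingUR l r ts) (hp : ts.Perm us) :
    CuttingUR l r us := by
  obtain ⟨l', r', ps, qs, h1, h2, h3, h4, h5, h6, h7⟩ := h
  exact ⟨l', r', ps, qs, h1, h2, h3, h4, h5, h6, h7.trans hp⟩

/-- result of the nested window strategy for a tree with uncuttable root -/
def GoodUR (B : ℕ → ℕ) (Z c k i M e : ℕ) (l r : HT) : Prop :=
  ∃ ss, CuttingUR l r (nz ss).reverse ∧ ss.length ≤ k ∧ StagesR B Z c i M e ss

theorem GoodUR.symm {B : ℕ → ℕ} {Z c k i M e : ℕ} {l r : HT} (h : GoodUR B Z c k i M e l r) :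
    GoodUR B Z c k i M e r l := by
  obtain ⟨ss, h1, h2, h3⟩ := h
  exact ⟨ss, h1.symm, h2, h3⟩

/-- one child is large: no loss -/
theorem goodUR_big {B : ℕ → ℕ} (hB : ∀ j, B (j + 1) ≤ B j) {Z c k M e : ℕ} {l r : HT}
    (hl : l.holes ≤ c) (hM : M < B 1) (hZM : M < Z) (ht : B 1 < M + l.size)
    (hZ : Z + rem B k 1 ((B 1 - M) / 2) 0 + c ≤ B (1 + k)) :
    GoodUR B Z c (k + 1) 0 M e l r := by
  obtain ⟨ss, hc, h2, h3⟩ := goodR_root hB hl hM hZM ht hZ
  exact ⟨ss, hc.toU, h2, h3⟩

/-- the larger child of a tree -/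
theorem larger (l : HT) : ∃ v c, l.size / 2 ≤ v ∧ v ≤ l.size - 1 ∧ c ≤ l.holes ∧ c ≤ v ∧
    CuttingR l (sg (v - c)) := by
  cases l with
  | nil => exact ⟨0, 0, by simp [HT.size], by simp, by simp, le_rfl, CuttingR.refl _⟩
  | hole => exact ⟨0, 0, by simp [HT.size], by simp, by simp, le_rfl, CuttingR.refl _⟩
  | node x y =>
    rcases le_total y.size x.size with h | h
    · obtain ⟨c, h1, h2, h3⟩ := chain x
      refine ⟨x.size, c, by rw [HT.size]; omega, by rw [HT.size]; omega, by rw [HT.holes]; omega,
        h2, ?_⟩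
      simpa using CuttingA.pair h3 (CuttingR.refl y)
    · obtain ⟨c, h1, h2, h3⟩ := chain y
      refine ⟨y.size, c, by rw [HT.size]; omega, by rw [HT.size]; omega, by rw [HT.holes]; omega,
        h2, ?_⟩
      simpa using CuttingA.pair' (CuttingR.refl x) h3

/-- both children are small: cut below a child of the larger child `l`, continue in `r` -/
theorem goodUR_small {B : ℕ → ℕ} (hB : ∀ j, B (j + 1) ≤ B j) {Z c k M e g' : ℕ} {l r : HT}
    (h0 : l.holes + r.holes ≤ c) (hM : M + l.size ≤ B 1) (hZM : M < Z)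
    (hg : B 1 ≤ M + l.size / 2 + g') (he : B 1 ≤ M + l.size / 2 + r.size + nxt B 0 e)
    (hst : B 1 ≤ M + 2 * (l.size / 2) + nxt B 0 e)
    (hZ : Z + rem B k 1 g' (nxt B 0 e) + c ≤ B (1 + k)) : GoodUR B Z c (k + 1) 0 M e l r := by
  obtain ⟨v, c', h1, h2, h3, h4, h5⟩ := larger l
  obtain ⟨ss, hc, hlen, hst'⟩ := goodR_active hB (Z := Z) (c := c) k 1 (M + (v - c')) g'
    (nxt B 0 e) c' r (by omega) (by omega) (by omega) (by omega) hZ
  have hp : (sg (v - c') ++ (nz ss).reverse).Perm (nz ((v - c') :: ss)).reverse := by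
    rw [nz_cons, List.reverse_append]
    refine List.perm_append_comm.trans ?_
    refine List.Perm.append_left _ ?_
    unfold sg
    split_ifs <;> simp
  refine ⟨(v - c') :: ss, (h5.pairU hc).perm hp, by simpa using hlen, hZM,
    (show M + (v - c') ≤ B 1 by omega), (show B 1 ≤ _ by omega), hst'⟩

/-! ### Only the totals -/

/-- Result in terms of the pieces. -/
theorem GoodR.pieces {B : ℕ → ℕ} (hB : ∀ j, B (j + 1) ≤ B j) {Z c k i M e : ℕ} {y : HT}
    (h : GoodR B Z c k i M e y) : ∃ y' ps, CutsR y y' ps ∧ y'.ok ∧ y' ≠ .hole ∧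
      ps.length ≤ k ∧ Z ≤ M + tot ps ∧ M + tot ps ≤ B (i + ps.length) := by
  obtain ⟨ss, ⟨y', ps, h1, h2, h3, h4⟩, h5, h6⟩ := h
  have e1 := h6.total
  have e2 : tot ps = ss.sum := by
    unfold tot
    rw [h4.sum_eq, List.sum_reverse, nz_sum]
  have e3 : ps.length ≤ ss.length := by
    have := h4.length_eq
    rw [List.length_map, List.length_reverse] at this
    rw [this]
    exact nz_length ss
  refine ⟨y', ps, h1, h2, h3, e3.trans h5, by omega, ?_⟩
  have e4 : B (i + ss.length) ≤ B (i + ps.length) := by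
    have := anti_le hB (i + ps.length) (ss.length - ps.length)
    rwa [show i + ps.length + (ss.length - ps.length) = i + ss.length by omega] at this
  omega

/-- Result in terms of the pieces, uncuttable root. -/
theorem GoodUR.pieces {B : ℕ → ℕ} (hB : ∀ j, B (j + 1) ≤ B j) {Z c k i M e : ℕ} {l r : HT}
    (h : GoodUR B Z c k i M e l r) : ∃ l' r' ps qs, CutsR l l' ps ∧ CutsR r r' qs ∧ l'.ok ∧
      r'.ok ∧ l' ≠ .hole ∧ r' ≠ .hole ∧ ps.length + qs.length ≤ k ∧ Z ≤ M + (tot ps + tot qs) ∧
      M + (tot ps + tot qs) ≤ B (i + (ps.length + qs.length)) := by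
  obtain ⟨ss, ⟨l', r', ps, qs, h1, h2, h3, h4, h5, h6, h7⟩, h8, h9⟩ := h
  have e1 := h9.total
  have e2 : tot ps + tot qs = ss.sum := by
    rw [← tot_append]
    unfold tot
    rw [h7.sum_eq, List.sum_reverse, nz_sum]
  have e3 : ps.length + qs.length ≤ ss.length := by
    have := h7.length_eq
    rw [List.length_map, List.length_reverse, List.length_append] at this
    rw [this]
    exact nz_length ss
  refine ⟨l', r', ps, qs, h1, h2, h3, h4, h5, h6, e3.trans h8, by omega, ?_⟩
  have e4 : B (i + ss.length) ≤ B (i + (ps.length + qs.length)) := by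
    have := anti_le hB (i + (ps.length + qs.length)) (ss.length - (ps.length + qs.length))
    rwa [show i + (ps.length + qs.length) + (ss.length - (ps.length + qs.length)) =
      i + ss.length by omega] at this
  omega

end Pool.Agent.Work.MP_bf01b2_co.MR
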