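import Pool.Agent.Work.MP_bf01b2_co.MR.Soft

/-!
# Marks recursion: soft embeddings; permutations, merging, halves of the cube, base
-/

set_option autoImplicit false

namespace Pool.Agent.Work.MP_bf01b2_co.MR

section emb

variable {V : Type*} [DecidableEq V]

/-- The labelled forest `Ts` embeds with image `S`. -/
def Emb (adj : V → V → Prop) (Ts : List (LRT V)) (S : Finset V) : Prop :=
  ∃ p, LForest adj Ts S p

theorem lforest_append {adj : V → V → Prop} {Ts Us : List (LRT V)} {S : Finset V} {p : List V} :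
    LForest adj (Ts ++ Us) S p ↔ ∃ A B pa pb, LForest adj Ts A pa ∧ LForest adj Us B pb ∧
      Disjoint A B ∧ S = A ∪ B ∧ p = pa ++ pb := by
  constructor
  · rintro ⟨h1, h2⟩
    rw [List.map_append] at h1
    obtain ⟨A, B, pa, pb, hA, hB, hd, rfl, rfl⟩ := forest_append.1 h1
    rw [List.flatMap_append, forall₂_append_iff (by
      rw [flatMap_labs_length, (forest_length hA).1])] at h2
    exact ⟨A, B, pa, pb, ⟨hA, h2.1⟩, ⟨hB, h2.2⟩, hd, rfl, rfl⟩
  · rintro ⟨A, B, pa, pb, ⟨hA, hA'⟩, ⟨hB, hB'⟩, hd, rfl, rfl⟩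
    refine ⟨?_, ?_⟩
    · rw [List.map_append]
      exact forest_append.2 ⟨A, B, pa, pb, hA, hB, hd, rfl, rfl⟩
    · rw [List.flatMap_append]
      exact forall₂_append' hA' hB'

theorem emb_append {adj : V → V → Prop} {Ts Us : List (LRT V)} {S : Finset V} :
    Emb adj (Ts ++ Us) S ↔ ∃ A B, Emb adj Ts A ∧ Emb adj Us B ∧ Disjoint A B ∧ S = A ∪ B := by
  constructor
  · rintro ⟨p, h⟩
    obtain ⟨A, B, pa, pb, hA, hB, hd, rfl, rfl⟩ := lforest_append.1 h
    exact ⟨A, B, ⟨pa, hA⟩, ⟨pb, hB⟩, hd, rfl⟩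
  · rintro ⟨A, B, ⟨pa, hA⟩, ⟨pb, hB⟩, hd, rfl⟩
    exact ⟨_, lforest_append.2 ⟨A, B, pa, pb, hA, hB, hd, rfl, rfl⟩⟩

theorem emb_cons {adj : V → V → Prop} {T : LRT V} {Us : List (LRT V)} {S : Finset V} :
    Emb adj (T :: Us) S ↔ ∃ A B, Emb adj [T] A ∧ Emb adj Us B ∧ Disjoint A B ∧ S = A ∪ B :=
  emb_append (Ts := [T])

theorem emb_nil {adj : V → V → Prop} : Emb adj [] (∅ : Finset V) := ⟨[], ⟨rfl, rfl⟩, .nil⟩

theorem Emb.perm {adj : V → V → Prop} {Ts Us : List (LRT V)} (h : Ts.Perm Us) :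
    ∀ {S : Finset V}, Emb adj Ts S → Emb adj Us S := by
  induction h with
  | nil => exact fun h => h
  | cons a _ ih =>
    intro S h
    obtain ⟨A, B, hA, hB, hd, rfl⟩ := emb_cons.1 h
    exact emb_cons.2 ⟨A, B, hA, ih hB, hd, rfl⟩
  | swap a b L =>
    intro S h
    obtain ⟨A, X, hA, hX, hd, rfl⟩ := emb_cons.1 h
    obtain ⟨B, C, hB, hC, hd', rfl⟩ := emb_cons.1 hX
    rw [Finset.disjoint_union_right] at hd
    refine emb_cons.2 ⟨B, A ∪ C, hB, emb_cons.2 ⟨A, C, hA, hC, hd.2, rfl⟩, ?_, ?_⟩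
    · rw [Finset.disjoint_union_right]; exact ⟨hd.1.symm, hd'⟩
    · rw [← Finset.union_assoc, ← Finset.union_assoc, Finset.union_comm A B]
  | trans _ _ ih1 ih2 => exact fun h => ih2 (ih1 h)

/-- exchange of the two children of the root -/
theorem emb_swap {adj : V → V → Prop} {x : V} {l r : LT V} {Us : List (LRT V)} {S : Finset V}
    (h : Emb adj (⟨x, l, r⟩ :: Us) S) : Emb adj (⟨x, r, l⟩ :: Us) S := by
  obtain ⟨A, B, ⟨p, h1, h2⟩, hB, hd, rfl⟩ := emb_cons.1 h
  refine emb_cons.2 ⟨A, B, ?_, hB, hd, rfl⟩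
  obtain ⟨A1, A2, pa, pb, ⟨C, D, pc, pd, hC, hD, hx, hx', hCD, rfl, rfl⟩, ⟨rfl, rfl⟩, -, rfl, rfl⟩
    := h1
  simp only [List.flatMap_cons, List.flatMap_nil, List.append_nil, LRT.labs] at h2
  rw [forall₂_append_iff (by rw [LT.labs_length, (slot_length hC).1]; rfl)] at h2
  refine ⟨pd ++ pc ++ [], ⟨_, ∅, pd ++ pc, [], ⟨D, C, pd, pc, hD, hC, hx', hx, hCD.symm, rfl, rfl⟩,
    ⟨rfl, rfl⟩, by simp, ?_, rfl⟩, ?_⟩
  · rw [Finset.union_comm D C]
    rfl
  · simp only [List.flatMap_cons, List.flatMap_nil, List.append_nil, LRT.labs]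
    exact forall₂_append' h2.2 h2.1

/-- A tree with a hole below the root, and a tree at a neighbour of this root, are merged. -/
theorem emb_merge {adj : V → V → Prop} {z : V} {F : Finset V} {r : LT V} {H : LRT V}
    {Ts : List (LRT V)} (hadj : adj z H.pos) {S : Finset V}
    (h : Emb adj (H :: ⟨z, .hole F, r⟩ :: Ts) S) : Emb adj (⟨z, H.tree, r⟩ :: Ts) S := by
  obtain ⟨p, h1, h2⟩ := h
  obtain ⟨A, B, pa, pb, hA, ⟨C, D, pc, pd, ⟨C1, C2, p1, p2, hC1, hC2, hz1, hz2, hd3, rfl, rfl⟩, hD,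
    hd2, rfl, rfl⟩, hd, rfl, rfl⟩ := h1
  obtain ⟨rfl, rfl⟩ := hC1
  simp only [List.flatMap_cons, LRT.labs, LT.labs] at h2
  have hl1 : (H.l.labs ++ H.r.labs).length = pa.length := by
    rw [(root_length hA).1, List.length_append, LT.labs_length, LT.labs_length]; rfl
  rw [forall₂_append_iff hl1] at h2
  obtain ⟨h3, h4⟩ := h2
  simp only [List.cons_append, List.nil_append, LRT.shape] at h4
  rw [List.forall₂_cons] at h4
  obtain ⟨-, h4⟩ := h4
  rw [Finset.disjoint_union_right, Finset.disjoint_insert_right] at hd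
  obtain ⟨⟨hzA, hAC⟩, hAD⟩ := hd
  rw [Finset.empty_union] at hAC
  rw [Finset.disjoint_insert_left, Finset.empty_union] at hd2
  refine ⟨(pa ++ p2) ++ pd, ⟨insert z (A ∪ C2), D, pa ++ p2, pd, ⟨A, C2, pa, p2,
    ⟨H.pos, hadj, hA⟩, hC2, hzA, hz2, hAC, rfl, rfl⟩, hD, ?_, ?_, rfl⟩, ?_⟩
  · rw [Finset.disjoint_insert_left, Finset.disjoint_union_left]
    exact ⟨hd2.1, hAD, hd2.2⟩
  · ext y
    simp only [Finset.mem_union, Finset.mem_insert, Finset.notMem_empty, false_or]
    simp only [LRT.shape]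
    tauto
  · simp only [List.flatMap_cons, LRT.labs, LRT.tree, LT.labs]
    have h5 := forall₂_append' h3 h4
    simpa only [List.append_assoc] using h5

/-! ### Maps and restrictions of labels -/

/-- map the positions, labels are transformed by `g` -/
def LT.mapL {W : Type*} (g : Finset V → Finset W) : LT V → LT W
  | .nil => .nil
  | .hole F => .hole (g F)
  | .node l r => .node (l.mapL g) (r.mapL g)

theorem LT.mapL_shape {W : Type*} (g : Finset V → Finset W) : ∀ t : LT V,
    (t.mapL g).shape = t.shape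
  | .nil => rfl
  | .hole _ => rfl
  | .node l r => by simp [LT.mapL, LT.shape, LT.mapL_shape g l, LT.mapL_shape g r]

theorem LT.mapL_labs {W : Type*} (g : Finset V → Finset W) : ∀ t : LT V,
    (t.mapL g).labs = t.labs.map g
  | .nil => rfl
  | .hole _ => rfl
  | .node l r => by simp [LT.mapL, LT.labs, LT.mapL_labs g l, LT.mapL_labs g r]

/-- map a rooted labelled tree -/
def LRT.mapL {W : Type*} (f : V → W) (g : Finset V → Finset W) (T : LRT V) : LRT W :=
  ⟨f T.pos, T.l.mapL g, T.r.mapL g⟩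

theorem flatMap_mapL {W : Type*} (f : V → W) (g : Finset V → Finset W) : ∀ Ts : List (LRT V),
    (Ts.map (LRT.mapL f g)).flatMap LRT.labs = (Ts.flatMap LRT.labs).map g
  | [] => rfl
  | T :: Ts => by
    simp only [List.map_cons, List.flatMap_cons, List.map_append, flatMap_mapL f g Ts, LRT.labs,
      LRT.mapL, LT.mapL_labs]

/-- transport of soft embeddings into a bigger graph: `φ` embeds `V` into `W`, `g` restricts the
labels -/
theorem emb_transport {W : Type*} [DecidableEq W] {adj : V → V → Prop} {adj' : W → W → Prop}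
    (φ : V ↪ W) (hφ : ∀ a b, adj a b → adj' (φ a) (φ b)) (g : Finset W → Finset V)
    (hg : ∀ F x, φ x ∈ F → x ∈ g F) (f : W → V) {Ts : List (LRT W)}
    (hT : ∀ T ∈ Ts, φ (f T.pos) = T.pos) {S : Finset V}
    (h : Emb adj (Ts.map (LRT.mapL f g)) S) : Emb adj' Ts (S.map φ) := by
  obtain ⟨p, h1, h2⟩ := h
  refine ⟨p.map φ, ?_, ?_⟩
  · have h3 := forest_map φ hφ h1
    have h4 : ((Ts.map (LRT.mapL f g)).map LRT.shape).map (RT.map φ) = Ts.map LRT.shape := by
      rw [List.map_map, List.map_map]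
      refine List.map_congr_left fun T hT' => ?_
      simp only [Function.comp, LRT.mapL, LRT.shape, RT.map, hT T hT', LT.mapL_shape]
    rwa [h4] at h3
  · rw [flatMap_mapL, List.forall₂_map_left_iff] at h2
    rw [List.forall₂_map_right_iff]
    exact h2.imp fun F x hx hx' => hx (hg F x hx')

end emb

/-! ### Halves of the cube -/

/-- restriction of a label to a half -/
def resL {m : ℕ} (j : Fin (m + 1)) (b : Bool) (F : Finset (Fin (m + 1) → Bool)) :
    Finset (Fin m → Bool) := (F.filter (fun x => x j = b)).image (del j)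

theorem mem_resL {m : ℕ} {j : Fin (m + 1)} {b : Bool} {F : Finset (Fin (m + 1) → Bool)}
    {x : Fin m → Bool} : x ∈ resL j b F ↔ ins j b x ∈ F := by
  unfold resL
  rw [Finset.mem_image]
  constructor
  · rintro ⟨y, hy, rfl⟩
    rw [Finset.mem_filter] at hy
    rw [ins_del hy.2]
    exact hy.1
  · intro h
    exact ⟨_, Finset.mem_filter.2 ⟨h, ins_self⟩, del_ins⟩

/-- restriction of a forest to a half -/
def resT {m : ℕ} (j : Fin (m + 1)) (b : Bool) : LRT (Fin (m + 1) → Bool) → LRT (Fin m → Bool) :=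
  LRT.mapL (del j) (resL j b)

/-- Embedding in a half of the cube. -/
theorem emb_side {m : ℕ} (j : Fin (m + 1)) (b : Bool) {Ts : List (LRT (Fin (m + 1) → Bool))}
    (hT : ∀ T ∈ Ts, T.pos j = b) {S : Finset (Fin m → Bool)}
    (h : Emb (cadj m) (Ts.map (resT j b)) S) :
    ∃ S' ⊆ side j b, Emb (cadj (m + 1)) Ts S' := by
  refine ⟨_, ?_, emb_transport (ins j b) (fun x y => cadj_ins) (resL j b)
    (fun F x hx => mem_resL.2 hx) (del j) (fun T hT' => ins_del (hT T hT')) h⟩
  intro x hx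
  obtain ⟨y, -, rfl⟩ := Finset.mem_map.1 hx
  exact ins_mem_side

/-! ### Base: soft positions are hard dummies -/

section base
variable {V : Type*} [DecidableEq V]

/-- the labels of the holes directly below the vertex -/
def LT.top : LT V → Finset V
  | .hole F => F
  | _ => ∅

/-- labels of the holes directly below the root of a tree -/
def LT.rootLab : LT V → Finset V
  | .node l r => l.top ∪ r.top
  | _ => ∅

/-- the positions of the roots -/
def poss (Ts : List (LRT V)) : Finset V := (Ts.map LRT.pos).toFinset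

/-- all soft positions -/
def softs (Ts : List (LRT V)) : Finset V := (Ts.flatMap LRT.labs).foldr (· ∪ ·) ∅

theorem mem_foldr_union {L : List (Finset V)} {x : V} :
    x ∈ L.foldr (· ∪ ·) ∅ ↔ ∃ F ∈ L, x ∈ F := by
  induction L with
  | nil => simp
  | cons F L ih => simp [ih]

theorem mem_softs {Ts : List (LRT V)} {x : V} :
    x ∈ softs Ts ↔ ∃ T ∈ Ts, ∃ F ∈ T.labs, x ∈ F := by
  unfold softs
  rw [mem_foldr_union]
  simp only [List.mem_flatMap]
  constructor
  · rintro ⟨F, ⟨T, hT, hF⟩, hx⟩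
    exact ⟨T, hT, F, hF, hx⟩
  · rintro ⟨T, hT, F, hF, hx⟩
    exact ⟨F, ⟨T, hT, hF⟩, hx⟩

/-- Invariant: a hole directly below a root has a label that does not contain the root. -/
def RootOK (T : LRT V) : Prop := T.pos ∉ T.l.top ∧ T.pos ∉ T.r.top

/-- in an embedded subtree, the hole parents avoid the labels if they are inside `S` or at `v`, `S`
avoids `O`, and the label of a hole directly below `v` does not contain `v` -/
theorem slot_avoid {adj : V → V → Prop} {O : Finset V} : ∀ {t : LT V} {v : V} {S : Finset V}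
    {p : List V}, Slot adj t.shape v S p → Disjoint S O → v ∉ t.top →
      (∀ F ∈ t.labs, F ⊆ O) → List.Forall₂ (fun F x => x ∉ F) t.labs p
  | .nil, v, S, p, h, _, _, _ => by
    obtain ⟨rfl, rfl⟩ := h
    exact List.Forall₂.nil
  | .hole F, v, S, p, h, _, hv, _ => by
    obtain ⟨rfl, rfl⟩ := h
    exact List.Forall₂.cons hv List.Forall₂.nil
  | .node l r, v, S, p, h, hS, _, hO => by
    obtain ⟨x, hvx, A, B, pa, pb, hA, hB, hx, hx', hd, rfl, rfl⟩ := h
    rw [Finset.disjoint_insert_left, Finset.disjoint_union_left] at hS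
    obtain ⟨hxO, hAO, hBO⟩ := hS
    have htop : ∀ u : LT V, (∀ F ∈ u.labs, F ⊆ O) → x ∉ u.top := by
      intro u hu hxu
      cases u with
      | nil => simp [LT.top] at hxu
      | hole F => exact hxO (hu F (by simp [LT.labs]) hxu)
      | node _ _ => simp [LT.top] at hxu
    have hOl : ∀ F ∈ l.labs, F ⊆ O := fun F hF => hO F (by simp [LT.labs, hF])
    have hOr : ∀ F ∈ r.labs, F ⊆ O := fun F hF => hO F (by simp [LT.labs, hF])
    exact forall₂_append' (slot_avoid hA hAO (htop l hOl) hOl) (slot_avoid hB hBO (htop r hOr) hOr)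

theorem mem_poss {Ts : List (LRT V)} {x : V} : x ∈ poss Ts ↔ ∃ T ∈ Ts, T.pos = x := by
  simp [poss]

theorem forest_avoid {adj : V → V → Prop} {O : Finset V} : ∀ {Ts : List (LRT V)} {S : Finset V}
    {p : List V}, Forest adj (Ts.map LRT.shape) S p → (∀ y ∈ S, y ∈ O → y ∈ poss Ts) →
      (∀ T ∈ Ts, RootOK T) → (∀ T ∈ Ts, ∀ F ∈ T.labs, F ⊆ O) →
      List.Forall₂ (fun F x => x ∉ F) (Ts.flatMap LRT.labs) p
  | [], S, p, h, _, _, _ => by
    obtain ⟨rfl, rfl⟩ := h
    exact List.Forall₂.nil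
  | T :: Ts, S, p, h, hS, hr, hO => by
    obtain ⟨A, B, pa, pb, hA, hB, hd, rfl, rfl⟩ := h
    have hTA : T.pos ∈ A := (root_mem hA).2
    have hTsB : ∀ U ∈ Ts, U.pos ∈ B := by
      intro U hU
      exact (forest_mem hB).2 U.shape (List.mem_map_of_mem hU)
    have h1 : ∀ y ∈ A, y ∈ O → y = T.pos := by
      intro y hy hyO
      obtain ⟨U, hU, hUy⟩ := mem_poss.1 (hS y (Finset.mem_union_left _ hy) hyO)
      rcases List.mem_cons.1 hU with rfl | hU
      · exact hUy.symm
      · exact absurd (hUy ▸ hTsB U hU) (Finset.disjoint_left.1 hd hy)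
    have h2 : ∀ y ∈ B, y ∈ O → y ∈ poss Ts := by
      intro y hy hyO
      obtain ⟨U, hU, hUy⟩ := mem_poss.1 (hS y (Finset.mem_union_right _ hy) hyO)
      rcases List.mem_cons.1 hU with rfl | hU
      · exact absurd (hUy ▸ hy) (Finset.disjoint_left.1 hd hTA)
      · exact mem_poss.2 ⟨U, hU, hUy⟩
    have h3 := forest_avoid hB h2 (fun U hU => hr U (List.mem_cons_of_mem _ hU))
      (fun U hU => hO U (List.mem_cons_of_mem _ hU))
    refine forall₂_append' ?_ h3
    obtain ⟨C, D, pc, pd, hC, hD, hx, hx', hCD, rfl, rfl⟩ := hA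
    have hT := hO T List.mem_cons_self
    have hrT := hr T List.mem_cons_self
    refine forall₂_append' (slot_avoid (O := O) hC ?_ hrT.1 (fun F hF => hT F (by
      simp [LRT.labs, hF]))) (slot_avoid (O := O) hD ?_ hrT.2 (fun F hF => hT F (by
      simp [LRT.labs, hF])))
    · rw [Finset.disjoint_left]
      intro y hy hyO
      have h5 : y = T.shape.pos := h1 y (by simp [hy]) hyO
      exact hx (h5 ▸ hy)
    · rw [Finset.disjoint_left]
      intro y hy hyO
      have h5 : y = T.shape.pos := h1 y (by simp [hy]) hyO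
      exact hx' (h5 ▸ hy)

theorem forest_dummies {adj : V → V → Prop} : ∀ {O : List V} {S : Finset V} {p : List V},
    Forest adj (O.map fun o => (⟨o, .nil, .nil⟩ : RT V)) S p → ∀ o ∈ O, o ∈ S := by
  intro O S p h o ho
  exact (forest_mem h).2 ⟨o, .nil, .nil⟩ (List.mem_map.2 ⟨o, ho, rfl⟩)

/-- **Base.** Soft positions are turned into hard dummies (trees with one vertex). -/
theorem emb_of_HF {adj : V → V → Prop} {X : Finset V} {Ts : List (LRT V)} {O : List V}
    (hr : ∀ T ∈ Ts, RootOK T) (hO : ∀ y ∈ softs Ts, y ∉ poss Ts → y ∈ O)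
    (h : HF adj X ((Ts.map fun T => (T.pos, T.size)) ++ O.map fun o => (o, 1))) :
    ∃ S ⊆ X, Emb adj Ts S := by
  obtain ⟨S, p, h1, h2⟩ := h (Ts.map LRT.shape ++ O.map fun o => (⟨o, .nil, .nil⟩ : RT V)) (by
    apply forall₂_append'
    · rw [List.forall₂_map_left_iff, List.forall₂_map_right_iff, List.forall₂_same]
      exact fun T _ => ⟨rfl, le_rfl⟩
    · rw [List.forall₂_map_left_iff, List.forall₂_map_right_iff, List.forall₂_same]
      exact fun o _ => ⟨rfl, by simp [RT.size, HT.size]⟩)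
  obtain ⟨A, B, pa, pb, hA, hB, hd, rfl, rfl⟩ := forest_append.1 h1
  refine ⟨A, (Finset.subset_union_left).trans h2, pa, hA,
    forest_avoid (O := softs Ts) hA ?_ hr ?_⟩
  · intro y hy hyO
    by_contra hcon
    exact (Finset.disjoint_left.1 hd hy) (forest_dummies hB y (hO y hyO hcon))
  · intro T hT F hF x hx
    exact mem_softs.2 ⟨T, hT, F, hF, hx⟩

end base

end Pool.Agent.Work.MP_bf01b2_co.MR
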