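import Pool.Agent.Work.MP_bf01b2_co.MR.Cut
import Pool.Agent.Work.MP_bf01b2_co.MR.Soft2

/-!
# Marks recursion: cutting trees with uncuttable vertices, and the lifting to labelled trees
-/

set_option autoImplicit false

namespace Pool.Agent.Work.MP_bf01b2_co.MR

/-- Cutting a tree with (relevant) old holes: the root of a piece has no hole child. In the cut tree
the old holes have disappeared, the holes are the new ones. -/
inductive CutsR : HT → HT → List HT → Prop
  | nil : CutsR .nil .nil []
  | old : CutsR .hole .nil []
  | cut (l r : HT) (hl : l ≠ .hole) (hr : r ≠ .hole) : CutsR (.node l r) .hole [.node l r]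
  | node {l r l' r' : HT} {ps qs : List HT} :
      CutsR l l' ps → CutsR r r' qs → CutsR (.node l r) (.node l' r') (ps ++ qs)

/-- for trees without holes this is `Cuts` -/
theorem Cuts.toR {t t' : HT} {ps : List HT} (h : Cuts t t' ps) : t.holes = 0 → CutsR t t' ps := by
  induction h with
  | nil => intro _; exact .nil
  | cut l r =>
    intro h
    rw [HT.holes] at h
    exact .cut l r (ne_hole_of_holes (by omega)) (ne_hole_of_holes (by omega))
  | node h1 h2 ih1 ih2 =>
    intro h
    rw [HT.holes] at h
    exact .node (ih1 (by omega)) (ih2 (by omega))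

variable {V : Type*}

/-- Forget the labels; a hole is kept only if its label is relevant. -/
def LT.core (rel : Finset V → Bool) : LT V → HT
  | .nil => .nil
  | .hole F => if rel F then .hole else .nil
  | .node l r => .node (l.core rel) (r.core rel)

theorem LT.core_size (rel : Finset V → Bool) : ∀ t : LT V, (t.core rel).size = t.size
  | .nil => rfl
  | .hole F => by
    unfold LT.core
    split_ifs <;> rfl
  | .node l r => by
    simp only [LT.core, HT.size, LT.size_node, LT.core_size rel l, LT.core_size rel r]

theorem LT.core_false_holes : ∀ t : LT V, (t.core fun _ => false).holes = 0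
  | .nil => rfl
  | .hole F => rfl
  | .node l r => by
    simp only [LT.core, HT.holes, LT.core_false_holes l, LT.core_false_holes r]

/-- a hole child with relevant label -/
theorem LT.core_ne_hole {rel : Finset V → Bool} {t : LT V} (h : t.core rel ≠ .hole) :
    ∀ F, t = .hole F → rel F = false := by
  rintro F rfl
  by_contra hcon
  apply h
  unfold LT.core
  rw [if_pos (by simpa using hcon)]

/-- the pieces -/
def pieces : List (LT V) → List (LT V)
  | [] => []
  | .node l r :: L => .node l r :: pieces L
  | _ :: L => pieces L

theorem pieces_append : ∀ L M : List (LT V), pieces (L ++ M) = pieces L ++ pieces M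
  | [], M => rfl
  | .nil :: L, M => by simpa [pieces] using pieces_append L M
  | .hole F :: L, M => by simpa [pieces] using pieces_append L M
  | .node l r :: L, M => by simpa [pieces] using pieces_append L M

theorem pick_tree (σ : V → V) : ∀ {L : List (LT V)} {p : List V}, L.length = p.length →
    (pick σ L p).map LRT.tree = pieces L
  | [], p, _ => by simp [pick, pieces]
  | a :: L, [], h => by simp at h
  | .nil :: L, v :: p, h => by simpa [pick, pieces] using pick_tree σ (L := L) (p := p) (by simpa using h)
  | .hole F :: L, v :: p, h => by
    simpa [pick, pieces] using pick_tree σ (L := L) (p := p) (by simpa using h)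
  | .node l r :: L, v :: p, h => by
    simp only [pick, pieces, List.map_cons, LRT.tree]
    rw [pick_tree σ (L := L) (p := p) (by simpa using h)]

/-- the piece `u` has no relevant label directly below its root -/
def Free (rel : Finset V → Bool) (u : LT V) : Prop :=
  ∀ l r, u = .node l r → (∀ F, l = .hole F → rel F = false) ∧ (∀ F, r = .hole F → rel F = false)

/-- **Lifting.** A cutting of the core gives a cutting of the labelled tree. -/
theorem lift_cut (nl : LT V → Finset V) (rel : Finset V → Bool) : ∀ (t : LT V) {h' : HT}
    {ps : List HT}, CutsR (t.core rel) h' ps → h'.ok →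
    ∃ t' L, LCut nl t t' L ∧ (pieces L).map (LT.core rel) = ps ∧
      (∀ u ∈ pieces L, Free rel u) ∧
      ((∃ x y, L = [.node x y] ∧ ∃ F, t' = .hole F) → h' = .hole) ∧
      (h' ≠ .hole → ∀ u ∈ L, (∃ x y, u = .node x y) → t ≠ u) ∧ t'.size = h'.size
  | .nil, h', ps, h, _ => by
    cases h
    exact ⟨.nil, [], .nil, rfl, by simp [pieces], by simp, by simp, rfl⟩
  | .hole F, h', ps, h, _ => by
    unfold LT.core at h
    split_ifs at h with hF
    · cases h
      exact ⟨.hole F, [.hole F], .hole F, rfl, by simp [pieces], by simp, by simp, rfl⟩
    · cases h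
      exact ⟨.hole F, [.hole F], .hole F, rfl, by simp [pieces], by simp, by simp, rfl⟩
  | .node l r, h', ps, h, hok => by
    cases h with
    | cut _ _ hl hr =>
      refine ⟨.hole (nl (.node l r)), [.node l r], .cut l r, rfl, ?_, by simp, by simp, rfl⟩
      intro u hu
      simp only [pieces, List.mem_singleton] at hu
      subst hu
      intro x y hxy
      cases hxy
      exact ⟨LT.core_ne_hole hl, LT.core_ne_hole hr⟩
    | @node _ _ l' r' ps qs h1 h2 =>
      obtain ⟨hne, hok1, hok2⟩ := hok
      obtain ⟨t1, L1, c1, e1, f1, g1, i1, s1⟩ := lift_cut nl rel l h1 hok1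
      obtain ⟨t2, L2, c2, e2, f2, g2, i2, s2⟩ := lift_cut nl rel r h2 hok2
      refine ⟨.node t1 t2, L1 ++ L2, .node c1 c2 ?_, ?_, ?_, ?_, ?_, ?_⟩
      · rintro ⟨⟨x, y, hL1, F, hF⟩, ⟨x', y', hL2, F', hF'⟩⟩
        exact hne ⟨g1 ⟨x, y, hL1, F, hF⟩, g2 ⟨x', y', hL2, F', hF'⟩⟩
      · rw [pieces_append, List.map_append, e1, e2]
      · intro u hu
        rw [pieces_append, List.mem_append] at hu
        rcases hu with hu | hu
        · exact f1 u hu
        · exact f2 u hu
      · rintro ⟨x, y, -, F, hF⟩
        simp at hF
      · intro _ u hu _ heq
        -- a piece is a proper subtree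
        have hsz : u.size = (LT.node l r).size := by rw [heq]
        have hgr := (LGraft.node c1.graft c2.graft).shape.size
        have hmem : u.shape.size ≤ ((L1 ++ L2).map LT.shape |>.map HT.size).sum := by
          have : u.shape.size ∈ ((L1 ++ L2).map LT.shape).map HT.size :=
            List.mem_map_of_mem (List.mem_map_of_mem hu)
          exact List.single_le_sum (by simp) _ this
        have hnode : (LT.node t1 t2).shape.size = t1.size + t2.size + 1 := rfl
        have e3 : (LT.node l r).shape.size = (LT.node l r).size := rfl
        have e4 : u.shape.size = u.size := rfl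
        omega
      · rw [LT.size_node, HT.size, s1, s2]

end Pool.Agent.Work.MP_bf01b2_co.MR
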