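import Pool.Agent.Work.MP_bf01b2_co.MR.Gm2
import Pool.Agent.Work.MP_bf01b2_co.MR.PathG

/-!
# One direction, one first side
-/

set_option autoImplicit false

namespace Pool.Agent.Work.MP_bf01b2_co.MR

/-- the entry of a root: hole free cores, restricted if the opposite position is in `Z` -/
def cdatP {m : ℕ} (j : Fin (m + 1)) (Z : Finset (Fin (m + 1) → Bool))
    (U : LRT (Fin (m + 1) → Bool)) : Bool × HT × HT :=
  (decide (flip j U.pos ∈ Z), U.l.core (fun _ => false), U.r.core (fun _ => false))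

/-- The level lemma in the form used here (`O` = soft positions outside of the roots). -/
def LvlP (m : ℕ) : Prop :=
  ∀ (j : Fin (m + 1)) (b : Bool) (TX TY : List (LRT (Fin (m + 1) → Bool)))
    (O : Finset (Fin (m + 1) → Bool)) (s : ℕ) (sz : List ℕ) (us : List HT),
    ((TX ++ TY).map LRT.pos).Nodup → (∀ T ∈ TX ++ TY, RootOK T) →
    (∀ T ∈ TX ++ TY, T.tree.pth) → nspec (TX ++ TY) ≤ s →
    (∀ T ∈ TX, T.pos j = b) → (∀ T ∈ TY, T.pos j = !b) →
    softs (TX ++ TY) \ poss (TX ++ TY) ⊆ O → Disjoint O (poss (TX ++ TY)) →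
    (∀ T ∈ TX ++ TY, ∀ F ∈ T.labs, Disjoint F (poss (TX ++ TY))) →
    FCutP (TX.map (cdatP j (poss TY ∪ O))) sz us →
    (us = [] → GdP m (O.filter (fun x => x j = b)).card s sz) →
    (us ≠ [] →
      GdP m ((O.filter (fun x => x j = !b)).card + TY.length) us.length
        (sz ++ List.replicate (O.filter (fun x => x j = b)).card 1) ∨
      (TY = [] ∧ (O.filter (fun x => x j = !b)).card = 0 ∧
        GdP m (O.filter (fun x => x j = b)).card s sz)) →
    GdP m (O.filter (fun x => x j = !b)).card s (us.map HT.size ++ TY.map LRT.size) →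
    ∃ S, Emb (cadj (m + 1)) (TX ++ TY) S

theorem FCutP.pos {es : List (Bool × HT × HT)} {sz : List ℕ} {us : List HT}
    (h : FCutP es sz us) : ∀ x ∈ sz, 1 ≤ x := by
  induction h with
  | nil => simp
  | cons hl hr hok hρ hp h ih =>
    intro x hx
    rcases List.mem_cons.1 hx with rfl | hx
    · omega
    · exact ih x hx

section
variable {V : Type*}

/-- the active subtree of a root: the whole tree, or the larger child if the root is restricted -/
def actT (ρ : Bool) (U : LRT V) : HT :=
  if ρ then (if (U.r.core (fun _ => false)).size ≤ (U.l.core (fun _ => false)).size then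
      U.l.core (fun _ => false) else U.r.core (fun _ => false))
    else .node (U.l.core (fun _ => false)) (U.r.core (fun _ => false))

theorem actT_holes (ρ : Bool) (U : LRT V) : (actT ρ U).holes = 0 := by
  unfold actT
  split_ifs
  · exact LT.core_false_holes _
  · exact LT.core_false_holes _
  · rw [HT.holes, LT.core_false_holes, LT.core_false_holes]

/-- nominal size of the active subtree -/
def actN (ρ : Bool) (v : ℕ) : ℕ := if ρ then v / 2 else v

theorem actT_size (ρ : Bool) (U : LRT V) {v : ℕ} (h : U.size ≤ v) :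
    actN ρ v - (actT ρ U).size ≤ v - U.size := by
  unfold actT actN
  have e : U.size = U.l.size + U.r.size + 1 := rfl
  cases ρ
  · simp only [Bool.false_eq_true, if_false, HT.size, LT.core_size]
    omega
  · simp only [if_true]
    split_ifs with h1
    · simp only [LT.core_size] at h1 ⊢
      omega
    · simp only [LT.core_size] at h1 ⊢
      omega

theorem CutP.root {l r y' : HT} {ps : List HT} (h : CutP (.node l r) y' ps) :
    ∃ l' r' p q, CutsR l l' p ∧ CutsR r r' q ∧ (HT.node l' r').ok ∧ (HT.node l' r').hp ∧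
      p ++ q = ps := by
  obtain ⟨h1, h2, h3, h4⟩ := h
  cases h1 with
  | cut _ _ _ _ => exact absurd rfl h3
  | @node _ _ l' r' p q g1 g2 => exact ⟨l', r', p, q, g1, g2, h2, h4, rfl⟩

theorem actT_cut {ρ : Bool} {U : LRT V} {y' : HT} {ps : List HT} (h : CutP (actT ρ U) y' ps) :
    ∃ l' r' p q, CutsR (U.l.core (fun _ => false)) l' p ∧ CutsR (U.r.core (fun _ => false)) r' q ∧
      (HT.node l' r').ok ∧ (HT.node l' r').hp ∧ (ρ = true → l' ≠ .hole ∧ r' ≠ .hole) ∧
      p ++ q = ps := by
  unfold actT at h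
  cases ρ
  · simp only [Bool.false_eq_true, if_false] at h
    obtain ⟨l', r', p, q, h1, h2, h3, h4, h5⟩ := h.root
    exact ⟨l', r', p, q, h1, h2, h3, h4, by simp, h5⟩
  · simp only [if_true] at h
    split_ifs at h
    · obtain ⟨h1, h2, h3, h4⟩ := h
      refine ⟨y', (U.r.core (fun _ => false)).clr, ps, [], h1, CutsR.refl _,
        ⟨fun h => h3 h.1, h2, ok_of_holes (HT.clr_holes _)⟩, Or.inr ⟨Or.inr (HT.clr_holes _), h4⟩,
        fun _ => ⟨h3, HT.clr_ne _⟩, by simp⟩
    · obtain ⟨h1, h2, h3, h4⟩ := h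
      refine ⟨(U.l.core (fun _ => false)).clr, y', [], ps, CutsR.refl _, h1,
        ⟨fun h => h3 h.2, ok_of_holes (HT.clr_holes _), h2⟩, Or.inl ⟨Or.inr (HT.clr_holes _), h4⟩,
        fun _ => ⟨HT.clr_ne _, h3⟩, by simp⟩

end

/-- from the cuttings of the active subtrees to the cutting of the forest -/
theorem fcut_of_mc {m : ℕ} {j : Fin (m + 1)} {Z : Finset (Fin (m + 1) → Bool)} :
    ∀ {PX : List (LRT (Fin (m + 1) → Bool) × Bool)}
      (_ : ∀ p ∈ PX, flip j p.1.pos ∈ Z → p.2 = true) {n t : ℕ},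
      MC (PX.map fun p => actT p.2 p.1) n t →
      ∃ sz us, FCutP ((PX.map Prod.fst).map (cdatP j Z)) sz us ∧ us.length = n ∧ tot us = t ∧
        sz.length = PX.length ∧ sz.sum + t = ((PX.map Prod.fst).map LRT.size).sum
  | [], _, n, t, h => by
    obtain ⟨zs, h1, h2, h3⟩ := h
    cases h1
    refine ⟨[], [], .nil, by simpa using h2, by simpa using h3, rfl, ?_⟩
    simpa using h3.symm
  | x :: PX, hfl, n, t, h => by
    obtain ⟨zs, h1, h2, h3⟩ := h
    rw [List.map_cons] at h1
    cases h1 with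
    | @cons _ z _ zs h1 h4 =>
      obtain ⟨sz, us, g1, g2, g3, g4, g5⟩ := fcut_of_mc (PX := PX)
        (fun p hp => hfl p (List.mem_cons_of_mem _ hp)) ⟨zs, h4, rfl, rfl⟩
      obtain ⟨l', r', p, q, e1, e2, e3, e4, e5, e6⟩ := actT_cut h1
      have e7 := e1.size
      have e8 := e2.size
      rw [LT.core_size] at e7 e8
      simp only [List.map_cons, List.sum_cons] at h2 h3
      have e9 : tot z.2 = tot p + tot q := by rw [← e6, tot_append]
      have e10 : z.2.length = p.length + q.length := by rw [← e6, List.length_append]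
      refine ⟨(l'.size + r'.size + 1) :: sz, p ++ q ++ us, ?_, ?_, ?_, ?_, ?_⟩
      · rw [List.map_cons, List.map_cons]
        refine FCutP.cons e1 e2 e3 (fun h => ?_) e4 g1
        exact e5 (hfl x List.mem_cons_self (of_decide_eq_true h))
      · simp only [List.length_append]
        omega
      · rw [tot_append, tot_append]
        omega
      · simpa using g4
      · simp only [List.map_cons, List.sum_cons]
        have e11 : x.1.size = x.1.l.size + x.1.r.size + 1 := rfl
        omega

theorem dfc_act {m : ℕ} : ∀ {PX : List (LRT (Fin (m + 1) → Bool) × Bool)} {XV : List ℕ},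
    List.Forall₂ (fun p v => LRT.size p.1 ≤ v) PX XV →
    dfc (List.zipWith (fun (p : LRT (Fin (m + 1) → Bool) × Bool) v => actN p.2 v) PX XV)
      (PX.map fun p => actT p.2 p.1) + ((PX.map Prod.fst).map LRT.size).sum ≤ XV.sum
  | _, _, .nil => by simp [dfc]
  | _, _, .cons (a := p) (b := v) (l₁ := PX) (l₂ := XV) h hs => by
    have ih := dfc_act hs
    have h1 := actT_size p.2 p.1 h
    simp only [List.zipWith_cons_cons, List.map_cons, dfc, List.sum_cons]
    omega

/-- a row of the table: bounds `(x_n, y_n)` of the totals of both sides with `n` pieces -/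
def RowOK (m s kX dX kY dY : ℕ) (row : List (ℕ × ℕ)) : Prop :=
  row ≠ [] ∧ (∀ i, (row.getD (i + 1) (0, 0)).1 ≤ (row.getD i (0, 0)).1) ∧
  (∀ i, (row.getD (i + 1) (0, 0)).2 ≤ (row.getD i (0, 0)).2) ∧
  ∀ n < row.length,
    (∀ w : List ℕ, w.length = kX → w.sum ≤ (row.getD n (0, 0)).1 → 
      (n = 0 → GdP m dX s w) ∧
      (n ≠ 0 → GdP m (dY + kY) n (w ++ List.replicate dX 1) ∨
        (kY = 0 ∧ dY = 0 ∧ GdP m dX s w))) ∧
    (∀ w : List ℕ, w.length = n + kY → w.sum ≤ (row.getD n (0, 0)).2 → GdP m dY s w)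

/-- the list `w` for the game -/
def mkW (N : ℕ) : ℕ → List (ℕ × ℕ) → List (ℕ × ℕ × ℕ)
  | _, [] => []
  | y, r :: T => (N - r.1, r.2, y - r.2) :: mkW N r.2 T

theorem mkW_Mt (N : ℕ) (row : List (ℕ × ℕ)) : ∀ (T : List (ℕ × ℕ)) (p : ℕ), row.drop (p + 1) = T →
    Mt (fun i => N - (row.getD i (0, 0)).1) (fun i => (row.getD i (0, 0)).2) p
      (mkW N (row.getD p (0, 0)).2 T)
  | [], _, _ => trivial
  | r :: T, p, h => by
    have h1 : row.getD (p + 1) (0, 0) = r := by
      have h2 : row[p + 1]? = some r := by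
        have := congrArg (fun l => l[0]?) h
        simpa using this
      rw [List.getD_eq_getElem?_getD, h2]
      rfl
    refine ⟨by simp only [h1], by simp only [h1], by simp only [h1], ?_⟩
    have h3 := mkW_Mt N row T (p + 1) (by
      have := congrArg (List.drop 1) h
      simpa [List.drop_drop, Nat.add_comm] using this)
    rw [h1] at h3
    exact h3

/-- **One direction.** -/
theorem dir_emb {m s : ℕ} (hL : LvlP m) (j : Fin (m + 1)) (b : Bool)
    {PX : List (LRT (Fin (m + 1) → Bool) × Bool)} {TY : List (LRT (Fin (m + 1) → Bool))}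
    {O : Finset (Fin (m + 1) → Bool)}
    (hnd : ((PX.map Prod.fst ++ TY).map LRT.pos).Nodup)
    (hok : ∀ T ∈ PX.map Prod.fst ++ TY, RootOK T)
    (hpth : ∀ T ∈ PX.map Prod.fst ++ TY, T.tree.pth) (hs : nspec (PX.map Prod.fst ++ TY) ≤ s)
    (hTX : ∀ T ∈ PX.map Prod.fst, T.pos j = b) (hTY : ∀ T ∈ TY, T.pos j = !b)
    (hO : softs (PX.map Prod.fst ++ TY) \ poss (PX.map Prod.fst ++ TY) ⊆ O)
    (hOd : Disjoint O (poss (PX.map Prod.fst ++ TY)))
    (hclean : ∀ T ∈ PX.map Prod.fst ++ TY, ∀ F ∈ T.labs,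
      Disjoint F (poss (PX.map Prod.fst ++ TY)))
    (hfl : ∀ p ∈ PX, flip j p.1.pos ∈ poss TY ∪ O → p.2 = true)
    {XV YV : List ℕ} (hXV : List.Forall₂ (fun p v => LRT.size p.1 ≤ v) PX XV)
    (hYV : List.Forall₂ (fun T v => LRT.size T ≤ v) TY YV) {row : List (ℕ × ℕ)}
    (hrow : RowOK m s XV.length (O.filter (fun x => x j = b)).card YV.length
      (O.filter (fun x => x j = !b)).card row)
    {A : List ℕ}
    (hA : A.Perm (List.zipWith (fun (p : LRT (Fin (m + 1) → Bool) × Bool) v => actN p.2 v) PX XV))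
    (hy : YV.sum ≤ (row.getD 0 (0, 0)).2)
    (hg : gm (mkW (XV.sum + YV.sum) (row.getD 0 (0, 0)).2 (row.drop 1))
      (XV.sum + YV.sum - (row.getD 0 (0, 0)).1) YV.sum A = true) :
    ∃ S, Emb (cadj (m + 1)) (PX.map Prod.fst ++ TY) S := by
  obtain ⟨hne, hm1, hm2, hfact⟩ := hrow
  have hsem := gm_sound (Z := fun i => XV.sum + YV.sum - (row.getD i (0, 0)).1)
    (B := fun i => (row.getD i (0, 0)).2) (fun i => Nat.sub_le_sub_left (hm1 i) _) hm2
    (mkW_Mt _ row _ 0 rfl) rfl hg
  have hsem' := hsem.perm hA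
  have hYs : (TY.map LRT.size).sum ≤ YV.sum := by
    clear hy hg hsem hsem' hfact hnd hok hpth hs hTY hO hOd hfl hclean
    induction hYV with
    | nil => simp
    | cons h _ ih => simp only [List.map_cons, List.sum_cons]; omega
  have hdf := dfc_act hXV
  obtain ⟨n, t, g1, g2, g3⟩ := hsem' (PX.map fun p => actT p.2 p.1) (TY.map LRT.size).sum
    (XV.sum + YV.sum - (((PX.map Prod.fst).map LRT.size).sum + (TY.map LRT.size).sum))
    (by rw [List.length_zipWith, List.length_map, hXV.length_eq, Nat.min_self]) (by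
      intro y hy
      obtain ⟨p, _, rfl⟩ := List.mem_map.1 hy
      exact actT_holes _ _) hYs (by omega)
  obtain ⟨sz, us, c1, c2, c3, c4, c5⟩ := fcut_of_mc (j := j) (Z := poss TY ∪ O) hfl g1
  rw [Nat.zero_add] at g2 g3
  simp only at g2
  have hszs : sz.sum ≤ (row.getD n (0, 0)).1 := by omega
  have hlen : n < row.length := by
    by_contra hcon
    have h1 : row.getD n (0, 0) = (0, 0) := by
      rw [List.getD_eq_default _ _ (by omega)]
    rw [h1] at hszs
    have h2 : sz = [] := by
      cases sz with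
      | nil => rfl
      | cons x sz =>
        have := c1.pos x List.mem_cons_self
        rw [List.sum_cons] at hszs
        omega
    rw [h2] at c4
    have h3 : PX = [] := List.length_eq_zero_iff.1 (by simpa using c4.symm)
    rw [h3] at g1
    obtain ⟨zs, k1, k2, k3⟩ := g1
    cases k1
    have h4 : n = 0 := by simpa using k2.symm
    rw [h4] at hcon
    have : row.length ≠ 0 := fun h => hne (List.length_eq_zero_iff.1 h)
    omega
  obtain ⟨fX, fY⟩ := hfact n hlen
  have hszl : sz.length = XV.length := by rw [c4, hXV.length_eq]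
  have hyn : (TY.map LRT.size).sum + t ≤ (row.getD n (0, 0)).2 := by
    rcases g3 with g3 | g3
    · subst g3
      have := g1.zero
      omega
    · exact g3
  refine hL j b (PX.map Prod.fst) TY O s sz us hnd hok hpth hs hTX hTY hO hOd hclean c1 ?_ ?_ ?_
  · intro hus
    rw [hus] at c2
    have h1 : n = 0 := by simpa using c2.symm
    subst h1
    exact (fX sz hszl hszs).1 rfl
  · intro hus
    have h1 : n ≠ 0 := by
      rintro rfl
      exact hus (List.length_eq_zero_iff.1 c2)
    have h2 := (fX sz hszl hszs).2 h1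
    rw [c2]
    rw [← hYV.length_eq] at h2
    rcases h2 with h2 | ⟨h3, h4, h5⟩
    · exact Or.inl h2
    · exact Or.inr ⟨List.length_eq_zero_iff.1 h3, h4, h5⟩
  · apply fY
    · rw [List.length_append, List.length_map, List.length_map, c2, hYV.length_eq]
    · rw [List.sum_append]
      have h1 : (us.map HT.size).sum = t := c3
      omega

end Pool.Agent.Work.MP_bf01b2_co.MR
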