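import Pool.Agent.Work.MP_bf01b2_co.MR.Dir

/-!
# One state: all directions
-/

set_option autoImplicit false

namespace Pool.Agent.Work.MP_bf01b2_co.MR

open Adv (nd rr fB nd_iff rr_iff fB_eq)

/-! ### Selection by bits -/

/-- equality of Booleans -/
@[reducible] def eqB (a b : Bool) : Bool :=
  Bool.rec (motive := fun _ => Bool) (Bool.rec (motive := fun _ => Bool) true false b) b a

theorem eqB_iff {a b : Bool} : eqB a b = true ↔ a = b := by
  cases a <;> cases b <;> simp [eqB]

/-- entries of `l` whose bit is `x`, with their weights `w, 2 w, 4 w, ..` -/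
noncomputable def selB {α : Type} (x : Bool) : List Bool → List α → ℕ → List (α × ℕ) :=
  List.rec (motive := fun _ => List α → ℕ → List (α × ℕ)) (fun _ _ => [])
    (fun b _ ih l => List.rec (motive := fun _ => ℕ → List (α × ℕ)) (fun _ => [])
      (fun a l' _ w => Bool.rec (motive := fun _ => List (α × ℕ)) (ih l' (Nat.add w w))
        ((a, w) :: ih l' (Nat.add w w)) (eqB b x)) l)

section
variable {α β : Type}

theorem selB_nil (x : Bool) (l : List α) (w : ℕ) : selB x [] l w = [] := rfl
theorem selB_nil' (x b : Bool) (bs : List Bool) (w : ℕ) : selB x (b :: bs) ([] : List α) w = [] := rfl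

theorem selB_cons (x b : Bool) (bs : List Bool) (a : α) (l : List α) (w : ℕ) :
    selB x (b :: bs) (a :: l) w = if b = x then (a, w) :: selB x bs l (w + w)
      else selB x bs l (w + w) := by
  have h : selB x (b :: bs) (a :: l) w = Bool.rec (motive := fun _ => List (α × ℕ))
    (selB x bs l (w + w)) ((a, w) :: selB x bs l (w + w)) (eqB b x) := rfl
  rw [h]
  cases b <;> cases x <;> simp [eqB]

theorem selB_perm (x : Bool) : ∀ (bs : List Bool) (l : List α) (w : ℕ), bs.length = l.length →
    ((selB x bs l w).map Prod.fst ++ (selB (!x) bs l w).map Prod.fst).Perm l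
  | [], [], w, _ => by simp [selB_nil]
  | b :: bs, [], w, h => by simp at h
  | [], a :: l, w, h => by simp at h
  | b :: bs, a :: l, w, h => by
    have ih := selB_perm x bs l (w + w) (by simpa using h)
    rw [selB_cons, selB_cons]
    by_cases hb : b = x
    · subst hb
      simp only [if_true]
      rw [if_neg (by cases b <;> simp)]
      simpa using ih
    · rw [if_neg hb, if_pos (by cases b <;> cases x <;> simp_all)]
      rw [List.map_cons]
      exact List.perm_middle.trans (ih.cons a)

theorem selB_forall₂ {R : α → β → Prop} (x : Bool) : ∀ (bs : List Bool) {l : List α} {l' : List β},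
    List.Forall₂ R l l' → ∀ w, List.Forall₂ (fun (a : α × ℕ) (b : β × ℕ) => R a.1 b.1 ∧ a.2 = b.2)
      (selB x bs l w) (selB x bs l' w)
  | [], _, _, _, w => by simp only [selB_nil]; exact .nil
  | b :: bs, _, _, .nil, w => by simp only [selB_nil']; exact .nil
  | b :: bs, _, _, .cons h hs, w => by
    rw [selB_cons, selB_cons]
    have ih := selB_forall₂ x bs hs (w + w)
    split_ifs
    · exact .cons ⟨h, rfl⟩ ih
    · exact ih

theorem selB_mem (x : Bool) : ∀ (bs : List Bool) (l : List α) (k : ℕ) {p : α × ℕ},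
    p ∈ selB x bs l (2 ^ k) → ∃ i, bs[i]? = some x ∧ l[i]? = some p.1 ∧ p.2 = 2 ^ (k + i)
  | [], l, k, p, h => by rw [selB_nil] at h; simp at h
  | b :: bs, [], k, p, h => by rw [selB_nil'] at h; simp at h
  | b :: bs, a :: l, k, p, h => by
    rw [selB_cons, show 2 ^ k + 2 ^ k = 2 ^ (k + 1) by rw [pow_succ]; omega] at h
    have key : p ∈ selB x bs l (2 ^ (k + 1)) → ∃ i, (b :: bs)[i]? = some x ∧
        (a :: l)[i]? = some p.1 ∧ p.2 = 2 ^ (k + i) := by
      intro h
      obtain ⟨i, h1, h2, h3⟩ := selB_mem x bs l (k + 1) h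
      exact ⟨i + 1, by simpa using h1, by simpa using h2, by rw [h3]; congr 1; omega⟩
    split_ifs at h with hb
    · rcases List.mem_cons.1 h with rfl | h
      · exact ⟨0, by simp [hb], by simp, by simp⟩
      · exact key h
    · exact key h

theorem selB_length (x : Bool) : ∀ (bs : List Bool) (l : List α) (w : ℕ), bs.length = l.length →
    (selB x bs l w).length = bs.count x
  | [], l, w, _ => by simp [selB_nil]
  | b :: bs, [], w, h => by simp at h
  | b :: bs, a :: l, w, h => by
    have ih := selB_length x bs l (w + w) (by simpa using h)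
    rw [selB_cons, List.count_cons]
    by_cases hb : b = x
    · rw [if_pos hb, if_pos (by simpa using hb), List.length_cons, ih]
    · rw [if_neg hb, if_neg (by simpa using hb), ih]; rfl

end

/-! ### The kernel function for one mask -/

/-- nominal active sizes, sorted; the roots in `q` are unrestricted -/
noncomputable def actL (q : ℕ) : List (ℕ × ℕ) → List ℕ :=
  List.rec (motive := fun _ => List ℕ) []
    (fun p _ ih => fB' (Bool.rec (motive := fun _ => ℕ) p.1 (Nat.div p.1 2)
      (Nat.beq (Nat.land q p.2) 0)) fun a => insL a ih)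
where
  /-- evaluation of the argument before the call -/
  fB' (n : ℕ) (f : ℕ → List ℕ) : List ℕ :=
    Nat.rec (motive := fun _ => List ℕ) (f 0) (fun m _ => f (Nat.succ m)) n

theorem fB'_eq (n : ℕ) (f : ℕ → List ℕ) : actL.fB' n f = f n := by cases n <;> rfl

theorem actL_perm (q : ℕ) : ∀ L : List (ℕ × ℕ),
    (actL q L).Perm (L.map fun p => actN (Nat.beq (Nat.land q p.2) 0) p.1)
  | [] => List.Perm.refl _
  | p :: L => by
    have e : actL q (p :: L) = actL.fB' (Bool.rec (motive := fun _ => ℕ) p.1 (Nat.div p.1 2)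
      (Nat.beq (Nat.land q p.2) 0)) fun a => insL a (actL q L) := rfl
    rw [e, fB'_eq, List.map_cons]
    have e2 : (Bool.rec (motive := fun _ => ℕ) p.1 (Nat.div p.1 2)
      (Nat.beq (Nat.land q p.2) 0) : ℕ) = actN (Nat.beq (Nat.land q p.2) 0) p.1 := by
      unfold actN
      cases Nat.beq (Nat.land q p.2) 0
      · rfl
      · rfl
    rw [e2]
    exact (insL_perm _ _).symm.trans ((actL_perm q L).cons _)

/-- sum of the first components -/
noncomputable def sumF : List (ℕ × ℕ) → ℕ :=
  List.rec (motive := fun _ => ℕ) 0 (fun p _ ih => Nat.add p.1 ih)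

theorem sumF_eq : ∀ L : List (ℕ × ℕ), sumF L = (L.map Prod.fst).sum
  | [] => rfl
  | p :: L => by
    have e : sumF (p :: L) = p.1 + sumF L := rfl
    rw [e, sumF_eq L]
    simp

/-- `mkW` by recursion -/
noncomputable def mkR (N : ℕ) : List (ℕ × ℕ) → ℕ → List (ℕ × ℕ × ℕ) :=
  List.rec (motive := fun _ => ℕ → List (ℕ × ℕ × ℕ)) (fun _ => [])
    (fun r _ ih y => (Nat.sub N r.1, r.2, Nat.sub y r.2) :: ih r.2)

theorem mkR_eq (N : ℕ) : ∀ (T : List (ℕ × ℕ)) (y : ℕ), mkR N T y = mkW N y T
  | [], _ => rfl
  | r :: T, y => by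
    have e : mkR N (r :: T) y = (N - r.1, r.2, y - r.2) :: mkR N T r.2 := rfl
    rw [e, mkR_eq N T]
    rfl

/-- the test for the requirement `q` -/
noncomputable def tst (row : List (ℕ × ℕ)) (X : List (ℕ × ℕ)) (sX sY q : ℕ) : Bool :=
  List.rec (motive := fun _ => Bool) false
    (fun r T _ => nd (Nat.ble sY r.2)
      (fB (Nat.add sX sY) fun N => fB (Nat.sub N r.1) fun z => gm (mkR N T r.2) z sY (actL q X))) row

theorem tst_iff {row : List (ℕ × ℕ)} {X : List (ℕ × ℕ)} {sX sY q : ℕ}
    (h : tst row X sX sY q = true) : row ≠ [] ∧ sY ≤ (row.getD 0 (0, 0)).2 ∧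
      gm (mkW (sX + sY) (row.getD 0 (0, 0)).2 (row.drop 1)) (sX + sY - (row.getD 0 (0, 0)).1) sY
        (actL q X) = true := by
  cases row with
  | nil => cases h
  | cons r T =>
    have e : tst (r :: T) X sX sY q = nd (Nat.ble sY r.2)
      (fB (Nat.add sX sY) fun N => fB (Nat.sub N r.1) fun z =>
        gm (mkR N T r.2) z sY (actL q X)) := rfl
    rw [e, nd_iff, fB_eq, fB_eq, mkR_eq] at h
    exact ⟨by simp, Nat.le_of_ble_eq_true h.1, h.2⟩

/-- is some element of `acc` contained in `q`? -/
noncomputable def cvr (acc : List ℕ) (q : ℕ) : Bool :=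
  List.rec (motive := fun _ => Bool) false (fun p _ ih => rr (Nat.beq (Nat.land p q) p) ih) acc

/-- all minimal winning requirements among the unions of `q` with weights of `L` -/
noncomputable def enumC (f : ℕ → Bool) :
    List (ℕ × ℕ) → ℕ → List ℕ → (List ℕ → List ℕ) → List ℕ :=
  List.rec (motive := fun _ => ℕ → List ℕ → (List ℕ → List ℕ) → List ℕ)
    (fun q acc k => Bool.rec (motive := fun _ => List ℕ)
      (Bool.rec (motive := fun _ => List ℕ) (k acc) (k (q :: acc)) (f q)) (k acc) (cvr acc q))
    (fun p _ ih q acc k => ih q acc (fun acc' => actL.fB' (Nat.lor q p.2) fun q' => ih q' acc' k))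

theorem enumC_spec (f : ℕ → Bool) : ∀ (L : List (ℕ × ℕ)) (q : ℕ) (acc : List ℕ)
    (k : List ℕ → List ℕ), ∃ acc', enumC f L q acc k = k acc' ∧
      ∀ p ∈ acc', p ∈ acc ∨ f p = true
  | [], q, acc, k => by
    have e : enumC f [] q acc k = Bool.rec (motive := fun _ => List ℕ)
      (Bool.rec (motive := fun _ => List ℕ) (k acc) (k (q :: acc)) (f q)) (k acc)
        (cvr acc q) := rfl
    rw [e]
    cases cvr acc q
    · cases hf : f q
      · exact ⟨acc, rfl, fun p hp => Or.inl hp⟩
      · refine ⟨q :: acc, rfl, fun p hp => ?_⟩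
        rcases List.mem_cons.1 hp with rfl | hp
        · exact Or.inr hf
        · exact Or.inl hp
    · exact ⟨acc, rfl, fun p hp => Or.inl hp⟩
  | x :: L, q, acc, k => by
    have e : enumC f (x :: L) q acc k = enumC f L q acc
      (fun acc' => actL.fB' (Nat.lor q x.2) fun q' => enumC f L q' acc' k) := rfl
    rw [e]
    obtain ⟨a1, h1, h2⟩ := enumC_spec f L q acc
      (fun acc' => actL.fB' (Nat.lor q x.2) fun q' => enumC f L q' acc' k)
    rw [h1, fB'_eq]
    obtain ⟨a2, h3, h4⟩ := enumC_spec f L (Nat.lor q x.2) a1 k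
    refine ⟨a2, h3, fun p hp => ?_⟩
    rcases h4 p hp with h | h
    · exact h2 p h
    · exact Or.inr h

/-- minimal winning requirements -/
noncomputable def winsQ (f : ℕ → Bool) (L : List (ℕ × ℕ)) : List ℕ :=
  Bool.rec (motive := fun _ => List ℕ) (enumC f L 0 [] fun a => a) [0] (f 0)

theorem winsQ_spec {f : ℕ → Bool} {L : List (ℕ × ℕ)} {q : ℕ} (h : q ∈ winsQ f L) : f q = true := by
  unfold winsQ at h
  cases hf : f 0
  · rw [hf] at h
    obtain ⟨acc', h1, h2⟩ := enumC_spec f L 0 [] (fun a => a)
    have h3 : q ∈ acc' := by rw [h1] at h; exact h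
    rcases h2 q h3 with h4 | h4
    · simp at h4
    · exact h4
  · rw [hf] at h
    have h3 : q ∈ [0] := h
    rw [List.mem_singleton] at h3
    rw [h3]; exact hf

/-- an entry of the table: bits of the roots, rows for both first sides -/
abbrev Ent := List Bool × List (ℕ × ℕ) × List (ℕ × ℕ)

/-- the winning requirements of one mask -/
noncomputable def wm (v : List ℕ) (e : Ent) : List ℕ :=
  actL.fB' (sumF (selB false e.1 v 1)) fun s0 => actL.fB' (sumF (selB true e.1 v 1)) fun s1 =>
    Bool.rec (motive := fun _ => List ℕ)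
      (winsQ (tst e.2.2 (selB true e.1 v 1) s1 s0) (selB true e.1 v 1))
      (winsQ (tst e.2.1 (selB false e.1 v 1) s0 s1) (selB false e.1 v 1)) (Nat.ble s1 s0)

/-- row of the first side `x` -/
def Ent.row (e : Ent) (x : Bool) : List (ℕ × ℕ) := if x then e.2.2 else e.2.1

theorem wm_spec {v : List ℕ} {e : Ent} {q : ℕ} (h : q ∈ wm v e) : ∃ x : Bool,
    tst (e.row x) (selB x e.1 v 1) (sumF (selB x e.1 v 1)) (sumF (selB (!x) e.1 v 1)) q = true := by
  unfold wm at h
  rw [fB'_eq, fB'_eq] at h
  cases hb : Nat.ble (sumF (selB true e.1 v 1)) (sumF (selB false e.1 v 1))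
  · rw [hb] at h
    exact ⟨true, winsQ_spec h⟩
  · rw [hb] at h
    exact ⟨false, winsQ_spec h⟩

/-- `List.map` by recursion -/
noncomputable def mapR {α β : Type} (f : α → β) : List α → List β :=
  List.rec (motive := fun _ => List β) [] (fun a _ ih => f a :: ih)

theorem mapR_eq {α β : Type} (f : α → β) : ∀ l : List α, mapR f l = l.map f
  | [] => rfl
  | a :: l => by
    have e : mapR f (a :: l) = f a :: mapR f l := rfl
    rw [e, mapR_eq f l]
    rfl

/-- **The check of one state.** -/
noncomputable def chkV (G : List (ℕ × List (ℕ × ℕ))) (sn full : ℕ) (tab : List Ent)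
    (v : List ℕ) : Bool :=
  Adv.check G sn full (mapR (wm v) tab)

/-- bits of the mask number `g` -/
def bitsG (K g : ℕ) : List Bool := (List.range K).map fun i => (2 * g).testBit i

/-- number of softs with bit `x` -/
def sft (K D g : ℕ) (x : Bool) : ℕ := (List.range D).countP fun i => (2 * g).testBit (K + i) == x

/-- The table is correct. -/
def TabOK (m s K D : ℕ) (tab : List Ent) : Prop :=
  ∀ g < 2 ^ (K + D - 1), ∀ e, tab[g]? = some e → e.1 = bitsG K g ∧ ∀ x : Bool,
    RowOK m s ((bitsG K g).count x) (sft K D g x) ((bitsG K g).count (!x)) (sft K D g (!x))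
      (e.row x)

end Pool.Agent.Work.MP_bf01b2_co.MR
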