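import Pool.Agent.Work.MP_bf01b2_co.MR.DirO2
import Pool.Agent.Work.MP_bf01b2_co.MR.Dir2
import Pool.Agent.Work.MP_bf01b2_co.MR.Adv2

/-!
# One state, exact matched sets: the kernel functions
-/

set_option autoImplicit false

namespace Pool.Agent.Work.MP_bf01b2_co.MR

open Adv (nd rr fB nd_iff rr_iff fB_eq)

/-- is the weight `w` in `R`? -/
def inR (R w : ℕ) : Bool := !Nat.beq (Nat.land R w) 0

/-- nominal active sizes, sorted; the roots in `R` are restricted -/
noncomputable def actR (R : ℕ) : List (ℕ × ℕ) → List ℕ :=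
  List.rec (motive := fun _ => List ℕ) []
    (fun p _ ih => actL.fB' (Bool.rec (motive := fun _ => ℕ) (Nat.div p.1 2) p.1
      (Nat.beq (Nat.land R p.2) 0)) fun a => insL a ih)

theorem actR_perm (R : ℕ) : ∀ L : List (ℕ × ℕ),
    (actR R L).Perm (L.map fun p => actN (inR R p.2) p.1)
  | [] => List.Perm.refl _
  | p :: L => by
    have e : actR R (p :: L) = actL.fB' (Bool.rec (motive := fun _ => ℕ) (Nat.div p.1 2) p.1
      (Nat.beq (Nat.land R p.2) 0)) fun a => insL a (actR R L) := rfl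
    rw [e, fB'_eq, List.map_cons]
    have e2 : (Bool.rec (motive := fun _ => ℕ) (Nat.div p.1 2) p.1
      (Nat.beq (Nat.land R p.2) 0) : ℕ) = actN (inR R p.2) p.1 := by
      unfold actN inR
      cases Nat.beq (Nat.land R p.2) 0
      · rfl
      · rfl
    rw [e2]
    exact (insL_perm _ _).symm.trans ((actR_perm R L).cons _)

/-- the first restricted root; the continuation gets its size and the actives of the others -/
noncomputable def spR (R : ℕ) : List (ℕ × ℕ) → (ℕ → List ℕ → Bool) → Bool :=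
  List.rec (motive := fun _ => (ℕ → List ℕ → Bool) → Bool) (fun _ => false)
    (fun p T ih f => Bool.rec (motive := fun _ => Bool) (f p.1 (actR R T))
      (ih fun W A => f W (insL p.1 A)) (Nat.beq (Nat.land R p.2) 0))

theorem spR_spec (R : ℕ) : ∀ {L : List (ℕ × ℕ)} {f : ℕ → List ℕ → Bool}, spR R L f = true →
    ∃ L1 p L2 A, L = L1 ++ p :: L2 ∧ inR R p.2 = true ∧ f p.1 A = true ∧
      A.Perm ((L1 ++ L2).map fun p => actN (inR R p.2) p.1)
  | [], f, h => by cases h
  | p :: L, f, h => by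
    have e : spR R (p :: L) f = Bool.rec (motive := fun _ => Bool) (f p.1 (actR R L))
      (spR R L fun W A => f W (insL p.1 A)) (Nat.beq (Nat.land R p.2) 0) := rfl
    rw [e] at h
    cases hb : Nat.beq (Nat.land R p.2) 0
    · rw [hb] at h
      exact ⟨[], p, L, _, rfl, by unfold inR; rw [hb]; rfl, h, actR_perm R L⟩
    · rw [hb] at h
      obtain ⟨L1, p', L2, A, h1, h2, h3, h4⟩ := spR_spec R h
      refine ⟨p :: L1, p', L2, _, by rw [h1]; rfl, h2, h3, ?_⟩
      refine (insL_perm _ _).symm.trans ?_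
      have e1 : actN (inR R p.2) p.1 = p.1 := by unfold inR actN; rw [hb]; rfl
      rw [List.cons_append, List.map_cons, e1]
      exact h4.cons _

/-- the test for the restricted set `R` -/
noncomputable def tstR (row : List (ℕ × ℕ)) (X : List (ℕ × ℕ)) (sX sY R : ℕ) : Bool :=
  List.rec (motive := fun _ => Bool) false
    (fun r T _ => nd (Nat.ble sY r.2)
      (fB (Nat.add sX sY) fun N => fB (Nat.sub N r.1) fun z => gm (mkR N T r.2) z sY (actR R X))) row

theorem tstR_iff {row : List (ℕ × ℕ)} {X : List (ℕ × ℕ)} {sX sY R : ℕ}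
    (h : tstR row X sX sY R = true) : sY ≤ (row.getD 0 (0, 0)).2 ∧
      gm (mkW (sX + sY) (row.getD 0 (0, 0)).2 (row.drop 1)) (sX + sY - (row.getD 0 (0, 0)).1) sY
        (actR R X) = true := by
  cases row with
  | nil => cases h
  | cons r T =>
    have e : tstR (r :: T) X sX sY R = nd (Nat.ble sY r.2)
      (fB (Nat.add sX sY) fun N => fB (Nat.sub N r.1) fun z =>
        gm (mkR N T r.2) z sY (actR R X)) := rfl
    rw [e, nd_iff, fB_eq, fB_eq, mkR_eq] at h
    exact ⟨Nat.le_of_ble_eq_true h.1, h.2⟩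

/-- the test for the restricted set `R`, two active subtrees for the first restricted root -/
noncomputable def tst2 (row : List (ℕ × ℕ)) (X : List (ℕ × ℕ)) (sX sY R : ℕ) : Bool :=
  List.rec (motive := fun _ => Bool) false
    (fun r T _ => nd (Nat.ble sY r.2)
      (fB (Nat.add sX sY) fun N => fB (Nat.sub N r.1) fun z => spR R X fun W A =>
        fB (Nat.div W 2) fun h => allF (fun c => fB (Nat.sub (Nat.sub W 1) c) fun d =>
          gm (mkR N T r.2) z sY (insL c (insL d A))) h (Nat.sub W h))) row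

theorem tst2_iff {row : List (ℕ × ℕ)} {X : List (ℕ × ℕ)} {sX sY R : ℕ}
    (h : tst2 row X sX sY R = true) : sY ≤ (row.getD 0 (0, 0)).2 ∧
      ∃ L1 p L2 A, X = L1 ++ p :: L2 ∧ inR R p.2 = true ∧
      A.Perm ((L1 ++ L2).map fun p => actN (inR R p.2) p.1) ∧
      ∀ c, p.1 / 2 ≤ c → c < p.1 →
      gm (mkW (sX + sY) (row.getD 0 (0, 0)).2 (row.drop 1)) (sX + sY - (row.getD 0 (0, 0)).1) sY
        (insL c (insL (p.1 - 1 - c) A)) = true := by
  cases row with
  | nil => cases h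
  | cons r T =>
    have e : tst2 (r :: T) X sX sY R = nd (Nat.ble sY r.2)
      (fB (Nat.add sX sY) fun N => fB (Nat.sub N r.1) fun z => spR R X fun W A =>
        fB (Nat.div W 2) fun h => allF (fun c => fB (Nat.sub (Nat.sub W 1) c) fun d =>
          gm (mkR N T r.2) z sY (insL c (insL d A))) h (Nat.sub W h)) := rfl
    rw [e, nd_iff, fB_eq, fB_eq] at h
    obtain ⟨h1, h2⟩ := h
    obtain ⟨L1, p, L2, A, h3, h4, h5, h6⟩ := spR_spec R h2
    refine ⟨Nat.le_of_ble_eq_true h1, L1, p, L2, A, h3, h4, h6, fun c hc1 hc2 => ?_⟩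
    simp only [fB_eq] at h5
    have h7 := allF_iff _ _ h5 c hc1 (by
      have e1 : Nat.sub p.1 (Nat.div p.1 2) = p.1 - p.1 / 2 := rfl
      have e2 : Nat.div p.1 2 = p.1 / 2 := rfl
      rw [e1, e2]
      omega)
    rw [mkR_eq] at h7
    exact h7

/-- the rows of one first side: `(row for everything, row for no matched mark, marks of the side,
classes (row, two actives?, matched sets))` -/
abbrev SideT := List (ℕ × ℕ) × List (ℕ × ℕ) × ℕ × List (List (ℕ × ℕ) × Bool × List ℕ)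

/-- an entry of the table: bits of the roots, both first sides -/
abbrev EntO := List Bool × SideT × SideT

/-- the first side `x` -/
def EntO.side (e : EntO) (x : Bool) : SideT := if x then e.2.2 else e.2.1

/-- the winning pairs, first stage -/
noncomputable def w1s (X : List (ℕ × ℕ)) (sX sY : ℕ) (sd : SideT) : List (ℕ × ℕ) :=
  Bool.rec (motive := fun _ => List (ℕ × ℕ))
    (Bool.rec (motive := fun _ => List (ℕ × ℕ)) [] [(sd.2.2.1, 0)] (tstR sd.2.1 X sX sY 0))
    [(0, 0)] (tstR sd.1 X sX sY sd.2.2.1)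

/-- the winning pairs of the classes -/
noncomputable def w2c (X : List (ℕ × ℕ)) (sX sY xm : ℕ) :
    List (List (ℕ × ℕ) × Bool × List ℕ) → List (ℕ × ℕ) :=
  List.rec (motive := fun _ => List (ℕ × ℕ)) []
    (fun c _ ih => List.rec (motive := fun _ => List (ℕ × ℕ)) ih
      (fun R _ ih2 => Bool.rec (motive := fun _ => List (ℕ × ℕ)) ih2 ((xm, R) :: ih2)
        (rr (tstR c.1 X sX sY R) (nd c.2.1 (tst2 c.1 X sX sY R)))) c.2.2)

/-- the winning pairs, second stage -/
noncomputable def w2s (X : List (ℕ × ℕ)) (sX sY : ℕ) (sd : SideT) : List (ℕ × ℕ) :=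
  Bool.rec (motive := fun _ => List (ℕ × ℕ)) (w2c X sX sY sd.2.2.1 sd.2.2.2)
    [(0, 0)] (tstR sd.1 X sX sY sd.2.2.1)

/-- a winning pair and its reason -/
def GoodQ (X : List (ℕ × ℕ)) (sX sY : ℕ) (sd : SideT) (q : ℕ × ℕ) : Prop :=
  (q = (0, 0) ∧ tstR sd.1 X sX sY sd.2.2.1 = true) ∨
  (q = (sd.2.2.1, 0) ∧ tstR sd.2.1 X sX sY 0 = true) ∨
  (∃ c ∈ sd.2.2.2, ∃ R ∈ c.2.2, q = (sd.2.2.1, R) ∧ tstR c.1 X sX sY R = true) ∨
  (∃ c ∈ sd.2.2.2, ∃ R ∈ c.2.2, q = (sd.2.2.1, R) ∧ c.2.1 = true ∧ tst2 c.1 X sX sY R = true)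

theorem w1s_spec {X : List (ℕ × ℕ)} {sX sY : ℕ} {sd : SideT} {q : ℕ × ℕ}
    (h : q ∈ w1s X sX sY sd) : GoodQ X sX sY sd q := by
  unfold w1s at h
  cases h1 : tstR sd.1 X sX sY sd.2.2.1
  · rw [h1] at h
    cases h2 : tstR sd.2.1 X sX sY 0
    · rw [h2] at h
      exact absurd h List.not_mem_nil
    · rw [h2] at h
      have h3 : q ∈ [(sd.2.2.1, 0)] := h
      exact Or.inr (Or.inl ⟨List.mem_singleton.1 h3, h2⟩)
  · rw [h1] at h
    have h3 : q ∈ [(0, 0)] := h
    exact Or.inl ⟨List.mem_singleton.1 h3, h1⟩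

theorem w2c_spec {X : List (ℕ × ℕ)} {sX sY xm : ℕ} {q : ℕ × ℕ} :
    ∀ {cs : List (List (ℕ × ℕ) × Bool × List ℕ)}, q ∈ w2c X sX sY xm cs →
    ∃ c ∈ cs, ∃ R ∈ c.2.2, q = (xm, R) ∧ (tstR c.1 X sX sY R = true ∨
      (c.2.1 = true ∧ tst2 c.1 X sX sY R = true))
  | [], h => absurd h List.not_mem_nil
  | c :: cs, h => by
    have e : w2c X sX sY xm (c :: cs) = List.rec (motive := fun _ => List (ℕ × ℕ))
      (w2c X sX sY xm cs)
      (fun R _ ih2 => Bool.rec (motive := fun _ => List (ℕ × ℕ)) ih2 ((xm, R) :: ih2)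
        (rr (tstR c.1 X sX sY R) (nd c.2.1 (tst2 c.1 X sX sY R)))) c.2.2 := rfl
    rw [e] at h
    have key : ∀ Rs : List ℕ, q ∈ (List.rec (motive := fun _ => List (ℕ × ℕ))
      (w2c X sX sY xm cs)
      (fun R _ ih2 => Bool.rec (motive := fun _ => List (ℕ × ℕ)) ih2 ((xm, R) :: ih2)
        (rr (tstR c.1 X sX sY R) (nd c.2.1 (tst2 c.1 X sX sY R)))) Rs : List (ℕ × ℕ)) →
      q ∈ w2c X sX sY xm cs ∨ ∃ R ∈ Rs, q = (xm, R) ∧ (tstR c.1 X sX sY R = true ∨
        (c.2.1 = true ∧ tst2 c.1 X sX sY R = true)) := by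
      intro Rs
      induction Rs with
      | nil => exact fun h => Or.inl h
      | cons R Rs ih =>
        intro h
        simp only at h
        cases hb : rr (tstR c.1 X sX sY R) (nd c.2.1 (tst2 c.1 X sX sY R))
        · rw [hb] at h
          rcases ih h with h1 | ⟨R', h1, h2⟩
          · exact Or.inl h1
          · exact Or.inr ⟨R', List.mem_cons_of_mem _ h1, h2⟩
        · rw [hb] at h
          rcases List.mem_cons.1 h with h | h
          · right
            rw [rr_iff, nd_iff] at hb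
            exact ⟨R, List.mem_cons_self, h, hb⟩
          · rcases ih h with h1 | ⟨R', h1, h2⟩
            · exact Or.inl h1
            · exact Or.inr ⟨R', List.mem_cons_of_mem _ h1, h2⟩
    rcases key _ h with h1 | ⟨R, h1, h2⟩
    · obtain ⟨c', h3, h4⟩ := w2c_spec h1
      exact ⟨c', List.mem_cons_of_mem _ h3, h4⟩
    · exact ⟨c, List.mem_cons_self, R, h1, h2⟩

theorem w2s_spec {X : List (ℕ × ℕ)} {sX sY : ℕ} {sd : SideT} {q : ℕ × ℕ}
    (h : q ∈ w2s X sX sY sd) : GoodQ X sX sY sd q := by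
  unfold w2s at h
  cases h1 : tstR sd.1 X sX sY sd.2.2.1
  · rw [h1] at h
    obtain ⟨c, h2, R, h3, h4, h5 | h5⟩ := w2c_spec h
    · exact Or.inr (Or.inr (Or.inl ⟨c, h2, R, h3, h4, h5⟩))
    · exact Or.inr (Or.inr (Or.inr ⟨c, h2, R, h3, h4, h5⟩))
  · rw [h1] at h
    have h3 : q ∈ [(0, 0)] := h
    exact Or.inl ⟨List.mem_singleton.1 h3, h1⟩

/-- the winning pairs of one mask, for a stage `w` -/
noncomputable def wmO (w : List (ℕ × ℕ) → ℕ → ℕ → SideT → List (ℕ × ℕ)) (v : List ℕ) (e : EntO) :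
    List (ℕ × ℕ) :=
  actL.fB'' (sumF (selB false e.1 v 1)) fun s0 => actL.fB'' (sumF (selB true e.1 v 1)) fun s1 =>
    Bool.rec (motive := fun _ => List (ℕ × ℕ))
      (w (selB true e.1 v 1) s1 s0 e.2.2)
      (w (selB false e.1 v 1) s0 s1 e.2.1) (Nat.ble s1 s0)
where
  /-- evaluation of the argument before the call -/
  actL.fB'' (n : ℕ) (f : ℕ → List (ℕ × ℕ)) : List (ℕ × ℕ) :=
    Nat.rec (motive := fun _ => List (ℕ × ℕ)) (f 0) (fun m _ => f (Nat.succ m)) n

theorem fB''_eq (n : ℕ) (f : ℕ → List (ℕ × ℕ)) : wmO.actL.fB'' n f = f n := by cases n <;> rfl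

theorem wmO_spec {w : List (ℕ × ℕ) → ℕ → ℕ → SideT → List (ℕ × ℕ)}
    (hw : ∀ {X : List (ℕ × ℕ)} {sX sY : ℕ} {sd : SideT} {q : ℕ × ℕ}, q ∈ w X sX sY sd →
      GoodQ X sX sY sd q) {v : List ℕ} {e : EntO} {q : ℕ × ℕ} (h : q ∈ wmO w v e) :
    ∃ x : Bool, GoodQ (selB x e.1 v 1) (sumF (selB x e.1 v 1)) (sumF (selB (!x) e.1 v 1))
      (e.side x) q := by
  unfold wmO at h
  rw [fB''_eq, fB''_eq] at h
  cases hb : Nat.ble (sumF (selB true e.1 v 1)) (sumF (selB false e.1 v 1))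
  · rw [hb] at h
    exact ⟨true, hw h⟩
  · rw [hb] at h
    exact ⟨false, hw h⟩

/-- **The check of one state.** -/
noncomputable def chkO (G : List (ℕ × List (ℕ × ℕ))) (sn full : ℕ) (tab : List EntO)
    (v : List ℕ) : Bool :=
  rr (Adv.check2 G sn full (mapR (wmO w1s v) tab)) (Adv.check2 G sn full (mapR (wmO w2s v) tab))

/-- number of bits -/
def cnt (R lo n : ℕ) : ℕ := (List.range n).countP fun i => R.testBit (lo + i)

/-- The rows of a first side are correct. -/
def SideOK (m s K D g : ℕ) (x : Bool) (sd : SideT) : Prop :=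
  (∀ i, sd.2.2.1.testBit i = true ↔ i < K + D ∧ (2 * g).testBit i = x) ∧
  (∀ h, h ≤ sft K D g x → h ≤ (bitsG K g).count (!x) + sft K D g (!x) →
    RowO m s ((bitsG K g).count x) (sft K D g x) ((bitsG K g).count (!x)) (sft K D g (!x)) h
      ((bitsG K g).count (!x) + sft K D g (!x) - h) sd.1) ∧
  RowO m s ((bitsG K g).count x) (sft K D g x) ((bitsG K g).count (!x)) (sft K D g (!x)) 0
      ((bitsG K g).count (!x) + sft K D g (!x)) sd.2.1 ∧
  ∀ c ∈ sd.2.2.2, ∀ R ∈ c.2.2,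
    RowO m s ((bitsG K g).count x) (sft K D g x) ((bitsG K g).count (!x)) (sft K D g (!x))
      (cnt R K D) ((bitsG K g).count (!x) + sft K D g (!x) - (cnt R 0 K + cnt R K D)) c.1 ∧
    (c.2.1 = true → cnt R K D = 0 ∧
      (bitsG K g).count (!x) + sft K D g (!x) - (cnt R 0 K + cnt R K D) = 0 ∧
      ∀ n < c.1.length, ∀ w : List ℕ, w.length = (bitsG K g).count x →
        w.sum ≤ (c.1.getD n (0, 0)).1 → GdO m (sft K D g x) s w)

/-- The table is correct. -/
def TabO (m s K D : ℕ) (tab : List EntO) : Prop :=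
  ∀ g < 2 ^ (K + D - 1), ∀ e, tab[g]? = some e → e.1 = bitsG K g ∧
    ∀ x : Bool, SideOK m s K D g x (e.side x)

end Pool.Agent.Work.MP_bf01b2_co.MR
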