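import Pool.Agent.Work.MP_bf01b2_co.MR.DirS
import Pool.Agent.Work.MP_bf01b2_co.MR.Dir2O

/-!
# One state, with rows for cuttings of one tree: the kernel functions
-/

set_option autoImplicit false

namespace Pool.Agent.Work.MP_bf01b2_co.MR

open Adv (nd rr fB nd_iff rr_iff fB_eq)

/-- the test for the restricted set `R`, only the tree with the largest active subtree is cut -/
noncomputable def tstS (row : List (ℕ × ℕ)) (X : List (ℕ × ℕ)) (sX sY R : ℕ) : Bool :=
  List.rec (motive := fun _ => Bool) false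
    (fun r T _ => nd (Nat.ble sY r.2)
      (fB (Nat.add sX sY) fun N => fB (Nat.sub N r.1) fun z =>
        List.rec (motive := fun _ => Bool) false (fun a _ _ => gm (mkR N T r.2) z sY [a])
          (actR R X))) row

theorem tstS_iff {row : List (ℕ × ℕ)} {X : List (ℕ × ℕ)} {sX sY R : ℕ}
    (h : tstS row X sX sY R = true) : row ≠ [] ∧ sY ≤ (row.getD 0 (0, 0)).2 ∧
      ∃ L1 p L2, X = L1 ++ p :: L2 ∧
      gm (mkW (sX + sY) (row.getD 0 (0, 0)).2 (row.drop 1)) (sX + sY - (row.getD 0 (0, 0)).1) sY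
        [actN (inR R p.2) p.1] = true := by
  cases row with
  | nil => cases h
  | cons r T =>
    have e : tstS (r :: T) X sX sY R = nd (Nat.ble sY r.2)
      (fB (Nat.add sX sY) fun N => fB (Nat.sub N r.1) fun z =>
        List.rec (motive := fun _ => Bool) false (fun a _ _ => gm (mkR N T r.2) z sY [a])
          (actR R X)) := rfl
    rw [e, nd_iff, fB_eq, fB_eq, mkR_eq] at h
    refine ⟨by simp, Nat.le_of_ble_eq_true h.1, ?_⟩
    have hp := actR_perm R X
    cases hA : actR R X with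
    | nil =>
      rw [hA] at h
      cases h.2
    | cons a A =>
      rw [hA] at h hp
      have h1 : a ∈ X.map fun p => actN (inR R p.2) p.1 := hp.mem_iff.1 List.mem_cons_self
      obtain ⟨p, hpX, rfl⟩ := List.mem_map.1 h1
      obtain ⟨L1, L2, rfl⟩ := List.append_of_mem hpX
      exact ⟨L1, p, L2, rfl, h.2⟩

/-- a row and a row for cuttings of one tree (possibly empty) -/
abbrev RowP := List (ℕ × ℕ) × List (ℕ × ℕ)

/-- both tests -/
noncomputable def tstP (rp : RowP) (X : List (ℕ × ℕ)) (sX sY R : ℕ) : Bool :=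
  rr (tstR rp.1 X sX sY R) (tstS rp.2 X sX sY R)

/-- the rows of one first side: `(rows for everything, rows for no matched mark, marks of the side,
classes (rows, two actives?, matched sets))` -/
abbrev SideM := RowP × RowP × ℕ × List (RowP × Bool × List ℕ)

/-- an entry of the table: bits of the roots, both first sides -/
abbrev EntM := List Bool × SideM × SideM

/-- the first side `x` -/
def EntM.side (e : EntM) (x : Bool) : SideM := if x then e.2.2 else e.2.1

/-- the winning pairs, first stage -/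
noncomputable def w1m (X : List (ℕ × ℕ)) (sX sY : ℕ) (sd : SideM) : List (ℕ × ℕ) :=
  Bool.rec (motive := fun _ => List (ℕ × ℕ))
    (Bool.rec (motive := fun _ => List (ℕ × ℕ)) [] [(sd.2.2.1, 0)] (tstP sd.2.1 X sX sY 0))
    [(0, 0)] (tstP sd.1 X sX sY sd.2.2.1)

/-- the winning pairs of the classes -/
noncomputable def w2d (X : List (ℕ × ℕ)) (sX sY xm : ℕ) :
    List (RowP × Bool × List ℕ) → List (ℕ × ℕ) :=
  List.rec (motive := fun _ => List (ℕ × ℕ)) []
    (fun c _ ih => List.rec (motive := fun _ => List (ℕ × ℕ)) ih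
      (fun R _ ih2 => Bool.rec (motive := fun _ => List (ℕ × ℕ)) ih2 ((xm, R) :: ih2)
        (rr (tstP c.1 X sX sY R) (nd c.2.1 (tst2 c.1.1 X sX sY R)))) c.2.2)

/-- the winning pairs, second stage -/
noncomputable def w2m (X : List (ℕ × ℕ)) (sX sY : ℕ) (sd : SideM) : List (ℕ × ℕ) :=
  Bool.rec (motive := fun _ => List (ℕ × ℕ)) (w2d X sX sY sd.2.2.1 sd.2.2.2)
    [(0, 0)] (tstP sd.1 X sX sY sd.2.2.1)

/-- a winning pair and its reason -/
def GoodM (X : List (ℕ × ℕ)) (sX sY : ℕ) (sd : SideM) (q : ℕ × ℕ) : Prop :=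
  (q = (0, 0) ∧ tstP sd.1 X sX sY sd.2.2.1 = true) ∨
  (q = (sd.2.2.1, 0) ∧ tstP sd.2.1 X sX sY 0 = true) ∨
  (∃ c ∈ sd.2.2.2, ∃ R ∈ c.2.2, q = (sd.2.2.1, R) ∧ tstP c.1 X sX sY R = true) ∨
  (∃ c ∈ sd.2.2.2, ∃ R ∈ c.2.2, q = (sd.2.2.1, R) ∧ c.2.1 = true ∧ tst2 c.1.1 X sX sY R = true)

theorem w1m_spec {X : List (ℕ × ℕ)} {sX sY : ℕ} {sd : SideM} {q : ℕ × ℕ}
    (h : q ∈ w1m X sX sY sd) : GoodM X sX sY sd q := by
  unfold w1m at h
  cases h1 : tstP sd.1 X sX sY sd.2.2.1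
  · rw [h1] at h
    cases h2 : tstP sd.2.1 X sX sY 0
    · rw [h2] at h
      exact absurd h List.not_mem_nil
    · rw [h2] at h
      have h3 : q ∈ [(sd.2.2.1, 0)] := h
      exact Or.inr (Or.inl ⟨List.mem_singleton.1 h3, h2⟩)
  · rw [h1] at h
    have h3 : q ∈ [(0, 0)] := h
    exact Or.inl ⟨List.mem_singleton.1 h3, h1⟩

theorem w2d_spec {X : List (ℕ × ℕ)} {sX sY xm : ℕ} {q : ℕ × ℕ} :
    ∀ {cs : List (RowP × Bool × List ℕ)}, q ∈ w2d X sX sY xm cs →
    ∃ c ∈ cs, ∃ R ∈ c.2.2, q = (xm, R) ∧ (tstP c.1 X sX sY R = true ∨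
      (c.2.1 = true ∧ tst2 c.1.1 X sX sY R = true))
  | [], h => absurd h List.not_mem_nil
  | c :: cs, h => by
    have e : w2d X sX sY xm (c :: cs) = List.rec (motive := fun _ => List (ℕ × ℕ))
      (w2d X sX sY xm cs)
      (fun R _ ih2 => Bool.rec (motive := fun _ => List (ℕ × ℕ)) ih2 ((xm, R) :: ih2)
        (rr (tstP c.1 X sX sY R) (nd c.2.1 (tst2 c.1.1 X sX sY R)))) c.2.2 := rfl
    rw [e] at h
    have key : ∀ Rs : List ℕ, q ∈ (List.rec (motive := fun _ => List (ℕ × ℕ))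
      (w2d X sX sY xm cs)
      (fun R _ ih2 => Bool.rec (motive := fun _ => List (ℕ × ℕ)) ih2 ((xm, R) :: ih2)
        (rr (tstP c.1 X sX sY R) (nd c.2.1 (tst2 c.1.1 X sX sY R)))) Rs : List (ℕ × ℕ)) →
      q ∈ w2d X sX sY xm cs ∨ ∃ R ∈ Rs, q = (xm, R) ∧ (tstP c.1 X sX sY R = true ∨
        (c.2.1 = true ∧ tst2 c.1.1 X sX sY R = true)) := by
      intro Rs
      induction Rs with
      | nil => exact fun h => Or.inl h
      | cons R Rs ih =>
        intro h
        simp only at h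
        cases hb : rr (tstP c.1 X sX sY R) (nd c.2.1 (tst2 c.1.1 X sX sY R))
        · rw [hb] at h
          rcases ih h with h1 | ⟨R', h1, h2⟩
          · exact Or.inl h1
          · exact Or.inr ⟨R', List.mem_cons_of_mem _ h1, h2⟩
        · rw [hb] at h
          rcases List.mem_cons.1 h with h | h
          · right
            rw [rr_iff, nd_iff] at hb
            exact ⟨R, List.mem_cons_self, h, hb⟩
          · rcases ih h with h1 | ⟨R', h1, h2⟩
            · exact Or.inl h1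
            · exact Or.inr ⟨R', List.mem_cons_of_mem _ h1, h2⟩
    rcases key _ h with h1 | ⟨R, h1, h2⟩
    · obtain ⟨c', h3, h4⟩ := w2d_spec h1
      exact ⟨c', List.mem_cons_of_mem _ h3, h4⟩
    · exact ⟨c, List.mem_cons_self, R, h1, h2⟩

theorem w2m_spec {X : List (ℕ × ℕ)} {sX sY : ℕ} {sd : SideM} {q : ℕ × ℕ}
    (h : q ∈ w2m X sX sY sd) : GoodM X sX sY sd q := by
  unfold w2m at h
  cases h1 : tstP sd.1 X sX sY sd.2.2.1
  · rw [h1] at h
    obtain ⟨c, h2, R, h3, h4, h5 | h5⟩ := w2d_spec h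
    · exact Or.inr (Or.inr (Or.inl ⟨c, h2, R, h3, h4, h5⟩))
    · exact Or.inr (Or.inr (Or.inr ⟨c, h2, R, h3, h4, h5⟩))
  · rw [h1] at h
    have h3 : q ∈ [(0, 0)] := h
    exact Or.inl ⟨List.mem_singleton.1 h3, h1⟩

/-- the winning pairs of one mask, for a stage `w` -/
noncomputable def wmM (w : List (ℕ × ℕ) → ℕ → ℕ → SideM → List (ℕ × ℕ)) (v : List ℕ) (e : EntM) :
    List (ℕ × ℕ) :=
  wmO.actL.fB'' (sumF (selB false e.1 v 1)) fun s0 =>
    wmO.actL.fB'' (sumF (selB true e.1 v 1)) fun s1 =>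
    Bool.rec (motive := fun _ => List (ℕ × ℕ))
      (w (selB true e.1 v 1) s1 s0 e.2.2)
      (w (selB false e.1 v 1) s0 s1 e.2.1) (Nat.ble s1 s0)

theorem wmM_spec {w : List (ℕ × ℕ) → ℕ → ℕ → SideM → List (ℕ × ℕ)}
    (hw : ∀ {X : List (ℕ × ℕ)} {sX sY : ℕ} {sd : SideM} {q : ℕ × ℕ}, q ∈ w X sX sY sd →
      GoodM X sX sY sd q) {v : List ℕ} {e : EntM} {q : ℕ × ℕ} (h : q ∈ wmM w v e) :
    ∃ x : Bool, GoodM (selB x e.1 v 1) (sumF (selB x e.1 v 1)) (sumF (selB (!x) e.1 v 1))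
      (e.side x) q := by
  unfold wmM at h
  rw [fB''_eq, fB''_eq] at h
  cases hb : Nat.ble (sumF (selB true e.1 v 1)) (sumF (selB false e.1 v 1))
  · rw [hb] at h
    exact ⟨true, hw h⟩
  · rw [hb] at h
    exact ⟨false, hw h⟩

/-- **The check of one state.** -/
noncomputable def chkM (G : List (ℕ × List (ℕ × ℕ))) (sn full : ℕ) (tab : List EntM)
    (v : List ℕ) : Bool :=
  rr (Adv.check2 G sn full (mapR (wmM w1m v) tab)) (Adv.check2 G sn full (mapR (wmM w2m v) tab))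

/-- The rows of a first side are correct. -/
def SideOKM (m s K D g : ℕ) (x : Bool) (sd : SideM) : Prop :=
  (∀ i, sd.2.2.1.testBit i = true ↔ i < K + D ∧ (2 * g).testBit i = x) ∧
  (∀ h, h ≤ sft K D g x → h ≤ (bitsG K g).count (!x) + sft K D g (!x) →
    RowO m s ((bitsG K g).count x) (sft K D g x) ((bitsG K g).count (!x)) (sft K D g (!x)) h
      ((bitsG K g).count (!x) + sft K D g (!x) - h) sd.1.1) ∧
  (sd.1.2 ≠ [] → RowS m s ((bitsG K g).count x) (sft K D g x) ((bitsG K g).count (!x))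
    (sft K D g (!x)) ((bitsG K g).count (!x) + sft K D g (!x)) sd.1.2) ∧
  RowO m s ((bitsG K g).count x) (sft K D g x) ((bitsG K g).count (!x)) (sft K D g (!x)) 0
      ((bitsG K g).count (!x) + sft K D g (!x)) sd.2.1.1 ∧
  (sd.2.1.2 ≠ [] → RowS m s ((bitsG K g).count x) (sft K D g x) ((bitsG K g).count (!x))
    (sft K D g (!x)) ((bitsG K g).count (!x) + sft K D g (!x)) sd.2.1.2) ∧
  ∀ c ∈ sd.2.2.2, ∀ R ∈ c.2.2,
    RowO m s ((bitsG K g).count x) (sft K D g x) ((bitsG K g).count (!x)) (sft K D g (!x))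
      (cnt R K D) ((bitsG K g).count (!x) + sft K D g (!x) - (cnt R 0 K + cnt R K D)) c.1.1 ∧
    (c.2.1 = true → cnt R K D = 0 ∧
      (bitsG K g).count (!x) + sft K D g (!x) - (cnt R 0 K + cnt R K D) = 0 ∧
      ∀ n < c.1.1.length, ∀ w : List ℕ, w.length = (bitsG K g).count x →
        w.sum ≤ (c.1.1.getD n (0, 0)).1 → GdO m (sft K D g x) s w) ∧
    (c.1.2 ≠ [] → RowS m s ((bitsG K g).count x) (sft K D g x) ((bitsG K g).count (!x))
      (sft K D g (!x)) ((bitsG K g).count (!x) + sft K D g (!x) - (cnt R 0 K + cnt R K D)) c.1.2)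

/-- The table is correct. -/
def TabM (m s K D : ℕ) (tab : List EntM) : Prop :=
  ∀ g < 2 ^ (K + D - 1), ∀ e, tab[g]? = some e → e.1 = bitsG K g ∧
    ∀ x : Bool, SideOKM m s K D g x (e.side x)

end Pool.Agent.Work.MP_bf01b2_co.MR
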