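import Pool.Agent.Work.MP_bf01b2_co.MR.Dir2
import Pool.Agent.Work.MP_bf01b2_co.MR.AllV
import Pool.Agent.Work.MP_bf01b2_co.MR.Clean

/-!
# One state: soundness of the check
-/

set_option autoImplicit false

namespace Pool.Agent.Work.MP_bf01b2_co.MR

open Adv (nd rr fB nd_iff rr_iff fB_eq)

theorem bitsG_length (K g : ℕ) : (bitsG K g).length = K := by simp [bitsG]

theorem bitsG_get {K g i : ℕ} {x : Bool} (h : (bitsG K g)[i]? = some x) :
    i < K ∧ (2 * g).testBit i = x := by
  have h1 : i < (bitsG K g).length := by
    by_contra hc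
    rw [List.getElem?_eq_none (by omega)] at h
    cases h
  rw [bitsG_length] at h1
  refine ⟨h1, ?_⟩
  unfold bitsG at h
  rw [List.getElem?_map, List.getElem?_range h1] at h
  simpa using h

/-- number of elements of `O` on a side -/
theorem card_side {m : ℕ} (j : Fin (m + 1)) (b : Bool) {O : Finset (Fin (m + 1) → Bool)}
    {D : ℕ} (hD : O.card = D) {f : ℕ → Bool} {x : Bool}
    (h : ∀ i (hi : i < O.toList.length), (O.toList[i] j = b ↔ f i = x)) :
    (O.filter fun y => y j = b).card = (List.range D).countP fun i => f i == x := by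
  have e1 : (O.filter fun y => y j = b).card = O.toList.countP (fun y => y j == b) := by
    have h1 : (O.filter fun y => y j = b).card = ((O.filter fun y => y j = b).toList).length := by
      rw [Finset.length_toList]
    rw [h1, List.countP_eq_length_filter]
    apply List.Perm.length_eq
    rw [List.perm_ext_iff_of_nodup (Finset.nodup_toList _) ((Finset.nodup_toList _).filter _)]
    intro a
    simp
  have e2 : O.toList = (List.range D).attach.map (fun i => O.toList[i.1]'(by
      rw [Finset.length_toList, hD]; exact List.mem_range.1 i.2)) := by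
    apply List.ext_getElem
    · simp [hD]
    · intro i h1 h2
      simp
  rw [e1]
  conv_lhs => rw [e2]
  rw [List.countP_map]
  have e3 : (List.range D).countP (fun i => f i == x) =
      (List.range D).attach.countP (fun i => f i.1 == x) := by
    conv_lhs => rw [← List.attach_map_subtype_val (List.range D)]
    rw [List.countP_map]
    rfl
  rw [e3]
  apply List.countP_congr
  intro i _
  simp only [Function.comp, beq_iff_eq]
  exact h i.1 (by rw [Finset.length_toList, hD]; exact List.mem_range.1 i.2)

theorem bool_aux1 : ∀ a c y x : Bool, (a != c) = (y ^^ x) → a = (y ^^ (c ^^ x)) := by decide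

theorem bool_aux2 : ∀ c y x : Bool, ((y ^^ (c ^^ x)) != c) = (y ^^ x) := by decide

/-- **Soundness of the check of one state.** -/
theorem state_emb {m s K D : ℕ} (hL : LvlP m) (hK : 1 ≤ K) (hN : K + D ≤ m + 1)
    {tab : List Ent} (htl : tab.length = 2 ^ (K + D - 1)) (htab : TabOK m s K D tab)
    {v : List ℕ} (hv : v.length = K)
    (hchk : chkV (Adv.groups (K + D) (K + D)) (Adv.sen (K + D)) (Adv.fullN (K + D)) tab v = true) :
    GdP (m + 1) D s v := by
  classical
  refine GdP.of_clean fun Ts hnd hok hsz hsoft hspec hpth hclean => ?_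
  have hTl : Ts.length = K := by rw [hsz.length_eq, hv]
  -- the soft positions
  have hcardU : (Finset.univ : Finset (Fin (m + 1) → Bool)).card = 2 ^ (m + 1) := by
    rw [Finset.card_univ]; simp
  have hposs : (poss Ts).card = K := by
    unfold poss
    rw [List.toFinset_card_of_nodup hnd, List.length_map, hTl]
  obtain ⟨O, hO1, hO2, hO3⟩ := Finset.exists_subsuperset_card_eq
    (s := softs Ts \ poss Ts) (t := Finset.univ \ poss Ts) (n := D)
    (fun x hx => Finset.mem_sdiff.2 ⟨Finset.mem_univ x, (Finset.mem_sdiff.1 hx).2⟩) hsoft (by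
      rw [Finset.card_sdiff_of_subset (Finset.subset_univ _), hcardU, hposs]
      have : m + 1 < 2 ^ (m + 1) := Nat.lt_two_pow_self
      omega)
  have hOd : ∀ x ∈ O, x ∉ poss Ts := fun x hx => (Finset.mem_sdiff.1 (hO2 hx)).2
  obtain ⟨Pl, hPl⟩ : ∃ Pl, Pl = Ts.map LRT.pos ++ O.toList := ⟨_, rfl⟩
  have hPll : Pl.length = K + D := by
    rw [hPl, List.length_append, List.length_map, hTl, Finset.length_toList, hO3]
  have hPnd : Pl.Nodup := by
    rw [hPl, List.nodup_append]
    refine ⟨hnd, Finset.nodup_toList O, ?_⟩
    intro a ha b hb hab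
    subst hab
    refine hOd a (Finset.mem_toList.1 hb) ?_
    unfold poss
    exact List.mem_toFinset.2 ha
  let P : ℕ → Fin (m + 1) → Bool := fun i => Pl.getD i (fun _ => false)
  have hP : ∀ i (hi : i < Pl.length), P i = Pl[i] := fun i hi => by
    simp only [P]
    rw [List.getD_eq_getElem _ _ hi]
  have hPinj : ∀ a b, a < b → b < K + D → P a ≠ P b := by
    intro a b hab hb h
    rw [hP a (by omega), hP b (by omega)] at h
    have := (hPnd.getElem_inj_iff).1 h
    omega
  have hPT : ∀ i T, Ts[i]? = some T → i < K ∧ P i = T.pos := by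
    intro i T h
    have h1 : i < Ts.length := by
      by_contra hc
      rw [List.getElem?_eq_none (by omega)] at h
      cases h
    refine ⟨by omega, ?_⟩
    rw [hP i (by omega)]
    simp only [hPl]
    rw [List.getElem_append_left (by rw [List.length_map]; exact h1), List.getElem_map]
    rw [List.getElem?_eq_getElem h1] at h
    simp only [Option.some.injEq] at h
    rw [h]
  have hPO : ∀ i (hi : i < O.toList.length), P (K + i) = O.toList[i] := by
    intro i hi
    have hi' : i < D := by rwa [Finset.length_toList, hO3] at hi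
    rw [hP (K + i) (by omega)]
    simp only [hPl]
    rw [List.getElem_append_right (by rw [List.length_map]; omega)]
    congr 1
    rw [List.length_map, hTl]
    omega
  obtain ⟨j, g, hg, q, hq, hmask, hun⟩ := Adv.dir (n := m + 1) (N := K + D) (K := K + D)
    (by omega) le_rfl hN P hPinj _ hchk
  rw [mapR_eq] at hq
  have hgl : g < tab.length := by rw [htl]; exact hg
  have hget : (tab.map (wm v)).getD g [] = wm v tab[g] := by
    rw [List.getD_eq_getElem _ _ (by rw [List.length_map]; exact hgl), List.getElem_map]
  rw [hget] at hq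
  obtain ⟨e, he⟩ : ∃ e, e = tab[g] := ⟨_, rfl⟩
  rw [← he] at hq
  obtain ⟨hbits, hrow⟩ := htab g hg e (by rw [he]; exact List.getElem?_eq_getElem hgl)
  obtain ⟨x, hx⟩ := wm_spec hq
  rw [hbits] at hx
  obtain ⟨hne, hy, hgm⟩ := tst_iff hx
  obtain ⟨bs, hbs⟩ : ∃ bs, bs = bitsG K g := ⟨_, rfl⟩
  rw [← hbs] at hx hy hgm
  have hbl : bs.length = Ts.length := by rw [hbs, bitsG_length, hTl]
  have hblv : bs.length = v.length := by rw [hbs, bitsG_length, hv]
  let b : Bool := P 0 j ^^ x
  have hside : ∀ i, i < K + D → ∀ y : Bool, (2 * g).testBit i = (y ^^ x) → P i j = (y ^^ b) := by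
    intro i hi y h
    rw [hmask i hi] at h
    exact bool_aux1 _ _ _ _ h
  have hpos : ∀ y : Bool, ∀ p ∈ selB (y ^^ x) bs Ts 1, p.1.pos j = (y ^^ b) ∧
      ∃ i < K, P i = p.1.pos ∧ p.2 = 2 ^ i := by
    intro y p hp
    obtain ⟨i, h1, h2, h3⟩ := selB_mem (y ^^ x) bs Ts 0 (by simpa using hp)
    rw [hbs] at h1
    obtain ⟨h4, h5⟩ := bitsG_get h1
    obtain ⟨h6, h7⟩ := hPT i _ h2
    exact ⟨by rw [← h7]; exact hside i (by omega) y h5, i, h6, h7, by simpa using h3⟩
  let PX : List (LRT (Fin (m + 1) → Bool) × Bool) :=
    (selB x bs Ts 1).map fun p => (p.1, Nat.beq (Nat.land q p.2) 0)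
  let TY : List (LRT (Fin (m + 1) → Bool)) := (selB (!x) bs Ts 1).map Prod.fst
  have hPXf : PX.map Prod.fst = (selB x bs Ts 1).map Prod.fst := by
    simp only [PX, List.map_map]
    rfl
  have hperm : (PX.map Prod.fst ++ TY).Perm Ts := by
    rw [hPXf]
    exact selB_perm x bs Ts 1 hbl
  have hx0 : (false ^^ x) = x := by cases x <;> rfl
  have hx1 : (true ^^ x) = !x := by cases x <;> rfl
  have hcount : ∀ y : Bool, (O.filter fun z => z j = (y ^^ b)).card = sft K D g (y ^^ x) := by
    intro y
    unfold sft
    refine card_side j (y ^^ b) hO3 (f := fun i => (2 * g).testBit (K + i)) ?_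
    intro i hi
    have hi' : i < D := by rwa [Finset.length_toList, hO3] at hi
    rw [← hPO i hi]
    constructor
    · intro h
      rw [hmask (K + i) (by omega), h]
      exact bool_aux2 _ _ _
    · intro h
      exact hside (K + i) (by omega) y h
  have hXV : List.Forall₂ (fun (p : LRT (Fin (m + 1) → Bool) × Bool) n => LRT.size p.1 ≤ n) PX
      ((selB x bs v 1).map Prod.fst) := by
    simp only [PX]
    rw [List.forall₂_map_left_iff, List.forall₂_map_right_iff]
    exact (selB_forall₂ x bs hsz 1).imp fun _ _ h => h.1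
  have hYV : List.Forall₂ (fun (T : LRT (Fin (m + 1) → Bool)) n => LRT.size T ≤ n) TY
      ((selB (!x) bs v 1).map Prod.fst) := by
    simp only [TY]
    rw [List.forall₂_map_left_iff, List.forall₂_map_right_iff]
    exact (selB_forall₂ (!x) bs hsz 1).imp fun _ _ h => h.1
  have hA : (actL q (selB x bs v 1)).Perm (List.zipWith
      (fun (p : LRT (Fin (m + 1) → Bool) × Bool) n => actN p.2 n) PX
        ((selB x bs v 1).map Prod.fst)) := by
    have h1 : List.zipWith (fun (p : LRT (Fin (m + 1) → Bool) × Bool) n => actN p.2 n) PX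
        ((selB x bs v 1).map Prod.fst) =
        (selB x bs v 1).map fun p => actN (Nat.beq (Nat.land q p.2) 0) p.1 := by
      have h2 := selB_forall₂ x bs hsz 1
      simp only [PX]
      generalize selB x bs Ts 1 = L1 at h2
      generalize selB x bs v 1 = L2 at h2
      induction h2 with
      | nil => rfl
      | cons h _ ih =>
        simp only [List.map_cons, List.zipWith_cons_cons, h.2]
        rw [ih]
    rw [h1]
    exact actL_perm q _
  obtain ⟨S, hS⟩ := dir_emb (s := s) hL j b (PX := PX) (TY := TY) (O := O)
    (by rw [(hperm.map LRT.pos).nodup_iff]; exact hnd)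
    (fun T hT => hok T (hperm.mem_iff.1 hT)) (fun T hT => hpth T (hperm.mem_iff.1 hT))
    (by rw [nspec_perm hperm]; exact hspec)
    (by
      intro T hT
      rw [hPXf] at hT
      obtain ⟨p, hp, rfl⟩ := List.mem_map.1 hT
      have := (hpos false p (by rw [hx0]; exact hp)).1
      simpa using this)
    (by
      intro T hT
      obtain ⟨p, hp, rfl⟩ := List.mem_map.1 hT
      have := (hpos true p (by rw [hx1]; exact hp)).1
      simpa using this)
    (by rw [softs_perm hperm, poss_perm hperm]; exact hO1)
    (by
      rw [poss_perm hperm, Finset.disjoint_left]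
      exact hOd)
    (by
      intro T hT F hF
      rw [poss_perm hperm]
      exact hclean T (hperm.mem_iff.1 hT) F hF)
    (by
      intro p hp hflip
      obtain ⟨p', hp', rfl⟩ := List.mem_map.1 hp
      obtain ⟨-, i, hi, h1, h2⟩ := hpos false p' (by rw [hx0]; exact hp')
      simp only
      by_contra hcon
      have h3 : q.testBit i = true := by
        rw [h2] at hcon
        by_contra h4
        apply hcon
        rw [Nat.beq_eq]
        apply Nat.eq_of_testBit_eq
        intro k
        have e1 : Nat.land q (2 ^ i) = q &&& 2 ^ i := rfl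
        rw [e1, Nat.testBit_and, Nat.testBit_two_pow]
        by_cases hk : i = k
        · subst hk
          simp only [Nat.zero_testBit, Bool.and_eq_false_imp]
          exact fun h5 => absurd h5 h4
        · simp [hk]
      rcases Finset.mem_union.1 hflip with h4 | h4
      · obtain ⟨T, hT, h5⟩ := mem_poss.1 h4
        obtain ⟨p2, hp2, rfl⟩ := List.mem_map.1 hT
        obtain ⟨-, i2, hi2, h6, -⟩ := hpos true p2 (by rw [hx1]; exact hp2)
        refine hun i (by omega) h3 i2 (by omega) ?_
        rw [h1, h6]
        exact h5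
      · obtain ⟨k, hk, h5⟩ := List.getElem_of_mem (Finset.mem_toList.2 h4)
        have hk' : k < D := by rwa [Finset.length_toList, hO3] at hk
        refine hun i (by omega) h3 (K + k) (by omega) ?_
        rw [hPO k hk, h5, h1])
    hXV hYV (row := e.row x) (by
      have h1 := hcount false
      have h2 := hcount true
      rw [hx0] at h1
      rw [hx1] at h2
      have e1 : (false ^^ b) = b := by cases b <;> rfl
      have e2 : (true ^^ b) = !b := by cases b <;> rfl
      rw [e1] at h1
      rw [e2] at h2
      rw [h1, h2, List.length_map, List.length_map, selB_length x bs v 1 hblv,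
        selB_length (!x) bs v 1 hblv, hbs]
      exact hrow x) hA (by rw [← sumF_eq]; exact hy) (by rw [← sumF_eq, ← sumF_eq]; exact hgm)
  exact ⟨S, hS.perm hperm⟩

end Pool.Agent.Work.MP_bf01b2_co.MR
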