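import Pool.Agent.Work.MP_bf01b2_co.MR.State

/-!
# Marks recursion: the level lemma in counts
-/

set_option autoImplicit false

namespace Pool.Agent.Work.MP_bf01b2_co.MR

/-- does the label contain a position of the side `b`? -/
def meets {m : ℕ} (j : Fin (m + 1)) (b : Bool) (F : Finset (Fin (m + 1) → Bool)) : Bool :=
  decide (∃ y ∈ F, y j = b)

/-- Cutting of a forest, cores only: entries `(restricted?, l, r)` for the roots; `sz` = sizes after
the cutting, `us` = pieces. The root of a piece has no (relevant) hole child, a restricted root
loses no child. -/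
inductive FCutR : List (Bool × HT × HT) → List ℕ → List HT → Prop
  | nil : FCutR [] [] []
  | cons {ρ : Bool} {l r l' r' : HT} {ps qs us : List HT} {rest : List (Bool × HT × HT)}
      {sz : List ℕ} (hl : CutsR l l' ps) (hr : CutsR r r' qs) (hok : (HT.node l' r').ok)
      (hρ : ρ = true → l' ≠ .hole ∧ r' ≠ .hole) (h : FCutR rest sz us) :
      FCutR ((ρ, l, r) :: rest) ((l'.size + r'.size + 1) :: sz) (ps ++ qs ++ us)

/-- labels of the old holes -/
def olds {V : Type*} : List (LT V) → List (Finset V)
  | [] => []
  | .hole F :: L => F :: olds L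
  | _ :: L => olds L

section
variable {V : Type*}

theorem olds_append : ∀ L M : List (LT V), olds (L ++ M) = olds L ++ olds M
  | [], M => rfl
  | .nil :: L, M => by simpa [olds] using olds_append L M
  | .hole F :: L, M => by simpa [olds] using olds_append L M
  | .node l r :: L, M => by simpa [olds] using olds_append L M

theorem countP_split (c : Finset V → Bool) : ∀ L : List (LT V),
    (L.flatMap LT.labs).countP c = (olds L).countP c + ((pieces L).flatMap LT.labs).countP c
  | [] => rfl
  | .nil :: L => by simpa [olds, pieces, LT.labs] using countP_split c L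
  | .hole F :: L => by
    simp only [olds, pieces, List.flatMap_cons, LT.labs, List.countP_append, List.countP_cons,
      List.countP_nil, countP_split c L]
    omega
  | .node l r :: L => by
    simp only [olds, pieces, List.flatMap_cons, List.countP_append, countP_split c L]
    omega

theorem countP_rel {nl : LT V → Finset V} (c : Finset V → Bool) : ∀ {ls : List (Finset V)}
    {L : List (LT V)}, List.Forall₂ (HoleRel nl) ls L →
    ls.countP c ≤ (olds L).countP c + (pieces L).length
  | [], [], _ => by simp
  | F :: ls, u :: L, h => by
    rw [List.forall₂_cons] at h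
    have ih := countP_rel c h.2
    rcases h.1 with rfl | ⟨l, r, rfl, rfl⟩
    · simp only [olds, pieces, List.countP_cons]
      omega
    · simp only [olds, pieces, List.countP_cons, List.length_cons]
      split_ifs <;> omega

/-- every label of the cut forest is an old one or that of a piece -/
theorem mem_rel {nl : LT V → Finset V} : ∀ {ls : List (Finset V)}
    {L : List (LT V)}, List.Forall₂ (HoleRel nl) ls L → ∀ F ∈ ls,
    F ∈ olds L ∨ ∃ u ∈ pieces L, F = nl u
  | [], [], _, F, hF => by simp at hF
  | G :: ls, u :: L, h, F, hF => by
    rw [List.forall₂_cons] at h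
    rcases List.mem_cons.1 hF with rfl | hF
    · rcases h.1 with rfl | ⟨l, r, rfl, h2⟩
      · exact Or.inl (by simp [olds])
      · exact Or.inr ⟨.node l r, by simp [pieces], h2⟩
    · rcases mem_rel h.2 F hF with h3 | ⟨w, h3, h4⟩
      · left
        cases u <;> simp [olds, h3]
      · right
        refine ⟨w, ?_, h4⟩
        cases u <;> simp [pieces, h3]

theorem mem_olds : ∀ {L : List (LT V)} {F : Finset V}, F ∈ olds L → F ∈ L.flatMap LT.labs
  | [], F, h => by simp [olds] at h
  | .nil :: L, F, h => by
    simp only [olds] at h
    simpa [LT.labs] using mem_olds h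
  | .hole G :: L, F, h => by
    simp only [olds, List.mem_cons] at h
    rw [List.flatMap_cons, List.mem_append]
    rcases h with rfl | h
    · exact Or.inl (by simp [LT.labs])
    · exact Or.inr (mem_olds h)
  | .node l r :: L, F, h => by
    simp only [olds] at h
    rw [List.flatMap_cons, List.mem_append]
    exact Or.inr (mem_olds h)

theorem mem_pieces : ∀ {L : List (LT V)} {u : LT V}, u ∈ pieces L → u ∈ L
  | [], u, h => by simp [pieces] at h
  | .nil :: L, u, h => by
    simp only [pieces] at h
    exact List.mem_cons_of_mem _ (mem_pieces h)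
  | .hole G :: L, u, h => by
    simp only [pieces] at h
    exact List.mem_cons_of_mem _ (mem_pieces h)
  | .node l r :: L, u, h => by
    simp only [pieces, List.mem_cons] at h
    rcases h with rfl | h
    · exact List.mem_cons_self
    · exact List.mem_cons_of_mem _ (mem_pieces h)

theorem LCut.hole_inv {nl : LT V → Finset V} {t : LT V} {F : Finset V} {L : List (LT V)}
    (h : LCut nl t (.hole F) L) : (t = .hole F ∧ L = [.hole F]) ∨
      ∃ l r, t = .node l r ∧ F = nl (.node l r) ∧ L = [.node l r] := by
  cases h with
  | hole => exact Or.inl ⟨rfl, rfl⟩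
  | cut l r => exact Or.inr ⟨l, r, rfl, rfl, rfl⟩

end

/-- the entry of a root for the cutting -/
def cdat {m : ℕ} (j : Fin (m + 1)) (b : Bool) (Z : Finset (Fin (m + 1) → Bool))
    (U : LRT (Fin (m + 1) → Bool)) : Bool × HT × HT :=
  (decide (flip j U.pos ∈ Z), U.l.core (meets j (!b)), U.r.core (meets j (!b)))

/-- lifting of a cutting of the cores -/
theorem FCutR.lift {m : ℕ} (j : Fin (m + 1)) (b : Bool) {TY : List (LRT (Fin (m + 1) → Bool))} :
    ∀ {Us : List (LRT (Fin (m + 1) → Bool))} {sz : List ℕ} {us : List HT},
      (∀ U ∈ Us, U.pos j = b) → (∀ U ∈ Us, RootOK U) →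
      FCutR (Us.map (cdat j b (poss TY))) sz us →
      ∃ Us' L, LFCut (nlab j TY) Us Us' L ∧ (pieces L).map (LT.core (meets j (!b))) = us ∧
        (∀ u ∈ pieces L, Free (meets j (!b)) u) ∧ Us'.map LRT.size = sz ∧ ∀ U ∈ Us', RootOK U
  | [], sz, us, _, _, h => by
    rw [List.map_nil] at h
    cases h
    exact ⟨[], [], .nil, rfl, by simp [pieces], rfl, by simp⟩
  | U :: Us, sz, us, hb, hr, h => by
    rw [List.map_cons] at h
    unfold cdat at h
    cases h with
    | @cons _ _ _ l' r' ps qs us' _ sz' hl hrr hok hρ h =>
      obtain ⟨Us', L, c1, c2, c3, c4, c5⟩ := FCutR.lift j b (fun V hV => hb V (List.mem_cons_of_mem _ hV))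
        (fun V hV => hr V (List.mem_cons_of_mem _ hV)) h
      obtain ⟨hne, hok1, hok2⟩ := hok
      obtain ⟨t1, L1, d1, e1, f1, g1, -, s1⟩ := lift_cut (nlab j TY) _ U.l hl hok1
      obtain ⟨t2, L2, d2, e2, f2, g2, -, s2⟩ := lift_cut (nlab j TY) _ U.r hrr hok2
      refine ⟨⟨U.pos, t1, t2⟩ :: Us', (L1 ++ L2) ++ L, .cons rfl (.node d1 d2 ?_) c1, ?_, ?_, ?_, ?_⟩
      · rintro ⟨⟨x, y, hL1, F, hF⟩, ⟨x', y', hL2, F', hF'⟩⟩
        exact hne ⟨g1 ⟨x, y, hL1, F, hF⟩, g2 ⟨x', y', hL2, F', hF'⟩⟩
      · rw [pieces_append, pieces_append, List.map_append, List.map_append, e1, e2, c2]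
      · intro u hu
        rw [pieces_append, pieces_append, List.mem_append, List.mem_append] at hu
        rcases hu with (hu | hu) | hu
        · exact f1 u hu
        · exact f2 u hu
        · exact c3 u hu
      · rw [List.map_cons, c4]
        congr 1
        simp only [LRT.size, s1, s2]
      · intro W hW
        rcases List.mem_cons.1 hW with rfl | hW
        · have hUb := hb U List.mem_cons_self
          have hUr := hr U List.mem_cons_self
          -- a new hole below the root
          have key : ∀ (t t' : LT (Fin (m + 1) → Bool)) (h' : HT) (M : List (LT (Fin (m + 1) → Bool))),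
              U.pos ∉ t.top → LCut (nlab j TY) t t' M →
              ((∃ x y, M = [.node x y] ∧ ∃ F, t' = .hole F) → h' = .hole) →
              (∀ u ∈ pieces M, Free (meets j (!b)) u) →
              (decide (flip j U.pos ∈ poss TY) = true → h' ≠ .hole) → U.pos ∉ t'.top := by
            intro t t' h' M ht hc hg hf hρ' hmem
            cases t' with
            | nil => simp [LT.top] at hmem
            | node _ _ => simp [LT.top] at hmem
            | hole F =>
              simp only [LT.top] at hmem
              rcases hc.hole_inv with ⟨rfl, rfl⟩ | ⟨x, y, rfl, rfl, rfl⟩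
              · exact ht hmem
              · have h1 : h' = .hole := hg ⟨x, y, rfl, _, rfl⟩
                have h2 : flip j U.pos ∉ poss TY := by
                  intro h3
                  exact hρ' (by simpa using h3) h1
                unfold nlab at hmem
                obtain ⟨z, hz, hzU⟩ := Finset.mem_image.1 hmem
                have h4 : z = flip j U.pos := by rw [← hzU, flip_flip]
                rcases Finset.mem_union.1 hz with h5 | h5
                · exact h2 (h4 ▸ h5)
                · have h6 := hf (.node x y) (by simp [pieces]) x y rfl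
                  have h7 : z j = !b := by rw [h4, flip_apply_self, hUb]
                  simp only [LT.rootLab, Finset.mem_union] at h5
                  rcases h5 with h5 | h5
                  · cases x with
                    | nil => simp [LT.top] at h5
                    | node _ _ => simp [LT.top] at h5
                    | hole G =>
                      simp only [LT.top] at h5
                      have h8 := h6.1 G rfl
                      unfold meets at h8
                      rw [decide_eq_false_iff_not] at h8
                      exact h8 ⟨z, h5, h7⟩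
                  · cases y with
                    | nil => simp [LT.top] at h5
                    | node _ _ => simp [LT.top] at h5
                    | hole G =>
                      simp only [LT.top] at h5
                      have h8 := h6.2 G rfl
                      unfold meets at h8
                      rw [decide_eq_false_iff_not] at h8
                      exact h8 ⟨z, h5, h7⟩
          exact ⟨key U.l t1 l' L1 hUr.1 d1 g1 f1 (fun h => (hρ h).1),
            key U.r t2 r' L2 hUr.2 d2 g2 f2 (fun h => (hρ h).2)⟩
        · exact c5 W hW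

/-! ### Restriction to a half -/

section res
variable {m : ℕ} {j : Fin (m + 1)} {b : Bool}

theorem resT_size (T : LRT (Fin (m + 1) → Bool)) : (resT j b T).size = T.size := by
  simp only [resT, LRT.mapL, LRT.size, LT.size, LT.mapL_shape]

theorem resT_ok {T : LRT (Fin (m + 1) → Bool)} (hT : T.pos j = b) (h : RootOK T) :
    RootOK (resT j b T) := by
  have key : ∀ t : LT (Fin (m + 1) → Bool), T.pos ∉ t.top → del j T.pos ∉ (t.mapL (resL j b)).top := by
    intro t ht h1
    cases t with
    | nil => simp [LT.mapL, LT.top] at h1
    | node _ _ => simp [LT.mapL, LT.top] at h1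
    | hole F =>
      simp only [LT.mapL, LT.top, mem_resL, ins_del hT] at h1
      exact ht h1
  exact ⟨key _ h.1, key _ h.2⟩

theorem mem_softs_res {Ts : List (LRT (Fin (m + 1) → Bool))} {x : Fin m → Bool} :
    x ∈ softs (Ts.map (resT j b)) ↔ ins j b x ∈ softs Ts := by
  unfold softs
  rw [mem_foldr_union, mem_foldr_union]
  unfold resT
  rw [flatMap_mapL]
  constructor
  · rintro ⟨F, hF, hx⟩
    obtain ⟨G, hG, rfl⟩ := List.mem_map.1 hF
    exact ⟨G, hG, mem_resL.1 hx⟩
  · rintro ⟨G, hG, hx⟩
    exact ⟨_, List.mem_map_of_mem hG, mem_resL.2 hx⟩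

theorem mem_poss_res {Ts : List (LRT (Fin (m + 1) → Bool))} (hT : ∀ T ∈ Ts, T.pos j = b)
    {x : Fin m → Bool} : x ∈ poss (Ts.map (resT j b)) ↔ ins j b x ∈ poss Ts := by
  rw [mem_poss, mem_poss]
  constructor
  · rintro ⟨T, h1, h2⟩
    obtain ⟨U, hU, rfl⟩ := List.mem_map.1 h1
    refine ⟨U, hU, ?_⟩
    rw [← h2]
    exact (ins_del (hT U hU)).symm
  · rintro ⟨U, hU, hx⟩
    refine ⟨_, List.mem_map_of_mem hU, ?_⟩
    show del j U.pos = x
    rw [hx, del_ins]

theorem nodup_res {Ts : List (LRT (Fin (m + 1) → Bool))} (hT : ∀ T ∈ Ts, T.pos j = b)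
    (h : (Ts.map LRT.pos).Nodup) : ((Ts.map (resT j b)).map LRT.pos).Nodup := by
  rw [List.map_map]
  have h1 : Ts.map (LRT.pos ∘ resT j b) = (Ts.map LRT.pos).map (del j) := by
    rw [List.map_map]
    rfl
  rw [h1]
  refine List.Nodup.map_on ?_ h
  intro x hx y hy hxy
  obtain ⟨T, hT', rfl⟩ := List.mem_map.1 hx
  obtain ⟨U, hU', rfl⟩ := List.mem_map.1 hy
  rw [← ins_del (hT T hT'), ← ins_del (hT U hU'), hxy]

theorem nspec_res (Ts : List (LRT (Fin (m + 1) → Bool))) :
    nspec (Ts.map (resT j b)) = (Ts.flatMap LRT.labs).countP (meets j b) := by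
  unfold nspec resT
  rw [flatMap_mapL, List.countP_map]
  congr 1
  ext F
  simp only [Function.comp, meets]
  congr 1
  rw [eq_iff_iff]
  constructor
  · intro h
    obtain ⟨x, hx⟩ := Finset.nonempty_iff_ne_empty.2 h
    exact ⟨_, mem_resL.1 hx, ins_self⟩
  · rintro ⟨y, hy, hyb⟩ h
    have : del j y ∈ resL j b F := mem_resL.2 (by rw [ins_del hyb]; exact hy)
    rw [h] at this
    exact absurd this (Finset.notMem_empty _)

theorem meets_ne {F : Finset (Fin (m + 1) → Bool)} (h : meets j b F = true) :
    decide (F ≠ ∅) = true := by
  unfold meets at h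
  rw [decide_eq_true_iff] at h ⊢
  obtain ⟨y, hy, _⟩ := h
  exact Finset.ne_empty_of_mem hy

end res

theorem hop_labs {V : Type*} {v : V} {T : LRT V} (h : ∃ x y, T.l = .node x y) (c : Finset V → Bool)
    (hc : c ∅ = false) : (hopT v T).labs.countP c + (hopR T).labs.countP c = T.labs.countP c := by
  obtain ⟨x, y, hxy⟩ := h
  unfold hopT hopR LRT.labs
  simp only [hxy, LT.labs, List.countP_append, List.countP_cons, List.countP_nil, hc]
  simp

theorem hops_labs {V : Type*} {σ : V → V} (c : Finset V → Bool) (hc : c ∅ = false) :
    ∀ {TH : List (LRT V)}, (∀ T ∈ TH, ∃ x y, T.l = .node x y) →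
      ((TH.map (fun T => hopT (σ T.pos) T)).flatMap LRT.labs).countP c +
        ((TH.map hopR).flatMap LRT.labs).countP c = (TH.flatMap LRT.labs).countP c
  | [], _ => rfl
  | T :: TH, h => by
    have ih := hops_labs (σ := σ) c hc (TH := TH) (fun U hU => h U (List.mem_cons_of_mem _ hU))
    have h1 := hop_labs (v := σ T.pos) (h T List.mem_cons_self) c hc
    simp only [List.map_cons, List.flatMap_cons, List.countP_append]
    omega

theorem mem_hop_labs {V : Type*} {v : V} {T : LRT V} (h : ∃ x y, T.l = .node x y) {F : Finset V}
    (hF : F ∈ (hopT v T).labs) : F ∈ T.labs := by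
  obtain ⟨x, y, hxy⟩ := h
  unfold hopT LRT.labs at hF
  simp only [hxy] at hF
  unfold LRT.labs
  rw [hxy]
  simp only [LT.labs, List.mem_append] at hF ⊢
  tauto

theorem mem_hopR_labs {V : Type*} {T : LRT V} {F : Finset V}
    (hF : F ∈ (hopR T).labs) : F = ∅ ∨ F ∈ T.labs := by
  unfold hopR LRT.labs at hF
  simp only [LT.labs, List.cons_append, List.nil_append, List.mem_cons] at hF
  unfold LRT.labs
  rcases hF with h | h
  · exact Or.inl h
  · exact Or.inr (List.mem_append_right _ h)

/-- **The level lemma in counts.** First side `b` with the trees `TX`, second side with the trees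
`TH` (which send their left child to the first side) and `TY`. -/
theorem level {m : ℕ} (j : Fin (m + 1)) (b : Bool)
    {TX TH TY : List (LRT (Fin (m + 1) → Bool))}
    (hnd : ((TX ++ (TH ++ TY)).map LRT.pos).Nodup)
    (hok : ∀ T ∈ TX ++ (TH ++ TY), RootOK T)
    (hTX : ∀ T ∈ TX, T.pos j = b) (hTH : ∀ T ∈ TH, T.pos j = !b)
    (hTHl : ∀ T ∈ TH, ∃ x y, T.l = .node x y)
    (hTHr : ∀ T ∈ TH, RootOK (hopT (flip j T.pos) T))
    (hTHm : ∀ T ∈ TH, flip j T.pos ∉ poss TX)
    (hTY : ∀ T ∈ TY, T.pos j = !b) {sz : List ℕ} {us : List HT}
    (hcut : FCutR ((TX ++ TH.map (fun T => hopT (flip j T.pos) T)).map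
      (cdat j b (poss TH ∪ poss TY))) sz us)
    {dX dY s DX : ℕ}
    (hdX : ((softs (TX ++ (TH ++ TY)) \ poss (TX ++ (TH ++ TY))).filter (fun x => x j = b)).card
      ≤ dX)
    (hdY : ((softs (TX ++ (TH ++ TY)) \ poss (TX ++ (TH ++ TY))).filter (fun x => x j = !b)).card
      ≤ dY)
    (hs : nspec (TX ++ (TH ++ TY)) ≤ s)
    (hDX : dX + (if us = [] then 0 else (poss TY \ (poss TX).image (flip j)).card) ≤ DX)
    (hXY : ∀ a c, a + c ≤ s → Gd m DX (a + us.length) sz ∧
      Gd m dY c (us.map HT.size ++ (TH.map (fun T => (hopR T).size) ++ TY.map LRT.size))) :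
    ∃ S, Emb (cadj (m + 1)) (TX ++ (TH ++ TY)) S := by
  classical
  obtain ⟨Us, hUs⟩ : ∃ Us, Us = TX ++ TH.map (fun T => hopT (flip j T.pos) T) := ⟨_, rfl⟩
  have hUb : ∀ U ∈ Us, U.pos j = b := by
    intro U hU
    rw [hUs] at hU
    rcases List.mem_append.1 hU with h | h
    · exact hTX U h
    · obtain ⟨T, hT, rfl⟩ := List.mem_map.1 h
      obtain ⟨x, y, hxy⟩ := hTHl T hT
      unfold hopT
      rw [hxy]
      simp only
      rw [flip_apply_self, hTH T hT, Bool.not_not]
  have hUok : ∀ U ∈ Us, RootOK U := by
    intro U hU
    rw [hUs] at hU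
    rcases List.mem_append.1 hU with h | h
    · exact hok U (List.mem_append_left _ h)
    · obtain ⟨T, hT, rfl⟩ := List.mem_map.1 h
      exact hTHr T hT
  have hhpos : ∀ T ∈ TH, (hopT (flip j T.pos) T).pos = flip j T.pos := by
    intro T hT
    obtain ⟨x, y, hxy⟩ := hTHl T hT
    unfold hopT
    rw [hxy]
  have hposR : poss (TH.map hopR ++ TY) = poss TH ∪ poss TY := by
    rw [poss_append]
    congr 1
    unfold poss
    rw [List.map_map]
    rfl
  obtain ⟨Us', L, c1, c2, c3, c4, c5⟩ := FCutR.lift j b (TY := TH.map hopR ++ TY) hUb hUok (by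
    rw [hposR, hUs]; exact hcut)
  have hlen : (pieces L).length = us.length := by rw [← c2, List.length_map]
  -- counts of the special vertices
  have hlabs : Us.flatMap LRT.labs = L.flatMap LT.labs := c1.graft.labs
  have hcount : (olds L).countP (fun F => decide (F ≠ ∅)) +
      (((pieces L).flatMap LT.labs).countP (fun F => decide (F ≠ ∅)) +
        nspec (TH.map hopR ++ TY)) ≤ s := by
    have e1 := countP_split (fun F : Finset (Fin (m + 1) → Bool) => decide (F ≠ ∅)) L
    rw [← hlabs, hUs, List.flatMap_append, List.countP_append] at e1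
    have e2 := hops_labs (σ := flip j) (fun F : Finset (Fin (m + 1) → Bool) => decide (F ≠ ∅))
      (by simp) hTHl
    have e3 : nspec (TX ++ (TH ++ TY)) = (TX.flatMap LRT.labs).countP (fun F => decide (F ≠ ∅)) +
        ((TH.flatMap LRT.labs).countP (fun F => decide (F ≠ ∅)) +
          (TY.flatMap LRT.labs).countP (fun F => decide (F ≠ ∅))) := by
      rw [nspec_append, nspec_append]; rfl
    have e4 : nspec (TH.map hopR ++ TY) =
        ((TH.map hopR).flatMap LRT.labs).countP (fun F => decide (F ≠ ∅)) +
          (TY.flatMap LRT.labs).countP (fun F => decide (F ≠ ∅)) := by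
      rw [nspec_append]; rfl
    omega
  obtain ⟨gX, gY⟩ := hXY _ _ hcount
  -- every old label is a label of the given forest
  have holdlab : ∀ F ∈ Us.flatMap LRT.labs, ∀ x ∈ F, x ∈ softs (TX ++ (TH ++ TY)) := by
    intro F hF x hx
    obtain ⟨U, hU, hFU⟩ := List.mem_flatMap.1 hF
    rw [hUs] at hU
    rcases List.mem_append.1 hU with h | h
    · exact mem_softs.2 ⟨U, List.mem_append_left _ h, F, hFU, hx⟩
    · obtain ⟨T, hT, rfl⟩ := List.mem_map.1 h
      exact mem_softs.2 ⟨T, List.mem_append_right _ (List.mem_append_left _ hT), F,
        mem_hop_labs (hTHl T hT) hFU, hx⟩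
  have hposs : poss (TX ++ (TH ++ TY)) = poss TX ∪ (poss TH ∪ poss TY) := by
    rw [poss_append, poss_append]
  have hsideX : ∀ x ∈ poss TX, x j = b := by
    intro x hx
    obtain ⟨T, hT, rfl⟩ := mem_poss.1 hx
    exact hTX T hT
  have hsideH : ∀ x ∈ poss TH, x j = !b := by
    intro x hx
    obtain ⟨T, hT, rfl⟩ := mem_poss.1 hx
    exact hTH T hT
  have hsideY : ∀ x ∈ poss TY, x j = !b := by
    intro x hx
    obtain ⟨T, hT, rfl⟩ := mem_poss.1 hx
    exact hTY T hT
  have hUs'pos : Us'.map LRT.pos = Us.map LRT.pos := c1.poss
  have hUs'b : ∀ U ∈ Us', U.pos j = b := by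
    intro U hU
    have h1 : U.pos ∈ Us'.map LRT.pos := List.mem_map_of_mem hU
    rw [hUs'pos] at h1
    obtain ⟨W, hW, hWU⟩ := List.mem_map.1 h1
    rw [← hWU]
    exact hUb W hW
  have hUs'poss : poss Us' = poss TX ∪ (poss TH).image (flip j) := by
    have e1 : poss Us' = poss Us := by unfold poss; rw [hUs'pos]
    rw [e1, hUs, poss_append]
    congr 1
    ext x
    rw [mem_poss, Finset.mem_image]
    constructor
    · rintro ⟨U, hU, rfl⟩
      obtain ⟨T, hT, rfl⟩ := List.mem_map.1 hU
      exact ⟨T.pos, mem_poss.2 ⟨T, hT, rfl⟩, (hhpos T hT).symm⟩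
    · rintro ⟨y, hy, rfl⟩
      obtain ⟨T, hT, rfl⟩ := mem_poss.1 hy
      exact ⟨_, List.mem_map_of_mem hT, hhpos T hT⟩
  refine step_hop j b hTX hTH hTHl hTY (TX' := Us') (L := L) (by rw [← hUs]; exact c1) ?_ ?_
  · -- first side
    apply gX (Us'.map (resT j b))
    · refine nodup_res hUs'b ?_
      rw [hUs'pos, hUs, List.map_append, List.map_map, List.nodup_append]
      rw [List.map_append, List.nodup_append, List.map_append, List.nodup_append] at hnd
      have e1 : TH.map (LRT.pos ∘ fun T => hopT (flip j T.pos) T) =
          (TH.map LRT.pos).map (flip j) := by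
        rw [List.map_map]
        refine List.map_congr_left fun T hT => ?_
        exact hhpos T hT
      refine ⟨hnd.1, ?_, ?_⟩
      · rw [e1]
        exact hnd.2.1.1.map (flip_injective j)
      · intro x hx y hy hxy
        subst hxy
        rw [e1] at hy
        obtain ⟨z, hz, rfl⟩ := List.mem_map.1 hy
        obtain ⟨T, hT, rfl⟩ := List.mem_map.1 hz
        apply hTHm T hT
        unfold poss
        exact List.mem_toFinset.2 hx
    · intro T hT
      obtain ⟨U, hU, rfl⟩ := List.mem_map.1 hT
      exact resT_ok (hUs'b U hU) (c5 U hU)
    · rw [← c4, List.forall₂_map_left_iff, List.forall₂_map_right_iff, List.forall₂_same]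
      intro U _
      rw [resT_size]
    · -- soft positions
      refine le_trans ?_ hDX
      have hsub : (softs (Us'.map (resT j b)) \ poss (Us'.map (resT j b))).image (ins j b) ⊆
          (softs (TX ++ (TH ++ TY)) \ poss (TX ++ (TH ++ TY))).filter (fun x => x j = b) ∪
            (if us = [] then ∅ else (poss TY \ (poss TX).image (flip j)).image (flip j)) := by
        intro y hy
        obtain ⟨x, hx, rfl⟩ := Finset.mem_image.1 hy
        rw [Finset.mem_sdiff, mem_softs_res, mem_poss_res hUs'b, hUs'poss] at hx
        obtain ⟨hx1, hx2⟩ := hx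
        unfold softs at hx1
        obtain ⟨F, hF, hxF⟩ := mem_foldr_union.1 hx1
        have hxX : ins j b x ∉ poss TX := fun h => hx2 (Finset.mem_union_left _ h)
        rcases mem_rel c1.rel F hF with h1 | ⟨u, hu, hFu⟩
        · apply Finset.mem_union_left
          rw [Finset.mem_filter, Finset.mem_sdiff]
          refine ⟨⟨holdlab F (by rw [hlabs]; exact mem_olds h1) _ hxF, ?_⟩, ins_self⟩
          rw [hposs, Finset.mem_union, Finset.mem_union]
          rintro (h | h | h)
          · exact hxX h
          · have := hsideH _ h
            rw [ins_self] at this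
            cases b <;> simp at this
          · have := hsideY _ h
            rw [ins_self] at this
            cases b <;> simp at this
        · apply Finset.mem_union_right
          have hne : us ≠ [] := by
            intro h
            rw [h, List.length_nil, List.length_eq_zero_iff] at hlen
            rw [hlen] at hu
            simp at hu
          rw [if_neg hne]
          rw [hFu] at hxF
          unfold nlab at hxF
          obtain ⟨z, hz, hzx⟩ := Finset.mem_image.1 hxF
          have hzj : z j = !b := by
            have : z = flip j (ins j b x) := by rw [← hzx, flip_flip]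
            rw [this, flip_apply_self, ins_self]
          rcases Finset.mem_union.1 hz with hz | hz
          · rw [hposR] at hz
            rcases Finset.mem_union.1 hz with hz | hz
            · exfalso
              apply hx2
              apply Finset.mem_union_right
              rw [← hzx]
              exact Finset.mem_image_of_mem _ hz
            · rw [← hzx]
              refine Finset.mem_image_of_mem _ (Finset.mem_sdiff.2 ⟨hz, fun h => ?_⟩)
              obtain ⟨w, hw, hwz⟩ := Finset.mem_image.1 h
              apply hxX
              rw [← hzx, ← hwz, flip_flip]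
              exact hw
          · exfalso
            have h6 := c3 u hu
            cases u with
            | nil => simp [LT.rootLab] at hz
            | hole _ => simp [LT.rootLab] at hz
            | node x' y' =>
              obtain ⟨h7, h8⟩ := h6 x' y' rfl
              simp only [LT.rootLab, Finset.mem_union] at hz
              rcases hz with hz | hz
              · cases x' with
                | nil => simp [LT.top] at hz
                | node _ _ => simp [LT.top] at hz
                | hole G =>
                  simp only [LT.top] at hz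
                  have h9 := h7 G rfl
                  unfold meets at h9
                  rw [decide_eq_false_iff_not] at h9
                  exact h9 ⟨z, hz, hzj⟩
              · cases y' with
                | nil => simp [LT.top] at hz
                | node _ _ => simp [LT.top] at hz
                | hole G =>
                  simp only [LT.top] at hz
                  have h9 := h8 G rfl
                  unfold meets at h9
                  rw [decide_eq_false_iff_not] at h9
                  exact h9 ⟨z, hz, hzj⟩
      have h1 := Finset.card_le_card hsub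
      rw [Finset.card_image_of_injective _ (ins j b).injective] at h1
      refine h1.trans ((Finset.card_union_le _ _).trans (Nat.add_le_add hdX ?_))
      split_ifs
      · simp
      · exact Finset.card_image_le
    · rw [nspec_res]
      refine (countP_rel (meets j b) c1.rel).trans ?_
      rw [hlen]
      refine Nat.add_le_add_right (List.countP_mono_left fun F _ h => meets_ne h) _
  · -- second side
    intro Ps hP1 hP2 hP3
    have hYb : ∀ T ∈ Ps ++ (TH.map hopR ++ TY), T.pos j = !b := by
      intro T hT
      rcases List.mem_append.1 hT with h | h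
      · exact (hP3 T h).1
      · rcases List.mem_append.1 h with h | h
        · obtain ⟨W, hW, rfl⟩ := List.mem_map.1 h
          exact hTH W hW
        · exact hTY T h
    have hPlab : Ps.flatMap LRT.labs = (pieces L).flatMap LT.labs := by
      rw [← hP1, List.flatMap_map]
      rfl
    apply gY ((Ps ++ (TH.map hopR ++ TY)).map (resT j (!b)))
    · refine nodup_res hYb ?_
      rw [List.map_append, List.nodup_append]
      rw [List.map_append, List.nodup_append] at hnd
      have e1 : (TH.map hopR ++ TY).map LRT.pos = (TH ++ TY).map LRT.pos := by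
        rw [List.map_append, List.map_append, List.map_map]
        rfl
      refine ⟨hP2, by rw [e1]; exact hnd.2.1, ?_⟩
      intro x hx y hy hxy
      subst hxy
      obtain ⟨P, hP, rfl⟩ := List.mem_map.1 hx
      obtain ⟨-, h1, h2, -⟩ := hP3 P hP
      rw [e1, List.map_append, List.mem_append] at hy
      rcases hy with hy | hy
      · exact h1 (by unfold poss; exact List.mem_toFinset.2 hy)
      · exact h2 (by unfold poss; exact List.mem_toFinset.2 hy)
    · intro T hT
      obtain ⟨U, hU, rfl⟩ := List.mem_map.1 hT
      refine resT_ok (hYb U hU) ?_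
      rcases List.mem_append.1 hU with h | h
      · exact (hP3 U h).2.2.2
      · rcases List.mem_append.1 h with h | h
        · obtain ⟨W, hW, rfl⟩ := List.mem_map.1 h
          exact ⟨by simp [hopR, LT.top],
            (hok W (List.mem_append_right _ (List.mem_append_left _ hW))).2⟩
        · exact hok U (List.mem_append_right _ (List.mem_append_right _ h))
    · rw [List.forall₂_map_left_iff]
      refine forall₂_append' ?_ (forall₂_append' ?_ ?_)
      · have e1 : us.map HT.size = Ps.map LRT.size := by
          rw [← c2, ← hP1, List.map_map, List.map_map]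
          refine List.map_congr_left fun P _ => ?_
          simp only [Function.comp, LT.core_size]
          rfl
        rw [e1, List.forall₂_map_right_iff, List.forall₂_same]
        intro P _
        rw [resT_size]
      · rw [List.forall₂_map_left_iff, List.forall₂_map_right_iff, List.forall₂_same]
        intro T _
        rw [resT_size]
      · rw [List.forall₂_map_right_iff, List.forall₂_same]
        intro T _
        rw [resT_size]
    · refine le_trans ?_ hdY
      have hsub : (softs ((Ps ++ (TH.map hopR ++ TY)).map (resT j (!b))) \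
          poss ((Ps ++ (TH.map hopR ++ TY)).map (resT j (!b)))).image (ins j (!b)) ⊆
          (softs (TX ++ (TH ++ TY)) \ poss (TX ++ (TH ++ TY))).filter (fun x => x j = !b) := by
        intro y hy
        obtain ⟨x, hx, rfl⟩ := Finset.mem_image.1 hy
        rw [Finset.mem_sdiff, mem_softs_res, mem_poss_res hYb, poss_append, hposR] at hx
        obtain ⟨hx1, hx2⟩ := hx
        rw [Finset.mem_filter, Finset.mem_sdiff]
        refine ⟨⟨?_, ?_⟩, ins_self⟩
        · obtain ⟨T, hT, F, hF, hxF⟩ := mem_softs.1 hx1
          rcases List.mem_append.1 hT with h | h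
          · refine holdlab F ?_ _ hxF
            rw [hlabs]
            have h1 : F ∈ Ps.flatMap LRT.labs := List.mem_flatMap.2 ⟨T, h, hF⟩
            rw [hPlab] at h1
            obtain ⟨u, hu, hFu⟩ := List.mem_flatMap.1 h1
            exact List.mem_flatMap.2 ⟨u, mem_pieces hu, hFu⟩
          · rcases List.mem_append.1 h with h | h
            · obtain ⟨W, hW, rfl⟩ := List.mem_map.1 h
              rcases mem_hopR_labs hF with rfl | hF
              · exact absurd hxF (Finset.notMem_empty _)
              · exact mem_softs.2 ⟨W, List.mem_append_right _ (List.mem_append_left _ hW), F, hF, hxF⟩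
            · exact mem_softs.2 ⟨T, List.mem_append_right _ (List.mem_append_right _ h), F, hF, hxF⟩
        · rw [hposs, Finset.mem_union]
          rintro (h | h)
          · have := hsideX _ h
            rw [ins_self] at this
            cases b <;> simp at this
          · exact hx2 (Finset.mem_union_right _ h)
      have h1 := Finset.card_le_card hsub
      rwa [Finset.card_image_of_injective _ (ins j (!b)).injective] at h1
    · rw [nspec_res, List.flatMap_append, List.countP_append, hPlab]
      refine Nat.add_le_add (List.countP_mono_left fun F _ h => meets_ne h) ?_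
      unfold nspec
      exact List.countP_mono_left fun F _ h => meets_ne h

end Pool.Agent.Work.MP_bf01b2_co.MR
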