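import Pool.Agent.Work.MP_bf01b2_co.MR.CutR
import Pool.Agent.Work.MP_bf01b2_co.MR.Level

/-!
# The multi tree game for hole free trees

`Sem Z B p M A`: `p` pieces are already cut, the second side has the total `M`, the active subtrees
have at least the sizes `A`. One can continue (one descending path in every active subtree) such
that after `n` further pieces of total size `t` we have `Z (p + n) ≤ M + t ≤ B (p + n)`. Deficits of
the actual sizes against the nominal ones are allowed, they lower `Z`.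
-/

set_option autoImplicit false

namespace Pool.Agent.Work.MP_bf01b2_co.MR

/-- the parents of the holes lie on one descending path -/
def HT.hp : HT → Prop
  | .nil => True
  | .hole => True
  | .node l r => ((l = .hole ∨ l.holes = 0) ∧ r.hp) ∨ ((r = .hole ∨ r.holes = 0) ∧ l.hp)

theorem hp_of_holes : ∀ {t : HT}, t.holes = 0 → t.hp
  | .nil, _ => trivial
  | .hole, _ => trivial
  | .node l r, h => by
    rw [HT.holes] at h
    exact Or.inl ⟨Or.inr (by omega), hp_of_holes (by omega)⟩

/-- a cutting of an active subtree along one descending path, the root stays -/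
def CutP (y y' : HT) (ps : List HT) : Prop := CutsR y y' ps ∧ y'.ok ∧ y' ≠ .hole ∧ y'.hp

theorem CutP.refl (y : HT) : CutP y y.clr [] :=
  ⟨CutsR.refl y, ok_of_holes (HT.clr_holes y), HT.clr_ne y, hp_of_holes (HT.clr_holes y)⟩

theorem CutP.left {l l' : HT} {ps : List HT} (h : CutP l l' ps) (r : HT) :
    CutP (.node l r) (.node l' r.clr) ps := by
  obtain ⟨h1, h2, h3, h4⟩ := h
  refine ⟨?_, ⟨fun h => h3 h.1, h2, ok_of_holes (HT.clr_holes r)⟩, by simp,
    Or.inr ⟨Or.inr (HT.clr_holes r), h4⟩⟩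
  simpa using CutsR.node h1 (CutsR.refl r)

theorem CutP.right {r r' : HT} {ps : List HT} (h : CutP r r' ps) (l : HT) :
    CutP (.node l r) (.node l.clr r') ps := by
  obtain ⟨h1, h2, h3, h4⟩ := h
  refine ⟨?_, ⟨fun h => h3 h.2, ok_of_holes (HT.clr_holes l), h2⟩, by simp,
    Or.inl ⟨Or.inr (HT.clr_holes l), h4⟩⟩
  simpa using CutsR.node (CutsR.refl l) h1

theorem cutsR_whole {a : HT} (h0 : a.holes = 0) (h1 : 1 ≤ a.size) : CutsR a .hole [a] := by
  cases a with
  | nil => simp [HT.size] at h1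
  | hole => simp [HT.size] at h1
  | node l r =>
    rw [HT.holes] at h0
    exact .cut l r (ne_hole_of_holes (by omega)) (ne_hole_of_holes (by omega))

/-- cut the left child, continue in the right one -/
theorem CutP.cutL {a b b' : HT} {ps : List HT} (h0 : a.holes = 0) (h1 : 1 ≤ a.size)
    (h : CutP b b' ps) : CutP (.node a b) (.node .hole b') (a :: ps) := by
  obtain ⟨c1, c2, c3, c4⟩ := h
  exact ⟨CutsR.node (cutsR_whole h0 h1) c1, ⟨fun h => c3 h.2, trivial, c2⟩, by simp,
    Or.inl ⟨Or.inl rfl, c4⟩⟩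

theorem CutP.cutR {a b b' : HT} {ps : List HT} (h0 : a.holes = 0) (h1 : 1 ≤ a.size)
    (h : CutP b b' ps) : CutP (.node b a) (.node b' .hole) (ps ++ [a]) := by
  obtain ⟨c1, c2, c3, c4⟩ := h
  exact ⟨CutsR.node c1 (cutsR_whole h0 h1), ⟨fun h => c3 h.1, c2, trivial⟩, by simp,
    Or.inr ⟨Or.inl rfl, c4⟩⟩

/-- **Descent.** In a tree with more than `R` vertices there is a vertex whose children `a ≥ b` have
at most `R` vertices each, together at least `R`; we cut `a` and continue in `b`. -/
theorem descend {R : ℕ} (hR : 1 ≤ R) : ∀ y : HT, y.holes = 0 → R < y.size →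
    ∃ a b : HT, a.holes = 0 ∧ b.holes = 0 ∧ b.size ≤ a.size ∧ a.size ≤ R ∧ R ≤ a.size + b.size ∧
      ∀ b' ps, CutP b b' ps → ∃ y' ps', CutP y y' ps' ∧ ps'.length = ps.length + 1 ∧
        tot ps' = tot ps + a.size
  | .nil, _, h => by simp [HT.size] at h
  | .hole, _, h => by simp [HT.size] at h
  | .node l r, h0, h => by
    rw [HT.holes] at h0
    have hl0 : l.holes = 0 := by omega
    have hr0 : r.holes = 0 := by omega
    by_cases h1 : R < l.size
    · obtain ⟨a, b, e1, e2, e3, e4, e5, f⟩ := descend hR l hl0 h1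
      refine ⟨a, b, e1, e2, e3, e4, e5, fun b' ps hb => ?_⟩
      obtain ⟨y', ps', g1, g2, g3⟩ := f b' ps hb
      exact ⟨_, ps', g1.left r, g2, g3⟩
    · by_cases h2 : R < r.size
      · obtain ⟨a, b, e1, e2, e3, e4, e5, f⟩ := descend hR r hr0 h2
        refine ⟨a, b, e1, e2, e3, e4, e5, fun b' ps hb => ?_⟩
        obtain ⟨y', ps', g1, g2, g3⟩ := f b' ps hb
        exact ⟨_, ps', g1.right l, g2, g3⟩
      · rw [HT.size] at h
        rcases le_total r.size l.size with hlr | hlr
        · refine ⟨l, r, hl0, hr0, hlr, by omega, by omega, fun b' ps hb => ?_⟩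
          refine ⟨_, _, hb.cutL hl0 (by omega), by simp, ?_⟩
          rw [tot_cons]; omega
        · refine ⟨r, l, hr0, hl0, hlr, by omega, by omega, fun b' ps hb => ?_⟩
          refine ⟨_, _, hb.cutR hr0 (by omega), by simp, ?_⟩
          rw [tot_append, tot_cons, tot_nil]; omega

/-- cuttings of all the active subtrees: number and total size of the pieces -/
def MC (ys : List HT) (n t : ℕ) : Prop :=
  ∃ zs : List (HT × List HT), List.Forall₂ (fun y z => CutP y z.1 z.2) ys zs ∧
    (zs.map fun z => z.2.length).sum = n ∧ (zs.map fun z => tot z.2).sum = t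

theorem MC.refl : ∀ ys : List HT, MC ys 0 0
  | [] => ⟨[], .nil, rfl, rfl⟩
  | y :: ys => by
    obtain ⟨zs, h1, h2, h3⟩ := MC.refl ys
    exact ⟨(y.clr, []) :: zs, .cons (CutP.refl y) h1, by simpa using h2, by simpa using h3⟩

theorem MC.zero {ys : List HT} {t : ℕ} (h : MC ys 0 t) : t = 0 := by
  obtain ⟨zs, -, h2, h3⟩ := h
  rw [← h3, List.sum_eq_zero_iff]
  intro x hx
  rw [List.sum_eq_zero_iff] at h2
  obtain ⟨z, hz, rfl⟩ := List.mem_map.1 hx
  have h4 := h2 _ (List.mem_map_of_mem hz)
  simp only [List.length_eq_zero_iff] at h4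
  rw [h4]; rfl

theorem MC.perm {ys ys' : List HT} {n t : ℕ} (hp : ys.Perm ys') (h : MC ys n t) : MC ys' n t := by
  obtain ⟨zs, h1, h2, h3⟩ := h
  have h4 : List.Forall₂ (fun z y => CutP y z.1 z.2) zs ys := h1.flip
  obtain ⟨zs', h5, h6⟩ := List.perm_comp_forall₂ hp.symm h1
  exact ⟨zs', h5, by rw [← h2]; exact (h6.map _).sum_eq, by rw [← h3]; exact (h6.map _).sum_eq⟩

theorem MC.step {y a b : HT} {ys : List HT} {n t : ℕ}
    (f : ∀ b' ps, CutP b b' ps → ∃ y' ps', CutP y y' ps' ∧ ps'.length = ps.length + 1 ∧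
        tot ps' = tot ps + a.size) (h : MC (b :: ys) n t) : MC (y :: ys) (n + 1) (t + a.size) := by
  obtain ⟨zs, h1, h2, h3⟩ := h
  cases h1 with
  | @cons _ z _ zs h1 h4 =>
    obtain ⟨y', ps', g1, g2, g3⟩ := f _ _ h1
    refine ⟨(y', ps') :: zs, .cons g1 h4, ?_, ?_⟩
    · rw [List.map_cons, List.sum_cons] at h2 ⊢
      simp only at h2 ⊢
      omega
    · rw [List.map_cons, List.sum_cons] at h3 ⊢
      simp only at h3 ⊢
      omega

/-- total deficit of the actual sizes against the nominal ones -/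
def dfc : List ℕ → List HT → ℕ
  | A :: As, y :: ys => (A - y.size) + dfc As ys
  | _, _ => 0

/-- The semantic game. -/
def Sem (Z B : ℕ → ℕ) (p M : ℕ) (A : List ℕ) : Prop :=
  ∀ (ys : List HT) (M' e : ℕ), ys.length = A.length → (∀ y ∈ ys, y.holes = 0) → M' ≤ M →
    dfc A ys + (M - M') ≤ e →
      ∃ n t, MC ys n t ∧ Z (p + n) ≤ M' + t + e ∧ (n = 0 ∨ M' + t ≤ B (p + n))

theorem Sem.stop {Z B : ℕ → ℕ} {p M : ℕ} {A : List ℕ} (h : Z p ≤ M) : Sem Z B p M A :=
  fun ys M' e _ _ _ h4 => ⟨0, 0, MC.refl ys, by rw [add_zero]; omega, Or.inl rfl⟩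

theorem dfc_perm {A A' : List ℕ} (h : A.Perm A') : ∀ {ys' : List HT}, ys'.length = A'.length →
    ∃ ys : List HT, ys.Perm ys' ∧ ys.length = A.length ∧ dfc A ys = dfc A' ys' := by
  induction h with
  | nil => intro ys' h; exact ⟨ys', List.Perm.refl _, h, rfl⟩
  | @cons x A A' h ih =>
    intro ys' hl
    cases ys' with
    | nil => simp at hl
    | cons y ys' =>
      obtain ⟨ys, h1, h2, h3⟩ := ih (ys' := ys') (by simpa using hl)
      exact ⟨y :: ys, h1.cons y, by simpa using h2, by simp only [dfc]; omega⟩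
  | swap x y A =>
    intro ys' hl
    match ys', hl with
    | u :: v :: ys', hl =>
      refine ⟨v :: u :: ys', List.Perm.swap _ _ _, by simpa using hl, ?_⟩
      simp only [dfc]; omega
  | trans _ _ ih1 ih2 =>
    intro ys' hl
    obtain ⟨ys1, h1, h2, h3⟩ := ih2 hl
    obtain ⟨ys2, h4, h5, h6⟩ := ih1 h2
    exact ⟨ys2, h4.trans h1, h5, h6.trans h3⟩

theorem Sem.perm {Z B : ℕ → ℕ} {p M : ℕ} {A A' : List ℕ} (hp : A.Perm A')
    (h : Sem Z B p M A) : Sem Z B p M A' := by
  intro ys' M' e h1 h2 h3 h4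
  obtain ⟨ys, h5, h6, h7⟩ := dfc_perm hp h1
  obtain ⟨n, t, g1, g2, g3⟩ := h ys M' e h6 (fun y hy => h2 y (h5.mem_iff.1 hy)) h3 (by omega)
  exact ⟨n, t, g1.perm h5, g2, g3⟩

/-- **One piece.** -/
theorem Sem.cut {Z B : ℕ → ℕ} (hZm : ∀ i, Z i ≤ Z (i + 1)) (hBm : ∀ i, B (i + 1) ≤ B i)
    {p M R S : ℕ} {As : List ℕ} (hR : 1 ≤ R) (hM : M + R ≤ B (p + 1)) (hS : R < S)
    (h : ∀ a, R ≤ 2 * a → a ≤ R → Sem Z B (p + 1) (M + a) ((R - a) :: As)) :
    Sem Z B p M (S :: As) := by
  intro ys M' e hl h0 hM' he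
  match ys, hl with
  | y :: ys, hl =>
    have hy0 := h0 y List.mem_cons_self
    simp only [dfc] at he
    by_cases hδ : R ≤ S - y.size
    · -- the tree is too small: skip
      obtain ⟨n, t, g1, g2, g3⟩ := h R (by omega) le_rfl (y :: ys) M' e (by simpa using hl) h0
        (by omega) (by simp only [dfc]; omega)
      refine ⟨n, t, g1, ?_, ?_⟩
      · have := hZm (p + n)
        rw [show p + 1 + n = p + n + 1 by omega] at g2
        omega
      · rcases g3 with g3 | g3
        · exact Or.inl g3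
        · right
          have := hBm (p + n)
          rw [show p + 1 + n = p + n + 1 by omega] at g3
          omega
    · obtain ⟨δ, hδd⟩ : ∃ δ, δ = S - y.size := ⟨_, rfl⟩
      rw [← hδd] at hδ he
      obtain ⟨a, b, e1, e2, e3, e4, e5, f⟩ := descend (R := R - δ) (by omega) y hy0 (by omega)
      obtain ⟨n, t, g1, g2, g3⟩ := h (a.size + δ) (by omega) (by omega) (b :: ys) (M' + a.size) e
        (by simpa using hl) (by
          intro z hz
          rcases List.mem_cons.1 hz with rfl | hz
          · exact e2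
          · exact h0 z (List.mem_cons_of_mem _ hz)) (by omega) (by simp only [dfc]; omega)
      refine ⟨n + 1, t + a.size, g1.step f, ?_, Or.inr ?_⟩
      · rw [show p + (n + 1) = p + 1 + n by omega]; omega
      · rcases g3 with g3 | g3
        · subst g3
          have := g1.zero
          rw [show p + (0 + 1) = p + 1 by omega]
          omega
        · rw [show p + (n + 1) = p + 1 + n by omega]; omega

/-! ### Cutting of a forest along one path per tree -/

/-- Cutting of a forest of hole free cores, one descending path per tree: entries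
`(restricted?, l, r)` for the roots; `sz` = sizes after the cutting, `us` = pieces. -/
inductive FCutP : List (Bool × HT × HT) → List ℕ → List HT → Prop
  | nil : FCutP [] [] []
  | cons {ρ : Bool} {l r l' r' : HT} {ps qs us : List HT} {rest : List (Bool × HT × HT)}
      {sz : List ℕ} (hl : CutsR l l' ps) (hr : CutsR r r' qs) (hok : (HT.node l' r').ok)
      (hρ : ρ = true → l' ≠ .hole ∧ r' ≠ .hole) (hp : (HT.node l' r').hp)
      (h : FCutP rest sz us) :
      FCutP ((ρ, l, r) :: rest) ((l'.size + r'.size + 1) :: sz) (ps ++ qs ++ us)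

theorem FCutP.toR {es : List (Bool × HT × HT)} {sz : List ℕ} {us : List HT}
    (h : FCutP es sz us) : FCutR es sz us := by
  induction h with
  | nil => exact .nil
  | cons hl hr hok hρ _ _ ih => exact .cons hl hr hok hρ ih

end Pool.Agent.Work.MP_bf01b2_co.MR
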