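import Pool.Agent.Work.MP_bf01b2_co.MR.LevelC
import Pool.Agent.Work.MP_bf01b2_co.MR.Gm

/-!
# Marks recursion: the level lemma for path states, copy mode, without hops

Interface for the kernel checker: the cutting is `FCutP` of the hole free cores.
-/

set_option autoImplicit false

namespace Pool.Agent.Work.MP_bf01b2_co.MR

theorem hp_iff_pth : ∀ t : HT, t.hp ↔ t.pth
  | .nil => Iff.rfl
  | .hole => Iff.rfl
  | .node l r => by
    have h1 := hp_iff_pth l
    have h2 := hp_iff_pth r
    simp only [HT.hp, HT.pth, HT.off, h1, h2]
    tauto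

/-- from `FCutP` to `FCutQ` -/
theorem FCutP.toQ {m : ℕ} {j : Fin (m + 1)} {b : Bool} {K Z : Finset (Fin (m + 1) → Bool)}
    {c : LRT (Fin (m + 1) → Bool) → Bool} :
    ∀ {Us : List (LRT (Fin (m + 1) → Bool))} {sz : List ℕ} {us : List HT},
      (∀ U ∈ Us, ∀ F ∈ U.labs, ∀ y ∈ F, y j = (!b) → y ∈ K) →
      (∀ U ∈ Us, flip j U.pos ∈ Z ∪ K → c U = true) →
      FCutP (Us.map fun U => (c U, U.l.core (fun _ => false), U.r.core (fun _ => false))) sz us →
      FCutQ HT.pth (Us.map (cdatK j b K Z)) sz us
  | [], sz, us, _, _, h => by
    rw [List.map_nil] at h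
    cases h
    exact .nil
  | U :: Us, sz, us, hK, hc, h => by
    rw [List.map_cons] at h
    cases h with
    | @cons _ _ _ l' r' ps qs us' _ sz' hl hr hok hρ hp h =>
      have ih := FCutP.toQ (K := K) (Z := Z) (fun W hW => hK W (List.mem_cons_of_mem _ hW))
        (fun W hW => hc W (List.mem_cons_of_mem _ hW)) h
      have hU := hK U List.mem_cons_self
      have el : U.l.core (relK j b K) = U.l.core fun _ => false :=
        LT.core_congr fun F hF => relK_false (hU F (by simp [LRT.labs, hF]))
      have er : U.r.core (relK j b K) = U.r.core fun _ => false :=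
        LT.core_congr fun F hF => relK_false (hU F (by simp [LRT.labs, hF]))
      rw [List.map_cons]
      unfold cdatK
      rw [el, er]
      refine .cons hl hr hok (fun hρ' => hρ (hc U List.mem_cons_self (by simpa using hρ')))
        ((hp_iff_pth _).1 hp) ih

theorem FCutP.length {es : List (Bool × HT × HT)} {sz : List ℕ} {us : List HT}
    (h : FCutP es sz us) : sz.length = es.length := by
  induction h with
  | nil => rfl
  | cons _ _ _ _ _ _ ih => rw [List.length_cons, List.length_cons, ih]

theorem unmatched_le {m : ℕ} (j : Fin m) (TX TY : List (LRT (Fin m → Bool))) :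
    (poss TY \ (poss TX).image (flip j)).card ≤ TY.length := by
  refine (Finset.card_le_card Finset.sdiff_subset).trans ?_
  unfold poss
  refine (List.toFinset_card_le _).trans ?_
  rw [List.length_map]

/-- **The level lemma for path states** (copy mode, no hops). `O` contains the soft positions, `un`
is a bound for the number of the roots of the second side without partner in the first side. -/
theorem levelF {m : ℕ} (j : Fin (m + 1)) (b : Bool)
    {TX TY : List (LRT (Fin (m + 1) → Bool))} (O : Finset (Fin (m + 1) → Bool)) {s un : ℕ}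
    (hnd : ((TX ++ TY).map LRT.pos).Nodup)
    (hok : ∀ T ∈ TX ++ TY, RootOK T)
    (hpth : ∀ T ∈ TX ++ TY, T.tree.pth) (hs : nspec (TX ++ TY) ≤ s)
    (hTX : ∀ T ∈ TX, T.pos j = b) (hTY : ∀ T ∈ TY, T.pos j = !b)
    (hO : softs (TX ++ TY) \ poss (TX ++ TY) ⊆ O) (hOd : Disjoint O (poss (TX ++ TY)))
    {sz : List ℕ} {us : List HT}
    (hcut : FCutP (TX.map (fun U => (decide (flip j U.pos ∈ poss TY ∨ flip j U.pos ∈ O),
      U.l.core (fun _ => false), U.r.core (fun _ => false)))) sz us)
    (hun : (poss TY \ (poss TX).image (flip j)).card ≤ un)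
    (hX0 : us = [] → GdP m (O.filter (fun x => x j = b)).card s sz)
    (hX1 : us ≠ [] → GdP m ((O.filter (fun x => x j = !b)).card + un) us.length
        (sz ++ List.replicate (O.filter (fun x => x j = b)).card 1) ∨
      (un = 0 ∧ O.filter (fun x => x j = !b) = ∅ ∧ GdP m (O.filter (fun x => x j = b)).card s sz))
    (hY : GdP m (O.filter (fun x => x j = !b)).card s (us.map HT.size ++ TY.map LRT.size)) :
    ∃ S, Emb (cadj (m + 1)) (TX ++ TY) S := by
  obtain ⟨K, hK⟩ : ∃ K, K = (softs (TX ++ TY)).filter (fun x => x j = !b) := ⟨_, rfl⟩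
  have hKsub : K ⊆ poss TY ∪ O.filter (fun x => x j = !b) := by
    intro x hx
    rw [hK, Finset.mem_filter] at hx
    by_cases h : x ∈ poss (TX ++ TY)
    · rw [poss_append, Finset.mem_union] at h
      rcases h with h | h
      · obtain ⟨T, hT, rfl⟩ := mem_poss.1 h
        have h1 := hx.2
        rw [hTX T hT] at h1
        cases b <;> simp at h1
      · exact Finset.mem_union_left _ h
    · refine Finset.mem_union_right _ (Finset.mem_filter.2 ⟨hO ?_, hx.2⟩)
      exact Finset.mem_sdiff.2 ⟨hx.1, h⟩
  have hlen : sz.length = TX.length := by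
    rw [hcut.length, List.length_map]
  -- room
  have hroom : sz.length + (O.filter (fun x => x j = b)).card ≤ 2 ^ m := by
    have e1 : (poss TX).card = TX.length := by
      unfold poss
      rw [List.map_append, List.nodup_append] at hnd
      rw [List.toFinset_card_of_nodup hnd.1, List.length_map]
    have e2 : Disjoint (poss TX) (O.filter (fun x => x j = b)) := by
      rw [Finset.disjoint_left]
      intro x hx hx'
      refine Finset.disjoint_left.1 hOd (Finset.mem_filter.1 hx').1 ?_
      rw [poss_append]
      exact Finset.mem_union_left _ hx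
    rw [hlen, ← e1, ← Finset.card_union_of_disjoint e2]
    have e3 : ∀ x ∈ poss TX ∪ O.filter (fun x => x j = b), x j = b := by
      intro x hx
      rcases Finset.mem_union.1 hx with h | h
      · obtain ⟨T, hT, rfl⟩ := mem_poss.1 h
        exact hTX T hT
      · exact (Finset.mem_filter.1 h).2
    have e4 : (poss TX ∪ O.filter (fun x => x j = b)) ⊆
        (Finset.univ : Finset (Fin m → Bool)).map (ins j b) := by
      intro x hx
      rw [Finset.mem_map]
      exact ⟨del j x, Finset.mem_univ _, ins_del (e3 x hx)⟩
    refine (Finset.card_le_card e4).trans ?_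
    rw [Finset.card_map, Finset.card_univ]
    simp
  have hsoft : ∀ c : Bool, ((softs (TX ++ ([] ++ TY)) \ poss (TX ++ ([] ++ TY))).filter
      (fun x => x j = c)).card ≤ (O.filter (fun x => x j = c)).card := by
    intro c
    rw [List.nil_append]
    exact Finset.card_le_card (Finset.filter_subset_filter _ hO)
  have key := levelP (Q := HT.pth) j b K (TX := TX) (TH := []) (TY := TY) (sz := sz) (us := us)
    (new := (O.filter (fun x => x j = !b)).card + un) (s := s)
    (by rw [List.nil_append]; exact hnd) (by rw [List.nil_append]; exact hok)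
    (by rw [List.nil_append]; exact hpth) hTX (by simp) (by simp) (by simp) (by simp) hTY
    (by
      rw [List.map_nil, List.append_nil]
      refine FCutP.toQ (c := fun U => decide (flip j U.pos ∈ poss TY ∨ flip j U.pos ∈ O)) ?_ ?_ hcut
      · intro U hU F hF y hy hyb
        rw [hK, Finset.mem_filter]
        exact ⟨mem_softs.2 ⟨U, List.mem_append_left _ hU, F, hF, hy⟩, hyb⟩
      · intro U _ h
        rw [decide_eq_true_iff]
        have h1 : poss ([] : List (LRT (Fin (m + 1) → Bool))) = ∅ := rfl
        rw [h1, Finset.empty_union] at h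
        rcases Finset.mem_union.1 h with h | h
        · exact Or.inl h
        · rcases Finset.mem_union.1 (hKsub h) with h | h
          · exact Or.inl h
          · exact Or.inr (Finset.mem_filter.1 h).1)
    (hsoft b) (hsoft (!b)) (by rw [List.nil_append]; exact hs) (by
      intro _
      have h1 : poss ([] : List (LRT (Fin (m + 1) → Bool))) = ∅ := rfl
      rw [h1, Finset.union_empty]
      have h2 : (poss TY ∪ K) \ (poss TX).image (flip j) ⊆
          O.filter (fun x => x j = !b) ∪ (poss TY \ (poss TX).image (flip j)) := by
        intro x hx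
        rw [Finset.mem_sdiff, Finset.mem_union] at hx
        rw [Finset.mem_union, Finset.mem_sdiff]
        rcases hx.1 with h | h
        · exact Or.inr ⟨h, hx.2⟩
        · rcases Finset.mem_union.1 (hKsub h) with h | h
          · exact Or.inr ⟨h, hx.2⟩
          · exact Or.inl h
      exact (Finset.card_le_card h2).trans ((Finset.card_union_le _ _).trans
        (Nat.add_le_add_left hun _)))
    (by
      intro a c hac
      have hnn : ∀ n k : ℕ, (if n = 0 then 0 else k) ≤ k := by
        intro n k
        split_ifs
        · exact Nat.zero_le _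
        · exact le_rfl
      refine ⟨?_, ?_⟩
      · by_cases hus : us = []
        · exact Or.inl ⟨Or.inl hus, (hX0 hus).mono le_rfl ((hnn _ _).trans (by omega))
            (forall₂_le_refl _)⟩
        · rcases hX1 hus with h | ⟨h1, h2, h3⟩
          · refine Or.inr (Or.inl ⟨fun _ h => h, hroom, ?_⟩)
            rw [if_neg hus]
            exact h.mono le_rfl (hnn _ _) (forall₂_le_refl _)
          · refine Or.inl ⟨Or.inr (by rw [h1, h2]; rfl), h3.mono le_rfl
              ((hnn _ _).trans (by omega)) (forall₂_le_refl _)⟩
      · simp only [List.map_nil, List.nil_append]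
        exact hY.mono le_rfl ((hnn _ _).trans (by omega)) (forall₂_le_refl _))
  rwa [List.nil_append] at key

end Pool.Agent.Work.MP_bf01b2_co.MR
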