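import Pool.Agent.Work.MP_bf01b2_co.MR.GdO

/-!
# Marks recursion: the level lemma with one path per soft position

The old soft positions of the first side stay soft, except a set `H` of positions which are replaced by
trees with one vertex. `H` has to contain all soft positions of the first side whose partner is a root
or a soft position of the second side (if something is cut).
-/

set_option autoImplicit false

namespace Pool.Agent.Work.MP_bf01b2_co.MR

/-- the marks of the second side without partner -/
def newM {m : ℕ} (j : Fin (m + 1)) (b : Bool) (TX TH TY : List (LRT (Fin (m + 1) → Bool)))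
    (O : Finset (Fin (m + 1) → Bool)) : Finset (Fin (m + 1) → Bool) :=
  (poss TY ∪ O.filter (fun x => x j = !b)) \
    ((poss TX ∪ O.filter (fun x => x j = b)).image (flip j) ∪ poss TH)

theorem levelO {m : ℕ} {Q : HT → Prop} (j : Fin (m + 1)) (b : Bool)
    {TX TH TY : List (LRT (Fin (m + 1) → Bool))} (O : Finset (Fin (m + 1) → Bool))
    (hnd : ((TX ++ (TH ++ TY)).map LRT.pos).Nodup)
    (hok : ∀ T ∈ TX ++ (TH ++ TY), RootOK T)
    (honp : ∀ T ∈ TX ++ (TH ++ TY), ∀ x, T.tree.onp x)
    (hclean : ∀ T ∈ TX ++ (TH ++ TY), ∀ F ∈ T.labs, Disjoint F (poss (TX ++ (TH ++ TY))))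
    (hTX : ∀ T ∈ TX, T.pos j = b) (hTH : ∀ T ∈ TH, T.pos j = !b)
    (hTHl : ∀ T ∈ TH, ∃ x y, T.l = .node x y)
    (hTHr : ∀ T ∈ TH, RootOK (hopT (flip j T.pos) T))
    (hTHm : ∀ T ∈ TH, flip j T.pos ∉ poss TX)
    (hTY : ∀ T ∈ TY, T.pos j = !b) {sz : List ℕ} {us : List HT}
    (hcut : FCutQ Q ((TX ++ TH.map (fun T => hopT (flip j T.pos) T)).map
      (cdatK j b (O.filter (fun x => x j = !b)) (poss TH ∪ poss TY))) sz us)
    (hO : softs (TX ++ (TH ++ TY)) \ poss (TX ++ (TH ++ TY)) ⊆ O)
    (hOd : Disjoint O (poss (TX ++ (TH ++ TY))))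
    {s : ℕ} (hs : nspec (TX ++ (TH ++ TY)) ≤ s)
    (hXY : ∀ a c, a + c ≤ s →
      (((us = [] ∨ poss TY ∪ O.filter (fun x => x j = !b) ⊆ (poss TX).image (flip j) ∪ poss TH) ∧
          GdO m (O.filter (fun x => x j = b)).card a sz) ∨
        ((∀ h, Q h → h.pth) ∧ ∃ H : Finset (Fin (m + 1) → Bool),
          H ⊆ O.filter (fun x => x j = b) ∧ (∀ x ∈ H, flip j x ∉ poss TH) ∧
          (∀ x ∈ O.filter (fun x => x j = b),
            flip j x ∈ poss TY ∪ O.filter (fun x => x j = !b) → x ∈ H) ∧
          GdO m ((O.filter (fun x => x j = b) \ H).card + (newM j b TX TH TY O).card)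
            ((if O.filter (fun x => x j = b) ⊆ H then 0 else a) + us.length)
            (sz ++ List.replicate H.card 1))) ∧
      GdO m (O.filter (fun x => x j = !b)).card c
        (us.map HT.size ++ (TH.map (fun T => (hopR T).size) ++ TY.map LRT.size))) :
    ∃ S, Emb (cadj (m + 1)) (TX ++ (TH ++ TY)) S := by
  classical
  obtain ⟨OX, hOX⟩ : ∃ OX, OX = O.filter (fun x => x j = b) := ⟨_, rfl⟩
  obtain ⟨OY, hOY⟩ : ∃ OY, OY = O.filter (fun x => x j = !b) := ⟨_, rfl⟩
  rw [← hOX, ← hOY] at hXY
  rw [← hOY] at hcut
  obtain ⟨Us', L, c1, c2, hlen, hUb, n1, n2, n3, n4, n5, n6, n7⟩ :=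
    step_data j b OY hnd hok hTX hTH hTHl hTHr hTHm hTY hcut
  obtain ⟨TT, hTT⟩ : ∃ TT, TT = TX ++ (TH ++ TY) := ⟨_, rfl⟩
  obtain ⟨Us, hUs⟩ : ∃ Us, Us = TX ++ TH.map (fun T => hopT (flip j T.pos) T) := ⟨_, rfl⟩
  obtain ⟨FX, hFX⟩ : ∃ FX, FX = Us'.map (resT j b) := ⟨_, rfl⟩
  rw [← hTT] at hO hOd hs hclean honp ⊢
  rw [← hUs] at c1 n6
  rw [← hFX] at n1 n2 n3 n4 n7
  have hlabs : Us.flatMap LRT.labs = L.flatMap LT.labs := c1.graft.labs
  -- soft positions
  have hsoft : ∀ x ∈ softs TT, x ∈ O := by
    intro x hx
    refine hO (Finset.mem_sdiff.2 ⟨hx, ?_⟩)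
    obtain ⟨T, hT, F, hF, hxF⟩ := mem_softs.1 hx
    exact Finset.disjoint_left.1 (hclean T hT F hF) hxF
  have holdlab : ∀ F ∈ Us.flatMap LRT.labs, ∀ x ∈ F, x ∈ O := by
    intro F hF x hx
    apply hsoft
    obtain ⟨U, hU, hFU⟩ := List.mem_flatMap.1 hF
    rw [hUs] at hU
    rw [hTT]
    rcases List.mem_append.1 hU with h | h
    · exact mem_softs.2 ⟨U, List.mem_append_left _ h, F, hFU, hx⟩
    · obtain ⟨T, hT, rfl⟩ := List.mem_map.1 h
      exact mem_softs.2 ⟨T, List.mem_append_right _ (List.mem_append_left _ hT), F,
        mem_hop_labs (hTHl T hT) hFU, hx⟩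
  have hposs : poss TT = poss TX ∪ (poss TH ∪ poss TY) := by
    rw [hTT, poss_append, poss_append]
  have hOposs : ∀ x ∈ O, x ∉ poss TT := fun x hx => Finset.disjoint_left.1 hOd hx
  -- paths of the trees of the first side
  have hUsP : ∀ T ∈ Us, ∀ x, PT (hasL x) T := by
    intro T hT x
    rw [hUs] at hT
    rcases List.mem_append.1 hT with h | h
    · refine (onp_iff_PT x T).1 (honp T ?_ x)
      rw [hTT]
      exact List.mem_append_left _ h
    · obtain ⟨W, hW, rfl⟩ := List.mem_map.1 h
      obtain ⟨y, z, hyz⟩ := hTHl W hW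
      refine (onp_iff_PT x _).1 ?_
      have h1 : W.tree.onp x := honp W (by
        rw [hTT]
        exact List.mem_append_right _ (List.mem_append_left _ hW)) x
      have h2 : (LT.node W.l W.r).onp x := h1
      have h3 := LT.onp_left h2
      unfold hopT
      rw [hyz] at h3 ⊢
      exact h3
  have hpieces : us = [] → pieces L = [] := by
    intro h
    rw [h, List.length_nil, List.length_eq_zero_iff] at hlen
    exact hlen
  have holds : ∀ F ∈ olds L, F ∈ Us.flatMap LRT.labs := fun F hF => by
    rw [hlabs]; exact mem_olds hF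
  have hUlab : ∀ F ∈ Us'.flatMap LRT.labs, F ∈ Us.flatMap LRT.labs ∨
      ∃ u ∈ pieces L, F = nlab j (TH.map hopR ++ TY) u := by
    intro F hF
    rcases mem_rel c1.rel F hF with h1 | ⟨u, hu, hFu⟩
    · exact Or.inl (holds F h1)
    · exact Or.inr ⟨u, hu, hFu⟩
  have hnlab : ∀ u ∈ pieces L, ∀ x, ins j b x ∈ nlab j (TH.map hopR ++ TY) u →
      flip j (ins j b x) ∈ poss TH ∪ poss TY ∪ OY := by
    intro u hu x hx
    obtain ⟨w, hw, hwx⟩ := Finset.mem_image.1 (n5 u hu _ ins_self hx)
    rwa [← hwx, flip_flip]
  have hFXlabs : FX.flatMap LRT.labs = (Us'.flatMap LRT.labs).map (resL j b) := by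
    rw [hFX]
    unfold resT
    rw [flatMap_mapL]
  -- paths in the first side
  have hpathX : ∀ H : Finset (Fin (m + 1) → Bool),
      (us = [] ∨ poss TY ∪ OY ⊆ (poss TX).image (flip j) ∪ poss TH ∨ ((∀ h, Q h → h.pth) ∧
        ∀ x ∈ OX, flip j x ∈ poss TY ∪ OY → x ∈ H)) →
      ∀ T ∈ FX, ∀ x, x ∉ poss FX → ins j b x ∉ H → PT (hasL x) T := by
    intro H hcase T hT x hx hxH
    rw [hFX] at hT
    obtain ⟨U, hU, rfl⟩ := List.mem_map.1 hT
    rw [PT_res]
    have hRe : (fun F : Finset (Fin (m + 1) → Bool) => hasL x (resL j b F)) =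
        hasL (ins j b x) := by
      funext F
      unfold hasL
      rw [decide_eq_decide]
      exact mem_resL
    rw [hRe]
    -- is the position in a new label?
    have hnew0 : (us = [] ∨ poss TY ∪ OY ⊆ (poss TX).image (flip j) ∪ poss TH) →
        ∀ u ∈ pieces L, ins j b x ∉ nlab j (TH.map hopR ++ TY) u := by
      intro h u hu hmem
      rcases h with h | h
      · rw [hpieces h] at hu
        simp at hu
      · have h1 := hnlab u hu x hmem
        rw [Finset.union_assoc] at h1
        have h2 : flip j (ins j b x) ∈ (poss TX).image (flip j) ∪ poss TH := by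
          rcases Finset.mem_union.1 h1 with h1 | h1
          · exact Finset.mem_union_right _ h1
          · exact h h1
        apply hx
        rw [n4]
        rcases Finset.mem_union.1 h2 with h2 | h2
        · obtain ⟨w, hw, hwx⟩ := Finset.mem_image.1 h2
          rw [← flip_injective j hwx]
          exact Finset.mem_union_left _ hw
        · refine Finset.mem_union_right _ (Finset.mem_image.2 ⟨_, h2, flip_flip j _⟩)
    by_cases hold : ∃ F ∈ Us.flatMap LRT.labs, ins j b x ∈ F
    · -- an old soft position
      obtain ⟨F, hF, hxF⟩ := hold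
      have hyO : ins j b x ∈ OX := by
        rw [hOX, Finset.mem_filter]
        exact ⟨holdlab F hF _ hxF, ins_self⟩
      refine c1.pth' _ (fun u hu => ?_) (fun T hT => hUsP T hT _) U hU
      rw [hasL_false]
      rcases hcase with h | h | ⟨-, h⟩
      · exact hnew0 (Or.inl h) u hu
      · exact hnew0 (Or.inr h) u hu
      · intro hmem
        have h1 := hnlab u hu x hmem
        rw [Finset.union_assoc] at h1
        rcases Finset.mem_union.1 h1 with h1 | h1
        · apply hx
          rw [n4]
          exact Finset.mem_union_right _ (Finset.mem_image.2 ⟨_, h1, flip_flip j _⟩)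
        · exact hxH (h _ hyO h1)
    · -- not an old soft position
      have hnone : ∀ F ∈ Us.flatMap LRT.labs, hasL (ins j b x) F = false := by
        intro F hF
        rw [hasL_false]
        exact fun h => hold ⟨F, hF, h⟩
      have hof : (∀ u ∈ pieces L, ins j b x ∉ nlab j (TH.map hopR ++ TY) u) →
          PT (hasL (ins j b x)) U := by
        intro h
        refine PT.of_none fun F hF => ?_
        rcases hUlab F (List.mem_flatMap.2 ⟨U, hU, hF⟩) with h1 | ⟨u, hu, rfl⟩
        · exact hnone F h1
        · rw [hasL_false]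
          exact h u hu
      rcases hcase with h | h | ⟨hQ, -⟩
      · exact hof (hnew0 (Or.inl h))
      · exact hof (hnew0 (Or.inr h))
      · obtain ⟨h', h1, h2⟩ := n6 U hU
        exact (h2 _ hnone).pth (hQ h' h1)
  -- counting
  obtain ⟨a, ha⟩ : ∃ a, a = (olds L).countP (fun F => decide (F ≠ ∅)) := ⟨_, rfl⟩
  obtain ⟨c, hc⟩ : ∃ c, c = ((pieces L).flatMap LT.labs).countP (fun F => decide (F ≠ ∅)) +
    nspec (TH.map hopR ++ TY) := ⟨_, rfl⟩
  have hcount : a + c ≤ nspec TT := by
    have e1 := countP_split (fun F : Finset (Fin (m + 1) → Bool) => decide (F ≠ ∅)) L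
    rw [← hlabs, hUs, List.flatMap_append, List.countP_append] at e1
    have e2 := hops_labs (σ := flip j) (fun F : Finset (Fin (m + 1) → Bool) => decide (F ≠ ∅))
      (by simp) hTHl
    have e3 : nspec TT = (TX.flatMap LRT.labs).countP (fun F => decide (F ≠ ∅)) +
        ((TH.flatMap LRT.labs).countP (fun F => decide (F ≠ ∅)) +
          (TY.flatMap LRT.labs).countP (fun F => decide (F ≠ ∅))) := by
      rw [hTT, nspec_append, nspec_append]; rfl
    have e4 : nspec (TH.map hopR ++ TY) =
        ((TH.map hopR).flatMap LRT.labs).countP (fun F => decide (F ≠ ∅)) +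
          (TY.flatMap LRT.labs).countP (fun F => decide (F ≠ ∅)) := by
      rw [nspec_append]; rfl
    omega
  obtain ⟨gX, gY⟩ := hXY a c (hcount.trans hs)
  have hne : ∀ (c : Bool) (P : Finset (Fin m → Bool)) (F : Finset (Fin (m + 1) → Bool)),
      decide (¬ resL j c F ⊆ P) = true → decide (F ≠ ∅) = true := by
    intro c P F hF
    rw [decide_eq_true_iff] at hF ⊢
    rintro rfl
    rw [resL_empty] at hF
    exact hF (Finset.empty_subset _)
  rw [← hTT] at n7
  refine n7 ?_ ?_
  · -- the first side
    rcases gX with ⟨hcase, gX⟩ | ⟨hQ, H, hH1, hH3, hH2, gX⟩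
    · -- no new labels
      have hnolab : ∀ u ∈ pieces L, resL j b (nlab j (TH.map hopR ++ TY) u) ⊆ poss FX := by
        intro u hu x hx
        rcases hcase with h | h
        · rw [hpieces h] at hu
          simp at hu
        · have h1 := hnlab u hu x (mem_resL.1 hx)
          rw [Finset.union_assoc] at h1
          have h2 : flip j (ins j b x) ∈ (poss TX).image (flip j) ∪ poss TH := by
            rcases Finset.mem_union.1 h1 with h1 | h1
            · exact Finset.mem_union_right _ h1
            · exact h h1
          rw [n4]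
          rcases Finset.mem_union.1 h2 with h2 | h2
          · obtain ⟨w, hw, hwx⟩ := Finset.mem_image.1 h2
            rw [← flip_injective j hwx]
            exact Finset.mem_union_left _ hw
          · refine Finset.mem_union_right _ (Finset.mem_image.2 ⟨_, h2, flip_flip j _⟩)
      refine gX.emb n1 n2 n3 ?_ ?_ ?_
      · have hsub : (softs FX \ poss FX).map (ins j b) ⊆ OX := by
          intro y hy
          obtain ⟨x, hx, rfl⟩ := Finset.mem_map.1 hy
          rw [Finset.mem_sdiff] at hx
          have hx1 := hx.1
          unfold softs at hx1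
          rw [hFXlabs] at hx1
          obtain ⟨F', hF', hxF⟩ := mem_foldr_union.1 hx1
          obtain ⟨F, hF, rfl⟩ := List.mem_map.1 hF'
          rcases hUlab F hF with h1 | ⟨u, hu, rfl⟩
          · rw [hOX, Finset.mem_filter]
            exact ⟨holdlab F h1 _ (mem_resL.1 hxF), ins_self⟩
          · exact absurd (hnolab u hu hxF) hx.2
        rw [← Finset.card_map (ins j b)]
        exact Finset.card_le_card hsub
      · unfold nspecO
        rw [hFXlabs, List.countP_map]
        refine (countP_rel_of (fun F => decide (¬ resL j b F ⊆ poss FX)) c1.rel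
          fun u hu => ?_).trans ?_
        · rw [decide_eq_false_iff_not, not_not]
          exact hnolab u hu
        · rw [ha]
          exact List.countP_mono_left fun F _ hF => hne _ _ _ hF
      · intro T hT x hx
        refine hpathX ∅ ?_ T hT x hx (Finset.notMem_empty _)
        rcases hcase with h | h
        · exact Or.inl h
        · exact Or.inr (Or.inl h)
    · -- new labels, hardened set `H`
      obtain ⟨H', hH'⟩ : ∃ H' : Finset (Fin m → Bool), H' = H.image (del j) := ⟨_, rfl⟩
      have hHb : ∀ y ∈ H, y j = b := by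
        intro y hy
        have := hH1 hy
        rw [hOX, Finset.mem_filter] at this
        exact this.2
      have hmemH : ∀ x, x ∈ H' ↔ ins j b x ∈ H := by
        intro x
        rw [hH', Finset.mem_image]
        constructor
        · rintro ⟨y, hy, rfl⟩
          rwa [ins_del (hHb y hy)]
        · intro h
          exact ⟨_, h, del_ins⟩
      have hcardH : H'.card = H.card := by
        rw [hH']
        apply Finset.card_image_of_injOn
        intro x hx y hy hxy
        rw [← ins_del (hHb x hx), ← ins_del (hHb y hy), hxy]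
      have hdis : Disjoint H' (poss FX) := by
        rw [Finset.disjoint_left]
        intro x hx hxP
        have h1 := (hmemH x).1 hx
        have h2 := hH1 h1
        rw [hOX, Finset.mem_filter] at h2
        have h3 := hOposs _ h2.1
        rw [n4, Finset.mem_union] at hxP
        rcases hxP with h4 | h4
        · apply h3
          rw [hposs]
          exact Finset.mem_union_left _ h4
        · obtain ⟨w, hw, hwx⟩ := Finset.mem_image.1 h4
          refine hH3 _ h1 ?_
          rw [← hwx, flip_flip]
          exact hw
      refine GdO.emb_harden H' (by rw [hcardH]; exact gX) hdis n1 n2 n3 ?_ ?_ ?_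
      · have hsub : (softs FX \ (poss FX ∪ H')).map (ins j b) ⊆
            (OX \ H) ∪ (newM j b TX TH TY O).image (flip j) := by
          intro y hy
          obtain ⟨x, hx, rfl⟩ := Finset.mem_map.1 hy
          rw [Finset.mem_sdiff, Finset.mem_union, not_or, hmemH] at hx
          obtain ⟨hx1, hx2, hx3⟩ := hx
          unfold softs at hx1
          rw [hFXlabs] at hx1
          obtain ⟨F', hF', hxF⟩ := mem_foldr_union.1 hx1
          obtain ⟨F, hF, rfl⟩ := List.mem_map.1 hF'
          rw [Finset.mem_union]
          rcases hUlab F hF with h1 | ⟨u, hu, rfl⟩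
          · left
            rw [Finset.mem_sdiff, hOX, Finset.mem_filter]
            exact ⟨⟨holdlab F h1 _ (mem_resL.1 hxF), ins_self⟩, hx3⟩
          · right
            have h1 := hnlab u hu x (mem_resL.1 hxF)
            have h2 : flip j (ins j b x) ∉ poss TH := by
              intro h
              apply hx2
              rw [n4]
              exact Finset.mem_union_right _ (Finset.mem_image.2 ⟨_, h, flip_flip j _⟩)
            have h3 : flip j (ins j b x) ∈ poss TY ∪ OY := by
              rw [Finset.union_assoc] at h1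
              rcases Finset.mem_union.1 h1 with h1 | h1
              · exact absurd h1 h2
              · exact h1
            refine Finset.mem_image.2 ⟨_, ?_, flip_flip j _⟩
            unfold newM
            rw [Finset.mem_sdiff, ← hOX, ← hOY]
            refine ⟨h3, fun h => ?_⟩
            rcases Finset.mem_union.1 h with h | h
            · obtain ⟨w, hw, hwx⟩ := Finset.mem_image.1 h
              have hwx' := flip_injective j hwx
              rw [hwx'] at hw
              rcases Finset.mem_union.1 hw with hw | hw
              · apply hx2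
                rw [n4]
                exact Finset.mem_union_left _ hw
              · exact hx3 (hH2 _ hw h3)
            · exact h2 h
        rw [← Finset.card_map (ins j b)]
        refine (Finset.card_le_card hsub).trans ((Finset.card_union_le _ _).trans ?_)
        exact Nat.add_le_add_left Finset.card_image_le _
      · have h1 : nspecO (poss FX ∪ H') FX ≤
            (olds L).countP (fun F => decide (¬ resL j b F ⊆ poss FX ∪ H')) + us.length := by
          unfold nspecO
          rw [hFXlabs, List.countP_map, ← hlen]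
          exact countP_rel (fun F => decide (¬ resL j b F ⊆ poss FX ∪ H')) c1.rel
        refine h1.trans (Nat.add_le_add_right ?_ _)
        split_ifs with hsub
        · rw [Nat.le_zero, List.countP_eq_zero]
          intro F hF
          rw [decide_eq_true_iff, not_not]
          intro x hx
          apply Finset.mem_union_right
          rw [hmemH]
          apply hsub
          rw [hOX, Finset.mem_filter]
          exact ⟨holdlab F (holds F hF) _ (mem_resL.1 hx), ins_self⟩
        · rw [ha]
          exact List.countP_mono_left fun F _ hF => hne _ _ _ hF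
      · intro T hT x hx
        rw [Finset.mem_union, not_or, hmemH] at hx
        exact hpathX H (Or.inr (Or.inr ⟨hQ, hH2⟩)) T hT x hx.1 hx.2
  · -- the second side
    intro FY m1 m2 m3 m4 m5 m6
    have hYlab : ∀ F ∈ (pieces L).flatMap LT.labs ++ (TH.map hopR ++ TY).flatMap LRT.labs,
        ∀ x ∈ F, x ∈ O := by
      intro F hF x hx
      rcases List.mem_append.1 hF with h | h
      · refine holdlab F ?_ x hx
        rw [hlabs]
        obtain ⟨u, hu, hFu⟩ := List.mem_flatMap.1 h
        exact List.mem_flatMap.2 ⟨u, mem_pieces hu, hFu⟩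
      · apply hsoft
        obtain ⟨T, hT, hFT⟩ := List.mem_flatMap.1 h
        rw [hTT]
        rcases List.mem_append.1 hT with h | h
        · obtain ⟨W, hW, rfl⟩ := List.mem_map.1 h
          rcases mem_hopR_labs hFT with rfl | hF
          · exact absurd hx (Finset.notMem_empty _)
          · exact mem_softs.2 ⟨W, List.mem_append_right _ (List.mem_append_left _ hW), F, hF, hx⟩
        · exact mem_softs.2 ⟨T, List.mem_append_right _ (List.mem_append_right _ h), F, hFT, hx⟩
    refine gY.emb m1 m2 m3 ?_ ?_ ?_
    · rw [← Finset.card_map (ins j (!b))]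
      refine Finset.card_le_card ?_
      intro y hy
      obtain ⟨x, hx, rfl⟩ := Finset.mem_map.1 hy
      rw [Finset.mem_sdiff] at hx
      have hx1 := hx.1
      unfold softs at hx1
      rw [m5] at hx1
      obtain ⟨F', hF', hxF⟩ := mem_foldr_union.1 hx1
      obtain ⟨F, hF, rfl⟩ := List.mem_map.1 hF'
      rw [hOY, Finset.mem_filter]
      exact ⟨hYlab F hF _ (mem_resL.1 hxF), ins_self⟩
    · unfold nspecO
      rw [m5, List.countP_map, hc]
      unfold nspec
      rw [← List.countP_append]
      exact List.countP_mono_left fun F _ hF => hne _ _ _ hF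
    · intro T hT x hx
      have hRe : (fun F : Finset (Fin (m + 1) → Bool) => hasL x (resL j (!b) F)) =
          hasL (ins j (!b) x) := by
        funext F
        unfold hasL
        rw [decide_eq_decide]
        exact mem_resL
      rcases m6 T hT with ⟨u, hu, hTu⟩ | ⟨W, hW, rfl⟩ | ⟨W, hW, rfl⟩
      · unfold PT
        rw [hTu, LT.core_mapL, hRe]
        exact c1.pth _ (fun T hT => hUsP T hT _) u hu
      · rw [PT_res, hRe]
        refine (onp_iff_PT _ _).1 ?_
        have h1 : W.tree.onp (ins j (!b) x) := honp W (by
          rw [hTT]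
          exact List.mem_append_right _ (List.mem_append_left _ hW)) _
        have h2 : (LT.node W.l W.r).onp (ins j (!b) x) := h1
        exact Or.inl ⟨Or.inl ⟨∅, rfl⟩, LT.onp_right h2⟩
      · rw [PT_res, hRe]
        refine (onp_iff_PT _ W).1 (honp W ?_ _)
        rw [hTT]
        exact List.mem_append_right _ (List.mem_append_right _ hW)

end Pool.Agent.Work.MP_bf01b2_co.MR
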