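import Pool.Agent.Work.MP_bf01b2_co.MR.Dir
import Pool.Agent.Work.MP_bf01b2_co.MR.LevelF
import Pool.Agent.Work.MP_bf01b2_co.MR.LevelO

/-!
# One direction, states with one path per soft position
-/

set_option autoImplicit false

namespace Pool.Agent.Work.MP_bf01b2_co.MR

theorem FCutP.toPth {es : List (Bool × HT × HT)} {sz : List ℕ} {us : List HT}
    (h : FCutP es sz us) : FCutQ HT.pth es sz us := by
  induction h with
  | nil => exact .nil
  | cons hl hr hok hρ hp _ ih => exact .cons hl hr hok hρ ((hp_iff_pth _).1 hp) ih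

theorem FCutQ.pos {Q : HT → Prop} {es : List (Bool × HT × HT)} {sz : List ℕ} {us : List HT}
    (h : FCutQ Q es sz us) : ∀ x ∈ sz, 1 ≤ x := by
  induction h with
  | nil => simp
  | cons hl hr hok hρ hp h ih =>
    intro x hx
    rcases List.mem_cons.1 hx with rfl | hx
    · omega
    · exact ih x hx

/-- The level lemma without hops. `η` = number of the soft positions of the first side with a partner
in the second side, `ν` = number of the marks of the second side without partner. -/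
theorem lvlO {m : ℕ} {Q : HT → Prop} (j : Fin (m + 1)) (b : Bool)
    {TX TY : List (LRT (Fin (m + 1) → Bool))} (O : Finset (Fin (m + 1) → Bool)) {s η ν : ℕ}
    (hnd : ((TX ++ TY).map LRT.pos).Nodup)
    (hok : ∀ T ∈ TX ++ TY, RootOK T)
    (honp : ∀ T ∈ TX ++ TY, ∀ x, T.tree.onp x)
    (hclean : ∀ T ∈ TX ++ TY, ∀ F ∈ T.labs, Disjoint F (poss (TX ++ TY)))
    (hs : nspec (TX ++ TY) ≤ s)
    (hTX : ∀ T ∈ TX, T.pos j = b) (hTY : ∀ T ∈ TY, T.pos j = !b)
    (hO : softs (TX ++ TY) \ poss (TX ++ TY) ⊆ O) (hOd : Disjoint O (poss (TX ++ TY)))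
    {sz : List ℕ} {us : List HT}
    (hcut : FCutQ Q (TX.map (cdatP j (poss TY ∪ O))) sz us)
    (hη : ((O.filter (fun x => x j = b)).filter (fun x => flip j x ∈ poss TY ∪ O)).card ≤ η)
    (hν : (newM j b TX [] TY O).card ≤ ν)
    (hX : ((us = [] ∨ (ν = 0 ∧ η = 0)) ∧ GdO m (O.filter (fun x => x j = b)).card s sz) ∨
      ((∀ h, Q h → h.pth) ∧ ∃ η', η ≤ η' ∧ η' ≤ (O.filter (fun x => x j = b)).card ∧
        GdO m ((O.filter (fun x => x j = b)).card - η' + ν)
          (if η' = (O.filter (fun x => x j = b)).card then us.length else s + us.length)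
          (sz ++ List.replicate η' 1)))
    (hY : GdO m (O.filter (fun x => x j = !b)).card s (us.map HT.size ++ TY.map LRT.size)) :
    ∃ S, Emb (cadj (m + 1)) (TX ++ TY) S := by
  classical
  obtain ⟨OX, hOX⟩ : ∃ OX, OX = O.filter (fun x => x j = b) := ⟨_, rfl⟩
  obtain ⟨OY, hOY⟩ : ∃ OY, OY = O.filter (fun x => x j = !b) := ⟨_, rfl⟩
  have hsoft : ∀ x ∈ softs (TX ++ TY), x ∈ O := by
    intro x hx
    refine hO (Finset.mem_sdiff.2 ⟨hx, ?_⟩)
    obtain ⟨T, hT, F, hF, hxF⟩ := mem_softs.1 hx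
    exact Finset.disjoint_left.1 (hclean T hT F hF) hxF
  have hent : TX.map (cdatP j (poss TY ∪ O)) = TX.map (cdatK j b OY (poss TY)) := by
    apply List.map_congr_left
    intro U hU
    have hrel : ∀ F ∈ U.labs, relK j b OY F = false := by
      intro F hF
      apply relK_false
      intro y hy hyb
      rw [hOY, Finset.mem_filter]
      exact ⟨hsoft y (mem_softs.2 ⟨U, List.mem_append_left _ hU, F, hF, hy⟩), hyb⟩
    have e0 : (flip j U.pos ∈ poss TY ∪ O) = (flip j U.pos ∈ poss TY ∪ OY) := by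
      have : flip j U.pos j = !b := by rw [flip_apply_self, hTX U hU]
      simp only [Finset.mem_union, hOY, Finset.mem_filter, this, and_true]
    have el : U.l.core (fun _ => false) = U.l.core (relK j b OY) :=
      LT.core_congr fun F hF => (hrel F (by simp [LRT.labs, hF])).symm
    have er : U.r.core (fun _ => false) = U.r.core (relK j b OY) :=
      LT.core_congr fun F hF => (hrel F (by simp [LRT.labs, hF])).symm
    simp only [cdatP, cdatK, el, er, e0]
  have hflipO : ∀ x ∈ OX, (flip j x ∈ poss TY ∪ O ↔ flip j x ∈ poss TY ∪ OY) := by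
    intro x hx
    rw [hOX, Finset.mem_filter] at hx
    have : flip j x j = !b := by rw [flip_apply_self, hx.2]
    simp only [Finset.mem_union, hOY, Finset.mem_filter, this, and_true]
  have e1 : poss ([] : List (LRT (Fin (m + 1) → Bool))) = ∅ := rfl
  refine levelO (Q := Q) j b (TX := TX) (TH := []) (TY := TY) O (sz := sz) (us := us) (s := s)
    hnd hok honp hclean hTX (by simp) (by simp) (by simp) (by simp) hTY ?_ hO hOd hs ?_
  · rw [e1, Finset.empty_union, List.map_nil, List.append_nil, ← hOY, ← hent]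
    exact hcut
  · intro a c hac
    rw [← hOX] at hη hX
    rw [← hOY] at hY
    rw [← hOX, ← hOY]
    refine ⟨?_, hY.mono le_rfl (by omega) (forall₂_le_refl _)⟩
    rcases hX with ⟨hcase, g⟩ | ⟨hQ, η', h1, h2, g⟩
    · left
      refine ⟨?_, g.mono le_rfl (by omega) (forall₂_le_refl _)⟩
      rcases hcase with h | ⟨h1, h2⟩
      · exact Or.inl h
      · right
        have h3 : newM j b TX [] TY O = ∅ := Finset.card_eq_zero.1 (Nat.le_zero.1 (h1 ▸ hν))
        have h4 : OX.filter (fun x => flip j x ∈ poss TY ∪ O) = ∅ :=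
          Finset.card_eq_zero.1 (Nat.le_zero.1 (h2 ▸ hη))
        unfold newM at h3
        rw [Finset.sdiff_eq_empty_iff_subset, ← hOX, ← hOY] at h3
        intro y hy
        rcases Finset.mem_union.1 (h3 hy) with h5 | h5
        · obtain ⟨w, hw, rfl⟩ := Finset.mem_image.1 h5
          rcases Finset.mem_union.1 hw with hw | hw
          · exact Finset.mem_union_left _ (Finset.mem_image_of_mem _ hw)
          · exfalso
            have h6 : w ∈ OX.filter (fun x => flip j x ∈ poss TY ∪ O) :=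
              Finset.mem_filter.2 ⟨hw, (hflipO w hw).2 hy⟩
            rw [h4] at h6
            exact absurd h6 (Finset.notMem_empty _)
        · exact Finset.mem_union_right _ h5
    · right
      refine ⟨hQ, ?_⟩
      obtain ⟨H, g1, g2, g3⟩ := Finset.exists_subsuperset_card_eq
        (Finset.filter_subset (fun x => flip j x ∈ poss TY ∪ O) OX) (hη.trans h1) h2
      refine ⟨H, g2, by simp [e1], ?_, ?_⟩
      · intro x hx hx2
        exact g1 (Finset.mem_filter.2 ⟨hx, (hflipO x hx).2 hx2⟩)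
      · rw [g3]
        refine g.mono ?_ ?_ (forall₂_le_refl _)
        · rw [Finset.card_sdiff_of_subset g2, g3]
          exact Nat.add_le_add_left hν _
        · by_cases h3 : η' = OX.card
          · have h4 : OX ⊆ H := by
              rw [← Finset.eq_of_subset_of_card_le g2 (by omega)]
            rw [if_pos h4, if_pos h3, Nat.zero_add]
          · rw [if_neg h3]
            split_ifs <;> omega

/-- A row of the table: bounds `(x_n, y_n)` of the totals of both sides with `n` pieces, if `η` soft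
positions of the first side are matched and `ν` marks of the second side are not matched. -/
def RowO (m s kX dX kY dY η ν : ℕ) (row : List (ℕ × ℕ)) : Prop :=
  row ≠ [] ∧ (∀ i, (row.getD (i + 1) (0, 0)).1 ≤ (row.getD i (0, 0)).1) ∧
  (∀ i, (row.getD (i + 1) (0, 0)).2 ≤ (row.getD i (0, 0)).2) ∧
  ∀ n < row.length,
    (∀ w : List ℕ, w.length = kX → w.sum ≤ (row.getD n (0, 0)).1 →
      ((n = 0 ∨ (ν = 0 ∧ η = 0)) ∧ GdO m dX s w) ∨
      (∃ η', η ≤ η' ∧ η' ≤ dX ∧ GdO m (dX - η' + ν) (if η' = dX then n else s + n)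
        (w ++ List.replicate η' 1))) ∧
    (∀ w : List ℕ, w.length = n + kY → w.sum ≤ (row.getD n (0, 0)).2 → GdO m dY s w)

/-- fewer matched softs, fewer new marks -/
theorem RowO.mono {m s kX dX kY dY η η₁ ν ν₁ : ℕ} {row : List (ℕ × ℕ)}
    (h : RowO m s kX dX kY dY η ν row) (h1 : η₁ ≤ η) (h2 : ν₁ ≤ ν) :
    RowO m s kX dX kY dY η₁ ν₁ row := by
  obtain ⟨a1, a2, a3, a4⟩ := h
  refine ⟨a1, a2, a3, fun n hn => ⟨fun w hw hs => ?_, (a4 n hn).2⟩⟩
  rcases (a4 n hn).1 w hw hs with ⟨h3, h4⟩ | ⟨η', h3, h4, h5⟩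
  · refine Or.inl ⟨?_, h4⟩
    rcases h3 with h3 | ⟨h3, h5⟩
    · exact Or.inl h3
    · exact Or.inr ⟨by omega, by omega⟩
  · exact Or.inr ⟨η', by omega, h4, h5.mono (by omega) le_rfl (forall₂_le_refl _)⟩

/-- the arithmetic part: what the game gives -/
theorem game_data {sX sY : ℕ} {row : List (ℕ × ℕ)}
    (hm1 : ∀ i, (row.getD (i + 1) (0, 0)).1 ≤ (row.getD i (0, 0)).1)
    (hm2 : ∀ i, (row.getD (i + 1) (0, 0)).2 ≤ (row.getD i (0, 0)).2) {A : List ℕ}
    (hg : gm (mkW (sX + sY) (row.getD 0 (0, 0)).2 (row.drop 1))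
      (sX + sY - (row.getD 0 (0, 0)).1) sY A = true)
    {A' : List ℕ} (hA : A.Perm A') {ys : List HT} (hlen : ys.length = A'.length)
    (hh : ∀ y ∈ ys, y.holes = 0) {SX SY : ℕ} (hSY : SY ≤ sY) (hd : dfc A' ys + SX ≤ sX) :
    ∃ n t, MC ys n t ∧ SX ≤ (row.getD n (0, 0)).1 + t ∧
      (n = 0 ∨ SY + t ≤ (row.getD n (0, 0)).2) := by
  have hsem := gm_sound (Z := fun i => sX + sY - (row.getD i (0, 0)).1)
    (B := fun i => (row.getD i (0, 0)).2) (fun i => Nat.sub_le_sub_left (hm1 i) _) hm2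
    (mkW_Mt _ row _ 0 rfl) rfl hg
  obtain ⟨n, t, g1, g2, g3⟩ := (hsem.perm hA) ys SY (sX + sY - (SX + SY)) hlen hh hSY (by omega)
  rw [Nat.zero_add] at g2 g3
  simp only at g2
  exact ⟨n, t, g1, by omega, g3⟩

/-- the number of pieces is smaller than the length of the row -/
theorem row_lt {row : List (ℕ × ℕ)} (hne : row ≠ []) {n t : ℕ} {sz : List ℕ}
    (hpos : ∀ x ∈ sz, 1 ≤ x) (hsum : sz.sum ≤ (row.getD n (0, 0)).1)
    (h0 : sz = [] → n = 0) : n < row.length := by
  by_contra hcon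
  have h1 : row.getD n (0, 0) = (0, 0) := by
    rw [List.getD_eq_default _ _ (by omega)]
  rw [h1] at hsum
  have h2 : sz = [] := by
    cases sz with
    | nil => rfl
    | cons x sz =>
      have := hpos x List.mem_cons_self
      rw [List.sum_cons] at hsum
      omega
  rw [h0 h2] at hcon
  have : row.length ≠ 0 := fun h => hne (List.length_eq_zero_iff.1 h)
  omega

/-- **One direction, final step**: the cutting is known. -/
theorem dir_fin {m s η ν : ℕ} {Q : HT → Prop} (j : Fin (m + 1)) (b : Bool)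
    {TX TY : List (LRT (Fin (m + 1) → Bool))} {O : Finset (Fin (m + 1) → Bool)}
    (hnd : ((TX ++ TY).map LRT.pos).Nodup)
    (hok : ∀ T ∈ TX ++ TY, RootOK T)
    (honp : ∀ T ∈ TX ++ TY, ∀ x, T.tree.onp x)
    (hclean : ∀ T ∈ TX ++ TY, ∀ F ∈ T.labs, Disjoint F (poss (TX ++ TY)))
    (hs : nspec (TX ++ TY) ≤ s)
    (hTX : ∀ T ∈ TX, T.pos j = b) (hTY : ∀ T ∈ TY, T.pos j = !b)
    (hO : softs (TX ++ TY) \ poss (TX ++ TY) ⊆ O) (hOd : Disjoint O (poss (TX ++ TY)))
    (hη : ((O.filter (fun x => x j = b)).filter (fun x => flip j x ∈ poss TY ∪ O)).card ≤ η)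
    (hν : (newM j b TX [] TY O).card ≤ ν)
    {kX kY : ℕ} {row : List (ℕ × ℕ)}
    (hrow : RowO m s kX (O.filter (fun x => x j = b)).card kY
      (O.filter (fun x => x j = !b)).card η ν row)
    (hQ : (∀ h, Q h → h.pth) ∨ (ν = 0 ∧ η = 0 ∧ ∀ n < row.length, ∀ w : List ℕ, w.length = kX →
      w.sum ≤ (row.getD n (0, 0)).1 → GdO m (O.filter (fun x => x j = b)).card s w))
    {sz : List ℕ} {us : List HT} (hcut : FCutQ Q (TX.map (cdatP j (poss TY ∪ O))) sz us)
    {n t : ℕ} (c2 : us.length = n) (c3 : tot us = t) (c4 : sz.length = TX.length)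
    (c5 : sz.sum + t = (TX.map LRT.size).sum) (hkX : TX.length = kX) (hkY : TY.length = kY)
    (g2 : (TX.map LRT.size).sum ≤ (row.getD n (0, 0)).1 + t)
    (g3 : n = 0 ∨ (TY.map LRT.size).sum + t ≤ (row.getD n (0, 0)).2)
    (hy : (TY.map LRT.size).sum ≤ (row.getD 0 (0, 0)).2) (h0 : n = 0 → t = 0)
    (hX0 : TX = [] → n = 0) : ∃ S, Emb (cadj (m + 1)) (TX ++ TY) S := by
  obtain ⟨hne, hm1, hm2, hfact⟩ := hrow
  have hszs : sz.sum ≤ (row.getD n (0, 0)).1 := by omega
  have hlen : n < row.length := by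
    refine row_lt (t := t) hne hcut.pos hszs fun h => hX0 ?_
    rw [h] at c4
    exact List.length_eq_zero_iff.1 c4.symm
  obtain ⟨fX, fY⟩ := hfact n hlen
  have hszl : sz.length = kX := by rw [c4, hkX]
  have hyn : (TY.map LRT.size).sum + t ≤ (row.getD n (0, 0)).2 := by
    rcases g3 with g3 | g3
    · rw [h0 g3, g3]
      exact hy
    · exact g3
  refine lvlO (Q := Q) (s := s) (η := η) (ν := ν) j b O hnd hok honp hclean hs hTX hTY hO hOd hcut
    hη hν ?_ ?_
  · rcases hQ with hQ | ⟨h1, h2, h3⟩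
    · rcases fX sz hszl hszs with ⟨h1, h2⟩ | ⟨η', h1, h2, h3⟩
      · left
        refine ⟨?_, h2⟩
        rcases h1 with h1 | h1
        · exact Or.inl (List.length_eq_zero_iff.1 (by rw [c2, h1]))
        · exact Or.inr h1
      · right
        rw [c2]
        exact ⟨hQ, η', h1, h2, h3⟩
    · exact Or.inl ⟨Or.inr ⟨h1, h2⟩, h3 n hlen sz hszl hszs⟩
  · apply fY
    · rw [List.length_append, List.length_map, List.length_map, c2, hkY]
    · rw [List.sum_append]
      have h1 : (us.map HT.size).sum = t := c3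
      omega

/-- **One direction**, one active subtree for every root of the first side. -/
theorem dirO_emb {m s η ν : ℕ} (j : Fin (m + 1)) (b : Bool)
    {PX : List (LRT (Fin (m + 1) → Bool) × Bool)} {TY : List (LRT (Fin (m + 1) → Bool))}
    {O : Finset (Fin (m + 1) → Bool)}
    (hnd : ((PX.map Prod.fst ++ TY).map LRT.pos).Nodup)
    (hok : ∀ T ∈ PX.map Prod.fst ++ TY, RootOK T)
    (honp : ∀ T ∈ PX.map Prod.fst ++ TY, ∀ x, T.tree.onp x)
    (hclean : ∀ T ∈ PX.map Prod.fst ++ TY, ∀ F ∈ T.labs,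
      Disjoint F (poss (PX.map Prod.fst ++ TY)))
    (hs : nspec (PX.map Prod.fst ++ TY) ≤ s)
    (hTX : ∀ T ∈ PX.map Prod.fst, T.pos j = b) (hTY : ∀ T ∈ TY, T.pos j = !b)
    (hO : softs (PX.map Prod.fst ++ TY) \ poss (PX.map Prod.fst ++ TY) ⊆ O)
    (hOd : Disjoint O (poss (PX.map Prod.fst ++ TY)))
    (hfl : ∀ p ∈ PX, flip j p.1.pos ∈ poss TY ∪ O → p.2 = true)
    (hη : ((O.filter (fun x => x j = b)).filter (fun x => flip j x ∈ poss TY ∪ O)).card ≤ η)
    (hν : (newM j b (PX.map Prod.fst) [] TY O).card ≤ ν)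
    {XV YV : List ℕ} (hXV : List.Forall₂ (fun p v => LRT.size p.1 ≤ v) PX XV)
    (hYV : List.Forall₂ (fun T v => LRT.size T ≤ v) TY YV) {row : List (ℕ × ℕ)}
    (hrow : RowO m s XV.length (O.filter (fun x => x j = b)).card YV.length
      (O.filter (fun x => x j = !b)).card η ν row)
    {A : List ℕ}
    (hA : A.Perm (List.zipWith (fun (p : LRT (Fin (m + 1) → Bool) × Bool) v => actN p.2 v) PX XV))
    (hy : YV.sum ≤ (row.getD 0 (0, 0)).2)
    (hg : gm (mkW (XV.sum + YV.sum) (row.getD 0 (0, 0)).2 (row.drop 1))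
      (XV.sum + YV.sum - (row.getD 0 (0, 0)).1) YV.sum A = true) :
    ∃ S, Emb (cadj (m + 1)) (PX.map Prod.fst ++ TY) S := by
  have hYs : (TY.map LRT.size).sum ≤ YV.sum := by
    clear hy hg hrow hnd hok honp hclean hs hTY hO hOd hfl hη hν
    induction hYV with
    | nil => simp
    | cons h _ ih => simp only [List.map_cons, List.sum_cons]; omega
  have hdf := dfc_act hXV
  obtain ⟨n, t, g1, g2, g3⟩ := game_data hrow.2.1 hrow.2.2.1 hg hA
    (ys := PX.map fun p => actT p.2 p.1)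
    (by rw [List.length_zipWith, List.length_map, hXV.length_eq, Nat.min_self]) (by
      intro y hy
      obtain ⟨p, _, rfl⟩ := List.mem_map.1 hy
      exact actT_holes _ _) hYs hdf
  obtain ⟨sz, us, c1, c2, c3, c4, c5⟩ := fcut_of_mc (j := j) (Z := poss TY ∪ O) hfl g1
  refine dir_fin j b hnd hok honp hclean hs hTX hTY hO hOd hη hν hrow (Or.inl fun _ h => h)
    c1.toPth c2 c3 (by rw [c4, List.length_map]) c5 (by rw [List.length_map, hXV.length_eq])
    hYV.length_eq g2 g3 (hYs.trans hy) ?_ ?_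
  · rintro rfl
    exact g1.zero
  · intro h
    have h3 : PX = [] := List.map_eq_nil_iff.1 h
    rw [h3] at g1
    obtain ⟨zs, k1, k2, k3⟩ := g1
    cases k1
    simpa using k2.symm

end Pool.Agent.Work.MP_bf01b2_co.MR
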