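import Pool.Agent.Work.MP_bf01b2_co.MR.DirO

/-!
# One direction, both subtrees of one restricted root are active
-/

set_option autoImplicit false

namespace Pool.Agent.Work.MP_bf01b2_co.MR

theorem CutP.refl_ne {y : HT} {y' : HT} {ps : List HT} (h : CutP y y' ps) : y' ≠ .hole := h.2.2.1

theorem FCutP.toTrue {es : List (Bool × HT × HT)} {sz : List ℕ} {us : List HT}
    (h : FCutP es sz us) : FCutQ (fun _ => True) es sz us := by
  induction h with
  | nil => exact .nil
  | cons hl hr hok hρ hp _ ih => exact .cons hl hr hok hρ trivial ih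

/-- from the cuttings of the active subtrees to the cutting of the forest -/
theorem fcut_of_mc2 {m : ℕ} {j : Fin (m + 1)} {Z : Finset (Fin (m + 1) → Bool)}
    {T0 : LRT (Fin (m + 1) → Bool)} {PX : List (LRT (Fin (m + 1) → Bool) × Bool)}
    (hfl : ∀ p ∈ PX, flip j p.1.pos ∈ Z → p.2 = true) {n t : ℕ}
    (h : MC (T0.l.core (fun _ => false) :: T0.r.core (fun _ => false) ::
      PX.map fun p => actT p.2 p.1) n t) :
    ∃ sz us, FCutQ (fun _ => True) ((T0 :: PX.map Prod.fst).map (cdatP j Z)) sz us ∧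
      us.length = n ∧ tot us = t ∧
      sz.length = (T0 :: PX.map Prod.fst).length ∧
      sz.sum + t = ((T0 :: PX.map Prod.fst).map LRT.size).sum := by
  obtain ⟨zs, h1, h2, h3⟩ := h
  cases h1 with
  | @cons _ z1 _ zs h1 h4 =>
    cases h4 with
    | @cons _ z2 _ zs h4 h5 =>
      obtain ⟨sz, us, g1, g2, g3, g4, g5⟩ := fcut_of_mc (j := j) (Z := Z) hfl ⟨zs, h5, rfl, rfl⟩
      obtain ⟨a1, a2, a3, a4⟩ := h1
      obtain ⟨b1, b2, b3, b4⟩ := h4
      have e7 := a1.size
      have e8 := b1.size
      rw [LT.core_size] at e7 e8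
      simp only [List.map_cons, List.sum_cons] at h2 h3
      refine ⟨(z1.1.size + z2.1.size + 1) :: sz, z1.2 ++ z2.2 ++ us, ?_, ?_, ?_, ?_, ?_⟩
      · rw [List.map_cons]
        exact FCutQ.cons a1 b1 ⟨fun h => a3 h.1, a2, b2⟩ (fun _ => ⟨a3, b3⟩) trivial g1.toTrue
      · simp only [List.length_append]
        omega
      · rw [tot_append, tot_append]
        omega
      · simpa using g4
      · simp only [List.map_cons, List.sum_cons]
        have e11 : T0.size = T0.l.size + T0.r.size + 1 := rfl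
        omega

/-- **One direction**, all marks of the second side are matched with roots of the first side, two
active subtrees for one restricted root `T0`. -/
theorem dirO_emb2 {m s : ℕ} (j : Fin (m + 1)) (b : Bool)
    {T0 : LRT (Fin (m + 1) → Bool)}
    {PX : List (LRT (Fin (m + 1) → Bool) × Bool)} {TY : List (LRT (Fin (m + 1) → Bool))}
    {O : Finset (Fin (m + 1) → Bool)}
    (hnd : (((T0 :: PX.map Prod.fst) ++ TY).map LRT.pos).Nodup)
    (hok : ∀ T ∈ (T0 :: PX.map Prod.fst) ++ TY, RootOK T)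
    (honp : ∀ T ∈ (T0 :: PX.map Prod.fst) ++ TY, ∀ x, T.tree.onp x)
    (hclean : ∀ T ∈ (T0 :: PX.map Prod.fst) ++ TY, ∀ F ∈ T.labs,
      Disjoint F (poss ((T0 :: PX.map Prod.fst) ++ TY)))
    (hs : nspec ((T0 :: PX.map Prod.fst) ++ TY) ≤ s)
    (hTX : ∀ T ∈ T0 :: PX.map Prod.fst, T.pos j = b) (hTY : ∀ T ∈ TY, T.pos j = !b)
    (hO : softs ((T0 :: PX.map Prod.fst) ++ TY) \ poss ((T0 :: PX.map Prod.fst) ++ TY) ⊆ O)
    (hOd : Disjoint O (poss ((T0 :: PX.map Prod.fst) ++ TY)))
    (hfl : ∀ p ∈ PX, flip j p.1.pos ∈ poss TY ∪ O → p.2 = true)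
    (hη : ((O.filter (fun x => x j = b)).filter (fun x => flip j x ∈ poss TY ∪ O)).card ≤ 0)
    (hν : (newM j b (T0 :: PX.map Prod.fst) [] TY O).card ≤ 0)
    {W : ℕ} (hW : T0.size ≤ W)
    {XV YV : List ℕ} (hXV : List.Forall₂ (fun p v => LRT.size p.1 ≤ v) PX XV)
    (hYV : List.Forall₂ (fun T v => LRT.size T ≤ v) TY YV) {row : List (ℕ × ℕ)}
    (hrow : RowO m s (XV.length + 1) (O.filter (fun x => x j = b)).card YV.length
      (O.filter (fun x => x j = !b)).card 0 0 row)
    (hfull : ∀ n < row.length, ∀ w : List ℕ, w.length = XV.length + 1 →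
      w.sum ≤ (row.getD n (0, 0)).1 → GdO m (O.filter (fun x => x j = b)).card s w)
    {A : List ℕ}
    (hA : A.Perm (List.zipWith (fun (p : LRT (Fin (m + 1) → Bool) × Bool) v => actN p.2 v) PX XV))
    (hy : YV.sum ≤ (row.getD 0 (0, 0)).2)
    (hg : ∀ c1, W / 2 ≤ c1 → c1 < W →
      gm (mkW (W + XV.sum + YV.sum) (row.getD 0 (0, 0)).2 (row.drop 1))
      (W + XV.sum + YV.sum - (row.getD 0 (0, 0)).1) YV.sum (insL c1 (insL (W - 1 - c1) A)) = true) :
    ∃ S, Emb (cadj (m + 1)) ((T0 :: PX.map Prod.fst) ++ TY) S := by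
  have hYs : (TY.map LRT.size).sum ≤ YV.sum := by
    clear hy hg hrow hnd hok honp hclean hs hTY hO hOd hfl hη hν hfull
    induction hYV with
    | nil => simp
    | cons h _ ih => simp only [List.map_cons, List.sum_cons]; omega
  have hdf := dfc_act hXV
  have e11 : T0.size = T0.l.size + T0.r.size + 1 := rfl
  have hXl : ((T0 :: PX.map Prod.fst).map LRT.size).sum =
      T0.size + ((PX.map Prod.fst).map LRT.size).sum := by
    rw [List.map_cons, List.sum_cons]
  have hhol : ∀ y ∈ PX.map (fun p => actT p.2 p.1), y.holes = 0 := by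
    intro y hy
    obtain ⟨p, _, rfl⟩ := List.mem_map.1 hy
    exact actT_holes _ _
  have hlenA : (PX.map fun p => actT p.2 p.1).length = (List.zipWith
      (fun (p : LRT (Fin (m + 1) → Bool) × Bool) v => actN p.2 v) PX XV).length := by
    rw [List.length_zipWith, List.length_map, hXV.length_eq, Nat.min_self]
  have key : ∃ n t, MC (T0.l.core (fun _ => false) :: T0.r.core (fun _ => false) ::
      PX.map fun p => actT p.2 p.1) n t ∧
      ((T0 :: PX.map Prod.fst).map LRT.size).sum ≤ (row.getD n (0, 0)).1 + t ∧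
      (n = 0 ∨ (TY.map LRT.size).sum + t ≤ (row.getD n (0, 0)).2) := by
    have hpc : ∀ c1 c2 : ℕ, (insL c1 (insL c2 A)).Perm (c1 :: c2 :: (List.zipWith
        (fun (p : LRT (Fin (m + 1) → Bool) × Bool) v => actN p.2 v) PX XV)) := fun c1 c2 =>
      (insL_perm c1 _).symm.trans (((insL_perm c2 A).symm.trans (hA.cons _)).cons _)
    rcases le_total T0.r.size T0.l.size with hlr | hlr
    · have hc := hg (W - 1 - T0.r.size) (by omega) (by omega)
      obtain ⟨n, t, g1, g2, g3⟩ := game_data hrow.2.1 hrow.2.2.1 (sX := W + XV.sum) (sY := YV.sum)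
        hc (hpc _ _) (ys := T0.l.core (fun _ => false) :: T0.r.core (fun _ => false) ::
          PX.map fun p => actT p.2 p.1) (by
          simp only [List.length_cons, hlenA]) (by
          intro y hy
          rcases List.mem_cons.1 hy with rfl | hy
          · exact LT.core_false_holes _
          rcases List.mem_cons.1 hy with rfl | hy
          · exact LT.core_false_holes _
          · exact hhol y hy) (SX := ((T0 :: PX.map Prod.fst).map LRT.size).sum) hYs (by
          simp only [dfc, LT.core_size]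
          omega)
      exact ⟨n, t, g1, g2, g3⟩
    · have hc := hg (W - 1 - T0.l.size) (by omega) (by omega)
      obtain ⟨n, t, g1, g2, g3⟩ := game_data hrow.2.1 hrow.2.2.1 (sX := W + XV.sum) (sY := YV.sum)
        hc (hpc _ _) (ys := T0.r.core (fun _ => false) :: T0.l.core (fun _ => false) ::
          PX.map fun p => actT p.2 p.1) (by
          simp only [List.length_cons, hlenA]) (by
          intro y hy
          rcases List.mem_cons.1 hy with rfl | hy
          · exact LT.core_false_holes _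
          rcases List.mem_cons.1 hy with rfl | hy
          · exact LT.core_false_holes _
          · exact hhol y hy) (SX := ((T0 :: PX.map Prod.fst).map LRT.size).sum) hYs (by
          simp only [dfc, LT.core_size]
          omega)
      exact ⟨n, t, g1.perm (List.Perm.swap _ _ _), g2, g3⟩
  obtain ⟨n, t, g1, g2, g3⟩ := key
  obtain ⟨sz, us, c1, c2, c3, c4, c5⟩ := fcut_of_mc2 (j := j) (Z := poss TY ∪ O) hfl g1
  refine dir_fin j b hnd hok honp hclean hs hTX hTY hO hOd hη hν hrow
    (Or.inr ⟨rfl, rfl, hfull⟩) c1 c2 c3 c4 c5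
    (by rw [List.length_cons, List.length_map, hXV.length_eq])
    hYV.length_eq g2 g3 (hYs.trans hy) ?_ ?_
  · rintro rfl
    exact g1.zero
  · intro h
    cases h

end Pool.Agent.Work.MP_bf01b2_co.MR
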