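import Pool.Agent.Work.MP_bf01b2_co.MR.LevelM
import Pool.Agent.Work.MP_bf01b2_co.MR.DirO

/-!
# One direction, only one tree is cut
-/

set_option autoImplicit false

namespace Pool.Agent.Work.MP_bf01b2_co.MR

/-- A row of the table for cuttings of one tree: the old soft positions of the first side are
hardened, `ν` marks of the second side have no partner. -/
def RowS (m s kX dX kY dY ν : ℕ) (row : List (ℕ × ℕ)) : Prop :=
  row ≠ [] ∧ (∀ i, (row.getD (i + 1) (0, 0)).1 ≤ (row.getD i (0, 0)).1) ∧
  (∀ i, (row.getD (i + 1) (0, 0)).2 ≤ (row.getD i (0, 0)).2) ∧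
  (∀ w : List ℕ, w.length = kX → w.sum ≤ (row.getD 0 (0, 0)).1 → GdO m dX s w) ∧
  ∀ n < row.length,
    (n ≠ 0 → ∀ (a : ℕ) (w : List ℕ), w.length + 1 = kX → a + w.sum ≤ (row.getD n (0, 0)).1 →
      GdT m true (((a, ν, n) :: w.map (fun x => (x, 0, 0))) ++ List.replicate dX (1, 0, 0))) ∧
    (∀ w : List ℕ, w.length = n + kY → w.sum ≤ (row.getD n (0, 0)).2 → GdO m dY s w)

/-- **One direction**, only the tree `W` is cut. -/
theorem dirS_emb {m s ν : ℕ} (j : Fin (m + 1)) (b : Bool)
    {W : LRT (Fin (m + 1) → Bool)} {TX TY : List (LRT (Fin (m + 1) → Bool))}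
    {O : Finset (Fin (m + 1) → Bool)}
    (hnd : (((W :: TX) ++ TY).map LRT.pos).Nodup)
    (hok : ∀ T ∈ (W :: TX) ++ TY, RootOK T)
    (honp : ∀ T ∈ (W :: TX) ++ TY, ∀ x, T.tree.onp x)
    (hclean : ∀ T ∈ (W :: TX) ++ TY, ∀ F ∈ T.labs, Disjoint F (poss ((W :: TX) ++ TY)))
    (hs : nspec ((W :: TX) ++ TY) ≤ s)
    (hTX : ∀ T ∈ W :: TX, T.pos j = b) (hTY : ∀ T ∈ TY, T.pos j = !b)
    (hO : softs ((W :: TX) ++ TY) \ poss ((W :: TX) ++ TY) ⊆ O)
    (hOd : Disjoint O (poss ((W :: TX) ++ TY)))
    {fl : Bool} (hfl : flip j W.pos ∈ poss TY ∪ O → fl = true)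
    (hν : (newM j b (W :: TX) [] TY O).card ≤ ν)
    {vW : ℕ} (hvW : W.size ≤ vW)
    {XV YV : List ℕ} (hXV : List.Forall₂ (fun T v => LRT.size T ≤ v) TX XV)
    (hYV : List.Forall₂ (fun T v => LRT.size T ≤ v) TY YV) {row : List (ℕ × ℕ)}
    (hrow : RowS m s (XV.length + 1) (O.filter (fun x => x j = b)).card YV.length
      (O.filter (fun x => x j = !b)).card ν row)
    (hy : YV.sum ≤ (row.getD 0 (0, 0)).2)
    (hg : gm (mkW (vW + XV.sum + YV.sum) (row.getD 0 (0, 0)).2 (row.drop 1))
      (vW + XV.sum + YV.sum - (row.getD 0 (0, 0)).1) YV.sum [actN fl vW] = true) :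
    ∃ S, Emb (cadj (m + 1)) ((W :: TX) ++ TY) S := by
  classical
  obtain ⟨hne, hm1, hm2, hfact0, hfact⟩ := hrow
  have hsumle : ∀ {T1 : List (LRT (Fin (m + 1) → Bool))} {V1 : List ℕ},
      List.Forall₂ (fun T v => LRT.size T ≤ v) T1 V1 → (T1.map LRT.size).sum ≤ V1.sum := by
    intro T1 V1 h
    induction h with
    | nil => simp
    | cons h _ ih => simp only [List.map_cons, List.sum_cons]; omega
  have hYs := hsumle hYV
  have hXs := hsumle hXV
  have hdf := dfc_act (PX := [(W, fl)]) (XV := [vW]) (.cons hvW .nil)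
  simp only [List.zipWith_cons_cons, List.zipWith_nil_left, List.map_cons, List.map_nil,
    List.sum_cons, List.sum_nil, Nat.add_zero] at hdf
  obtain ⟨n, t, g1, g2, g3⟩ := game_data hm1 hm2 (sX := vW + XV.sum) (sY := YV.sum) hg
    (List.Perm.refl _) (ys := [actT fl W]) rfl (by
      intro y hy
      rw [List.mem_singleton] at hy
      rw [hy]
      exact actT_holes _ _) (SX := W.size + (TX.map LRT.size).sum) hYs (by omega)
  obtain ⟨sz, us, c1, c2, c3, c4, c5⟩ := fcut_of_mc (j := j) (Z := poss TY ∪ O) (PX := [(W, fl)])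
    (by
      intro p hp hflip
      rw [List.mem_singleton] at hp
      rw [hp] at hflip ⊢
      exact hfl hflip) (n := n) (t := t) g1
  simp only [List.map_cons, List.map_nil, List.length_singleton, List.sum_cons, List.sum_nil,
    Nat.add_zero] at c1 c4 c5
  obtain ⟨z, rfl⟩ : ∃ z, sz = [z] := List.length_eq_one_iff.1 c4
  have hz1 : 1 ≤ z := c1.pos z (List.mem_singleton.2 rfl)
  have hzs : z + (TX.map LRT.size).sum ≤ (row.getD n (0, 0)).1 := by
    simp only [List.sum_cons, List.sum_nil, Nat.add_zero] at c5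
    omega
  have hlen : n < row.length := by
    by_contra hcon
    have h1 : row.getD n (0, 0) = (0, 0) := List.getD_eq_default _ _ (by omega)
    rw [h1] at hzs
    simp only at hzs
    omega
  have hyn : (TY.map LRT.size).sum + t ≤ (row.getD n (0, 0)).2 := by
    rcases g3 with g3 | g3
    · subst g3
      rw [g1.zero]
      omega
    · exact g3
  obtain ⟨fX, fY⟩ := hfact n hlen
  have hTXl : TX.length = XV.length := hXV.length_eq
  have hTYl : TY.length = YV.length := hYV.length_eq
  by_cases hn : n = 0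
  · -- nothing is cut
    subst hn
    have ht := g1.zero
    subst ht
    obtain ⟨sz', us', d1, d2, d3, d4, d5⟩ := fcut_of_mc (j := j) (Z := poss TY ∪ O)
      (PX := (W :: TX).map fun T => (T, true)) (by
        intro p hp _
        obtain ⟨T, _, rfl⟩ := List.mem_map.1 hp
        rfl) (MC.refl _)
    have e1 : ((W :: TX).map fun T => (T, true)).map Prod.fst = W :: TX := by
      rw [List.map_map]
      exact List.map_id _
    rw [e1] at d1 d5
    rw [List.length_map] at d4
    have hus : us' = [] := List.length_eq_zero_iff.1 d2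
    refine lvlO (Q := HT.pth) (s := s) j b O hnd hok honp hclean hs hTX hTY hO hOd d1.toPth
      le_rfl le_rfl (Or.inl ⟨Or.inl hus, ?_⟩) ?_
    · refine hfact0 sz' (by rw [d4, List.length_cons, hTXl]) ?_
      simp only [List.map_cons, List.sum_cons] at d5
      simp only [List.sum_cons, List.sum_nil, Nat.add_zero] at c5
      omega
    · rw [hus]
      refine fY _ (by simp [hTYl]) ?_
      simp only [List.map_nil, List.nil_append]
      omega
  · -- `W` is cut
    have hsoft : ∀ x ∈ softs ((W :: TX) ++ TY), x ∈ O := by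
      intro x hx
      refine hO (Finset.mem_sdiff.2 ⟨hx, ?_⟩)
      obtain ⟨T, hT, F, hF, hxF⟩ := mem_softs.1 hx
      exact Finset.disjoint_left.1 (hclean T hT F hF) hxF
    have hent : cdatP j (poss TY ∪ O) W =
        cdatK j b (O.filter (fun x => x j = !b)) (poss TY) W := by
      have hrel : ∀ F ∈ W.labs, relK j b (O.filter (fun x => x j = !b)) F = false := by
        intro F hF
        apply relK_false
        intro y hy hyb
        rw [Finset.mem_filter]
        exact ⟨hsoft y (mem_softs.2 ⟨W, List.mem_append_left _ List.mem_cons_self, F, hF, hy⟩),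
          hyb⟩
      have e0 : (flip j W.pos ∈ poss TY ∪ O) =
          (flip j W.pos ∈ poss TY ∪ O.filter (fun x => x j = !b)) := by
        have : flip j W.pos j = !b := by rw [flip_apply_self, hTX W List.mem_cons_self]
        simp only [Finset.mem_union, Finset.mem_filter, this, and_true]
      have el : W.l.core (fun _ => false) = W.l.core (relK j b (O.filter (fun x => x j = !b))) :=
        LT.core_congr fun F hF => (hrel F (by simp [LRT.labs, hF])).symm
      have er : W.r.core (fun _ => false) = W.r.core (relK j b (O.filter (fun x => x j = !b))) :=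
        LT.core_congr fun F hF => (hrel F (by simp [LRT.labs, hF])).symm
      simp only [cdatP, cdatK, el, er, e0]
    refine levelM (s := s) (z := z) (us := us) j b O hnd hok honp hclean hTX hTY ?_ hO hOd hs ?_ ?_
    · rw [← hent]
      exact c1.toPth
    · have h1 := fX hn z (TX.map LRT.size) (by rw [List.length_map, hTXl]) hzs
      refine GdT.mono ?_ h1
      refine forall₂_append' (.cons ⟨le_rfl, hν, c2.le⟩ ?_) ?_
      · rw [List.map_map, List.forall₂_map_left_iff, List.forall₂_map_right_iff,
          List.forall₂_same]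
        intro T _
        exact ⟨le_rfl, le_rfl, le_rfl⟩
      · rw [List.forall₂_same]
        intro p _
        exact ⟨le_rfl, le_rfl, le_rfl⟩
    · refine fY _ ?_ ?_
      · rw [List.length_append, List.length_map, List.length_map, c2, hTYl]
      · rw [List.sum_append]
        have h1 : (us.map HT.size).sum = t := c3
        omega

end Pool.Agent.Work.MP_bf01b2_co.MR
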