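import Pool.Agent.Work.MP_bf01b2_co.MR.Base
import Pool.Agent.Work.MP_bf01b2_co.Tree

/-!
# Marks recursion: from hole trees to graphs of maximum degree three
-/

set_option autoImplicit false

namespace Pool.Agent.Work.MP_bf01b2_co.MR

open Pool.Agent.Work.MP_bf01b2_co

/-- The vertices of a tree with holes, as bit strings. -/
def HT.paths : HT → Set (List Bool)
  | .nil => ∅
  | .hole => ∅
  | .node l r => {w | w = [] ∨ (∃ w', w = false :: w' ∧ w' ∈ l.paths) ∨
      (∃ w', w = true :: w' ∧ w' ∈ r.paths)}

theorem HT.nil_mem_paths_node {l r : HT} : [] ∈ (HT.node l r).paths := Or.inl rfl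

theorem HT.false_mem_paths_node {l r : HT} {w : List Bool} :
    (false :: w) ∈ (HT.node l r).paths ↔ w ∈ l.paths := by
  simp [HT.paths]

theorem HT.true_mem_paths_node {l r : HT} {w : List Bool} :
    (true :: w) ∈ (HT.node l r).paths ↔ w ∈ r.paths := by
  simp [HT.paths]

section
variable {W : Type*} [DecidableEq W]

/-- glue two functions at a root -/
def glue (x : W) (f g : List Bool → W) : List Bool → W
  | [] => x
  | false :: w => f w
  | true :: w => g w

theorem glue_spec {adj : W → W → Prop} {l r : HT} {x : W} {A B : Finset W}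
    {f g : List Bool → W}
    (hf1 : ∀ w ∈ l.paths, f w ∈ A) (hf2 : Set.InjOn f l.paths)
    (hf3 : [] ∈ l.paths → adj x (f []))
    (hf4 : ∀ w e, w ++ [e] ∈ l.paths → adj (f w) (f (w ++ [e])))
    (hg1 : ∀ w ∈ r.paths, g w ∈ B) (hg2 : Set.InjOn g r.paths)
    (hg3 : [] ∈ r.paths → adj x (g []))
    (hg4 : ∀ w e, w ++ [e] ∈ r.paths → adj (g w) (g (w ++ [e])))
    (hxA : x ∉ A) (hxB : x ∉ B) (hd : Disjoint A B) :
    (∀ w ∈ (HT.node l r).paths, glue x f g w ∈ insert x (A ∪ B)) ∧
    Set.InjOn (glue x f g) (HT.node l r).paths ∧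
    (∀ w e, w ++ [e] ∈ (HT.node l r).paths → adj (glue x f g w) (glue x f g (w ++ [e]))) := by
  refine ⟨?_, ?_, ?_⟩
  · intro w hw
    match w with
    | [] => simp [glue]
    | false :: w =>
      have := hf1 w (HT.false_mem_paths_node.1 hw)
      simp [glue, this]
    | true :: w =>
      have := hg1 w (HT.true_mem_paths_node.1 hw)
      simp [glue, this]
  · intro u hu v hv huv
    match u, v with
    | [], [] => rfl
    | [], false :: v =>
      have h1 := hf1 v (HT.false_mem_paths_node.1 hv)
      have h3 : x = f v := huv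
      exact absurd (h3 ▸ h1) hxA
    | [], true :: v =>
      have h1 := hg1 v (HT.true_mem_paths_node.1 hv)
      have h3 : x = g v := huv
      exact absurd (h3 ▸ h1) hxB
    | false :: u, [] =>
      have h1 := hf1 u (HT.false_mem_paths_node.1 hu)
      have h3 : f u = x := huv
      exact absurd (h3 ▸ h1) hxA
    | true :: u, [] =>
      have h1 := hg1 u (HT.true_mem_paths_node.1 hu)
      have h3 : g u = x := huv
      exact absurd (h3 ▸ h1) hxB
    | false :: u, false :: v =>
      have := hf2 (HT.false_mem_paths_node.1 hu) (HT.false_mem_paths_node.1 hv) huv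
      rw [this]
    | true :: u, true :: v =>
      have := hg2 (HT.true_mem_paths_node.1 hu) (HT.true_mem_paths_node.1 hv) huv
      rw [this]
    | false :: u, true :: v =>
      have h1 := hf1 u (HT.false_mem_paths_node.1 hu)
      have h2 := hg1 v (HT.true_mem_paths_node.1 hv)
      have h3 : f u = g v := huv
      rw [h3] at h1
      exact absurd h2 (Finset.disjoint_left.1 hd h1)
    | true :: u, false :: v =>
      have h1 := hg1 u (HT.true_mem_paths_node.1 hu)
      have h2 := hf1 v (HT.false_mem_paths_node.1 hv)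
      have h3 : g u = f v := huv
      rw [← h3] at h2
      exact absurd h1 (Finset.disjoint_left.1 hd h2)
  · intro w e hw
    match w with
    | [] =>
      cases e
      · exact hf3 (HT.false_mem_paths_node.1 hw)
      · exact hg3 (HT.true_mem_paths_node.1 hw)
    | false :: w => exact hf4 w e (HT.false_mem_paths_node.1 hw)
    | true :: w => exact hg4 w e (HT.true_mem_paths_node.1 hw)

/-- The vertex map of an embedded subtree. -/
theorem slot_fun {adj : W → W → Prop} : ∀ {t : HT} {v : W} {S : Finset W} {p : List W},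
    Slot adj t v S p → ∃ φ : List Bool → W, (∀ w ∈ t.paths, φ w ∈ S) ∧
      Set.InjOn φ t.paths ∧ ([] ∈ t.paths → adj v (φ [])) ∧
      ∀ w e, w ++ [e] ∈ t.paths → adj (φ w) (φ (w ++ [e]))
  | .nil, v, S, p, h => ⟨fun _ => v, by simp [HT.paths], by simp [HT.paths],
      by simp [HT.paths], by simp [HT.paths]⟩
  | .hole, v, S, p, h => ⟨fun _ => v, by simp [HT.paths], by simp [HT.paths],
      by simp [HT.paths], by simp [HT.paths]⟩
  | .node l r, v, S, p, h => by
    obtain ⟨x, hvx, A, B, pa, pb, hA, hB, hx, hx', hd, rfl, rfl⟩ := h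
    obtain ⟨f, hf1, hf2, hf3, hf4⟩ := slot_fun hA
    obtain ⟨g, hg1, hg2, hg3, hg4⟩ := slot_fun hB
    obtain ⟨h1, h2, h3⟩ := glue_spec hf1 hf2 hf3 hf4 hg1 hg2 hg3 hg4 hx hx' hd
    exact ⟨glue x f g, h1, h2, fun _ => hvx, h3⟩

theorem root_fun {adj : W → W → Prop} {l r : HT} {x : W} {S : Finset W} {p : List W}
    (h : Root adj l r x S p) : ∃ φ : List Bool → W, (∀ w ∈ (HT.node l r).paths, φ w ∈ S) ∧
      Set.InjOn φ (HT.node l r).paths ∧ φ [] = x ∧
      ∀ w e, w ++ [e] ∈ (HT.node l r).paths → adj (φ w) (φ (w ++ [e])) := by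
  obtain ⟨A, B, pa, pb, hA, hB, hx, hx', hd, rfl, rfl⟩ := h
  obtain ⟨f, hf1, hf2, hf3, hf4⟩ := slot_fun hA
  obtain ⟨g, hg1, hg2, hg3, hg4⟩ := slot_fun hB
  obtain ⟨h1, h2, h3⟩ := glue_spec hf1 hf2 hf3 hf4 hg1 hg2 hg3 hg4 hx hx' hd
  exact ⟨glue x f g, h1, h2, rfl, h3⟩

end

/-- The strings starting with `b`, without the first letter. -/
def subT (b : Bool) (T : Finset (List Bool)) : Finset (List Bool) :=
  (T.filter (fun w => w.head? = some b)).image List.tail

theorem mem_subT {b : Bool} {T : Finset (List Bool)} {w : List Bool} :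
    w ∈ subT b T ↔ (b :: w) ∈ T := by
  unfold subT
  rw [Finset.mem_image]
  constructor
  · rintro ⟨u, hu, rfl⟩
    rw [Finset.mem_filter] at hu
    match u, hu with
    | c :: u, hu =>
      have : c = b := by simpa using hu.2
      rw [← this]
      exact hu.1
  · intro h
    exact ⟨b :: w, Finset.mem_filter.2 ⟨h, rfl⟩, rfl⟩

theorem card_subT (T : Finset (List Bool)) (h : [] ∈ T) :
    (subT false T).card + (subT true T).card + 1 ≤ T.card := by
  have h1 : (subT false T).card ≤ (T.filter (fun w => w.head? = some false)).card :=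
    Finset.card_image_le
  have h2 : (subT true T).card ≤ (T.filter (fun w => w.head? = some true)).card :=
    Finset.card_image_le
  have h3 : Disjoint (T.filter (fun w => w.head? = some false))
      (T.filter (fun w => w.head? = some true)) := by
    rw [Finset.disjoint_left]
    intro w hw hw'
    rw [Finset.mem_filter] at hw hw'
    rw [hw.2] at hw'
    simp at hw'
  have h4 : (T.filter (fun w => w.head? = some false)) ∪
      (T.filter (fun w => w.head? = some true)) ⊆ T.erase [] := by
    intro w hw
    rw [Finset.mem_erase]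
    rcases Finset.mem_union.1 hw with hw | hw
    · rw [Finset.mem_filter] at hw
      refine ⟨?_, hw.1⟩
      rintro rfl
      simp at hw
    · rw [Finset.mem_filter] at hw
      refine ⟨?_, hw.1⟩
      rintro rfl
      simp at hw
  have h5 := Finset.card_le_card h4
  rw [Finset.card_union_of_disjoint h3, Finset.card_erase_of_mem h] at h5
  have h6 : 0 < T.card := Finset.card_pos.2 ⟨[], h⟩
  omega

/-- The tree of a prefix closed set (with fuel). -/
def ofFin : ℕ → Finset (List Bool) → HT
  | 0, _ => .nil
  | n + 1, T => if [] ∈ T then .node (ofFin n (subT false T)) (ofFin n (subT true T)) else .nil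

theorem ofFin_size : ∀ (n : ℕ) (T : Finset (List Bool)), (ofFin n T).size ≤ T.card
  | 0, T => by simp [ofFin, HT.size]
  | n + 1, T => by
    unfold ofFin
    split_ifs with h
    · have h1 := ofFin_size n (subT false T)
      have h2 := ofFin_size n (subT true T)
      have h3 := card_subT T h
      simp only [HT.size]
      omega
    · simp [HT.size]

theorem ofFin_paths : ∀ (n : ℕ) (T : Finset (List Bool)), PrefClosed T →
    ∀ w ∈ T, w.length < n → w ∈ (ofFin n T).paths
  | 0, _, _, _, _, h => by omega
  | n + 1, T, hT, w, hw, hn => by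
    have h0 : [] ∈ T := by simpa using hT w hw 0
    have hsub : ∀ b, PrefClosed (subT b T) := by
      intro b v hv s
      rw [mem_subT] at hv ⊢
      simpa using hT _ hv (s + 1)
    unfold ofFin
    rw [if_pos h0]
    match w with
    | [] => exact HT.nil_mem_paths_node
    | false :: w =>
      refine HT.false_mem_paths_node.2 (ofFin_paths n _ (hsub _) w (mem_subT.2 hw) ?_)
      simp only [List.length_cons] at hn
      omega
    | true :: w =>
      refine HT.true_mem_paths_node.2 (ofFin_paths n _ (hsub _) w (mem_subT.2 hw) ?_)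
      simp only [List.length_cons] at hn
      omega

/-- If every rooted tree of size at most `N` embeds in the cube with root at `x`, then every tree
of maximum degree three on at most `N` vertices is a subgraph of the cube. -/
theorem transfer (m N : ℕ) (x : Fin m → Bool)
    (h : HF (fun a b : Fin m → Bool => hammingDist a b = 1) Finset.univ [(x, N)])
    (V : Type) [Fintype V] [DecidableEq V] (G : SimpleGraph V) [DecidableRel G.Adj]
    (hG : G.IsTree) (hdeg : ∀ v : V, G.degree v ≤ 3) (hcard : Fintype.card V ≤ N) :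
    ∃ f : G →g SimpleGraph.fromRel (fun x y : Fin m → Bool => hammingDist x y = 1),
      Function.Injective f := by
  obtain ⟨s, hs, hpre, hadj⟩ := treeStr V G hG hdeg
  obtain ⟨v0⟩ : Nonempty V := hG.connected.nonempty
  set T : Finset (List Bool) := Finset.univ.image s with hT
  have hTcard : T.card ≤ N := Finset.card_image_le.trans (by simpa using hcard)
  have hTpre : PrefClosed T := by
    intro v hv k
    obtain ⟨a, -, rfl⟩ := Finset.mem_image.mp hv
    obtain ⟨u, hu⟩ := hpre a k
    exact Finset.mem_image.mpr ⟨u, Finset.mem_univ _, hu⟩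
  have hT0 : [] ∈ T := by
    have := hTpre (s v0) (Finset.mem_image_of_mem _ (Finset.mem_univ _)) 0
    simpa using this
  set D : ℕ := T.sup List.length with hD
  have hlen : ∀ w ∈ T, w.length < D + 1 := fun w hw =>
    Nat.lt_succ_of_le (Finset.le_sup (f := List.length) hw)
  have hpath : ∀ w ∈ T, w ∈ (ofFin (D + 1) T).paths := fun w hw =>
    ofFin_paths (D + 1) T hTpre w hw (hlen w hw)
  have hsize := ofFin_size (D + 1) T
  have hnode : ofFin (D + 1) T = .node (ofFin D (subT false T)) (ofFin D (subT true T)) := by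
    rw [ofFin, if_pos hT0]
  obtain ⟨S, p, hF, -⟩ := h [⟨x, ofFin D (subT false T), ofFin D (subT true T)⟩] (by
    refine List.Forall₂.cons ⟨rfl, ?_⟩ List.Forall₂.nil
    rw [hnode] at hsize
    simp only [HT.size] at hsize
    simp only [RT.size]
    omega)
  obtain ⟨A, B, pa, pb, hR, -, -, -, -⟩ := hF
  obtain ⟨φ, -, h2, -, h4⟩ := root_fun hR
  rw [← hnode] at h2 h4
  have hmem : ∀ v, s v ∈ T := fun v => Finset.mem_image_of_mem _ (Finset.mem_univ _)
  have hinj : Function.Injective (fun v => φ (s v)) := by
    intro u v huv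
    exact hs (h2 (hpath _ (hmem u)) (hpath _ (hmem v)) huv)
  refine ⟨⟨fun v => φ (s v), ?_⟩, hinj⟩
  intro a b hab
  rw [SimpleGraph.fromRel_adj]
  refine ⟨fun h => hab.ne (hinj h), ?_⟩
  rcases hadj a b hab with ⟨e, he⟩ | ⟨e, he⟩
  · left
    have := h4 (s a) e (he ▸ hpath _ (hmem b))
    rwa [← he] at this
  · right
    have := h4 (s b) e (he ▸ hpath _ (hmem a))
    rwa [← he] at this

end Pool.Agent.Work.MP_bf01b2_co.MR
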