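import Pool.Agent.Work.MP_bf01b2_co.MR.Level
import Pool.Agent.Work.MP_bf01b2_co.MR.Transfer

/-!
# Marks recursion: the end of the induction
-/

set_option autoImplicit false

namespace Pool.Agent.Work.MP_bf01b2_co.MR

/-- A state with one tree gives the embedding of all trees of maximum degree three. -/
theorem emb_of_gd {m N : ℕ} (h : Gd m 0 0 [N]) (V : Type) [Fintype V] [DecidableEq V]
    (G : SimpleGraph V) [DecidableRel G.Adj] (hG : G.IsTree) (hdeg : ∀ v : V, G.degree v ≤ 3)
    (hcard : Fintype.card V ≤ N) :
    ∃ f : G →g SimpleGraph.fromRel (fun x y : Fin m → Bool => hammingDist x y = 1),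
      Function.Injective f :=
  transfer m N (fun _ => false) (h.toHF (ms := [((fun _ => false), N)]) rfl (by simp)) V G hG hdeg
    hcard

end Pool.Agent.Work.MP_bf01b2_co.MR
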