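import Pool.Agent.Work.MP_bf01b2_co.MR.Unroot
import Pool.Agent.Work.MP_bf01b2_co.MR.CutR

/-!
# Marks recursion: small cubes
-/

set_option autoImplicit false

namespace Pool.Agent.Work.MP_bf01b2_co.MR

/-- a tree uses only the coordinates of `C` -/
theorem slot_free {m : ℕ} : ∀ (t : HT) (C : Finset (Fin m)) (x : Fin m → Bool),
    t.size ≤ C.card → ∃ S p, Slot (cadj m) t x S p ∧
      ∀ y ∈ S, (∃ i ∈ C, y i ≠ x i) ∧ ∀ i, i ∉ C → y i = x i
  | .nil, C, x, _ => ⟨∅, [], ⟨rfl, rfl⟩, by simp⟩
  | .hole, C, x, _ => ⟨∅, [x], ⟨rfl, rfl⟩, by simp⟩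
  | .node l r, C, x, h => by
    rw [HT.size] at h
    have hC : C.Nonempty := by
      rw [← Finset.card_pos]
      omega
    obtain ⟨c, hc⟩ := hC
    have hcard : (C.erase c).card = C.card - 1 := Finset.card_erase_of_mem hc
    obtain ⟨C1, hC1, hC1'⟩ := Finset.exists_subset_card_eq (s := C.erase c) (n := l.size)
      (by omega)
    have hC2 : r.size ≤ (C.erase c \ C1).card := by
      rw [Finset.card_sdiff_of_subset hC1]
      omega
    obtain ⟨A, pa, hA, hA'⟩ := slot_free l C1 (flip c x) hC1'.ge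
    obtain ⟨B, pb, hB, hB'⟩ := slot_free r (C.erase c \ C1) (flip c x) hC2
    have hyA : flip c x ∉ A := fun hh => by
      obtain ⟨⟨i, _, hi⟩, _⟩ := hA' _ hh
      exact hi rfl
    have hyB : flip c x ∉ B := fun hh => by
      obtain ⟨⟨i, _, hi⟩, _⟩ := hB' _ hh
      exact hi rfl
    refine ⟨insert (flip c x) (A ∪ B), pa ++ pb, ⟨flip c x, cadj_flip c x, A, B, pa, pb, hA, hB,
      hyA, hyB, ?_, rfl, rfl⟩, ?_⟩
    · rw [Finset.disjoint_left]
      intro a ha hb
      obtain ⟨⟨i, hi, hi'⟩, _⟩ := hA' _ ha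
      obtain ⟨_, hb'⟩ := hB' _ hb
      exact hi' (hb' i (fun hh => (Finset.mem_sdiff.1 hh).2 hi))
    · intro y hy
      rcases Finset.mem_insert.1 hy with rfl | hy
      · refine ⟨⟨c, hc, ?_⟩, fun i hi => ?_⟩
        · rw [flip_apply_self]; cases x c <;> simp
        · exact flip_apply_of_ne (fun e => hi (by rw [e]; exact hc)) x
      · have key : ∀ C' : Finset (Fin m), C' ⊆ C.erase c →
            (∀ i, i ∉ C' → y i = flip c x i) →
            (∃ i ∈ C, y i ≠ x i) ∧ ∀ i, i ∉ C → y i = x i := by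
          intro C' hC' hh
          refine ⟨⟨c, hc, ?_⟩, fun i hi => ?_⟩
          · rw [hh c (fun e => by simpa using hC' e), flip_apply_self]; cases x c <;> simp
          · rw [hh i (fun e => hi (Finset.mem_of_mem_erase (hC' e))),
              flip_apply_of_ne (fun e => hi (by rw [e]; exact hc)) x]
        rcases Finset.mem_union.1 hy with hy | hy
        · exact key C1 hC1 (hA' _ hy).2
        · exact key _ Finset.sdiff_subset (hB' _ hy).2

theorem root_free {m : ℕ} (l r : HT) (C : Finset (Fin m)) (x : Fin m → Bool)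
    (h : l.size + r.size ≤ C.card) : ∃ S p, Root (cadj m) l r x S p ∧
      ∀ y ∈ S, ∀ i, i ∉ C → y i = x i := by
  obtain ⟨C1, hC1, hC1'⟩ := Finset.exists_subset_card_eq (s := C) (n := l.size) (by omega)
  have hC2 : r.size ≤ (C \ C1).card := by
    rw [Finset.card_sdiff_of_subset hC1]
    omega
  obtain ⟨A, pa, hA, hA'⟩ := slot_free l C1 x hC1'.ge
  obtain ⟨B, pb, hB, hB'⟩ := slot_free r (C \ C1) x hC2
  refine ⟨insert x (A ∪ B), pa ++ pb, ⟨A, B, pa, pb, hA, hB, ?_, ?_, ?_, rfl, rfl⟩, ?_⟩
  · intro hh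
    obtain ⟨⟨i, _, hi⟩, _⟩ := hA' _ hh
    exact hi rfl
  · intro hh
    obtain ⟨⟨i, _, hi⟩, _⟩ := hB' _ hh
    exact hi rfl
  · rw [Finset.disjoint_left]
    intro a ha hb
    obtain ⟨⟨i, hi, hi'⟩, _⟩ := hA' _ ha
    exact hi' ((hB' _ hb).2 i (fun hh => (Finset.mem_sdiff.1 hh).2 hi))
  · intro y hy i hi
    rcases Finset.mem_insert.1 hy with rfl | hy
    · rfl
    · rcases Finset.mem_union.1 hy with hy | hy
      · exact (hA' _ hy).2 i (fun e => hi (hC1 e))
      · exact (hB' _ hy).2 i (fun e => hi (Finset.sdiff_subset e))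

/-- one tree with at most `m + 1` vertices -/
theorem Gd.free (m : ℕ) : Gd m 0 0 [m + 1] := by
  refine Gd.of_HF fun ps _ hlen Ts hTs => ?_
  obtain ⟨x, rfl⟩ := List.length_eq_one_iff.1 hlen
  cases hTs with
  | cons h1 h2 =>
    cases h2
    rename_i T
    obtain ⟨h1, h3⟩ := h1
    rw [RT.size] at h3
    simp only at h1 h3
    obtain ⟨S, p, hS, -⟩ := root_free T.l T.r (Finset.univ : Finset (Fin m)) T.pos
      (by simp; omega)
    exact ⟨S, p, ⟨S, ∅, p, [], hS, ⟨rfl, rfl⟩, by simp, by simp, by simp⟩, Finset.subset_univ _⟩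

/-- one tree with at most `m` vertices and an obstacle -/
theorem Gd.free_one (m : ℕ) : Gd m 0 0 [m, 1] := by
  refine Gd.of_HF fun ps hnd hlen Ts hTs => ?_
  obtain ⟨x, y, rfl⟩ := List.length_eq_two.1 hlen
  cases hTs with
  | cons h1 h2 =>
    cases h2 with
    | cons h4 h5 =>
      cases h5
      rename_i T U
      obtain ⟨h1, h3⟩ := h1
      obtain ⟨h4, h6⟩ := h4
      rw [RT.size] at h3 h6
      simp only at h1 h3 h4 h6
      have hxy : x ≠ y := by simpa using hnd
      obtain ⟨i, hi⟩ := exists_sep hxy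
      obtain ⟨S, p, hS, hS'⟩ := root_free T.l T.r (Finset.univ.erase i) T.pos
        (by rw [Finset.card_erase_of_mem (Finset.mem_univ i)]; simp; omega)
      obtain ⟨R, q, hR, hR'⟩ := root_free U.l U.r ∅ U.pos (by simp; omega)
      refine ⟨S ∪ R, p ++ q, ⟨S, R, p, q, hS, ⟨R, ∅, q, [], hR, ⟨rfl, rfl⟩, by simp, by simp,
        by simp⟩, ?_, rfl, rfl⟩, Finset.subset_univ _⟩
      rw [Finset.disjoint_left]
      intro a ha hb
      have e1 := hS' a ha i (by simp)
      have e2 := hR' a hb i (by simp)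
      rw [h1] at e1
      rw [h4] at e2
      exact hi (e1.symm.trans e2)

/-- a leaf below the root -/
theorem leaf_piece : ∀ t : HT, t.holes = 0 → 2 ≤ t.size → CuttingR t [1]
  | .nil, _, h => by simp [HT.size] at h
  | .hole, _, h => by simp [HT.size] at h
  | .node l r, h0, h => by
    rw [HT.holes] at h0
    rw [HT.size] at h
    by_cases hl : 2 ≤ l.size
    · exact (leaf_piece l (by omega) hl).left
    · by_cases hr : 2 ≤ r.size
      · exact (leaf_piece r (by omega) hr).right
      · by_cases hl1 : l.size = 1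
        · have h1 : CuttingA l [1] := by
            cases l with
            | nil => simp [HT.size] at hl1
            | hole => simp [HT.holes] at h0
            | node a b =>
              simp only [HT.holes] at h0
              exact ⟨.hole, [.node a b], .cut a b (ne_hole_of_holes (by omega))
                (ne_hole_of_holes (by omega)), trivial, by simp [hl1]⟩
          simpa using CuttingA.pair h1 (CuttingR.refl r)
        · have hr1 : r.size = 1 := by omega
          have h1 : CuttingA r [1] := by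
            cases r with
            | nil => simp [HT.size] at hr1
            | hole => simp [HT.holes] at h0
            | node a b =>
              simp only [HT.holes] at h0
              exact ⟨.hole, [.node a b], .cut a b (ne_hole_of_holes (by omega))
                (ne_hole_of_holes (by omega)), trivial, by simp [hr1]⟩
          simpa using CuttingA.pair' (CuttingR.refl l) h1

theorem Gd.four : ∀ s, Gd 4 0 s [8] := by
  refine Gd.unroot (m := 3) (by norm_num) fun l r q hl0 hr0 hl hr hq hN h2 => ?_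
  by_cases hX : l.size + r.size + 1 ≤ 4
  · refine ⟨_, [], FCutR.cons (CutsR.refl l) (CutsR.refl r)
      (ok_of_holes (by rw [HT.holes, HT.clr_holes, HT.clr_holes]))
      (fun _ => ⟨HT.clr_ne l, HT.clr_ne r⟩) .nil, ?_, ?_⟩
    · exact (Gd.free 3).mono le_rfl le_rfl (.cons (by rw [HT.clr_size, HT.clr_size]; exact hX) .nil)
    · exact (Gd.free 3).mono le_rfl le_rfl (.cons (by omega) .nil)
  · have hY : Gd 3 0 0 [1, q] := by
      have h1 : Gd 3 0 0 [q, 1] :=
        (Gd.free_one 3).mono le_rfl le_rfl (.cons (by omega) (.cons le_rfl .nil))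
      exact h1.perm (List.Perm.swap _ _ _)
    by_cases hl2 : 2 ≤ l.size
    · obtain ⟨l', ps, hc, hok, hne, hp⟩ := leaf_piece l hl0 hl2
      have hps : ps.map HT.size = [1] := List.perm_singleton.1 hp
      have hsz := hc.size
      rw [tot, hps] at hsz
      simp only [List.sum_cons, List.sum_nil] at hsz
      refine ⟨_, _, FCutR.cons hc (CutsR.refl r) ⟨fun e => hne e.1, hok,
        ok_of_holes (HT.clr_holes r)⟩ (fun _ => ⟨hne, HT.clr_ne r⟩) .nil, ?_, ?_⟩
      · exact (Gd.free 3).mono le_rfl le_rfl (.cons (by rw [HT.clr_size]; omega) .nil)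
      · simpa [hps] using hY
    · have hr2 : 2 ≤ r.size := by omega
      obtain ⟨r', ps, hc, hok, hne, hp⟩ := leaf_piece r hr0 hr2
      have hps : ps.map HT.size = [1] := List.perm_singleton.1 hp
      have hsz := hc.size
      rw [tot, hps] at hsz
      simp only [List.sum_cons, List.sum_nil] at hsz
      refine ⟨_, _, FCutR.cons (CutsR.refl l) hc ⟨fun e => hne e.2,
        ok_of_holes (HT.clr_holes l), hok⟩ (fun _ => ⟨HT.clr_ne l, hne⟩) .nil, ?_, ?_⟩
      · exact (Gd.free 3).mono le_rfl le_rfl (.cons (by rw [HT.clr_size]; omega) .nil)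
      · simpa [hps] using hY

/-- small cubes -/
theorem Gd.small : Gd 2 0 0 [2] ∧ Gd 3 0 0 [4] ∧ Gd 4 0 0 [8] :=
  ⟨(Gd.free 2).mono le_rfl le_rfl (.cons (by norm_num) .nil), Gd.free 3, Gd.four 0⟩

end Pool.Agent.Work.MP_bf01b2_co.MR
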