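import Pool.Agent.Work.MP_bf01b2_co.MR.B5Base
import Pool.Agent.Work.MP_bf01b2_co.MR.Small
import Pool.Agent.Work.MP_bf01b2_co.MR.Ends

/-!
# Marks recursion: base states
-/

set_option autoImplicit false

namespace Pool.Agent.Work.MP_bf01b2_co.MR

theorem map_fst_zip' {α β : Type*} : ∀ {l : List α} {k : List β}, l.length = k.length →
    (l.zip k).map Prod.fst = l ∧ (l.zip k).map Prod.snd = k
  | [], [], _ => ⟨rfl, rfl⟩
  | a :: l, b :: k, h => by
    obtain ⟨h1, h2⟩ := map_fst_zip' (l := l) (k := k) (by simpa using h)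
    simp [h1, h2]

/-- the hard facts of `Q_5` as states -/
theorem Gd.base5 {v : List ℕ} (h : v.length = 0 ∨ (v.length = 1 ∧ v.sum ≤ 23) ∨
    (v.length = 2 ∧ v.sum ≤ 23) ∨ (v.length = 3 ∧ v.sum ≤ 22) ∨ (v.length = 4 ∧ v.sum ≤ 21))
    (s : ℕ) : Gd 5 0 s v := by
  have h0 : Gd 5 0 0 v := by
    refine Gd.of_HF fun ps hnd hlen => ?_
    obtain ⟨h1, h2⟩ := map_fst_zip' hlen
    refine Tab.base5 _ (by rw [h1]; exact hnd) ?_
    rw [h2, List.length_zip, hlen, min_self]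
    exact h
  have h1 : Gd 5 0 0 (v ++ List.replicate 0 1) := by simpa using h0
  refine Gd.soft_of_hard h1 ?_
  omega

/-- soft states of `Q_5` which come from the hard facts -/
theorem Gd.base5_soft {D : ℕ} {v : List ℕ} (h : v.length + D = 0 ∨
    (v.length + D = 1 ∧ v.sum + D ≤ 23) ∨ (v.length + D = 2 ∧ v.sum + D ≤ 23) ∨
    (v.length + D = 3 ∧ v.sum + D ≤ 22) ∨ (v.length + D = 4 ∧ v.sum + D ≤ 21)) (s : ℕ) :
    Gd 5 D s v := by
  refine Gd.soft_of_hard (Gd.base5 ?_ 0) (by omega)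
  simpa using h

end Pool.Agent.Work.MP_bf01b2_co.MR
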