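import Pool.Agent.Work.MP_bf01b2_co.MR.Soft

/-!
# The exact cutting game for labelled trees (soft positions)

`bad q`: the vertex `q` must not be the root of a piece (it is special: it has an old hole below it
whose label meets the second side). Such a vertex has at most one real child. One cuts below a chain
of bad vertices; then the parent of the chain is still free.
-/

set_option autoImplicit false

namespace Pool.Agent.Work.MP_bf01b2_co.MR

open Classical in
/-- go down through the bad vertices -/
noncomputable def skip {V : Type*} (bad : LT V → Prop) : LT V → LT V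
  | .nil => .nil
  | .hole F => .hole F
  | .node l r => if bad (.node l r) then (if l.size = 0 then skip bad r else skip bad l)
      else .node l r

open Classical in
/-- length of the chain of bad vertices -/
noncomputable def ch {V : Type*} (bad : LT V → Prop) : LT V → ℕ
  | .nil => 0
  | .hole _ => 0
  | .node l r => if bad (.node l r) then (if l.size = 0 then ch bad r else ch bad l) + 1 else 0

open Classical in
/-- number of bad vertices -/
noncomputable def nb {V : Type*} (bad : LT V → Prop) : LT V → ℕ
  | .nil => 0
  | .hole _ => 0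
  | .node l r => (if bad (.node l r) then 1 else 0) + nb bad l + nb bad r

/-- all chains of bad vertices have length at most `κ` -/
def CL {V : Type*} (bad : LT V → Prop) (κ : ℕ) : LT V → Prop
  | .nil => True
  | .hole _ => True
  | .node l r => ch bad (.node l r) ≤ κ ∧ CL bad κ l ∧ CL bad κ r

/-- is it a non empty tree -/
def LT.isNode {V : Type*} : LT V → Bool
  | .node _ _ => true
  | _ => false

/-- sizes of the new pieces -/
def psz {V : Type*} (L : List (LT V)) : List ℕ := (L.filter LT.isNode).map LT.size

section
variable {V : Type*} {bad : LT V → Prop}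

theorem psz_append (L M : List (LT V)) : psz (L ++ M) = psz L ++ psz M := by
  simp [psz]

theorem size_skip (hbad : ∀ l r : LT V, bad (.node l r) → l.size = 0 ∨ r.size = 0) :
    ∀ t : LT V, (skip bad t).size + ch bad t = t.size
  | .nil => by simp [skip, ch]
  | .hole F => by simp [skip, ch]
  | .node l r => by
    unfold skip ch
    by_cases h : bad (.node l r)
    · rw [if_pos h, if_pos h]
      have h1 := hbad l r h
      have h2 := size_skip hbad l
      have h3 := size_skip hbad r
      rw [LT.size_node]
      by_cases h4 : l.size = 0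
      · rw [if_pos h4, if_pos h4]; omega
      · rw [if_neg h4, if_neg h4]; omega
    · rw [if_neg h, if_neg h, add_zero]

theorem nb_skip : ∀ t : LT V, nb bad (skip bad t) + ch bad t ≤ nb bad t
  | .nil => by simp [skip, ch, nb]
  | .hole F => by simp [skip, ch, nb]
  | .node l r => by
    unfold skip ch
    have h2 := nb_skip l
    have h3 := nb_skip r
    by_cases h : bad (.node l r)
    · rw [if_pos h, if_pos h]
      have h5 : nb bad (.node l r) = 1 + nb bad l + nb bad r := by
        conv_lhs => unfold nb
        rw [if_pos h]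
      rw [h5]
      by_cases h4 : l.size = 0
      · rw [if_pos h4, if_pos h4]; omega
      · rw [if_neg h4, if_neg h4]; omega
    · rw [if_neg h, if_neg h, add_zero]

theorem cl_skip {κ : ℕ} : ∀ t : LT V, CL bad κ t → CL bad κ (skip bad t)
  | .nil, h => h
  | .hole F, h => h
  | .node l r, h => by
    unfold skip
    by_cases h1 : bad (.node l r)
    · rw [if_pos h1]
      by_cases h4 : l.size = 0
      · rw [if_pos h4]; exact cl_skip r h.2.2
      · rw [if_neg h4]; exact cl_skip l h.2.1
    · rw [if_neg h1]; exact h

theorem ch_le {κ : ℕ} : ∀ t : LT V, CL bad κ t → ch bad t ≤ κ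
  | .nil, _ => by simp [ch]
  | .hole F, _ => by simp [ch]
  | .node l r, h => h.1

theorem ch_pos {l r : LT V} (h : bad (.node l r)) : 0 < ch bad (.node l r) := by
  unfold ch
  rw [if_pos h]
  omega

theorem ch_zero {l r : LT V} (h : ¬ bad (.node l r)) :
    ch bad (.node l r) = 0 ∧ skip bad (.node l r) = .node l r := by
  unfold ch skip
  rw [if_neg h, if_neg h]
  exact ⟨rfl, rfl⟩

theorem skip_not_bad : ∀ (t : LT V) {l r : LT V}, skip bad t = .node l r → ¬ bad (.node l r)
  | .nil, l, r, h => by simp [skip] at h
  | .hole F, l, r, h => by simp [skip] at h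
  | .node x y, l, r, h => by
    unfold skip at h
    by_cases h1 : bad (.node x y)
    · rw [if_pos h1] at h
      by_cases h4 : x.size = 0
      · rw [if_pos h4] at h; exact skip_not_bad y h
      · rw [if_neg h4] at h; exact skip_not_bad x h
    · rw [if_neg h1] at h
      rw [← h]; exact h1

/-- the root is not cut off -/
def NR (L : List (LT V)) (t' : LT V) : Prop := ¬ ∃ x y, L = [.node x y] ∧ ∃ F, t' = .hole F

/-- Result of a cutting with piece sizes `ts` (up to order). If `nr` then the root is not cut. -/
def LC (nl : LT V → Finset V) (bad : LT V → Prop) (nr : Prop) (t : LT V) (ts : List ℕ) : Prop :=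
  ∃ t' L, LCut nl t t' L ∧ (∀ u ∈ L, u.isNode = true → ¬ bad u) ∧ (nr → NR L t') ∧
    (psz L).Perm ts

theorem LC.imp {nl : LT V → Finset V} {nr nr' : Prop} {t : LT V} {ts : List ℕ}
    (h : LC nl bad nr t ts) (h' : nr' → nr) : LC nl bad nr' t ts := by
  obtain ⟨t', L, h1, h2, h3, h4⟩ := h
  exact ⟨t', L, h1, h2, fun h => h3 (h' h), h4⟩

theorem LC.perm {nl : LT V → Finset V} {nr : Prop} {t : LT V} {ts us : List ℕ}
    (h : LC nl bad nr t ts) (h' : ts.Perm us) : LC nl bad nr t us := by
  obtain ⟨t', L, h1, h2, h3, h4⟩ := h
  exact ⟨t', L, h1, h2, h3, h4.trans h'⟩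

theorem lcut_refl (nl : LT V → Finset V) : ∀ t : LT V, LCut nl t t (t.labs.map LT.hole)
  | .nil => .nil
  | .hole F => .hole F
  | .node l r => by
    have h1 := lcut_refl nl l
    have h2 := lcut_refl nl r
    have h3 := LCut.node h1 h2 (by
      rintro ⟨⟨x, y, hx, -⟩, -⟩
      have : LT.node x y ∈ l.labs.map LT.hole := by rw [hx]; exact List.mem_singleton_self _
      obtain ⟨F, -, hF⟩ := List.mem_map.1 this
      cases hF)
    rw [← List.map_append] at h3
    exact h3

theorem LC.refl (nl : LT V → Finset V) (nr : Prop) (t : LT V) : LC nl bad nr t [] := by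
  refine ⟨t, t.labs.map LT.hole, lcut_refl nl t, ?_, ?_, ?_⟩
  · intro u hu hn
    obtain ⟨F, -, rfl⟩ := List.mem_map.1 hu
    simp [LT.isNode] at hn
  · rintro - ⟨x, y, hx, -⟩
    have : LT.node x y ∈ t.labs.map LT.hole := by rw [hx]; exact List.mem_singleton_self _
    obtain ⟨F, -, hF⟩ := List.mem_map.1 this
    cases hF
  · have : psz (t.labs.map LT.hole) = [] := by
      unfold psz
      rw [List.map_eq_nil_iff, List.filter_eq_nil_iff]
      intro u hu
      obtain ⟨F, -, rfl⟩ := List.mem_map.1 hu
      simp [LT.isNode]
    rw [this]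

theorem LC.join {nl : LT V → Finset V} {n1 n2 nr : Prop} {l r : LT V} {ts us : List ℕ}
    (h1 : LC nl bad n1 l ts) (h2 : LC nl bad n2 r us) (h : n1 ∨ n2) :
    LC nl bad nr (.node l r) (ts ++ us) := by
  obtain ⟨l', L, a1, a2, a3, a4⟩ := h1
  obtain ⟨r', M, b1, b2, b3, b4⟩ := h2
  refine ⟨.node l' r', L ++ M, LCut.node a1 b1 ?_, ?_, ?_, ?_⟩
  · rintro ⟨⟨x, y, hx, F, hF⟩, ⟨x', y', hx', F', hF'⟩⟩
    rcases h with h | h
    · exact a3 h ⟨x, y, hx, F, hF⟩
    · exact b3 h ⟨x', y', hx', F', hF'⟩
  · intro u hu
    rcases List.mem_append.1 hu with hu | hu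
    · exact a2 u hu
    · exact b2 u hu
  · rintro - ⟨x, y, -, F, hF⟩
    cases hF
  · rw [psz_append]
    exact a4.append b4

theorem LC.whole (nl : LT V → Finset V) {l r : LT V} (h : ¬ bad (.node l r)) :
    LC nl bad False (.node l r) [(LT.node l r).size] := by
  refine ⟨_, _, LCut.cut l r, ?_, fun h => h.elim, ?_⟩
  · intro u hu _
    rw [List.mem_singleton] at hu
    rw [hu]; exact h
  · simp [psz, LT.isNode]

/-- a cutting below a chain of bad vertices -/
theorem LC.lift {nl : LT V → Finset V} {ts : List ℕ}
    (hbad : ∀ l r : LT V, bad (.node l r) → l.size = 0 ∨ r.size = 0) :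
    ∀ {t : LT V}, LC nl bad False (skip bad t) ts → LC nl bad (t.isNode = true ∧ bad t) t ts
  | .nil, h => h.imp (fun h => by simp [LT.isNode] at h)
  | .hole F, h => h.imp (fun h => by simp [LT.isNode] at h)
  | .node l r, h => by
    unfold skip at h
    by_cases h1 : bad (.node l r)
    · rw [if_pos h1] at h
      by_cases h4 : l.size = 0
      · rw [if_pos h4] at h
        have h5 := LC.lift hbad h
        simpa using LC.join (nr := (LT.node l r).isNode = true ∧ bad (.node l r))
          (LC.refl nl True l) h5 (Or.inl trivial)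
      · rw [if_neg h4] at h
        have h5 := LC.lift hbad h
        simpa using LC.join (nr := (LT.node l r).isNode = true ∧ bad (.node l r))
          h5 (LC.refl nl True r) (Or.inr trivial)
    · rw [if_neg h1] at h
      exact h.imp (fun h => h1 h.2)

/-- move the tree below the chain of bad vertices -/
theorem LC.move (nl : LT V → Finset V)
    (hbad : ∀ l r : LT V, bad (.node l r) → l.size = 0 ∨ r.size = 0) {t : LT V}
    (h : 1 ≤ (skip bad t).size) :
    LC nl bad (t.isNode = true ∧ bad t) t [(skip bad t).size] := by
  apply LC.lift hbad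
  cases hs : skip bad t with
  | nil => rw [hs] at h; simp at h
  | hole F => rw [hs] at h; simp at h
  | node l r => exact LC.whole nl (skip_not_bad t hs)

end

/-- The exact game. `κ` bounds the chains of bad vertices, `s` their number; `mov`: the active
subtree (below its chain) may be moved itself. `ss` = sizes of the pieces cut so far. -/
def SWin (κ : ℕ) (Acc : List ℕ → Prop) : ℕ → Bool → ℕ → List ℕ → ℕ → Prop
  | 0, mov, _, ss, S => Acc ss ∨ (mov = true ∧ 1 ≤ S ∧ Acc (S :: ss))
  | n + 1, mov, s, ss, S => Acc ss ∨ (mov = true ∧ 1 ≤ S ∧ Acc (S :: ss)) ∨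
      (1 ≤ S ∧ ∀ a b ka kb, ka ≤ κ → kb ≤ κ → ka + kb ≤ s → a + b + (ka + kb) + 1 = S →
        b ≤ a →
        (SWin κ Acc n true (s - (ka + kb)) ss a ∨ SWin κ Acc n true (s - (ka + kb)) ss b ∨
          (1 ≤ a ∧ SWin κ Acc n (decide (0 < ka + kb)) (s - (ka + kb)) (a :: ss) b) ∨
          (1 ≤ b ∧ SWin κ Acc n (decide (0 < ka + kb)) (s - (ka + kb)) (b :: ss) a)))

theorem SWin.acc {κ : ℕ} {Acc : List ℕ → Prop} {n s S : ℕ} {mov : Bool} {ss : List ℕ}
    (h : Acc ss) : SWin κ Acc n mov s ss S := by
  cases n with
  | zero => exact Or.inl h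
  | succ n => exact Or.inl h

section
variable {V : Type*} {bad : LT V → Prop}

/-- flag of the result -/
def nrf (bad : LT V → Prop) (mov : Bool) (t : LT V) : Prop :=
  mov = true → (t.isNode = true ∧ bad t)

/-- The step at a vertex `node l r` whose root is not moved. -/
theorem swin_vertex {nl : LT V → Finset V} {κ : ℕ} {Acc : List ℕ → Prop} {n : ℕ}
    {ss : List ℕ}
    (hbad : ∀ l r : LT V, bad (.node l r) → l.size = 0 ∨ r.size = 0)
    (ih : ∀ (mov : Bool) (s : ℕ) (ss : List ℕ) (t : LT V), CL bad κ t →
      nb bad (if mov then skip bad t else t) ≤ s →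
      SWin κ Acc n mov s ss (if mov then (skip bad t).size else t.size) →
      ∃ ts, LC nl bad (nrf bad mov t) t ts ∧ Acc (ts ++ ss))
    {x y : LT V} (hx : CL bad κ x) (hy : CL bad κ y) {s' : ℕ}
    (hs : nb bad (skip bad x) ≤ s' ∧ nb bad (skip bad y) ≤ s')
    (hs1 : ch bad x + ch bad y = 0 → nb bad x ≤ s' ∧ nb bad y ≤ s')
    (h : SWin κ Acc n true s' ss (skip bad x).size ∨
      (1 ≤ (skip bad x).size ∧
        SWin κ Acc n (decide (0 < ch bad x + ch bad y)) s' ((skip bad x).size :: ss)
          (skip bad y).size)) :
    ∃ ts, (∀ nr, LC nl bad nr (.node x y) ts) ∧ (∀ nr, LC nl bad nr (.node y x) ts) ∧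
      Acc (ts ++ ss) := by
  rcases h with h | ⟨h1, h⟩
  · obtain ⟨ts, h2, h3⟩ := ih true s' ss x hx (by simpa using hs.1) (by simpa using h)
    refine ⟨ts, fun nr => ?_, fun nr => ?_, h3⟩
    · simpa using LC.join (nr := nr) h2 (LC.refl nl True y) (Or.inr trivial)
    · simpa using LC.join (nr := nr) (LC.refl nl True y) h2 (Or.inl trivial)
  · have hm := LC.move nl hbad h1
    by_cases hk : 0 < ch bad x + ch bad y
    · rw [decide_eq_true hk] at h
      obtain ⟨ts, h2, h3⟩ := ih true s' _ y hy (by simpa using hs.2) (by simpa using h)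
      have hor : (x.isNode = true ∧ bad x) ∨ nrf bad true y := by
        by_cases hbx : 0 < ch bad x
        · left
          cases x with
          | nil => simp [ch] at hbx
          | hole F => simp [ch] at hbx
          | node l r =>
            refine ⟨rfl, ?_⟩
            by_contra hb
            rw [(ch_zero hb).1] at hbx
            omega
        · right
          intro _
          have hby : 0 < ch bad y := by omega
          cases y with
          | nil => simp [ch] at hby
          | hole F => simp [ch] at hby
          | node l r =>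
            refine ⟨rfl, ?_⟩
            by_contra hb
            rw [(ch_zero hb).1] at hby
            omega
      refine ⟨ts ++ [(skip bad x).size], fun nr => ?_, fun nr => ?_, by simpa using h3⟩
      · exact (LC.join (nr := nr) hm h2 hor).perm List.perm_append_comm
      · exact LC.join (nr := nr) h2 hm hor.symm
    · have hk0 : ch bad x + ch bad y = 0 := by omega
      have hy0 : (skip bad y).size = y.size := by
        have := size_skip hbad y
        omega
      rw [decide_eq_false hk, hy0] at h
      obtain ⟨ts, h2, h3⟩ := ih false s' _ y hy (by simpa using (hs1 hk0).2) (by simpa using h)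
      have hn : nrf bad false y := by intro h; simp at h
      refine ⟨ts ++ [(skip bad x).size], fun nr => ?_, fun nr => ?_, by simpa using h3⟩
      · exact (LC.join (nr := nr) hm h2 (Or.inr hn)).perm List.perm_append_comm
      · exact LC.join (nr := nr) h2 hm (Or.inl hn)

/-- **Soundness of the exact game for labelled trees.** -/
theorem swin_sound (nl : LT V → Finset V) {κ : ℕ} (Acc : List ℕ → Prop)
    (hbad : ∀ l r : LT V, bad (.node l r) → l.size = 0 ∨ r.size = 0) :
    ∀ (n : ℕ) (mov : Bool) (s : ℕ) (ss : List ℕ) (t : LT V), CL bad κ t →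
      nb bad (if mov then skip bad t else t) ≤ s →
      SWin κ Acc n mov s ss (if mov then (skip bad t).size else t.size) →
      ∃ ts, LC nl bad (nrf bad mov t) t ts ∧ Acc (ts ++ ss) := by
  intro n
  induction n with
  | zero =>
    intro mov s ss t _ _ h
    rcases h with h | ⟨rfl, h1, h⟩
    · exact ⟨[], LC.refl nl _ t, by simpa using h⟩
    · simp only [if_true] at h1 h
      exact ⟨[(skip bad t).size], (LC.move nl hbad h1).imp (fun h => h rfl), by simpa using h⟩
  | succ n ih =>
    intro mov s ss t hCL hnb h
    rcases h with h | ⟨rfl, h1, h⟩ | ⟨hS, h⟩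
    · exact ⟨[], LC.refl nl _ t, by simpa using h⟩
    · simp only [if_true] at h1 h
      exact ⟨[(skip bad t).size], (LC.move nl hbad h1).imp (fun h => h rfl), by simpa using h⟩
    · -- the vertex at which we look
      have key : ∀ l r : LT V, CL bad κ l → CL bad κ r → nb bad l + nb bad r ≤ s →
          (∀ a b ka kb, ka ≤ κ → kb ≤ κ → ka + kb ≤ s →
            a + b + (ka + kb) + 1 = (LT.node l r).size → b ≤ a →
            (SWin κ Acc n true (s - (ka + kb)) ss a ∨ SWin κ Acc n true (s - (ka + kb)) ss b ∨
              (1 ≤ a ∧ SWin κ Acc n (decide (0 < ka + kb)) (s - (ka + kb)) (a :: ss) b) ∨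
              (1 ≤ b ∧ SWin κ Acc n (decide (0 < ka + kb)) (s - (ka + kb)) (b :: ss) a))) →
          ∃ ts, (∀ nr, LC nl bad nr (.node l r) ts) ∧ Acc (ts ++ ss) := by
        intro l r hl hr hs h
        have e1 := size_skip hbad l
        have e2 := size_skip hbad r
        have e3 := nb_skip (bad := bad) l
        have e4 := nb_skip (bad := bad) r
        have e5 := ch_le l hl
        have e6 := ch_le r hr
        rcases le_total (skip bad r).size (skip bad l).size with hlr | hlr
        · rcases h (skip bad l).size (skip bad r).size (ch bad l) (ch bad r) e5 e6 (by omega)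
            (by rw [LT.size_node]; omega) hlr with h | h | h | h
          · obtain ⟨ts, h1, -, h2⟩ := swin_vertex (nl := nl) hbad ih hl hr
              (s' := s - (ch bad l + ch bad r)) ⟨by omega, by omega⟩
              (fun _ => ⟨by omega, by omega⟩) (Or.inl h)
            exact ⟨ts, h1, h2⟩
          · obtain ⟨ts, -, h1, h2⟩ := swin_vertex (nl := nl) hbad ih hr hl
              (s' := s - (ch bad l + ch bad r)) ⟨by omega, by omega⟩
              (fun _ => ⟨by omega, by omega⟩) (Or.inl h)
            exact ⟨ts, h1, h2⟩
          · obtain ⟨ts, h1, -, h2⟩ := swin_vertex (nl := nl) hbad ih hl hr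
              (s' := s - (ch bad l + ch bad r)) ⟨by omega, by omega⟩
              (fun _ => ⟨by omega, by omega⟩) (Or.inr h)
            exact ⟨ts, h1, h2⟩
          · obtain ⟨ts, -, h1, h2⟩ := swin_vertex (nl := nl) hbad ih hr hl
              (s' := s - (ch bad l + ch bad r)) ⟨by omega, by omega⟩
              (fun _ => ⟨by omega, by omega⟩)
              (Or.inr (by rw [Nat.add_comm (ch bad r)]; exact h))
            exact ⟨ts, h1, h2⟩
        · rcases h (skip bad r).size (skip bad l).size (ch bad r) (ch bad l) e6 e5 (by omega)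
            (by rw [LT.size_node]; omega) hlr with h | h | h | h
          · obtain ⟨ts, -, h1, h2⟩ := swin_vertex (nl := nl) hbad ih hr hl
              (s' := s - (ch bad r + ch bad l)) ⟨by omega, by omega⟩
              (fun _ => ⟨by omega, by omega⟩) (Or.inl h)
            exact ⟨ts, h1, h2⟩
          · obtain ⟨ts, h1, -, h2⟩ := swin_vertex (nl := nl) hbad ih hl hr
              (s' := s - (ch bad r + ch bad l)) ⟨by omega, by omega⟩
              (fun _ => ⟨by omega, by omega⟩) (Or.inl h)
            exact ⟨ts, h1, h2⟩
          · obtain ⟨ts, -, h1, h2⟩ := swin_vertex (nl := nl) hbad ih hr hl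
              (s' := s - (ch bad r + ch bad l)) ⟨by omega, by omega⟩
              (fun _ => ⟨by omega, by omega⟩) (Or.inr h)
            exact ⟨ts, h1, h2⟩
          · obtain ⟨ts, h1, -, h2⟩ := swin_vertex (nl := nl) hbad ih hl hr
              (s' := s - (ch bad r + ch bad l)) ⟨by omega, by omega⟩
              (fun _ => ⟨by omega, by omega⟩)
              (Or.inr (by rw [Nat.add_comm (ch bad l)]; exact h))
            exact ⟨ts, h1, h2⟩
      cases mov with
      | false =>
        simp only [Bool.false_eq_true, if_false] at hnb hS h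
        cases t with
        | nil => simp at hS
        | hole F => simp at hS
        | node l r =>
          have hnb' : nb bad l + nb bad r ≤ s := by
            unfold nb at hnb
            omega
          obtain ⟨ts, h1, h2⟩ := key l r hCL.2.1 hCL.2.2 hnb' h
          exact ⟨ts, h1 _, h2⟩
      | true =>
        simp only [if_true] at hnb hS h
        have hCL' := cl_skip t hCL
        cases hs : skip bad t with
        | nil => rw [hs] at hS; simp at hS
        | hole F => rw [hs] at hS; simp at hS
        | node l r =>
          rw [hs] at hnb h hCL'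
          have hnb' : nb bad l + nb bad r ≤ s := by
            unfold nb at hnb
            omega
          obtain ⟨ts, h1, h2⟩ := key l r hCL'.2.1 hCL'.2.2 hnb' h
          refine ⟨ts, ?_, h2⟩
          have h3 : LC nl bad False (skip bad t) ts := by rw [hs]; exact h1 False
          exact (LC.lift hbad h3).imp (fun h => h rfl)

end

end Pool.Agent.Work.MP_bf01b2_co.MR
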