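import Pool.Agent.Work.MP_bf01b2_co.MR.Lift2

/-!
# Marks recursion: the level lemma with copied positions, hardening, clean counts and paths
-/

set_option autoImplicit false

namespace Pool.Agent.Work.MP_bf01b2_co.MR

section
variable {V : Type*}

/-- cutting does not destroy paths if the new labels are irrelevant -/
theorem LCut.pth' {nl : LT V → Finset V} {t t' : LT V} {L : List (LT V)} (R : Finset V → Bool)
    (h : LCut nl t t' L) : (∀ u ∈ pieces L, R (nl u) = false) →
    ((t'.core R).holes ≤ (t.core R).holes) ∧ ((t.core R).off → (t'.core R).off) ∧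
      ((t.core R).pth → (t'.core R).pth) := by
  induction h with
  | nil => intro _; exact ⟨le_rfl, fun h => h, fun h => h⟩
  | hole F => intro _; exact ⟨le_rfl, fun h => h, fun h => h⟩
  | cut l r =>
    intro h
    have h1 := h (.node l r) (by simp [pieces])
    have h2 : LT.core R (.hole (nl (.node l r))) = .nil := by
      unfold LT.core
      rw [h1]
      rfl
    rw [h2]
    exact ⟨Nat.zero_le _, fun _ => Or.inr rfl, fun _ => trivial⟩
  | @node l r l' r' L M _ _ _ ih1 ih2 =>
    intro h
    obtain ⟨a1, a2, a3⟩ := ih1 fun u hu => h u (by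
      rw [pieces_append]; exact List.mem_append_left _ hu)
    obtain ⟨b1, b2, b3⟩ := ih2 fun u hu => h u (by
      rw [pieces_append]; exact List.mem_append_right _ hu)
    refine ⟨?_, ?_, ?_⟩
    · simp only [LT.core, HT.holes]
      exact Nat.add_le_add a1 b1
    · rintro (h1 | h1)
      · simp [LT.core] at h1
      · right
        simp only [LT.core, HT.holes] at h1 ⊢
        omega
    · rintro (h1 | h1)
      · exact Or.inl ⟨a2 h1.1, b3 h1.2⟩
      · exact Or.inr ⟨a3 h1.1, b2 h1.2⟩

theorem LFCut.pth' {nl : LT V → Finset V} {Ts Ts' : List (LRT V)} {L : List (LT V)}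
    (R : Finset V → Bool) (h : LFCut nl Ts Ts' L) : (∀ u ∈ pieces L, R (nl u) = false) →
    (∀ T ∈ Ts, PT R T) → ∀ T ∈ Ts', PT R T := by
  induction h with
  | nil => intro _ _; simp
  | @cons T T' Ts Ts' L M hp h _ ih =>
    intro h1 h2 W hW
    rw [pieces_append] at h1
    rcases List.mem_cons.1 hW with rfl | hW
    · exact (h.pth' R fun u hu => h1 u (List.mem_append_left _ hu)).2.2 (h2 T List.mem_cons_self)
    · exact ih (fun u hu => h1 u (List.mem_append_right _ hu))
        (fun T hT => h2 T (List.mem_cons_of_mem _ hT)) W hW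

end

theorem PT_res {m : ℕ} {j : Fin (m + 1)} {b : Bool} {R : Finset (Fin m → Bool) → Bool}
    {T : LRT (Fin (m + 1) → Bool)} : PT R (resT j b T) ↔ PT (fun F => R (resL j b F)) T := by
  unfold PT
  have h7 : (resT j b T).tree = T.tree.mapL (resL j b) := rfl
  rw [h7, LT.core_mapL]

theorem resL_empty {m : ℕ} {j : Fin (m + 1)} {b : Bool} : resL j b ∅ = ∅ := by
  unfold resL
  simp

/-- **The step with all counts.** `a`, `c` = numbers of the old labels of the first and of the second
side, `O` = the old soft positions of the first side. -/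
theorem step_counts {m : ℕ} {Q : HT → Prop} (j : Fin (m + 1)) (b : Bool)
    (K : Finset (Fin (m + 1) → Bool))
    {TX TH TY : List (LRT (Fin (m + 1) → Bool))}
    (hnd : ((TX ++ (TH ++ TY)).map LRT.pos).Nodup)
    (hok : ∀ T ∈ TX ++ (TH ++ TY), RootOK T)
    (hTX : ∀ T ∈ TX, T.pos j = b) (hTH : ∀ T ∈ TH, T.pos j = !b)
    (hTHl : ∀ T ∈ TH, ∃ x y, T.l = .node x y)
    (hTHr : ∀ T ∈ TH, RootOK (hopT (flip j T.pos) T))
    (hTHm : ∀ T ∈ TH, flip j T.pos ∉ poss TX)
    (hTY : ∀ T ∈ TY, T.pos j = !b) {sz : List ℕ} {us : List HT}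
    (hcut : FCutQ Q ((TX ++ TH.map (fun T => hopT (flip j T.pos) T)).map
      (cdatK j b K (poss TH ∪ poss TY))) sz us)
    {dX dY new : ℕ}
    (hdX : ((softs (TX ++ (TH ++ TY)) \ poss (TX ++ (TH ++ TY))).filter (fun x => x j = b)).card
      ≤ dX)
    (hdY : ((softs (TX ++ (TH ++ TY)) \ poss (TX ++ (TH ++ TY))).filter (fun x => x j = !b)).card
      ≤ dY)
    (hnew : us ≠ [] → ((poss TY ∪ K) \ ((poss TX).image (flip j) ∪ poss TH)).card ≤ new) :
    ∃ (FX : List (LRT (Fin m → Bool))) (O : Finset (Fin m → Bool)) (a c : ℕ),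
      a + c ≤ nspec (TX ++ (TH ++ TY)) ∧
      (FX.map LRT.pos).Nodup ∧ (∀ T ∈ FX, RootOK T) ∧
      List.Forall₂ (fun T n => LRT.size T ≤ n) FX sz ∧
      Disjoint O (poss FX) ∧ O.card ≤ dX ∧
      (softs FX \ poss FX).card ≤ dX + (if us = [] then 0 else new) ∧
      nspecO (poss FX) FX ≤ (if dX = 0 then 0 else a) + (if new = 0 then 0 else us.length) ∧
      (softs FX \ (poss FX ∪ O)).card ≤ (if us = [] then 0 else new) ∧
      nspecO (poss FX ∪ O) FX ≤ (if new = 0 then 0 else us.length) ∧
      ((∀ T ∈ TX ++ (TH ++ TY), T.tree.pth) → us = [] ∨ new = 0 →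
        ∀ T ∈ FX, PT (notIn (poss FX)) T) ∧
      ((∀ h, Q h → h.pth) → ∀ T ∈ FX, PT (notIn (poss FX ∪ O)) T) ∧
      ((∃ S, Emb (cadj m) FX S) →
        (∀ FY : List (LRT (Fin m → Bool)), (FY.map LRT.pos).Nodup → (∀ T ∈ FY, RootOK T) →
          List.Forall₂ (fun T n => LRT.size T ≤ n) FY
            (us.map HT.size ++ (TH.map (fun T => (hopR T).size) ++ TY.map LRT.size)) →
          (softs FY \ poss FY).card ≤ dY →
          nspecO (poss FY) FY ≤ (if dY = 0 then 0 else c) →
          ((∀ T ∈ TX ++ (TH ++ TY), T.tree.pth) → ∀ T ∈ FY, PT (notIn (poss FY)) T) →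
          ∃ S, Emb (cadj m) FY S) →
        ∃ S, Emb (cadj (m + 1)) (TX ++ (TH ++ TY)) S) := by
  classical
  obtain ⟨Us', L, c1, c2, hlen, hUb, n1, n2, n3, n4, n5, n6, n7⟩ :=
    step_data j b K hnd hok hTX hTH hTHl hTHr hTHm hTY hcut
  obtain ⟨TT, hTT⟩ : ∃ TT, TT = TX ++ (TH ++ TY) := ⟨_, rfl⟩
  obtain ⟨Us, hUs⟩ : ∃ Us, Us = TX ++ TH.map (fun T => hopT (flip j T.pos) T) := ⟨_, rfl⟩
  obtain ⟨FX, hFX⟩ : ∃ FX, FX = Us'.map (resT j b) := ⟨_, rfl⟩
  rw [← hTT] at hdX hdY ⊢
  rw [← hUs] at c1 n6
  rw [← hFX] at n1 n2 n3 n4 n7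
  have hlabs : Us.flatMap LRT.labs = L.flatMap LT.labs := c1.graft.labs
  -- every label of the first side is a label of the given forest
  have holdlab : ∀ F ∈ Us.flatMap LRT.labs, ∀ x ∈ F, x ∈ softs TT := by
    intro F hF x hx
    obtain ⟨U, hU, hFU⟩ := List.mem_flatMap.1 hF
    rw [hUs] at hU
    rw [hTT]
    rcases List.mem_append.1 hU with h | h
    · exact mem_softs.2 ⟨U, List.mem_append_left _ h, F, hFU, hx⟩
    · obtain ⟨T, hT, rfl⟩ := List.mem_map.1 h
      exact mem_softs.2 ⟨T, List.mem_append_right _ (List.mem_append_left _ hT), F,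
        mem_hop_labs (hTHl T hT) hFU, hx⟩
  have hposs : poss TT = poss TX ∪ (poss TH ∪ poss TY) := by
    rw [hTT, poss_append, poss_append]
  have hsideX : ∀ x ∈ poss TX, x j = b := by
    intro x hx
    obtain ⟨T, hT, rfl⟩ := mem_poss.1 hx
    exact hTX T hT
  have hsideH : ∀ x ∈ poss TH, x j = !b := by
    intro x hx
    obtain ⟨T, hT, rfl⟩ := mem_poss.1 hx
    exact hTH T hT
  have hsideY : ∀ x ∈ poss TY, x j = !b := by
    intro x hx
    obtain ⟨T, hT, rfl⟩ := mem_poss.1 hx
    exact hTY T hT
  -- the old soft positions of the first side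
  obtain ⟨O, hO⟩ : ∃ O : Finset (Fin m → Bool), O = Finset.univ.filter fun x =>
    ins j b x ∈ softs TT ∧ x ∉ poss FX := ⟨_, rfl⟩
  have hmemO : ∀ x, x ∈ O ↔ ins j b x ∈ softs TT ∧ x ∉ poss FX := by
    intro x
    rw [hO, Finset.mem_filter]
    simp
  have hOdis : Disjoint O (poss FX) := by
    rw [Finset.disjoint_left]
    intro x hx
    exact ((hmemO x).1 hx).2
  have hOcard : O.card ≤ dX := by
    refine le_trans ?_ hdX
    rw [← Finset.card_map (ins j b)]
    refine Finset.card_le_card ?_
    intro y hy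
    obtain ⟨x, hx, rfl⟩ := Finset.mem_map.1 hy
    obtain ⟨h1, h2⟩ := (hmemO x).1 hx
    rw [Finset.mem_filter, Finset.mem_sdiff]
    refine ⟨⟨h1, ?_⟩, ins_self⟩
    rw [hposs, Finset.mem_union, Finset.mem_union]
    rintro (h | h | h)
    · exact h2 ((n4 x).2 (Finset.mem_union_left _ h))
    · have := hsideH _ h
      rw [ins_self] at this
      cases b <;> simp at this
    · have := hsideY _ h
      rw [ins_self] at this
      cases b <;> simp at this
  -- the new soft positions of the first side
  obtain ⟨N, hN⟩ : ∃ N : Finset (Fin m → Bool), N = Finset.univ.filter fun x =>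
    ins j b x ∈ (poss TH ∪ poss TY ∪ K).image (flip j) ∧ x ∉ poss FX := ⟨_, rfl⟩
  have hmemN : ∀ x, x ∈ N ↔ ins j b x ∈ (poss TH ∪ poss TY ∪ K).image (flip j) ∧
      x ∉ poss FX := by
    intro x
    rw [hN, Finset.mem_filter]
    simp
  have hNcard : us ≠ [] → N.card ≤ new := by
    intro hus
    refine le_trans ?_ (hnew hus)
    have e1 : N.card = ((N.map (ins j b)).image (flip j)).card := by
      rw [Finset.card_image_of_injective _ (flip_injective j), Finset.card_map]
    rw [e1]
    refine Finset.card_le_card ?_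
    intro z hz
    obtain ⟨y, hy, rfl⟩ := Finset.mem_image.1 hz
    obtain ⟨x, hx, rfl⟩ := Finset.mem_map.1 hy
    obtain ⟨h1, h2⟩ := (hmemN x).1 hx
    obtain ⟨w, hw, hwx⟩ := Finset.mem_image.1 h1
    have hw' : flip j (ins j b x) = w := by rw [← hwx, flip_flip]
    rw [hw', Finset.mem_sdiff]
    have h3 : w ∉ (poss TX).image (flip j) := by
      intro h
      obtain ⟨v, hv, hvw⟩ := Finset.mem_image.1 h
      apply h2
      refine (n4 x).2 (Finset.mem_union_left _ ?_)
      rw [← hwx, ← hvw, flip_flip]
      exact hv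
    have h4 : w ∉ poss TH := by
      intro h
      apply h2
      refine (n4 x).2 (Finset.mem_union_right _ ?_)
      rw [← hwx]
      exact Finset.mem_image_of_mem _ h
    refine ⟨?_, fun h => (Finset.mem_union.1 h).elim h3 h4⟩
    rcases Finset.mem_union.1 hw with h | h
    · rcases Finset.mem_union.1 h with h | h
      · exact absurd h h4
      · exact Finset.mem_union_left _ h
    · exact Finset.mem_union_right _ h
  -- old and new labels
  have hold : ∀ F ∈ Us.flatMap LRT.labs, resL j b F ⊆ poss FX ∪ O := by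
    intro F hF x hx
    by_cases h : x ∈ poss FX
    · exact Finset.mem_union_left _ h
    · exact Finset.mem_union_right _ ((hmemO x).2 ⟨holdlab F hF _ (mem_resL.1 hx), h⟩)
  have hnewl : ∀ u ∈ pieces L, resL j b (nlab j (TH.map hopR ++ TY) u) ⊆ poss FX ∪ N := by
    intro u hu x hx
    by_cases h : x ∈ poss FX
    · exact Finset.mem_union_left _ h
    · exact Finset.mem_union_right _ ((hmemN x).2 ⟨n5 u hu _ ins_self (mem_resL.1 hx), h⟩)
  have hpieces : us = [] → pieces L = [] := by
    intro h
    rw [h, List.length_nil, List.length_eq_zero_iff] at hlen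
    exact hlen
  have hnew0 : us = [] ∨ new = 0 → ∀ u ∈ pieces L,
      resL j b (nlab j (TH.map hopR ++ TY) u) ⊆ poss FX := by
    intro h u hu
    by_cases hus : us = []
    · rw [hpieces hus] at hu
      simp at hu
    · have h1 : new = 0 := h.resolve_left hus
      have h2 : N = ∅ := Finset.card_eq_zero.1 (Nat.le_zero.1 (h1 ▸ hNcard hus))
      have h3 := hnewl u hu
      rwa [h2, Finset.union_empty] at h3
  have hFXlabs : FX.flatMap LRT.labs = (Us'.flatMap LRT.labs).map (resL j b) := by
    rw [hFX]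
    unfold resT
    rw [flatMap_mapL]
  have holds : ∀ F ∈ olds L, F ∈ Us.flatMap LRT.labs := fun F hF => by
    rw [hlabs]; exact mem_olds hF
  have hsoftsFX : ∀ x ∈ softs FX, x ∈ poss FX ∨ x ∈ O ∨ (us ≠ [] ∧ x ∈ N) := by
    intro x hx
    unfold softs at hx
    rw [hFXlabs] at hx
    obtain ⟨F', hF', hxF⟩ := mem_foldr_union.1 hx
    obtain ⟨F, hF, rfl⟩ := List.mem_map.1 hF'
    rcases mem_rel c1.rel F hF with h1 | ⟨u, hu, hFu⟩
    · rcases Finset.mem_union.1 (hold F (holds F h1) hxF) with h | h
      · exact Or.inl h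
      · exact Or.inr (Or.inl h)
    · rw [hFu] at hxF
      rcases Finset.mem_union.1 (hnewl u hu hxF) with h | h
      · exact Or.inl h
      · refine Or.inr (Or.inr ⟨?_, h⟩)
        intro hus
        rw [hpieces hus] at hu
        simp at hu
  have hNif : (if us = [] then (∅ : Finset (Fin m → Bool)) else N).card ≤
      if us = [] then 0 else new := by
    split_ifs with h
    · simp
    · exact hNcard h
  -- counting
  obtain ⟨a, ha⟩ : ∃ a, a = (olds L).countP (fun F => decide (F ≠ ∅)) := ⟨_, rfl⟩
  obtain ⟨c, hc⟩ : ∃ c, c = ((pieces L).flatMap LT.labs).countP (fun F => decide (F ≠ ∅)) +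
    nspec (TH.map hopR ++ TY) := ⟨_, rfl⟩
  have hcount : a + c ≤ nspec TT := by
    have e1 := countP_split (fun F : Finset (Fin (m + 1) → Bool) => decide (F ≠ ∅)) L
    rw [← hlabs, hUs, List.flatMap_append, List.countP_append] at e1
    have e2 := hops_labs (σ := flip j) (fun F : Finset (Fin (m + 1) → Bool) => decide (F ≠ ∅))
      (by simp) hTHl
    have e3 : nspec TT = (TX.flatMap LRT.labs).countP (fun F => decide (F ≠ ∅)) +
        ((TH.flatMap LRT.labs).countP (fun F => decide (F ≠ ∅)) +
          (TY.flatMap LRT.labs).countP (fun F => decide (F ≠ ∅))) := by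
      rw [hTT, nspec_append, nspec_append]; rfl
    have e4 : nspec (TH.map hopR ++ TY) =
        ((TH.map hopR).flatMap LRT.labs).countP (fun F => decide (F ≠ ∅)) +
          (TY.flatMap LRT.labs).countP (fun F => decide (F ≠ ∅)) := by
      rw [nspec_append]; rfl
    omega
  have hcnt : ∀ P : Finset (Fin m → Bool), poss FX ⊆ P →
      nspecO P FX ≤ (olds L).countP (fun F => decide (¬ resL j b F ⊆ P)) +
        (if new = 0 then 0 else us.length) := by
    intro P hP
    unfold nspecO
    rw [hFXlabs, List.countP_map]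
    split_ifs with h
    · rw [add_zero]
      refine countP_rel_of (fun F => decide (¬ resL j b F ⊆ P)) c1.rel fun u hu => ?_
      rw [decide_eq_false_iff_not, not_not]
      exact (hnew0 (Or.inr h) u hu).trans hP
    · rw [← hlen]
      exact countP_rel (fun F => decide (¬ resL j b F ⊆ P)) c1.rel
  refine ⟨FX, O, a, c, hcount, n1, n2, n3, hOdis, hOcard, ?_, ?_, ?_, ?_, ?_, ?_, ?_⟩
  · have hsub : softs FX \ poss FX ⊆ O ∪ (if us = [] then ∅ else N) := by
      intro x hx
      rw [Finset.mem_sdiff] at hx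
      rcases hsoftsFX x hx.1 with h | h | ⟨h, h'⟩
      · exact absurd h hx.2
      · exact Finset.mem_union_left _ h
      · rw [if_neg h]
        exact Finset.mem_union_right _ h'
    exact (Finset.card_le_card hsub).trans ((Finset.card_union_le _ _).trans
      (Nat.add_le_add hOcard hNif))
  · refine (hcnt (poss FX) (Finset.Subset.refl _)).trans (Nat.add_le_add_right ?_ _)
    split_ifs with h
    · have h1 : O = ∅ := Finset.card_eq_zero.1 (Nat.le_zero.1 (h ▸ hOcard))
      rw [Nat.le_zero, List.countP_eq_zero]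
      intro F hF
      rw [decide_eq_true_iff, not_not]
      have h2 := hold F (holds F hF)
      rwa [h1, Finset.union_empty] at h2
    · rw [ha]
      refine List.countP_mono_left fun F _ hF => ?_
      rw [decide_eq_true_iff] at hF ⊢
      rintro rfl
      rw [resL_empty] at hF
      exact hF (Finset.empty_subset _)
  · have hsub : softs FX \ (poss FX ∪ O) ⊆ (if us = [] then ∅ else N) := by
      intro x hx
      rw [Finset.mem_sdiff, Finset.mem_union, not_or] at hx
      rcases hsoftsFX x hx.1 with h | h | ⟨h, h'⟩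
      · exact absurd h hx.2.1
      · exact absurd h hx.2.2
      · rw [if_neg h]
        exact h'
    exact (Finset.card_le_card hsub).trans hNif
  · refine (hcnt (poss FX ∪ O) Finset.subset_union_left).trans ?_
    have : (olds L).countP (fun F => decide (¬ resL j b F ⊆ poss FX ∪ O)) = 0 := by
      rw [List.countP_eq_zero]
      intro F hF
      rw [decide_eq_true_iff, not_not]
      exact hold F (holds F hF)
    omega
  · -- paths, old labels
    intro hpth hn T hT
    rw [hFX] at hT
    obtain ⟨U, hU, rfl⟩ := List.mem_map.1 hT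
    rw [PT_res]
    refine c1.pth' _ (fun u hu => ?_) (fun T hT => ?_) U hU
    · unfold notIn
      rw [decide_eq_false_iff_not, not_not]
      exact hnew0 hn u hu
    · have hne : ∀ F : Finset (Fin (m + 1) → Bool), notIn (poss FX) (resL j b F) = true →
          nonE F = true := by
        intro F hF
        unfold notIn at hF
        unfold nonE
        rw [decide_eq_true_iff] at hF ⊢
        rintro rfl
        rw [resL_empty] at hF
        exact hF (Finset.empty_subset _)
      rw [hUs] at hT
      rcases List.mem_append.1 hT with h | h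
      · refine PT.mono (fun F _ hF => hne F hF) ((pth_iff_PT T).1 (hpth T ?_))
        rw [hTT]
        exact List.mem_append_left _ h
      · obtain ⟨W, hW, rfl⟩ := List.mem_map.1 h
        obtain ⟨x, y, hxy⟩ := hTHl W hW
        refine PT.mono (fun F _ hF => hne F hF) ((pth_iff_PT _).1 ?_)
        have h1 : W.tree.pth := hpth W (by
          rw [hTT]
          exact List.mem_append_right _ (List.mem_append_left _ hW))
        have h2 : (LT.node W.l W.r).pth := h1
        have h3 := LT.pth_left h2
        unfold hopT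
        rw [hxy] at h3 ⊢
        exact h3
  · -- paths, new labels
    intro hQ T hT
    rw [hFX] at hT
    obtain ⟨U, hU, rfl⟩ := List.mem_map.1 hT
    rw [PT_res]
    obtain ⟨h', h1, h2⟩ := n6 U hU
    refine (h2 _ fun F hF => ?_).pth (hQ h' h1)
    unfold notIn
    rw [decide_eq_false_iff_not, not_not]
    exact hold F hF
  · intro hX hY
    rw [hTT]
    refine n7 hX fun FY m1 m2 m3 m4 m5 m6 => ?_
    have hYlab : ∀ F ∈ (pieces L).flatMap LT.labs ++ (TH.map hopR ++ TY).flatMap LRT.labs,
        ∀ x ∈ F, x ∈ softs TT := by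
      intro F hF x hx
      rcases List.mem_append.1 hF with h | h
      · refine holdlab F ?_ x hx
        rw [hlabs]
        obtain ⟨u, hu, hFu⟩ := List.mem_flatMap.1 h
        exact List.mem_flatMap.2 ⟨u, mem_pieces hu, hFu⟩
      · obtain ⟨T, hT, hFT⟩ := List.mem_flatMap.1 h
        rw [hTT]
        rcases List.mem_append.1 hT with h | h
        · obtain ⟨W, hW, rfl⟩ := List.mem_map.1 h
          rcases mem_hopR_labs hFT with rfl | hF
          · exact absurd hx (Finset.notMem_empty _)
          · exact mem_softs.2 ⟨W, List.mem_append_right _ (List.mem_append_left _ hW), F, hF, hx⟩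
        · exact mem_softs.2 ⟨T, List.mem_append_right _ (List.mem_append_right _ h), F, hFT, hx⟩
    have hYsub : ∀ F ∈ (pieces L).flatMap LT.labs ++ (TH.map hopR ++ TY).flatMap LRT.labs,
        ∀ x ∈ resL j (!b) F, x ∉ poss FY → ins j (!b) x ∈
          (softs TT \ poss TT).filter (fun x => x j = !b) := by
      intro F hF x hx hxP
      rw [Finset.mem_filter, Finset.mem_sdiff]
      refine ⟨⟨hYlab F hF _ (mem_resL.1 hx), ?_⟩, ins_self⟩
      rw [hposs, Finset.mem_union]
      rintro (h | h)
      · have := hsideX _ h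
        rw [ins_self] at this
        cases b <;> simp at this
      · exact hxP (m4 x h)
    apply hY FY m1 m2 m3
    · refine le_trans ?_ hdY
      rw [← Finset.card_map (ins j (!b))]
      refine Finset.card_le_card ?_
      intro y hy
      obtain ⟨x, hx, rfl⟩ := Finset.mem_map.1 hy
      rw [Finset.mem_sdiff] at hx
      have hx1 := hx.1
      unfold softs at hx1
      rw [m5] at hx1
      obtain ⟨F', hF', hxF⟩ := mem_foldr_union.1 hx1
      obtain ⟨F, hF, rfl⟩ := List.mem_map.1 hF'
      exact hYsub F hF x hxF hx.2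
    · unfold nspecO
      rw [m5, List.countP_map]
      split_ifs with h
      · rw [Nat.le_zero, List.countP_eq_zero]
        intro F hF
        simp only [Function.comp, decide_eq_true_iff, not_not]
        intro x hx
        by_contra hxP
        have h1 := hYsub F hF x hx hxP
        rw [h, Nat.le_zero, Finset.card_eq_zero] at hdY
        rw [hdY] at h1
        exact absurd h1 (Finset.notMem_empty _)
      · rw [hc]
        unfold nspec
        rw [← List.countP_append]
        refine List.countP_mono_left fun F _ hF => ?_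
        simp only [Function.comp, decide_eq_true_iff] at hF ⊢
        rintro rfl
        rw [resL_empty] at hF
        exact hF (Finset.empty_subset _)
    · intro hpth T hT
      have hne : ∀ F : Finset (Fin (m + 1) → Bool), notIn (poss FY) (resL j (!b) F) = true →
          nonE F = true := by
        intro F hF
        unfold notIn at hF
        unfold nonE
        rw [decide_eq_true_iff] at hF ⊢
        rintro rfl
        rw [resL_empty] at hF
        exact hF (Finset.empty_subset _)
      rcases m6 T hT with ⟨u, hu, hTu⟩ | ⟨W, hW, rfl⟩ | ⟨W, hW, rfl⟩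
      · unfold PT
        rw [hTu, LT.core_mapL]
        refine c1.pth _ (fun T hT => ?_) u hu
        rw [hUs] at hT
        rcases List.mem_append.1 hT with h | h
        · refine PT.mono (fun F _ hF => hne F hF) ((pth_iff_PT T).1 (hpth T ?_))
          rw [hTT]
          exact List.mem_append_left _ h
        · obtain ⟨W, hW, rfl⟩ := List.mem_map.1 h
          obtain ⟨x, y, hxy⟩ := hTHl W hW
          refine PT.mono (fun F _ hF => hne F hF) ((pth_iff_PT _).1 ?_)
          have h1 : W.tree.pth := hpth W (by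
            rw [hTT]
            exact List.mem_append_right _ (List.mem_append_left _ hW))
          have h2 : (LT.node W.l W.r).pth := h1
          have h3 := LT.pth_left h2
          unfold hopT
          rw [hxy] at h3 ⊢
          exact h3
      · rw [PT_res]
        refine PT.mono (fun F _ hF => hne F hF) ((pth_iff_PT _).1 ?_)
        have h1 : W.tree.pth := hpth W (by
          rw [hTT]
          exact List.mem_append_right _ (List.mem_append_left _ hW))
        have h2 : (LT.node W.l W.r).pth := h1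
        exact Or.inl ⟨Or.inl ⟨∅, rfl⟩, LT.pth_right h2⟩
      · rw [PT_res]
        refine PT.mono (fun F _ hF => hne F hF) ((pth_iff_PT W).1 (hpth W ?_))
        rw [hTT]
        exact List.mem_append_right _ (List.mem_append_right _ hW)

/-- a larger set of hardened positions with a given number of elements -/
theorem harden_room {m dX : ℕ} {FX : List (LRT (Fin m → Bool))} {O : Finset (Fin m → Bool)}
    (h1 : Disjoint O (poss FX)) (h2 : O.card ≤ dX) (h3 : FX.length + dX ≤ 2 ^ m) :
    ∃ O', O ⊆ O' ∧ Disjoint O' (poss FX) ∧ O'.card = dX := by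
  have h4 : (poss FX).card ≤ FX.length := by
    unfold poss
    refine (List.toFinset_card_le _).trans ?_
    rw [List.length_map]
  have h5 : dX ≤ ((poss FX)ᶜ).card := by
    rw [Finset.card_compl]
    simp only [Fintype.card_fun, Fintype.card_fin, Fintype.card_bool]
    omega
  obtain ⟨O', e1, e2, e3⟩ := Finset.exists_subsuperset_card_eq (s := O) (t := (poss FX)ᶜ)
    (by
      intro x hx
      rw [Finset.mem_compl]
      exact Finset.disjoint_left.1 h1 hx) h2 h5
  refine ⟨O', e1, ?_, e3⟩
  rw [Finset.disjoint_left]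
  intro x hx
  exact Finset.mem_compl.1 (e2 hx)

/-- **The level lemma with copied positions.** `K` = copied positions of the second side, `new` =
number of the new soft positions of the first side (if something is cut). The old soft positions of
the first side stay soft or are replaced by `dX` trees with one vertex. -/
theorem level2 {m : ℕ} (j : Fin (m + 1)) (b : Bool)
    (K : Finset (Fin (m + 1) → Bool))
    {TX TH TY : List (LRT (Fin (m + 1) → Bool))}
    (hnd : ((TX ++ (TH ++ TY)).map LRT.pos).Nodup)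
    (hok : ∀ T ∈ TX ++ (TH ++ TY), RootOK T)
    (hTX : ∀ T ∈ TX, T.pos j = b) (hTH : ∀ T ∈ TH, T.pos j = !b)
    (hTHl : ∀ T ∈ TH, ∃ x y, T.l = .node x y)
    (hTHr : ∀ T ∈ TH, RootOK (hopT (flip j T.pos) T))
    (hTHm : ∀ T ∈ TH, flip j T.pos ∉ poss TX)
    (hTY : ∀ T ∈ TY, T.pos j = !b) {sz : List ℕ} {us : List HT}
    (hcut : FCutR ((TX ++ TH.map (fun T => hopT (flip j T.pos) T)).map
      (cdatK j b K (poss TH ∪ poss TY))) sz us)
    {dX dY new s : ℕ}
    (hdX : ((softs (TX ++ (TH ++ TY)) \ poss (TX ++ (TH ++ TY))).filter (fun x => x j = b)).card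
      ≤ dX)
    (hdY : ((softs (TX ++ (TH ++ TY)) \ poss (TX ++ (TH ++ TY))).filter (fun x => x j = !b)).card
      ≤ dY)
    (hs : nspec (TX ++ (TH ++ TY)) ≤ s)
    (hnew : us ≠ [] → ((poss TY ∪ K) \ ((poss TX).image (flip j) ∪ poss TH)).card ≤ new)
    (hXY : ∀ a c, a + c ≤ s →
      (Gd m (dX + (if us = [] then 0 else new))
          ((if dX = 0 then 0 else a) + (if new = 0 then 0 else us.length)) sz ∨
        (sz.length + dX ≤ 2 ^ m ∧ Gd m (if us = [] then 0 else new)
          (if new = 0 then 0 else us.length) (sz ++ List.replicate dX 1))) ∧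
      Gd m dY (if dY = 0 then 0 else c)
        (us.map HT.size ++ (TH.map (fun T => (hopR T).size) ++ TY.map LRT.size))) :
    ∃ S, Emb (cadj (m + 1)) (TX ++ (TH ++ TY)) S := by
  obtain ⟨FX, O, a, c, hac, n1, n2, n3, o1, o2, x1, x2, x3, x4, -, -, fin⟩ :=
    step_counts j b K hnd hok hTX hTH hTHl hTHr hTHm hTY hcut.toQ hdX hdY hnew
  obtain ⟨gX, gY⟩ := hXY a c (hac.trans hs)
  refine fin ?_ fun FY m1 m2 m3 m4 m5 _ => gY.emb m1 m2 m3 m4 m5
  rcases gX with gX | ⟨hroom, gX⟩
  · exact gX.emb n1 n2 n3 x1 x2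
  · have hl : FX.length = sz.length := n3.length_eq
    obtain ⟨O', p1, p2, p3⟩ := harden_room o1 o2 (by rw [hl]; exact hroom)
    have hsub : poss FX ∪ O ⊆ poss FX ∪ O' := Finset.union_subset_union_right p1
    refine Gd.emb_harden O' (by rw [p3]; exact gX) p2 n1 n2 n3
      ((Finset.card_le_card (Finset.sdiff_subset_sdiff (Finset.Subset.refl _) hsub)).trans x3)
      ((nspecO_mono hsub FX).trans x4)

/-- **The level lemma for path states.** `Q` = property of the cut trees (for example `HT.pth`). -/
theorem levelP {m : ℕ} {Q : HT → Prop} (j : Fin (m + 1)) (b : Bool)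
    (K : Finset (Fin (m + 1) → Bool))
    {TX TH TY : List (LRT (Fin (m + 1) → Bool))}
    (hnd : ((TX ++ (TH ++ TY)).map LRT.pos).Nodup)
    (hok : ∀ T ∈ TX ++ (TH ++ TY), RootOK T)
    (hpth : ∀ T ∈ TX ++ (TH ++ TY), T.tree.pth)
    (hTX : ∀ T ∈ TX, T.pos j = b) (hTH : ∀ T ∈ TH, T.pos j = !b)
    (hTHl : ∀ T ∈ TH, ∃ x y, T.l = .node x y)
    (hTHr : ∀ T ∈ TH, RootOK (hopT (flip j T.pos) T))
    (hTHm : ∀ T ∈ TH, flip j T.pos ∉ poss TX)
    (hTY : ∀ T ∈ TY, T.pos j = !b) {sz : List ℕ} {us : List HT}
    (hcut : FCutQ Q ((TX ++ TH.map (fun T => hopT (flip j T.pos) T)).map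
      (cdatK j b K (poss TH ∪ poss TY))) sz us)
    {dX dY new s : ℕ}
    (hdX : ((softs (TX ++ (TH ++ TY)) \ poss (TX ++ (TH ++ TY))).filter (fun x => x j = b)).card
      ≤ dX)
    (hdY : ((softs (TX ++ (TH ++ TY)) \ poss (TX ++ (TH ++ TY))).filter (fun x => x j = !b)).card
      ≤ dY)
    (hs : nspec (TX ++ (TH ++ TY)) ≤ s)
    (hnew : us ≠ [] → ((poss TY ∪ K) \ ((poss TX).image (flip j) ∪ poss TH)).card ≤ new)
    (hXY : ∀ a c, a + c ≤ s →
      (((us = [] ∨ new = 0) ∧ GdP m dX (if dX = 0 then 0 else a) sz) ∨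
        ((∀ h, Q h → h.pth) ∧ sz.length + dX ≤ 2 ^ m ∧ GdP m (if us = [] then 0 else new)
          (if new = 0 then 0 else us.length) (sz ++ List.replicate dX 1)) ∨
        Gd m (dX + (if us = [] then 0 else new))
          ((if dX = 0 then 0 else a) + (if new = 0 then 0 else us.length)) sz) ∧
      GdP m dY (if dY = 0 then 0 else c)
        (us.map HT.size ++ (TH.map (fun T => (hopR T).size) ++ TY.map LRT.size))) :
    ∃ S, Emb (cadj (m + 1)) (TX ++ (TH ++ TY)) S := by
  obtain ⟨FX, O, a, c, hac, n1, n2, n3, o1, o2, x1, x2, x3, x4, x5, x6, fin⟩ :=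
    step_counts j b K hnd hok hTX hTH hTHl hTHr hTHm hTY hcut hdX hdY hnew
  obtain ⟨gX, gY⟩ := hXY a c (hac.trans hs)
  refine fin ?_ fun FY m1 m2 m3 m4 m5 m6 => gY.emb m1 m2 m3 m4 m5 (m6 hpth)
  rcases gX with ⟨hn, gX⟩ | ⟨hQ, hroom, gX⟩ | gX
  · refine gX.emb n1 n2 n3 ?_ ?_ (x5 hpth hn)
    · refine x1.trans ?_
      rcases hn with h | h
      · rw [if_pos h, add_zero]
      · rw [h]; simp
    · refine x2.trans ?_
      rcases hn with h | h
      · rw [h]; simp
      · rw [if_pos h, add_zero]
  · have hl : FX.length = sz.length := n3.length_eq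
    obtain ⟨O', p1, p2, p3⟩ := harden_room o1 o2 (by rw [hl]; exact hroom)
    have hsub : poss FX ∪ O ⊆ poss FX ∪ O' := Finset.union_subset_union_right p1
    refine GdP.emb_harden O' (by rw [p3]; exact gX) p2 n1 n2 n3
      ((Finset.card_le_card (Finset.sdiff_subset_sdiff (Finset.Subset.refl _) hsub)).trans x3)
      ((nspecO_mono hsub FX).trans x4) fun T hT => ?_
    refine PT.mono (fun F _ hF => ?_) (x6 hQ T hT)
    unfold notIn at hF ⊢
    rw [decide_eq_true_iff] at hF ⊢
    exact fun h => hF (h.trans hsub)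
  · exact gX.emb n1 n2 n3 x1 x2

end Pool.Agent.Work.MP_bf01b2_co.MR
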