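import Pool.Agent.Work.MP_bf01b2_co.MR.Pf
import Pool.Agent.Work.MP_bf01b2_co.MR.Level2

/-!
# States with one descending path for every soft position

`GdO m D s v`: as `Gd m D s v`, but only for the forests such that for every soft position `x` (outside
of the roots) and every tree the holes whose label contains `x` have their parents on one descending
path. Different soft positions may have different paths.
-/

set_option autoImplicit false

namespace Pool.Agent.Work.MP_bf01b2_co.MR

/-- the label contains `x` -/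
def hasL {V : Type*} [DecidableEq V] (x : V) (F : Finset V) : Bool := decide (x ∈ F)

theorem hasL_iff {V : Type*} [DecidableEq V] {x : V} {F : Finset V} : hasL x F = true ↔ x ∈ F := by
  unfold hasL
  rw [decide_eq_true_iff]

theorem hasL_false {V : Type*} [DecidableEq V] {x : V} {F : Finset V} :
    hasL x F = false ↔ x ∉ F := by
  unfold hasL
  rw [decide_eq_false_iff_not]

theorem LT.onp_iff_core {V : Type*} [DecidableEq V] (x : V) : ∀ t : LT V,
    t.onp x ↔ (t.core (hasL x)).pth
  | .nil => Iff.rfl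
  | .hole F => by
    unfold LT.core
    split_ifs <;> simp [LT.onp, HT.pth]
  | .node l r => by
    have hclr : ∀ t : LT V, t.clr x ↔ (t.core (hasL x)).off := by
      intro t
      have hfl : (∀ F ∈ t.labs, x ∉ F) ↔ (t.core (hasL x)).holes = 0 := by
        rw [LT.core_holes, List.countP_eq_zero]
        refine forall₂_congr fun F _ => ?_
        rw [hasL_iff]
      unfold LT.clr HT.off
      constructor
      · rintro (⟨F, rfl⟩ | h)
        · unfold LT.core
          split_ifs
          · exact Or.inl rfl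
          · exact Or.inr rfl
        · exact Or.inr (hfl.1 h)
      · rintro (h | h)
        · left
          cases t with
          | nil => simp [LT.core] at h
          | hole F => exact ⟨F, rfl⟩
          | node _ _ => simp [LT.core] at h
        · exact Or.inr (hfl.2 h)
    have ih1 := LT.onp_iff_core x l
    have ih2 := LT.onp_iff_core x r
    simp only [LT.onp, LT.core, HT.pth]
    rw [ih1, ih2, hclr, hclr]
    tauto

theorem onp_iff_PT {V : Type*} [DecidableEq V] (x : V) (T : LRT V) :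
    T.tree.onp x ↔ PT (hasL x) T := LT.onp_iff_core x T.tree

/-- The states with one descending path for every soft position and every tree. -/
def GdO (m D s : ℕ) (v : List ℕ) : Prop :=
  ∀ Ts : List (LRT (Fin m → Bool)), (Ts.map LRT.pos).Nodup → (∀ T ∈ Ts, RootOK T) →
    List.Forall₂ (fun T n => LRT.size T ≤ n) Ts v → (softs Ts \ poss Ts).card ≤ D →
      nspec Ts ≤ s → (∀ T ∈ Ts, ∀ x, x ∉ poss Ts → T.tree.onp x) → ∃ S, Emb (cadj m) Ts S

section
variable {m : ℕ}

theorem Gd.toO {D s : ℕ} {v : List ℕ} (h : Gd m D s v) : GdO m D s v :=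
  fun Ts h1 h2 h3 h4 h5 _ => h Ts h1 h2 h3 h4 h5

theorem GdO.toP {D s : ℕ} {v : List ℕ} (h : GdO m D s v) : GdP m D s v :=
  fun Ts h1 h2 h3 h4 h5 h6 => h Ts h1 h2 h3 h4 h5 fun T hT x _ => (h6 T hT).onp x

theorem GdO.mono {D D' s s' : ℕ} {v w : List ℕ} (hD : D ≤ D') (hs : s ≤ s')
    (hv : List.Forall₂ (· ≤ ·) v w) (h : GdO m D' s' w) : GdO m D s v := by
  intro Ts h1 h2 h3 h4 h5
  refine h Ts h1 h2 ?_ (h4.trans hD) (h5.trans hs)
  clear h1 h2 h4 h5 h
  induction h3 generalizing w with
  | nil => cases hv; exact .nil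
  | cons h3 _ ih =>
    cases hv with
    | cons h6 h7 => exact .cons (h3.trans h6) (ih h7)

theorem GdO.perm {D s : ℕ} {v w : List ℕ} (hvw : v.Perm w) (h : GdO m D s v) : GdO m D s w := by
  intro Ts h1 h2 h3 h4 h5 h6
  obtain ⟨Us, h7, h8⟩ := List.perm_comp_forall₂ hvw (h3.flip : List.Forall₂
    (fun (n : ℕ) (T : LRT (Fin m → Bool)) => LRT.size T ≤ n) w Ts)
  obtain ⟨S, hS⟩ := h Us (by rw [(h8.map LRT.pos).nodup_iff]; exact h1)
    (fun T hT => h2 T (h8.mem_iff.1 hT)) h7.flip
    (by rw [softs_perm h8, poss_perm h8]; exact h4) (by rw [nspec_perm h8]; exact h5)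
    (fun T hT x hx => h6 T (h8.mem_iff.1 hT) x (by rw [← poss_perm h8]; exact hx))
  exact ⟨S, hS.perm h8⟩

/-- **Clean paths.** -/
theorem GdO.emb {D s : ℕ} {v : List ℕ} (h : GdO m D s v) {Ts : List (LRT (Fin m → Bool))}
    (h1 : (Ts.map LRT.pos).Nodup) (h2 : ∀ T ∈ Ts, RootOK T)
    (h3 : List.Forall₂ (fun T n => LRT.size T ≤ n) Ts v) (h4 : (softs Ts \ poss Ts).card ≤ D)
    (h0 : nspecO (poss Ts) Ts ≤ s)
    (h5 : ∀ T ∈ Ts, ∀ x, x ∉ poss Ts → PT (hasL x) T) : ∃ S, Emb (cadj m) Ts S := by
  obtain ⟨S, hS⟩ := h (Ts.map (stripT (poss Ts))) (by rw [strip_poss']; exact h1) (by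
    intro T hT
    obtain ⟨U, hU, rfl⟩ := List.mem_map.1 hT
    exact strip_ok (h2 U hU)) (by
    rw [List.forall₂_map_left_iff]
    exact h3.imp fun T n hn => by rw [stripT_size]; exact hn) (by
    refine le_trans (Finset.card_le_card ?_) h4
    exact (softs_strip_sub (poss Ts) Ts).trans Finset.sdiff_subset) (by
    rw [nspec_strip]; exact h0) (by
    intro T hT x hx
    obtain ⟨U, hU, rfl⟩ := List.mem_map.1 hT
    rw [strip_poss] at hx
    have h6 := h5 U hU x hx
    rw [onp_iff_PT]
    unfold PT at h6 ⊢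
    have h7 : (stripT (poss Ts) U).tree = U.tree.mapL (fun F => F \ poss Ts) := rfl
    rw [h7, LT.core_mapL]
    refine (LT.core_le fun F _ hF => ?_).pth h6
    rw [hasL_iff] at hF ⊢
    exact (Finset.mem_sdiff.1 hF).1)
  exact ⟨S, emb_of_strip h2 hS⟩

/-- **Hardening for path states.** -/
theorem GdO.emb_harden {D s : ℕ} {v : List ℕ} {Ts : List (LRT (Fin m → Bool))}
    (O : Finset (Fin m → Bool)) (h : GdO m D s (v ++ List.replicate O.card 1))
    (hO : Disjoint O (poss Ts))
    (h1 : (Ts.map LRT.pos).Nodup) (h2 : ∀ T ∈ Ts, RootOK T)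
    (h3 : List.Forall₂ (fun T n => LRT.size T ≤ n) Ts v)
    (h4 : (softs Ts \ (poss Ts ∪ O)).card ≤ D) (h0 : nspecO (poss Ts ∪ O) Ts ≤ s)
    (h5 : ∀ T ∈ Ts, ∀ x, x ∉ poss Ts ∪ O → PT (hasL x) T) : ∃ S, Emb (cadj m) Ts S := by
  have hp : poss (Ts ++ O.toList.map dummy) = poss Ts ∪ O := by
    rw [poss_dummies, Finset.toList_toFinset]
  obtain ⟨S, hS⟩ := h.emb (Ts := Ts ++ O.toList.map dummy)
    (nodup_dummies h1 (Finset.nodup_toList O) (fun o ho =>
      Finset.disjoint_left.1 hO (Finset.mem_toList.1 ho))) (by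
    intro T hT
    rcases List.mem_append.1 hT with hT | hT
    · exact h2 T hT
    · obtain ⟨o, _, rfl⟩ := List.mem_map.1 hT
      exact rootOK_dummy o) (by
    refine forall₂_append' h3 ?_
    have := dummies_sizes O.toList
    rwa [Finset.length_toList] at this) (by
    rw [hp, softs_dummies]; exact h4) (by
    rw [hp, nspecO_dummies]; exact h0) (by
    rw [hp]
    intro T hT
    rcases List.mem_append.1 hT with hT | hT
    · exact h5 T hT
    · obtain ⟨o, _, rfl⟩ := List.mem_map.1 hT
      exact fun x _ => PT.of_none (by simp [dummy_labs]))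
  obtain ⟨A, B, hA, -⟩ := emb_append.1 hS
  exact ⟨A, hA⟩

/-- path states without soft positions are hard states -/
theorem GdO.toGd {s s' : ℕ} {v : List ℕ} (h : GdO m 0 s v) : Gd m 0 s' v := h.toP.toGd

/-- It is enough to treat forests whose labels are disjoint from the roots. -/
theorem GdO.of_clean {D s : ℕ} {v : List ℕ} (h : ∀ Ts : List (LRT (Fin m → Bool)),
    (Ts.map LRT.pos).Nodup → (∀ T ∈ Ts, RootOK T) →
    List.Forall₂ (fun T n => LRT.size T ≤ n) Ts v → (softs Ts \ poss Ts).card ≤ D →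
      nspec Ts ≤ s → (∀ T ∈ Ts, ∀ x, T.tree.onp x) →
      (∀ T ∈ Ts, ∀ F ∈ T.labs, Disjoint F (poss Ts)) →
      ∃ S, Emb (cadj m) Ts S) : GdO m D s v := by
  intro Ts h1 h2 h3 h4 h5 h0
  obtain ⟨S, hS⟩ := h (Ts.map (stripT (poss Ts))) (by rw [strip_poss']; exact h1) (by
    intro T hT
    obtain ⟨U, hU, rfl⟩ := List.mem_map.1 hT
    exact strip_ok (h2 U hU)) (by
    rw [List.forall₂_map_left_iff]
    exact h3.imp fun T n hn => by rw [stripT_size]; exact hn) (by
    refine le_trans (Finset.card_le_card ?_) h4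
    exact (softs_strip_sub (poss Ts) Ts).trans Finset.sdiff_subset) (by
    rw [nspec_strip]; exact (nspecO_le _ _).trans h5) (by
    intro T hT x
    obtain ⟨U, hU, rfl⟩ := List.mem_map.1 hT
    rw [onp_iff_PT]
    have h7 : (stripT (poss Ts) U).tree = U.tree.mapL (fun F => F \ poss Ts) := rfl
    by_cases hx : x ∈ poss Ts
    · refine PT.of_none fun F hF => ?_
      rw [hasL_false]
      have h8 : F ∈ (U.tree.mapL (fun F => F \ poss Ts)).labs := hF
      rw [LT.mapL_labs] at h8
      obtain ⟨G, _, rfl⟩ := List.mem_map.1 h8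
      exact fun h => (Finset.mem_sdiff.1 h).2 hx
    · have h6 := (onp_iff_PT x U).1 (h0 U hU x hx)
      unfold PT at h6 ⊢
      rw [h7, LT.core_mapL]
      refine (LT.core_le fun F _ hF => ?_).pth h6
      rw [hasL_iff] at hF ⊢
      exact (Finset.mem_sdiff.1 hF).1) (by
    rw [strip_poss]
    intro T hT F hF
    have h6 : F ∈ (Ts.map (stripT (poss Ts))).flatMap LRT.labs := List.mem_flatMap.2 ⟨T, hT, hF⟩
    rw [strip_labs] at h6
    obtain ⟨G, _, rfl⟩ := List.mem_map.1 h6
    exact Finset.sdiff_disjoint)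
  exact ⟨S, emb_of_strip h2 hS⟩

/-- `x` soft positions are replaced by trees with one vertex -/
theorem GdO.harden {D s x : ℕ} {v : List ℕ} (h : GdO m D s (v ++ List.replicate x 1))
    (hroom : v.length + x ≤ 2 ^ m) : GdO m (D + x) s v := by
  classical
  refine GdO.of_clean fun Ts h1 h2 h3 h4 h5 h6 hcl => ?_
  have hdisj : Disjoint (softs Ts) (poss Ts) := by
    rw [Finset.disjoint_left]
    intro y hy
    obtain ⟨T, hT, F, hF, hyF⟩ := mem_softs.1 hy
    exact Finset.disjoint_left.1 (hcl T hT F hF) hyF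
  have hcard : (softs Ts).card ≤ D + x := by
    rwa [Finset.sdiff_eq_self_of_disjoint hdisj] at h4
  obtain ⟨A, hA1, hA2⟩ := Finset.exists_subset_card_eq (s := softs Ts)
    (n := min x (softs Ts).card) (min_le_right _ _)
  obtain ⟨O, e1, e2, e3⟩ := harden_room (dX := x) (FX := Ts) (O := A)
    (hdisj.mono_left hA1) (by rw [hA2]; exact min_le_left _ _) (by rw [h3.length_eq]; exact hroom)
  refine GdO.emb_harden (D := D) (s := s) (v := v) O (by rw [e3]; exact h) e2 h1 h2 h3 ?_ ?_ ?_
  · have h7 : softs Ts \ (poss Ts ∪ O) ⊆ softs Ts \ A := by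
      intro y hy
      rw [Finset.mem_sdiff, Finset.mem_union, not_or] at hy
      rw [Finset.mem_sdiff]
      exact ⟨hy.1, fun h => hy.2.2 (e1 h)⟩
    refine (Finset.card_le_card h7).trans ?_
    rw [Finset.card_sdiff_of_subset hA1, hA2]
    omega
  · exact (nspecO_le _ _).trans h5
  · intro T hT x _
    exact (onp_iff_PT x T).1 (h6 T hT x)

/-- a state with an empty tree is vacuous -/
theorem GdO.of_zero {D s : ℕ} {v : List ℕ} (h : 0 ∈ v) : GdO m D s v := by
  intro Ts e1 e2 h3
  exfalso
  clear e1 e2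
  induction h3 with
  | nil => simp at h
  | cons h1 _ ih =>
    rcases List.mem_cons.1 h with h | h
    · rw [← h] at h1
      have e : ∀ T : LRT (Fin m → Bool), 1 ≤ T.size := fun T => by
        unfold LRT.size
        omega
      have := e ‹_›
      omega
    · exact ih h

theorem GdO.nil {D s : ℕ} : GdO m D s [] := by
  intro Ts _ _ h3 _ _ _
  cases h3
  exact ⟨∅, emb_nil⟩

end

end Pool.Agent.Work.MP_bf01b2_co.MR
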