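import Pool.Agent.Work.MP_bf01b2_co.MR.Cube

/-!
# Directions without matched pairs

A set `P` of `T` vertices of a cube has at most `T - 1` directions `j` in which two elements of `P` are
adjacent. So if `T ≤ n` there is a direction of `Q_n` without matched pair.
-/

set_option autoImplicit false

namespace Pool.Agent.Work.MP_bf01b2_co.MR

/-- the projection which forgets the coordinate `j` -/
def proj0 {n : ℕ} (j : Fin n) (x : Fin n → Bool) : Fin n → Bool := Function.update x j false

theorem proj0_flip {n : ℕ} (j : Fin n) (x : Fin n → Bool) : proj0 j (flip j x) = proj0 j x := by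
  unfold proj0 flip
  rw [Function.update_idem]

theorem proj0_flip_ne {n : ℕ} {i j : Fin n} (h : i ≠ j) (x : Fin n → Bool) :
    proj0 j (flip i x) = flip i (proj0 j x) := by
  unfold proj0 flip
  rw [Function.update_comm h, Function.update_of_ne h]

theorem flip_ne {n : ℕ} (j : Fin n) (x : Fin n → Bool) : flip j x ≠ x := by
  intro h
  have h1 := congrFun h j
  rw [flip_apply_self] at h1
  cases hx : x j <;> simp [hx] at h1

/-- **Matched directions.** If every direction of `J` has a matched pair in `P` then `#J < #P`. -/
theorem matched_card_lt {n : ℕ} : ∀ (P : Finset (Fin n → Bool)) (J : Finset (Fin n)),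
    P.Nonempty → (∀ j ∈ J, ∃ p ∈ P, flip j p ∈ P) → J.card < P.card := by
  intro P
  induction hk : P.card using Nat.strong_induction_on generalizing P with
  | _ k ih =>
    intro J hP hJ
    rcases J.eq_empty_or_nonempty with rfl | ⟨j, hj⟩
    · rw [Finset.card_empty, ← hk]
      exact Finset.card_pos.2 hP
    · obtain ⟨p, hp, hq⟩ := hJ j hj
      have hlt : (P.image (proj0 j)).card < P.card := by
        rw [lt_iff_le_and_ne]
        refine ⟨Finset.card_image_le, fun h => ?_⟩
        rw [Finset.card_image_iff] at h
        exact flip_ne j p (h hq hp (proj0_flip j p))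
      have h1 := ih _ (hk ▸ hlt) (P.image (proj0 j)) rfl (J.erase j) (hP.image _) (by
        intro i hi
        obtain ⟨hij, hi⟩ := Finset.mem_erase.1 hi
        obtain ⟨q, hq1, hq2⟩ := hJ i hi
        refine ⟨proj0 j q, Finset.mem_image_of_mem _ hq1, ?_⟩
        rw [← proj0_flip_ne hij]
        exact Finset.mem_image_of_mem _ hq2)
      rw [Finset.card_erase_of_mem hj] at h1
      omega

/-- **Generic direction.** At most `n` vertices (and `0 < n`): some direction has no matched pair. -/
theorem exists_generic {n : ℕ} (hn : 0 < n) (P : Finset (Fin n → Bool)) (hP : P.card ≤ n) :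
    ∃ j : Fin n, ∀ p ∈ P, flip j p ∉ P := by
  by_contra h
  push Not at h
  rcases P.eq_empty_or_nonempty with rfl | hne
  · obtain ⟨p, hp, -⟩ := h ⟨0, hn⟩
    exact absurd hp (Finset.notMem_empty _)
  · have h1 := matched_card_lt P Finset.univ hne (fun j _ => h j)
    rw [Finset.card_univ, Fintype.card_fin] at h1
    omega

/-- Version with a set of available directions: if more than `#P - 1` directions of `J` are given then
one of them has no matched pair. -/
theorem exists_generic_in {n : ℕ} (P : Finset (Fin n → Bool)) (J : Finset (Fin n))
    (hne : P.Nonempty) (hP : P.card ≤ J.card) : ∃ j ∈ J, ∀ p ∈ P, flip j p ∉ P := by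
  by_contra h
  push Not at h
  have h1 := matched_card_lt P J hne h
  omega

end Pool.Agent.Work.MP_bf01b2_co.MR
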