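import Pool.Agent.Work.MP_bf01b2_co.MR.Gm
import Pool.Agent.Work.MP_bf01b2_co.MR.Adv

/-!
# The multi tree game: closed form and kernel evaluation
-/

set_option autoImplicit false

namespace Pool.Agent.Work.MP_bf01b2_co.MR

open Adv (nd rr fB nd_iff rr_iff fB_eq)

/-- one piece less -/
theorem Sem.skip {Z B : ℕ → ℕ} (hZm : ∀ i, Z i ≤ Z (i + 1)) (hBm : ∀ i, B (i + 1) ≤ B i)
    {p M : ℕ} {A : List ℕ} (h : Sem Z B (p + 1) M A) : Sem Z B p M A := by
  intro ys M' e h1 h2 h3 h4
  obtain ⟨n, t, g1, g2, g3⟩ := h ys M' e h1 h2 h3 h4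
  have e1 := hZm (p + n)
  have e2 := hBm (p + n)
  rw [show p + 1 + n = p + n + 1 by omega] at g2 g3
  exact ⟨n, t, g1, by omega, by omega⟩

/-- One stage of the closed form. `e` = deficit, `r` = bound of the remainder after the piece. -/
theorem Sem.stage {Z B : ℕ → ℕ} (hZm : ∀ i, Z i ≤ Z (i + 1)) (hBm : ∀ i, B (i + 1) ≤ B i)
    {p M S e r : ℕ} {As : List ℕ} (hM : M < B (p + 1)) (hS : B (p + 1) ≤ M + (S - 1) + e)
    (hr : B (p + 1) + e ≤ M + 2 * r + 1)
    (h : Z (p + 1) + r ≤ B (p + 1) ∨ ∀ M' S', M' ≤ B (p + 1) → B (p + 1) ≤ M' + r →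
      B (p + 1) ≤ M' + S' + e → Sem Z B (p + 1) M' (S' :: As)) : Sem Z B p M (S :: As) := by
  by_cases hS1 : S ≤ 1
  · rcases h with h | h
    · have := hZm p
      exact Sem.stop (by omega)
    · exact (h M S (by omega) (by omega) (by omega)).skip hZm hBm
  · obtain ⟨R, hR⟩ : ∃ R, R = min (B (p + 1) - M) (S - 1) := ⟨_, rfl⟩
    refine Sem.cut hZm hBm (R := R) (by omega) (by omega) (by omega) fun a ha1 ha2 => ?_
    rcases h with h | h
    · exact Sem.stop (by omega)
    · exact h _ _ (by omega) (by omega) (by omega)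

/-- the list of the entries `(Z i, B i, B (i-1) - B i)`, `i > p` -/
def Mt (Z B : ℕ → ℕ) : ℕ → List (ℕ × ℕ × ℕ) → Prop
  | _, [] => True
  | p, x :: T => x.1 = Z (p + 1) ∧ x.2.1 = B (p + 1) ∧ x.2.2 = B p - B (p + 1) ∧ Mt Z B (p + 1) T

/-- the closed form: `r` = remainder, `e` = deficit after the last piece -/
noncomputable def cfL : List (ℕ × ℕ × ℕ) → ℕ → ℕ → Bool :=
  List.rec (motive := fun _ => ℕ → ℕ → Bool) (fun _ _ => false)
    (fun x _ ih r e => Bool.rec (motive := fun _ => Bool)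
      (fB (Nat.sub r x.2.2) fun g => fB (Nat.sub (Nat.succ e) x.2.2) fun e' =>
        fB (Nat.div (Nat.add g e') 2) fun r' =>
          rr (Nat.ble (Nat.add x.1 r') x.2.1) (ih r' e'))
      false (Nat.ble r x.2.2))

theorem cfL_cons {x : ℕ × ℕ × ℕ} {T : List (ℕ × ℕ × ℕ)} {r e : ℕ}
    (h : cfL (x :: T) r e = true) : x.2.2 < r ∧
      (x.1 + (r - x.2.2 + (e + 1 - x.2.2)) / 2 ≤ x.2.1 ∨
        cfL T ((r - x.2.2 + (e + 1 - x.2.2)) / 2) (e + 1 - x.2.2) = true) := by
  have h1 : cfL (x :: T) r e = Bool.rec (motive := fun _ => Bool)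
      (fB (Nat.sub r x.2.2) fun g => fB (Nat.sub (Nat.succ e) x.2.2) fun e' =>
        fB (Nat.div (Nat.add g e') 2) fun r' =>
          rr (Nat.ble (Nat.add x.1 r') x.2.1) (cfL T r' e'))
      false (Nat.ble r x.2.2) := rfl
  rw [h1] at h
  cases h2 : Nat.ble r x.2.2
  · rw [h2] at h
    simp only [fB_eq, rr_iff] at h
    have h3 : x.2.2 < r := by
      by_contra hc
      rw [Nat.ble_eq_true_of_le (by omega)] at h2
      exact Bool.noConfusion h2
    refine ⟨h3, ?_⟩
    rcases h with h | h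
    · exact Or.inl (Nat.le_of_ble_eq_true h)
    · exact Or.inr h
  · rw [h2] at h
    cases h

theorem cfL_le {Z B : ℕ → ℕ} (hZm : ∀ i, Z i ≤ Z (i + 1)) (hBm : ∀ i, B (i + 1) ≤ B i) :
    ∀ {T : List (ℕ × ℕ × ℕ)} {p r e : ℕ}, Mt Z B p T → cfL T r e = true → Z p ≤ B p
  | [], p, r, e, _, h => by cases h
  | x :: T, p, r, e, hT, h => by
    obtain ⟨h1, h2, h3, h4⟩ := hT
    have e1 := hZm p
    have e2 := hBm p
    rcases (cfL_cons h).2 with h5 | h5
    · omega
    · have := cfL_le hZm hBm h4 h5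
      omega

theorem cfL_sound {Z B : ℕ → ℕ} (hZm : ∀ i, Z i ≤ Z (i + 1)) (hBm : ∀ i, B (i + 1) ≤ B i)
    {As : List ℕ} : ∀ {T : List (ℕ × ℕ × ℕ)} {p M S r e : ℕ}, Mt Z B p T → cfL T r e = true →
      M ≤ B p → B p ≤ M + r → B p ≤ M + S + e → Sem Z B p M (S :: As)
  | [], p, M, S, r, e, _, h, _, _, _ => by cases h
  | x :: T, p, M, S, r, e, hT, h, hM, hr, hS => by
    obtain ⟨h1, h2, h3, h4⟩ := hT
    obtain ⟨h5, h6⟩ := cfL_cons h
    have e1 := hZm p
    have e2 := hBm p
    by_cases hroom : M < B (p + 1)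
    · refine Sem.stage hZm hBm (e := e + 1 - x.2.2)
        (r := (r - x.2.2 + (e + 1 - x.2.2)) / 2) hroom (by omega) (by omega) ?_
      rcases h6 with h6 | h6
      · left; omega
      · right
        intro M' S' g1 g2 g3
        exact cfL_sound hZm hBm h4 h6 g1 g2 g3
    · refine Sem.stop ?_
      rcases h6 with h6 | h6
      · omega
      · have := cfL_le hZm hBm h4 h6
        omega

/-- insertion -/
noncomputable def insL (v : ℕ) : List ℕ → List ℕ :=
  List.rec (motive := fun _ => List ℕ) [v]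
    (fun a t ih => Bool.rec (motive := fun _ => List ℕ) (a :: ih) (v :: a :: t) (Nat.ble a v))

theorem insL_perm (v : ℕ) : ∀ l : List ℕ, (v :: l).Perm (insL v l)
  | [] => List.Perm.refl _
  | a :: t => by
    have h : insL v (a :: t) = Bool.rec (motive := fun _ => List ℕ) (a :: insL v t) (v :: a :: t)
      (Nat.ble a v) := rfl
    rw [h]
    cases Nat.ble a v
    · exact (List.Perm.swap a v t).trans ((insL_perm v t).cons a)
    · exact List.Perm.refl _

/-- `f lo, f (lo+1), .., f (lo + c - 1)` -/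
noncomputable def allF (f : ℕ → Bool) (lo : ℕ) : ℕ → Bool :=
  Nat.rec (motive := fun _ => Bool) true (fun i ih => nd ih (fB (Nat.add lo i) f))

theorem allF_iff (f : ℕ → Bool) (lo : ℕ) : ∀ {c : ℕ}, allF f lo c = true →
    ∀ a, lo ≤ a → a < lo + c → f a = true
  | 0, _, a, h1, h2 => by omega
  | c + 1, h, a, h1, h2 => by
    have e : allF f lo (c + 1) = nd (allF f lo c) (fB (Nat.add lo c) f) := rfl
    rw [e, nd_iff, fB_eq] at h
    by_cases h3 : a < lo + c
    · exact allF_iff f lo h.1 a h1 h3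
    · have : a = lo + c := by omega
      rw [this]
      exact h.2

/-- The game. -/
noncomputable def gm : List (ℕ × ℕ × ℕ) → ℕ → ℕ → List ℕ → Bool :=
  List.rec (motive := fun _ => ℕ → ℕ → List ℕ → Bool) (fun z M _ => Nat.ble z M)
    (fun x T ih z M A => rr (Nat.ble z M)
      (List.rec (motive := fun _ => Bool) false
        (fun S As _ => nd (Nat.ble (Nat.succ M) x.2.1)
          (fB (Nat.sub x.2.1 M) fun g => fB (Nat.sub S 1) fun S1 => fB (Nat.sub g S1) fun e =>
            rr (fB (Nat.div (Nat.add g e) 2) fun r =>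
                rr (Nat.ble (Nat.add x.1 r) x.2.1) (cfL T r e))
              (fB (Nat.sub g e) fun R => nd (Nat.ble 1 R)
                (allF (fun a => fB (Nat.add M a) fun M' => ih x.1 M' (insL (Nat.sub R a) As))
                  (Nat.div (Nat.succ R) 2) (Nat.succ (Nat.div R 2)))))) A))

theorem gm_sound {Z B : ℕ → ℕ} (hZm : ∀ i, Z i ≤ Z (i + 1)) (hBm : ∀ i, B (i + 1) ≤ B i) :
    ∀ {w : List (ℕ × ℕ × ℕ)} {p z M : ℕ} {A : List ℕ}, Mt Z B p w → Z p = z →
      gm w z M A = true → Sem Z B p M A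
  | [], p, z, M, A, _, hz, h => Sem.stop (by rw [hz]; exact Nat.le_of_ble_eq_true h)
  | x :: T, p, z, M, A, hw, hz, h => by
    obtain ⟨h1, h2, h3, h4⟩ := hw
    have e0 : gm (x :: T) z M A = rr (Nat.ble z M)
      (List.rec (motive := fun _ => Bool) false
        (fun S As _ => nd (Nat.ble (Nat.succ M) x.2.1)
          (fB (Nat.sub x.2.1 M) fun g => fB (Nat.sub S 1) fun S1 => fB (Nat.sub g S1) fun e =>
            rr (fB (Nat.div (Nat.add g e) 2) fun r =>
                rr (Nat.ble (Nat.add x.1 r) x.2.1) (cfL T r e))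
              (fB (Nat.sub g e) fun R => nd (Nat.ble 1 R)
                (allF (fun a => fB (Nat.add M a) fun M' => gm T x.1 M' (insL (Nat.sub R a) As))
                  (Nat.div (Nat.succ R) 2) (Nat.succ (Nat.div R 2)))))) A) := rfl
    rw [e0, rr_iff] at h
    have e1 := hZm p
    have e2 := hBm p
    rcases h with h | h
    · exact Sem.stop (by rw [hz]; exact Nat.le_of_ble_eq_true h)
    · cases A with
      | nil => cases h
      | cons S As =>
        simp only [nd_iff, fB_eq, rr_iff] at h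
        obtain ⟨h5, h6⟩ := h
        have h5' : M < x.2.1 := Nat.le_of_ble_eq_true h5
        have e3 : Nat.sub x.2.1 M = x.2.1 - M := rfl
        have e4 : Nat.sub S 1 = S - 1 := rfl
        have e5 : Nat.sub (Nat.sub x.2.1 M) (Nat.sub S 1) = (x.2.1 - M) - (S - 1) := rfl
        rcases h6 with h6 | h6
        · have e6 : Nat.div (Nat.add (Nat.sub x.2.1 M) (Nat.sub (Nat.sub x.2.1 M) (Nat.sub S 1))) 2
            = ((x.2.1 - M) + ((x.2.1 - M) - (S - 1))) / 2 := rfl
          rw [e6, e5] at h6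
          refine Sem.stage hZm hBm (e := (x.2.1 - M) - (S - 1))
            (r := ((x.2.1 - M) + ((x.2.1 - M) - (S - 1))) / 2) (by omega) (by omega) (by omega) ?_
          rcases h6 with h6 | h6
          · left
            have h7 : x.1 + ((x.2.1 - M) + ((x.2.1 - M) - (S - 1))) / 2 ≤ x.2.1 :=
              Nat.le_of_ble_eq_true h6
            omega
          · right
            intro M' S' g1 g2 g3
            exact cfL_sound hZm hBm h4 h6 g1 g2 g3
        · obtain ⟨h7, h8⟩ := h6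
          have e7 : Nat.sub (Nat.sub x.2.1 M) (Nat.sub (Nat.sub x.2.1 M) (Nat.sub S 1)) =
            (x.2.1 - M) - ((x.2.1 - M) - (S - 1)) := rfl
          rw [e7] at h7 h8
          obtain ⟨R, hR⟩ : ∃ R, R = (x.2.1 - M) - ((x.2.1 - M) - (S - 1)) := ⟨_, rfl⟩
          rw [← hR] at h7 h8
          have h7' : 1 ≤ R := Nat.le_of_ble_eq_true h7
          refine Sem.cut hZm hBm (R := R) h7' (by omega) (by omega) fun a ha1 ha2 => ?_
          have h9 := allF_iff _ _ h8 a (show (R + 1) / 2 ≤ a by omega)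
            (show a < (R + 1) / 2 + (R / 2 + 1) by omega)
          have h10 := gm_sound hZm hBm h4 h1.symm h9
          exact h10.perm (insL_perm _ _).symm

end Pool.Agent.Work.MP_bf01b2_co.MR
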