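import Pool.Agent.Work.MP_bf01b2_co.MR.GdO

/-!
# Path states with bounded multiplicity

`GnO m D ν v`: as `GdO`, with any number of special holes, but every position outside of the roots
lies in at most `ν` labels.
-/

set_option autoImplicit false

namespace Pool.Agent.Work.MP_bf01b2_co.MR

/-- The states with one descending path for every soft position and every tree, such that every
position outside of the roots lies in at most `ν` labels. -/
def GnO (m D ν : ℕ) (v : List ℕ) : Prop :=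
  ∀ Ts : List (LRT (Fin m → Bool)), (Ts.map LRT.pos).Nodup → (∀ T ∈ Ts, RootOK T) →
    List.Forall₂ (fun T n => LRT.size T ≤ n) Ts v → (softs Ts \ poss Ts).card ≤ D →
      (∀ x, x ∉ poss Ts → mult Ts x ≤ ν) →
      (∀ T ∈ Ts, ∀ x, x ∉ poss Ts → T.tree.onp x) → ∃ S, Emb (cadj m) Ts S

section
variable {m : ℕ}

theorem GnO.of_GdO {D ν : ℕ} {v : List ℕ} (h : ∀ s, GdO m D s v) : GnO m D ν v :=
  fun Ts h1 h2 h3 h4 _ h6 => h _ Ts h1 h2 h3 h4 le_rfl h6

/-- without soft positions: from hard states -/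
theorem GnO.of_Gd {ν : ℕ} {v : List ℕ} (h : Gd m 0 0 v) : GnO m 0 ν v :=
  GnO.of_GdO fun _ => h.zero.toO

theorem GnO.mono {D D' ν : ℕ} {v w : List ℕ} (hD : D ≤ D')
    (hv : List.Forall₂ (· ≤ ·) v w) (h : GnO m D' ν w) : GnO m D ν v := by
  intro Ts h1 h2 h3 h4
  refine h Ts h1 h2 ?_ (h4.trans hD)
  clear h1 h2 h4 h
  induction h3 generalizing w with
  | nil => cases hv; exact .nil
  | cons h3 _ ih =>
    cases hv with
    | cons h6 h7 => exact .cons (h3.trans h6) (ih h7)

theorem GnO.monoD {D D' ν : ℕ} {v : List ℕ} (hD : D ≤ D') (h : GnO m D' ν v) : GnO m D ν v :=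
  h.mono hD (forall₂_le_refl v)

theorem GnO.perm {D ν : ℕ} {v w : List ℕ} (hvw : v.Perm w) (h : GnO m D ν v) : GnO m D ν w := by
  intro Ts h1 h2 h3 h4 h5 h6
  obtain ⟨Us, h7, h8⟩ := List.perm_comp_forall₂ hvw (h3.flip : List.Forall₂
    (fun (n : ℕ) (T : LRT (Fin m → Bool)) => LRT.size T ≤ n) w Ts)
  obtain ⟨S, hS⟩ := h Us (by rw [(h8.map LRT.pos).nodup_iff]; exact h1)
    (fun T hT => h2 T (h8.mem_iff.1 hT)) h7.flip
    (by rw [softs_perm h8, poss_perm h8]; exact h4)
    (fun x hx => by rw [mult_perm h8]; exact h5 x (by rw [← poss_perm h8]; exact hx))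
    (fun T hT x hx => h6 T (h8.mem_iff.1 hT) x (by rw [← poss_perm h8]; exact hx))
  exact ⟨S, hS.perm h8⟩

/-- **Clean paths.** -/
theorem GnO.emb {D ν : ℕ} {v : List ℕ} (h : GnO m D ν v) {Ts : List (LRT (Fin m → Bool))}
    (h1 : (Ts.map LRT.pos).Nodup) (h2 : ∀ T ∈ Ts, RootOK T)
    (h3 : List.Forall₂ (fun T n => LRT.size T ≤ n) Ts v) (h4 : (softs Ts \ poss Ts).card ≤ D)
    (h0 : ∀ x, x ∉ poss Ts → mult Ts x ≤ ν)
    (h5 : ∀ T ∈ Ts, ∀ x, x ∉ poss Ts → PT (hasL x) T) : ∃ S, Emb (cadj m) Ts S :=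
  h Ts h1 h2 h3 h4 h0 fun T hT x hx => (onp_iff_PT x T).2 (h5 T hT x hx)

/-- **Hardening for path states.** -/
theorem GnO.emb_harden {D ν : ℕ} {v : List ℕ} {Ts : List (LRT (Fin m → Bool))}
    (O : Finset (Fin m → Bool)) (h : GnO m D ν (v ++ List.replicate O.card 1))
    (hO : Disjoint O (poss Ts))
    (h1 : (Ts.map LRT.pos).Nodup) (h2 : ∀ T ∈ Ts, RootOK T)
    (h3 : List.Forall₂ (fun T n => LRT.size T ≤ n) Ts v)
    (h4 : (softs Ts \ (poss Ts ∪ O)).card ≤ D) (h0 : ∀ x, x ∉ poss Ts ∪ O → mult Ts x ≤ ν)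
    (h5 : ∀ T ∈ Ts, ∀ x, x ∉ poss Ts ∪ O → PT (hasL x) T) : ∃ S, Emb (cadj m) Ts S := by
  have hp : poss (Ts ++ O.toList.map dummy) = poss Ts ∪ O := by
    rw [poss_dummies, Finset.toList_toFinset]
  have hm : ∀ x, mult (Ts ++ O.toList.map dummy) x = mult Ts x := by
    intro x
    rw [mult_append]
    have : mult (O.toList.map (dummy (V := Fin m → Bool))) x = 0 := by
      unfold mult
      rw [List.countP_eq_zero]
      intro F hF
      obtain ⟨T, hT, hF⟩ := List.mem_flatMap.1 hF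
      obtain ⟨o, _, rfl⟩ := List.mem_map.1 hT
      simp [dummy_labs] at hF
    omega
  obtain ⟨S, hS⟩ := h.emb (Ts := Ts ++ O.toList.map dummy)
    (nodup_dummies h1 (Finset.nodup_toList O) (fun o ho =>
      Finset.disjoint_left.1 hO (Finset.mem_toList.1 ho))) (by
    intro T hT
    rcases List.mem_append.1 hT with hT | hT
    · exact h2 T hT
    · obtain ⟨o, _, rfl⟩ := List.mem_map.1 hT
      exact rootOK_dummy o) (by
    refine forall₂_append' h3 ?_
    have := dummies_sizes O.toList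
    rwa [Finset.length_toList] at this) (by
    rw [hp, softs_dummies]; exact h4) (by
    rw [hp]
    intro x hx
    rw [hm]
    exact h0 x hx) (by
    rw [hp]
    intro T hT
    rcases List.mem_append.1 hT with hT | hT
    · exact h5 T hT
    · obtain ⟨o, _, rfl⟩ := List.mem_map.1 hT
      exact fun x _ => PT.of_none (by simp [dummy_labs]))
  obtain ⟨A, B, hA, -⟩ := emb_append.1 hS
  exact ⟨A, hA⟩

/-- states without soft positions are hard states -/
theorem GnO.toGd {ν s : ℕ} {v : List ℕ} (h : GnO m 0 ν v) : Gd m 0 s v := by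
  intro Ts h1 h2 h3 h4 _
  have e1 : softs Ts \ poss Ts = ∅ := Finset.card_eq_zero.1 (Nat.le_zero.1 h4)
  have e2 : ∀ x, x ∉ poss Ts → x ∉ softs Ts := by
    intro x hx hs
    have : x ∈ softs Ts \ poss Ts := Finset.mem_sdiff.2 ⟨hs, hx⟩
    rw [e1] at this
    exact absurd this (Finset.notMem_empty _)
  refine h Ts h1 h2 h3 h4 (fun x hx => ?_) (fun T hT x hx => ?_)
  · rw [mult_eq_zero (e2 x hx)]
    exact Nat.zero_le _
  · refine LT.onp_of_not_mem fun F hF hxF => e2 x hx (mem_softs.2 ⟨T, hT, F, hF, hxF⟩)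

/-- It is enough to treat forests whose labels are disjoint from the roots. -/
theorem GnO.of_clean {D ν : ℕ} {v : List ℕ} (h : ∀ Ts : List (LRT (Fin m → Bool)),
    (Ts.map LRT.pos).Nodup → (∀ T ∈ Ts, RootOK T) →
    List.Forall₂ (fun T n => LRT.size T ≤ n) Ts v → (softs Ts \ poss Ts).card ≤ D →
      (∀ x, mult Ts x ≤ ν) → (∀ T ∈ Ts, ∀ x, T.tree.onp x) →
      (∀ T ∈ Ts, ∀ F ∈ T.labs, Disjoint F (poss Ts)) →
      ∃ S, Emb (cadj m) Ts S) : GnO m D ν v := by
  intro Ts h1 h2 h3 h4 h5 h0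
  obtain ⟨S, hS⟩ := h (Ts.map (stripT (poss Ts))) (by rw [strip_poss']; exact h1) (by
    intro T hT
    obtain ⟨U, hU, rfl⟩ := List.mem_map.1 hT
    exact strip_ok (h2 U hU)) (by
    rw [List.forall₂_map_left_iff]
    exact h3.imp fun T n hn => by rw [stripT_size]; exact hn) (by
    refine le_trans (Finset.card_le_card ?_) h4
    exact (softs_strip_sub (poss Ts) Ts).trans Finset.sdiff_subset) (by
    intro x
    rw [mult_strip]
    split_ifs with hx
    · exact Nat.zero_le _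
    · exact h5 x hx) (by
    intro T hT x
    obtain ⟨U, hU, rfl⟩ := List.mem_map.1 hT
    rw [onp_iff_PT]
    have h7 : (stripT (poss Ts) U).tree = U.tree.mapL (fun F => F \ poss Ts) := rfl
    by_cases hx : x ∈ poss Ts
    · refine PT.of_none fun F hF => ?_
      rw [hasL_false]
      have h8 : F ∈ (U.tree.mapL (fun F => F \ poss Ts)).labs := hF
      rw [LT.mapL_labs] at h8
      obtain ⟨G, _, rfl⟩ := List.mem_map.1 h8
      exact fun h => (Finset.mem_sdiff.1 h).2 hx
    · have h6 := (onp_iff_PT x U).1 (h0 U hU x hx)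
      unfold PT at h6 ⊢
      rw [h7, LT.core_mapL]
      refine (LT.core_le fun F _ hF => ?_).pth h6
      rw [hasL_iff] at hF ⊢
      exact (Finset.mem_sdiff.1 hF).1) (by
    rw [strip_poss]
    intro T hT F hF
    have h6 : F ∈ (Ts.map (stripT (poss Ts))).flatMap LRT.labs := List.mem_flatMap.2 ⟨T, hT, hF⟩
    rw [strip_labs] at h6
    obtain ⟨G, _, rfl⟩ := List.mem_map.1 h6
    exact Finset.sdiff_disjoint)
  exact ⟨S, emb_of_strip h2 hS⟩

/-- `x` soft positions are replaced by trees with one vertex -/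
theorem GnO.harden {D ν x : ℕ} {v : List ℕ} (h : GnO m D ν (v ++ List.replicate x 1))
    (hroom : v.length + x ≤ 2 ^ m) : GnO m (D + x) ν v := by
  classical
  refine GnO.of_clean fun Ts h1 h2 h3 h4 h5 h6 hcl => ?_
  have hdisj : Disjoint (softs Ts) (poss Ts) := by
    rw [Finset.disjoint_left]
    intro y hy
    obtain ⟨T, hT, F, hF, hyF⟩ := mem_softs.1 hy
    exact Finset.disjoint_left.1 (hcl T hT F hF) hyF
  have hcard : (softs Ts).card ≤ D + x := by
    rwa [Finset.sdiff_eq_self_of_disjoint hdisj] at h4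
  obtain ⟨A, hA1, hA2⟩ := Finset.exists_subset_card_eq (s := softs Ts)
    (n := min x (softs Ts).card) (min_le_right _ _)
  obtain ⟨O, e1, e2, e3⟩ := harden_room (dX := x) (FX := Ts) (O := A)
    (hdisj.mono_left hA1) (by rw [hA2]; exact min_le_left _ _) (by rw [h3.length_eq]; exact hroom)
  refine GnO.emb_harden (D := D) (ν := ν) (v := v) O (by rw [e3]; exact h) e2 h1 h2 h3 ?_ ?_ ?_
  · have h7 : softs Ts \ (poss Ts ∪ O) ⊆ softs Ts \ A := by
      intro y hy
      rw [Finset.mem_sdiff, Finset.mem_union, not_or] at hy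
      rw [Finset.mem_sdiff]
      exact ⟨hy.1, fun h => hy.2.2 (e1 h)⟩
    refine (Finset.card_le_card h7).trans ?_
    rw [Finset.card_sdiff_of_subset hA1, hA2]
    omega
  · exact fun y _ => h5 y
  · intro T hT x _
    exact (onp_iff_PT x T).1 (h6 T hT x)

/-- a state with an empty tree is vacuous -/
theorem GnO.of_zero {D ν : ℕ} {v : List ℕ} (h : 0 ∈ v) : GnO m D ν v :=
  GnO.of_GdO fun _ => GdO.of_zero h

theorem GnO.nil {D ν : ℕ} : GnO m D ν [] := GnO.of_GdO fun _ => GdO.nil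

end

end Pool.Agent.Work.MP_bf01b2_co.MR
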