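import Pool.Agent.Work.MP_bf01b2_co.MR.Base

/-!
# Marks recursion: grafting pieces into the holes of an embedded forest
-/

set_option autoImplicit false

namespace Pool.Agent.Work.MP_bf01b2_co.MR

/-- `Graft t L t'`: the tree `t'` is obtained from `t` by putting the trees of `L` into the holes,
from left to right (a hole that stays a hole is filled with `hole`). -/
inductive Graft : HT → List HT → HT → Prop
  | nil : Graft .nil [] .nil
  | hole (u : HT) : Graft .hole [u] u
  | node {l r l' r' : HT} {L M : List HT} (h1 : Graft l L l') (h2 : Graft r M r') :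
      Graft (.node l r) (L ++ M) (.node l' r')

theorem Graft.length {t t' : HT} {L : List HT} (h : Graft t L t') : L.length = t.holes := by
  induction h with
  | nil => rfl
  | hole u => rfl
  | node h1 h2 ih1 ih2 => rw [List.length_append, ih1, ih2]; rfl

theorem Graft.size {t t' : HT} {L : List HT} (h : Graft t L t') :
    t'.size = t.size + (L.map HT.size).sum := by
  induction h with
  | nil => rfl
  | hole u => simp [HT.size]
  | node h1 h2 ih1 ih2 =>
    simp only [HT.size, List.map_append, List.sum_append, ih1, ih2]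
    omega

/-- nothing is grafted -/
theorem Graft.refl : ∀ t : HT, Graft t (List.replicate t.holes .hole) t
  | .nil => Graft.nil
  | .hole => Graft.hole _
  | .node l r => by
    have := Graft.node (Graft.refl l) (Graft.refl r)
    rwa [← List.replicate_add] at this

/-- a tree without holes -/
theorem Graft.refl' {t : HT} (h : t.holes = 0) : Graft t [] t := by
  have := Graft.refl t
  rwa [h] at this

/-- `HT.clear t`: holes become `nil`. -/
def HT.clear : HT → HT
  | .nil => .nil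
  | .hole => .nil
  | .node l r => .node l.clear r.clear

theorem HT.clear_holes : ∀ t : HT, t.clear.holes = 0
  | .nil => rfl
  | .hole => rfl
  | .node l r => by simp [HT.clear, HT.holes, HT.clear_holes l, HT.clear_holes r]

theorem HT.clear_size : ∀ t : HT, t.clear.size = t.size
  | .nil => rfl
  | .hole => rfl
  | .node l r => by simp [HT.clear, HT.size, HT.clear_size l, HT.clear_size r]

section emb

variable {V : Type*} [DecidableEq V]

/-- Several subtrees `u`, each hanging below a position `v`, disjointly embedded. -/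
def Slots (adj : V → V → Prop) : List (HT × V) → Finset V → List V → Prop
  | [], U, q => U = ∅ ∧ q = []
  | a :: L, U, q => ∃ A B qa qb, Slot adj a.1 a.2 A qa ∧ Slots adj L B qb ∧ Disjoint A B ∧
      U = A ∪ B ∧ q = qa ++ qb

theorem slots_append {adj : V → V → Prop} : ∀ {L M : List (HT × V)} {U : Finset V} {q : List V},
    Slots adj (L ++ M) U q ↔ ∃ A B qa qb, Slots adj L A qa ∧ Slots adj M B qb ∧ Disjoint A B ∧
      U = A ∪ B ∧ q = qa ++ qb
  | [], M, U, q => by
    constructor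
    · intro h
      exact ⟨∅, U, [], q, ⟨rfl, rfl⟩, h, by simp, by simp, by simp⟩
    · rintro ⟨A, B, qa, qb, ⟨rfl, rfl⟩, h, -, rfl, rfl⟩
      simpa using h
  | a :: L, M, U, q => by
    constructor
    · rintro ⟨A, B, qa, qb, hA, hB, hd, rfl, rfl⟩
      obtain ⟨C, D, qc, qd, hC, hD, hd', rfl, rfl⟩ := slots_append.1 hB
      rw [Finset.disjoint_union_right] at hd
      refine ⟨A ∪ C, D, qa ++ qc, qd, ⟨A, C, qa, qc, hA, hC, hd.1, rfl, rfl⟩, hD, ?_, ?_, ?_⟩
      · rw [Finset.disjoint_union_left]; exact ⟨hd.2, hd'⟩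
      · rw [Finset.union_assoc]
      · rw [List.append_assoc]
    · rintro ⟨X, D, qx, qd, ⟨A, C, qa, qc, hA, hC, hd, rfl, rfl⟩, hD, hd', rfl, rfl⟩
      rw [Finset.disjoint_union_left] at hd'
      refine ⟨A, C ∪ D, qa, qc ++ qd, hA, slots_append.2 ⟨C, D, qc, qd, hC, hD, hd'.2, rfl, rfl⟩,
        ?_, ?_, ?_⟩
      · rw [Finset.disjoint_union_right]; exact ⟨hd, hd'.1⟩
      · rw [Finset.union_assoc]
      · rw [List.append_assoc]

theorem slots_perm {adj : V → V → Prop} {L M : List (HT × V)} (h : L.Perm M) :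
    ∀ {U : Finset V} {q : List V}, Slots adj L U q → ∃ q', q'.Perm q ∧ Slots adj M U q' := by
  induction h with
  | nil => intro U q h; exact ⟨q, List.Perm.refl _, h⟩
  | cons a _ ih =>
    rintro U q ⟨A, B, qa, qb, hA, hB, hd, rfl, rfl⟩
    obtain ⟨q', hq', hB'⟩ := ih hB
    exact ⟨qa ++ q', List.Perm.append_left _ hq', A, B, qa, q', hA, hB', hd, rfl, rfl⟩
  | swap a b L =>
    rintro U q ⟨A, B, qa, qb, hA, ⟨C, D, qc, qd, hC, hD, hd', rfl, rfl⟩, hd, rfl, rfl⟩
    rw [Finset.disjoint_union_right] at hd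
    refine ⟨qc ++ (qa ++ qd), ?_, C, A ∪ D, qc, qa ++ qd, hC, ⟨A, D, qa, qd, hA, hD, hd.2, rfl,
      rfl⟩, ?_, ?_, rfl⟩
    · rw [← List.append_assoc, ← List.append_assoc]
      exact List.Perm.append_right _ List.perm_append_comm
    · rw [Finset.disjoint_union_right]; exact ⟨hd.1.symm, hd'⟩
    · rw [← Finset.union_assoc, ← Finset.union_assoc, Finset.union_comm A C]
  | trans _ _ ih1 ih2 =>
    intro U q h
    obtain ⟨q1, h1, h2⟩ := ih1 h
    obtain ⟨q2, h3, h4⟩ := ih2 h2
    exact ⟨q2, h3.trans h1, h4⟩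

theorem forest_append {adj : V → V → Prop} : ∀ {Ts Us : List (RT V)} {S : Finset V} {p : List V},
    Forest adj (Ts ++ Us) S p ↔ ∃ A B pa pb, Forest adj Ts A pa ∧ Forest adj Us B pb ∧
      Disjoint A B ∧ S = A ∪ B ∧ p = pa ++ pb
  | [], Us, S, p => by
    constructor
    · intro h
      exact ⟨∅, S, [], p, ⟨rfl, rfl⟩, h, by simp, by simp, by simp⟩
    · rintro ⟨A, B, qa, qb, ⟨rfl, rfl⟩, h, -, rfl, rfl⟩
      simpa using h
  | a :: L, M, U, q => by
    constructor
    · rintro ⟨A, B, qa, qb, hA, hB, hd, rfl, rfl⟩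
      obtain ⟨C, D, qc, qd, hC, hD, hd', rfl, rfl⟩ := forest_append.1 hB
      rw [Finset.disjoint_union_right] at hd
      refine ⟨A ∪ C, D, qa ++ qc, qd, ⟨A, C, qa, qc, hA, hC, hd.1, rfl, rfl⟩, hD, ?_, ?_, ?_⟩
      · rw [Finset.disjoint_union_left]; exact ⟨hd.2, hd'⟩
      · rw [Finset.union_assoc]
      · rw [List.append_assoc]
    · rintro ⟨X, D, qx, qd, ⟨A, C, qa, qc, hA, hC, hd, rfl, rfl⟩, hD, hd', rfl, rfl⟩
      rw [Finset.disjoint_union_left] at hd'
      refine ⟨A, C ∪ D, qa, qc ++ qd, hA, forest_append.2 ⟨C, D, qc, qd, hC, hD, hd'.2, rfl, rfl⟩,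
        ?_, ?_, ?_⟩
      · rw [Finset.disjoint_union_right]; exact ⟨hd, hd'.1⟩
      · rw [Finset.union_assoc]
      · rw [List.append_assoc]

theorem forest_perm {adj : V → V → Prop} {L M : List (RT V)} (h : L.Perm M) :
    ∀ {U : Finset V} {q : List V}, Forest adj L U q → ∃ q', q'.Perm q ∧ Forest adj M U q' := by
  induction h with
  | nil => intro U q h; exact ⟨q, List.Perm.refl _, h⟩
  | cons a _ ih =>
    rintro U q ⟨A, B, qa, qb, hA, hB, hd, rfl, rfl⟩
    obtain ⟨q', hq', hB'⟩ := ih hB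
    exact ⟨qa ++ q', List.Perm.append_left _ hq', A, B, qa, q', hA, hB', hd, rfl, rfl⟩
  | swap a b L =>
    rintro U q ⟨A, B, qa, qb, hA, ⟨C, D, qc, qd, hC, hD, hd', rfl, rfl⟩, hd, rfl, rfl⟩
    rw [Finset.disjoint_union_right] at hd
    refine ⟨qc ++ (qa ++ qd), ?_, C, A ∪ D, qc, qa ++ qd, hC, ⟨A, D, qa, qd, hA, hD, hd.2, rfl,
      rfl⟩, ?_, ?_, rfl⟩
    · rw [← List.append_assoc, ← List.append_assoc]
      exact List.Perm.append_right _ List.perm_append_comm
    · rw [Finset.disjoint_union_right]; exact ⟨hd.1.symm, hd'⟩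
    · rw [← Finset.union_assoc, ← Finset.union_assoc, Finset.union_comm A C]
  | trans _ _ ih1 ih2 =>
    intro U q h
    obtain ⟨q1, h1, h2⟩ := ih1 h
    obtain ⟨q2, h3, h4⟩ := ih2 h2
    exact ⟨q2, h3.trans h1, h4⟩

/-- An embedded forest, seen from neighbours of its roots. -/
theorem slots_of_forest {adj : V → V → Prop} : ∀ {Ps : List (RT V)} {p : List V},
    List.Forall₂ (fun P v => adj v P.pos) Ps p → ∀ {U : Finset V} {q : List V},
      Forest adj Ps U q → Slots adj ((Ps.map RT.tree).zip p) U q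
  | [], [], _, U, q, h => h
  | P :: Ps, v :: p, hp, U, q, h => by
    obtain ⟨A, B, qa, qb, hA, hB, hd, rfl, rfl⟩ := h
    rw [List.forall₂_cons] at hp
    exact ⟨A, B, qa, qb, ⟨P.pos, hp.1, hA⟩, slots_of_forest hp.2 hB, hd, rfl, rfl⟩

/-- Grafting into a subtree. -/
theorem slot_graft {adj : V → V → Prop} {t t' : HT} {L : List HT} (h : Graft t L t') :
    ∀ {v : V} {S : Finset V} {p : List V} {U : Finset V} {q : List V}, Slot adj t v S p →
      Slots adj (L.zip p) U q → Disjoint S U → Slot adj t' v (S ∪ U) q := by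
  induction h with
  | nil =>
    rintro v S p U q ⟨rfl, rfl⟩ ⟨rfl, rfl⟩ -
    exact ⟨by simp, rfl⟩
  | hole u =>
    rintro v S p U q ⟨rfl, rfl⟩ ⟨A, B, qa, qb, hA, ⟨rfl, rfl⟩, -, rfl, rfl⟩ -
    simpa using hA
  | @node l r l' r' L M h1 h2 ih1 ih2 =>
    rintro v S p U q ⟨x, hvx, A, B, pa, pb, hA, hB, hx, hx', hd, rfl, rfl⟩ hU hSU
    have hlen : L.length = pa.length := by rw [h1.length, (slot_length hA).1]
    rw [List.zip_append hlen, slots_append] at hU
    obtain ⟨U1, U2, q1, q2, hU1, hU2, hdU, rfl, rfl⟩ := hU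
    rw [Finset.disjoint_insert_left, Finset.disjoint_union_left] at hSU
    obtain ⟨hxU, hAU, hBU⟩ := hSU
    rw [Finset.mem_union, not_or] at hxU
    rw [Finset.disjoint_union_right] at hAU hBU
    refine ⟨x, hvx, A ∪ U1, B ∪ U2, q1, q2, ih1 hA hU1 hAU.1, ih2 hB hU2 hBU.2, ?_, ?_, ?_, ?_, rfl⟩
    · simp [hx, hxU.1]
    · simp [hx', hxU.2]
    · rw [Finset.disjoint_union_left, Finset.disjoint_union_right, Finset.disjoint_union_right]
      exact ⟨⟨hd, hAU.2⟩, hBU.1.symm, hdU⟩
    · ext y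
      simp only [Finset.mem_union, Finset.mem_insert]
      tauto

theorem root_graft {adj : V → V → Prop} {l r l' r' : HT} {L M : List HT} (h1 : Graft l L l')
    (h2 : Graft r M r') {x : V} {S : Finset V} {p : List V} {U : Finset V} {q : List V}
    (h : Root adj l r x S p) (hU : Slots adj ((L ++ M).zip p) U q) (hSU : Disjoint S U) :
    Root adj l' r' x (S ∪ U) q := by
  obtain ⟨A, B, pa, pb, hA, hB, hx, hx', hd, rfl, rfl⟩ := h
  have hlen : L.length = pa.length := by rw [h1.length, (slot_length hA).1]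
  rw [List.zip_append hlen, slots_append] at hU
  obtain ⟨U1, U2, q1, q2, hU1, hU2, hdU, rfl, rfl⟩ := hU
  rw [Finset.disjoint_insert_left, Finset.disjoint_union_left] at hSU
  obtain ⟨hxU, hAU, hBU⟩ := hSU
  rw [Finset.mem_union, not_or] at hxU
  rw [Finset.disjoint_union_right] at hAU hBU
  refine ⟨A ∪ U1, B ∪ U2, q1, q2, slot_graft h1 hA hU1 hAU.1, slot_graft h2 hB hU2 hBU.2,
    ?_, ?_, ?_, ?_, rfl⟩
  · simp [hx, hxU.1]
  · simp [hx', hxU.2]
  · rw [Finset.disjoint_union_left, Finset.disjoint_union_right, Finset.disjoint_union_right]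
    exact ⟨⟨hd, hAU.2⟩, hBU.1.symm, hdU⟩
  · ext y
    simp only [Finset.mem_union, Finset.mem_insert]
    tauto

/-- The forest `Ts'` is obtained from `Ts` by grafting the trees of `L`. -/
inductive FGraft : List (RT V) → List HT → List (RT V) → Prop
  | nil : FGraft [] [] []
  | cons {T T' : RT V} {Ts Ts' : List (RT V)} {L M N : List HT} (hp : T'.pos = T.pos)
      (h1 : Graft T.l L T'.l) (h2 : Graft T.r M T'.r) (h3 : FGraft Ts N Ts') :
      FGraft (T :: Ts) (L ++ M ++ N) (T' :: Ts')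

theorem FGraft.refl' : ∀ {Ts : List (RT V)}, (∀ T ∈ Ts, T.holes = 0) → FGraft Ts [] Ts
  | [], _ => FGraft.nil
  | T :: Ts, h => by
    have h1 : T.holes = 0 := h T (by simp)
    unfold RT.holes at h1
    have h2 : FGraft Ts [] Ts := FGraft.refl' (fun U hU => h U (List.mem_cons_of_mem _ hU))
    have := FGraft.cons (T := T) (T' := T) rfl (Graft.refl' (t := T.l) (by omega))
      (Graft.refl' (t := T.r) (by omega)) h2
    simpa using this

theorem FGraft.append {Ts Ts' Us Us' : List (RT V)} {L M : List HT} (h1 : FGraft Ts L Ts')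
    (h2 : FGraft Us M Us') : FGraft (Ts ++ Us) (L ++ M) (Ts' ++ Us') := by
  induction h1 with
  | nil => exact h2
  | cons hp ha hb _ ih =>
    have := FGraft.cons hp ha hb ih
    simpa [List.append_assoc] using this

/-- Grafting into a forest. -/
theorem forest_graft {adj : V → V → Prop} {Ts Ts' : List (RT V)} {L : List HT}
    (h : FGraft Ts L Ts') :
    ∀ {S : Finset V} {p : List V} {U : Finset V} {q : List V}, Forest adj Ts S p →
      Slots adj (L.zip p) U q → Disjoint S U → Forest adj Ts' (S ∪ U) q := by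
  induction h with
  | nil =>
    rintro S p U q ⟨rfl, rfl⟩ ⟨rfl, rfl⟩ -
    exact ⟨by simp, rfl⟩
  | @cons T T' Ts Ts' L M N hp h1 h2 h3 ih =>
    rintro S p U q ⟨A, B, pa, pb, hA, hB, hd, rfl, rfl⟩ hU hSU
    have hlen : (L ++ M).length = pa.length := by
      obtain ⟨A1, A2, p1, p2, hA1, hA2, _, _, _, _, rfl⟩ := hA
      rw [List.length_append, List.length_append, h1.length, h2.length, (slot_length hA1).1,
        (slot_length hA2).1]
    rw [List.zip_append hlen, slots_append] at hU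
    obtain ⟨U1, U2, q1, q2, hU1, hU2, hdU, rfl, rfl⟩ := hU
    rw [Finset.disjoint_union_left, Finset.disjoint_union_right, Finset.disjoint_union_right] at hSU
    obtain ⟨⟨hAU1, hAU2⟩, hBU1, hBU2⟩ := hSU
    refine ⟨A ∪ U1, B ∪ U2, q1, q2, ?_, ih hB hU2 hBU2, ?_, ?_, rfl⟩
    · rw [hp]
      exact root_graft h1 h2 hA hU1 hAU1
    · rw [Finset.disjoint_union_left, Finset.disjoint_union_right, Finset.disjoint_union_right]
      exact ⟨⟨hd, hAU2⟩, hBU1.symm, hdU⟩
    · ext y
      simp only [Finset.mem_union]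
      tauto

/-- Two-way step: the forest `Ts` is embedded first (image `S`), the pieces `Ps` and the further
trees `Gs` afterwards (image `S'`, disjoint from `S`); the roots of the pieces are the images under
`σ` of the hole parents. -/
theorem two_way {adj : V → V → Prop} {σ : V → V} (hσ : ∀ v, adj v (σ v))
    {Ts Ts' Ps Gs : List (RT V)} (hg : FGraft Ts (Ps.map RT.tree) Ts')
    {S S' : Finset V} {p q : List V} (hF : Forest adj Ts S p)
    (hpos : Ps.map RT.pos = p.map σ) (hG : Forest adj (Ps ++ Gs) S' q) (hd : Disjoint S S') :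
    ∃ q', Forest adj (Ts' ++ Gs) (S ∪ S') q' := by
  obtain ⟨A, B, qa, qb, hA, hB, hdAB, rfl, rfl⟩ := forest_append.1 hG
  have hlen : Ps.length = p.length := by
    have := congrArg List.length hpos
    simpa using this
  have h2 : List.Forall₂ (fun P v => adj v P.pos) Ps p := by
    rw [List.forall₂_iff_get]
    refine ⟨hlen, fun i h1 h2 => ?_⟩
    have h3 : (Ps.map RT.pos)[i]'(by simpa using h1) = (p.map σ)[i]'(by simpa using h2) := by
      simp only [hpos]
    simp only [List.getElem_map] at h3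
    simp only [List.get_eq_getElem]
    rw [h3]
    exact hσ _
  rw [Finset.disjoint_union_right] at hd
  have h3 := forest_graft hg hF (slots_of_forest h2 hA) hd.1
  refine ⟨qa ++ qb, forest_append.2 ⟨S ∪ A, B, qa, qb, h3, hB, ?_, ?_, rfl⟩⟩
  · rw [Finset.disjoint_union_left]; exact ⟨hd.2, hdAB⟩
  · rw [Finset.union_assoc]

/-- A tree with a hole below the root, and a tree at a neighbour of this root, are merged. -/
theorem merge_root {adj : V → V → Prop} {z : V} {r : HT} {H : RT V} {Ts : List (RT V)}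
    (hadj : adj z H.pos) {S : Finset V} {p : List V}
    (h : Forest adj (H :: ⟨z, .hole, r⟩ :: Ts) S p) :
    ∃ p', Forest adj (⟨z, H.tree, r⟩ :: Ts) S p' := by
  obtain ⟨A, B, pa, pb, hA, ⟨C, D, pc, pd, ⟨C1, C2, p1, p2, hC1, hC2, hz1, hz2, hd3, rfl, rfl⟩, hD,
    hd2, rfl, rfl⟩, hd, rfl, rfl⟩ := h
  obtain ⟨rfl, rfl⟩ := hC1
  rw [Finset.disjoint_union_right, Finset.disjoint_insert_right] at hd
  obtain ⟨⟨hzA, hAC⟩, hAD⟩ := hd
  rw [Finset.empty_union] at hAC
  rw [Finset.disjoint_insert_left, Finset.empty_union] at hd2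
  refine ⟨_, insert z (A ∪ C2), D, pa ++ p2, pd, ⟨A, C2, pa, p2, ⟨H.pos, hadj, hA⟩, hC2, hzA, hz2,
    hAC, rfl, rfl⟩, hD, ?_, ?_, rfl⟩
  · rw [Finset.disjoint_insert_left, Finset.disjoint_union_left]
    exact ⟨hd2.1, hAD, hd2.2⟩
  · ext y
    simp only [Finset.mem_union, Finset.mem_insert, Finset.notMem_empty, false_or]
    tauto

/-! ### Holes do not matter for hard facts -/

theorem slot_unclear {adj : V → V → Prop} : ∀ {t : HT} {v : V} {S : Finset V} {p : List V},
    Slot adj t.clear v S p → ∃ p', Slot adj t v S p'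
  | .nil, _, _, _, h => ⟨_, h⟩
  | .hole, v, _, _, h => ⟨[v], h.1, rfl⟩
  | .node l r, v, S, p, h => by
    obtain ⟨x, hvx, A, B, pa, pb, hA, hB, hx, hx', hd, rfl, rfl⟩ := h
    obtain ⟨p1, h1⟩ := slot_unclear hA
    obtain ⟨p2, h2⟩ := slot_unclear hB
    exact ⟨_, x, hvx, A, B, p1, p2, h1, h2, hx, hx', hd, rfl, rfl⟩

/-- holes become `nil` -/
def RT.clear (T : RT V) : RT V := ⟨T.pos, T.l.clear, T.r.clear⟩

theorem RT.clear_size (T : RT V) : T.clear.size = T.size := by
  simp [RT.clear, RT.size, HT.clear_size]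

theorem RT.clear_holes (T : RT V) : T.clear.holes = 0 := by
  simp [RT.clear, RT.holes, HT.clear_holes]

theorem forest_unclear {adj : V → V → Prop} : ∀ {Ts : List (RT V)} {S : Finset V} {p : List V},
    Forest adj (Ts.map RT.clear) S p → ∃ p', Forest adj Ts S p'
  | [], _, _, h => ⟨_, h⟩
  | T :: Ts, S, p, h => by
    obtain ⟨A, B, pa, pb, ⟨A1, A2, p1, p2, hA1, hA2, hx, hx', hd1, rfl, rfl⟩, hB, hd, rfl, rfl⟩ := h
    obtain ⟨q1, h1⟩ := slot_unclear hA1
    obtain ⟨q2, h2⟩ := slot_unclear hA2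
    obtain ⟨q3, h3⟩ := forest_unclear hB
    exact ⟨_, _, B, _, q3, ⟨A1, A2, q1, q2, h1, h2, hx, hx', hd1, rfl, rfl⟩, h3, hd, rfl, rfl⟩

/-- It is enough to prove a hard fact for forests without holes. -/
theorem HF_of_clear {adj : V → V → Prop} {X : Finset V} {ms : List (V × ℕ)}
    (h : ∀ Ts : List (RT V), (∀ T ∈ Ts, T.holes = 0) →
      List.Forall₂ (fun T m => T.pos = m.1 ∧ T.size ≤ m.2) Ts ms →
      ∃ S p, Forest adj Ts S p ∧ S ⊆ X) : HF adj X ms := by
  intro Ts hTs
  obtain ⟨S, p, h1, h2⟩ := h (Ts.map RT.clear) (by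
    intro T hT
    obtain ⟨U, -, rfl⟩ := List.mem_map.1 hT
    exact U.clear_holes) (by
    rw [List.forall₂_map_left_iff]
    refine hTs.imp fun T m hm => ⟨hm.1, ?_⟩
    rw [RT.clear_size]
    exact hm.2)
  obtain ⟨p', h3⟩ := forest_unclear h1
  exact ⟨S, p', h3, h2⟩

/-! ### Monotonicity -/

theorem HF.mono {adj : V → V → Prop} {X Y : Finset V} {ms ns : List (V × ℕ)} (h : HF adj X ms)
    (hXY : X ⊆ Y) (hmn : List.Forall₂ (fun n m => n.1 = m.1 ∧ n.2 ≤ m.2) ns ms) : HF adj Y ns := by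
  intro Ts hTs
  have h1 : List.Forall₂ (fun (T : RT V) (m : V × ℕ) => T.pos = m.1 ∧ T.size ≤ m.2) Ts ms := by
    rw [List.forall₂_iff_get] at hTs hmn ⊢
    refine ⟨hTs.1.trans hmn.1, fun i h1 h2 => ?_⟩
    have h3 : i < ns.length := hTs.1 ▸ h1
    have h4 := hTs.2 i h1 h3
    have h5 := hmn.2 i h3 h2
    exact ⟨h4.1.trans h5.1, h4.2.trans h5.2⟩
  obtain ⟨S, p, h2, h3⟩ := h Ts h1
  exact ⟨S, p, h2, h3.trans hXY⟩

theorem perm_forall₂ {α β : Type*} {R : α → β → Prop} {ms ns : List β} (hp : ms.Perm ns) :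
    ∀ {Ts : List α}, List.Forall₂ R Ts ns → ∃ Us : List α, Us.Perm Ts ∧ List.Forall₂ R Us ms := by
  induction hp with
  | nil => intro Ts h; exact ⟨Ts, List.Perm.refl _, h⟩
  | cons a _ ih =>
    intro Ts h
    cases h with
    | cons h1 h2 =>
      obtain ⟨Us, h3, h4⟩ := ih h2
      exact ⟨_ :: Us, List.Perm.cons _ h3, List.Forall₂.cons h1 h4⟩
  | swap a b L =>
    intro Ts h
    cases h with
    | cons h1 h2 =>
      cases h2 with
      | cons h3 h4 => exact ⟨_, List.Perm.swap _ _ _, List.Forall₂.cons h3 (List.Forall₂.cons h1 h4)⟩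
  | trans _ _ ih1 ih2 =>
    intro Ts h
    obtain ⟨Us, h1, h2⟩ := ih2 h
    obtain ⟨Vs, h3, h4⟩ := ih1 h2
    exact ⟨Vs, h3.trans h1, h4⟩

theorem HF.perm {adj : V → V → Prop} {X : Finset V} {ms ns : List (V × ℕ)} (h : HF adj X ms)
    (hp : ms.Perm ns) : HF adj X ns := by
  intro Ts hTs
  obtain ⟨Us, hUT, hUm⟩ := perm_forall₂ hp hTs
  obtain ⟨S, p, h1, h2⟩ := h Us hUm
  obtain ⟨p', -, h3⟩ := forest_perm hUT h1
  exact ⟨S, p', h3, h2⟩

end emb

end Pool.Agent.Work.MP_bf01b2_co.MR
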