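import Pool.Agent.Work.MP_bf01b2_co.MR.Tabs
import Pool.Agent.Work.MP_bf01b2_co.MR.Level2

/-!
# Lists of facts; hardening
-/

set_option autoImplicit false

namespace Pool.Agent.Work.MP_bf01b2_co.MR

/-- facts `(k, D, cap)`: all states with `k` trees of total size at most `cap` and at most `D` soft
positions -/
def BaseP (m : ℕ) (L : List (ℕ × ℕ × ℕ)) : Prop :=
  ∀ e ∈ L, ∀ (s : ℕ) (w : List ℕ), w.length = e.1 → w.sum ≤ e.2.2 → GdP m e.2.1 s w

/-- the best cap of the list for `k` trees and `D` softs -/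
def capL (L : List (ℕ × ℕ × ℕ)) (k D : ℕ) : ℕ :=
  L.foldr (fun e a => if e.1 = k ∧ D ≤ e.2.1 then max e.2.2 a else a) 0

theorem capL_spec {k D : ℕ} : ∀ {L : List (ℕ × ℕ × ℕ)}, capL L k D = 0 ∨
    ∃ e ∈ L, e.1 = k ∧ D ≤ e.2.1 ∧ capL L k D = e.2.2
  | [] => Or.inl rfl
  | e :: L => by
    have ih := capL_spec (k := k) (D := D) (L := L)
    have e0 : capL (e :: L) k D = if e.1 = k ∧ D ≤ e.2.1 then max e.2.2 (capL L k D)
      else capL L k D := rfl
    rw [e0]
    split_ifs with h
    · rcases le_total (capL L k D) e.2.2 with h1 | h1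
      · rw [max_eq_left h1]
        exact Or.inr ⟨e, List.mem_cons_self, h.1, h.2, rfl⟩
      · rw [max_eq_right h1]
        rcases ih with ih | ⟨x, hx, h2⟩
        · exact Or.inl ih
        · exact Or.inr ⟨x, List.mem_cons_of_mem _ hx, h2⟩
    · rcases ih with ih | ⟨x, hx, h2⟩
      · exact Or.inl ih
      · exact Or.inr ⟨x, List.mem_cons_of_mem _ hx, h2⟩

theorem BaseP.cap {m : ℕ} {L : List (ℕ × ℕ × ℕ)} (h : BaseP m L) (s k D : ℕ) (w : List ℕ)
    (hw : w.length = k) (hs : w.sum ≤ capL L k D) : GdP m D s w := by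
  rcases capL_spec (k := k) (D := D) (L := L) with h1 | ⟨e, he, h1, h2, h3⟩
  · cases w with
    | nil => exact GdP.nil
    | cons a l => exact GdP.of_zero (zero_mem_of_sum (by rw [List.length_cons]; omega))
  · exact (h e he s w (by rw [hw, h1]) (by rw [← h3]; exact hs)).mono h2 le_rfl (forall₂_le_refl w)

theorem BaseP.nil {m : ℕ} : BaseP m [] := by
  intro e he
  simp at he

theorem BaseP.cons {m k D cap : ℕ} {L : List (ℕ × ℕ × ℕ)} (h : BaseP m L)
    (h1 : ∀ (s : ℕ) (w : List ℕ), w.length = k → w.sum ≤ cap → GdP m D s w) :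
    BaseP m ((k, D, cap) :: L) := by
  intro e he
  rcases List.mem_cons.1 he with rfl | he
  · exact h1
  · exact h e he

theorem BaseP.append {m : ℕ} {L L' : List (ℕ × ℕ × ℕ)} (h : BaseP m L) (h' : BaseP m L') :
    BaseP m (L ++ L') := by
  intro e he
  rcases List.mem_append.1 he with he | he
  · exact h e he
  · exact h' e he

/-- `x` soft positions are replaced by trees with one vertex -/
theorem GdP.harden {m D s x : ℕ} {v : List ℕ} (h : GdP m D s (v ++ List.replicate x 1))
    (hroom : v.length + x ≤ 2 ^ m) : GdP m (D + x) s v := by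
  classical
  refine GdP.of_clean fun Ts h1 h2 h3 h4 h5 h6 hcl => ?_
  have hdisj : Disjoint (softs Ts) (poss Ts) := by
    rw [Finset.disjoint_left]
    intro y hy
    obtain ⟨T, hT, F, hF, hyF⟩ := mem_softs.1 hy
    exact Finset.disjoint_left.1 (hcl T hT F hF) hyF
  have hcard : (softs Ts).card ≤ D + x := by
    rwa [Finset.sdiff_eq_self_of_disjoint hdisj] at h4
  obtain ⟨A, hA1, hA2⟩ := Finset.exists_subset_card_eq (s := softs Ts)
    (n := min x (softs Ts).card) (min_le_right _ _)
  obtain ⟨O, e1, e2, e3⟩ := harden_room (dX := x) (FX := Ts) (O := A)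
    (hdisj.mono_left hA1) (by rw [hA2]; exact min_le_left _ _) (by rw [h3.length_eq]; exact hroom)
  refine GdP.emb_harden (D := D) (s := s) (v := v) O (by rw [e3]; exact h) e2 h1 h2 h3 ?_ ?_ ?_
  · have h7 : softs Ts \ (poss Ts ∪ O) ⊆ softs Ts \ A := by
      intro y hy
      rw [Finset.mem_sdiff, Finset.mem_union, not_or] at hy
      rw [Finset.mem_sdiff]
      exact ⟨hy.1, fun h => hy.2.2 (e1 h)⟩
    refine (Finset.card_le_card h7).trans ?_
    rw [Finset.card_sdiff_of_subset hA1, hA2]
    omega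
  · exact (nspecO_le _ _).trans h5
  · intro T hT
    refine PT.mono (fun F _ hF => ?_) ((pth_iff_PT T).1 (h6 T hT))
    simp only [nonE, notIn, decide_eq_true_iff] at hF ⊢
    rintro rfl
    exact hF (Finset.empty_subset _)

/-- closure of a list of facts under hardening -/
theorem BaseP.hard {m : ℕ} {L : List (ℕ × ℕ × ℕ)} (h : BaseP m L) (k D x cap : ℕ)
    (hx : cap + x ≤ capL L (k + x) D) (hroom : k + x ≤ 2 ^ m) :
    BaseP m ((k, D + x, cap) :: L) := by
  refine h.cons fun s w hw hs => ?_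
  refine GdP.harden (h.cap s (k + x) D _ ?_ ?_) (by rw [hw]; exact hroom)
  · rw [List.length_append, List.length_replicate, hw]
  · rw [List.sum_append, List.sum_replicate, smul_eq_mul, mul_one]
    omega

/-- **One state of the step**, with lists of facts. -/
theorem step_all {m K D T : ℕ} (hK : 1 ≤ K) (hN : K + D ≤ m + 1) {L : List (ℕ × ℕ × ℕ)}
    (hL : BaseP m L) {tab : List Ent} (htab : tabC (fun k D _ => capL L k D) (capL L) K D tab = true)
    {G : List (ℕ × List (ℕ × ℕ))} {sn full : ℕ}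
    (hG : Adv.groups (K + D) (K + D) = G) (hsn : Adv.sen (K + D) = sn)
    (hfull : Adv.fullN (K + D) = full) (h : av K T T (chkV G sn full tab) = true) (s : ℕ)
    (w : List ℕ) (hw : w.length = K) (hs : w.sum ≤ T) : GdP (m + 1) D s w :=
  state_all hK hN (fun k D n w h1 h2 => hL.cap n k D w h1 h2)
    (fun k D w h1 h2 => hL.cap s k D w h1 h2) htab hG hsn hfull h hw hs

end Pool.Agent.Work.MP_bf01b2_co.MR
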