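import Pool.Agent.Work.MP_bf01b2_co.MR.Step

/-!
# Marks recursion: root hops
-/

set_option autoImplicit false

namespace Pool.Agent.Work.MP_bf01b2_co.MR

section
variable {V : Type*}

/-- the hopped tree: the left child of the root, placed at `v` -/
def hopT (v : V) (T : LRT V) : LRT V :=
  match T.l with
  | .node a b => ⟨v, a, b⟩
  | _ => ⟨v, .nil, .nil⟩

/-- what remains at the root -/
def hopR (T : LRT V) : LRT V := ⟨T.pos, .hole ∅, T.r⟩

/-- exchange the children -/
def LRT.swap (T : LRT V) : LRT V := ⟨T.pos, T.r, T.l⟩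

variable [DecidableEq V]

theorem emb_merge' {adj : V → V → Prop} {σ : V → V} (hσ : ∀ v, adj v (σ v)) {T : LRT V}
    (hT : ∃ a b, T.l = .node a b) {Us : List (LRT V)} {S : Finset V}
    (h : Emb adj (hopT (σ T.pos) T :: hopR T :: Us) S) : Emb adj (T :: Us) S := by
  obtain ⟨a, b, hab⟩ := hT
  obtain ⟨x, l, r⟩ := T
  simp only at hab
  subst hab
  exact emb_merge (H := ⟨σ x, a, b⟩) (hσ x) h

theorem emb_merges {adj : V → V → Prop} {σ : V → V} (hσ : ∀ v, adj v (σ v)) :
    ∀ {Ts Us : List (LRT V)} {S : Finset V}, (∀ T ∈ Ts, ∃ a b, T.l = .node a b) →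
      Emb adj (Us ++ (Ts.map (fun T => hopT (σ T.pos) T) ++ Ts.map hopR)) S →
      Emb adj (Us ++ Ts) S
  | [], Us, S, _, h => by simpa using h
  | T :: Ts, Us, S, hT, h => by
    have h1 : Emb adj ((T :: Us) ++ (Ts.map (fun T => hopT (σ T.pos) T) ++ Ts.map hopR)) S := by
      rw [List.cons_append]
      refine emb_merge' hσ (hT T List.mem_cons_self) (Emb.perm ?_ h)
      simp only [List.map_cons]
      rw [← Multiset.coe_eq_coe]
      simp only [← Multiset.coe_add, ← Multiset.cons_coe, ← Multiset.singleton_add]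
      abel
    have h2 := emb_merges hσ (Ts := Ts) (Us := T :: Us) (fun U hU => hT U (List.mem_cons_of_mem _ hU))
      h1
    exact Emb.perm (by
      rw [List.cons_append]
      exact List.perm_middle.symm) h2

/-- exchange the children in some of the trees -/
theorem emb_swaps {adj : V → V → Prop} (f : LRT V → Bool) : ∀ {Ts Us : List (LRT V)} {S : Finset V},
    Emb adj (Us ++ Ts.map (fun T => if f T then T.swap else T)) S → Emb adj (Us ++ Ts) S
  | [], Us, S, h => by simpa using h
  | T :: Ts, Us, S, h => by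
    have h1 : Emb adj ((T :: Us) ++ Ts.map (fun T => if f T then T.swap else T)) S := by
      simp only [List.map_cons] at h
      have h2 := Emb.perm (List.perm_middle (a := if f T then T.swap else T)) h
      rw [List.cons_append]
      split_ifs at h2
      · exact emb_swap h2
      · exact h2
    have h2 := emb_swaps f (Ts := Ts) (Us := T :: Us) h1
    exact Emb.perm (by
      rw [List.cons_append]
      exact List.perm_middle.symm) h2

end

/-- **The step with hops.** The trees of `TH` (roots in the second side, left child of the root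
exists) send their left child to the first side. -/
theorem step_hop {m : ℕ} (j : Fin (m + 1)) (b : Bool)
    {TX TH TY TX' : List (LRT (Fin (m + 1) → Bool))}
    {L : List (LT (Fin (m + 1) → Bool))} (hTX : ∀ T ∈ TX, T.pos j = b)
    (hTH : ∀ T ∈ TH, T.pos j = !b) (hTHl : ∀ T ∈ TH, ∃ x y, T.l = .node x y)
    (hTY : ∀ T ∈ TY, T.pos j = !b)
    (hcut : LFCut (nlab j (TH.map hopR ++ TY)) (TX ++ TH.map (fun T => hopT (flip j T.pos) T)) TX' L)
    (hX : ∃ S, Emb (cadj m) (TX'.map (resT j b)) S)
    (hY : ∀ Ps : List (LRT (Fin (m + 1) → Bool)), Ps.map LRT.tree = pieces L →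
      (Ps.map LRT.pos).Nodup →
      (∀ P ∈ Ps, P.pos j = (!b) ∧ P.pos ∉ poss TH ∧ P.pos ∉ poss TY ∧ RootOK P) →
      ∃ S, Emb (cadj m) ((Ps ++ (TH.map hopR ++ TY)).map (resT j (!b))) S) :
    ∃ S, Emb (cadj (m + 1)) (TX ++ (TH ++ TY)) S := by
  have hposs : poss (TH.map hopR ++ TY) = poss TH ∪ poss TY := by
    unfold poss
    rw [List.map_append, List.map_map, List.toFinset_append]
    rfl
  obtain ⟨S, hS⟩ := step j b (TX := TX ++ TH.map (fun T => hopT (flip j T.pos) T))
    (TY := TH.map hopR ++ TY) (by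
      intro T hT
      rcases List.mem_append.1 hT with h | h
      · exact hTX T h
      · obtain ⟨U, hU, rfl⟩ := List.mem_map.1 h
        obtain ⟨x, y, hxy⟩ := hTHl U hU
        unfold hopT
        rw [hxy]
        simp only
        rw [flip_apply_self, hTH U hU, Bool.not_not]) (by
      intro T hT
      rcases List.mem_append.1 hT with h | h
      · obtain ⟨U, hU, rfl⟩ := List.mem_map.1 h
        exact hTH U hU
      · exact hTY T h) hcut hX (by
      intro Ps h1 h2 h3
      refine hY Ps h1 h2 fun P hP => ?_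
      obtain ⟨a1, a2, a3⟩ := h3 P hP
      rw [hposs, Finset.mem_union, not_or] at a2
      exact ⟨a1, a2.1, a2.2, a3⟩)
  refine ⟨S, ?_⟩
  have h1 : Emb (cadj (m + 1)) ((TX ++ TY) ++ (TH.map (fun T => hopT (flip j T.pos) T) ++
      TH.map hopR)) S := by
    refine Emb.perm ?_ hS
    rw [← Multiset.coe_eq_coe]
    simp only [← Multiset.coe_add]
    abel
  have h2 := emb_merges (cadj_flip j) hTHl h1
  refine Emb.perm ?_ h2
  rw [List.append_assoc]
  exact List.Perm.append_left _ List.perm_append_comm

end Pool.Agent.Work.MP_bf01b2_co.MR
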