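import Pool.Agent.Work.MP_bf01b2_co.MR.B5Tab

/-!
# Class aware calculus on `Q_5`: trees without holes, sizes of the two classes, placements

`Pl adj F L`: the trees of the list `L` of pairs (position of the parent, tree) can be placed below
their parents, disjointly and inside the set `F` of free vertices.
-/

set_option autoImplicit false

namespace Pool.Agent.Work.MP_bf01b2_co.MR

namespace JT

/-- binary trees without holes -/
inductive BT : Type
  | nil : BT
  | node (l r : BT) : BT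

namespace BT

/-- numbers of the vertices in the class of the root and in the other class -/
def cls : BT → ℕ × ℕ
  | nil => (0, 0)
  | node l r => (1 + l.cls.2 + r.cls.2, l.cls.1 + r.cls.1)

/-- `t'` is obtained from `t` by adding subtrees -/
def le : BT → BT → Prop
  | nil, _ => True
  | node _ _, nil => False
  | node l r, node l' r' => l.le l' ∧ r.le r'

/-- the same tree as a tree with holes -/
def ht : BT → HT
  | nil => .nil
  | node l r => .node l.ht r.ht

theorem le_refl : ∀ t : BT, t.le t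
  | nil => trivial
  | node l r => ⟨le_refl l, le_refl r⟩

theorem le_trans : ∀ {t t' t'' : BT}, t.le t' → t'.le t'' → t.le t''
  | nil, _, _, _, _ => trivial
  | node _ _, nil, _, h, _ => h.elim
  | node _ _, node _ _, nil, _, h => h.elim
  | node _ _, node _ _, node _ _, h, h' => ⟨le_trans h.1 h'.1, le_trans h.2 h'.2⟩

theorem ht_size : ∀ t : BT, t.ht.size = t.cls.1 + t.cls.2
  | nil => rfl
  | node l r => by
    show l.ht.size + r.ht.size + 1 = (1 + l.cls.2 + r.cls.2) + (l.cls.1 + r.cls.1)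
    rw [ht_size l, ht_size r]
    omega

/-- number of the vertices in the class of the root -/
def A (t : BT) : ℕ := t.cls.1

/-- number of the vertices in the other class -/
def B (t : BT) : ℕ := t.cls.2

theorem A_nil : (nil).A = 0 := rfl

theorem B_nil : (nil).B = 0 := rfl

theorem A_node (l r : BT) : (node l r).A = 1 + l.B + r.B := rfl

theorem B_node (l r : BT) : (node l r).B = l.A + r.A := rfl

/-- the classes of a tree -/
theorem valid : ∀ t : BT, (t = nil ∧ t.A = 0 ∧ t.B = 0) ∨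
    (t ≠ nil ∧ 1 ≤ t.A ∧ t.A ≤ 2 * t.B + 1 ∧ t.B ≤ 2 * t.A)
  | nil => Or.inl ⟨rfl, rfl, rfl⟩
  | node l r => by
    have h := valid l
    have h' := valid r
    right
    refine ⟨by simp, ?_⟩
    rw [A_node, B_node]
    omega

/-- one more leaf, in each of the classes with a free slot -/
theorem ext_one : ∀ t : BT, t ≠ nil →
    (t.A < 2 * t.B + 1 → ∃ t', t.le t' ∧ t'.A = t.A + 1 ∧ t'.B = t.B) ∧
    (t.B < 2 * t.A → ∃ t', t.le t' ∧ t'.A = t.A ∧ t'.B = t.B + 1)
  | nil, h => absurd rfl h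
  | node l r, _ => by
    have hl := valid l
    have hr := valid r
    constructor
    · intro h
      rw [A_node, B_node] at h
      have h1 : (l ≠ nil ∧ l.B < 2 * l.A) ∨ (r ≠ nil ∧ r.B < 2 * r.A) := by
        rcases hl with ⟨e, e1, e2⟩ | ⟨e, e1⟩ <;> rcases hr with ⟨f, f1, f2⟩ | ⟨f, f1⟩
        · omega
        · exact Or.inr ⟨f, by omega⟩
        · exact Or.inl ⟨e, by omega⟩
        · by_cases g : l.B < 2 * l.A
          · exact Or.inl ⟨e, g⟩
          · exact Or.inr ⟨f, by omega⟩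
      rcases h1 with ⟨e, h1⟩ | ⟨e, h1⟩
      · obtain ⟨l', h2, h3, h4⟩ := (ext_one l e).2 h1
        refine ⟨node l' r, ⟨h2, le_refl _⟩, ?_, ?_⟩
        · rw [A_node, A_node, h4]; omega
        · rw [B_node, B_node, h3]
      · obtain ⟨r', h2, h3, h4⟩ := (ext_one r e).2 h1
        refine ⟨node l r', ⟨le_refl _, h2⟩, ?_, ?_⟩
        · rw [A_node, A_node, h4]; omega
        · rw [B_node, B_node, h3]
    · intro h
      rw [A_node, B_node] at h
      rcases hl with ⟨e, e1, e2⟩ | ⟨e, e1⟩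
      · subst e
        refine ⟨node (node nil nil) r, ⟨trivial, le_refl _⟩, ?_, ?_⟩
        · simp only [A_node, B_node, A_nil, B_nil]
        · simp only [A_node, B_node, A_nil, B_nil]; omega
      rcases hr with ⟨f, f1, f2⟩ | ⟨f, f1⟩
      · subst f
        refine ⟨node l (node nil nil), ⟨le_refl _, trivial⟩, ?_, ?_⟩
        · simp only [A_node, B_node, A_nil, B_nil]
        · simp only [A_node, B_node, A_nil, B_nil]
      by_cases g : l.A < 2 * l.B + 1
      · obtain ⟨l', h2, h3, h4⟩ := (ext_one l e).1 g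
        refine ⟨node l' r, ⟨h2, le_refl _⟩, ?_, ?_⟩
        · rw [A_node, A_node, h4]
        · rw [B_node, B_node, h3]; omega
      · obtain ⟨r', h2, h3, h4⟩ := (ext_one r f).1 (by omega)
        refine ⟨node l r', ⟨le_refl _, h2⟩, ?_, ?_⟩
        · rw [A_node, A_node, h4]
        · rw [B_node, B_node, h3]; omega

theorem ne_nil_of_le {t t' : BT} (h : t.le t') (ht : t ≠ nil) : t' ≠ nil := by
  rintro rfl
  cases t with
  | nil => exact ht rfl
  | node l r => exact h

/-- extension to a tree with prescribed sizes of the classes -/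
theorem ext {a b : ℕ} (h1 : a ≤ 2 * b + 1) (h2 : b ≤ 2 * a) : ∀ (n : ℕ) (t : BT), t ≠ nil →
    t.A ≤ a → t.B ≤ b → a + b - (t.A + t.B) = n →
      ∃ t', t.le t' ∧ t'.A = a ∧ t'.B = b
  | 0, t, _, ha, hb, hn => ⟨t, le_refl _, by omega, by omega⟩
  | n + 1, t, ht, ha, hb, hn => by
    have hv := valid t
    have hv' : 1 ≤ t.A ∧ t.A ≤ 2 * t.B + 1 ∧ t.B ≤ 2 * t.A := by
      rcases hv with ⟨e, _⟩ | ⟨_, e⟩
      · exact absurd e ht
      · exact e
    by_cases hA : t.A < a ∧ t.A < 2 * t.B + 1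
    · obtain ⟨t', h3, h4, h5⟩ := (ext_one t ht).1 hA.2
      obtain ⟨t'', h6, h7⟩ := ext h1 h2 n t' (ne_nil_of_le h3 ht) (by omega) (by omega) (by omega)
      exact ⟨t'', le_trans h3 h6, h7⟩
    · obtain ⟨t', h3, h4, h5⟩ := (ext_one t ht).2 (by omega)
      obtain ⟨t'', h6, h7⟩ := ext h1 h2 n t' (ne_nil_of_le h3 ht) (by omega) (by omega) (by omega)
      exact ⟨t'', le_trans h3 h6, h7⟩

end BT

/-- the tree with holes without its holes -/
def bt : HT → BT
  | .nil => .nil
  | .hole => .nil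
  | .node l r => .node (bt l) (bt r)

theorem bt_size : ∀ t : HT, (bt t).cls.1 + (bt t).cls.2 = t.size
  | .nil => rfl
  | .hole => rfl
  | .node l r => by
    show (1 + (bt l).cls.2 + (bt r).cls.2) + ((bt l).cls.1 + (bt r).cls.1) = l.size + r.size + 1
    rw [← bt_size l, ← bt_size r]
    omega

section emb

variable {V : Type*} [DecidableEq V]

/-- `t` is embedded below the vertex `v` with image `S` -/
def BS (adj : V → V → Prop) : BT → V → Finset V → Prop
  | .nil, _, S => S = ∅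
  | .node l r, v, S => ∃ x, adj v x ∧ ∃ A B, BS adj l x A ∧ BS adj r x B ∧ x ∉ A ∧ x ∉ B ∧
      Disjoint A B ∧ S = insert x (A ∪ B)

theorem BS.of_slot {adj : V → V → Prop} : ∀ {t : HT} {v : V} {S : Finset V} {p : List V},
    Slot adj t v S p → BS adj (bt t) v S
  | .nil, _, _, _, h => h.1
  | .hole, _, _, _, h => h.1
  | .node _ _, _, _, _, h => by
    obtain ⟨x, hx, A, B, pa, pb, hA, hB, h1, h2, h3, h4, _⟩ := h
    exact ⟨x, hx, A, B, BS.of_slot hA, BS.of_slot hB, h1, h2, h3, h4⟩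

theorem BS.of_ht {adj : V → V → Prop} : ∀ {t : BT} {v : V} {S : Finset V} {p : List V},
    Slot adj t.ht v S p → BS adj t v S
  | .nil, _, _, _, h => h.1
  | .node _ _, _, _, _, h => by
    obtain ⟨x, hx, A, B, pa, pb, hA, hB, h1, h2, h3, h4, _⟩ := h
    exact ⟨x, hx, A, B, BS.of_ht hA, BS.of_ht hB, h1, h2, h3, h4⟩

theorem BS.slot {adj : V → V → Prop} : ∀ {t : HT} {v : V} {S : Finset V},
    BS adj (bt t) v S → ∃ p, Slot adj t v S p
  | .nil, _, _, h => ⟨[], h, rfl⟩
  | .hole, v, _, h => ⟨[v], h, rfl⟩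
  | .node _ _, _, _, h => by
    obtain ⟨x, hx, A, B, hA, hB, h1, h2, h3, h4⟩ := h
    obtain ⟨pa, ha⟩ := BS.slot hA
    obtain ⟨pb, hb⟩ := BS.slot hB
    exact ⟨pa ++ pb, x, hx, A, B, pa, pb, ha, hb, h1, h2, h3, h4, rfl⟩

theorem BS.le {adj : V → V → Prop} : ∀ {t t' : BT} {v : V} {S : Finset V}, t.le t' →
    BS adj t' v S → ∃ S' ⊆ S, BS adj t v S'
  | .nil, _, _, _, _, _ => ⟨∅, Finset.empty_subset _, rfl⟩
  | .node _ _, .nil, _, _, h, _ => h.elim
  | .node _ _, .node _ _, _, _, h, h' => by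
    obtain ⟨x, hx, A, B, hA, hB, h1, h2, h3, rfl⟩ := h'
    obtain ⟨A', hA1, hA2⟩ := BS.le h.1 hA
    obtain ⟨B', hB1, hB2⟩ := BS.le h.2 hB
    refine ⟨insert x (A' ∪ B'), ?_, x, hx, A', B', hA2, hB2, fun h => h1 (hA1 h),
      fun h => h2 (hB1 h), ?_, rfl⟩
    · exact Finset.insert_subset_insert _ (Finset.union_subset_union hA1 hB1)
    · exact Finset.disjoint_of_subset_left hA1 (Finset.disjoint_of_subset_right hB1 h3)

theorem BS.map {adj : V → V → Prop} (φ : V ≃ V) (hφ : ∀ a b, adj a b → adj (φ a) (φ b)) :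
    ∀ {t : BT} {v : V} {S : Finset V}, BS adj t v S → BS adj t (φ v) (S.map φ.toEmbedding)
  | .nil, _, _, h => by rw [show _ = ∅ from h]; simp [BS]
  | .node _ _, _, _, h => by
    obtain ⟨x, hx, A, B, hA, hB, h1, h2, h3, rfl⟩ := h
    refine ⟨φ x, hφ _ _ hx, A.map φ.toEmbedding, B.map φ.toEmbedding, BS.map φ hφ hA,
      BS.map φ hφ hB, by simpa using h1, by simpa using h2, ?_, ?_⟩
    · exact (Finset.disjoint_map _).2 h3
    · rw [Finset.map_insert, Finset.map_union]
      rfl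

/-- the trees of the list can be placed below their parents, disjointly, in `F` -/
def Pl (adj : V → V → Prop) : List (V × BT) → Set V → Prop
  | [], _ => True
  | x :: L, F => ∃ S : Finset V, (∀ v ∈ S, v ∈ F) ∧ BS adj x.2 x.1 S ∧ Pl adj L (F \ S)

variable {adj : V → V → Prop}

theorem Pl.mono : ∀ {L : List (V × BT)} {F F' : Set V}, F ⊆ F' → Pl adj L F → Pl adj L F'
  | [], _, _, _, _ => trivial
  | _ :: _, _, _, hF, h => by
    obtain ⟨S, h1, h2, h3⟩ := h
    exact ⟨S, fun v hv => hF (h1 v hv), h2, h3.mono (Set.sdiff_subset_sdiff_left hF)⟩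

theorem Pl.swap {x y : V × BT} {L : List (V × BT)} {F : Set V} (h : Pl adj (x :: y :: L) F) :
    Pl adj (y :: x :: L) F := by
  obtain ⟨S, h1, h2, S', h1', h2', h3⟩ := h
  refine ⟨S', fun v hv => (h1' v hv).1, h2', S, fun v hv => ⟨h1 v hv, fun hv' => ?_⟩, h2, ?_⟩
  · exact (h1' v hv').2 hv
  · rwa [Set.sdiff_sdiff_comm]

theorem Pl.perm {L L' : List (V × BT)} (h : L.Perm L') : ∀ {F : Set V}, Pl adj L F → Pl adj L' F := by
  induction h with
  | nil => exact fun h => h
  | cons x _ ih =>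
    intro F h
    obtain ⟨S, h1, h2, h3⟩ := h
    exact ⟨S, h1, h2, ih h3⟩
  | swap x y l => exact fun h => h.swap
  | trans _ _ ih1 ih2 => exact fun h => ih2 (ih1 h)

theorem Pl.le : ∀ {L L' : List (V × BT)} {F : Set V},
    List.Forall₂ (fun x y => x.1 = y.1 ∧ x.2.le y.2) L L' → Pl adj L' F → Pl adj L F
  | _, _, _, .nil, _ => trivial
  | _, _, _, .cons hxy hL, h => by
    obtain ⟨S, h1, h2, h3⟩ := h
    obtain ⟨S', h4, h5⟩ := BS.le hxy.2 h2
    refine ⟨S', fun v hv => h1 v (h4 hv), ?_, ?_⟩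
    · rw [hxy.1]; exact h5
    · refine (Pl.le hL h3).mono ?_
      exact Set.sdiff_subset_sdiff_right (by exact_mod_cast h4)

theorem Pl.append : ∀ {L L' : List (V × BT)} {F F' : Set V}, Disjoint F F' → Pl adj L F →
    Pl adj L' F' → Pl adj (L ++ L') (F ∪ F')
  | [], _, _, _, _, _, h' => h'.mono Set.subset_union_right
  | _ :: _, _, F, F', hd, h, h' => by
    obtain ⟨S, h1, h2, h3⟩ := h
    refine ⟨S, fun v hv => Or.inl (h1 v hv), h2, ?_⟩
    refine (Pl.append (hd.mono_left Set.sdiff_subset) h3 h').mono ?_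
    rintro v (hv | hv)
    · exact ⟨Or.inl hv.1, hv.2⟩
    · exact ⟨Or.inr hv, fun hS => Set.disjoint_left.1 hd (h1 v hS) hv⟩

theorem Pl.nil_iff {p : V} {L : List (V × BT)} {F : Set V} :
    Pl adj ((p, .nil) :: L) F ↔ Pl adj L F := by
  constructor
  · rintro ⟨S, _, h2, h3⟩
    exact h3.mono Set.sdiff_subset
  · intro h
    exact ⟨∅, by simp, rfl, by simpa using h⟩

theorem Pl.node {p q : V} {l r : BT} {L : List (V × BT)} {F : Set V} (hq : adj p q) (hF : q ∈ F)
    (h : Pl adj ((q, l) :: (q, r) :: L) (F \ {q})) : Pl adj ((p, .node l r) :: L) F := by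
  obtain ⟨A, h1, h2, B, h3, h4, h5⟩ := h
  refine ⟨insert q (A ∪ B), ?_, ⟨q, hq, A, B, h2, h4, fun h => (h1 q h).2 rfl,
    fun h => (h3 q h).1.2 rfl, ?_, rfl⟩, ?_⟩
  · intro v hv
    rcases Finset.mem_insert.1 hv with rfl | hv
    · exact hF
    · rcases Finset.mem_union.1 hv with hv | hv
      · exact (h1 v hv).1
      · exact (h3 v hv).1.1
  · rw [Finset.disjoint_left]
    intro v hv hv'
    exact (h3 v hv').2 hv
  · refine h5.mono ?_
    rintro v ⟨⟨⟨hv1, hv2⟩, hv3⟩, hv4⟩
    refine ⟨hv1, ?_⟩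
    simp only [Finset.coe_insert, Finset.coe_union, Set.mem_insert_iff, Set.mem_union]
    rintro (h | h | h)
    · exact hv2 h
    · exact hv3 h
    · exact hv4 h

theorem Pl.map (φ : V ≃ V) (hφ : ∀ a b, adj a b → adj (φ a) (φ b)) :
    ∀ {L : List (V × BT)} {F : Set V}, Pl adj L F →
      Pl adj (L.map fun x => (φ x.1, x.2)) (φ '' F)
  | [], _, _ => trivial
  | _ :: _, _, h => by
    obtain ⟨S, h1, h2, h3⟩ := h
    refine ⟨S.map φ.toEmbedding, ?_, BS.map φ hφ h2, ?_⟩
    · intro v hv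
      obtain ⟨u, hu, rfl⟩ := Finset.mem_map.1 hv
      exact ⟨u, h1 u hu, rfl⟩
    · refine (Pl.map φ hφ h3).mono ?_
      rw [Finset.coe_map, Set.image_sdiff φ.injective]
      rfl

/-- a placement of the two subtrees of a root -/
theorem Pl.root {p : V} {l r : HT} {F : Set V} (h : Pl adj [(p, bt l), (p, bt r)] F) (hp : p ∉ F) :
    ∃ (S : Finset V) (q : List V), Root adj l r p S q ∧ ∀ v ∈ S, v = p ∨ v ∈ F := by
  obtain ⟨A, h1, h2, B, h3, h4, _⟩ := h
  obtain ⟨pa, ha⟩ := BS.slot h2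
  obtain ⟨pb, hb⟩ := BS.slot h4
  refine ⟨insert p (A ∪ B), pa ++ pb, ⟨A, B, pa, pb, ha, hb, fun h => hp (h1 p h),
    fun h => hp (h3 p h).1, ?_, rfl, rfl⟩, ?_⟩
  · rw [Finset.disjoint_left]
    intro v hv hv'
    exact (h3 v hv').2 hv
  · intro v hv
    rcases Finset.mem_insert.1 hv with rfl | hv
    · exact Or.inl rfl
    · rcases Finset.mem_union.1 hv with hv | hv
      · exact Or.inr (h1 v hv)
      · exact Or.inr (h3 v hv).1

theorem Pl.of_root {p : V} {l r : BT} {S : Finset V} {q : List V}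
    (h : Root adj l.ht r.ht p S q) : Pl adj [(p, l), (p, r)] (S \ {p} : Set V) := by
  obtain ⟨A, B, pa, pb, hA, hB, h1, h2, h3, rfl, _⟩ := h
  refine ⟨A, ?_, BS.of_ht hA, B, ?_, BS.of_ht hB, trivial⟩
  · intro v hv
    refine ⟨by simp [hv], fun h => h1 ?_⟩
    rw [← show v = p from h]; exact hv
  · intro v hv
    refine ⟨⟨by simp [hv], fun h => h2 ?_⟩, fun hv' => Finset.disjoint_left.1 h3 hv' hv⟩
    rw [← show v = p from h]; exact hv

end emb

end JT

end Pool.Agent.Work.MP_bf01b2_co.MR
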