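import Pool.Agent.Work.MP_bf01b2_co.MR.J1

/-!
# Class aware calculus on `Q_5`: tables of single root facts and their kernel checker

The table `T` is a natural number, an entry occupies 48 bits: region `X` (32 bits), `c1`, `c2` (8 bits
each). If `c1 = 0` the entry claims: every tree with at most `c2` vertices embeds in `X` with its root
at `0`. If `c1 > 0` it claims the same for trees with at most `c1` vertices in the class of the root
and at most `c2` in the other class.
-/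

set_option autoImplicit false

namespace Pool.Agent.Work.MP_bf01b2_co.MR

namespace JT

open Tab

/-! ### The cube with virtual parents -/

/-- adjacency of `Q_5`, together with a virtual parent `y ^^^ 32` for every vertex `y < 32` -/
def jadj (x y : ℕ) : Prop := ncadj 5 x y ∨ (y < 32 ∧ x = y ^^^ 32)

theorem xor32_ge {y : ℕ} (h : y < 32) : 32 ≤ y ^^^ 32 := by
  have : ∀ y < 32, 32 ≤ y ^^^ 32 := by decide
  exact this y h

theorem ncadj_ge {x y : ℕ} (hx : 32 ≤ x) (h : ncadj 5 x y) : 32 ≤ y := by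
  obtain ⟨i, hi, rfl⟩ := h
  exact flipV_ge hi hx

theorem jadj_real {x y : ℕ} (hx : x < 32) (h : jadj x y) : ncadj 5 x y := by
  rcases h with h | ⟨h1, h2⟩
  · exact h
  · have := xor32_ge h1
    omega

/-- a virtual parent has only one child in the cube -/
theorem jadj_virt {r x : ℕ} (hr : r < 32) (hx : x < 32) (h : jadj (r ^^^ 32) x) : x = r := by
  rcases h with h | ⟨_, h2⟩
  · have := ncadj_ge (xor32_ge hr) h
    omega
  · exact (Nat.xor_left_injective h2).symm

theorem flipV_lt {i v : ℕ} (hi : i < 5) (hv : v < 32) : flipV i v < 32 :=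
  Nat.xor_lt_two_pow (n := 5) hv (Nat.pow_lt_pow_right (by norm_num) hi)

theorem swapV_lt {i j v : ℕ} (hi : i < 5) (hj : j < 5) (hv : v < 32) : swapV i j v < 32 := by
  by_contra hc
  push Not at hc
  have := swapV_ge hi hj hc
  rw [swapV_swapV] at this
  omega

theorem swapV_32 {i j : ℕ} (hi : i < 5) (hj : j < 5) : swapV i j 32 = 32 := by
  have : ∀ i < 5, ∀ j < 5, swapV i j 32 = 32 := by decide
  exact this i hi j hj

theorem jadj_flip {i : ℕ} (hi : i < 5) {a b : ℕ} (h : jadj a b) :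
    jadj (flipE i a) (flipE i b) := by
  rcases h with h | ⟨h1, rfl⟩
  · exact Or.inl (ncadj_flip h)
  · refine Or.inr ⟨flipV_lt hi h1, ?_⟩
    show flipV i (b ^^^ 32) = flipV i b ^^^ 32
    unfold flipV
    rw [Nat.xor_assoc, Nat.xor_assoc, Nat.xor_comm 32]

theorem jadj_swap {i j : ℕ} (hi : i < 5) (hj : j < 5) {a b : ℕ} (h : jadj a b) :
    jadj (swapE i j a) (swapE i j b) := by
  rcases h with h | ⟨h1, rfl⟩
  · exact Or.inl (ncadj_swap hi hj h)
  · refine Or.inr ⟨swapV_lt hi hj h1, ?_⟩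
    show swapV i j (b ^^^ 32) = swapV i j b ^^^ 32
    rw [swapV_xor, swapV_32 hi hj]

theorem BS.real : ∀ {t : BT} {v : ℕ} {S : Finset ℕ}, v < 32 → (∀ u ∈ S, u < 32) →
    BS jadj t v S → BS (ncadj 5) t v S
  | .nil, _, _, _, _, h => h
  | .node _ _, v, _, hv, hS, h => by
    obtain ⟨x, hx, A, B, hA, hB, h1, h2, h3, rfl⟩ := h
    have hx' : x < 32 := hS x (Finset.mem_insert_self _ _)
    refine ⟨x, jadj_real hv hx, A, B, BS.real hx' (fun u hu => hS u ?_) hA,
      BS.real hx' (fun u hu => hS u ?_) hB, h1, h2, h3, rfl⟩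
    · exact Finset.mem_insert_of_mem (Finset.mem_union_left _ hu)
    · exact Finset.mem_insert_of_mem (Finset.mem_union_right _ hu)

/-! ### Facts with one root -/

/-- every tree of the class `C` embeds in the region `X` with its root at `r` -/
def CR (X r : ℕ) (C : BT → Prop) : Prop :=
  ∀ t, C t → ∃ S : Finset ℕ, (∀ v ∈ S, X.testBit v = true) ∧ BS jadj t (r ^^^ 32) S

/-- every tree of the class `C` embeds in the region `X` below the vertex `p` -/
def Fit (X p : ℕ) (C : BT → Prop) : Prop :=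
  ∀ t, C t → ∃ S : Finset ℕ, (∀ v ∈ S, X.testBit v = true) ∧ BS jadj t p S

theorem CR.map {X X' r : ℕ} {C : BT → Prop} (φ : ℕ ≃ ℕ) (hφ : ∀ a b, jadj a b → jadj (φ a) (φ b))
    (h32 : φ (r ^^^ 32) = φ r ^^^ 32) (hX : ∀ v, X'.testBit (φ v) = X.testBit v)
    (h : CR X r C) : CR X' (φ r) C := by
  intro t ht
  obtain ⟨S, h1, h2⟩ := h t ht
  refine ⟨S.map φ.toEmbedding, ?_, ?_⟩
  · intro v hv
    obtain ⟨u, hu, rfl⟩ := Finset.mem_map.1 hv
    show X'.testBit (φ u) = true
    rw [hX]; exact h1 u hu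
  · rw [← h32]
    exact BS.map φ hφ h2

theorem CR.fit {X r p : ℕ} {C : BT → Prop} (hX : X < 2 ^ 32) (hr : r < 32) (hp : jadj p r)
    (h : CR X r C) : Fit X p C := by
  intro t ht
  obtain ⟨S, h1, h2⟩ := h t ht
  refine ⟨S, h1, ?_⟩
  cases t with
  | nil => exact h2
  | node l r' =>
    obtain ⟨x, hx, A, B, hA, hB, g1, g2, g3, rfl⟩ := h2
    have hx' : x < 32 := by
      by_contra hc
      push Not at hc
      have := h1 x (Finset.mem_insert_self _ _)
      rw [testBit_ge hX hc] at this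
      exact absurd this (by simp)
    have e := jadj_virt hr hx' hx
    exact ⟨x, by rw [e]; exact hp, A, B, hA, hB, g1, g2, g3, rfl⟩

theorem sw1_cr {v X : ℕ} {C : BT → Prop} (hv : v < 16) (hX : X < 2 ^ 32) (h : CR X 0 C) :
    sw1 v X < 2 ^ 32 ∧ CR (sw1 v X) 0 C := by
  by_cases h1 : 1 ≤ v ∧ v ≤ 10
  · obtain ⟨i, j, hij, hj, hs⟩ := sw1_swap v h1.1 h1.2
    rw [hs X]
    refine ⟨swapM_lt hij hj, ?_⟩
    have h2 := CR.map (X' := swapM i j X) (swapE i j)
      (fun a b hab => jadj_swap (lt_trans hij hj) hj hab) (by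
        show swapV i j (0 ^^^ 32) = swapV i j 0 ^^^ 32
        rw [swapV_zero, Nat.zero_xor, swapV_32 (lt_trans hij hj) hj]) (testBit_swapM hij hj hX) h
    have h3 : swapE i j 0 = 0 := swapV_zero i j
    rwa [h3] at h2
  · have e : sw1 v X = X := sw1_id (by omega) hv hX
    rw [e]
    exact ⟨hX, h⟩

theorem sw4_cr {s X : ℕ} {C : BT → Prop} (hX : X < 2 ^ 32) (h : CR X 0 C) :
    sw4 s X < 2 ^ 32 ∧ CR (sw4 s X) 0 C := by
  have h1 := sw1_cr (land15_lt s) hX h
  have h2 := sw1_cr (land15_lt (Nat.shiftRight s 4)) h1.1 h1.2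
  have h3 := sw1_cr (land15_lt (Nat.shiftRight s 8)) h2.1 h2.2
  exact sw1_cr (land15_lt (Nat.shiftRight s 12)) h3.1 h3.2

theorem fl1_cr {i r X p : ℕ} {C : BT → Prop} (hi : i < 5) (hX : X < 2 ^ 32) (h : CR X p C) :
    fl1 (lowM i) (2 ^ i) r X < 2 ^ 32 ∧
      CR (fl1 (lowM i) (2 ^ i) r X) (p ^^^ (r &&& 2 ^ i)) C := by
  have e0 : Nat.land r (2 ^ i) = r &&& 2 ^ i := rfl
  rcases and_two_pow_cases r i with h1 | h1
  · have e : fl1 (lowM i) (2 ^ i) r X = X := by
      unfold fl1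
      rw [e0, h1]
      rfl
    rw [e, h1, Nat.xor_zero]
    exact ⟨hX, h⟩
  · have e : fl1 (lowM i) (2 ^ i) r X = flipM i X := by
      unfold fl1
      have h2 : Nat.beq (2 ^ i) 0 = false := by
        have : 2 ^ i ≠ 0 := by positivity
        cases h3 : Nat.beq (2 ^ i) 0 with
        | false => rfl
        | true => exact absurd (Nat.eq_of_beq_eq_true h3) this
      rw [e0, h1, h2]
      rfl
    rw [e, h1]
    refine ⟨flipM_lt hi, ?_⟩
    exact CR.map (X' := flipM i X) (flipE i) (fun a b hab => jadj_flip hi hab) (by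
      show flipV i (p ^^^ 32) = flipV i p ^^^ 32
      unfold flipV
      rw [Nat.xor_assoc, Nat.xor_assoc, Nat.xor_comm 32]) (testBit_flipM hi hX) h

theorem tr_cr {r X : ℕ} {C : BT → Prop} (hr : r < 32) (hX : X < 2 ^ 32) (h : CR X 0 C) :
    tr r X < 2 ^ 32 ∧ CR (tr r X) r C := by
  have h1 := fl1_cr (i := 0) (r := r) (by norm_num) hX h
  have h2 := fl1_cr (i := 1) (r := r) (by norm_num) h1.1 h1.2
  have h3 := fl1_cr (i := 2) (r := r) (by norm_num) h2.1 h2.2
  have h4 := fl1_cr (i := 3) (r := r) (by norm_num) h3.1 h3.2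
  have h5 := fl1_cr (i := 4) (r := r) (by norm_num) h4.1 h4.2
  refine ⟨h5.1, ?_⟩
  have e : ∀ r < 32, 0 ^^^ (r &&& 2 ^ 0) ^^^ (r &&& 2 ^ 1) ^^^ (r &&& 2 ^ 2) ^^^ (r &&& 2 ^ 3) ^^^
      (r &&& 2 ^ 4) = r := by decide +kernel
  have h6 := h5.2
  rw [e r hr] at h6
  exact h6

/-! ### The table -/

/-- `2 ^ 3072 - 1` -/
def MJ : ℕ := nat_lit 0xffffffffffffffffffffffffffffffffffffffffffffffffffffffffffffffffffffffffffffffffffffffffffffffffffffffffffffffffffffffffffffffffffffffffffffffffffffffffffffffffffffffffffffffffffffffffffffffffffffffffffffffffffffffffffffffffffffffffffffffffffffffffffffffffffffffffffffffffffffffffffffffffffffffffffffffffffffffffffffffffffffffffffffffffffffffffffffffffffffffffffffffffffffffffffffffffffffffffffffffffffffffffffffffffffffffffffffffffffffffffffffffffffffffffffffffffffffffffffffffffffffffffffffffffffffffffffffffffffffffffffffffffffffffffffffffffffffffffffffffffffffffffffffffffffffffffffffffffffffffffffffffffffffffffffffffffffffffffffffffffffffffffffffffffffffffffffffffffffffffffffffffffffffffffffffffffffffffffffffffffffffffffffffffffffffffffffffffffffffffffffffffff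

/-- block number `b` of the table (64 entries) -/
def jblk (T b : ℕ) : ℕ := Nat.land (Nat.shiftRight T (Nat.mul 3072 b)) MJ

/-- region of the entry `i` -/
noncomputable def jX (T i : ℕ) : ℕ :=
  Nat.land (Nat.shiftRight (fN (Nat.shiftRight i 6) (jblk T)) (Nat.mul 48 (Nat.land i 63))) 4294967295

/-- first bound of the entry `i` -/
noncomputable def j1 (T i : ℕ) : ℕ :=
  Nat.land (Nat.shiftRight (fN (Nat.shiftRight i 6) (jblk T))
    (Nat.add (Nat.mul 48 (Nat.land i 63)) 32)) 255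

/-- second bound of the entry `i` -/
noncomputable def j2 (T i : ℕ) : ℕ :=
  Nat.land (Nat.shiftRight (fN (Nat.shiftRight i 6) (jblk T))
    (Nat.add (Nat.mul 48 (Nat.land i 63)) 40)) 255

theorem jX_lt (T i : ℕ) : jX T i < 2 ^ 32 := by
  unfold jX
  have h : Nat.land (Nat.shiftRight (fN (Nat.shiftRight i 6) (jblk T))
    (Nat.mul 48 (Nat.land i 63))) 4294967295 ≤ 4294967295 := Nat.and_le_right
  omega

/-- the trees of an entry -/
def cap (c1 c2 : ℕ) (t : BT) : Prop :=
  (c1 = 0 ∧ t.A + t.B ≤ c2) ∨ (c1 ≠ 0 ∧ t.A ≤ c1 ∧ t.B ≤ c2)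

/-- the entry `i` is true -/
def JGood (T i : ℕ) : Prop := CR (jX T i) 0 (cap (j1 T i) (j2 T i))

/-! ### References -/

/-- entry of a reference -/
def rI (R : ℕ) : ℕ := Nat.land R 1048575

/-- vertex of a reference -/
def rR (R : ℕ) : ℕ := Nat.land (Nat.shiftRight R 20) 31

/-- exchanges of a reference -/
def rS (R : ℕ) : ℕ := Nat.shiftRight R 25

/-- region of a reference -/
noncomputable def rg (T R : ℕ) : ℕ := tr (rR R) (sw4 (rS R) (jX T (rI R)))

theorem rR_lt (R : ℕ) : rR R < 32 := by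
  unfold rR
  have h : Nat.land (Nat.shiftRight R 20) 31 ≤ 31 := Nat.and_le_right
  omega

theorem rg_ok {T R : ℕ} (h : JGood T (rI R)) : rg T R < 2 ^ 32 ∧
    CR (rg T R) (rR R) (cap (j1 T (rI R)) (j2 T (rI R))) := by
  have h1 := sw4_cr (s := rS R) (jX_lt T (rI R)) h
  exact tr_cr (rR_lt R) h1.1 h1.2

/-- is `d` one of `1, 2, 4, 8, 16, 32` -/
def isD (d : ℕ) : Bool := Nat.beq (Nat.land (Nat.shiftRight 4295033110 d) 1) 1

theorem isD_ok {d : ℕ} (h : isD d = true) : ∃ i, i < 6 ∧ d = 2 ^ i := by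
  have h1 : (4295033110 >>> d) &&& 1 = 1 := Nat.eq_of_beq_eq_true h
  have h2 : d < 33 := by
    by_contra hc
    push Not at hc
    have : 4295033110 >>> d = 0 := by
      rw [Nat.shiftRight_eq_div_pow]
      apply Nat.div_eq_of_lt
      calc 4295033110 < 2 ^ 33 := by norm_num
        _ ≤ 2 ^ d := Nat.pow_le_pow_right (by norm_num) hc
    rw [this] at h1
    simp at h1
  have key : ∀ d < 33, (4295033110 >>> d) &&& 1 = 1 → d = 2 ^ 0 ∨ d = 2 ^ 1 ∨ d = 2 ^ 2 ∨
      d = 2 ^ 3 ∨ d = 2 ^ 4 ∨ d = 2 ^ 5 := by decide +kernel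
  rcases key d h2 h1 with h | h | h | h | h | h
  · exact ⟨0, by norm_num, h⟩
  · exact ⟨1, by norm_num, h⟩
  · exact ⟨2, by norm_num, h⟩
  · exact ⟨3, by norm_num, h⟩
  · exact ⟨4, by norm_num, h⟩
  · exact ⟨5, by norm_num, h⟩

theorem xor_xor_self (p r : ℕ) : p ^^^ (p ^^^ r) = r := by
  rw [← Nat.xor_assoc, Nat.xor_self, Nat.zero_xor]

theorem jadj_of {p r : ℕ} (hr : r < 32) (h : isD (p ^^^ r) = true) : jadj p r := by
  obtain ⟨i, hi, e⟩ := isD_ok h
  have e2 : r = p ^^^ 2 ^ i := by rw [← e, xor_xor_self]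
  by_cases h5 : i < 5
  · exact Or.inl ⟨i, h5, e2⟩
  · have : i = 5 := by omega
    subst this
    refine Or.inr ⟨hr, ?_⟩
    rw [e2, Nat.xor_assoc]
    simp

/-- evaluation of the argument before the call -/
noncomputable def fB (n : ℕ) (f : ℕ → Bool) : Bool :=
  Nat.rec (motive := fun _ => Bool) (f 0) (fun m _ => f (Nat.succ m)) n

theorem fB_eq (n : ℕ) (f : ℕ → Bool) : fB n f = f n := by cases n <;> rfl

/-- one region below the vertex `p`, taken out of `Y` -/
noncomputable def put (T lim p Y R : ℕ) (f : ℕ → Bool) : Bool :=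
  nd (Nat.ble (Nat.succ (rI R)) lim) (nd (isD (Nat.xor p (rR R)))
    (fB (rg T R) (fun Z => nd (Nat.beq (Nat.land Y Z) Z) (fB (Nat.xor Y Z) f))))

theorem put_ok {T lim p Y R : ℕ} {f : ℕ → Bool} (hT : ∀ i < lim, JGood T i)
    (h : put T lim p Y R f = true) :
    ∃ Z, Y &&& Z = Z ∧ Fit Z p (cap (j1 T (rI R)) (j2 T (rI R))) ∧ f (Y ^^^ Z) = true := by
  unfold put at h
  rw [nd_iff, nd_iff, fB_eq, nd_iff, fB_eq] at h
  obtain ⟨a1, a2, a3, a4⟩ := h
  obtain ⟨h1, h2⟩ := rg_ok (hT _ (lt_of_succ_ble a1))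
  exact ⟨rg T R, Nat.eq_of_beq_eq_true a3, CR.fit h1 (rR_lt R) (jadj_of (rR_lt R) a2) h2, a4⟩

/-! ### Splits -/

/-- are `x`, `y` the sizes of the classes of a tree -/
noncomputable def vd (x y : ℕ) : Bool :=
  Bool.rec (motive := fun _ => Bool)
    (nd (Nat.ble x (Nat.succ (Nat.mul 2 y))) (Nat.ble y (Nat.mul 2 x))) (Nat.beq y 0) (Nat.beq x 0)

theorem BT.vd (t : BT) : vd t.A t.B = true := by
  rcases BT.valid t with ⟨_, h1, h2⟩ | ⟨_, h1, h2, h3⟩
  · rw [h1, h2]; rfl
  · have e : Nat.beq t.A 0 = false := by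
      cases h : Nat.beq t.A 0 with
      | false => rfl
      | true => have := Nat.eq_of_beq_eq_true h; omega
    unfold JT.vd
    rw [e]
    show nd (Nat.ble t.A (2 * t.B + 1)) (Nat.ble t.B (2 * t.A)) = true
    rw [nd_iff]
    exact ⟨Nat.ble_eq_true_of_le h2, Nat.ble_eq_true_of_le h3⟩

/-- is `(a2, b2)` the light part of a split of a tree with classes `a`, `b` -/
noncomputable def tst (a b a2 b2 : ℕ) : Bool :=
  nd (vd a2 b2) (nd (vd (Nat.sub b a2) (Nat.sub (Nat.pred a) b2))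
    (Bool.rec (motive := fun _ => Bool)
      (nd (Nat.beq (Nat.mul 2 (Nat.add a2 b2)) (Nat.pred (Nat.add a b))) (Nat.ble (Nat.mul 2 a2) b))
      true (Nat.ble (Nat.succ (Nat.mul 2 (Nat.add a2 b2))) (Nat.pred (Nat.add a b)))))

theorem tst_of {a b a2 b2 : ℕ} (h1 : vd a2 b2 = true) (h2 : vd (b - a2) (a - 1 - b2) = true)
    (h3 : 2 * (a2 + b2) < a + b - 1 ∨ (2 * (a2 + b2) = a + b - 1 ∧ 2 * a2 ≤ b)) :
    tst a b a2 b2 = true := by
  unfold tst
  rw [nd_iff, nd_iff]
  refine ⟨h1, h2, ?_⟩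
  cases h : Nat.ble (Nat.succ (Nat.mul 2 (Nat.add a2 b2))) (Nat.pred (Nat.add a b)) with
  | true => rfl
  | false =>
    show nd (Nat.beq (2 * (a2 + b2)) (a + b - 1)) (Nat.ble (2 * a2) b) = true
    rcases h3 with h3 | ⟨h3, h4⟩
    · have : Nat.ble (2 * (a2 + b2) + 1) (a + b - 1) = true := Nat.ble_eq_true_of_le h3
      rw [show Nat.ble (2 * (a2 + b2) + 1) (a + b - 1) = false from h] at this
      exact absurd this (by simp)
    · rw [nd_iff, h3]
      exact ⟨Nat.beq_refl _, Nat.ble_eq_true_of_le h4⟩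

/-- inner loop -/
noncomputable def inn (a b a2 : ℕ) (base : List (ℕ × ℕ)) (m : ℕ) : List (ℕ × ℕ) :=
  Nat.rec (motive := fun _ => List (ℕ × ℕ)) base
    (fun b2 ih => Bool.rec (motive := fun _ => List (ℕ × ℕ)) ih ((a2, b2) :: ih) (tst a b a2 b2)) m

/-- the splits of a tree with classes `a`, `b`; only the light part is listed -/
noncomputable def spl (a b : ℕ) : List (ℕ × ℕ) :=
  Nat.rec (motive := fun _ => List (ℕ × ℕ)) [] (fun a2 ih => inn a b a2 ih a) (Nat.succ b)

theorem inn_base {a b a2 : ℕ} {base : List (ℕ × ℕ)} {x : ℕ × ℕ} (hx : x ∈ base) :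
    ∀ m, x ∈ inn a b a2 base m
  | 0 => hx
  | m + 1 => by
    show x ∈ Bool.rec (motive := fun _ => List (ℕ × ℕ)) (inn a b a2 base m)
      ((a2, m) :: inn a b a2 base m) (tst a b a2 m)
    cases tst a b a2 m with
    | true => exact List.mem_cons_of_mem _ (inn_base hx m)
    | false => exact inn_base hx m

theorem mem_inn {a b a2 b2 : ℕ} {base : List (ℕ × ℕ)} (h : tst a b a2 b2 = true) :
    ∀ m, b2 < m → (a2, b2) ∈ inn a b a2 base m
  | 0, hm => absurd hm (Nat.not_lt_zero _)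
  | m + 1, hm => by
    show (a2, b2) ∈ Bool.rec (motive := fun _ => List (ℕ × ℕ)) (inn a b a2 base m)
      ((a2, m) :: inn a b a2 base m) (tst a b a2 m)
    by_cases e : b2 = m
    · subst e
      rw [h]
      exact List.mem_cons_self
    · have ih := mem_inn (base := base) h m (by omega)
      cases tst a b a2 m with
      | true => exact List.mem_cons_of_mem _ ih
      | false => exact ih

theorem mem_spl {a b a2 b2 : ℕ} (h1 : a2 ≤ b) (h2 : b2 < a) (h : tst a b a2 b2 = true) :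
    (a2, b2) ∈ spl a b := by
  have : ∀ m, a2 < m → (a2, b2) ∈ Nat.rec (motive := fun _ => List (ℕ × ℕ)) []
      (fun a2 ih => inn a b a2 ih a) m := by
    intro m
    induction m with
    | zero => intro hm; exact absurd hm (Nat.not_lt_zero _)
    | succ m ih =>
      intro hm
      show (a2, b2) ∈ inn a b m (Nat.rec (motive := fun _ => List (ℕ × ℕ)) []
        (fun a2 ih => inn a b a2 ih a) m) a
      by_cases e : a2 = m
      · subst e
        exact mem_inn h a h2
      · exact inn_base (ih (by omega)) a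
  exact this (b + 1) (by omega)

/-- one of the two parts of a split is listed -/
theorem spl_cases {l r : BT} {a b : ℕ} (hA : (BT.node l r).A = a) (hB : (BT.node l r).B = b) :
    ((r.A, r.B) ∈ spl a b ∧ l.A = b - r.A ∧ l.B = a - 1 - r.B) ∨
    ((l.A, l.B) ∈ spl a b ∧ r.A = b - l.A ∧ r.B = a - 1 - l.B) := by
  rw [BT.A_node] at hA
  rw [BT.B_node] at hB
  have hl := BT.vd l
  have hr := BT.vd r
  have e1 : l.A = b - r.A := by omega
  have e2 : l.B = a - 1 - r.B := by omega
  have e3 : r.A = b - l.A := by omega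
  have e4 : r.B = a - 1 - l.B := by omega
  by_cases h : 2 * (r.A + r.B) < a + b - 1 ∨ (2 * (r.A + r.B) = a + b - 1 ∧ 2 * r.A ≤ b)
  · refine Or.inl ⟨mem_spl (by omega) (by omega) (tst_of hr ?_ h), e1, e2⟩
    rw [← e1, ← e2]; exact hl
  · refine Or.inr ⟨mem_spl (by omega) (by omega) (tst_of hl ?_ ?_), e3, e4⟩
    · rw [← e3, ← e4]; exact hr
    · omega

/-! ### Certificates of entries -/

/-- lists of records: a region for the heavy subtree, or regions for the light and the heavy one -/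
inductive Rc : Type
  | nil : Rc
  | one (h : ℕ) (rest : Rc) : Rc
  | two (l h : ℕ) (rest : Rc) : Rc

/-- `t1` and `t2` have disjoint places in `Y` below `0` -/
def Pl2 (Y : ℕ) (t1 t2 : BT) : Prop :=
  ∃ S1 S2 : Finset ℕ, (∀ v ∈ S1, Y.testBit v = true) ∧ (∀ v ∈ S2, Y.testBit v = true) ∧
    Disjoint S1 S2 ∧ BS jadj t1 0 S1 ∧ BS jadj t2 0 S2

theorem Pl2.symm {Y : ℕ} {t1 t2 : BT} (h : Pl2 Y t1 t2) : Pl2 Y t2 t1 := by
  obtain ⟨S1, S2, h1, h2, h3, h4, h5⟩ := h
  exact ⟨S2, S1, h2, h1, h3.symm, h5, h4⟩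

theorem tb_of_and {Y Z v : ℕ} (h : Y &&& Z = Z) (hv : Z.testBit v = true) : Y.testBit v = true := by
  rw [← h, Nat.testBit_and, Bool.and_eq_true] at hv
  exact hv.1

theorem tb_xor {Y Z v : ℕ} (h : Y &&& Z = Z) (hv : (Y ^^^ Z).testBit v = true) :
    Y.testBit v = true ∧ Z.testBit v = false := by
  have h1 : (Y.testBit v && Z.testBit v) = Z.testBit v := by rw [← Nat.testBit_and, h]
  rw [Nat.testBit_xor] at hv
  cases hy : Y.testBit v <;> cases hz : Z.testBit v <;> simp_all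

/-- the regions of all records are admissible -/
noncomputable def geo (T lim Y : ℕ) (c : Rc) : Bool :=
  Rc.rec (motive := fun _ => Bool) true
    (fun h _ ih => nd (put T lim 0 Y h (fun _ => true)) ih)
    (fun l h _ ih => nd (put T lim 0 Y l (fun Y' => put T lim 0 Y' h (fun _ => true))) ih) c

/-- disjunction -/
@[reducible] noncomputable def ro (a b : Bool) : Bool := Bool.rec (motive := fun _ => Bool) b true a

theorem ro_iff {a b : Bool} : ro a b = true ↔ a = true ∨ b = true := by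
  cases a <;> simp [ro]

/-- the entry of `R` serves trees with classes `a`, `b` -/
noncomputable def cpB (T R a b : ℕ) : Bool :=
  Bool.rec (motive := fun _ => Bool)
    (nd (Nat.ble a (j1 T (rI R))) (Nat.ble b (j2 T (rI R)))) (Nat.ble (Nat.add a b) (j2 T (rI R)))
    (Nat.beq (j1 T (rI R)) 0)

theorem cpB_ok {T R a b : ℕ} (h : cpB T R a b = true) {t : BT} (h1 : t.A ≤ a) (h2 : t.B ≤ b) :
    cap (j1 T (rI R)) (j2 T (rI R)) t := by
  unfold cpB at h
  cases e : Nat.beq (j1 T (rI R)) 0 with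
  | true =>
    rw [e] at h
    have h3 : a + b ≤ j2 T (rI R) := Nat.le_of_ble_eq_true h
    exact Or.inl ⟨Nat.eq_of_beq_eq_true e, by omega⟩
  | false =>
    rw [e] at h
    have h' : nd (Nat.ble a (j1 T (rI R))) (Nat.ble b (j2 T (rI R))) = true := h
    rw [nd_iff] at h'
    have h3 : a ≤ j1 T (rI R) := Nat.le_of_ble_eq_true h'.1
    have h4 : b ≤ j2 T (rI R) := Nat.le_of_ble_eq_true h'.2
    refine Or.inr ⟨fun e0 => ?_, by omega, by omega⟩
    rw [e0] at e
    exact absurd e (by simp)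

/-- the entry of `R` serves all trees with `n` vertices -/
noncomputable def cpS (T R n : ℕ) : Bool :=
  nd (Nat.beq (j1 T (rI R)) 0) (Nat.ble n (j2 T (rI R)))

theorem cpS_ok {T R n : ℕ} (h : cpS T R n = true) {t : BT} (h1 : t.A + t.B ≤ n) :
    cap (j1 T (rI R)) (j2 T (rI R)) t := by
  unfold cpS at h
  rw [nd_iff] at h
  have h3 : n ≤ j2 T (rI R) := Nat.le_of_ble_eq_true h.2
  exact Or.inl ⟨Nat.eq_of_beq_eq_true h.1, by omega⟩

/-- the split is served (classes) -/
noncomputable def srvC (T : ℕ) (c : Rc) (a2 b2 a1 b1 : ℕ) : Bool :=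
  Rc.rec (motive := fun _ => Bool) false
    (fun h _ ih => ro (nd (Nat.beq (Nat.add a2 b2) 0) (cpB T h a1 b1)) ih)
    (fun l h _ ih => ro (nd (cpB T l a2 b2) (cpB T h a1 b1))
      (ro (nd (cpB T l a1 b1) (cpB T h a2 b2)) ih)) c

/-- the split is served (sizes) -/
noncomputable def srvS (T : ℕ) (c : Rc) (n2 n1 : ℕ) : Bool :=
  Rc.rec (motive := fun _ => Bool) false
    (fun h _ ih => ro (nd (Nat.beq n2 0) (cpS T h n1)) ih)
    (fun l h _ ih => ro (nd (cpS T l n2) (cpS T h n1)) ih) c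

theorem put1 {T lim Y h : ℕ} (hT : ∀ i < lim, JGood T i)
    (hg : put T lim 0 Y h (fun _ => true) = true) {t1 t2 : BT} (h2 : t2.A + t2.B = 0)
    (h1 : cap (j1 T (rI h)) (j2 T (rI h)) t1) : Pl2 Y t1 t2 := by
  obtain ⟨Z, hZ, hf, _⟩ := put_ok hT hg
  obtain ⟨S, hS, hb⟩ := hf t1 h1
  have ht : t2 = .nil := by
    rcases BT.valid t2 with h | h
    · exact h.1
    · omega
  refine ⟨S, ∅, fun v hv => tb_of_and hZ (hS v hv), by simp, by simp, hb, ?_⟩
  rw [ht]
  exact rfl

theorem put2 {T lim Y l h : ℕ} (hT : ∀ i < lim, JGood T i)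
    (hg : put T lim 0 Y l (fun Y' => put T lim 0 Y' h (fun _ => true)) = true) {t1 t2 : BT}
    (h2 : cap (j1 T (rI l)) (j2 T (rI l)) t2) (h1 : cap (j1 T (rI h)) (j2 T (rI h)) t1) :
    Pl2 Y t1 t2 := by
  obtain ⟨Z, hZ, hf, hg'⟩ := put_ok hT hg
  obtain ⟨Z', hZ', hf', _⟩ := put_ok hT hg'
  obtain ⟨S2, hS2, hb2⟩ := hf t2 h2
  obtain ⟨S1, hS1, hb1⟩ := hf' t1 h1
  refine ⟨S1, S2, fun v hv => (tb_xor hZ (tb_of_and hZ' (hS1 v hv))).1,
    fun v hv => tb_of_and hZ (hS2 v hv), ?_, hb1, hb2⟩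
  rw [Finset.disjoint_left]
  intro v hv hv'
  have g1 := (tb_xor hZ (tb_of_and hZ' (hS1 v hv))).2
  have g2 := hS2 v hv'
  rw [g1] at g2
  exact absurd g2 (by simp)

theorem srvC_ok {T lim Y a2 b2 a1 b1 : ℕ} (hT : ∀ i < lim, JGood T i) : ∀ {c : Rc},
    geo T lim Y c = true → srvC T c a2 b2 a1 b1 = true → ∀ {t1 t2 : BT}, t2.A = a2 → t2.B = b2 →
      t1.A = a1 → t1.B = b1 → Pl2 Y t1 t2
  | .nil, _, h, _, _, _, _, _, _ => absurd (show false = true from h) (by simp)
  | .one h c, hg, hs, t1, t2, e1, e2, e3, e4 => by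
    have hg' : nd (put T lim 0 Y h (fun _ => true)) (geo T lim Y c) = true := hg
    have hs' : ro (nd (Nat.beq (Nat.add a2 b2) 0) (cpB T h a1 b1)) (srvC T c a2 b2 a1 b1) = true := hs
    rw [nd_iff] at hg'
    rw [ro_iff, nd_iff] at hs'
    rcases hs' with ⟨g1, g2⟩ | hs'
    · have : a2 + b2 = 0 := Nat.eq_of_beq_eq_true g1
      exact put1 hT hg'.1 (by omega) (cpB_ok g2 (le_of_eq e3) (le_of_eq e4))
    · exact srvC_ok hT hg'.2 hs' e1 e2 e3 e4
  | .two l h c, hg, hs, t1, t2, e1, e2, e3, e4 => by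
    have hg' : nd (put T lim 0 Y l (fun Y' => put T lim 0 Y' h (fun _ => true)))
      (geo T lim Y c) = true := hg
    have hs' : ro (nd (cpB T l a2 b2) (cpB T h a1 b1))
      (ro (nd (cpB T l a1 b1) (cpB T h a2 b2)) (srvC T c a2 b2 a1 b1)) = true := hs
    rw [nd_iff] at hg'
    rw [ro_iff, nd_iff, ro_iff, nd_iff] at hs'
    rcases hs' with ⟨g1, g2⟩ | ⟨g1, g2⟩ | hs'
    · exact put2 hT hg'.1 (cpB_ok g1 (le_of_eq e1) (le_of_eq e2))
        (cpB_ok g2 (le_of_eq e3) (le_of_eq e4))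
    · exact (put2 hT hg'.1 (cpB_ok g1 (le_of_eq e3) (le_of_eq e4))
        (cpB_ok g2 (le_of_eq e1) (le_of_eq e2))).symm
    · exact srvC_ok hT hg'.2 hs' e1 e2 e3 e4

theorem srvS_ok {T lim Y n2 n1 : ℕ} (hT : ∀ i < lim, JGood T i) : ∀ {c : Rc},
    geo T lim Y c = true → srvS T c n2 n1 = true → ∀ {t1 t2 : BT}, t2.A + t2.B ≤ n2 →
      t1.A + t1.B ≤ n1 → Pl2 Y t1 t2
  | .nil, _, h, _, _, _, _ => absurd (show false = true from h) (by simp)
  | .one h c, hg, hs, t1, t2, e1, e2 => by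
    have hg' : nd (put T lim 0 Y h (fun _ => true)) (geo T lim Y c) = true := hg
    have hs' : ro (nd (Nat.beq n2 0) (cpS T h n1)) (srvS T c n2 n1) = true := hs
    rw [nd_iff] at hg'
    rw [ro_iff, nd_iff] at hs'
    rcases hs' with ⟨g1, g2⟩ | hs'
    · have : n2 = 0 := Nat.eq_of_beq_eq_true g1
      exact put1 hT hg'.1 (by omega) (cpS_ok g2 e2)
    · exact srvS_ok hT hg'.2 hs' e1 e2
  | .two l h c, hg, hs, t1, t2, e1, e2 => by
    have hg' : nd (put T lim 0 Y l (fun Y' => put T lim 0 Y' h (fun _ => true)))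
      (geo T lim Y c) = true := hg
    have hs' : ro (nd (cpS T l n2) (cpS T h n1)) (srvS T c n2 n1) = true := hs
    rw [nd_iff] at hg'
    rw [ro_iff, nd_iff] at hs'
    rcases hs' with ⟨g1, g2⟩ | hs'
    · exact put2 hT hg'.1 (cpS_ok g1 e1) (cpS_ok g2 e2)
    · exact srvS_ok hT hg'.2 hs' e1 e2

/-- all splits of the list are served -/
noncomputable def allC (T : ℕ) (c : Rc) (a b : ℕ) (l : List (ℕ × ℕ)) : Bool :=
  List.rec (motive := fun _ => Bool) true
    (fun s _ ih => nd (srvC T c s.1 s.2 (Nat.sub b s.1) (Nat.sub (Nat.pred a) s.2)) ih) l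

theorem allC_ok {T : ℕ} {c : Rc} {a b : ℕ} : ∀ {l : List (ℕ × ℕ)}, allC T c a b l = true →
    ∀ s ∈ l, srvC T c s.1 s.2 (b - s.1) (a - 1 - s.2) = true
  | [], _, _, hs => absurd hs (List.not_mem_nil)
  | x :: l, h, s, hs => by
    have h' : nd (srvC T c x.1 x.2 (b - x.1) (a - 1 - x.2)) (allC T c a b l) = true := h
    rw [nd_iff] at h'
    rcases List.mem_cons.1 hs with rfl | hs
    · exact h'.1
    · exact allC_ok h'.2 s hs

/-- all sizes below `m` of the light subtree are served -/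
noncomputable def allS (T : ℕ) (c : Rc) (k m : ℕ) : Bool :=
  Nat.rec (motive := fun _ => Bool) true (fun n ih => nd (srvS T c n (Nat.sub k n)) ih) m

theorem allS_ok {T : ℕ} {c : Rc} {k : ℕ} : ∀ {m : ℕ}, allS T c k m = true →
    ∀ n < m, srvS T c n (k - n) = true
  | 0, _, n, hn => absurd hn (Nat.not_lt_zero _)
  | m + 1, h, n, hn => by
    have h' : nd (srvS T c m (k - m)) (allS T c k m) = true := h
    rw [nd_iff] at h'
    by_cases e : n = m
    · subst e; exact h'.1
    · exact allS_ok h'.2 n (by omega)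

/-- check of the entry `i` -/
noncomputable def chkE (T i : ℕ) (c : Rc) : Bool :=
  nd (Nat.beq (Nat.land (jX T i) 1) 1)
    (Bool.rec (motive := fun _ => Bool)
      (nd (fB (Nat.xor (jX T i) 1) (fun Y => geo T i Y c))
        (Bool.rec (motive := fun _ => Bool)
          (nd (Nat.ble (j1 T i) (Nat.succ (Nat.mul 2 (j2 T i))))
            (nd (Nat.ble (j2 T i) (Nat.mul 2 (j1 T i)))
              (allC T c (j1 T i) (j2 T i) (spl (j1 T i) (j2 T i)))))
          (allS T c (Nat.pred (j2 T i)) (Nat.succ (Nat.shiftRight (Nat.pred (j2 T i)) 1)))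
          (Nat.beq (j1 T i) 0)))
      true (Nat.ble (Nat.add (j1 T i) (j2 T i)) 1))

theorem node_fit {X : ℕ} (h0 : X.testBit 0 = true) {l r : BT} (h : Pl2 (X ^^^ 1) l r) :
    ∃ S : Finset ℕ, (∀ v ∈ S, X.testBit v = true) ∧ BS jadj (.node l r) (0 ^^^ 32) S := by
  obtain ⟨S1, S2, h1, h2, h3, h4, h5⟩ := h
  have e : X &&& 1 = 1 := by
    apply Nat.eq_of_testBit_eq
    intro i
    rw [Nat.testBit_and]
    cases i with
    | zero => rw [h0]; rfl
    | succ i =>
      have : Nat.testBit 1 (i + 1) = false := by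
        rw [Nat.testBit_succ]
        simp
      rw [this, Bool.and_false]
  have hn : ∀ v, (X ^^^ 1).testBit v = true → X.testBit v = true ∧ v ≠ 0 := by
    intro v hv
    have h6 := tb_xor e hv
    refine ⟨h6.1, ?_⟩
    rintro rfl
    exact absurd h6.2 (by simp)
  refine ⟨insert 0 (S1 ∪ S2), ?_, 0, Or.inr ⟨by norm_num, rfl⟩, S1, S2, h4, h5, ?_, ?_, h3, rfl⟩
  · intro v hv
    rcases Finset.mem_insert.1 hv with rfl | hv
    · exact h0
    · rcases Finset.mem_union.1 hv with hv | hv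
      · exact (hn v (h1 v hv)).1
      · exact (hn v (h2 v hv)).1
  · exact fun h => (hn 0 (h1 0 h)).2 rfl
  · exact fun h => (hn 0 (h2 0 h)).2 rfl

theorem nil_fit (X p : ℕ) :
    ∃ S : Finset ℕ, (∀ v ∈ S, X.testBit v = true) ∧ BS jadj .nil p S :=
  ⟨∅, by simp, rfl⟩

theorem chkE_ok {T i : ℕ} {c : Rc} (hT : ∀ j < i, JGood T j) (h : chkE T i c = true) :
    JGood T i := by
  unfold chkE at h
  rw [nd_iff] at h
  obtain ⟨h0, h⟩ := h
  have h0 : (jX T i) &&& 1 = 1 := Nat.eq_of_beq_eq_true h0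
  have h4 := testBit_zero_of h0
  intro t ht
  cases hn : Nat.ble (Nat.add (j1 T i) (j2 T i)) 1 with
  | true =>
    have h5 : j1 T i + j2 T i ≤ 1 := Nat.le_of_ble_eq_true hn
    have h6 : t.A + t.B ≤ 1 := by
      rcases ht with ht | ht
      · omega
      · omega
    cases t with
    | nil => exact nil_fit _ _
    | node l r =>
      rw [BT.A_node, BT.B_node] at h6
      have hl : l = .nil := by
        rcases BT.valid l with h | h
        · exact h.1
        · omega
      have hr : r = .nil := by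
        rcases BT.valid r with h | h
        · exact h.1
        · omega
      subst hl hr
      exact node_fit h4 ⟨∅, ∅, by simp, by simp, by simp, rfl, rfl⟩
  | false =>
    rw [hn] at h
    have h' : nd (fB (Nat.xor (jX T i) 1) (fun Y => geo T i Y c))
        (Bool.rec (motive := fun _ => Bool)
          (nd (Nat.ble (j1 T i) (Nat.succ (Nat.mul 2 (j2 T i))))
            (nd (Nat.ble (j2 T i) (Nat.mul 2 (j1 T i)))
              (allC T c (j1 T i) (j2 T i) (spl (j1 T i) (j2 T i)))))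
          (allS T c (Nat.pred (j2 T i)) (Nat.succ (Nat.shiftRight (Nat.pred (j2 T i)) 1)))
          (Nat.beq (j1 T i) 0)) = true := h
    rw [nd_iff, fB_eq] at h'
    obtain ⟨hg, h'⟩ := h'
    have hg : geo T i (jX T i ^^^ 1) c = true := hg
    cases e0 : Nat.beq (j1 T i) 0 with
    | true =>
      rw [e0] at h'
      have e1 : j1 T i = 0 := Nat.eq_of_beq_eq_true e0
      have h6 : allS T c (j2 T i - 1) ((j2 T i - 1) / 2 + 1) = true := h'
      have h7 : t.A + t.B ≤ j2 T i := by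
        rcases ht with ht | ht
        · exact ht.2
        · exact absurd e1 ht.1
      cases t with
      | nil => exact nil_fit _ _
      | node l r =>
        rw [BT.A_node, BT.B_node] at h7
        apply node_fit h4
        rcases le_total (r.A + r.B) (l.A + l.B) with hlr | hlr
        · exact srvS_ok hT hg (allS_ok h6 (r.A + r.B) (by omega)) le_rfl (by omega)
        · exact (srvS_ok hT hg (allS_ok h6 (l.A + l.B) (by omega)) le_rfl (by omega)).symm
    | false =>
      rw [e0] at h'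
      have e1 : j1 T i ≠ 0 := by
        intro e1
        rw [e1] at e0
        exact absurd e0 (by simp)
      have h6 : nd (Nat.ble (j1 T i) (Nat.succ (Nat.mul 2 (j2 T i))))
            (nd (Nat.ble (j2 T i) (Nat.mul 2 (j1 T i)))
              (allC T c (j1 T i) (j2 T i) (spl (j1 T i) (j2 T i)))) = true := h'
      rw [nd_iff, nd_iff] at h6
      obtain ⟨g1, g2, g3⟩ := h6
      have g1 : j1 T i ≤ 2 * j2 T i + 1 := Nat.le_of_ble_eq_true g1
      have g2 : j2 T i ≤ 2 * j1 T i := Nat.le_of_ble_eq_true g2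
      have h7 : t.A ≤ j1 T i ∧ t.B ≤ j2 T i := by
        rcases ht with ht | ht
        · exact absurd ht.1 e1
        · exact ht.2
      by_cases hnil : t = .nil
      · subst hnil; exact nil_fit _ _
      · obtain ⟨t', k1, k2, k3⟩ := BT.ext g1 g2 _ t hnil h7.1 h7.2 rfl
        cases t' with
        | nil => exact absurd rfl (BT.ne_nil_of_le k1 hnil)
        | node l r =>
          have k4 : Pl2 (jX T i ^^^ 1) l r := by
            rcases spl_cases k2 k3 with ⟨m1, m2, m3⟩ | ⟨m1, m2, m3⟩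
            · exact srvC_ok hT hg (allC_ok g3 _ m1) rfl rfl m2 m3
            · exact (srvC_ok hT hg (allC_ok g3 _ m1) rfl rfl m2 m3).symm
          obtain ⟨S, hS1, hS2⟩ := node_fit h4 k4
          obtain ⟨S', hS3, hS4⟩ := BS.le k1 hS2
          exact ⟨S', fun v hv => hS1 v (hS3 hv), hS4⟩

/-- check of a list of consecutive entries -/
noncomputable def chkL (T : ℕ) (cs : List Rc) : ℕ → Bool :=
  List.rec (motive := fun _ => ℕ → Bool) (fun _ => true)
    (fun c _ ih i => nd (chkE T i c) (ih (Nat.succ i))) cs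

theorem chkL_ok {T : ℕ} : ∀ (cs : List Rc) (i : ℕ), (∀ j < i, JGood T j) →
    chkL T cs i = true → ∀ j < i + cs.length, JGood T j
  | [], i, hT, _, j, hj => hT j (by simpa using hj)
  | c :: cs, i, hT, h, j, hj => by
    have h' : (nd (chkE T i c) (chkL T cs (Nat.succ i))) = true := h
    rw [nd_iff] at h'
    refine chkL_ok cs (i + 1) ?_ h'.2 j (by rw [List.length_cons] at hj; omega)
    intro l hl
    rcases Nat.lt_succ_iff_lt_or_eq.mp hl with hl | rfl
    · exact hT l hl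
    · exact chkE_ok hT h'.1

end JT

end Pool.Agent.Work.MP_bf01b2_co.MR
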