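import Pool.Agent.Work.MP_bf01b2_co.MR.J24T

/-!
# Class aware calculus on `Q_5`: certificates of the entries 0 to 1299
-/

set_option autoImplicit false
set_option maxRecDepth 100000

namespace Pool.Agent.Work.MP_bf01b2_co.MR

namespace JT

/-- certificates of the entries 0 to 1299 -/
def j24C0 : List Rc :=
  [.nil,
   .one (nat_lit 1048576) .nil,
   .two (nat_lit 1048576) (nat_lit 2097152) .nil,
   .one (nat_lit 34603009) .nil,
   .two (nat_lit 1048576) (nat_lit 2097153) .nil,
   .two (nat_lit 4194304) (nat_lit 34603009) .nil,
   .two (nat_lit 1048576) (nat_lit 2097153) (.one (nat_lit 34603011) .nil),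
   .one (nat_lit 705691650) .nil,
   .two (nat_lit 1048576) (nat_lit 2097153) (.one (nat_lit 34603013) .nil),
   .two (nat_lit 16777216) (nat_lit 8388609) (.one (nat_lit 8388611) .nil),
   .two (nat_lit 8388608) (nat_lit 34603009) (.one (nat_lit 11476664323) .nil),
   .two (nat_lit 2097152) (nat_lit 37748739) (.one (nat_lit 606076935) .nil),
   .two (nat_lit 8388608) (nat_lit 705691652) .nil,
   .two (nat_lit 4194304) (nat_lit 11543773189) .nil,
   .two (nat_lit 2097152) (nat_lit 10343153669) .nil,
   .two (nat_lit 2097153) (nat_lit 605028353) (.two (nat_lit 2097152) (nat_lit 705691652) (.one (nat_lit 705691656) .nil)),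
   .two (nat_lit 8388609) (nat_lit 605028353) (.two (nat_lit 1048576) (nat_lit 8388610) (.one (nat_lit 303038473) .nil)),
   .two (nat_lit 37748737) (nat_lit 9766436865) (.two (nat_lit 2097152) (nat_lit 11479810050) (.one (nat_lit 69206026) .nil)),
   .two (nat_lit 8388608) (nat_lit 34603015) .nil,
   .two (nat_lit 2097152) (nat_lit 1343225863) .nil,
   .two (nat_lit 2097152) (nat_lit 11559501831) .nil,
   .two (nat_lit 8388608) (nat_lit 1344274439) .nil,
   .two (nat_lit 4194304) (nat_lit 13195280391) .nil,
   .two (nat_lit 2097153) (nat_lit 9765388289) (.two (nat_lit 1048576) (nat_lit 2954887173) (.one (nat_lit 806354957) .nil)),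
   .two (nat_lit 2097153) (nat_lit 9765388289) (.two (nat_lit 2097152) (nat_lit 11543773189) (.one (nat_lit 11543773197) .nil)),
   .two (nat_lit 8388609) (nat_lit 605028353) (.two (nat_lit 8388608) (nat_lit 1846542341) (.one (nat_lit 705691662) .nil)),
   .two (nat_lit 8388609) (nat_lit 34603009) (.two (nat_lit 1048576) (nat_lit 3464495109) (.one (nat_lit 1376780302) .nil)),
   .two (nat_lit 605028353) (nat_lit 9768534017) (.two (nat_lit 1048576) (nat_lit 1178599429) (.one (nat_lit 104857610) .nil)),
   .two (nat_lit 37748737) (nat_lit 605028353) (.two (nat_lit 1048576) (nat_lit 11479810053) (.one (nat_lit 10439622665) .nil)),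
   .two (nat_lit 2097153) (nat_lit 605028353) (.two (nat_lit 2097152) (nat_lit 1276116996) (.one (nat_lit 1276116998) .nil)),
   .two (nat_lit 34603009) (nat_lit 41943041) (.two (nat_lit 8388608) (nat_lit 739246085) (.one (nat_lit 10503585801) .nil)),
   .two (nat_lit 612368385) (nat_lit 9765388289) (.two (nat_lit 1048576) (nat_lit 75497477) (.one (nat_lit 183920230409) .nil)),
   .two (nat_lit 50331649) (nat_lit 9768534017) (.two (nat_lit 4194304) (nat_lit 11492392964) (.one (nat_lit 11492392966) .nil)),
   .two (nat_lit 16777217) (nat_lit 37748737) (.two (nat_lit 4194304) (nat_lit 2902458372) (.one (nat_lit 2902458374) .nil)),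
   .two (nat_lit 605028353) (nat_lit 169869316) (.two (nat_lit 1048576) (nat_lit 169869318) (.one (nat_lit 705691663) .nil)),
   .two (nat_lit 605028353) (nat_lit 169869316) (.one (nat_lit 705691663) .nil),
   .two (nat_lit 2097153) (nat_lit 11479810050) (.one (nat_lit 2956984342) .nil),
   .two (nat_lit 4194305) (nat_lit 10369368067) (.two (nat_lit 4194304) (nat_lit 28757196808) (.one (nat_lit 1309671440) .nil)),
   .two (nat_lit 4194305) (nat_lit 606076931) (.two (nat_lit 1048576) (nat_lit 37748744) (.one (nat_lit 9768534033) .nil)),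
   .two (nat_lit 705691650) (nat_lit 1277165570) (.one (nat_lit 705691667) .nil),
   .two (nat_lit 1277165570) (nat_lit 46414168066) (.one (nat_lit 2097174) .nil),
   .two (nat_lit 37748737) (nat_lit 739246088) .nil,
   .two (nat_lit 34603009) (nat_lit 612368385) (.two (nat_lit 8388608) (nat_lit 11543773192) .nil),
   .two (nat_lit 612368385) (nat_lit 9781116929) (.two (nat_lit 16777216) (nat_lit 21785214989) .nil),
   .two (nat_lit 16777217) (nat_lit 272629768) .nil,
   .two (nat_lit 41943041) (nat_lit 605028353) (.two (nat_lit 1048576) (nat_lit 184993972232) .nil),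
   .two (nat_lit 37748737) (nat_lit 156372041729) (.two (nat_lit 8388608) (nat_lit 1413480462) .nil),
   .two (nat_lit 41943041) (nat_lit 605028353) (.two (nat_lit 1048576) (nat_lit 18933088264) .nil),
   .two (nat_lit 37748737) (nat_lit 9766436865) (.two (nat_lit 4194304) (nat_lit 156533522444) .nil),
   .two (nat_lit 4194305) (nat_lit 41943041) (.two (nat_lit 8388608) (nat_lit 156367847432) .nil),
   .two (nat_lit 2097153) (nat_lit 50331649) (.two (nat_lit 16777216) (nat_lit 2954887176) .nil),
   .two (nat_lit 37748737) (nat_lit 9766436865) (.two (nat_lit 4194304) (nat_lit 11578376206) .nil),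
   .two (nat_lit 37748737) (nat_lit 50331649) (.two (nat_lit 4194304) (nat_lit 9781116933) (.one (nat_lit 654311434) .nil)),
   .two (nat_lit 37748737) (nat_lit 50331649) (.two (nat_lit 4194304) (nat_lit 9781116933) (.one (nat_lit 251658249) .nil)),
   .two (nat_lit 16777217) (nat_lit 612368385) (.two (nat_lit 8388608) (nat_lit 721420293) (.one (nat_lit 20719861769) .nil)),
   .two (nat_lit 606076929) (nat_lit 9781116929) (.two (nat_lit 16777216) (nat_lit 21208498181) (.one (nat_lit 1310720010) .nil)),
   .two (nat_lit 2097153) (nat_lit 9781116929) (.two (nat_lit 16777216) (nat_lit 20638072837) (.one (nat_lit 37247516681) .nil)),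
   .two (nat_lit 606076929) (nat_lit 156364701697) (.two (nat_lit 1048576) (nat_lit 10940841989) (.one (nat_lit 156567076873) .nil)),
   .two (nat_lit 34603009) (nat_lit 620756993) (.two (nat_lit 1048576) (nat_lit 654311429) (.one (nat_lit 9781116938) .nil)),
   .two (nat_lit 34603009) (nat_lit 41943041) (.two (nat_lit 1048576) (nat_lit 28093448197) (.one (nat_lit 159257722889) .nil)),
   .two (nat_lit 41943041) (nat_lit 605028353) (.two (nat_lit 8388608) (nat_lit 21777874949) (.one (nat_lit 1410334730) .nil)),
   .two (nat_lit 4194305) (nat_lit 41943041) (.two (nat_lit 8388608) (nat_lit 183848927237) (.one (nat_lit 12050235402) .nil)),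
   .two (nat_lit 2097153) (nat_lit 4194312) (.one (nat_lit 705691663) .nil),
   .two (nat_lit 605028353) (nat_lit 169869316) (.two (nat_lit 8388608) (nat_lit 705691663) .nil),
   .two (nat_lit 605028353) (nat_lit 2954887176) (.one (nat_lit 705691663) .nil),
   .two (nat_lit 37748737) (nat_lit 11543773192) (.one (nat_lit 68157455) .nil),
   .two (nat_lit 2097153) (nat_lit 809500677) (.two (nat_lit 2097152) (nat_lit 47550824457) (.one (nat_lit 2097180) .nil)),
   .two (nat_lit 8388609) (nat_lit 10504634373) (.one (nat_lit 166130090003) .nil),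
   .two (nat_lit 605028353) (nat_lit 9768534019) (.two (nat_lit 1048576) (nat_lit 2889875462) (.one (nat_lit 2889875480) .nil)),
   .two (nat_lit 605028353) (nat_lit 1178599427) (.two (nat_lit 1048576) (nat_lit 4194314) (.one (nat_lit 4194334) .nil)),
   .two (nat_lit 156372041729) (nat_lit 10939793413) (.one (nat_lit 174752530451) .nil),
   .two (nat_lit 9766436865) (nat_lit 12114198533) (.one (nat_lit 3524263958) .nil),
   .two (nat_lit 156364701697) (nat_lit 11479810052) (.one (nat_lit 272629771) .nil),
   .two (nat_lit 2097153) (nat_lit 1276116996) (.one (nat_lit 174752530443) .nil),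
   .two (nat_lit 37748737) (nat_lit 11492392964) (.one (nat_lit 285212683) .nil),
   .two (nat_lit 156372041729) (nat_lit 169869316) (.one (nat_lit 35651595) .nil),
   .two (nat_lit 8388609) (nat_lit 1277165572) (.two (nat_lit 2097152) (nat_lit 41943048) (.one (nat_lit 10370416669) .nil)),
   .two (nat_lit 9768534017) (nat_lit 2887778308) (.two (nat_lit 4194304) (nat_lit 639631368) (.one (nat_lit 2097183) .nil)),
   .two (nat_lit 37748737) (nat_lit 156365750275) (.two (nat_lit 4194304) (nat_lit 11007950860) (.one (nat_lit 2097185) .nil)),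
   .two (nat_lit 9781116929) (nat_lit 18925748227) (.two (nat_lit 1048576) (nat_lit 2902458376) (.one (nat_lit 2902458383) .nil)),
   .two (nat_lit 4194305) (nat_lit 209715205) (.two (nat_lit 1048576) (nat_lit 166232850445) (.one (nat_lit 28760342558) .nil)),
   .two (nat_lit 9765388289) (nat_lit 11492392964) (.one (nat_lit 285212683) .nil),
   .two (nat_lit 8388609) (nat_lit 10506731525) (.two (nat_lit 4194304) (nat_lit 176160774) (.one (nat_lit 184989777952) .nil)),
   .two (nat_lit 16777217) (nat_lit 1277165572) (.one (nat_lit 2954887179) .nil),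
   .two (nat_lit 41943041) (nat_lit 1277165571) (.two (nat_lit 8388608) (nat_lit 1277165574) (.one (nat_lit 156466413593) .nil)),
   .two (nat_lit 41943041) (nat_lit 721420292) (.two (nat_lit 8388608) (nat_lit 136314892) (.one (nat_lit 2954887200) .nil)),
   .two (nat_lit 9766436865) (nat_lit 20644364292) (.one (nat_lit 184993972235) .nil),
   .two (nat_lit 156365750273) (nat_lit 285212677) (.one (nat_lit 9781116939) .nil),
   .two (nat_lit 4194305) (nat_lit 2887778308) (.one (nat_lit 807403531) .nil),
   .two (nat_lit 4194308) (nat_lit 34603011) (.two (nat_lit 2097153) (nat_lit 4194312) (.two (nat_lit 1048576) (nat_lit 606076943) (.one (nat_lit 705691683) .nil))),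
   .two (nat_lit 4194308) (nat_lit 34603011) (.two (nat_lit 2097153) (nat_lit 4194312) (.two (nat_lit 1048576) (nat_lit 606076943) (.one (nat_lit 705691682) .nil))),
   .two (nat_lit 41943043) (nat_lit 1178599427) (.two (nat_lit 612368385) (nat_lit 639631367) (.two (nat_lit 2097152) (nat_lit 11484004368) (.one (nat_lit 1350565927) .nil))),
   .two (nat_lit 4194307) (nat_lit 11476664323) (.two (nat_lit 4194305) (nat_lit 11543773191) (.two (nat_lit 4194304) (nat_lit 1048593) (.one (nat_lit 11543773223) .nil))),
   .two (nat_lit 4194307) (nat_lit 1277165571) (.two (nat_lit 4194305) (nat_lit 9934209031) (.two (nat_lit 2097152) (nat_lit 3527409680) (.one (nat_lit 1413480484) .nil))),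
   .two (nat_lit 176160770) (nat_lit 1277165572) (.two (nat_lit 8388609) (nat_lit 1277165574) (.two (nat_lit 2097152) (nat_lit 109051915) (.one (nat_lit 10437525541) .nil))),
   .two (nat_lit 612368385) (nat_lit 156364701697) (.two (nat_lit 1048576) (nat_lit 10007609356) .nil),
   .two (nat_lit 606076929) (nat_lit 9781116929) (.two (nat_lit 16777216) (nat_lit 183913938958) .nil),
   .two (nat_lit 16777217) (nat_lit 37748737) (.two (nat_lit 4194304) (nat_lit 1191182349) .nil),
   .two (nat_lit 37748737) (nat_lit 3557818382) .nil,
   .two (nat_lit 2097153) (nat_lit 156372041740) .nil,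
   .two (nat_lit 9765388289) (nat_lit 156365750273) (.two (nat_lit 2097152) (nat_lit 166196150285) .nil),
   .two (nat_lit 8388609) (nat_lit 705691656) (.one (nat_lit 270532649) .nil),
   .two (nat_lit 2097153) (nat_lit 1343225869) (.one (nat_lit 11543773207) .nil),
   .two (nat_lit 37748737) (nat_lit 11543773197) (.one (nat_lit 2954887191) .nil),
   .two (nat_lit 8388609) (nat_lit 169869320) (.one (nat_lit 705691690) .nil),
   .two (nat_lit 2097153) (nat_lit 1343225861) (.two (nat_lit 2097152) (nat_lit 11543773199) .nil),
   .two (nat_lit 4194305) (nat_lit 739246095) .nil,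
   .two (nat_lit 606076929) (nat_lit 739246095) .nil,
   .two (nat_lit 37748737) (nat_lit 739246095) .nil,
   .two (nat_lit 34603009) (nat_lit 272629765) (.two (nat_lit 4194304) (nat_lit 11543773199) .nil),
   .two (nat_lit 612368385) (nat_lit 11543773199) .nil,
   .two (nat_lit 605028353) (nat_lit 184419352591) .nil,
   .two (nat_lit 606076929) (nat_lit 156569174028) (.one (nat_lit 1178599439) .nil),
   .two (nat_lit 606076929) (nat_lit 1916796941) (.one (nat_lit 708837402) .nil),
   .two (nat_lit 34603009) (nat_lit 9781116936) (.one (nat_lit 2936012826) .nil),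
   .two (nat_lit 156367847425) (nat_lit 639631375) .nil,
   .two (nat_lit 605028353) (nat_lit 47555018757) (.two (nat_lit 8388608) (nat_lit 9866051599) .nil),
   .two (nat_lit 34603009) (nat_lit 9934209029) (.two (nat_lit 1048576) (nat_lit 47548727304) (.one (nat_lit 1048626) .nil)),
   .two (nat_lit 8388609) (nat_lit 19093520398) (.one (nat_lit 11513364526) .nil),
   .two (nat_lit 9768534017) (nat_lit 822083599) .nil,
   .two (nat_lit 8388609) (nat_lit 169869320) (.one (nat_lit 10369368109) .nil),
   .two (nat_lit 9766436865) (nat_lit 12047089679) .nil,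
   .two (nat_lit 620756993) (nat_lit 166130089992) (.one (nat_lit 156567076890) .nil),
   .two (nat_lit 2097153) (nat_lit 713031684) (.two (nat_lit 1048576) (nat_lit 102760460) (.one (nat_lit 8388659) .nil)),
   .two (nat_lit 2097153) (nat_lit 166229704718) (.one (nat_lit 184416206871) .nil),
   .two (nat_lit 41943041) (nat_lit 20637024270) (.one (nat_lit 203423767) .nil),
   .two (nat_lit 156372041729) (nat_lit 46409973775) .nil,
   .two (nat_lit 8388609) (nat_lit 10370416648) (.one (nat_lit 46508539954) .nil),
   .two (nat_lit 16777217) (nat_lit 203423759) .nil,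
   .two (nat_lit 37748737) (nat_lit 41943048) (.one (nat_lit 1182793779) .nil),
   .two (nat_lit 8388609) (nat_lit 19596836872) (.one (nat_lit 156566028314) .nil),
   .two (nat_lit 41943041) (nat_lit 158144135173) (.two (nat_lit 8388608) (nat_lit 10370416655) .nil),
   .two (nat_lit 8388609) (nat_lit 169869320) (.one (nat_lit 3020947500) .nil),
   .two (nat_lit 41943041) (nat_lit 1343225861) (.one (nat_lit 269484054) .nil),
   .two (nat_lit 620756993) (nat_lit 2889875461) (.one (nat_lit 4634705939) .nil),
   .two (nat_lit 2097153) (nat_lit 46980399109) (.one (nat_lit 3527409683) .nil),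
   .two (nat_lit 156364701697) (nat_lit 18933088261) (.one (nat_lit 156372041747) .nil),
   .two (nat_lit 41943041) (nat_lit 46980399109) (.one (nat_lit 3527409683) .nil),
   .two (nat_lit 156372041729) (nat_lit 21777874949) (.two (nat_lit 8388608) (nat_lit 3020947470) (.one (nat_lit 1048629) .nil)),
   .two (nat_lit 37748737) (nat_lit 9781116933) (.one (nat_lit 19142803475) .nil),
   .two (nat_lit 41943041) (nat_lit 1175453699) (.two (nat_lit 1048576) (nat_lit 8388616) (.one (nat_lit 11618222108) .nil)),
   .two (nat_lit 2097153) (nat_lit 21207449605) (.one (nat_lit 158143086611) .nil),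
   .two (nat_lit 4194305) (nat_lit 20644364293) (.one (nat_lit 10506731539) .nil),
   .two (nat_lit 2097153) (nat_lit 19529728003) (.two (nat_lit 2097152) (nat_lit 11610882058) (.one (nat_lit 1048632) .nil)),
   .two (nat_lit 9765388289) (nat_lit 183848927237) (.one (nat_lit 20640170006) .nil),
   .two (nat_lit 4194305) (nat_lit 20638072835) (.two (nat_lit 2097152) (nat_lit 2353004553) (.one (nat_lit 4194361) .nil)),
   .two (nat_lit 34603009) (nat_lit 165526110211) (.two (nat_lit 1048576) (nat_lit 174686470157) (.one (nat_lit 2097210) .nil)),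
   .two (nat_lit 50331649) (nat_lit 28757196805) (.two (nat_lit 2097152) (nat_lit 12147752974) (.one (nat_lit 11543773237) .nil)),
   .two (nat_lit 9781116929) (nat_lit 21208498181) (.one (nat_lit 158144135187) .nil),
   .two (nat_lit 37748737) (nat_lit 9766436867) (.two (nat_lit 4194304) (nat_lit 1847590925) (.one (nat_lit 3525312568) .nil)),
   .two (nat_lit 2097153) (nat_lit 183853121539) (.two (nat_lit 1048576) (nat_lit 606076942) (.one (nat_lit 2097211) .nil)),
   .two (nat_lit 4194305) (nat_lit 20644364291) (.two (nat_lit 1048576) (nat_lit 19029557261) (.one (nat_lit 183916036151) .nil)),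
   .two (nat_lit 41943041) (nat_lit 169869315) (.two (nat_lit 8388608) (nat_lit 12115247118) (.one (nat_lit 2097212) .nil)),
   .two (nat_lit 34603009) (nat_lit 1176502275) (.two (nat_lit 8388608) (nat_lit 156969730062) (.one (nat_lit 2418016308) .nil)),
   .two (nat_lit 34603009) (nat_lit 166130089987) (.two (nat_lit 1048576) (nat_lit 158077026313) (.one (nat_lit 236978236) .nil)),
   .two (nat_lit 4194305) (nat_lit 1175453699) (.two (nat_lit 4194304) (nat_lit 183845781513) (.one (nat_lit 1048637) .nil)),
   .two (nat_lit 41943041) (nat_lit 158075977733) (.one (nat_lit 1376780307) .nil),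
   .two (nat_lit 41943041) (nat_lit 21777874949) (.one (nat_lit 158075977747) .nil),
   .two (nat_lit 41943041) (nat_lit 721420292) (.two (nat_lit 8388608) (nat_lit 721420296) (.one (nat_lit 117440529) .nil)),
   .two (nat_lit 50331649) (nat_lit 176160772) (.two (nat_lit 16777216) (nat_lit 47555018760) (.one (nat_lit 4605345808) .nil)),
   .two (nat_lit 8388609) (nat_lit 156364701699) (.two (nat_lit 8388608) (nat_lit 20737687566) (.one (nat_lit 9933160501) .nil)),
   .two (nat_lit 34603009) (nat_lit 20638072835) (.two (nat_lit 1048576) (nat_lit 28691136521) (.one (nat_lit 183913938998) .nil)),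
   .two (nat_lit 4194308) (nat_lit 806354949) (.two (nat_lit 2097153) (nat_lit 605028364) (.two (nat_lit 1048576) (nat_lit 606076943) (.one (nat_lit 705691711) .nil))),
   .two (nat_lit 2097157) (nat_lit 166132187139) (.two (nat_lit 9768534017) (nat_lit 169869320) (.two (nat_lit 1048576) (nat_lit 2097180) (.one (nat_lit 4194379) .nil))),
   .two (nat_lit 158144135173) (nat_lit 9768534019) (.two (nat_lit 156365750273) (nat_lit 1178599432) (.two (nat_lit 2097152) (nat_lit 1178599439) (.one (nat_lit 2889875522) .nil))),
   .two (nat_lit 169869316) (nat_lit 1276116995) (.two (nat_lit 606076929) (nat_lit 1343225864) (.two (nat_lit 1048576) (nat_lit 35651595) (.one (nat_lit 1048642) .nil))),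
   .two (nat_lit 8388612) (nat_lit 705691651) (.two (nat_lit 41943041) (nat_lit 739246088) (.two (nat_lit 8388608) (nat_lit 739246095) (.one (nat_lit 1048652) .nil))),
   .two (nat_lit 41943045) (nat_lit 69206021) (.two (nat_lit 37748737) (nat_lit 9766436872) (.two (nat_lit 4194304) (nat_lit 11551113235) (.one (nat_lit 8388685) .nil))),
   .two (nat_lit 169869316) (nat_lit 1276116995) (.two (nat_lit 605028353) (nat_lit 9934209032) (.two (nat_lit 1048576) (nat_lit 606076952) (.one (nat_lit 47547678787) .nil))),
   .two (nat_lit 8388612) (nat_lit 1277165571) (.two (nat_lit 8388609) (nat_lit 10370416648) (.two (nat_lit 2097152) (nat_lit 41943055) (.one (nat_lit 1847590949) .nil))),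
   .two (nat_lit 169869316) (nat_lit 75497475) (.two (nat_lit 612368385) (nat_lit 9934209032) (.two (nat_lit 8388608) (nat_lit 9934209039) (.one (nat_lit 1310720037) .nil))),
   .two (nat_lit 8388613) (nat_lit 165528207363) (.two (nat_lit 620756993) (nat_lit 176160776) (.two (nat_lit 16777216) (nat_lit 2894069776) (.one (nat_lit 184989777994) .nil))),
   .two (nat_lit 184549379) (nat_lit 156365750275) (.two (nat_lit 156365750273) (nat_lit 16777223) (.two (nat_lit 2097152) (nat_lit 16777245) (.one (nat_lit 10015997988) .nil))),
   .two (nat_lit 169869316) (nat_lit 9768534019) (.two (nat_lit 9768534017) (nat_lit 169869318) (.two (nat_lit 2097152) (nat_lit 11479810067) (.one (nat_lit 203423813) .nil))),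
   .two (nat_lit 156372041733) (nat_lit 20637024258) (.one (nat_lit 174752530451) .nil),
   .two (nat_lit 713031684) (nat_lit 606076931) (.two (nat_lit 606076929) (nat_lit 21785214984) (.two (nat_lit 2097152) (nat_lit 159224168473) (.one (nat_lit 20705181767) .nil))),
   .two (nat_lit 721420291) (nat_lit 18933088259) (.two (nat_lit 156372041729) (nat_lit 11559501831) (.two (nat_lit 8388608) (nat_lit 754974735) (.one (nat_lit 1191182407) .nil))),
   .two (nat_lit 20644364292) (nat_lit 166130089987) (.two (nat_lit 9766436865) (nat_lit 28093448200) (.two (nat_lit 2097152) (nat_lit 1753219087) (.one (nat_lit 184993972262) .nil))),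
   .two (nat_lit 4194308) (nat_lit 11476664323) (.two (nat_lit 37748737) (nat_lit 11543773192) (.two (nat_lit 1048576) (nat_lit 608174091) (.one (nat_lit 46406828114) .nil))),
   .two (nat_lit 41943045) (nat_lit 34603011) (.two (nat_lit 612368385) (nat_lit 2887778312) (.two (nat_lit 1048576) (nat_lit 2954887195) (.one (nat_lit 8388696) .nil))),
   .two (nat_lit 705691651) (nat_lit 1277165571) (.two (nat_lit 34603009) (nat_lit 9934209031) (.two (nat_lit 1048576) (nat_lit 9934209039) (.one (nat_lit 10370416676) .nil))),
   .two (nat_lit 2887778307) (nat_lit 1343225863) (.two (nat_lit 2097152) (nat_lit 11543773219) (.one (nat_lit 1343225895) .nil)),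
   .two (nat_lit 1276116994) (nat_lit 169869318) (.two (nat_lit 2097153) (nat_lit 9866051603) (.two (nat_lit 1048576) (nat_lit 9799991316) (.one (nat_lit 2097244) .nil))),
   .two (nat_lit 18933088259) (nat_lit 1746927623) (.two (nat_lit 4194304) (nat_lit 19109249063) (.one (nat_lit 19109249063) .nil)),
   .two (nat_lit 1175453699) (nat_lit 156372041735) (.two (nat_lit 2097152) (nat_lit 9806282791) (.one (nat_lit 9806282791) .nil)),
   .two (nat_lit 4194307) (nat_lit 12114198535) (.two (nat_lit 8388608) (nat_lit 101711908) (.one (nat_lit 10369368104) .nil)),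
   .two (nat_lit 705691650) (nat_lit 205520905) (.two (nat_lit 34603009) (nat_lit 9768534027) (.two (nat_lit 1048576) (nat_lit 339738642) (.one (nat_lit 1048669) .nil))),
   .two (nat_lit 11492392963) (nat_lit 19596836871) (.two (nat_lit 4194304) (nat_lit 13237223463) (.one (nat_lit 13237223463) .nil)),
   .two (nat_lit 270532615) (nat_lit 272629767) (.two (nat_lit 2097152) (nat_lit 11543773223) .nil),
   .two (nat_lit 1753219079) (nat_lit 1913651207) (.two (nat_lit 1048576) (nat_lit 46414168103) .nil),
   .two (nat_lit 37748743) (nat_lit 11559501831) (.two (nat_lit 4194304) (nat_lit 11611930664) .nil),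
   .two (nat_lit 156372041735) (nat_lit 174755676167) (.two (nat_lit 8388608) (nat_lit 3003121704) .nil),
   .two (nat_lit 654311431) (nat_lit 156367847431) (.two (nat_lit 4194304) (nat_lit 10385096743) .nil),
   .two (nat_lit 37748737) (nat_lit 1343225861) (.two (nat_lit 2097152) (nat_lit 605028394) .nil),
   .two (nat_lit 8388609) (nat_lit 705691671) .nil,
   .two (nat_lit 8388609) (nat_lit 169869336) .nil,
   .two (nat_lit 41943041) (nat_lit 705691671) .nil,
   .two (nat_lit 41943041) (nat_lit 169869336) .nil,
   .two (nat_lit 41943041) (nat_lit 4194328) .nil,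
   .two (nat_lit 2097153) (nat_lit 809500677) (.two (nat_lit 4194304) (nat_lit 2954887176) (.one (nat_lit 708837418) .nil)),
   .two (nat_lit 8388609) (nat_lit 809500696) .nil,
   .two (nat_lit 2097153) (nat_lit 822083589) (.two (nat_lit 1048576) (nat_lit 166144770093) .nil),
   .two (nat_lit 2097153) (nat_lit 158176641047) .nil,
   .two (nat_lit 16777217) (nat_lit 1343225861) (.two (nat_lit 1048576) (nat_lit 50331656) (.one (nat_lit 28772925483) .nil)),
   .two (nat_lit 37748737) (nat_lit 46474985495) .nil,
   .two (nat_lit 34603009) (nat_lit 46414168068) (.two (nat_lit 4194304) (nat_lit 839909421) .nil),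
   .two (nat_lit 605028353) (nat_lit 10519314440) (.one (nat_lit 158176641071) .nil),
   .two (nat_lit 156372041729) (nat_lit 205520922) .nil,
   .two (nat_lit 2097153) (nat_lit 12117344261) (.two (nat_lit 1048576) (nat_lit 1377828877) (.one (nat_lit 4194400) .nil)),
   .two (nat_lit 606076929) (nat_lit 3565158425) .nil,
   .two (nat_lit 41943041) (nat_lit 2988441624) .nil,
   .two (nat_lit 605028353) (nat_lit 185027526680) .nil,
   .two (nat_lit 606076929) (nat_lit 104857625) .nil,
   .two (nat_lit 9766436865) (nat_lit 21785214981) (.two (nat_lit 1048576) (nat_lit 11584667672) .nil),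
   .two (nat_lit 2097153) (nat_lit 612368392) (.one (nat_lit 2988441647) .nil),
   .two (nat_lit 156365750273) (nat_lit 3565158425) .nil,
   .two (nat_lit 2097153) (nat_lit 46489665560) .nil,
   .two (nat_lit 605028353) (nat_lit 19604176920) .nil,
   .two (nat_lit 34603009) (nat_lit 1210056729) .nil,
   .two (nat_lit 34603009) (nat_lit 158177689623) .nil,
   .two (nat_lit 2097153) (nat_lit 20737687576) .nil,
   .two (nat_lit 16777217) (nat_lit 12121538585) .nil,
   .two (nat_lit 156367847425) (nat_lit 156533522444) (.one (nat_lit 2418016305) .nil),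
   .two (nat_lit 4194305) (nat_lit 11577327642) .nil,
   .two (nat_lit 156364701697) (nat_lit 136314905) .nil,
   .two (nat_lit 2097153) (nat_lit 183848927236) (.two (nat_lit 8388608) (nat_lit 270532655) .nil),
   .two (nat_lit 156372041729) (nat_lit 185020186650) .nil,
   .two (nat_lit 34603009) (nat_lit 1753219084) (.one (nat_lit 4638900271) .nil),
   .two (nat_lit 4194305) (nat_lit 236978201) .nil,
   .two (nat_lit 34603009) (nat_lit 183853121562) .nil,
   .two (nat_lit 41943041) (nat_lit 3460300823) .nil,
   .two (nat_lit 156372041729) (nat_lit 2416967692) (.one (nat_lit 1913651244) .nil),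
   .two (nat_lit 9765388289) (nat_lit 174686470157) (.one (nat_lit 12114198552) .nil),
   .two (nat_lit 16777217) (nat_lit 343932940) (.one (nat_lit 174759870511) .nil),
   .two (nat_lit 612368385) (nat_lit 673185804) (.one (nat_lit 304087089) .nil),
   .two (nat_lit 156365750273) (nat_lit 37313576972) (.one (nat_lit 10503585841) .nil),
   .two (nat_lit 8388609) (nat_lit 10504634373) (.two (nat_lit 2097152) (nat_lit 8388616) (.one (nat_lit 1210056749) .nil)),
   .two (nat_lit 9781116929) (nat_lit 13224640536) .nil,
   .two (nat_lit 606076929) (nat_lit 11492392964) (.two (nat_lit 1048576) (nat_lit 13188988977) .nil),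
   .two (nat_lit 2097153) (nat_lit 2316304398) (.one (nat_lit 11618222129) .nil),
   .two (nat_lit 9768534017) (nat_lit 2416967692) (.one (nat_lit 1410334767) .nil),
   .two (nat_lit 8388609) (nat_lit 183949590554) .nil,
   .two (nat_lit 4194305) (nat_lit 318767127) .nil,
   .two (nat_lit 4194305) (nat_lit 1929379864) .nil,
   .two (nat_lit 16777217) (nat_lit 236978189) (.one (nat_lit 2097250) .nil),
   .two (nat_lit 9766436865) (nat_lit 184549400) .nil,
   .two (nat_lit 41943041) (nat_lit 158176641049) .nil,
   .two (nat_lit 4194305) (nat_lit 185002360857) .nil,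
   .two (nat_lit 34603009) (nat_lit 11014242329) .nil,
   .two (nat_lit 8388609) (nat_lit 822083589) (.two (nat_lit 16777216) (nat_lit 158083317768) (.one (nat_lit 9948889137) .nil)),
   .two (nat_lit 4194305) (nat_lit 1947205657) .nil,
   .two (nat_lit 9768534017) (nat_lit 11618222105) .nil,
   .two (nat_lit 16777217) (nat_lit 236978189) (.one (nat_lit 11477712942) .nil),
   .two (nat_lit 156367847425) (nat_lit 47582281753) .nil,
   .two (nat_lit 2097153) (nat_lit 20719861783) .nil,
   .two (nat_lit 16777217) (nat_lit 813695002) .nil,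
   .two (nat_lit 605028353) (nat_lit 2902458372) (.two (nat_lit 2097152) (nat_lit 10503585836) .nil),
   .two (nat_lit 156367847425) (nat_lit 184549381) (.two (nat_lit 4194304) (nat_lit 20652752921) .nil),
   .two (nat_lit 16777217) (nat_lit 641728537) .nil,
   .two (nat_lit 9781116929) (nat_lit 1916796940) (.one (nat_lit 11546918961) .nil),
   .two (nat_lit 8388609) (nat_lit 822083609) .nil,
   .two (nat_lit 605028353) (nat_lit 159224168453) (.two (nat_lit 1048576) (nat_lit 156372041740) (.one (nat_lit 109051936) .nil)),
   .two (nat_lit 169869316) (nat_lit 1779433480) (.two (nat_lit 1048576) (nat_lit 169869336) (.one (nat_lit 705691749) .nil)),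
   .two (nat_lit 4194308) (nat_lit 2887778308) (.two (nat_lit 2097153) (nat_lit 272629768) (.two (nat_lit 2097152) (nat_lit 4194328) (.one (nat_lit 169869416) .nil))),
   .two (nat_lit 2902458372) (nat_lit 11476664324) (.two (nat_lit 16777217) (nat_lit 1913651208) (.two (nat_lit 1048576) (nat_lit 117440537) (.one (nat_lit 166129041528) .nil))),
   .two (nat_lit 2889875460) (nat_lit 28690087941) (.two (nat_lit 4194305) (nat_lit 303038478) (.two (nat_lit 1048576) (nat_lit 3560964120) (.one (nat_lit 11479810161) .nil))),
   .two (nat_lit 169869316) (nat_lit 2889875460) (.two (nat_lit 2097153) (nat_lit 272629768) (.two (nat_lit 4194304) (nat_lit 158144135193) (.one (nat_lit 639631472) .nil))),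
   .two (nat_lit 285212677) (nat_lit 1779433477) (.two (nat_lit 16777217) (nat_lit 1048590) (.two (nat_lit 1048576) (nat_lit 184549401) (.one (nat_lit 16777346) .nil))),
   .two (nat_lit 169869316) (nat_lit 21207449605) (.two (nat_lit 2097153) (nat_lit 46473936910) (.two (nat_lit 1048576) (nat_lit 10001317912) (.one (nat_lit 10504634490) .nil))),
   .two (nat_lit 8388613) (nat_lit 2889875461) (.two (nat_lit 4194305) (nat_lit 176160776) (.two (nat_lit 4194304) (nat_lit 46414168089) (.one (nat_lit 310378610) .nil))),
   .two (nat_lit 705691652) (nat_lit 18928893955) (.two (nat_lit 156367847425) (nat_lit 11543773192) (.two (nat_lit 8388608) (nat_lit 806354960) (.one (nat_lit 19096666186) .nil))),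
   .two (nat_lit 606076931) (nat_lit 713031683) (.two (nat_lit 41943041) (nat_lit 9934209031) (.two (nat_lit 8388608) (nat_lit 1847590939) (.one (nat_lit 2097289) .nil))),
   .two (nat_lit 158075977733) (nat_lit 166132187139) (.two (nat_lit 34603009) (nat_lit 1749024777) (.two (nat_lit 1048576) (nat_lit 3527409683) (.one (nat_lit 4194442) .nil))),
   .two (nat_lit 46980399109) (nat_lit 2887778306) (.one (nat_lit 3527409683) .nil),
   .two (nat_lit 21777874949) (nat_lit 156372041731) (.two (nat_lit 605028353) (nat_lit 156372041735) (.two (nat_lit 8388608) (nat_lit 1048628) (.one (nat_lit 1048715) .nil))),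
   .two (nat_lit 605028357) (nat_lit 20644364292) (.one (nat_lit 156535619603) .nil),
   .two (nat_lit 605028357) (nat_lit 20644364292) (.one (nat_lit 11513364502) .nil),
   .two (nat_lit 184549380) (nat_lit 1277165571) (.two (nat_lit 606076929) (nat_lit 620757000) (.two (nat_lit 2097152) (nat_lit 352321564) (.one (nat_lit 620757133) .nil))),
   .two (nat_lit 2887778307) (nat_lit 183853121539) (.two (nat_lit 2097153) (nat_lit 13195280391) (.two (nat_lit 8388608) (nat_lit 47582281755) (.one (nat_lit 2418016390) .nil))),
   .two (nat_lit 16777220) (nat_lit 11479810051) (.two (nat_lit 37748737) (nat_lit 4613734408) (.two (nat_lit 1048576) (nat_lit 3036676124) (.one (nat_lit 12062818437) .nil))),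
   .two (nat_lit 184549380) (nat_lit 1277165571) (.two (nat_lit 606076929) (nat_lit 2969567240) (.two (nat_lit 2097152) (nat_lit 285212688) (.one (nat_lit 16777360) .nil))),
   .two (nat_lit 46409973762) (nat_lit 705691651) (.two (nat_lit 34603009) (nat_lit 339738634) (.two (nat_lit 1048576) (nat_lit 46409973779) (.one (nat_lit 1048721) .nil))),
   .two (nat_lit 184419352581) (nat_lit 68157443) (.two (nat_lit 605028353) (nat_lit 843055116) (.two (nat_lit 1048576) (nat_lit 13191086095) (.one (nat_lit 183949590565) .nil))),
   .two (nat_lit 184549380) (nat_lit 20638072835) (.two (nat_lit 606076929) (nat_lit 2969567240) (.two (nat_lit 2097152) (nat_lit 2969567247) (.one (nat_lit 654311490) .nil))),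
   .two (nat_lit 9866051589) (nat_lit 156365750275) (.two (nat_lit 605028353) (nat_lit 10336862216) (.two (nat_lit 8388608) (nat_lit 10000269384) (.one (nat_lit 10000269384) .nil))),
   .two (nat_lit 183853121540) (nat_lit 1846542341) (.two (nat_lit 605028353) (nat_lit 156372041736) (.two (nat_lit 1048576) (nat_lit 159224168459) (.one (nat_lit 8388755) .nil))),
   .two (nat_lit 705691652) (nat_lit 166132187140) (.two (nat_lit 34603009) (nat_lit 166132187142) (.two (nat_lit 1048576) (nat_lit 12117344267) (.one (nat_lit 28790751310) .nil))),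
   .two (nat_lit 721420292) (nat_lit 2887778308) (.two (nat_lit 2097153) (nat_lit 721420294) (.two (nat_lit 2097152) (nat_lit 16777227) (.one (nat_lit 16777294) .nil))),
   .two (nat_lit 2889875459) (nat_lit 20638072835) (.two (nat_lit 606076929) (nat_lit 3527409671) (.two (nat_lit 2097152) (nat_lit 158179786784) (.one (nat_lit 183949590600) .nil))),
   .two (nat_lit 1745879045) (nat_lit 165526110211) (.two (nat_lit 156365750273) (nat_lit 28086108168) (.two (nat_lit 2097152) (nat_lit 165525061656) (.one (nat_lit 159216828485) .nil))),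
   .two (nat_lit 183845781508) (nat_lit 8388611) (.two (nat_lit 8388609) (nat_lit 184416206856) (.two (nat_lit 8388608) (nat_lit 1745879055) (.one (nat_lit 1048661) .nil))),
   .two (nat_lit 11476664324) (nat_lit 9781116931) (.two (nat_lit 9781116929) (nat_lit 1913651208) (.two (nat_lit 16777216) (nat_lit 46507491376) (.one (nat_lit 2886729806) .nil))),
   .two (nat_lit 16777220) (nat_lit 68157443) (.two (nat_lit 605028353) (nat_lit 822083592) (.two (nat_lit 1048576) (nat_lit 184431935513) (.one (nat_lit 101711946) .nil))),
   .two (nat_lit 47548727301) (nat_lit 183848927235) (.two (nat_lit 37748737) (nat_lit 3458203656) (.two (nat_lit 4194304) (nat_lit 4028629015) (.one (nat_lit 1411383376) .nil))),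
   .two (nat_lit 2954887173) (nat_lit 46409973763) (.two (nat_lit 2097153) (nat_lit 4601151495) (.two (nat_lit 4194304) (nat_lit 2097212) (.one (nat_lit 2097309) .nil))),
   .two (nat_lit 272629765) (nat_lit 18933088259) (.two (nat_lit 156372041729) (nat_lit 2889875464) (.two (nat_lit 8388608) (nat_lit 2889875471) (.one (nat_lit 10510925943) .nil))),
   .two (nat_lit 639631365) (nat_lit 28705816581) (.two (nat_lit 50331649) (nat_lit 639631373) (.two (nat_lit 8388608) (nat_lit 183928619027) (.one (nat_lit 11618222218) .nil))),
   .two (nat_lit 83886085) (nat_lit 1914699781) (.two (nat_lit 41943041) (nat_lit 185002360840) (.two (nat_lit 2097152) (nat_lit 16777227) (.one (nat_lit 2097310) .nil))),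
   .two (nat_lit 159224168453) (nat_lit 19596836869) (.two (nat_lit 612368385) (nat_lit 68157449) (.two (nat_lit 1048576) (nat_lit 41943051) (.one (nat_lit 1048735) .nil))),
   .two (nat_lit 612368387) (nat_lit 156367847427) (.two (nat_lit 612368385) (nat_lit 156367847431) (.two (nat_lit 8388608) (nat_lit 1346371616) (.one (nat_lit 9936306250) .nil))),
   .two (nat_lit 83886083) (nat_lit 18925748227) (.two (nat_lit 156364701697) (nat_lit 1358954503) (.two (nat_lit 1048576) (nat_lit 1358954526) (.one (nat_lit 46489665606) .nil))),
   .two (nat_lit 183853121538) (nat_lit 1277165571) (.two (nat_lit 606076929) (nat_lit 9940500489) (.two (nat_lit 2097152) (nat_lit 47555018774) (.one (nat_lit 1277165722) .nil))),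
   .two (nat_lit 169869314) (nat_lit 1175453699) (.two (nat_lit 606076929) (nat_lit 11476664326) (.two (nat_lit 1048576) (nat_lit 740294678) (.one (nat_lit 19127074977) .nil))),
   .two (nat_lit 166132187138) (nat_lit 176160771) (.two (nat_lit 8388609) (nat_lit 4194313) (.two (nat_lit 4194304) (nat_lit 41943051) (.one (nat_lit 10007609487) .nil))),
   .two (nat_lit 11479810052) (nat_lit 184986632197) (.two (nat_lit 34603009) (nat_lit 11479810056) (.two (nat_lit 1048576) (nat_lit 9936306198) (.one (nat_lit 4194456) .nil))),
   .two (nat_lit 285212677) (nat_lit 165526110211) (.two (nat_lit 156365750273) (nat_lit 2902458376) (.two (nat_lit 2097152) (nat_lit 50331663) (.one (nat_lit 16777348) .nil))),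
   .two (nat_lit 4194308) (nat_lit 11476664328) (.two (nat_lit 9765388289) (nat_lit 606076943) (.two (nat_lit 2097152) (nat_lit 46409973797) (.one (nat_lit 2956984486) .nil))),
   .two (nat_lit 2889875459) (nat_lit 159217876999) (.two (nat_lit 2097152) (nat_lit 104857667) (.one (nat_lit 9936306216) .nil)),
   .two (nat_lit 1779433477) (nat_lit 9934209031) (.two (nat_lit 10369368067) (nat_lit 9934209032) (.two (nat_lit 9765388289) (nat_lit 9934209039) (.two (nat_lit 1048576) (nat_lit 2097220) (.one (nat_lit 1048746) .nil)))),
   .two (nat_lit 705691652) (nat_lit 1350565897) (.two (nat_lit 8388609) (nat_lit 1343225871) (.two (nat_lit 8388608) (nat_lit 1048597) (.one (nat_lit 11543773347) .nil))),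
   .two (nat_lit 9881780229) (nat_lit 183845781510) (.two (nat_lit 620756993) (nat_lit 4598005771) (.two (nat_lit 1048576) (nat_lit 4613734418) (.one (nat_lit 1048748) .nil))),
   .two (nat_lit 1277165573) (nat_lit 1343225863) (.two (nat_lit 1276116995) (nat_lit 9934209032) (.two (nat_lit 605028353) (nat_lit 2097179) (.two (nat_lit 1048576) (nat_lit 2097221) (.one (nat_lit 1048749) .nil)))),
   .two (nat_lit 183853121539) (nat_lit 47548727303) (.two (nat_lit 8388608) (nat_lit 2097222) (.one (nat_lit 2097326) .nil)),
   .two (nat_lit 176160772) (nat_lit 11543773191) (.two (nat_lit 612368387) (nat_lit 739246088) (.two (nat_lit 34603009) (nat_lit 176160783) (.two (nat_lit 8388608) (nat_lit 1779433537) (.one (nat_lit 1048670) .nil)))),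
   .two (nat_lit 11479810051) (nat_lit 21777874951) (.two (nat_lit 1048576) (nat_lit 4194375) (.one (nat_lit 1346371624) .nil)),
   .two (nat_lit 69206021) (nat_lit 713031686) (.two (nat_lit 2097153) (nat_lit 104857615) (.two (nat_lit 2097152) (nat_lit 1950351379) (.one (nat_lit 4194479) .nil))),
   .two (nat_lit 75497477) (nat_lit 606076935) (.two (nat_lit 2097152) (nat_lit 8388680) (.one (nat_lit 104857639) .nil)),
   .two (nat_lit 4194307) (nat_lit 159224168455) (.two (nat_lit 8388608) (nat_lit 675283011) (.one (nat_lit 608174120) .nil)),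
   .two (nat_lit 156365750275) (nat_lit 2969567239) (.two (nat_lit 2097152) (nat_lit 16777289) (.one (nat_lit 21793603624) .nil)),
   .two (nat_lit 713031684) (nat_lit 1779433480) (.two (nat_lit 41943041) (nat_lit 10369368088) (.two (nat_lit 8388608) (nat_lit 9933160517) (.one (nat_lit 9772728487) .nil))),
   .two (nat_lit 713031685) (nat_lit 806354951) (.two (nat_lit 2097155) (nat_lit 41943048) (.two (nat_lit 2097153) (nat_lit 41943055) (.two (nat_lit 2097152) (nat_lit 9940500556) (.one (nat_lit 606077022) .nil)))),
   .two (nat_lit 20638072835) (nat_lit 2969567240) (.two (nat_lit 2097152) (nat_lit 2969567271) (.one (nat_lit 2969567271) .nil)),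
   .two (nat_lit 8388612) (nat_lit 183845781510) (.two (nat_lit 612368385) (nat_lit 269484043) (.two (nat_lit 1048576) (nat_lit 276824082) (.one (nat_lit 168820907) .nil))),
   .two (nat_lit 19530776581) (nat_lit 19596836871) (.two (nat_lit 19529728003) (nat_lit 157036838920) (.two (nat_lit 156364701697) (nat_lit 157036838927) (.two (nat_lit 1048576) (nat_lit 2097231) (.one (nat_lit 46977253545) .nil)))),
   .two (nat_lit 10504634373) (nat_lit 638582791) (.two (nat_lit 1048576) (nat_lit 159217877066) (.one (nat_lit 813695015) .nil)),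
   .two (nat_lit 612368387) (nat_lit 28086108168) (.two (nat_lit 8388608) (nat_lit 158646403111) (.one (nat_lit 158646403111) .nil)),
   .two (nat_lit 156367847429) (nat_lit 11551113224) (.two (nat_lit 156367847425) (nat_lit 1780482063) (.two (nat_lit 2097152) (nat_lit 612368421) (.one (nat_lit 158177689765) .nil))),
   .two (nat_lit 11546918917) (nat_lit 184993972231) (.two (nat_lit 708837379) (nat_lit 184993972232) (.two (nat_lit 606076929) (nat_lit 183920230416) (.two (nat_lit 2097152) (nat_lit 28798091330) (.one (nat_lit 2317353054) .nil)))),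
   .two (nat_lit 101711877) (nat_lit 156372041735) (.two (nat_lit 18933088259) (nat_lit 19093520396) (.two (nat_lit 605028353) (nat_lit 46414168079) (.two (nat_lit 1048576) (nat_lit 46414168098) (.one (nat_lit 28697428062) .nil)))),
   .two (nat_lit 4194308) (nat_lit 46407876614) (.two (nat_lit 4194305) (nat_lit 10504634379) (.two (nat_lit 4194304) (nat_lit 3021996050) (.one (nat_lit 28760342704) .nil))),
   .two (nat_lit 2887778307) (nat_lit 28757196807) (.two (nat_lit 2097152) (nat_lit 1048662) (.one (nat_lit 68157480) .nil)),
   .two (nat_lit 9765388293) (nat_lit 37748744) (.two (nat_lit 8388609) (nat_lit 705691663) (.two (nat_lit 8388608) (nat_lit 705691711) (.one (nat_lit 2097330) .nil))),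
   .two (nat_lit 8388611) (nat_lit 34603015) (.two (nat_lit 2097152) (nat_lit 20704133187) (.one (nat_lit 1175453735) .nil)),
   .two (nat_lit 4194308) (nat_lit 1350565898) (.two (nat_lit 8388609) (nat_lit 809500687) (.two (nat_lit 4194304) (nat_lit 612368403) (.one (nat_lit 4194483) .nil))),
   .two (nat_lit 4194308) (nat_lit 2887778310) (.two (nat_lit 9766436865) (nat_lit 608174091) (.two (nat_lit 4194304) (nat_lit 169869330) (.one (nat_lit 4194484) .nil))),
   .two (nat_lit 605028357) (nat_lit 612368391) (.two (nat_lit 8388608) (nat_lit 839909457) (.one (nat_lit 205520935) .nil)),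
   .two (nat_lit 4194308) (nat_lit 1343225867) (.two (nat_lit 4194305) (nat_lit 739246099) (.one (nat_lit 4194485) .nil)),
   .two (nat_lit 158077026312) (nat_lit 19604176903) (.two (nat_lit 4194304) (nat_lit 19109249063) .nil),
   .two (nat_lit 272629768) (nat_lit 1746927623) (.two (nat_lit 16777216) (nat_lit 9936306216) .nil),
   .two (nat_lit 183853121538) (nat_lit 9936306187) (.two (nat_lit 37748737) (nat_lit 2961178642) (.one (nat_lit 10372513977) .nil)),
   .two (nat_lit 9940500488) (nat_lit 10504634375) (.two (nat_lit 4194304) (nat_lit 645922856) .nil),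
   .two (nat_lit 50331656) (nat_lit 159216828423) (.two (nat_lit 4194304) (nat_lit 889192487) .nil),
   .two (nat_lit 169869314) (nat_lit 9781116939) (.two (nat_lit 2097153) (nat_lit 620757013) (.one (nat_lit 2097339) .nil)),
   .two (nat_lit 183848927234) (nat_lit 9806282772) (.one (nat_lit 4605345981) .nil),
   .two (nat_lit 11476664322) (nat_lit 183853121555) (.one (nat_lit 28086108352) .nil),
   .two (nat_lit 156372041729) (nat_lit 20707278894) .nil,
   .two (nat_lit 34603009) (nat_lit 236978224) .nil,
   .two (nat_lit 16777217) (nat_lit 9900654639) .nil,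
   .two (nat_lit 8388609) (nat_lit 183846830128) .nil,
   .two (nat_lit 9766436865) (nat_lit 746586158) .nil,
   .two (nat_lit 4194305) (nat_lit 10940841997) (.one (nat_lit 2097249) .nil),
   .two (nat_lit 41943041) (nat_lit 47581233200) .nil,
   .two (nat_lit 8388609) (nat_lit 9768534021) (.two (nat_lit 4194304) (nat_lit 12121538603) .nil),
   .two (nat_lit 9766436865) (nat_lit 157038936105) .nil,
   .two (nat_lit 2097153) (nat_lit 21781020718) .nil,
   .two (nat_lit 8388609) (nat_lit 9899606029) (.one (nat_lit 47581233200) .nil),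
   .two (nat_lit 4194305) (nat_lit 9948889093) (.two (nat_lit 16777216) (nat_lit 843055152) .nil),
   .two (nat_lit 37748737) (nat_lit 12062818309) (.two (nat_lit 2097152) (nat_lit 2319450125) (.one (nat_lit 13224640607) .nil)),
   .two (nat_lit 2097153) (nat_lit 12129927182) (.one (nat_lit 156566028334) .nil),
   .two (nat_lit 156365750273) (nat_lit 9802088493) .nil,
   .two (nat_lit 50331649) (nat_lit 71303211) .nil,
   .two (nat_lit 2097153) (nat_lit 310378540) .nil,
   .two (nat_lit 606076929) (nat_lit 46523219981) (.one (nat_lit 16777316) .nil),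
   .two (nat_lit 620756993) (nat_lit 19093520397) (.one (nat_lit 235929699) .nil),
   .two (nat_lit 34603013) (nat_lit 1283457029) (.two (nat_lit 2097153) (nat_lit 9933160461) (.two (nat_lit 2097152) (nat_lit 2956984361) (.one (nat_lit 35651779) .nil))),
   .two (nat_lit 8388613) (nat_lit 705691656) (.two (nat_lit 2097152) (nat_lit 2956984428) .nil),
   .two (nat_lit 8388613) (nat_lit 705691663) (.one (nat_lit 807403717) .nil),
   .two (nat_lit 4194308) (nat_lit 1175453704) (.two (nat_lit 8388608) (nat_lit 68157455) (.one (nat_lit 2956984428) .nil)),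
   .two (nat_lit 4194308) (nat_lit 8388613) (.two (nat_lit 8388609) (nat_lit 606076943) (.one (nat_lit 608174280) .nil)),
   .two (nat_lit 270532613) (nat_lit 809500677) (.two (nat_lit 34603009) (nat_lit 1344274445) (.two (nat_lit 1048576) (nat_lit 708837486) .nil)),
   .two (nat_lit 705691652) (nat_lit 639631365) (.two (nat_lit 605028353) (nat_lit 2954887176) (.two (nat_lit 1048576) (nat_lit 169869336) (.one (nat_lit 1048775) .nil))),
   .two (nat_lit 41943045) (nat_lit 606076936) (.two (nat_lit 4194304) (nat_lit 11484004462) .nil),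
   .two (nat_lit 41943045) (nat_lit 169869316) (.two (nat_lit 41943041) (nat_lit 169869336) (.one (nat_lit 11484004462) .nil)),
   .two (nat_lit 4194308) (nat_lit 2894069765) (.two (nat_lit 8388609) (nat_lit 272629783) (.one (nat_lit 34603206) .nil)),
   .two (nat_lit 169869316) (nat_lit 101711885) (.two (nat_lit 1048576) (nat_lit 2954887183) (.one (nat_lit 270532802) .nil)),
   .two (nat_lit 9933160453) (nat_lit 9934209029) (.two (nat_lit 605028353) (nat_lit 9934209037) (.two (nat_lit 1048576) (nat_lit 9934209065) (.one (nat_lit 705691843) .nil))),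
   .two (nat_lit 705691652) (nat_lit 1782579205) (.two (nat_lit 37748737) (nat_lit 11543773199) (.one (nat_lit 4194414) .nil)),
   .two (nat_lit 272629765) (nat_lit 11476664328) (.two (nat_lit 2097152) (nat_lit 11543773199) (.one (nat_lit 9866051777) .nil)),
   .two (nat_lit 809500677) (nat_lit 11476664328) (.two (nat_lit 1048576) (nat_lit 2954887183) (.one (nat_lit 68157637) .nil)),
   .two (nat_lit 809500677) (nat_lit 101711877) (.two (nat_lit 605028353) (nat_lit 809500685) (.two (nat_lit 1048576) (nat_lit 809500696) (.one (nat_lit 68157636) .nil))),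
   .two (nat_lit 8388613) (nat_lit 68157448) (.two (nat_lit 4194304) (nat_lit 11543773199) (.one (nat_lit 2956984428) .nil)),
   .two (nat_lit 809500677) (nat_lit 1175453704) (.two (nat_lit 4194304) (nat_lit 739246095) (.one (nat_lit 276824174) .nil)),
   .two (nat_lit 705691652) (nat_lit 639631365) (.two (nat_lit 606076929) (nat_lit 739246145) .nil),
   .two (nat_lit 9934209029) (nat_lit 1779433487) (.one (nat_lit 1343225921) .nil),
   .two (nat_lit 809500677) (nat_lit 2887778308) (.two (nat_lit 37748737) (nat_lit 203423759) (.one (nat_lit 9934209127) .nil)),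
   .two (nat_lit 2954887173) (nat_lit 166199296013) (.two (nat_lit 4194304) (nat_lit 2097197) (.one (nat_lit 2097363) .nil)),
   .two (nat_lit 272629765) (nat_lit 1779433477) (.two (nat_lit 34603009) (nat_lit 2889875464) (.two (nat_lit 4194304) (nat_lit 9899606041) (.one (nat_lit 1048788) .nil))),
   .two (nat_lit 9948889093) (nat_lit 10939793413) (.two (nat_lit 605028353) (nat_lit 9781116943) (.one (nat_lit 20704133231) .nil)),
   .two (nat_lit 1277165572) (nat_lit 10506731525) (.two (nat_lit 606076929) (nat_lit 156569174028) (.two (nat_lit 2097152) (nat_lit 1178599439) (.one (nat_lit 4194431) .nil))),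
   .two (nat_lit 11479810053) (nat_lit 12054429701) (.two (nat_lit 4194305) (nat_lit 185027526679) (.one (nat_lit 4194517) .nil)),
   .two (nat_lit 8388613) (nat_lit 4599054341) (.two (nat_lit 2097153) (nat_lit 176160783) (.one (nat_lit 1048790) .nil)),
   .two (nat_lit 157036838917) (nat_lit 158075977733) (.two (nat_lit 34603009) (nat_lit 19530776591) (.one (nat_lit 2886729854) .nil)),
   .two (nat_lit 75497477) (nat_lit 158143086597) (.two (nat_lit 605028353) (nat_lit 612368399) (.one (nat_lit 813695103) .nil)),
   .two (nat_lit 169869316) (nat_lit 2894069765) (.two (nat_lit 8388609) (nat_lit 159217877007) (.one (nat_lit 9899606142) .nil)),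
   .two (nat_lit 639631365) (nat_lit 156364701701) (.two (nat_lit 16777217) (nat_lit 2887778312) (.two (nat_lit 16777216) (nat_lit 2097178) (.one (nat_lit 1048704) .nil))),
   .two (nat_lit 8388613) (nat_lit 157036838917) (.two (nat_lit 50331649) (nat_lit 8388616) (.two (nat_lit 16777216) (nat_lit 185021235326) .nil)),
   .two (nat_lit 8388612) (nat_lit 11546918917) (.two (nat_lit 37748737) (nat_lit 813694984) (.two (nat_lit 16777216) (nat_lit 102760489) (.one (nat_lit 2097281) .nil))),
   .two (nat_lit 11543773189) (nat_lit 11007950860) (.two (nat_lit 1048576) (nat_lit 157036838927) (.one (nat_lit 159251431547) .nil)),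
   .two (nat_lit 171966469) (nat_lit 156372041743) (.one (nat_lit 2416967806) .nil),
   .two (nat_lit 8388612) (nat_lit 2956984325) (.two (nat_lit 4194305) (nat_lit 276824072) (.two (nat_lit 1048576) (nat_lit 4194399) (.one (nat_lit 34603137) .nil))),
   .two (nat_lit 612368389) (nat_lit 157035790341) (.two (nat_lit 16777217) (nat_lit 2961178632) (.two (nat_lit 4194304) (nat_lit 2886729856) .nil)),
   .two (nat_lit 101711877) (nat_lit 46407876612) (.two (nat_lit 2097153) (nat_lit 19093520396) (.two (nat_lit 2097152) (nat_lit 183912890431) .nil)),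
   .two (nat_lit 176160772) (nat_lit 270532613) (.two (nat_lit 2097153) (nat_lit 2961178632) (.two (nat_lit 16777216) (nat_lit 9765388396) .nil)),
   .two (nat_lit 639631365) (nat_lit 156372041740) (.two (nat_lit 2097152) (nat_lit 183853121599) .nil),
   .two (nat_lit 639631365) (nat_lit 183845781508) (.two (nat_lit 34603009) (nat_lit 10370416648) (.two (nat_lit 8388608) (nat_lit 156364701807) .nil)),
   .two (nat_lit 654311429) (nat_lit 184416206863) (.one (nat_lit 156968681537) .nil),
   .two (nat_lit 654311429) (nat_lit 13187940357) (.two (nat_lit 2097153) (nat_lit 11014242316) (.two (nat_lit 8388608) (nat_lit 46473936940) (.one (nat_lit 1048792) .nil))),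
   .two (nat_lit 272629765) (nat_lit 18925748232) (.two (nat_lit 16777216) (nat_lit 185023332471) .nil),
   .two (nat_lit 16777221) (nat_lit 34603013) (.two (nat_lit 2097153) (nat_lit 9966714893) (.two (nat_lit 2097152) (nat_lit 12062818433) .nil)),
   .two (nat_lit 16777220) (nat_lit 203423752) (.two (nat_lit 16777216) (nat_lit 3458203663) (.one (nat_lit 673185909) .nil)),
   .two (nat_lit 16777220) (nat_lit 209715205) (.two (nat_lit 8388609) (nat_lit 822083599) (.one (nat_lit 1209008238) .nil)),
   .two (nat_lit 10336862213) (nat_lit 28690087941) (.two (nat_lit 34603009) (nat_lit 11007950860) (.two (nat_lit 1048576) (nat_lit 157036838927) (.one (nat_lit 184416206956) .nil))),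
   .two (nat_lit 8388612) (nat_lit 19093520398) (.two (nat_lit 4194304) (nat_lit 1175453711) (.one (nat_lit 746586241) .nil)),
   .two (nat_lit 16777220) (nat_lit 203423752) (.two (nat_lit 8388608) (nat_lit 156567076987) .nil),
   .two (nat_lit 285212677) (nat_lit 20638072836) (.two (nat_lit 16777217) (nat_lit 165526110223) (.one (nat_lit 1377828975) .nil)),
   .two (nat_lit 2954887173) (nat_lit 19142803469) (.two (nat_lit 16777216) (nat_lit 2097199) (.one (nat_lit 2097369) .nil)),
   .two (nat_lit 46414168068) (nat_lit 12047089669) (.two (nat_lit 34603009) (nat_lit 156372041743) (.one (nat_lit 28690088044) .nil)),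
   .two (nat_lit 4194308) (nat_lit 1358954501) (.two (nat_lit 620756993) (nat_lit 13191086095) (.one (nat_lit 50331774) .nil)),
   .two (nat_lit 47555018757) (nat_lit 10504634373) (.two (nat_lit 9766436865) (nat_lit 46414168079) (.one (nat_lit 679477449) .nil)),
   .two (nat_lit 176160772) (nat_lit 46978301957) (.two (nat_lit 2097153) (nat_lit 612368399) (.one (nat_lit 11477713011) .nil)),
   .two (nat_lit 654311429) (nat_lit 21777874949) (.two (nat_lit 612368385) (nat_lit 158176641071) (.one (nat_lit 158176641241) .nil)),
   .two (nat_lit 8388612) (nat_lit 46422556677) (.two (nat_lit 16777217) (nat_lit 41943055) (.one (nat_lit 185020186750) .nil)),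
   .two (nat_lit 11479810052) (nat_lit 183853121551) (.one (nat_lit 2424307835) .nil),
   .two (nat_lit 8388612) (nat_lit 20705181709) (.two (nat_lit 8388608) (nat_lit 69206042) (.one (nat_lit 8388827) .nil)),
   .two (nat_lit 9933160453) (nat_lit 46978301960) (.two (nat_lit 4194304) (nat_lit 18926796911) .nil),
   .two (nat_lit 8388612) (nat_lit 46477082637) (.two (nat_lit 8388608) (nat_lit 605028378) (.one (nat_lit 8388828) .nil)),
   .two (nat_lit 50331653) (nat_lit 10504634376) (.two (nat_lit 16777216) (nat_lit 1847590935) (.one (nat_lit 19597885558) .nil)),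
   .two (nat_lit 270532613) (nat_lit 12117344261) (.two (nat_lit 34603009) (nat_lit 9867100168) (.two (nat_lit 1048576) (nat_lit 10003415166) .nil)),
   .two (nat_lit 171966469) (nat_lit 46414168068) (.two (nat_lit 4194305) (nat_lit 46984593416) (.two (nat_lit 1048576) (nat_lit 4605345839) (.one (nat_lit 672137345) .nil))),
   .two (nat_lit 713031684) (nat_lit 46407876616) (.two (nat_lit 1048576) (nat_lit 8388656) (.one (nat_lit 8388830) .nil)),
   .two (nat_lit 8388613) (nat_lit 13187940357) (.two (nat_lit 2097153) (nat_lit 176160783) (.one (nat_lit 8388831) .nil)),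
   .two (nat_lit 4194308) (nat_lit 3525312520) (.two (nat_lit 16777216) (nat_lit 9766436987) .nil),
   .two (nat_lit 2889875460) (nat_lit 1277165573) (.two (nat_lit 2097153) (nat_lit 9768534031) (.one (nat_lit 12117344381) .nil)),
   .two (nat_lit 2954887173) (nat_lit 21207449605) (.two (nat_lit 2097153) (nat_lit 1376780300) (.two (nat_lit 2097152) (nat_lit 21777874959) (.one (nat_lit 1048801) .nil))),
   .two (nat_lit 46978301957) (nat_lit 10335813637) (.two (nat_lit 2097153) (nat_lit 166229704718) (.two (nat_lit 2097152) (nat_lit 19596836888) (.one (nat_lit 2097378) .nil))),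
   .two (nat_lit 41943045) (nat_lit 13187940357) (.two (nat_lit 34603009) (nat_lit 41943053) (.two (nat_lit 1048576) (nat_lit 639631384) (.one (nat_lit 8388836) .nil))),
   .two (nat_lit 713031685) (nat_lit 272629765) (.two (nat_lit 4194305) (nat_lit 11551113224) (.two (nat_lit 2097152) (nat_lit 1782579242) (.one (nat_lit 4194533) .nil))),
   .two (nat_lit 9934209029) (nat_lit 156372041743) (.one (nat_lit 12048138359) .nil),
   .two (nat_lit 101711877) (nat_lit 156367847437) (.two (nat_lit 16777216) (nat_lit 1048625) (.one (nat_lit 1048806) .nil)),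
   .two (nat_lit 1277165572) (nat_lit 4605345797) (.two (nat_lit 8388609) (nat_lit 10370416655) (.one (nat_lit 19094569090) .nil)),
   .two (nat_lit 169869316) (nat_lit 135266317) (.two (nat_lit 1048576) (nat_lit 47548727311) (.one (nat_lit 874512588) .nil)),
   .two (nat_lit 9934209029) (nat_lit 1913651215) (.one (nat_lit 1175453813) .nil),
   .two (nat_lit 8388613) (nat_lit 10370416645) (.two (nat_lit 2097153) (nat_lit 41943055) (.one (nat_lit 1914699906) .nil)),
   .two (nat_lit 8388613) (nat_lit 174753579013) (.two (nat_lit 9765388289) (nat_lit 1310720014) (.two (nat_lit 1048576) (nat_lit 4599054455) .nil)),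
   .two (nat_lit 9781116933) (nat_lit 47550824453) (.two (nat_lit 4194305) (nat_lit 10385096719) (.one (nat_lit 10942939246) .nil)),
   .two (nat_lit 2902458372) (nat_lit 13191086085) (.two (nat_lit 37748737) (nat_lit 654311432) (.two (nat_lit 2097152) (nat_lit 1782579319) .nil)),
   .two (nat_lit 705691652) (nat_lit 46414168072) (.two (nat_lit 16777216) (nat_lit 174692761711) .nil),
   .two (nat_lit 184549380) (nat_lit 1913651215) (.one (nat_lit 1291845743) .nil),
   .two (nat_lit 4605345797) (nat_lit 10939793413) (.two (nat_lit 605028353) (nat_lit 2927624256) .nil),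
   .two (nat_lit 11543773189) (nat_lit 165528207365) (.two (nat_lit 4194305) (nat_lit 739246088) (.two (nat_lit 8388608) (nat_lit 9936306304) .nil)),
   .two (nat_lit 16777220) (nat_lit 1276117000) (.two (nat_lit 2097152) (nat_lit 10015998000) (.one (nat_lit 16777451) .nil)),
   .two (nat_lit 184549380) (nat_lit 156465365005) (.two (nat_lit 1048576) (nat_lit 184431935531) (.one (nat_lit 47596961994) .nil)),
   .two (nat_lit 41943045) (nat_lit 184416206853) (.two (nat_lit 34603009) (nat_lit 8388616) (.two (nat_lit 1048576) (nat_lit 3464495129) (.one (nat_lit 1048812) .nil))),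
   .two (nat_lit 20638072837) (nat_lit 19532873733) (.two (nat_lit 2097153) (nat_lit 19599982607) (.one (nat_lit 4194542) .nil)),
   .two (nat_lit 12117344261) (nat_lit 174752530447) (.one (nat_lit 9902751863) .nil),
   .two (nat_lit 16777220) (nat_lit 10343153669) (.two (nat_lit 612368385) (nat_lit 285212687) (.one (nat_lit 16777455) .nil)),
   .two (nat_lit 2902458372) (nat_lit 3527409669) (.two (nat_lit 4194305) (nat_lit 654311432) (.two (nat_lit 2097152) (nat_lit 174755676270) .nil)),
   .two (nat_lit 184549380) (nat_lit 184423546888) (.two (nat_lit 2097152) (nat_lit 47588573227) (.one (nat_lit 166237044969) .nil)),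
   .two (nat_lit 2902458372) (nat_lit 46409973765) (.two (nat_lit 4194305) (nat_lit 218103823) (.one (nat_lit 47596961857) .nil)),
   .two (nat_lit 10370416645) (nat_lit 1913651205) (.two (nat_lit 9765388289) (nat_lit 10504634383) (.one (nat_lit 46474985589) .nil)),
   .two (nat_lit 708837381) (nat_lit 1358954501) (.two (nat_lit 606076929) (nat_lit 156569174030) (.two (nat_lit 2097152) (nat_lit 19042140207) (.one (nat_lit 16777457) .nil))),
   .two (nat_lit 285212677) (nat_lit 159217876997) (.two (nat_lit 606076929) (nat_lit 4613734408) (.two (nat_lit 1048576) (nat_lit 304087084) (.one (nat_lit 2097394) .nil))),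
   .two (nat_lit 8388612) (nat_lit 10506731525) (.two (nat_lit 9768534017) (nat_lit 8388616) (.two (nat_lit 4194304) (nat_lit 2894069785) (.one (nat_lit 21814575230) .nil))),
   .two (nat_lit 159217876997) (nat_lit 1216348173) (.two (nat_lit 8388608) (nat_lit 13188988977) (.one (nat_lit 2097395) .nil)),
   .two (nat_lit 10504634373) (nat_lit 12117344261) (.two (nat_lit 37748737) (nat_lit 10538188812) (.two (nat_lit 4194304) (nat_lit 10370416655) (.one (nat_lit 158146232439) .nil))),
   .two (nat_lit 176160772) (nat_lit 46409973764) (.two (nat_lit 8388609) (nat_lit 3527409679) (.one (nat_lit 156569174141) .nil)),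
   .two (nat_lit 20638072837) (nat_lit 166132187140) (.two (nat_lit 2097153) (nat_lit 19599982607) (.one (nat_lit 11513364605) .nil)),
   .two (nat_lit 176160772) (nat_lit 754974735) (.one (nat_lit 10443817075) .nil),
   .two (nat_lit 605028357) (nat_lit 2969567237) (.two (nat_lit 4194305) (nat_lit 1947205646) (.two (nat_lit 16777216) (nat_lit 1212153905) (.one (nat_lit 4194550) .nil))),
   .two (nat_lit 11479810053) (nat_lit 28691136520) (.two (nat_lit 4194304) (nat_lit 28758245391) (.one (nat_lit 10001318094) .nil)),
   .two (nat_lit 10506731525) (nat_lit 28093448197) (.two (nat_lit 41943041) (nat_lit 156569174042) (.one (nat_lit 4194553) .nil)),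
   .two (nat_lit 176160772) (nat_lit 185020186638) (.two (nat_lit 16777216) (nat_lit 10369368079) (.one (nat_lit 8388858) .nil)),
   .two (nat_lit 285212677) (nat_lit 806354949) (.two (nat_lit 2097153) (nat_lit 19529728015) (.one (nat_lit 46992982239) .nil)),
   .two (nat_lit 102760453) (nat_lit 1795162120) (.two (nat_lit 2097152) (nat_lit 12129927218) (.one (nat_lit 16777467) .nil)),
   .two (nat_lit 176160772) (nat_lit 285212677) (.two (nat_lit 16777217) (nat_lit 2961178632) (.two (nat_lit 1048576) (nat_lit 20753416307) .nil)),
   .two (nat_lit 41943045) (nat_lit 339738638) (.two (nat_lit 16777216) (nat_lit 183853121583) (.one (nat_lit 209715441) .nil)),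
   .two (nat_lit 176160772) (nat_lit 2969567237) (.two (nat_lit 16777217) (nat_lit 2961178632) (.two (nat_lit 16777216) (nat_lit 10537140266) (.one (nat_lit 9966715009) .nil))),
   .two (nat_lit 708837381) (nat_lit 1795162127) (.one (nat_lit 2353004654) .nil),
   .two (nat_lit 176160772) (nat_lit 2902458372) (.two (nat_lit 16777217) (nat_lit 47555018760) (.two (nat_lit 2097152) (nat_lit 157043130383) (.one (nat_lit 10955522176) .nil))),
   .two (nat_lit 1178599429) (nat_lit 183853121544) (.two (nat_lit 4194304) (nat_lit 713031695) (.one (nat_lit 20711473357) .nil)),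
   .two (nat_lit 1795162117) (nat_lit 184989777925) (.two (nat_lit 8388609) (nat_lit 2319450153) (.one (nat_lit 9902751972) .nil)),
   .two (nat_lit 13195280389) (nat_lit 339738638) (.two (nat_lit 4194304) (nat_lit 10510925873) (.one (nat_lit 10343153910) .nil)),
   .two (nat_lit 16777220) (nat_lit 2988441614) (.two (nat_lit 8388608) (nat_lit 2432696370) (.one (nat_lit 20652753147) .nil)),
   .two (nat_lit 34603013) (nat_lit 50331653) (.two (nat_lit 34603009) (nat_lit 20738736142) (.two (nat_lit 1048576) (nat_lit 20652752941) (.one (nat_lit 1048829) .nil))),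
   .two (nat_lit 1795162117) (nat_lit 13191086085) (.two (nat_lit 37748737) (nat_lit 28772925448) (.two (nat_lit 8388608) (nat_lit 11614027823) (.one (nat_lit 4194558) .nil))),
   .two (nat_lit 285212677) (nat_lit 11476664324) (.two (nat_lit 16777217) (nat_lit 12114198536) (.two (nat_lit 4194304) (nat_lit 13237223539) .nil)),
   .two (nat_lit 21207449605) (nat_lit 156971827205) (.two (nat_lit 605028353) (nat_lit 157038936076) (.two (nat_lit 1048576) (nat_lit 157038936079) (.one (nat_lit 4194560) .nil))),
   .two (nat_lit 16777220) (nat_lit 2316304398) (.two (nat_lit 8388608) (nat_lit 9798942762) (.one (nat_lit 156380430580) .nil)),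
   .two (nat_lit 10506731525) (nat_lit 156567076878) (.two (nat_lit 2097152) (nat_lit 166232850479) (.one (nat_lit 4194564) .nil)),
   .two (nat_lit 50331653) (nat_lit 166130089989) (.two (nat_lit 2097153) (nat_lit 822083596) (.two (nat_lit 16777216) (nat_lit 157036838927) (.one (nat_lit 156365750396) .nil))),
   .two (nat_lit 16777221) (nat_lit 10504634373) (.two (nat_lit 9766436865) (nat_lit 16777224) (.two (nat_lit 1048576) (nat_lit 11578376318) .nil)),
   .two (nat_lit 4599054341) (nat_lit 18933088261) (.two (nat_lit 8388609) (nat_lit 4632608794) (.one (nat_lit 2349859031) .nil)),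
   .two (nat_lit 612368389) (nat_lit 159216828421) (.two (nat_lit 4194305) (nat_lit 75497480) (.two (nat_lit 1048576) (nat_lit 166237044786) (.one (nat_lit 1350566108) .nil))),
   .two (nat_lit 1291845636) (nat_lit 165526110213) (.two (nat_lit 2097153) (nat_lit 1358954504) (.two (nat_lit 4194304) (nat_lit 12633243674) (.one (nat_lit 1795162320) .nil))),
   .two (nat_lit 166132187138) (nat_lit 50331651) (.two (nat_lit 9768534017) (nat_lit 822083596) (.two (nat_lit 4194304) (nat_lit 721420307) (.one (nat_lit 117440627) .nil))),
   .two (nat_lit 1291845634) (nat_lit 11479810052) (.two (nat_lit 620756993) (nat_lit 11479810056) (.two (nat_lit 16777216) (nat_lit 11479810063) (.one (nat_lit 11546918949) .nil))),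
   .two (nat_lit 8388612) (nat_lit 2902458371) (.two (nat_lit 16777217) (nat_lit 4605345800) (.two (nat_lit 16777216) (nat_lit 343932952) (.one (nat_lit 8388751) .nil))),
   .two (nat_lit 9933160453) (nat_lit 20644364291) (.two (nat_lit 605028353) (nat_lit 1317011469) (.two (nat_lit 1048576) (nat_lit 10506731539) (.one (nat_lit 4194565) .nil))),
   .two (nat_lit 169869316) (nat_lit 165525061635) (.two (nat_lit 606076929) (nat_lit 37313576972) (.two (nat_lit 2097152) (nat_lit 168820768) (.one (nat_lit 183947493510) .nil))),
   .two (nat_lit 18928893957) (nat_lit 176160771) (.two (nat_lit 8388609) (nat_lit 19599982604) (.two (nat_lit 8388608) (nat_lit 71303200) (.one (nat_lit 4194385) .nil))),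
   .two (nat_lit 4194308) (nat_lit 156365750275) (.two (nat_lit 156365750273) (nat_lit 272629768) (.two (nat_lit 2097152) (nat_lit 183949590556) (.one (nat_lit 10504634442) .nil))),
   .two (nat_lit 184419352581) (nat_lit 68157443) (.two (nat_lit 605028353) (nat_lit 184419352589) (.two (nat_lit 1048576) (nat_lit 1413480496) (.one (nat_lit 71303246) .nil))),
   .two (nat_lit 169869316) (nat_lit 10385096707) (.two (nat_lit 9781116929) (nat_lit 2954887176) (.two (nat_lit 16777216) (nat_lit 2954887183) (.one (nat_lit 1277165606) .nil))),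
   .two (nat_lit 1291845634) (nat_lit 11479810052) (.two (nat_lit 620756993) (nat_lit 11479810056) (.two (nat_lit 16777216) (nat_lit 11479810063) (.one (nat_lit 184419352613) .nil))),
   .two (nat_lit 1343225861) (nat_lit 183848927235) (.two (nat_lit 9765388289) (nat_lit 13191086088) (.two (nat_lit 1048576) (nat_lit 1413480496) (.one (nat_lit 71303246) .nil))),
   .two (nat_lit 16777220) (nat_lit 176160771) (.two (nat_lit 8388609) (nat_lit 50331656) (.two (nat_lit 8388608) (nat_lit 50331663) (.one (nat_lit 183861510181) .nil))),
   .two (nat_lit 1291845634) (nat_lit 37748739) (.two (nat_lit 9781116929) (nat_lit 13224640524) (.two (nat_lit 16777216) (nat_lit 159219974166) (.one (nat_lit 156535619703) .nil))),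
   .two (nat_lit 11492392964) (nat_lit 18925748227) (.two (nat_lit 156364701697) (nat_lit 11492392968) (.two (nat_lit 1048576) (nat_lit 721420313) (.one (nat_lit 16777366) .nil))),
   .two (nat_lit 9934209029) (nat_lit 156372041731) (.two (nat_lit 156372041729) (nat_lit 1277165576) (.two (nat_lit 8388608) (nat_lit 158144135192) (.one (nat_lit 8388691) .nil))),
   .two (nat_lit 8388612) (nat_lit 165526110211) (.two (nat_lit 156365750273) (nat_lit 4605345800) (.two (nat_lit 2097152) (nat_lit 11618222107) (.one (nat_lit 157036838984) .nil))),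
   .two (nat_lit 2097155) (nat_lit 183853121539) (.two (nat_lit 34603009) (nat_lit 1914699783) (.two (nat_lit 8388608) (nat_lit 11578376246) (.one (nat_lit 2097308) .nil))),
   .two (nat_lit 2889875461) (nat_lit 18925748227) (.two (nat_lit 37748737) (nat_lit 2416967692) (.two (nat_lit 4194304) (nat_lit 2349858857) (.one (nat_lit 772800589) .nil))),
   .two (nat_lit 822083589) (nat_lit 21777874949) (.two (nat_lit 605028353) (nat_lit 822083592) (.two (nat_lit 1048576) (nat_lit 19612565515) (.one (nat_lit 46473937022) .nil))),
   .two (nat_lit 2889875460) (nat_lit 620756995) (.two (nat_lit 620756993) (nat_lit 3527409672) (.two (nat_lit 16777216) (nat_lit 47584378905) (.one (nat_lit 4194464) .nil))),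
   .two (nat_lit 16777220) (nat_lit 183848927235) (.two (nat_lit 37748737) (nat_lit 50331656) (.two (nat_lit 4194304) (nat_lit 12062818329) (.one (nat_lit 16777377) .nil))),
   .two (nat_lit 272629765) (nat_lit 18933088259) (.two (nat_lit 156372041729) (nat_lit 2889875464) (.two (nat_lit 8388608) (nat_lit 1178599452) (.one (nat_lit 713031763) .nil))),
   .two (nat_lit 50331653) (nat_lit 41943043) (.two (nat_lit 41943041) (nat_lit 721420296) (.two (nat_lit 8388608) (nat_lit 721420303) (.one (nat_lit 721420322) .nil))),
   .two (nat_lit 16777220) (nat_lit 9768534019) (.two (nat_lit 9768534017) (nat_lit 285212680) (.two (nat_lit 4194304) (nat_lit 285212687) (.one (nat_lit 285212706) .nil))),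
   .two (nat_lit 285212677) (nat_lit 1175453699) (.two (nat_lit 9781116929) (nat_lit 1947205644) (.two (nat_lit 16777216) (nat_lit 19093520425) (.one (nat_lit 20704133197) .nil))),
   .two (nat_lit 16777220) (nat_lit 68157443) (.two (nat_lit 605028353) (nat_lit 822083592) (.two (nat_lit 1048576) (nat_lit 46523219996) (.one (nat_lit 101711946) .nil))),
   .two (nat_lit 11476664324) (nat_lit 2889875459) (.two (nat_lit 4194305) (nat_lit 101711880) (.two (nat_lit 4194304) (nat_lit 638582809) (.one (nat_lit 1276117142) .nil))),
   .two (nat_lit 46409973762) (nat_lit 46414168068) (.two (nat_lit 4194305) (nat_lit 46414168072) (.two (nat_lit 4194304) (nat_lit 46414168079) (.one (nat_lit 46414168098) .nil))),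
   .two (nat_lit 705691652) (nat_lit 721420291) (.two (nat_lit 50331649) (nat_lit 11543773192) (.two (nat_lit 16777216) (nat_lit 11543773199) (.one (nat_lit 11543773218) .nil))),
   .two (nat_lit 285212677) (nat_lit 69206019) (.two (nat_lit 37748737) (nat_lit 2902458376) (.two (nat_lit 2097152) (nat_lit 2902458383) (.one (nat_lit 2902458402) .nil))),
   .two (nat_lit 169869316) (nat_lit 1779433487) (.two (nat_lit 2097152) (nat_lit 11543773246) (.one (nat_lit 11543773346) .nil)),
   .two (nat_lit 639631365) (nat_lit 1343225871) (.two (nat_lit 2097152) (nat_lit 11543773248) (.one (nat_lit 11543773446) .nil)),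
   .two (nat_lit 2902458372) (nat_lit 11007950860) (.two (nat_lit 606076929) (nat_lit 285212734) (.one (nat_lit 13237223586) .nil)),
   .two (nat_lit 9766436867) (nat_lit 641728519) (.two (nat_lit 2097152) (nat_lit 8388743) (.one (nat_lit 8388881) .nil)),
   .two (nat_lit 8388612) (nat_lit 21208498184) (.two (nat_lit 8388609) (nat_lit 10370416655) (.two (nat_lit 2097152) (nat_lit 41943059) (.one (nat_lit 2097323) .nil))),
   .two (nat_lit 156367847429) (nat_lit 185002360841) (.two (nat_lit 37748737) (nat_lit 184549391) (.two (nat_lit 4194304) (nat_lit 184549394) (.one (nat_lit 16777486) .nil))),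
   .two (nat_lit 705691651) (nat_lit 28758245384) (.two (nat_lit 1048576) (nat_lit 158144135272) (.one (nat_lit 2097427) .nil)),
   .two (nat_lit 20637024259) (nat_lit 10506731527) (.two (nat_lit 1048576) (nat_lit 4194440) (.one (nat_lit 156535619623) .nil)),
   .two (nat_lit 705691651) (nat_lit 28758245384) (.two (nat_lit 1048576) (nat_lit 158144135288) (.one (nat_lit 2097428) .nil)),
   .two (nat_lit 1291845636) (nat_lit 10906238985) (.two (nat_lit 34603009) (nat_lit 10385096719) (.two (nat_lit 1048576) (nat_lit 166245433363) (.one (nat_lit 2969567325) .nil))),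
   .two (nat_lit 184549380) (nat_lit 159217876999) (.two (nat_lit 606076931) (nat_lit 620757000) (.two (nat_lit 606076929) (nat_lit 620757007) (.two (nat_lit 2097152) (nat_lit 10351542384) (.one (nat_lit 16777498) .nil)))),
   .two (nat_lit 9766436867) (nat_lit 638582791) (.two (nat_lit 2097152) (nat_lit 8388749) (.one (nat_lit 813695015) .nil)),
   .two (nat_lit 1276116994) (nat_lit 13191086087) (.two (nat_lit 183848927235) (nat_lit 183845781513) (.two (nat_lit 9765388289) (nat_lit 13191086095) (.two (nat_lit 1048576) (nat_lit 11614027813) (.one (nat_lit 156569174180) .nil)))),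
   .two (nat_lit 2097155) (nat_lit 13195280391) (.two (nat_lit 1048576) (nat_lit 2418016390) (.one (nat_lit 46508539943) .nil)),
   .two (nat_lit 1343225861) (nat_lit 10338959369) (.two (nat_lit 9765388289) (nat_lit 13191086095) (.two (nat_lit 1048576) (nat_lit 306184210) (.one (nat_lit 4194588) .nil))),
   .two (nat_lit 2889875460) (nat_lit 10335813641) (.two (nat_lit 4194305) (nat_lit 12114198547) (.two (nat_lit 4194304) (nat_lit 1276117010) (.one (nat_lit 37749007) .nil))),
   .two (nat_lit 183853121540) (nat_lit 2954887175) (.two (nat_lit 169869315) (nat_lit 183853121544) (.two (nat_lit 2097153) (nat_lit 183853121551) (.two (nat_lit 8388608) (nat_lit 12148801658) (.one (nat_lit 2097437) .nil)))),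
   .two (nat_lit 8388613) (nat_lit 19599982599) (.two (nat_lit 8388611) (nat_lit 166132187144) (.two (nat_lit 156367847425) (nat_lit 176160783) (.two (nat_lit 4194304) (nat_lit 880803906) (.one (nat_lit 8388894) .nil)))),
   .two (nat_lit 2887778308) (nat_lit 1753219079) (.two (nat_lit 2887778307) (nat_lit 1753219080) (.two (nat_lit 2097153) (nat_lit 1753219087) (.two (nat_lit 2097152) (nat_lit 158083317826) (.one (nat_lit 8388895) .nil)))),
   .two (nat_lit 705691652) (nat_lit 166132187142) (.two (nat_lit 34603009) (nat_lit 12117344267) (.two (nat_lit 1048576) (nat_lit 28693233682) (.one (nat_lit 1048864) .nil))),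
   .two (nat_lit 166132187138) (nat_lit 654311431) (.two (nat_lit 9781116931) (nat_lit 166132187142) (.two (nat_lit 9768534017) (nat_lit 10385096719) (.two (nat_lit 4194304) (nat_lit 1862271013) (.one (nat_lit 11559501988) .nil)))),
   .two (nat_lit 166132187140) (nat_lit 158144135175) (.two (nat_lit 1277165571) (nat_lit 156971827208) (.two (nat_lit 606076929) (nat_lit 19599982620) (.two (nat_lit 2097152) (nat_lit 2319450192) (.one (nat_lit 4194600) .nil)))),
   .two (nat_lit 11476664324) (nat_lit 16777223) (.two (nat_lit 184549379) (nat_lit 12114198536) (.two (nat_lit 16777217) (nat_lit 156465365020) (.two (nat_lit 16777216) (nat_lit 772800632) (.one (nat_lit 1048873) .nil)))),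
   .two (nat_lit 21777874949) (nat_lit 11492392968) (.two (nat_lit 605028353) (nat_lit 184431935513) (.two (nat_lit 1048576) (nat_lit 16777369) (.one (nat_lit 168821019) .nil))),
   .two (nat_lit 8388612) (nat_lit 9768534023) (.two (nat_lit 9768534019) (nat_lit 4605345800) (.two (nat_lit 9768534017) (nat_lit 4605345807) (.two (nat_lit 4194304) (nat_lit 4605345893) (.one (nat_lit 10343153831) .nil)))),
   .two (nat_lit 156364701701) (nat_lit 10343153671) (.two (nat_lit 165532401667) (nat_lit 1410334734) (.two (nat_lit 34603009) (nat_lit 654311439) (.two (nat_lit 8388608) (nat_lit 20753416258) (.one (nat_lit 16777514) .nil)))),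
   .two (nat_lit 1277165572) (nat_lit 1343225863) (.two (nat_lit 68157443) (nat_lit 28758245384) (.two (nat_lit 605028353) (nat_lit 1277165583) (.two (nat_lit 1048576) (nat_lit 69206132) (.one (nat_lit 740294820) .nil)))),
   .two (nat_lit 75497475) (nat_lit 3527409671) (.two (nat_lit 8388608) (nat_lit 1212153993) (.one (nat_lit 843055144) .nil)),
   .two (nat_lit 2887778308) (nat_lit 1916796936) (.two (nat_lit 2097153) (nat_lit 10506731545) (.two (nat_lit 4194304) (nat_lit 19027460133) (.one (nat_lit 2889875620) .nil))),
   .two (nat_lit 4194308) (nat_lit 1291845638) (.two (nat_lit 4194305) (nat_lit 2969567243) (.two (nat_lit 16777216) (nat_lit 339738642) (.one (nat_lit 16777515) .nil))),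
   .two (nat_lit 822083589) (nat_lit 46409973766) (.two (nat_lit 4194305) (nat_lit 11626610707) (.two (nat_lit 4194304) (nat_lit 11626610707) (.one (nat_lit 4194604) .nil))),
   .two (nat_lit 10506731525) (nat_lit 21208498184) (.two (nat_lit 9768534017) (nat_lit 21208498191) (.two (nat_lit 2097152) (nat_lit 13224640549) (.one (nat_lit 184987681061) .nil))),
   .two (nat_lit 2889875461) (nat_lit 183845781512) (.two (nat_lit 2097153) (nat_lit 1947205681) (.two (nat_lit 2097152) (nat_lit 13224640590) (.one (nat_lit 46978302243) .nil))),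
   .two (nat_lit 9768534021) (nat_lit 19127074825) (.two (nat_lit 37748737) (nat_lit 21207449619) (.two (nat_lit 1048576) (nat_lit 3527409682) (.one (nat_lit 46977253656) .nil))),
   .two (nat_lit 9948889093) (nat_lit 20638072840) (.two (nat_lit 9781116929) (nat_lit 158077026328) (.two (nat_lit 2097152) (nat_lit 11593056274) (.one (nat_lit 69206308) .nil))),
   .two (nat_lit 8388612) (nat_lit 3527409672) (.two (nat_lit 41943041) (nat_lit 306184217) (.two (nat_lit 4194304) (nat_lit 13195280534) (.one (nat_lit 809500836) .nil))),
   .two (nat_lit 37748744) (nat_lit 101711880) (.two (nat_lit 4194308) (nat_lit 705691664) (.two (nat_lit 2097153) (nat_lit 1779433511) (.two (nat_lit 2097152) (nat_lit 2953838759) (.one (nat_lit 169869494) .nil)))),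
   .two (nat_lit 606076936) (nat_lit 303038473) (.two (nat_lit 2894069765) (nat_lit 606076943) (.two (nat_lit 8388609) (nat_lit 34603073) (.two (nat_lit 8388608) (nat_lit 4194472) (.one (nat_lit 4194615) .nil)))),
   .two (nat_lit 10370416648) (nat_lit 4601151495) (.two (nat_lit 4194307) (nat_lit 10370416655) (.two (nat_lit 4194305) (nat_lit 1277165603) (.two (nat_lit 2097152) (nat_lit 608174244) (.one (nat_lit 11546919221) .nil)))),
   .two (nat_lit 11476664324) (nat_lit 174753579027) (.two (nat_lit 34603009) (nat_lit 174753579027) (.one (nat_lit 1048888) .nil)),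
   .two (nat_lit 639631368) (nat_lit 1276116998) (.two (nat_lit 10370416645) (nat_lit 1779433487) (.two (nat_lit 2097153) (nat_lit 10436476965) (.two (nat_lit 2097152) (nat_lit 1048667) (.one (nat_lit 2097465) .nil)))),
   .two (nat_lit 11543773192) (nat_lit 1749024775) (.two (nat_lit 16777216) (nat_lit 10369368104) .nil),
   .two (nat_lit 169869316) (nat_lit 9936306187) (.two (nat_lit 2097153) (nat_lit 306184210) (.one (nat_lit 2097466) .nil)),
   .two (nat_lit 28757196808) (nat_lit 2954887175) (.two (nat_lit 169869315) (nat_lit 1779433487) (.two (nat_lit 2097153) (nat_lit 9866051619) (.two (nat_lit 2097152) (nat_lit 1947205794) (.one (nat_lit 1048891) .nil)))),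
   .two (nat_lit 47555018757) (nat_lit 1048587) (.two (nat_lit 8388609) (nat_lit 1209008148) (.one (nat_lit 1048892) .nil)),
   .two (nat_lit 11543773192) (nat_lit 9768534023) (.two (nat_lit 705691651) (nat_lit 9768534031) (.two (nat_lit 34603009) (nat_lit 2889875491) (.two (nat_lit 1048576) (nat_lit 4194470) (.one (nat_lit 1343226038) .nil)))),
   .two (nat_lit 1276116996) (nat_lit 1916796947) (.two (nat_lit 37748737) (nat_lit 11610882068) (.one (nat_lit 1048893) .nil)),
   .two (nat_lit 1291845636) (nat_lit 4598005771) (.two (nat_lit 34603009) (nat_lit 158158815250) (.one (nat_lit 1048894) .nil)),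
   .two (nat_lit 9881780232) (nat_lit 1913651207) (.two (nat_lit 1048576) (nat_lit 11492393000) .nil),
   .two (nat_lit 2889875464) (nat_lit 4605345799) (.two (nat_lit 16777216) (nat_lit 11551113256) .nil),
   .two (nat_lit 612368392) (nat_lit 4194310) (.two (nat_lit 4194308) (nat_lit 612368399) (.two (nat_lit 8388609) (nat_lit 272629822) (.two (nat_lit 4194304) (nat_lit 75497564) (.one (nat_lit 9768534322) .nil)))),
   .two (nat_lit 19596836872) (nat_lit 117440519) (.two (nat_lit 1191182339) (nat_lit 19596836879) (.two (nat_lit 34603009) (nat_lit 2902458403) (.two (nat_lit 1048576) (nat_lit 620757086) (.one (nat_lit 16777538) .nil)))),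
   .two (nat_lit 639631368) (nat_lit 638582791) (.two (nat_lit 2097155) (nat_lit 8388623) (.two (nat_lit 2097153) (nat_lit 8388643) (.two (nat_lit 1048576) (nat_lit 645922910) (.one (nat_lit 1175453878) .nil)))),
   .two (nat_lit 1343225864) (nat_lit 9766436874) (.two (nat_lit 639631365) (nat_lit 1343225871) (.two (nat_lit 606076929) (nat_lit 739246145) (.two (nat_lit 1048576) (nat_lit 11544821851) (.one (nat_lit 9933160767) .nil)))),
   .two (nat_lit 184549384) (nat_lit 205520904) (.two (nat_lit 174755676165) (nat_lit 21811429392) (.two (nat_lit 605028353) (nat_lit 809500746) (.two (nat_lit 1048576) (nat_lit 10552869028) (.one (nat_lit 10000269634) .nil)))),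
   .two (nat_lit 19530776581) (nat_lit 822083595) (.two (nat_lit 2097153) (nat_lit 218103826) (.one (nat_lit 16777540) .nil)),
   .two (nat_lit 1283457029) (nat_lit 184986632203) (.two (nat_lit 4194305) (nat_lit 2349858835) (.one (nat_lit 4194629) .nil)),
   .two (nat_lit 1291845640) (nat_lit 1913651207) (.two (nat_lit 1048576) (nat_lit 10385096743) .nil),
   .two (nat_lit 203423752) (nat_lit 10335813639) (.two (nat_lit 16777216) (nat_lit 639631399) .nil),
   .two (nat_lit 713031688) (nat_lit 1343225863) (.two (nat_lit 1048576) (nat_lit 11618222119) .nil),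
   .two (nat_lit 9948889096) (nat_lit 12114198535) (.two (nat_lit 8388608) (nat_lit 4631560232) .nil),
   .two (nat_lit 809500680) (nat_lit 638582791) (.two (nat_lit 37748739) (nat_lit 1779433496) (.two (nat_lit 8388609) (nat_lit 272629795) (.two (nat_lit 8388608) (nat_lit 174685421745) (.one (nat_lit 1048909) .nil)))),
   .two (nat_lit 10504634376) (nat_lit 612368391) (.two (nat_lit 612368387) (nat_lit 639631375) (.two (nat_lit 2097153) (nat_lit 713031715) (.two (nat_lit 2097152) (nat_lit 165532401758) (.one (nat_lit 8388942) .nil)))),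
   .two (nat_lit 11543773189) (nat_lit 2954887179) (.two (nat_lit 34603009) (nat_lit 165526110228) (.one (nat_lit 2097487) .nil)),
   .two (nat_lit 169869316) (nat_lit 1779433491) (.one (nat_lit 11543773372) .nil),
   .two (nat_lit 4194306) (nat_lit 1048596) (.one (nat_lit 1048766) .nil),
   .two (nat_lit 159217876997) (nat_lit 3036676115) (.one (nat_lit 2097493) .nil),
   .two (nat_lit 713031685) (nat_lit 19130220563) (.one (nat_lit 11580473533) .nil),
   .two (nat_lit 8388612) (nat_lit 2902458386) (.one (nat_lit 156539814226) .nil),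
   .two (nat_lit 4194308) (nat_lit 18925748244) (.one (nat_lit 11543773372) .nil),
   .two (nat_lit 8388612) (nat_lit 46507491350) (.one (nat_lit 2920284500) .nil),
   .two (nat_lit 176160772) (nat_lit 156367847439) (.one (nat_lit 2923429992) .nil),
   .two (nat_lit 8388612) (nat_lit 822083589) (.two (nat_lit 50331649) (nat_lit 41943055) (.one (nat_lit 166144770158) .nil)),
   .two (nat_lit 4194308) (nat_lit 21785214981) (.two (nat_lit 612368385) (nat_lit 13191086095) (.one (nat_lit 10376708224) .nil)),
   .two (nat_lit 806354949) (nat_lit 166237044750) (.two (nat_lit 2097152) (nat_lit 839909421) (.one (nat_lit 1048791) .nil)),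
   .two (nat_lit 272629765) (nat_lit 1358954501) (.two (nat_lit 605028353) (nat_lit 37316722701) (.two (nat_lit 1048576) (nat_lit 16777262) (.one (nat_lit 16777561) .nil))),
   .two (nat_lit 2954887173) (nat_lit 12117344261) (.two (nat_lit 2097153) (nat_lit 20640169998) (.two (nat_lit 4194304) (nat_lit 46474985495) (.one (nat_lit 2990538871) .nil))),
   .two (nat_lit 2889875460) (nat_lit 183853121551) (.one (nat_lit 47584378991) .nil),
   .two (nat_lit 158150426629) (nat_lit 184416206853) (.two (nat_lit 34603009) (nat_lit 156372041736) (.two (nat_lit 4194304) (nat_lit 1048791) .nil)),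
   .two (nat_lit 16777220) (nat_lit 840957966) (.two (nat_lit 4194304) (nat_lit 156365750287) (.one (nat_lit 16777434) .nil)),
   .two (nat_lit 8388612) (nat_lit 165526110216) (.two (nat_lit 8388608) (nat_lit 20719861803) (.one (nat_lit 16777562) .nil)),
   .two (nat_lit 4605345797) (nat_lit 157036838917) (.two (nat_lit 4194305) (nat_lit 19128123434) (.one (nat_lit 2097373) .nil)),
   .two (nat_lit 1344274437) (nat_lit 1913651205) (.two (nat_lit 16777217) (nat_lit 166130089992) (.two (nat_lit 4194304) (nat_lit 37262196780) (.one (nat_lit 16777440) .nil))),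
   .two (nat_lit 612368389) (nat_lit 2902458376) (.two (nat_lit 16777216) (nat_lit 75497487) (.one (nat_lit 16777443) .nil)),
   .two (nat_lit 69206021) (nat_lit 822083589) (.two (nat_lit 37748737) (nat_lit 156365750280) (.two (nat_lit 4194304) (nat_lit 166144770093) (.one (nat_lit 16777564) .nil))),
   .two (nat_lit 272629765) (nat_lit 184416206853) (.two (nat_lit 4194305) (nat_lit 12617515021) (.two (nat_lit 1048576) (nat_lit 306184218) (.one (nat_lit 608174290) .nil))),
   .two (nat_lit 169869316) (nat_lit 19599982597) (.two (nat_lit 2097153) (nat_lit 183848927247) (.one (nat_lit 339738834) .nil)),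
   .two (nat_lit 11559501829) (nat_lit 1846542341) (.two (nat_lit 605028353) (nat_lit 10955522170) .nil),
   .two (nat_lit 176160772) (nat_lit 218103813) (.two (nat_lit 16777217) (nat_lit 47555018767) (.one (nat_lit 156573368442) .nil)),
   .two (nat_lit 176160772) (nat_lit 9948889103) (.one (nat_lit 10544480368) .nil),
   .two (nat_lit 4194308) (nat_lit 218103823) (.one (nat_lit 16777567) .nil),
   .two (nat_lit 272629765) (nat_lit 1277165572) (.two (nat_lit 4194305) (nat_lit 1277165576) (.two (nat_lit 16777216) (nat_lit 706740434) .nil)),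
   .two (nat_lit 11543773189) (nat_lit 174753579016) (.two (nat_lit 1048576) (nat_lit 11611930670) (.one (nat_lit 156566028399) .nil)),
   .two (nat_lit 10504634373) (nat_lit 135266316) (.two (nat_lit 1048576) (nat_lit 46407876736) .nil),
   .two (nat_lit 1358954501) (nat_lit 10436476941) (.two (nat_lit 1048576) (nat_lit 10385096719) (.one (nat_lit 16777568) .nil)),
   .two (nat_lit 176160772) (nat_lit 12117344261) (.two (nat_lit 8388609) (nat_lit 1178599439) (.one (nat_lit 183916036314) .nil)),
   .two (nat_lit 1913651205) (nat_lit 9802088460) (.two (nat_lit 4194304) (nat_lit 9966715006) .nil),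
   .two (nat_lit 11543773189) (nat_lit 174753579016) (.two (nat_lit 1048576) (nat_lit 159251431450) (.one (nat_lit 156566028399) .nil)),
   .two (nat_lit 34603013) (nat_lit 47555018757) (.two (nat_lit 2097153) (nat_lit 28764536961) .nil),
   .two (nat_lit 4194308) (nat_lit 218103823) (.one (nat_lit 16777571) .nil),
   .two (nat_lit 8388612) (nat_lit 10506731525) (.two (nat_lit 9768534017) (nat_lit 13195280399) (.one (nat_lit 21814575230) .nil)),
   .two (nat_lit 9934209029) (nat_lit 174752530440) (.two (nat_lit 1048576) (nat_lit 1277165583) (.one (nat_lit 47547678942) .nil)),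
   .two (nat_lit 184549380) (nat_lit 1277165576) (.two (nat_lit 16777216) (nat_lit 10437525615) .nil),
   .two (nat_lit 8388612) (nat_lit 10506731525) (.two (nat_lit 9768534017) (nat_lit 13195280399) (.one (nat_lit 4605345912) .nil)),
   .two (nat_lit 176160772) (nat_lit 156367847439) (.one (nat_lit 2923430008) .nil),
   .two (nat_lit 822083589) (nat_lit 21777874949) (.two (nat_lit 605028353) (nat_lit 721420313) (.one (nat_lit 46473937022) .nil)),
   .two (nat_lit 713031684) (nat_lit 20637024271) (.one (nat_lit 1048932) .nil),
   .two (nat_lit 1358954501) (nat_lit 158075977733) (.two (nat_lit 34603009) (nat_lit 10955522161) .nil),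
   .two (nat_lit 11543773189) (nat_lit 10940841989) (.two (nat_lit 606076929) (nat_lit 183912890392) (.one (nat_lit 12115247233) .nil)),
   .two (nat_lit 9934209029) (nat_lit 158143086597) (.two (nat_lit 605028353) (nat_lit 1277165583) (.one (nat_lit 69206132) .nil)),
   .two (nat_lit 822083589) (nat_lit 158143086597) (.two (nat_lit 605028353) (nat_lit 721420313) (.one (nat_lit 34603127) .nil)),
   .two (nat_lit 2887778308) (nat_lit 4601151493) (.two (nat_lit 4194305) (nat_lit 203423759) (.one (nat_lit 19094569074) .nil)),
   .two (nat_lit 4605345797) (nat_lit 174753579013) (.two (nat_lit 9766436865) (nat_lit 46414168072) (.two (nat_lit 2097152) (nat_lit 343932952) (.one (nat_lit 3525312627) .nil))),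
   .two (nat_lit 11543773189) (nat_lit 46409973764) (.two (nat_lit 4194305) (nat_lit 1913651215) (.one (nat_lit 10909384815) .nil)),
   .two (nat_lit 8388612) (nat_lit 28087156751) (.one (nat_lit 13203669347) .nil),
   .two (nat_lit 159216828421) (nat_lit 11007950860) (.two (nat_lit 1048576) (nat_lit 19094569009) (.one (nat_lit 19026411754) .nil)),
   .two (nat_lit 721420293) (nat_lit 156969730062) (.two (nat_lit 8388608) (nat_lit 28790751278) (.one (nat_lit 1048828) .nil)),
   .two (nat_lit 612368389) (nat_lit 157038936072) (.two (nat_lit 2097152) (nat_lit 2923429911) (.one (nat_lit 166237044864) .nil)),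
   .two (nat_lit 4194308) (nat_lit 12054429701) (.two (nat_lit 41943041) (nat_lit 4194312) (.two (nat_lit 1048576) (nat_lit 813695071) (.one (nat_lit 8388967) .nil))),
   .two (nat_lit 4601151493) (nat_lit 28093448200) (.two (nat_lit 1048576) (nat_lit 1849688079) (.one (nat_lit 8388968) .nil)),
   .two (nat_lit 272629765) (nat_lit 2316304397) (.two (nat_lit 4194304) (nat_lit 21777874959) (.one (nat_lit 705691849) .nil)),
   .two (nat_lit 2889875460) (nat_lit 1929379865) (.one (nat_lit 10544480385) .nil),
   .two (nat_lit 83886085) (nat_lit 158144135173) (.two (nat_lit 16777217) (nat_lit 9900654615) (.one (nat_lit 21778923631) .nil)),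
   .two (nat_lit 822083589) (nat_lit 2954887173) (.two (nat_lit 2097153) (nat_lit 50331674) (.one (nat_lit 117440730) .nil)),
   .two (nat_lit 605028357) (nat_lit 28093448200) (.two (nat_lit 1048576) (nat_lit 1849688079) (.one (nat_lit 21818769759) .nil)),
   .two (nat_lit 16777220) (nat_lit 47555018767) (.one (nat_lit 159232557290) .nil),
   .two (nat_lit 169869316) (nat_lit 2902458376) (.two (nat_lit 2097152) (nat_lit 9948889136) (.one (nat_lit 19530776932) .nil)),
   .two (nat_lit 285212677) (nat_lit 3527409672) (.two (nat_lit 4194304) (nat_lit 12062818347) (.one (nat_lit 156581757274) .nil)),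
   .two (nat_lit 47555018757) (nat_lit 174753579023) (.one (nat_lit 12121538686) .nil),
   .two (nat_lit 16777221) (nat_lit 101711887) (.one (nat_lit 12147753064) .nil),
   .two (nat_lit 169869316) (nat_lit 19537068057) (.one (nat_lit 10343153891) .nil),
   .two (nat_lit 2887778308) (nat_lit 12117344261) (.two (nat_lit 37748737) (nat_lit 236978202) (.one (nat_lit 10003415166) .nil)),
   .two (nat_lit 2956984325) (nat_lit 117440527) (.one (nat_lit 183848927351) .nil),
   .two (nat_lit 34603013) (nat_lit 10343153672) (.two (nat_lit 2097152) (nat_lit 1350565931) (.one (nat_lit 8388971) .nil)),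
   .two (nat_lit 9934209029) (nat_lit 46409973764) (.two (nat_lit 606076929) (nat_lit 3460300824) (.one (nat_lit 4632608887) .nil)),
   .two (nat_lit 1343225861) (nat_lit 10336862216) (.two (nat_lit 1048576) (nat_lit 4028629015) (.one (nat_lit 1210056815) .nil)),
   .two (nat_lit 34603013) (nat_lit 1753219080) (.two (nat_lit 1048576) (nat_lit 12155093018) (.one (nat_lit 773849309) .nil)),
   .two (nat_lit 176160770) (nat_lit 156367847427) (.two (nat_lit 8388609) (nat_lit 9802088460) (.two (nat_lit 8388608) (nat_lit 156971827219) (.one (nat_lit 4601151725) .nil))),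
   .two (nat_lit 1343225861) (nat_lit 183848927235) (.two (nat_lit 9765388289) (nat_lit 13191086088) (.two (nat_lit 1048576) (nat_lit 20707278891) (.one (nat_lit 4194450) .nil))),
   .two (nat_lit 9866051589) (nat_lit 165526110211) (.two (nat_lit 605028353) (nat_lit 174753579020) (.two (nat_lit 8388608) (nat_lit 2988441672) (.one (nat_lit 2988441672) .nil))),
   .two (nat_lit 184986632197) (nat_lit 156372041731) (.two (nat_lit 156372041729) (nat_lit 11577327629) (.two (nat_lit 8388608) (nat_lit 1048631) (.one (nat_lit 1048724) .nil))),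
   .two (nat_lit 4601151493) (nat_lit 11476664323) (.two (nat_lit 156367847425) (nat_lit 11543773192) (.two (nat_lit 4194304) (nat_lit 46977253419) (.one (nat_lit 1048725) .nil))),
   .two (nat_lit 16777220) (nat_lit 176160771) (.two (nat_lit 8388609) (nat_lit 50331656) (.two (nat_lit 8388608) (nat_lit 50331663) (.one (nat_lit 46489665615) .nil))),
   .two (nat_lit 639631365) (nat_lit 16777219) (.two (nat_lit 16777217) (nat_lit 158144135176) (.two (nat_lit 16777216) (nat_lit 10370416655) (.one (nat_lit 2097234) .nil))),
   .two (nat_lit 11559501829) (nat_lit 68157443) (.two (nat_lit 605028353) (nat_lit 754974728) (.two (nat_lit 1048576) (nat_lit 754974735) (.one (nat_lit 16777300) .nil))),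
   .two (nat_lit 2887778306) (nat_lit 156372041731) (.two (nat_lit 2097153) (nat_lit 10343153676) (.two (nat_lit 2097152) (nat_lit 10007609366) (.one (nat_lit 8388853) .nil))),
   .two (nat_lit 176160772) (nat_lit 156365750275) (.two (nat_lit 156365750273) (nat_lit 159224168456) (.two (nat_lit 2097152) (nat_lit 159224168463) (.one (nat_lit 343932996) .nil))),
   .two (nat_lit 16777220) (nat_lit 11479810051) (.two (nat_lit 37748737) (nat_lit 285212680) (.two (nat_lit 4194304) (nat_lit 285212687) (.one (nat_lit 157051519060) .nil))),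
   .two (nat_lit 16777220) (nat_lit 9768534019) (.two (nat_lit 9768534017) (nat_lit 285212680) (.two (nat_lit 4194304) (nat_lit 285212687) (.one (nat_lit 157051519060) .nil))),
   .two (nat_lit 8388613) (nat_lit 50331651) (.two (nat_lit 50331649) (nat_lit 176160776) (.two (nat_lit 16777216) (nat_lit 47555018776) (.one (nat_lit 20644364357) .nil))),
   .two (nat_lit 4194308) (nat_lit 11476664328) (.two (nat_lit 8388609) (nat_lit 605028417) (.one (nat_lit 168821104) .nil)),
   .two (nat_lit 4194308) (nat_lit 11476664335) (.two (nat_lit 1048576) (nat_lit 169869416) (.one (nat_lit 34603375) .nil)),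
   .two (nat_lit 4194308) (nat_lit 2887778312) (.two (nat_lit 34603009) (nat_lit 69206126) (.one (nat_lit 1048839) .nil)),
   .two (nat_lit 41943045) (nat_lit 705691663) (.two (nat_lit 1048576) (nat_lit 11484004462) (.one (nat_lit 269484404) .nil)),
   .two (nat_lit 4194308) (nat_lit 9766436872) (.two (nat_lit 2097153) (nat_lit 1283457134) (.one (nat_lit 1344274813) .nil)),
   .two (nat_lit 4194308) (nat_lit 739246103) (.two (nat_lit 8388608) (nat_lit 169869574) .nil),
   .two (nat_lit 8388613) (nat_lit 2954887191) (.two (nat_lit 1048576) (nat_lit 37748846) (.one (nat_lit 68157812) .nil)),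
   .two (nat_lit 4194308) (nat_lit 639631384) (.two (nat_lit 4194304) (nat_lit 639631463) (.one (nat_lit 9934209402) .nil)),
   .two (nat_lit 9934209029) (nat_lit 1779433487) (.two (nat_lit 2097152) (nat_lit 11543773447) .nil),
   .two (nat_lit 4194308) (nat_lit 8388623) (.two (nat_lit 4194304) (nat_lit 739246343) .nil),
   .two (nat_lit 809500677) (nat_lit 203423768) (.two (nat_lit 1048576) (nat_lit 9934209127) (.one (nat_lit 1277165947) .nil)),
   .two (nat_lit 41943045) (nat_lit 9934209048) (.two (nat_lit 4194304) (nat_lit 639631463) (.one (nat_lit 1277165943) .nil)),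
   .two (nat_lit 16777220) (nat_lit 2887778312) (.two (nat_lit 34603009) (nat_lit 20719861803) (.two (nat_lit 1048576) (nat_lit 156581757040) (.one (nat_lit 1048985) .nil))),
   .two (nat_lit 34603013) (nat_lit 285212680) (.two (nat_lit 605028353) (nat_lit 1210056810) (.one (nat_lit 2350907656) .nil)),
   .two (nat_lit 4194308) (nat_lit 2887778312) (.two (nat_lit 2097153) (nat_lit 13191086095) (.two (nat_lit 1048576) (nat_lit 9768534128) (.one (nat_lit 168821002) .nil))),
   .two (nat_lit 16777220) (nat_lit 705691656) (.two (nat_lit 2097153) (nat_lit 156364701738) (.two (nat_lit 1048576) (nat_lit 2097355) (.one (nat_lit 13188989191) .nil))),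
   .two (nat_lit 2889875461) (nat_lit 13187940365) (.two (nat_lit 16777217) (nat_lit 873463873) (.one (nat_lit 4194572) .nil)),
   .two (nat_lit 2097157) (nat_lit 4605345800) (.two (nat_lit 606076929) (nat_lit 1175453711) (.two (nat_lit 1048576) (nat_lit 19128123501) (.one (nat_lit 1846542600) .nil))),
   .two (nat_lit 11479810052) (nat_lit 28691136520) (.two (nat_lit 37748737) (nat_lit 2097195) (.two (nat_lit 8388608) (nat_lit 28791799912) (.one (nat_lit 28798091530) .nil))),
   .two (nat_lit 16777220) (nat_lit 11476664328) (.two (nat_lit 8388609) (nat_lit 156364701761) (.one (nat_lit 203424008) .nil)),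
   .two (nat_lit 4194308) (nat_lit 176160783) (.two (nat_lit 8388608) (nat_lit 2956984436) (.one (nat_lit 4194694) .nil)),
   .two (nat_lit 203423749) (nat_lit 46409973768) (.two (nat_lit 2097153) (nat_lit 809500687) (.two (nat_lit 4194304) (nat_lit 2954887232) (.one (nat_lit 46978302339) .nil))),
   .two (nat_lit 8388612) (nat_lit 169869320) (.two (nat_lit 8388609) (nat_lit 2097270) (.one (nat_lit 2097564) .nil)),
   .two (nat_lit 713031685) (nat_lit 12114198541) (.two (nat_lit 16777217) (nat_lit 183946444864) (.one (nat_lit 1344274821) .nil)),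
   .two (nat_lit 34603013) (nat_lit 822083599) (.two (nat_lit 2097152) (nat_lit 1048695) (.one (nat_lit 19530776962) .nil)),
   .two (nat_lit 41943045) (nat_lit 1277165581) (.two (nat_lit 2097153) (nat_lit 104857615) (.two (nat_lit 4194304) (nat_lit 8388812) (.one (nat_lit 11551113478) .nil))),
   .two (nat_lit 11559501829) (nat_lit 12047089679) (.two (nat_lit 1048576) (nat_lit 16777336) (.one (nat_lit 1048990) .nil)),
   .two (nat_lit 203423749) (nat_lit 156968681496) (.two (nat_lit 2097152) (nat_lit 156968681575) (.one (nat_lit 1048991) .nil)),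
   .two (nat_lit 11479810052) (nat_lit 28691136520) (.two (nat_lit 41943041) (nat_lit 21812477994) (.two (nat_lit 8388608) (nat_lit 19096666227) (.one (nat_lit 1954545927) .nil))),
   .two (nat_lit 612368389) (nat_lit 37246468110) (.two (nat_lit 41943041) (nat_lit 10939793521) (.one (nat_lit 1048845) .nil)),
   .two (nat_lit 34603013) (nat_lit 183848927240) (.two (nat_lit 34603009) (nat_lit 158077026319) (.two (nat_lit 2097152) (nat_lit 1745879152) (.one (nat_lit 68157708) .nil))),
   .two (nat_lit 4194308) (nat_lit 10939793416) (.two (nat_lit 37748737) (nat_lit 2316304504) (.one (nat_lit 1048993) .nil)),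
   .two (nat_lit 8388612) (nat_lit 169869320) (.two (nat_lit 34603009) (nat_lit 4632608812) (.two (nat_lit 16777216) (nat_lit 2886729994) .nil)),
   .two (nat_lit 176160772) (nat_lit 158077026318) (.two (nat_lit 2097153) (nat_lit 176160783) (.two (nat_lit 1048576) (nat_lit 8388673) (.one (nat_lit 1048995) .nil))),
   .two (nat_lit 4194308) (nat_lit 46407876616) (.two (nat_lit 2097153) (nat_lit 272629784) (.two (nat_lit 1048576) (nat_lit 159251431541) (.one (nat_lit 3020947722) .nil))),
   .two (nat_lit 16777220) (nat_lit 165525061646) (.two (nat_lit 2097153) (nat_lit 822083599) (.two (nat_lit 1048576) (nat_lit 46978302016) (.one (nat_lit 203424011) .nil))),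
   .two (nat_lit 8388612) (nat_lit 156365750280) (.two (nat_lit 50331649) (nat_lit 1780482164) (.one (nat_lit 2097573) .nil)),
   .two (nat_lit 11546918917) (nat_lit 12054429704) (.two (nat_lit 8388609) (nat_lit 9867100175) (.two (nat_lit 4194304) (nat_lit 1344274543) (.one (nat_lit 2097574) .nil))),
   .two (nat_lit 8388612) (nat_lit 166129041422) (.two (nat_lit 16777217) (nat_lit 11476664384) (.one (nat_lit 47548727563) .nil)),
   .two (nat_lit 2097157) (nat_lit 46409973768) (.two (nat_lit 34603009) (nat_lit 1948254319) (.one (nat_lit 21207449864) .nil)),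
   .two (nat_lit 11479810053) (nat_lit 3458203663) (.two (nat_lit 2097152) (nat_lit 4194425) (.one (nat_lit 809501073) .nil)),
   .two (nat_lit 4194308) (nat_lit 183845781512) (.two (nat_lit 606076929) (nat_lit 185023332471) (.one (nat_lit 46978302216) .nil)),
   .two (nat_lit 8388612) (nat_lit 185020186648) (.two (nat_lit 8388608) (nat_lit 185020186726) (.one (nat_lit 1048999) .nil)),
   .two (nat_lit 8388612) (nat_lit 159251431448) (.two (nat_lit 8388608) (nat_lit 159251431527) (.one (nat_lit 2097577) .nil)),
   .two (nat_lit 806354949) (nat_lit 13191086088) (.two (nat_lit 9765388289) (nat_lit 606076943) (.two (nat_lit 2097152) (nat_lit 1048783) (.one (nat_lit 10001318156) .nil))),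
   .two (nat_lit 10504634373) (nat_lit 2416967704) (.two (nat_lit 2097152) (nat_lit 1048698) (.one (nat_lit 1049002) .nil)),
   .two (nat_lit 75497477) (nat_lit 9966714893) (.two (nat_lit 8388609) (nat_lit 159250382890) (.two (nat_lit 8388608) (nat_lit 28690088050) (.one (nat_lit 10544480519) .nil))),
   .two (nat_lit 809500677) (nat_lit 10504634383) (.two (nat_lit 4194304) (nat_lit 156533522533) (.one (nat_lit 2097580) .nil)),
   .two (nat_lit 46407876612) (nat_lit 19093520396) (.two (nat_lit 605028353) (nat_lit 46978301967) (.two (nat_lit 2097152) (nat_lit 183912890431) (.one (nat_lit 19596837127) .nil))),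
   .two (nat_lit 4194308) (nat_lit 176160783) (.two (nat_lit 8388608) (nat_lit 71303280) (.one (nat_lit 4194734) .nil)),
   .two (nat_lit 8388612) (nat_lit 873463820) (.two (nat_lit 606076929) (nat_lit 780140658) (.one (nat_lit 28697428237) .nil)),
   .two (nat_lit 10504634373) (nat_lit 3565158425) (.two (nat_lit 2097152) (nat_lit 8388732) (.one (nat_lit 8389042) .nil)),
   .two (nat_lit 8388613) (nat_lit 809500687) (.two (nat_lit 8388608) (nat_lit 4194429) (.one (nat_lit 4194739) .nil)),
   .two (nat_lit 2889875461) (nat_lit 166129041433) (.two (nat_lit 4194304) (nat_lit 19127074940) (.one (nat_lit 1049012) .nil)),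
   .two (nat_lit 654311429) (nat_lit 184416206863) (.two (nat_lit 16777216) (nat_lit 12114198593) (.one (nat_lit 28690088199) .nil)),
   .two (nat_lit 1779433477) (nat_lit 20644364312) (.two (nat_lit 1048576) (nat_lit 159224168550) (.one (nat_lit 8389046) .nil)),
   .two (nat_lit 8388612) (nat_lit 21208498184) (.two (nat_lit 8388609) (nat_lit 20738736232) (.one (nat_lit 9867100554) .nil)),
   .two (nat_lit 157036838917) (nat_lit 3036676119) (.two (nat_lit 4194304) (nat_lit 183928619214) (.one (nat_lit 183928619428) .nil)),
   .two (nat_lit 169869316) (nat_lit 1276117000) (.two (nat_lit 2097153) (nat_lit 9866051599) (.two (nat_lit 1048576) (nat_lit 339738741) (.one (nat_lit 158144135616) .nil))),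
   .two (nat_lit 218103813) (nat_lit 159224168463) (.two (nat_lit 16777216) (nat_lit 159224168716) .nil),
   .two (nat_lit 11543773189) (nat_lit 166130089999) (.two (nat_lit 1048576) (nat_lit 12054429826) (.one (nat_lit 11543773449) .nil)),
   .two (nat_lit 605028357) (nat_lit 20638072840) (.two (nat_lit 34603009) (nat_lit 9869197361) (.two (nat_lit 4194304) (nat_lit 183845781620) (.one (nat_lit 20637024648) .nil))),
   .two (nat_lit 2956984325) (nat_lit 3464495112) (.two (nat_lit 9768534017) (nat_lit 19529728050) (.two (nat_lit 1048576) (nat_lit 11010048112) (.one (nat_lit 11010048388) .nil))),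
   .two (nat_lit 184549380) (nat_lit 1276117000) (.two (nat_lit 9765388289) (nat_lit 10338959375) (.two (nat_lit 4194304) (nat_lit 1309671544) (.one (nat_lit 16777670) .nil))),
   .two (nat_lit 4194308) (nat_lit 10336862216) (.two (nat_lit 4194305) (nat_lit 174753579109) (.one (nat_lit 46474985900) .nil)),
   .two (nat_lit 184416206853) (nat_lit 156533522444) (.two (nat_lit 606076929) (nat_lit 12114198592) (.one (nat_lit 183912890808) .nil)),
   .two (nat_lit 10370416645) (nat_lit 343932940) (.two (nat_lit 2097153) (nat_lit 343932991) (.one (nat_lit 183920230667) .nil)),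
   .two (nat_lit 4601151493) (nat_lit 654311439) (.two (nat_lit 1048576) (nat_lit 1312817267) (.one (nat_lit 1049034) .nil)),
   .two (nat_lit 8388612) (nat_lit 46407876616) (.two (nat_lit 34603009) (nat_lit 158653743147) (.two (nat_lit 1048576) (nat_lit 46508540008) (.one (nat_lit 8389067) .nil))),
   .two (nat_lit 20638072837) (nat_lit 9802088472) (.two (nat_lit 2097152) (nat_lit 9802088550) (.one (nat_lit 4194765) .nil)),
   .two (nat_lit 20638072837) (nat_lit 28693233688) (.two (nat_lit 2097152) (nat_lit 28693233767) (.one (nat_lit 4194767) .nil)),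
   .two (nat_lit 41943045) (nat_lit 11007950862) (.two (nat_lit 2097153) (nat_lit 104857615) (.two (nat_lit 16777216) (nat_lit 847249672) .nil)),
   .two (nat_lit 2097157) (nat_lit 46409973768) (.two (nat_lit 2097153) (nat_lit 3024093302) (.one (nat_lit 336593162) .nil)),
   .two (nat_lit 822083589) (nat_lit 169869326) (.two (nat_lit 41943041) (nat_lit 11492392975) (.two (nat_lit 2097152) (nat_lit 3539992703) (.one (nat_lit 889192715) .nil))),
   .two (nat_lit 176160772) (nat_lit 18928893960) (.two (nat_lit 8388609) (nat_lit 166132187199) (.one (nat_lit 4194782) .nil)),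
   .two (nat_lit 2889875461) (nat_lit 19127074842) (.two (nat_lit 16777216) (nat_lit 156465365231) (.one (nat_lit 101712340) .nil)),
   .two (nat_lit 2889875460) (nat_lit 37313576972) (.two (nat_lit 34603009) (nat_lit 3527409679) (.two (nat_lit 4194304) (nat_lit 158646403135) (.one (nat_lit 1846542602) .nil))),
   .two (nat_lit 183853121541) (nat_lit 10001317913) (.two (nat_lit 4194304) (nat_lit 19027460221) (.one (nat_lit 2097633) .nil)),
   .two (nat_lit 16777220) (nat_lit 705691674) (.two (nat_lit 8388608) (nat_lit 2416967797) (.one (nat_lit 1049058) .nil)),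
   .two (nat_lit 83886085) (nat_lit 2956984346) (.two (nat_lit 1048576) (nat_lit 272629961) (.one (nat_lit 4194787) .nil)),
   .two (nat_lit 183848927237) (nat_lit 2350907416) (.two (nat_lit 4194304) (nat_lit 37314625638) (.one (nat_lit 2097636) .nil)),
   .two (nat_lit 16777220) (nat_lit 2988441626) (.two (nat_lit 16777216) (nat_lit 47582281846) (.one (nat_lit 2097639) .nil)),
   .two (nat_lit 8388612) (nat_lit 11007950860) (.two (nat_lit 8388609) (nat_lit 19027460159) (.one (nat_lit 3525312943) .nil)),
   .two (nat_lit 2097157) (nat_lit 46409973768) (.two (nat_lit 34603009) (nat_lit 3460300826) (.two (nat_lit 16777216) (nat_lit 336593162) .nil)),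
   .two (nat_lit 4194308) (nat_lit 2887778312) (.two (nat_lit 2097153) (nat_lit 4601151503) (.two (nat_lit 1048576) (nat_lit 169869432) (.one (nat_lit 168821002) .nil))),
   .two (nat_lit 3458203653) (nat_lit 1191182351) (.two (nat_lit 2097152) (nat_lit 11492393024) (.one (nat_lit 46523220234) .nil)),
   .two (nat_lit 4194308) (nat_lit 46407876616) (.two (nat_lit 2097153) (nat_lit 4601151512) (.two (nat_lit 1048576) (nat_lit 9967763573) (.one (nat_lit 11610882310) .nil))),
   .two (nat_lit 41943045) (nat_lit 1795162127) (.two (nat_lit 16777216) (nat_lit 12054429799) (.one (nat_lit 8389101) .nil)),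
   .two (nat_lit 169869316) (nat_lit 1358954504) (.two (nat_lit 2097153) (nat_lit 1749024783) (.two (nat_lit 2097152) (nat_lit 21814575340) (.one (nat_lit 809500936) .nil))),
   .two (nat_lit 159224168453) (nat_lit 184989777945) (.two (nat_lit 8388608) (nat_lit 37748861) (.one (nat_lit 2420113896) .nil)),
   .two (nat_lit 16777221) (nat_lit 159224168455) (.two (nat_lit 612368387) (nat_lit 184549384) (.two (nat_lit 612368385) (nat_lit 184549391) (.two (nat_lit 8388608) (nat_lit 184549410) (.one (nat_lit 9781117022) .nil)))),
   .two (nat_lit 1276116996) (nat_lit 50331656) (.two (nat_lit 605028353) (nat_lit 50331663) (.two (nat_lit 1048576) (nat_lit 687865876) (.one (nat_lit 16777714) .nil))),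
   .two (nat_lit 174752530437) (nat_lit 11559501831) (.two (nat_lit 721420291) (nat_lit 1410334729) (.two (nat_lit 9765388289) (nat_lit 721420329) (.two (nat_lit 1048576) (nat_lit 721420396) (.one (nat_lit 117440682) .nil)))),
   .two (nat_lit 9948889093) (nat_lit 11479810054) (.two (nat_lit 620756993) (nat_lit 272629771) (.two (nat_lit 16777216) (nat_lit 183949590546) (.one (nat_lit 16777715) .nil))),
   .two (nat_lit 28693233669) (nat_lit 184986632200) (.two (nat_lit 9768534017) (nat_lit 1048587) (.two (nat_lit 1048576) (nat_lit 4194322) (.one (nat_lit 1049076) .nil))),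
   .two (nat_lit 184549380) (nat_lit 158144135176) (.two (nat_lit 16777217) (nat_lit 4599054379) (.two (nat_lit 2097152) (nat_lit 1291845669) (.one (nat_lit 16777717) .nil))),
   .two (nat_lit 184549380) (nat_lit 158144135176) (.two (nat_lit 16777217) (nat_lit 47582281776) (.two (nat_lit 2097152) (nat_lit 10015997971) (.one (nat_lit 28101837071) .nil))),
   .two (nat_lit 158143086597) (nat_lit 9934209031) (.two (nat_lit 606076931) (nat_lit 21207449608) (.two (nat_lit 606076929) (nat_lit 158176641040) (.two (nat_lit 2097152) (nat_lit 1745879151) (.one (nat_lit 1049079) .nil)))),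
   .two (nat_lit 184549380) (nat_lit 158144135176) (.two (nat_lit 16777217) (nat_lit 47582281776) (.two (nat_lit 2097152) (nat_lit 1291845669) (.one (nat_lit 16777720) .nil))),
   .two (nat_lit 209715205) (nat_lit 50331656) (.two (nat_lit 8388609) (nat_lit 50331663) (.two (nat_lit 8388608) (nat_lit 1426063426) (.one (nat_lit 1049081) .nil))),
   .two (nat_lit 9934209029) (nat_lit 174752530440) (.two (nat_lit 605028353) (nat_lit 1277165583) (.two (nat_lit 1048576) (nat_lit 21208498213) (.one (nat_lit 1049082) .nil))),
   .two (nat_lit 159217876997) (nat_lit 156372041736) (.two (nat_lit 8388609) (nat_lit 13188988977) (.two (nat_lit 8388608) (nat_lit 740294775) (.one (nat_lit 8389115) .nil))),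
   .two (nat_lit 166130089989) (nat_lit 1916796936) (.two (nat_lit 2097153) (nat_lit 1950351384) (.two (nat_lit 4194304) (nat_lit 9867100178) (.one (nat_lit 4194812) .nil))),
   .two (nat_lit 184419352581) (nat_lit 184986632199) (.two (nat_lit 183845781507) (nat_lit 843055116) (.two (nat_lit 34603009) (nat_lit 184419352617) (.two (nat_lit 1048576) (nat_lit 171966590) (.one (nat_lit 46477082907) .nil)))),
   .two (nat_lit 11492392964) (nat_lit 47555018759) (.two (nat_lit 176160771) (nat_lit 12129927176) (.two (nat_lit 8388609) (nat_lit 1191182351) (.two (nat_lit 2097152) (nat_lit 13228835052) (.one (nat_lit 8389120) .nil)))),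
   .two (nat_lit 158143086597) (nat_lit 20740833294) (.two (nat_lit 9768534017) (nat_lit 21811429401) (.two (nat_lit 2097152) (nat_lit 158176641154) (.one (nat_lit 1049089) .nil))),
   .two (nat_lit 21777874949) (nat_lit 822083591) (.two (nat_lit 68157443) (nat_lit 822083592) (.two (nat_lit 605028353) (nat_lit 184431935513) (.two (nat_lit 1048576) (nat_lit 16777370) (.one (nat_lit 1049090) .nil)))),
   .two (nat_lit 21777874949) (nat_lit 28758245384) (.two (nat_lit 605028353) (nat_lit 1277165583) (.two (nat_lit 1048576) (nat_lit 1277165587) (.one (nat_lit 2097667) .nil))),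
   .two (nat_lit 13191086085) (nat_lit 2969567239) (.two (nat_lit 37748739) (nat_lit 2969567240) (.two (nat_lit 37748737) (nat_lit 4043309081) (.two (nat_lit 4194304) (nat_lit 16777371) (.one (nat_lit 47584379376) .nil)))),
   .two (nat_lit 11484004357) (nat_lit 620757000) (.two (nat_lit 8388609) (nat_lit 620757007) (.two (nat_lit 2097152) (nat_lit 16777254) (.one (nat_lit 2097668) .nil))),
   .two (nat_lit 158143086597) (nat_lit 11492392968) (.two (nat_lit 605028353) (nat_lit 822083599) (.two (nat_lit 1048576) (nat_lit 2902458406) (.one (nat_lit 1049093) .nil))),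
   .two (nat_lit 705691652) (nat_lit 157043130376) (.two (nat_lit 34603009) (nat_lit 9806282776) (.two (nat_lit 16777216) (nat_lit 46507491405) (.one (nat_lit 8389126) .nil))),
   .two (nat_lit 10940841989) (nat_lit 3464495112) (.two (nat_lit 606076929) (nat_lit 156372041743) (.two (nat_lit 2097152) (nat_lit 9806282771) (.one (nat_lit 8389127) .nil))),
   .two (nat_lit 169869316) (nat_lit 1913651207) (.two (nat_lit 606076931) (nat_lit 1913651208) (.two (nat_lit 606076929) (nat_lit 739246095) (.two (nat_lit 1048576) (nat_lit 236978213) (.one (nat_lit 2097672) .nil)))),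
   .two (nat_lit 19596836869) (nat_lit 1358954503) (.two (nat_lit 83886083) (nat_lit 11610882057) (.two (nat_lit 9765388289) (nat_lit 83886121) (.two (nat_lit 1048576) (nat_lit 1191182465) (.one (nat_lit 16777520) .nil)))),
   .two (nat_lit 9933160453) (nat_lit 18933088264) (.two (nat_lit 4194305) (nat_lit 156372041743) (.two (nat_lit 4194304) (nat_lit 269484158) (.one (nat_lit 1049097) .nil))),
   .two (nat_lit 12062818309) (nat_lit 1343225864) (.two (nat_lit 2097153) (nat_lit 9866051599) (.two (nat_lit 2097152) (nat_lit 739246118) (.one (nat_lit 2097674) .nil))),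
   .two (nat_lit 705691652) (nat_lit 9781116936) (.two (nat_lit 34603009) (nat_lit 9781116943) (.two (nat_lit 1048576) (nat_lit 285212710) (.one (nat_lit 1049099) .nil))),
   .two (nat_lit 37748744) (nat_lit 101711887) (.two (nat_lit 2097153) (nat_lit 1343225921) (.two (nat_lit 2097152) (nat_lit 1343226018) (.one (nat_lit 169869836) .nil))),
   .two (nat_lit 272629768) (nat_lit 2887778312) (.two (nat_lit 4194308) (nat_lit 203423768) (.two (nat_lit 4194305) (nat_lit 2954887270) (.two (nat_lit 4194304) (nat_lit 11543773446) (.one (nat_lit 37749261) .nil)))),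
   .two (nat_lit 20638072838) (nat_lit 9781116935) (.two (nat_lit 9781116931) (nat_lit 174753579023) (.two (nat_lit 606076929) (nat_lit 11492393067) (.two (nat_lit 2097152) (nat_lit 16777385) (.one (nat_lit 16777744) .nil)))),
   .two (nat_lit 612368392) (nat_lit 50331655) (.two (nat_lit 16777216) (nat_lit 1786773544) .nil),
   .two (nat_lit 20638072836) (nat_lit 41943055) (.two (nat_lit 8388609) (nat_lit 20738736146) (.one (nat_lit 8389138) .nil)),
   .two (nat_lit 176160772) (nat_lit 156367847443) (.two (nat_lit 8388609) (nat_lit 156367847443) (.one (nat_lit 8389139) .nil)),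
   .two (nat_lit 158143086597) (nat_lit 1916796947) (.two (nat_lit 37748737) (nat_lit 21207449619) (.one (nat_lit 4194488) .nil)),
   .two (nat_lit 20638072836) (nat_lit 41943055) (.two (nat_lit 8388609) (nat_lit 20738736146) (.one (nat_lit 8389140) .nil)),
   .two (nat_lit 156367847429) (nat_lit 2902458387) (.two (nat_lit 37748737) (nat_lit 184549394) (.one (nat_lit 16777401) .nil)),
   .two (nat_lit 2969567240) (nat_lit 159217876999) (.two (nat_lit 606076931) (nat_lit 620757007) (.two (nat_lit 606076929) (nat_lit 47563407431) (.two (nat_lit 2097152) (nat_lit 10351542436) (.one (nat_lit 16777754) .nil)))),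
   .two (nat_lit 2969567240) (nat_lit 3525312519) (.two (nat_lit 2887778307) (nat_lit 2969567247) (.two (nat_lit 2097153) (nat_lit 2969567267) (.two (nat_lit 2097152) (nat_lit 11559501918) (.one (nat_lit 16777755) .nil)))),
   .two (nat_lit 1913651208) (nat_lit 9799991305) (.two (nat_lit 1847590917) (nat_lit 1913651215) (.two (nat_lit 9765388289) (nat_lit 19128123429) (.two (nat_lit 1048576) (nat_lit 157036839005) (.one (nat_lit 1049116) .nil)))),
   .two (nat_lit 318767113) (nat_lit 675282953) (.two (nat_lit 11479810050) (nat_lit 10385096719) (.two (nat_lit 28693233669) (nat_lit 10385096723) (.two (nat_lit 37748737) (nat_lit 1862271013) (.two (nat_lit 4194304) (nat_lit 47596961885) (.one (nat_lit 16777757) .nil))))),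
   .two (nat_lit 11492392968) (nat_lit 713031686) (.two (nat_lit 713031684) (nat_lit 11492392975) (.two (nat_lit 9781116929) (nat_lit 8388686) (.two (nat_lit 8388608) (nat_lit 16777494) (.one (nat_lit 16777758) .nil)))),
   .two (nat_lit 2889875458) (nat_lit 156372041743) (.two (nat_lit 4194305) (nat_lit 46414168082) (.one (nat_lit 18933088441) .nil)),
   .two (nat_lit 11492392968) (nat_lit 606076935) (.two (nat_lit 37748739) (nat_lit 11492392975) (.two (nat_lit 37748737) (nat_lit 11492392995) (.two (nat_lit 4194304) (nat_lit 19545456734) (.one (nat_lit 184431936027) .nil)))),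
   .two (nat_lit 713031688) (nat_lit 606076936) (.two (nat_lit 169869316) (nat_lit 11484004368) (.two (nat_lit 41943043) (nat_lit 185021235250) (.two (nat_lit 2097153) (nat_lit 10913579130) (.two (nat_lit 2097152) (nat_lit 183953785124) (.one (nat_lit 8389160) .nil))))),
   .two (nat_lit 4194312) (nat_lit 157036838920) (.two (nat_lit 4194308) (nat_lit 4632608794) (.two (nat_lit 4194305) (nat_lit 840957988) (.two (nat_lit 4194304) (nat_lit 1048869) (.one (nat_lit 1048905) .nil)))),
   .two (nat_lit 37748744) (nat_lit 174752530439) (.two (nat_lit 37748739) (nat_lit 174752530447) (.two (nat_lit 37748737) (nat_lit 1309671495) (.two (nat_lit 2097152) (nat_lit 2953838879) (.one (nat_lit 1049129) .nil)))),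
   .two (nat_lit 3460300808) (nat_lit 10336862215) (.two (nat_lit 156365750275) (nat_lit 20637024271) (.two (nat_lit 156365750273) (nat_lit 4027580483) (.two (nat_lit 2097152) (nat_lit 47547678893) (.one (nat_lit 1049130) .nil)))),
   .two (nat_lit 10939793416) (nat_lit 117440519) (.two (nat_lit 1191182339) (nat_lit 10939793423) (.two (nat_lit 9765388289) (nat_lit 10385096769) (.two (nat_lit 1048576) (nat_lit 9948889354) (.one (nat_lit 28772925762) .nil)))),
   .two (nat_lit 813694984) (nat_lit 1745879048) (.two (nat_lit 8388612) (nat_lit 1745879055) (.two (nat_lit 8388609) (nat_lit 19027460207) (.two (nat_lit 8388608) (nat_lit 2097442) (.one (nat_lit 807403849) .nil)))),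
   .two (nat_lit 2953838601) (nat_lit 1358954504) (.two (nat_lit 13187940357) (nat_lit 1749024783) (.two (nat_lit 34603009) (nat_lit 1746927681) (.two (nat_lit 1048576) (nat_lit 138412300) (.one (nat_lit 4194862) .nil)))),
   .two (nat_lit 276824072) (nat_lit 2889875462) (.two (nat_lit 41943045) (nat_lit 10537140252) (.two (nat_lit 41943043) (nat_lit 1276117007) (.two (nat_lit 605028353) (nat_lit 47550824567) (.two (nat_lit 1048576) (nat_lit 19033751723) (.one (nat_lit 1049135) .nil))))),
   .two (nat_lit 165526110216) (nat_lit 157038936071) (.two (nat_lit 156365750275) (nat_lit 18928893967) (.two (nat_lit 156365750273) (nat_lit 2353004674) (.two (nat_lit 2097152) (nat_lit 4194609) (.one (nat_lit 20640170512) .nil)))),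
   .two (nat_lit 4194308) (nat_lit 2920284182) (.two (nat_lit 4194305) (nat_lit 2920284182) (.one (nat_lit 37749268) .nil)),
   .two (nat_lit 37748743) (nat_lit 101711887) (.two (nat_lit 37748739) (nat_lit 1376780355) (.two (nat_lit 37748737) (nat_lit 101711911) (.two (nat_lit 1048576) (nat_lit 9934209206) (.one (nat_lit 11543773520) .nil)))),
   .two (nat_lit 272629768) (nat_lit 11476664335) (.two (nat_lit 4194306) (nat_lit 101711911) (.two (nat_lit 4194307) (nat_lit 184416206885) (.two (nat_lit 37748737) (nat_lit 1048743) (.two (nat_lit 1048576) (nat_lit 4194612) (.one (nat_lit 272630324) .nil))))),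
   .two (nat_lit 2954887176) (nat_lit 11543773195) (.two (nat_lit 169869316) (nat_lit 10436476965) (.two (nat_lit 169869316) (nat_lit 1779433491) (.two (nat_lit 606076929) (nat_lit 11543773273) (.two (nat_lit 1048576) (nat_lit 2954887349) (.one (nat_lit 11543773744) .nil))))),
   .two (nat_lit 2097161) (nat_lit 1178599439) (.two (nat_lit 10504634373) (nat_lit 28693233701) (.two (nat_lit 10504634373) (nat_lit 1178599443) (.two (nat_lit 156365750273) (nat_lit 1178599605) (.two (nat_lit 2097152) (nat_lit 1178599605) (.one (nat_lit 9869197874) .nil))))),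
   .two (nat_lit 41943047) (nat_lit 239075353) (.two (nat_lit 171966467) (nat_lit 713031715) (.two (nat_lit 605028353) (nat_lit 713031719) (.two (nat_lit 1048576) (nat_lit 880804026) (.one (nat_lit 8389174) .nil)))),
   .two (nat_lit 272629768) (nat_lit 1343225867) (.two (nat_lit 4194308) (nat_lit 9765388325) (.two (nat_lit 4194308) (nat_lit 1947205651) (.two (nat_lit 37748737) (nat_lit 11543773273) (.two (nat_lit 1048576) (nat_lit 272629941) (.one (nat_lit 4194871) .nil))))),
   .two (nat_lit 4194311) (nat_lit 1914699801) (.two (nat_lit 2889875459) (nat_lit 13222543396) (.two (nat_lit 4194305) (nat_lit 12115247144) (.two (nat_lit 4194304) (nat_lit 2097461) (.one (nat_lit 2097720) .nil)))),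
   .two (nat_lit 9934209032) (nat_lit 2953838603) (.two (nat_lit 1276116996) (nat_lit 1310720037) (.two (nat_lit 169869316) (nat_lit 165525061652) (.two (nat_lit 2097153) (nat_lit 9866051765) (.two (nat_lit 1048576) (nat_lit 9934209205) (.one (nat_lit 2097721) .nil))))),
   .two (nat_lit 158143086599) (nat_lit 2954887183) (.two (nat_lit 1276116995) (nat_lit 2954887203) (.two (nat_lit 606076929) (nat_lit 185020186663) (.two (nat_lit 2097152) (nat_lit 739246266) (.one (nat_lit 740295247) .nil)))),
   .two (nat_lit 158158815239) (nat_lit 46414168079) (.two (nat_lit 8388611) (nat_lit 3573547044) (.two (nat_lit 8388609) (nat_lit 3003121704) (.two (nat_lit 4194304) (nat_lit 8388918) (.one (nat_lit 8389179) .nil)))),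
   .two (nat_lit 8388615) (nat_lit 1277165583) (.two (nat_lit 176160771) (nat_lit 1277165603) (.two (nat_lit 8388609) (nat_lit 166230753319) (.two (nat_lit 8388608) (nat_lit 639631546) (.one (nat_lit 639631696) .nil)))),
   .two (nat_lit 2889875461) (nat_lit 166129041427) (.one (nat_lit 1049149) .nil),
   .two (nat_lit 11476664328) (nat_lit 809500687) (.two (nat_lit 9933160453) (nat_lit 2954887203) (.two (nat_lit 9933160453) (nat_lit 2954887202) (.two (nat_lit 2097153) (nat_lit 168820906) (.two (nat_lit 2097152) (nat_lit 2956984633) (.one (nat_lit 4194881) .nil))))),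
   .two (nat_lit 10343153672) (nat_lit 157038936075) (.two (nat_lit 2889875458) (nat_lit 3464495168) (.two (nat_lit 2889875460) (nat_lit 9772728340) (.two (nat_lit 4194305) (nat_lit 47555018841) (.two (nat_lit 4194304) (nat_lit 847249598) (.one (nat_lit 8389186) .nil))))),
   .two (nat_lit 654311431) (nat_lit 184416206872) (.two (nat_lit 2097155) (nat_lit 2902458403) (.two (nat_lit 2097153) (nat_lit 2902458407) (.two (nat_lit 2097152) (nat_lit 16777538) (.one (nat_lit 1049155) .nil)))),
   .two (nat_lit 270532615) (nat_lit 272629775) (.two (nat_lit 2097155) (nat_lit 272629795) (.two (nat_lit 2097153) (nat_lit 809500711) (.two (nat_lit 1048576) (nat_lit 9934209206) (.one (nat_lit 705692236) .nil)))),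
   .two (nat_lit 156372041733) (nat_lit 168820756) (.one (nat_lit 1048768) .nil),
   .two (nat_lit 203423749) (nat_lit 3464495122) (.one (nat_lit 8389190) .nil),
   .two (nat_lit 739246085) (nat_lit 13195280403) (.one (nat_lit 209715389) .nil),
   .two (nat_lit 605028357) (nat_lit 11618222098) (.one (nat_lit 4194887) .nil),
   .two (nat_lit 46980399109) (nat_lit 1048596) (.one (nat_lit 135266492) .nil),
   .two (nat_lit 4194308) (nat_lit 46474985491) (.one (nat_lit 174753579348) .nil),
   .two (nat_lit 272629768) (nat_lit 9934209035) (.two (nat_lit 2887778308) (nat_lit 11479810086) (.two (nat_lit 272629765) (nat_lit 807403541) (.two (nat_lit 9766436865) (nat_lit 1346371675) (.two (nat_lit 2097152) (nat_lit 4194636) (.one (nat_lit 2097737) .nil))))),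
   .two (nat_lit 157038936071) (nat_lit 159217877007) (.two (nat_lit 169869315) (nat_lit 4194391) (.two (nat_lit 2097153) (nat_lit 11513364519) (.two (nat_lit 2097152) (nat_lit 1212154038) (.one (nat_lit 4194646) .nil)))),
   .two (nat_lit 10504634375) (nat_lit 612368399) (.two (nat_lit 1175453699) (nat_lit 109051940) (.two (nat_lit 9765388289) (nat_lit 75497511) (.two (nat_lit 2097152) (nat_lit 645923131) (.one (nat_lit 1283457363) .nil)))),
   .two (nat_lit 8388615) (nat_lit 28758245406) (.two (nat_lit 169869315) (nat_lit 8388643) (.two (nat_lit 2097153) (nat_lit 343932967) (.two (nat_lit 2097152) (nat_lit 176160954) (.one (nat_lit 1344274775) .nil)))),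
   .two (nat_lit 75497480) (nat_lit 1343225867) (.two (nat_lit 184993972229) (nat_lit 156465365029) (.two (nat_lit 11476664324) (nat_lit 11618222098) (.two (nat_lit 34603009) (nat_lit 8388697) (.two (nat_lit 8388608) (nat_lit 101712053) (.one (nat_lit 101712439) .nil))))),
   .two (nat_lit 813694984) (nat_lit 306184208) (.two (nat_lit 46980399109) (nat_lit 8388647) (.two (nat_lit 4194305) (nat_lit 8388647) (.two (nat_lit 2097152) (nat_lit 104857909) (.one (nat_lit 104858168) .nil)))),
   .two (nat_lit 9766436872) (nat_lit 608174097) (.two (nat_lit 2889875461) (nat_lit 203423783) (.two (nat_lit 4194305) (nat_lit 203423783) (.two (nat_lit 8388608) (nat_lit 1782579533) (.one (nat_lit 4194891) .nil)))),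
   .two (nat_lit 8388615) (nat_lit 705691683) (.two (nat_lit 4194308) (nat_lit 11476664359) (.two (nat_lit 8388608) (nat_lit 2097488) (.one (nat_lit 2097745) .nil))),
   .two (nat_lit 4194308) (nat_lit 1048590) (.two (nat_lit 1048576) (nat_lit 306184216) (.one (nat_lit 843055322) .nil)),
   .two (nat_lit 705691652) (nat_lit 1191182341) (.two (nat_lit 16777217) (nat_lit 157035790379) (.one (nat_lit 1048923) .nil)),
   .two (nat_lit 13191086085) (nat_lit 165532401669) (.two (nat_lit 8388609) (nat_lit 156367847489) .nil),
   .two (nat_lit 605028357) (nat_lit 822083589) (.two (nat_lit 50331649) (nat_lit 184986632200) (.two (nat_lit 4194304) (nat_lit 3524263979) (.one (nat_lit 1048926) .nil))),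
   .two (nat_lit 4194308) (nat_lit 754974725) (.two (nat_lit 50331649) (nat_lit 272629775) (.one (nat_lit 16777569) .nil)),
   .two (nat_lit 285212677) (nat_lit 46409973765) (.two (nat_lit 4194305) (nat_lit 46523220032) .nil),
   .two (nat_lit 4194308) (nat_lit 156968681477) (.two (nat_lit 34603009) (nat_lit 843055128) (.one (nat_lit 1048813) .nil)),
   .two (nat_lit 41943045) (nat_lit 889192513) .nil,
   .two (nat_lit 270532613) (nat_lit 46980399109) (.two (nat_lit 2097153) (nat_lit 708837422) (.one (nat_lit 1048930) .nil)),
   .two (nat_lit 176160772) (nat_lit 156367847429) (.two (nat_lit 37748737) (nat_lit 12121538603) (.one (nat_lit 8388848) .nil)),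
   .two (nat_lit 8388613) (nat_lit 673185804) (.two (nat_lit 8388608) (nat_lit 166230753325) (.one (nat_lit 4599054455) .nil)),
   .two (nat_lit 8388612) (nat_lit 9899606029) (.two (nat_lit 8388608) (nat_lit 13187940447) (.one (nat_lit 645923026) .nil)),
   .two (nat_lit 809500677) (nat_lit 2416967692) (.two (nat_lit 4194304) (nat_lit 37246468138) (.one (nat_lit 839909495) .nil)),
   .two (nat_lit 50331653) (nat_lit 176160773) (.two (nat_lit 8388609) (nat_lit 10015998017) .nil),
   .two (nat_lit 285212677) (nat_lit 28693233669) (.two (nat_lit 37748737) (nat_lit 1191182444) .nil),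
   .two (nat_lit 272629765) (nat_lit 156372041743) (.one (nat_lit 3464495219) .nil),
   .two (nat_lit 654311429) (nat_lit 185020186636) (.two (nat_lit 16777216) (nat_lit 10000269438) .nil),
   .two (nat_lit 612368389) (nat_lit 19596836869) (.two (nat_lit 9765388289) (nat_lit 645922862) (.one (nat_lit 2920284369) .nil)),
   .two (nat_lit 1343225861) (nat_lit 1191182341) (.two (nat_lit 16777217) (nat_lit 9866051599) (.one (nat_lit 12114198647) .nil)),
   .two (nat_lit 2889875461) (nat_lit 165532401669) (.two (nat_lit 8388609) (nat_lit 156367847439) (.one (nat_lit 2956984526) .nil)),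
   .two (nat_lit 101711877) (nat_lit 1291845637) (.two (nat_lit 16777217) (nat_lit 1779433487) (.one (nat_lit 1048831) .nil)),
   .two (nat_lit 654311429) (nat_lit 20638072837) (.two (nat_lit 2097153) (nat_lit 721420502) .nil),
   .two (nat_lit 806354949) (nat_lit 9781116940) (.two (nat_lit 16777216) (nat_lit 1048675) (.one (nat_lit 1048937) .nil)),
   .two (nat_lit 10343153669) (nat_lit 20638072837) (.two (nat_lit 2097153) (nat_lit 165532401679) (.one (nat_lit 8388865) .nil)),
   .two (nat_lit 50331653) (nat_lit 156569174029) (.two (nat_lit 16777216) (nat_lit 12117344304) (.one (nat_lit 1862271213) .nil)),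
   .two (nat_lit 16777221) (nat_lit 11476664324) (.two (nat_lit 16777217) (nat_lit 12147752984) (.one (nat_lit 10335813859) .nil)),
   .two (nat_lit 47555018757) (nat_lit 20638072896) .nil,
   .two (nat_lit 4194308) (nat_lit 158083317765) (.two (nat_lit 41943041) (nat_lit 13191086095) (.one (nat_lit 9802088655) .nil)),
   .two (nat_lit 176160772) (nat_lit 156367847439) (.two (nat_lit 8388608) (nat_lit 2923429992) (.one (nat_lit 4194714) .nil)),
   .two (nat_lit 8388612) (nat_lit 822083599) (.two (nat_lit 1048576) (nat_lit 156573368432) (.one (nat_lit 8389019) .nil)),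
   .two (nat_lit 184986632197) (nat_lit 12117344268) (.two (nat_lit 34603009) (nat_lit 11513364586) (.one (nat_lit 4194695) .nil)),
   .two (nat_lit 8388612) (nat_lit 13187940417) (.one (nat_lit 1048989) .nil),
   .two (nat_lit 1191182341) (nat_lit 2887778312) (.two (nat_lit 16777217) (nat_lit 10504634383) (.two (nat_lit 16777216) (nat_lit 2097357) (.one (nat_lit 2097754) .nil))),
   .two (nat_lit 270532613) (nat_lit 9781116943) (.two (nat_lit 1048576) (nat_lit 1914699892) (.one (nat_lit 2097568) .nil)),
   .two (nat_lit 11546918917) (nat_lit 11517558848) (.one (nat_lit 8389211) .nil),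
   .two (nat_lit 11476664324) (nat_lit 18933088264) (.two (nat_lit 612368385) (nat_lit 183946444823) (.two (nat_lit 4194304) (nat_lit 156566028394) (.one (nat_lit 1048994) .nil))),
   .two (nat_lit 8388612) (nat_lit 159217877007) (.two (nat_lit 8388608) (nat_lit 28790751343) (.one (nat_lit 2920284755) .nil)),
   .two (nat_lit 705691652) (nat_lit 19530776591) (.two (nat_lit 1048576) (nat_lit 2097358) (.one (nat_lit 2097572) .nil)),
   .two (nat_lit 8388612) (nat_lit 12047089679) (.two (nat_lit 8388608) (nat_lit 135266421) (.one (nat_lit 1049180) .nil)),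
   .two (nat_lit 11543773189) (nat_lit 706740238) (.two (nat_lit 16777217) (nat_lit 1847591117) (.one (nat_lit 1847591514) .nil)),
   .two (nat_lit 11543773189) (nat_lit 11007950860) (.two (nat_lit 9765388289) (nat_lit 19597885556) (.one (nat_lit 337641888) .nil)),
   .two (nat_lit 4194308) (nat_lit 10504634383) (.two (nat_lit 4194304) (nat_lit 1914699892) (.one (nat_lit 2097550) .nil)),
   .two (nat_lit 41943045) (nat_lit 28757196808) (.two (nat_lit 34603009) (nat_lit 4605345855) (.one (nat_lit 8389032) .nil)),
   .two (nat_lit 11492392965) (nat_lit 8388670) (.one (nat_lit 880804002) .nil),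
   .two (nat_lit 605028357) (nat_lit 4605345800) (.two (nat_lit 4194305) (nat_lit 1175453711) (.two (nat_lit 4194304) (nat_lit 75497585) (.one (nat_lit 1049181) .nil))),
   .two (nat_lit 8388613) (nat_lit 28758245384) (.two (nat_lit 2097153) (nat_lit 185027526679) (.two (nat_lit 2097152) (nat_lit 8388816) (.one (nat_lit 8389035) .nil))),
   .two (nat_lit 713031684) (nat_lit 13191086095) (.two (nat_lit 16777216) (nat_lit 4194427) (.one (nat_lit 4194733) .nil)),
   .two (nat_lit 8388612) (nat_lit 169869320) (.two (nat_lit 606076929) (nat_lit 1175453711) (.two (nat_lit 8388608) (nat_lit 1048786) (.one (nat_lit 184986632456) .nil))),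
   .two (nat_lit 4194308) (nat_lit 839909417) (.two (nat_lit 16777216) (nat_lit 11610882111) (.one (nat_lit 1049007) .nil)),
   .two (nat_lit 270532613) (nat_lit 156372041736) (.two (nat_lit 8388609) (nat_lit 10538188825) (.two (nat_lit 1048576) (nat_lit 46978302064) (.one (nat_lit 8389214) .nil))),
   .two (nat_lit 4194308) (nat_lit 713031688) (.two (nat_lit 4194305) (nat_lit 11551113239) (.two (nat_lit 8388608) (nat_lit 306184293) (.one (nat_lit 8389040) .nil))),
   .two (nat_lit 2889875461) (nat_lit 12047089672) (.two (nat_lit 156364701697) (nat_lit 4194327) (.two (nat_lit 8388608) (nat_lit 11610882168) (.one (nat_lit 4194737) .nil))),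
   .two (nat_lit 9781116933) (nat_lit 1947205644) (.two (nat_lit 50331649) (nat_lit 174752530543) (.one (nat_lit 1049183) .nil)),
   .two (nat_lit 11543773189) (nat_lit 156372041740) (.two (nat_lit 34603009) (nat_lit 46414168127) (.one (nat_lit 1049013) .nil)),
   .two (nat_lit 1191182341) (nat_lit 104857615) (.two (nat_lit 4194304) (nat_lit 2357199053) (.one (nat_lit 8389216) .nil)),
   .two (nat_lit 10939793413) (nat_lit 20738736193) (.one (nat_lit 2097761) .nil),
   .two (nat_lit 9934209029) (nat_lit 9899606029) (.two (nat_lit 605028353) (nat_lit 159217877007) (.two (nat_lit 1048576) (nat_lit 2097278) (.one (nat_lit 1049186) .nil))),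
   .two (nat_lit 2889875461) (nat_lit 183853121551) (.two (nat_lit 4194304) (nat_lit 142606544) (.one (nat_lit 2424308141) .nil)),
   .two (nat_lit 165526110213) (nat_lit 272629775) (.two (nat_lit 2097152) (nat_lit 4194536) (.one (nat_lit 4194920) .nil)),
   .two (nat_lit 1795162117) (nat_lit 156968681487) (.two (nat_lit 1048576) (nat_lit 9781117031) (.one (nat_lit 46489665970) .nil)),
   .two (nat_lit 2097157) (nat_lit 157038936079) (.two (nat_lit 2097152) (nat_lit 46409974184) .nil),
   .two (nat_lit 4605345797) (nat_lit 2349858829) (.two (nat_lit 4194305) (nat_lit 10436477049) (.one (nat_lit 8389059) .nil)),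
   .two (nat_lit 9934209029) (nat_lit 12114198536) (.two (nat_lit 34603009) (nat_lit 159251431465) (.two (nat_lit 1048576) (nat_lit 2988441663) (.one (nat_lit 606077332) .nil))),
   .two (nat_lit 9781116933) (nat_lit 11614027822) (.two (nat_lit 1048576) (nat_lit 174688567404) (.one (nat_lit 4194922) .nil)),
   .two (nat_lit 8388613) (nat_lit 9948889103) (.two (nat_lit 16777216) (nat_lit 159224168881) .nil),
   .two (nat_lit 3458203653) (nat_lit 9781116943) (.two (nat_lit 2097152) (nat_lit 2902458432) (.one (nat_lit 16777668) .nil)),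
   .two (nat_lit 50331653) (nat_lit 19026411544) (.two (nat_lit 1048576) (nat_lit 10385096822) (.one (nat_lit 1049031) .nil)),
   .two (nat_lit 605028357) (nat_lit 218103823) (.two (nat_lit 16777216) (nat_lit 10000269517) (.one (nat_lit 1049032) .nil)),
   .two (nat_lit 4194308) (nat_lit 156567076878) (.two (nat_lit 2097153) (nat_lit 272629775) (.two (nat_lit 16777216) (nat_lit 673185903) (.one (nat_lit 4194925) .nil))),
   .two (nat_lit 11543773189) (nat_lit 174753579023) (.two (nat_lit 1048576) (nat_lit 21208498280) (.one (nat_lit 9867100570) .nil)),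
   .two (nat_lit 11479810053) (nat_lit 2988441612) (.two (nat_lit 4194305) (nat_lit 9967763560) (.one (nat_lit 9934209448) .nil)),
   .two (nat_lit 4194308) (nat_lit 1291845647) (.two (nat_lit 2097152) (nat_lit 71303613) .nil),
   .two (nat_lit 2889875461) (nat_lit 185020186636) (.two (nat_lit 37748737) (nat_lit 185020186687) (.one (nat_lit 1049191) .nil)),
   .two (nat_lit 176160773) (nat_lit 28086108175) (.two (nat_lit 8388608) (nat_lit 156364701812) (.one (nat_lit 159250383246) .nil)),
   .two (nat_lit 11476664324) (nat_lit 19530776584) (.two (nat_lit 34603009) (nat_lit 69206059) (.two (nat_lit 1048576) (nat_lit 2097385) (.one (nat_lit 12047090111) .nil))),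
   .two (nat_lit 184549380) (nat_lit 1913651215) (.two (nat_lit 16777216) (nat_lit 2416967873) (.one (nat_lit 1049033) .nil)),
   .two (nat_lit 705691652) (nat_lit 157038936076) (.two (nat_lit 34603009) (nat_lit 174755676276) (.one (nat_lit 13224640941) .nil)),
   .two (nat_lit 1779433477) (nat_lit 156367847439) (.two (nat_lit 1048576) (nat_lit 28089254004) (.one (nat_lit 47584379296) .nil)),
   .two (nat_lit 1277165573) (nat_lit 46980399117) (.two (nat_lit 9766436865) (nat_lit 46980399130) (.two (nat_lit 16777216) (nat_lit 11614028183) .nil)),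
   .two (nat_lit 8388612) (nat_lit 47548727311) (.two (nat_lit 4194304) (nat_lit 606077357) .nil),
   .two (nat_lit 2889875460) (nat_lit 4605345857) (.one (nat_lit 47555019176) .nil),
   .two (nat_lit 159224168453) (nat_lit 16777224) (.two (nat_lit 612368385) (nat_lit 83886292) (.one (nat_lit 16777838) .nil)),
   .two (nat_lit 4194308) (nat_lit 3539992584) (.two (nat_lit 37748737) (nat_lit 1846542451) (.one (nat_lit 1049199) .nil)),
   .two (nat_lit 176160773) (nat_lit 9802088460) (.two (nat_lit 8388609) (nat_lit 157038936172) (.one (nat_lit 166132187761) .nil)),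
   .two (nat_lit 47555018757) (nat_lit 3021996046) (.two (nat_lit 8388609) (nat_lit 1191182351) (.two (nat_lit 2097152) (nat_lit 13228835052) (.one (nat_lit 8389237) .nil))),
   .two (nat_lit 16777220) (nat_lit 12054429711) (.two (nat_lit 8388608) (nat_lit 46523220079) (.one (nat_lit 158158815646) .nil)),
   .two (nat_lit 705691652) (nat_lit 165526110216) (.two (nat_lit 50331649) (nat_lit 1410334837) (.one (nat_lit 184416207295) .nil)),
   .two (nat_lit 11479810052) (nat_lit 2988441612) (.two (nat_lit 37748737) (nat_lit 1847590957) (.two (nat_lit 4194304) (nat_lit 9967763560) (.one (nat_lit 28758245805) .nil))),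
   .two (nat_lit 169869316) (nat_lit 11492392975) (.two (nat_lit 16777216) (nat_lit 11007950949) (.one (nat_lit 706740669) .nil)),
   .two (nat_lit 713031684) (nat_lit 236978241) (.one (nat_lit 2097782) .nil),
   .two (nat_lit 9781116933) (nat_lit 159216828429) (.two (nat_lit 4194305) (nat_lit 251658266) (.two (nat_lit 1048576) (nat_lit 19029557363) (.one (nat_lit 4194935) .nil))),
   .two (nat_lit 1358954501) (nat_lit 21207449608) (.two (nat_lit 9781116929) (nat_lit 1309671447) (.two (nat_lit 1048576) (nat_lit 83886198) (.one (nat_lit 166229705123) .nil))),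
   .two (nat_lit 705691652) (nat_lit 166132187151) (.two (nat_lit 1048576) (nat_lit 3527409767) (.one (nat_lit 9902752201) .nil)),
   .two (nat_lit 46414168068) (nat_lit 3021996046) (.two (nat_lit 8388609) (nat_lit 1191182351) (.two (nat_lit 2097152) (nat_lit 10947133570) (.one (nat_lit 16777852) .nil))),
   .two (nat_lit 2902458372) (nat_lit 3527409705) (.two (nat_lit 16777216) (nat_lit 12117344385) (.one (nat_lit 1178599882) .nil)),
   .two (nat_lit 8388612) (nat_lit 183845781519) (.two (nat_lit 8388608) (nat_lit 1913651627) .nil),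
   .two (nat_lit 272629765) (nat_lit 28790751245) (.two (nat_lit 4194305) (nat_lit 46977253422) (.two (nat_lit 4194304) (nat_lit 28790751335) (.one (nat_lit 166229705101) .nil))),
   .two (nat_lit 8388612) (nat_lit 12047089728) (.one (nat_lit 1049214) .nil),
   .two (nat_lit 2887778308) (nat_lit 303038507) (.two (nat_lit 2097152) (nat_lit 4631560305) (.one (nat_lit 166229705155) .nil)),
   .two (nat_lit 10336862213) (nat_lit 1343225871) (.two (nat_lit 2097152) (nat_lit 158176641133) (.one (nat_lit 3524264403) .nil)),
   .two (nat_lit 101711877) (nat_lit 156365750280) (.two (nat_lit 50331649) (nat_lit 1277165680) (.one (nat_lit 174752530877) .nil)),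
   .two (nat_lit 2887778308) (nat_lit 156372041736) (.two (nat_lit 2097153) (nat_lit 12054429719) (.two (nat_lit 4194304) (nat_lit 10510926220) .nil)),
   .two (nat_lit 8388612) (nat_lit 12047089679) (.two (nat_lit 8388608) (nat_lit 772800575) (.one (nat_lit 1209008557) .nil)),
   .two (nat_lit 16777221) (nat_lit 1376780300) (.two (nat_lit 16777217) (nat_lit 156465365037) (.two (nat_lit 1048576) (nat_lit 3003121785) (.one (nat_lit 16777860) .nil))),
   .two (nat_lit 713031685) (nat_lit 46978301960) (.two (nat_lit 8388609) (nat_lit 3558867048) (.one (nat_lit 46508540301) .nil)),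
   .two (nat_lit 2956984325) (nat_lit 156548202520) (.two (nat_lit 4194304) (nat_lit 19026411624) (.one (nat_lit 1049221) .nil)),
   .two (nat_lit 2902458373) (nat_lit 11584667713) (.one (nat_lit 8389254) .nil),
   .two (nat_lit 176160772) (nat_lit 1277165576) (.two (nat_lit 8388609) (nat_lit 9867100184) (.two (nat_lit 1048576) (nat_lit 102760557) (.one (nat_lit 2097631) .nil))),
   .two (nat_lit 10939793413) (nat_lit 117440527) (.two (nat_lit 8388608) (nat_lit 11492393387) .nil),
   .two (nat_lit 272629765) (nat_lit 28087156760) (.two (nat_lit 2097152) (nat_lit 12117344374) (.one (nat_lit 12618564002) .nil)),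
   .two (nat_lit 1913651205) (nat_lit 10007609357) (.two (nat_lit 156364701697) (nat_lit 10007609447) (.one (nat_lit 19134415308) .nil)),
   .two (nat_lit 2097157) (nat_lit 11492392975) (.two (nat_lit 1048576) (nat_lit 46474985583) (.one (nat_lit 1191182957) .nil)),
   .two (nat_lit 21778923525) (nat_lit 37246468161) (.one (nat_lit 1049223) .nil),
   .two (nat_lit 705691652) (nat_lit 10437525569) (.one (nat_lit 2097800) .nil),
   .two (nat_lit 11479810053) (nat_lit 46407876632) (.two (nat_lit 8388608) (nat_lit 4634706331) .nil),
   .two (nat_lit 16777220) (nat_lit 638582796) (.two (nat_lit 16777217) (nat_lit 10000269431) (.one (nat_lit 1049225) .nil)),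
   .two (nat_lit 2902458372) (nat_lit 713031695) (.two (nat_lit 16777216) (nat_lit 13195280492) (.one (nat_lit 8389258) .nil)),
   .two (nat_lit 2889875460) (nat_lit 1929379865) (.two (nat_lit 4194304) (nat_lit 10544480385) (.one (nat_lit 8389259) .nil)),
   .two (nat_lit 169869316) (nat_lit 19599982617) (.two (nat_lit 2097152) (nat_lit 4194662) (.one (nat_lit 4028629408) .nil)),
   .two (nat_lit 117440517) (nat_lit 11484004378) (.two (nat_lit 16777216) (nat_lit 21785215108) (.one (nat_lit 159257723286) .nil)),
   .two (nat_lit 16777220) (nat_lit 1913651208) (.two (nat_lit 16777217) (nat_lit 12147752983) (.two (nat_lit 16777216) (nat_lit 10537140700) .nil)),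
   .two (nat_lit 46414168068) (nat_lit 158646403095) (.two (nat_lit 8388608) (nat_lit 37313577061) (.one (nat_lit 1049056) .nil)),
   .two (nat_lit 8388612) (nat_lit 156365750287) (.two (nat_lit 8388608) (nat_lit 3021996508) .nil),
   .two (nat_lit 272629765) (nat_lit 8388658) (.two (nat_lit 4194304) (nat_lit 9806282863) (.one (nat_lit 1384120731) .nil)),
   .two (nat_lit 2902458373) (nat_lit 47555018765) (.two (nat_lit 16777217) (nat_lit 165532401729) (.one (nat_lit 37253808395) .nil)),
   .two (nat_lit 708837381) (nat_lit 28772925464) (.two (nat_lit 2097152) (nat_lit 4043309535) .nil),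
   .two (nat_lit 8388613) (nat_lit 9781116940) (.two (nat_lit 34603009) (nat_lit 46414168127) (.one (nat_lit 8389093) .nil)),
   .two (nat_lit 11479810052) (nat_lit 10336862223) (.two (nat_lit 4194304) (nat_lit 18926796916) (.one (nat_lit 9766437331) .nil)),
   .two (nat_lit 11479810053) (nat_lit 1753219087) (.two (nat_lit 4194304) (nat_lit 780140608) (.one (nat_lit 47555019141) .nil)),
   .two (nat_lit 16777220) (nat_lit 11551113224) (.two (nat_lit 16777217) (nat_lit 20705181811) (.one (nat_lit 158077026930) .nil)),
   .two (nat_lit 184989777925) (nat_lit 10343153679) (.two (nat_lit 2097152) (nat_lit 156581757413) .nil),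
   .two (nat_lit 34603013) (nat_lit 9781116936) (.two (nat_lit 2097153) (nat_lit 638582903) (.one (nat_lit 706740838) .nil)),
   .two (nat_lit 184549380) (nat_lit 1350565896) (.two (nat_lit 16777217) (nat_lit 1212153903) (.two (nat_lit 4194304) (nat_lit 243269747) (.one (nat_lit 1849688689) .nil))),
   .two (nat_lit 8388612) (nat_lit 754974728) (.two (nat_lit 8388609) (nat_lit 1929379864) (.two (nat_lit 16777216) (nat_lit 343933029) (.one (nat_lit 1358954962) .nil))),
   .two (nat_lit 705691652) (nat_lit 9900654606) (.two (nat_lit 41943041) (nat_lit 11543773199) (.two (nat_lit 8388608) (nat_lit 10369368300) (.one (nat_lit 1049231) .nil))),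
   .two (nat_lit 2097157) (nat_lit 4634705946) (.two (nat_lit 2097152) (nat_lit 2990539159) .nil),
   .two (nat_lit 169869316) (nat_lit 117440527) (.two (nat_lit 16777216) (nat_lit 2097411) (.one (nat_lit 2097808) .nil)),
   .two (nat_lit 1191182341) (nat_lit 157038936076) (.two (nat_lit 37748737) (nat_lit 9948889103) (.two (nat_lit 1048576) (nat_lit 166245433461) (.one (nat_lit 16777708) .nil))),
   .two (nat_lit 1178599429) (nat_lit 2350907405) (.two (nat_lit 50331649) (nat_lit 3560964218) (.one (nat_lit 9766437476) .nil)),
   .two (nat_lit 8388613) (nat_lit 46980399112) (.two (nat_lit 620756993) (nat_lit 641728527) (.two (nat_lit 16777216) (nat_lit 12121539027) .nil)),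
   .two (nat_lit 159224168453) (nat_lit 13191086095) (.two (nat_lit 8388608) (nat_lit 809500789) (.one (nat_lit 166132187628) .nil)),
   .two (nat_lit 620756997) (nat_lit 68157455) (.two (nat_lit 16777216) (nat_lit 20640170196) (.one (nat_lit 1049234) .nil)),
   .two (nat_lit 166132187141) (nat_lit 1310720065) (.one (nat_lit 21812478219) .nil),
   .two (nat_lit 1277165573) (nat_lit 9869197326) (.two (nat_lit 16777217) (nat_lit 158144135298) (.one (nat_lit 1178599851) .nil)),
   .two (nat_lit 1779433477) (nat_lit 13191086095) (.two (nat_lit 1048576) (nat_lit 21814575226) (.one (nat_lit 4194963) .nil)),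
   .two (nat_lit 20638072837) (nat_lit 1753219087) (.two (nat_lit 2097152) (nat_lit 19100860528) (.one (nat_lit 11517559195) .nil)),
   .two (nat_lit 713031685) (nat_lit 28086108168) (.two (nat_lit 41943041) (nat_lit 19529728024) (.two (nat_lit 1048576) (nat_lit 8388970) (.one (nat_lit 28093448590) .nil))),
   .two (nat_lit 166130089989) (nat_lit 3464495168) (.one (nat_lit 19134415233) .nil),
   .two (nat_lit 4599054341) (nat_lit 1749024777) (.two (nat_lit 2097153) (nat_lit 708837422) (.two (nat_lit 1048576) (nat_lit 3527409683) (.one (nat_lit 4194578) .nil))),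
   .two (nat_lit 270532613) (nat_lit 1749024777) (.two (nat_lit 2097153) (nat_lit 708837422) (.two (nat_lit 1048576) (nat_lit 3527409683) (.one (nat_lit 4194578) .nil))),
   .two (nat_lit 4194308) (nat_lit 19596836871) (.two (nat_lit 4194304) (nat_lit 1048650) (.one (nat_lit 641728552) .nil)),
   .two (nat_lit 809500677) (nat_lit 156372041736) (.two (nat_lit 8388609) (nat_lit 708837401) (.two (nat_lit 4194304) (nat_lit 19537068069) (.one (nat_lit 28089254382) .nil))),
   .two (nat_lit 11479810050) (nat_lit 117440524) (.two (nat_lit 285212677) (nat_lit 166132187146) (.two (nat_lit 37748737) (nat_lit 1191182377) (.two (nat_lit 4194304) (nat_lit 1191182444) (.one (nat_lit 9881780394) .nil)))),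
   .two (nat_lit 184549380) (nat_lit 158144135175) (.two (nat_lit 1277165571) (nat_lit 2969567240) (.two (nat_lit 606076929) (nat_lit 620757007) (.two (nat_lit 2097152) (nat_lit 1291845669) (.one (nat_lit 16777878) .nil)))),
   .two (nat_lit 10370416645) (nat_lit 10343153671) (.two (nat_lit 156372041731) (nat_lit 9900654601) (.two (nat_lit 2097153) (nat_lit 28093448233) (.two (nat_lit 2097152) (nat_lit 3531604094) (.one (nat_lit 8388891) .nil)))),
   .two (nat_lit 184986632197) (nat_lit 10370416648) (.two (nat_lit 34603009) (nat_lit 158144135191) (.two (nat_lit 1048576) (nat_lit 2097232) (.one (nat_lit 1049078) .nil))),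
   .two (nat_lit 1343225861) (nat_lit 165528207369) (.two (nat_lit 9765388289) (nat_lit 1413480496) (.two (nat_lit 1048576) (nat_lit 183916036115) (.one (nat_lit 4194967) .nil))),
   .two (nat_lit 46978301957) (nat_lit 156364701705) (.two (nat_lit 2097153) (nat_lit 158143086611) (.two (nat_lit 2097152) (nat_lit 158143086611) (.one (nat_lit 2097816) .nil))),
   .two (nat_lit 176160772) (nat_lit 3525312519) (.two (nat_lit 2887778307) (nat_lit 159224168456) (.two (nat_lit 2097153) (nat_lit 176160783) (.two (nat_lit 2097152) (nat_lit 3464495141) (.one (nat_lit 8389273) .nil)))),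
   .two (nat_lit 605028357) (nat_lit 2424307721) (.two (nat_lit 4194305) (nat_lit 159224168467) (.two (nat_lit 1048576) (nat_lit 10506731539) (.one (nat_lit 1346372083) .nil))),
   .two (nat_lit 156372041733) (nat_lit 9934209032) (.two (nat_lit 156372041729) (nat_lit 158144135192) (.two (nat_lit 8388608) (nat_lit 2097303) (.one (nat_lit 8389275) .nil))),
   .two (nat_lit 47555018757) (nat_lit 11559501831) (.two (nat_lit 176160771) (nat_lit 754974728) (.two (nat_lit 8388609) (nat_lit 754974735) (.two (nat_lit 8388608) (nat_lit 12633243685) (.one (nat_lit 8389276) .nil)))),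
   .two (nat_lit 806354949) (nat_lit 654311431) (.two (nat_lit 9781116931) (nat_lit 11476664328) (.two (nat_lit 9781116929) (nat_lit 11510218768) (.two (nat_lit 2097152) (nat_lit 2886729806) (.one (nat_lit 1049245) .nil)))),
   .two (nat_lit 184416206853) (nat_lit 159224168455) (.two (nat_lit 183845781507) (nat_lit 159224168456) (.two (nat_lit 34603009) (nat_lit 159224168463) (.two (nat_lit 1048576) (nat_lit 20745027621) (.one (nat_lit 1049246) .nil)))),
   .two (nat_lit 21777874949) (nat_lit 11492392968) (.two (nat_lit 605028353) (nat_lit 721420313) (.two (nat_lit 1048576) (nat_lit 16777366) (.one (nat_lit 1049247) .nil))),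
   .two (nat_lit 158143086597) (nat_lit 11492392968) (.two (nat_lit 605028353) (nat_lit 721420313) (.two (nat_lit 1048576) (nat_lit 1929379993) (.one (nat_lit 1049248) .nil))),
   .two (nat_lit 1191182341) (nat_lit 1277165576) (.two (nat_lit 16777217) (nat_lit 1277165583) (.two (nat_lit 16777216) (nat_lit 47582281794) (.one (nat_lit 1176502570) .nil))),
   .two (nat_lit 16777220) (nat_lit 12117344263) (.two (nat_lit 11479810051) (nat_lit 285212680) (.two (nat_lit 37748737) (nat_lit 285212687) (.two (nat_lit 4194304) (nat_lit 9781116994) (.one (nat_lit 16777518) .nil)))),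
   .two (nat_lit 1753219077) (nat_lit 272629767) (.two (nat_lit 18933088259) (nat_lit 2889875464) (.two (nat_lit 156372041729) (nat_lit 2889875471) (.two (nat_lit 8388608) (nat_lit 46980399141) (.one (nat_lit 3531604640) .nil)))),
   .two (nat_lit 37748744) (nat_lit 101711880) (.two (nat_lit 4194308) (nat_lit 11476664335) (.two (nat_lit 2097153) (nat_lit 2953838791) (.two (nat_lit 2097152) (nat_lit 168821107) (.one (nat_lit 1049254) .nil)))),
   .two (nat_lit 37748744) (nat_lit 1175453704) (.two (nat_lit 4194308) (nat_lit 739246103) (.two (nat_lit 4194305) (nat_lit 1343226055) (.two (nat_lit 4194304) (nat_lit 1343226225) (.one (nat_lit 68158117) .nil)))),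
   .two (nat_lit 4194312) (nat_lit 8388623) (.two (nat_lit 4194305) (nat_lit 739246144) (.two (nat_lit 4194304) (nat_lit 101712034) (.one (nat_lit 11543773860) .nil))),
   .two (nat_lit 1343225864) (nat_lit 639631373) (.two (nat_lit 41943045) (nat_lit 705691663) (.two (nat_lit 41943041) (nat_lit 11543773248) (.two (nat_lit 8388608) (nat_lit 11543773446) (.one (nat_lit 9934209708) .nil)))),
   .two (nat_lit 2954887176) (nat_lit 1779433496) (.two (nat_lit 2097153) (nat_lit 1343225921) (.two (nat_lit 8388608) (nat_lit 2954887692) .nil)),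
   .two (nat_lit 3539992584) (nat_lit 157038936076) (.two (nat_lit 1291845636) (nat_lit 10939793423) (.two (nat_lit 37748737) (nat_lit 47596961954) (.one (nat_lit 50332350) .nil))),
   .two (nat_lit 8388616) (nat_lit 1916796940) (.two (nat_lit 8388612) (nat_lit 9768534031) (.two (nat_lit 4194305) (nat_lit 10007609506) (.one (nat_lit 2994733742) .nil))),
   .two (nat_lit 10370416648) (nat_lit 159224168463) (.two (nat_lit 606076929) (nat_lit 10007609506) (.one (nat_lit 8389321) .nil)),
   .two (nat_lit 176160776) (nat_lit 28758245384) (.two (nat_lit 8388613) (nat_lit 19094568985) (.two (nat_lit 8388609) (nat_lit 37314625647) (.two (nat_lit 2097152) (nat_lit 880804002) (.one (nat_lit 165532402375) .nil)))),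
   .two (nat_lit 8388616) (nat_lit 183845781519) (.two (nat_lit 9766436865) (nat_lit 20745027695) (.two (nat_lit 2097152) (nat_lit 1048971) (.one (nat_lit 1049286) .nil))),
   .two (nat_lit 612368392) (nat_lit 3525312520) (.two (nat_lit 176160772) (nat_lit 639631375) (.two (nat_lit 2097153) (nat_lit 343933090) (.one (nat_lit 13188989454) .nil))),
   .two (nat_lit 4605345800) (nat_lit 156569174028) (.two (nat_lit 10506731525) (nat_lit 4605345807) (.two (nat_lit 9768534017) (nat_lit 343932992) (.two (nat_lit 4194304) (nat_lit 343933090) (.one (nat_lit 8389323) .nil)))),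
   .two (nat_lit 272629768) (nat_lit 11618222103) (.two (nat_lit 41943041) (nat_lit 156569174178) (.one (nat_lit 310379022) .nil)),
   .two (nat_lit 8388616) (nat_lit 705691656) (.two (nat_lit 1176502277) (nat_lit 20704133143) (.two (nat_lit 2097153) (nat_lit 8388810) (.two (nat_lit 2097152) (nat_lit 1048972) (.one (nat_lit 2097868) .nil)))),
   .two (nat_lit 9866051592) (nat_lit 12117344264) (.two (nat_lit 1343225861) (nat_lit 1178599439) (.two (nat_lit 605028353) (nat_lit 12050235656) (.one (nat_lit 19130221257) .nil))),
   .two (nat_lit 101711880) (nat_lit 18933088271) (.two (nat_lit 34603009) (nat_lit 4605345954) (.one (nat_lit 1913651724) .nil)),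
   .two (nat_lit 169869320) (nat_lit 41943048) (.two (nat_lit 2894069765) (nat_lit 2988441623) (.two (nat_lit 8388609) (nat_lit 2097270) (.two (nat_lit 1048576) (nat_lit 2097551) (.one (nat_lit 1049293) .nil)))),
   .two (nat_lit 11543773192) (nat_lit 3464495112) (.two (nat_lit 705691652) (nat_lit 46414168079) (.two (nat_lit 8388609) (nat_lit 12147753025) (.two (nat_lit 8388608) (nat_lit 1947205794) (.one (nat_lit 1049287) .nil)))),
   .two (nat_lit 1350565896) (nat_lit 1947205644) (.two (nat_lit 1913651205) (nat_lit 75497487) (.two (nat_lit 9765388289) (nat_lit 11618222144) (.two (nat_lit 1048576) (nat_lit 612368546) (.one (nat_lit 8389326) .nil)))),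
   .two (nat_lit 822083592) (nat_lit 739246093) (.two (nat_lit 34603013) (nat_lit 822083599) (.two (nat_lit 16777217) (nat_lit 46474985537) (.two (nat_lit 16777216) (nat_lit 2097419) (.one (nat_lit 16777935) .nil)))),
   .two (nat_lit 158158815240) (nat_lit 10939793423) (.two (nat_lit 9765388289) (nat_lit 159266111650) (.one (nat_lit 16777936) .nil)),
   .two (nat_lit 1350565896) (nat_lit 46978301960) (.two (nat_lit 69206021) (nat_lit 713031695) (.two (nat_lit 37748737) (nat_lit 158183981167) (.two (nat_lit 4194304) (nat_lit 2097552) (.one (nat_lit 8389329) .nil)))),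
   .two (nat_lit 8388616) (nat_lit 19596836888) (.two (nat_lit 8388609) (nat_lit 12114198637) (.two (nat_lit 16777216) (nat_lit 8389009) (.one (nat_lit 8389330) .nil))),
   .two (nat_lit 4194312) (nat_lit 612368392) (.two (nat_lit 9933160453) (nat_lit 1350565912) (.two (nat_lit 37748737) (nat_lit 638582893) (.two (nat_lit 1048576) (nat_lit 4194706) (.one (nat_lit 1049299) .nil)))),
   .two (nat_lit 639631368) (nat_lit 47555018760) (.two (nat_lit 176160772) (nat_lit 639631375) (.two (nat_lit 2097153) (nat_lit 343933090) (.one (nat_lit 2994733743) .nil))),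
   .two (nat_lit 9934209032) (nat_lit 3527409672) (.two (nat_lit 169869316) (nat_lit 9768534031) (.two (nat_lit 2097153) (nat_lit 4634706082) (.one (nat_lit 4195028) .nil))),
   .two (nat_lit 809500680) (nat_lit 176160781) (.two (nat_lit 176160773) (nat_lit 809500687) (.two (nat_lit 8388609) (nat_lit 4634705983) (.two (nat_lit 8388608) (nat_lit 9768534279) (.one (nat_lit 1049302) .nil)))),
   .two (nat_lit 101711880) (nat_lit 9934209037) (.two (nat_lit 9934209029) (nat_lit 101711887) (.two (nat_lit 37748737) (nat_lit 739246144) (.two (nat_lit 4194304) (nat_lit 739246342) (.one (nat_lit 2097879) .nil)))),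
   .two (nat_lit 10336862216) (nat_lit 28690087960) (.two (nat_lit 2097153) (nat_lit 19596836973) (.two (nat_lit 8388608) (nat_lit 2097557) (.one (nat_lit 2097880) .nil))),
   .two (nat_lit 9948889096) (nat_lit 10336862223) (.two (nat_lit 2097153) (nat_lit 620757154) (.one (nat_lit 50332363) .nil)),
   .two (nat_lit 2902458376) (nat_lit 174686470157) (.two (nat_lit 2902458372) (nat_lit 157036838927) (.two (nat_lit 2097153) (nat_lit 822083746) (.one (nat_lit 16777958) .nil))),
   .two (nat_lit 654311432) (nat_lit 4030726157) (.two (nat_lit 2956984325) (nat_lit 218103872) (.two (nat_lit 4194304) (nat_lit 159266111751) (.one (nat_lit 28790751957) .nil))),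
   .two (nat_lit 2887778312) (nat_lit 13191086095) (.two (nat_lit 2097153) (nat_lit 184986632320) (.two (nat_lit 4194304) (nat_lit 2954887592) (.one (nat_lit 47584379580) .nil))),
   .two (nat_lit 612368392) (nat_lit 13191086088) (.two (nat_lit 4194308) (nat_lit 612368399) (.two (nat_lit 8388609) (nat_lit 13224640674) (.one (nat_lit 9869198057) .nil))),
   .two (nat_lit 11543773192) (nat_lit 28758245384) (.two (nat_lit 705691652) (nat_lit 10370416655) (.two (nat_lit 34603009) (nat_lit 9934209089) (.two (nat_lit 1048576) (nat_lit 10538188962) (.one (nat_lit 2987393550) .nil)))),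
   .two (nat_lit 46414168072) (nat_lit 873463833) (.two (nat_lit 8388609) (nat_lit 156968681537) (.two (nat_lit 8388608) (nat_lit 183912890530) (.one (nat_lit 2927624716) .nil))),
   .two (nat_lit 2961178632) (nat_lit 157038936072) (.two (nat_lit 176160772) (nat_lit 47584378906) (.two (nat_lit 8388609) (nat_lit 2990538870) (.two (nat_lit 1048576) (nat_lit 4194778) (.one (nat_lit 235930294) .nil)))),
   .two (nat_lit 47555018760) (nat_lit 1745879055) (.two (nat_lit 612368385) (nat_lit 10436476991) (.two (nat_lit 8388608) (nat_lit 18925748488) (.one (nat_lit 1309672134) .nil))),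
   .two (nat_lit 183848927240) (nat_lit 174752530440) (.two (nat_lit 13191086085) (nat_lit 11006902297) (.two (nat_lit 37748737) (nat_lit 1309671545) (.two (nat_lit 8388608) (nat_lit 46977253902) .nil))),
   .two (nat_lit 742391816) (nat_lit 9866051599) (.two (nat_lit 605028353) (nat_lit 9768534081) (.two (nat_lit 1048576) (nat_lit 809500834) (.one (nat_lit 3560964785) .nil))),
   .two (nat_lit 9766436872) (nat_lit 4613734408) (.two (nat_lit 16777220) (nat_lit 3525312535) (.two (nat_lit 41943041) (nat_lit 739246347) (.one (nat_lit 1049331) .nil))),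
   .two (nat_lit 41943048) (nat_lit 19596836879) (.two (nat_lit 8388609) (nat_lit 12114198593) (.two (nat_lit 1048576) (nat_lit 746586560) (.one (nat_lit 310379020) .nil))),
   .two (nat_lit 654311432) (nat_lit 46409973768) (.two (nat_lit 2902458372) (nat_lit 157038936079) (.two (nat_lit 4194305) (nat_lit 10552869026) (.one (nat_lit 608174606) .nil))),
   .two (nat_lit 713031688) (nat_lit 1795162127) (.two (nat_lit 620756993) (nat_lit 184993972386) (.one (nat_lit 8389370) .nil)),
   .two (nat_lit 158075977736) (nat_lit 158144135175) (.two (nat_lit 606076931) (nat_lit 2349858844) (.two (nat_lit 606076929) (nat_lit 9899606089) (.two (nat_lit 2097152) (nat_lit 1049071) (.one (nat_lit 156532474662) .nil)))),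
   .two (nat_lit 9934209032) (nat_lit 159257722889) (.two (nat_lit 28093448197) (nat_lit 9934209039) (.two (nat_lit 41943041) (nat_lit 69206053) (.two (nat_lit 8388608) (nat_lit 174753579279) (.one (nat_lit 21214790434) .nil)))),
   .two (nat_lit 1277165576) (nat_lit 10343153671) (.two (nat_lit 606076931) (nat_lit 28093448233) (.two (nat_lit 606076929) (nat_lit 28093448300) (.two (nat_lit 2097152) (nat_lit 3464495274) (.one (nat_lit 8389378) .nil)))),
   .two (nat_lit 11479810056) (nat_lit 156372041736) (.two (nat_lit 809500677) (nat_lit 156372041743) (.two (nat_lit 37748737) (nat_lit 19537068069) (.two (nat_lit 4194304) (nat_lit 8388887) (.one (nat_lit 184989778686) .nil)))),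
   .two (nat_lit 166132187144) (nat_lit 37247516681) (.two (nat_lit 20638072837) (nat_lit 166132187151) (.two (nat_lit 2097153) (nat_lit 28693233767) (.two (nat_lit 2097152) (nat_lit 46510637147) (.one (nat_lit 4195079) .nil)))),
   .two (nat_lit 176160776) (nat_lit 19599982599) (.two (nat_lit 18928893955) (nat_lit 176160783) (.two (nat_lit 156367847425) (nat_lit 11551113283) (.two (nat_lit 4194304) (nat_lit 8388889) (.one (nat_lit 8389151) .nil)))),
   .two (nat_lit 2889875461) (nat_lit 12054429718) (.two (nat_lit 4194305) (nat_lit 612368403) (.one (nat_lit 12117344793) .nil)),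
   .two (nat_lit 10506731528) (nat_lit 174759870473) (.two (nat_lit 46414168069) (nat_lit 10506731535) (.two (nat_lit 4194305) (nat_lit 47555018815) (.two (nat_lit 4194304) (nat_lit 679477341) (.one (nat_lit 8389387) .nil)))),
   .two (nat_lit 3464495112) (nat_lit 156567076873) (.two (nat_lit 10940841989) (nat_lit 46414168088) (.two (nat_lit 606076929) (nat_lit 10443817082) (.two (nat_lit 2097152) (nat_lit 8388900) (.one (nat_lit 8389388) .nil)))),
   .two (nat_lit 10385096712) (nat_lit 272629767) (.two (nat_lit 4194307) (nat_lit 10385096719) (.two (nat_lit 9781116929) (nat_lit 12117344385) (.two (nat_lit 16777216) (nat_lit 4194595) (.one (nat_lit 4194837) .nil)))),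
   .two (nat_lit 672137225) (nat_lit 156533522444) (.two (nat_lit 9934209029) (nat_lit 1913651215) (.two (nat_lit 34603009) (nat_lit 2418016382) (.two (nat_lit 1048576) (nat_lit 13222543524) (.one (nat_lit 12617515713) .nil)))),
   .two (nat_lit 184993972232) (nat_lit 2353004553) (.two (nat_lit 171966469) (nat_lit 184993972239) (.two (nat_lit 4194305) (nat_lit 11584667712) (.two (nat_lit 1048576) (nat_lit 21785215416) (.one (nat_lit 8389163) .nil)))),
   .two (nat_lit 184549384) (nat_lit 1175453704) (.two (nat_lit 9765388293) (nat_lit 184549391) (.two (nat_lit 8388609) (nat_lit 28086108266) (.two (nat_lit 8388608) (nat_lit 2987393441) (.one (nat_lit 1049359) .nil)))),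
   .two (nat_lit 21207449608) (nat_lit 11614027785) (.two (nat_lit 10506731525) (nat_lit 159216828443) (.two (nat_lit 9768534019) (nat_lit 165525061656) (.two (nat_lit 156365750273) (nat_lit 1779433594) (.two (nat_lit 2097152) (nat_lit 46473937358) (.one (nat_lit 9798943267) .nil))))),
   .two (nat_lit 1343225864) (nat_lit 166132187142) (.two (nat_lit 705691652) (nat_lit 166132187151) (.two (nat_lit 34603009) (nat_lit 3527409767) (.two (nat_lit 1048576) (nat_lit 19532873891) (.one (nat_lit 4195089) .nil)))),
   .two (nat_lit 813694984) (nat_lit 9768534024) (.two (nat_lit 2889875460) (nat_lit 4605345807) (.two (nat_lit 4194305) (nat_lit 4605345893) (.two (nat_lit 2097152) (nat_lit 746586540) (.one (nat_lit 8389164) .nil)))),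
   .two (nat_lit 50331656) (nat_lit 19604176905) (.two (nat_lit 3464495109) (nat_lit 50331663) (.two (nat_lit 8388609) (nat_lit 16777323) (.two (nat_lit 8388608) (nat_lit 1191182429) (.one (nat_lit 16778003) .nil)))),
   .two (nat_lit 11492392968) (nat_lit 46980399112) (.two (nat_lit 11492392964) (nat_lit 47584378905) (.two (nat_lit 156367847425) (nat_lit 16777368) (.two (nat_lit 4194304) (nat_lit 16777510) (.one (nat_lit 4195092) .nil)))),
   .two (nat_lit 2954887176) (nat_lit 18933088264) (.two (nat_lit 169869316) (nat_lit 183853121551) (.two (nat_lit 606076929) (nat_lit 847249473) (.two (nat_lit 8388608) (nat_lit 1210056875) (.one (nat_lit 2097941) .nil)))),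
   .two (nat_lit 19604176905) (nat_lit 3527409671) (.two (nat_lit 46409973763) (nat_lit 880803888) (.two (nat_lit 4194305) (nat_lit 1350566115) (.two (nat_lit 4194304) (nat_lit 8389119) (.one (nat_lit 8389165) .nil)))),
   .two (nat_lit 11543773192) (nat_lit 1749024776) (.two (nat_lit 739246085) (nat_lit 11614027792) (.two (nat_lit 83886083) (nat_lit 68157455) (.two (nat_lit 620756993) (nat_lit 68157541) (.two (nat_lit 16777216) (nat_lit 705692041) (.one (nat_lit 4195094) .nil))))),
   .two (nat_lit 2887778310) (nat_lit 28757196808) (.two (nat_lit 2887778308) (nat_lit 28757196815) (.two (nat_lit 2097153) (nat_lit 10436477034) (.two (nat_lit 2097152) (nat_lit 1048753) (.one (nat_lit 166196150581) .nil)))),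
   .two (nat_lit 705691656) (nat_lit 11492392968) (.two (nat_lit 34603013) (nat_lit 11492392975) (.two (nat_lit 605028353) (nat_lit 19530776682) (.two (nat_lit 1048576) (nat_lit 874512821) (.one (nat_lit 2097943) .nil)))),
   .two (nat_lit 205520904) (nat_lit 10343153672) (.two (nat_lit 9933160453) (nat_lit 158083317775) (.two (nat_lit 4194305) (nat_lit 158083317861) (.two (nat_lit 4194304) (nat_lit 174692762028) (.one (nat_lit 1317012012) .nil)))),
   .two (nat_lit 28691136521) (nat_lit 1846542344) (.two (nat_lit 203423749) (nat_lit 1846542351) (.two (nat_lit 2097153) (nat_lit 156465365097) (.two (nat_lit 2097152) (nat_lit 1048753) (.one (nat_lit 166196150581) .nil)))),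
   .two (nat_lit 9781116935) (nat_lit 10001317913) (.two (nat_lit 708837379) (nat_lit 11492393067) (.two (nat_lit 37748737) (nat_lit 1291845672) (.two (nat_lit 4194304) (nat_lit 16777744) (.one (nat_lit 16778015) .nil)))),
   .two (nat_lit 1745879047) (nat_lit 21812477978) (.two (nat_lit 165525061635) (nat_lit 3458203684) (.two (nat_lit 156364701697) (nat_lit 3021996072) (.two (nat_lit 1048576) (nat_lit 2097681) (.one (nat_lit 2097952) .nil)))),
   .two (nat_lit 612368392) (nat_lit 339738640) (.two (nat_lit 75497477) (nat_lit 159219974180) (.two (nat_lit 8388609) (nat_lit 9869197352) (.two (nat_lit 2097152) (nat_lit 638582970) (.one (nat_lit 8389178) .nil)))),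
   .two (nat_lit 19532873733) (nat_lit 1191182355) (.one (nat_lit 16777556) .nil),
   .two (nat_lit 176160773) (nat_lit 156367847443) (.one (nat_lit 4195099) .nil),
   .two (nat_lit 11476664324) (nat_lit 174753579027) (.one (nat_lit 2097724) .nil),
   .two (nat_lit 158143086597) (nat_lit 1916796947) (.one (nat_lit 4194493) .nil),
   .two (nat_lit 50331656) (nat_lit 4605345807) (.two (nat_lit 8388612) (nat_lit 285212707) (.two (nat_lit 8388612) (nat_lit 285212706) (.two (nat_lit 8388609) (nat_lit 12129927334) (.two (nat_lit 16777216) (nat_lit 8388931) (.one (nat_lit 1224737589) .nil))))),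
   .two (nat_lit 822083592) (nat_lit 8388619) (.two (nat_lit 713031684) (nat_lit 2902458406) (.two (nat_lit 16777220) (nat_lit 11618222098) (.two (nat_lit 612368385) (nat_lit 19545456731) (.two (nat_lit 8388608) (nat_lit 16777753) (.one (nat_lit 8389415) .nil))))),
   .two (nat_lit 2961178632) (nat_lit 639631375) (.two (nat_lit 270532613) (nat_lit 343932993) (.two (nat_lit 2097153) (nat_lit 8388770) (.two (nat_lit 1048576) (nat_lit 9766437045) (.one (nat_lit 1049162) .nil)))),
   .two (nat_lit 4194319) (nat_lit 209715216) (.two (nat_lit 8388616) (nat_lit 705691683) (.two (nat_lit 8388616) (nat_lit 705691682) (.two (nat_lit 4194308) (nat_lit 11476664359) (.two (nat_lit 37748739) (nat_lit 2097318) (.two (nat_lit 4194305) (nat_lit 2887778486) (.two (nat_lit 4194304) (nat_lit 8389172) (.one (nat_lit 4195129) .nil))))))),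
   .two (nat_lit 2887778319) (nat_lit 9768534027) (.two (nat_lit 37748744) (nat_lit 183946444818) (.two (nat_lit 166129041410) (nat_lit 37748917) (.two (nat_lit 37748737) (nat_lit 28758245565) (.two (nat_lit 1048576) (nat_lit 2954887356) (.one (nat_lit 4195130) .nil))))),
   .two (nat_lit 1178599439) (nat_lit 807403531) (.two (nat_lit 1178599432) (nat_lit 46508539922) (.two (nat_lit 46407876610) (nat_lit 1178599605) (.two (nat_lit 2097153) (nat_lit 1178599605) (.two (nat_lit 4194304) (nat_lit 639631548) (.one (nat_lit 4195132) .nil))))),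
   .two (nat_lit 101711887) (nat_lit 11544821771) (.two (nat_lit 10370416648) (nat_lit 101711891) (.two (nat_lit 183845781506) (nat_lit 10370416821) (.two (nat_lit 34603009) (nat_lit 10370416821) (.two (nat_lit 1048576) (nat_lit 639631548) (.one (nat_lit 639632184) .nil))))),
   .two (nat_lit 156372041735) (nat_lit 11626610724) (.two (nat_lit 156372041731) (nat_lit 13203669032) (.two (nat_lit 1048576) (nat_lit 16777555) (.one (nat_lit 16778045) .nil))),
   .two (nat_lit 50331655) (nat_lit 46414168099) (.two (nat_lit 8388611) (nat_lit 1191182375) (.two (nat_lit 4194304) (nat_lit 1216348496) (.one (nat_lit 18933088845) .nil))),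
   .two (nat_lit 272629775) (nat_lit 11476664335) (.two (nat_lit 606076936) (nat_lit 10436476965) (.two (nat_lit 4194312) (nat_lit 156365750292) (.two (nat_lit 1344274437) (nat_lit 11543773274) (.two (nat_lit 1344274437) (nat_lit 11543773273) (.two (nat_lit 4194305) (nat_lit 638583103) (.two (nat_lit 1048576) (nat_lit 2889876025) (.one (nat_lit 11543774003) .nil))))))),
   .two (nat_lit 612368399) (nat_lit 270532624) (.two (nat_lit 606076936) (nat_lit 176160803) (.two (nat_lit 606076936) (nat_lit 176160802) (.two (nat_lit 169869316) (nat_lit 176160807) (.two (nat_lit 169869316) (nat_lit 9772728414) (.two (nat_lit 2097153) (nat_lit 1178599606) (.two (nat_lit 2097152) (nat_lit 104858164) (.one (nat_lit 9934209849) .nil))))))),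
   .two (nat_lit 203423759) (nat_lit 276824080) (.two (nat_lit 2961178632) (nat_lit 203423779) (.two (nat_lit 2961178632) (nat_lit 203423778) (.two (nat_lit 176160772) (nat_lit 639631399) (.two (nat_lit 176160772) (nat_lit 740294750) (.two (nat_lit 2097153) (nat_lit 8388790) (.two (nat_lit 1048576) (nat_lit 1344275006) (.one (nat_lit 1175454516) .nil))))))),
   .two (nat_lit 1346371595) (nat_lit 9866051599) (.two (nat_lit 11479810056) (nat_lit 10436476965) (.two (nat_lit 11479810056) (nat_lit 1779433491) (.two (nat_lit 11479810050) (nat_lit 1175453862) (.two (nat_lit 37748739) (nat_lit 101711964) (.two (nat_lit 9765388289) (nat_lit 4194624) (.two (nat_lit 1048576) (nat_lit 4194880) (.one (nat_lit 2889876286) .nil))))))),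
   .two (nat_lit 4194311) (nat_lit 176160803) (.two (nat_lit 4194307) (nat_lit 612368423) (.two (nat_lit 16777216) (nat_lit 1276117580) (.one (nat_lit 1276117580) .nil))),
   .two (nat_lit 11551113231) (nat_lit 1343225867) (.two (nat_lit 276824072) (nat_lit 9934209043) (.two (nat_lit 2097157) (nat_lit 10343153755) (.two (nat_lit 2097153) (nat_lit 1954545854) (.two (nat_lit 1048576) (nat_lit 639631548) (.one (nat_lit 1049419) .nil))))),
   .two (nat_lit 4605345799) (nat_lit 2889875491) (.two (nat_lit 4194307) (nat_lit 10007609383) (.two (nat_lit 2097152) (nat_lit 71303759) (.one (nat_lit 71303759) .nil))),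
   .two (nat_lit 8388623) (nat_lit 9765388310) (.two (nat_lit 8388616) (nat_lit 9765388310) (.two (nat_lit 47550824453) (nat_lit 109051995) (.two (nat_lit 34603009) (nat_lit 641728693) (.two (nat_lit 1048576) (nat_lit 8388796) (.one (nat_lit 1049421) .nil))))),
   .two (nat_lit 2887778319) (nat_lit 9768534027) (.two (nat_lit 4194312) (nat_lit 156365750292) (.two (nat_lit 272629765) (nat_lit 806355036) (.two (nat_lit 9765388289) (nat_lit 46474985656) (.two (nat_lit 1048576) (nat_lit 2954887356) (.one (nat_lit 1049422) .nil))))),
   .two (nat_lit 16777224) (nat_lit 3021996071) (.two (nat_lit 4194304) (nat_lit 1049166) .nil),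
   .two (nat_lit 4194311) (nat_lit 3028287527) (.two (nat_lit 4194304) (nat_lit 1049167) .nil),
   .two (nat_lit 47548727303) (nat_lit 11517558823) (.two (nat_lit 16777216) (nat_lit 136315472) .nil),
   .two (nat_lit 3525312519) (nat_lit 9768534055) (.two (nat_lit 2097152) (nat_lit 156532474448) .nil),
   .two (nat_lit 21785214983) (nat_lit 10906239015) (.two (nat_lit 16777216) (nat_lit 9765388632) .nil),
   .two (nat_lit 713031688) (nat_lit 775946279) (.two (nat_lit 16777216) (nat_lit 183846830672) .nil),
   .two (nat_lit 10335813637) (nat_lit 176160783) (.two (nat_lit 1048576) (nat_lit 176160832) (.one (nat_lit 8389456) .nil)),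
   .two (nat_lit 34603013) (nat_lit 156372041736) (.two (nat_lit 612368385) (nat_lit 9867100203) (.two (nat_lit 2097152) (nat_lit 1048785) (.one (nat_lit 2098001) .nil))),
   .two (nat_lit 4194308) (nat_lit 10947133453) (.two (nat_lit 605028353) (nat_lit 19612565623) (.one (nat_lit 16778066) .nil)),
   .two (nat_lit 159217876997) (nat_lit 4030726208) (.one (nat_lit 306184457) .nil),
   .two (nat_lit 166130089989) (nat_lit 1846542349) (.two (nat_lit 2097153) (nat_lit 1283457070) (.two (nat_lit 1048576) (nat_lit 11551113447) (.one (nat_lit 8389225) .nil))),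
   .two (nat_lit 218103813) (nat_lit 3028287552) (.one (nat_lit 176161208) .nil),
   .two (nat_lit 4194308) (nat_lit 185035915277) (.two (nat_lit 4194305) (nat_lit 21208498200) (.two (nat_lit 2097152) (nat_lit 4194536) (.one (nat_lit 2098004) .nil))),
   .two (nat_lit 9781116933) (nat_lit 159216828429) (.two (nat_lit 4194305) (nat_lit 9781116943) (.two (nat_lit 4194304) (nat_lit 202375287) (.one (nat_lit 1049429) .nil))),
   .two (nat_lit 2097157) (nat_lit 46980399117) (.two (nat_lit 9768534017) (nat_lit 705691663) (.two (nat_lit 1048576) (nat_lit 166197198970) (.one (nat_lit 2098006) .nil))),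
   .two (nat_lit 50331653) (nat_lit 11479810063) (.two (nat_lit 16777216) (nat_lit 183949590591) (.one (nat_lit 16777669) .nil)),
   .two (nat_lit 9933160453) (nat_lit 1291845739) (.one (nat_lit 16777835) .nil),
   .two (nat_lit 4194308) (nat_lit 156968681485) (.two (nat_lit 2097153) (nat_lit 13187940481) (.one (nat_lit 16777836) .nil)),
   .two (nat_lit 10504634373) (nat_lit 20637024384) (.one (nat_lit 1049431) .nil),
   .two (nat_lit 8388612) (nat_lit 10336862223) (.two (nat_lit 8388608) (nat_lit 673186156) .nil),
   .two (nat_lit 10506731525) (nat_lit 813694984) (.two (nat_lit 9766436865) (nat_lit 9969860737) (.one (nat_lit 8389464) .nil)),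
   .two (nat_lit 605028357) (nat_lit 10385096719) (.two (nat_lit 1048576) (nat_lit 159232557259) (.one (nat_lit 16778073) .nil)),
   .two (nat_lit 156372041733) (nat_lit 68157564) (.one (nat_lit 1049036) .nil),
   .two (nat_lit 612368389) (nat_lit 4631560240) (.two (nat_lit 8388608) (nat_lit 1048810) (.one (nat_lit 1049434) .nil)),
   .two (nat_lit 4194308) (nat_lit 2902458432) (.one (nat_lit 16778075) .nil),
   .two (nat_lit 10503585797) (nat_lit 9802088460) (.two (nat_lit 612368385) (nat_lit 9966715006) (.one (nat_lit 1049437) .nil)),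
   .two (nat_lit 171966469) (nat_lit 18933088365) (.one (nat_lit 1049439) .nil),
   .two (nat_lit 2954887173) (nat_lit 157038936079) (.two (nat_lit 16777216) (nat_lit 159219974366) (.one (nat_lit 4195168) .nil)),
   .two (nat_lit 157038936069) (nat_lit 11492392975) (.two (nat_lit 4194304) (nat_lit 50331756) (.one (nat_lit 16777851) .nil)),
   .two (nat_lit 4194308) (nat_lit 3464495112) (.two (nat_lit 8388609) (nat_lit 272629775) (.two (nat_lit 1048576) (nat_lit 13228835050) (.one (nat_lit 8389474) .nil))),
   .two (nat_lit 1343225861) (nat_lit 1950351407) (.two (nat_lit 1048576) (nat_lit 2923429951) (.one (nat_lit 1049443) .nil)),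
   .two (nat_lit 708837381) (nat_lit 654311530) (.one (nat_lit 20719862151) .nil),
   .two (nat_lit 176160772) (nat_lit 156367847439) (.two (nat_lit 8388608) (nat_lit 10909385172) .nil),
   .two (nat_lit 176160773) (nat_lit 47563407368) (.two (nat_lit 41943041) (nat_lit 672137258) (.two (nat_lit 1048576) (nat_lit 12163481715) (.one (nat_lit 4598006411) .nil))),
   .two (nat_lit 34603013) (nat_lit 3464495112) (.two (nat_lit 8388609) (nat_lit 806354970) (.two (nat_lit 2097152) (nat_lit 19537068143) (.one (nat_lit 8389476) .nil))),
   .two (nat_lit 184549380) (nat_lit 9768534031) (.two (nat_lit 16777216) (nat_lit 46510637176) (.one (nat_lit 16777702) .nil)),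
   .two (nat_lit 13191086085) (nat_lit 2902458483) (.one (nat_lit 4195173) .nil),
   .two (nat_lit 8388612) (nat_lit 303038508) (.two (nat_lit 4194304) (nat_lit 13221494913) (.one (nat_lit 8389478) .nil)),
   .two (nat_lit 159217876997) (nat_lit 165532401679) (.two (nat_lit 2097152) (nat_lit 158179786867) (.one (nat_lit 4195175) .nil)),
   .two (nat_lit 605028357) (nat_lit 158653743127) (.two (nat_lit 1048576) (nat_lit 4194552) (.one (nat_lit 8389480) .nil)),
   .two (nat_lit 2097157) (nat_lit 46414168079) (.two (nat_lit 1048576) (nat_lit 3028287839) (.one (nat_lit 8389481) .nil)),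
   .two (nat_lit 169869316) (nat_lit 1392508942) (.two (nat_lit 50331649) (nat_lit 159217877007) (.two (nat_lit 4194304) (nat_lit 21223178359) (.one (nat_lit 16778090) .nil))),
   .two (nat_lit 9934209029) (nat_lit 157038936072) (.two (nat_lit 4194305) (nat_lit 166197198872) (.two (nat_lit 8388608) (nat_lit 1948254319) (.one (nat_lit 2098027) .nil))),
   .two (nat_lit 620756997) (nat_lit 2953838635) (.two (nat_lit 16777216) (nat_lit 13187940592) (.one (nat_lit 13187941212) .nil)),
   .two (nat_lit 117440517) (nat_lit 20738736192) (.one (nat_lit 166230753542) .nil),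
   .two (nat_lit 1795162117) (nat_lit 12117344280) (.two (nat_lit 1048576) (nat_lit 12117344360) (.one (nat_lit 4194964) .nil)),
   .two (nat_lit 176160772) (nat_lit 156367847431) (.two (nat_lit 176160771) (nat_lit 9802088460) (.two (nat_lit 8388609) (nat_lit 19130220589) (.two (nat_lit 8388608) (nat_lit 11580473470) (.one (nat_lit 4194970) .nil)))),
   .two (nat_lit 11559501829) (nat_lit 272629767) (.two (nat_lit 4194307) (nat_lit 754974728) (.two (nat_lit 4194305) (nat_lit 754974735) (.two (nat_lit 4194304) (nat_lit 16777300) (.one (nat_lit 16777517) .nil)))),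
   .two (nat_lit 19596836869) (nat_lit 158083317773) (.two (nat_lit 9765388289) (nat_lit 645922862) (.two (nat_lit 1048576) (nat_lit 28093448344) (.one (nat_lit 1049249) .nil))),
   .two (nat_lit 8388613) (nat_lit 156365750279) (.two (nat_lit 50331651) (nat_lit 176160776) (.two (nat_lit 50331649) (nat_lit 159224168463) (.two (nat_lit 2097152) (nat_lit 343932996) (.one (nat_lit 165532401837) .nil)))),
   .two (nat_lit 654311429) (nat_lit 2954887175) (.two (nat_lit 169869315) (nat_lit 158158815240) (.two (nat_lit 2097153) (nat_lit 10385096719) (.two (nat_lit 2097152) (nat_lit 1358954564) (.one (nat_lit 16777519) .nil)))),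
   .two (nat_lit 754974728) (nat_lit 12047089679) (.two (nat_lit 34603009) (nat_lit 50331749) (.two (nat_lit 1048576) (nat_lit 16777609) (.one (nat_lit 2316305089) .nil))),
   .two (nat_lit 9934209032) (nat_lit 3460300808) (.two (nat_lit 605028357) (nat_lit 1277165583) (.two (nat_lit 2097153) (nat_lit 4634706024) (.two (nat_lit 1048576) (nat_lit 4194698) (.one (nat_lit 1049271) .nil)))),
   .two (nat_lit 16777224) (nat_lit 11476664383) (.two (nat_lit 8388608) (nat_lit 47596962056) (.one (nat_lit 2098038) .nil)),
   .two (nat_lit 4194312) (nat_lit 156365750280) (.two (nat_lit 50331653) (nat_lit 705691712) (.two (nat_lit 1048576) (nat_lit 21778923887) (.one (nat_lit 1049290) .nil))),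
   .two (nat_lit 4194312) (nat_lit 41943055) (.two (nat_lit 4194305) (nat_lit 8388711) (.two (nat_lit 1048576) (nat_lit 37749443) .nil)),
   .two (nat_lit 2887778312) (nat_lit 157043130376) (.two (nat_lit 9781116933) (nat_lit 11476664384) (.two (nat_lit 16777216) (nat_lit 46507491591) (.one (nat_lit 8389495) .nil))),
   .two (nat_lit 41943048) (nat_lit 822083599) (.two (nat_lit 8388609) (nat_lit 183962173549) (.two (nat_lit 16777216) (nat_lit 8389005) (.one (nat_lit 8389496) .nil))),
   .two (nat_lit 169869320) (nat_lit 13195280399) (.two (nat_lit 606076929) (nat_lit 166129041524) (.two (nat_lit 16777216) (nat_lit 46507492023) .nil)),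
   .two (nat_lit 37748744) (nat_lit 11618222103) (.two (nat_lit 4194305) (nat_lit 158177689717) (.two (nat_lit 8388608) (nat_lit 10370417034) (.one (nat_lit 1786774199) .nil))),
   .two (nat_lit 4194312) (nat_lit 10504634383) (.two (nat_lit 4194305) (nat_lit 166130090093) (.two (nat_lit 1048576) (nat_lit 2097550) (.one (nat_lit 1049465) .nil))),
   .two (nat_lit 203423752) (nat_lit 46984593416) (.two (nat_lit 270532613) (nat_lit 46414168079) (.two (nat_lit 2097153) (nat_lit 847249525) (.two (nat_lit 1048576) (nat_lit 3458204035) (.one (nat_lit 2098042) .nil)))),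
   .two (nat_lit 713031688) (nat_lit 19596836877) (.two (nat_lit 713031684) (nat_lit 19093520425) (.two (nat_lit 16777217) (nat_lit 8388770) (.one (nat_lit 1049467) .nil))),
   .two (nat_lit 169869320) (nat_lit 41943048) (.two (nat_lit 169869316) (nat_lit 19127074858) (.two (nat_lit 16777217) (nat_lit 2886729994) (.one (nat_lit 2098044) .nil))),
   .two (nat_lit 9934209037) (nat_lit 21785214989) (.two (nat_lit 159224168453) (nat_lit 1277165583) (.two (nat_lit 41943041) (nat_lit 183949590592) (.two (nat_lit 16777216) (nat_lit 9768534281) (.one (nat_lit 4195197) .nil)))),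
   .two (nat_lit 4601151496) (nat_lit 3525312520) (.two (nat_lit 2887778308) (nat_lit 46409973825) (.two (nat_lit 4194304) (nat_lit 3558867209) (.one (nat_lit 47548727821) .nil))),
   .two (nat_lit 37748744) (nat_lit 184993972232) (.two (nat_lit 713031684) (nat_lit 47548727411) (.two (nat_lit 8388608) (nat_lit 2097749) (.one (nat_lit 2098046) .nil))),
   .two (nat_lit 9934209032) (nat_lit 10506731528) (.two (nat_lit 169869316) (nat_lit 9768534031) (.two (nat_lit 2097153) (nat_lit 156569174178) (.one (nat_lit 4195199) .nil))),
   .two (nat_lit 156533522444) (nat_lit 1048590) (.two (nat_lit 9934209029) (nat_lit 4631560304) (.two (nat_lit 2097152) (nat_lit 1048979) (.one (nat_lit 12617515713) .nil))),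
   .two (nat_lit 176160776) (nat_lit 166230753293) (.two (nat_lit 176160772) (nat_lit 639631375) (.two (nat_lit 2097153) (nat_lit 343933090) (.one (nat_lit 8389504) .nil))),
   .two (nat_lit 75497480) (nat_lit 13191086088) (.two (nat_lit 4194308) (nat_lit 21785214991) (.two (nat_lit 41943041) (nat_lit 28693234031) (.one (nat_lit 4195201) .nil))),
   .two (nat_lit 11551113224) (nat_lit 4601151503) (.two (nat_lit 8388609) (nat_lit 10538188911) (.two (nat_lit 8388608) (nat_lit 4194708) (.one (nat_lit 2098050) .nil))),
   .two (nat_lit 37748744) (nat_lit 18925748232) (.two (nat_lit 46978301957) (nat_lit 1048620) (.two (nat_lit 16777217) (nat_lit 12047089929) (.one (nat_lit 2098051) .nil))),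
   .two (nat_lit 612368392) (nat_lit 1377828876) (.two (nat_lit 1344274437) (nat_lit 612368399) (.two (nat_lit 8388609) (nat_lit 1950351477) (.two (nat_lit 2097152) (nat_lit 4194699) (.one (nat_lit 740295351) .nil)))),
   .two (nat_lit 12114198536) (nat_lit 18933088264) (.two (nat_lit 11476664324) (nat_lit 19604176920) (.two (nat_lit 9768534017) (nat_lit 46507491712) (.one (nat_lit 1049301) .nil))),
   .two (nat_lit 19027460109) (nat_lit 168820750) (.two (nat_lit 9933160453) (nat_lit 13222543472) (.two (nat_lit 4194304) (nat_lit 10538189201) (.one (nat_lit 2098053) .nil))),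
   .two (nat_lit 742391816) (nat_lit 19604176920) (.two (nat_lit 37748737) (nat_lit 1914699885) (.two (nat_lit 4194304) (nat_lit 142606730) (.one (nat_lit 2098054) .nil))),
   .two (nat_lit 4194312) (nat_lit 10504634376) (.two (nat_lit 171966469) (nat_lit 203423759) (.two (nat_lit 9766436865) (nat_lit 11610882165) (.two (nat_lit 4194304) (nat_lit 1049176) (.one (nat_lit 4195207) .nil)))),
   .two (nat_lit 809500680) (nat_lit 183845781519) (.two (nat_lit 9765388289) (nat_lit 156367847536) (.two (nat_lit 4194304) (nat_lit 2097559) (.one (nat_lit 4195208) .nil))),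
   .two (nat_lit 16777224) (nat_lit 606076943) (.two (nat_lit 4194305) (nat_lit 10336862311) (.two (nat_lit 4194304) (nat_lit 4028629393) (.one (nat_lit 337642155) .nil))),
   .two (nat_lit 2889875464) (nat_lit 4605345807) (.two (nat_lit 4194305) (nat_lit 46414168165) (.two (nat_lit 4194304) (nat_lit 8389016) (.one (nat_lit 4195033) .nil))),
   .two (nat_lit 11479810056) (nat_lit 184423546888) (.two (nat_lit 11484004357) (nat_lit 11479810063) (.two (nat_lit 9766436865) (nat_lit 10376708211) (.two (nat_lit 4194304) (nat_lit 2097753) (.one (nat_lit 2098057) .nil)))),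
   .two (nat_lit 809500680) (nat_lit 183946444825) (.two (nat_lit 2097153) (nat_lit 3557818494) (.two (nat_lit 4194304) (nat_lit 13222543786) (.one (nat_lit 1049492) .nil))),
   .two (nat_lit 4194312) (nat_lit 157036838927) (.two (nat_lit 4194305) (nat_lit 47582282158) (.one (nat_lit 1049314) .nil)),
   .two (nat_lit 4194312) (nat_lit 157036838927) (.two (nat_lit 4194305) (nat_lit 4028629096) (.two (nat_lit 1048576) (nat_lit 2887778714) (.one (nat_lit 2886730604) .nil))),
   .two (nat_lit 41943048) (nat_lit 11510218816) (.two (nat_lit 8388608) (nat_lit 11510219014) (.one (nat_lit 8389347) .nil)),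
   .two (nat_lit 272629768) (nat_lit 158077026318) (.two (nat_lit 4599054341) (nat_lit 272629775) (.two (nat_lit 4194305) (nat_lit 159251431544) (.two (nat_lit 1048576) (nat_lit 159253528990) (.one (nat_lit 1049494) .nil)))),
   .two (nat_lit 169869320) (nat_lit 157038936079) (.two (nat_lit 2097153) (nat_lit 46977253790) (.one (nat_lit 1049495) .nil)),
   .two (nat_lit 1276117000) (nat_lit 47582281751) (.two (nat_lit 2097153) (nat_lit 705691858) (.two (nat_lit 2097152) (nat_lit 156535620010) (.one (nat_lit 2098072) .nil))),
   .two (nat_lit 169869320) (nat_lit 218103823) (.two (nat_lit 2097153) (nat_lit 156581757146) (.two (nat_lit 2097152) (nat_lit 1049021) (.one (nat_lit 16778137) .nil))),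
   .two (nat_lit 176160776) (nat_lit 2969567247) (.two (nat_lit 16777217) (nat_lit 10007609785) (.one (nat_lit 158653743804) .nil)),
   .two (nat_lit 11551113224) (nat_lit 1913651215) (.two (nat_lit 2097153) (nat_lit 343933031) (.two (nat_lit 1048576) (nat_lit 184993972654) (.one (nat_lit 1049316) .nil))),
   .two (nat_lit 705691656) (nat_lit 13195280399) (.two (nat_lit 2097153) (nat_lit 12114198656) (.two (nat_lit 8388608) (nat_lit 2097598) (.one (nat_lit 8389530) .nil))),
   .two (nat_lit 4194312) (nat_lit 10336862216) (.two (nat_lit 69206021) (nat_lit 9866051599) (.two (nat_lit 2097153) (nat_lit 28757197018) (.two (nat_lit 1048576) (nat_lit 4634706311) (.one (nat_lit 28758246258) .nil)))),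
   .two (nat_lit 13191086088) (nat_lit 157036838927) (.two (nat_lit 4194305) (nat_lit 174686470524) (.one (nat_lit 2097893) .nil)),
   .two (nat_lit 12617515021) (nat_lit 706740238) (.two (nat_lit 9934209029) (nat_lit 28690088001) (.two (nat_lit 1048576) (nat_lit 2097600) (.one (nat_lit 1913651725) .nil))),
   .two (nat_lit 16777224) (nat_lit 639631368) (.two (nat_lit 184549380) (nat_lit 10336862223) (.two (nat_lit 16777217) (nat_lit 3021996453) (.one (nat_lit 807404046) .nil))),
   .two (nat_lit 176160776) (nat_lit 9948889103) (.two (nat_lit 16777217) (nat_lit 46514831747) (.one (nat_lit 8389532) .nil)),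
   .two (nat_lit 37748744) (nat_lit 1291845647) (.two (nat_lit 2097153) (nat_lit 20707279265) (.one (nat_lit 47596962681) .nil)),
   .two (nat_lit 184549384) (nat_lit 606076943) (.two (nat_lit 2097153) (nat_lit 3460300904) (.two (nat_lit 2097152) (nat_lit 285213088) (.one (nat_lit 16778141) .nil))),
   .two (nat_lit 272629768) (nat_lit 20637024270) (.two (nat_lit 13187940357) (nat_lit 272629775) (.two (nat_lit 37748737) (nat_lit 185020186687) (.two (nat_lit 2097152) (nat_lit 1049191) (.one (nat_lit 1049502) .nil)))),
   .two (nat_lit 169869320) (nat_lit 4605345800) (.two (nat_lit 8388612) (nat_lit 705691663) (.two (nat_lit 8388609) (nat_lit 28086108272) (.two (nat_lit 8388608) (nat_lit 2097601) (.one (nat_lit 1049503) .nil)))),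
   .two (nat_lit 721420296) (nat_lit 809500687) (.two (nat_lit 50331649) (nat_lit 13224640613) (.two (nat_lit 16777216) (nat_lit 183916036504) (.one (nat_lit 16777959) .nil))),
   .two (nat_lit 205520904) (nat_lit 156372041743) (.two (nat_lit 4194305) (nat_lit 10007609467) (.two (nat_lit 4194304) (nat_lit 8389058) (.one (nat_lit 1049504) .nil))),
   .two (nat_lit 13191086088) (nat_lit 157036838927) (.two (nat_lit 4194305) (nat_lit 11007950949) (.two (nat_lit 16777216) (nat_lit 4599054735) (.one (nat_lit 2098082) .nil))),
   .two (nat_lit 10385096712) (nat_lit 10504634383) (.two (nat_lit 2097153) (nat_lit 21827158127) (.two (nat_lit 2097152) (nat_lit 16777843) (.one (nat_lit 19042141081) .nil))),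
   .two (nat_lit 620757000) (nat_lit 159251431489) (.two (nat_lit 16777216) (nat_lit 2097780) (.one (nat_lit 47582282617) .nil)),
   .two (nat_lit 11543773192) (nat_lit 28087156744) (.two (nat_lit 739246085) (nat_lit 10001317914) (.two (nat_lit 34603009) (nat_lit 28758245598) (.two (nat_lit 16777216) (nat_lit 21207449987) (.one (nat_lit 1049511) .nil)))),
   .two (nat_lit 19596836872) (nat_lit 159217877005) (.two (nat_lit 159217876997) (nat_lit 19596836879) (.two (nat_lit 34603009) (nat_lit 639631479) (.two (nat_lit 4194304) (nat_lit 4027580830) (.one (nat_lit 1049512) .nil)))),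
   .two (nat_lit 1350565896) (nat_lit 47548727311) (.two (nat_lit 41943041) (nat_lit 9967763559) (.two (nat_lit 8388608) (nat_lit 158647452098) (.one (nat_lit 4195241) .nil))),
   .two (nat_lit 218103816) (nat_lit 1916796936) (.two (nat_lit 171966469) (nat_lit 166245433409) (.two (nat_lit 4194304) (nat_lit 159266111751) (.one (nat_lit 1049518) .nil))),
   .two (nat_lit 9781116936) (nat_lit 46477082637) (.two (nat_lit 47550824453) (nat_lit 654311439) (.two (nat_lit 4194305) (nat_lit 3573547111) (.two (nat_lit 1048576) (nat_lit 28806480306) (.one (nat_lit 19127075549) .nil)))),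
   .two (nat_lit 813694984) (nat_lit 1745879055) (.two (nat_lit 8388609) (nat_lit 11476664526) (.two (nat_lit 8388608) (nat_lit 11543773634) (.one (nat_lit 2098097) .nil))),
   .two (nat_lit 8388616) (nat_lit 12047089687) (.two (nat_lit 8388609) (nat_lit 156567077083) (.two (nat_lit 16777216) (nat_lit 874512793) (.one (nat_lit 8389554) .nil))),
   .two (nat_lit 2887778312) (nat_lit 3464495119) (.two (nat_lit 2097153) (nat_lit 4605345894) (.two (nat_lit 1048576) (nat_lit 880804244) (.one (nat_lit 2886730466) .nil))),
   .two (nat_lit 37748744) (nat_lit 1913651215) (.two (nat_lit 2097153) (nat_lit 4631560311) (.two (nat_lit 4194304) (nat_lit 2097789) (.one (nat_lit 4195251) .nil))),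
   .two (nat_lit 9766436872) (nat_lit 158143086600) (.two (nat_lit 34603013) (nat_lit 13195280399) (.two (nat_lit 2097153) (nat_lit 159250382959) (.two (nat_lit 2097152) (nat_lit 209715646) (.one (nat_lit 8389556) .nil)))),
   .two (nat_lit 2887778312) (nat_lit 46414168088) (.two (nat_lit 2097153) (nat_lit 28790751434) (.two (nat_lit 1048576) (nat_lit 10510926247) (.one (nat_lit 1049525) .nil))),
   .two (nat_lit 41943048) (nat_lit 1745879055) (.two (nat_lit 2097153) (nat_lit 184993972451) (.two (nat_lit 8388608) (nat_lit 11543773634) (.one (nat_lit 2098102) .nil))),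
   .two (nat_lit 184549384) (nat_lit 272629768) (.two (nat_lit 4194308) (nat_lit 9781117055) (.two (nat_lit 16777216) (nat_lit 4194776) (.one (nat_lit 1291846382) .nil))),
   .two (nat_lit 4194312) (nat_lit 156365750280) (.two (nat_lit 50331653) (nat_lit 705691711) (.two (nat_lit 16777216) (nat_lit 336593159) (.one (nat_lit 1049538) .nil))),
   .two (nat_lit 46409973768) (nat_lit 159224168456) (.two (nat_lit 176160772) (nat_lit 46409973775) (.two (nat_lit 8388609) (nat_lit 19599983004) (.one (nat_lit 4195267) .nil))),
   .two (nat_lit 612368392) (nat_lit 19530776591) (.two (nat_lit 9766436865) (nat_lit 19537068388) (.two (nat_lit 2097152) (nat_lit 8389247) (.one (nat_lit 2098116) .nil))),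
   .two (nat_lit 809500680) (nat_lit 46978301960) (.two (nat_lit 3525312517) (nat_lit 809500687) (.two (nat_lit 4194305) (nat_lit 166230753648) (.one (nat_lit 169870199) .nil))),
   .two (nat_lit 8388616) (nat_lit 37316722701) (.two (nat_lit 1358954501) (nat_lit 612368546) (.one (nat_lit 708838267) .nil)),
   .two (nat_lit 205520904) (nat_lit 9781116936) (.two (nat_lit 2956984325) (nat_lit 156548202520) (.two (nat_lit 4194305) (nat_lit 46523220200) (.two (nat_lit 4194304) (nat_lit 1795162528) (.one (nat_lit 1049541) .nil)))),
   .two (nat_lit 169869320) (nat_lit 10338959368) (.two (nat_lit 2097157) (nat_lit 339738650) (.two (nat_lit 50331649) (nat_lit 21207449864) (.one (nat_lit 1049542) .nil))),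
   .two (nat_lit 176160776) (nat_lit 37246468109) (.two (nat_lit 12114198533) (nat_lit 3028287512) (.two (nat_lit 34603009) (nat_lit 343933034) (.two (nat_lit 8388608) (nat_lit 19093520761) (.one (nat_lit 1049543) .nil)))),
   .two (nat_lit 156372041736) (nat_lit 183912890381) (.two (nat_lit 4605345797) (nat_lit 2349858858) (.two (nat_lit 8388609) (nat_lit 158176641153) (.two (nat_lit 8388608) (nat_lit 1049049) (.one (nat_lit 8389576) .nil)))),
   .two (nat_lit 2889875464) (nat_lit 37313576972) (.two (nat_lit 2889875460) (nat_lit 2316304425) (.two (nat_lit 4194305) (nat_lit 9899606244) (.two (nat_lit 1048576) (nat_lit 10338959769) (.one (nat_lit 4195273) .nil)))),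
   .two (nat_lit 11559501832) (nat_lit 10370416655) (.two (nat_lit 620756993) (nat_lit 166230753381) (.two (nat_lit 16777216) (nat_lit 9967763855) (.one (nat_lit 16777967) .nil))),
   .two (nat_lit 276824072) (nat_lit 156365750287) (.two (nat_lit 8388609) (nat_lit 11510219014) (.one (nat_lit 1049546) .nil)),
   .two (nat_lit 2961178632) (nat_lit 1277165576) (.two (nat_lit 9934209029) (nat_lit 10369368079) (.two (nat_lit 605028353) (nat_lit 102760557) (.two (nat_lit 1048576) (nat_lit 158144135579) (.one (nat_lit 2098123) .nil)))),
   .two (nat_lit 1343225864) (nat_lit 9802088460) (.two (nat_lit 10506731525) (nat_lit 21777874959) (.two (nat_lit 34603009) (nat_lit 2923429951) (.two (nat_lit 1048576) (nat_lit 37749149) (.one (nat_lit 4195056) .nil)))),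
   .two (nat_lit 156968681480) (nat_lit 2424307737) (.two (nat_lit 8388609) (nat_lit 46422556786) (.two (nat_lit 1048576) (nat_lit 37262197162) (.one (nat_lit 1049548) .nil))),
   .two (nat_lit 8388616) (nat_lit 10000269337) (.two (nat_lit 8388609) (nat_lit 235929712) (.two (nat_lit 8388608) (nat_lit 1049051) (.one (nat_lit 343933678) .nil))),
   .two (nat_lit 2889875464) (nat_lit 37313576972) (.two (nat_lit 2889875460) (nat_lit 2316304425) (.two (nat_lit 4194305) (nat_lit 12147753171) (.two (nat_lit 4194304) (nat_lit 68157707) (.one (nat_lit 1049549) .nil)))),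
   .two (nat_lit 809500680) (nat_lit 10336862216) (.two (nat_lit 272629765) (nat_lit 28087156760) (.two (nat_lit 2097153) (nat_lit 12117344374) (.two (nat_lit 2097152) (nat_lit 4194944) (.one (nat_lit 2097905) .nil)))),
   .two (nat_lit 10940841992) (nat_lit 21785214989) (.two (nat_lit 159224168453) (nat_lit 37314625601) (.two (nat_lit 1048576) (nat_lit 10437525766) (.one (nat_lit 8389362) .nil))),
   .two (nat_lit 1913651208) (nat_lit 19027460119) (.two (nat_lit 34603009) (nat_lit 773849491) (.one (nat_lit 2098126) .nil)),
   .two (nat_lit 169869320) (nat_lit 1358954511) (.two (nat_lit 34603009) (nat_lit 174753579129) (.two (nat_lit 1048576) (nat_lit 13237223871) (.one (nat_lit 16778191) .nil))),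
   .two (nat_lit 203423752) (nat_lit 18928893967) (.two (nat_lit 2097153) (nat_lit 843055169) (.two (nat_lit 4194304) (nat_lit 46407877029) (.one (nat_lit 1413481385) .nil))),
   .two (nat_lit 11551113224) (nat_lit 1358954509) (.two (nat_lit 9948889093) (nat_lit 184993972239) (.two (nat_lit 620756993) (nat_lit 11584667750) (.two (nat_lit 2097152) (nat_lit 889192906) (.one (nat_lit 16778192) .nil)))),
   .two (nat_lit 16777224) (nat_lit 101711887) (.two (nat_lit 16777217) (nat_lit 135266518) (.two (nat_lit 16777216) (nat_lit 166196150639) (.one (nat_lit 1049553) .nil))),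
   .two (nat_lit 176160776) (nat_lit 3024093210) (.two (nat_lit 34603009) (nat_lit 3560964216) (.two (nat_lit 8388608) (nat_lit 1049217) (.one (nat_lit 166237045431) .nil))),
   .two (nat_lit 184986632200) (nat_lit 10343153679) (.two (nat_lit 8388609) (nat_lit 158646403465) (.one (nat_lit 1049554) .nil)),
   .two (nat_lit 21777874952) (nat_lit 19599982607) (.two (nat_lit 34603009) (nat_lit 157038936165) (.two (nat_lit 1048576) (nat_lit 47584379354) (.one (nat_lit 4195283) .nil))),
   .two (nat_lit 2969567240) (nat_lit 1779433487) (.two (nat_lit 620756993) (nat_lit 28790751333) (.two (nat_lit 16777216) (nat_lit 1376780687) (.one (nat_lit 1049556) .nil))),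
   .two (nat_lit 8388616) (nat_lit 12129927176) (.two (nat_lit 176160773) (nat_lit 183962173464) (.two (nat_lit 50331649) (nat_lit 310378613) (.two (nat_lit 16777216) (nat_lit 4638900628) (.one (nat_lit 2098133) .nil)))),
   .two (nat_lit 272629768) (nat_lit 183845781512) (.two (nat_lit 169869316) (nat_lit 183845781603) (.two (nat_lit 2097153) (nat_lit 158176641134) (.two (nat_lit 2097152) (nat_lit 11610882445) (.one (nat_lit 807404472) .nil)))),
   .two (nat_lit 2961178632) (nat_lit 10338959375) (.two (nat_lit 8388609) (nat_lit 2987393287) (.one (nat_lit 1343226809) .nil)),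
   .two (nat_lit 8388616) (nat_lit 18925748239) (.two (nat_lit 8388609) (nat_lit 1376780510) (.two (nat_lit 16777216) (nat_lit 780140931) (.one (nat_lit 11618223004) .nil))),
   .two (nat_lit 4194312) (nat_lit 165526110221) (.two (nat_lit 605028357) (nat_lit 20638072847) (.two (nat_lit 2097153) (nat_lit 4631560311) (.two (nat_lit 16777216) (nat_lit 20638073218) (.one (nat_lit 2098141) .nil)))),
   .two (nat_lit 47548727304) (nat_lit 2927624205) (.two (nat_lit 11543773189) (nat_lit 19530776591) (.two (nat_lit 8388609) (nat_lit 46978302055) (.two (nat_lit 1048576) (nat_lit 2921333171) (.one (nat_lit 165525062365) .nil)))),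
   .two (nat_lit 1343225864) (nat_lit 158177689625) (.two (nat_lit 2097153) (nat_lit 47584378994) (.two (nat_lit 1048576) (nat_lit 21814575530) (.one (nat_lit 1049566) .nil))),
   .two (nat_lit 606076936) (nat_lit 117440527) (.two (nat_lit 2097153) (nat_lit 166199296116) (.two (nat_lit 16777216) (nat_lit 708837792) (.one (nat_lit 339739608) .nil))),
   .two (nat_lit 11543773192) (nat_lit 156372041743) (.two (nat_lit 605028353) (nat_lit 310378561) (.two (nat_lit 8388608) (nat_lit 11510219173) (.one (nat_lit 11618222956) .nil))),
   .two (nat_lit 272629768) (nat_lit 20637024270) (.two (nat_lit 13187940357) (nat_lit 272629775) (.two (nat_lit 16777217) (nat_lit 158143086859) (.one (nat_lit 1049567) .nil))),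
   .two (nat_lit 169869320) (nat_lit 10338959368) (.two (nat_lit 2097157) (nat_lit 339738650) (.two (nat_lit 605028353) (nat_lit 46510637182) (.two (nat_lit 2097152) (nat_lit 705692269) (.one (nat_lit 2098144) .nil)))),
   .two (nat_lit 2954887176) (nat_lit 9966714892) (.two (nat_lit 4194308) (nat_lit 11510218777) (.two (nat_lit 2097153) (nat_lit 269484161) (.two (nat_lit 2097152) (nat_lit 159216828862) (.one (nat_lit 1346372324) .nil)))),
   .two (nat_lit 739246088) (nat_lit 19530776584) (.two (nat_lit 9934209029) (nat_lit 101711887) (.two (nat_lit 34603009) (nat_lit 10437525739) (.two (nat_lit 2097152) (nat_lit 12617515273) (.one (nat_lit 21811430114) .nil)))),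
   .two (nat_lit 1277165576) (nat_lit 46980399112) (.two (nat_lit 9934209029) (nat_lit 843055155) (.two (nat_lit 606076929) (nat_lit 46980399324) (.two (nat_lit 2097152) (nat_lit 4634706188) (.one (nat_lit 2097915) .nil)))),
   .two (nat_lit 739246088) (nat_lit 11007950860) (.two (nat_lit 11476664324) (nat_lit 19094569086) (.two (nat_lit 1048576) (nat_lit 4028629260) (.one (nat_lit 9798943414) .nil))),
   .two (nat_lit 184986632200) (nat_lit 28693233677) (.two (nat_lit 9768534021) (nat_lit 184986632207) (.two (nat_lit 34603009) (nat_lit 3560964210) (.two (nat_lit 1048576) (nat_lit 4194795) (.one (nat_lit 165525062362) .nil)))),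
   .two (nat_lit 1277165576) (nat_lit 612368434) (.two (nat_lit 8388609) (nat_lit 9934209089) (.two (nat_lit 2097152) (nat_lit 343933196) (.one (nat_lit 270533302) .nil))),
   .two (nat_lit 11479810056) (nat_lit 117440527) (.two (nat_lit 37748737) (nat_lit 28806479981) (.two (nat_lit 16777216) (nat_lit 708837792) (.one (nat_lit 4195297) .nil))),
   .two (nat_lit 739246088) (nat_lit 21785214984) (.two (nat_lit 713031684) (nat_lit 739246095) (.two (nat_lit 34603009) (nat_lit 343933048) (.two (nat_lit 1048576) (nat_lit 9940500901) (.one (nat_lit 158646403820) .nil)))),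
   .two (nat_lit 156372041736) (nat_lit 9765388337) (.two (nat_lit 4194305) (nat_lit 156968681735) (.one (nat_lit 183953785526) .nil)),
   .two (nat_lit 11476664328) (nat_lit 165532401679) (.two (nat_lit 2097153) (nat_lit 46414168127) (.two (nat_lit 1048576) (nat_lit 343933380) (.one (nat_lit 1049571) .nil))),
   .two (nat_lit 606076936) (nat_lit 1358954504) (.two (nat_lit 69206021) (nat_lit 158662131737) (.two (nat_lit 2097153) (nat_lit 775946357) (.two (nat_lit 4194304) (nat_lit 20738736526) (.one (nat_lit 11559502784) .nil)))),
   .two (nat_lit 8388616) (nat_lit 157038936077) (.two (nat_lit 157038936069) (nat_lit 209715216) (.two (nat_lit 9766436865) (nat_lit 9969860737) (.two (nat_lit 2097152) (nat_lit 8388880) (.one (nat_lit 8389605) .nil)))),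
   .two (nat_lit 11476664328) (nat_lit 10385096712) (.two (nat_lit 806354949) (nat_lit 10385096719) (.two (nat_lit 620756993) (nat_lit 34603235) (.two (nat_lit 1048576) (nat_lit 174701150479) (.one (nat_lit 1049578) .nil)))),
   .two (nat_lit 169869320) (nat_lit 654311431) (.two (nat_lit 9781116931) (nat_lit 2954887183) (.two (nat_lit 9781116929) (nat_lit 2954887203) (.two (nat_lit 16777216) (nat_lit 11544821854) (.one (nat_lit 20738736314) .nil)))),
   .two (nat_lit 620757000) (nat_lit 3525312519) (.two (nat_lit 2887778307) (nat_lit 184549391) (.two (nat_lit 612368385) (nat_lit 352321601) (.two (nat_lit 2097152) (nat_lit 3036676261) (.one (nat_lit 16777984) .nil)))),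
   .two (nat_lit 10343153676) (nat_lit 156466413577) (.two (nat_lit 169869314) (nat_lit 28093448233) (.two (nat_lit 1277165573) (nat_lit 1753219091) (.two (nat_lit 2097153) (nat_lit 28093448300) (.two (nat_lit 2097152) (nat_lit 8388885) (.one (nat_lit 8389377) .nil))))),
   .two (nat_lit 620757000) (nat_lit 10370416648) (.two (nat_lit 639631365) (nat_lit 620757007) (.two (nat_lit 16777217) (nat_lit 9766437091) (.two (nat_lit 16777216) (nat_lit 2097813) (.one (nat_lit 16778220) .nil)))),
   .two (nat_lit 1291845638) (nat_lit 169869320) (.two (nat_lit 1291845636) (nat_lit 2954887183) (.two (nat_lit 620756993) (nat_lit 2954887203) (.two (nat_lit 16777216) (nat_lit 11544821854) (.one (nat_lit 20738736314) .nil)))),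
   .two (nat_lit 156567076874) (nat_lit 638582791) (.two (nat_lit 10369368067) (nat_lit 156567076894) (.two (nat_lit 156365750273) (nat_lit 8388749) (.two (nat_lit 1048576) (nat_lit 2097648) (.one (nat_lit 8389613) .nil)))),
   .two (nat_lit 10343153676) (nat_lit 156466413577) (.two (nat_lit 169869314) (nat_lit 28093448233) (.two (nat_lit 1277165573) (nat_lit 1753219091) (.two (nat_lit 2097153) (nat_lit 28093448300) (.two (nat_lit 2097152) (nat_lit 8388888) (.one (nat_lit 8389380) .nil))))),
   .two (nat_lit 156367847432) (nat_lit 176160774) (.two (nat_lit 176160772) (nat_lit 156367847439) (.two (nat_lit 8388609) (nat_lit 28089254004) (.two (nat_lit 8388608) (nat_lit 11614027947) (.one (nat_lit 4195077) .nil)))),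
   .two (nat_lit 11559501836) (nat_lit 18925748233) (.two (nat_lit 638582789) (nat_lit 721420329) (.two (nat_lit 8388609) (nat_lit 721420396) (.two (nat_lit 8388608) (nat_lit 16777841) (.one (nat_lit 16777990) .nil)))),
   .two (nat_lit 1277165574) (nat_lit 11543773191) (.two (nat_lit 705691651) (nat_lit 28758245400) (.two (nat_lit 34603009) (nat_lit 2097294) (.two (nat_lit 1048576) (nat_lit 2097649) (.one (nat_lit 2098159) .nil)))),
   .two (nat_lit 3464495112) (nat_lit 3021996046) (.two (nat_lit 159217876997) (nat_lit 156372041743) (.two (nat_lit 8388609) (nat_lit 740294775) (.two (nat_lit 8388608) (nat_lit 16777725) (.one (nat_lit 8389620) .nil)))),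
   .two (nat_lit 37320917001) (nat_lit 3036676109) (.two (nat_lit 2894069765) (nat_lit 721420329) (.two (nat_lit 8388609) (nat_lit 721420396) (.two (nat_lit 1048576) (nat_lit 117440682) (.one (nat_lit 16777997) .nil)))),
   .two (nat_lit 9802088460) (nat_lit 19604176910) (.two (nat_lit 2894069765) (nat_lit 157038936105) (.two (nat_lit 8388609) (nat_lit 157038936172) (.two (nat_lit 1048576) (nat_lit 166132187761) (.one (nat_lit 166132187910) .nil)))),
   .two (nat_lit 47563407368) (nat_lit 183913938958) (.two (nat_lit 9934209029) (nat_lit 165525061647) (.two (nat_lit 606076929) (nat_lit 28690088058) (.two (nat_lit 2097152) (nat_lit 2987393524) (.one (nat_lit 1049358) .nil)))),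
   .two (nat_lit 3464495112) (nat_lit 3021996046) (.two (nat_lit 708837381) (nat_lit 156372041743) (.two (nat_lit 4194305) (nat_lit 1224736982) (.two (nat_lit 4194304) (nat_lit 8389242) (.one (nat_lit 8389621) .nil)))),
   .two (nat_lit 11492392968) (nat_lit 28760342537) (.two (nat_lit 2889875461) (nat_lit 156372041743) (.two (nat_lit 4194305) (nat_lit 1216348266) (.two (nat_lit 4194304) (nat_lit 10544480693) (.one (nat_lit 8389392) .nil)))),
   .two (nat_lit 11492392968) (nat_lit 11476664329) (.two (nat_lit 21777874949) (nat_lit 721420313) (.two (nat_lit 605028353) (nat_lit 16777366) (.two (nat_lit 1048576) (nat_lit 16777726) (.one (nat_lit 1049591) .nil))))]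

theorem j24K0 : chkL j24T j24C0 (nat_lit 0) = true := by decide +kernel

end JT

end Pool.Agent.Work.MP_bf01b2_co.MR
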