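import Pool.Agent.Work.MP_bf01b2_co.MR.J24T

/-!
# Class aware calculus on `Q_5`: certificates of the entries 1300 to 2474
-/

set_option autoImplicit false
set_option maxRecDepth 100000

namespace Pool.Agent.Work.MP_bf01b2_co.MR

namespace JT

/-- certificates of the entries 1300 to 2474 -/
def j24C1 : List Rc :=
  [.two (nat_lit 1914699785) (nat_lit 10506731527) (.two (nat_lit 2887778307) (nat_lit 28693233705) (.two (nat_lit 2097153) (nat_lit 28693233772) (.two (nat_lit 2097152) (nat_lit 3527409834) (.one (nat_lit 4195090) .nil)))),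
   .two (nat_lit 28758245384) (nat_lit 21811429388) (.two (nat_lit 21777874949) (nat_lit 19094568985) (.two (nat_lit 9766436865) (nat_lit 873463934) (.two (nat_lit 1048576) (nat_lit 2097447) (.one (nat_lit 2098168) .nil)))),
   .two (nat_lit 8388616) (nat_lit 705691712) (.two (nat_lit 4194305) (nat_lit 813695501) (.one (nat_lit 11543774201) .nil)),
   .two (nat_lit 4194312) (nat_lit 639631384) (.two (nat_lit 2097157) (nat_lit 612368492) (.two (nat_lit 2097153) (nat_lit 1178599803) (.two (nat_lit 1048576) (nat_lit 1277166250) (.one (nat_lit 606077948) .nil)))),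
   .two (nat_lit 4194312) (nat_lit 639631375) (.two (nat_lit 4194308) (nat_lit 739246187) (.two (nat_lit 4194305) (nat_lit 739246604) (.one (nat_lit 11543773976) .nil))),
   .two (nat_lit 4194312) (nat_lit 8388672) (.two (nat_lit 4194305) (nat_lit 739246605) (.one (nat_lit 11543773977) .nil)),
   .two (nat_lit 620757000) (nat_lit 10343153679) (.two (nat_lit 83886085) (nat_lit 243269735) (.two (nat_lit 8388609) (nat_lit 47596961954) (.two (nat_lit 1048576) (nat_lit 10015998639) (.one (nat_lit 8389645) .nil)))),
   .two (nat_lit 9881780232) (nat_lit 157036838927) (.two (nat_lit 1291845636) (nat_lit 174686470250) (.two (nat_lit 2097153) (nat_lit 11559501986) (.two (nat_lit 2097152) (nat_lit 16777915) (.one (nat_lit 16778254) .nil)))),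
   .two (nat_lit 37748744) (nat_lit 713031695) (.two (nat_lit 9873391621) (nat_lit 2954887232) (.two (nat_lit 4194305) (nat_lit 159251431586) (.two (nat_lit 4194304) (nat_lit 2097855) (.one (nat_lit 2098192) .nil)))),
   .two (nat_lit 612368392) (nat_lit 203423759) (.two (nat_lit 270532613) (nat_lit 3028287551) (.two (nat_lit 2097153) (nat_lit 8388770) (.two (nat_lit 1048576) (nat_lit 639631884) (.one (nat_lit 1049617) .nil)))),
   .two (nat_lit 1779433480) (nat_lit 184993972288) (.two (nat_lit 605028353) (nat_lit 880804002) (.two (nat_lit 1048576) (nat_lit 8389312) (.one (nat_lit 1350566914) .nil))),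
   .two (nat_lit 169869320) (nat_lit 9768534031) (.two (nat_lit 2097157) (nat_lit 46510637119) (.two (nat_lit 2097153) (nat_lit 272629922) (.two (nat_lit 1048576) (nat_lit 4195010) (.one (nat_lit 1049618) .nil)))),
   .two (nat_lit 8388616) (nat_lit 11476664345) (.two (nat_lit 2887778308) (nat_lit 9899606132) (.two (nat_lit 2097153) (nat_lit 10503586056) (.two (nat_lit 8388608) (nat_lit 101712560) (.one (nat_lit 10370417671) .nil)))),
   .two (nat_lit 276824072) (nat_lit 9768534031) (.two (nat_lit 8388612) (nat_lit 168820851) (.two (nat_lit 4194305) (nat_lit 4598006286) (.one (nat_lit 158075978750) .nil))),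
   .two (nat_lit 705691656) (nat_lit 41943055) (.two (nat_lit 209715205) (nat_lit 2954887233) (.two (nat_lit 8388609) (nat_lit 9934209287) (.two (nat_lit 2097152) (nat_lit 705692355) (.one (nat_lit 8389652) .nil)))),
   .two (nat_lit 75497480) (nat_lit 739246095) (.two (nat_lit 713031684) (nat_lit 12147753024) (.two (nat_lit 34603009) (nat_lit 880804002) (.two (nat_lit 1048576) (nat_lit 8389316) (.one (nat_lit 605029375) .nil)))),
   .two (nat_lit 101711880) (nat_lit 18933088271) (.two (nat_lit 1779433477) (nat_lit 11517558848) (.two (nat_lit 34603009) (nat_lit 4605345954) (.two (nat_lit 1048576) (nat_lit 8389317) (.one (nat_lit 847250201) .nil)))),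
   .two (nat_lit 16777224) (nat_lit 183848927247) (.two (nat_lit 285212677) (nat_lit 183848927296) (.two (nat_lit 156372041729) (nat_lit 18928894476) (.one (nat_lit 4195350) .nil))),
   .two (nat_lit 2954887176) (nat_lit 9768534031) (.two (nat_lit 203423749) (nat_lit 46510637119) (.two (nat_lit 2097153) (nat_lit 4634706082) (.two (nat_lit 2097152) (nat_lit 4195016) (.one (nat_lit 2098183) .nil)))),
   .two (nat_lit 285212680) (nat_lit 183853121551) (.two (nat_lit 16777220) (nat_lit 183853121600) (.two (nat_lit 41943041) (nat_lit 4647288994) (.two (nat_lit 1048576) (nat_lit 1216348684) (.one (nat_lit 8389655) .nil)))),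
   .two (nat_lit 169869320) (nat_lit 9768534031) (.two (nat_lit 2097157) (nat_lit 46510637120) (.two (nat_lit 2097153) (nat_lit 272629922) (.two (nat_lit 1048576) (nat_lit 9934209548) (.one (nat_lit 1175454737) .nil)))),
   .two (nat_lit 205520904) (nat_lit 10343153679) (.two (nat_lit 2956984325) (nat_lit 165532401729) (.two (nat_lit 4194305) (nat_lit 2994733218) (.two (nat_lit 4194304) (nat_lit 8389345) (.one (nat_lit 159219975190) .nil)))),
   .two (nat_lit 4194312) (nat_lit 612368399) (.two (nat_lit 176160772) (nat_lit 13191086197) (.two (nat_lit 8388609) (nat_lit 272629922) (.two (nat_lit 1048576) (nat_lit 11479810761) (.one (nat_lit 1049626) .nil)))),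
   .two (nat_lit 822083592) (nat_lit 156367847439) (.two (nat_lit 1191182341) (nat_lit 18928894061) (.two (nat_lit 4194305) (nat_lit 352321698) (.two (nat_lit 1048576) (nat_lit 28101837545) (.one (nat_lit 11610883072) .nil)))),
   .two (nat_lit 12114198536) (nat_lit 75497487) (.two (nat_lit 184416206853) (nat_lit 10007609409) (.two (nat_lit 34603009) (nat_lit 10007609506) (.two (nat_lit 1048576) (nat_lit 20745028321) (.one (nat_lit 605029380) .nil)))),
   .two (nat_lit 176160776) (nat_lit 809500687) (.two (nat_lit 4194308) (nat_lit 8388673) (.two (nat_lit 8388609) (nat_lit 13224640674) (.two (nat_lit 8388608) (nat_lit 13191086789) (.one (nat_lit 2889876249) .nil)))),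
   .two (nat_lit 4194312) (nat_lit 612368399) (.two (nat_lit 2894069765) (nat_lit 4634706082) (.two (nat_lit 1048576) (nat_lit 4601152175) (.one (nat_lit 8389664) .nil))),
   .two (nat_lit 721420296) (nat_lit 158075977743) (.two (nat_lit 721420292) (nat_lit 135266369) (.two (nat_lit 605028353) (nat_lit 50331810) (.two (nat_lit 1048576) (nat_lit 16777974) (.one (nat_lit 3020948480) .nil)))),
   .two (nat_lit 46409973768) (nat_lit 1846542351) (.two (nat_lit 11543773189) (nat_lit 4030726208) (.two (nat_lit 34603009) (nat_lit 306184457) (.two (nat_lit 4194304) (nat_lit 1309672136) (.one (nat_lit 166232851482) .nil)))),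
   .two (nat_lit 8388616) (nat_lit 11479810063) (.two (nat_lit 8388612) (nat_lit 809500737) (.two (nat_lit 8388609) (nat_lit 184419352841) (.two (nat_lit 8388608) (nat_lit 1916797667) (.one (nat_lit 713032473) .nil)))),
   .two (nat_lit 4194312) (nat_lit 639631375) (.two (nat_lit 171966469) (nat_lit 3558867008) (.two (nat_lit 4194305) (nat_lit 2954887330) (.two (nat_lit 4194304) (nat_lit 20738736841) (.one (nat_lit 19529729060) .nil)))),
   .two (nat_lit 37748743) (nat_lit 754974735) (.two (nat_lit 1191182339) (nat_lit 2097286) (.two (nat_lit 9781116929) (nat_lit 4028629032) (.two (nat_lit 16777216) (nat_lit 2317353523) (.one (nat_lit 2317353523) .nil)))),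
   .two (nat_lit 2956984327) (nat_lit 156372041743) (.two (nat_lit 171966467) (nat_lit 156976021620) (.two (nat_lit 4194305) (nat_lit 158083317800) (.two (nat_lit 4194304) (nat_lit 276824829) (.one (nat_lit 1049382) .nil)))),
   .two (nat_lit 10336862215) (nat_lit 20737687568) (.two (nat_lit 156365750275) (nat_lit 174752530471) (.two (nat_lit 156365750273) (nat_lit 158646403111) (.two (nat_lit 4194304) (nat_lit 10537141030) (.one (nat_lit 10537141030) .nil)))),
   .two (nat_lit 1291845640) (nat_lit 303038496) (.two (nat_lit 9948889093) (nat_lit 3524264010) (.two (nat_lit 620756993) (nat_lit 37313576999) (.two (nat_lit 16777216) (nat_lit 1049343) (.one (nat_lit 16777796) .nil)))),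
   .two (nat_lit 37748746) (nat_lit 10385096719) (.two (nat_lit 809500677) (nat_lit 1862271013) (.two (nat_lit 809500677) (nat_lit 10385096723) (.two (nat_lit 37748737) (nat_lit 47596961885) (.two (nat_lit 4194304) (nat_lit 2969567539) (.one (nat_lit 16778282) .nil))))),
   .two (nat_lit 1913651207) (nat_lit 1291845647) (.two (nat_lit 1175453699) (nat_lit 1291845696) (.two (nat_lit 9765388289) (nat_lit 10385096743) (.two (nat_lit 1048576) (nat_lit 1291845814) (.one (nat_lit 16778283) .nil)))),
   .two (nat_lit 606076936) (nat_lit 21785214991) (.two (nat_lit 2887778306) (nat_lit 11584667852) (.two (nat_lit 169869316) (nat_lit 10506731557) (.two (nat_lit 9766436865) (nat_lit 138412475) (.two (nat_lit 2097152) (nat_lit 8389153) (.one (nat_lit 2098224) .nil))))),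
   .two (nat_lit 16777224) (nat_lit 2889875471) (.two (nat_lit 16777218) (nat_lit 3560964226) (.two (nat_lit 16777220) (nat_lit 2956984357) (.two (nat_lit 50331649) (nat_lit 4194594) (.two (nat_lit 16777216) (nat_lit 4194850) (.one (nat_lit 4195377) .nil))))),
   .two (nat_lit 3464495114) (nat_lit 10506731535) (.two (nat_lit 10506731528) (nat_lit 4605345811) (.two (nat_lit 2889875458) (nat_lit 10343153859) (.two (nat_lit 46414168069) (nat_lit 166232850469) (.two (nat_lit 4194305) (nat_lit 8388897) (.two (nat_lit 4194304) (nat_lit 47555019063) (.one (nat_lit 8389682) .nil)))))),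
   .two (nat_lit 183853121544) (nat_lit 1276117007) (.two (nat_lit 2889875458) (nat_lit 19596836976) (.two (nat_lit 605028357) (nat_lit 713031718) (.two (nat_lit 9768534017) (nat_lit 19093520674) (.two (nat_lit 4194304) (nat_lit 1049124) (.one (nat_lit 1049652) .nil))))),
   .two (nat_lit 809500680) (nat_lit 4632608794) (.two (nat_lit 10940841989) (nat_lit 13191086208) (.two (nat_lit 4194305) (nat_lit 2097620) (.two (nat_lit 4194304) (nat_lit 1779434017) (.one (nat_lit 10503586597) .nil)))),
   .two (nat_lit 1210056713) (nat_lit 1913651215) (.two (nat_lit 739246088) (nat_lit 236978198) (.two (nat_lit 11543773189) (nat_lit 156969730176) (.two (nat_lit 9765388289) (nat_lit 2921333157) (.two (nat_lit 1048576) (nat_lit 2097480) (.one (nat_lit 1049655) .nil))))),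
   .two (nat_lit 46980399117) (nat_lit 1358954523) (.two (nat_lit 654311431) (nat_lit 46980399128) (.two (nat_lit 272629765) (nat_lit 654311489) (.two (nat_lit 4194305) (nat_lit 9781117094) (.two (nat_lit 16777216) (nat_lit 4194853) (.one (nat_lit 13203669797) .nil))))),
   .two (nat_lit 8388616) (nat_lit 1745879055) (.two (nat_lit 8388612) (nat_lit 184986632230) (.two (nat_lit 8388612) (nat_lit 4598005781) (.two (nat_lit 8388609) (nat_lit 158075977891) (.two (nat_lit 2097152) (nat_lit 8388938) (.one (nat_lit 8389690) .nil))))),
   .two (nat_lit 2889875464) (nat_lit 28087156751) (.two (nat_lit 2889875460) (nat_lit 3036676208) (.two (nat_lit 2097153) (nat_lit 1224736940) (.two (nat_lit 16777216) (nat_lit 1411383481) (.one (nat_lit 16778032) .nil)))),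
   .two (nat_lit 47555018759) (nat_lit 16777231) (.two (nat_lit 176160771) (nat_lit 16777278) (.two (nat_lit 8388609) (nat_lit 16777378) (.two (nat_lit 8388608) (nat_lit 10015998281) (.one (nat_lit 16778033) .nil)))),
   .two (nat_lit 1761607691) (nat_lit 2887778323) (.two (nat_lit 705691656) (nat_lit 185002360850) (.two (nat_lit 16777218) (nat_lit 2097422) (.two (nat_lit 50331649) (nat_lit 2097337) (.two (nat_lit 16777216) (nat_lit 2097717) (.one (nat_lit 16778303) .nil))))),
   .two (nat_lit 159219974155) (nat_lit 117440531) (.two (nat_lit 218103816) (nat_lit 157038936083) (.two (nat_lit 2902458373) (nat_lit 19532873913) (.two (nat_lit 4194305) (nat_lit 28101836983) (.two (nat_lit 4194304) (nat_lit 185035915454) (.one (nat_lit 16778304) .nil))))),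
   .two (nat_lit 156372041743) (nat_lit 28757196811) (.two (nat_lit 156372041736) (nat_lit 158646403090) (.two (nat_lit 183853121541) (nat_lit 2349859001) (.two (nat_lit 8388609) (nat_lit 2349859001) (.two (nat_lit 8388608) (nat_lit 1048767) (.one (nat_lit 1049403) .nil))))),
   .two (nat_lit 10519314439) (nat_lit 10940842093) (.two (nat_lit 606076931) (nat_lit 16777256) (.two (nat_lit 8388608) (nat_lit 16778012) (.one (nat_lit 2098241) .nil))),
   .two (nat_lit 620756999) (nat_lit 1277165603) (.two (nat_lit 620756995) (nat_lit 1277165607) (.two (nat_lit 8388608) (nat_lit 2097949) (.one (nat_lit 2098242) .nil))),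
   .two (nat_lit 9934209039) (nat_lit 46414168080) (.two (nat_lit 159224168456) (nat_lit 2954887203) (.two (nat_lit 159224168456) (nat_lit 2954887202) (.two (nat_lit 169869316) (nat_lit 3028287527) (.two (nat_lit 176160771) (nat_lit 9934209189) (.two (nat_lit 2097153) (nat_lit 8388794) (.two (nat_lit 16777216) (nat_lit 10376708917) (.one (nat_lit 10376708917) .nil))))))),
   .two (nat_lit 12129927175) (nat_lit 104857667) (.two (nat_lit 2889875459) (nat_lit 11611930664) (.two (nat_lit 16777216) (nat_lit 2317353523) (.one (nat_lit 4195395) .nil))),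
   .two (nat_lit 612368391) (nat_lit 11626610724) (.two (nat_lit 612368387) (nat_lit 13203669032) (.two (nat_lit 8388608) (nat_lit 16778014) (.one (nat_lit 16778308) .nil))),
   .two (nat_lit 41943055) (nat_lit 183912890384) (.two (nat_lit 184986632200) (nat_lit 8388643) (.two (nat_lit 184986632200) (nat_lit 8388642) (.two (nat_lit 713031685) (nat_lit 21811429415) (.two (nat_lit 713031683) (nat_lit 185020186786) (.two (nat_lit 8388609) (nat_lit 9866051770) (.two (nat_lit 16777216) (nat_lit 176161591) (.one (nat_lit 176161591) .nil))))))),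
   .two (nat_lit 13195280395) (nat_lit 19128123437) (.two (nat_lit 813694984) (nat_lit 11492392998) (.two (nat_lit 285212680) (nat_lit 10007609365) (.two (nat_lit 184549378) (nat_lit 183947493546) (.two (nat_lit 50331653) (nat_lit 28697428059) (.two (nat_lit 620756993) (nat_lit 847249716) (.two (nat_lit 2097152) (nat_lit 8389183) (.one (nat_lit 2098245) .nil))))))),
   .two (nat_lit 822083599) (nat_lit 47555018768) (.two (nat_lit 41943048) (nat_lit 285212707) (.two (nat_lit 41943048) (nat_lit 285212706) (.two (nat_lit 8388612) (nat_lit 285212711) (.two (nat_lit 8388612) (nat_lit 9948889182) (.two (nat_lit 8388609) (nat_lit 46523220154) (.two (nat_lit 8388608) (nat_lit 16778019) (.one (nat_lit 19134415669) .nil))))))),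
   .two (nat_lit 13191086087) (nat_lit 1291845696) (.two (nat_lit 37748739) (nat_lit 10385096743) (.two (nat_lit 16777216) (nat_lit 4194883) (.one (nat_lit 16777559) .nil))),
   .two (nat_lit 276824079) (nat_lit 9768534031) (.two (nat_lit 2889875462) (nat_lit 343933045) (.two (nat_lit 1175453704) (nat_lit 166132187173) (.two (nat_lit 605028357) (nat_lit 880804002) (.two (nat_lit 4194305) (nat_lit 645923131) (.two (nat_lit 4194304) (nat_lit 9772729128) (.one (nat_lit 235930431) .nil)))))),
   .two (nat_lit 2961178639) (nat_lit 639631375) (.two (nat_lit 176160774) (nat_lit 1277165604) (.two (nat_lit 11551113224) (nat_lit 11543773222) (.two (nat_lit 34603013) (nat_lit 880804002) (.two (nat_lit 2097153) (nat_lit 645923131) (.two (nat_lit 2097152) (nat_lit 9772729128) (.one (nat_lit 2097996) .nil)))))),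
   .two (nat_lit 75497487) (nat_lit 12114198539) (.two (nat_lit 75497480) (nat_lit 2886729748) (.two (nat_lit 713031684) (nat_lit 166196150364) (.two (nat_lit 41943041) (nat_lit 10436477109) (.two (nat_lit 1048576) (nat_lit 10913579346) (.one (nat_lit 21818770240) .nil))))),
   .two (nat_lit 41943055) (nat_lit 46407876624) (.two (nat_lit 8388614) (nat_lit 10370416676) (.two (nat_lit 2097159) (nat_lit 183853121573) (.two (nat_lit 8388612) (nat_lit 9766436904) (.two (nat_lit 2894069765) (nat_lit 11007950942) (.two (nat_lit 8388609) (nat_lit 807403835) (.two (nat_lit 1048576) (nat_lit 2097967) (.one (nat_lit 46977254207) .nil))))))),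
   .two (nat_lit 3458203663) (nat_lit 3557818390) (.two (nat_lit 3458203656) (nat_lit 3557818390) (.two (nat_lit 21777874949) (nat_lit 156533522525) (.two (nat_lit 2097153) (nat_lit 1779433793) (.two (nat_lit 1048576) (nat_lit 706740416) (.one (nat_lit 10537141051) .nil))))),
   .two (nat_lit 713031695) (nat_lit 1048612) (.two (nat_lit 11551113224) (nat_lit 21811429415) (.two (nat_lit 813694983) (nat_lit 1048740) (.two (nat_lit 12047089669) (nat_lit 713031862) (.two (nat_lit 605028353) (nat_lit 10370416976) (.two (nat_lit 2097152) (nat_lit 1049397) (.one (nat_lit 1049674) .nil)))))),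
   .two (nat_lit 13195280392) (nat_lit 1309671463) (.two (nat_lit 4194304) (nat_lit 1049168) .nil),
   .two (nat_lit 612368399) (nat_lit 168820772) (.two (nat_lit 1175453704) (nat_lit 156569174055) (.two (nat_lit 1350565895) (nat_lit 21811429538) (.two (nat_lit 46980399109) (nat_lit 101712054) (.two (nat_lit 4194305) (nat_lit 1779433808) (.two (nat_lit 4194304) (nat_lit 8389431) (.one (nat_lit 9866052681) .nil)))))),
   .two (nat_lit 8388623) (nat_lit 1413480484) (.two (nat_lit 813694984) (nat_lit 13224640551) (.two (nat_lit 37748743) (nat_lit 8388773) (.two (nat_lit 46409973765) (nat_lit 41943222) (.two (nat_lit 4194305) (nat_lit 639631696) (.two (nat_lit 2097152) (nat_lit 608174901) (.one (nat_lit 4195403) .nil)))))),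
   .two (nat_lit 218103823) (nat_lit 28693233682) (.two (nat_lit 46980399109) (nat_lit 28101836983) (.two (nat_lit 50331649) (nat_lit 11010048188) (.one (nat_lit 4195404) .nil))),
   .two (nat_lit 156372041743) (nat_lit 28086108179) (.two (nat_lit 1276116994) (nat_lit 1216348341) (.two (nat_lit 41943041) (nat_lit 10537140413) (.one (nat_lit 1049677) .nil))),
   .two (nat_lit 2961178639) (nat_lit 203423779) (.two (nat_lit 2961178639) (nat_lit 203423778) (.two (nat_lit 705691656) (nat_lit 8388698) (.two (nat_lit 705691656) (nat_lit 8388697) (.two (nat_lit 8388610) (nat_lit 11543773366) (.two (nat_lit 8388611) (nat_lit 11543773492) (.two (nat_lit 2097153) (nat_lit 806355518) (.two (nat_lit 1048576) (nat_lit 41943870) (.one (nat_lit 101712974) .nil)))))))),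
   .two (nat_lit 37748751) (nat_lit 176160803) (.two (nat_lit 37748751) (nat_lit 176160802) (.two (nat_lit 169869318) (nat_lit 9772728414) (.two (nat_lit 8388615) (nat_lit 69206108) (.two (nat_lit 169869314) (nat_lit 9768534198) (.two (nat_lit 4194307) (nat_lit 176161079) (.two (nat_lit 2097153) (nat_lit 746586686) (.two (nat_lit 2097152) (nat_lit 9768534846) (.one (nat_lit 2098257) .nil)))))))),
   .two (nat_lit 50331655) (nat_lit 158083317800) (.two (nat_lit 1048576) (nat_lit 16778051) .nil),
   .two (nat_lit 75497480) (nat_lit 158077026344) (.two (nat_lit 16777216) (nat_lit 1377829456) .nil),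
   .two (nat_lit 639631367) (nat_lit 9781116967) (.two (nat_lit 4194304) (nat_lit 16778052) .nil),
   .two (nat_lit 169869320) (nat_lit 1417674791) (.two (nat_lit 16777216) (nat_lit 2097989) .nil),
   .two (nat_lit 35651595) (nat_lit 8388670) (.two (nat_lit 176160783) (nat_lit 169869330) (.two (nat_lit 8388616) (nat_lit 1277165660) (.two (nat_lit 169869314) (nat_lit 813695296) (.two (nat_lit 8388612) (nat_lit 9934209205) (.two (nat_lit 2097153) (nat_lit 276824640) (.two (nat_lit 2097152) (nat_lit 8389441) (.one (nat_lit 169870416) .nil))))))),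
   .two (nat_lit 2969567239) (nat_lit 46510637095) (.two (nat_lit 16777216) (nat_lit 4194898) .nil),
   .two (nat_lit 9948889096) (nat_lit 21811429415) (.two (nat_lit 8388608) (nat_lit 16778054) .nil),
   .two (nat_lit 272629767) (nat_lit 21785215015) (.two (nat_lit 4194304) (nat_lit 12624855634) .nil),
   .two (nat_lit 713031688) (nat_lit 158077026343) (.two (nat_lit 16777216) (nat_lit 21814575943) .nil),
   .two (nat_lit 75497487) (nat_lit 4194323) (.two (nat_lit 9866051589) (nat_lit 843055293) (.two (nat_lit 34603009) (nat_lit 9768534204) (.one (nat_lit 1049684) .nil))),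
   .two (nat_lit 1913651207) (nat_lit 46510637095) (.two (nat_lit 1048576) (nat_lit 4194648) .nil),
   .two (nat_lit 8388623) (nat_lit 10370416676) (.two (nat_lit 8388616) (nat_lit 9766436904) (.two (nat_lit 159217877000) (nat_lit 109051998) (.two (nat_lit 2894069765) (nat_lit 203423930) (.two (nat_lit 34603009) (nat_lit 639631696) (.two (nat_lit 1048576) (nat_lit 20644365119) (.one (nat_lit 2098261) .nil)))))),
   .two (nat_lit 1343225863) (nat_lit 19096666151) (.two (nat_lit 1048576) (nat_lit 9802088791) .nil),
   .two (nat_lit 620756999) (nat_lit 3464495143) (.two (nat_lit 2097152) (nat_lit 165532402253) .nil),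
   .two (nat_lit 11551113223) (nat_lit 2349858855) (.two (nat_lit 2097152) (nat_lit 1283457367) .nil),
   .two (nat_lit 4194322) (nat_lit 840957974) (.two (nat_lit 10504634373) (nat_lit 272629948) (.one (nat_lit 21781021785) .nil)),
   .two (nat_lit 4194322) (nat_lit 10544480276) (.two (nat_lit 4194308) (nat_lit 10443817151) (.one (nat_lit 8389722) .nil)),
   .two (nat_lit 12117344261) (nat_lit 12121538603) (.two (nat_lit 4194304) (nat_lit 1350566115) (.one (nat_lit 8389468) .nil)),
   .two (nat_lit 21777874949) (nat_lit 11010048044) (.two (nat_lit 1048576) (nat_lit 306184312) (.one (nat_lit 4194961) .nil)),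
   .two (nat_lit 612368392) (nat_lit 156367847439) (.two (nat_lit 8388609) (nat_lit 1916797309) (.one (nat_lit 205521777) .nil)),
   .two (nat_lit 1343225864) (nat_lit 156468510733) (.two (nat_lit 705691652) (nat_lit 28693233705) (.two (nat_lit 612368385) (nat_lit 37748853) (.two (nat_lit 1048576) (nat_lit 4194902) (.one (nat_lit 4195422) .nil)))),
   .two (nat_lit 809500680) (nat_lit 10940841992) (.two (nat_lit 4194308) (nat_lit 19027460119) (.two (nat_lit 2097153) (nat_lit 12117344374) (.two (nat_lit 4194304) (nat_lit 2097751) (.one (nat_lit 2098271) .nil)))),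
   .two (nat_lit 4194312) (nat_lit 156372041743) (.two (nat_lit 4194305) (nat_lit 166129041471) (.two (nat_lit 4194304) (nat_lit 1216348546) (.one (nat_lit 8389508) .nil))),
   .two (nat_lit 184986632200) (nat_lit 19532873743) (.two (nat_lit 612368385) (nat_lit 772800623) (.two (nat_lit 1048576) (nat_lit 4194710) (.one (nat_lit 1049696) .nil))),
   .two (nat_lit 272629768) (nat_lit 174753579020) (.two (nat_lit 2889875461) (nat_lit 10940842094) (.two (nat_lit 4194304) (nat_lit 2097596) (.one (nat_lit 4195221) .nil))),
   .two (nat_lit 4194312) (nat_lit 1210056717) (.two (nat_lit 4194308) (nat_lit 20652752942) (.two (nat_lit 4194305) (nat_lit 159216828545) (.two (nat_lit 4194304) (nat_lit 2098003) (.one (nat_lit 16778345) .nil)))),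
   .two (nat_lit 11492392968) (nat_lit 159217877000) (.two (nat_lit 169869316) (nat_lit 11492393024) (.two (nat_lit 2097152) (nat_lit 11559502089) (.one (nat_lit 16778346) .nil))),
   .two (nat_lit 12114198536) (nat_lit 9967763468) (.two (nat_lit 9934209029) (nat_lit 183912890432) (.two (nat_lit 1048576) (nat_lit 2988441862) (.one (nat_lit 1209009258) .nil))),
   .two (nat_lit 1191182344) (nat_lit 11614027822) (.two (nat_lit 4194305) (nat_lit 218104018) (.two (nat_lit 1048576) (nat_lit 754975147) (.one (nat_lit 16778347) .nil))),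
   .two (nat_lit 117440520) (nat_lit 166129041416) (.two (nat_lit 9933160453) (nat_lit 9781116943) (.two (nat_lit 4194305) (nat_lit 157043130630) (.one (nat_lit 8389522) .nil))),
   .two (nat_lit 184416206856) (nat_lit 10343153679) (.two (nat_lit 4194305) (nat_lit 166129041509) (.two (nat_lit 4194304) (nat_lit 8389055) (.one (nat_lit 8389531) .nil))),
   .two (nat_lit 739246088) (nat_lit 174753579023) (.two (nat_lit 34603009) (nat_lit 10940842093) (.two (nat_lit 1048576) (nat_lit 174686470525) (.one (nat_lit 2098284) .nil))),
   .two (nat_lit 184986632200) (nat_lit 169869326) (.two (nat_lit 102760453) (nat_lit 772800577) (.two (nat_lit 8388608) (nat_lit 13221495051) (.one (nat_lit 2098285) .nil))),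
   .two (nat_lit 9781116936) (nat_lit 47548727304) (.two (nat_lit 169869316) (nat_lit 2902458432) (.two (nat_lit 2097152) (nat_lit 10385097090) (.one (nat_lit 16778350) .nil))),
   .two (nat_lit 4194312) (nat_lit 654311432) (.two (nat_lit 4194308) (nat_lit 235929728) (.two (nat_lit 2097152) (nat_lit 1049190) (.one (nat_lit 16778352) .nil))),
   .two (nat_lit 11492392968) (nat_lit 1846542344) (.two (nat_lit 50331653) (nat_lit 19026411544) (.two (nat_lit 156364701697) (nat_lit 16777565) (.two (nat_lit 1048576) (nat_lit 158662132311) (.one (nat_lit 1049505) .nil)))),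
   .two (nat_lit 4194312) (nat_lit 9781116943) (.two (nat_lit 37748737) (nat_lit 235929715) (.two (nat_lit 1048576) (nat_lit 184549819) (.one (nat_lit 168821649) .nil))),
   .two (nat_lit 11492392968) (nat_lit 159217877000) (.two (nat_lit 169869316) (nat_lit 11492393024) (.two (nat_lit 2097152) (nat_lit 185002361099) (.one (nat_lit 2098090) .nil))),
   .two (nat_lit 272629768) (nat_lit 10504634383) (.two (nat_lit 4194305) (nat_lit 10538188920) (.two (nat_lit 4194304) (nat_lit 1914700174) (.one (nat_lit 2098292) .nil))),
   .two (nat_lit 1913651208) (nat_lit 159251431437) (.two (nat_lit 9934209029) (nat_lit 1913651215) (.two (nat_lit 34603009) (nat_lit 270532734) (.two (nat_lit 1048576) (nat_lit 2921333157) (.one (nat_lit 12617515713) .nil)))),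
   .two (nat_lit 2961178632) (nat_lit 46409973824) (.two (nat_lit 1048576) (nat_lit 11513364746) (.one (nat_lit 1049719) .nil)),
   .two (nat_lit 713031688) (nat_lit 10336862223) (.two (nat_lit 612368385) (nat_lit 10538188901) (.two (nat_lit 8388608) (nat_lit 2097628) (.one (nat_lit 2098296) .nil))),
   .two (nat_lit 21777874952) (nat_lit 156533522444) (.two (nat_lit 639631365) (nat_lit 21777874959) (.two (nat_lit 34603009) (nat_lit 2097278) (.two (nat_lit 1048576) (nat_lit 46407877029) (.one (nat_lit 772801217) .nil)))),
   .two (nat_lit 184986632200) (nat_lit 10506731532) (.two (nat_lit 11543773189) (nat_lit 10506731535) (.two (nat_lit 9781116929) (nat_lit 2889875880) (.one (nat_lit 4195449) .nil))),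
   .two (nat_lit 9768534024) (nat_lit 47563407368) (.two (nat_lit 184549380) (nat_lit 9768534031) (.two (nat_lit 16777217) (nat_lit 9802088571) (.two (nat_lit 16777216) (nat_lit 9802088877) (.one (nat_lit 1049722) .nil)))),
   .two (nat_lit 2902458376) (nat_lit 21777874952) (.two (nat_lit 705691652) (nat_lit 46523220032) (.two (nat_lit 1048576) (nat_lit 2969567497) (.one (nat_lit 34604132) .nil))),
   .two (nat_lit 620757000) (nat_lit 11618222103) (.two (nat_lit 16777217) (nat_lit 8388965) (.two (nat_lit 8388608) (nat_lit 16777858) (.one (nat_lit 8389755) .nil))),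
   .two (nat_lit 2954887176) (nat_lit 1224736819) (.two (nat_lit 8388609) (nat_lit 13222543756) (.one (nat_lit 2098300) .nil)),
   .two (nat_lit 612368392) (nat_lit 12633243674) (.two (nat_lit 8388609) (nat_lit 136314990) (.two (nat_lit 2097152) (nat_lit 8389085) (.one (nat_lit 16778365) .nil))),
   .two (nat_lit 11543773192) (nat_lit 1950351374) (.two (nat_lit 11543773189) (nat_lit 1749024793) (.two (nat_lit 34603009) (nat_lit 272630118) (.two (nat_lit 16777216) (nat_lit 159216828862) (.one (nat_lit 1049729) .nil)))),
   .two (nat_lit 2954887176) (nat_lit 156372041743) (.two (nat_lit 2097153) (nat_lit 46414168128) (.two (nat_lit 2097152) (nat_lit 165532402050) (.one (nat_lit 8389762) .nil))),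
   .two (nat_lit 639631368) (nat_lit 37249613837) (.two (nat_lit 12117344261) (nat_lit 10538188824) (.two (nat_lit 37748737) (nat_lit 166230753386) (.two (nat_lit 16777216) (nat_lit 158647452086) (.one (nat_lit 4195459) .nil)))),
   .two (nat_lit 184423546888) (nat_lit 10436476970) (.two (nat_lit 2097153) (nat_lit 3464495167) (.two (nat_lit 1048576) (nat_lit 19134415233) (.one (nat_lit 336593809) .nil))),
   .two (nat_lit 1847590920) (nat_lit 2994733069) (.two (nat_lit 47555018757) (nat_lit 1847590927) (.two (nat_lit 8388609) (nat_lit 10437525568) (.two (nat_lit 1048576) (nat_lit 1847591352) (.one (nat_lit 2097913) .nil)))),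
   .two (nat_lit 705691656) (nat_lit 156372041743) (.two (nat_lit 2097153) (nat_lit 3557818483) (.two (nat_lit 1048576) (nat_lit 8389098) (.one (nat_lit 336593809) .nil))),
   .two (nat_lit 809500680) (nat_lit 10001317902) (.two (nat_lit 47548727301) (nat_lit 1916796943) (.two (nat_lit 2097153) (nat_lit 876609650) (.two (nat_lit 16777216) (nat_lit 4194958) (.one (nat_lit 2098308) .nil)))),
   .two (nat_lit 9781116936) (nat_lit 21777874952) (.two (nat_lit 705691652) (nat_lit 157043130383) (.two (nat_lit 8388609) (nat_lit 166144770159) (.two (nat_lit 16777216) (nat_lit 135266702) (.one (nat_lit 16778210) .nil)))),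
   .two (nat_lit 16777220) (nat_lit 612368399) (.two (nat_lit 16777217) (nat_lit 612368403) (.one (nat_lit 8389606) .nil)),
   .two (nat_lit 50331656) (nat_lit 1276116998) (.two (nat_lit 1276116996) (nat_lit 50331663) (.two (nat_lit 605028353) (nat_lit 83886284) (.two (nat_lit 1048576) (nat_lit 721420380) (.one (nat_lit 16778219) .nil)))),
   .two (nat_lit 2969567242) (nat_lit 9765388298) (.two (nat_lit 176160770) (nat_lit 28086108184) (.two (nat_lit 721420293) (nat_lit 20704133139) (.two (nat_lit 8388609) (nat_lit 28101836929) (.two (nat_lit 8388608) (nat_lit 3539992850) (.one (nat_lit 16777987) .nil))))),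
   .two (nat_lit 9781116941) (nat_lit 184989777929) (.two (nat_lit 272629765) (nat_lit 9781116969) (.two (nat_lit 4194305) (nat_lit 9781117036) (.two (nat_lit 4194304) (nat_lit 1426063640) (.one (nat_lit 16778222) .nil)))),
   .two (nat_lit 620757000) (nat_lit 10370416648) (.two (nat_lit 184549380) (nat_lit 10370416655) (.two (nat_lit 16777217) (nat_lit 3558867010) (.two (nat_lit 2097152) (nat_lit 28101837071) (.one (nat_lit 2098309) .nil)))),
   .two (nat_lit 11479810054) (nat_lit 9900654606) (.two (nat_lit 184989777925) (nat_lit 713031695) (.two (nat_lit 606076929) (nat_lit 21781020791) (.two (nat_lit 8388608) (nat_lit 4194971) (.one (nat_lit 8389384) .nil)))),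
   .two (nat_lit 606076936) (nat_lit 184993972232) (.two (nat_lit 169869316) (nat_lit 183920230416) (.two (nat_lit 169869315) (nat_lit 104857615) (.two (nat_lit 2097153) (nat_lit 104857743) (.two (nat_lit 4194304) (nat_lit 8389072) (.one (nat_lit 4195312) .nil))))),
   .two (nat_lit 28691136521) (nat_lit 166132187144) (.two (nat_lit 203423749) (nat_lit 166132187151) (.two (nat_lit 2097153) (nat_lit 28693233767) (.two (nat_lit 2097152) (nat_lit 2923430057) (.one (nat_lit 4195245) .nil)))),
   .two (nat_lit 156968681480) (nat_lit 11479810054) (.two (nat_lit 11479810053) (nat_lit 156968681487) (.two (nat_lit 4194305) (nat_lit 157035790373) (.two (nat_lit 4194304) (nat_lit 1048752) (.one (nat_lit 1049734) .nil)))),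
   .two (nat_lit 654311432) (nat_lit 840957966) (.two (nat_lit 270532613) (nat_lit 654311439) (.two (nat_lit 9768534017) (nat_lit 166196150398) (.two (nat_lit 2097152) (nat_lit 16778081) (.one (nat_lit 16778375) .nil)))),
   .two (nat_lit 159224168456) (nat_lit 183845781510) (.two (nat_lit 184416206853) (nat_lit 158083317801) (.two (nat_lit 34603009) (nat_lit 20745027621) (.two (nat_lit 1048576) (nat_lit 2927624471) (.one (nat_lit 1049736) .nil)))),
   .two (nat_lit 174752530440) (nat_lit 37247516681) (.two (nat_lit 20638072837) (nat_lit 174752530447) (.two (nat_lit 2097153) (nat_lit 135266341) (.two (nat_lit 2097152) (nat_lit 11476664496) (.one (nat_lit 1049737) .nil)))),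
   .two (nat_lit 1795162120) (nat_lit 10939793423) (.two (nat_lit 174752530437) (nat_lit 10385096809) (.two (nat_lit 9765388289) (nat_lit 654312216) .nil)),
   .two (nat_lit 46409973768) (nat_lit 10336862223) (.two (nat_lit 46407876612) (nat_lit 9802088710) (.two (nat_lit 2097152) (nat_lit 4195004) (.one (nat_lit 4195466) .nil))),
   .two (nat_lit 41943048) (nat_lit 183845781519) (.two (nat_lit 184993972229) (nat_lit 11510218853) (.two (nat_lit 2097153) (nat_lit 1049172) (.two (nat_lit 2097152) (nat_lit 8389309) (.one (nat_lit 2098191) .nil)))),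
   .two (nat_lit 705691656) (nat_lit 1749024783) (.two (nat_lit 721420292) (nat_lit 168821002) (.two (nat_lit 16777216) (nat_lit 3020948151) (.one (nat_lit 1049752) .nil))),
   .two (nat_lit 272629768) (nat_lit 12114198543) (.two (nat_lit 46409973765) (nat_lit 12147753024) (.two (nat_lit 37748737) (nat_lit 185020186786) (.two (nat_lit 4194304) (nat_lit 1049278) (.one (nat_lit 1049753) .nil)))),
   .two (nat_lit 11479810056) (nat_lit 159250382873) (.two (nat_lit 1916796933) (nat_lit 3457155184) (.two (nat_lit 605028353) (nat_lit 742392072) (.two (nat_lit 1048576) (nat_lit 4601152178) (.one (nat_lit 4195468) .nil)))),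
   .two (nat_lit 2961178632) (nat_lit 639631375) (.two (nat_lit 270532613) (nat_lit 3028287551) (.two (nat_lit 2097153) (nat_lit 8388770) (.two (nat_lit 16777216) (nat_lit 1049603) .nil))),
   .two (nat_lit 176160776) (nat_lit 1277165583) (.two (nat_lit 176160772) (nat_lit 159251431489) (.two (nat_lit 606076929) (nat_lit 10007609506) (.two (nat_lit 2097152) (nat_lit 3028288176) (.one (nat_lit 8389771) .nil)))),
   .two (nat_lit 169869320) (nat_lit 9768534031) (.two (nat_lit 2097157) (nat_lit 46510637120) (.two (nat_lit 2097153) (nat_lit 272629922) (.two (nat_lit 1048576) (nat_lit 840958478) (.one (nat_lit 1049754) .nil)))),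
   .two (nat_lit 41943048) (nat_lit 183845781567) (.two (nat_lit 16777217) (nat_lit 46507491594) (.two (nat_lit 16777216) (nat_lit 46481277628) (.one (nat_lit 8389787) .nil))),
   .two (nat_lit 754974728) (nat_lit 12047089679) (.two (nat_lit 184986632197) (nat_lit 11492393222) (.two (nat_lit 1048576) (nat_lit 16777912) (.one (nat_lit 157035791370) .nil))),
   .two (nat_lit 272629768) (nat_lit 101711896) (.two (nat_lit 9765388293) (nat_lit 4634705983) (.two (nat_lit 37748737) (nat_lit 21811429538) (.two (nat_lit 8388608) (nat_lit 2953839630) .nil))),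
   .two (nat_lit 272629768) (nat_lit 101711896) (.two (nat_lit 9765388293) (nat_lit 4634705983) (.two (nat_lit 8388609) (nat_lit 184416207235) (.two (nat_lit 8388608) (nat_lit 2953839291) (.one (nat_lit 1049758) .nil)))),
   .two (nat_lit 11543773192) (nat_lit 156372041743) (.two (nat_lit 705691652) (nat_lit 4605345954) (.two (nat_lit 8388608) (nat_lit 1049458) (.one (nat_lit 10510926862) .nil))),
   .two (nat_lit 176160776) (nat_lit 21777874959) (.two (nat_lit 75497477) (nat_lit 185020186688) (.two (nat_lit 612368385) (nat_lit 21811429538) (.two (nat_lit 8388608) (nat_lit 185020187312) (.one (nat_lit 1049760) .nil)))),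
   .two (nat_lit 28758245384) (nat_lit 3531604009) (.two (nat_lit 2097157) (nat_lit 8388809) (.two (nat_lit 16777217) (nat_lit 156567077126) (.two (nat_lit 16777216) (nat_lit 2098035) (.one (nat_lit 2098337) .nil)))),
   .two (nat_lit 11543773192) (nat_lit 1178599439) (.two (nat_lit 739246085) (nat_lit 13224640577) (.two (nat_lit 37748737) (nat_lit 185020186886) (.two (nat_lit 4194304) (nat_lit 1779434167) (.one (nat_lit 269485057) .nil)))),
   .two (nat_lit 8388616) (nat_lit 606076943) (.two (nat_lit 8388612) (nat_lit 639631472) (.two (nat_lit 2097153) (nat_lit 4194694) (.two (nat_lit 2097152) (nat_lit 4195011) (.one (nat_lit 2098195) .nil)))),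
   .two (nat_lit 285212680) (nat_lit 11476664335) (.two (nat_lit 16777220) (nat_lit 705691764) (.two (nat_lit 606076929) (nat_lit 2920284531) (.two (nat_lit 16777216) (nat_lit 203424445) (.one (nat_lit 16778261) .nil)))),
   .two (nat_lit 612368392) (nat_lit 13224640536) (.two (nat_lit 176160772) (nat_lit 183949590634) (.two (nat_lit 8388609) (nat_lit 183949591207) (.one (nat_lit 205522065) .nil))),
   .two (nat_lit 9934209032) (nat_lit 46510637080) (.two (nat_lit 169869316) (nat_lit 46510637160) (.two (nat_lit 2097153) (nat_lit 4195001) (.one (nat_lit 4195478) .nil))),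
   .two (nat_lit 8388616) (nat_lit 156365750287) (.two (nat_lit 16777220) (nat_lit 41943202) (.two (nat_lit 16777216) (nat_lit 13188989454) (.one (nat_lit 8389779) .nil))),
   .two (nat_lit 8388616) (nat_lit 13187940417) (.two (nat_lit 16777217) (nat_lit 2886729991) (.two (nat_lit 16777216) (nat_lit 1049286) (.one (nat_lit 8389794) .nil))),
   .two (nat_lit 4194312) (nat_lit 156365750287) (.two (nat_lit 4194308) (nat_lit 839909441) (.two (nat_lit 2097153) (nat_lit 165528207741) (.two (nat_lit 1048576) (nat_lit 184987681446) (.one (nat_lit 1049766) .nil)))),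
   .two (nat_lit 1343225864) (nat_lit 46414168079) (.two (nat_lit 46414168068) (nat_lit 11543773248) (.two (nat_lit 156372041729) (nat_lit 1947205794) (.two (nat_lit 8388608) (nat_lit 1913651898) (.one (nat_lit 1049768) .nil)))),
   .two (nat_lit 9866051592) (nat_lit 19130220568) (.two (nat_lit 1343225861) (nat_lit 156569174122) (.two (nat_lit 605028353) (nat_lit 46510637319) (.two (nat_lit 1048576) (nat_lit 46510637849) .nil))),
   .two (nat_lit 37748744) (nat_lit 75497487) (.two (nat_lit 746586117) (nat_lit 183949590593) (.two (nat_lit 41943041) (nat_lit 809500834) (.two (nat_lit 16777216) (nat_lit 2098181) .nil))),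
   .two (nat_lit 4194312) (nat_lit 620757007) (.two (nat_lit 1291845637) (nat_lit 2923429953) (.two (nat_lit 4194305) (nat_lit 47596962189) (.two (nat_lit 1048576) (nat_lit 10003415751) (.one (nat_lit 873464837) .nil)))),
   .two (nat_lit 1178599432) (nat_lit 21811429400) (.two (nat_lit 705691652) (nat_lit 183949590635) (.two (nat_lit 34603009) (nat_lit 4634706082) (.two (nat_lit 1048576) (nat_lit 4195038) (.one (nat_lit 4195507) .nil)))),
   .two (nat_lit 2969567240) (nat_lit 10336862223) (.two (nat_lit 3458203653) (nat_lit 184549479) (.two (nat_lit 2097153) (nat_lit 16777948) (.one (nat_lit 16778420) .nil))),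
   .two (nat_lit 285212680) (nat_lit 159217877007) (.two (nat_lit 169869316) (nat_lit 285212736) (.two (nat_lit 2097153) (nat_lit 4043309443) (.two (nat_lit 2097152) (nat_lit 16778126) (.one (nat_lit 185002361866) .nil)))),
   .two (nat_lit 9768534024) (nat_lit 47548727311) (.two (nat_lit 2889875460) (nat_lit 174753579135) (.two (nat_lit 2097153) (nat_lit 4634706082) (.two (nat_lit 16777216) (nat_lit 1344275466) .nil))),
   .two (nat_lit 4194312) (nat_lit 157036838927) (.two (nat_lit 4194308) (nat_lit 174753579124) (.two (nat_lit 4194305) (nat_lit 37247517077) (.two (nat_lit 1048576) (nat_lit 47582282435) (.one (nat_lit 1049781) .nil)))),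
   .two (nat_lit 4194312) (nat_lit 157036838927) (.two (nat_lit 4194308) (nat_lit 184416206955) (.two (nat_lit 4194305) (nat_lit 19127075546) (.one (nat_lit 169870512) .nil))),
   .two (nat_lit 41943048) (nat_lit 11510218816) (.two (nat_lit 8388609) (nat_lit 11510219014) (.two (nat_lit 16777216) (nat_lit 46481277628) (.one (nat_lit 8389814) .nil))),
   .two (nat_lit 843055116) (nat_lit 157036838927) (.two (nat_lit 809500677) (nat_lit 673185897) (.two (nat_lit 37748737) (nat_lit 673186316) (.one (nat_lit 673186584) .nil))),
   .two (nat_lit 169869320) (nat_lit 157038936079) (.two (nat_lit 4194308) (nat_lit 9866051703) (.two (nat_lit 2097153) (nat_lit 20704133825) (.one (nat_lit 1049785) .nil))),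
   .two (nat_lit 169869320) (nat_lit 10338959375) (.two (nat_lit 4194308) (nat_lit 4027580544) (.two (nat_lit 2097153) (nat_lit 47547678983) (.two (nat_lit 2097152) (nat_lit 159253529286) (.one (nat_lit 1049786) .nil)))),
   .two (nat_lit 1277165576) (nat_lit 1913651215) (.two (nat_lit 705691652) (nat_lit 9934209135) (.two (nat_lit 34603009) (nat_lit 28691136776) (.two (nat_lit 1048576) (nat_lit 1277166303) (.one (nat_lit 34604042) .nil)))),
   .two (nat_lit 9802088460) (nat_lit 47563407385) (.two (nat_lit 157038936069) (nat_lit 13237223545) (.two (nat_lit 9768534017) (nat_lit 352321698) (.two (nat_lit 1048576) (nat_lit 9982444218) (.one (nat_lit 16778427) .nil)))),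
   .two (nat_lit 2902458376) (nat_lit 2418016281) (.two (nat_lit 2969567237) (nat_lit 9900654810) (.two (nat_lit 606076929) (nat_lit 19142804160) (.one (nat_lit 16778428) .nil))),
   .two (nat_lit 739246088) (nat_lit 165526110223) (.two (nat_lit 11476664324) (nat_lit 9967763521) (.two (nat_lit 606076929) (nat_lit 21811430097) (.one (nat_lit 47582282758) .nil))),
   .two (nat_lit 2954887176) (nat_lit 18933088271) (.two (nat_lit 169869316) (nat_lit 183853121599) (.two (nat_lit 606076929) (nat_lit 276824477) (.two (nat_lit 8388608) (nat_lit 2097888) (.one (nat_lit 2098366) .nil)))),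
   .two (nat_lit 713031688) (nat_lit 9866051599) (.two (nat_lit 41943045) (nat_lit 1309671554) (.two (nat_lit 41943041) (nat_lit 12147753226) (.two (nat_lit 8388608) (nat_lit 739246775) (.one (nat_lit 11610883255) .nil)))),
   .two (nat_lit 11479810056) (nat_lit 157036838927) (.two (nat_lit 11479810052) (nat_lit 4028629099) (.two (nat_lit 9768534017) (nat_lit 10907288234) (.one (nat_lit 2098373) .nil))),
   .two (nat_lit 11476664328) (nat_lit 9781116943) (.two (nat_lit 2902458372) (nat_lit 639631488) (.two (nat_lit 2097153) (nat_lit 156532474561) (.one (nat_lit 1780483249) .nil))),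
   .two (nat_lit 11492392968) (nat_lit 159251431448) (.two (nat_lit 169869316) (nat_lit 11492393065) (.two (nat_lit 9781116929) (nat_lit 19027460781) (.one (nat_lit 2098374) .nil))),
   .two (nat_lit 9866051592) (nat_lit 1916796943) (.two (nat_lit 1343225861) (nat_lit 19130220649) (.two (nat_lit 605028353) (nat_lit 1849688331) (.two (nat_lit 1048576) (nat_lit 205521630) (.one (nat_lit 4195531) .nil)))),
   .two (nat_lit 9866051592) (nat_lit 19130220568) (.two (nat_lit 1343225861) (nat_lit 156569174122) (.two (nat_lit 605028353) (nat_lit 10506732236) (.one (nat_lit 4195532) .nil))),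
   .two (nat_lit 11479810056) (nat_lit 28086108175) (.two (nat_lit 9768534021) (nat_lit 1376780353) (.two (nat_lit 37748737) (nat_lit 873464436) (.two (nat_lit 1048576) (nat_lit 9768534751) (.one (nat_lit 4195533) .nil)))),
   .two (nat_lit 2961178632) (nat_lit 20705181720) (.two (nat_lit 176160773) (nat_lit 1847591038) (.two (nat_lit 34603009) (nat_lit 1346371850) (.two (nat_lit 1048576) (nat_lit 4195259) (.one (nat_lit 4195547) .nil)))),
   .two (nat_lit 2988441612) (nat_lit 754974735) (.two (nat_lit 2954887173) (nat_lit 11492393065) (.two (nat_lit 9781116929) (nat_lit 673186316) (.one (nat_lit 158144136218) .nil))),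
   .two (nat_lit 46980399112) (nat_lit 165532401679) (.two (nat_lit 21785214981) (nat_lit 46980399168) (.two (nat_lit 156367847425) (nat_lit 1853882756) (.two (nat_lit 8388608) (nat_lit 9869198059) (.one (nat_lit 4195549) .nil)))),
   .two (nat_lit 9768534024) (nat_lit 166129041423) (.two (nat_lit 1178599429) (nat_lit 11517558897) (.two (nat_lit 34603009) (nat_lit 46510637453) (.two (nat_lit 4194304) (nat_lit 8389357) (.one (nat_lit 4195550) .nil)))),
   .two (nat_lit 809500680) (nat_lit 3525312527) (.two (nat_lit 4194308) (nat_lit 3558867051) (.two (nat_lit 4194305) (nat_lit 10538189593) .nil)),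
   .two (nat_lit 184549384) (nat_lit 28757196824) (.two (nat_lit 16777221) (nat_lit 11610882170) (.two (nat_lit 620756993) (nat_lit 21811429801) (.two (nat_lit 8388608) (nat_lit 16777966) (.one (nat_lit 16778463) .nil)))),
   .two (nat_lit 169869320) (nat_lit 47584378905) (.two (nat_lit 2097157) (nat_lit 3560964226) (.two (nat_lit 34603009) (nat_lit 272630194) (.two (nat_lit 2097152) (nat_lit 1049533) (.one (nat_lit 1049824) .nil)))),
   .two (nat_lit 9867100168) (nat_lit 117440527) (.two (nat_lit 1344274437) (nat_lit 285212785) (.two (nat_lit 16777217) (nat_lit 1948254935) (.one (nat_lit 16778465) .nil))),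
   .two (nat_lit 276824072) (nat_lit 156365750287) (.two (nat_lit 8388612) (nat_lit 13187940417) (.two (nat_lit 8388609) (nat_lit 13221495500) (.one (nat_lit 8389858) .nil))),
   .two (nat_lit 176160776) (nat_lit 20738736151) (.two (nat_lit 46414168068) (nat_lit 28791799929) (.two (nat_lit 606076929) (nat_lit 343933090) (.two (nat_lit 2097152) (nat_lit 41943730) (.one (nat_lit 35652612) .nil)))),
   .two (nat_lit 16777224) (nat_lit 10504634383) (.two (nat_lit 184549381) (nat_lit 4028629057) (.two (nat_lit 16777217) (nat_lit 4632609504) (.one (nat_lit 156969731078) .nil))),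
   .two (nat_lit 169869320) (nat_lit 183928619034) (.two (nat_lit 2097157) (nat_lit 158146232446) (.two (nat_lit 2097153) (nat_lit 185023332773) (.two (nat_lit 1048576) (nat_lit 185021235910) (.one (nat_lit 4195555) .nil)))),
   .two (nat_lit 169869320) (nat_lit 156367847439) (.two (nat_lit 270532613) (nat_lit 4601151550) (.two (nat_lit 2097153) (nat_lit 4601151650) (.two (nat_lit 1048576) (nat_lit 159217877516) (.one (nat_lit 2098207) .nil)))),
   .two (nat_lit 9934209032) (nat_lit 156367847439) (.two (nat_lit 169869316) (nat_lit 843055304) (.two (nat_lit 2097153) (nat_lit 843055783) (.one (nat_lit 4195361) .nil))),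
   .two (nat_lit 41943048) (nat_lit 19596836879) (.two (nat_lit 8388613) (nat_lit 13222543475) (.two (nat_lit 2097153) (nat_lit 28690088198) (.two (nat_lit 1048576) (nat_lit 19027460801) (.one (nat_lit 2098210) .nil)))),
   .two (nat_lit 739246088) (nat_lit 20738736152) (.two (nat_lit 11543773189) (nat_lit 1780482280) (.two (nat_lit 34603009) (nat_lit 158077026568) (.two (nat_lit 1048576) (nat_lit 174753579707) (.one (nat_lit 2098407) .nil)))),
   .two (nat_lit 10506731528) (nat_lit 2316304425) (.two (nat_lit 2889875460) (nat_lit 10503585918) (.two (nat_lit 34603009) (nat_lit 339738888) (.two (nat_lit 4194304) (nat_lit 19529728700) (.one (nat_lit 4195560) .nil)))),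
   .two (nat_lit 809500680) (nat_lit 10504634383) (.two (nat_lit 4194308) (nat_lit 10538188905) (.two (nat_lit 4194305) (nat_lit 3558867737) .nil)),
   .two (nat_lit 612368392) (nat_lit 10538188824) (.two (nat_lit 176160772) (nat_lit 166230753386) (.two (nat_lit 2097153) (nat_lit 11618222759) (.one (nat_lit 21818770465) .nil))),
   .two (nat_lit 713031688) (nat_lit 185020186665) (.two (nat_lit 41943045) (nat_lit 37313577089) (.two (nat_lit 41943041) (nat_lit 183845781768) (.two (nat_lit 8388608) (nat_lit 9866052279) (.one (nat_lit 739247131) .nil)))),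
   .two (nat_lit 2954887176) (nat_lit 12054429711) (.two (nat_lit 169869316) (nat_lit 13228834946) (.two (nat_lit 41943041) (nat_lit 166230753543) (.two (nat_lit 8388608) (nat_lit 166230753955) (.one (nat_lit 4028630032) .nil)))),
   .two (nat_lit 809500680) (nat_lit 183845781519) (.two (nat_lit 11479810053) (nat_lit 28691136725) (.two (nat_lit 9766436865) (nat_lit 272630461) (.one (nat_lit 4634706965) .nil))),
   .two (nat_lit 75497480) (nat_lit 1913651215) (.two (nat_lit 713031684) (nat_lit 1947205737) (.two (nat_lit 34603009) (nat_lit 880804633) .nil)),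
   .two (nat_lit 9948889096) (nat_lit 1779433487) (.two (nat_lit 1291845637) (nat_lit 28757196917) (.two (nat_lit 4194305) (nat_lit 1846542961) (.two (nat_lit 16777216) (nat_lit 9969861329) (.one (nat_lit 4195562) .nil)))),
   .two (nat_lit 41943048) (nat_lit 19596836879) (.two (nat_lit 41943045) (nat_lit 1745879164) (.two (nat_lit 41943041) (nat_lit 2416967842) (.two (nat_lit 1048576) (nat_lit 8389568) (.one (nat_lit 1049835) .nil)))),
   .two (nat_lit 2961178632) (nat_lit 156367847439) (.two (nat_lit 209715205) (nat_lit 157038936184) (.two (nat_lit 8388609) (nat_lit 13224640935) (.two (nat_lit 8388608) (nat_lit 47581233873) (.one (nat_lit 1049808) .nil)))),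
   .two (nat_lit 285212680) (nat_lit 156367847439) (.two (nat_lit 46409973764) (nat_lit 16777323) (.two (nat_lit 4194305) (nat_lit 16777378) (.two (nat_lit 4194304) (nat_lit 159232557790) (.one (nat_lit 16778486) .nil)))),
   .two (nat_lit 2887778312) (nat_lit 9781116943) (.two (nat_lit 34603013) (nat_lit 28705816692) (.two (nat_lit 2097153) (nat_lit 21793604051) (.two (nat_lit 1048576) (nat_lit 10519315139) (.one (nat_lit 166245434565) .nil)))),
   .two (nat_lit 8388616) (nat_lit 69206057) (.two (nat_lit 8388612) (nat_lit 605028460) (.two (nat_lit 2097153) (nat_lit 202375431) (.two (nat_lit 1048576) (nat_lit 19094569999) .nil))),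
   .two (nat_lit 156569174028) (nat_lit 13195280399) (.two (nat_lit 10506731525) (nat_lit 880803945) (.two (nat_lit 9768534017) (nat_lit 343933453) (.one (nat_lit 343933721) .nil))),
   .two (nat_lit 8388616) (nat_lit 157036838927) (.two (nat_lit 176160773) (nat_lit 46474985537) (.two (nat_lit 8388609) (nat_lit 157036839074) (.two (nat_lit 16777216) (nat_lit 184423547914) .nil))),
   .two (nat_lit 205520904) (nat_lit 11584667713) (.two (nat_lit 4194305) (nat_lit 21785215138) (.two (nat_lit 1048576) (nat_lit 166203491342) .nil)),
   .two (nat_lit 104857608) (nat_lit 11543773199) (.two (nat_lit 1782579205) (nat_lit 1309671538) (.two (nat_lit 612368385) (nat_lit 4631560606) (.two (nat_lit 8388608) (nat_lit 10436477676) (.one (nat_lit 1049848) .nil)))),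
   .two (nat_lit 8388616) (nat_lit 46409973775) (.two (nat_lit 8388612) (nat_lit 46510637119) (.two (nat_lit 8388609) (nat_lit 3460301064) (.two (nat_lit 8388608) (nat_lit 11479810743) (.one (nat_lit 47584379935) .nil)))),
   .two (nat_lit 41943048) (nat_lit 822083599) (.two (nat_lit 713031685) (nat_lit 4647288935) (.two (nat_lit 41943041) (nat_lit 889192882) (.two (nat_lit 1048576) (nat_lit 8389367) (.one (nat_lit 713032728) .nil)))),
   .two (nat_lit 2961178632) (nat_lit 10338959375) (.two (nat_lit 176160773) (nat_lit 9966714945) (.two (nat_lit 4194305) (nat_lit 4598006411) (.two (nat_lit 16777216) (nat_lit 1049563) (.one (nat_lit 21777876180) .nil)))),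
   .two (nat_lit 276824072) (nat_lit 11479810063) (.two (nat_lit 809500677) (nat_lit 10436477058) (.two (nat_lit 37748737) (nat_lit 158646403820) (.one (nat_lit 1049851) .nil))),
   .two (nat_lit 75497480) (nat_lit 12114198543) (.two (nat_lit 713031684) (nat_lit 12147753067) (.two (nat_lit 34603009) (nat_lit 880804002) (.two (nat_lit 1048576) (nat_lit 8389368) (.one (nat_lit 638583818) .nil)))),
   .two (nat_lit 159217877000) (nat_lit 156569174040) (.two (nat_lit 20638072837) (nat_lit 4634706029) (.two (nat_lit 2097153) (nat_lit 183949591210) (.one (nat_lit 2923430931) .nil))),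
   .two (nat_lit 75497480) (nat_lit 117440527) (.two (nat_lit 2889875460) (nat_lit 174692761867) (.two (nat_lit 4194304) (nat_lit 184993972937) (.one (nat_lit 3464496281) .nil))),
   .two (nat_lit 2889875464) (nat_lit 10343153709) (.two (nat_lit 272629765) (nat_lit 310378749) (.two (nat_lit 4194305) (nat_lit 21214789896) (.two (nat_lit 8388608) (nat_lit 339739324) (.one (nat_lit 4195581) .nil)))),
   .two (nat_lit 169869320) (nat_lit 9781116943) (.two (nat_lit 169869316) (nat_lit 166129041515) (.two (nat_lit 16777217) (nat_lit 12617515713) (.one (nat_lit 2098430) .nil))),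
   .two (nat_lit 713031688) (nat_lit 1795162127) (.two (nat_lit 117440517) (nat_lit 184993972331) (.two (nat_lit 620756993) (nat_lit 4605346491) (.one (nat_lit 8389888) .nil))),
   .two (nat_lit 1191182344) (nat_lit 4634705939) (.two (nat_lit 2889875461) (nat_lit 28705816613) (.two (nat_lit 2889875461) (nat_lit 11492392978) (.two (nat_lit 37748737) (nat_lit 1291845903) (.two (nat_lit 4194304) (nat_lit 16777743) (.one (nat_lit 16778497) .nil))))),
   .two (nat_lit 156466413577) (nat_lit 3028287510) (.two (nat_lit 169869314) (nat_lit 28093448300) (.two (nat_lit 1277165573) (nat_lit 1753219091) (.two (nat_lit 2097153) (nat_lit 19537068306) (.two (nat_lit 2097152) (nat_lit 8388929) (.one (nat_lit 8389894) .nil))))),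
   .two (nat_lit 158158815240) (nat_lit 2954887183) (.two (nat_lit 1291845636) (nat_lit 706740290) (.two (nat_lit 4194308) (nat_lit 874512404) (.two (nat_lit 4194305) (nat_lit 10940842075) (.two (nat_lit 4194304) (nat_lit 874512574) (.one (nat_lit 4195591) .nil))))),
   .two (nat_lit 46508539914) (nat_lit 28705816601) (.two (nat_lit 46407876610) (nat_lit 16777356) (.two (nat_lit 3525312517) (nat_lit 156380430356) (.two (nat_lit 2097153) (nat_lit 620757083) (.two (nat_lit 2097152) (nat_lit 16777751) (.one (nat_lit 16778504) .nil))))),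
   .two (nat_lit 4194312) (nat_lit 156372041743) (.two (nat_lit 4194308) (nat_lit 13228834883) (.two (nat_lit 4194308) (nat_lit 47555018820) (.two (nat_lit 156372041729) (nat_lit 806355406) (.two (nat_lit 4194304) (nat_lit 1049575) (.one (nat_lit 1049640) .nil))))),
   .two (nat_lit 620757000) (nat_lit 1277165583) (.two (nat_lit 184549380) (nat_lit 159251431489) (.two (nat_lit 16777217) (nat_lit 20738736293) (.two (nat_lit 2097152) (nat_lit 16777752) (.one (nat_lit 2098442) .nil)))),
   .two (nat_lit 183946444809) (nat_lit 28793897055) (.two (nat_lit 21207449608) (nat_lit 37249613843) (.two (nat_lit 166132187138) (nat_lit 20737687779) (.two (nat_lit 9768534019) (nat_lit 159216828485) (.two (nat_lit 9768534017) (nat_lit 1049070) (.two (nat_lit 1048576) (nat_lit 4195070) (.one (nat_lit 4195595) .nil)))))),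
   .two (nat_lit 9948889096) (nat_lit 156971827246) (.two (nat_lit 1277165573) (nat_lit 10335813697) (.two (nat_lit 606076929) (nat_lit 675283212) (.two (nat_lit 16777216) (nat_lit 2097929) (.one (nat_lit 4195600) .nil)))),
   .two (nat_lit 68157448) (nat_lit 156372041743) (.two (nat_lit 705691652) (nat_lit 41943159) (.two (nat_lit 4194305) (nat_lit 1209008518) (.two (nat_lit 4194304) (nat_lit 46514831673) (.one (nat_lit 1049873) .nil)))),
   .two (nat_lit 9934209037) (nat_lit 9781116943) (.two (nat_lit 16777218) (nat_lit 3458203767) (.two (nat_lit 9934209029) (nat_lit 285212710) (.two (nat_lit 16777217) (nat_lit 165526110491) (.two (nat_lit 4194304) (nat_lit 1210057017) (.one (nat_lit 2098450) .nil))))),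
   .two (nat_lit 176160776) (nat_lit 9802088472) (.two (nat_lit 8388613) (nat_lit 4030726183) (.two (nat_lit 8388613) (nat_lit 1212153925) (.two (nat_lit 620756993) (nat_lit 166232850704) (.two (nat_lit 16777216) (nat_lit 8389548) (.one (nat_lit 8389683) .nil))))),
   .two (nat_lit 3464495112) (nat_lit 11477712950) (.two (nat_lit 47555018759) (nat_lit 13188988977) (.two (nat_lit 159217876997) (nat_lit 13228834883) (.two (nat_lit 159217876997) (nat_lit 47555018820) (.two (nat_lit 606076929) (nat_lit 183953785294) (.two (nat_lit 2097152) (nat_lit 8389155) (.one (nat_lit 8389907) .nil)))))),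
   .two (nat_lit 159224168460) (nat_lit 11476664345) (.two (nat_lit 705691652) (nat_lit 3028287603) (.two (nat_lit 41943041) (nat_lit 101712160) (.two (nat_lit 2097152) (nat_lit 10369368376) (.one (nat_lit 1049876) .nil)))),
   .two (nat_lit 272629768) (nat_lit 10385096719) (.two (nat_lit 4194308) (nat_lit 285212884) (.two (nat_lit 50331649) (nat_lit 4194595) (.two (nat_lit 16777216) (nat_lit 4195314) (.one (nat_lit 166144771339) .nil)))),
   .two (nat_lit 2416967692) (nat_lit 9936306229) (.two (nat_lit 156367847431) (nat_lit 21811429421) (.two (nat_lit 19599982597) (nat_lit 158646403111) (.two (nat_lit 156365750275) (nat_lit 156968681586) (.two (nat_lit 156365750273) (nat_lit 37246468381) (.two (nat_lit 2097152) (nat_lit 9798943267) (.one (nat_lit 1049654) .nil)))))),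
   .two (nat_lit 37320917001) (nat_lit 166144770094) (.two (nat_lit 11559501831) (nat_lit 2349858835) (.two (nat_lit 2894069765) (nat_lit 721420396) (.two (nat_lit 8388609) (nat_lit 16777849) (.two (nat_lit 8388608) (nat_lit 16777766) (.one (nat_lit 16778517) .nil))))),
   .two (nat_lit 1914699785) (nat_lit 166132187151) (.two (nat_lit 10506731527) (nat_lit 183846830102) (.two (nat_lit 203423749) (nat_lit 28693233771) (.two (nat_lit 2097153) (nat_lit 2923430057) (.two (nat_lit 2097152) (nat_lit 4195082) (.one (nat_lit 4195597) .nil))))),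
   .two (nat_lit 11476664328) (nat_lit 1291845647) (.two (nat_lit 34603013) (nat_lit 1291845696) (.two (nat_lit 2097153) (nat_lit 20753416360) (.two (nat_lit 2097152) (nat_lit 16777767) (.one (nat_lit 16778296) .nil)))),
   .two (nat_lit 41943048) (nat_lit 1745879055) (.two (nat_lit 8388612) (nat_lit 184986632230) (.two (nat_lit 8388612) (nat_lit 4598005781) (.two (nat_lit 8388609) (nat_lit 9899606179) (.two (nat_lit 16777216) (nat_lit 11551113945) (.one (nat_lit 8389693) .nil))))),
   .two (nat_lit 8388623) (nat_lit 605028417) (.two (nat_lit 4194308) (nat_lit 1175453958) (.two (nat_lit 2097153) (nat_lit 641729037) (.two (nat_lit 2097152) (nat_lit 205521917) (.one (nat_lit 2098457) .nil)))),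
   .two (nat_lit 272629775) (nat_lit 11476664335) (.two (nat_lit 2887778312) (nat_lit 272629822) (.two (nat_lit 2887778308) (nat_lit 272629922) (.two (nat_lit 2097153) (nat_lit 9768534809) (.one (nat_lit 11543774488) .nil)))),
   .two (nat_lit 11551113231) (nat_lit 12147753023) (.two (nat_lit 169869316) (nat_lit 8388770) (.two (nat_lit 34603009) (nat_lit 10370417164) (.two (nat_lit 1048576) (nat_lit 639632152) (.one (nat_lit 2098465) .nil)))),
   .two (nat_lit 11551113231) (nat_lit 739246095) (.two (nat_lit 169869320) (nat_lit 8388670) (.two (nat_lit 169869316) (nat_lit 8388770) (.two (nat_lit 34603009) (nat_lit 10370417164) (.two (nat_lit 1048576) (nat_lit 639632152) (.one (nat_lit 21214790938) .nil))))),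
   .two (nat_lit 1350565903) (nat_lit 158176641088) (.two (nat_lit 4194308) (nat_lit 8388770) (.two (nat_lit 37748737) (nat_lit 1779433996) (.two (nat_lit 1048576) (nat_lit 9768534808) (.one (nat_lit 1279264028) .nil)))),
   .two (nat_lit 276824079) (nat_lit 9781116943) (.two (nat_lit 9781116936) (nat_lit 11476664384) (.two (nat_lit 806354949) (nat_lit 10947133704) (.two (nat_lit 2097153) (nat_lit 166129041932) (.two (nat_lit 16777216) (nat_lit 2098184) (.one (nat_lit 2098468) .nil))))),
   .two (nat_lit 4194319) (nat_lit 8388623) (.two (nat_lit 4194312) (nat_lit 8388672) (.two (nat_lit 13191086085) (nat_lit 8388870) (.two (nat_lit 4194305) (nat_lit 739246605) (.two (nat_lit 4194304) (nat_lit 739246873) (.one (nat_lit 68158754) .nil))))),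
   .two (nat_lit 612368399) (nat_lit 4601151511) (.two (nat_lit 1277165576) (nat_lit 1276117056) (.two (nat_lit 2894069765) (nat_lit 809500834) (.two (nat_lit 605028353) (nat_lit 1780482573) (.two (nat_lit 1048576) (nat_lit 9967764508) (.one (nat_lit 1049901) .nil))))),
   .two (nat_lit 37748751) (nat_lit 713031695) (.two (nat_lit 37748744) (nat_lit 41943105) (.two (nat_lit 2889875461) (nat_lit 19094569224) (.two (nat_lit 2097153) (nat_lit 9768534748) (.two (nat_lit 2097152) (nat_lit 11479810841) (.one (nat_lit 2098478) .nil))))),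
   .two (nat_lit 4194319) (nat_lit 713031695) (.two (nat_lit 713031688) (nat_lit 705691712) (.two (nat_lit 41943045) (nat_lit 20705181963) (.two (nat_lit 34603009) (nat_lit 1350566413) (.two (nat_lit 1048576) (nat_lit 183920231458) (.one (nat_lit 638584113) .nil))))),
   .two (nat_lit 754974735) (nat_lit 8388619) (.two (nat_lit 184993972232) (nat_lit 754974739) (.two (nat_lit 713031682) (nat_lit 16777487) (.two (nat_lit 9781116929) (nat_lit 2323644723) (.two (nat_lit 16777216) (nat_lit 8388798) (.one (nat_lit 8389939) .nil))))),
   .two (nat_lit 1178599432) (nat_lit 3531604101) (.two (nat_lit 11546918917) (nat_lit 880803879) (.two (nat_lit 16777216) (nat_lit 102760784) (.one (nat_lit 1948254797) .nil))),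
   .two (nat_lit 9948889103) (nat_lit 269484043) (.two (nat_lit 9948889096) (nat_lit 11476664338) (.two (nat_lit 11476664324) (nat_lit 10909384796) (.two (nat_lit 9781116929) (nat_lit 9902752062) (.two (nat_lit 4194304) (nat_lit 165540790610) (.one (nat_lit 4195638) .nil))))),
   .two (nat_lit 37748751) (nat_lit 135266349) (.two (nat_lit 169869318) (nat_lit 2316304507) (.two (nat_lit 606076936) (nat_lit 10436476965) (.two (nat_lit 1344274437) (nat_lit 21811429538) (.two (nat_lit 37748737) (nat_lit 1049321) (.two (nat_lit 4194304) (nat_lit 1049384) (.one (nat_lit 71304486) .nil)))))),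
   .two (nat_lit 8388623) (nat_lit 2887778320) (.two (nat_lit 169869320) (nat_lit 343932991) (.two (nat_lit 47555018757) (nat_lit 2954887330) (.two (nat_lit 156372041729) (nat_lit 739246604) (.two (nat_lit 1048576) (nat_lit 740295694) (.one (nat_lit 2098492) .nil))))),
   .two (nat_lit 1178599439) (nat_lit 13195280399) (.two (nat_lit 1178599432) (nat_lit 11618222117) (.two (nat_lit 1178599432) (nat_lit 847249427) (.two (nat_lit 11479810052) (nat_lit 21785215145) (.two (nat_lit 9768534021) (nat_lit 156372041821) (.two (nat_lit 37748737) (nat_lit 1753219771) (.two (nat_lit 4194304) (nat_lit 8389417) (.one (nat_lit 8389949) .nil))))))),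
   .two (nat_lit 11543773199) (nat_lit 158077026319) (.two (nat_lit 739246088) (nat_lit 21778923585) (.two (nat_lit 721420292) (nat_lit 169869574) (.two (nat_lit 620756993) (nat_lit 608174775) (.two (nat_lit 16777216) (nat_lit 2098233) (.one (nat_lit 1745879861) .nil))))),
   .two (nat_lit 21777874959) (nat_lit 19599982607) (.two (nat_lit 705691654) (nat_lit 1212153961) (.two (nat_lit 21777874952) (nat_lit 2319450149) (.two (nat_lit 705691650) (nat_lit 1212154118) (.two (nat_lit 705691652) (nat_lit 1413480625) (.two (nat_lit 34603009) (nat_lit 9802088972) (.two (nat_lit 1048576) (nat_lit 9802089240) (.one (nat_lit 156569174837) .nil))))))),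
   .two (nat_lit 11479810063) (nat_lit 10504634383) (.two (nat_lit 2887778310) (nat_lit 1212153983) (.two (nat_lit 203423752) (nat_lit 20707278932) (.two (nat_lit 28693233669) (nat_lit 10538189062) (.two (nat_lit 37748737) (nat_lit 174686470865) (.two (nat_lit 4194304) (nat_lit 2098236) (.one (nat_lit 174688568603) .nil)))))),
   .two (nat_lit 639631375) (nat_lit 1749024787) (.two (nat_lit 20652752901) (nat_lit 13188989111) (.two (nat_lit 37748737) (nat_lit 2097947) (.one (nat_lit 4195655) .nil))),
   .two (nat_lit 10343153675) (nat_lit 10370416706) (.two (nat_lit 9934209039) (nat_lit 1846542355) (.two (nat_lit 169869318) (nat_lit 713031843) (.two (nat_lit 166129041410) (nat_lit 8389170) (.two (nat_lit 184986632197) (nat_lit 1780482229) (.two (nat_lit 9765388289) (nat_lit 8389170) (.two (nat_lit 1048576) (nat_lit 2097974) (.one (nat_lit 1049928) .nil))))))),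
   .two (nat_lit 159232557071) (nat_lit 46414168082) (.two (nat_lit 166132187138) (nat_lit 16777400) (.two (nat_lit 156367847425) (nat_lit 16777405) (.one (nat_lit 4195658) .nil))),
   .two (nat_lit 11559501831) (nat_lit 12147752999) (.two (nat_lit 16777216) (nat_lit 2316304975) .nil),
   .two (nat_lit 4194312) (nat_lit 183947493416) (.two (nat_lit 16777216) (nat_lit 1049415) .nil),
   .two (nat_lit 9940500495) (nat_lit 1277165603) (.two (nat_lit 4194310) (nat_lit 41943202) (.two (nat_lit 37748744) (nat_lit 8388698) (.two (nat_lit 4194308) (nat_lit 3028287674) (.two (nat_lit 4194305) (nat_lit 639631696) (.two (nat_lit 2097152) (nat_lit 4195399) (.one (nat_lit 4195411) .nil)))))),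
   .two (nat_lit 1350565903) (nat_lit 9866051618) (.two (nat_lit 8388623) (nat_lit 12117344274) (.two (nat_lit 4194312) (nat_lit 8388697) (.two (nat_lit 713031682) (nat_lit 608174632) (.two (nat_lit 4194307) (nat_lit 166136381631) (.two (nat_lit 37748737) (nat_lit 1317012034) (.two (nat_lit 1048576) (nat_lit 4195146) (.one (nat_lit 4195664) .nil))))))),
   .two (nat_lit 2969567247) (nat_lit 35651604) (.two (nat_lit 46407876612) (nat_lit 2969567420) (.two (nat_lit 2097153) (nat_lit 16777404) (.one (nat_lit 2969568079) .nil))),
   .two (nat_lit 608174091) (nat_lit 47548727415) (.two (nat_lit 4194328) (nat_lit 2988441622) (.two (nat_lit 2887778310) (nat_lit 272629849) (.two (nat_lit 18926796805) (nat_lit 4194624) (.two (nat_lit 183861510147) (nat_lit 809500853) (.two (nat_lit 50331649) (nat_lit 9934209816) (.two (nat_lit 16777216) (nat_lit 46477083456) (.one (nat_lit 4195666) .nil))))))),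
   .two (nat_lit 157036838919) (nat_lit 679477287) (.two (nat_lit 2097152) (nat_lit 21818770000) .nil),
   .two (nat_lit 9934209031) (nat_lit 4030726183) (.two (nat_lit 2097152) (nat_lit 104858192) .nil),
   .two (nat_lit 9781116935) (nat_lit 11543773223) (.two (nat_lit 16777216) (nat_lit 1276117828) .nil),
   .two (nat_lit 21793603591) (nat_lit 10007609383) (.two (nat_lit 16777216) (nat_lit 184423547472) .nil),
   .two (nat_lit 705691666) (nat_lit 8388674) (.two (nat_lit 1048587) (nat_lit 8388771) (.two (nat_lit 4194310) (nat_lit 1175453877) (.two (nat_lit 176160770) (nat_lit 1049138) (.two (nat_lit 4601151493) (nat_lit 41943228) (.two (nat_lit 156367847425) (nat_lit 101712690) (.two (nat_lit 1048576) (nat_lit 166203491417) (.one (nat_lit 1049943) .nil))))))),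
   .two (nat_lit 645922837) (nat_lit 705691683) (.two (nat_lit 8388646) (nat_lit 705691682) (.two (nat_lit 41943051) (nat_lit 806355110) (.two (nat_lit 639631377) (nat_lit 9772728411) (.two (nat_lit 169869318) (nat_lit 4194623) (.two (nat_lit 606076936) (nat_lit 10369368245) (.two (nat_lit 8388610) (nat_lit 202375742) (.two (nat_lit 2097155) (nat_lit 9768534576) (.two (nat_lit 2097153) (nat_lit 9768534835) (.two (nat_lit 4194304) (nat_lit 1049679) (.one (nat_lit 1049947) .nil)))))))))),
   .two (nat_lit 9772728341) (nat_lit 809500711) (.two (nat_lit 8388642) (nat_lit 158075977765) (.two (nat_lit 4194319) (nat_lit 8388698) (.two (nat_lit 4194319) (nat_lit 8388697) (.two (nat_lit 4194310) (nat_lit 8388914) (.two (nat_lit 8388616) (nat_lit 68157621) (.two (nat_lit 4194306) (nat_lit 9933161022) (.two (nat_lit 37748739) (nat_lit 8389168) (.two (nat_lit 4194305) (nat_lit 8389438) (.two (nat_lit 1048576) (nat_lit 4195408) (.one (nat_lit 68158810) .nil)))))))))),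
   .two (nat_lit 620757013) (nat_lit 11551113235) (.two (nat_lit 746586117) (nat_lit 159266111678) (.one (nat_lit 8389982) .nil)),
   .two (nat_lit 109051925) (nat_lit 10001317907) (.two (nat_lit 713031685) (nat_lit 46474985661) (.one (nat_lit 4195679) .nil)),
   .two (nat_lit 713031718) (nat_lit 169869351) (.two (nat_lit 8388623) (nat_lit 169869351) (.two (nat_lit 276824079) (nat_lit 1279262814) (.two (nat_lit 11476664326) (nat_lit 9867100342) (.two (nat_lit 2097159) (nat_lit 75497778) (.two (nat_lit 270532613) (nat_lit 9768534352) (.two (nat_lit 2097155) (nat_lit 2956984894) (.two (nat_lit 34603009) (nat_lit 10370417460) (.two (nat_lit 1048576) (nat_lit 10370417742) (.one (nat_lit 1049952) .nil))))))))),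
   .two (nat_lit 184549394) (nat_lit 1048597) (.two (nat_lit 11476664322) (nat_lit 4194888) (.one (nat_lit 4195682) .nil)),
   .two (nat_lit 9936306197) (nat_lit 11559501845) (.two (nat_lit 10335813637) (nat_lit 2923430228) (.one (nat_lit 1049953) .nil)),
   .two (nat_lit 11543773246) (nat_lit 13222543382) (.two (nat_lit 1276116996) (nat_lit 21208498516) (.one (nat_lit 1049956) .nil)),
   .two (nat_lit 11479810083) (nat_lit 46508539943) (.two (nat_lit 75497487) (nat_lit 606076967) (.two (nat_lit 11543773191) (nat_lit 1344274618) (.two (nat_lit 9768534021) (nat_lit 69206355) (.two (nat_lit 2097153) (nat_lit 608174671) (.two (nat_lit 1048576) (nat_lit 10370417737) (.one (nat_lit 2098533) .nil)))))),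
   .two (nat_lit 9806282772) (nat_lit 12047089683) (.two (nat_lit 176160772) (nat_lit 156968681664) (.one (nat_lit 8389990) .nil)),
   .two (nat_lit 205520914) (nat_lit 3558867007) (.two (nat_lit 807403531) (nat_lit 272629849) (.two (nat_lit 4194310) (nat_lit 639631541) (.two (nat_lit 46407876610) (nat_lit 4194880) (.two (nat_lit 47548727301) (nat_lit 9768534204) (.two (nat_lit 156365750273) (nat_lit 272630593) (.two (nat_lit 4194304) (nat_lit 2098258) (.one (nat_lit 4195687) .nil))))))),
   .two (nat_lit 679477268) (nat_lit 168820756) (.two (nat_lit 8388612) (nat_lit 1376780476) (.one (nat_lit 1049692) .nil)),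
   .two (nat_lit 46414168082) (nat_lit 1745879059) (.two (nat_lit 28086108165) (nat_lit 11517558974) (.one (nat_lit 1049961) .nil)),
   .two (nat_lit 754974738) (nat_lit 166196150291) (.two (nat_lit 1276116994) (nat_lit 9781117116) (.one (nat_lit 16778602) .nil)),
   .two (nat_lit 169869330) (nat_lit 166132187155) (.two (nat_lit 10370416645) (nat_lit 10003415377) (.one (nat_lit 166199297365) .nil)),
   .two (nat_lit 4194312) (nat_lit 9781116943) (.two (nat_lit 37748737) (nat_lit 1846542451) (.two (nat_lit 8388608) (nat_lit 1049190) (.one (nat_lit 1049711) .nil))),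
   .two (nat_lit 9881780232) (nat_lit 1913651208) (.two (nat_lit 605028357) (nat_lit 1291845739) (.two (nat_lit 1048576) (nat_lit 3573547618) (.one (nat_lit 16778605) .nil))),
   .two (nat_lit 4194312) (nat_lit 18933088365) (.two (nat_lit 8388608) (nat_lit 806355875) .nil),
   .two (nat_lit 21777874952) (nat_lit 20705181760) (.two (nat_lit 1048576) (nat_lit 2097795) (.one (nat_lit 2098302) .nil)),
   .two (nat_lit 612368392) (nat_lit 10338959368) (.two (nat_lit 46409973764) (nat_lit 1417674861) (.two (nat_lit 8388608) (nat_lit 339739034) (.one (nat_lit 8389998) .nil))),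
   .two (nat_lit 185020186636) (nat_lit 318767113) (.two (nat_lit 1291845634) (nat_lit 183912890409) (.two (nat_lit 654311429) (nat_lit 12047089683) (.two (nat_lit 620756993) (nat_lit 10000269438) (.two (nat_lit 16777216) (nat_lit 21207449880) (.one (nat_lit 1049590) .nil))))),
   .two (nat_lit 9867100168) (nat_lit 21811429400) (.two (nat_lit 34603013) (nat_lit 12117344364) (.two (nat_lit 2097153) (nat_lit 12117344637) (.two (nat_lit 1048576) (nat_lit 4195184) (.one (nat_lit 2098544) .nil)))),
   .two (nat_lit 169869320) (nat_lit 157038936079) (.two (nat_lit 2097157) (nat_lit 19532873837) (.two (nat_lit 2097153) (nat_lit 12117344637) (.two (nat_lit 1048576) (nat_lit 4195185) (.one (nat_lit 202376559) .nil)))),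
   .two (nat_lit 612368392) (nat_lit 166130090093) (.two (nat_lit 2097153) (nat_lit 813695855) (.one (nat_lit 1049756) .nil)),
   .two (nat_lit 1779433480) (nat_lit 843055214) (.two (nat_lit 9765388289) (nat_lit 2923430571) (.one (nat_lit 1049757) .nil)),
   .two (nat_lit 8388616) (nat_lit 822083599) (.two (nat_lit 16777220) (nat_lit 8388770) (.two (nat_lit 1048576) (nat_lit 343934099) .nil)),
   .two (nat_lit 2954887176) (nat_lit 46409973784) (.two (nat_lit 203423749) (nat_lit 166132187249) (.two (nat_lit 37748737) (nat_lit 11577327878) (.two (nat_lit 1048576) (nat_lit 2097857) (.one (nat_lit 1049969) .nil)))),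
   .two (nat_lit 156569174028) (nat_lit 4605345807) (.two (nat_lit 10506731525) (nat_lit 8388725) (.two (nat_lit 156367847425) (nat_lit 343933090) (.two (nat_lit 2097152) (nat_lit 4638900917) (.one (nat_lit 8389791) .nil)))),
   .two (nat_lit 4194312) (nat_lit 3525312574) (.two (nat_lit 4194305) (nat_lit 3525312674) (.two (nat_lit 1048576) (nat_lit 203424442) (.one (nat_lit 2098546) .nil))),
   .two (nat_lit 754974728) (nat_lit 12047089679) (.two (nat_lit 11492392964) (nat_lit 873463924) (.two (nat_lit 34603009) (nat_lit 822083746) (.two (nat_lit 1048576) (nat_lit 16778100) (.one (nat_lit 157035791370) .nil)))),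
   .two (nat_lit 68157448) (nat_lit 158144135183) (.two (nat_lit 605028357) (nat_lit 158144135270) (.two (nat_lit 2097153) (nat_lit 4194695) (.two (nat_lit 2097152) (nat_lit 4195189) (.one (nat_lit 2098547) .nil)))),
   .two (nat_lit 68157448) (nat_lit 46414168079) (.two (nat_lit 46414168068) (nat_lit 12147753025) (.two (nat_lit 4194305) (nat_lit 156968681735) (.two (nat_lit 4194304) (nat_lit 1049287) (.one (nat_lit 1049763) .nil)))),
   .two (nat_lit 612368392) (nat_lit 203423759) (.two (nat_lit 176160772) (nat_lit 3558867007) (.two (nat_lit 8388609) (nat_lit 2097544) (.two (nat_lit 8388608) (nat_lit 2098269) (.one (nat_lit 8389796) .nil)))),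
   .two (nat_lit 1779433480) (nat_lit 185027526680) (.two (nat_lit 1846542341) (nat_lit 3028287754) (.two (nat_lit 1048576) (nat_lit 612369088) (.one (nat_lit 8389797) .nil))),
   .two (nat_lit 205520904) (nat_lit 4605345854) (.two (nat_lit 4194305) (nat_lit 4605345954) (.two (nat_lit 4194304) (nat_lit 28697428679) (.one (nat_lit 1049767) .nil))),
   .two (nat_lit 11007950861) (nat_lit 3028287552) (.two (nat_lit 8388609) (nat_lit 2097764) (.two (nat_lit 8388608) (nat_lit 2098274) (.one (nat_lit 13228835852) .nil))),
   .two (nat_lit 1847590925) (nat_lit 12617515032) (.two (nat_lit 184416206853) (nat_lit 19027460206) (.two (nat_lit 9765388289) (nat_lit 19027460472) (.two (nat_lit 1048576) (nat_lit 2098061) (.one (nat_lit 2098554) .nil)))),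
   .two (nat_lit 156372041736) (nat_lit 19532873836) (.two (nat_lit 4194305) (nat_lit 880804864) .nil),
   .two (nat_lit 19530776589) (nat_lit 272629775) (.two (nat_lit 2889875461) (nat_lit 10940842094) (.two (nat_lit 4194305) (nat_lit 158077026715) (.two (nat_lit 4194304) (nat_lit 2098063) (.one (nat_lit 4195707) .nil)))),
   .two (nat_lit 2954887176) (nat_lit 18933088361) (.two (nat_lit 2097153) (nat_lit 18933088780) (.one (nat_lit 8389815) .nil)),
   .two (nat_lit 37748744) (nat_lit 135266328) (.two (nat_lit 2956984325) (nat_lit 13222543482) (.two (nat_lit 9768534017) (nat_lit 874512984) (.two (nat_lit 2097152) (nat_lit 1049699) (.one (nat_lit 4195708) .nil)))),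
   .two (nat_lit 176160776) (nat_lit 174753579116) (.two (nat_lit 8388609) (nat_lit 2097765) (.two (nat_lit 8388608) (nat_lit 2098064) (.one (nat_lit 2098360) .nil))),
   .two (nat_lit 169869320) (nat_lit 9781116943) (.two (nat_lit 184986632197) (nat_lit 156533522558) (.two (nat_lit 34603009) (nat_lit 16777659) (.two (nat_lit 4194304) (nat_lit 1049489) (.one (nat_lit 1049981) .nil)))),
   .two (nat_lit 9948889096) (nat_lit 159216828511) (.two (nat_lit 739246085) (nat_lit 620757154) (.two (nat_lit 1048576) (nat_lit 16778341) (.one (nat_lit 873464843) .nil))),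
   .two (nat_lit 11479810056) (nat_lit 28086108175) (.two (nat_lit 9768534021) (nat_lit 158075977792) (.two (nat_lit 37748737) (nat_lit 1276117256) (.two (nat_lit 4194304) (nat_lit 1049702) (.one (nat_lit 1049789) .nil)))),
   .two (nat_lit 8388616) (nat_lit 1191182361) (.two (nat_lit 16777221) (nat_lit 343933090) (.two (nat_lit 16777216) (nat_lit 8389736) (.one (nat_lit 8390014) .nil))),
   .two (nat_lit 156372041736) (nat_lit 12117344302) (.two (nat_lit 11492392965) (nat_lit 2316304599) (.two (nat_lit 4194305) (nat_lit 157043130630) (.two (nat_lit 4194304) (nat_lit 8389522) (.one (nat_lit 8390015) .nil)))),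
   .two (nat_lit 4194312) (nat_lit 157036838927) (.two (nat_lit 4194308) (nat_lit 10336862329) (.two (nat_lit 4194305) (nat_lit 673186170) (.two (nat_lit 4194304) (nat_lit 2098067) (.one (nat_lit 1049791) .nil)))),
   .two (nat_lit 285212680) (nat_lit 183853121641) (.two (nat_lit 16777217) (nat_lit 18933088781) (.one (nat_lit 19134415873) .nil)),
   .two (nat_lit 169869320) (nat_lit 28093448300) (.two (nat_lit 34603009) (nat_lit 8389234) (.two (nat_lit 1048576) (nat_lit 8389825) .nil)),
   .two (nat_lit 13191086088) (nat_lit 157036838927) (.two (nat_lit 4194308) (nat_lit 174686470250) (.two (nat_lit 4194305) (nat_lit 174686470524) (.two (nat_lit 4194304) (nat_lit 2097893) (.one (nat_lit 2098560) .nil)))),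
   .two (nat_lit 41943048) (nat_lit 285212687) (.two (nat_lit 16777220) (nat_lit 13195280758) (.two (nat_lit 16777216) (nat_lit 8389827) .nil)),
   .two (nat_lit 101711880) (nat_lit 21208498199) (.two (nat_lit 101711877) (nat_lit 1746927734) (.two (nat_lit 50331649) (nat_lit 11578376718) (.one (nat_lit 1049796) .nil))),
   .two (nat_lit 159217877005) (nat_lit 19596836879) (.two (nat_lit 184986632197) (nat_lit 1847591027) (.two (nat_lit 37748737) (nat_lit 10939793813) (.two (nat_lit 4194304) (nat_lit 183912891073) (.one (nat_lit 1049985) .nil)))),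
   .two (nat_lit 50331656) (nat_lit 4605345807) (.two (nat_lit 8388612) (nat_lit 13237223864) (.two (nat_lit 8388608) (nat_lit 46489666236) (.one (nat_lit 16778627) .nil))),
   .two (nat_lit 184549384) (nat_lit 809500687) (.two (nat_lit 4194308) (nat_lit 2969567339) (.two (nat_lit 16777217) (nat_lit 46510637739) (.one (nat_lit 16778460) .nil))),
   .two (nat_lit 47548727304) (nat_lit 3464495235) (.two (nat_lit 41943041) (nat_lit 2921333130) (.two (nat_lit 8388608) (nat_lit 2098108) (.one (nat_lit 16778629) .nil))),
   .two (nat_lit 4194312) (nat_lit 156365750287) (.two (nat_lit 16777220) (nat_lit 2921333123) (.two (nat_lit 4194304) (nat_lit 46507492204) (.one (nat_lit 4195718) .nil))),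
   .two (nat_lit 3527409672) (nat_lit 612368480) (.two (nat_lit 9948889093) (nat_lit 166229705144) (.two (nat_lit 1048576) (nat_lit 4195262) (.one (nat_lit 8390023) .nil))),
   .two (nat_lit 37748744) (nat_lit 679477410) (.two (nat_lit 2097152) (nat_lit 10003415566) (.one (nat_lit 8390024) .nil)),
   .two (nat_lit 2902458376) (nat_lit 20704133144) (.two (nat_lit 705691652) (nat_lit 218103915) (.two (nat_lit 16777217) (nat_lit 156465365373) (.two (nat_lit 16777216) (nat_lit 156465365672) (.one (nat_lit 16778270) .nil)))),
   .two (nat_lit 2988441613) (nat_lit 739246199) (.two (nat_lit 4194305) (nat_lit 19596837389) (.one (nat_lit 2098569) .nil)),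
   .two (nat_lit 276824072) (nat_lit 754974827) (.two (nat_lit 50331649) (nat_lit 880804230) (.two (nat_lit 1048576) (nat_lit 822084828) .nil)),
   .two (nat_lit 11543773192) (nat_lit 13188988971) (.two (nat_lit 705691652) (nat_lit 1344274672) (.two (nat_lit 605028353) (nat_lit 2988441993) (.two (nat_lit 1048576) (nat_lit 2098293) (.one (nat_lit 1049828) .nil)))),
   .two (nat_lit 18933088264) (nat_lit 158647451672) (.two (nat_lit 21778923525) (nat_lit 18933088361) (.two (nat_lit 37748737) (nat_lit 165532402698) .nil)),
   .two (nat_lit 2316304397) (nat_lit 176160783) (.two (nat_lit 28086108165) (nat_lit 343933034) (.two (nat_lit 612368385) (nat_lit 183912891052) (.one (nat_lit 1049829) .nil))),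
   .two (nat_lit 11543773192) (nat_lit 156372041743) (.two (nat_lit 705691652) (nat_lit 46414168128) (.two (nat_lit 8388609) (nat_lit 37246468477) (.two (nat_lit 8388608) (nat_lit 10436477608) (.one (nat_lit 8389862) .nil)))),
   .two (nat_lit 705691656) (nat_lit 19599982607) (.two (nat_lit 2097157) (nat_lit 1212153964) (.two (nat_lit 2097153) (nat_lit 13224640902) (.two (nat_lit 1048576) (nat_lit 4195263) (.one (nat_lit 2098409) .nil)))),
   .two (nat_lit 75497480) (nat_lit 16777231) (.two (nat_lit 184549380) (nat_lit 20705181811) (.two (nat_lit 156365750273) (nat_lit 83886478) (.two (nat_lit 2097152) (nat_lit 8389750) (.one (nat_lit 158077027521) .nil)))),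
   .two (nat_lit 276824072) (nat_lit 156365750287) (.two (nat_lit 8388612) (nat_lit 46406828298) (.two (nat_lit 8388608) (nat_lit 12048139189) (.one (nat_lit 1049995) .nil))),
   .two (nat_lit 176160776) (nat_lit 19529728130) (.two (nat_lit 8388609) (nat_lit 158646403444) (.two (nat_lit 8388608) (nat_lit 20704133798) (.one (nat_lit 1049996) .nil))),
   .two (nat_lit 243269645) (nat_lit 117440621) (.two (nat_lit 8388609) (nat_lit 10385097228) (.one (nat_lit 184550556) .nil)),
   .two (nat_lit 41943048) (nat_lit 13187940378) (.two (nat_lit 2894069765) (nat_lit 3021996258) (.two (nat_lit 8388609) (nat_lit 2887779252) (.one (nat_lit 8389879) .nil))),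
   .two (nat_lit 158077026312) (nat_lit 28093448207) (.two (nat_lit 1782579205) (nat_lit 10907287658) (.two (nat_lit 612368385) (nat_lit 20638073229) (.two (nat_lit 8388608) (nat_lit 2098137) (.one (nat_lit 159219975352) .nil)))),
   .two (nat_lit 9866051592) (nat_lit 184419352641) (.two (nat_lit 605028353) (nat_lit 157038936758) (.one (nat_lit 46980400270) .nil)),
   .two (nat_lit 843055116) (nat_lit 28757196815) (.two (nat_lit 1343225861) (nat_lit 10942939264) (.two (nat_lit 9765388289) (nat_lit 239075749) (.two (nat_lit 16777216) (nat_lit 605029619) .nil))),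
   .two (nat_lit 1343225864) (nat_lit 1916796943) (.two (nat_lit 705691652) (nat_lit 28693233770) (.two (nat_lit 34603009) (nat_lit 4030726897) (.one (nat_lit 4195730) .nil))),
   .two (nat_lit 272629768) (nat_lit 11610882073) (.two (nat_lit 69206021) (nat_lit 158176641134) (.two (nat_lit 37748737) (nat_lit 183845781920) (.two (nat_lit 2097152) (nat_lit 1049562) (.one (nat_lit 1050003) .nil)))),
   .two (nat_lit 8388616) (nat_lit 18925748239) (.two (nat_lit 16777220) (nat_lit 1175453801) (.two (nat_lit 16777217) (nat_lit 12047090069) (.two (nat_lit 1048576) (nat_lit 176161692) (.one (nat_lit 8389881) .nil)))),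
   .two (nat_lit 2954887176) (nat_lit 20637024271) (.two (nat_lit 13187940357) (nat_lit 239075442) (.two (nat_lit 156364701697) (nat_lit 46978302339) (.two (nat_lit 2097152) (nat_lit 10369368794) (.one (nat_lit 2098426) .nil)))),
   .two (nat_lit 169869320) (nat_lit 10506731535) (.two (nat_lit 2097157) (nat_lit 3527409771) (.two (nat_lit 2097153) (nat_lit 306184622) (.two (nat_lit 1048576) (nat_lit 4195455) (.one (nat_lit 873465065) .nil)))),
   .two (nat_lit 272629768) (nat_lit 19596836879) (.two (nat_lit 2889875461) (nat_lit 37246468205) (.two (nat_lit 37748737) (nat_lit 20704133501) (.two (nat_lit 4194304) (nat_lit 705692529) (.one (nat_lit 1049852) .nil)))),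
   .two (nat_lit 705691656) (nat_lit 12624855161) (.two (nat_lit 34603009) (nat_lit 9799991748) (.two (nat_lit 1048576) (nat_lit 19027460811) (.one (nat_lit 2098580) .nil))),
   .two (nat_lit 620757000) (nat_lit 47555018767) (.two (nat_lit 176160772) (nat_lit 46992982403) (.two (nat_lit 8388608) (nat_lit 3539993276) (.one (nat_lit 2969568646) .nil))),
   .two (nat_lit 37748744) (nat_lit 20644364352) (.two (nat_lit 606076929) (nat_lit 11546919660) (.one (nat_lit 4195583) .nil)),
   .two (nat_lit 19596836872) (nat_lit 46510637121) (.two (nat_lit 37748737) (nat_lit 20704133501) (.two (nat_lit 4194304) (nat_lit 9798943847) (.one (nat_lit 11479811322) .nil))),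
   .two (nat_lit 68157448) (nat_lit 19094568985) (.two (nat_lit 270532613) (nat_lit 4634705983) (.two (nat_lit 2097153) (nat_lit 157038936493) (.two (nat_lit 1048576) (nat_lit 2098140) (.one (nat_lit 47582282947) .nil)))),
   .two (nat_lit 37748744) (nat_lit 157035790361) (.two (nat_lit 708837381) (nat_lit 135266424) (.two (nat_lit 4194305) (nat_lit 168821153) (.two (nat_lit 4194304) (nat_lit 1049728) (.one (nat_lit 3525313770) .nil)))),
   .two (nat_lit 8388616) (nat_lit 822083599) (.two (nat_lit 16777220) (nat_lit 41943202) (.two (nat_lit 2097152) (nat_lit 343934099) .nil)),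
   .two (nat_lit 813694984) (nat_lit 157038936105) (.two (nat_lit 8388612) (nat_lit 157038936172) (.two (nat_lit 9768534017) (nat_lit 645922856) (.two (nat_lit 2097152) (nat_lit 8389604) (.one (nat_lit 4195733) .nil)))),
   .two (nat_lit 11476664328) (nat_lit 10385096719) (.two (nat_lit 1291845636) (nat_lit 1276117059) (.two (nat_lit 654311429) (nat_lit 156465365060) (.two (nat_lit 620756993) (nat_lit 9933161379) (.two (nat_lit 16777216) (nat_lit 9933161379) (.one (nat_lit 1049865) .nil))))),
   .two (nat_lit 10343153676) (nat_lit 9934209039) (.two (nat_lit 169869316) (nat_lit 28093448300) (.two (nat_lit 2097153) (nat_lit 3464495274) (.two (nat_lit 2097152) (nat_lit 8389142) (.one (nat_lit 8389825) .nil)))),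
   .two (nat_lit 1291845638) (nat_lit 2954887183) (.two (nat_lit 169869320) (nat_lit 2969567243) (.two (nat_lit 1291845636) (nat_lit 20738736193) (.two (nat_lit 620756993) (nat_lit 4028629384) (.two (nat_lit 16777216) (nat_lit 203424280) (.one (nat_lit 1210057508) .nil))))),
   .two (nat_lit 21777874952) (nat_lit 813695023) (.two (nat_lit 612368389) (nat_lit 20704133236) (.two (nat_lit 612368385) (nat_lit 1175454133) (.two (nat_lit 8388608) (nat_lit 1049320) (.one (nat_lit 1049641) .nil)))),
   .two (nat_lit 10343153676) (nat_lit 236978203) (.two (nat_lit 9934209032) (nat_lit 1753219091) (.two (nat_lit 169869316) (nat_lit 28093448300) (.two (nat_lit 2097153) (nat_lit 3464495274) (.two (nat_lit 2097152) (nat_lit 8389609) (.one (nat_lit 8390041) .nil))))),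
   .two (nat_lit 2894069770) (nat_lit 16777235) (.two (nat_lit 176160770) (nat_lit 28101836929) (.two (nat_lit 721420293) (nat_lit 20704133139) (.two (nat_lit 612368385) (nat_lit 3539992850) (.two (nat_lit 8388608) (nat_lit 150995265) (.one (nat_lit 16778277) .nil))))),
   .two (nat_lit 169869318) (nat_lit 1779433487) (.two (nat_lit 2954887176) (nat_lit 11543773195) (.two (nat_lit 169869314) (nat_lit 158176641088) (.two (nat_lit 169869316) (nat_lit 638582821) (.two (nat_lit 2097153) (nat_lit 28790751397) (.two (nat_lit 2097152) (nat_lit 1048903) (.one (nat_lit 1050011) .nil)))))),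
   .two (nat_lit 1178599432) (nat_lit 156968681487) (.two (nat_lit 9768534021) (nat_lit 2316304500) (.two (nat_lit 37748737) (nat_lit 1049043) (.two (nat_lit 4194304) (nat_lit 1049585) (.one (nat_lit 8390045) .nil)))),
   .two (nat_lit 2969567240) (nat_lit 102760489) (.two (nat_lit 8388612) (nat_lit 21210595456) (.two (nat_lit 37748737) (nat_lit 3565158821) (.two (nat_lit 2097152) (nat_lit 205521430) (.one (nat_lit 8390046) .nil)))),
   .two (nat_lit 176160774) (nat_lit 156367847439) (.two (nat_lit 156367847432) (nat_lit 10343153675) (.two (nat_lit 176160770) (nat_lit 2923429995) (.two (nat_lit 176160772) (nat_lit 19532873765) (.two (nat_lit 8388609) (nat_lit 159219974308) (.two (nat_lit 8388608) (nat_lit 12050235932) (.one (nat_lit 4195381) .nil)))))),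
   .two (nat_lit 2902458376) (nat_lit 28087156790) (.two (nat_lit 4599054343) (nat_lit 654311439) (.two (nat_lit 270532613) (nat_lit 11022631024) (.two (nat_lit 9766436865) (nat_lit 174701150672) (.two (nat_lit 1048576) (nat_lit 16778227) (.one (nat_lit 16778655) .nil))))),
   .two (nat_lit 19128123401) (nat_lit 174752530447) (.two (nat_lit 37748743) (nat_lit 174752530447) (.two (nat_lit 159217876997) (nat_lit 10939793517) (.two (nat_lit 156365750273) (nat_lit 11476664787) (.two (nat_lit 4194304) (nat_lit 21811430387) (.one (nat_lit 4195744) .nil))))),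
   .two (nat_lit 205520911) (nat_lit 9934209039) (.two (nat_lit 742391816) (nat_lit 158176641125) (.two (nat_lit 806354949) (nat_lit 4634706082) (.two (nat_lit 2097153) (nat_lit 3524264462) (.two (nat_lit 2097152) (nat_lit 4195334) (.one (nat_lit 2098609) .nil))))),
   .two (nat_lit 276824079) (nat_lit 306184215) (.two (nat_lit 4194312) (nat_lit 1176502378) (.two (nat_lit 8388612) (nat_lit 1048842) (.two (nat_lit 2097153) (nat_lit 1049270) (.two (nat_lit 1048576) (nat_lit 2098318) (.one (nat_lit 1050034) .nil))))),
   .two (nat_lit 2889875471) (nat_lit 28758245391) (.two (nat_lit 10506731528) (nat_lit 158144135275) (.two (nat_lit 1847590917) (nat_lit 156569174540) (.two (nat_lit 2097152) (nat_lit 156569174808) (.one (nat_lit 19530777883) .nil)))),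
   .two (nat_lit 11492392975) (nat_lit 2316304408) (.two (nat_lit 117440520) (nat_lit 135266410) (.two (nat_lit 20637024260) (nat_lit 11492393485) (.two (nat_lit 1048576) (nat_lit 822084377) (.one (nat_lit 16778530) .nil)))),
   .two (nat_lit 1277165583) (nat_lit 46980399168) (.two (nat_lit 9934209029) (nat_lit 46980399474) (.two (nat_lit 9766436865) (nat_lit 306185209) (.one (nat_lit 4195763) .nil))),
   .two (nat_lit 1277165583) (nat_lit 10506731535) (.two (nat_lit 166132187144) (nat_lit 9934209089) (.two (nat_lit 639631365) (nat_lit 156569174382) (.two (nat_lit 9766436865) (nat_lit 156569174690) (.two (nat_lit 2097152) (nat_lit 4195471) (.one (nat_lit 2098612) .nil))))),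
   .two (nat_lit 2887778319) (nat_lit 21785215041) (.two (nat_lit 806354949) (nat_lit 184993972386) (.two (nat_lit 2097153) (nat_lit 185027527349) (.two (nat_lit 1048576) (nat_lit 185027527820) (.one (nat_lit 12047091105) .nil)))),
   .two (nat_lit 169869327) (nat_lit 28693233679) (.two (nat_lit 205520904) (nat_lit 20738736193) (.two (nat_lit 10506731525) (nat_lit 2097538) (.two (nat_lit 2097153) (nat_lit 1950352053) (.two (nat_lit 1048576) (nat_lit 270533918) .nil)))),
   .two (nat_lit 2961178639) (nat_lit 639631375) (.two (nat_lit 47555018760) (nat_lit 1048691) (.two (nat_lit 34603013) (nat_lit 343933090) (.two (nat_lit 2097153) (nat_lit 47547679246) (.two (nat_lit 2097152) (nat_lit 276825094) (.one (nat_lit 2098467) .nil))))),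
   .two (nat_lit 169869327) (nat_lit 19130220586) (.two (nat_lit 169869320) (nat_lit 3460300914) (.two (nat_lit 184989777925) (nat_lit 1048964) (.two (nat_lit 156367847425) (nat_lit 1343226381) (.two (nat_lit 1048576) (nat_lit 2098183) (.one (nat_lit 1050037) .nil))))),
   .two (nat_lit 272629775) (nat_lit 11618222195) (.two (nat_lit 4194308) (nat_lit 13228835342) (.two (nat_lit 1048576) (nat_lit 156569174808) (.one (nat_lit 343934374) .nil))),
   .two (nat_lit 169869327) (nat_lit 1916797034) (.two (nat_lit 34603013) (nat_lit 19130220918) (.two (nat_lit 2097153) (nat_lit 19130221223) (.two (nat_lit 1048576) (nat_lit 4195473) (.one (nat_lit 2887779614) .nil)))),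
   .two (nat_lit 272629775) (nat_lit 12114198543) (.two (nat_lit 37748744) (nat_lit 183845781618) (.two (nat_lit 1277165573) (nat_lit 1048965) (.two (nat_lit 37748737) (nat_lit 1049268) (.two (nat_lit 2097152) (nat_lit 1049746) (.one (nat_lit 10370418101) .nil))))),
   .two (nat_lit 8388623) (nat_lit 183845781519) (.two (nat_lit 176160776) (nat_lit 839909441) (.two (nat_lit 16777220) (nat_lit 1175454220) (.two (nat_lit 1048576) (nat_lit 8389779) (.one (nat_lit 1050038) .nil)))),
   .two (nat_lit 4194328) (nat_lit 1417674776) (.two (nat_lit 809500680) (nat_lit 10007609452) (.two (nat_lit 4194308) (nat_lit 21214789896) (.two (nat_lit 4194305) (nat_lit 8389303) (.two (nat_lit 8388608) (nat_lit 4195476) (.one (nat_lit 813696291) .nil))))),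
   .two (nat_lit 1191182351) (nat_lit 12047089679) (.two (nat_lit 12047089672) (nat_lit 156548202610) (.two (nat_lit 184986632197) (nat_lit 11492393222) (.two (nat_lit 34603009) (nat_lit 16777912) (.two (nat_lit 1048576) (nat_lit 16778249) (.one (nat_lit 1343227163) .nil))))),
   .two (nat_lit 612368399) (nat_lit 13191086242) (.two (nat_lit 8388609) (nat_lit 4195183) (.two (nat_lit 2097152) (nat_lit 4195330) (.one (nat_lit 4195767) .nil))),
   .two (nat_lit 612368399) (nat_lit 10504634383) (.two (nat_lit 47555018760) (nat_lit 10538188905) (.two (nat_lit 166130089989) (nat_lit 3028288012) (.two (nat_lit 2097152) (nat_lit 156372043036) .nil))),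
   .two (nat_lit 8388623) (nat_lit 843055208) (.two (nat_lit 8388612) (nat_lit 4634706082) (.two (nat_lit 41943041) (nat_lit 13224641200) (.two (nat_lit 8388608) (nat_lit 742392980) (.one (nat_lit 9940501792) .nil)))),
   .two (nat_lit 742391823) (nat_lit 1343225871) (.two (nat_lit 169869320) (nat_lit 46510637160) (.two (nat_lit 270532613) (nat_lit 4634706082) (.two (nat_lit 2097153) (nat_lit 4195001) (.two (nat_lit 1048576) (nat_lit 4195478) (.one (nat_lit 1049894) .nil))))),
   .two (nat_lit 183912890391) (nat_lit 19604176920) (.two (nat_lit 11543773192) (nat_lit 156976021620) (.two (nat_lit 705691652) (nat_lit 4605345954) (.two (nat_lit 34603009) (nat_lit 8389306) (.two (nat_lit 1048576) (nat_lit 8389644) (.one (nat_lit 46406829349) .nil))))),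
   .two (nat_lit 2889875471) (nat_lit 12114198635) (.two (nat_lit 166130089989) (nat_lit 185020186890) (.two (nat_lit 9768534017) (nat_lit 2098186) (.one (nat_lit 2098617) .nil))),
   .two (nat_lit 2954887183) (nat_lit 3527409679) (.two (nat_lit 2954887176) (nat_lit 46510637163) (.two (nat_lit 203423749) (nat_lit 156569174541) (.two (nat_lit 2097152) (nat_lit 156569174809) (.one (nat_lit 2098618) .nil)))),
   .two (nat_lit 37748760) (nat_lit 1048619) (.two (nat_lit 809500680) (nat_lit 269484145) (.two (nat_lit 11479810052) (nat_lit 1947205794) (.two (nat_lit 9768534017) (nat_lit 1175454393) (.two (nat_lit 4194304) (nat_lit 1049751) (.one (nat_lit 1050043) .nil))))),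
   .two (nat_lit 11543773199) (nat_lit 21785215096) (.two (nat_lit 705691652) (nat_lit 880804002) (.two (nat_lit 605028353) (nat_lit 1417675440) (.two (nat_lit 1048576) (nat_lit 8389805) (.one (nat_lit 1175455008) .nil)))),
   .two (nat_lit 8388623) (nat_lit 20753416257) (.two (nat_lit 184549380) (nat_lit 343933090) (.two (nat_lit 16777217) (nat_lit 8389516) (.two (nat_lit 16777216) (nat_lit 8389806) (.one (nat_lit 8390085) .nil)))),
   .two (nat_lit 11543773199) (nat_lit 606076953) (.two (nat_lit 272629768) (nat_lit 1847591028) (.two (nat_lit 2889875461) (nat_lit 236978568) (.two (nat_lit 9766436865) (nat_lit 183916036796) (.two (nat_lit 1048576) (nat_lit 641729539) (.one (nat_lit 4195783) .nil))))),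
   .two (nat_lit 2969567247) (nat_lit 1310720103) (.two (nat_lit 1277165573) (nat_lit 16777378) (.two (nat_lit 2097153) (nat_lit 16777948) (.two (nat_lit 2097152) (nat_lit 16778415) (.one (nat_lit 2098632) .nil)))),
   .two (nat_lit 285212687) (nat_lit 12054429711) (.two (nat_lit 4613734408) (nat_lit 183853121643) (.two (nat_lit 184993972229) (nat_lit 4647289100) (.two (nat_lit 41943041) (nat_lit 46489666245) (.two (nat_lit 1048576) (nat_lit 157043131402) (.one (nat_lit 8390089) .nil))))),
   .two (nat_lit 822083599) (nat_lit 10343153679) (.two (nat_lit 654311432) (nat_lit 3525312577) (.two (nat_lit 183861510149) (nat_lit 3464495545) (.two (nat_lit 2097153) (nat_lit 9806283276) (.two (nat_lit 2097152) (nat_lit 343933960) (.one (nat_lit 343934244) .nil))))),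
   .two (nat_lit 10504634383) (nat_lit 12117344364) (.two (nat_lit 156971827205) (nat_lit 10538189324) (.two (nat_lit 4194304) (nat_lit 10538189592) (.one (nat_lit 2098473) .nil))),
   .two (nat_lit 176160783) (nat_lit 1847590976) (.two (nat_lit 176160772) (nat_lit 1847591436) (.two (nat_lit 8388608) (nat_lit 673187102) .nil)),
   .two (nat_lit 41943055) (nat_lit 809500720) (.two (nat_lit 18925748232) (nat_lit 612368546) (.two (nat_lit 16777217) (nat_lit 158075978750) (.one (nat_lit 4195788) .nil))),
   .two (nat_lit 612368399) (nat_lit 4601151590) (.two (nat_lit 176160772) (nat_lit 10506731943) (.two (nat_lit 9765388289) (nat_lit 339739317) (.two (nat_lit 8388608) (nat_lit 4195528) (.one (nat_lit 8390097) .nil)))),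
   .two (nat_lit 11479810063) (nat_lit 28757196815) (.two (nat_lit 1916796936) (nat_lit 20704133227) (.two (nat_lit 1846542341) (nat_lit 2956984785) (.two (nat_lit 605028353) (nat_lit 10506732236) (.two (nat_lit 1048576) (nat_lit 4195529) (.one (nat_lit 166229706186) .nil))))),
   .two (nat_lit 101711887) (nat_lit 813695001) (.two (nat_lit 2961178632) (nat_lit 166230753389) (.two (nat_lit 176160772) (nat_lit 184987681235) (.two (nat_lit 2097153) (nat_lit 4638900922) (.two (nat_lit 2097152) (nat_lit 8389834) (.one (nat_lit 2098476) .nil))))),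
   .two (nat_lit 203423759) (nat_lit 166129041423) (.two (nat_lit 2887778312) (nat_lit 3028287608) (.two (nat_lit 13187940357) (nat_lit 343933090) (.two (nat_lit 156364701697) (nat_lit 270533639) (.one (nat_lit 203425223) .nil)))),
   .two (nat_lit 620757007) (nat_lit 4028629112) (.two (nat_lit 169869316) (nat_lit 16777378) (.two (nat_lit 2097153) (nat_lit 16777904) (.two (nat_lit 2097152) (nat_lit 16778265) (.one (nat_lit 4599055658) .nil)))),
   .two (nat_lit 2887778319) (nat_lit 18933088301) (.two (nat_lit 157043130376) (nat_lit 203423847) (.two (nat_lit 2097157) (nat_lit 343933090) (.two (nat_lit 34603009) (nat_lit 1182794473) (.two (nat_lit 16777216) (nat_lit 269485350) .nil)))),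
   .two (nat_lit 3525312527) (nat_lit 117440536) (.two (nat_lit 9766436872) (nat_lit 11492393024) (.two (nat_lit 2887778308) (nat_lit 28705816841) (.two (nat_lit 41943041) (nat_lit 156969730764) (.two (nat_lit 8388608) (nat_lit 9814672389) (.one (nat_lit 8390109) .nil))))),
   .two (nat_lit 8388623) (nat_lit 117440527) (.two (nat_lit 117440520) (nat_lit 8388670) (.two (nat_lit 11492392964) (nat_lit 10007609506) (.two (nat_lit 50331649) (nat_lit 11618222759) (.two (nat_lit 16777216) (nat_lit 21818770604) (.one (nat_lit 8390110) .nil))))),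
   .two (nat_lit 9934209039) (nat_lit 156367847439) (.two (nat_lit 9934209032) (nat_lit 272629963) (.two (nat_lit 2097157) (nat_lit 843055367) (.two (nat_lit 2097153) (nat_lit 843055779) (.two (nat_lit 1048576) (nat_lit 156971828240) (.one (nat_lit 1050080) .nil))))),
   .two (nat_lit 11492392975) (nat_lit 20738736193) (.two (nat_lit 11492392964) (nat_lit 10538189063) (.two (nat_lit 9781116929) (nat_lit 2098105) (.two (nat_lit 16777216) (nat_lit 2098388) (.one (nat_lit 285214157) .nil)))),
   .two (nat_lit 75497487) (nat_lit 4601151503) (.two (nat_lit 4601151496) (nat_lit 10007609450) (.two (nat_lit 158083317765) (nat_lit 4634706444) (.two (nat_lit 8388608) (nat_lit 4634706712) (.one (nat_lit 4195809) .nil)))),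
   .two (nat_lit 272629775) (nat_lit 3525312527) (.two (nat_lit 46978301960) (nat_lit 11479810113) (.two (nat_lit 2889875461) (nat_lit 2097623) (.two (nat_lit 50331649) (nat_lit 10538189488) (.two (nat_lit 16777216) (nat_lit 171967495) (.one (nat_lit 4195810) .nil))))),
   .two (nat_lit 184549391) (nat_lit 166196150393) (.two (nat_lit 16777221) (nat_lit 19529728414) (.two (nat_lit 16777217) (nat_lit 1049324) (.two (nat_lit 8388608) (nat_lit 16778456) (.one (nat_lit 16778723) .nil)))),
   .two (nat_lit 809500687) (nat_lit 10504634383) (.two (nat_lit 4194312) (nat_lit 28758245570) (.two (nat_lit 171966469) (nat_lit 10538189062) (.two (nat_lit 4194305) (nat_lit 166230753955) (.two (nat_lit 4194304) (nat_lit 9867101186) (.one (nat_lit 1050084) .nil))))),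
   .two (nat_lit 612368399) (nat_lit 3525312536) (.two (nat_lit 75497480) (nat_lit 101711993) (.two (nat_lit 270532613) (nat_lit 880804103) (.two (nat_lit 2097153) (nat_lit 880804633) (.one (nat_lit 1050085) .nil)))),
   .two (nat_lit 639631375) (nat_lit 159224168463) (.two (nat_lit 3525312520) (nat_lit 10007609449) (.two (nat_lit 46978301957) (nat_lit 10007609868) (.two (nat_lit 2097152) (nat_lit 10007610136) (.one (nat_lit 183947494852) .nil)))),
   .two (nat_lit 612368399) (nat_lit 9934209072) (.two (nat_lit 10504634376) (nat_lit 20737687672) (.two (nat_lit 34603013) (nat_lit 880804002) (.two (nat_lit 2097153) (nat_lit 47547679246) (.two (nat_lit 2097152) (nat_lit 605029387) (.one (nat_lit 2098662) .nil))))),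
   .two (nat_lit 2887778319) (nat_lit 754974827) (.two (nat_lit 1795162117) (nat_lit 156567077305) (.two (nat_lit 9765388289) (nat_lit 855639050) (.one (nat_lit 855639481) .nil))),
   .two (nat_lit 1277165583) (nat_lit 1913651215) (.two (nat_lit 1913651208) (nat_lit 159251431533) (.two (nat_lit 28690087941) (nat_lit 3558867207) (.two (nat_lit 34603009) (nat_lit 4028629715) (.two (nat_lit 1048576) (nat_lit 3558867737) (.one (nat_lit 1050087) .nil))))),
   .two (nat_lit 10370416655) (nat_lit 3464495169) (.two (nat_lit 639631365) (nat_lit 47555019122) (.two (nat_lit 606076929) (nat_lit 343933945) (.one (nat_lit 8390120) .nil))),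
   .two (nat_lit 10370416655) (nat_lit 21777874959) (.two (nat_lit 11543773192) (nat_lit 158144135232) (.two (nat_lit 739246085) (nat_lit 158144135430) (.two (nat_lit 34603009) (nat_lit 174753579729) (.two (nat_lit 1048576) (nat_lit 2098205) (.one (nat_lit 174752531739) .nil))))),
   .two (nat_lit 713031695) (nat_lit 705691695) (.two (nat_lit 2887778312) (nat_lit 47555018816) (.two (nat_lit 270532613) (nat_lit 3028287750) (.two (nat_lit 2097153) (nat_lit 183853122576) (.one (nat_lit 2098665) .nil)))),
   .two (nat_lit 8388623) (nat_lit 19029557369) (.two (nat_lit 8388612) (nat_lit 3460301326) (.two (nat_lit 16777216) (nat_lit 2927625515) .nil)),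
   .two (nat_lit 203423759) (nat_lit 18928893967) (.two (nat_lit 639631368) (nat_lit 843055169) (.two (nat_lit 2887778308) (nat_lit 3024093649) (.two (nat_lit 2097153) (nat_lit 4634706637) (.two (nat_lit 4194304) (nat_lit 47582282521) (.one (nat_lit 2098668) .nil))))),
   .two (nat_lit 176160783) (nat_lit 174752530447) (.two (nat_lit 174752530440) (nat_lit 3028287552) (.two (nat_lit 20637024260) (nat_lit 21818769675) (.two (nat_lit 605028353) (nat_lit 46984594108) (.two (nat_lit 8388608) (nat_lit 1779434508) (.one (nat_lit 8389936) .nil))))),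
   .two (nat_lit 203423759) (nat_lit 138412153) (.two (nat_lit 2887778308) (nat_lit 2923430154) (.two (nat_lit 156365750273) (nat_lit 47550825376) (.two (nat_lit 4194304) (nat_lit 2988442649) (.one (nat_lit 165528208670) .nil)))),
   .two (nat_lit 11479810063) (nat_lit 9899606040) (.two (nat_lit 12117344264) (nat_lit 1376780394) (.two (nat_lit 20637024260) (nat_lit 183949591052) (.two (nat_lit 1048576) (nat_lit 46980400417) .nil))),
   .two (nat_lit 28086108175) (nat_lit 174686470252) (.two (nat_lit 20637024260) (nat_lit 11007951372) (.two (nat_lit 1048576) (nat_lit 166230754303) (.one (nat_lit 21208499659) .nil))),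
   .two (nat_lit 2954887183) (nat_lit 12624855064) (.two (nat_lit 183853121544) (nat_lit 9967763618) (.two (nat_lit 41943041) (nat_lit 13188989630) (.two (nat_lit 8388608) (nat_lit 2098413) (.one (nat_lit 2098678) .nil)))),
   .two (nat_lit 2961178639) (nat_lit 10504634383) (.two (nat_lit 612368392) (nat_lit 156465365118) (.two (nat_lit 34603013) (nat_lit 209715628) (.two (nat_lit 2097153) (nat_lit 269484726) (.two (nat_lit 4194304) (nat_lit 10503586831) (.one (nat_lit 2098679) .nil))))),
   .two (nat_lit 2887778319) (nat_lit 20644364303) (.two (nat_lit 20644364296) (nat_lit 68157571) (.two (nat_lit 20644364292) (nat_lit 740295095) (.two (nat_lit 34603009) (nat_lit 159257723573) (.two (nat_lit 1048576) (nat_lit 706741252) (.one (nat_lit 705692958) .nil))))),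
   .two (nat_lit 9866051599) (nat_lit 641728537) (.two (nat_lit 104857608) (nat_lit 1048834) (.two (nat_lit 10335813637) (nat_lit 272630026) (.two (nat_lit 16777217) (nat_lit 2889876505) (.one (nat_lit 2894071084) .nil)))),
   .two (nat_lit 159217877007) (nat_lit 10506731544) (.two (nat_lit 705691656) (nat_lit 184419352685) (.two (nat_lit 34603013) (nat_lit 19599982976) (.two (nat_lit 2097153) (nat_lit 1212154541) (.two (nat_lit 1048576) (nat_lit 4195568) (.one (nat_lit 1050105) .nil))))),
   .two (nat_lit 176160783) (nat_lit 11544821808) (.two (nat_lit 2961178632) (nat_lit 9934209089) (.two (nat_lit 639631365) (nat_lit 183946445214) (.two (nat_lit 605028353) (nat_lit 10370417164) (.two (nat_lit 1048576) (nat_lit 156533523490) (.one (nat_lit 1049905) .nil))))),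
   .two (nat_lit 101711887) (nat_lit 184993972239) (.two (nat_lit 176160776) (nat_lit 174686470259) (.two (nat_lit 176160772) (nat_lit 9799991733) (.two (nat_lit 2097153) (nat_lit 4638900922) (.two (nat_lit 2097152) (nat_lit 2961179851) (.one (nat_lit 2098476) .nil))))),
   .two (nat_lit 8388623) (nat_lit 4028629018) (.two (nat_lit 4605345800) (nat_lit 1344274548) (.two (nat_lit 169869316) (nat_lit 343933090) (.two (nat_lit 2097153) (nat_lit 2994733765) (.two (nat_lit 2097152) (nat_lit 310379532) (.one (nat_lit 2954888488) .nil))))),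
   .two (nat_lit 10506731535) (nat_lit 19093520449) (.two (nat_lit 166132187141) (nat_lit 156465365516) (.two (nat_lit 4194304) (nat_lit 37313577991) (.one (nat_lit 1050106) .nil))),
   .two (nat_lit 4194319) (nat_lit 612368399) (.two (nat_lit 159224168456) (nat_lit 184416206962) (.two (nat_lit 9765388293) (nat_lit 156569174178) (.two (nat_lit 8388609) (nat_lit 2886730756) (.one (nat_lit 645924134) .nil)))),
   .two (nat_lit 272629775) (nat_lit 184993972239) (.two (nat_lit 4194312) (nat_lit 11618222183) (.two (nat_lit 4194308) (nat_lit 159224168838) (.two (nat_lit 41943041) (nat_lit 4030726881) (.two (nat_lit 1048576) (nat_lit 9940501514) (.one (nat_lit 37253809658) .nil))))),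
   .two (nat_lit 272629775) (nat_lit 3464495130) (.two (nat_lit 4605345800) (nat_lit 156569174178) (.two (nat_lit 4194305) (nat_lit 310379205) (.two (nat_lit 8388608) (nat_lit 156535620620) (.one (nat_lit 4195613) .nil)))),
   .two (nat_lit 9934209039) (nat_lit 19532873793) (.two (nat_lit 1277165573) (nat_lit 10506731783) (.two (nat_lit 2097153) (nat_lit 156569174697) (.two (nat_lit 2097152) (nat_lit 205521935) (.one (nat_lit 4195836) .nil)))),
   .two (nat_lit 2889875471) (nat_lit 157036839024) (.two (nat_lit 2887778308) (nat_lit 46409974147) (.two (nat_lit 2097153) (nat_lit 2956985351) (.one (nat_lit 1344275757) .nil))),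
   .two (nat_lit 1350565912) (nat_lit 1344274475) (.two (nat_lit 4605345800) (nat_lit 1344274548) (.two (nat_lit 169869316) (nat_lit 343933090) (.two (nat_lit 612368385) (nat_lit 2887779016) (.two (nat_lit 2097152) (nat_lit 310379532) (.one (nat_lit 8389938) .nil))))),
   .two (nat_lit 8388623) (nat_lit 184419352601) (.two (nat_lit 13195280392) (nat_lit 272629822) (.two (nat_lit 4194308) (nat_lit 880804002) (.two (nat_lit 4194305) (nat_lit 9940501220) (.two (nat_lit 4194304) (nat_lit 847250444) (.one (nat_lit 809501992) .nil))))),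
   .two (nat_lit 2889875471) (nat_lit 3464495130) (.two (nat_lit 4605345800) (nat_lit 272629825) (.two (nat_lit 4605345797) (nat_lit 156569174284) (.two (nat_lit 4194305) (nat_lit 176161458) (.two (nat_lit 4194304) (nat_lit 8389876) (.one (nat_lit 3024094511) .nil))))),
   .two (nat_lit 2954887183) (nat_lit 12054429711) (.two (nat_lit 606076936) (nat_lit 183853121641) (.two (nat_lit 183853121540) (nat_lit 9934209292) (.two (nat_lit 37748737) (nat_lit 21208499226) (.one (nat_lit 3458204971) .nil)))),
   .two (nat_lit 183853121551) (nat_lit 35651634) (.two (nat_lit 705691656) (nat_lit 12624855161) (.two (nat_lit 705691652) (nat_lit 166130090246) (.two (nat_lit 605028353) (nat_lit 19537069067) (.one (nat_lit 11006903589) .nil)))),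
   .two (nat_lit 159224168463) (nat_lit 10437525568) (.two (nat_lit 174753579013) (nat_lit 158183981527) (.two (nat_lit 9765388289) (nat_lit 10437526028) (.two (nat_lit 1048576) (nat_lit 2098212) (.one (nat_lit 2098685) .nil)))),
   .two (nat_lit 9781116943) (nat_lit 46980399123) (.two (nat_lit 9781116936) (nat_lit 46980399123) (.two (nat_lit 3527409669) (nat_lit 620757083) (.two (nat_lit 4194305) (nat_lit 156380430519) (.two (nat_lit 2097152) (nat_lit 4194885) (.one (nat_lit 4195640) .nil))))),
   .two (nat_lit 272629775) (nat_lit 754974735) (.two (nat_lit 272629768) (nat_lit 16777347) (.two (nat_lit 11492392964) (nat_lit 156569174189) (.two (nat_lit 2889875459) (nat_lit 158077026715) (.two (nat_lit 4194305) (nat_lit 1176503201) (.two (nat_lit 4194304) (nat_lit 2098222) (.one (nat_lit 2098699) .nil)))))),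
   .two (nat_lit 9934209039) (nat_lit 10506731535) (.two (nat_lit 28693233674) (nat_lit 2317353082) (.two (nat_lit 169869320) (nat_lit 19130220581) (.two (nat_lit 2097157) (nat_lit 156569174278) (.two (nat_lit 2097153) (nat_lit 339739311) (.two (nat_lit 1048576) (nat_lit 156971828008) (.one (nat_lit 46406828863) .nil)))))),
   .two (nat_lit 13195280403) (nat_lit 10506731535) (.two (nat_lit 138412041) (nat_lit 158083317889) (.two (nat_lit 10506731528) (nat_lit 4605345811) (.two (nat_lit 2889875458) (nat_lit 8388897) (.two (nat_lit 183853121539) (nat_lit 11010048093) (.two (nat_lit 4194305) (nat_lit 47555019063) (.two (nat_lit 4194304) (nat_lit 8389419) (.one (nat_lit 8390156) .nil))))))),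
   .two (nat_lit 13195280399) (nat_lit 1745879055) (.two (nat_lit 13195280392) (nat_lit 37246468133) (.two (nat_lit 13195280392) (nat_lit 1745879059) (.two (nat_lit 183853121541) (nat_lit 4598005924) (.two (nat_lit 8388612) (nat_lit 1376780381) (.two (nat_lit 8388609) (nat_lit 10000269853) (.two (nat_lit 8388608) (nat_lit 21777876297) (.one (nat_lit 13221496322) .nil))))))),
   .two (nat_lit 50331663) (nat_lit 4605345807) (.two (nat_lit 50331656) (nat_lit 4605345826) (.two (nat_lit 4605345800) (nat_lit 889192467) (.two (nat_lit 8388612) (nat_lit 9948889182) (.two (nat_lit 8388612) (nat_lit 620757085) (.two (nat_lit 37748737) (nat_lit 46489666236) (.two (nat_lit 4194304) (nat_lit 16778287) (.one (nat_lit 16778558) .nil))))))),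
   .two (nat_lit 2420113427) (nat_lit 21207449615) (.two (nat_lit 156566028297) (nat_lit 46510637185) (.two (nat_lit 21207449608) (nat_lit 19599982611) (.two (nat_lit 12117344261) (nat_lit 174752530597) (.two (nat_lit 11479810051) (nat_lit 10939793500) (.two (nat_lit 37748737) (nat_lit 1049120) (.two (nat_lit 1048576) (nat_lit 4195116) (.one (nat_lit 1049919) .nil))))))),
   .two (nat_lit 272629775) (nat_lit 654311439) (.two (nat_lit 4194312) (nat_lit 156581757052) (.two (nat_lit 4194308) (nat_lit 855638056) (.two (nat_lit 13191086085) (nat_lit 4027580586) (.two (nat_lit 156364701697) (nat_lit 16778147) (.two (nat_lit 1048576) (nat_lit 16778511) (.one (nat_lit 4195855) .nil)))))),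
   .two (nat_lit 4194319) (nat_lit 41943202) (.two (nat_lit 4194308) (nat_lit 1175454220) (.two (nat_lit 2097153) (nat_lit 9768534808) (.two (nat_lit 1048576) (nat_lit 1277166872) (.one (nat_lit 11543774738) .nil)))),
   .two (nat_lit 4194319) (nat_lit 10007609506) (.two (nat_lit 20644364293) (nat_lit 11543773709) (.two (nat_lit 4194305) (nat_lit 41943833) (.two (nat_lit 1048576) (nat_lit 4195613) (.one (nat_lit 742393364) .nil)))),
   .two (nat_lit 8388623) (nat_lit 158144135298) (.two (nat_lit 813694984) (nat_lit 4634706082) (.two (nat_lit 169869316) (nat_lit 13191086606) (.two (nat_lit 2097153) (nat_lit 9768534808) (.two (nat_lit 2097152) (nat_lit 8389928) (.one (nat_lit 4195859) .nil))))),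
   .two (nat_lit 75497487) (nat_lit 754974739) (.two (nat_lit 11492392962) (nat_lit 8388915) (.two (nat_lit 50331649) (nat_lit 8388946) (.one (nat_lit 8389961) .nil))),
   .two (nat_lit 8388623) (nat_lit 10906238995) (.two (nat_lit 3472883717) (nat_lit 8388789) (.two (nat_lit 16777217) (nat_lit 101712060) (.one (nat_lit 1050140) .nil))),
   .two (nat_lit 9934209035) (nat_lit 8388645) (.two (nat_lit 8388623) (nat_lit 46407876627) (.two (nat_lit 705691654) (nat_lit 612368547) (.two (nat_lit 166130089986) (nat_lit 1779433778) (.two (nat_lit 21777874949) (nat_lit 9766437045) (.two (nat_lit 156364701697) (nat_lit 9772728882) (.two (nat_lit 1048576) (nat_lit 8389432) (.one (nat_lit 2098507) .nil))))))),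
   .two (nat_lit 1291845647) (nat_lit 9866051620) (.two (nat_lit 11476664328) (nat_lit 1317011495) (.two (nat_lit 11476664328) (nat_lit 4034920617) (.two (nat_lit 806354949) (nat_lit 10913579190) (.two (nat_lit 2097153) (nat_lit 10913579344) (.two (nat_lit 1048576) (nat_lit 16778047) (.one (nat_lit 8390173) .nil)))))),
   .two (nat_lit 156466413587) (nat_lit 12163481719) (.two (nat_lit 285212687) (nat_lit 1849688083) (.two (nat_lit 71303177) (nat_lit 156984410203) (.two (nat_lit 158150426629) (nat_lit 13237223732) (.two (nat_lit 9766436867) (nat_lit 157043130549) (.two (nat_lit 9766436865) (nat_lit 8389183) (.two (nat_lit 2097152) (nat_lit 8389440) (.one (nat_lit 2098509) .nil))))))),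
   .two (nat_lit 742391816) (nat_lit 654311463) (.two (nat_lit 2097152) (nat_lit 4195138) .nil),
   .two (nat_lit 47555018767) (nat_lit 3558867051) (.two (nat_lit 2921332746) (nat_lit 10007609383) (.two (nat_lit 47555018760) (nat_lit 9967763625) (.two (nat_lit 46978301957) (nat_lit 3028288012) (.two (nat_lit 2097153) (nat_lit 343933720) (.two (nat_lit 2097152) (nat_lit 183853122858) (.one (nat_lit 2098513) .nil)))))),
   .two (nat_lit 1291845647) (nat_lit 10907287658) (.two (nat_lit 46407876614) (nat_lit 9881780486) (.two (nat_lit 1291845640) (nat_lit 13222543537) (.two (nat_lit 46407876612) (nat_lit 9881780748) (.two (nat_lit 2097153) (nat_lit 1358955288) (.two (nat_lit 2097152) (nat_lit 822084897) (.one (nat_lit 11559502921) .nil)))))),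
   .two (nat_lit 2902458386) (nat_lit 3558866962) (.two (nat_lit 218103813) (nat_lit 183913939134) (.one (nat_lit 2098524) .nil)),
   .two (nat_lit 203423808) (nat_lit 11513364498) (.two (nat_lit 75497477) (nat_lit 10336862546) (.one (nat_lit 4195677) .nil)),
   .two (nat_lit 1191182355) (nat_lit 269484053) (.two (nat_lit 9781116933) (nat_lit 1947205820) (.one (nat_lit 2098727) .nil)),
   .two (nat_lit 9948889109) (nat_lit 608174100) (.two (nat_lit 46409973764) (nat_lit 9781117116) (.one (nat_lit 9982444633) .nil)),
   .two (nat_lit 645922837) (nat_lit 9799991315) (.two (nat_lit 10370416645) (nat_lit 10510926162) (.one (nat_lit 16778797) .nil)),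
   .two (nat_lit 1048597) (nat_lit 3558866966) (.two (nat_lit 169869316) (nat_lit 68157629) (.one (nat_lit 2098735) .nil)),
   .two (nat_lit 11618222098) (nat_lit 9899606034) (.two (nat_lit 20637024260) (nat_lit 1920991569) (.one (nat_lit 1050160) .nil)),
   .two (nat_lit 2954887203) (nat_lit 166229704743) (.two (nat_lit 3527409671) (nat_lit 10370417206) (.two (nat_lit 8388611) (nat_lit 9765388879) (.two (nat_lit 8388608) (nat_lit 9902753112) (.one (nat_lit 1050165) .nil)))),
   .two (nat_lit 713031715) (nat_lit 11610882087) (.two (nat_lit 2887778312) (nat_lit 11513364819) (.two (nat_lit 34603013) (nat_lit 209715543) (.two (nat_lit 4194304) (nat_lit 159216829785) (.one (nat_lit 1779434859) .nil)))),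
   .two (nat_lit 8388616) (nat_lit 754974735) (.two (nat_lit 721420293) (nat_lit 880804002) (.two (nat_lit 16777216) (nat_lit 8389343) (.one (nat_lit 41944240) .nil))),
   .two (nat_lit 37748744) (nat_lit 11559502089) (.two (nat_lit 4194304) (nat_lit 2098276) (.one (nat_lit 2098753) .nil)),
   .two (nat_lit 739246088) (nat_lit 174753579023) (.two (nat_lit 11476664324) (nat_lit 10940842093) (.two (nat_lit 9765388289) (nat_lit 174686470525) (.two (nat_lit 1048576) (nat_lit 2098279) (.one (nat_lit 2098754) .nil)))),
   .two (nat_lit 21785214989) (nat_lit 166197198959) (.two (nat_lit 612368385) (nat_lit 11007951113) (.two (nat_lit 1048576) (nat_lit 185021236105) (.one (nat_lit 2098570) .nil))),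
   .two (nat_lit 4194312) (nat_lit 1847590927) (.two (nat_lit 171966469) (nat_lit 20638073079) (.two (nat_lit 34603009) (nat_lit 1344274870) (.two (nat_lit 8388608) (nat_lit 4195265) (.one (nat_lit 4195908) .nil)))),
   .two (nat_lit 713031688) (nat_lit 184431935531) (.two (nat_lit 184549380) (nat_lit 880804633) .nil),
   .two (nat_lit 4601151496) (nat_lit 1913651215) (.two (nat_lit 46409973765) (nat_lit 156465365101) (.two (nat_lit 37748737) (nat_lit 11510219920) .nil)),
   .two (nat_lit 158143086605) (nat_lit 13188988974) (.two (nat_lit 159216828421) (nat_lit 28758245511) (.two (nat_lit 171966467) (nat_lit 18926796938) (.two (nat_lit 605028353) (nat_lit 2098014) (.two (nat_lit 1048576) (nat_lit 2098152) (.one (nat_lit 1050008) .nil))))),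
   .two (nat_lit 50331656) (nat_lit 2953838603) (.two (nat_lit 1276116996) (nat_lit 83886284) (.two (nat_lit 605028353) (nat_lit 1358954767) (.two (nat_lit 1048576) (nat_lit 46422557203) (.one (nat_lit 16778508) .nil)))),
   .two (nat_lit 203423752) (nat_lit 157038936079) (.two (nat_lit 2887778308) (nat_lit 10540286019) (.two (nat_lit 2954887173) (nat_lit 306184260) (.two (nat_lit 2097153) (nat_lit 166132187309) (.two (nat_lit 8388608) (nat_lit 21210596330) (.one (nat_lit 4195910) .nil))))),
   .two (nat_lit 3458203663) (nat_lit 19532873834) (.two (nat_lit 46978301957) (nat_lit 9802088972) (.two (nat_lit 2097152) (nat_lit 13224641539) (.one (nat_lit 4195919) .nil))),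
   .two (nat_lit 3458203663) (nat_lit 19532873834) (.two (nat_lit 46407876612) (nat_lit 9802088972) (.two (nat_lit 2097152) (nat_lit 4195755) .nil)),
   .two (nat_lit 8388623) (nat_lit 12117344360) (.two (nat_lit 4194308) (nat_lit 10007610136) (.one (nat_lit 4195913) .nil)),
   .two (nat_lit 8388623) (nat_lit 19599982700) (.two (nat_lit 8388612) (nat_lit 1916797309) (.two (nat_lit 8388609) (nat_lit 4195181) (.two (nat_lit 8388608) (nat_lit 4195472) (.one (nat_lit 4195915) .nil)))),
   .two (nat_lit 184549391) (nat_lit 158144135233) (.two (nat_lit 16777221) (nat_lit 21208498438) (.two (nat_lit 156365750273) (nat_lit 16778094) (.two (nat_lit 1048576) (nat_lit 11611931649) (.one (nat_lit 16778832) .nil)))),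
   .two (nat_lit 620757007) (nat_lit 19530776685) (.two (nat_lit 184549380) (nat_lit 2097539) (.two (nat_lit 9781116929) (nat_lit 1745879565) (.two (nat_lit 1048576) (nat_lit 304088486) .nil))),
   .two (nat_lit 2954887183) (nat_lit 156968681496) (.two (nat_lit 19529728008) (nat_lit 2097268) (.two (nat_lit 166130089989) (nat_lit 166129041672) (.two (nat_lit 16777217) (nat_lit 28757197487) (.two (nat_lit 16777216) (nat_lit 2098186) (.one (nat_lit 2098769) .nil))))),
   .two (nat_lit 11551113231) (nat_lit 101711887) (.two (nat_lit 46407876616) (nat_lit 10007609506) (.two (nat_lit 606076929) (nat_lit 4598006286) (.two (nat_lit 1048576) (nat_lit 2098187) (.one (nat_lit 1050194) .nil)))),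
   .two (nat_lit 8388623) (nat_lit 156365750287) (.two (nat_lit 176160776) (nat_lit 46978302067) (.two (nat_lit 16777220) (nat_lit 343933090) (.two (nat_lit 16777217) (nat_lit 13188989454) (.two (nat_lit 16777216) (nat_lit 2098325) (.one (nat_lit 2098763) .nil))))),
   .two (nat_lit 721420303) (nat_lit 174752530447) (.two (nat_lit 166129041416) (nat_lit 11626610752) (.two (nat_lit 1343225861) (nat_lit 16777378) (.two (nat_lit 8388609) (nat_lit 21811430408) (.one (nat_lit 1049893) .nil)))),
   .two (nat_lit 612368399) (nat_lit 2097177) (.two (nat_lit 9940500488) (nat_lit 3558867008) (.two (nat_lit 10506731525) (nat_lit 3458204035) (.two (nat_lit 2097153) (nat_lit 4638900917) (.two (nat_lit 4194304) (nat_lit 69207039) (.one (nat_lit 2098771) .nil))))),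
   .two (nat_lit 612368399) (nat_lit 10504634383) (.two (nat_lit 639631368) (nat_lit 183853121907) (.two (nat_lit 2097153) (nat_lit 880804857) (.one (nat_lit 8390072) .nil))),
   .two (nat_lit 2954887183) (nat_lit 183853121639) (.two (nat_lit 169869316) (nat_lit 13195280546) (.two (nat_lit 37748737) (nat_lit 28691137546) (.one (nat_lit 2098772) .nil))),
   .two (nat_lit 8388623) (nat_lit 156365750287) (.two (nat_lit 176160776) (nat_lit 46407876809) (.two (nat_lit 16777220) (nat_lit 41943202) (.two (nat_lit 2097153) (nat_lit 343934099) (.one (nat_lit 8390222) .nil)))),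
   .two (nat_lit 1178599439) (nat_lit 4605345807) (.two (nat_lit 12117344264) (nat_lit 343933033) (.two (nat_lit 184419352581) (nat_lit 8389048) (.two (nat_lit 37748737) (nat_lit 10343154363) (.two (nat_lit 4194304) (nat_lit 880805028) (.one (nat_lit 8390234) .nil))))),
   .two (nat_lit 8388623) (nat_lit 855638146) (.two (nat_lit 822083589) (nat_lit 880804002) (.two (nat_lit 9781116929) (nat_lit 75498667) (.one (nat_lit 83887705) .nil))),
   .two (nat_lit 8388623) (nat_lit 47550824491) (.two (nat_lit 12117344264) (nat_lit 12121538676) (.two (nat_lit 184419352581) (nat_lit 3565158787) (.two (nat_lit 37748737) (nat_lit 8389803) (.one (nat_lit 4195931) .nil)))),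
   .two (nat_lit 8388623) (nat_lit 10385096719) (.two (nat_lit 713031688) (nat_lit 174768259184) (.two (nat_lit 654311429) (nat_lit 41943202) (.two (nat_lit 620756993) (nat_lit 3028288162) (.two (nat_lit 2097152) (nat_lit 159257723906) (.one (nat_lit 8390086) .nil))))),
   .two (nat_lit 50331663) (nat_lit 184417255467) (.two (nat_lit 2954887176) (nat_lit 285212736) (.two (nat_lit 169869316) (nat_lit 16777657) (.two (nat_lit 16777217) (nat_lit 10538189499) (.two (nat_lit 2097152) (nat_lit 16778615) (.one (nat_lit 16778698) .nil))))),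
   .two (nat_lit 9768534031) (nat_lit 3458203713) (.two (nat_lit 2889875460) (nat_lit 47582282169) (.two (nat_lit 16777217) (nat_lit 1344275466) (.one (nat_lit 2098782) .nil))),
   .two (nat_lit 1277165583) (nat_lit 4631560304) (.two (nat_lit 1277165572) (nat_lit 873464195) (.two (nat_lit 9781116929) (nat_lit 9933161471) (.one (nat_lit 1050059) .nil))),
   .two (nat_lit 8388623) (nat_lit 218103823) (.two (nat_lit 41943048) (nat_lit 754974933) (.two (nat_lit 41943045) (nat_lit 11006902658) (.two (nat_lit 41943041) (nat_lit 2987393929) (.two (nat_lit 1048576) (nat_lit 8389808) (.one (nat_lit 1050207) .nil))))),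
   .two (nat_lit 176160783) (nat_lit 174753579116) (.two (nat_lit 176160772) (nat_lit 19027460479) (.two (nat_lit 8388609) (nat_lit 2097885) (.two (nat_lit 8388608) (nat_lit 2098353) (.one (nat_lit 2098865) .nil)))),
   .two (nat_lit 754974735) (nat_lit 28757196815) (.two (nat_lit 28757196808) (nat_lit 754974784) (.two (nat_lit 1276116996) (nat_lit 117441036) (.two (nat_lit 1048576) (nat_lit 50332958) .nil))),
   .two (nat_lit 754974735) (nat_lit 3525312527) (.two (nat_lit 606076936) (nat_lit 11492393024) (.two (nat_lit 9934209029) (nat_lit 185002361099) (.two (nat_lit 37748737) (nat_lit 2350908081) (.two (nat_lit 4194304) (nat_lit 2098553) (.one (nat_lit 2098784) .nil))))),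
   .two (nat_lit 11492392975) (nat_lit 168820779) (.two (nat_lit 117440520) (nat_lit 1913651265) (.two (nat_lit 1913651205) (nat_lit 16777658) (.two (nat_lit 9765388289) (nat_lit 183962174148) (.two (nat_lit 1048576) (nat_lit 16778418) (.one (nat_lit 1050210) .nil))))),
   .two (nat_lit 50331663) (nat_lit 11618222342) (.two (nat_lit 16777217) (nat_lit 8389813) (.one (nat_lit 8390244) .nil)),
   .two (nat_lit 11543773199) (nat_lit 12054429711) (.two (nat_lit 1343225864) (nat_lit 1417674956) (.two (nat_lit 705691652) (nat_lit 880804102) (.two (nat_lit 34603009) (nat_lit 8389542) (.two (nat_lit 1048576) (nat_lit 8389826) (.one (nat_lit 8390246) .nil))))),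
   .two (nat_lit 41943055) (nat_lit 285212736) (.two (nat_lit 16777220) (nat_lit 13195280758) (.two (nat_lit 50331649) (nat_lit 276824783) (.two (nat_lit 16777216) (nat_lit 8389827) (.one (nat_lit 8390247) .nil)))),
   .two (nat_lit 2969567247) (nat_lit 10504634409) (.two (nat_lit 159232557064) (nat_lit 10504634476) (.two (nat_lit 4605345797) (nat_lit 620757419) (.two (nat_lit 156367847425) (nat_lit 176161816) (.one (nat_lit 2098792) .nil)))),
   .two (nat_lit 739246095) (nat_lit 21785214991) (.two (nat_lit 12114198536) (nat_lit 158653743234) (.two (nat_lit 11543773189) (nat_lit 1417675014) (.two (nat_lit 34603009) (nat_lit 8389354) (.two (nat_lit 16777216) (nat_lit 806356432) .nil)))),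
   .two (nat_lit 203423759) (nat_lit 157043130383) (.two (nat_lit 47555018760) (nat_lit 47582281793) (.two (nat_lit 2902458372) (nat_lit 639631884) (.two (nat_lit 16777216) (nat_lit 169870636) .nil))),
   .two (nat_lit 9768534031) (nat_lit 3458203713) (.two (nat_lit 2889875460) (nat_lit 47582282169) (.two (nat_lit 2097153) (nat_lit 11479810956) (.two (nat_lit 8388608) (nat_lit 1344275466) (.one (nat_lit 2098642) .nil)))),
   .two (nat_lit 159224168463) (nat_lit 156533522540) (.two (nat_lit 157036838917) (nat_lit 10007609868) (.two (nat_lit 2097152) (nat_lit 10007610136) (.one (nat_lit 8390111) .nil))),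
   .two (nat_lit 16777231) (nat_lit 183946444864) (.two (nat_lit 8388612) (nat_lit 156365750797) (.two (nat_lit 8388608) (nat_lit 50332867) (.one (nat_lit 16778863) .nil))),
   .two (nat_lit 813694991) (nat_lit 1929379970) (.two (nat_lit 8388612) (nat_lit 28806480279) (.two (nat_lit 2097153) (nat_lit 13228835713) (.two (nat_lit 8388608) (nat_lit 16778449) (.one (nat_lit 2098800) .nil)))),
   .two (nat_lit 4194319) (nat_lit 1948254255) (.two (nat_lit 809500680) (nat_lit 11510218816) (.two (nat_lit 16777220) (nat_lit 37748998) (.two (nat_lit 4194305) (nat_lit 1410335657) (.two (nat_lit 16777216) (nat_lit 1049810) (.one (nat_lit 4195953) .nil))))),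
   .two (nat_lit 8388623) (nat_lit 773849287) (.two (nat_lit 176160772) (nat_lit 9967763855) (.two (nat_lit 50331649) (nat_lit 47548727822) (.two (nat_lit 16777216) (nat_lit 2098387) (.one (nat_lit 16778866) .nil)))),
   .two (nat_lit 2887778319) (nat_lit 19604177010) (.two (nat_lit 270532613) (nat_lit 10007609710) (.two (nat_lit 2097153) (nat_lit 10007610018) (.two (nat_lit 1048576) (nat_lit 8389845) (.one (nat_lit 705692958) .nil)))),
   .two (nat_lit 156569174040) (nat_lit 2349858858) (.two (nat_lit 10506731528) (nat_lit 2349858926) (.two (nat_lit 156968681477) (nat_lit 10506732045) (.two (nat_lit 1048576) (nat_lit 4195543) (.one (nat_lit 4195956) .nil)))),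
   .two (nat_lit 8388623) (nat_lit 1358954511) (.two (nat_lit 1358954504) (nat_lit 8388670) (.two (nat_lit 721420292) (nat_lit 10007609506) (.two (nat_lit 50331649) (nat_lit 713032874) (.one (nat_lit 8390261) .nil)))),
   .two (nat_lit 1277165583) (nat_lit 13187940447) (.two (nat_lit 1343225864) (nat_lit 706740458) (.two (nat_lit 639631365) (nat_lit 20737687819) (.two (nat_lit 34603009) (nat_lit 270533536) (.two (nat_lit 1048576) (nat_lit 2098564) (.one (nat_lit 269485515) .nil))))),
   .two (nat_lit 9768534031) (nat_lit 159217877007) (.two (nat_lit 9934209032) (nat_lit 2923429992) (.two (nat_lit 1277165573) (nat_lit 11614028241) (.two (nat_lit 2097153) (nat_lit 4634706599) (.two (nat_lit 2097152) (nat_lit 4195546) (.one (nat_lit 4195959) .nil))))),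
   .two (nat_lit 4605345807) (nat_lit 157038936079) (.two (nat_lit 157038936072) (nat_lit 4605345854) (.two (nat_lit 46409973764) (nat_lit 156372042520) (.one (nat_lit 183953786153) .nil))),
   .two (nat_lit 28757196815) (nat_lit 156372041753) (.two (nat_lit 705691656) (nat_lit 10343153826) (.two (nat_lit 2097153) (nat_lit 9974055705) (.one (nat_lit 8390122) .nil))),
   .two (nat_lit 46414168079) (nat_lit 706740273) (.two (nat_lit 11551113224) (nat_lit 12114198590) (.two (nat_lit 75497477) (nat_lit 1913651463) (.two (nat_lit 612368385) (nat_lit 166196151008) (.two (nat_lit 4194304) (nat_lit 156567077915) (.one (nat_lit 2098667) .nil))))),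
   .two (nat_lit 83886095) (nat_lit 19130220650) (.two (nat_lit 721420292) (nat_lit 37749461) (.two (nat_lit 16777216) (nat_lit 1849689109) (.one (nat_lit 4195829) .nil))),
   .two (nat_lit 8388623) (nat_lit 2923429951) (.two (nat_lit 4601151493) (nat_lit 343933090) (.two (nat_lit 156367847425) (nat_lit 10510926571) (.two (nat_lit 8388608) (nat_lit 4195566) (.one (nat_lit 37750198) .nil)))),
   .two (nat_lit 9866051599) (nat_lit 184993972239) (.two (nat_lit 11551113224) (nat_lit 1947205697) (.two (nat_lit 1343225861) (nat_lit 11618222342) (.two (nat_lit 605028353) (nat_lit 176161514) (.two (nat_lit 2097152) (nat_lit 9933161936) .nil)))),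
   .two (nat_lit 2889875471) (nat_lit 13195280408) (.two (nat_lit 2889875464) (nat_lit 156372041840) (.two (nat_lit 272629765) (nat_lit 11484004617) (.two (nat_lit 4194305) (nat_lit 19604177643) (.two (nat_lit 2097152) (nat_lit 37749763) (.one (nat_lit 4195832) .nil))))),
   .two (nat_lit 713031695) (nat_lit 4598005803) (.two (nat_lit 184993972232) (nat_lit 10369368296) (.two (nat_lit 21207449605) (nat_lit 47555019194) (.two (nat_lit 9765388289) (nat_lit 21818770127) (.two (nat_lit 1048576) (nat_lit 8389873) (.one (nat_lit 705693269) .nil))))),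
   .two (nat_lit 18933088271) (nat_lit 157038936079) (.two (nat_lit 157038936072) (nat_lit 183853121643) (.two (nat_lit 46409973764) (nat_lit 1753219596) (.two (nat_lit 4194304) (nat_lit 10343155119) .nil))),
   .two (nat_lit 8388623) (nat_lit 46409973775) (.two (nat_lit 46409973768) (nat_lit 8388670) (.two (nat_lit 713031684) (nat_lit 4194957) (.two (nat_lit 620756993) (nat_lit 9768534540) (.two (nat_lit 16777216) (nat_lit 47584379935) (.one (nat_lit 8390274) .nil))))),
   .two (nat_lit 272629775) (nat_lit 37313577076) (.two (nat_lit 2889875461) (nat_lit 11610882464) (.two (nat_lit 4194305) (nat_lit 1049560) (.two (nat_lit 4194304) (nat_lit 1049842) (.one (nat_lit 2098819) .nil)))),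
   .two (nat_lit 203423759) (nat_lit 18928893967) (.two (nat_lit 639631368) (nat_lit 11513364543) (.two (nat_lit 2954887173) (nat_lit 37749157) (.two (nat_lit 2097153) (nat_lit 37749998) (.one (nat_lit 159253529893) .nil)))),
   .two (nat_lit 11551113231) (nat_lit 158662131737) (.two (nat_lit 713031688) (nat_lit 37247516788) (.two (nat_lit 169869316) (nat_lit 1283457434) (.two (nat_lit 620756993) (nat_lit 158653743833) (.two (nat_lit 16777216) (nat_lit 8390031) (.one (nat_lit 343934587) .nil))))),
   .two (nat_lit 184986632207) (nat_lit 12117344320) (.two (nat_lit 12047089669) (nat_lit 12117344780) (.two (nat_lit 1048576) (nat_lit 166232851469) (.one (nat_lit 4195972) .nil))),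
   .two (nat_lit 2961178639) (nat_lit 158144135275) (.two (nat_lit 1343225861) (nat_lit 159257723285) (.two (nat_lit 605028353) (nat_lit 159251432668) (.one (nat_lit 2098683) .nil))),
   .two (nat_lit 156367847439) (nat_lit 156533522540) (.two (nat_lit 46409973764) (nat_lit 19027460479) (.two (nat_lit 4194305) (nat_lit 1411384497) (.one (nat_lit 2098821) .nil))),
   .two (nat_lit 1916796943) (nat_lit 20704133224) (.two (nat_lit 28690087941) (nat_lit 4030726897) (.two (nat_lit 1048576) (nat_lit 4195728) (.one (nat_lit 1050246) .nil))),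
   .two (nat_lit 12054429711) (nat_lit 10540285976) (.two (nat_lit 9768534024) (nat_lit 310378607) (.two (nat_lit 2889875461) (nat_lit 2424308424) (.two (nat_lit 8388608) (nat_lit 4195729) (.one (nat_lit 158079124773) .nil)))),
   .two (nat_lit 1277165583) (nat_lit 2994733120) (.two (nat_lit 159217876997) (nat_lit 343933090) (.two (nat_lit 606076929) (nat_lit 176161476) (.two (nat_lit 2097152) (nat_lit 3028288537) (.one (nat_lit 8390280) .nil)))),
   .two (nat_lit 713031695) (nat_lit 156465365016) (.two (nat_lit 75497480) (nat_lit 28790751348) (.two (nat_lit 713031684) (nat_lit 1309671861) (.two (nat_lit 16777217) (nat_lit 880804633) (.one (nat_lit 8390281) .nil)))),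
   .two (nat_lit 1916796943) (nat_lit 165532401689) (.two (nat_lit 205520904) (nat_lit 19537068480) (.two (nat_lit 4194305) (nat_lit 75498181) (.two (nat_lit 1048576) (nat_lit 158079124773) .nil))),
   .two (nat_lit 205520911) (nat_lit 166230753385) (.two (nat_lit 158143086597) (nat_lit 28691136963) (.two (nat_lit 605028353) (nat_lit 10437526254) (.two (nat_lit 1048576) (nat_lit 10437526744) (.one (nat_lit 10437527011) .nil)))),
   .two (nat_lit 8388623) (nat_lit 18925748239) (.two (nat_lit 713031688) (nat_lit 46977253491) (.two (nat_lit 16777220) (nat_lit 8388770) (.two (nat_lit 16777217) (nat_lit 638583818) (.one (nat_lit 1050250) .nil)))),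
   .two (nat_lit 8388623) (nat_lit 11513364543) (.two (nat_lit 8388612) (nat_lit 4194717) (.two (nat_lit 8388609) (nat_lit 876610422) (.two (nat_lit 8388608) (nat_lit 37749998) (.one (nat_lit 4195766) .nil)))),
   .two (nat_lit 37748751) (nat_lit 183853121599) (.two (nat_lit 4194308) (nat_lit 276824477) (.two (nat_lit 2097153) (nat_lit 2927625401) (.one (nat_lit 1379927537) .nil))),
   .two (nat_lit 9768534031) (nat_lit 2961178649) (.two (nat_lit 276824072) (nat_lit 1916797036) (.two (nat_lit 18928893957) (nat_lit 4638900933) (.two (nat_lit 1048576) (nat_lit 21818770444) (.one (nat_lit 605029676) .nil)))),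
   .two (nat_lit 739246095) (nat_lit 20644364303) (.two (nat_lit 739246088) (nat_lit 21818769538) (.two (nat_lit 21785214981) (nat_lit 46977253846) (.two (nat_lit 34603009) (nat_lit 8389365) (.two (nat_lit 1048576) (nat_lit 8389877) (.one (nat_lit 34604318) .nil))))),
   .two (nat_lit 272629775) (nat_lit 1191182351) (.two (nat_lit 272629768) (nat_lit 11492392978) (.two (nat_lit 754974725) (nat_lit 157038936335) (.two (nat_lit 37748737) (nat_lit 16777743) (.two (nat_lit 4194304) (nat_lit 16777556) (.one (nat_lit 16778891) .nil))))),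
   .two (nat_lit 639631371) (nat_lit 28093448233) (.two (nat_lit 10343153676) (nat_lit 69206053) (.two (nat_lit 9934209032) (nat_lit 1753219091) (.two (nat_lit 169869316) (nat_lit 3464495274) (.two (nat_lit 169869315) (nat_lit 19537068306) (.two (nat_lit 2097153) (nat_lit 8389142) (.two (nat_lit 2097152) (nat_lit 8389409) (.one (nat_lit 8390147) .nil))))))),
   .two (nat_lit 4194319) (nat_lit 156372041743) (.two (nat_lit 4194312) (nat_lit 46481277054) (.two (nat_lit 75497477) (nat_lit 873464206) (.two (nat_lit 4194305) (nat_lit 1049508) (.two (nat_lit 4194304) (nat_lit 142606911) (.one (nat_lit 4195983) .nil))))),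
   .two (nat_lit 1291845647) (nat_lit 739246095) (.two (nat_lit 11476664328) (nat_lit 1291845696) (.two (nat_lit 9948889093) (nat_lit 3524263976) (.two (nat_lit 9948889093) (nat_lit 21811429549) (.two (nat_lit 620756993) (nat_lit 9933161379) (.two (nat_lit 16777216) (nat_lit 1049861) (.one (nat_lit 1050111) .nil)))))),
   .two (nat_lit 2954887183) (nat_lit 10385096719) (.two (nat_lit 10385096712) (nat_lit 839909506) (.two (nat_lit 1291845636) (nat_lit 9933160910) (.two (nat_lit 620756993) (nat_lit 9933161379) (.two (nat_lit 2097152) (nat_lit 1049639) (.one (nat_lit 1050256) .nil))))),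
   .two (nat_lit 21207449615) (nat_lit 20738736158) (.two (nat_lit 158144135181) (nat_lit 10939793473) (.two (nat_lit 158144135173) (nat_lit 159250383240) (.two (nat_lit 606076929) (nat_lit 10939793594) (.two (nat_lit 2097152) (nat_lit 1049380) (.one (nat_lit 1049911) .nil))))),
   .two (nat_lit 1048608) (nat_lit 4194358) (.two (nat_lit 11614027785) (nat_lit 2316304457) (.two (nat_lit 9940500487) (nat_lit 21777875055) (.two (nat_lit 28760342533) (nat_lit 158646403111) (.two (nat_lit 612368387) (nat_lit 47547678893) (.two (nat_lit 612368385) (nat_lit 21207450163) (.two (nat_lit 2097152) (nat_lit 4195735) (.one (nat_lit 4195985) .nil))))))),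
   .two (nat_lit 285212687) (nat_lit 1178599439) (.two (nat_lit 1178599432) (nat_lit 19093520449) (.two (nat_lit 9768534021) (nat_lit 10335813896) (.two (nat_lit 50331649) (nat_lit 183912891257) (.two (nat_lit 4194304) (nat_lit 1049381) (.one (nat_lit 1049670) .nil))))),
   .two (nat_lit 8388623) (nat_lit 873463835) (.two (nat_lit 41943048) (nat_lit 28790751298) (.two (nat_lit 41943047) (nat_lit 839909582) (.two (nat_lit 713031685) (nat_lit 2416967774) (.two (nat_lit 713031683) (nat_lit 185020186786) (.two (nat_lit 41943041) (nat_lit 1048902) (.two (nat_lit 8388608) (nat_lit 1050010) (.one (nat_lit 8390290) .nil))))))),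
   .two (nat_lit 620757007) (nat_lit 1277165583) (.two (nat_lit 620757000) (nat_lit 159251431489) (.two (nat_lit 184549380) (nat_lit 2097617) (.two (nat_lit 16777217) (nat_lit 2988442317) (.two (nat_lit 2097152) (nat_lit 157051519770) (.one (nat_lit 2098837) .nil))))),
   .two (nat_lit 620757007) (nat_lit 10369368079) (.two (nat_lit 620757000) (nat_lit 1846542373) (.two (nat_lit 620757000) (nat_lit 10369368083) (.two (nat_lit 11484004357) (nat_lit 184986632356) (.two (nat_lit 176160773) (nat_lit 10335813724) (.two (nat_lit 41943041) (nat_lit 10955522589) (.two (nat_lit 2097152) (nat_lit 16778026) (.one (nat_lit 16778903) .nil))))))),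
   .two (nat_lit 37249613843) (nat_lit 21811429392) (.two (nat_lit 1916796941) (nat_lit 21777875055) (.two (nat_lit 1916796933) (nat_lit 1049070) (.two (nat_lit 9768534019) (nat_lit 11577327904) (.two (nat_lit 9768534017) (nat_lit 1049715) (.two (nat_lit 1048576) (nat_lit 4195598) (.one (nat_lit 4195853) .nil)))))),
   .two (nat_lit 21777874959) (nat_lit 158083317801) (.two (nat_lit 705691656) (nat_lit 158083317868) (.two (nat_lit 12054429701) (nat_lit 1049042) (.two (nat_lit 41943041) (nat_lit 1049320) (.two (nat_lit 8388608) (nat_lit 1050012) (.one (nat_lit 1050126) .nil))))),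
   .two (nat_lit 8388623) (nat_lit 11610882112) (.two (nat_lit 8388616) (nat_lit 20638073097) (.two (nat_lit 746586117) (nat_lit 1379926542) (.two (nat_lit 41943041) (nat_lit 1780483073) (.two (nat_lit 8388608) (nat_lit 2098604) (.one (nat_lit 2098711) .nil))))),
   .two (nat_lit 8388623) (nat_lit 605028417) (.two (nat_lit 8388616) (nat_lit 20638073097) (.two (nat_lit 746586117) (nat_lit 1379926542) (.two (nat_lit 9766436865) (nat_lit 156468511742) (.two (nat_lit 8388608) (nat_lit 2098605) (.one (nat_lit 2098711) .nil))))),
   .two (nat_lit 713031695) (nat_lit 10537140335) (.two (nat_lit 276824072) (nat_lit 13224640674) (.two (nat_lit 183848927236) (nat_lit 1779433996) (.two (nat_lit 605028353) (nat_lit 71304193) (.two (nat_lit 1048576) (nat_lit 2894071070) (.one (nat_lit 1050282) .nil))))),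
   .two (nat_lit 9940500495) (nat_lit 159251431489) (.two (nat_lit 37748744) (nat_lit 10007609506) (.two (nat_lit 8388612) (nat_lit 4194995) (.two (nat_lit 4194305) (nat_lit 8389771) (.two (nat_lit 2097152) (nat_lit 8389919) (.one (nat_lit 8390315) .nil))))),
   .two (nat_lit 9781116943) (nat_lit 2887778566) (.two (nat_lit 21777874949) (nat_lit 813695665) (.two (nat_lit 16777217) (nat_lit 1209009153) (.two (nat_lit 16777216) (nat_lit 2098606) (.one (nat_lit 2098860) .nil)))),
   .two (nat_lit 2889875471) (nat_lit 183946444863) (.two (nat_lit 3458203656) (nat_lit 10369368326) (.two (nat_lit 46407876612) (nat_lit 641729037) (.two (nat_lit 9766436865) (nat_lit 742392832) (.two (nat_lit 2097152) (nat_lit 4195759) (.one (nat_lit 8390317) .nil))))),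
   .two (nat_lit 205520911) (nat_lit 3558867009) (.two (nat_lit 742391816) (nat_lit 185020186786) (.two (nat_lit 11546918917) (nat_lit 1049268) (.two (nat_lit 2097153) (nat_lit 1049605) (.two (nat_lit 2097152) (nat_lit 4195616) (.one (nat_lit 2098863) .nil))))),
   .two (nat_lit 822083599) (nat_lit 37313577086) (.two (nat_lit 18925748232) (nat_lit 12054430100) (.two (nat_lit 806354949) (nat_lit 46489666222) (.two (nat_lit 2097153) (nat_lit 10537141256) (.two (nat_lit 1048576) (nat_lit 2098471) (.one (nat_lit 1050293) .nil))))),
   .two (nat_lit 8388623) (nat_lit 2416967898) (.two (nat_lit 8388616) (nat_lit 11007951277) (.two (nat_lit 159217876997) (nat_lit 4598006286) (.two (nat_lit 612368385) (nat_lit 35652622) (.two (nat_lit 8388608) (nat_lit 47581234469) (.one (nat_lit 2098872) .nil))))),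
   .two (nat_lit 620757007) (nat_lit 159251431547) (.two (nat_lit 169869320) (nat_lit 50331810) (.two (nat_lit 2969567237) (nat_lit 4028629716) (.two (nat_lit 606076929) (nat_lit 10000270335) (.two (nat_lit 1048576) (nat_lit 2098475) (.one (nat_lit 1050301) .nil))))),
   .two (nat_lit 10370416655) (nat_lit 158083317890) (.two (nat_lit 37748744) (nat_lit 10007609506) (.two (nat_lit 8388612) (nat_lit 10540286645) (.two (nat_lit 8388609) (nat_lit 102761479) (.two (nat_lit 2097152) (nat_lit 46514832683) (.one (nat_lit 4196030) .nil))))),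
   .two (nat_lit 8388623) (nat_lit 672137327) (.two (nat_lit 276824072) (nat_lit 4634706082) (.two (nat_lit 20637024260) (nat_lit 1178599948) (.two (nat_lit 41943041) (nat_lit 608175118) (.two (nat_lit 1048576) (nat_lit 183853122857) (.one (nat_lit 4196041) .nil))))),
   .two (nat_lit 721420303) (nat_lit 156567077126) (.two (nat_lit 721420292) (nat_lit 19127075341) (.two (nat_lit 620756993) (nat_lit 772801564) (.two (nat_lit 1048576) (nat_lit 4043310373) (.one (nat_lit 8390346) .nil)))),
   .two (nat_lit 11479810063) (nat_lit 1175453964) (.two (nat_lit 4599054341) (nat_lit 1178599948) (.two (nat_lit 34603009) (nat_lit 706741265) (.two (nat_lit 1048576) (nat_lit 46407877914) (.one (nat_lit 1050332) .nil)))),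
   .two (nat_lit 37748751) (nat_lit 11618222143) (.two (nat_lit 37748744) (nat_lit 21214789896) (.two (nat_lit 4194308) (nat_lit 2961179334) (.two (nat_lit 2097153) (nat_lit 1279263758) (.two (nat_lit 2097152) (nat_lit 156573369637) (.one (nat_lit 2098911) .nil))))),
   .two (nat_lit 2961178639) (nat_lit 20738736192) (.two (nat_lit 4194312) (nat_lit 41943202) (.two (nat_lit 176160772) (nat_lit 10003415783) (.two (nat_lit 4194305) (nat_lit 47548728343) (.two (nat_lit 1048576) (nat_lit 9869198620) (.one (nat_lit 2098912) .nil))))),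
   .two (nat_lit 612368399) (nat_lit 2988441732) (.two (nat_lit 813694984) (nat_lit 4634706183) (.two (nat_lit 184419352581) (nat_lit 3525313231) (.two (nat_lit 2097153) (nat_lit 4195331) (.two (nat_lit 4194304) (nat_lit 11551114528) (.one (nat_lit 4196067) .nil))))),
   .two (nat_lit 809500687) (nat_lit 10007609552) (.two (nat_lit 4194312) (nat_lit 41943202) (.two (nat_lit 1343225861) (nat_lit 12117344975) (.two (nat_lit 8388609) (nat_lit 1948255263) (.two (nat_lit 1048576) (nat_lit 708838689) (.one (nat_lit 1050340) .nil))))),
   .two (nat_lit 809500687) (nat_lit 159224168571) (.two (nat_lit 4194312) (nat_lit 880804002) (.two (nat_lit 4194308) (nat_lit 47588573871) (.two (nat_lit 37748737) (nat_lit 168821760) (.two (nat_lit 1048576) (nat_lit 104858912) (.one (nat_lit 806356650) .nil))))),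
   .two (nat_lit 8388623) (nat_lit 28793897071) (.two (nat_lit 8388616) (nat_lit 11511267773) (.two (nat_lit 46407876612) (nat_lit 1178599948) (.two (nat_lit 9768534017) (nat_lit 2894070791) (.two (nat_lit 4194304) (nat_lit 20644365609) (.one (nat_lit 10372515504) .nil))))),
   .two (nat_lit 158075977743) (nat_lit 1753219091) (.two (nat_lit 156372041733) (nat_lit 873464125) (.two (nat_lit 41943041) (nat_lit 1048768) (.one (nat_lit 1049934) .nil))),
   .two (nat_lit 4194319) (nat_lit 19142803521) (.two (nat_lit 809500680) (nat_lit 28690088199) (.two (nat_lit 4194308) (nat_lit 19596837046) (.two (nat_lit 4194308) (nat_lit 19596837172) (.two (nat_lit 4194305) (nat_lit 1209008692) (.two (nat_lit 4194304) (nat_lit 1050119) (.one (nat_lit 16778989) .nil)))))),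
   .two (nat_lit 612368399) (nat_lit 158075977792) (.two (nat_lit 612368392) (nat_lit 158075977990) (.two (nat_lit 176160772) (nat_lit 47547679441) (.two (nat_lit 8388609) (nat_lit 4195527) (.two (nat_lit 8388608) (nat_lit 4195648) (.one (nat_lit 8390330) .nil))))),
   .two (nat_lit 8388673) (nat_lit 239075367) (.two (nat_lit 176160783) (nat_lit 239075367) (.two (nat_lit 10338959368) (nat_lit 101712054) (.two (nat_lit 46409973764) (nat_lit 1779433808) (.two (nat_lit 4194305) (nat_lit 28790751821) (.two (nat_lit 16777216) (nat_lit 9866052681) (.one (nat_lit 4196085) .nil)))))),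
   .two (nat_lit 11584667687) (nat_lit 9982443645) (.two (nat_lit 2969567247) (nat_lit 184993972263) (.two (nat_lit 184993972232) (nat_lit 159266111670) (.two (nat_lit 184993972229) (nat_lit 11010048336) (.two (nat_lit 41943041) (nat_lit 1291846221) (.two (nat_lit 4194304) (nat_lit 8389956) (.one (nat_lit 8389976) .nil)))))),
   .two (nat_lit 2902458403) (nat_lit 2097285) (.two (nat_lit 2097168) (nat_lit 9781116967) (.two (nat_lit 4601151495) (nat_lit 10504634550) (.two (nat_lit 4194307) (nat_lit 166130090320) (.two (nat_lit 2097153) (nat_lit 156372042317) (.two (nat_lit 2097152) (nat_lit 159257724443) (.one (nat_lit 2098521) .nil)))))),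
   .two (nat_lit 8388670) (nat_lit 3021996071) (.two (nat_lit 8388670) (nat_lit 156365750366) (.two (nat_lit 276824099) (nat_lit 13224640674) (.two (nat_lit 41943055) (nat_lit 873463994) (.two (nat_lit 3460300816) (nat_lit 41943346) (.two (nat_lit 2887778310) (nat_lit 1049150) (.two (nat_lit 184989777927) (nat_lit 101712664) (.two (nat_lit 806354949) (nat_lit 612369207) (.two (nat_lit 4194307) (nat_lit 41943859) (.two (nat_lit 2097153) (nat_lit 9768535118) (.two (nat_lit 2097152) (nat_lit 4195674) (.one (nat_lit 2098739) .nil))))))))))),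
   .two (nat_lit 10343153703) (nat_lit 10001317928) (.two (nat_lit 10336862216) (nat_lit 184993972563) (.two (nat_lit 165526110211) (nat_lit 156465365581) (.two (nat_lit 4194304) (nat_lit 1746928985) (.one (nat_lit 336594684) .nil)))),
   .two (nat_lit 9802088513) (nat_lit 754974760) (.two (nat_lit 2902458376) (nat_lit 9802088784) (.two (nat_lit 285212677) (nat_lit 156367848013) (.two (nat_lit 1048576) (nat_lit 4195883) (.one (nat_lit 16778811) .nil)))),
   .two (nat_lit 4194368) (nat_lit 1417674791) (.two (nat_lit 4194339) (nat_lit 165532401758) (.two (nat_lit 11543773199) (nat_lit 1344274618) (.two (nat_lit 183853121544) (nat_lit 605028688) (.two (nat_lit 183853121544) (nat_lit 202375742) (.two (nat_lit 2097157) (nat_lit 19130221133) (.two (nat_lit 159224168453) (nat_lit 3457155903) (.two (nat_lit 37748737) (nat_lit 109053002) (.two (nat_lit 1048576) (nat_lit 8390188) (.one (nat_lit 8390204) .nil))))))))),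
   .two (nat_lit 1175453735) (nat_lit 2902458407) (.two (nat_lit 8388615) (nat_lit 156364702285) (.two (nat_lit 8388608) (nat_lit 1050164) .nil)),
   .two (nat_lit 272629799) (nat_lit 20753416231) (.two (nat_lit 9934209031) (nat_lit 1279263310) (.two (nat_lit 2097152) (nat_lit 8390200) .nil)),
   .two (nat_lit 306184231) (nat_lit 202375208) (.two (nat_lit 11476664328) (nat_lit 205521490) (.two (nat_lit 2097152) (nat_lit 4195897) .nil)),
   .two (nat_lit 641728551) (nat_lit 654311463) (.two (nat_lit 2889875464) (nat_lit 83886423) (.two (nat_lit 1048576) (nat_lit 4195902) .nil)),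
   .two (nat_lit 352321575) (nat_lit 158083317800) (.two (nat_lit 3464495112) (nat_lit 9881780567) (.two (nat_lit 2097152) (nat_lit 8390207) .nil)),
   .two (nat_lit 75497511) (nat_lit 10003415080) (.two (nat_lit 10338959368) (nat_lit 35652175) (.two (nat_lit 16777216) (nat_lit 8390208) .nil)),
   .two (nat_lit 713031719) (nat_lit 159217877031) (.two (nat_lit 46407876616) (nat_lit 9772728911) (.two (nat_lit 1048576) (nat_lit 2889877056) .nil)),
   .two (nat_lit 713031695) (nat_lit 2416967789) (.two (nat_lit 41943045) (nat_lit 19026411931) (.two (nat_lit 41943041) (nat_lit 185020187318) (.two (nat_lit 1048576) (nat_lit 41944234) (.one (nat_lit 1050373) .nil)))),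
   .two (nat_lit 176160783) (nat_lit 12129927191) (.two (nat_lit 16777224) (nat_lit 343933090) (.two (nat_lit 612368385) (nat_lit 16778337) (.two (nat_lit 16777216) (nat_lit 8390005) (.one (nat_lit 8390236) .nil)))),
   .two (nat_lit 46978301967) (nat_lit 11006902319) (.two (nat_lit 4194312) (nat_lit 46978302016) (.two (nat_lit 4194308) (nat_lit 19596837389) (.two (nat_lit 4194304) (nat_lit 1049974) (.one (nat_lit 1050374) .nil)))),
   .two (nat_lit 46414168079) (nat_lit 19532873836) (.two (nat_lit 3527409669) (nat_lit 156372042252) (.two (nat_lit 4194304) (nat_lit 880804864) (.one (nat_lit 8390237) .nil))),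
   .two (nat_lit 37748751) (nat_lit 11492393067) (.two (nat_lit 4194308) (nat_lit 1291846071) (.two (nat_lit 4194305) (nat_lit 16777946) (.two (nat_lit 4194304) (nat_lit 2098552) (.one (nat_lit 4196103) .nil)))),
   .two (nat_lit 1178599439) (nat_lit 11517558849) (.two (nat_lit 9768534021) (nat_lit 156573368708) (.two (nat_lit 37748737) (nat_lit 8389802) (.one (nat_lit 8390241) .nil))),
   .two (nat_lit 2902458383) (nat_lit 269484161) (.two (nat_lit 4194308) (nat_lit 166129041849) (.two (nat_lit 4194305) (nat_lit 1049530) (.two (nat_lit 4194304) (nat_lit 16778454) (.one (nat_lit 16778867) .nil)))),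
   .two (nat_lit 16777231) (nat_lit 101711887) (.two (nat_lit 50331656) (nat_lit 20704133317) (.two (nat_lit 50331653) (nat_lit 20704133383) (.two (nat_lit 34603009) (nat_lit 10015999147) (.one (nat_lit 1050230) .nil)))),
   .two (nat_lit 37748751) (nat_lit 174692761867) (.two (nat_lit 4194305) (nat_lit 174686470863) (.two (nat_lit 4194304) (nat_lit 8389849) (.one (nat_lit 16779016) .nil))),
   .two (nat_lit 169869327) (nat_lit 218103915) (.two (nat_lit 169869316) (nat_lit 9781117325) (.two (nat_lit 606076929) (nat_lit 156465365672) (.two (nat_lit 2097152) (nat_lit 16778270) (.one (nat_lit 16778872) .nil)))),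
   .two (nat_lit 184549391) (nat_lit 10437525568) (.two (nat_lit 184549380) (nat_lit 156365750536) (.two (nat_lit 9766436865) (nat_lit 11593056949) (.two (nat_lit 1048576) (nat_lit 184987681981) (.one (nat_lit 16779017) .nil)))),
   .two (nat_lit 612368399) (nat_lit 672137281) (.two (nat_lit 184549380) (nat_lit 3460301187) (.two (nat_lit 8388609) (nat_lit 336593772) (.two (nat_lit 16777216) (nat_lit 1050181) (.one (nat_lit 8390269) .nil)))),
   .two (nat_lit 713031695) (nat_lit 672137258) (.two (nat_lit 47563407368) (nat_lit 11618222759) (.two (nat_lit 16777216) (nat_lit 8389871) (.one (nat_lit 1050378) .nil))),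
   .two (nat_lit 8388623) (nat_lit 28793897007) (.two (nat_lit 41943048) (nat_lit 159253528705) (.two (nat_lit 184549380) (nat_lit 343933721) (.one (nat_lit 4196106) .nil))),
   .two (nat_lit 10506731535) (nat_lit 47582281752) (.two (nat_lit 47548727304) (nat_lit 19029557357) (.two (nat_lit 3458203653) (nat_lit 10439623061) (.two (nat_lit 2097153) (nat_lit 876610495) (.two (nat_lit 1048576) (nat_lit 4195726) (.one (nat_lit 3020949092) .nil))))),
   .two (nat_lit 272629775) (nat_lit 11610882073) (.two (nat_lit 47548727304) (nat_lit 1916797044) (.two (nat_lit 3458203653) (nat_lit 10439623061) (.two (nat_lit 34603009) (nat_lit 306184899) (.two (nat_lit 2097152) (nat_lit 4195571) (.one (nat_lit 2098823) .nil))))),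
   .two (nat_lit 1795162127) (nat_lit 9899606131) (.two (nat_lit 13187940357) (nat_lit 16778239) (.one (nat_lit 1358955818) .nil)),
   .two (nat_lit 4601151503) (nat_lit 28690088045) (.two (nat_lit 69206021) (nat_lit 839909989) (.two (nat_lit 4194305) (nat_lit 336593880) (.two (nat_lit 2097152) (nat_lit 11510219920) (.one (nat_lit 2098955) .nil)))),
   .two (nat_lit 37748751) (nat_lit 10385096719) (.two (nat_lit 37748744) (nat_lit 21827158127) (.two (nat_lit 169869316) (nat_lit 16777840) (.two (nat_lit 620756993) (nat_lit 2098289) (.two (nat_lit 16777216) (nat_lit 4195587) (.one (nat_lit 4195982) .nil))))),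
   .two (nat_lit 9948889103) (nat_lit 34603049) (.two (nat_lit 9948889096) (nat_lit 34603116) (.two (nat_lit 203423749) (nat_lit 675283206) (.two (nat_lit 50331649) (nat_lit 1049714) (.two (nat_lit 4194304) (nat_lit 1049378) (.one (nat_lit 16778756) .nil))))),
   .two (nat_lit 156372041743) (nat_lit 20707278891) (.two (nat_lit 4194312) (nat_lit 18933088365) (.two (nat_lit 4194308) (nat_lit 158083317800) (.two (nat_lit 4194308) (nat_lit 159224168612) (.two (nat_lit 37748737) (nat_lit 8389373) (.two (nat_lit 4194304) (nat_lit 8390038) (.one (nat_lit 8390413) .nil)))))),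
   .two (nat_lit 4194319) (nat_lit 156372041743) (.two (nat_lit 4194312) (nat_lit 46481277054) (.two (nat_lit 75497477) (nat_lit 873464206) (.two (nat_lit 4194305) (nat_lit 1049508) (.two (nat_lit 4194304) (nat_lit 1049869) (.one (nat_lit 4195850) .nil))))),
   .two (nat_lit 2969567247) (nat_lit 13222543404) (.two (nat_lit 813694984) (nat_lit 18928893989) (.two (nat_lit 2969567240) (nat_lit 166130090003) (.two (nat_lit 8388612) (nat_lit 4194587) (.two (nat_lit 8388612) (nat_lit 10909384796) (.two (nat_lit 4194305) (nat_lit 1182794530) (.two (nat_lit 2097152) (nat_lit 28798092091) (.one (nat_lit 8390294) .nil))))))),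
   .two (nat_lit 2961178639) (nat_lit 20738736192) (.two (nat_lit 4194312) (nat_lit 13228835503) (.two (nat_lit 4194305) (nat_lit 2098175) (.two (nat_lit 1048576) (nat_lit 9869198620) (.one (nat_lit 1050278) .nil)))),
   .two (nat_lit 3458203663) (nat_lit 19532873834) (.two (nat_lit 157036838920) (nat_lit 9802088972) (.two (nat_lit 2097153) (nat_lit 156569175040) (.two (nat_lit 2097152) (nat_lit 4195755) (.one (nat_lit 4196007) .nil)))),
   .two (nat_lit 272629775) (nat_lit 184993972386) (.two (nat_lit 4194308) (nat_lit 21785215768) (.two (nat_lit 4194304) (nat_lit 19537069338) (.one (nat_lit 306185886) .nil))),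
   .two (nat_lit 612368399) (nat_lit 4601151650) (.two (nat_lit 176160772) (nat_lit 4194993) (.two (nat_lit 34603009) (nat_lit 4195330) (.two (nat_lit 16777216) (nat_lit 2927625633) (.one (nat_lit 1050280) .nil)))),
   .two (nat_lit 176160783) (nat_lit 10437525615) (.two (nat_lit 159224168456) (nat_lit 2097747) (.two (nat_lit 176160772) (nat_lit 2098028) (.two (nat_lit 8388609) (nat_lit 2098543) (.two (nat_lit 2097152) (nat_lit 8390216) (.one (nat_lit 2098962) .nil))))),
   .two (nat_lit 8388623) (nat_lit 12117344360) (.two (nat_lit 4194312) (nat_lit 10007610136) (.two (nat_lit 1048576) (nat_lit 4195913) (.one (nat_lit 1050385) .nil))),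
   .two (nat_lit 739246095) (nat_lit 166132187336) (.two (nat_lit 11476664328) (nat_lit 156569174697) (.two (nat_lit 156367847425) (nat_lit 101713035) (.two (nat_lit 1048576) (nat_lit 2098762) (.one (nat_lit 4196117) .nil)))),
   .two (nat_lit 11492392975) (nat_lit 37313577069) (.two (nat_lit 117440520) (nat_lit 37246468620) (.two (nat_lit 50331649) (nat_lit 185020187647) (.two (nat_lit 1048576) (nat_lit 721421845) .nil))),
   .two (nat_lit 2887778319) (nat_lit 184993972487) (.two (nat_lit 806354949) (nat_lit 184993972899) (.two (nat_lit 2097153) (nat_lit 8389773) (.two (nat_lit 1048576) (nat_lit 2098462) (.one (nat_lit 1050281) .nil)))),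
   .two (nat_lit 9940500495) (nat_lit 159251431489) (.two (nat_lit 813694984) (nat_lit 13224640674) (.two (nat_lit 4605345797) (nat_lit 339739310) (.two (nat_lit 9781116929) (nat_lit 9768534808) (.two (nat_lit 16777216) (nat_lit 3460302106) (.one (nat_lit 4196118) .nil))))),
   .two (nat_lit 2954887183) (nat_lit 166132187242) (.two (nat_lit 2954887176) (nat_lit 876610062) (.two (nat_lit 2097153) (nat_lit 156569174808) (.two (nat_lit 1048576) (nat_lit 35653274) .nil))),
   .two (nat_lit 8388623) (nat_lit 9798942785) (.two (nat_lit 176160776) (nat_lit 2920284423) (.two (nat_lit 16777220) (nat_lit 1175454220) (.two (nat_lit 16777217) (nat_lit 1049603) (.two (nat_lit 1048576) (nat_lit 2098763) (.one (nat_lit 1050391) .nil))))),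
   .two (nat_lit 620757007) (nat_lit 46474985574) (.two (nat_lit 203423752) (nat_lit 10015998114) (.two (nat_lit 2887778308) (nat_lit 156367847948) (.two (nat_lit 4194305) (nat_lit 874513409) (.two (nat_lit 2097152) (nat_lit 16778828) (.one (nat_lit 2098968) .nil))))),
   .two (nat_lit 10370416655) (nat_lit 713031793) (.two (nat_lit 184993972232) (nat_lit 1048961) (.two (nat_lit 2097157) (nat_lit 8389298) (.two (nat_lit 2097153) (nat_lit 1049604) (.two (nat_lit 2097152) (nat_lit 1050189) (.one (nat_lit 1050393) .nil))))),
   .two (nat_lit 612368399) (nat_lit 166130090093) (.two (nat_lit 2887778312) (nat_lit 343933611) (.two (nat_lit 2097153) (nat_lit 343934230) (.one (nat_lit 1050394) .nil))),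
   .two (nat_lit 169869327) (nat_lit 13195280546) (.two (nat_lit 169869316) (nat_lit 4034921135) (.two (nat_lit 606076929) (nat_lit 21777876251) (.one (nat_lit 1050395) .nil))),
   .two (nat_lit 169869327) (nat_lit 1916797034) (.two (nat_lit 169869320) (nat_lit 19130220924) (.two (nat_lit 270532613) (nat_lit 19130221562) (.two (nat_lit 1048576) (nat_lit 4195760) (.one (nat_lit 1050286) .nil)))),
   .two (nat_lit 41943055) (nat_lit 3527409768) (.two (nat_lit 272629768) (nat_lit 3028288170) (.two (nat_lit 4194305) (nat_lit 343933720) (.two (nat_lit 4194304) (nat_lit 10343154972) (.one (nat_lit 11546920610) .nil)))),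
   .two (nat_lit 8388623) (nat_lit 843055266) (.two (nat_lit 8388612) (nat_lit 4194997) (.two (nat_lit 620756993) (nat_lit 9940501792) (.one (nat_lit 4196005) .nil))),
   .two (nat_lit 2969567247) (nat_lit 673185897) (.two (nat_lit 157036838920) (nat_lit 9948889612) (.two (nat_lit 2097153) (nat_lit 16778770) .nil)),
   .two (nat_lit 8388623) (nat_lit 11510218816) (.two (nat_lit 176160776) (nat_lit 20738736513) (.two (nat_lit 16777220) (nat_lit 1175454220) (.two (nat_lit 8388609) (nat_lit 236979202) (.two (nat_lit 1048576) (nat_lit 8390222) (.one (nat_lit 1050396) .nil))))),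
   .two (nat_lit 12047089679) (nat_lit 183928619270) (.two (nat_lit 183853121540) (nat_lit 183845782028) (.two (nat_lit 41943041) (nat_lit 10000270341) (.two (nat_lit 8388608) (nat_lit 1050047) (.one (nat_lit 1050401) .nil)))),
   .two (nat_lit 9768534031) (nat_lit 13187940460) (.two (nat_lit 205520904) (nat_lit 174753579412) (.two (nat_lit 721420293) (nat_lit 68157964) (.two (nat_lit 16777217) (nat_lit 269485059) (.two (nat_lit 16777216) (nat_lit 1050048) (.one (nat_lit 1050402) .nil))))),
   .two (nat_lit 41943055) (nat_lit 11543773448) (.two (nat_lit 16777220) (nat_lit 11476664844) (.two (nat_lit 16777217) (nat_lit 209716515) (.one (nat_lit 8390435) .nil))),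
   .two (nat_lit 176160783) (nat_lit 19027460199) (.two (nat_lit 176160776) (nat_lit 156466413979) (.two (nat_lit 176160772) (nat_lit 46474986265) (.two (nat_lit 16777216) (nat_lit 159257724187) (.one (nat_lit 2098980) .nil)))),
   .two (nat_lit 713031695) (nat_lit 10369368178) (.two (nat_lit 184993972232) (nat_lit 183912890631) (.two (nat_lit 166129041412) (nat_lit 2894070636) (.two (nat_lit 156364701697) (nat_lit 8389803) (.two (nat_lit 1048576) (nat_lit 8390082) (.one (nat_lit 68159262) .nil))))),
   .two (nat_lit 156372041743) (nat_lit 19532873836) (.two (nat_lit 156372041736) (nat_lit 4194915) (.two (nat_lit 47550824453) (nat_lit 10343154188) (.two (nat_lit 4194305) (nat_lit 343934238) (.one (nat_lit 4196134) .nil)))),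
   .two (nat_lit 8388623) (nat_lit 843055266) (.two (nat_lit 8388612) (nat_lit 4634706599) (.two (nat_lit 8388609) (nat_lit 4195500) (.two (nat_lit 8388608) (nat_lit 4195779) (.one (nat_lit 4196005) .nil)))),
   .two (nat_lit 713031695) (nat_lit 47596962318) (.two (nat_lit 41943041) (nat_lit 10001318914) (.two (nat_lit 8388608) (nat_lit 16778692) (.one (nat_lit 8390326) .nil))),
   .two (nat_lit 75497487) (nat_lit 12617515073) (.two (nat_lit 184993972232) (nat_lit 183912890893) (.two (nat_lit 34603009) (nat_lit 13195281696) (.one (nat_lit 1050295) .nil))),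
   .two (nat_lit 822083599) (nat_lit 165532401729) (.two (nat_lit 3464495112) (nat_lit 136315147) (.two (nat_lit 47555018757) (nat_lit 2098059) (.two (nat_lit 2097153) (nat_lit 156573369345) (.two (nat_lit 2097152) (nat_lit 847250726) (.one (nat_lit 2098984) .nil))))),
   .two (nat_lit 169869327) (nat_lit 10506731585) (.two (nat_lit 169869320) (nat_lit 10506731682) (.two (nat_lit 166132187140) (nat_lit 2098096) (.two (nat_lit 606076929) (nat_lit 13224641732) (.two (nat_lit 2097152) (nat_lit 806356254) (.one (nat_lit 13222545075) .nil))))),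
   .two (nat_lit 2954887183) (nat_lit 2987393139) (.two (nat_lit 47548727304) (nat_lit 2353004970) (.two (nat_lit 12114198533) (nat_lit 876610223) (.two (nat_lit 156364701697) (nat_lit 807404544) (.two (nat_lit 1048576) (nat_lit 2098640) (.one (nat_lit 156567078579) .nil))))),
   .two (nat_lit 8388623) (nat_lit 3527410037) (.two (nat_lit 4194308) (nat_lit 28093448891) (.two (nat_lit 8388609) (nat_lit 205522371) (.one (nat_lit 813696670) .nil))),
   .two (nat_lit 75497487) (nat_lit 1948254327) (.two (nat_lit 3539992584) (nat_lit 47548727822) (.two (nat_lit 16777217) (nat_lit 269485350) (.one (nat_lit 1050414) .nil))),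
   .two (nat_lit 205520911) (nat_lit 174753579412) (.two (nat_lit 721420292) (nat_lit 4599055368) (.two (nat_lit 16777216) (nat_lit 19128124709) (.one (nat_lit 1050415) .nil))),
   .two (nat_lit 184549391) (nat_lit 47581233418) (.two (nat_lit 3464495109) (nat_lit 4195255) (.two (nat_lit 8388609) (nat_lit 285214074) (.two (nat_lit 8388608) (nat_lit 4195800) (.one (nat_lit 4196037) .nil)))),
   .two (nat_lit 8388623) (nat_lit 21208498277) (.two (nat_lit 176160776) (nat_lit 20738736493) (.two (nat_lit 176160772) (nat_lit 20738736802) (.two (nat_lit 50331649) (nat_lit 9873392938) (.one (nat_lit 8390342) .nil)))),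
   .two (nat_lit 41943055) (nat_lit 3527409768) (.two (nat_lit 272629768) (nat_lit 343933612) (.two (nat_lit 4194305) (nat_lit 343933721) (.two (nat_lit 4194304) (nat_lit 8390105) (.one (nat_lit 4196039) .nil)))),
   .two (nat_lit 11479810063) (nat_lit 4605345954) (.two (nat_lit 46414168068) (nat_lit 4195256) (.two (nat_lit 9768534017) (nat_lit 310379691) (.two (nat_lit 4194304) (nat_lit 8390251) (.one (nat_lit 4196040) .nil)))),
   .two (nat_lit 612368399) (nat_lit 772800734) (.two (nat_lit 205520904) (nat_lit 11484005089) (.two (nat_lit 4194305) (nat_lit 303039492) (.two (nat_lit 1048576) (nat_lit 11479811766) .nil))),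
   .two (nat_lit 2889875471) (nat_lit 9881780748) (.two (nat_lit 4194305) (nat_lit 822084607) (.two (nat_lit 4194304) (nat_lit 16778947) .nil)),
   .two (nat_lit 3525312527) (nat_lit 272630028) (.two (nat_lit 171966469) (nat_lit 10538189325) (.two (nat_lit 4194305) (nat_lit 10538189593) (.two (nat_lit 1048576) (nat_lit 171967930) (.one (nat_lit 4196043) .nil)))),
   .two (nat_lit 2887778319) (nat_lit 47555018951) (.two (nat_lit 2887778312) (nat_lit 47555019121) (.two (nat_lit 270532613) (nat_lit 3028288165) (.two (nat_lit 2097153) (nat_lit 8389839) (.two (nat_lit 2097152) (nat_lit 34604318) (.one (nat_lit 1050316) .nil))))),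
   .two (nat_lit 4194319) (nat_lit 236978390) (.two (nat_lit 4194312) (nat_lit 4632609167) (.two (nat_lit 16777220) (nat_lit 9967764482) (.two (nat_lit 16777216) (nat_lit 2990540203) (.one (nat_lit 4196045) .nil)))),
   .two (nat_lit 2969567247) (nat_lit 184993972487) (.two (nat_lit 184549380) (nat_lit 20644364812) (.two (nat_lit 16777217) (nat_lit 880804863) (.two (nat_lit 8388608) (nat_lit 285214370) .nil))),
   .two (nat_lit 8388623) (nat_lit 166199296116) (.two (nat_lit 272629768) (nat_lit 11551113909) (.two (nat_lit 37748737) (nat_lit 11618223129) (.two (nat_lit 16777216) (nat_lit 4195998) .nil))),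
   .two (nat_lit 809500687) (nat_lit 2920284426) (.two (nat_lit 16777220) (nat_lit 47550825480) (.two (nat_lit 16777216) (nat_lit 2956985635) (.one (nat_lit 4196152) .nil))),
   .two (nat_lit 169869327) (nat_lit 4634706049) (.two (nat_lit 1343225864) (nat_lit 4634706343) (.two (nat_lit 10506731525) (nat_lit 37314626472) (.two (nat_lit 34603009) (nat_lit 13224641542) (.two (nat_lit 1048576) (nat_lit 4195803) (.one (nat_lit 1050425) .nil))))),
   .two (nat_lit 176160783) (nat_lit 1310720101) (.two (nat_lit 176160776) (nat_lit 159251431789) (.two (nat_lit 176160772) (nat_lit 159251432098) (.two (nat_lit 8388609) (nat_lit 2887779471) (.two (nat_lit 8388608) (nat_lit 2098796) (.one (nat_lit 176162467) .nil))))),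
   .two (nat_lit 809500687) (nat_lit 47555018854) (.two (nat_lit 809500680) (nat_lit 9906946779) (.two (nat_lit 9781116929) (nat_lit 2956985642) (.one (nat_lit 4196046) .nil))),
   .two (nat_lit 2902458383) (nat_lit 1376780413) (.two (nat_lit 654311432) (nat_lit 1049045) (.two (nat_lit 285212677) (nat_lit 11577328323) (.two (nat_lit 4194305) (nat_lit 20719863067) (.one (nat_lit 1962935963) .nil)))),
   .two (nat_lit 41943055) (nat_lit 1325400174) (.two (nat_lit 9768534024) (nat_lit 9806282914) (.two (nat_lit 9948889093) (nat_lit 276825090) (.two (nat_lit 16777216) (nat_lit 183949592004) (.one (nat_lit 16779066) .nil)))),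
   .two (nat_lit 4194319) (nat_lit 679477410) (.two (nat_lit 4194308) (nat_lit 46489666587) (.two (nat_lit 16777216) (nat_lit 1050221) (.one (nat_lit 4196155) .nil))),
   .two (nat_lit 41943055) (nat_lit 235929712) (.two (nat_lit 21785214984) (nat_lit 158176641398) (.two (nat_lit 1343225861) (nat_lit 1417675276) (.two (nat_lit 605028353) (nat_lit 11484005673) (.one (nat_lit 1050319) .nil)))),
   .two (nat_lit 117440527) (nat_lit 183912890530) (.two (nat_lit 754974725) (nat_lit 780141070) (.two (nat_lit 8388609) (nat_lit 46507492356) (.two (nat_lit 1048576) (nat_lit 847250726) (.one (nat_lit 16779068) .nil)))),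
   .two (nat_lit 11543773199) (nat_lit 21208498241) (.two (nat_lit 11543773192) (nat_lit 2097622) (.two (nat_lit 739246085) (nat_lit 47582282449) (.two (nat_lit 34603009) (nat_lit 2098384) (.two (nat_lit 8388608) (nat_lit 174752531739) (.one (nat_lit 1050320) .nil))))),
   .two (nat_lit 822083599) (nat_lit 1212153962) (.two (nat_lit 156367847432) (nat_lit 12129927569) (.two (nat_lit 46409973764) (nat_lit 754975244) (.two (nat_lit 4194305) (nat_lit 721421590) (.one (nat_lit 16778778) .nil)))),
   .two (nat_lit 822083599) (nat_lit 1212153961) (.two (nat_lit 18928893960) (nat_lit 50332038) (.two (nat_lit 156367847429) (nat_lit 19042141182) (.two (nat_lit 1048576) (nat_lit 16778778) .nil))),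
   .two (nat_lit 612368399) (nat_lit 47584379144) (.two (nat_lit 176160772) (nat_lit 843055628) (.two (nat_lit 8388609) (nat_lit 46980400417) (.one (nat_lit 9772730056) .nil))),
   .two (nat_lit 9940500495) (nat_lit 174685421835) (.two (nat_lit 176160772) (nat_lit 772801200) (.two (nat_lit 8388609) (nat_lit 3020948494) (.two (nat_lit 8388608) (nat_lit 11614029236) (.one (nat_lit 8390365) .nil)))),
   .two (nat_lit 2889875471) (nat_lit 28758245480) (.two (nat_lit 2887778312) (nat_lit 13224640674) (.two (nat_lit 2887778308) (nat_lit 339739322) (.two (nat_lit 9766436865) (nat_lit 205522123) (.two (nat_lit 2097152) (nat_lit 4195962) (.one (nat_lit 2098910) .nil))))),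
   .two (nat_lit 4194319) (nat_lit 21214790037) (.two (nat_lit 4194308) (nat_lit 780141249) (.two (nat_lit 4194305) (nat_lit 612369874) (.one (nat_lit 8390469) .nil))),
   .two (nat_lit 11479810063) (nat_lit 2418016364) (.two (nat_lit 721420296) (nat_lit 10370417081) (.two (nat_lit 721420292) (nat_lit 184993973184) (.two (nat_lit 620756993) (nat_lit 158649549991) (.two (nat_lit 4194304) (nat_lit 16778875) (.one (nat_lit 4196166) .nil))))),
   .two (nat_lit 184549391) (nat_lit 2418016372) (.two (nat_lit 2969567240) (nat_lit 69206403) (.two (nat_lit 159217876997) (nat_lit 9948890105) (.two (nat_lit 2097152) (nat_lit 285214422) .nil))),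
   .two (nat_lit 176160783) (nat_lit 4194793) (.two (nat_lit 8388613) (nat_lit 239075854) (.two (nat_lit 8388609) (nat_lit 28760343550) (.two (nat_lit 8388608) (nat_lit 4195825) (.one (nat_lit 8390471) .nil)))),
   .two (nat_lit 2961178639) (nat_lit 11007951055) (.two (nat_lit 2961178632) (nat_lit 10437525911) (.two (nat_lit 171966469) (nat_lit 9940501377) (.two (nat_lit 34603009) (nat_lit 2988442833) (.two (nat_lit 1048576) (nat_lit 2990540400) (.one (nat_lit 4196168) .nil))))),
   .two (nat_lit 169869327) (nat_lit 166132187243) (.two (nat_lit 2954887176) (nat_lit 9802089155) (.two (nat_lit 606076929) (nat_lit 165528208581) (.two (nat_lit 1048576) (nat_lit 2098812) (.one (nat_lit 1050337) .nil)))),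
   .two (nat_lit 1291845647) (nat_lit 174753579124) (.two (nat_lit 46407876616) (nat_lit 10385097228) (.two (nat_lit 2097153) (nat_lit 9781118233) (.one (nat_lit 9781118487) .nil))),
   .two (nat_lit 156372041743) (nat_lit 620757100) (.two (nat_lit 46984593416) (nat_lit 721420671) (.two (nat_lit 50331653) (nat_lit 813695502) (.two (nat_lit 8388609) (nat_lit 9781118233) (.one (nat_lit 16778978) .nil)))),
   .two (nat_lit 2887778319) (nat_lit 3028287698) (.two (nat_lit 21785214984) (nat_lit 739246348) (.two (nat_lit 20644364292) (nat_lit 19094569867) (.two (nat_lit 9766436865) (nat_lit 8390029) (.two (nat_lit 2097152) (nat_lit 34604318) (.one (nat_lit 874514099) .nil))))),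
   .two (nat_lit 176160783) (nat_lit 10942939607) (.two (nat_lit 184549380) (nat_lit 1276117517) (.two (nat_lit 16777217) (nat_lit 9899607070) (.two (nat_lit 1048576) (nat_lit 8390270) (.one (nat_lit 8390474) .nil)))),
   .two (nat_lit 713031695) (nat_lit 2353004654) (.two (nat_lit 1795162120) (nat_lit 102760713) (.two (nat_lit 13191086085) (nat_lit 174759871151) (.two (nat_lit 37748737) (nat_lit 183853122566) (.two (nat_lit 2097152) (nat_lit 4601152795) (.one (nat_lit 2099019) .nil))))),
   .two (nat_lit 272629775) (nat_lit 19027460202) (.two (nat_lit 272629768) (nat_lit 10001318414) (.two (nat_lit 4194305) (nat_lit 10538189592) (.two (nat_lit 1048576) (nat_lit 239076769) (.one (nat_lit 166229706419) .nil)))),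
   .two (nat_lit 276824079) (nat_lit 156569174081) (.two (nat_lit 276824072) (nat_lit 1849688328) (.two (nat_lit 3531603973) (nat_lit 272630455) (.two (nat_lit 37748737) (nat_lit 34604318) (.one (nat_lit 1050444) .nil)))),
   .two (nat_lit 2961178639) (nat_lit 166230753542) (.two (nat_lit 209715205) (nat_lit 1277166502) (.two (nat_lit 605028353) (nat_lit 169870492) (.two (nat_lit 1048576) (nat_lit 874513701) (.one (nat_lit 2098917) .nil)))),
   .two (nat_lit 41943055) (nat_lit 9802088573) (.two (nat_lit 13195280392) (nat_lit 2923430278) (.two (nat_lit 8388612) (nat_lit 775947181) (.two (nat_lit 4194305) (nat_lit 343933721) (.two (nat_lit 16777216) (nat_lit 10338960667) (.one (nat_lit 4196173) .nil))))),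
   .two (nat_lit 9934209039) (nat_lit 806355070) (.two (nat_lit 28758245384) (nat_lit 1947206010) (.two (nat_lit 158075977733) (nat_lit 10907288576) (.two (nat_lit 1048576) (nat_lit 47582283177) (.one (nat_lit 1050342) .nil)))),
   .two (nat_lit 11479810063) (nat_lit 1954545878) (.two (nat_lit 606076936) (nat_lit 142606498) (.two (nat_lit 169869316) (nat_lit 10439623180) (.two (nat_lit 2097153) (nat_lit 156367848446) (.two (nat_lit 16777216) (nat_lit 2098674) (.one (nat_lit 2099022) .nil))))),
   .two (nat_lit 10504634383) (nat_lit 4634706082) (.two (nat_lit 10506731525) (nat_lit 19128124129) (.two (nat_lit 620756993) (nat_lit 742393120) (.one (nat_lit 171968216) .nil))),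
   .two (nat_lit 4194319) (nat_lit 13222543486) (.two (nat_lit 612368392) (nat_lit 876609798) (.two (nat_lit 713031685) (nat_lit 336593591) (.two (nat_lit 4194305) (nat_lit 20637025464) (.two (nat_lit 8388608) (nat_lit 2098675) (.one (nat_lit 8390479) .nil))))),
   .two (nat_lit 1343225871) (nat_lit 184419352641) (.two (nat_lit 184986632200) (nat_lit 12117344781) (.two (nat_lit 34603009) (nat_lit 166132188449) (.one (nat_lit 4196071) .nil))),
   .two (nat_lit 8388623) (nat_lit 2923429951) (.two (nat_lit 41943048) (nat_lit 843055785) (.two (nat_lit 8388609) (nat_lit 4195472) (.two (nat_lit 8388608) (nat_lit 4195968) (.one (nat_lit 4196176) .nil)))),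
   .two (nat_lit 176160783) (nat_lit 639631471) (.two (nat_lit 2961178632) (nat_lit 807403942) (.two (nat_lit 209715205) (nat_lit 270533536) (.two (nat_lit 605028353) (nat_lit 3021997239) (.two (nat_lit 1048576) (nat_lit 2098676) (.one (nat_lit 1050449) .nil))))),
   .two (nat_lit 75497487) (nat_lit 46507491440) (.two (nat_lit 11479810056) (nat_lit 12047090069) (.two (nat_lit 9768534021) (nat_lit 1049332) (.two (nat_lit 37748737) (nat_lit 202376651) (.one (nat_lit 2886731589) .nil)))),
   .two (nat_lit 272629775) (nat_lit 10538189201) (.two (nat_lit 4194308) (nat_lit 202375924) (.two (nat_lit 4194305) (nat_lit 1050059) (.one (nat_lit 1050450) .nil))),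
   .two (nat_lit 2954887183) (nat_lit 47555018815) (.two (nat_lit 2954887176) (nat_lit 21818769675) (.two (nat_lit 169869316) (nat_lit 8389591) (.two (nat_lit 2097153) (nat_lit 3028288537) (.two (nat_lit 2097152) (nat_lit 8390273) (.one (nat_lit 2099027) .nil))))),
   .two (nat_lit 205520911) (nat_lit 19537068480) (.two (nat_lit 171966469) (nat_lit 2323645106) (.two (nat_lit 605028353) (nat_lit 37316723738) (.two (nat_lit 1048576) (nat_lit 158079124773) (.one (nat_lit 4196072) .nil)))),
   .two (nat_lit 8388623) (nat_lit 9967763618) (.two (nat_lit 612368389) (nat_lit 20638073815) (.two (nat_lit 8388609) (nat_lit 47582282777) (.two (nat_lit 8388608) (nat_lit 159217878466) (.one (nat_lit 169871013) .nil)))),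
   .two (nat_lit 272629775) (nat_lit 11492393067) (.two (nat_lit 37748744) (nat_lit 16777655) (.two (nat_lit 4194307) (nat_lit 16777946) (.two (nat_lit 156372041729) (nat_lit 4194867) (.two (nat_lit 8388608) (nat_lit 2098686) (.one (nat_lit 2099029) .nil))))),
   .two (nat_lit 37748751) (nat_lit 2902458578) (.two (nat_lit 2954887176) (nat_lit 16777678) (.two (nat_lit 169869314) (nat_lit 4194837) (.two (nat_lit 2887778307) (nat_lit 16778147) (.two (nat_lit 2097153) (nat_lit 4195586) (.two (nat_lit 2097152) (nat_lit 4195980) (.one (nat_lit 4196185) .nil)))))),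
   .two (nat_lit 2887778319) (nat_lit 18928893989) (.two (nat_lit 2887778319) (nat_lit 3460300818) (.two (nat_lit 2887778312) (nat_lit 10909384796) (.two (nat_lit 203423749) (nat_lit 3560964415) (.two (nat_lit 2097157) (nat_lit 46510637245) (.two (nat_lit 620756993) (nat_lit 4195365) (.two (nat_lit 4194304) (nat_lit 16778549) (.one (nat_lit 16779099) .nil))))))),
   .two (nat_lit 4194319) (nat_lit 46481277054) (.two (nat_lit 4194312) (nat_lit 1216348252) (.two (nat_lit 4194308) (nat_lit 1209008441) (.two (nat_lit 4194308) (nat_lit 19596837045) (.two (nat_lit 4194305) (nat_lit 46977253938) (.two (nat_lit 4194304) (nat_lit 156968682296) (.one (nat_lit 8390492) .nil)))))),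
   .two (nat_lit 713031695) (nat_lit 638582895) (.two (nat_lit 276824072) (nat_lit 4634706082) (.two (nat_lit 13191086085) (nat_lit 47547679246) (.two (nat_lit 41943041) (nat_lit 183946445846) (.two (nat_lit 16777216) (nat_lit 202376486) (.one (nat_lit 8390379) .nil))))),
   .two (nat_lit 2887778319) (nat_lit 20753416256) (.two (nat_lit 2887778312) (nat_lit 117440777) (.two (nat_lit 270532613) (nat_lit 3003122404) (.two (nat_lit 2097153) (nat_lit 16778284) (.two (nat_lit 1048576) (nat_lit 16778555) (.one (nat_lit 16778988) .nil))))),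
   .two (nat_lit 2887778319) (nat_lit 310378615) (.two (nat_lit 169869320) (nat_lit 880804002) (.two (nat_lit 1753219077) (nat_lit 739246604) (.two (nat_lit 34603009) (nat_lit 3021997078) (.two (nat_lit 16777216) (nat_lit 34604323) (.one (nat_lit 2098511) .nil))))),
   .two (nat_lit 37748751) (nat_lit 11492393065) (.two (nat_lit 11492392968) (nat_lit 4194936) (.two (nat_lit 2889875461) (nat_lit 156567077589) (.two (nat_lit 9781116929) (nat_lit 71304653) (.two (nat_lit 16777216) (nat_lit 71304653) (.one (nat_lit 2098928) .nil))))),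
   .two (nat_lit 184549391) (nat_lit 272629822) (.two (nat_lit 184549384) (nat_lit 13224640674) (.two (nat_lit 16777221) (nat_lit 4634706226) (.two (nat_lit 16777219) (nat_lit 4634706594) (.two (nat_lit 16777217) (nat_lit 4634706938) (.two (nat_lit 16777216) (nat_lit 876611011) (.one (nat_lit 156367848993) .nil)))))),
   .two (nat_lit 285212734) (nat_lit 9802088554) (.two (nat_lit 18928893967) (nat_lit 9781117090) (.two (nat_lit 18928893960) (nat_lit 2902459161) (.two (nat_lit 37748737) (nat_lit 16778769) (.one (nat_lit 16779107) .nil)))),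
   .two (nat_lit 176160833) (nat_lit 2097263) (.two (nat_lit 37748751) (nat_lit 10007609506) (.two (nat_lit 19599982600) (nat_lit 8389401) (.two (nat_lit 2097153) (nat_lit 4195751) (.two (nat_lit 2097152) (nat_lit 8390303) (.one (nat_lit 2099044) .nil))))),
   .two (nat_lit 4194367) (nat_lit 11618222145) (.two (nat_lit 4194319) (nat_lit 41943202) (.two (nat_lit 4194312) (nat_lit 8389296) (.two (nat_lit 705691652) (nat_lit 35652607) (.two (nat_lit 34603009) (nat_lit 9869198620) (.two (nat_lit 1048576) (nat_lit 2098709) (.one (nat_lit 2098930) .nil)))))),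
   .two (nat_lit 28790751297) (nat_lit 8388721) (.two (nat_lit 4194319) (nat_lit 10007609506) (.two (nat_lit 21785214984) (nat_lit 1379926542) (.two (nat_lit 183848927237) (nat_lit 1049600) (.two (nat_lit 4194305) (nat_lit 1050024) (.two (nat_lit 1048576) (nat_lit 8390305) (.one (nat_lit 1050469) .nil)))))),
   .two (nat_lit 11543773248) (nat_lit 166132187243) (.two (nat_lit 11543773199) (nat_lit 166132187510) (.two (nat_lit 11543773192) (nat_lit 166132187660) (.two (nat_lit 739246085) (nat_lit 156569175035) (.two (nat_lit 34603009) (nat_lit 156569175318) (.two (nat_lit 1048576) (nat_lit 4195862) (.one (nat_lit 4196198) .nil)))))),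
   .two (nat_lit 2969567296) (nat_lit 2097266) (.two (nat_lit 46407876623) (nat_lit 218104071) (.two (nat_lit 117440520) (nat_lit 68157966) (.two (nat_lit 4599054341) (nat_lit 2969568024) (.two (nat_lit 2097153) (nat_lit 2902459670) (.two (nat_lit 16777216) (nat_lit 1913652892) (.one (nat_lit 16779111) .nil)))))),
   .two (nat_lit 880803905) (nat_lit 1178599537) (.two (nat_lit 276824079) (nat_lit 4634706082) (.two (nat_lit 4601151496) (nat_lit 4598006286) (.two (nat_lit 46409973765) (nat_lit 1049601) (.two (nat_lit 34603009) (nat_lit 8390057) (.two (nat_lit 4194304) (nat_lit 8390308) (.one (nat_lit 8390504) .nil)))))),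
   .two (nat_lit 8388670) (nat_lit 10000269377) (.two (nat_lit 4194319) (nat_lit 41943202) (.two (nat_lit 705691656) (nat_lit 4601152014) (.two (nat_lit 806354949) (nat_lit 746587143) (.two (nat_lit 2097153) (nat_lit 184423548186) (.two (nat_lit 1048576) (nat_lit 169870868) (.one (nat_lit 1050355) .nil)))))),
   .two (nat_lit 8388670) (nat_lit 10001317993) (.two (nat_lit 612368399) (nat_lit 46477083011) (.two (nat_lit 9766436872) (nat_lit 1178600128) (.two (nat_lit 2887778308) (nat_lit 4195330) (.two (nat_lit 2097153) (nat_lit 9940501792) (.two (nat_lit 4194304) (nat_lit 8390322) (.one (nat_lit 4196202) .nil)))))),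
   .two (nat_lit 3527409727) (nat_lit 11476664427) (.two (nat_lit 4194319) (nat_lit 10007609506) (.two (nat_lit 4194312) (nat_lit 713032415) (.two (nat_lit 46409973765) (nat_lit 1049600) (.two (nat_lit 8388609) (nat_lit 101713190) (.two (nat_lit 1048576) (nat_lit 4196028) (.one (nat_lit 1050476) .nil)))))),
   .two (nat_lit 4194367) (nat_lit 11618222145) (.two (nat_lit 4194319) (nat_lit 41943202) (.two (nat_lit 4194312) (nat_lit 310379182) (.two (nat_lit 4194308) (nat_lit 11544822810) (.two (nat_lit 2097153) (nat_lit 11546920234) (.two (nat_lit 1048576) (nat_lit 2887779860) (.one (nat_lit 2098930) .nil)))))),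
   .two (nat_lit 11559501888) (nat_lit 235929722) (.two (nat_lit 12047089679) (nat_lit 117440674) (.two (nat_lit 12047089672) (nat_lit 754975513) (.two (nat_lit 34603009) (nat_lit 184550936) (.one (nat_lit 1392510830) .nil)))),
   .two (nat_lit 2954887230) (nat_lit 166232850538) (.two (nat_lit 37748751) (nat_lit 343933090) (.two (nat_lit 37748744) (nat_lit 176161458) (.two (nat_lit 12121538565) (nat_lit 156535620620) (.two (nat_lit 2097153) (nat_lit 3024094507) (.two (nat_lit 2097152) (nat_lit 809502367) (.one (nat_lit 2099060) .nil)))))),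
   .two (nat_lit 8388670) (nat_lit 184986632299) (.two (nat_lit 612368399) (nat_lit 2987393438) (.two (nat_lit 10369368072) (nat_lit 270533344) (.two (nat_lit 176160772) (nat_lit 806355978) (.two (nat_lit 605028353) (nat_lit 11551114528) (.two (nat_lit 1048576) (nat_lit 8390322) (.one (nat_lit 2886731632) .nil)))))),
   .two (nat_lit 4194371) (nat_lit 2416967745) (.two (nat_lit 1178599439) (nat_lit 28690087975) (.two (nat_lit 12117344264) (nat_lit 156465365174) (.two (nat_lit 11479810052) (nat_lit 19093520720) (.two (nat_lit 37748737) (nat_lit 1913651789) (.two (nat_lit 16777216) (nat_lit 1050139) (.one (nat_lit 1050356) .nil)))))),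
   .two (nat_lit 47563407423) (nat_lit 13195280423) (.two (nat_lit 47563407375) (nat_lit 13195280423) (.two (nat_lit 46980399112) (nat_lit 166129041590) (.two (nat_lit 13195280389) (nat_lit 2990539088) (.two (nat_lit 41943041) (nat_lit 47550825037) (.two (nat_lit 4194304) (nat_lit 16778565) (.one (nat_lit 1050150) .nil)))))),
   .two (nat_lit 1929379941) (nat_lit 2953838628) (.two (nat_lit 276824079) (nat_lit 822083623) (.two (nat_lit 68157456) (nat_lit 19545456807) (.two (nat_lit 10503585801) (nat_lit 19604177205) (.two (nat_lit 1276117000) (nat_lit 184423547188) (.two (nat_lit 9781116933) (nat_lit 2323645505) (.two (nat_lit 2889875459) (nat_lit 28690088500) (.two (nat_lit 9765388289) (nat_lit 8390145) (.two (nat_lit 4194304) (nat_lit 1049932) (.one (nat_lit 1050360) .nil))))))))),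
   .two (nat_lit 8388670) (nat_lit 11610882087) (.two (nat_lit 2954887230) (nat_lit 3560964278) (.two (nat_lit 2954887183) (nat_lit 3560964278) (.two (nat_lit 4601151496) (nat_lit 9765388624) (.two (nat_lit 37748743) (nat_lit 276825094) (.two (nat_lit 46409973765) (nat_lit 11476664908) (.two (nat_lit 46409973765) (nat_lit 1175454516) (.two (nat_lit 4194305) (nat_lit 8389705) (.two (nat_lit 1048576) (nat_lit 4195877) (.one (nat_lit 34604593) .nil))))))))),
   .two (nat_lit 2319450149) (nat_lit 822083623) (.two (nat_lit 285212736) (nat_lit 1413480625) (.two (nat_lit 19599982607) (nat_lit 285213196) (.two (nat_lit 19599982600) (nat_lit 2902458704) (.two (nat_lit 19599982600) (nat_lit 16777780) (.two (nat_lit 156367847429) (nat_lit 11492393553) (.two (nat_lit 156367847429) (nat_lit 822084409) (.two (nat_lit 37748737) (nat_lit 16778770) (.two (nat_lit 4194304) (nat_lit 2902460146) (.one (nat_lit 218105393) .nil))))))))),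
   .two (nat_lit 159251431586) (nat_lit 166229704743) (.two (nat_lit 20638072845) (nat_lit 839909968) (.two (nat_lit 4194304) (nat_lit 1050365) .nil)),
   .two (nat_lit 21811429415) (nat_lit 12624855079) (.two (nat_lit 16777223) (nat_lit 184987681360) (.two (nat_lit 2097152) (nat_lit 8390398) .nil)),
   .two (nat_lit 16777305) (nat_lit 28093448284) (.two (nat_lit 75497492) (nat_lit 620757516) (.two (nat_lit 16777278) (nat_lit 1753219253) (.two (nat_lit 1753219087) (nat_lit 11559502400) (.two (nat_lit 16777231) (nat_lit 13228835005) (.two (nat_lit 1753219080) (nat_lit 16778049) (.two (nat_lit 183853121540) (nat_lit 285213776) (.two (nat_lit 183853121539) (nat_lit 620757839) (.two (nat_lit 41943041) (nat_lit 285214262) (.two (nat_lit 8388608) (nat_lit 16778810) (.one (nat_lit 16779135) .nil)))))))))),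
   .two (nat_lit 687865876) (nat_lit 708837567) (.two (nat_lit 822083599) (nat_lit 157038936252) (.two (nat_lit 46409973764) (nat_lit 20719862873) (.two (nat_lit 4194305) (nat_lit 20719862873) (.one (nat_lit 16779012) .nil)))),
   .two (nat_lit 46523220007) (nat_lit 876609576) (.two (nat_lit 3460300808) (nat_lit 1191182929) (.two (nat_lit 8388608) (nat_lit 1050367) .nil)),
   .two (nat_lit 8388647) (nat_lit 11513364519) (.two (nat_lit 1277165576) (nat_lit 10506732109) (.two (nat_lit 2097152) (nat_lit 4196096) .nil)),
   .two (nat_lit 41943079) (nat_lit 654311464) (.two (nat_lit 16777224) (nat_lit 1947206221) (.two (nat_lit 2097152) (nat_lit 8390401) .nil)),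
   .two (nat_lit 20738736167) (nat_lit 4030726183) (.two (nat_lit 10370416648) (nat_lit 104858192) (.two (nat_lit 16777216) (nat_lit 1914701375) .nil)),
   .two (nat_lit 343932967) (nat_lit 20637024295) (.two (nat_lit 16777223) (nat_lit 10537140813) (.two (nat_lit 16777216) (nat_lit 4196098) .nil)),
   .two (nat_lit 11479810067) (nat_lit 174752530620) (.two (nat_lit 11476664322) (nat_lit 8389985) (.one (nat_lit 1050497) .nil)),
   .two (nat_lit 4638900244) (nat_lit 1947205820) (.two (nat_lit 705691652) (nat_lit 46414169176) (.one (nat_lit 8390530) .nil)),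
   .two (nat_lit 11559501845) (nat_lit 673185980) (.two (nat_lit 169869314) (nat_lit 1426064471) (.one (nat_lit 16779142) .nil)),
   .two (nat_lit 620757007) (nat_lit 9765388329) (.two (nat_lit 612368392) (nat_lit 156364701804) (.two (nat_lit 176160773) (nat_lit 20637024426) (.two (nat_lit 176160773) (nat_lit 9781117019) (.two (nat_lit 2097153) (nat_lit 1049340) (.two (nat_lit 8388608) (nat_lit 1049860) (.one (nat_lit 16779020) .nil)))))),
   .two (nat_lit 2887778319) (nat_lit 10338959375) (.two (nat_lit 9948889096) (nat_lit 34603116) (.two (nat_lit 203423749) (nat_lit 37249614091) (.two (nat_lit 50331649) (nat_lit 1049714) (.two (nat_lit 16777216) (nat_lit 21207450882) (.one (nat_lit 16779104) .nil))))),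
   .two (nat_lit 18933088271) (nat_lit 4194535) (.two (nat_lit 47584378893) (nat_lit 276824590) (.two (nat_lit 4194305) (nat_lit 880804875) (.two (nat_lit 2097152) (nat_lit 1050199) (.one (nat_lit 1050506) .nil)))),
   .two (nat_lit 8388623) (nat_lit 16777323) (.two (nat_lit 8388616) (nat_lit 117440951) (.two (nat_lit 41943045) (nat_lit 9948889818) (.two (nat_lit 50331649) (nat_lit 10343154702) (.two (nat_lit 16777216) (nat_lit 1050398) .nil)))),
   .two (nat_lit 50331663) (nat_lit 11618222143) (.two (nat_lit 50331656) (nat_lit 11484004744) (.two (nat_lit 16777220) (nat_lit 8389514) (.two (nat_lit 16777217) (nat_lit 8390004) (.two (nat_lit 16777216) (nat_lit 8390232) (.one (nat_lit 8390539) .nil))))),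
   .two (nat_lit 1178599439) (nat_lit 11517558849) (.two (nat_lit 12117344264) (nat_lit 813695695) (.two (nat_lit 37748737) (nat_lit 8389802) (.two (nat_lit 4194304) (nat_lit 8390081) (.one (nat_lit 4196133) .nil)))),
   .two (nat_lit 4194319) (nat_lit 166130090048) (.two (nat_lit 166130089992) (nat_lit 185020187014) (.two (nat_lit 4194308) (nat_lit 2349859848) (.two (nat_lit 4194304) (nat_lit 46473938213) (.one (nat_lit 1050407) .nil)))),
   .two (nat_lit 203423759) (nat_lit 1795162636) (.two (nat_lit 2097153) (nat_lit 620758302) (.one (nat_lit 16779148) .nil)),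
   .two (nat_lit 50331663) (nat_lit 41943202) (.two (nat_lit 285212677) (nat_lit 645923527) (.two (nat_lit 16777217) (nat_lit 2988442791) (.two (nat_lit 2097152) (nat_lit 16778841) (.one (nat_lit 2099080) .nil)))),
   .two (nat_lit 8388623) (nat_lit 50331753) (.two (nat_lit 50331656) (nat_lit 8388770) (.two (nat_lit 157035790341) (nat_lit 2894070636) (.two (nat_lit 16777217) (nat_lit 8390081) (.one (nat_lit 1050409) .nil)))),
   .two (nat_lit 2961178639) (nat_lit 3558867048) (.two (nat_lit 3525312520) (nat_lit 11014242741) (.two (nat_lit 4599054341) (nat_lit 2961179358) (.two (nat_lit 605028353) (nat_lit 69207044) (.two (nat_lit 2097152) (nat_lit 10000270792) (.one (nat_lit 2098989) .nil))))),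
   .two (nat_lit 8388623) (nat_lit 889192855) (.two (nat_lit 50331653) (nat_lit 13228835509) (.two (nat_lit 620756993) (nat_lit 8389803) (.two (nat_lit 4194304) (nat_lit 16778841) (.one (nat_lit 4196151) .nil)))),
   .two (nat_lit 174752530447) (nat_lit 18933088364) (.two (nat_lit 68157448) (nat_lit 11618223103) (.two (nat_lit 4194304) (nat_lit 158083319243) (.one (nat_lit 8390542) .nil))),
   .two (nat_lit 37748751) (nat_lit 10906239424) (.two (nat_lit 4194308) (nat_lit 174685422604) (.two (nat_lit 2097152) (nat_lit 1050074) (.one (nat_lit 1050511) .nil))),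
   .two (nat_lit 4601151503) (nat_lit 158176641139) (.two (nat_lit 28757196808) (nat_lit 742392419) (.two (nat_lit 2097157) (nat_lit 2353005244) (.two (nat_lit 2097153) (nat_lit 156367848643) (.two (nat_lit 2097152) (nat_lit 4195950) (.one (nat_lit 4196240) .nil))))),
   .two (nat_lit 10343153679) (nat_lit 236978640) (.two (nat_lit 708837381) (nat_lit 9948890138) (.two (nat_lit 2097152) (nat_lit 16778716) (.one (nat_lit 8390545) .nil))),
   .two (nat_lit 8388623) (nat_lit 721420510) (.two (nat_lit 9948889096) (nat_lit 47588573871) (.two (nat_lit 16777217) (nat_lit 34604036) (.two (nat_lit 16777216) (nat_lit 1050096) (.one (nat_lit 1050516) .nil)))),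
   .two (nat_lit 8388623) (nat_lit 2923429951) (.two (nat_lit 8388616) (nat_lit 339739076) (.two (nat_lit 184549380) (nat_lit 9768534540) (.two (nat_lit 16777217) (nat_lit 37750198) (.one (nat_lit 8390549) .nil)))),
   .two (nat_lit 11543773199) (nat_lit 156365750503) (.two (nat_lit 809500680) (nat_lit 165526110828) (.two (nat_lit 620756997) (nat_lit 3525313212) (.two (nat_lit 50331649) (nat_lit 2954888582) (.two (nat_lit 1048576) (nat_lit 2098813) (.one (nat_lit 16779081) .nil))))),
   .two (nat_lit 8388623) (nat_lit 2923429951) (.two (nat_lit 46409973768) (nat_lit 343933090) (.two (nat_lit 713031684) (nat_lit 11614028652) (.two (nat_lit 156367847425) (nat_lit 8389868) (.two (nat_lit 4194304) (nat_lit 8390271) (.one (nat_lit 8390550) .nil))))),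
   .two (nat_lit 9781116943) (nat_lit 46980399208) (.two (nat_lit 18933088264) (nat_lit 3460301197) (.two (nat_lit 4194308) (nat_lit 352322859) (.one (nat_lit 4196247) .nil))),
   .two (nat_lit 2961178639) (nat_lit 166230753386) (.two (nat_lit 184993972232) (nat_lit 183912890803) (.two (nat_lit 806354949) (nat_lit 21818770127) (.two (nat_lit 2097153) (nat_lit 68158613) (.two (nat_lit 2097152) (nat_lit 873465288) (.one (nat_lit 2099028) .nil))))),
   .two (nat_lit 16777231) (nat_lit 41943728) (.two (nat_lit 16777217) (nat_lit 343934188) (.two (nat_lit 16777216) (nat_lit 705693259) (.one (nat_lit 8390552) .nil))),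
   .two (nat_lit 37748751) (nat_lit 21827158127) (.two (nat_lit 203423752) (nat_lit 184549819) (.two (nat_lit 184549378) (nat_lit 2098289) (.two (nat_lit 4194308) (nat_lit 157036839219) (.two (nat_lit 16777217) (nat_lit 4195587) (.two (nat_lit 4194304) (nat_lit 2098484) (.one (nat_lit 2099099) .nil)))))),
   .two (nat_lit 2961178639) (nat_lit 840958078) (.two (nat_lit 612368392) (nat_lit 10335813724) (.two (nat_lit 713031684) (nat_lit 4631561019) (.two (nat_lit 176160773) (nat_lit 165525061813) (.two (nat_lit 41943041) (nat_lit 4631561019) (.two (nat_lit 2097152) (nat_lit 4631561019) (.one (nat_lit 16779098) .nil)))))),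
   .two (nat_lit 2954887183) (nat_lit 1291845696) (.two (nat_lit 1291845640) (nat_lit 1913651591) (.two (nat_lit 9948889093) (nat_lit 34603317) (.two (nat_lit 620756995) (nat_lit 9933161379) (.two (nat_lit 620756993) (nat_lit 1049638) (.two (nat_lit 16777216) (nat_lit 1050253) (.one (nat_lit 1050454) .nil)))))),
   .two (nat_lit 176160783) (nat_lit 1048820) (.two (nat_lit 185002360840) (nat_lit 101712034) (.two (nat_lit 721420293) (nat_lit 101712547) (.two (nat_lit 16777217) (nat_lit 12148802582) (.two (nat_lit 16777216) (nat_lit 101712691) (.one (nat_lit 2099037) .nil))))),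
   .two (nat_lit 285212687) (nat_lit 158146232439) (.two (nat_lit 639631368) (nat_lit 3573547415) (.two (nat_lit 11479810052) (nat_lit 46422557377) (.two (nat_lit 9768534017) (nat_lit 4043310347) (.two (nat_lit 16777216) (nat_lit 2098835) (.one (nat_lit 4196190) .nil))))),
   .two (nat_lit 1178599439) (nat_lit 1914699884) (.two (nat_lit 742391816) (nat_lit 2994733463) (.two (nat_lit 9781116933) (nat_lit 1780482572) (.two (nat_lit 50331649) (nat_lit 169870336) (.two (nat_lit 16777216) (nat_lit 606078238) (.one (nat_lit 2098720) .nil))))),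
   .two (nat_lit 2961178639) (nat_lit 28089253994) (.two (nat_lit 16777224) (nat_lit 174692762022) (.two (nat_lit 16777220) (nat_lit 9933160634) (.two (nat_lit 50331653) (nat_lit 37253808933) (.two (nat_lit 8388609) (nat_lit 28086108724) (.two (nat_lit 8388608) (nat_lit 1049914) (.one (nat_lit 4196191) .nil)))))),
   .two (nat_lit 169869327) (nat_lit 1916797039) (.two (nat_lit 169869320) (nat_lit 2923430281) (.two (nat_lit 2956984325) (nat_lit 11626611212) (.two (nat_lit 2097153) (nat_lit 12062819335) (.two (nat_lit 1048576) (nat_lit 46508541210) (.one (nat_lit 4599055695) .nil))))),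
   .two (nat_lit 713031695) (nat_lit 158077026367) (.two (nat_lit 713031688) (nat_lit 1411383708) (.two (nat_lit 50331653) (nat_lit 11479810572) (.two (nat_lit 50331649) (nat_lit 706741262) (.two (nat_lit 16777216) (nat_lit 158150428075) (.one (nat_lit 8390179) .nil))))),
   .two (nat_lit 47563407424) (nat_lit 10940842085) (.two (nat_lit 18928893967) (nat_lit 12163481864) (.two (nat_lit 2887778312) (nat_lit 13237224111) (.two (nat_lit 1847590917) (nat_lit 9866052606) (.two (nat_lit 620756993) (nat_lit 9802089890) (.two (nat_lit 1048576) (nat_lit 4196115) (.one (nat_lit 1050538) .nil)))))),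
   .two (nat_lit 184986632256) (nat_lit 16777328) (.two (nat_lit 4194319) (nat_lit 620757784) (.two (nat_lit 4194305) (nat_lit 11476665761) (.two (nat_lit 1048576) (nat_lit 4196116) (.one (nat_lit 873465763) .nil)))),
   .two (nat_lit 20737687615) (nat_lit 20738736192) (.two (nat_lit 1277165583) (nat_lit 8388873) (.two (nat_lit 4194312) (nat_lit 13228835503) (.two (nat_lit 159216828421) (nat_lit 2098175) (.two (nat_lit 156364701697) (nat_lit 9869198620) (.two (nat_lit 2097152) (nat_lit 4196000) (.one (nat_lit 4196267) .nil)))))),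
   .two (nat_lit 11479810113) (nat_lit 3464495212) (.two (nat_lit 272629775) (nat_lit 3464495485) (.two (nat_lit 272629768) (nat_lit 3028288170) (.two (nat_lit 4194308) (nat_lit 3028288792) (.two (nat_lit 4194304) (nat_lit 183853123093) (.one (nat_lit 4196268) .nil))))),
   .two (nat_lit 158176641089) (nat_lit 20705181803) (.two (nat_lit 10506731535) (nat_lit 2954887330) (.two (nat_lit 2954887176) (nat_lit 876610062) (.two (nat_lit 2097157) (nat_lit 9802089472) (.two (nat_lit 34603009) (nat_lit 19530777883) (.two (nat_lit 1048576) (nat_lit 2098850) (.one (nat_lit 4196269) .nil)))))),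
   .two (nat_lit 8388670) (nat_lit 4194505) (.two (nat_lit 13191086095) (nat_lit 41943202) (.two (nat_lit 813694984) (nat_lit 13224641186) (.two (nat_lit 18928893957) (nat_lit 8389771) (.two (nat_lit 4194305) (nat_lit 8390215) (.two (nat_lit 2097152) (nat_lit 8390307) (.one (nat_lit 8390574) .nil)))))),
   .two (nat_lit 1343225921) (nat_lit 1384120482) (.two (nat_lit 4194312) (nat_lit 10007610018) (.two (nat_lit 183853121540) (nat_lit 806355967) (.two (nat_lit 605028353) (nat_lit 185023333798) (.two (nat_lit 1048576) (nat_lit 4195998) (.one (nat_lit 1050543) .nil))))),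
   .two (nat_lit 8388670) (nat_lit 4601151650) (.two (nat_lit 41943048) (nat_lit 37749422) (.two (nat_lit 8388612) (nat_lit 4195468) (.two (nat_lit 8388609) (nat_lit 4195754) (.two (nat_lit 1048576) (nat_lit 4196005) (.one (nat_lit 1050544) .nil))))),
   .two (nat_lit 285212734) (nat_lit 11513364544) (.two (nat_lit 183848927247) (nat_lit 9781117721) (.two (nat_lit 37748737) (nat_lit 1291847189) (.one (nat_lit 4196273) .nil))),
   .two (nat_lit 8388670) (nat_lit 4601151550) (.two (nat_lit 8388623) (nat_lit 11513365159) (.two (nat_lit 8388612) (nat_lit 13224641814) (.two (nat_lit 8388608) (nat_lit 205522454) (.one (nat_lit 4196274) .nil)))),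
   .two (nat_lit 8388670) (nat_lit 3527409790) (.two (nat_lit 1178599439) (nat_lit 3565158821) (.two (nat_lit 2969567240) (nat_lit 1780482572) (.two (nat_lit 184549380) (nat_lit 37750046) (.two (nat_lit 2097152) (nat_lit 4196017) (.one (nat_lit 16779192) .nil))))),
   .two (nat_lit 8388670) (nat_lit 4601151650) (.two (nat_lit 8388616) (nat_lit 239076015) (.two (nat_lit 2894069765) (nat_lit 1178600589) (.two (nat_lit 8388609) (nat_lit 4195754) (.two (nat_lit 1048576) (nat_lit 4196005) (.one (nat_lit 1050553) .nil))))),
   .two (nat_lit 2954887230) (nat_lit 843055230) (.two (nat_lit 713031695) (nat_lit 12050235916) (.two (nat_lit 713031684) (nat_lit 21208499202) (.two (nat_lit 612368385) (nat_lit 10338960670) (.two (nat_lit 8388608) (nat_lit 3036677786) (.one (nat_lit 4196282) .nil))))),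
   .two (nat_lit 8388670) (nat_lit 9866051703) (.two (nat_lit 2887778319) (nat_lit 47555019015) (.two (nat_lit 2887778312) (nat_lit 28764537524) (.two (nat_lit 2887778308) (nat_lit 235930624) (.two (nat_lit 2097153) (nat_lit 672138526) (.two (nat_lit 2097152) (nat_lit 1050400) (.one (nat_lit 2099131) .nil)))))),
   .two (nat_lit 318767168) (nat_lit 10343153766) (.two (nat_lit 10343153679) (nat_lit 855638278) (.two (nat_lit 4613734408) (nat_lit 8389339) (.two (nat_lit 270532613) (nat_lit 9881781262) (.two (nat_lit 16777217) (nat_lit 269485474) (.two (nat_lit 1048576) (nat_lit 2098868) (.one (nat_lit 1050556) .nil)))))),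
   .two (nat_lit 8388670) (nat_lit 13224640635) (.two (nat_lit 41943055) (nat_lit 3527409826) (.two (nat_lit 4194312) (nat_lit 47555019448) (.two (nat_lit 2894069765) (nat_lit 11479811213) (.two (nat_lit 8388609) (nat_lit 205522346) (.two (nat_lit 1048576) (nat_lit 813696670) (.one (nat_lit 1050559) .nil)))))),
   .two (nat_lit 9934209089) (nat_lit 156535619649) (.two (nat_lit 41943055) (nat_lit 3527409826) (.two (nat_lit 1277165576) (nat_lit 156573368846) (.two (nat_lit 1277165572) (nat_lit 158150427658) (.two (nat_lit 9766436865) (nat_lit 3565159846) (.two (nat_lit 2097152) (nat_lit 813696670) (.one (nat_lit 4196288) .nil)))))),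
   .two (nat_lit 272629822) (nat_lit 1753219173) (.two (nat_lit 176160783) (nat_lit 46407877075) (.two (nat_lit 37748744) (nat_lit 11618222754) (.two (nat_lit 4605345797) (nat_lit 69207050) (.two (nat_lit 4194305) (nat_lit 21812479398) (.two (nat_lit 2097152) (nat_lit 4195998) (.one (nat_lit 11551115189) .nil)))))),
   .two (nat_lit 272629822) (nat_lit 12054429800) (.two (nat_lit 8388623) (nat_lit 708837774) (.two (nat_lit 4194312) (nat_lit 11618222759) (.two (nat_lit 101711877) (nat_lit 10439623690) (.two (nat_lit 37748737) (nat_lit 11551114691) (.two (nat_lit 1048576) (nat_lit 4195998) (.one (nat_lit 8390593) .nil)))))),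
   .two (nat_lit 2969567294) (nat_lit 343933043) (.two (nat_lit 2969567247) (nat_lit 165532402054) (.two (nat_lit 13195280392) (nat_lit 10385097412) (.two (nat_lit 8388612) (nat_lit 654312216) (.two (nat_lit 41943041) (nat_lit 654312869) (.two (nat_lit 4194304) (nat_lit 880805534) (.one (nat_lit 4196299) .nil)))))),
   .two (nat_lit 272629822) (nat_lit 10537140354) (.two (nat_lit 713031695) (nat_lit 46406828499) (.two (nat_lit 4194312) (nat_lit 343933720) (.two (nat_lit 4194305) (nat_lit 780141867) (.two (nat_lit 1048576) (nat_lit 11546920610) (.one (nat_lit 1050572) .nil))))),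
   .two (nat_lit 2954887230) (nat_lit 46414168168) (.two (nat_lit 75497487) (nat_lit 20637024723) (.two (nat_lit 169869320) (nat_lit 343933607) (.two (nat_lit 159224168453) (nat_lit 34604042) (.two (nat_lit 2097153) (nat_lit 276825514) (.two (nat_lit 1048576) (nat_lit 606078622) (.one (nat_lit 8390605) .nil)))))),
   .two (nat_lit 2923429952) (nat_lit 754974827) (.two (nat_lit 11492392975) (nat_lit 9802088972) (.two (nat_lit 4601151493) (nat_lit 166211880228) (.two (nat_lit 4194304) (nat_lit 16778777) (.one (nat_lit 654313316) .nil)))),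
   .two (nat_lit 3028287553) (nat_lit 18928894196) (.two (nat_lit 8388623) (nat_lit 28693234040) (.two (nat_lit 8388616) (nat_lit 1916797453) (.two (nat_lit 4194308) (nat_lit 2894071081) (.two (nat_lit 4194304) (nat_lit 8390337) (.one (nat_lit 8390606) .nil))))),
   .two (nat_lit 47582281792) (nat_lit 1191182453) (.two (nat_lit 721420303) (nat_lit 35652295) (.two (nat_lit 183853121540) (nat_lit 10001318914) (.two (nat_lit 41943041) (nat_lit 2921334195) (.two (nat_lit 2097152) (nat_lit 8390338) (.one (nat_lit 10947135499) .nil))))),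
   .two (nat_lit 8388670) (nat_lit 236978241) (.two (nat_lit 11551113231) (nat_lit 12147753222) (.two (nat_lit 2961178632) (nat_lit 47582282403) (.two (nat_lit 176160772) (nat_lit 19027461136) (.two (nat_lit 8388609) (nat_lit 270534102) (.two (nat_lit 8388608) (nat_lit 2886731421) (.one (nat_lit 1050575) .nil)))))),
   .two (nat_lit 272629822) (nat_lit 1947205762) (.two (nat_lit 9866051599) (nat_lit 12624855483) (.two (nat_lit 4194312) (nat_lit 1417675426) (.two (nat_lit 10939793413) (nat_lit 2956985370) (.two (nat_lit 37748737) (nat_lit 806356404) (.two (nat_lit 1048576) (nat_lit 4196149) (.one (nat_lit 1050576) .nil)))))),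
   .two (nat_lit 4605345854) (nat_lit 2349858927) (.two (nat_lit 9768534031) (nat_lit 3457155598) (.two (nat_lit 2889875460) (nat_lit 839910404) (.two (nat_lit 156364701697) (nat_lit 183949592004) (.two (nat_lit 1048576) (nat_lit 11479811766) (.one (nat_lit 1050578) .nil))))),
   .two (nat_lit 3525312574) (nat_lit 184419352692) (.two (nat_lit 4194319) (nat_lit 19027460620) (.two (nat_lit 4194308) (nat_lit 156533523224) (.two (nat_lit 4194305) (nat_lit 21208499736) (.one (nat_lit 2099155) .nil)))),
   .two (nat_lit 310378560) (nat_lit 2349858927) (.two (nat_lit 9768534031) (nat_lit 3457155598) (.two (nat_lit 2889875460) (nat_lit 839910404) (.two (nat_lit 34603009) (nat_lit 11479811766) (.one (nat_lit 4196308) .nil)))),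
   .two (nat_lit 1358954561) (nat_lit 46510637161) (.two (nat_lit 2889875471) (nat_lit 9881780748) (.two (nat_lit 1358954501) (nat_lit 4195356) (.two (nat_lit 9781116929) (nat_lit 46980400408) (.two (nat_lit 4194304) (nat_lit 16778947) (.one (nat_lit 4196309) .nil))))),
   .two (nat_lit 8388670) (nat_lit 13224640642) (.two (nat_lit 612368399) (nat_lit 4599054736) (.two (nat_lit 9940500488) (nat_lit 159251432098) (.two (nat_lit 183848927236) (nat_lit 109052942) (.two (nat_lit 156367847425) (nat_lit 176162467) (.one (nat_lit 4196291) .nil))))),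
   .two (nat_lit 9934209089) (nat_lit 10007609469) (.two (nat_lit 1277165583) (nat_lit 156539814311) (.two (nat_lit 37748744) (nat_lit 10007610137) (.two (nat_lit 9768534017) (nat_lit 4632610409) (.two (nat_lit 2097152) (nat_lit 13224642241) (.one (nat_lit 2099140) .nil))))),
   .two (nat_lit 1277165632) (nat_lit 1048823) (.two (nat_lit 809500687) (nat_lit 3020947921) (.two (nat_lit 809500680) (nat_lit 4631560909) (.two (nat_lit 16777220) (nat_lit 9967764482) (.two (nat_lit 16777217) (nat_lit 168822054) (.two (nat_lit 16777216) (nat_lit 1050308) (.one (nat_lit 4196310) .nil)))))),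
   .two (nat_lit 2954887230) (nat_lit 158150426742) (.two (nat_lit 1916796943) (nat_lit 1350566327) (.two (nat_lit 606076936) (nat_lit 1417675426) (.two (nat_lit 46414168068) (nat_lit 1279263745) (.two (nat_lit 2097153) (nat_lit 71304668) (.two (nat_lit 4194304) (nat_lit 203425478) (.one (nat_lit 205522895) .nil)))))),
   .two (nat_lit 205520959) (nat_lit 166230753386) (.two (nat_lit 9768534031) (nat_lit 28697428237) (.two (nat_lit 10504634376) (nat_lit 166237045474) (.two (nat_lit 708837381) (nat_lit 2961179851) (.two (nat_lit 2097153) (nat_lit 171967788) (.two (nat_lit 2097152) (nat_lit 4196159) (.one (nat_lit 2099176) .nil)))))),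
   .two (nat_lit 276824127) (nat_lit 183949590636) (.two (nat_lit 2887778319) (nat_lit 10506731950) (.two (nat_lit 10504634376) (nat_lit 166237045474) (.two (nat_lit 34603013) (nat_lit 641729546) (.two (nat_lit 37748737) (nat_lit 3021997359) (.two (nat_lit 2097152) (nat_lit 1050432) (.one (nat_lit 4196329) .nil)))))),
   .two (nat_lit 185020186687) (nat_lit 156533522548) (.two (nat_lit 272629775) (nat_lit 2887778695) (.two (nat_lit 272629768) (nat_lit 10001318414) (.two (nat_lit 159216828421) (nat_lit 10538189592) (.two (nat_lit 156364701697) (nat_lit 608175770) (.one (nat_lit 4196331) .nil))))),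
   .two (nat_lit 2954887232) (nat_lit 10436476992) (.two (nat_lit 9934209039) (nat_lit 166196150434) (.two (nat_lit 9934209032) (nat_lit 166196151064) (.two (nat_lit 2097153) (nat_lit 1376781601) (.two (nat_lit 2097152) (nat_lit 68158998) (.one (nat_lit 1050604) .nil))))),
   .two (nat_lit 9948889153) (nat_lit 174686470250) (.two (nat_lit 10336862223) (nat_lit 10385097228) (.two (nat_lit 46407876612) (nat_lit 184550417) (.two (nat_lit 2097153) (nat_lit 285214451) .nil))),
   .two (nat_lit 272629822) (nat_lit 310378611) (.two (nat_lit 20644364303) (nat_lit 47582281890) (.two (nat_lit 3525312520) (nat_lit 608174791) (.two (nat_lit 46407876612) (nat_lit 1279263758) (.two (nat_lit 612368385) (nat_lit 205522220) (.two (nat_lit 8388608) (nat_lit 2098904) (.one (nat_lit 8390637) .nil)))))),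
   .two (nat_lit 2969567294) (nat_lit 1310720064) (.two (nat_lit 2969567247) (nat_lit 69206403) (.two (nat_lit 20638072840) (nat_lit 9948889764) (.two (nat_lit 159217876997) (nat_lit 9948890105) (.two (nat_lit 606076929) (nat_lit 9781118447) (.two (nat_lit 2097152) (nat_lit 285214422) (.one (nat_lit 16779246) .nil)))))),
   .two (nat_lit 176160832) (nat_lit 12620660857) (.two (nat_lit 176160783) (nat_lit 4194793) (.two (nat_lit 176160776) (nat_lit 239075854) (.two (nat_lit 8388613) (nat_lit 2990539774) (.two (nat_lit 620756993) (nat_lit 645924506) (.one (nat_lit 8390639) .nil))))),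
   .two (nat_lit 50331713) (nat_lit 10343153766) (.two (nat_lit 156372041743) (nat_lit 83886604) (.two (nat_lit 3464495109) (nat_lit 11559503128) (.two (nat_lit 8388608) (nat_lit 50333426) .nil))),
   .two (nat_lit 8388670) (nat_lit 156971827316) (.two (nat_lit 8388623) (nat_lit 157038936454) (.two (nat_lit 8388616) (nat_lit 157038936771) (.two (nat_lit 41943045) (nat_lit 10909385925) (.two (nat_lit 37748737) (nat_lit 168822363) (.two (nat_lit 1048576) (nat_lit 8390361) (.one (nat_lit 1050608) .nil)))))),
   .two (nat_lit 46409973825) (nat_lit 1191182441) (.two (nat_lit 4601151503) (nat_lit 117441036) (.two (nat_lit 4194308) (nat_lit 10385098009) (.two (nat_lit 4194304) (nat_lit 16778970) (.one (nat_lit 16779249) .nil)))),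
   .two (nat_lit 46978302017) (nat_lit 1291845739) (.two (nat_lit 3525312527) (nat_lit 9881780749) (.two (nat_lit 2887778308) (nat_lit 1191183641) (.two (nat_lit 2097152) (nat_lit 654313133) (.one (nat_lit 16779250) .nil)))),
   .two (nat_lit 16777278) (nat_lit 46414168129) (.two (nat_lit 4605345807) (nat_lit 83886873) (.two (nat_lit 8388609) (nat_lit 9781118489) (.one (nat_lit 16779251) .nil))),
   .two (nat_lit 1358954561) (nat_lit 46977253505) (.two (nat_lit 10385096719) (nat_lit 606077454) (.two (nat_lit 806354949) (nat_lit 754976024) (.two (nat_lit 1048576) (nat_lit 83887636) (.one (nat_lit 16779125) .nil)))),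
   .two (nat_lit 2954887230) (nat_lit 10439622720) (.two (nat_lit 2954887183) (nat_lit 10439623180) (.two (nat_lit 169869316) (nat_lit 20644365314) (.two (nat_lit 2097153) (nat_lit 4601152795) (.two (nat_lit 16777216) (nat_lit 20707280667) (.one (nat_lit 2099189) .nil))))),
   .two (nat_lit 8388670) (nat_lit 47548727458) (.two (nat_lit 75497480) (nat_lit 184987681479) (.two (nat_lit 11476664324) (nat_lit 20638074032) (.two (nat_lit 8388609) (nat_lit 169870762) (.two (nat_lit 1048576) (nat_lit 169871013) (.one (nat_lit 1050614) .nil))))),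
   .two (nat_lit 8388670) (nat_lit 4601151650) (.two (nat_lit 713031688) (nat_lit 21781021383) (.two (nat_lit 713031684) (nat_lit 156569175236) (.two (nat_lit 8388609) (nat_lit 4195754) (.two (nat_lit 1048576) (nat_lit 4196005) (.one (nat_lit 705693686) .nil))))),
   .two (nat_lit 8388673) (nat_lit 1749024869) (.two (nat_lit 21793603599) (nat_lit 21811429538) (.two (nat_lit 83886088) (nat_lit 1343226380) (.two (nat_lit 620756997) (nat_lit 1343226648) (.two (nat_lit 50331649) (nat_lit 11510220058) (.two (nat_lit 16777216) (nat_lit 2894071472) (.one (nat_lit 4196086) .nil)))))),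
   .two (nat_lit 12117344274) (nat_lit 12617515111) (.two (nat_lit 19599982603) (nat_lit 1376780451) (.two (nat_lit 11479810054) (nat_lit 1048759) (.two (nat_lit 11479810050) (nat_lit 1049370) (.two (nat_lit 1178599427) (nat_lit 1048913) (.two (nat_lit 9768534017) (nat_lit 1049662) (.two (nat_lit 4194304) (nat_lit 1049926) (.one (nat_lit 1050615) .nil))))))),
   .two (nat_lit 2902458432) (nat_lit 1176502401) (.two (nat_lit 9781116943) (nat_lit 336593169) (.two (nat_lit 742391816) (nat_lit 1962934582) (.two (nat_lit 708837381) (nat_lit 11559502163) (.two (nat_lit 2097153) (nat_lit 4195138) (.two (nat_lit 2097152) (nat_lit 1050345) (.one (nat_lit 4196214) .nil)))))),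
   .two (nat_lit 8388646) (nat_lit 10003415247) (.two (nat_lit 8388623) (nat_lit 183848927682) (.two (nat_lit 4194310) (nat_lit 3028288201) (.two (nat_lit 37748744) (nat_lit 1417675058) (.two (nat_lit 19532873733) (nat_lit 639632152) (.two (nat_lit 4194305) (nat_lit 236979497) (.two (nat_lit 8388608) (nat_lit 4195871) (.one (nat_lit 4196349) .nil))))))),
   .two (nat_lit 46409973825) (nat_lit 102760564) (.two (nat_lit 4601151503) (nat_lit 1344274727) (.two (nat_lit 3525312520) (nat_lit 4195247) (.two (nat_lit 2887778306) (nat_lit 4195117) (.two (nat_lit 2887778308) (nat_lit 18928894290) (.two (nat_lit 16777217) (nat_lit 2098474) (.two (nat_lit 16777216) (nat_lit 2098873) (.one (nat_lit 2099064) .nil))))))),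
   .two (nat_lit 8388670) (nat_lit 10001318150) (.two (nat_lit 612368399) (nat_lit 3020948151) (.two (nat_lit 12050235400) (nat_lit 101712664) (.two (nat_lit 2887778308) (nat_lit 1175455006) (.two (nat_lit 4194305) (nat_lit 10369369776) (.two (nat_lit 2097152) (nat_lit 4195668) (.one (nat_lit 1050632) .nil)))))),
   .two (nat_lit 158158815250) (nat_lit 166196150534) (.two (nat_lit 1779433487) (nat_lit 2969567413) (.two (nat_lit 1291845640) (nat_lit 166196150460) (.two (nat_lit 654311429) (nat_lit 166196151090) (.two (nat_lit 620756993) (nat_lit 21811430488) (.two (nat_lit 1048576) (nat_lit 1325401176) (.one (nat_lit 1050490) .nil)))))),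
   .two (nat_lit 2988441664) (nat_lit 1929380021) (.two (nat_lit 50331663) (nat_lit 813695157) (.two (nat_lit 50331656) (nat_lit 47582281916) (.two (nat_lit 1191182341) (nat_lit 2988442447) (.two (nat_lit 8388609) (nat_lit 2988442447) (.two (nat_lit 16777216) (nat_lit 2098517) (.one (nat_lit 2099215) .nil)))))),
   .two (nat_lit 4194323) (nat_lit 156969730229) (.two (nat_lit 4194323) (nat_lit 156969730229) (.two (nat_lit 2097165) (nat_lit 156581757116) (.two (nat_lit 171966469) (nat_lit 19530777394) (.two (nat_lit 4194305) (nat_lit 183946446164) (.two (nat_lit 4194304) (nat_lit 1049689) (.one (nat_lit 1050491) .nil)))))),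
   .two (nat_lit 276824082) (nat_lit 37262196919) (.two (nat_lit 2969567247) (nat_lit 807403858) (.two (nat_lit 620756997) (nat_lit 1746928717) (.two (nat_lit 606076929) (nat_lit 1853883481) (.one (nat_lit 16779133) .nil)))),
   .two (nat_lit 2954887230) (nat_lit 158143086780) (.two (nat_lit 1913651205) (nat_lit 47550825813) (.one (nat_lit 1050501) .nil)),
   .two (nat_lit 205520914) (nat_lit 11559502012) (.two (nat_lit 721420290) (nat_lit 4195885) (.one (nat_lit 16779288) .nil)),
   .two (nat_lit 4638900242) (nat_lit 19597886021) (.two (nat_lit 46414168066) (nat_lit 2098267) (.one (nat_lit 2099227) .nil)),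
   .two (nat_lit 276824079) (nat_lit 10909384810) (.two (nat_lit 8388616) (nat_lit 20637024649) (.two (nat_lit 8388612) (nat_lit 1309671606) (.two (nat_lit 8388612) (nat_lit 876610598) (.two (nat_lit 4194305) (nat_lit 28790752581) (.two (nat_lit 4194304) (nat_lit 1050260) (.one (nat_lit 1050525) .nil)))))),
   .two (nat_lit 4605345807) (nat_lit 1746927724) (.two (nat_lit 813694984) (nat_lit 620757396) (.two (nat_lit 46409973765) (nat_lit 169870045) (.two (nat_lit 4194305) (nat_lit 11611931825) (.two (nat_lit 4194304) (nat_lit 2098245) (.one (nat_lit 2098926) .nil))))),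
   .two (nat_lit 620757007) (nat_lit 1276117055) (.two (nat_lit 612368392) (nat_lit 10338959622) (.two (nat_lit 713031685) (nat_lit 3457155767) (.two (nat_lit 41943041) (nat_lit 165525062850) (.two (nat_lit 16777216) (nat_lit 1050120) (.one (nat_lit 16778991) .nil))))),
   .two (nat_lit 9948889103) (nat_lit 34603116) (.two (nat_lit 639631368) (nat_lit 675283206) (.two (nat_lit 1277165573) (nat_lit 4195243) (.two (nat_lit 50331649) (nat_lit 21207450882) (.two (nat_lit 16777216) (nat_lit 1050382) (.one (nat_lit 16779104) .nil))))),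
   .two (nat_lit 4194319) (nat_lit 46481277054) (.two (nat_lit 4194312) (nat_lit 176161051) (.two (nat_lit 4194312) (nat_lit 1216348252) (.two (nat_lit 4194306) (nat_lit 1049508) (.two (nat_lit 4194308) (nat_lit 1209008441) (.two (nat_lit 4194305) (nat_lit 1049645) (.two (nat_lit 4194304) (nat_lit 1050121) (.one (nat_lit 4196193) .nil))))))),
   .two (nat_lit 16777231) (nat_lit 183946444864) (.two (nat_lit 16777224) (nat_lit 269484295) (.two (nat_lit 8388612) (nat_lit 156365750797) (.two (nat_lit 612368385) (nat_lit 50332867) (.two (nat_lit 16777216) (nat_lit 2098704) (.one (nat_lit 16778579) .nil))))),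
   .two (nat_lit 8388670) (nat_lit 9799991401) (.two (nat_lit 176160783) (nat_lit 13237223686) (.two (nat_lit 612368392) (nat_lit 4028629700) (.two (nat_lit 176160772) (nat_lit 46474986265) (.two (nat_lit 16777217) (nat_lit 159257724187) (.two (nat_lit 2097152) (nat_lit 8390537) (.one (nat_lit 8390693) .nil)))))),
   .two (nat_lit 11584667713) (nat_lit 37246468204) (.two (nat_lit 37313577002) (nat_lit 9906946314) (.two (nat_lit 2316304397) (nat_lit 1753219597) (.two (nat_lit 2097157) (nat_lit 1417675776) (.two (nat_lit 2097153) (nat_lit 8390078) (.two (nat_lit 1048576) (nat_lit 8390323) (.one (nat_lit 1050662) .nil)))))),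
   .two (nat_lit 8388670) (nat_lit 1209008233) (.two (nat_lit 176160783) (nat_lit 721420553) (.two (nat_lit 612368392) (nat_lit 184416207373) (.two (nat_lit 612368389) (nat_lit 19612566529) (.two (nat_lit 8388609) (nat_lit 16778838) (.two (nat_lit 16777216) (nat_lit 68159262) (.one (nat_lit 1050663) .nil)))))),
   .two (nat_lit 343932991) (nat_lit 306184255) (.two (nat_lit 1350565903) (nat_lit 185020186887) (.two (nat_lit 183853121544) (nat_lit 876610222) (.two (nat_lit 4605345797) (nat_lit 272630949) (.two (nat_lit 37748737) (nat_lit 605029662) (.two (nat_lit 1048576) (nat_lit 4196027) (.one (nat_lit 4196393) .nil)))))),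
   .two (nat_lit 4028629055) (nat_lit 20704133223) (.two (nat_lit 37748751) (nat_lit 174685422287) (.two (nat_lit 4194308) (nat_lit 12617516201) (.two (nat_lit 4194305) (nat_lit 1050218) (.two (nat_lit 1048576) (nat_lit 2099085) (.one (nat_lit 2099153) .nil))))),
   .two (nat_lit 8388670) (nat_lit 19026411651) (.two (nat_lit 8388623) (nat_lit 166245433954) (.two (nat_lit 184549384) (nat_lit 276825292) (.two (nat_lit 16777217) (nat_lit 20737689034) (.two (nat_lit 8388608) (nat_lit 16779062) (.one (nat_lit 8390701) .nil))))),
   .two (nat_lit 46414168128) (nat_lit 21811429501) (.two (nat_lit 10343153679) (nat_lit 168821202) (.two (nat_lit 68157448) (nat_lit 156372042252) (.two (nat_lit 18933088261) (nat_lit 135267348) (.two (nat_lit 4194305) (nat_lit 158653744411) (.two (nat_lit 4194304) (nat_lit 142608027) (.one (nat_lit 1050670) .nil)))))),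
   .two (nat_lit 2969567296) (nat_lit 174686470252) (.two (nat_lit 2969567247) (nat_lit 1176502730) (.two (nat_lit 218103816) (nat_lit 9766437777) (.two (nat_lit 4599054341) (nat_lit 1291846936) (.two (nat_lit 1048576) (nat_lit 721421843) (.one (nat_lit 16779123) .nil))))),
   .two (nat_lit 343932992) (nat_lit 9966714945) (.two (nat_lit 41943055) (nat_lit 336593361) (.two (nat_lit 41943048) (nat_lit 47581233869) (.two (nat_lit 184549380) (nat_lit 202376676) (.two (nat_lit 1048576) (nat_lit 4196243) (.one (nat_lit 1050602) .nil))))),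
   .two (nat_lit 159217877057) (nat_lit 18933088361) (.two (nat_lit 13191086095) (nat_lit 10343154698) (.two (nat_lit 4194305) (nat_lit 343934647) (.one (nat_lit 2099251) .nil))),
   .two (nat_lit 2954887230) (nat_lit 2994733159) (.two (nat_lit 101711887) (nat_lit 4599054803) (.two (nat_lit 21785214984) (nat_lit 1310720940) (.two (nat_lit 20644364292) (nat_lit 202376192) (.two (nat_lit 34603009) (nat_lit 606078252) (.two (nat_lit 1048576) (nat_lit 2099009) (.one (nat_lit 1050612) .nil)))))),
   .two (nat_lit 8388670) (nat_lit 672137281) (.two (nat_lit 41943055) (nat_lit 2987393287) (.two (nat_lit 47563407368) (nat_lit 2961179793) (.two (nat_lit 16777217) (nat_lit 1343227344) (.two (nat_lit 1048576) (nat_lit 16779074) (.one (nat_lit 4196399) .nil))))),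
   .two (nat_lit 8388670) (nat_lit 159232557318) (.two (nat_lit 8388616) (nat_lit 11626611409) (.two (nat_lit 184549380) (nat_lit 46409974782) (.two (nat_lit 9765388289) (nat_lit 3028289124) (.two (nat_lit 16777216) (nat_lit 1050435) (.one (nat_lit 1050672) .nil))))),
   .two (nat_lit 272629822) (nat_lit 1913651308) (.two (nat_lit 272629775) (nat_lit 10335814243) (.two (nat_lit 4194312) (nat_lit 4605346488) (.two (nat_lit 1745879045) (nat_lit 171967487) (.two (nat_lit 37748737) (nat_lit 9933161936) (.two (nat_lit 1048576) (nat_lit 4196059) (.one (nat_lit 4196404) .nil)))))),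
   .two (nat_lit 8388670) (nat_lit 46409973824) (.two (nat_lit 4605345807) (nat_lit 11513364746) (.two (nat_lit 41943048) (nat_lit 876610488) (.two (nat_lit 713031684) (nat_lit 11614029167) (.two (nat_lit 156367847425) (nat_lit 713033288) (.two (nat_lit 4194304) (nat_lit 8390468) (.one (nat_lit 4196405) .nil)))))),
   .two (nat_lit 169869375) (nat_lit 218103872) (.two (nat_lit 4194319) (nat_lit 3472884099) (.two (nat_lit 4194312) (nat_lit 47596962716) (.two (nat_lit 4194308) (nat_lit 18926797600) (.two (nat_lit 37748739) (nat_lit 1049792) (.two (nat_lit 9781116929) (nat_lit 1050112) (.two (nat_lit 16777216) (nat_lit 1050521) (.one (nat_lit 1050678) .nil))))))),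
   .two (nat_lit 2887778367) (nat_lit 20753416256) (.two (nat_lit 1291845647) (nat_lit 2886729991) (.two (nat_lit 2887778312) (nat_lit 166245433868) (.two (nat_lit 2097157) (nat_lit 21223179271) (.two (nat_lit 2097153) (nat_lit 10552869687) (.two (nat_lit 1048576) (nat_lit 8390554) (.one (nat_lit 8390649) .nil)))))),
   .two (nat_lit 4194367) (nat_lit 19142803521) (.two (nat_lit 2902458383) (nat_lit 1048839) (.two (nat_lit 2902458376) (nat_lit 2886730422) (.two (nat_lit 4194308) (nat_lit 12114198864) (.two (nat_lit 4194308) (nat_lit 11510219316) (.two (nat_lit 4194305) (nat_lit 13222544181) (.two (nat_lit 16777216) (nat_lit 2099031) (.one (nat_lit 2099194) .nil))))))),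
   .two (nat_lit 169869330) (nat_lit 20753416295) (.two (nat_lit 169869416) (nat_lit 1862271013) (.two (nat_lit 2954887183) (nat_lit 28806480306) (.two (nat_lit 9781116936) (nat_lit 11546919225) (.two (nat_lit 37748744) (nat_lit 13237223731) (.two (nat_lit 184549378) (nat_lit 2098755) (.two (nat_lit 218103813) (nat_lit 1178599986) (.two (nat_lit 16777217) (nat_lit 2098690) (.two (nat_lit 2097152) (nat_lit 4196184) (.one (nat_lit 4196408) .nil))))))))),
   .two (nat_lit 8388673) (nat_lit 1749024869) (.two (nat_lit 176160783) (nat_lit 47547679092) (.two (nat_lit 721420296) (nat_lit 1343226380) (.two (nat_lit 50331653) (nat_lit 1343226648) (.two (nat_lit 50331649) (nat_lit 11510220058) (.two (nat_lit 16777216) (nat_lit 2894071472) (.one (nat_lit 4196409) .nil)))))),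
   .two (nat_lit 158075977766) (nat_lit 183913939073) (.two (nat_lit 1745879051) (nat_lit 102761062) (.two (nat_lit 843055128) (nat_lit 46977253545) (.two (nat_lit 705691654) (nat_lit 1780482961) (.two (nat_lit 809500680) (nat_lit 4632609081) (.two (nat_lit 2956984325) (nat_lit 2098200) (.two (nat_lit 4194305) (nat_lit 1050063) (.two (nat_lit 2097152) (nat_lit 1050346) (.one (nat_lit 1050622) .nil)))))))),
   .two (nat_lit 285212734) (nat_lit 4194830) (.two (nat_lit 2902458376) (nat_lit 71304475) (.two (nat_lit 16777217) (nat_lit 606078619) (.two (nat_lit 2097152) (nat_lit 16778993) (.one (nat_lit 2099200) .nil)))),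
   .two (nat_lit 165526110273) (nat_lit 13203669518) (.two (nat_lit 46407876616) (nat_lit 1795163133) (.two (nat_lit 1291845636) (nat_lit 35652891) (.two (nat_lit 2097153) (nat_lit 16778771) (.two (nat_lit 1048576) (nat_lit 10370418688) .nil)))),
   .two (nat_lit 285212737) (nat_lit 19532874108) (.two (nat_lit 2902458383) (nat_lit 9802089240) (.two (nat_lit 4194308) (nat_lit 2969568786) (.two (nat_lit 4194304) (nat_lit 1191184114) (.one (nat_lit 4196357) .nil)))),
   .two (nat_lit 169869375) (nat_lit 10007609868) (.two (nat_lit 4194312) (nat_lit 10007610136) (.two (nat_lit 171966469) (nat_lit 46407878049) (.two (nat_lit 2097153) (nat_lit 1050385) (.two (nat_lit 1048576) (nat_lit 2099107) (.one (nat_lit 873465920) .nil))))),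
   .two (nat_lit 285212734) (nat_lit 9802088972) (.two (nat_lit 46409973768) (nat_lit 11492394264) (.two (nat_lit 4194305) (nat_lit 16778993) (.one (nat_lit 71305216) .nil))),
   .two (nat_lit 4601151552) (nat_lit 8388770) (.two (nat_lit 276824079) (nat_lit 4634706937) (.two (nat_lit 9765388293) (nat_lit 4195747) (.two (nat_lit 8388609) (nat_lit 1050269) (.two (nat_lit 4194304) (nat_lit 8390564) (.one (nat_lit 1050692) .nil))))),
   .two (nat_lit 285212734) (nat_lit 9802088610) (.two (nat_lit 4601151503) (nat_lit 9781117946) (.two (nat_lit 4194308) (nat_lit 16778769) (.two (nat_lit 4194304) (nat_lit 16779106) (.one (nat_lit 272631813) .nil)))),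
   .two (nat_lit 2969567297) (nat_lit 2097416) (.two (nat_lit 117440527) (nat_lit 2416968472) (.two (nat_lit 806354949) (nat_lit 2902459672) (.two (nat_lit 2097153) (nat_lit 50333204) (.two (nat_lit 1048576) (nat_lit 2099109) (.one (nat_lit 19128125506) .nil))))),
   .two (nat_lit 12054429800) (nat_lit 809500834) (.two (nat_lit 37748751) (nat_lit 11618222759) (.two (nat_lit 1753219080) (nat_lit 272630553) (.two (nat_lit 4194308) (nat_lit 8390052) (.two (nat_lit 2097153) (nat_lit 4195998) (.two (nat_lit 2097152) (nat_lit 4196262) (.one (nat_lit 2099269) .nil)))))),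
   .two (nat_lit 11610882111) (nat_lit 343933090) (.two (nat_lit 13191086095) (nat_lit 1175454220) (.two (nat_lit 166129041416) (nat_lit 9934209816) (.two (nat_lit 713031684) (nat_lit 2098597) (.two (nat_lit 156364701697) (nat_lit 169870868) (.two (nat_lit 2097152) (nat_lit 1050535) (.one (nat_lit 2099206) .nil)))))),
   .two (nat_lit 8388670) (nat_lit 159217877516) (.two (nat_lit 156367847432) (nat_lit 639632152) (.two (nat_lit 8388612) (nat_lit 2098598) (.two (nat_lit 8388609) (nat_lit 9766438558) (.two (nat_lit 2097152) (nat_lit 8390568) (.one (nat_lit 2099270) .nil))))),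
   .two (nat_lit 11559501886) (nat_lit 19529728264) (.two (nat_lit 20637024279) (nat_lit 754975245) (.two (nat_lit 158075977736) (nat_lit 11559502616) (.two (nat_lit 21777874949) (nat_lit 16778524) (.two (nat_lit 605028353) (nat_lit 50333201) (.two (nat_lit 1048576) (nat_lit 50333538) (.one (nat_lit 1050695) .nil)))))),
   .two (nat_lit 8388670) (nat_lit 13191086242) (.two (nat_lit 8388623) (nat_lit 9802089122) (.two (nat_lit 813694984) (nat_lit 4634706937) (.two (nat_lit 1277165572) (nat_lit 847250715) (.two (nat_lit 4194305) (nat_lit 2098962) (.two (nat_lit 2097152) (nat_lit 4196265) (.one (nat_lit 2099272) .nil)))))),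
   .two (nat_lit 3558867008) (nat_lit 10007609734) (.two (nat_lit 2887778319) (nat_lit 158083318284) (.two (nat_lit 2887778312) (nat_lit 158083318781) (.two (nat_lit 270532613) (nat_lit 1417676057) (.two (nat_lit 2097153) (nat_lit 4605347347) (.two (nat_lit 1048576) (nat_lit 156372043620) (.one (nat_lit 1411385344) .nil)))))),
   .two (nat_lit 4601151550) (nat_lit 165532402189) (.two (nat_lit 20644364296) (nat_lit 1212154649) (.two (nat_lit 159224168453) (nat_lit 157038937376) (.two (nat_lit 156372041729) (nat_lit 9802090001) (.two (nat_lit 8388608) (nat_lit 4196201) (.one (nat_lit 4196429) .nil))))),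
   .two (nat_lit 169869375) (nat_lit 746586577) (.two (nat_lit 276824079) (nat_lit 183949591321) (.two (nat_lit 171966469) (nat_lit 47548728747) (.two (nat_lit 2097153) (nat_lit 41944747) (.two (nat_lit 1048576) (nat_lit 339740523) (.one (nat_lit 2099209) .nil))))),
   .two (nat_lit 272629822) (nat_lit 19127075078) (.two (nat_lit 169869327) (nat_lit 4638900917) (.two (nat_lit 4601151496) (nat_lit 1049756) (.two (nat_lit 605028357) (nat_lit 69207326) (.two (nat_lit 41943041) (nat_lit 9867101872) (.two (nat_lit 4194304) (nat_lit 706742117) (.one (nat_lit 807405576) .nil)))))),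
   .two (nat_lit 46980399167) (nat_lit 156532474261) (.two (nat_lit 809500687) (nat_lit 166129042329) (.two (nat_lit 4601151496) (nat_lit 605029380) (.two (nat_lit 156367847429) (nat_lit 9933161770) (.two (nat_lit 34603009) (nat_lit 813696670) (.two (nat_lit 1048576) (nat_lit 8390589) (.one (nat_lit 1050703) .nil)))))),
   .two (nat_lit 8388670) (nat_lit 11610882310) (.two (nat_lit 8388623) (nat_lit 9934209972) (.two (nat_lit 1276117000) (nat_lit 645923844) (.two (nat_lit 638582789) (nat_lit 10372515102) (.two (nat_lit 41943041) (nat_lit 739247768) (.two (nat_lit 1048576) (nat_lit 2099053) (.one (nat_lit 608176136) .nil)))))),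
   .two (nat_lit 169869375) (nat_lit 10007609606) (.two (nat_lit 4194319) (nat_lit 13228835503) (.two (nat_lit 4194312) (nat_lit 69207044) (.two (nat_lit 171966469) (nat_lit 270534096) (.two (nat_lit 4194305) (nat_lit 9933162154) (.two (nat_lit 4194304) (nat_lit 1283458925) (.one (nat_lit 9936308225) .nil)))))),
   .two (nat_lit 272629822) (nat_lit 47596962206) (.two (nat_lit 721420303) (nat_lit 272630448) (.two (nat_lit 721420296) (nat_lit 183949591321) (.two (nat_lit 2889875460) (nat_lit 10940843306) (.two (nat_lit 2097153) (nat_lit 183962175131) (.two (nat_lit 2097152) (nat_lit 4196206) (.one (nat_lit 1780484183) .nil)))))),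
   .two (nat_lit 158646403179) (nat_lit 1962934434) (.two (nat_lit 158075977743) (nat_lit 117441244) (.two (nat_lit 158075977736) (nat_lit 9881781017) (.two (nat_lit 10939793413) (nat_lit 50332970) (.two (nat_lit 605028353) (nat_lit 16778776) (.two (nat_lit 8388608) (nat_lit 11593058158) (.one (nat_lit 34605141) .nil)))))),
   .two (nat_lit 12617515073) (nat_lit 11611931038) (.two (nat_lit 18933088271) (nat_lit 605029075) (.two (nat_lit 47555018760) (nat_lit 1310721040) (.two (nat_lit 46414168068) (nat_lit 2098646) (.two (nat_lit 34603009) (nat_lit 8390451) (.two (nat_lit 1048576) (nat_lit 2099142) (.one (nat_lit 2099292) .nil)))))),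
   .two (nat_lit 21207449664) (nat_lit 46510637444) (.two (nat_lit 21207449615) (nat_lit 4195051) (.two (nat_lit 174752530440) (nat_lit 156971827993) (.two (nat_lit 158143086597) (nat_lit 19532875040) (.two (nat_lit 156364701697) (nat_lit 10540287510) (.two (nat_lit 2097152) (nat_lit 1050567) (.one (nat_lit 1050717) .nil)))))),
   .two (nat_lit 8388670) (nat_lit 13221495051) (.two (nat_lit 2961178639) (nat_lit 47582282403) (.two (nat_lit 158143086600) (nat_lit 606077954) (.two (nat_lit 21207449605) (nat_lit 8390103) (.two (nat_lit 9765388289) (nat_lit 176162478) (.two (nat_lit 1048576) (nat_lit 8390600) (.one (nat_lit 1050718) .nil)))))),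
   .two (nat_lit 739246145) (nat_lit 37320917386) (.two (nat_lit 4194319) (nat_lit 1417675770) (.two (nat_lit 156372041733) (nat_lit 1276118304) (.two (nat_lit 37748737) (nat_lit 11543774883) (.two (nat_lit 1048576) (nat_lit 4196297) (.one (nat_lit 1050719) .nil))))),
   .two (nat_lit 809500737) (nat_lit 3458204174) (.two (nat_lit 11479810056) (nat_lit 304088068) (.two (nat_lit 47548727301) (nat_lit 46510638532) (.two (nat_lit 2097153) (nat_lit 2889877174) (.two (nat_lit 4194304) (nat_lit 8390602) (.one (nat_lit 8390752) .nil))))),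
   .two (nat_lit 1753219181) (nat_lit 184431935752) (.two (nat_lit 20644364303) (nat_lit 721420812) (.two (nat_lit 20644364296) (nat_lit 184550694) (.two (nat_lit 2097153) (nat_lit 1283458715) (.two (nat_lit 2097152) (nat_lit 16779120) (.one (nat_lit 16779367) .nil))))),
   .two (nat_lit 184993972289) (nat_lit 788529596) (.two (nat_lit 18933088271) (nat_lit 28101837551) (.two (nat_lit 620757000) (nat_lit 185027527688) (.two (nat_lit 184549381) (nat_lit 11618223395) (.two (nat_lit 41943041) (nat_lit 1392510486) (.two (nat_lit 1048576) (nat_lit 8390622) (.one (nat_lit 8390760) .nil)))))),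
   .two (nat_lit 50331713) (nat_lit 19033752021) (.two (nat_lit 721420303) (nat_lit 813695502) (.two (nat_lit 46984593416) (nat_lit 1191183377) (.two (nat_lit 50331653) (nat_lit 75498952) (.two (nat_lit 8388609) (nat_lit 50333426) (.one (nat_lit 16779276) .nil))))),
   .two (nat_lit 46409973825) (nat_lit 159224168838) (.two (nat_lit 12150898712) (nat_lit 2987393775) (.two (nat_lit 2961178632) (nat_lit 306185243) (.two (nat_lit 2894069765) (nat_lit 46980400417) (.two (nat_lit 8388609) (nat_lit 3527411401) (.two (nat_lit 4194304) (nat_lit 1050591) (.one (nat_lit 1050729) .nil)))))),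
   .two (nat_lit 11559501888) (nat_lit 2349859193) (.two (nat_lit 11559501839) (nat_lit 2316304908) (.two (nat_lit 1358954504) (nat_lit 9933161485) (.two (nat_lit 1343225861) (nat_lit 16778770) (.two (nat_lit 1048576) (nat_lit 11492395011) .nil)))),
   .two (nat_lit 2969567294) (nat_lit 10940842509) (.two (nat_lit 166130089992) (nat_lit 654312744) (.two (nat_lit 9766436865) (nat_lit 50333205) (.two (nat_lit 2097152) (nat_lit 16779121) (.one (nat_lit 2099306) .nil)))),
   .two (nat_lit 28093448257) (nat_lit 822083977) (.two (nat_lit 9948889103) (nat_lit 1216348868) (.two (nat_lit 41943048) (nat_lit 9781117945) (.two (nat_lit 8388612) (nat_lit 16778735) (.two (nat_lit 8388609) (nat_lit 16778966) (.two (nat_lit 8388608) (nat_lit 16779232) (.one (nat_lit 1853884503) .nil)))))),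
   .two (nat_lit 8388670) (nat_lit 11546919176) (.two (nat_lit 8388623) (nat_lit 3460301510) (.two (nat_lit 606076936) (nat_lit 176161963) (.two (nat_lit 713031685) (nat_lit 10907289037) (.two (nat_lit 2097153) (nat_lit 4196119) (.two (nat_lit 2097152) (nat_lit 8390625) (.one (nat_lit 2099307) .nil)))))),
   .two (nat_lit 285212737) (nat_lit 742392218) (.two (nat_lit 2902458383) (nat_lit 13224641219) (.two (nat_lit 4194312) (nat_lit 1191183641) (.two (nat_lit 4194305) (nat_lit 1191183895) (.two (nat_lit 1048576) (nat_lit 4196322) (.one (nat_lit 1050732) .nil))))),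
   .two (nat_lit 2969567297) (nat_lit 10538189190) (.two (nat_lit 218103823) (nat_lit 10538189507) (.two (nat_lit 2887778312) (nat_lit 10385098009) (.two (nat_lit 2097153) (nat_lit 10385098263) (.two (nat_lit 1048576) (nat_lit 2099171) (.one (nat_lit 1050733) .nil))))),
   .two (nat_lit 2889875521) (nat_lit 185020187016) (.two (nat_lit 37748751) (nat_lit 156465365516) (.two (nat_lit 37748744) (nat_lit 1947206944) (.two (nat_lit 2097153) (nat_lit 19529729738) (.two (nat_lit 4194304) (nat_lit 20705183755) .nil)))),
   .two (nat_lit 8388670) (nat_lit 21777875106) (.two (nat_lit 8388623) (nat_lit 68158138) (.two (nat_lit 8388616) (nat_lit 68158476) (.two (nat_lit 8388612) (nat_lit 873465324) (.two (nat_lit 4194305) (nat_lit 68159260) (.two (nat_lit 4194304) (nat_lit 68159410) (.one (nat_lit 71305288) .nil)))))),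
   .two (nat_lit 16777278) (nat_lit 880804230) (.two (nat_lit 50331663) (nat_lit 159257723812) (.two (nat_lit 276824072) (nat_lit 721421590) (.two (nat_lit 8388609) (nat_lit 2902459928) (.two (nat_lit 1048576) (nat_lit 4613736302) (.one (nat_lit 1050734) .nil))))),
   .two (nat_lit 822083649) (nat_lit 19532874109) (.two (nat_lit 11492392975) (nat_lit 9802089130) (.two (nat_lit 272629768) (nat_lit 754976024) (.two (nat_lit 156367847425) (nat_lit 10385098416) (.two (nat_lit 4194304) (nat_lit 16779122) (.one (nat_lit 4196463) .nil))))),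
   .two (nat_lit 10436476991) (nat_lit 28691136776) (.two (nat_lit 9934209039) (nat_lit 12147753659) (.two (nat_lit 9934209032) (nat_lit 166196151064) (.two (nat_lit 2954887173) (nat_lit 672138537) (.two (nat_lit 606076929) (nat_lit 68158998) (.two (nat_lit 2097152) (nat_lit 1050598) (.one (nat_lit 1050736) .nil)))))),
   .two (nat_lit 1753219181) (nat_lit 352321698) (.two (nat_lit 20644364303) (nat_lit 50332440) (.two (nat_lit 159224168453) (nat_lit 285214227) (.two (nat_lit 1048576) (nat_lit 47563409262) (.one (nat_lit 176162918) .nil)))),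
   .two (nat_lit 46409973825) (nat_lit 1191182860) (.two (nat_lit 4601151496) (nat_lit 11492394264) (.two (nat_lit 4194305) (nat_lit 620758771) (.one (nat_lit 16779277) .nil))),
   .two (nat_lit 8388670) (nat_lit 159217877154) (.two (nat_lit 8388623) (nat_lit 156533523143) (.two (nat_lit 3458203656) (nat_lit 9940501510) (.two (nat_lit 46407876612) (nat_lit 8389919) (.two (nat_lit 4194305) (nat_lit 169871013) (.two (nat_lit 4194304) (nat_lit 8390631) (.one (nat_lit 4196465) .nil)))))),
   .two (nat_lit 8388670) (nat_lit 13191086242) (.two (nat_lit 176160783) (nat_lit 10506732231) (.two (nat_lit 46409973768) (nat_lit 69207051) (.two (nat_lit 2887778308) (nat_lit 11618223556) (.two (nat_lit 2097153) (nat_lit 4196005) (.two (nat_lit 2097152) (nat_lit 713033703) (.one (nat_lit 2099314) .nil)))))),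
   .two (nat_lit 1276117093) (nat_lit 158144135356) (.two (nat_lit 2887778319) (nat_lit 13224640700) (.two (nat_lit 28087156744) (nat_lit 1779434265) (.two (nat_lit 19597885445) (nat_lit 68158752) (.two (nat_lit 50331649) (nat_lit 1780483604) (.two (nat_lit 16777216) (nat_lit 2098264) (.one (nat_lit 2099065) .nil)))))),
   .two (nat_lit 11543773246) (nat_lit 773849354) (.two (nat_lit 185002360847) (nat_lit 1779433997) (.two (nat_lit 185002360840) (nat_lit 1343226648) (.two (nat_lit 721420292) (nat_lit 11543774488) (.two (nat_lit 50331649) (nat_lit 1277167256) (.two (nat_lit 16777216) (nat_lit 2098518) (.one (nat_lit 2099315) .nil)))))),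
   .two (nat_lit 8388670) (nat_lit 10001318150) (.two (nat_lit 41943055) (nat_lit 336593591) (.two (nat_lit 12050235400) (nat_lit 101712664) (.two (nat_lit 2887778308) (nat_lit 1175455006) (.two (nat_lit 2097153) (nat_lit 9765390000) (.two (nat_lit 1048576) (nat_lit 2099195) (.one (nat_lit 1050632) .nil)))))),
   .two (nat_lit 169869375) (nat_lit 10007609606) (.two (nat_lit 4194319) (nat_lit 13228835503) (.two (nat_lit 159224168456) (nat_lit 4195355) (.two (nat_lit 159216828421) (nat_lit 1780483360) (.two (nat_lit 2097153) (nat_lit 4196000) (.two (nat_lit 1048576) (nat_lit 2098730) (.one (nat_lit 9936308225) .nil)))))),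
   .two (nat_lit 16777306) (nat_lit 1753219334) (.two (nat_lit 16777278) (nat_lit 1753219596) (.two (nat_lit 50331663) (nat_lit 343933952) (.two (nat_lit 12054429704) (nat_lit 184550680) (.two (nat_lit 184993972229) (nat_lit 16778770) (.two (nat_lit 41943041) (nat_lit 16778993) (.two (nat_lit 8388608) (nat_lit 16779274) (.one (nat_lit 2961180693) .nil))))))),
   .two (nat_lit 9768534081) (nat_lit 10015998534) (.two (nat_lit 2969567237) (nat_lit 28760343893) (.one (nat_lit 4196372) .nil)),
   .two (nat_lit 8388670) (nat_lit 1312817342) (.two (nat_lit 183845781506) (nat_lit 8389992) (.one (nat_lit 4196377) .nil)),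
   .two (nat_lit 3021996050) (nat_lit 46414168404) (.two (nat_lit 46407876610) (nat_lit 8390190) (.one (nat_lit 8390682) .nil)),
   .two (nat_lit 2961178687) (nat_lit 754974838) (.two (nat_lit 2961178639) (nat_lit 184419352967) (.two (nat_lit 16777224) (nat_lit 1049299) (.two (nat_lit 16777220) (nat_lit 9933160784) (.two (nat_lit 16777220) (nat_lit 9866052148) (.two (nat_lit 8388609) (nat_lit 12114200062) (.two (nat_lit 1048576) (nat_lit 4196383) (.one (nat_lit 4196407) .nil))))))),
   .two (nat_lit 169869375) (nat_lit 2902458432) (.two (nat_lit 4194319) (nat_lit 2969567618) (.two (nat_lit 4194312) (nat_lit 4613735100) (.two (nat_lit 4194308) (nat_lit 11510219316) (.two (nat_lit 37748739) (nat_lit 1049792) (.two (nat_lit 4194305) (nat_lit 4043310596) (.two (nat_lit 16777216) (nat_lit 101713978) (.one (nat_lit 101713978) .nil))))))),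
   .two (nat_lit 47563407423) (nat_lit 3028287606) (.two (nat_lit 276824079) (nat_lit 10003415458) (.two (nat_lit 8388616) (nat_lit 156532474750) (.two (nat_lit 8388612) (nat_lit 46409974324) (.two (nat_lit 4601151493) (nat_lit 1049932) (.two (nat_lit 156367847425) (nat_lit 8390094) (.two (nat_lit 4194304) (nat_lit 1050412) (.one (nat_lit 1050753) .nil))))))),
   .two (nat_lit 10370416705) (nat_lit 11626610752) (.two (nat_lit 713031695) (nat_lit 47548727458) (.two (nat_lit 713031688) (nat_lit 174686470864) (.two (nat_lit 620756997) (nat_lit 606077954) (.two (nat_lit 612368385) (nat_lit 3021997482) (.two (nat_lit 1048576) (nat_lit 8390326) (.one (nat_lit 2099330) .nil)))))),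
   .two (nat_lit 2887778367) (nat_lit 20753416256) (.two (nat_lit 1291845647) (nat_lit 2886729991) (.two (nat_lit 2887778312) (nat_lit 166245433868) (.two (nat_lit 2097157) (nat_lit 687866884) (.two (nat_lit 34603009) (nat_lit 8390149) (.two (nat_lit 16777216) (nat_lit 8390688) (.one (nat_lit 8390787) .nil)))))),
   .two (nat_lit 4194367) (nat_lit 19142803521) (.two (nat_lit 2902458383) (nat_lit 1048839) (.two (nat_lit 2902458376) (nat_lit 2886730422) (.two (nat_lit 4194308) (nat_lit 11510219316) (.two (nat_lit 9781116931) (nat_lit 1049986) (.two (nat_lit 9768534017) (nat_lit 2098694) (.two (nat_lit 16777216) (nat_lit 2099100) (.one (nat_lit 2099332) .nil))))))),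
   .two (nat_lit 272629822) (nat_lit 352321601) (.two (nat_lit 184549391) (nat_lit 809500834) (.two (nat_lit 184549384) (nat_lit 876610225) (.two (nat_lit 184549380) (nat_lit 9867101194) (.two (nat_lit 2097153) (nat_lit 876611011) (.two (nat_lit 2097152) (nat_lit 4196145) (.one (nat_lit 4196485) .nil)))))),
   .two (nat_lit 8388670) (nat_lit 9799991558) (.two (nat_lit 612368399) (nat_lit 1914700816) (.two (nat_lit 721420293) (nat_lit 1745880347) (.two (nat_lit 9781116929) (nat_lit 303040283) (.two (nat_lit 16777216) (nat_lit 1050550) (.one (nat_lit 1050758) .nil))))),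
   .two (nat_lit 8388670) (nat_lit 1209008390) (.two (nat_lit 612368399) (nat_lit 9799991821) (.two (nat_lit 16777224) (nat_lit 1049756) (.two (nat_lit 620756997) (nat_lit 102761902) (.two (nat_lit 2097153) (nat_lit 1050504) (.two (nat_lit 1048576) (nat_lit 2099127) (.one (nat_lit 2099336) .nil)))))),
   .two (nat_lit 2954887230) (nat_lit 3024093594) (.two (nat_lit 4605345807) (nat_lit 272630656) (.two (nat_lit 46409973768) (nat_lit 2098180) (.two (nat_lit 46409973764) (nat_lit 69207326) (.two (nat_lit 156372041729) (nat_lit 639633055) (.two (nat_lit 2097152) (nat_lit 8390590) (.one (nat_lit 270534793) .nil)))))),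
   .two (nat_lit 8388670) (nat_lit 2987393290) (.two (nat_lit 184549391) (nat_lit 269485082) (.two (nat_lit 184549380) (nat_lit 272631249) (.two (nat_lit 620756993) (nat_lit 272631482) (.two (nat_lit 4194304) (nat_lit 16779307) (.one (nat_lit 4196491) .nil))))),
   .two (nat_lit 8388670) (nat_lit 21777875210) (.two (nat_lit 184549391) (nat_lit 9933161498) (.two (nat_lit 713031684) (nat_lit 183845782963) (.two (nat_lit 620756993) (nat_lit 1050420) (.two (nat_lit 16777216) (nat_lit 8390700) (.one (nat_lit 16779404) .nil))))),
   .two (nat_lit 1317011520) (nat_lit 10506731959) (.two (nat_lit 37748751) (nat_lit 2994733770) (.two (nat_lit 606076936) (nat_lit 8389838) (.two (nat_lit 1277165573) (nat_lit 1853884058) (.two (nat_lit 2097152) (nat_lit 9806284811) .nil)))),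
   .two (nat_lit 20753416295) (nat_lit 606077454) (.two (nat_lit 46407876616) (nat_lit 1795163133) (.two (nat_lit 1291845636) (nat_lit 35652891) (.two (nat_lit 2097153) (nat_lit 16778771) (.two (nat_lit 4194304) (nat_lit 1176504320) .nil)))),
   .two (nat_lit 272629822) (nat_lit 3565158810) (.two (nat_lit 4034920471) (nat_lit 3525313199) (.two (nat_lit 3525312520) (nat_lit 11484005587) (.two (nat_lit 46407876612) (nat_lit 11513365801) (.two (nat_lit 156365750273) (nat_lit 809502367) (.two (nat_lit 2097152) (nat_lit 4196324) (.one (nat_lit 4196496) .nil)))))),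
   .two (nat_lit 8388670) (nat_lit 673185954) (.two (nat_lit 47548727311) (nat_lit 10007610018) (.two (nat_lit 13195280392) (nat_lit 47548728491) (.two (nat_lit 18933088261) (nat_lit 2954888811) (.two (nat_lit 8388609) (nat_lit 2099090) (.two (nat_lit 2097152) (nat_lit 8390705) (.one (nat_lit 2099345) .nil)))))),
   .two (nat_lit 8388670) (nat_lit 183848927756) (.two (nat_lit 8388616) (nat_lit 11611931662) (.two (nat_lit 176160772) (nat_lit 165528208670) (.two (nat_lit 156367847425) (nat_lit 169871013) (.two (nat_lit 8388608) (nat_lit 2099173) (.one (nat_lit 2099346) .nil))))),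
   .two (nat_lit 159257722981) (nat_lit 47582281890) (.two (nat_lit 47548727311) (nat_lit 176161664) (.two (nat_lit 3525312520) (nat_lit 10506732749) (.two (nat_lit 3458203653) (nat_lit 4195628) (.two (nat_lit 2097153) (nat_lit 4196055) (.two (nat_lit 2097152) (nat_lit 4196324) (.one (nat_lit 2099347) .nil)))))),
   .two (nat_lit 75497537) (nat_lit 156984410557) (.two (nat_lit 83886095) (nat_lit 705692672) (.two (nat_lit 620756997) (nat_lit 705693096) (.two (nat_lit 50331649) (nat_lit 1050430) (.two (nat_lit 16777216) (nat_lit 1050674) (.one (nat_lit 1050772) .nil))))),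
   .two (nat_lit 713031744) (nat_lit 1962934686) (.two (nat_lit 50331663) (nat_lit 20644365008) (.two (nat_lit 50331656) (nat_lit 8389801) (.two (nat_lit 16777218) (nat_lit 8389197) (.two (nat_lit 16777219) (nat_lit 4195925) (.two (nat_lit 37748737) (nat_lit 1050398) (.two (nat_lit 8388608) (nat_lit 1050659) (.one (nat_lit 8390772) .nil))))))),
   .two (nat_lit 2988441664) (nat_lit 183946444970) (.two (nat_lit 276824128) (nat_lit 9948889179) (.two (nat_lit 50331663) (nat_lit 46507492023) (.two (nat_lit 13195280392) (nat_lit 10000270341) (.two (nat_lit 8388612) (nat_lit 1050047) (.two (nat_lit 16777217) (nat_lit 156968683165) (.two (nat_lit 1048576) (nat_lit 2099215) (.one (nat_lit 2099216) .nil))))))),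
   .two (nat_lit 285212690) (nat_lit 1780482310) (.two (nat_lit 8388670) (nat_lit 1210056796) (.two (nat_lit 285212687) (nat_lit 1780482572) (.two (nat_lit 285212680) (nat_lit 706741251) (.two (nat_lit 16777220) (nat_lit 606078238) (.two (nat_lit 37748737) (nat_lit 169871025) (.two (nat_lit 4194304) (nat_lit 156567078228) (.one (nat_lit 8390807) .nil))))))),
   .two (nat_lit 4194367) (nat_lit 3472884099) (.two (nat_lit 218103823) (nat_lit 2886730422) (.two (nat_lit 11479810056) (nat_lit 1049792) (.two (nat_lit 705691650) (nat_lit 4195839) (.two (nat_lit 184549379) (nat_lit 4195939) (.two (nat_lit 605028353) (nat_lit 4196182) (.two (nat_lit 16777216) (nat_lit 1050616) (.one (nat_lit 1050776) .nil))))))),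
   .two (nat_lit 1746927724) (nat_lit 46414168429) (.two (nat_lit 285212687) (nat_lit 1176502988) (.two (nat_lit 1178599432) (nat_lit 11611931825) (.two (nat_lit 156367847429) (nat_lit 2098789) (.two (nat_lit 37748737) (nat_lit 2098987) (.two (nat_lit 2097152) (nat_lit 8390393) (.one (nat_lit 8390773) .nil)))))),
   .two (nat_lit 11543773246) (nat_lit 1277165832) (.two (nat_lit 101711887) (nat_lit 2418017139) (.two (nat_lit 185002360840) (nat_lit 1343226648) (.two (nat_lit 721420293) (nat_lit 11543774488) (.two (nat_lit 16777217) (nat_lit 1277167256) (.two (nat_lit 16777216) (nat_lit 11476665690) (.one (nat_lit 2099353) .nil)))))),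
   .two (nat_lit 47588573248) (nat_lit 47582281890) (.two (nat_lit 47555018767) (nat_lit 705692172) (.two (nat_lit 169869320) (nat_lit 104858634) (.two (nat_lit 713031682) (nat_lit 1049913) (.two (nat_lit 2097155) (nat_lit 185023333820) (.two (nat_lit 37748737) (nat_lit 8390174) (.two (nat_lit 2097152) (nat_lit 71305061) (.one (nat_lit 1050742) .nil))))))),
   .two (nat_lit 11543773246) (nat_lit 1277165832) (.two (nat_lit 101711887) (nat_lit 2418017139) (.two (nat_lit 185002360840) (nat_lit 1343226648) (.two (nat_lit 721420293) (nat_lit 11543774488) (.two (nat_lit 16777217) (nat_lit 1277167256) (.two (nat_lit 16777216) (nat_lit 9766438909) (.one (nat_lit 1050743) .nil)))))),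
   .two (nat_lit 272629822) (nat_lit 13187940759) (.two (nat_lit 2887778319) (nat_lit 843055800) (.two (nat_lit 1745879048) (nat_lit 1178600217) (.two (nat_lit 1913651205) (nat_lit 157036840219) (.two (nat_lit 37748737) (nat_lit 28087158464) (.two (nat_lit 4194304) (nat_lit 1050686) (.one (nat_lit 102762577) .nil)))))),
   .two (nat_lit 9781117090) (nat_lit 4601151650) (.two (nat_lit 285212734) (nat_lit 4194991) (.two (nat_lit 11492392975) (nat_lit 28690089243) (.two (nat_lit 171966469) (nat_lit 16778905) (.two (nat_lit 37748737) (nat_lit 1050624) (.one (nat_lit 1050785) .nil))))),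
   .two (nat_lit 8388770) (nat_lit 13191086242) (.two (nat_lit 8388670) (nat_lit 1410335244) (.two (nat_lit 46409973775) (nat_lit 3458204670) (.two (nat_lit 156367847432) (nat_lit 21214790938) (.two (nat_lit 11476664324) (nat_lit 8390298) (.two (nat_lit 8388609) (nat_lit 2099105) (.two (nat_lit 1048576) (nat_lit 8390723) (.one (nat_lit 1050789) .nil))))))),
   .two (nat_lit 13237223586) (nat_lit 9802088710) (.two (nat_lit 4601151553) (nat_lit 13203669679) (.two (nat_lit 9781116943) (nat_lit 4195466) (.two (nat_lit 19599982604) (nat_lit 9934210331) (.two (nat_lit 18928893957) (nat_lit 2098843) (.two (nat_lit 2097153) (nat_lit 71305216) (.one (nat_lit 2099366) .nil)))))),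
   .two (nat_lit 8388770) (nat_lit 9802088610) (.two (nat_lit 9802088513) (nat_lit 1384121007) (.two (nat_lit 276824079) (nat_lit 4634706937) (.two (nat_lit 184419352584) (nat_lit 2323645723) (.two (nat_lit 176160773) (nat_lit 1050268) (.two (nat_lit 4194305) (nat_lit 1050530) (.two (nat_lit 1048576) (nat_lit 8390660) (.one (nat_lit 1050791) .nil))))))),
   .two (nat_lit 156367847586) (nat_lit 10007609606) (.two (nat_lit 3028287552) (nat_lit 1413481159) (.two (nat_lit 176160783) (nat_lit 3527410704) (.two (nat_lit 1291845640) (nat_lit 8390077) (.two (nat_lit 19537068037) (nat_lit 4634707609) (.two (nat_lit 9781116929) (nat_lit 19134416896) (.one (nat_lit 16779433) .nil)))))),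
   .two (nat_lit 41943202) (nat_lit 135266466) (.two (nat_lit 612368449) (nat_lit 20637024966) (.two (nat_lit 169869327) (nat_lit 612369579) (.two (nat_lit 4605345800) (nat_lit 166197200155) (.two (nat_lit 8388612) (nat_lit 874514128) (.two (nat_lit 41943041) (nat_lit 1277167620) (.one (nat_lit 2099393) .nil)))))),
   .two (nat_lit 639631522) (nat_lit 37313577122) (.two (nat_lit 713031745) (nat_lit 21777875657) (.two (nat_lit 8388623) (nat_lit 21778924555) (.two (nat_lit 4605345800) (nat_lit 166197200155) (.two (nat_lit 10336862213) (nat_lit 174759872192) (.two (nat_lit 41943041) (nat_lit 1050589) (.two (nat_lit 2097152) (nat_lit 8390757) (.one (nat_lit 8390852) .nil))))))),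
   .two (nat_lit 8388770) (nat_lit 13191086242) (.two (nat_lit 8388670) (nat_lit 1410335244) (.two (nat_lit 8388623) (nat_lit 18925749248) (.two (nat_lit 3460300808) (nat_lit 11551114528) (.two (nat_lit 203423749) (nat_lit 9768535363) (.two (nat_lit 8388609) (nat_lit 4196277) (.two (nat_lit 1048576) (nat_lit 2099274) (.one (nat_lit 2987395194) .nil))))))),
   .two (nat_lit 10003415217) (nat_lit 2921333140) (.two (nat_lit 236978239) (nat_lit 21827158721) (.two (nat_lit 157036838927) (nat_lit 12117345306) (.two (nat_lit 4028629005) (nat_lit 13237224747) (.two (nat_lit 2954887173) (nat_lit 10385098260) (.two (nat_lit 2097153) (nat_lit 654313316) (.two (nat_lit 2097152) (nat_lit 4196363) (.one (nat_lit 2099376) .nil))))))),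
   .two (nat_lit 2954887230) (nat_lit 19096666849) (.two (nat_lit 47548727311) (nat_lit 2990539966) (.two (nat_lit 13195280389) (nat_lit 2098899) (.two (nat_lit 156372041729) (nat_lit 2099161) (.one (nat_lit 2099385) .nil)))),
   .two (nat_lit 809500711) (nat_lit 28691137348) (.two (nat_lit 2956984327) (nat_lit 3558868331) (.two (nat_lit 8388608) (nat_lit 2099228) .nil)),
   .two (nat_lit 11610882087) (nat_lit 11492393553) (.two (nat_lit 68157448) (nat_lit 83887467) (.two (nat_lit 4194304) (nat_lit 1050654) .nil)),
   .two (nat_lit 641728551) (nat_lit 2902458956) (.two (nat_lit 158150426631) (nat_lit 16778813) (.two (nat_lit 16777216) (nat_lit 1050750) .nil)),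
   .two (nat_lit 8388670) (nat_lit 19109249450) (.two (nat_lit 50331663) (nat_lit 605029662) (.two (nat_lit 16777217) (nat_lit 1050399) (.two (nat_lit 16777216) (nat_lit 1050660) (.one (nat_lit 16779399) .nil)))),
   .two (nat_lit 9781116949) (nat_lit 9934209186) (.two (nat_lit 2954887232) (nat_lit 352321699) (.two (nat_lit 50331663) (nat_lit 1277166243) (.two (nat_lit 713031688) (nat_lit 12050236413) (.two (nat_lit 16777221) (nat_lit 1283458339) (.two (nat_lit 16777217) (nat_lit 608175784) (.two (nat_lit 8388608) (nat_lit 4632610831) (.one (nat_lit 2099409) .nil))))))),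
   .two (nat_lit 109051925) (nat_lit 1178599882) (.two (nat_lit 272629822) (nat_lit 10913579100) (.two (nat_lit 1277165583) (nat_lit 1849688588) (.two (nat_lit 1277165576) (nat_lit 1849689085) (.two (nat_lit 9934209029) (nat_lit 46422557991) (.two (nat_lit 9766436865) (nat_lit 47563409171) (.two (nat_lit 2097152) (nat_lit 4196087) (.one (nat_lit 4196502) .nil))))))),
   .two (nat_lit 16777234) (nat_lit 11476664582) (.two (nat_lit 47548727360) (nat_lit 183946444970) (.two (nat_lit 276824128) (nat_lit 9948889179) (.two (nat_lit 169869327) (nat_lit 12633244353) (.two (nat_lit 13195280392) (nat_lit 10000270341) (.two (nat_lit 8388612) (nat_lit 1050047) (.two (nat_lit 8388609) (nat_lit 101713703) (.two (nat_lit 16777216) (nat_lit 2099328) (.one (nat_lit 2099411) .nil)))))))),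
   .two (nat_lit 9781116949) (nat_lit 9934209186) (.two (nat_lit 2954887232) (nat_lit 742392091) (.two (nat_lit 2954887232) (nat_lit 37749500) (.two (nat_lit 50331663) (nat_lit 1277166243) (.two (nat_lit 713031688) (nat_lit 12050236413) (.two (nat_lit 16777221) (nat_lit 1283458339) (.two (nat_lit 16777217) (nat_lit 608175784) (.two (nat_lit 8388608) (nat_lit 2099260) (.one (nat_lit 4196564) .nil)))))))),
   .two (nat_lit 109051925) (nat_lit 1178599882) (.two (nat_lit 2889875494) (nat_lit 679477510) (.two (nat_lit 272629822) (nat_lit 10913579100) (.two (nat_lit 1277165583) (nat_lit 1849688588) (.two (nat_lit 1277165576) (nat_lit 1849689085) (.two (nat_lit 9934209029) (nat_lit 46422557991) (.two (nat_lit 9766436865) (nat_lit 47563409171) (.two (nat_lit 2097152) (nat_lit 4196348) (.one (nat_lit 4196565) .nil)))))))),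
   .two (nat_lit 285212690) (nat_lit 1780482310) (.two (nat_lit 8388670) (nat_lit 169869595) (.two (nat_lit 8388670) (nat_lit 1210056796) (.two (nat_lit 285212687) (nat_lit 1780482572) (.two (nat_lit 285212680) (nat_lit 706741251) (.two (nat_lit 16777220) (nat_lit 606078238) (.two (nat_lit 37748737) (nat_lit 169871025) (.two (nat_lit 4194304) (nat_lit 8390519) (.one (nat_lit 8390870) .nil)))))))),
   .two (nat_lit 8388670) (nat_lit 13237223864) (.two (nat_lit 50331663) (nat_lit 612369088) (.two (nat_lit 50331656) (nat_lit 813696002) (.two (nat_lit 28757196805) (nat_lit 8390093) (.two (nat_lit 16777217) (nat_lit 4196133) (.two (nat_lit 8388608) (nat_lit 1050659) (.one (nat_lit 8390810) .nil)))))),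
   .two (nat_lit 16777254) (nat_lit 68157702) (.two (nat_lit 272629822) (nat_lit 20637024426) (.two (nat_lit 620757007) (nat_lit 68157964) (.two (nat_lit 620757000) (nat_lit 638583813) (.two (nat_lit 184549381) (nat_lit 35652902) (.two (nat_lit 2097153) (nat_lit 12047091357) (.two (nat_lit 2097152) (nat_lit 1050623) (.one (nat_lit 1050839) .nil))))))),
   .two (nat_lit 306184354) (nat_lit 9781117452) (.two (nat_lit 272629775) (nat_lit 2969568786) (.two (nat_lit 37748737) (nat_lit 19142805568) (.one (nat_lit 4196514) .nil))),
   .two (nat_lit 37748998) (nat_lit 10343153927) (.two (nat_lit 4194367) (nat_lit 343933452) (.two (nat_lit 4194319) (nat_lit 13195281939) (.two (nat_lit 2097153) (nat_lit 1050528) (.two (nat_lit 1048576) (nat_lit 2099266) (.one (nat_lit 1050787) .nil))))),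
   .two (nat_lit 4647288994) (nat_lit 1212154380) (.two (nat_lit 183848927247) (nat_lit 9781117720) (.two (nat_lit 183848927240) (nat_lit 50333204) (.two (nat_lit 37748737) (nat_lit 16778993) (.two (nat_lit 1048576) (nat_lit 608176128) (.one (nat_lit 16779428) .nil))))),
   .two (nat_lit 1962934434) (nat_lit 2316304908) (.two (nat_lit 158075977743) (nat_lit 117441304) (.two (nat_lit 158075977736) (nat_lit 1291847188) (.two (nat_lit 605028353) (nat_lit 16778993) (.two (nat_lit 8388608) (nat_lit 34605215) .nil)))),
   .two (nat_lit 10007609506) (nat_lit 2923430596) (.two (nat_lit 8388623) (nat_lit 9802089466) (.two (nat_lit 8388616) (nat_lit 306185495) (.two (nat_lit 8388612) (nat_lit 4634707473) (.two (nat_lit 16777217) (nat_lit 310380549) (.one (nat_lit 4196569) .nil))))),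
   .two (nat_lit 11543773346) (nat_lit 12150899129) (.two (nat_lit 276824127) (nat_lit 13224641036) (.two (nat_lit 276824079) (nat_lit 13224641304) (.two (nat_lit 68157448) (nat_lit 158177691082) (.two (nat_lit 13187940357) (nat_lit 209716898) (.two (nat_lit 4194305) (nat_lit 2887780269) (.two (nat_lit 1048576) (nat_lit 2099278) (.one (nat_lit 2099372) .nil))))))),
   .two (nat_lit 2954887330) (nat_lit 46514831770) (.two (nat_lit 12150898751) (nat_lit 2953839294) (.two (nat_lit 46409973775) (nat_lit 34604323) (.two (nat_lit 10343153669) (nat_lit 9866053272) (.two (nat_lit 156367847425) (nat_lit 9933162340) (.two (nat_lit 1048576) (nat_lit 2099337) (.one (nat_lit 1050842) .nil)))))),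
   .two (nat_lit 8388770) (nat_lit 10538189188) (.two (nat_lit 8388670) (nat_lit 165526111126) (.two (nat_lit 4194319) (nat_lit 185027527692) (.two (nat_lit 68157448) (nat_lit 28087158043) (.two (nat_lit 708837381) (nat_lit 806356666) (.two (nat_lit 2097153) (nat_lit 806356911) (.two (nat_lit 8388608) (nat_lit 1782581326) (.one (nat_lit 807405731) .nil))))))),
   .two (nat_lit 10007609506) (nat_lit 11610882310) (.two (nat_lit 20737687615) (nat_lit 47582282407) (.two (nat_lit 9940500495) (nat_lit 11007951886) (.two (nat_lit 46407876616) (nat_lit 8389919) (.two (nat_lit 28757196805) (nat_lit 1786775214) (.two (nat_lit 4194305) (nat_lit 1050563) (.two (nat_lit 1048576) (nat_lit 4196440) (.one (nat_lit 4196531) .nil))))))),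
   .two (nat_lit 272629922) (nat_lit 1948254475) (.two (nat_lit 4194368) (nat_lit 1753219750) (.two (nat_lit 4194319) (nat_lit 184993973254) (.two (nat_lit 37748744) (nat_lit 13187942043) (.two (nat_lit 2097153) (nat_lit 1050564) (.two (nat_lit 1048576) (nat_lit 2099289) (.one (nat_lit 2099380) .nil)))))),
   .two (nat_lit 343933090) (nat_lit 270533013) (.two (nat_lit 156533522497) (nat_lit 1350566617) (.two (nat_lit 612368399) (nat_lit 10503586815) (.two (nat_lit 184993972232) (nat_lit 183846831772) (.two (nat_lit 2097153) (nat_lit 1050666) (.two (nat_lit 2097152) (nat_lit 8390794) (.one (nat_lit 2099420) .nil)))))),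
   .two (nat_lit 9768534178) (nat_lit 721420715) (.two (nat_lit 158176641087) (nat_lit 183848927918) (.two (nat_lit 9948889103) (nat_lit 10506732546) (.two (nat_lit 176160776) (nat_lit 1050217) (.two (nat_lit 184549381) (nat_lit 2886731433) (.two (nat_lit 8388609) (nat_lit 9798944779) (.one (nat_lit 16779442) .nil)))))),
   .two (nat_lit 2969567394) (nat_lit 69206474) (.two (nat_lit 2969567296) (nat_lit 156567077589) (.two (nat_lit 2969567247) (nat_lit 166230754308) (.two (nat_lit 218103816) (nat_lit 46474986960) (.two (nat_lit 2969567237) (nat_lit 9967765166) (.two (nat_lit 2097153) (nat_lit 9781118978) (.one (nat_lit 9866053791) .nil)))))),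
   .two (nat_lit 343933090) (nat_lit 4632609035) (.two (nat_lit 47548727360) (nat_lit 813695855) (.two (nat_lit 2961178639) (nat_lit 47582282745) (.two (nat_lit 46984593416) (nat_lit 169870755) (.two (nat_lit 46414168068) (nat_lit 168822429) (.two (nat_lit 2097153) (nat_lit 1050565) (.two (nat_lit 1048576) (nat_lit 2099290) (.one (nat_lit 1050805) .nil))))))),
   .two (nat_lit 880804002) (nat_lit 10336862370) (.two (nat_lit 8388670) (nat_lit 2921333422) (.two (nat_lit 721420303) (nat_lit 337642795) (.two (nat_lit 1358954501) (nat_lit 9940502174) (.two (nat_lit 620756993) (nat_lit 169871273) (.two (nat_lit 16777216) (nat_lit 8390747) (.one (nat_lit 1795164338) .nil)))))),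
   .two (nat_lit 183916036258) (nat_lit 21811429762) (.two (nat_lit 20704133184) (nat_lit 11479810746) (.two (nat_lit 169869327) (nat_lit 13224641693) (.two (nat_lit 9934209032) (nat_lit 1050069) (.two (nat_lit 34603013) (nat_lit 4196146) (.two (nat_lit 2097153) (nat_lit 1846544388) (.one (nat_lit 1050845) .nil)))))),
   .two (nat_lit 285212834) (nat_lit 28693234188) (.two (nat_lit 16777231) (nat_lit 843056127) (.two (nat_lit 2902458376) (nat_lit 19130221859) (.two (nat_lit 16777220) (nat_lit 4634707729) (.two (nat_lit 16777217) (nat_lit 13224642626) (.one (nat_lit 272631965) .nil))))),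
   .two (nat_lit 285212834) (nat_lit 19599983117) (.two (nat_lit 285212687) (nat_lit 2956985626) (.two (nat_lit 4194308) (nat_lit 16778993) (.two (nat_lit 4194304) (nat_lit 654313475) (.one (nat_lit 608176283) .nil)))),
   .two (nat_lit 12117344519) (nat_lit 37262197196) (.two (nat_lit 1916796993) (nat_lit 16778198) (.two (nat_lit 822083599) (nat_lit 1950352399) (.two (nat_lit 9768534024) (nat_lit 721421590) (.two (nat_lit 2889875460) (nat_lit 20719863318) (.two (nat_lit 4194305) (nat_lit 16779228) (.two (nat_lit 2097152) (nat_lit 1178601483) (.one (nat_lit 4196546) .nil))))))),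
   .two (nat_lit 1358954658) (nat_lit 1779434092) (.two (nat_lit 889192513) (nat_lit 813695502) (.two (nat_lit 156372041743) (nat_lit 721421339) (.two (nat_lit 46407876616) (nat_lit 156548203950) (.two (nat_lit 806354949) (nat_lit 50333426) (.two (nat_lit 1048576) (nat_lit 16779276) (.one (nat_lit 16779487) .nil)))))),
   .two (nat_lit 343933090) (nat_lit 159217877154) (.two (nat_lit 47548727358) (nat_lit 1417675426) (.two (nat_lit 813694991) (nat_lit 1413481689) (.two (nat_lit 4605345800) (nat_lit 165528208991) (.two (nat_lit 47555018757) (nat_lit 4196053) (.two (nat_lit 37748737) (nat_lit 2099247) (.two (nat_lit 4194304) (nat_lit 2099342) (.one (nat_lit 4196576) .nil))))))),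
   .two (nat_lit 9781117090) (nat_lit 4601151756) (.two (nat_lit 306184255) (nat_lit 9781117720) (.two (nat_lit 4194312) (nat_lit 9948890867) (.two (nat_lit 4194304) (nat_lit 68159499) (.one (nat_lit 1050819) .nil)))),
   .two (nat_lit 343933090) (nat_lit 159217877785) (.two (nat_lit 176160776) (nat_lit 9966716207) (.two (nat_lit 176160772) (nat_lit 1050322) (.two (nat_lit 34603009) (nat_lit 2099248) (.two (nat_lit 1048576) (nat_lit 8390756) (.one (nat_lit 1050849) .nil))))),
   .two (nat_lit 9948889250) (nat_lit 11477713650) (.two (nat_lit 654311439) (nat_lit 174686471188) (.two (nat_lit 2887778312) (nat_lit 50333205) (.two (nat_lit 34603009) (nat_lit 9867102129) (.two (nat_lit 1048576) (nat_lit 2099384) .nil)))),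
   .two (nat_lit 117440774) (nat_lit 1049064) (.two (nat_lit 47596961857) (nat_lit 606077454) (.two (nat_lit 754974735) (nat_lit 605029374) (.two (nat_lit 46407876616) (nat_lit 184550691) (.two (nat_lit 34603013) (nat_lit 9948890867) (.two (nat_lit 16777216) (nat_lit 269486262) .nil))))),
   .two (nat_lit 352321698) (nat_lit 158083318284) (.two (nat_lit 16777231) (nat_lit 2424308744) (.two (nat_lit 47563407368) (nat_lit 1753220529) (.two (nat_lit 159224168453) (nat_lit 285214227) (.two (nat_lit 16777217) (nat_lit 46514833355) (.two (nat_lit 1048576) (nat_lit 41945245) .nil))))),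
   .two (nat_lit 889192610) (nat_lit 142606743) (.two (nat_lit 3036676160) (nat_lit 2357199597) (.two (nat_lit 156367847439) (nat_lit 1291846670) (.two (nat_lit 21214789640) (nat_lit 218105121) (.two (nat_lit 1283457029) (nat_lit 50333201) (.two (nat_lit 4194305) (nat_lit 822085475) (.two (nat_lit 2097152) (nat_lit 10372515851) (.one (nat_lit 4196549) .nil))))))),
   .two (nat_lit 9781117090) (nat_lit 205521312) (.two (nat_lit 285212734) (nat_lit 9802089130) (.two (nat_lit 285212687) (nat_lit 708838424) (.two (nat_lit 4194312) (nat_lit 2969568792) (.two (nat_lit 605028353) (nat_lit 318769006) (.two (nat_lit 1048576) (nat_lit 4196454) (.one (nat_lit 1050822) .nil)))))),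
   .two (nat_lit 47548727458) (nat_lit 10385097228) (.two (nat_lit 1291845647) (nat_lit 673186584) (.two (nat_lit 169869320) (nat_lit 50333426) (.two (nat_lit 1048576) (nat_lit 606078981) (.one (nat_lit 16779463) .nil)))),
   .two (nat_lit 1358954658) (nat_lit 1049228) (.two (nat_lit 889192513) (nat_lit 813695502) (.two (nat_lit 11559501839) (nat_lit 158143087809) (.two (nat_lit 46984593416) (nat_lit 9948890403) (.two (nat_lit 721420292) (nat_lit 873465638) (.two (nat_lit 8388609) (nat_lit 50333426) (.two (nat_lit 1048576) (nat_lit 16779276) (.one (nat_lit 16779490) .nil))))))),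
   .two (nat_lit 41943202) (nat_lit 11479810435) (.two (nat_lit 8388670) (nat_lit 185002361357) (.two (nat_lit 176160783) (nat_lit 876610782) (.two (nat_lit 83886088) (nat_lit 46407877914) (.two (nat_lit 9948889093) (nat_lit 176162467) (.two (nat_lit 9781116929) (nat_lit 4196291) (.two (nat_lit 4194304) (nat_lit 16779407) (.one (nat_lit 2099427) .nil))))))),
   .two (nat_lit 843055266) (nat_lit 1191182860) (.two (nat_lit 11492392975) (nat_lit 11614029097) (.two (nat_lit 4194308) (nat_lit 285214451) (.two (nat_lit 4194304) (nat_lit 654313475) (.one (nat_lit 16779464) .nil)))),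
   .two (nat_lit 272629922) (nat_lit 47555019180) (.two (nat_lit 11543773246) (nat_lit 28791800332) (.two (nat_lit 4194319) (nat_lit 11618223098) (.two (nat_lit 4194312) (nat_lit 8390052) (.two (nat_lit 4194306) (nat_lit 8389955) (.two (nat_lit 2097155) (nat_lit 4195998) (.two (nat_lit 2097153) (nat_lit 8390580) (.two (nat_lit 1048576) (nat_lit 2099269) (.one (nat_lit 8390858) .nil)))))))),
   .two (nat_lit 9934209186) (nat_lit 9899606409) (.two (nat_lit 3036676161) (nat_lit 739246604) (.two (nat_lit 16777231) (nat_lit 11543773976) (.two (nat_lit 16777224) (nat_lit 1049884) (.two (nat_lit 11479810053) (nat_lit 1745880387) (.two (nat_lit 50331649) (nat_lit 68159413) (.two (nat_lit 4194304) (nat_lit 1050699) (.one (nat_lit 13222545530) .nil))))))),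
   .two (nat_lit 272629922) (nat_lit 352321923) (.two (nat_lit 11479810113) (nat_lit 19026412045) (.two (nat_lit 809500687) (nat_lit 235930641) (.two (nat_lit 218103816) (nat_lit 1279264028) (.two (nat_lit 37748739) (nat_lit 10906240670) (.two (nat_lit 16777217) (nat_lit 185027528627) (.two (nat_lit 1048576) (nat_lit 4196428) (.one (nat_lit 1962936441) .nil))))))),
   .two (nat_lit 8388770) (nat_lit 236978567) (.two (nat_lit 855638117) (nat_lit 1779433996) (.two (nat_lit 13203669007) (nat_lit 9933161479) (.two (nat_lit 285212680) (nat_lit 20637025562) (.two (nat_lit 1846542341) (nat_lit 11477714468) (.two (nat_lit 605028353) (nat_lit 11477714468) (.two (nat_lit 2097152) (nat_lit 168822857) (.one (nat_lit 8390779) .nil))))))),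
   .two (nat_lit 41943202) (nat_lit 3573547415) (.two (nat_lit 1746927724) (nat_lit 343933234) (.two (nat_lit 11551113280) (nat_lit 4647289013) (.two (nat_lit 285212687) (nat_lit 1413481494) (.two (nat_lit 159232557064) (nat_lit 10336863515) (.two (nat_lit 16777218) (nat_lit 2098973) (.two (nat_lit 20652752899) (nat_lit 2099079) (.two (nat_lit 37748737) (nat_lit 2099234) (.two (nat_lit 8388608) (nat_lit 2099214) (.one (nat_lit 2099428) .nil))))))))),
   .two (nat_lit 612368546) (nat_lit 10519314861) (.two (nat_lit 679477268) (nat_lit 2889876369) (.two (nat_lit 1746927724) (nat_lit 3028287794) (.two (nat_lit 8388670) (nat_lit 18926796985) (.two (nat_lit 1178599439) (nat_lit 337642640) (.two (nat_lit 16777224) (nat_lit 37750046) (.two (nat_lit 3458203653) (nat_lit 4196017) (.two (nat_lit 37748737) (nat_lit 2099240) (.two (nat_lit 4194304) (nat_lit 8390805) (.one (nat_lit 8390887) .nil))))))))),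
   .two (nat_lit 272629922) (nat_lit 47555019180) (.two (nat_lit 11543773246) (nat_lit 28791800332) (.two (nat_lit 4194319) (nat_lit 11618223098) (.two (nat_lit 4194312) (nat_lit 8390052) (.two (nat_lit 46414168068) (nat_lit 9934210126) (.two (nat_lit 2097155) (nat_lit 4195998) (.two (nat_lit 2097153) (nat_lit 8390580) (.two (nat_lit 1048576) (nat_lit 2099269) (.one (nat_lit 8390889) .nil)))))))),
   .two (nat_lit 272629922) (nat_lit 47555019180) (.two (nat_lit 11543773246) (nat_lit 28791800332) (.two (nat_lit 4194319) (nat_lit 11618223098) (.two (nat_lit 4194312) (nat_lit 8390052) (.two (nat_lit 4194306) (nat_lit 8390177) (.two (nat_lit 2097155) (nat_lit 4195998) (.two (nat_lit 2097153) (nat_lit 8390580) (.two (nat_lit 1048576) (nat_lit 2099269) (.one (nat_lit 8390891) .nil)))))))),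
   .two (nat_lit 13237223586) (nat_lit 9802089240) (.two (nat_lit 2902458383) (nat_lit 166130091291) (.two (nat_lit 37748744) (nat_lit 16778993) (.two (nat_lit 4194305) (nat_lit 35653632) (.two (nat_lit 2097152) (nat_lit 608176283) (.one (nat_lit 16779502) .nil))))),
   .two (nat_lit 306184354) (nat_lit 9781117452) (.two (nat_lit 285212737) (nat_lit 19532874746) (.two (nat_lit 2902458383) (nat_lit 9802089750) (.two (nat_lit 272629768) (nat_lit 16778994) (.two (nat_lit 4194305) (nat_lit 16779267) (.two (nat_lit 4194304) (nat_lit 16779424) (.one (nat_lit 16779504) .nil)))))),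
   .two (nat_lit 156372041890) (nat_lit 272630448) (.two (nat_lit 37748837) (nat_lit 183853122329) (.two (nat_lit 37748751) (nat_lit 880805393) (.two (nat_lit 169869316) (nat_lit 880805731) (.two (nat_lit 2097153) (nat_lit 13191088133) (.two (nat_lit 2097152) (nat_lit 4196520) (.one (nat_lit 337643757) .nil)))))),
   .two (nat_lit 822083746) (nat_lit 2953839343) (.two (nat_lit 10907287617) (nat_lit 3003122698) (.two (nat_lit 754974735) (nat_lit 2316305686) (.two (nat_lit 1343225864) (nat_lit 117442068) (.two (nat_lit 34603013) (nat_lit 2902460264) (.two (nat_lit 2097153) (nat_lit 10385098826) (.two (nat_lit 2097152) (nat_lit 1291847847) (.one (nat_lit 16779507) .nil))))))),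
   .two (nat_lit 11007951372) (nat_lit 235929693) (.two (nat_lit 4028629055) (nat_lit 156971828234) (.two (nat_lit 157038936079) (nat_lit 1050068) (.two (nat_lit 46978301960) (nat_lit 34604366) (.two (nat_lit 4194306) (nat_lit 1050363) (.two (nat_lit 2887778307) (nat_lit 336594275) (.two (nat_lit 2097153) (nat_lit 1050709) (.two (nat_lit 1048576) (nat_lit 2099070) (.one (nat_lit 1050869) .nil)))))))),
   .two (nat_lit 21811429415) (nat_lit 20705182289) (.two (nat_lit 158150426631) (nat_lit 2098743) (.two (nat_lit 8388608) (nat_lit 2099406) .nil)),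
   .two (nat_lit 184549638) (nat_lit 21785215569) (.two (nat_lit 612368391) (nat_lit 16778604) (.two (nat_lit 8388608) (nat_lit 16779293) .nil)),
   .two (nat_lit 9934209186) (nat_lit 9899606409) (.two (nat_lit 3036676161) (nat_lit 739246604) (.two (nat_lit 16777231) (nat_lit 11543773976) (.two (nat_lit 16777224) (nat_lit 1049884) (.two (nat_lit 16777220) (nat_lit 1343226953) (.two (nat_lit 16777220) (nat_lit 11543774286) (.two (nat_lit 16777217) (nat_lit 606078901) (.two (nat_lit 4194304) (nat_lit 1050699) (.one (nat_lit 1050875) .nil)))))))),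
   .two (nat_lit 9768534178) (nat_lit 1962934659) (.two (nat_lit 272629824) (nat_lit 19026412045) (.two (nat_lit 4194319) (nat_lit 47588574210) (.two (nat_lit 2902458376) (nat_lit 2953839900) (.two (nat_lit 4194308) (nat_lit 4598007108) (.two (nat_lit 285212677) (nat_lit 9866052686) (.two (nat_lit 37748737) (nat_lit 19529729971) (.two (nat_lit 4194304) (nat_lit 21214791756) (.one (nat_lit 1050876) .nil)))))))),
   .two (nat_lit 8388770) (nat_lit 236978567) (.two (nat_lit 855638117) (nat_lit 1779433996) (.two (nat_lit 13203669007) (nat_lit 1049604) (.two (nat_lit 16777224) (nat_lit 20637025562) (.two (nat_lit 8388612) (nat_lit 28690089508) (.two (nat_lit 16777220) (nat_lit 101712974) (.two (nat_lit 605028353) (nat_lit 46508541477) (.two (nat_lit 2097152) (nat_lit 168822857) (.one (nat_lit 1050854) .nil)))))))),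
   .two (nat_lit 9934209186) (nat_lit 9899606409) (.two (nat_lit 3036676161) (nat_lit 739246604) (.two (nat_lit 16777231) (nat_lit 11543773976) (.two (nat_lit 16777224) (nat_lit 1049884) (.two (nat_lit 16777220) (nat_lit 11543774286) (.two (nat_lit 16777219) (nat_lit 9768535709) (.two (nat_lit 16777217) (nat_lit 606078901) (.two (nat_lit 4194304) (nat_lit 1050699) (.one (nat_lit 1050878) .nil)))))))),
   .two (nat_lit 9768534178) (nat_lit 1962934659) (.two (nat_lit 272629824) (nat_lit 19026412045) (.two (nat_lit 4194319) (nat_lit 47588574210) (.two (nat_lit 2902458376) (nat_lit 2953839900) (.two (nat_lit 285212677) (nat_lit 9866052686) (.two (nat_lit 16777219) (nat_lit 101713560) (.two (nat_lit 37748737) (nat_lit 19529729971) (.two (nat_lit 4194304) (nat_lit 21214791756) (.one (nat_lit 1050879) .nil)))))))),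
   .two (nat_lit 8388770) (nat_lit 236978567) (.two (nat_lit 855638117) (nat_lit 1779433996) (.two (nat_lit 13203669007) (nat_lit 1049604) (.two (nat_lit 16777224) (nat_lit 20637025562) (.two (nat_lit 16777220) (nat_lit 101712974) (.two (nat_lit 16777219) (nat_lit 746587832) (.two (nat_lit 156365750273) (nat_lit 1050683) (.two (nat_lit 2097152) (nat_lit 168822857) (.one (nat_lit 1050880) .nil)))))))),
   .two (nat_lit 41943202) (nat_lit 3573547415) (.two (nat_lit 3464495141) (nat_lit 9869198447) (.two (nat_lit 8388670) (nat_lit 4194838) (.two (nat_lit 285212687) (nat_lit 706741251) (.two (nat_lit 16777224) (nat_lit 606078238) (.two (nat_lit 3458203653) (nat_lit 4196017) (.two (nat_lit 37748737) (nat_lit 2099234) (.two (nat_lit 4194304) (nat_lit 8390866) (.one (nat_lit 2099457) .nil)))))))),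
   .two (nat_lit 272629922) (nat_lit 183953785218) (.two (nat_lit 4194367) (nat_lit 343933452) (.two (nat_lit 4194319) (nat_lit 343933720) (.two (nat_lit 4194312) (nat_lit 156372043036) (.two (nat_lit 4194308) (nat_lit 3028289054) (.two (nat_lit 2097155) (nat_lit 11546920610) (.two (nat_lit 2097153) (nat_lit 13195282349) (.two (nat_lit 1048576) (nat_lit 171968595) (.one (nat_lit 8390892) .nil)))))))),
   .two (nat_lit 272629922) (nat_lit 165532402044) (.two (nat_lit 158176641088) (nat_lit 19096666636) (.two (nat_lit 272629775) (nat_lit 28093449210) (.two (nat_lit 4194312) (nat_lit 10007610646) (.two (nat_lit 4194308) (nat_lit 10007610897) (.two (nat_lit 4194305) (nat_lit 46984595305) (.two (nat_lit 4194304) (nat_lit 1343227908) (.one (nat_lit 8390914) .nil))))))),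
   .two (nat_lit 4647288994) (nat_lit 4194830) (.two (nat_lit 337641580) (nat_lit 117441304) (.two (nat_lit 9781116943) (nat_lit 1050018) (.two (nat_lit 9781116936) (nat_lit 1050384) (.two (nat_lit 2097157) (nat_lit 16778993) (.two (nat_lit 2097153) (nat_lit 1050783) (.one (nat_lit 1050863) .nil)))))),
   .two (nat_lit 13237223586) (nat_lit 9802088972) (.two (nat_lit 4601151553) (nat_lit 9781117720) (.two (nat_lit 3458203663) (nat_lit 46422557978) (.two (nat_lit 46409973768) (nat_lit 16778772) (.two (nat_lit 2954887173) (nat_lit 16778993) (.two (nat_lit 2097153) (nat_lit 71305216) (.two (nat_lit 2097152) (nat_lit 708839583) (.one (nat_lit 2099462) .nil))))))),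
   .two (nat_lit 8388770) (nat_lit 4030726830) (.two (nat_lit 11618222145) (nat_lit 156380431516) (.two (nat_lit 8388623) (nat_lit 46406829737) (.two (nat_lit 157035790341) (nat_lit 156573370368) (.two (nat_lit 16777216) (nat_lit 4631562401) (.one (nat_lit 1050887) .nil))))),
   .two (nat_lit 10015998114) (nat_lit 813695502) (.two (nat_lit 18933088361) (nat_lit 184989778949) (.two (nat_lit 156367847439) (nat_lit 4605347238) (.two (nat_lit 3460300808) (nat_lit 218105364) (.two (nat_lit 9933160453) (nat_lit 285214727) (.two (nat_lit 4194304) (nat_lit 269486239) (.one (nat_lit 2961180934) .nil)))))),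
   .two (nat_lit 10015998114) (nat_lit 156372042252) (.two (nat_lit 3036676161) (nat_lit 41944086) (.two (nat_lit 46414168079) (nat_lit 1795163420) (.two (nat_lit 46414168072) (nat_lit 2969568788) (.two (nat_lit 4605345797) (nat_lit 654313473) (.two (nat_lit 4194304) (nat_lit 16779435) (.one (nat_lit 285214985) .nil)))))),
   .two (nat_lit 11610882310) (nat_lit 10007610136) (.two (nat_lit 169869327) (nat_lit 343934239) (.two (nat_lit 4194312) (nat_lit 11477714614) (.two (nat_lit 157036838917) (nat_lit 746588095) (.two (nat_lit 2097153) (nat_lit 1050710) (.two (nat_lit 1048576) (nat_lit 4196529) (.one (nat_lit 4196624) .nil)))))),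
   .two (nat_lit 8388770) (nat_lit 3458204356) (.two (nat_lit 8388670) (nat_lit 159216829439) (.two (nat_lit 612368399) (nat_lit 156364703142) (.two (nat_lit 176160776) (nat_lit 2920285852) (.two (nat_lit 3464495109) (nat_lit 2099138) (.two (nat_lit 612368385) (nat_lit 1050711) (.two (nat_lit 1048576) (nat_lit 2099419) (.one (nat_lit 1050897) .nil))))))),
   .two (nat_lit 10007609506) (nat_lit 2987393738) (.two (nat_lit 11618222145) (nat_lit 1049806) (.two (nat_lit 9948889103) (nat_lit 46414169385) (.two (nat_lit 83886088) (nat_lit 4196000) (.two (nat_lit 8388612) (nat_lit 9798944779) (.two (nat_lit 8388608) (nat_lit 16779442) (.one (nat_lit 8390930) .nil)))))),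
   .two (nat_lit 156581757090) (nat_lit 184419353256) (.two (nat_lit 9974054977) (nat_lit 822084618) (.two (nat_lit 285212687) (nat_lit 2961180111) (.two (nat_lit 272629768) (nat_lit 218105364) (.two (nat_lit 4194308) (nat_lit 41945088) (.two (nat_lit 8388608) (nat_lit 16779453) (.one (nat_lit 4196630) .nil)))))),
   .two (nat_lit 10015998114) (nat_lit 310379201) (.two (nat_lit 46414168171) (nat_lit 19599983644) (.two (nat_lit 721420303) (nat_lit 10913580498) (.two (nat_lit 1276117000) (nat_lit 654312979) (.two (nat_lit 605028357) (nat_lit 159232558958) (.two (nat_lit 4194305) (nat_lit 276826298) (.one (nat_lit 1050909) .nil)))))),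
   .two (nat_lit 13237223586) (nat_lit 166132187821) (.two (nat_lit 876609637) (nat_lit 9781117720) (.two (nat_lit 37748751) (nat_lit 9781118481) (.two (nat_lit 4194308) (nat_lit 9781118819) (.two (nat_lit 2097153) (nat_lit 4196493) (.two (nat_lit 16777216) (nat_lit 2099390) (.one (nat_lit 2099486) .nil)))))),
   .two (nat_lit 156581757090) (nat_lit 183916036801) (.two (nat_lit 159266111681) (nat_lit 673186584) (.two (nat_lit 37748751) (nat_lit 218105364) (.two (nat_lit 4194308) (nat_lit 16779119) (.two (nat_lit 4194305) (nat_lit 639633408) (.two (nat_lit 8388608) (nat_lit 608176285) (.one (nat_lit 4196639) .nil)))))),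
   .two (nat_lit 285212834) (nat_lit 1916797609) (.two (nat_lit 285212734) (nat_lit 1749025813) (.two (nat_lit 2902458383) (nat_lit 11546920408) (.two (nat_lit 809500680) (nat_lit 9781118481) (.two (nat_lit 4194308) (nat_lit 159232558953) (.two (nat_lit 4194305) (nat_lit 16779363) (.two (nat_lit 16777216) (nat_lit 4196543) (.one (nat_lit 4196634) .nil))))))),
   .two (nat_lit 9948889250) (nat_lit 11477713650) (.two (nat_lit 37314625601) (nat_lit 9948890322) (.two (nat_lit 47563407375) (nat_lit 2098809) (.two (nat_lit 2887778312) (nat_lit 50333205) (.two (nat_lit 2887778308) (nat_lit 16779117) (.two (nat_lit 605028353) (nat_lit 2099384) (.one (nat_lit 2099488) .nil)))))),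
   .two (nat_lit 10015998114) (nat_lit 18933088935) (.two (nat_lit 4605345855) (nat_lit 11593057313) (.two (nat_lit 4605345807) (nat_lit 3036677540) (.two (nat_lit 157038936072) (nat_lit 3531605666) (.two (nat_lit 8388612) (nat_lit 50333539) (.two (nat_lit 4194305) (nat_lit 41945093) (.two (nat_lit 4194304) (nat_lit 8390878) (.one (nat_lit 4196636) .nil))))))),
   .two (nat_lit 41943202) (nat_lit 772801200) (.two (nat_lit 8388670) (nat_lit 21777875737) (.two (nat_lit 713031695) (nat_lit 21778924830) (.two (nat_lit 713031688) (nat_lit 184987682508) (.two (nat_lit 176160772) (nat_lit 2099162) (.two (nat_lit 606076929) (nat_lit 41945179) (.two (nat_lit 2097152) (nat_lit 8390848) (.one (nat_lit 1050913) .nil))))))),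
   .two (nat_lit 352321698) (nat_lit 158083318284) (.two (nat_lit 16777281) (nat_lit 183853122563) (.two (nat_lit 16777231) (nat_lit 18933089571) (.two (nat_lit 47563407368) (nat_lit 10343155386) (.two (nat_lit 159224168453) (nat_lit 16779227) (.two (nat_lit 156364701697) (nat_lit 9781119059) (.two (nat_lit 1048576) (nat_lit 41945245) (.one (nat_lit 8390946) .nil))))))),
   .two (nat_lit 1947205794) (nat_lit 2098085) (.two (nat_lit 11543773246) (nat_lit 19597885776) (.two (nat_lit 8388623) (nat_lit 156364702285) (.two (nat_lit 16777224) (nat_lit 2098986) (.two (nat_lit 8388612) (nat_lit 28690089508) (.two (nat_lit 9765388289) (nat_lit 8390396) (.two (nat_lit 2097152) (nat_lit 1050856) (.one (nat_lit 1050748) .nil))))))),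
   .two (nat_lit 4194828) (nat_lit 18933088437) (.two (nat_lit 606077190) (nat_lit 156372042521) (.two (nat_lit 4194367) (nat_lit 4605347096) (.two (nat_lit 4194319) (nat_lit 21785216532) (.two (nat_lit 4194312) (nat_lit 8389719) (.two (nat_lit 169869316) (nat_lit 873465856) (.two (nat_lit 2097153) (nat_lit 873466017) (.two (nat_lit 1048576) (nat_lit 343934995) (.one (nat_lit 1050925) .nil)))))))),
   .two (nat_lit 156535619746) (nat_lit 158144136218) (.two (nat_lit 4601151553) (nat_lit 209716289) (.two (nat_lit 641728520) (nat_lit 9781118820) (.two (nat_lit 272629765) (nat_lit 318768692) (.two (nat_lit 2097152) (nat_lit 16779510) (.one (nat_lit 16779472) .nil))))),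
   .two (nat_lit 1753219334) (nat_lit 168821326) (.two (nat_lit 4194312) (nat_lit 165532403261) (.two (nat_lit 8388608) (nat_lit 16779471) .nil)),
   .two (nat_lit 285213464) (nat_lit 11611930814) (.two (nat_lit 9781116949) (nat_lit 46407877980) (.two (nat_lit 1291845634) (nat_lit 2099075) (.one (nat_lit 2099449) .nil))),
   .two (nat_lit 880804002) (nat_lit 10503586686) (.two (nat_lit 3003121765) (nat_lit 109052942) (.two (nat_lit 47563407384) (nat_lit 13187941803) (.two (nat_lit 16777224) (nat_lit 2098864) (.two (nat_lit 176160770) (nat_lit 1050148) (.two (nat_lit 2097155) (nat_lit 16779297) (.two (nat_lit 156365750273) (nat_lit 1050697) (.two (nat_lit 1048576) (nat_lit 2099450) (.one (nat_lit 1050919) .nil)))))))),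
   .two (nat_lit 880804002) (nat_lit 10503586686) (.two (nat_lit 3003121765) (nat_lit 109052942) (.two (nat_lit 3003121687) (nat_lit 739247559) (.two (nat_lit 16777224) (nat_lit 2098864) (.two (nat_lit 2887778308) (nat_lit 1309672997) (.two (nat_lit 2097155) (nat_lit 16779297) (.two (nat_lit 156365750273) (nat_lit 1050697) (.two (nat_lit 1048576) (nat_lit 2099450) (.one (nat_lit 1050920) .nil)))))))),
   .two (nat_lit 343933090) (nat_lit 102761381) (.two (nat_lit 3003121765) (nat_lit 109052942) (.two (nat_lit 3003121687) (nat_lit 739247559) (.two (nat_lit 16777224) (nat_lit 2098864) (.two (nat_lit 176160770) (nat_lit 1050682) (.two (nat_lit 2097155) (nat_lit 16779297) (.two (nat_lit 156365750273) (nat_lit 1050697) (.two (nat_lit 1048576) (nat_lit 2099450) (.one (nat_lit 1050936) .nil)))))))),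
   .two (nat_lit 3028288013) (nat_lit 721420962) (.two (nat_lit 16777378) (nat_lit 1417676057) (.two (nat_lit 16777231) (nat_lit 343934706) (.two (nat_lit 16777220) (nat_lit 8390720) (.two (nat_lit 8388609) (nat_lit 16779422) (.two (nat_lit 8388608) (nat_lit 16779524) (.one (nat_lit 41945387) .nil)))))),
   .two (nat_lit 21827158540) (nat_lit 37313577485) (.two (nat_lit 37313577342) (nat_lit 2420114200) (.two (nat_lit 158143086657) (nat_lit 4195611) (.two (nat_lit 9781116943) (nat_lit 9802090001) (.two (nat_lit 4194312) (nat_lit 16779166) (.two (nat_lit 4194308) (nat_lit 16779329) (.two (nat_lit 156364701697) (nat_lit 13237225709) (.one (nat_lit 1050924) .nil))))))),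
   .two (nat_lit 9781117452) (nat_lit 4194990) (.two (nat_lit 285212834) (nat_lit 184419353597) (.two (nat_lit 285212734) (nat_lit 11513365784) (.two (nat_lit 809500687) (nat_lit 16778993) (.two (nat_lit 4194308) (nat_lit 16779266) (.two (nat_lit 4194305) (nat_lit 203425949) (.two (nat_lit 2097152) (nat_lit 9768536363) .nil)))))),
   .two (nat_lit 675283468) (nat_lit 11007951372) (.two (nat_lit 47596961954) (nat_lit 2098174) (.two (nat_lit 3460300863) (nat_lit 2098593) (.two (nat_lit 9781116943) (nat_lit 1050383) (.two (nat_lit 9781116936) (nat_lit 1050527) (.two (nat_lit 171966469) (nat_lit 11477714944) (.two (nat_lit 2097153) (nat_lit 1050783) (.two (nat_lit 1048576) (nat_lit 2099461) (.one (nat_lit 1050940) .nil)))))))),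
   .two (nat_lit 9781117452) (nat_lit 1410335244) (.two (nat_lit 9781117090) (nat_lit 12047090695) (.two (nat_lit 339738687) (nat_lit 285214226) (.two (nat_lit 4194312) (nat_lit 620759047) (.two (nat_lit 2097153) (nat_lit 50333934) (.one (nat_lit 1050923) .nil))))),
   .two (nat_lit 9948889612) (nat_lit 183947494121) (.two (nat_lit 9948889250) (nat_lit 11007951641) (.two (nat_lit 2969567296) (nat_lit 46508541360) (.two (nat_lit 2969567247) (nat_lit 679478939) (.two (nat_lit 2954887176) (nat_lit 285214727) (.two (nat_lit 41943041) (nat_lit 35653787) (.two (nat_lit 8388608) (nat_lit 184551664) (.one (nat_lit 2099518) .nil))))))),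
   .two (nat_lit 156367847948) (nat_lit 813695502) (.two (nat_lit 21827158178) (nat_lit 9933161470) (.two (nat_lit 46984593471) (nat_lit 2956985761) (.two (nat_lit 1929379855) (nat_lit 13224642231) (.two (nat_lit 46409973768) (nat_lit 218105706) (.two (nat_lit 9933160453) (nat_lit 285214727) (.two (nat_lit 4194305) (nat_lit 269486239) (.two (nat_lit 1048576) (nat_lit 16779529) (.one (nat_lit 1050943) .nil)))))))),
   .two (nat_lit 654311948) (nat_lit 4599055072) (.two (nat_lit 2969567394) (nat_lit 21208499197) (.two (nat_lit 2969567294) (nat_lit 1310721304) (.two (nat_lit 9781116943) (nat_lit 3558868642) (.two (nat_lit 218103816) (nat_lit 10538190693) (.two (nat_lit 169869316) (nat_lit 16779266) (.two (nat_lit 2097153) (nat_lit 2902460574) (.two (nat_lit 2097152) (nat_lit 16779530) (.one (nat_lit 639633707) .nil)))))))),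
   .two (nat_lit 185002361356) (nat_lit 2961179358) (.two (nat_lit 612368546) (nat_lit 13203670026) (.two (nat_lit 9940500581) (nat_lit 28772926747) (.two (nat_lit 721420303) (nat_lit 339740523) (.two (nat_lit 50331653) (nat_lit 2099278) (.two (nat_lit 620756993) (nat_lit 9974057122) (.two (nat_lit 8388608) (nat_lit 2099470) (.one (nat_lit 2099522) .nil))))))),
   .two (nat_lit 9781117452) (nat_lit 4631560718) (.two (nat_lit 9781117090) (nat_lit 9802089645) (.two (nat_lit 285212734) (nat_lit 168822212) (.two (nat_lit 4194319) (nat_lit 16778993) (.two (nat_lit 4194308) (nat_lit 2886731776) (.two (nat_lit 4194305) (nat_lit 605030559) (.two (nat_lit 1048576) (nat_lit 4196623) (.one (nat_lit 1050923) .nil))))))),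
   .two (nat_lit 1191182860) (nat_lit 2954887907) (.two (nat_lit 11610882310) (nat_lit 654312216) (.two (nat_lit 339738687) (nat_lit 2902459672) (.two (nat_lit 4194319) (nat_lit 50333203) (.two (nat_lit 809500680) (nat_lit 9765390336) (.two (nat_lit 2097153) (nat_lit 742394040) (.two (nat_lit 1048576) (nat_lit 2099480) (.one (nat_lit 1050949) .nil))))))),
   .two (nat_lit 754975245) (nat_lit 4599055052) (.two (nat_lit 47548727458) (nat_lit 11559502853) (.two (nat_lit 705691711) (nat_lit 285214226) (.two (nat_lit 4194312) (nat_lit 721422066) (.two (nat_lit 4194308) (nat_lit 304089092) (.two (nat_lit 4194305) (nat_lit 9948891317) (.two (nat_lit 1048576) (nat_lit 16779545) (.one (nat_lit 1050950) .nil))))))),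
   .two (nat_lit 21793604109) (nat_lit 165532402188) (.two (nat_lit 3458203911) (nat_lit 11618223105) (.two (nat_lit 12050235455) (nat_lit 8390125) (.two (nat_lit 285212687) (nat_lit 8390461) (.two (nat_lit 37748744) (nat_lit 41945088) (.two (nat_lit 606076929) (nat_lit 4196536) (.two (nat_lit 2097152) (nat_lit 4196630) (.one (nat_lit 2099527) .nil))))))),
   .two (nat_lit 185035915789) (nat_lit 166229705429) (.two (nat_lit 4647288994) (nat_lit 1749025813) (.two (nat_lit 183962173504) (nat_lit 4195822) (.two (nat_lit 809500687) (nat_lit 9781118481) (.two (nat_lit 4194312) (nat_lit 159232558953) (.two (nat_lit 4194308) (nat_lit 16779362) (.two (nat_lit 605028353) (nat_lit 4196539) (.two (nat_lit 1048576) (nat_lit 4196634) (.one (nat_lit 4196680) .nil)))))))),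
   .two (nat_lit 156372042253) (nat_lit 165525062156) (.two (nat_lit 352321698) (nat_lit 156372042521) (.two (nat_lit 4605345854) (nat_lit 10369369371) (.two (nat_lit 11559501839) (nat_lit 166196151960) (.two (nat_lit 8388616) (nat_lit 34605056) (.two (nat_lit 4194305) (nat_lit 806357153) (.two (nat_lit 1048576) (nat_lit 8390939) (.one (nat_lit 1050953) .nil))))))),
   .two (nat_lit 1191182860) (nat_lit 9802089186) (.two (nat_lit 21777875106) (nat_lit 721421612) (.two (nat_lit 4194319) (nat_lit 721422066) (.two (nat_lit 4194308) (nat_lit 83888129) (.two (nat_lit 4194305) (nat_lit 721422508) (.two (nat_lit 4194304) (nat_lit 721422576) (.one (nat_lit 16779594) .nil)))))),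
   .two (nat_lit 174686470668) (nat_lit 21210596009) (.two (nat_lit 847249570) (nat_lit 10385097742) (.two (nat_lit 1849688127) (nat_lit 9766438315) (.two (nat_lit 156367847439) (nat_lit 183846831805) (.two (nat_lit 813694984) (nat_lit 50333539) (.two (nat_lit 46980399109) (nat_lit 41945093) (.two (nat_lit 4194305) (nat_lit 2099388) (.two (nat_lit 2097152) (nat_lit 4196636) (.one (nat_lit 4196683) .nil)))))))),
   .two (nat_lit 272629948) (nat_lit 174686470669) (.two (nat_lit 9940500742) (nat_lit 11007951641) (.two (nat_lit 2961178687) (nat_lit 3558868249) (.two (nat_lit 4194319) (nat_lit 10007611039) (.two (nat_lit 176160774) (nat_lit 10537142272) (.two (nat_lit 612368392) (nat_lit 639632471) (.two (nat_lit 171966469) (nat_lit 47588575237) (.two (nat_lit 8388609) (nat_lit 10537142433) (.two (nat_lit 1048576) (nat_lit 2099493) (.one (nat_lit 202377517) .nil))))))))),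
   .two (nat_lit 176161292) (nat_lit 876609725) (.two (nat_lit 21811429538) (nat_lit 12155094021) (.two (nat_lit 8388673) (nat_lit 168822207) (.two (nat_lit 620757007) (nat_lit 1178601112) (.two (nat_lit 739246088) (nat_lit 2889876567) (.two (nat_lit 46992982021) (nat_lit 19134416896) (.two (nat_lit 8388609) (nat_lit 754976937) (.two (nat_lit 8388608) (nat_lit 4196224) (.one (nat_lit 4196684) .nil)))))))),
   .two (nat_lit 10336862370) (nat_lit 1283458046) (.two (nat_lit 12617515116) (nat_lit 1417676068) (.two (nat_lit 169869320) (nat_lit 8390616) (.two (nat_lit 2097157) (nat_lit 16779361) (.two (nat_lit 1048576) (nat_lit 16779543) (.one (nat_lit 16779391) .nil))))),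
   .two (nat_lit 16777740) (nat_lit 19134415185) (.two (nat_lit 16777278) (nat_lit 13195281231) (.two (nat_lit 41943055) (nat_lit 16778993) (.two (nat_lit 8388612) (nat_lit 9948890883) (.two (nat_lit 8388609) (nat_lit 11559503891) (.one (nat_lit 41945336) .nil))))),
   .two (nat_lit 157038936588) (nat_lit 46406828370) (.two (nat_lit 9802088549) (nat_lit 68158790) (.two (nat_lit 10336862223) (nat_lit 156566029660) (.two (nat_lit 4194306) (nat_lit 1050806) (.two (nat_lit 2097153) (nat_lit 4196228) (.one (nat_lit 1050958) .nil))))),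
   .two (nat_lit 47548727484) (nat_lit 18933089290) (.two (nat_lit 306184210) (nat_lit 156573369699) (.two (nat_lit 2889875458) (nat_lit 2099223) (.one (nat_lit 2099535) .nil))),
   .two (nat_lit 272629948) (nat_lit 18933088781) (.two (nat_lit 606077190) (nat_lit 156372042521) (.two (nat_lit 4194367) (nat_lit 4605347096) (.two (nat_lit 4194319) (nat_lit 21785216532) (.two (nat_lit 169869318) (nat_lit 873465856) (.two (nat_lit 4194311) (nat_lit 8389719) (.two (nat_lit 169869316) (nat_lit 873465856) (.two (nat_lit 2097153) (nat_lit 873466017) (.two (nat_lit 4194304) (nat_lit 8390948) (.one (nat_lit 1050925) .nil))))))))),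
   .two (nat_lit 47563407885) (nat_lit 10007609650) (.two (nat_lit 10007609506) (nat_lit 873464837) (.two (nat_lit 8388670) (nat_lit 11525948709) (.two (nat_lit 8388623) (nat_lit 12047091354) (.two (nat_lit 184549382) (nat_lit 1050469) (.two (nat_lit 8388616) (nat_lit 272630871) (.two (nat_lit 46992982021) (nat_lit 156573370368) (.two (nat_lit 16777217) (nat_lit 4631562401) (.two (nat_lit 16777216) (nat_lit 4196646) (.one (nat_lit 4196689) .nil))))))))),
   .two (nat_lit 12117344440) (nat_lit 18933088781) (.two (nat_lit 4194828) (nat_lit 10343153977) (.two (nat_lit 606077190) (nat_lit 156372042521) (.two (nat_lit 4194367) (nat_lit 4605347096) (.two (nat_lit 4194319) (nat_lit 21785216532) (.two (nat_lit 169869318) (nat_lit 873465856) (.two (nat_lit 4194312) (nat_lit 3464496468) (.two (nat_lit 169869316) (nat_lit 873465856) (.two (nat_lit 2097153) (nat_lit 873466017) (.two (nat_lit 4194304) (nat_lit 8390962) (.one (nat_lit 1050925) .nil)))))))))),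
   .two (nat_lit 8388796) (nat_lit 19128124125) (.two (nat_lit 2961179148) (nat_lit 673186105) (.two (nat_lit 9940500742) (nat_lit 11007951641) (.two (nat_lit 2961178687) (nat_lit 3558868249) (.two (nat_lit 4194319) (nat_lit 10007611039) (.two (nat_lit 176160774) (nat_lit 10537142272) (.two (nat_lit 4194312) (nat_lit 166230754646) (.two (nat_lit 171966469) (nat_lit 47588575237) (.two (nat_lit 8388609) (nat_lit 10537142433) (.two (nat_lit 8388608) (nat_lit 2099507) (.one (nat_lit 202377517) .nil)))))))))),
   .two (nat_lit 41943228) (nat_lit 10906239501) (.two (nat_lit 47563407885) (nat_lit 10007609650) (.two (nat_lit 10007609506) (nat_lit 873464837) (.two (nat_lit 8388670) (nat_lit 168822207) (.two (nat_lit 8388623) (nat_lit 12047091354) (.two (nat_lit 184549382) (nat_lit 1050469) (.two (nat_lit 620757000) (nat_lit 68158804) (.two (nat_lit 46992982021) (nat_lit 156573370368) (.two (nat_lit 8388609) (nat_lit 754976937) (.two (nat_lit 16777216) (nat_lit 4196660) (.one (nat_lit 4196690) .nil)))))))))),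
   .two (nat_lit 272630066) (nat_lit 1417675444) (.two (nat_lit 606077190) (nat_lit 156372042521) (.two (nat_lit 4194367) (nat_lit 4605347096) (.two (nat_lit 4194319) (nat_lit 21785216532) (.two (nat_lit 169869318) (nat_lit 873465856) (.two (nat_lit 4194312) (nat_lit 47555020122) (.two (nat_lit 169869316) (nat_lit 873465856) (.two (nat_lit 2097153) (nat_lit 873466017) (.two (nat_lit 4194304) (nat_lit 8390965) (.one (nat_lit 1050925) .nil))))))))),
   .two (nat_lit 272630066) (nat_lit 4028629687) (.two (nat_lit 9940500742) (nat_lit 11007951641) (.two (nat_lit 2961178687) (nat_lit 3558868249) (.two (nat_lit 4194319) (nat_lit 10007611039) (.two (nat_lit 176160774) (nat_lit 10537142272) (.two (nat_lit 2961178632) (nat_lit 2988442970) (.two (nat_lit 171966469) (nat_lit 47588575237) (.two (nat_lit 8388609) (nat_lit 10537142433) (.two (nat_lit 8388608) (nat_lit 2099510) (.one (nat_lit 202377517) .nil))))))))),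
   .two (nat_lit 8388914) (nat_lit 4030726830) (.two (nat_lit 10007609506) (nat_lit 873464837) (.two (nat_lit 8388670) (nat_lit 168822207) (.two (nat_lit 8388623) (nat_lit 12047091354) (.two (nat_lit 184549382) (nat_lit 1050469) (.two (nat_lit 620757000) (nat_lit 68158810) (.two (nat_lit 46992982021) (nat_lit 156573370368) (.two (nat_lit 8388609) (nat_lit 754976937) (.two (nat_lit 16777216) (nat_lit 4196663) (.one (nat_lit 4196691) .nil))))))))),
   .two (nat_lit 156465365516) (nat_lit 142607128) (.two (nat_lit 8388770) (nat_lit 11492394262) (.two (nat_lit 8388670) (nat_lit 16778771) (.two (nat_lit 50331663) (nat_lit 343934705) (.two (nat_lit 11559501832) (nat_lit 21777876992) (.two (nat_lit 713031684) (nat_lit 11543775389) (.two (nat_lit 612368385) (nat_lit 11543775491) (.two (nat_lit 1048576) (nat_lit 3036678443) (.one (nat_lit 3020949844) .nil)))))))),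
   .two (nat_lit 11010048524) (nat_lit 673186584) (.two (nat_lit 13237223586) (nat_lit 2923431192) (.two (nat_lit 285212734) (nat_lit 13224642067) (.two (nat_lit 37748751) (nat_lit 16778993) (.two (nat_lit 46510637069) (nat_lit 10370418688) (.two (nat_lit 20638072837) (nat_lit 1178601629) (.two (nat_lit 2097153) (nat_lit 1178601771) (.one (nat_lit 35653974) .nil))))))),
   .two (nat_lit 772801037) (nat_lit 21827158809) (.two (nat_lit 47596961954) (nat_lit 1310721304) (.two (nat_lit 2969567294) (nat_lit 47582283283) (.two (nat_lit 9934209039) (nat_lit 16778993) (.two (nat_lit 169869320) (nat_lit 16779266) (.two (nat_lit 2097157) (nat_lit 16779434) (.two (nat_lit 2097153) (nat_lit 16779528) (.two (nat_lit 1048576) (nat_lit 639633707) (.one (nat_lit 1050971) .nil)))))))),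
   .two (nat_lit 339739148) (nat_lit 117441304) (.two (nat_lit 9781117090) (nat_lit 4599055660) (.two (nat_lit 705691711) (nat_lit 16778993) (.two (nat_lit 4194312) (nat_lit 620759047) (.two (nat_lit 4194308) (nat_lit 11477715103) (.two (nat_lit 2097153) (nat_lit 158146234609) (.two (nat_lit 1048576) (nat_lit 35653931) (.one (nat_lit 2099549) .nil))))))),
   .two (nat_lit 11007951373) (nat_lit 1049635) (.two (nat_lit 11610882310) (nat_lit 285213994) (.two (nat_lit 705691711) (nat_lit 721421845) (.two (nat_lit 37748751) (nat_lit 12163483499) (.two (nat_lit 37748744) (nat_lit 1175455749) (.two (nat_lit 9933160453) (nat_lit 1344276664) (.two (nat_lit 37748737) (nat_lit 706742572) (.one (nat_lit 2099555) .nil))))))),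
   .two (nat_lit 3460301325) (nat_lit 156372042521) (.two (nat_lit 4605345954) (nat_lit 4195631) (.two (nat_lit 3003121727) (nat_lit 8390356) (.two (nat_lit 276824079) (nat_lit 10519316334) (.two (nat_lit 8388616) (nat_lit 34605056) (.two (nat_lit 8388612) (nat_lit 4196538) (.two (nat_lit 41943041) (nat_lit 1279265027) (.two (nat_lit 4194304) (nat_lit 10376710444) (.one (nat_lit 1050980) .nil)))))))),
   .two (nat_lit 46414168738) (nat_lit 83886416) (.two (nat_lit 16777378) (nat_lit 1753220375) (.two (nat_lit 16777278) (nat_lit 156372043281) (.two (nat_lit 16777231) (nat_lit 813696873) (.two (nat_lit 176160776) (nat_lit 620759043) (.two (nat_lit 8388612) (nat_lit 16779438) (.two (nat_lit 8388609) (nat_lit 16779532) (.two (nat_lit 16777216) (nat_lit 8390959) (.one (nat_lit 8390999) .nil)))))))),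
   .two (nat_lit 47548728089) (nat_lit 47588573893) (.two (nat_lit 8388770) (nat_lit 3460302115) (.two (nat_lit 20737687615) (nat_lit 46407878166) (.two (nat_lit 276824079) (nat_lit 28693235556) (.two (nat_lit 276824072) (nat_lit 2921334789) (.two (nat_lit 8388612) (nat_lit 1050799) (.two (nat_lit 2097153) (nat_lit 4196621) (.two (nat_lit 1048576) (nat_lit 4196673) (.one (nat_lit 1050972) .nil)))))))),
   .two (nat_lit 158158815757) (nat_lit 673186584) (.two (nat_lit 20644364351) (nat_lit 16778962) (.two (nat_lit 37748751) (nat_lit 8390615) (.two (nat_lit 4194308) (nat_lit 2099383) (.two (nat_lit 2097153) (nat_lit 8390933) (.one (nat_lit 4196711) .nil))))),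
   .two (nat_lit 185002361356) (nat_lit 3028288515) (.two (nat_lit 679477313) (nat_lit 16778962) (.two (nat_lit 37748751) (nat_lit 41945088) (.two (nat_lit 169869316) (nat_lit 4196536) (.two (nat_lit 2097153) (nat_lit 4196630) (.one (nat_lit 2099553) .nil))))),
   .two (nat_lit 183848927756) (nat_lit 1350566914) (.two (nat_lit 8388770) (nat_lit 2098620) (.two (nat_lit 46508539967) (nat_lit 13224642065) (.two (nat_lit 8388623) (nat_lit 4196275) (.two (nat_lit 8388616) (nat_lit 46406830146) (.two (nat_lit 8388610) (nat_lit 4196474) (.two (nat_lit 2097155) (nat_lit 4196568) (.two (nat_lit 34603009) (nat_lit 2099441) (.two (nat_lit 1048576) (nat_lit 2099517) (.one (nat_lit 2099564) .nil))))))))),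
   .two (nat_lit 183848927756) (nat_lit 1350566914) (.two (nat_lit 8388770) (nat_lit 2098620) (.two (nat_lit 46508539967) (nat_lit 13224642065) (.two (nat_lit 8388623) (nat_lit 4196275) (.two (nat_lit 8388616) (nat_lit 46406830146) (.two (nat_lit 8388610) (nat_lit 4196581) (.two (nat_lit 2097155) (nat_lit 4196568) (.two (nat_lit 34603009) (nat_lit 2099441) (.two (nat_lit 1048576) (nat_lit 2099517) (.one (nat_lit 2099567) .nil))))))))),
   .two (nat_lit 183848927756) (nat_lit 1350566914) (.two (nat_lit 8388770) (nat_lit 2098620) (.two (nat_lit 46508539967) (nat_lit 13224642065) (.two (nat_lit 8388623) (nat_lit 4196275) (.two (nat_lit 8388616) (nat_lit 46406830146) (.two (nat_lit 8388612) (nat_lit 138414202) (.two (nat_lit 34603009) (nat_lit 2099441) (.two (nat_lit 1048576) (nat_lit 2099517) (.one (nat_lit 2099558) .nil)))))))),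
   .two (nat_lit 183848927756) (nat_lit 1350566914) (.two (nat_lit 8388770) (nat_lit 2098620) (.two (nat_lit 46508539967) (nat_lit 13224642065) (.two (nat_lit 8388623) (nat_lit 4196275) (.two (nat_lit 8388616) (nat_lit 46406830146) (.two (nat_lit 8388610) (nat_lit 4196605) (.two (nat_lit 2097155) (nat_lit 4196568) (.two (nat_lit 34603009) (nat_lit 2099441) (.two (nat_lit 1048576) (nat_lit 2099517) (.one (nat_lit 2099570) .nil))))))))),
   .two (nat_lit 10552869656) (nat_lit 11007951640) (.two (nat_lit 10552869388) (nat_lit 2098458) (.two (nat_lit 889192610) (nat_lit 156372043281) (.two (nat_lit 813695077) (nat_lit 16778993) (.two (nat_lit 184549391) (nat_lit 8390719) (.two (nat_lit 612368392) (nat_lit 807405723) (.two (nat_lit 46407876612) (nat_lit 352323821) (.two (nat_lit 2097153) (nat_lit 8390971) (.two (nat_lit 2097152) (nat_lit 8390999) (.one (nat_lit 337643891) .nil))))))))),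
   .two (nat_lit 4601152280) (nat_lit 654312458) (.two (nat_lit 654311948) (nat_lit 3020948774) (.two (nat_lit 4601151650) (nat_lit 304088738) (.two (nat_lit 169869375) (nat_lit 16778993) (.two (nat_lit 4194319) (nat_lit 807405568) (.two (nat_lit 4194312) (nat_lit 807405723) (.two (nat_lit 4194308) (nat_lit 9781119214) (.two (nat_lit 4194305) (nat_lit 168823084) (.two (nat_lit 4194304) (nat_lit 269486425) (.one (nat_lit 608176500) .nil))))))))),
   .two (nat_lit 46409974553) (nat_lit 1417675777) (.two (nat_lit 18933088780) (nat_lit 20638074136) (.two (nat_lit 10504634530) (nat_lit 13224642206) (.two (nat_lit 156372041793) (nat_lit 4196203) (.two (nat_lit 37748751) (nat_lit 612370432) (.two (nat_lit 37748744) (nat_lit 2894071967) (.two (nat_lit 4194308) (nat_lit 2902460654) (.two (nat_lit 41943041) (nat_lit 35653931) (.two (nat_lit 4194304) (nat_lit 2099546) (.one (nat_lit 4196725) .nil))))))))),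
   .two (nat_lit 46414168857) (nat_lit 10336863000) (.two (nat_lit 46414168589) (nat_lit 158158816538) (.two (nat_lit 11476664582) (nat_lit 16778769) (.two (nat_lit 276824128) (nat_lit 16779106) (.two (nat_lit 276824079) (nat_lit 9934211083) (.two (nat_lit 169869320) (nat_lit 41945244) (.two (nat_lit 102760453) (nat_lit 1779435757) (.two (nat_lit 8388609) (nat_lit 2099524) (.two (nat_lit 1048576) (nat_lit 2099554) (.one (nat_lit 2099576) .nil))))))))),
   .two (nat_lit 285213464) (nat_lit 1350566701) (.two (nat_lit 156465365516) (nat_lit 37320918304) (.two (nat_lit 8388770) (nat_lit 16778769) (.two (nat_lit 8388670) (nat_lit 16778993) (.two (nat_lit 713031695) (nat_lit 2953840640) (.two (nat_lit 713031688) (nat_lit 1343228063) (.two (nat_lit 41943045) (nat_lit 168822989) (.two (nat_lit 8388611) (nat_lit 2969569544) (.two (nat_lit 9765388289) (nat_lit 8390955) (.two (nat_lit 1048576) (nat_lit 8391000) (.one (nat_lit 8391030) .nil)))))))))),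
   .two (nat_lit 654312216) (nat_lit 13187941386) (.two (nat_lit 9967763980) (nat_lit 159250384158) (.two (nat_lit 285212834) (nat_lit 46508541595) (.two (nat_lit 21207449664) (nat_lit 46474987364) (.two (nat_lit 169869327) (nat_lit 16779266) (.two (nat_lit 169869320) (nat_lit 754976938) (.two (nat_lit 169869316) (nat_lit 2886731981) (.two (nat_lit 2097155) (nat_lit 2902460676) (.two (nat_lit 605028353) (nat_lit 639633707) (.two (nat_lit 1048576) (nat_lit 639633750) (.one (nat_lit 16779642) .nil)))))))))),
   .two (nat_lit 28757197593) (nat_lit 673186584) (.two (nat_lit 339739148) (nat_lit 50332958) (.two (nat_lit 673185954) (nat_lit 16778961) (.two (nat_lit 4194367) (nat_lit 721422066) (.two (nat_lit 4194319) (nat_lit 9948891144) (.two (nat_lit 606076936) (nat_lit 1276119196) (.two (nat_lit 11546918917) (nat_lit 16779506) (.two (nat_lit 2097153) (nat_lit 1050947) (.two (nat_lit 2097152) (nat_lit 1050976) (.one (nat_lit 1051004) .nil))))))))),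
   .two (nat_lit 16778008) (nat_lit 10537140813) (.two (nat_lit 352321698) (nat_lit 3464496689) (.two (nat_lit 16777278) (nat_lit 156372043115) (.two (nat_lit 41943047) (nat_lit 1050646) (.two (nat_lit 41943043) (nat_lit 16779389) (.two (nat_lit 16777216) (nat_lit 8391017) (.one (nat_lit 1276119376) .nil)))))),
   .two (nat_lit 4601152280) (nat_lit 1761608987) (.two (nat_lit 654311948) (nat_lit 10942940236) (.two (nat_lit 705691910) (nat_lit 16778993) (.two (nat_lit 169869375) (nat_lit 620759042) (.two (nat_lit 4194319) (nat_lit 2954889375) (.two (nat_lit 4194312) (nat_lit 2902460435) (.two (nat_lit 171966469) (nat_lit 1277167915) (.two (nat_lit 605028353) (nat_lit 205523284) (.two (nat_lit 1048576) (nat_lit 16779511) (.one (nat_lit 2953841025) .nil))))))))),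
   .two (nat_lit 9802089240) (nat_lit 184416208152) (.two (nat_lit 620757516) (nat_lit 672138317) (.two (nat_lit 4601151650) (nat_lit 4632609880) (.two (nat_lit 3021996095) (nat_lit 822085640) (.two (nat_lit 4194319) (nat_lit 270534815) (.two (nat_lit 4194312) (nat_lit 285214739) (.two (nat_lit 4194308) (nat_lit 2886732075) (.two (nat_lit 4194305) (nat_lit 1050969) (.two (nat_lit 1048576) (nat_lit 83888432) (.one (nat_lit 1051011) .nil))))))))),
   .two (nat_lit 16778008) (nat_lit 4195614) (.two (nat_lit 83886605) (nat_lit 612369960) (.two (nat_lit 8388770) (nat_lit 352322647) (.two (nat_lit 8388670) (nat_lit 34605056) (.two (nat_lit 713031695) (nat_lit 1279264925) (.two (nat_lit 205520904) (nat_lit 285214739) (.two (nat_lit 1916796933) (nat_lit 8390958) (.two (nat_lit 4194305) (nat_lit 8391007) (.two (nat_lit 1048576) (nat_lit 8390904) (.one (nat_lit 8391047) .nil))))))))),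
   .two (nat_lit 285213464) (nat_lit 12115247696) (.two (nat_lit 19596837026) (nat_lit 742393177) (.two (nat_lit 4194367) (nat_lit 184550764) (.two (nat_lit 272629768) (nat_lit 2936014876) (.two (nat_lit 4194308) (nat_lit 2936014876) (.two (nat_lit 16777216) (nat_lit 1051003) (.one (nat_lit 1050986) .nil)))))),
   .two (nat_lit 343934232) (nat_lit 20637024844) (.two (nat_lit 8388770) (nat_lit 721421675) (.two (nat_lit 184549384) (nat_lit 209717276) (.two (nat_lit 16777216) (nat_lit 184986634576) .nil))),
   .two (nat_lit 10015998744) (nat_lit 184993973778) (.two (nat_lit 9768534178) (nat_lit 16778993) (.two (nat_lit 272629822) (nat_lit 612370432) (.two (nat_lit 713031695) (nat_lit 608176283) (.two (nat_lit 713031688) (nat_lit 1178601771) (.two (nat_lit 4194305) (nat_lit 8390998) (.two (nat_lit 4194304) (nat_lit 8391028) (.one (nat_lit 276826497) .nil))))))),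
   .two (nat_lit 16778008) (nat_lit 12047091105) (.two (nat_lit 184549900) (nat_lit 1343227546) (.two (nat_lit 8388770) (nat_lit 620759047) (.two (nat_lit 8388623) (nat_lit 11559504036) (.two (nat_lit 176160776) (nat_lit 2954889477) (.two (nat_lit 176160772) (nat_lit 9934211371) (.two (nat_lit 2097153) (nat_lit 8391030) (.one (nat_lit 1051009) .nil))))))),
   .two (nat_lit 4601152280) (nat_lit 1761608987) (.two (nat_lit 2954887356) (nat_lit 16778769) (.two (nat_lit 239075853) (nat_lit 236979272) (.two (nat_lit 239075853) (nat_lit 2988442447) (.two (nat_lit 169869574) (nat_lit 16778993) (.two (nat_lit 169869375) (nat_lit 620759042) (.two (nat_lit 4194319) (nat_lit 270534815) (.two (nat_lit 4194310) (nat_lit 9765390573) (.two (nat_lit 9934209037) (nat_lit 11492395252) (.two (nat_lit 4194308) (nat_lit 2886732075) (.two (nat_lit 4194305) (nat_lit 9765390677) (.two (nat_lit 4194304) (nat_lit 620759421) (.one (nat_lit 2953841025) .nil)))))))))))),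
   .two (nat_lit 4601152280) (nat_lit 1761608987) (.two (nat_lit 158144135352) (nat_lit 16778769) (.two (nat_lit 2923430413) (nat_lit 184416207950) (.two (nat_lit 654311948) (nat_lit 13187941707) (.two (nat_lit 169869574) (nat_lit 16778993) (.two (nat_lit 169869375) (nat_lit 620759042) (.two (nat_lit 4194319) (nat_lit 270534815) (.two (nat_lit 4194310) (nat_lit 9765390573) (.two (nat_lit 4194311) (nat_lit 9948891427) (.two (nat_lit 4194308) (nat_lit 2886732075) (.two (nat_lit 4194305) (nat_lit 9765390677) (.two (nat_lit 4194304) (nat_lit 620759422) (.one (nat_lit 2953841025) .nil)))))))))))),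
   .two (nat_lit 4601152280) (nat_lit 1761608987) (.two (nat_lit 654311948) (nat_lit 13187941707) (.two (nat_lit 620757516) (nat_lit 672138317) (.two (nat_lit 169869574) (nat_lit 16778993) (.two (nat_lit 169869375) (nat_lit 620759042) (.two (nat_lit 4194319) (nat_lit 270534815) (.two (nat_lit 4601151496) (nat_lit 166144772389) (.two (nat_lit 4194312) (nat_lit 285214739) (.two (nat_lit 4194308) (nat_lit 2886732075) (.two (nat_lit 4194305) (nat_lit 9765390677) (.two (nat_lit 4194304) (nat_lit 620759423) (.one (nat_lit 2953841025) .nil))))))))))),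
   .two (nat_lit 4601152280) (nat_lit 1761608987) (.two (nat_lit 9867100479) (nat_lit 16778769) (.two (nat_lit 2923430413) (nat_lit 184416207950) (.two (nat_lit 169869574) (nat_lit 16778993) (.two (nat_lit 169869375) (nat_lit 620759042) (.two (nat_lit 4194319) (nat_lit 270534815) (.two (nat_lit 4194310) (nat_lit 9765390573) (.two (nat_lit 4194311) (nat_lit 9948891433) (.two (nat_lit 4194308) (nat_lit 2886732075) (.two (nat_lit 4194305) (nat_lit 9765390677) (.two (nat_lit 4194304) (nat_lit 620759424) (.one (nat_lit 2953841025) .nil))))))))))),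
   .two (nat_lit 16778518) (nat_lit 156566028877) (.two (nat_lit 10552869657) (nat_lit 3558868500) (.two (nat_lit 9766437388) (nat_lit 16778993) (.two (nat_lit 8388770) (nat_lit 620759047) (.two (nat_lit 176160803) (nat_lit 2886731935) (.two (nat_lit 612368399) (nat_lit 9781119214) (.two (nat_lit 2961178632) (nat_lit 9934211371) (.two (nat_lit 270532613) (nat_lit 184551757) (.two (nat_lit 9765388289) (nat_lit 3021998451) (.two (nat_lit 1048576) (nat_lit 8391042) (.one (nat_lit 8391050) .nil)))))))))),
   .two (nat_lit 16778008) (nat_lit 3460301900) (.two (nat_lit 16777740) (nat_lit 1786774884) (.two (nat_lit 9940500581) (nat_lit 50333443) (.two (nat_lit 8388623) (nat_lit 754976787) (.two (nat_lit 4194306) (nat_lit 8391000) (.two (nat_lit 4194305) (nat_lit 12054431991) (.one (nat_lit 2894072200) .nil)))))),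
   .two (nat_lit 16778008) (nat_lit 158649550177) (.two (nat_lit 16777740) (nat_lit 158649550177) (.two (nat_lit 2961178687) (nat_lit 184551171) (.two (nat_lit 9768534031) (nat_lit 285214739) (.two (nat_lit 612368389) (nat_lit 742394161) (.two (nat_lit 41943041) (nat_lit 742394161) (.one (nat_lit 8391052) .nil)))))),
   .two (nat_lit 158192370968) (nat_lit 20704134424) (.two (nat_lit 11559502617) (nat_lit 8390296) (.two (nat_lit 159232557580) (nat_lit 343934705) (.two (nat_lit 8388770) (nat_lit 9768536064) (.two (nat_lit 8388670) (nat_lit 1050781) (.two (nat_lit 8388623) (nat_lit 1050883) (.two (nat_lit 4194312) (nat_lit 352323883) (.two (nat_lit 4194308) (nat_lit 336595284) (.two (nat_lit 50331649) (nat_lit 156364704115) (.two (nat_lit 1048576) (nat_lit 339741057) (.one (nat_lit 873466254) .nil)))))))))),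
   .two (nat_lit 16778518) (nat_lit 11476664908) (.two (nat_lit 16778518) (nat_lit 1175454516) (.two (nat_lit 10552869657) (nat_lit 46474987026) (.two (nat_lit 9766437389) (nat_lit 16778993) (.two (nat_lit 8388770) (nat_lit 706742272) (.two (nat_lit 158158815250) (nat_lit 2099321) (.two (nat_lit 8388670) (nat_lit 620759160) (.two (nat_lit 176160803) (nat_lit 2886731935) (.two (nat_lit 612368399) (nat_lit 9781119214) (.two (nat_lit 176160776) (nat_lit 9934211388) (.two (nat_lit 176160770) (nat_lit 16779621) (.two (nat_lit 2097155) (nat_lit 8391000) (.two (nat_lit 8388609) (nat_lit 9934211444) (.two (nat_lit 1048576) (nat_lit 606079361) (.one (nat_lit 8391056) .nil)))))))))))))),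
   .two (nat_lit 16778518) (nat_lit 1175454516) (.two (nat_lit 47582283033) (nat_lit 679478067) (.two (nat_lit 10552869657) (nat_lit 46474987026) (.two (nat_lit 9766437389) (nat_lit 16778993) (.two (nat_lit 8388770) (nat_lit 706742272) (.two (nat_lit 8388670) (nat_lit 620759160) (.two (nat_lit 8388670) (nat_lit 620758908) (.two (nat_lit 176160803) (nat_lit 2886731935) (.two (nat_lit 612368399) (nat_lit 9781119214) (.two (nat_lit 176160776) (nat_lit 9934211388) (.two (nat_lit 176160770) (nat_lit 16779630) (.two (nat_lit 2097155) (nat_lit 8391000) (.two (nat_lit 8388609) (nat_lit 9934211444) (.two (nat_lit 1048576) (nat_lit 606079361) (.one (nat_lit 8391057) .nil)))))))))))))),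
   .two (nat_lit 16778518) (nat_lit 11476664908) (.two (nat_lit 16778518) (nat_lit 1175454516) (.two (nat_lit 10552869657) (nat_lit 46474987026) (.two (nat_lit 9766437389) (nat_lit 16778993) (.two (nat_lit 8388770) (nat_lit 706742272) (.two (nat_lit 4638900287) (nat_lit 1325402233) (.two (nat_lit 8388670) (nat_lit 620759160) (.two (nat_lit 612368399) (nat_lit 9781119214) (.two (nat_lit 176160776) (nat_lit 9934211388) (.two (nat_lit 176160772) (nat_lit 218106189) (.two (nat_lit 270532613) (nat_lit 2902460773) (.two (nat_lit 8388609) (nat_lit 9934211444) (.two (nat_lit 1048576) (nat_lit 606079361) (.one (nat_lit 8391058) .nil))))))))))))),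
   .two (nat_lit 47582283033) (nat_lit 679478067) (.two (nat_lit 10552869657) (nat_lit 46474987026) (.two (nat_lit 9766437389) (nat_lit 16778993) (.two (nat_lit 8388770) (nat_lit 706742272) (.two (nat_lit 8388670) (nat_lit 620758908) (.two (nat_lit 8388670) (nat_lit 620759243) (.two (nat_lit 176160803) (nat_lit 2886731935) (.two (nat_lit 612368399) (nat_lit 9781119214) (.two (nat_lit 176160776) (nat_lit 9934211388) (.two (nat_lit 176160770) (nat_lit 16779633) (.two (nat_lit 2097155) (nat_lit 8391000) (.two (nat_lit 8388609) (nat_lit 9934211444) (.two (nat_lit 1048576) (nat_lit 606079361) (.one (nat_lit 8391059) .nil))))))))))))),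
   .two (nat_lit 184550678) (nat_lit 11546920234) (.two (nat_lit 16778008) (nat_lit 4195998) (.two (nat_lit 612368908) (nat_lit 16778993) (.two (nat_lit 16777378) (nat_lit 876611589) (.two (nat_lit 8388670) (nat_lit 608176283) (.two (nat_lit 8388623) (nat_lit 50333936) (.two (nat_lit 8388616) (nat_lit 2889877803) (.two (nat_lit 4194308) (nat_lit 8391000) (.two (nat_lit 4194305) (nat_lit 41945460) (.two (nat_lit 4194304) (nat_lit 8391046) (.one (nat_lit 4196751) .nil)))))))))),
   .two (nat_lit 16778518) (nat_lit 9940501579) (.two (nat_lit 16778008) (nat_lit 158647453240) (.two (nat_lit 16777740) (nat_lit 158647453240) (.two (nat_lit 8388770) (nat_lit 9766438933) (.two (nat_lit 8388670) (nat_lit 46422558748) (.two (nat_lit 8388623) (nat_lit 46422558748) (.two (nat_lit 2097159) (nat_lit 8391006) (.two (nat_lit 606076931) (nat_lit 8391031) (.two (nat_lit 34603009) (nat_lit 8390992) (.two (nat_lit 1048576) (nat_lit 2099595) (.one (nat_lit 2099606) .nil)))))))))),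
   .two (nat_lit 713032984) (nat_lit 11559503378) (.two (nat_lit 8389401) (nat_lit 9781118706) (.two (nat_lit 8389133) (nat_lit 16779265) (.two (nat_lit 41943202) (nat_lit 4196508) (.two (nat_lit 50331713) (nat_lit 3024095469) (.two (nat_lit 37748751) (nat_lit 352323883) (.two (nat_lit 8388616) (nat_lit 2099541) (.two (nat_lit 4194308) (nat_lit 169871731) (.two (nat_lit 2097153) (nat_lit 4613736833) (.two (nat_lit 2097152) (nat_lit 10351544718) (.one (nat_lit 2099607) .nil)))))))))),
   .two (nat_lit 13224642065) (nat_lit 157043131732) (.two (nat_lit 184550678) (nat_lit 2098264) (.two (nat_lit 8389401) (nat_lit 10385098298) (.two (nat_lit 16777740) (nat_lit 158649550721) (.two (nat_lit 16777378) (nat_lit 41944962) (.two (nat_lit 276824082) (nat_lit 203426092) (.two (nat_lit 742391823) (nat_lit 12155095345) (.two (nat_lit 8388616) (nat_lit 2923432183) (.two (nat_lit 8388610) (nat_lit 4196740) (.two (nat_lit 4194305) (nat_lit 2099592) (.two (nat_lit 4194304) (nat_lit 2099597) (.one (nat_lit 4196765) .nil))))))))))),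
   .two (nat_lit 16778063) (nat_lit 2887779860) (.two (nat_lit 16778312) (nat_lit 2098709) (.two (nat_lit 713032984) (nat_lit 16778993) (.two (nat_lit 8389401) (nat_lit 16779271) (.two (nat_lit 8388789) (nat_lit 740296861) (.two (nat_lit 41943346) (nat_lit 608176283) (.two (nat_lit 11551113398) (nat_lit 16779281) (.two (nat_lit 8388697) (nat_lit 2099437) (.two (nat_lit 8388698) (nat_lit 2099437) (.two (nat_lit 8388647) (nat_lit 16779508) (.two (nat_lit 8388670) (nat_lit 35653931) (.two (nat_lit 37748751) (nat_lit 8391000) (.two (nat_lit 4194310) (nat_lit 2099571) (.two (nat_lit 8388615) (nat_lit 16779645) (.two (nat_lit 8388613) (nat_lit 641730945) (.two (nat_lit 37748737) (nat_lit 11544824206) (.two (nat_lit 2097152) (nat_lit 4196760) (.one (nat_lit 185021237662) .nil))))))))))))))))),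
   .two (nat_lit 16778312) (nat_lit 2098709) (.two (nat_lit 16778318) (nat_lit 9768535704) (.two (nat_lit 713032984) (nat_lit 16778993) (.two (nat_lit 8389401) (nat_lit 16779271) (.two (nat_lit 8388789) (nat_lit 740296861) (.two (nat_lit 41943346) (nat_lit 608176283) (.two (nat_lit 8389133) (nat_lit 16779132) (.two (nat_lit 8388697) (nat_lit 2099437) (.two (nat_lit 8388698) (nat_lit 2099437) (.two (nat_lit 8388647) (nat_lit 9781119267) (.two (nat_lit 8388670) (nat_lit 35653931) (.two (nat_lit 37748751) (nat_lit 8391000) (.two (nat_lit 4194310) (nat_lit 2099571) (.two (nat_lit 8388615) (nat_lit 16779646) (.two (nat_lit 8388613) (nat_lit 641730945) (.two (nat_lit 37748737) (nat_lit 11544824206) (.two (nat_lit 2097152) (nat_lit 4196761) (.one (nat_lit 185021237662) .nil))))))))))))))))),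
   .two (nat_lit 16778769) (nat_lit 1277166670) (.two (nat_lit 16778769) (nat_lit 706741327) (.two (nat_lit 713032984) (nat_lit 16778993) (.two (nat_lit 8389401) (nat_lit 16779271) (.two (nat_lit 8389133) (nat_lit 16779132) (.two (nat_lit 8389133) (nat_lit 620759057) (.two (nat_lit 11551113398) (nat_lit 16779011) (.two (nat_lit 8388697) (nat_lit 2099437) (.two (nat_lit 8388698) (nat_lit 2099437) (.two (nat_lit 8388647) (nat_lit 16779283) (.two (nat_lit 8388670) (nat_lit 35653931) (.two (nat_lit 37748751) (nat_lit 8391000) (.two (nat_lit 4194310) (nat_lit 2099571) (.two (nat_lit 8388615) (nat_lit 16779647) (.two (nat_lit 8388613) (nat_lit 641730945) (.two (nat_lit 37748737) (nat_lit 11544824206) (.two (nat_lit 2097152) (nat_lit 4196762) (.one (nat_lit 185021237662) .nil))))))))))))))))),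
   .two (nat_lit 16778318) (nat_lit 9768535704) (.two (nat_lit 713032984) (nat_lit 16778993) (.two (nat_lit 8389401) (nat_lit 16779271) (.two (nat_lit 41943346) (nat_lit 608176283) (.two (nat_lit 11551113398) (nat_lit 16779498) (.two (nat_lit 8388697) (nat_lit 2099437) (.two (nat_lit 8388698) (nat_lit 2099437) (.two (nat_lit 8388647) (nat_lit 9781119273) (.two (nat_lit 8388670) (nat_lit 35653931) (.two (nat_lit 37748751) (nat_lit 8391000) (.two (nat_lit 4194310) (nat_lit 2099571) (.two (nat_lit 8388615) (nat_lit 16779648) (.two (nat_lit 8388613) (nat_lit 641730945) (.two (nat_lit 37748737) (nat_lit 11544824206) (.two (nat_lit 2097152) (nat_lit 4196763) (.one (nat_lit 185021237662) .nil))))))))))))))),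
   .two (nat_lit 16778769) (nat_lit 706741327) (.two (nat_lit 713032984) (nat_lit 16778993) (.two (nat_lit 8389401) (nat_lit 16779271) (.two (nat_lit 8389133) (nat_lit 620759057) (.two (nat_lit 11551113740) (nat_lit 1291847699) (.two (nat_lit 8388697) (nat_lit 2099437) (.two (nat_lit 16777378) (nat_lit 11618224147) (.two (nat_lit 8388670) (nat_lit 35653931) (.two (nat_lit 37748751) (nat_lit 8391000) (.two (nat_lit 4194310) (nat_lit 2099571) (.two (nat_lit 8388615) (nat_lit 16779568) (.two (nat_lit 8388613) (nat_lit 641730945) (.two (nat_lit 37748737) (nat_lit 11544824206) (.two (nat_lit 2097152) (nat_lit 4196756) (.one (nat_lit 185021237662) .nil)))))))))))))),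
   .two (nat_lit 16778769) (nat_lit 2098930) (.two (nat_lit 8389426) (nat_lit 16778801) (.two (nat_lit 8389427) (nat_lit 608176128) (.two (nat_lit 4195124) (nat_lit 285214721) (.two (nat_lit 4194892) (nat_lit 285214721) (.two (nat_lit 16777404) (nat_lit 8390857) (.two (nat_lit 8389168) (nat_lit 16779384) (.two (nat_lit 16777777) (nat_lit 608176291) (.two (nat_lit 2097488) (nat_lit 8390811) (.two (nat_lit 4194485) (nat_lit 1358956782) (.two (nat_lit 8388914) (nat_lit 16779502) (.two (nat_lit 4194486) (nat_lit 16779555) (.two (nat_lit 8388770) (nat_lit 35653931) (.two (nat_lit 4194322) (nat_lit 16779627) (.two (nat_lit 4194338) (nat_lit 8391000) (.two (nat_lit 4194339) (nat_lit 8391000) (.two (nat_lit 8388623) (nat_lit 1050996) (.two (nat_lit 8388616) (nat_lit 807405953) (.two (nat_lit 4194306) (nat_lit 8391056) (.two (nat_lit 4194307) (nat_lit 9933162894) (.two (nat_lit 2097153) (nat_lit 185023334807) (.two (nat_lit 1048576) (nat_lit 185021237662) (.one (nat_lit 1051040) .nil)))))))))))))))))))))),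
   .two (nat_lit 16778769) (nat_lit 2098930) (.two (nat_lit 8389426) (nat_lit 16778802) (.two (nat_lit 8389427) (nat_lit 608176128) (.two (nat_lit 4195124) (nat_lit 285214721) (.two (nat_lit 8388796) (nat_lit 16779384) (.two (nat_lit 8389168) (nat_lit 16779132) (.two (nat_lit 16777777) (nat_lit 608176291) (.two (nat_lit 2097488) (nat_lit 8390811) (.two (nat_lit 4194485) (nat_lit 1358956782) (.two (nat_lit 8388914) (nat_lit 16779502) (.two (nat_lit 4194486) (nat_lit 11559504116) (.two (nat_lit 8388770) (nat_lit 35653931) (.two (nat_lit 4194322) (nat_lit 16779629) (.two (nat_lit 4194338) (nat_lit 8391000) (.two (nat_lit 4194339) (nat_lit 8391000) (.two (nat_lit 8388623) (nat_lit 1050996) (.two (nat_lit 8388616) (nat_lit 807405953) (.two (nat_lit 4194306) (nat_lit 8391057) (.two (nat_lit 4194307) (nat_lit 9933162894) (.two (nat_lit 2097153) (nat_lit 185023334807) (.two (nat_lit 1048576) (nat_lit 185021237662) (.one (nat_lit 1051041) .nil))))))))))))))))))))),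
   .two (nat_lit 16778769) (nat_lit 2098930) (.two (nat_lit 16778049) (nat_lit 8389995) (.two (nat_lit 16778518) (nat_lit 2956985905) (.two (nat_lit 16778518) (nat_lit 34604595) (.two (nat_lit 4194892) (nat_lit 285214721) (.two (nat_lit 16777776) (nat_lit 28690090105) (.two (nat_lit 16777777) (nat_lit 608176291) (.two (nat_lit 8389400) (nat_lit 16779132) (.two (nat_lit 4194485) (nat_lit 1358956782) (.two (nat_lit 8388914) (nat_lit 16779502) (.two (nat_lit 4194486) (nat_lit 16779561) (.two (nat_lit 8388770) (nat_lit 35653931) (.two (nat_lit 4194322) (nat_lit 16779597) (.two (nat_lit 4194338) (nat_lit 8391000) (.two (nat_lit 4194339) (nat_lit 8391000) (.two (nat_lit 8388623) (nat_lit 1050996) (.two (nat_lit 8388616) (nat_lit 807405953) (.two (nat_lit 4194306) (nat_lit 8391058) (.two (nat_lit 4194307) (nat_lit 9933162894) (.two (nat_lit 2097153) (nat_lit 185023334807) (.two (nat_lit 1048576) (nat_lit 185021237662) (.one (nat_lit 1051042) .nil))))))))))))))))))))),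
   .two (nat_lit 16778769) (nat_lit 2098930) (.two (nat_lit 8389426) (nat_lit 16778806) (.two (nat_lit 8389427) (nat_lit 608176128) (.two (nat_lit 8389400) (nat_lit 16779132) (.two (nat_lit 8389168) (nat_lit 16779467) (.two (nat_lit 16777777) (nat_lit 608176291) (.two (nat_lit 4194485) (nat_lit 1358956782) (.two (nat_lit 8388914) (nat_lit 16779502) (.two (nat_lit 4194828) (nat_lit 11559503891) (.two (nat_lit 8388770) (nat_lit 35653931) (.two (nat_lit 4194322) (nat_lit 16779632) (.two (nat_lit 4194338) (nat_lit 8391000) (.two (nat_lit 4194339) (nat_lit 8391000) (.two (nat_lit 8388623) (nat_lit 1050996) (.two (nat_lit 8388616) (nat_lit 807405953) (.two (nat_lit 4194306) (nat_lit 8391059) (.two (nat_lit 4194307) (nat_lit 9933162894) (.two (nat_lit 2097153) (nat_lit 185023334807) (.two (nat_lit 1048576) (nat_lit 185021237662) (.one (nat_lit 1051043) .nil))))))))))))))))))),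
   .two (nat_lit 16778769) (nat_lit 2098930) (.two (nat_lit 16778518) (nat_lit 2889876843) (.two (nat_lit 16778518) (nat_lit 2956985905) (.two (nat_lit 16778518) (nat_lit 34604595) (.two (nat_lit 16777777) (nat_lit 608176291) (.two (nat_lit 2097488) (nat_lit 8390811) (.two (nat_lit 8388914) (nat_lit 16779502) (.two (nat_lit 4194486) (nat_lit 16779562) (.two (nat_lit 8388770) (nat_lit 35653931) (.two (nat_lit 4194367) (nat_lit 16779597) (.two (nat_lit 4194339) (nat_lit 8391000) (.two (nat_lit 8388623) (nat_lit 1050996) (.two (nat_lit 8388616) (nat_lit 807405953) (.two (nat_lit 4194306) (nat_lit 8391049) (.two (nat_lit 4194307) (nat_lit 9933162894) (.two (nat_lit 2097153) (nat_lit 185023334807) (.two (nat_lit 1048576) (nat_lit 185021237662) (.one (nat_lit 1051044) .nil))))))))))))))))),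
   .two (nat_lit 16778518) (nat_lit 2889876843) (.two (nat_lit 8388770) (nat_lit 35653931) (.two (nat_lit 4194312) (nat_lit 8391042) (.two (nat_lit 1048576) (nat_lit 185021237662) .nil)))]

theorem j24K1 : chkL j24T j24C1 (nat_lit 1300) = true := by decide +kernel

end JT

end Pool.Agent.Work.MP_bf01b2_co.MR
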