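import Pool.Agent.Work.MP_bf01b2_co.MR.J24T
import Pool.Agent.Work.MP_bf01b2_co.MR.J24C0
import Pool.Agent.Work.MP_bf01b2_co.MR.J24C1

/-!
# Every tree with 24 vertices embeds in `Q_5` with its root at a given vertex
-/

set_option autoImplicit false
set_option maxRecDepth 100000

namespace Pool.Agent.Work.MP_bf01b2_co.MR

namespace JT

theorem j24L0 : j24C0.length = 1300 := by decide +kernel

theorem j24G0 : ∀ j < 1300, JGood j24T j := by
  intro j hj
  refine chkL_ok j24C0 0 (fun j hj => absurd hj (Nat.not_lt_zero j)) j24K0 j ?_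
  rw [j24L0]
  omega

theorem j24L1 : j24C1.length = 1175 := by decide +kernel

theorem j24G1 : ∀ j < 2475, JGood j24T j := by
  intro j hj
  refine chkL_ok j24C1 1300 j24G0 j24K1 j ?_
  rw [j24L1]
  omega

/-- certificate for the classes 12, 12 -/
def j24J12 : J true :=
  .cov (nat_lit 2469)

theorem j24S12 : JG (2 ^ 32 - 1) [(32, 12, 12)] :=
  chkJ_ok (p := 0) (a := 0) (b := 0) (sp := []) j24G1 j24J12 (by decide +kernel)

/-- certificate for the classes 13, 11 -/
def j24J13 : J true :=
  .cov (nat_lit 2470)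

theorem j24S13 : JG (2 ^ 32 - 1) [(32, 13, 11)] :=
  chkJ_ok (p := 0) (a := 0) (b := 0) (sp := []) j24G1 j24J13 (by decide +kernel)

/-- certificate for the classes 11, 13 -/
def j24J11 : J true :=
  .cov (nat_lit 2471)

theorem j24S11 : JG (2 ^ 32 - 1) [(32, 11, 13)] :=
  chkJ_ok (p := 0) (a := 0) (b := 0) (sp := []) j24G1 j24J11 (by decide +kernel)

/-- certificate for the classes 14, 10 -/
def j24J14 : J true :=
  .cov (nat_lit 2472)

theorem j24S14 : JG (2 ^ 32 - 1) [(32, 14, 10)] :=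
  chkJ_ok (p := 0) (a := 0) (b := 0) (sp := []) j24G1 j24J14 (by decide +kernel)

/-- certificate for the classes 10, 14 -/
def j24J10 : J true :=
  .cov (nat_lit 2473)

theorem j24S10 : JG (2 ^ 32 - 1) [(32, 10, 14)] :=
  chkJ_ok (p := 0) (a := 0) (b := 0) (sp := []) j24G1 j24J10 (by decide +kernel)

/-- certificate for the classes 8, 16 -/
def j24J8 : J true :=
  .cov (nat_lit 2474)

theorem j24S8 : JG (2 ^ 32 - 1) [(32, 8, 16)] :=
  chkJ_ok (p := 0) (a := 0) (b := 0) (sp := []) j24G1 j24J8 (by decide +kernel)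

/-- certificate for the classes 16, 8 -/
def j24J16 : J true :=
  .exp (.alt (nat_lit 0) (.cov (nat_lit 4615595881792537423)) (.alt (nat_lit 0) (.exp (.alt (nat_lit 1) (.exp (.alt (nat_lit 3) (.exp (.alt (nat_lit 2) (.exp (.alt (nat_lit 6) (.exp (.alt (nat_lit 10) (.exp (.alt (nat_lit 5) (.exp (.alt (nat_lit 7) (.exp (.alt (nat_lit 15) (.exp (.alt (nat_lit 23) (.exp (.alt (nat_lit 8) (.cov (nat_lit 384162669602041025789987)) (.alt (nat_lit 4) (.cov (nat_lit 22754060556547775266823)) (.alt (nat_lit 4) (.cov (nat_lit 2850024822516584808451)) (.alt (nat_lit 4) (.exp (.alt (nat_lit 12) (.exp (.alt (nat_lit 20) (.cov (nat_lit 23132217290533759877131)) (.alt (nat_lit 20) (.exp (.alt (nat_lit 16) (.exp (.alt (nat_lit 17) (.exp (.alt (nat_lit 18) (.exp (.alt (nat_lit 28) (.cov (nat_lit 10164156002206180442115)) (.alt (nat_lit 28) (.exp (.alt (nat_lit 24) (.exp (.alt (nat_lit 29) (.cov (nat_lit 404336489203445001093121)) (.alt (nat_lit 30) (.cov (nat_lit 185018089487)) .e))) .e))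 (.alt (nat_lit 21) (.cov (nat_lit 10029629602)) .e)))) .e)) .e)) .e)) (.alt (nat_lit 20) (.cov (nat_lit 21905510843727969517569)) (.alt (nat_lit 20) (.exp (.alt (nat_lit 16) (.exp (.alt (nat_lit 17) (.exp (.alt (nat_lit 25) (.exp (.alt (nat_lit 9) (.exp (.alt (nat_lit 27) (.exp (.alt (nat_lit 24) (.cov (nat_lit 2863857026239530270721)) (.alt (nat_lit 18) (.cov (nat_lit 94371855)) .e))) .e)) .e)) .e)) .e)) (.alt (nat_lit 21) (.cov (nat_lit 22055388739370767876099)) (.alt (nat_lit 21) (.exp (.alt (nat_lit 17) (.exp (.alt (nat_lit 29) (.cov (nat_lit 6564735080263167508482)) (.alt (nat_lit 29) (.cov (nat_lit 10240248942456512446465)) (.alt (nat_lit 29) (.exp (.alt (nat_lit 28) (.cov (nat_lit 102102728465575860764675)) (.alt (nat_lit 25) (.exp (.alt (nat_lit 9) (.exp (.alt (nat_lit 24) (.cov (nat_lit 428886808509890428929)) (.alt (nat_lit 24) (.exp (.alt (nat_lit 26) (.cov (nat_lit 21903202755516014002176)) (.alt (nat_lit 16) (.cov (nat_lit 656408584)) .e))) .e))) .e)) (.alt (nat_lit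 28) (.cov (nat_lit 9957278091)) .e)))) .e)))) .e)) (.alt (nat_lit 21) (.cov (nat_lit 17827101)) .e))))) .e))))) .e)) (.alt (nat_lit 4) (.cov (nat_lit 616564741)) .e)))))) .e)) .e)) .e)) .e)) .e)) .e)) .e)) .e)) (.alt (nat_lit 1) (.exp (.alt (nat_lit 3) (.exp (.alt (nat_lit 5) (.exp (.alt (nat_lit 4) (.exp (.alt (nat_lit 6) (.exp (.alt (nat_lit 12) (.exp (.alt (nat_lit 7) (.exp (.alt (nat_lit 15) (.exp (.alt (nat_lit 23) (.exp (.alt (nat_lit 8) (.cov (nat_lit 42967079528693416067107)) (.alt (nat_lit 2) (.cov (nat_lit 343870369705664649887751)) (.alt (nat_lit 2) (.cov (nat_lit 25276653930128802316291)) (.alt (nat_lit 2) (.exp (.alt (nat_lit 10) (.exp (.alt (nat_lit 18) (.cov (nat_lit 344253138125669061885963)) (.alt (nat_lit 18) (.exp (.alt (nat_lit 16) (.exp (.alt (nat_lit 17) (.exp (.alt (nat_lit 20) (.exp (.alt (nat_lit 26) (.cov (nat_lit 104611485659599252488195)) (.alt (nat_lit 26) (.exp (.alt (nat_lit 24) (.exp (.alt (nat_lit 27) (.cov (nat_lit 45436636505351964852225))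 (.alt (nat_lit 30) (.cov (nat_lit 185018089487)) .e))) .e)) (.alt (nat_lit 19) (.cov (nat_lit 900726946)) .e)))) .e)) .e)) .e)) (.alt (nat_lit 18) (.cov (nat_lit 1830841605513549971457)) (.alt (nat_lit 18) (.exp (.alt (nat_lit 16) (.exp (.alt (nat_lit 17) (.exp (.alt (nat_lit 25) (.exp (.alt (nat_lit 9) (.exp (.alt (nat_lit 29) (.exp (.alt (nat_lit 24) (.cov (nat_lit 25299709505888770326529)) (.alt (nat_lit 20) (.cov (nat_lit 734003215)) .e))) .e)) .e)) .e)) .e)) (.alt (nat_lit 19) (.cov (nat_lit 1980719501156516102147)) (.alt (nat_lit 19) (.exp (.alt (nat_lit 17) (.exp (.alt (nat_lit 27) (.cov (nat_lit 661776976676110991362)) (.alt (nat_lit 27) (.cov (nat_lit 104687578599849416720385)) (.alt (nat_lit 27) (.exp (.alt (nat_lit 26) (.cov (nat_lit 7655398808193157038083)) (.alt (nat_lit 25) (.exp (.alt (nat_lit 9) (.exp (.alt (nat_lit 24) (.cov (nat_lit 64563613054697209857)) (.alt (nat_lit 24) (.exp (.alt (nat_lit 28) (.cov (nat_lit 1837756889338451329024)) (.alt (nat_lit 16)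 (.cov (nat_lit 9785311240)) .e))) .e))) .e)) (.alt (nat_lit 26) (.cov (nat_lit 830472587)) .e)))) .e)))) .e)) (.alt (nat_lit 19) (.cov (nat_lit 185599261)) .e))))) .e))))) .e)) (.alt (nat_lit 2) (.cov (nat_lit 44042245)) .e)))))) .e)) .e)) .e)) .e)) .e)) .e)) (.alt (nat_lit 5) (.exp (.alt (nat_lit 4) (.exp (.alt (nat_lit 6) (.exp (.alt (nat_lit 12) (.exp (.alt (nat_lit 13) (.exp (.alt (nat_lit 9) (.exp (.alt (nat_lit 15) (.exp (.alt (nat_lit 16) (.cov (nat_lit 1973801972128710393891)) (.alt (nat_lit 2) (.cov (nat_lit 1369672489255726743559)) (.alt (nat_lit 2) (.cov (nat_lit 1591034539532143820803)) (.alt (nat_lit 2) (.cov (nat_lit 41509081830182092800)) (.alt (nat_lit 2) (.cov (nat_lit 287311873)) .e)))))) .e)) .e)) .e)) .e)) .e)) .e)) .e))) .e)) .e))) (.alt (nat_lit 0) (.cov (nat_lit 2988377566908113748149)) (.alt (nat_lit 0) (.exp (.alt (nat_lit 1) (.exp (.alt (nat_lit 3) (.exp (.alt (nat_lit 5) (.exp (.alt (nat_lit 4) (.exp (.alt (nat_lit 6) (.exp (.alt (nat_lit 12) (.exp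 (.alt (nat_lit 2) (.cov (nat_lit 104579205581504312770599)) (.alt (nat_lit 2) (.cov (nat_lit 102070449508981674082339)) (.alt (nat_lit 2) (.cov (nat_lit 41509081830182092807)) (.alt (nat_lit 2) (.cov (nat_lit 115296658458369064963)) (.alt (nat_lit 2) (.exp (.alt (nat_lit 10) (.exp (.alt (nat_lit 18) (.cov (nat_lit 797822833476147085330)) (.alt (nat_lit 18) (.cov (nat_lit 797823422814983553035)) (.alt (nat_lit 18) (.exp (.alt (nat_lit 16) (.exp (.alt (nat_lit 17) (.exp (.alt (nat_lit 20) (.exp (.alt (nat_lit 19) (.exp (.alt (nat_lit 23) (.exp (.alt (nat_lit 31) (.exp (.alt (nat_lit 15) (.exp (.alt (nat_lit 30) (.exp (.alt (nat_lit 27) (.cov (nat_lit 426580965500671492097)) (.alt (nat_lit 27) (.exp (.alt (nat_lit 25) (.cov (nat_lit 1383505816523342086144)) (.alt (nat_lit 11) (.cov (nat_lit 10344202248)) .e))) .e))) .e)) .e)) .e)) .e)) (.alt (nat_lit 19) (.cov (nat_lit 406849858430936479170563)) (.alt (nat_lit 19) (.exp (.alt (nat_lit 23) (.exp (.alt (nat_lit 27) (.cov (nat_lit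 426580989690598391810)) (.alt (nat_lit 27) (.cov (nat_lit 347635809831180632588289)) (.alt (nat_lit 27) (.exp (.alt (nat_lit 11) (.cov (nat_lit 343881897196722848792579)) (.alt (nat_lit 25) (.exp (.alt (nat_lit 9) (.exp (.alt (nat_lit 29) (.cov (nat_lit 1614090115245725974529)) (.alt (nat_lit 24) (.cov (nat_lit 4626317327)) .e))) .e)) (.alt (nat_lit 25) (.exp (.alt (nat_lit 29) (.cov (nat_lit 1614090115246397063170)) (.alt (nat_lit 9) (.cov (nat_lit 156377284673)) .e))) .e)))) .e)))) .e)) (.alt (nat_lit 19) (.exp (.alt (nat_lit 27) (.cov (nat_lit 26514889007040042106882)) (.alt (nat_lit 23) (.cov (nat_lit 11642340346)) .e))) .e))))) .e)) .e)) .e)) (.alt (nat_lit 18) (.cov (nat_lit 43814049628146368513)) (.alt (nat_lit 18) (.exp (.alt (nat_lit 19) (.cov (nat_lit 103364025442636737282083)) (.alt (nat_lit 16) (.cov (nat_lit 793211736795950088199)) (.alt (nat_lit 16) (.cov (nat_lit 406842943424185623379971)) (.alt (nat_lit 16) (.exp (.alt (nat_lit 17) (.exp (.alt (nat_lit 20)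 (.cov (nat_lit 344117093308960585285643)) (.alt (nat_lit 20) (.cov (nat_lit 4328068480583023460354)) (.alt (nat_lit 20) (.cov (nat_lit 802435108832806961153)) (.alt (nat_lit 20) (.exp (.alt (nat_lit 21) (.exp (.alt (nat_lit 23) (.exp (.alt (nat_lit 31) (.exp (.alt (nat_lit 15) (.exp (.alt (nat_lit 30) (.exp (.alt (nat_lit 29) (.cov (nat_lit 57646084027052982273)) (.alt (nat_lit 29) (.exp (.alt (nat_lit 25) (.cov (nat_lit 129127219511092576256)) (.alt (nat_lit 13) (.cov (nat_lit 156373090312)) .e))) .e))) .e)) .e)) .e)) .e)) (.alt (nat_lit 21) (.cov (nat_lit 47954617418861870317571)) (.alt (nat_lit 21) (.exp (.alt (nat_lit 23) (.exp (.alt (nat_lit 29) (.cov (nat_lit 57646108216409456642)) (.alt (nat_lit 29) (.cov (nat_lit 26519500682063185444865)) (.alt (nat_lit 29) (.exp (.alt (nat_lit 13) (.cov (nat_lit 22760976361586974261251)) (.alt (nat_lit 25) (.exp (.alt (nat_lit 9) (.exp (.alt (nat_lit 27) (.cov (nat_lit 1609478429227866914817)) (.alt (nat_lit 24) (.cov (nat_lit 47573893135))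 .e))) .e)) (.alt (nat_lit 25) (.exp (.alt (nat_lit 27) (.cov (nat_lit 1609478429227967578114)) (.alt (nat_lit 9) (.cov (nat_lit 10346299457)) .e))) .e)))) .e)))) .e)) (.alt (nat_lit 21) (.exp (.alt (nat_lit 29) (.cov (nat_lit 347640421528194176253954)) (.alt (nat_lit 23) (.cov (nat_lit 11642340346)) .e))) .e))))) .e))))) .e)) (.alt (nat_lit 16) (.cov (nat_lit 17827920)) .e)))))) .e)))))) .e)) (.alt (nat_lit 2) (.cov (nat_lit 715131179)) .e))))))) .e)) .e)) .e)) .e)) .e)) .e)) (.alt (nat_lit 0) (.cov (nat_lit 2311017311542181899)) (.alt (nat_lit 0) (.exp (.alt (nat_lit 1) (.exp (.alt (nat_lit 3) (.exp (.alt (nat_lit 5) (.exp (.alt (nat_lit 2) (.cov (nat_lit 41629692562470397280592)) (.alt (nat_lit 2) (.cov (nat_lit 41509081830349864999)) (.alt (nat_lit 2) (.cov (nat_lit 41509679964507602979)) (.alt (nat_lit 2) (.exp (.alt (nat_lit 6) (.exp (.alt (nat_lit 4) (.exp (.alt (nat_lit 12) (.exp (.alt (nat_lit 20) (.exp (.alt (nat_lit 10) (.cov (nat_lit 102079671170179618832403)) (.alt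 (nat_lit 10) (.cov (nat_lit 6371044654471173898251)) (.alt (nat_lit 10) (.cov (nat_lit 59955333323388092418)) (.alt (nat_lit 10) (.cov (nat_lit 428890966862824734721)) (.alt (nat_lit 10) (.exp (.alt (nat_lit 11) (.cov (nat_lit 81938132227411376341027)) (.alt (nat_lit 8) (.cov (nat_lit 315902233900262359047)) (.alt (nat_lit 8) (.cov (nat_lit 55343095350121463811)) (.alt (nat_lit 8) (.exp (.alt (nat_lit 9) (.exp (.alt (nat_lit 24) (.cov (nat_lit 25587940013982470897675)) (.alt (nat_lit 24) (.exp (.alt (nat_lit 25) (.exp (.alt (nat_lit 17) (.exp (.alt (nat_lit 27) (.exp (.alt (nat_lit 26) (.cov (nat_lit 10177991060261617795075)) (.alt (nat_lit 26) (.exp (.alt (nat_lit 18) (.exp (.alt (nat_lit 30) (.cov (nat_lit 365390800777825707098113)) (.alt (nat_lit 30) (.exp (.alt (nat_lit 31) (.cov (nat_lit 42997054603802897809408)) (.alt (nat_lit 28) (.cov (nat_lit 12143558664)) .e))) .e))) .e)) (.alt (nat_lit 26) (.cov (nat_lit 156596437396)) .e)))) .e)) .e)) .e)) (.alt (nat_lit 24) (.cov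 (nat_lit 500370182600178794497)) (.alt (nat_lit 24) (.exp (.alt (nat_lit 25) (.exp (.alt (nat_lit 17) (.exp (.alt (nat_lit 19) (.exp (.alt (nat_lit 18) (.exp (.alt (nat_lit 27) (.exp (.alt (nat_lit 29) (.cov (nat_lit 102118869357843012648961)) (.alt (nat_lit 29) (.exp (.alt (nat_lit 31) (.cov (nat_lit 343916484835217593335808)) (.alt (nat_lit 21) (.cov (nat_lit 10526654472)) .e))) .e))) .e)) .e)) .e)) .e)) (.alt (nat_lit 28) (.cov (nat_lit 104699108032600060461059)) (.alt (nat_lit 28) (.exp (.alt (nat_lit 29) (.exp (.alt (nat_lit 30) (.cov (nat_lit 419663460682909614082)) (.alt (nat_lit 30) (.cov (nat_lit 419663568414395334657)) (.alt (nat_lit 30) (.exp (.alt (nat_lit 22) (.cov (nat_lit 63288473091480496373763)) (.alt (nat_lit 31) (.exp (.alt (nat_lit 15) (.exp (.alt (nat_lit 23) (.cov (nat_lit 6389490987327864963073)) (.alt (nat_lit 23) (.exp (.alt (nat_lit 19) (.cov (nat_lit 21513515286958898675712)) (.alt (nat_lit 21) (.cov (nat_lit 823132168)) .e))) .e))) .e)) (.alt (nat_lit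 22) (.cov (nat_lit 2909798795)) .e)))) .e)))) .e)) (.alt (nat_lit 16) (.cov (nat_lit 1292895523)) .e))))) .e))))) .e)) (.alt (nat_lit 8) (.cov (nat_lit 714082309)) .e)))))) .e)))))) .e)) .e)) .e)) .e)) (.alt (nat_lit 2) (.cov (nat_lit 604136029521579081731)) (.alt (nat_lit 2) (.exp (.alt (nat_lit 6) (.exp (.alt (nat_lit 10) (.cov (nat_lit 404297290611163062599861)) (.alt (nat_lit 10) (.cov (nat_lit 650251145880751046674)) (.alt (nat_lit 10) (.cov (nat_lit 59955825904499818507)) (.alt (nat_lit 10) (.exp (.alt (nat_lit 8) (.exp (.alt (nat_lit 9) (.exp (.alt (nat_lit 12) (.exp (.alt (nat_lit 26) (.cov (nat_lit 48023792709146932936739)) (.alt (nat_lit 14) (.cov (nat_lit 290537960789104394247)) (.alt (nat_lit 14) (.cov (nat_lit 2873083252792401854467)) (.alt (nat_lit 14) (.cov (nat_lit 69179197940751663104)) (.alt (nat_lit 14) (.cov (nat_lit 736102401)) .e)))))) .e)) .e)) .e)) (.alt (nat_lit 10) (.cov (nat_lit 133743921501564829697)) (.alt (nat_lit 10) (.exp (.alt (nat_lit 8) (.cov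 (nat_lit 21573468935842984624167)) (.alt (nat_lit 8) (.cov (nat_lit 2684004457905823678499)) (.alt (nat_lit 8) (.cov (nat_lit 55344139885466353671)) (.alt (nat_lit 8) (.cov (nat_lit 202918703803607810051)) (.alt (nat_lit 8) (.exp (.alt (nat_lit 9) (.exp (.alt (nat_lit 12) (.cov (nat_lit 1508022480314004668437)) (.alt (nat_lit 12) (.cov (nat_lit 350225273549231600173067)) (.alt (nat_lit 12) (.cov (nat_lit 6557820935532305186818)) (.alt (nat_lit 12) (.cov (nat_lit 64567511922323226625)) (.alt (nat_lit 12) (.exp (.alt (nat_lit 28) (.cov (nat_lit 25597163821425330487331)) (.alt (nat_lit 13) (.cov (nat_lit 1468823738505891938311)) (.alt (nat_lit 13) (.cov (nat_lit 2870777409645749207043)) (.alt (nat_lit 13) (.cov (nat_lit 66873354931537969152)) (.alt (nat_lit 4) (.cov (nat_lit 624953346)) .e)))))) .e)))))) .e)) (.alt (nat_lit 8) (.cov (nat_lit 9439531)) .e))))))) .e))))))) .e)) (.alt (nat_lit 2) (.cov (nat_lit 278923649)) .e)))))))) .e)) .e)) .e)) (.alt (nat_lit 0) (.cov (nat_lit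 406870616060376819695617)) (.alt (nat_lit 0) (.exp (.alt (nat_lit 1) (.cov (nat_lit 39203238825597862478)) (.alt (nat_lit 1) (.cov (nat_lit 6922210748169978192)) (.alt (nat_lit 1) (.exp (.alt (nat_lit 3) (.exp (.alt (nat_lit 2) (.exp (.alt (nat_lit 6) (.exp (.alt (nat_lit 10) (.exp (.alt (nat_lit 7) (.exp (.alt (nat_lit 5) (.exp (.alt (nat_lit 15) (.exp (.alt (nat_lit 9) (.cov (nat_lit 21575774189510678544405)) (.alt (nat_lit 9) (.cov (nat_lit 344320009602635494588427)) (.alt (nat_lit 9) (.cov (nat_lit 647945302917606539266)) (.alt (nat_lit 9) (.cov (nat_lit 57649982894681096193)) (.alt (nat_lit 9) (.exp (.alt (nat_lit 25) (.cov (nat_lit 45655692158578214305827)) (.alt (nat_lit 8) (.cov (nat_lit 1826229405080711331847)) (.alt (nat_lit 8) (.cov (nat_lit 25290488988230492356611)) (.alt (nat_lit 8) (.cov (nat_lit 55344139885466353664)) (.alt (nat_lit 11) (.cov (nat_lit 9792653314)) .e)))))) .e)))))) .e)) .e)) .e)) .e)) .e)) .e)) (.alt (nat_lit 3) (.exp (.alt (nat_lit 2) (.exp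 (.alt (nat_lit 6) (.exp (.alt (nat_lit 10) (.exp (.alt (nat_lit 8) (.exp (.alt (nat_lit 9) (.exp (.alt (nat_lit 12) (.exp (.alt (nat_lit 5) (.cov (nat_lit 41645831741696835059733)) (.alt (nat_lit 5) (.cov (nat_lit 3129031215302818398219)) (.alt (nat_lit 5) (.cov (nat_lit 48426120659485065218)) (.alt (nat_lit 5) (.cov (nat_lit 48426610857859874817)) (.alt (nat_lit 5) (.exp (.alt (nat_lit 21) (.cov (nat_lit 63362260626327948230691)) (.alt (nat_lit 7) (.cov (nat_lit 53036130840093917191)) (.alt (nat_lit 7) (.cov (nat_lit 421972133998245183491)) (.alt (nat_lit 7) (.cov (nat_lit 53038296876255805440)) (.alt (nat_lit 4) (.cov (nat_lit 624953346)) .e)))))) .e)))))) .e)) .e)) .e)) .e)) .e)) .e)) .e))) (.alt (nat_lit 1) (.cov (nat_lit 80709666430069506083)) (.alt (nat_lit 1) (.exp (.alt (nat_lit 3) (.exp (.alt (nat_lit 2) (.exp (.alt (nat_lit 6) (.exp (.alt (nat_lit 10) (.exp (.alt (nat_lit 5) (.cov (nat_lit 5328805461486012989621)) (.alt (nat_lit 5) (.cov (nat_lit 343877288908158722375701))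 (.alt (nat_lit 5) (.cov (nat_lit 620275941026225455115)) (.alt (nat_lit 5) (.exp (.alt (nat_lit 4) (.exp (.alt (nat_lit 12) (.exp (.alt (nat_lit 20) (.exp (.alt (nat_lit 21) (.cov (nat_lit 8921307471264944750627)) (.alt (nat_lit 7) (.cov (nat_lit 3871512154096838639623)) (.alt (nat_lit 7) (.cov (nat_lit 2856942351544765906947)) (.alt (nat_lit 7) (.exp (.alt (nat_lit 15) (.exp (.alt (nat_lit 23) (.cov (nat_lit 4249668888082823249931)) (.alt (nat_lit 23) (.exp (.alt (nat_lit 19) (.exp (.alt (nat_lit 17) (.exp (.alt (nat_lit 18) (.exp (.alt (nat_lit 31) (.cov (nat_lit 29060539462712435933187)) (.alt (nat_lit 31) (.exp (.alt (nat_lit 27) (.exp (.alt (nat_lit 29) (.cov (nat_lit 102105034299787737825281)) (.alt (nat_lit 30) (.cov (nat_lit 47575990287)) .e))) .e)) (.alt (nat_lit 21) (.cov (nat_lit 10029629602)) .e)))) .e)) .e)) .e)) (.alt (nat_lit 23) (.cov (nat_lit 3022962441277066444801)) (.alt (nat_lit 23) (.exp (.alt (nat_lit 19) (.exp (.alt (nat_lit 17) (.exp (.alt (nat_lit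 25) (.exp (.alt (nat_lit 9) (.exp (.alt (nat_lit 24) (.exp (.alt (nat_lit 27) (.cov (nat_lit 2863857026239566970881)) (.alt (nat_lit 18) (.cov (nat_lit 631242767)) .e))) .e)) .e)) .e)) .e)) (.alt (nat_lit 21) (.cov (nat_lit 22055388739370801430531)) (.alt (nat_lit 21) (.exp (.alt (nat_lit 17) (.exp (.alt (nat_lit 29) (.cov (nat_lit 25447283482851546234882)) (.alt (nat_lit 29) (.cov (nat_lit 10240248942456542855169)) (.alt (nat_lit 29) (.exp (.alt (nat_lit 31) (.cov (nat_lit 404341100898260795523075)) (.alt (nat_lit 25) (.exp (.alt (nat_lit 9) (.exp (.alt (nat_lit 27) (.cov (nat_lit 1609478429227271323649)) (.alt (nat_lit 27) (.exp (.alt (nat_lit 26) (.cov (nat_lit 3006819295009792065536)) (.alt (nat_lit 19) (.cov (nat_lit 119537672)) .e))) .e))) .e)) (.alt (nat_lit 31) (.cov (nat_lit 1370489227)) .e)))) .e)))) .e)) (.alt (nat_lit 21) (.cov (nat_lit 17827101)) .e))))) .e))))) .e)) (.alt (nat_lit 7) (.cov (nat_lit 82839557)) .e)))))) .e)) .e)) .e)) (.alt (nat_lit 5) (.cov (nat_lit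 25431147093998913454081)) (.alt (nat_lit 5) (.exp (.alt (nat_lit 4) (.cov (nat_lit 10136487610130005753895)) (.alt (nat_lit 4) (.cov (nat_lit 102075061195000271339555)) (.alt (nat_lit 4) (.cov (nat_lit 46120767848611577863)) (.alt (nat_lit 4) (.cov (nat_lit 1374286941489215832067)) (.alt (nat_lit 4) (.exp (.alt (nat_lit 12) (.exp (.alt (nat_lit 20) (.cov (nat_lit 6705392623081798762514)) (.alt (nat_lit 20) (.cov (nat_lit 802435108832840515595)) (.alt (nat_lit 20) (.exp (.alt (nat_lit 16) (.exp (.alt (nat_lit 17) (.exp (.alt (nat_lit 18) (.exp (.alt (nat_lit 21) (.exp (.alt (nat_lit 23) (.exp (.alt (nat_lit 31) (.exp (.alt (nat_lit 15) (.exp (.alt (nat_lit 30) (.exp (.alt (nat_lit 29) (.cov (nat_lit 57646084027052982273)) (.alt (nat_lit 29) (.exp (.alt (nat_lit 25) (.cov (nat_lit 129127219511092576256)) (.alt (nat_lit 13) (.cov (nat_lit 156373090312)) .e))) .e))) .e)) .e)) .e)) .e)) (.alt (nat_lit 21) (.cov (nat_lit 47954617418861870317571)) (.alt (nat_lit 21) (.exp (.alt (nat_lit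 23) (.exp (.alt (nat_lit 29) (.cov (nat_lit 57646108216409456642)) (.alt (nat_lit 29) (.cov (nat_lit 26519500682063185444865)) (.alt (nat_lit 29) (.exp (.alt (nat_lit 13) (.cov (nat_lit 22760976361586974261251)) (.alt (nat_lit 25) (.exp (.alt (nat_lit 9) (.exp (.alt (nat_lit 27) (.cov (nat_lit 1609478429227866914817)) (.alt (nat_lit 24) (.cov (nat_lit 47573893135)) .e))) .e)) (.alt (nat_lit 25) (.exp (.alt (nat_lit 27) (.cov (nat_lit 1609478429227967578114)) (.alt (nat_lit 9) (.cov (nat_lit 10346299457)) .e))) .e)))) .e)))) .e)) (.alt (nat_lit 21) (.exp (.alt (nat_lit 29) (.cov (nat_lit 347640421528194176253954)) (.alt (nat_lit 23) (.cov (nat_lit 11642340346)) .e))) .e))))) .e)) .e)) .e)) (.alt (nat_lit 20) (.cov (nat_lit 417360617120764788737)) (.alt (nat_lit 20) (.exp (.alt (nat_lit 21) (.cov (nat_lit 8921307471264944750627)) (.alt (nat_lit 16) (.cov (nat_lit 793211736795947991047)) (.alt (nat_lit 16) (.cov (nat_lit 406842943424185789054979)) (.alt (nat_lit 16) (.exp (.alt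 (nat_lit 17) (.exp (.alt (nat_lit 18) (.cov (nat_lit 22991560787806281269259)) (.alt (nat_lit 18) (.cov (nat_lit 63353037830435159146498)) (.alt (nat_lit 18) (.cov (nat_lit 797823422814379573249)) (.alt (nat_lit 18) (.exp (.alt (nat_lit 19) (.exp (.alt (nat_lit 23) (.exp (.alt (nat_lit 31) (.exp (.alt (nat_lit 15) (.exp (.alt (nat_lit 30) (.exp (.alt (nat_lit 27) (.cov (nat_lit 426580965500671492097)) (.alt (nat_lit 27) (.exp (.alt (nat_lit 25) (.cov (nat_lit 1383505816523342086144)) (.alt (nat_lit 11) (.cov (nat_lit 10344202248)) .e))) .e))) .e)) .e)) .e)) .e)) (.alt (nat_lit 19) (.cov (nat_lit 406849858430936479170563)) (.alt (nat_lit 19) (.exp (.alt (nat_lit 23) (.exp (.alt (nat_lit 27) (.cov (nat_lit 426580989690598391810)) (.alt (nat_lit 27) (.cov (nat_lit 347635809831180632588289)) (.alt (nat_lit 27) (.exp (.alt (nat_lit 11) (.cov (nat_lit 343881897196722848792579)) (.alt (nat_lit 25) (.exp (.alt (nat_lit 9) (.exp (.alt (nat_lit 29) (.cov (nat_lit 1614090115245725974529))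 (.alt (nat_lit 24) (.cov (nat_lit 4626317327)) .e))) .e)) (.alt (nat_lit 25) (.exp (.alt (nat_lit 29) (.cov (nat_lit 1614090115246397063170)) (.alt (nat_lit 9) (.cov (nat_lit 156377284673)) .e))) .e)))) .e)))) .e)) (.alt (nat_lit 19) (.exp (.alt (nat_lit 27) (.cov (nat_lit 26514889007040042106882)) (.alt (nat_lit 23) (.cov (nat_lit 11642340346)) .e))) .e))))) .e))))) .e)) (.alt (nat_lit 16) (.cov (nat_lit 185600080)) .e)))))) .e)))))) .e)) (.alt (nat_lit 4) (.cov (nat_lit 717228331)) .e))))))) .e))))))) .e)) .e)) .e)) .e)) (.alt (nat_lit 1) (.cov (nat_lit 6514011851252271415299)) (.alt (nat_lit 1) (.exp (.alt (nat_lit 3) (.exp (.alt (nat_lit 5) (.cov (nat_lit 102211106486708109050044)) (.alt (nat_lit 5) (.cov (nat_lit 29979424780618563765)) (.alt (nat_lit 5) (.exp (.alt (nat_lit 4) (.exp (.alt (nat_lit 6) (.exp (.alt (nat_lit 12) (.exp (.alt (nat_lit 8) (.exp (.alt (nat_lit 9) (.exp (.alt (nat_lit 10) (.exp (.alt (nat_lit 21) (.cov (nat_lit 1985331187175483506723)) (.alt (nat_lit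 7) (.cov (nat_lit 53036130840093917191)) (.alt (nat_lit 7) (.cov (nat_lit 53037252360845393923)) (.alt (nat_lit 7) (.cov (nat_lit 53038296876255805440)) (.alt (nat_lit 7) (.cov (nat_lit 292554753)) .e)))))) .e)) .e)) .e)) .e)) .e)) .e)) (.alt (nat_lit 5) (.cov (nat_lit 21520437831958615031819)) (.alt (nat_lit 5) (.exp (.alt (nat_lit 4) (.exp (.alt (nat_lit 6) (.exp (.alt (nat_lit 12) (.exp (.alt (nat_lit 7) (.cov (nat_lit 350153791905772004704295)) (.alt (nat_lit 7) (.cov (nat_lit 45413580929592709873699)) (.alt (nat_lit 7) (.cov (nat_lit 53038296876859785223)) (.alt (nat_lit 7) (.cov (nat_lit 126825873504509886467)) (.alt (nat_lit 7) (.exp (.alt (nat_lit 15) (.exp (.alt (nat_lit 23) (.cov (nat_lit 3170535289957742805010)) (.alt (nat_lit 23) (.cov (nat_lit 22060001810773851504651)) (.alt (nat_lit 23) (.exp (.alt (nat_lit 21) (.exp (.alt (nat_lit 17) (.exp (.alt (nat_lit 20) (.exp (.alt (nat_lit 19) (.exp (.alt (nat_lit 18) (.exp (.alt (nat_lit 26) (.exp (.alt (nat_lit 10)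 (.exp (.alt (nat_lit 30) (.exp (.alt (nat_lit 27) (.cov (nat_lit 426580965500671492097)) (.alt (nat_lit 27) (.exp (.alt (nat_lit 25) (.cov (nat_lit 435804339736513871872)) (.alt (nat_lit 11) (.cov (nat_lit 10344202248)) .e))) .e))) .e)) .e)) .e)) .e)) (.alt (nat_lit 19) (.cov (nat_lit 29060539801363246219267)) (.alt (nat_lit 19) (.exp (.alt (nat_lit 18) (.exp (.alt (nat_lit 27) (.cov (nat_lit 426580989689893748738)) (.alt (nat_lit 27) (.cov (nat_lit 102072752721959685455873)) (.alt (nat_lit 27) (.exp (.alt (nat_lit 11) (.cov (nat_lit 3859981215036555132931)) (.alt (nat_lit 25) (.exp (.alt (nat_lit 9) (.exp (.alt (nat_lit 24) (.cov (nat_lit 64563613054118395905)) (.alt (nat_lit 29) (.cov (nat_lit 185014943759)) .e))) .e)) (.alt (nat_lit 25) (.exp (.alt (nat_lit 24) (.cov (nat_lit 64563613054084841474)) (.alt (nat_lit 9) (.cov (nat_lit 28093448257)) .e))) .e)))) .e)))) .e)) (.alt (nat_lit 19) (.exp (.alt (nat_lit 27) (.cov (nat_lit 404304207636611659202562)) (.alt (nat_lit 18)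 (.cov (nat_lit 362808314)) .e))) .e))))) .e)) .e)) .e)) (.alt (nat_lit 23) (.cov (nat_lit 191388002218432004097)) (.alt (nat_lit 23) (.exp (.alt (nat_lit 19) (.cov (nat_lit 348927082551869557440547)) (.alt (nat_lit 21) (.cov (nat_lit 22055390124756025999367)) (.alt (nat_lit 21) (.cov (nat_lit 10175688078181561008131)) (.alt (nat_lit 21) (.exp (.alt (nat_lit 17) (.exp (.alt (nat_lit 20) (.cov (nat_lit 63124758363171230580747)) (.alt (nat_lit 20) (.cov (nat_lit 42095471128493412057090)) (.alt (nat_lit 20) (.cov (nat_lit 22053084281746814402561)) (.alt (nat_lit 20) (.exp (.alt (nat_lit 16) (.exp (.alt (nat_lit 18) (.exp (.alt (nat_lit 26) (.exp (.alt (nat_lit 10) (.exp (.alt (nat_lit 30) (.exp (.alt (nat_lit 24) (.cov (nat_lit 1607172586218046095361)) (.alt (nat_lit 24) (.exp (.alt (nat_lit 25) (.cov (nat_lit 1616395960453925175296)) (.alt (nat_lit 8) (.cov (nat_lit 1754267656)) .e))) .e))) .e)) .e)) .e)) .e)) (.alt (nat_lit 16) (.cov (nat_lit 10164156340857024282627)) (.alt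 (nat_lit 16) (.exp (.alt (nat_lit 18) (.exp (.alt (nat_lit 24) (.cov (nat_lit 1607172610407301906434)) (.alt (nat_lit 24) (.cov (nat_lit 404297290096589338050561)) (.alt (nat_lit 24) (.exp (.alt (nat_lit 8) (.cov (nat_lit 22749447146515135987715)) (.alt (nat_lit 25) (.exp (.alt (nat_lit 9) (.exp (.alt (nat_lit 27) (.cov (nat_lit 71481142081729069057)) (.alt (nat_lit 29) (.cov (nat_lit 47579136015)) .e))) .e)) (.alt (nat_lit 25) (.exp (.alt (nat_lit 27) (.cov (nat_lit 71481142081729069058)) (.alt (nat_lit 9) (.cov (nat_lit 165535547457)) .e))) .e)))) .e)))) .e)) (.alt (nat_lit 16) (.exp (.alt (nat_lit 24) (.cov (nat_lit 102065835203927261315074)) (.alt (nat_lit 18) (.cov (nat_lit 362808314)) .e))) .e))))) .e))))) .e)) (.alt (nat_lit 21) (.cov (nat_lit 84936784)) .e)))))) .e)))))) .e)) (.alt (nat_lit 7) (.cov (nat_lit 15730987)) .e))))))) .e)) .e)) .e)) (.alt (nat_lit 5) (.cov (nat_lit 9228546338582429697)) (.alt (nat_lit 5) (.exp (.alt (nat_lit 4) (.cov (nat_lit 22740226630990207910224))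 (.alt (nat_lit 4) (.cov (nat_lit 46120767848678686759)) (.alt (nat_lit 4) (.cov (nat_lit 415056247457295892515)) (.alt (nat_lit 4) (.exp (.alt (nat_lit 6) (.exp (.alt (nat_lit 7) (.exp (.alt (nat_lit 15) (.exp (.alt (nat_lit 23) (.exp (.alt (nat_lit 12) (.cov (nat_lit 45411273375743341494291)) (.alt (nat_lit 12) (.cov (nat_lit 2822352263300964679691)) (.alt (nat_lit 12) (.cov (nat_lit 1392732592648195407874)) (.alt (nat_lit 12) (.cov (nat_lit 212141723997346725889)) (.alt (nat_lit 12) (.exp (.alt (nat_lit 8) (.cov (nat_lit 42967079528693416067107)) (.alt (nat_lit 13) (.cov (nat_lit 21566551406802396774407)) (.alt (nat_lit 13) (.cov (nat_lit 435807191869676322819)) (.alt (nat_lit 13) (.exp (.alt (nat_lit 9) (.exp (.alt (nat_lit 29) (.cov (nat_lit 795515978916268343307)) (.alt (nat_lit 29) (.exp (.alt (nat_lit 25) (.exp (.alt (nat_lit 17) (.exp (.alt (nat_lit 24) (.exp (.alt (nat_lit 28) (.cov (nat_lit 350188377826875974615043)) (.alt (nat_lit 28) (.exp (.alt (nat_lit 20) (.exp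 (.alt (nat_lit 30) (.cov (nat_lit 365379271562780245753857)) (.alt (nat_lit 30) (.exp (.alt (nat_lit 26) (.cov (nat_lit 42985525388756827242496)) (.alt (nat_lit 31) (.cov (nat_lit 3551526920)) .e))) .e))) .e)) (.alt (nat_lit 28) (.cov (nat_lit 166260113812)) .e)))) .e)) .e)) .e)) (.alt (nat_lit 29) (.cov (nat_lit 21751019355514191478785)) (.alt (nat_lit 29) (.exp (.alt (nat_lit 25) (.exp (.alt (nat_lit 17) (.exp (.alt (nat_lit 16) (.exp (.alt (nat_lit 20) (.exp (.alt (nat_lit 24) (.exp (.alt (nat_lit 27) (.cov (nat_lit 45438942348361165963265)) (.alt (nat_lit 27) (.exp (.alt (nat_lit 26) (.cov (nat_lit 364060329363708418457600)) (.alt (nat_lit 19) (.cov (nat_lit 28775022600)) .e))) .e))) .e)) .e)) .e)) .e)) (.alt (nat_lit 31) (.cov (nat_lit 48030710238174516346883)) (.alt (nat_lit 31) (.exp (.alt (nat_lit 27) (.exp (.alt (nat_lit 30) (.cov (nat_lit 1600255081563524431874)) (.alt (nat_lit 30) (.cov (nat_lit 1600255189132410617857)) (.alt (nat_lit 30) (.exp (.alt (nat_lit 22)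 (.cov (nat_lit 4247362840563999047683)) (.alt (nat_lit 26) (.exp (.alt (nat_lit 10) (.exp (.alt (nat_lit 18) (.cov (nat_lit 2840798596147417448449)) (.alt (nat_lit 18) (.exp (.alt (nat_lit 16) (.cov (nat_lit 22846292546284413779968)) (.alt (nat_lit 19) (.cov (nat_lit 2970615816)) .e))) .e))) .e)) (.alt (nat_lit 22) (.cov (nat_lit 220201355)) .e)))) .e)))) .e)) (.alt (nat_lit 21) (.cov (nat_lit 756024611)) .e))))) .e))))) .e)) (.alt (nat_lit 13) (.cov (nat_lit 9439237)) .e)))))) .e)))))) .e)) .e)) .e)) .e)) (.alt (nat_lit 4) (.cov (nat_lit 6507094133109241675779)) (.alt (nat_lit 4) (.exp (.alt (nat_lit 6) (.exp (.alt (nat_lit 12) (.cov (nat_lit 7630035265157324603573)) (.alt (nat_lit 12) (.cov (nat_lit 6557820935488919306258)) (.alt (nat_lit 12) (.cov (nat_lit 64567511922356781067)) (.alt (nat_lit 12) (.exp (.alt (nat_lit 13) (.exp (.alt (nat_lit 9) (.exp (.alt (nat_lit 15) (.exp (.alt (nat_lit 28) (.cov (nat_lit 29127409248629438808099)) (.alt (nat_lit 14) (.cov (nat_lit 21541187133857121435655))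 (.alt (nat_lit 14) (.cov (nat_lit 25304324046285772423171)) (.alt (nat_lit 14) (.cov (nat_lit 69179197940746420224)) (.alt (nat_lit 14) (.cov (nat_lit 31459329)) .e)))))) .e)) .e)) .e)) (.alt (nat_lit 12) (.cov (nat_lit 433503512699954266113)) (.alt (nat_lit 12) (.exp (.alt (nat_lit 13) (.cov (nat_lit 1510328912708998529063)) (.alt (nat_lit 13) (.cov (nat_lit 1510330366218743054371)) (.alt (nat_lit 13) (.cov (nat_lit 66873354932141948935)) (.alt (nat_lit 13) (.cov (nat_lit 140660942555445198851)) (.alt (nat_lit 13) (.exp (.alt (nat_lit 9) (.exp (.alt (nat_lit 15) (.cov (nat_lit 5123584318761046376469)) (.alt (nat_lit 15) (.cov (nat_lit 406893671343666809012235)) (.alt (nat_lit 15) (.cov (nat_lit 25454204396012757319682)) (.alt (nat_lit 15) (.cov (nat_lit 71485040950568288257)) (.alt (nat_lit 15) (.exp (.alt (nat_lit 31) (.cov (nat_lit 800128100341436645411)) (.alt (nat_lit 11) (.cov (nat_lit 283620431761458069511)) (.alt (nat_lit 11) (.cov (nat_lit 25297406517232361537539))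 (.alt (nat_lit 11) (.cov (nat_lit 62261668913105338368)) (.alt (nat_lit 7) (.cov (nat_lit 57673730)) .e)))))) .e)))))) .e)) (.alt (nat_lit 13) (.cov (nat_lit 613419307)) .e))))))) .e))))))) .e)) (.alt (nat_lit 4) (.cov (nat_lit 2965375361)) .e)))))))) .e)))))))) .e)) (.alt (nat_lit 1) (.cov (nat_lit 185022286238)) .e))))))))) .e))))))))

theorem j24S16 : JG (2 ^ 32 - 1) [(32, 16, 8)] :=
  chkJ_ok (p := 0) (a := 0) (b := 0) (sp := []) j24G1 j24J16 (by decide +kernel)

/-- certificate for the classes 15, 9 -/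
def j24J15 : J true :=
  .exp (.alt (nat_lit 0) (.cov (nat_lit 4615595881792537672)) (.alt (nat_lit 0) (.cov (nat_lit 2309310868904477519)) (.alt (nat_lit 0) (.exp (.alt (nat_lit 1) (.cov (nat_lit 81139551606412837879347860733959)) (.alt (nat_lit 1) (.cov (nat_lit 3417595921735641502141359777120259)) (.alt (nat_lit 1) (.cov (nat_lit 50016431990961149813347850944249857)) (.alt (nat_lit 1) (.exp (.alt (nat_lit 3) (.exp (.alt (nat_lit 5) (.cov (nat_lit 10151504850226309450403954032642)) (.alt (nat_lit 5) (.cov (nat_lit 365093276387402492229865845030913)) (.alt (nat_lit 5) (.cov (nat_lit 172410385172855467752848017588224)) (.alt (nat_lit 5) (.cov (nat_lit 4616189618068389977)) .e))))) .e)) (.alt (nat_lit 1) (.cov (nat_lit 4616372137002795344)) .e)))))) (.alt (nat_lit 0) (.exp (.alt (nat_lit 1) (.cov (nat_lit 50148268417425911433758409202073606)) (.alt (nat_lit 1) (.cov (nat_lit 6176004396709089954658360600035331)) (.alt (nat_lit 1) (.cov (nat_lit 2940960045583835408248687687630849))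 (.alt (nat_lit 1) (.cov (nat_lit 10151867527575589026289553506304)) (.alt (nat_lit 1) (.exp (.alt (nat_lit 3) (.cov (nat_lit 1318367286963112942872187739570178)) (.alt (nat_lit 3) (.cov (nat_lit 5699367771024608476946129618993153)) (.alt (nat_lit 3) (.cov (nat_lit 2940960045605312030005717706473472)) (.alt (nat_lit 3) (.cov (nat_lit 4616534864717414489)) .e))))) .e)))))) (.alt (nat_lit 0) (.cov (nat_lit 18450970596423500107)) (.alt (nat_lit 0) (.cov (nat_lit 4616229200481747132)) (.alt (nat_lit 0) (.cov (nat_lit 4616640417826341045)) (.alt (nat_lit 0) (.cov (nat_lit 2311004116802863193)) (.alt (nat_lit 0) (.cov (nat_lit 18452004137341026338)) (.alt (nat_lit 0) (.cov (nat_lit 102065840006603089117201)) (.alt (nat_lit 0) (.exp (.alt (nat_lit 1) (.exp (.alt (nat_lit 3) (.exp (.alt (nat_lit 5) (.exp (.alt (nat_lit 4) (.exp (.alt (nat_lit 6) (.exp (.alt (nat_lit 12) (.exp (.alt (nat_lit 2) (.exp (.alt (nat_lit 10) (.cov (nat_lit 3011940360052365861007404119883778)) (.alt (nat_lit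 10) (.cov (nat_lit 14370090569838078420009985826095105)) (.alt (nat_lit 10) (.cov (nat_lit 14370090569859919365013049144508416)) (.alt (nat_lit 10) (.cov (nat_lit 406902893981414760382553)) .e))))) (.alt (nat_lit 2) (.cov (nat_lit 103324827646398096736295)) (.alt (nat_lit 2) (.cov (nat_lit 10131875924111408496730)) (.alt (nat_lit 2) (.cov (nat_lit 102070449508981674082339)) (.alt (nat_lit 2) (.cov (nat_lit 41508037294840348710)) (.alt (nat_lit 2) (.cov (nat_lit 41508589248972849167)) (.alt (nat_lit 2) (.cov (nat_lit 41509081830182092807)) (.alt (nat_lit 2) (.cov (nat_lit 41509081830182092806)) (.alt (nat_lit 2) (.cov (nat_lit 115296658458369064963)) (.alt (nat_lit 2) (.cov (nat_lit 115296658458369064962)) (.alt (nat_lit 2) (.cov (nat_lit 1812397482675554746369)) (.alt (nat_lit 2) (.cov (nat_lit 41510366059763335168)) (.alt (nat_lit 2) (.cov (nat_lit 715131179)) .e)))))))))))))) .e)) .e)) .e)) .e)) .e)) .e)) (.alt (nat_lit 0) (.cov (nat_lit 2311175641216581643)) (.alt (nat_lit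 0) (.cov (nat_lit 2311193232798646278)) (.alt (nat_lit 0) (.cov (nat_lit 9228753046763208707)) (.alt (nat_lit 0) (.exp (.alt (nat_lit 1) (.exp (.alt (nat_lit 3) (.exp (.alt (nat_lit 5) (.exp (.alt (nat_lit 2) (.cov (nat_lit 23061387778434531664)) (.alt (nat_lit 2) (.cov (nat_lit 10131877061006431617585)) (.alt (nat_lit 2) (.exp (.alt (nat_lit 6) (.cov (nat_lit 50714786303520471451523254059010)) (.alt (nat_lit 6) (.cov (nat_lit 16763419061773785780988085618606081)) (.alt (nat_lit 6) (.cov (nat_lit 91278353085128254934302307909632)) (.alt (nat_lit 6) (.cov (nat_lit 41508589248977043545)) .e))))) (.alt (nat_lit 2) (.cov (nat_lit 23063067832235327527)) (.alt (nat_lit 2) (.cov (nat_lit 41509081830182092890)) (.alt (nat_lit 2) (.cov (nat_lit 41509679964507602979)) (.alt (nat_lit 2) (.cov (nat_lit 6359519523011710418982)) (.alt (nat_lit 2) (.cov (nat_lit 604135712862230282255)) (.alt (nat_lit 2) (.cov (nat_lit 13839607834408386567)) (.alt (nat_lit 2) (.cov (nat_lit 604135893182137237510))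 (.alt (nat_lit 2) (.cov (nat_lit 604136029521579081731)) (.alt (nat_lit 2) (.cov (nat_lit 23063591199724011522)) (.alt (nat_lit 2) (.cov (nat_lit 1572590190148349591553)) (.alt (nat_lit 2) (.exp (.alt (nat_lit 6) (.exp (.alt (nat_lit 10) (.cov (nat_lit 608742970050723447090)) (.alt (nat_lit 10) (.cov (nat_lit 350137651004717209223349)) (.alt (nat_lit 10) (.cov (nat_lit 26507974444494874476633)) (.alt (nat_lit 10) (.cov (nat_lit 59955333322686595106)) (.alt (nat_lit 10) (.cov (nat_lit 59955825913660178449)) (.alt (nat_lit 10) (.cov (nat_lit 18450196540852011029)) (.alt (nat_lit 10) (.cov (nat_lit 59955825904499818507)) (.alt (nat_lit 10) (.cov (nat_lit 166025200263028015110)) (.alt (nat_lit 10) (.cov (nat_lit 1360452219884319801347)) (.alt (nat_lit 10) (.cov (nat_lit 1567977789447372537858)) (.alt (nat_lit 10) (.cov (nat_lit 21497379329298671861761)) (.alt (nat_lit 10) (.cov (nat_lit 25369434208939802624)) (.alt (nat_lit 10) (.exp (.alt (nat_lit 8) (.exp (.alt (nat_lit 9) (.cov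 (nat_lit 608474822019675197571783820574722)) (.alt (nat_lit 9) (.cov (nat_lit 138853379710512930953297993464283137)) (.alt (nat_lit 9) (.cov (nat_lit 47440558596851160845570087872102400)) (.alt (nat_lit 9) (.cov (nat_lit 21573468346491801174105)) .e))))) (.alt (nat_lit 8) (.cov (nat_lit 27672497653580562471)) (.alt (nat_lit 8) (.cov (nat_lit 21573468935830032613466)) (.alt (nat_lit 8) (.cov (nat_lit 2684004457905823678499)) (.alt (nat_lit 8) (.cov (nat_lit 2684004457917030858790)) (.alt (nat_lit 8) (.cov (nat_lit 55343647304257110031)) (.alt (nat_lit 8) (.cov (nat_lit 55344139885466353671)) (.alt (nat_lit 8) (.cov (nat_lit 55344139885466353670)) (.alt (nat_lit 8) (.cov (nat_lit 202918703803607810051)) (.alt (nat_lit 8) (.cov (nat_lit 389691972156754231298)) (.alt (nat_lit 8) (.cov (nat_lit 1348923013634348548097)) (.alt (nat_lit 8) (.cov (nat_lit 21868619649161798615040)) (.alt (nat_lit 8) (.cov (nat_lit 9439531)) .e)))))))))))))) .e)))))))))))))) .e)) (.alt (nat_lit 2) (.cov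 (nat_lit 6293893)) .e)))))))))))))))) .e)) .e)) .e)) (.alt (nat_lit 0) (.cov (nat_lit 2311252606424449025)) (.alt (nat_lit 0) (.cov (nat_lit 406866004389751554048000)) (.alt (nat_lit 0) (.exp (.alt (nat_lit 1) (.exp (.alt (nat_lit 3) (.cov (nat_lit 25361363265498462502944953597963)) (.alt (nat_lit 3) (.cov (nat_lit 86207750684208419799287857152006)) (.alt (nat_lit 3) (.cov (nat_lit 86207750662736409847023520448514)) (.alt (nat_lit 3) (.cov (nat_lit 25361368099873575761987909976065)) (.alt (nat_lit 3) (.cov (nat_lit 25361203685962108187813307482112)) (.alt (nat_lit 3) (.exp (.alt (nat_lit 2) (.cov (nat_lit 889368458070381688130849901230686215)) (.alt (nat_lit 2) (.cov (nat_lit 86207750662734103885267049906179)) (.alt (nat_lit 2) (.cov (nat_lit 6860533211102426851112567961550849)) (.alt (nat_lit 2) (.exp (.alt (nat_lit 6) (.exp (.alt (nat_lit 10) (.cov (nat_lit 48216366470319748895453965818265602)) (.alt (nat_lit 10) (.cov (nat_lit 14628696210194871410226795984715777)) (.alt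 (nat_lit 10) (.cov (nat_lit 86207750664219066750215322075136)) (.alt (nat_lit 10) (.cov (nat_lit 102280281781372303966297)) .e))))) .e)) (.alt (nat_lit 2) (.cov (nat_lit 25394252794411918295376)) .e)))))) .e))))))) (.alt (nat_lit 1) (.cov (nat_lit 6920999086356169292)) (.alt (nat_lit 1) (.cov (nat_lit 39203238820967351112)) (.alt (nat_lit 1) (.cov (nat_lit 6922210748169978192)) (.alt (nat_lit 1) (.cov (nat_lit 11533903363667132977)) (.alt (nat_lit 1) (.exp (.alt (nat_lit 3) (.cov (nat_lit 86210908376977243075908922769410)) (.alt (nat_lit 3) (.cov (nat_lit 3919586328304174397244758318645249)) (.alt (nat_lit 3) (.cov (nat_lit 2946030648006224947611704519294976)) (.alt (nat_lit 3) (.cov (nat_lit 1339699632801399701593)) .e))))) (.alt (nat_lit 1) (.cov (nat_lit 6922723120622075943)) (.alt (nat_lit 1) (.cov (nat_lit 6922553795789455450)) (.alt (nat_lit 1) (.cov (nat_lit 80709666430069506083)) (.alt (nat_lit 1) (.cov (nat_lit 80709666430774149158)) (.alt (nat_lit 1) (.cov (nat_lit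 25389642636714644078607)) (.alt (nat_lit 1) (.exp (.alt (nat_lit 3) (.exp (.alt (nat_lit 2) (.exp (.alt (nat_lit 6) (.exp (.alt (nat_lit 10) (.exp (.alt (nat_lit 5) (.cov (nat_lit 347640423522708264845618)) (.alt (nat_lit 5) (.cov (nat_lit 29977749124730060981)) (.alt (nat_lit 5) (.cov (nat_lit 343877288356194120892505)) (.alt (nat_lit 5) (.cov (nat_lit 343877288908149662679078)) (.alt (nat_lit 5) (.cov (nat_lit 48426610867590660113)) (.alt (nat_lit 5) (.cov (nat_lit 343877288908158722375701)) (.alt (nat_lit 5) (.cov (nat_lit 620275941026225455115)) (.alt (nat_lit 5) (.cov (nat_lit 48427349729640185862)) (.alt (nat_lit 5) (.cov (nat_lit 2967624806102362750979)) (.alt (nat_lit 5) (.cov (nat_lit 48427655393872707586)) (.alt (nat_lit 5) (.cov (nat_lit 385080736938095280129)) (.alt (nat_lit 5) (.cov (nat_lit 1787033495447221043200)) (.alt (nat_lit 5) (.exp (.alt (nat_lit 4) (.exp (.alt (nat_lit 12) (.cov (nat_lit 263673858757569130248570167885826)) (.alt (nat_lit 12) (.cov (nat_lit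 1399489628301585416984724806565889)) (.alt (nat_lit 12) (.cov (nat_lit 1399489628645801661419936249020416)) (.alt (nat_lit 12) (.cov (nat_lit 25576412175709338861657)) .e))))) (.alt (nat_lit 4) (.cov (nat_lit 8882109675024192372775)) (.alt (nat_lit 4) (.cov (nat_lit 10136487610129837981786)) (.alt (nat_lit 4) (.cov (nat_lit 102075061195000271339555)) (.alt (nat_lit 4) (.cov (nat_lit 46119723313269833766)) (.alt (nat_lit 4) (.cov (nat_lit 46120275267570106383)) (.alt (nat_lit 4) (.cov (nat_lit 46120767848611577863)) (.alt (nat_lit 4) (.cov (nat_lit 46120767848779350022)) (.alt (nat_lit 4) (.cov (nat_lit 1374286941489215832067)) (.alt (nat_lit 4) (.cov (nat_lit 119908344476966322178)) (.alt (nat_lit 4) (.cov (nat_lit 1817009168693984231425)) (.alt (nat_lit 4) (.cov (nat_lit 415056933552383852544)) (.alt (nat_lit 4) (.cov (nat_lit 717228331)) .e)))))))))))))) .e)))))))))))))) .e)) .e)) .e)) .e)) (.alt (nat_lit 1) (.cov (nat_lit 6922848464901505030)) (.alt (nat_lit 1) (.cov (nat_lit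 6922888047320104963)) (.alt (nat_lit 1) (.cov (nat_lit 1335088452558314799106)) (.alt (nat_lit 1) (.cov (nat_lit 11534596055977951233)) (.alt (nat_lit 1) (.exp (.alt (nat_lit 3) (.exp (.alt (nat_lit 5) (.exp (.alt (nat_lit 4) (.cov (nat_lit 17234983919674705177575077479186439)) (.alt (nat_lit 4) (.cov (nat_lit 106489860800531305786714592641027)) (.alt (nat_lit 4) (.cov (nat_lit 1688516905261196576621624962318337)) (.alt (nat_lit 4) (.exp (.alt (nat_lit 6) (.exp (.alt (nat_lit 12) (.cov (nat_lit 224511068893185348247596122576519170)) (.alt (nat_lit 12) (.cov (nat_lit 35500725663141579010126393638913)) (.alt (nat_lit 12) (.cov (nat_lit 65921898039717841714116846157824)) (.alt (nat_lit 12) (.cov (nat_lit 398914086352592044121)) .e))))) .e)) (.alt (nat_lit 4) (.cov (nat_lit 343863453309133953958224)) .e)))))) (.alt (nat_lit 5) (.exp (.alt (nat_lit 4) (.cov (nat_lit 6921380570478629370977022522687494)) (.alt (nat_lit 4) (.cov (nat_lit 106491548113397324242208218415107)) (.alt (nat_lit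 4) (.cov (nat_lit 106490160266390385995232728580097)) (.alt (nat_lit 4) (.cov (nat_lit 106490160266390386116179007635456)) (.alt (nat_lit 4) (.cov (nat_lit 102211106486708108001462)) .e)))))) (.alt (nat_lit 5) (.cov (nat_lit 10138795885258773365067)) (.alt (nat_lit 5) (.cov (nat_lit 406870614114241258455228)) (.alt (nat_lit 5) (.cov (nat_lit 9227299492578984117)) (.alt (nat_lit 5) (.cov (nat_lit 378162757110686810201)) (.alt (nat_lit 5) (.cov (nat_lit 48427587224151785506)) (.alt (nat_lit 5) (.cov (nat_lit 48427793942102147089)) (.alt (nat_lit 5) (.cov (nat_lit 378162796702869749781)) (.alt (nat_lit 5) (.cov (nat_lit 21850173309708405833739)) (.alt (nat_lit 5) (.cov (nat_lit 48427910480570351622)) (.alt (nat_lit 5) (.cov (nat_lit 29981219183412641795)) (.alt (nat_lit 5) (.exp (.alt (nat_lit 4) (.exp (.alt (nat_lit 6) (.exp (.alt (nat_lit 12) (.exp (.alt (nat_lit 7) (.exp (.alt (nat_lit 15) (.cov (nat_lit 116626389129540381486743106355202)) (.alt (nat_lit 15) (.cov (nat_lit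 48145373162317705957129885620109313)) (.alt (nat_lit 15) (.cov (nat_lit 48145373162359764533637734003113984)) (.alt (nat_lit 15) (.cov (nat_lit 790905669490951848025)) .e))))) (.alt (nat_lit 7) (.cov (nat_lit 1805477479747469443111)) (.alt (nat_lit 7) (.cov (nat_lit 350153791905771937595482)) (.alt (nat_lit 7) (.cov (nat_lit 45413580929592709873699)) (.alt (nat_lit 7) (.cov (nat_lit 53037252340209418278)) (.alt (nat_lit 7) (.cov (nat_lit 53037804295113670671)) (.alt (nat_lit 7) (.cov (nat_lit 53038296876859785223)) (.alt (nat_lit 7) (.cov (nat_lit 53038296876960448518)) (.alt (nat_lit 7) (.cov (nat_lit 126825873504509886467)) (.alt (nat_lit 7) (.cov (nat_lit 53038897210309214210)) (.alt (nat_lit 7) (.cov (nat_lit 6546293180591877652481)) (.alt (nat_lit 7) (.cov (nat_lit 200613533695513460736)) (.alt (nat_lit 7) (.cov (nat_lit 15730987)) .e)))))))))))))) .e)) .e)) .e)) (.alt (nat_lit 5) (.cov (nat_lit 1558755206859859165185)) (.alt (nat_lit 5) (.cov (nat_lit 1344311824595168526336))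 (.alt (nat_lit 5) (.exp (.alt (nat_lit 4) (.cov (nat_lit 1355838647104555712848)) (.alt (nat_lit 4) (.cov (nat_lit 104583818404417933148721)) (.alt (nat_lit 4) (.exp (.alt (nat_lit 6) (.cov (nat_lit 872152375251782058502861289947138)) (.alt (nat_lit 6) (.cov (nat_lit 764464307895589535745994519006412801)) (.alt (nat_lit 6) (.cov (nat_lit 101419557866884032594079944540160)) (.alt (nat_lit 6) (.cov (nat_lit 46120275267404431449)) .e))))) (.alt (nat_lit 4) (.cov (nat_lit 1355840327157886746663)) (.alt (nat_lit 4) (.cov (nat_lit 46120767848611577946)) (.alt (nat_lit 4) (.cov (nat_lit 415056247457295892515)) (.alt (nat_lit 4) (.cov (nat_lit 25248985454489588727846)) (.alt (nat_lit 4) (.cov (nat_lit 1784727333580247662607)) (.alt (nat_lit 4) (.cov (nat_lit 87626584129852669959)) (.alt (nat_lit 4) (.cov (nat_lit 6507093996769363623942)) (.alt (nat_lit 4) (.cov (nat_lit 6507094133109241675779)) (.alt (nat_lit 4) (.cov (nat_lit 27675277218319171586)) (.alt (nat_lit 4) (.cov (nat_lit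 27675373975778623489)) (.alt (nat_lit 4) (.exp (.alt (nat_lit 6) (.exp (.alt (nat_lit 12) (.cov (nat_lit 21870921358008586862898)) (.alt (nat_lit 12) (.cov (nat_lit 406817578014199626334389)) (.alt (nat_lit 12) (.cov (nat_lit 102077367385457952817241)) (.alt (nat_lit 12) (.cov (nat_lit 64567019341281755170)) (.alt (nat_lit 12) (.cov (nat_lit 64567511922960760849)) (.alt (nat_lit 12) (.cov (nat_lit 1358144984893439868949)) (.alt (nat_lit 12) (.cov (nat_lit 64567511922356781067)) (.alt (nat_lit 12) (.cov (nat_lit 103767439014426050566)) (.alt (nat_lit 12) (.cov (nat_lit 106073622872679514115)) (.alt (nat_lit 12) (.cov (nat_lit 29980502302006444034)) (.alt (nat_lit 12) (.cov (nat_lit 1420404248075647844353)) (.alt (nat_lit 12) (.cov (nat_lit 1346617478488391680000)) (.alt (nat_lit 12) (.exp (.alt (nat_lit 13) (.exp (.alt (nat_lit 9) (.cov (nat_lit 47364499560836138915873993411002370)) (.alt (nat_lit 9) (.cov (nat_lit 92148060995725297533726374570754049)) (.alt (nat_lit 9) (.cov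 (nat_lit 3321247106506610377281817259540480)) (.alt (nat_lit 9) (.cov (nat_lit 1510328323326134452313)) .e))))) (.alt (nat_lit 13) (.cov (nat_lit 1362755599990462087207)) (.alt (nat_lit 13) (.cov (nat_lit 1510328912664371134554)) (.alt (nat_lit 13) (.cov (nat_lit 1510330366218743054371)) (.alt (nat_lit 13) (.cov (nat_lit 1510330366215991590950)) (.alt (nat_lit 13) (.cov (nat_lit 66872862350932705295)) (.alt (nat_lit 13) (.cov (nat_lit 66873354932141948935)) (.alt (nat_lit 13) (.cov (nat_lit 66873354931705741318)) (.alt (nat_lit 13) (.cov (nat_lit 140660942555445198851)) (.alt (nat_lit 13) (.cov (nat_lit 168331043272410529794)) (.alt (nat_lit 13) (.cov (nat_lit 1570283942519470292993)) (.alt (nat_lit 13) (.cov (nat_lit 1805479625993447538688)) (.alt (nat_lit 13) (.cov (nat_lit 613419307)) .e)))))))))))))) .e)))))))))))))) .e)) (.alt (nat_lit 4) (.cov (nat_lit 6293893)) .e)))))))))))))))) .e))))))))))))))))) .e)) (.alt (nat_lit 1) (.cov (nat_lit 185022286238)) .e)))))))))))))))))))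 .e))))))))))))))))))

theorem j24S15 : JG (2 ^ 32 - 1) [(32, 15, 9)] :=
  chkJ_ok (p := 0) (a := 0) (b := 0) (sp := []) j24G1 j24J15 (by decide +kernel)

/-- certificate for the classes 9, 15 -/
def j24J9 : J true :=
  .exp (.alt (nat_lit 0) (.cov (nat_lit 36897395811752608854)) (.alt (nat_lit 0) (.cov (nat_lit 627193804304779575884)) (.alt (nat_lit 0) (.cov (nat_lit 627193804304779576116)) (.alt (nat_lit 0) (.cov (nat_lit 18451588521943630160)) (.alt (nat_lit 0) (.exp (.alt (nat_lit 1) (.cov (nat_lit 10152438140562446946542063452162)) (.alt (nat_lit 1) (.cov (nat_lit 55512966134777962146238862854193153)) (.alt (nat_lit 1) (.cov (nat_lit 10152442997737735539842027094016)) (.alt (nat_lit 1) (.cov (nat_lit 4616710786575761497)) .e))))) (.alt (nat_lit 0) (.cov (nat_lit 387386786655519113255)) (.alt (nat_lit 0) (.cov (nat_lit 2311004116802863194)) (.alt (nat_lit 0) (.cov (nat_lit 18452004137341026339)) (.alt (nat_lit 0) (.cov (nat_lit 4616981266430951439)) (.alt (nat_lit 0) (.cov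 (nat_lit 9228731056530653191)) (.alt (nat_lit 0) (.cov (nat_lit 2311193232798646278)) (.alt (nat_lit 0) (.cov (nat_lit 9228753046763208707)) (.alt (nat_lit 0) (.cov (nat_lit 2311237213261660161)) (.alt (nat_lit 0) (.cov (nat_lit 406866004389751554048000)) (.alt (nat_lit 0) (.cov (nat_lit 1051039)) .e)))))))))))))))

theorem j24S9 : JG (2 ^ 32 - 1) [(32, 9, 15)] :=
  chkJ_ok (p := 0) (a := 0) (b := 0) (sp := []) j24G1 j24J9 (by decide +kernel)

/-- **Every tree with 24 vertices embeds in `Q_5` with its root at a given vertex.** -/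
theorem nf24 : NF 5 (2 ^ 32 - 1) 0 [⟨0, 23, 0⟩] := by
  apply NF24
  intro a h1 h2
  interval_cases a
  · exact j24S8
  · exact j24S9
  · exact j24S10
  · exact j24S11
  · exact j24S12
  · exact j24S13
  · exact j24S14
  · exact j24S15
  · exact j24S16

end JT

end Pool.Agent.Work.MP_bf01b2_co.MR
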