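import Pool.Agent.Work.MP_bf01b2_co.MR.Hop

/-!
# Marks recursion: states in counts, and the level lemma

`Gd m D s v`: every labelled forest on `Q_m` with sizes at most `v`, at most `D` soft positions
(outside of the roots) and at most `s` holes with non-empty label embeds.
-/

set_option autoImplicit false

namespace Pool.Agent.Work.MP_bf01b2_co.MR

section defs
variable {V : Type*} [DecidableEq V]

/-- number of holes with a non-empty label -/
def nspec (Ts : List (LRT V)) : ℕ := (Ts.flatMap LRT.labs).countP (fun F => decide (F ≠ ∅))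

theorem nspec_append (Ts Us : List (LRT V)) : nspec (Ts ++ Us) = nspec Ts + nspec Us := by
  unfold nspec
  rw [List.flatMap_append, List.countP_append]

theorem nspec_perm {Ts Us : List (LRT V)} (h : Ts.Perm Us) : nspec Ts = nspec Us := by
  unfold nspec
  exact (h.flatMap_right _).countP_eq _

theorem softs_perm {Ts Us : List (LRT V)} (h : Ts.Perm Us) : softs Ts = softs Us := by
  ext x
  rw [mem_softs, mem_softs]
  constructor
  · rintro ⟨T, hT, F, hF, hx⟩
    exact ⟨T, h.mem_iff.1 hT, F, hF, hx⟩
  · rintro ⟨T, hT, F, hF, hx⟩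
    exact ⟨T, h.mem_iff.2 hT, F, hF, hx⟩

theorem poss_perm {Ts Us : List (LRT V)} (h : Ts.Perm Us) : poss Ts = poss Us := by
  ext x
  rw [mem_poss, mem_poss]
  constructor
  · rintro ⟨T, hT, hx⟩
    exact ⟨T, h.mem_iff.1 hT, hx⟩
  · rintro ⟨T, hT, hx⟩
    exact ⟨T, h.mem_iff.2 hT, hx⟩

theorem poss_append (Ts Us : List (LRT V)) : poss (Ts ++ Us) = poss Ts ∪ poss Us := by
  unfold poss
  rw [List.map_append, List.toFinset_append]

/-- The states of the induction. -/
def Gd (m D s : ℕ) (v : List ℕ) : Prop :=
  ∀ Ts : List (LRT (Fin m → Bool)), (Ts.map LRT.pos).Nodup → (∀ T ∈ Ts, RootOK T) →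
    List.Forall₂ (fun T n => LRT.size T ≤ n) Ts v → (softs Ts \ poss Ts).card ≤ D →
      nspec Ts ≤ s → ∃ S, Emb (cadj m) Ts S

end defs

theorem Gd.mono {m D D' s s' : ℕ} {v w : List ℕ} (hD : D ≤ D') (hs : s ≤ s')
    (hv : List.Forall₂ (· ≤ ·) v w) (h : Gd m D' s' w) : Gd m D s v := by
  intro Ts h1 h2 h3 h4 h5
  refine h Ts h1 h2 ?_ (h4.trans hD) (h5.trans hs)
  clear h1 h2 h4 h5 h
  induction h3 generalizing w with
  | nil => cases hv; exact .nil
  | cons h3 _ ih =>
    cases hv with
    | cons h6 h7 => exact .cons (h3.trans h6) (ih h7)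

theorem forall₂_le_refl : ∀ v : List ℕ, List.Forall₂ (· ≤ ·) v v
  | [] => .nil
  | _ :: v => .cons le_rfl (forall₂_le_refl v)

theorem Gd.monoDs {m D D' s s' : ℕ} {v : List ℕ} (hD : D ≤ D') (hs : s ≤ s')
    (h : Gd m D' s' v) : Gd m D s v := h.mono hD hs (forall₂_le_refl v)

theorem Gd.perm {m D s : ℕ} {v w : List ℕ} (hvw : v.Perm w) (h : Gd m D s v) :
    Gd m D s w := by
  intro Ts h1 h2 h3 h4 h5
  have h6 : List.Forall₂ (fun n T => LRT.size T ≤ n) w Ts := h3.flip
  obtain ⟨Us, h7, h8⟩ := List.perm_comp_forall₂ hvw h6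
  have h9 : List.Forall₂ (fun T n => LRT.size T ≤ n) Us v := h7.flip
  obtain ⟨S, hS⟩ := h Us ((h8.map LRT.pos).nodup_iff.2 h1) (fun T hT => h2 T (h8.mem_iff.1 hT)) h9
    (by rw [softs_perm h8, poss_perm h8]; exact h4) (by rw [nspec_perm h8]; exact h5)
  exact ⟨S, hS.perm h8⟩

/-! ### Hard states -/

/-- a tree without labels -/
def HT.lab {V : Type*} : HT → LT V
  | .nil => .nil
  | .hole => .hole ∅
  | .node l r => .node l.lab r.lab

theorem HT.lab_shape {V : Type*} : ∀ t : HT, (t.lab : LT V).shape = t
  | .nil => rfl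
  | .hole => rfl
  | .node l r => by rw [HT.lab, LT.shape, HT.lab_shape l, HT.lab_shape r]

theorem HT.lab_labs {V : Type*} : ∀ t : HT, ∀ F ∈ (t.lab : LT V).labs, F = ∅
  | .nil, F, h => by simp [HT.lab, LT.labs] at h
  | .hole, F, h => by simpa [HT.lab, LT.labs] using h
  | .node l r, F, h => by
    simp only [HT.lab, LT.labs, List.mem_append] at h
    rcases h with h | h
    · exact HT.lab_labs l F h
    · exact HT.lab_labs r F h

theorem HT.lab_top {V : Type*} (t : HT) : (t.lab : LT V).top = ∅ := by
  cases t <;> rfl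

/-- Hard facts of all positions give hard states. -/
theorem Gd.of_HF {m : ℕ} {v : List ℕ} (h : ∀ ps : List (Fin m → Bool), ps.Nodup →
    ps.length = v.length → HF (cadj m) Finset.univ (ps.zip v)) : Gd m 0 0 v := by
  intro Ts h1 h2 h3 h4 h5
  have hlen : Ts.length = v.length := h3.length_eq
  have h6 := h (Ts.map LRT.pos) h1 (by rw [List.length_map, hlen])
  obtain ⟨S, -, hS⟩ := emb_of_HF (adj := cadj m) (X := Finset.univ) (Ts := Ts) (O := []) h2 (by
    intro y hy hy'
    exfalso
    have : y ∈ softs Ts \ poss Ts := Finset.mem_sdiff.2 ⟨hy, hy'⟩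
    rw [Finset.card_eq_zero.1 (Nat.le_zero.1 h4)] at this
    exact absurd this (Finset.notMem_empty _)) (by
    rw [List.map_nil, List.append_nil]
    intro Us hUs
    apply h6
    clear h1 h2 h4 h6 h hlen h5
    induction h3 generalizing Us with
    | nil => cases hUs; exact .nil
    | cons h7 _ ih =>
      rw [List.map_cons] at hUs
      cases hUs with
      | cons h8 h9 =>
        simp only [List.map_cons, List.zip_cons_cons]
        exact .cons ⟨h8.1, h8.2.trans h7⟩ (ih _ h9))
  exact ⟨S, hS⟩

/-- Hard states give hard facts. -/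
theorem Gd.toHF {m : ℕ} {v : List ℕ} (h : Gd m 0 0 v) {ms : List ((Fin m → Bool) × ℕ)}
    (hms : ms.map Prod.snd = v) (hnd : (ms.map Prod.fst).Nodup) :
    HF (cadj m) Finset.univ ms := by
  intro Us hUs
  let Ts : List (LRT (Fin m → Bool)) := Us.map fun U => ⟨U.pos, U.l.lab, U.r.lab⟩
  have hpos : Ts.map LRT.pos = ms.map Prod.fst := by
    simp only [Ts, List.map_map]
    clear h hms hnd
    induction hUs with
    | nil => rfl
    | cons h1 _ ih =>
      simp only [List.map_cons, Function.comp] at ih ⊢
      rw [h1.1, ih]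
  have hlab : ∀ T ∈ Ts, ∀ F ∈ T.labs, F = ∅ := by
    intro T hT F hF
    obtain ⟨U, _, rfl⟩ := List.mem_map.1 hT
    simp only [LRT.labs, List.mem_append] at hF
    rcases hF with hF | hF
    · exact HT.lab_labs _ F hF
    · exact HT.lab_labs _ F hF
  have hsoft : softs Ts = ∅ := by
    rw [Finset.eq_empty_iff_forall_notMem]
    intro x hx
    obtain ⟨T, hT, F, hF, hxF⟩ := mem_softs.1 hx
    rw [hlab T hT F hF] at hxF
    exact absurd hxF (Finset.notMem_empty _)
  obtain ⟨S, p, h1, -⟩ := h Ts (by rw [hpos]; exact hnd) (by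
    intro T hT
    obtain ⟨U, _, rfl⟩ := List.mem_map.1 hT
    constructor <;> simp [HT.lab_top]) (by
    subst hms
    simp only [Ts]
    rw [List.forall₂_map_left_iff, List.forall₂_map_right_iff]
    refine hUs.imp fun U m hU => ?_
    have : LRT.size (⟨U.pos, U.l.lab, U.r.lab⟩ : LRT (Fin _ → Bool)) = U.size := by
      simp only [LRT.size, LT.size, HT.lab_shape, RT.size]
    rw [this]
    exact hU.2) (by rw [hsoft]; simp) (by
    unfold nspec
    rw [Nat.le_zero, List.countP_eq_zero]
    intro F hF
    obtain ⟨T, hT, hF⟩ := List.mem_flatMap.1 hF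
    simp [hlab T hT F hF])
  refine ⟨S, p, ?_, Finset.subset_univ _⟩
  have h2 : Ts.map LRT.shape = Us := by
    simp only [Ts, List.map_map]
    conv_rhs => rw [← List.map_id Us]
    refine List.map_congr_left fun U _ => ?_
    simp only [Function.comp, LRT.shape, HT.lab_shape]
    rfl
  rwa [h2] at h1

/-- tree with one vertex -/
def dummy {V : Type*} (o : V) : LRT V := ⟨o, .nil, .nil⟩

theorem dummy_labs {V : Type*} (o : V) : (dummy o).labs = [] := rfl

theorem softs_dummies {V : Type*} [DecidableEq V] (Ts : List (LRT V)) (O : List V) :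
    softs (Ts ++ O.map dummy) = softs Ts := by
  ext x
  rw [mem_softs, mem_softs]
  constructor
  · rintro ⟨T, hT, F, hF, hx⟩
    rcases List.mem_append.1 hT with hT | hT
    · exact ⟨T, hT, F, hF, hx⟩
    · obtain ⟨o, _, rfl⟩ := List.mem_map.1 hT
      simp [dummy_labs] at hF
  · rintro ⟨T, hT, F, hF, hx⟩
    exact ⟨T, List.mem_append_left _ hT, F, hF, hx⟩

theorem nspec_dummies {V : Type*} [DecidableEq V] (Ts : List (LRT V)) (O : List V) :
    nspec (Ts ++ O.map dummy) = nspec Ts := by
  rw [nspec_append]
  have : nspec (O.map (dummy (V := V))) = 0 := by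
    unfold nspec
    rw [List.countP_eq_zero]
    intro F hF
    obtain ⟨T, hT, hF⟩ := List.mem_flatMap.1 hF
    obtain ⟨o, _, rfl⟩ := List.mem_map.1 hT
    simp [dummy_labs] at hF
  omega

/-- Fewer trees. -/
theorem Gd.drop {m D s : ℕ} {v w : List ℕ} (h : Gd m D s (v ++ w)) (hw : ∀ n ∈ w, 1 ≤ n)
    (hlen : v.length + w.length ≤ 2 ^ m) : Gd m D s v := by
  intro Ts h1 h2 h3 h4 h5
  -- free positions
  have hcard : w.length ≤ (Finset.univ \ poss Ts : Finset (Fin m → Bool)).card := by
    have e1 : (poss Ts).card = v.length := by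
      unfold poss
      rw [List.toFinset_card_of_nodup h1, List.length_map, h3.length_eq]
    have e2 := Finset.le_card_sdiff (poss Ts) (Finset.univ : Finset (Fin m → Bool))
    have e3 : (Finset.univ : Finset (Fin m → Bool)).card = 2 ^ m := by
      rw [Finset.card_univ]; simp
    omega
  obtain ⟨Q, hQ, hQc⟩ := Finset.exists_subset_card_eq hcard
  let O := Q.toList
  have hO : ∀ o ∈ O, o ∉ poss Ts := fun o ho =>
    (Finset.mem_sdiff.1 (hQ (Finset.mem_toList.1 ho))).2
  obtain ⟨S, hS⟩ := h (Ts ++ O.map dummy) (by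
    rw [List.map_append, List.nodup_append]
    refine ⟨h1, ?_, ?_⟩
    · rw [List.map_map]
      have : (LRT.pos ∘ dummy : (Fin m → Bool) → Fin m → Bool) = id := rfl
      rw [this, List.map_id]
      exact Finset.nodup_toList Q
    · intro a ha c hc hac
      subst hac
      rw [List.map_map] at hc
      obtain ⟨o, ho, rfl⟩ := List.mem_map.1 hc
      apply hO o ho
      unfold poss
      exact List.mem_toFinset.2 ha) (by
    intro T hT
    rcases List.mem_append.1 hT with hT | hT
    · exact h2 T hT
    · obtain ⟨o, _, rfl⟩ := List.mem_map.1 hT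
      constructor <;> simp [dummy, LT.top]) (by
    refine forall₂_append' h3 ?_
    have hl : (O.map (dummy (V := Fin m → Bool))).length = w.length := by
      rw [List.length_map, Finset.length_toList, hQc]
    have key : ∀ (w : List ℕ) (P : List (Fin m → Bool)), (∀ n ∈ w, 1 ≤ n) →
        (P.map (dummy (V := Fin m → Bool))).length = w.length →
        List.Forall₂ (fun T n => LRT.size T ≤ n) (P.map dummy) w := by
      clear hO hQ hcard h h1 h2 h3 h4 h5 hl hQc hw hlen
      intro w
      induction w with
      | nil =>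
        intro P _ hl
        rw [List.length_map, List.length_nil, List.length_eq_zero_iff] at hl
        subst hl
        exact .nil
      | cons a w ih =>
        intro P hw hl
        cases P with
        | nil => simp at hl
        | cons o P =>
          rw [List.map_cons]
          refine .cons ?_ (ih P (fun n hn => hw n (List.mem_cons_of_mem _ hn)) (by simpa using hl))
          have := hw a List.mem_cons_self
          simpa [dummy, LRT.size] using this
    exact key w O hw hl) (by
    rw [softs_dummies]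
    refine le_trans (Finset.card_le_card ?_) h4
    intro x hx
    rw [Finset.mem_sdiff] at hx ⊢
    refine ⟨hx.1, fun h => hx.2 ?_⟩
    rw [poss_append]
    exact Finset.mem_union_left _ h) (by rw [nspec_dummies]; exact h5)
  obtain ⟨A, B, hA, -⟩ := emb_append.1 hS
  exact ⟨A, hA⟩

/-- **Hard conversion.** Soft positions are replaced by trees with one vertex. -/
theorem Gd.soft_of_hard {m D s : ℕ} {v : List ℕ} (h : Gd m 0 0 (v ++ List.replicate D 1))
    (hlen : v.length + D ≤ 2 ^ m) : Gd m D s v := by
  intro Ts h1 h2 h3 h4 _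
  obtain ⟨O, hOdef⟩ : ∃ O : Finset (Fin m → Bool), O = softs Ts \ poss Ts := ⟨_, rfl⟩
  rw [← hOdef] at h4
  have h5 : Gd m 0 0 (v ++ List.replicate O.toList.length 1) := by
    obtain ⟨k, hk⟩ := Nat.exists_eq_add_of_le h4
    rw [Finset.length_toList]
    rw [hk, List.replicate_add, ← List.append_assoc] at h
    refine h.drop (fun n hn => (List.eq_of_mem_replicate hn).ge) ?_
    rw [List.length_append, List.length_replicate, List.length_replicate]
    omega
  have hlenT := h3.length_eq
  obtain ⟨S, -, hS⟩ := emb_of_HF (adj := cadj m) (X := Finset.univ) (Ts := Ts) (O := O.toList) h2 (by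
    intro y hy hy'
    rw [Finset.mem_toList, hOdef]
    exact Finset.mem_sdiff.2 ⟨hy, hy'⟩) (by
    refine (Gd.mono (v := (Ts.map LRT.size) ++ List.replicate O.toList.length 1) le_rfl le_rfl ?_
      h5).toHF ?_ ?_
    · refine forall₂_append' ?_ (forall₂_le_refl _)
      rw [List.forall₂_map_left_iff]
      exact h3
    · rw [List.map_append, List.map_map, List.map_map]
      congr 1
      exact List.map_const'
    · rw [List.map_append, List.nodup_append, List.map_map, List.map_map]
      refine ⟨h1, ?_, ?_⟩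
      · have : (Prod.fst ∘ fun o : Fin m → Bool => (o, 1)) = id := rfl
        rw [this, List.map_id]
        exact Finset.nodup_toList O
      · intro a ha c hc hac
        subst hac
        have : (Prod.fst ∘ fun o : Fin m → Bool => (o, 1)) = id := rfl
        rw [this, List.map_id, Finset.mem_toList, hOdef, Finset.mem_sdiff] at hc
        apply hc.2
        unfold poss
        exact List.mem_toFinset.2 ha)
  exact ⟨S, hS⟩

end Pool.Agent.Work.MP_bf01b2_co.MR
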