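import Pool.Agent.Work.MP_bf01b2_co.MR.J24
import Pool.Agent.Work.MP_bf01b2_co.MR.B5Base
import Pool.Agent.Work.MP_bf01b2_co.MR.State

/-!
# The hard facts of `Q_5` with total sizes `24, 23, 22, 21` for at most four roots
-/

set_option autoImplicit false

namespace Pool.Agent.Work.MP_bf01b2_co.MR

namespace Tab

theorem j24_one : CM (maskL [0]) 24 := by
  refine CM.of_cls (zs := [0]) (by decide) (by decide) ?_
  intro k hk
  have hk' : k 0 + 1 + 0 ≤ 24 := hk
  exact one_of JT.nf24 (by omega) (by decide)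

/-- **The hard facts of `Q_5`** for at most four roots, total sizes `24, 23, 22, 21`. -/
theorem base5b (ms : List ((Fin 5 → Bool) × ℕ)) (hnd : (ms.map Prod.fst).Nodup)
    (h : ms.length = 0 ∨ (ms.length = 1 ∧ (ms.map Prod.snd).sum ≤ 24) ∨
      (ms.length = 2 ∧ (ms.map Prod.snd).sum ≤ 23) ∨
      (ms.length = 3 ∧ (ms.map Prod.snd).sum ≤ 22) ∨
      (ms.length = 4 ∧ (ms.map Prod.snd).sum ≤ 21)) :
    HF (cadj 5) Finset.univ ms :=
  base_of j24_one (fun _ h0 hb => all2_ok b5R2_ok b5A2_ok h0 hb)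
    (fun _ _ h0 h1 h2 => all3_ok b5R3_ok b5A3_ok h0 h1 h2)
    (fun _ _ _ h0 h1 h2 h3 => all4_ok b5R4_ok b5A4_ok h0 h1 h2 h3) ms hnd h

end Tab

/-- one tree with 24 vertices -/
theorem gd5_one : Gd 5 0 0 [24] := by
  apply Gd.of_HF
  intro ps hnd hl
  match ps, hl with
  | [p], _ =>
    exact Tab.base5b [(p, 24)] (by simp) (Or.inr (Or.inl ⟨rfl, by simp⟩))

end Pool.Agent.Work.MP_bf01b2_co.MR
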