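import Pool.Agent.Work.MP_bf01b2_co.MR.J2

/-!
# Class aware calculus on `Q_5`: states with several slots, tree certificates

A state is a set `U` of free vertices and a list of slots `(p, a, b)`: position of the parent, bounds
for the sizes of the two classes of the tree. `JG U ss`: all trees of these sizes have disjoint places
in `U` below their parents. Rules: cover by regions of the table, rotation of the list, expansion of
the first slot (place its root after the split is known).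
-/

set_option autoImplicit false

namespace Pool.Agent.Work.MP_bf01b2_co.MR

namespace JT

open Tab

/-- the tree `x` has the place of the slot `s` -/
def Sl (x : ℕ × BT) (s : ℕ × ℕ × ℕ) : Prop := x.1 = s.1 ∧ x.2.A ≤ s.2.1 ∧ x.2.B ≤ s.2.2

/-- the fact of a state -/
def JG (U : ℕ) (ss : List (ℕ × ℕ × ℕ)) : Prop :=
  ∀ L : List (ℕ × BT), List.Forall₂ Sl L ss → Pl jadj L (msk U)

theorem JG.nil (U : ℕ) : JG U [] := by
  intro L hL
  cases hL
  trivial

theorem JG.zero {U p b : ℕ} {ss : List (ℕ × ℕ × ℕ)} (h : JG U ss) : JG U ((p, 0, b) :: ss) := by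
  intro L hL
  cases hL with
  | @cons x _ L' _ hx hL' =>
    obtain ⟨q, t⟩ := x
    have ht : t = .nil := by
      rcases BT.valid t with h | h
      · exact h.1
      · have := hx.2.1
        simp only at this
        omega
    subst ht
    rw [Pl.nil_iff]
    exact h L' hL'

/-- one slot in a region of its own -/
theorem JG.cover {U Z p a b : ℕ} {C : BT → Prop} {ss : List (ℕ × ℕ × ℕ)} (hZ : U &&& Z = Z)
    (hf : Fit Z p C) (hC : ∀ t : BT, t.A ≤ a → t.B ≤ b → C t) (h : JG (U ^^^ Z) ss) :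
    JG U ((p, a, b) :: ss) := by
  intro L hL
  cases hL with
  | @cons x _ L' _ hx hL' =>
    obtain ⟨q, t⟩ := x
    obtain ⟨h1, h2, h3⟩ := hx
    have h1 : q = p := h1
    subst h1
    obtain ⟨S, hS, hb⟩ := hf t (hC t h2 h3)
    refine ⟨S, fun v hv => tb_of_and hZ (hS v hv), hb, (h L' hL').mono ?_⟩
    intro v hv
    have h4 := tb_xor hZ (show (U ^^^ Z).testBit v = true from hv)
    refine ⟨h4.1, fun h5 => ?_⟩
    have h6 := hS v (Finset.mem_coe.1 h5)
    rw [h4.2] at h6
    exact absurd h6 (by simp)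

theorem JG.rot {U : ℕ} {s : ℕ × ℕ × ℕ} {ss : List (ℕ × ℕ × ℕ)} (h : JG U (ss ++ [s])) :
    JG U (s :: ss) := by
  intro L hL
  cases hL with
  | @cons x _ L' _ hx hL' =>
    have h1 : List.Forall₂ Sl (L' ++ [x]) (ss ++ [s]) :=
      List.rel_append hL' (List.Forall₂.cons hx List.Forall₂.nil)
    have h2 := h _ h1
    refine Pl.perm ?_ h2
    exact (List.perm_append_comm (l₁ := L') (l₂ := [x]))

theorem JG.swap {U : ℕ} {s s' : ℕ × ℕ × ℕ} {ss : List (ℕ × ℕ × ℕ)} (h : JG U (s :: s' :: ss)) :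
    JG U (s' :: s :: ss) := by
  intro L hL
  cases hL with
  | @cons x _ L' _ hx hL' =>
    cases hL' with
    | @cons y _ L'' _ hy hL'' =>
      exact (h _ (List.Forall₂.cons hy (List.Forall₂.cons hx hL''))).swap

theorem JG.expand {U p a b : ℕ} {ss : List (ℕ × ℕ × ℕ)} (ha : 1 ≤ a) (h1 : a ≤ 2 * b + 1)
    (h2 : b ≤ 2 * a)
    (h : ∀ s ∈ spl a b, ∃ q, jadj p q ∧ U.testBit q = true ∧
      JG (U ^^^ 2 ^ q) ((q, s.1, s.2) :: (q, b - s.1, a - 1 - s.2) :: ss)) :
    JG U ((p, a, b) :: ss) := by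
  intro L hL
  cases hL with
  | @cons x _ L' _ hx hL' =>
    obtain ⟨p', t⟩ := x
    obtain ⟨hp, hA, hB⟩ := hx
    have hp : p' = p := hp
    subst hp
    have hA : t.A ≤ a := hA
    have hB : t.B ≤ b := hB
    obtain ⟨t', k1, k2, k3⟩ : ∃ t', t.le t' ∧ t'.A = a ∧ t'.B = b := by
      by_cases hn : t = .nil
      · subst hn
        obtain ⟨t', _, k2, k3⟩ := BT.ext h1 h2 _ (.node .nil .nil) (by simp)
          (by simpa [BT.A_node, BT.B_nil] using ha) (by simp [BT.B_node, BT.A_nil]) rfl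
        exact ⟨t', trivial, k2, k3⟩
      · exact BT.ext h1 h2 _ t hn hA hB rfl
    have key : Pl jadj ((p', t') :: L') (msk U) := by
      cases t' with
      | nil =>
        rw [BT.A_nil] at k2
        omega
      | node l r =>
        rcases spl_cases k2 k3 with ⟨m1, m2, m3⟩ | ⟨m1, m2, m3⟩
        · obtain ⟨q, hq1, hq2, hq3⟩ := h _ m1
          have h4 := hq3 ((q, r) :: (q, l) :: L') (List.Forall₂.cons ⟨rfl, le_rfl, le_rfl⟩
            (List.Forall₂.cons ⟨rfl, le_of_eq m2, le_of_eq m3⟩ hL'))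
          refine Pl.node hq1 hq2 ?_
          rw [← msk_erase hq2]
          exact h4.swap
        · obtain ⟨q, hq1, hq2, hq3⟩ := h _ m1
          have h4 := hq3 ((q, l) :: (q, r) :: L') (List.Forall₂.cons ⟨rfl, le_rfl, le_rfl⟩
            (List.Forall₂.cons ⟨rfl, le_of_eq m2, le_of_eq m3⟩ hL'))
          refine Pl.node hq1 hq2 ?_
          rw [← msk_erase hq2]
          exact h4
    have hle : List.Forall₂ (fun (x y : ℕ × BT) => x.1 = y.1 ∧ x.2.le y.2) ((p', t) :: L')
        ((p', t') :: L') :=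
      List.Forall₂.cons ⟨rfl, k1⟩ (List.forall₂_same.2 (fun x _ => ⟨rfl, BT.le_refl _⟩))
    exact Pl.le hle key

/-! ### Certificates -/

/-- certificates of states (`true`) and of lists of splits (`false`) -/
inductive J : Bool → Type
  | cov (r : ℕ) : J true
  | rot (c : J true) : J true
  | exp (c : J false) : J true
  | alt (q : ℕ) (c : J true) (d : J false) : J false
  | e : J false

/-- a slot is dropped if its tree is empty -/
noncomputable def cz (q a b : ℕ) (ss : List (ℕ × ℕ × ℕ)) : List (ℕ × ℕ × ℕ) :=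
  Bool.rec (motive := fun _ => List (ℕ × ℕ × ℕ)) ((q, a, b) :: ss) ss (Nat.beq a 0)

theorem cz_ok {U q a b : ℕ} {ss : List (ℕ × ℕ × ℕ)} (h : JG U (cz q a b ss)) :
    JG U ((q, a, b) :: ss) := by
  unfold cz at h
  cases e : Nat.beq a 0 with
  | true =>
    rw [e] at h
    have : a = 0 := Nat.eq_of_beq_eq_true e
    subst this
    exact JG.zero h
  | false =>
    rw [e] at h
    exact h

theorem cz_ok2 {U q a b : ℕ} {x : ℕ × ℕ × ℕ} {ss : List (ℕ × ℕ × ℕ)}
    (h : JG U (x :: cz q a b ss)) : JG U (x :: (q, a, b) :: ss) := by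
  unfold cz at h
  cases e : Nat.beq a 0 with
  | true =>
    rw [e] at h
    have : a = 0 := Nat.eq_of_beq_eq_true e
    subst this
    exact (JG.zero h).swap
  | false =>
    rw [e] at h
    exact h

/-- check of a cover; the references are the digits of `r` in base `2 ^ 41` -/
noncomputable def covC (T lim : ℕ) (ss : List (ℕ × ℕ × ℕ)) : ℕ → ℕ → Bool :=
  List.rec (motive := fun _ => ℕ → ℕ → Bool) (fun _ _ => true)
    (fun s _ ih r Y => fB (Nat.land r 2199023255551) (fun R =>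
      nd (cpB T R s.2.1 s.2.2)
        (put T lim s.1 Y R (fun Y' => fB (Nat.shiftRight r 41) (fun r' => ih r' Y'))))) ss

theorem covC_ok {T lim : ℕ} (hT : ∀ i < lim, JGood T i) : ∀ {ss : List (ℕ × ℕ × ℕ)} {r Y : ℕ},
    covC T lim ss r Y = true → JG Y ss
  | [], _, Y, _ => JG.nil Y
  | s :: ss, r, Y, h => by
    have h' : fB (Nat.land r 2199023255551) (fun R =>
      nd (cpB T R s.2.1 s.2.2)
        (put T lim s.1 Y R (fun Y' => fB (Nat.shiftRight r 41)
          (fun r' => covC T lim ss r' Y')))) = true := h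
    rw [fB_eq, nd_iff] at h'
    obtain ⟨h1, h2⟩ := h'
    obtain ⟨Z, hZ, hf, h3⟩ := put_ok hT h2
    rw [fB_eq] at h3
    exact JG.cover hZ hf (fun t ha hb => cpB_ok h1 ha hb) (covC_ok hT h3)

/-- rotation -/
def rt (ss : List (ℕ × ℕ × ℕ)) : List (ℕ × ℕ × ℕ) :=
  List.rec (motive := fun _ => List (ℕ × ℕ × ℕ)) [] (fun s ss' _ => ss' ++ [s]) ss

theorem rt_ok {U : ℕ} {ss : List (ℕ × ℕ × ℕ)} (h : JG U (rt ss)) : JG U ss := by
  cases ss with
  | nil => exact h
  | cons s ss => exact JG.rot h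

/-- check of a certificate -/
noncomputable def chkJ (T lim : ℕ) {β : Bool} (c : J β) :
    ℕ → ℕ → ℕ → List (ℕ × ℕ) → ℕ → List (ℕ × ℕ × ℕ) → Bool :=
  J.rec (motive := fun _ _ => ℕ → ℕ → ℕ → List (ℕ × ℕ) → ℕ → List (ℕ × ℕ × ℕ) → Bool)
    (fun r _ _ _ _ U ss => covC T lim ss r U)
    (fun _ ih _ _ _ _ U ss => ih 0 0 0 [] U (rt ss))
    (fun _ ih _ _ _ _ U ss => List.rec (motive := fun _ => Bool) false
      (fun s ss' _ => nd (Nat.ble 1 s.2.1) (nd (Nat.ble s.2.1 (Nat.succ (Nat.mul 2 s.2.2)))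
        (nd (Nat.ble s.2.2 (Nat.mul 2 s.2.1))
          (ih s.1 s.2.1 s.2.2 (spl s.2.1 s.2.2) U ss')))) ss)
    (fun q _ _ ihc ihd p a b sp U ss => List.rec (motive := fun _ => Bool) false
      (fun s sp' _ => nd (Nat.ble (Nat.succ q) 32) (nd (isD (Nat.xor p q))
        (nd (Nat.beq (Nat.land (Nat.shiftRight U q) 1) 1)
          (nd (fB (Nat.xor U (Nat.shiftLeft 1 q)) (fun U' =>
              ihc 0 0 0 [] U' (cz q s.1 s.2 (cz q (Nat.sub b s.1) (Nat.sub (Nat.pred a) s.2) ss))))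
            (ihd p a b sp' U ss))))) sp)
    (fun _ _ _ sp _ _ => List.rec (motive := fun _ => Bool) true (fun _ _ _ => false) sp) c

theorem tb_of_beq {U q : ℕ} (h : Nat.beq (Nat.land (Nat.shiftRight U q) 1) 1 = true) :
    U.testBit q = true := by
  have h1 : (U >>> q) &&& 1 = 1 := Nat.eq_of_beq_eq_true h
  have h2 := testBit_zero_of h1
  rw [Nat.testBit_shiftRight] at h2
  simpa using h2

/-- the claim of a certificate -/
def JC (β : Bool) (p a b : ℕ) (sp : List (ℕ × ℕ)) (U : ℕ) (ss : List (ℕ × ℕ × ℕ)) : Prop :=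
  match β with
  | true => JG U ss
  | false => ∀ s ∈ sp, ∃ q, jadj p q ∧ U.testBit q = true ∧
      JG (U ^^^ 2 ^ q) ((q, s.1, s.2) :: (q, b - s.1, a - 1 - s.2) :: ss)

theorem chkJ_ok {T lim : ℕ} (hT : ∀ i < lim, JGood T i) {β : Bool} (c : J β) :
    ∀ {p a b : ℕ} {sp : List (ℕ × ℕ)} {U : ℕ} {ss : List (ℕ × ℕ × ℕ)},
      chkJ T lim c p a b sp U ss = true → JC β p a b sp U ss := by
  induction c with
  | cov r =>
    intro p a b sp U ss h
    exact covC_ok hT (show covC T lim ss r U = true from h)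
  | rot c ih =>
    intro p a b sp U ss h
    have h' : chkJ T lim c 0 0 0 [] U (rt ss) = true := h
    exact rt_ok (ih h')
  | exp c ih =>
    intro p a b sp U ss h
    cases ss with
    | nil => exact JG.nil U
    | cons s ss =>
      obtain ⟨p', a', b'⟩ := s
      have h' : nd (Nat.ble 1 a') (nd (Nat.ble a' (2 * b' + 1))
        (nd (Nat.ble b' (2 * a')) (chkJ T lim c p' a' b' (spl a' b') U ss))) = true := h
      rw [nd_iff, nd_iff, nd_iff] at h'
      obtain ⟨h1, h2, h3, h4⟩ := h'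
      exact JG.expand (Nat.le_of_ble_eq_true h1) (Nat.le_of_ble_eq_true h2)
        (Nat.le_of_ble_eq_true h3) (ih h4)
  | alt q c d ihc ihd =>
    intro p a b sp U ss h
    cases sp with
    | nil => intro s hs; exact absurd hs (List.not_mem_nil)
    | cons s sp =>
      have h' : nd (Nat.ble (Nat.succ q) 32) (nd (isD (Nat.xor p q))
        (nd (Nat.beq (Nat.land (Nat.shiftRight U q) 1) 1)
          (nd (fB (Nat.xor U (Nat.shiftLeft 1 q)) (fun U' =>
              chkJ T lim c 0 0 0 [] U'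
                (cz q s.1 s.2 (cz q (Nat.sub b s.1) (Nat.sub (Nat.pred a) s.2) ss))))
            (chkJ T lim d p a b sp U ss)))) = true := h
      rw [nd_iff, nd_iff, nd_iff, nd_iff, fB_eq] at h'
      obtain ⟨h1, h2, h3, h4, h5⟩ := h'
      intro x hx
      rcases List.mem_cons.1 hx with rfl | hx
      · refine ⟨q, jadj_of (lt_of_succ_ble h1) h2, tb_of_beq h3, ?_⟩
        have e : Nat.xor U (Nat.shiftLeft 1 q) = U ^^^ 2 ^ q := by
          show U ^^^ (1 <<< q) = U ^^^ 2 ^ q
          rw [Nat.shiftLeft_eq, one_mul]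
        rw [e] at h4
        exact cz_ok2 (cz_ok (ihc h4))
      · exact ihd h5 x hx
  | e =>
    intro p a b sp U ss h
    cases sp with
    | nil => intro s hs; exact absurd hs (List.not_mem_nil)
    | cons s sp => exact absurd (show false = true from h) (by simp)

/-! ### The fact with one root -/

/-- every tree with at most 24 vertices embeds in `Q_5` with its root at `0` -/
theorem NF24 (h : ∀ a, 8 ≤ a → a ≤ 16 → JG (2 ^ 32 - 1) [(32, a, 24 - a)]) :
    NF 5 (2 ^ 32 - 1) 0 [⟨0, 23, 0⟩] := by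
  intro τ hτ
  have h1 := (hτ ⟨0, 23, 0⟩ (by simp)).1
  have h1 : (τ 0).1.size + (τ 0).2.size ≤ 23 := h1
  set l := (τ 0).1 with hl
  set r := (τ 0).2 with hr
  have hsz := bt_size l
  have hsz' := bt_size r
  have hv := BT.valid (.node (bt l) (bt r))
  have hA : (BT.node (bt l) (bt r)).A = 1 + (bt l).cls.2 + (bt r).cls.2 := rfl
  have hB : (BT.node (bt l) (bt r)).B = (bt l).cls.1 + (bt r).cls.1 := rfl
  set t := BT.node (bt l) (bt r) with ht
  have hv' : 1 ≤ t.A ∧ t.A ≤ 2 * t.B + 1 ∧ t.B ≤ 2 * t.A := by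
    rcases hv with ⟨e, _⟩ | ⟨_, e⟩
    · exact absurd e (by rw [ht]; simp)
    · exact e
  obtain ⟨a, ha1, ha2, ha3, ha4⟩ : ∃ a, 8 ≤ a ∧ a ≤ 16 ∧ t.A ≤ a ∧ t.B ≤ 24 - a := by
    by_cases h8 : 8 ≤ t.A
    · exact ⟨t.A, h8, by omega, le_rfl, by omega⟩
    · exact ⟨8, le_rfl, by norm_num, by omega, by omega⟩
  obtain ⟨S, hS, hb, _⟩ := h a ha1 ha2 [(32, t)]
    (List.Forall₂.cons ⟨rfl, ha3, ha4⟩ List.Forall₂.nil)
  have hS' : ∀ v ∈ S, v < 32 := by
    intro v hv
    by_contra hc
    push Not at hc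
    have h2 : (2 ^ 32 - 1).testBit v = true := hS v hv
    rw [testBit_ge (by norm_num) hc] at h2
    exact absurd h2 (by simp)
  rw [ht] at hb
  obtain ⟨x, hx, A, B, hA', hB', g1, g2, g3, rfl⟩ := hb
  have hx' : x < 32 := hS' x (Finset.mem_insert_self _ _)
  have hx0 : x = 0 := jadj_virt (r := 0) (by norm_num) hx' hx
  subst hx0
  have hA2 := BS.real (by norm_num) (fun u hu => hS' u
    (Finset.mem_insert_of_mem (Finset.mem_union_left _ hu))) hA'
  have hB2 := BS.real (by norm_num) (fun u hu => hS' u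
    (Finset.mem_insert_of_mem (Finset.mem_union_right _ hu))) hB'
  obtain ⟨pa, hpa⟩ := BS.slot hA2
  obtain ⟨pb, hpb⟩ := BS.slot hB2
  refine ⟨fun _ => insert 0 (A ∪ B), fun _ => pa ++ pb, ?_, ?_⟩
  · intro m hm
    rw [List.mem_singleton] at hm
    subst hm
    refine ⟨⟨A, B, pa, pb, hpa, hpb, g1, g2, g3, rfl, rfl⟩, ?_, ?_⟩
    · intro v hv
      exact hS v hv
    · intro v _
      rw [msk_zero]
      exact Set.notMem_empty v
  · intro m hm m' hm' hne
    rw [List.mem_singleton] at hm hm'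
    subst hm hm'
    exact absurd rfl hne

end JT

end Pool.Agent.Work.MP_bf01b2_co.MR
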