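import Pool.Agent.Work.MP_bf01b2_co.MR.J3

/-!
# Class aware calculus on `Q_5`: trees with a path which avoids a vertex

`FT`: trees with a descending path. The vertices `one` of the path have at most one child, they must
avoid the vertex `x`; the vertices `bl` of the path have two nonempty subtrees. `JF x U ss`: facts of
states with slots of both kinds, plain trees (bounds for the classes) and trees with a path (exact
sizes of the classes).
-/

set_option autoImplicit false

namespace Pool.Agent.Work.MP_bf01b2_co.MR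

namespace JT

open Tab

/-- trees with a descending path -/
inductive FT : Type
  | free (u : BT) : FT
  | one (c : FT) : FT
  | bl (c : FT) (u : BT) : FT

namespace FT

/-- the tree without its path -/
def bt : FT → BT
  | free u => u
  | one c => .node c.bt .nil
  | bl c u => .node c.bt u

/-- the path ends at an empty tree, branching vertices have two nonempty subtrees -/
def WF : FT → Prop
  | free u => u = .nil
  | one c => c.WF
  | bl c u => c.WF ∧ c.bt ≠ .nil ∧ u ≠ .nil

/-- one more vertex at the end of the path -/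
def grow : FT → FT
  | free u => match u with
    | .nil => one (free .nil)
    | .node l r => free (.node l r)
  | one c => one c.grow
  | bl c u => bl c.grow u

theorem grow_ne : ∀ f : FT, f.grow.bt ≠ .nil
  | free .nil => by simp [grow, bt]
  | free (.node l r) => by simp [grow, bt]
  | one c => by simp [grow, bt]
  | bl c u => by simp [grow, bt]

theorem grow_wf : ∀ f : FT, f.WF → f.grow.WF
  | free .nil, _ => rfl
  | free (.node l r), h => by simp [WF] at h
  | one c, h => grow_wf c h
  | bl c u, h => ⟨grow_wf c h.1, grow_ne c, h.2.2⟩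

theorem grow_size : ∀ f : FT, f.WF → f.grow.bt.A + f.grow.bt.B = f.bt.A + f.bt.B + 1
  | free .nil, _ => rfl
  | free (.node l r), h => by simp [WF] at h
  | one c, h => by
    have ih := grow_size c h
    show (BT.node c.grow.bt .nil).A + (BT.node c.grow.bt .nil).B =
      (BT.node c.bt .nil).A + (BT.node c.bt .nil).B + 1
    rw [BT.A_node, BT.B_node, BT.A_node, BT.B_node, BT.A_nil, BT.B_nil]
    omega
  | bl c u, h => by
    have ih := grow_size c h.1
    show (BT.node c.grow.bt u).A + (BT.node c.grow.bt u).B =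
      (BT.node c.bt u).A + (BT.node c.bt u).B + 1
    rw [BT.A_node, BT.B_node, BT.A_node, BT.B_node]
    omega

end FT

section emb

variable {V : Type*} [DecidableEq V]

/-- `f` is embedded below the vertex `v` with image `S`, the path avoids `x` -/
def FS (adj : V → V → Prop) (x : V) : FT → V → Finset V → Prop
  | .free u, v, S => BS adj u v S
  | .one c, v, S => ∃ y, adj v y ∧ y ≠ x ∧ ∃ A, FS adj x c y A ∧ y ∉ A ∧ S = insert y A
  | .bl c u, v, S => ∃ y, adj v y ∧ ∃ A B, FS adj x c y A ∧ BS adj u y B ∧ y ∉ A ∧ y ∉ B ∧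
      Disjoint A B ∧ S = insert y (A ∪ B)

variable {adj : V → V → Prop} {x : V}

theorem BS.nil_iff {v : V} {S : Finset V} : BS adj .nil v S ↔ S = ∅ := Iff.rfl

/-- an embedding which avoids `x` -/
theorem FS.of_bs : ∀ {f : FT} {v : V} {S : Finset V}, BS adj f.bt v S → x ∉ S → FS adj x f v S
  | .free _, _, _, h, _ => h
  | .one c, v, S, h, hx => by
    obtain ⟨y, hy, A, B, hA, hB, h1, h2, h3, rfl⟩ := h
    have hB : B = ∅ := hB
    subst hB
    rw [Finset.union_empty] at hx ⊢
    refine ⟨y, hy, fun e => hx (by rw [e]; exact Finset.mem_insert_self _ _), A, ?_, h1, rfl⟩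
    exact FS.of_bs hA fun h => hx (Finset.mem_insert_of_mem h)
  | .bl c u, v, S, h, hx => by
    obtain ⟨y, hy, A, B, hA, hB, h1, h2, h3, rfl⟩ := h
    refine ⟨y, hy, A, B, ?_, hB, h1, h2, h3, rfl⟩
    exact FS.of_bs hA fun h => hx (Finset.mem_insert_of_mem (Finset.mem_union_left _ h))

theorem FS.of_grow : ∀ {f : FT} {v : V} {S : Finset V}, f.WF → FS adj x f.grow v S →
    ∃ S' ⊆ S, FS adj x f v S'
  | .free .nil, _, _, _, _ => ⟨∅, Finset.empty_subset _, rfl⟩
  | .free (.node l r), _, _, h, _ => by simp [FT.WF] at h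
  | .one c, v, S, hw, h => by
    obtain ⟨y, hy, hyx, A, hA, h1, rfl⟩ := h
    obtain ⟨A', h2, h3⟩ := FS.of_grow (show c.WF from hw) hA
    exact ⟨insert y A', Finset.insert_subset_insert _ h2, y, hy, hyx, A', h3, fun h => h1 (h2 h), rfl⟩
  | .bl c u, v, S, hw, h => by
    obtain ⟨y, hy, A, B, hA, hB, h1, h2, h3, rfl⟩ := h
    obtain ⟨A', h4, h5⟩ := FS.of_grow hw.1 hA
    refine ⟨insert y (A' ∪ B), Finset.insert_subset_insert _ (Finset.union_subset_union_left h4),
      y, hy, A', B, h5, hB, fun h => h1 (h4 h), h2, Finset.disjoint_of_subset_left h4 h3, rfl⟩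

/-- the trees of the list can be placed below their parents, disjointly, in `F` -/
def PlF (adj : V → V → Prop) (x : V) : List (V × FT) → Set V → Prop
  | [], _ => True
  | s :: L, F => ∃ S : Finset V, (∀ v ∈ S, v ∈ F) ∧ FS adj x s.2 s.1 S ∧ PlF adj x L (F \ S)

theorem PlF.mono : ∀ {L : List (V × FT)} {F F' : Set V}, F ⊆ F' → PlF adj x L F → PlF adj x L F'
  | [], _, _, _, _ => trivial
  | _ :: _, _, _, hF, h => by
    obtain ⟨S, h1, h2, h3⟩ := h
    exact ⟨S, fun v hv => hF (h1 v hv), h2, h3.mono (Set.sdiff_subset_sdiff_left hF)⟩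

theorem PlF.swap {s t : V × FT} {L : List (V × FT)} {F : Set V} (h : PlF adj x (s :: t :: L) F) :
    PlF adj x (t :: s :: L) F := by
  obtain ⟨S, h1, h2, S', h1', h2', h3⟩ := h
  refine ⟨S', fun v hv => (h1' v hv).1, h2', S, fun v hv => ⟨h1 v hv, fun hv' => ?_⟩, h2, ?_⟩
  · exact (h1' v hv').2 hv
  · rwa [Set.sdiff_sdiff_comm]

theorem PlF.perm {L L' : List (V × FT)} (h : L.Perm L') :
    ∀ {F : Set V}, PlF adj x L F → PlF adj x L' F := by
  induction h with
  | nil => exact fun h => h
  | cons y _ ih =>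
    intro F h
    obtain ⟨S, h1, h2, h3⟩ := h
    exact ⟨S, h1, h2, ih h3⟩
  | swap y z l => exact fun h => h.swap
  | trans _ _ ih1 ih2 => exact fun h => ih2 (ih1 h)

theorem PlF.nil_iff {p : V} {L : List (V × FT)} {F : Set V} :
    PlF adj x ((p, .free .nil) :: L) F ↔ PlF adj x L F := by
  constructor
  · rintro ⟨S, _, h2, h3⟩
    exact h3.mono Set.sdiff_subset
  · intro h
    exact ⟨∅, by simp, rfl, by simpa using h⟩

theorem PlF.node {p q : V} {l r : BT} {L : List (V × FT)} {F : Set V} (hq : adj p q) (hF : q ∈ F)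
    (h : PlF adj x ((q, .free l) :: (q, .free r) :: L) (F \ {q})) :
    PlF adj x ((p, .free (.node l r)) :: L) F := by
  obtain ⟨A, h1, h2, B, h3, h4, h5⟩ := h
  refine ⟨insert q (A ∪ B), ?_, ⟨q, hq, A, B, h2, h4, fun h => (h1 q h).2 rfl,
    fun h => (h3 q h).1.2 rfl, ?_, rfl⟩, ?_⟩
  · intro v hv
    rcases Finset.mem_insert.1 hv with rfl | hv
    · exact hF
    · rcases Finset.mem_union.1 hv with hv | hv
      · exact (h1 v hv).1
      · exact (h3 v hv).1.1
  · rw [Finset.disjoint_left]
    intro v hv hv'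
    exact (h3 v hv').2 hv
  · refine h5.mono ?_
    rintro v ⟨⟨⟨hv1, hv2⟩, hv3⟩, hv4⟩
    refine ⟨hv1, ?_⟩
    simp only [Finset.coe_insert, Finset.coe_union, Set.mem_insert_iff, Set.mem_union]
    rintro (h | h | h)
    · exact hv2 h
    · exact hv3 h
    · exact hv4 h

theorem PlF.bl {p q : V} {c : FT} {u : BT} {L : List (V × FT)} {F : Set V} (hq : adj p q)
    (hF : q ∈ F) (h : PlF adj x ((q, c) :: (q, .free u) :: L) (F \ {q})) :
    PlF adj x ((p, .bl c u) :: L) F := by
  obtain ⟨A, h1, h2, B, h3, h4, h5⟩ := h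
  refine ⟨insert q (A ∪ B), ?_, ⟨q, hq, A, B, h2, h4, fun h => (h1 q h).2 rfl,
    fun h => (h3 q h).1.2 rfl, ?_, rfl⟩, ?_⟩
  · intro v hv
    rcases Finset.mem_insert.1 hv with rfl | hv
    · exact hF
    · rcases Finset.mem_union.1 hv with hv | hv
      · exact (h1 v hv).1
      · exact (h3 v hv).1.1
  · rw [Finset.disjoint_left]
    intro v hv hv'
    exact (h3 v hv').2 hv
  · refine h5.mono ?_
    rintro v ⟨⟨⟨hv1, hv2⟩, hv3⟩, hv4⟩
    refine ⟨hv1, ?_⟩
    simp only [Finset.coe_insert, Finset.coe_union, Set.mem_insert_iff, Set.mem_union]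
    rintro (h | h | h)
    · exact hv2 h
    · exact hv3 h
    · exact hv4 h

theorem PlF.one {p q : V} {c : FT} {L : List (V × FT)} {F : Set V} (hq : adj p q) (hqx : q ≠ x)
    (hF : q ∈ F) (h : PlF adj x ((q, c) :: L) (F \ {q})) :
    PlF adj x ((p, .one c) :: L) F := by
  obtain ⟨A, h1, h2, h5⟩ := h
  refine ⟨insert q A, ?_, ⟨q, hq, hqx, A, h2, fun h => (h1 q h).2 rfl, rfl⟩, ?_⟩
  · intro v hv
    rcases Finset.mem_insert.1 hv with rfl | hv
    · exact hF
    · exact (h1 v hv).1
  · refine h5.mono ?_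
    rintro v ⟨⟨hv1, hv2⟩, hv3⟩
    refine ⟨hv1, ?_⟩
    simp only [Finset.coe_insert, Set.mem_insert_iff]
    rintro (h | h)
    · exact hv2 h
    · exact hv3 h

/-- placements which avoid `x` -/
theorem PlF.of_pl : ∀ {L : List (V × FT)} {F : Set V}, x ∉ F →
    Pl adj (L.map fun s => (s.1, s.2.bt)) F → PlF adj x L F
  | [], _, _, _ => trivial
  | s :: L, F, hx, h => by
    obtain ⟨S, h1, h2, h3⟩ := h
    exact ⟨S, h1, FS.of_bs h2 fun h => hx (h1 x h), PlF.of_pl (fun h => hx h.1) h3⟩

end emb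

/-- the tree `y` has the place of the slot `s` -/
def Sf (y : ℕ × FT) (s : Bool × ℕ × ℕ × ℕ) : Prop :=
  y.1 = s.2.1 ∧ (s.1 = false → ∃ u, y.2 = .free u ∧ u.A ≤ s.2.2.1 ∧ u.B ≤ s.2.2.2) ∧
    (s.1 = true → y.2.WF ∧ y.2.bt.A = s.2.2.1 ∧ y.2.bt.B = s.2.2.2)

theorem Sf.bt {y : ℕ × FT} {s : Bool × ℕ × ℕ × ℕ} (h : Sf y s) :
    y.2.bt.A ≤ s.2.2.1 ∧ y.2.bt.B ≤ s.2.2.2 := by
  obtain ⟨_, h2, h3⟩ := h
  cases hs : s.1 with
  | false =>
    obtain ⟨u, e, h4⟩ := h2 hs
    rw [e]; exact h4
  | true =>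
    obtain ⟨_, h4, h5⟩ := h3 hs
    exact ⟨le_of_eq h4, le_of_eq h5⟩

theorem Sf.zero {y : ℕ × FT} {fl : Bool} {p b : ℕ} (h : Sf y (fl, p, 0, b)) :
    y = (p, .free .nil) := by
  obtain ⟨q, f⟩ := y
  obtain ⟨h1, h2, h3⟩ := h
  have h1 : q = p := h1
  subst h1
  congr 1
  have hnil : ∀ t : BT, t.A ≤ 0 → t = .nil := by
    intro t ht
    rcases BT.valid t with h | h
    · exact h.1
    · omega
  cases fl with
  | false =>
    obtain ⟨u, e, h4, _⟩ := h2 rfl
    have e : f = .free u := e
    rw [e, hnil u h4]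
  | true =>
    obtain ⟨hw, h4, _⟩ := h3 rfl
    have h4 : f.bt.A = 0 := h4
    cases f with
    | free u =>
      have hw : u = .nil := hw
      rw [hw]
    | one c =>
      have : (BT.node c.bt .nil).A = 0 := h4
      rw [BT.A_node] at this
      omega
    | bl c u =>
      have : (BT.node c.bt u).A = 0 := h4
      rw [BT.A_node] at this
      omega

/-- the fact of a state with path slots -/
def JF (x U : ℕ) (ss : List (Bool × ℕ × ℕ × ℕ)) : Prop :=
  ∀ L : List (ℕ × FT), List.Forall₂ Sf L ss → PlF jadj x L (msk U)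

theorem JF.nil (x U : ℕ) : JF x U [] := by
  intro L hL
  cases hL
  trivial

theorem JF.zero {x U p b : ℕ} {fl : Bool} {ss : List (Bool × ℕ × ℕ × ℕ)} (h : JF x U ss) :
    JF x U ((fl, p, 0, b) :: ss) := by
  intro L hL
  cases hL with
  | @cons y _ L' _ hy hL' =>
    rw [hy.zero, PlF.nil_iff]
    exact h L' hL'

/-- one slot in a region of its own -/
theorem JF.cover {x U Z p a b : ℕ} {fl : Bool} {C : BT → Prop} {ss : List (Bool × ℕ × ℕ × ℕ)}
    (hZ : U &&& Z = Z) (hf : Fit Z p C) (hC : ∀ t : BT, t.A ≤ a → t.B ≤ b → C t)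
    (hx : fl = true → Z.testBit x = false) (h : JF x (U ^^^ Z) ss) :
    JF x U ((fl, p, a, b) :: ss) := by
  intro L hL
  cases hL with
  | @cons y _ L' _ hy hL' =>
    obtain ⟨q, f⟩ := y
    have h1 : q = p := hy.1
    subst h1
    have h2 := hy.bt
    obtain ⟨S, hS, hb⟩ := hf f.bt (hC f.bt h2.1 h2.2)
    refine ⟨S, fun v hv => tb_of_and hZ (hS v hv), ?_, (h L' hL').mono ?_⟩
    · cases fl with
      | false =>
        obtain ⟨u, e, _⟩ := hy.2.1 rfl
        have e : f = .free u := e
        subst e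
        exact hb
      | true =>
        refine FS.of_bs hb fun hxS => ?_
        have h3 := hS x hxS
        rw [hx rfl] at h3
        exact absurd h3 (by simp)
    · intro v hv
      have h4 := tb_xor hZ (show (U ^^^ Z).testBit v = true from hv)
      refine ⟨h4.1, fun h5 => ?_⟩
      have h6 := hS v (Finset.mem_coe.1 h5)
      rw [h4.2] at h6
      exact absurd h6 (by simp)

theorem JF.rot {x U : ℕ} {s : Bool × ℕ × ℕ × ℕ} {ss : List (Bool × ℕ × ℕ × ℕ)}
    (h : JF x U (ss ++ [s])) : JF x U (s :: ss) := by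
  intro L hL
  cases hL with
  | @cons y _ L' _ hy hL' =>
    have h1 : List.Forall₂ Sf (L' ++ [y]) (ss ++ [s]) :=
      List.rel_append hL' (List.Forall₂.cons hy List.Forall₂.nil)
    have h2 := h _ h1
    refine PlF.perm ?_ h2
    exact (List.perm_append_comm (l₁ := L') (l₂ := [y]))

theorem JF.swap {x U : ℕ} {s s' : Bool × ℕ × ℕ × ℕ} {ss : List (Bool × ℕ × ℕ × ℕ)}
    (h : JF x U (s :: s' :: ss)) : JF x U (s' :: s :: ss) := by
  intro L hL
  cases hL with
  | @cons y _ L' _ hy hL' =>
    cases hL' with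
    | @cons z _ L'' _ hz hL'' =>
      exact (h _ (List.Forall₂.cons hz (List.Forall₂.cons hy hL''))).swap

/-- without the vertex `x` the path slots are plain slots -/
theorem JF.drop {x U U' : ℕ} {ss : List (Bool × ℕ × ℕ × ℕ)} (hU : U &&& U' = U')
    (hx : U'.testBit x = false) (h : JG U' (ss.map Prod.snd)) : JF x U ss := by
  intro L hL
  have h1 : List.Forall₂ Sl (L.map fun s => (s.1, s.2.bt)) (ss.map Prod.snd) := by
    clear h
    induction hL with
    | nil => exact List.Forall₂.nil
    | cons hy _ ih => exact List.Forall₂.cons ⟨hy.1, hy.bt⟩ ih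
  refine PlF.mono (F := msk U') ?_ (PlF.of_pl ?_ (h _ h1))
  · intro v hv
    exact tb_of_and hU hv
  · intro hv
    have hv : U'.testBit x = true := hv
    rw [hx] at hv
    exact absurd hv (by simp)

/-- expansion of a plain slot -/
theorem JF.expand {x U p a b : ℕ} {ss : List (Bool × ℕ × ℕ × ℕ)} (ha : 1 ≤ a) (h1 : a ≤ 2 * b + 1)
    (h2 : b ≤ 2 * a)
    (h : ∀ s ∈ spl a b, ∃ q, jadj p q ∧ U.testBit q = true ∧
      JF x (U ^^^ 2 ^ q) ((false, q, s.1, s.2) :: (false, q, b - s.1, a - 1 - s.2) :: ss)) :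
    JF x U ((false, p, a, b) :: ss) := by
  intro L hL
  cases hL with
  | @cons y _ L' _ hy hL' =>
    obtain ⟨p', f⟩ := y
    obtain ⟨hp, hu, _⟩ := hy
    have hp : p' = p := hp
    subst hp
    obtain ⟨t, e, hA, hB⟩ := hu rfl
    have e : f = .free t := e
    subst e
    have hA : t.A ≤ a := hA
    have hB : t.B ≤ b := hB
    obtain ⟨t', k1, k2, k3⟩ : ∃ t', t.le t' ∧ t'.A = a ∧ t'.B = b := by
      by_cases hn : t = .nil
      · subst hn
        obtain ⟨t', _, k2, k3⟩ := BT.ext h1 h2 _ (.node .nil .nil) (by simp)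
          (by simpa [BT.A_node, BT.B_nil] using ha) (by simp [BT.B_node, BT.A_nil]) rfl
        exact ⟨t', trivial, k2, k3⟩
      · exact BT.ext h1 h2 _ t hn hA hB rfl
    have key : PlF jadj x ((p', .free t') :: L') (msk U) := by
      cases t' with
      | nil =>
        rw [BT.A_nil] at k2
        omega
      | node l r =>
        have hsl : ∀ (u : BT) (q a' b' : ℕ), u.A ≤ a' → u.B ≤ b' →
            Sf (q, .free u) (false, q, a', b') := fun u q a' b' g1 g2 =>
          ⟨rfl, fun _ => ⟨u, rfl, g1, g2⟩, fun h => absurd h (by simp)⟩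
        rcases spl_cases k2 k3 with ⟨m1, m2, m3⟩ | ⟨m1, m2, m3⟩
        · obtain ⟨q, hq1, hq2, hq3⟩ := h _ m1
          have h4 := hq3 ((q, .free r) :: (q, .free l) :: L')
            (List.Forall₂.cons (hsl _ _ _ _ le_rfl le_rfl)
            (List.Forall₂.cons (hsl _ _ _ _ (le_of_eq m2) (le_of_eq m3)) hL'))
          refine PlF.node hq1 hq2 ?_
          rw [← msk_erase hq2]
          exact h4.swap
        · obtain ⟨q, hq1, hq2, hq3⟩ := h _ m1
          have h4 := hq3 ((q, .free l) :: (q, .free r) :: L')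
            (List.Forall₂.cons (hsl _ _ _ _ le_rfl le_rfl)
            (List.Forall₂.cons (hsl _ _ _ _ (le_of_eq m2) (le_of_eq m3)) hL'))
          refine PlF.node hq1 hq2 ?_
          rw [← msk_erase hq2]
          exact h4
    obtain ⟨S, g1, g2, g3⟩ := key
    obtain ⟨S', g4, g5⟩ := BS.le k1 (show BS jadj t' p' S from g2)
    refine ⟨S', fun v hv => g1 v (g4 hv), g5, g3.mono ?_⟩
    exact Set.sdiff_subset_sdiff_right (by exact_mod_cast g4)

/-- expansion of a path slot -/
theorem JF.expandF {x U p a b : ℕ} {ss : List (Bool × ℕ × ℕ × ℕ)} (ha : 1 ≤ a)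
    (h0 : ∀ s ∈ spl a b, s.1 = 0 → ∃ q, jadj p q ∧ q ≠ x ∧ U.testBit q = true ∧
      JF x (U ^^^ 2 ^ q) ((true, q, b, a - 1) :: ss))
    (h1 : ∀ s ∈ spl a b, s.1 ≠ 0 → ∃ q, jadj p q ∧ U.testBit q = true ∧
      JF x (U ^^^ 2 ^ q) ((false, q, s.1, s.2) :: (true, q, b - s.1, a - 1 - s.2) :: ss))
    (h2 : ∀ s ∈ spl a b, s.1 ≠ 0 → ∃ q, jadj p q ∧ U.testBit q = true ∧
      JF x (U ^^^ 2 ^ q) ((true, q, s.1, s.2) :: (false, q, b - s.1, a - 1 - s.2) :: ss)) :
    JF x U ((true, p, a, b) :: ss) := by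
  intro L hL
  cases hL with
  | @cons y _ L' _ hy hL' =>
    obtain ⟨p', f⟩ := y
    obtain ⟨hp, _, hf⟩ := hy
    have hp : p' = p := hp
    subst hp
    obtain ⟨hw, hA, hB⟩ := hf rfl
    have hw : f.WF := hw
    have hA : f.bt.A = a := hA
    have hB : f.bt.B = b := hB
    have hsl : ∀ (u : BT) (q a' b' : ℕ), u.A ≤ a' → u.B ≤ b' →
        Sf (q, .free u) (false, q, a', b') := fun u q a' b' g1 g2 =>
      ⟨rfl, fun _ => ⟨u, rfl, g1, g2⟩, fun h => absurd h (by simp)⟩
    have hfl : ∀ (c : FT) (q a' b' : ℕ), c.WF → c.bt.A = a' → c.bt.B = b' →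
        Sf (q, c) (true, q, a', b') := fun c q a' b' g0 g1 g2 =>
      ⟨rfl, fun h => absurd h (by simp), fun _ => ⟨g0, g1, g2⟩⟩
    have hne : ∀ t : BT, t ≠ .nil → t.A ≠ 0 := by
      intro t ht
      rcases BT.valid t with h | h
      · exact absurd h.1 ht
      · omega
    cases f with
    | free u =>
      have hw : u = .nil := hw
      subst hw
      have : (BT.nil).A = a := hA
      rw [BT.A_nil] at this
      omega
    | one c =>
      have hw : c.WF := hw
      have hA' : (BT.node c.bt .nil).A = a := hA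
      have hB' : (BT.node c.bt .nil).B = b := hB
      rw [BT.A_node, BT.B_nil] at hA'
      rw [BT.B_node, BT.A_nil] at hB'
      have hs : (0, 0) ∈ spl a b := by
        refine mem_spl (Nat.zero_le _) (by omega) (tst_of rfl ?_ ?_)
        · have e1 : b - 0 = c.bt.A := by omega
          have e2 : a - 1 - 0 = c.bt.B := by omega
          rw [e1, e2]
          exact BT.vd c.bt
        · omega
      obtain ⟨q, hq1, hqx, hq2, hq3⟩ := h0 _ hs rfl
      refine PlF.one hq1 hqx hq2 ?_
      rw [← msk_erase hq2]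
      exact hq3 ((q, c) :: L') (List.Forall₂.cons (hfl c q b (a - 1) hw (by omega) (by omega)) hL')
    | bl c u =>
      obtain ⟨hw1, hw2, hw3⟩ := hw
      have hA' : (BT.node c.bt u).A = a := hA
      have hB' : (BT.node c.bt u).B = b := hB
      rcases spl_cases hA' hB' with ⟨m1, m2, m3⟩ | ⟨m1, m2, m3⟩
      · obtain ⟨q, hq1, hq2, hq3⟩ := h1 _ m1 (hne _ hw3)
        have h4 := hq3 ((q, .free u) :: (q, c) :: L')
          (List.Forall₂.cons (hsl _ _ _ _ le_rfl le_rfl)
          (List.Forall₂.cons (hfl _ _ _ _ hw1 m2 m3) hL'))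
        refine PlF.bl hq1 hq2 ?_
        rw [← msk_erase hq2]
        exact h4.swap
      · obtain ⟨q, hq1, hq2, hq3⟩ := h2 _ m1 (hne _ hw2)
        have h4 := hq3 ((q, c) :: (q, .free u) :: L')
          (List.Forall₂.cons (hfl _ _ _ _ hw1 rfl rfl)
          (List.Forall₂.cons (hsl _ _ _ _ (le_of_eq m2) (le_of_eq m3)) hL'))
        refine PlF.bl hq1 hq2 ?_
        rw [← msk_erase hq2]
        exact h4

/-! ### Certificates -/

/-- slots -/
abbrev FSlot : Type := Bool × ℕ × ℕ × ℕ

/-- the two parts of a split with their kinds; must the root avoid `x`? -/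
abbrev Br : Type := (Bool × ℕ × ℕ) × (Bool × ℕ × ℕ) × Bool

/-- certificates of states (`true`) and of lists of branches (`false`) -/
inductive G : Bool → Type
  | cov (r : ℕ) : G true
  | rot (c : G true) : G true
  | exp (c : G false) : G true
  | drop (c : J true) : G true
  | alt (q : ℕ) (c : G true) (d : G false) : G false
  | e : G false

/-- the branches of a plain slot -/
noncomputable def brU (a b : ℕ) (sp : List (ℕ × ℕ)) : List Br :=
  List.rec (motive := fun _ => List Br) []
    (fun s _ ih => ((false, s.1, s.2), (false, Nat.sub b s.1, Nat.sub (Nat.pred a) s.2), false) :: ih)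
    sp

/-- the branches of a path slot -/
noncomputable def brF (a b : ℕ) (sp : List (ℕ × ℕ)) : List Br :=
  List.rec (motive := fun _ => List Br) []
    (fun s _ ih => Bool.rec (motive := fun _ => List Br)
      (((false, s.1, s.2), (true, Nat.sub b s.1, Nat.sub (Nat.pred a) s.2), false) ::
        ((true, s.1, s.2), (false, Nat.sub b s.1, Nat.sub (Nat.pred a) s.2), false) :: ih)
      (((true, 0, 0), (true, b, Nat.pred a), true) :: ih) (Nat.beq s.1 0)) sp

theorem mem_brU {a b : ℕ} : ∀ {sp : List (ℕ × ℕ)} {s : ℕ × ℕ}, s ∈ sp →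
    ((false, s.1, s.2), (false, b - s.1, a - 1 - s.2), false) ∈ brU a b sp
  | [], s, h => absurd h List.not_mem_nil
  | y :: sp, s, h => by
    show _ ∈ (((false, y.1, y.2), (false, b - y.1, a - 1 - y.2), false) :: brU a b sp : List Br)
    rcases List.mem_cons.1 h with rfl | h
    · exact List.mem_cons_self
    · exact List.mem_cons_of_mem _ (mem_brU h)

theorem mem_brF {a b : ℕ} : ∀ {sp : List (ℕ × ℕ)} {s : ℕ × ℕ}, s ∈ sp →
    (s.1 = 0 → ((true, 0, 0), (true, b, a - 1), true) ∈ brF a b sp) ∧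
    (s.1 ≠ 0 → ((false, s.1, s.2), (true, b - s.1, a - 1 - s.2), false) ∈ brF a b sp ∧
      ((true, s.1, s.2), (false, b - s.1, a - 1 - s.2), false) ∈ brF a b sp)
  | [], s, h => absurd h List.not_mem_nil
  | y :: sp, s, h => by
    have key : brF a b (y :: sp) = Bool.rec (motive := fun _ => List Br)
      (((false, y.1, y.2), (true, b - y.1, a - 1 - y.2), false) ::
        ((true, y.1, y.2), (false, b - y.1, a - 1 - y.2), false) :: brF a b sp)
      (((true, 0, 0), (true, b, a - 1), true) :: brF a b sp) (Nat.beq y.1 0) := rfl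
    rw [key]
    rcases List.mem_cons.1 h with rfl | h
    · cases e : Nat.beq s.1 0 with
      | true =>
        have e1 : s.1 = 0 := Nat.eq_of_beq_eq_true e
        exact ⟨fun _ => List.mem_cons_self, fun h => absurd e1 h⟩
      | false =>
        have e1 : s.1 ≠ 0 := by
          intro e1
          rw [e1] at e
          exact absurd e (by simp)
        exact ⟨fun h => absurd h e1, fun _ => ⟨List.mem_cons_self,
          List.mem_cons_of_mem _ List.mem_cons_self⟩⟩
    · have ih := mem_brF (a := a) (b := b) h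
      cases Nat.beq y.1 0 with
      | true =>
        exact ⟨fun h => List.mem_cons_of_mem _ (ih.1 h), fun h =>
          ⟨List.mem_cons_of_mem _ (ih.2 h).1, List.mem_cons_of_mem _ (ih.2 h).2⟩⟩
      | false =>
        exact ⟨fun h => List.mem_cons_of_mem _ (List.mem_cons_of_mem _ (ih.1 h)), fun h =>
          ⟨List.mem_cons_of_mem _ (List.mem_cons_of_mem _ (ih.2 h).1),
            List.mem_cons_of_mem _ (List.mem_cons_of_mem _ (ih.2 h).2)⟩⟩

/-- a slot is dropped if its tree is empty -/
noncomputable def czF (q : ℕ) (s : Bool × ℕ × ℕ) (ss : List FSlot) : List FSlot :=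
  Bool.rec (motive := fun _ => List FSlot) ((s.1, q, s.2.1, s.2.2) :: ss) ss (Nat.beq s.2.1 0)

theorem czF_ok {x U q : ℕ} {s : Bool × ℕ × ℕ} {ss : List FSlot} (h : JF x U (czF q s ss)) :
    JF x U ((s.1, q, s.2.1, s.2.2) :: ss) := by
  unfold czF at h
  cases e : Nat.beq s.2.1 0 with
  | true =>
    rw [e] at h
    have : s.2.1 = 0 := Nat.eq_of_beq_eq_true e
    rw [this]
    exact JF.zero h
  | false =>
    rw [e] at h
    exact h

theorem czF_ok2 {x U q : ℕ} {t : FSlot} {s : Bool × ℕ × ℕ} {ss : List FSlot}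
    (h : JF x U (t :: czF q s ss)) : JF x U (t :: (s.1, q, s.2.1, s.2.2) :: ss) := by
  unfold czF at h
  cases e : Nat.beq s.2.1 0 with
  | true =>
    rw [e] at h
    have : s.2.1 = 0 := Nat.eq_of_beq_eq_true e
    rw [this]
    exact (JF.zero h).swap
  | false =>
    rw [e] at h
    exact h

/-- the bit `x` -/
def bit (Y x : ℕ) : ℕ := Nat.land (Nat.shiftRight Y x) 1

theorem bit_eq (Y x : ℕ) : bit Y x = (Y.testBit x).toNat := by
  show (Y >>> x) &&& 1 = (Y.testBit x).toNat
  rw [Nat.and_one_is_mod, Nat.shiftRight_eq_div_pow, Nat.toNat_testBit]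

/-- check of a cover -/
noncomputable def covF (T lim x : ℕ) (ss : List FSlot) : ℕ → ℕ → Bool :=
  List.rec (motive := fun _ => ℕ → ℕ → Bool) (fun _ _ => true)
    (fun s _ ih r Y => fB (Nat.land r 2199023255551) (fun R =>
      nd (cpB T R s.2.2.1 s.2.2.2)
        (put T lim s.2.1 Y R (fun Y' =>
          nd (Bool.rec (motive := fun _ => Bool) true (Nat.beq (bit Y x) (bit Y' x)) s.1)
            (fB (Nat.shiftRight r 41) (fun r' => ih r' Y')))))) ss

theorem covF_ok {T lim x : ℕ} (hT : ∀ i < lim, JGood T i) : ∀ {ss : List FSlot} {r Y : ℕ},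
    covF T lim x ss r Y = true → JF x Y ss
  | [], _, Y, _ => JF.nil x Y
  | s :: ss, r, Y, h => by
    have h' : fB (Nat.land r 2199023255551) (fun R =>
      nd (cpB T R s.2.2.1 s.2.2.2)
        (put T lim s.2.1 Y R (fun Y' =>
          nd (Bool.rec (motive := fun _ => Bool) true (Nat.beq (bit Y x) (bit Y' x)) s.1)
            (fB (Nat.shiftRight r 41) (fun r' => covF T lim x ss r' Y'))))) = true := h
    rw [fB_eq, nd_iff] at h'
    obtain ⟨h1, h2⟩ := h'
    obtain ⟨Z, hZ, hf, h3⟩ := put_ok hT h2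
    rw [nd_iff, fB_eq] at h3
    obtain ⟨h3, h4⟩ := h3
    refine JF.cover (fl := s.1) hZ hf (fun t ha hb => cpB_ok h1 ha hb) (fun hfl => ?_)
      (covF_ok hT h4)
    rw [hfl] at h3
    have h5 : bit Y x = bit (Y ^^^ Z) x := Nat.eq_of_beq_eq_true h3
    rw [bit_eq, bit_eq, Nat.testBit_xor] at h5
    have h6 : (Y.testBit x && Z.testBit x) = Z.testBit x := by rw [← Nat.testBit_and, hZ]
    cases hy : Y.testBit x <;> cases hz : Z.testBit x <;> simp_all

/-- rotation -/
def rtF (ss : List FSlot) : List FSlot :=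
  List.rec (motive := fun _ => List FSlot) [] (fun s ss' _ => ss' ++ [s]) ss

theorem rtF_ok {x U : ℕ} {ss : List FSlot} (h : JF x U (rtF ss)) : JF x U ss := by
  cases ss with
  | nil => exact h
  | cons s ss => exact JF.rot h

/-- the slots without their kinds -/
def unF (ss : List FSlot) : List (ℕ × ℕ × ℕ) :=
  List.rec (motive := fun _ => List (ℕ × ℕ × ℕ)) [] (fun s _ ih => s.2 :: ih) ss

theorem unF_eq : ∀ ss : List FSlot, unF ss = ss.map Prod.snd
  | [] => rfl
  | s :: ss => congrArg (s.2 :: ·) (unF_eq ss)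

/-- check of a certificate -/
noncomputable def chkG (T lim x : ℕ) {β : Bool} (c : G β) : ℕ → List Br → ℕ → List FSlot → Bool :=
  G.rec (motive := fun _ _ => ℕ → List Br → ℕ → List FSlot → Bool)
    (fun r _ _ U ss => covF T lim x ss r U)
    (fun _ ih _ _ U ss => ih 0 [] U (rtF ss))
    (fun _ ih _ _ U ss => List.rec (motive := fun _ => Bool) false
      (fun s ss' _ => nd (Nat.ble 1 s.2.2.1) (nd (Nat.ble s.2.2.1 (Nat.succ (Nat.mul 2 s.2.2.2)))
        (nd (Nat.ble s.2.2.2 (Nat.mul 2 s.2.2.1))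
          (ih s.2.1 (Bool.rec (motive := fun _ => List Br)
            (brU s.2.2.1 s.2.2.2 (spl s.2.2.1 s.2.2.2))
            (brF s.2.2.1 s.2.2.2 (spl s.2.2.1 s.2.2.2)) s.1) U ss')))) ss)
    (fun c _ _ U ss => fB (Nat.shiftLeft 1 x) (fun X =>
      fB (Nat.xor (Nat.lor U X) X) (fun U' => chkJ T lim c 0 0 0 [] U' (unF ss))))
    (fun q _ _ ihc ihd p brs U ss => List.rec (motive := fun _ => Bool) false
      (fun br brs' _ => nd (Nat.ble (Nat.succ q) 32) (nd (isD (Nat.xor p q))
        (nd (Bool.rec (motive := fun _ => Bool) true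
            (Bool.rec (motive := fun _ => Bool) true false (Nat.beq q x)) br.2.2)
          (nd (Nat.beq (bit U q) 1)
            (nd (fB (Nat.xor U (Nat.shiftLeft 1 q)) (fun U' =>
                ihc 0 [] U' (czF q br.1 (czF q br.2.1 ss))))
              (ihd p brs' U ss)))))) brs)
    (fun _ brs _ _ => List.rec (motive := fun _ => Bool) true (fun _ _ _ => false) brs) c

/-- the claim of a certificate -/
def GC (β : Bool) (x p : ℕ) (brs : List Br) (U : ℕ) (ss : List FSlot) : Prop :=
  match β with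
  | true => JF x U ss
  | false => ∀ br ∈ brs, ∃ q, jadj p q ∧ (br.2.2 = true → q ≠ x) ∧ U.testBit q = true ∧
      JF x (U ^^^ 2 ^ q) ((br.1.1, q, br.1.2.1, br.1.2.2) ::
        (br.2.1.1, q, br.2.1.2.1, br.2.1.2.2) :: ss)

theorem chkG_ok {T lim x : ℕ} (hT : ∀ i < lim, JGood T i) {β : Bool} (c : G β) :
    ∀ {p : ℕ} {brs : List Br} {U : ℕ} {ss : List FSlot},
      chkG T lim x c p brs U ss = true → GC β x p brs U ss := by
  induction c with
  | cov r =>
    intro p brs U ss h
    exact covF_ok hT (show covF T lim x ss r U = true from h)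
  | rot c ih =>
    intro p brs U ss h
    have h' : chkG T lim x c 0 [] U (rtF ss) = true := h
    exact rtF_ok (ih h')
  | exp c ih =>
    intro p brs U ss h
    cases ss with
    | nil => exact JF.nil x U
    | cons s ss =>
      obtain ⟨fl, p', a', b'⟩ := s
      have h' : nd (Nat.ble 1 a') (nd (Nat.ble a' (2 * b' + 1))
        (nd (Nat.ble b' (2 * a')) (chkG T lim x c p' (Bool.rec (motive := fun _ => List Br)
            (brU a' b' (spl a' b')) (brF a' b' (spl a' b')) fl) U ss))) = true := h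
      rw [nd_iff, nd_iff, nd_iff] at h'
      obtain ⟨h1, h2, h3, h4⟩ := h'
      have h1 := Nat.le_of_ble_eq_true h1
      have h2 := Nat.le_of_ble_eq_true h2
      have h3 := Nat.le_of_ble_eq_true h3
      have h5 := ih h4
      cases fl with
      | false =>
        refine JF.expand h1 h2 h3 fun s hs => ?_
        obtain ⟨q, g1, _, g2, g3⟩ := h5 _ (mem_brU hs)
        exact ⟨q, g1, g2, g3⟩
      | true =>
        refine JF.expandF h1 ?_ ?_ ?_
        · intro s hs hs0
          obtain ⟨q, g1, g0, g2, g3⟩ := h5 _ ((mem_brF hs).1 hs0)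
          refine ⟨q, g1, g0 rfl, g2, ?_⟩
          -- the empty part is dropped
          intro L hL
          have g4 := g3 ((q, .free .nil) :: L) (List.Forall₂.cons
            ⟨rfl, fun h => absurd h (by simp), fun _ => ⟨rfl, rfl, rfl⟩⟩ hL)
          rwa [PlF.nil_iff] at g4
        · intro s hs hs0
          obtain ⟨q, g1, _, g2, g3⟩ := h5 _ ((mem_brF hs).2 hs0).1
          exact ⟨q, g1, g2, g3⟩
        · intro s hs hs0
          obtain ⟨q, g1, _, g2, g3⟩ := h5 _ ((mem_brF hs).2 hs0).2
          exact ⟨q, g1, g2, g3⟩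
  | drop c =>
    intro p brs U ss h
    have h' : fB (Nat.shiftLeft 1 x) (fun X =>
      fB (Nat.xor (Nat.lor U X) X) (fun U' => chkJ T lim c 0 0 0 [] U' (unF ss))) = true := h
    rw [fB_eq, fB_eq] at h'
    have e : Nat.shiftLeft 1 x = 2 ^ x := by
      show 1 <<< x = 2 ^ x
      rw [Nat.shiftLeft_eq, one_mul]
    rw [e] at h'
    have h1 := chkJ_ok hT c h'
    rw [unF_eq] at h1
    have hb : ∀ i, ((U ||| 2 ^ x) ^^^ 2 ^ x).testBit i = (U.testBit i && decide (i ≠ x)) := by
      intro i
      rw [Nat.testBit_xor, Nat.testBit_or, Nat.testBit_two_pow]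
      by_cases hi : x = i
      · subst hi
        simp
      · have : ¬ i = x := fun e => hi e.symm
        simp [hi, this]
    refine JF.drop (U' := (U ||| 2 ^ x) ^^^ 2 ^ x) ?_ ?_ h1
    · apply Nat.eq_of_testBit_eq
      intro i
      rw [Nat.testBit_and, hb]
      cases U.testBit i <;> simp
    · rw [hb]
      simp
  | alt q c d ihc ihd =>
    intro p brs U ss h
    cases brs with
    | nil => intro br hbr; exact absurd hbr List.not_mem_nil
    | cons br brs =>
      have h' : nd (Nat.ble (Nat.succ q) 32) (nd (isD (Nat.xor p q))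
        (nd (Bool.rec (motive := fun _ => Bool) true
            (Bool.rec (motive := fun _ => Bool) true false (Nat.beq q x)) br.2.2)
          (nd (Nat.beq (bit U q) 1)
            (nd (fB (Nat.xor U (Nat.shiftLeft 1 q)) (fun U' =>
                chkG T lim x c 0 [] U' (czF q br.1 (czF q br.2.1 ss))))
              (chkG T lim x d p brs U ss))))) = true := h
      rw [nd_iff, nd_iff, nd_iff, nd_iff, nd_iff, fB_eq] at h'
      obtain ⟨h1, h2, h3, h4, h5, h6⟩ := h'
      intro br' hbr
      rcases List.mem_cons.1 hbr with rfl | hbr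
      · refine ⟨q, jadj_of (lt_of_succ_ble h1) h2, ?_, ?_, ?_⟩
        · intro hn
          rw [hn] at h3
          rintro rfl
          rw [show Nat.beq q q = true from Nat.beq_refl q] at h3
          exact absurd h3 (by simp)
        · have h7 : bit U q = 1 := Nat.eq_of_beq_eq_true h4
          rw [bit_eq] at h7
          cases hu : U.testBit q with
          | true => rfl
          | false => rw [hu] at h7; exact absurd h7 (by simp)
        · have e : Nat.xor U (Nat.shiftLeft 1 q) = U ^^^ 2 ^ q := by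
            show U ^^^ (1 <<< q) = U ^^^ 2 ^ q
            rw [Nat.shiftLeft_eq, one_mul]
          rw [e] at h5
          exact czF_ok2 (czF_ok (ihc h5))
      · exact ihd h6 br' hbr
  | e =>
    intro p brs U ss h
    cases brs with
    | nil => intro br hbr; exact absurd hbr List.not_mem_nil
    | cons s brs => exact absurd (show false = true from h) (by simp)

end JT

end Pool.Agent.Work.MP_bf01b2_co.MR
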