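import Pool.Agent.Work.MP_bf01b2_co.MR.PfRed
import Pool.Agent.Work.MP_bf01b2_co.MR.GdO

/-!
# From classes to states with one descending path for every soft position and every tree
-/

set_option autoImplicit false

namespace Pool.Agent.Work.MP_bf01b2_co.MR

namespace Pt

open Tab

/-- **From classes to states.** -/
theorem gdO_of_CF {D N s : ℕ} {v : List ℕ} (hv : v.sum ≤ N)
    (h : ∀ zs : List ℕ, zs.Nodup → (∀ z ∈ zs, z < 32) → zs.length = v.length → CF D zs N) :
    GdO 5 D s v := by
  classical
  intro Ts h1 h2 h3 h4 _ h6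
  have hinj : Function.Injective (encV (m := 5)) := fun a b hab => by
    rw [← dec_enc a, hab, dec_enc]
  let zs : List ℕ := Ts.map fun T => encV T.pos
  let k : ℕ → ℕ := fun z => match Ts.find? (fun T => encV T.pos = z) with
    | some T => T.size - 1
    | none => 0
  have hzs : zs = (Ts.map LRT.pos).map encV := by
    simp only [zs, List.map_map]
    rfl
  have hznd : zs.Nodup := by
    rw [hzs]
    exact h1.map hinj
  have hk : ∀ T ∈ Ts, k (encV T.pos) + 1 = T.size := by
    intro T hT
    have h7 : ∃ U, Ts.find? (fun U => decide (encV U.pos = encV T.pos)) = some U := by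
      cases hf : Ts.find? (fun U => decide (encV U.pos = encV T.pos)) with
      | none =>
        rw [List.find?_eq_none] at hf
        exact absurd (hf T hT) (by simp)
      | some U => exact ⟨U, rfl⟩
    obtain ⟨U, hU⟩ := h7
    have h8 : U.pos = T.pos := hinj (by simpa using List.find?_some hU)
    have h9 : U = T := List.inj_on_of_nodup_map h1 (List.mem_of_find?_eq_some hU) hT h8
    show (match Ts.find? (fun U => decide (encV U.pos = encV T.pos)) with
      | some T => T.size - 1
      | none => 0) + 1 = T.size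
    rw [hU, h9]
    show T.size - 1 + 1 = T.size
    have : T.size = T.l.size + T.r.size + 1 := rfl
    omega
  have hsum : (zs.map fun z => k z + 1).sum ≤ N := by
    refine le_trans ?_ hv
    have e : zs.map (fun z => k z + 1) = Ts.map LRT.size := by
      simp only [zs, List.map_map]
      exact List.map_congr_left fun T hT => hk T hT
    rw [e]
    exact sum_size_le h3
  have hlen : zs.length = v.length := by
    simp only [zs, List.length_map]
    exact h3.length_eq
  let R : Finset ℕ := (softs Ts \ poss Ts).image encV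
  have hR : R.card ≤ D := Finset.card_image_le.trans h4
  have hz32 : ∀ z ∈ zs, z < 32 := by
    intro z hz
    obtain ⟨T, _, rfl⟩ := List.mem_map.1 hz
    exact encV_lt T.pos
  have hR32 : ∀ x ∈ R, x < 32 := by
    intro x hx
    obtain ⟨y, _, rfl⟩ := Finset.mem_image.1 hx
    exact encV_lt y
  have hF := h zs hznd hz32 hlen k hsum R hR
  have hF2 := PF.mapOn (decV 5) encV (adj' := cadj 5) (fun a b => cadj_dec) {x | x < 32}
    (fun x hx => enc_dec (m := 5) hx) (X := msk FULL) (fun x hx => FULL_tb.1 hx)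
    (ms := mkP k (R : Set ℕ) zs) (by
      intro m hm
      obtain ⟨g1, g2⟩ := mem_mkP.1 hm
      refine ⟨hz32 _ g1, ?_⟩
      rw [g2]
      intro x hx
      exact hR32 x hx) hF
  have hmem : ∀ T ∈ Ts, (⟨T.pos, k (encV T.pos), decV 5 '' (R : Set ℕ)⟩ : PM (Fin 5 → Bool)) ∈
      (mkP k (R : Set ℕ) zs).map (PM.mapF (decV 5)) := by
    intro T hT
    refine List.mem_map.2 ⟨⟨encV T.pos, k (encV T.pos), R⟩, mem_mkP.2
      ⟨List.mem_map_of_mem hT, rfl⟩, ?_⟩
    simp only [PM.mapF, dec_enc]
  refine PF.toEmb hF2 h1 h2 ?_ ?_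
  · intro T hT
    exact ⟨_, hmem T hT, rfl⟩
  · intro m hm
    obtain ⟨m', hm', rfl⟩ := List.mem_map.1 hm
    obtain ⟨g1, g2⟩ := mem_mkP.1 hm'
    obtain ⟨T, hT, e⟩ := List.mem_map.1 g1
    refine ⟨T, hT, ?_, ?_, ?_, ?_⟩
    · show T.pos = decV 5 m'.p
      rw [← e, dec_enc]
    · show T.size ≤ m'.k + 1
      have e2 : m'.k = k m'.p := congrArg PM.k g2
      rw [e2, ← e]
      exact (hk T hT).ge
    · intro F hF x hx _
      by_cases hxp : x ∈ poss Ts
      · right
        obtain ⟨U, hU, rfl⟩ := mem_poss.1 hxp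
        exact ⟨_, hmem U hU, rfl⟩
      · left
        have e2 : m'.R = (R : Set ℕ) := congrArg PM.R g2
        show x ∈ decV 5 '' m'.R
        rw [e2]
        refine ⟨encV x, ?_, dec_enc x⟩
        have : encV x ∈ R := Finset.mem_image_of_mem _
          (Finset.mem_sdiff.2 ⟨mem_softs.2 ⟨T, hT, F, hF, hx⟩, hxp⟩)
        exact this
    · intro x _ hx
      refine h6 T hT x fun hxp => hx ?_
      obtain ⟨U, hU, rfl⟩ := mem_poss.1 hxp
      exact ⟨_, hmem U hU, rfl⟩

/-- One root. -/
theorem gdO_one {D N s n : ℕ} (h : CF D [0] N) (hn : n ≤ N) : GdO 5 D s [n] := by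
  refine gdO_of_CF (N := N) (by simpa using hn) ?_
  intro zs hnd hz hl
  match zs, hl with
  | [p], _ =>
    exact CP.to_list ((CP.cl D N).one (CP.of_list (by simp) (by simp) h) (hz p (by simp))) hnd hz

/-- Two roots. -/
theorem gdO_two {D N s : ℕ} {v : List ℕ} (h : ∀ b, 0 < b → b < 32 → CP D (maskL [0, b]) N)
    (hl : v.length = 2) (hv : v.sum ≤ N) : GdO 5 D s v := by
  refine gdO_of_CF hv ?_
  intro zs hnd hz hl'
  rw [hl] at hl'
  match zs, hl' with
  | [p, q], _ =>
    refine CP.to_list ((CP.cl D N).pair h (hz p (by simp)) (hz q (by simp)) ?_) hnd hz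
    simp only [List.nodup_cons, List.mem_cons, List.not_mem_nil, or_false] at hnd
    exact fun e => hnd.1 e.symm

/-- Three roots. -/
theorem gdO_three {D N s : ℕ} {v : List ℕ}
    (h : ∀ b c, 0 < b → b < c → c < 32 → CP D (maskL [0, b, c]) N)
    (hl : v.length = 3) (hv : v.sum ≤ N) : GdO 5 D s v := by
  refine gdO_of_CF hv ?_
  intro zs hnd hz hl'
  rw [hl] at hl'
  match zs, hl' with
  | [p, q, r], _ =>
    simp only [List.nodup_cons, List.mem_cons, List.not_mem_nil, or_false, not_or] at hnd
    refine CP.to_list ((CP.cl D N).triple h (hz p (by simp)) (hz q (by simp)) (hz r (by simp))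
      (fun e => hnd.1.1 e.symm) (fun e => hnd.1.2 e.symm) hnd.2.1) (by
        simp only [List.nodup_cons, List.mem_cons, List.not_mem_nil, or_false, not_or]
        exact hnd) hz

/-- Four roots. -/
theorem gdO_four {D N s : ℕ} {v : List ℕ}
    (h : ∀ b c d, 0 < b → b < c → c < d → d < 32 → CP D (maskL [0, b, c, d]) N)
    (hl : v.length = 4) (hv : v.sum ≤ N) : GdO 5 D s v := by
  refine gdO_of_CF hv ?_
  intro zs hnd hz hl'
  rw [hl] at hl'
  match zs, hl' with
  | [p, q, r, t], _ =>
    simp only [List.nodup_cons, List.mem_cons, List.not_mem_nil, or_false, not_or] at hnd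
    refine CP.to_list ((CP.cl D N).quad h (hz p (by simp)) (hz q (by simp)) (hz r (by simp))
      (hz t (by simp)) (fun e => hnd.1.1 e.symm) (fun e => hnd.1.2.1 e.symm)
      (fun e => hnd.1.2.2 e.symm) hnd.2.1.1 hnd.2.1.2 hnd.2.2.1) (by
        simp only [List.nodup_cons, List.mem_cons, List.not_mem_nil, or_false, not_or]
        exact hnd) hz

end Pt

end Pool.Agent.Work.MP_bf01b2_co.MR
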