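import Pool.Agent.Work.MP_bf01b2_co.MR.JF
import Pool.Agent.Work.MP_bf01b2_co.MR.PfO

/-!
# Class aware calculus on `Q_5`: one root and one soft position

`pf24`: the facts `JF x` for all sizes of the classes with sum 24 give the fact for labelled trees
with 24 vertices, root `0` and soft position `x`.
-/

set_option autoImplicit false

namespace Pool.Agent.Work.MP_bf01b2_co.MR

namespace JT

open Tab

section conv

variable {V : Type*} [DecidableEq V] {adj : V → V → Prop}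

/-- a labelled tree as a tree with a path -/
theorem conv (adj : V → V → Prop) (x : V) : ∀ t : LT V, t.onp x → ∃ f : FT, f.WF ∧
    f.bt.A + f.bt.B = t.size ∧ ∀ (v : V) (S : Finset V), FS adj x f v S →
      (∀ F, t = .hole F → x ∈ F → v ≠ x) →
        ∃ q, Slot adj t.shape v S q ∧ List.Forall₂ (fun F y => x ∈ F → y ≠ x) t.labs q
  | .nil, _ => ⟨.free .nil, rfl, rfl, fun v S h _ => ⟨[], ⟨h, rfl⟩, List.Forall₂.nil⟩⟩
  | .hole F, _ => ⟨.free .nil, rfl, rfl, fun v S h h1 => ⟨[v], ⟨h, rfl⟩,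
      List.Forall₂.cons (h1 F rfl) List.Forall₂.nil⟩⟩
  | .node l r, h => by
    obtain ⟨fl, hl1, hl2, hl3⟩ := conv adj x l (LT.onp_left h)
    obtain ⟨fr, hr1, hr2, hr3⟩ := conv adj x r (LT.onp_right h)
    have hne : ∀ (f : FT) (n : ℕ), f.bt.A + f.bt.B = n → n ≠ 0 → f.bt ≠ .nil := by
      rintro f n h1 h2 h3
      rw [h3, BT.A_nil, BT.B_nil] at h1
      omega
    have hbt : ∀ t : LT V, (JT.bt t.shape).A + (JT.bt t.shape).B = t.size := fun t => bt_size t.shape
    have hbn : ∀ t : LT V, t.size ≠ 0 → JT.bt t.shape ≠ .nil := by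
      intro t h1 h2
      have h3 := hbt t
      rw [h2, BT.A_nil, BT.B_nil] at h3
      omega
    have hnh : ∀ t : LT V, t.size ≠ 0 → ∀ F, t ≠ .hole F := by
      rintro t h1 F rfl
      exact h1 rfl
    have hcl : ∀ t : LT V, t.size ≠ 0 → t.clr x → ∀ F ∈ t.labs, x ∉ F := by
      rintro t h1 (⟨F, h2⟩ | h2)
      · exact absurd h2 (hnh t h1 F)
      · exact h2
    have h0 : ∀ (t : LT V) (y : V), t.size = 0 → y ≠ x → ∃ q, Slot adj t.shape y ∅ q ∧
        List.Forall₂ (fun F y => x ∈ F → y ≠ x) t.labs q := by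
      intro t y ht hy
      cases t with
      | nil => exact ⟨[], ⟨rfl, rfl⟩, List.Forall₂.nil⟩
      | hole F => exact ⟨[y], ⟨rfl, rfl⟩, List.Forall₂.cons (fun _ => hy) List.Forall₂.nil⟩
      | node l r => simp at ht
    by_cases hls : l.size = 0
    · refine ⟨.one fr, hr1, ?_, ?_⟩
      · show (BT.node fr.bt .nil).A + (BT.node fr.bt .nil).B = l.size + r.size + 1
        rw [BT.A_node, BT.B_node, BT.A_nil, BT.B_nil]
        omega
      · intro v S hS _
        obtain ⟨y, hy, hyx, A, hA, h1, rfl⟩ := hS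
        obtain ⟨qr, g1, g2⟩ := hr3 y A hA (fun _ _ _ => hyx)
        obtain ⟨ql, g3, g4⟩ := h0 l y hls hyx
        refine ⟨ql ++ qr, ⟨y, hy, ∅, A, ql, qr, g3, g1, by simp, h1, by simp, by simp, rfl⟩, ?_⟩
        exact forall₂_append' g4 g2
    by_cases hrs : r.size = 0
    · refine ⟨.one fl, hl1, ?_, ?_⟩
      · show (BT.node fl.bt .nil).A + (BT.node fl.bt .nil).B = l.size + r.size + 1
        rw [BT.A_node, BT.B_node, BT.A_nil, BT.B_nil]
        omega
      · intro v S hS _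
        obtain ⟨y, hy, hyx, A, hA, h1, rfl⟩ := hS
        obtain ⟨ql, g1, g2⟩ := hl3 y A hA (fun _ _ _ => hyx)
        obtain ⟨qr, g3, g4⟩ := h0 r y hrs hyx
        refine ⟨ql ++ qr, ⟨y, hy, A, ∅, ql, qr, g1, g3, h1, by simp, by simp, by simp, rfl⟩, ?_⟩
        exact forall₂_append' g2 g4
    have hlab : ∀ (t : LT V) (y : V) (B : Finset V) (q : List V), Slot adj t.shape y B q →
        (∀ F ∈ t.labs, x ∉ F) → List.Forall₂ (fun F y => x ∈ F → y ≠ x) t.labs q := by
      intro t y B q h1 h2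
      refine forall₂_of_all (by rw [LT.labs_length, (slot_length h1).1]) ?_
      intro F hF z _ hxF
      exact absurd hxF (h2 F hF)
    rcases h with ⟨hc, _⟩ | ⟨hc, _⟩
    · refine ⟨.bl fr (JT.bt l.shape), ⟨hr1, hne fr _ hr2 hrs, hbn l hls⟩, ?_, ?_⟩
      · show (BT.node fr.bt (JT.bt l.shape)).A + (BT.node fr.bt (JT.bt l.shape)).B =
          l.size + r.size + 1
        rw [BT.A_node, BT.B_node]
        have := hbt l
        omega
      · intro v S hS _
        obtain ⟨y, hy, A, B, hA, hB, h1, h2, h3, rfl⟩ := hS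
        obtain ⟨qr, g1, g2⟩ := hr3 y A hA (fun F hF => absurd hF (hnh r hrs F))
        obtain ⟨ql, g3⟩ := BS.slot hB
        refine ⟨ql ++ qr, ⟨y, hy, B, A, ql, qr, g3, g1, h2, h1, h3.symm, ?_, rfl⟩, ?_⟩
        · rw [Finset.union_comm]
        · exact forall₂_append' (hlab l y B ql g3 (hcl l hls hc)) g2
    · refine ⟨.bl fl (JT.bt r.shape), ⟨hl1, hne fl _ hl2 hls, hbn r hrs⟩, ?_, ?_⟩
      · show (BT.node fl.bt (JT.bt r.shape)).A + (BT.node fl.bt (JT.bt r.shape)).B =
          l.size + r.size + 1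
        rw [BT.A_node, BT.B_node]
        have := hbt r
        omega
      · intro v S hS _
        obtain ⟨y, hy, A, B, hA, hB, h1, h2, h3, rfl⟩ := hS
        obtain ⟨ql, g1, g2⟩ := hl3 y A hA (fun F hF => absurd hF (hnh l hls F))
        obtain ⟨qr, g3⟩ := BS.slot hB
        refine ⟨ql ++ qr, ⟨y, hy, A, B, ql, qr, g1, g3, h1, h2, h3, rfl, rfl⟩, ?_⟩
        exact forall₂_append' g2 (hlab r y B qr g3 (hcl r hrs hc))

end conv

/-- trees with a path can be extended -/
theorem FT.growTo (adj : ℕ → ℕ → Prop) (x : ℕ) (n : ℕ) : ∀ (d : ℕ) (f : FT), f.WF →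
    f.bt.A + f.bt.B + d = n → ∃ g : FT, g.WF ∧ g.bt.A + g.bt.B = n ∧
      ∀ (v : ℕ) (S : Finset ℕ), FS adj x g v S → ∃ S' ⊆ S, FS adj x f v S'
  | 0, f, hw, h => ⟨f, hw, by omega, fun v S hS => ⟨S, Finset.Subset.refl _, hS⟩⟩
  | d + 1, f, hw, h => by
    obtain ⟨g, h1, h2, h3⟩ := FT.growTo adj x n d f.grow (FT.grow_wf f hw)
      (by rw [FT.grow_size f hw]; omega)
    refine ⟨g, h1, h2, fun v S hS => ?_⟩
    obtain ⟨S', h4, h5⟩ := h3 v S hS
    obtain ⟨S'', h6, h7⟩ := FS.of_grow hw h5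
    exact ⟨S'', h6.trans h4, h7⟩

theorem Slot.real : ∀ {t : HT} {v : ℕ} {S : Finset ℕ} {q : List ℕ}, v < 32 → (∀ u ∈ S, u < 32) →
    Slot jadj t v S q → Slot (ncadj 5) t v S q
  | .nil, _, _, _, _, _, h => h
  | .hole, _, _, _, _, _, h => h
  | .node _ _, v, _, _, hv, hS, h => by
    obtain ⟨x, hx, A, B, pa, pb, hA, hB, h1, h2, h3, rfl, rfl⟩ := h
    have hx' : x < 32 := hS x (Finset.mem_insert_self _ _)
    refine ⟨x, jadj_real hv hx, A, B, pa, pb, Slot.real hx' (fun u hu => hS u ?_) hA,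
      Slot.real hx' (fun u hu => hS u ?_) hB, h1, h2, h3, rfl, rfl⟩
    · exact Finset.mem_insert_of_mem (Finset.mem_union_left _ hu)
    · exact Finset.mem_insert_of_mem (Finset.mem_union_right _ hu)

/-- the parents of the holes of a slot avoid the labels -/
theorem slot_avx {t : LT ℕ} {p x : ℕ} {S : Finset ℕ} {q : List ℕ}
    (h : Slot jadj t.shape p S q) (h1 : ∀ F, t = .hole F → p ∉ F)
    (hx : List.Forall₂ (fun F y => x ∈ F → y ≠ x) t.labs q)
    (h2 : ∀ F ∈ t.labs, ∀ v ∈ S, v ∈ F → v = x) :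
    List.Forall₂ (fun F y => y ∉ F) t.labs q := by
  by_cases ht : ∃ F, t = .hole F
  · obtain ⟨F, rfl⟩ := ht
    obtain ⟨rfl, rfl⟩ := h
    exact List.Forall₂.cons (h1 F rfl) List.Forall₂.nil
  · have key : List.Forall₂ (fun F y => F ∈ t.labs ∧ y ∈ q) t.labs q := by
      refine forall₂_of_all (by rw [LT.labs_length, (slot_length h).1]) ?_
      exact fun F hF y hy => ⟨hF, hy⟩
    have h3 : ∀ {l : List (Finset ℕ)} {q' : List ℕ},
        List.Forall₂ (fun F y => x ∈ F → y ≠ x) l q' →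
        List.Forall₂ (fun F y => F ∈ t.labs ∧ y ∈ q) l q' →
        List.Forall₂ (fun F y => y ∉ F) l q' := by
      intro l q' g
      induction g with
      | nil => intro _; exact List.Forall₂.nil
      | cons a _ ih =>
        intro g'
        cases g' with
        | cons b g' =>
          refine List.Forall₂.cons (fun hyF => ?_) (ih g')
          rcases slot_mem h _ b.2 with ⟨_, h4⟩ | h4
          · apply ht
            cases t with
            | nil => simp [LT.shape] at h4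
            | hole F => exact ⟨F, rfl⟩
            | node l r => simp [LT.shape] at h4
          · have h5 := h2 _ b.1 _ h4 hyF
            subst h5
            exact a hyF rfl
    exact h3 hx key

/-- **One root, one soft position.** -/
theorem pf24 {x : ℕ} (hx0 : x ≠ 0) (hx : x < 32)
    (h : ∀ a, 8 ≤ a → a ≤ 16 → JF x (2 ^ 32 - 1) [(true, 32, a, 24 - a)]) (R : Set ℕ)
    (hR : ∀ y ∈ R, y = x) : PF (ncadj 5) (msk FULL) [⟨0, 23, R⟩] := by
  intro τ hτ
  obtain ⟨h1, h2, h3, h4, h5⟩ := hτ ⟨0, 23, R⟩ (by simp)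
  rw [rts_single] at h2 h3
  have h1 : (τ 0).1.size + (τ 0).2.size ≤ 23 := h1
  have h2 : ∀ F ∈ (τ 0).1.labs ++ (τ 0).2.labs, ∀ y ∈ F, y ∈ msk FULL → y ∈ R ∨ y ∈ ({0} : Set ℕ) :=
    h2
  have h3 : ∀ y ∈ msk FULL, y ∉ ({0} : Set ℕ) → (LT.node (τ 0).1 (τ 0).2).onp y := h3
  have h4 : ∀ F, (τ 0).1 = .hole F → 0 ∉ F := h4
  have h5 : ∀ F, (τ 0).2 = .hole F → 0 ∉ F := h5
  obtain ⟨f, hf1, hf2, hf3⟩ := conv jadj x (LT.node (τ 0).1 (τ 0).2)
    (h3 x (Pt.FULL_tb.2 hx) (fun e => hx0 (by simpa using e)))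
  have hf2 : f.bt.A + f.bt.B = (τ 0).1.size + (τ 0).2.size + 1 := hf2
  obtain ⟨g, hg1, hg2, hg3⟩ := FT.growTo jadj x 24 (24 - (f.bt.A + f.bt.B)) f hf1 (by omega)
  have hv : 1 ≤ g.bt.A ∧ g.bt.A ≤ 2 * g.bt.B + 1 ∧ g.bt.B ≤ 2 * g.bt.A := by
    rcases BT.valid g.bt with e | e
    · omega
    · exact e.2
  obtain ⟨S, hS, hfs, _⟩ := h g.bt.A (by omega) (by omega) [(32, g)]
    (List.Forall₂.cons ⟨rfl, fun e => absurd e (by simp), fun _ => ⟨hg1, rfl,
      show g.bt.B = 24 - g.bt.A by omega⟩⟩ List.Forall₂.nil)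
  obtain ⟨S', hS', hfs'⟩ := hg3 32 S hfs
  obtain ⟨q, hq1, hq2⟩ := hf3 32 S' hfs' (fun F hF => by simp at hF)
  have hlt : ∀ v ∈ S', v < 32 := by
    intro v hv
    by_contra hc
    push Not at hc
    have h6 : (2 ^ 32 - 1).testBit v = true := hS v (hS' hv)
    rw [testBit_ge (by norm_num) hc] at h6
    exact absurd h6 (by simp)
  obtain ⟨z, hz, A, B, pa, pb, hA, hB, g1, g2, g3, e1, e2⟩ := hq1
  have hz32 : z < 32 := hlt z (by rw [e1]; exact Finset.mem_insert_self _ _)
  have hz0 : z = 0 := jadj_virt (r := 0) (by norm_num) hz32 hz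
  subst hz0
  have hA32 : ∀ v ∈ A, v < 32 := fun v hv => hlt v (by
    rw [e1]; exact Finset.mem_insert_of_mem (Finset.mem_union_left _ hv))
  have hB32 : ∀ v ∈ B, v < 32 := fun v hv => hlt v (by
    rw [e1]; exact Finset.mem_insert_of_mem (Finset.mem_union_right _ hv))
  have hsplit : List.Forall₂ (fun F y => x ∈ F → y ≠ x) (τ 0).1.labs pa ∧
      List.Forall₂ (fun F y => x ∈ F → y ≠ x) (τ 0).2.labs pb := by
    rw [e2] at hq2
    exact (forall₂_append_iff (by rw [LT.labs_length, (slot_length hA).1])).1 hq2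
  have hlab : ∀ F ∈ (τ 0).1.labs ++ (τ 0).2.labs, ∀ v ∈ A ∪ B, v ∈ F → v = x := by
    intro F hF v hv hvF
    have hv0 : v ≠ 0 := by
      rintro rfl
      rcases Finset.mem_union.1 hv with hv | hv
      · exact g1 hv
      · exact g2 hv
    have hvX : v ∈ msk FULL := Pt.FULL_tb.2 (by
      rcases Finset.mem_union.1 hv with hv | hv
      · exact hA32 v hv
      · exact hB32 v hv)
    rcases h2 F hF v hvF hvX with h6 | h6
    · exact hR v h6
    · exact absurd h6 hv0
  refine ⟨fun _ => insert 0 (A ∪ B), fun _ => pa ++ pb, ?_, ?_⟩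
  · intro m hm
    rw [List.mem_singleton] at hm
    subst hm
    refine ⟨⟨⟨A, B, pa, pb, Slot.real (by norm_num) hA32 hA, Slot.real (by norm_num) hB32 hB,
      g1, g2, g3, rfl, rfl⟩, ?_⟩, ?_⟩
    · refine forall₂_append' ?_ ?_
      · exact slot_avx hA h4 hsplit.1 fun F hF v hv hvF =>
          hlab F (List.mem_append_left _ hF) v (Finset.mem_union_left _ hv) hvF
      · exact slot_avx hB h5 hsplit.2 fun F hF v hv hvF =>
          hlab F (List.mem_append_right _ hF) v (Finset.mem_union_right _ hv) hvF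
    · intro v hv
      refine Pt.FULL_tb.2 ?_
      rcases Finset.mem_insert.1 hv with rfl | hv
      · norm_num
      · rcases Finset.mem_union.1 hv with hv | hv
        · exact hA32 v hv
        · exact hB32 v hv
  · intro m hm m' hm' hne
    rw [List.mem_singleton] at hm hm'
    subst hm hm'
    exact absurd rfl hne

end JT

end Pool.Agent.Work.MP_bf01b2_co.MR
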