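import Pool.Agent.Work.MP_bf01b2_co.MR.K2T

/-!
# Two roots in `Q_5`: certificates of the entries 0 to 1299
-/

set_option autoImplicit false
set_option maxRecDepth 100000

namespace Pool.Agent.Work.MP_bf01b2_co.MR

namespace K2

open JT

/-- certificates of the entries 0 to 1299 -/
def c0 : List Rc :=
  [.nil,
   .one (nat_lit 1048576) .nil,
   .two (nat_lit 1048576) (nat_lit 2097152) .nil,
   .one (nat_lit 34603009) .nil,
   .two (nat_lit 1048576) (nat_lit 2097153) .nil,
   .two (nat_lit 4194304) (nat_lit 34603009) .nil,
   .two (nat_lit 1048576) (nat_lit 2097153) (.one (nat_lit 34603011) .nil),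
   .one (nat_lit 705691650) .nil,
   .two (nat_lit 1048576) (nat_lit 2097153) (.one (nat_lit 34603013) .nil),
   .two (nat_lit 8388608) (nat_lit 16777217) (.one (nat_lit 16777219) .nil),
   .two (nat_lit 4194304) (nat_lit 9781116929) (.one (nat_lit 10385096707) .nil),
   .two (nat_lit 1048576) (nat_lit 169869315) (.one (nat_lit 34603015) .nil),
   .two (nat_lit 8388608) (nat_lit 705691652) .nil,
   .two (nat_lit 4194304) (nat_lit 11543773189) .nil,
   .two (nat_lit 8388608) (nat_lit 83886085) .nil,
   .two (nat_lit 2097153) (nat_lit 605028353) (.two (nat_lit 2097152) (nat_lit 705691652) (.one (nat_lit 705691656) .nil)),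
   .two (nat_lit 4194305) (nat_lit 34603009) (.two (nat_lit 1048576) (nat_lit 4194306) (.one (nat_lit 28690087946) .nil)),
   .two (nat_lit 2097153) (nat_lit 9765388289) (.two (nat_lit 1048576) (nat_lit 169869314) (.one (nat_lit 2987393033) .nil)),
   .two (nat_lit 4194304) (nat_lit 34603015) .nil,
   .two (nat_lit 1048576) (nat_lit 639631367) .nil,
   .two (nat_lit 2097152) (nat_lit 10335813639) .nil,
   .two (nat_lit 1048576) (nat_lit 47548727303) .nil,
   .two (nat_lit 1048576) (nat_lit 1753219079) .nil,
   .two (nat_lit 2097153) (nat_lit 9765388289) (.two (nat_lit 1048576) (nat_lit 2954887173) (.one (nat_lit 806354957) .nil)),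
   .two (nat_lit 2097153) (nat_lit 9765388289) (.two (nat_lit 2097152) (nat_lit 11543773189) (.one (nat_lit 11543773197) .nil)),
   .two (nat_lit 2097153) (nat_lit 156364701697) (.two (nat_lit 1048576) (nat_lit 203423749) (.one (nat_lit 166229704718) .nil)),
   .two (nat_lit 2097153) (nat_lit 156364701697) (.two (nat_lit 2097152) (nat_lit 12114198533) (.one (nat_lit 47581233166) .nil)),
   .two (nat_lit 41943041) (nat_lit 50331649) (.two (nat_lit 16777216) (nat_lit 12054429701) (.one (nat_lit 174692761609) .nil)),
   .two (nat_lit 41943041) (nat_lit 156365750273) (.two (nat_lit 8388608) (nat_lit 174753579013) (.one (nat_lit 69206025) .nil)),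
   .two (nat_lit 8388609) (nat_lit 16777217) (.two (nat_lit 16777216) (nat_lit 176160772) (.one (nat_lit 176160774) .nil)),
   .two (nat_lit 2097153) (nat_lit 50331649) (.two (nat_lit 16777216) (nat_lit 169869316) (.one (nat_lit 169869318) .nil)),
   .two (nat_lit 34603009) (nat_lit 9781116929) (.two (nat_lit 16777216) (nat_lit 705691652) (.one (nat_lit 705691654) .nil)),
   .two (nat_lit 34603009) (nat_lit 9766436865) (.two (nat_lit 1048576) (nat_lit 166130089989) (.one (nat_lit 11611930634) .nil)),
   .two (nat_lit 8388609) (nat_lit 156364701697) (.two (nat_lit 8388608) (nat_lit 19596836869) (.one (nat_lit 705691657) .nil)),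
   .two (nat_lit 2097153) (nat_lit 4194308) (.one (nat_lit 606076943) .nil),
   .two (nat_lit 34603009) (nat_lit 4194308) (.two (nat_lit 1048576) (nat_lit 4194310) (.one (nat_lit 68157455) .nil)),
   .two (nat_lit 2097153) (nat_lit 605028355) (.two (nat_lit 2097152) (nat_lit 68157448) (.one (nat_lit 34603024) .nil)),
   .two (nat_lit 16777217) (nat_lit 705691651) (.two (nat_lit 16777216) (nat_lit 12047089672) (.one (nat_lit 183845781521) .nil)),
   .two (nat_lit 169869314) (nat_lit 1276116994) (.one (nat_lit 9934209043) .nil),
   .two (nat_lit 169869314) (nat_lit 11492392962) (.one (nat_lit 654311446) .nil),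
   .two (nat_lit 37748737) (nat_lit 739246088) .nil,
   .two (nat_lit 34603009) (nat_lit 612368385) (.two (nat_lit 8388608) (nat_lit 11543773192) .nil),
   .two (nat_lit 41943041) (nat_lit 9781116929) (.two (nat_lit 16777216) (nat_lit 13195280397) .nil),
   .two (nat_lit 2097153) (nat_lit 9781116929) (.two (nat_lit 16777216) (nat_lit 2954887176) .nil),
   .two (nat_lit 16777217) (nat_lit 8388616) .nil,
   .two (nat_lit 16777217) (nat_lit 12117344264) .nil,
   .two (nat_lit 37748737) (nat_lit 9766436865) (.two (nat_lit 4194304) (nat_lit 156533522444) .nil),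
   .two (nat_lit 2097153) (nat_lit 158143086600) .nil,
   .two (nat_lit 8388609) (nat_lit 9781116929) (.two (nat_lit 16777216) (nat_lit 158183981070) .nil),
   .two (nat_lit 8388609) (nat_lit 10336862216) .nil,
   .two (nat_lit 605028353) (nat_lit 9781116929) (.two (nat_lit 16777216) (nat_lit 13187940366) .nil),
   .two (nat_lit 4194305) (nat_lit 156372041729) (.two (nat_lit 8388608) (nat_lit 2889875461) (.one (nat_lit 10439622665) .nil)),
   .two (nat_lit 605028353) (nat_lit 606076929) (.two (nat_lit 2097152) (nat_lit 10939793413) (.one (nat_lit 1175453705) .nil)),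
   .two (nat_lit 16777217) (nat_lit 41943041) (.two (nat_lit 8388608) (nat_lit 721420293) (.one (nat_lit 158158815241) .nil)),
   .two (nat_lit 2097153) (nat_lit 156372041729) (.two (nat_lit 8388608) (nat_lit 20638072837) (.one (nat_lit 156969730057) .nil)),
   .two (nat_lit 8388609) (nat_lit 156367847425) (.two (nat_lit 4194304) (nat_lit 4605345797) (.one (nat_lit 20711473162) .nil)),
   .two (nat_lit 16777217) (nat_lit 612368385) (.two (nat_lit 8388608) (nat_lit 83886085) (.one (nat_lit 184431935497) .nil)),
   .two (nat_lit 16777217) (nat_lit 41943041) (.two (nat_lit 8388608) (nat_lit 721420293) (.one (nat_lit 19042140170) .nil)),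
   .two (nat_lit 50331649) (nat_lit 605028353) (.two (nat_lit 16777216) (nat_lit 1343225861) (.one (nat_lit 46977253386) .nil)),
   .two (nat_lit 37748737) (nat_lit 50331649) (.two (nat_lit 4194304) (nat_lit 1795162117) (.one (nat_lit 159232557065) .nil)),
   .two (nat_lit 34603009) (nat_lit 612368385) (.two (nat_lit 8388608) (nat_lit 28086108165) (.one (nat_lit 9933160457) .nil)),
   .two (nat_lit 9766436865) (nat_lit 9768534017) (.two (nat_lit 4194304) (nat_lit 174753579013) (.one (nat_lit 270532618) .nil)),
   .two (nat_lit 605028353) (nat_lit 606076929) (.two (nat_lit 2097152) (nat_lit 1846542341) (.one (nat_lit 156364701705) .nil)),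
   .two (nat_lit 2097153) (nat_lit 156367847425) (.two (nat_lit 4194304) (nat_lit 10370416645) (.one (nat_lit 183846830090) .nil)),
   .two (nat_lit 2097153) (nat_lit 4194312) (.one (nat_lit 705691663) .nil),
   .two (nat_lit 605028353) (nat_lit 169869316) (.two (nat_lit 8388608) (nat_lit 705691663) .nil),
   .two (nat_lit 605028353) (nat_lit 2954887176) (.one (nat_lit 705691663) .nil),
   .two (nat_lit 37748737) (nat_lit 11543773192) (.one (nat_lit 68157455) .nil),
   .two (nat_lit 605028353) (nat_lit 2969567237) (.one (nat_lit 21207449611) .nil),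
   .two (nat_lit 8388609) (nat_lit 169869316) (.two (nat_lit 8388608) (nat_lit 2954887176) (.one (nat_lit 156365750300) .nil)),
   .two (nat_lit 41943041) (nat_lit 19530776579) (.two (nat_lit 8388608) (nat_lit 166130089992) (.one (nat_lit 166130089999) .nil)),
   .two (nat_lit 37748737) (nat_lit 165526110213) (.one (nat_lit 20638072843) .nil),
   .two (nat_lit 41943041) (nat_lit 1916796933) (.two (nat_lit 16777216) (nat_lit 1950351372) (.one (nat_lit 608174109) .nil)),
   .two (nat_lit 9768534017) (nat_lit 2902458372) (.one (nat_lit 218103819) .nil),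
   .two (nat_lit 612368385) (nat_lit 1191182339) (.two (nat_lit 16777216) (nat_lit 209715210) (.one (nat_lit 4638900251) .nil)),
   .two (nat_lit 4194305) (nat_lit 159217876997) (.two (nat_lit 2097152) (nat_lit 4194310) (.one (nat_lit 606076959) .nil)),
   .two (nat_lit 2097153) (nat_lit 166129041412) (.one (nat_lit 166129041419) .nil),
   .two (nat_lit 156367847425) (nat_lit 165526110213) (.one (nat_lit 46407876627) .nil),
   .two (nat_lit 34603009) (nat_lit 2889875460) (.one (nat_lit 13187940374) .nil),
   .two (nat_lit 4194305) (nat_lit 11543773189) (.one (nat_lit 184986632203) .nil),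
   .two (nat_lit 16777217) (nat_lit 705691652) (.one (nat_lit 11543773195) .nil),
   .two (nat_lit 9765388289) (nat_lit 713031684) (.one (nat_lit 713031691) .nil),
   .two (nat_lit 4194305) (nat_lit 16777220) (.one (nat_lit 285212683) .nil),
   .two (nat_lit 9781116929) (nat_lit 19532873731) (.two (nat_lit 4194304) (nat_lit 1291845638) (.one (nat_lit 1291845658) .nil)),
   .two (nat_lit 37748737) (nat_lit 10370416643) (.two (nat_lit 4194304) (nat_lit 1277165574) (.one (nat_lit 20705181720) .nil)),
   .two (nat_lit 9765388289) (nat_lit 9768534021) (.one (nat_lit 11580473366) .nil),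
   .two (nat_lit 9765388289) (nat_lit 721420292) (.one (nat_lit 721420299) .nil),
   .two (nat_lit 8388609) (nat_lit 2969567237) (.two (nat_lit 8388608) (nat_lit 11006902285) (.one (nat_lit 873463835) .nil)),
   .two (nat_lit 16777217) (nat_lit 1175453699) (.two (nat_lit 16777216) (nat_lit 1947205644) (.one (nat_lit 101711903) .nil)),
   .two (nat_lit 50331649) (nat_lit 176160772) (.one (nat_lit 176160779) .nil),
   .two (nat_lit 620756993) (nat_lit 28757196805) (.two (nat_lit 1048576) (nat_lit 184549382) (.one (nat_lit 1410334749) .nil)),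
   .two (nat_lit 34603009) (nat_lit 1291845636) (.one (nat_lit 158158815243) .nil),
   .two (nat_lit 16777217) (nat_lit 176160772) (.one (nat_lit 2961178635) .nil),
   .two (nat_lit 4194308) (nat_lit 34603011) (.two (nat_lit 2097153) (nat_lit 4194312) (.two (nat_lit 1048576) (nat_lit 606076943) (.one (nat_lit 1048610) .nil))),
   .two (nat_lit 4194308) (nat_lit 34603011) (.two (nat_lit 2097153) (nat_lit 4194312) (.two (nat_lit 1048576) (nat_lit 606076943) (.one (nat_lit 34603043) .nil))),
   .two (nat_lit 37748739) (nat_lit 1176502275) (.two (nat_lit 37748737) (nat_lit 102760455) (.two (nat_lit 4194304) (nat_lit 9867100177) (.one (nat_lit 9867100198) .nil))),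
   .two (nat_lit 4194306) (nat_lit 2954887173) (.two (nat_lit 2097153) (nat_lit 4194310) (.two (nat_lit 2097152) (nat_lit 4194315) (.one (nat_lit 185023332389) .nil))),
   .two (nat_lit 37748739) (nat_lit 2887778307) (.two (nat_lit 2097153) (nat_lit 809500679) (.two (nat_lit 4194304) (nat_lit 203423760) (.one (nat_lit 9934209062) .nil))),
   .two (nat_lit 4194307) (nat_lit 165525061635) (.two (nat_lit 4194305) (nat_lit 174752530439) (.two (nat_lit 4194304) (nat_lit 158646403089) (.one (nat_lit 168820775) .nil))),
   .two (nat_lit 2097153) (nat_lit 156372041740) .nil,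
   .two (nat_lit 34603009) (nat_lit 46422556686) .nil,
   .two (nat_lit 34603009) (nat_lit 9781116929) (.two (nat_lit 16777216) (nat_lit 672137230) .nil),
   .two (nat_lit 34603009) (nat_lit 156372041741) .nil,
   .two (nat_lit 16777217) (nat_lit 41943041) (.two (nat_lit 8388608) (nat_lit 218103821) .nil),
   .two (nat_lit 2097153) (nat_lit 156372041729) (.two (nat_lit 8388608) (nat_lit 47582281740) .nil),
   .two (nat_lit 37748737) (nat_lit 9765388289) (.two (nat_lit 1048576) (nat_lit 184419352589) .nil),
   .two (nat_lit 606076929) (nat_lit 9765388289) (.two (nat_lit 1048576) (nat_lit 158144135181) .nil),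
   .two (nat_lit 8388609) (nat_lit 705691656) (.one (nat_lit 270532648) .nil),
   .two (nat_lit 2097153) (nat_lit 1343225869) (.one (nat_lit 11543773207) .nil),
   .two (nat_lit 37748737) (nat_lit 11543773197) (.one (nat_lit 2954887191) .nil),
   .two (nat_lit 8388609) (nat_lit 169869320) (.one (nat_lit 705691689) .nil),
   .two (nat_lit 2097153) (nat_lit 1343225861) (.two (nat_lit 2097152) (nat_lit 11543773199) .nil),
   .two (nat_lit 4194305) (nat_lit 739246095) .nil,
   .two (nat_lit 606076929) (nat_lit 739246095) .nil,
   .two (nat_lit 37748737) (nat_lit 739246095) .nil,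
   .two (nat_lit 34603009) (nat_lit 272629765) (.two (nat_lit 4194304) (nat_lit 11543773199) .nil),
   .two (nat_lit 612368385) (nat_lit 11543773199) .nil,
   .two (nat_lit 50331649) (nat_lit 19532873743) .nil,
   .two (nat_lit 605028353) (nat_lit 184419352591) .nil,
   .two (nat_lit 50331649) (nat_lit 19599982597) (.two (nat_lit 4194304) (nat_lit 721420303) .nil),
   .two (nat_lit 606076929) (nat_lit 1916796941) (.one (nat_lit 183949590553) .nil),
   .two (nat_lit 605028353) (nat_lit 174753579023) .nil,
   .two (nat_lit 2097153) (nat_lit 11479810056) (.one (nat_lit 9934209071) .nil),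
   .two (nat_lit 41943041) (nat_lit 166129041412) (.two (nat_lit 2097152) (nat_lit 166129041416) (.one (nat_lit 1048624) .nil)),
   .two (nat_lit 612368385) (nat_lit 157036838927) .nil,
   .two (nat_lit 2097153) (nat_lit 18933088264) (.one (nat_lit 183853121561) .nil),
   .two (nat_lit 16777217) (nat_lit 20637024270) (.one (nat_lit 8388658) .nil),
   .two (nat_lit 2097153) (nat_lit 46984593416) (.one (nat_lit 235929644) .nil),
   .two (nat_lit 16777217) (nat_lit 156372041733) (.two (nat_lit 1048576) (nat_lit 157043130380) (.one (nat_lit 3573547031) .nil)),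
   .two (nat_lit 50331649) (nat_lit 19599982597) (.two (nat_lit 4194304) (nat_lit 721420296) (.one (nat_lit 11593056281) .nil)),
   .two (nat_lit 620756993) (nat_lit 12117344264) (.one (nat_lit 12050235417) .nil),
   .two (nat_lit 620756993) (nat_lit 10506731532) (.one (nat_lit 166132187151) .nil),
   .two (nat_lit 37748737) (nat_lit 174753579013) (.two (nat_lit 4194304) (nat_lit 20638072847) .nil),
   .two (nat_lit 37748737) (nat_lit 9781116943) .nil,
   .two (nat_lit 16777217) (nat_lit 3527409672) (.one (nat_lit 28089253936) .nil),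
   .two (nat_lit 2097153) (nat_lit 2886729742) (.one (nat_lit 184416206871) .nil),
   .two (nat_lit 16777217) (nat_lit 8388623) .nil,
   .two (nat_lit 16777217) (nat_lit 165526110216) (.one (nat_lit 28087156783) .nil),
   .two (nat_lit 37748737) (nat_lit 1276116996) (.two (nat_lit 2097152) (nat_lit 1276117000) (.one (nat_lit 159219974193) .nil)),
   .two (nat_lit 9765388289) (nat_lit 19530776581) (.one (nat_lit 2921332755) .nil),
   .two (nat_lit 4194305) (nat_lit 10940841989) (.one (nat_lit 10001317910) .nil),
   .two (nat_lit 34603009) (nat_lit 10370416643) (.two (nat_lit 1048576) (nat_lit 2317352969) (.one (nat_lit 2097212) .nil)),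
   .two (nat_lit 606076929) (nat_lit 19532873733) (.one (nat_lit 239075347) .nil),
   .two (nat_lit 606076929) (nat_lit 1795162117) (.one (nat_lit 11492392979) .nil),
   .two (nat_lit 612368385) (nat_lit 83886085) (.one (nat_lit 2969567251) .nil),
   .two (nat_lit 2097153) (nat_lit 10385096709) (.one (nat_lit 46489665555) .nil),
   .two (nat_lit 50331649) (nat_lit 9766436867) (.two (nat_lit 16777216) (nat_lit 606076937) (.one (nat_lit 773849142) .nil)),
   .two (nat_lit 2097153) (nat_lit 158083317765) (.one (nat_lit 11618222099) .nil),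
   .two (nat_lit 4194305) (nat_lit 2894069765) (.two (nat_lit 4194304) (nat_lit 18925748238) (.one (nat_lit 156364701753) .nil)),
   .two (nat_lit 16777217) (nat_lit 10369368067) (.two (nat_lit 16777216) (nat_lit 135266316) (.one (nat_lit 10000269341) .nil)),
   .two (nat_lit 156372041729) (nat_lit 174752530437) (.one (nat_lit 19026411539) .nil),
   .two (nat_lit 605028353) (nat_lit 20644364293) (.one (nat_lit 3028287507) .nil),
   .two (nat_lit 4194305) (nat_lit 9765388291) (.two (nat_lit 8388608) (nat_lit 303038478) (.one (nat_lit 2416967735) .nil)),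
   .two (nat_lit 50331649) (nat_lit 169869315) (.two (nat_lit 16777216) (nat_lit 1948254222) (.one (nat_lit 2097210) .nil)),
   .two (nat_lit 8388609) (nat_lit 16777221) (.two (nat_lit 8388608) (nat_lit 705691662) (.one (nat_lit 34603061) .nil)),
   .two (nat_lit 612368385) (nat_lit 4194306) (.one (nat_lit 46510637075) .nil),
   .two (nat_lit 605028353) (nat_lit 18928893955) (.two (nat_lit 1048576) (nat_lit 11580473354) (.one (nat_lit 166232850483) .nil)),
   .two (nat_lit 4194305) (nat_lit 156364701699) (.two (nat_lit 4194304) (nat_lit 10939793421) (.one (nat_lit 34603067) .nil)),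
   .two (nat_lit 34603009) (nat_lit 10940841989) (.one (nat_lit 2921332755) .nil),
   .two (nat_lit 156367847425) (nat_lit 28690087941) (.one (nat_lit 12147752979) .nil),
   .two (nat_lit 34603009) (nat_lit 18926796803) (.two (nat_lit 16777216) (nat_lit 12148801550) (.one (nat_lit 2921332788) .nil)),
   .two (nat_lit 37748737) (nat_lit 156968681477) (.one (nat_lit 873463830) .nil),
   .two (nat_lit 156364701697) (nat_lit 1847590917) (.one (nat_lit 606076950) .nil),
   .two (nat_lit 37748737) (nat_lit 158083317765) (.one (nat_lit 183949590547) .nil),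
   .two (nat_lit 34603009) (nat_lit 1795162117) (.one (nat_lit 11492392979) .nil),
   .two (nat_lit 4194305) (nat_lit 18925748227) (.two (nat_lit 4194304) (nat_lit 19127074825) (.one (nat_lit 1343225914) .nil)),
   .two (nat_lit 8388609) (nat_lit 16777221) (.two (nat_lit 4194304) (nat_lit 705691662) (.one (nat_lit 705691704) .nil)),
   .two (nat_lit 156367847425) (nat_lit 1745879045) (.one (nat_lit 159250382870) .nil),
   .two (nat_lit 620756993) (nat_lit 1178599427) (.two (nat_lit 16777216) (nat_lit 37748745) (.one (nat_lit 71303225) .nil)),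
   .two (nat_lit 8388609) (nat_lit 184549381) (.one (nat_lit 13203669011) .nil),
   .two (nat_lit 37748737) (nat_lit 165532401669) (.one (nat_lit 46414168083) .nil),
   .two (nat_lit 612368385) (nat_lit 166130089987) (.two (nat_lit 4194304) (nat_lit 780140557) (.one (nat_lit 8388669) .nil)),
   .two (nat_lit 9766436865) (nat_lit 612368387) (.two (nat_lit 2097152) (nat_lit 3531603982) (.one (nat_lit 47555018806) .nil)),
   .two (nat_lit 605028353) (nat_lit 165526110213) (.one (nat_lit 4632608790) .nil),
   .two (nat_lit 37748737) (nat_lit 68157443) (.two (nat_lit 1048576) (nat_lit 272629768) (.one (nat_lit 159219974172) .nil)),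
   .two (nat_lit 41943041) (nat_lit 9781116931) (.two (nat_lit 16777216) (nat_lit 18933088264) (.one (nat_lit 243269662) .nil)),
   .two (nat_lit 606076929) (nat_lit 2902458372) (.two (nat_lit 2097152) (nat_lit 218103816) (.one (nat_lit 2969567248) .nil)),
   .two (nat_lit 605028353) (nat_lit 28693233669) (.one (nat_lit 46510637075) .nil),
   .two (nat_lit 4194305) (nat_lit 1175453699) (.two (nat_lit 4194304) (nat_lit 11510218761) (.one (nat_lit 303038517) .nil)),
   .two (nat_lit 8388609) (nat_lit 184549381) (.two (nat_lit 8388608) (nat_lit 158662131726) (.one (nat_lit 16777278) .nil)),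
   .two (nat_lit 2097153) (nat_lit 68157443) (.two (nat_lit 2097152) (nat_lit 184986632200) (.one (nat_lit 11476664353) .nil)),
   .two (nat_lit 2097153) (nat_lit 28693233669) (.one (nat_lit 12150898707) .nil),
   .two (nat_lit 50331649) (nat_lit 1343225861) (.one (nat_lit 10369368083) .nil),
   .two (nat_lit 612368385) (nat_lit 184549380) (.two (nat_lit 8388608) (nat_lit 184549384) (.one (nat_lit 16777232) .nil)),
   .two (nat_lit 41943041) (nat_lit 184549380) (.two (nat_lit 8388608) (nat_lit 184549384) (.one (nat_lit 2969567249) .nil)),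
   .two (nat_lit 9766436865) (nat_lit 166129041412) (.two (nat_lit 2097152) (nat_lit 1846542344) (.one (nat_lit 156465365009) .nil)),
   .two (nat_lit 16777217) (nat_lit 1277165572) (.two (nat_lit 16777216) (nat_lit 158144135176) (.one (nat_lit 21208498192) .nil)),
   .two (nat_lit 9768534017) (nat_lit 11543773189) (.two (nat_lit 4194304) (nat_lit 10335813646) (.one (nat_lit 10335813688) .nil)),
   .two (nat_lit 620756993) (nat_lit 4194307) (.two (nat_lit 16777216) (nat_lit 3527409677) (.one (nat_lit 19130220595) .nil)),
   .two (nat_lit 2097153) (nat_lit 156364701699) (.two (nat_lit 16777216) (nat_lit 3557818382) (.one (nat_lit 183845781566) .nil)),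
   .two (nat_lit 2097153) (nat_lit 20637024259) (.two (nat_lit 2097152) (nat_lit 235929610) (.one (nat_lit 1048639) .nil)),
   .two (nat_lit 4194308) (nat_lit 806354949) (.two (nat_lit 2097153) (nat_lit 605028364) (.two (nat_lit 1048576) (nat_lit 606076943) (.one (nat_lit 705691713) .nil))),
   .two (nat_lit 169869316) (nat_lit 1175453699) (.two (nat_lit 606076929) (nat_lit 739246088) (.two (nat_lit 1048576) (nat_lit 2954887183) (.one (nat_lit 11610882085) .nil))),
   .two (nat_lit 46407876612) (nat_lit 165525061635) (.two (nat_lit 156364701697) (nat_lit 10336862216) (.two (nat_lit 1048576) (nat_lit 156365750296) (.one (nat_lit 11476664388) .nil))),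
   .two (nat_lit 68157443) (nat_lit 183848927235) (.two (nat_lit 605028353) (nat_lit 13191086087) (.two (nat_lit 1048576) (nat_lit 13191086095) (.one (nat_lit 183916036164) .nil))),
   .two (nat_lit 4194308) (nat_lit 2887778307) (.two (nat_lit 4194305) (nat_lit 2954887176) (.two (nat_lit 4194304) (nat_lit 2954887183) (.one (nat_lit 1916796998) .nil))),
   .two (nat_lit 16777220) (nat_lit 18928893955) (.two (nat_lit 156367847425) (nat_lit 50331656) (.two (nat_lit 4194304) (nat_lit 50331663) (.one (nat_lit 50331684) .nil))),
   .two (nat_lit 2887778308) (nat_lit 16777219) (.two (nat_lit 16777217) (nat_lit 3525312520) (.two (nat_lit 16777216) (nat_lit 3525312527) (.one (nat_lit 46407876645) .nil))),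
   .two (nat_lit 28690087941) (nat_lit 18933088259) (.two (nat_lit 34603009) (nat_lit 156372041736) (.two (nat_lit 1048576) (nat_lit 156372041743) (.one (nat_lit 176160858) .nil))),
   .two (nat_lit 10385096709) (nat_lit 2889875458) (.one (nat_lit 3560964115) .nil),
   .two (nat_lit 10385096707) (nat_lit 19529728003) (.two (nat_lit 156364701697) (nat_lit 654311431) (.two (nat_lit 1048576) (nat_lit 654311439) (.one (nat_lit 4043309134) .nil))),
   .two (nat_lit 19530776581) (nat_lit 10385096707) (.two (nat_lit 2097153) (nat_lit 117440520) (.two (nat_lit 2097152) (nat_lit 117440527) (.one (nat_lit 1358954571) .nil))),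
   .two (nat_lit 50331651) (nat_lit 18928893955) (.two (nat_lit 156367847425) (nat_lit 50331655) (.two (nat_lit 4194304) (nat_lit 11559501839) (.one (nat_lit 4647288871) .nil))),
   .two (nat_lit 2887778308) (nat_lit 19529728003) (.two (nat_lit 9766436865) (nat_lit 168820746) (.two (nat_lit 1048576) (nat_lit 3525312523) (.one (nat_lit 19127074885) .nil))),
   .two (nat_lit 612368387) (nat_lit 11479810051) (.two (nat_lit 37748737) (nat_lit 612368391) (.two (nat_lit 8388608) (nat_lit 1178599439) (.one (nat_lit 9768534095) .nil))),
   .two (nat_lit 165532401669) (nat_lit 183848927234) (.one (nat_lit 876609558) .nil),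
   .two (nat_lit 16777220) (nat_lit 11476664323) (.two (nat_lit 50331649) (nat_lit 184416206856) (.two (nat_lit 1048576) (nat_lit 4613734411) (.one (nat_lit 4598005835) .nil))),
   .two (nat_lit 169869316) (nat_lit 2894069765) (.two (nat_lit 8388609) (nat_lit 169869320) (.two (nat_lit 1048576) (nat_lit 8388627) (.one (nat_lit 1048645) .nil))),
   .two (nat_lit 605028357) (nat_lit 9766436867) (.two (nat_lit 4194305) (nat_lit 2887778312) (.two (nat_lit 4194304) (nat_lit 203423761) (.one (nat_lit 1846542409) .nil))),
   .two (nat_lit 4605345797) (nat_lit 166130089987) (.two (nat_lit 9766436865) (nat_lit 1283457034) (.two (nat_lit 2097152) (nat_lit 13195280399) (.one (nat_lit 13195280420) .nil))),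
   .two (nat_lit 1291845636) (nat_lit 8388611) (.two (nat_lit 8388609) (nat_lit 158158815240) (.two (nat_lit 4194304) (nat_lit 37320917023) (.one (nat_lit 8388699) .nil))),
   .two (nat_lit 620756997) (nat_lit 1176502275) (.two (nat_lit 41943041) (nat_lit 185002360840) (.two (nat_lit 8388608) (nat_lit 11626610705) (.one (nat_lit 11544821842) .nil))),
   .two (nat_lit 176160772) (nat_lit 156367847427) (.two (nat_lit 156367847425) (nat_lit 2961178632) (.two (nat_lit 1048576) (nat_lit 4194333) (.one (nat_lit 4194396) .nil))),
   .two (nat_lit 2887778308) (nat_lit 166129041411) (.two (nat_lit 9765388289) (nat_lit 639631368) (.two (nat_lit 1048576) (nat_lit 10504634394) (.one (nat_lit 28690088014) .nil))),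
   .two (nat_lit 4194308) (nat_lit 11476664323) (.two (nat_lit 37748737) (nat_lit 11543773192) (.two (nat_lit 1048576) (nat_lit 4194315) (.one (nat_lit 11510218842) .nil))),
   .two (nat_lit 165532401669) (nat_lit 46409973762) (.one (nat_lit 339738646) .nil),
   .two (nat_lit 41943043) (nat_lit 169869315) (.two (nat_lit 41943041) (nat_lit 2954887175) (.two (nat_lit 8388608) (nat_lit 159217877022) (.one (nat_lit 159217877031) .nil))),
   .two (nat_lit 2887778307) (nat_lit 809500679) (.two (nat_lit 4194304) (nat_lit 639631394) (.one (nat_lit 9934209062) .nil)),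
   .two (nat_lit 2887778307) (nat_lit 809500679) (.two (nat_lit 8388608) (nat_lit 9934209062) (.one (nat_lit 9934209062) .nil)),
   .two (nat_lit 4194306) (nat_lit 12618563594) (.two (nat_lit 2097153) (nat_lit 272629771) (.two (nat_lit 2097152) (nat_lit 339738645) (.one (nat_lit 71303265) .nil))),
   .two (nat_lit 606076931) (nat_lit 9933160455) (.two (nat_lit 8388608) (nat_lit 4194342) (.one (nat_lit 4194342) .nil)),
   .two (nat_lit 46422556675) (nat_lit 156372041735) (.two (nat_lit 4194304) (nat_lit 10519314470) (.one (nat_lit 10519314470) .nil)),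
   .two (nat_lit 4194306) (nat_lit 9900654601) (.two (nat_lit 2097153) (nat_lit 4601151499) (.two (nat_lit 2097152) (nat_lit 4194325) (.one (nat_lit 11513364578) .nil))),
   .two (nat_lit 83886083) (nat_lit 10506731527) (.two (nat_lit 1048576) (nat_lit 12050235431) (.one (nat_lit 12050235431) .nil)),
   .two (nat_lit 19530776579) (nat_lit 654311431) (.two (nat_lit 1048576) (nat_lit 3573547047) (.one (nat_lit 3573547047) .nil)),
   .two (nat_lit 612368387) (nat_lit 639631367) (.two (nat_lit 16777216) (nat_lit 713031718) (.one (nat_lit 713031718) .nil)),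
   .two (nat_lit 606076931) (nat_lit 19599982599) (.two (nat_lit 1048576) (nat_lit 4194343) (.one (nat_lit 4194343) .nil)),
   .two (nat_lit 270532615) (nat_lit 272629767) (.two (nat_lit 2097152) (nat_lit 1343225894) .nil),
   .two (nat_lit 21777874951) (nat_lit 19599982599) (.two (nat_lit 1048576) (nat_lit 9802088486) .nil),
   .two (nat_lit 41943047) (nat_lit 13187940359) (.two (nat_lit 1048576) (nat_lit 12148801575) .nil),
   .two (nat_lit 9948889095) (nat_lit 21778923527) (.two (nat_lit 16777216) (nat_lit 4030726183) .nil),
   .two (nat_lit 3525312519) (nat_lit 21777874951) (.two (nat_lit 2097152) (nat_lit 11577327654) .nil),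
   .two (nat_lit 37748737) (nat_lit 1343225861) (.two (nat_lit 2097152) (nat_lit 605028393) .nil),
   .two (nat_lit 8388609) (nat_lit 705691671) .nil,
   .two (nat_lit 8388609) (nat_lit 169869336) .nil,
   .two (nat_lit 41943041) (nat_lit 705691671) .nil,
   .two (nat_lit 41943041) (nat_lit 169869336) .nil,
   .two (nat_lit 41943041) (nat_lit 4194328) .nil,
   .two (nat_lit 2097153) (nat_lit 809500677) (.two (nat_lit 4194304) (nat_lit 2954887176) (.one (nat_lit 708837417) .nil)),
   .two (nat_lit 8388609) (nat_lit 809500696) .nil,
   .two (nat_lit 612368385) (nat_lit 272629784) .nil,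
   .two (nat_lit 37748737) (nat_lit 47548727301) (.two (nat_lit 4194304) (nat_lit 21208498200) .nil),
   .two (nat_lit 156372041729) (nat_lit 174686470157) (.one (nat_lit 2097252) .nil),
   .two (nat_lit 605028353) (nat_lit 46407876612) (.two (nat_lit 8388608) (nat_lit 157035790380) .nil),
   .two (nat_lit 2097153) (nat_lit 822083589) (.two (nat_lit 1048576) (nat_lit 156365750280) (.one (nat_lit 16777265) .nil)),
   .two (nat_lit 50331649) (nat_lit 3028287513) .nil,
   .two (nat_lit 156364701697) (nat_lit 1310720026) .nil,
   .two (nat_lit 2097153) (nat_lit 158176641047) .nil,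
   .two (nat_lit 2097153) (nat_lit 822083589) (.two (nat_lit 1048576) (nat_lit 158091706413) .nil),
   .two (nat_lit 156367847425) (nat_lit 3525312536) .nil,
   .two (nat_lit 9768534017) (nat_lit 46414168087) .nil,
   .two (nat_lit 4194305) (nat_lit 174759870472) (.one (nat_lit 20707278891) .nil),
   .two (nat_lit 34603009) (nat_lit 46414168068) (.two (nat_lit 4194304) (nat_lit 2349858865) .nil),
   .two (nat_lit 156372041729) (nat_lit 2420113434) .nil,
   .two (nat_lit 9781116929) (nat_lit 343932952) .nil,
   .two (nat_lit 156372041729) (nat_lit 339738649) .nil,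
   .two (nat_lit 41943041) (nat_lit 21207449605) (.two (nat_lit 1048576) (nat_lit 13195280392) (.one (nat_lit 46507491371) .nil)),
   .two (nat_lit 4194305) (nat_lit 839909389) (.one (nat_lit 2097253) .nil),
   .two (nat_lit 156365750273) (nat_lit 46984593434) .nil,
   .two (nat_lit 50331649) (nat_lit 11577327628) (.one (nat_lit 1745879083) .nil),
   .two (nat_lit 9781116929) (nat_lit 276824090) .nil,
   .two (nat_lit 8388609) (nat_lit 50331660) (.one (nat_lit 28101836845) .nil),
   .two (nat_lit 9781116929) (nat_lit 47548727322) .nil,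
   .two (nat_lit 16777217) (nat_lit 11479810074) .nil,
   .two (nat_lit 8388609) (nat_lit 21208498181) (.two (nat_lit 2097152) (nat_lit 8388616) (.one (nat_lit 183947493419) .nil)),
   .two (nat_lit 2097153) (nat_lit 1846542361) .nil,
   .two (nat_lit 9765388289) (nat_lit 13195280389) (.two (nat_lit 4194304) (nat_lit 310378520) .nil),
   .two (nat_lit 41943041) (nat_lit 20638072858) .nil,
   .two (nat_lit 9768534017) (nat_lit 156533522444) (.one (nat_lit 19530776619) .nil),
   .two (nat_lit 2097153) (nat_lit 721420292) (.two (nat_lit 8388608) (nat_lit 773849131) .nil),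
   .two (nat_lit 41943041) (nat_lit 50331660) (.one (nat_lit 28101836845) .nil),
   .two (nat_lit 4194305) (nat_lit 11510218775) .nil,
   .two (nat_lit 16777217) (nat_lit 10538188812) (.one (nat_lit 203423787) .nil),
   .two (nat_lit 2097153) (nat_lit 19029557273) .nil,
   .two (nat_lit 9781116929) (nat_lit 1947205656) .nil,
   .two (nat_lit 9768534017) (nat_lit 2921332760) .nil,
   .two (nat_lit 612368385) (nat_lit 9799991320) .nil,
   .two (nat_lit 37748737) (nat_lit 318767127) .nil,
   .two (nat_lit 156364701697) (nat_lit 12163481624) .nil,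
   .two (nat_lit 8388609) (nat_lit 3003121689) .nil,
   .two (nat_lit 2097153) (nat_lit 20737687576) .nil,
   .two (nat_lit 34603009) (nat_lit 1753219096) .nil,
   .two (nat_lit 8388609) (nat_lit 1309671450) .nil,
   .two (nat_lit 16777217) (nat_lit 169869336) .nil,
   .two (nat_lit 4194305) (nat_lit 157043130394) .nil,
   .two (nat_lit 9765388289) (nat_lit 19599982604) (.one (nat_lit 20707278893) .nil),
   .two (nat_lit 34603009) (nat_lit 184549380) (.two (nat_lit 8388608) (nat_lit 28757196845) .nil),
   .two (nat_lit 156364701697) (nat_lit 156969730074) .nil,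
   .two (nat_lit 156372041729) (nat_lit 184416206873) .nil,
   .two (nat_lit 50331649) (nat_lit 2994733079) .nil,
   .two (nat_lit 156365750273) (nat_lit 20704133132) (.one (nat_lit 28757196843) .nil),
   .two (nat_lit 4194305) (nat_lit 46978301978) .nil,
   .two (nat_lit 9766436865) (nat_lit 28690087961) .nil,
   .two (nat_lit 4194305) (nat_lit 184423546903) .nil,
   .two (nat_lit 8388609) (nat_lit 11492392968) (.one (nat_lit 46523220014) .nil),
   .two (nat_lit 612368385) (nat_lit 1358954508) (.one (nat_lit 185002360881) .nil),
   .two (nat_lit 41943041) (nat_lit 47582281754) .nil,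
   .two (nat_lit 156364701697) (nat_lit 50331653) (.two (nat_lit 1048576) (nat_lit 318767130) .nil),
   .two (nat_lit 620756993) (nat_lit 12147752984) .nil,
   .two (nat_lit 34603009) (nat_lit 19130220568) .nil,
   .two (nat_lit 156365750273) (nat_lit 9802088460) (.one (nat_lit 876609580) .nil),
   .two (nat_lit 41943041) (nat_lit 1913651205) (.two (nat_lit 1048576) (nat_lit 41943048) (.one (nat_lit 12147753009) .nil)),
   .two (nat_lit 156364701697) (nat_lit 1780482074) .nil,
   .two (nat_lit 4194305) (nat_lit 12054429720) .nil,
   .two (nat_lit 16777217) (nat_lit 169869338) .nil,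
   .two (nat_lit 2097153) (nat_lit 1913651205) (.two (nat_lit 4194304) (nat_lit 183912890394) .nil),
   .two (nat_lit 16777217) (nat_lit 1916796933) (.two (nat_lit 4194304) (nat_lit 2969567240) (.one (nat_lit 184989777965) .nil)),
   .two (nat_lit 34603009) (nat_lit 158144135176) (.one (nat_lit 9933160490) .nil),
   .two (nat_lit 4194305) (nat_lit 10370416648) (.one (nat_lit 18926796842) .nil),
   .two (nat_lit 606076929) (nat_lit 83886093) (.one (nat_lit 158662131762) .nil),
   .two (nat_lit 4194305) (nat_lit 19027460122) .nil,
   .two (nat_lit 8388609) (nat_lit 156968681477) (.two (nat_lit 8388608) (nat_lit 166129041434) .nil),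
   .two (nat_lit 16777217) (nat_lit 1779433477) (.two (nat_lit 16777216) (nat_lit 1846542344) (.one (nat_lit 9781116977) .nil)),
   .two (nat_lit 605028353) (nat_lit 19029557274) .nil,
   .two (nat_lit 8388609) (nat_lit 159216828429) (.one (nat_lit 37249613924) .nil),
   .two (nat_lit 37748737) (nat_lit 174686470170) .nil,
   .two (nat_lit 2097153) (nat_lit 21793603592) (.one (nat_lit 166144770090) .nil),
   .two (nat_lit 620756993) (nat_lit 11618222103) .nil,
   .two (nat_lit 620756993) (nat_lit 1913651205) (.two (nat_lit 2097152) (nat_lit 20637024299) .nil),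
   .two (nat_lit 605028353) (nat_lit 1795162138) .nil,
   .two (nat_lit 8388609) (nat_lit 21208498181) (.two (nat_lit 16777216) (nat_lit 19597885485) .nil),
   .two (nat_lit 156372041729) (nat_lit 21207449626) .nil,
   .two (nat_lit 4194305) (nat_lit 9806282778) .nil,
   .two (nat_lit 37748737) (nat_lit 185020186637) (.one (nat_lit 11610882149) .nil),
   .two (nat_lit 41943041) (nat_lit 1277165573) (.two (nat_lit 16777216) (nat_lit 166197198872) .nil),
   .two (nat_lit 16777217) (nat_lit 11577327640) .nil,
   .two (nat_lit 16777217) (nat_lit 13191086085) (.two (nat_lit 4194304) (nat_lit 2969567240) (.one (nat_lit 165528207401) .nil)),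
   .two (nat_lit 9781116929) (nat_lit 11479810072) .nil,
   .two (nat_lit 9765388289) (nat_lit 20738736151) .nil,
   .two (nat_lit 605028353) (nat_lit 46414168068) (.two (nat_lit 2097152) (nat_lit 156532473897) .nil),
   .two (nat_lit 156364701697) (nat_lit 185027526682) .nil,
   .two (nat_lit 34603009) (nat_lit 10343153672) (.one (nat_lit 159250382893) .nil),
   .two (nat_lit 156372041729) (nat_lit 11577327639) .nil,
   .two (nat_lit 50331649) (nat_lit 10506731525) (.two (nat_lit 4194304) (nat_lit 83886088) (.one (nat_lit 47550824493) .nil)),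
   .two (nat_lit 37748737) (nat_lit 12147752984) .nil,
   .two (nat_lit 50331649) (nat_lit 11476664345) .nil,
   .two (nat_lit 612368385) (nat_lit 12617515031) .nil,
   .two (nat_lit 41943041) (nat_lit 158646403098) .nil,
   .two (nat_lit 156372041729) (nat_lit 4194308) (.two (nat_lit 8388608) (nat_lit 809500680) (.one (nat_lit 21781020700) .nil)),
   .two (nat_lit 612368385) (nat_lit 183845781508) (.two (nat_lit 8388608) (nat_lit 19596836872) (.one (nat_lit 165525061665) .nil)),
   .two (nat_lit 16777217) (nat_lit 8388612) (.two (nat_lit 16777216) (nat_lit 41943048) (.one (nat_lit 276824096) .nil)),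
   .two (nat_lit 620756993) (nat_lit 739246085) (.two (nat_lit 16777216) (nat_lit 772800525) (.one (nat_lit 46977253403) .nil)),
   .two (nat_lit 2097153) (nat_lit 20644364292) (.two (nat_lit 2097152) (nat_lit 165532401672) (.one (nat_lit 2927624222) .nil)),
   .two (nat_lit 606076929) (nat_lit 21785214981) (.two (nat_lit 2097152) (nat_lit 156372041740) (.one (nat_lit 183953784861) .nil)),
   .two (nat_lit 9768534017) (nat_lit 21777874949) (.two (nat_lit 1048576) (nat_lit 11614027786) (.one (nat_lit 9899606068) .nil)),
   .two (nat_lit 612368385) (nat_lit 1913651205) (.two (nat_lit 1048576) (nat_lit 184423546889) (.one (nat_lit 2987393079) .nil)),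
   .two (nat_lit 2097153) (nat_lit 21785214981) (.two (nat_lit 2097152) (nat_lit 156372041740) (.one (nat_lit 183953784861) .nil)),
   .two (nat_lit 9781116929) (nat_lit 4194308) (.two (nat_lit 16777216) (nat_lit 4601151496) (.one (nat_lit 876609568) .nil)),
   .two (nat_lit 34603009) (nat_lit 218103813) (.two (nat_lit 8388608) (nat_lit 10369368078) (.one (nat_lit 166129041462) .nil)),
   .two (nat_lit 37748737) (nat_lit 46414168068) (.two (nat_lit 4194304) (nat_lit 156372041736) (.one (nat_lit 46984593440) .nil)),
   .two (nat_lit 16777217) (nat_lit 159224168453) (.two (nat_lit 8388608) (nat_lit 20652752906) (.one (nat_lit 12624855094) .nil)),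
   .two (nat_lit 156367847425) (nat_lit 11476664324) (.two (nat_lit 4194304) (nat_lit 1913651208) (.one (nat_lit 638582817) .nil)),
   .two (nat_lit 16777217) (nat_lit 13195280389) (.two (nat_lit 16777216) (nat_lit 47588573193) (.one (nat_lit 11014242362) .nil)),
   .two (nat_lit 605028353) (nat_lit 285212677) (.two (nat_lit 16777216) (nat_lit 13221494793) (.one (nat_lit 3557818423) .nil)),
   .two (nat_lit 50331649) (nat_lit 1913651205) (.two (nat_lit 1048576) (nat_lit 21223178249) (.one (nat_lit 18925748282) .nil)),
   .two (nat_lit 9781116929) (nat_lit 705691652) (.two (nat_lit 16777216) (nat_lit 11543773192) (.one (nat_lit 183845781537) .nil)),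
   .two (nat_lit 2097153) (nat_lit 159224168453) (.two (nat_lit 2097152) (nat_lit 156372041740) (.one (nat_lit 46514831389) .nil)),
   .two (nat_lit 169869316) (nat_lit 1779433480) (.two (nat_lit 1048576) (nat_lit 169869336) (.one (nat_lit 705691755) .nil)),
   .two (nat_lit 4194308) (nat_lit 2887778308) (.two (nat_lit 2097153) (nat_lit 272629768) (.two (nat_lit 2097152) (nat_lit 4194328) (.one (nat_lit 169869422) .nil))),
   .two (nat_lit 9948889093) (nat_lit 166129041412) (.two (nat_lit 620756993) (nat_lit 156968681498) (.one (nat_lit 13187940482) .nil)),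
   .two (nat_lit 9781116933) (nat_lit 174752530437) (.two (nat_lit 50331649) (nat_lit 156968681498) (.one (nat_lit 184986632323) .nil)),
   .two (nat_lit 176160772) (nat_lit 158144135176) (.two (nat_lit 2097152) (nat_lit 1384120346) (.one (nat_lit 337641591) .nil)),
   .two (nat_lit 2887778308) (nat_lit 1846542341) (.two (nat_lit 2097153) (nat_lit 156364701710) (.two (nat_lit 1048576) (nat_lit 156567076888) (.one (nat_lit 21812478081) .nil))),
   .two (nat_lit 8388612) (nat_lit 184986632197) (.two (nat_lit 8388609) (nat_lit 159250382862) (.two (nat_lit 1048576) (nat_lit 276824088) (.one (nat_lit 1216348280) .nil))),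
   .two (nat_lit 9948889093) (nat_lit 158143086597) (.two (nat_lit 605028353) (nat_lit 620757000) (.two (nat_lit 1048576) (nat_lit 159266111514) (.one (nat_lit 28790751357) .nil))),
   .two (nat_lit 9948889093) (nat_lit 19529728003) (.two (nat_lit 156364701697) (nat_lit 620757004) (.two (nat_lit 1048576) (nat_lit 620757007) (.one (nat_lit 158158815355) .nil))),
   .two (nat_lit 2887778308) (nat_lit 50331651) (.two (nat_lit 50331649) (nat_lit 3525312520) (.two (nat_lit 16777216) (nat_lit 236978199) (.one (nat_lit 1746927742) .nil))),
   .two (nat_lit 1795162117) (nat_lit 19529728003) (.two (nat_lit 156364701697) (nat_lit 654311436) (.two (nat_lit 1048576) (nat_lit 654311439) (.one (nat_lit 28806479909) .nil))),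
   .two (nat_lit 156372041733) (nat_lit 46409973762) (.one (nat_lit 12054429715) .nil),
   .two (nat_lit 183853121538) (nat_lit 19530776579) (.two (nat_lit 156365750273) (nat_lit 183853121542) (.two (nat_lit 2097152) (nat_lit 183853121547) (.one (nat_lit 2097327) .nil))),
   .two (nat_lit 9766436867) (nat_lit 183848927235) (.two (nat_lit 37748737) (nat_lit 10504634375) (.two (nat_lit 4194304) (nat_lit 11511267355) (.one (nat_lit 11544821837) .nil))),
   .two (nat_lit 654311429) (nat_lit 184986632197) (.two (nat_lit 34603009) (nat_lit 2902458374) (.two (nat_lit 1048576) (nat_lit 218103819) (.one (nat_lit 1048752) .nil))),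
   .two (nat_lit 721420293) (nat_lit 166130089987) (.two (nat_lit 16777217) (nat_lit 10940841992) (.two (nat_lit 16777216) (nat_lit 10940841999) (.one (nat_lit 165526110245) .nil))),
   .two (nat_lit 101711877) (nat_lit 620756995) (.two (nat_lit 620756993) (nat_lit 158143086600) (.two (nat_lit 16777216) (nat_lit 1779433487) (.one (nat_lit 11543773259) .nil))),
   .two (nat_lit 20638072834) (nat_lit 4194307) (.two (nat_lit 4194305) (nat_lit 12115247114) (.two (nat_lit 2097152) (nat_lit 4601151499) (.one (nat_lit 156468510888) .nil))),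
   .two (nat_lit 2889875460) (nat_lit 166130089986) (.one (nat_lit 46510637077) .nil),
   .two (nat_lit 166132187138) (nat_lit 176160771) (.two (nat_lit 8388609) (nat_lit 339738633) (.two (nat_lit 4194304) (nat_lit 176160779) (.one (nat_lit 2323644562) .nil))),
   .two (nat_lit 3525312517) (nat_lit 713031683) (.two (nat_lit 41943041) (nat_lit 46978301960) (.two (nat_lit 8388608) (nat_lit 639631375) (.one (nat_lit 2921332863) .nil))),
   .two (nat_lit 8388612) (nat_lit 1191182341) (.two (nat_lit 16777217) (nat_lit 13195280392) (.two (nat_lit 8388608) (nat_lit 3003121686) (.one (nat_lit 11551113370) .nil))),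
   .two (nat_lit 37748739) (nat_lit 46407876611) (.two (nat_lit 37748737) (nat_lit 47548727303) (.two (nat_lit 4194304) (nat_lit 10001317920) (.one (nat_lit 184987680915) .nil))),
   .two (nat_lit 705691652) (nat_lit 2902458372) (.two (nat_lit 16777217) (nat_lit 705691654) (.two (nat_lit 16777216) (nat_lit 11543773195) (.one (nat_lit 352321624) .nil))),
   .two (nat_lit 721420292) (nat_lit 174752530437) (.two (nat_lit 9765388289) (nat_lit 620757000) (.two (nat_lit 1048576) (nat_lit 2969567243) (.one (nat_lit 158091706516) .nil))),
   .two (nat_lit 9933160453) (nat_lit 183853121539) (.two (nat_lit 4194305) (nat_lit 10503585799) (.two (nat_lit 4194304) (nat_lit 1048631) (.one (nat_lit 142606481) .nil))),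
   .two (nat_lit 16777219) (nat_lit 10369368067) (.two (nat_lit 9765388289) (nat_lit 16777223) (.two (nat_lit 16777216) (nat_lit 10000269341) (.one (nat_lit 1343225938) .nil))),
   .two (nat_lit 16777220) (nat_lit 1276116995) (.two (nat_lit 605028353) (nat_lit 50331656) (.two (nat_lit 1048576) (nat_lit 50331663) (.one (nat_lit 4027580540) .nil))),
   .two (nat_lit 4194308) (nat_lit 166130089988) (.two (nat_lit 4194305) (nat_lit 156969730056) (.two (nat_lit 16777216) (nat_lit 1178599470) (.one (nat_lit 183916036184) .nil))),
   .two (nat_lit 11476664322) (nat_lit 612368387) (.two (nat_lit 34603009) (nat_lit 176160774) (.two (nat_lit 1048576) (nat_lit 176160779) (.one (nat_lit 8388786) .nil))),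
   .two (nat_lit 218103813) (nat_lit 605028355) (.two (nat_lit 4194305) (nat_lit 3573547021) (.two (nat_lit 4194304) (nat_lit 183946444827) (.one (nat_lit 10506731597) .nil))),
   .two (nat_lit 4599054341) (nat_lit 46409973764) (.one (nat_lit 11610882067) .nil),
   .two (nat_lit 169869316) (nat_lit 183853121540) (.two (nat_lit 2097153) (nat_lit 183853121542) (.two (nat_lit 2097152) (nat_lit 12054429707) (.one (nat_lit 41943128) .nil))),
   .two (nat_lit 1916796933) (nat_lit 156365750275) (.two (nat_lit 9768534017) (nat_lit 10336862215) (.two (nat_lit 2097152) (nat_lit 4194361) (.one (nat_lit 37748905) .nil))),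
   .two (nat_lit 46414168068) (nat_lit 156971827205) (.two (nat_lit 37748737) (nat_lit 10343153672) (.two (nat_lit 4194304) (nat_lit 4638900246) (.one (nat_lit 158653743257) .nil))),
   .two (nat_lit 50331653) (nat_lit 9766436867) (.two (nat_lit 620756993) (nat_lit 169869321) (.two (nat_lit 2097152) (nat_lit 1358954515) (.one (nat_lit 2097331) .nil))),
   .two (nat_lit 102760453) (nat_lit 620756995) (.two (nat_lit 620756993) (nat_lit 158144135176) (.two (nat_lit 8388608) (nat_lit 169869340) (.one (nat_lit 1780482221) .nil))),
   .two (nat_lit 47555018757) (nat_lit 4194307) (.two (nat_lit 4194305) (nat_lit 3464495112) (.two (nat_lit 4194304) (nat_lit 13195280430) (.one (nat_lit 276824152) .nil))),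
   .two (nat_lit 184549380) (nat_lit 10369368067) (.two (nat_lit 9765388289) (nat_lit 620757000) (.two (nat_lit 2097152) (nat_lit 1410334749) (.one (nat_lit 9933160530) .nil))),
   .two (nat_lit 176160772) (nat_lit 18928893955) (.two (nat_lit 620756993) (nat_lit 612368392) (.two (nat_lit 16777216) (nat_lit 641728543) (.one (nat_lit 880803982) .nil))),
   .two (nat_lit 41943043) (nat_lit 9768534019) (.two (nat_lit 9768534017) (nat_lit 13195280391) (.two (nat_lit 4194304) (nat_lit 3531603997) (.one (nat_lit 10947133513) .nil))),
   .two (nat_lit 68157443) (nat_lit 2887778307) (.two (nat_lit 605028353) (nat_lit 2954887175) (.two (nat_lit 2097152) (nat_lit 68157472) (.one (nat_lit 605028529) .nil))),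
   .two (nat_lit 285212677) (nat_lit 705691651) (.two (nat_lit 9781116929) (nat_lit 12047089672) (.two (nat_lit 16777216) (nat_lit 12047089679) (.one (nat_lit 37329305733) .nil))),
   .two (nat_lit 16777220) (nat_lit 8388610) (.one (nat_lit 16777234) .nil),
   .two (nat_lit 46422556675) (nat_lit 156365750275) (.two (nat_lit 156364701697) (nat_lit 156365750279) (.two (nat_lit 1048576) (nat_lit 889192472) (.one (nat_lit 166144770211) .nil))),
   .two (nat_lit 50331653) (nat_lit 1178599427) (.two (nat_lit 9768534017) (nat_lit 721420296) (.two (nat_lit 4194304) (nat_lit 721420303) (.one (nat_lit 11614027912) .nil))),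
   .two (nat_lit 218103813) (nat_lit 169869314) (.one (nat_lit 218103826) .nil),
   .two (nat_lit 4605345797) (nat_lit 10370416643) (.two (nat_lit 9766436865) (nat_lit 185027526665) (.two (nat_lit 2097152) (nat_lit 41943055) (.one (nat_lit 11584667685) .nil))),
   .two (nat_lit 11479810052) (nat_lit 10503585797) (.one (nat_lit 46481276950) .nil),
   .two (nat_lit 705691651) (nat_lit 2889875459) (.two (nat_lit 34603009) (nat_lit 272629767) (.two (nat_lit 4194304) (nat_lit 47547678748) (.one (nat_lit 336593038) .nil))),
   .two (nat_lit 9933160453) (nat_lit 158083317765) (.two (nat_lit 605028353) (nat_lit 9906946061) (.two (nat_lit 1048576) (nat_lit 2889875475) (.one (nat_lit 158079123635) .nil))),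
   .two (nat_lit 176160771) (nat_lit 18925748227) (.two (nat_lit 8388609) (nat_lit 1745879047) (.two (nat_lit 8388608) (nat_lit 10000269341) (.one (nat_lit 1343225938) .nil))),
   .two (nat_lit 8388612) (nat_lit 11546918917) (.two (nat_lit 8388609) (nat_lit 21812477965) (.two (nat_lit 4194304) (nat_lit 19597885485) (.one (nat_lit 156468510805) .nil))),
   .two (nat_lit 4605345797) (nat_lit 156367847427) (.two (nat_lit 8388609) (nat_lit 157038936071) (.two (nat_lit 4194304) (nat_lit 9806282804) (.one (nat_lit 1216348321) .nil))),
   .two (nat_lit 184549378) (nat_lit 183848927235) (.two (nat_lit 16777217) (nat_lit 183848927238) (.two (nat_lit 4194304) (nat_lit 46489665558) (.one (nat_lit 843055260) .nil))),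
   .two (nat_lit 169869315) (nat_lit 1276116995) (.two (nat_lit 2097153) (nat_lit 1343225863) (.two (nat_lit 2097152) (nat_lit 47547678748) (.one (nat_lit 1048757) .nil))),
   .two (nat_lit 4601151493) (nat_lit 2887778307) (.two (nat_lit 2097153) (nat_lit 46409973768) (.two (nat_lit 2097152) (nat_lit 46980399121) (.one (nat_lit 156535619724) .nil))),
   .two (nat_lit 47548727301) (nat_lit 2889875459) (.two (nat_lit 2097153) (nat_lit 272629767) (.two (nat_lit 4194304) (nat_lit 2097210) (.one (nat_lit 2097334) .nil))),
   .two (nat_lit 169869316) (nat_lit 166129041411) (.two (nat_lit 9765388289) (nat_lit 9934209032) (.two (nat_lit 16777216) (nat_lit 873463839) (.one (nat_lit 10537140310) .nil))),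
   .two (nat_lit 50331653) (nat_lit 1176502275) (.two (nat_lit 41943041) (nat_lit 156365750279) (.two (nat_lit 4194304) (nat_lit 2097209) (.one (nat_lit 35651753) .nil))),
   .two (nat_lit 620756997) (nat_lit 28757196805) (.two (nat_lit 50331649) (nat_lit 605028361) (.two (nat_lit 1048576) (nat_lit 184549387) (.one (nat_lit 1048759) .nil))),
   .two (nat_lit 13191086085) (nat_lit 20637024259) (.two (nat_lit 605028353) (nat_lit 183848927240) (.two (nat_lit 1048576) (nat_lit 184419352599) (.one (nat_lit 11546918999) .nil))),
   .two (nat_lit 11479810051) (nat_lit 1276116995) (.two (nat_lit 605028353) (nat_lit 12117344263) (.two (nat_lit 1048576) (nat_lit 166199296029) (.one (nat_lit 47584378971) .nil))),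
   .two (nat_lit 16777221) (nat_lit 9765388291) (.two (nat_lit 8388609) (nat_lit 156364701703) (.two (nat_lit 8388608) (nat_lit 37246468148) (.one (nat_lit 3539992758) .nil))),
   .two (nat_lit 620756997) (nat_lit 1913651205) (.two (nat_lit 50331649) (nat_lit 605028361) (.two (nat_lit 1048576) (nat_lit 2969567243) (.one (nat_lit 1048760) .nil))),
   .two (nat_lit 705691652) (nat_lit 721420290) (.one (nat_lit 11610882069) .nil),
   .two (nat_lit 184549380) (nat_lit 209715205) (.one (nat_lit 156566028310) .nil),
   .two (nat_lit 2097157) (nat_lit 166132187140) (.two (nat_lit 9768534017) (nat_lit 169869320) (.two (nat_lit 1048576) (nat_lit 10370416686) (.one (nat_lit 20705181784) .nil))),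
   .two (nat_lit 705691652) (nat_lit 16777219) (.two (nat_lit 16777217) (nat_lit 184986632200) (.two (nat_lit 16777216) (nat_lit 11610882071) (.one (nat_lit 183946444887) .nil))),
   .two (nat_lit 9934209029) (nat_lit 156372041731) (.two (nat_lit 606076929) (nat_lit 18933088264) (.two (nat_lit 1048576) (nat_lit 1914699807) (.one (nat_lit 840958041) .nil))),
   .two (nat_lit 11484004357) (nat_lit 10939793413) (.two (nat_lit 9766436865) (nat_lit 166129041416) (.two (nat_lit 1048576) (nat_lit 13228834835) (.one (nat_lit 8388793) .nil))),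
   .two (nat_lit 16777220) (nat_lit 2956984325) (.one (nat_lit 20637024275) .nil),
   .two (nat_lit 2887778308) (nat_lit 159216828421) (.two (nat_lit 4194305) (nat_lit 13221494796) (.two (nat_lit 2097152) (nat_lit 156367847443) (.one (nat_lit 874512537) .nil))),
   .two (nat_lit 620756995) (nat_lit 156372041731) (.two (nat_lit 620756993) (nat_lit 156372041735) (.two (nat_lit 8388608) (nat_lit 2936012829) (.one (nat_lit 12062818377) .nil))),
   .two (nat_lit 705691652) (nat_lit 47555018757) (.two (nat_lit 8388609) (nat_lit 1343225864) (.two (nat_lit 16777216) (nat_lit 1753219094) (.one (nat_lit 1786773640) .nil))),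
   .two (nat_lit 9948889093) (nat_lit 68157443) (.two (nat_lit 605028353) (nat_lit 1291845640) (.two (nat_lit 1048576) (nat_lit 9948889104) (.one (nat_lit 158662131879) .nil))),
   .two (nat_lit 28690087941) (nat_lit 183848927234) (.one (nat_lit 12147752979) .nil),
   .two (nat_lit 612368389) (nat_lit 157035790341) (.two (nat_lit 16777217) (nat_lit 2961178632) (.two (nat_lit 1048576) (nat_lit 176160779) (.one (nat_lit 1410334903) .nil))),
   .two (nat_lit 46409973764) (nat_lit 165532401669) (.two (nat_lit 8388609) (nat_lit 157038936072) (.two (nat_lit 4194304) (nat_lit 4638900246) (.one (nat_lit 13224640684) .nil))),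
   .two (nat_lit 13191086085) (nat_lit 612368387) (.two (nat_lit 612368385) (nat_lit 13224640524) (.two (nat_lit 8388608) (nat_lit 11479810063) (.one (nat_lit 183949590593) .nil))),
   .two (nat_lit 606076931) (nat_lit 46409973763) (.two (nat_lit 606076929) (nat_lit 4601151495) (.two (nat_lit 2097152) (nat_lit 9936306204) (.one (nat_lit 608174220) .nil))),
   .two (nat_lit 169869314) (nat_lit 1175453699) (.two (nat_lit 606076929) (nat_lit 11476664326) (.two (nat_lit 1048576) (nat_lit 21778923542) (.one (nat_lit 185020186789) .nil))),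
   .two (nat_lit 158083317765) (nat_lit 183845781506) (.one (nat_lit 185027526675) .nil),
   .two (nat_lit 218103813) (nat_lit 10369368067) (.two (nat_lit 620756993) (nat_lit 1846542344) (.two (nat_lit 16777216) (nat_lit 37246468128) (.one (nat_lit 150995017) .nil))),
   .two (nat_lit 176160772) (nat_lit 156364701701) (.two (nat_lit 16777217) (nat_lit 638582796) (.two (nat_lit 8388608) (nat_lit 1358954518) (.one (nat_lit 11551113388) .nil))),
   .two (nat_lit 28758245381) (nat_lit 156367847429) (.two (nat_lit 37748737) (nat_lit 4599054346) (.two (nat_lit 2097152) (nat_lit 138412051) (.one (nat_lit 4194490) .nil))),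
   .two (nat_lit 8388613) (nat_lit 159216828421) (.two (nat_lit 4194305) (nat_lit 3020947470) (.two (nat_lit 4194304) (nat_lit 9974054931) (.one (nat_lit 8388795) .nil))),
   .two (nat_lit 4605345797) (nat_lit 46409973762) (.one (nat_lit 157043130387) .nil),
   .two (nat_lit 184549381) (nat_lit 176160770) (.one (nat_lit 13203669011) .nil),
   .two (nat_lit 1847590917) (nat_lit 20637024258) (.one (nat_lit 606076950) .nil),
   .two (nat_lit 1846542341) (nat_lit 1277165570) (.one (nat_lit 158176641043) .nil),
   .two (nat_lit 184549381) (nat_lit 713031682) (.one (nat_lit 4647288852) .nil),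
   .two (nat_lit 169869316) (nat_lit 166132187140) (.two (nat_lit 2097153) (nat_lit 166132187142) (.two (nat_lit 2097152) (nat_lit 28693233675) (.one (nat_lit 20705181784) .nil))),
   .two (nat_lit 21777874949) (nat_lit 19530776581) (.two (nat_lit 2097153) (nat_lit 183946444809) (.two (nat_lit 1048576) (nat_lit 19597885462) (.one (nat_lit 158177689784) .nil))),
   .two (nat_lit 46407876612) (nat_lit 46409973763) (.two (nat_lit 4194305) (nat_lit 10336862216) (.two (nat_lit 4194304) (nat_lit 10336862223) (.one (nat_lit 19027460180) .nil))),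
   .two (nat_lit 4194308) (nat_lit 8388611) (.two (nat_lit 8388609) (nat_lit 272629768) (.two (nat_lit 8388608) (nat_lit 306184209) (.one (nat_lit 1212154037) .nil))),
   .two (nat_lit 705691652) (nat_lit 1291845634) (.one (nat_lit 11610882069) .nil),
   .two (nat_lit 159224168453) (nat_lit 68157443) (.two (nat_lit 605028353) (nat_lit 612368391) (.two (nat_lit 1048576) (nat_lit 46481276983) (.one (nat_lit 184423547025) .nil))),
   .two (nat_lit 176160771) (nat_lit 9766436867) (.two (nat_lit 9766436865) (nat_lit 8388615) (.two (nat_lit 2097152) (nat_lit 13195280416) (.one (nat_lit 2424307855) .nil))),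
   .two (nat_lit 165532401669) (nat_lit 4194306) (.one (nat_lit 46414168083) .nil),
   .two (nat_lit 183853121540) (nat_lit 4194306) (.one (nat_lit 11517558805) .nil),
   .two (nat_lit 612368387) (nat_lit 10370416643) (.two (nat_lit 9766436865) (nat_lit 612368391) (.two (nat_lit 2097152) (nat_lit 1283457057) (.one (nat_lit 2994733095) .nil))),
   .two (nat_lit 8388613) (nat_lit 11479810051) (.two (nat_lit 8388609) (nat_lit 12117344264) (.two (nat_lit 8388608) (nat_lit 742391834) (.one (nat_lit 183953784914) .nil))),
   .two (nat_lit 1276116996) (nat_lit 46407876612) (.two (nat_lit 2097153) (nat_lit 1276116998) (.two (nat_lit 2097152) (nat_lit 1276117003) (.one (nat_lit 2954887256) .nil))),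
   .two (nat_lit 4194306) (nat_lit 169869315) (.two (nat_lit 2097153) (nat_lit 4194310) (.two (nat_lit 2097152) (nat_lit 4194315) (.one (nat_lit 876609716) .nil))),
   .two (nat_lit 166129041410) (nat_lit 41943043) (.two (nat_lit 41943041) (nat_lit 11610882057) (.two (nat_lit 1048576) (nat_lit 8388619) (.one (nat_lit 2994733205) .nil))),
   .two (nat_lit 806354949) (nat_lit 809500680) (.two (nat_lit 9765388289) (nat_lit 606076943) (.two (nat_lit 2097152) (nat_lit 47584378917) (.one (nat_lit 706740320) .nil))),
   .two (nat_lit 4194308) (nat_lit 639631368) (.two (nat_lit 9766436865) (nat_lit 37748760) (.two (nat_lit 2097152) (nat_lit 37316722762) (.one (nat_lit 169869519) .nil))),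
   .two (nat_lit 4194308) (nat_lit 11476664328) (.two (nat_lit 9765388289) (nat_lit 606076943) (.two (nat_lit 1048576) (nat_lit 18928894036) (.one (nat_lit 1048672) .nil))),
   .two (nat_lit 9765388293) (nat_lit 37748744) (.two (nat_lit 8388609) (nat_lit 705691663) (.two (nat_lit 8388608) (nat_lit 705691713) (.one (nat_lit 2097366) .nil))),
   .two (nat_lit 2889875461) (nat_lit 2954887175) (.two (nat_lit 2887778307) (nat_lit 272629768) (.two (nat_lit 2097153) (nat_lit 843055136) (.two (nat_lit 2097152) (nat_lit 174755676234) (.one (nat_lit 47548727499) .nil)))),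
   .two (nat_lit 8388612) (nat_lit 1846542346) (.two (nat_lit 605028353) (nat_lit 9766436879) (.two (nat_lit 1048576) (nat_lit 3021996052) (.one (nat_lit 343933121) .nil))),
   .two (nat_lit 19596836869) (nat_lit 9781116935) (.two (nat_lit 1191182339) (nat_lit 156968681480) (.two (nat_lit 9765388289) (nat_lit 2902458383) (.two (nat_lit 1048576) (nat_lit 46523220034) (.one (nat_lit 3557818577) .nil)))),
   .two (nat_lit 19596836869) (nat_lit 620756999) (.two (nat_lit 83886083) (nat_lit 135266316) (.two (nat_lit 9765388289) (nat_lit 184549391) (.two (nat_lit 1048576) (nat_lit 16777251) (.one (nat_lit 889192544) .nil)))),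
   .two (nat_lit 10506731525) (nat_lit 46414168070) (.two (nat_lit 9768534017) (nat_lit 3464495119) (.two (nat_lit 4194304) (nat_lit 47555018770) (.one (nat_lit 1753219284) .nil))),
   .two (nat_lit 46409973764) (nat_lit 654311431) (.two (nat_lit 9781116931) (nat_lit 157038936072) (.two (nat_lit 4194305) (nat_lit 1291845647) (.two (nat_lit 4194304) (nat_lit 159266111555) (.one (nat_lit 1279262916) .nil)))),
   .two (nat_lit 184989777925) (nat_lit 75497480) (.two (nat_lit 156367847425) (nat_lit 1780482063) (.two (nat_lit 2097152) (nat_lit 158150426661) (.one (nat_lit 9869197408) .nil))),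
   .two (nat_lit 4194308) (nat_lit 3557818377) (.two (nat_lit 9766436865) (nat_lit 68157455) (.two (nat_lit 1048576) (nat_lit 46508539924) (.one (nat_lit 272629973) .nil))),
   .two (nat_lit 28690087941) (nat_lit 37748744) (.two (nat_lit 9765388289) (nat_lit 606076943) (.two (nat_lit 2097152) (nat_lit 47584378917) (.one (nat_lit 304087246) .nil))),
   .two (nat_lit 19530776579) (nat_lit 654311431) (.two (nat_lit 2097152) (nat_lit 50331729) (.one (nat_lit 3573547047) .nil)),
   .two (nat_lit 2902458372) (nat_lit 157036838919) (.two (nat_lit 156365750275) (nat_lit 9781116936) (.two (nat_lit 156365750273) (nat_lit 2902458383) (.two (nat_lit 2097152) (nat_lit 285212736) (.one (nat_lit 13237223615) .nil)))),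
   .two (nat_lit 2889875460) (nat_lit 46508539913) (.two (nat_lit 606076929) (nat_lit 2889875471) (.two (nat_lit 2097152) (nat_lit 272629778) (.one (nat_lit 158649549010) .nil))),
   .two (nat_lit 34603013) (nat_lit 13191086087) (.two (nat_lit 2097155) (nat_lit 13191086088) (.two (nat_lit 2097153) (nat_lit 4601151505) (.two (nat_lit 2097152) (nat_lit 28690088019) (.one (nat_lit 11611930720) .nil)))),
   .two (nat_lit 4194308) (nat_lit 46407876614) (.two (nat_lit 4194305) (nat_lit 46978301963) (.two (nat_lit 4194304) (nat_lit 2954887188) (.one (nat_lit 46477082824) .nil))),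
   .two (nat_lit 713031685) (nat_lit 806354951) (.two (nat_lit 2097155) (nat_lit 41943048) (.two (nat_lit 2097153) (nat_lit 41943055) (.two (nat_lit 2097152) (nat_lit 20704133190) (.one (nat_lit 11477712992) .nil)))),
   .two (nat_lit 10369368067) (nat_lit 156372041735) (.two (nat_lit 1048576) (nat_lit 37253808196) (.one (nat_lit 9940500519) .nil)),
   .two (nat_lit 721420291) (nat_lit 639631367) (.two (nat_lit 16777216) (nat_lit 3525312589) (.one (nat_lit 304087245) .nil)),
   .two (nat_lit 169869315) (nat_lit 10335813639) (.two (nat_lit 2097152) (nat_lit 2920284237) (.one (nat_lit 2886729927) .nil)),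
   .two (nat_lit 2902458373) (nat_lit 102760455) (.two (nat_lit 8388608) (nat_lit 19042140242) (.one (nat_lit 156466413606) .nil)),
   .two (nat_lit 75497477) (nat_lit 10537140233) (.two (nat_lit 612368385) (nat_lit 11476664331) (.two (nat_lit 1048576) (nat_lit 47588573204) (.one (nat_lit 2424307923) .nil))),
   .two (nat_lit 183848927235) (nat_lit 1191182344) (.two (nat_lit 4194304) (nat_lit 117440550) (.one (nat_lit 117440550) .nil)),
   .two (nat_lit 1191182339) (nat_lit 174752530439) (.two (nat_lit 1048576) (nat_lit 2969567310) (.one (nat_lit 159232557095) .nil)),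
   .two (nat_lit 46409973763) (nat_lit 10503585799) (.two (nat_lit 4194304) (nat_lit 159250382933) (.one (nat_lit 1048791) .nil)),
   .two (nat_lit 11479810051) (nat_lit 10336862215) (.two (nat_lit 4194304) (nat_lit 673185870) (.one (nat_lit 11544821799) .nil)),
   .two (nat_lit 639631365) (nat_lit 272629767) (.two (nat_lit 9766436867) (nat_lit 272629768) (.two (nat_lit 9766436865) (nat_lit 272629775) (.two (nat_lit 2097152) (nat_lit 9802088532) (.one (nat_lit 47548727493) .nil)))),
   .two (nat_lit 165526110213) (nat_lit 1745879047) (.two (nat_lit 165525061635) (nat_lit 10336862216) (.two (nat_lit 156364701697) (nat_lit 10336862223) (.two (nat_lit 1048576) (nat_lit 184417255494) (.one (nat_lit 12047089856) .nil)))),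
   .two (nat_lit 8388611) (nat_lit 34603015) (.two (nat_lit 2097152) (nat_lit 12047089732) (.one (nat_lit 11476664358) .nil)),
   .two (nat_lit 11476664324) (nat_lit 20638072838) (.two (nat_lit 606076929) (nat_lit 11476664331) (.two (nat_lit 1048576) (nat_lit 3021996052) (.one (nat_lit 1048792) .nil))),
   .two (nat_lit 10506731525) (nat_lit 9765388295) (.two (nat_lit 1048576) (nat_lit 4194393) (.one (nat_lit 2961178662) .nil)),
   .two (nat_lit 46422556675) (nat_lit 157038936071) (.two (nat_lit 1048576) (nat_lit 20753416271) (.one (nat_lit 9982443558) .nil)),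
   .two (nat_lit 176160772) (nat_lit 2887778310) (.two (nat_lit 606076929) (nat_lit 276824075) (.two (nat_lit 2097152) (nat_lit 47588573204) (.one (nat_lit 8388816) .nil))),
   .two (nat_lit 4194308) (nat_lit 176160774) (.two (nat_lit 8388609) (nat_lit 4194315) (.two (nat_lit 8388608) (nat_lit 339738644) (.one (nat_lit 3565158594) .nil))),
   .two (nat_lit 169869316) (nat_lit 721420294) (.two (nat_lit 2097153) (nat_lit 185002360843) (.two (nat_lit 16777216) (nat_lit 606076948) (.one (nat_lit 1862271178) .nil))),
   .two (nat_lit 620756997) (nat_lit 102760455) (.two (nat_lit 8388608) (nat_lit 158158815318) (.one (nat_lit 156466413606) .nil)),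
   .two (nat_lit 165526110211) (nat_lit 654311431) (.two (nat_lit 2097152) (nat_lit 822083669) (.one (nat_lit 157051519181) .nil)),
   .two (nat_lit 75497475) (nat_lit 13191086087) (.two (nat_lit 8388608) (nat_lit 742391884) (.one (nat_lit 4601151527) .nil)),
   .two (nat_lit 1276116995) (nat_lit 158083317768) (.two (nat_lit 1048576) (nat_lit 158083317798) (.one (nat_lit 158083317798) .nil)),
   .two (nat_lit 1175453699) (nat_lit 1277165576) (.two (nat_lit 1048576) (nat_lit 166230753318) (.one (nat_lit 166230753318) .nil)),
   .two (nat_lit 41943043) (nat_lit 47548727303) (.two (nat_lit 8388608) (nat_lit 47548727376) (.one (nat_lit 159217877031) .nil)),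
   .two (nat_lit 102760453) (nat_lit 117440519) (.two (nat_lit 16777216) (nat_lit 874512457) (.one (nat_lit 2424307750) .nil)),
   .two (nat_lit 4194308) (nat_lit 739246091) (.two (nat_lit 4194305) (nat_lit 1175453715) (.one (nat_lit 608174297) .nil)),
   .two (nat_lit 4194312) (nat_lit 1358954503) (.two (nat_lit 1048576) (nat_lit 21210595367) .nil),
   .two (nat_lit 2887778306) (nat_lit 10369368083) (.two (nat_lit 2097153) (nat_lit 10369368083) (.one (nat_lit 1048794) .nil)),
   .two (nat_lit 713031688) (nat_lit 174755676167) (.two (nat_lit 16777216) (nat_lit 28764536871) .nil),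
   .two (nat_lit 3539992584) (nat_lit 1914699783) (.two (nat_lit 1048576) (nat_lit 19604176934) .nil),
   .two (nat_lit 8388610) (nat_lit 11479810059) (.two (nat_lit 8388609) (nat_lit 183848927252) (.one (nat_lit 4194529) .nil)),
   .two (nat_lit 46414168066) (nat_lit 742391819) (.two (nat_lit 4194305) (nat_lit 13228834836) (.one (nat_lit 4601151712) .nil)),
   .two (nat_lit 18925748232) (nat_lit 10504634375) (.two (nat_lit 16777216) (nat_lit 3525312550) .nil),
   .two (nat_lit 2887778306) (nat_lit 10537140246) (.two (nat_lit 2097153) (nat_lit 10537140246) (.one (nat_lit 1779433695) .nil)),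
   .two (nat_lit 713031682) (nat_lit 10907287571) (.one (nat_lit 11551113447) .nil),
   .two (nat_lit 46414168066) (nat_lit 742391829) (.one (nat_lit 184419352804) .nil),
   .two (nat_lit 612368385) (nat_lit 168820781) .nil,
   .two (nat_lit 9765388289) (nat_lit 174686470157) (.one (nat_lit 874512483) .nil),
   .two (nat_lit 8388609) (nat_lit 336592942) .nil,
   .two (nat_lit 612368385) (nat_lit 21207449643) .nil,
   .two (nat_lit 605028353) (nat_lit 47555018757) (.two (nat_lit 8388608) (nat_lit 47581233198) .nil),
   .two (nat_lit 50331649) (nat_lit 10443817005) .nil,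
   .two (nat_lit 2097153) (nat_lit 11513364526) .nil,
   .two (nat_lit 8388609) (nat_lit 21814575146) .nil,
   .two (nat_lit 2097153) (nat_lit 4638900268) .nil,
   .two (nat_lit 4194305) (nat_lit 158083317765) (.two (nat_lit 1048576) (nat_lit 19029557261) (.one (nat_lit 156971827304) .nil)),
   .two (nat_lit 34603009) (nat_lit 16777221) (.two (nat_lit 16777216) (nat_lit 303038510) .nil),
   .two (nat_lit 37748737) (nat_lit 12062818309) (.two (nat_lit 2097152) (nat_lit 2319450125) (.one (nat_lit 166132187240) .nil)),
   .two (nat_lit 606076929) (nat_lit 9806282765) (.one (nat_lit 847249513) .nil),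
   .two (nat_lit 606076929) (nat_lit 19029557261) (.one (nat_lit 708837478) .nil),
   .two (nat_lit 9768534017) (nat_lit 1216348173) (.one (nat_lit 157043130418) .nil),
   .two (nat_lit 34603009) (nat_lit 20745027634) .nil,
   .two (nat_lit 34603009) (nat_lit 10940841997) (.one (nat_lit 11511267374) .nil),
   .two (nat_lit 4194305) (nat_lit 37329305614) (.one (nat_lit 68157490) .nil),
   .two (nat_lit 16777217) (nat_lit 183916036109) (.one (nat_lit 165528207462) .nil),
   .two (nat_lit 605028353) (nat_lit 218103813) (.two (nat_lit 2097152) (nat_lit 1209008178) .nil),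
   .two (nat_lit 9781116929) (nat_lit 9967763497) .nil,
   .two (nat_lit 2097153) (nat_lit 157038936104) .nil,
   .two (nat_lit 8388609) (nat_lit 352321549) (.one (nat_lit 10537140326) .nil),
   .two (nat_lit 620756993) (nat_lit 809500685) (.one (nat_lit 4634706024) .nil),
   .two (nat_lit 8388609) (nat_lit 20719861810) .nil,
   .two (nat_lit 2097153) (nat_lit 2936012850) .nil,
   .two (nat_lit 16777217) (nat_lit 166129041456) .nil,
   .two (nat_lit 620756993) (nat_lit 183949590541) (.one (nat_lit 1279262762) .nil),
   .two (nat_lit 2097153) (nat_lit 9765388338) .nil,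
   .two (nat_lit 156372041729) (nat_lit 156567076913) .nil,
   .two (nat_lit 50331649) (nat_lit 3558866957) (.one (nat_lit 9867100202) .nil),
   .two (nat_lit 9768534017) (nat_lit 169869362) .nil,
   .two (nat_lit 9781116929) (nat_lit 21811429423) .nil,
   .two (nat_lit 606076929) (nat_lit 37246468109) (.one (nat_lit 336592995) .nil),
   .two (nat_lit 9765388289) (nat_lit 183962173453) (.one (nat_lit 46523220073) .nil),
   .two (nat_lit 34603009) (nat_lit 9934209029) (.two (nat_lit 2097152) (nat_lit 638582798) (.one (nat_lit 1048619) .nil)),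
   .two (nat_lit 2097153) (nat_lit 876609578) .nil,
   .two (nat_lit 4194305) (nat_lit 46422556677) (.two (nat_lit 16777216) (nat_lit 21777874957) (.one (nat_lit 185020186728) .nil)),
   .two (nat_lit 605028353) (nat_lit 1344274446) (.one (nat_lit 606076971) .nil),
   .two (nat_lit 50331649) (nat_lit 11510218800) .nil,
   .two (nat_lit 9765388289) (nat_lit 9967763497) .nil,
   .two (nat_lit 620756993) (nat_lit 11510218800) .nil,
   .two (nat_lit 9781116929) (nat_lit 156365750314) .nil,
   .two (nat_lit 612368385) (nat_lit 2432696362) .nil,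
   .two (nat_lit 34603013) (nat_lit 1283457029) (.two (nat_lit 2097153) (nat_lit 9933160461) (.two (nat_lit 2097152) (nat_lit 2956984360) (.one (nat_lit 35651818) .nil))),
   .two (nat_lit 8388613) (nat_lit 705691656) (.two (nat_lit 2097152) (nat_lit 2956984434) .nil),
   .two (nat_lit 8388613) (nat_lit 705691663) (.one (nat_lit 807403756) .nil),
   .two (nat_lit 4194308) (nat_lit 1175453704) (.two (nat_lit 8388608) (nat_lit 68157455) (.one (nat_lit 2956984434) .nil)),
   .two (nat_lit 4194308) (nat_lit 8388613) (.two (nat_lit 8388609) (nat_lit 606076943) (.one (nat_lit 608174319) .nil)),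
   .two (nat_lit 272629765) (nat_lit 639631365) (.two (nat_lit 605028353) (nat_lit 1344274445) (.two (nat_lit 1048576) (nat_lit 69206057) (.one (nat_lit 1048813) .nil))),
   .two (nat_lit 270532613) (nat_lit 809500677) (.two (nat_lit 34603009) (nat_lit 1344274445) (.two (nat_lit 1048576) (nat_lit 708837492) .nil)),
   .two (nat_lit 705691652) (nat_lit 639631365) (.two (nat_lit 605028353) (nat_lit 2954887176) (.two (nat_lit 1048576) (nat_lit 169869336) (.one (nat_lit 1048814) .nil))),
   .two (nat_lit 41943045) (nat_lit 606076936) (.two (nat_lit 4194304) (nat_lit 11484004468) .nil),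
   .two (nat_lit 41943045) (nat_lit 169869316) (.two (nat_lit 41943041) (nat_lit 169869336) (.one (nat_lit 11484004468) .nil)),
   .two (nat_lit 605028357) (nat_lit 11484004357) (.two (nat_lit 8388609) (nat_lit 11543773207) (.one (nat_lit 2097387) .nil)),
   .two (nat_lit 4194308) (nat_lit 2894069765) (.two (nat_lit 8388609) (nat_lit 272629783) (.one (nat_lit 34603245) .nil)),
   .two (nat_lit 169869316) (nat_lit 101711885) (.two (nat_lit 1048576) (nat_lit 2954887183) (.one (nat_lit 270532841) .nil)),
   .two (nat_lit 9933160453) (nat_lit 9934209029) (.two (nat_lit 605028353) (nat_lit 9934209037) (.two (nat_lit 1048576) (nat_lit 9934209064) (.one (nat_lit 705691882) .nil))),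
   .two (nat_lit 705691652) (nat_lit 1782579205) (.two (nat_lit 37748737) (nat_lit 11543773199) (.one (nat_lit 4194420) .nil)),
   .two (nat_lit 272629765) (nat_lit 11476664328) (.two (nat_lit 2097152) (nat_lit 11543773199) (.one (nat_lit 9866051816) .nil)),
   .two (nat_lit 809500677) (nat_lit 11476664328) (.two (nat_lit 1048576) (nat_lit 2954887183) (.one (nat_lit 68157676) .nil)),
   .two (nat_lit 809500677) (nat_lit 101711877) (.two (nat_lit 605028353) (nat_lit 809500685) (.two (nat_lit 1048576) (nat_lit 809500696) (.one (nat_lit 68157675) .nil))),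
   .two (nat_lit 8388613) (nat_lit 68157448) (.two (nat_lit 4194304) (nat_lit 11543773199) (.one (nat_lit 2956984434) .nil)),
   .two (nat_lit 809500677) (nat_lit 1175453704) (.two (nat_lit 4194304) (nat_lit 739246095) (.one (nat_lit 276824180) .nil)),
   .two (nat_lit 705691652) (nat_lit 639631365) (.two (nat_lit 606076929) (nat_lit 739246147) .nil),
   .two (nat_lit 9934209029) (nat_lit 1779433487) (.one (nat_lit 1343225923) .nil),
   .two (nat_lit 809500677) (nat_lit 2887778308) (.two (nat_lit 37748737) (nat_lit 203423759) (.one (nat_lit 9934209133) .nil)),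
   .two (nat_lit 117440517) (nat_lit 46407876612) (.two (nat_lit 2097153) (nat_lit 117440527) (.one (nat_lit 4599054454) .nil)),
   .two (nat_lit 9933160453) (nat_lit 174753579023) (.one (nat_lit 4194425) .nil),
   .two (nat_lit 13187940357) (nat_lit 13191086085) (.two (nat_lit 34603009) (nat_lit 20740833294) (.two (nat_lit 1048576) (nat_lit 4194347) (.one (nat_lit 4194566) .nil))),
   .two (nat_lit 2889875460) (nat_lit 28086108165) (.two (nat_lit 34603009) (nat_lit 9768534031) (.one (nat_lit 2349858934) .nil)),
   .two (nat_lit 9948889093) (nat_lit 156968681477) (.two (nat_lit 34603009) (nat_lit 620757007) (.one (nat_lit 158158815355) .nil)),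
   .two (nat_lit 713031684) (nat_lit 9781116940) (.two (nat_lit 16777216) (nat_lit 18933088271) (.one (nat_lit 185027526783) .nil)),
   .two (nat_lit 176160773) (nat_lit 174752530440) (.two (nat_lit 8388608) (nat_lit 158176641047) (.one (nat_lit 9765388414) .nil)),
   .two (nat_lit 9781116933) (nat_lit 158143086597) (.two (nat_lit 605028353) (nat_lit 12129927176) (.two (nat_lit 2097152) (nat_lit 158646403193) .nil)),
   .two (nat_lit 41943045) (nat_lit 157035790341) (.two (nat_lit 16777217) (nat_lit 276824072) (.two (nat_lit 4194304) (nat_lit 1048620) (.one (nat_lit 1048712) .nil))),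
   .two (nat_lit 41943045) (nat_lit 1779433477) (.two (nat_lit 34603009) (nat_lit 8388623) (.one (nat_lit 174752530562) .nil)),
   .two (nat_lit 809500677) (nat_lit 3525312517) (.two (nat_lit 2097153) (nat_lit 11479810063) (.one (nat_lit 47582281793) .nil)),
   .two (nat_lit 739246085) (nat_lit 157036838917) (.two (nat_lit 605028353) (nat_lit 3525312527) (.one (nat_lit 3525312620) .nil)),
   .two (nat_lit 69206021) (nat_lit 21785214981) (.two (nat_lit 2097153) (nat_lit 104857608) (.two (nat_lit 2097152) (nat_lit 8388653) (.one (nat_lit 8388871) .nil))),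
   .two (nat_lit 11543773189) (nat_lit 159224168453) (.two (nat_lit 34603009) (nat_lit 176160783) (.one (nat_lit 1779433539) .nil)),
   .two (nat_lit 41943045) (nat_lit 11543773189) (.two (nat_lit 34603009) (nat_lit 4605345800) (.two (nat_lit 1048576) (nat_lit 8388634) (.one (nat_lit 1048840) .nil))),
   .two (nat_lit 184549380) (nat_lit 2889875464) (.two (nat_lit 16777216) (nat_lit 3527409679) (.one (nat_lit 156971827323) .nil)),
   .two (nat_lit 8388612) (nat_lit 2953838606) (.two (nat_lit 8388608) (nat_lit 19026411545) (.one (nat_lit 8388873) .nil)),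
   .two (nat_lit 184549380) (nat_lit 9866051589) (.two (nat_lit 16777217) (nat_lit 20704133132) (.two (nat_lit 16777216) (nat_lit 21207449615) (.one (nat_lit 235929722) .nil))),
   .two (nat_lit 203423749) (nat_lit 46414168069) (.two (nat_lit 2097153) (nat_lit 4605345800) (.two (nat_lit 2097152) (nat_lit 4638900247) (.one (nat_lit 2097418) .nil))),
   .two (nat_lit 4194308) (nat_lit 28086108165) (.two (nat_lit 34603009) (nat_lit 4601151496) (.two (nat_lit 1048576) (nat_lit 272629785) (.one (nat_lit 11546919168) .nil))),
   .two (nat_lit 13191086085) (nat_lit 165526110213) (.two (nat_lit 2097153) (nat_lit 19599982607) (.one (nat_lit 236978294) .nil)),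
   .two (nat_lit 4605345797) (nat_lit 166130089988) (.two (nat_lit 8388609) (nat_lit 166130089992) (.two (nat_lit 2097152) (nat_lit 8388623) (.one (nat_lit 11007950966) .nil))),
   .two (nat_lit 8388612) (nat_lit 46407876612) (.two (nat_lit 8388609) (nat_lit 3525312527) (.one (nat_lit 183947493498) .nil)),
   .two (nat_lit 721420293) (nat_lit 9867100175) (.one (nat_lit 4194571) .nil),
   .two (nat_lit 46978301957) (nat_lit 18928893967) (.one (nat_lit 20638072946) .nil),
   .two (nat_lit 16777221) (nat_lit 21207449605) (.two (nat_lit 605028353) (nat_lit 184549391) (.one (nat_lit 165525061743) .nil)),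
   .two (nat_lit 176160772) (nat_lit 21223178245) (.two (nat_lit 620756993) (nat_lit 47555018760) (.two (nat_lit 2097152) (nat_lit 28760342642) .nil)),
   .two (nat_lit 713031684) (nat_lit 156365750280) (.two (nat_lit 4194304) (nat_lit 8388654) (.one (nat_lit 8388876) .nil)),
   .two (nat_lit 46978301957) (nat_lit 10939793416) (.two (nat_lit 2097152) (nat_lit 1745879055) (.one (nat_lit 1048845) .nil)),
   .two (nat_lit 612368389) (nat_lit 157035790341) (.two (nat_lit 16777217) (nat_lit 2961178632) (.two (nat_lit 16777216) (nat_lit 21777875077) .nil)),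
   .two (nat_lit 713031685) (nat_lit 822083589) (.two (nat_lit 8388609) (nat_lit 19597885453) (.two (nat_lit 2097152) (nat_lit 166144770089) (.one (nat_lit 174768259206) .nil))),
   .two (nat_lit 8388613) (nat_lit 18925748232) (.two (nat_lit 16777216) (nat_lit 20745027702) .nil),
   .two (nat_lit 8388612) (nat_lit 11546918917) (.two (nat_lit 37748737) (nat_lit 813694984) (.two (nat_lit 16777216) (nat_lit 184417255558) .nil)),
   .two (nat_lit 34603013) (nat_lit 176160773) (.two (nat_lit 8388609) (nat_lit 303038507) (.one (nat_lit 337641731) .nil)),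
   .two (nat_lit 184549380) (nat_lit 2894069765) (.two (nat_lit 8388609) (nat_lit 9948889103) (.one (nat_lit 10906239092) .nil)),
   .two (nat_lit 16777220) (nat_lit 47555018757) (.two (nat_lit 8388609) (nat_lit 4613734408) (.two (nat_lit 8388608) (nat_lit 159216828461) (.one (nat_lit 47547678854) .nil))),
   .two (nat_lit 184549380) (nat_lit 28691136520) (.two (nat_lit 8388608) (nat_lit 1411383338) (.one (nat_lit 2097422) .nil)),
   .two (nat_lit 16777221) (nat_lit 806354949) (.two (nat_lit 2097153) (nat_lit 672137228) (.two (nat_lit 16777216) (nat_lit 772800537) (.one (nat_lit 16777487) .nil))),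
   .two (nat_lit 2097157) (nat_lit 18933088264) (.two (nat_lit 1048576) (nat_lit 310378542) (.one (nat_lit 8388880) .nil)),
   .two (nat_lit 2954887173) (nat_lit 135266316) (.two (nat_lit 2097152) (nat_lit 772800577) .nil),
   .two (nat_lit 184549381) (nat_lit 1276117000) (.two (nat_lit 4194304) (nat_lit 174768259208) .nil),
   .two (nat_lit 9765388293) (nat_lit 165526110216) (.two (nat_lit 8388608) (nat_lit 9765388406) .nil),
   .two (nat_lit 41943045) (nat_lit 9936306190) (.two (nat_lit 16777216) (nat_lit 174759870507) (.one (nat_lit 8388881) .nil)),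
   .two (nat_lit 176160772) (nat_lit 3472883717) (.two (nat_lit 16777217) (nat_lit 612368399) (.one (nat_lit 19529728121) .nil)),
   .two (nat_lit 16777221) (nat_lit 606076936) (.two (nat_lit 16777216) (nat_lit 169869337) (.one (nat_lit 46980399362) .nil)),
   .two (nat_lit 2887778308) (nat_lit 165525061640) (.two (nat_lit 16777216) (nat_lit 1176502390) .nil),
   .two (nat_lit 721420293) (nat_lit 1277165576) (.two (nat_lit 16777216) (nat_lit 20638072847) (.one (nat_lit 2418016508) .nil)),
   .two (nat_lit 169869316) (nat_lit 822083589) (.two (nat_lit 37748737) (nat_lit 3458203656) (.two (nat_lit 4194304) (nat_lit 47596961925) .nil)),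
   .two (nat_lit 270532613) (nat_lit 822083589) (.two (nat_lit 34603009) (nat_lit 19094568973) (.two (nat_lit 1048576) (nat_lit 28101836934) .nil)),
   .two (nat_lit 176160773) (nat_lit 3525312517) (.two (nat_lit 2097153) (nat_lit 8388623) (.one (nat_lit 1182793850) .nil)),
   .two (nat_lit 176160772) (nat_lit 183848927237) (.two (nat_lit 4194305) (nat_lit 47555018767) (.one (nat_lit 158079123589) .nil)),
   .two (nat_lit 50331653) (nat_lit 806354949) (.two (nat_lit 34603009) (nat_lit 174701150222) (.two (nat_lit 1048576) (nat_lit 318767147) (.one (nat_lit 16777491) .nil))),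
   .two (nat_lit 46409973764) (nat_lit 20644364292) (.two (nat_lit 612368385) (nat_lit 156367847439) (.one (nat_lit 156569174139) .nil)),
   .two (nat_lit 41943045) (nat_lit 46407876612) (.two (nat_lit 41943041) (nat_lit 46978301960) (.two (nat_lit 4194304) (nat_lit 2887778329) (.one (nat_lit 10510925960) .nil))),
   .two (nat_lit 270532613) (nat_lit 822083589) (.two (nat_lit 34603009) (nat_lit 19597885453) (.two (nat_lit 1048576) (nat_lit 158091706413) (.one (nat_lit 16777492) .nil))),
   .two (nat_lit 2889875461) (nat_lit 28690087941) (.two (nat_lit 4194305) (nat_lit 166196150284) (.two (nat_lit 4194304) (nat_lit 28757196815) (.one (nat_lit 9902751877) .nil))),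
   .two (nat_lit 50331653) (nat_lit 2887778308) (.two (nat_lit 2097153) (nat_lit 721420303) (.one (nat_lit 46508540031) .nil)),
   .two (nat_lit 285212677) (nat_lit 21778923525) (.two (nat_lit 37748737) (nat_lit 4647288855) (.one (nat_lit 2097429) .nil)),
   .two (nat_lit 176160772) (nat_lit 1277165572) (.two (nat_lit 606076929) (nat_lit 612368392) (.two (nat_lit 16777216) (nat_lit 13195280507) .nil)),
   .two (nat_lit 16777221) (nat_lit 270532613) (.two (nat_lit 2097153) (nat_lit 184549391) (.one (nat_lit 9781117195) .nil)),
   .two (nat_lit 9765388293) (nat_lit 165526110223) (.one (nat_lit 1175453817) .nil),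
   .two (nat_lit 11559501829) (nat_lit 46414168069) (.two (nat_lit 8388609) (nat_lit 183962173465) (.one (nat_lit 8388886) .nil)),
   .two (nat_lit 713031684) (nat_lit 1291845636) (.two (nat_lit 16777217) (nat_lit 21785214984) (.two (nat_lit 1048576) (nat_lit 174759870479) (.one (nat_lit 2332033160) .nil))),
   .two (nat_lit 4194308) (nat_lit 2316304397) (.two (nat_lit 1048576) (nat_lit 4601151503) (.one (nat_lit 9869197562) .nil)),
   .two (nat_lit 272629765) (nat_lit 9940500494) (.two (nat_lit 16777216) (nat_lit 20707278891) (.one (nat_lit 20707279110) .nil)),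
   .two (nat_lit 2954887173) (nat_lit 19142803469) (.two (nat_lit 16777216) (nat_lit 158647451693) (.one (nat_lit 740294932) .nil)),
   .two (nat_lit 184549381) (nat_lit 638582789) (.two (nat_lit 8388609) (nat_lit 165525061647) (.one (nat_lit 1048855) .nil)),
   .two (nat_lit 156367847429) (nat_lit 174753579013) (.two (nat_lit 9766436865) (nat_lit 18928893967) (.one (nat_lit 4194441) .nil)),
   .two (nat_lit 169869316) (nat_lit 13195280389) (.two (nat_lit 41943041) (nat_lit 2954887176) (.two (nat_lit 16777216) (nat_lit 18933088377) .nil)),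
   .two (nat_lit 16777221) (nat_lit 158144135173) (.two (nat_lit 606076929) (nat_lit 16777231) (.one (nat_lit 4028629116) .nil)),
   .two (nat_lit 47555018757) (nat_lit 10504634373) (.two (nat_lit 9766436865) (nat_lit 46414168079) (.one (nat_lit 679477492) .nil)),
   .two (nat_lit 50331653) (nat_lit 2889875460) (.two (nat_lit 4194305) (nat_lit 721420303) (.one (nat_lit 21210595452) .nil)),
   .two (nat_lit 4194308) (nat_lit 156532473869) (.two (nat_lit 8388608) (nat_lit 4194351) (.one (nat_lit 4194584) .nil)),
   .two (nat_lit 176160772) (nat_lit 9936306190) (.two (nat_lit 4194304) (nat_lit 159224168463) (.one (nat_lit 10007609609) .nil)),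
   .two (nat_lit 9948889093) (nat_lit 3525312517) (.two (nat_lit 2097153) (nat_lit 83886095) (.one (nat_lit 184417255548) .nil)),
   .two (nat_lit 16777220) (nat_lit 243269645) (.two (nat_lit 8388608) (nat_lit 4647288879) (.one (nat_lit 4647289112) .nil)),
   .two (nat_lit 270532613) (nat_lit 809500677) (.two (nat_lit 16777217) (nat_lit 169869320) (.two (nat_lit 4194304) (nat_lit 2953838636) (.one (nat_lit 1048859) .nil))),
   .two (nat_lit 8388612) (nat_lit 10940841997) (.two (nat_lit 2097152) (nat_lit 10443817002) (.one (nat_lit 13228835063) .nil)),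
   .two (nat_lit 605028357) (nat_lit 47555018757) (.two (nat_lit 4194305) (nat_lit 20637024270) (.two (nat_lit 4194304) (nat_lit 10343153785) .nil)),
   .two (nat_lit 8388613) (nat_lit 156364701701) (.two (nat_lit 16777217) (nat_lit 672137258) (.one (nat_lit 12147753202) .nil)),
   .two (nat_lit 50331653) (nat_lit 183853121540) (.two (nat_lit 41943041) (nat_lit 11492392975) (.one (nat_lit 10385096827) .nil)),
   .two (nat_lit 169869316) (nat_lit 166132187141) (.two (nat_lit 4194305) (nat_lit 2954887183) (.one (nat_lit 1379926140) .nil)),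
   .two (nat_lit 16777220) (nat_lit 46980399109) (.two (nat_lit 4194305) (nat_lit 16777231) (.one (nat_lit 3036676163) .nil)),
   .two (nat_lit 184416206853) (nat_lit 174753579013) (.two (nat_lit 34603009) (nat_lit 673185804) (.two (nat_lit 1048576) (nat_lit 10336862223) (.one (nat_lit 2097438) .nil))),
   .two (nat_lit 285212677) (nat_lit 11476664324) (.two (nat_lit 16777217) (nat_lit 12114198536) (.two (nat_lit 4194304) (nat_lit 50331772) .nil)),
   .two (nat_lit 183848927236) (nat_lit 158075977733) (.two (nat_lit 34603009) (nat_lit 156367847439) (.one (nat_lit 11546919040) .nil)),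
   .two (nat_lit 46978301957) (nat_lit 10335813637) (.two (nat_lit 2097153) (nat_lit 2886729742) (.two (nat_lit 2097152) (nat_lit 19596836888) (.one (nat_lit 2097440) .nil))),
   .two (nat_lit 4194308) (nat_lit 166129041416) (.two (nat_lit 8388608) (nat_lit 9768534062) (.one (nat_lit 4194594) .nil)),
   .two (nat_lit 50331653) (nat_lit 806354949) (.two (nat_lit 34603009) (nat_lit 889192461) (.two (nat_lit 1048576) (nat_lit 10336862232) (.one (nat_lit 16777507) .nil))),
   .two (nat_lit 2902458373) (nat_lit 9765388293) (.two (nat_lit 8388609) (nat_lit 9798942733) (.two (nat_lit 8388608) (nat_lit 46992982057) (.one (nat_lit 16777508) .nil))),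
   .two (nat_lit 272629765) (nat_lit 10940841989) (.two (nat_lit 605028353) (nat_lit 46508539918) (.two (nat_lit 1048576) (nat_lit 706740267) (.one (nat_lit 11578376467) .nil))),
   .two (nat_lit 9934209029) (nat_lit 1216348173) (.two (nat_lit 16777216) (nat_lit 12115247147) (.one (nat_lit 2097445) .nil)),
   .two (nat_lit 639631365) (nat_lit 28093448207) (.one (nat_lit 8388924) .nil),
   .two (nat_lit 159224168453) (nat_lit 28758245381) (.two (nat_lit 9766436865) (nat_lit 21785214989) (.two (nat_lit 2097152) (nat_lit 21818769434) (.one (nat_lit 2097469) .nil))),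
   .two (nat_lit 165532401669) (nat_lit 1847590917) (.two (nat_lit 606076929) (nat_lit 1753219087) (.one (nat_lit 184423547123) .nil)),
   .two (nat_lit 83886085) (nat_lit 183853121551) (.one (nat_lit 11525947528) .nil),
   .two (nat_lit 705691652) (nat_lit 157038936069) (.two (nat_lit 34603009) (nat_lit 46409973775) (.one (nat_lit 1846542466) .nil)),
   .two (nat_lit 184549380) (nat_lit 10504634373) (.two (nat_lit 9766436865) (nat_lit 620757007) (.one (nat_lit 807403653) .nil)),
   .two (nat_lit 713031685) (nat_lit 20638072836) (.two (nat_lit 8388609) (nat_lit 158144135183) (.one (nat_lit 1210056832) .nil)),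
   .two (nat_lit 156372041733) (nat_lit 21207449605) (.two (nat_lit 605028353) (nat_lit 11014242330) (.one (nat_lit 20704133241) .nil)),
   .two (nat_lit 28093448197) (nat_lit 28690087941) (.two (nat_lit 34603009) (nat_lit 10343153679) (.one (nat_lit 8388926) .nil)),
   .two (nat_lit 708837381) (nat_lit 21785214981) (.two (nat_lit 606076929) (nat_lit 12050235406) (.two (nat_lit 2097152) (nat_lit 21818769449) (.one (nat_lit 1317011748) .nil))),
   .two (nat_lit 34603013) (nat_lit 156372041743) (.one (nat_lit 166129041524) .nil),
   .two (nat_lit 2956984325) (nat_lit 10385096712) (.two (nat_lit 1048576) (nat_lit 10942939151) (.one (nat_lit 4194623) .nil)),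
   .two (nat_lit 171966469) (nat_lit 157036838927) (.one (nat_lit 68157561) .nil),
   .two (nat_lit 10506731525) (nat_lit 158144135173) (.two (nat_lit 606076929) (nat_lit 156569174028) (.two (nat_lit 2097152) (nat_lit 1178599439) (.one (nat_lit 4194624) .nil))),
   .two (nat_lit 2902458372) (nat_lit 21781020686) (.two (nat_lit 4194304) (nat_lit 10552868911) (.one (nat_lit 285212985) .nil)),
   .two (nat_lit 8388612) (nat_lit 11546918917) (.two (nat_lit 8388609) (nat_lit 21812477965) (.two (nat_lit 2097152) (nat_lit 3527409788) .nil)),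
   .two (nat_lit 612368389) (nat_lit 174752530437) (.two (nat_lit 9765388289) (nat_lit 75497487) (.one (nat_lit 2349858937) .nil)),
   .two (nat_lit 13187940357) (nat_lit 10343153672) (.two (nat_lit 2097152) (nat_lit 166129041423) (.one (nat_lit 183912890614) .nil)),
   .two (nat_lit 176160772) (nat_lit 742391822) (.two (nat_lit 16777216) (nat_lit 641728527) (.one (nat_lit 109052038) .nil)),
   .two (nat_lit 12047089669) (nat_lit 10940841992) (.two (nat_lit 1048576) (nat_lit 157036838927) (.one (nat_lit 11611930875) .nil)),
   .two (nat_lit 605028357) (nat_lit 2969567237) (.two (nat_lit 4194305) (nat_lit 1276117006) (.two (nat_lit 4194304) (nat_lit 620757041) (.one (nat_lit 4194625) .nil))),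
   .two (nat_lit 721420293) (nat_lit 28760342533) (.two (nat_lit 41943041) (nat_lit 138412044) (.two (nat_lit 2097152) (nat_lit 1413480492) (.one (nat_lit 2988441853) .nil))),
   .two (nat_lit 654311429) (nat_lit 184986632197) (.two (nat_lit 34603009) (nat_lit 654311432) (.two (nat_lit 8388608) (nat_lit 1779433605) .nil)),
   .two (nat_lit 9781116933) (nat_lit 1847590917) (.two (nat_lit 606076929) (nat_lit 117440527) (.one (nat_lit 21793603721) .nil)),
   .two (nat_lit 13195280389) (nat_lit 10940841989) (.two (nat_lit 606076929) (nat_lit 780140569) (.one (nat_lit 41943352) .nil)),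
   .two (nat_lit 11559501829) (nat_lit 1916796933) (.two (nat_lit 9768534017) (nat_lit 11559501832) (.two (nat_lit 1048576) (nat_lit 2319450228) .nil)),
   .two (nat_lit 46414168068) (nat_lit 1847590917) (.two (nat_lit 606076929) (nat_lit 156372041743) (.one (nat_lit 243269880) .nil)),
   .two (nat_lit 50331653) (nat_lit 174752530437) (.two (nat_lit 50331649) (nat_lit 135266316) (.two (nat_lit 1048576) (nat_lit 16777231) (.one (nat_lit 318767239) .nil))),
   .two (nat_lit 9933160453) (nat_lit 165540790286) (.two (nat_lit 4194304) (nat_lit 243269655) (.one (nat_lit 1048898) .nil)),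
   .two (nat_lit 16777220) (nat_lit 47550824453) (.two (nat_lit 4194305) (nat_lit 9799991308) (.two (nat_lit 2097152) (nat_lit 10335813672) (.one (nat_lit 235929891) .nil))),
   .two (nat_lit 184993972229) (nat_lit 9936306190) (.two (nat_lit 4194304) (nat_lit 20745027628) (.one (nat_lit 47550824701) .nil)),
   .two (nat_lit 46414168068) (nat_lit 1847590917) (.two (nat_lit 606076929) (nat_lit 156372041736) (.two (nat_lit 16777216) (nat_lit 183853121561) (.one (nat_lit 18933088513) .nil))),
   .two (nat_lit 809500677) (nat_lit 184993972229) (.two (nat_lit 41943041) (nat_lit 11479810056) (.two (nat_lit 16777216) (nat_lit 104857615) (.one (nat_lit 8388935) .nil))),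
   .two (nat_lit 4194308) (nat_lit 606076942) (.two (nat_lit 16777216) (nat_lit 876609583) (.one (nat_lit 2889875769) .nil)),
   .two (nat_lit 184549381) (nat_lit 9967763468) (.two (nat_lit 16777216) (nat_lit 20638072847) (.one (nat_lit 11626610802) .nil)),
   .two (nat_lit 2887778308) (nat_lit 11492392965) (.two (nat_lit 16777217) (nat_lit 9766436872) (.two (nat_lit 8388608) (nat_lit 156466413593) (.one (nat_lit 28758245690) .nil))),
   .two (nat_lit 713031685) (nat_lit 159217876997) (.two (nat_lit 8388609) (nat_lit 1277165576) (.two (nat_lit 1048576) (nat_lit 158177689625) (.one (nat_lit 8388936) .nil))),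
   .two (nat_lit 1782579205) (nat_lit 158143086597) (.two (nat_lit 605028353) (nat_lit 10506731532) (.two (nat_lit 1048576) (nat_lit 10506731535) (.one (nat_lit 4194633) .nil))),
   .two (nat_lit 1358954501) (nat_lit 166130089997) (.two (nat_lit 2097152) (nat_lit 11525947436) (.one (nat_lit 12129927451) .nil)),
   .two (nat_lit 4601151493) (nat_lit 10940841989) (.two (nat_lit 605028353) (nat_lit 21778923533) (.two (nat_lit 1048576) (nat_lit 47582281852) .nil)),
   .two (nat_lit 822083589) (nat_lit 28690087944) (.two (nat_lit 1048576) (nat_lit 3539992600) (.one (nat_lit 2953838898) .nil)),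
   .two (nat_lit 169869316) (nat_lit 2894069765) (.two (nat_lit 8388609) (nat_lit 2988441625) (.one (nat_lit 165525061949) .nil)),
   .two (nat_lit 2887778308) (nat_lit 28757196805) (.two (nat_lit 16777217) (nat_lit 11476664335) (.one (nat_lit 2097487) .nil)),
   .two (nat_lit 2954887173) (nat_lit 159216828421) (.two (nat_lit 2097153) (nat_lit 46507491342) (.two (nat_lit 4194304) (nat_lit 874512427) (.one (nat_lit 174686470417) .nil))),
   .two (nat_lit 157036838917) (nat_lit 158075977733) (.two (nat_lit 34603009) (nat_lit 157036838925) (.two (nat_lit 16777216) (nat_lit 157035790380) (.one (nat_lit 235929877) .nil))),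
   .two (nat_lit 11543773189) (nat_lit 11492392963) (.two (nat_lit 50331649) (nat_lit 739246088) (.two (nat_lit 16777216) (nat_lit 739246095) (.one (nat_lit 11543773219) .nil))),
   .two (nat_lit 705691652) (nat_lit 11492392963) (.two (nat_lit 50331649) (nat_lit 11543773192) (.two (nat_lit 16777216) (nat_lit 11543773199) (.one (nat_lit 739246115) .nil))),
   .two (nat_lit 13195280389) (nat_lit 68157443) (.two (nat_lit 605028353) (nat_lit 183853121544) (.two (nat_lit 1048576) (nat_lit 183853121551) (.one (nat_lit 13195280419) .nil))),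
   .two (nat_lit 184549380) (nat_lit 612368387) (.two (nat_lit 612368385) (nat_lit 620757000) (.two (nat_lit 8388608) (nat_lit 620757007) (.one (nat_lit 16777390) .nil))),
   .two (nat_lit 11484004355) (nat_lit 183845781507) (.two (nat_lit 41943041) (nat_lit 13187940359) (.two (nat_lit 16777216) (nat_lit 12148801681) (.one (nat_lit 12148801681) .nil))),
   .two (nat_lit 2889875458) (nat_lit 156372041731) (.two (nat_lit 4194305) (nat_lit 156372041740) (.two (nat_lit 4194304) (nat_lit 20644364307) (.one (nat_lit 4034920572) .nil))),
   .two (nat_lit 176160772) (nat_lit 156367847427) (.two (nat_lit 8388609) (nat_lit 9802088460) (.two (nat_lit 8388608) (nat_lit 3024093213) (.one (nat_lit 8388785) .nil))),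
   .two (nat_lit 1344274437) (nat_lit 20644364291) (.two (nat_lit 606076929) (nat_lit 9906946061) (.two (nat_lit 2097152) (nat_lit 183949590547) (.one (nat_lit 4194647) .nil))),
   .two (nat_lit 156372041733) (nat_lit 11479810051) (.two (nat_lit 37748737) (nat_lit 10343153676) (.two (nat_lit 4194304) (nat_lit 20745027613) (.one (nat_lit 2894069833) .nil))),
   .two (nat_lit 11479810053) (nat_lit 1191182339) (.two (nat_lit 9781116929) (nat_lit 12117344268) (.two (nat_lit 16777216) (nat_lit 37316722717) (.one (nat_lit 174688567378) .nil))),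
   .two (nat_lit 41943043) (nat_lit 18926796803) (.two (nat_lit 41943041) (nat_lit 1746927623) (.two (nat_lit 8388608) (nat_lit 773849142) (.one (nat_lit 2418016415) .nil))),
   .two (nat_lit 1277165572) (nat_lit 19529728003) (.two (nat_lit 156364701697) (nat_lit 28758245384) (.two (nat_lit 1048576) (nat_lit 3558866990) (.one (nat_lit 156567076952) .nil))),
   .two (nat_lit 11476664322) (nat_lit 1277165572) (.two (nat_lit 34603009) (nat_lit 158144135176) (.two (nat_lit 1048576) (nat_lit 158144135183) (.one (nat_lit 20638072869) .nil))),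
   .two (nat_lit 183848927236) (nat_lit 20637024259) (.two (nat_lit 605028353) (nat_lit 18928893960) (.two (nat_lit 1048576) (nat_lit 138412058) (.one (nat_lit 12620660896) .nil))),
   .two (nat_lit 19596836869) (nat_lit 83886083) (.two (nat_lit 9765388289) (nat_lit 1358954508) (.two (nat_lit 1048576) (nat_lit 83886120) (.one (nat_lit 11559501893) .nil))),
   .two (nat_lit 806354949) (nat_lit 183853121539) (.two (nat_lit 8388609) (nat_lit 773849102) (.two (nat_lit 8388608) (nat_lit 35651638) (.one (nat_lit 1779433557) .nil))),
   .two (nat_lit 47548727301) (nat_lit 2889875459) (.two (nat_lit 4194305) (nat_lit 47582281740) (.two (nat_lit 4194304) (nat_lit 9934209067) (.one (nat_lit 19094569093) .nil))),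
   .two (nat_lit 2969567237) (nat_lit 9765388291) (.two (nat_lit 8388609) (nat_lit 150994958) (.two (nat_lit 8388608) (nat_lit 1048632) (.one (nat_lit 159224168525) .nil))),
   .two (nat_lit 11479810053) (nat_lit 1175453699) (.two (nat_lit 9765388289) (nat_lit 174755676174) (.two (nat_lit 1048576) (nat_lit 13191086132) (.one (nat_lit 21207449759) .nil))),
   .two (nat_lit 184549380) (nat_lit 75497475) (.two (nat_lit 612368385) (nat_lit 620757000) (.two (nat_lit 8388608) (nat_lit 620757007) (.one (nat_lit 1392508965) .nil))),
   .two (nat_lit 272629765) (nat_lit 183845781508) (.two (nat_lit 4194305) (nat_lit 12047089672) (.two (nat_lit 4194304) (nat_lit 12617515025) (.one (nat_lit 12620660869) .nil))),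
   .two (nat_lit 2902458370) (nat_lit 176160772) (.two (nat_lit 16777217) (nat_lit 612368392) (.two (nat_lit 16777216) (nat_lit 612368399) (.one (nat_lit 612368420) .nil))),
   .two (nat_lit 184549378) (nat_lit 8388612) (.two (nat_lit 16777217) (nat_lit 41943048) (.two (nat_lit 16777216) (nat_lit 41943055) (.one (nat_lit 185027526693) .nil))),
   .two (nat_lit 11492392964) (nat_lit 18928893955) (.two (nat_lit 156367847425) (nat_lit 754974728) (.two (nat_lit 4194304) (nat_lit 185002360858) (.one (nat_lit 1426063520) .nil))),
   .two (nat_lit 183848927236) (nat_lit 20637024259) (.two (nat_lit 605028353) (nat_lit 18928893960) (.two (nat_lit 1048576) (nat_lit 19599982616) (.one (nat_lit 10909384861) .nil))),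
   .two (nat_lit 2887778308) (nat_lit 19529728003) (.two (nat_lit 156364701697) (nat_lit 639631368) (.two (nat_lit 1048576) (nat_lit 1914699809) (.one (nat_lit 156532473938) .nil))),
   .two (nat_lit 2894069763) (nat_lit 46409973763) (.two (nat_lit 8388609) (nat_lit 159216828423) (.two (nat_lit 2097152) (nat_lit 1276117044) (.one (nat_lit 156566028452) .nil))),
   .two (nat_lit 8388612) (nat_lit 16777219) (.two (nat_lit 16777217) (nat_lit 41943048) (.two (nat_lit 16777216) (nat_lit 41943055) (.one (nat_lit 185027526693) .nil))),
   .two (nat_lit 176160770) (nat_lit 16777220) (.two (nat_lit 8388609) (nat_lit 16777224) (.two (nat_lit 8388608) (nat_lit 16777231) (.one (nat_lit 47596961829) .nil))),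
   .two (nat_lit 2956984325) (nat_lit 156372041731) (.two (nat_lit 4194305) (nat_lit 156372041740) (.two (nat_lit 1048576) (nat_lit 9806282783) (.one (nat_lit 46514831449) .nil))),
   .two (nat_lit 8388612) (nat_lit 721420291) (.two (nat_lit 50331649) (nat_lit 41943048) (.two (nat_lit 16777216) (nat_lit 41943055) (.one (nat_lit 11584667685) .nil))),
   .two (nat_lit 2902458372) (nat_lit 4194307) (.two (nat_lit 4194305) (nat_lit 654311432) (.two (nat_lit 4194304) (nat_lit 654311439) (.one (nat_lit 28806479909) .nil))),
   .two (nat_lit 9781116933) (nat_lit 606076931) (.two (nat_lit 606076929) (nat_lit 1191182344) (.two (nat_lit 2097152) (nat_lit 117440536) (.one (nat_lit 13222543449) .nil))),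
   .two (nat_lit 28086108165) (nat_lit 1291845635) (.two (nat_lit 34603009) (nat_lit 9948889096) (.two (nat_lit 1048576) (nat_lit 184549387) (.one (nat_lit 16777560) .nil))),
   .two (nat_lit 171966469) (nat_lit 156365750275) (.two (nat_lit 4194305) (nat_lit 11007950860) (.two (nat_lit 1048576) (nat_lit 157036838943) (.one (nat_lit 9934209110) .nil))),
   .two (nat_lit 184549380) (nat_lit 28758245381) (.two (nat_lit 9766436865) (nat_lit 620757000) (.two (nat_lit 2097152) (nat_lit 2969567243) (.one (nat_lit 1847591033) .nil))),
   .two (nat_lit 8388612) (nat_lit 50331651) (.two (nat_lit 50331649) (nat_lit 8388616) (.two (nat_lit 16777216) (nat_lit 8388623) (.one (nat_lit 8388788) .nil))),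
   .two (nat_lit 612368389) (nat_lit 46409973763) (.two (nat_lit 41943041) (nat_lit 3527409672) (.two (nat_lit 8388608) (nat_lit 171966497) (.one (nat_lit 4034920537) .nil))),
   .two (nat_lit 20644364290) (nat_lit 4194308) (.two (nat_lit 612368385) (nat_lit 4601151496) (.two (nat_lit 8388608) (nat_lit 4601151503) (.one (nat_lit 4030726181) .nil))),
   .two (nat_lit 16777220) (nat_lit 8388611) (.two (nat_lit 8388609) (nat_lit 16777224) (.two (nat_lit 8388608) (nat_lit 16777231) (.one (nat_lit 47596961829) .nil))),
   .two (nat_lit 156968681477) (nat_lit 10385096707) (.two (nat_lit 34603009) (nat_lit 654311432) (.two (nat_lit 1048576) (nat_lit 2902458379) (.one (nat_lit 16777561) .nil))),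
   .two (nat_lit 11476664324) (nat_lit 165526110211) (.two (nat_lit 156365750273) (nat_lit 101711880) (.two (nat_lit 2097152) (nat_lit 3524263964) (.one (nat_lit 11544821849) .nil))),
   .two (nat_lit 612368389) (nat_lit 4194307) (.two (nat_lit 41943041) (nat_lit 2889875464) (.two (nat_lit 8388608) (nat_lit 3527409688) (.one (nat_lit 13228834902) .nil))),
   .two (nat_lit 102760453) (nat_lit 721420291) (.two (nat_lit 41943041) (nat_lit 28087156744) (.two (nat_lit 8388608) (nat_lit 165526110232) (.one (nat_lit 1176502436) .nil))),
   .two (nat_lit 2902458372) (nat_lit 705691651) (.two (nat_lit 34603009) (nat_lit 654311432) (.two (nat_lit 1048576) (nat_lit 1929379873) (.one (nat_lit 47581233241) .nil))),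
   .two (nat_lit 16777220) (nat_lit 612368387) (.two (nat_lit 612368385) (nat_lit 16777224) (.two (nat_lit 8388608) (nat_lit 16777231) (.one (nat_lit 3003121701) .nil))),
   .two (nat_lit 158083317765) (nat_lit 37748739) (.two (nat_lit 37748737) (nat_lit 157043130377) (.two (nat_lit 4194304) (nat_lit 11618222099) (.one (nat_lit 4194650) .nil))),
   .two (nat_lit 183845781508) (nat_lit 713031683) (.two (nat_lit 41943041) (nat_lit 1745879048) (.two (nat_lit 8388608) (nat_lit 1745879055) (.one (nat_lit 174752530469) .nil))),
   .two (nat_lit 705691652) (nat_lit 1191182339) (.two (nat_lit 9781116929) (nat_lit 11543773192) (.two (nat_lit 16777216) (nat_lit 11543773199) (.one (nat_lit 739246115) .nil))),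
   .two (nat_lit 16777221) (nat_lit 158144135173) (.two (nat_lit 606076929) (nat_lit 16777224) (.two (nat_lit 2097152) (nat_lit 2969567243) (.one (nat_lit 4028629116) .nil))),
   .two (nat_lit 117440517) (nat_lit 4194307) (.two (nat_lit 4194305) (nat_lit 1795162120) (.two (nat_lit 4194304) (nat_lit 1291845643) (.one (nat_lit 37249614122) .nil))),
   .two (nat_lit 46409973762) (nat_lit 1175453699) (.two (nat_lit 156367847425) (nat_lit 19093520396) (.two (nat_lit 4194304) (nat_lit 158176641043) (.one (nat_lit 13187940536) .nil))),
   .two (nat_lit 620756997) (nat_lit 9768534019) (.two (nat_lit 50331649) (nat_lit 9802088460) (.two (nat_lit 4194304) (nat_lit 83886095) (.one (nat_lit 889192625) .nil))),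
   .two (nat_lit 8388612) (nat_lit 16777219) (.two (nat_lit 16777217) (nat_lit 41943048) (.two (nat_lit 16777216) (nat_lit 41943055) (.one (nat_lit 880804020) .nil))),
   .two (nat_lit 16777221) (nat_lit 4194307) (.two (nat_lit 16777217) (nat_lit 4634705932) (.two (nat_lit 16777216) (nat_lit 157038936083) (.one (nat_lit 19130220882) .nil))),
   .two (nat_lit 10343153669) (nat_lit 1277165571) (.two (nat_lit 606076929) (nat_lit 156372041740) (.two (nat_lit 2097152) (nat_lit 1753219112) (.one (nat_lit 183853121605) .nil))),
   .two (nat_lit 612368389) (nat_lit 156365750275) (.two (nat_lit 156365750273) (nat_lit 75497480) (.two (nat_lit 2097152) (nat_lit 11551113248) (.one (nat_lit 35651673) .nil))),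
   .two (nat_lit 705691652) (nat_lit 9781116931) (.two (nat_lit 9781116929) (nat_lit 11543773192) (.two (nat_lit 16777216) (nat_lit 739246096) (.one (nat_lit 21811429414) .nil))),
   .two (nat_lit 705691652) (nat_lit 19532873731) (.two (nat_lit 156367847425) (nat_lit 184986632200) (.two (nat_lit 4194304) (nat_lit 269484060) (.one (nat_lit 138412118) .nil))),
   .two (nat_lit 169869316) (nat_lit 8388611) (.two (nat_lit 8388609) (nat_lit 2954887176) (.two (nat_lit 8388608) (nat_lit 28691136560) (.one (nat_lit 11544821932) .nil))),
   .two (nat_lit 16777220) (nat_lit 75497475) (.two (nat_lit 612368385) (nat_lit 16777224) (.two (nat_lit 8388608) (nat_lit 16777231) (.one (nat_lit 3003121701) .nil))),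
   .two (nat_lit 16777221) (nat_lit 176160771) (.two (nat_lit 8388609) (nat_lit 184549384) (.two (nat_lit 8388608) (nat_lit 184549391) (.one (nat_lit 318767141) .nil))),
   .two (nat_lit 16777220) (nat_lit 156367847427) (.two (nat_lit 156367847425) (nat_lit 16777224) (.two (nat_lit 4194304) (nat_lit 4647288858) (.one (nat_lit 3539992664) .nil))),
   .two (nat_lit 46409973764) (nat_lit 612368387) (.two (nat_lit 612368385) (nat_lit 46980399112) (.two (nat_lit 8388608) (nat_lit 46409973786) (.one (nat_lit 10338959520) .nil))),
   .two (nat_lit 12047089669) (nat_lit 174753579013) (.two (nat_lit 34603009) (nat_lit 11007950861) (.two (nat_lit 1048576) (nat_lit 46978301963) (.one (nat_lit 2097500) .nil))),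
   .two (nat_lit 184549380) (nat_lit 1175453699) (.two (nat_lit 620756993) (nat_lit 1947205644) (.two (nat_lit 16777216) (nat_lit 605028381) (.one (nat_lit 9933160530) .nil))),
   .two (nat_lit 9948889093) (nat_lit 713031683) (.two (nat_lit 620756993) (nat_lit 12054429704) (.two (nat_lit 8388608) (nat_lit 9982443542) (.one (nat_lit 16777519) .nil))),
   .two (nat_lit 4194308) (nat_lit 165532401667) (.two (nat_lit 156372041729) (nat_lit 4601151496) (.two (nat_lit 8388608) (nat_lit 4030726169) (.one (nat_lit 46510637204) .nil))),
   .two (nat_lit 1277165573) (nat_lit 20644364291) (.two (nat_lit 612368385) (nat_lit 158144135180) (.two (nat_lit 8388608) (nat_lit 28087156785) (.one (nat_lit 47548727417) .nil))),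
   .two (nat_lit 12117344261) (nat_lit 166130089987) (.two (nat_lit 156367847425) (nat_lit 28758245384) (.two (nat_lit 4194304) (nat_lit 3558866990) (.one (nat_lit 156567076952) .nil))),
   .two (nat_lit 4194308) (nat_lit 18933088259) (.two (nat_lit 156372041729) (nat_lit 4601151496) (.two (nat_lit 8388608) (nat_lit 4601151503) (.one (nat_lit 4030726181) .nil))),
   .two (nat_lit 8388613) (nat_lit 156367847427) (.two (nat_lit 8388609) (nat_lit 19532873736) (.two (nat_lit 8388608) (nat_lit 1849688096) (.one (nat_lit 3531604054) .nil))),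
   .two (nat_lit 16777221) (nat_lit 11476664323) (.two (nat_lit 620756993) (nat_lit 184416206856) (.two (nat_lit 16777216) (nat_lit 303038510) (.one (nat_lit 34603096) .nil))),
   .two (nat_lit 11476664322) (nat_lit 166132187140) (.two (nat_lit 34603009) (nat_lit 28693233672) (.two (nat_lit 1048576) (nat_lit 28693233679) (.one (nat_lit 1916796963) .nil))),
   .two (nat_lit 20644364293) (nat_lit 156367847427) (.two (nat_lit 8388609) (nat_lit 19532873736) (.two (nat_lit 8388608) (nat_lit 156971827224) (.one (nat_lit 4194654) .nil))),
   .two (nat_lit 8388613) (nat_lit 156364701701) (.two (nat_lit 16777217) (nat_lit 1175453704) (.two (nat_lit 16777216) (nat_lit 156573368363) (.one (nat_lit 8388959) .nil))),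
   .two (nat_lit 16777221) (nat_lit 75497475) (.two (nat_lit 612368385) (nat_lit 184549384) (.two (nat_lit 8388608) (nat_lit 184549391) (.one (nat_lit 318767141) .nil))),
   .two (nat_lit 218103813) (nat_lit 1175453699) (.two (nat_lit 620756993) (nat_lit 28690087944) (.two (nat_lit 1048576) (nat_lit 9982443539) (.one (nat_lit 1048928) .nil))),
   .two (nat_lit 272629765) (nat_lit 183845781508) (.two (nat_lit 4194305) (nat_lit 12047089672) (.two (nat_lit 4194304) (nat_lit 183845781515) (.one (nat_lit 12620660869) .nil))),
   .two (nat_lit 46407876612) (nat_lit 4194307) (.two (nat_lit 4194305) (nat_lit 3458203656) (.two (nat_lit 4194304) (nat_lit 46978301977) (.one (nat_lit 2097505) .nil))),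
   .two (nat_lit 822083589) (nat_lit 605028355) (.two (nat_lit 4194305) (nat_lit 11492392968) (.two (nat_lit 1048576) (nat_lit 11492392975) (.one (nat_lit 822083619) .nil))),
   .two (nat_lit 184549378) (nat_lit 37748739) (.two (nat_lit 16777217) (nat_lit 13224640524) (.two (nat_lit 16777216) (nat_lit 10338959382) (.one (nat_lit 2990538885) .nil))),
   .two (nat_lit 171966469) (nat_lit 2969567237) (.two (nat_lit 37748737) (nat_lit 165525061640) (.two (nat_lit 16777216) (nat_lit 9765388330) (.one (nat_lit 1048764) .nil))),
   .two (nat_lit 705691652) (nat_lit 156372041731) (.two (nat_lit 156372041729) (nat_lit 21777874952) (.two (nat_lit 8388608) (nat_lit 21777874959) (.one (nat_lit 21207449637) .nil))),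
   .two (nat_lit 2954887173) (nat_lit 1276116996) (.two (nat_lit 2097153) (nat_lit 9866051592) (.two (nat_lit 2097152) (nat_lit 20704133137) (.one (nat_lit 9967763580) .nil))),
   .two (nat_lit 169869314) (nat_lit 166129041412) (.two (nat_lit 2097153) (nat_lit 10939793416) (.two (nat_lit 2097152) (nat_lit 10939793423) (.one (nat_lit 165525061669) .nil))),
   .two (nat_lit 16777220) (nat_lit 8388611) (.two (nat_lit 8388609) (nat_lit 50331656) (.two (nat_lit 8388608) (nat_lit 855638042) (.one (nat_lit 183861510296) .nil))),
   .two (nat_lit 184549381) (nat_lit 2887778307) (.two (nat_lit 2097153) (nat_lit 158662131726) (.two (nat_lit 2097152) (nat_lit 352321588) (.one (nat_lit 20738736298) .nil))),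
   .two (nat_lit 4194308) (nat_lit 156372041731) (.two (nat_lit 156372041729) (nat_lit 4601151496) (.two (nat_lit 8388608) (nat_lit 4601151503) (.one (nat_lit 4030726181) .nil))),
   .two (nat_lit 4194308) (nat_lit 8388611) (.two (nat_lit 8388609) (nat_lit 4601151496) (.two (nat_lit 8388608) (nat_lit 272629786) (.one (nat_lit 4194493) .nil))),
   .two (nat_lit 8388613) (nat_lit 605028355) (.two (nat_lit 4194305) (nat_lit 8388621) (.two (nat_lit 4194304) (nat_lit 806354995) (.one (nat_lit 19029557333) .nil))),
   .two (nat_lit 41943045) (nat_lit 19596836869) (.two (nat_lit 9765388289) (nat_lit 713031688) (.two (nat_lit 1048576) (nat_lit 184993972241) (.one (nat_lit 37246468217) .nil))),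
   .two (nat_lit 169869316) (nat_lit 1191182339) (.two (nat_lit 9781116929) (nat_lit 2954887176) (.two (nat_lit 16777216) (nat_lit 2954887183) (.one (nat_lit 203423779) .nil))),
   .two (nat_lit 9934209029) (nat_lit 50331651) (.two (nat_lit 50331649) (nat_lit 1277165576) (.two (nat_lit 16777216) (nat_lit 1277165583) (.one (nat_lit 159217877029) .nil))),
   .two (nat_lit 272629765) (nat_lit 18925748227) (.two (nat_lit 9768534017) (nat_lit 2349858829) (.two (nat_lit 4194304) (nat_lit 1048635) (.one (nat_lit 272629919) .nil))),
   .two (nat_lit 822083589) (nat_lit 75497475) (.two (nat_lit 50331649) (nat_lit 158083317768) (.two (nat_lit 16777216) (nat_lit 159257722913) (.one (nat_lit 185002360918) .nil))),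
   .two (nat_lit 3527409669) (nat_lit 165526110211) (.two (nat_lit 156365750273) (nat_lit 46980399112) (.two (nat_lit 2097152) (nat_lit 46409973785) (.one (nat_lit 4194658) .nil))),
   .two (nat_lit 2889875460) (nat_lit 166130089987) (.two (nat_lit 9766436865) (nat_lit 3527409672) (.two (nat_lit 2097152) (nat_lit 3527409679) (.one (nat_lit 3527409700) .nil))),
   .two (nat_lit 11559501829) (nat_lit 4194307) (.two (nat_lit 4194305) (nat_lit 754974728) (.two (nat_lit 4194304) (nat_lit 754974735) (.one (nat_lit 11626610725) .nil))),
   .two (nat_lit 705691652) (nat_lit 165526110211) (.two (nat_lit 156365750273) (nat_lit 21777874952) (.two (nat_lit 2097152) (nat_lit 2953838620) (.one (nat_lit 183913939017) .nil))),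
   .two (nat_lit 8388612) (nat_lit 50331651) (.two (nat_lit 50331649) (nat_lit 8388616) (.two (nat_lit 16777216) (nat_lit 8388623) (.one (nat_lit 2994733093) .nil))),
   .two (nat_lit 169869316) (nat_lit 19537068035) (.two (nat_lit 9781116929) (nat_lit 47548727304) (.two (nat_lit 8388608) (nat_lit 47548727311) (.one (nat_lit 46978301989) .nil))),
   .two (nat_lit 183845781506) (nat_lit 165526110211) (.two (nat_lit 156364701697) (nat_lit 174753579020) (.two (nat_lit 1048576) (nat_lit 4028629011) (.one (nat_lit 28691136636) .nil))),
   .two (nat_lit 169869314) (nat_lit 156367847427) (.two (nat_lit 2097153) (nat_lit 157038936076) (.two (nat_lit 2097152) (nat_lit 876609558) (.one (nat_lit 4194480) .nil))),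
   .two (nat_lit 184549378) (nat_lit 176160772) (.two (nat_lit 16777217) (nat_lit 176160776) (.two (nat_lit 16777216) (nat_lit 176160783) (.one (nat_lit 8388643) .nil))),
   .two (nat_lit 8388613) (nat_lit 18925748227) (.two (nat_lit 156364701697) (nat_lit 21785214988) (.two (nat_lit 1048576) (nat_lit 183920230429) (.one (nat_lit 1745879204) .nil))),
   .two (nat_lit 184549380) (nat_lit 165526110211) (.two (nat_lit 156365750273) (nat_lit 620757000) (.two (nat_lit 2097152) (nat_lit 9982443546) (.one (nat_lit 159266111677) .nil))),
   .two (nat_lit 101711877) (nat_lit 2902458371) (.two (nat_lit 16777217) (nat_lit 1947205645) (.two (nat_lit 16777216) (nat_lit 3524263982) (.one (nat_lit 638582872) .nil))),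
   .two (nat_lit 1277165572) (nat_lit 166129041411) (.two (nat_lit 9765388289) (nat_lit 28758245384) (.two (nat_lit 1048576) (nat_lit 3558866990) (.one (nat_lit 156567076952) .nil))),
   .two (nat_lit 16777221) (nat_lit 10372513795) (.two (nat_lit 612368385) (nat_lit 285212684) (.two (nat_lit 4194304) (nat_lit 184431935517) (.one (nat_lit 37748880) .nil))),
   .two (nat_lit 9934209029) (nat_lit 83886083) (.two (nat_lit 620756993) (nat_lit 159251431437) (.two (nat_lit 16777216) (nat_lit 13188988955) (.one (nat_lit 1847590997) .nil))),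
   .two (nat_lit 2902458370) (nat_lit 2889875460) (.two (nat_lit 16777217) (nat_lit 2889875464) (.two (nat_lit 16777216) (nat_lit 2889875471) (.one (nat_lit 4601151525) .nil))),
   .two (nat_lit 158150426629) (nat_lit 46407876611) (.two (nat_lit 2097153) (nat_lit 156372041740) (.two (nat_lit 2097152) (nat_lit 9806282783) (.one (nat_lit 46514831449) .nil))),
   .two (nat_lit 183853121538) (nat_lit 50331651) (.two (nat_lit 41943041) (nat_lit 50331660) (.two (nat_lit 8388608) (nat_lit 117440531) (.one (nat_lit 1325400248) .nil))),
   .two (nat_lit 16777221) (nat_lit 713031683) (.two (nat_lit 41943041) (nat_lit 184549384) (.two (nat_lit 8388608) (nat_lit 218103824) (.one (nat_lit 2969567270) .nil))),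
   .two (nat_lit 10506731525) (nat_lit 46407876611) (.two (nat_lit 2097153) (nat_lit 166132187144) (.two (nat_lit 2097152) (nat_lit 10506731536) (.one (nat_lit 166132187174) .nil))),
   .two (nat_lit 16777220) (nat_lit 46409973763) (.two (nat_lit 4194305) (nat_lit 16777224) (.two (nat_lit 4194304) (nat_lit 285212696) (.one (nat_lit 16777406) .nil))),
   .two (nat_lit 16777220) (nat_lit 1175453699) (.two (nat_lit 9765388289) (nat_lit 50331656) (.two (nat_lit 1048576) (nat_lit 12129927201) (.one (nat_lit 806355026) .nil))),
   .two (nat_lit 169869316) (nat_lit 1779433487) (.two (nat_lit 2097152) (nat_lit 11543773248) (.one (nat_lit 11543773375) .nil)),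
   .two (nat_lit 639631365) (nat_lit 1343225871) (.two (nat_lit 2097152) (nat_lit 11543773250) (.one (nat_lit 11543773541) .nil)),
   .two (nat_lit 11492392964) (nat_lit 2416967692) (.two (nat_lit 605028353) (nat_lit 285212736) (.one (nat_lit 4647289023) .nil)),
   .two (nat_lit 713031684) (nat_lit 11559501832) (.two (nat_lit 41943041) (nat_lit 11559501839) (.two (nat_lit 8388608) (nat_lit 1392508947) (.one (nat_lit 158083317954) .nil))),
   .two (nat_lit 2097157) (nat_lit 19599982604) (.two (nat_lit 2097153) (nat_lit 19599982607) (.two (nat_lit 1048576) (nat_lit 1916797003) (.one (nat_lit 158177689973) .nil))),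
   .two (nat_lit 11476664322) (nat_lit 285212680) (.two (nat_lit 16777220) (nat_lit 3020947466) (.two (nat_lit 34603009) (nat_lit 285212687) (.two (nat_lit 1048576) (nat_lit 46489665573) (.one (nat_lit 10552869230) .nil)))),
   .two (nat_lit 16777220) (nat_lit 156971827208) (.two (nat_lit 16777217) (nat_lit 46980399150) (.two (nat_lit 4194304) (nat_lit 50331684) (.one (nat_lit 16777640) .nil))),
   .two (nat_lit 46407876610) (nat_lit 117440519) (.two (nat_lit 10385096707) (nat_lit 1780482057) (.two (nat_lit 2097153) (nat_lit 117440527) (.two (nat_lit 2097152) (nat_lit 166245433381) (.one (nat_lit 18941477065) .nil)))),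
   .two (nat_lit 184986632197) (nat_lit 4605345800) (.two (nat_lit 8388609) (nat_lit 34603058) (.two (nat_lit 1048576) (nat_lit 4034920485) (.one (nat_lit 10544480622) .nil))),
   .two (nat_lit 1276116996) (nat_lit 156372041740) (.two (nat_lit 605028353) (nat_lit 156372041743) (.two (nat_lit 1048576) (nat_lit 19134414920) (.one (nat_lit 847249793) .nil))),
   .two (nat_lit 13187940357) (nat_lit 46409973768) (.two (nat_lit 2097153) (nat_lit 20637024271) (.two (nat_lit 1048576) (nat_lit 4194341) (.one (nat_lit 4194729) .nil))),
   .two (nat_lit 1277165573) (nat_lit 1749024777) (.two (nat_lit 2097153) (nat_lit 1916796943) (.two (nat_lit 2097152) (nat_lit 46510637075) (.one (nat_lit 4194730) .nil))),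
   .two (nat_lit 713031684) (nat_lit 11543773191) (.two (nat_lit 705691651) (nat_lit 713031688) (.two (nat_lit 34603009) (nat_lit 713031695) (.two (nat_lit 1048576) (nat_lit 10544480375) (.one (nat_lit 174759870665) .nil)))),
   .two (nat_lit 1276116996) (nat_lit 10504634376) (.two (nat_lit 2097153) (nat_lit 1779433487) (.two (nat_lit 2097152) (nat_lit 101711908) (.one (nat_lit 2350907593) .nil))),
   .two (nat_lit 1795162117) (nat_lit 1048586) (.two (nat_lit 605028353) (nat_lit 654311439) (.two (nat_lit 1048576) (nat_lit 2902458387) (.one (nat_lit 352321931) .nil))),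
   .two (nat_lit 11476664324) (nat_lit 4599054346) (.two (nat_lit 156364701697) (nat_lit 2887778315) (.two (nat_lit 1048576) (nat_lit 46407876628) (.one (nat_lit 10940842410) .nil))),
   .two (nat_lit 11479810052) (nat_lit 158143086599) (.two (nat_lit 20637024259) (nat_lit 1178599432) (.two (nat_lit 605028353) (nat_lit 20707278876) (.two (nat_lit 1048576) (nat_lit 10506731630) (.one (nat_lit 4194731) .nil)))),
   .two (nat_lit 705691652) (nat_lit 4194313) (.two (nat_lit 34603009) (nat_lit 46409973775) (.two (nat_lit 1048576) (nat_lit 46980399122) (.one (nat_lit 46477082722) .nil))),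
   .two (nat_lit 2889875461) (nat_lit 46414168070) (.two (nat_lit 4194305) (nat_lit 3464495119) (.two (nat_lit 4194304) (nat_lit 11014242323) (.one (nat_lit 310378594) .nil))),
   .two (nat_lit 9768534019) (nat_lit 156372041736) (.two (nat_lit 4194304) (nat_lit 46414168174) (.one (nat_lit 8389036) .nil)),
   .two (nat_lit 11543773189) (nat_lit 3527409671) (.two (nat_lit 4194307) (nat_lit 101711880) (.two (nat_lit 4194305) (nat_lit 11543773200) (.two (nat_lit 4194304) (nat_lit 20704133227) (.one (nat_lit 166196150479) .nil)))),
   .two (nat_lit 754974725) (nat_lit 1745879047) (.two (nat_lit 156367847427) (nat_lit 4613734408) (.two (nat_lit 156367847425) (nat_lit 822083599) (.two (nat_lit 4194304) (nat_lit 185002360955) (.one (nat_lit 16777645) .nil)))),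
   .two (nat_lit 705691650) (nat_lit 159217876999) (.two (nat_lit 68157443) (nat_lit 156969730057) (.two (nat_lit 605028353) (nat_lit 159217877007) (.two (nat_lit 1048576) (nat_lit 158647451685) (.one (nat_lit 13222543561) .nil)))),
   .two (nat_lit 705691652) (nat_lit 166132187144) (.two (nat_lit 34603009) (nat_lit 46477082649) (.two (nat_lit 1048576) (nat_lit 1916797076) (.one (nat_lit 4194735) .nil))),
   .two (nat_lit 16777221) (nat_lit 12117344264) (.two (nat_lit 16777217) (nat_lit 12050235418) (.two (nat_lit 16777216) (nat_lit 11580473496) (.one (nat_lit 158192370037) .nil))),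
   .two (nat_lit 4194308) (nat_lit 1291845638) (.two (nat_lit 4194305) (nat_lit 9881780235) (.two (nat_lit 16777216) (nat_lit 775946259) (.one (nat_lit 12633244045) .nil))),
   .two (nat_lit 8388612) (nat_lit 9768534023) (.two (nat_lit 9768534019) (nat_lit 41943048) (.two (nat_lit 9768534017) (nat_lit 13195280399) (.two (nat_lit 4194304) (nat_lit 13195280491) (.one (nat_lit 4605345999) .nil)))),
   .two (nat_lit 171966467) (nat_lit 159217876999) (.two (nat_lit 1048576) (nat_lit 4194462) (.one (nat_lit 876609574) .nil)),
   .two (nat_lit 171966467) (nat_lit 159224168455) (.two (nat_lit 8388608) (nat_lit 9969860755) (.one (nat_lit 10540285990) .nil)),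
   .two (nat_lit 4194308) (nat_lit 102760455) (.two (nat_lit 4194307) (nat_lit 1780482056) (.two (nat_lit 4194305) (nat_lit 1277165583) (.two (nat_lit 4194304) (nat_lit 183913939069) (.one (nat_lit 13188989306) .nil)))),
   .two (nat_lit 705691652) (nat_lit 1749024776) (.two (nat_lit 16777216) (nat_lit 9798942839) (.one (nat_lit 12150899111) .nil)),
   .two (nat_lit 605028357) (nat_lit 1291845638) (.two (nat_lit 4194305) (nat_lit 185020186646) (.two (nat_lit 1048576) (nat_lit 239075347) (.one (nat_lit 4194736) .nil))),
   .two (nat_lit 50331653) (nat_lit 158144135180) (.two (nat_lit 2097153) (nat_lit 185035915290) (.two (nat_lit 2097152) (nat_lit 12129927317) (.one (nat_lit 2432696697) .nil))),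
   .two (nat_lit 705691652) (nat_lit 8388615) (.two (nat_lit 8388611) (nat_lit 1343225864) (.two (nat_lit 8388609) (nat_lit 739246096) (.two (nat_lit 8388608) (nat_lit 20704133227) (.one (nat_lit 166196150479) .nil)))),
   .two (nat_lit 218103813) (nat_lit 68157448) (.two (nat_lit 4194305) (nat_lit 4027580459) (.two (nat_lit 4194304) (nat_lit 352321624) (.one (nat_lit 158146232714) .nil))),
   .two (nat_lit 165526110211) (nat_lit 2969567240) (.two (nat_lit 2097152) (nat_lit 16777354) (.one (nat_lit 11492393365) .nil)),
   .two (nat_lit 11476664323) (nat_lit 21778923527) (.two (nat_lit 4194304) (nat_lit 2097311) (.one (nat_lit 2097585) .nil)),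
   .two (nat_lit 46407876612) (nat_lit 41943047) (.two (nat_lit 713031683) (nat_lit 46978301960) (.two (nat_lit 41943041) (nat_lit 874512412) (.two (nat_lit 8388608) (nat_lit 19027460234) (.one (nat_lit 2097586) .nil)))),
   .two (nat_lit 169869316) (nat_lit 183853121542) (.two (nat_lit 2097153) (nat_lit 12054429707) (.two (nat_lit 8388608) (nat_lit 158177689619) (.one (nat_lit 880804248) .nil))),
   .two (nat_lit 83886083) (nat_lit 9768534023) (.two (nat_lit 16777216) (nat_lit 3024093328) (.one (nat_lit 9969860976) .nil)),
   .two (nat_lit 705691652) (nat_lit 166132187142) (.two (nat_lit 34603009) (nat_lit 166132187147) (.two (nat_lit 1048576) (nat_lit 166132187154) (.one (nat_lit 873464227) .nil))),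
   .two (nat_lit 46409973764) (nat_lit 10503585799) (.two (nat_lit 46414168067) (nat_lit 3460300808) (.two (nat_lit 8388609) (nat_lit 4030726168) (.two (nat_lit 8388608) (nat_lit 1745879174) (.one (nat_lit 1049011) .nil)))),
   .two (nat_lit 2889875460) (nat_lit 158144135176) (.two (nat_lit 4194305) (nat_lit 1277165594) (.two (nat_lit 2097152) (nat_lit 9768534052) (.one (nat_lit 2097588) .nil))),
   .two (nat_lit 1277165572) (nat_lit 21777874952) (.two (nat_lit 9766436865) (nat_lit 1343225882) (.two (nat_lit 1048576) (nat_lit 46508539924) (.one (nat_lit 13221495183) .nil))),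
   .two (nat_lit 270532613) (nat_lit 156372041736) (.two (nat_lit 2097153) (nat_lit 156372041743) (.two (nat_lit 1048576) (nat_lit 156372041764) (.one (nat_lit 3557818565) .nil))),
   .two (nat_lit 705691652) (nat_lit 641728521) (.two (nat_lit 34603009) (nat_lit 239075347) (.two (nat_lit 1048576) (nat_lit 239075347) (.one (nat_lit 1049013) .nil))),
   .two (nat_lit 11476664324) (nat_lit 159217876999) (.two (nat_lit 1175453699) (nat_lit 159217877000) (.two (nat_lit 9765388289) (nat_lit 159217877007) (.two (nat_lit 1048576) (nat_lit 10336862283) (.one (nat_lit 807403909) .nil)))),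
   .two (nat_lit 20638072837) (nat_lit 158075977736) (.two (nat_lit 156364701697) (nat_lit 10001317912) (.two (nat_lit 2097152) (nat_lit 11510218772) (.one (nat_lit 1377829248) .nil))),
   .two (nat_lit 2894069763) (nat_lit 10504634375) (.two (nat_lit 1048576) (nat_lit 9772728462) (.one (nat_lit 13228834854) .nil)),
   .two (nat_lit 2889875460) (nat_lit 1929379849) (.two (nat_lit 4194305) (nat_lit 4613734422) (.two (nat_lit 4194304) (nat_lit 4613734422) (.one (nat_lit 104858020) .nil))),
   .two (nat_lit 20637024258) (nat_lit 654311431) (.two (nat_lit 10385096707) (nat_lit 1048586) (.two (nat_lit 605028353) (nat_lit 654311439) (.two (nat_lit 1048576) (nat_lit 28806479909) (.one (nat_lit 156380430537) .nil)))),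
   .two (nat_lit 285212677) (nat_lit 1916796935) (.two (nat_lit 1048576) (nat_lit 13203669137) (.one (nat_lit 16777655) .nil)),
   .two (nat_lit 169869316) (nat_lit 183853121544) (.two (nat_lit 2097153) (nat_lit 183853121551) (.two (nat_lit 2097152) (nat_lit 19604176915) (.one (nat_lit 13188989139) .nil))),
   .two (nat_lit 47550824453) (nat_lit 10343153672) (.two (nat_lit 4194305) (nat_lit 166129041423) (.two (nat_lit 4194304) (nat_lit 10369368084) (.one (nat_lit 8389048) .nil))),
   .two (nat_lit 158150426629) (nat_lit 10504634375) (.two (nat_lit 9766436867) (nat_lit 156372041740) (.two (nat_lit 9768534017) (nat_lit 183853121551) (.two (nat_lit 2097152) (nat_lit 183853121601) (.one (nat_lit 310378592) .nil)))),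
   .two (nat_lit 28758245381) (nat_lit 12114198535) (.two (nat_lit 183845781507) (nat_lit 10538188812) (.two (nat_lit 34603009) (nat_lit 2097181) (.two (nat_lit 1048576) (nat_lit 706740296) (.one (nat_lit 2097593) .nil)))),
   .two (nat_lit 18928893957) (nat_lit 19597885447) (.two (nat_lit 19530776579) (nat_lit 9869197326) (.two (nat_lit 4194305) (nat_lit 11559501839) (.two (nat_lit 2097152) (nat_lit 1795162187) (.one (nat_lit 16777658) .nil)))),
   .two (nat_lit 1291845636) (nat_lit 174752530439) (.two (nat_lit 165525061635) (nat_lit 10385096712) (.two (nat_lit 156364701697) (nat_lit 9948889104) (.two (nat_lit 1048576) (nat_lit 46422556759) (.one (nat_lit 16777659) .nil)))),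
   .two (nat_lit 612368389) (nat_lit 21208498184) (.two (nat_lit 41943041) (nat_lit 2988441646) (.two (nat_lit 8388608) (nat_lit 606077016) (.one (nat_lit 2994733257) .nil))),
   .two (nat_lit 9933160453) (nat_lit 1914699783) (.two (nat_lit 2097152) (nat_lit 142606481) (.one (nat_lit 1049020) .nil)),
   .two (nat_lit 721420292) (nat_lit 184416206856) (.two (nat_lit 620756993) (nat_lit 12047089690) (.two (nat_lit 1048576) (nat_lit 318767264) (.one (nat_lit 101712073) .nil))),
   .two (nat_lit 16777221) (nat_lit 638582791) (.two (nat_lit 4194304) (nat_lit 16777377) (.one (nat_lit 1049021) .nil)),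
   .two (nat_lit 1277165571) (nat_lit 159216828423) (.two (nat_lit 1048576) (nat_lit 4194466) (.one (nat_lit 4194750) .nil)),
   .two (nat_lit 46409973764) (nat_lit 47548727303) (.two (nat_lit 169869315) (nat_lit 156367847432) (.two (nat_lit 2097153) (nat_lit 46409973775) (.two (nat_lit 2097152) (nat_lit 4601151555) (.one (nat_lit 13191086275) .nil)))),
   .two (nat_lit 4194307) (nat_lit 101711879) (.two (nat_lit 4194304) (nat_lit 1048739) (.one (nat_lit 9866051622) .nil)),
   .two (nat_lit 1276116995) (nat_lit 1344274439) (.two (nat_lit 2097152) (nat_lit 158649548944) (.one (nat_lit 4194751) .nil)),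
   .two (nat_lit 4194308) (nat_lit 11578376202) (.two (nat_lit 9768534017) (nat_lit 169869323) (.two (nat_lit 2097152) (nat_lit 3560964116) (.one (nat_lit 169869727) .nil))),
   .two (nat_lit 50331651) (nat_lit 102760455) (.two (nat_lit 8388608) (nat_lit 270532681) (.one (nat_lit 2097600) .nil)),
   .two (nat_lit 11492392964) (nat_lit 708837386) (.two (nat_lit 4194305) (nat_lit 11492392971) (.two (nat_lit 4194304) (nat_lit 11626610708) (.one (nat_lit 156481094014) .nil))),
   .two (nat_lit 705691652) (nat_lit 157036838919) (.two (nat_lit 68157443) (nat_lit 157036838920) (.two (nat_lit 605028353) (nat_lit 157036838927) (.two (nat_lit 1048576) (nat_lit 10504634443) (.one (nat_lit 2097532) .nil)))),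
   .two (nat_lit 183848927237) (nat_lit 68157449) (.two (nat_lit 37748737) (nat_lit 158075977739) (.two (nat_lit 1048576) (nat_lit 4634705939) (.one (nat_lit 1212154269) .nil))),
   .two (nat_lit 37748739) (nat_lit 102760455) (.two (nat_lit 8388608) (nat_lit 2097307) (.one (nat_lit 9867100198) .nil)),
   .two (nat_lit 50331653) (nat_lit 1916796935) (.two (nat_lit 50331651) (nat_lit 28693233672) (.two (nat_lit 9768534017) (nat_lit 721420303) (.two (nat_lit 4194304) (nat_lit 3036676171) (.one (nat_lit 16777665) .nil)))),
   .two (nat_lit 9948889093) (nat_lit 9765388295) (.two (nat_lit 1048576) (nat_lit 8388772) (.one (nat_lit 9806283199) .nil)),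
   .two (nat_lit 1291845635) (nat_lit 2954887176) (.two (nat_lit 16777216) (nat_lit 47582281766) (.one (nat_lit 47582281766) .nil)),
   .two (nat_lit 16777220) (nat_lit 9899606029) (.two (nat_lit 34603009) (nat_lit 16777231) (.two (nat_lit 1048576) (nat_lit 3003121701) (.one (nat_lit 721420706) .nil))),
   .two (nat_lit 12117344261) (nat_lit 740294665) (.two (nat_lit 2097153) (nat_lit 12620660755) (.two (nat_lit 2097152) (nat_lit 12620660755) (.one (nat_lit 10506731930) .nil))),
   .two (nat_lit 11543773189) (nat_lit 3527409671) (.two (nat_lit 2889875459) (nat_lit 11577327628) (.two (nat_lit 4194305) (nat_lit 159216828445) (.two (nat_lit 4194304) (nat_lit 11577327681) (.one (nat_lit 28086108256) .nil)))),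
   .two (nat_lit 34603013) (nat_lit 620756999) (.two (nat_lit 620756995) (nat_lit 705691656) (.two (nat_lit 620756993) (nat_lit 21777874959) (.two (nat_lit 16777216) (nat_lit 158075977843) (.one (nat_lit 806355142) .nil)))),
   .two (nat_lit 157036838917) (nat_lit 10335813639) (.two (nat_lit 165525061635) (nat_lit 706740238) (.two (nat_lit 9766436865) (nat_lit 16777231) (.two (nat_lit 1048576) (nat_lit 83886155) (.one (nat_lit 16777666) .nil)))),
   .two (nat_lit 713031684) (nat_lit 2418016265) (.two (nat_lit 2097153) (nat_lit 11551113227) (.two (nat_lit 8388608) (nat_lit 10001317907) (.one (nat_lit 1954546043) .nil))),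
   .two (nat_lit 20644364291) (nat_lit 28757196807) (.two (nat_lit 1048576) (nat_lit 8388775) (.one (nat_lit 2994733094) .nil)),
   .two (nat_lit 184549380) (nat_lit 21208498184) (.two (nat_lit 16777217) (nat_lit 20638072858) (.two (nat_lit 16777216) (nat_lit 2097320) (.one (nat_lit 10370416841) .nil))),
   .two (nat_lit 2889875459) (nat_lit 159217876999) (.two (nat_lit 2097152) (nat_lit 159253528719) (.one (nat_lit 1379926055) .nil)),
   .two (nat_lit 46409973765) (nat_lit 654311432) (.two (nat_lit 4194305) (nat_lit 218103823) (.two (nat_lit 4194304) (nat_lit 47596961859) (.one (nat_lit 47596962006) .nil))),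
   .two (nat_lit 721420293) (nat_lit 21207449610) (.two (nat_lit 2097153) (nat_lit 1947205654) (.two (nat_lit 1048576) (nat_lit 3458203667) (.one (nat_lit 1224737182) .nil))),
   .two (nat_lit 171966469) (nat_lit 46407876614) (.two (nat_lit 4194305) (nat_lit 46978301963) (.two (nat_lit 1048576) (nat_lit 2954887187) (.one (nat_lit 168821149) .nil))),
   .two (nat_lit 639631365) (nat_lit 12150898697) (.two (nat_lit 4194305) (nat_lit 9867100179) (.two (nat_lit 2097152) (nat_lit 4030726164) (.one (nat_lit 2097604) .nil))),
   .two (nat_lit 612368387) (nat_lit 184549384) (.two (nat_lit 8388608) (nat_lit 184549414) (.one (nat_lit 184549414) .nil)),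
   .two (nat_lit 19530776579) (nat_lit 2889875464) (.two (nat_lit 2097152) (nat_lit 156569174054) (.one (nat_lit 156569174054) .nil)),
   .two (nat_lit 8388612) (nat_lit 11544821769) (.two (nat_lit 50331649) (nat_lit 9766436879) (.two (nat_lit 2097152) (nat_lit 780140563) (.one (nat_lit 9867100553) .nil))),
   .two (nat_lit 4601151493) (nat_lit 174753579015) (.two (nat_lit 165526110211) (nat_lit 46409973768) (.two (nat_lit 156365750273) (nat_lit 46409973775) (.two (nat_lit 2097152) (nat_lit 18928894019) (.one (nat_lit 2420113614) .nil)))),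
   .two (nat_lit 4194308) (nat_lit 1846542344) (.two (nat_lit 37748737) (nat_lit 9866051599) (.two (nat_lit 1048576) (nat_lit 3560964133) (.one (nat_lit 605028783) .nil))),
   .two (nat_lit 176160772) (nat_lit 10942939145) (.two (nat_lit 8388609) (nat_lit 4634705939) (.two (nat_lit 8388608) (nat_lit 4634705939) (.one (nat_lit 9940500892) .nil))),
   .two (nat_lit 10385096707) (nat_lit 8388615) (.two (nat_lit 16777216) (nat_lit 1384120402) (.one (nat_lit 8389061) .nil)),
   .two (nat_lit 183853121540) (nat_lit 2954887175) (.two (nat_lit 169869315) (nat_lit 183853121544) (.two (nat_lit 2097153) (nat_lit 183853121551) (.two (nat_lit 8388608) (nat_lit 183846830209) (.one (nat_lit 4599054717) .nil)))),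
   .two (nat_lit 183848927235) (nat_lit 28690087944) (.two (nat_lit 4194304) (nat_lit 37246468134) (.one (nat_lit 37246468134) .nil)),
   .two (nat_lit 10506731525) (nat_lit 1745879047) (.two (nat_lit 8388608) (nat_lit 4194473) (.one (nat_lit 4194749) .nil)),
   .two (nat_lit 705691652) (nat_lit 10506731527) (.two (nat_lit 705691651) (nat_lit 10506731528) (.two (nat_lit 34603009) (nat_lit 10506731535) (.two (nat_lit 1048576) (nat_lit 11010048075) (.one (nat_lit 37749125) .nil)))),
   .two (nat_lit 605028357) (nat_lit 19604176905) (.two (nat_lit 4194305) (nat_lit 739246099) (.two (nat_lit 1048576) (nat_lit 2889875475) (.one (nat_lit 4194758) .nil))),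
   .two (nat_lit 169869314) (nat_lit 19599982599) (.two (nat_lit 19532873731) (nat_lit 156969730057) (.two (nat_lit 2097153) (nat_lit 19599982607) (.two (nat_lit 2097152) (nat_lit 10942939173) (.one (nat_lit 11614027974) .nil)))),
   .two (nat_lit 11492392963) (nat_lit 19599982599) (.two (nat_lit 4194304) (nat_lit 9948889239) (.one (nat_lit 21827158054) .nil)),
   .two (nat_lit 8388612) (nat_lit 3527409672) (.two (nat_lit 41943041) (nat_lit 2889875482) (.two (nat_lit 4194304) (nat_lit 3464495256) (.one (nat_lit 156367847625) .nil))),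
   .two (nat_lit 11479810052) (nat_lit 1410334729) (.two (nat_lit 34603009) (nat_lit 1178599439) (.two (nat_lit 1048576) (nat_lit 742391827) (.one (nat_lit 4194759) .nil))),
   .two (nat_lit 1191182341) (nat_lit 174685421577) (.two (nat_lit 16777217) (nat_lit 21811429395) (.two (nat_lit 1048576) (nat_lit 654311443) (.one (nat_lit 1795162615) .nil))),
   .two (nat_lit 41943043) (nat_lit 157036838919) (.two (nat_lit 8388608) (nat_lit 19128123543) (.one (nat_lit 166130090022) .nil)),
   .two (nat_lit 4194307) (nat_lit 10503585799) (.two (nat_lit 4194304) (nat_lit 1048746) (.one (nat_lit 1049032) .nil)),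
   .two (nat_lit 11479810051) (nat_lit 47548727303) (.two (nat_lit 4194304) (nat_lit 185021235343) (.one (nat_lit 185021235239) .nil)),
   .two (nat_lit 4194307) (nat_lit 1913651207) (.two (nat_lit 4194304) (nat_lit 10335813705) (.one (nat_lit 1049033) .nil)),
   .two (nat_lit 11479810052) (nat_lit 1343225863) (.two (nat_lit 68157443) (nat_lit 1178599432) (.two (nat_lit 605028353) (nat_lit 809500688) (.two (nat_lit 1048576) (nat_lit 2990538839) (.one (nat_lit 1782579607) .nil)))),
   .two (nat_lit 13191086085) (nat_lit 612368391) (.two (nat_lit 612368387) (nat_lit 13224640524) (.two (nat_lit 612368385) (nat_lit 2956984349) (.two (nat_lit 8388608) (nat_lit 183949590593) (.one (nat_lit 2889875552) .nil)))),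
   .two (nat_lit 176160773) (nat_lit 2319450121) (.two (nat_lit 37748737) (nat_lit 2961178635) (.two (nat_lit 4194304) (nat_lit 4638900244) (.one (nat_lit 339739019) .nil))),
   .two (nat_lit 13187940357) (nat_lit 10343153672) (.two (nat_lit 2097153) (nat_lit 166129041423) (.two (nat_lit 2097152) (nat_lit 1913651338) (.one (nat_lit 9906946249) .nil))),
   .two (nat_lit 184549380) (nat_lit 21781020681) (.two (nat_lit 8388609) (nat_lit 10338959375) (.two (nat_lit 8388608) (nat_lit 205520916) (.one (nat_lit 11022631367) .nil))),
   .two (nat_lit 9881780229) (nat_lit 28758245384) (.two (nat_lit 606076929) (nat_lit 19109249048) (.two (nat_lit 2097152) (nat_lit 16777387) (.one (nat_lit 166230753478) .nil))),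
   .two (nat_lit 16777220) (nat_lit 184419352584) (.two (nat_lit 16777217) (nat_lit 183848927258) (.two (nat_lit 4194304) (nat_lit 855638036) (.one (nat_lit 171966866) .nil))),
   .two (nat_lit 11492392964) (nat_lit 1749024777) (.two (nat_lit 4194305) (nat_lit 117440527) (.two (nat_lit 4194304) (nat_lit 11492392979) (.one (nat_lit 16777674) .nil))),
   .two (nat_lit 620756995) (nat_lit 104857607) (.two (nat_lit 8388608) (nat_lit 809500754) (.one (nat_lit 742392211) .nil)),
   .two (nat_lit 184549381) (nat_lit 3525312520) (.two (nat_lit 9766436865) (nat_lit 4647288858) (.two (nat_lit 4194304) (nat_lit 19530776714) (.one (nat_lit 159266111689) .nil))),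
   .two (nat_lit 11492392964) (nat_lit 10942939145) (.two (nat_lit 4194305) (nat_lit 754974735) (.two (nat_lit 4194304) (nat_lit 19109249043) (.one (nat_lit 21827158113) .nil))),
   .two (nat_lit 183853121539) (nat_lit 1913651207) (.two (nat_lit 1048576) (nat_lit 713031847) (.one (nat_lit 310378534) .nil)),
   .two (nat_lit 183848927237) (nat_lit 12047089672) (.two (nat_lit 156364701697) (nat_lit 876609560) (.two (nat_lit 4194304) (nat_lit 12114198685) (.one (nat_lit 184419352774) .nil))),
   .two (nat_lit 4194308) (nat_lit 638582791) (.two (nat_lit 37748739) (nat_lit 10369368072) (.two (nat_lit 8388609) (nat_lit 13191086095) (.two (nat_lit 8388608) (nat_lit 1947205750) (.one (nat_lit 4194764) .nil)))),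
   .two (nat_lit 75497475) (nat_lit 654311431) (.two (nat_lit 16777216) (nat_lit 46414168211) (.one (nat_lit 46984593447) .nil)),
   .two (nat_lit 1291845635) (nat_lit 272629767) (.two (nat_lit 16777216) (nat_lit 2353004708) (.one (nat_lit 3527410097) .nil)),
   .two (nat_lit 4601151493) (nat_lit 10537140233) (.two (nat_lit 156367847425) (nat_lit 11543773199) (.two (nat_lit 1048576) (nat_lit 174755676182) (.one (nat_lit 1343226271) .nil))),
   .two (nat_lit 10369368067) (nat_lit 13195280391) (.two (nat_lit 1048576) (nat_lit 8388781) (.one (nat_lit 159257722919) .nil)),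
   .two (nat_lit 75497475) (nat_lit 3527409671) (.two (nat_lit 8388608) (nat_lit 46477082797) (.one (nat_lit 12150898727) .nil)),
   .two (nat_lit 713031688) (nat_lit 606076936) (.two (nat_lit 169869316) (nat_lit 11551113233) (.two (nat_lit 2097153) (nat_lit 1849688132) (.two (nat_lit 2097152) (nat_lit 183916036299) (.one (nat_lit 1346371803) .nil)))),
   .two (nat_lit 37748744) (nat_lit 713031686) (.two (nat_lit 713031684) (nat_lit 606076943) (.two (nat_lit 2097153) (nat_lit 2319450184) (.two (nat_lit 2097152) (nat_lit 12155093186) (.one (nat_lit 11618222572) .nil)))),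
   .two (nat_lit 4194312) (nat_lit 20638072842) (.two (nat_lit 2894069765) (nat_lit 606076943) (.two (nat_lit 8388609) (nat_lit 34603075) (.two (nat_lit 8388608) (nat_lit 4634706113) (.one (nat_lit 608174547) .nil)))),
   .two (nat_lit 46407876614) (nat_lit 13191086087) (.two (nat_lit 37748739) (nat_lit 10336862223) (.two (nat_lit 37748737) (nat_lit 159217877026) (.two (nat_lit 4194304) (nat_lit 47548727390) (.one (nat_lit 47548727515) .nil)))),
   .two (nat_lit 37748744) (nat_lit 2961178632) (.two (nat_lit 176160772) (nat_lit 171966480) (.two (nat_lit 8388609) (nat_lit 4194342) (.two (nat_lit 2097152) (nat_lit 2953838688) (.one (nat_lit 1049074) .nil)))),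
   .two (nat_lit 169869320) (nat_lit 2889875462) (.two (nat_lit 2097157) (nat_lit 2889875471) (.two (nat_lit 2097153) (nat_lit 272629796) (.two (nat_lit 1048576) (nat_lit 706740321) (.one (nat_lit 168821200) .nil)))),
   .two (nat_lit 12114198536) (nat_lit 158091706378) (.two (nat_lit 822083589) (nat_lit 1913651215) (.two (nat_lit 50331649) (nat_lit 28690088003) (.two (nat_lit 16777216) (nat_lit 11476664513) (.one (nat_lit 19596837331) .nil)))),
   .two (nat_lit 159217877000) (nat_lit 20637024264) (.two (nat_lit 13187940357) (nat_lit 46409973776) (.two (nat_lit 2097153) (nat_lit 156364701777) (.two (nat_lit 4194304) (nat_lit 21208498374) (.one (nat_lit 3020947675) .nil)))),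
   .two (nat_lit 272629768) (nat_lit 2887778310) (.two (nat_lit 2889875461) (nat_lit 203423759) (.two (nat_lit 2097153) (nat_lit 9802088532) (.two (nat_lit 4194304) (nat_lit 35651679) (.one (nat_lit 19029557720) .nil)))),
   .two (nat_lit 2889875460) (nat_lit 174759870486) (.two (nat_lit 4194305) (nat_lit 9940500499) (.one (nat_lit 19532874218) .nil)),
   .two (nat_lit 11479810054) (nat_lit 1358954503) (.two (nat_lit 83886083) (nat_lit 1916796943) (.two (nat_lit 620756993) (nat_lit 19599982626) (.two (nat_lit 16777216) (nat_lit 12117344350) (.one (nat_lit 12620660958) .nil)))),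
   .two (nat_lit 9866051592) (nat_lit 10343153671) (.two (nat_lit 68157443) (nat_lit 3464495119) (.two (nat_lit 605028353) (nat_lit 159224168482) (.two (nat_lit 1048576) (nat_lit 176160974) (.one (nat_lit 174752530910) .nil)))),
   .two (nat_lit 8388613) (nat_lit 166130089995) (.two (nat_lit 8388609) (nat_lit 166130090005) (.one (nat_lit 159257723104) .nil)),
   .two (nat_lit 1291845640) (nat_lit 10369368073) (.two (nat_lit 28086108165) (nat_lit 10385096719) (.two (nat_lit 34603009) (nat_lit 2969567296) (.two (nat_lit 1048576) (nat_lit 2969567325) (.one (nat_lit 47596962267) .nil)))),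
   .two (nat_lit 157035790341) (nat_lit 9802088467) (.two (nat_lit 4194305) (nat_lit 37246468115) (.one (nat_lit 11580473831) .nil)),
   .two (nat_lit 2954887176) (nat_lit 1745879047) (.two (nat_lit 606076931) (nat_lit 1745879055) (.two (nat_lit 606076929) (nat_lit 21777874978) (.two (nat_lit 2097152) (nat_lit 1376780384) (.one (nat_lit 1049075) .nil)))),
   .two (nat_lit 11479810052) (nat_lit 3464495123) (.two (nat_lit 37748737) (nat_lit 3464495123) (.one (nat_lit 46477083107) .nil)),
   .two (nat_lit 83886085) (nat_lit 742391819) (.two (nat_lit 16777217) (nat_lit 12117344274) (.one (nat_lit 4194804) .nil)),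
   .two (nat_lit 165526110216) (nat_lit 159216828423) (.two (nat_lit 1048576) (nat_lit 28087156774) .nil),
   .two (nat_lit 1913651208) (nat_lit 272629767) (.two (nat_lit 4194307) (nat_lit 101711887) (.two (nat_lit 4194305) (nat_lit 1343225890) (.two (nat_lit 4194304) (nat_lit 1947205823) (.one (nat_lit 158176641498) .nil)))),
   .two (nat_lit 1745879047) (nat_lit 174759870471) (.two (nat_lit 1048576) (nat_lit 184431935693) .nil),
   .two (nat_lit 159217876997) (nat_lit 2889875467) (.two (nat_lit 606076929) (nat_lit 2889875477) (.one (nat_lit 28693234159) .nil)),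
   .two (nat_lit 639631368) (nat_lit 638582791) (.two (nat_lit 2097155) (nat_lit 8388623) (.two (nat_lit 2097153) (nat_lit 612368418) (.two (nat_lit 1048576) (nat_lit 840958161) (.one (nat_lit 2886729947) .nil)))),
   .two (nat_lit 83886085) (nat_lit 12054429707) (.two (nat_lit 41943041) (nat_lit 166211878931) (.one (nat_lit 8389109) .nil)),
   .two (nat_lit 184419352584) (nat_lit 11543773191) (.two (nat_lit 1048576) (nat_lit 184419352614) .nil),
   .two (nat_lit 713031688) (nat_lit 272629767) (.two (nat_lit 4194307) (nat_lit 713031695) (.two (nat_lit 4194305) (nat_lit 8388642) (.two (nat_lit 4194304) (nat_lit 176160963) (.one (nat_lit 11479810267) .nil)))),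
   .two (nat_lit 11476664324) (nat_lit 20738736147) (.two (nat_lit 34603009) (nat_lit 20738736147) (.one (nat_lit 21812478175) .nil)),
   .two (nat_lit 203423752) (nat_lit 166136381450) (.two (nat_lit 75497477) (nat_lit 203423759) (.two (nat_lit 8388609) (nat_lit 10370416707) (.two (nat_lit 2097152) (nat_lit 1182793823) (.one (nat_lit 1277166032) .nil)))),
   .two (nat_lit 50331656) (nat_lit 159216828423) (.two (nat_lit 50331651) (nat_lit 158075977752) (.two (nat_lit 4194305) (nat_lit 620757026) (.two (nat_lit 4194304) (nat_lit 1048772) (.one (nat_lit 12147753431) .nil)))),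
   .two (nat_lit 1277165572) (nat_lit 46409973771) (.two (nat_lit 606076929) (nat_lit 2889875476) (.one (nat_lit 2097654) .nil)),
   .two (nat_lit 9933160453) (nat_lit 158083317771) (.two (nat_lit 4194305) (nat_lit 158083317778) (.one (nat_lit 4194807) .nil)),
   .two (nat_lit 1191182344) (nat_lit 34603015) (.two (nat_lit 1048576) (nat_lit 3573547047) .nil),
   .two (nat_lit 612368392) (nat_lit 156364701703) (.two (nat_lit 16777216) (nat_lit 9940500518) .nil),
   .two (nat_lit 203423752) (nat_lit 1745879047) (.two (nat_lit 9766436867) (nat_lit 12047089679) (.two (nat_lit 9766436865) (nat_lit 21777874978) (.two (nat_lit 2097152) (nat_lit 1376780384) (.one (nat_lit 18925748718) .nil)))),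
   .two (nat_lit 713031684) (nat_lit 46409973771) (.two (nat_lit 41943041) (nat_lit 46409973778) (.one (nat_lit 310378972) .nil)),
   .two (nat_lit 9765388293) (nat_lit 1277165579) (.two (nat_lit 2097153) (nat_lit 276824083) (.one (nat_lit 8389112) .nil)),
   .two (nat_lit 1913651208) (nat_lit 1277165574) (.two (nat_lit 28690087941) (nat_lit 10370416655) (.two (nat_lit 34603009) (nat_lit 156567076901) (.two (nat_lit 1048576) (nat_lit 11477712991) (.one (nat_lit 166229705174) .nil)))),
   .two (nat_lit 4194308) (nat_lit 3525312523) (.two (nat_lit 4194305) (nat_lit 47548727316) (.one (nat_lit 3527410146) .nil)),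
   .two (nat_lit 4613734408) (nat_lit 156367847431) (.two (nat_lit 156367847427) (nat_lit 50331663) (.two (nat_lit 156364701697) (nat_lit 16777250) (.two (nat_lit 1048576) (nat_lit 10015998143) (.one (nat_lit 47563407828) .nil)))),
   .two (nat_lit 203423752) (nat_lit 46984593416) (.two (nat_lit 12121538565) (nat_lit 183912890385) (.two (nat_lit 41943041) (nat_lit 336592935) (.two (nat_lit 1048576) (nat_lit 159217877193) (.one (nat_lit 839909862) .nil)))),
   .two (nat_lit 713031684) (nat_lit 12050235403) (.two (nat_lit 41943041) (nat_lit 742391828) (.one (nat_lit 11517559272) .nil)),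
   .two (nat_lit 11476664328) (nat_lit 654311431) (.two (nat_lit 16777216) (nat_lit 336592935) .nil),
   .two (nat_lit 37748744) (nat_lit 16777223) (.two (nat_lit 16777216) (nat_lit 156535619623) .nil),
   .two (nat_lit 12054429704) (nat_lit 157038936071) (.two (nat_lit 4194304) (nat_lit 1753219110) .nil),
   .two (nat_lit 169869320) (nat_lit 174755676167) (.two (nat_lit 16777216) (nat_lit 606076966) .nil),
   .two (nat_lit 11476664324) (nat_lit 158077026315) (.two (nat_lit 34603009) (nat_lit 9867100180) (.one (nat_lit 1049081) .nil)),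
   .two (nat_lit 159224168455) (nat_lit 10504634375) (.two (nat_lit 2097152) (nat_lit 46514831559) .nil),
   .two (nat_lit 176160776) (nat_lit 9934209031) (.two (nat_lit 2097152) (nat_lit 176160806) .nil),
   .two (nat_lit 50331656) (nat_lit 4605345799) (.two (nat_lit 8388608) (nat_lit 822083622) .nil),
   .two (nat_lit 612368392) (nat_lit 12114198535) (.two (nat_lit 16777216) (nat_lit 3557818407) .nil),
   .two (nat_lit 156968681477) (nat_lit 11492392971) (.two (nat_lit 34603009) (nat_lit 2902458386) (.one (nat_lit 2365587941) .nil)),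
   .two (nat_lit 721420296) (nat_lit 102760455) (.two (nat_lit 8388608) (nat_lit 318767143) .nil),
   .two (nat_lit 176160776) (nat_lit 1749024775) (.two (nat_lit 16777216) (nat_lit 612368422) .nil),
   .two (nat_lit 21208498184) (nat_lit 1753219079) (.two (nat_lit 8388608) (nat_lit 174753579046) .nil),
   .two (nat_lit 75497480) (nat_lit 12114198535) (.two (nat_lit 1048576) (nat_lit 1417674790) .nil),
   .two (nat_lit 16777224) (nat_lit 638582791) (.two (nat_lit 8388608) (nat_lit 9982443559) .nil),
   .two (nat_lit 158144135173) (nat_lit 28693233675) (.two (nat_lit 606076929) (nat_lit 28693233685) (.one (nat_lit 4194810) .nil)),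
   .two (nat_lit 20637024264) (nat_lit 157036838919) (.two (nat_lit 2097152) (nat_lit 184416206887) .nil),
   .two (nat_lit 28093448200) (nat_lit 9934209031) (.two (nat_lit 2097152) (nat_lit 2323644454) .nil),
   .two (nat_lit 11492392962) (nat_lit 19026411539) (.two (nat_lit 50331649) (nat_lit 19026411539) (.one (nat_lit 11543773671) .nil)),
   .two (nat_lit 272629765) (nat_lit 203423762) (.one (nat_lit 47548727810) .nil),
   .two (nat_lit 169869316) (nat_lit 1276117011) (.one (nat_lit 11543773411) .nil),
   .two (nat_lit 1178599429) (nat_lit 3525312532) (.one (nat_lit 1948254716) .nil),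
   .two (nat_lit 2887778308) (nat_lit 20737687573) (.one (nat_lit 101712099) .nil),
   .two (nat_lit 16777220) (nat_lit 11479810068) (.one (nat_lit 156481094142) .nil),
   .two (nat_lit 705691652) (nat_lit 12117344275) (.one (nat_lit 873464036) .nil),
   .two (nat_lit 11479810052) (nat_lit 8388629) (.one (nat_lit 276824293) .nil),
   .two (nat_lit 9765388289) (nat_lit 10940842089) .nil,
   .two (nat_lit 41943041) (nat_lit 21793603688) .nil,
   .two (nat_lit 156372041729) (nat_lit 4631560291) .nil,
   .two (nat_lit 620756993) (nat_lit 183912890474) .nil,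
   .two (nat_lit 8388612) (nat_lit 4613734408) (.two (nat_lit 1048576) (nat_lit 10443817002) (.one (nat_lit 8389127) .nil)),
   .two (nat_lit 8388612) (nat_lit 16777242) (.one (nat_lit 11543773318) .nil),
   .two (nat_lit 4601151493) (nat_lit 3464495109) (.two (nat_lit 8388609) (nat_lit 2923429953) .nil),
   .two (nat_lit 34603013) (nat_lit 2902458372) (.two (nat_lit 2097153) (nat_lit 11006902284) (.two (nat_lit 2097152) (nat_lit 12062818346) (.one (nat_lit 2097672) .nil))),
   .two (nat_lit 705691652) (nat_lit 46414168072) (.two (nat_lit 8388608) (nat_lit 11577327639) (.one (nat_lit 19537068150) .nil)),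
   .two (nat_lit 11543773189) (nat_lit 1191182341) (.two (nat_lit 8388609) (nat_lit 11577327629) (.two (nat_lit 16777216) (nat_lit 46514831401) (.one (nat_lit 8388882) .nil))),
   .two (nat_lit 705691652) (nat_lit 3464495112) (.two (nat_lit 8388608) (nat_lit 21777874959) (.one (nat_lit 19537068150) .nil)),
   .two (nat_lit 2954887173) (nat_lit 28089253893) (.two (nat_lit 37748737) (nat_lit 3525312527) (.one (nat_lit 9936306312) .nil)),
   .two (nat_lit 13195280389) (nat_lit 166129041412) (.two (nat_lit 41943041) (nat_lit 28690087944) (.two (nat_lit 4194304) (nat_lit 1048830) .nil)),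
   .two (nat_lit 16777220) (nat_lit 9934209029) (.two (nat_lit 41943041) (nat_lit 156365750284) (.two (nat_lit 8388608) (nat_lit 158662131754) (.one (nat_lit 184987680902) .nil))),
   .two (nat_lit 16777220) (nat_lit 1276117000) (.two (nat_lit 4194304) (nat_lit 2920284203) (.one (nat_lit 16777737) .nil)),
   .two (nat_lit 16777220) (nat_lit 1276117007) (.one (nat_lit 4194826) .nil),
   .two (nat_lit 158150426629) (nat_lit 184416206853) (.two (nat_lit 34603009) (nat_lit 156372041736) (.two (nat_lit 4194304) (nat_lit 1048834) .nil)),
   .two (nat_lit 4194308) (nat_lit 50331653) (.two (nat_lit 50331649) (nat_lit 272629775) (.one (nat_lit 20652753012) .nil)),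
   .two (nat_lit 4194308) (nat_lit 1344274446) (.two (nat_lit 8388608) (nat_lit 158649549060) .nil),
   .two (nat_lit 169869316) (nat_lit 1916796933) (.two (nat_lit 2097153) (nat_lit 11479810063) (.one (nat_lit 46474985728) .nil)),
   .two (nat_lit 169869316) (nat_lit 166129041431) (.one (nat_lit 69206134) .nil),
   .two (nat_lit 9768534021) (nat_lit 10335813637) (.two (nat_lit 16777217) (nat_lit 11479810073) (.one (nat_lit 2886729864) .nil)),
   .two (nat_lit 28758245381) (nat_lit 12047089669) (.two (nat_lit 34603009) (nat_lit 166130090009) (.one (nat_lit 1376780409) .nil)),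
   .two (nat_lit 101711877) (nat_lit 183853121540) (.two (nat_lit 605028353) (nat_lit 184423546904) (.one (nat_lit 12047089797) .nil)),
   .two (nat_lit 2097157) (nat_lit 1753219080) (.two (nat_lit 1048576) (nat_lit 12054429721) (.one (nat_lit 2097433) .nil)),
   .two (nat_lit 2889875460) (nat_lit 9933160462) (.two (nat_lit 2097152) (nat_lit 28089253930) (.one (nat_lit 4194586) .nil)),
   .two (nat_lit 4194308) (nat_lit 50331653) (.two (nat_lit 50331649) (nat_lit 809500687) (.one (nat_lit 20652753012) .nil)),
   .two (nat_lit 713031685) (nat_lit 20638072836) (.two (nat_lit 8388609) (nat_lit 158077026330) (.one (nat_lit 166203490440) .nil)),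
   .two (nat_lit 69206021) (nat_lit 2902458383) (.one (nat_lit 1948254341) .nil),
   .two (nat_lit 605028357) (nat_lit 156372041736) (.two (nat_lit 4194304) (nat_lit 46414168089) (.one (nat_lit 1048860) .nil)),
   .two (nat_lit 4605345797) (nat_lit 157036838917) (.two (nat_lit 4194305) (nat_lit 19128123433) (.one (nat_lit 2988441884) .nil)),
   .two (nat_lit 34603013) (nat_lit 1753219080) (.two (nat_lit 1048576) (nat_lit 12054429721) (.one (nat_lit 2097433) .nil)),
   .two (nat_lit 9934209029) (nat_lit 1276116996) (.two (nat_lit 605028353) (nat_lit 1277165576) (.two (nat_lit 1048576) (nat_lit 13188988970) (.one (nat_lit 9967763976) .nil))),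
   .two (nat_lit 184549380) (nat_lit 1178599439) (.one (nat_lit 16777501) .nil),
   .two (nat_lit 1344274437) (nat_lit 1913651205) (.two (nat_lit 16777217) (nat_lit 166130089992) (.two (nat_lit 4194304) (nat_lit 2365587500) (.one (nat_lit 16777503) .nil))),
   .two (nat_lit 1344274437) (nat_lit 46984593432) (.one (nat_lit 840958088) .nil),
   .two (nat_lit 50331653) (nat_lit 104857612) (.two (nat_lit 16777216) (nat_lit 176160814) (.one (nat_lit 16777740) .nil)),
   .two (nat_lit 9948889093) (nat_lit 184416206856) (.two (nat_lit 1048576) (nat_lit 184549391) (.one (nat_lit 184431935742) .nil)),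
   .two (nat_lit 721420293) (nat_lit 1277165572) (.two (nat_lit 16777217) (nat_lit 1277165594) (.one (nat_lit 37329305736) .nil)),
   .two (nat_lit 8388612) (nat_lit 11559501832) (.two (nat_lit 4194304) (nat_lit 13195280399) (.one (nat_lit 1224737040) .nil)),
   .two (nat_lit 1191182341) (nat_lit 10538188812) (.two (nat_lit 16777216) (nat_lit 1847590959) (.one (nat_lit 2097446) .nil)),
   .two (nat_lit 10504634373) (nat_lit 184419352584) (.two (nat_lit 2097152) (nat_lit 183848927257) (.one (nat_lit 1279262980) .nil)),
   .two (nat_lit 169869316) (nat_lit 20644364296) (.two (nat_lit 2097152) (nat_lit 142606454) .nil),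
   .two (nat_lit 8388612) (nat_lit 10506731525) (.two (nat_lit 8388609) (nat_lit 3024093198) (.two (nat_lit 4194304) (nat_lit 13195280491) .nil)),
   .two (nat_lit 176160772) (nat_lit 1358954508) (.two (nat_lit 16777216) (nat_lit 243269750) .nil),
   .two (nat_lit 2097157) (nat_lit 183853121541) (.two (nat_lit 8388609) (nat_lit 47582281754) (.one (nat_lit 46406828166) .nil)),
   .two (nat_lit 184549380) (nat_lit 20638072836) (.two (nat_lit 606076929) (nat_lit 16777354) .nil),
   .two (nat_lit 16777221) (nat_lit 641728538) (.one (nat_lit 1795162236) .nil),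
   .two (nat_lit 50331653) (nat_lit 641728538) (.one (nat_lit 156581757061) .nil),
   .two (nat_lit 705691652) (nat_lit 285212677) (.two (nat_lit 16777217) (nat_lit 705691674) (.one (nat_lit 9781117049) .nil)),
   .two (nat_lit 1916796933) (nat_lit 10336862223) (.one (nat_lit 876609672) .nil),
   .two (nat_lit 75497477) (nat_lit 20638072836) (.two (nat_lit 8388609) (nat_lit 21208498191) (.one (nat_lit 2994733177) .nil)),
   .two (nat_lit 2889875460) (nat_lit 10538188812) (.two (nat_lit 2097152) (nat_lit 158649548931) .nil),
   .two (nat_lit 11492392964) (nat_lit 183845781508) (.two (nat_lit 34603009) (nat_lit 754974830) .nil),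
   .two (nat_lit 169869316) (nat_lit 158083317768) (.two (nat_lit 2097152) (nat_lit 47555018798) (.one (nat_lit 9906946338) .nil)),
   .two (nat_lit 8388612) (nat_lit 2969567237) (.two (nat_lit 16777217) (nat_lit 12624855066) (.one (nat_lit 754974844) .nil)),
   .two (nat_lit 1343225861) (nat_lit 19599982607) (.one (nat_lit 184416206981) .nil),
   .two (nat_lit 11543773189) (nat_lit 183848927236) (.two (nat_lit 37748737) (nat_lit 739246095) (.one (nat_lit 184986632720) .nil)),
   .two (nat_lit 41943045) (nat_lit 19596836869) (.two (nat_lit 9765388289) (nat_lit 21785214991) (.one (nat_lit 37246468217) .nil)),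
   .two (nat_lit 171966469) (nat_lit 218103813) (.two (nat_lit 4194305) (nat_lit 3573547021) (.two (nat_lit 1048576) (nat_lit 2902458470) (.one (nat_lit 166129041717) .nil))),
   .two (nat_lit 705691652) (nat_lit 13195280389) (.two (nat_lit 41943041) (nat_lit 11543773192) (.two (nat_lit 8388608) (nat_lit 185020186904) .nil)),
   .two (nat_lit 654311429) (nat_lit 20638072837) (.two (nat_lit 2097153) (nat_lit 19612565633) .nil),
   .two (nat_lit 705691652) (nat_lit 218103831) (.one (nat_lit 19042140278) .nil),
   .two (nat_lit 75497477) (nat_lit 304087054) (.two (nat_lit 16777216) (nat_lit 203424052) .nil),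
   .two (nat_lit 9934209029) (nat_lit 12114198533) (.two (nat_lit 606076929) (nat_lit 34603058) (.one (nat_lit 1779433606) .nil)),
   .two (nat_lit 159224168453) (nat_lit 21208498191) (.one (nat_lit 645922947) .nil),
   .two (nat_lit 2902458372) (nat_lit 28693233669) (.two (nat_lit 37748737) (nat_lit 9814671485) .nil),
   .two (nat_lit 2887778308) (nat_lit 158143086597) (.two (nat_lit 605028353) (nat_lit 3558866968) (.one (nat_lit 18925748466) .nil)),
   .two (nat_lit 8388612) (nat_lit 11559501839) (.one (nat_lit 1417675020) .nil),
   .two (nat_lit 2969567237) (nat_lit 4599054341) (.two (nat_lit 2097153) (nat_lit 47596961805) (.two (nat_lit 8388608) (nat_lit 10939793458) (.one (nat_lit 1049119) .nil))),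
   .two (nat_lit 708837381) (nat_lit 12114198533) (.two (nat_lit 2097153) (nat_lit 19127074830) (.two (nat_lit 2097152) (nat_lit 12117344358) (.one (nat_lit 2097475) .nil))),
   .two (nat_lit 11546918917) (nat_lit 1276116996) (.two (nat_lit 605028353) (nat_lit 12117344271) (.one (nat_lit 641728639) .nil)),
   .two (nat_lit 272629765) (nat_lit 9881780229) (.two (nat_lit 50331649) (nat_lit 46980399242) .nil),
   .two (nat_lit 13195280389) (nat_lit 184419352584) (.two (nat_lit 4194304) (nat_lit 75497515) (.one (nat_lit 71303440) .nil)),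
   .two (nat_lit 184549380) (nat_lit 165526110213) (.two (nat_lit 2097153) (nat_lit 16777354) .nil),
   .two (nat_lit 16777220) (nat_lit 157038936069) (.two (nat_lit 16777217) (nat_lit 171966478) (.two (nat_lit 4194304) (nat_lit 184431935614) .nil)),
   .two (nat_lit 1343225861) (nat_lit 46407876612) (.two (nat_lit 8388609) (nat_lit 184986632239) (.one (nat_lit 2097696) .nil)),
   .two (nat_lit 713031684) (nat_lit 28757196805) (.two (nat_lit 9765388289) (nat_lit 184993972239) (.one (nat_lit 813695099) .nil)),
   .two (nat_lit 8388612) (nat_lit 11559501832) (.two (nat_lit 1048576) (nat_lit 13195280399) (.one (nat_lit 184993972746) .nil)),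
   .two (nat_lit 11479810052) (nat_lit 9799991322) (.one (nat_lit 1782579318) .nil),
   .two (nat_lit 176160773) (nat_lit 9967763469) (.two (nat_lit 1048576) (nat_lit 176161067) .nil),
   .two (nat_lit 47548727301) (nat_lit 1913651205) (.two (nat_lit 9765388289) (nat_lit 47582281740) (.two (nat_lit 2097152) (nat_lit 739246095) (.one (nat_lit 1048900) .nil))),
   .two (nat_lit 13191086085) (nat_lit 159224168453) (.two (nat_lit 612368385) (nat_lit 158077026319) (.one (nat_lit 2097697) .nil)),
   .two (nat_lit 1358954501) (nat_lit 9768534031) (.one (nat_lit 109052038) .nil),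
   .two (nat_lit 50331653) (nat_lit 639631375) (.one (nat_lit 9915334774) .nil),
   .two (nat_lit 184549381) (nat_lit 20738736151) (.one (nat_lit 16777337) .nil),
   .two (nat_lit 1343225861) (nat_lit 156365750280) (.two (nat_lit 16777216) (nat_lit 1344274474) (.one (nat_lit 2097477) .nil)),
   .two (nat_lit 8388612) (nat_lit 3524263950) (.two (nat_lit 4194304) (nat_lit 1175453711) (.one (nat_lit 8389154) .nil)),
   .two (nat_lit 1344274437) (nat_lit 184416206853) (.two (nat_lit 34603009) (nat_lit 9867100168) (.two (nat_lit 4194304) (nat_lit 1048680) (.one (nat_lit 1049123) .nil))),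
   .two (nat_lit 184986632197) (nat_lit 166197198861) (.two (nat_lit 8388608) (nat_lit 183845781519) (.one (nat_lit 1049124) .nil)),
   .two (nat_lit 41943045) (nat_lit 9948889093) (.two (nat_lit 41943041) (nat_lit 174755676173) (.two (nat_lit 4194304) (nat_lit 166144770346) .nil)),
   .two (nat_lit 4605345797) (nat_lit 166130089988) (.two (nat_lit 8388609) (nat_lit 166130089992) (.two (nat_lit 1048576) (nat_lit 35651838) .nil)),
   .two (nat_lit 2956984325) (nat_lit 117440524) (.two (nat_lit 4194304) (nat_lit 183861510277) .nil),
   .two (nat_lit 822083589) (nat_lit 12117344264) (.two (nat_lit 16777216) (nat_lit 4634705966) (.one (nat_lit 183916036386) .nil)),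
   .two (nat_lit 2954887173) (nat_lit 158143086597) (.two (nat_lit 2097153) (nat_lit 20704133133) (.two (nat_lit 16777216) (nat_lit 337641797) .nil)),
   .two (nat_lit 8388613) (nat_lit 46992982021) (.two (nat_lit 9765388289) (nat_lit 142606349) (.two (nat_lit 4194304) (nat_lit 166144770371) .nil)),
   .two (nat_lit 50331653) (nat_lit 166129041412) (.two (nat_lit 50331649) (nat_lit 174685421594) (.one (nat_lit 156532473974) .nil)),
   .two (nat_lit 612368389) (nat_lit 754974725) (.two (nat_lit 50331649) (nat_lit 184993972239) (.one (nat_lit 1853882497) .nil)),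
   .two (nat_lit 4194308) (nat_lit 12054429701) (.two (nat_lit 41943041) (nat_lit 3527409688) (.one (nat_lit 47555018876) .nil)),
   .two (nat_lit 176160773) (nat_lit 10335813637) (.two (nat_lit 16777217) (nat_lit 1317011590) .nil),
   .two (nat_lit 169869316) (nat_lit 19134414862) (.two (nat_lit 8388608) (nat_lit 46409973894) .nil),
   .two (nat_lit 721420292) (nat_lit 4605345797) (.two (nat_lit 8388609) (nat_lit 11626610714) (.one (nat_lit 46414168185) .nil)),
   .two (nat_lit 184986632197) (nat_lit 18933088264) (.two (nat_lit 1048576) (nat_lit 158083317806) (.one (nat_lit 21777875468) .nil)),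
   .two (nat_lit 8388613) (nat_lit 18928893967) (.one (nat_lit 12121538821) .nil),
   .two (nat_lit 739246085) (nat_lit 1849688087) (.one (nat_lit 185020186745) .nil),
   .two (nat_lit 809500677) (nat_lit 157036838920) (.two (nat_lit 4194304) (nat_lit 46978301977) (.one (nat_lit 4030726277) .nil)),
   .two (nat_lit 16777221) (nat_lit 159224168463) (.one (nat_lit 19545456759) .nil),
   .two (nat_lit 16777220) (nat_lit 12117344264) (.two (nat_lit 4194304) (nat_lit 50331663) (.one (nat_lit 4647289366) .nil)),
   .two (nat_lit 2097157) (nat_lit 183853121541) (.two (nat_lit 8388609) (nat_lit 169869320) (.two (nat_lit 1048576) (nat_lit 13188989031) (.one (nat_lit 46406828166) .nil))),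
   .two (nat_lit 4194308) (nat_lit 1753219077) (.two (nat_lit 612368385) (nat_lit 4601151503) (.one (nat_lit 306184257) .nil)),
   .two (nat_lit 11479810052) (nat_lit 1786773518) (.two (nat_lit 16777216) (nat_lit 41943174) .nil),
   .two (nat_lit 11479810052) (nat_lit 165526110213) (.two (nat_lit 2097153) (nat_lit 183949590551) (.one (nat_lit 159251431706) .nil)),
   .two (nat_lit 75497477) (nat_lit 46978301957) (.two (nat_lit 2097153) (nat_lit 21785214984) (.two (nat_lit 16777216) (nat_lit 2418016301) (.one (nat_lit 2097482) .nil))),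
   .two (nat_lit 11543773189) (nat_lit 19532873733) (.two (nat_lit 8388609) (nat_lit 10372513837) (.one (nat_lit 4194854) .nil)),
   .two (nat_lit 176160773) (nat_lit 673185805) (.two (nat_lit 1048576) (nat_lit 1283457327) .nil),
   .two (nat_lit 8388613) (nat_lit 28758245381) (.two (nat_lit 8388609) (nat_lit 10538188812) (.two (nat_lit 2097152) (nat_lit 41943055) (.one (nat_lit 2357199099) .nil))),
   .two (nat_lit 10506731525) (nat_lit 135266316) (.two (nat_lit 1048576) (nat_lit 339738760) .nil),
   .two (nat_lit 176160772) (nat_lit 1745879066) (.one (nat_lit 1283457142) .nil),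
   .two (nat_lit 612368389) (nat_lit 156367847432) (.two (nat_lit 8388608) (nat_lit 46409973785) (.one (nat_lit 12155093110) .nil)),
   .two (nat_lit 605028357) (nat_lit 2902458373) (.two (nat_lit 4194305) (nat_lit 9798942733) (.two (nat_lit 4194304) (nat_lit 11525947497) (.one (nat_lit 12129927701) .nil))),
   .two (nat_lit 2954887173) (nat_lit 21207449605) (.two (nat_lit 2097153) (nat_lit 21811429389) (.two (nat_lit 16777216) (nat_lit 11577327641) (.one (nat_lit 2097484) .nil))),
   .two (nat_lit 16777221) (nat_lit 9934209032) (.two (nat_lit 2097152) (nat_lit 19612565546) (.one (nat_lit 2954887719) .nil)),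
   .two (nat_lit 8388613) (nat_lit 1795162120) (.two (nat_lit 1048576) (nat_lit 174759870479) (.one (nat_lit 9881780758) .nil)),
   .two (nat_lit 171966469) (nat_lit 654311432) (.two (nat_lit 4194304) (nat_lit 218103833) (.one (nat_lit 9966715179) .nil)),
   .two (nat_lit 50331653) (nat_lit 272629773) (.two (nat_lit 1048576) (nat_lit 174768259115) (.one (nat_lit 16777770) .nil)),
   .two (nat_lit 8388612) (nat_lit 2969567237) (.two (nat_lit 16777217) (nat_lit 343932993) .nil),
   .two (nat_lit 50331653) (nat_lit 10503585797) (.two (nat_lit 8388609) (nat_lit 185002360855) (.one (nat_lit 336593032) .nil)),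
   .two (nat_lit 69206021) (nat_lit 166196150285) (.two (nat_lit 16777216) (nat_lit 12115247148) (.one (nat_lit 2097486) .nil)),
   .two (nat_lit 2097157) (nat_lit 184549380) (.two (nat_lit 2097153) (nat_lit 672137228) (.two (nat_lit 2097152) (nat_lit 184431935530) (.one (nat_lit 47582282279) .nil))),
   .two (nat_lit 2887778308) (nat_lit 10372513797) (.two (nat_lit 4194305) (nat_lit 2887778329) (.one (nat_lit 10443817244) .nil)),
   .two (nat_lit 159217876997) (nat_lit 158083317775) (.one (nat_lit 8389153) .nil),
   .two (nat_lit 41943045) (nat_lit 1291845640) (.two (nat_lit 8388608) (nat_lit 158192369689) (.one (nat_lit 1224737022) .nil)),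
   .two (nat_lit 47550824453) (nat_lit 184993972229) (.two (nat_lit 41943041) (nat_lit 156468510763) (.one (nat_lit 19029557523) .nil)),
   .two (nat_lit 184549381) (nat_lit 13191086085) (.two (nat_lit 16777217) (nat_lit 21778923533) (.two (nat_lit 2097152) (nat_lit 46510637340) .nil)),
   .two (nat_lit 705691652) (nat_lit 10940841997) (.two (nat_lit 1048576) (nat_lit 3021996056) (.one (nat_lit 46977253630) .nil)),
   .two (nat_lit 612368389) (nat_lit 1376780300) (.two (nat_lit 8388608) (nat_lit 158176641071) (.one (nat_lit 13187940646) .nil)),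
   .two (nat_lit 272629765) (nat_lit 183845781508) (.two (nat_lit 4194305) (nat_lit 184416206874) (.one (nat_lit 12620660869) .nil)),
   .two (nat_lit 9933160453) (nat_lit 28758245384) (.two (nat_lit 1048576) (nat_lit 158144135193) (.one (nat_lit 47550824729) .nil)),
   .two (nat_lit 272629765) (nat_lit 28705816581) (.two (nat_lit 50331649) (nat_lit 3560964121) (.one (nat_lit 19100860700) .nil)),
   .two (nat_lit 34603013) (nat_lit 47555018757) (.two (nat_lit 2097153) (nat_lit 10369368072) (.two (nat_lit 2097152) (nat_lit 645922859) (.one (nat_lit 8389165) .nil))),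
   .two (nat_lit 3464495109) (nat_lit 1745879055) (.one (nat_lit 159224168569) .nil),
   .two (nat_lit 11492392964) (nat_lit 1846542341) (.two (nat_lit 605028353) (nat_lit 19612565624) .nil),
   .two (nat_lit 605028357) (nat_lit 285212677) (.two (nat_lit 4194305) (nat_lit 183845781529) (.one (nat_lit 16777552) .nil)),
   .two (nat_lit 272629765) (nat_lit 9948889093) (.two (nat_lit 2097153) (nat_lit 21223178280) (.one (nat_lit 165540790576) .nil)),
   .two (nat_lit 34603013) (nat_lit 47555018757) (.two (nat_lit 2097153) (nat_lit 10369368072) (.two (nat_lit 2097152) (nat_lit 10007609393) (.one (nat_lit 8389167) .nil))),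
   .two (nat_lit 10504634373) (nat_lit 1212153869) (.two (nat_lit 4194304) (nat_lit 2921332785) (.one (nat_lit 304087565) .nil)),
   .two (nat_lit 270532613) (nat_lit 12117344261) (.two (nat_lit 34603009) (nat_lit 9867100168) (.two (nat_lit 1048576) (nat_lit 19130220593) (.one (nat_lit 4194864) .nil))),
   .two (nat_lit 639631365) (nat_lit 19532873733) (.two (nat_lit 4194305) (nat_lit 28791799834) (.one (nat_lit 104857904) .nil)),
   .two (nat_lit 184549381) (nat_lit 28760342533) (.two (nat_lit 2097153) (nat_lit 10003415084) (.one (nat_lit 4194865) .nil)),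
   .two (nat_lit 2969567237) (nat_lit 21208498184) (.two (nat_lit 16777216) (nat_lit 158077026330) (.one (nat_lit 12633243922) .nil)),
   .two (nat_lit 184986632197) (nat_lit 20644364291) (.two (nat_lit 612368385) (nat_lit 12047089672) (.two (nat_lit 8388608) (nat_lit 12617515025) (.one (nat_lit 1048719) .nil))),
   .two (nat_lit 11492392964) (nat_lit 11476664323) (.two (nat_lit 34603009) (nat_lit 117440520) (.two (nat_lit 1048576) (nat_lit 117440527) (.one (nat_lit 156380430419) .nil))),
   .two (nat_lit 2902458372) (nat_lit 37748739) (.two (nat_lit 37748737) (nat_lit 9781116936) (.two (nat_lit 4194304) (nat_lit 9781116943) (.one (nat_lit 165540790355) .nil))),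
   .two (nat_lit 2887778308) (nat_lit 83886083) (.two (nat_lit 620756993) (nat_lit 639631368) (.two (nat_lit 16777216) (nat_lit 639631375) (.one (nat_lit 11477712980) .nil))),
   .two (nat_lit 2902458372) (nat_lit 1277165571) (.two (nat_lit 606076929) (nat_lit 654311432) (.two (nat_lit 2097152) (nat_lit 654311439) (.one (nat_lit 18941476947) .nil))),
   .two (nat_lit 156372041733) (nat_lit 68157443) (.two (nat_lit 605028353) (nat_lit 18933088264) (.two (nat_lit 1048576) (nat_lit 18933088271) (.one (nat_lit 1786773587) .nil))),
   .two (nat_lit 50331653) (nat_lit 713031683) (.two (nat_lit 41943041) (nat_lit 721420296) (.two (nat_lit 8388608) (nat_lit 721420303) (.one (nat_lit 1862271059) .nil))),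
   .two (nat_lit 50331653) (nat_lit 41943043) (.two (nat_lit 41943041) (nat_lit 721420296) (.two (nat_lit 8388608) (nat_lit 721420303) (.one (nat_lit 1862271059) .nil))),
   .two (nat_lit 10504634373) (nat_lit 28086108165) (.two (nat_lit 34603009) (nat_lit 606076937) (.two (nat_lit 1048576) (nat_lit 46407876627) (.one (nat_lit 156566028626) .nil))),
   .two (nat_lit 708837381) (nat_lit 184549379) (.two (nat_lit 16777217) (nat_lit 21210595342) (.two (nat_lit 16777216) (nat_lit 1346371638) (.one (nat_lit 4194466) .nil))),
   .two (nat_lit 101711877) (nat_lit 165526110211) (.two (nat_lit 156365750273) (nat_lit 1779433480) (.two (nat_lit 2097152) (nat_lit 1779433487) (.one (nat_lit 202375252) .nil))),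
   .two (nat_lit 11476664324) (nat_lit 83886083) (.two (nat_lit 620756993) (nat_lit 12114198536) (.two (nat_lit 16777216) (nat_lit 101711887) (.one (nat_lit 873463898) .nil))),
   .two (nat_lit 11492392962) (nat_lit 612368387) (.two (nat_lit 50331649) (nat_lit 10007609356) (.two (nat_lit 16777216) (nat_lit 28093448211) (.one (nat_lit 8388955) .nil))),
   .two (nat_lit 2902458372) (nat_lit 1277165571) (.two (nat_lit 606076929) (nat_lit 654311432) (.two (nat_lit 2097152) (nat_lit 654311439) (.one (nat_lit 183861510227) .nil))),
   .two (nat_lit 28757196805) (nat_lit 20638072837) (.two (nat_lit 2097153) (nat_lit 1846542344) (.two (nat_lit 2097152) (nat_lit 1846542351) (.one (nat_lit 184986632278) .nil))),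
   .two (nat_lit 16777218) (nat_lit 11479810052) (.two (nat_lit 16777217) (nat_lit 1178599432) (.two (nat_lit 16777216) (nat_lit 1178599439) (.one (nat_lit 158079123539) .nil))),
   .two (nat_lit 184549380) (nat_lit 176160771) (.two (nat_lit 8388609) (nat_lit 620757000) (.two (nat_lit 8388608) (nat_lit 620757007) (.one (nat_lit 166144770131) .nil))),
   .two (nat_lit 34603013) (nat_lit 18933088259) (.two (nat_lit 156372041729) (nat_lit 4027580430) (.two (nat_lit 8388608) (nat_lit 46473936949) (.one (nat_lit 4027580560) .nil))),
   .two (nat_lit 183853121540) (nat_lit 37748739) (.two (nat_lit 37748737) (nat_lit 1753219080) (.two (nat_lit 4194304) (nat_lit 1753219087) (.one (nat_lit 9772728403) .nil))),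
   .two (nat_lit 4194306) (nat_lit 9766436867) (.two (nat_lit 4194305) (nat_lit 156533522444) (.two (nat_lit 4194304) (nat_lit 606076950) (.one (nat_lit 2097501) .nil))),
   .two (nat_lit 1277165572) (nat_lit 19529728003) (.two (nat_lit 156364701697) (nat_lit 28758245384) (.two (nat_lit 1048576) (nat_lit 166230753304) (.one (nat_lit 840958026) .nil))),
   .two (nat_lit 183845781506) (nat_lit 1191182339) (.two (nat_lit 34603009) (nat_lit 117440524) (.two (nat_lit 1048576) (nat_lit 318767126) (.one (nat_lit 10921967919) .nil))),
   .two (nat_lit 2887778308) (nat_lit 620756995) (.two (nat_lit 620756993) (nat_lit 639631368) (.two (nat_lit 16777216) (nat_lit 639631375) (.one (nat_lit 11477712980) .nil))),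
   .two (nat_lit 13195280389) (nat_lit 4194307) (.two (nat_lit 4194305) (nat_lit 880803852) (.two (nat_lit 4194304) (nat_lit 13195280424) (.one (nat_lit 8388912) .nil))),
   .two (nat_lit 184549380) (nat_lit 612368387) (.two (nat_lit 612368385) (nat_lit 620757000) (.two (nat_lit 8388608) (nat_lit 620757007) (.one (nat_lit 10385096788) .nil))),
   .two (nat_lit 169869316) (nat_lit 156372041731) (.two (nat_lit 156372041729) (nat_lit 2954887176) (.two (nat_lit 8388608) (nat_lit 203423760) (.one (nat_lit 1344274583) .nil))),
   .two (nat_lit 16777218) (nat_lit 713031684) (.two (nat_lit 16777217) (nat_lit 713031688) (.two (nat_lit 16777216) (nat_lit 184993972248) (.one (nat_lit 166136381514) .nil))),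
   .two (nat_lit 46407876610) (nat_lit 10369368067) (.two (nat_lit 156365750273) (nat_lit 166196150284) (.two (nat_lit 2097152) (nat_lit 34603030) (.one (nat_lit 12147753262) .nil))),
   .two (nat_lit 11492392964) (nat_lit 2889875459) (.two (nat_lit 4194305) (nat_lit 117440520) (.two (nat_lit 4194304) (nat_lit 1191182360) (.one (nat_lit 687865930) .nil))),
   .two (nat_lit 9781116933) (nat_lit 37748739) (.two (nat_lit 37748737) (nat_lit 1191182344) (.two (nat_lit 4194304) (nat_lit 1191182351) (.one (nat_lit 28101836883) .nil))),
   .two (nat_lit 184549380) (nat_lit 41943043) (.two (nat_lit 41943041) (nat_lit 620757000) (.two (nat_lit 8388608) (nat_lit 620757007) (.one (nat_lit 10385096788) .nil))),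
   .two (nat_lit 4599054341) (nat_lit 612368387) (.two (nat_lit 612368385) (nat_lit 12148801550) (.two (nat_lit 8388608) (nat_lit 185021235253) (.one (nat_lit 12148801680) .nil))),
   .two (nat_lit 184549381) (nat_lit 47555018757) (.two (nat_lit 8388609) (nat_lit 11492392966) (.two (nat_lit 4194304) (nat_lit 20711473197) (.one (nat_lit 19100860763) .nil))),
   .two (nat_lit 1276116996) (nat_lit 20638072837) (.two (nat_lit 2097153) (nat_lit 28757196808) (.two (nat_lit 2097152) (nat_lit 28757196815) (.one (nat_lit 184986632278) .nil))),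
   .two (nat_lit 1343225861) (nat_lit 19530776581) (.two (nat_lit 2097153) (nat_lit 156364701705) (.two (nat_lit 1048576) (nat_lit 337641494) (.one (nat_lit 2097507) .nil))),
   .two (nat_lit 705691652) (nat_lit 9781116931) (.two (nat_lit 9781116929) (nat_lit 184986632200) (.two (nat_lit 16777216) (nat_lit 185020186641) (.one (nat_lit 68157579) .nil))),
   .two (nat_lit 721420292) (nat_lit 183845781507) (.two (nat_lit 34603009) (nat_lit 721420296) (.two (nat_lit 1048576) (nat_lit 184549422) (.one (nat_lit 9982443608) .nil))),
   .two (nat_lit 13195280389) (nat_lit 46409973763) (.two (nat_lit 4194305) (nat_lit 183853121544) (.two (nat_lit 4194304) (nat_lit 12054429720) (.one (nat_lit 10376708170) .nil))),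
   .two (nat_lit 11479810050) (nat_lit 156372041731) (.two (nat_lit 37748737) (nat_lit 156372041740) (.two (nat_lit 4194304) (nat_lit 158083317779) (.one (nat_lit 157043130666) .nil))),
   .two (nat_lit 11476664324) (nat_lit 620756995) (.two (nat_lit 620756993) (nat_lit 12114198536) (.two (nat_lit 16777216) (nat_lit 12147752984) (.one (nat_lit 47547678794) .nil))),
   .two (nat_lit 2889875460) (nat_lit 156365750275) (.two (nat_lit 156365750273) (nat_lit 3527409672) (.two (nat_lit 2097152) (nat_lit 9768534031) (.one (nat_lit 3024093274) .nil))),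
   .two (nat_lit 156372041733) (nat_lit 20637024259) (.two (nat_lit 605028353) (nat_lit 18933088264) (.two (nat_lit 1048576) (nat_lit 18933088271) (.one (nat_lit 1786773587) .nil))),
   .two (nat_lit 1779433477) (nat_lit 19530776579) (.two (nat_lit 156365750273) (nat_lit 156465365005) (.two (nat_lit 1048576) (nat_lit 2921332755) (.one (nat_lit 1048932) .nil))),
   .two (nat_lit 1913651205) (nat_lit 37748739) (.two (nat_lit 37748737) (nat_lit 28690087944) (.two (nat_lit 4194304) (nat_lit 28690087951) (.one (nat_lit 159216828499) .nil))),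
   .two (nat_lit 176160772) (nat_lit 721420291) (.two (nat_lit 50331649) (nat_lit 47555018760) (.two (nat_lit 16777216) (nat_lit 3028287512) (.one (nat_lit 1920991306) .nil))),
   .two (nat_lit 16777220) (nat_lit 10372513795) (.two (nat_lit 612368385) (nat_lit 50331656) (.two (nat_lit 4194304) (nat_lit 50331663) (.one (nat_lit 19142803527) .nil))),
   .two (nat_lit 4194308) (nat_lit 11476664328) (.two (nat_lit 8388609) (nat_lit 605028419) (.one (nat_lit 168821302) .nil)),
   .two (nat_lit 4194308) (nat_lit 11476664335) (.two (nat_lit 1048576) (nat_lit 169869422) (.one (nat_lit 34603573) .nil)),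
   .two (nat_lit 4194308) (nat_lit 2887778312) (.two (nat_lit 34603009) (nat_lit 69206132) (.one (nat_lit 1048934) .nil)),
   .two (nat_lit 41943045) (nat_lit 705691663) (.two (nat_lit 1048576) (nat_lit 11484004468) (.one (nat_lit 269484603) .nil)),
   .two (nat_lit 4194308) (nat_lit 9766436872) (.two (nat_lit 2097153) (nat_lit 1283457140) (.one (nat_lit 1344275013) .nil)),
   .two (nat_lit 4194308) (nat_lit 739246103) (.two (nat_lit 8388608) (nat_lit 169869669) .nil),
   .two (nat_lit 272629765) (nat_lit 203423757) (.two (nat_lit 2097153) (nat_lit 272629784) (.two (nat_lit 1048576) (nat_lit 37748852) (.one (nat_lit 68158009) .nil))),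
   .two (nat_lit 8388613) (nat_lit 11543773207) (.two (nat_lit 2097152) (nat_lit 2956984434) (.one (nat_lit 9866052151) .nil)),
   .two (nat_lit 8388613) (nat_lit 2954887191) (.two (nat_lit 1048576) (nat_lit 37748852) (.one (nat_lit 68158011) .nil)),
   .two (nat_lit 4194308) (nat_lit 639631384) (.two (nat_lit 4194304) (nat_lit 639631469) (.one (nat_lit 9934209602) .nil)),
   .two (nat_lit 9934209029) (nat_lit 1779433487) (.two (nat_lit 2097152) (nat_lit 11543773542) .nil),
   .two (nat_lit 4194308) (nat_lit 8388623) (.two (nat_lit 4194304) (nat_lit 739246438) .nil),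
   .two (nat_lit 809500677) (nat_lit 203423768) (.two (nat_lit 1048576) (nat_lit 9934209133) (.one (nat_lit 1277166147) .nil)),
   .two (nat_lit 41943045) (nat_lit 9934209048) (.two (nat_lit 4194304) (nat_lit 639631469) (.one (nat_lit 1277166143) .nil)),
   .two (nat_lit 75497477) (nat_lit 2887778312) (.two (nat_lit 612368385) (nat_lit 11476664335) (.two (nat_lit 2097152) (nat_lit 10000269431) (.one (nat_lit 1049210) .nil))),
   .two (nat_lit 9933160453) (nat_lit 20644364296) (.two (nat_lit 156372041729) (nat_lit 1276117007) (.two (nat_lit 4194304) (nat_lit 10335813751) (.one (nat_lit 1049211) .nil))),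
   .two (nat_lit 1358954501) (nat_lit 306184216) (.two (nat_lit 16777216) (nat_lit 306184301) (.one (nat_lit 4194940) .nil)),
   .two (nat_lit 4194308) (nat_lit 174759870479) (.two (nat_lit 8388608) (nat_lit 10452205686) (.one (nat_lit 16777853) .nil)),
   .two (nat_lit 8388612) (nat_lit 12117344271) (.two (nat_lit 2097152) (nat_lit 3024093303) (.one (nat_lit 159217877352) .nil)),
   .two (nat_lit 16777220) (nat_lit 169869320) (.two (nat_lit 34603009) (nat_lit 158662131754) (.two (nat_lit 1048576) (nat_lit 156365750379) (.one (nat_lit 2886730328) .nil))),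
   .two (nat_lit 12047089669) (nat_lit 1847590938) (.two (nat_lit 1048576) (nat_lit 2097280) (.one (nat_lit 19027460683) .nil)),
   .two (nat_lit 1291845636) (nat_lit 157036838927) (.two (nat_lit 2097152) (nat_lit 1191182446) (.one (nat_lit 16777854) .nil)),
   .two (nat_lit 117440517) (nat_lit 310378519) (.two (nat_lit 1048576) (nat_lit 8388856) (.one (nat_lit 8389247) .nil)),
   .two (nat_lit 16777220) (nat_lit 9966714892) (.two (nat_lit 50331649) (nat_lit 20637024271) (.two (nat_lit 1048576) (nat_lit 165528207472) (.one (nat_lit 876609897) .nil))),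
   .two (nat_lit 171966469) (nat_lit 10940841992) (.two (nat_lit 4194305) (nat_lit 165526110234) (.two (nat_lit 1048576) (nat_lit 304087159) (.one (nat_lit 2353005172) .nil))),
   .two (nat_lit 10504634373) (nat_lit 1745879055) (.two (nat_lit 1048576) (nat_lit 183913939061) (.one (nat_lit 1049217) .nil)),
   .two (nat_lit 4194308) (nat_lit 4028629018) (.two (nat_lit 1048576) (nat_lit 11611930746) (.one (nat_lit 11610882405) .nil)),
   .two (nat_lit 16777221) (nat_lit 159217877007) (.two (nat_lit 16777216) (nat_lit 159251431786) .nil),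
   .two (nat_lit 50331653) (nat_lit 9899606040) (.two (nat_lit 16777216) (nat_lit 1048705) (.one (nat_lit 37246468687) .nil)),
   .two (nat_lit 2097157) (nat_lit 4605345800) (.two (nat_lit 606076929) (nat_lit 1175453711) (.two (nat_lit 1048576) (nat_lit 19128123507) (.one (nat_lit 1209008489) .nil))),
   .two (nat_lit 2887778308) (nat_lit 166129041416) (.two (nat_lit 2097153) (nat_lit 1048618) (.two (nat_lit 8388608) (nat_lit 19127074926) (.one (nat_lit 780140904) .nil))),
   .two (nat_lit 8388612) (nat_lit 12047089679) (.two (nat_lit 8388608) (nat_lit 772800619) (.one (nat_lit 12147753578) .nil)),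
   .two (nat_lit 16777220) (nat_lit 705691656) (.two (nat_lit 4194305) (nat_lit 9798942787) (.one (nat_lit 158077026665) .nil)),
   .two (nat_lit 8388612) (nat_lit 183913938958) (.two (nat_lit 8388609) (nat_lit 46474985537) (.one (nat_lit 28757197159) .nil)),
   .two (nat_lit 176160772) (nat_lit 185020186636) (.two (nat_lit 34603009) (nat_lit 176160783) (.two (nat_lit 8388608) (nat_lit 12147753025) (.one (nat_lit 1049219) .nil))),
   .two (nat_lit 8388612) (nat_lit 705691656) (.two (nat_lit 605028353) (nat_lit 9766436879) (.two (nat_lit 2097152) (nat_lit 11577327743) (.one (nat_lit 4034921050) .nil))),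
   .two (nat_lit 4194308) (nat_lit 184549391) (.two (nat_lit 16777216) (nat_lit 9902751863) (.one (nat_lit 4194948) .nil)),
   .two (nat_lit 184549380) (nat_lit 3527409688) (.two (nat_lit 16777216) (nat_lit 3527409772) (.one (nat_lit 205521518) .nil)),
   .two (nat_lit 8388612) (nat_lit 183845781512) (.two (nat_lit 612368385) (nat_lit 11476664335) (.two (nat_lit 1048576) (nat_lit 8388857) (.one (nat_lit 156969730409) .nil))),
   .two (nat_lit 272629765) (nat_lit 165526110223) (.two (nat_lit 2097152) (nat_lit 1312817271) (.one (nat_lit 4194949) .nil)),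
   .two (nat_lit 754974725) (nat_lit 847249421) (.two (nat_lit 41943041) (nat_lit 183962173464) (.two (nat_lit 2097152) (nat_lit 158158815353) (.one (nat_lit 2097798) .nil))),
   .two (nat_lit 713031685) (nat_lit 12114198541) (.two (nat_lit 16777217) (nat_lit 183946444866) (.one (nat_lit 740295259) .nil)),
   .two (nat_lit 713031684) (nat_lit 10336862216) (.two (nat_lit 2097153) (nat_lit 184993972239) (.two (nat_lit 8388608) (nat_lit 1847590977) (.one (nat_lit 2097799) .nil))),
   .two (nat_lit 270532613) (nat_lit 822083592) (.two (nat_lit 34603009) (nat_lit 156969730063) (.two (nat_lit 1048576) (nat_lit 9915334786) (.one (nat_lit 12047090026) .nil))),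
   .two (nat_lit 176160772) (nat_lit 158158815240) (.two (nat_lit 8388609) (nat_lit 10942939151) (.two (nat_lit 2097152) (nat_lit 239075689) .nil)),
   .two (nat_lit 50331653) (nat_lit 184423546888) (.two (nat_lit 41943041) (nat_lit 11492392975) (.two (nat_lit 2097152) (nat_lit 10385096827) (.one (nat_lit 10370416999) .nil))),
   .two (nat_lit 2956984325) (nat_lit 3464495119) (.two (nat_lit 4194304) (nat_lit 1048826) (.one (nat_lit 166229705061) .nil)),
   .two (nat_lit 16777221) (nat_lit 1376780300) (.two (nat_lit 620756993) (nat_lit 9899606081) (.one (nat_lit 16777864) .nil)),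
   .two (nat_lit 16777221) (nat_lit 1379926030) (.two (nat_lit 4194305) (nat_lit 184549391) (.two (nat_lit 1048576) (nat_lit 156367847535) (.one (nat_lit 46523220327) .nil))),
   .two (nat_lit 2889875461) (nat_lit 19026411545) (.two (nat_lit 16777216) (nat_lit 1048827) (.one (nat_lit 1049225) .nil)),
   .two (nat_lit 203423749) (nat_lit 156968681496) (.two (nat_lit 2097152) (nat_lit 156968681581) (.one (nat_lit 1049226) .nil)),
   .two (nat_lit 8388612) (nat_lit 11479810063) (.two (nat_lit 4194304) (nat_lit 28697428085) (.one (nat_lit 9869197907) .nil)),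
   .two (nat_lit 16777220) (nat_lit 169869320) (.two (nat_lit 606076929) (nat_lit 18925748239) (.two (nat_lit 1048576) (nat_lit 174753579131) (.one (nat_lit 20637024617) .nil))),
   .two (nat_lit 4194308) (nat_lit 11559501832) (.two (nat_lit 4194305) (nat_lit 28087156751) (.two (nat_lit 2097152) (nat_lit 2936012919) (.one (nat_lit 16777868) .nil))),
   .two (nat_lit 16777221) (nat_lit 840957966) (.two (nat_lit 16777217) (nat_lit 18928893967) (.two (nat_lit 2097152) (nat_lit 156367847536) (.one (nat_lit 4194958) .nil))),
   .two (nat_lit 4194308) (nat_lit 2961178632) (.two (nat_lit 37748737) (nat_lit 10369368079) (.two (nat_lit 1048576) (nat_lit 165528207479) (.one (nat_lit 11476664681) .nil))),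
   .two (nat_lit 2097157) (nat_lit 13195280399) (.two (nat_lit 4194304) (nat_lit 2994733415) .nil),
   .two (nat_lit 8388612) (nat_lit 169869320) (.two (nat_lit 606076929) (nat_lit 1175453711) (.two (nat_lit 16777216) (nat_lit 28757197160) .nil)),
   .two (nat_lit 809500677) (nat_lit 1847590920) (.two (nat_lit 9766436865) (nat_lit 11479810063) (.two (nat_lit 2097152) (nat_lit 11479810114) (.one (nat_lit 20707279454) .nil))),
   .two (nat_lit 272629765) (nat_lit 28757196813) (.two (nat_lit 4194305) (nat_lit 159224168463) (.two (nat_lit 4194304) (nat_lit 19596836981) (.one (nat_lit 2990539115) .nil))),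
   .two (nat_lit 4194308) (nat_lit 839909389) (.two (nat_lit 4194305) (nat_lit 873463849) (.two (nat_lit 1048576) (nat_lit 157038936189) (.one (nat_lit 20737688203) .nil))),
   .two (nat_lit 713031685) (nat_lit 12114198541) (.two (nat_lit 2097153) (nat_lit 28690087951) (.two (nat_lit 8388608) (nat_lit 156968681594) (.one (nat_lit 156466414178) .nil))),
   .two (nat_lit 184549380) (nat_lit 68157448) (.two (nat_lit 4194305) (nat_lit 28086108200) (.two (nat_lit 4194304) (nat_lit 2416967803) (.one (nat_lit 3460301157) .nil))),
   .two (nat_lit 16777220) (nat_lit 169869320) (.two (nat_lit 37748737) (nat_lit 11510218818) (.one (nat_lit 174752530792) .nil)),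
   .two (nat_lit 806354949) (nat_lit 13191086088) (.two (nat_lit 9765388289) (nat_lit 606076943) (.two (nat_lit 2097152) (nat_lit 1048831) (.one (nat_lit 159217877354) .nil))),
   .two (nat_lit 272629765) (nat_lit 2969567240) (.two (nat_lit 9768534017) (nat_lit 165525061647) (.two (nat_lit 1048576) (nat_lit 10372513911) (.one (nat_lit 235929958) .nil))),
   .two (nat_lit 176160772) (nat_lit 1309671450) (.two (nat_lit 8388608) (nat_lit 1048707) (.one (nat_lit 1049234) .nil)),
   .two (nat_lit 50331653) (nat_lit 156372041743) (.two (nat_lit 8388608) (nat_lit 11492393025) (.one (nat_lit 46523220326) .nil)),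
   .two (nat_lit 739246085) (nat_lit 183848927247) (.two (nat_lit 4194304) (nat_lit 1048708) (.one (nat_lit 159216829014) .nil))]

theorem k0 : chkL tab c0 (nat_lit 0) = true := by decide +kernel

theorem l0 : c0.length = 1300 := by decide +kernel

end K2

end Pool.Agent.Work.MP_bf01b2_co.MR
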