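import Pool.Agent.Work.MP_bf01b2_co.MR.K2T

/-!
# Two roots in `Q_5`: certificates of the entries 1300 to 2599
-/

set_option autoImplicit false
set_option maxRecDepth 100000

namespace Pool.Agent.Work.MP_bf01b2_co.MR

namespace K2

open JT

/-- certificates of the entries 1300 to 2599 -/
def c1 : List Rc :=
  [.two (nat_lit 4194308) (nat_lit 11476664328) (.two (nat_lit 606076929) (nat_lit 10909384822) (.one (nat_lit 19026412167) .nil)),
   .two (nat_lit 9933160453) (nat_lit 9948889096) (.two (nat_lit 8388609) (nat_lit 10335813699) (.one (nat_lit 4194668) .nil)),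
   .two (nat_lit 16777220) (nat_lit 156533522456) (.two (nat_lit 16777216) (nat_lit 156533522541) (.one (nat_lit 2097812) .nil)),
   .two (nat_lit 11476664324) (nat_lit 166130090009) (.two (nat_lit 1048576) (nat_lit 1780482174) (.one (nat_lit 2097816) .nil)),
   .two (nat_lit 2954887173) (nat_lit 18928893967) (.two (nat_lit 2097152) (nat_lit 13191086147) (.one (nat_lit 4601151846) .nil)),
   .two (nat_lit 34603013) (nat_lit 8388616) (.two (nat_lit 605028353) (nat_lit 673185917) (.one (nat_lit 28791800172) .nil)),
   .two (nat_lit 16777220) (nat_lit 184423546888) (.two (nat_lit 8388609) (nat_lit 156969730063) (.two (nat_lit 2097152) (nat_lit 654311547) (.one (nat_lit 184417255782) .nil))),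
   .two (nat_lit 721420293) (nat_lit 184423546888) (.two (nat_lit 16777217) (nat_lit 28691136527) (.two (nat_lit 2097152) (nat_lit 158150426754) (.one (nat_lit 2097817) .nil))),
   .two (nat_lit 1343225861) (nat_lit 9781116943) (.two (nat_lit 8388608) (nat_lit 1048709) (.one (nat_lit 174692762204) .nil)),
   .two (nat_lit 16777221) (nat_lit 1209008142) (.two (nat_lit 37748737) (nat_lit 165525061647) (.two (nat_lit 16777216) (nat_lit 10942939381) (.one (nat_lit 20719862124) .nil))),
   .two (nat_lit 11543773189) (nat_lit 183853121544) (.two (nat_lit 16777217) (nat_lit 156364701815) (.one (nat_lit 9772728949) .nil)),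
   .two (nat_lit 21207449605) (nat_lit 12050235418) (.two (nat_lit 1048576) (nat_lit 205521024) (.one (nat_lit 1916797525) .nil)),
   .two (nat_lit 11476664324) (nat_lit 10007609356) (.two (nat_lit 34603009) (nat_lit 3028287553) (.one (nat_lit 1786773865) .nil)),
   .two (nat_lit 10504634373) (nat_lit 46984593434) (.two (nat_lit 2097152) (nat_lit 8388743) (.one (nat_lit 8389279) .nil)),
   .two (nat_lit 16777221) (nat_lit 13191086095) (.two (nat_lit 16777216) (nat_lit 10942939264) (.one (nat_lit 4194977) .nil)),
   .two (nat_lit 822083589) (nat_lit 3558866970) (.two (nat_lit 1048576) (nat_lit 1948254336) (.one (nat_lit 2097826) .nil)),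
   .two (nat_lit 1277165573) (nat_lit 28693233688) (.two (nat_lit 2097152) (nat_lit 1916797036) (.one (nat_lit 4194980) .nil)),
   .two (nat_lit 270532613) (nat_lit 612368399) (.two (nat_lit 1048576) (nat_lit 12115247228) (.one (nat_lit 3020948123) .nil)),
   .two (nat_lit 16777220) (nat_lit 11476664328) (.two (nat_lit 2097153) (nat_lit 10436476951) (.two (nat_lit 2097152) (nat_lit 1209008235) (.one (nat_lit 47547679415) .nil))),
   .two (nat_lit 2887778308) (nat_lit 156968681480) (.two (nat_lit 9766436865) (nat_lit 135266411) (.one (nat_lit 11510219370) .nil)),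
   .two (nat_lit 184986632197) (nat_lit 46414168079) (.two (nat_lit 8388608) (nat_lit 183912890477) (.one (nat_lit 1049284) .nil)),
   .two (nat_lit 169869316) (nat_lit 20637024264) (.two (nat_lit 2097153) (nat_lit 158075977743) (.two (nat_lit 1048576) (nat_lit 2350907509) (.one (nat_lit 4599054699) .nil))),
   .two (nat_lit 2887778308) (nat_lit 21811429388) (.two (nat_lit 605028353) (nat_lit 203423759) (.two (nat_lit 2097152) (nat_lit 185020186689) (.one (nat_lit 9966715240) .nil))),
   .two (nat_lit 4599054341) (nat_lit 9781116943) (.two (nat_lit 1048576) (nat_lit 3472883840) (.one (nat_lit 20652753603) .nil)),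
   .two (nat_lit 12047089669) (nat_lit 9781116943) (.two (nat_lit 1048576) (nat_lit 4647288899) (.one (nat_lit 156984410473) .nil)),
   .two (nat_lit 20644364292) (nat_lit 2923429914) (.two (nat_lit 1048576) (nat_lit 158146232442) (.one (nat_lit 1413481139) .nil)),
   .two (nat_lit 2956984325) (nat_lit 174759870476) (.two (nat_lit 4194305) (nat_lit 174759870479) (.two (nat_lit 1048576) (nat_lit 28806480234) .nil)),
   .two (nat_lit 4194308) (nat_lit 183845781529) (.two (nat_lit 16777216) (nat_lit 158646403195) (.one (nat_lit 1049286) .nil)),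
   .two (nat_lit 16777221) (nat_lit 3464495130) (.two (nat_lit 1048576) (nat_lit 19545456762) (.one (nat_lit 1779433831) .nil)),
   .two (nat_lit 184986632197) (nat_lit 9768534031) (.two (nat_lit 1048576) (nat_lit 46510637122) (.one (nat_lit 166199296360) .nil)),
   .two (nat_lit 2887778308) (nat_lit 19596836877) (.two (nat_lit 16777217) (nat_lit 11476664335) (.two (nat_lit 2097152) (nat_lit 3457155197) (.one (nat_lit 1049288) .nil))),
   .two (nat_lit 46978301957) (nat_lit 13191086095) (.two (nat_lit 4194304) (nat_lit 2988441665) (.one (nat_lit 46508540263) .nil)),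
   .two (nat_lit 184549380) (nat_lit 236978201) (.two (nat_lit 1048576) (nat_lit 18926796912) (.one (nat_lit 11543773544) .nil)),
   .two (nat_lit 721420293) (nat_lit 46978301965) (.two (nat_lit 2097153) (nat_lit 16777241) (.two (nat_lit 8388608) (nat_lit 184431935851) .nil)),
   .two (nat_lit 34603013) (nat_lit 50331656) (.two (nat_lit 4194305) (nat_lit 11510218818) (.one (nat_lit 1847591613) .nil)),
   .two (nat_lit 34603013) (nat_lit 285212687) (.two (nat_lit 8388608) (nat_lit 185035915623) .nil),
   .two (nat_lit 2097157) (nat_lit 46409973768) (.two (nat_lit 2097153) (nat_lit 12050235515) (.one (nat_lit 184416207208) .nil)),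
   .two (nat_lit 21785214981) (nat_lit 843055130) (.two (nat_lit 2097152) (nat_lit 2990538880) (.one (nat_lit 2319450739) .nil)),
   .two (nat_lit 721420292) (nat_lit 1312817166) (.two (nat_lit 37748737) (nat_lit 11626610712) (.two (nat_lit 2097152) (nat_lit 4601151610) (.one (nat_lit 19530776935) .nil))),
   .two (nat_lit 184549381) (nat_lit 46978301965) (.two (nat_lit 34603009) (nat_lit 318767129) (.two (nat_lit 1048576) (nat_lit 19042140289) (.one (nat_lit 13221495147) .nil))),
   .two (nat_lit 171966469) (nat_lit 9948889096) (.two (nat_lit 37748737) (nat_lit 34603137) (.one (nat_lit 21207449962) .nil)),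
   .two (nat_lit 171966469) (nat_lit 10336862223) (.two (nat_lit 1048576) (nat_lit 46978302196) (.one (nat_lit 19530777273) .nil)),
   .two (nat_lit 9881780229) (nat_lit 12117344280) (.two (nat_lit 16777216) (nat_lit 12117344365) (.one (nat_lit 4195019) .nil)),
   .two (nat_lit 169869316) (nat_lit 20637024264) (.two (nat_lit 4194305) (nat_lit 873463849) (.two (nat_lit 4194304) (nat_lit 159251431548) (.one (nat_lit 10939794096) .nil))),
   .two (nat_lit 2097157) (nat_lit 822083592) (.two (nat_lit 606076929) (nat_lit 9798942835) (.one (nat_lit 10906239340) .nil)),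
   .two (nat_lit 21777874949) (nat_lit 11513364504) (.two (nat_lit 1048576) (nat_lit 843055212) (.one (nat_lit 4195025) .nil)),
   .two (nat_lit 12054429701) (nat_lit 9799991322) (.two (nat_lit 8388608) (nat_lit 10336862343) (.one (nat_lit 19530777296) .nil)),
   .two (nat_lit 169869316) (nat_lit 4605345799) (.two (nat_lit 8388611) (nat_lit 159217877000) (.two (nat_lit 8388609) (nat_lit 2988441617) (.two (nat_lit 8388608) (nat_lit 1411383581) (.one (nat_lit 2097925) .nil)))),
   .two (nat_lit 10940841989) (nat_lit 272629767) (.two (nat_lit 19530776579) (nat_lit 272629768) (.two (nat_lit 156365750273) (nat_lit 272629775) (.two (nat_lit 2097152) (nat_lit 9902751827) (.one (nat_lit 28693234040) .nil)))),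
   .two (nat_lit 101711877) (nat_lit 1753219079) (.two (nat_lit 18933088259) (nat_lit 183845781513) (.two (nat_lit 605028353) (nat_lit 18933088296) (.two (nat_lit 1048576) (nat_lit 18933088370) (.one (nat_lit 12624855237) .nil)))),
   .two (nat_lit 169869314) (nat_lit 104857607) (.two (nat_lit 1283457027) (nat_lit 28691136521) (.two (nat_lit 2097153) (nat_lit 19096666136) (.two (nat_lit 8388608) (nat_lit 4601151634) (.one (nat_lit 171967232) .nil)))),
   .two (nat_lit 4194306) (nat_lit 28093448200) (.two (nat_lit 4194305) (nat_lit 28093448207) (.two (nat_lit 4194304) (nat_lit 1317011477) (.one (nat_lit 8389382) .nil))),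
   .two (nat_lit 46978301957) (nat_lit 1753219079) (.two (nat_lit 46407876611) (nat_lit 1753219080) (.two (nat_lit 2097153) (nat_lit 1753219087) (.two (nat_lit 2097152) (nat_lit 46984593478) (.one (nat_lit 19033751924) .nil)))),
   .two (nat_lit 10503585797) (nat_lit 10538188812) (.two (nat_lit 16777217) (nat_lit 41943055) (.two (nat_lit 2097152) (nat_lit 174685421689) (.one (nat_lit 1049351) .nil))),
   .two (nat_lit 184549381) (nat_lit 12117344264) (.two (nat_lit 50331649) (nat_lit 806354986) (.two (nat_lit 16777216) (nat_lit 1343225944) (.one (nat_lit 1049352) .nil))),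
   .two (nat_lit 16777221) (nat_lit 2954887176) (.two (nat_lit 16777217) (nat_lit 2954887183) (.two (nat_lit 16777216) (nat_lit 203423779) (.one (nat_lit 10538188896) .nil))),
   .two (nat_lit 184549378) (nat_lit 1749024777) (.two (nat_lit 4194305) (nat_lit 184549395) (.two (nat_lit 4194304) (nat_lit 184549395) (.one (nat_lit 4194734) .nil))),
   .two (nat_lit 11479810050) (nat_lit 157036838920) (.two (nat_lit 37748737) (nat_lit 157036838927) (.two (nat_lit 4194304) (nat_lit 3458203666) (.one (nat_lit 19027460193) .nil))),
   .two (nat_lit 3525312517) (nat_lit 117440519) (.two (nat_lit 2887778307) (nat_lit 117440520) (.two (nat_lit 2097153) (nat_lit 117440527) (.two (nat_lit 2097152) (nat_lit 156380430419) (.one (nat_lit 12148802288) .nil)))),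
   .two (nat_lit 28693233669) (nat_lit 1914699783) (.two (nat_lit 166130089987) (nat_lit 156468510733) (.two (nat_lit 606076929) (nat_lit 159257722930) (.two (nat_lit 2097152) (nat_lit 8388908) (.one (nat_lit 4195081) .nil)))),
   .two (nat_lit 1343225861) (nat_lit 706740234) (.two (nat_lit 2097153) (nat_lit 166196150291) (.two (nat_lit 1048576) (nat_lit 156365750291) (.one (nat_lit 2097931) .nil))),
   .two (nat_lit 10939793413) (nat_lit 159217877000) (.two (nat_lit 156364701697) (nat_lit 169869323) (.two (nat_lit 2097152) (nat_lit 11510218772) (.one (nat_lit 2097932) .nil))),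
   .two (nat_lit 184549381) (nat_lit 12054429704) (.two (nat_lit 16777217) (nat_lit 184423546891) (.two (nat_lit 8388608) (nat_lit 13203669012) (.one (nat_lit 4638901002) .nil))),
   .two (nat_lit 20638072836) (nat_lit 2969567239) (.two (nat_lit 20638072835) (nat_lit 2969567244) (.two (nat_lit 606076929) (nat_lit 184549416) (.two (nat_lit 2097152) (nat_lit 184549490) (.one (nat_lit 9982443717) .nil)))),
   .two (nat_lit 2887778308) (nat_lit 620757000) (.two (nat_lit 16777217) (nat_lit 203423755) (.two (nat_lit 16777216) (nat_lit 3458203668) (.one (nat_lit 16777972) .nil))),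
   .two (nat_lit 28757196805) (nat_lit 721420296) (.two (nat_lit 9765388289) (nat_lit 185002360849) (.two (nat_lit 4194304) (nat_lit 11543773317) (.one (nat_lit 1049358) .nil))),
   .two (nat_lit 654311429) (nat_lit 19130220557) (.two (nat_lit 4194305) (nat_lit 28806479898) (.two (nat_lit 16777216) (nat_lit 641728532) (.one (nat_lit 687866620) .nil))),
   .two (nat_lit 8388613) (nat_lit 3527409671) (.two (nat_lit 8388611) (nat_lit 3527409672) (.two (nat_lit 4194305) (nat_lit 176160783) (.two (nat_lit 8388608) (nat_lit 339738773) (.one (nat_lit 12155093403) .nil)))),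
   .two (nat_lit 10504634373) (nat_lit 1745879047) (.two (nat_lit 165525061635) (nat_lit 673185804) (.two (nat_lit 156364701697) (nat_lit 337641501) (.two (nat_lit 1048576) (nat_lit 3021996168) (.one (nat_lit 2097935) .nil)))),
   .two (nat_lit 28760342533) (nat_lit 158143086599) (.two (nat_lit 612368387) (nat_lit 3460300808) (.two (nat_lit 612368385) (nat_lit 46980399119) (.two (nat_lit 1048576) (nat_lit 12620660855) (.one (nat_lit 183949591218) .nil)))),
   .two (nat_lit 10336862213) (nat_lit 19529728008) (.two (nat_lit 16777217) (nat_lit 165526110223) (.two (nat_lit 1048576) (nat_lit 4632609028) (.one (nat_lit 2097936) .nil))),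
   .two (nat_lit 605028357) (nat_lit 1291845640) (.two (nat_lit 4194305) (nat_lit 1291845647) (.two (nat_lit 16777216) (nat_lit 46507491461) (.one (nat_lit 16778001) .nil))),
   .two (nat_lit 69206021) (nat_lit 16777224) (.two (nat_lit 37748737) (nat_lit 156365750287) (.two (nat_lit 4194304) (nat_lit 10015998072) (.one (nat_lit 16778002) .nil))),
   .two (nat_lit 46409973765) (nat_lit 639631368) (.two (nat_lit 4194305) (nat_lit 639631375) (.two (nat_lit 4194304) (nat_lit 639631396) (.one (nat_lit 3527410388) .nil))),
   .two (nat_lit 705691652) (nat_lit 10343153672) (.two (nat_lit 34603009) (nat_lit 10343153679) (.two (nat_lit 1048576) (nat_lit 46414168083) (.one (nat_lit 8389395) .nil))),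
   .two (nat_lit 4194308) (nat_lit 10504634376) (.two (nat_lit 4194305) (nat_lit 10504634383) (.two (nat_lit 4194304) (nat_lit 11511267400) (.one (nat_lit 11010048201) .nil))),
   .two (nat_lit 18928893957) (nat_lit 101711880) (.two (nat_lit 4194305) (nat_lit 101711887) (.two (nat_lit 4194304) (nat_lit 101711908) (.one (nat_lit 2956985090) .nil))),
   .two (nat_lit 1277165573) (nat_lit 19596836871) (.two (nat_lit 1277165571) (nat_lit 19596836872) (.two (nat_lit 606076929) (nat_lit 19596836879) (.two (nat_lit 2097152) (nat_lit 605028435) (.one (nat_lit 13221495170) .nil)))),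
   .two (nat_lit 1847590917) (nat_lit 11543773191) (.two (nat_lit 705691651) (nat_lit 156533522444) (.two (nat_lit 34603009) (nat_lit 19027460137) (.two (nat_lit 1048576) (nat_lit 46474985582) (.one (nat_lit 169869999) .nil)))),
   .two (nat_lit 713031685) (nat_lit 12114198535) (.two (nat_lit 713031683) (nat_lit 12114198536) (.two (nat_lit 34603009) (nat_lit 41943055) (.two (nat_lit 8388608) (nat_lit 873463957) (.one (nat_lit 8389046) .nil)))),
   .two (nat_lit 184549378) (nat_lit 1916796935) (.two (nat_lit 1178599427) (nat_lit 1929379849) (.two (nat_lit 16777217) (nat_lit 28693233679) (.two (nat_lit 16777216) (nat_lit 104857637) (.one (nat_lit 4195092) .nil)))),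
   .two (nat_lit 11492392962) (nat_lit 68157449) (.two (nat_lit 50331649) (nat_lit 156465365011) (.two (nat_lit 1048576) (nat_lit 822083603) (.one (nat_lit 12114198918) .nil))),
   .two (nat_lit 1343225861) (nat_lit 1279262734) (.two (nat_lit 37748737) (nat_lit 10000269362) (.two (nat_lit 16777216) (nat_lit 10906239045) (.one (nat_lit 1049365) .nil))),
   .two (nat_lit 809500677) (nat_lit 28691136520) (.two (nat_lit 37748737) (nat_lit 28691136527) (.two (nat_lit 4194304) (nat_lit 102760485) (.one (nat_lit 4195094) .nil))),
   .two (nat_lit 11476664324) (nat_lit 10343153671) (.two (nat_lit 11476664323) (nat_lit 10343153672) (.two (nat_lit 34603009) (nat_lit 46414168079) (.two (nat_lit 1048576) (nat_lit 276824101) (.one (nat_lit 806355679) .nil)))),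
   .two (nat_lit 272629765) (nat_lit 10385096712) (.two (nat_lit 4194305) (nat_lit 158158815243) (.two (nat_lit 16777216) (nat_lit 641728532) (.one (nat_lit 16778009) .nil))),
   .two (nat_lit 11543773189) (nat_lit 158144135176) (.two (nat_lit 34603009) (nat_lit 158144135183) (.two (nat_lit 1048576) (nat_lit 20638072869) (.one (nat_lit 37314626168) .nil))),
   .two (nat_lit 1276116996) (nat_lit 166130089992) (.two (nat_lit 605028353) (nat_lit 12115247150) (.two (nat_lit 1048576) (nat_lit 136314902) (.one (nat_lit 12147753339) .nil))),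
   .two (nat_lit 19596836869) (nat_lit 1358954503) (.two (nat_lit 83886083) (nat_lit 705691657) (.two (nat_lit 9765388289) (nat_lit 83886120) (.two (nat_lit 1048576) (nat_lit 788529286) (.one (nat_lit 19042140551) .nil)))),
   .two (nat_lit 2887778306) (nat_lit 9948889096) (.two (nat_lit 2097153) (nat_lit 9948889103) (.two (nat_lit 2097152) (nat_lit 184549395) (.one (nat_lit 20652752994) .nil))),
   .two (nat_lit 28758245381) (nat_lit 1745879047) (.two (nat_lit 165525061635) (nat_lit 673185804) (.two (nat_lit 156364701697) (nat_lit 1411383325) (.two (nat_lit 1048576) (nat_lit 10437525625) (.one (nat_lit 10001318637) .nil)))),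
   .two (nat_lit 16777221) (nat_lit 1916796936) (.two (nat_lit 16777217) (nat_lit 1916796943) (.two (nat_lit 16777216) (nat_lit 1916796964) (.one (nat_lit 16778011) .nil))),
   .two (nat_lit 156968681477) (nat_lit 117440519) (.two (nat_lit 1191182339) (nat_lit 168820746) (.two (nat_lit 34603009) (nat_lit 9781116943) (.two (nat_lit 1048576) (nat_lit 1962934309) (.one (nat_lit 10015998709) .nil)))),
   .two (nat_lit 28690087941) (nat_lit 159217876999) (.two (nat_lit 166129041411) (nat_lit 159217877000) (.two (nat_lit 9765388289) (nat_lit 159217877007) (.two (nat_lit 1048576) (nat_lit 11611930708) (.one (nat_lit 773849499) .nil)))),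
   .two (nat_lit 2956984325) (nat_lit 10385096712) (.two (nat_lit 4194305) (nat_lit 28806479898) (.two (nat_lit 1048576) (nat_lit 2902458493) (.one (nat_lit 16778012) .nil))),
   .two (nat_lit 806354949) (nat_lit 10506731528) (.two (nat_lit 2097153) (nat_lit 1276117007) (.two (nat_lit 2097152) (nat_lit 3024093221) (.one (nat_lit 47550825242) .nil))),
   .two (nat_lit 11476664324) (nat_lit 174753579021) (.two (nat_lit 156365750273) (nat_lit 739246106) (.two (nat_lit 1048576) (nat_lit 337641626) (.one (nat_lit 2097949) .nil))),
   .two (nat_lit 10506731525) (nat_lit 50331656) (.two (nat_lit 9768534017) (nat_lit 50331663) (.two (nat_lit 4194304) (nat_lit 50331684) (.one (nat_lit 1749025538) .nil))),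
   .two (nat_lit 4194308) (nat_lit 10385096712) (.two (nat_lit 4194305) (nat_lit 10385096719) (.two (nat_lit 4194304) (nat_lit 20753416213) (.one (nat_lit 16777944) .nil))),
   .two (nat_lit 28757196805) (nat_lit 185002360840) (.two (nat_lit 9765388289) (nat_lit 11626610705) (.two (nat_lit 2097152) (nat_lit 10436477049) (.one (nat_lit 1049374) .nil))),
   .two (nat_lit 159216828421) (nat_lit 165532401672) (.two (nat_lit 4194305) (nat_lit 46514831408) (.two (nat_lit 1048576) (nat_lit 4194326) (.one (nat_lit 9974055652) .nil))),
   .two (nat_lit 158144135173) (nat_lit 184986632199) (.two (nat_lit 705691651) (nat_lit 673185805) (.two (nat_lit 34603009) (nat_lit 807403547) (.two (nat_lit 1048576) (nat_lit 47548727332) (.one (nat_lit 2097849) .nil)))),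
   .two (nat_lit 2097157) (nat_lit 10343153672) (.two (nat_lit 2097153) (nat_lit 166129041423) (.two (nat_lit 2097152) (nat_lit 183920230529) (.one (nat_lit 8389407) .nil))),
   .two (nat_lit 184549380) (nat_lit 13187940359) (.two (nat_lit 2097155) (nat_lit 184549384) (.two (nat_lit 2097153) (nat_lit 184549391) (.two (nat_lit 2097152) (nat_lit 159250383108) (.one (nat_lit 16778016) .nil)))),
   .two (nat_lit 3525312517) (nat_lit 272629767) (.two (nat_lit 2889875459) (nat_lit 47582281740) (.two (nat_lit 4194305) (nat_lit 102760477) (.two (nat_lit 4194304) (nat_lit 157036839033) (.one (nat_lit 1780482792) .nil)))),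
   .two (nat_lit 11476664322) (nat_lit 21785214984) (.two (nat_lit 34603009) (nat_lit 21785214991) (.two (nat_lit 1048576) (nat_lit 713031698) (.one (nat_lit 612368482) .nil))),
   .two (nat_lit 9934209029) (nat_lit 1753219079) (.two (nat_lit 606076931) (nat_lit 1753219080) (.two (nat_lit 606076929) (nat_lit 1753219087) (.two (nat_lit 2097152) (nat_lit 9772728403) (.one (nat_lit 10007609720) .nil)))),
   .two (nat_lit 46409973764) (nat_lit 11543773191) (.two (nat_lit 11476664323) (nat_lit 46409973768) (.two (nat_lit 34603009) (nat_lit 46409973775) (.two (nat_lit 1048576) (nat_lit 4194341) (.one (nat_lit 10909385450) .nil)))),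
   .two (nat_lit 620756997) (nat_lit 11578376206) (.two (nat_lit 41943041) (nat_lit 3458203671) (.two (nat_lit 8388608) (nat_lit 12633243936) (.one (nat_lit 16778017) .nil))),
   .two (nat_lit 159217876997) (nat_lit 166132187142) (.two (nat_lit 606076929) (nat_lit 1849688075) (.two (nat_lit 2097152) (nat_lit 104857620) (.one (nat_lit 2097883) .nil))),
   .two (nat_lit 169869316) (nat_lit 9781116936) (.two (nat_lit 2097153) (nat_lit 9781116943) (.two (nat_lit 2097152) (nat_lit 9781116964) (.one (nat_lit 2097954) .nil))),
   .two (nat_lit 20638072836) (nat_lit 157038936072) (.two (nat_lit 606076929) (nat_lit 157038936079) (.two (nat_lit 2097152) (nat_lit 157038936100) (.one (nat_lit 158079123841) .nil))),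
   .two (nat_lit 708837381) (nat_lit 10939793416) (.two (nat_lit 4194305) (nat_lit 10939793423) (.two (nat_lit 2097152) (nat_lit 174752530468) (.one (nat_lit 47584379602) .nil))),
   .two (nat_lit 2894069765) (nat_lit 620757000) (.two (nat_lit 8388609) (nat_lit 620757007) (.two (nat_lit 1048576) (nat_lit 620757028) (.one (nat_lit 10335814355) .nil))),
   .two (nat_lit 169869316) (nat_lit 158083317768) (.two (nat_lit 2097153) (nat_lit 47555018798) (.two (nat_lit 2097152) (nat_lit 9940500568) (.one (nat_lit 8389411) .nil))),
   .two (nat_lit 46407876612) (nat_lit 809500679) (.two (nat_lit 37748739) (nat_lit 157036838920) (.two (nat_lit 37748737) (nat_lit 3458203663) (.two (nat_lit 4194304) (nat_lit 47548727332) (.one (nat_lit 2097956) .nil)))),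
   .two (nat_lit 739246085) (nat_lit 16777223) (.two (nat_lit 16777219) (nat_lit 158143086600) (.two (nat_lit 16777217) (nat_lit 12147752977) (.two (nat_lit 16777216) (nat_lit 1745879076) (.one (nat_lit 1049274) .nil)))),
   .two (nat_lit 713031684) (nat_lit 620757000) (.two (nat_lit 41943041) (nat_lit 620757007) (.two (nat_lit 8388608) (nat_lit 47563407379) (.one (nat_lit 50332085) .nil))),
   .two (nat_lit 1916796933) (nat_lit 673185804) (.two (nat_lit 9766436865) (nat_lit 876609580) (.two (nat_lit 2097152) (nat_lit 876609672) (.one (nat_lit 2097893) .nil))),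
   .two (nat_lit 4194306) (nat_lit 2954887175) (.two (nat_lit 4194307) (nat_lit 773849098) (.two (nat_lit 4194305) (nat_lit 2954887183) (.two (nat_lit 4194304) (nat_lit 35651668) (.one (nat_lit 183947493787) .nil)))),
   .two (nat_lit 2097157) (nat_lit 9781116936) (.two (nat_lit 34603009) (nat_lit 19027460145) (.two (nat_lit 1048576) (nat_lit 21208498297) (.one (nat_lit 235929797) .nil))),
   .two (nat_lit 1277165572) (nat_lit 184416206856) (.two (nat_lit 606076929) (nat_lit 12047089690) (.two (nat_lit 1048576) (nat_lit 2097318) (.one (nat_lit 10939793775) .nil))),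
   .two (nat_lit 1276116996) (nat_lit 11611930638) (.two (nat_lit 41943041) (nat_lit 1779433487) (.two (nat_lit 1048576) (nat_lit 136314902) (.one (nat_lit 8389414) .nil))),
   .two (nat_lit 16777220) (nat_lit 1276117000) (.two (nat_lit 4194305) (nat_lit 19026411537) (.two (nat_lit 4194304) (nat_lit 183861510262) (.one (nat_lit 16778023) .nil))),
   .two (nat_lit 12114198533) (nat_lit 18933088264) (.two (nat_lit 34603009) (nat_lit 12054429719) (.two (nat_lit 1048576) (nat_lit 185027526678) (.one (nat_lit 8389417) .nil))),
   .two (nat_lit 2902458370) (nat_lit 612368392) (.two (nat_lit 16777217) (nat_lit 612368399) (.two (nat_lit 16777216) (nat_lit 176160786) (.one (nat_lit 1786773599) .nil))),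
   .two (nat_lit 75497477) (nat_lit 9799991305) (.two (nat_lit 8388609) (nat_lit 47582281774) (.two (nat_lit 2097152) (nat_lit 13228834836) (.one (nat_lit 10001318675) .nil))),
   .two (nat_lit 184549378) (nat_lit 41943048) (.two (nat_lit 16777217) (nat_lit 41943055) (.two (nat_lit 16777216) (nat_lit 276824083) (.one (nat_lit 75497569) .nil))),
   .two (nat_lit 10506731525) (nat_lit 9798942732) (.two (nat_lit 9765388289) (nat_lit 158079123499) (.two (nat_lit 1048576) (nat_lit 809500805) (.one (nat_lit 1049343) .nil))),
   .two (nat_lit 9933160453) (nat_lit 9967763468) (.two (nat_lit 9765388289) (nat_lit 4599054380) (.two (nat_lit 2097152) (nat_lit 13187940488) (.one (nat_lit 2097963) .nil))),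
   .two (nat_lit 8388612) (nat_lit 9933160462) (.two (nat_lit 34603009) (nat_lit 243269658) (.two (nat_lit 1048576) (nat_lit 47555018904) (.one (nat_lit 1745879632) .nil))),
   .two (nat_lit 639631365) (nat_lit 159224168455) (.two (nat_lit 612368387) (nat_lit 12048138250) (.two (nat_lit 606076929) (nat_lit 10007609384) (.two (nat_lit 2097152) (nat_lit 10007609458) (.one (nat_lit 47588573381) .nil)))),
   .two (nat_lit 8388612) (nat_lit 889192461) (.two (nat_lit 8388609) (nat_lit 28087156786) (.two (nat_lit 2097152) (nat_lit 1358954515) (.one (nat_lit 185021235610) .nil))),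
   .two (nat_lit 171966469) (nat_lit 10343153672) (.two (nat_lit 4194305) (nat_lit 10343153679) (.two (nat_lit 4194304) (nat_lit 8388698) (.one (nat_lit 336593649) .nil))),
   .two (nat_lit 11476664324) (nat_lit 183848927240) (.two (nat_lit 37748737) (nat_lit 739246095) (.two (nat_lit 1048576) (nat_lit 11546919000) (.one (nat_lit 184986632986) .nil))),
   .two (nat_lit 176160770) (nat_lit 16777224) (.two (nat_lit 8388609) (nat_lit 16777231) (.two (nat_lit 8388608) (nat_lit 822083603) (.one (nat_lit 2936012898) .nil))),
   .two (nat_lit 10385096707) (nat_lit 41943047) (.two (nat_lit 4194304) (nat_lit 645922960) (.one (nat_lit 46514831728) .nil)),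
   .two (nat_lit 13195280389) (nat_lit 21777874952) (.two (nat_lit 41943041) (nat_lit 11543773199) (.two (nat_lit 1048576) (nat_lit 37320917014) (.one (nat_lit 68158187) .nil))),
   .two (nat_lit 2889875461) (nat_lit 12617515021) (.two (nat_lit 9765388289) (nat_lit 4601151514) (.two (nat_lit 1048576) (nat_lit 876609696) (.one (nat_lit 47581233784) .nil))),
   .two (nat_lit 156968681477) (nat_lit 1277165576) (.two (nat_lit 34603009) (nat_lit 1277165583) (.two (nat_lit 1048576) (nat_lit 9934209060) (.one (nat_lit 1049390) .nil))),
   .two (nat_lit 2097157) (nat_lit 10343153672) (.two (nat_lit 2097153) (nat_lit 166129041423) (.two (nat_lit 2097152) (nat_lit 1175453716) (.one (nat_lit 166237045495) .nil))),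
   .two (nat_lit 21208498181) (nat_lit 1913651208) (.two (nat_lit 606076929) (nat_lit 11476664331) (.two (nat_lit 1048576) (nat_lit 3021996052) (.one (nat_lit 1846543102) .nil))),
   .two (nat_lit 2887778308) (nat_lit 184419352584) (.two (nat_lit 2097153) (nat_lit 12050235418) (.two (nat_lit 2097152) (nat_lit 138412173) (.one (nat_lit 4195119) .nil))),
   .two (nat_lit 20637024258) (nat_lit 620756999) (.two (nat_lit 83886083) (nat_lit 20637024262) (.two (nat_lit 605028353) (nat_lit 620757007) (.two (nat_lit 1048576) (nat_lit 19545456723) (.one (nat_lit 11492393336) .nil)))),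
   .two (nat_lit 1779433477) (nat_lit 9948889096) (.two (nat_lit 34603009) (nat_lit 184549387) (.two (nat_lit 16777216) (nat_lit 183845781523) (.one (nat_lit 16778032) .nil))),
   .two (nat_lit 12047089669) (nat_lit 71303182) (.two (nat_lit 34603009) (nat_lit 156367847448) (.two (nat_lit 16777216) (nat_lit 165525061701) (.one (nat_lit 1049394) .nil))),
   .two (nat_lit 183853121541) (nat_lit 3527409672) (.two (nat_lit 41943041) (nat_lit 205520907) (.two (nat_lit 4194304) (nat_lit 4638900244) (.one (nat_lit 9768534779) .nil))),
   .two (nat_lit 20638072837) (nat_lit 158646403085) (.two (nat_lit 9765388289) (nat_lit 10001317912) (.two (nat_lit 2097152) (nat_lit 183946444820) (.one (nat_lit 166197199602) .nil))),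
   .two (nat_lit 156968681477) (nat_lit 13191086088) (.two (nat_lit 156364701697) (nat_lit 4194315) (.two (nat_lit 4194304) (nat_lit 11510218772) (.one (nat_lit 4195125) .nil))),
   .two (nat_lit 721420292) (nat_lit 11479810056) (.two (nat_lit 50331649) (nat_lit 11479810063) (.two (nat_lit 16777216) (nat_lit 809500709) (.one (nat_lit 876610152) .nil))),
   .two (nat_lit 620756997) (nat_lit 9934209031) (.two (nat_lit 606076931) (nat_lit 83886088) (.two (nat_lit 620756993) (nat_lit 2954887198) (.two (nat_lit 1048576) (nat_lit 184987680843) (.one (nat_lit 166230753669) .nil)))),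
   .two (nat_lit 8388613) (nat_lit 19597885453) (.two (nat_lit 9766436865) (nat_lit 10955522091) (.two (nat_lit 2097152) (nat_lit 16777558) (.one (nat_lit 47582282163) .nil))),
   .two (nat_lit 159217876997) (nat_lit 19596836872) (.two (nat_lit 606076929) (nat_lit 1209008152) (.two (nat_lit 1048576) (nat_lit 9799991456) (.one (nat_lit 10906239357) .nil))),
   .two (nat_lit 159217876997) (nat_lit 9781116936) (.two (nat_lit 37748737) (nat_lit 9781116943) (.two (nat_lit 4194304) (nat_lit 35651717) (.one (nat_lit 159217877787) .nil))),
   .two (nat_lit 16777220) (nat_lit 1277165576) (.two (nat_lit 16777217) (nat_lit 1277165583) (.two (nat_lit 1048576) (nat_lit 185035915352) (.one (nat_lit 16778040) .nil))),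
   .two (nat_lit 34603013) (nat_lit 9948889095) (.two (nat_lit 620756995) (nat_lit 705691656) (.two (nat_lit 620756993) (nat_lit 184986632209) (.two (nat_lit 16777216) (nat_lit 1376780578) (.one (nat_lit 1049401) .nil)))),
   .two (nat_lit 12047089669) (nat_lit 10940841992) (.two (nat_lit 34603009) (nat_lit 19530776591) (.two (nat_lit 1048576) (nat_lit 157036838948) (.one (nat_lit 2097851) .nil))),
   .two (nat_lit 157035790341) (nat_lit 75497480) (.two (nat_lit 16777217) (nat_lit 612368399) (.two (nat_lit 16777216) (nat_lit 2349858937) (.one (nat_lit 1049402) .nil))),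
   .two (nat_lit 721420292) (nat_lit 41943048) (.two (nat_lit 50331649) (nat_lit 41943055) (.two (nat_lit 16777216) (nat_lit 4605345811) (.one (nat_lit 612368821) .nil))),
   .two (nat_lit 4194308) (nat_lit 12114198535) (.two (nat_lit 37748739) (nat_lit 183912890380) (.two (nat_lit 37748737) (nat_lit 1913651230) (.two (nat_lit 16777216) (nat_lit 1048651) (.one (nat_lit 168821185) .nil)))),
   .two (nat_lit 10370416645) (nat_lit 1913651207) (.two (nat_lit 10370416643) (nat_lit 1913651208) (.two (nat_lit 9766436865) (nat_lit 10369368097) (.two (nat_lit 16777216) (nat_lit 2886729803) (.one (nat_lit 184417255800) .nil)))),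
   .two (nat_lit 8388612) (nat_lit 47548727303) (.two (nat_lit 8388611) (nat_lit 2988441612) (.two (nat_lit 8388609) (nat_lit 13222543406) (.two (nat_lit 8388608) (nat_lit 166130090102) (.one (nat_lit 47548727676) .nil)))),
   .two (nat_lit 11479810053) (nat_lit 11543773191) (.two (nat_lit 11476664323) (nat_lit 809500680) (.two (nat_lit 37748737) (nat_lit 4598005788) (.two (nat_lit 8388608) (nat_lit 336592971) (.one (nat_lit 1413480822) .nil)))),
   .two (nat_lit 183845781508) (nat_lit 9948889095) (.two (nat_lit 1291845635) (nat_lit 1745879048) (.two (nat_lit 34603009) (nat_lit 184549391) (.two (nat_lit 1048576) (nat_lit 318767141) (.one (nat_lit 1049404) .nil)))),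
   .two (nat_lit 2097157) (nat_lit 3464495112) (.two (nat_lit 2097153) (nat_lit 166129041423) (.two (nat_lit 2097152) (nat_lit 2894069797) (.one (nat_lit 8389437) .nil))),
   .two (nat_lit 16777220) (nat_lit 1780482056) (.two (nat_lit 8388609) (nat_lit 1426063406) (.two (nat_lit 1048576) (nat_lit 185035915352) (.one (nat_lit 8389438) .nil))),
   .two (nat_lit 11492392965) (nat_lit 158143086600) (.two (nat_lit 50331649) (nat_lit 158075977739) (.two (nat_lit 1048576) (nat_lit 13203669011) (.one (nat_lit 1049407) .nil))),
   .two (nat_lit 183861510149) (nat_lit 1178599432) (.two (nat_lit 16777217) (nat_lit 1178599439) (.two (nat_lit 16777216) (nat_lit 4634705995) (.one (nat_lit 1411384065) .nil))),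
   .two (nat_lit 3525312517) (nat_lit 10540285961) (.two (nat_lit 37748737) (nat_lit 1746927638) (.two (nat_lit 4194304) (nat_lit 606076947) (.one (nat_lit 4195136) .nil))),
   .two (nat_lit 159224168453) (nat_lit 10939793416) (.two (nat_lit 612368385) (nat_lit 19026411543) (.two (nat_lit 1048576) (nat_lit 8388765) (.one (nat_lit 3457155843) .nil))),
   .two (nat_lit 159217876997) (nat_lit 28757196808) (.two (nat_lit 606076929) (nat_lit 9866051599) (.two (nat_lit 1048576) (nat_lit 2418016278) (.one (nat_lit 46507491539) .nil))),
   .two (nat_lit 3527409669) (nat_lit 41943048) (.two (nat_lit 4194305) (nat_lit 8388623) (.two (nat_lit 4194304) (nat_lit 176160835) (.one (nat_lit 4605346005) .nil))),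
   .two (nat_lit 50331653) (nat_lit 10506731527) (.two (nat_lit 50331651) (nat_lit 166132187144) (.two (nat_lit 50331649) (nat_lit 156971827215) (.two (nat_lit 4194304) (nat_lit 158158815269) (.one (nat_lit 9869198069) .nil)))),
   .two (nat_lit 721420292) (nat_lit 1277165576) (.two (nat_lit 50331649) (nat_lit 1277165583) (.two (nat_lit 16777216) (nat_lit 158144135204) (.one (nat_lit 20638073462) .nil))),
   .two (nat_lit 47555018757) (nat_lit 2954887175) (.two (nat_lit 2097152) (nat_lit 679477369) (.one (nat_lit 12121539004) .nil)),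
   .two (nat_lit 9934209029) (nat_lit 1913651208) (.two (nat_lit 606076929) (nat_lit 19127074840) (.two (nat_lit 1048576) (nat_lit 4599054490) (.one (nat_lit 166229705085) .nil))),
   .two (nat_lit 16777221) (nat_lit 638582796) (.two (nat_lit 612368385) (nat_lit 9814671403) (.two (nat_lit 16777216) (nat_lit 310378584) (.one (nat_lit 10015998685) .nil))),
   .two (nat_lit 156367847429) (nat_lit 1847590920) (.two (nat_lit 37748737) (nat_lit 1847590927) (.two (nat_lit 4194304) (nat_lit 28758245412) (.one (nat_lit 165528208084) .nil))),
   .two (nat_lit 117440517) (nat_lit 1916796935) (.two (nat_lit 1178599427) (nat_lit 1795162120) (.two (nat_lit 9781116929) (nat_lit 10540285985) (.two (nat_lit 2097152) (nat_lit 158146232395) (.one (nat_lit 19109249410) .nil)))),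
   .two (nat_lit 176160773) (nat_lit 2954887175) (.two (nat_lit 169869315) (nat_lit 8388616) (.two (nat_lit 2097153) (nat_lit 4605345809) (.two (nat_lit 8388608) (nat_lit 158177689746) (.one (nat_lit 4034920869) .nil)))),
   .two (nat_lit 4194306) (nat_lit 10343153672) (.two (nat_lit 4194305) (nat_lit 10343153679) (.two (nat_lit 4194304) (nat_lit 46414168083) (.one (nat_lit 20644364385) .nil))),
   .two (nat_lit 184993972229) (nat_lit 9866051592) (.two (nat_lit 41943041) (nat_lit 9866051599) (.two (nat_lit 1048576) (nat_lit 813694995) (.one (nat_lit 1049035) .nil))),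
   .two (nat_lit 705691650) (nat_lit 46414168070) (.two (nat_lit 34603009) (nat_lit 46414168075) (.two (nat_lit 1048576) (nat_lit 2927624213) (.one (nat_lit 8388991) .nil))),
   .two (nat_lit 158143086597) (nat_lit 12117344264) (.two (nat_lit 16777217) (nat_lit 2889875473) (.two (nat_lit 16777216) (nat_lit 37313577081) (.one (nat_lit 1049409) .nil))),
   .two (nat_lit 46422556677) (nat_lit 41943048) (.two (nat_lit 16777217) (nat_lit 41943055) (.two (nat_lit 16777216) (nat_lit 10007609419) (.one (nat_lit 1049325) .nil))),
   .two (nat_lit 1358954501) (nat_lit 272629768) (.two (nat_lit 620756993) (nat_lit 306184209) (.two (nat_lit 8388608) (nat_lit 13237223557) (.one (nat_lit 1224737518) .nil))),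
   .two (nat_lit 19530776581) (nat_lit 28757196808) (.two (nat_lit 2097153) (nat_lit 3557818414) (.two (nat_lit 1048576) (nat_lit 2921332755) (.one (nat_lit 1049410) .nil))),
   .two (nat_lit 1916796933) (nat_lit 10336862215) (.two (nat_lit 156365750275) (nat_lit 28693233672) (.two (nat_lit 156365750273) (nat_lit 1916796944) (.two (nat_lit 2097152) (nat_lit 71303438) (.one (nat_lit 4195139) .nil)))),
   .two (nat_lit 16777220) (nat_lit 639631368) (.two (nat_lit 16777217) (nat_lit 639631375) (.two (nat_lit 16777216) (nat_lit 706740296) (.one (nat_lit 47596962159) .nil))),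
   .two (nat_lit 174752530437) (nat_lit 612368391) (.two (nat_lit 165525061635) (nat_lit 612368392) (.two (nat_lit 156364701697) (nat_lit 612368399) (.two (nat_lit 1048576) (nat_lit 19537068115) (.one (nat_lit 336593637) .nil)))),
   .two (nat_lit 16777221) (nat_lit 157035790350) (.two (nat_lit 34603009) (nat_lit 47596961818) (.two (nat_lit 1048576) (nat_lit 166144770216) (.one (nat_lit 10452206313) .nil))),
   .two (nat_lit 156968681477) (nat_lit 13191086088) (.two (nat_lit 156364701697) (nat_lit 4194315) (.two (nat_lit 4194304) (nat_lit 11510218772) (.one (nat_lit 1849688881) .nil))),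
   .two (nat_lit 620756997) (nat_lit 11610882057) (.two (nat_lit 50331649) (nat_lit 19026411539) (.two (nat_lit 1048576) (nat_lit 2969567250) (.one (nat_lit 1049412) .nil))),
   .two (nat_lit 739246085) (nat_lit 13191086087) (.two (nat_lit 11476664323) (nat_lit 13191086088) (.two (nat_lit 34603009) (nat_lit 742391841) (.two (nat_lit 1048576) (nat_lit 4634706061) (.one (nat_lit 46406828408) .nil)))),
   .two (nat_lit 41943045) (nat_lit 641728521) (.two (nat_lit 4194305) (nat_lit 813694998) (.two (nat_lit 4194304) (nat_lit 813694998) (.one (nat_lit 8389445) .nil))),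
   .two (nat_lit 20637024258) (nat_lit 9781116935) (.two (nat_lit 1191182339) (nat_lit 1175453705) (.two (nat_lit 605028353) (nat_lit 9781116943) (.two (nat_lit 1048576) (nat_lit 20652752979) (.one (nat_lit 16777678) .nil)))),
   .two (nat_lit 50331653) (nat_lit 21207449608) (.two (nat_lit 50331649) (nat_lit 158075977753) (.two (nat_lit 1048576) (nat_lit 318767124) (.one (nat_lit 672137958) .nil))),
   .two (nat_lit 272629765) (nat_lit 28758245384) (.two (nat_lit 4194305) (nat_lit 20705181721) (.two (nat_lit 2097152) (nat_lit 876609556) (.one (nat_lit 1749025533) .nil))),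
   .two (nat_lit 4194308) (nat_lit 1795162120) (.two (nat_lit 4194305) (nat_lit 1291845643) (.two (nat_lit 16777216) (nat_lit 239075347) (.one (nat_lit 156548203323) .nil))),
   .two (nat_lit 37748744) (nat_lit 101711887) (.two (nat_lit 2097153) (nat_lit 1343225923) (.two (nat_lit 2097152) (nat_lit 1343226047) (.one (nat_lit 169870152) .nil))),
   .two (nat_lit 272629768) (nat_lit 2887778312) (.two (nat_lit 4194308) (nat_lit 203423768) (.two (nat_lit 4194305) (nat_lit 2954887276) (.two (nat_lit 4194304) (nat_lit 11543773541) (.one (nat_lit 37749577) .nil)))),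
   .two (nat_lit 176160774) (nat_lit 12117344263) (.two (nat_lit 176160771) (nat_lit 12117344271) (.two (nat_lit 8388609) (nat_lit 183949590641) (.two (nat_lit 8388608) (nat_lit 183949590720) (.one (nat_lit 205521788) .nil)))),
   .two (nat_lit 620757000) (nat_lit 205520904) (.two (nat_lit 2956984325) (nat_lit 620757007) (.two (nat_lit 16777217) (nat_lit 10942939259) (.two (nat_lit 1048576) (nat_lit 3539992941) (.one (nat_lit 2987393246) .nil)))),
   .two (nat_lit 41943048) (nat_lit 158077026312) (.two (nat_lit 8388612) (nat_lit 11544821790) (.two (nat_lit 8388611) (nat_lit 9867100175) (.two (nat_lit 8388609) (nat_lit 3024093314) (.two (nat_lit 4194304) (nat_lit 3021996243) (.one (nat_lit 4195202) .nil))))),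
   .two (nat_lit 75497480) (nat_lit 12129927176) (.two (nat_lit 11492392964) (nat_lit 75497487) (.two (nat_lit 50331649) (nat_lit 158653743227) (.two (nat_lit 16777216) (nat_lit 8388993) (.one (nat_lit 12115247584) .nil)))),
   .two (nat_lit 169869320) (nat_lit 9768534024) (.two (nat_lit 2889875460) (nat_lit 47582281753) (.two (nat_lit 2097153) (nat_lit 47550824574) (.two (nat_lit 1048576) (nat_lit 1310720098) (.one (nat_lit 101712754) .nil)))),
   .two (nat_lit 2954887176) (nat_lit 166129041414) (.two (nat_lit 1846542341) (nat_lit 2954887183) (.two (nat_lit 605028353) (nat_lit 46508539941) (.two (nat_lit 1048576) (nat_lit 639631457) (.one (nat_lit 102761314) .nil)))),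
   .two (nat_lit 2954887176) (nat_lit 20637024262) (.two (nat_lit 203423749) (nat_lit 158075977743) (.two (nat_lit 2097153) (nat_lit 68157477) (.two (nat_lit 2097152) (nat_lit 3020947551) (.one (nat_lit 2098069) .nil)))),
   .two (nat_lit 1745879048) (nat_lit 47555018759) (.two (nat_lit 176160771) (nat_lit 1745879055) (.two (nat_lit 8388609) (nat_lit 18925748300) (.two (nat_lit 8388608) (nat_lit 158646403168) (.one (nat_lit 28790751718) .nil)))),
   .two (nat_lit 9934209032) (nat_lit 183853121542) (.two (nat_lit 12054429701) (nat_lit 9934209039) (.two (nat_lit 41943041) (nat_lit 158177689637) (.two (nat_lit 8388608) (nat_lit 11544821855) (.one (nat_lit 47555019646) .nil)))),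
   .two (nat_lit 9881780232) (nat_lit 174752530439) (.two (nat_lit 165525061635) (nat_lit 9881780239) (.two (nat_lit 156364701697) (nat_lit 158091706436) (.two (nat_lit 1048576) (nat_lit 1795162319) (.one (nat_lit 46992982887) .nil)))),
   .two (nat_lit 10001317897) (nat_lit 1753219079) (.two (nat_lit 165532401667) (nat_lit 1847590927) (.two (nat_lit 156365750273) (nat_lit 184993972291) (.two (nat_lit 2097152) (nat_lit 21785215171) (.one (nat_lit 1384120542) .nil)))),
   .two (nat_lit 2887778310) (nat_lit 11551113225) (.two (nat_lit 46414168066) (nat_lit 10504634383) (.two (nat_lit 2887778308) (nat_lit 3464495123) (.two (nat_lit 2097153) (nat_lit 13195280420) (.two (nat_lit 2097152) (nat_lit 21785215071) (.one (nat_lit 1914700649) .nil))))),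
   .two (nat_lit 4194312) (nat_lit 41943048) (.two (nat_lit 4194308) (nat_lit 1175453711) (.two (nat_lit 37748737) (nat_lit 11476664430) (.two (nat_lit 4194304) (nat_lit 183953785026) (.one (nat_lit 71303659) .nil)))),
   .two (nat_lit 2921332745) (nat_lit 156367847431) (.two (nat_lit 11484004355) (nat_lit 183848927247) (.two (nat_lit 41943041) (nat_lit 4601151522) (.two (nat_lit 8388608) (nat_lit 4601151584) (.one (nat_lit 4601151710) .nil)))),
   .two (nat_lit 4194312) (nat_lit 16777222) (.two (nat_lit 4194308) (nat_lit 18925748239) (.two (nat_lit 4194305) (nat_lit 672137253) (.two (nat_lit 4194304) (nat_lit 12047089872) (.one (nat_lit 4195222) .nil)))),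
   .two (nat_lit 754974728) (nat_lit 184986632199) (.two (nat_lit 705691651) (nat_lit 754974735) (.two (nat_lit 34603009) (nat_lit 1358954530) (.two (nat_lit 1048576) (nat_lit 1358954592) (.one (nat_lit 16778136) .nil)))),
   .two (nat_lit 2961178632) (nat_lit 156367847432) (.two (nat_lit 176160772) (nat_lit 156367847439) (.two (nat_lit 8388609) (nat_lit 10942939259) (.two (nat_lit 1048576) (nat_lit 310378696) (.one (nat_lit 2961179486) .nil)))),
   .two (nat_lit 10939793416) (nat_lit 855638025) (.two (nat_lit 1358954501) (nat_lit 10939793423) (.two (nat_lit 620756993) (nat_lit 28086108197) (.two (nat_lit 1048576) (nat_lit 50331743) (.one (nat_lit 47581234018) .nil)))),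
   .two (nat_lit 13195280392) (nat_lit 10506731527) (.two (nat_lit 4194304) (nat_lit 8388996) .nil),
   .two (nat_lit 11510218761) (nat_lit 156969730057) (.two (nat_lit 1276116994) (nat_lit 159217877007) (.two (nat_lit 1343225861) (nat_lit 47582281747) (.two (nat_lit 605028353) (nat_lit 158647451685) (.two (nat_lit 1048576) (nat_lit 69206114) (.one (nat_lit 169870221) .nil))))),
   .two (nat_lit 606076936) (nat_lit 1913651207) (.two (nat_lit 37748739) (nat_lit 1913651215) (.two (nat_lit 37748737) (nat_lit 156532473924) (.two (nat_lit 4194304) (nat_lit 1048965) (.one (nat_lit 1049454) .nil)))),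
   .two (nat_lit 11476664326) (nat_lit 9873391626) (.two (nat_lit 183853121538) (nat_lit 1913651215) (.two (nat_lit 156372041733) (nat_lit 739246091) (.two (nat_lit 34603009) (nat_lit 4605345828) (.two (nat_lit 1048576) (nat_lit 10007609439) (.one (nat_lit 156566029148) .nil))))),
   .two (nat_lit 3525312520) (nat_lit 11559501831) (.two (nat_lit 721420291) (nat_lit 46978301968) (.two (nat_lit 50331649) (nat_lit 2097302) (.two (nat_lit 16777216) (nat_lit 236978383) (.one (nat_lit 1847591915) .nil)))),
   .two (nat_lit 156372041736) (nat_lit 9768534023) (.two (nat_lit 4194304) (nat_lit 2994733444) .nil),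
   .two (nat_lit 705691656) (nat_lit 12117344263) (.two (nat_lit 2097155) (nat_lit 19096666142) (.two (nat_lit 2097153) (nat_lit 183916036176) (.two (nat_lit 2097152) (nat_lit 183916036476) (.one (nat_lit 2954887662) .nil)))),
   .two (nat_lit 9934209032) (nat_lit 20637024264) (.two (nat_lit 13187940357) (nat_lit 809500687) (.two (nat_lit 2097153) (nat_lit 135266422) (.two (nat_lit 2097152) (nat_lit 46510637154) (.one (nat_lit 11479810911) .nil)))),
   .two (nat_lit 639631368) (nat_lit 1954545678) (.two (nat_lit 47555018757) (nat_lit 639631375) (.two (nat_lit 2097153) (nat_lit 343932993) (.two (nat_lit 1048576) (nat_lit 166230753378) (.one (nat_lit 10503586640) .nil)))),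
   .two (nat_lit 2954887176) (nat_lit 156367847432) (.two (nat_lit 203423749) (nat_lit 4601151504) (.two (nat_lit 2097153) (nat_lit 156367847462) (.two (nat_lit 16777216) (nat_lit 1210056900) (.one (nat_lit 874512862) .nil)))),
   .two (nat_lit 10369368072) (nat_lit 12117344263) (.two (nat_lit 8388608) (nat_lit 158079123661) .nil),
   .two (nat_lit 46414168066) (nat_lit 3527409675) (.two (nat_lit 4194305) (nat_lit 47555018770) (.one (nat_lit 4195225) .nil)),
   .two (nat_lit 612368392) (nat_lit 13221494796) (.two (nat_lit 176160772) (nat_lit 203423761) (.two (nat_lit 612368387) (nat_lit 11476664335) (.two (nat_lit 612368385) (nat_lit 2418016385) (.two (nat_lit 2097152) (nat_lit 2424307923) (.one (nat_lit 639632213) .nil))))),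
   .two (nat_lit 11479810050) (nat_lit 184986632203) (.two (nat_lit 34603009) (nat_lit 46477082644) (.one (nat_lit 1049499) .nil)),
   .two (nat_lit 1343225864) (nat_lit 158144135175) (.two (nat_lit 1276116995) (nat_lit 9934209039) (.two (nat_lit 605028353) (nat_lit 12148801666) (.two (nat_lit 1048576) (nat_lit 1780482425) (.one (nat_lit 28758246268) .nil)))),
   .two (nat_lit 3539992584) (nat_lit 708837386) (.two (nat_lit 4601151493) (nat_lit 654311439) (.two (nat_lit 156364701697) (nat_lit 158079123580) (.two (nat_lit 1048576) (nat_lit 16777428) (.one (nat_lit 1049500) .nil)))),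
   .two (nat_lit 1277165576) (nat_lit 1749024777) (.two (nat_lit 2889875458) (nat_lit 158177689626) (.two (nat_lit 272629765) (nat_lit 158144135179) (.two (nat_lit 9766436865) (nat_lit 19029557285) (.two (nat_lit 2097152) (nat_lit 1782579298) (.one (nat_lit 639632216) .nil))))),
   .two (nat_lit 11543773192) (nat_lit 183848927238) (.two (nat_lit 183848927236) (nat_lit 11543773199) (.two (nat_lit 37748737) (nat_lit 12114198565) (.two (nat_lit 4194304) (nat_lit 873463906) (.one (nat_lit 185020187533) .nil)))),
   .two (nat_lit 1916796936) (nat_lit 102760457) (.two (nat_lit 19530776581) (nat_lit 1916796943) (.two (nat_lit 2097153) (nat_lit 1849688101) (.two (nat_lit 2097152) (nat_lit 184419352770) (.one (nat_lit 2420113899) .nil)))),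
   .two (nat_lit 46984593416) (nat_lit 10504634375) (.two (nat_lit 1175453699) (nat_lit 1753219087) (.two (nat_lit 9765388289) (nat_lit 11517558822) (.two (nat_lit 1048576) (nat_lit 12054429903) (.one (nat_lit 8389533) .nil)))),
   .two (nat_lit 158077026312) (nat_lit 47555018759) (.two (nat_lit 8388608) (nat_lit 11544821799) .nil),
   .two (nat_lit 2954887176) (nat_lit 20637024264) (.two (nat_lit 13187940357) (nat_lit 4194330) (.two (nat_lit 37748737) (nat_lit 20637024383) (.two (nat_lit 2097152) (nat_lit 46510637154) (.one (nat_lit 156567077736) .nil)))),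
   .two (nat_lit 28691136520) (nat_lit 2969567239) (.two (nat_lit 8388608) (nat_lit 158091706573) .nil),
   .two (nat_lit 8388616) (nat_lit 34603015) (.two (nat_lit 2097155) (nat_lit 4605345809) (.two (nat_lit 2097153) (nat_lit 159257722919) (.two (nat_lit 2097152) (nat_lit 780140915) (.one (nat_lit 269484254) .nil)))),
   .two (nat_lit 13195280392) (nat_lit 9768534023) (.two (nat_lit 9768534019) (nat_lit 13195280399) (.two (nat_lit 9768534017) (nat_lit 3028287566) (.two (nat_lit 4194304) (nat_lit 4605345999) (.one (nat_lit 8389534) .nil)))),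
   .two (nat_lit 75497480) (nat_lit 34603015) (.two (nat_lit 2097155) (nat_lit 75497487) (.two (nat_lit 2097153) (nat_lit 10007609423) (.two (nat_lit 1048576) (nat_lit 20705181893) (.one (nat_lit 8389535) .nil)))),
   .two (nat_lit 8388616) (nat_lit 46407876614) (.two (nat_lit 46407876612) (nat_lit 8388623) (.two (nat_lit 41943041) (nat_lit 2097240) (.two (nat_lit 2097152) (nat_lit 8389006) (.one (nat_lit 276824950) .nil)))),
   .two (nat_lit 46409973762) (nat_lit 1913651215) (.two (nat_lit 4194305) (nat_lit 12147752979) (.one (nat_lit 159250383071) .nil)),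
   .two (nat_lit 1283457029) (nat_lit 184549387) (.two (nat_lit 8388609) (nat_lit 28693233683) (.one (nat_lit 4195232) .nil)),
   .two (nat_lit 183953784842) (nat_lit 3527409671) (.two (nat_lit 46409973763) (nat_lit 159224168463) (.two (nat_lit 8388609) (nat_lit 46980399171) (.two (nat_lit 8388608) (nat_lit 157038936259) (.one (nat_lit 174688567518) .nil)))),
   .two (nat_lit 1779433477) (nat_lit 46510637075) (.two (nat_lit 4194305) (nat_lit 839909398) (.one (nat_lit 2956984548) .nil)),
   .two (nat_lit 12047089669) (nat_lit 12117344275) (.two (nat_lit 34603009) (nat_lit 2889875474) (.one (nat_lit 1049505) .nil)),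
   .two (nat_lit 9934209032) (nat_lit 158143086599) (.two (nat_lit 1276116995) (nat_lit 9934209039) (.two (nat_lit 605028353) (nat_lit 236978254) (.two (nat_lit 1048576) (nat_lit 2317353332) (.one (nat_lit 20738736985) .nil)))),
   .two (nat_lit 156367847432) (nat_lit 1048585) (.two (nat_lit 721420293) (nat_lit 4598005789) (.two (nat_lit 721420291) (nat_lit 20637024271) (.two (nat_lit 4194305) (nat_lit 3020947592) (.two (nat_lit 8388608) (nat_lit 876609897) (.one (nat_lit 37749658) .nil))))),
   .two (nat_lit 612368392) (nat_lit 156367847431) (.two (nat_lit 2097152) (nat_lit 9940500518) .nil),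
   .two (nat_lit 11479810056) (nat_lit 1358954503) (.two (nat_lit 83886083) (nat_lit 11479810063) (.two (nat_lit 620756993) (nat_lit 272629794) (.two (nat_lit 16777216) (nat_lit 4634706016) (.one (nat_lit 4195234) .nil)))),
   .two (nat_lit 612368391) (nat_lit 156367847431) (.two (nat_lit 8388608) (nat_lit 4194704) .nil),
   .two (nat_lit 18928893960) (nat_lit 174685421577) (.two (nat_lit 12047089669) (nat_lit 18928893967) (.two (nat_lit 34603009) (nat_lit 156367847460) (.two (nat_lit 1048576) (nat_lit 4194705) (.one (nat_lit 1049507) .nil)))),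
   .two (nat_lit 276824072) (nat_lit 2889875462) (.two (nat_lit 41943045) (nat_lit 9899606049) (.two (nat_lit 41943043) (nat_lit 1276117007) (.two (nat_lit 605028353) (nat_lit 4601151621) (.two (nat_lit 1048576) (nat_lit 157043130579) (.one (nat_lit 10000270212) .nil))))),
   .two (nat_lit 46407876616) (nat_lit 10506731527) (.two (nat_lit 4194304) (nat_lit 156365750310) .nil),
   .two (nat_lit 159217877000) (nat_lit 159216828423) (.two (nat_lit 2097155) (nat_lit 46409973776) (.two (nat_lit 2097153) (nat_lit 4601151526) (.two (nat_lit 4194304) (nat_lit 20637024642) (.one (nat_lit 3020947675) .nil)))),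
   .two (nat_lit 739246088) (nat_lit 1914699783) (.two (nat_lit 2097155) (nat_lit 13195280399) (.two (nat_lit 2097153) (nat_lit 46514831438) (.two (nat_lit 2097152) (nat_lit 158143086964) (.one (nat_lit 269484254) .nil)))),
   .two (nat_lit 1276116996) (nat_lit 20644364307) (.two (nat_lit 605028353) (nat_lit 3464495123) (.one (nat_lit 1049435) .nil)),
   .two (nat_lit 37748743) (nat_lit 9948889095) (.two (nat_lit 1048576) (nat_lit 4194707) .nil),
   .two (nat_lit 1913651208) (nat_lit 156365750281) (.two (nat_lit 1847590917) (nat_lit 1913651215) (.two (nat_lit 606076929) (nat_lit 202375238) (.two (nat_lit 1048576) (nat_lit 1176502370) (.one (nat_lit 1049511) .nil)))),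
   .two (nat_lit 75497477) (nat_lit 772800531) (.two (nat_lit 8388609) (nat_lit 772800531) (.one (nat_lit 8389544) .nil)),
   .two (nat_lit 169869316) (nat_lit 183853121551) (.two (nat_lit 606076929) (nat_lit 19604176915) (.one (nat_lit 19033752427) .nil)),
   .two (nat_lit 169869316) (nat_lit 339738646) (.two (nat_lit 2097153) (nat_lit 775946259) (.one (nat_lit 9799992171) .nil)),
   .two (nat_lit 272629768) (nat_lit 9766436872) (.two (nat_lit 41943045) (nat_lit 606076943) (.two (nat_lit 2097153) (nat_lit 1283457140) (.two (nat_lit 8388608) (nat_lit 46474985670) (.one (nat_lit 19537068875) .nil)))),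
   .two (nat_lit 1178599432) (nat_lit 10504634375) (.two (nat_lit 9766436867) (nat_lit 1178599439) (.two (nat_lit 9766436865) (nat_lit 156569174095) (.two (nat_lit 2097152) (nat_lit 4194708) (.one (nat_lit 2988442580) .nil)))),
   .two (nat_lit 171966469) (nat_lit 1291845643) (.two (nat_lit 4194305) (nat_lit 185020186646) (.one (nat_lit 16778153) .nil)),
   .two (nat_lit 3525312520) (nat_lit 1916796936) (.two (nat_lit 16777216) (nat_lit 2097557) .nil),
   .two (nat_lit 176160776) (nat_lit 46409973766) (.two (nat_lit 46409973764) (nat_lit 176160783) (.two (nat_lit 612368385) (nat_lit 4194392) (.two (nat_lit 4194304) (nat_lit 8389014) (.one (nat_lit 8389546) .nil)))),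
   .two (nat_lit 721420296) (nat_lit 1914699785) (.two (nat_lit 169869314) (nat_lit 11593056282) (.two (nat_lit 50331653) (nat_lit 4599054358) (.two (nat_lit 620756993) (nat_lit 9867100197) (.two (nat_lit 2097152) (nat_lit 12129927551) (.one (nat_lit 2432697197) .nil))))),
   .two (nat_lit 169869320) (nat_lit 41943047) (.two (nat_lit 705691651) (nat_lit 166197198872) (.two (nat_lit 34603009) (nat_lit 10370416678) (.two (nat_lit 1048576) (nat_lit 2097559) (.one (nat_lit 2098091) .nil)))),
   .two (nat_lit 2889875464) (nat_lit 166129041414) (.two (nat_lit 166129041412) (nat_lit 2889875471) (.two (nat_lit 9765388289) (nat_lit 4601151525) (.two (nat_lit 1048576) (nat_lit 47584378978) (.one (nat_lit 156535620479) .nil)))),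
   .two (nat_lit 713031688) (nat_lit 1358954504) (.two (nat_lit 41943045) (nat_lit 1358954511) (.two (nat_lit 50331649) (nat_lit 28697428087) (.two (nat_lit 8388608) (nat_lit 754974914) (.one (nat_lit 8389548) .nil)))),
   .two (nat_lit 1779433480) (nat_lit 12117344263) (.two (nat_lit 16777216) (nat_lit 158079123661) .nil),
   .two (nat_lit 20638072836) (nat_lit 20753416211) (.two (nat_lit 8388609) (nat_lit 158647451667) (.one (nat_lit 2098093) .nil)),
   .two (nat_lit 721420296) (nat_lit 104857608) (.two (nat_lit 50331653) (nat_lit 104857615) (.two (nat_lit 41943041) (nat_lit 28705816695) (.two (nat_lit 8388608) (nat_lit 12062818498) (.one (nat_lit 16778156) .nil)))),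
   .two (nat_lit 8388616) (nat_lit 3460300808) (.two (nat_lit 41943045) (nat_lit 47547678750) (.two (nat_lit 41943043) (nat_lit 1276117007) (.two (nat_lit 605028353) (nat_lit 19532873849) (.two (nat_lit 1048576) (nat_lit 876609747) (.one (nat_lit 1049518) .nil))))),
   .two (nat_lit 742391816) (nat_lit 12114198535) (.two (nat_lit 2097155) (nat_lit 1178599439) (.two (nat_lit 34603009) (nat_lit 19029557316) (.two (nat_lit 1048576) (nat_lit 166197199045) (.one (nat_lit 2098095) .nil)))),
   .two (nat_lit 3458203656) (nat_lit 174752530439) (.two (nat_lit 156365750275) (nat_lit 1745879092) (.two (nat_lit 156365750273) (nat_lit 135266342) (.two (nat_lit 1048576) (nat_lit 773849480) (.one (nat_lit 2098096) .nil)))),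
   .two (nat_lit 2954887173) (nat_lit 11492392971) (.two (nat_lit 2097153) (nat_lit 11492392981) (.one (nat_lit 16778161) .nil)),
   .two (nat_lit 10385096712) (nat_lit 174753579016) (.two (nat_lit 1291845636) (nat_lit 156365750305) (.two (nat_lit 9781116931) (nat_lit 2317352984) (.two (nat_lit 606076929) (nat_lit 1191182443) (.two (nat_lit 2097152) (nat_lit 16777625) (.one (nat_lit 12062819178) .nil))))),
   .two (nat_lit 4194306) (nat_lit 1913651215) (.two (nat_lit 4194305) (nat_lit 12147752979) (.one (nat_lit 159250383071) .nil)),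
   .two (nat_lit 705691652) (nat_lit 9900654611) (.two (nat_lit 34603009) (nat_lit 9900654611) (.one (nat_lit 1049523) .nil)),
   .two (nat_lit 176160772) (nat_lit 183845781515) (.two (nat_lit 8388609) (nat_lit 11510218773) (.one (nat_lit 8389556) .nil)),
   .two (nat_lit 2954887176) (nat_lit 20637024262) (.two (nat_lit 20637024260) (nat_lit 2954887183) (.two (nat_lit 605028353) (nat_lit 2954887204) (.two (nat_lit 1048576) (nat_lit 35651679) (.one (nat_lit 21812478813) .nil)))),
   .two (nat_lit 9934209032) (nat_lit 2319450121) (.two (nat_lit 46980399109) (nat_lit 9934209039) (.two (nat_lit 2097153) (nat_lit 809500708) (.two (nat_lit 2097152) (nat_lit 71303263) (.one (nat_lit 2098101) .nil)))),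
   .two (nat_lit 9768534024) (nat_lit 9799991305) (.two (nat_lit 21208498181) (nat_lit 9768534031) (.two (nat_lit 4194305) (nat_lit 1411383445) (.two (nat_lit 2097152) (nat_lit 9869197407) (.one (nat_lit 2098102) .nil)))),
   .two (nat_lit 101711880) (nat_lit 184993972231) (.two (nat_lit 713031683) (nat_lit 101711887) (.two (nat_lit 34603009) (nat_lit 11618222147) (.two (nat_lit 1048576) (nat_lit 4034920808) (.one (nat_lit 47555019238) .nil)))),
   .two (nat_lit 21207449605) (nat_lit 1749024783) (.two (nat_lit 4194305) (nat_lit 1947205654) (.one (nat_lit 2990539622) .nil)),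
   .two (nat_lit 46984593416) (nat_lit 156365750281) (.two (nat_lit 2097157) (nat_lit 156372041743) (.two (nat_lit 2097153) (nat_lit 156372041764) (.two (nat_lit 1048576) (nat_lit 10376708306) (.one (nat_lit 2416968611) .nil)))),
   .two (nat_lit 20638072840) (nat_lit 41943047) (.two (nat_lit 41943043) (nat_lit 20638072847) (.two (nat_lit 41943041) (nat_lit 47548727330) (.two (nat_lit 8388608) (nat_lit 2988441696) (.one (nat_lit 2098105) .nil)))),
   .two (nat_lit 158083317768) (nat_lit 50331655) (.two (nat_lit 50331651) (nat_lit 158083317775) (.two (nat_lit 50331649) (nat_lit 10343153742) (.two (nat_lit 16777216) (nat_lit 8389019) (.one (nat_lit 343933912) .nil)))),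
   .two (nat_lit 19532873733) (nat_lit 46984593419) (.two (nat_lit 4194305) (nat_lit 4638900246) (.one (nat_lit 183920231279) .nil)),
   .two (nat_lit 174753579013) (nat_lit 28086108175) (.two (nat_lit 605028353) (nat_lit 156567076886) (.one (nat_lit 12047089881) .nil)),
   .two (nat_lit 9867100168) (nat_lit 9881780232) (.two (nat_lit 1344274437) (nat_lit 9881780239) (.two (nat_lit 9766436865) (nat_lit 37249613891) (.two (nat_lit 2097152) (nat_lit 156468511078) (.one (nat_lit 4195258) .nil)))),
   .two (nat_lit 11479810056) (nat_lit 117440519) (.two (nat_lit 1191182339) (nat_lit 11479810063) (.two (nat_lit 9781116929) (nat_lit 272629794) (.two (nat_lit 16777216) (nat_lit 46510637152) (.one (nat_lit 809501557) .nil)))),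
   .two (nat_lit 1291845637) (nat_lit 2889875467) (.two (nat_lit 4194305) (nat_lit 11593056275) (.one (nat_lit 4195217) .nil)),
   .two (nat_lit 9781116936) (nat_lit 3525312519) (.two (nat_lit 2887778307) (nat_lit 2902458383) (.two (nat_lit 2097153) (nat_lit 822083618) (.two (nat_lit 2097152) (nat_lit 11492393056) (.one (nat_lit 11492393182) .nil)))),
   .two (nat_lit 4194312) (nat_lit 9781116935) (.two (nat_lit 16777216) (nat_lit 37748774) .nil),
   .two (nat_lit 158083317768) (nat_lit 605028359) (.two (nat_lit 4194307) (nat_lit 158083317775) (.two (nat_lit 4194305) (nat_lit 184993972258) (.two (nat_lit 1048576) (nat_lit 11584667744) (.one (nat_lit 28798092184) .nil)))),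
   .two (nat_lit 1780482057) (nat_lit 12117344263) (.two (nat_lit 11479810051) (nat_lit 37314625567) (.two (nat_lit 34603009) (nat_lit 28758245410) (.two (nat_lit 1048576) (nat_lit 166197198944) (.one (nat_lit 166197199067) .nil)))),
   .two (nat_lit 10504634376) (nat_lit 276824073) (.two (nat_lit 10343153669) (nat_lit 10504634383) (.two (nat_lit 2097153) (nat_lit 183853121601) (.two (nat_lit 2097152) (nat_lit 12054429909) (.one (nat_lit 8389566) .nil)))),
   .two (nat_lit 754974728) (nat_lit 612368391) (.two (nat_lit 612368387) (nat_lit 754974735) (.two (nat_lit 50331649) (nat_lit 10343153749) (.two (nat_lit 2097152) (nat_lit 11517558981) (.one (nat_lit 8389567) .nil)))),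
   .two (nat_lit 28086108168) (nat_lit 102760457) (.two (nat_lit 20637024260) (nat_lit 157036838927) (.two (nat_lit 2097153) (nat_lit 157035790424) (.two (nat_lit 1048576) (nat_lit 166130090081) (.one (nat_lit 1377829776) .nil)))),
   .two (nat_lit 2887778308) (nat_lit 4638900246) (.two (nat_lit 2097153) (nat_lit 4605345810) (.one (nat_lit 2098112) .nil)),
   .two (nat_lit 183853121544) (nat_lit 4601151495) (.two (nat_lit 4194304) (nat_lit 276824103) .nil),
   .two (nat_lit 184549384) (nat_lit 612368391) (.two (nat_lit 8388608) (nat_lit 184549414) .nil),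
   .two (nat_lit 37748744) (nat_lit 183845781510) (.two (nat_lit 1745879045) (nat_lit 21208498209) (.two (nat_lit 18925748227) (nat_lit 606076943) (.two (nat_lit 606076929) (nat_lit 13224640636) (.two (nat_lit 2097152) (nat_lit 184986632400) (.one (nat_lit 2098113) .nil))))),
   .two (nat_lit 169869320) (nat_lit 1212153869) (.two (nat_lit 34603013) (nat_lit 183848927247) (.two (nat_lit 34603009) (nat_lit 4194343) (.two (nat_lit 1048576) (nat_lit 2097570) (.one (nat_lit 706740704) .nil)))),
   .two (nat_lit 2889875462) (nat_lit 11543773191) (.two (nat_lit 9768534019) (nat_lit 11543773199) (.two (nat_lit 9768534017) (nat_lit 12147753027) (.two (nat_lit 4194304) (nat_lit 1947205827) (.one (nat_lit 1779433694) .nil)))),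
   .two (nat_lit 176160772) (nat_lit 11610882067) (.two (nat_lit 8388609) (nat_lit 705691667) (.one (nat_lit 8389512) .nil)),
   .two (nat_lit 1276116998) (nat_lit 41943047) (.two (nat_lit 713031683) (nat_lit 1779433487) (.two (nat_lit 605028353) (nat_lit 612368418) (.two (nat_lit 16777216) (nat_lit 336593092) (.one (nat_lit 612368606) .nil)))),
   .two (nat_lit 705691650) (nat_lit 174753579023) (.two (nat_lit 34603009) (nat_lit 1310720019) (.one (nat_lit 169869536) .nil)),
   .two (nat_lit 1178599429) (nat_lit 166130089995) (.two (nat_lit 4194305) (nat_lit 37247516691) (.one (nat_lit 2098115) .nil)),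
   .two (nat_lit 1343225861) (nat_lit 21208498187) (.two (nat_lit 9765388289) (nat_lit 2418016278) (.one (nat_lit 2098116) .nil)),
   .two (nat_lit 20638072834) (nat_lit 654311439) (.two (nat_lit 606076929) (nat_lit 2902458386) (.one (nat_lit 1291845850) .nil)),
   .two (nat_lit 8388615) (nat_lit 117440519) (.two (nat_lit 16777216) (nat_lit 8389030) .nil),
   .two (nat_lit 13191086088) (nat_lit 11578376202) (.two (nat_lit 3525312517) (nat_lit 13191086095) (.two (nat_lit 2097153) (nat_lit 775946277) (.two (nat_lit 2097152) (nat_lit 18928894049) (.one (nat_lit 46477083521) .nil)))),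
   .two (nat_lit 1291845640) (nat_lit 2954887175) (.two (nat_lit 2097152) (nat_lit 10385096742) .nil),
   .two (nat_lit 1276116994) (nat_lit 28093448207) (.two (nat_lit 605028353) (nat_lit 20644364306) (.one (nat_lit 12054429914) .nil)),
   .two (nat_lit 2887778308) (nat_lit 4638900246) (.two (nat_lit 2097153) (nat_lit 12624855059) (.one (nat_lit 2098118) .nil)),
   .two (nat_lit 166129041410) (nat_lit 21785214991) (.two (nat_lit 9765388289) (nat_lit 185027526675) (.one (nat_lit 8388834) .nil)),
   .two (nat_lit 2887778312) (nat_lit 1753219079) (.two (nat_lit 2097155) (nat_lit 183853121551) (.two (nat_lit 2097153) (nat_lit 11484004420) (.two (nat_lit 1048576) (nat_lit 174692761981) (.one (nat_lit 185021236089) .nil)))),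
   .two (nat_lit 9781116936) (nat_lit 156367847431) (.two (nat_lit 4194304) (nat_lit 46422557095) .nil),
   .two (nat_lit 19026411529) (nat_lit 157036838919) (.two (nat_lit 171966467) (nat_lit 46978301967) (.two (nat_lit 4194305) (nat_lit 10504634402) (.two (nat_lit 4194304) (nat_lit 10504634464) (.one (nat_lit 10504634587) .nil)))),
   .two (nat_lit 4194308) (nat_lit 158083317775) (.two (nat_lit 4194305) (nat_lit 37320917011) (.one (nat_lit 13195281243) .nil)),
   .two (nat_lit 166132187138) (nat_lit 9866051595) (.two (nat_lit 605028353) (nat_lit 138412054) (.one (nat_lit 1049543) .nil)),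
   .two (nat_lit 166132187138) (nat_lit 28087156755) (.two (nat_lit 9768534017) (nat_lit 28087156755) (.one (nat_lit 3458204577) .nil)),
   .two (nat_lit 713031688) (nat_lit 606076943) (.two (nat_lit 4194306) (nat_lit 639631398) (.two (nat_lit 4194307) (nat_lit 183953784869) (.two (nat_lit 2097153) (nat_lit 13195280582) (.two (nat_lit 2097152) (nat_lit 109052395) (.one (nat_lit 109052880) .nil))))),
   .two (nat_lit 272629768) (nat_lit 203423755) (.two (nat_lit 2887778308) (nat_lit 272629796) (.two (nat_lit 272629765) (nat_lit 203423762) (.two (nat_lit 37748737) (nat_lit 166230753474) (.two (nat_lit 2097152) (nat_lit 4194797) (.one (nat_lit 4632609764) .nil))))),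
   .two (nat_lit 3527409672) (nat_lit 1846542347) (.two (nat_lit 2889875460) (nat_lit 165525061669) (.two (nat_lit 2889875460) (nat_lit 19026411539) (.two (nat_lit 4194305) (nat_lit 166129041601) (.two (nat_lit 1048576) (nat_lit 156535619801) (.one (nat_lit 47581234120) .nil))))),
   .two (nat_lit 157036838919) (nat_lit 620757007) (.two (nat_lit 18928893955) (nat_lit 19109249063) (.two (nat_lit 156365750273) (nat_lit 10015997990) (.two (nat_lit 2097152) (nat_lit 11626611162) (.one (nat_lit 10351542785) .nil)))),
   .two (nat_lit 169869316) (nat_lit 156569174035) (.one (nat_lit 19029557756) .nil),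
   .two (nat_lit 639631368) (nat_lit 1276117003) (.two (nat_lit 1276116996) (nat_lit 28791799845) (.two (nat_lit 2887778308) (nat_lit 20737687573) (.two (nat_lit 2097153) (nat_lit 739246177) (.two (nat_lit 1048576) (nat_lit 1277165785) (.one (nat_lit 706741217) .nil))))),
   .two (nat_lit 10504634375) (nat_lit 156372041752) (.two (nat_lit 9766436867) (nat_lit 1317011527) (.two (nat_lit 9766436865) (nat_lit 156372041766) (.two (nat_lit 2097152) (nat_lit 46414168283) (.one (nat_lit 10007609856) .nil)))),
   .two (nat_lit 612368391) (nat_lit 19599982607) (.two (nat_lit 612368387) (nat_lit 1916796962) (.two (nat_lit 612368385) (nat_lit 19599982630) (.two (nat_lit 8388608) (nat_lit 166132187604) (.one (nat_lit 306184705) .nil)))),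
   .two (nat_lit 12117344263) (nat_lit 47588573216) (.two (nat_lit 176160771) (nat_lit 19599982626) (.two (nat_lit 8388609) (nat_lit 1916796966) (.two (nat_lit 8388608) (nat_lit 156971827419) (.one (nat_lit 9902752261) .nil)))),
   .two (nat_lit 157036838919) (nat_lit 218103834) (.two (nat_lit 156365750275) (nat_lit 46992982094) (.two (nat_lit 156364701697) (nat_lit 183962173478) (.two (nat_lit 1048576) (nat_lit 4647289054) (.one (nat_lit 352322051) .nil)))),
   .two (nat_lit 2889875460) (nat_lit 2416967699) (.one (nat_lit 2886730238) .nil),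
   .two (nat_lit 37748744) (nat_lit 101711887) (.two (nat_lit 708837381) (nat_lit 1343225890) (.two (nat_lit 708837381) (nat_lit 11543773219) (.two (nat_lit 37748737) (nat_lit 11543773375) (.two (nat_lit 1048576) (nat_lit 773849560) (.one (nat_lit 1049545) .nil))))),
   .two (nat_lit 4194308) (nat_lit 12047089683) (.one (nat_lit 1049586) .nil),
   .two (nat_lit 159224168453) (nat_lit 20704133139) (.one (nat_lit 1216348668) .nil),
   .two (nat_lit 1178599432) (nat_lit 203423755) (.two (nat_lit 2887778308) (nat_lit 156535619621) (.two (nat_lit 2887778308) (nat_lit 12117344275) (.two (nat_lit 2097153) (nat_lit 28793897058) (.two (nat_lit 2097152) (nat_lit 37249614314) (.one (nat_lit 166132188115) .nil))))),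
   .two (nat_lit 270532615) (nat_lit 272629775) (.two (nat_lit 2097155) (nat_lit 9768534050) (.two (nat_lit 2097153) (nat_lit 272629798) (.two (nat_lit 1048576) (nat_lit 10370416859) (.one (nat_lit 705692157) .nil)))),
   .two (nat_lit 176160776) (nat_lit 11543773195) (.two (nat_lit 176160772) (nat_lit 12114198565) (.two (nat_lit 176160772) (nat_lit 1376780307) (.two (nat_lit 34603009) (nat_lit 3565158498) (.two (nat_lit 1048576) (nat_lit 41943257) (.one (nat_lit 209716187) .nil))))),
   .two (nat_lit 1753219077) (nat_lit 166230753299) (.one (nat_lit 2098163) .nil),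
   .two (nat_lit 9781116936) (nat_lit 158143086603) (.two (nat_lit 1191182341) (nat_lit 28690087973) (.two (nat_lit 1191182341) (nat_lit 158176641043) (.two (nat_lit 9781116929) (nat_lit 183912890463) (.two (nat_lit 16777216) (nat_lit 2953838822) (.one (nat_lit 218104809) .nil))))),
   .two (nat_lit 9768534023) (nat_lit 11476664345) (.two (nat_lit 1178599427) (nat_lit 3557818407) (.two (nat_lit 34603009) (nat_lit 612368422) (.two (nat_lit 4194304) (nat_lit 1343226334) (.one (nat_lit 174752531417) .nil)))),
   .two (nat_lit 612368392) (nat_lit 21207449617) (.two (nat_lit 75497477) (nat_lit 21207449638) (.two (nat_lit 4194305) (nat_lit 1846542374) (.two (nat_lit 4194304) (nat_lit 166237045214) (.one (nat_lit 158176641539) .nil)))),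
   .two (nat_lit 117440519) (nat_lit 1310720026) (.two (nat_lit 708837379) (nat_lit 1358954530) (.two (nat_lit 37748737) (nat_lit 12163481638) (.two (nat_lit 4194304) (nat_lit 21827158238) (.one (nat_lit 184550384) .nil)))),
   .two (nat_lit 21777874951) (nat_lit 176160783) (.two (nat_lit 612368387) (nat_lit 10436477013) (.two (nat_lit 612368385) (nat_lit 158176641062) (.two (nat_lit 8388608) (nat_lit 185020186846) (.one (nat_lit 1049088) .nil)))),
   .two (nat_lit 185002360839) (nat_lit 272629775) (.two (nat_lit 721420291) (nat_lit 9768534050) (.two (nat_lit 4194305) (nat_lit 2954887207) (.two (nat_lit 16777216) (nat_lit 4194798) (.one (nat_lit 4195317) .nil)))),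
   .two (nat_lit 2969567239) (nat_lit 157036838927) (.two (nat_lit 46407876611) (nat_lit 10015998029) (.two (nat_lit 2097153) (nat_lit 285212710) (.two (nat_lit 2097152) (nat_lit 9781117147) (.one (nat_lit 9881780736) .nil)))),
   .two (nat_lit 117440519) (nat_lit 174752530447) (.two (nat_lit 20637024259) (nat_lit 183962173511) (.two (nat_lit 605028353) (nat_lit 654311462) (.two (nat_lit 1048576) (nat_lit 1291845851) (.one (nat_lit 721420800) .nil)))),
   .two (nat_lit 2889875460) (nat_lit 10907287571) (.one (nat_lit 156569174243) .nil),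
   .two (nat_lit 11479810052) (nat_lit 3464495123) (.one (nat_lit 4195318) .nil),
   .two (nat_lit 159217877000) (nat_lit 9765388310) (.two (nat_lit 21207449605) (nat_lit 9900654629) (.two (nat_lit 169869316) (nat_lit 9765388310) (.two (nat_lit 9765388289) (nat_lit 165526110305) (.two (nat_lit 1048576) (nat_lit 165526110425) (.one (nat_lit 2887779283) .nil))))),
   .two (nat_lit 272629768) (nat_lit 13187940368) (.two (nat_lit 2889875461) (nat_lit 183845781542) (.two (nat_lit 4194305) (nat_lit 183845781542) (.two (nat_lit 16777216) (nat_lit 874512606) (.one (nat_lit 1176503280) .nil)))),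
   .two (nat_lit 176160773) (nat_lit 2954887187) (.one (nat_lit 4195319) .nil),
   .two (nat_lit 205520904) (nat_lit 2954887183) (.two (nat_lit 11546918917) (nat_lit 101711906) (.two (nat_lit 11546918917) (nat_lit 739246115) (.two (nat_lit 37748737) (nat_lit 101711968) (.two (nat_lit 1048576) (nat_lit 166130090456) (.one (nat_lit 11544822755) .nil))))),
   .two (nat_lit 2894069765) (nat_lit 285212690) (.one (nat_lit 1049592) .nil),
   .two (nat_lit 11479810052) (nat_lit 11577327635) (.one (nat_lit 156569174243) .nil),
   .two (nat_lit 2889875464) (nat_lit 8388619) (.two (nat_lit 272629765) (nat_lit 2994733093) (.two (nat_lit 8388612) (nat_lit 2889875477) (.two (nat_lit 4194305) (nat_lit 10343153759) (.two (nat_lit 4194304) (nat_lit 19134415078) (.one (nat_lit 156569174999) .nil))))),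
   .two (nat_lit 19599982597) (nat_lit 16777237) (.one (nat_lit 28806480102) .nil),
   .two (nat_lit 176160773) (nat_lit 10506731539) (.one (nat_lit 4195321) .nil),
   .two (nat_lit 46414168068) (nat_lit 11513364499) (.one (nat_lit 310378724) .nil),
   .two (nat_lit 169869316) (nat_lit 1749024790) (.one (nat_lit 11546919929) .nil),
   .two (nat_lit 2954887176) (nat_lit 9866051595) (.two (nat_lit 169869314) (nat_lit 158176641090) (.two (nat_lit 169869316) (nat_lit 9866051605) (.two (nat_lit 2097153) (nat_lit 21207449698) (.two (nat_lit 1048576) (nat_lit 639631577) (.one (nat_lit 20704134127) .nil))))),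
   .two (nat_lit 10338959368) (nat_lit 2988441617) (.two (nat_lit 203423749) (nat_lit 156367847462) (.two (nat_lit 2097153) (nat_lit 156367847462) (.two (nat_lit 16777216) (nat_lit 874512862) (.one (nat_lit 1948255193) .nil)))),
   .two (nat_lit 654311431) (nat_lit 157036838927) (.two (nat_lit 2097155) (nat_lit 285212706) (.two (nat_lit 2097153) (nat_lit 1191182374) (.two (nat_lit 1048576) (nat_lit 10519314918) (.one (nat_lit 2098170) .nil)))),
   .two (nat_lit 809500679) (nat_lit 183912890394) (.two (nat_lit 11479810051) (nat_lit 11543773263) (.two (nat_lit 9765388289) (nat_lit 9934209062) (.two (nat_lit 1048576) (nat_lit 10370416862) (.one (nat_lit 47548727811) .nil)))),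
   .two (nat_lit 2887778308) (nat_lit 174685421587) (.one (nat_lit 13221495012) .nil),
   .two (nat_lit 612368391) (nat_lit 4194330) (.two (nat_lit 612368387) (nat_lit 2923429966) (.two (nat_lit 612368385) (nat_lit 4634705958) (.two (nat_lit 8388608) (nat_lit 13224640734) (.one (nat_lit 71303680) .nil)))),
   .two (nat_lit 612368389) (nat_lit 9866051604) (.one (nat_lit 1049596) .nil),
   .two (nat_lit 176160776) (nat_lit 11543773195) (.two (nat_lit 21777874949) (nat_lit 4638900261) (.two (nat_lit 8388613) (nat_lit 184416206868) (.two (nat_lit 612368385) (nat_lit 11543773277) (.two (nat_lit 1048576) (nat_lit 41943257) (.one (nat_lit 8389595) .nil))))),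
   .two (nat_lit 20638072837) (nat_lit 4647288852) (.one (nat_lit 47596962791) .nil),
   .two (nat_lit 11559501829) (nat_lit 75497491) (.one (nat_lit 16778237) .nil),
   .two (nat_lit 41943045) (nat_lit 169869333) (.one (nat_lit 183947493606) .nil),
   .two (nat_lit 270532613) (nat_lit 47555018771) (.one (nat_lit 2098174) .nil),
   .two (nat_lit 2961178631) (nat_lit 639631375) (.two (nat_lit 2097155) (nat_lit 612368418) (.two (nat_lit 2097153) (nat_lit 8388646) (.two (nat_lit 1048576) (nat_lit 75497694) (.one (nat_lit 806355977) .nil)))),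
   .two (nat_lit 285212677) (nat_lit 3458203668) (.one (nat_lit 2098175) .nil),
   .two (nat_lit 203423749) (nat_lit 12054429715) (.one (nat_lit 156372042720) .nil),
   .two (nat_lit 158144135176) (nat_lit 176160783) (.two (nat_lit 21208498181) (nat_lit 41943074) (.two (nat_lit 21208498181) (nat_lit 8388643) (.two (nat_lit 606076929) (nat_lit 8388702) (.two (nat_lit 2097152) (nat_lit 343933407) (.one (nat_lit 20638073813) .nil))))),
   .two (nat_lit 1749024776) (nat_lit 12054429712) (.two (nat_lit 12054429701) (nat_lit 2420113446) (.two (nat_lit 41943041) (nat_lit 2420113446) (.two (nat_lit 16777216) (nat_lit 9772728791) (.one (nat_lit 8389632) .nil)))),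
   .two (nat_lit 276824071) (nat_lit 2889875486) (.two (nat_lit 2894069763) (nat_lit 9768534096) (.two (nat_lit 156367847425) (nat_lit 176160806) (.two (nat_lit 1048576) (nat_lit 2961179118) (.one (nat_lit 1182794241) .nil)))),
   .two (nat_lit 721420292) (nat_lit 843055126) (.one (nat_lit 18928894961) .nil),
   .two (nat_lit 20644364292) (nat_lit 20738736147) (.one (nat_lit 12624855269) .nil),
   .two (nat_lit 41943047) (nat_lit 2987393051) (.two (nat_lit 41943043) (nat_lit 12617515093) (.two (nat_lit 34603009) (nat_lit 343932966) (.two (nat_lit 1048576) (nat_lit 10007609566) (.one (nat_lit 2316304901) .nil)))),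
   .two (nat_lit 2889875460) (nat_lit 10907287571) (.one (nat_lit 3527409893) .nil),
   .two (nat_lit 713031685) (nat_lit 1745879059) (.one (nat_lit 165532402675) .nil),
   .two (nat_lit 1779433477) (nat_lit 46510637075) (.one (nat_lit 2956984548) .nil),
   .two (nat_lit 184549381) (nat_lit 639631379) (.one (nat_lit 16778241) .nil),
   .two (nat_lit 69206021) (nat_lit 158083317778) (.one (nat_lit 4195330) .nil),
   .two (nat_lit 16777223) (nat_lit 166130089999) (.two (nat_lit 184549379) (nat_lit 3525312546) (.two (nat_lit 9766436865) (nat_lit 285212710) (.two (nat_lit 2097152) (nat_lit 9781117150) (.one (nat_lit 157036839419) .nil)))),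
   .two (nat_lit 11559501831) (nat_lit 11544821794) (.two (nat_lit 713031684) (nat_lit 2317352998) (.two (nat_lit 16777216) (nat_lit 185023332859) (.one (nat_lit 183916037127) .nil))),
   .two (nat_lit 158150426631) (nat_lit 28757196834) (.two (nat_lit 20644364291) (nat_lit 21207449638) (.two (nat_lit 8388608) (nat_lit 158143087099) (.one (nat_lit 1309672455) .nil))),
   .two (nat_lit 50331653) (nat_lit 10007609411) .nil,
   .two (nat_lit 2887778308) (nat_lit 1795162117) (.two (nat_lit 50331649) (nat_lit 2317353002) (.one (nat_lit 2097675) .nil)),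
   .two (nat_lit 2889875461) (nat_lit 165532401669) (.two (nat_lit 8388609) (nat_lit 156367847439) (.one (nat_lit 775946488) .nil)),
   .two (nat_lit 822083589) (nat_lit 2894069765) (.two (nat_lit 8388609) (nat_lit 50331660) (.two (nat_lit 1048576) (nat_lit 318767228) .nil)),
   .two (nat_lit 47548727301) (nat_lit 46414168069) (.two (nat_lit 8388609) (nat_lit 3458203663) (.one (nat_lit 11007951097) .nil)),
   .two (nat_lit 705691652) (nat_lit 1191182341) (.two (nat_lit 16777217) (nat_lit 3524263978) (.one (nat_lit 183946445318) .nil)),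
   .two (nat_lit 203423749) (nat_lit 9781116933) (.two (nat_lit 50331649) (nat_lit 639631375) (.one (nat_lit 2097441) .nil)),
   .two (nat_lit 4194308) (nat_lit 3525312517) (.two (nat_lit 4194305) (nat_lit 2887778563) .nil),
   .two (nat_lit 11479810052) (nat_lit 12047089669) (.two (nat_lit 34603009) (nat_lit 1916796943) (.one (nat_lit 19599982847) .nil)),
   .two (nat_lit 4601151493) (nat_lit 12054429701) (.two (nat_lit 41943041) (nat_lit 46409973775) (.one (nat_lit 37316722821) .nil)),
   .two (nat_lit 822083589) (nat_lit 2889875460) (.two (nat_lit 4194305) (nat_lit 13237223491) .nil),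
   .two (nat_lit 285212677) (nat_lit 46980399109) (.two (nat_lit 4194305) (nat_lit 19142803523) .nil),
   .two (nat_lit 2894069765) (nat_lit 46409973764) (.two (nat_lit 8388609) (nat_lit 46409973784) (.one (nat_lit 1049101) .nil)),
   .two (nat_lit 806354949) (nat_lit 9781116940) (.two (nat_lit 16777216) (nat_lit 1048675) (.one (nat_lit 1049102) .nil)),
   .two (nat_lit 8388612) (nat_lit 2902458373) (.two (nat_lit 16777217) (nat_lit 11618222195) .nil),
   .two (nat_lit 1916796933) (nat_lit 1847590917) (.two (nat_lit 9768534017) (nat_lit 2921332778) (.one (nat_lit 183846830341) .nil)),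
   .two (nat_lit 2969567237) (nat_lit 203423749) (.two (nat_lit 2097153) (nat_lit 9948889210) .nil),
   .two (nat_lit 272629765) (nat_lit 1795162117) (.two (nat_lit 50331649) (nat_lit 20740833588) .nil),
   .two (nat_lit 10506731525) (nat_lit 12114198533) (.two (nat_lit 34603009) (nat_lit 166132187151) (.one (nat_lit 4194564) .nil)),
   .two (nat_lit 2889875461) (nat_lit 4605345859) .nil,
   .two (nat_lit 4601151493) (nat_lit 184416206863) (.one (nat_lit 336593206) .nil),
   .two (nat_lit 28758245381) (nat_lit 165532401669) (.two (nat_lit 8388609) (nat_lit 21778923654) .nil),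
   .two (nat_lit 21785214981) (nat_lit 10939793413) (.two (nat_lit 605028353) (nat_lit 165532401679) (.one (nat_lit 8388934) .nil)),
   .two (nat_lit 8388613) (nat_lit 12062818309) (.two (nat_lit 50331649) (nat_lit 1417674819) .nil),
   .two (nat_lit 16777220) (nat_lit 4601151493) (.two (nat_lit 4194305) (nat_lit 822083599) (.one (nat_lit 843055643) .nil)),
   .two (nat_lit 169869316) (nat_lit 166132187141) (.two (nat_lit 2097153) (nat_lit 28089254022) .nil),
   .two (nat_lit 4194308) (nat_lit 620756997) (.two (nat_lit 50331649) (nat_lit 138412310) .nil),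
   .two (nat_lit 270532613) (nat_lit 117440517) (.two (nat_lit 620756993) (nat_lit 20705181833) .nil),
   .two (nat_lit 8388612) (nat_lit 809500677) (.two (nat_lit 37748737) (nat_lit 13228834840) (.one (nat_lit 8389157) .nil)),
   .two (nat_lit 4194308) (nat_lit 83886085) (.two (nat_lit 16777217) (nat_lit 37249613942) .nil),
   .two (nat_lit 16777220) (nat_lit 10506731525) (.two (nat_lit 9768534017) (nat_lit 822083599) (.one (nat_lit 4613734524) .nil)),
   .two (nat_lit 713031684) (nat_lit 12114198533) (.two (nat_lit 34603009) (nat_lit 158083317875) .nil),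
   .two (nat_lit 705691652) (nat_lit 822083589) (.two (nat_lit 50331649) (nat_lit 1343225871) (.one (nat_lit 156566028594) .nil)),
   .two (nat_lit 10506731525) (nat_lit 12114198533) (.two (nat_lit 34603009) (nat_lit 2420113526) .nil),
   .two (nat_lit 1277165573) (nat_lit 28757196805) (.two (nat_lit 34603009) (nat_lit 1277165594) (.one (nat_lit 34603526) .nil)),
   .two (nat_lit 16777220) (nat_lit 4601151493) (.two (nat_lit 4194305) (nat_lit 889192474) (.one (nat_lit 843055643) .nil)),
   .two (nat_lit 705691652) (nat_lit 19029557274) (.one (nat_lit 772800797) .nil),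
   .two (nat_lit 8388612) (nat_lit 285212677) (.two (nat_lit 16777217) (nat_lit 41943055) (.one (nat_lit 209715489) .nil)),
   .two (nat_lit 2097157) (nat_lit 19532873733) (.two (nat_lit 34603009) (nat_lit 1377828877) (.two (nat_lit 1048576) (nat_lit 2097257) (.one (nat_lit 708837699) .nil))),
   .two (nat_lit 2954887173) (nat_lit 3557818414) (.one (nat_lit 9967763580) .nil),
   .two (nat_lit 11479810053) (nat_lit 46978301967) (.one (nat_lit 19027460335) .nil),
   .two (nat_lit 9948889093) (nat_lit 10436476941) (.two (nat_lit 1048576) (nat_lit 28705816626) (.one (nat_lit 28086108703) .nil)),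
   .two (nat_lit 47548727301) (nat_lit 1753219077) (.two (nat_lit 612368385) (nat_lit 3458203714) .nil),
   .two (nat_lit 9948889093) (nat_lit 2889875461) (.two (nat_lit 620756993) (nat_lit 2990538802) (.one (nat_lit 166245433646) .nil)),
   .two (nat_lit 50331653) (nat_lit 101711887) (.one (nat_lit 12147753069) .nil),
   .two (nat_lit 16777220) (nat_lit 183853121541) (.two (nat_lit 8388609) (nat_lit 50331757) .nil),
   .two (nat_lit 69206021) (nat_lit 46414168069) (.two (nat_lit 8388609) (nat_lit 21812477965) (.two (nat_lit 4194304) (nat_lit 21812478057) (.one (nat_lit 185023332675) .nil))),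
   .two (nat_lit 705691652) (nat_lit 20644364293) (.two (nat_lit 8388609) (nat_lit 21777874959) (.one (nat_lit 2953838902) .nil)),
   .two (nat_lit 272629765) (nat_lit 1795162117) (.two (nat_lit 50331649) (nat_lit 10506731535) (.one (nat_lit 4194635) .nil)),
   .two (nat_lit 169869316) (nat_lit 3464495109) (.two (nat_lit 8388609) (nat_lit 10907287690) .nil),
   .two (nat_lit 8388612) (nat_lit 9899606029) (.two (nat_lit 8388608) (nat_lit 46406828074) (.one (nat_lit 28764537086) .nil)),
   .two (nat_lit 8388612) (nat_lit 2889875461) (.two (nat_lit 4194305) (nat_lit 4605345858) .nil),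
   .two (nat_lit 9866051589) (nat_lit 12054429701) (.two (nat_lit 34603009) (nat_lit 158083318083) .nil),
   .two (nat_lit 8388612) (nat_lit 10503585806) (.two (nat_lit 1048576) (nat_lit 4605345816) (.one (nat_lit 28764537092) .nil)),
   .two (nat_lit 4194308) (nat_lit 2969567237) (.two (nat_lit 2097153) (nat_lit 174755676208) (.one (nat_lit 4194857) .nil)),
   .two (nat_lit 46407876612) (nat_lit 156971827205) (.two (nat_lit 37748737) (nat_lit 157036838927) (.one (nat_lit 102760581) .nil)),
   .two (nat_lit 34603013) (nat_lit 117440517) (.two (nat_lit 620756993) (nat_lit 10503586052) .nil),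
   .two (nat_lit 159224168453) (nat_lit 28086108175) (.one (nat_lit 1048909) .nil),
   .two (nat_lit 19596836869) (nat_lit 166132187141) (.two (nat_lit 4194305) (nat_lit 156968681487) (.one (nat_lit 183845781628) .nil)),
   .two (nat_lit 713031684) (nat_lit 156364701701) (.two (nat_lit 16777217) (nat_lit 158083317827) .nil),
   .two (nat_lit 169869316) (nat_lit 822083589) (.two (nat_lit 50331649) (nat_lit 3021996056) (.one (nat_lit 2097707) .nil)),
   .two (nat_lit 41943045) (nat_lit 46409973768) (.two (nat_lit 8388608) (nat_lit 159219974190) (.one (nat_lit 9806282885) .nil)),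
   .two (nat_lit 20637024260) (nat_lit 166130089989) (.two (nat_lit 2097153) (nat_lit 174752530447) (.one (nat_lit 605028485) .nil)),
   .two (nat_lit 158144135173) (nat_lit 184416206853) (.two (nat_lit 34603009) (nat_lit 1210056754) (.one (nat_lit 156969730307) .nil)),
   .two (nat_lit 2887778308) (nat_lit 754974725) (.two (nat_lit 50331649) (nat_lit 12618563715) .nil),
   .two (nat_lit 184993972229) (nat_lit 156968681477) (.two (nat_lit 34603009) (nat_lit 28093448259) .nil),
   .two (nat_lit 13195280389) (nat_lit 1745879045) (.two (nat_lit 605028353) (nat_lit 679477545) .nil),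
   .two (nat_lit 171966469) (nat_lit 11618222093) (.two (nat_lit 4194304) (nat_lit 8388714) (.one (nat_lit 8389643) .nil)),
   .two (nat_lit 169869316) (nat_lit 19532873741) (.two (nat_lit 2097152) (nat_lit 809500687) (.one (nat_lit 12618563838) .nil)),
   .two (nat_lit 8388612) (nat_lit 11492392965) (.two (nat_lit 16777217) (nat_lit 8388623) (.one (nat_lit 8389164) .nil)),
   .two (nat_lit 713031685) (nat_lit 28086108175) (.one (nat_lit 806355077) .nil),
   .two (nat_lit 83886085) (nat_lit 4605345838) (.one (nat_lit 9806283037) .nil),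
   .two (nat_lit 8388613) (nat_lit 46978301957) (.two (nat_lit 8388609) (nat_lit 13222543406) (.one (nat_lit 8388857) .nil)),
   .two (nat_lit 270532613) (nat_lit 1916796933) (.two (nat_lit 9768534017) (nat_lit 3525312527) (.one (nat_lit 10940842248) .nil)),
   .two (nat_lit 184986632197) (nat_lit 183848927237) (.two (nat_lit 34603009) (nat_lit 1413480494) (.one (nat_lit 843055394) .nil)),
   .two (nat_lit 8388612) (nat_lit 2902458373) (.two (nat_lit 16777217) (nat_lit 11618222147) .nil),
   .two (nat_lit 1916796933) (nat_lit 10336862216) (.two (nat_lit 2097152) (nat_lit 165528207410) (.one (nat_lit 4195340) .nil)),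
   .two (nat_lit 13195280389) (nat_lit 20638072840) (.two (nat_lit 8388608) (nat_lit 2887778352) (.one (nat_lit 158083318299) .nil)),
   .two (nat_lit 159224168453) (nat_lit 2316304451) .nil,
   .two (nat_lit 159217876997) (nat_lit 46992982021) (.two (nat_lit 16777217) (nat_lit 159251431436) (.two (nat_lit 1048576) (nat_lit 304087173) .nil)),
   .two (nat_lit 4194308) (nat_lit 16777224) (.two (nat_lit 4194304) (nat_lit 174768259114) (.one (nat_lit 4195341) .nil)),
   .two (nat_lit 50331653) (nat_lit 203423749) (.two (nat_lit 37748737) (nat_lit 9867100202) (.one (nat_lit 13237223698) .nil)),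
   .two (nat_lit 34603013) (nat_lit 117440517) (.two (nat_lit 620756993) (nat_lit 158176641142) .nil),
   .two (nat_lit 101711877) (nat_lit 1291845637) (.two (nat_lit 16777217) (nat_lit 1779433487) (.one (nat_lit 46473937206) .nil)),
   .two (nat_lit 4194308) (nat_lit 9781116933) (.two (nat_lit 50331649) (nat_lit 2987393148) .nil),
   .two (nat_lit 46414168069) (nat_lit 19532873733) (.two (nat_lit 4194305) (nat_lit 156372041836) .nil),
   .two (nat_lit 50331653) (nat_lit 12054429701) (.two (nat_lit 41943041) (nat_lit 889192515) .nil),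
   .two (nat_lit 8388612) (nat_lit 28693233669) (.two (nat_lit 37748737) (nat_lit 9974055033) .nil),
   .two (nat_lit 272629765) (nat_lit 754974725) (.two (nat_lit 50331649) (nat_lit 2889875471) (.one (nat_lit 10506731769) .nil)),
   .two (nat_lit 2889875461) (nat_lit 46978301967) (.one (nat_lit 4194862) .nil),
   .two (nat_lit 705691652) (nat_lit 822083589) (.two (nat_lit 50331649) (nat_lit 1343225871) (.one (nat_lit 183845781835) .nil)),
   .two (nat_lit 9768534021) (nat_lit 19530776591) (.one (nat_lit 1847591161) .nil),
   .two (nat_lit 9781116933) (nat_lit 13191086085) (.two (nat_lit 37748737) (nat_lit 1191182351) (.one (nat_lit 12062818437) .nil)),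
   .two (nat_lit 285212677) (nat_lit 159251431436) (.two (nat_lit 16777216) (nat_lit 20738736169) (.one (nat_lit 1310720121) .nil)),
   .two (nat_lit 2954887173) (nat_lit 157038936069) (.two (nat_lit 9768534017) (nat_lit 28087156996) .nil),
   .two (nat_lit 1276116996) (nat_lit 18926796805) (.two (nat_lit 2097153) (nat_lit 28757196815) (.one (nat_lit 19529728124) .nil)),
   .two (nat_lit 713031684) (nat_lit 3458203663) (.one (nat_lit 639631481) .nil),
   .two (nat_lit 158075977733) (nat_lit 3021996074) (.one (nat_lit 1948254731) .nil),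
   .two (nat_lit 708837381) (nat_lit 754974725) (.two (nat_lit 4194305) (nat_lit 47548727596) .nil),
   .two (nat_lit 285212677) (nat_lit 2889875522) .nil,
   .two (nat_lit 16777220) (nat_lit 184989777925) (.two (nat_lit 37748737) (nat_lit 13203669000) (.two (nat_lit 2097152) (nat_lit 4613734499) (.one (nat_lit 12115247238) .nil))),
   .two (nat_lit 8388612) (nat_lit 19532873736) (.two (nat_lit 4194304) (nat_lit 41943066) (.one (nat_lit 3024093445) .nil)),
   .two (nat_lit 16777221) (nat_lit 9806282797) (.one (nat_lit 9940500810) .nil),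
   .two (nat_lit 16777221) (nat_lit 739246085) (.two (nat_lit 16777217) (nat_lit 1175453800) (.one (nat_lit 19612565758) .nil)),
   .two (nat_lit 50331653) (nat_lit 176160772) (.two (nat_lit 8388609) (nat_lit 10015998019) .nil),
   .two (nat_lit 654311429) (nat_lit 185020186636) (.two (nat_lit 16777216) (nat_lit 19127074865) (.one (nat_lit 12617515129) .nil)),
   .two (nat_lit 75497477) (nat_lit 165526110223) (.one (nat_lit 35651703) .nil),
   .two (nat_lit 184549381) (nat_lit 12054429701) (.two (nat_lit 41943041) (nat_lit 11593056279) (.one (nat_lit 1426063617) .nil)),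
   .two (nat_lit 11479810053) (nat_lit 156372041795) .nil,
   .two (nat_lit 8388612) (nat_lit 272629765) (.two (nat_lit 4194305) (nat_lit 13228834840) (.one (nat_lit 8389157) .nil)),
   .two (nat_lit 9934209029) (nat_lit 37313576972) (.two (nat_lit 2097152) (nat_lit 20737687688) .nil),
   .two (nat_lit 272629765) (nat_lit 654311429) (.two (nat_lit 620756993) (nat_lit 3527409688) (.one (nat_lit 4195342) .nil)),
   .two (nat_lit 809500677) (nat_lit 2902458373) (.two (nat_lit 16777217) (nat_lit 156569174083) .nil),
   .two (nat_lit 169869316) (nat_lit 612368389) (.two (nat_lit 41943041) (nat_lit 47548727311) (.one (nat_lit 2097489) .nil)),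
   .two (nat_lit 705691652) (nat_lit 9948889093) (.two (nat_lit 620756993) (nat_lit 21777875079) .nil),
   .two (nat_lit 705691652) (nat_lit 12121538565) (.two (nat_lit 41943041) (nat_lit 156566028419) .nil),
   .two (nat_lit 8388612) (nat_lit 9948889093) (.two (nat_lit 620756993) (nat_lit 41943055) (.one (nat_lit 10007609599) .nil)),
   .two (nat_lit 10506731525) (nat_lit 12114198533) (.two (nat_lit 16777217) (nat_lit 156569174028) (.two (nat_lit 1048576) (nat_lit 47550824581) .nil)),
   .two (nat_lit 705691652) (nat_lit 721420291) (.two (nat_lit 50331649) (nat_lit 1343225864) (.two (nat_lit 16777216) (nat_lit 158143086618) (.one (nat_lit 166229704864) .nil))),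
   .two (nat_lit 1277165572) (nat_lit 19529728003) (.two (nat_lit 156364701697) (nat_lit 28758245384) (.two (nat_lit 1048576) (nat_lit 10370416666) (.one (nat_lit 156567077013) .nil))),
   .two (nat_lit 13191086085) (nat_lit 12114198541) (.two (nat_lit 156364701697) (nat_lit 2350907511) (.one (nat_lit 2097792) .nil)),
   .two (nat_lit 1277165573) (nat_lit 19532873736) (.two (nat_lit 2097153) (nat_lit 1212153963) (.one (nat_lit 4195352) .nil)),
   .two (nat_lit 176160772) (nat_lit 9781116940) (.two (nat_lit 605028353) (nat_lit 47588573311) (.one (nat_lit 8389657) .nil)),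
   .two (nat_lit 4194308) (nat_lit 184416206856) (.two (nat_lit 4194305) (nat_lit 12047089679) (.two (nat_lit 4194304) (nat_lit 1209008376) (.one (nat_lit 185020187250) .nil))),
   .two (nat_lit 713031685) (nat_lit 9781116940) (.two (nat_lit 620756993) (nat_lit 2961178752) (.one (nat_lit 8389250) .nil)),
   .two (nat_lit 16777220) (nat_lit 11476664335) (.two (nat_lit 16777216) (nat_lit 13188989560) .nil),
   .two (nat_lit 159224168453) (nat_lit 19529728026) (.two (nat_lit 4194304) (nat_lit 34603598) .nil),
   .two (nat_lit 713031684) (nat_lit 158077026319) (.two (nat_lit 8388608) (nat_lit 2097282) (.one (nat_lit 185021235558) .nil)),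
   .two (nat_lit 822083589) (nat_lit 203423759) (.two (nat_lit 16777216) (nat_lit 47582281840) (.one (nat_lit 9934209656) .nil)),
   .two (nat_lit 4194308) (nat_lit 10335813644) (.two (nat_lit 16777217) (nat_lit 10537140354) (.one (nat_lit 2956984936) .nil)),
   .two (nat_lit 16777220) (nat_lit 20738736195) (.one (nat_lit 2098202) .nil),
   .two (nat_lit 272629765) (nat_lit 28087156744) (.two (nat_lit 4194305) (nat_lit 20638072847) (.two (nat_lit 16777216) (nat_lit 4194930) .nil)),
   .two (nat_lit 184549380) (nat_lit 174753579020) (.two (nat_lit 2097153) (nat_lit 11559501889) (.one (nat_lit 166245433976) .nil)),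
   .two (nat_lit 822083589) (nat_lit 203423752) (.two (nat_lit 9781116929) (nat_lit 236978241) (.one (nat_lit 2097803) .nil)),
   .two (nat_lit 721420292) (nat_lit 21207449608) (.two (nat_lit 50331649) (nat_lit 1309671447) (.two (nat_lit 2097152) (nat_lit 2316304997) .nil)),
   .two (nat_lit 1191182341) (nat_lit 3558866969) (.two (nat_lit 16777216) (nat_lit 2097404) (.one (nat_lit 2098203) .nil)),
   .two (nat_lit 4194308) (nat_lit 11626610701) (.two (nat_lit 16777217) (nat_lit 673185910) (.one (nat_lit 2098204) .nil)),
   .two (nat_lit 9948889093) (nat_lit 165526110223) (.two (nat_lit 2097152) (nat_lit 721420353) (.one (nat_lit 16778269) .nil)),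
   .two (nat_lit 169869316) (nat_lit 19529728015) (.two (nat_lit 16777216) (nat_lit 10436477055) (.one (nat_lit 1049229) .nil)),
   .two (nat_lit 169869316) (nat_lit 1916796940) (.two (nat_lit 2097153) (nat_lit 4194429) (.one (nat_lit 4194927) .nil)),
   .two (nat_lit 11476664324) (nat_lit 18933088264) (.two (nat_lit 612368385) (nat_lit 183946444823) (.two (nat_lit 4194304) (nat_lit 156566028400) (.one (nat_lit 1049231) .nil))),
   .two (nat_lit 183853121540) (nat_lit 16777280) (.one (nat_lit 50331839) .nil),
   .two (nat_lit 16777220) (nat_lit 28690087949) (.two (nat_lit 8388609) (nat_lit 18925748239) (.two (nat_lit 8388608) (nat_lit 19093520502) (.one (nat_lit 16778271) .nil))),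
   .two (nat_lit 184549380) (nat_lit 20638072840) (.two (nat_lit 16777217) (nat_lit 158077026328) (.two (nat_lit 1048576) (nat_lit 1746927731) (.one (nat_lit 2097808) .nil))),
   .two (nat_lit 75497477) (nat_lit 3525312520) (.two (nat_lit 2097153) (nat_lit 41943055) (.two (nat_lit 4194304) (nat_lit 28691137103) .nil)),
   .two (nat_lit 10343153669) (nat_lit 620757007) (.two (nat_lit 8388608) (nat_lit 158158815355) (.one (nat_lit 16777873) .nil)),
   .two (nat_lit 16777220) (nat_lit 1175453704) (.two (nat_lit 8388609) (nat_lit 1913651322) (.one (nat_lit 285213296) .nil)),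
   .two (nat_lit 270532613) (nat_lit 1749024792) (.two (nat_lit 1048576) (nat_lit 4194935) .nil),
   .two (nat_lit 169869316) (nat_lit 10003415054) (.two (nat_lit 2097153) (nat_lit 11479810063) (.two (nat_lit 8388608) (nat_lit 46407876735) (.one (nat_lit 2098208) .nil))),
   .two (nat_lit 16777220) (nat_lit 2954887176) (.two (nat_lit 2097153) (nat_lit 2365587498) (.two (nat_lit 16777216) (nat_lit 3021996158) (.one (nat_lit 13222543977) .nil))),
   .two (nat_lit 8388612) (nat_lit 807403534) (.two (nat_lit 8388609) (nat_lit 166130089999) (.two (nat_lit 16777216) (nat_lit 2097406) (.one (nat_lit 8389665) .nil))),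
   .two (nat_lit 16777220) (nat_lit 28093448200) (.two (nat_lit 612368385) (nat_lit 822083599) (.two (nat_lit 1048576) (nat_lit 19545457252) .nil)),
   .two (nat_lit 2954887173) (nat_lit 19537068045) (.two (nat_lit 16777217) (nat_lit 9766436879) (.two (nat_lit 16777216) (nat_lit 2097408) (.one (nat_lit 2098210) .nil))),
   .two (nat_lit 46978301957) (nat_lit 10939793416) (.two (nat_lit 2097153) (nat_lit 28757196918) (.one (nat_lit 1049235) .nil)),
   .two (nat_lit 638582789) (nat_lit 9948889103) (.two (nat_lit 8388608) (nat_lit 10503585922) (.one (nat_lit 16778276) .nil)),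
   .two (nat_lit 13191086085) (nat_lit 10504634383) (.two (nat_lit 4194304) (nat_lit 183846830199) (.one (nat_lit 1277166154) .nil)),
   .two (nat_lit 4194308) (nat_lit 11626610701) (.two (nat_lit 16777217) (nat_lit 136314998) (.one (nat_lit 2098213) .nil)),
   .two (nat_lit 9866051589) (nat_lit 843055116) (.two (nat_lit 34603009) (nat_lit 306184302) (.one (nat_lit 46510637644) .nil)),
   .two (nat_lit 184549380) (nat_lit 1277165583) (.two (nat_lit 16777216) (nat_lit 2956984934) .nil),
   .two (nat_lit 11479810052) (nat_lit 158176641048) (.two (nat_lit 1048576) (nat_lit 46510637165) (.one (nat_lit 46980399692) .nil)),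
   .two (nat_lit 8388612) (nat_lit 10336862223) (.two (nat_lit 8388608) (nat_lit 236978286) (.one (nat_lit 2097771) .nil)),
   .two (nat_lit 705691652) (nat_lit 157038936076) (.two (nat_lit 34603009) (nat_lit 46980399169) (.one (nat_lit 239075958) .nil)),
   .two (nat_lit 184549380) (nat_lit 20638072840) (.two (nat_lit 16777217) (nat_lit 158077026328) (.two (nat_lit 1048576) (nat_lit 1746927731) (.one (nat_lit 21223179280) .nil))),
   .two (nat_lit 1343225861) (nat_lit 47550824462) (.two (nat_lit 16777217) (nat_lit 10335813762) (.one (nat_lit 28693234715) .nil)),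
   .two (nat_lit 2887778308) (nat_lit 75497485) (.two (nat_lit 2097153) (nat_lit 41943055) (.two (nat_lit 4194304) (nat_lit 2418016386) (.one (nat_lit 8389269) .nil))),
   .two (nat_lit 8388612) (nat_lit 166129041450) (.two (nat_lit 8388608) (nat_lit 46507491448) (.one (nat_lit 1049238) .nil)),
   .two (nat_lit 4194308) (nat_lit 620757000) (.two (nat_lit 16777217) (nat_lit 19599982699) (.one (nat_lit 10003415657) .nil)),
   .two (nat_lit 10343153669) (nat_lit 184549391) (.two (nat_lit 1048576) (nat_lit 10015998196) (.one (nat_lit 16777879) .nil)),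
   .two (nat_lit 8388612) (nat_lit 1343225864) (.two (nat_lit 8388609) (nat_lit 11577327639) (.two (nat_lit 8388608) (nat_lit 166129041534) (.one (nat_lit 11510219366) .nil))),
   .two (nat_lit 11543773189) (nat_lit 165526110216) (.two (nat_lit 9765388289) (nat_lit 11007950955) (.one (nat_lit 156969730712) .nil)),
   .two (nat_lit 34603013) (nat_lit 9781116936) (.two (nat_lit 34603009) (nat_lit 156969730063) (.two (nat_lit 1048576) (nat_lit 1847591036) (.one (nat_lit 1049639) .nil))),
   .two (nat_lit 16777220) (nat_lit 11543773199) (.two (nat_lit 8388608) (nat_lit 184416207478) .nil),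
   .two (nat_lit 158075977733) (nat_lit 11559501889) (.one (nat_lit 11559502447) .nil),
   .two (nat_lit 184549380) (nat_lit 11577327639) (.two (nat_lit 16777216) (nat_lit 10906239224) (.one (nat_lit 159216829073) .nil)),
   .two (nat_lit 184549380) (nat_lit 4634705987) (.one (nat_lit 339739240) .nil),
   .two (nat_lit 3458203653) (nat_lit 13195280399) (.two (nat_lit 2097152) (nat_lit 1384120441) (.one (nat_lit 2098199) .nil)),
   .two (nat_lit 102760453) (nat_lit 156367847439) (.two (nat_lit 8388608) (nat_lit 19599983218) .nil),
   .two (nat_lit 721420293) (nat_lit 156372041736) (.two (nat_lit 8388609) (nat_lit 183962173465) (.two (nat_lit 4194304) (nat_lit 889193040) .nil)),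
   .two (nat_lit 8388612) (nat_lit 156365750287) (.two (nat_lit 8388608) (nat_lit 12148802151) .nil),
   .two (nat_lit 605028357) (nat_lit 4605345800) (.two (nat_lit 4194305) (nat_lit 1175453711) (.two (nat_lit 4194304) (nat_lit 75497592) (.one (nat_lit 1049641) .nil))),
   .two (nat_lit 184549380) (nat_lit 12117344271) (.two (nat_lit 2097152) (nat_lit 4194925) .nil),
   .two (nat_lit 41943045) (nat_lit 28757196808) (.two (nat_lit 605028353) (nat_lit 4638900247) (.two (nat_lit 1048576) (nat_lit 8388865) (.one (nat_lit 11584668240) .nil))),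
   .two (nat_lit 13195280389) (nat_lit 156569174028) (.two (nat_lit 156367847425) (nat_lit 11618222145) (.one (nat_lit 8389274) .nil)),
   .two (nat_lit 4194308) (nat_lit 46978301967) (.two (nat_lit 4194304) (nat_lit 174753579131) (.one (nat_lit 46978302994) .nil)),
   .two (nat_lit 11543773189) (nat_lit 11007950860) (.two (nat_lit 34603009) (nat_lit 20638072953) (.one (nat_lit 13188989537) .nil)),
   .two (nat_lit 16777221) (nat_lit 159251431436) (.two (nat_lit 16777217) (nat_lit 9967763496) (.two (nat_lit 16777216) (nat_lit 2097286) (.one (nat_lit 2097819) .nil))),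
   .two (nat_lit 9948889093) (nat_lit 21811429388) (.two (nat_lit 620756993) (nat_lit 10939793526) (.one (nat_lit 1049644) .nil)),
   .two (nat_lit 169869316) (nat_lit 285212680) (.two (nat_lit 606076929) (nat_lit 318767127) (.two (nat_lit 8388608) (nat_lit 47582281855) (.one (nat_lit 16777884) .nil))),
   .two (nat_lit 270532613) (nat_lit 156372041736) (.two (nat_lit 2097153) (nat_lit 11517558809) (.two (nat_lit 1048576) (nat_lit 270532738) (.one (nat_lit 8389677) .nil))),
   .two (nat_lit 705691652) (nat_lit 4605345800) (.two (nat_lit 50331649) (nat_lit 11577327743) (.one (nat_lit 1049646) .nil)),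
   .two (nat_lit 8388613) (nat_lit 9781116940) (.two (nat_lit 34603009) (nat_lit 46414168129) (.one (nat_lit 8389277) .nil)),
   .two (nat_lit 4194308) (nat_lit 184549384) (.two (nat_lit 16777217) (nat_lit 13224640619) (.one (nat_lit 16777886) .nil)),
   .two (nat_lit 713031685) (nat_lit 11510218776) (.two (nat_lit 4194304) (nat_lit 18933088865) .nil),
   .two (nat_lit 612368389) (nat_lit 13191086095) (.two (nat_lit 8388608) (nat_lit 1312817271) (.one (nat_lit 1178600010) .nil)),
   .two (nat_lit 176160772) (nat_lit 21777874959) (.two (nat_lit 8388608) (nat_lit 9866051841) (.one (nat_lit 1309672038) .nil)),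
   .two (nat_lit 4194308) (nat_lit 3525312527) (.two (nat_lit 16777216) (nat_lit 158144135291) (.one (nat_lit 2097824) .nil)),
   .two (nat_lit 176160772) (nat_lit 184416206863) (.two (nat_lit 8388608) (nat_lit 4027580535) (.one (nat_lit 4027581072) .nil)),
   .two (nat_lit 721420293) (nat_lit 1780482063) (.two (nat_lit 8388608) (nat_lit 2418016508) (.one (nat_lit 2098223) .nil)),
   .two (nat_lit 50331653) (nat_lit 2889875464) (.two (nat_lit 4194305) (nat_lit 721420303) (.two (nat_lit 16777216) (nat_lit 4194563) (.one (nat_lit 809501735) .nil))),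
   .two (nat_lit 8388612) (nat_lit 157036838920) (.two (nat_lit 2097153) (nat_lit 10443817002) (.two (nat_lit 4194304) (nat_lit 840958569) .nil)),
   .two (nat_lit 4194308) (nat_lit 10504634383) (.two (nat_lit 4194304) (nat_lit 183846830199) (.one (nat_lit 1277166154) .nil)),
   .two (nat_lit 174753579013) (nat_lit 184549399) (.two (nat_lit 2097152) (nat_lit 11593056504) (.one (nat_lit 16777891) .nil)),
   .two (nat_lit 16777221) (nat_lit 28691136520) (.two (nat_lit 8388609) (nat_lit 156533522550) (.one (nat_lit 11578377233) .nil)),
   .two (nat_lit 721420293) (nat_lit 1277165583) (.two (nat_lit 16777216) (nat_lit 874512514) (.one (nat_lit 156969730640) .nil)),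
   .two (nat_lit 184549380) (nat_lit 21812477965) (.two (nat_lit 16777217) (nat_lit 13222543493) (.one (nat_lit 11010048669) .nil)),
   .two (nat_lit 28757196805) (nat_lit 10336862223) (.two (nat_lit 1048576) (nat_lit 11511267460) (.one (nat_lit 2098224) .nil)),
   .two (nat_lit 8388612) (nat_lit 3539992584) (.two (nat_lit 41943041) (nat_lit 19529728015) (.two (nat_lit 16777216) (nat_lit 1048836) (.one (nat_lit 3524264294) .nil))),
   .two (nat_lit 184993972229) (nat_lit 1913651208) (.two (nat_lit 156364701697) (nat_lit 8388633) (.two (nat_lit 4194304) (nat_lit 156539814520) .nil)),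
   .two (nat_lit 16777220) (nat_lit 158144135176) (.two (nat_lit 16777217) (nat_lit 165526110223) (.two (nat_lit 1048576) (nat_lit 1411383910) .nil)),
   .two (nat_lit 713031685) (nat_lit 158077026319) (.two (nat_lit 8388608) (nat_lit 102760566) (.one (nat_lit 4195377) .nil)),
   .two (nat_lit 4194308) (nat_lit 46978301967) (.two (nat_lit 4194304) (nat_lit 4028629057) (.one (nat_lit 337642144) .nil)),
   .two (nat_lit 4194308) (nat_lit 156365750287) (.two (nat_lit 4194304) (nat_lit 16777884) .nil),
   .two (nat_lit 8388612) (nat_lit 28087156751) (.two (nat_lit 2097152) (nat_lit 218103932) (.one (nat_lit 2098226) .nil)),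
   .two (nat_lit 169869316) (nat_lit 19604176911) (.two (nat_lit 4194304) (nat_lit 28691136577) (.one (nat_lit 8389683) .nil)),
   .two (nat_lit 2097157) (nat_lit 158083317827) (.one (nat_lit 8389684) .nil),
   .two (nat_lit 10503585797) (nat_lit 721420303) (.two (nat_lit 8388608) (nat_lit 4043309755) .nil),
   .two (nat_lit 19530776581) (nat_lit 10343153676) (.two (nat_lit 2097153) (nat_lit 156372041840) (.one (nat_lit 109052489) .nil)),
   .two (nat_lit 11559501829) (nat_lit 46980399119) (.two (nat_lit 4194304) (nat_lit 3472883846) (.one (nat_lit 4195435) .nil)),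
   .two (nat_lit 218103813) (nat_lit 165526110223) (.two (nat_lit 1048576) (nat_lit 855638646) .nil),
   .two (nat_lit 809500677) (nat_lit 158143086600) (.two (nat_lit 37748737) (nat_lit 9866051599) (.two (nat_lit 1048576) (nat_lit 4634706027) (.one (nat_lit 4030726769) .nil))),
   .two (nat_lit 605028357) (nat_lit 20644364303) (.two (nat_lit 1048576) (nat_lit 2319450372) (.one (nat_lit 21814576186) .nil)),
   .two (nat_lit 83886085) (nat_lit 12054429711) (.two (nat_lit 16777216) (nat_lit 1786773634) (.one (nat_lit 157043131052) .nil)),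
   .two (nat_lit 11559501829) (nat_lit 184993972249) (.two (nat_lit 2097152) (nat_lit 10452205684) (.one (nat_lit 2098284) .nil)),
   .two (nat_lit 11543773189) (nat_lit 9781116936) (.two (nat_lit 34603009) (nat_lit 10519314456) (.two (nat_lit 16777216) (nat_lit 1049106) (.one (nat_lit 12617515594) .nil))),
   .two (nat_lit 21208498181) (nat_lit 157038936079) (.two (nat_lit 2097152) (nat_lit 19532873840) (.one (nat_lit 37749328) .nil)),
   .two (nat_lit 705691652) (nat_lit 11007950860) (.two (nat_lit 34603009) (nat_lit 174686470260) (.one (nat_lit 10001318511) .nil)),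
   .two (nat_lit 16777220) (nat_lit 28693233679) (.two (nat_lit 4194304) (nat_lit 28705816710) (.one (nat_lit 174701151282) .nil)),
   .two (nat_lit 809500677) (nat_lit 12617515034) (.two (nat_lit 1048576) (nat_lit 19128123509) (.one (nat_lit 28691137102) .nil)),
   .two (nat_lit 4194308) (nat_lit 18925748239) (.two (nat_lit 16777216) (nat_lit 1212154465) .nil),
   .two (nat_lit 4194308) (nat_lit 10544480270) (.two (nat_lit 4194305) (nat_lit 1277165583) (.two (nat_lit 4194304) (nat_lit 183913939069) (.one (nat_lit 2098285) .nil))),
   .two (nat_lit 721420292) (nat_lit 2987393038) (.two (nat_lit 2097153) (nat_lit 721420303) (.two (nat_lit 1048576) (nat_lit 166197198978) (.one (nat_lit 185021236290) .nil))),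
   .two (nat_lit 41943045) (nat_lit 3458203656) (.two (nat_lit 612368385) (nat_lit 10538189096) (.one (nat_lit 2098286) .nil)),
   .two (nat_lit 4194308) (nat_lit 3464495129) (.two (nat_lit 1048576) (nat_lit 156971827324) (.one (nat_lit 10537141316) .nil)),
   .two (nat_lit 159217876997) (nat_lit 1779433487) (.two (nat_lit 2097152) (nat_lit 158176641089) (.one (nat_lit 1049285) .nil)),
   .two (nat_lit 10506731525) (nat_lit 740294670) (.two (nat_lit 2097153) (nat_lit 1950351661) (.one (nat_lit 4195440) .nil)),
   .two (nat_lit 2887778308) (nat_lit 3557818414) (.two (nat_lit 2097152) (nat_lit 1343225974) (.one (nat_lit 156968682067) .nil)),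
   .two (nat_lit 12047089669) (nat_lit 12054429722) (.two (nat_lit 1048576) (nat_lit 37314625670) (.one (nat_lit 2098289) .nil)),
   .two (nat_lit 3525312517) (nat_lit 612368397) (.two (nat_lit 2097153) (nat_lit 21214789682) (.two (nat_lit 4194304) (nat_lit 2927624326) (.one (nat_lit 9806283880) .nil))),
   .two (nat_lit 9781116933) (nat_lit 8388623) (.two (nat_lit 4194304) (nat_lit 3028288151) .nil),
   .two (nat_lit 158143086597) (nat_lit 28693233679) (.two (nat_lit 1048576) (nat_lit 1346371714) (.one (nat_lit 183916036728) .nil)),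
   .two (nat_lit 16777221) (nat_lit 19029557261) (.two (nat_lit 4194305) (nat_lit 9948889103) (.two (nat_lit 8388608) (nat_lit 166132187377) (.one (nat_lit 16778355) .nil))),
   .two (nat_lit 1753219077) (nat_lit 203423759) (.two (nat_lit 8388608) (nat_lit 46474985585) (.one (nat_lit 2350908033) .nil)),
   .two (nat_lit 203423749) (nat_lit 159224168460) (.two (nat_lit 2097153) (nat_lit 10007609458) (.one (nat_lit 10510926927) .nil)),
   .two (nat_lit 2887778308) (nat_lit 1753219084) (.two (nat_lit 2097153) (nat_lit 4605345914) (.one (nat_lit 12624855670) .nil)),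
   .two (nat_lit 159217876997) (nat_lit 10506731535) (.two (nat_lit 2097152) (nat_lit 3527409774) (.one (nat_lit 47550825067) .nil)),
   .two (nat_lit 705691652) (nat_lit 11477712910) (.two (nat_lit 50331649) (nat_lit 705691663) (.two (nat_lit 16777216) (nat_lit 9933160704) (.one (nat_lit 1049716) .nil))),
   .two (nat_lit 9866051589) (nat_lit 165532401679) (.two (nat_lit 1048576) (nat_lit 20644364354) (.one (nat_lit 13228835462) .nil)),
   .two (nat_lit 3458203653) (nat_lit 9781116943) (.two (nat_lit 2097152) (nat_lit 620757353) .nil),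
   .two (nat_lit 13191086085) (nat_lit 1745879064) (.two (nat_lit 1048576) (nat_lit 13191086195) (.one (nat_lit 1049287) .nil)),
   .two (nat_lit 4599054341) (nat_lit 156372041743) (.two (nat_lit 8388608) (nat_lit 13188989537) .nil),
   .two (nat_lit 10370416645) (nat_lit 1317011469) (.two (nat_lit 2097153) (nat_lit 3565158531) (.one (nat_lit 158183981696) .nil)),
   .two (nat_lit 184549381) (nat_lit 159224168463) (.two (nat_lit 8388608) (nat_lit 174752530546) (.one (nat_lit 1049717) .nil)),
   .two (nat_lit 158075977733) (nat_lit 10506731532) (.two (nat_lit 34603009) (nat_lit 3527409729) (.one (nat_lit 10909385339) .nil)),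
   .two (nat_lit 11479810053) (nat_lit 3557818382) (.two (nat_lit 2097153) (nat_lit 174688567415) (.one (nat_lit 156533523038) .nil)),
   .two (nat_lit 184986632197) (nat_lit 166130089992) (.two (nat_lit 9766436865) (nat_lit 11510218775) (.two (nat_lit 1048576) (nat_lit 3021996158) (.one (nat_lit 4027581070) .nil))),
   .two (nat_lit 41943045) (nat_lit 135266316) (.two (nat_lit 41943041) (nat_lit 2416967794) (.one (nat_lit 9899607105) .nil)),
   .two (nat_lit 184549380) (nat_lit 10336862216) (.two (nat_lit 2097153) (nat_lit 21223178366) (.one (nat_lit 4043309676) .nil)),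
   .two (nat_lit 4194308) (nat_lit 21785214989) (.two (nat_lit 2097153) (nat_lit 166199296126) (.one (nat_lit 4195447) .nil)),
   .two (nat_lit 8388612) (nat_lit 157036838920) (.two (nat_lit 8388609) (nat_lit 2921332759) (.two (nat_lit 8388608) (nat_lit 1780482174) (.one (nat_lit 740295309) .nil))),
   .two (nat_lit 822083589) (nat_lit 10504634376) (.two (nat_lit 2097153) (nat_lit 117440527) (.two (nat_lit 16777216) (nat_lit 740294926) (.one (nat_lit 20753416777) .nil))),
   .two (nat_lit 1913651205) (nat_lit 156372041741) (.two (nat_lit 41943041) (nat_lit 28690087951) (.two (nat_lit 1048576) (nat_lit 156372041837) (.one (nat_lit 2323645005) .nil))),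
   .two (nat_lit 50331653) (nat_lit 20738736141) (.two (nat_lit 2097153) (nat_lit 721420303) (.two (nat_lit 16777216) (nat_lit 1310720109) (.one (nat_lit 2317353631) .nil))),
   .two (nat_lit 1343225861) (nat_lit 156365750280) (.two (nat_lit 50331649) (nat_lit 10370416760) (.one (nat_lit 13221495453) .nil)),
   .two (nat_lit 169869316) (nat_lit 822083599) (.two (nat_lit 16777216) (nat_lit 4028629102) (.one (nat_lit 2954887757) .nil)),
   .two (nat_lit 176160772) (nat_lit 675282968) (.two (nat_lit 8388608) (nat_lit 1749024894) (.one (nat_lit 166237045320) .nil)),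
   .two (nat_lit 8388612) (nat_lit 10336862223) (.two (nat_lit 8388608) (nat_lit 156465365110) (.one (nat_lit 1846542696) .nil)),
   .two (nat_lit 176160772) (nat_lit 3460300808) (.two (nat_lit 605028353) (nat_lit 205520939) (.two (nat_lit 8388608) (nat_lit 46406828286) (.one (nat_lit 28690088296) .nil))),
   .two (nat_lit 620756997) (nat_lit 1277165583) (.two (nat_lit 16777216) (nat_lit 10437525622) (.one (nat_lit 10001318504) .nil)),
   .two (nat_lit 2902458372) (nat_lit 174753579020) (.two (nat_lit 2097153) (nat_lit 3539992701) (.one (nat_lit 16777929) .nil)),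
   .two (nat_lit 612368389) (nat_lit 83886088) (.two (nat_lit 41943041) (nat_lit 158158815256) (.two (nat_lit 8388608) (nat_lit 16777747) (.one (nat_lit 1417675439) .nil))),
   .two (nat_lit 101711877) (nat_lit 156569174028) (.two (nat_lit 9768534017) (nat_lit 46977253507) (.one (nat_lit 739246675) .nil)),
   .two (nat_lit 159224168453) (nat_lit 28758245388) (.two (nat_lit 2097153) (nat_lit 21785215085) (.one (nat_lit 2894070418) .nil)),
   .two (nat_lit 159217876997) (nat_lit 158646403098) (.two (nat_lit 1048576) (nat_lit 166232850549) (.one (nat_lit 1849688654) .nil)),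
   .two (nat_lit 176160772) (nat_lit 9881780232) (.two (nat_lit 8388609) (nat_lit 28772925464) (.two (nat_lit 1048576) (nat_lit 183928619691) .nil)),
   .two (nat_lit 50331653) (nat_lit 4605345832) (.two (nat_lit 16777216) (nat_lit 11484004486) (.one (nat_lit 1216349252) .nil)),
   .two (nat_lit 809500677) (nat_lit 772800525) (.two (nat_lit 34603009) (nat_lit 13191086095) (.two (nat_lit 1048576) (nat_lit 174755676293) (.one (nat_lit 3020948510) .nil))),
   .two (nat_lit 50331653) (nat_lit 158083317768) (.two (nat_lit 50331649) (nat_lit 158653743128) (.two (nat_lit 8388608) (nat_lit 28691137223) .nil)),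
   .two (nat_lit 1277165573) (nat_lit 2420113421) (.two (nat_lit 2097153) (nat_lit 46477082743) (.one (nat_lit 2923430578) .nil)),
   .two (nat_lit 620756997) (nat_lit 158144135176) (.two (nat_lit 2097153) (nat_lit 11593056280) (.two (nat_lit 8388608) (nat_lit 83886776) .nil)),
   .two (nat_lit 41943045) (nat_lit 12117344269) (.two (nat_lit 37748737) (nat_lit 184993972239) (.two (nat_lit 16777216) (nat_lit 11010048117) (.one (nat_lit 8389754) .nil))),
   .two (nat_lit 8388612) (nat_lit 21777874959) (.two (nat_lit 8388608) (nat_lit 1175454319) .nil),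
   .two (nat_lit 50331653) (nat_lit 18933088269) (.two (nat_lit 8388609) (nat_lit 721420395) (.one (nat_lit 28772926032) .nil)),
   .two (nat_lit 2969567237) (nat_lit 156971827208) (.two (nat_lit 16777217) (nat_lit 10942939160) (.two (nat_lit 4194304) (nat_lit 183928619623) .nil)),
   .two (nat_lit 159224168453) (nat_lit 28690087944) (.two (nat_lit 612368385) (nat_lit 19026411544) (.two (nat_lit 1048576) (nat_lit 21818770028) .nil)),
   .two (nat_lit 12117344261) (nat_lit 47582281741) (.two (nat_lit 156367847425) (nat_lit 47582281837) (.one (nat_lit 2097866) .nil)),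
   .two (nat_lit 2956984325) (nat_lit 13195280399) (.two (nat_lit 1048576) (nat_lit 1216348792) .nil),
   .two (nat_lit 4605345797) (nat_lit 21207449608) (.two (nat_lit 8388609) (nat_lit 46507491370) (.two (nat_lit 8388608) (nat_lit 156465365099) (.one (nat_lit 37320917581) .nil))),
   .two (nat_lit 50331653) (nat_lit 158144135176) (.two (nat_lit 50331649) (nat_lit 46407876650) (.two (nat_lit 16777216) (nat_lit 1310720110) (.one (nat_lit 158158815821) .nil))),
   .two (nat_lit 1291845636) (nat_lit 1745879055) (.two (nat_lit 8388608) (nat_lit 13203669645) .nil),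
   .two (nat_lit 1277165572) (nat_lit 156367847439) (.two (nat_lit 1048576) (nat_lit 1749025394) .nil),
   .two (nat_lit 9934209029) (nat_lit 183912890380) (.two (nat_lit 605028353) (nat_lit 3525312527) (.two (nat_lit 1048576) (nat_lit 2097466) (.one (nat_lit 2098300) .nil))),
   .two (nat_lit 12114198533) (nat_lit 11007950860) (.two (nat_lit 606076929) (nat_lit 184416206863) (.two (nat_lit 1048576) (nat_lit 4028629057) (.one (nat_lit 157036839481) .nil))),
   .two (nat_lit 12114198533) (nat_lit 10940842024) (.two (nat_lit 1048576) (nat_lit 4028629057) (.one (nat_lit 740295302) .nil)),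
   .two (nat_lit 2889875460) (nat_lit 12047089679) (.two (nat_lit 4194304) (nat_lit 1376780397) (.one (nat_lit 4631560813) .nil)),
   .two (nat_lit 9768534021) (nat_lit 880803852) (.two (nat_lit 37748737) (nat_lit 11618222145) (.one (nat_lit 4195454) .nil)),
   .two (nat_lit 2889875460) (nat_lit 37253808141) (.two (nat_lit 4194305) (nat_lit 12129927289) (.one (nat_lit 612369053) .nil)),
   .two (nat_lit 12121538565) (nat_lit 1846542344) (.two (nat_lit 41943041) (nat_lit 19026411543) (.two (nat_lit 2097152) (nat_lit 2316305069) .nil)),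
   .two (nat_lit 16777220) (nat_lit 9766436872) (.two (nat_lit 16777217) (nat_lit 2887778329) (.two (nat_lit 8388608) (nat_lit 9948889767) .nil)),
   .two (nat_lit 2097157) (nat_lit 156367847432) (.two (nat_lit 2097153) (nat_lit 2923429913) (.two (nat_lit 1048576) (nat_lit 174753579132) (.one (nat_lit 19127075912) .nil))),
   .two (nat_lit 2097157) (nat_lit 654311439) (.two (nat_lit 2097152) (nat_lit 183912890486) (.one (nat_lit 16778368) .nil)),
   .two (nat_lit 2954887173) (nat_lit 1745879053) (.two (nat_lit 16777217) (nat_lit 174752530569) (.one (nat_lit 12147753617) .nil)),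
   .two (nat_lit 171966469) (nat_lit 1291845647) (.two (nat_lit 1048576) (nat_lit 3527409782) (.one (nat_lit 16778369) .nil)),
   .two (nat_lit 822083589) (nat_lit 639631368) (.two (nat_lit 2097153) (nat_lit 12129927192) (.two (nat_lit 16777216) (nat_lit 28791799934) (.one (nat_lit 21793604215) .nil))),
   .two (nat_lit 10504634373) (nat_lit 2994733069) (.two (nat_lit 156365750273) (nat_lit 18933088376) (.one (nat_lit 8389763) .nil)),
   .two (nat_lit 285212677) (nat_lit 1779433487) (.two (nat_lit 16777216) (nat_lit 165525061992) .nil),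
   .two (nat_lit 176160772) (nat_lit 184416206863) (.two (nat_lit 4194304) (nat_lit 336593517) .nil),
   .two (nat_lit 4194308) (nat_lit 174753579020) (.two (nat_lit 2097153) (nat_lit 1413480494) (.two (nat_lit 1048576) (nat_lit 156365750395) (.one (nat_lit 1277166618) .nil))),
   .two (nat_lit 809500677) (nat_lit 165525061656) (.two (nat_lit 1048576) (nat_lit 10942939262) (.one (nat_lit 158646403685) .nil)),
   .two (nat_lit 2889875460) (nat_lit 21208498191) (.two (nat_lit 8388608) (nat_lit 13191086705) .nil),
   .two (nat_lit 184549381) (nat_lit 156468510746) (.two (nat_lit 1048576) (nat_lit 156971827813) .nil),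
   .two (nat_lit 19530776581) (nat_lit 654311439) (.two (nat_lit 4194304) (nat_lit 20753416824) .nil),
   .two (nat_lit 156971827205) (nat_lit 158176641091) (.one (nat_lit 11510219111) .nil),
   .two (nat_lit 169869316) (nat_lit 9948889114) (.two (nat_lit 2097152) (nat_lit 46477082758) (.one (nat_lit 4195460) .nil)),
   .two (nat_lit 169869316) (nat_lit 19599982604) (.two (nat_lit 2097153) (nat_lit 9869197431) (.one (nat_lit 9869197968) .nil)),
   .two (nat_lit 809500677) (nat_lit 158143086600) (.two (nat_lit 4194305) (nat_lit 20637024300) (.two (nat_lit 1048576) (nat_lit 1178599542) (.one (nat_lit 159216829032) .nil))),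
   .two (nat_lit 11476664324) (nat_lit 10437525570) (.one (nat_lit 2098309) .nil),
   .two (nat_lit 2969567237) (nat_lit 19599982607) (.two (nat_lit 4194304) (nat_lit 9881780331) (.one (nat_lit 156481094246) .nil)),
   .two (nat_lit 13195280389) (nat_lit 10939793416) (.two (nat_lit 41943041) (nat_lit 166129041432) (.two (nat_lit 1048576) (nat_lit 12054429803) (.one (nat_lit 20737688235) .nil))),
   .two (nat_lit 10504634373) (nat_lit 21777874959) (.two (nat_lit 1048576) (nat_lit 169869571) (.one (nat_lit 1049185) .nil)),
   .two (nat_lit 28758245381) (nat_lit 156367847439) (.two (nat_lit 4194304) (nat_lit 1847591033) (.one (nat_lit 16777932) .nil)),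
   .two (nat_lit 169869316) (nat_lit 1846542351) (.two (nat_lit 2097152) (nat_lit 28790751346) (.one (nat_lit 10906240089) .nil)),
   .two (nat_lit 41943045) (nat_lit 19529728008) (.two (nat_lit 16777217) (nat_lit 41943055) (.two (nat_lit 16777216) (nat_lit 11006902390) (.one (nat_lit 1049736) .nil))),
   .two (nat_lit 285212677) (nat_lit 10504634392) (.two (nat_lit 2097152) (nat_lit 9806282866) (.one (nat_lit 1417675852) .nil)),
   .two (nat_lit 2954887173) (nat_lit 28757196815) (.two (nat_lit 2097152) (nat_lit 20704133230) (.one (nat_lit 159216829035) .nil)),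
   .two (nat_lit 721420293) (nat_lit 3525312520) (.two (nat_lit 2097153) (nat_lit 50331663) (.two (nat_lit 4194304) (nat_lit 46508540031) (.one (nat_lit 2098313) .nil))),
   .two (nat_lit 159217876997) (nat_lit 158176641037) (.two (nat_lit 606076929) (nat_lit 12147753027) (.one (nat_lit 1309671783) .nil)),
   .two (nat_lit 203423749) (nat_lit 822083599) (.two (nat_lit 16777216) (nat_lit 4028629057) (.one (nat_lit 2097869) .nil)),
   .two (nat_lit 169869316) (nat_lit 9866051610) (.two (nat_lit 2097152) (nat_lit 11006902804) (.one (nat_lit 166230753889) .nil)),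
   .two (nat_lit 159217876997) (nat_lit 9899606029) (.two (nat_lit 606076929) (nat_lit 336593016) (.one (nat_lit 2953839254) .nil)),
   .two (nat_lit 159217876997) (nat_lit 13224640558) (.two (nat_lit 2097152) (nat_lit 19029557366) (.one (nat_lit 9969861319) .nil)),
   .two (nat_lit 12117344261) (nat_lit 21811429400) (.two (nat_lit 1048576) (nat_lit 4634706030) (.one (nat_lit 339739735) .nil)),
   .two (nat_lit 16777220) (nat_lit 3524263950) (.two (nat_lit 4194305) (nat_lit 156465365124) (.one (nat_lit 19545457793) .nil)),
   .two (nat_lit 713031684) (nat_lit 28690087944) (.two (nat_lit 605028353) (nat_lit 21214789760) (.one (nat_lit 2424308333) .nil)),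
   .two (nat_lit 184549380) (nat_lit 18933088271) (.two (nat_lit 1048576) (nat_lit 2936013414) .nil),
   .two (nat_lit 639631365) (nat_lit 184986632200) (.two (nat_lit 9766436865) (nat_lit 11610882071) (.two (nat_lit 1048576) (nat_lit 2954887425) (.one (nat_lit 10369368742) .nil))),
   .two (nat_lit 13195280389) (nat_lit 166132187144) (.two (nat_lit 9768534017) (nat_lit 21818769457) (.two (nat_lit 4194304) (nat_lit 11618222145) (.one (nat_lit 10007610016) .nil))),
   .two (nat_lit 739246085) (nat_lit 159224168463) (.two (nat_lit 1048576) (nat_lit 47555018861) (.one (nat_lit 10007609970) .nil)),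
   .two (nat_lit 1913651205) (nat_lit 2988441667) (.one (nat_lit 37247517031) .nil),
   .two (nat_lit 8388612) (nat_lit 3460300808) (.two (nat_lit 41943041) (nat_lit 2316304508) (.one (nat_lit 157035791478) .nil)),
   .two (nat_lit 4194308) (nat_lit 35651598) (.two (nat_lit 4194305) (nat_lit 2418016508) (.one (nat_lit 10504635070) .nil)),
   .two (nat_lit 169869316) (nat_lit 156569174028) (.two (nat_lit 2097153) (nat_lit 183949590593) (.one (nat_lit 13222544042) .nil)),
   .two (nat_lit 272629765) (nat_lit 4034920472) (.two (nat_lit 4194304) (nat_lit 8389143) (.one (nat_lit 157038936673) .nil)),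
   .two (nat_lit 713031684) (nat_lit 20638072840) (.two (nat_lit 156365750273) (nat_lit 21818769432) (.two (nat_lit 2097152) (nat_lit 8389144) (.one (nat_lit 1310720687) .nil))),
   .two (nat_lit 8388612) (nat_lit 185020186647) (.two (nat_lit 8388608) (nat_lit 185020186731) (.one (nat_lit 806355601) .nil)),
   .two (nat_lit 1291845637) (nat_lit 184993972239) (.two (nat_lit 16777216) (nat_lit 11584667714) (.one (nat_lit 18933088859) .nil)),
   .two (nat_lit 16777221) (nat_lit 1749024782) (.two (nat_lit 41943041) (nat_lit 9768534294) (.one (nat_lit 184431936624) .nil)),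
   .two (nat_lit 705691652) (nat_lit 285212680) (.two (nat_lit 605028353) (nat_lit 352321562) (.two (nat_lit 8388608) (nat_lit 183946445414) .nil)),
   .two (nat_lit 4194308) (nat_lit 1175453704) (.two (nat_lit 8388609) (nat_lit 68157455) (.two (nat_lit 4194304) (nat_lit 13195280508) (.one (nat_lit 813696053) .nil))),
   .two (nat_lit 69206021) (nat_lit 1753219080) (.two (nat_lit 2097153) (nat_lit 166199296116) (.one (nat_lit 4195469) .nil)),
   .two (nat_lit 1795162117) (nat_lit 272629824) (.one (nat_lit 156569174207) .nil),
   .two (nat_lit 1916796933) (nat_lit 12054429719) (.two (nat_lit 4194304) (nat_lit 12054429803) (.one (nat_lit 10913579714) .nil)),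
   .two (nat_lit 47548727301) (nat_lit 13195280399) (.two (nat_lit 8388608) (nat_lit 46474985581) (.one (nat_lit 1344275090) .nil)),
   .two (nat_lit 203423749) (nat_lit 3464495119) (.two (nat_lit 2097152) (nat_lit 2357199207) .nil),
   .two (nat_lit 4194308) (nat_lit 184416206863) (.two (nat_lit 8388608) (nat_lit 2416968303) .nil),
   .two (nat_lit 1916796933) (nat_lit 158176641048) (.two (nat_lit 1048576) (nat_lit 46510637166) (.one (nat_lit 171967080) .nil)),
   .two (nat_lit 4194308) (nat_lit 1847590927) (.two (nat_lit 4194304) (nat_lit 47582281850) (.one (nat_lit 28791800434) .nil)),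
   .two (nat_lit 21777874949) (nat_lit 157036838927) (.two (nat_lit 1048576) (nat_lit 174686470259) (.one (nat_lit 2988442188) .nil)),
   .two (nat_lit 19530776581) (nat_lit 8388623) (.two (nat_lit 2097152) (nat_lit 28798091393) (.one (nat_lit 183920231497) .nil)),
   .two (nat_lit 47555018757) (nat_lit 174753579075) (.one (nat_lit 2098318) .nil),
   .two (nat_lit 12054429701) (nat_lit 11611930670) (.two (nat_lit 8388608) (nat_lit 158077026563) (.one (nat_lit 2098319) .nil)),
   .two (nat_lit 20637024260) (nat_lit 19042140208) (.two (nat_lit 8388608) (nat_lit 285212795) (.one (nat_lit 1426064420) .nil)),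
   .two (nat_lit 10370416645) (nat_lit 3036676163) (.one (nat_lit 16778385) .nil),
   .two (nat_lit 2902458372) (nat_lit 1779433487) (.two (nat_lit 16777216) (nat_lit 4631560322) (.one (nat_lit 19127075432) .nil)),
   .two (nat_lit 4194308) (nat_lit 202375182) (.two (nat_lit 16777217) (nat_lit 68157455) (.two (nat_lit 4194304) (nat_lit 654311545) (.one (nat_lit 28086109283) .nil))),
   .two (nat_lit 18933088261) (nat_lit 16777280) (.one (nat_lit 50331839) .nil),
   .two (nat_lit 169869316) (nat_lit 165525061640) (.two (nat_lit 2097153) (nat_lit 158646403095) (.two (nat_lit 16777216) (nat_lit 1310720670) .nil)),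
   .two (nat_lit 169869316) (nat_lit 9768534024) (.two (nat_lit 50331649) (nat_lit 69206128) (.one (nat_lit 4195022) .nil)),
   .two (nat_lit 34603013) (nat_lit 612368392) (.two (nat_lit 2097153) (nat_lit 20737687617) (.one (nat_lit 4195474) .nil)),
   .two (nat_lit 46422556677) (nat_lit 156971827215) (.two (nat_lit 1048576) (nat_lit 46523220670) .nil),
   .two (nat_lit 169869316) (nat_lit 11476664334) (.two (nat_lit 16777217) (nat_lit 705691663) (.two (nat_lit 16777216) (nat_lit 1410335016) (.one (nat_lit 2098323) .nil))),
   .two (nat_lit 8388612) (nat_lit 3527409679) (.two (nat_lit 4194304) (nat_lit 157043130638) (.one (nat_lit 156367848009) .nil)),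
   .two (nat_lit 176160773) (nat_lit 2902458376) (.two (nat_lit 41943041) (nat_lit 46489665559) (.two (nat_lit 16777216) (nat_lit 8389145) (.one (nat_lit 855638694) .nil))),
   .two (nat_lit 41943045) (nat_lit 4028629015) (.two (nat_lit 4194304) (nat_lit 174686470819) .nil),
   .two (nat_lit 21777874949) (nat_lit 41943055) (.two (nat_lit 1048576) (nat_lit 156472705155) (.one (nat_lit 10544480915) .nil)),
   .two (nat_lit 176160773) (nat_lit 4632608782) (.two (nat_lit 8388609) (nat_lit 9867100184) (.two (nat_lit 1048576) (nat_lit 102760563) (.one (nat_lit 8389780) .nil))),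
   .two (nat_lit 1344274437) (nat_lit 9781116936) (.two (nat_lit 16777217) (nat_lit 28691136536) (.two (nat_lit 4194304) (nat_lit 19597885555) (.one (nat_lit 10385097768) .nil))),
   .two (nat_lit 708837381) (nat_lit 1846542344) (.two (nat_lit 37748737) (nat_lit 166229704728) (.two (nat_lit 2097152) (nat_lit 166229704814) (.one (nat_lit 1049749) .nil))),
   .two (nat_lit 4599054341) (nat_lit 183848927240) (.two (nat_lit 2097153) (nat_lit 138412056) (.two (nat_lit 1048576) (nat_lit 157038936748) .nil)),
   .two (nat_lit 4194308) (nat_lit 19134414891) (.two (nat_lit 4194304) (nat_lit 4605345916) (.one (nat_lit 176161855) .nil)),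
   .two (nat_lit 203423749) (nat_lit 3024093198) (.two (nat_lit 2097153) (nat_lit 104857624) (.two (nat_lit 16777216) (nat_lit 706740862) .nil)),
   .two (nat_lit 16777220) (nat_lit 2954887176) (.two (nat_lit 606076929) (nat_lit 318767128) (.two (nat_lit 16777216) (nat_lit 46508540030) (.one (nat_lit 2969567916) .nil))),
   .two (nat_lit 272629765) (nat_lit 654311439) (.two (nat_lit 16777216) (nat_lit 205521564) .nil),
   .two (nat_lit 4194308) (nat_lit 16777224) (.two (nat_lit 37748737) (nat_lit 47563407384) (.two (nat_lit 8388608) (nat_lit 205521515) .nil)),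
   .two (nat_lit 176160773) (nat_lit 9934209032) (.two (nat_lit 2097153) (nat_lit 1350565912) (.two (nat_lit 16777216) (nat_lit 9967764143) .nil)),
   .two (nat_lit 169869316) (nat_lit 156968681487) (.two (nat_lit 8388608) (nat_lit 135266930) .nil),
   .two (nat_lit 102760453) (nat_lit 46409973775) (.two (nat_lit 8388608) (nat_lit 10540286573) .nil),
   .two (nat_lit 4194308) (nat_lit 2887778312) (.two (nat_lit 34603009) (nat_lit 69206057) (.two (nat_lit 4194304) (nat_lit 3524264190) (.one (nat_lit 1048934) .nil))),
   .two (nat_lit 721420293) (nat_lit 11479810063) (.two (nat_lit 8388608) (nat_lit 11580474016) .nil),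
   .two (nat_lit 184549381) (nat_lit 3525312520) (.two (nat_lit 9766436865) (nat_lit 4613734423) (.two (nat_lit 16777216) (nat_lit 2097692) (.one (nat_lit 28691137225) .nil))),
   .two (nat_lit 50331653) (nat_lit 156532473869) (.two (nat_lit 8388609) (nat_lit 285212697) (.two (nat_lit 1048576) (nat_lit 12054429820) (.one (nat_lit 8389784) .nil))),
   .two (nat_lit 16777220) (nat_lit 28093448207) (.two (nat_lit 4194304) (nat_lit 158150426742) (.one (nat_lit 3573548081) .nil)),
   .two (nat_lit 754974725) (nat_lit 135266316) (.two (nat_lit 9765388289) (nat_lit 50331757) (.one (nat_lit 16777936) .nil)),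
   .two (nat_lit 8388613) (nat_lit 157036838927) (.two (nat_lit 8388608) (nat_lit 46508540267) .nil),
   .two (nat_lit 654311429) (nat_lit 19604176938) (.two (nat_lit 16777216) (nat_lit 166136381560) (.one (nat_lit 8389785) .nil)),
   .two (nat_lit 2097157) (nat_lit 239075352) (.two (nat_lit 2097152) (nat_lit 1309671531) (.one (nat_lit 1049754) .nil)),
   .two (nat_lit 203423749) (nat_lit 20704133133) (.two (nat_lit 16777217) (nat_lit 235929906) (.one (nat_lit 839910045) .nil)),
   .two (nat_lit 4194308) (nat_lit 10504634383) (.two (nat_lit 4194304) (nat_lit 4028629664) .nil),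
   .two (nat_lit 10370416645) (nat_lit 158083317783) (.two (nat_lit 2097152) (nat_lit 158083317867) (.one (nat_lit 1753219747) .nil)),
   .two (nat_lit 2097157) (nat_lit 75497480) (.two (nat_lit 2097153) (nat_lit 21818769432) (.two (nat_lit 1048576) (nat_lit 158144135411) (.one (nat_lit 8389790) .nil))),
   .two (nat_lit 272629765) (nat_lit 28758245384) (.two (nat_lit 4194305) (nat_lit 9867100184) (.two (nat_lit 16777216) (nat_lit 9766437557) .nil)),
   .two (nat_lit 21785214981) (nat_lit 9967763468) (.two (nat_lit 612368385) (nat_lit 639631478) (.one (nat_lit 773850226) .nil)),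
   .two (nat_lit 4194308) (nat_lit 12129927176) (.two (nat_lit 4194305) (nat_lit 304087085) (.two (nat_lit 2097152) (nat_lit 2969567356) (.one (nat_lit 19128124495) .nil))),
   .two (nat_lit 169869316) (nat_lit 21207449608) (.two (nat_lit 156364701697) (nat_lit 606076952) (.two (nat_lit 2097152) (nat_lit 1049117) (.one (nat_lit 136315536) .nil))),
   .two (nat_lit 4194308) (nat_lit 1358954504) (.two (nat_lit 4194305) (nat_lit 1392508952) (.two (nat_lit 16777216) (nat_lit 184989778234) (.one (nat_lit 708838425) .nil))),
   .two (nat_lit 16777221) (nat_lit 158143086600) (.two (nat_lit 2097153) (nat_lit 158176641151) (.one (nat_lit 1049759) .nil)),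
   .two (nat_lit 8388612) (nat_lit 12050235400) (.two (nat_lit 8388609) (nat_lit 10907287676) (.one (nat_lit 2317354049) .nil)),
   .two (nat_lit 8388612) (nat_lit 705691656) (.two (nat_lit 2097153) (nat_lit 46507491371) (.two (nat_lit 8388608) (nat_lit 184987681022) (.one (nat_lit 9867100521) .nil))),
   .two (nat_lit 713031684) (nat_lit 9781116936) (.two (nat_lit 16777217) (nat_lit 11551113241) (.two (nat_lit 4194304) (nat_lit 13228835430) .nil)),
   .two (nat_lit 10504634373) (nat_lit 18928893960) (.two (nat_lit 9766436865) (nat_lit 1749024792) (.two (nat_lit 4194304) (nat_lit 2097694) (.one (nat_lit 4195488) .nil))),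
   .two (nat_lit 184986632197) (nat_lit 654311431) (.two (nat_lit 705691651) (nat_lit 654311432) (.two (nat_lit 34603009) (nat_lit 654311439) (.two (nat_lit 1048576) (nat_lit 166211878949) (.one (nat_lit 1049774) .nil)))),
   .two (nat_lit 47548727301) (nat_lit 612368391) (.two (nat_lit 612368387) (nat_lit 3458203656) (.two (nat_lit 612368385) (nat_lit 3458203663) (.two (nat_lit 8388608) (nat_lit 2988441667) (.one (nat_lit 169869518) .nil)))),
   .two (nat_lit 705691652) (nat_lit 9781116935) (.two (nat_lit 9781116931) (nat_lit 11543773192) (.two (nat_lit 9781116929) (nat_lit 11543773199) (.two (nat_lit 16777216) (nat_lit 739246115) (.one (nat_lit 28790751328) .nil)))),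
   .two (nat_lit 20644364293) (nat_lit 3527409671) (.two (nat_lit 46409973763) (nat_lit 159224168456) (.two (nat_lit 4194305) (nat_lit 47588573216) (.two (nat_lit 4194304) (nat_lit 8388764) (.one (nat_lit 2889876649) .nil)))),
   .two (nat_lit 809500677) (nat_lit 2902458376) (.two (nat_lit 37748737) (nat_lit 2902458383) (.two (nat_lit 4194304) (nat_lit 21818769430) (.one (nat_lit 10452206334) .nil))),
   .two (nat_lit 8388612) (nat_lit 174752530440) (.two (nat_lit 8388609) (nat_lit 158075977739) (.two (nat_lit 8388608) (nat_lit 9866051604) (.one (nat_lit 8389807) .nil))),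
   .two (nat_lit 156364701701) (nat_lit 12150898697) (.two (nat_lit 16777217) (nat_lit 1376780314) (.two (nat_lit 1048576) (nat_lit 174755676182) (.one (nat_lit 1049770) .nil))),
   .two (nat_lit 169869314) (nat_lit 117440520) (.two (nat_lit 2097153) (nat_lit 117440527) (.two (nat_lit 2097152) (nat_lit 11492392979) (.one (nat_lit 16777994) .nil))),
   .two (nat_lit 156971827205) (nat_lit 3458203656) (.two (nat_lit 37748737) (nat_lit 4028629016) (.two (nat_lit 4194304) (nat_lit 2097309) (.one (nat_lit 183848928427) .nil))),
   .two (nat_lit 11543773189) (nat_lit 13188988942) (.two (nat_lit 8388609) (nat_lit 47582281754) (.two (nat_lit 8388608) (nat_lit 9934209165) (.one (nat_lit 1049357) .nil))),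
   .two (nat_lit 4194306) (nat_lit 4034920457) (.two (nat_lit 4194305) (nat_lit 11618222099) (.two (nat_lit 4194304) (nat_lit 11618222099) (.one (nat_lit 1853883099) .nil))),
   .two (nat_lit 9948889093) (nat_lit 184993972231) (.two (nat_lit 620756995) (nat_lit 12054429704) (.two (nat_lit 620756993) (nat_lit 18933088271) (.two (nat_lit 8388608) (nat_lit 11593056514) (.one (nat_lit 310378870) .nil)))),
   .two (nat_lit 9768534021) (nat_lit 156365750279) (.two (nat_lit 50331651) (nat_lit 742391816) (.two (nat_lit 50331649) (nat_lit 1178599439) (.two (nat_lit 16777216) (nat_lit 840958085) (.one (nat_lit 2098352) .nil)))),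
   .two (nat_lit 2969567237) (nat_lit 13195280392) (.two (nat_lit 16777217) (nat_lit 813695002) (.two (nat_lit 16777216) (nat_lit 8388768) (.one (nat_lit 16778406) .nil))),
   .two (nat_lit 806354949) (nat_lit 117440520) (.two (nat_lit 2097153) (nat_lit 117440527) (.two (nat_lit 1048576) (nat_lit 166245433381) (.one (nat_lit 2098338) .nil))),
   .two (nat_lit 654311429) (nat_lit 272629768) (.two (nat_lit 620756993) (nat_lit 272629775) (.two (nat_lit 16777216) (nat_lit 4634705985) (.one (nat_lit 3560964302) .nil))),
   .two (nat_lit 708837381) (nat_lit 157043130377) (.two (nat_lit 4194305) (nat_lit 11618222099) (.two (nat_lit 2097152) (nat_lit 46510637075) (.one (nat_lit 171967194) .nil))),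
   .two (nat_lit 75497477) (nat_lit 47563407368) (.two (nat_lit 8388609) (nat_lit 620757007) (.two (nat_lit 1048576) (nat_lit 1392508965) (.one (nat_lit 1049777) .nil))),
   .two (nat_lit 20644364290) (nat_lit 4601151496) (.two (nat_lit 612368385) (nat_lit 4601151503) (.two (nat_lit 8388608) (nat_lit 13224640531) (.one (nat_lit 185023332552) .nil))),
   .two (nat_lit 1343225861) (nat_lit 3024093194) (.two (nat_lit 9765388289) (nat_lit 272629771) (.two (nat_lit 1048576) (nat_lit 272629778) (.one (nat_lit 4195506) .nil))),
   .two (nat_lit 174753579013) (nat_lit 21207449608) (.two (nat_lit 9766436865) (nat_lit 20637024282) (.two (nat_lit 1048576) (nat_lit 156567076886) (.one (nat_lit 605028735) .nil))),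
   .two (nat_lit 705691652) (nat_lit 9781116935) (.two (nat_lit 9781116931) (nat_lit 11543773192) (.two (nat_lit 9781116929) (nat_lit 11543773199) (.two (nat_lit 16777216) (nat_lit 806355466) (.one (nat_lit 1049367) .nil)))),
   .two (nat_lit 1343225861) (nat_lit 19599982600) (.two (nat_lit 605028353) (nat_lit 19599982607) (.two (nat_lit 1048576) (nat_lit 158179786824) (.one (nat_lit 1049368) .nil))),
   .two (nat_lit 708837381) (nat_lit 1753219080) (.two (nat_lit 4194305) (nat_lit 1753219087) (.two (nat_lit 2097152) (nat_lit 10913579045) (.one (nat_lit 2098355) .nil))),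
   .two (nat_lit 4601151493) (nat_lit 41943047) (.two (nat_lit 41943043) (nat_lit 46409973768) (.two (nat_lit 41943041) (nat_lit 46409973775) (.two (nat_lit 8388608) (nat_lit 4194832) (.one (nat_lit 4195098) .nil)))),
   .two (nat_lit 166129041410) (nat_lit 50331655) (.two (nat_lit 721420291) (nat_lit 705691657) (.two (nat_lit 9765388289) (nat_lit 50331663) (.two (nat_lit 1048576) (nat_lit 185035915301) (.one (nat_lit 11593057050) .nil)))),
   .two (nat_lit 50331653) (nat_lit 102760460) (.two (nat_lit 612368385) (nat_lit 285212721) (.two (nat_lit 16777216) (nat_lit 847249496) (.one (nat_lit 8389812) .nil))),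
   .two (nat_lit 4194308) (nat_lit 156372041735) (.two (nat_lit 156372041731) (nat_lit 4601151496) (.two (nat_lit 156372041729) (nat_lit 4601151503) (.two (nat_lit 2097152) (nat_lit 46409973795) (.one (nat_lit 18928894048) .nil)))),
   .two (nat_lit 46409973765) (nat_lit 639631367) (.two (nat_lit 46409973763) (nat_lit 10370416648) (.two (nat_lit 4194305) (nat_lit 28758245400) (.two (nat_lit 4194304) (nat_lit 11511267402) (.one (nat_lit 4195509) .nil)))),
   .two (nat_lit 8388613) (nat_lit 1746927623) (.two (nat_lit 721420291) (nat_lit 176160776) (.two (nat_lit 50331649) (nat_lit 176160783) (.two (nat_lit 2097152) (nat_lit 1417674819) (.one (nat_lit 21818769614) .nil)))),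
   .two (nat_lit 4601151493) (nat_lit 1753219079) (.two (nat_lit 18933088259) (nat_lit 46409973768) (.two (nat_lit 156372041729) (nat_lit 46980399121) (.two (nat_lit 8388608) (nat_lit 138412120) (.one (nat_lit 4195510) .nil)))),
   .two (nat_lit 11479810050) (nat_lit 28758245383) (.two (nat_lit 1178599427) (nat_lit 156365750281) (.two (nat_lit 9768534017) (nat_lit 166230753304) (.two (nat_lit 4194304) (nat_lit 840958026) (.one (nat_lit 159217877728) .nil)))),
   .two (nat_lit 28086108165) (nat_lit 639631367) (.two (nat_lit 165525061635) (nat_lit 639631368) (.two (nat_lit 156364701697) (nat_lit 639631375) (.two (nat_lit 1048576) (nat_lit 166197198885) (.one (nat_lit 1049783) .nil)))),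
   .two (nat_lit 9934209029) (nat_lit 47555018760) (.two (nat_lit 606076929) (nat_lit 176160794) (.two (nat_lit 2097152) (nat_lit 8388773) (.one (nat_lit 2098360) .nil))),
   .two (nat_lit 272629765) (nat_lit 19596836872) (.two (nat_lit 4194305) (nat_lit 2920284206) (.two (nat_lit 4194304) (nat_lit 672137304) (.one (nat_lit 4195109) .nil))),
   .two (nat_lit 10385096709) (nat_lit 9934209032) (.two (nat_lit 16777217) (nat_lit 9934209039) (.two (nat_lit 2097152) (nat_lit 2902458387) (.one (nat_lit 10370417019) .nil))),
   .two (nat_lit 183848927236) (nat_lit 1343225863) (.two (nat_lit 68157443) (nat_lit 19599982600) (.two (nat_lit 605028353) (nat_lit 19599982607) (.two (nat_lit 1048576) (nat_lit 9869197431) (.one (nat_lit 46409974346) .nil)))),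
   .two (nat_lit 620756997) (nat_lit 9768534023) (.two (nat_lit 721420291) (nat_lit 156569174028) (.two (nat_lit 9768534017) (nat_lit 83886095) (.two (nat_lit 16777216) (nat_lit 12150898946) (.one (nat_lit 4195112) .nil)))),
   .two (nat_lit 9781116933) (nat_lit 272629768) (.two (nat_lit 50331649) (nat_lit 272629775) (.two (nat_lit 16777216) (nat_lit 46510637123) (.one (nat_lit 3560964302) .nil))),
   .two (nat_lit 183848927234) (nat_lit 1913651208) (.two (nat_lit 37748737) (nat_lit 1913651215) (.two (nat_lit 4194304) (nat_lit 12147752979) (.one (nat_lit 873464008) .nil))),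
   .two (nat_lit 1343225861) (nat_lit 19599982600) (.two (nat_lit 605028353) (nat_lit 19599982607) (.two (nat_lit 1048576) (nat_lit 10942939173) (.one (nat_lit 1049386) .nil))),
   .two (nat_lit 28757196805) (nat_lit 620756999) (.two (nat_lit 10369368067) (nat_lit 620757000) (.two (nat_lit 606076929) (nat_lit 10000269356) (.two (nat_lit 2097152) (nat_lit 10000269448) (.one (nat_lit 1049785) .nil)))),
   .two (nat_lit 9768534021) (nat_lit 13195280391) (.two (nat_lit 41943043) (nat_lit 3460300809) (.two (nat_lit 37748737) (nat_lit 183853121577) (.two (nat_lit 4194304) (nat_lit 183853121652) (.one (nat_lit 8389059) .nil)))),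
   .two (nat_lit 4605345797) (nat_lit 1358954504) (.two (nat_lit 8388609) (nat_lit 21793603610) (.two (nat_lit 8388608) (nat_lit 9915334808) (.one (nat_lit 612369573) .nil))),
   .two (nat_lit 4601151493) (nat_lit 1753219079) (.two (nat_lit 18933088259) (nat_lit 46409973768) (.two (nat_lit 156372041729) (nat_lit 46409973775) (.two (nat_lit 1048576) (nat_lit 183848927307) (.one (nat_lit 2319450533) .nil)))),
   .two (nat_lit 1291845636) (nat_lit 174752530440) (.two (nat_lit 605028353) (nat_lit 2902458391) (.two (nat_lit 1048576) (nat_lit 3036676116) (.one (nat_lit 16778028) .nil))),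
   .two (nat_lit 171966469) (nat_lit 19604176905) (.two (nat_lit 4194305) (nat_lit 3028287507) (.two (nat_lit 1048576) (nat_lit 46510637075) (.one (nat_lit 11484005082) .nil))),
   .two (nat_lit 822083589) (nat_lit 272629767) (.two (nat_lit 4194307) (nat_lit 11492392968) (.two (nat_lit 4194305) (nat_lit 11492392975) (.two (nat_lit 4194304) (nat_lit 47563407620) (.one (nat_lit 28806480607) .nil)))),
   .two (nat_lit 10385096709) (nat_lit 184986632199) (.two (nat_lit 10385096707) (nat_lit 12047089672) (.two (nat_lit 9781116929) (nat_lit 12047089679) (.two (nat_lit 16777216) (nat_lit 11543773221) (.one (nat_lit 37329306787) .nil)))),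
   .two (nat_lit 9934209029) (nat_lit 10335813641) (.two (nat_lit 34603009) (nat_lit 158177689619) (.two (nat_lit 1048576) (nat_lit 2954887186) (.one (nat_lit 1049786) .nil))),
   .two (nat_lit 713031684) (nat_lit 156367847431) (.two (nat_lit 156367847427) (nat_lit 184993972232) (.two (nat_lit 156367847425) (nat_lit 11618222104) (.two (nat_lit 4194304) (nat_lit 10510925898) (.one (nat_lit 4195515) .nil)))),
   .two (nat_lit 2956984325) (nat_lit 10504634376) (.two (nat_lit 4194305) (nat_lit 10504634383) (.two (nat_lit 4194304) (nat_lit 20638072951) (.one (nat_lit 10437525903) .nil))),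
   .two (nat_lit 12047089669) (nat_lit 10506731527) (.two (nat_lit 50331651) (nat_lit 9933160460) (.two (nat_lit 34603009) (nat_lit 10506731535) (.two (nat_lit 16777216) (nat_lit 2920284293) (.one (nat_lit 638583576) .nil)))),
   .two (nat_lit 285212677) (nat_lit 705691656) (.two (nat_lit 2097153) (nat_lit 2902458420) (.two (nat_lit 2097152) (nat_lit 9781117049) (.one (nat_lit 16777985) .nil))),
   .two (nat_lit 156364701701) (nat_lit 165532401672) (.two (nat_lit 16777217) (nat_lit 28093448207) (.two (nat_lit 8388608) (nat_lit 16777517) (.one (nat_lit 16778029) .nil))),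
   .two (nat_lit 721420293) (nat_lit 4605345800) (.two (nat_lit 16777217) (nat_lit 41943055) (.two (nat_lit 16777216) (nat_lit 4605345811) (.one (nat_lit 713032460) .nil))),
   .two (nat_lit 4194306) (nat_lit 654311432) (.two (nat_lit 4194305) (nat_lit 654311439) (.two (nat_lit 4194304) (nat_lit 2902458387) (.one (nat_lit 47596961986) .nil))),
   .two (nat_lit 46409973764) (nat_lit 1753219084) (.two (nat_lit 8388609) (nat_lit 11513364526) (.two (nat_lit 4194304) (nat_lit 3464495123) (.one (nat_lit 183949590925) .nil))),
   .two (nat_lit 8388612) (nat_lit 165525061640) (.two (nat_lit 8388609) (nat_lit 37313576986) (.two (nat_lit 16777216) (nat_lit 2994733144) (.one (nat_lit 8389820) .nil))),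
   .two (nat_lit 1916796933) (nat_lit 50331655) (.two (nat_lit 1178599427) (nat_lit 721420296) (.two (nat_lit 9768534017) (nat_lit 721420303) (.two (nat_lit 4194304) (nat_lit 855638053) (.one (nat_lit 4195495) .nil)))),
   .two (nat_lit 159217876997) (nat_lit 9781116935) (.two (nat_lit 606076931) (nat_lit 1191182344) (.two (nat_lit 606076929) (nat_lit 117440536) (.two (nat_lit 2097152) (nat_lit 10921967690) (.one (nat_lit 2098365) .nil)))),
   .two (nat_lit 8388613) (nat_lit 156367847431) (.two (nat_lit 8388608) (nat_lit 2956984393) (.one (nat_lit 46409974163) .nil)),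
   .two (nat_lit 708837381) (nat_lit 1191182344) (.two (nat_lit 4194305) (nat_lit 1191182351) (.two (nat_lit 2097152) (nat_lit 10552868901) (.one (nat_lit 2098366) .nil))),
   .two (nat_lit 1178599427) (nat_lit 3525312520) (.two (nat_lit 4194304) (nat_lit 174686470282) (.one (nat_lit 2097575) .nil)),
   .two (nat_lit 158144135173) (nat_lit 1846542344) (.two (nat_lit 606076929) (nat_lit 1846542351) (.two (nat_lit 2097152) (nat_lit 37246468115) (.one (nat_lit 1049393) .nil))),
   .two (nat_lit 739246085) (nat_lit 166132187144) (.two (nat_lit 34603009) (nat_lit 1849688087) (.two (nat_lit 1048576) (nat_lit 104857687) (.one (nat_lit 1049395) .nil))),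
   .two (nat_lit 639631365) (nat_lit 672137228) (.two (nat_lit 606076929) (nat_lit 20637024299) (.two (nat_lit 2097152) (nat_lit 269484165) (.one (nat_lit 1049791) .nil))),
   .two (nat_lit 183848927237) (nat_lit 156968681480) (.two (nat_lit 4194305) (nat_lit 156968681487) (.two (nat_lit 4194304) (nat_lit 1745879077) (.one (nat_lit 1049396) .nil))),
   .two (nat_lit 4194306) (nat_lit 1753219080) (.two (nat_lit 4194305) (nat_lit 1753219087) (.two (nat_lit 4194304) (nat_lit 11517558805) (.one (nat_lit 47555018956) .nil))),
   .two (nat_lit 10385096709) (nat_lit 740294666) (.two (nat_lit 606076929) (nat_lit 16777227) (.two (nat_lit 2097152) (nat_lit 3573547028) (.one (nat_lit 16778432) .nil))),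
   .two (nat_lit 11559501829) (nat_lit 272629768) (.two (nat_lit 50331649) (nat_lit 272629775) (.two (nat_lit 16777216) (nat_lit 37748755) (.one (nat_lit 775947006) .nil))),
   .two (nat_lit 1913651205) (nat_lit 21785214984) (.two (nat_lit 9765388289) (nat_lit 21785214991) (.two (nat_lit 1048576) (nat_lit 156472705096) (.one (nat_lit 1049398) .nil))),
   .two (nat_lit 16777221) (nat_lit 10537140237) (.two (nat_lit 605028353) (nat_lit 13203669041) (.two (nat_lit 16777216) (nat_lit 183912890443) (.one (nat_lit 1049793) .nil))),
   .two (nat_lit 11543773189) (nat_lit 174753579016) (.two (nat_lit 34603009) (nat_lit 174753579023) (.two (nat_lit 1048576) (nat_lit 12148801608) (.one (nat_lit 1049399) .nil))),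
   .two (nat_lit 4601151493) (nat_lit 1753219079) (.two (nat_lit 18933088259) (nat_lit 46409973768) (.two (nat_lit 156372041729) (nat_lit 46409973775) (.two (nat_lit 8388608) (nat_lit 183848927307) (.one (nat_lit 184989778296) .nil)))),
   .two (nat_lit 159217876997) (nat_lit 1276117000) (.two (nat_lit 37748737) (nat_lit 28757196815) (.two (nat_lit 2097152) (nat_lit 183845781798) (.one (nat_lit 4195522) .nil))),
   .two (nat_lit 9866051589) (nat_lit 13191086087) (.two (nat_lit 183848927235) (nat_lit 1343225864) (.two (nat_lit 34603009) (nat_lit 306184209) (.two (nat_lit 4194304) (nat_lit 10906239122) (.one (nat_lit 4195523) .nil)))),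
   .two (nat_lit 47548727301) (nat_lit 1175453705) (.two (nat_lit 2097153) (nat_lit 9899606035) (.two (nat_lit 1048576) (nat_lit 19597885462) (.one (nat_lit 2098372) .nil))),
   .two (nat_lit 9934209029) (nat_lit 174752530439) (.two (nat_lit 165525061635) (nat_lit 1277165576) (.two (nat_lit 156364701697) (nat_lit 1277165583) (.two (nat_lit 1048576) (nat_lit 9934209059) (.one (nat_lit 203423840) .nil)))),
   .two (nat_lit 12114198533) (nat_lit 21785214984) (.two (nat_lit 34603009) (nat_lit 21785214991) (.two (nat_lit 1048576) (nat_lit 158083317875) (.one (nat_lit 11517559168) .nil))),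
   .two (nat_lit 9948889093) (nat_lit 739246088) (.two (nat_lit 620756993) (nat_lit 739246095) (.two (nat_lit 1048576) (nat_lit 174759870486) (.one (nat_lit 605029111) .nil))),
   .two (nat_lit 4605345797) (nat_lit 157038936072) (.two (nat_lit 4194305) (nat_lit 18933088296) (.two (nat_lit 4194304) (nat_lit 12054429765) (.one (nat_lit 8389829) .nil))),
   .two (nat_lit 1343225861) (nat_lit 1746927623) (.two (nat_lit 721420291) (nat_lit 9866051592) (.two (nat_lit 50331649) (nat_lit 9866051599) (.two (nat_lit 2097152) (nat_lit 1343225891) (.one (nat_lit 739246176) .nil)))),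
   .two (nat_lit 21785214981) (nat_lit 156968681485) (.two (nat_lit 16777217) (nat_lit 158083317775) (.two (nat_lit 1048576) (nat_lit 2969567350) (.one (nat_lit 16778043) .nil))),
   .two (nat_lit 9948889093) (nat_lit 184993972231) (.two (nat_lit 620756995) (nat_lit 12054429704) (.two (nat_lit 620756993) (nat_lit 183853121560) (.two (nat_lit 16777216) (nat_lit 645922890) (.one (nat_lit 16778438) .nil)))),
   .two (nat_lit 10506731525) (nat_lit 639631367) (.two (nat_lit 2097152) (nat_lit 272629842) (.one (nat_lit 11580473788) .nil)),
   .two (nat_lit 12054429701) (nat_lit 272629768) (.two (nat_lit 41943041) (nat_lit 3527409688) (.two (nat_lit 8388608) (nat_lit 3024093341) (.one (nat_lit 8389833) .nil))),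
   .two (nat_lit 2969567237) (nat_lit 13195280392) (.two (nat_lit 16777217) (nat_lit 813695002) (.two (nat_lit 16777216) (nat_lit 183953784984) (.one (nat_lit 16778442) .nil))),
   .two (nat_lit 620756997) (nat_lit 9768534024) (.two (nat_lit 50331649) (nat_lit 2889875481) (.two (nat_lit 16777216) (nat_lit 306184340) (.one (nat_lit 10351543082) .nil))),
   .two (nat_lit 46407876612) (nat_lit 272629767) (.two (nat_lit 4194307) (nat_lit 157036838920) (.two (nat_lit 4194305) (nat_lit 157036838927) (.two (nat_lit 4194304) (nat_lit 10504634443) (.one (nat_lit 47582282114) .nil)))),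
   .two (nat_lit 2887778308) (nat_lit 20637024264) (.two (nat_lit 2097153) (nat_lit 21207449615) (.two (nat_lit 4194304) (nat_lit 136315141) (.one (nat_lit 174753579735) .nil))),
   .two (nat_lit 1916796933) (nat_lit 50331655) (.two (nat_lit 1178599427) (nat_lit 721420296) (.two (nat_lit 9768534017) (nat_lit 721420303) (.two (nat_lit 4194304) (nat_lit 855638053) (.one (nat_lit 4195496) .nil)))),
   .two (nat_lit 809500677) (nat_lit 157036838920) (.two (nat_lit 37748737) (nat_lit 46978301977) (.two (nat_lit 4194304) (nat_lit 270532762) (.one (nat_lit 37749541) .nil))),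
   .two (nat_lit 28093448197) (nat_lit 1745879048) (.two (nat_lit 41943041) (nat_lit 1745879055) (.two (nat_lit 1048576) (nat_lit 183853121555) (.one (nat_lit 135266716) .nil))),
   .two (nat_lit 156968681477) (nat_lit 159217876999) (.two (nat_lit 19529728003) (nat_lit 159217877000) (.two (nat_lit 156364701697) (nat_lit 159217877007) (.two (nat_lit 1048576) (nat_lit 158647451685) (.one (nat_lit 183845782699) .nil)))),
   .two (nat_lit 102760453) (nat_lit 18925748233) (.two (nat_lit 606076929) (nat_lit 19127074866) (.two (nat_lit 1048576) (nat_lit 880803859) (.one (nat_lit 1376780742) .nil))),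
   .two (nat_lit 176160770) (nat_lit 157038936071) (.two (nat_lit 156367847427) (nat_lit 19604176905) (.two (nat_lit 8388609) (nat_lit 156971827224) (.two (nat_lit 8388608) (nat_lit 1413480522) (.one (nat_lit 1178600160) .nil)))),
   .two (nat_lit 69206021) (nat_lit 28093448200) (.two (nat_lit 2097153) (nat_lit 28093448207) (.two (nat_lit 2097152) (nat_lit 12150898707) (.one (nat_lit 20644365035) .nil))),
   .two (nat_lit 165532401669) (nat_lit 11543773192) (.two (nat_lit 156372041729) (nat_lit 183912890392) (.two (nat_lit 8388608) (nat_lit 873463965) (.one (nat_lit 8389804) .nil))),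
   .two (nat_lit 159224168453) (nat_lit 16777224) (.two (nat_lit 612368385) (nat_lit 16777231) (.two (nat_lit 8388608) (nat_lit 822083603) (.one (nat_lit 10015998331) .nil))),
   .two (nat_lit 3472883717) (nat_lit 8388614) (.two (nat_lit 16777217) (nat_lit 343932954) (.two (nat_lit 1048576) (nat_lit 8388629) (.one (nat_lit 2994733439) .nil))),
   .two (nat_lit 83886085) (nat_lit 1913651207) (.two (nat_lit 83886083) (nat_lit 28690087944) (.two (nat_lit 620756993) (nat_lit 28690087951) (.two (nat_lit 16777216) (nat_lit 1175453733) (.one (nat_lit 16778444) .nil)))),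
   .two (nat_lit 19599982597) (nat_lit 8388615) (.two (nat_lit 18928893955) (nat_lit 176160776) (.two (nat_lit 156367847425) (nat_lit 47555018776) (.two (nat_lit 4194304) (nat_lit 28697428042) (.one (nat_lit 4195533) .nil)))),
   .two (nat_lit 1277165572) (nat_lit 16777224) (.two (nat_lit 606076929) (nat_lit 2969567243) (.two (nat_lit 2097152) (nat_lit 2969567250) (.one (nat_lit 2098382) .nil))),
   .two (nat_lit 20637024260) (nat_lit 47548727303) (.two (nat_lit 169869315) (nat_lit 28086108168) (.two (nat_lit 2097153) (nat_lit 158646403095) (.two (nat_lit 2097152) (nat_lit 1049105) (.one (nat_lit 336593625) .nil)))),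
   .two (nat_lit 46409973765) (nat_lit 18933088264) (.two (nat_lit 4194305) (nat_lit 1753219087) (.two (nat_lit 4194304) (nat_lit 159257723140) (.one (nat_lit 8389436) .nil))),
   .two (nat_lit 2097157) (nat_lit 156372041736) (.two (nat_lit 2097153) (nat_lit 156372041743) (.two (nat_lit 1048576) (nat_lit 3464495123) (.one (nat_lit 8389447) .nil))),
   .two (nat_lit 37748744) (nat_lit 101711880) (.two (nat_lit 4194308) (nat_lit 11476664335) (.two (nat_lit 2097153) (nat_lit 2953838830) (.two (nat_lit 2097152) (nat_lit 168821306) (.one (nat_lit 1049811) .nil)))),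
   .two (nat_lit 37748744) (nat_lit 1175453704) (.two (nat_lit 4194308) (nat_lit 739246103) (.two (nat_lit 4194305) (nat_lit 1343226094) (.two (nat_lit 4194304) (nat_lit 1343226424) (.one (nat_lit 68158674) .nil)))),
   .two (nat_lit 4194312) (nat_lit 8388623) (.two (nat_lit 4194305) (nat_lit 739246146) (.two (nat_lit 4194304) (nat_lit 101712063) (.one (nat_lit 11543774417) .nil))),
   .two (nat_lit 1343225864) (nat_lit 639631373) (.two (nat_lit 41943045) (nat_lit 705691663) (.two (nat_lit 41943041) (nat_lit 11543773250) (.two (nat_lit 8388608) (nat_lit 11543773541) (.one (nat_lit 9934210267) .nil)))),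
   .two (nat_lit 2954887176) (nat_lit 1779433496) (.two (nat_lit 2097153) (nat_lit 1343225923) (.two (nat_lit 8388608) (nat_lit 2954888008) .nil)),
   .two (nat_lit 184993972232) (nat_lit 10336862216) (.two (nat_lit 713031684) (nat_lit 174753579023) (.two (nat_lit 41943041) (nat_lit 21208498241) (.two (nat_lit 8388608) (nat_lit 174753579199) (.one (nat_lit 35652859) .nil)))),
   .two (nat_lit 8388616) (nat_lit 28693233679) (.two (nat_lit 8388609) (nat_lit 2420113526) (.two (nat_lit 4194304) (nat_lit 10007609535) (.one (nat_lit 10947134688) .nil))),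
   .two (nat_lit 9934209032) (nat_lit 156367847439) (.two (nat_lit 2097153) (nat_lit 843055295) (.one (nat_lit 158179788000) .nil)),
   .two (nat_lit 11479810056) (nat_lit 9881780239) (.two (nat_lit 620756993) (nat_lit 12117344322) (.two (nat_lit 16777216) (nat_lit 12117344447) (.one (nat_lit 156569175302) .nil))),
   .two (nat_lit 1350565896) (nat_lit 1947205644) (.two (nat_lit 1913651205) (nat_lit 75497487) (.two (nat_lit 9765388289) (nat_lit 11618222146) (.two (nat_lit 1048576) (nat_lit 612368575) (.one (nat_lit 8389903) .nil)))),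
   .two (nat_lit 9940500488) (nat_lit 654311439) (.two (nat_lit 16777217) (nat_lit 9974055103) (.one (nat_lit 8389904) .nil)),
   .two (nat_lit 721420296) (nat_lit 10001317914) (.two (nat_lit 2097153) (nat_lit 11626610754) (.two (nat_lit 16777216) (nat_lit 9967763647) (.one (nat_lit 11626611528) .nil))),
   .two (nat_lit 9940500488) (nat_lit 174752530440) (.two (nat_lit 605028357) (nat_lit 4034920472) (.two (nat_lit 4194305) (nat_lit 11517558904) (.two (nat_lit 4194304) (nat_lit 1049187) (.one (nat_lit 4195601) .nil)))),
   .two (nat_lit 3539992584) (nat_lit 166130089999) (.two (nat_lit 16777217) (nat_lit 11544821877) (.two (nat_lit 1048576) (nat_lit 184417256019) (.one (nat_lit 2098450) .nil))),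
   .two (nat_lit 101711880) (nat_lit 21785214984) (.two (nat_lit 713031684) (nat_lit 101711887) (.two (nat_lit 34603009) (nat_lit 10007609535) (.one (nat_lit 8389908) .nil))),
   .two (nat_lit 10370416648) (nat_lit 159224168463) (.two (nat_lit 606076929) (nat_lit 10007609535) (.one (nat_lit 10007610644) .nil)),
   .two (nat_lit 203423752) (nat_lit 1916796936) (.two (nat_lit 809500677) (nat_lit 639631375) (.two (nat_lit 2097153) (nat_lit 158079123573) (.two (nat_lit 4194304) (nat_lit 10538188991) (.one (nat_lit 156535620426) .nil)))),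
   .two (nat_lit 12117344264) (nat_lit 21811429388) (.two (nat_lit 21777874949) (nat_lit 12117344271) (.two (nat_lit 605028353) (nat_lit 183949590594) (.two (nat_lit 1048576) (nat_lit 13224640703) (.one (nat_lit 742393077) .nil)))),
   .two (nat_lit 41943048) (nat_lit 183845781519) (.two (nat_lit 8388609) (nat_lit 37246468214) (.two (nat_lit 8388608) (nat_lit 2097768) (.one (nat_lit 4605347048) .nil))),
   .two (nat_lit 8388616) (nat_lit 742391816) (.two (nat_lit 708837381) (nat_lit 4605345815) (.two (nat_lit 4194305) (nat_lit 102760560) (.two (nat_lit 4194304) (nat_lit 10510926439) (.one (nat_lit 13222544627) .nil)))),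
   .two (nat_lit 272629768) (nat_lit 1417674765) (.two (nat_lit 4194308) (nat_lit 612368399) (.two (nat_lit 8388609) (nat_lit 156569174207) (.one (nat_lit 159253529860) .nil))),
   .two (nat_lit 8388616) (nat_lit 705691656) (.two (nat_lit 2887778308) (nat_lit 20737687577) (.two (nat_lit 2097153) (nat_lit 8388855) (.two (nat_lit 2097152) (nat_lit 1049193) (.one (nat_lit 183846831348) .nil)))),
   .two (nat_lit 1913651208) (nat_lit 10437525517) (.two (nat_lit 2097157) (nat_lit 183853121603) (.two (nat_lit 1048576) (nat_lit 47588573543) (.one (nat_lit 183845782763) .nil))),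
   .two (nat_lit 2887778312) (nat_lit 822083592) (.two (nat_lit 16777220) (nat_lit 46474985497) (.two (nat_lit 16777217) (nat_lit 2097278) (.two (nat_lit 1048576) (nat_lit 2097772) (.one (nat_lit 1049878) .nil)))),
   .two (nat_lit 16777224) (nat_lit 1913651215) (.two (nat_lit 16777217) (nat_lit 184416206915) (.two (nat_lit 16777216) (nat_lit 2416967871) (.one (nat_lit 4647289672) .nil))),
   .two (nat_lit 276824072) (nat_lit 19530776589) (.two (nat_lit 2097157) (nat_lit 13195280399) (.two (nat_lit 50331649) (nat_lit 2994733415) (.one (nat_lit 8389911) .nil))),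
   .two (nat_lit 4194312) (nat_lit 721420303) (.two (nat_lit 50331649) (nat_lit 4601151597) (.two (nat_lit 1048576) (nat_lit 20652753494) (.one (nat_lit 16778520) .nil))),
   .two (nat_lit 721420296) (nat_lit 3021996058) (.two (nat_lit 2097153) (nat_lit 11626610754) (.two (nat_lit 16777216) (nat_lit 2988441791) (.one (nat_lit 11626611528) .nil))),
   .two (nat_lit 8388616) (nat_lit 183845781519) (.two (nat_lit 34603009) (nat_lit 174686470265) (.two (nat_lit 8388608) (nat_lit 1846542928) (.one (nat_lit 37246469351) .nil))),
   .two (nat_lit 9866051592) (nat_lit 1916796936) (.two (nat_lit 1343225861) (nat_lit 1178599439) (.two (nat_lit 605028353) (nat_lit 13224640579) (.two (nat_lit 1048576) (nat_lit 156569174207) (.one (nat_lit 4195609) .nil)))),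
   .two (nat_lit 285212680) (nat_lit 1175453704) (.two (nat_lit 16777220) (nat_lit 1913651215) (.two (nat_lit 8388609) (nat_lit 184416206914) (.two (nat_lit 8388608) (nat_lit 19596837055) (.one (nat_lit 1049882) .nil)))),
   .two (nat_lit 50331656) (nat_lit 46980399112) (.two (nat_lit 16777220) (nat_lit 156367847439) (.two (nat_lit 4194305) (nat_lit 16777280) (.two (nat_lit 8388608) (nat_lit 272630602) .nil))),
   .two (nat_lit 218103816) (nat_lit 12114198543) (.two (nat_lit 16777217) (nat_lit 12617515075) (.two (nat_lit 16777216) (nat_lit 2416967871) (.one (nat_lit 1049883) .nil))),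
   .two (nat_lit 620757000) (nat_lit 46978301960) (.two (nat_lit 184549380) (nat_lit 10336862223) (.two (nat_lit 2097153) (nat_lit 620757183) (.one (nat_lit 270533450) .nil))),
   .two (nat_lit 205520904) (nat_lit 156372041736) (.two (nat_lit 2956984325) (nat_lit 3464495119) (.two (nat_lit 9768534017) (nat_lit 9933160566) (.two (nat_lit 4194304) (nat_lit 8389233) (.one (nat_lit 9765389550) .nil)))),
   .two (nat_lit 9948889096) (nat_lit 10940841999) (.two (nat_lit 9766436865) (nat_lit 11559501889) (.two (nat_lit 2097152) (nat_lit 285213033) (.one (nat_lit 352322791) .nil))),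
   .two (nat_lit 809500680) (nat_lit 3525312520) (.two (nat_lit 4194308) (nat_lit 639631375) (.two (nat_lit 4194305) (nat_lit 47582281919) (.one (nat_lit 4632610022) .nil))),
   .two (nat_lit 184986632200) (nat_lit 28087156744) (.two (nat_lit 705691652) (nat_lit 165526110223) (.two (nat_lit 50331649) (nat_lit 158177689959) (.one (nat_lit 236979467) .nil))),
   .two (nat_lit 4601151496) (nat_lit 19596836872) (.two (nat_lit 4194308) (nat_lit 1745879055) (.two (nat_lit 4194305) (nat_lit 184986632259) (.two (nat_lit 4194304) (nat_lit 135266495) (.one (nat_lit 705692931) .nil)))),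
   .two (nat_lit 46978301960) (nat_lit 843055116) (.two (nat_lit 809500677) (nat_lit 10336862223) (.two (nat_lit 37748737) (nat_lit 3458203714) (.two (nat_lit 4194304) (nat_lit 2988441791) (.one (nat_lit 2098461) .nil)))),
   .two (nat_lit 4605345800) (nat_lit 1745879048) (.two (nat_lit 8388612) (nat_lit 19596836879) (.two (nat_lit 8388609) (nat_lit 12114198595) (.two (nat_lit 8388608) (nat_lit 2416967871) (.one (nat_lit 1947206901) .nil)))),
   .two (nat_lit 13191086088) (nat_lit 3036676109) (.two (nat_lit 184549381) (nat_lit 13191086095) (.two (nat_lit 16777217) (nat_lit 306184257) (.two (nat_lit 16777216) (nat_lit 156367847782) (.one (nat_lit 1049890) .nil)))),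
   .two (nat_lit 3525312520) (nat_lit 1216348173) (.two (nat_lit 18933088261) (nat_lit 3525312527) (.two (nat_lit 2097153) (nat_lit 1216348269) (.two (nat_lit 16777216) (nat_lit 10504634725) (.one (nat_lit 8389923) .nil)))),
   .two (nat_lit 612368392) (nat_lit 11543773199) (.two (nat_lit 8388609) (nat_lit 9866051651) (.two (nat_lit 16777216) (nat_lit 176161608) .nil)),
   .two (nat_lit 159217877000) (nat_lit 352321549) (.two (nat_lit 16777221) (nat_lit 159217877007) (.two (nat_lit 16777217) (nat_lit 2988441666) (.two (nat_lit 16777216) (nat_lit 10336862566) (.one (nat_lit 158646404385) .nil)))),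
   .two (nat_lit 28087156744) (nat_lit 1916796940) (.two (nat_lit 1178599429) (nat_lit 37314625560) (.two (nat_lit 4194305) (nat_lit 20705181811) (.two (nat_lit 16777216) (nat_lit 20707279209) (.one (nat_lit 2098494) .nil)))),
   .two (nat_lit 47563407368) (nat_lit 673185804) (.two (nat_lit 721420292) (nat_lit 28086108175) (.two (nat_lit 605028353) (nat_lit 889192639) (.one (nat_lit 16778559) .nil))),
   .two (nat_lit 184549384) (nat_lit 2988441613) (.two (nat_lit 184549380) (nat_lit 3458203663) (.two (nat_lit 2097153) (nat_lit 16777280) (.two (nat_lit 16777216) (nat_lit 2097762) (.one (nat_lit 10336863048) .nil)))),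
   .two (nat_lit 272629768) (nat_lit 1175453704) (.two (nat_lit 4194308) (nat_lit 101711887) (.two (nat_lit 4194305) (nat_lit 11543773251) (.two (nat_lit 8388608) (nat_lit 11580474186) .nil))),
   .two (nat_lit 2902458376) (nat_lit 174686470157) (.two (nat_lit 2902458372) (nat_lit 157036838927) (.two (nat_lit 2097153) (nat_lit 822083775) (.one (nat_lit 2097994) .nil))),
   .two (nat_lit 12117344264) (nat_lit 19530776584) (.two (nat_lit 11479810052) (nat_lit 10940841999) (.two (nat_lit 37748737) (nat_lit 10437525570) (.two (nat_lit 4194304) (nat_lit 174753579199) (.one (nat_lit 19027461356) .nil)))),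
   .two (nat_lit 169869320) (nat_lit 2902458376) (.two (nat_lit 2097157) (nat_lit 2902458383) (.two (nat_lit 606076929) (nat_lit 156968681584) (.two (nat_lit 2097152) (nat_lit 269484714) (.one (nat_lit 1049986) .nil)))),
   .two (nat_lit 176160776) (nat_lit 1847590920) (.two (nat_lit 8388613) (nat_lit 19530776591) (.two (nat_lit 612368385) (nat_lit 10504634435) (.two (nat_lit 2097152) (nat_lit 8389297) (.one (nat_lit 612369228) .nil)))),
   .two (nat_lit 721420296) (nat_lit 303038478) (.two (nat_lit 9933160453) (nat_lit 721420303) (.two (nat_lit 50331649) (nat_lit 4631560325) (.two (nat_lit 16777216) (nat_lit 4194688) (.one (nat_lit 20640171357) .nil)))),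
   .two (nat_lit 83886088) (nat_lit 10506731528) (.two (nat_lit 2889875460) (nat_lit 28087156751) (.two (nat_lit 606076929) (nat_lit 12062818422) (.two (nat_lit 16777216) (nat_lit 304087242) (.one (nat_lit 16778627) .nil)))),
   .two (nat_lit 75497480) (nat_lit 10939793416) (.two (nat_lit 612368389) (nat_lit 10939793423) (.two (nat_lit 41943041) (nat_lit 28757196867) (.two (nat_lit 1048576) (nat_lit 158150427252) (.one (nat_lit 8390020) .nil)))),
   .two (nat_lit 1350565896) (nat_lit 12114198536) (.two (nat_lit 713031684) (nat_lit 12114198543) (.two (nat_lit 612368385) (nat_lit 12114198594) (.two (nat_lit 4194304) (nat_lit 1049182) (.one (nat_lit 11577328465) .nil)))),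
   .two (nat_lit 721420296) (nat_lit 9766436872) (.two (nat_lit 2887778308) (nat_lit 721420303) (.two (nat_lit 41943041) (nat_lit 165526110320) (.two (nat_lit 8388608) (nat_lit 2921333381) (.one (nat_lit 2098565) .nil)))),
   .two (nat_lit 3020947466) (nat_lit 28093448200) (.two (nat_lit 28690087941) (nat_lit 28093448207) (.two (nat_lit 34603009) (nat_lit 18933088368) (.two (nat_lit 1048576) (nat_lit 8388804) (.one (nat_lit 13195280862) .nil)))),
   .two (nat_lit 654311432) (nat_lit 184986632199) (.two (nat_lit 705691651) (nat_lit 654311439) (.two (nat_lit 34603009) (nat_lit 10452205636) (.two (nat_lit 1048576) (nat_lit 16777602) (.one (nat_lit 18941477729) .nil)))),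
   .two (nat_lit 184986632200) (nat_lit 20638072838) (.two (nat_lit 20638072836) (nat_lit 185020186648) (.two (nat_lit 605028353) (nat_lit 740294730) (.two (nat_lit 1048576) (nat_lit 2097539) (.one (nat_lit 1049991) .nil)))),
   .two (nat_lit 1745879048) (nat_lit 10506731528) (.two (nat_lit 1779433477) (nat_lit 156367847450) (.two (nat_lit 34603009) (nat_lit 4194391) (.two (nat_lit 1048576) (nat_lit 4195043) (.one (nat_lit 166132187980) .nil)))),
   .two (nat_lit 46414168070) (nat_lit 156365750281) (.two (nat_lit 1277165570) (nat_lit 156372041743) (.two (nat_lit 1847590917) (nat_lit 46414168075) (.two (nat_lit 606076929) (nat_lit 156372041764) (.two (nat_lit 2097152) (nat_lit 20644364383) (.one (nat_lit 8389527) .nil))))),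
   .two (nat_lit 9982443529) (nat_lit 1277165576) (.two (nat_lit 11559501829) (nat_lit 1277165583) (.two (nat_lit 50331649) (nat_lit 159251431536) (.two (nat_lit 16777216) (nat_lit 10504634564) (.one (nat_lit 236978654) .nil)))),
   .two (nat_lit 46414168072) (nat_lit 166129041417) (.two (nat_lit 739246085) (nat_lit 3464495119) (.two (nat_lit 34603009) (nat_lit 46414168175) (.two (nat_lit 1048576) (nat_lit 310378594) (.one (nat_lit 8390024) .nil)))),
   .two (nat_lit 11551113224) (nat_lit 156367847431) (.two (nat_lit 1914699781) (nat_lit 11614027805) (.two (nat_lit 41943041) (nat_lit 876609672) (.two (nat_lit 8388608) (nat_lit 2097893) (.one (nat_lit 2098569) .nil)))),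
   .two (nat_lit 4194312) (nat_lit 158077026313) (.two (nat_lit 605028357) (nat_lit 158144135192) (.two (nat_lit 34603009) (nat_lit 47548727442) (.two (nat_lit 4194304) (nat_lit 21207449800) (.one (nat_lit 1049995) .nil)))),
   .two (nat_lit 612368392) (nat_lit 3525312519) (.two (nat_lit 2887778307) (nat_lit 612368399) (.two (nat_lit 2097153) (nat_lit 41943074) (.two (nat_lit 2097152) (nat_lit 713031776) (.one (nat_lit 713031902) .nil)))),
   .two (nat_lit 9768534024) (nat_lit 185020186636) (.two (nat_lit 184986632197) (nat_lit 9768534031) (.two (nat_lit 34603009) (nat_lit 4634705987) (.two (nat_lit 1048576) (nat_lit 2420113610) (.one (nat_lit 1049458) .nil)))),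
   .two (nat_lit 157038936072) (nat_lit 21208498189) (.two (nat_lit 9934209029) (nat_lit 157038936079) (.two (nat_lit 9766436865) (nat_lit 157038936171) (.two (nat_lit 2097152) (nat_lit 2923430096) (.one (nat_lit 4195724) .nil)))),
   .two (nat_lit 4605345800) (nat_lit 28691136521) (.two (nat_lit 203423749) (nat_lit 183853121576) (.two (nat_lit 2097153) (nat_lit 183853121603) (.two (nat_lit 2097152) (nat_lit 47588573544) (.one (nat_lit 8390029) .nil)))),
   .two (nat_lit 166132187144) (nat_lit 174753579016) (.two (nat_lit 9768534021) (nat_lit 10940841999) (.two (nat_lit 606076929) (nat_lit 1346371703) (.two (nat_lit 2097152) (nat_lit 205521097) (.one (nat_lit 158146233605) .nil)))),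
   .two (nat_lit 12129927176) (nat_lit 174752530439) (.two (nat_lit 165525061635) (nat_lit 1191182351) (.two (nat_lit 156364701697) (nat_lit 10015998071) (.two (nat_lit 1048576) (nat_lit 1962934916) (.one (nat_lit 16778638) .nil)))),
   .two (nat_lit 2954887176) (nat_lit 16777222) (.two (nat_lit 16777220) (nat_lit 2954887183) (.two (nat_lit 16777217) (nat_lit 203423781) (.two (nat_lit 16777216) (nat_lit 4599054434) (.one (nat_lit 2098575) .nil)))),
   .two (nat_lit 11611930634) (nat_lit 13187940366) (.two (nat_lit 1343225861) (nat_lit 10504634383) (.two (nat_lit 2097153) (nat_lit 9866051705) (.two (nat_lit 1048576) (nat_lit 10001318089) (.one (nat_lit 11477714166) .nil)))),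
   .two (nat_lit 16777220) (nat_lit 165532401683) (.two (nat_lit 16777217) (nat_lit 158653743123) (.one (nat_lit 1191183212) .nil)),
   .two (nat_lit 156372041736) (nat_lit 21777874951) (.two (nat_lit 68157443) (nat_lit 10343153688) (.two (nat_lit 9781116929) (nat_lit 11543773261) (.two (nat_lit 16777216) (nat_lit 1048967) (.one (nat_lit 8389989) .nil)))),
   .two (nat_lit 1753219080) (nat_lit 184416206861) (.two (nat_lit 806354949) (nat_lit 18933088280) (.two (nat_lit 9765388289) (nat_lit 37314625670) (.two (nat_lit 1048576) (nat_lit 8389000) (.one (nat_lit 2098576) .nil)))),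
   .two (nat_lit 8388616) (nat_lit 28693233672) (.two (nat_lit 8388612) (nat_lit 10506731536) (.two (nat_lit 8388609) (nat_lit 46477082764) (.two (nat_lit 2097152) (nat_lit 4195047) (.one (nat_lit 4195729) .nil)))),
   .two (nat_lit 620757000) (nat_lit 739246088) (.two (nat_lit 184549380) (nat_lit 739246095) (.two (nat_lit 620756993) (nat_lit 605028486) (.two (nat_lit 16777216) (nat_lit 1048969) (.one (nat_lit 2332034387) .nil)))),
   .two (nat_lit 272629768) (nat_lit 10504634375) (.two (nat_lit 2889875459) (nat_lit 10538188840) (.two (nat_lit 4194305) (nat_lit 4632608902) (.two (nat_lit 4194304) (nat_lit 2097546) (.one (nat_lit 9867101547) .nil)))),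
   .two (nat_lit 9866051592) (nat_lit 12050235400) (.two (nat_lit 1343225861) (nat_lit 12620660753) (.two (nat_lit 605028353) (nat_lit 4194343) (.two (nat_lit 2097152) (nat_lit 10369368798) (.one (nat_lit 1343227440) .nil)))),
   .two (nat_lit 18933088264) (nat_lit 1849688073) (.two (nat_lit 11479810053) (nat_lit 1753219087) (.two (nat_lit 4194305) (nat_lit 11584667715) (.two (nat_lit 4194304) (nat_lit 343933289) (.one (nat_lit 8389530) .nil)))),
   .two (nat_lit 41943048) (nat_lit 10335813639) (.two (nat_lit 184549379) (nat_lit 41943055) (.two (nat_lit 16777217) (nat_lit 780140612) (.two (nat_lit 2097152) (nat_lit 1049320) (.one (nat_lit 1050003) .nil)))),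
   .two (nat_lit 169869318) (nat_lit 713031686) (.two (nat_lit 713031682) (nat_lit 9934209039) (.two (nat_lit 169869316) (nat_lit 713031691) (.two (nat_lit 41943041) (nat_lit 158177689637) (.two (nat_lit 8388608) (nat_lit 11544821855) (.one (nat_lit 10370417526) .nil))))),
   .two (nat_lit 21214789641) (nat_lit 20638072840) (.two (nat_lit 713031685) (nat_lit 20638072847) (.two (nat_lit 8388609) (nat_lit 158144135276) (.two (nat_lit 8388608) (nat_lit 46978302148) (.one (nat_lit 10940842462) .nil)))),
   .two (nat_lit 46984593416) (nat_lit 1749024777) (.two (nat_lit 2956984325) (nat_lit 156372041743) (.two (nat_lit 9765388289) (nat_lit 21818769664) (.two (nat_lit 1048576) (nat_lit 11517559416) (.one (nat_lit 8390036) .nil)))),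
   .two (nat_lit 28086108168) (nat_lit 12117344263) (.two (nat_lit 11479810051) (nat_lit 28086108175) (.two (nat_lit 37748737) (nat_lit 303038594) (.two (nat_lit 4194304) (nat_lit 1049321) (.one (nat_lit 672138126) .nil)))),
   .two (nat_lit 20740833290) (nat_lit 2954887175) (.two (nat_lit 2887778307) (nat_lit 13191086095) (.two (nat_lit 4194305) (nat_lit 1377828932) (.two (nat_lit 4194304) (nat_lit 3021996235) (.one (nat_lit 1277166478) .nil)))),
   .two (nat_lit 2961178632) (nat_lit 158077026313) (.two (nat_lit 270532613) (nat_lit 612368399) (.two (nat_lit 2097153) (nat_lit 1216348279) (.two (nat_lit 1048576) (nat_lit 28093448287) (.one (nat_lit 8390037) .nil)))),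
   .two (nat_lit 156372041736) (nat_lit 2886729742) (.two (nat_lit 9933160453) (nat_lit 2902458383) (.two (nat_lit 4194305) (nat_lit 166129041474) (.two (nat_lit 4194304) (nat_lit 28806480231) (.one (nat_lit 16778646) .nil)))),
   .two (nat_lit 1048586) (nat_lit 117440519) (.two (nat_lit 171966467) (nat_lit 654311439) (.two (nat_lit 4194305) (nat_lit 10385096816) (.two (nat_lit 4194304) (nat_lit 16777909) (.one (nat_lit 9948889566) .nil)))),
   .two (nat_lit 47563407368) (nat_lit 183949590541) (.two (nat_lit 184549380) (nat_lit 28693233715) (.two (nat_lit 605028353) (nat_lit 239075367) (.two (nat_lit 1048576) (nat_lit 16777962) (.one (nat_lit 10921968096) .nil)))),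
   .two (nat_lit 83886088) (nat_lit 10370416648) (.two (nat_lit 620756997) (nat_lit 10370416655) (.two (nat_lit 50331649) (nat_lit 2954887243) (.two (nat_lit 16777216) (nat_lit 2097548) (.one (nat_lit 47596962639) .nil)))),
   .two (nat_lit 184416206856) (nat_lit 10003415049) (.two (nat_lit 1283457029) (nat_lit 184416206863) (.two (nat_lit 4194305) (nat_lit 12114198564) (.two (nat_lit 4194304) (nat_lit 2987393234) (.one (nat_lit 20711474668) .nil)))),
   .two (nat_lit 742391816) (nat_lit 46414168072) (.two (nat_lit 11546918917) (nat_lit 46414168079) (.two (nat_lit 37748737) (nat_lit 8388645) (.two (nat_lit 2097152) (nat_lit 171966861) (.one (nat_lit 4195735) .nil)))),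
   .two (nat_lit 46978301960) (nat_lit 156971827208) (.two (nat_lit 3525312517) (nat_lit 156971827215) (.two (nat_lit 9768534017) (nat_lit 2988441718) (.two (nat_lit 2097152) (nat_lit 28760343263) (.one (nat_lit 19612566868) .nil)))),
   .two (nat_lit 809500677) (nat_lit 184416206863) (.two (nat_lit 37748737) (nat_lit 10369368324) (.one (nat_lit 21207450475) .nil)),
   .two (nat_lit 10504634376) (nat_lit 28757196807) (.two (nat_lit 10369368067) (nat_lit 10504634383) (.two (nat_lit 9766436865) (nat_lit 47581233283) (.two (nat_lit 2097152) (nat_lit 11610882415) (.one (nat_lit 839910688) .nil)))),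
   .two (nat_lit 183845781510) (nat_lit 19597885447) (.two (nat_lit 2097155) (nat_lit 822083599) (.two (nat_lit 2097153) (nat_lit 20753416311) (.two (nat_lit 1048576) (nat_lit 2954887533) (.one (nat_lit 4599055221) .nil)))),
   .two (nat_lit 20638072838) (nat_lit 1309671433) (.two (nat_lit 11476664322) (nat_lit 20638072847) (.two (nat_lit 11543773189) (nat_lit 20638072843) (.two (nat_lit 34603009) (nat_lit 28791799878) (.two (nat_lit 1048576) (nat_lit 28758245471) (.one (nat_lit 11511268224) .nil))))),
   .two (nat_lit 9933160457) (nat_lit 10336862215) (.two (nat_lit 165525061635) (nat_lit 183846830126) (.two (nat_lit 156364701697) (nat_lit 1780482309) (.two (nat_lit 1048576) (nat_lit 2097888) (.one (nat_lit 11577328526) .nil)))),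
   .two (nat_lit 11479810056) (nat_lit 185002360840) (.two (nat_lit 721420292) (nat_lit 11479810063) (.two (nat_lit 50331649) (nat_lit 183949590635) (.two (nat_lit 2097152) (nat_lit 11513365098) (.one (nat_lit 809501546) .nil)))),
   .two (nat_lit 16777224) (nat_lit 639631367) (.two (nat_lit 9766436867) (nat_lit 16777231) (.two (nat_lit 9766436865) (nat_lit 3036676175) (.two (nat_lit 1048576) (nat_lit 2097902) (.one (nat_lit 2098587) .nil)))),
   .two (nat_lit 2954887176) (nat_lit 158143086600) (.two (nat_lit 169869316) (nat_lit 158143086607) (.two (nat_lit 606076929) (nat_lit 20704133227) (.two (nat_lit 8388608) (nat_lit 1376780906) (.one (nat_lit 21207450474) .nil)))),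
   .two (nat_lit 2889875464) (nat_lit 159232557065) (.two (nat_lit 1795162117) (nat_lit 2889875471) (.two (nat_lit 50331649) (nat_lit 3527409777) (.two (nat_lit 16777216) (nat_lit 1178599522) (.one (nat_lit 4195688) .nil)))),
   .two (nat_lit 46977253386) (nat_lit 10343153671) (.two (nat_lit 68157443) (nat_lit 10343153679) (.two (nat_lit 605028353) (nat_lit 2357198916) (.two (nat_lit 1048576) (nat_lit 4034920651) (.one (nat_lit 28764537816) .nil)))),
   .two (nat_lit 620757000) (nat_lit 183853121544) (.two (nat_lit 184549380) (nat_lit 12624855066) (.two (nat_lit 41943041) (nat_lit 21827158053) (.two (nat_lit 8388608) (nat_lit 28101837193) (.one (nat_lit 11618223429) .nil)))),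
   .two (nat_lit 3525312520) (nat_lit 159224168455) (.two (nat_lit 612368387) (nat_lit 3558866968) (.two (nat_lit 2097153) (nat_lit 10007609458) (.two (nat_lit 2097152) (nat_lit 47588573381) (.one (nat_lit 21785216363) .nil)))),
   .two (nat_lit 176160770) (nat_lit 1847590923) (.two (nat_lit 8388609) (nat_lit 1847590930) (.one (nat_lit 2098588) .nil)),
   .two (nat_lit 809500680) (nat_lit 47581233166) (.two (nat_lit 13187940357) (nat_lit 809500687) (.two (nat_lit 2097153) (nat_lit 3524264069) (.two (nat_lit 2097152) (nat_lit 46510637154) (.one (nat_lit 2098590) .nil)))),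
   .two (nat_lit 184549384) (nat_lit 775946249) (.two (nat_lit 272629765) (nat_lit 184549391) (.two (nat_lit 16777217) (nat_lit 2923429953) (.two (nat_lit 8388608) (nat_lit 83886728) (.one (nat_lit 1392509843) .nil)))),
   .two (nat_lit 612368392) (nat_lit 183946444809) (.two (nat_lit 21777874949) (nat_lit 612368399) (.two (nat_lit 8388609) (nat_lit 839909509) (.two (nat_lit 16777216) (nat_lit 156573368961) (.one (nat_lit 8389540) .nil)))),
   .two (nat_lit 159257722889) (nat_lit 2954887175) (.two (nat_lit 169869315) (nat_lit 184993972264) (.two (nat_lit 2097153) (nat_lit 184993972338) (.two (nat_lit 2097152) (nat_lit 1350566085) (.one (nat_lit 1277165790) .nil)))),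
   .two (nat_lit 1277165576) (nat_lit 157038936071) (.two (nat_lit 156367847427) (nat_lit 1277165583) (.two (nat_lit 41943041) (nat_lit 46477082706) (.two (nat_lit 4194304) (nat_lit 203423840) (.one (nat_lit 2098085) .nil)))),
   .two (nat_lit 156567076873) (nat_lit 272629767) (.two (nat_lit 183861510147) (nat_lit 272629775) (.two (nat_lit 50331649) (nat_lit 46510637123) (.two (nat_lit 2097152) (nat_lit 3560964302) (.one (nat_lit 4195745) .nil)))),
   .two (nat_lit 11543773192) (nat_lit 606076937) (.two (nat_lit 10504634373) (nat_lit 21777874959) (.two (nat_lit 605028353) (nat_lit 69206150) (.two (nat_lit 1048576) (nat_lit 37247516896) (.one (nat_lit 1050018) .nil)))),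
   .two (nat_lit 2889875460) (nat_lit 1847590923) (.two (nat_lit 4194305) (nat_lit 136314902) (.one (nat_lit 2098086) .nil)),
   .two (nat_lit 4613734408) (nat_lit 46409973766) (.two (nat_lit 47550824453) (nat_lit 318767130) (.two (nat_lit 50331649) (nat_lit 235929675) (.two (nat_lit 1048576) (nat_lit 2889875656) (.one (nat_lit 4195747) .nil)))),
   .two (nat_lit 708837386) (nat_lit 46414168072) (.two (nat_lit 47550824453) (nat_lit 10343153679) (.two (nat_lit 4194305) (nat_lit 156573368445) (.two (nat_lit 1048576) (nat_lit 8389363) (.one (nat_lit 8390052) .nil)))),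
   .two (nat_lit 620757000) (nat_lit 2887778312) (.two (nat_lit 721420292) (nat_lit 1175453739) (.two (nat_lit 34603009) (nat_lit 9934209157) (.two (nat_lit 1048576) (nat_lit 16777972) (.one (nat_lit 20637025670) .nil)))),
   .two (nat_lit 8388616) (nat_lit 156365750280) (.two (nat_lit 50331653) (nat_lit 9766436879) (.two (nat_lit 620756993) (nat_lit 174692761719) (.two (nat_lit 16777216) (nat_lit 2994733256) (.one (nat_lit 9906947428) .nil)))),
   .two (nat_lit 68157449) (nat_lit 9781116935) (.two (nat_lit 1191182339) (nat_lit 37246468120) (.two (nat_lit 9765388289) (nat_lit 156481093700) (.two (nat_lit 1048576) (nat_lit 3539992779) (.one (nat_lit 19612566488) .nil)))),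
   .two (nat_lit 4605345805) (nat_lit 10338959369) (.two (nat_lit 11479810050) (nat_lit 1786773531) (.two (nat_lit 8388611) (nat_lit 37748758) (.two (nat_lit 37748737) (nat_lit 47555018861) (.two (nat_lit 4194304) (nat_lit 174692761812) (.one (nat_lit 8390053) .nil))))),
   .two (nat_lit 1277165576) (nat_lit 156364701709) (.two (nat_lit 184549381) (nat_lit 9934209039) (.two (nat_lit 50331649) (nat_lit 135266425) (.two (nat_lit 16777216) (nat_lit 184417255634) (.one (nat_lit 1049931) .nil)))),
   .two (nat_lit 47588573193) (nat_lit 9934209031) (.two (nat_lit 165532401667) (nat_lit 1277165583) (.two (nat_lit 156372041729) (nat_lit 159251431491) (.two (nat_lit 8388608) (nat_lit 10001318094) (.one (nat_lit 2098598) .nil)))),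
   .two (nat_lit 50331656) (nat_lit 9768534023) (.two (nat_lit 10506731525) (nat_lit 46422556688) (.two (nat_lit 9768534017) (nat_lit 13203669030) (.two (nat_lit 2097152) (nat_lit 11614028520) (.one (nat_lit 11614029203) .nil)))),
   .two (nat_lit 4194312) (nat_lit 28087156745) (.two (nat_lit 605028357) (nat_lit 21208498216) (.two (nat_lit 2097153) (nat_lit 12620660773) (.two (nat_lit 1048576) (nat_lit 69206114) (.one (nat_lit 272631156) .nil)))),
   .two (nat_lit 705691657) (nat_lit 620756999) (.two (nat_lit 10369368067) (nat_lit 184549391) (.two (nat_lit 606076929) (nat_lit 10000269448) (.two (nat_lit 2097152) (nat_lit 889192544) (.one (nat_lit 16778664) .nil)))),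
   .two (nat_lit 876609545) (nat_lit 8388615) (.two (nat_lit 18928893955) (nat_lit 176160783) (.two (nat_lit 8388609) (nat_lit 47550824521) (.two (nat_lit 8388608) (nat_lit 4195062) (.one (nat_lit 713031902) .nil)))),
   .two (nat_lit 3464495109) (nat_lit 620757007) (.two (nat_lit 8388609) (nat_lit 184549394) (.one (nat_lit 37329306100) .nil)),
   .two (nat_lit 83886088) (nat_lit 742391816) (.two (nat_lit 2889875460) (nat_lit 28087156751) (.two (nat_lit 606076929) (nat_lit 788529270) (.two (nat_lit 2097152) (nat_lit 2936013002) (.one (nat_lit 2098601) .nil)))),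
   .two (nat_lit 21793603592) (nat_lit 2887778310) (.two (nat_lit 2887778308) (nat_lit 1749024783) (.two (nat_lit 2097153) (nat_lit 10909384741) (.two (nat_lit 4194304) (nat_lit 47596962016) (.one (nat_lit 4195754) .nil)))),
   .two (nat_lit 11559501832) (nat_lit 1277165576) (.two (nat_lit 721420292) (nat_lit 1277165583) (.two (nat_lit 620756993) (nat_lit 20738736193) (.two (nat_lit 16777216) (nat_lit 2097847) (.one (nat_lit 9934209898) .nil)))),
   .two (nat_lit 8388616) (nat_lit 19596836872) (.two (nat_lit 176160773) (nat_lit 11510218775) (.two (nat_lit 41943041) (nat_lit 10436477035) (.two (nat_lit 8388608) (nat_lit 165525062252) (.one (nat_lit 1050027) .nil)))),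
   .two (nat_lit 50331656) (nat_lit 21207449610) (.two (nat_lit 270532613) (nat_lit 50331663) (.two (nat_lit 2097153) (nat_lit 2953838725) (.two (nat_lit 1048576) (nat_lit 721420386) (.one (nat_lit 16778668) .nil)))),
   .two (nat_lit 9781116936) (nat_lit 184986632200) (.two (nat_lit 705691652) (nat_lit 2902458383) (.two (nat_lit 605028353) (nat_lit 4647288899) (.two (nat_lit 16777216) (nat_lit 269484243) (.one (nat_lit 1050029) .nil)))),
   .two (nat_lit 639631368) (nat_lit 156367847432) (.two (nat_lit 203423749) (nat_lit 156367847439) (.two (nat_lit 2097153) (nat_lit 156367847460) (.two (nat_lit 2097152) (nat_lit 10372514002) (.one (nat_lit 4195758) .nil)))),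
   .two (nat_lit 4194312) (nat_lit 2902458374) (.two (nat_lit 218103813) (nat_lit 68157455) (.two (nat_lit 16777217) (nat_lit 9966714917) (.two (nat_lit 4194304) (nat_lit 16777624) (.one (nat_lit 4195759) .nil)))),
   .two (nat_lit 218103816) (nat_lit 13187940361) (.two (nat_lit 21207449605) (nat_lit 1929379864) (.two (nat_lit 50331649) (nat_lit 605028426) (.two (nat_lit 1048576) (nat_lit 1795162494) (.one (nat_lit 3524264427) .nil)))),
   .two (nat_lit 9866051592) (nat_lit 12050235400) (.two (nat_lit 1343225861) (nat_lit 12620660753) (.two (nat_lit 605028353) (nat_lit 4194343) (.two (nat_lit 2097152) (nat_lit 1049336) (.one (nat_lit 1343227402) .nil)))),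
   .two (nat_lit 251658250) (nat_lit 639631367) (.two (nat_lit 1291845635) (nat_lit 1847590927) (.two (nat_lit 620756993) (nat_lit 28758245488) (.two (nat_lit 16777216) (nat_lit 47548727492) (.one (nat_lit 21208498654) .nil)))),
   .two (nat_lit 75497480) (nat_lit 46978301960) (.two (nat_lit 3525312517) (nat_lit 75497487) (.two (nat_lit 156365750273) (nat_lit 41943107) (.two (nat_lit 8388608) (nat_lit 874512595) (.one (nat_lit 2098609) .nil)))),
   .two (nat_lit 4194308) (nat_lit 3525312523) (.two (nat_lit 4194305) (nat_lit 47548727316) (.one (nat_lit 2098098) .nil)),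
   .two (nat_lit 11559501832) (nat_lit 9768534023) (.two (nat_lit 11492392963) (nat_lit 37748780) (.two (nat_lit 50331649) (nat_lit 37748872) (.two (nat_lit 16777216) (nat_lit 4195056) (.one (nat_lit 4195762) .nil)))),
   .two (nat_lit 8388614) (nat_lit 47548727304) (.two (nat_lit 8388612) (nat_lit 47548727311) (.two (nat_lit 8388609) (nat_lit 236978288) (.two (nat_lit 8388608) (nat_lit 158647451844) (.one (nat_lit 174686470622) .nil)))),
   .two (nat_lit 37748744) (nat_lit 166129041414) (.two (nat_lit 166129041412) (nat_lit 606076943) (.two (nat_lit 2097153) (nat_lit 46477082712) (.two (nat_lit 2097152) (nat_lit 10372514294) (.one (nat_lit 2098611) .nil)))),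
   .two (nat_lit 19529728009) (nat_lit 9881780232) (.two (nat_lit 158075977733) (nat_lit 10385096719) (.two (nat_lit 34603009) (nat_lit 159266111555) (.two (nat_lit 1048576) (nat_lit 2969567328) (.one (nat_lit 16778167) .nil)))),
   .two (nat_lit 9781116936) (nat_lit 4601151496) (.two (nat_lit 4194308) (nat_lit 218103823) (.two (nat_lit 37748737) (nat_lit 47596961859) (.two (nat_lit 4194304) (nat_lit 1291845728) (.one (nat_lit 50333074) .nil)))),
   .two (nat_lit 176160772) (nat_lit 620757007) (.two (nat_lit 8388609) (nat_lit 184549394) (.one (nat_lit 822084472) .nil)),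
   .two (nat_lit 9781116936) (nat_lit 184986632200) (.two (nat_lit 705691652) (nat_lit 2902458383) (.two (nat_lit 34603009) (nat_lit 1191182403) (.two (nat_lit 16777216) (nat_lit 705691848) (.one (nat_lit 13237224799) .nil)))),
   .two (nat_lit 183853121544) (nat_lit 10939793416) (.two (nat_lit 1913651205) (nat_lit 12054429711) (.two (nat_lit 156364701697) (nat_lit 12054429803) (.two (nat_lit 1048576) (nat_lit 20644364697) (.one (nat_lit 158075978575) .nil)))),
   .two (nat_lit 654311432) (nat_lit 184986632199) (.two (nat_lit 705691651) (nat_lit 654311439) (.two (nat_lit 34603009) (nat_lit 10452205636) (.two (nat_lit 4194304) (nat_lit 10503586552) (.one (nat_lit 18941477729) .nil)))),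
   .two (nat_lit 166129041414) (nat_lit 612368391) (.two (nat_lit 75497475) (nat_lit 1846542351) (.two (nat_lit 156364701697) (nat_lit 3531604036) (.two (nat_lit 1048576) (nat_lit 159257723083) (.one (nat_lit 8389518) .nil)))),
   .two (nat_lit 276824072) (nat_lit 28087156744) (.two (nat_lit 8388612) (nat_lit 28087156751) (.two (nat_lit 50331649) (nat_lit 806355011) (.two (nat_lit 1048576) (nat_lit 109052409) (.one (nat_lit 1050037) .nil)))),
   .two (nat_lit 156532473865) (nat_lit 1753219079) (.two (nat_lit 739246085) (nat_lit 12054429711) (.two (nat_lit 34603009) (nat_lit 21785215010) (.two (nat_lit 1048576) (nat_lit 21785215072) (.one (nat_lit 21785215195) .nil)))),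
   .two (nat_lit 183853121540) (nat_lit 3458203659) (.two (nat_lit 156372041729) (nat_lit 203423764) (.one (nat_lit 4028629868) .nil)),
   .two (nat_lit 1277165574) (nat_lit 10506731528) (.two (nat_lit 1277165572) (nat_lit 10506731535) (.two (nat_lit 606076929) (nat_lit 156569174127) (.two (nat_lit 2097152) (nat_lit 156367847620) (.one (nat_lit 4634706398) .nil)))),
   .two (nat_lit 28691136521) (nat_lit 165532401672) (.two (nat_lit 1277165573) (nat_lit 28093448207) (.two (nat_lit 2097153) (nat_lit 1384120387) (.two (nat_lit 2097152) (nat_lit 3028287849) (.one (nat_lit 8389563) .nil)))),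
   .two (nat_lit 46414168072) (nat_lit 708837386) (.two (nat_lit 19532873733) (nat_lit 46414168079) (.two (nat_lit 4194305) (nat_lit 3464495217) (.two (nat_lit 4194304) (nat_lit 1216348258) (.one (nat_lit 8390071) .nil)))),
   .two (nat_lit 3527409672) (nat_lit 183853121544) (.two (nat_lit 46980399109) (nat_lit 2961178672) (.two (nat_lit 9768534017) (nat_lit 8388761) (.two (nat_lit 4194304) (nat_lit 8389022) (.one (nat_lit 339740012) .nil)))),
   .two (nat_lit 117440520) (nat_lit 9934209031) (.two (nat_lit 606076931) (nat_lit 117440527) (.two (nat_lit 9781116929) (nat_lit 158144135282) (.two (nat_lit 16777216) (nat_lit 1780482245) (.one (nat_lit 2098108) .nil)))),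
   .two (nat_lit 3527409672) (nat_lit 169869318) (.two (nat_lit 169869316) (nat_lit 3527409679) (.two (nat_lit 2097153) (nat_lit 3527409729) (.two (nat_lit 2097152) (nat_lit 10909385100) (.one (nat_lit 4195768) .nil)))),
   .two (nat_lit 3527409672) (nat_lit 158144135176) (.two (nat_lit 2889875460) (nat_lit 47582281774) (.two (nat_lit 4194305) (nat_lit 10001317976) (.two (nat_lit 2097152) (nat_lit 10372514002) (.one (nat_lit 4195769) .nil)))),
   .two (nat_lit 2889875464) (nat_lit 705691657) (.two (nat_lit 19596836869) (nat_lit 2889875471) (.two (nat_lit 9765388289) (nat_lit 4634705987) (.two (nat_lit 1048576) (nat_lit 47584378978) (.one (nat_lit 10506732916) .nil)))),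
   .two (nat_lit 1191182344) (nat_lit 10369368072) (.two (nat_lit 9781116933) (nat_lit 28790751258) (.two (nat_lit 50331649) (nat_lit 184416206978) (.two (nat_lit 1048576) (nat_lit 28697428357) (.one (nat_lit 8390074) .nil)))),
   .two (nat_lit 37748744) (nat_lit 183853121542) (.two (nat_lit 4194308) (nat_lit 28691136527) (.two (nat_lit 4194305) (nat_lit 102760485) (.two (nat_lit 4194304) (nat_lit 1920991611) (.one (nat_lit 21814576508) .nil)))),
   .two (nat_lit 19596836872) (nat_lit 4194310) (.two (nat_lit 4194308) (nat_lit 19596836879) (.two (nat_lit 4194305) (nat_lit 12617515121) (.two (nat_lit 4194304) (nat_lit 336592991) (.one (nat_lit 21207450970) .nil)))),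
   .two (nat_lit 8388616) (nat_lit 156367847431) (.two (nat_lit 10506731525) (nat_lit 41943055) (.two (nat_lit 8388609) (nat_lit 174688567417) (.two (nat_lit 4194304) (nat_lit 8388702) (.one (nat_lit 209716133) .nil)))),
   .two (nat_lit 46978301960) (nat_lit 20637024262) (.two (nat_lit 101711877) (nat_lit 156365750296) (.two (nat_lit 2097153) (nat_lit 156566028362) (.two (nat_lit 2097152) (nat_lit 1048992) (.one (nat_lit 69206880) .nil)))),
   .two (nat_lit 158075977736) (nat_lit 10370416653) (.two (nat_lit 1176502277) (nat_lit 21777874960) (.two (nat_lit 41943041) (nat_lit 806355070) (.two (nat_lit 8388608) (nat_lit 10335814039) (.one (nat_lit 1050044) .nil)))),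
   .two (nat_lit 612368392) (nat_lit 706740233) (.two (nat_lit 12062818309) (nat_lit 612368399) (.two (nat_lit 50331649) (nat_lit 612368420) (.two (nat_lit 16777216) (nat_lit 166136381650) (.one (nat_lit 2954888766) .nil)))),
   .two (nat_lit 158653743113) (nat_lit 2319450121) (.two (nat_lit 8388610) (nat_lit 3527409679) (.two (nat_lit 176160773) (nat_lit 10540285971) (.two (nat_lit 8388609) (nat_lit 4030726211) (.two (nat_lit 8388608) (nat_lit 11010048097) (.one (nat_lit 4195773) .nil))))),
   .two (nat_lit 10939793416) (nat_lit 1746927623) (.two (nat_lit 721420291) (nat_lit 10939793423) (.two (nat_lit 9765388289) (nat_lit 184549490) (.two (nat_lit 1048576) (nat_lit 9982443717) (.one (nat_lit 16778686) .nil)))),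
   .two (nat_lit 21208498184) (nat_lit 1929379849) (.two (nat_lit 1291845637) (nat_lit 21208498191) (.two (nat_lit 16777217) (nat_lit 1277165605) (.two (nat_lit 2097152) (nat_lit 2365587660) (.one (nat_lit 2098624) .nil)))),
   .two (nat_lit 11559501832) (nat_lit 9867100168) (.two (nat_lit 2887778308) (nat_lit 1749024783) (.two (nat_lit 37748737) (nat_lit 158091706486) (.two (nat_lit 4194304) (nat_lit 251658442) (.one (nat_lit 4195777) .nil)))),
   .two (nat_lit 169869320) (nat_lit 83886088) (.two (nat_lit 620756997) (nat_lit 2954887183) (.two (nat_lit 620756993) (nat_lit 158077026431) (.two (nat_lit 1048576) (nat_lit 20753416392) (.one (nat_lit 20753417082) .nil)))),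
   .two (nat_lit 713031682) (nat_lit 754974739) (.two (nat_lit 41943041) (nat_lit 754974739) (.one (nat_lit 16778690) .nil)),
   .two (nat_lit 41943048) (nat_lit 158143086602) (.two (nat_lit 4599054341) (nat_lit 41943055) (.two (nat_lit 2097153) (nat_lit 10007609419) (.two (nat_lit 1048576) (nat_lit 11618222178) (.one (nat_lit 8390083) .nil)))),
   .two (nat_lit 184416206856) (nat_lit 10001317897) (.two (nat_lit 183845781508) (nat_lit 28758245416) (.two (nat_lit 34603009) (nat_lit 20738736197) (.two (nat_lit 1048576) (nat_lit 46474985680) (.one (nat_lit 2098628) .nil)))),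
   .two (nat_lit 68157448) (nat_lit 9948889095) (.two (nat_lit 705691651) (nat_lit 157038936079) (.two (nat_lit 34603009) (nat_lit 20640170055) (.two (nat_lit 1048576) (nat_lit 4194675) (.one (nat_lit 708838241) .nil)))),
   .two (nat_lit 1847590920) (nat_lit 9869197326) (.two (nat_lit 47550824453) (nat_lit 1847590927) (.two (nat_lit 4194305) (nat_lit 37314625603) (.two (nat_lit 1048576) (nat_lit 28772926094) (.one (nat_lit 16778693) .nil)))),
   .two (nat_lit 272629768) (nat_lit 174753579015) (.two (nat_lit 4194307) (nat_lit 174753579023) (.two (nat_lit 4194305) (nat_lit 9967763534) (.two (nat_lit 4194304) (nat_lit 1948254584) (.one (nat_lit 2098017) .nil)))),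
   .two (nat_lit 11476664326) (nat_lit 3458203658) (.two (nat_lit 20644364293) (nat_lit 3558866970) (.two (nat_lit 606076929) (nat_lit 10537140261) (.two (nat_lit 1048576) (nat_lit 19027460194) (.one (nat_lit 1050055) .nil)))),
   .two (nat_lit 41943048) (nat_lit 1745879048) (.two (nat_lit 8388612) (nat_lit 1745879055) (.two (nat_lit 8388609) (nat_lit 10906239013) (.two (nat_lit 8388608) (nat_lit 1048787) (.one (nat_lit 1384121167) .nil)))),
   .two (nat_lit 156372041736) (nat_lit 605028359) (.two (nat_lit 4194307) (nat_lit 10343153679) (.two (nat_lit 4194305) (nat_lit 11517558855) (.two (nat_lit 4194304) (nat_lit 8389025) (.one (nat_lit 1050056) .nil)))),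
   .two (nat_lit 21811429388) (nat_lit 21778923529) (.two (nat_lit 10370416645) (nat_lit 11610882097) (.two (nat_lit 2097153) (nat_lit 28086108281) (.two (nat_lit 2097152) (nat_lit 12147753154) (.one (nat_lit 101712363) .nil)))),
   .two (nat_lit 28697427978) (nat_lit 2954887175) (.two (nat_lit 612368387) (nat_lit 203423759) (.two (nat_lit 612368385) (nat_lit 185021235319) (.two (nat_lit 8388608) (nat_lit 37247516873) (.one (nat_lit 2098633) .nil)))),
   .two (nat_lit 11479810056) (nat_lit 46407876614) (.two (nat_lit 46407876612) (nat_lit 11479810063) (.two (nat_lit 9768534017) (nat_lit 11477712968) (.two (nat_lit 2097152) (nat_lit 11479810460) (.one (nat_lit 2098635) .nil)))),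
   .two (nat_lit 8388616) (nat_lit 156365750280) (.two (nat_lit 176160773) (nat_lit 2921332753) (.two (nat_lit 2887778308) (nat_lit 2961178635) (.two (nat_lit 50331649) (nat_lit 1411383415) (.two (nat_lit 16777216) (nat_lit 4632608962) (.one (nat_lit 2098636) .nil))))),
   .two (nat_lit 159257722889) (nat_lit 2954887175) (.two (nat_lit 165532401667) (nat_lit 203423759) (.two (nat_lit 156372041729) (nat_lit 47582281795) (.two (nat_lit 8388608) (nat_lit 3021996238) (.one (nat_lit 184987682130) .nil)))),
   .two (nat_lit 4601151496) (nat_lit 166129041414) (.two (nat_lit 166129041412) (nat_lit 4601151503) (.two (nat_lit 37748737) (nat_lit 4598005832) (.two (nat_lit 4194304) (nat_lit 2920284371) (.one (nat_lit 1050061) .nil)))),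
   .two (nat_lit 50331656) (nat_lit 10540285964) (.two (nat_lit 16777220) (nat_lit 641728543) (.two (nat_lit 8388609) (nat_lit 809500805) (.two (nat_lit 8388608) (nat_lit 1049343) (.one (nat_lit 705693065) .nil)))),
   .two (nat_lit 876609545) (nat_lit 13195280391) (.two (nat_lit 156367847427) (nat_lit 713031695) (.two (nat_lit 156367847425) (nat_lit 880803952) (.two (nat_lit 4194304) (nat_lit 679477444) (.one (nat_lit 3028287966) .nil)))),
   .two (nat_lit 606076936) (nat_lit 166144770057) (.two (nat_lit 721420290) (nat_lit 156367847469) (.two (nat_lit 169869316) (nat_lit 28693233675) (.two (nat_lit 50331649) (nat_lit 20705181784) (.two (nat_lit 16777216) (nat_lit 2097571) (.one (nat_lit 16778703) .nil))))),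
   .two (nat_lit 2954887176) (nat_lit 18933088264) (.two (nat_lit 169869316) (nat_lit 183853121551) (.two (nat_lit 2097153) (nat_lit 183853121602) (.two (nat_lit 2097152) (nat_lit 11584667746) (.one (nat_lit 8390096) .nil)))),
   .two (nat_lit 184993972236) (nat_lit 19026411529) (.two (nat_lit 739246085) (nat_lit 183853121576) (.two (nat_lit 34603009) (nat_lit 183853121603) (.two (nat_lit 1048576) (nat_lit 47588573544) (.one (nat_lit 46514832223) .nil)))),
   .two (nat_lit 639631368) (nat_lit 34603017) (.two (nat_lit 11476664324) (nat_lit 11611930651) (.two (nat_lit 10370416643) (nat_lit 12047089690) (.two (nat_lit 9765388289) (nat_lit 2097306) (.two (nat_lit 1048576) (nat_lit 2097572) (.one (nat_lit 19094570388) .nil))))),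
   .two (nat_lit 46414168072) (nat_lit 10439622665) (.two (nat_lit 2889875461) (nat_lit 46414168079) (.two (nat_lit 4194305) (nat_lit 3464495170) (.two (nat_lit 4194304) (nat_lit 37253808487) (.one (nat_lit 8390098) .nil)))),
   .two (nat_lit 705691657) (nat_lit 620756999) (.two (nat_lit 2894069763) (nat_lit 184549391) (.two (nat_lit 8388609) (nat_lit 1426063427) (.two (nat_lit 1048576) (nat_lit 21827158222) (.one (nat_lit 16778707) .nil)))),
   .two (nat_lit 165525061641) (nat_lit 1753219079) (.two (nat_lit 705691651) (nat_lit 10343153679) (.two (nat_lit 34603009) (nat_lit 166136381511) (.two (nat_lit 16777216) (nat_lit 8389029) (.one (nat_lit 8390100) .nil)))),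
   .two (nat_lit 176160776) (nat_lit 9867100169) (.two (nat_lit 3525312517) (nat_lit 612368399) (.two (nat_lit 2097153) (nat_lit 1417674819) (.two (nat_lit 2097152) (nat_lit 47555018965) (.one (nat_lit 8390101) .nil)))),
   .two (nat_lit 165526110216) (nat_lit 21785214988) (.two (nat_lit 75497477) (nat_lit 2317352986) (.two (nat_lit 8388609) (nat_lit 12115247223) (.two (nat_lit 8388608) (nat_lit 9799991496) (.one (nat_lit 2098532) .nil)))),
   .two (nat_lit 2887778312) (nat_lit 16777223) (.two (nat_lit 9766436867) (nat_lit 1745879055) (.two (nat_lit 16777217) (nat_lit 12148801679) (.two (nat_lit 2097152) (nat_lit 34603429) (.one (nat_lit 2886730593) .nil)))),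
   .two (nat_lit 4194313) (nat_lit 50331655) (.two (nat_lit 1178599427) (nat_lit 721420303) (.two (nat_lit 9768534017) (nat_lit 889192515) (.two (nat_lit 4194304) (nat_lit 13237223630) (.one (nat_lit 83887441) .nil)))),
   .two (nat_lit 21214789641) (nat_lit 606076935) (.two (nat_lit 46414168067) (nat_lit 158144135183) (.two (nat_lit 8388609) (nat_lit 2954887239) (.two (nat_lit 4194304) (nat_lit 19128123763) (.one (nat_lit 2098646) .nil)))),
   .two (nat_lit 203423752) (nat_lit 1753219079) (.two (nat_lit 169869315) (nat_lit 183853121551) (.two (nat_lit 2097153) (nat_lit 11484004420) (.two (nat_lit 2097152) (nat_lit 174759871226) (.one (nat_lit 1411384204) .nil)))),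
   .two (nat_lit 2889875462) (nat_lit 10503585799) (.two (nat_lit 171966467) (nat_lit 9772728348) (.two (nat_lit 4194305) (nat_lit 10376708238) (.two (nat_lit 16777216) (nat_lit 3557818464) (.one (nat_lit 174685422488) .nil)))),
   .two (nat_lit 276824073) (nat_lit 157038936071) (.two (nat_lit 156367847427) (nat_lit 20644364303) (.two (nat_lit 156367847425) (nat_lit 10343153731) (.two (nat_lit 4194304) (nat_lit 157043130574) (.one (nat_lit 46477082843) .nil)))),
   .two (nat_lit 9902751754) (nat_lit 11543773191) (.two (nat_lit 11476664323) (nat_lit 272629775) (.two (nat_lit 37748737) (nat_lit 12147753027) (.two (nat_lit 4194304) (nat_lit 183946445006) (.one (nat_lit 1050073) .nil)))),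
   .two (nat_lit 4194310) (nat_lit 174753579015) (.two (nat_lit 4194307) (nat_lit 174753579023) (.two (nat_lit 4194305) (nat_lit 740294785) (.two (nat_lit 4194304) (nat_lit 2097924) (.one (nat_lit 2098650) .nil)))),
   .two (nat_lit 1343225864) (nat_lit 270532617) (.two (nat_lit 10336862213) (nat_lit 20637024289) (.two (nat_lit 606076931) (nat_lit 183845781515) (.two (nat_lit 156365750273) (nat_lit 13221494938) (.two (nat_lit 2097152) (nat_lit 13221495204) (.one (nat_lit 9966716245) .nil))))),
   .two (nat_lit 10439622665) (nat_lit 174752530439) (.two (nat_lit 11479810051) (nat_lit 21207449615) (.two (nat_lit 37748737) (nat_lit 10939793475) (.two (nat_lit 4194304) (nat_lit 156968681678) (.one (nat_lit 1049961) .nil)))),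
   .two (nat_lit 2889875464) (nat_lit 28087156751) (.two (nat_lit 721420292) (nat_lit 21812477989) (.two (nat_lit 169869316) (nat_lit 822083606) (.two (nat_lit 2097153) (nat_lit 28705816778) (.two (nat_lit 16777216) (nat_lit 46978302176) (.one (nat_lit 185002362365) .nil))))),
   .two (nat_lit 654311431) (nat_lit 19027460122) (.two (nat_lit 11484004355) (nat_lit 1795162224) (.two (nat_lit 41943041) (nat_lit 3573547047) (.two (nat_lit 8388608) (nat_lit 1358954974) (.one (nat_lit 310379493) .nil)))),
   .two (nat_lit 13195280392) (nat_lit 28693233679) (.two (nat_lit 166132187138) (nat_lit 12054429761) (.two (nat_lit 8388612) (nat_lit 20740833350) (.two (nat_lit 156367847425) (nat_lit 184993972415) (.two (nat_lit 4194304) (nat_lit 184993972690) (.one (nat_lit 12121540112) .nil))))),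
   .two (nat_lit 47548727304) (nat_lit 3527409679) (.two (nat_lit 169869316) (nat_lit 46409973797) (.two (nat_lit 169869316) (nat_lit 156569174035) (.two (nat_lit 9768534017) (nat_lit 183846830284) (.two (nat_lit 2097152) (nat_lit 166232850655) (.one (nat_lit 1746929117) .nil))))),
   .two (nat_lit 272629768) (nat_lit 11476664335) (.two (nat_lit 4194308) (nat_lit 157036838996) (.two (nat_lit 270532613) (nat_lit 339738644) (.two (nat_lit 37748737) (nat_lit 19128123586) (.two (nat_lit 1048576) (nat_lit 3021996516) (.one (nat_lit 1050143) .nil))))),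
   .two (nat_lit 809500680) (nat_lit 159224168470) (.two (nat_lit 713031684) (nat_lit 1377828901) (.two (nat_lit 4194308) (nat_lit 159224168470) (.two (nat_lit 2097153) (nat_lit 156976021706) (.two (nat_lit 8388608) (nat_lit 3525312736) (.one (nat_lit 8390176) .nil))))),
   .two (nat_lit 184986632199) (nat_lit 174753579023) (.two (nat_lit 37748739) (nat_lit 47582281809) (.two (nat_lit 34603009) (nat_lit 20638072870) (.two (nat_lit 4194304) (nat_lit 2098023) (.one (nat_lit 2098721) .nil)))),
   .two (nat_lit 11546918917) (nat_lit 19604176915) (.one (nat_lit 8390178) .nil),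
   .two (nat_lit 1291845636) (nat_lit 8388626) (.one (nat_lit 8389620) .nil),
   .two (nat_lit 169869320) (nat_lit 285212688) (.two (nat_lit 9781116935) (nat_lit 183845781519) (.two (nat_lit 169869316) (nat_lit 4647288870) (.two (nat_lit 606076931) (nat_lit 9798942832) (.two (nat_lit 606076929) (nat_lit 9765388484) (.two (nat_lit 1048576) (nat_lit 9781117772) (.one (nat_lit 184416207852) .nil)))))),
   .two (nat_lit 28691136520) (nat_lit 183848927247) (.two (nat_lit 13191086085) (nat_lit 37247516710) (.two (nat_lit 11484004355) (nat_lit 4601151610) (.two (nat_lit 41943041) (nat_lit 184987680864) (.two (nat_lit 8388608) (nat_lit 4195176) (.one (nat_lit 4195876) .nil))))),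
   .two (nat_lit 11551113224) (nat_lit 1358954511) (.two (nat_lit 8388610) (nat_lit 158192369779) (.two (nat_lit 713031685) (nat_lit 158158815269) (.two (nat_lit 8388609) (nat_lit 20638073029) (.two (nat_lit 8388608) (nat_lit 1962934763) (.one (nat_lit 2098727) .nil))))),
   .two (nat_lit 705691652) (nat_lit 37320917011) (.one (nat_lit 8390184) .nil),
   .two (nat_lit 47555018759) (nat_lit 12047089679) (.two (nat_lit 176160771) (nat_lit 21777874978) (.two (nat_lit 8388609) (nat_lit 135266342) (.two (nat_lit 8388608) (nat_lit 9899606235) (.one (nat_lit 1050153) .nil)))),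
   .two (nat_lit 11551113224) (nat_lit 1749024783) (.two (nat_lit 721420293) (nat_lit 21812478019) (.two (nat_lit 41943041) (nat_lit 156466413929) (.two (nat_lit 8388608) (nat_lit 11559502316) (.one (nat_lit 2098730) .nil)))),
   .two (nat_lit 41943048) (nat_lit 159217877007) (.two (nat_lit 8388610) (nat_lit 47582281794) (.two (nat_lit 20638072837) (nat_lit 174692761683) (.two (nat_lit 8388609) (nat_lit 159251431615) (.two (nat_lit 8388608) (nat_lit 159251431889) (.one (nat_lit 2098731) .nil))))),
   .two (nat_lit 10336862215) (nat_lit 46523219985) (.two (nat_lit 18925748227) (nat_lit 21793603623) (.two (nat_lit 156364701697) (nat_lit 11492392998) (.two (nat_lit 1048576) (nat_lit 117441515) (.one (nat_lit 117441515) .nil)))),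
   .two (nat_lit 11476664328) (nat_lit 1753219087) (.two (nat_lit 270532613) (nat_lit 12054429765) (.two (nat_lit 270532613) (nat_lit 3464495123) (.two (nat_lit 2097153) (nat_lit 21785215071) (.two (nat_lit 1048576) (nat_lit 270532836) (.one (nat_lit 2953840140) .nil))))),
   .two (nat_lit 13203669000) (nat_lit 41943059) (.two (nat_lit 638582789) (nat_lit 12633243685) (.two (nat_lit 16777220) (nat_lit 639631379) (.two (nat_lit 8388609) (nat_lit 11577327714) (.two (nat_lit 2097152) (nat_lit 721420516) (.one (nat_lit 16778797) .nil))))),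
   .two (nat_lit 11543773191) (nat_lit 184419352591) (.two (nat_lit 705691651) (nat_lit 1916796962) (.two (nat_lit 34603009) (nat_lit 184419352614) (.two (nat_lit 1048576) (nat_lit 1916797147) (.one (nat_lit 4195886) .nil)))),
   .two (nat_lit 1291845638) (nat_lit 1310720026) (.two (nat_lit 12050235400) (nat_lit 11492392979) (.two (nat_lit 11492392962) (nat_lit 2889875575) (.two (nat_lit 21778923525) (nat_lit 3003121734) (.two (nat_lit 37748737) (nat_lit 1224736969) (.two (nat_lit 2097152) (nat_lit 37316723561) (.one (nat_lit 4195887) .nil)))))),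
   .two (nat_lit 809500680) (nat_lit 20644364307) (.two (nat_lit 1753219077) (nat_lit 183916036133) (.two (nat_lit 4194308) (nat_lit 20644364307) (.two (nat_lit 156372041729) (nat_lit 19599982687) (.two (nat_lit 8388608) (nat_lit 171967332) (.one (nat_lit 1216349676) .nil))))),
   .two (nat_lit 37748743) (nat_lit 1913651215) (.two (nat_lit 37748739) (nat_lit 13221494862) (.two (nat_lit 8388609) (nat_lit 169869350) (.two (nat_lit 8388608) (nat_lit 1049454) (.one (nat_lit 2098736) .nil)))),
   .two (nat_lit 11551113223) (nat_lit 16777231) (.two (nat_lit 184549379) (nat_lit 270532681) (.two (nat_lit 41943041) (nat_lit 889192486) (.two (nat_lit 8388608) (nat_lit 1426063582) (.one (nat_lit 16778801) .nil)))),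
   .two (nat_lit 169869316) (nat_lit 2923429907) (.one (nat_lit 4195303) .nil),
   .two (nat_lit 16777223) (nat_lit 639631375) (.two (nat_lit 16777219) (nat_lit 10437525572) (.two (nat_lit 16777217) (nat_lit 13188988967) (.two (nat_lit 16777216) (nat_lit 18926797665) (.one (nat_lit 2098738) .nil)))),
   .two (nat_lit 2097159) (nat_lit 37316722717) (.two (nat_lit 2097155) (nat_lit 166232850505) (.two (nat_lit 2097153) (nat_lit 4601151526) (.two (nat_lit 4194304) (nat_lit 2098032) (.one (nat_lit 10369368580) .nil)))),
   .two (nat_lit 20637024264) (nat_lit 2954887183) (.two (nat_lit 708837381) (nat_lit 158143086674) (.two (nat_lit 159216828421) (nat_lit 203423779) (.two (nat_lit 4194305) (nat_lit 639631456) (.two (nat_lit 4194304) (nat_lit 21208499025) (.one (nat_lit 4195891) .nil))))),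
   .two (nat_lit 1950351369) (nat_lit 2954887185) (.two (nat_lit 2956984327) (nat_lit 9934209039) (.two (nat_lit 165528207365) (nat_lit 158647451716) (.two (nat_lit 2097155) (nat_lit 4634705985) (.two (nat_lit 2097153) (nat_lit 9768534112) (.two (nat_lit 16777216) (nat_lit 159216829264) (.one (nat_lit 1050164) .nil)))))),
   .two (nat_lit 2961178632) (nat_lit 639631375) (.two (nat_lit 270532613) (nat_lit 41943074) (.two (nat_lit 2097153) (nat_lit 8388799) (.two (nat_lit 16777216) (nat_lit 1175454536) (.one (nat_lit 9765388795) .nil)))),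
   .two (nat_lit 37748743) (nat_lit 158176641064) (.two (nat_lit 2097155) (nat_lit 20740833410) (.two (nat_lit 34603009) (nat_lit 156535619623) (.two (nat_lit 4194304) (nat_lit 183912890854) (.one (nat_lit 2886730241) .nil)))),
   .two (nat_lit 20644364296) (nat_lit 11476664335) (.two (nat_lit 270532613) (nat_lit 109051976) (.two (nat_lit 270532613) (nat_lit 2927624212) (.two (nat_lit 156372041729) (nat_lit 9866051681) (.two (nat_lit 1048576) (nat_lit 11477713113) (.one (nat_lit 2098742) .nil))))),
   .two (nat_lit 822083591) (nat_lit 20637024282) (.two (nat_lit 1276116995) (nat_lit 721420355) (.two (nat_lit 605028353) (nat_lit 50331686) (.two (nat_lit 1048576) (nat_lit 16778099) (.one (nat_lit 184986633181) .nil)))),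
   .two (nat_lit 28757196807) (nat_lit 158083317775) (.two (nat_lit 10369368067) (nat_lit 158083317826) (.two (nat_lit 9765388289) (nat_lit 20644364326) (.two (nat_lit 1048576) (nat_lit 158083318228) (.one (nat_lit 8390199) .nil)))),
   .two (nat_lit 9781116935) (nat_lit 2420113439) (.two (nat_lit 171966467) (nat_lit 11559501858) (.two (nat_lit 4194305) (nat_lit 1795162150) (.two (nat_lit 1048576) (nat_lit 754974939) (.one (nat_lit 16777728) .nil)))),
   .two (nat_lit 754974728) (nat_lit 47548727307) (.two (nat_lit 169869316) (nat_lit 11626610725) (.two (nat_lit 169869316) (nat_lit 1191182355) (.two (nat_lit 2097153) (nat_lit 1358954593) (.two (nat_lit 2097152) (nat_lit 156581757156) (.one (nat_lit 16778809) .nil))))),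
   .two (nat_lit 4194312) (nat_lit 157036838927) (.two (nat_lit 2889875461) (nat_lit 35651623) (.two (nat_lit 37748739) (nat_lit 3557818501) (.two (nat_lit 37748737) (nat_lit 2097532) (.two (nat_lit 1048576) (nat_lit 156535620431) (.one (nat_lit 4195824) .nil))))),
   .two (nat_lit 21207449608) (nat_lit 19532873747) (.two (nat_lit 1916796933) (nat_lit 9866051621) (.two (nat_lit 1916796933) (nat_lit 2316304403) (.two (nat_lit 9768534017) (nat_lit 159216828514) (.two (nat_lit 1048576) (nat_lit 183949590746) (.one (nat_lit 19596838374) .nil))))),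
   .two (nat_lit 620757000) (nat_lit 1277165579) (.two (nat_lit 1277165572) (nat_lit 620757028) (.two (nat_lit 184549381) (nat_lit 9766436886) (.two (nat_lit 9766436865) (nat_lit 28101836895) (.two (nat_lit 2097152) (nat_lit 218104676) (.one (nat_lit 11626612209) .nil))))),
   .two (nat_lit 705691652) (nat_lit 20738736147) (.one (nat_lit 3021997031) .nil),
   .two (nat_lit 1847590920) (nat_lit 4613734422) (.two (nat_lit 1291845637) (nat_lit 1780482085) (.two (nat_lit 1291845637) (nat_lit 37247516691) (.two (nat_lit 16777217) (nat_lit 174753579202) (.two (nat_lit 16777216) (nat_lit 18926797288) (.one (nat_lit 2098746) .nil))))),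
   .two (nat_lit 13191086088) (nat_lit 28691136523) (.two (nat_lit 166130089989) (nat_lit 775946277) (.two (nat_lit 4194308) (nat_lit 9766436884) (.two (nat_lit 4194305) (nat_lit 19128123602) (.two (nat_lit 4194304) (nat_lit 19597885661) (.one (nat_lit 165528208903) .nil))))),
   .two (nat_lit 713031688) (nat_lit 159217877007) (.two (nat_lit 713031682) (nat_lit 47582281794) (.two (nat_lit 20638072837) (nat_lit 10947133523) (.two (nat_lit 41943041) (nat_lit 304087399) (.two (nat_lit 8388608) (nat_lit 159251431889) (.one (nat_lit 706741727) .nil))))),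
   .two (nat_lit 4613734408) (nat_lit 158649548827) (.two (nat_lit 171966469) (nat_lit 620757026) (.two (nat_lit 4194305) (nat_lit 352321574) (.two (nat_lit 4194304) (nat_lit 16778103) (.one (nat_lit 4195900) .nil)))),
   .two (nat_lit 2954887175) (nat_lit 158143086607) (.two (nat_lit 4194307) (nat_lit 46507491468) (.two (nat_lit 2097153) (nat_lit 9866051622) (.two (nat_lit 2097152) (nat_lit 806355942) (.one (nat_lit 806355942) .nil)))),
   .two (nat_lit 11551113224) (nat_lit 9881780239) (.two (nat_lit 1277165570) (nat_lit 158653743217) (.two (nat_lit 713031684) (nat_lit 21793603621) (.two (nat_lit 606076929) (nat_lit 158653743296) (.two (nat_lit 2097152) (nat_lit 10510926296) (.one (nat_lit 8390205) .nil))))),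
   .two (nat_lit 9948889096) (nat_lit 2987393053) (.two (nat_lit 9948889095) (nat_lit 166129041423) (.two (nat_lit 184549380) (nat_lit 46406828114) (.two (nat_lit 2097155) (nat_lit 174692761712) (.two (nat_lit 2097153) (nat_lit 4027580512) (.two (nat_lit 2097152) (nat_lit 679478101) (.one (nat_lit 243270636) .nil)))))),
   .two (nat_lit 11476664324) (nat_lit 822083603) (.one (nat_lit 1049595) .nil),
   .two (nat_lit 9768534024) (nat_lit 9900654611) (.two (nat_lit 10940841989) (nat_lit 19096666149) (.two (nat_lit 2889875460) (nat_lit 9900654611) (.two (nat_lit 156365750273) (nat_lit 156971827295) (.two (nat_lit 2097152) (nat_lit 4195192) (.one (nat_lit 2098750) .nil))))),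
   .two (nat_lit 1795162120) (nat_lit 46407876619) (.two (nat_lit 1291845637) (nat_lit 37247516709) (.two (nat_lit 16777221) (nat_lit 2921332755) (.two (nat_lit 620756993) (nat_lit 166130090081) (.two (nat_lit 2097152) (nat_lit 1862271197) (.one (nat_lit 169870822) .nil))))),
   .two (nat_lit 11546918919) (nat_lit 101711887) (.two (nat_lit 708837379) (nat_lit 12617515086) (.two (nat_lit 37748737) (nat_lit 4598005799) (.two (nat_lit 16777216) (nat_lit 10906239967) (.one (nat_lit 10906239967) .nil)))),
   .two (nat_lit 620756999) (nat_lit 158177689652) (.two (nat_lit 620756995) (nat_lit 10504634454) (.two (nat_lit 41943041) (nat_lit 183848927270) (.two (nat_lit 2097152) (nat_lit 46409973982) (.one (nat_lit 12620661251) .nil)))),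
   .two (nat_lit 157036838917) (nat_lit 3003121683) (.one (nat_lit 174701150718) .nil),
   .two (nat_lit 3539992584) (nat_lit 166130089995) (.two (nat_lit 270532613) (nat_lit 9781116964) (.two (nat_lit 270532613) (nat_lit 2902458386) (.two (nat_lit 2097153) (nat_lit 1291845727) (.two (nat_lit 1048576) (nat_lit 184417255641) (.one (nat_lit 1050176) .nil))))),
   .two (nat_lit 41943045) (nat_lit 3021996051) (.one (nat_lit 183846830590) .nil),
   .two (nat_lit 11578376202) (nat_lit 12054429707) (.two (nat_lit 46407876610) (nat_lit 21818769478) (.two (nat_lit 13195280389) (nat_lit 236978195) (.two (nat_lit 2097153) (nat_lit 10007609548) (.two (nat_lit 2097152) (nat_lit 183853121767) (.one (nat_lit 8390131) .nil))))),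
   .two (nat_lit 1276116996) (nat_lit 20644364307) (.one (nat_lit 1050100) .nil),
   .two (nat_lit 2954887176) (nat_lit 46414168075) (.two (nat_lit 169869316) (nat_lit 4605345828) (.two (nat_lit 169869316) (nat_lit 4605345810) (.two (nat_lit 2097153) (nat_lit 159224168543) (.two (nat_lit 2097152) (nat_lit 880804069) (.one (nat_lit 11007952362) .nil))))),
   .two (nat_lit 16777218) (nat_lit 176160786) (.one (nat_lit 8390209) .nil),
   .two (nat_lit 2954887176) (nat_lit 605028374) (.two (nat_lit 1846542341) (nat_lit 3525312549) (.two (nat_lit 169869316) (nat_lit 20704133139) (.two (nat_lit 606076929) (nat_lit 2416967775) (.two (nat_lit 1048576) (nat_lit 1411383524) (.one (nat_lit 740296199) .nil))))),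
   .two (nat_lit 2097159) (nat_lit 1916796943) (.two (nat_lit 2097155) (nat_lit 12117344369) (.two (nat_lit 34603009) (nat_lit 339738663) (.two (nat_lit 1048576) (nat_lit 4195196) (.one (nat_lit 4195869) .nil)))),
   .two (nat_lit 13191086087) (nat_lit 2921332768) (.two (nat_lit 37748739) (nat_lit 37314625616) (.two (nat_lit 37748737) (nat_lit 673185830) (.two (nat_lit 4194304) (nat_lit 136315862) (.one (nat_lit 136315862) .nil)))),
   .two (nat_lit 50331656) (nat_lit 9867100171) (.two (nat_lit 16777220) (nat_lit 158077026341) (.two (nat_lit 16777220) (nat_lit 28791799827) (.two (nat_lit 16777217) (nat_lit 185021235295) (.two (nat_lit 16777216) (nat_lit 20705181923) (.one (nat_lit 16778819) .nil))))),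
   .two (nat_lit 3525312520) (nat_lit 620757007) (.two (nat_lit 2887778308) (nat_lit 16777280) (.two (nat_lit 2097153) (nat_lit 16777309) (.two (nat_lit 16777216) (nat_lit 20638073049) (.one (nat_lit 10519315936) .nil)))),
   .two (nat_lit 176160773) (nat_lit 2418016278) (.one (nat_lit 1344276008) .nil),
   .two (nat_lit 272629767) (nat_lit 218103823) (.two (nat_lit 4194307) (nat_lit 9948889122) (.two (nat_lit 4194305) (nat_lit 654311462) (.two (nat_lit 4194304) (nat_lit 1291845854) (.one (nat_lit 1191183885) .nil)))),
   .two (nat_lit 19599982600) (nat_lit 21818769427) (.two (nat_lit 183853121541) (nat_lit 19599982628) (.two (nat_lit 183853121541) (nat_lit 184419352594) (.two (nat_lit 8388609) (nat_lit 9902751839) (.two (nat_lit 8388608) (nat_lit 138412525) (.one (nat_lit 4195909) .nil))))),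
   .two (nat_lit 41943048) (nat_lit 21778923536) (.two (nat_lit 185002360839) (nat_lit 104857615) (.two (nat_lit 8388612) (nat_lit 9900654630) (.two (nat_lit 721420291) (nat_lit 102760515) (.two (nat_lit 50331649) (nat_lit 185021235296) (.two (nat_lit 16777216) (nat_lit 4195202) (.one (nat_lit 608175651) .nil)))))),
   .two (nat_lit 16777224) (nat_lit 270532624) (.two (nat_lit 813694983) (nat_lit 18925748239) (.two (nat_lit 184549381) (nat_lit 46508539942) (.two (nat_lit 41943043) (nat_lit 183845781569) (.two (nat_lit 41943041) (nat_lit 303038560) (.two (nat_lit 8388608) (nat_lit 10519315330) (.one (nat_lit 16778822) .nil)))))),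
   .two (nat_lit 117440519) (nat_lit 11479810063) (.two (nat_lit 1191182339) (nat_lit 272629794) (.two (nat_lit 9781116929) (nat_lit 19130220582) (.two (nat_lit 16777216) (nat_lit 46510637275) (.one (nat_lit 4195911) .nil)))),
   .two (nat_lit 10506731527) (nat_lit 13228834848) (.two (nat_lit 28693233669) (nat_lit 184993972305) (.two (nat_lit 37748737) (nat_lit 47555018790) (.two (nat_lit 4194304) (nat_lit 10343153883) (.one (nat_lit 12054430208) .nil)))),
   .two (nat_lit 4194306) (nat_lit 12147752979) (.one (nat_lit 1050184) .nil),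
   .two (nat_lit 184549381) (nat_lit 9802088470) (.one (nat_lit 4195913) .nil),
   .two (nat_lit 176160774) (nat_lit 157038936079) (.two (nat_lit 159224168456) (nat_lit 46409973771) (.two (nat_lit 176160770) (nat_lit 46980399170) (.two (nat_lit 176160772) (nat_lit 12050235462) (.two (nat_lit 8388609) (nat_lit 3527409758) (.two (nat_lit 8388608) (nat_lit 156569174497) (.one (nat_lit 166132188662) .nil)))))),
   .two (nat_lit 2889875461) (nat_lit 46984593427) (.one (nat_lit 11618223619) .nil),
   .two (nat_lit 21793603592) (nat_lit 1745879055) (.two (nat_lit 166132187138) (nat_lit 18925748335) (.two (nat_lit 157038936069) (nat_lit 158646403142) (.two (nat_lit 34603009) (nat_lit 10015998143) (.two (nat_lit 1048576) (nat_lit 10015998415) (.one (nat_lit 16778826) .nil))))),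
   .two (nat_lit 2902458370) (nat_lit 169869331) (.one (nat_lit 337641700) .nil),
   .two (nat_lit 28693233672) (nat_lit 21207449615) (.two (nat_lit 20637024258) (nat_lit 3527409698) (.two (nat_lit 158143086597) (nat_lit 46477082699) (.two (nat_lit 156364701697) (nat_lit 10506731711) (.two (nat_lit 1048576) (nat_lit 10506731995) (.one (nat_lit 174755677717) .nil))))),
   .two (nat_lit 16777224) (nat_lit 183848927247) (.two (nat_lit 16777220) (nat_lit 11513364545) (.two (nat_lit 37748737) (nat_lit 16777309) (.two (nat_lit 16777216) (nat_lit 46409973977) (.one (nat_lit 16778827) .nil)))),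
   .two (nat_lit 203423752) (nat_lit 11580473371) (.two (nat_lit 272629765) (nat_lit 269484066) (.two (nat_lit 2097153) (nat_lit 184419352781) (.two (nat_lit 4194304) (nat_lit 46508540791) (.one (nat_lit 46510638652) .nil)))),
   .two (nat_lit 9934209032) (nat_lit 28757196815) (.two (nat_lit 1846542341) (nat_lit 1210056787) (.two (nat_lit 169869316) (nat_lit 9866051605) (.two (nat_lit 2097153) (nat_lit 21207449698) (.two (nat_lit 2097152) (nat_lit 11577327845) (.one (nat_lit 2098764) .nil))))),
   .two (nat_lit 4601151495) (nat_lit 654311439) (.two (nat_lit 4194307) (nat_lit 9948889122) (.two (nat_lit 4194305) (nat_lit 218103846) (.two (nat_lit 4194304) (nat_lit 9948889307) (.one (nat_lit 16778829) .nil)))),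
   .two (nat_lit 203423752) (nat_lit 176160779) (.two (nat_lit 47548727301) (nat_lit 8388644) (.two (nat_lit 176160772) (nat_lit 3458203668) (.two (nat_lit 2097153) (nat_lit 10343153759) (.two (nat_lit 2097152) (nat_lit 13195280613) (.one (nat_lit 2098766) .nil))))),
   .two (nat_lit 3527409671) (nat_lit 713031695) (.two (nat_lit 46409973763) (nat_lit 8388642) (.two (nat_lit 4194305) (nat_lit 11618222118) (.two (nat_lit 16777216) (nat_lit 809501150) (.one (nat_lit 809501661) .nil)))),
   .two (nat_lit 9948889095) (nat_lit 9768534031) (.two (nat_lit 620756995) (nat_lit 174688567367) (.two (nat_lit 620756993) (nat_lit 10506731558) (.two (nat_lit 16777216) (nat_lit 10372514774) (.one (nat_lit 10372514774) .nil)))),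
   .two (nat_lit 9948889095) (nat_lit 1847590927) (.two (nat_lit 620756995) (nat_lit 28758245455) (.two (nat_lit 156367847425) (nat_lit 203423783) (.two (nat_lit 4194304) (nat_lit 654312282) (.one (nat_lit 16778832) .nil)))),
   .two (nat_lit 16777220) (nat_lit 166196150291) (.one (nat_lit 1276118001) .nil),
   .two (nat_lit 37748743) (nat_lit 754974735) (.two (nat_lit 37748739) (nat_lit 12062818372) (.two (nat_lit 37748737) (nat_lit 21793603623) (.two (nat_lit 4194304) (nat_lit 2098060) (.one (nat_lit 840959551) .nil)))),
   .two (nat_lit 10947133449) (nat_lit 28693233679) (.two (nat_lit 28693233672) (nat_lit 2961178646) (.two (nat_lit 183853121541) (nat_lit 2420113475) (.two (nat_lit 8388609) (nat_lit 183916036291) (.two (nat_lit 4194304) (nat_lit 11551113708) (.one (nat_lit 183916037072) .nil))))),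
   .two (nat_lit 1277165570) (nat_lit 11510218771) (.one (nat_lit 1050197) .nil),
   .two (nat_lit 117440519) (nat_lit 11479810063) (.two (nat_lit 1191182339) (nat_lit 272629794) (.two (nat_lit 9781116929) (nat_lit 19130220582) (.two (nat_lit 16777216) (nat_lit 46510637278) (.one (nat_lit 4195927) .nil)))),
   .two (nat_lit 20637024260) (nat_lit 9982443542) (.one (nat_lit 1050202) .nil),
   .two (nat_lit 16777224) (nat_lit 2887778315) (.two (nat_lit 184549380) (nat_lit 3525312548) (.two (nat_lit 16777220) (nat_lit 2887778325) (.two (nat_lit 16777217) (nat_lit 13222543455) (.two (nat_lit 16777216) (nat_lit 3525312739) (.one (nat_lit 16778843) .nil))))),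
   .two (nat_lit 75497477) (nat_lit 772800531) (.one (nat_lit 185027528277) .nil),
   .two (nat_lit 639631367) (nat_lit 12047089679) (.two (nat_lit 9766436867) (nat_lit 11577327683) (.two (nat_lit 9766436865) (nat_lit 772800550) (.two (nat_lit 1048576) (nat_lit 9934209504) (.one (nat_lit 3020948458) .nil)))),
   .two (nat_lit 3525312519) (nat_lit 9781116943) (.two (nat_lit 2887778307) (nat_lit 822083618) (.two (nat_lit 2097153) (nat_lit 9781116966) (.two (nat_lit 2097152) (nat_lit 11492393179) (.one (nat_lit 156984410628) .nil)))),
   .two (nat_lit 11543773191) (nat_lit 156367847439) (.two (nat_lit 11476664323) (nat_lit 306184259) (.two (nat_lit 34603009) (nat_lit 2923429926) (.two (nat_lit 1048576) (nat_lit 13191086560) (.one (nat_lit 1049573) .nil)))),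
   .two (nat_lit 272629768) (nat_lit 46407876627) (.two (nat_lit 2889875460) (nat_lit 159217877028) (.two (nat_lit 4194308) (nat_lit 46407876627) (.two (nat_lit 2097153) (nat_lit 21781020767) (.two (nat_lit 2097152) (nat_lit 47584379101) (.one (nat_lit 11007952386) .nil))))),
   .two (nat_lit 654311431) (nat_lit 46978301982) (.two (nat_lit 20638072835) (nat_lit 9781116995) (.two (nat_lit 606076929) (nat_lit 11492392998) (.two (nat_lit 2097152) (nat_lit 16777713) (.one (nat_lit 9948889601) .nil)))),
   .two (nat_lit 21777874951) (nat_lit 10343153679) (.two (nat_lit 68157443) (nat_lit 166136381511) (.two (nat_lit 9781116929) (nat_lit 1048781) (.two (nat_lit 16777216) (nat_lit 135267162) (.one (nat_lit 8389635) .nil)))),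
   .two (nat_lit 176160770) (nat_lit 184549394) (.one (nat_lit 10552869094) .nil),
   .two (nat_lit 11551113231) (nat_lit 11593056273) (.two (nat_lit 11559501832) (nat_lit 11544821794) (.two (nat_lit 11559501832) (nat_lit 1344274467) (.two (nat_lit 713031684) (nat_lit 2317352998) (.two (nat_lit 713031684) (nat_lit 773849184) (.two (nat_lit 41943041) (nat_lit 1379926235) (.two (nat_lit 8388608) (nat_lit 150995920) (.one (nat_lit 11584669284) .nil))))))),
   .two (nat_lit 37748751) (nat_lit 713031695) (.two (nat_lit 37748744) (nat_lit 13228834853) (.two (nat_lit 37748744) (nat_lit 1350565907) (.two (nat_lit 10372513797) (nat_lit 2954887262) (.two (nat_lit 10372513797) (nat_lit 2954887261) (.two (nat_lit 2097153) (nat_lit 2927624664) (.two (nat_lit 2097152) (nat_lit 2894070753) (.one (nat_lit 11544823391) .nil))))))),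
   .two (nat_lit 12050235407) (nat_lit 184993972235) (.two (nat_lit 11551113224) (nat_lit 12050235413) (.two (nat_lit 184993972229) (nat_lit 11578376289) (.two (nat_lit 156365750273) (nat_lit 158179786970) (.two (nat_lit 2097152) (nat_lit 183916036323) (.one (nat_lit 2098838) .nil))))),
   .two (nat_lit 8388619) (nat_lit 272629776) (.two (nat_lit 8388616) (nat_lit 809500708) (.two (nat_lit 8388616) (nat_lit 272629778) (.two (nat_lit 4194308) (nat_lit 8388702) (.two (nat_lit 4194308) (nat_lit 8388701) (.two (nat_lit 4194305) (nat_lit 276824545) (.two (nat_lit 4194304) (nat_lit 276825054) (.one (nat_lit 9768535658) .nil))))))),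
   .two (nat_lit 721420299) (nat_lit 3021996049) (.two (nat_lit 169869318) (nat_lit 184549451) (.two (nat_lit 721420296) (nat_lit 166199296022) (.two (nat_lit 174755676165) (nat_lit 47548727390) (.two (nat_lit 174755676165) (nat_lit 47548727389) (.two (nat_lit 620756993) (nat_lit 159217877467) (.two (nat_lit 2097152) (nat_lit 20719862739) (.one (nat_lit 47563409045) .nil))))))),
   .two (nat_lit 620756999) (nat_lit 47584378958) (.two (nat_lit 83886083) (nat_lit 46477082662) (.two (nat_lit 1048576) (nat_lit 159253529093) (.one (nat_lit 159253529093) .nil))),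
   .two (nat_lit 742391823) (nat_lit 47588573206) (.two (nat_lit 742391816) (nat_lit 41943060) (.two (nat_lit 11479810052) (nat_lit 28758245474) (.two (nat_lit 8388609) (nat_lit 166197199075) (.two (nat_lit 2097152) (nat_lit 184419352804) (.one (nat_lit 10439624309) .nil))))),
   .two (nat_lit 2902458379) (nat_lit 166132187147) (.two (nat_lit 2902458374) (nat_lit 19029557269) (.two (nat_lit 166132187138) (nat_lit 1291845729) (.two (nat_lit 9768534017) (nat_lit 218104025) (.two (nat_lit 4194304) (nat_lit 654311651) (.one (nat_lit 16778903) .nil))))),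
   .two (nat_lit 47555018759) (nat_lit 184986632226) (.two (nat_lit 176160771) (nat_lit 2316304422) (.two (nat_lit 8388608) (nat_lit 1309671939) (.one (nat_lit 1050264) .nil))),
   .two (nat_lit 12117344263) (nat_lit 19093520465) (.two (nat_lit 10369368067) (nat_lit 843055142) (.two (nat_lit 1048576) (nat_lit 306184701) (.one (nat_lit 158079123973) .nil))),
   .two (nat_lit 11546918919) (nat_lit 142606415) (.two (nat_lit 708837379) (nat_lit 2323644454) (.two (nat_lit 2097152) (nat_lit 1317011971) (.one (nat_lit 4195993) .nil))),
   .two (nat_lit 2961178639) (nat_lit 203423755) (.two (nat_lit 2961178632) (nat_lit 203423765) (.two (nat_lit 34603013) (nat_lit 156372041823) (.two (nat_lit 2097153) (nat_lit 159250383076) (.two (nat_lit 1048576) (nat_lit 156567077095) (.one (nat_lit 2098842) .nil))))),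
   .two (nat_lit 169869327) (nat_lit 166132187155) (.two (nat_lit 169869320) (nat_lit 46980399123) (.two (nat_lit 166132187138) (nat_lit 156364701900) (.two (nat_lit 2097153) (nat_lit 9802088668) (.two (nat_lit 1048576) (nat_lit 2097380) (.one (nat_lit 4631561847) .nil))))),
   .two (nat_lit 1929379847) (nat_lit 46409973831) (.two (nat_lit 183848927235) (nat_lit 12129927207) (.two (nat_lit 4194304) (nat_lit 285213184) (.one (nat_lit 2432696837) .nil))),
   .two (nat_lit 9768534031) (nat_lit 4605345803) (.two (nat_lit 9768534024) (nat_lit 4605345810) (.two (nat_lit 46414168066) (nat_lit 3460301000) (.two (nat_lit 4194305) (nat_lit 3028287708) (.two (nat_lit 4194304) (nat_lit 813695205) (.one (nat_lit 843056741) .nil))))),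
   .two (nat_lit 639631367) (nat_lit 8388694) (.two (nat_lit 1175453699) (nat_lit 780140582) (.two (nat_lit 1048576) (nat_lit 166203490821) (.one (nat_lit 166203490821) .nil))),
   .two (nat_lit 639631375) (nat_lit 47555018763) (.two (nat_lit 8388616) (nat_lit 169869331) (.two (nat_lit 203423749) (nat_lit 165532401759) (.two (nat_lit 2097153) (nat_lit 2961178853) (.two (nat_lit 2097152) (nat_lit 41943267) (.one (nat_lit 47548728936) .nil))))),
   .two (nat_lit 12054429711) (nat_lit 185035915281) (.two (nat_lit 185002360840) (nat_lit 21785215010) (.two (nat_lit 185002360840) (nat_lit 184993972259) (.two (nat_lit 721420292) (nat_lit 780140582) (.two (nat_lit 721420292) (nat_lit 1384120416) (.two (nat_lit 41943041) (nat_lit 21827158235) (.two (nat_lit 2097152) (nat_lit 185035916237) (.one (nat_lit 157036840545) .nil))))))),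
   .two (nat_lit 156372041743) (nat_lit 203423755) (.two (nat_lit 46414168072) (nat_lit 3558866963) (.two (nat_lit 46414168068) (nat_lit 174686470241) (.two (nat_lit 2097153) (nat_lit 13195280611) (.two (nat_lit 2097152) (nat_lit 13195280611) (.one (nat_lit 1344276070) .nil))))),
   .two (nat_lit 270532615) (nat_lit 11513364559) (.two (nat_lit 171966467) (nat_lit 47582281766) (.two (nat_lit 1048576) (nat_lit 19027460609) (.one (nat_lit 1175454212) .nil))),
   .two (nat_lit 1343225871) (nat_lit 12117344267) (.two (nat_lit 11479810056) (nat_lit 11577327635) (.two (nat_lit 705691652) (nat_lit 46510637153) (.two (nat_lit 34603009) (nat_lit 156569174243) (.two (nat_lit 1048576) (nat_lit 156569174243) (.one (nat_lit 4598007397) .nil))))),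
   .two (nat_lit 3539992583) (nat_lit 159251431505) (.two (nat_lit 20638072835) (nat_lit 4647288870) (.two (nat_lit 1048576) (nat_lit 19545457157) (.one (nat_lit 19545457157) .nil))),
   .two (nat_lit 41943055) (nat_lit 4194321) (.two (nat_lit 37748744) (nat_lit 612368418) (.two (nat_lit 37748744) (nat_lit 176160803) (.two (nat_lit 4194308) (nat_lit 41943078) (.two (nat_lit 4194308) (nat_lit 75497568) (.two (nat_lit 4194305) (nat_lit 203423963) (.two (nat_lit 4194304) (nat_lit 203424720) (.one (nat_lit 2954888800) .nil))))))),
   .two (nat_lit 37748743) (nat_lit 28806479943) (.two (nat_lit 37748739) (nat_lit 47596961831) (.two (nat_lit 2097152) (nat_lit 10003415557) (.one (nat_lit 28791800324) .nil))),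
   .two (nat_lit 41943055) (nat_lit 4601151499) (.two (nat_lit 41943048) (nat_lit 272629778) (.two (nat_lit 8388612) (nat_lit 1212153951) (.two (nat_lit 8388609) (nat_lit 4194533) (.two (nat_lit 8388608) (nat_lit 4194533) (.one (nat_lit 1216349812) .nil))))),
   .two (nat_lit 19596836871) (nat_lit 185035915343) (.two (nat_lit 18925748227) (nat_lit 21793603623) (.two (nat_lit 1048576) (nat_lit 16778219) (.one (nat_lit 16778908) .nil))),
   .two (nat_lit 9948889103) (nat_lit 9866051595) (.two (nat_lit 9948889096) (nat_lit 9866051602) (.two (nat_lit 11476664322) (nat_lit 10955522252) (.two (nat_lit 620756993) (nat_lit 10436477148) (.two (nat_lit 16777216) (nat_lit 166229704933) (.one (nat_lit 21827159672) .nil))))),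
   .two (nat_lit 4194311) (nat_lit 41943074) (.two (nat_lit 4194307) (nat_lit 176160806) (.two (nat_lit 16777216) (nat_lit 1276117501) (.one (nat_lit 1276118021) .nil))),
   .two (nat_lit 9940500487) (nat_lit 1948254276) (.two (nat_lit 9768534019) (nat_lit 12148801575) (.two (nat_lit 4194304) (nat_lit 8389613) (.one (nat_lit 807405211) .nil))),
   .two (nat_lit 101711879) (nat_lit 243269671) (.two (nat_lit 9766436867) (nat_lit 243269670) (.two (nat_lit 2097152) (nat_lit 184993972737) (.one (nat_lit 8390302) .nil))),
   .two (nat_lit 11551113227) (nat_lit 739246095) (.two (nat_lit 75497480) (nat_lit 11610882085) (.two (nat_lit 713031688) (nat_lit 1175453715) (.two (nat_lit 713031682) (nat_lit 1343226051) (.two (nat_lit 612368387) (nat_lit 1343225953) (.two (nat_lit 34603009) (nat_lit 276824545) (.two (nat_lit 1048576) (nat_lit 2961179614) (.one (nat_lit 713033342) .nil))))))),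
   .two (nat_lit 50331663) (nat_lit 46474985494) (.two (nat_lit 50331656) (nat_lit 46474985494) (.two (nat_lit 11546918917) (nat_lit 18941476959) (.two (nat_lit 2097153) (nat_lit 158079123673) (.two (nat_lit 2097152) (nat_lit 889192675) (.one (nat_lit 11578377863) .nil))))),
   .two (nat_lit 2954887176) (nat_lit 12620660775) (.two (nat_lit 2097157) (nat_lit 9802088486) (.two (nat_lit 1048576) (nat_lit 874513373) (.one (nat_lit 9798943752) .nil))),
   .two (nat_lit 2954887175) (nat_lit 174752530466) (.two (nat_lit 169869315) (nat_lit 166196150310) (.two (nat_lit 2097152) (nat_lit 20704133629) (.one (nat_lit 1050271) .nil))),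
   .two (nat_lit 184986632199) (nat_lit 1358954534) (.two (nat_lit 705691651) (nat_lit 721420326) (.two (nat_lit 1048576) (nat_lit 11593056771) (.one (nat_lit 3036677765) .nil))),
   .two (nat_lit 50331655) (nat_lit 843055189) (.two (nat_lit 50331651) (nat_lit 19599982630) (.two (nat_lit 4194304) (nat_lit 185002361347) (.one (nat_lit 183916037129) .nil))),
   .two (nat_lit 1745879055) (nat_lit 272629771) (.two (nat_lit 4601151496) (nat_lit 739246100) (.two (nat_lit 184416206853) (nat_lit 2889875554) (.two (nat_lit 4194305) (nat_lit 19026411744) (.two (nat_lit 1048576) (nat_lit 306184423) (.one (nat_lit 166132188774) .nil))))),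
   .two (nat_lit 158150426631) (nat_lit 16777250) (.two (nat_lit 50331651) (nat_lit 46409973799) (.two (nat_lit 8388608) (nat_lit 156380430853) (.one (nat_lit 156380430853) .nil))),
   .two (nat_lit 41943047) (nat_lit 1210056783) (.two (nat_lit 184549381) (nat_lit 10504634406) (.two (nat_lit 8388608) (nat_lit 9814672349) (.one (nat_lit 19042141826) .nil))),
   .two (nat_lit 4194312) (nat_lit 1417674790) (.two (nat_lit 4194308) (nat_lit 1417674790) (.two (nat_lit 1048576) (nat_lit 205521899) (.one (nat_lit 10942940815) .nil))),
   .two (nat_lit 2097159) (nat_lit 156372041762) (.two (nat_lit 169869315) (nat_lit 310378534) (.two (nat_lit 8388608) (nat_lit 202376148) (.one (nat_lit 13221495817) .nil))),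
   .two (nat_lit 285212687) (nat_lit 47548727307) (.two (nat_lit 2902458376) (nat_lit 47548727314) (.two (nat_lit 169869316) (nat_lit 620757087) (.two (nat_lit 606076929) (nat_lit 20753416422) (.two (nat_lit 2097152) (nat_lit 20753416422) (.one (nat_lit 840959606) .nil))))),
   .two (nat_lit 3527409671) (nat_lit 2954887202) (.two (nat_lit 9766436867) (nat_lit 4634705958) (.two (nat_lit 16777216) (nat_lit 9934209531) (.one (nat_lit 807404554) .nil))),
   .two (nat_lit 10336862215) (nat_lit 310378567) (.two (nat_lit 18933088259) (nat_lit 270532807) (.two (nat_lit 8388608) (nat_lit 1847591421) (.one (nat_lit 11578376709) .nil))),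
   .two (nat_lit 41943047) (nat_lit 20704133158) (.two (nat_lit 41943043) (nat_lit 20704133158) (.two (nat_lit 1048576) (nat_lit 13195281378) (.one (nat_lit 336593928) .nil))),
   .two (nat_lit 2954887175) (nat_lit 9806282829) (.two (nat_lit 169869315) (nat_lit 343932966) (.two (nat_lit 2097152) (nat_lit 645923332) (.one (nat_lit 10940842500) .nil))),
   .two (nat_lit 2097159) (nat_lit 37249613895) (.two (nat_lit 2097155) (nat_lit 19130220582) (.two (nat_lit 1048576) (nat_lit 9802088960) (.one (nat_lit 2098816) .nil))),
   .two (nat_lit 184986632199) (nat_lit 612368418) (.two (nat_lit 713031683) (nat_lit 12147752998) (.two (nat_lit 16777216) (nat_lit 168821248) (.one (nat_lit 713032713) .nil))),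
   .two (nat_lit 184416206863) (nat_lit 12129927179) (.two (nat_lit 11492392968) (nat_lit 1209008147) (.two (nat_lit 117440517) (nat_lit 1913651297) (.two (nat_lit 34603009) (nat_lit 251658461) (.two (nat_lit 1048576) (nat_lit 13237223651) (.one (nat_lit 1050272) .nil))))),
   .two (nat_lit 159217876999) (nat_lit 8388642) (.two (nat_lit 612368387) (nat_lit 20738736166) (.two (nat_lit 1048576) (nat_lit 35652096) (.one (nat_lit 612369417) .nil))),
   .two (nat_lit 10506731527) (nat_lit 12047089735) (.two (nat_lit 166132187139) (nat_lit 37313576998) (.two (nat_lit 4194304) (nat_lit 4027580932) (.one (nat_lit 3524264968) .nil))),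
   .two (nat_lit 21208498191) (nat_lit 158158815243) (.two (nat_lit 1358954504) (nat_lit 4599054358) (.two (nat_lit 1277165573) (nat_lit 37329305695) (.two (nat_lit 2097153) (nat_lit 185035915481) (.two (nat_lit 2097152) (nat_lit 21827158243) (.one (nat_lit 12633245298) .nil))))),
   .two (nat_lit 12047089679) (nat_lit 11492392971) (.two (nat_lit 12047089672) (nat_lit 183962173461) (.two (nat_lit 184986632197) (nat_lit 285212769) (.two (nat_lit 34603009) (nat_lit 822083811) (.two (nat_lit 1048576) (nat_lit 822083811) (.one (nat_lit 159216830055) .nil))))),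
   .two (nat_lit 176160783) (nat_lit 705691659) (.two (nat_lit 176160776) (nat_lit 11510218772) (.two (nat_lit 20637024258) (nat_lit 1417674946) (.two (nat_lit 612368385) (nat_lit 10503586013) (.two (nat_lit 8388608) (nat_lit 1343226083) (.one (nat_lit 1182795403) .nil))))),
   .two (nat_lit 104857608) (nat_lit 185020186662) (.two (nat_lit 739246085) (nat_lit 1178599462) (.two (nat_lit 8388608) (nat_lit 46409974742) (.one (nat_lit 11580475007) .nil))),
   .two (nat_lit 654311431) (nat_lit 10504634406) (.two (nat_lit 2097152) (nat_lit 10007609861) .nil),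
   .two (nat_lit 1358954504) (nat_lit 606076966) (.two (nat_lit 1048576) (nat_lit 4599054853) .nil),
   .two (nat_lit 2889875464) (nat_lit 813695014) (.two (nat_lit 2097152) (nat_lit 202376196) .nil),
   .two (nat_lit 2961178632) (nat_lit 3525312551) (.two (nat_lit 1048576) (nat_lit 136315397) .nil),
   .two (nat_lit 276824071) (nat_lit 46510637094) (.two (nat_lit 1048576) (nat_lit 8389641) .nil),
   .two (nat_lit 41943047) (nat_lit 4194342) (.two (nat_lit 1048576) (nat_lit 2954888196) .nil),
   .two (nat_lit 41943047) (nat_lit 156535619623) (.two (nat_lit 8388608) (nat_lit 807404554) .nil),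
   .two (nat_lit 176160783) (nat_lit 46508539924) (.two (nat_lit 713031682) (nat_lit 639631577) (.two (nat_lit 606076929) (nat_lit 8388835) (.one (nat_lit 19027461794) .nil))),
   .two (nat_lit 11543773192) (nat_lit 9900654630) (.two (nat_lit 16777216) (nat_lit 18925748740) .nil),
   .two (nat_lit 37748743) (nat_lit 1417674790) (.two (nat_lit 1048576) (nat_lit 2317353476) .nil),
   .two (nat_lit 184993972231) (nat_lit 11510218790) (.two (nat_lit 16777216) (nat_lit 68157956) .nil),
   .two (nat_lit 176160776) (nat_lit 11610882086) (.two (nat_lit 2097152) (nat_lit 11546919946) .nil),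
   .two (nat_lit 813694984) (nat_lit 159219974183) (.two (nat_lit 2097152) (nat_lit 873464840) .nil),
   .two (nat_lit 8388612) (nat_lit 50331660) (.two (nat_lit 4194304) (nat_lit 318767228) .nil),
   .two (nat_lit 13195280389) (nat_lit 47550824453) (.two (nat_lit 4194305) (nat_lit 183853121647) .nil),
   .two (nat_lit 3527409669) (nat_lit 10940842098) .nil]

theorem k1 : chkL tab c1 (nat_lit 1300) = true := by decide +kernel

theorem l1 : c1.length = 1300 := by decide +kernel

end K2

end Pool.Agent.Work.MP_bf01b2_co.MR
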