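import Pool.Agent.Work.MP_bf01b2_co.MR.K2T

/-!
# Two roots in `Q_5`: certificates of the entries 2600 to 3899
-/

set_option autoImplicit false
set_option maxRecDepth 100000

namespace Pool.Agent.Work.MP_bf01b2_co.MR

namespace K2

open JT

/-- certificates of the entries 2600 to 3899 -/
def c2 : List Rc :=
  [.two (nat_lit 2097157) (nat_lit 1753219184) .nil,
   .two (nat_lit 47548727301) (nat_lit 46409973765) (.two (nat_lit 2097153) (nat_lit 1849688106) (.one (nat_lit 4194855) .nil)),
   .two (nat_lit 176160773) (nat_lit 19599982616) (.one (nat_lit 4194856) .nil),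
   .two (nat_lit 8388612) (nat_lit 721420292) (.two (nat_lit 50331649) (nat_lit 11618222195) .nil),
   .two (nat_lit 2889875461) (nat_lit 10370416645) (.two (nat_lit 2097153) (nat_lit 156535619888) .nil),
   .two (nat_lit 41943045) (nat_lit 1846542468) .nil,
   .two (nat_lit 8388612) (nat_lit 159216828421) (.two (nat_lit 4194305) (nat_lit 13195280674) .nil),
   .two (nat_lit 2097157) (nat_lit 10343153669) (.two (nat_lit 612368385) (nat_lit 19128123523) .nil),
   .two (nat_lit 605028357) (nat_lit 11559501937) (.one (nat_lit 16778270) .nil),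
   .two (nat_lit 176160772) (nat_lit 606076942) (.two (nat_lit 16777217) (nat_lit 10940842105) (.one (nat_lit 2098851) .nil)),
   .two (nat_lit 69206021) (nat_lit 183853121544) (.two (nat_lit 41943041) (nat_lit 183848927255) (.two (nat_lit 8388608) (nat_lit 2097405) (.one (nat_lit 8390308) .nil))),
   .two (nat_lit 1343225861) (nat_lit 9802088460) (.two (nat_lit 8388609) (nat_lit 2923429953) (.one (nat_lit 1050277) .nil)),
   .two (nat_lit 159217876997) (nat_lit 1916796940) (.two (nat_lit 156365750273) (nat_lit 12117344366) (.one (nat_lit 4195363) .nil)),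
   .two (nat_lit 171966469) (nat_lit 69206030) (.two (nat_lit 4194305) (nat_lit 1277165594) (.two (nat_lit 1048576) (nat_lit 1746927734) (.one (nat_lit 4195366) .nil))),
   .two (nat_lit 184549381) (nat_lit 9766436872) (.two (nat_lit 2097153) (nat_lit 9948889103) (.two (nat_lit 8388608) (nat_lit 1358954617) (.one (nat_lit 2098854) .nil))),
   .two (nat_lit 1191182341) (nat_lit 46474985496) (.two (nat_lit 1048576) (nat_lit 46474985582) (.one (nat_lit 2098216) .nil)),
   .two (nat_lit 705691652) (nat_lit 1916796943) (.two (nat_lit 1048576) (nat_lit 12117344366) (.one (nat_lit 4195370) .nil)),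
   .two (nat_lit 9765388293) (nat_lit 28087156760) (.two (nat_lit 8388608) (nat_lit 9765388406) (.one (nat_lit 1050279) .nil)),
   .two (nat_lit 69206021) (nat_lit 158143086600) (.two (nat_lit 37748737) (nat_lit 1344274474) (.two (nat_lit 4194304) (nat_lit 2097670) (.one (nat_lit 4195371) .nil))),
   .two (nat_lit 34603013) (nat_lit 156372041736) (.two (nat_lit 612368385) (nat_lit 102760490) (.two (nat_lit 2097152) (nat_lit 1048834) (.one (nat_lit 2098856) .nil))),
   .two (nat_lit 169869316) (nat_lit 183853121544) (.two (nat_lit 16777217) (nat_lit 156976021622) (.one (nat_lit 8390313) .nil)),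
   .two (nat_lit 4194308) (nat_lit 166130090024) (.two (nat_lit 8388608) (nat_lit 34603075) (.one (nat_lit 1050282) .nil)),
   .two (nat_lit 13187940357) (nat_lit 158079123585) (.one (nat_lit 2098859) .nil),
   .two (nat_lit 101711877) (nat_lit 158077026319) (.two (nat_lit 2097152) (nat_lit 638582902) (.one (nat_lit 1050284) .nil)),
   .two (nat_lit 9781116933) (nat_lit 9966714893) (.two (nat_lit 4194305) (nat_lit 46523220077) (.one (nat_lit 1050286) .nil)),
   .two (nat_lit 8388612) (nat_lit 156364701708) (.two (nat_lit 4194305) (nat_lit 2953838726) (.one (nat_lit 8390320) .nil)),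
   .two (nat_lit 158144135173) (nat_lit 159224168460) (.two (nat_lit 606076929) (nat_lit 2894070010) (.one (nat_lit 159224169491) .nil)),
   .two (nat_lit 169869316) (nat_lit 158083317775) (.two (nat_lit 2097152) (nat_lit 142606454) (.one (nat_lit 8390336) .nil)),
   .two (nat_lit 1343225861) (nat_lit 21208498191) (.two (nat_lit 1048576) (nat_lit 2098259) .nil),
   .two (nat_lit 176160772) (nat_lit 1358954508) (.two (nat_lit 8388609) (nat_lit 11525947525) (.one (nat_lit 8389699) .nil)),
   .two (nat_lit 20644364292) (nat_lit 721420303) (.two (nat_lit 8388608) (nat_lit 83886190) (.one (nat_lit 16778351) .nil)),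
   .two (nat_lit 605028357) (nat_lit 10385096816) (.one (nat_lit 889193130) .nil),
   .two (nat_lit 83886085) (nat_lit 11543773251) (.one (nat_lit 166129042102) .nil),
   .two (nat_lit 13195280389) (nat_lit 174752530447) (.two (nat_lit 1048576) (nat_lit 8389717) .nil),
   .two (nat_lit 8388612) (nat_lit 18928893967) (.two (nat_lit 2097152) (nat_lit 12620661026) (.one (nat_lit 2098290) .nil)),
   .two (nat_lit 708837381) (nat_lit 1753219087) (.two (nat_lit 4194304) (nat_lit 10913580092) .nil),
   .two (nat_lit 2902458373) (nat_lit 11618222147) (.one (nat_lit 1417675418) .nil),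
   .two (nat_lit 270532613) (nat_lit 21785214988) (.two (nat_lit 2097153) (nat_lit 11551113340) (.one (nat_lit 2098882) .nil)),
   .two (nat_lit 21778923525) (nat_lit 1753219186) (.one (nat_lit 8389750) .nil),
   .two (nat_lit 1343225861) (nat_lit 1749024776) (.two (nat_lit 620756993) (nat_lit 1947205750) (.one (nat_lit 1049720) .nil)),
   .two (nat_lit 11492392965) (nat_lit 672137333) (.one (nat_lit 2098883) .nil),
   .two (nat_lit 11479810052) (nat_lit 28691136536) (.two (nat_lit 4194304) (nat_lit 2097684) (.one (nat_lit 2098297) .nil)),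
   .two (nat_lit 169869316) (nat_lit 142606376) (.two (nat_lit 8388608) (nat_lit 251658501) (.one (nat_lit 16778936) .nil)),
   .two (nat_lit 2097157) (nat_lit 612368399) (.two (nat_lit 1048576) (nat_lit 10336862732) (.one (nat_lit 2098884) .nil)),
   .two (nat_lit 8388612) (nat_lit 21210595342) (.two (nat_lit 4194305) (nat_lit 159251431542) (.one (nat_lit 8390341) .nil)),
   .two (nat_lit 285212677) (nat_lit 9900654618) (.two (nat_lit 1048576) (nat_lit 754975002) (.one (nat_lit 2098886) .nil)),
   .two (nat_lit 174755676165) (nat_lit 12147753072) (.one (nat_lit 174752531114) .nil),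
   .two (nat_lit 1343225861) (nat_lit 158144135180) (.two (nat_lit 605028353) (nat_lit 159251431471) (.two (nat_lit 1048576) (nat_lit 2097465) (.one (nat_lit 2098887) .nil))),
   .two (nat_lit 2902458373) (nat_lit 11618222147) (.one (nat_lit 1050312) .nil),
   .two (nat_lit 16777220) (nat_lit 19599982605) (.two (nat_lit 16777217) (nat_lit 165528207410) (.two (nat_lit 2097152) (nat_lit 28693233785) (.one (nat_lit 16778953) .nil))),
   .two (nat_lit 8388612) (nat_lit 16777231) (.two (nat_lit 8388608) (nat_lit 9915334962) (.one (nat_lit 16778954) .nil)),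
   .two (nat_lit 16777220) (nat_lit 673185912) (.one (nat_lit 174753579721) .nil),
   .two (nat_lit 184989777925) (nat_lit 46414168176) (.one (nat_lit 1384121002) .nil),
   .two (nat_lit 605028357) (nat_lit 10940842008) (.two (nat_lit 4194304) (nat_lit 605028470) (.one (nat_lit 1050315) .nil)),
   .two (nat_lit 184549381) (nat_lit 3457155086) (.two (nat_lit 2097153) (nat_lit 1276117301) (.one (nat_lit 8390348) .nil)),
   .two (nat_lit 9948889093) (nat_lit 2416967692) (.two (nat_lit 605028353) (nat_lit 2902458433) (.one (nat_lit 3524264997) .nil)),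
   .two (nat_lit 169869316) (nat_lit 142606376) (.two (nat_lit 2097152) (nat_lit 156539814172) (.one (nat_lit 4196362) .nil)),
   .two (nat_lit 1779433477) (nat_lit 165526110223) (.two (nat_lit 16777216) (nat_lit 19093520505) (.one (nat_lit 1050317) .nil)),
   .two (nat_lit 184549381) (nat_lit 101711887) (.two (nat_lit 8388608) (nat_lit 156365750393) (.one (nat_lit 1049723) .nil)),
   .two (nat_lit 21777874949) (nat_lit 10003415054) (.two (nat_lit 612368385) (nat_lit 20637024271) (.two (nat_lit 8388608) (nat_lit 4027580680) (.one (nat_lit 1050318) .nil))),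
   .two (nat_lit 4194308) (nat_lit 10504634383) (.two (nat_lit 4194304) (nat_lit 46474985582) (.one (nat_lit 2921333355) .nil)),
   .two (nat_lit 1276116996) (nat_lit 12117344271) (.two (nat_lit 1048576) (nat_lit 641728639) (.one (nat_lit 4195453) .nil)),
   .two (nat_lit 721420293) (nat_lit 28790751299) (.one (nat_lit 2098895) .nil),
   .two (nat_lit 822083589) (nat_lit 166132187144) (.two (nat_lit 50331649) (nat_lit 1849688087) (.two (nat_lit 4194304) (nat_lit 11559501962) (.one (nat_lit 156569174701) .nil))),
   .two (nat_lit 3472883717) (nat_lit 3028287554) (.one (nat_lit 4605346155) .nil),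
   .two (nat_lit 50331653) (nat_lit 1913651213) (.two (nat_lit 8388609) (nat_lit 46992982142) (.one (nat_lit 1050320) .nil)),
   .two (nat_lit 34603013) (nat_lit 4605345805) (.two (nat_lit 8388609) (nat_lit 11577327639) (.two (nat_lit 2097152) (nat_lit 10503585918) (.one (nat_lit 1050321) .nil))),
   .two (nat_lit 2889875460) (nat_lit 11510218778) (.two (nat_lit 8388608) (nat_lit 166232850550) (.one (nat_lit 4196050) .nil)),
   .two (nat_lit 11546918917) (nat_lit 2349858829) (.two (nat_lit 606076929) (nat_lit 158143086706) (.one (nat_lit 1050323) .nil)),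
   .two (nat_lit 11543773189) (nat_lit 11007950860) (.two (nat_lit 8388609) (nat_lit 28087156859) (.one (nat_lit 1050324) .nil)),
   .two (nat_lit 285212677) (nat_lit 1276117103) (.one (nat_lit 4196053) .nil),
   .two (nat_lit 9934209029) (nat_lit 46414168079) (.two (nat_lit 2097152) (nat_lit 11551113476) (.one (nat_lit 2098902) .nil)),
   .two (nat_lit 4194308) (nat_lit 2953838606) (.two (nat_lit 2097153) (nat_lit 202375302) (.one (nat_lit 16778367) .nil)),
   .two (nat_lit 272629765) (nat_lit 142606437) (.two (nat_lit 1048576) (nat_lit 4194837) (.one (nat_lit 4196055) .nil)),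
   .two (nat_lit 822083589) (nat_lit 2954887192) (.two (nat_lit 16777216) (nat_lit 12115247636) (.one (nat_lit 2098306) .nil)),
   .two (nat_lit 157035790341) (nat_lit 2889875471) (.two (nat_lit 1048576) (nat_lit 2889875522) (.one (nat_lit 4196056) .nil)),
   .two (nat_lit 4194308) (nat_lit 10369368078) (.two (nat_lit 2097153) (nat_lit 202375302) (.one (nat_lit 1050329) .nil)),
   .two (nat_lit 34603013) (nat_lit 11492392975) (.two (nat_lit 1048576) (nat_lit 3558867200) (.one (nat_lit 1050330) .nil)),
   .two (nat_lit 705691652) (nat_lit 37249613837) (.two (nat_lit 34603009) (nat_lit 156569174271) (.one (nat_lit 4196059) .nil)),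
   .two (nat_lit 605028357) (nat_lit 10913579021) (.two (nat_lit 8388609) (nat_lit 9899606273) (.one (nat_lit 16778972) .nil)),
   .two (nat_lit 270532613) (nat_lit 19532873843) (.one (nat_lit 11479810704) .nil),
   .two (nat_lit 28093448197) (nat_lit 11513364546) (.one (nat_lit 156367848072) .nil),
   .two (nat_lit 10506731525) (nat_lit 156968681487) (.two (nat_lit 1048576) (nat_lit 75497757) (.one (nat_lit 8390365) .nil)),
   .two (nat_lit 2887778308) (nat_lit 158075977736) (.two (nat_lit 605028353) (nat_lit 183846830209) (.one (nat_lit 165526111276) .nil)),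
   .two (nat_lit 713031684) (nat_lit 46407876616) (.two (nat_lit 2097153) (nat_lit 21785214991) (.two (nat_lit 1048576) (nat_lit 183947493500) (.one (nat_lit 2098910) .nil))),
   .two (nat_lit 2902458373) (nat_lit 1343225871) (.two (nat_lit 16777216) (nat_lit 20704133234) (.one (nat_lit 839910477) .nil)),
   .two (nat_lit 83886085) (nat_lit 809500687) (.two (nat_lit 16777216) (nat_lit 37249613942) (.one (nat_lit 183949591191) .nil)),
   .two (nat_lit 4194308) (nat_lit 1795162250) (.one (nat_lit 1795162698) .nil),
   .two (nat_lit 4194308) (nat_lit 157036838927) (.two (nat_lit 4194304) (nat_lit 10001318013) (.one (nat_lit 2098310) .nil)),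
   .two (nat_lit 169869316) (nat_lit 11559501836) (.two (nat_lit 16777217) (nat_lit 21208498241) (.one (nat_lit 2098311) .nil)),
   .two (nat_lit 8388612) (nat_lit 318767127) (.two (nat_lit 16777216) (nat_lit 21214789902) (.one (nat_lit 1358956554) .nil)),
   .two (nat_lit 50331653) (nat_lit 18933088271) (.two (nat_lit 8388608) (nat_lit 19109250148) .nil),
   .two (nat_lit 713031684) (nat_lit 1913651208) (.two (nat_lit 605028353) (nat_lit 11551113342) (.one (nat_lit 8389770) .nil)),
   .two (nat_lit 809500677) (nat_lit 183845781519) (.two (nat_lit 1048576) (nat_lit 4634706044) (.one (nat_lit 1050335) .nil)),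
   .two (nat_lit 9934209029) (nat_lit 10369368072) (.two (nat_lit 8388609) (nat_lit 158144135183) (.two (nat_lit 1048576) (nat_lit 156466413824) (.one (nat_lit 2098912) .nil))),
   .two (nat_lit 16777220) (nat_lit 10369368079) (.two (nat_lit 8388608) (nat_lit 11525947510) (.one (nat_lit 16778977) .nil)),
   .two (nat_lit 16777221) (nat_lit 136315011) (.one (nat_lit 157036839571) .nil),
   .two (nat_lit 8388612) (nat_lit 11593056280) (.two (nat_lit 1048576) (nat_lit 8389142) (.one (nat_lit 8390370) .nil)),
   .two (nat_lit 11479810053) (nat_lit 3458203656) (.two (nat_lit 156365750273) (nat_lit 13191086106) (.two (nat_lit 8388608) (nat_lit 28087157851) .nil)),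
   .two (nat_lit 4194308) (nat_lit 28691136527) (.two (nat_lit 4194304) (nat_lit 37253808246) (.one (nat_lit 8390371) .nil)),
   .two (nat_lit 8388613) (nat_lit 184986632207) (.two (nat_lit 8388608) (nat_lit 1779433590) (.one (nat_lit 2316305528) .nil)),
   .two (nat_lit 270532613) (nat_lit 28093448207) (.two (nat_lit 1048576) (nat_lit 46474985593) (.one (nat_lit 2098916) .nil)),
   .two (nat_lit 12054429701) (nat_lit 184549485) (.one (nat_lit 19109249674) .nil),
   .two (nat_lit 12047089669) (nat_lit 1191182360) (.two (nat_lit 1048576) (nat_lit 1191182446) (.one (nat_lit 16778380) .nil)),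
   .two (nat_lit 2889875461) (nat_lit 4605345859) (.one (nat_lit 158083318121) .nil),
   .two (nat_lit 3464495109) (nat_lit 83886189) (.one (nat_lit 10519315082) .nil),
   .two (nat_lit 2097157) (nat_lit 117440527) (.two (nat_lit 1048576) (nat_lit 855639061) .nil),
   .two (nat_lit 4194308) (nat_lit 3028287512) (.two (nat_lit 4194304) (nat_lit 19537068317) (.one (nat_lit 165532402250) .nil)),
   .two (nat_lit 12114198533) (nat_lit 12054429711) (.two (nat_lit 1048576) (nat_lit 11551113528) (.one (nat_lit 16778981) .nil)),
   .two (nat_lit 41943045) (nat_lit 606076936) (.two (nat_lit 2097153) (nat_lit 843055206) (.two (nat_lit 4194304) (nat_lit 11484004468) (.one (nat_lit 2098918) .nil))),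
   .two (nat_lit 169869316) (nat_lit 28690087944) (.two (nat_lit 9765388289) (nat_lit 169869335) (.two (nat_lit 1048576) (nat_lit 159217877249) (.one (nat_lit 35652630) .nil))),
   .two (nat_lit 2889875461) (nat_lit 4605345858) (.one (nat_lit 4605346149) .nil),
   .two (nat_lit 4194308) (nat_lit 184416206863) (.two (nat_lit 4194304) (nat_lit 1048891) (.one (nat_lit 2416968303) .nil)),
   .two (nat_lit 8388612) (nat_lit 10336862223) (.two (nat_lit 8388608) (nat_lit 673186354) .nil),
   .two (nat_lit 176160772) (nat_lit 156367847439) (.two (nat_lit 8388608) (nat_lit 166232851081) .nil),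
   .two (nat_lit 9768534021) (nat_lit 721420354) (.one (nat_lit 16778983) .nil),
   .two (nat_lit 2902458372) (nat_lit 46980399130) (.two (nat_lit 1048576) (nat_lit 46992982551) (.one (nat_lit 9866051944) .nil)),
   .two (nat_lit 10939793413) (nat_lit 11618222103) (.two (nat_lit 1048576) (nat_lit 165532401771) (.one (nat_lit 8389776) .nil)),
   .two (nat_lit 41943045) (nat_lit 19596836877) (.two (nat_lit 16777217) (nat_lit 310378520) (.two (nat_lit 16777216) (nat_lit 37246468217) (.one (nat_lit 1050344) .nil))),
   .two (nat_lit 1745879045) (nat_lit 3525312644) (.one (nat_lit 4028630046) .nil),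
   .two (nat_lit 176160772) (nat_lit 639631368) (.two (nat_lit 2097153) (nat_lit 159224168555) (.one (nat_lit 156472706149) .nil)),
   .two (nat_lit 4194308) (nat_lit 157035790348) (.two (nat_lit 16777217) (nat_lit 68157455) (.two (nat_lit 4194304) (nat_lit 166144770166) (.one (nat_lit 16778985) .nil))),
   .two (nat_lit 620756997) (nat_lit 11477712942) (.two (nat_lit 16777216) (nat_lit 1178599952) (.one (nat_lit 4196074) .nil)),
   .two (nat_lit 705691652) (nat_lit 11492392975) (.two (nat_lit 1048576) (nat_lit 13237223491) (.one (nat_lit 16778987) .nil)),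
   .two (nat_lit 16777221) (nat_lit 158144135176) (.two (nat_lit 16777217) (nat_lit 47582281774) (.two (nat_lit 1048576) (nat_lit 1426063427) (.one (nat_lit 16778989) .nil))),
   .two (nat_lit 183848927237) (nat_lit 19530776591) (.two (nat_lit 4194304) (nat_lit 20705181814) (.one (nat_lit 69206715) .nil)),
   .two (nat_lit 41943045) (nat_lit 157035790349) (.two (nat_lit 16777217) (nat_lit 158150426752) (.one (nat_lit 1050350) .nil)),
   .two (nat_lit 176160772) (nat_lit 157036838927) (.two (nat_lit 2097152) (nat_lit 46514831988) .nil),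
   .two (nat_lit 11479810052) (nat_lit 185021235214) (.two (nat_lit 2097153) (nat_lit 183949590551) (.two (nat_lit 1048576) (nat_lit 159251431706) (.one (nat_lit 4196080) .nil))),
   .two (nat_lit 705691652) (nat_lit 166245433357) (.two (nat_lit 16777217) (nat_lit 184986632207) (.two (nat_lit 8388608) (nat_lit 185035915397) (.one (nat_lit 16778993) .nil))),
   .two (nat_lit 8388612) (nat_lit 21778923532) (.two (nat_lit 8388609) (nat_lit 174753579132) (.one (nat_lit 4196082) .nil)),
   .two (nat_lit 4194308) (nat_lit 4613734408) (.two (nat_lit 37748737) (nat_lit 156364701737) (.two (nat_lit 1048576) (nat_lit 16777755) (.one (nat_lit 1050355) .nil))),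
   .two (nat_lit 8388612) (nat_lit 285212680) (.two (nat_lit 8388609) (nat_lit 10504634667) (.one (nat_lit 243271336) .nil)),
   .two (nat_lit 620756997) (nat_lit 11479810063) (.two (nat_lit 16777216) (nat_lit 183949590593) (.one (nat_lit 285213351) .nil)),
   .two (nat_lit 46407876612) (nat_lit 2936012928) (.one (nat_lit 10955522645) .nil),
   .two (nat_lit 1277165572) (nat_lit 679477357) (.one (nat_lit 9806283388) .nil),
   .two (nat_lit 705691652) (nat_lit 166197198861) (.two (nat_lit 41943041) (nat_lit 183845781611) (.one (nat_lit 1050356) .nil)),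
   .two (nat_lit 705691652) (nat_lit 37249613837) (.two (nat_lit 34603009) (nat_lit 12117344370) (.one (nat_lit 4196085) .nil)),
   .two (nat_lit 822083589) (nat_lit 1310720013) (.two (nat_lit 2097153) (nat_lit 46422556806) (.one (nat_lit 166130090694) .nil)),
   .two (nat_lit 4194308) (nat_lit 19530776589) (.two (nat_lit 50331649) (nat_lit 69206131) (.one (nat_lit 2098935) .nil)),
   .two (nat_lit 8388612) (nat_lit 174755676173) (.two (nat_lit 620756993) (nat_lit 343932951) (.two (nat_lit 4194304) (nat_lit 1291845753) (.one (nat_lit 16779000) .nil))),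
   .two (nat_lit 10335813637) (nat_lit 343933043) (.one (nat_lit 9906946637) .nil),
   .two (nat_lit 8388612) (nat_lit 12117344264) (.two (nat_lit 8388609) (nat_lit 12150898711) (.two (nat_lit 4194304) (nat_lit 4605345857) (.one (nat_lit 11513365165) .nil))),
   .two (nat_lit 184549380) (nat_lit 19094568973) (.two (nat_lit 41943041) (nat_lit 620757007) (.two (nat_lit 1048576) (nat_lit 28691136633) (.one (nat_lit 2098937) .nil))),
   .two (nat_lit 1343225861) (nat_lit 28691136527) (.two (nat_lit 1048576) (nat_lit 35651838) (.one (nat_lit 1050362) .nil)),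
   .two (nat_lit 157036838917) (nat_lit 2365587585) (.one (nat_lit 9948889806) .nil),
   .two (nat_lit 13195280389) (nat_lit 16777224) (.two (nat_lit 41943041) (nat_lit 218103823) (.two (nat_lit 4194304) (nat_lit 19537068148) (.one (nat_lit 16778390) .nil))),
   .two (nat_lit 605028357) (nat_lit 19530776584) (.two (nat_lit 9768534017) (nat_lit 605028470) (.one (nat_lit 1050364) .nil)),
   .two (nat_lit 11543773189) (nat_lit 1212153869) (.two (nat_lit 8388609) (nat_lit 21777874968) (.two (nat_lit 8388608) (nat_lit 9802088569) (.one (nat_lit 4196093) .nil))),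
   .two (nat_lit 9948889093) (nat_lit 2889875523) (.one (nat_lit 4195023) .nil),
   .two (nat_lit 2956984325) (nat_lit 19530776591) (.two (nat_lit 1048576) (nat_lit 35651878) (.one (nat_lit 8390398) .nil)),
   .two (nat_lit 34603013) (nat_lit 3573547033) (.two (nat_lit 2097152) (nat_lit 28690088185) (.one (nat_lit 16778391) .nil)),
   .two (nat_lit 3472883717) (nat_lit 75497539) (.one (nat_lit 713032346) .nil),
   .two (nat_lit 159216828421) (nat_lit 740294775) (.one (nat_lit 740295312) .nil),
   .two (nat_lit 16777220) (nat_lit 158083317768) (.two (nat_lit 34603009) (nat_lit 158150426742) (.one (nat_lit 8390399) .nil)),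
   .two (nat_lit 1914699781) (nat_lit 1413480579) (.one (nat_lit 20707279507) .nil),
   .two (nat_lit 169869316) (nat_lit 21785214988) (.two (nat_lit 8388609) (nat_lit 165526110897) .nil),
   .two (nat_lit 2097157) (nat_lit 721420296) (.two (nat_lit 50331649) (nat_lit 13188989052) (.one (nat_lit 1050371) .nil)),
   .two (nat_lit 16777220) (nat_lit 10336862253) (.two (nat_lit 16777216) (nat_lit 37314625823) (.one (nat_lit 16779012) .nil)),
   .two (nat_lit 1291845637) (nat_lit 343932995) (.one (nat_lit 11618222438) .nil),
   .two (nat_lit 184986632197) (nat_lit 3539992701) (.one (nat_lit 19042141318) .nil),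
   .two (nat_lit 2954887173) (nat_lit 19599982600) (.two (nat_lit 37748737) (nat_lit 203423759) (.two (nat_lit 2097152) (nat_lit 2319450397) (.one (nat_lit 10003416184) .nil))),
   .two (nat_lit 272629765) (nat_lit 654311436) (.two (nat_lit 50331649) (nat_lit 19130221184) .nil),
   .two (nat_lit 158150426629) (nat_lit 318767128) (.two (nat_lit 4194304) (nat_lit 28705816828) (.one (nat_lit 16778395) .nil)),
   .two (nat_lit 50331653) (nat_lit 1913651213) (.two (nat_lit 8388609) (nat_lit 50331663) (.two (nat_lit 8388608) (nat_lit 156465365113) (.one (nat_lit 873465582) .nil))),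
   .two (nat_lit 2902458373) (nat_lit 9768534031) (.two (nat_lit 8388608) (nat_lit 165525061753) (.one (nat_lit 1050374) .nil)),
   .two (nat_lit 16777220) (nat_lit 21777874952) (.two (nat_lit 50331649) (nat_lit 1049105) (.one (nat_lit 1050375) .nil)),
   .two (nat_lit 12117344261) (nat_lit 1344274446) (.two (nat_lit 2097153) (nat_lit 205521166) (.one (nat_lit 3460301478) .nil)),
   .two (nat_lit 638582789) (nat_lit 158144135183) (.two (nat_lit 1048576) (nat_lit 2921333030) (.one (nat_lit 2098952) .nil)),
   .two (nat_lit 9948889093) (nat_lit 11010048129) (.one (nat_lit 4196105) .nil),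
   .two (nat_lit 169869316) (nat_lit 3464495170) (.one (nat_lit 8390410) .nil),
   .two (nat_lit 10503585797) (nat_lit 19029557369) (.one (nat_lit 1050379) .nil),
   .two (nat_lit 8388613) (nat_lit 4613734408) (.two (nat_lit 612368385) (nat_lit 156465365113) (.one (nat_lit 11610883127) .nil)),
   .two (nat_lit 1291845637) (nat_lit 159224168494) (.two (nat_lit 16777216) (nat_lit 9940500752) (.one (nat_lit 8390412) .nil)),
   .two (nat_lit 1916796933) (nat_lit 855638040) (.two (nat_lit 4194304) (nat_lit 3003121942) (.one (nat_lit 16778397) .nil)),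
   .two (nat_lit 169869316) (nat_lit 158083317775) (.two (nat_lit 2097152) (nat_lit 11513364736) (.one (nat_lit 158077028073) .nil)),
   .two (nat_lit 2097157) (nat_lit 1795162125) (.two (nat_lit 34603009) (nat_lit 21793603888) (.one (nat_lit 16779021) .nil)),
   .two (nat_lit 184549381) (nat_lit 19096666125) (.two (nat_lit 16777217) (nat_lit 10372513892) (.two (nat_lit 8388608) (nat_lit 138412267) (.one (nat_lit 4196110) .nil))),
   .two (nat_lit 809500677) (nat_lit 209715328) (.one (nat_lit 2098959) .nil),
   .two (nat_lit 171966469) (nat_lit 10504634408) (.two (nat_lit 1048576) (nat_lit 2988441858) (.one (nat_lit 1050384) .nil)),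
   .two (nat_lit 28093448197) (nat_lit 4194439) (.one (nat_lit 2923430608) .nil),
   .two (nat_lit 4194308) (nat_lit 184416206863) (.two (nat_lit 4194304) (nat_lit 158075977846) (.one (nat_lit 11543773814) .nil)),
   .two (nat_lit 4194308) (nat_lit 218103823) (.two (nat_lit 2097152) (nat_lit 4601151778) (.one (nat_lit 4196113) .nil)),
   .two (nat_lit 11546918917) (nat_lit 21207449608) (.two (nat_lit 606076929) (nat_lit 9902751786) (.two (nat_lit 2097152) (nat_lit 46406828290) (.one (nat_lit 1050386) .nil))),
   .two (nat_lit 2889875460) (nat_lit 11477712910) (.two (nat_lit 50331649) (nat_lit 47550824576) (.one (nat_lit 2098963) .nil)),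
   .two (nat_lit 16777220) (nat_lit 3527409679) (.two (nat_lit 4194304) (nat_lit 184549443) (.one (nat_lit 156548203571) .nil)),
   .two (nat_lit 75497477) (nat_lit 47548727311) (.two (nat_lit 8388608) (nat_lit 12618563878) (.one (nat_lit 4196116) .nil)),
   .two (nat_lit 184549381) (nat_lit 272629775) (.two (nat_lit 16777216) (nat_lit 138412310) (.one (nat_lit 13224641135) .nil)),
   .two (nat_lit 117440517) (nat_lit 739246147) (.one (nat_lit 12148802218) .nil),
   .two (nat_lit 11543773189) (nat_lit 10909384717) (.two (nat_lit 16777217) (nat_lit 157038936185) (.one (nat_lit 4196117) .nil)),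
   .two (nat_lit 705691652) (nat_lit 1916796936) (.two (nat_lit 34603009) (nat_lit 843055128) (.two (nat_lit 1048576) (nat_lit 28793897245) (.one (nat_lit 4196118) .nil))),
   .two (nat_lit 4194308) (nat_lit 1846542359) (.two (nat_lit 8388608) (nat_lit 183949591695) .nil),
   .two (nat_lit 8388612) (nat_lit 47596961805) (.two (nat_lit 16777217) (nat_lit 46481277054) (.one (nat_lit 21811431077) .nil)),
   .two (nat_lit 4194308) (nat_lit 10504634383) (.two (nat_lit 4194304) (nat_lit 166230753418) (.one (nat_lit 2921333355) .nil)),
   .two (nat_lit 2097157) (nat_lit 612368399) (.two (nat_lit 1048576) (nat_lit 158647451938) (.one (nat_lit 2098968) .nil)),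
   .two (nat_lit 46409973765) (nat_lit 156372041736) (.two (nat_lit 4194305) (nat_lit 156372041743) (.two (nat_lit 4194304) (nat_lit 1317011588) (.one (nat_lit 880804244) .nil))),
   .two (nat_lit 11546918917) (nat_lit 1745879047) (.two (nat_lit 18925748227) (nat_lit 742391816) (.two (nat_lit 156364701697) (nat_lit 1916796943) (.two (nat_lit 1048576) (nat_lit 46409973879) (.one (nat_lit 1413480649) .nil)))),
   .two (nat_lit 2887778308) (nat_lit 620756999) (.two (nat_lit 620756995) (nat_lit 3525312520) (.two (nat_lit 620756993) (nat_lit 639631375) (.two (nat_lit 16777216) (nat_lit 184987680842) (.one (nat_lit 2887778507) .nil)))),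
   .two (nat_lit 183845781508) (nat_lit 117440520) (.two (nat_lit 34603009) (nat_lit 117440527) (.two (nat_lit 1048576) (nat_lit 754974830) (.one (nat_lit 21827158390) .nil))),
   .two (nat_lit 13187940357) (nat_lit 21785214983) (.two (nat_lit 75497475) (nat_lit 183845781512) (.two (nat_lit 612368385) (nat_lit 19596836879) (.two (nat_lit 8388608) (nat_lit 9866051703) (.one (nat_lit 1048777) .nil)))),
   .two (nat_lit 4194308) (nat_lit 28758245383) (.two (nat_lit 4194307) (nat_lit 28758245384) (.two (nat_lit 4194305) (nat_lit 11511267370) (.two (nat_lit 4194304) (nat_lit 46407876869) (.one (nat_lit 2097879) .nil)))),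
   .two (nat_lit 4605345797) (nat_lit 21814575118) (.two (nat_lit 156367847425) (nat_lit 1779433487) (.two (nat_lit 8388608) (nat_lit 1379926149) (.one (nat_lit 8390425) .nil))),
   .two (nat_lit 8388612) (nat_lit 21210595342) (.two (nat_lit 4194305) (nat_lit 166197198872) (.two (nat_lit 8388608) (nat_lit 4194606) (.one (nat_lit 4196122) .nil))),
   .two (nat_lit 184993972229) (nat_lit 21777874951) (.two (nat_lit 68157443) (nat_lit 12054429704) (.two (nat_lit 605028353) (nat_lit 18933088271) (.two (nat_lit 1048576) (nat_lit 1786773587) (.one (nat_lit 310378870) .nil)))),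
   .two (nat_lit 3531603973) (nat_lit 809500679) (.two (nat_lit 37748739) (nat_lit 46984593416) (.two (nat_lit 37748737) (nat_lit 10343153679) (.two (nat_lit 4194304) (nat_lit 713031799) (.one (nat_lit 9772728521) .nil)))),
   .two (nat_lit 156367847429) (nat_lit 28758245383) (.two (nat_lit 156367847427) (nat_lit 28758245384) (.two (nat_lit 156367847425) (nat_lit 2921332778) (.two (nat_lit 4194304) (nat_lit 156567076952) (.one (nat_lit 2098375) .nil)))),
   .two (nat_lit 4194308) (nat_lit 156372041735) (.two (nat_lit 156372041731) (nat_lit 4601151496) (.two (nat_lit 156372041729) (nat_lit 4601151503) (.two (nat_lit 8388608) (nat_lit 156468510839) (.one (nat_lit 21814575305) .nil)))),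
   .two (nat_lit 165526110213) (nat_lit 166196150285) (.two (nat_lit 2097153) (nat_lit 9765388338) (.two (nat_lit 2097152) (nat_lit 1048748) (.one (nat_lit 2098376) .nil))),
   .two (nat_lit 4194308) (nat_lit 8388615) (.two (nat_lit 8388611) (nat_lit 272629768) (.two (nat_lit 8388609) (nat_lit 306184209) (.two (nat_lit 8388608) (nat_lit 876610055) (.one (nat_lit 4195531) .nil)))),
   .two (nat_lit 50331653) (nat_lit 8388615) (.two (nat_lit 8388611) (nat_lit 721420296) (.two (nat_lit 8388609) (nat_lit 721420303) (.two (nat_lit 8388608) (nat_lit 50331683) (.one (nat_lit 16777677) .nil)))),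
   .two (nat_lit 156367847429) (nat_lit 4605345800) (.two (nat_lit 37748737) (nat_lit 4605345807) (.two (nat_lit 4194304) (nat_lit 46414168099) (.one (nat_lit 18933088717) .nil))),
   .two (nat_lit 183845781508) (nat_lit 117440519) (.two (nat_lit 183845781507) (nat_lit 117440524) (.two (nat_lit 34603009) (nat_lit 12129927217) (.two (nat_lit 1048576) (nat_lit 285212971) (.one (nat_lit 10921968838) .nil)))),
   .two (nat_lit 9768534021) (nat_lit 156372041735) (.two (nat_lit 183848927235) (nat_lit 156372041740) (.two (nat_lit 37748737) (nat_lit 10343153704) (.two (nat_lit 4194304) (nat_lit 19604177170) (.one (nat_lit 8389446) .nil)))),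
   .two (nat_lit 11492392968) (nat_lit 1913651215) (.two (nat_lit 34603009) (nat_lit 183962173506) (.two (nat_lit 16777216) (nat_lit 13187941630) .nil)),
   .two (nat_lit 156367847432) (nat_lit 165532401690) (.two (nat_lit 4194305) (nat_lit 19545457225) (.one (nat_lit 4196154) .nil)),
   .two (nat_lit 813694984) (nat_lit 156968681485) (.two (nat_lit 2097157) (nat_lit 4605345807) (.two (nat_lit 16777217) (nat_lit 9765388892) (.one (nat_lit 1050427) .nil))),
   .two (nat_lit 11577327629) (nat_lit 2097166) (.two (nat_lit 184986632197) (nat_lit 166130090105) (.two (nat_lit 1048576) (nat_lit 2097762) (.one (nat_lit 1745879881) .nil))),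
   .two (nat_lit 169869320) (nat_lit 11010048026) (.two (nat_lit 2097153) (nat_lit 159216828528) (.two (nat_lit 2097152) (nat_lit 156364702289) (.one (nat_lit 2098451) .nil))),
   .two (nat_lit 101711880) (nat_lit 13203669000) (.two (nat_lit 16777220) (nat_lit 101711887) (.two (nat_lit 16777217) (nat_lit 12147753069) (.two (nat_lit 16777216) (nat_lit 1049188) (.one (nat_lit 807405349) .nil)))),
   .two (nat_lit 4194312) (nat_lit 318767127) (.two (nat_lit 4194305) (nat_lit 772800755) (.two (nat_lit 4194304) (nat_lit 16777829) (.one (nat_lit 16779068) .nil))),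
   .two (nat_lit 9934209032) (nat_lit 3460300808) (.two (nat_lit 605028357) (nat_lit 1277165583) (.two (nat_lit 2097153) (nat_lit 4634706030) (.two (nat_lit 1048576) (nat_lit 184419353167) (.one (nat_lit 1779434761) .nil)))),
   .two (nat_lit 620757000) (nat_lit 205520904) (.two (nat_lit 2956984325) (nat_lit 620757007) (.two (nat_lit 4194305) (nat_lit 158158815355) (.two (nat_lit 1048576) (nat_lit 205521485) (.one (nat_lit 4196157) .nil)))),
   .two (nat_lit 713031688) (nat_lit 156365750287) (.two (nat_lit 16777217) (nat_lit 158183981174) (.two (nat_lit 16777216) (nat_lit 2097766) (.one (nat_lit 8390462) .nil))),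
   .two (nat_lit 713031688) (nat_lit 19599982600) (.two (nat_lit 41943045) (nat_lit 11513364503) (.two (nat_lit 41943041) (nat_lit 166132187243) (.two (nat_lit 8388608) (nat_lit 4194919) (.one (nat_lit 10947134687) .nil)))),
   .two (nat_lit 9768534024) (nat_lit 1753219096) (.two (nat_lit 4194305) (nat_lit 21785215554) (.one (nat_lit 8390463) .nil)),
   .two (nat_lit 169869320) (nat_lit 157038936079) (.two (nat_lit 2097153) (nat_lit 12050235515) (.two (nat_lit 2097152) (nat_lit 4195346) (.one (nat_lit 2099008) .nil))),
   .two (nat_lit 16777224) (nat_lit 809500680) (.two (nat_lit 4194308) (nat_lit 16777231) (.two (nat_lit 50331649) (nat_lit 9902751863) (.two (nat_lit 8388608) (nat_lit 71304453) .nil))),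
   .two (nat_lit 612368392) (nat_lit 9799991310) (.two (nat_lit 171966469) (nat_lit 612368399) (.two (nat_lit 4194305) (nat_lit 46978302069) (.two (nat_lit 1048576) (nat_lit 10001319166) .nil))),
   .two (nat_lit 2954887176) (nat_lit 50331660) (.two (nat_lit 822083589) (nat_lit 159217877007) (.two (nat_lit 50331649) (nat_lit 2988441665) (.two (nat_lit 16777216) (nat_lit 2988441791) (.one (nat_lit 2098453) .nil)))),
   .two (nat_lit 809500680) (nat_lit 10335813644) (.two (nat_lit 184549380) (nat_lit 705691761) (.two (nat_lit 16777216) (nat_lit 9933161064) (.one (nat_lit 1050433) .nil))),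
   .two (nat_lit 4194312) (nat_lit 612368392) (.two (nat_lit 4194308) (nat_lit 3028287513) (.two (nat_lit 8388609) (nat_lit 843055211) (.two (nat_lit 8388608) (nat_lit 4194922) (.one (nat_lit 8390466) .nil)))),
   .two (nat_lit 276824072) (nat_lit 10336862223) (.two (nat_lit 8388609) (nat_lit 236978286) (.two (nat_lit 1048576) (nat_lit 2097771) (.one (nat_lit 1050435) .nil))),
   .two (nat_lit 620757000) (nat_lit 34603021) (.two (nat_lit 2097157) (nat_lit 10338959375) (.two (nat_lit 2097153) (nat_lit 159216828483) (.two (nat_lit 1048576) (nat_lit 158079123814) (.one (nat_lit 4196165) .nil)))),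
   .two (nat_lit 809500680) (nat_lit 46978301960) (.two (nat_lit 3525312517) (nat_lit 809500687) (.two (nat_lit 4194305) (nat_lit 166230753846) (.one (nat_lit 2099014) .nil))),
   .two (nat_lit 2887778312) (nat_lit 157043130376) (.two (nat_lit 9781116933) (nat_lit 11476664386) (.two (nat_lit 16777216) (nat_lit 46507491686) (.one (nat_lit 176162630) .nil))),
   .two (nat_lit 8388616) (nat_lit 46407876616) (.two (nat_lit 176160772) (nat_lit 28691136535) (.two (nat_lit 34603009) (nat_lit 2418016374) (.two (nat_lit 1048576) (nat_lit 10538189413) (.one (nat_lit 9765389587) .nil)))),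
   .two (nat_lit 10343153672) (nat_lit 822083596) (.two (nat_lit 50331653) (nat_lit 18933088368) (.two (nat_lit 8388608) (nat_lit 1191182910) (.one (nat_lit 16779079) .nil))),
   .two (nat_lit 705691656) (nat_lit 4605345800) (.two (nat_lit 2954887173) (nat_lit 1846542359) (.two (nat_lit 16777217) (nat_lit 11476664385) (.two (nat_lit 16777216) (nat_lit 3021996634) (.one (nat_lit 2099016) .nil)))),
   .two (nat_lit 272629768) (nat_lit 184549402) (.two (nat_lit 16777217) (nat_lit 306184300) (.two (nat_lit 1048576) (nat_lit 4194926) (.one (nat_lit 1050441) .nil))),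
   .two (nat_lit 169869320) (nat_lit 13195280399) (.two (nat_lit 8388609) (nat_lit 1780482171) (.two (nat_lit 16777216) (nat_lit 19596838153) .nil)),
   .two (nat_lit 705691656) (nat_lit 13195280399) (.two (nat_lit 8388609) (nat_lit 158176641142) (.two (nat_lit 8388608) (nat_lit 2098195) (.one (nat_lit 2099019) .nil))),
   .two (nat_lit 184419352584) (nat_lit 21777874952) (.two (nat_lit 705691652) (nat_lit 156971827267) (.two (nat_lit 1048576) (nat_lit 156971827765) (.one (nat_lit 4196173) .nil))),
   .two (nat_lit 11543773192) (nat_lit 9802088460) (.two (nat_lit 157038936069) (nat_lit 11543773199) (.two (nat_lit 34603009) (nat_lit 2923429953) (.two (nat_lit 4194304) (nat_lit 101712477) (.one (nat_lit 4196174) .nil)))),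
   .two (nat_lit 9881780232) (nat_lit 3458203663) (.two (nat_lit 2097153) (nat_lit 1795162234) (.two (nat_lit 1048576) (nat_lit 28772926025) (.one (nat_lit 2099023) .nil))),
   .two (nat_lit 10336862216) (nat_lit 1376780300) (.two (nat_lit 1343225861) (nat_lit 10336862223) (.two (nat_lit 8388609) (nat_lit 159250383208) (.one (nat_lit 2099024) .nil))),
   .two (nat_lit 620757000) (nat_lit 9768534031) (.two (nat_lit 16777217) (nat_lit 1849688187) (.two (nat_lit 16777216) (nat_lit 608174692) (.one (nat_lit 1050449) .nil))),
   .two (nat_lit 739246088) (nat_lit 28691136520) (.two (nat_lit 11543773189) (nat_lit 166130089999) (.two (nat_lit 156365750273) (nat_lit 174752530549) (.two (nat_lit 1048576) (nat_lit 11551113807) (.one (nat_lit 1050450) .nil)))),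
   .two (nat_lit 739246088) (nat_lit 156367847439) (.two (nat_lit 34603009) (nat_lit 306184259) (.two (nat_lit 4194304) (nat_lit 101712477) (.one (nat_lit 1050451) .nil))),
   .two (nat_lit 11492392968) (nat_lit 183846830094) (.two (nat_lit 50331653) (nat_lit 183853121551) (.two (nat_lit 37748737) (nat_lit 10370416999) (.one (nat_lit 2099028) .nil))),
   .two (nat_lit 11492392968) (nat_lit 183848927247) (.two (nat_lit 37748737) (nat_lit 721420395) (.two (nat_lit 4194304) (nat_lit 157051519566) (.one (nat_lit 272631012) .nil))),
   .two (nat_lit 276824072) (nat_lit 156365750287) (.two (nat_lit 8388609) (nat_lit 11510219109) (.one (nat_lit 1050453) .nil)),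
   .two (nat_lit 169869320) (nat_lit 41943048) (.two (nat_lit 169869316) (nat_lit 19127074857) (.two (nat_lit 16777217) (nat_lit 28757197160) (.one (nat_lit 2099030) .nil))),
   .two (nat_lit 2969567240) (nat_lit 1343225871) (.two (nat_lit 16777217) (nat_lit 21811429487) (.two (nat_lit 16777216) (nat_lit 1376780865) (.one (nat_lit 1050455) .nil))),
   .two (nat_lit 739246088) (nat_lit 10544480270) (.two (nat_lit 184993972229) (nat_lit 739246095) (.two (nat_lit 8388609) (nat_lit 3558867010) (.two (nat_lit 16777216) (nat_lit 3458204007) (.one (nat_lit 2099032) .nil)))),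
   .two (nat_lit 2923429901) (nat_lit 1377828878) (.two (nat_lit 2889875461) (nat_lit 639631481) (.two (nat_lit 2097152) (nat_lit 4194928) (.one (nat_lit 608175350) .nil))),
   .two (nat_lit 169869320) (nat_lit 822083599) (.two (nat_lit 16777217) (nat_lit 28087156859) (.two (nat_lit 1048576) (nat_lit 4632609361) (.one (nat_lit 11476665598) .nil))),
   .two (nat_lit 8388616) (nat_lit 1309671450) (.two (nat_lit 41943041) (nat_lit 336593013) (.two (nat_lit 8388608) (nat_lit 1049203) (.one (nat_lit 3557820215) .nil))),
   .two (nat_lit 2961178632) (nat_lit 20738736151) (.two (nat_lit 605028353) (nat_lit 166230753904) (.one (nat_lit 2099033) .nil)),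
   .two (nat_lit 4194312) (nat_lit 156365750287) (.two (nat_lit 4194305) (nat_lit 13187940419) (.two (nat_lit 4194304) (nat_lit 1746928209) (.one (nat_lit 1050458) .nil))),
   .two (nat_lit 8388616) (nat_lit 10336862216) (.two (nat_lit 176160772) (nat_lit 639631375) (.two (nat_lit 2097153) (nat_lit 8388672) (.two (nat_lit 8388608) (nat_lit 2097780) (.one (nat_lit 4599055178) .nil)))),
   .two (nat_lit 50331656) (nat_lit 9766436879) (.two (nat_lit 8388609) (nat_lit 46489666125) (.one (nat_lit 16779099) .nil)),
   .two (nat_lit 1343225864) (nat_lit 19532873743) (.two (nat_lit 34603009) (nat_lit 3527409855) (.one (nat_lit 4195612) .nil)),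
   .two (nat_lit 184549384) (nat_lit 20638072845) (.two (nat_lit 69206021) (nat_lit 184549391) (.two (nat_lit 2097153) (nat_lit 156367847536) (.two (nat_lit 2097152) (nat_lit 11626611046) (.one (nat_lit 4196188) .nil)))),
   .two (nat_lit 276824072) (nat_lit 157036838920) (.two (nat_lit 34603013) (nat_lit 184423546904) (.two (nat_lit 8388609) (nat_lit 1376780409) (.two (nat_lit 8388608) (nat_lit 2098196) (.one (nat_lit 2098462) .nil)))),
   .two (nat_lit 606076936) (nat_lit 9798942732) (.two (nat_lit 21778923525) (nat_lit 11510218777) (.two (nat_lit 37748737) (nat_lit 3458204010) (.one (nat_lit 1050462) .nil))),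
   .two (nat_lit 11479810056) (nat_lit 156372041741) (.two (nat_lit 809500677) (nat_lit 13195280424) (.two (nat_lit 37748737) (nat_lit 37320917117) (.two (nat_lit 4194304) (nat_lit 8389237) (.one (nat_lit 4601152740) .nil)))),
   .two (nat_lit 75497480) (nat_lit 13191086088) (.two (nat_lit 4194308) (nat_lit 21785214991) (.two (nat_lit 41943041) (nat_lit 28693234229) (.one (nat_lit 4196191) .nil))),
   .two (nat_lit 705691656) (nat_lit 13195280399) (.two (nat_lit 8388609) (nat_lit 10000269430) (.two (nat_lit 8388608) (nat_lit 10538189426) (.one (nat_lit 2099040) .nil))),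
   .two (nat_lit 2954887176) (nat_lit 9802088460) (.two (nat_lit 28760342533) (nat_lit 159217877007) (.two (nat_lit 2097153) (nat_lit 11513364545) (.two (nat_lit 8388608) (nat_lit 4601151846) (.one (nat_lit 2098463) .nil)))),
   .two (nat_lit 176160776) (nat_lit 46409973768) (.two (nat_lit 75497477) (nat_lit 18928894070) (.two (nat_lit 8388608) (nat_lit 4194667) (.one (nat_lit 2889876297) .nil))),
   .two (nat_lit 1913651208) (nat_lit 19027460119) (.two (nat_lit 34603009) (nat_lit 156466414192) (.one (nat_lit 2099041) .nil)),
   .two (nat_lit 809500680) (nat_lit 47563407368) (.two (nat_lit 184549381) (nat_lit 809500687) (.two (nat_lit 16777217) (nat_lit 12050235515) (.two (nat_lit 16777216) (nat_lit 4194934) (.one (nat_lit 1050466) .nil)))),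
   .two (nat_lit 813694984) (nat_lit 18925748232) (.two (nat_lit 285212677) (nat_lit 806355011) (.two (nat_lit 16777216) (nat_lit 12114198890) (.one (nat_lit 2099043) .nil))),
   .two (nat_lit 2889875464) (nat_lit 13195280392) (.two (nat_lit 8388612) (nat_lit 2889875471) (.two (nat_lit 4194305) (nat_lit 41943627) (.one (nat_lit 4195616) .nil))),
   .two (nat_lit 12114198536) (nat_lit 18933088264) (.two (nat_lit 11476664324) (nat_lit 19604176920) (.two (nat_lit 9768534017) (nat_lit 46507491912) (.one (nat_lit 1049889) .nil))),
   .two (nat_lit 1277165576) (nat_lit 10338959375) (.two (nat_lit 16777217) (nat_lit 1948254326) (.two (nat_lit 8388608) (nat_lit 2956984934) (.one (nat_lit 2099044) .nil))),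
   .two (nat_lit 68157448) (nat_lit 159224168463) (.two (nat_lit 4194305) (nat_lit 46507491452) (.two (nat_lit 8388608) (nat_lit 4195349) (.one (nat_lit 4196197) .nil))),
   .two (nat_lit 4605345800) (nat_lit 772800579) (.two (nat_lit 8388608) (nat_lit 166229705064) (.one (nat_lit 183946446637) .nil)),
   .two (nat_lit 4194312) (nat_lit 10504634376) (.two (nat_lit 4194308) (nat_lit 1947205756) (.two (nat_lit 4194304) (nat_lit 1049622) (.one (nat_lit 1050470) .nil))),
   .two (nat_lit 2902458376) (nat_lit 11476664335) (.two (nat_lit 16777217) (nat_lit 158075977845) (.two (nat_lit 16777216) (nat_lit 20705182281) (.one (nat_lit 2099047) .nil))),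
   .two (nat_lit 47548727304) (nat_lit 9802088460) (.two (nat_lit 28760342533) (nat_lit 3458203715) (.two (nat_lit 8388608) (nat_lit 136316147) .nil)),
   .two (nat_lit 11551113224) (nat_lit 1749024792) (.two (nat_lit 41943041) (nat_lit 28087156846) (.two (nat_lit 8388608) (nat_lit 2418016849) (.one (nat_lit 4196200) .nil))),
   .two (nat_lit 620757000) (nat_lit 159251431436) (.two (nat_lit 159217876997) (nat_lit 165525061647) (.two (nat_lit 605028353) (nat_lit 1746927731) (.two (nat_lit 1048576) (nat_lit 2988442209) (.one (nat_lit 2099049) .nil)))),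
   .two (nat_lit 203423752) (nat_lit 18928893967) (.two (nat_lit 2097153) (nat_lit 843055171) (.two (nat_lit 4194304) (nat_lit 4599054964) (.one (nat_lit 4196133) .nil))),
   .two (nat_lit 3525312520) (nat_lit 75497485) (.two (nat_lit 1283457029) (nat_lit 639631375) (.two (nat_lit 9768534017) (nat_lit 46407877197) (.one (nat_lit 11007952668) .nil))),
   .two (nat_lit 169869320) (nat_lit 4605345807) (.two (nat_lit 8388609) (nat_lit 2416967801) (.two (nat_lit 1048576) (nat_lit 679477833) (.one (nat_lit 158176642899) .nil))),
   .two (nat_lit 276824072) (nat_lit 4028629016) (.two (nat_lit 8388609) (nat_lit 185020186871) (.two (nat_lit 1048576) (nat_lit 46407877230) (.one (nat_lit 1050474) .nil))),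
   .two (nat_lit 4194312) (nat_lit 10504634383) (.two (nat_lit 4194305) (nat_lit 166130090099) (.two (nat_lit 1048576) (nat_lit 1277166154) (.one (nat_lit 1050475) .nil))),
   .two (nat_lit 184416206856) (nat_lit 620757004) (.two (nat_lit 9948889093) (nat_lit 183845781530) (.two (nat_lit 34603009) (nat_lit 184549441) (.two (nat_lit 8388608) (nat_lit 158662132072) (.one (nat_lit 1050476) .nil)))),
   .two (nat_lit 739246088) (nat_lit 156367847439) (.two (nat_lit 4194305) (nat_lit 28690088054) (.two (nat_lit 4194304) (nat_lit 185020186986) (.one (nat_lit 708838643) .nil))),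
   .two (nat_lit 16777224) (nat_lit 1175453704) (.two (nat_lit 184549381) (nat_lit 12114198543) (.two (nat_lit 8388609) (nat_lit 101712457) (.one (nat_lit 1050477) .nil))),
   .two (nat_lit 620757000) (nat_lit 11577327639) (.two (nat_lit 16777217) (nat_lit 2920284279) (.two (nat_lit 16777216) (nat_lit 202375795) (.one (nat_lit 1050479) .nil))),
   .two (nat_lit 169869320) (nat_lit 285212680) (.two (nat_lit 16777220) (nat_lit 705691663) (.two (nat_lit 605028353) (nat_lit 1325400183) (.two (nat_lit 16777216) (nat_lit 1049208) (.one (nat_lit 16779120) .nil)))),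
   .two (nat_lit 13195280392) (nat_lit 156365750280) (.two (nat_lit 8388612) (nat_lit 157036838927) (.two (nat_lit 8388609) (nat_lit 157036839103) (.one (nat_lit 2099057) .nil))),
   .two (nat_lit 13195280392) (nat_lit 183913938958) (.two (nat_lit 2097157) (nat_lit 13195280399) (.two (nat_lit 8388609) (nat_lit 46474985537) (.two (nat_lit 1048576) (nat_lit 2098199) (.one (nat_lit 2099058) .nil)))),
   .two (nat_lit 1780482056) (nat_lit 156367847439) (.two (nat_lit 4194305) (nat_lit 12115247221) (.two (nat_lit 8388608) (nat_lit 184987681363) (.one (nat_lit 4196211) .nil))),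
   .two (nat_lit 1175453704) (nat_lit 46409973775) (.two (nat_lit 8388609) (nat_lit 13221495144) (.one (nat_lit 1050484) .nil)),
   .two (nat_lit 4194312) (nat_lit 157036838927) (.two (nat_lit 4194305) (nat_lit 28087156859) (.two (nat_lit 4194304) (nat_lit 13222543972) (.one (nat_lit 1050485) .nil))),
   .two (nat_lit 713031688) (nat_lit 13191086095) (.two (nat_lit 41943041) (nat_lit 11513364587) (.two (nat_lit 8388608) (nat_lit 4194937) (.one (nat_lit 8389924) .nil))),
   .two (nat_lit 4194312) (nat_lit 156365750287) (.two (nat_lit 4194305) (nat_lit 174752530792) (.one (nat_lit 1050486) .nil)),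
   .two (nat_lit 4605345800) (nat_lit 12047089679) (.two (nat_lit 41943041) (nat_lit 772800577) (.two (nat_lit 8388608) (nat_lit 705692268) (.one (nat_lit 1050487) .nil))),
   .two (nat_lit 2954887176) (nat_lit 156968681487) (.two (nat_lit 2097153) (nat_lit 156465365057) (.two (nat_lit 2097152) (nat_lit 183912890559) (.one (nat_lit 1050488) .nil))),
   .two (nat_lit 37748744) (nat_lit 184993972239) (.two (nat_lit 606076929) (nat_lit 46510637177) (.two (nat_lit 2097152) (nat_lit 28093448778) (.one (nat_lit 4196217) .nil))),
   .two (nat_lit 75497480) (nat_lit 19599982604) (.two (nat_lit 713031684) (nat_lit 1950351404) (.two (nat_lit 4194305) (nat_lit 10544480387) (.two (nat_lit 8388608) (nat_lit 166132187498) (.one (nat_lit 1212155695) .nil)))),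
   .two (nat_lit 176160776) (nat_lit 1847590927) (.two (nat_lit 8388609) (nat_lit 19027460207) (.two (nat_lit 2097152) (nat_lit 183853122116) (.one (nat_lit 8389949) .nil))),
   .two (nat_lit 3527409672) (nat_lit 11577327628) (.two (nat_lit 11543773189) (nat_lit 46510637080) (.two (nat_lit 4194305) (nat_lit 185020186738) (.two (nat_lit 4194304) (nat_lit 1376780862) (.one (nat_lit 1050583) .nil)))),
   .two (nat_lit 11492392968) (nat_lit 158144135180) (.two (nat_lit 11492392964) (nat_lit 1310720040) (.two (nat_lit 2097153) (nat_lit 28101836930) (.two (nat_lit 16777216) (nat_lit 69206375) (.one (nat_lit 2099160) .nil)))),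
   .two (nat_lit 4194312) (nat_lit 156365750287) (.two (nat_lit 4194305) (nat_lit 4598006118) (.one (nat_lit 839911303) .nil)),
   .two (nat_lit 10336862216) (nat_lit 47596961805) (.two (nat_lit 2969567237) (nat_lit 10336862223) (.two (nat_lit 2097153) (nat_lit 4613734762) (.one (nat_lit 37313578280) .nil))),
   .two (nat_lit 713031688) (nat_lit 1291845647) (.two (nat_lit 620756993) (nat_lit 11618222145) (.two (nat_lit 16777216) (nat_lit 12054430802) (.one (nat_lit 243271489) .nil))),
   .two (nat_lit 2902458376) (nat_lit 10504634383) (.two (nat_lit 2097153) (nat_lit 159266112093) (.one (nat_lit 156548203752) .nil)),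
   .two (nat_lit 654311432) (nat_lit 46473936910) (.two (nat_lit 34603013) (nat_lit 218103921) (.two (nat_lit 2097152) (nat_lit 889193089) (.one (nat_lit 1050585) .nil))),
   .two (nat_lit 1779433480) (nat_lit 28758245443) (.two (nat_lit 1048576) (nat_lit 3458204729) (.one (nat_lit 158144137067) .nil)),
   .two (nat_lit 183853121544) (nat_lit 184419352591) (.two (nat_lit 37748737) (nat_lit 10913579305) (.two (nat_lit 4194304) (nat_lit 10947134029) (.one (nat_lit 1216350043) .nil))),
   .two (nat_lit 1276117000) (nat_lit 159251431448) (.two (nat_lit 2097153) (nat_lit 184989778604) (.one (nat_lit 2099162) .nil)),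
   .two (nat_lit 620757000) (nat_lit 9866051599) (.two (nat_lit 620756993) (nat_lit 158176641131) (.two (nat_lit 16777216) (nat_lit 19127075436) (.one (nat_lit 620758243) .nil))),
   .two (nat_lit 11479810056) (nat_lit 46414168079) (.two (nat_lit 37748737) (nat_lit 183953784966) (.two (nat_lit 2097152) (nat_lit 19100861490) (.one (nat_lit 4196245) .nil))),
   .two (nat_lit 8388616) (nat_lit 807403534) (.two (nat_lit 1746927621) (nat_lit 4605345858) (.two (nat_lit 2097152) (nat_lit 21214790278) (.one (nat_lit 2099089) .nil))),
   .two (nat_lit 713031688) (nat_lit 1358954511) (.two (nat_lit 50331649) (nat_lit 2424308318) (.one (nat_lit 8390620) .nil)),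
   .two (nat_lit 2954887176) (nat_lit 20637024264) (.two (nat_lit 708837381) (nat_lit 11577327656) (.two (nat_lit 2097153) (nat_lit 135266422) (.two (nat_lit 2097152) (nat_lit 205521487) (.one (nat_lit 2099165) .nil)))),
   .two (nat_lit 276824072) (nat_lit 174753579023) (.two (nat_lit 2097153) (nat_lit 1954545936) (.two (nat_lit 1048576) (nat_lit 12148802148) (.one (nat_lit 8390622) .nil))),
   .two (nat_lit 75497480) (nat_lit 2923429914) (.two (nat_lit 41943041) (nat_lit 708838034) (.one (nat_lit 183949592375) .nil)),
   .two (nat_lit 158075977736) (nat_lit 10552868877) (.two (nat_lit 654311429) (nat_lit 158075977743) (.two (nat_lit 605028353) (nat_lit 185035915383) (.two (nat_lit 8388608) (nat_lit 2416968271) (.one (nat_lit 1050591) .nil)))),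
   .two (nat_lit 3539992584) (nat_lit 184993972236) (.two (nat_lit 713031685) (nat_lit 9781116943) (.two (nat_lit 605028353) (nat_lit 2424308342) (.one (nat_lit 16779232) .nil))),
   .two (nat_lit 9866051592) (nat_lit 21208498191) (.two (nat_lit 605028353) (nat_lit 9766437124) (.two (nat_lit 1048576) (nat_lit 2098259) (.one (nat_lit 28758247230) .nil))),
   .two (nat_lit 4194312) (nat_lit 50331656) (.two (nat_lit 16777220) (nat_lit 10540286089) (.two (nat_lit 16777216) (nat_lit 183848927820) (.one (nat_lit 4196321) .nil))),
   .two (nat_lit 41943048) (nat_lit 158075977743) (.two (nat_lit 8388609) (nat_lit 10000269834) (.two (nat_lit 8388608) (nat_lit 1049684) (.one (nat_lit 8390627) .nil))),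
   .two (nat_lit 713031688) (nat_lit 46980399119) (.two (nat_lit 4194305) (nat_lit 10007609411) (.two (nat_lit 8388608) (nat_lit 174688567882) (.one (nat_lit 4196324) .nil))),
   .two (nat_lit 2887778312) (nat_lit 9781116936) (.two (nat_lit 270532613) (nat_lit 10519314456) (.two (nat_lit 2097153) (nat_lit 157035790451) (.two (nat_lit 1048576) (nat_lit 2902458977) (.one (nat_lit 1050597) .nil)))),
   .two (nat_lit 8388616) (nat_lit 28086108175) (.two (nat_lit 9766436865) (nat_lit 1309671551) (.two (nat_lit 2097152) (nat_lit 11476664973) (.one (nat_lit 8390630) .nil))),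
   .two (nat_lit 183853121544) (nat_lit 174752530447) (.two (nat_lit 605028353) (nat_lit 847249526) (.two (nat_lit 1048576) (nat_lit 8389717) (.one (nat_lit 159224170340) .nil))),
   .two (nat_lit 4194312) (nat_lit 9766436879) (.two (nat_lit 8388609) (nat_lit 10369368425) (.one (nat_lit 21778924830) .nil)),
   .two (nat_lit 10007609356) (nat_lit 19093520396) (.two (nat_lit 101711877) (nat_lit 1417674793) (.two (nat_lit 605028353) (nat_lit 880804198) (.one (nat_lit 679479094) .nil))),
   .two (nat_lit 9867100168) (nat_lit 12147753000) (.two (nat_lit 4194305) (nat_lit 203423853) (.two (nat_lit 1048576) (nat_lit 156466414228) (.one (nat_lit 4631561450) .nil))),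
   .two (nat_lit 165532401672) (nat_lit 10504634383) (.two (nat_lit 2097153) (nat_lit 18933088830) (.one (nat_lit 8390631) .nil)),
   .two (nat_lit 705691656) (nat_lit 9781116943) (.two (nat_lit 16777217) (nat_lit 183846830736) (.one (nat_lit 183846831977) .nil)),
   .two (nat_lit 2902458376) (nat_lit 184993972236) (.two (nat_lit 713031685) (nat_lit 1191182403) (.two (nat_lit 8388608) (nat_lit 47563407720) (.one (nat_lit 117441774) .nil))),
   .two (nat_lit 822083592) (nat_lit 9899606029) (.two (nat_lit 34603013) (nat_lit 16777231) (.two (nat_lit 2097153) (nat_lit 3557818618) (.two (nat_lit 2097152) (nat_lit 1049686) (.one (nat_lit 2317354238) .nil)))),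
   .two (nat_lit 11476664328) (nat_lit 13224640536) (.two (nat_lit 2097153) (nat_lit 12047089798) (.two (nat_lit 4194304) (nat_lit 4028629583) (.one (nat_lit 4196328) .nil))),
   .two (nat_lit 203423752) (nat_lit 19529728024) (.two (nat_lit 9765388289) (nat_lit 3021996158) (.two (nat_lit 1048576) (nat_lit 10370417734) (.one (nat_lit 4631561436) .nil))),
   .two (nat_lit 183848927240) (nat_lit 174752530440) (.two (nat_lit 21777874949) (nat_lit 184419352591) (.two (nat_lit 605028353) (nat_lit 28760342834) (.two (nat_lit 1048576) (nat_lit 10506732212) (.one (nat_lit 34604255) .nil)))),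
   .two (nat_lit 12054429704) (nat_lit 183912890380) (.two (nat_lit 739246085) (nat_lit 28764536949) (.two (nat_lit 1048576) (nat_lit 13228835179) (.one (nat_lit 8390633) .nil))),
   .two (nat_lit 41943048) (nat_lit 2889875469) (.two (nat_lit 8388612) (nat_lit 239075378) (.two (nat_lit 4194305) (nat_lit 276824426) (.one (nat_lit 8390634) .nil))),
   .two (nat_lit 37748744) (nat_lit 18925748232) (.two (nat_lit 4194308) (nat_lit 184416206871) (.two (nat_lit 4194305) (nat_lit 2097423) (.two (nat_lit 16777216) (nat_lit 19096666812) (.one (nat_lit 4196331) .nil)))),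
   .two (nat_lit 4194312) (nat_lit 721420296) (.two (nat_lit 50331653) (nat_lit 672137346) (.two (nat_lit 16777216) (nat_lit 10906239607) (.one (nat_lit 1050604) .nil))),
   .two (nat_lit 205520904) (nat_lit 159217877007) (.two (nat_lit 2097153) (nat_lit 306184302) (.two (nat_lit 2097152) (nat_lit 4195415) (.one (nat_lit 2099181) .nil))),
   .two (nat_lit 169869320) (nat_lit 16777240) (.two (nat_lit 16777217) (nat_lit 169869447) (.two (nat_lit 2097152) (nat_lit 11006903369) (.one (nat_lit 2099182) .nil))),
   .two (nat_lit 47555018760) (nat_lit 156367847432) (.two (nat_lit 176160772) (nat_lit 675282968) (.two (nat_lit 8388609) (nat_lit 1749024894) (.two (nat_lit 8388608) (nat_lit 4601152582) (.one (nat_lit 20740834524) .nil)))),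
   .two (nat_lit 9766436872) (nat_lit 1916796936) (.two (nat_lit 69206021) (nat_lit 713031695) (.two (nat_lit 2097153) (nat_lit 47584379010) (.two (nat_lit 4194304) (nat_lit 2098264) (.one (nat_lit 2889876745) .nil)))),
   .two (nat_lit 156367847432) (nat_lit 11007950889) (.two (nat_lit 4194305) (nat_lit 13222543950) (.one (nat_lit 2988442870) .nil)),
   .two (nat_lit 713031688) (nat_lit 20704133132) (.two (nat_lit 605028357) (nat_lit 10007609411) (.two (nat_lit 1048576) (nat_lit 10338959945) (.one (nat_lit 4196335) .nil))),
   .two (nat_lit 3458203656) (nat_lit 18933088271) (.two (nat_lit 41943041) (nat_lit 156567077470) (.one (nat_lit 2099184) .nil)),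
   .two (nat_lit 813694984) (nat_lit 135266330) (.two (nat_lit 8388609) (nat_lit 12047090277) (.one (nat_lit 28758247358) .nil)),
   .two (nat_lit 1358954508) (nat_lit 9899606029) (.two (nat_lit 9866051589) (nat_lit 83886147) (.two (nat_lit 1048576) (nat_lit 3539992936) (.one (nat_lit 28757198776) .nil))),
   .two (nat_lit 169869320) (nat_lit 19130220557) (.two (nat_lit 34603013) (nat_lit 13224640627) (.two (nat_lit 1048576) (nat_lit 18928894583) (.one (nat_lit 166130091965) .nil))),
   .two (nat_lit 9766436872) (nat_lit 9781116941) (.two (nat_lit 822083589) (nat_lit 10504634392) (.two (nat_lit 41943041) (nat_lit 13237223538) (.two (nat_lit 8388608) (nat_lit 4043309723) (.one (nat_lit 276825322) .nil)))),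
   .two (nat_lit 4194312) (nat_lit 1746927628) (.two (nat_lit 4194308) (nat_lit 18926796840) (.two (nat_lit 16777217) (nat_lit 46978302312) (.one (nat_lit 156567078839) .nil))),
   .two (nat_lit 184986632200) (nat_lit 11517558797) (.two (nat_lit 2954887173) (nat_lit 156968681487) (.two (nat_lit 2097153) (nat_lit 2927624306) (.two (nat_lit 2097152) (nat_lit 183845782177) (.one (nat_lit 156365751530) .nil)))),
   .two (nat_lit 2961178632) (nat_lit 158144135234) (.two (nat_lit 1048576) (nat_lit 706740830) (.one (nat_lit 2099186) .nil)),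
   .two (nat_lit 285212680) (nat_lit 11510218802) (.two (nat_lit 16777217) (nat_lit 183845781792) (.two (nat_lit 2097152) (nat_lit 3557819014) (.one (nat_lit 3557820244) .nil))),
   .two (nat_lit 2887778312) (nat_lit 10007609370) (.two (nat_lit 2097153) (nat_lit 19537068149) (.two (nat_lit 4194304) (nat_lit 1913652519) .nil)),
   .two (nat_lit 169869320) (nat_lit 612368399) (.two (nat_lit 2097153) (nat_lit 176160877) (.two (nat_lit 1048576) (nat_lit 874513669) .nil)),
   .two (nat_lit 620757000) (nat_lit 47548727309) (.two (nat_lit 4599054341) (nat_lit 620757007) (.two (nat_lit 2097153) (nat_lit 3036676205) (.two (nat_lit 1048576) (nat_lit 1291846295) (.one (nat_lit 235930858) .nil)))),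
   .two (nat_lit 11543773192) (nat_lit 28758245391) (.two (nat_lit 34603009) (nat_lit 165526110862) (.one (nat_lit 2988442917) .nil)),
   .two (nat_lit 721420296) (nat_lit 1277165583) (.two (nat_lit 50331649) (nat_lit 10437525622) (.two (nat_lit 16777216) (nat_lit 156969730408) (.one (nat_lit 12633244968) .nil))),
   .two (nat_lit 4194312) (nat_lit 50331663) (.two (nat_lit 4194305) (nat_lit 21777875539) (.one (nat_lit 873465050) .nil)),
   .two (nat_lit 2889875464) (nat_lit 3464495129) (.two (nat_lit 4194305) (nat_lit 2894069886) (.two (nat_lit 1048576) (nat_lit 13191086665) (.one (nat_lit 4196339) .nil))),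
   .two (nat_lit 813694984) (nat_lit 12047089679) (.two (nat_lit 2097153) (nat_lit 11543773318) (.two (nat_lit 1048576) (nat_lit 12148802121) (.one (nat_lit 203425063) .nil))),
   .two (nat_lit 169869320) (nat_lit 285212687) (.two (nat_lit 2097153) (nat_lit 10015998084) (.two (nat_lit 16777216) (nat_lit 12147753551) (.one (nat_lit 16779252) .nil))),
   .two (nat_lit 813694984) (nat_lit 117440579) (.two (nat_lit 2097152) (nat_lit 276824649) (.one (nat_lit 1291847646) .nil)),
   .two (nat_lit 12054429704) (nat_lit 18928893967) (.two (nat_lit 37748737) (nat_lit 1962934386) (.two (nat_lit 4194304) (nat_lit 37262197813) (.one (nat_lit 184419354593) .nil))),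
   .two (nat_lit 176160776) (nat_lit 9934209039) (.two (nat_lit 8388609) (nat_lit 174753579369) (.one (nat_lit 2988443534) .nil)),
   .two (nat_lit 713031688) (nat_lit 47548727309) (.two (nat_lit 4599054341) (nat_lit 713031695) (.two (nat_lit 612368385) (nat_lit 3558867009) (.two (nat_lit 1048576) (nat_lit 310379798) .nil))),
   .two (nat_lit 101711880) (nat_lit 1182793742) (.two (nat_lit 159224168453) (nat_lit 1913651215) (.two (nat_lit 34603009) (nat_lit 343933040) (.two (nat_lit 1048576) (nat_lit 3531605248) .nil))),
   .two (nat_lit 41943048) (nat_lit 159217877007) (.two (nat_lit 8388609) (nat_lit 9967763563) (.two (nat_lit 4194304) (nat_lit 1780482666) (.one (nat_lit 2099189) .nil))),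
   .two (nat_lit 13191086088) (nat_lit 183845781529) (.two (nat_lit 4194305) (nat_lit 1049207) (.one (nat_lit 1050614) .nil)),
   .two (nat_lit 620757000) (nat_lit 159224168463) (.two (nat_lit 8388609) (nat_lit 37329306231) (.one (nat_lit 654313452) .nil)),
   .two (nat_lit 184419352584) (nat_lit 158143086607) (.two (nat_lit 605028353) (nat_lit 20640170251) (.two (nat_lit 1048576) (nat_lit 157038936628) (.one (nat_lit 3560965984) .nil))),
   .two (nat_lit 205520904) (nat_lit 159217877007) (.two (nat_lit 2097153) (nat_lit 205521583) (.one (nat_lit 47581235114) .nil)),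
   .two (nat_lit 159251431436) (nat_lit 157035790350) (.two (nat_lit 9866051589) (nat_lit 10370416683) (.two (nat_lit 50331649) (nat_lit 1779434067) (.one (nat_lit 1050615) .nil))),
   .two (nat_lit 205520904) (nat_lit 157043130376) (.two (nat_lit 171966469) (nat_lit 46984593433) (.two (nat_lit 37748737) (nat_lit 46473937132) (.two (nat_lit 16777216) (nat_lit 3557818726) (.one (nat_lit 1050616) .nil)))),
   .two (nat_lit 28087156744) (nat_lit 28093448207) (.two (nat_lit 8388609) (nat_lit 21827158374) (.one (nat_lit 16779257) .nil)),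
   .two (nat_lit 9768534024) (nat_lit 11577327656) (.two (nat_lit 4194305) (nat_lit 21777875235) (.two (nat_lit 1048576) (nat_lit 1379926681) (.one (nat_lit 4196346) .nil))),
   .two (nat_lit 705691656) (nat_lit 822083599) (.two (nat_lit 2097153) (nat_lit 202375301) (.two (nat_lit 16777216) (nat_lit 673186418) (.one (nat_lit 2099197) .nil))),
   .two (nat_lit 2902458376) (nat_lit 19532873736) (.two (nat_lit 157038936069) (nat_lit 2902458383) (.two (nat_lit 9768534017) (nat_lit 16777781) (.one (nat_lit 16779262) .nil))),
   .two (nat_lit 203423752) (nat_lit 2416967692) (.two (nat_lit 2887778308) (nat_lit 37246468137) (.two (nat_lit 2097153) (nat_lit 873464092) (.two (nat_lit 1048576) (nat_lit 47548727898) (.one (nat_lit 10336863510) .nil)))),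
   .two (nat_lit 2889875464) (nat_lit 2350907405) (.two (nat_lit 2889875460) (nat_lit 158144135208) (.two (nat_lit 4194305) (nat_lit 304087173) (.two (nat_lit 16777216) (nat_lit 809500863) (.one (nat_lit 2099200) .nil)))),
   .two (nat_lit 10385096712) (nat_lit 184993972236) (.two (nat_lit 713031685) (nat_lit 1795162127) (.two (nat_lit 8388609) (nat_lit 156984410743) (.one (nat_lit 16779265) .nil))),
   .two (nat_lit 203423752) (nat_lit 47555018760) (.two (nat_lit 176160772) (nat_lit 159251431546) (.two (nat_lit 2097152) (nat_lit 46984594009) (.one (nat_lit 9766438186) .nil))),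
   .two (nat_lit 41943048) (nat_lit 183913938958) (.two (nat_lit 2097157) (nat_lit 156472705154) (.two (nat_lit 1048576) (nat_lit 3021996391) (.one (nat_lit 1050626) .nil))),
   .two (nat_lit 4194312) (nat_lit 10907287565) (.two (nat_lit 605028357) (nat_lit 20638072847) (.two (nat_lit 34603009) (nat_lit 156365750573) (.two (nat_lit 1048576) (nat_lit 1411383959) (.one (nat_lit 21811431367) .nil)))),
   .two (nat_lit 184416206856) (nat_lit 620757004) (.two (nat_lit 9948889093) (nat_lit 184416206863) (.two (nat_lit 34603009) (nat_lit 184549441) (.two (nat_lit 4194304) (nat_lit 1175454281) (.one (nat_lit 16779268) .nil)))),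
   .two (nat_lit 4194312) (nat_lit 47555018767) (.two (nat_lit 8388609) (nat_lit 104857723) (.two (nat_lit 1048576) (nat_lit 9772728926) (.one (nat_lit 8390661) .nil))),
   .two (nat_lit 46409973768) (nat_lit 166129041423) (.two (nat_lit 4194305) (nat_lit 2349859106) (.two (nat_lit 8388608) (nat_lit 21210595934) (.one (nat_lit 11513366492) .nil))),
   .two (nat_lit 8388616) (nat_lit 47582281751) (.two (nat_lit 8388609) (nat_lit 156466413696) (.two (nat_lit 8388608) (nat_lit 706740914) (.one (nat_lit 2994734380) .nil))),
   .two (nat_lit 75497480) (nat_lit 158647451673) (.two (nat_lit 41943041) (nat_lit 2350907510) (.two (nat_lit 8388608) (nat_lit 2098270) (.one (nat_lit 8390662) .nil))),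
   .two (nat_lit 16777224) (nat_lit 639631375) (.two (nat_lit 16777217) (nat_lit 28691136635) (.two (nat_lit 16777216) (nat_lit 1049695) (.one (nat_lit 16779271) .nil))),
   .two (nat_lit 1343225864) (nat_lit 11544821805) (.two (nat_lit 50331649) (nat_lit 19093520991) (.one (nat_lit 1913652502) .nil)),
   .two (nat_lit 184419352584) (nat_lit 165532401672) (.two (nat_lit 21785214981) (nat_lit 18928893967) (.two (nat_lit 156372041729) (nat_lit 1212153963) (.two (nat_lit 8388608) (nat_lit 3560964711) (.one (nat_lit 746587359) .nil)))),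
   .two (nat_lit 10504634376) (nat_lit 1343225869) (.two (nat_lit 2954887173) (nat_lit 4631560237) (.two (nat_lit 2097153) (nat_lit 10335813765) (.two (nat_lit 4194304) (nat_lit 2921333327) (.one (nat_lit 158647453663) .nil)))),
   .two (nat_lit 713031688) (nat_lit 184416206861) (.two (nat_lit 75497477) (nat_lit 3525312527) (.two (nat_lit 612368385) (nat_lit 2416967921) (.two (nat_lit 4194304) (nat_lit 2416968285) (.one (nat_lit 1050632) .nil)))),
   .two (nat_lit 1191182344) (nat_lit 158177689625) (.two (nat_lit 41943041) (nat_lit 1210056978) (.two (nat_lit 16777216) (nat_lit 8389728) (.one (nat_lit 16779273) .nil))),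
   .two (nat_lit 8388616) (nat_lit 1344274480) (.two (nat_lit 4194305) (nat_lit 2887778417) (.two (nat_lit 4194304) (nat_lit 9934209619) (.one (nat_lit 11578377490) .nil))),
   .two (nat_lit 4194312) (nat_lit 174753579020) (.two (nat_lit 4194308) (nat_lit 28691136636) (.two (nat_lit 1048576) (nat_lit 9900655222) (.one (nat_lit 46508541936) .nil))),
   .two (nat_lit 1343225864) (nat_lit 12050235400) (.two (nat_lit 34603013) (nat_lit 183848927247) (.two (nat_lit 2097153) (nat_lit 47581233276) (.two (nat_lit 2097152) (nat_lit 4195425) (.one (nat_lit 4196265) .nil)))),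
   .two (nat_lit 9934209032) (nat_lit 21814575118) (.two (nat_lit 47550824453) (nat_lit 9934209039) (.two (nat_lit 2097153) (nat_lit 4634705985) (.two (nat_lit 1048576) (nat_lit 239075687) (.one (nat_lit 183912892327) .nil)))),
   .two (nat_lit 3539992584) (nat_lit 156367847432) (.two (nat_lit 11559501829) (nat_lit 20637024271) (.two (nat_lit 50331649) (nat_lit 156465365117) (.two (nat_lit 1048576) (nat_lit 28806480941) (.one (nat_lit 4196363) .nil)))),
   .two (nat_lit 721420296) (nat_lit 47581233166) (.two (nat_lit 13187940357) (nat_lit 721420303) (.two (nat_lit 16777217) (nat_lit 183846830388) (.two (nat_lit 4194304) (nat_lit 705692258) (.one (nat_lit 1050636) .nil)))),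
   .two (nat_lit 4601151496) (nat_lit 28093448207) (.two (nat_lit 612368385) (nat_lit 183848927921) (.one (nat_lit 159253530570) .nil)),
   .two (nat_lit 4194312) (nat_lit 673185816) (.two (nat_lit 4194305) (nat_lit 2921333407) (.one (nat_lit 2099214) .nil)),
   .two (nat_lit 18933088264) (nat_lit 12114198541) (.two (nat_lit 2097157) (nat_lit 156372041795) (.two (nat_lit 1048576) (nat_lit 310378854) (.one (nat_lit 47555020792) .nil))),
   .two (nat_lit 8388616) (nat_lit 12047089677) (.two (nat_lit 34603013) (nat_lit 8388623) (.two (nat_lit 2097153) (nat_lit 19596836994) (.two (nat_lit 2097152) (nat_lit 19127075487) (.one (nat_lit 13222544691) .nil)))),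
   .two (nat_lit 1358954504) (nat_lit 184993972237) (.two (nat_lit 13195280389) (nat_lit 1358954511) (.two (nat_lit 41943041) (nat_lit 185035915373) (.two (nat_lit 2097152) (nat_lit 9873392283) (.one (nat_lit 12048139498) .nil)))),
   .two (nat_lit 184549384) (nat_lit 10437525529) (.two (nat_lit 16777217) (nat_lit 166197198966) (.two (nat_lit 2097152) (nat_lit 50331839) (.one (nat_lit 2099215) .nil))),
   .two (nat_lit 4194312) (nat_lit 9766436879) (.two (nat_lit 8388609) (nat_lit 156569174668) (.one (nat_lit 11479812017) .nil)),
   .two (nat_lit 9768534024) (nat_lit 183853121544) (.two (nat_lit 2889875461) (nat_lit 713031695) (.two (nat_lit 4194305) (nat_lit 813695339) (.one (nat_lit 8390673) .nil))),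
   .two (nat_lit 739246088) (nat_lit 174759870479) (.two (nat_lit 34603009) (nat_lit 3464495242) (.two (nat_lit 1048576) (nat_lit 679477834) (.one (nat_lit 9866053483) .nil))),
   .two (nat_lit 1291845640) (nat_lit 19596836872) (.two (nat_lit 620756997) (nat_lit 2920284206) (.two (nat_lit 34603009) (nat_lit 2969567423) (.one (nat_lit 16779282) .nil))),
   .two (nat_lit 184423546888) (nat_lit 156971827215) (.two (nat_lit 9766436865) (nat_lit 156468510833) (.two (nat_lit 2097152) (nat_lit 156539814546) (.one (nat_lit 8390675) .nil))),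
   .two (nat_lit 276824072) (nat_lit 10506731528) (.two (nat_lit 8388612) (nat_lit 3527409689) (.two (nat_lit 4194305) (nat_lit 10947133691) (.two (nat_lit 1048576) (nat_lit 157043130989) (.one (nat_lit 1050645) .nil)))),
   .two (nat_lit 46409973768) (nat_lit 19026411546) (.two (nat_lit 4194305) (nat_lit 2953838711) (.two (nat_lit 4194304) (nat_lit 1049283) (.one (nat_lit 10942940448) .nil))),
   .two (nat_lit 157038936072) (nat_lit 9967763468) (.two (nat_lit 9934209029) (nat_lit 156367847439) (.two (nat_lit 606076929) (nat_lit 11513364838) (.one (nat_lit 4195648) .nil))),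
   .two (nat_lit 11492392973) (nat_lit 2418016270) (.two (nat_lit 203423749) (nat_lit 822083599) (.two (nat_lit 16777217) (nat_lit 159251431785) (.one (nat_lit 2954889001) .nil))),
   .two (nat_lit 2887778312) (nat_lit 9768534031) (.two (nat_lit 2097153) (nat_lit 1178599539) (.two (nat_lit 2097152) (nat_lit 159253529185) (.one (nat_lit 4196376) .nil))),
   .two (nat_lit 654311432) (nat_lit 174753579020) (.two (nat_lit 165526110213) (nat_lit 654311439) (.two (nat_lit 2097153) (nat_lit 9881780582) (.one (nat_lit 16779289) .nil))),
   .two (nat_lit 11543773192) (nat_lit 21208498202) (.two (nat_lit 2097153) (nat_lit 13187940488) (.two (nat_lit 4194304) (nat_lit 159251432050) (.one (nat_lit 1049907) .nil))),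
   .two (nat_lit 2902458376) (nat_lit 11543773192) (.two (nat_lit 705691652) (nat_lit 2902458383) (.two (nat_lit 16777217) (nat_lit 185020186904) (.two (nat_lit 16777216) (nat_lit 772800874) (.one (nat_lit 1050650) .nil)))),
   .two (nat_lit 1191182344) (nat_lit 46978301965) (.two (nat_lit 2097157) (nat_lit 183962173506) (.two (nat_lit 1048576) (nat_lit 754976039) .nil)),
   .two (nat_lit 1358954504) (nat_lit 10939793423) (.two (nat_lit 34603009) (nat_lit 620757354) (.one (nat_lit 16779291) .nil)),
   .two (nat_lit 46414168072) (nat_lit 10940841999) (.two (nat_lit 8388609) (nat_lit 13188989045) (.two (nat_lit 2097152) (nat_lit 19604177520) (.one (nat_lit 184417256694) .nil))),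
   .two (nat_lit 203423752) (nat_lit 21207449608) (.two (nat_lit 2954887173) (nat_lit 1175453744) (.two (nat_lit 2097153) (nat_lit 20637024521) (.two (nat_lit 2097152) (nat_lit 839909735) (.one (nat_lit 1050654) .nil)))),
   .two (nat_lit 9934209032) (nat_lit 18933088271) (.two (nat_lit 2097153) (nat_lit 28764536949) (.two (nat_lit 8388608) (nat_lit 4632609396) (.one (nat_lit 1417676025) .nil))),
   .two (nat_lit 4194312) (nat_lit 16777224) (.two (nat_lit 50331653) (nat_lit 158075977775) (.two (nat_lit 37748737) (nat_lit 157035791005) (.one (nat_lit 1050657) .nil))),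
   .two (nat_lit 11479810056) (nat_lit 11511267374) (.two (nat_lit 2097153) (nat_lit 158079123575) (.two (nat_lit 4194304) (nat_lit 2098279) (.one (nat_lit 47584380805) .nil))),
   .two (nat_lit 169869320) (nat_lit 176160783) (.two (nat_lit 8388609) (nat_lit 4599054647) (.two (nat_lit 2097152) (nat_lit 9866051942) (.one (nat_lit 1050658) .nil))),
   .two (nat_lit 3527409672) (nat_lit 159217877007) (.two (nat_lit 2097153) (nat_lit 306184257) (.two (nat_lit 2097152) (nat_lit 12150899048) (.one (nat_lit 4196387) .nil))),
   .two (nat_lit 9940500488) (nat_lit 639631375) (.two (nat_lit 2097153) (nat_lit 612368575) (.one (nat_lit 8390693) .nil)),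
   .two (nat_lit 8388616) (nat_lit 28806479939) (.two (nat_lit 16777216) (nat_lit 158183981684) (.one (nat_lit 1191183655) .nil)),
   .two (nat_lit 721420296) (nat_lit 9867100175) (.two (nat_lit 4194305) (nat_lit 20738736255) (.two (nat_lit 16777216) (nat_lit 166199296593) (.one (nat_lit 2099238) .nil))),
   .two (nat_lit 639631368) (nat_lit 159224168463) (.two (nat_lit 2097153) (nat_lit 159224168555) (.two (nat_lit 2097152) (nat_lit 156372042420) (.one (nat_lit 2894071691) .nil))),
   .two (nat_lit 9766436872) (nat_lit 9781116943) (.two (nat_lit 2097153) (nat_lit 746586472) (.one (nat_lit 8390695) .nil)),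
   .two (nat_lit 285212680) (nat_lit 158176641050) (.two (nat_lit 4194305) (nat_lit 12047090305) (.one (nat_lit 1050665) .nil)),
   .two (nat_lit 41943048) (nat_lit 20704133161) (.two (nat_lit 8388609) (nat_lit 10537140358) (.two (nat_lit 8388608) (nat_lit 9798943411) (.one (nat_lit 47555020014) .nil))),
   .two (nat_lit 9934209032) (nat_lit 3036676109) (.two (nat_lit 184549381) (nat_lit 159217877007) (.two (nat_lit 16777217) (nat_lit 47548727405) (.two (nat_lit 1048576) (nat_lit 158647452319) (.one (nat_lit 68158698) .nil)))),
   .two (nat_lit 9768534024) (nat_lit 47548727304) (.two (nat_lit 1277165573) (nat_lit 3560964121) (.two (nat_lit 2097153) (nat_lit 28760342654) (.two (nat_lit 8388608) (nat_lit 1948255455) .nil))),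
   .two (nat_lit 2887778312) (nat_lit 9781116941) (.two (nat_lit 822083589) (nat_lit 3525312536) (.two (nat_lit 34603009) (nat_lit 11477713205) (.two (nat_lit 1048576) (nat_lit 4043309723) (.one (nat_lit 16779307) .nil)))),
   .two (nat_lit 1277165576) (nat_lit 10343153679) (.two (nat_lit 606076929) (nat_lit 183853121674) (.two (nat_lit 2097152) (nat_lit 209715828) (.one (nat_lit 46474987331) .nil))),
   .two (nat_lit 101711880) (nat_lit 20738736151) (.two (nat_lit 34603009) (nat_lit 158177690268) (.one (nat_lit 185021236485) .nil)),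
   .two (nat_lit 184423546888) (nat_lit 1846542344) (.two (nat_lit 612368389) (nat_lit 156968681498) (.two (nat_lit 9766436865) (nat_lit 9899606141) (.two (nat_lit 2097152) (nat_lit 156465365605) (.one (nat_lit 1050668) .nil)))),
   .two (nat_lit 713031688) (nat_lit 28757196815) (.two (nat_lit 41943041) (nat_lit 269484163) (.two (nat_lit 1048576) (nat_lit 4034920811) (.one (nat_lit 8390701) .nil))),
   .two (nat_lit 184986632200) (nat_lit 19599982607) (.two (nat_lit 34603009) (nat_lit 157038936171) (.two (nat_lit 1048576) (nat_lit 156569174708) (.one (nat_lit 1846543678) .nil))),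
   .two (nat_lit 1178599432) (nat_lit 3525312520) (.two (nat_lit 2887778308) (nat_lit 1178599439) (.two (nat_lit 2097153) (nat_lit 158179786884) (.two (nat_lit 16777216) (nat_lit 156535620908) .nil))),
   .two (nat_lit 2887778312) (nat_lit 156569174028) (.two (nat_lit 10506731525) (nat_lit 21811429508) (.two (nat_lit 4194304) (nat_lit 10369368662) (.one (nat_lit 4631561496) .nil))),
   .two (nat_lit 2961178632) (nat_lit 3558866968) (.two (nat_lit 2097153) (nat_lit 174692761731) (.two (nat_lit 2097152) (nat_lit 12047090253) (.one (nat_lit 1913652519) .nil))),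
   .two (nat_lit 9934209032) (nat_lit 9966714892) (.two (nat_lit 806354949) (nat_lit 809500687) (.two (nat_lit 2097153) (nat_lit 2987393148) (.two (nat_lit 2097152) (nat_lit 4195433) (.one (nat_lit 4196398) .nil)))),
   .two (nat_lit 11543773192) (nat_lit 156569174029) (.two (nat_lit 9768534021) (nat_lit 11543773199) (.two (nat_lit 34603009) (nat_lit 775946368) (.two (nat_lit 16777216) (nat_lit 71304505) .nil))),
   .two (nat_lit 639631368) (nat_lit 158075977736) (.two (nat_lit 21777874949) (nat_lit 639631375) (.two (nat_lit 605028353) (nat_lit 3558867010) (.two (nat_lit 1048576) (nat_lit 10370417244) (.one (nat_lit 20737689466) .nil)))),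
   .two (nat_lit 101711880) (nat_lit 1916796940) (.two (nat_lit 1178599429) (nat_lit 101711887) (.two (nat_lit 34603009) (nat_lit 21814575234) (.two (nat_lit 16777216) (nat_lit 13224641782) .nil))),
   .two (nat_lit 169869320) (nat_lit 157038936072) (.two (nat_lit 2097157) (nat_lit 46409973775) (.two (nat_lit 2097153) (nat_lit 1782579849) (.one (nat_lit 156569175924) .nil))),
   .two (nat_lit 11479810056) (nat_lit 1753219080) (.two (nat_lit 176160773) (nat_lit 1312817194) (.two (nat_lit 37748737) (nat_lit 20644364395) (.two (nat_lit 4194304) (nat_lit 2961179257) (.one (nat_lit 4196400) .nil)))),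
   .two (nat_lit 183848927240) (nat_lit 780140557) (.two (nat_lit 9934209029) (nat_lit 156971827215) (.two (nat_lit 41943041) (nat_lit 12620660845) (.two (nat_lit 2097152) (nat_lit 12050236065) (.one (nat_lit 28764538090) .nil)))),
   .two (nat_lit 11492392968) (nat_lit 639631368) (.two (nat_lit 203423749) (nat_lit 19109249048) (.two (nat_lit 9781116929) (nat_lit 1780482174) (.two (nat_lit 16777216) (nat_lit 2098282) (.one (nat_lit 16778562) .nil)))),
   .two (nat_lit 4601151496) (nat_lit 19596836879) (.two (nat_lit 37748737) (nat_lit 2416967787) (.two (nat_lit 4194304) (nat_lit 11476664940) (.one (nat_lit 1050676) .nil))),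
   .two (nat_lit 2889875464) (nat_lit 10544480270) (.two (nat_lit 184993972229) (nat_lit 2889875471) (.two (nat_lit 4194305) (nat_lit 9806282881) (.two (nat_lit 2097152) (nat_lit 47550824808) (.one (nat_lit 880805185) .nil)))),
   .two (nat_lit 1779433480) (nat_lit 10343153676) (.two (nat_lit 1276116996) (nat_lit 46481277062) (.two (nat_lit 1048576) (nat_lit 37253808487) (.one (nat_lit 8390711) .nil))),
   .two (nat_lit 1191182344) (nat_lit 19599982600) (.two (nat_lit 184419352581) (nat_lit 1191182351) (.two (nat_lit 37748737) (nat_lit 1191182443) (.two (nat_lit 4194304) (nat_lit 13203669612) (.one (nat_lit 16779320) .nil)))),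
   .two (nat_lit 1343225864) (nat_lit 1916796936) (.two (nat_lit 705691652) (nat_lit 1178599439) (.two (nat_lit 34603009) (nat_lit 156569174207) (.one (nat_lit 4196409) .nil))),
   .two (nat_lit 2902458376) (nat_lit 1779433487) (.two (nat_lit 16777217) (nat_lit 4631560322) (.two (nat_lit 16777216) (nat_lit 165525061992) (.one (nat_lit 1050682) .nil))),
   .two (nat_lit 169869320) (nat_lit 822083599) (.two (nat_lit 2097153) (nat_lit 10351542397) (.two (nat_lit 1048576) (nat_lit 12115247790) (.one (nat_lit 4598007091) .nil))),
   .two (nat_lit 639631368) (nat_lit 158143086600) (.two (nat_lit 2887778308) (nat_lit 1276117018) (.two (nat_lit 2097153) (nat_lit 336593015) (.two (nat_lit 2097152) (nat_lit 739246667) (.one (nat_lit 1780483360) .nil)))),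
   .two (nat_lit 2887778312) (nat_lit 46409973768) (.two (nat_lit 270532613) (nat_lit 46409973775) (.two (nat_lit 9766436865) (nat_lit 2920284289) (.two (nat_lit 2097152) (nat_lit 806355628) (.one (nat_lit 1846543200) .nil)))),
   .two (nat_lit 50331660) (nat_lit 19604176905) (.two (nat_lit 209715205) (nat_lit 11559501864) (.two (nat_lit 8388609) (nat_lit 11559501938) (.two (nat_lit 1048576) (nat_lit 16778305) (.one (nat_lit 16778630) .nil)))),
   .two (nat_lit 165526110216) (nat_lit 11014242313) (.two (nat_lit 12054429701) (nat_lit 165526110223) (.two (nat_lit 41943041) (nat_lit 673185904) (.two (nat_lit 8388608) (nat_lit 1344274632) (.one (nat_lit 156466414819) .nil)))),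
   .two (nat_lit 2961178632) (nat_lit 184417255438) (.two (nat_lit 2097157) (nat_lit 159224168472) (.two (nat_lit 8388609) (nat_lit 2097451) (.two (nat_lit 4194304) (nat_lit 8389348) (.one (nat_lit 4196445) .nil)))),
   .two (nat_lit 156372041740) (nat_lit 21210595342) (.two (nat_lit 708837381) (nat_lit 1753219112) (.two (nat_lit 4194305) (nat_lit 1753219186) (.two (nat_lit 2097152) (nat_lit 46414169153) (.one (nat_lit 46414169478) .nil)))),
   .two (nat_lit 184549384) (nat_lit 638582796) (.two (nat_lit 176160772) (nat_lit 1745879055) (.two (nat_lit 8388609) (nat_lit 159250383108) (.two (nat_lit 8388608) (nat_lit 16777958) (.one (nat_lit 16779358) .nil)))),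
   .two (nat_lit 21785214984) (nat_lit 1410334729) (.two (nat_lit 28757196805) (nat_lit 21785214991) (.two (nat_lit 16777217) (nat_lit 10007609452) (.two (nat_lit 16777216) (nat_lit 11014242980) (.one (nat_lit 20644365664) .nil)))),
   .two (nat_lit 166132187144) (nat_lit 28772925449) (.two (nat_lit 184549381) (nat_lit 28693233679) (.two (nat_lit 16777217) (nat_lit 239075453) (.two (nat_lit 16777216) (nat_lit 4195394) (.one (nat_lit 1346372448) .nil)))),
   .two (nat_lit 19029557261) (nat_lit 156365750281) (.two (nat_lit 4194306) (nat_lit 13228834866) (.two (nat_lit 708837381) (nat_lit 11618222099) (.two (nat_lit 606076929) (nat_lit 10510926119) (.two (nat_lit 2097152) (nat_lit 8388998) (.one (nat_lit 8390026) .nil))))),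
   .two (nat_lit 2954887176) (nat_lit 9781116935) (.two (nat_lit 9781116931) (nat_lit 2954887183) (.two (nat_lit 9781116929) (nat_lit 639631394) (.two (nat_lit 16777216) (nat_lit 166230753376) (.one (nat_lit 166230753502) .nil)))),
   .two (nat_lit 9934209032) (nat_lit 157035790343) (.two (nat_lit 2902458371) (nat_lit 9934209039) (.two (nat_lit 16777217) (nat_lit 2097230) (.two (nat_lit 16777216) (nat_lit 19027460472) (.one (nat_lit 1050719) .nil)))),
   .two (nat_lit 159217877000) (nat_lit 104857609) (.two (nat_lit 19532873733) (nat_lit 11544821788) (.two (nat_lit 169869316) (nat_lit 339738646) (.two (nat_lit 2097153) (nat_lit 9869197431) (.two (nat_lit 2097152) (nat_lit 1346371795) (.one (nat_lit 2099296) .nil))))),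
   .two (nat_lit 28093448200) (nat_lit 4194310) (.two (nat_lit 4194308) (nat_lit 28093448207) (.two (nat_lit 4194305) (nat_lit 4034920518) (.two (nat_lit 4194304) (nat_lit 4605345996) (.one (nat_lit 8390753) .nil)))),
   .two (nat_lit 10343153672) (nat_lit 19529728009) (.two (nat_lit 158075977733) (nat_lit 10343153679) (.two (nat_lit 34603009) (nat_lit 2323644453) (.two (nat_lit 1048576) (nat_lit 2894069960) (.one (nat_lit 156573369672) .nil)))),
   .two (nat_lit 2889875464) (nat_lit 807403534) (.two (nat_lit 1746927621) (nat_lit 2889875471) (.two (nat_lit 50331649) (nat_lit 166199296128) (.two (nat_lit 16777216) (nat_lit 158649549010) (.one (nat_lit 2099298) .nil)))),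
   .two (nat_lit 285212680) (nat_lit 4638900233) (.two (nat_lit 159224168453) (nat_lit 16777240) (.two (nat_lit 612368385) (nat_lit 28101836874) (.two (nat_lit 8388608) (nat_lit 2936013289) (.one (nat_lit 4034921795) .nil)))),
   .two (nat_lit 739246088) (nat_lit 620756999) (.two (nat_lit 620756995) (nat_lit 739246095) (.two (nat_lit 620756993) (nat_lit 185020186691) (.two (nat_lit 8388608) (nat_lit 11610882254) (.one (nat_lit 1050002) .nil)))),
   .two (nat_lit 1913651208) (nat_lit 21778923527) (.two (nat_lit 708837379) (nat_lit 1913651215) (.two (nat_lit 37748737) (nat_lit 158075977847) (.two (nat_lit 4194304) (nat_lit 336593097) (.one (nat_lit 2099299) .nil)))),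
   .two (nat_lit 612368392) (nat_lit 1358954508) (.two (nat_lit 83886085) (nat_lit 612368399) (.two (nat_lit 8388609) (nat_lit 11525947525) (.two (nat_lit 16777216) (nat_lit 8389699) (.one (nat_lit 8390756) .nil)))),
   .two (nat_lit 46481276938) (nat_lit 336592906) (.two (nat_lit 9933160453) (nat_lit 28093448232) (.two (nat_lit 4194305) (nat_lit 28093448306) (.two (nat_lit 4194304) (nat_lit 8389003) (.one (nat_lit 8390757) .nil)))),
   .two (nat_lit 183853121544) (nat_lit 21793603592) (.two (nat_lit 13195280389) (nat_lit 1426063384) (.two (nat_lit 620756993) (nat_lit 1350566034) (.two (nat_lit 4194304) (nat_lit 41943240) (.one (nat_lit 19100861764) .nil)))),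
   .two (nat_lit 9867100168) (nat_lit 10343153672) (.two (nat_lit 1344274437) (nat_lit 10343153679) (.two (nat_lit 37748737) (nat_lit 159224168687) (.two (nat_lit 4194304) (nat_lit 2097549) (.one (nat_lit 2099302) .nil)))),
   .two (nat_lit 166129041416) (nat_lit 9799991305) (.two (nat_lit 102760453) (nat_lit 10939793423) (.two (nat_lit 41943041) (nat_lit 1410334980) (.two (nat_lit 2097152) (nat_lit 13187941435) (.one (nat_lit 1050727) .nil)))),
   .two (nat_lit 721420296) (nat_lit 1178599432) (.two (nat_lit 50331653) (nat_lit 1178599439) (.two (nat_lit 50331649) (nat_lit 183949590638) (.two (nat_lit 16777216) (nat_lit 742392011) (.one (nat_lit 4195736) .nil)))),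
   .two (nat_lit 158075977736) (nat_lit 11611930634) (.two (nat_lit 2954887173) (nat_lit 174752530447) (.two (nat_lit 2097153) (nat_lit 2349858931) (.two (nat_lit 2097152) (nat_lit 9899606224) (.one (nat_lit 3020949587) .nil)))),
   .two (nat_lit 1291845638) (nat_lit 20637024264) (.two (nat_lit 10385096709) (nat_lit 2923429914) (.two (nat_lit 4194305) (nat_lit 28705816704) (.two (nat_lit 1048576) (nat_lit 156468511086) (.one (nat_lit 4196457) .nil)))),
   .two (nat_lit 156466413577) (nat_lit 10503585799) (.two (nat_lit 708837379) (nat_lit 1913651215) (.two (nat_lit 37748737) (nat_lit 158075977847) (.two (nat_lit 4194304) (nat_lit 156566028928) (.one (nat_lit 4631561043) .nil)))),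
   .two (nat_lit 4601151496) (nat_lit 10544480270) (.two (nat_lit 184993972229) (nat_lit 4194329) (.two (nat_lit 4194305) (nat_lit 156539814021) (.two (nat_lit 2097152) (nat_lit 4195051) (.one (nat_lit 47582283844) .nil)))),
   .two (nat_lit 10504634376) (nat_lit 4194310) (.two (nat_lit 4194308) (nat_lit 10504634383) (.two (nat_lit 4194305) (nat_lit 46474985582) (.two (nat_lit 4194304) (nat_lit 337641672) (.one (nat_lit 2098585) .nil)))),
   .two (nat_lit 2887778310) (nat_lit 809500679) (.two (nat_lit 37748739) (nat_lit 2887778336) (.two (nat_lit 37748737) (nat_lit 2097303) (.two (nat_lit 4194304) (nat_lit 35652313) (.one (nat_lit 2099306) .nil)))),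
   .two (nat_lit 185020186636) (nat_lit 21785214988) (.two (nat_lit 184986632197) (nat_lit 1417674792) (.two (nat_lit 34603009) (nat_lit 12155093126) (.two (nat_lit 4194304) (nat_lit 8389700) (.one (nat_lit 8390042) .nil)))),
   .two (nat_lit 2969567240) (nat_lit 4632608777) (.two (nat_lit 10940841989) (nat_lit 3036676122) (.two (nat_lit 156365750273) (nat_lit 16777368) (.two (nat_lit 2097152) (nat_lit 16777964) (.one (nat_lit 2099307) .nil)))),
   .two (nat_lit 46414168072) (nat_lit 3560964105) (.two (nat_lit 13191086085) (nat_lit 46414168079) (.two (nat_lit 37748737) (nat_lit 1384120439) (.two (nat_lit 4194304) (nat_lit 8389007) (.one (nat_lit 8390764) .nil)))),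
   .two (nat_lit 41943048) (nat_lit 1746927623) (.two (nat_lit 721420293) (nat_lit 41943055) (.two (nat_lit 156365750273) (nat_lit 174685421689) (.two (nat_lit 2097152) (nat_lit 1049325) (.one (nat_lit 8390765) .nil)))),
   .two (nat_lit 158144135176) (nat_lit 746586122) (.two (nat_lit 21208498181) (nat_lit 9772728347) (.two (nat_lit 159224168453) (nat_lit 9766436886) (.two (nat_lit 156372041729) (nat_lit 3021996178) (.two (nat_lit 2097152) (nat_lit 8389802) (.one (nat_lit 2099310) .nil))))),
   .two (nat_lit 8388616) (nat_lit 10336862216) (.two (nat_lit 8388612) (nat_lit 10336862223) (.two (nat_lit 9768534017) (nat_lit 174692761719) (.two (nat_lit 4194304) (nat_lit 174686470730) (.one (nat_lit 8390767) .nil)))),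
   .two (nat_lit 20737687561) (nat_lit 304087050) (.two (nat_lit 46422556677) (nat_lit 9934209039) (.two (nat_lit 16777217) (nat_lit 19530776695) (.two (nat_lit 1048576) (nat_lit 304087240) (.one (nat_lit 2099312) .nil)))),
   .two (nat_lit 705691654) (nat_lit 12050235400) (.two (nat_lit 34603013) (nat_lit 183848927247) (.two (nat_lit 2097153) (nat_lit 46977253509) (.two (nat_lit 1048576) (nat_lit 37314625902) (.one (nat_lit 4196248) .nil)))),
   .two (nat_lit 9934209032) (nat_lit 9765388297) (.two (nat_lit 705691652) (nat_lit 3558866990) (.two (nat_lit 34603009) (nat_lit 156567076952) (.two (nat_lit 1048576) (nat_lit 2097903) (.one (nat_lit 46507493460) .nil)))),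
   .two (nat_lit 1343225864) (nat_lit 28764536846) (.two (nat_lit 176160773) (nat_lit 185020186650) (.two (nat_lit 2097153) (nat_lit 185027526742) (.two (nat_lit 2097152) (nat_lit 8389803) (.one (nat_lit 2098589) .nil)))),
   .two (nat_lit 8388616) (nat_lit 158091706378) (.two (nat_lit 11559501829) (nat_lit 8388623) (.two (nat_lit 50331649) (nat_lit 4605345828) (.two (nat_lit 16777216) (nat_lit 10007609439) (.one (nat_lit 8390769) .nil)))),
   .two (nat_lit 46409973768) (nat_lit 28093448200) (.two (nat_lit 4601151493) (nat_lit 28093448207) (.two (nat_lit 612368385) (nat_lit 19532873843) (.two (nat_lit 8388608) (nat_lit 339738822) (.one (nat_lit 4196466) .nil)))),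
   .two (nat_lit 41943048) (nat_lit 2332033038) (.two (nat_lit 285212677) (nat_lit 41943055) (.two (nat_lit 9781116929) (nat_lit 34603144) (.two (nat_lit 16777216) (nat_lit 1049328) (.one (nat_lit 1050739) .nil)))),
   .two (nat_lit 809500680) (nat_lit 9766436872) (.two (nat_lit 2887778308) (nat_lit 4634705937) (.two (nat_lit 41943043) (nat_lit 606076943) (.two (nat_lit 41943041) (nat_lit 166130090067) (.two (nat_lit 8388608) (nat_lit 10540286634) (.one (nat_lit 4195743) .nil))))),
   .two (nat_lit 1176502281) (nat_lit 2889875464) (.two (nat_lit 159217876997) (nat_lit 3527409679) (.two (nat_lit 606076929) (nat_lit 19029557315) (.two (nat_lit 2097152) (nat_lit 4194998) (.one (nat_lit 4195744) .nil)))),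
   .two (nat_lit 156372041736) (nat_lit 605028359) (.two (nat_lit 272629765) (nat_lit 10343153679) (.two (nat_lit 9765388289) (nat_lit 9869197436) (.two (nat_lit 4194304) (nat_lit 1753219735) (.one (nat_lit 4196249) .nil)))),
   .two (nat_lit 9866051592) (nat_lit 102760457) (.two (nat_lit 19530776581) (nat_lit 9866051599) (.two (nat_lit 2097153) (nat_lit 21777874981) (.two (nat_lit 2097152) (nat_lit 2316304479) (.one (nat_lit 2099262) .nil)))),
   .two (nat_lit 612368392) (nat_lit 11578376206) (.two (nat_lit 270532613) (nat_lit 612368399) (.two (nat_lit 2097153) (nat_lit 12121538688) (.two (nat_lit 1048576) (nat_lit 2988442324) (.one (nat_lit 1050992) .nil)))),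
   .two (nat_lit 156367847432) (nat_lit 10503585799) (.two (nat_lit 2894069763) (nat_lit 157038936088) (.two (nat_lit 156367847425) (nat_lit 4598005904) (.two (nat_lit 8388608) (nat_lit 2416968074) (.one (nat_lit 1050741) .nil)))),
   .two (nat_lit 28086108168) (nat_lit 156569174028) (.two (nat_lit 1745879045) (nat_lit 19130220585) (.two (nat_lit 156364701697) (nat_lit 19096666149) (.two (nat_lit 1048576) (nat_lit 3527409872) (.one (nat_lit 4196470) .nil)))),
   .two (nat_lit 21207449608) (nat_lit 673185804) (.two (nat_lit 10504634373) (nat_lit 28086108175) (.two (nat_lit 605028353) (nat_lit 3021996168) (.two (nat_lit 2097152) (nat_lit 1048978) (.one (nat_lit 1050743) .nil)))),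
   .two (nat_lit 612368389) (nat_lit 9765388310) (.two (nat_lit 41943041) (nat_lit 20737687573) (.one (nat_lit 1050745) .nil)),
   .two (nat_lit 12047089672) (nat_lit 28089253897) (.two (nat_lit 272629765) (nat_lit 19596836879) (.two (nat_lit 4194305) (nat_lit 2886729847) (.two (nat_lit 4194304) (nat_lit 269484243) (.one (nat_lit 1050746) .nil)))),
   .two (nat_lit 1782579205) (nat_lit 10504634383) (.two (nat_lit 2097153) (nat_lit 276824188) (.one (nat_lit 8390779) .nil)),
   .two (nat_lit 11543773192) (nat_lit 1350565897) (.two (nat_lit 165532401669) (nat_lit 11543773199) (.two (nat_lit 8388609) (nat_lit 235929683) (.two (nat_lit 8388608) (nat_lit 158143086993) (.one (nat_lit 2886731078) .nil)))),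
   .two (nat_lit 2961178632) (nat_lit 742391817) (.two (nat_lit 18928893957) (nat_lit 3028287514) (.two (nat_lit 605028353) (nat_lit 159253528914) (.two (nat_lit 1048576) (nat_lit 166237044833) (.one (nat_lit 1050687) .nil)))),
   .two (nat_lit 9781116936) (nat_lit 34603015) (.two (nat_lit 4599054341) (nat_lit 9781116943) (.two (nat_lit 2097153) (nat_lit 158662131829) (.two (nat_lit 1048576) (nat_lit 1761607881) (.one (nat_lit 1050522) .nil)))),
   .two (nat_lit 1846542344) (nat_lit 740294670) (.two (nat_lit 18926796805) (nat_lit 1846542351) (.two (nat_lit 2097153) (nat_lit 2332033157) (.two (nat_lit 2097152) (nat_lit 1376780664) (.one (nat_lit 16779388) .nil)))),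
   .two (nat_lit 169869318) (nat_lit 3527409672) (.two (nat_lit 169869316) (nat_lit 3527409679) (.two (nat_lit 2097153) (nat_lit 3527409729) (.two (nat_lit 2097152) (nat_lit 4194998) (.one (nat_lit 4195744) .nil)))),
   .two (nat_lit 184549384) (nat_lit 19029557261) (.two (nat_lit 10372513797) (nat_lit 9948889103) (.two (nat_lit 612368385) (nat_lit 166132187377) (.two (nat_lit 4194304) (nat_lit 166245433441) (.one (nat_lit 16779389) .nil)))),
   .two (nat_lit 46406828042) (nat_lit 41943047) (.two (nat_lit 713031683) (nat_lit 101711887) (.two (nat_lit 34603009) (nat_lit 3028287555) (.two (nat_lit 1048576) (nat_lit 47588573390) (.one (nat_lit 8390055) .nil)))),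
   .two (nat_lit 46984593416) (nat_lit 158077026313) (.two (nat_lit 270532613) (nat_lit 10343153679) (.two (nat_lit 2097153) (nat_lit 28093448306) (.two (nat_lit 2097152) (nat_lit 2323644815) (.one (nat_lit 8390782) .nil)))),
   .two (nat_lit 620757000) (nat_lit 739246088) (.two (nat_lit 184549380) (nat_lit 739246095) (.two (nat_lit 16777217) (nat_lit 11610882085) (.two (nat_lit 16777216) (nat_lit 3557818579) (.one (nat_lit 16779391) .nil)))),
   .two (nat_lit 18933088264) (nat_lit 606076935) (.two (nat_lit 37748739) (nat_lit 1753219087) (.two (nat_lit 37748737) (nat_lit 679477328) (.two (nat_lit 4194304) (nat_lit 8389365) (.one (nat_lit 2099328) .nil)))),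
   .two (nat_lit 318767113) (nat_lit 184993972231) (.two (nat_lit 620756995) (nat_lit 18933088271) (.two (nat_lit 41943041) (nat_lit 12062818377) (.two (nat_lit 16777216) (nat_lit 310378870) (.one (nat_lit 8390785) .nil)))),
   .two (nat_lit 21811429388) (nat_lit 142606349) (.two (nat_lit 21777874949) (nat_lit 21785215016) (.two (nat_lit 16777217) (nat_lit 2323644537) (.two (nat_lit 1048576) (nat_lit 9873391989) (.one (nat_lit 8390786) .nil)))),
   .two (nat_lit 41943048) (nat_lit 158158815241) (.two (nat_lit 721420293) (nat_lit 41943055) (.two (nat_lit 16777217) (nat_lit 10913579127) (.two (nat_lit 16777216) (nat_lit 11584668047) (.one (nat_lit 4605347932) .nil)))),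
   .two (nat_lit 12047089672) (nat_lit 21208498184) (.two (nat_lit 184986632197) (nat_lit 21208498191) (.two (nat_lit 34603009) (nat_lit 12115247223) (.two (nat_lit 1048576) (nat_lit 9967764096) (.one (nat_lit 3458204492) .nil)))),
   .two (nat_lit 205520904) (nat_lit 3539992585) (.two (nat_lit 620756997) (nat_lit 46477082647) (.two (nat_lit 50331649) (nat_lit 12620660855) (.two (nat_lit 1048576) (nat_lit 10506732107) (.one (nat_lit 4196484) .nil)))),
   .two (nat_lit 285212680) (nat_lit 158144135176) (.two (nat_lit 1277165572) (nat_lit 46977253422) (.two (nat_lit 606076929) (nat_lit 19093520502) (.two (nat_lit 1048576) (nat_lit 19027461158) (.one (nat_lit 16779397) .nil)))),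
   .two (nat_lit 18928893960) (nat_lit 18925748233) (.two (nat_lit 1846542341) (nat_lit 2420113434) (.two (nat_lit 605028353) (nat_lit 1849688210) (.two (nat_lit 1048576) (nat_lit 158649549532) (.one (nat_lit 1050758) .nil)))),
   .two (nat_lit 169869320) (nat_lit 104857609) (.two (nat_lit 19532873733) (nat_lit 2988441626) (.two (nat_lit 605028353) (nat_lit 47548727437) (.two (nat_lit 1048576) (nat_lit 20738736226) (.one (nat_lit 2099336) .nil)))),
   .two (nat_lit 1795162120) (nat_lit 3524263950) (.two (nat_lit 605028357) (nat_lit 1291845647) (.two (nat_lit 34603009) (nat_lit 28793897220) (.two (nat_lit 4194304) (nat_lit 16777975) (.one (nat_lit 158179788873) .nil)))),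
   .two (nat_lit 16777224) (nat_lit 9867100168) (.two (nat_lit 1344274437) (nat_lit 855638040) (.two (nat_lit 37748737) (nat_lit 9799991403) (.two (nat_lit 4194304) (nat_lit 16777912) (.one (nat_lit 16778672) .nil)))),
   .two (nat_lit 16777224) (nat_lit 101711879) (.two (nat_lit 10504634373) (nat_lit 10000269341) (.two (nat_lit 9765388289) (nat_lit 337641608) (.two (nat_lit 1048576) (nat_lit 2097913) (.one (nat_lit 16779401) .nil)))),
   .two (nat_lit 639631368) (nat_lit 2319450121) (.two (nat_lit 46409973765) (nat_lit 639631375) (.two (nat_lit 4194305) (nat_lit 639631396) (.two (nat_lit 4194304) (nat_lit 740294751) (.one (nat_lit 4196490) .nil)))),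
   .two (nat_lit 21785214984) (nat_lit 13187940359) (.two (nat_lit 806354949) (nat_lit 21785214991) (.two (nat_lit 2097153) (nat_lit 11551113340) (.two (nat_lit 1048576) (nat_lit 19134415049) (.one (nat_lit 2099339) .nil)))),
   .two (nat_lit 304087049) (nat_lit 47555018759) (.two (nat_lit 606076931) (nat_lit 46414168104) (.two (nat_lit 606076929) (nat_lit 46414168178) (.two (nat_lit 2097152) (nat_lit 11014242501) (.one (nat_lit 3464496541) .nil)))),
   .two (nat_lit 1916796936) (nat_lit 705691654) (.two (nat_lit 705691652) (nat_lit 1916796943) (.two (nat_lit 34603009) (nat_lit 158079123575) (.two (nat_lit 1048576) (nat_lit 71303263) (.one (nat_lit 11479810957) .nil)))),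
   .two (nat_lit 12633243657) (nat_lit 2889875464) (.two (nat_lit 16777221) (nat_lit 2889875471) (.two (nat_lit 16777217) (nat_lit 21814575223) (.two (nat_lit 16777216) (nat_lit 2353004745) (.one (nat_lit 4196492) .nil)))),
   .two (nat_lit 1779433480) (nat_lit 12117344264) (.two (nat_lit 11479810052) (nat_lit 1779433487) (.two (nat_lit 605028353) (nat_lit 10003415159) (.two (nat_lit 1048576) (nat_lit 1749024969) (.one (nat_lit 1279264648) .nil)))),
   .two (nat_lit 3460300808) (nat_lit 37320917001) (.two (nat_lit 46414168069) (nat_lit 2923429914) (.two (nat_lit 41943041) (nat_lit 1745879174) (.two (nat_lit 4194304) (nat_lit 1048986) (.one (nat_lit 1050765) .nil)))),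
   .two (nat_lit 101711880) (nat_lit 183848927238) (.two (nat_lit 183848927237) (nat_lit 101711887) (.two (nat_lit 4194305) (nat_lit 166229704741) (.two (nat_lit 4194304) (nat_lit 202375263) (.one (nat_lit 4196494) .nil)))),
   .two (nat_lit 3527409672) (nat_lit 12115247114) (.two (nat_lit 159217876997) (nat_lit 3527409679) (.two (nat_lit 606076929) (nat_lit 46980399171) (.two (nat_lit 2097152) (nat_lit 12117344617) (.one (nat_lit 4195256) .nil)))),
   .two (nat_lit 4043309065) (nat_lit 2889875464) (.two (nat_lit 50331653) (nat_lit 2889875471) (.two (nat_lit 50331649) (nat_lit 21814575223) (.two (nat_lit 16777216) (nat_lit 2353004745) (.one (nat_lit 11580475456) .nil)))),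
   .two (nat_lit 272629768) (nat_lit 12062818314) (.two (nat_lit 654311429) (nat_lit 272629775) (.two (nat_lit 620756993) (nat_lit 46510637123) (.two (nat_lit 16777216) (nat_lit 4194517) (.one (nat_lit 4195764) .nil)))),
   .two (nat_lit 46409973768) (nat_lit 1753219080) (.two (nat_lit 272629765) (nat_lit 47588573226) (.two (nat_lit 41943041) (nat_lit 46980399213) (.two (nat_lit 8388608) (nat_lit 4195066) (.one (nat_lit 4196495) .nil)))),
   .two (nat_lit 37748744) (nat_lit 165525061641) (.two (nat_lit 2887778306) (nat_lit 10335813677) (.two (nat_lit 4194308) (nat_lit 12147752979) (.two (nat_lit 9765388289) (nat_lit 21812477989) (.two (nat_lit 2097152) (nat_lit 4194716) (.one (nat_lit 2098614) .nil))))),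
   .two (nat_lit 708837381) (nat_lit 11618222099) (.two (nat_lit 2097153) (nat_lit 46510637075) (.one (nat_lit 8390801) .nil)),
   .two (nat_lit 183848927234) (nat_lit 1913651215) (.two (nat_lit 37748737) (nat_lit 12147752979) (.one (nat_lit 705692130) .nil)),
   .two (nat_lit 159224168460) (nat_lit 773849098) (.two (nat_lit 169869314) (nat_lit 10007609384) (.two (nat_lit 203423749) (nat_lit 184993972243) (.two (nat_lit 2097153) (nat_lit 10007609458) (.two (nat_lit 2097152) (nat_lit 8389021) (.one (nat_lit 10007610778) .nil))))),
   .two (nat_lit 8388612) (nat_lit 21793603603) (.two (nat_lit 8388609) (nat_lit 21793603603) (.one (nat_lit 713032585) .nil)),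
   .two (nat_lit 41943048) (nat_lit 11525947401) (.two (nat_lit 83886085) (nat_lit 41943055) (.two (nat_lit 16777217) (nat_lit 185027526693) (.two (nat_lit 16777216) (nat_lit 8389023) (.one (nat_lit 185020188806) .nil)))),
   .two (nat_lit 1276116996) (nat_lit 156567076886) (.two (nat_lit 605028353) (nat_lit 156567076886) (.one (nat_lit 1049533) .nil)),
   .two (nat_lit 20637024264) (nat_lit 46984593417) (.two (nat_lit 612368389) (nat_lit 9899606042) (.two (nat_lit 41943041) (nat_lit 739246210) (.two (nat_lit 1048576) (nat_lit 28793897160) (.one (nat_lit 28790752109) .nil)))),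
   .two (nat_lit 157038936069) (nat_lit 9899606035) (.two (nat_lit 605028353) (nat_lit 1849688083) (.one (nat_lit 1846543283) .nil)),
   .two (nat_lit 2889875464) (nat_lit 318767113) (.two (nat_lit 9948889093) (nat_lit 2889875471) (.two (nat_lit 620756993) (nat_lit 339738661) (.two (nat_lit 16777216) (nat_lit 10439622880) (.one (nat_lit 2420114773) .nil)))),
   .two (nat_lit 37748744) (nat_lit 2961178633) (.two (nat_lit 184993972229) (nat_lit 843055130) (.two (nat_lit 4194305) (nat_lit 156539814021) (.two (nat_lit 4194304) (nat_lit 2097916) (.one (nat_lit 2099346) .nil)))),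
   .two (nat_lit 166132187144) (nat_lit 166229704713) (.two (nat_lit 12114198533) (nat_lit 28693233679) (.two (nat_lit 156364701697) (nat_lit 37748996) (.two (nat_lit 1048576) (nat_lit 2956985402) (.one (nat_lit 4196499) .nil)))),
   .two (nat_lit 1276117001) (nat_lit 654311431) (.two (nat_lit 11479810051) (nat_lit 218103823) (.two (nat_lit 34603009) (nat_lit 9948889122) (.two (nat_lit 4194304) (nat_lit 159266111584) (.one (nat_lit 159266111710) .nil)))),
   .two (nat_lit 18928893960) (nat_lit 1175453705) (.two (nat_lit 10939793413) (nat_lit 138412058) (.two (nat_lit 37748737) (nat_lit 11510218898) (.two (nat_lit 8388608) (nat_lit 156968681672) (.one (nat_lit 3457156420) .nil)))),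
   .two (nat_lit 41943048) (nat_lit 20637024264) (.two (nat_lit 2956984325) (nat_lit 41943055) (.two (nat_lit 4194305) (nat_lit 47547678853) (.two (nat_lit 1048576) (nat_lit 2990539476) (.one (nat_lit 1050047) .nil)))),
   .two (nat_lit 721420296) (nat_lit 813694984) (.two (nat_lit 8388612) (nat_lit 721420303) (.two (nat_lit 8388609) (nat_lit 11007950962) (.two (nat_lit 16777216) (nat_lit 11007951940) (.one (nat_lit 11007952282) .nil)))),
   .two (nat_lit 739246088) (nat_lit 1358954508) (.two (nat_lit 11543773189) (nat_lit 83886120) (.two (nat_lit 34603009) (nat_lit 788529286) (.two (nat_lit 16777216) (nat_lit 1049341) (.one (nat_lit 352322970) .nil)))),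
   .two (nat_lit 21207449608) (nat_lit 183846830090) (.two (nat_lit 10370416645) (nat_lit 21207449615) (.two (nat_lit 2097153) (nat_lit 20704133187) (.two (nat_lit 2097152) (nat_lit 158075977921) (.one (nat_lit 1050054) .nil)))),
   .two (nat_lit 28086108168) (nat_lit 1413480462) (.two (nat_lit 10506731525) (nat_lit 4027580444) (.two (nat_lit 612368387) (nat_lit 20637024271) (.two (nat_lit 612368385) (nat_lit 235929675) (.two (nat_lit 4194304) (nat_lit 2349859556) (.one (nat_lit 1050772) .nil))))),
   .two (nat_lit 46407876616) (nat_lit 1749024777) (.two (nat_lit 171966469) (nat_lit 157036838927) (.two (nat_lit 4194305) (nat_lit 2350907429) (.two (nat_lit 4194304) (nat_lit 2097918) (.one (nat_lit 1050773) .nil)))),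
   .two (nat_lit 705691654) (nat_lit 10504634375) (.two (nat_lit 68157443) (nat_lit 10504634383) (.two (nat_lit 605028353) (nat_lit 19094569028) (.two (nat_lit 1048576) (nat_lit 157036839286) (.one (nat_lit 2098634) .nil)))),
   .two (nat_lit 21207449608) (nat_lit 822083596) (.two (nat_lit 50331653) (nat_lit 21207449615) (.two (nat_lit 605028353) (nat_lit 183928619045) (.two (nat_lit 1048576) (nat_lit 11022631123) (.one (nat_lit 16779414) .nil)))),
   .two (nat_lit 721420296) (nat_lit 10537140233) (.two (nat_lit 721420292) (nat_lit 303038510) (.two (nat_lit 50331649) (nat_lit 34603096) (.two (nat_lit 1048576) (nat_lit 184550278) (.one (nat_lit 4598007108) .nil)))),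
   .two (nat_lit 21207449608) (nat_lit 673185804) (.two (nat_lit 28758245381) (nat_lit 28086108175) (.two (nat_lit 605028353) (nat_lit 10437525625) (.two (nat_lit 2097152) (nat_lit 1048978) (.one (nat_lit 1050775) .nil)))),
   .two (nat_lit 1929379849) (nat_lit 3524263950) (.two (nat_lit 605028357) (nat_lit 9948889103) (.two (nat_lit 4194305) (nat_lit 2886729861) (.two (nat_lit 1048576) (nat_lit 272630125) (.one (nat_lit 20740834726) .nil)))),
   .two (nat_lit 639631368) (nat_lit 9802088460) (.two (nat_lit 2887778308) (nat_lit 876609580) (.two (nat_lit 2097153) (nat_lit 876609672) (.two (nat_lit 4194304) (nat_lit 337642100) (.one (nat_lit 2099277) .nil)))),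
   .two (nat_lit 1343225864) (nat_lit 11477712910) (.two (nat_lit 9866051589) (nat_lit 807403573) (.two (nat_lit 50331651) (nat_lit 705691663) (.two (nat_lit 50331649) (nat_lit 3020947531) (.two (nat_lit 16777216) (nat_lit 34603750) (.one (nat_lit 1050776) .nil))))),
   .two (nat_lit 9867100169) (nat_lit 654311431) (.two (nat_lit 2097155) (nat_lit 1795162152) (.two (nat_lit 2097153) (nat_lit 1795162226) (.two (nat_lit 1048576) (nat_lit 158158815429) (.one (nat_lit 9915335514) .nil)))),
   .two (nat_lit 809500679) (nat_lit 645922830) (.two (nat_lit 4194304) (nat_lit 46514831728) .nil),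
   .two (nat_lit 1779433480) (nat_lit 13191086087) (.two (nat_lit 37748739) (nat_lit 166196150296) (.two (nat_lit 9765388289) (nat_lit 4194443) (.two (nat_lit 4194304) (nat_lit 1049344) (.one (nat_lit 4195790) .nil)))),
   .two (nat_lit 11479810056) (nat_lit 156481093646) (.two (nat_lit 16777221) (nat_lit 1916796943) (.two (nat_lit 16777217) (nat_lit 1916796964) (.two (nat_lit 16777216) (nat_lit 47550824658) (.one (nat_lit 2365589602) .nil)))),
   .two (nat_lit 4194312) (nat_lit 4605345799) (.two (nat_lit 8388611) (nat_lit 13191086095) (.two (nat_lit 8388609) (nat_lit 3024093262) (.two (nat_lit 8388608) (nat_lit 839910126) (.one (nat_lit 4598007218) .nil)))),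
   .two (nat_lit 41943048) (nat_lit 158158815241) (.two (nat_lit 721420293) (nat_lit 41943055) (.two (nat_lit 16777217) (nat_lit 11618222195) (.two (nat_lit 16777216) (nat_lit 2994733440) (.one (nat_lit 8390810) .nil)))),
   .two (nat_lit 742391816) (nat_lit 2349858829) (.two (nat_lit 11546918917) (nat_lit 46507491355) (.two (nat_lit 606076929) (nat_lit 101712006) (.two (nat_lit 2097152) (nat_lit 1343226229) (.one (nat_lit 4196507) .nil)))),
   .two (nat_lit 68157448) (nat_lit 10385096712) (.two (nat_lit 605028357) (nat_lit 28806479898) (.two (nat_lit 34603009) (nat_lit 2902458493) (.two (nat_lit 1048576) (nat_lit 37329305979) (.one (nat_lit 16779420) .nil)))),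
   .two (nat_lit 4194310) (nat_lit 11476664328) (.two (nat_lit 708837381) (nat_lit 739246095) (.two (nat_lit 605028353) (nat_lit 158146232453) (.two (nat_lit 2097152) (nat_lit 4195074) (.one (nat_lit 606077811) .nil)))),
   .two (nat_lit 620757000) (nat_lit 746586122) (.two (nat_lit 10343153669) (nat_lit 620757007) (.two (nat_lit 612368385) (nat_lit 1224736887) (.two (nat_lit 8388608) (nat_lit 50331743) (.one (nat_lit 16778178) .nil)))),
   .two (nat_lit 183845781512) (nat_lit 10343153672) (.two (nat_lit 2097157) (nat_lit 9806282778) (.two (nat_lit 606076929) (nat_lit 183920230519) (.two (nat_lit 2097152) (nat_lit 2894070159) (.one (nat_lit 2323646524) .nil)))),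
   .two (nat_lit 11611930634) (nat_lit 9866051592) (.two (nat_lit 2954887173) (nat_lit 28757196815) (.two (nat_lit 2097153) (nat_lit 10436477043) (.two (nat_lit 2097152) (nat_lit 68157638) (.one (nat_lit 1050781) .nil)))),
   .two (nat_lit 272629768) (nat_lit 46407876614) (.two (nat_lit 2889875461) (nat_lit 46978301978) (.two (nat_lit 4194305) (nat_lit 46474985624) (.two (nat_lit 4194304) (nat_lit 165526111113) (.one (nat_lit 13224641889) .nil)))),
   .two (nat_lit 4194313) (nat_lit 156364701703) (.two (nat_lit 1178599427) (nat_lit 184549391) (.two (nat_lit 9768534017) (nat_lit 166144770179) (.two (nat_lit 1048576) (nat_lit 37329305801) (.one (nat_lit 16778181) .nil)))),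
   .two (nat_lit 3464495112) (nat_lit 16777222) (.two (nat_lit 47555018757) (nat_lit 352321562) (.two (nat_lit 8388609) (nat_lit 47563407448) (.two (nat_lit 4194304) (nat_lit 46481277122) (.one (nat_lit 8390103) .nil)))),
   .two (nat_lit 3457155082) (nat_lit 620757000) (.two (nat_lit 9933160453) (nat_lit 620757007) (.two (nat_lit 4194305) (nat_lit 269484165) (.two (nat_lit 4194304) (nat_lit 11492393336) (.one (nat_lit 4195800) .nil)))),
   .two (nat_lit 8388616) (nat_lit 12050235400) (.two (nat_lit 8388612) (nat_lit 18928893967) (.two (nat_lit 8388609) (nat_lit 13222543493) (.two (nat_lit 2097152) (nat_lit 183853122263) (.one (nat_lit 10370418027) .nil)))),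
   .two (nat_lit 3525312520) (nat_lit 9768534023) (.two (nat_lit 4194304) (nat_lit 2097575) .nil),
   .two (nat_lit 37320917001) (nat_lit 606076935) (.two (nat_lit 46414168067) (nat_lit 158144135192) (.two (nat_lit 8388609) (nat_lit 2097307) (.two (nat_lit 4194304) (nat_lit 276824797) (.one (nat_lit 2099270) .nil)))),
   .two (nat_lit 9948889096) (nat_lit 2987393038) (.two (nat_lit 806354949) (nat_lit 184549391) (.two (nat_lit 2097153) (nat_lit 28690088223) (.two (nat_lit 2097152) (nat_lit 16777958) (.one (nat_lit 50333848) .nil)))),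
   .two (nat_lit 185020186636) (nat_lit 21785214988) (.two (nat_lit 184986632197) (nat_lit 1417674792) (.two (nat_lit 16777217) (nat_lit 8388722) (.two (nat_lit 16777216) (nat_lit 8389700) (.one (nat_lit 8390042) .nil)))),
   .two (nat_lit 183845781512) (nat_lit 10343153672) (.two (nat_lit 2097157) (nat_lit 9806282778) (.two (nat_lit 606076929) (nat_lit 183920230519) (.two (nat_lit 2097152) (nat_lit 2894070159) (.one (nat_lit 8390817) .nil)))),
   .two (nat_lit 3527409672) (nat_lit 10538188812) (.two (nat_lit 10504634373) (nat_lit 9768534031) (.two (nat_lit 9766436865) (nat_lit 156569174123) (.two (nat_lit 2097152) (nat_lit 46477083313) (.one (nat_lit 11010048844) .nil)))),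
   .two (nat_lit 12115247114) (nat_lit 157038936072) (.two (nat_lit 159217876997) (nat_lit 157038936079) (.two (nat_lit 606076929) (nat_lit 46980399217) (.two (nat_lit 2097152) (nat_lit 46980399296) (.one (nat_lit 1178600709) .nil)))),
   .two (nat_lit 276824072) (nat_lit 1358954509) (.two (nat_lit 101711877) (nat_lit 142606360) (.two (nat_lit 605028353) (nat_lit 9881780345) (.two (nat_lit 1048576) (nat_lit 156581757301) (.one (nat_lit 19612567682) .nil)))),
   .two (nat_lit 1780482056) (nat_lit 9781116935) (.two (nat_lit 1277165571) (nat_lit 18933088271) (.two (nat_lit 606076929) (nat_lit 679477328) (.two (nat_lit 2097152) (nat_lit 8389379) (.one (nat_lit 8390819) .nil)))),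
   .two (nat_lit 16777224) (nat_lit 10503585801) (.two (nat_lit 9866051589) (nat_lit 16777231) (.two (nat_lit 34603009) (nat_lit 3003121701) (.two (nat_lit 1048576) (nat_lit 10015998049) (.one (nat_lit 16779428) .nil)))),
   .two (nat_lit 2954887176) (nat_lit 158143086600) (.two (nat_lit 169869316) (nat_lit 158143086607) (.two (nat_lit 606076929) (nat_lit 20704133227) (.two (nat_lit 2097152) (nat_lit 705692385) (.one (nat_lit 21207450474) .nil)))),
   .two (nat_lit 2097162) (nat_lit 2889875464) (.two (nat_lit 159217876997) (nat_lit 10506731535) (.two (nat_lit 606076929) (nat_lit 166132187251) (.two (nat_lit 2097152) (nat_lit 4194502) (.one (nat_lit 4196518) .nil)))),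
   .two (nat_lit 8388616) (nat_lit 705691714) (.two (nat_lit 4194305) (nat_lit 813695817) (.one (nat_lit 11543775399) .nil)),
   .two (nat_lit 4194312) (nat_lit 639631384) (.two (nat_lit 2097157) (nat_lit 612368498) (.two (nat_lit 2097153) (nat_lit 1178600003) (.two (nat_lit 1048576) (nat_lit 1277166809) (.one (nat_lit 606079146) .nil)))),
   .two (nat_lit 4194312) (nat_lit 639631375) (.two (nat_lit 4194308) (nat_lit 739246193) (.two (nat_lit 4194305) (nat_lit 739246920) (.one (nat_lit 11543774683) .nil))),
   .two (nat_lit 4194312) (nat_lit 8388674) (.two (nat_lit 4194305) (nat_lit 739246921) (.one (nat_lit 11543774684) .nil)),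
   .two (nat_lit 11479810056) (nat_lit 10940841999) (.two (nat_lit 809500677) (nat_lit 174753579075) (.two (nat_lit 37748737) (nat_lit 773849449) (.two (nat_lit 2097152) (nat_lit 4195577) (.one (nat_lit 4196524) .nil)))),
   .two (nat_lit 9940500488) (nat_lit 174752530447) (.two (nat_lit 1283457029) (nat_lit 158646403137) (.two (nat_lit 612368385) (nat_lit 158143086783) (.two (nat_lit 4194304) (nat_lit 1049851) (.one (nat_lit 10942941366) .nil)))),
   .two (nat_lit 46978301960) (nat_lit 19529728026) (.two (nat_lit 174752530437) (nat_lit 4028629058) (.two (nat_lit 156365750273) (nat_lit 2416967871) (.two (nat_lit 2097152) (nat_lit 1049852) (.one (nat_lit 2099399) .nil)))),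
   .two (nat_lit 2954887176) (nat_lit 183853121560) (.two (nat_lit 169869316) (nat_lit 13195280496) (.two (nat_lit 156372041729) (nat_lit 10538188991) (.two (nat_lit 8388608) (nat_lit 2098429) (.one (nat_lit 2099401) .nil)))),
   .two (nat_lit 46978301960) (nat_lit 158075977743) (.two (nat_lit 21777874949) (nat_lit 706740343) (.two (nat_lit 156364701697) (nat_lit 4028629354) (.two (nat_lit 1048576) (nat_lit 2098430) (.one (nat_lit 1745880540) .nil)))),
   .two (nat_lit 16777224) (nat_lit 159217877007) (.two (nat_lit 184549381) (nat_lit 20638072899) (.two (nat_lit 16777217) (nat_lit 9967763647) (.two (nat_lit 16777216) (nat_lit 2098431) (.one (nat_lit 10336863707) .nil)))),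
   .two (nat_lit 713031688) (nat_lit 9967763482) (.two (nat_lit 169869316) (nat_lit 156976021621) (.two (nat_lit 612368385) (nat_lit 9934209215) (.two (nat_lit 4194304) (nat_lit 28087158012) (.one (nat_lit 13191088327) .nil)))),
   .two (nat_lit 713031688) (nat_lit 9934209048) (.two (nat_lit 169869316) (nat_lit 880803907) (.two (nat_lit 2097153) (nat_lit 37749330) (.two (nat_lit 2097152) (nat_lit 11479810889) (.one (nat_lit 8390859) .nil)))),
   .two (nat_lit 4194312) (nat_lit 10336862223) (.two (nat_lit 4194308) (nat_lit 13222543485) (.two (nat_lit 4194305) (nat_lit 47548727487) (.two (nat_lit 4194304) (nat_lit 4028630253) (.one (nat_lit 4196556) .nil)))),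
   .two (nat_lit 169869320) (nat_lit 156367847439) (.two (nat_lit 2097157) (nat_lit 306184259) (.two (nat_lit 2097153) (nat_lit 4601151679) (.two (nat_lit 1048576) (nat_lit 4195587) (.one (nat_lit 3457157307) .nil)))),
   .two (nat_lit 8388616) (nat_lit 705691673) (.two (nat_lit 1283457029) (nat_lit 739246147) (.two (nat_lit 4194305) (nat_lit 101712229) (.two (nat_lit 4194304) (nat_lit 873465062) (.one (nat_lit 28697430193) .nil)))),
   .two (nat_lit 184549384) (nat_lit 21811429402) (.two (nat_lit 184549380) (nat_lit 1846542455) (.two (nat_lit 4194305) (nat_lit 806355304) (.two (nat_lit 16777216) (nat_lit 46406829281) (.one (nat_lit 158646405305) .nil)))),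
   .two (nat_lit 37748744) (nat_lit 1745879055) (.two (nat_lit 708837381) (nat_lit 772800578) (.two (nat_lit 2097153) (nat_lit 46406828393) (.two (nat_lit 2097152) (nat_lit 1049860) (.one (nat_lit 2099405) .nil)))),
   .two (nat_lit 169869320) (nat_lit 721420303) (.two (nat_lit 2097157) (nat_lit 166211879037) (.two (nat_lit 34603009) (nat_lit 9867100519) (.two (nat_lit 1048576) (nat_lit 28087158002) (.one (nat_lit 16779470) .nil)))),
   .two (nat_lit 4194312) (nat_lit 639631375) (.two (nat_lit 171966469) (nat_lit 3558867010) (.two (nat_lit 4194305) (nat_lit 2954887359) (.two (nat_lit 1048576) (nat_lit 2098438) (.one (nat_lit 156968683695) .nil)))),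
   .two (nat_lit 50331656) (nat_lit 183853121551) (.two (nat_lit 16777221) (nat_lit 11517558850) (.two (nat_lit 41943041) (nat_lit 822083775) (.two (nat_lit 8388608) (nat_lit 16778503) (.one (nat_lit 13228837045) .nil)))),
   .two (nat_lit 606076936) (nat_lit 713031695) (.two (nat_lit 69206021) (nat_lit 28093448314) (.two (nat_lit 37748737) (nat_lit 174759871049) (.two (nat_lit 4194304) (nat_lit 9974055754) (.one (nat_lit 158179788974) .nil)))),
   .two (nat_lit 169869320) (nat_lit 9768534031) (.two (nat_lit 2097157) (nat_lit 46510637121) (.two (nat_lit 2097153) (nat_lit 272629951) (.two (nat_lit 1048576) (nat_lit 4195592) (.one (nat_lit 739248324) .nil)))),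
   .two (nat_lit 813694984) (nat_lit 19596836879) (.two (nat_lit 11484004357) (nat_lit 12617515074) (.two (nat_lit 2097153) (nat_lit 2920284521) (.two (nat_lit 2097152) (nat_lit 2316305630) (.one (nat_lit 2099407) .nil)))),
   .two (nat_lit 2961178632) (nat_lit 639631375) (.two (nat_lit 34603013) (nat_lit 8388672) (.two (nat_lit 2097153) (nat_lit 159216829258) (.one (nat_lit 1786775738) .nil))),
   .two (nat_lit 1175453704) (nat_lit 156969730074) (.two (nat_lit 4599054341) (nat_lit 2927624259) (.two (nat_lit 2097153) (nat_lit 9806283110) (.two (nat_lit 8388608) (nat_lit 12618564869) (.one (nat_lit 1050833) .nil)))),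
   .two (nat_lit 713031688) (nat_lit 20704133145) (.two (nat_lit 171966469) (nat_lit 343933119) (.two (nat_lit 1048576) (nat_lit 46514832614) (.one (nat_lit 166199298245) .nil))),
   .two (nat_lit 50331656) (nat_lit 46980399129) (.two (nat_lit 171966469) (nat_lit 620757183) (.two (nat_lit 1048576) (nat_lit 3003122914) (.one (nat_lit 9881782451) .nil))),
   .two (nat_lit 16777224) (nat_lit 310378563) (.two (nat_lit 8388609) (nat_lit 285212863) (.two (nat_lit 8388608) (nat_lit 50332912) (.one (nat_lit 46523221468) .nil))),
   .two (nat_lit 16777224) (nat_lit 159217877007) (.two (nat_lit 184549381) (nat_lit 47548727362) (.two (nat_lit 16777217) (nat_lit 9967763647) (.two (nat_lit 16777216) (nat_lit 136316159) (.one (nat_lit 3458205148) .nil)))),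
   .two (nat_lit 176160776) (nat_lit 705691674) (.two (nat_lit 75497477) (nat_lit 185020186689) (.two (nat_lit 612368385) (nat_lit 185020186815) (.two (nat_lit 8388608) (nat_lit 2987394295) (.one (nat_lit 19537070255) .nil)))),
   .two (nat_lit 184986632200) (nat_lit 1178599439) (.two (nat_lit 12047089669) (nat_lit 156569174083) (.two (nat_lit 34603009) (nat_lit 156569174207) (.two (nat_lit 1048576) (nat_lit 708838622) (.one (nat_lit 739248312) .nil)))),
   .two (nat_lit 184549384) (nat_lit 20638072847) (.two (nat_lit 2969567237) (nat_lit 20638072898) (.two (nat_lit 156372041729) (nat_lit 165526111048) (.one (nat_lit 11007953103) .nil))),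
   .two (nat_lit 46409973768) (nat_lit 183845781530) (.two (nat_lit 12114198533) (nat_lit 306184259) (.two (nat_lit 4194305) (nat_lit 10436477289) (.two (nat_lit 4194304) (nat_lit 166196151521) (.one (nat_lit 158079125686) .nil)))),
   .two (nat_lit 10370416648) (nat_lit 47555018818) (.two (nat_lit 606076929) (nat_lit 343933119) (.two (nat_lit 2097152) (nat_lit 185027527930) (.one (nat_lit 9940502723) .nil))),
   .two (nat_lit 2889875464) (nat_lit 10939793423) (.two (nat_lit 272629765) (nat_lit 10436476993) (.two (nat_lit 34603009) (nat_lit 239075691) (.two (nat_lit 4194304) (nat_lit 2316305671) (.one (nat_lit 843057324) .nil)))),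
   .two (nat_lit 11559501832) (nat_lit 166197198872) (.two (nat_lit 1176502277) (nat_lit 185035915330) (.two (nat_lit 41943041) (nat_lit 754975368) (.two (nat_lit 8388608) (nat_lit 185035916104) (.one (nat_lit 16779481) .nil)))),
   .two (nat_lit 606076936) (nat_lit 50331663) (.two (nat_lit 1344274437) (nat_lit 37262196853) (.two (nat_lit 16777217) (nat_lit 159217877183) (.two (nat_lit 4194304) (nat_lit 47596962634) (.one (nat_lit 1224739022) .nil)))),
   .two (nat_lit 272629768) (nat_lit 639631375) (.two (nat_lit 2889875461) (nat_lit 203423810) (.two (nat_lit 2097153) (nat_lit 306184554) (.two (nat_lit 2097152) (nat_lit 47584380158) (.one (nat_lit 2954888668) .nil)))),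
   .two (nat_lit 721420296) (nat_lit 183853121551) (.two (nat_lit 13195280389) (nat_lit 50331715) (.two (nat_lit 41943041) (nat_lit 721420326) (.two (nat_lit 8388608) (nat_lit 352322016) (.one (nat_lit 16778781) .nil)))),
   .two (nat_lit 9768534024) (nat_lit 1753219087) (.two (nat_lit 2889875461) (nat_lit 184993972288) (.two (nat_lit 4194305) (nat_lit 21785215167) (.two (nat_lit 4194304) (nat_lit 158083318225) (.one (nat_lit 8390954) .nil)))),
   .two (nat_lit 705691656) (nat_lit 1749024783) (.two (nat_lit 721420292) (nat_lit 705691714) (.two (nat_lit 50331649) (nat_lit 184416207207) (.two (nat_lit 16777216) (nat_lit 11577328872) (.one (nat_lit 1343228145) .nil)))),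
   .two (nat_lit 104857608) (nat_lit 16777231) (.two (nat_lit 11479810052) (nat_lit 16777280) (.two (nat_lit 50331649) (nat_lit 156468511306) (.two (nat_lit 8388608) (nat_lit 809501514) (.one (nat_lit 16778782) .nil)))),
   .two (nat_lit 1277165574) (nat_lit 47555018767) (.two (nat_lit 47555018760) (nat_lit 1277165579) (.two (nat_lit 1277165570) (nat_lit 3028287601) (.two (nat_lit 1277165572) (nat_lit 2927624229) (.two (nat_lit 606076929) (nat_lit 3028287680) (.two (nat_lit 2097152) (nat_lit 12155093464) (.one (nat_lit 21818771674) .nil)))))),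
   .two (nat_lit 8388616) (nat_lit 809500687) (.two (nat_lit 4194308) (nat_lit 11618222147) (.two (nat_lit 8388609) (nat_lit 158146232985) (.two (nat_lit 4194304) (nat_lit 8390141) (.one (nat_lit 8390141) .nil)))),
   .two (nat_lit 813694984) (nat_lit 1291845647) (.two (nat_lit 8388612) (nat_lit 2969567266) (.two (nat_lit 8388612) (nat_lit 9948889123) (.two (nat_lit 8388609) (nat_lit 218103904) (.two (nat_lit 2097152) (nat_lit 847250252) (.one (nat_lit 28093450501) .nil))))),
   .two (nat_lit 19529728009) (nat_lit 20753416209) (.two (nat_lit 654311431) (nat_lit 2923429914) (.two (nat_lit 605028357) (nat_lit 654311491) (.two (nat_lit 34603009) (nat_lit 174701150569) (.two (nat_lit 4194304) (nat_lit 16778583) (.one (nat_lit 16778787) .nil))))),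
   .two (nat_lit 203423752) (nat_lit 28086108175) (.two (nat_lit 2954887173) (nat_lit 165525061670) (.two (nat_lit 2887778308) (nat_lit 21777874979) (.two (nat_lit 9766436865) (nat_lit 11577327807) (.two (nat_lit 2097152) (nat_lit 11577328091) (.one (nat_lit 1050923) .nil))))),
   .two (nat_lit 639631368) (nat_lit 1749024783) (.two (nat_lit 721420290) (nat_lit 9766436991) (.two (nat_lit 721420292) (nat_lit 639631396) (.two (nat_lit 50331649) (nat_lit 1780482674) (.two (nat_lit 16777216) (nat_lit 20707279714) (.one (nat_lit 4196652) .nil))))),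
   .two (nat_lit 813694984) (nat_lit 135266330) (.two (nat_lit 11484004357) (nat_lit 158143086711) (.two (nat_lit 8388609) (nat_lit 12047090277) (.two (nat_lit 8388608) (nat_lit 4632609628) (.one (nat_lit 2099501) .nil)))),
   .two (nat_lit 19093520396) (nat_lit 183853121562) (.two (nat_lit 101711877) (nat_lit 158150426741) (.two (nat_lit 605028353) (nat_lit 847249599) (.two (nat_lit 2097152) (nat_lit 2961179932) (.one (nat_lit 8390958) .nil)))),
   .two (nat_lit 9781116936) (nat_lit 1779433496) (.two (nat_lit 713031685) (nat_lit 638582866) (.two (nat_lit 2902458372) (nat_lit 1209008202) (.two (nat_lit 41943041) (nat_lit 12163481801) (.two (nat_lit 8388608) (nat_lit 12163482958) (.one (nat_lit 10955523593) .nil))))),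
   .two (nat_lit 50331656) (nat_lit 20644364307) (.two (nat_lit 21785214981) (nat_lit 185035915301) (.two (nat_lit 16777220) (nat_lit 20644364307) (.two (nat_lit 612368385) (nat_lit 83886175) (.two (nat_lit 8388608) (nat_lit 83886298) (.one (nat_lit 16778789) .nil))))),
   .two (nat_lit 28690087944) (nat_lit 606076943) (.two (nat_lit 4194306) (nat_lit 166129041535) (.two (nat_lit 4194308) (nat_lit 9933160520) (.two (nat_lit 4194305) (nat_lit 156466413933) (.two (nat_lit 4194304) (nat_lit 1948255069) (.one (nat_lit 169871631) .nil))))),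
   .two (nat_lit 68157448) (nat_lit 3028287512) (.two (nat_lit 156968681477) (nat_lit 1279262842) (.two (nat_lit 612368385) (nat_lit 1049262) (.two (nat_lit 8388608) (nat_lit 4195177) (.one (nat_lit 8390182) .nil)))),
   .two (nat_lit 2097159) (nat_lit 117440527) (.two (nat_lit 2097155) (nat_lit 46523220039) (.two (nat_lit 34603009) (nat_lit 3573547047) (.two (nat_lit 1048576) (nat_lit 10519315996) (.one (nat_lit 10519315996) .nil)))),
   .two (nat_lit 2887778312) (nat_lit 46409973775) (.two (nat_lit 270532613) (nat_lit 306184259) (.two (nat_lit 9766436865) (nat_lit 19127075401) (.two (nat_lit 2097152) (nat_lit 2920285006) (.one (nat_lit 1050928) .nil)))),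
   .two (nat_lit 203423752) (nat_lit 158083317775) (.two (nat_lit 2954887173) (nat_lit 21785215043) (.two (nat_lit 2097153) (nat_lit 184993972415) (.two (nat_lit 2097152) (nat_lit 645923326) (.one (nat_lit 10376709600) .nil)))),
   .two (nat_lit 4194312) (nat_lit 157036838927) (.two (nat_lit 4194308) (nat_lit 20638072903) (.two (nat_lit 171966467) (nat_lit 11007950955) (.two (nat_lit 4194305) (nat_lit 4028629199) (.two (nat_lit 4194304) (nat_lit 2098026) (.one (nat_lit 2099505) .nil))))),
   .two (nat_lit 158083317768) (nat_lit 174753579023) (.two (nat_lit 75497477) (nat_lit 2350907504) (.two (nat_lit 8388609) (nat_lit 10437525862) (.two (nat_lit 2097152) (nat_lit 21223179507) (.one (nat_lit 4647291118) .nil)))),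
   .two (nat_lit 10336862216) (nat_lit 184549395) (.two (nat_lit 1291845637) (nat_lit 12148801610) (.two (nat_lit 46407876612) (nat_lit 184549395) (.two (nat_lit 2097153) (nat_lit 12163481794) (.two (nat_lit 2097152) (nat_lit 13237223908) (.one (nat_lit 16778796) .nil))))),
   .two (nat_lit 1216348173) (nat_lit 3458203663) (.two (nat_lit 4605345797) (nat_lit 639631497) (.two (nat_lit 8388609) (nat_lit 2097512) (.two (nat_lit 2097152) (nat_lit 46523220459) (.one (nat_lit 2099506) .nil)))),
   .two (nat_lit 21785214984) (nat_lit 9866051595) (.two (nat_lit 1276116996) (nat_lit 21214789669) (.two (nat_lit 713031685) (nat_lit 156364701718) (.two (nat_lit 605028353) (nat_lit 28093448287) (.two (nat_lit 1048576) (nat_lit 47555018981) (.one (nat_lit 8390963) .nil))))),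
   .two (nat_lit 2887778310) (nat_lit 1846542351) (.two (nat_lit 1846542344) (nat_lit 203423755) (.two (nat_lit 2887778306) (nat_lit 156465365103) (.two (nat_lit 2887778308) (nat_lit 1779433509) (.two (nat_lit 2097153) (nat_lit 184986632388) (.two (nat_lit 2097152) (nat_lit 183845781981) (.one (nat_lit 873464789) .nil)))))),
   .two (nat_lit 19026411529) (nat_lit 3464495119) (.two (nat_lit 156372041735) (nat_lit 19093520408) (.two (nat_lit 739246085) (nat_lit 46414168177) (.two (nat_lit 34603009) (nat_lit 310379144) (.two (nat_lit 1048576) (nat_lit 4638901072) (.one (nat_lit 46414169570) .nil))))),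
   .two (nat_lit 843055116) (nat_lit 41943055) (.two (nat_lit 8388612) (nat_lit 13191086160) (.two (nat_lit 8388612) (nat_lit 13191086117) (.two (nat_lit 8388609) (nat_lit 4194681) (.two (nat_lit 8388608) (nat_lit 4195181) (.one (nat_lit 4196661) .nil))))),
   .two (nat_lit 156372041736) (nat_lit 183949590547) (.two (nat_lit 28693233669) (nat_lit 142606373) (.two (nat_lit 46414168068) (nat_lit 183949590547) (.two (nat_lit 37748737) (nat_lit 183853121631) (.two (nat_lit 4194304) (nat_lit 3464495321) (.one (nat_lit 8389614) .nil))))),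
   .two (nat_lit 46407876616) (nat_lit 713031695) (.two (nat_lit 4599054341) (nat_lit 10007609411) (.two (nat_lit 34603009) (nat_lit 8388704) (.two (nat_lit 1048576) (nat_lit 8389983) (.one (nat_lit 1216350468) .nil)))),
   .two (nat_lit 169869320) (nat_lit 1417674798) (.two (nat_lit 8388612) (nat_lit 12148801608) (.two (nat_lit 8388612) (nat_lit 9934209044) (.two (nat_lit 34603009) (nat_lit 2097362) (.two (nat_lit 8388608) (nat_lit 158143087068) (.one (nat_lit 1050936) .nil))))),
   .two (nat_lit 50331656) (nat_lit 4605345807) (.two (nat_lit 8388612) (nat_lit 285212738) (.two (nat_lit 8388609) (nat_lit 251658599) (.two (nat_lit 8388608) (nat_lit 4613735656) (.one (nat_lit 50333937) .nil)))),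
   .two (nat_lit 612368392) (nat_lit 3525312527) (.two (nat_lit 176160772) (nat_lit 20738736250) (.two (nat_lit 2097153) (nat_lit 343933119) (.two (nat_lit 2097152) (nat_lit 41943520) (.one (nat_lit 69208237) .nil)))),
   .two (nat_lit 1846542344) (nat_lit 721420303) (.two (nat_lit 721420292) (nat_lit 2349858854) (.two (nat_lit 28757196805) (nat_lit 50331683) (.two (nat_lit 9765388289) (nat_lit 16777407) (.two (nat_lit 1048576) (nat_lit 16777691) (.one (nat_lit 16779577) .nil))))),
   .two (nat_lit 158144135181) (nat_lit 10506731535) (.two (nat_lit 159217876997) (nat_lit 166132187248) (.two (nat_lit 156365750273) (nat_lit 166132187716) (.two (nat_lit 2097152) (nat_lit 4195188) (.one (nat_lit 4195896) .nil)))),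
   .two (nat_lit 3539992584) (nat_lit 2923429907) (.two (nat_lit 4601151493) (nat_lit 28806479909) (.two (nat_lit 2902458373) (nat_lit 2923429907) (.two (nat_lit 4194305) (nat_lit 754974815) (.two (nat_lit 1048576) (nat_lit 9948889308) (.one (nat_lit 4196666) .nil))))),
   .two (nat_lit 50331656) (nat_lit 11476664335) (.two (nat_lit 721420293) (nat_lit 13221494863) (.two (nat_lit 16777220) (nat_lit 174752530515) (.two (nat_lit 9765388289) (nat_lit 47596962159) (.two (nat_lit 2097152) (nat_lit 16778593) (.one (nat_lit 352323099) .nil))))),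
   .two (nat_lit 4194312) (nat_lit 654311439) (.two (nat_lit 4194308) (nat_lit 654311460) (.two (nat_lit 4194308) (nat_lit 218103826) (.two (nat_lit 4194305) (nat_lit 11492393055) (.two (nat_lit 1048576) (nat_lit 156984410597) (.one (nat_lit 1050939) .nil))))),
   .two (nat_lit 2961178632) (nat_lit 184549391) (.two (nat_lit 176160772) (nat_lit 50331682) (.two (nat_lit 8388609) (nat_lit 3036676134) (.two (nat_lit 1048576) (nat_lit 16778101) (.one (nat_lit 1050940) .nil)))),
   .two (nat_lit 50331656) (nat_lit 46414168079) (.two (nat_lit 721420293) (nat_lit 1182793858) (.two (nat_lit 50331649) (nat_lit 13228835193) (.two (nat_lit 8388608) (nat_lit 1392509775) (.one (nat_lit 8390973) .nil)))),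
   .two (nat_lit 37748743) (nat_lit 1795162127) (.two (nat_lit 37748739) (nat_lit 28705816644) (.two (nat_lit 606076929) (nat_lit 47563407399) (.two (nat_lit 2097152) (nat_lit 2432697304) (.one (nat_lit 2432697304) .nil)))),
   .two (nat_lit 9768534024) (nat_lit 165526110223) (.two (nat_lit 2889875460) (nat_lit 12115247221) (.two (nat_lit 606076929) (nat_lit 3024093812) (.two (nat_lit 2097152) (nat_lit 339739977) (.one (nat_lit 28691138762) .nil)))),
   .two (nat_lit 880803852) (nat_lit 11559501839) (.two (nat_lit 721420290) (nat_lit 1786773634) (.two (nat_lit 721420292) (nat_lit 41943077) (.two (nat_lit 50331649) (nat_lit 1350566254) (.two (nat_lit 16777216) (nat_lit 13195281244) (.one (nat_lit 20644366555) .nil))))),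
   .two (nat_lit 2920284170) (nat_lit 13195280399) (.two (nat_lit 13195280391) (nat_lit 9866051595) (.two (nat_lit 705691650) (nat_lit 4605345905) (.two (nat_lit 9866051589) (nat_lit 780140581) (.two (nat_lit 34603009) (nat_lit 4605345984) (.two (nat_lit 1048576) (nat_lit 20745028056) (.one (nat_lit 1350568155) .nil)))))),
   .two (nat_lit 9867100169) (nat_lit 166132187151) (.two (nat_lit 165526110213) (nat_lit 9768534053) (.two (nat_lit 165526110213) (nat_lit 156971827219) (.two (nat_lit 2097153) (nat_lit 3527409761) (.two (nat_lit 2097152) (nat_lit 3527409881) (.one (nat_lit 2319451091) .nil))))),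
   .two (nat_lit 13228834825) (nat_lit 11543773200) (.two (nat_lit 2097159) (nat_lit 176160783) (.two (nat_lit 159224168453) (nat_lit 37246468216) (.two (nat_lit 156372041729) (nat_lit 1846542700) (.two (nat_lit 2097152) (nat_lit 1175454549) (.one (nat_lit 11476665324) .nil))))),
   .two (nat_lit 183853121544) (nat_lit 28757196819) (.two (nat_lit 2956984325) (nat_lit 13195280420) (.two (nat_lit 2956984325) (nat_lit 4605345810) (.two (nat_lit 4194305) (nat_lit 21785215071) (.two (nat_lit 1048576) (nat_lit 156372041948) (.one (nat_lit 159216829932) .nil))))),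
   .two (nat_lit 19529728008) (nat_lit 12054429711) (.two (nat_lit 1276116994) (nat_lit 8388745) (.two (nat_lit 713031685) (nat_lit 1962934309) (.two (nat_lit 605028353) (nat_lit 2424308342) (.two (nat_lit 1048576) (nat_lit 1224737634) (.one (nat_lit 16779582) .nil))))),
   .two (nat_lit 41943048) (nat_lit 10336862223) (.two (nat_lit 713031685) (nat_lit 807403559) (.two (nat_lit 713031683) (nat_lit 156465365110) (.two (nat_lit 156365750273) (nat_lit 28697428344) (.two (nat_lit 1048576) (nat_lit 8389986) (.one (nat_lit 612369919) .nil))))),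
   .two (nat_lit 184986632200) (nat_lit 9781116943) (.two (nat_lit 705691652) (nat_lit 1191182403) (.two (nat_lit 34603009) (nat_lit 11492393155) (.two (nat_lit 1048576) (nat_lit 16778595) (.one (nat_lit 50333193) .nil)))),
   .two (nat_lit 183845781510) (nat_lit 1310720019) (.two (nat_lit 20637024258) (nat_lit 2350907429) (.two (nat_lit 12047089669) (nat_lit 1310720019) (.two (nat_lit 605028353) (nat_lit 18926796898) (.two (nat_lit 1048576) (nat_lit 3021996514) (.one (nat_lit 2099519) .nil))))),
   .two (nat_lit 4194311) (nat_lit 10343153688) (.two (nat_lit 4194307) (nat_lit 157043130406) (.two (nat_lit 4194305) (nat_lit 157043130406) (.two (nat_lit 4194304) (nat_lit 8389989) (.one (nat_lit 1050171) .nil)))),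
   .two (nat_lit 2889875464) (nat_lit 28087156751) (.two (nat_lit 721420292) (nat_lit 272629824) (.two (nat_lit 50331649) (nat_lit 809500863) (.two (nat_lit 2097152) (nat_lit 13224640978) (.one (nat_lit 4196673) .nil)))),
   .two (nat_lit 16777224) (nat_lit 11546918956) (.two (nat_lit 721420292) (nat_lit 9933160574) (.two (nat_lit 4194305) (nat_lit 1049230) (.two (nat_lit 4194304) (nat_lit 11610883365) (.one (nat_lit 166132189422) .nil)))),
   .two (nat_lit 50331655) (nat_lit 11543773199) (.two (nat_lit 50331651) (nat_lit 705691761) (.two (nat_lit 50331649) (nat_lit 1913651239) (.two (nat_lit 16777216) (nat_lit 166196151252) (.one (nat_lit 166196151252) .nil)))),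
   .two (nat_lit 270532621) (nat_lit 28093448207) (.two (nat_lit 806354949) (nat_lit 1753219108) (.two (nat_lit 270532613) (nat_lit 20644364306) (.two (nat_lit 2097153) (nat_lit 3464495199) (.two (nat_lit 1048576) (nat_lit 21785215196) (.one (nat_lit 2099522) .nil))))),
   .two (nat_lit 11543773192) (nat_lit 21208498202) (.two (nat_lit 171966469) (nat_lit 10504634445) (.two (nat_lit 605028357) (nat_lit 184987680852) (.two (nat_lit 605028353) (nat_lit 606077599) (.two (nat_lit 1048576) (nat_lit 2098534) (.one (nat_lit 4196579) .nil))))),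
   .two (nat_lit 19596836871) (nat_lit 12117344271) (.two (nat_lit 18925748227) (nat_lit 184419352643) (.two (nat_lit 156364701697) (nat_lit 12117344294) (.two (nat_lit 1048576) (nat_lit 2420113888) (.one (nat_lit 4196675) .nil)))),
   .two (nat_lit 18925748232) (nat_lit 157038936079) (.two (nat_lit 705691650) (nat_lit 4634706170) (.two (nat_lit 605028357) (nat_lit 9948889124) (.two (nat_lit 9768534017) (nat_lit 620757618) (.two (nat_lit 1048576) (nat_lit 1849689637) (.one (nat_lit 3524266262) .nil))))),
   .two (nat_lit 75497480) (nat_lit 4601151503) (.two (nat_lit 612368389) (nat_lit 4601151524) (.two (nat_lit 612368389) (nat_lit 4601151506) (.two (nat_lit 612368385) (nat_lit 20707279058) (.two (nat_lit 2097152) (nat_lit 310378972) (.one (nat_lit 8390980) .nil))))),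
   .two (nat_lit 184423546888) (nat_lit 183949590547) (.two (nat_lit 809500677) (nat_lit 176160887) (.two (nat_lit 37748737) (nat_lit 3464495199) (.two (nat_lit 4194304) (nat_lit 19033752037) (.one (nat_lit 4196677) .nil)))),
   .two (nat_lit 21207449613) (nat_lit 1753219087) (.two (nat_lit 9933160453) (nat_lit 679477328) (.two (nat_lit 9933160453) (nat_lit 10913579045) (.two (nat_lit 4194305) (nat_lit 8388989) (.two (nat_lit 4194304) (nat_lit 166203491168) (.one (nat_lit 1050950) .nil))))),
   .two (nat_lit 183920230409) (nat_lit 2902458383) (.two (nat_lit 2902458376) (nat_lit 158150426646) (.two (nat_lit 176160770) (nat_lit 2432696439) (.two (nat_lit 8388613) (nat_lit 4613734437) (.two (nat_lit 8388609) (nat_lit 20719861961) (.two (nat_lit 8388608) (nat_lit 156481094102) (.one (nat_lit 687868123) .nil)))))),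
   .two (nat_lit 10504634376) (nat_lit 19599982607) (.two (nat_lit 2887778308) (nat_lit 10942939173) (.two (nat_lit 2887778308) (nat_lit 775946259) (.two (nat_lit 2097153) (nat_lit 12117344450) (.two (nat_lit 4194304) (nat_lit 10001318112) (.one (nat_lit 4196680) .nil))))),
   .two (nat_lit 713031688) (nat_lit 46980399119) (.two (nat_lit 47550824453) (nat_lit 10007609411) (.two (nat_lit 4194305) (nat_lit 159257723086) (.two (nat_lit 1048576) (nat_lit 1413481294) (.one (nat_lit 8390985) .nil)))),
   .two (nat_lit 9802088460) (nat_lit 11543773199) (.two (nat_lit 10506731525) (nat_lit 1947205754) (.two (nat_lit 9768534017) (nat_lit 18925748830) (.two (nat_lit 4194304) (nat_lit 806355793) (.one (nat_lit 1050954) .nil)))),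
   .two (nat_lit 1358954504) (nat_lit 11479810063) (.two (nat_lit 721420292) (nat_lit 272629794) (.two (nat_lit 721420292) (nat_lit 809500707) (.two (nat_lit 50331649) (nat_lit 272629856) (.two (nat_lit 2097152) (nat_lit 809501546) (.one (nat_lit 156581759464) .nil))))),
   .two (nat_lit 50331655) (nat_lit 9934209039) (.two (nat_lit 50331651) (nat_lit 12148801666) (.two (nat_lit 50331649) (nat_lit 9967763494) (.two (nat_lit 16777216) (nat_lit 2098041) (.one (nat_lit 2098751) .nil)))),
   .two (nat_lit 4194312) (nat_lit 3028287512) (.two (nat_lit 1782579205) (nat_lit 10000269380) (.two (nat_lit 4194308) (nat_lit 1920991306) (.two (nat_lit 612368385) (nat_lit 156532474540) (.two (nat_lit 1048576) (nat_lit 4638900694) (.one (nat_lit 8390987) .nil))))),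
   .two (nat_lit 203423752) (nat_lit 11492392971) (.two (nat_lit 11492392964) (nat_lit 9799991366) (.two (nat_lit 11492392964) (nat_lit 203423765) (.two (nat_lit 50331649) (nat_lit 10370416738) (.two (nat_lit 16777216) (nat_lit 2317353442) (.one (nat_lit 2099532) .nil))))),
   .two (nat_lit 4194312) (nat_lit 159224168463) (.two (nat_lit 4194308) (nat_lit 11517558903) (.two (nat_lit 8388609) (nat_lit 4194991) (.two (nat_lit 8388608) (nat_lit 101712728) (.one (nat_lit 21207451174) .nil)))),
   .two (nat_lit 272629768) (nat_lit 12114198543) (.two (nat_lit 4194308) (nat_lit 19596836898) (.two (nat_lit 4194308) (nat_lit 184416206883) (.two (nat_lit 4194305) (nat_lit 2416967776) (.two (nat_lit 4194304) (nat_lit 1049959) (.one (nat_lit 1050957) .nil))))),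
   .two (nat_lit 37748744) (nat_lit 19596836879) (.two (nat_lit 4194308) (nat_lit 21207449639) (.two (nat_lit 4194308) (nat_lit 10939793445) (.two (nat_lit 37748737) (nat_lit 12617515215) (.two (nat_lit 1048576) (nat_lit 2317354323) (.one (nat_lit 2099534) .nil))))),
   .two (nat_lit 158144135176) (nat_lit 176160783) (.two (nat_lit 176160772) (nat_lit 2954887243) (.two (nat_lit 8388613) (nat_lit 9766436886) (.two (nat_lit 606076929) (nat_lit 8388701) (.two (nat_lit 2097152) (nat_lit 343933795) (.one (nat_lit 2099535) .nil))))),
   .two (nat_lit 270532615) (nat_lit 13191086095) (.two (nat_lit 171966467) (nat_lit 1377828932) (.two (nat_lit 4194305) (nat_lit 13222543399) (.two (nat_lit 4194304) (nat_lit 12048139224) (.one (nat_lit 12048139224) .nil)))),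
   .two (nat_lit 3036676109) (nat_lit 272629775) (.two (nat_lit 184549381) (nat_lit 19096666249) (.two (nat_lit 37748737) (nat_lit 174685422252) (.two (nat_lit 1048576) (nat_lit 156367847891) (.one (nat_lit 4196688) .nil)))),
   .two (nat_lit 11543773192) (nat_lit 742391819) (.two (nat_lit 11479810052) (nat_lit 21777874980) (.two (nat_lit 809500677) (nat_lit 158075977746) (.two (nat_lit 37748737) (nat_lit 10503586002) (.two (nat_lit 1048576) (nat_lit 28089254908) (.one (nat_lit 4196689) .nil))))),
   .two (nat_lit 101711880) (nat_lit 1847590927) (.two (nat_lit 705691650) (nat_lit 157036839030) (.two (nat_lit 739246085) (nat_lit 10370416677) (.two (nat_lit 605028353) (nat_lit 9867100537) (.two (nat_lit 1048576) (nat_lit 9867101037) (.one (nat_lit 158177691872) .nil))))),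
   .two (nat_lit 1847590920) (nat_lit 68157455) (.two (nat_lit 2889875461) (nat_lit 35651623) (.two (nat_lit 37748739) (nat_lit 10939793541) (.two (nat_lit 34603009) (nat_lit 4195038) (.two (nat_lit 1048576) (nat_lit 4195690) (.one (nat_lit 21814577392) .nil))))),
   .two (nat_lit 157036838920) (nat_lit 4601151499) (.two (nat_lit 4194308) (nat_lit 2350907429) (.two (nat_lit 4194308) (nat_lit 236978195) (.two (nat_lit 4194305) (nat_lit 156533522527) (.two (nat_lit 4194304) (nat_lit 19027460313) (.one (nat_lit 337642451) .nil))))),
   .two (nat_lit 11543773192) (nat_lit 184419352587) (.two (nat_lit 183848927236) (nat_lit 12114198565) (.two (nat_lit 4194308) (nat_lit 135266323) (.two (nat_lit 156367847425) (nat_lit 873463906) (.two (nat_lit 4194304) (nat_lit 9798942943) (.one (nat_lit 12114200895) .nil))))),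
   .two (nat_lit 9948889095) (nat_lit 13224640538) (.two (nat_lit 1291845635) (nat_lit 11614027854) (.two (nat_lit 606076929) (nat_lit 158649548839) (.two (nat_lit 2097152) (nat_lit 1413481432) (.one (nat_lit 1413481432) .nil)))),
   .two (nat_lit 157036838920) (nat_lit 1916796943) (.two (nat_lit 46407876612) (nat_lit 1849688101) (.two (nat_lit 11479810052) (nat_lit 337641494) (.two (nat_lit 2097153) (nat_lit 184419352770) (.two (nat_lit 4194304) (nat_lit 2098043) (.one (nat_lit 2420115703) .nil))))),
   .two (nat_lit 705691654) (nat_lit 28758245391) (.two (nat_lit 705691652) (nat_lit 28691136549) (.two (nat_lit 705691652) (nat_lit 158177689619) (.two (nat_lit 34603009) (nat_lit 2350907489) (.two (nat_lit 1048576) (nat_lit 2350907609) (.one (nat_lit 2098754) .nil))))),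
   .two (nat_lit 239075337) (nat_lit 50331664) (.two (nat_lit 9948889095) (nat_lit 18928893995) (.two (nat_lit 620756997) (nat_lit 11010048082) (.two (nat_lit 809500677) (nat_lit 50331683) (.two (nat_lit 37748737) (nat_lit 184549472) (.two (nat_lit 8388608) (nat_lit 1426064866) (.one (nat_lit 1426064866) .nil)))))),
   .two (nat_lit 8388616) (nat_lit 12117344272) (.two (nat_lit 8388615) (nat_lit 12150898711) (.two (nat_lit 8388612) (nat_lit 1916796966) (.two (nat_lit 8388611) (nat_lit 641728638) (.two (nat_lit 620756993) (nat_lit 3024093380) (.two (nat_lit 16777216) (nat_lit 19599983436) (.one (nat_lit 4196690) .nil)))))),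
   .two (nat_lit 12114198536) (nat_lit 13195280406) (.two (nat_lit 1283457029) (nat_lit 11476664357) (.two (nat_lit 8388612) (nat_lit 174752530451) (.two (nat_lit 4194305) (nat_lit 4631560287) (.two (nat_lit 4194304) (nat_lit 672137437) (.one (nat_lit 20711474668) .nil))))),
   .two (nat_lit 10503585801) (nat_lit 1291845647) (.two (nat_lit 1291845640) (nat_lit 13187940374) (.two (nat_lit 9866051589) (nat_lit 20753416258) (.two (nat_lit 34603009) (nat_lit 166144770658) (.two (nat_lit 1048576) (nat_lit 28705817045) (.one (nat_lit 16779603) .nil))))),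
   .two (nat_lit 3531603978) (nat_lit 156968681487) (.two (nat_lit 21785214981) (nat_lit 1745879077) (.two (nat_lit 21785214981) (nat_lit 10436476947) (.two (nat_lit 612368385) (nat_lit 11006902370) (.two (nat_lit 8388608) (nat_lit 166229705186) (.one (nat_lit 638585058) .nil))))),
   .two (nat_lit 18933088264) (nat_lit 156465365011) (.two (nat_lit 183853121540) (nat_lit 28086108197) (.two (nat_lit 156372041733) (nat_lit 156465365011) (.two (nat_lit 41943041) (nat_lit 157035790434) (.two (nat_lit 1048576) (nat_lit 1853882851) (.one (nat_lit 8390996) .nil))))),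
   .two (nat_lit 174753579015) (nat_lit 1410334752) (.two (nat_lit 68157443) (nat_lit 174686470256) (.two (nat_lit 605028353) (nat_lit 673185830) (.two (nat_lit 1048576) (nat_lit 19128123863) (.one (nat_lit 156533523421) .nil)))),
   .two (nat_lit 13191086087) (nat_lit 3525312527) (.two (nat_lit 37748739) (nat_lit 19027460163) (.two (nat_lit 37748737) (nat_lit 46474985510) (.two (nat_lit 4194304) (nat_lit 2098045) (.one (nat_lit 2098747) .nil)))),
   .two (nat_lit 1343225864) (nat_lit 18928893967) (.two (nat_lit 9866051589) (nat_lit 843055171) (.two (nat_lit 34603009) (nat_lit 306184383) (.two (nat_lit 1048576) (nat_lit 306184657) (.one (nat_lit 1312819421) .nil)))),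
   .two (nat_lit 203423752) (nat_lit 28086108175) (.two (nat_lit 2887778308) (nat_lit 1376780355) (.two (nat_lit 9766436865) (nat_lit 11577327807) (.two (nat_lit 1048576) (nat_lit 21208499042) (.one (nat_lit 1050966) .nil)))),
   .two (nat_lit 50331656) (nat_lit 12147752986) (.two (nat_lit 721420293) (nat_lit 10000269443) (.two (nat_lit 16777217) (nat_lit 639632001) (.two (nat_lit 16777216) (nat_lit 156567077756) (.one (nat_lit 165525063276) .nil)))),
   .two (nat_lit 10504634376) (nat_lit 2920284202) (.two (nat_lit 2887778306) (nat_lit 21207449718) (.two (nat_lit 1276116996) (nat_lit 156466413605) (.two (nat_lit 9766436865) (nat_lit 11610882415) (.two (nat_lit 2097152) (nat_lit 1049470) (.one (nat_lit 1050180) .nil))))),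
   .two (nat_lit 2969567239) (nat_lit 19027460120) (.two (nat_lit 713031683) (nat_lit 2902458482) (.two (nat_lit 41943041) (nat_lit 158091706573) (.two (nat_lit 8388608) (nat_lit 16778603) (.one (nat_lit 2099544) .nil)))),
   .two (nat_lit 10940841997) (nat_lit 218103834) (.two (nat_lit 10336862213) (nat_lit 1426063479) (.two (nat_lit 606076929) (nat_lit 4647289023) (.two (nat_lit 1048576) (nat_lit 620757465) (.one (nat_lit 16779609) .nil)))),
   .two (nat_lit 183845781510) (nat_lit 9799991346) (.two (nat_lit 18925748232) (nat_lit 1310720019) (.two (nat_lit 1277165573) (nat_lit 20753416311) (.two (nat_lit 2097153) (nat_lit 687866057) (.two (nat_lit 1048576) (nat_lit 16778111) (.one (nat_lit 16779610) .nil))))),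
   .two (nat_lit 705691654) (nat_lit 20638072843) (.two (nat_lit 705691650) (nat_lit 28791799878) (.two (nat_lit 705691652) (nat_lit 20638072853) (.two (nat_lit 34603009) (nat_lit 20705181794) (.two (nat_lit 1048576) (nat_lit 46508540392) (.one (nat_lit 2099547) .nil))))),
   .two (nat_lit 159224168456) (nat_lit 174753579023) (.two (nat_lit 1277165570) (nat_lit 109052023) (.two (nat_lit 176160773) (nat_lit 156969730085) (.two (nat_lit 606076929) (nat_lit 2961178825) (.two (nat_lit 2097152) (nat_lit 8389504) (.one (nat_lit 8391004) .nil))))),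
   .two (nat_lit 10338959369) (nat_lit 184986632207) (.two (nat_lit 28693233669) (nat_lit 184416206885) (.two (nat_lit 809500677) (nat_lit 21811429395) (.two (nat_lit 37748737) (nat_lit 158075977922) (.two (nat_lit 4194304) (nat_lit 20737688040) (.one (nat_lit 1050973) .nil))))),
   .two (nat_lit 13228834825) (nat_lit 4194321) (.two (nat_lit 612368391) (nat_lit 843055130) (.two (nat_lit 159224168453) (nat_lit 11479810127) (.two (nat_lit 159224168453) (nat_lit 1312817235) (.two (nat_lit 156372041729) (nat_lit 809500863) (.two (nat_lit 2097152) (nat_lit 9768534491) (.one (nat_lit 4196702) .nil)))))),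
   .two (nat_lit 68157448) (nat_lit 2902458383) (.two (nat_lit 605028357) (nat_lit 1191182403) (.two (nat_lit 4194305) (nat_lit 158646403755) (.two (nat_lit 4194304) (nat_lit 13237224799) (.one (nat_lit 16779615) .nil)))),
   .two (nat_lit 739246088) (nat_lit 1753219087) (.two (nat_lit 11543773189) (nat_lit 18933088294) (.two (nat_lit 11543773189) (nat_lit 10913579045) (.two (nat_lit 34603009) (nat_lit 3464495311) (.two (nat_lit 8388608) (nat_lit 34604357) (.one (nat_lit 41945375) .nil))))),
   .two (nat_lit 37748744) (nat_lit 8388623) (.two (nat_lit 4194308) (nat_lit 9974054951) (.two (nat_lit 11484004357) (nat_lit 2319450195) (.two (nat_lit 37748737) (nat_lit 12155093581) (.two (nat_lit 4194304) (nat_lit 75497963) (.one (nat_lit 8391009) .nil))))),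
   .two (nat_lit 1175453704) (nat_lit 11479810063) (.two (nat_lit 1782579205) (nat_lit 11006902355) (.two (nat_lit 8388613) (nat_lit 157035790358) (.two (nat_lit 8388609) (nat_lit 12620660834) (.two (nat_lit 1048576) (nat_lit 28760343016) (.one (nat_lit 4196706) .nil))))),
   .two (nat_lit 809500679) (nat_lit 46992982032) (.two (nat_lit 13191086085) (nat_lit 46489665574) (.two (nat_lit 37748737) (nat_lit 46489665574) (.two (nat_lit 8388608) (nat_lit 4195693) (.one (nat_lit 239077832) .nil)))),
   .two (nat_lit 612368392) (nat_lit 183848927247) (.two (nat_lit 209715205) (nat_lit 12050235468) (.two (nat_lit 176160772) (nat_lit 809500709) (.two (nat_lit 8388609) (nat_lit 4634706016) (.two (nat_lit 1048576) (nat_lit 37249615079) (.one (nat_lit 4196708) .nil))))),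
   .two (nat_lit 158144135176) (nat_lit 739246091) (.two (nat_lit 28690087941) (nat_lit 2954887243) (.two (nat_lit 1175453699) (nat_lit 1277165586) (.two (nat_lit 9765388289) (nat_lit 18926797010) (.two (nat_lit 1048576) (nat_lit 2097647) (.one (nat_lit 1050981) .nil))))),
   .two (nat_lit 612368392) (nat_lit 203423755) (.two (nat_lit 165526110213) (nat_lit 8388672) (.two (nat_lit 2097153) (nat_lit 8388701) (.two (nat_lit 8388608) (nat_lit 1277165785) (.one (nat_lit 158183983363) .nil)))),
   .two (nat_lit 50331656) (nat_lit 639631375) (.two (nat_lit 16777220) (nat_lit 639631396) (.two (nat_lit 16777220) (nat_lit 203423762) (.two (nat_lit 16777217) (nat_lit 18926797010) (.two (nat_lit 16777216) (nat_lit 2098053) (.one (nat_lit 2099559) .nil))))),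
   .two (nat_lit 46481276938) (nat_lit 158176641043) (.two (nat_lit 1276116994) (nat_lit 28093448306) (.two (nat_lit 184993972229) (nat_lit 158176641043) (.two (nat_lit 605028353) (nat_lit 20644364385) (.two (nat_lit 1048576) (nat_lit 20644364505) (.one (nat_lit 8390951) .nil))))),
   .two (nat_lit 9948889095) (nat_lit 11007950888) (.two (nat_lit 9766436867) (nat_lit 50331715) (.two (nat_lit 9766436865) (nat_lit 83886118) (.two (nat_lit 4194304) (nat_lit 16778122) (.one (nat_lit 156380430849) .nil)))),
   .two (nat_lit 47548727304) (nat_lit 1276117018) (.two (nat_lit 3458203653) (nat_lit 47581233284) (.two (nat_lit 606076929) (nat_lit 1049266) (.two (nat_lit 1048576) (nat_lit 4632609238) (.one (nat_lit 2099435) .nil)))),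
   .two (nat_lit 12117344264) (nat_lit 101711887) (.two (nat_lit 705691650) (nat_lit 10003415159) (.two (nat_lit 11479810053) (nat_lit 166229704741) (.two (nat_lit 34603009) (nat_lit 1749024969) (.two (nat_lit 1048576) (nat_lit 156367848320) (.one (nat_lit 185023334620) .nil))))),
   .two (nat_lit 203423752) (nat_lit 3464495129) (.two (nat_lit 2954887173) (nat_lit 174759870591) (.two (nat_lit 9765388289) (nat_lit 46407877344) (.two (nat_lit 1048576) (nat_lit 46407877078) (.one (nat_lit 2099563) .nil)))),
   .two (nat_lit 19596836872) (nat_lit 9799991346) (.two (nat_lit 2097157) (nat_lit 11492393027) (.two (nat_lit 606076929) (nat_lit 2902458972) (.two (nat_lit 1048576) (nat_lit 16778612) (.one (nat_lit 16779628) .nil)))),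
   .two (nat_lit 4194311) (nat_lit 174753579023) (.two (nat_lit 171966467) (nat_lit 10940842099) (.two (nat_lit 605028353) (nat_lit 169869351) (.two (nat_lit 1048576) (nat_lit 2098550) (.one (nat_lit 4195919) .nil)))),
   .two (nat_lit 50331656) (nat_lit 739246091) (.two (nat_lit 11476664324) (nat_lit 185035915301) (.two (nat_lit 11476664324) (nat_lit 285212691) (.two (nat_lit 9765388289) (nat_lit 11525947490) (.two (nat_lit 16777216) (nat_lit 1049483) (.one (nat_lit 185035917538) .nil))))),
   .two (nat_lit 8388615) (nat_lit 1191182351) (.two (nat_lit 176160771) (nat_lit 11559501902) (.two (nat_lit 50331649) (nat_lit 46414168102) (.two (nat_lit 16777216) (nat_lit 21818770770) (.one (nat_lit 4647289821) .nil)))),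
   .two (nat_lit 2097159) (nat_lit 13195280399) (.two (nat_lit 169869315) (nat_lit 1317011575) (.two (nat_lit 8388609) (nat_lit 874512423) (.two (nat_lit 1048576) (nat_lit 337642326) (.one (nat_lit 169870873) .nil)))),
   .two (nat_lit 3527409672) (nat_lit 10538188822) (.two (nat_lit 2889875460) (nat_lit 16777252) (.two (nat_lit 16777220) (nat_lit 2889875476) (.two (nat_lit 4194305) (nat_lit 2365587666) (.two (nat_lit 2097152) (nat_lit 20640170201) (.one (nat_lit 4196718) .nil))))),
   .two (nat_lit 184986632199) (nat_lit 654311439) (.two (nat_lit 705691651) (nat_lit 10452205636) (.two (nat_lit 34603009) (nat_lit 9781116966) (.two (nat_lit 4194304) (nat_lit 46406829389) (.one (nat_lit 1050194) .nil)))),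
   .two (nat_lit 19026411529) (nat_lit 28691136523) (.two (nat_lit 705691650) (nat_lit 158177689670) (.two (nat_lit 739246085) (nat_lit 166130090005) (.two (nat_lit 605028353) (nat_lit 12115247199) (.two (nat_lit 1048576) (nat_lit 1847591405) (.one (nat_lit 2099567) .nil))))),
   .two (nat_lit 612368391) (nat_lit 37246468122) (.two (nat_lit 75497475) (nat_lit 11006902350) (.two (nat_lit 16777217) (nat_lit 10510925863) (.two (nat_lit 16777216) (nat_lit 8389518) (.one (nat_lit 156472707314) .nil)))),
   .two (nat_lit 2889875460) (nat_lit 28691136533) (.one (nat_lit 2098771) .nil),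
   .two (nat_lit 2887778310) (nat_lit 46414168075) (.two (nat_lit 169869314) (nat_lit 4605345828) (.two (nat_lit 203423749) (nat_lit 46414168082) (.two (nat_lit 2097153) (nat_lit 159224168543) (.two (nat_lit 2097152) (nat_lit 11551113698) (.one (nat_lit 8391026) .nil))))),
   .two (nat_lit 184986632200) (nat_lit 10001317938) (.two (nat_lit 166130089989) (nat_lit 19029557377) (.two (nat_lit 4194305) (nat_lit 10336862304) (.two (nat_lit 1048576) (nat_lit 4195705) (.one (nat_lit 1050196) .nil)))),
   .two (nat_lit 21207449608) (nat_lit 156567076886) (.two (nat_lit 157036838917) (nat_lit 605028501) (.two (nat_lit 158143086597) (nat_lit 156567076886) (.two (nat_lit 9766436865) (nat_lit 12047089761) (.two (nat_lit 2097152) (nat_lit 12047089881) (.one (nat_lit 1050995) .nil))))),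
   .two (nat_lit 185027526665) (nat_lit 705691659) (.two (nat_lit 46414168066) (nat_lit 18925748294) (.two (nat_lit 4605345797) (nat_lit 705691669) (.two (nat_lit 8388609) (nat_lit 37246468300) (.two (nat_lit 8388608) (nat_lit 10537140720) (.one (nat_lit 1050996) .nil))))),
   .two (nat_lit 2956984327) (nat_lit 28093448207) (.two (nat_lit 171966467) (nat_lit 1753219184) (.two (nat_lit 4194305) (nat_lit 165532401702) (.two (nat_lit 1048576) (nat_lit 12155093463) (.one (nat_lit 4195926) .nil)))),
   .two (nat_lit 1913651208) (nat_lit 20738736147) (.two (nat_lit 1344274437) (nat_lit 1846542373) (.two (nat_lit 1344274437) (nat_lit 12147752979) (.two (nat_lit 37748737) (nat_lit 9765388386) (.two (nat_lit 1048576) (nat_lit 21812478175) (.one (nat_lit 1050997) .nil))))),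
   .two (nat_lit 10343153672) (nat_lit 3525312523) (.two (nat_lit 203423749) (nat_lit 184423546950) (.two (nat_lit 203423749) (nat_lit 46414168082) (.two (nat_lit 2097153) (nat_lit 159224168543) (.two (nat_lit 2097152) (nat_lit 880804069) (.one (nat_lit 19100862727) .nil))))),
   .two (nat_lit 12114198536) (nat_lit 158083317783) (.two (nat_lit 159224168453) (nat_lit 19596836898) (.two (nat_lit 159224168453) (nat_lit 184416206883) (.two (nat_lit 34603009) (nat_lit 156372041935) (.two (nat_lit 1048576) (nat_lit 1317012300) (.one (nat_lit 9806285091) .nil))))),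
   .two (nat_lit 1916796935) (nat_lit 285212688) (.two (nat_lit 1178599427) (nat_lit 20652752969) (.two (nat_lit 9768534017) (nat_lit 46523220006) (.two (nat_lit 1048576) (nat_lit 16778621) (.one (nat_lit 16778840) .nil)))),
   .two (nat_lit 1862270986) (nat_lit 2954887179) (.two (nat_lit 721420290) (nat_lit 9766436934) (.two (nat_lit 50331653) (nat_lit 2954887189) (.two (nat_lit 50331649) (nat_lit 19027460300) (.two (nat_lit 16777216) (nat_lit 136315376) (.one (nat_lit 158647453966) .nil))))),
   .two (nat_lit 9948889095) (nat_lit 337641501) (.two (nat_lit 9766436867) (nat_lit 620757059) (.two (nat_lit 9766436865) (nat_lit 83886118) (.two (nat_lit 4194304) (nat_lit 822084070) (.one (nat_lit 156380430849) .nil)))),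
   .two (nat_lit 37748744) (nat_lit 183946444819) (.two (nat_lit 69206021) (nat_lit 739246155) (.two (nat_lit 4194308) (nat_lit 183946444819) (.two (nat_lit 2097153) (nat_lit 156569174395) (.two (nat_lit 2097152) (nat_lit 165525062117) (.one (nat_lit 2099576) .nil))))),
   .two (nat_lit 158177689609) (nat_lit 158143086607) (.two (nat_lit 158143086600) (nat_lit 11007950867) (.two (nat_lit 46407876610) (nat_lit 158176641135) (.two (nat_lit 47548727301) (nat_lit 158075977765) (.two (nat_lit 2097153) (nat_lit 184416207044) (.two (nat_lit 2097152) (nat_lit 183946445277) (.one (nat_lit 13221495765) .nil)))))),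
   .two (nat_lit 12114198536) (nat_lit 47596961811) (.two (nat_lit 165528207365) (nat_lit 12114198564) (.two (nat_lit 16777221) (nat_lit 11610882068) (.two (nat_lit 4194305) (nat_lit 4631560287) (.two (nat_lit 4194304) (nat_lit 672137437) (.one (nat_lit 158662133228) .nil))))),
   .two (nat_lit 813694985) (nat_lit 203423759) (.two (nat_lit 2954887175) (nat_lit 183853121547) (.two (nat_lit 20644364290) (nat_lit 46474985585) (.two (nat_lit 1753219077) (nat_lit 47548727333) (.two (nat_lit 612368385) (nat_lit 46474985664) (.two (nat_lit 8388608) (nat_lit 2418016728) (.one (nat_lit 304089310) .nil)))))),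
   .two (nat_lit 1780482056) (nat_lit 83886095) (.two (nat_lit 713031685) (nat_lit 4028629062) (.two (nat_lit 620756997) (nat_lit 276824083) (.two (nat_lit 8388609) (nat_lit 50331746) (.two (nat_lit 8388608) (nat_lit 1291846114) (.one (nat_lit 16779641) .nil))))),
   .two (nat_lit 10335813641) (nat_lit 4601151503) (.two (nat_lit 47550824455) (nat_lit 159217877007) (.two (nat_lit 69206021) (nat_lit 19596836946) (.two (nat_lit 806354949) (nat_lit 46409973795) (.two (nat_lit 2097153) (nat_lit 156367847520) (.two (nat_lit 4194304) (nat_lit 2098559) (.one (nat_lit 4196730) .nil)))))),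
   .two (nat_lit 4194312) (nat_lit 2097174) (.two (nat_lit 605028357) (nat_lit 10907287621) (.two (nat_lit 4194308) (nat_lit 2097174) (.two (nat_lit 9766436865) (nat_lit 10335813836) (.two (nat_lit 1048576) (nat_lit 1948254431) (.one (nat_lit 1050879) .nil))))),
   .two (nat_lit 809500680) (nat_lit 1929379867) (.two (nat_lit 4613734407) (nat_lit 13191086095) (.two (nat_lit 16777221) (nat_lit 19096666151) (.two (nat_lit 68157443) (nat_lit 184549497) (.two (nat_lit 605028353) (nat_lit 19599982795) (.two (nat_lit 1048576) (nat_lit 4195712) (.one (nat_lit 9933161422) .nil)))))),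
   .two (nat_lit 13191086087) (nat_lit 11006902301) (.two (nat_lit 705691651) (nat_lit 37249613906) (.two (nat_lit 34603009) (nat_lit 306184230) (.two (nat_lit 4194304) (nat_lit 1049985) (.one (nat_lit 1050206) .nil)))),
   .two (nat_lit 28086108168) (nat_lit 2317352987) (.two (nat_lit 1176502277) (nat_lit 2316304422) (.two (nat_lit 2097153) (nat_lit 2316304422) (.two (nat_lit 8388608) (nat_lit 1049492) (.one (nat_lit 9900656937) .nil)))),
   .two (nat_lit 9768534031) (nat_lit 1753219087) (.two (nat_lit 2889875462) (nat_lit 184993972291) (.two (nat_lit 183853121544) (nat_lit 19096666149) (.two (nat_lit 2889875460) (nat_lit 12054429734) (.two (nat_lit 2889875460) (nat_lit 21785215072) (.two (nat_lit 4194305) (nat_lit 11618222548) (.two (nat_lit 4194304) (nat_lit 343933897) (.one (nat_lit 8391036) .nil))))))),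
   .two (nat_lit 12054429711) (nat_lit 28693233681) (.two (nat_lit 183848927238) (nat_lit 184993972288) (.two (nat_lit 75497480) (nat_lit 10942939173) (.two (nat_lit 183848927236) (nat_lit 21785215167) (.two (nat_lit 37748737) (nat_lit 184993972446) (.two (nat_lit 4194304) (nat_lit 12624856567) (.one (nat_lit 28793898637) .nil)))))),
   .two (nat_lit 83886095) (nat_lit 4194321) (.two (nat_lit 2889875464) (nat_lit 4028629062) (.two (nat_lit 83886088) (nat_lit 46477082644) (.two (nat_lit 2889875460) (nat_lit 158077026496) (.two (nat_lit 183861510147) (nat_lit 306184383) (.two (nat_lit 50331649) (nat_lit 306184658) (.two (nat_lit 2097152) (nat_lit 10015998939) (.one (nat_lit 3021998502) .nil))))))),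
   .two (nat_lit 8388638) (nat_lit 156971827215) (.two (nat_lit 183853121544) (nat_lit 1916796995) (.two (nat_lit 19599982597) (nat_lit 12054429734) (.two (nat_lit 19599982597) (nat_lit 21785215072) (.two (nat_lit 9768534017) (nat_lit 21785215198) (.two (nat_lit 4194304) (nat_lit 780142070) (.one (nat_lit 156468512390) .nil)))))),
   .two (nat_lit 47563407375) (nat_lit 10336862223) (.two (nat_lit 184549382) (nat_lit 158647451687) (.two (nat_lit 11559501832) (nat_lit 1745879076) (.two (nat_lit 34603013) (nat_lit 50331839) (.two (nat_lit 2097153) (nat_lit 16777690) (.two (nat_lit 2097152) (nat_lit 185002362363) (.one (nat_lit 28087158413) .nil)))))),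
   .two (nat_lit 21785214991) (nat_lit 37316722710) (.two (nat_lit 713031688) (nat_lit 37316722710) (.two (nat_lit 13191086085) (nat_lit 780140642) (.two (nat_lit 41943041) (nat_lit 9936306686) (.two (nat_lit 4194304) (nat_lit 11618222311) (.one (nat_lit 2889877110) .nil))))),
   .two (nat_lit 13195280391) (nat_lit 10552868983) (.two (nat_lit 41943043) (nat_lit 4647288871) (.two (nat_lit 8388608) (nat_lit 184550365) (.one (nat_lit 47596964272) .nil))),
   .two (nat_lit 21777874951) (nat_lit 10385096816) (.two (nat_lit 68157443) (nat_lit 654311462) (.two (nat_lit 1048576) (nat_lit 10385097211) (.one (nat_lit 2987394681) .nil))),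
   .two (nat_lit 11559501831) (nat_lit 806355017) (.two (nat_lit 10369368067) (nat_lit 50331686) (.two (nat_lit 1048576) (nat_lit 721420795) (.one (nat_lit 166245434376) .nil))),
   .two (nat_lit 19596836871) (nat_lit 4043309173) (.two (nat_lit 156365750275) (nat_lit 12163481639) (.two (nat_lit 1048576) (nat_lit 1191182843) (.one (nat_lit 1426064392) .nil))),
   .two (nat_lit 9934209039) (nat_lit 46510637075) (.two (nat_lit 9934209032) (nat_lit 46510637075) (.two (nat_lit 2954887173) (nat_lit 156971827297) (.two (nat_lit 2097153) (nat_lit 156971827418) (.two (nat_lit 2097152) (nat_lit 809500899) (.one (nat_lit 3525315066) .nil))))),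
   .two (nat_lit 183928619025) (nat_lit 184416206865) (.two (nat_lit 183845781512) (nat_lit 46489665575) (.two (nat_lit 156372041735) (nat_lit 13187940419) (.two (nat_lit 2097157) (nat_lit 822083622) (.two (nat_lit 1191182339) (nat_lit 1846542537) (.two (nat_lit 156372041729) (nat_lit 2920284379) (.two (nat_lit 8388608) (nat_lit 174752532081) (.one (nat_lit 174752532081) .nil))))))),
   .two (nat_lit 41943055) (nat_lit 183848927247) (.two (nat_lit 41943048) (nat_lit 1916796947) (.two (nat_lit 19599982597) (nat_lit 4034920648) (.two (nat_lit 8388609) (nat_lit 28089254111) (.two (nat_lit 8388608) (nat_lit 156367847932) (.one (nat_lit 8391096) .nil))))),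
   .two (nat_lit 16777231) (nat_lit 9934209039) (.two (nat_lit 9934209032) (nat_lit 620757026) (.two (nat_lit 9934209032) (nat_lit 184549411) (.two (nat_lit 184549381) (nat_lit 9967763494) (.two (nat_lit 184549381) (nat_lit 10907287648) (.two (nat_lit 16777217) (nat_lit 2988441822) (.two (nat_lit 16777216) (nat_lit 20638074358) (.one (nat_lit 889194118) .nil))))))),
   .two (nat_lit 184993972232) (nat_lit 159253528615) (.two (nat_lit 612368389) (nat_lit 19096666151) (.two (nat_lit 16777216) (nat_lit 10947134425) (.one (nat_lit 8390299) .nil))),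
   .two (nat_lit 83886095) (nat_lit 1344274448) (.two (nat_lit 83886088) (nat_lit 28791799846) (.two (nat_lit 184993972231) (nat_lit 158077026370) (.two (nat_lit 620756997) (nat_lit 158177689638) (.two (nat_lit 713031683) (nat_lit 773849184) (.two (nat_lit 41943041) (nat_lit 11578376414) (.two (nat_lit 8388608) (nat_lit 1950352869) (.one (nat_lit 4196794) .nil))))))),
   .two (nat_lit 83886095) (nat_lit 269484062) (.two (nat_lit 2887778312) (nat_lit 16777280) (.two (nat_lit 2887778308) (nat_lit 352321727) (.two (nat_lit 9766436865) (nat_lit 806355786) (.two (nat_lit 1048576) (nat_lit 2887779285) (.one (nat_lit 1051067) .nil))))),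
   .two (nat_lit 156367847439) (nat_lit 203423760) (.two (nat_lit 11543773192) (nat_lit 1346371623) (.two (nat_lit 270532615) (nat_lit 4601151552) (.two (nat_lit 34603013) (nat_lit 11513364518) (.two (nat_lit 34603013) (nat_lit 306184288) (.two (nat_lit 2097153) (nat_lit 306184666) (.two (nat_lit 1048576) (nat_lit 46508540885) (.one (nat_lit 158077027981) .nil))))))),
   .two (nat_lit 713031695) (nat_lit 9966714909) (.two (nat_lit 713031686) (nat_lit 28790751299) (.two (nat_lit 713031688) (nat_lit 20704133189) (.two (nat_lit 713031684) (nat_lit 1947205670) (.two (nat_lit 713031684) (nat_lit 158176641120) (.two (nat_lit 34603009) (nat_lit 880804062) (.two (nat_lit 1048576) (nat_lit 8390148) (.one (nat_lit 638584461) .nil))))))),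
   .two (nat_lit 742391823) (nat_lit 1343225871) (.two (nat_lit 705691654) (nat_lit 3458203765) (.two (nat_lit 169869320) (nat_lit 1950351397) (.two (nat_lit 166130089989) (nat_lit 272629951) (.two (nat_lit 34603009) (nat_lit 10504635210) (.two (nat_lit 1048576) (nat_lit 166130090965) (.one (nat_lit 1779435117) .nil)))))),
   .two (nat_lit 10385096719) (nat_lit 2416967702) (.two (nat_lit 10385096712) (nat_lit 2416967702) (.two (nat_lit 171966469) (nat_lit 11492393055) (.two (nat_lit 4194305) (nat_lit 46489665765) (.two (nat_lit 1048576) (nat_lit 654311652) (.one (nat_lit 1051069) .nil))))),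
   .two (nat_lit 47555018759) (nat_lit 2316304451) (.two (nat_lit 176160771) (nat_lit 135266342) (.two (nat_lit 8388608) (nat_lit 2316304891) (.one (nat_lit 2416968711) .nil))),
   .two (nat_lit 41943055) (nat_lit 20638072843) (.two (nat_lit 41943048) (nat_lit 20638072850) (.two (nat_lit 165526110213) (nat_lit 109051999) (.two (nat_lit 8388609) (nat_lit 4599054557) (.two (nat_lit 2097152) (nat_lit 41943267) (.one (nat_lit 343935362) .nil))))),
   .two (nat_lit 176160776) (nat_lit 46409973798) (.two (nat_lit 8388613) (nat_lit 46409973798) (.two (nat_lit 8388608) (nat_lit 1049578) (.one (nat_lit 174755676677) .nil))),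
   .two (nat_lit 12117344267) (nat_lit 9866051599) (.two (nat_lit 1846542344) (nat_lit 809500708) (.two (nat_lit 809500680) (nat_lit 9798942742) (.two (nat_lit 166129041412) (nat_lit 272629854) (.two (nat_lit 21777874949) (nat_lit 156468510818) (.two (nat_lit 156364701697) (nat_lit 13224640991) (.two (nat_lit 4194304) (nat_lit 3557819882) (.one (nat_lit 156569176480) .nil))))))),
   .two (nat_lit 9881780239) (nat_lit 1344274448) (.two (nat_lit 9881780232) (nat_lit 1780482086) (.two (nat_lit 813694983) (nat_lit 37249613891) (.two (nat_lit 1358954501) (nat_lit 1780482086) (.two (nat_lit 13195280389) (nat_lit 19096666208) (.two (nat_lit 9766436865) (nat_lit 822084055) (.two (nat_lit 4194304) (nat_lit 3558868481) (.one (nat_lit 2099646) .nil))))))),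
   .two (nat_lit 1745879047) (nat_lit 4647288951) (.two (nat_lit 18925748227) (nat_lit 3036676135) (.two (nat_lit 1048576) (nat_lit 83886587) (.one (nat_lit 19142804488) .nil))),
   .two (nat_lit 8388623) (nat_lit 184986632207) (.two (nat_lit 8388616) (nat_lit 184986632228) (.two (nat_lit 8388616) (nat_lit 184986632210) (.two (nat_lit 8388610) (nat_lit 1947205728) (.two (nat_lit 8388612) (nat_lit 1947205727) (.two (nat_lit 41943041) (nat_lit 185020187089) (.two (nat_lit 8388608) (nat_lit 9899606988) (.one (nat_lit 1051071) .nil))))))),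
   .two (nat_lit 654311439) (nat_lit 157036838927) (.two (nat_lit 46407876614) (nat_lit 12163481639) (.two (nat_lit 117440520) (nat_lit 10939793445) (.two (nat_lit 4599054341) (nat_lit 9781116966) (.two (nat_lit 4599054341) (nat_lit 11492393056) (.two (nat_lit 2097153) (nat_lit 2902458842) (.two (nat_lit 2097152) (nat_lit 620758495) (.one (nat_lit 1209009798) .nil))))))),
   .two (nat_lit 11479810059) (nat_lit 158075977743) (.two (nat_lit 12117344264) (nat_lit 1343225893) (.two (nat_lit 11479810056) (nat_lit 1309671445) (.two (nat_lit 20637024258) (nat_lit 306184288) (.two (nat_lit 11479810052) (nat_lit 9966714978) (.two (nat_lit 156364701697) (nat_lit 843055569) (.two (nat_lit 1048576) (nat_lit 46510638028) (.one (nat_lit 4196800) .nil))))))),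
   .two (nat_lit 809500687) (nat_lit 1847590923) (.two (nat_lit 203423752) (nat_lit 306184211) (.two (nat_lit 10504634373) (nat_lit 11614027874) (.two (nat_lit 4194305) (nat_lit 159251431644) (.two (nat_lit 2097152) (nat_lit 3024093412) (.one (nat_lit 3460303261) .nil))))),
   .two (nat_lit 101711887) (nat_lit 1847590923) (.two (nat_lit 1779433480) (nat_lit 639631380) (.two (nat_lit 19530776581) (nat_lit 1846542434) (.two (nat_lit 156365750273) (nat_lit 183912890597) (.two (nat_lit 2097152) (nat_lit 183912890597) (.one (nat_lit 12148803987) .nil))))),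
   .two (nat_lit 285212687) (nat_lit 156367847439) (.two (nat_lit 21793603592) (nat_lit 19596836901) (.two (nat_lit 83886088) (nat_lit 158646403091) (.two (nat_lit 47550824453) (nat_lit 620757088) (.two (nat_lit 171966467) (nat_lit 16777407) (.two (nat_lit 4194305) (nat_lit 16777681) (.two (nat_lit 1048576) (nat_lit 19096667090) (.one (nat_lit 1947208062) .nil))))))),
   .two (nat_lit 11543773191) (nat_lit 12117344323) (.two (nat_lit 11476664323) (nat_lit 184419352614) (.two (nat_lit 1048576) (nat_lit 12117344763) (.one (nat_lit 3527410698) .nil))),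
   .two (nat_lit 9768534031) (nat_lit 9900654611) (.two (nat_lit 9768534024) (nat_lit 9900654611) (.two (nat_lit 10940841989) (nat_lit 183949590625) (.two (nat_lit 156365750273) (nat_lit 156569174243) (.two (nat_lit 2097152) (nat_lit 156569174243) (.one (nat_lit 2099649) .nil))))),
   .two (nat_lit 37748743) (nat_lit 28690088015) (.two (nat_lit 8388611) (nat_lit 10001317926) (.two (nat_lit 4194304) (nat_lit 2098698) (.one (nat_lit 2099651) .nil))),
   .two (nat_lit 713031695) (nat_lit 159217877007) (.two (nat_lit 159217877000) (nat_lit 8388642) (.two (nat_lit 159217877000) (nat_lit 41943075) (.two (nat_lit 612368389) (nat_lit 159251431462) (.two (nat_lit 612368389) (nat_lit 166230753376) (.two (nat_lit 41943041) (nat_lit 166230753502) (.two (nat_lit 8388608) (nat_lit 1277167108) (.one (nat_lit 11484005999) .nil))))))),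
   .two (nat_lit 41943047) (nat_lit 773849159) (.two (nat_lit 41943043) (nat_lit 2921332775) (.two (nat_lit 8388608) (nat_lit 2098699) (.one (nat_lit 2099652) .nil))),
   .two (nat_lit 2889875471) (nat_lit 1291845647) (.two (nat_lit 2889875464) (nat_lit 9948889123) (.two (nat_lit 1291845640) (nat_lit 2889875477) (.two (nat_lit 654311429) (nat_lit 157038936160) (.two (nat_lit 9781116931) (nat_lit 3527409855) (.two (nat_lit 9768534017) (nat_lit 10385097566) (.two (nat_lit 4194304) (nat_lit 16778764) (.one (nat_lit 16779717) .nil))))))),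
   .two (nat_lit 9781116935) (nat_lit 2954887202) (.two (nat_lit 9781116931) (nat_lit 1277165606) (.two (nat_lit 16777216) (nat_lit 673186304) (.one (nat_lit 2099654) .nil))),
   .two (nat_lit 3539992583) (nat_lit 11611930695) (.two (nat_lit 2902458371) (nat_lit 606076966) (.two (nat_lit 16777216) (nat_lit 2098702) (.one (nat_lit 1051080) .nil))),
   .two (nat_lit 742391823) (nat_lit 1343225871) (.two (nat_lit 705691654) (nat_lit 339738761) (.two (nat_lit 169869320) (nat_lit 1950351397) (.two (nat_lit 270532613) (nat_lit 156569174207) (.two (nat_lit 2097153) (nat_lit 46510637530) (.two (nat_lit 1048576) (nat_lit 641730043) (.one (nat_lit 68159110) .nil)))))),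
   .two (nat_lit 159232557071) (nat_lit 165526110223) (.two (nat_lit 16777222) (nat_lit 1346371623) (.two (nat_lit 13203669000) (nat_lit 156367847460) (.two (nat_lit 11479810053) (nat_lit 889192639) (.two (nat_lit 4194305) (nat_lit 9934209866) (.two (nat_lit 2097152) (nat_lit 11479811029) (.one (nat_lit 2099658) .nil)))))),
   .two (nat_lit 721420303) (nat_lit 169869329) (.two (nat_lit 2887778310) (nat_lit 12050235505) (.two (nat_lit 203423752) (nat_lit 46980399174) (.two (nat_lit 50331653) (nat_lit 11578376231) (.two (nat_lit 2887778308) (nat_lit 12050235584) (.two (nat_lit 37748737) (nat_lit 3021996518) (.two (nat_lit 4194304) (nat_lit 2098704) (.one (nat_lit 12050237062) .nil))))))),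
   .two (nat_lit 822083591) (nat_lit 2349858932) (.two (nat_lit 705691651) (nat_lit 285212710) (.two (nat_lit 1048576) (nat_lit 2902458875) (.one (nat_lit 156984410629) .nil))),
   .two (nat_lit 11492392979) (nat_lit 28086108179) (.two (nat_lit 3539992584) (nat_lit 2923429907) (.two (nat_lit 171966469) (nat_lit 754974815) (.two (nat_lit 4194305) (nat_lit 9948889308) (.two (nat_lit 1048576) (nat_lit 16778769) (.one (nat_lit 1051085) .nil))))),
   .two (nat_lit 41943055) (nat_lit 159217877007) (.two (nat_lit 159217877000) (nat_lit 41943076) (.two (nat_lit 41943048) (nat_lit 2954887189) (.two (nat_lit 8388610) (nat_lit 304087399) (.two (nat_lit 8388612) (nat_lit 20638072930) (.two (nat_lit 8388609) (nat_lit 159251431889) (.two (nat_lit 8388608) (nat_lit 2887779311) (.one (nat_lit 47548729733) .nil))))))),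
   .two (nat_lit 9768534031) (nat_lit 19529728019) (.two (nat_lit 9768534024) (nat_lit 19529728019) (.two (nat_lit 1916796933) (nat_lit 165525061856) (.two (nat_lit 9768534017) (nat_lit 165525061856) (.two (nat_lit 4194304) (nat_lit 159250383076) (.one (nat_lit 1051087) .nil))))),
   .two (nat_lit 21207449615) (nat_lit 19532873747) (.two (nat_lit 21207449608) (nat_lit 19532873747) (.two (nat_lit 20637024258) (nat_lit 159219974631) (.two (nat_lit 605028353) (nat_lit 159219974631) (.two (nat_lit 1048576) (nat_lit 4030726372) (.one (nat_lit 1051088) .nil))))),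
   .two (nat_lit 37748751) (nat_lit 16777232) (.two (nat_lit 184549384) (nat_lit 11578376231) (.two (nat_lit 3525312519) (nat_lit 10338959467) (.two (nat_lit 16777221) (nat_lit 11578376231) (.two (nat_lit 16777219) (nat_lit 1210056900) (.two (nat_lit 2097153) (nat_lit 174701150679) (.two (nat_lit 2097152) (nat_lit 16778772) (.one (nat_lit 1847593406) .nil))))))),
   .two (nat_lit 41943055) (nat_lit 47548727313) (.two (nat_lit 8388614) (nat_lit 166197198887) (.two (nat_lit 2097159) (nat_lit 185027526693) (.two (nat_lit 8388612) (nat_lit 166197198887) (.two (nat_lit 2894069765) (nat_lit 166230753376) (.two (nat_lit 8388609) (nat_lit 47582282202) (.two (nat_lit 1048576) (nat_lit 2098709) (.one (nat_lit 11476665990) .nil))))))),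
   .two (nat_lit 16777223) (nat_lit 809500752) (.two (nat_lit 16777219) (nat_lit 11513364518) (.two (nat_lit 16777216) (nat_lit 306185197) (.one (nat_lit 608175112) .nil))),
   .two (nat_lit 4194311) (nat_lit 37253808196) (.two (nat_lit 4194307) (nat_lit 9940500519) (.two (nat_lit 4194304) (nat_lit 1049560) (.one (nat_lit 8391122) .nil))),
   .two (nat_lit 183853121551) (nat_lit 28757196819) (.two (nat_lit 183853121544) (nat_lit 28757196819) (.two (nat_lit 2956984325) (nat_lit 21785215071) (.two (nat_lit 4194305) (nat_lit 156372041948) (.two (nat_lit 1048576) (nat_lit 8390166) (.one (nat_lit 159250385295) .nil))))),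
   .two (nat_lit 2969567239) (nat_lit 9934209110) (.two (nat_lit 708837379) (nat_lit 285212710) (.two (nat_lit 2097152) (nat_lit 2902458875) (.one (nat_lit 158192370696) .nil))),
   .two (nat_lit 50331663) (nat_lit 4599054358) (.two (nat_lit 50331656) (nat_lit 4599054358) (.two (nat_lit 16777221) (nat_lit 159217877090) (.two (nat_lit 2097153) (nat_lit 156581757158) (.two (nat_lit 2097152) (nat_lit 889192675) (.one (nat_lit 889194920) .nil))))),
   .two (nat_lit 21777874951) (nat_lit 41943074) (.two (nat_lit 75497475) (nat_lit 158176641062) (.two (nat_lit 8388608) (nat_lit 1049584) (.one (nat_lit 75498505) .nil))),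
   .two (nat_lit 3527409671) (nat_lit 12155093060) (.two (nat_lit 46409973763) (nat_lit 343932966) (.two (nat_lit 4194304) (nat_lit 3028287995) (.one (nat_lit 28093449226) .nil))),
   .two (nat_lit 218103823) (nat_lit 157036838927) (.two (nat_lit 46407876614) (nat_lit 158192369801) (.two (nat_lit 12129927176) (nat_lit 10939793445) (.two (nat_lit 11492392964) (nat_lit 21207449639) (.two (nat_lit 4599054341) (nat_lit 822083680) (.two (nat_lit 34603009) (nat_lit 4647289306) (.two (nat_lit 1048576) (nat_lit 157051520479) (.one (nat_lit 19529729677) .nil))))))),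
   .two (nat_lit 9781116935) (nat_lit 3558867010) (.two (nat_lit 9781116931) (nat_lit 10538188838) (.two (nat_lit 16777216) (nat_lit 2098713) (.one (nat_lit 9934211476) .nil))),
   .two (nat_lit 176160779) (nat_lit 9934209040) (.two (nat_lit 176160774) (nat_lit 9934209059) (.two (nat_lit 1277165576) (nat_lit 2927624212) (.two (nat_lit 10947133445) (nat_lit 203423939) (.two (nat_lit 606076931) (nat_lit 8388701) (.two (nat_lit 9781116929) (nat_lit 10370417480) (.two (nat_lit 16777216) (nat_lit 639632347) (.one (nat_lit 158647454153) .nil))))))),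
   .two (nat_lit 272629767) (nat_lit 9948889122) (.two (nat_lit 4194307) (nat_lit 654311462) (.two (nat_lit 2097152) (nat_lit 1191183885) (.one (nat_lit 1191184029) .nil))),
   .two (nat_lit 11551113231) (nat_lit 9881780239) (.two (nat_lit 713031688) (nat_lit 21793603621) (.two (nat_lit 713031688) (nat_lit 166211878931) (.two (nat_lit 639631365) (nat_lit 158653743296) (.two (nat_lit 41943043) (nat_lit 185035915361) (.two (nat_lit 606076929) (nat_lit 889192920) (.two (nat_lit 2097152) (nat_lit 788530145) (.one (nat_lit 2099668) .nil))))))),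
   .two (nat_lit 9768534031) (nat_lit 9900654611) (.two (nat_lit 9768534024) (nat_lit 9900654611) (.two (nat_lit 10940841989) (nat_lit 166232850530) (.two (nat_lit 156365750273) (nat_lit 3527409893) (.two (nat_lit 2097152) (nat_lit 3527409893) (.one (nat_lit 2099670) .nil))))),
   .two (nat_lit 1343225871) (nat_lit 46414168075) (.two (nat_lit 1343225864) (nat_lit 2927624213) (.two (nat_lit 705691652) (nat_lit 159224168545) (.two (nat_lit 34603009) (nat_lit 159224168665) (.two (nat_lit 1048576) (nat_lit 1216348388) (.one (nat_lit 11610883720) .nil))))),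
   .two (nat_lit 806354960) (nat_lit 285212704) (.two (nat_lit 50331656) (nat_lit 11476664358) (.two (nat_lit 276824071) (nat_lit 156365750379) (.two (nat_lit 16777220) (nat_lit 11476664358) (.two (nat_lit 8388611) (nat_lit 4598005856) (.two (nat_lit 8388609) (nat_lit 4598005979) (.two (nat_lit 8388608) (nat_lit 352322540) (.one (nat_lit 12163483249) .nil))))))),
   .two (nat_lit 285212689) (nat_lit 270532624) (.two (nat_lit 16777224) (nat_lit 156567076902) (.two (nat_lit 813694983) (nat_lit 156532473986) (.two (nat_lit 16777220) (nat_lit 156567076902) (.two (nat_lit 41943043) (nat_lit 46406828128) (.two (nat_lit 41943041) (nat_lit 303038683) (.two (nat_lit 8388608) (nat_lit 19596837868) (.one (nat_lit 1051096) .nil))))))),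
   .two (nat_lit 1916796935) (nat_lit 807403591) (.two (nat_lit 166132187139) (nat_lit 13188988967) (.two (nat_lit 4194304) (nat_lit 2098716) (.one (nat_lit 2099673) .nil))),
   .two (nat_lit 2954887183) (nat_lit 880803859) (.two (nat_lit 2954887176) (nat_lit 880803859) (.two (nat_lit 169869316) (nat_lit 156372041825) (.two (nat_lit 2097153) (nat_lit 156372041945) (.two (nat_lit 2097152) (nat_lit 310378727) (.one (nat_lit 8391130) .nil))))),
   .two (nat_lit 272629767) (nat_lit 3464495218) (.two (nat_lit 4194307) (nat_lit 47555018790) (.two (nat_lit 4194304) (nat_lit 3464495611) (.one (nat_lit 780141576) .nil))),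
   .two (nat_lit 12129927183) (nat_lit 772800531) (.two (nat_lit 3539992584) (nat_lit 166130090002) (.two (nat_lit 270532613) (nat_lit 1291845727) (.two (nat_lit 2097153) (nat_lit 9781117155) (.two (nat_lit 1048576) (nat_lit 37247516903) (.one (nat_lit 1051099) .nil))))),
   .two (nat_lit 9934209039) (nat_lit 46477082641) (.two (nat_lit 47548727304) (nat_lit 183916036135) (.two (nat_lit 4599054343) (nat_lit 272629824) (.two (nat_lit 2097157) (nat_lit 156569174054) (.two (nat_lit 2097157) (nat_lit 183949590624) (.two (nat_lit 2097153) (nat_lit 46510637530) (.two (nat_lit 1048576) (nat_lit 2921333717) (.one (nat_lit 68159110) .nil))))))),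
   .two (nat_lit 9866051599) (nat_lit 3021996051) (.two (nat_lit 9866051592) (nat_lit 3021996051) (.two (nat_lit 1276116996) (nat_lit 1277165666) (.two (nat_lit 9765388289) (nat_lit 165526110425) (.two (nat_lit 1048576) (nat_lit 9967763687) (.one (nat_lit 2099676) .nil))))),
   .two (nat_lit 654311431) (nat_lit 272629794) (.two (nat_lit 9781116931) (nat_lit 19130220582) (.two (nat_lit 16777216) (nat_lit 1279263236) (.one (nat_lit 1279263236) .nil))),
   .two (nat_lit 47548727313) (nat_lit 4194337) (.two (nat_lit 2889875464) (nat_lit 35651661) (.two (nat_lit 205520904) (nat_lit 3458203683) (.two (nat_lit 809500677) (nat_lit 202375373) (.two (nat_lit 11546918917) (nat_lit 2316304480) (.two (nat_lit 2097153) (nat_lit 156367847643) (.two (nat_lit 1048576) (nat_lit 46508541422) (.one (nat_lit 1051101) .nil))))))),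
   .two (nat_lit 620756999) (nat_lit 174686470211) (.two (nat_lit 620756995) (nat_lit 11007950886) (.two (nat_lit 16777216) (nat_lit 174686470651) (.one (nat_lit 183947493893) .nil))),
   .two (nat_lit 639631375) (nat_lit 11513364499) (.two (nat_lit 639631368) (nat_lit 11513364499) (.two (nat_lit 156971827205) (nat_lit 20738736225) (.two (nat_lit 156367847425) (nat_lit 10538189027) (.two (nat_lit 4194304) (nat_lit 10538189027) (.one (nat_lit 156971829647) .nil))))),
   .two (nat_lit 12054429711) (nat_lit 285212683) (.two (nat_lit 16777224) (nat_lit 11517558805) (.two (nat_lit 183853121538) (nat_lit 16777424) (.two (nat_lit 41943041) (nat_lit 9781117148) (.two (nat_lit 8388608) (nat_lit 10015998182) (.one (nat_lit 8391134) .nil))))),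
   .two (nat_lit 2097159) (nat_lit 46523220039) (.two (nat_lit 705691651) (nat_lit 3573547047) (.two (nat_lit 1048576) (nat_lit 10519315996) (.one (nat_lit 10519316953) .nil))),
   .two (nat_lit 4605345807) (nat_lit 169869323) (.two (nat_lit 2954887176) (nat_lit 46414168082) (.two (nat_lit 169869316) (nat_lit 159224168543) (.two (nat_lit 606076929) (nat_lit 880804069) (.two (nat_lit 2097152) (nat_lit 880804069) (.one (nat_lit 8391061) .nil))))),
   .two (nat_lit 156372041735) (nat_lit 83886118) (.two (nat_lit 8388608) (nat_lit 16778877) .nil),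
   .two (nat_lit 13195280391) (nat_lit 1916796966) (.two (nat_lit 4194304) (nat_lit 1753220102) .nil),
   .two (nat_lit 159224168455) (nat_lit 1847590950) (.two (nat_lit 2097152) (nat_lit 1753220102) .nil),
   .two (nat_lit 612368392) (nat_lit 3525312550) (.two (nat_lit 2097152) (nat_lit 156566029929) .nil),
   .two (nat_lit 185002360840) (nat_lit 159219974183) (.two (nat_lit 1048576) (nat_lit 773850723) .nil),
   .two (nat_lit 13191086087) (nat_lit 184993972262) (.two (nat_lit 4194304) (nat_lit 20711474796) .nil),
   .two (nat_lit 654311431) (nat_lit 46474985510) (.two (nat_lit 16777216) (nat_lit 840958468) .nil),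
   .two (nat_lit 721420303) (nat_lit 21814575143) (.two (nat_lit 721420296) (nat_lit 21814575143) (.two (nat_lit 809500680) (nat_lit 352321632) (.two (nat_lit 11479810053) (nat_lit 352321755) (.two (nat_lit 4194305) (nat_lit 874512896) (.two (nat_lit 2097152) (nat_lit 20652754543) (.one (nat_lit 166132189671) .nil)))))),
   .two (nat_lit 742391823) (nat_lit 101711906) (.two (nat_lit 742391823) (nat_lit 739246115) (.two (nat_lit 2887778312) (nat_lit 272629854) (.two (nat_lit 2887778312) (nat_lit 272629853) (.two (nat_lit 4194306) (nat_lit 9934209243) (.two (nat_lit 705691651) (nat_lit 46978302424) (.two (nat_lit 34603009) (nat_lit 9768534989) (.two (nat_lit 1048576) (nat_lit 9934210666) (.one (nat_lit 2886732260) .nil)))))))),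
   .two (nat_lit 272629775) (nat_lit 28690087954) (.two (nat_lit 4194308) (nat_lit 20704133338) (.two (nat_lit 37748737) (nat_lit 166196150499) (.one (nat_lit 4196866) .nil))),
   .two (nat_lit 11551113224) (nat_lit 3020947495) (.two (nat_lit 2097152) (nat_lit 9936307206) .nil),
   .two (nat_lit 37748743) (nat_lit 1291845670) (.two (nat_lit 2097152) (nat_lit 11022631429) .nil),
   .two (nat_lit 9781116935) (nat_lit 8388646) (.two (nat_lit 16777216) (nat_lit 1786774021) .nil),
   .two (nat_lit 47563407375) (nat_lit 4028629011) (.two (nat_lit 34603013) (nat_lit 50331868) (.two (nat_lit 2097153) (nat_lit 1376780516) (.one (nat_lit 2099715) .nil))),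
   .two (nat_lit 4601151495) (nat_lit 780140583) (.two (nat_lit 4194304) (nat_lit 1050244) .nil),
   .two (nat_lit 11546918919) (nat_lit 184423546919) (.two (nat_lit 2097152) (nat_lit 19100860933) .nil),
   .two (nat_lit 1358954503) (nat_lit 1410334758) (.two (nat_lit 1048576) (nat_lit 1413480965) .nil),
   .two (nat_lit 1343225863) (nat_lit 184993972262) (.two (nat_lit 16777216) (nat_lit 8390277) .nil),
   .two (nat_lit 159217877007) (nat_lit 2923429907) (.two (nat_lit 47548727301) (nat_lit 28693233882) (.two (nat_lit 2097153) (nat_lit 608174310) (.one (nat_lit 46978304506) .nil))),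
   .two (nat_lit 12050235407) (nat_lit 318767126) (.two (nat_lit 11546918917) (nat_lit 754974940) (.two (nat_lit 16777217) (nat_lit 158077026535) (.one (nat_lit 2099716) .nil))),
   .two (nat_lit 620757007) (nat_lit 158144135186) (.two (nat_lit 1277165572) (nat_lit 620757219) (.two (nat_lit 16777217) (nat_lit 203423974) (.one (nat_lit 2099718) .nil))),
   .two (nat_lit 2887778319) (nat_lit 47596961812) (.two (nat_lit 16777221) (nat_lit 11476664551) (.two (nat_lit 16777217) (nat_lit 11476664551) (.one (nat_lit 1051143) .nil))),
   .two (nat_lit 41943055) (nat_lit 28757196839) (.two (nat_lit 41943048) (nat_lit 28757196839) (.two (nat_lit 21777874952) (nat_lit 75497568) (.two (nat_lit 11484004357) (nat_lit 28790751454) (.two (nat_lit 2097153) (nat_lit 101712379) (.two (nat_lit 2097152) (nat_lit 8390278) (.one (nat_lit 336595456) .nil)))))),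
   .two (nat_lit 37748751) (nat_lit 713031698) (.two (nat_lit 11484004357) (nat_lit 306184421) (.two (nat_lit 2097153) (nat_lit 10003415270) (.one (nat_lit 2099720) .nil))),
   .two (nat_lit 11543773199) (nat_lit 12050235412) (.two (nat_lit 12114198533) (nat_lit 2990538973) (.two (nat_lit 156364701697) (nat_lit 809500899) (.one (nat_lit 1051147) .nil))),
   .two (nat_lit 1929379855) (nat_lit 2988441619) (.two (nat_lit 18926796805) (nat_lit 9806282980) (.two (nat_lit 2097153) (nat_lit 9806282980) (.one (nat_lit 16779788) .nil))),
   .two (nat_lit 37748743) (nat_lit 12054429734) (.two (nat_lit 4194304) (nat_lit 166203490821) .nil),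
   .two (nat_lit 272629768) (nat_lit 203423783) (.two (nat_lit 16777216) (nat_lit 13222544392) .nil),
   .two (nat_lit 13191086087) (nat_lit 12129927207) (.two (nat_lit 8388608) (nat_lit 10003415557) .nil),
   .two (nat_lit 9768534031) (nat_lit 183845781524) (.two (nat_lit 12114198533) (nat_lit 156569174247) (.two (nat_lit 4194305) (nat_lit 13221495012) (.one (nat_lit 4196877) .nil))),
   .two (nat_lit 2887778319) (nat_lit 165532401683) (.two (nat_lit 2097157) (nat_lit 10007609564) (.two (nat_lit 2097153) (nat_lit 156573368550) (.one (nat_lit 1051150) .nil))),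
   .two (nat_lit 75497480) (nat_lit 4601151526) (.two (nat_lit 1048576) (nat_lit 8390265) .nil),
   .two (nat_lit 41943055) (nat_lit 4601151506) (.two (nat_lit 8388612) (nat_lit 46510637276) (.two (nat_lit 8388609) (nat_lit 4194533) (.one (nat_lit 8391183) .nil))),
   .two (nat_lit 8388623) (nat_lit 10336862227) (.two (nat_lit 10504634373) (nat_lit 1417674980) (.two (nat_lit 605028353) (nat_lit 19537068542) (.one (nat_lit 2099728) .nil))),
   .two (nat_lit 12050235403) (nat_lit 184993972288) (.two (nat_lit 12054429711) (nat_lit 742391828) (.two (nat_lit 184993972232) (nat_lit 156468510817) (.two (nat_lit 713031682) (nat_lit 708837845) (.two (nat_lit 713031684) (nat_lit 156468510937) (.two (nat_lit 37748737) (nat_lit 185027527646) (.two (nat_lit 4194304) (nat_lit 11584669294) (.one (nat_lit 339741170) .nil))))))),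
   .two (nat_lit 184993972239) (nat_lit 28772925479) (.two (nat_lit 721420296) (nat_lit 1384120358) (.two (nat_lit 721420296) (nat_lit 2323644512) (.two (nat_lit 50331653) (nat_lit 2323644635) (.two (nat_lit 41943041) (nat_lit 2420113915) (.two (nat_lit 4194304) (nat_lit 11559503483) (.one (nat_lit 1379928569) .nil)))))),
   .two (nat_lit 37748744) (nat_lit 47596961830) (.two (nat_lit 2097152) (nat_lit 638583816) .nil),
   .two (nat_lit 157036838927) (nat_lit 158653743143) (.two (nat_lit 156365750280) (nat_lit 156372041766) (.two (nat_lit 156365750280) (nat_lit 183853121632) (.two (nat_lit 18926796805) (nat_lit 183853121758) (.two (nat_lit 2097153) (nat_lit 1216348667) (.two (nat_lit 16777216) (nat_lit 156372043387) (.one (nat_lit 8391185) .nil)))))),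
   .two (nat_lit 28093448200) (nat_lit 9936306215) (.two (nat_lit 1048576) (nat_lit 20711474793) .nil),
   .two (nat_lit 184993972231) (nat_lit 83886118) (.two (nat_lit 8388608) (nat_lit 117441542) .nil),
   .two (nat_lit 276824071) (nat_lit 158144135206) (.two (nat_lit 1048576) (nat_lit 773849605) .nil),
   .two (nat_lit 2097159) (nat_lit 9781116966) (.two (nat_lit 2097152) (nat_lit 303040121) .nil),
   .two (nat_lit 41943055) (nat_lit 2954887187) (.two (nat_lit 1178599429) (nat_lit 3028287716) (.two (nat_lit 2097153) (nat_lit 11584668162) (.one (nat_lit 4196882) .nil))),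
   .two (nat_lit 9948889103) (nat_lit 9866051602) (.two (nat_lit 11476664322) (nat_lit 166245433561) (.two (nat_lit 16777217) (nat_lit 20704133351) (.one (nat_lit 16779795) .nil))),
   .two (nat_lit 1358954503) (nat_lit 2987393063) (.two (nat_lit 8388608) (nat_lit 2920285826) .nil),
   .two (nat_lit 1753219079) (nat_lit 11593056295) (.two (nat_lit 4194304) (nat_lit 16777733) .nil),
   .two (nat_lit 37748751) (nat_lit 612368418) (.two (nat_lit 37748751) (nat_lit 176160803) (.two (nat_lit 4194310) (nat_lit 75497568) (.two (nat_lit 8388615) (nat_lit 706740319) (.two (nat_lit 4194306) (nat_lit 1277165787) (.two (nat_lit 4194307) (nat_lit 75497936) (.two (nat_lit 4194305) (nat_lit 2954888141) (.two (nat_lit 4194304) (nat_lit 2954888830) (.one (nat_lit 205523455) .nil)))))))),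
   .two (nat_lit 158158815240) (nat_lit 1384120359) (.two (nat_lit 1048576) (nat_lit 11580474378) .nil),
   .two (nat_lit 2969567240) (nat_lit 19096666151) (.two (nat_lit 8388608) (nat_lit 839910408) .nil),
   .two (nat_lit 50331655) (nat_lit 28093448230) (.two (nat_lit 8388608) (nat_lit 150995460) .nil),
   .two (nat_lit 28086108168) (nat_lit 612368422) (.two (nat_lit 2097152) (nat_lit 4195980) .nil),
   .two (nat_lit 4601151495) (nat_lit 28806479910) (.two (nat_lit 8388608) (nat_lit 2432696837) .nil),
   .two (nat_lit 1849688072) (nat_lit 21208498214) (.two (nat_lit 1048576) (nat_lit 4195983) .nil),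
   .two (nat_lit 809500687) (nat_lit 10504634387) (.two (nat_lit 11479810050) (nat_lit 37314626023) (.two (nat_lit 9765388289) (nat_lit 9934209251) (.one (nat_lit 2099735) .nil))),
   .two (nat_lit 10336862215) (nat_lit 12054429734) (.two (nat_lit 2097152) (nat_lit 1954546180) .nil),
   .two (nat_lit 41943055) (nat_lit 606076948) (.two (nat_lit 8388610) (nat_lit 2097375) (.two (nat_lit 8388609) (nat_lit 28791800037) (.one (nat_lit 12054432233) .nil))),
   .two (nat_lit 12117344263) (nat_lit 739246118) (.two (nat_lit 16777216) (nat_lit 1050256) .nil),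
   .two (nat_lit 4194312) (nat_lit 11618222118) (.two (nat_lit 1048576) (nat_lit 4195985) .nil),
   .two (nat_lit 9768534023) (nat_lit 46508539942) (.two (nat_lit 1048576) (nat_lit 11611932290) .nil),
   .two (nat_lit 276824079) (nat_lit 21814575143) (.two (nat_lit 41943048) (nat_lit 1410334758) (.two (nat_lit 41943048) (nat_lit 3020947552) (.two (nat_lit 8388612) (nat_lit 3020947678) (.two (nat_lit 4194305) (nat_lit 806355451) (.two (nat_lit 4194304) (nat_lit 75499117) (.one (nat_lit 675285524) .nil)))))),
   .two (nat_lit 11626610708) (nat_lit 742391829) (.two (nat_lit 11479810052) (nat_lit 47596962022) (.one (nat_lit 10921970200) .nil)),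
   .two (nat_lit 184993972242) (nat_lit 37748756) (.two (nat_lit 18928893957) (nat_lit 11584667875) (.one (nat_lit 1954548254) .nil)),
   .two (nat_lit 2956984325) (nat_lit 19530776591) (.two (nat_lit 2097152) (nat_lit 21207449721) (.one (nat_lit 1050285) .nil)),
   .two (nat_lit 41943045) (nat_lit 159217877007) (.two (nat_lit 16777216) (nat_lit 47582281977) (.one (nat_lit 2098863) .nil)),
   .two (nat_lit 8388612) (nat_lit 9948889103) (.two (nat_lit 8388608) (nat_lit 2097413) (.one (nat_lit 2099749) .nil)),
   .two (nat_lit 285212677) (nat_lit 21208498184) (.two (nat_lit 606076929) (nat_lit 1929379963) (.one (nat_lit 2098881) .nil)),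
   .two (nat_lit 620756997) (nat_lit 639631375) (.two (nat_lit 4194304) (nat_lit 18926797074) (.one (nat_lit 16779815) .nil)),
   .two (nat_lit 4194308) (nat_lit 28093448207) (.two (nat_lit 2097152) (nat_lit 1279262844) (.one (nat_lit 4196904) .nil)),
   .two (nat_lit 2097157) (nat_lit 876609635) (.two (nat_lit 16777216) (nat_lit 10000269379) (.one (nat_lit 1051177) .nil)),
   .two (nat_lit 8388613) (nat_lit 46409973775) (.two (nat_lit 1048576) (nat_lit 159253528886) (.one (nat_lit 1051178) .nil)),
   .two (nat_lit 34603013) (nat_lit 19029557274) (.two (nat_lit 2097152) (nat_lit 772800797) (.one (nat_lit 1051180) .nil)),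
   .two (nat_lit 713031685) (nat_lit 3458203663) (.two (nat_lit 8388608) (nat_lit 639631481) (.one (nat_lit 2099757) .nil)),
   .two (nat_lit 101711877) (nat_lit 10343153676) (.two (nat_lit 41943041) (nat_lit 2953838892) (.one (nat_lit 8389771) .nil)),
   .two (nat_lit 4601151493) (nat_lit 822083599) (.two (nat_lit 4194304) (nat_lit 21827158137) (.one (nat_lit 16778988) .nil)),
   .two (nat_lit 50331653) (nat_lit 69206029) (.two (nat_lit 2097153) (nat_lit 157051519079) (.two (nat_lit 16777216) (nat_lit 4194842) (.one (nat_lit 16778991) .nil))),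
   .two (nat_lit 705691652) (nat_lit 3464495112) (.two (nat_lit 8388609) (nat_lit 184986632207) (.two (nat_lit 8388608) (nat_lit 12147753098) (.one (nat_lit 8390390) .nil))),
   .two (nat_lit 9768534021) (nat_lit 165525061640) (.two (nat_lit 16777217) (nat_lit 104857624) (.two (nat_lit 16777216) (nat_lit 10335813750) (.one (nat_lit 1050363) .nil))),
   .two (nat_lit 83886085) (nat_lit 18933088271) (.two (nat_lit 16777216) (nat_lit 47588573445) (.one (nat_lit 8390400) .nil)),
   .two (nat_lit 2887778308) (nat_lit 28693233690) (.two (nat_lit 4194304) (nat_lit 1411383413) (.one (nat_lit 8390401) .nil)),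
   .two (nat_lit 8388612) (nat_lit 158075977743) (.two (nat_lit 4194304) (nat_lit 159250382966) (.one (nat_lit 8390402) .nil)),
   .two (nat_lit 8388612) (nat_lit 47548727304) (.two (nat_lit 2097153) (nat_lit 158653743147) (.two (nat_lit 16777216) (nat_lit 28758245499) (.one (nat_lit 2099758) .nil))),
   .two (nat_lit 272629765) (nat_lit 2416967704) (.two (nat_lit 4194304) (nat_lit 168821265) (.one (nat_lit 1050373) .nil)),
   .two (nat_lit 169869316) (nat_lit 19029557261) (.two (nat_lit 4194305) (nat_lit 47548727311) (.two (nat_lit 8388608) (nat_lit 10437525623) (.one (nat_lit 4196911) .nil))),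
   .two (nat_lit 34603013) (nat_lit 20745027634) (.two (nat_lit 1048576) (nat_lit 156539814183) (.one (nat_lit 8389788) .nil)),
   .two (nat_lit 8388613) (nat_lit 156969730056) (.two (nat_lit 50331649) (nat_lit 2994733081) (.two (nat_lit 16777216) (nat_lit 2418016374) (.one (nat_lit 2098967) .nil))),
   .two (nat_lit 75497480) (nat_lit 1749024776) (.two (nat_lit 612368389) (nat_lit 12050235417) (.two (nat_lit 16777217) (nat_lit 184423547469) (.one (nat_lit 8391220) .nil))),
   .two (nat_lit 9948889096) (nat_lit 174753579023) (.two (nat_lit 2097153) (nat_lit 855638376) (.one (nat_lit 16779829) .nil)),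
   .two (nat_lit 203423752) (nat_lit 157043130376) (.two (nat_lit 8388612) (nat_lit 3458203663) (.two (nat_lit 2097153) (nat_lit 166144770164) (.two (nat_lit 16777216) (nat_lit 46978302540) (.one (nat_lit 174692764208) .nil)))),
   .two (nat_lit 184549384) (nat_lit 3527409688) (.two (nat_lit 16777217) (nat_lit 2923430462) (.one (nat_lit 16779076) .nil)),
   .two (nat_lit 184549384) (nat_lit 11476664335) (.two (nat_lit 2097153) (nat_lit 2920284284) (.two (nat_lit 2097152) (nat_lit 1049197) (.one (nat_lit 1051190) .nil))),
   .two (nat_lit 1745879048) (nat_lit 19027460119) (.two (nat_lit 34603009) (nat_lit 11007950960) (.two (nat_lit 1048576) (nat_lit 11007951425) (.one (nat_lit 2099018) .nil))),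
   .two (nat_lit 50331656) (nat_lit 9766436872) (.two (nat_lit 203423749) (nat_lit 50331663) (.two (nat_lit 16777217) (nat_lit 236978285) (.two (nat_lit 8388608) (nat_lit 46489666125) (.one (nat_lit 16779084) .nil)))),
   .two (nat_lit 9934209032) (nat_lit 157038936072) (.two (nat_lit 46409973764) (nat_lit 9934209039) (.two (nat_lit 2097153) (nat_lit 12117344837) (.one (nat_lit 4196919) .nil))),
   .two (nat_lit 169869320) (nat_lit 1916796940) (.two (nat_lit 2097157) (nat_lit 28693233705) (.two (nat_lit 2097153) (nat_lit 4194429) (.two (nat_lit 1048576) (nat_lit 4194927) (.one (nat_lit 2099768) .nil)))),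
   .two (nat_lit 203423752) (nat_lit 19142803469) (.two (nat_lit 1191182341) (nat_lit 18926796917) (.two (nat_lit 16777216) (nat_lit 157036840182) .nil)),
   .two (nat_lit 272629768) (nat_lit 11626610701) (.two (nat_lit 721420293) (nat_lit 272629775) (.two (nat_lit 16777217) (nat_lit 673185910) (.two (nat_lit 16777216) (nat_lit 4194930) (.one (nat_lit 4196921) .nil)))),
   .two (nat_lit 176160776) (nat_lit 28758245384) (.two (nat_lit 638582789) (nat_lit 1780482072) (.two (nat_lit 605028353) (nat_lit 37320917607) (.one (nat_lit 8391226) .nil))),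
   .two (nat_lit 1343225864) (nat_lit 156468510733) (.two (nat_lit 705691652) (nat_lit 28693233704) (.two (nat_lit 34603009) (nat_lit 4194431) (.two (nat_lit 8388608) (nat_lit 339739666) (.one (nat_lit 4196923) .nil)))),
   .two (nat_lit 13195280392) (nat_lit 11510218777) (.two (nat_lit 8388609) (nat_lit 12114198643) (.two (nat_lit 16777216) (nat_lit 1050425) .nil)),
   .two (nat_lit 13224640525) (nat_lit 9899606029) (.two (nat_lit 9768534021) (nat_lit 21777874959) (.two (nat_lit 34603009) (nat_lit 843055945) .nil)),
   .two (nat_lit 276824072) (nat_lit 10338959375) (.two (nat_lit 8388609) (nat_lit 165528207964) (.one (nat_lit 4196189) .nil)),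
   .two (nat_lit 159217877000) (nat_lit 19093520396) (.two (nat_lit 705691652) (nat_lit 20705181817) (.two (nat_lit 1048576) (nat_lit 304087668) (.one (nat_lit 2886730998) .nil))),
   .two (nat_lit 2954887176) (nat_lit 19529728008) (.two (nat_lit 169869316) (nat_lit 28690087951) (.two (nat_lit 16777217) (nat_lit 34604051) (.one (nat_lit 1051196) .nil))),
   .two (nat_lit 16777224) (nat_lit 183853121544) (.two (nat_lit 16777221) (nat_lit 780140570) (.two (nat_lit 41943041) (nat_lit 50331839) (.one (nat_lit 16779837) .nil))),
   .two (nat_lit 41943048) (nat_lit 1749024776) (.two (nat_lit 8388612) (nat_lit 12050235417) (.two (nat_lit 620756993) (nat_lit 4030726261) (.two (nat_lit 16777216) (nat_lit 3028288074) (.one (nat_lit 8391230) .nil)))),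
   .two (nat_lit 2969567240) (nat_lit 158077026312) (.two (nat_lit 708837381) (nat_lit 2969567247) (.two (nat_lit 606076929) (nat_lit 4613734523) (.two (nat_lit 2097152) (nat_lit 21223178856) (.one (nat_lit 16779839) .nil)))),
   .two (nat_lit 11492392968) (nat_lit 159217877000) (.two (nat_lit 169869316) (nat_lit 156581756995) (.two (nat_lit 2097152) (nat_lit 754975082) (.one (nat_lit 2099776) .nil))),
   .two (nat_lit 12117344264) (nat_lit 1376780301) (.two (nat_lit 21777874949) (nat_lit 156971827558) (.one (nat_lit 19599983827) .nil)),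
   .two (nat_lit 2887778312) (nat_lit 1749024792) (.two (nat_lit 9765388289) (nat_lit 28087156846) (.two (nat_lit 1048576) (nat_lit 4194935) (.one (nat_lit 4196206) .nil))),
   .two (nat_lit 2954887176) (nat_lit 822083592) (.two (nat_lit 8388612) (nat_lit 47582281855) (.two (nat_lit 8388608) (nat_lit 12148802151) (.one (nat_lit 2099777) .nil))),
   .two (nat_lit 165525061640) (nat_lit 19599982607) (.two (nat_lit 16777217) (nat_lit 205521488) (.one (nat_lit 16779222) .nil)),
   .two (nat_lit 4194312) (nat_lit 157036838920) (.two (nat_lit 4194308) (nat_lit 183845781519) (.two (nat_lit 4194305) (nat_lit 1376780529) (.two (nat_lit 4194304) (nat_lit 35652216) (.one (nat_lit 19529729972) .nil)))),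
   .two (nat_lit 156367847432) (nat_lit 10437525517) (.two (nat_lit 102760453) (nat_lit 11614028026) (.two (nat_lit 8388608) (nat_lit 37316723279) (.one (nat_lit 2099833) .nil))),
   .two (nat_lit 68157448) (nat_lit 654311439) (.two (nat_lit 4194305) (nat_lit 12617515594) (.one (nat_lit 16779898) .nil)),
   .two (nat_lit 8388616) (nat_lit 156365750280) (.two (nat_lit 176160773) (nat_lit 46407876633) (.two (nat_lit 41943041) (nat_lit 165526110493) (.two (nat_lit 16777216) (nat_lit 2927624780) (.one (nat_lit 8391291) .nil)))),
   .two (nat_lit 822083592) (nat_lit 158083317775) (.two (nat_lit 2097153) (nat_lit 28798091625) (.one (nat_lit 16779900) .nil)),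
   .two (nat_lit 165532401672) (nat_lit 10538188812) (.two (nat_lit 10504634373) (nat_lit 165532401679) (.two (nat_lit 156365750273) (nat_lit 9940501520) (.one (nat_lit 8390619) .nil))),
   .two (nat_lit 739246088) (nat_lit 675282970) (.two (nat_lit 4194305) (nat_lit 68157565) (.two (nat_lit 4194304) (nat_lit 156968682101) (.one (nat_lit 4196989) .nil))),
   .two (nat_lit 9934209032) (nat_lit 158083317783) (.two (nat_lit 2097153) (nat_lit 12624855695) (.one (nat_lit 8391294) .nil)),
   .two (nat_lit 822083592) (nat_lit 158083317775) (.two (nat_lit 16777217) (nat_lit 46414168425) (.one (nat_lit 8391295) .nil)),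
   .two (nat_lit 4194312) (nat_lit 157036838927) (.two (nat_lit 4194305) (nat_lit 4028629102) (.two (nat_lit 4194304) (nat_lit 46474986144) (.one (nat_lit 1051264) .nil))),
   .two (nat_lit 18925748232) (nat_lit 809500685) (.two (nat_lit 809500677) (nat_lit 12047089687) (.two (nat_lit 16777217) (nat_lit 2954887792) (.one (nat_lit 1051265) .nil))),
   .two (nat_lit 184423546888) (nat_lit 10506731532) (.two (nat_lit 11546918917) (nat_lit 28093448304) (.two (nat_lit 2097152) (nat_lit 165532402238) (.one (nat_lit 8390626) .nil))),
   .two (nat_lit 1779433480) (nat_lit 157038936077) (.two (nat_lit 101711877) (nat_lit 10506731560) (.two (nat_lit 605028353) (nat_lit 174688567417) (.two (nat_lit 1048576) (nat_lit 171967092) (.one (nat_lit 3557819638) .nil)))),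
   .two (nat_lit 28087156744) (nat_lit 10939793423) (.two (nat_lit 606076929) (nat_lit 13187940483) (.two (nat_lit 1048576) (nat_lit 158192370331) (.one (nat_lit 16779148) .nil))),
   .two (nat_lit 46409973768) (nat_lit 1753219084) (.two (nat_lit 18933088261) (nat_lit 1212153923) (.two (nat_lit 8388608) (nat_lit 4195392) (.one (nat_lit 306186808) .nil))),
   .two (nat_lit 276824072) (nat_lit 50331674) (.two (nat_lit 8388609) (nat_lit 9799991531) (.two (nat_lit 1048576) (nat_lit 166130091051) (.one (nat_lit 1051266) .nil))),
   .two (nat_lit 28693233672) (nat_lit 165526110221) (.two (nat_lit 18926796805) (nat_lit 28693233730) (.two (nat_lit 2097152) (nat_lit 10372514152) (.one (nat_lit 4196995) .nil))),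
   .two (nat_lit 75497480) (nat_lit 46507491342) (.two (nat_lit 159216828421) (nat_lit 10544480386) (.two (nat_lit 1048576) (nat_lit 156569174373) (.one (nat_lit 4196996) .nil))),
   .two (nat_lit 4605345800) (nat_lit 28693233672) (.two (nat_lit 1916796933) (nat_lit 4605345858) (.two (nat_lit 4194304) (nat_lit 13195280948) (.one (nat_lit 8391301) .nil))),
   .two (nat_lit 19532873736) (nat_lit 2332033038) (.two (nat_lit 285212677) (nat_lit 19532873743) (.two (nat_lit 9768534017) (nat_lit 9881780822) (.one (nat_lit 28101838073) .nil))),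
   .two (nat_lit 205520904) (nat_lit 28758245384) (.two (nat_lit 34603013) (nat_lit 19096666138) (.two (nat_lit 4194305) (nat_lit 135266428) (.two (nat_lit 1048576) (nat_lit 174753579594) (.one (nat_lit 4196998) .nil)))),
   .two (nat_lit 612368392) (nat_lit 20637024271) (.two (nat_lit 8388609) (nat_lit 34603138) (.two (nat_lit 8388608) (nat_lit 3024093800) (.one (nat_lit 4196999) .nil))),
   .two (nat_lit 183853121544) (nat_lit 20638072847) (.two (nat_lit 41943041) (nat_lit 21208498289) (.two (nat_lit 8388608) (nat_lit 673187034) .nil)),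
   .two (nat_lit 176160776) (nat_lit 46422556686) (.two (nat_lit 654311429) (nat_lit 880804031) (.one (nat_lit 156976022830) .nil)),
   .two (nat_lit 9768534024) (nat_lit 721420314) (.two (nat_lit 4194305) (nat_lit 159217877126) (.two (nat_lit 2097152) (nat_lit 4195417) (.one (nat_lit 4197001) .nil))),
   .two (nat_lit 4194312) (nat_lit 156365750280) (.two (nat_lit 21778923525) (nat_lit 185020186647) (.two (nat_lit 50331649) (nat_lit 270532971) (.one (nat_lit 1051274) .nil))),
   .two (nat_lit 822083592) (nat_lit 9934209039) (.two (nat_lit 16777217) (nat_lit 158144135749) (.one (nat_lit 46407878491) .nil)),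
   .two (nat_lit 4194312) (nat_lit 1210056717) (.two (nat_lit 605028357) (nat_lit 159251431465) (.two (nat_lit 16777217) (nat_lit 4030726503) (.one (nat_lit 4196337) .nil))),
   .two (nat_lit 4194312) (nat_lit 3525312527) (.two (nat_lit 2097153) (nat_lit 47581233425) (.two (nat_lit 2097152) (nat_lit 13221495834) (.one (nat_lit 1051275) .nil))),
   .two (nat_lit 2889875464) (nat_lit 10336862223) (.two (nat_lit 2097153) (nat_lit 339739152) (.two (nat_lit 2097152) (nat_lit 10000269900) (.one (nat_lit 4197004) .nil))),
   .two (nat_lit 822083592) (nat_lit 28693233679) (.two (nat_lit 9768534017) (nat_lit 28705816710) (.two (nat_lit 2097152) (nat_lit 1212155810) .nil)),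
   .two (nat_lit 16777224) (nat_lit 19096666125) (.two (nat_lit 1916796933) (nat_lit 285212695) (.two (nat_lit 612368385) (nat_lit 83887185) (.one (nat_lit 4197006) .nil))),
   .two (nat_lit 754974728) (nat_lit 184986632205) (.two (nat_lit 2902458372) (nat_lit 10907287592) (.two (nat_lit 34603009) (nat_lit 10519314559) (.two (nat_lit 1048576) (nat_lit 16778331) (.one (nat_lit 2099855) .nil)))),
   .two (nat_lit 813694984) (nat_lit 9948889101) (.two (nat_lit 9948889093) (nat_lit 9906946167) (.two (nat_lit 2097152) (nat_lit 16778934) (.one (nat_lit 16779920) .nil))),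
   .two (nat_lit 1745879048) (nat_lit 10538188812) (.two (nat_lit 10504634373) (nat_lit 1745879055) (.two (nat_lit 34603009) (nat_lit 166130090105) (.two (nat_lit 1048576) (nat_lit 337642100) (.one (nat_lit 2920285430) .nil)))),
   .two (nat_lit 2889875464) (nat_lit 18925748232) (.two (nat_lit 2889875460) (nat_lit 11510218777) (.two (nat_lit 16777217) (nat_lit 37313577643) (.one (nat_lit 269486641) .nil))),
   .two (nat_lit 16777224) (nat_lit 2994733069) (.two (nat_lit 11559501829) (nat_lit 37313577000) (.two (nat_lit 8388609) (nat_lit 4613734762) (.one (nat_lit 1051281) .nil))),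
   .two (nat_lit 9934209032) (nat_lit 19599982604) (.two (nat_lit 1277165573) (nat_lit 46409973881) (.two (nat_lit 2097152) (nat_lit 4601152093) (.one (nat_lit 4197010) .nil))),
   .two (nat_lit 4194312) (nat_lit 47555018760) (.two (nat_lit 809500677) (nat_lit 28757196847) (.two (nat_lit 37748737) (nat_lit 10335813761) (.two (nat_lit 1048576) (nat_lit 205521976) (.one (nat_lit 1051283) .nil)))),
   .two (nat_lit 1753219080) (nat_lit 1947205645) (.two (nat_lit 101711877) (nat_lit 28093448304) (.two (nat_lit 1048576) (nat_lit 20644365532) .nil)),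
   .two (nat_lit 46407876616) (nat_lit 156372041736) (.two (nat_lit 806354949) (nat_lit 19604176920) (.two (nat_lit 34603009) (nat_lit 1914699891) (.two (nat_lit 1048576) (nat_lit 10343154351) (.one (nat_lit 2099860) .nil)))),
   .two (nat_lit 11551113224) (nat_lit 159232557064) (.two (nat_lit 184549380) (nat_lit 184993972239) (.two (nat_lit 16777217) (nat_lit 183949590652) (.two (nat_lit 2097152) (nat_lit 21781021339) (.one (nat_lit 4196347) .nil)))),
   .two (nat_lit 721420296) (nat_lit 18933088269) (.two (nat_lit 18933088261) (nat_lit 721420303) (.two (nat_lit 8388609) (nat_lit 16777786) (.one (nat_lit 16779925) .nil))),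
   .two (nat_lit 165526110216) (nat_lit 19529728008) (.two (nat_lit 157035790341) (nat_lit 165526110223) (.two (nat_lit 50331649) (nat_lit 11610882302) (.two (nat_lit 1048576) (nat_lit 4043309416) (.one (nat_lit 16779926) .nil)))),
   .two (nat_lit 705691656) (nat_lit 46414168079) (.two (nat_lit 2097153) (nat_lit 2349859054) (.two (nat_lit 2097152) (nat_lit 37246468666) (.one (nat_lit 1050623) .nil))),
   .two (nat_lit 46510637069) (nat_lit 46474985485) (.two (nat_lit 2889875461) (nat_lit 3558866985) (.two (nat_lit 4194305) (nat_lit 28087156861) (.two (nat_lit 2097152) (nat_lit 4195420) (.one (nat_lit 156535620836) .nil)))),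
   .two (nat_lit 47548727304) (nat_lit 20737687575) (.two (nat_lit 2097153) (nat_lit 101711990) (.two (nat_lit 2097152) (nat_lit 1049693) (.one (nat_lit 165526112046) .nil))),
   .two (nat_lit 169869320) (nat_lit 10506731535) (.two (nat_lit 2097153) (nat_lit 104857723) (.two (nat_lit 2097152) (nat_lit 37749359) (.one (nat_lit 19529730630) .nil))),
   .two (nat_lit 46414168072) (nat_lit 9934209037) (.two (nat_lit 9934209029) (nat_lit 4605345904) (.two (nat_lit 4194304) (nat_lit 1350566564) (.one (nat_lit 2099863) .nil))),
   .two (nat_lit 184423546888) (nat_lit 156465365005) (.two (nat_lit 270532613) (nat_lit 156372041835) (.two (nat_lit 1048576) (nat_lit 8389314) (.one (nat_lit 1050627) .nil))),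
   .two (nat_lit 37748744) (nat_lit 174685421594) (.two (nat_lit 2097153) (nat_lit 183949590813) (.two (nat_lit 4194304) (nat_lit 2098871) (.one (nat_lit 2099864) .nil))),
   .two (nat_lit 606076936) (nat_lit 142606376) (.two (nat_lit 37748737) (nat_lit 19027460371) (.two (nat_lit 4194304) (nat_lit 16778936) (.one (nat_lit 4196362) .nil))),
   .two (nat_lit 276824072) (nat_lit 236978242) (.two (nat_lit 1048576) (nat_lit 236978533) (.one (nat_lit 1051289) .nil)),
   .two (nat_lit 2961178632) (nat_lit 46409973826) (.two (nat_lit 1048576) (nat_lit 2353004904) (.one (nat_lit 1051290) .nil)),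
   .two (nat_lit 620757000) (nat_lit 13222543374) (.two (nat_lit 184549381) (nat_lit 11513364503) (.two (nat_lit 16777217) (nat_lit 2988441732) (.two (nat_lit 4194304) (nat_lit 21827158646) (.one (nat_lit 2099867) .nil)))),
   .two (nat_lit 21785214989) (nat_lit 4028629005) (.two (nat_lit 159224168453) (nat_lit 19027460210) (.two (nat_lit 8388608) (nat_lit 2098873) (.one (nat_lit 2099869) .nil))),
   .two (nat_lit 11551113224) (nat_lit 2923429912) (.two (nat_lit 41943041) (nat_lit 46510637166) (.two (nat_lit 2097152) (nat_lit 12117344894) (.one (nat_lit 4197022) .nil))),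
   .two (nat_lit 20637024264) (nat_lit 159251431436) (.two (nat_lit 159217876997) (nat_lit 9899606042) (.two (nat_lit 606076929) (nat_lit 638582915) (.two (nat_lit 2097152) (nat_lit 9936307449) .nil))),
   .two (nat_lit 176160776) (nat_lit 157036838927) (.two (nat_lit 2097153) (nat_lit 19134414978) (.two (nat_lit 8388608) (nat_lit 1411383933) (.one (nat_lit 2099213) .nil))),
   .two (nat_lit 2887778312) (nat_lit 159224168463) (.two (nat_lit 2097153) (nat_lit 880803962) (.two (nat_lit 2097152) (nat_lit 47588573814) (.one (nat_lit 1051296) .nil))),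
   .two (nat_lit 1795162120) (nat_lit 37313576984) (.two (nat_lit 605028353) (nat_lit 654312665) .nil),
   .two (nat_lit 37748744) (nat_lit 2316304397) (.two (nat_lit 2097157) (nat_lit 46409973775) (.two (nat_lit 2097153) (nat_lit 11006902528) (.two (nat_lit 2097152) (nat_lit 168821368) (.one (nat_lit 4196368) .nil)))),
   .two (nat_lit 2954887176) (nat_lit 1749024780) (.two (nat_lit 4194308) (nat_lit 12048138283) (.two (nat_lit 16777217) (nat_lit 4599054929) (.one (nat_lit 1346373580) .nil))),
   .two (nat_lit 4194312) (nat_lit 157036838927) (.two (nat_lit 4194305) (nat_lit 28087156859) (.two (nat_lit 4194304) (nat_lit 2921333366) (.one (nat_lit 2099873) .nil))),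
   .two (nat_lit 3525312520) (nat_lit 21207449615) (.two (nat_lit 2097153) (nat_lit 20704133235) (.two (nat_lit 2097152) (nat_lit 158176641605) (.one (nat_lit 1051298) .nil))),
   .two (nat_lit 822083592) (nat_lit 343932940) (.two (nat_lit 16777220) (nat_lit 4605345832) (.two (nat_lit 16777217) (nat_lit 11484004486) (.two (nat_lit 4194304) (nat_lit 11484005019) (.one (nat_lit 8391331) .nil)))),
   .two (nat_lit 1358954504) (nat_lit 2987393038) (.two (nat_lit 806354949) (nat_lit 11559501937) (.two (nat_lit 1048576) (nat_lit 4647289473) (.one (nat_lit 46474987410) .nil))),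
   .two (nat_lit 721420296) (nat_lit 20705181722) (.two (nat_lit 50331649) (nat_lit 10437525622) (.two (nat_lit 2097152) (nat_lit 16778940) (.one (nat_lit 9814673276) .nil))),
   .two (nat_lit 169869320) (nat_lit 157038936072) (.two (nat_lit 2097157) (nat_lit 46409973775) (.two (nat_lit 2097153) (nat_lit 28760342779) (.two (nat_lit 2097152) (nat_lit 2353005243) (.one (nat_lit 4196372) .nil)))),
   .two (nat_lit 9867100168) (nat_lit 10343153679) (.two (nat_lit 37748737) (nat_lit 612369051) (.one (nat_lit 8391332) .nil)),
   .two (nat_lit 184986632200) (nat_lit 159224168460) (.two (nat_lit 612368389) (nat_lit 11577327682) (.two (nat_lit 8388608) (nat_lit 1376780645) (.one (nat_lit 2416970400) .nil))),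
   .two (nat_lit 41943048) (nat_lit 28087156751) (.two (nat_lit 8388609) (nat_lit 83886776) (.one (nat_lit 16779941) .nil)),
   .two (nat_lit 713031688) (nat_lit 2923429911) (.two (nat_lit 4194305) (nat_lit 880803907) (.two (nat_lit 4194304) (nat_lit 183953785196) (.one (nat_lit 4197030) .nil))),
   .two (nat_lit 183848927240) (nat_lit 10537140237) (.two (nat_lit 75497477) (nat_lit 13191086095) (.two (nat_lit 605028353) (nat_lit 1849688656) (.one (nat_lit 19026413465) .nil))),
   .two (nat_lit 184549384) (nat_lit 156372041743) (.two (nat_lit 8388609) (nat_lit 2902458433) (.two (nat_lit 8388608) (nat_lit 16778338) (.one (nat_lit 11014244303) .nil))),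
   .two (nat_lit 166132187144) (nat_lit 135266316) (.two (nat_lit 1916796933) (nat_lit 159216828550) (.two (nat_lit 1048576) (nat_lit 9802089047) (.one (nat_lit 4196374) .nil))),
   .two (nat_lit 2961178632) (nat_lit 157036838927) (.two (nat_lit 2097153) (nat_lit 1954546344) (.one (nat_lit 1051303) .nil)),
   .two (nat_lit 11479810056) (nat_lit 13195280392) (.two (nat_lit 8388612) (nat_lit 12150898714) (.two (nat_lit 620756993) (nat_lit 184993973335) (.one (nat_lit 8391336) .nil))),
   .two (nat_lit 50331656) (nat_lit 4638900247) (.two (nat_lit 16777217) (nat_lit 21214789902) (.two (nat_lit 8388608) (nat_lit 16778339) (.one (nat_lit 1358956554) .nil))),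
   .two (nat_lit 101711880) (nat_lit 19530776584) (.two (nat_lit 1276116996) (nat_lit 1746927742) (.two (nat_lit 16777216) (nat_lit 19093521029) (.one (nat_lit 1050647) .nil))),
   .two (nat_lit 68157448) (nat_lit 813694984) (.two (nat_lit 8388612) (nat_lit 21777874959) (.two (nat_lit 8388609) (nat_lit 12617515264) (.two (nat_lit 2097152) (nat_lit 13187940966) (.one (nat_lit 1051306) .nil)))),
   .two (nat_lit 50331656) (nat_lit 606076943) (.two (nat_lit 4194305) (nat_lit 270533228) (.one (nat_lit 2099883) .nil)),
   .two (nat_lit 11543773192) (nat_lit 184993972232) (.two (nat_lit 739246085) (nat_lit 713031706) (.two (nat_lit 605028353) (nat_lit 4034921552) (.one (nat_lit 1051247) .nil))),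
   .two (nat_lit 16777224) (nat_lit 1175453711) (.two (nat_lit 8388609) (nat_lit 174752530744) (.two (nat_lit 8388608) (nat_lit 166129042523) (.one (nat_lit 1051308) .nil))),
   .two (nat_lit 9768534024) (nat_lit 28087156751) (.two (nat_lit 50331649) (nat_lit 10439622779) (.two (nat_lit 16777216) (nat_lit 71303780) (.one (nat_lit 2099885) .nil))),
   .two (nat_lit 2969567240) (nat_lit 843055116) (.two (nat_lit 809500677) (nat_lit 620757099) (.two (nat_lit 4194304) (nat_lit 183928619623) (.one (nat_lit 4197038) .nil))),
   .two (nat_lit 739246088) (nat_lit 21214789655) (.two (nat_lit 34603009) (nat_lit 21818770028) (.one (nat_lit 1051311) .nil)),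
   .two (nat_lit 11543773192) (nat_lit 166132187144) (.two (nat_lit 10506731525) (nat_lit 11543773199) (.two (nat_lit 34603009) (nat_lit 809501301) (.one (nat_lit 19532875044) .nil))),
   .two (nat_lit 2954887176) (nat_lit 184989777934) (.two (nat_lit 4194308) (nat_lit 156466413592) (.two (nat_lit 4194305) (nat_lit 10001318992) (.one (nat_lit 12620662016) .nil))),
   .two (nat_lit 12117344264) (nat_lit 21777874959) (.two (nat_lit 34603009) (nat_lit 306184257) (.two (nat_lit 1048576) (nat_lit 4195428) (.one (nat_lit 4197040) .nil))),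
   .two (nat_lit 169869320) (nat_lit 10506731535) (.two (nat_lit 2097153) (nat_lit 104857723) (.two (nat_lit 1048576) (nat_lit 3460301414) (.one (nat_lit 2099889) .nil))),
   .two (nat_lit 12047089672) (nat_lit 19530776602) (.two (nat_lit 9766436865) (nat_lit 2886729845) (.two (nat_lit 1048576) (nat_lit 174753580130) (.one (nat_lit 1051314) .nil))),
   .two (nat_lit 41943048) (nat_lit 1325400114) (.two (nat_lit 50331649) (nat_lit 780141148) (.one (nat_lit 8390684) .nil)),
   .two (nat_lit 41943048) (nat_lit 19529728014) (.two (nat_lit 605028357) (nat_lit 13195280399) (.two (nat_lit 4194305) (nat_lit 184423547496) (.one (nat_lit 20704135839) .nil))),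
   .two (nat_lit 205520904) (nat_lit 157036838927) (.two (nat_lit 34603009) (nat_lit 174753579594) (.one (nat_lit 1343228768) .nil)),
   .two (nat_lit 9768534024) (nat_lit 184423546904) (.two (nat_lit 4194305) (nat_lit 11618222145) (.two (nat_lit 4194304) (nat_lit 184993972586) (.one (nat_lit 8391347) .nil))),
   .two (nat_lit 8388616) (nat_lit 174752530440) (.two (nat_lit 8388612) (nat_lit 1309671447) (.two (nat_lit 41943041) (nat_lit 156465365099) (.two (nat_lit 8388608) (nat_lit 1049701) (.one (nat_lit 1051316) .nil)))),
   .two (nat_lit 176160776) (nat_lit 3460300808) (.two (nat_lit 4605345797) (nat_lit 46510637080) (.two (nat_lit 4194305) (nat_lit 19537068163) (.two (nat_lit 4194304) (nat_lit 158075978317) (.one (nat_lit 4197045) .nil)))),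
   .two (nat_lit 1291845640) (nat_lit 10336862223) (.two (nat_lit 2097153) (nat_lit 50332213) (.one (nat_lit 16779293) .nil)),
   .two (nat_lit 742391816) (nat_lit 4605345807) (.two (nat_lit 37748737) (nat_lit 2961178747) (.two (nat_lit 4194304) (nat_lit 1920991844) (.one (nat_lit 2099894) .nil))),
   .two (nat_lit 16777224) (nat_lit 12150898711) (.two (nat_lit 4194305) (nat_lit 20719861886) (.two (nat_lit 16777216) (nat_lit 742392912) (.one (nat_lit 4197047) .nil))),
   .two (nat_lit 12117344264) (nat_lit 28757196808) (.two (nat_lit 9866051589) (nat_lit 12117344322) (.two (nat_lit 1048576) (nat_lit 4195430) (.one (nat_lit 4197048) .nil))),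
   .two (nat_lit 1291845640) (nat_lit 184416206856) (.two (nat_lit 9881780229) (nat_lit 1745879055) (.two (nat_lit 156372041729) (nat_lit 46422557335) (.one (nat_lit 1051321) .nil))),
   .two (nat_lit 183853121544) (nat_lit 37246468109) (.two (nat_lit 12114198533) (nat_lit 12054429711) (.two (nat_lit 34603009) (nat_lit 183853121893) (.one (nat_lit 8390687) .nil))),
   .two (nat_lit 2902458376) (nat_lit 10506731535) (.two (nat_lit 4194305) (nat_lit 166245433459) (.two (nat_lit 4194304) (nat_lit 157051519585) (.one (nat_lit 1050656) .nil))),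
   .two (nat_lit 13203669000) (nat_lit 13187940366) (.two (nat_lit 50331653) (nat_lit 1846542362) (.two (nat_lit 605028353) (nat_lit 1210056820) (.two (nat_lit 2097152) (nat_lit 2349859429) (.one (nat_lit 1051322) .nil)))),
   .two (nat_lit 12114198536) (nat_lit 1310720024) (.two (nat_lit 9765388289) (nat_lit 2988442175) (.one (nat_lit 807406162) .nil)),
   .two (nat_lit 10370416648) (nat_lit 156367847439) (.two (nat_lit 605028353) (nat_lit 21781021786) (.one (nat_lit 1411385928) .nil)),
   .two (nat_lit 9948889096) (nat_lit 673185816) (.two (nat_lit 2097153) (nat_lit 1929380490) (.one (nat_lit 16779963) .nil)),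
   .two (nat_lit 306184205) (nat_lit 158144135180) (.two (nat_lit 3527409669) (nat_lit 1310720112) (.two (nat_lit 2097152) (nat_lit 1212155099) .nil)),
   .two (nat_lit 11479810056) (nat_lit 174752530440) (.two (nat_lit 11479810052) (nat_lit 158075977743) (.two (nat_lit 612368385) (nat_lit 4598006838) (.one (nat_lit 1051325) .nil))),
   .two (nat_lit 2887778312) (nat_lit 117440527) (.two (nat_lit 34603009) (nat_lit 159217877109) (.two (nat_lit 1048576) (nat_lit 1358955082) (.one (nat_lit 16779966) .nil))),
   .two (nat_lit 1913651208) (nat_lit 304087054) (.two (nat_lit 9934209029) (nat_lit 1913651215) (.two (nat_lit 34603009) (nat_lit 1277165689) (.two (nat_lit 1048576) (nat_lit 304087668) (.one (nat_lit 2886730998) .nil)))),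
   .two (nat_lit 50331656) (nat_lit 1276117007) (.two (nat_lit 2097153) (nat_lit 159266111760) (.two (nat_lit 4194304) (nat_lit 337642071) (.one (nat_lit 2887780189) .nil))),
   .two (nat_lit 1343225864) (nat_lit 157038936076) (.two (nat_lit 9866051589) (nat_lit 9802088488) (.two (nat_lit 34603009) (nat_lit 742392454) (.one (nat_lit 4197055) .nil))),
   .two (nat_lit 11543773192) (nat_lit 18928893960) (.two (nat_lit 4194308) (nat_lit 12114198543) (.two (nat_lit 37748737) (nat_lit 19127075064) (.two (nat_lit 4194304) (nat_lit 21811430499) (.one (nat_lit 1050660) .nil)))),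
   .two (nat_lit 9768534024) (nat_lit 3525312520) (.two (nat_lit 2887778308) (nat_lit 9768534031) (.two (nat_lit 4194305) (nat_lit 2097780) (.one (nat_lit 2099904) .nil))),
   .two (nat_lit 176160776) (nat_lit 2886729742) (.two (nat_lit 10335813637) (nat_lit 176160783) (.two (nat_lit 16777217) (nat_lit 157035790467) (.two (nat_lit 8388608) (nat_lit 184986632859) (.one (nat_lit 156465366924) .nil)))),
   .two (nat_lit 612368392) (nat_lit 11559501839) (.two (nat_lit 50331649) (nat_lit 3028287610) (.two (nat_lit 16777216) (nat_lit 20711473780) (.one (nat_lit 8391361) .nil))),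
   .two (nat_lit 4613734408) (nat_lit 28758245388) (.two (nat_lit 16777220) (nat_lit 20705181739) (.two (nat_lit 34603009) (nat_lit 740294793) (.two (nat_lit 1048576) (nat_lit 639631952) (.one (nat_lit 2099906) .nil)))),
   .two (nat_lit 101711880) (nat_lit 10942939151) (.two (nat_lit 620756993) (nat_lit 183912890493) (.two (nat_lit 16777216) (nat_lit 185020187210) (.one (nat_lit 1051331) .nil))),
   .two (nat_lit 68157448) (nat_lit 10343153679) (.two (nat_lit 4194305) (nat_lit 2894070459) (.one (nat_lit 4196249) .nil)),
   .two (nat_lit 721420296) (nat_lit 3560964119) (.two (nat_lit 4194305) (nat_lit 721420354) (.two (nat_lit 4194304) (nat_lit 184431935847) (.one (nat_lit 4196392) .nil))),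
   .two (nat_lit 4194312) (nat_lit 10504634376) (.two (nat_lit 4194308) (nat_lit 46474985497) (.two (nat_lit 4194305) (nat_lit 10001318132) (.two (nat_lit 4194304) (nat_lit 2097815) (.one (nat_lit 3021998100) .nil)))),
   .two (nat_lit 184549384) (nat_lit 9768534024) (.two (nat_lit 2889875460) (nat_lit 16777283) (.two (nat_lit 16777216) (nat_lit 183848927861) (.one (nat_lit 4196394) .nil))),
   .two (nat_lit 11543773192) (nat_lit 12054429761) (.two (nat_lit 1048576) (nat_lit 46984594534) (.one (nat_lit 8391365) .nil)),
   .two (nat_lit 809500680) (nat_lit 184416206863) (.two (nat_lit 4194305) (nat_lit 19026411657) (.two (nat_lit 16777216) (nat_lit 2416968303) (.one (nat_lit 1051334) .nil))),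
   .two (nat_lit 75497480) (nat_lit 174752530445) (.two (nat_lit 28757196805) (nat_lit 11618222104) (.two (nat_lit 16777217) (nat_lit 11618222189) (.two (nat_lit 16777216) (nat_lit 185027527292) (.one (nat_lit 1051335) .nil)))),
   .two (nat_lit 1291845640) (nat_lit 157036838927) (.two (nat_lit 34603009) (nat_lit 166211879039) (.two (nat_lit 1048576) (nat_lit 166144770662) (.one (nat_lit 2099912) .nil))),
   .two (nat_lit 156569174029) (nat_lit 2349858829) (.two (nat_lit 11546918917) (nat_lit 9798942770) (.two (nat_lit 606076929) (nat_lit 235930687) (.one (nat_lit 1051338) .nil))),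
   .two (nat_lit 13203669000) (nat_lit 28757196808) (.two (nat_lit 50331653) (nat_lit 19026411544) (.two (nat_lit 9766436865) (nat_lit 20637024887) (.one (nat_lit 1051339) .nil))),
   .two (nat_lit 12047089672) (nat_lit 28758245416) (.two (nat_lit 34603009) (nat_lit 10538189035) (.two (nat_lit 1048576) (nat_lit 10538190034) .nil)),
   .two (nat_lit 11479810056) (nat_lit 156365750280) (.two (nat_lit 2954887173) (nat_lit 1178599439) (.two (nat_lit 2097153) (nat_lit 11479810114) (.two (nat_lit 4194304) (nat_lit 165526110794) (.one (nat_lit 2099917) .nil)))),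
   .two (nat_lit 158075977736) (nat_lit 156569174028) (.two (nat_lit 21777874949) (nat_lit 19130220660) (.two (nat_lit 1048576) (nat_lit 13224641752) .nil)),
   .two (nat_lit 713031688) (nat_lit 9948889096) (.two (nat_lit 184549381) (nat_lit 11584667714) (.two (nat_lit 16777216) (nat_lit 11618222442) (.one (nat_lit 8391375) .nil))),
   .two (nat_lit 166132187144) (nat_lit 721420404) (.two (nat_lit 4194304) (nat_lit 11559502402) (.one (nat_lit 1849689932) .nil)),
   .two (nat_lit 205520904) (nat_lit 28758245384) (.two (nat_lit 171966469) (nat_lit 3021996293) (.two (nat_lit 1048576) (nat_lit 174753579594) (.one (nat_lit 4197072) .nil))),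
   .two (nat_lit 4194312) (nat_lit 654311439) (.two (nat_lit 2097153) (nat_lit 202375835) (.one (nat_lit 16779987) .nil)),
   .two (nat_lit 50331656) (nat_lit 639631368) (.two (nat_lit 16777221) (nat_lit 1847590977) (.two (nat_lit 16777216) (nat_lit 1780482668) (.one (nat_lit 2099924) .nil))),
   .two (nat_lit 218103816) (nat_lit 11551113257) (.two (nat_lit 606076929) (nat_lit 157035790940) (.one (nat_lit 1051349) .nil)),
   .two (nat_lit 21208498184) (nat_lit 157035790349) (.two (nat_lit 285212677) (nat_lit 9900654616) (.two (nat_lit 9765388289) (nat_lit 28691137143) (.one (nat_lit 2099926) .nil))),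
   .two (nat_lit 47548727304) (nat_lit 156367847559) (.two (nat_lit 2097152) (nat_lit 21781021299) (.one (nat_lit 2098497) .nil)),
   .two (nat_lit 721420296) (nat_lit 158083317775) (.two (nat_lit 34603009) (nat_lit 21793604228) (.one (nat_lit 16779991) .nil)),
   .two (nat_lit 16777224) (nat_lit 13195280396) (.two (nat_lit 41943045) (nat_lit 50331839) (.one (nat_lit 16779311) .nil)),
   .two (nat_lit 4194312) (nat_lit 1344274446) (.two (nat_lit 34603013) (nat_lit 138412056) (.two (nat_lit 34603009) (nat_lit 11007951532) (.one (nat_lit 4197080) .nil))),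
   .two (nat_lit 169869320) (nat_lit 10506731528) (.two (nat_lit 809500677) (nat_lit 1209008171) (.two (nat_lit 34603009) (nat_lit 10907287673) (.two (nat_lit 1048576) (nat_lit 19130221130) (.one (nat_lit 184416208770) .nil)))),
   .two (nat_lit 184549384) (nat_lit 28790751256) (.two (nat_lit 16777217) (nat_lit 10369368306) (.two (nat_lit 16777216) (nat_lit 2316304956) (.one (nat_lit 1051353) .nil))),
   .two (nat_lit 11543773192) (nat_lit 156372041743) (.two (nat_lit 34603009) (nat_lit 18933088323) (.two (nat_lit 1048576) (nat_lit 37253808492) (.one (nat_lit 1051354) .nil))),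
   .two (nat_lit 2969567240) (nat_lit 136314930) (.two (nat_lit 2097153) (nat_lit 46523220597) (.one (nat_lit 16779995) .nil)),
   .two (nat_lit 822083592) (nat_lit 184419352589) (.two (nat_lit 285212677) (nat_lit 11614027826) (.two (nat_lit 37748737) (nat_lit 754974785) (.two (nat_lit 4194304) (nat_lit 11492393322) (.one (nat_lit 16779313) .nil)))),
   .two (nat_lit 4601151496) (nat_lit 184987680782) (.two (nat_lit 1176502277) (nat_lit 2923429955) (.two (nat_lit 8388608) (nat_lit 3560964455) (.one (nat_lit 2099932) .nil))),
   .two (nat_lit 272629768) (nat_lit 156968681485) (.two (nat_lit 2889875461) (nat_lit 183912890408) (.two (nat_lit 16777217) (nat_lit 1343226213) (.one (nat_lit 1050674) .nil))),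
   .two (nat_lit 1350565896) (nat_lit 183845781519) (.two (nat_lit 34603009) (nat_lit 158177689665) (.two (nat_lit 1048576) (nat_lit 9802089085) (.one (nat_lit 4196403) .nil))),
   .two (nat_lit 4194312) (nat_lit 2902458376) (.two (nat_lit 4194308) (nat_lit 19529728015) (.two (nat_lit 2097153) (nat_lit 708837494) (.two (nat_lit 16777216) (nat_lit 183947493976) (.one (nat_lit 2099933) .nil)))),
   .two (nat_lit 8388616) (nat_lit 1209008152) (.two (nat_lit 34603009) (nat_lit 21214789893) (.two (nat_lit 1048576) (nat_lit 1350567608) (.one (nat_lit 3524265872) .nil))),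
   .two (nat_lit 4194312) (nat_lit 654311432) (.two (nat_lit 4194308) (nat_lit 3557818504) (.two (nat_lit 2097152) (nat_lit 156566029362) (.one (nat_lit 1051358) .nil))),
   .two (nat_lit 620757000) (nat_lit 20644364301) (.two (nat_lit 721420293) (nat_lit 9772728419) (.two (nat_lit 8388609) (nat_lit 159266112617) (.one (nat_lit 16779999) .nil))),
   .two (nat_lit 4194312) (nat_lit 721420314) (.two (nat_lit 605028353) (nat_lit 21812478315) (.one (nat_lit 2099254) .nil)),
   .two (nat_lit 713031688) (nat_lit 19599982715) (.two (nat_lit 16777216) (nat_lit 19100861071) (.one (nat_lit 3565161086) .nil)),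
   .two (nat_lit 50331656) (nat_lit 205520904) (.two (nat_lit 2956984325) (nat_lit 50331663) (.two (nat_lit 50331649) (nat_lit 28790751356) (.two (nat_lit 1048576) (nat_lit 1929380461) (.one (nat_lit 1051361) .nil)))),
   .two (nat_lit 3525312520) (nat_lit 13224640525) (.two (nat_lit 809500677) (nat_lit 46474985538) (.two (nat_lit 4194304) (nat_lit 156533523666) .nil)),
   .two (nat_lit 1358954504) (nat_lit 11577327628) (.two (nat_lit 11543773189) (nat_lit 721420303) (.two (nat_lit 34603009) (nat_lit 1795162234) (.two (nat_lit 1048576) (nat_lit 20652753524) (.one (nat_lit 16780002) .nil)))),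
   .two (nat_lit 4194312) (nat_lit 184549384) (.two (nat_lit 16777221) (nat_lit 742391832) (.two (nat_lit 605028353) (nat_lit 218104093) (.two (nat_lit 16777216) (nat_lit 1050301) (.one (nat_lit 1051363) .nil)))),
   .two (nat_lit 11543773192) (nat_lit 165526110216) (.two (nat_lit 9765388293) (nat_lit 21208498199) (.two (nat_lit 8388609) (nat_lit 873463920) (.two (nat_lit 8388608) (nat_lit 9867100774) (.one (nat_lit 2099941) .nil)))),
   .two (nat_lit 37748744) (nat_lit 37313576972) (.two (nat_lit 169869316) (nat_lit 608174204) (.two (nat_lit 2097152) (nat_lit 12050236006) (.one (nat_lit 2099942) .nil))),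
   .two (nat_lit 4194312) (nat_lit 157043130383) (.two (nat_lit 4194305) (nat_lit 157035790403) (.two (nat_lit 4194304) (nat_lit 19033751910) (.one (nat_lit 11517561425) .nil))),
   .two (nat_lit 3525312520) (nat_lit 10439622698) (.two (nat_lit 4194305) (nat_lit 4028629564) (.one (nat_lit 2099943) .nil)),
   .two (nat_lit 205520904) (nat_lit 28087156751) (.two (nat_lit 2097153) (nat_lit 2923430134) (.two (nat_lit 1048576) (nat_lit 185035915626) (.one (nat_lit 16779323) .nil))),
   .two (nat_lit 205520904) (nat_lit 156365750287) (.two (nat_lit 4194305) (nat_lit 4632609367) (.one (nat_lit 10001319987) .nil)),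
   .two (nat_lit 41943048) (nat_lit 673185816) (.two (nat_lit 8388609) (nat_lit 35652262) (.one (nat_lit 2099944) .nil)),
   .two (nat_lit 8388616) (nat_lit 46407876616) (.two (nat_lit 41943045) (nat_lit 166196150313) (.two (nat_lit 34603009) (nat_lit 183920231099) (.one (nat_lit 9974057618) .nil))),
   .two (nat_lit 75497480) (nat_lit 46978301960) (.two (nat_lit 2889875460) (nat_lit 2921332863) (.two (nat_lit 2097152) (nat_lit 176161126) (.one (nat_lit 8391401) .nil))),
   .two (nat_lit 654311432) (nat_lit 174753579032) (.two (nat_lit 2097153) (nat_lit 1795162693) (.one (nat_lit 16780010) .nil)),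
   .two (nat_lit 721420296) (nat_lit 158143086600) (.two (nat_lit 1276116996) (nat_lit 11559501839) (.two (nat_lit 605028353) (nat_lit 754974832) (.two (nat_lit 1048576) (nat_lit 166245433998) (.one (nat_lit 16778589) .nil)))),
   .two (nat_lit 9768534024) (nat_lit 47548727304) (.two (nat_lit 2889875460) (nat_lit 47582281745) (.two (nat_lit 9768534019) (nat_lit 2954887193) (.two (nat_lit 9781116929) (nat_lit 69206128) (.two (nat_lit 16777216) (nat_lit 156567077546) (.one (nat_lit 1277166944) .nil))))),
   .two (nat_lit 159217877000) (nat_lit 183853121542) (.two (nat_lit 183853121540) (nat_lit 159217877007) (.two (nat_lit 156372041729) (nat_lit 166197198969) (.two (nat_lit 8388608) (nat_lit 69206114) (.one (nat_lit 2099304) .nil)))),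
   .two (nat_lit 11513364493) (nat_lit 605028366) (.two (nat_lit 11479810053) (nat_lit 11610882092) (.two (nat_lit 4194305) (nat_lit 11610882184) (.two (nat_lit 1048576) (nat_lit 4195694) (.one (nat_lit 4197484) .nil)))),
   .two (nat_lit 4601151496) (nat_lit 276824073) (.two (nat_lit 156372041733) (nat_lit 4601151503) (.two (nat_lit 41943041) (nat_lit 4030726181) (.two (nat_lit 8388608) (nat_lit 185023332552) (.one (nat_lit 4197103) .nil)))),
   .two (nat_lit 4601151496) (nat_lit 157036838919) (.two (nat_lit 46409973763) (nat_lit 174686470185) (.two (nat_lit 4194305) (nat_lit 174686470260) (.two (nat_lit 4194304) (nat_lit 2097905) (.one (nat_lit 2099316) .nil)))),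
   .two (nat_lit 8388614) (nat_lit 705691656) (.two (nat_lit 705691652) (nat_lit 880803866) (.two (nat_lit 9766436865) (nat_lit 11584667781) (.two (nat_lit 2097152) (nat_lit 8389804) (.one (nat_lit 9766437747) .nil)))),
   .two (nat_lit 46407876616) (nat_lit 10338959369) (.two (nat_lit 28693233669) (nat_lit 157036838927) (.two (nat_lit 34603009) (nat_lit 46407876732) (.two (nat_lit 1048576) (nat_lit 2097352) (.one (nat_lit 35652431) .nil)))),
   .two (nat_lit 156372041736) (nat_lit 159216828429) (.two (nat_lit 4601151493) (nat_lit 166129041423) (.two (nat_lit 4194305) (nat_lit 813695113) (.two (nat_lit 1048576) (nat_lit 174692761698) (.one (nat_lit 1051371) .nil)))),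
   .two (nat_lit 12054429704) (nat_lit 3036676109) (.two (nat_lit 184549381) (nat_lit 13228834849) (.two (nat_lit 184549379) (nat_lit 12624855064) (.two (nat_lit 156364701697) (nat_lit 1920991307) (.two (nat_lit 1048576) (nat_lit 8389362) (.one (nat_lit 8390776) .nil))))),
   .two (nat_lit 16777224) (nat_lit 1780482056) (.two (nat_lit 16777220) (nat_lit 1780482063) (.two (nat_lit 16777217) (nat_lit 13188989061) (.two (nat_lit 8388608) (nat_lit 1291846383) (.one (nat_lit 8391408) .nil)))),
   .two (nat_lit 1277165576) (nat_lit 174752530439) (.two (nat_lit 165525061635) (nat_lit 1277165583) (.two (nat_lit 156364701697) (nat_lit 2954887202) (.two (nat_lit 1048576) (nat_lit 2954887264) (.one (nat_lit 35652097) .nil)))),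
   .two (nat_lit 2887778312) (nat_lit 620756999) (.two (nat_lit 620756995) (nat_lit 639631375) (.two (nat_lit 620756993) (nat_lit 1948254276) (.two (nat_lit 1048576) (nat_lit 2887778507) (.one (nat_lit 11544822744) .nil)))),
   .two (nat_lit 158083317768) (nat_lit 156968681485) (.two (nat_lit 13187940357) (nat_lit 158083317775) (.two (nat_lit 2097153) (nat_lit 1753219139) (.two (nat_lit 2097152) (nat_lit 16778309) (.one (nat_lit 16779395) .nil)))),
   .two (nat_lit 10385096712) (nat_lit 272629773) (.two (nat_lit 272629765) (nat_lit 19109249057) (.two (nat_lit 4194307) (nat_lit 28806479898) (.two (nat_lit 4194305) (nat_lit 12129927314) (.two (nat_lit 1048576) (nat_lit 47596963928) (.one (nat_lit 47596963928) .nil))))),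
   .two (nat_lit 20638072838) (nat_lit 2969567240) (.two (nat_lit 20638072836) (nat_lit 2969567247) (.two (nat_lit 606076929) (nat_lit 2365587575) (.two (nat_lit 2097152) (nat_lit 11593056457) (.one (nat_lit 16779399) .nil)))),
   .two (nat_lit 2969567240) (nat_lit 20745027593) (.two (nat_lit 184993972229) (nat_lit 2969567247) (.two (nat_lit 37748737) (nat_lit 176160901) (.two (nat_lit 4194304) (nat_lit 822083679) (.one (nat_lit 16780017) .nil)))),
   .two (nat_lit 68157448) (nat_lit 8388614) (.two (nat_lit 8388612) (nat_lit 1376780314) (.two (nat_lit 4194305) (nat_lit 2886729850) (.two (nat_lit 4194304) (nat_lit 269484127) (.one (nat_lit 1051378) .nil)))),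
   .two (nat_lit 13195280392) (nat_lit 1392508937) (.two (nat_lit 2969567237) (nat_lit 813695002) (.two (nat_lit 16777217) (nat_lit 183953784984) (.two (nat_lit 16777216) (nat_lit 46414168969) (.one (nat_lit 16780019) .nil)))),
   .two (nat_lit 28693233672) (nat_lit 10537140233) (.two (nat_lit 12114198533) (nat_lit 28693233679) (.two (nat_lit 34603009) (nat_lit 1312817277) (.two (nat_lit 1048576) (nat_lit 12117344635) (.one (nat_lit 4196496) .nil)))),
   .two (nat_lit 10504634376) (nat_lit 10338959369) (.two (nat_lit 166132187141) (nat_lit 10504634383) (.two (nat_lit 4194305) (nat_lit 10437525541) (.two (nat_lit 4194304) (nat_lit 337641672) (.one (nat_lit 2099956) .nil)))),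
   .two (nat_lit 11543773192) (nat_lit 9781116940) (.two (nat_lit 705691652) (nat_lit 1191182377) (.two (nat_lit 34603009) (nat_lit 9982443801) (.two (nat_lit 16777216) (nat_lit 101712251) (.one (nat_lit 1051381) .nil)))),
   .two (nat_lit 13191086088) (nat_lit 10335813641) (.two (nat_lit 705691652) (nat_lit 19599982607) (.two (nat_lit 34603009) (nat_lit 10942939173) (.two (nat_lit 1048576) (nat_lit 28693234043) (.one (nat_lit 1051382) .nil)))),
   .two (nat_lit 4605345800) (nat_lit 3524263950) (.two (nat_lit 605028357) (nat_lit 46414168080) (.two (nat_lit 171966467) (nat_lit 4638900247) (.two (nat_lit 4194305) (nat_lit 158075977811) (.two (nat_lit 4194304) (nat_lit 8389371) (.one (nat_lit 8391415) .nil))))),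
   .two (nat_lit 16777224) (nat_lit 8388614) (.two (nat_lit 8388612) (nat_lit 16777231) (.two (nat_lit 8388609) (nat_lit 11626610755) (.two (nat_lit 8388608) (nat_lit 46489665736) (.one (nat_lit 1426064779) .nil)))),
   .two (nat_lit 1343225864) (nat_lit 185002360841) (.two (nat_lit 285212677) (nat_lit 1343225871) (.two (nat_lit 16777217) (nat_lit 46507491447) (.two (nat_lit 16777216) (nat_lit 11510218952) (.one (nat_lit 1050043) .nil)))),
   .two (nat_lit 4194312) (nat_lit 654311432) (.two (nat_lit 4194308) (nat_lit 654311439) (.two (nat_lit 4194305) (nat_lit 12633243765) (.two (nat_lit 1048576) (nat_lit 1291845729) (.one (nat_lit 352322006) .nil)))),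
   .two (nat_lit 183845781510) (nat_lit 9982443529) (.two (nat_lit 183845781506) (nat_lit 11559501864) (.two (nat_lit 11559501829) (nat_lit 12047089675) (.two (nat_lit 34603009) (nat_lit 158091706502) (.two (nat_lit 1048576) (nat_lit 11525947490) (.one (nat_lit 83887427) .nil))))),
   .two (nat_lit 4194312) (nat_lit 157043130377) (.two (nat_lit 20644364293) (nat_lit 4634705946) (.two (nat_lit 41943041) (nat_lit 809500813) (.two (nat_lit 1048576) (nat_lit 21210596059) (.one (nat_lit 1051384) .nil)))),
   .two (nat_lit 11492392968) (nat_lit 272629767) (.two (nat_lit 4194307) (nat_lit 11492392975) (.two (nat_lit 4194305) (nat_lit 159266111617) (.two (nat_lit 4194304) (nat_lit 166245433725) (.one (nat_lit 174768259980) .nil)))),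
   .two (nat_lit 1343225864) (nat_lit 142606349) (.two (nat_lit 705691652) (nat_lit 4638900251) (.two (nat_lit 612368385) (nat_lit 9781117049) (.two (nat_lit 8388608) (nat_lit 16777985) (.one (nat_lit 16779417) .nil)))),
   .two (nat_lit 183845781512) (nat_lit 21785214983) (.two (nat_lit 75497475) (nat_lit 19596836879) (.two (nat_lit 612368385) (nat_lit 37246468211) (.two (nat_lit 2097152) (nat_lit 11610882246) (.one (nat_lit 1050691) .nil)))),
   .two (nat_lit 4194312) (nat_lit 654311432) (.two (nat_lit 4194308) (nat_lit 654311439) (.two (nat_lit 4194305) (nat_lit 11626610807) (.two (nat_lit 1048576) (nat_lit 47596961986) (.one (nat_lit 16778705) .nil)))),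
   .two (nat_lit 50331656) (nat_lit 339738633) (.two (nat_lit 10506731525) (nat_lit 50331663) (.two (nat_lit 9768534017) (nat_lit 50331684) (.two (nat_lit 4194304) (nat_lit 1191182431) (.one (nat_lit 4197113) .nil)))),
   .two (nat_lit 46414168072) (nat_lit 840957966) (.two (nat_lit 1344274437) (nat_lit 46414168079) (.two (nat_lit 37748737) (nat_lit 4605345828) (.two (nat_lit 2097152) (nat_lit 159224168543) (.one (nat_lit 2099962) .nil)))),
   .two (nat_lit 11543773192) (nat_lit 13203669001) (.two (nat_lit 9948889093) (nat_lit 11543773199) (.two (nat_lit 620756993) (nat_lit 165525061757) (.two (nat_lit 16777216) (nat_lit 101712251) (.one (nat_lit 3524266128) .nil)))),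
   .two (nat_lit 705691656) (nat_lit 4605345800) (.two (nat_lit 34603013) (nat_lit 46414168080) (.two (nat_lit 68157443) (nat_lit 9766436879) (.two (nat_lit 605028353) (nat_lit 20638072915) (.two (nat_lit 2097152) (nat_lit 2927624832) (.one (nat_lit 2099358) .nil))))),
   .two (nat_lit 158144135176) (nat_lit 1913651208) (.two (nat_lit 11476664324) (nat_lit 169869340) (.two (nat_lit 620756995) (nat_lit 11476664335) (.two (nat_lit 620756993) (nat_lit 159250382967) (.two (nat_lit 16777216) (nat_lit 873464207) (.one (nat_lit 873465964) .nil))))),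
   .two (nat_lit 721420296) (nat_lit 1846542344) (.two (nat_lit 50331653) (nat_lit 168820778) (.two (nat_lit 50331649) (nat_lit 11610882309) (.two (nat_lit 16777216) (nat_lit 1049773) (.one (nat_lit 1050783) .nil)))),
   .two (nat_lit 46409973768) (nat_lit 1753219084) (.two (nat_lit 4601151493) (nat_lit 18933088296) (.two (nat_lit 4194305) (nat_lit 12054429765) (.two (nat_lit 8388608) (nat_lit 183949590925) (.one (nat_lit 4197115) .nil)))),
   .two (nat_lit 156548202505) (nat_lit 3527409672) (.two (nat_lit 620756997) (nat_lit 9768534031) (.two (nat_lit 50331649) (nat_lit 46510637166) (.two (nat_lit 16777216) (nat_lit 809501046) (.one (nat_lit 4196512) .nil)))),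
   .two (nat_lit 158143086600) (nat_lit 9906946061) (.two (nat_lit 9933160453) (nat_lit 19033751579) (.two (nat_lit 183853121539) (nat_lit 1276117007) (.two (nat_lit 41943041) (nat_lit 184416206931) (.two (nat_lit 1048576) (nat_lit 9768534779) (.one (nat_lit 1050786) .nil))))),
   .two (nat_lit 10538188812) (nat_lit 9933160457) (.two (nat_lit 28086108165) (nat_lit 28758245416) (.two (nat_lit 34603009) (nat_lit 20738736197) (.two (nat_lit 1048576) (nat_lit 740295049) (.one (nat_lit 1051373) .nil)))),
   .two (nat_lit 37748744) (nat_lit 1753219080) (.two (nat_lit 4194308) (nat_lit 1753219087) (.two (nat_lit 4194305) (nat_lit 11477713020) (.two (nat_lit 2097152) (nat_lit 47555018956) (.one (nat_lit 2099365) .nil)))),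
   .two (nat_lit 117440520) (nat_lit 183845781510) (.two (nat_lit 183845781508) (nat_lit 117440527) (.two (nat_lit 34603009) (nat_lit 754974830) (.two (nat_lit 1048576) (nat_lit 1761607891) (.one (nat_lit 9915336866) .nil)))),
   .two (nat_lit 705691656) (nat_lit 1749024783) (.two (nat_lit 705691652) (nat_lit 1377828931) (.two (nat_lit 50331649) (nat_lit 1947206237) (.two (nat_lit 16777216) (nat_lit 1376781544) (.one (nat_lit 1051430) .nil)))),
   .two (nat_lit 9934209032) (nat_lit 1212153968) (.two (nat_lit 2097153) (nat_lit 843055295) (.two (nat_lit 2097152) (nat_lit 4195578) (.one (nat_lit 4197159) .nil))),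
   .two (nat_lit 16777224) (nat_lit 183848927247) (.two (nat_lit 16777220) (nat_lit 843055171) (.two (nat_lit 16777217) (nat_lit 156969730407) (.two (nat_lit 2097152) (nat_lit 18928894792) (.one (nat_lit 2099398) .nil)))),
   .two (nat_lit 2887778312) (nat_lit 16777280) (.two (nat_lit 2097153) (nat_lit 352321727) (.two (nat_lit 1048576) (nat_lit 270533450) (.one (nat_lit 1050824) .nil))),
   .two (nat_lit 8388616) (nat_lit 12117344322) (.two (nat_lit 37748737) (nat_lit 10007609535) (.two (nat_lit 4194304) (nat_lit 1920992508) (.one (nat_lit 4634708142) .nil))),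
   .two (nat_lit 9768534024) (nat_lit 166129041423) (.two (nat_lit 1178599429) (nat_lit 11517558904) (.two (nat_lit 34603009) (nat_lit 3460301389) (.two (nat_lit 4194304) (nat_lit 8389888) (.one (nat_lit 4197160) .nil)))),
   .two (nat_lit 41943048) (nat_lit 183845781519) (.two (nat_lit 184993972229) (nat_lit 11510218859) (.two (nat_lit 156364701697) (nat_lit 46407877197) (.two (nat_lit 2097152) (nat_lit 8389889) (.one (nat_lit 2350909620) .nil)))),
   .two (nat_lit 276824072) (nat_lit 183949590553) (.two (nat_lit 101711877) (nat_lit 158177689665) (.two (nat_lit 605028353) (nat_lit 159217877352) (.two (nat_lit 1048576) (nat_lit 2098434) (.one (nat_lit 4197161) .nil)))),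
   .two (nat_lit 3458203656) (nat_lit 11513364503) (.two (nat_lit 12117344261) (nat_lit 2988441667) (.two (nat_lit 2097153) (nat_lit 9936306766) (.two (nat_lit 2097152) (nat_lit 4196136) (.one (nat_lit 4197132) .nil)))),
   .two (nat_lit 185002360840) (nat_lit 21207449624) (.two (nat_lit 9933160453) (nat_lit 822083707) (.two (nat_lit 606076929) (nat_lit 272630119) (.two (nat_lit 2097152) (nat_lit 4196137) (.one (nat_lit 2319452931) .nil)))),
   .two (nat_lit 276824072) (nat_lit 9768534031) (.two (nat_lit 8388612) (nat_lit 1849688187) (.two (nat_lit 4194305) (nat_lit 8388799) (.two (nat_lit 1048576) (nat_lit 4601152330) (.one (nat_lit 739248311) .nil)))),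
   .two (nat_lit 176160776) (nat_lit 166130090010) (.two (nat_lit 28758245381) (nat_lit 46414168129) (.two (nat_lit 9766436865) (nat_lit 158083318121) (.two (nat_lit 2097152) (nat_lit 2424308986) (.one (nat_lit 8391466) .nil)))),
   .two (nat_lit 2961178632) (nat_lit 639631375) (.two (nat_lit 176160772) (nat_lit 28691136635) (.two (nat_lit 2097153) (nat_lit 8388799) (.two (nat_lit 1048576) (nat_lit 4599055178) (.one (nat_lit 1051435) .nil)))),
   .two (nat_lit 169869320) (nat_lit 10338959375) (.two (nat_lit 4194308) (nat_lit 156364701810) (.two (nat_lit 2097153) (nat_lit 47547679078) (.two (nat_lit 2097152) (nat_lit 788531393) .nil))),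
   .two (nat_lit 50331656) (nat_lit 156566028355) (.two (nat_lit 8388609) (nat_lit 303038822) (.two (nat_lit 8388608) (nat_lit 285213928) (.one (nat_lit 1051436) .nil))),
   .two (nat_lit 184549384) (nat_lit 9768534031) (.two (nat_lit 16777221) (nat_lit 3527409730) (.two (nat_lit 16777217) (nat_lit 10506731711) (.two (nat_lit 16777216) (nat_lit 10909385950) (.one (nat_lit 16780077) .nil)))),
   .two (nat_lit 612368392) (nat_lit 13224640536) (.two (nat_lit 176160772) (nat_lit 183949590640) (.two (nat_lit 8388609) (nat_lit 183949591764) (.one (nat_lit 205523735) .nil))),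
   .two (nat_lit 83886088) (nat_lit 772800619) (.two (nat_lit 34603009) (nat_lit 16777407) (.two (nat_lit 16777216) (nat_lit 1050412) (.one (nat_lit 754976969) .nil))),
   .two (nat_lit 184549384) (nat_lit 185020186650) (.two (nat_lit 16777221) (nat_lit 28690088055) (.two (nat_lit 620756993) (nat_lit 184986632383) (.two (nat_lit 2097152) (nat_lit 1761609901) .nil))),
   .two (nat_lit 2887778312) (nat_lit 156372041743) (.two (nat_lit 270532613) (nat_lit 2927624258) (.two (nat_lit 2097153) (nat_lit 310378687) (.two (nat_lit 1048576) (nat_lit 337642314) (.one (nat_lit 19127077035) .nil)))),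
   .two (nat_lit 721420296) (nat_lit 1753219087) (.two (nat_lit 183853121540) (nat_lit 11559501937) (.two (nat_lit 41943041) (nat_lit 11559503323) .nil)),
   .two (nat_lit 705691656) (nat_lit 620757007) (.two (nat_lit 721420293) (nat_lit 166230753398) (.two (nat_lit 16777217) (nat_lit 1049185) (.two (nat_lit 2097152) (nat_lit 1049861) (.one (nat_lit 1051438) .nil)))),
   .two (nat_lit 21811429388) (nat_lit 184419352643) (.two (nat_lit 605028353) (nat_lit 183949590885) (.two (nat_lit 1048576) (nat_lit 183949591760) (.one (nat_lit 4197167) .nil))),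
   .two (nat_lit 272629768) (nat_lit 1745879055) (.two (nat_lit 809500677) (nat_lit 1745879148) (.two (nat_lit 37748737) (nat_lit 1376780479) (.two (nat_lit 16777216) (nat_lit 183912892617) .nil))),
   .two (nat_lit 1343225864) (nat_lit 12117344271) (.two (nat_lit 705691652) (nat_lit 1916797037) (.two (nat_lit 34603009) (nat_lit 183949591764) (.one (nat_lit 4197171) .nil))),
   .two (nat_lit 1178599432) (nat_lit 21777874959) (.two (nat_lit 11479810052) (nat_lit 21811429487) (.two (nat_lit 34603009) (nat_lit 13224642012) .nil)),
   .two (nat_lit 4194312) (nat_lit 721420303) (.two (nat_lit 171966469) (nat_lit 166211879037) (.two (nat_lit 605028353) (nat_lit 272631012) (.one (nat_lit 16780084) .nil))),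
   .two (nat_lit 742391816) (nat_lit 1276117017) (.two (nat_lit 1344274437) (nat_lit 184416206965) (.two (nat_lit 605028353) (nat_lit 104857957) (.two (nat_lit 1048576) (nat_lit 20711474414) (.one (nat_lit 1051445) .nil)))),
   .two (nat_lit 276824072) (nat_lit 156365750287) (.two (nat_lit 8388612) (nat_lit 13187940419) (.two (nat_lit 8388609) (nat_lit 168822004) (.one (nat_lit 8391478) .nil))),
   .two (nat_lit 272629768) (nat_lit 10336862223) (.two (nat_lit 272629765) (nat_lit 10336862316) (.two (nat_lit 4194305) (nat_lit 10336862399) (.two (nat_lit 16777216) (nat_lit 46474986749) (.one (nat_lit 2100023) .nil)))),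
   .two (nat_lit 11492392968) (nat_lit 4605345807) (.two (nat_lit 8388612) (nat_lit 11492393025) (.two (nat_lit 50331649) (nat_lit 156372041919) (.two (nat_lit 4194304) (nat_lit 11618224329) .nil))),
   .two (nat_lit 41943048) (nat_lit 3527409679) (.two (nat_lit 11479810052) (nat_lit 11618222198) (.two (nat_lit 37748737) (nat_lit 28086108745) (.two (nat_lit 1048576) (nat_lit 3527410915) (.one (nat_lit 1051449) .nil)))),
   .two (nat_lit 10007609356) (nat_lit 4601151503) (.two (nat_lit 159224168453) (nat_lit 4634706033) (.two (nat_lit 612368385) (nat_lit 13224641353) (.one (nat_lit 13224642012) .nil))),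
   .two (nat_lit 11476664328) (nat_lit 184423546905) (.two (nat_lit 2097157) (nat_lit 8388852) (.two (nat_lit 16777217) (nat_lit 156567077221) (.two (nat_lit 16777216) (nat_lit 2098991) (.one (nat_lit 2100026) .nil)))),
   .two (nat_lit 739246088) (nat_lit 10338959375) (.two (nat_lit 184549380) (nat_lit 1343225965) (.two (nat_lit 16777217) (nat_lit 608174675) (.two (nat_lit 16777216) (nat_lit 157038937337) (.one (nat_lit 1051451) .nil)))),
   .two (nat_lit 11543773192) (nat_lit 1178599439) (.two (nat_lit 739246085) (nat_lit 13224640579) (.two (nat_lit 37748737) (nat_lit 185020186981) (.two (nat_lit 4194304) (nat_lit 1049865) (.one (nat_lit 1947207854) .nil)))),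
   .two (nat_lit 9768534024) (nat_lit 18933088271) (.two (nat_lit 2889875460) (nat_lit 1753219429) (.two (nat_lit 4194304) (nat_lit 28093449424) (.one (nat_lit 1384123137) .nil))),
   .two (nat_lit 10370416648) (nat_lit 185020186648) (.two (nat_lit 21777874949) (nat_lit 3558867053) (.two (nat_lit 605028353) (nat_lit 47582281919) (.two (nat_lit 1048576) (nat_lit 2098442) (.one (nat_lit 2100028) .nil)))),
   .two (nat_lit 754974728) (nat_lit 243269699) (.two (nat_lit 16777217) (nat_lit 10343153855) (.two (nat_lit 16777216) (nat_lit 28093449458) (.one (nat_lit 20711475997) .nil))),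
   .two (nat_lit 203423752) (nat_lit 1178599439) (.two (nat_lit 2887778308) (nat_lit 46510637414) (.two (nat_lit 2097152) (nat_lit 9869198601) (.one (nat_lit 1346373815) .nil))),
   .two (nat_lit 639631368) (nat_lit 47555018767) (.two (nat_lit 166130089989) (nat_lit 3028287554) (.two (nat_lit 2097153) (nat_lit 343933119) (.two (nat_lit 2097152) (nat_lit 8389899) (.one (nat_lit 8391486) .nil)))),
   .two (nat_lit 169869320) (nat_lit 4605345807) (.two (nat_lit 169869316) (nat_lit 166129041765) (.two (nat_lit 16777216) (nat_lit 2416968935) (.one (nat_lit 8391487) .nil))),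
   .two (nat_lit 16777224) (nat_lit 606076943) (.two (nat_lit 11479810053) (nat_lit 46407876721) (.two (nat_lit 2097153) (nat_lit 71304453) (.one (nat_lit 2099408) .nil))),
   .two (nat_lit 4194312) (nat_lit 721420303) (.two (nat_lit 171966469) (nat_lit 687865975) (.two (nat_lit 34603009) (nat_lit 28101837395) (.two (nat_lit 1048576) (nat_lit 1379927286) (.one (nat_lit 16780096) .nil)))),
   .two (nat_lit 2954887176) (nat_lit 156372041743) (.two (nat_lit 169869316) (nat_lit 4605345856) (.two (nat_lit 8388609) (nat_lit 158144135529) (.two (nat_lit 8388608) (nat_lit 13222544649) (.one (nat_lit 18926799046) .nil)))),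
   .two (nat_lit 620757000) (nat_lit 34603048) (.two (nat_lit 171966469) (nat_lit 21208498300) (.two (nat_lit 34603009) (nat_lit 339738985) (.two (nat_lit 1048576) (nat_lit 4196146) (.one (nat_lit 4197186) .nil)))),
   .two (nat_lit 612368392) (nat_lit 13191086095) (.two (nat_lit 176160772) (nat_lit 13224640623) (.two (nat_lit 8388609) (nat_lit 4634707420) .nil)),
   .two (nat_lit 754974733) (nat_lit 156372041752) (.two (nat_lit 50331653) (nat_lit 18933088368) (.two (nat_lit 8388609) (nat_lit 1191182910) (.two (nat_lit 8388608) (nat_lit 16779059) (.one (nat_lit 16780100) .nil)))),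
   .two (nat_lit 9934209032) (nat_lit 3527409679) (.two (nat_lit 169869316) (nat_lit 46510637169) (.two (nat_lit 2097153) (nat_lit 4634706111) (.two (nat_lit 2097152) (nat_lit 4195596) (.one (nat_lit 4197189) .nil)))),
   .two (nat_lit 639631368) (nat_lit 13191086095) (.two (nat_lit 4194308) (nat_lit 158144135404) (.two (nat_lit 4194305) (nat_lit 20738737360) (.one (nat_lit 69208243) .nil))),
   .two (nat_lit 9934209032) (nat_lit 156367847439) (.two (nat_lit 169869316) (nat_lit 843055343) (.two (nat_lit 2097153) (nat_lit 843056340) (.one (nat_lit 1749027008) .nil))),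
   .two (nat_lit 9934209032) (nat_lit 46510637080) (.two (nat_lit 169869316) (nat_lit 46510637166) (.two (nat_lit 2097153) (nat_lit 4195576) (.one (nat_lit 4197155) .nil))),
   .two (nat_lit 1343225864) (nat_lit 183949590552) (.two (nat_lit 9866051589) (nat_lit 13224640624) (.two (nat_lit 34603009) (nat_lit 272631017) (.one (nat_lit 4197190) .nil))),
   .two (nat_lit 8388616) (nat_lit 156365750287) (.two (nat_lit 16777220) (nat_lit 41943231) (.two (nat_lit 16777216) (nat_lit 4599055178) (.one (nat_lit 8391495) .nil))),
   .two (nat_lit 809500680) (nat_lit 10336862223) (.two (nat_lit 11479810053) (nat_lit 165526110275) (.two (nat_lit 2097153) (nat_lit 12150899289) (.two (nat_lit 4194304) (nat_lit 21208499442) (.one (nat_lit 10001320124) .nil)))),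
   .two (nat_lit 8388616) (nat_lit 1916796943) (.two (nat_lit 8388612) (nat_lit 19130220655) (.two (nat_lit 37748737) (nat_lit 10007610843) .nil)),
   .two (nat_lit 9934209032) (nat_lit 46510637080) (.two (nat_lit 169869316) (nat_lit 19130220659) (.two (nat_lit 2097153) (nat_lit 13224642012) .nil)),
   .two (nat_lit 184549384) (nat_lit 606076943) (.two (nat_lit 218103813) (nat_lit 3021996145) (.two (nat_lit 2097153) (nat_lit 721421558) (.one (nat_lit 16780105) .nil))),
   .two (nat_lit 612368392) (nat_lit 13191086095) (.two (nat_lit 3464495109) (nat_lit 4634705985) (.two (nat_lit 8388609) (nat_lit 13224640703) (.two (nat_lit 8388608) (nat_lit 10372515038) (.one (nat_lit 209717432) .nil)))),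
   .two (nat_lit 612368392) (nat_lit 3525312527) (.two (nat_lit 176160772) (nat_lit 20738736250) (.two (nat_lit 2097153) (nat_lit 21785216221) (.one (nat_lit 69208237) .nil))),
   .two (nat_lit 9934209032) (nat_lit 3527409679) (.two (nat_lit 169869316) (nat_lit 46510637169) (.two (nat_lit 2097153) (nat_lit 156569175516) .nil)),
   .two (nat_lit 620757000) (nat_lit 2889875471) (.two (nat_lit 184549381) (nat_lit 306184306) (.two (nat_lit 16777217) (nat_lit 28693234025) (.two (nat_lit 16777216) (nat_lit 4196149) (.one (nat_lit 4197194) .nil)))),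
   .two (nat_lit 2889875464) (nat_lit 1745879055) (.two (nat_lit 2889875460) (nat_lit 12047089730) (.two (nat_lit 9768534017) (nat_lit 19093521633) (.one (nat_lit 158176643900) .nil))),
   .two (nat_lit 184549384) (nat_lit 20638072847) (.two (nat_lit 184549380) (nat_lit 9967763523) (.two (nat_lit 16777217) (nat_lit 156969730408) (.two (nat_lit 16777216) (nat_lit 184987682057) (.one (nat_lit 169871560) .nil)))),
   .two (nat_lit 21811429389) (nat_lit 10336862223) (.two (nat_lit 638582789) (nat_lit 2988441667) (.two (nat_lit 8388609) (nat_lit 3457156354) (.one (nat_lit 2100043) .nil))),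
   .two (nat_lit 2889875464) (nat_lit 10343153679) (.two (nat_lit 272629765) (nat_lit 47555018819) (.two (nat_lit 4194305) (nat_lit 47555018943) (.two (nat_lit 4194304) (nat_lit 8389901) (.one (nat_lit 1312819373) .nil)))),
   .two (nat_lit 8388616) (nat_lit 183845781519) (.two (nat_lit 34603013) (nat_lit 19033751671) (.two (nat_lit 2097153) (nat_lit 9772728929) (.two (nat_lit 1048576) (nat_lit 3565159242) (.one (nat_lit 1051469) .nil)))),
   .two (nat_lit 218103816) (nat_lit 46978301967) (.two (nat_lit 34603013) (nat_lit 285212863) (.two (nat_lit 2097152) (nat_lit 11559504073) .nil)),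
   .two (nat_lit 10007609356) (nat_lit 13224640538) (.two (nat_lit 21785214981) (nat_lit 10909384821) (.two (nat_lit 606076929) (nat_lit 641728874) (.two (nat_lit 2097152) (nat_lit 4030727423) (.one (nat_lit 4197198) .nil)))),
   .two (nat_lit 739246088) (nat_lit 156367847439) (.two (nat_lit 11476664324) (nat_lit 306184259) (.two (nat_lit 156367847425) (nat_lit 159250383207) (.two (nat_lit 4194304) (nat_lit 68158696) (.one (nat_lit 1051471) .nil)))),
   .two (nat_lit 176160776) (nat_lit 19530776591) (.two (nat_lit 176160772) (nat_lit 156533522499) (.two (nat_lit 156365750273) (nat_lit 159224169693) (.one (nat_lit 8391505) .nil))),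
   .two (nat_lit 2889875464) (nat_lit 158144135234) (.two (nat_lit 4194305) (nat_lit 158144135525) (.two (nat_lit 2097152) (nat_lit 742393070) (.one (nat_lit 843057340) .nil))),
   .two (nat_lit 68157448) (nat_lit 8388623) (.two (nat_lit 8388612) (nat_lit 873463926) (.two (nat_lit 4194305) (nat_lit 101712229) (.two (nat_lit 1048576) (nat_lit 10544481526) (.one (nat_lit 4196562) .nil)))),
   .two (nat_lit 705691656) (nat_lit 1916796943) (.two (nat_lit 34603013) (nat_lit 159253528693) (.two (nat_lit 34603009) (nat_lit 19530777828) (.one (nat_lit 1379928838) .nil))),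
   .two (nat_lit 620757000) (nat_lit 606076943) (.two (nat_lit 4194308) (nat_lit 21208498300) (.two (nat_lit 16777217) (nat_lit 4599054929) (.two (nat_lit 16777216) (nat_lit 9934210305) (.one (nat_lit 251660481) .nil)))),
   .two (nat_lit 9781116936) (nat_lit 184986632207) (.two (nat_lit 705691652) (nat_lit 9806282863) (.two (nat_lit 8388609) (nat_lit 68158025) (.two (nat_lit 8388608) (nat_lit 16778478) (.one (nat_lit 16780116) .nil)))),
   .two (nat_lit 16777224) (nat_lit 1913651215) (.two (nat_lit 184549381) (nat_lit 12617515075) (.two (nat_lit 34603009) (nat_lit 1929380446) (.two (nat_lit 8388608) (nat_lit 12163482442) (.one (nat_lit 16780117) .nil)))),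
   .two (nat_lit 272629768) (nat_lit 1913651215) (.two (nat_lit 4194308) (nat_lit 1947205743) (.two (nat_lit 37748737) (nat_lit 34604285) (.one (nat_lit 1051478) .nil))),
   .two (nat_lit 75497480) (nat_lit 19599982616) (.two (nat_lit 612368389) (nat_lit 12117344371) (.two (nat_lit 41943041) (nat_lit 28693234905) (.one (nat_lit 809502928) .nil))),
   .two (nat_lit 9934209032) (nat_lit 156367847439) (.two (nat_lit 1277165573) (nat_lit 306184259) (.two (nat_lit 2097153) (nat_lit 37750054) (.one (nat_lit 13224642748) .nil))),
   .two (nat_lit 8388616) (nat_lit 28693233730) (.two (nat_lit 8388609) (nat_lit 1950352622) (.one (nat_lit 159224170684) .nil)),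
   .two (nat_lit 156372041736) (nat_lit 1916796943) (.two (nat_lit 11479810052) (nat_lit 156372041839) (.two (nat_lit 37748737) (nat_lit 28093449032) (.one (nat_lit 1753221335) .nil))),
   .two (nat_lit 2961178632) (nat_lit 1277165583) (.two (nat_lit 3531603973) (nat_lit 1277165679) (.two (nat_lit 606076929) (nat_lit 310379138) (.two (nat_lit 1048576) (nat_lit 1780482889) (.one (nat_lit 2100167) .nil)))),
   .two (nat_lit 276824072) (nat_lit 2889875471) (.two (nat_lit 272629765) (nat_lit 184423547007) (.two (nat_lit 4194305) (nat_lit 11584668290) (.two (nat_lit 1048576) (nat_lit 10338961610) .nil))),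
   .two (nat_lit 117440520) (nat_lit 10939793423) (.two (nat_lit 174752530437) (nat_lit 1191182447) (.two (nat_lit 9765388289) (nat_lit 654312264) (.one (nat_lit 159266113710) .nil))),
   .two (nat_lit 16777224) (nat_lit 10504634392) (.two (nat_lit 184549381) (nat_lit 847249522) (.two (nat_lit 2097153) (nat_lit 3573547679) (.two (nat_lit 8388608) (nat_lit 1191183606) (.one (nat_lit 46407878867) .nil)))),
   .two (nat_lit 9781116936) (nat_lit 2923429954) (.two (nat_lit 4194305) (nat_lit 9948889279) (.two (nat_lit 4194304) (nat_lit 855639322) (.one (nat_lit 4197321) .nil))),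
   .two (nat_lit 156465365005) (nat_lit 28093448207) (.two (nat_lit 1779433477) (nat_lit 165532401775) (.two (nat_lit 34603009) (nat_lit 10343155163) .nil)),
   .two (nat_lit 705691656) (nat_lit 1916796943) (.two (nat_lit 2097157) (nat_lit 19130220658) (.two (nat_lit 2097153) (nat_lit 156367848709) (.one (nat_lit 169872275) .nil))),
   .two (nat_lit 184549384) (nat_lit 159217877007) (.two (nat_lit 169869316) (nat_lit 184549441) (.two (nat_lit 2097153) (nat_lit 2936013164) (.two (nat_lit 2097152) (nat_lit 16779190) (.one (nat_lit 3036679075) .nil)))),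
   .two (nat_lit 276824072) (nat_lit 11479810063) (.two (nat_lit 809500677) (nat_lit 158176641156) (.two (nat_lit 34603009) (nat_lit 13191087404) (.one (nat_lit 174759873445) .nil))),
   .two (nat_lit 9881780232) (nat_lit 28758245391) (.two (nat_lit 713031685) (nat_lit 21827158083) (.two (nat_lit 2097153) (nat_lit 184431936755) (.one (nat_lit 9873394442) .nil))),
   .two (nat_lit 639631368) (nat_lit 47555018767) (.two (nat_lit 3464495109) (nat_lit 46407876736) (.two (nat_lit 2097153) (nat_lit 746587358) (.one (nat_lit 69208240) .nil)))]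

theorem k2 : chkL tab c2 (nat_lit 2600) = true := by decide +kernel

theorem l2 : c2.length = 1300 := by decide +kernel

end K2

end Pool.Agent.Work.MP_bf01b2_co.MR
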