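import Pool.Agent.Work.MP_bf01b2_co.MR.K2T

/-!
# Two roots in `Q_5`: certificates of the entries 3900 to 5199
-/

set_option autoImplicit false
set_option maxRecDepth 100000

namespace Pool.Agent.Work.MP_bf01b2_co.MR

namespace K2

open JT

/-- certificates of the entries 3900 to 5199 -/
def c3 : List Rc :=
  [.two (nat_lit 10385096712) (nat_lit 11007950872) (.two (nat_lit 46407876612) (nat_lit 1291845745) (.two (nat_lit 2097153) (nat_lit 117441753) (.one (nat_lit 352324398) .nil))),
   .two (nat_lit 713031688) (nat_lit 159217877007) (.two (nat_lit 41943045) (nat_lit 165526110449) (.two (nat_lit 41943041) (nat_lit 304087399) (.two (nat_lit 8388608) (nat_lit 1914701104) (.one (nat_lit 203426564) .nil)))),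
   .two (nat_lit 9899606029) (nat_lit 46414168079) (.two (nat_lit 46414168068) (nat_lit 158646403188) (.two (nat_lit 156372041729) (nat_lit 2349860056) (.one (nat_lit 1051594) .nil))),
   .two (nat_lit 16777224) (nat_lit 28790751272) (.two (nat_lit 16777220) (nat_lit 20704133354) (.two (nat_lit 50331649) (nat_lit 9899606374) (.two (nat_lit 16777216) (nat_lit 1050551) (.one (nat_lit 184986635136) .nil)))),
   .two (nat_lit 272629768) (nat_lit 12114198543) (.two (nat_lit 2889875461) (nat_lit 9933160698) (.two (nat_lit 4194305) (nat_lit 705692910) (.one (nat_lit 1782581421) .nil))),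
   .two (nat_lit 218103816) (nat_lit 19532873752) (.two (nat_lit 157038936069) (nat_lit 9781117039) (.two (nat_lit 9768534017) (nat_lit 9948889279) (.two (nat_lit 4194304) (nat_lit 21223179530) (.one (nat_lit 16780235) .nil)))),
   .two (nat_lit 1343225864) (nat_lit 1916796943) (.two (nat_lit 705691652) (nat_lit 19130220655) (.two (nat_lit 34603009) (nat_lit 156569175515) .nil)),
   .two (nat_lit 174686470157) (nat_lit 184549400) (.two (nat_lit 19530776581) (nat_lit 83886195) (.two (nat_lit 2097153) (nat_lit 50332889) (.one (nat_lit 158192371920) .nil))),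
   .two (nat_lit 83886088) (nat_lit 843055128) (.two (nat_lit 721420292) (nat_lit 843055214) (.two (nat_lit 50331649) (nat_lit 843055295) (.two (nat_lit 16777216) (nat_lit 4195637) (.one (nat_lit 16780237) .nil)))),
   .two (nat_lit 4194312) (nat_lit 9766436879) (.two (nat_lit 4194308) (nat_lit 11476664386) (.two (nat_lit 4194305) (nat_lit 11476664677) (.two (nat_lit 8388608) (nat_lit 4634707176) (.one (nat_lit 4634708736) .nil)))),
   .two (nat_lit 705691656) (nat_lit 612368399) (.two (nat_lit 34603013) (nat_lit 184423547008) (.two (nat_lit 2097153) (nat_lit 10369369386) (.one (nat_lit 159250385104) .nil))),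
   .two (nat_lit 10343153676) (nat_lit 16777231) (.two (nat_lit 156372041733) (nat_lit 620757101) (.two (nat_lit 41943041) (nat_lit 2969568468) (.one (nat_lit 46489668351) .nil))),
   .two (nat_lit 101711880) (nat_lit 184993972239) (.two (nat_lit 11476664324) (nat_lit 11618222193) (.two (nat_lit 34603009) (nat_lit 75498729) (.one (nat_lit 8391633) .nil))),
   .two (nat_lit 37748744) (nat_lit 184549391) (.two (nat_lit 16777221) (nat_lit 205521019) (.two (nat_lit 606076929) (nat_lit 2332033665) (.two (nat_lit 2097152) (nat_lit 10519316682) .nil))),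
   .two (nat_lit 1191182344) (nat_lit 1745879055) (.two (nat_lit 11492392964) (nat_lit 2316304496) (.two (nat_lit 34603009) (nat_lit 620758236) (.one (nat_lit 318770061) .nil))),
   .two (nat_lit 3458203656) (nat_lit 28690087960) (.two (nat_lit 638582789) (nat_lit 11578376309) (.two (nat_lit 8388609) (nat_lit 807404161) (.two (nat_lit 8388608) (nat_lit 4632610033) (.one (nat_lit 2100178) .nil)))),
   .two (nat_lit 218103816) (nat_lit 157036838927) (.two (nat_lit 3458203653) (nat_lit 2902458477) (.two (nat_lit 2097153) (nat_lit 285212863) (.two (nat_lit 2097152) (nat_lit 4647290153) (.one (nat_lit 13203671975) .nil)))),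
   .two (nat_lit 1212153869) (nat_lit 158144135192) (.two (nat_lit 1277165572) (nat_lit 1212153970) (.two (nat_lit 9766436865) (nat_lit 19599983433) (.one (nat_lit 4197331) .nil))),
   .two (nat_lit 721420296) (nat_lit 156372041743) (.two (nat_lit 46414168068) (nat_lit 50331760) (.two (nat_lit 8388609) (nat_lit 285213912) (.one (nat_lit 10016000193) .nil))),
   .two (nat_lit 8388616) (nat_lit 184416206871) (.two (nat_lit 176160773) (nat_lit 158143086711) (.two (nat_lit 8388609) (nat_lit 12047090277) (.two (nat_lit 16777216) (nat_lit 9772729651) (.one (nat_lit 10544483278) .nil)))),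
   .two (nat_lit 754974728) (nat_lit 1178599439) (.two (nat_lit 11559501829) (nat_lit 21210595458) (.two (nat_lit 50331649) (nat_lit 1916797285) (.two (nat_lit 16777216) (nat_lit 742393064) (.one (nat_lit 4197333) .nil)))),
   .two (nat_lit 612368392) (nat_lit 101711915) (.two (nat_lit 176160772) (nat_lit 9966715013) (.two (nat_lit 16777217) (nat_lit 101712712) (.one (nat_lit 10000271558) .nil))),
   .two (nat_lit 9967763468) (nat_lit 12114198543) (.two (nat_lit 11543773189) (nat_lit 807403773) (.two (nat_lit 9765388289) (nat_lit 158144135529) (.two (nat_lit 1048576) (nat_lit 10336864118) (.one (nat_lit 3458206467) .nil)))),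
   .two (nat_lit 12117344264) (nat_lit 19530776591) (.two (nat_lit 11479810052) (nat_lit 46978302193) (.two (nat_lit 37748737) (nat_lit 46978302557) (.two (nat_lit 4194304) (nat_lit 3558868193) (.one (nat_lit 1780484994) .nil)))),
   .two (nat_lit 809500680) (nat_lit 11476664345) (.two (nat_lit 10503585797) (nat_lit 9902751861) (.two (nat_lit 8388609) (nat_lit 19096666697) (.two (nat_lit 8388608) (nat_lit 157038937337) (.one (nat_lit 4197334) .nil)))),
   .two (nat_lit 272629768) (nat_lit 10336862223) (.two (nat_lit 2889875461) (nat_lit 2988441667) (.two (nat_lit 4194305) (nat_lit 2988441791) (.two (nat_lit 8388608) (nat_lit 165528209581) .nil))),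
   .two (nat_lit 620757000) (nat_lit 183912890415) (.two (nat_lit 184549380) (nat_lit 28690088054) (.two (nat_lit 34603009) (nat_lit 620757183) (.two (nat_lit 16777216) (nat_lit 1947207545) (.one (nat_lit 21223181163) .nil)))),
   .two (nat_lit 176160776) (nat_lit 606076943) (.two (nat_lit 8388613) (nat_lit 10437525621) (.two (nat_lit 8388609) (nat_lit 203425073) (.one (nat_lit 4197338) .nil))),
   .two (nat_lit 2961178632) (nat_lit 639631375) (.two (nat_lit 34603013) (nat_lit 8388672) (.two (nat_lit 2097153) (nat_lit 8388799) (.two (nat_lit 1048576) (nat_lit 4599055178) (.one (nat_lit 1051612) .nil)))),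
   .two (nat_lit 41943048) (nat_lit 117440527) (.two (nat_lit 8388612) (nat_lit 12163481709) (.two (nat_lit 8388609) (nat_lit 21208499446) (.one (nat_lit 2100189) .nil))),
   .two (nat_lit 11492392968) (nat_lit 166132187162) (.two (nat_lit 50331653) (nat_lit 3531604085) (.two (nat_lit 612368385) (nat_lit 166245433988) (.two (nat_lit 4194304) (nat_lit 19545457913) (.one (nat_lit 41946024) .nil)))),
   .two (nat_lit 2889875464) (nat_lit 1745879055) (.two (nat_lit 2889875460) (nat_lit 174685421928) (.two (nat_lit 4194304) (nat_lit 1209009402) (.one (nat_lit 1051614) .nil))),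
   .two (nat_lit 9948889096) (nat_lit 19530776591) (.two (nat_lit 166130089988) (nat_lit 16777331) (.two (nat_lit 9766436865) (nat_lit 721421529) (.one (nat_lit 46523222224) .nil))),
   .two (nat_lit 169869320) (nat_lit 10506731535) (.two (nat_lit 4194308) (nat_lit 10000269445) (.two (nat_lit 2097153) (nat_lit 202376438) (.one (nat_lit 19026414536) .nil))),
   .two (nat_lit 2887778312) (nat_lit 9781116943) (.two (nat_lit 270532613) (nat_lit 174701150340) (.two (nat_lit 2097153) (nat_lit 156581758250) (.one (nat_lit 1051616) .nil))),
   .two (nat_lit 2889875464) (nat_lit 3524263982) (.two (nat_lit 272629765) (nat_lit 19596836982) (.two (nat_lit 9768534017) (nat_lit 10000269676) (.two (nat_lit 4194304) (nat_lit 1050569) (.one (nat_lit 4197346) .nil)))),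
   .two (nat_lit 184986632200) (nat_lit 239075377) (.two (nat_lit 705691652) (nat_lit 19029557369) (.two (nat_lit 34603009) (nat_lit 28693234025) (.two (nat_lit 4194304) (nat_lit 705692904) (.one (nat_lit 2953841623) .nil)))),
   .two (nat_lit 11543773192) (nat_lit 18928893967) (.two (nat_lit 13191086085) (nat_lit 9798942854) (.two (nat_lit 37748737) (nat_lit 166196150633) (.two (nat_lit 4194304) (nat_lit 336594185) (.one (nat_lit 18925751083) .nil)))),
   .two (nat_lit 10370416648) (nat_lit 10343153688) (.two (nat_lit 46414168068) (nat_lit 166230753391) (.two (nat_lit 606076929) (nat_lit 1417675996) (.one (nat_lit 8391651) .nil))),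
   .two (nat_lit 19604176904) (nat_lit 28691136556) (.two (nat_lit 1191182341) (nat_lit 169869435) (.two (nat_lit 2097153) (nat_lit 780141215) (.two (nat_lit 16777216) (nat_lit 236980015) (.one (nat_lit 236981050) .nil)))),
   .two (nat_lit 4194312) (nat_lit 721420303) (.two (nat_lit 50331653) (nat_lit 672137346) (.two (nat_lit 50331649) (nat_lit 166196151545) (.one (nat_lit 605031241) .nil))),
   .two (nat_lit 1276117000) (nat_lit 20738736193) (.two (nat_lit 9765388289) (nat_lit 1914700136) (.two (nat_lit 1048576) (nat_lit 807404802) (.one (nat_lit 4197351) .nil))),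
   .two (nat_lit 272629768) (nat_lit 1745879055) (.two (nat_lit 809500677) (nat_lit 11476664448) (.two (nat_lit 34603009) (nat_lit 185023332711) (.two (nat_lit 4194304) (nat_lit 4631561468) (.one (nat_lit 183912892617) .nil)))),
   .two (nat_lit 4194312) (nat_lit 20644364303) (.two (nat_lit 171966469) (nat_lit 276824324) (.two (nat_lit 34603009) (nat_lit 37316723936) (.one (nat_lit 46510639934) .nil))),
   .two (nat_lit 9768534024) (nat_lit 243269656) (.two (nat_lit 713031685) (nat_lit 171966775) (.two (nat_lit 4194305) (nat_lit 2927624814) (.two (nat_lit 1048576) (nat_lit 12117345529) (.one (nat_lit 4197353) .nil)))),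
   .two (nat_lit 16777224) (nat_lit 9934209039) (.two (nat_lit 184549381) (nat_lit 2988441666) (.two (nat_lit 16777217) (nat_lit 9967763647) (.two (nat_lit 16777216) (nat_lit 156533523681) (.one (nat_lit 10538191702) .nil)))),
   .two (nat_lit 4194312) (nat_lit 156365750287) (.two (nat_lit 4194308) (nat_lit 11511267686) (.two (nat_lit 4194304) (nat_lit 1310721255) (.one (nat_lit 4613737379) .nil))),
   .two (nat_lit 183853121544) (nat_lit 19596836879) (.two (nat_lit 13195280389) (nat_lit 2987393141) (.two (nat_lit 41943041) (nat_lit 303039753) (.one (nat_lit 156566031157) .nil))),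
   .two (nat_lit 9768534024) (nat_lit 11577327656) (.two (nat_lit 2889875460) (nat_lit 1745879161) (.two (nat_lit 34603009) (nat_lit 156971827561) (.two (nat_lit 4194304) (nat_lit 11610883304) (.one (nat_lit 10909387712) .nil)))),
   .two (nat_lit 176160776) (nat_lit 809500687) (.two (nat_lit 4194308) (nat_lit 343932995) (.two (nat_lit 4194305) (nat_lit 28093448553) (.two (nat_lit 4194304) (nat_lit 645924105) (.one (nat_lit 4197357) .nil)))),
   .two (nat_lit 1947205644) (nat_lit 75497498) (.two (nat_lit 1913651205) (nat_lit 10544480386) (.two (nat_lit 9765388289) (nat_lit 184423547240) (.two (nat_lit 1048576) (nat_lit 8389944) (.one (nat_lit 8391662) .nil)))),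
   .two (nat_lit 37313576972) (nat_lit 9768534031) (.two (nat_lit 28086108165) (nat_lit 21814575235) (.two (nat_lit 34603009) (nat_lit 205522152) (.one (nat_lit 174755679033) .nil))),
   .two (nat_lit 2902458376) (nat_lit 174753579023) (.two (nat_lit 285212677) (nat_lit 19094569094) (.two (nat_lit 2097153) (nat_lit 822083775) (.two (nat_lit 2097152) (nat_lit 156581758264) (.one (nat_lit 2969569481) .nil)))),
   .two (nat_lit 606076936) (nat_lit 10369368090) (.two (nat_lit 806354949) (nat_lit 183949590595) (.two (nat_lit 2097153) (nat_lit 2316305067) (.two (nat_lit 2097152) (nat_lit 1049913) (.one (nat_lit 2100207) .nil)))),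
   .two (nat_lit 272629768) (nat_lit 1745879055) (.two (nat_lit 809500677) (nat_lit 166229704829) (.two (nat_lit 34603009) (nat_lit 46477083226) (.two (nat_lit 4194304) (nat_lit 1049914) (.one (nat_lit 183912892617) .nil)))),
   .two (nat_lit 10370416648) (nat_lit 159224168463) (.two (nat_lit 639631365) (nat_lit 10007609455) (.two (nat_lit 606076929) (nat_lit 2894071037) (.one (nat_lit 8391666) .nil))),
   .two (nat_lit 183848927240) (nat_lit 2316304408) (.two (nat_lit 705691652) (nat_lit 608174209) (.two (nat_lit 34603009) (nat_lit 843055295) (.two (nat_lit 1048576) (nat_lit 4195643) (.one (nat_lit 156364703920) .nil)))),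
   .two (nat_lit 9768534024) (nat_lit 10343153679) (.two (nat_lit 1178599429) (nat_lit 10913579075) (.two (nat_lit 4194305) (nat_lit 159224168639) (.two (nat_lit 4194304) (nat_lit 8389948) (.one (nat_lit 159257725116) .nil)))),
   .two (nat_lit 1929379848) (nat_lit 3558866969) (.two (nat_lit 2097157) (nat_lit 4034920585) (.two (nat_lit 34603009) (nat_lit 19100860774) (.two (nat_lit 1048576) (nat_lit 8390609) (.one (nat_lit 8391669) .nil)))),
   .two (nat_lit 101711880) (nat_lit 183949590551) (.two (nat_lit 183848927237) (nat_lit 4027580547) (.two (nat_lit 34603009) (nat_lit 1346372274) (.two (nat_lit 1048576) (nat_lit 4196306) (.one (nat_lit 1051639) .nil)))),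
   .two (nat_lit 1376780301) (nat_lit 19130220568) (.two (nat_lit 21777874949) (nat_lit 156569174128) (.two (nat_lit 605028353) (nat_lit 46510637414) (.two (nat_lit 1048576) (nat_lit 46510638556) .nil))),
   .two (nat_lit 2954887176) (nat_lit 11618222104) (.two (nat_lit 169869316) (nat_lit 880803952) (.two (nat_lit 612368385) (nat_lit 3558868444) .nil)),
   .two (nat_lit 9934209032) (nat_lit 156971827215) (.two (nat_lit 169869316) (nat_lit 12117344614) (.two (nat_lit 2097152) (nat_lit 12117345488) (.one (nat_lit 11580475571) .nil))),
   .two (nat_lit 169869320) (nat_lit 9768534031) (.two (nat_lit 2097157) (nat_lit 19130220611) (.two (nat_lit 2097153) (nat_lit 272629951) (.two (nat_lit 1048576) (nat_lit 304087882) (.one (nat_lit 2100218) .nil)))),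
   .two (nat_lit 169869320) (nat_lit 11022631029) (.two (nat_lit 34603009) (nat_lit 166211880224) (.one (nat_lit 46489667786) .nil)),
   .two (nat_lit 2887778312) (nat_lit 9768534031) (.two (nat_lit 2097157) (nat_lit 37748872) (.two (nat_lit 4194305) (nat_lit 3525313148) (.two (nat_lit 1048576) (nat_lit 10907288825) (.one (nat_lit 2953841563) .nil)))),
   .two (nat_lit 9934209032) (nat_lit 156367847439) (.two (nat_lit 1277165573) (nat_lit 1212153923) (.two (nat_lit 2097153) (nat_lit 18928895209) (.one (nat_lit 4197372) .nil))),
   .two (nat_lit 41943048) (nat_lit 11543773227) (.two (nat_lit 8388612) (nat_lit 839909509) (.two (nat_lit 16777217) (nat_lit 612369884) .nil)),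
   .two (nat_lit 809500680) (nat_lit 739246123) (.two (nat_lit 4194308) (nat_lit 159216828549) (.two (nat_lit 16777217) (nat_lit 9899607313) (.one (nat_lit 4197373) .nil))),
   .two (nat_lit 9781116936) (nat_lit 157038936079) (.two (nat_lit 46409973764) (nat_lit 9781117039) (.two (nat_lit 4194305) (nat_lit 3573548265) (.one (nat_lit 46523222914) .nil))),
   .two (nat_lit 739246088) (nat_lit 158083317775) (.two (nat_lit 11543773189) (nat_lit 21785215043) (.two (nat_lit 156372041729) (nat_lit 183845781704) (.two (nat_lit 1048576) (nat_lit 8389478) (.one (nat_lit 1051831) .nil)))),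
   .two (nat_lit 101711880) (nat_lit 21785214991) (.two (nat_lit 11476664324) (nat_lit 176160839) (.two (nat_lit 183845781507) (nat_lit 21785215083) (.two (nat_lit 34603009) (nat_lit 184993972431) (.two (nat_lit 4194304) (nat_lit 1745879887) (.one (nat_lit 183946447115) .nil))))),
   .two (nat_lit 9802088460) (nat_lit 822083599) (.two (nat_lit 157038936069) (nat_lit 50331759) (.two (nat_lit 9768534017) (nat_lit 50331839) (.two (nat_lit 4194304) (nat_lit 352322793) (.one (nat_lit 10016001059) .nil)))),
   .two (nat_lit 183949590541) (nat_lit 11610882092) (.two (nat_lit 11479810053) (nat_lit 11610882184) (.two (nat_lit 4194305) (nat_lit 1049767) (.two (nat_lit 1048576) (nat_lit 4195672) (.one (nat_lit 4197424) .nil)))),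
   .two (nat_lit 9900654601) (nat_lit 157038936079) (.two (nat_lit 2097159) (nat_lit 157038936079) (.two (nat_lit 270532613) (nat_lit 46980399217) (.two (nat_lit 2097153) (nat_lit 156971827798) (.two (nat_lit 2097152) (nat_lit 183848928502) (.one (nat_lit 4196655) .nil))))),
   .two (nat_lit 18925748232) (nat_lit 21208498191) (.two (nat_lit 16777220) (nat_lit 1210056837) (.two (nat_lit 16777217) (nat_lit 47548727882) (.two (nat_lit 1048576) (nat_lit 165540791138) (.one (nat_lit 16780353) .nil)))),
   .two (nat_lit 11543773192) (nat_lit 166130089995) (.two (nat_lit 705691652) (nat_lit 184987680851) (.two (nat_lit 705691652) (nat_lit 19027460117) (.two (nat_lit 605028353) (nat_lit 12115247199) (.two (nat_lit 1048576) (nat_lit 13188989411) (.one (nat_lit 2099443) .nil))))),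
   .two (nat_lit 46984593416) (nat_lit 28758245391) (.two (nat_lit 1277165572) (nat_lit 75497591) (.two (nat_lit 606076929) (nat_lit 679477892) (.two (nat_lit 2097152) (nat_lit 8389978) (.one (nat_lit 8391747) .nil)))),
   .two (nat_lit 822083592) (nat_lit 28693233675) (.two (nat_lit 166132187140) (nat_lit 12163481637) (.two (nat_lit 166132187140) (nat_lit 16777235) (.two (nat_lit 9768534017) (nat_lit 19142803553) (.two (nat_lit 4194304) (nat_lit 19142803673) (.one (nat_lit 158158816748) .nil))))),
   .two (nat_lit 4613734409) (nat_lit 159217877007) (.two (nat_lit 2954887175) (nat_lit 19599982618) (.two (nat_lit 654311429) (nat_lit 1377828932) (.two (nat_lit 1358954501) (nat_lit 184417255498) (.two (nat_lit 9781116929) (nat_lit 270533292) (.two (nat_lit 16777216) (nat_lit 10437526368) (.one (nat_lit 2100292) .nil)))))),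
   .two (nat_lit 117440520) (nat_lit 3527409679) (.two (nat_lit 11492392964) (nat_lit 3527409730) (.two (nat_lit 4194305) (nat_lit 174701150691) (.two (nat_lit 4194304) (nat_lit 174701150691) (.one (nat_lit 174688569599) .nil)))),
   .two (nat_lit 16777224) (nat_lit 1413480501) (.two (nat_lit 1350565895) (nat_lit 16777231) (.two (nat_lit 16777220) (nat_lit 2956984393) (.two (nat_lit 1916796933) (nat_lit 184549411) (.two (nat_lit 612368385) (nat_lit 10015998143) (.two (nat_lit 8388608) (nat_lit 10015998427) (.one (nat_lit 16780357) .nil)))))),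
   .two (nat_lit 1954545673) (nat_lit 20638072847) (.two (nat_lit 169869320) (nat_lit 47588573206) (.two (nat_lit 9765388293) (nat_lit 21208498289) (.two (nat_lit 8388609) (nat_lit 874512981) (.two (nat_lit 8388608) (nat_lit 2098523) (.one (nat_lit 2100294) .nil))))),
   .two (nat_lit 41943048) (nat_lit 12047089675) (.two (nat_lit 176160770) (nat_lit 1048722) (.two (nat_lit 41943045) (nat_lit 739246100) (.two (nat_lit 612368385) (nat_lit 1049308) (.two (nat_lit 1048576) (nat_lit 8389484) (.one (nat_lit 11476667400) .nil))))),
   .two (nat_lit 2887778310) (nat_lit 156372041769) (.two (nat_lit 713031688) (nat_lit 2921332755) (.two (nat_lit 1277165573) (nat_lit 183853121601) (.two (nat_lit 606076929) (nat_lit 13228835179) (.two (nat_lit 2097152) (nat_lit 8389980) (.one (nat_lit 8391751) .nil))))),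
   .two (nat_lit 184423546888) (nat_lit 12147752979) (.two (nat_lit 34603013) (nat_lit 156372041764) (.two (nat_lit 34603013) (nat_lit 46414168082) (.two (nat_lit 2097153) (nat_lit 20644364383) (.two (nat_lit 1048576) (nat_lit 1853882853) (.one (nat_lit 8391752) .nil))))),
   .two (nat_lit 169869320) (nat_lit 157038936079) (.two (nat_lit 2097157) (nat_lit 19532873840) (.two (nat_lit 2097153) (nat_lit 19532874308) (.two (nat_lit 1048576) (nat_lit 4634707237) (.one (nat_lit 18925751479) .nil)))),
   .two (nat_lit 183853121544) (nat_lit 184419352591) (.two (nat_lit 13195280389) (nat_lit 46477082753) (.two (nat_lit 37748737) (nat_lit 12155093583) (.two (nat_lit 4194304) (nat_lit 174692762088) (.one (nat_lit 4196660) .nil)))),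
   .two (nat_lit 156465365005) (nat_lit 183949590554) (.two (nat_lit 11479810052) (nat_lit 1276117116) (.two (nat_lit 2097153) (nat_lit 158146232803) (.two (nat_lit 1048576) (nat_lit 158146232803) (.one (nat_lit 4197451) .nil)))),
   .two (nat_lit 4194312) (nat_lit 10504634383) (.two (nat_lit 4194308) (nat_lit 20638072951) (.two (nat_lit 37748737) (nat_lit 20638073488) (.two (nat_lit 4194304) (nat_lit 2098526) (.one (nat_lit 1050934) .nil)))),
   .two (nat_lit 9866051592) (nat_lit 21208498191) (.two (nat_lit 1745879045) (nat_lit 9766437124) (.two (nat_lit 605028353) (nat_lit 2098234) (.two (nat_lit 1048576) (nat_lit 46978302827) (.one (nat_lit 2100301) .nil)))),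
   .two (nat_lit 21777874952) (nat_lit 20705181720) (.two (nat_lit 270532613) (nat_lit 339738763) (.two (nat_lit 2097155) (nat_lit 339739143) (.two (nat_lit 34603009) (nat_lit 4195037) (.two (nat_lit 4194304) (nat_lit 168822084) (.one (nat_lit 4197412) .nil))))),
   .two (nat_lit 612368392) (nat_lit 68157455) (.two (nat_lit 184416206853) (nat_lit 166199296126) (.two (nat_lit 8388609) (nat_lit 19127075498) (.two (nat_lit 8388608) (nat_lit 11577328867) (.one (nat_lit 8391758) .nil)))),
   .two (nat_lit 13228834825) (nat_lit 28757196815) (.two (nat_lit 9866051592) (nat_lit 165532401683) (.two (nat_lit 1343225861) (nat_lit 159224168562) (.two (nat_lit 605028353) (nat_lit 3028287680) (.two (nat_lit 1048576) (nat_lit 19537068504) (.one (nat_lit 2987395928) .nil))))),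
   .two (nat_lit 713031688) (nat_lit 28086108175) (.two (nat_lit 1745879045) (nat_lit 880803907) (.two (nat_lit 605028353) (nat_lit 8388987) (.two (nat_lit 8388608) (nat_lit 1049455) (.one (nat_lit 1050935) .nil)))),
   .two (nat_lit 158150426634) (nat_lit 159217877007) (.two (nat_lit 2954887176) (nat_lit 12054429715) (.two (nat_lit 156372041733) (nat_lit 1377828932) (.two (nat_lit 13195280389) (nat_lit 183947493459) (.two (nat_lit 41943041) (nat_lit 3021996235) (.two (nat_lit 8388608) (nat_lit 2098033) (.one (nat_lit 2100303) .nil)))))),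
   .two (nat_lit 184986632205) (nat_lit 9768534031) (.two (nat_lit 13187940357) (nat_lit 4634705987) (.two (nat_lit 2097153) (nat_lit 809500768) (.two (nat_lit 2097152) (nat_lit 1049458) (.one (nat_lit 1050165) .nil)))),
   .two (nat_lit 183848927240) (nat_lit 101711887) (.two (nat_lit 806354949) (nat_lit 12050235468) (.two (nat_lit 184989777925) (nat_lit 11543773219) (.two (nat_lit 37748737) (nat_lit 1343225952) (.two (nat_lit 4194304) (nat_lit 2098528) (.one (nat_lit 2100304) .nil))))),
   .two (nat_lit 75497480) (nat_lit 9802088474) (.two (nat_lit 713031684) (nat_lit 183916036215) (.two (nat_lit 41943041) (nat_lit 46409974404) (.two (nat_lit 8388608) (nat_lit 158649550733) (.one (nat_lit 8391761) .nil)))),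
   .two (nat_lit 19599982604) (nat_lit 13188988956) (.two (nat_lit 2954887176) (nat_lit 339738646) (.two (nat_lit 203423749) (nat_lit 46409973881) (.two (nat_lit 2097153) (nat_lit 4194505) (.two (nat_lit 2097152) (nat_lit 19096667460) (.one (nat_lit 69209138) .nil))))),
   .two (nat_lit 638582793) (nat_lit 28758245391) (.two (nat_lit 1277165576) (nat_lit 873463830) (.two (nat_lit 156968681477) (nat_lit 12048138359) (.two (nat_lit 34603009) (nat_lit 3021996233) (.two (nat_lit 1048576) (nat_lit 3021996879) (.one (nat_lit 1210059806) .nil))))),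
   .two (nat_lit 9866051592) (nat_lit 21208498191) (.two (nat_lit 1276116996) (nat_lit 37247516928) (.two (nat_lit 605028353) (nat_lit 2098235) (.two (nat_lit 1048576) (nat_lit 46978302827) (.one (nat_lit 2100306) .nil)))),
   .two (nat_lit 156372041735) (nat_lit 4601151503) (.two (nat_lit 156372041731) (nat_lit 11513364547) (.two (nat_lit 156372041729) (nat_lit 13191086118) (.two (nat_lit 8388608) (nat_lit 18928894174) (.one (nat_lit 339739618) .nil)))),
   .two (nat_lit 9781116935) (nat_lit 11543773199) (.two (nat_lit 9781116931) (nat_lit 101711906) (.two (nat_lit 9781116929) (nat_lit 11543773222) (.two (nat_lit 2097152) (nat_lit 28790751454) (.one (nat_lit 202375680) .nil)))),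
   .two (nat_lit 20638072840) (nat_lit 10506731546) (.two (nat_lit 10372513797) (nat_lit 184417255567) (.two (nat_lit 20638072836) (nat_lit 158649548883) (.two (nat_lit 606076929) (nat_lit 184419352952) (.two (nat_lit 8388608) (nat_lit 2099275) (.one (nat_lit 2100307) .nil))))),
   .two (nat_lit 3525312520) (nat_lit 166132187160) (.two (nat_lit 166132187140) (nat_lit 3558867057) (.two (nat_lit 2097153) (nat_lit 1279263203) (.two (nat_lit 2097152) (nat_lit 1279263203) (.one (nat_lit 2099520) .nil)))),
   .two (nat_lit 169869320) (nat_lit 2902458383) (.two (nat_lit 169869316) (nat_lit 20652753027) (.two (nat_lit 606076929) (nat_lit 185020187222) (.two (nat_lit 2097152) (nat_lit 1913652470) (.one (nat_lit 157035791315) .nil)))),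
   .two (nat_lit 285212680) (nat_lit 183848927247) (.two (nat_lit 13191086085) (nat_lit 83886202) (.two (nat_lit 156367847425) (nat_lit 156548202697) (.two (nat_lit 4194304) (nat_lit 16778102) (.one (nat_lit 50334718) .nil)))),
   .two (nat_lit 11551113224) (nat_lit 34603037) (.two (nat_lit 11551113223) (nat_lit 68157484) (.two (nat_lit 746586117) (nat_lit 184986632274) (.two (nat_lit 19596836869) (nat_lit 41943075) (.two (nat_lit 156364701697) (nat_lit 41943231) (.two (nat_lit 2097152) (nat_lit 8389083) (.one (nat_lit 8391765) .nil)))))),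
   .two (nat_lit 2954887175) (nat_lit 158143086616) (.two (nat_lit 4194307) (nat_lit 1048723) (.two (nat_lit 2097153) (nat_lit 9866051622) (.two (nat_lit 2097152) (nat_lit 1050700) (.one (nat_lit 1051734) .nil)))),
   .two (nat_lit 184989777927) (nat_lit 1913651215) (.two (nat_lit 708837379) (nat_lit 159250382979) (.two (nat_lit 37748737) (nat_lit 19127074854) (.two (nat_lit 4194304) (nat_lit 4631561043) (.one (nat_lit 2100311) .nil)))),
   .two (nat_lit 1847590920) (nat_lit 28793896989) (.two (nat_lit 2956984327) (nat_lit 1847590927) (.two (nat_lit 47550824453) (nat_lit 158144135202) (.two (nat_lit 47550824453) (nat_lit 28758245411) (.two (nat_lit 4194305) (nat_lit 158647451744) (.two (nat_lit 1048576) (nat_lit 150996317) (.one (nat_lit 150998089) .nil)))))),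
   .two (nat_lit 11479810056) (nat_lit 46414168079) (.two (nat_lit 11546918917) (nat_lit 156539814028) (.two (nat_lit 809500677) (nat_lit 8388645) (.two (nat_lit 9781116929) (nat_lit 1916797131) (.two (nat_lit 16777216) (nat_lit 4196245) (.one (nat_lit 4197464) .nil))))),
   .two (nat_lit 21818769417) (nat_lit 21208498192) (.two (nat_lit 2961178631) (nat_lit 1277165583) (.two (nat_lit 3531603973) (nat_lit 37247516797) (.two (nat_lit 8388609) (nat_lit 156365750650) (.two (nat_lit 1048576) (nat_lit 874513248) (.one (nat_lit 2099527) .nil))))),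
   .two (nat_lit 9866051592) (nat_lit 19599982607) (.two (nat_lit 1343225861) (nat_lit 11010048068) (.two (nat_lit 605028353) (nat_lit 4194343) (.two (nat_lit 2097152) (nat_lit 1050702) (.one (nat_lit 1343227402) .nil)))),
   .two (nat_lit 21793603591) (nat_lit 612368399) (.two (nat_lit 83886083) (nat_lit 9906946116) (.two (nat_lit 620756993) (nat_lit 9940500518) (.two (nat_lit 16777216) (nat_lit 8390735) (.one (nat_lit 4197465) .nil)))),
   .two (nat_lit 46980399112) (nat_lit 1277165611) (.two (nat_lit 620756997) (nat_lit 158649548931) (.two (nat_lit 156365750273) (nat_lit 174688567882) (.two (nat_lit 2097152) (nat_lit 11010048844) (.one (nat_lit 4197466) .nil)))),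
   .two (nat_lit 12121538567) (nat_lit 28757196815) (.two (nat_lit 68157443) (nat_lit 158183981129) (.two (nat_lit 605028353) (nat_lit 1417675127) (.two (nat_lit 1048576) (nat_lit 8390736) (.one (nat_lit 8391771) .nil)))),
   .two (nat_lit 721420296) (nat_lit 639631375) (.two (nat_lit 50331653) (nat_lit 639631396) (.two (nat_lit 50331653) (nat_lit 203423762) (.two (nat_lit 34603009) (nat_lit 9948889773) (.two (nat_lit 1048576) (nat_lit 19612567331) (.one (nat_lit 1929382118) .nil))))),
   .two (nat_lit 809500680) (nat_lit 28093448207) (.two (nat_lit 4194308) (nat_lit 1753219139) (.two (nat_lit 4194305) (nat_lit 1283457224) (.two (nat_lit 8388608) (nat_lit 708837865) (.one (nat_lit 8391701) .nil)))),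
   .two (nat_lit 10343153671) (nat_lit 47548727311) (.two (nat_lit 156372041731) (nat_lit 236978243) (.two (nat_lit 156372041729) (nat_lit 9967763494) (.two (nat_lit 8388608) (nat_lit 10907287771) (.one (nat_lit 2100317) .nil)))),
   .two (nat_lit 46406828042) (nat_lit 285212687) (.two (nat_lit 285212680) (nat_lit 183912890387) (.two (nat_lit 16777218) (nat_lit 156465365106) (.two (nat_lit 1779433477) (nat_lit 3573547045) (.two (nat_lit 16777217) (nat_lit 174685421765) (.two (nat_lit 16777216) (nat_lit 13187940824) (.one (nat_lit 18925750589) .nil)))))),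
   .two (nat_lit 4194312) (nat_lit 156372041743) (.two (nat_lit 809500677) (nat_lit 4638900480) (.two (nat_lit 37748737) (nat_lit 780141176) (.two (nat_lit 1048576) (nat_lit 75498837) (.one (nat_lit 19596839184) .nil)))),
   .two (nat_lit 159232557065) (nat_lit 2889875471) (.two (nat_lit 272629767) (nat_lit 28093448218) (.two (nat_lit 1795162117) (nat_lit 165528207477) (.two (nat_lit 50331649) (nat_lit 37249614465) (.two (nat_lit 8388608) (nat_lit 4195688) (.one (nat_lit 8391774) .nil))))),
   .two (nat_lit 21818769417) (nat_lit 11559501839) (.two (nat_lit 620756999) (nat_lit 47588573206) (.two (nat_lit 47555018757) (nat_lit 721420401) (.two (nat_lit 8388609) (nat_lit 721420480) (.two (nat_lit 8388608) (nat_lit 16778085) (.one (nat_lit 16780383) .nil))))),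
   .two (nat_lit 1277165576) (nat_lit 11510218771) (.two (nat_lit 156968681477) (nat_lit 159217877029) (.two (nat_lit 9934209029) (nat_lit 11510218771) (.two (nat_lit 34603009) (nat_lit 21812478050) (.two (nat_lit 1048576) (nat_lit 169869541) (.one (nat_lit 1051655) .nil))))),
   .two (nat_lit 46406828042) (nat_lit 11618222106) (.two (nat_lit 2961178632) (nat_lit 46474985491) (.two (nat_lit 46978301957) (nat_lit 1216348279) (.two (nat_lit 2097153) (nat_lit 10510926025) (.two (nat_lit 2097152) (nat_lit 10510927182) (.one (nat_lit 1210059001) .nil))))),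
   .two (nat_lit 168820746) (nat_lit 13224640538) (.two (nat_lit 169869314) (nat_lit 1049307) (.two (nat_lit 2097157) (nat_lit 157038936083) (.two (nat_lit 2097153) (nat_lit 1049307) (.two (nat_lit 1048576) (nat_lit 606077159) (.one (nat_lit 2100548) .nil))))),
   .two (nat_lit 11479810056) (nat_lit 117440527) (.two (nat_lit 11492392964) (nat_lit 183949590594) (.two (nat_lit 50331649) (nat_lit 138412638) (.two (nat_lit 16777216) (nat_lit 4196246) (.one (nat_lit 184989779438) .nil)))),
   .two (nat_lit 174752530440) (nat_lit 1795162127) (.two (nat_lit 20637024260) (nat_lit 117440624) (.two (nat_lit 605028353) (nat_lit 1191182916) (.two (nat_lit 1048576) (nat_lit 184550693) (.one (nat_lit 16780387) .nil)))),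
   .two (nat_lit 1913651208) (nat_lit 2889875467) (.two (nat_lit 2889875460) (nat_lit 19026411557) (.two (nat_lit 2889875460) (nat_lit 183946444819) (.two (nat_lit 4194305) (nat_lit 9866051681) (.two (nat_lit 4194304) (nat_lit 156968681689) (.one (nat_lit 2886731321) .nil))))),
   .two (nat_lit 203423752) (nat_lit 1749024783) (.two (nat_lit 16777218) (nat_lit 46474985599) (.two (nat_lit 721420293) (nat_lit 2954887204) (.two (nat_lit 16777217) (nat_lit 4599054929) (.two (nat_lit 16777216) (nat_lit 10506732414) (.one (nat_lit 4196695) .nil))))),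
   .two (nat_lit 721420296) (nat_lit 1178599439) (.two (nat_lit 50331653) (nat_lit 166232850500) (.two (nat_lit 50331653) (nat_lit 159219974218) (.two (nat_lit 50331649) (nat_lit 742392011) (.two (nat_lit 16777216) (nat_lit 174688568659) (.one (nat_lit 4197476) .nil))))),
   .two (nat_lit 20637024262) (nat_lit 183846830126) (.two (nat_lit 46978301960) (nat_lit 20637024267) (.two (nat_lit 1276116994) (nat_lit 1780482309) (.two (nat_lit 101711877) (nat_lit 1948254282) (.two (nat_lit 605028353) (nat_lit 2097888) (.two (nat_lit 1048576) (nat_lit 2098540) (.one (nat_lit 2100325) .nil)))))),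
   .two (nat_lit 809500680) (nat_lit 218103823) (.two (nat_lit 4194308) (nat_lit 9948889122) (.two (nat_lit 4194305) (nat_lit 654311462) (.two (nat_lit 4194304) (nat_lit 1291845851) (.one (nat_lit 16780337) .nil)))),
   .two (nat_lit 285212680) (nat_lit 813695002) (.two (nat_lit 285212677) (nat_lit 1954545810) (.two (nat_lit 8388612) (nat_lit 3573547028) (.two (nat_lit 8388609) (nat_lit 16777953) (.two (nat_lit 8388608) (nat_lit 10385097193) (.one (nat_lit 4638903341) .nil))))),
   .two (nat_lit 708837385) (nat_lit 13195280399) (.two (nat_lit 9768534023) (nat_lit 13195280399) (.two (nat_lit 10506731525) (nat_lit 28798091395) (.two (nat_lit 156367847425) (nat_lit 8389297) (.two (nat_lit 4194304) (nat_lit 612369228) (.one (nat_lit 8391784) .nil))))),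
   .two (nat_lit 16777224) (nat_lit 101711887) (.two (nat_lit 184549380) (nat_lit 47547679014) (.two (nat_lit 620756993) (nat_lit 185020187296) (.two (nat_lit 16777216) (nat_lit 1050710) (.one (nat_lit 874513929) .nil)))),
   .two (nat_lit 4194310) (nat_lit 10504634383) (.two (nat_lit 4194308) (nat_lit 156466413605) (.two (nat_lit 4194308) (nat_lit 46508539923) (.two (nat_lit 4194305) (nat_lit 337641672) (.two (nat_lit 4194304) (nat_lit 10001318112) (.one (nat_lit 2099552) .nil))))),
   .two (nat_lit 8388616) (nat_lit 46407876619) (.two (nat_lit 8388610) (nat_lit 2097301) (.two (nat_lit 8388612) (nat_lit 2921332757) (.two (nat_lit 41943041) (nat_lit 2097535) (.two (nat_lit 8388608) (nat_lit 706741779) (.one (nat_lit 8391785) .nil))))),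
   .two (nat_lit 10519314440) (nat_lit 3458203663) (.two (nat_lit 2902458372) (nat_lit 2988441667) (.two (nat_lit 156372041729) (nat_lit 11511267933) (.two (nat_lit 8388608) (nat_lit 3558867793) (.one (nat_lit 2100330) .nil)))),
   .two (nat_lit 13195280392) (nat_lit 165525061658) (.two (nat_lit 8388612) (nat_lit 2920284306) (.two (nat_lit 13195280389) (nat_lit 9866051604) (.two (nat_lit 605028353) (nat_lit 46984594145) (.two (nat_lit 1048576) (nat_lit 2927625068) (.one (nat_lit 8391735) .nil))))),
   .two (nat_lit 46978301960) (nat_lit 156971827215) (.two (nat_lit 3525312517) (nat_lit 47550824579) (.two (nat_lit 2097153) (nat_lit 166245433985) (.two (nat_lit 4194304) (nat_lit 10437527406) (.one (nat_lit 16779619) .nil)))),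
   .two (nat_lit 713031688) (nat_lit 46980399119) (.two (nat_lit 620756997) (nat_lit 1178599536) (.two (nat_lit 50331649) (nat_lit 10338959945) (.two (nat_lit 8388608) (nat_lit 71303678) (.one (nat_lit 8391736) .nil)))),
   .two (nat_lit 2954887176) (nat_lit 156372041743) (.two (nat_lit 169869316) (nat_lit 18933088323) (.two (nat_lit 606076929) (nat_lit 10007609705) (.two (nat_lit 2097152) (nat_lit 8389508) (.one (nat_lit 8391787) .nil)))),
   .two (nat_lit 1178599432) (nat_lit 1846542359) (.two (nat_lit 11479810052) (nat_lit 184986632311) (.two (nat_lit 16777217) (nat_lit 2424308302) (.two (nat_lit 4194304) (nat_lit 2416969618) (.one (nat_lit 8391014) .nil)))),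
   .two (nat_lit 50331656) (nat_lit 184993972239) (.two (nat_lit 713031684) (nat_lit 721420400) (.two (nat_lit 16777217) (nat_lit 3558867305) (.two (nat_lit 8388608) (nat_lit 174686470997) (.one (nat_lit 19027461100) .nil)))),
   .two (nat_lit 158144135176) (nat_lit 47555018767) (.two (nat_lit 1277165572) (nat_lit 47555018788) (.two (nat_lit 176160772) (nat_lit 9766436886) (.two (nat_lit 9766436865) (nat_lit 183920230610) (.two (nat_lit 2097152) (nat_lit 8389510) (.one (nat_lit 2099560) .nil))))),
   .two (nat_lit 28760342537) (nat_lit 11610882092) (.two (nat_lit 12117344263) (nat_lit 28086108175) (.two (nat_lit 11479810053) (nat_lit 11610882184) (.two (nat_lit 4194305) (nat_lit 1049768) (.two (nat_lit 1048576) (nat_lit 4195694) (.one (nat_lit 4197484) .nil))))),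
   .two (nat_lit 11577327628) (nat_lit 21208498187) (.two (nat_lit 11543773189) (nat_lit 156466413638) (.two (nat_lit 11543773189) (nat_lit 20638072853) (.two (nat_lit 34603009) (nat_lit 10538189004) (.two (nat_lit 1048576) (nat_lit 2097648) (.one (nat_lit 2100333) .nil))))),
   .two (nat_lit 4194308) (nat_lit 34603030) (.one (nat_lit 18925749765) .nil),
   .two (nat_lit 156468510733) (nat_lit 10504634383) (.two (nat_lit 69206021) (nat_lit 12054429810) (.two (nat_lit 2097153) (nat_lit 8389693) (.two (nat_lit 2097152) (nat_lit 20644365140) (.one (nat_lit 8391790) .nil)))),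
   .two (nat_lit 13195280392) (nat_lit 620757007) (.two (nat_lit 8388612) (nat_lit 21827158053) (.two (nat_lit 8388612) (nat_lit 2969567251) (.two (nat_lit 8388609) (nat_lit 1325400162) (.two (nat_lit 8388608) (nat_lit 10452205791) (.one (nat_lit 8391792) .nil))))),
   .two (nat_lit 708837381) (nat_lit 21818769427) (.one (nat_lit 2100337) .nil),
   .two (nat_lit 2954887176) (nat_lit 2923429907) (.two (nat_lit 19532873733) (nat_lit 46508539941) (.two (nat_lit 169869316) (nat_lit 2923429907) (.two (nat_lit 156367847425) (nat_lit 639631457) (.two (nat_lit 4194304) (nat_lit 2098056) (.one (nat_lit 2100338) .nil))))),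
   .two (nat_lit 12117344264) (nat_lit 1779433487) (.two (nat_lit 1276116994) (nat_lit 184419352654) (.two (nat_lit 11479810052) (nat_lit 1913651237) (.two (nat_lit 605028353) (nat_lit 1749024969) (.two (nat_lit 1048576) (nat_lit 272631108) (.one (nat_lit 1279265887) .nil))))),
   .two (nat_lit 46508539913) (nat_lit 21207449615) (.two (nat_lit 47596961805) (nat_lit 2418016278) (.two (nat_lit 159217876997) (nat_lit 12114198647) (.two (nat_lit 606076929) (nat_lit 184416207530) (.two (nat_lit 2097152) (nat_lit 1049967) (.one (nat_lit 1051763) .nil))))),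
   .two (nat_lit 2954887176) (nat_lit 46980399115) (.two (nat_lit 639631365) (nat_lit 10338959501) (.two (nat_lit 4194308) (nat_lit 2887778325) (.two (nat_lit 9766436865) (nat_lit 11513365382) (.two (nat_lit 2097152) (nat_lit 13191086956) (.one (nat_lit 2100340) .nil))))),
   .two (nat_lit 11593056265) (nat_lit 41943055) (.two (nat_lit 4613734407) (nat_lit 41943055) (.two (nat_lit 285212677) (nat_lit 10913579127) (.two (nat_lit 16777217) (nat_lit 156539814089) (.two (nat_lit 16777216) (nat_lit 8390001) (.one (nat_lit 1051765) .nil))))),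
   .two (nat_lit 620757000) (nat_lit 183912890387) (.two (nat_lit 1779433477) (nat_lit 20753416229) (.two (nat_lit 184549381) (nat_lit 183912890387) (.two (nat_lit 34603009) (nat_lit 28806480251) (.two (nat_lit 1048576) (nat_lit 16778121) (.one (nat_lit 16780406) .nil))))),
   .two (nat_lit 1343225864) (nat_lit 21208498191) (.two (nat_lit 705691652) (nat_lit 20705181763) (.two (nat_lit 34603009) (nat_lit 19597885804) (.two (nat_lit 1048576) (nat_lit 2098546) (.one (nat_lit 2100343) .nil)))),
   .two (nat_lit 612368391) (nat_lit 156367847439) (.two (nat_lit 612368387) (nat_lit 11513364589) (.two (nat_lit 612368385) (nat_lit 2923430466) (.two (nat_lit 8388608) (nat_lit 2923431127) (.one (nat_lit 20640170975) .nil)))),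
   .two (nat_lit 9934209032) (nat_lit 21207449615) (.two (nat_lit 169869316) (nat_lit 9933160516) (.two (nat_lit 606076931) (nat_lit 37313577070) (.two (nat_lit 16777217) (nat_lit 873464688) (.two (nat_lit 16777216) (nat_lit 158143087466) (.one (nat_lit 1050985) .nil))))),
   .two (nat_lit 16777224) (nat_lit 19029557272) (.two (nat_lit 46407876612) (nat_lit 11010048112) (.two (nat_lit 2097153) (nat_lit 12633244295) (.two (nat_lit 8388608) (nat_lit 16778611) (.one (nat_lit 4197497) .nil)))),
   .two (nat_lit 11614027786) (nat_lit 9934209039) (.two (nat_lit 9934209032) (nat_lit 46510637075) (.two (nat_lit 169869314) (nat_lit 19130220658) (.two (nat_lit 166132187141) (nat_lit 20705181733) (.two (nat_lit 2097153) (nat_lit 12117344448) (.two (nat_lit 2097152) (nat_lit 3024093656) (.one (nat_lit 4196714) .nil)))))),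
   .two (nat_lit 12115247114) (nat_lit 3527409679) (.two (nat_lit 10506731527) (nat_lit 28087156755) (.two (nat_lit 159217876997) (nat_lit 46980399171) (.two (nat_lit 606076929) (nat_lit 12117344617) (.two (nat_lit 2097152) (nat_lit 156468511620) (.one (nat_lit 4197498) .nil))))),
   .two (nat_lit 8388616) (nat_lit 28086108175) (.two (nat_lit 157036838917) (nat_lit 1309671551) (.two (nat_lit 156365750273) (nat_lit 11476664973) (.two (nat_lit 2097152) (nat_lit 158083318619) (.one (nat_lit 8391803) .nil)))),
   .two (nat_lit 2956984333) (nat_lit 1753219087) (.two (nat_lit 272629765) (nat_lit 780140583) (.two (nat_lit 272629765) (nat_lit 10913579045) (.two (nat_lit 9768534017) (nat_lit 276824656) (.two (nat_lit 4194304) (nat_lit 8390007) (.one (nat_lit 1050989) .nil))))),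
   .two (nat_lit 28690087944) (nat_lit 12054429711) (.two (nat_lit 1913651205) (nat_lit 156372041806) (.two (nat_lit 165525061635) (nat_lit 12054429803) (.two (nat_lit 156364701697) (nat_lit 1753219279) (.two (nat_lit 4194304) (nat_lit 158075978575) (.one (nat_lit 772802789) .nil))))),
   .two (nat_lit 10942939145) (nat_lit 1048630) (.two (nat_lit 2097159) (nat_lit 4634705939) (.two (nat_lit 28690087941) (nat_lit 28793897091) (.two (nat_lit 2097153) (nat_lit 159253528777) (.two (nat_lit 2097152) (nat_lit 4195213) (.one (nat_lit 3558870063) .nil))))),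
   .two (nat_lit 21208498184) (nat_lit 10939793423) (.two (nat_lit 158144135173) (nat_lit 13187940483) (.two (nat_lit 9765388289) (nat_lit 28705816781) (.two (nat_lit 1048576) (nat_lit 285214059) (.one (nat_lit 16778833) .nil)))),
   .two (nat_lit 184986632199) (nat_lit 28758245391) (.two (nat_lit 705691651) (nat_lit 4028629114) (.two (nat_lit 34603009) (nat_lit 2097843) (.two (nat_lit 1048576) (nat_lit 2098552) (.one (nat_lit 3525314129) .nil)))),
   .two (nat_lit 612368392) (nat_lit 12617515034) (.two (nat_lit 183845781508) (nat_lit 3531604096) (.two (nat_lit 2097153) (nat_lit 183853121912) (.two (nat_lit 2097152) (nat_lit 1050713) (.one (nat_lit 1050992) .nil)))),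
   .two (nat_lit 4194312) (nat_lit 3458203680) (.two (nat_lit 4194311) (nat_lit 18941476907) (.two (nat_lit 822083589) (nat_lit 605028419) (.two (nat_lit 9781116929) (nat_lit 165525061993) (.two (nat_lit 16777216) (nat_lit 9966715780) (.one (nat_lit 1051772) .nil))))),
   .two (nat_lit 11476664328) (nat_lit 183848927247) (.two (nat_lit 11476664324) (nat_lit 13191086159) (.two (nat_lit 806354949) (nat_lit 158146232403) (.two (nat_lit 9765388289) (nat_lit 270533292) (.two (nat_lit 1048576) (nat_lit 10437526368) (.one (nat_lit 12618565906) .nil))))),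
   .two (nat_lit 3021996041) (nat_lit 46980399119) (.two (nat_lit 10504634373) (nat_lit 708837493) (.two (nat_lit 50331649) (nat_lit 10506731617) (.two (nat_lit 2097152) (nat_lit 10506731737) (.one (nat_lit 156569176421) .nil)))),
   .two (nat_lit 10338959369) (nat_lit 46414168075) (.two (nat_lit 11479810050) (nat_lit 184423546950) (.two (nat_lit 28693233669) (nat_lit 2927624213) (.two (nat_lit 37748737) (nat_lit 183853121631) (.two (nat_lit 4194304) (nat_lit 9974055779) (.one (nat_lit 8391805) .nil))))),
   .two (nat_lit 165526110216) (nat_lit 166129041423) (.two (nat_lit 209715205) (nat_lit 1377828982) (.two (nat_lit 606076929) (nat_lit 183946445161) (.two (nat_lit 2097152) (nat_lit 16778618) (.one (nat_lit 1051774) .nil)))),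
   .two (nat_lit 166196150284) (nat_lit 158083317771) (.two (nat_lit 11543773189) (nat_lit 20644364354) (.two (nat_lit 34603009) (nat_lit 47555018845) (.two (nat_lit 1048576) (nat_lit 209715696) (.one (nat_lit 8391807) .nil)))),
   .two (nat_lit 13191086088) (nat_lit 1191182351) (.two (nat_lit 4194308) (nat_lit 1191182443) (.two (nat_lit 4194305) (nat_lit 16777908) (.two (nat_lit 16777216) (nat_lit 239075811) (.one (nat_lit 16780416) .nil)))),
   .two (nat_lit 708837381) (nat_lit 1417674771) (.one (nat_lit 8391809) .nil),
   .two (nat_lit 11543773192) (nat_lit 46414168083) (.two (nat_lit 165532401669) (nat_lit 235929683) (.two (nat_lit 705691652) (nat_lit 46414168083) (.two (nat_lit 156372041729) (nat_lit 1048671) (.two (nat_lit 8388608) (nat_lit 1049487) (.one (nat_lit 1051778) .nil))))),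
   .two (nat_lit 41943048) (nat_lit 1745879055) (.two (nat_lit 8388612) (nat_lit 10906239013) (.two (nat_lit 8388612) (nat_lit 183845781523) (.two (nat_lit 612368385) (nat_lit 1048787) (.two (nat_lit 1048576) (nat_lit 8389484) (.one (nat_lit 8391695) .nil))))),
   .two (nat_lit 1358954504) (nat_lit 46414168079) (.two (nat_lit 721420292) (nat_lit 4605345907) (.two (nat_lit 8388609) (nat_lit 166211879115) (.two (nat_lit 8388608) (nat_lit 3036677459) (.one (nat_lit 2323646710) .nil)))),
   .two (nat_lit 158179786761) (nat_lit 156372041768) (.two (nat_lit 276824072) (nat_lit 239075347) (.two (nat_lit 9933160453) (nat_lit 156372041842) (.two (nat_lit 4194305) (nat_lit 20745028242) (.two (nat_lit 1048576) (nat_lit 8390011) (.one (nat_lit 8391811) .nil))))),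
   .two (nat_lit 2954887176) (nat_lit 2902458379) (.two (nat_lit 2902458373) (nat_lit 2954887232) (.two (nat_lit 16777217) (nat_lit 2954887261) (.two (nat_lit 16777216) (nat_lit 47582281948) (.one (nat_lit 2099574) .nil)))),
   .two (nat_lit 706740234) (nat_lit 2902458394) (.two (nat_lit 3539992584) (nat_lit 236978195) (.two (nat_lit 47548727301) (nat_lit 158662131829) (.two (nat_lit 2097153) (nat_lit 10351542473) (.two (nat_lit 1048576) (nat_lit 11626611158) (.one (nat_lit 10000271609) .nil))))),
   .two (nat_lit 166132187142) (nat_lit 156969730091) (.two (nat_lit 184423546888) (nat_lit 28693233675) (.two (nat_lit 809500677) (nat_lit 46481277045) (.two (nat_lit 606076929) (nat_lit 10376708297) (.two (nat_lit 2097152) (nat_lit 8389520) (.one (nat_lit 2099449) .nil))))),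
   .two (nat_lit 46977253386) (nat_lit 1916796943) (.two (nat_lit 1343225861) (nat_lit 1849688101) (.two (nat_lit 1343225861) (nat_lit 12150898707) (.two (nat_lit 605028353) (nat_lit 9768534114) (.two (nat_lit 1048576) (nat_lit 47584379376) (.one (nat_lit 4195929) .nil))))),
   .two (nat_lit 185023332362) (nat_lit 855638066) (.two (nat_lit 12129927175) (nat_lit 157038936079) (.two (nat_lit 46980399109) (nat_lit 9915334741) (.two (nat_lit 19530776579) (nat_lit 11580473475) (.two (nat_lit 4194305) (nat_lit 16778303) (.two (nat_lit 2097152) (nat_lit 11492393812) (.one (nat_lit 16780422) .nil)))))),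
   .two (nat_lit 184986632200) (nat_lit 19599982607) (.two (nat_lit 705691652) (nat_lit 156971827312) (.two (nat_lit 34603009) (nat_lit 19532874308) (.two (nat_lit 1048576) (nat_lit 4634707237) (.one (nat_lit 1051783) .nil)))),
   .two (nat_lit 4605345805) (nat_lit 183949590547) (.two (nat_lit 11479810050) (nat_lit 8388949) (.two (nat_lit 9768534021) (nat_lit 46414168083) (.two (nat_lit 37748737) (nat_lit 184993972319) (.two (nat_lit 4194304) (nat_lit 158083318253) (.one (nat_lit 28697429573) .nil))))),
   .two (nat_lit 158192369677) (nat_lit 156364701718) (.two (nat_lit 754974725) (nat_lit 4194560) (.two (nat_lit 50331649) (nat_lit 183916036728) (.two (nat_lit 1048576) (nat_lit 4195217) (.one (nat_lit 4197512) .nil)))),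
   .two (nat_lit 47596961805) (nat_lit 9934209039) (.two (nat_lit 184549381) (nat_lit 9934209060) (.two (nat_lit 184549381) (nat_lit 2954887186) (.two (nat_lit 50331649) (nat_lit 184417255634) (.two (nat_lit 16777216) (nat_lit 1049490) (.one (nat_lit 11006903788) .nil))))),
   .two (nat_lit 46980399117) (nat_lit 28758245391) (.two (nat_lit 9934209029) (nat_lit 37316722822) (.two (nat_lit 9766436865) (nat_lit 37249614453) (.two (nat_lit 2097152) (nat_lit 171967864) (.one (nat_lit 2098780) .nil)))),
   .two (nat_lit 1277165574) (nat_lit 166132187147) (.two (nat_lit 1277165570) (nat_lit 3560964166) (.two (nat_lit 1277165572) (nat_lit 166132187157) (.two (nat_lit 606076929) (nat_lit 183916036193) (.two (nat_lit 2097152) (nat_lit 19096666339) (.one (nat_lit 4197513) .nil))))),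
   .two (nat_lit 272629768) (nat_lit 46414168079) (.two (nat_lit 4194308) (nat_lit 46414168130) (.two (nat_lit 37748737) (nat_lit 310379144) (.two (nat_lit 4194304) (nat_lit 8389523) (.one (nat_lit 8391818) .nil)))),
   .two (nat_lit 20704133132) (nat_lit 41943055) (.two (nat_lit 158075977733) (nat_lit 3028287555) (.two (nat_lit 34603009) (nat_lit 47588573390) (.two (nat_lit 8388608) (nat_lit 158176641910) (.one (nat_lit 8391819) .nil)))),
   .two (nat_lit 8388616) (nat_lit 158075977743) (.two (nat_lit 18933088261) (nat_lit 3020947723) (.two (nat_lit 156372041729) (nat_lit 37246468457) (.two (nat_lit 8388608) (nat_lit 101712742) (.one (nat_lit 183912893473) .nil)))),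
   .two (nat_lit 813694985) (nat_lit 47548727311) (.two (nat_lit 1753219077) (nat_lit 19128123509) (.two (nat_lit 612368385) (nat_lit 673185889) (.two (nat_lit 4194304) (nat_lit 673186009) (.one (nat_lit 2099579) .nil)))),
   .two (nat_lit 8388623) (nat_lit 605028419) (.two (nat_lit 4194308) (nat_lit 1175454053) (.two (nat_lit 2097153) (nat_lit 641729353) (.two (nat_lit 2097152) (nat_lit 205523115) (.one (nat_lit 2100368) .nil)))),
   .two (nat_lit 272629775) (nat_lit 11476664335) (.two (nat_lit 2887778312) (nat_lit 272629824) (.two (nat_lit 2887778308) (nat_lit 272629951) (.two (nat_lit 2097153) (nat_lit 9768535516) (.one (nat_lit 11543776399) .nil)))),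
   .two (nat_lit 10519314447) (nat_lit 166132187151) (.two (nat_lit 9940500488) (nat_lit 2969567296) (.two (nat_lit 176160773) (nat_lit 159266111679) (.two (nat_lit 8388609) (nat_lit 174688568136) (.two (nat_lit 4194304) (nat_lit 679478747) (.one (nat_lit 205524118) .nil))))),
   .two (nat_lit 1350565903) (nat_lit 158176641089) (.two (nat_lit 4194308) (nat_lit 8388799) (.two (nat_lit 37748737) (nat_lit 1779434312) (.two (nat_lit 1048576) (nat_lit 9768535515) (.one (nat_lit 4197540) .nil)))),
   .two (nat_lit 13203669007) (nat_lit 11513364546) (.two (nat_lit 16777220) (nat_lit 174755676520) (.two (nat_lit 2097153) (nat_lit 18928894792) (.two (nat_lit 2097152) (nat_lit 11626612188) (.one (nat_lit 2100391) .nil)))),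
   .two (nat_lit 3539992591) (nat_lit 19530776591) (.two (nat_lit 19530776584) (nat_lit 166129041474) (.two (nat_lit 2894069765) (nat_lit 13237223615) (.two (nat_lit 620756993) (nat_lit 19537069274) (.two (nat_lit 1048576) (nat_lit 46407878834) (.one (nat_lit 1051816) .nil))))),
   .two (nat_lit 4613734415) (nat_lit 46414168079) (.two (nat_lit 46414168072) (nat_lit 183845781570) (.two (nat_lit 183861510149) (nat_lit 303038825) (.two (nat_lit 2097153) (nat_lit 157043131209) (.two (nat_lit 8388608) (nat_lit 2099391) (.one (nat_lit 4028632213) .nil))))),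
   .two (nat_lit 50331663) (nat_lit 2954887191) (.two (nat_lit 183848927240) (nat_lit 183845781570) (.two (nat_lit 46422556677) (nat_lit 4632609128) (.two (nat_lit 34603009) (nat_lit 1749025609) (.two (nat_lit 1048576) (nat_lit 4196546) (.one (nat_lit 1051817) .nil))))),
   .two (nat_lit 620757007) (nat_lit 169869337) (.two (nat_lit 606076936) (nat_lit 16777280) (.two (nat_lit 184549381) (nat_lit 4632609128) (.two (nat_lit 2097153) (nat_lit 18928894792) (.two (nat_lit 2097152) (nat_lit 11626612188) (.one (nat_lit 71306390) .nil))))),
   .two (nat_lit 4194319) (nat_lit 16777231) (.two (nat_lit 4194312) (nat_lit 352321602) (.two (nat_lit 809500677) (nat_lit 352321893) (.two (nat_lit 4194305) (nat_lit 12047090505) (.two (nat_lit 4194304) (nat_lit 12047091164) (.one (nat_lit 37313580197) .nil))))),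
   .two (nat_lit 4194319) (nat_lit 713031695) (.two (nat_lit 713031688) (nat_lit 705691714) (.two (nat_lit 41943045) (nat_lit 46978302311) (.two (nat_lit 34603009) (nat_lit 1350566729) (.two (nat_lit 1048576) (nat_lit 166237046998) (.one (nat_lit 1051826) .nil))))),
   .two (nat_lit 159217877007) (nat_lit 157038936079) (.two (nat_lit 169869318) (nat_lit 9802088559) (.two (nat_lit 159217877000) (nat_lit 37249613861) (.two (nat_lit 169869314) (nat_lit 9802088805) (.two (nat_lit 169869316) (nat_lit 11479810244) (.two (nat_lit 2097153) (nat_lit 9802089288) (.two (nat_lit 2097152) (nat_lit 9802089947) (.one (nat_lit 13191087739) .nil))))))),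
   .two (nat_lit 721420303) (nat_lit 12147753001) (.two (nat_lit 185020186636) (nat_lit 50331715) (.two (nat_lit 721420292) (nat_lit 772800869) (.two (nat_lit 620756993) (nat_lit 12047089895) (.two (nat_lit 1048576) (nat_lit 166245433574) (.one (nat_lit 28772927869) .nil))))),
   .two (nat_lit 11479810063) (nat_lit 1753219087) (.two (nat_lit 183853121542) (nat_lit 159253528695) (.two (nat_lit 11479810056) (nat_lit 1384120395) (.two (nat_lit 809500677) (nat_lit 12054429734) (.two (nat_lit 809500677) (nat_lit 21785215072) (.two (nat_lit 37748737) (nat_lit 1384120800) (.two (nat_lit 4194304) (nat_lit 158183982573) (.one (nat_lit 4197573) .nil))))))),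
   .two (nat_lit 285212687) (nat_lit 46474985489) (.two (nat_lit 2954887176) (nat_lit 285212736) (.two (nat_lit 2902458372) (nat_lit 46474985663) (.two (nat_lit 16777217) (nat_lit 12148802807) (.two (nat_lit 16777216) (nat_lit 2099457) (.one (nat_lit 4647292063) .nil))))),
   .two (nat_lit 639631375) (nat_lit 28093448207) (.two (nat_lit 2887778310) (nat_lit 21785215043) (.two (nat_lit 639631368) (nat_lit 19604176933) (.two (nat_lit 46407876610) (nat_lit 184993972415) (.two (nat_lit 2887778308) (nat_lit 184993972419) (.two (nat_lit 2097153) (nat_lit 780141865) (.two (nat_lit 2097152) (nat_lit 158083318733) (.one (nat_lit 20644366747) .nil))))))),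
   .two (nat_lit 11543773199) (nat_lit 184419352591) (.two (nat_lit 705691656) (nat_lit 12117344323) (.two (nat_lit 34603013) (nat_lit 1916797024) (.two (nat_lit 18928893955) (nat_lit 3558867548) (.two (nat_lit 156367847425) (nat_lit 2098015) (.two (nat_lit 2097152) (nat_lit 638584285) (.one (nat_lit 806358237) .nil)))))),
   .two (nat_lit 184549391) (nat_lit 10940841999) (.two (nat_lit 184549384) (nat_lit 165526110245) (.two (nat_lit 184549384) (nat_lit 4028629011) (.two (nat_lit 166130089989) (nat_lit 16777310) (.two (nat_lit 46978301957) (nat_lit 10385096799) (.two (nat_lit 2097153) (nat_lit 50332111) (.two (nat_lit 2097152) (nat_lit 889193423) (.one (nat_lit 16780544) .nil))))))),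
   .two (nat_lit 157036838927) (nat_lit 4601151505) (.two (nat_lit 4194312) (nat_lit 174686470256) (.two (nat_lit 4194308) (nat_lit 158647451687) (.two (nat_lit 4194308) (nat_lit 1277165764) (.two (nat_lit 4194305) (nat_lit 19128123863) (.two (nat_lit 1048576) (nat_lit 2098686) (.one (nat_lit 1051905) .nil)))))),
   .two (nat_lit 2954887183) (nat_lit 742391835) (.two (nat_lit 2954887176) (nat_lit 10909384789) (.two (nat_lit 270532615) (nat_lit 3527409778) (.two (nat_lit 156971827205) (nat_lit 11543773222) (.two (nat_lit 2097157) (nat_lit 641728709) (.two (nat_lit 37748737) (nat_lit 101712094) (.two (nat_lit 2097152) (nat_lit 1050111) (.one (nat_lit 4196791) .nil))))))),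
   .two (nat_lit 1277165583) (nat_lit 3527409679) (.two (nat_lit 1277165576) (nat_lit 3527409730) (.two (nat_lit 9934209029) (nat_lit 10506731558) (.two (nat_lit 9934209029) (nat_lit 19532873824) (.two (nat_lit 606076929) (nat_lit 13224640731) (.two (nat_lit 2097152) (nat_lit 157038937033) (.one (nat_lit 156367849984) .nil)))))),
   .two (nat_lit 184419352600) (nat_lit 21207449611) (.two (nat_lit 13191086088) (nat_lit 13221494806) (.two (nat_lit 705691652) (nat_lit 21210595811) (.two (nat_lit 34603009) (nat_lit 21210595811) (.two (nat_lit 1048576) (nat_lit 2956985308) (.one (nat_lit 1051907) .nil))))),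
   .two (nat_lit 1358954511) (nat_lit 773849117) (.two (nat_lit 721420296) (nat_lit 46508540025) (.two (nat_lit 713031684) (nat_lit 156365750310) (.two (nat_lit 270532613) (nat_lit 318767305) (.two (nat_lit 34603009) (nat_lit 169870155) (.two (nat_lit 1048576) (nat_lit 16778753) (.one (nat_lit 16780548) .nil)))))),
   .two (nat_lit 203423759) (nat_lit 156372041743) (.two (nat_lit 46984593416) (nat_lit 46474985585) (.two (nat_lit 270532613) (nat_lit 13195280579) (.two (nat_lit 169869315) (nat_lit 310378687) (.two (nat_lit 2097153) (nat_lit 20644364761) (.two (nat_lit 1048576) (nat_lit 11511269549) (.one (nat_lit 605031604) .nil)))))),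
   .two (nat_lit 2889875471) (nat_lit 1745879055) (.two (nat_lit 9768534024) (nat_lit 11577327683) (.two (nat_lit 2889875460) (nat_lit 1376780483) (.two (nat_lit 1178599427) (nat_lit 1376780479) (.two (nat_lit 9768534017) (nat_lit 1376780753) (.two (nat_lit 4194304) (nat_lit 269485536) (.one (nat_lit 168823996) .nil)))))),
   .two (nat_lit 159232557071) (nat_lit 158144135183) (.two (nat_lit 9867100168) (nat_lit 620757028) (.two (nat_lit 620757000) (nat_lit 158144135186) (.two (nat_lit 16777218) (nat_lit 1749025394) (.two (nat_lit 184549381) (nat_lit 13191086178) (.two (nat_lit 4194305) (nat_lit 606077398) (.two (nat_lit 2097152) (nat_lit 10003417333) (.one (nat_lit 2100486) .nil))))))),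
   .two (nat_lit 158075977743) (nat_lit 19599982607) (.two (nat_lit 20637024262) (nat_lit 184419352689) (.two (nat_lit 158075977736) (nat_lit 174688567333) (.two (nat_lit 20637024258) (nat_lit 1212154213) (.two (nat_lit 21777874949) (nat_lit 2889875652) (.two (nat_lit 605028353) (nat_lit 1212154696) (.two (nat_lit 1048576) (nat_lit 9802089947) (.one (nat_lit 4601153147) .nil))))))),
   .two (nat_lit 8388623) (nat_lit 158075977743) (.two (nat_lit 8388616) (nat_lit 1343225893) (.two (nat_lit 8388616) (nat_lit 37313576979) (.two (nat_lit 713031682) (nat_lit 158176641381) (.two (nat_lit 8388612) (nat_lit 11577327713) (.two (nat_lit 41943041) (nat_lit 185020187088) (.two (nat_lit 8388608) (nat_lit 739247608) (.one (nat_lit 1051911) .nil))))))),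
   .two (nat_lit 4601151499) (nat_lit 236978202) (.two (nat_lit 4194312) (nat_lit 3458203669) (.two (nat_lit 171966469) (nat_lit 166230753484) (.two (nat_lit 156365750273) (nat_lit 1276117474) (.two (nat_lit 1048576) (nat_lit 159251431653) (.one (nat_lit 1051065) .nil))))),
   .two (nat_lit 16777231) (nat_lit 639631375) (.two (nat_lit 16777224) (nat_lit 203423762) (.two (nat_lit 16777220) (nat_lit 740294751) (.two (nat_lit 16777217) (nat_lit 4599054557) (.two (nat_lit 16777216) (nat_lit 2098152) (.one (nat_lit 16780556) .nil))))),
   .two (nat_lit 166130089999) (nat_lit 705691659) (.two (nat_lit 11543773192) (nat_lit 10370416660) (.two (nat_lit 20638072834) (nat_lit 1048946) (.two (nat_lit 605028353) (nat_lit 2097641) (.two (nat_lit 1048576) (nat_lit 1377829852) (.one (nat_lit 1051917) .nil))))),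
   .two (nat_lit 2954887183) (nat_lit 156367847439) (.two (nat_lit 3460300808) (nat_lit 10907287674) (.two (nat_lit 2097157) (nat_lit 843055200) (.two (nat_lit 2097155) (nat_lit 306184383) (.two (nat_lit 2097153) (nat_lit 306184657) (.two (nat_lit 1048576) (nat_lit 18926799021) (.one (nat_lit 2100494) .nil)))))),
   .two (nat_lit 809500687) (nat_lit 1745879055) (.two (nat_lit 184416206856) (nat_lit 4634706033) (.two (nat_lit 4194308) (nat_lit 183845781707) (.two (nat_lit 11479810051) (nat_lit 11577327807) (.two (nat_lit 37748737) (nat_lit 11577328081) (.two (nat_lit 1048576) (nat_lit 4195305) (.one (nat_lit 4197647) .nil)))))),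
   .two (nat_lit 12114198543) (nat_lit 1753219096) (.two (nat_lit 12114198536) (nat_lit 11517558805) (.two (nat_lit 11476664324) (nat_lit 159224168652) (.two (nat_lit 9765388289) (nat_lit 2357199330) (.two (nat_lit 1048576) (nat_lit 343933157) (.one (nat_lit 8391952) .nil))))),
   .two (nat_lit 11479810056) (nat_lit 183912890434) (.two (nat_lit 809500677) (nat_lit 1913651238) (.two (nat_lit 1048576) (nat_lit 8390920) (.one (nat_lit 1051068) .nil))),
   .two (nat_lit 20738736147) (nat_lit 46409973775) (.two (nat_lit 46409973766) (nat_lit 21208498290) (.two (nat_lit 46409973768) (nat_lit 20738736147) (.two (nat_lit 46409973764) (nat_lit 28087156933) (.two (nat_lit 9934209029) (nat_lit 2956984520) (.two (nat_lit 606076929) (nat_lit 46409974622) (.two (nat_lit 2097152) (nat_lit 4196618) (.one (nat_lit 4197652) .nil))))))),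
   .two (nat_lit 157036838927) (nat_lit 4601151505) (.two (nat_lit 4194312) (nat_lit 20638072903) (.two (nat_lit 2956984327) (nat_lit 11007950955) (.two (nat_lit 4194308) (nat_lit 158647451687) (.two (nat_lit 37748739) (nat_lit 2097523) (.two (nat_lit 37748737) (nat_lit 1049933) (.two (nat_lit 1048576) (nat_lit 4196619) (.one (nat_lit 4197653) .nil))))))),
   .two (nat_lit 12147752979) (nat_lit 28093448207) (.two (nat_lit 156465365005) (nat_lit 4034920518) (.two (nat_lit 20644364296) (nat_lit 12147752979) (.two (nat_lit 1779433477) (nat_lit 8388804) (.two (nat_lit 1779433477) (nat_lit 3464495201) (.two (nat_lit 34603009) (nat_lit 10343154504) (.two (nat_lit 1048576) (nat_lit 10343155163) (.one (nat_lit 10343155306) .nil))))))),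
   .two (nat_lit 2954887183) (nat_lit 158176641043) (.two (nat_lit 2954887176) (nat_lit 158176641043) (.two (nat_lit 1846542341) (nat_lit 1277165762) (.two (nat_lit 605028353) (nat_lit 11578376668) (.two (nat_lit 1048576) (nat_lit 1411383524) (.one (nat_lit 336594548) .nil))))),
   .two (nat_lit 11543773195) (nat_lit 1950351386) (.two (nat_lit 28757196808) (nat_lit 876609573) (.two (nat_lit 809500680) (nat_lit 11476664339) (.two (nat_lit 28690087941) (nat_lit 272629854) (.two (nat_lit 705691652) (nat_lit 156468510818) (.two (nat_lit 34603009) (nat_lit 272630239) (.two (nat_lit 1048576) (nat_lit 4195846) (.one (nat_lit 1051928) .nil))))))),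
   .two (nat_lit 1753219087) (nat_lit 12147752986) (.two (nat_lit 11476664328) (nat_lit 46984593478) (.two (nat_lit 2887778312) (nat_lit 3464495123) (.two (nat_lit 34603013) (nat_lit 12054429888) (.two (nat_lit 34603013) (nat_lit 21785215071) (.two (nat_lit 605028353) (nat_lit 11511268194) (.two (nat_lit 2097152) (nat_lit 156539816199) (.one (nat_lit 2100506) .nil))))))),
   .two (nat_lit 11476664331) (nat_lit 11618222129) (.two (nat_lit 41943048) (nat_lit 159250382885) (.two (nat_lit 4194312) (nat_lit 47588573204) (.two (nat_lit 11479810053) (nat_lit 21777875145) (.two (nat_lit 4194308) (nat_lit 10000269514) (.two (nat_lit 8388609) (nat_lit 1049067) (.two (nat_lit 1048576) (nat_lit 4195848) (.one (nat_lit 1051931) .nil))))))),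
   .two (nat_lit 339738643) (nat_lit 46508539923) (.two (nat_lit 20740833290) (nat_lit 46978301970) (.two (nat_lit 183848927237) (nat_lit 184417255519) (.two (nat_lit 4194305) (nat_lit 2988441820) (.two (nat_lit 4194304) (nat_lit 159217877500) (.one (nat_lit 2100509) .nil))))),
   .two (nat_lit 9934209039) (nat_lit 21207449615) (.two (nat_lit 20637024262) (nat_lit 673185914) (.two (nat_lit 9934209032) (nat_lit 9866051621) (.two (nat_lit 1277165573) (nat_lit 9899606373) (.two (nat_lit 2097153) (nat_lit 1410335982) (.two (nat_lit 2097152) (nat_lit 1050893) (.one (nat_lit 13188992148) .nil)))))),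
   .two (nat_lit 174753579015) (nat_lit 11525947509) (.two (nat_lit 18928893955) (nat_lit 28806480539) (.two (nat_lit 4194304) (nat_lit 11022631903) (.one (nat_lit 10385099196) .nil))),
   .two (nat_lit 184423546899) (nat_lit 739246095) (.two (nat_lit 9966714889) (nat_lit 343932997) (.two (nat_lit 41943048) (nat_lit 11510218771) (.two (nat_lit 183845781506) (nat_lit 11014242505) (.two (nat_lit 184986632197) (nat_lit 10007609439) (.two (nat_lit 8388609) (nat_lit 174685423084) (.two (nat_lit 1048576) (nat_lit 11014243820) (.one (nat_lit 235932857) .nil))))))),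
   .two (nat_lit 75497487) (nat_lit 1048604) (.two (nat_lit 176160774) (nat_lit 13188988967) (.two (nat_lit 4599054343) (nat_lit 8388672) (.two (nat_lit 176160772) (nat_lit 13188988967) (.two (nat_lit 46978301957) (nat_lit 41943136) (.two (nat_lit 9765388289) (nat_lit 9934209502) (.two (nat_lit 1048576) (nat_lit 46407877589) (.one (nat_lit 1051936) .nil))))))),
   .two (nat_lit 184549391) (nat_lit 1913651215) (.two (nat_lit 620757000) (nat_lit 12617515075) (.two (nat_lit 11476664324) (nat_lit 184549733) (.two (nat_lit 620756993) (nat_lit 174685422886) (.two (nat_lit 16777216) (nat_lit 839910893) (.one (nat_lit 1376783597) .nil))))),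
   .two (nat_lit 18933088271) (nat_lit 203423760) (.two (nat_lit 2954887176) (nat_lit 12054429762) (.two (nat_lit 169869316) (nat_lit 183853121574) (.two (nat_lit 169869316) (nat_lit 4605345888) (.two (nat_lit 2097153) (nat_lit 2424308567) (.two (nat_lit 8388608) (nat_lit 2099453) (.one (nat_lit 8391969) .nil)))))),
   .two (nat_lit 1795162127) (nat_lit 3527409679) (.two (nat_lit 9768534024) (nat_lit 1291845698) (.two (nat_lit 2889875460) (nat_lit 218103904) (.two (nat_lit 9781116931) (nat_lit 10506731711) (.two (nat_lit 9781116929) (nat_lit 166132187601) (.two (nat_lit 4194304) (nat_lit 20719862761) (.one (nat_lit 822086836) .nil)))))),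
   .two (nat_lit 1753219087) (nat_lit 1276117015) (.two (nat_lit 9866051592) (nat_lit 12054429714) (.two (nat_lit 1343225861) (nat_lit 3464495199) (.two (nat_lit 605028353) (nat_lit 21785215196) (.two (nat_lit 1048576) (nat_lit 3028287717) (.one (nat_lit 1051074) .nil))))),
   .two (nat_lit 117440519) (nat_lit 20738736195) (.two (nat_lit 1191182339) (nat_lit 2954887206) (.two (nat_lit 16777216) (nat_lit 2098701) (.one (nat_lit 2098845) .nil))),
   .two (nat_lit 183949590547) (nat_lit 46414168079) (.two (nat_lit 10338959369) (nat_lit 18933088323) (.two (nat_lit 46414168072) (nat_lit 183949590547) (.two (nat_lit 28693233669) (nat_lit 183853121731) (.two (nat_lit 28693233669) (nat_lit 183853121633) (.two (nat_lit 37748737) (nat_lit 156372042568) (.two (nat_lit 4194304) (nat_lit 8389614) (.one (nat_lit 8391111) .nil))))))),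
   .two (nat_lit 165532401683) (nat_lit 47548727311) (.two (nat_lit 13228834825) (nat_lit 1310720067) (.two (nat_lit 47548727304) (nat_lit 165532401683) (.two (nat_lit 21785214981) (nat_lit 10907287747) (.two (nat_lit 21785214981) (nat_lit 10907287649) (.two (nat_lit 612368385) (nat_lit 9967764296) (.two (nat_lit 8388608) (nat_lit 1310720987) (.one (nat_lit 2099657) .nil))))))),
   .two (nat_lit 50331655) (nat_lit 8388642) (.two (nat_lit 50331651) (nat_lit 1417674790) (.two (nat_lit 16777216) (nat_lit 10376708612) (.one (nat_lit 10376708612) .nil))),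
   .two (nat_lit 20644364299) (nat_lit 3558866963) (.two (nat_lit 20644364294) (nat_lit 3558866963) (.two (nat_lit 46978301957) (nat_lit 12054429793) (.two (nat_lit 2097153) (nat_lit 12054429913) (.two (nat_lit 2097152) (nat_lit 1753219299) (.one (nat_lit 8391971) .nil))))),
   .two (nat_lit 75497487) (nat_lit 183912890385) (.two (nat_lit 176160774) (nat_lit 19596836985) (.two (nat_lit 75497480) (nat_lit 11610882085) (.two (nat_lit 184986632197) (nat_lit 343933119) (.two (nat_lit 34603009) (nat_lit 3531605276) (.two (nat_lit 1048576) (nat_lit 8390933) (.one (nat_lit 336596140) .nil)))))),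
   .two (nat_lit 272629775) (nat_lit 343932953) (.two (nat_lit 4194312) (nat_lit 343932994) (.two (nat_lit 4194308) (nat_lit 47555019115) (.two (nat_lit 41943041) (nat_lit 19029558516) (.two (nat_lit 1048576) (nat_lit 8390159) (.one (nat_lit 8391972) .nil))))),
   .two (nat_lit 11479810063) (nat_lit 739246097) (.two (nat_lit 169869320) (nat_lit 184989778053) (.two (nat_lit 11476664324) (nat_lit 272629856) (.two (nat_lit 20652752899) (nat_lit 1343226214) (.two (nat_lit 620756993) (nat_lit 1343226323) (.two (nat_lit 16777216) (nat_lit 10336864494) (.one (nat_lit 2100517) .nil)))))),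
   .two (nat_lit 285212687) (nat_lit 37249613850) (.two (nat_lit 19532873736) (nat_lit 285212736) (.two (nat_lit 157038936069) (nat_lit 9781117119) (.two (nat_lit 9768534017) (nat_lit 285213903) (.two (nat_lit 4194304) (nat_lit 20719862271) (.one (nat_lit 16779723) .nil))))),
   .two (nat_lit 203423759) (nat_lit 158083317775) (.two (nat_lit 203423752) (nat_lit 21785215043) (.two (nat_lit 47548727301) (nat_lit 184993972415) (.two (nat_lit 2097153) (nat_lit 11618223346) (.two (nat_lit 2097152) (nat_lit 158183982573) (.one (nat_lit 2424310992) .nil))))),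
   .two (nat_lit 272629775) (nat_lit 20644364312) (.two (nat_lit 272629768) (nat_lit 9772728394) (.two (nat_lit 809500680) (nat_lit 28093448211) (.two (nat_lit 4194308) (nat_lit 847249604) (.two (nat_lit 21785214981) (nat_lit 3024093282) (.two (nat_lit 156372041729) (nat_lit 104858892) (.two (nat_lit 8388608) (nat_lit 4195311) (.one (nat_lit 4197670) .nil))))))),
   .two (nat_lit 46980399115) (nat_lit 21208498216) (.two (nat_lit 46409973766) (nat_lit 21208498290) (.two (nat_lit 46409973768) (nat_lit 166230753299) (.two (nat_lit 46409973764) (nat_lit 28087156933) (.two (nat_lit 9934209029) (nat_lit 11513364577) (.two (nat_lit 606076929) (nat_lit 205521365) (.two (nat_lit 2097152) (nat_lit 4634706910) (.one (nat_lit 4197671) .nil))))))),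
   .two (nat_lit 184416206878) (nat_lit 742391840) (.two (nat_lit 1178599432) (nat_lit 2349858928) (.two (nat_lit 11479810052) (nat_lit 37313576998) (.two (nat_lit 9768534021) (nat_lit 739246276) (.two (nat_lit 37748737) (nat_lit 10436477147) (.two (nat_lit 4194304) (nat_lit 9899607020) (.one (nat_lit 11543775650) .nil)))))),
   .two (nat_lit 11551113231) (nat_lit 12147752977) (.two (nat_lit 3525312520) (nat_lit 11584667687) (.two (nat_lit 4599054343) (nat_lit 158653743230) (.two (nat_lit 2097157) (nat_lit 10007609382) (.two (nat_lit 183845781507) (nat_lit 337641668) (.two (nat_lit 606076929) (nat_lit 269484510) (.two (nat_lit 16777216) (nat_lit 2886730704) (.one (nat_lit 1051086) .nil))))))),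
   .two (nat_lit 157036838927) (nat_lit 4601151499) (.two (nat_lit 4194310) (nat_lit 2921332755) (.two (nat_lit 4194308) (nat_lit 19027460193) (.two (nat_lit 4194305) (nat_lit 19027460313) (.two (nat_lit 4194304) (nat_lit 47548727524) (.one (nat_lit 606078600) .nil))))),
   .two (nat_lit 754974735) (nat_lit 47548727307) (.two (nat_lit 2954887176) (nat_lit 1191182355) (.two (nat_lit 169869316) (nat_lit 1358954593) (.two (nat_lit 2097153) (nat_lit 156581757156) (.two (nat_lit 2097152) (nat_lit 156581757156) (.one (nat_lit 21827161357) .nil))))),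
   .two (nat_lit 9768534031) (nat_lit 13195280399) (.two (nat_lit 9768534024) (nat_lit 12624855077) (.two (nat_lit 9768534024) (nat_lit 4638900243) (.two (nat_lit 2889875460) (nat_lit 46481277293) (.two (nat_lit 2889875460) (nat_lit 713031778) (.two (nat_lit 4194305) (nat_lit 880804305) (.two (nat_lit 4194304) (nat_lit 10510927328) (.one (nat_lit 8391072) .nil))))))),
   .two (nat_lit 46409973775) (nat_lit 158144135183) (.two (nat_lit 9934209032) (nat_lit 2420113445) (.two (nat_lit 9934209032) (nat_lit 46980399123) (.two (nat_lit 10370416645) (nat_lit 4601151582) (.two (nat_lit 169869316) (nat_lit 10909384802) (.two (nat_lit 2097153) (nat_lit 11513364945) (.two (nat_lit 2097152) (nat_lit 10338960367) (.one (nat_lit 18928897280) .nil))))))),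
   .two (nat_lit 9768534031) (nat_lit 28087156751) (.two (nat_lit 9768534024) (nat_lit 1210056741) (.two (nat_lit 742391816) (nat_lit 13237223444) (.two (nat_lit 184549378) (nat_lit 104858226) (.two (nat_lit 721420293) (nat_lit 156971827295) (.two (nat_lit 16777217) (nat_lit 183913939810) (.two (nat_lit 16777216) (nat_lit 2098706) (.one (nat_lit 1377832185) .nil))))))),
   .two (nat_lit 620757007) (nat_lit 10370416655) (.two (nat_lit 620757000) (nat_lit 20638072852) (.two (nat_lit 16777218) (nat_lit 2097880) (.two (nat_lit 9766436865) (nat_lit 16778083) (.two (nat_lit 16777216) (nat_lit 2098707) (.one (nat_lit 16780584) .nil))))),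
   .two (nat_lit 612368399) (nat_lit 1358954511) (.two (nat_lit 612368392) (nat_lit 1358954532) (.two (nat_lit 612368392) (nat_lit 11559501842) (.two (nat_lit 721420290) (nat_lit 11551113582) (.two (nat_lit 176160772) (nat_lit 2969567327) (.two (nat_lit 50331649) (nat_lit 159224169308) (.two (nat_lit 16777216) (nat_lit 183853123079) (.one (nat_lit 813698233) .nil))))))),
   .two (nat_lit 3525312527) (nat_lit 20637024267) (.two (nat_lit 3525312520) (nat_lit 20637024277) (.two (nat_lit 20637024260) (nat_lit 1310720204) (.two (nat_lit 9766436865) (nat_lit 19596837348) (.two (nat_lit 2097152) (nat_lit 1309672423) (.one (nat_lit 1051089) .nil))))),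
   .two (nat_lit 19599982607) (nat_lit 11610882080) (.two (nat_lit 705691654) (nat_lit 156971827312) (.two (nat_lit 21777874952) (nat_lit 174688567333) (.two (nat_lit 705691650) (nat_lit 1212153894) (.two (nat_lit 705691652) (nat_lit 2889875652) (.two (nat_lit 34603009) (nat_lit 166232850903) (.two (nat_lit 1048576) (nat_lit 171967998) (.one (nat_lit 708840663) .nil))))))),
   .two (nat_lit 83886095) (nat_lit 158146232364) (.two (nat_lit 158143086600) (nat_lit 158077026370) (.two (nat_lit 1276116996) (nat_lit 1749025125) (.two (nat_lit 606076929) (nat_lit 2987393246) (.two (nat_lit 2097152) (nat_lit 1050902) (.one (nat_lit 1309673083) .nil))))),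
   .two (nat_lit 156971827215) (nat_lit 183912890387) (.two (nat_lit 156971827208) (nat_lit 183912890387) (.two (nat_lit 1779433477) (nat_lit 11010048098) (.two (nat_lit 34603009) (nat_lit 3527409881) (.two (nat_lit 1048576) (nat_lit 2420113636) (.one (nat_lit 4197674) .nil))))),
   .two (nat_lit 16777231) (nat_lit 183949590545) (.two (nat_lit 9768534024) (nat_lit 16777280) (.two (nat_lit 2889875461) (nat_lit 16777310) (.two (nat_lit 2889875461) (nat_lit 16777309) (.two (nat_lit 4194305) (nat_lit 16777695) (.two (nat_lit 4194304) (nat_lit 16778775) (.one (nat_lit 620760314) .nil)))))),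
   .two (nat_lit 10506731527) (nat_lit 1317011575) (.two (nat_lit 166132187139) (nat_lit 612368993) (.two (nat_lit 4194304) (nat_lit 156472706015) (.one (nat_lit 184993974716) .nil))),
   .two (nat_lit 739246095) (nat_lit 2961178652) (.two (nat_lit 21785214984) (nat_lit 1343225890) (.two (nat_lit 21785214984) (nat_lit 11543773219) (.two (nat_lit 11543773189) (nat_lit 1417674790) (.two (nat_lit 11543773189) (nat_lit 3028287584) (.two (nat_lit 620756993) (nat_lit 101712712) (.two (nat_lit 16777216) (nat_lit 101713542) (.one (nat_lit 101713542) .nil))))))),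
   .two (nat_lit 2889875467) (nat_lit 184987680796) (.two (nat_lit 169869318) (nat_lit 19096666149) (.two (nat_lit 2889875464) (nat_lit 2988441619) (.two (nat_lit 169869314) (nat_lit 183949590723) (.two (nat_lit 169869316) (nat_lit 47550824648) (.two (nat_lit 2097153) (nat_lit 272630239) (.two (nat_lit 2097152) (nat_lit 4195864) (.one (nat_lit 171969784) .nil))))))),
   .two (nat_lit 11479810063) (nat_lit 10504634383) (.two (nat_lit 11479810056) (nat_lit 156466413605) (.two (nat_lit 11479810056) (nat_lit 46508539923) (.two (nat_lit 28693233669) (nat_lit 20738736224) (.two (nat_lit 809500677) (nat_lit 10370416738) (.two (nat_lit 9768534017) (nat_lit 10538189265) (.two (nat_lit 2097152) (nat_lit 4196632) (.one (nat_lit 9900657855) .nil))))))),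
   .two (nat_lit 19596836879) (nat_lit 4601151499) (.two (nat_lit 4194310) (nat_lit 11510218771) (.two (nat_lit 4194308) (nat_lit 28086108258) (.two (nat_lit 37748737) (nat_lit 46507491838) (.two (nat_lit 4194304) (nat_lit 21811429605) (.one (nat_lit 1051091) .nil))))),
   .two (nat_lit 18933088271) (nat_lit 10506731535) (.two (nat_lit 10506731528) (nat_lit 612368503) (.two (nat_lit 2889875460) (nat_lit 243269671) (.two (nat_lit 2889875460) (nat_lit 612368580) (.two (nat_lit 4194305) (nat_lit 3464495323) (.two (nat_lit 2097152) (nat_lit 158083318764) (.one (nat_lit 8391980) .nil)))))),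
   .two (nat_lit 184416206859) (nat_lit 9900654611) (.two (nat_lit 183845781510) (nat_lit 1310720019) (.two (nat_lit 20637024258) (nat_lit 2097352) (.two (nat_lit 605028353) (nat_lit 3021996514) (.two (nat_lit 1048576) (nat_lit 4599054564) (.one (nat_lit 2100525) .nil))))),
   .two (nat_lit 10336862223) (nat_lit 4605345809) (.two (nat_lit 8388616) (nat_lit 166130090055) (.two (nat_lit 11559501831) (nat_lit 807403595) (.two (nat_lit 176160773) (nat_lit 157036838950) (.two (nat_lit 176160771) (nat_lit 1847591915) (.two (nat_lit 8388609) (nat_lit 1847591915) (.two (nat_lit 16777216) (nat_lit 276826379) (.one (nat_lit 8391982) .nil))))))),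
   .two (nat_lit 272629775) (nat_lit 1745879055) (.two (nat_lit 9768534024) (nat_lit 184986632259) (.two (nat_lit 11479810052) (nat_lit 1376780479) (.two (nat_lit 34603009) (nat_lit 4634706385) (.two (nat_lit 1048576) (nat_lit 21781022176) (.one (nat_lit 1051878) .nil))))),
   .two (nat_lit 809500687) (nat_lit 18925748239) (.two (nat_lit 50331656) (nat_lit 705691761) (.two (nat_lit 16777220) (nat_lit 19096666151) (.two (nat_lit 16777220) (nat_lit 705691840) (.two (nat_lit 4194305) (nat_lit 1779434337) (.two (nat_lit 16777216) (nat_lit 4196635) (.one (nat_lit 156535622052) .nil)))))),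
   .two (nat_lit 11551113223) (nat_lit 2936012873) (.two (nat_lit 713031683) (nat_lit 16777591) (.two (nat_lit 8388608) (nat_lit 16779548) (.one (nat_lit 16780592) .nil))),
   .two (nat_lit 1753219087) (nat_lit 12114198545) (.two (nat_lit 2887778312) (nat_lit 142606416) (.two (nat_lit 2097159) (nat_lit 1753219179) (.two (nat_lit 270532613) (nat_lit 156372041766) (.two (nat_lit 165532401667) (nat_lit 2886730102) (.two (nat_lit 9765388289) (nat_lit 2894070625) (.two (nat_lit 2097152) (nat_lit 135268581) (.one (nat_lit 1051953) .nil))))))),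
   .two (nat_lit 176160779) (nat_lit 706740251) (.two (nat_lit 176160774) (nat_lit 28758245490) (.two (nat_lit 176160776) (nat_lit 174686470163) (.two (nat_lit 176160772) (nat_lit 9867100357) (.two (nat_lit 10504634373) (nat_lit 8388802) (.two (nat_lit 156365750273) (nat_lit 4034920917) (.two (nat_lit 2097152) (nat_lit 47555019742) (.one (nat_lit 8391986) .nil))))))),
   .two (nat_lit 158143086607) (nat_lit 46474985489) (.two (nat_lit 203423752) (nat_lit 2953838663) (.two (nat_lit 4601151495) (nat_lit 46507491403) (.two (nat_lit 2954887173) (nat_lit 47547678759) (.two (nat_lit 169869315) (nat_lit 19127075187) (.two (nat_lit 9766436865) (nat_lit 806355942) (.two (nat_lit 4194304) (nat_lit 158144137445) (.one (nat_lit 2100532) .nil))))))),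
   .two (nat_lit 41943055) (nat_lit 9948889103) (.two (nat_lit 41943048) (nat_lit 2969567250) (.two (nat_lit 8388612) (nat_lit 174768259167) (.two (nat_lit 8388609) (nat_lit 16778084) (.two (nat_lit 16777216) (nat_lit 8390170) (.one (nat_lit 16780597) .nil))))),
   .two (nat_lit 218103823) (nat_lit 157036838927) (.two (nat_lit 157036838920) (nat_lit 218103874) (.two (nat_lit 46407876612) (nat_lit 1291845728) (.two (nat_lit 46407876611) (nat_lit 654311998) (.two (nat_lit 2097153) (nat_lit 2902458833) (.two (nat_lit 2097152) (nat_lit 318768111) (.one (nat_lit 12633246956) .nil)))))),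
   .two (nat_lit 10343153679) (nat_lit 3525312529) (.two (nat_lit 203423752) (nat_lit 780140583) (.two (nat_lit 2887778312) (nat_lit 2323644453) (.two (nat_lit 270532613) (nat_lit 156372041766) (.two (nat_lit 2097155) (nat_lit 3464495311) (.two (nat_lit 9765388289) (nat_lit 8389972) (.two (nat_lit 1048576) (nat_lit 8390943) (.one (nat_lit 1051959) .nil))))))),
   .two (nat_lit 10519314451) (nat_lit 28697427995) (.two (nat_lit 20644364301) (nat_lit 4613734437) (.two (nat_lit 2902458376) (nat_lit 158150426646) (.two (nat_lit 75497477) (nat_lit 20719861961) (.two (nat_lit 8388613) (nat_lit 47596961890) (.two (nat_lit 612368385) (nat_lit 156481094102) (.two (nat_lit 8388608) (nat_lit 46489666537) (.one (nat_lit 16780600) .nil))))))),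
   .two (nat_lit 46409973775) (nat_lit 12114198543) (.two (nat_lit 739246088) (nat_lit 1212153935) (.two (nat_lit 739246088) (nat_lit 10372513875) (.two (nat_lit 11476664324) (nat_lit 9802088486) (.two (nat_lit 11476664324) (nat_lit 11513364576) (.two (nat_lit 34603009) (nat_lit 11513364702) (.two (nat_lit 1048576) (nat_lit 9802089968) (.one (nat_lit 2416970165) .nil))))))),
   .two (nat_lit 20644364299) (nat_lit 3558866963) (.two (nat_lit 20644364294) (nat_lit 3558866963) (.two (nat_lit 2887778306) (nat_lit 12054429793) (.two (nat_lit 2097153) (nat_lit 12054429913) (.two (nat_lit 2097152) (nat_lit 1753219299) (.one (nat_lit 8391995) .nil))))),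
   .two (nat_lit 156372041735) (nat_lit 47548727360) (.two (nat_lit 156372041731) (nat_lit 673185983) (.two (nat_lit 8388608) (nat_lit 236979181) (.one (nat_lit 2099671) .nil))),
   .two (nat_lit 9934209039) (nat_lit 1753219087) (.two (nat_lit 9934209032) (nat_lit 1753219108) (.two (nat_lit 9934209032) (nat_lit 12054429714) (.two (nat_lit 169869316) (nat_lit 184993972318) (.two (nat_lit 169869316) (nat_lit 184993972317) (.two (nat_lit 2097153) (nat_lit 1753219551) (.two (nat_lit 2097152) (nat_lit 1753220597) (.one (nat_lit 176164084) .nil))))))),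
   .two (nat_lit 183912890387) (nat_lit 285212687) (.two (nat_lit 46406828042) (nat_lit 3573547045) (.two (nat_lit 285212680) (nat_lit 183912890387) (.two (nat_lit 16777218) (nat_lit 174685421765) (.two (nat_lit 1779433477) (nat_lit 788529352) (.two (nat_lit 50331649) (nat_lit 13187940824) (.two (nat_lit 16777216) (nat_lit 9798943699) (.one (nat_lit 772803791) .nil))))))),
   .two (nat_lit 12114198543) (nat_lit 159224168464) (.two (nat_lit 11476664328) (nat_lit 1317011494) (.two (nat_lit 20644364296) (nat_lit 184416206883) (.two (nat_lit 806354949) (nat_lit 1317011494) (.two (nat_lit 159224168453) (nat_lit 19596836960) (.two (nat_lit 2097153) (nat_lit 158150427622) (.two (nat_lit 2097152) (nat_lit 343935237) (.one (nat_lit 8391998) .nil))))))),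
   .two (nat_lit 16777231) (nat_lit 9866051599) (.two (nat_lit 9866051592) (nat_lit 16777280) (.two (nat_lit 721420292) (nat_lit 11577327712) (.two (nat_lit 1343225861) (nat_lit 16777309) (.two (nat_lit 9765388289) (nat_lit 50332127) (.two (nat_lit 1048576) (nat_lit 13237225738) (.one (nat_lit 3020949141) .nil)))))),
   .two (nat_lit 174753579023) (nat_lit 11543773195) (.two (nat_lit 705691654) (nat_lit 1310720019) (.two (nat_lit 705691652) (nat_lit 20705181890) (.two (nat_lit 605028353) (nat_lit 9934209508) (.two (nat_lit 1048576) (nat_lit 169870311) (.one (nat_lit 11511269841) .nil))))),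
   .two (nat_lit 158083317775) (nat_lit 12147752979) (.two (nat_lit 158083317768) (nat_lit 12147752979) (.two (nat_lit 28690087941) (nat_lit 9974055010) (.two (nat_lit 34603009) (nat_lit 3464495321) (.two (nat_lit 1048576) (nat_lit 10343153891) (.one (nat_lit 1417676402) .nil))))),
   .two (nat_lit 184993972235) (nat_lit 2953838637) (.two (nat_lit 713031686) (nat_lit 183946444924) (.two (nat_lit 713031688) (nat_lit 37246468115) (.two (nat_lit 157035790341) (nat_lit 3028287683) (.two (nat_lit 1913651205) (nat_lit 3028287585) (.two (nat_lit 16777217) (nat_lit 11517560063) (.two (nat_lit 1048576) (nat_lit 4605346782) (.one (nat_lit 8392001) .nil))))))),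
   .two (nat_lit 176160783) (nat_lit 3021996059) (.two (nat_lit 176160776) (nat_lit 19094569045) (.two (nat_lit 37314625549) (nat_lit 8388643) (.two (nat_lit 176160772) (nat_lit 304087245) (.two (nat_lit 176160772) (nat_lit 9867100357) (.two (nat_lit 8388609) (nat_lit 1377829722) (.two (nat_lit 16777216) (nat_lit 8390950) (.one (nat_lit 8392002) .nil))))))),
   .two (nat_lit 1178599439) (nat_lit 156372041752) (.two (nat_lit 1178599432) (nat_lit 1954545738) (.two (nat_lit 3464495112) (nat_lit 11479810069) (.two (nat_lit 46414168066) (nat_lit 4194513) (.two (nat_lit 47555018757) (nat_lit 46980399308) (.two (nat_lit 37748737) (nat_lit 11618223324) (.two (nat_lit 4194304) (nat_lit 46414169608) (.one (nat_lit 8392003) .nil))))))),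
   .two (nat_lit 183853121551) (nat_lit 156365750291) (.two (nat_lit 183853121544) (nat_lit 156365750291) (.two (nat_lit 47548727301) (nat_lit 10007609548) (.two (nat_lit 156372041729) (nat_lit 166230754809) (.two (nat_lit 2097152) (nat_lit 183853121767) (.one (nat_lit 2099679) .nil))))),
   .two (nat_lit 184549391) (nat_lit 1344274461) (.two (nat_lit 184549384) (nat_lit 20705181778) (.two (nat_lit 184549384) (nat_lit 159251431493) (.two (nat_lit 184549380) (nat_lit 236978214) (.two (nat_lit 184549380) (nat_lit 9967763552) (.two (nat_lit 16777217) (nat_lit 9967763678) (.two (nat_lit 16777216) (nat_lit 10001319433) (.one (nat_lit 35654050) .nil))))))),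
   .two (nat_lit 639631367) (nat_lit 50331715) (.two (nat_lit 9766436867) (nat_lit 83886118) (.two (nat_lit 4194304) (nat_lit 2099497) (.one (nat_lit 2099680) .nil))),
   .two (nat_lit 21777874959) (nat_lit 742391819) (.two (nat_lit 809500680) (nat_lit 12617515027) (.two (nat_lit 11479810052) (nat_lit 166196150367) (.two (nat_lit 34603009) (nat_lit 1950351584) (.two (nat_lit 1048576) (nat_lit 708837604) (.one (nat_lit 4197701) .nil))))),
   .two (nat_lit 1350565903) (nat_lit 1343225891) (.two (nat_lit 8388623) (nat_lit 13191086100) (.two (nat_lit 4194312) (nat_lit 8388701) (.two (nat_lit 713031682) (nat_lit 4195157) (.two (nat_lit 4194307) (nat_lit 156573368550) (.two (nat_lit 37748737) (nat_lit 157035791314) (.two (nat_lit 1048576) (nat_lit 1413482082) (.one (nat_lit 339742026) .nil))))))),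
   .two (nat_lit 205520907) (nat_lit 9940500616) (.two (nat_lit 47555018769) (nat_lit 12150898725) (.two (nat_lit 4194310) (nat_lit 10007609535) (.two (nat_lit 20644364296) (nat_lit 46510637250) (.two (nat_lit 4194306) (nat_lit 3028287710) (.two (nat_lit 4194308) (nat_lit 10007609810) (.two (nat_lit 156372041729) (nat_lit 4195831) (.two (nat_lit 4194304) (nat_lit 8391064) (.one (nat_lit 159253531976) .nil)))))))),
   .two (nat_lit 272629775) (nat_lit 2357198921) (.two (nat_lit 4194310) (nat_lit 3028287526) (.two (nat_lit 272629768) (nat_lit 13228835013) (.two (nat_lit 4194308) (nat_lit 880804059) (.two (nat_lit 4194305) (nat_lit 343933435) (.two (nat_lit 4194304) (nat_lit 3531605617) (.one (nat_lit 158079125992) .nil)))))),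
   .two (nat_lit 4605345799) (nat_lit 889192486) (.two (nat_lit 8388608) (nat_lit 1210058345) .nil),
   .two (nat_lit 9940500495) (nat_lit 9934209059) (.two (nat_lit 176160783) (nat_lit 156533522454) (.two (nat_lit 37748744) (nat_lit 8388701) (.two (nat_lit 4601151493) (nat_lit 47548727773) (.two (nat_lit 4601151493) (nat_lit 203423961) (.two (nat_lit 156367847425) (nat_lit 75498972) (.two (nat_lit 2097152) (nat_lit 4196761) (.one (nat_lit 8392047) .nil))))))),
   .two (nat_lit 721420296) (nat_lit 10506731558) (.two (nat_lit 16777216) (nat_lit 4195967) .nil),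
   .two (nat_lit 4613734415) (nat_lit 306184259) (.two (nat_lit 50331656) (nat_lit 9866051682) (.two (nat_lit 721420292) (nat_lit 10436477401) (.two (nat_lit 4194307) (nat_lit 46406828249) (.two (nat_lit 4194305) (nat_lit 12147753939) (.two (nat_lit 1048576) (nat_lit 3024094837) (.one (nat_lit 1052016) .nil)))))),
   .two (nat_lit 4601151495) (nat_lit 9974054951) (.two (nat_lit 4194304) (nat_lit 18933089913) .nil),
   .two (nat_lit 50331663) (nat_lit 166229704723) (.two (nat_lit 1745879045) (nat_lit 184549593) (.two (nat_lit 605028353) (nat_lit 620757219) (.one (nat_lit 1291849053) .nil))),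
   .two (nat_lit 13203669007) (nat_lit 11513364545) (.two (nat_lit 606076936) (nat_lit 16777309) (.two (nat_lit 169869316) (nat_lit 10015998427) (.two (nat_lit 809500677) (nat_lit 183846830297) (.two (nat_lit 9768534017) (nat_lit 10336863707) (.two (nat_lit 2097152) (nat_lit 20652754546) (.one (nat_lit 47548730713) .nil)))))),
   .two (nat_lit 639631375) (nat_lit 1216348197) (.two (nat_lit 639631375) (nat_lit 20644364307) (.two (nat_lit 639631368) (nat_lit 1384120514) (.two (nat_lit 20644364292) (nat_lit 10001318365) (.two (nat_lit 21785214981) (nat_lit 174686470361) (.two (nat_lit 2097153) (nat_lit 184993973723) (.two (nat_lit 8388608) (nat_lit 2099613) (.one (nat_lit 8392049) .nil))))))),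
   .two (nat_lit 612368399) (nat_lit 1913651234) (.two (nat_lit 183845781510) (nat_lit 3028287526) (.two (nat_lit 612368392) (nat_lit 19093520579) (.two (nat_lit 183845781508) (nat_lit 880804059) (.two (nat_lit 34603009) (nat_lit 343933435) (.two (nat_lit 8388608) (nat_lit 1209010573) (.one (nat_lit 19596839405) .nil)))))),
   .two (nat_lit 1178599432) (nat_lit 4638900262) (.two (nat_lit 1048576) (nat_lit 2098186) .nil),
   .two (nat_lit 639631375) (nat_lit 3028287507) (.two (nat_lit 2887778308) (nat_lit 8388836) (.two (nat_lit 2097153) (nat_lit 10007609571) (.one (nat_lit 8391169) .nil))),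
   .two (nat_lit 612368391) (nat_lit 620757030) (.two (nat_lit 8388608) (nat_lit 16778880) .nil),
   .two (nat_lit 2902458379) (nat_lit 1410334739) (.two (nat_lit 34603013) (nat_lit 822083801) (.two (nat_lit 2097153) (nat_lit 285212899) (.one (nat_lit 2100594) .nil))),
   .two (nat_lit 159217877007) (nat_lit 166229704723) (.two (nat_lit 21207449605) (nat_lit 13222543836) (.two (nat_lit 9765388289) (nat_lit 2097380) (.one (nat_lit 46508543309) .nil))),
   .two (nat_lit 169869327) (nat_lit 612368418) (.two (nat_lit 1276116998) (nat_lit 639631551) (.two (nat_lit 10369368072) (nat_lit 2954887262) (.two (nat_lit 176160773) (nat_lit 639631582) (.two (nat_lit 2097153) (nat_lit 101712379) (.two (nat_lit 1048576) (nat_lit 2098817) (.one (nat_lit 705694188) .nil)))))),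
   .two (nat_lit 4601151495) (nat_lit 9781116966) (.two (nat_lit 4194304) (nat_lit 11492393988) .nil),
   .two (nat_lit 12114198535) (nat_lit 2927624231) (.two (nat_lit 1048576) (nat_lit 8390274) .nil),
   .two (nat_lit 46978301963) (nat_lit 10385096816) (.two (nat_lit 654311439) (nat_lit 2350907429) (.two (nat_lit 46407876614) (nat_lit 11626610884) (.two (nat_lit 654311432) (nat_lit 2097352) (.two (nat_lit 46407876610) (nat_lit 9781117768) (.two (nat_lit 46407876612) (nat_lit 13203669469) (.two (nat_lit 2097153) (nat_lit 9781118427) (.two (nat_lit 2097152) (nat_lit 9781118570) (.one (nat_lit 158192372197) .nil)))))))),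
   .two (nat_lit 1358954503) (nat_lit 713031718) (.two (nat_lit 2097152) (nat_lit 880804873) .nil),
   .two (nat_lit 75497487) (nat_lit 10504634407) (.two (nat_lit 3021996049) (nat_lit 41943075) (.two (nat_lit 47548727304) (nat_lit 176160864) (.two (nat_lit 9940500487) (nat_lit 47582281919) (.two (nat_lit 9873391621) (nat_lit 10538189022) (.two (nat_lit 156365750275) (nat_lit 11479810889) (.two (nat_lit 156365750273) (nat_lit 4195299) (.two (nat_lit 4194304) (nat_lit 276826507) (.one (nat_lit 4197748) .nil)))))))),
   .two (nat_lit 184989777927) (nat_lit 18933088294) (.two (nat_lit 4194304) (nat_lit 11511268362) .nil),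
   .two (nat_lit 37748743) (nat_lit 10385096742) (.two (nat_lit 2097152) (nat_lit 16778883) .nil),
   .two (nat_lit 41943047) (nat_lit 1745879078) (.two (nat_lit 8388608) (nat_lit 28757197832) .nil),
   .two (nat_lit 10370416655) (nat_lit 809500743) (.two (nat_lit 12048138250) (nat_lit 46510637094) (.two (nat_lit 639631367) (nat_lit 37249614020) (.two (nat_lit 639631365) (nat_lit 13224640731) (.two (nat_lit 606076929) (nat_lit 608174596) (.two (nat_lit 2097152) (nat_lit 2990540401) (.one (nat_lit 184417257960) .nil)))))),
   .two (nat_lit 13203669007) (nat_lit 11513364546) (.two (nat_lit 16777224) (nat_lit 183916036194) (.two (nat_lit 169869316) (nat_lit 654311897) (.two (nat_lit 16777219) (nat_lit 35651814) (.two (nat_lit 2097153) (nat_lit 1212154839) (.two (nat_lit 4194304) (nat_lit 706741858) (.one (nat_lit 156569177415) .nil)))))),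
   .two (nat_lit 813694991) (nat_lit 138412102) (.two (nat_lit 813694991) (nat_lit 11479810069) (.two (nat_lit 606076936) (nat_lit 1753219167) (.two (nat_lit 176160770) (nat_lit 673186265) (.two (nat_lit 8388611) (nat_lit 874512614) (.two (nat_lit 2097153) (nat_lit 19130221527) (.two (nat_lit 4194304) (nat_lit 166237046370) (.one (nat_lit 10372517208) .nil))))))),
   .two (nat_lit 28693233679) (nat_lit 8388629) (.two (nat_lit 166132187140) (nat_lit 1417674969) (.two (nat_lit 156367847425) (nat_lit 880804067) (.one (nat_lit 165532404221) .nil))),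
   .two (nat_lit 12117344280) (nat_lit 11577327635) (.two (nat_lit 705691652) (nat_lit 46510637273) (.two (nat_lit 34603009) (nat_lit 156569174243) (.one (nat_lit 4196873) .nil))),
   .two (nat_lit 47548727313) (nat_lit 156581756966) (.two (nat_lit 169869320) (nat_lit 822083622) (.two (nat_lit 9781116935) (nat_lit 9966715076) (.two (nat_lit 1191182339) (nat_lit 46406828510) (.two (nat_lit 606076929) (nat_lit 9966715865) (.two (nat_lit 8388608) (nat_lit 739247729) (.one (nat_lit 1051146) .nil)))))),
   .two (nat_lit 184549387) (nat_lit 34603075) (.two (nat_lit 4194319) (nat_lit 10538188822) (.two (nat_lit 169869320) (nat_lit 20640170081) (.two (nat_lit 16777218) (nat_lit 3020947920) (.two (nat_lit 184549380) (nat_lit 9899606244) (.two (nat_lit 50331649) (nat_lit 1050104) (.two (nat_lit 16777216) (nat_lit 1050247) (.one (nat_lit 1052023) .nil))))))),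
   .two (nat_lit 4194315) (nat_lit 4599054469) (.two (nat_lit 4194328) (nat_lit 9799991318) (.two (nat_lit 2887778310) (nat_lit 272629853) (.two (nat_lit 18926796805) (nat_lit 4194785) (.two (nat_lit 4194307) (nat_lit 4599054557) (.two (nat_lit 50331649) (nat_lit 9934210523) (.two (nat_lit 16777216) (nat_lit 2887780761) (.one (nat_lit 4197752) .nil))))))),
   .two (nat_lit 713031695) (nat_lit 739246100) (.two (nat_lit 176160770) (nat_lit 1049059) (.two (nat_lit 612368385) (nat_lit 10537141212) (.one (nat_lit 12054433146) .nil))),
   .two (nat_lit 272629775) (nat_lit 9906946067) (.two (nat_lit 11559501829) (nat_lit 183949590748) (.two (nat_lit 50331649) (nat_lit 10439623167) (.one (nat_lit 2357202279) .nil))),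
   .two (nat_lit 117440527) (nat_lit 11543773204) (.two (nat_lit 705691652) (nat_lit 11559502044) (.two (nat_lit 34603009) (nat_lit 3003122175) (.one (nat_lit 1052028) .nil))),
   .two (nat_lit 183848927247) (nat_lit 156969730086) (.two (nat_lit 183848927240) (nat_lit 156969730086) (.two (nat_lit 28691136520) (nat_lit 46409973856) (.two (nat_lit 1344274437) (nat_lit 16777438) (.two (nat_lit 37748737) (nat_lit 654311941) (.two (nat_lit 4194304) (nat_lit 16779685) (.one (nat_lit 4197757) .nil)))))),
   .two (nat_lit 8388623) (nat_lit 12047089682) (.two (nat_lit 2889875460) (nat_lit 12054430178) (.two (nat_lit 41943041) (nat_lit 19130220772) (.one (nat_lit 4197758) .nil))),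
   .two (nat_lit 41943055) (nat_lit 9768534036) (.two (nat_lit 9933160453) (nat_lit 185027526885) (.two (nat_lit 4194305) (nat_lit 185027526885) (.one (nat_lit 1052031) .nil))),
   .two (nat_lit 10370416655) (nat_lit 10343153739) (.two (nat_lit 10370416655) (nat_lit 839909398) (.two (nat_lit 2887778312) (nat_lit 1317011554) (.two (nat_lit 2097157) (nat_lit 10007609809) (.two (nat_lit 2097155) (nat_lit 2961178853) (.two (nat_lit 34603009) (nat_lit 157036839890) (.two (nat_lit 1048576) (nat_lit 47548728936) (.one (nat_lit 3557821779) .nil))))))),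
   .two (nat_lit 10506731527) (nat_lit 4647288870) (.two (nat_lit 4194304) (nat_lit 16778890) .nil),
   .two (nat_lit 654311439) (nat_lit 11543773203) (.two (nat_lit 171966469) (nat_lit 46489665765) (.two (nat_lit 4194305) (nat_lit 46489665765) (.one (nat_lit 1052035) .nil))),
   .two (nat_lit 156365750280) (nat_lit 4634705958) (.two (nat_lit 16777216) (nat_lit 1411384937) .nil),
   .two (nat_lit 1745879055) (nat_lit 13224640550) (.two (nat_lit 1745879048) (nat_lit 13224640550) (.two (nat_lit 12117344263) (nat_lit 1376780479) (.two (nat_lit 11479810051) (nat_lit 11577327838) (.two (nat_lit 34603009) (nat_lit 4194819) (.two (nat_lit 8388608) (nat_lit 135268845) (.one (nat_lit 135268845) .nil)))))),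
   .two (nat_lit 11479810059) (nat_lit 158176641142) (.two (nat_lit 11479810063) (nat_lit 11007950923) (.two (nat_lit 1379926025) (nat_lit 3558867040) (.two (nat_lit 4194312) (nat_lit 166130090082) (.two (nat_lit 2889875458) (nat_lit 3558867418) (.two (nat_lit 2956984325) (nat_lit 10538189265) (.two (nat_lit 605028353) (nat_lit 11477714399) (.two (nat_lit 1048576) (nat_lit 3525314949) (.one (nat_lit 28690091372) .nil)))))))),
   .two (nat_lit 11543773191) (nat_lit 10343153702) (.two (nat_lit 1048576) (nat_lit 20644365316) .nil),
   .two (nat_lit 9866051599) (nat_lit 171966536) (.two (nat_lit 75497487) (nat_lit 19093520406) (.two (nat_lit 9866051592) (nat_lit 10007609442) (.two (nat_lit 2894069765) (nat_lit 13224640978) (.two (nat_lit 13191086085) (nat_lit 202375385) (.two (nat_lit 41943041) (nat_lit 1343226843) (.two (nat_lit 8388608) (nat_lit 1050251) (.one (nat_lit 705695082) .nil))))))),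
   .two (nat_lit 11543773191) (nat_lit 1753219110) (.two (nat_lit 1048576) (nat_lit 159257724543) .nil),
   .two (nat_lit 809500679) (nat_lit 165532401702) (.two (nat_lit 4194304) (nat_lit 20644365317) .nil),
   .two (nat_lit 28772925447) (nat_lit 236978214) (.two (nat_lit 8388608) (nat_lit 166197199880) .nil),
   .two (nat_lit 276824092) (nat_lit 159253528615) (.two (nat_lit 184993972232) (nat_lit 159253528615) (.two (nat_lit 11559501831) (nat_lit 46514831556) (.two (nat_lit 721420291) (nat_lit 109052382) (.two (nat_lit 50331649) (nat_lit 10947134425) (.two (nat_lit 1048576) (nat_lit 8391084) (.one (nat_lit 8392069) .nil)))))),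
   .two (nat_lit 156372041743) (nat_lit 156468510757) (.two (nat_lit 156372041743) (nat_lit 46510637075) (.two (nat_lit 156372041736) (nat_lit 3024093384) (.two (nat_lit 2889875460) (nat_lit 813695453) (.two (nat_lit 2889875460) (nat_lit 183853121753) (.two (nat_lit 4194305) (nat_lit 10343155163) (.two (nat_lit 4194304) (nat_lit 174692763251) (.one (nat_lit 176164182) .nil))))))),
   .two (nat_lit 4601151495) (nat_lit 9781116966) (.two (nat_lit 4194304) (nat_lit 2902459397) .nil),
   .two (nat_lit 3525312527) (nat_lit 47581233223) (.two (nat_lit 1276117000) (nat_lit 3558866982) (.two (nat_lit 1276117000) (nat_lit 159251431520) (.two (nat_lit 9933160453) (nat_lit 159251431646) (.two (nat_lit 4194305) (nat_lit 37313577477) (.two (nat_lit 4194304) (nat_lit 2098829) (.one (nat_lit 2099734) .nil)))))),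
   .two (nat_lit 218103821) (nat_lit 46477082663) (.two (nat_lit 2097152) (nat_lit 18941478532) .nil),
   .two (nat_lit 270532615) (nat_lit 1753219110) (.two (nat_lit 1048576) (nat_lit 8390286) .nil),
   .two (nat_lit 2889875467) (nat_lit 159217877028) (.two (nat_lit 272629775) (nat_lit 46407876627) (.two (nat_lit 3527409672) (nat_lit 184987680863) (.two (nat_lit 46407876610) (nat_lit 306184657) (.two (nat_lit 2889875460) (nat_lit 3021996261) (.two (nat_lit 2097153) (nat_lit 183949591500) (.two (nat_lit 2097152) (nat_lit 9768536601) (.one (nat_lit 4197767) .nil))))))),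
   .two (nat_lit 9948889096) (nat_lit 807403559) (.two (nat_lit 2097152) (nat_lit 1051056) .nil),
   .two (nat_lit 2956984327) (nat_lit 21208498214) (.two (nat_lit 2097152) (nat_lit 156535621262) .nil),
   .two (nat_lit 50331655) (nat_lit 101711910) (.two (nat_lit 16777216) (nat_lit 34604684) .nil),
   .two (nat_lit 620757007) (nat_lit 809500708) (.two (nat_lit 620757007) (nat_lit 272629778) (.two (nat_lit 620757000) (nat_lit 1212153951) (.two (nat_lit 184549378) (nat_lit 1212154320) (.two (nat_lit 184549380) (nat_lit 1212154074) (.two (nat_lit 16777217) (nat_lit 19130221512) (.two (nat_lit 16777216) (nat_lit 11614029427) (.one (nat_lit 4197768) .nil))))))),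
   .two (nat_lit 3525312527) (nat_lit 4605345814) (.two (nat_lit 1782579205) (nat_lit 1176502500) (.two (nat_lit 37748737) (nat_lit 1176502500) (.one (nat_lit 8392073) .nil))),
   .two (nat_lit 205520911) (nat_lit 183853121555) (.two (nat_lit 171966469) (nat_lit 21785215196) (.two (nat_lit 4194305) (nat_lit 4638900735) (.one (nat_lit 1052043) .nil))),
   .two (nat_lit 4605345803) (nat_lit 272629824) (.two (nat_lit 272629775) (nat_lit 2994733076) (.two (nat_lit 272629768) (nat_lit 18933088351) (.two (nat_lit 46409973762) (nat_lit 276824545) (.two (nat_lit 4601151493) (nat_lit 276824293) (.two (nat_lit 156367847425) (nat_lit 276825054) (.two (nat_lit 8388608) (nat_lit 4195986) (.one (nat_lit 8392077) .nil))))))),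
   .two (nat_lit 16777223) (nat_lit 184419352614) (.two (nat_lit 16777216) (nat_lit 4195987) .nil),
   .two (nat_lit 50331655) (nat_lit 1178599462) (.two (nat_lit 16777216) (nat_lit 10003416072) .nil),
   .two (nat_lit 13203669007) (nat_lit 9866051622) (.two (nat_lit 272629768) (nat_lit 11510218790) (.two (nat_lit 272629768) (nat_lit 303038560) (.two (nat_lit 4194308) (nat_lit 13188989408) (.two (nat_lit 16777217) (nat_lit 638583297) (.two (nat_lit 16777216) (nat_lit 4030727793) (.one (nat_lit 4197774) .nil)))))),
   .two (nat_lit 9768534031) (nat_lit 1310720019) (.two (nat_lit 10940841989) (nat_lit 9768534247) (.two (nat_lit 606076929) (nat_lit 9768534247) (.one (nat_lit 2100623) .nil))),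
   .two (nat_lit 8388619) (nat_lit 9902751818) (.two (nat_lit 4605345816) (nat_lit 3527409683) (.two (nat_lit 8388614) (nat_lit 183949590625) (.two (nat_lit 2889875458) (nat_lit 4034920917) (.two (nat_lit 8388612) (nat_lit 183949590745) (.two (nat_lit 4194305) (nat_lit 4605346782) (.two (nat_lit 4194304) (nat_lit 343934574) (.one (nat_lit 8392080) .nil))))))),
   .two (nat_lit 37748743) (nat_lit 285212710) (.two (nat_lit 4194304) (nat_lit 158192370696) .nil),
   .two (nat_lit 1745879055) (nat_lit 166130090005) (.two (nat_lit 28086108165) (nat_lit 4028629209) (.two (nat_lit 34603009) (nat_lit 166197199076) (.one (nat_lit 1052049) .nil))),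
   .two (nat_lit 4605345799) (nat_lit 2923429926) (.two (nat_lit 8388608) (nat_lit 1916797962) .nil),
   .two (nat_lit 654311431) (nat_lit 10538188838) (.two (nat_lit 16777216) (nat_lit 2099636) .nil),
   .two (nat_lit 8388616) (nat_lit 156971827238) (.two (nat_lit 1048576) (nat_lit 4196790) .nil),
   .two (nat_lit 746586147) (nat_lit 11559501858) (.two (nat_lit 11551113231) (nat_lit 158192369702) (.two (nat_lit 11551113231) (nat_lit 185035915360) (.two (nat_lit 713031686) (nat_lit 156569174487) (.two (nat_lit 11546918919) (nat_lit 12163482064) (.two (nat_lit 11546918917) (nat_lit 2323644923) (.two (nat_lit 708837379) (nat_lit 1384121293) (.two (nat_lit 606076929) (nat_lit 10506733153) (.two (nat_lit 2097152) (nat_lit 20707281378) (.one (nat_lit 2100664) .nil))))))))),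
   .two (nat_lit 11559501842) (nat_lit 10001317956) (.two (nat_lit 11559501859) (nat_lit 21778923557) (.two (nat_lit 742391823) (nat_lit 11559501918) (.two (nat_lit 742391823) (nat_lit 11559501917) (.two (nat_lit 721420294) (nat_lit 874512856) (.two (nat_lit 754974728) (nat_lit 185021235417) (.two (nat_lit 11479810050) (nat_lit 28806480845) (.two (nat_lit 11479810051) (nat_lit 184417256395) (.two (nat_lit 9766436865) (nat_lit 2420115050) (.two (nat_lit 2097152) (nat_lit 4196850) (.one (nat_lit 166197202334) .nil)))))))))),
   .two (nat_lit 13237223444) (nat_lit 1914699813) (.two (nat_lit 184993972235) (nat_lit 2097354) (.two (nat_lit 11551113224) (nat_lit 166144770269) (.two (nat_lit 183853121538) (nat_lit 156365751251) (.two (nat_lit 721420293) (nat_lit 1384120547) (.two (nat_lit 16777217) (nat_lit 10538190498) (.two (nat_lit 2097152) (nat_lit 10343155362) (.one (nat_lit 2100665) .nil))))))),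
   .two (nat_lit 176160786) (nat_lit 218103826) (.two (nat_lit 1291845637) (nat_lit 184423547391) (.one (nat_lit 8392122) .nil)),
   .two (nat_lit 75497539) (nat_lit 19027460117) (.two (nat_lit 176160772) (nat_lit 9934209532) (.one (nat_lit 2323647898) .nil)),
   .two (nat_lit 157036838931) (nat_lit 679477285) (.two (nat_lit 46407876623) (nat_lit 20644364383) (.two (nat_lit 46407876616) (nat_lit 1384120550) (.two (nat_lit 2887778306) (nat_lit 174685422551) (.two (nat_lit 270532613) (nat_lit 156372041959) (.two (nat_lit 156364701697) (nat_lit 20638074484) (.two (nat_lit 1048576) (nat_lit 28758247074) (.one (nat_lit 1052091) .nil))))))),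
   .two (nat_lit 813694995) (nat_lit 1178599444) (.two (nat_lit 638582789) (nat_lit 11010048508) (.one (nat_lit 11006905751) .nil)),
   .two (nat_lit 183946444821) (nat_lit 37320917011) (.two (nat_lit 11476664324) (nat_lit 2927624422) (.one (nat_lit 8391200) .nil)),
   .two (nat_lit 2969567250) (nat_lit 13191086100) (.two (nat_lit 2889875461) (nat_lit 889192678) (.one (nat_lit 183916038681) .nil)),
   .two (nat_lit 2969567250) (nat_lit 876609556) (.two (nat_lit 11479810053) (nat_lit 788529662) (.one (nat_lit 16780732) .nil)),
   .two (nat_lit 75497492) (nat_lit 1310720019) (.two (nat_lit 1277165572) (nat_lit 9974055140) (.one (nat_lit 158653746585) .nil)),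
   .two (nat_lit 184549394) (nat_lit 158083317778) (.two (nat_lit 1914699781) (nat_lit 352322044) (.one (nat_lit 2100669) .nil)),
   .two (nat_lit 2889875474) (nat_lit 166130090002) (.two (nat_lit 2889875461) (nat_lit 157036839140) (.one (nat_lit 4197822) .nil)),
   .two (nat_lit 612368418) (nat_lit 11610882086) (.two (nat_lit 8388623) (nat_lit 11610882086) (.two (nat_lit 272629767) (nat_lit 4631560414) (.two (nat_lit 713031685) (nat_lit 202375681) (.two (nat_lit 2097153) (nat_lit 739247108) (.two (nat_lit 4194304) (nat_lit 2349861351) (.one (nat_lit 1052096) .nil)))))),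
   .two (nat_lit 183946444820) (nat_lit 19027460115) (.two (nat_lit 21207449605) (nat_lit 35651814) (.one (nat_lit 2100674) .nil)),
   .two (nat_lit 46523219988) (nat_lit 158176641043) (.two (nat_lit 1276116994) (nat_lit 2969567459) (.one (nat_lit 1052099) .nil)),
   .two (nat_lit 721420306) (nat_lit 20644364307) (.two (nat_lit 721420293) (nat_lit 2323644647) (.one (nat_lit 16779809) .nil)),
   .two (nat_lit 8388626) (nat_lit 1048610) (.two (nat_lit 41943076) (nat_lit 34603043) (.two (nat_lit 8388619) (nat_lit 168820931) (.two (nat_lit 171966480) (nat_lit 1182793823) (.two (nat_lit 4194310) (nat_lit 184986632661) (.two (nat_lit 37748744) (nat_lit 2886729945) (.two (nat_lit 169869314) (nat_lit 10503586766) (.two (nat_lit 171966467) (nat_lit 11477713864) (.two (nat_lit 4194305) (nat_lit 11477714527) (.two (nat_lit 2097152) (nat_lit 1051127) (.one (nat_lit 1052100) .nil)))))))))),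
   .two (nat_lit 352321557) (nat_lit 775946259) (.two (nat_lit 183848927236) (nat_lit 822083811) (.one (nat_lit 2969569819) .nil)),
   .two (nat_lit 4601151506) (nat_lit 713031701) (.two (nat_lit 713031682) (nat_lit 4194818) (.one (nat_lit 4196898) .nil)),
   .two (nat_lit 3560964116) (nat_lit 1847590931) (.two (nat_lit 272629765) (nat_lit 46407876837) (.one (nat_lit 2100678) .nil)),
   .two (nat_lit 1291845650) (nat_lit 37247516691) (.two (nat_lit 1291845637) (nat_lit 1847591143) (.one (nat_lit 2100679) .nil)),
   .two (nat_lit 2902458386) (nat_lit 806354966) (.two (nat_lit 158075977733) (nat_lit 654311651) (.one (nat_lit 16780744) .nil)),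
   .two (nat_lit 46409973778) (nat_lit 28690087957) (.two (nat_lit 4194306) (nat_lit 1913651428) (.one (nat_lit 1052105) .nil)),
   .two (nat_lit 104857619) (nat_lit 1276117012) (.two (nat_lit 169869316) (nat_lit 10335814140) (.one (nat_lit 18926800283) .nil)),
   .two (nat_lit 2969567296) (nat_lit 3458203669) (.two (nat_lit 46407876612) (nat_lit 2969567459) (.one (nat_lit 16779811) .nil)),
   .two (nat_lit 721420306) (nat_lit 12150898707) (.two (nat_lit 1344274437) (nat_lit 11593056485) (.one (nat_lit 16780746) .nil)),
   .two (nat_lit 272629794) (nat_lit 4638900262) (.two (nat_lit 11479810063) (nat_lit 276824102) (.two (nat_lit 3531603975) (nat_lit 2954887387) (.two (nat_lit 809500677) (nat_lit 1786774017) (.two (nat_lit 37748737) (nat_lit 1753219589) (.two (nat_lit 1048576) (nat_lit 169871857) (.one (nat_lit 8392139) .nil)))))),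
   .two (nat_lit 339738644) (nat_lit 3558867009) (.two (nat_lit 2887778315) (nat_lit 272629853) (.two (nat_lit 2889875464) (nat_lit 21778923741) (.two (nat_lit 46407876610) (nat_lit 4195294) (.two (nat_lit 47548727301) (nat_lit 9768534243) (.two (nat_lit 156365750273) (nat_lit 272631406) (.two (nat_lit 4194304) (nat_lit 2099708) (.one (nat_lit 37752236) .nil))))))),
   .two (nat_lit 41943074) (nat_lit 4601151526) (.two (nat_lit 176160783) (nat_lit 4601151526) (.two (nat_lit 276824071) (nat_lit 306184660) (.two (nat_lit 8388613) (nat_lit 156971827713) (.two (nat_lit 8388609) (nat_lit 19599983109) (.two (nat_lit 1048576) (nat_lit 8391157) (.one (nat_lit 4197815) .nil)))))),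
   .two (nat_lit 1277165586) (nat_lit 20644364307) (.two (nat_lit 11492392964) (nat_lit 185027526887) (.one (nat_lit 16780748) .nil)),
   .two (nat_lit 9934209043) (nat_lit 184993972242) (.two (nat_lit 34603013) (nat_lit 156573368550) (.one (nat_lit 8392142) .nil)),
   .two (nat_lit 713031698) (nat_lit 169869333) (.two (nat_lit 713031685) (nat_lit 10001318119) (.one (nat_lit 2100687) .nil)),
   .two (nat_lit 11610882068) (nat_lit 19532873747) (.two (nat_lit 47550824453) (nat_lit 4605346021) (.one (nat_lit 4197799) .nil)),
   .two (nat_lit 8388612) (nat_lit 28086108175) (.two (nat_lit 8388608) (nat_lit 11577327855) (.one (nat_lit 1051179) .nil)),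
   .two (nat_lit 276824072) (nat_lit 9948889103) (.two (nat_lit 2097153) (nat_lit 10906239092) (.two (nat_lit 16777216) (nat_lit 19134415206) (.one (nat_lit 16780756) .nil))),
   .two (nat_lit 104857608) (nat_lit 46407876632) (.two (nat_lit 612368385) (nat_lit 46407876735) (.two (nat_lit 8388608) (nat_lit 270533222) (.one (nat_lit 4197845) .nil))),
   .two (nat_lit 620757000) (nat_lit 1178599439) (.two (nat_lit 16777217) (nat_lit 10439622779) (.two (nat_lit 2097152) (nat_lit 4194925) (.one (nat_lit 4197846) .nil))),
   .two (nat_lit 16777224) (nat_lit 166132187162) (.two (nat_lit 8388609) (nat_lit 166245433953) (.one (nat_lit 16780764) .nil)),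
   .two (nat_lit 9934209032) (nat_lit 165525061640) (.two (nat_lit 184549381) (nat_lit 19530776695) (.two (nat_lit 1048576) (nat_lit 2098868) (.one (nat_lit 1051272) .nil))),
   .two (nat_lit 721420296) (nat_lit 739246103) (.two (nat_lit 8388609) (nat_lit 2988441718) (.two (nat_lit 1048576) (nat_lit 16778330) (.one (nat_lit 1052125) .nil))),
   .two (nat_lit 21214789640) (nat_lit 673185906) (.two (nat_lit 8388608) (nat_lit 169871258) .nil),
   .two (nat_lit 75497480) (nat_lit 10906238990) (.two (nat_lit 2097157) (nat_lit 612368399) (.two (nat_lit 2097153) (nat_lit 1216348279) (.two (nat_lit 8388608) (nat_lit 2098869) (.one (nat_lit 13188990874) .nil)))),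
   .two (nat_lit 37748744) (nat_lit 1753219139) (.two (nat_lit 2097152) (nat_lit 19532874366) (.one (nat_lit 4197005) .nil)),
   .two (nat_lit 203423752) (nat_lit 9940500488) (.two (nat_lit 176160772) (nat_lit 19027460211) (.two (nat_lit 2097152) (nat_lit 46481277547) (.one (nat_lit 2100702) .nil))),
   .two (nat_lit 176160776) (nat_lit 285212680) (.two (nat_lit 16777220) (nat_lit 159224169289) .nil),
   .two (nat_lit 20638072840) (nat_lit 1410334734) (.two (nat_lit 176160773) (nat_lit 9766437510) (.one (nat_lit 2099196) .nil)),
   .two (nat_lit 272629768) (nat_lit 28690087960) (.two (nat_lit 8388609) (nat_lit 183845781762) (.two (nat_lit 8388608) (nat_lit 11577329552) .nil)),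
   .two (nat_lit 174753579016) (nat_lit 135266538) (.two (nat_lit 1048576) (nat_lit 673185983) (.one (nat_lit 2099868) .nil)),
   .two (nat_lit 184993972232) (nat_lit 46409973773) (.two (nat_lit 171966469) (nat_lit 184993972239) (.two (nat_lit 41943041) (nat_lit 166232851533) (.one (nat_lit 4197023) .nil))),
   .two (nat_lit 37748744) (nat_lit 165532401775) (.two (nat_lit 2097152) (nat_lit 9940501322) .nil),
   .two (nat_lit 612368392) (nat_lit 174753579032) (.two (nat_lit 8388609) (nat_lit 19597886059) (.one (nat_lit 183846832715) .nil)),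
   .two (nat_lit 612368392) (nat_lit 183845781512) (.two (nat_lit 270532613) (nat_lit 612368399) (.two (nat_lit 2097153) (nat_lit 2349858937) (.two (nat_lit 2097152) (nat_lit 1050298) (.one (nat_lit 13188990874) .nil)))),
   .two (nat_lit 2902458376) (nat_lit 9900654618) (.two (nat_lit 605028353) (nat_lit 1377828982) (.two (nat_lit 1048576) (nat_lit 2098875) (.one (nat_lit 2100703) .nil))),
   .two (nat_lit 166132187144) (nat_lit 35651598) (.two (nat_lit 28758245381) (nat_lit 46980399462) (.one (nat_lit 16779159) .nil)),
   .two (nat_lit 46407876616) (nat_lit 4634705933) (.two (nat_lit 272629765) (nat_lit 183845781519) (.two (nat_lit 9768534017) (nat_lit 11006902892) (.one (nat_lit 1052128) .nil))),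
   .two (nat_lit 68157448) (nat_lit 10940842008) (.two (nat_lit 4194305) (nat_lit 37313577645) (.one (nat_lit 2099881) .nil)),
   .two (nat_lit 10506731528) (nat_lit 11577327628) (.two (nat_lit 822083589) (nat_lit 12147753078) (.two (nat_lit 16777216) (nat_lit 9899606688) (.one (nat_lit 4197857) .nil))),
   .two (nat_lit 285212680) (nat_lit 158177689624) (.two (nat_lit 16777217) (nat_lit 1310720110) (.two (nat_lit 2097152) (nat_lit 166211879562) (.one (nat_lit 69208681) .nil))),
   .two (nat_lit 104857608) (nat_lit 3458203663) (.two (nat_lit 8388609) (nat_lit 270533222) (.one (nat_lit 2100706) .nil)),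
   .two (nat_lit 3525312520) (nat_lit 839909390) (.two (nat_lit 9934209029) (nat_lit 12114198543) (.two (nat_lit 9765388289) (nat_lit 159251432547) (.one (nat_lit 2099900) .nil))),
   .two (nat_lit 9781116936) (nat_lit 20707278862) (.two (nat_lit 171966469) (nat_lit 10385096771) (.two (nat_lit 4194304) (nat_lit 165540792959) .nil)),
   .two (nat_lit 639631368) (nat_lit 12620660868) (.two (nat_lit 2097152) (nat_lit 1178600496) (.one (nat_lit 4197859) .nil)),
   .two (nat_lit 47548727304) (nat_lit 2994733069) (.two (nat_lit 47555018757) (nat_lit 1176502403) (.two (nat_lit 2097152) (nat_lit 1049662) (.one (nat_lit 1051332) .nil))),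
   .two (nat_lit 47563407368) (nat_lit 18933088271) (.two (nat_lit 41943041) (nat_lit 11006903315) (.one (nat_lit 16780773) .nil)),
   .two (nat_lit 606076936) (nat_lit 166211878936) (.two (nat_lit 2097153) (nat_lit 1782580250) (.one (nat_lit 4197862) .nil)),
   .two (nat_lit 11543773192) (nat_lit 166197198872) (.two (nat_lit 41943041) (nat_lit 28086108282) (.two (nat_lit 8388608) (nat_lit 174752531017) (.one (nat_lit 1051337) .nil))),
   .two (nat_lit 721420296) (nat_lit 46510637080) (.two (nat_lit 4194305) (nat_lit 721420353) (.two (nat_lit 1048576) (nat_lit 184419353214) (.one (nat_lit 4197068) .nil))),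
   .two (nat_lit 156367847432) (nat_lit 184986632205) (.two (nat_lit 4601151493) (nat_lit 336592995) (.two (nat_lit 2097153) (nat_lit 20637024367) (.two (nat_lit 2097152) (nat_lit 4027581092) (.one (nat_lit 4197070) .nil)))),
   .two (nat_lit 620757000) (nat_lit 4631560311) (.two (nat_lit 16777216) (nat_lit 166229705372) (.one (nat_lit 1051345) .nil)),
   .two (nat_lit 169869320) (nat_lit 10343153679) (.two (nat_lit 34603009) (nat_lit 19094569076) (.two (nat_lit 1048576) (nat_lit 2099750) (.one (nat_lit 1051346) .nil))),
   .two (nat_lit 4194312) (nat_lit 174753579020) (.two (nat_lit 169869316) (nat_lit 158143086616) (.two (nat_lit 2097153) (nat_lit 1950351632) (.two (nat_lit 1048576) (nat_lit 171967555) (.one (nat_lit 1052136) .nil)))),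
   .two (nat_lit 4194312) (nat_lit 157043130418) (.two (nat_lit 605028353) (nat_lit 41943174) (.two (nat_lit 1048576) (nat_lit 8389736) (.one (nat_lit 4197865) .nil))),
   .two (nat_lit 8388616) (nat_lit 9802088639) (.one (nat_lit 156367848767) .nil),
   .two (nat_lit 13195280392) (nat_lit 185021235242) (.two (nat_lit 8388609) (nat_lit 156567077549) (.one (nat_lit 3558869581) .nil)),
   .two (nat_lit 37748744) (nat_lit 10939793423) (.two (nat_lit 2097153) (nat_lit 708837494) (.two (nat_lit 2097152) (nat_lit 47581233764) (.one (nat_lit 4196405) .nil))),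
   .two (nat_lit 9768534024) (nat_lit 184416206874) (.two (nat_lit 34603009) (nat_lit 19130220611) (.two (nat_lit 1048576) (nat_lit 46409974124) (.one (nat_lit 1051360) .nil))),
   .two (nat_lit 11543773192) (nat_lit 37249613837) (.two (nat_lit 11479810053) (nat_lit 739246095) (.two (nat_lit 34603009) (nat_lit 12117344370) (.two (nat_lit 1048576) (nat_lit 4196030) (.one (nat_lit 4197092) .nil)))),
   .two (nat_lit 9940500488) (nat_lit 184416206863) (.two (nat_lit 9768534017) (nat_lit 772800639) (.two (nat_lit 4194304) (nat_lit 705692262) (.one (nat_lit 1052138) .nil))),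
   .two (nat_lit 639631368) (nat_lit 159224168463) (.two (nat_lit 2097153) (nat_lit 276824749) (.one (nat_lit 13195283021) .nil)),
   .two (nat_lit 8388616) (nat_lit 156532474109) (.two (nat_lit 16777216) (nat_lit 1050303) (.one (nat_lit 9940502538) .nil)),
   .two (nat_lit 28758245384) (nat_lit 171966473) (.two (nat_lit 157038936069) (nat_lit 166230753304) (.two (nat_lit 9768534017) (nat_lit 840958026) (.two (nat_lit 4194304) (nat_lit 9766437272) (.one (nat_lit 2099964) .nil)))),
   .two (nat_lit 272629768) (nat_lit 1745879064) (.two (nat_lit 2889875460) (nat_lit 184986632307) (.two (nat_lit 16777217) (nat_lit 19596837449) (.two (nat_lit 16777216) (nat_lit 1050406) (.one (nat_lit 1052149) .nil)))),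
   .two (nat_lit 174753579020) (nat_lit 11517558905) (.two (nat_lit 2097153) (nat_lit 166237045326) (.two (nat_lit 2097152) (nat_lit 8390439) (.one (nat_lit 8390858) .nil))),
   .two (nat_lit 2961178632) (nat_lit 20738736154) (.two (nat_lit 171966469) (nat_lit 3028287597) (.two (nat_lit 37748737) (nat_lit 3464495692) (.two (nat_lit 1048576) (nat_lit 679479068) (.one (nat_lit 4197878) .nil)))),
   .two (nat_lit 41943048) (nat_lit 156569174040) (.two (nat_lit 8388612) (nat_lit 19130220656) (.two (nat_lit 4194305) (nat_lit 2894071006) (.one (nat_lit 2961181470) .nil))),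
   .two (nat_lit 9867100168) (nat_lit 21811429400) (.two (nat_lit 34603013) (nat_lit 12117344370) (.two (nat_lit 2097153) (nat_lit 12117344837) (.two (nat_lit 1048576) (nat_lit 4196138) (.one (nat_lit 2100727) .nil)))),
   .two (nat_lit 10007609356) (nat_lit 46409973775) (.two (nat_lit 21785214981) (nat_lit 306184304) (.two (nat_lit 156372041729) (nat_lit 13224641752) (.one (nat_lit 4197880) .nil))),
   .two (nat_lit 272629768) (nat_lit 1753219181) (.two (nat_lit 4194305) (nat_lit 21785215554) (.two (nat_lit 4194304) (nat_lit 8390443) (.one (nat_lit 9772730541) .nil))),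
   .two (nat_lit 169869320) (nat_lit 46980399170) (.two (nat_lit 2097153) (nat_lit 4634706277) (.two (nat_lit 1048576) (nat_lit 4196141) (.one (nat_lit 2100729) .nil))),
   .two (nat_lit 276824072) (nat_lit 47548727360) (.two (nat_lit 8388609) (nat_lit 1310721237) (.one (nat_lit 2100730) .nil)),
   .two (nat_lit 9781116940) (nat_lit 41943055) (.two (nat_lit 117440517) (nat_lit 1417674874) (.two (nat_lit 620756993) (nat_lit 310378687) (.two (nat_lit 1048576) (nat_lit 41944303) (.one (nat_lit 8391472) .nil)))),
   .two (nat_lit 176160776) (nat_lit 1358954563) (.two (nat_lit 620756993) (nat_lit 18933088837) (.two (nat_lit 16777216) (nat_lit 8391216) (.one (nat_lit 16780081) .nil))),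
   .two (nat_lit 1779433480) (nat_lit 843055220) (.two (nat_lit 9765388289) (nat_lit 2923431130) (.one (nat_lit 1051442) .nil)),
   .two (nat_lit 37748744) (nat_lit 21214789656) (.two (nat_lit 184989777925) (nat_lit 679477366) (.two (nat_lit 606076929) (nat_lit 4634706485) (.two (nat_lit 2097152) (nat_lit 4634707151) (.one (nat_lit 4197176) .nil)))),
   .two (nat_lit 184549384) (nat_lit 183946444825) (.two (nat_lit 165528207365) (nat_lit 37246468328) (.two (nat_lit 8388609) (nat_lit 2420113768) (.two (nat_lit 8388608) (nat_lit 4197156) .nil))),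
   .two (nat_lit 20705181709) (nat_lit 1343225871) (.two (nat_lit 4599054341) (nat_lit 46510637123) (.two (nat_lit 2097153) (nat_lit 4194666) (.two (nat_lit 1048576) (nat_lit 4601152744) (.one (nat_lit 4197883) .nil)))),
   .two (nat_lit 203423752) (nat_lit 166129041423) (.two (nat_lit 13187940357) (nat_lit 157043130493) (.two (nat_lit 156364701697) (nat_lit 46407876967) (.two (nat_lit 2097152) (nat_lit 21777876196) (.one (nat_lit 8392188) .nil)))),
   .two (nat_lit 184549384) (nat_lit 4605346038) (.two (nat_lit 8388609) (nat_lit 352321727) (.two (nat_lit 1048576) (nat_lit 2098992) (.one (nat_lit 2100733) .nil))),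
   .two (nat_lit 11479810056) (nat_lit 12054429721) (.two (nat_lit 9934209029) (nat_lit 47555018990) (.two (nat_lit 37748737) (nat_lit 3028288058) (.two (nat_lit 4194304) (nat_lit 2099976) .nil))),
   .two (nat_lit 8388616) (nat_lit 158077026319) (.two (nat_lit 10504634373) (nat_lit 3565158518) (.two (nat_lit 156365750273) (nat_lit 156971827786) (.two (nat_lit 2097152) (nat_lit 4196913) (.one (nat_lit 2100734) .nil)))),
   .two (nat_lit 705691656) (nat_lit 4605345807) (.two (nat_lit 8388612) (nat_lit 184986632301) (.two (nat_lit 8388609) (nat_lit 28086108747) (.two (nat_lit 8388608) (nat_lit 1051186) (.one (nat_lit 2100029) .nil)))),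
   .two (nat_lit 285212680) (nat_lit 9934209039) (.two (nat_lit 169869316) (nat_lit 156581757119) (.two (nat_lit 8388608) (nat_lit 16780047) .nil)),
   .two (nat_lit 16777224) (nat_lit 3527409688) (.two (nat_lit 16777220) (nat_lit 2923430462) (.two (nat_lit 16777216) (nat_lit 4196145) (.one (nat_lit 1413482669) .nil))),
   .two (nat_lit 9866051592) (nat_lit 46407876634) (.two (nat_lit 46407876612) (nat_lit 21811429443) (.two (nat_lit 156365750273) (nat_lit 1050402) (.one (nat_lit 1051457) .nil))),
   .two (nat_lit 68157448) (nat_lit 184549391) (.two (nat_lit 705691652) (nat_lit 46489665659) (.two (nat_lit 620756993) (nat_lit 21777875135) (.two (nat_lit 1048576) (nat_lit 9969861878) (.one (nat_lit 1052159) .nil)))),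
   .two (nat_lit 11543773192) (nat_lit 46407876650) (.two (nat_lit 739246085) (nat_lit 10437525622) (.two (nat_lit 34603009) (nat_lit 2098193) (.two (nat_lit 1048576) (nat_lit 2099763) (.one (nat_lit 1051459) .nil)))),
   .two (nat_lit 612368392) (nat_lit 46474985538) (.two (nat_lit 2097153) (nat_lit 11517560612) (.one (nat_lit 69208237) .nil)),
   .two (nat_lit 2954887176) (nat_lit 28757196815) (.two (nat_lit 203423749) (nat_lit 185020186746) (.two (nat_lit 2097153) (nat_lit 28790751589) (.two (nat_lit 2097152) (nat_lit 183946447038) .nil))),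
   .two (nat_lit 9967763469) (nat_lit 19596836879) (.two (nat_lit 158144135173) (nat_lit 2886729847) (.two (nat_lit 156372041729) (nat_lit 183946445391) (.two (nat_lit 8388608) (nat_lit 46406829302) (.one (nat_lit 1052160) .nil)))),
   .two (nat_lit 9934209032) (nat_lit 156971827224) (.two (nat_lit 169869316) (nat_lit 156971827310) (.two (nat_lit 2097153) (nat_lit 12117345495) (.one (nat_lit 2100737) .nil))),
   .two (nat_lit 11476664328) (nat_lit 11584667714) (.two (nat_lit 2097153) (nat_lit 1753219430) (.two (nat_lit 1048576) (nat_lit 8390454) (.one (nat_lit 8392194) .nil))),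
   .two (nat_lit 3464495112) (nat_lit 166130089999) (.two (nat_lit 28758245381) (nat_lit 37320917352) (.two (nat_lit 2097152) (nat_lit 19537069278) (.one (nat_lit 8391500) .nil))),
   .two (nat_lit 68157448) (nat_lit 46414168079) (.two (nat_lit 46414168068) (nat_lit 12147753027) (.two (nat_lit 4194305) (nat_lit 156968681830) (.two (nat_lit 4194304) (nat_lit 2886732609) .nil))),
   .two (nat_lit 10007609356) (nat_lit 184419352600) (.two (nat_lit 159224168453) (nat_lit 183949590640) (.two (nat_lit 156372041729) (nat_lit 4196544) .nil)),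
   .two (nat_lit 2902458376) (nat_lit 46409973775) (.two (nat_lit 4601151493) (nat_lit 285212784) (.two (nat_lit 2097153) (nat_lit 37329306185) (.two (nat_lit 2097152) (nat_lit 156548203769) (.one (nat_lit 16780112) .nil)))),
   .two (nat_lit 276824072) (nat_lit 156365750287) (.two (nat_lit 8388612) (nat_lit 174752530792) (.two (nat_lit 8388608) (nat_lit 1050424) (.one (nat_lit 1052163) .nil))),
   .two (nat_lit 11551113224) (nat_lit 4601151552) (.two (nat_lit 8388609) (nat_lit 1782580448) (.one (nat_lit 2100050) .nil)),
   .two (nat_lit 9781116940) (nat_lit 8388672) (.two (nat_lit 620756993) (nat_lit 343933119) (.two (nat_lit 16777216) (nat_lit 8389902) (.one (nat_lit 8391507) .nil))),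
   .two (nat_lit 169869320) (nat_lit 13195280399) (.two (nat_lit 169869316) (nat_lit 1913651314) (.two (nat_lit 612368385) (nat_lit 3525312869) (.two (nat_lit 2097152) (nat_lit 1050425) (.one (nat_lit 3524266820) .nil)))),
   .two (nat_lit 11479810056) (nat_lit 28757196815) (.two (nat_lit 1343225861) (nat_lit 156971827558) (.two (nat_lit 1048576) (nat_lit 19599983827) (.one (nat_lit 11006905096) .nil))),
   .two (nat_lit 10343153672) (nat_lit 174686470170) (.two (nat_lit 11484004357) (nat_lit 1191182447) (.two (nat_lit 8388609) (nat_lit 13203669834) (.one (nat_lit 8391621) .nil))),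
   .two (nat_lit 620757000) (nat_lit 157036838927) (.two (nat_lit 184549380) (nat_lit 11578376323) (.two (nat_lit 2097153) (nat_lit 9982444794) (.one (nat_lit 16780230) .nil))),
   .two (nat_lit 183912890381) (nat_lit 165532401776) (.two (nat_lit 34603009) (nat_lit 156372042568) (.one (nat_lit 847251630) .nil)),
   .two (nat_lit 50331656) (nat_lit 165525061675) (.two (nat_lit 16777220) (nat_lit 1779433593) (.two (nat_lit 4194305) (nat_lit 352321727) (.two (nat_lit 1048576) (nat_lit 156367848264) (.one (nat_lit 16780866) .nil)))),
   .two (nat_lit 639631368) (nat_lit 28093448207) (.two (nat_lit 2887778308) (nat_lit 21785215043) (.two (nat_lit 2097153) (nat_lit 184993972415) (.two (nat_lit 2097152) (nat_lit 28798093090) (.one (nat_lit 8392259) .nil)))),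
   .two (nat_lit 159217877000) (nat_lit 1191182447) (.two (nat_lit 2097153) (nat_lit 117441352) (.one (nat_lit 83888939) .nil)),
   .two (nat_lit 822083596) (nat_lit 8388672) (.two (nat_lit 50331649) (nat_lit 880804031) (.two (nat_lit 16777216) (nat_lit 209716477) (.one (nat_lit 8392260) .nil))),
   .two (nat_lit 8388616) (nat_lit 157038936176) (.two (nat_lit 8388609) (nat_lit 46980399462) (.two (nat_lit 8388608) (nat_lit 156535620883) (.one (nat_lit 708840285) .nil))),
   .two (nat_lit 843055116) (nat_lit 157036838927) (.two (nat_lit 809500677) (nat_lit 673185903) (.two (nat_lit 37748737) (nat_lit 156567077470) (.two (nat_lit 4194304) (nat_lit 337642749) (.one (nat_lit 158177692523) .nil)))),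
   .two (nat_lit 9866051597) (nat_lit 822083599) (.two (nat_lit 11492392965) (nat_lit 20704133236) (.two (nat_lit 4194305) (nat_lit 16778318) (.two (nat_lit 4194304) (nat_lit 1050501) (.one (nat_lit 16780869) .nil)))),
   .two (nat_lit 4601151496) (nat_lit 117440626) (.two (nat_lit 4194305) (nat_lit 37262197836) (.two (nat_lit 4194304) (nat_lit 156380433254) .nil)),
   .two (nat_lit 184993972232) (nat_lit 156968681487) (.two (nat_lit 713031685) (nat_lit 21777875062) (.two (nat_lit 605028353) (nat_lit 16777578) (.two (nat_lit 16777216) (nat_lit 1050549) (.one (nat_lit 1052230) .nil)))),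
   .two (nat_lit 75497480) (nat_lit 28693233796) (.two (nat_lit 41943041) (nat_lit 183928620320) (.one (nat_lit 83889065) .nil)),
   .two (nat_lit 83886088) (nat_lit 28690087951) (.two (nat_lit 721420292) (nat_lit 2953838709) (.two (nat_lit 9765388289) (nat_lit 183962174069) (.two (nat_lit 1048576) (nat_lit 16779860) (.one (nat_lit 1276119242) .nil)))),
   .two (nat_lit 272629768) (nat_lit 721420303) (.two (nat_lit 2889875461) (nat_lit 9814671490) (.two (nat_lit 156372041729) (nat_lit 184550646) (.one (nat_lit 4197959) .nil))),
   .two (nat_lit 9934209032) (nat_lit 28806480005) (.two (nat_lit 16777217) (nat_lit 1947206218) (.two (nat_lit 16777216) (nat_lit 2099798) (.one (nat_lit 889195360) .nil))),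
   .two (nat_lit 1276117000) (nat_lit 184993972338) (.two (nat_lit 4194305) (nat_lit 276824426) (.two (nat_lit 4194304) (nat_lit 159224171450) .nil)),
   .two (nat_lit 50331656) (nat_lit 272629824) (.two (nat_lit 16777217) (nat_lit 843056370) (.one (nat_lit 4634708807) .nil)),
   .two (nat_lit 183916036109) (nat_lit 18933088280) (.two (nat_lit 184989777925) (nat_lit 12054429762) (.two (nat_lit 37748737) (nat_lit 41944318) (.one (nat_lit 8392264) .nil))),
   .two (nat_lit 16777224) (nat_lit 639631375) (.two (nat_lit 184549380) (nat_lit 2921332863) (.two (nat_lit 16777217) (nat_lit 166130090570) (.two (nat_lit 8388608) (nat_lit 285215503) .nil))),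
   .two (nat_lit 11476664328) (nat_lit 1753219087) (.two (nat_lit 34603013) (nat_lit 18933088365) (.two (nat_lit 2097153) (nat_lit 2424308348) (.two (nat_lit 1048576) (nat_lit 21214790884) (.one (nat_lit 4028631932) .nil)))),
   .two (nat_lit 10538188812) (nat_lit 159224168463) (.two (nat_lit 9881780229) (nat_lit 41943231) (.two (nat_lit 2097152) (nat_lit 2894071037) (.one (nat_lit 8392265) .nil))),
   .two (nat_lit 11543773192) (nat_lit 165532401776) (.two (nat_lit 34603009) (nat_lit 20644364872) (.two (nat_lit 1048576) (nat_lit 612370268) (.one (nat_lit 1052234) .nil))),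
   .two (nat_lit 21207449608) (nat_lit 156466413618) (.two (nat_lit 1176502277) (nat_lit 1376780400) (.two (nat_lit 41943041) (nat_lit 12114199232) (.two (nat_lit 8388608) (nat_lit 1050552) (.one (nat_lit 2100811) .nil)))),
   .two (nat_lit 47548727304) (nat_lit 158083317775) (.two (nat_lit 21785214981) (nat_lit 2988441666) (.two (nat_lit 612368385) (nat_lit 9967764296) (.one (nat_lit 12148803759) .nil))),
   .two (nat_lit 10552868877) (nat_lit 158075977743) (.two (nat_lit 1358954501) (nat_lit 158646403185) (.two (nat_lit 605028353) (nat_lit 183962174725) (.one (nat_lit 47581236056) .nil))),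
   .two (nat_lit 203423752) (nat_lit 158075977771) (.two (nat_lit 8388612) (nat_lit 185020186987) (.two (nat_lit 8388608) (nat_lit 1050553) (.one (nat_lit 1052236) .nil))),
   .two (nat_lit 2988441612) (nat_lit 21214789756) (.two (nat_lit 9765388289) (nat_lit 9967764533) (.two (nat_lit 1048576) (nat_lit 2100082) .nil)),
   .two (nat_lit 37748744) (nat_lit 117440621) (.two (nat_lit 4194305) (nat_lit 9934209613) (.two (nat_lit 2097152) (nat_lit 16779850) (.one (nat_lit 158144138108) .nil))),
   .two (nat_lit 157038936077) (nat_lit 1779433487) (.two (nat_lit 19599982597) (nat_lit 336593015) (.two (nat_lit 9765388289) (nat_lit 171967092) (.two (nat_lit 1048576) (nat_lit 4196952) (.one (nat_lit 1052237) .nil)))),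
   .two (nat_lit 218103816) (nat_lit 184419352689) (.two (nat_lit 16777217) (nat_lit 156367848072) (.two (nat_lit 4194304) (nat_lit 2902459685) (.one (nat_lit 16780878) .nil))),
   .two (nat_lit 28693233672) (nat_lit 18925748274) (.two (nat_lit 28757196805) (nat_lit 46980399699) (.two (nat_lit 1048576) (nat_lit 19532874569) (.one (nat_lit 4197967) .nil))),
   .two (nat_lit 2961178632) (nat_lit 10338959375) (.two (nat_lit 176160772) (nat_lit 20637024322) (.two (nat_lit 8388609) (nat_lit 156968681832) (.two (nat_lit 8388608) (nat_lit 19130221869) (.one (nat_lit 16780236) .nil)))),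
   .two (nat_lit 620757004) (nat_lit 28690087951) (.two (nat_lit 1358954501) (nat_lit 19093520499) (.two (nat_lit 9765388289) (nat_lit 11559503760) (.one (nat_lit 135269230) .nil))),
   .two (nat_lit 4194312) (nat_lit 9766436879) (.two (nat_lit 8388612) (nat_lit 11007951454) (.two (nat_lit 4194304) (nat_lit 303040323) (.one (nat_lit 4634709543) .nil))),
   .two (nat_lit 1343225864) (nat_lit 19029557271) (.two (nat_lit 705691652) (nat_lit 28793897271) (.two (nat_lit 16777217) (nat_lit 608174756) (.two (nat_lit 8388608) (nat_lit 876612178) (.one (nat_lit 16780880) .nil)))),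
   .two (nat_lit 176160776) (nat_lit 13191086095) (.two (nat_lit 4194308) (nat_lit 20644364403) (.two (nat_lit 8388609) (nat_lit 184419353157) (.two (nat_lit 8388608) (nat_lit 205522844) (.one (nat_lit 4197969) .nil)))),
   .two (nat_lit 620757000) (nat_lit 809500687) (.two (nat_lit 184549380) (nat_lit 183949590640) (.two (nat_lit 16777217) (nat_lit 19130221788) (.one (nat_lit 159253531588) .nil))),
   .two (nat_lit 174688567309) (nat_lit 176160783) (.two (nat_lit 8388613) (nat_lit 3527409778) (.two (nat_lit 8388609) (nat_lit 156468511364) (.two (nat_lit 16777216) (nat_lit 4197277) .nil))),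
   .two (nat_lit 8388616) (nat_lit 1175453738) (.two (nat_lit 8388612) (nat_lit 10000269594) (.two (nat_lit 41943041) (nat_lit 1947206208) (.two (nat_lit 2097152) (nat_lit 1050554) (.one (nat_lit 1052242) .nil)))),
   .two (nat_lit 16777224) (nat_lit 310378519) (.two (nat_lit 8388612) (nat_lit 19042140277) (.two (nat_lit 50331649) (nat_lit 1049679) (.two (nat_lit 1048576) (nat_lit 2099802) (.one (nat_lit 1052243) .nil)))),
   .two (nat_lit 47555018760) (nat_lit 21208498191) (.two (nat_lit 158144135173) (nat_lit 47555018816) (.two (nat_lit 606076929) (nat_lit 159224168639) (.two (nat_lit 2097152) (nat_lit 174692762877) (.one (nat_lit 165532404551) .nil)))),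
   .two (nat_lit 654311432) (nat_lit 1176502403) (.two (nat_lit 34603009) (nat_lit 855639951) (.one (nat_lit 37313579886) .nil)),
   .two (nat_lit 809500680) (nat_lit 183853121601) (.two (nat_lit 9768534017) (nat_lit 1317012537) (.two (nat_lit 4194304) (nat_lit 8391259) (.one (nat_lit 13191088991) .nil))),
   .two (nat_lit 68157448) (nat_lit 1753219087) (.two (nat_lit 11543773189) (nat_lit 3527409785) (.two (nat_lit 9768534017) (nat_lit 158176641610) (.two (nat_lit 4194304) (nat_lit 1051228) (.one (nat_lit 2889878368) .nil)))),
   .two (nat_lit 183912890380) (nat_lit 9772728437) (.two (nat_lit 605028353) (nat_lit 4605347123) (.one (nat_lit 8391630) .nil)),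
   .two (nat_lit 9866051592) (nat_lit 184419352591) (.two (nat_lit 1276116996) (nat_lit 28693233784) (.two (nat_lit 9765388289) (nat_lit 13224640869) (.two (nat_lit 1048576) (nat_lit 21814577081) (.one (nat_lit 4197972) .nil)))),
   .two (nat_lit 285212680) (nat_lit 46409973775) (.two (nat_lit 9781116933) (nat_lit 9969860740) (.two (nat_lit 4194305) (nat_lit 285212863) (.two (nat_lit 4194304) (nat_lit 16779195) (.one (nat_lit 16780885) .nil)))),
   .two (nat_lit 822083592) (nat_lit 157038936079) (.two (nat_lit 19532873733) (nat_lit 11492393075) (.two (nat_lit 4194305) (nat_lit 754975301) (.two (nat_lit 4194304) (nat_lit 47563409308) (.one (nat_lit 16780239) .nil)))),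
   .two (nat_lit 1277165576) (nat_lit 873463941) (.two (nat_lit 4194305) (nat_lit 2418016893) (.two (nat_lit 2097152) (nat_lit 1276119904) .nil)),
   .two (nat_lit 12047089677) (nat_lit 654311439) (.two (nat_lit 34603013) (nat_lit 218103921) (.two (nat_lit 2097153) (nat_lit 1392510226) (.one (nat_lit 1051600) .nil))),
   .two (nat_lit 272629768) (nat_lit 158083317775) (.two (nat_lit 4194308) (nat_lit 2994733297) (.two (nat_lit 612368385) (nat_lit 19599983163) (.two (nat_lit 8388608) (nat_lit 19599983827) (.one (nat_lit 4197933) .nil)))),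
   .two (nat_lit 4194312) (nat_lit 156365750287) (.two (nat_lit 4194308) (nat_lit 183845781570) (.two (nat_lit 16777217) (nat_lit 71304499) (.one (nat_lit 1052246) .nil))),
   .two (nat_lit 705691656) (nat_lit 75497487) (.two (nat_lit 34603013) (nat_lit 1753219192) (.two (nat_lit 2097153) (nat_lit 156569174373) (.two (nat_lit 1048576) (nat_lit 4605347105) (.one (nat_lit 4197975) .nil)))),
   .two (nat_lit 272629768) (nat_lit 11014242328) (.two (nat_lit 176160772) (nat_lit 10942939262) (.two (nat_lit 8388609) (nat_lit 4195408) (.two (nat_lit 8388608) (nat_lit 4196958) (.one (nat_lit 46984596370) .nil)))),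
   .two (nat_lit 620757000) (nat_lit 28691136536) (.two (nat_lit 2902458372) (nat_lit 10437525626) (.two (nat_lit 37748737) (nat_lit 9766437453) (.two (nat_lit 4194304) (nat_lit 2099132) (.one (nat_lit 1849691028) .nil)))),
   .two (nat_lit 9934209032) (nat_lit 185002361192) (.two (nat_lit 16777216) (nat_lit 166130091803) (.one (nat_lit 156481096572) .nil)),
   .two (nat_lit 41943048) (nat_lit 183845781570) (.two (nat_lit 8388609) (nat_lit 156968683330) (.one (nat_lit 2100824) .nil)),
   .two (nat_lit 205520904) (nat_lit 10907287659) (.two (nat_lit 34603009) (nat_lit 174753579594) (.two (nat_lit 1048576) (nat_lit 28760344442) (.one (nat_lit 158646406002) .nil))),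
   .two (nat_lit 606076936) (nat_lit 21207449615) (.two (nat_lit 708837381) (nat_lit 21811429610) (.two (nat_lit 2097153) (nat_lit 4634706277) (.two (nat_lit 4194304) (nat_lit 2100057) .nil))),
   .two (nat_lit 2889875464) (nat_lit 1745879055) (.two (nat_lit 2889875460) (nat_lit 11577327683) (.two (nat_lit 9768534017) (nat_lit 1376780479) (.two (nat_lit 1048576) (nat_lit 13191087909) (.one (nat_lit 1052249) .nil)))),
   .two (nat_lit 28772925448) (nat_lit 10907287666) (.two (nat_lit 2097153) (nat_lit 159266112767) (.one (nat_lit 185002363791) .nil)),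
   .two (nat_lit 9781116936) (nat_lit 236978242) (.two (nat_lit 2097153) (nat_lit 822083775) (.two (nat_lit 16777216) (nat_lit 2099807) (.one (nat_lit 9766439877) .nil))),
   .two (nat_lit 156367847432) (nat_lit 10940842024) (.two (nat_lit 46409973764) (nat_lit 174753579365) (.two (nat_lit 4194304) (nat_lit 2099133) (.one (nat_lit 2100826) .nil))),
   .two (nat_lit 4194312) (nat_lit 2424307966) (.two (nat_lit 4194305) (nat_lit 10343155607) (.one (nat_lit 2316307995) .nil)),
   .two (nat_lit 11551113224) (nat_lit 739246095) (.two (nat_lit 75497477) (nat_lit 18926796931) (.two (nat_lit 8388609) (nat_lit 19027462065) (.one (nat_lit 9934211878) .nil))),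
   .two (nat_lit 169869320) (nat_lit 10506731535) (.two (nat_lit 2097157) (nat_lit 3527409777) (.two (nat_lit 2097153) (nat_lit 10909385362) (.two (nat_lit 2097152) (nat_lit 19529729980) (.one (nat_lit 2953841566) .nil)))),
   .two (nat_lit 19532873736) (nat_lit 11593056306) (.two (nat_lit 166132187140) (nat_lit 2902458482) (.two (nat_lit 156365750273) (nat_lit 9982445454) (.one (nat_lit 1795165114) .nil))),
   .two (nat_lit 1779433480) (nat_lit 1847591147) (.two (nat_lit 605028353) (nat_lit 156533522789) (.two (nat_lit 1048576) (nat_lit 2099134) (.one (nat_lit 2100827) .nil))),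
   .two (nat_lit 1276117000) (nat_lit 2988441666) (.two (nat_lit 2097153) (nat_lit 1178600694) (.one (nat_lit 183845784477) .nil)),
   .two (nat_lit 612368392) (nat_lit 20637024322) (.two (nat_lit 8388609) (nat_lit 156968681832) (.two (nat_lit 8388608) (nat_lit 19042143025) .nil)),
   .two (nat_lit 1343225864) (nat_lit 606076978) (.two (nat_lit 605028357) (nat_lit 158144135282) (.two (nat_lit 2097153) (nat_lit 4194666) (.two (nat_lit 1048576) (nat_lit 19532876593) .nil))),
   .two (nat_lit 9934209032) (nat_lit 158176641047) (.two (nat_lit 21207449605) (nat_lit 12148801666) (.two (nat_lit 2097153) (nat_lit 19026412205) (.two (nat_lit 2097152) (nat_lit 37246470045) (.one (nat_lit 2100828) .nil)))),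
   .two (nat_lit 4194312) (nat_lit 3525312527) (.two (nat_lit 171966469) (nat_lit 9934209265) (.two (nat_lit 37748737) (nat_lit 1947205990) (.two (nat_lit 1048576) (nat_lit 11578377444) (.one (nat_lit 1052253) .nil)))),
   .two (nat_lit 3458203656) (nat_lit 18933088271) (.two (nat_lit 156372041733) (nat_lit 47582282322) (.two (nat_lit 8388608) (nat_lit 639633277) (.one (nat_lit 304089961) .nil))),
   .two (nat_lit 20705181709) (nat_lit 3028287599) (.two (nat_lit 37748737) (nat_lit 10007610185) (.one (nat_lit 8392286) .nil)),
   .two (nat_lit 185002360840) (nat_lit 184416206863) (.two (nat_lit 83886085) (nat_lit 159217877124) (.two (nat_lit 16777217) (nat_lit 10504635672) (.one (nat_lit 2100180) .nil))),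
   .two (nat_lit 9948889096) (nat_lit 165526110223) (.two (nat_lit 158144135173) (nat_lit 156548203102) (.two (nat_lit 2097152) (nat_lit 9948890354) (.one (nat_lit 16780895) .nil))),
   .two (nat_lit 183962173453) (nat_lit 343932952) (.two (nat_lit 2902458373) (nat_lit 158183981187) (.two (nat_lit 16777217) (nat_lit 1216349491) (.one (nat_lit 8392288) .nil))),
   .two (nat_lit 11479810056) (nat_lit 10336862223) (.two (nat_lit 9768534021) (nat_lit 2988441667) (.two (nat_lit 2097153) (nat_lit 4634706278) (.two (nat_lit 1048576) (nat_lit 606079746) .nil))),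
   .two (nat_lit 4194312) (nat_lit 184993972239) (.two (nat_lit 4194308) (nat_lit 1343225976) (.two (nat_lit 4194305) (nat_lit 135266983) (.two (nat_lit 8388608) (nat_lit 19093522319) (.one (nat_lit 174755679130) .nil)))),
   .two (nat_lit 9948889096) (nat_lit 20638072847) (.two (nat_lit 159217876997) (nat_lit 318767946) (.one (nat_lit 9781119149) .nil)),
   .two (nat_lit 184549384) (nat_lit 11007950986) (.two (nat_lit 2097153) (nat_lit 183928620318) (.one (nat_lit 16780899) .nil)),
   .two (nat_lit 620757000) (nat_lit 12054429711) (.two (nat_lit 184549380) (nat_lit 28764536951) (.two (nat_lit 37748737) (nat_lit 1224737842) (.two (nat_lit 8388608) (nat_lit 2353007470) .nil))),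
   .two (nat_lit 184416206861) (nat_lit 159224168515) (.two (nat_lit 2097153) (nat_lit 159257724144) (.one (nat_lit 46984596367) .nil)),
   .two (nat_lit 16777224) (nat_lit 4605345807) (.two (nat_lit 8388612) (nat_lit 285213246) (.two (nat_lit 8388608) (nat_lit 16780215) .nil)),
   .two (nat_lit 158176641037) (nat_lit 20705181722) (.two (nat_lit 1277165572) (nat_lit 11577327682) (.two (nat_lit 606076929) (nat_lit 135268142) (.one (nat_lit 21777877929) .nil))),
   .two (nat_lit 1929379848) (nat_lit 2349858930) (.two (nat_lit 605028353) (nat_lit 12129929405) .nil),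
   .two (nat_lit 205520904) (nat_lit 270532742) (.two (nat_lit 9766436865) (nat_lit 183946445441) (.two (nat_lit 2097152) (nat_lit 174685422841) (.one (nat_lit 1052260) .nil))),
   .two (nat_lit 37748744) (nat_lit 156465365101) (.two (nat_lit 2097153) (nat_lit 11577328254) (.two (nat_lit 4194304) (nat_lit 1051232) (.one (nat_lit 35654417) .nil))),
   .two (nat_lit 10519314440) (nat_lit 157038936079) (.two (nat_lit 46409973764) (nat_lit 183962173572) (.two (nat_lit 4194305) (nat_lit 4613735728) (.one (nat_lit 16780902) .nil))),
   .two (nat_lit 28806479885) (nat_lit 183848927247) (.two (nat_lit 16777220) (nat_lit 184419352689) (.two (nat_lit 37748737) (nat_lit 20753416836) (.two (nat_lit 8388608) (nat_lit 165528208625) (.one (nat_lit 4197991) .nil)))),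
   .two (nat_lit 11559501832) (nat_lit 46414168079) (.two (nat_lit 721420292) (nat_lit 18933088323) (.two (nat_lit 8388609) (nat_lit 21827158207) (.two (nat_lit 4194304) (nat_lit 1350567728) (.one (nat_lit 16780904) .nil)))),
   .two (nat_lit 4613734408) (nat_lit 184989778170) (.two (nat_lit 50331649) (nat_lit 9899606373) (.two (nat_lit 1048576) (nat_lit 11513365750) (.one (nat_lit 1052265) .nil))),
   .two (nat_lit 169869320) (nat_lit 37748990) (.two (nat_lit 9768534017) (nat_lit 169869674) (.two (nat_lit 1048576) (nat_lit 158179788627) (.one (nat_lit 2100842) .nil))),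
   .two (nat_lit 18925748232) (nat_lit 10940841999) (.two (nat_lit 270532613) (nat_lit 721420355) (.two (nat_lit 16777217) (nat_lit 158647452280) (.two (nat_lit 16777216) (nat_lit 2099139) (.one (nat_lit 2100843) .nil)))),
   .two (nat_lit 4194312) (nat_lit 159224168472) (.two (nat_lit 176160772) (nat_lit 11513364592) (.two (nat_lit 8388609) (nat_lit 1212155100) (.one (nat_lit 166129045057) .nil))),
   .two (nat_lit 4194312) (nat_lit 159224168463) (.two (nat_lit 4194308) (nat_lit 11517558903) (.two (nat_lit 8388609) (nat_lit 184419353157) (.two (nat_lit 8388608) (nat_lit 3560967031) .nil))),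
   .two (nat_lit 19596836877) (nat_lit 12054429711) (.two (nat_lit 285212677) (nat_lit 9974055594) (.two (nat_lit 16777216) (nat_lit 8391265) (.one (nat_lit 16780908) .nil))),
   .two (nat_lit 276824072) (nat_lit 10336862223) (.two (nat_lit 270532613) (nat_lit 12155093128) (.two (nat_lit 2097153) (nat_lit 13237224012) (.two (nat_lit 1048576) (nat_lit 3028288813) (.one (nat_lit 16780247) .nil)))),
   .two (nat_lit 4194312) (nat_lit 156365750287) (.two (nat_lit 16777220) (nat_lit 11510219111) (.two (nat_lit 16777216) (nat_lit 843056360) (.one (nat_lit 183848930833) .nil))),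
   .two (nat_lit 9934209032) (nat_lit 2349858930) (.two (nat_lit 2097153) (nat_lit 2316304967) (.two (nat_lit 2097152) (nat_lit 2316305625) (.one (nat_lit 1344278060) .nil))),
   .two (nat_lit 1291845640) (nat_lit 239075378) (.two (nat_lit 171966469) (nat_lit 10351542402) (.two (nat_lit 605028353) (nat_lit 46980399675) (.two (nat_lit 1048576) (nat_lit 46980400338) (.one (nat_lit 4197998) .nil)))),
   .two (nat_lit 620757000) (nat_lit 28691136527) (.two (nat_lit 184549380) (nat_lit 2954887285) (.two (nat_lit 9766436865) (nat_lit 183962174101) (.two (nat_lit 1048576) (nat_lit 136317757) .nil))),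
   .two (nat_lit 272629768) (nat_lit 11007950888) (.two (nat_lit 2889875461) (nat_lit 236978410) (.two (nat_lit 4194305) (nat_lit 28087157098) (.two (nat_lit 16777216) (nat_lit 9902752991) (.one (nat_lit 4197999) .nil)))),
   .two (nat_lit 1343225864) (nat_lit 10343153679) (.two (nat_lit 705691652) (nat_lit 3464495170) (.two (nat_lit 8388609) (nat_lit 2316304742) (.two (nat_lit 8388608) (nat_lit 21207452525) .nil))),
   .two (nat_lit 2961178632) (nat_lit 158144135183) (.two (nat_lit 2097157) (nat_lit 20644364400) (.two (nat_lit 34603009) (nat_lit 19134415433) (.two (nat_lit 1048576) (nat_lit 8390596) (.one (nat_lit 8392304) .nil)))),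
   .two (nat_lit 10506731528) (nat_lit 156969730172) (.two (nat_lit 2097153) (nat_lit 4634708152) .nil),
   .two (nat_lit 158083317768) (nat_lit 28790751272) (.two (nat_lit 11543773189) (nat_lit 47555019110) (.two (nat_lit 1048576) (nat_lit 47555019985) (.one (nat_lit 8391640) .nil))),
   .two (nat_lit 21777874952) (nat_lit 876609586) (.two (nat_lit 2097157) (nat_lit 306184308) (.two (nat_lit 2097153) (nat_lit 10338959963) (.two (nat_lit 1048576) (nat_lit 4196294) (.one (nat_lit 1052274) .nil)))),
   .two (nat_lit 11577327628) (nat_lit 1291845744) (.two (nat_lit 34603009) (nat_lit 620757832) (.one (nat_lit 822086443) .nil)),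
   .two (nat_lit 620757000) (nat_lit 10504634480) (.two (nat_lit 8388609) (nat_lit 1962935318) (.two (nat_lit 8388608) (nat_lit 9799994222) .nil)),
   .two (nat_lit 4194312) (nat_lit 46978302018) (.two (nat_lit 4194305) (nat_lit 4028629566) (.two (nat_lit 4194304) (nat_lit 10907289470) (.one (nat_lit 4598008734) .nil))),
   .two (nat_lit 620757000) (nat_lit 809500687) (.two (nat_lit 4194308) (nat_lit 9881780289) (.two (nat_lit 16777217) (nat_lit 2353005854) (.one (nat_lit 4198004) .nil))),
   .two (nat_lit 41943048) (nat_lit 183845781519) (.two (nat_lit 16777220) (nat_lit 11476664386) (.two (nat_lit 8388609) (nat_lit 672138304) (.two (nat_lit 8388608) (nat_lit 19027462719) (.one (nat_lit 8392309) .nil)))),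
   .two (nat_lit 19027460109) (nat_lit 165532401679) (.two (nat_lit 10370416645) (nat_lit 184993972344) (.two (nat_lit 2097153) (nat_lit 18933090492) .nil)),
   .two (nat_lit 205520904) (nat_lit 4605345856) (.two (nat_lit 4194305) (nat_lit 4605345983) (.two (nat_lit 1048576) (nat_lit 8389942) (.one (nat_lit 8392310) .nil))),
   .two (nat_lit 20705181709) (nat_lit 2902458434) (.two (nat_lit 37748737) (nat_lit 318769341) .nil),
   .two (nat_lit 21777874952) (nat_lit 10001317938) (.two (nat_lit 605028357) (nat_lit 21208498290) (.two (nat_lit 2097153) (nat_lit 46477083234) (.two (nat_lit 1048576) (nat_lit 4196295) (.one (nat_lit 2100855) .nil)))),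
   .two (nat_lit 272629768) (nat_lit 46978301976) (.two (nat_lit 21778923525) (nat_lit 158176641139) (.two (nat_lit 37748737) (nat_lit 156968683369) (.one (nat_lit 1051609) .nil))),
   .two (nat_lit 184416206856) (nat_lit 9766436914) (.two (nat_lit 183845781508) (nat_lit 28758245490) (.two (nat_lit 41943041) (nat_lit 156365752155) (.one (nat_lit 2954889424) .nil))),
   .two (nat_lit 169869320) (nat_lit 156971827215) (.two (nat_lit 739246085) (nat_lit 2353004671) (.two (nat_lit 34603009) (nat_lit 9969861306) (.two (nat_lit 1048576) (nat_lit 1914701756) (.one (nat_lit 1051611) .nil)))),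
   .two (nat_lit 2954887176) (nat_lit 156569174140) (.two (nat_lit 2097153) (nat_lit 1950351981) (.two (nat_lit 2097152) (nat_lit 185023334266) (.one (nat_lit 2100856) .nil))),
   .two (nat_lit 9881780232) (nat_lit 13195280399) (.two (nat_lit 8388612) (nat_lit 20719862122) (.two (nat_lit 4194304) (nat_lit 2936015709) .nil)),
   .two (nat_lit 713031688) (nat_lit 183845781545) (.two (nat_lit 605028357) (nat_lit 19530776697) (.two (nat_lit 4194305) (nat_lit 46508540549) (.two (nat_lit 1048576) (nat_lit 8391268) (.one (nat_lit 1052281) .nil)))),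
   .two (nat_lit 176160776) (nat_lit 46980399130) (.two (nat_lit 47550824453) (nat_lit 343933040) (.two (nat_lit 605028353) (nat_lit 2323645098) (.two (nat_lit 1048576) (nat_lit 8390600) (.one (nat_lit 4198010) .nil)))),
   .two (nat_lit 184993972236) (nat_lit 9802088639) (.two (nat_lit 8388608) (nat_lit 37249615652) (.one (nat_lit 4198012) .nil)),
   .two (nat_lit 276824072) (nat_lit 166132187151) (.two (nat_lit 270532613) (nat_lit 2323645057) (.two (nat_lit 2097152) (nat_lit 165532403511) (.one (nat_lit 1051615) .nil))),
   .two (nat_lit 2969567240) (nat_lit 174753579304) (.two (nat_lit 2097153) (nat_lit 16778322) (.two (nat_lit 2097152) (nat_lit 16779877) (.one (nat_lit 166211881734) .nil))),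
   .two (nat_lit 739246088) (nat_lit 158144135235) (.two (nat_lit 156364701697) (nat_lit 11007951209) (.two (nat_lit 4194304) (nat_lit 10336863463) (.one (nat_lit 2100861) .nil))),
   .two (nat_lit 11543773192) (nat_lit 28758245391) (.two (nat_lit 705691652) (nat_lit 1847591024) (.two (nat_lit 34603009) (nat_lit 1780482661) (.two (nat_lit 1048576) (nat_lit 2988442917) (.one (nat_lit 2100862) .nil)))),
   .two (nat_lit 2954887176) (nat_lit 9869197354) (.two (nat_lit 169869316) (nat_lit 12150898949) (.two (nat_lit 2097153) (nat_lit 2923430528) (.two (nat_lit 2097152) (nat_lit 4196966) (.one (nat_lit 740297583) .nil)))),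
   .two (nat_lit 156535619597) (nat_lit 28086108175) (.two (nat_lit 158143086597) (nat_lit 775946364) (.two (nat_lit 612368385) (nat_lit 159216829745) (.one (nat_lit 1052287) .nil))),
   .two (nat_lit 285212680) (nat_lit 2954887183) (.two (nat_lit 169869316) (nat_lit 2902458435) (.two (nat_lit 16777217) (nat_lit 1411384621) (.one (nat_lit 2100193) .nil))),
   .two (nat_lit 285212680) (nat_lit 3558867011) (.two (nat_lit 16777217) (nat_lit 18926798125) (.one (nat_lit 2100193) .nil)),
   .two (nat_lit 9802088460) (nat_lit 822083599) (.two (nat_lit 1916796933) (nat_lit 11626611336) (.two (nat_lit 4194304) (nat_lit 3472884989) (.one (nat_lit 16780928) .nil))),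
   .two (nat_lit 37748744) (nat_lit 19596836879) (.two (nat_lit 4194308) (nat_lit 9966714997) (.two (nat_lit 2097153) (nat_lit 135267396) (.two (nat_lit 2097152) (nat_lit 2987394957) (.one (nat_lit 184987683807) .nil)))),
   .two (nat_lit 612368392) (nat_lit 3558866968) (.two (nat_lit 176160772) (nat_lit 3558867054) (.two (nat_lit 2097153) (nat_lit 10007609535) (.two (nat_lit 2097152) (nat_lit 11484005598) (.one (nat_lit 310381492) .nil)))),
   .two (nat_lit 620757000) (nat_lit 3527409690) (.two (nat_lit 2956984325) (nat_lit 721420397) (.two (nat_lit 16777217) (nat_lit 10540287011) (.two (nat_lit 1048576) (nat_lit 4196969) (.one (nat_lit 1052289) .nil)))),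
   .two (nat_lit 705691656) (nat_lit 1753219179) (.two (nat_lit 605028353) (nat_lit 3558867640) (.two (nat_lit 2097152) (nat_lit 1343227172) (.one (nat_lit 2100866) .nil))),
   .two (nat_lit 4194312) (nat_lit 156365750287) (.two (nat_lit 16777220) (nat_lit 159217877354) (.two (nat_lit 4194304) (nat_lit 2936014099) (.one (nat_lit 2100867) .nil))),
   .two (nat_lit 169869320) (nat_lit 9781117037) (.two (nat_lit 34603009) (nat_lit 156548203132) (.two (nat_lit 2097152) (nat_lit 10015999854) (.one (nat_lit 159216831239) .nil))),
   .two (nat_lit 1175453704) (nat_lit 10506731535) (.two (nat_lit 171966469) (nat_lit 243269699) (.two (nat_lit 4194305) (nat_lit 19529728645) (.two (nat_lit 8388608) (nat_lit 1050570) (.one (nat_lit 11484007250) .nil)))),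
   .two (nat_lit 169869320) (nat_lit 156569174040) (.two (nat_lit 806354949) (nat_lit 156569174125) (.two (nat_lit 34603009) (nat_lit 10540286588) (.two (nat_lit 2097152) (nat_lit 4196970) (.one (nat_lit 1051620) .nil)))),
   .two (nat_lit 166144770061) (nat_lit 3525312527) (.two (nat_lit 16777221) (nat_lit 158647451778) (.two (nat_lit 16777217) (nat_lit 10504634725) (.two (nat_lit 4194304) (nat_lit 310379739) (.one (nat_lit 8391653) .nil)))),
   .two (nat_lit 10343153676) (nat_lit 739246095) (.two (nat_lit 28093448197) (nat_lit 47581233271) (.two (nat_lit 34603009) (nat_lit 209715828) (.two (nat_lit 4194304) (nat_lit 4631561462) (.one (nat_lit 1051622) .nil)))),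
   .two (nat_lit 4194312) (nat_lit 4647288951) (.two (nat_lit 16777217) (nat_lit 3024095103) (.one (nat_lit 4198021) .nil)),
   .two (nat_lit 184993972236) (nat_lit 3527409729) (.two (nat_lit 4194305) (nat_lit 13228835176) (.two (nat_lit 8388608) (nat_lit 4196299) (.one (nat_lit 4197352) .nil))),
   .two (nat_lit 47555018760) (nat_lit 21208498191) (.two (nat_lit 158144135173) (nat_lit 47555018816) (.two (nat_lit 606076929) (nat_lit 9940501798) (.one (nat_lit 165532404551) .nil))),
   .two (nat_lit 721420301) (nat_lit 157038936079) (.two (nat_lit 2902458373) (nat_lit 9802088559) (.two (nat_lit 4194305) (nat_lit 2969569450) .nil)),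
   .two (nat_lit 159251431436) (nat_lit 184416206863) (.two (nat_lit 203423749) (nat_lit 28086108281) (.two (nat_lit 605028353) (nat_lit 174753579369) (.two (nat_lit 1048576) (nat_lit 35652873) (.one (nat_lit 19529731037) .nil)))),
   .two (nat_lit 9934209032) (nat_lit 185023332483) (.two (nat_lit 2097153) (nat_lit 19532874972) (.one (nat_lit 10942942091) .nil)),
   .two (nat_lit 47555018760) (nat_lit 158144135234) (.two (nat_lit 606076929) (nat_lit 11618223319) (.one (nat_lit 874515368) .nil)),
   .two (nat_lit 620757000) (nat_lit 159224168463) (.two (nat_lit 184549381) (nat_lit 9772728445) (.two (nat_lit 8388609) (nat_lit 157051519635) (.two (nat_lit 8388608) (nat_lit 16779884) (.one (nat_lit 16780934) .nil)))),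
   .two (nat_lit 813694984) (nat_lit 9948889202) (.two (nat_lit 9766436865) (nat_lit 721421365) (.two (nat_lit 2097152) (nat_lit 9881783136) .nil)),
   .two (nat_lit 1276117000) (nat_lit 1291845647) (.two (nat_lit 171966469) (nat_lit 10351542402) (.two (nat_lit 9781116929) (nat_lit 3560965984) (.one (nat_lit 4198023) .nil))),
   .two (nat_lit 606076936) (nat_lit 12054429809) (.two (nat_lit 37748737) (nat_lit 807405443) (.one (nat_lit 3464498150) .nil)),
   .two (nat_lit 705691656) (nat_lit 19599982607) (.two (nat_lit 2097157) (nat_lit 1212153970) (.two (nat_lit 2097153) (nat_lit 809501316) (.two (nat_lit 1048576) (nat_lit 28691138492) (.one (nat_lit 2100202) .nil)))),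
   .two (nat_lit 166130089992) (nat_lit 156968681487) (.two (nat_lit 28757196805) (nat_lit 156533522499) (.two (nat_lit 9765388289) (nat_lit 1310720361) (.two (nat_lit 1048576) (nat_lit 706743133) .nil))),
   .two (nat_lit 4605345800) (nat_lit 47582281751) (.two (nat_lit 169869316) (nat_lit 4605345858) (.two (nat_lit 8388609) (nat_lit 156533523666) (.one (nat_lit 8392328) .nil))),
   .two (nat_lit 1343225864) (nat_lit 1277165611) (.two (nat_lit 705691652) (nat_lit 4599054469) (.two (nat_lit 16777217) (nat_lit 156566029555) (.one (nat_lit 1051627) .nil))),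
   .two (nat_lit 205520904) (nat_lit 159217877007) (.two (nat_lit 34603013) (nat_lit 184419352690) (.two (nat_lit 2097153) (nat_lit 184419353157) (.two (nat_lit 1048576) (nat_lit 4196973) (.one (nat_lit 1176505137) .nil)))),
   .two (nat_lit 157036838920) (nat_lit 1392508978) (.two (nat_lit 19530776581) (nat_lit 218103922) (.two (nat_lit 156367847425) (nat_lit 352322792) (.one (nat_lit 16780268) .nil))),
   .two (nat_lit 46414168072) (nat_lit 10940841999) (.two (nat_lit 10504634373) (nat_lit 2994733174) (.two (nat_lit 9766436865) (nat_lit 157043130981) (.two (nat_lit 2097152) (nat_lit 8390439) (.one (nat_lit 8390858) .nil)))),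
   .two (nat_lit 13195280392) (nat_lit 156971827215) (.two (nat_lit 8388612) (nat_lit 37249613935) (.two (nat_lit 4194305) (nat_lit 679477873) (.two (nat_lit 16777216) (nat_lit 18928895276) (.one (nat_lit 10519317347) .nil)))),
   .two (nat_lit 159217877000) (nat_lit 1276117018) (.two (nat_lit 18926796805) (nat_lit 3457155203) (.two (nat_lit 50331649) (nat_lit 1276118257) (.one (nat_lit 13221497775) .nil))),
   .two (nat_lit 9781116936) (nat_lit 2923429914) (.two (nat_lit 754974725) (nat_lit 739246199) (.two (nat_lit 4194305) (nat_lit 11525948050) (.two (nat_lit 4194304) (nat_lit 183928620260) (.one (nat_lit 159216831257) .nil)))),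
   .two (nat_lit 12147752973) (nat_lit 2969567247) (.two (nat_lit 218103813) (nat_lit 183912890484) (.two (nat_lit 620756993) (nat_lit 158143088833) .nil)),
   .two (nat_lit 1753219080) (nat_lit 1947205656) (.two (nat_lit 11476664324) (nat_lit 28093448304) (.two (nat_lit 34603009) (nat_lit 20644365532) (.one (nat_lit 645925828) .nil))),
   .two (nat_lit 117440520) (nat_lit 19596836879) (.two (nat_lit 183845781508) (nat_lit 2936013050) (.two (nat_lit 34603009) (nat_lit 117442748) .nil)),
   .two (nat_lit 2954887176) (nat_lit 9802088489) (.two (nat_lit 203423749) (nat_lit 306184429) (.two (nat_lit 2097153) (nat_lit 306184550) (.two (nat_lit 2097152) (nat_lit 4196300) (.one (nat_lit 156569176914) .nil)))),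
   .two (nat_lit 184416206856) (nat_lit 37314625657) (.two (nat_lit 605028353) (nat_lit 270533236) (.two (nat_lit 1048576) (nat_lit 2099822) (.one (nat_lit 1052297) .nil))),
   .two (nat_lit 47555018760) (nat_lit 13191086095) (.two (nat_lit 4194308) (nat_lit 47555018818) (.two (nat_lit 8388609) (nat_lit 2923431130) (.one (nat_lit 8392330) .nil))),
   .two (nat_lit 9768534024) (nat_lit 46473937015) (.two (nat_lit 9768534017) (nat_lit 157035790964) (.two (nat_lit 4194304) (nat_lit 157035792965) (.one (nat_lit 1343228780) .nil))),
   .two (nat_lit 620757000) (nat_lit 184993972239) (.two (nat_lit 184549380) (nat_lit 11584667756) (.two (nat_lit 16777217) (nat_lit 184989778587) (.two (nat_lit 2097152) (nat_lit 9869198570) (.one (nat_lit 4198027) .nil)))),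
   .two (nat_lit 9948889096) (nat_lit 158144135235) (.two (nat_lit 606076929) (nat_lit 1795162470) (.two (nat_lit 2097152) (nat_lit 174768261058) (.one (nat_lit 2100876) .nil))),
   .two (nat_lit 9948889096) (nat_lit 10940841999) (.two (nat_lit 166130089989) (nat_lit 1291845744) (.two (nat_lit 2097153) (nat_lit 158192370991) (.one (nat_lit 16780941) .nil))),
   .two (nat_lit 41943048) (nat_lit 2316304496) (.two (nat_lit 8388609) (nat_lit 1343227740) (.one (nat_lit 21818773308) .nil)),
   .two (nat_lit 4194312) (nat_lit 11551113342) (.two (nat_lit 4194305) (nat_lit 20737688183) (.two (nat_lit 4194304) (nat_lit 1051247) (.one (nat_lit 672140129) .nil))),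
   .two (nat_lit 713031688) (nat_lit 158143086607) (.two (nat_lit 713031685) (nat_lit 19026411656) (.two (nat_lit 34603009) (nat_lit 156472705614) (.two (nat_lit 1048576) (nat_lit 8390605) (.one (nat_lit 28690090977) .nil)))),
   .two (nat_lit 10504634376) (nat_lit 37246468137) (.two (nat_lit 9934209029) (nat_lit 12617515073) (.two (nat_lit 606076929) (nat_lit 37246470070) (.one (nat_lit 303041515) .nil))),
   .two (nat_lit 9948889100) (nat_lit 1753219186) (.two (nat_lit 50331649) (nat_lit 157043132615) .nil),
   .two (nat_lit 8388616) (nat_lit 158158815255) (.two (nat_lit 8388612) (nat_lit 889192977) (.two (nat_lit 16777217) (nat_lit 343933119) (.two (nat_lit 16777216) (nat_lit 8391280) (.one (nat_lit 8392334) .nil)))),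
   .two (nat_lit 2889875464) (nat_lit 1310720113) (.two (nat_lit 4194305) (nat_lit 10907288393) (.one (nat_lit 807406557) .nil)),
   .two (nat_lit 809500680) (nat_lit 158143086711) (.two (nat_lit 4194305) (nat_lit 9866052831) (.one (nat_lit 839912417) .nil)),
   .two (nat_lit 156372041741) (nat_lit 174753579023) (.two (nat_lit 2097157) (nat_lit 183853121602) (.two (nat_lit 34603009) (nat_lit 2323645004) (.two (nat_lit 1048576) (nat_lit 343934201) (.one (nat_lit 8392335) .nil)))),
   .two (nat_lit 10370416648) (nat_lit 3527409728) (.two (nat_lit 606076929) (nat_lit 1782580508) (.one (nat_lit 4198032) .nil)),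
   .two (nat_lit 9781116940) (nat_lit 158075977743) (.two (nat_lit 117440517) (nat_lit 158646403185) (.two (nat_lit 605028353) (nat_lit 19109250348) (.one (nat_lit 2953840842) .nil))),
   .two (nat_lit 1291845640) (nat_lit 46414168131) (.two (nat_lit 4194305) (nat_lit 20711474400) (.one (nat_lit 46414170951) .nil)),
   .two (nat_lit 10385096712) (nat_lit 1384120363) (.two (nat_lit 713031685) (nat_lit 83886381) (.two (nat_lit 8388609) (nat_lit 156984410743) (.two (nat_lit 1048576) (nat_lit 721421601) (.one (nat_lit 8392337) .nil)))),
   .two (nat_lit 620757000) (nat_lit 18926796933) (.two (nat_lit 2097153) (nat_lit 352322122) (.two (nat_lit 1048576) (nat_lit 21778924787) (.one (nat_lit 2100883) .nil))),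
   .two (nat_lit 16777224) (nat_lit 641728562) (.two (nat_lit 16777220) (nat_lit 19599982706) (.two (nat_lit 16777217) (nat_lit 3527410751) (.two (nat_lit 8388608) (nat_lit 12129928496) (.one (nat_lit 4198036) .nil)))),
   .two (nat_lit 1343225864) (nat_lit 165526110223) (.two (nat_lit 705691652) (nat_lit 46508540165) (.two (nat_lit 34603009) (nat_lit 2954888997) (.one (nat_lit 10335815853) .nil))),
   .two (nat_lit 822083592) (nat_lit 1779433487) (.two (nat_lit 101711877) (nat_lit 156567077165) (.two (nat_lit 16777217) (nat_lit 21812478589) (.two (nat_lit 2097152) (nat_lit 156968684396) .nil))),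
   .two (nat_lit 8388616) (nat_lit 843055130) (.two (nat_lit 4194308) (nat_lit 4605345900) (.two (nat_lit 4194305) (nat_lit 1350566564) (.two (nat_lit 4194304) (nat_lit 8390607) (.one (nat_lit 1210059622) .nil)))),
   .two (nat_lit 1779433480) (nat_lit 19130220568) (.two (nat_lit 11479810052) (nat_lit 158176641137) (.two (nat_lit 9765388289) (nat_lit 13191087997) (.one (nat_lit 9933163430) .nil))),
   .two (nat_lit 8388616) (nat_lit 1325400114) (.two (nat_lit 620756997) (nat_lit 880804031) (.two (nat_lit 16777216) (nat_lit 185027528480) (.one (nat_lit 8392341) .nil))),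
   .two (nat_lit 50331656) (nat_lit 19532873743) (.two (nat_lit 3525312517) (nat_lit 10506731638) (.two (nat_lit 2097153) (nat_lit 10452206816) (.one (nat_lit 16780950) .nil))),
   .two (nat_lit 203423752) (nat_lit 18928893967) (.two (nat_lit 2887778308) (nat_lit 183848927298) (.two (nat_lit 37748737) (nat_lit 1377829513) (.two (nat_lit 8388608) (nat_lit 18928896915) .nil))),
   .two (nat_lit 8388616) (nat_lit 47582281751) (.two (nat_lit 176160773) (nat_lit 47582281835) (.two (nat_lit 41943041) (nat_lit 158077026989) (.two (nat_lit 8388608) (nat_lit 174753580957) (.one (nat_lit 8391664) .nil)))),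
   .two (nat_lit 101711880) (nat_lit 10370416683) (.two (nat_lit 11476664324) (nat_lit 304087173) (.two (nat_lit 50331649) (nat_lit 20738737427) (.one (nat_lit 2100209) .nil))),
   .two (nat_lit 184549384) (nat_lit 20704133143) (.two (nat_lit 16777221) (nat_lit 37313577198) (.two (nat_lit 16777217) (nat_lit 2316304955) (.two (nat_lit 4194304) (nat_lit 2316305618) (.one (nat_lit 4198039) .nil)))),
   .two (nat_lit 1343225869) (nat_lit 10504634383) (.two (nat_lit 2954887173) (nat_lit 873463941) (.two (nat_lit 4194305) (nat_lit 873465132) (.one (nat_lit 2100888) .nil))),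
   .two (nat_lit 2969567244) (nat_lit 19599982607) (.two (nat_lit 184549381) (nat_lit 156971827315) (.two (nat_lit 16777217) (nat_lit 28693234248) (.two (nat_lit 4194304) (nat_lit 166211880214) (.one (nat_lit 4198041) .nil)))),
   .two (nat_lit 2889875464) (nat_lit 639631375) (.two (nat_lit 2954887173) (nat_lit 21814575235) (.two (nat_lit 2097153) (nat_lit 47550824807) (.two (nat_lit 2097152) (nat_lit 3560965352) (.one (nat_lit 3560967719) .nil)))),
   .two (nat_lit 12047089672) (nat_lit 28758245490) (.two (nat_lit 34603009) (nat_lit 19027460679) (.two (nat_lit 1048576) (nat_lit 10538191018) .nil)),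
   .two (nat_lit 68157448) (nat_lit 174753579023) (.two (nat_lit 4194308) (nat_lit 28691136636) (.two (nat_lit 4194305) (nat_lit 3458204234) (.two (nat_lit 1048576) (nat_lit 2099152) (.one (nat_lit 159219977183) .nil)))),
   .two (nat_lit 37748744) (nat_lit 184993972332) (.two (nat_lit 4194305) (nat_lit 21208500094) (.one (nat_lit 2100211) .nil)),
   .two (nat_lit 2954887176) (nat_lit 158143086607) (.two (nat_lit 169869316) (nat_lit 158646403187) (.two (nat_lit 2097153) (nat_lit 12047090978) (.one (nat_lit 1051636) .nil))),
   .two (nat_lit 184549384) (nat_lit 20644364303) (.two (nat_lit 159224168453) (nat_lit 185002361438) (.two (nat_lit 8388608) (nat_lit 159232560052) .nil)),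
   .two (nat_lit 620757004) (nat_lit 19596836879) (.two (nat_lit 9948889093) (nat_lit 12617515121) (.two (nat_lit 34603009) (nat_lit 19042141485) (.one (nat_lit 47581236189) .nil))),
   .two (nat_lit 705691656) (nat_lit 1212153880) (.two (nat_lit 806354949) (nat_lit 1212153965) (.two (nat_lit 2097153) (nat_lit 138412668) (.two (nat_lit 1048576) (nat_lit 4196978) (.one (nat_lit 1052315) .nil)))),
   .two (nat_lit 606076936) (nat_lit 10369368090) (.two (nat_lit 9933160453) (nat_lit 1310720138) (.two (nat_lit 2097153) (nat_lit 9765388981) (.two (nat_lit 4194304) (nat_lit 9867101472) (.one (nat_lit 2100892) .nil)))),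
   .two (nat_lit 9881780232) (nat_lit 183845781519) (.two (nat_lit 2097157) (nat_lit 11559502015) (.two (nat_lit 1048576) (nat_lit 9814672608) (.one (nat_lit 16780957) .nil))),
   .two (nat_lit 620757000) (nat_lit 12147752983) (.two (nat_lit 9933160453) (nat_lit 352321603) (.two (nat_lit 4194305) (nat_lit 11510219397) (.two (nat_lit 16777216) (nat_lit 3557820362) (.one (nat_lit 16780278) .nil)))),
   .two (nat_lit 809500680) (nat_lit 4605345857) (.two (nat_lit 4194305) (nat_lit 9974056829) (.one (nat_lit 157043133337) .nil)),
   .two (nat_lit 2954887176) (nat_lit 9768534031) (.two (nat_lit 203423749) (nat_lit 46510637122) (.two (nat_lit 4194305) (nat_lit 9766437498) (.two (nat_lit 4194304) (nat_lit 2099827) (.one (nat_lit 1749027769) .nil)))),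
   .two (nat_lit 41943048) (nat_lit 3573547032) (.two (nat_lit 713031684) (nat_lit 183845781641) (.two (nat_lit 16777217) (nat_lit 847250658) (.one (nat_lit 8392350) .nil))),
   .two (nat_lit 18925748232) (nat_lit 3558866990) (.two (nat_lit 2097157) (nat_lit 2902458434) (.two (nat_lit 2097153) (nat_lit 1929380439) (.two (nat_lit 2097152) (nat_lit 10552870817) (.one (nat_lit 16780959) .nil)))),
   .two (nat_lit 612368392) (nat_lit 840958262) (.two (nat_lit 50331649) (nat_lit 639632200) (.one (nat_lit 813697816) .nil)),
   .two (nat_lit 8388616) (nat_lit 28806479898) (.two (nat_lit 218103813) (nat_lit 10007609535) (.two (nat_lit 16777216) (nat_lit 8391284) (.one (nat_lit 8392352) .nil))),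
   .two (nat_lit 606076936) (nat_lit 285212736) (.two (nat_lit 16777217) (nat_lit 20638073418) (.two (nat_lit 4194304) (nat_lit 352324532) .nil)),
   .two (nat_lit 620757000) (nat_lit 2319450154) (.two (nat_lit 612368389) (nat_lit 806355609) (.two (nat_lit 1048576) (nat_lit 46409975594) (.one (nat_lit 4198049) .nil))),
   .two (nat_lit 9768534024) (nat_lit 1753219087) (.two (nat_lit 2889875460) (nat_lit 12054429761) (.two (nat_lit 4194305) (nat_lit 713032974) (.one (nat_lit 8392354) .nil))),
   .two (nat_lit 1779433480) (nat_lit 12633243690) (.two (nat_lit 184549380) (nat_lit 9866051941) (.two (nat_lit 16777216) (nat_lit 19093522223) (.one (nat_lit 1052323) .nil))),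
   .two (nat_lit 2902458376) (nat_lit 158077026330) (.two (nat_lit 2097157) (nat_lit 16777281) (.two (nat_lit 2097153) (nat_lit 184550048) (.two (nat_lit 16777216) (nat_lit 174752531756) (.one (nat_lit 10336865207) .nil)))),
   .two (nat_lit 176160776) (nat_lit 218103823) (.two (nat_lit 8388613) (nat_lit 11492393082) (.two (nat_lit 2097153) (nat_lit 156548203818) (.one (nat_lit 16780280) .nil))),
   .two (nat_lit 705691656) (nat_lit 19599982607) (.two (nat_lit 2097157) (nat_lit 1212153970) (.two (nat_lit 2097153) (nat_lit 809501316) (.two (nat_lit 2097152) (nat_lit 4196981) (.one (nat_lit 2100202) .nil)))),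
   .two (nat_lit 156372041736) (nat_lit 28693233688) (.two (nat_lit 2889875460) (nat_lit 18933088368) (.two (nat_lit 4194305) (nat_lit 18933088836) (.two (nat_lit 4194304) (nat_lit 3028288805) (.one (nat_lit 8392356) .nil)))),
   .two (nat_lit 713031688) (nat_lit 4028629015) (.two (nat_lit 713031684) (nat_lit 156533522670) (.two (nat_lit 41943041) (nat_lit 10538189371) (.two (nat_lit 4194304) (nat_lit 10538190034) (.one (nat_lit 8392357) .nil)))),
   .two (nat_lit 822083592) (nat_lit 28693233679) (.two (nat_lit 16777220) (nat_lit 156468510831) (.two (nat_lit 612368385) (nat_lit 20753416828) (.two (nat_lit 8388608) (nat_lit 1178600748) (.one (nat_lit 8391673) .nil)))),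
   .two (nat_lit 742391816) (nat_lit 3464495170) (.two (nat_lit 2097153) (nat_lit 12155094240) (.one (nat_lit 8392359) .nil)),
   .two (nat_lit 2902458376) (nat_lit 1310720024) (.two (nat_lit 2969567237) (nat_lit 1310720109) (.two (nat_lit 2097153) (nat_lit 1325402003) (.one (nat_lit 16780968) .nil))),
   .two (nat_lit 50331656) (nat_lit 46406828074) (.two (nat_lit 9881780229) (nat_lit 2349858954) (.two (nat_lit 605028353) (nat_lit 620757183) (.two (nat_lit 1048576) (nat_lit 1358955762) (.one (nat_lit 16780969) .nil)))),
   .two (nat_lit 4601151496) (nat_lit 19596836879) (.two (nat_lit 4194308) (nat_lit 2416967788) (.two (nat_lit 4194305) (nat_lit 37246468673) (.two (nat_lit 4194304) (nat_lit 37246469334) (.one (nat_lit 46507494958) .nil)))),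
   .two (nat_lit 880803852) (nat_lit 11614027907) (.two (nat_lit 41943041) (nat_lit 2923431153) (.one (nat_lit 11479812931) .nil)),
   .two (nat_lit 176160776) (nat_lit 11578376309) (.two (nat_lit 8388609) (nat_lit 2317353320) (.two (nat_lit 8388608) (nat_lit 2099155) (.one (nat_lit 2100219) .nil))),
   .two (nat_lit 3525312520) (nat_lit 1413480494) (.two (nat_lit 4194308) (nat_lit 157036839103) (.two (nat_lit 4194304) (nat_lit 174686471375) (.one (nat_lit 2100906) .nil))),
   .two (nat_lit 41943048) (nat_lit 68157455) (.two (nat_lit 4194308) (nat_lit 47555018875) (.two (nat_lit 8388609) (nat_lit 2953840522) (.one (nat_lit 184423549856) .nil))),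
   .two (nat_lit 4194312) (nat_lit 236978199) (.two (nat_lit 4194308) (nat_lit 337641598) (.two (nat_lit 4194305) (nat_lit 236978748) (.two (nat_lit 4194304) (nat_lit 2099831) (.one (nat_lit 1052331) .nil)))),
   .two (nat_lit 41943048) (nat_lit 183949590574) (.two (nat_lit 8388612) (nat_lit 4030726262) (.two (nat_lit 4194305) (nat_lit 209716526) (.one (nat_lit 8392364) .nil))),
   .two (nat_lit 205520904) (nat_lit 4605345856) (.two (nat_lit 4194305) (nat_lit 4638901496) (.one (nat_lit 8392365) .nil)),
   .two (nat_lit 8388616) (nat_lit 236978201) (.two (nat_lit 176160773) (nat_lit 2097464) (.two (nat_lit 8388609) (nat_lit 1277166197) (.two (nat_lit 1048576) (nat_lit 8390597) (.one (nat_lit 1052334) .nil)))),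
   .two (nat_lit 41943048) (nat_lit 1745879055) (.two (nat_lit 713031685) (nat_lit 11577327848) (.two (nat_lit 8388609) (nat_lit 4027581037) (.two (nat_lit 2097152) (nat_lit 75498788) (.one (nat_lit 4034923300) .nil)))),
   .two (nat_lit 654311432) (nat_lit 157036838927) (.two (nat_lit 46407876612) (nat_lit 9781117039) (.two (nat_lit 2097153) (nat_lit 166245434637) (.one (nat_lit 16780975) .nil))),
   .two (nat_lit 1291845640) (nat_lit 1277165687) (.two (nat_lit 2097153) (nat_lit 9781118170) (.one (nat_lit 16780976) .nil)),
   .two (nat_lit 156569174028) (nat_lit 158075977743) (.two (nat_lit 1343225861) (nat_lit 19130220660) (.two (nat_lit 9765388289) (nat_lit 13224641752) (.one (nat_lit 2353006772) .nil))),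
   .two (nat_lit 654311432) (nat_lit 3458203663) (.two (nat_lit 4599054341) (nat_lit 10385096819) (.two (nat_lit 2097153) (nat_lit 13237224033) (.two (nat_lit 2097152) (nat_lit 303040407) (.one (nat_lit 1052337) .nil)))),
   .two (nat_lit 8388616) (nat_lit 11559501839) (.two (nat_lit 721420292) (nat_lit 343933119) (.two (nat_lit 16777216) (nat_lit 8390613) (.one (nat_lit 1417677639) .nil))),
   .two (nat_lit 156481093642) (nat_lit 9934209039) (.two (nat_lit 9934209032) (nat_lit 822083603) (.two (nat_lit 184549381) (nat_lit 159251431532) (.two (nat_lit 16777217) (nat_lit 10504634564) (.two (nat_lit 16777216) (nat_lit 2098521) (.one (nat_lit 2100290) .nil))))),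
   .two (nat_lit 12054429704) (nat_lit 174752530447) (.two (nat_lit 158075977733) (nat_lit 28093448259) (.two (nat_lit 34603009) (nat_lit 8389689) (.two (nat_lit 1048576) (nat_lit 8389483) (.one (nat_lit 8392385) .nil)))),
   .two (nat_lit 158143086600) (nat_lit 11559501839) (.two (nat_lit 1276116996) (nat_lit 754974787) (.two (nat_lit 9765388289) (nat_lit 166245433998) (.two (nat_lit 1048576) (nat_lit 16778589) (.one (nat_lit 16780361) .nil)))),
   .two (nat_lit 11014242313) (nat_lit 165526110223) (.two (nat_lit 184989777927) (nat_lit 9940500502) (.two (nat_lit 9873391621) (nat_lit 673185904) (.two (nat_lit 37748737) (nat_lit 1277166250) (.two (nat_lit 4194304) (nat_lit 156466414819) (.one (nat_lit 2100930) .nil))))),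
   .two (nat_lit 157036838920) (nat_lit 2332033066) (.two (nat_lit 46407876612) (nat_lit 47596961910) (.two (nat_lit 2097153) (nat_lit 855638701) (.two (nat_lit 2097152) (nat_lit 16779853) (.one (nat_lit 16780362) .nil)))),
   .two (nat_lit 339738633) (nat_lit 2902458383) (.two (nat_lit 9781116935) (nat_lit 1950351382) (.two (nat_lit 10506731525) (nat_lit 285212739) (.two (nat_lit 9768534017) (nat_lit 855638623) (.two (nat_lit 4194304) (nat_lit 1325401389) (.one (nat_lit 16780995) .nil))))),
   .two (nat_lit 184549384) (nat_lit 21785214991) (.two (nat_lit 713031684) (nat_lit 83886147) (.two (nat_lit 41943041) (nat_lit 185002361439) (.two (nat_lit 8388608) (nat_lit 11593057558) (.one (nat_lit 16780364) .nil)))),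
   .two (nat_lit 184416206856) (nat_lit 28693233679) (.two (nat_lit 12114198533) (nat_lit 239075453) (.two (nat_lit 34603009) (nat_lit 4194682) (.two (nat_lit 1048576) (nat_lit 4196425) (.one (nat_lit 4198084) .nil)))),
   .two (nat_lit 9866051592) (nat_lit 19599982607) (.two (nat_lit 101711877) (nat_lit 9869197431) (.two (nat_lit 9765388289) (nat_lit 185023332980) (.two (nat_lit 1048576) (nat_lit 4196426) (.one (nat_lit 1052342) .nil)))),
   .two (nat_lit 156971827213) (nat_lit 28757196815) (.two (nat_lit 156367847429) (nat_lit 185020186744) (.two (nat_lit 8388609) (nat_lit 156569174650) (.two (nat_lit 8388608) (nat_lit 28086109462) (.one (nat_lit 1051687) .nil)))),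
   .two (nat_lit 4194312) (nat_lit 157036838927) (.two (nat_lit 4194308) (nat_lit 1277165687) (.two (nat_lit 37748737) (nat_lit 1277166224) (.two (nat_lit 4194304) (nat_lit 35652431) (.one (nat_lit 336595994) .nil)))),
   .two (nat_lit 1276117000) (nat_lit 11559501839) (.two (nat_lit 1276116996) (nat_lit 2936012917) (.two (nat_lit 4194305) (nat_lit 3539993300) (.two (nat_lit 1048576) (nat_lit 159266111958) (.one (nat_lit 4198066) .nil)))),
   .two (nat_lit 37748744) (nat_lit 12054429711) (.two (nat_lit 184993972229) (nat_lit 28793897091) (.two (nat_lit 4194305) (nat_lit 46474985833) (.two (nat_lit 4194304) (nat_lit 3458204895) (.one (nat_lit 2100308) .nil)))),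
   .two (nat_lit 46407876616) (nat_lit 20644364328) (.two (nat_lit 9765388293) (nat_lit 12115247223) (.two (nat_lit 8388609) (nat_lit 47548727882) (.two (nat_lit 1048576) (nat_lit 2098532) (.one (nat_lit 2100933) .nil)))),
   .two (nat_lit 713031688) (nat_lit 10336862223) (.two (nat_lit 612368389) (nat_lit 706740343) (.two (nat_lit 612368385) (nat_lit 337642100) (.two (nat_lit 8388608) (nat_lit 2099277) (.one (nat_lit 8392390) .nil)))),
   .two (nat_lit 713031686) (nat_lit 47548727311) (.two (nat_lit 47548727304) (nat_lit 713031691) (.two (nat_lit 713031682) (nat_lit 47582281841) (.two (nat_lit 713031684) (nat_lit 9766436934) (.two (nat_lit 41943041) (nat_lit 47582281920) (.two (nat_lit 8388608) (nat_lit 10907288421) (.one (nat_lit 2100316) .nil)))))),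
   .two (nat_lit 20753416205) (nat_lit 11543773199) (.two (nat_lit 1291845637) (nat_lit 605028430) (.two (nat_lit 1291845637) (nat_lit 235929683) (.two (nat_lit 16777217) (nat_lit 10436477304) (.two (nat_lit 16777216) (nat_lit 4196433) (.one (nat_lit 4198087) .nil))))),
   .two (nat_lit 1358954508) (nat_lit 176160783) (.two (nat_lit 16777221) (nat_lit 1417674819) (.two (nat_lit 16777217) (nat_lit 41943136) (.two (nat_lit 16777216) (nat_lit 8390738) (.one (nat_lit 8392392) .nil)))),
   .two (nat_lit 37748744) (nat_lit 1913651215) (.two (nat_lit 4194308) (nat_lit 158075977847) (.two (nat_lit 4194305) (nat_lit 158075978384) (.two (nat_lit 2097152) (nat_lit 1050707) (.one (nat_lit 35654682) .nil)))),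
   .two (nat_lit 183928619017) (nat_lit 183916036139) (.two (nat_lit 4613734407) (nat_lit 28693233679) (.two (nat_lit 16777221) (nat_lit 742391932) (.two (nat_lit 605028353) (nat_lit 843055480) (.two (nat_lit 1048576) (nat_lit 4196423) (.one (nat_lit 16780384) .nil))))),
   .two (nat_lit 46407876616) (nat_lit 183949590547) (.two (nat_lit 28693233669) (nat_lit 1377828981) (.two (nat_lit 37748737) (nat_lit 19027460193) (.two (nat_lit 1048576) (nat_lit 19027460313) (.one (nat_lit 2100321) .nil)))),
   .two (nat_lit 46978301960) (nat_lit 339738668) (.two (nat_lit 3525312517) (nat_lit 156468510841) (.two (nat_lit 2097153) (nat_lit 10338960082) (.two (nat_lit 4194304) (nat_lit 2097622) (.one (nat_lit 4198090) .nil)))),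
   .two (nat_lit 272629768) (nat_lit 46414168079) (.two (nat_lit 4194308) (nat_lit 2365587580) (.two (nat_lit 4194305) (nat_lit 8389692) (.two (nat_lit 8388608) (nat_lit 138412879) (.one (nat_lit 8392395) .nil)))),
   .two (nat_lit 1846542349) (nat_lit 18928893967) (.two (nat_lit 183848927236) (nat_lit 4598005904) (.two (nat_lit 638582789) (nat_lit 11010048037) (.two (nat_lit 8388609) (nat_lit 158649549172) (.two (nat_lit 8388608) (nat_lit 28690089452) (.one (nat_lit 1052179) .nil))))),
   .two (nat_lit 1343225864) (nat_lit 21208498191) (.two (nat_lit 705691652) (nat_lit 10940842051) (.two (nat_lit 605028353) (nat_lit 2097840) (.two (nat_lit 1048576) (nat_lit 2098537) (.one (nat_lit 1052675) .nil)))),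
   .two (nat_lit 4194310) (nat_lit 157036838927) (.two (nat_lit 157036838919) (nat_lit 4194315) (.two (nat_lit 4194306) (nat_lit 174686470259) (.two (nat_lit 4194308) (nat_lit 2350907429) (.two (nat_lit 4194305) (nat_lit 3021996230) (.two (nat_lit 4194304) (nat_lit 2098042) (.one (nat_lit 2100940) .nil)))))),
   .two (nat_lit 165525061640) (nat_lit 306184238) (.two (nat_lit 101711877) (nat_lit 239075367) (.two (nat_lit 11479810051) (nat_lit 2987393279) (.two (nat_lit 9765388289) (nat_lit 16777951) (.two (nat_lit 16777216) (nat_lit 1050708) (.one (nat_lit 16780386) .nil))))),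
   .two (nat_lit 713031686) (nat_lit 12047089679) (.two (nat_lit 12047089672) (nat_lit 713031691) (.two (nat_lit 713031684) (nat_lit 11577327683) (.two (nat_lit 41943041) (nat_lit 18925748586) (.two (nat_lit 8388608) (nat_lit 184416207340) (.one (nat_lit 1050965) .nil))))),
   .two (nat_lit 47555018759) (nat_lit 21208498191) (.two (nat_lit 176160771) (nat_lit 1344274500) (.two (nat_lit 8388609) (nat_lit 11544821799) (.two (nat_lit 8388608) (nat_lit 1411384860) (.one (nat_lit 1411384860) .nil)))),
   .two (nat_lit 159217877000) (nat_lit 12054429707) (.two (nat_lit 183853121540) (nat_lit 158647451685) (.two (nat_lit 183853121540) (nat_lit 47582281747) (.two (nat_lit 41943041) (nat_lit 69206114) (.two (nat_lit 8388608) (nat_lit 1948254431) (.one (nat_lit 47582285193) .nil))))),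
   .two (nat_lit 37748744) (nat_lit 10939793423) (.two (nat_lit 9934209029) (nat_lit 10436477037) (.two (nat_lit 37748737) (nat_lit 183946445450) (.two (nat_lit 2097152) (nat_lit 1312819275) (.one (nat_lit 4197478) .nil)))),
   .two (nat_lit 1291845638) (nat_lit 9899606042) (.two (nat_lit 1291845640) (nat_lit 13191086099) (.two (nat_lit 739246085) (nat_lit 159232557191) (.two (nat_lit 16777217) (nat_lit 19130220920) (.two (nat_lit 1048576) (nat_lit 4195201) (.one (nat_lit 16780391) .nil))))),
   .two (nat_lit 9766436872) (nat_lit 4634705937) (.two (nat_lit 41943047) (nat_lit 606076943) (.two (nat_lit 2887778308) (nat_lit 339738763) (.two (nat_lit 2887778307) (nat_lit 339739143) (.two (nat_lit 4194305) (nat_lit 35652313) (.two (nat_lit 8388608) (nat_lit 169871429) (.one (nat_lit 2100942) .nil)))))),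
   .two (nat_lit 2969567240) (nat_lit 28691136523) (.two (nat_lit 20638072834) (nat_lit 16777364) (.two (nat_lit 184549381) (nat_lit 1780482067) (.two (nat_lit 156365750273) (nat_lit 16777598) (.two (nat_lit 2097152) (nat_lit 16778115) (.one (nat_lit 2100943) .nil))))),
   .two (nat_lit 705691654) (nat_lit 184419352602) (.two (nat_lit 37748744) (nat_lit 183946444819) (.two (nat_lit 28690087941) (nat_lit 37748871) (.two (nat_lit 2097153) (nat_lit 19532874104) (.two (nat_lit 2097152) (nat_lit 1050711) (.one (nat_lit 4197487) .nil))))),
   .two (nat_lit 37247516681) (nat_lit 10007609384) (.two (nat_lit 3558866957) (nat_lit 11618222099) (.two (nat_lit 3458203653) (nat_lit 10007609458) (.two (nat_lit 2097153) (nat_lit 47588573381) (.two (nat_lit 2097152) (nat_lit 8389511) (.one (nat_lit 20711476082) .nil))))),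
   .two (nat_lit 184986632200) (nat_lit 156466413592) (.two (nat_lit 705691652) (nat_lit 2097226) (.two (nat_lit 705691652) (nat_lit 9799991318) (.two (nat_lit 605028353) (nat_lit 10907287934) (.two (nat_lit 1048576) (nat_lit 18926797691) (.one (nat_lit 2100944) .nil))))),
   .two (nat_lit 156372041736) (nat_lit 272629771) (.two (nat_lit 4194308) (nat_lit 156372041839) (.two (nat_lit 4194305) (nat_lit 183853121633) (.two (nat_lit 4194304) (nat_lit 183853121753) (.one (nat_lit 11517559755) .nil)))),
   .two (nat_lit 4601151496) (nat_lit 12054429715) (.two (nat_lit 156372041733) (nat_lit 4030726181) (.two (nat_lit 4194308) (nat_lit 12054429715) (.two (nat_lit 41943041) (nat_lit 171966562) (.two (nat_lit 8388608) (nat_lit 742392290) (.one (nat_lit 4198097) .nil))))),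
   .two (nat_lit 4601151496) (nat_lit 1753219087) (.two (nat_lit 12054429701) (nat_lit 46980399214) (.two (nat_lit 41943041) (nat_lit 339738822) (.two (nat_lit 8388608) (nat_lit 4195696) (.one (nat_lit 4198079) .nil)))),
   .two (nat_lit 9802088460) (nat_lit 285212687) (.two (nat_lit 1916796933) (nat_lit 16777282) (.two (nat_lit 9768534017) (nat_lit 16777407) (.two (nat_lit 2097152) (nat_lit 4613735669) (.one (nat_lit 16780408) .nil)))),
   .two (nat_lit 4601151496) (nat_lit 157036838927) (.two (nat_lit 46409973765) (nat_lit 174686470259) (.two (nat_lit 4194305) (nat_lit 3021996230) (.two (nat_lit 4194304) (nat_lit 2098042) (.one (nat_lit 2100946) .nil)))),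
   .two (nat_lit 68157448) (nat_lit 28093448207) (.two (nat_lit 605028357) (nat_lit 1753219184) (.two (nat_lit 34603009) (nat_lit 176161450) (.two (nat_lit 1048576) (nat_lit 8390005) (.one (nat_lit 8392403) .nil)))),
   .two (nat_lit 11559501832) (nat_lit 46414168079) (.two (nat_lit 721420292) (nat_lit 13195280418) (.two (nat_lit 721420292) (nat_lit 4605345827) (.two (nat_lit 50331649) (nat_lit 13195280480) (.two (nat_lit 8388608) (nat_lit 19612567624) (.one (nat_lit 16781012) .nil))))),
   .two (nat_lit 1929379849) (nat_lit 11543773199) (.two (nat_lit 158158815239) (nat_lit 11543773199) (.two (nat_lit 1291845637) (nat_lit 47547678845) (.two (nat_lit 16777217) (nat_lit 10436477304) (.two (nat_lit 16777216) (nat_lit 1050712) (.one (nat_lit 4198101) .nil))))),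
   .two (nat_lit 705691654) (nat_lit 1178599439) (.two (nat_lit 11479810056) (nat_lit 11577327635) (.two (nat_lit 705691650) (nat_lit 183949590594) (.two (nat_lit 705691652) (nat_lit 156535619621) (.two (nat_lit 34603009) (nat_lit 272629854) (.two (nat_lit 1048576) (nat_lit 272630239) (.one (nat_lit 4198102) .nil)))))),
   .two (nat_lit 1277165574) (nat_lit 1279262765) (.two (nat_lit 272629768) (nat_lit 10538188822) (.two (nat_lit 2902458373) (nat_lit 9934209136) (.two (nat_lit 16777217) (nat_lit 9936306537) (.two (nat_lit 16777216) (nat_lit 3560964996) (.one (nat_lit 4198103) .nil))))),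
   .two (nat_lit 3458203656) (nat_lit 276824114) (.two (nat_lit 47555018757) (nat_lit 1176502403) (.two (nat_lit 156365750273) (nat_lit 1049662) (.two (nat_lit 2097152) (nat_lit 166196151124) (.one (nat_lit 1050993) .nil)))),
   .two (nat_lit 4194312) (nat_lit 156372041743) (.two (nat_lit 4194308) (nat_lit 813695113) (.two (nat_lit 4194305) (nat_lit 13221494988) (.two (nat_lit 1048576) (nat_lit 183920231279) (.one (nat_lit 8392408) .nil)))),
   .two (nat_lit 156367847432) (nat_lit 47588573234) (.two (nat_lit 156367847429) (nat_lit 166203490599) (.two (nat_lit 41943041) (nat_lit 21777875317) (.two (nat_lit 8388608) (nat_lit 1050714) (.one (nat_lit 1052377) .nil)))),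
   .two (nat_lit 21207449608) (nat_lit 19532873747) (.two (nat_lit 20637024258) (nat_lit 4194644) (.two (nat_lit 158143086597) (nat_lit 19532873747) (.two (nat_lit 156364701697) (nat_lit 3527409872) (.two (nat_lit 1048576) (nat_lit 159219974620) (.one (nat_lit 1052378) .nil))))),
   .two (nat_lit 3527409672) (nat_lit 21785215022) (.two (nat_lit 46409973764) (nat_lit 13228835075) (.two (nat_lit 156367847425) (nat_lit 8389346) (.two (nat_lit 4194304) (nat_lit 8390012) (.one (nat_lit 4197508) .nil)))),
   .two (nat_lit 169869318) (nat_lit 3527409679) (.two (nat_lit 3527409672) (nat_lit 47548727307) (.two (nat_lit 169869316) (nat_lit 46980399171) (.two (nat_lit 2097153) (nat_lit 12117344617) (.two (nat_lit 2097152) (nat_lit 156468511620) (.one (nat_lit 4197509) .nil))))),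
   .two (nat_lit 169869318) (nat_lit 184993972264) (.two (nat_lit 2954887176) (nat_lit 18933088275) (.two (nat_lit 28093448197) (nat_lit 47582281794) (.two (nat_lit 41943041) (nat_lit 158177689806) (.two (nat_lit 8388608) (nat_lit 2954887647) (.one (nat_lit 2100955) .nil))))),
   .two (nat_lit 1175453705) (nat_lit 158144135183) (.two (nat_lit 10939793413) (nat_lit 158144135234) (.two (nat_lit 605028353) (nat_lit 174753579105) (.two (nat_lit 1048576) (nat_lit 174753579225) (.one (nat_lit 2099575) .nil)))),
   .two (nat_lit 13191086088) (nat_lit 1913651215) (.two (nat_lit 183848927237) (nat_lit 156465365107) (.two (nat_lit 4194305) (nat_lit 705691846) (.two (nat_lit 4194304) (nat_lit 1049982) (.one (nat_lit 1052381) .nil)))),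
   .two (nat_lit 4194310) (nat_lit 10343153679) (.two (nat_lit 46414168072) (nat_lit 272629771) (.two (nat_lit 4194308) (nat_lit 165532401776) (.two (nat_lit 4194305) (nat_lit 20644364872) (.two (nat_lit 4194304) (nat_lit 159224168939) (.one (nat_lit 310380052) .nil))))),
   .two (nat_lit 9781116935) (nat_lit 2954887183) (.two (nat_lit 9781116931) (nat_lit 639631394) (.two (nat_lit 9781116929) (nat_lit 159251431462) (.two (nat_lit 16777216) (nat_lit 166230753502) (.one (nat_lit 2098781) .nil)))),
   .two (nat_lit 10001317897) (nat_lit 166132187151) (.two (nat_lit 28758245381) (nat_lit 10506731587) (.two (nat_lit 50331649) (nat_lit 3527410022) (.two (nat_lit 4194304) (nat_lit 16779159) (.one (nat_lit 16780428) .nil)))),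
   .two (nat_lit 46409973768) (nat_lit 18933088296) (.two (nat_lit 4601151493) (nat_lit 37320917266) (.two (nat_lit 8388609) (nat_lit 4195392) (.two (nat_lit 8388608) (nat_lit 4197102) (.one (nat_lit 4198110) .nil)))),
   .two (nat_lit 739246095) (nat_lit 20644364303) (.two (nat_lit 739246088) (nat_lit 159224168515) (.two (nat_lit 21785214981) (nat_lit 135266665) (.two (nat_lit 34603009) (nat_lit 8390436) (.two (nat_lit 1048576) (nat_lit 8391437) (.one (nat_lit 8392449) .nil))))),
   .two (nat_lit 205520911) (nat_lit 9934209039) (.two (nat_lit 742391816) (nat_lit 158176641131) (.two (nat_lit 169869316) (nat_lit 183916036681) (.two (nat_lit 2097153) (nat_lit 10503586634) (.two (nat_lit 2097152) (nat_lit 4196540) (.one (nat_lit 2100994) .nil))))),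
   .two (nat_lit 822083599) (nat_lit 8388633) (.two (nat_lit 41943048) (nat_lit 822083775) (.two (nat_lit 8388609) (nat_lit 16778480) (.two (nat_lit 8388608) (nat_lit 16779453) (.one (nat_lit 166136384664) .nil)))),
   .two (nat_lit 1277165583) (nat_lit 1753219184) (.two (nat_lit 9934209029) (nat_lit 12054430054) (.two (nat_lit 606076929) (nat_lit 12054431196) (.one (nat_lit 2100995) .nil))),
   .two (nat_lit 809500687) (nat_lit 10504634383) (.two (nat_lit 46409973773) (nat_lit 3558867010) (.two (nat_lit 605028357) (nat_lit 3558867302) (.two (nat_lit 605028353) (nat_lit 169870572) (.two (nat_lit 4194304) (nat_lit 9866053816) (.one (nat_lit 4198148) .nil))))),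
   .two (nat_lit 2902458383) (nat_lit 159224168463) (.two (nat_lit 2961178632) (nat_lit 218103921) (.two (nat_lit 176160772) (nat_lit 822084179) (.two (nat_lit 8388609) (nat_lit 16778481) (.two (nat_lit 1048576) (nat_lit 19100863230) (.one (nat_lit 1052421) .nil))))),
   .two (nat_lit 4613734415) (nat_lit 46414168079) (.two (nat_lit 739246088) (nat_lit 156581757119) (.two (nat_lit 8388609) (nat_lit 19596837704) (.two (nat_lit 1048576) (nat_lit 46523221468) (.one (nat_lit 16780451) .nil)))),
   .two (nat_lit 101711887) (nat_lit 165532401679) (.two (nat_lit 11476664328) (nat_lit 159224168515) (.two (nat_lit 20644364292) (nat_lit 11610882890) (.two (nat_lit 2097152) (nat_lit 3565161618) .nil))),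
   .two (nat_lit 21785214991) (nat_lit 166196150386) (.two (nat_lit 174752530437) (nat_lit 1417675592) (.two (nat_lit 1048576) (nat_lit 9940503715) .nil)),
   .two (nat_lit 37748751) (nat_lit 713031695) (.two (nat_lit 9766436872) (nat_lit 4634706029) (.two (nat_lit 46980399109) (nat_lit 639631551) (.two (nat_lit 612368385) (nat_lit 2990539594) (.two (nat_lit 8388608) (nat_lit 2099982) (.one (nat_lit 8392454) .nil))))),
   .two (nat_lit 183853121551) (nat_lit 1916796995) (.two (nat_lit 19599982597) (nat_lit 12054430536) (.two (nat_lit 4194304) (nat_lit 343936161) .nil)),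
   .two (nat_lit 9934209039) (nat_lit 3527409728) (.two (nat_lit 169869316) (nat_lit 10506731711) (.two (nat_lit 2097153) (nat_lit 46510638292) (.two (nat_lit 2097152) (nat_lit 1212156683) (.one (nat_lit 4198152) .nil)))),
   .two (nat_lit 4613734415) (nat_lit 4634705943) (.two (nat_lit 16777224) (nat_lit 46978302312) (.two (nat_lit 2097153) (nat_lit 1049843) (.two (nat_lit 16777216) (nat_lit 19596839092) (.one (nat_lit 1052425) .nil)))),
   .two (nat_lit 2889875471) (nat_lit 21208498191) (.two (nat_lit 3527409672) (nat_lit 158144135280) (.two (nat_lit 20638072836) (nat_lit 156569174857) (.two (nat_lit 2097152) (nat_lit 156569175516) (.one (nat_lit 4197541) .nil)))),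
   .two (nat_lit 809500687) (nat_lit 1358954608) (.two (nat_lit 1291845636) (nat_lit 843055944) (.two (nat_lit 16777216) (nat_lit 157038939300) .nil)),
   .two (nat_lit 4194319) (nat_lit 11559501839) (.two (nat_lit 169869320) (nat_lit 306184310) (.two (nat_lit 34603013) (nat_lit 166232851022) (.two (nat_lit 34603009) (nat_lit 1310721256) (.two (nat_lit 1048576) (nat_lit 46978304180) (.one (nat_lit 2101002) .nil))))),
   .two (nat_lit 713031695) (nat_lit 158143086607) (.two (nat_lit 21785214984) (nat_lit 158176641137) (.two (nat_lit 21207449605) (nat_lit 1417675592) (.two (nat_lit 1048576) (nat_lit 10376711313) .nil))),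
   .two (nat_lit 18933088271) (nat_lit 156566028406) (.two (nat_lit 169869316) (nat_lit 310378687) (.two (nat_lit 34603009) (nat_lit 10336863050) (.two (nat_lit 1048576) (nat_lit 8390846) (.one (nat_lit 1052427) .nil)))),
   .two (nat_lit 47555018767) (nat_lit 46978302070) (.two (nat_lit 2887778308) (nat_lit 159224168639) (.two (nat_lit 2097153) (nat_lit 20644365519) (.two (nat_lit 2097152) (nat_lit 8391440) (.one (nat_lit 8392460) .nil)))),
   .two (nat_lit 8388623) (nat_lit 12117344321) (.two (nat_lit 4194308) (nat_lit 10007609535) (.two (nat_lit 41943041) (nat_lit 742394041) (.one (nat_lit 28093451409) .nil))),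
   .two (nat_lit 1277165583) (nat_lit 10506731535) (.two (nat_lit 158144135176) (nat_lit 19532873850) (.two (nat_lit 639631365) (nat_lit 156569174580) (.two (nat_lit 9766436865) (nat_lit 156569175247) (.two (nat_lit 2097152) (nat_lit 4197138) (.one (nat_lit 2100975) .nil))))),
   .two (nat_lit 9948889103) (nat_lit 156372041743) (.two (nat_lit 620757000) (nat_lit 156372041839) (.two (nat_lit 18933088261) (nat_lit 10385097062) (.two (nat_lit 8388609) (nat_lit 654312923) (.one (nat_lit 16780454) .nil)))),
   .two (nat_lit 612368399) (nat_lit 13191086095) (.two (nat_lit 2961178632) (nat_lit 12117344489) (.two (nat_lit 209715205) (nat_lit 13224640869) (.two (nat_lit 8388609) (nat_lit 183949591760) (.two (nat_lit 1048576) (nat_lit 4197139) (.one (nat_lit 1052429) .nil))))),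
   .two (nat_lit 654311439) (nat_lit 166130089999) (.two (nat_lit 3539992584) (nat_lit 46474985594) (.two (nat_lit 174753579013) (nat_lit 28705817167) (.two (nat_lit 156365750273) (nat_lit 11022632732) (.two (nat_lit 1048576) (nat_lit 2099988) (.one (nat_lit 2101006) .nil))))),
   .two (nat_lit 169869327) (nat_lit 28693233679) (.two (nat_lit 205520904) (nat_lit 20738736195) (.two (nat_lit 166132187140) (nat_lit 1276117586) (.two (nat_lit 2097153) (nat_lit 19096667375) (.two (nat_lit 1048576) (nat_lit 136317103) (.one (nat_lit 1052431) .nil))))),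
   .two (nat_lit 2961178639) (nat_lit 639631375) (.two (nat_lit 47555018760) (nat_lit 4598005884) (.two (nat_lit 34603013) (nat_lit 343933119) (.two (nat_lit 2097153) (nat_lit 159216829258) (.two (nat_lit 2097152) (nat_lit 276826300) (.one (nat_lit 156533525651) .nil))))),
   .two (nat_lit 639631375) (nat_lit 13191086095) (.two (nat_lit 68157448) (nat_lit 10538188915) (.two (nat_lit 605028357) (nat_lit 47582282086) (.two (nat_lit 4194305) (nat_lit 47582283228) (.one (nat_lit 1052432) .nil)))),
   .two (nat_lit 639631375) (nat_lit 1753219184) (.two (nat_lit 2887778308) (nat_lit 12054430054) (.two (nat_lit 2097153) (nat_lit 184993973723) (.one (nat_lit 12155096210) .nil))),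
   .two (nat_lit 9934209039) (nat_lit 156367847439) (.two (nat_lit 12050235400) (nat_lit 28086108401) (.two (nat_lit 2097157) (nat_lit 843055462) (.two (nat_lit 2097153) (nat_lit 843056336) (.two (nat_lit 1048576) (nat_lit 184989780147) (.one (nat_lit 1052433) .nil))))),
   .two (nat_lit 169869327) (nat_lit 19130220585) (.two (nat_lit 169869320) (nat_lit 675283069) (.two (nat_lit 157038936069) (nat_lit 1276117586) (.two (nat_lit 156367847425) (nat_lit 1343226697) (.two (nat_lit 1048576) (nat_lit 2887780533) (.one (nat_lit 1052434) .nil))))),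
   .two (nat_lit 169869327) (nat_lit 10506731560) (.two (nat_lit 169869320) (nat_lit 183949590650) (.two (nat_lit 2097157) (nat_lit 4194905) (.two (nat_lit 34603009) (nat_lit 46477083887) (.two (nat_lit 2097152) (nat_lit 4197141) (.one (nat_lit 2101011) .nil))))),
   .two (nat_lit 8388623) (nat_lit 183845781519) (.two (nat_lit 176160776) (nat_lit 839909443) (.two (nat_lit 16777220) (nat_lit 1175454536) (.two (nat_lit 16777216) (nat_lit 46514834189) (.one (nat_lit 1052436) .nil)))),
   .two (nat_lit 10336862223) (nat_lit 4634705944) (.two (nat_lit 46407876616) (nat_lit 306184258) (.two (nat_lit 46409973765) (nat_lit 2097754) (.two (nat_lit 34603009) (nat_lit 203425012) (.two (nat_lit 1048576) (nat_lit 2099990) (.one (nat_lit 1052437) .nil))))),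
   .two (nat_lit 713031695) (nat_lit 20704133144) (.two (nat_lit 9866051592) (nat_lit 184993972337) (.two (nat_lit 1343225861) (nat_lit 1417675592) (.two (nat_lit 1048576) (nat_lit 10007610843) (.one (nat_lit 1052438) .nil)))),
   .two (nat_lit 169869327) (nat_lit 1916797042) (.two (nat_lit 34603013) (nat_lit 183949591102) (.two (nat_lit 2097153) (nat_lit 183949591764) (.two (nat_lit 1048576) (nat_lit 4196544) (.one (nat_lit 1052439) .nil)))),
   .two (nat_lit 3460300815) (nat_lit 28705816694) (.two (nat_lit 9948889093) (nat_lit 1413480806) (.two (nat_lit 9781116929) (nat_lit 3020948696) (.two (nat_lit 1048576) (nat_lit 2099393) (.one (nat_lit 1052440) .nil)))),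
   .two (nat_lit 612368399) (nat_lit 4601151503) (.two (nat_lit 612368392) (nat_lit 306184258) (.two (nat_lit 3531603973) (nat_lit 4634706111) (.two (nat_lit 9765388289) (nat_lit 4195573) (.two (nat_lit 1048576) (nat_lit 4196547) (.one (nat_lit 1052441) .nil))))),
   .two (nat_lit 2954887183) (nat_lit 3527409679) (.two (nat_lit 169869320) (nat_lit 157038936186) (.two (nat_lit 739246085) (nat_lit 4194907) (.two (nat_lit 2097153) (nat_lit 4195565) (.two (nat_lit 1048576) (nat_lit 2099396) (.one (nat_lit 101715730) .nil))))),
   .two (nat_lit 739246095) (nat_lit 28691136527) (.two (nat_lit 2961178632) (nat_lit 3558867009) (.two (nat_lit 4599054341) (nat_lit 880804031) (.two (nat_lit 156365750273) (nat_lit 705693877) (.one (nat_lit 1052442) .nil)))),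
   .two (nat_lit 169869327) (nat_lit 1916797040) (.two (nat_lit 34603013) (nat_lit 19130221118) (.two (nat_lit 2097153) (nat_lit 19130221780) (.two (nat_lit 1048576) (nat_lit 4197143) (.one (nat_lit 1052443) .nil)))),
   .two (nat_lit 8388623) (nat_lit 184986632207) (.two (nat_lit 8388616) (nat_lit 11577327682) (.two (nat_lit 1283457029) (nat_lit 9966715239) (.two (nat_lit 9768534017) (nat_lit 705693891) (.one (nat_lit 4197546) .nil)))),
   .two (nat_lit 11543773199) (nat_lit 1916796952) (.two (nat_lit 2954887176) (nat_lit 18928894071) (.two (nat_lit 12114198533) (nat_lit 809500863) (.two (nat_lit 156364701697) (nat_lit 9934209864) (.two (nat_lit 2097152) (nat_lit 4197144) (.one (nat_lit 2100395) .nil))))),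
   .two (nat_lit 184549391) (nat_lit 2889875471) (.two (nat_lit 641728520) (nat_lit 10385096826) (.two (nat_lit 16777221) (nat_lit 3527410021) (.two (nat_lit 16777217) (nat_lit 19096667366) (.two (nat_lit 8388608) (nat_lit 174768262292) .nil)))),
   .two (nat_lit 184549391) (nat_lit 12117344271) (.two (nat_lit 205520904) (nat_lit 83886147) (.two (nat_lit 9768534021) (nat_lit 16777820) (.two (nat_lit 605028353) (nat_lit 11593058085) (.two (nat_lit 1048576) (nat_lit 16780057) (.one (nat_lit 1052444) .nil))))),
   .two (nat_lit 1343225871) (nat_lit 28758245400) (.two (nat_lit 272629768) (nat_lit 165526110327) (.two (nat_lit 1277165572) (nat_lit 159250383450) (.two (nat_lit 9766436865) (nat_lit 13191087336) (.two (nat_lit 1048576) (nat_lit 71305399) (.one (nat_lit 641732378) .nil))))),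
   .two (nat_lit 21793603608) (nat_lit 772800535) (.two (nat_lit 83886088) (nat_lit 772800619) (.two (nat_lit 11543773189) (nat_lit 16777407) (.two (nat_lit 9765388289) (nat_lit 9948891325) (.one (nat_lit 1051820) .nil)))),
   .two (nat_lit 169869327) (nat_lit 2969567345) (.two (nat_lit 1291845637) (nat_lit 1049181) (.two (nat_lit 606076929) (nat_lit 1761609901) (.one (nat_lit 16781085) .nil))),
   .two (nat_lit 4194319) (nat_lit 16777331) (.two (nat_lit 1291845637) (nat_lit 168821341) (.two (nat_lit 34603009) (nat_lit 158091707633) (.two (nat_lit 1048576) (nat_lit 16780058) (.one (nat_lit 16780461) .nil)))),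
   .two (nat_lit 37748751) (nat_lit 721420395) (.two (nat_lit 11492392964) (nat_lit 159217877349) (.two (nat_lit 4194305) (nat_lit 12115248352) (.two (nat_lit 2097152) (nat_lit 4197147) (.one (nat_lit 3003124908) .nil)))),
   .two (nat_lit 13203669007) (nat_lit 18928893967) (.two (nat_lit 19599982600) (nat_lit 20705181813) (.two (nat_lit 69206021) (nat_lit 620757183) (.two (nat_lit 37748737) (nat_lit 270533450) (.two (nat_lit 4194304) (nat_lit 337643696) (.one (nat_lit 4198174) .nil))))),
   .two (nat_lit 721420303) (nat_lit 1753219087) (.two (nat_lit 1753219080) (nat_lit 721420354) (.two (nat_lit 183853121540) (nat_lit 721421129) (.two (nat_lit 8388608) (nat_lit 654314662) .nil))),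
   .two (nat_lit 4194319) (nat_lit 50331663) (.two (nat_lit 272629768) (nat_lit 158143086709) (.two (nat_lit 16777220) (nat_lit 11006902862) (.two (nat_lit 16777217) (nat_lit 1049846) (.two (nat_lit 16777216) (nat_lit 4197148) (.one (nat_lit 4198175) .nil))))),
   .two (nat_lit 11559501839) (nat_lit 10437525623) (.two (nat_lit 169869316) (nat_lit 9982444362) (.two (nat_lit 2097152) (nat_lit 654313645) (.one (nat_lit 47550828310) .nil))),
   .two (nat_lit 16777231) (nat_lit 28793897079) (.two (nat_lit 4194308) (nat_lit 19612566110) (.two (nat_lit 4194305) (nat_lit 12047090505) (.two (nat_lit 4194304) (nat_lit 2936016045) .nil))),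
   .two (nat_lit 9866051599) (nat_lit 12117344271) (.two (nat_lit 12117344264) (nat_lit 21811429488) (.two (nat_lit 21207449605) (nat_lit 183949591368) (.two (nat_lit 1048576) (nat_lit 13224642011) (.one (nat_lit 4198177) .nil)))),
   .two (nat_lit 184549391) (nat_lit 46510637122) (.two (nat_lit 16777221) (nat_lit 46510637413) (.two (nat_lit 16777217) (nat_lit 184419354810) (.one (nat_lit 174768262292) .nil))),
   .two (nat_lit 1343225871) (nat_lit 12117344271) (.two (nat_lit 12117344264) (nat_lit 28790751341) (.two (nat_lit 28690087941) (nat_lit 13224640703) (.two (nat_lit 34603009) (nat_lit 2956985566) (.two (nat_lit 1048576) (nat_lit 4197150) (.one (nat_lit 1052451) .nil))))),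
   .two (nat_lit 46984593423) (nat_lit 10504634383) (.two (nat_lit 11551113224) (nat_lit 2953838709) (.two (nat_lit 13187940357) (nat_lit 13195280575) (.two (nat_lit 2097153) (nat_lit 157035792568) (.one (nat_lit 1746930848) .nil)))),
   .two (nat_lit 813694991) (nat_lit 11479810063) (.two (nat_lit 12117344264) (nat_lit 9934209146) (.two (nat_lit 1283457029) (nat_lit 159251431615) (.two (nat_lit 8388609) (nat_lit 12048139488) (.two (nat_lit 4194304) (nat_lit 209717424) (.one (nat_lit 3560967340) .nil))))),
   .two (nat_lit 184549391) (nat_lit 606076943) (.two (nat_lit 37748744) (nat_lit 16777328) (.two (nat_lit 169869316) (nat_lit 37329306185) (.two (nat_lit 2097153) (nat_lit 721421558) (.two (nat_lit 2097152) (nat_lit 16780063) (.one (nat_lit 16781092) .nil))))),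
   .two (nat_lit 1350565903) (nat_lit 1779433487) (.two (nat_lit 104857608) (nat_lit 605028597) (.two (nat_lit 10335813637) (nat_lit 612368575) (.two (nat_lit 16777217) (nat_lit 10369368904) (.two (nat_lit 16777216) (nat_lit 12150901918) .nil)))),
   .two (nat_lit 2902458383) (nat_lit 1847590927) (.two (nat_lit 3539992584) (nat_lit 4028629114) (.two (nat_lit 28758245381) (nat_lit 47563407720) (.two (nat_lit 9765388289) (nat_lit 4632610989) (.one (nat_lit 2418020125) .nil)))),
   .two (nat_lit 822083599) (nat_lit 12114198553) (.two (nat_lit 16777224) (nat_lit 47581233269) (.two (nat_lit 705691652) (nat_lit 16777578) (.two (nat_lit 50331649) (nat_lit 1049847) (.two (nat_lit 16777216) (nat_lit 1051424) (.one (nat_lit 46992985258) .nil))))),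
   .two (nat_lit 742391823) (nat_lit 1343225871) (.two (nat_lit 169869320) (nat_lit 46510637166) (.two (nat_lit 270532613) (nat_lit 4634706111) (.two (nat_lit 2097153) (nat_lit 4195576) (.two (nat_lit 1048576) (nat_lit 4197155) (.one (nat_lit 10503589024) .nil))))),
   .two (nat_lit 1178599439) (nat_lit 11577327640) (.two (nat_lit 12117344264) (nat_lit 185020186690) (.two (nat_lit 739246085) (nat_lit 4194911) (.two (nat_lit 34603009) (nat_lit 272631017) (.two (nat_lit 1048576) (nat_lit 46409976598) (.one (nat_lit 1052454) .nil))))),
   .two (nat_lit 2902458383) (nat_lit 19532873743) (.two (nat_lit 19532873736) (nat_lit 2902458434) (.two (nat_lit 157038936069) (nat_lit 2902459209) (.two (nat_lit 4194304) (nat_lit 2969568731) (.one (nat_lit 16781095) .nil)))),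
   .two (nat_lit 639631375) (nat_lit 20644364354) (.two (nat_lit 2887778308) (nat_lit 20644364645) (.two (nat_lit 2097153) (nat_lit 21785217191) (.one (nat_lit 8392489) .nil))),
   .two (nat_lit 169869336) (nat_lit 4194346) (.two (nat_lit 2954887176) (nat_lit 9936306296) (.two (nat_lit 2887778308) (nat_lit 156569174207) (.two (nat_lit 9766436865) (nat_lit 159219975415) (.two (nat_lit 2097152) (nat_lit 4197157) (.one (nat_lit 3558870170) .nil))))),
   .two (nat_lit 2961178639) (nat_lit 639631375) (.two (nat_lit 19604176904) (nat_lit 739246189) (.two (nat_lit 34603013) (nat_lit 880804031) (.two (nat_lit 9781116929) (nat_lit 1175454536) (.two (nat_lit 16777216) (nat_lit 21778926752) .nil)))),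
   .two (nat_lit 2954887183) (nat_lit 3527409679) (.two (nat_lit 2954887176) (nat_lit 46510637169) (.two (nat_lit 203423749) (nat_lit 156569174857) (.two (nat_lit 2097152) (nat_lit 156569175516) (.one (nat_lit 639635223) .nil)))),
   .two (nat_lit 184986632207) (nat_lit 166132187202) (.two (nat_lit 166132187140) (nat_lit 165525062239) (.two (nat_lit 34603009) (nat_lit 157038937564) (.one (nat_lit 4198186) .nil))),
   .two (nat_lit 612368399) (nat_lit 4601151503) (.two (nat_lit 2961178632) (nat_lit 4634706033) (.two (nat_lit 176160772) (nat_lit 12117344854) (.two (nat_lit 8388609) (nat_lit 13224642012) (.one (nat_lit 1052399) .nil)))),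
   .two (nat_lit 176160783) (nat_lit 184986632207) (.two (nat_lit 12047089672) (nat_lit 176160834) (.two (nat_lit 75497477) (nat_lit 1049184) (.two (nat_lit 16777217) (nat_lit 37313578209) (.two (nat_lit 16777216) (nat_lit 19537070255) (.one (nat_lit 8392492) .nil))))),
   .two (nat_lit 10343153679) (nat_lit 184416206863) (.two (nat_lit 183845781512) (nat_lit 3464495217) (.two (nat_lit 165532401669) (nat_lit 1947206266) (.two (nat_lit 156372041729) (nat_lit 183912892320) (.two (nat_lit 2097152) (nat_lit 2953841406) (.one (nat_lit 184423550757) .nil))))),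
   .two (nat_lit 10343153679) (nat_lit 10504634383) (.two (nat_lit 10504634376) (nat_lit 183920230531) (.two (nat_lit 166130089989) (nat_lit 20644364883) (.two (nat_lit 2097153) (nat_lit 156372043227) (.one (nat_lit 3028291305) .nil)))),
   .two (nat_lit 21777874959) (nat_lit 1916796952) (.two (nat_lit 169869320) (nat_lit 46980399219) (.two (nat_lit 2097157) (nat_lit 157038936648) (.two (nat_lit 2097153) (nat_lit 9802089692) (.two (nat_lit 2097152) (nat_lit 4197261) (.one (nat_lit 1746931501) .nil))))),
   .two (nat_lit 41943055) (nat_lit 3560964122) (.two (nat_lit 2889875464) (nat_lit 20738736369) (.two (nat_lit 272629765) (nat_lit 12624855400) (.two (nat_lit 2097153) (nat_lit 166199298247) (.one (nat_lit 10540289173) .nil)))),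
   .two (nat_lit 11559501839) (nat_lit 9899606081) (.two (nat_lit 9933160453) (nat_lit 50331839) (.two (nat_lit 4194305) (nat_lit 185002362101) (.two (nat_lit 1048576) (nat_lit 10003417270) (.one (nat_lit 876613435) .nil)))),
   .two (nat_lit 1358954511) (nat_lit 47548727311) (.two (nat_lit 2954887176) (nat_lit 19142803593) (.two (nat_lit 639631365) (nat_lit 158091706956) (.two (nat_lit 37748737) (nat_lit 20638074726) (.two (nat_lit 4194304) (nat_lit 158091708600) (.one (nat_lit 20640173831) .nil))))),
   .two (nat_lit 9881780239) (nat_lit 166130089999) (.two (nat_lit 9881780232) (nat_lit 19027460162) (.two (nat_lit 1358954501) (nat_lit 9900655198) (.two (nat_lit 9766436865) (nat_lit 1291846877) (.two (nat_lit 2097152) (nat_lit 83888317) (.one (nat_lit 11007954095) .nil))))),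
   .two (nat_lit 9948889103) (nat_lit 156566028419) (.two (nat_lit 1291845637) (nat_lit 11610882410) (.two (nat_lit 2097153) (nat_lit 12047090995) (.two (nat_lit 2097152) (nat_lit 1761609901) (.one (nat_lit 16781147) .nil)))),
   .two (nat_lit 11559501839) (nat_lit 184416206863) (.two (nat_lit 184416206856) (nat_lit 754974835) (.two (nat_lit 12114198533) (nat_lit 117441096) (.two (nat_lit 34603009) (nat_lit 1191183580) (.two (nat_lit 1048576) (nat_lit 16780149) (.one (nat_lit 1052508) .nil))))),
   .two (nat_lit 2902458383) (nat_lit 21777874959) (.two (nat_lit 218103816) (nat_lit 46406828162) (.two (nat_lit 705691652) (nat_lit 166211879272) (.two (nat_lit 9765388289) (nat_lit 183861512017) (.two (nat_lit 1048576) (nat_lit 16780093) (.one (nat_lit 156984413358) .nil))))),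
   .two (nat_lit 9934209039) (nat_lit 183848927351) (.two (nat_lit 2097157) (nat_lit 156569174856) (.two (nat_lit 1048576) (nat_lit 156569175515) (.one (nat_lit 34606914) .nil))),
   .two (nat_lit 16777231) (nat_lit 1317011523) (.two (nat_lit 176160772) (nat_lit 16777407) (.two (nat_lit 8388609) (nat_lit 3573548836) (.two (nat_lit 8388608) (nat_lit 3573549837) (.one (nat_lit 16781149) .nil)))),
   .two (nat_lit 754974735) (nat_lit 135266328) (.two (nat_lit 19596836872) (nat_lit 11559501891) (.two (nat_lit 183845781508) (nat_lit 9881780582) (.two (nat_lit 34603009) (nat_lit 1358955731) (.two (nat_lit 1048576) (nat_lit 16780177) (.one (nat_lit 889196276) .nil))))),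
   .two (nat_lit 2969567247) (nat_lit 47548727360) (.two (nat_lit 169869316) (nat_lit 16777407) (.two (nat_lit 2097153) (nat_lit 1795163361) (.two (nat_lit 2097152) (nat_lit 352324455) (.one (nat_lit 183846833303) .nil)))),
   .two (nat_lit 721420303) (nat_lit 4634706111) (.two (nat_lit 50331649) (nat_lit 272631054) (.two (nat_lit 16777216) (nat_lit 339740857) (.one (nat_lit 889196354) .nil))),
   .two (nat_lit 46407876631) (nat_lit 184549425) (.two (nat_lit 37748744) (nat_lit 3539992702) (.two (nat_lit 2902458372) (nat_lit 1411383876) (.two (nat_lit 37748737) (nat_lit 13222544673) (.two (nat_lit 2097152) (nat_lit 4197266) (.one (nat_lit 11544825652) .nil))))),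
   .two (nat_lit 276824079) (nat_lit 4613734425) (.two (nat_lit 285212680) (nat_lit 156566028355) (.two (nat_lit 8388612) (nat_lit 739246440) (.two (nat_lit 41943041) (nat_lit 1914701058) (.two (nat_lit 2097152) (nat_lit 11484006593) (.one (nat_lit 8392542) .nil))))),
   .two (nat_lit 8388623) (nat_lit 1191182351) (.two (nat_lit 176160776) (nat_lit 47548727413) (.two (nat_lit 176160772) (nat_lit 2887778945) (.two (nat_lit 612368385) (nat_lit 20638075082) (.one (nat_lit 2921335982) .nil)))),
   .two (nat_lit 50331663) (nat_lit 10538188867) (.two (nat_lit 16777220) (nat_lit 47582282086) (.two (nat_lit 16777217) (nat_lit 166130091845) (.two (nat_lit 16777216) (nat_lit 166130092866) (.one (nat_lit 10552872764) .nil)))),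
   .two (nat_lit 721420303) (nat_lit 1276117128) (.two (nat_lit 721420292) (nat_lit 156566028925) (.two (nat_lit 50331649) (nat_lit 1050542) (.two (nat_lit 16777216) (nat_lit 1051540) (.one (nat_lit 21811433227) .nil)))),
   .two (nat_lit 8388623) (nat_lit 806354986) (.two (nat_lit 12117344264) (nat_lit 1309671551) (.two (nat_lit 2894069765) (nat_lit 11479810635) (.two (nat_lit 37748737) (nat_lit 159216829258) (.two (nat_lit 1048576) (nat_lit 2994735294) (.one (nat_lit 605032273) .nil))))),
   .two (nat_lit 8388623) (nat_lit 159217877007) (.two (nat_lit 159217877000) (nat_lit 8388672) (.two (nat_lit 176160773) (nat_lit 304087399) (.two (nat_lit 41943041) (nat_lit 3021997288) (.two (nat_lit 16777216) (nat_lit 183953788060) .nil)))),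
   .two (nat_lit 813694991) (nat_lit 822083624) (.two (nat_lit 50331660) (nat_lit 174686470276) (.two (nat_lit 11559501829) (nat_lit 46414168745) (.two (nat_lit 9781116929) (nat_lit 46984594720) (.two (nat_lit 16777216) (nat_lit 612370644) (.one (nat_lit 174701154104) .nil))))),
   .two (nat_lit 184549391) (nat_lit 158176641091) (.two (nat_lit 16777221) (nat_lit 21811429733) (.two (nat_lit 620756993) (nat_lit 159216830643) (.one (nat_lit 20652756728) .nil))),
   .two (nat_lit 739246095) (nat_lit 46980399119) (.two (nat_lit 11476664328) (nat_lit 2923429999) (.two (nat_lit 46409973764) (nat_lit 11476664682) (.two (nat_lit 2097153) (nat_lit 168822956) (.one (nat_lit 605031570) .nil)))),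
   .two (nat_lit 169869327) (nat_lit 620757007) (.two (nat_lit 620757000) (nat_lit 11543773297) (.two (nat_lit 1277165573) (nat_lit 705692289) (.two (nat_lit 2097153) (nat_lit 28690090186) (.one (nat_lit 2101088) .nil)))),
   .two (nat_lit 272629775) (nat_lit 12618563714) (.two (nat_lit 2889875461) (nat_lit 10538189157) (.two (nat_lit 4194305) (nat_lit 28791801126) (.two (nat_lit 4194304) (nat_lit 2100118) (.one (nat_lit 205524808) .nil)))),
   .two (nat_lit 37748751) (nat_lit 4027580462) (.two (nat_lit 166129041416) (nat_lit 13191086271) (.two (nat_lit 8388609) (nat_lit 11510221013) (.one (nat_lit 2101089) .nil))),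
   .two (nat_lit 9768534031) (nat_lit 184986632232) (.two (nat_lit 2954887176) (nat_lit 2349858934) (.two (nat_lit 13187940357) (nat_lit 4634706111) (.two (nat_lit 2097153) (nat_lit 10909385952) (.two (nat_lit 1048576) (nat_lit 1377831111) (.one (nat_lit 166230757141) .nil))))),
   .two (nat_lit 9768534031) (nat_lit 47548727311) (.two (nat_lit 3527409672) (nat_lit 47582281841) (.two (nat_lit 3458203653) (nat_lit 37749343) (.two (nat_lit 2097153) (nat_lit 809501929) (.two (nat_lit 2097152) (nat_lit 4197271) (.one (nat_lit 11477716783) .nil))))),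
   .two (nat_lit 1847590927) (nat_lit 156569174130) (.two (nat_lit 166130089988) (nat_lit 19130221384) (.two (nat_lit 2097152) (nat_lit 1849690311) (.one (nat_lit 2990542597) .nil))),
   .two (nat_lit 203423759) (nat_lit 28690087959) (.two (nat_lit 19529728008) (nat_lit 2921332859) (.two (nat_lit 2954887173) (nat_lit 9899606694) (.two (nat_lit 2097153) (nat_lit 772801825) (.two (nat_lit 8388608) (nat_lit 9765390544) (.one (nat_lit 1052515) .nil))))),
   .two (nat_lit 2954887183) (nat_lit 11513364602) (.two (nat_lit 203423749) (nat_lit 2923430245) (.two (nat_lit 2097153) (nat_lit 37750974) (.one (nat_lit 184987683988) .nil))),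
   .two (nat_lit 1178599439) (nat_lit 20652753024) (.two (nat_lit 10940841989) (nat_lit 20640170569) (.two (nat_lit 606076929) (nat_lit 184419353846) (.two (nat_lit 2097152) (nat_lit 4197273) (.one (nat_lit 2101072) .nil)))),
   .two (nat_lit 809500687) (nat_lit 156364701810) (.two (nat_lit 184549381) (nat_lit 46978302311) (.two (nat_lit 2097153) (nat_lit 1049843) (.two (nat_lit 4194304) (nat_lit 9934211959) (.one (nat_lit 2101092) .nil)))),
   .two (nat_lit 721420303) (nat_lit 18933088271) (.two (nat_lit 18933088264) (nat_lit 50331715) (.two (nat_lit 156372041733) (nat_lit 16777574) (.two (nat_lit 41943041) (nat_lit 16778456) (.two (nat_lit 8388608) (nat_lit 158158817460) (.one (nat_lit 10016001802) .nil))))),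
   .two (nat_lit 272629775) (nat_lit 1745879055) (.two (nat_lit 9934209032) (nat_lit 2920284297) (.two (nat_lit 69206021) (nat_lit 19529728360) (.two (nat_lit 2097153) (nat_lit 21811430638) (.two (nat_lit 2097152) (nat_lit 20637026492) (.one (nat_lit 2101094) .nil))))),
   .two (nat_lit 156372041743) (nat_lit 3527409730) (.two (nat_lit 46980399109) (nat_lit 3464495945) (.two (nat_lit 4194304) (nat_lit 3464496604) (.one (nat_lit 4030729976) .nil))),
   .two (nat_lit 620757007) (nat_lit 46978301967) (.two (nat_lit 620757000) (nat_lit 159217877124) (.two (nat_lit 184549380) (nat_lit 165526110889) (.two (nat_lit 2097153) (nat_lit 13203670256) (.two (nat_lit 1048576) (nat_lit 158077029524) .nil)))),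
   .two (nat_lit 272629775) (nat_lit 183845781519) (.two (nat_lit 1343225864) (nat_lit 12048138548) (.two (nat_lit 605028357) (nat_lit 19027460457) (.two (nat_lit 4194305) (nat_lit 11007952093) (.two (nat_lit 4194304) (nat_lit 10335815853) (.one (nat_lit 11479813295) .nil))))),
   .two (nat_lit 158083317775) (nat_lit 156533522499) (.two (nat_lit 20644364292) (nat_lit 19027460936) (.two (nat_lit 2097152) (nat_lit 19100863633) .nil)),
   .two (nat_lit 272629775) (nat_lit 20705181739) (.two (nat_lit 272629768) (nat_lit 156969730172) (.two (nat_lit 2889875460) (nat_lit 159217877636) (.two (nat_lit 34603009) (nat_lit 807405741) (.one (nat_lit 2101095) .nil)))),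
   .two (nat_lit 2902458383) (nat_lit 19027460143) (.two (nat_lit 3539992584) (nat_lit 10504634435) (.two (nat_lit 28758245381) (nat_lit 1929380434) (.two (nat_lit 9765388289) (nat_lit 19530777416) (.two (nat_lit 1048576) (nat_lit 2887780566) (.one (nat_lit 184416210098) .nil))))),
   .two (nat_lit 75497487) (nat_lit 2988441624) (.two (nat_lit 9934209032) (nat_lit 880803954) (.two (nat_lit 169869316) (nat_lit 276824671) (.two (nat_lit 612368385) (nat_lit 3558868444) (.one (nat_lit 2101096) .nil)))),
   .two (nat_lit 50331663) (nat_lit 9934209039) (.two (nat_lit 721420296) (nat_lit 46473937029) (.two (nat_lit 2902458373) (nat_lit 4632609127) (.two (nat_lit 16777217) (nat_lit 21208499481) (.two (nat_lit 1048576) (nat_lit 3472885936) (.one (nat_lit 1052521) .nil))))),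
   .two (nat_lit 37748751) (nat_lit 721420303) (.two (nat_lit 11559501832) (nat_lit 10336862330) (.two (nat_lit 2889875461) (nat_lit 270532967) (.two (nat_lit 2097153) (nat_lit 184550646) (.two (nat_lit 16777216) (nat_lit 47550826672) (.one (nat_lit 13203672234) .nil))))),
   .two (nat_lit 158075977743) (nat_lit 183848927258) (.two (nat_lit 184419352584) (nat_lit 156465365353) (.two (nat_lit 37748737) (nat_lit 47547680009) (.two (nat_lit 1048576) (nat_lit 339740857) (.one (nat_lit 4631563424) .nil)))),
   .two (nat_lit 639631375) (nat_lit 3028287514) (.two (nat_lit 11476664328) (nat_lit 10007609459) (.two (nat_lit 806354949) (nat_lit 3028288154) (.two (nat_lit 2097153) (nat_lit 2927625501) (.two (nat_lit 1048576) (nat_lit 11484007228) (.one (nat_lit 806358187) .nil))))),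
   .two (nat_lit 8388623) (nat_lit 1191182351) (.two (nat_lit 1191182344) (nat_lit 8388799) (.two (nat_lit 9765388289) (nat_lit 184423548717) (.two (nat_lit 1048576) (nat_lit 13228837059) (.one (nat_lit 8392554) .nil)))),
   .two (nat_lit 813694991) (nat_lit 47563407410) (.two (nat_lit 813694984) (nat_lit 11626610822) (.two (nat_lit 1191182341) (nat_lit 2349859422) (.two (nat_lit 16777217) (nat_lit 19127075657) (.two (nat_lit 2097152) (nat_lit 9798945670) (.one (nat_lit 16781163) .nil))))),
   .two (nat_lit 205520911) (nat_lit 1753219087) (.two (nat_lit 18933088264) (nat_lit 37313577092) (.two (nat_lit 183853121540) (nat_lit 10436477609) (.two (nat_lit 4194305) (nat_lit 2323645679) (.two (nat_lit 1048576) (nat_lit 47584381112) (.one (nat_lit 3020951372) .nil))))),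
   .two (nat_lit 8388623) (nat_lit 306184257) (.two (nat_lit 8388612) (nat_lit 4634706111) (.two (nat_lit 8388609) (nat_lit 4196537) (.one (nat_lit 20745030812) .nil))),
   .two (nat_lit 12114198543) (nat_lit 19027460122) (.two (nat_lit 28691136520) (nat_lit 1048886) (.two (nat_lit 605028357) (nat_lit 1746927976) (.two (nat_lit 4194305) (nat_lit 3558869177) (.one (nat_lit 46514834603) .nil)))),
   .two (nat_lit 169869327) (nat_lit 612368399) (.two (nat_lit 612368392) (nat_lit 184986632258) (.two (nat_lit 3458203653) (nat_lit 11610882689) (.two (nat_lit 2097153) (nat_lit 10906240249) (.two (nat_lit 8388608) (nat_lit 2100134) (.one (nat_lit 2101100) .nil))))),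
   .two (nat_lit 21777874959) (nat_lit 184419352591) (.two (nat_lit 705691656) (nat_lit 11513364593) (.two (nat_lit 806354949) (nat_lit 843055295) (.two (nat_lit 2097153) (nat_lit 12050236661) (.two (nat_lit 2097152) (nat_lit 4197287) (.one (nat_lit 337644715) .nil))))),
   .two (nat_lit 41943055) (nat_lit 3527409688) (.two (nat_lit 2889875464) (nat_lit 183947493617) (.two (nat_lit 272629765) (nat_lit 19134415453) (.two (nat_lit 2097153) (nat_lit 9768534856) (.two (nat_lit 2097152) (nat_lit 19096668351) (.one (nat_lit 10540289173) .nil))))),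
   .two (nat_lit 606076952) (nat_lit 880803864) (.two (nat_lit 2954887176) (nat_lit 11618222194) (.two (nat_lit 169869316) (nat_lit 10343154025) (.two (nat_lit 8388609) (nat_lit 10907288801) (.two (nat_lit 8388608) (nat_lit 639634279) (.one (nat_lit 236982120) .nil))))),
   .two (nat_lit 272629775) (nat_lit 706740343) (.two (nat_lit 2889875461) (nat_lit 1847591273) (.two (nat_lit 2097153) (nat_lit 19599983837) (.two (nat_lit 2097152) (nat_lit 157038938301) (.one (nat_lit 166230756497) .nil)))),
   .two (nat_lit 4194319) (nat_lit 713031695) (.two (nat_lit 11543773192) (nat_lit 1950351467) (.two (nat_lit 705691652) (nat_lit 310379081) (.two (nat_lit 34603009) (nat_lit 165532402937) (.two (nat_lit 1048576) (nat_lit 158183983903) (.one (nat_lit 158183984932) .nil))))),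
   .two (nat_lit 1291845647) (nat_lit 21208498191) (.two (nat_lit 21208498184) (nat_lit 1291845698) (.two (nat_lit 158144135173) (nat_lit 1291846472) (.two (nat_lit 2097152) (nat_lit 9781119157) (.one (nat_lit 654315367) .nil)))),
   .two (nat_lit 117440527) (nat_lit 37246468211) (.two (nat_lit 184986632197) (nat_lit 1191183176) (.two (nat_lit 1048576) (nat_lit 9781118427) (.one (nat_lit 11610885942) .nil))),
   .two (nat_lit 47548727311) (nat_lit 158075977754) (.two (nat_lit 21207449608) (nat_lit 47548727360) (.two (nat_lit 165526110213) (nat_lit 1410335083) (.two (nat_lit 2097153) (nat_lit 605029630) (.two (nat_lit 8388608) (nat_lit 13188992152) .nil)))),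
   .two (nat_lit 2961178639) (nat_lit 1291845747) (.two (nat_lit 176160772) (nat_lit 16777804) (.two (nat_lit 8388609) (nat_lit 672138545) (.two (nat_lit 8388608) (nat_lit 1291848474) (.one (nat_lit 16781167) .nil)))),
   .two (nat_lit 285212687) (nat_lit 12054429711) (.two (nat_lit 50331656) (nat_lit 10947133799) (.two (nat_lit 16777217) (nat_lit 4605347123) (.two (nat_lit 8388608) (nat_lit 16780205) (.one (nat_lit 8392560) .nil)))),
   .two (nat_lit 9866051599) (nat_lit 185027526680) (.two (nat_lit 184993972232) (nat_lit 158176641089) (.two (nat_lit 21777874949) (nat_lit 880804031) (.two (nat_lit 156364701697) (nat_lit 4605348029) (.one (nat_lit 8392561) .nil)))),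
   .two (nat_lit 620757007) (nat_lit 135266353) (.two (nat_lit 2969567240) (nat_lit 183947493627) (.two (nat_lit 2097157) (nat_lit 16777407) (.two (nat_lit 2097153) (nat_lit 184550671) (.two (nat_lit 16777216) (nat_lit 2100143) (.one (nat_lit 68160684) .nil))))),
   .two (nat_lit 809500687) (nat_lit 1745879055) (.two (nat_lit 9934209032) (nat_lit 705691785) (.two (nat_lit 708837381) (nat_lit 34603372) (.two (nat_lit 2097153) (nat_lit 21811430638) (.two (nat_lit 2097152) (nat_lit 184989780144) (.one (nat_lit 2101106) .nil))))),
   .two (nat_lit 8388623) (nat_lit 159217877007) (.two (nat_lit 612368392) (nat_lit 10538188922) (.two (nat_lit 176160773) (nat_lit 304087399) (.two (nat_lit 8388609) (nat_lit 9967764722) (.two (nat_lit 8388608) (nat_lit 236981168) (.one (nat_lit 169873131) .nil))))),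
   .two (nat_lit 1749024792) (nat_lit 1376780312) (.two (nat_lit 18928893960) (nat_lit 235929729) (.two (nat_lit 184419352581) (nat_lit 21811429738) (.two (nat_lit 34603009) (nat_lit 21814576375) (.two (nat_lit 1048576) (nat_lit 1749027621) (.one (nat_lit 159216831658) .nil))))),
   .two (nat_lit 1178599439) (nat_lit 159251431473) (.two (nat_lit 705691656) (nat_lit 10003415169) (.two (nat_lit 806354949) (nat_lit 13224640703) (.two (nat_lit 2097153) (nat_lit 3527410933) (.two (nat_lit 4194304) (nat_lit 159251434268) (.one (nat_lit 166229707934) .nil))))),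
   .two (nat_lit 10504634383) (nat_lit 46414168090) (.two (nat_lit 169869320) (nat_lit 4605345856) (.two (nat_lit 169869316) (nat_lit 310378687) (.two (nat_lit 34603009) (nat_lit 11551114524) (.two (nat_lit 1048576) (nat_lit 8391604) (.one (nat_lit 13221498027) .nil))))),
   .two (nat_lit 739246095) (nat_lit 21785214991) (.two (nat_lit 739246088) (nat_lit 2894070010) (.two (nat_lit 11543773189) (nat_lit 1417675109) (.two (nat_lit 34603009) (nat_lit 21818770726) (.two (nat_lit 1048576) (nat_lit 2894072726) (.one (nat_lit 1052531) .nil))))),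
   .two (nat_lit 3527409679) (nat_lit 3464495129) (.two (nat_lit 46984593416) (nat_lit 3527409730) (.two (nat_lit 46980399109) (nat_lit 3028287851) (.two (nat_lit 9765388289) (nat_lit 8389876) (.two (nat_lit 1048576) (nat_lit 156367849688) (.one (nat_lit 1052533) .nil))))),
   .two (nat_lit 8388623) (nat_lit 13191086095) (.two (nat_lit 13191086088) (nat_lit 10007609535) (.two (nat_lit 4194305) (nat_lit 12121539888) (.two (nat_lit 4194304) (nat_lit 8391613) (.one (nat_lit 171970281) .nil)))),
   .two (nat_lit 11479810063) (nat_lit 12147752985) (.two (nat_lit 11476664328) (nat_lit 183949590593) (.two (nat_lit 10506731525) (nat_lit 11544822121) (.two (nat_lit 156367847425) (nat_lit 2953839874) (.two (nat_lit 1048576) (nat_lit 1780485042) (.one (nat_lit 2101111) .nil))))),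
   .two (nat_lit 9934209039) (nat_lit 3527409679) (.two (nat_lit 47548727304) (nat_lit 46510637169) (.two (nat_lit 3458203653) (nat_lit 156569174857) (.two (nat_lit 2097152) (nat_lit 156569175516) (.one (nat_lit 2101112) .nil)))),
   .two (nat_lit 46409973775) (nat_lit 269484149) (.two (nat_lit 4601151493) (nat_lit 1175454056) (.two (nat_lit 156367847425) (nat_lit 1309673657) (.one (nat_lit 306187439) .nil))),
   .two (nat_lit 1277165583) (nat_lit 19127074842) (.two (nat_lit 739246088) (nat_lit 158144135234) (.two (nat_lit 11543773189) (nat_lit 28758245733) (.two (nat_lit 34603009) (nat_lit 28791801127) (.two (nat_lit 1048576) (nat_lit 9867102393) (.one (nat_lit 1052537) .nil))))),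
   .two (nat_lit 721420303) (nat_lit 28693233779) (.two (nat_lit 50331653) (nat_lit 19599982950) (.two (nat_lit 50331649) (nat_lit 19599984092) (.one (nat_lit 16781178) .nil))),
   .two (nat_lit 2954887183) (nat_lit 28757196815) (.two (nat_lit 37748744) (nat_lit 28790751344) (.two (nat_lit 169869316) (nat_lit 1276117588) (.two (nat_lit 2097153) (nat_lit 158176641865) (.two (nat_lit 2097152) (nat_lit 158176642524) (.one (nat_lit 9766440825) .nil))))),
   .two (nat_lit 822083599) (nat_lit 156971827312) (.two (nat_lit 156971827205) (nat_lit 1191182920) (.two (nat_lit 37748737) (nat_lit 117441747) (.two (nat_lit 4194304) (nat_lit 318769332) (.one (nat_lit 16781181) .nil)))),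
   .two (nat_lit 8388623) (nat_lit 4027580460) (.two (nat_lit 2887778312) (nat_lit 2923430015) (.two (nat_lit 34603013) (nat_lit 612368575) (.two (nat_lit 2097153) (nat_lit 10369368904) (.two (nat_lit 2097152) (nat_lit 638585047) (.one (nat_lit 4198271) .nil))))),
   .two (nat_lit 176160783) (nat_lit 3021996142) (.two (nat_lit 8388613) (nat_lit 46409974348) (.two (nat_lit 8388609) (nat_lit 203425073) (.two (nat_lit 8388608) (nat_lit 185023335343) (.one (nat_lit 2101120) .nil)))),
   .two (nat_lit 16777231) (nat_lit 1317011522) (.two (nat_lit 159224168453) (nat_lit 46489666137) (.two (nat_lit 612368385) (nat_lit 10015999246) (.two (nat_lit 8388608) (nat_lit 1795165112) (.one (nat_lit 8392577) .nil)))),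
   .two (nat_lit 721420303) (nat_lit 1343225871) (.two (nat_lit 721420296) (nat_lit 21811429487) (.two (nat_lit 34603013) (nat_lit 19109249393) (.two (nat_lit 50331651) (nat_lit 839909965) (.two (nat_lit 2097153) (nat_lit 721421150) (.two (nat_lit 1048576) (nat_lit 1780485340) (.one (nat_lit 11006905584) .nil)))))),
   .two (nat_lit 4194319) (nat_lit 41943055) (.two (nat_lit 705691654) (nat_lit 4030726275) (.two (nat_lit 4194312) (nat_lit 41943076) (.two (nat_lit 705691652) (nat_lit 28764536871) (.two (nat_lit 171966469) (nat_lit 174759870665) (.two (nat_lit 37748737) (nat_lit 28798092549) (.two (nat_lit 4194304) (nat_lit 11584669914) (.one (nat_lit 675286215) .nil))))))),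
   .two (nat_lit 8388623) (nat_lit 272629777) (.two (nat_lit 4194312) (nat_lit 11618222147) (.two (nat_lit 4194308) (nat_lit 612368480) (.two (nat_lit 4194307) (nat_lit 156976022141) (.two (nat_lit 37748737) (nat_lit 158176641886) (.two (nat_lit 4194304) (nat_lit 8390141) (.one (nat_lit 4197631) .nil)))))),
   .two (nat_lit 2954887183) (nat_lit 3527409679) (.two (nat_lit 169869318) (nat_lit 46481277064) (.two (nat_lit 2954887176) (nat_lit 46409973797) (.two (nat_lit 41943045) (nat_lit 156535619623) (.two (nat_lit 746586117) (nat_lit 10540286318) (.two (nat_lit 612368385) (nat_lit 19130221814) (.two (nat_lit 8388608) (nat_lit 1916799195) (.one (nat_lit 10510929105) .nil))))))),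
   .two (nat_lit 11492392979) (nat_lit 807403548) (.two (nat_lit 47548727304) (nat_lit 1191182447) (.two (nat_lit 169869316) (nat_lit 1191182693) (.two (nat_lit 2097153) (nat_lit 1191183176) (.two (nat_lit 2097152) (nat_lit 11525948371) (.one (nat_lit 83887765) .nil))))),
   .two (nat_lit 18928893967) (nat_lit 1410334747) (.two (nat_lit 184419352584) (nat_lit 2416967794) (.two (nat_lit 1913651205) (nat_lit 239075367) (.two (nat_lit 12117344261) (nat_lit 183845781701) (.two (nat_lit 37748737) (nat_lit 889192670) (.two (nat_lit 1048576) (nat_lit 16778752) (.one (nat_lit 16780546) .nil)))))),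
   .two (nat_lit 16777227) (nat_lit 4601151504) (.two (nat_lit 50331656) (nat_lit 272629797) (.two (nat_lit 16777224) (nat_lit 157038936083) (.two (nat_lit 16777218) (nat_lit 4194510) (.two (nat_lit 41943043) (nat_lit 156367847781) (.two (nat_lit 41943041) (nat_lit 156367848264) (.two (nat_lit 8388608) (nat_lit 46510638035) (.one (nat_lit 10003416725) .nil))))))),
   .two (nat_lit 47548727311) (nat_lit 176160798) (.two (nat_lit 20644364296) (nat_lit 2988441666) (.two (nat_lit 159224168453) (nat_lit 9967763494) (.two (nat_lit 159224168453) (nat_lit 10907287648) (.two (nat_lit 612368385) (nat_lit 10907287771) (.two (nat_lit 8388608) (nat_lit 4632610286) (.one (nat_lit 2099617) .nil)))))),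
   .two (nat_lit 4194319) (nat_lit 12054429711) (.two (nat_lit 4194312) (nat_lit 28093448259) (.two (nat_lit 605028357) (nat_lit 10443817321) (.two (nat_lit 4194305) (nat_lit 37314626014) (.two (nat_lit 1048576) (nat_lit 8390916) (.one (nat_lit 4197637) .nil))))),
   .two (nat_lit 1343225871) (nat_lit 158083317775) (.two (nat_lit 68157448) (nat_lit 21785215043) (.two (nat_lit 605028357) (nat_lit 158083317798) (.two (nat_lit 605028357) (nat_lit 184993972320) (.two (nat_lit 4194305) (nat_lit 184993972443) (.two (nat_lit 8388608) (nat_lit 19130222080) (.one (nat_lit 37751221) .nil)))))),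
   .two (nat_lit 28690087951) (nat_lit 158649548827) (.two (nat_lit 11513364493) (nat_lit 1913651267) (.two (nat_lit 11479810053) (nat_lit 158176641385) (.two (nat_lit 4194305) (nat_lit 184416207328) (.two (nat_lit 4194304) (nat_lit 1051666) (.one (nat_lit 1178602718) .nil))))),
   .two (nat_lit 184416206863) (nat_lit 9948889104) (.two (nat_lit 1291845640) (nat_lit 1913651234) (.two (nat_lit 1291845640) (nat_lit 12114198563) (.two (nat_lit 117440517) (nat_lit 2416967718) (.two (nat_lit 117440517) (nat_lit 156465365088) (.two (nat_lit 34603009) (nat_lit 183962173659) (.two (nat_lit 8388608) (nat_lit 16779525) (.one (nat_lit 16780552) .nil))))))),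
   .two (nat_lit 654311439) (nat_lit 4598005804) (.two (nat_lit 4194312) (nat_lit 2323644453) (.two (nat_lit 4194312) (nat_lit 46414168083) (.two (nat_lit 4194308) (nat_lit 11014242661) (.two (nat_lit 4194305) (nat_lit 1779433941) (.two (nat_lit 8388608) (nat_lit 47581235434) (.one (nat_lit 4197641) .nil)))))),
   .two (nat_lit 1343225871) (nat_lit 157043130383) (.two (nat_lit 9781116936) (nat_lit 1779433581) (.two (nat_lit 2902458372) (nat_lit 158183981723) (.two (nat_lit 9781116929) (nat_lit 8390540) (.two (nat_lit 16777216) (nat_lit 1050886) (.one (nat_lit 16780555) .nil))))),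
   .two (nat_lit 9768534031) (nat_lit 117440527) (.two (nat_lit 742391816) (nat_lit 166245433381) (.two (nat_lit 742391816) (nat_lit 11492392979) (.two (nat_lit 2889875461) (nat_lit 11525947590) (.two (nat_lit 708837381) (nat_lit 13203669192) (.two (nat_lit 50331649) (nat_lit 183848928093) (.two (nat_lit 16777216) (nat_lit 4195842) (.one (nat_lit 2101180) .nil))))))),
   .two (nat_lit 1795162127) (nat_lit 9899606042) (.two (nat_lit 46409973766) (nat_lit 12129927292) (.two (nat_lit 20637024264) (nat_lit 19142803493) (.two (nat_lit 46409973762) (nat_lit 1426064027) (.two (nat_lit 1191182341) (nat_lit 608174281) (.two (nat_lit 4194305) (nat_lit 889193733) (.two (nat_lit 1048576) (nat_lit 184552655) (.one (nat_lit 4198333) .nil))))))),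
   .two (nat_lit 169869327) (nat_lit 10552868890) (.two (nat_lit 9781116936) (nat_lit 672137335) (.two (nat_lit 169869316) (nat_lit 822084170) (.two (nat_lit 2097153) (nat_lit 1050688) (.two (nat_lit 2097152) (nat_lit 16780308) (.one (nat_lit 9799995297) .nil))))),
   .two (nat_lit 809500687) (nat_lit 11551113243) (.two (nat_lit 2994733069) (nat_lit 183916036133) (.two (nat_lit 4194312) (nat_lit 46414168083) (.two (nat_lit 165532401669) (nat_lit 4194666) (.two (nat_lit 156372041729) (nat_lit 4196238) (.two (nat_lit 8388608) (nat_lit 4196617) (.one (nat_lit 4197649) .nil)))))),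
   .two (nat_lit 2954887183) (nat_lit 156372041743) (.two (nat_lit 169869320) (nat_lit 4605345859) (.two (nat_lit 2097157) (nat_lit 46414168102) (.two (nat_lit 2097157) (nat_lit 13195280480) (.two (nat_lit 2097153) (nat_lit 847249888) (.two (nat_lit 8388608) (nat_lit 1050085) (.one (nat_lit 2101182) .nil)))))),
   .two (nat_lit 203423759) (nat_lit 158083317775) (.two (nat_lit 203423752) (nat_lit 21785215043) (.two (nat_lit 2954887173) (nat_lit 184993972320) (.two (nat_lit 169869315) (nat_lit 184993972415) (.two (nat_lit 2097153) (nat_lit 1753219535) (.two (nat_lit 2097152) (nat_lit 10376709600) (.one (nat_lit 8392639) .nil)))))),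
   .two (nat_lit 2969567247) (nat_lit 12117344271) (.two (nat_lit 620757000) (nat_lit 742391829) (.two (nat_lit 11479810052) (nat_lit 20753416386) (.two (nat_lit 16777217) (nat_lit 4194789) (.two (nat_lit 16777216) (nat_lit 4195845) (.one (nat_lit 4197650) .nil))))),
   .two (nat_lit 166230753299) (nat_lit 157038936079) (.two (nat_lit 156365750281) (nat_lit 9802088559) (.two (nat_lit 156367847432) (nat_lit 20738736147) (.two (nat_lit 1847590917) (nat_lit 11479810244) (.two (nat_lit 21208498181) (nat_lit 166132187233) (.two (nat_lit 606076929) (nat_lit 37749213) (.two (nat_lit 2097152) (nat_lit 9969861586) (.one (nat_lit 4197651) .nil))))))),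
   .two (nat_lit 28758245391) (nat_lit 185020186648) (.two (nat_lit 4194312) (nat_lit 19027460210) (.two (nat_lit 4194308) (nat_lit 165526110875) (.two (nat_lit 4194305) (nat_lit 10538190041) (.two (nat_lit 1048576) (nat_lit 28791800782) (.one (nat_lit 159253531848) .nil))))),
   .two (nat_lit 654311431) (nat_lit 185023332420) (.two (nat_lit 9781116931) (nat_lit 21814575143) (.two (nat_lit 16777216) (nat_lit 104859284) (.one (nat_lit 104859284) .nil))),
   .two (nat_lit 272629775) (nat_lit 28772925467) (.two (nat_lit 754974728) (nat_lit 68157477) (.two (nat_lit 754974728) (nat_lit 165525061651) (.two (nat_lit 11492392964) (nat_lit 185023332711) (.two (nat_lit 37748737) (nat_lit 1049440) (.two (nat_lit 1048576) (nat_lit 4196620) (.one (nat_lit 4198337) .nil)))))),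
   .two (nat_lit 754974735) (nat_lit 11546918928) (.two (nat_lit 612368392) (nat_lit 2350907504) (.two (nat_lit 176160772) (nat_lit 166197198944) (.two (nat_lit 176160771) (nat_lit 166197199206) (.two (nat_lit 8388609) (nat_lit 166197199824) (.two (nat_lit 4194304) (nat_lit 4647291118) (.one (nat_lit 4197654) .nil)))))),
   .two (nat_lit 654311439) (nat_lit 272629771) (.two (nat_lit 4194312) (nat_lit 218103826) (.two (nat_lit 4194308) (nat_lit 11492393055) (.two (nat_lit 4194305) (nat_lit 654311651) (.two (nat_lit 1048576) (nat_lit 654311651) (.one (nat_lit 1052610) .nil))))),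
   .two (nat_lit 285212687) (nat_lit 8388625) (.two (nat_lit 41943048) (nat_lit 158091706619) (.two (nat_lit 713031685) (nat_lit 1761608356) (.two (nat_lit 41943041) (nat_lit 12617515488) (.two (nat_lit 1048576) (nat_lit 11484006620) (.one (nat_lit 1052611) .nil))))),
   .two (nat_lit 4194336) (nat_lit 46473936941) (.two (nat_lit 809500680) (nat_lit 20637024380) (.two (nat_lit 1277165573) (nat_lit 168820775) (.two (nat_lit 169869316) (nat_lit 168820937) (.two (nat_lit 2097153) (nat_lit 1049441) (.two (nat_lit 2097152) (nat_lit 4197398) (.one (nat_lit 2100503) .nil)))))),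
   .two (nat_lit 10336862223) (nat_lit 20737687569) (.two (nat_lit 8388616) (nat_lit 12047089778) (.two (nat_lit 176160773) (nat_lit 840958561) (.two (nat_lit 41943041) (nat_lit 19094570885) (.two (nat_lit 8388608) (nat_lit 2099446) (.one (nat_lit 184993975563) .nil))))),
   .two (nat_lit 176160783) (nat_lit 285212687) (.two (nat_lit 176160776) (nat_lit 285212708) (.two (nat_lit 176160776) (nat_lit 285212690) (.two (nat_lit 159224168453) (nat_lit 1392509129) (.two (nat_lit 50331653) (nat_lit 46481277026) (.two (nat_lit 612368385) (nat_lit 1392509775) (.two (nat_lit 8388608) (nat_lit 16780312) (.one (nat_lit 8391961) .nil))))))),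
   .two (nat_lit 12050235407) (nat_lit 1753219087) (.two (nat_lit 176160774) (nat_lit 158647451757) (.two (nat_lit 9940500488) (nat_lit 174753579044) (.two (nat_lit 166130089988) (nat_lit 19532874354) (.two (nat_lit 8388609) (nat_lit 158146233605) (.two (nat_lit 8388608) (nat_lit 28760344796) (.one (nat_lit 2418019512) .nil)))))),
   .two (nat_lit 10385096719) (nat_lit 10504634383) (.two (nat_lit 10385096712) (nat_lit 10437525541) (.two (nat_lit 10385096712) (nat_lit 3558866963) (.two (nat_lit 169869314) (nat_lit 16778294) (.two (nat_lit 69206021) (nat_lit 218103905) (.two (nat_lit 2097153) (nat_lit 16778082) (.two (nat_lit 4194304) (nat_lit 16778759) (.one (nat_lit 16781252) .nil))))))),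
   .two (nat_lit 620757007) (nat_lit 272629775) (.two (nat_lit 620757000) (nat_lit 3560964133) (.two (nat_lit 620757000) (nat_lit 37748755) (.two (nat_lit 184549380) (nat_lit 138412233) (.two (nat_lit 184549380) (nat_lit 46409973858) (.two (nat_lit 8388609) (nat_lit 183949591774) (.two (nat_lit 8388608) (nat_lit 1346373088) (.one (nat_lit 4198341) .nil))))))),
   .two (nat_lit 713031695) (nat_lit 10336862223) (.two (nat_lit 713031688) (nat_lit 11511267399) (.two (nat_lit 156365750280) (nat_lit 41943075) (.two (nat_lit 612368389) (nat_lit 773849127) (.two (nat_lit 50331651) (nat_lit 11611930820) (.two (nat_lit 50331649) (nat_lit 9934209502) (.two (nat_lit 16777216) (nat_lit 8391706) (.one (nat_lit 8392646) .nil))))))),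
   .two (nat_lit 1753219087) (nat_lit 183912890392) (.two (nat_lit 203423752) (nat_lit 21214789756) (.two (nat_lit 11543773189) (nat_lit 2323645097) (.two (nat_lit 2097153) (nat_lit 8390537) (.two (nat_lit 1048576) (nat_lit 807405804) (.one (nat_lit 9765391639) .nil))))),
   .two (nat_lit 2887778319) (nat_lit 1916796943) (.two (nat_lit 1779433480) (nat_lit 11511267461) (.two (nat_lit 166132187141) (nat_lit 2349859495) (.two (nat_lit 37748737) (nat_lit 1050512) (.two (nat_lit 4194304) (nat_lit 2100252) (.one (nat_lit 2100508) .nil))))),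
   .two (nat_lit 11551113231) (nat_lit 11559501841) (.two (nat_lit 713031688) (nat_lit 158077026369) (.two (nat_lit 41943045) (nat_lit 11578376288) (.two (nat_lit 41943043) (nat_lit 174753579653) (.two (nat_lit 41943041) (nat_lit 28693234508) (.two (nat_lit 8388608) (nat_lit 1392510461) (.one (nat_lit 1384123647) .nil)))))),
   .two (nat_lit 11492392975) (nat_lit 34603024) (.two (nat_lit 705691656) (nat_lit 9781116995) (.two (nat_lit 605028357) (nat_lit 183962173478) (.two (nat_lit 34603013) (nat_lit 2902458563) (.two (nat_lit 4194305) (nat_lit 166230753751) (.two (nat_lit 4194304) (nat_lit 16778761) (.one (nat_lit 16781255) .nil)))))),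
   .two (nat_lit 10336862223) (nat_lit 19529728015) (.two (nat_lit 3539992584) (nat_lit 10336862244) (.two (nat_lit 285212680) (nat_lit 47582281747) (.two (nat_lit 1277165573) (nat_lit 10519315055) (.two (nat_lit 606076929) (nat_lit 12114199384) (.two (nat_lit 16777216) (nat_lit 9899607530) (.one (nat_lit 1052616) .nil)))))),
   .two (nat_lit 10336862223) (nat_lit 21207449615) (.two (nat_lit 21207449608) (nat_lit 37314625573) (.two (nat_lit 21207449608) (nat_lit 4028629011) (.two (nat_lit 165526110213) (nat_lit 9899606208) (.two (nat_lit 158143086597) (nat_lit 270532808) (.two (nat_lit 2097153) (nat_lit 19093521885) (.two (nat_lit 2097152) (nat_lit 19093521885) (.one (nat_lit 1052618) .nil))))))),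
   .two (nat_lit 612368399) (nat_lit 20638072847) (.two (nat_lit 612368392) (nat_lit 10504634487) (.two (nat_lit 176160773) (nat_lit 2954887207) (.two (nat_lit 176160773) (nat_lit 10504634564) (.two (nat_lit 50331649) (nat_lit 3558868214) (.two (nat_lit 16777216) (nat_lit 2100079) (.one (nat_lit 2101195) .nil)))))),
   .two (nat_lit 639631375) (nat_lit 2923429905) (.two (nat_lit 3527409672) (nat_lit 639631396) (.two (nat_lit 9768534024) (nat_lit 203423762) (.two (nat_lit 20638072837) (nat_lit 10338959561) (.two (nat_lit 3525312517) (nat_lit 9869197407) (.two (nat_lit 2097153) (nat_lit 4195657) (.two (nat_lit 2097152) (nat_lit 4197407) (.one (nat_lit 2100510) .nil))))))),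
   .two (nat_lit 156372041743) (nat_lit 47582281754) (.two (nat_lit 169869320) (nat_lit 156372041764) (.two (nat_lit 169869320) (nat_lit 46414168082) (.two (nat_lit 11543773189) (nat_lit 109052105) (.two (nat_lit 2097157) (nat_lit 20644364383) (.two (nat_lit 34603009) (nat_lit 4605347140) (.two (nat_lit 1048576) (nat_lit 8390926) (.one (nat_lit 1052620) .nil))))))),
   .two (nat_lit 41943055) (nat_lit 11559501839) (.two (nat_lit 8388614) (nat_lit 2420113522) (.two (nat_lit 41943048) (nat_lit 11559501860) (.two (nat_lit 19599982597) (nat_lit 185027527272) (.two (nat_lit 9768534017) (nat_lit 158083319030) (.two (nat_lit 4194304) (nat_lit 1350568160) (.one (nat_lit 11614031057) .nil)))))),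
   .two (nat_lit 184549391) (nat_lit 11479810063) (.two (nat_lit 184549384) (nat_lit 13224640579) (.two (nat_lit 16777221) (nat_lit 4634706016) (.two (nat_lit 612368387) (nat_lit 1413480809) (.two (nat_lit 612368385) (nat_lit 1749025621) (.two (nat_lit 8388608) (nat_lit 156380433591) (.one (nat_lit 156380433591) .nil)))))),
   .two (nat_lit 10370416655) (nat_lit 19130220595) (.two (nat_lit 706740233) (nat_lit 46510637123) (.two (nat_lit 639631367) (nat_lit 46477082661) (.two (nat_lit 721420290) (nat_lit 2988442207) (.two (nat_lit 10504634373) (nat_lit 3560964302) (.two (nat_lit 50331649) (nat_lit 47548728598) (.two (nat_lit 16777216) (nat_lit 4195308) (.one (nat_lit 4197663) .nil))))))),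
   .two (nat_lit 1178599439) (nat_lit 3525312527) (.two (nat_lit 1178599432) (nat_lit 3525312548) (.two (nat_lit 1178599432) (nat_lit 3525312530) (.two (nat_lit 9768534021) (nat_lit 3558867136) (.two (nat_lit 2887778308) (nat_lit 184989778120) (.two (nat_lit 37748737) (nat_lit 174753580509) (.two (nat_lit 4194304) (nat_lit 174753580509) (.one (nat_lit 2101197) .nil))))))),
   .two (nat_lit 18928893967) (nat_lit 184993972239) (.two (nat_lit 184993972232) (nat_lit 158649548870) (.two (nat_lit 184993972232) (nat_lit 183848927253) (.two (nat_lit 713031682) (nat_lit 4194676) (.two (nat_lit 713031684) (nat_lit 159219974348) (.two (nat_lit 612368385) (nat_lit 174755676630) (.two (nat_lit 8388608) (nat_lit 12050236393) (.one (nat_lit 4198350) .nil))))))),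
   .two (nat_lit 739246095) (nat_lit 159224168464) (.two (nat_lit 165532401672) (nat_lit 185020186691) (.two (nat_lit 20644364292) (nat_lit 1947205670) (.two (nat_lit 10343153669) (nat_lit 11610882254) (.two (nat_lit 34603009) (nat_lit 8390722) (.two (nat_lit 8388608) (nat_lit 1051680) (.one (nat_lit 1052623) .nil)))))),
   .two (nat_lit 10506731535) (nat_lit 184416206865) (.two (nat_lit 183845781512) (nat_lit 158649548930) (.two (nat_lit 3458203653) (nat_lit 4194988) (.two (nat_lit 2097153) (nat_lit 19093521242) (.two (nat_lit 2097152) (nat_lit 1050896) (.one (nat_lit 10370420645) .nil))))),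
   .two (nat_lit 50331663) (nat_lit 9934209039) (.two (nat_lit 285212680) (nat_lit 773849219) (.two (nat_lit 2902458373) (nat_lit 9766437470) (.two (nat_lit 16777217) (nat_lit 47548727776) (.two (nat_lit 16777216) (nat_lit 337642989) (.one (nat_lit 16781265) .nil))))),
   .two (nat_lit 612368392) (nat_lit 605028486) (.two (nat_lit 176160772) (nat_lit 46507491533) (.two (nat_lit 16777216) (nat_lit 1779433979) (.one (nat_lit 8392658) .nil))),
   .two (nat_lit 10504634383) (nat_lit 20704133144) (.two (nat_lit 9866051592) (nat_lit 10437525541) (.two (nat_lit 9866051592) (nat_lit 3558866963) (.two (nat_lit 1276116996) (nat_lit 169869510) (.two (nat_lit 1343225861) (nat_lit 337641672) (.two (nat_lit 9766436865) (nat_lit 1049935) (.two (nat_lit 1048576) (nat_lit 2099473) (.one (nat_lit 1052627) .nil))))))),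
   .two (nat_lit 10385096719) (nat_lit 157036838927) (.two (nat_lit 606076936) (nat_lit 11492393025) (.two (nat_lit 13191086085) (nat_lit 83886441) (.two (nat_lit 37748737) (nat_lit 183913940191) (.two (nat_lit 4194304) (nat_lit 16780321) (.one (nat_lit 4028632974) .nil))))),
   .two (nat_lit 10504634383) (nat_lit 4601151504) (.two (nat_lit 183848927240) (nat_lit 235929733) (.two (nat_lit 203423749) (nat_lit 46409973798) (.two (nat_lit 183848927236) (nat_lit 1411384161) (.two (nat_lit 37748737) (nat_lit 1411384161) (.two (nat_lit 1048576) (nat_lit 4197410) (.one (nat_lit 1209010594) .nil)))))),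
   .two (nat_lit 28693233679) (nat_lit 285212689) (.two (nat_lit 16777224) (nat_lit 1346371714) (.two (nat_lit 16777220) (nat_lit 166132187174) (.two (nat_lit 18925748227) (nat_lit 675283628) (.two (nat_lit 156364701697) (nat_lit 4634706904) (.two (nat_lit 1048576) (nat_lit 4196626) (.one (nat_lit 4198356) .nil)))))),
   .two (nat_lit 272629767) (nat_lit 156566028366) (.two (nat_lit 4194307) (nat_lit 3557818407) (.two (nat_lit 4194304) (nat_lit 1050900) (.one (nat_lit 1052629) .nil))),
   .two (nat_lit 20705181719) (nat_lit 11610882080) (.two (nat_lit 2353004553) (nat_lit 12048138384) (.two (nat_lit 47550824455) (nat_lit 2097679) (.two (nat_lit 1176502277) (nat_lit 9969860647) (.two (nat_lit 713031683) (nat_lit 3020947552) (.two (nat_lit 41943041) (nat_lit 3020947678) (.two (nat_lit 8388608) (nat_lit 4197412) (.one (nat_lit 1052630) .nil))))))),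
   .two (nat_lit 19599982607) (nat_lit 46508539923) (.two (nat_lit 13191086088) (nat_lit 46508539923) (.two (nat_lit 2954887173) (nat_lit 37748936) (.two (nat_lit 2097153) (nat_lit 4194528) (.two (nat_lit 2097152) (nat_lit 4195303) (.one (nat_lit 4197571) .nil))))),
   .two (nat_lit 713031695) (nat_lit 12047089681) (.two (nat_lit 183845781512) (nat_lit 10007609411) (.two (nat_lit 612368389) (nat_lit 269484071) (.two (nat_lit 13187940357) (nat_lit 3028287584) (.two (nat_lit 2097153) (nat_lit 176161248) (.two (nat_lit 1048576) (nat_lit 840960229) (.one (nat_lit 8392665) .nil)))))),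
   .two (nat_lit 18933088271) (nat_lit 3458203663) (.two (nat_lit 3458203656) (nat_lit 156372041840) (.two (nat_lit 47548727301) (nat_lit 612368580) (.two (nat_lit 47548727301) (nat_lit 746586312) (.two (nat_lit 2097153) (nat_lit 184993973080) (.two (nat_lit 8388608) (nat_lit 158144136669) (.one (nat_lit 679480547) .nil)))))),
   .two (nat_lit 16777231) (nat_lit 158144135183) (.two (nat_lit 16777224) (nat_lit 2887778429) (.two (nat_lit 639631365) (nat_lit 11593056462) (.two (nat_lit 639631365) (nat_lit 4647289025) (.two (nat_lit 606076929) (nat_lit 620757459) (.two (nat_lit 16777216) (nat_lit 174753580529) (.one (nat_lit 16781276) .nil)))))),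
   .two (nat_lit 272629775) (nat_lit 1291845647) (.two (nat_lit 272629768) (nat_lit 47596962033) (.two (nat_lit 9948889093) (nat_lit 19130220902) (.two (nat_lit 9781116929) (nat_lit 156569175251) (.two (nat_lit 16777216) (nat_lit 4197232) (.one (nat_lit 16781277) .nil))))),
   .two (nat_lit 169869323) (nat_lit 10000269360) (.two (nat_lit 10939793416) (nat_lit 1377828901) (.two (nat_lit 169869320) (nat_lit 2923429909) (.two (nat_lit 2887778306) (nat_lit 18925748838) (.two (nat_lit 169869316) (nat_lit 306184290) (.two (nat_lit 2097153) (nat_lit 2319450973) (.two (nat_lit 2097152) (nat_lit 12150900198) (.one (nat_lit 4198366) .nil))))))),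
   .two (nat_lit 9948889103) (nat_lit 159217877038) (.two (nat_lit 1291845640) (nat_lit 2097189) (.two (nat_lit 16777224) (nat_lit 21777874964) (.two (nat_lit 46407876612) (nat_lit 1309671616) (.two (nat_lit 16777220) (nat_lit 10436477122) (.two (nat_lit 2097153) (nat_lit 12617516281) (.two (nat_lit 2097152) (nat_lit 9933161444) (.one (nat_lit 1052639) .nil))))))),
   .two (nat_lit 11551113231) (nat_lit 12150898717) (.two (nat_lit 75497480) (nat_lit 21778923587) (.two (nat_lit 612368389) (nat_lit 184987680864) (.two (nat_lit 612368387) (nat_lit 9766437511) (.two (nat_lit 612368385) (nat_lit 185035916117) (.two (nat_lit 8388608) (nat_lit 11593057789) (.one (nat_lit 4043312348) .nil)))))),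
   .two (nat_lit 1753219087) (nat_lit 4598005788) (.two (nat_lit 11543773192) (nat_lit 18933088367) (.two (nat_lit 705691652) (nat_lit 18933088613) (.two (nat_lit 34603009) (nat_lit 18933089096) (.two (nat_lit 1048576) (nat_lit 183953785811) (.one (nat_lit 1417676437) .nil))))),
   .two (nat_lit 16777231) (nat_lit 47555018767) (.two (nat_lit 47555018760) (nat_lit 184549443) (.two (nat_lit 176160772) (nat_lit 620757350) (.two (nat_lit 612368385) (nat_lit 20753417459) (.two (nat_lit 8388608) (nat_lit 620757968) (.one (nat_lit 16779724) .nil))))),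
   .two (nat_lit 1191182351) (nat_lit 158646403096) (.two (nat_lit 705691656) (nat_lit 2902458477) (.two (nat_lit 705691652) (nat_lit 1962934916) (.two (nat_lit 34603009) (nat_lit 18941478797) (.two (nat_lit 2097152) (nat_lit 16780145) (.one (nat_lit 16781282) .nil))))),
   .two (nat_lit 2902458383) (nat_lit 156367847439) (.two (nat_lit 183848927238) (nat_lit 2902458479) (.two (nat_lit 2902458376) (nat_lit 156367847460) (.two (nat_lit 4194306) (nat_lit 184549733) (.two (nat_lit 46409973765) (nat_lit 855638213) (.two (nat_lit 4194305) (nat_lit 184550216) (.two (nat_lit 4194304) (nat_lit 16779479) (.one (nat_lit 185035917755) .nil))))))),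
   .two (nat_lit 4613734415) (nat_lit 47555018769) (.two (nat_lit 176160776) (nat_lit 156364701763) (.two (nat_lit 16777220) (nat_lit 1175453734) (.two (nat_lit 8388613) (nat_lit 46406828128) (.two (nat_lit 8388609) (nat_lit 2920284640) (.two (nat_lit 8388608) (nat_lit 18926798336) (.one (nat_lit 2100521) .nil)))))),
   .two (nat_lit 166129041427) (nat_lit 156573368347) (.two (nat_lit 34603017) (nat_lit 10343153778) (.two (nat_lit 1846542344) (nat_lit 159257722902) (.two (nat_lit 1753219077) (nat_lit 156465365184) (.two (nat_lit 159224168453) (nat_lit 12617515105) (.two (nat_lit 612368385) (nat_lit 9765388758) (.two (nat_lit 1048576) (nat_lit 21785216477) (.one (nat_lit 3557822516) .nil))))))),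
   .two (nat_lit 75497487) (nat_lit 46978301967) (.two (nat_lit 3458203656) (nat_lit 11618222145) (.two (nat_lit 159224168453) (nat_lit 19094569319) (.two (nat_lit 156372041729) (nat_lit 156567078120) (.two (nat_lit 8388608) (nat_lit 2099479) (.one (nat_lit 713034188) .nil))))),
   .two (nat_lit 1753219087) (nat_lit 169869335) (.two (nat_lit 2954887176) (nat_lit 12054429762) (.two (nat_lit 169869316) (nat_lit 21785215072) (.two (nat_lit 169869315) (nat_lit 174692761959) (.two (nat_lit 156372041729) (nat_lit 2988442917) (.two (nat_lit 8388608) (nat_lit 2100267) (.one (nat_lit 2101219) .nil)))))),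
   .two (nat_lit 157036838927) (nat_lit 1346371612) (.two (nat_lit 4194310) (nat_lit 174686470256) (.two (nat_lit 13191086088) (nat_lit 2350907429) (.two (nat_lit 4194306) (nat_lit 47548727966) (.two (nat_lit 4194308) (nat_lit 1277165764) (.two (nat_lit 4194305) (nat_lit 169870635) (.two (nat_lit 4194304) (nat_lit 47582284032) (.one (nat_lit 874515694) .nil))))))),
   .two (nat_lit 1343225871) (nat_lit 12117344267) (.two (nat_lit 1343225864) (nat_lit 11479810069) (.two (nat_lit 705691652) (nat_lit 157038936268) (.two (nat_lit 34603009) (nat_lit 272630627) (.two (nat_lit 1048576) (nat_lit 306184421) (.one (nat_lit 4197675) .nil))))),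
   .two (nat_lit 12054429711) (nat_lit 10939793423) (.two (nat_lit 12054429704) (nat_lit 156465365011) (.two (nat_lit 184993972229) (nat_lit 9765388488) (.two (nat_lit 41943041) (nat_lit 19127075298) (.two (nat_lit 1048576) (nat_lit 209716188) (.one (nat_lit 8392678) .nil))))),
   .two (nat_lit 306184209) (nat_lit 183946444817) (.two (nat_lit 1175453704) (nat_lit 4194443) (.two (nat_lit 8388615) (nat_lit 28690088019) (.two (nat_lit 4194308) (nat_lit 3557818407) (.two (nat_lit 8388611) (nat_lit 1048950) (.two (nat_lit 8388609) (nat_lit 4195664) (.two (nat_lit 8388608) (nat_lit 4197420) (.one (nat_lit 37752761) .nil))))))),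
   .two (nat_lit 13191086095) (nat_lit 2097174) (.two (nat_lit 809500680) (nat_lit 2097174) (.two (nat_lit 10370416645) (nat_lit 46409973954) (.two (nat_lit 4194305) (nat_lit 2098477) (.two (nat_lit 4194304) (nat_lit 10437526012) (.one (nat_lit 4198375) .nil))))),
   .two (nat_lit 117440527) (nat_lit 12617515025) (.two (nat_lit 12047089672) (nat_lit 1795162224) (.two (nat_lit 184986632197) (nat_lit 13237224094) (.two (nat_lit 34603009) (nat_lit 4613735723) (.two (nat_lit 1048576) (nat_lit 16780333) (.one (nat_lit 16781288) .nil))))),
   .two (nat_lit 3525312527) (nat_lit 166132187160) (.two (nat_lit 46978301960) (nat_lit 675282966) (.two (nat_lit 3525312517) (nat_lit 1279263203) (.two (nat_lit 2097153) (nat_lit 1279263203) (.two (nat_lit 4194304) (nat_lit 706740734) (.one (nat_lit 2100527) .nil))))),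
   .two (nat_lit 183853121551) (nat_lit 2889875499) (.two (nat_lit 156569174028) (nat_lit 13195280420) (.two (nat_lit 8388616) (nat_lit 19029557267) (.two (nat_lit 1191182341) (nat_lit 612368575) (.two (nat_lit 16777217) (nat_lit 847250671) (.two (nat_lit 4194304) (nat_lit 46414169036) (.one (nat_lit 8392681) .nil)))))),
   .two (nat_lit 285212687) (nat_lit 183848927247) (.two (nat_lit 285212680) (nat_lit 809500709) (.two (nat_lit 50331656) (nat_lit 19599982611) (.two (nat_lit 13191086085) (nat_lit 1392509129) (.two (nat_lit 13191086085) (nat_lit 3036676194) (.two (nat_lit 37748737) (nat_lit 16778737) (.two (nat_lit 4194304) (nat_lit 16778737) (.one (nat_lit 16781290) .nil))))))),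
   .two (nat_lit 16777231) (nat_lit 28693233715) (.two (nat_lit 1312817162) (nat_lit 873463944) (.two (nat_lit 47550824455) (nat_lit 11593056293) (.two (nat_lit 11479810053) (nat_lit 352321574) (.two (nat_lit 9933160453) (nat_lit 185035915470) (.two (nat_lit 4194305) (nat_lit 16778577) (.two (nat_lit 16777216) (nat_lit 4197424) (.one (nat_lit 4197683) .nil))))))),
   .two (nat_lit 37748744) (nat_lit 9948889122) (.two (nat_lit 4194308) (nat_lit 654311462) (.two (nat_lit 2097152) (nat_lit 16780337) (.one (nat_lit 4196821) .nil))),
   .two (nat_lit 176160783) (nat_lit 1291845649) (.two (nat_lit 9881780232) (nat_lit 166136381571) (.two (nat_lit 1358954501) (nat_lit 47555018790) (.two (nat_lit 1358954501) (nat_lit 37320917193) (.two (nat_lit 2097153) (nat_lit 174768259550) (.two (nat_lit 2097152) (nat_lit 184551653) (.one (nat_lit 16781292) .nil)))))),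
   .two (nat_lit 20638072843) (nat_lit 3527409679) (.two (nat_lit 20638072838) (nat_lit 3527409728) (.two (nat_lit 205520904) (nat_lit 1310720021) (.two (nat_lit 20638072836) (nat_lit 46477082815) (.two (nat_lit 156365750273) (nat_lit 156367848687) (.two (nat_lit 1048576) (nat_lit 306185164) (.one (nat_lit 4198381) .nil)))))),
   .two (nat_lit 184987680796) (nat_lit 28690087979) (.two (nat_lit 809500680) (nat_lit 156968681587) (.two (nat_lit 11479810053) (nat_lit 1048615) (.two (nat_lit 4194308) (nat_lit 873464006) (.two (nat_lit 4194305) (nat_lit 605029217) (.two (nat_lit 4194304) (nat_lit 2100274) (.one (nat_lit 46980402442) .nil)))))),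
   .two (nat_lit 156372041743) (nat_lit 10506731535) (.two (nat_lit 2889875464) (nat_lit 8388905) (.two (nat_lit 272629765) (nat_lit 10343153702) (.two (nat_lit 272629765) (nat_lit 20644364384) (.two (nat_lit 4194305) (nat_lit 243270112) (.two (nat_lit 4194304) (nat_lit 8390941) (.one (nat_lit 4198382) .nil)))))),
   .two (nat_lit 1276117000) (nat_lit 19027460211) (.two (nat_lit 166130089989) (nat_lit 9866051622) (.two (nat_lit 4194304) (nat_lit 1051699) (.one (nat_lit 1052656) .nil))),
   .two (nat_lit 158143086616) (nat_lit 46474985489) (.two (nat_lit 1276117000) (nat_lit 874512527) (.two (nat_lit 272629767) (nat_lit 21207449683) (.two (nat_lit 166130089989) (nat_lit 9866051622) (.two (nat_lit 166130089987) (nat_lit 1049305) (.two (nat_lit 2097153) (nat_lit 1050694) (.two (nat_lit 4194304) (nat_lit 2100276) (.one (nat_lit 2101233) .nil))))))),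
   .two (nat_lit 9781116943) (nat_lit 11610882065) (.two (nat_lit 68157448) (nat_lit 1191182403) (.two (nat_lit 605028357) (nat_lit 9781116966) (.two (nat_lit 605028357) (nat_lit 11492393056) (.two (nat_lit 4194305) (nat_lit 1913651678) (.two (nat_lit 4194304) (nat_lit 336595173) (.one (nat_lit 16781298) .nil)))))),
   .two (nat_lit 4605345807) (nat_lit 11544821788) (.two (nat_lit 159217877000) (nat_lit 46414168131) (.two (nat_lit 169869316) (nat_lit 156372041923) (.two (nat_lit 169869316) (nat_lit 8388801) (.two (nat_lit 2097153) (nat_lit 8389100) (.two (nat_lit 8388608) (nat_lit 2099486) (.one (nat_lit 2101236) .nil)))))),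
   .two (nat_lit 184986632203) (nat_lit 19599982607) (.two (nat_lit 705691654) (nat_lit 174688567333) (.two (nat_lit 19599982599) (nat_lit 705691669) (.two (nat_lit 705691650) (nat_lit 184419352768) (.two (nat_lit 705691652) (nat_lit 28693233761) (.two (nat_lit 34603009) (nat_lit 171966936) (.two (nat_lit 1048576) (nat_lit 11614028755) (.one (nat_lit 171969722) .nil))))))),
   .two (nat_lit 157036838927) (nat_lit 1916796943) (.two (nat_lit 1916796936) (nat_lit 2921332755) (.two (nat_lit 11479810052) (nat_lit 166130090081) (.two (nat_lit 37748737) (nat_lit 35652060) (.two (nat_lit 4194304) (nat_lit 4599054564) (.one (nat_lit 2100537) .nil))))),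
   .two (nat_lit 203423759) (nat_lit 12117344272) (.two (nat_lit 203423752) (nat_lit 171966537) (.two (nat_lit 183848927240) (nat_lit 183846830163) (.two (nat_lit 2954887173) (nat_lit 19599982630) (.two (nat_lit 156367847427) (nat_lit 159251431615) (.two (nat_lit 156367847425) (nat_lit 47582281947) (.two (nat_lit 4194304) (nat_lit 2100277) (.one (nat_lit 4198389) .nil))))))),
   .two (nat_lit 2961178631) (nat_lit 1310720066) (.two (nat_lit 176160771) (nat_lit 1310720038) (.two (nat_lit 1048576) (nat_lit 673186825) (.one (nat_lit 673186825) .nil))),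
   .two (nat_lit 11543773199) (nat_lit 239075377) (.two (nat_lit 11543773192) (nat_lit 19029557369) (.two (nat_lit 10506731525) (nat_lit 159250383207) (.two (nat_lit 9768534017) (nat_lit 705692904) (.two (nat_lit 1048576) (nat_lit 156367848957) (.one (nat_lit 1051867) .nil))))),
   .two (nat_lit 612368399) (nat_lit 183848927247) (.two (nat_lit 612368392) (nat_lit 156535619713) (.two (nat_lit 176160772) (nat_lit 272629799) (.two (nat_lit 28089253893) (nat_lit 880804214) (.two (nat_lit 8388609) (nat_lit 272630240) (.two (nat_lit 1048576) (nat_lit 4196640) (.one (nat_lit 8392696) .nil)))))),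
   .two (nat_lit 184416206859) (nat_lit 46980399119) (.two (nat_lit 183845781510) (nat_lit 19532873795) (.two (nat_lit 1745879048) (nat_lit 2923429907) (.two (nat_lit 183845781508) (nat_lit 166132187331) (.two (nat_lit 183845781508) (nat_lit 171966664) (.two (nat_lit 34603009) (nat_lit 4030727006) (.two (nat_lit 1048576) (nat_lit 4196641) (.one (nat_lit 1052665) .nil))))))),
   .two (nat_lit 19599982607) (nat_lit 185020186650) (.two (nat_lit 169869318) (nat_lit 12050235516) (.two (nat_lit 705691656) (nat_lit 174688567333) (.two (nat_lit 169869314) (nat_lit 11479810715) (.two (nat_lit 2097157) (nat_lit 775946437) (.two (nat_lit 2097153) (nat_lit 9768535301) (.two (nat_lit 2097152) (nat_lit 37751002) (.one (nat_lit 2101242) .nil))))))),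
   .two (nat_lit 28757196815) (nat_lit 46984593435) (.two (nat_lit 9866051592) (nat_lit 158183981141) (.two (nat_lit 12121538567) (nat_lit 4631560309) (.two (nat_lit 1343225861) (nat_lit 2894069965) (.two (nat_lit 1343225861) (nat_lit 174759870661) (.two (nat_lit 9766436865) (nat_lit 679477470) (.two (nat_lit 2097152) (nat_lit 1050914) (.one (nat_lit 1052667) .nil))))))),
   .two (nat_lit 9934209039) (nat_lit 165540790299) (.two (nat_lit 4043309066) (nat_lit 183947493495) (.two (nat_lit 11559501837) (nat_lit 158177689637) (.two (nat_lit 1795162117) (nat_lit 10001318501) (.two (nat_lit 50331649) (nat_lit 2099090) (.two (nat_lit 16777216) (nat_lit 4599056637) (.one (nat_lit 2101244) .nil)))))),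
   .two (nat_lit 1277165583) (nat_lit 3464495127) (.two (nat_lit 1277165576) (nat_lit 9806282790) (.two (nat_lit 156372041736) (nat_lit 9934209059) (.two (nat_lit 9934209029) (nat_lit 9806282790) (.two (nat_lit 46414168068) (nat_lit 3558867040) (.two (nat_lit 9781116929) (nat_lit 3558867424) (.two (nat_lit 16777216) (nat_lit 8390947) (.one (nat_lit 8392701) .nil))))))),
   .two (nat_lit 11543773199) (nat_lit 876609558) (.two (nat_lit 11543773192) (nat_lit 876609558) (.two (nat_lit 156971827205) (nat_lit 184986632385) (.two (nat_lit 156367847425) (nat_lit 11510219240) (.two (nat_lit 1048576) (nat_lit 4195313) (.one (nat_lit 1052670) .nil))))),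
   .two (nat_lit 713031695) (nat_lit 21223178282) (.two (nat_lit 4613734408) (nat_lit 8388672) (.two (nat_lit 16777220) (nat_lit 1779433829) (.two (nat_lit 16777217) (nat_lit 1779434312) (.two (nat_lit 16777216) (nat_lit 75498445) (.one (nat_lit 8391996) .nil))))),
   .two (nat_lit 612368399) (nat_lit 11559501839) (.two (nat_lit 612368392) (nat_lit 117440546) (.two (nat_lit 612368392) (nat_lit 754974755) (.two (nat_lit 176160772) (nat_lit 21827158054) (.two (nat_lit 176160772) (nat_lit 28806479968) (.two (nat_lit 8388609) (nat_lit 12620660955) (.two (nat_lit 1048576) (nat_lit 10439623660) (.one (nat_lit 16781311) .nil))))))),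
   .two (nat_lit 28690087951) (nat_lit 876609560) (.two (nat_lit 272629768) (nat_lit 12114198592) (.two (nat_lit 4194308) (nat_lit 1913651391) (.two (nat_lit 4194305) (nat_lit 183912890843) (.two (nat_lit 8388608) (nat_lit 184419354849) (.one (nat_lit 4197693) .nil))))),
   .two (nat_lit 1753219087) (nat_lit 10335813677) (.two (nat_lit 4194312) (nat_lit 156372041764) (.two (nat_lit 4194312) (nat_lit 46414168082) (.two (nat_lit 1343225861) (nat_lit 156372042391) (.two (nat_lit 37748737) (nat_lit 8389973) (.two (nat_lit 1048576) (nat_lit 8390949) (.one (nat_lit 1052672) .nil)))))),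
   .two (nat_lit 2889875471) (nat_lit 2349858848) (.two (nat_lit 28690087944) (nat_lit 1178599491) (.two (nat_lit 1913651205) (nat_lit 19096666318) (.two (nat_lit 19529728003) (nat_lit 11479810145) (.two (nat_lit 156364701697) (nat_lit 47550824917) (.two (nat_lit 1048576) (nat_lit 4197434) (.one (nat_lit 4198401) .nil)))))),
   .two (nat_lit 2954887183) (nat_lit 20737687571) (.two (nat_lit 2954887176) (nat_lit 20737687571) (.two (nat_lit 169869314) (nat_lit 1049306) (.two (nat_lit 606076929) (nat_lit 3557818851) (.two (nat_lit 2097152) (nat_lit 18925749765) (.one (nat_lit 18925751570) .nil))))),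
   .two (nat_lit 10506731535) (nat_lit 3558866990) (.two (nat_lit 28758245384) (nat_lit 20640170103) (.two (nat_lit 1847590917) (nat_lit 4194989) (.two (nat_lit 606076929) (nat_lit 13224641363) (.two (nat_lit 2097152) (nat_lit 4197435) (.one (nat_lit 2099601) .nil))))),
   .two (nat_lit 41943055) (nat_lit 12047089679) (.two (nat_lit 41943048) (nat_lit 11577327683) (.two (nat_lit 713031685) (nat_lit 10436477289) (.two (nat_lit 8388609) (nat_lit 1376780510) (.two (nat_lit 8388608) (nat_lit 1410336265) (.one (nat_lit 1051968) .nil))))),
   .two (nat_lit 83886095) (nat_lit 19604176918) (.two (nat_lit 21818769417) (nat_lit 721420401) (.two (nat_lit 83886088) (nat_lit 19604176918) (.two (nat_lit 47555018757) (nat_lit 721420480) (.two (nat_lit 47555018757) (nat_lit 158192369762) (.two (nat_lit 8388609) (nat_lit 16778085) (.two (nat_lit 8388608) (nat_lit 183861513519) (.one (nat_lit 3036680075) .nil))))))),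
   .two (nat_lit 654311439) (nat_lit 739246095) (.two (nat_lit 654311432) (nat_lit 12047089732) (.two (nat_lit 739246088) (nat_lit 28806479909) (.two (nat_lit 10385096709) (nat_lit 46473936935) (.two (nat_lit 8388611) (nat_lit 1049765) (.two (nat_lit 16777217) (nat_lit 11006903137) (.two (nat_lit 16777216) (nat_lit 8391740) (.one (nat_lit 16780554) .nil))))))),
   .two (nat_lit 176160783) (nat_lit 47582281774) (.two (nat_lit 9799991305) (nat_lit 3028287554) (.two (nat_lit 176160776) (nat_lit 9766436886) (.two (nat_lit 176160770) (nat_lit 2097528) (.two (nat_lit 176160771) (nat_lit 2097880) (.two (nat_lit 606076929) (nat_lit 41943519) (.two (nat_lit 8388608) (nat_lit 2099496) (.one (nat_lit 8392599) .nil))))))),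
   .two (nat_lit 2889875471) (nat_lit 28087156751) (.two (nat_lit 83886088) (nat_lit 272629824) (.two (nat_lit 620756997) (nat_lit 809500863) (.two (nat_lit 50331649) (nat_lit 4634706386) (.two (nat_lit 2097152) (nat_lit 11492395233) (.one (nat_lit 21827161291) .nil))))),
   .two (nat_lit 11510218771) (nat_lit 13224640538) (.two (nat_lit 37748744) (nat_lit 11510218771) (.two (nat_lit 169869314) (nat_lit 1049307) (.two (nat_lit 156364701697) (nat_lit 606077159) (.two (nat_lit 1048576) (nat_lit 606077159) (.one (nat_lit 2100548) .nil))))),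
   .two (nat_lit 18933088271) (nat_lit 158075977743) (.two (nat_lit 18933088264) (nat_lit 638582901) (.two (nat_lit 183853121540) (nat_lit 10436477523) (.two (nat_lit 41943041) (nat_lit 46406829305) (.two (nat_lit 8388608) (nat_lit 2953840842) (.one (nat_lit 16781314) .nil))))),
   .two (nat_lit 4194319) (nat_lit 41943231) (.two (nat_lit 4194308) (nat_lit 1175454536) (.two (nat_lit 2097153) (nat_lit 9768535515) (.two (nat_lit 1048576) (nat_lit 1277168783) (.one (nat_lit 11543777285) .nil)))),
   .two (nat_lit 12050235407) (nat_lit 184993972288) (.two (nat_lit 183848927240) (nat_lit 11584667839) (.two (nat_lit 809500677) (nat_lit 2350908233) (.two (nat_lit 37748737) (nat_lit 142607836) (.two (nat_lit 2097152) (nat_lit 166203493528) (.one (nat_lit 13188993030) .nil))))),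
   .two (nat_lit 12050235407) (nat_lit 184993972288) (.two (nat_lit 184423546888) (nat_lit 19599982783) (.two (nat_lit 156367847429) (nat_lit 10437526344) (.two (nat_lit 37748737) (nat_lit 142607836) (.two (nat_lit 2097152) (nat_lit 28798094488) (.one (nat_lit 184987684876) .nil))))),
   .two (nat_lit 4613734415) (nat_lit 11513364546) (.two (nat_lit 169869320) (nat_lit 10015998143) (.two (nat_lit 2097157) (nat_lit 654311897) (.two (nat_lit 2097155) (nat_lit 18928894792) (.two (nat_lit 37748737) (nat_lit 20638075083) (.two (nat_lit 1048576) (nat_lit 2100391) (.one (nat_lit 169872714) .nil)))))),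
   .two (nat_lit 612368399) (nat_lit 10385096816) (.two (nat_lit 185002360841) (nat_lit 159224168486) (.two (nat_lit 612368392) (nat_lit 11626610884) (.two (nat_lit 1191182341) (nat_lit 159224169288) (.two (nat_lit 16777217) (nat_lit 159224169947) (.two (nat_lit 16777216) (nat_lit 158150428257) (.one (nat_lit 166237047271) .nil)))))),
   .two (nat_lit 117440527) (nat_lit 9906946167) (.two (nat_lit 8388614) (nat_lit 13203669834) (.two (nat_lit 813694984) (nat_lit 3036676292) (.two (nat_lit 8388612) (nat_lit 13203669834) (.two (nat_lit 8388609) (nat_lit 620759213) (.two (nat_lit 16777216) (nat_lit 847251067) (.one (nat_lit 773851635) .nil)))))),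
   .two (nat_lit 4194315) (nat_lit 8388672) (.two (nat_lit 1178599439) (nat_lit 880803981) (.two (nat_lit 4605345800) (nat_lit 272629854) (.two (nat_lit 8388616) (nat_lit 71303263) (.two (nat_lit 2889875458) (nat_lit 9772729609) (.two (nat_lit 4194308) (nat_lit 3028287953) (.two (nat_lit 4194305) (nat_lit 8390134) (.two (nat_lit 4194304) (nat_lit 8391063) (.one (nat_lit 3024096614) .nil)))))))),
   .two (nat_lit 739246095) (nat_lit 184993972288) (.two (nat_lit 739246088) (nat_lit 21785215167) (.two (nat_lit 11543773189) (nat_lit 184993972689) (.two (nat_lit 705691651) (nat_lit 880804060) (.two (nat_lit 34603009) (nat_lit 880804812) (.two (nat_lit 1048576) (nat_lit 713033340) (.one (nat_lit 21811433487) .nil)))))),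
   .two (nat_lit 813694991) (nat_lit 46510637122) (.two (nat_lit 813694984) (nat_lit 166199296359) (.two (nat_lit 46980399109) (nat_lit 166197199693) (.two (nat_lit 4194307) (nat_lit 20644365534) (.two (nat_lit 2097153) (nat_lit 13224642734) (.two (nat_lit 4194304) (nat_lit 8391066) (.one (nat_lit 4198460) .nil)))))),
   .two (nat_lit 8388623) (nat_lit 28806479987) (.two (nat_lit 117440520) (nat_lit 41943231) (.two (nat_lit 11492392964) (nat_lit 11618222554) (.two (nat_lit 8388609) (nat_lit 3458205898) (.two (nat_lit 16777216) (nat_lit 2323646844) (.one (nat_lit 11578378735) .nil))))),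
   .two (nat_lit 41943055) (nat_lit 3527409702) (.two (nat_lit 813694991) (nat_lit 272629795) (.two (nat_lit 813694984) (nat_lit 13224640608) (.two (nat_lit 813694983) (nat_lit 4194667) (.two (nat_lit 2887778308) (nat_lit 1212154369) (.two (nat_lit 169869315) (nat_lit 4601152330) (.two (nat_lit 2097153) (nat_lit 46409974741) (.two (nat_lit 2097152) (nat_lit 8390270) (.one (nat_lit 4196863) .nil)))))))),
   .two (nat_lit 117440527) (nat_lit 156465365059) (.two (nat_lit 11492392968) (nat_lit 873464008) (.two (nat_lit 11476664324) (nat_lit 1191183176) (.two (nat_lit 34603009) (nat_lit 1795163099) (.two (nat_lit 1048576) (nat_lit 16780498) (.one (nat_lit 9814675473) .nil))))),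
   .two (nat_lit 1916796943) (nat_lit 13195280451) (.two (nat_lit 11479810054) (nat_lit 183853122118) (.two (nat_lit 1916796936) (nat_lit 4605345987) (.two (nat_lit 11479810052) (nat_lit 183853122377) (.two (nat_lit 37748737) (nat_lit 184993973723) (.two (nat_lit 4194304) (nat_lit 159224171686) (.one (nat_lit 8391168) .nil)))))),
   .two (nat_lit 343932952) (nat_lit 156535619623) (.two (nat_lit 4601151496) (nat_lit 9974054951) (.two (nat_lit 37748744) (nat_lit 2323644612) (.two (nat_lit 4194308) (nat_lit 1417675230) (.two (nat_lit 4194305) (nat_lit 1417675741) (.two (nat_lit 4194304) (nat_lit 37320920256) (.one (nat_lit 1212157288) .nil)))))),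
   .two (nat_lit 822083599) (nat_lit 28764536954) (.two (nat_lit 16777222) (nat_lit 1786774089) (.two (nat_lit 822083592) (nat_lit 1786773705) (.two (nat_lit 16777220) (nat_lit 47555019230) (.two (nat_lit 9768534017) (nat_lit 12129929408) (.two (nat_lit 4194304) (nat_lit 16779675) (.one (nat_lit 8392767) .nil)))))),
   .two (nat_lit 713031695) (nat_lit 4043309173) (.two (nat_lit 117440520) (nat_lit 343933025) (.two (nat_lit 184431935493) (nat_lit 184993973064) (.two (nat_lit 50331649) (nat_lit 184993973723) (.two (nat_lit 2097152) (nat_lit 243271266) (.one (nat_lit 11578379590) .nil))))),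
   .two (nat_lit 28758245391) (nat_lit 11010048132) (.two (nat_lit 205520904) (nat_lit 158144135360) (.two (nat_lit 28758245383) (nat_lit 157038936159) (.two (nat_lit 1847590917) (nat_lit 809500894) (.two (nat_lit 9934209029) (nat_lit 46409974230) (.two (nat_lit 605028353) (nat_lit 4196589) (.two (nat_lit 1048576) (nat_lit 169872532) (.one (nat_lit 2101313) .nil))))))),
   .two (nat_lit 1346371612) (nat_lit 19530776655) (.two (nat_lit 10942939145) (nat_lit 12618563623) (.two (nat_lit 13191086088) (nat_lit 2097519) (.two (nat_lit 183848927235) (nat_lit 2098006) (.two (nat_lit 4194305) (nat_lit 136315862) (.two (nat_lit 4194304) (nat_lit 2100437) (.one (nat_lit 2100595) .nil)))))),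
   .two (nat_lit 83886095) (nat_lit 11479810115) (.two (nat_lit 11559501832) (nat_lit 156569174112) (.two (nat_lit 83886088) (nat_lit 183848927330) (.two (nat_lit 721420290) (nat_lit 4195159) (.two (nat_lit 11479810051) (nat_lit 1929380687) (.two (nat_lit 50331649) (nat_lit 156569174985) (.two (nat_lit 16777216) (nat_lit 4197590) (.one (nat_lit 16781378) .nil))))))),
   .two (nat_lit 9948889103) (nat_lit 101711908) (.two (nat_lit 9948889103) (nat_lit 739246098) (.two (nat_lit 620757000) (nat_lit 2349858911) (.two (nat_lit 11476664322) (nat_lit 16778072) (.two (nat_lit 620756995) (nat_lit 21811429596) (.two (nat_lit 16777217) (nat_lit 158176642545) (.two (nat_lit 16777216) (nat_lit 158176643474) (.one (nat_lit 16781379) .nil))))))),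
   .two (nat_lit 9940500495) (nat_lit 159217877029) (.two (nat_lit 612368399) (nat_lit 156533522454) (.two (nat_lit 11551113224) (nat_lit 46409973858) (.two (nat_lit 8388610) (nat_lit 156971827673) (.two (nat_lit 176160773) (nat_lit 46510637276) (.two (nat_lit 4194305) (nat_lit 1310720979) (.two (nat_lit 2097152) (nat_lit 166132188787) (.one (nat_lit 4198468) .nil))))))),
   .two (nat_lit 269484060) (nat_lit 1377828942) (.two (nat_lit 4194310) (nat_lit 158647451687) (.two (nat_lit 4194312) (nat_lit 1277165764) (.two (nat_lit 4194308) (nat_lit 156533522910) (.two (nat_lit 4194305) (nat_lit 1210057686) (.two (nat_lit 1048576) (nat_lit 2100439) (.one (nat_lit 1052741) .nil)))))),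
   .two (nat_lit 639631375) (nat_lit 16777280) (.two (nat_lit 639631368) (nat_lit 16777309) (.two (nat_lit 2887778306) (nat_lit 16777695) (.two (nat_lit 184549379) (nat_lit 270532829) (.two (nat_lit 50331649) (nat_lit 35653864) (.two (nat_lit 16777216) (nat_lit 2100440) (.one (nat_lit 16781334) .nil)))))),
   .two (nat_lit 8388623) (nat_lit 184986632256) (.two (nat_lit 8388616) (nat_lit 184986632383) (.two (nat_lit 8388612) (nat_lit 1376780753) (.two (nat_lit 176160771) (nat_lit 156566029536) (.two (nat_lit 156364701697) (nat_lit 2350909642) (.two (nat_lit 2097152) (nat_lit 11543774844) (.one (nat_lit 11618226206) .nil)))))),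
   .two (nat_lit 19596836879) (nat_lit 4632608841) (.two (nat_lit 183845781510) (nat_lit 2097520) (.two (nat_lit 12121538567) (nat_lit 12617515200) (.two (nat_lit 183853121539) (nat_lit 158075978206) (.two (nat_lit 41943041) (nat_lit 20637025236) (.two (nat_lit 8388608) (nat_lit 1051039) (.one (nat_lit 1052742) .nil)))))),
   .two (nat_lit 9768534031) (nat_lit 11517558899) (.two (nat_lit 205520904) (nat_lit 46481277293) (.two (nat_lit 205520904) (nat_lit 713031778) (.two (nat_lit 1276116994) (nat_lit 8389088) (.two (nat_lit 2956984325) (nat_lit 209716049) (.two (nat_lit 4194305) (nat_lit 2894071277) (.two (nat_lit 1048576) (nat_lit 8391072) (.one (nat_lit 1052743) .nil))))))),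
   .two (nat_lit 47548727311) (nat_lit 156372041809) (.two (nat_lit 20644364296) (nat_lit 9967763494) (.two (nat_lit 20644364296) (nat_lit 10907287648) (.two (nat_lit 159224168453) (nat_lit 10907287771) (.two (nat_lit 612368385) (nat_lit 236979209) (.two (nat_lit 8388608) (nat_lit 2099617) (.one (nat_lit 2100598) .nil)))))),
   .two (nat_lit 2954887183) (nat_lit 47550824526) (.two (nat_lit 47550824464) (nat_lit 2988441713) (.two (nat_lit 3460300808) (nat_lit 2988441792) (.two (nat_lit 270532615) (nat_lit 156367847615) (.two (nat_lit 2097157) (nat_lit 183848927454) (.two (nat_lit 2097155) (nat_lit 156367847903) (.two (nat_lit 605028353) (nat_lit 4196592) (.two (nat_lit 16777216) (nat_lit 9765391540) (.one (nat_lit 1052744) .nil)))))))),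
   .two (nat_lit 272629775) (nat_lit 19027460214) (.two (nat_lit 272629768) (nat_lit 269484071) (.two (nat_lit 2887778312) (nat_lit 11580473709) (.two (nat_lit 1344274437) (nat_lit 185020187092) (.two (nat_lit 37748737) (nat_lit 10436477441) (.two (nat_lit 4194304) (nat_lit 1779435900) (.one (nat_lit 2099717) .nil)))))),
   .two (nat_lit 2889875471) (nat_lit 28086108239) (.two (nat_lit 9768534031) (nat_lit 184986632227) (.two (nat_lit 9768534024) (nat_lit 158075977824) (.two (nat_lit 16777223) (nat_lit 138412697) (.two (nat_lit 2889875460) (nat_lit 158075977950) (.two (nat_lit 184549379) (nat_lit 46507492174) (.two (nat_lit 16777217) (nat_lit 1376781794) (.two (nat_lit 16777216) (nat_lit 168823996) (.one (nat_lit 1052745) .nil)))))))),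
   .two (nat_lit 4194312) (nat_lit 780140582) (.two (nat_lit 8388608) (nat_lit 4196771) .nil),
   .two (nat_lit 28093448207) (nat_lit 156465365105) (.two (nat_lit 2953838602) (nat_lit 165532401702) (.two (nat_lit 28093448200) (nat_lit 156465365184) (.two (nat_lit 19596836869) (nat_lit 165532402504) (.two (nat_lit 9765388289) (nat_lit 11618224310) (.two (nat_lit 1048576) (nat_lit 19033754769) (.one (nat_lit 11510222973) .nil)))))),
   .two (nat_lit 47548727307) (nat_lit 12050235516) (.two (nat_lit 159217877007) (nat_lit 2923429907) (.two (nat_lit 705691656) (nat_lit 28693233761) (.two (nat_lit 34603013) (nat_lit 171966936) (.two (nat_lit 34603013) (nat_lit 28693233881) (.two (nat_lit 605028353) (nat_lit 11614028755) (.two (nat_lit 2097152) (nat_lit 4195976) (.one (nat_lit 2101325) .nil))))))),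
   .two (nat_lit 9934209039) (nat_lit 158083317779) (.two (nat_lit 169869316) (nat_lit 3464495321) (.two (nat_lit 2097153) (nat_lit 679477476) (.one (nat_lit 8392057) .nil))),
   .two (nat_lit 272629775) (nat_lit 46508539923) (.two (nat_lit 4194306) (nat_lit 2097634) (.two (nat_lit 4194305) (nat_lit 11511267838) (.one (nat_lit 2100602) .nil))),
   .two (nat_lit 28757196815) (nat_lit 184993972288) (.two (nat_lit 184993972232) (nat_lit 1410334920) (.two (nat_lit 1276116996) (nat_lit 28093448657) (.two (nat_lit 1276116995) (nat_lit 28093449428) (.two (nat_lit 605028353) (nat_lit 159224169420) (.two (nat_lit 1048576) (nat_lit 1317013116) (.one (nat_lit 8392782) .nil)))))),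
   .two (nat_lit 183853121551) (nat_lit 47596961830) (.two (nat_lit 2969567240) (nat_lit 12054429734) (.two (nat_lit 9948889096) (nat_lit 4605345888) (.two (nat_lit 156367847427) (nat_lit 10007609857) (.two (nat_lit 156364701697) (nat_lit 10007609857) (.two (nat_lit 1048576) (nat_lit 16780512) (.one (nat_lit 16780667) .nil)))))),
   .two (nat_lit 2889875471) (nat_lit 16777280) (.two (nat_lit 2889875464) (nat_lit 352321727) (.two (nat_lit 2889875460) (nat_lit 889192667) (.two (nat_lit 10506731525) (nat_lit 165525062485) (.two (nat_lit 50331649) (nat_lit 158075979234) (.two (nat_lit 1048576) (nat_lit 19142805904) (.one (nat_lit 1052752) .nil)))))),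
   .two (nat_lit 639631375) (nat_lit 46414168083) (.two (nat_lit 169869314) (nat_lit 8389092) (.two (nat_lit 156372041729) (nat_lit 46474985701) (.one (nat_lit 2101329) .nil))),
   .two (nat_lit 2961178639) (nat_lit 166197198885) (.two (nat_lit 176160783) (nat_lit 20704133142) (.two (nat_lit 2887778312) (nat_lit 20745027682) (.two (nat_lit 34603013) (nat_lit 8389087) (.two (nat_lit 4599054341) (nat_lit 47555018981) (.two (nat_lit 2097153) (nat_lit 157035791314) (.two (nat_lit 2097152) (nat_lit 184986633832) (.one (nat_lit 2101330) .nil))))))),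
   .two (nat_lit 713031695) (nat_lit 1312817271) (.two (nat_lit 713031688) (nat_lit 10540286153) (.two (nat_lit 713031688) (nat_lit 11479810146) (.two (nat_lit 713031682) (nat_lit 19130220766) (.two (nat_lit 41943045) (nat_lit 2956985169) (.two (nat_lit 41943041) (nat_lit 171967981) (.two (nat_lit 8388608) (nat_lit 4197602) (.one (nat_lit 8392787) .nil))))))),
   .two (nat_lit 713031695) (nat_lit 184989778034) (.two (nat_lit 713031688) (nat_lit 1346371781) (.two (nat_lit 3458203656) (nat_lit 10007609442) (.two (nat_lit 50331653) (nat_lit 742392648) (.two (nat_lit 620756993) (nat_lit 205523126) (.two (nat_lit 16777216) (nat_lit 4196774) (.one (nat_lit 8392788) .nil)))))),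
   .two (nat_lit 184549391) (nat_lit 12047089732) (.two (nat_lit 620757000) (nat_lit 21777874983) (.two (nat_lit 276824071) (nat_lit 889192643) (.two (nat_lit 8388611) (nat_lit 158075977947) (.two (nat_lit 8388609) (nat_lit 28086108667) (.two (nat_lit 8388608) (nat_lit 1051042) (.one (nat_lit 16781397) .nil)))))),
   .two (nat_lit 639631375) (nat_lit 352321574) (.two (nat_lit 16777224) (nat_lit 9766436902) (.two (nat_lit 41943047) (nat_lit 46406828128) (.two (nat_lit 41943043) (nat_lit 46406828251) (.two (nat_lit 41943041) (nat_lit 10000269824) (.two (nat_lit 8388608) (nat_lit 16780516) (.one (nat_lit 16781399) .nil)))))),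
   .two (nat_lit 19599982607) (nat_lit 158646403185) (.two (nat_lit 158075977736) (nat_lit 28693233761) (.two (nat_lit 10939793413) (nat_lit 1212154696) (.two (nat_lit 605028353) (nat_lit 19130222774) (.two (nat_lit 1048576) (nat_lit 20640173201) (.one (nat_lit 4197760) .nil))))),
   .two (nat_lit 4605345803) (nat_lit 21811429446) (.two (nat_lit 46407876623) (nat_lit 2994733076) (.two (nat_lit 276824072) (nat_lit 1310720097) (.two (nat_lit 176160770) (nat_lit 156968682328) (.two (nat_lit 8388612) (nat_lit 10336862439) (.two (nat_lit 8388609) (nat_lit 1050099) (.two (nat_lit 8388608) (nat_lit 1846544890) (.one (nat_lit 1052760) .nil))))))),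
   .two (nat_lit 1277165583) (nat_lit 11510218771) (.two (nat_lit 183845781506) (nat_lit 2098011) (.two (nat_lit 156364701697) (nat_lit 11511267838) (.one (nat_lit 1052033) .nil))),
   .two (nat_lit 2954887183) (nat_lit 10942939259) (.two (nat_lit 12050235400) (nat_lit 839909735) (.two (nat_lit 11546918917) (nat_lit 806355793) (.two (nat_lit 2097155) (nat_lit 2923430108) (.two (nat_lit 2097153) (nat_lit 183949591500) (.two (nat_lit 1048576) (nat_lit 1847592550) (.one (nat_lit 1176505670) .nil)))))),
   .two (nat_lit 2889875471) (nat_lit 807403644) (.two (nat_lit 742391816) (nat_lit 1376780479) (.two (nat_lit 2097157) (nat_lit 809501152) (.two (nat_lit 11546918917) (nat_lit 1376780753) (.two (nat_lit 9768534017) (nat_lit 1746929837) (.two (nat_lit 2097152) (nat_lit 1051878) (.one (nat_lit 2101337) .nil)))))),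
   .two (nat_lit 11551113227) (nat_lit 12147753025) (.two (nat_lit 1846542351) (nat_lit 13228834853) (.two (nat_lit 713031686) (nat_lit 135266665) (.two (nat_lit 739246088) (nat_lit 158183981154) (.two (nat_lit 183845781506) (nat_lit 28093449441) (.two (nat_lit 184986632197) (nat_lit 3028287953) (.two (nat_lit 34603009) (nat_lit 8390134) (.two (nat_lit 1048576) (nat_lit 8391063) (.one (nat_lit 1052034) .nil)))))))),
   .two (nat_lit 11479810063) (nat_lit 18933088367) (.two (nat_lit 21210595338) (nat_lit 1753219110) (.two (nat_lit 18933088264) (nat_lit 12117344448) (.two (nat_lit 809500677) (nat_lit 12054430537) (.two (nat_lit 37748737) (nat_lit 12054431196) (.two (nat_lit 4194304) (nat_lit 3464496749) (.one (nat_lit 343936338) .nil)))))),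
   .two (nat_lit 4194319) (nat_lit 184993972258) (.two (nat_lit 4194312) (nat_lit 20644364326) (.two (nat_lit 4194312) (nat_lit 184993972320) (.two (nat_lit 605028357) (nat_lit 37320917847) (.two (nat_lit 34603009) (nat_lit 2420114397) (.two (nat_lit 1048576) (nat_lit 4197609) (.one (nat_lit 11513367931) .nil)))))),
   .two (nat_lit 705691659) (nat_lit 16777280) (.two (nat_lit 11577327633) (nat_lit 50331684) (.two (nat_lit 11543773192) (nat_lit 16777310) (.two (nat_lit 50331656) (nat_lit 28086108257) (.two (nat_lit 16777218) (nat_lit 135266526) (.two (nat_lit 16777220) (nat_lit 839909846) (.two (nat_lit 620756993) (nat_lit 20637025783) (.two (nat_lit 8388608) (nat_lit 10351545496) (.one (nat_lit 2920286693) .nil)))))))),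
   .two (nat_lit 47548727311) (nat_lit 166196150339) (.two (nat_lit 169869318) (nat_lit 158646403430) (.two (nat_lit 47548727304) (nat_lit 20704133315) (.two (nat_lit 169869316) (nat_lit 158646403291) (.two (nat_lit 2097153) (nat_lit 37313577467) (.two (nat_lit 2097152) (nat_lit 2416969316) (.one (nat_lit 1051156) .nil)))))),
   .two (nat_lit 184993972239) (nat_lit 10537140292) (.two (nat_lit 101711887) (nat_lit 10544480339) (.two (nat_lit 184993972232) (nat_lit 11476664523) (.two (nat_lit 12114198535) (nat_lit 28093448287) (.two (nat_lit 184416206853) (nat_lit 343933147) (.two (nat_lit 184416206853) (nat_lit 13228835661) (.two (nat_lit 34603009) (nat_lit 10007610317) (.two (nat_lit 1048576) (nat_lit 8391914) (.one (nat_lit 1052765) .nil)))))))),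
   .two (nat_lit 46414168079) (nat_lit 4647288871) (.two (nat_lit 46414168072) (nat_lit 4647288871) (.two (nat_lit 721420296) (nat_lit 13195280579) (.two (nat_lit 8388611) (nat_lit 285212891) (.two (nat_lit 8388609) (nat_lit 1224737284) (.two (nat_lit 4194304) (nat_lit 37320918641) (.one (nat_lit 8391189) .nil)))))),
   .two (nat_lit 10343153679) (nat_lit 1847591024) (.two (nat_lit 10370416648) (nat_lit 713031876) (.two (nat_lit 10370416648) (nat_lit 183853121633) (.two (nat_lit 1277165572) (nat_lit 156372042568) (.two (nat_lit 606076929) (nat_lit 156372043227) (.two (nat_lit 2097152) (nat_lit 880807076) (.one (nat_lit 158083320290) .nil)))))),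
   .two (nat_lit 12047089679) (nat_lit 28758245410) (.two (nat_lit 12047089679) (nat_lit 158144135203) (.two (nat_lit 169869320) (nat_lit 166245433540) (.two (nat_lit 9934209031) (nat_lit 11022631497) (.two (nat_lit 16777220) (nat_lit 673186270) (.two (nat_lit 16777219) (nat_lit 159217877842) (.two (nat_lit 16777217) (nat_lit 28758246345) (.two (nat_lit 16777216) (nat_lit 2100460) (.one (nat_lit 47547683000) .nil)))))))),
   .two (nat_lit 176160783) (nat_lit 10000269424) (.two (nat_lit 156367847432) (nat_lit 9866051942) (.two (nat_lit 176160772) (nat_lit 336593374) (.two (nat_lit 8388609) (nat_lit 1049573) (.two (nat_lit 8388608) (nat_lit 1051885) (.one (nat_lit 158183985168) .nil))))),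
   .two (nat_lit 203423755) (nat_lit 20637024293) (.two (nat_lit 8388623) (nat_lit 806354966) (.two (nat_lit 9766436872) (nat_lit 174752530529) (.two (nat_lit 166130089986) (nat_lit 8389468) (.two (nat_lit 2887778308) (nat_lit 20704133351) (.two (nat_lit 156365750273) (nat_lit 1050869) (.two (nat_lit 2097152) (nat_lit 8391080) (.one (nat_lit 8392798) .nil))))))),
   .two (nat_lit 203423759) (nat_lit 37313577027) (.two (nat_lit 203423752) (nat_lit 20704133315) (.two (nat_lit 203423752) (nat_lit 28690088129) (.two (nat_lit 2954887173) (nat_lit 20704133339) (.two (nat_lit 2954887173) (nat_lit 20704134096) (.two (nat_lit 2097153) (nat_lit 20704134096) (.two (nat_lit 2097152) (nat_lit 1051049) (.one (nat_lit 1052036) .nil))))))),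
   .two (nat_lit 8388623) (nat_lit 654311458) (.two (nat_lit 8388616) (nat_lit 47596961830) (.two (nat_lit 8388616) (nat_lit 10552868960) (.two (nat_lit 8388612) (nat_lit 10552869083) (.two (nat_lit 41943041) (nat_lit 174752530939) (.two (nat_lit 8388608) (nat_lit 202377634) (.one (nat_lit 1052767) .nil)))))),
   .two (nat_lit 156372041736) (nat_lit 4631560231) (.two (nat_lit 2097152) (nat_lit 8391083) .nil),
   .two (nat_lit 4601151499) (nat_lit 11510218771) (.two (nat_lit 4194308) (nat_lit 156465365209) (.two (nat_lit 4194305) (nat_lit 184986632420) (.one (nat_lit 1376782863) .nil))),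
   .two (nat_lit 183848927247) (nat_lit 3573547046) (.two (nat_lit 3539992584) (nat_lit 1212153894) (.two (nat_lit 218103816) (nat_lit 184419352768) (.two (nat_lit 2902458372) (nat_lit 2923430107) (.two (nat_lit 37748737) (nat_lit 20652753878) (.two (nat_lit 1048576) (nat_lit 4196781) (.one (nat_lit 166144773491) .nil)))))),
   .two (nat_lit 203423759) (nat_lit 166129041445) (.two (nat_lit 203423759) (nat_lit 20737687571) (.two (nat_lit 203423752) (nat_lit 2349858913) (.two (nat_lit 166130089989) (nat_lit 12147753424) (.two (nat_lit 2954887173) (nat_lit 1343226084) (.two (nat_lit 605028353) (nat_lit 21208499815) (.two (nat_lit 1048576) (nat_lit 21208499815) (.one (nat_lit 304091262) .nil))))))),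
   .two (nat_lit 1291845643) (nat_lit 184416206961) (.two (nat_lit 654311439) (nat_lit 2350907429) (.two (nat_lit 1291845638) (nat_lit 184416207040) (.two (nat_lit 10385096712) (nat_lit 18926796898) (.two (nat_lit 46407876610) (nat_lit 16777702) (.two (nat_lit 4599054341) (nat_lit 11492393424) (.two (nat_lit 2097153) (nat_lit 16778747) (.two (nat_lit 1048576) (nat_lit 4613736837) (.one (nat_lit 1052768) .nil)))))))),
   .two (nat_lit 4194319) (nat_lit 13195280420) (.two (nat_lit 4194319) (nat_lit 4605345810) (.two (nat_lit 4194312) (nat_lit 19134414943) (.two (nat_lit 11479810053) (nat_lit 183845781974) (.two (nat_lit 4194308) (nat_lit 46507491545) (.two (nat_lit 8388609) (nat_lit 1050871) (.two (nat_lit 4194304) (nat_lit 8391086) (.one (nat_lit 2424311834) .nil))))))),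
   .two (nat_lit 47548727311) (nat_lit 1309671443) (.two (nat_lit 169869314) (nat_lit 1049063) (.two (nat_lit 606076929) (nat_lit 184986632420) (.one (nat_lit 1376782863) .nil))),
   .two (nat_lit 620757000) (nat_lit 13188988967) (.two (nat_lit 16777216) (nat_lit 47547680378) .nil),
   .two (nat_lit 20637024267) (nat_lit 158647451685) (.two (nat_lit 159217877007) (nat_lit 1276117012) (.two (nat_lit 28690087944) (nat_lit 165526110305) (.two (nat_lit 166129041412) (nat_lit 304087510) (.two (nat_lit 1913651205) (nat_lit 165526110425) (.two (nat_lit 2097153) (nat_lit 235931114) (.two (nat_lit 2097152) (nat_lit 1051055) (.one (nat_lit 2101347) .nil))))))),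
   .two (nat_lit 9781116943) (nat_lit 28760342596) (.two (nat_lit 9781116936) (nat_lit 158146232359) (.two (nat_lit 11479810056) (nat_lit 1426063556) (.two (nat_lit 37748739) (nat_lit 12054429915) (.two (nat_lit 16777217) (nat_lit 2420114397) (.two (nat_lit 16777216) (nat_lit 176163234) (.one (nat_lit 4198500) .nil)))))),
   .two (nat_lit 713031695) (nat_lit 4194380) (.two (nat_lit 4601151496) (nat_lit 18933088617) (.two (nat_lit 4194308) (nat_lit 176161248) (.two (nat_lit 41943041) (nat_lit 641730745) (.two (nat_lit 4194304) (nat_lit 343935359) (.one (nat_lit 2894072303) .nil))))),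
   .two (nat_lit 158075977739) (nat_lit 183947493495) (.two (nat_lit 9934209039) (nat_lit 1276117029) (.two (nat_lit 1914699785) (nat_lit 9899606373) (.two (nat_lit 9934209032) (nat_lit 166196150369) (.two (nat_lit 169869314) (nat_lit 184986632672) (.two (nat_lit 1277165573) (nat_lit 11577328080) (.two (nat_lit 606076929) (nat_lit 873465325) (.two (nat_lit 2097152) (nat_lit 1051892) (.one (nat_lit 2101276) .nil)))))))),
   .two (nat_lit 184993972239) (nat_lit 11578376231) (.two (nat_lit 169869329) (nat_lit 184993972288) (.two (nat_lit 606076936) (nat_lit 184993972415) (.two (nat_lit 169869316) (nat_lit 11584667867) (.two (nat_lit 169869315) (nat_lit 19096666952) (.two (nat_lit 2097153) (nat_lit 876610517) (.two (nat_lit 4194304) (nat_lit 8391868) (.one (nat_lit 4198502) .nil))))))),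
   .two (nat_lit 158144135179) (nat_lit 605028430) (.two (nat_lit 20705181720) (nat_lit 1048660) (.two (nat_lit 4194310) (nat_lit 13188989129) (.two (nat_lit 4194312) (nat_lit 4599054536) (.two (nat_lit 4194306) (nat_lit 9934209246) (.two (nat_lit 4194308) (nat_lit 13188989775) (.two (nat_lit 4194305) (nat_lit 2954888688) (.two (nat_lit 1048576) (nat_lit 2100472) (.one (nat_lit 168824915) .nil)))))))),
   .two (nat_lit 8388619) (nat_lit 13224640550) (.two (nat_lit 104857628) (nat_lit 8388672) (.two (nat_lit 13191086088) (nat_lit 8388702) (.two (nat_lit 13191086088) (nat_lit 8388701) (.two (nat_lit 8388610) (nat_lit 4634706142) (.two (nat_lit 8388612) (nat_lit 13224640987) (.two (nat_lit 50331649) (nat_lit 9768535515) (.two (nat_lit 16777216) (nat_lit 21785218211) (.one (nat_lit 158179789285) .nil)))))))),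
   .two (nat_lit 218103823) (nat_lit 184993972289) (.two (nat_lit 75497480) (nat_lit 4613734760) (.two (nat_lit 176160773) (nat_lit 20753416672) (.two (nat_lit 8388609) (nat_lit 2902459362) (.two (nat_lit 16777216) (nat_lit 2994736309) (.one (nat_lit 1325402607) .nil))))),
   .two (nat_lit 654311431) (nat_lit 9934209062) (.two (nat_lit 16777216) (nat_lit 4195988) .nil),
   .two (nat_lit 3527409679) (nat_lit 157051519107) (.two (nat_lit 9768534024) (nat_lit 10552868962) (.two (nat_lit 2889875460) (nat_lit 1325400913) (.two (nat_lit 2889875459) (nat_lit 12163481817) (.two (nat_lit 9781116929) (nat_lit 9902753248) (.two (nat_lit 16777216) (nat_lit 12620662390) (.one (nat_lit 183928623168) .nil)))))),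
   .two (nat_lit 285212683) (nat_lit 10343153700) (.two (nat_lit 285212687) (nat_lit 20644364306) (.two (nat_lit 16777222) (nat_lit 183853121631) (.two (nat_lit 721420290) (nat_lit 37253808598) (.two (nat_lit 16777220) (nat_lit 4034920677) (.two (nat_lit 16777217) (nat_lit 157043132821) (.two (nat_lit 8388608) (nat_lit 183962175094) (.one (nat_lit 16781416) .nil))))))),
   .two (nat_lit 16777231) (nat_lit 19096666245) (.two (nat_lit 101711880) (nat_lit 10015998143) (.two (nat_lit 11476664324) (nat_lit 272630602) (.two (nat_lit 50331649) (nat_lit 10439624906) (.two (nat_lit 4194304) (nat_lit 16780538) (.one (nat_lit 4198505) .nil))))),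
   .two (nat_lit 620756999) (nat_lit 12147752998) (.two (nat_lit 16777216) (nat_lit 713032713) .nil),
   .two (nat_lit 28086108173) (nat_lit 20738736166) (.two (nat_lit 16777216) (nat_lit 1051058) .nil),
   .two (nat_lit 35651612) (nat_lit 75497551) (.two (nat_lit 2317352969) (nat_lit 612368422) (.two (nat_lit 9940500488) (nat_lit 2887778507) (.two (nat_lit 46978301957) (nat_lit 713031902) (.two (nat_lit 2097153) (nat_lit 8390140) (.two (nat_lit 4194304) (nat_lit 807405996) (.one (nat_lit 807406981) .nil)))))),
   .two (nat_lit 16777231) (nat_lit 19128123460) (.two (nat_lit 16777224) (nat_lit 46508539943) (.two (nat_lit 16777224) (nat_lit 9867100363) (.two (nat_lit 41943043) (nat_lit 47548727774) (.two (nat_lit 41943041) (nat_lit 184987683244) (.two (nat_lit 8388608) (nat_lit 184987683244) (.one (nat_lit 16781418) .nil)))))),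
   .two (nat_lit 18933088271) (nat_lit 166199296068) (.two (nat_lit 2889875464) (nat_lit 243269671) (.two (nat_lit 2889875464) (nat_lit 612368580) (.two (nat_lit 272629765) (nat_lit 4605346270) (.two (nat_lit 4194305) (nat_lit 10343154171) (.two (nat_lit 2097152) (nat_lit 713034146) (.one (nat_lit 4198507) .nil)))))),
   .two (nat_lit 772800536) (nat_lit 612368420) (.two (nat_lit 713031695) (nat_lit 739246100) (.two (nat_lit 612368392) (nat_lit 1049059) (.two (nat_lit 183845781508) (nat_lit 4605346273) (.two (nat_lit 176160772) (nat_lit 1049059) (.two (nat_lit 9765388289) (nat_lit 8390911) (.two (nat_lit 1048576) (nat_lit 8391932) (.one (nat_lit 1052781) .nil))))))),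
   .two (nat_lit 9866051599) (nat_lit 243269709) (.two (nat_lit 19134414875) (nat_lit 10906239046) (.two (nat_lit 3531603978) (nat_lit 20704133312) (.two (nat_lit 156372041735) (nat_lit 1048780) (.two (nat_lit 1343225861) (nat_lit 9940501454) (.two (nat_lit 1343225861) (nat_lit 9940501454) (.two (nat_lit 605028353) (nat_lit 176163027) (.two (nat_lit 1048576) (nat_lit 8391933) (.one (nat_lit 1052782) .nil)))))))),
   .two (nat_lit 19599982607) (nat_lit 46508539923) (.two (nat_lit 2887778306) (nat_lit 4194528) (.two (nat_lit 9766436865) (nat_lit 4195303) (.one (nat_lit 4197780) .nil))),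
   .two (nat_lit 46407876635) (nat_lit 19596836898) (.two (nat_lit 47581233162) (nat_lit 2097357) (.two (nat_lit 184989777927) (nat_lit 1048945) (.two (nat_lit 184416206853) (nat_lit 136315738) (.two (nat_lit 37748737) (nat_lit 1376780804) (.two (nat_lit 4194304) (nat_lit 1051059) (.one (nat_lit 1052783) .nil)))))),
   .two (nat_lit 20644364299) (nat_lit 3558866963) (.two (nat_lit 3458203653) (nat_lit 12054429913) (.two (nat_lit 2097153) (nat_lit 1753219299) (.one (nat_lit 8392817) .nil))),
   .two (nat_lit 158144135187) (nat_lit 20644364400) (.two (nat_lit 10370416655) (nat_lit 243269826) (.two (nat_lit 10370416648) (nat_lit 165532401881) (.two (nat_lit 639631365) (nat_lit 713032651) (.two (nat_lit 176160771) (nat_lit 10370416871) (.two (nat_lit 606076929) (nat_lit 343934574) (.two (nat_lit 2097152) (nat_lit 1283458722) (.one (nat_lit 142609821) .nil))))))),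
   .two (nat_lit 185035915330) (nat_lit 8388628) (.two (nat_lit 11484004357) (nat_lit 721420517) (.one (nat_lit 156472708529) .nil)),
   .two (nat_lit 1358954563) (nat_lit 183949590549) (.two (nat_lit 1358954501) (nat_lit 11479810279) (.one (nat_lit 19532877209) .nil)),
   .two (nat_lit 205520961) (nat_lit 156567076883) (.two (nat_lit 708837381) (nat_lit 605028862) (.one (nat_lit 183913943158) .nil)),
   .two (nat_lit 158647451715) (nat_lit 2927624213) (.two (nat_lit 1277165572) (nat_lit 310378724) (.one (nat_lit 3531607484) .nil)),
   .two (nat_lit 1317011477) (nat_lit 1947205743) (.two (nat_lit 101711887) (nat_lit 3464495201) (.two (nat_lit 101711880) (nat_lit 3464495321) (.two (nat_lit 20644364292) (nat_lit 47581234130) (.two (nat_lit 612368387) (nat_lit 11543773412) (.two (nat_lit 34603009) (nat_lit 47555020398) (.two (nat_lit 1048576) (nat_lit 3565160098) (.one (nat_lit 3028290988) .nil))))))),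
   .two (nat_lit 203423811) (nat_lit 158083317779) (.two (nat_lit 169869316) (nat_lit 47555018979) (.one (nat_lit 174692765116) .nil)),
   .two (nat_lit 272629779) (nat_lit 156465365011) (.two (nat_lit 69206021) (nat_lit 37313577187) (.one (nat_lit 158179790981) .nil)),
   .two (nat_lit 157038936098) (nat_lit 2097230) (.two (nat_lit 9934209039) (nat_lit 46477082662) (.two (nat_lit 169869320) (nat_lit 19532873947) (.two (nat_lit 2097157) (nat_lit 46510637565) (.two (nat_lit 2097153) (nat_lit 46510638085) (.two (nat_lit 2097152) (nat_lit 9869199847) (.one (nat_lit 605031839) .nil)))))),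
   .two (nat_lit 654311458) (nat_lit 8388687) (.two (nat_lit 176160783) (nat_lit 47596961830) (.two (nat_lit 176160776) (nat_lit 10552869086) (.two (nat_lit 8388613) (nat_lit 822084100) (.two (nat_lit 8388609) (nat_lit 822084100) (.two (nat_lit 1048576) (nat_lit 19033754955) (.one (nat_lit 3565161907) .nil)))))),
   .two (nat_lit 10351542306) (nat_lit 8388688) (.two (nat_lit 3460300815) (nat_lit 41943079) (.two (nat_lit 343932940) (nat_lit 159219974366) (.two (nat_lit 184549380) (nat_lit 1049089) (.two (nat_lit 4194305) (nat_lit 12121539077) (.two (nat_lit 4194304) (nat_lit 21827160552) (.one (nat_lit 4197825) .nil)))))),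
   .two (nat_lit 41943076) (nat_lit 1411383375) (.two (nat_lit 813694991) (nat_lit 13224640703) (.two (nat_lit 2887778310) (nat_lit 11479810522) (.two (nat_lit 813694984) (nat_lit 9869197785) (.two (nat_lit 183848927237) (nat_lit 10370417147) (.two (nat_lit 183848927237) (nat_lit 176161741) (.two (nat_lit 2097153) (nat_lit 158179789285) (.two (nat_lit 2097152) (nat_lit 158179789285) (.one (nat_lit 35655799) .nil)))))))),
   .two (nat_lit 46407876715) (nat_lit 46409973780) (.two (nat_lit 10506731525) (nat_lit 9798943228) (.one (nat_lit 1052830) .nil)),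
   .two (nat_lit 166211878931) (nat_lit 184986632256) (.two (nat_lit 705691659) (nat_lit 721420385) (.two (nat_lit 184986632200) (nat_lit 721420506) (.two (nat_lit 2902458370) (nat_lit 19596838519) (.two (nat_lit 705691652) (nat_lit 3573547236) (.two (nat_lit 16777217) (nat_lit 19596838519) (.two (nat_lit 16777216) (nat_lit 1051128) (.one (nat_lit 16781471) .nil))))))),
   .two (nat_lit 8388626) (nat_lit 185021235239) (.two (nat_lit 809500707) (nat_lit 69206088) (.two (nat_lit 11479810063) (nat_lit 9974055113) (.two (nat_lit 809500688) (nat_lit 11618222178) (.two (nat_lit 9940500488) (nat_lit 47582282194) (.two (nat_lit 3458203656) (nat_lit 2889875673) (.two (nat_lit 46407876612) (nat_lit 41944013) (.two (nat_lit 156365750275) (nat_lit 713033180) (.two (nat_lit 8388609) (nat_lit 4196747) (.two (nat_lit 8388608) (nat_lit 339742035) (.one (nat_lit 8392864) .nil)))))))))),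
   .two (nat_lit 20705181763) (nat_lit 12114198547) (.two (nat_lit 806354949) (nat_lit 11584667875) (.one (nat_lit 2100677) .nil)),
   .two (nat_lit 20704133139) (nat_lit 2097174) (.two (nat_lit 1276116994) (nat_lit 2954887396) (.one (nat_lit 2101409) .nil)),
   .two (nat_lit 11010048037) (nat_lit 16777297) (.two (nat_lit 183848927243) (nat_lit 654311462) (.two (nat_lit 18928893967) (nat_lit 11626610884) (.two (nat_lit 183848927238) (nat_lit 1291845851) (.two (nat_lit 9781116935) (nat_lit 4194781) (.two (nat_lit 183848927236) (nat_lit 10385097211) (.two (nat_lit 183848927236) (nat_lit 1291846608) (.two (nat_lit 37748737) (nat_lit 21223179873) (.two (nat_lit 4194304) (nat_lit 11559504354) (.one (nat_lit 16781474) .nil))))))))),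
   .two (nat_lit 639631379) (nat_lit 20644364307) (.two (nat_lit 705691650) (nat_lit 8389594) (.one (nat_lit 2101411) .nil)),
   .two (nat_lit 3527409683) (nat_lit 606076950) (.two (nat_lit 166132187141) (nat_lit 9934209252) (.one (nat_lit 2101412) .nil)),
   .two (nat_lit 11476664340) (nat_lit 166230753299) (.two (nat_lit 28690087941) (nat_lit 874512894) (.one (nat_lit 1052837) .nil)),
   .two (nat_lit 339738645) (nat_lit 12148801605) (.two (nat_lit 10437525523) (nat_lit 71303263) (.two (nat_lit 11022630921) (nat_lit 2319450622) (.two (nat_lit 11492392962) (nat_lit 9940502133) (.two (nat_lit 4601151493) (nat_lit 10007609572) (.two (nat_lit 50331649) (nat_lit 9940502133) (.two (nat_lit 16777216) (nat_lit 2100564) (.one (nat_lit 2101414) .nil))))))),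
   .two (nat_lit 142606373) (nat_lit 47584378958) (.two (nat_lit 3527409675) (nat_lit 780140583) (.two (nat_lit 156372041743) (nat_lit 10003415241) (.two (nat_lit 2889875462) (nat_lit 276824906) (.two (nat_lit 205520904) (nat_lit 813695453) (.two (nat_lit 2956984325) (nat_lit 165532402171) (.two (nat_lit 2889875460) (nat_lit 2894070741) (.two (nat_lit 4194305) (nat_lit 11517561317) (.two (nat_lit 1048576) (nat_lit 780143077) (.one (nat_lit 1052839) .nil))))))))),
   .two (nat_lit 2902458386) (nat_lit 2923429907) (.two (nat_lit 171966469) (nat_lit 9781117155) (.one (nat_lit 1052840) .nil)),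
   .two (nat_lit 1780482067) (nat_lit 1417674870) (.two (nat_lit 169869327) (nat_lit 156372041823) (.two (nat_lit 169869320) (nat_lit 813695205) (.two (nat_lit 713031682) (nat_lit 2098139) (.two (nat_lit 2097157) (nat_lit 813695205) (.two (nat_lit 606076929) (nat_lit 1954547298) (.two (nat_lit 1048576) (nat_lit 19027461794) (.one (nat_lit 8392873) .nil))))))),
   .two (nat_lit 11476664339) (nat_lit 2969567254) (.two (nat_lit 16777220) (nat_lit 639631587) (.one (nat_lit 1343229361) .nil)),
   .two (nat_lit 8388626) (nat_lit 10519314451) (.two (nat_lit 16777221) (nat_lit 28798091494) (.one (nat_lit 16781446) .nil)),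
   .two (nat_lit 159251431462) (nat_lit 19529728038) (.two (nat_lit 203423760) (nat_lit 19529728038) (.two (nat_lit 285212679) (nat_lit 269484251) (.two (nat_lit 16777219) (nat_lit 806355451) (.two (nat_lit 16777217) (nat_lit 159250383880) (.two (nat_lit 16777216) (nat_lit 159257726378) (.one (nat_lit 159257726378) .nil)))))),
   .two (nat_lit 1277165586) (nat_lit 3464495123) (.two (nat_lit 1277165573) (nat_lit 156372041955) (.one (nat_lit 158083320350) .nil)),
   .two (nat_lit 156367847460) (nat_lit 12618563623) (.two (nat_lit 37748751) (nat_lit 721420326) (.two (nat_lit 37748751) (nat_lit 16777312) (.two (nat_lit 11492392966) (nat_lit 159217877832) (.two (nat_lit 11492392968) (nat_lit 13222543837) (.two (nat_lit 11492392964) (nat_lit 20638073339) (.two (nat_lit 11492392964) (nat_lit 46409974733) (.two (nat_lit 2097153) (nat_lit 4634708365) (.two (nat_lit 16777216) (nat_lit 11578378725) (.one (nat_lit 352325780) .nil))))))))),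
   .two (nat_lit 11618222147) (nat_lit 21812477989) (.two (nat_lit 37748751) (nat_lit 8388701) (.two (nat_lit 8388616) (nat_lit 337641700) (.two (nat_lit 4194308) (nat_lit 1176503259) (.two (nat_lit 4194308) (nat_lit 4632608996) (.two (nat_lit 2097153) (nat_lit 1413482082) (.two (nat_lit 2097152) (nat_lit 166132188834) (.one (nat_lit 185021238685) .nil))))))),
   .two (nat_lit 4647288852) (nat_lit 166230753299) (.two (nat_lit 9934209029) (nat_lit 620757219) (.one (nat_lit 16781486) .nil)),
   .two (nat_lit 4605345856) (nat_lit 2921332756) (.two (nat_lit 169869316) (nat_lit 46984593637) (.one (nat_lit 4034924717) .nil)),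
   .two (nat_lit 46508539925) (nat_lit 158075977747) (.two (nat_lit 184549381) (nat_lit 101712099) (.one (nat_lit 2101423) .nil)),
   .two (nat_lit 8388644) (nat_lit 12047089742) (.two (nat_lit 1350565903) (nat_lit 185020186815) (.two (nat_lit 4194310) (nat_lit 13187941194) (.two (nat_lit 8388616) (nat_lit 183946445270) (.two (nat_lit 12047089669) (nat_lit 9768534523) (.two (nat_lit 4194308) (nat_lit 183845782485) (.two (nat_lit 37748737) (nat_lit 185020188283) (.two (nat_lit 4194304) (nat_lit 46507493861) (.one (nat_lit 3020951676) .nil)))))))),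
   .two (nat_lit 41943107) (nat_lit 169869351) (.two (nat_lit 713031695) (nat_lit 169869351) (.two (nat_lit 158077026312) (nat_lit 343933150) (.two (nat_lit 12054429701) (nat_lit 174686470661) (.two (nat_lit 2097153) (nat_lit 809501705) (.two (nat_lit 4194304) (nat_lit 8392036) (.one (nat_lit 46409978054) .nil)))))),
   .two (nat_lit 285212736) (nat_lit 13222543399) (.two (nat_lit 285212687) (nat_lit 13222543399) (.two (nat_lit 169869320) (nat_lit 285212894) (.two (nat_lit 169869316) (nat_lit 156984410624) (.two (nat_lit 16777217) (nat_lit 158144135685) (.two (nat_lit 1048576) (nat_lit 9781119469) (.one (nat_lit 10519317940) .nil)))))),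
   .two (nat_lit 10913579075) (nat_lit 2987393063) (.two (nat_lit 3464495119) (nat_lit 2987393063) (.two (nat_lit 68157448) (nat_lit 159224168670) (.two (nat_lit 4601151493) (nat_lit 184993972741) (.two (nat_lit 4194305) (nat_lit 184993972741) (.two (nat_lit 4194304) (nat_lit 8391163) (.one (nat_lit 272633281) .nil)))))),
   .two (nat_lit 889192515) (nat_lit 3021996071) (.two (nat_lit 721420303) (nat_lit 3021996071) (.two (nat_lit 158144135185) (nat_lit 3036676192) (.two (nat_lit 9867100168) (nat_lit 16777438) (.two (nat_lit 28758245383) (nat_lit 183848928073) (.two (nat_lit 754974725) (nat_lit 19027460613) (.two (nat_lit 620756995) (nat_lit 1310720970) (.two (nat_lit 620756993) (nat_lit 9900657038) (.two (nat_lit 4194304) (nat_lit 9915338083) (.one (nat_lit 9902756012) .nil))))))))),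
   .two (nat_lit 21811429414) (nat_lit 37247516710) (.two (nat_lit 1276117009) (nat_lit 12048138279) (.two (nat_lit 11559501831) (nat_lit 807403739) (.two (nat_lit 721420291) (nat_lit 270533115) (.two (nat_lit 50331649) (nat_lit 21812478984) (.two (nat_lit 16777216) (nat_lit 8392037) (.one (nat_lit 1052849) .nil)))))),
   .two (nat_lit 21785215010) (nat_lit 69206094) (.two (nat_lit 1753219087) (nat_lit 9934209062) (.two (nat_lit 606076936) (nat_lit 21785215195) (.two (nat_lit 169869316) (nat_lit 184993972731) (.two (nat_lit 37748737) (nat_lit 706740741) (.two (nat_lit 4194304) (nat_lit 2954889709) (.one (nat_lit 2101426) .nil)))))),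
   .two (nat_lit 272629824) (nat_lit 12048138279) (.two (nat_lit 272629775) (nat_lit 1847590950) (.two (nat_lit 156969730056) (nat_lit 4634706142) (.two (nat_lit 721420291) (nat_lit 9934209531) (.two (nat_lit 50331649) (nat_lit 13222544392) (.two (nat_lit 16777216) (nat_lit 46510639597) (.one (nat_lit 4197837) .nil)))))),
   .two (nat_lit 11584667715) (nat_lit 156367847462) (.two (nat_lit 1795162127) (nat_lit 843055142) (.two (nat_lit 4601151496) (nat_lit 9906946267) (.two (nat_lit 4194308) (nat_lit 2323644923) (.two (nat_lit 4194305) (nat_lit 1761608712) (.two (nat_lit 8388608) (nat_lit 10016000507) (.one (nat_lit 183916039598) .nil)))))),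
   .two (nat_lit 156367847458) (nat_lit 1962934351) (.two (nat_lit 4601151503) (nat_lit 28806479910) (.two (nat_lit 4601151496) (nat_lit 12163481822) (.two (nat_lit 4194308) (nat_lit 1358955003) (.two (nat_lit 4194305) (nat_lit 4647289864) (.two (nat_lit 8388608) (nat_lit 4601154029) (.one (nat_lit 46980402637) .nil)))))),
   .two (nat_lit 8388644) (nat_lit 9969860647) (.two (nat_lit 8388623) (nat_lit 9969860647) (.two (nat_lit 1350565903) (nat_lit 185020186720) (.two (nat_lit 4601151496) (nat_lit 343933402) (.two (nat_lit 4194311) (nat_lit 9772728793) (.two (nat_lit 809500677) (nat_lit 11543774173) (.two (nat_lit 37748739) (nat_lit 20637025237) (.two (nat_lit 605028353) (nat_lit 10372515439) (.two (nat_lit 1048576) (nat_lit 20740835813) (.one (nat_lit 1052851) .nil))))))))),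
   .two (nat_lit 176160786) (nat_lit 20637024275) (.two (nat_lit 713031685) (nat_lit 1745880032) (.one (nat_lit 1052853) .nil)),
   .two (nat_lit 3458203669) (nat_lit 9881780337) (.two (nat_lit 1291845647) (nat_lit 19027460193) (.two (nat_lit 1291845640) (nat_lit 19027460313) (.two (nat_lit 46407876610) (nat_lit 16778209) (.two (nat_lit 620756995) (nat_lit 47548727524) (.two (nat_lit 2097153) (nat_lit 12633245346) (.two (nat_lit 2097152) (nat_lit 12633245346) (.one (nat_lit 11022634425) .nil))))))),
   .two (nat_lit 1410334740) (nat_lit 13195280451) (.two (nat_lit 18933088271) (nat_lit 202375263) (.two (nat_lit 12054429704) (nat_lit 11476664549) (.two (nat_lit 9866051589) (nat_lit 3028288460) (.two (nat_lit 9866051589) (nat_lit 21214790143) (.two (nat_lit 34603009) (nat_lit 8390268) (.two (nat_lit 1048576) (nat_lit 1216350745) (.one (nat_lit 8392886) .nil))))))),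
   .two (nat_lit 185023332389) (nat_lit 16777250) (.two (nat_lit 83886095) (nat_lit 10504634407) (.two (nat_lit 721420303) (nat_lit 11010048201) (.two (nat_lit 2887778310) (nat_lit 1426064200) (.two (nat_lit 203423752) (nat_lit 3036676560) (.two (nat_lit 203423749) (nat_lit 18928894459) (.two (nat_lit 2887778308) (nat_lit 13191087053) (.two (nat_lit 50331649) (nat_lit 157038938509) (.two (nat_lit 16777216) (nat_lit 706742757) (.one (nat_lit 3460305051) .nil))))))))),
   .two (nat_lit 20753416213) (nat_lit 183845781525) (.two (nat_lit 183845781508) (nat_lit 117440739) (.one (nat_lit 16780752) .nil)),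
   .two (nat_lit 11626610708) (nat_lit 11510218772) (.two (nat_lit 705691652) (nat_lit 3003122175) (.one (nat_lit 1052857) .nil)),
   .two (nat_lit 9934209058) (nat_lit 1048658) (.two (nat_lit 11543773199) (nat_lit 46407876647) (.two (nat_lit 822083592) (nat_lit 10436477399) (.two (nat_lit 4194307) (nat_lit 839909883) (.two (nat_lit 4194305) (nat_lit 159216828933) (.two (nat_lit 4194304) (nat_lit 166245435880) (.one (nat_lit 16781498) .nil)))))),
   .two (nat_lit 2969567296) (nat_lit 1310720019) (.two (nat_lit 10940841989) (nat_lit 654311651) (.one (nat_lit 16779812) .nil)),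
   .two (nat_lit 9866051603) (nat_lit 183848927253) (.two (nat_lit 2894069765) (nat_lit 205521407) (.one (nat_lit 1052859) .nil)),
   .two (nat_lit 285212736) (nat_lit 2420113445) (.two (nat_lit 11492392975) (nat_lit 10909384802) (.two (nat_lit 2902458376) (nat_lit 9936306652) (.two (nat_lit 46409973764) (nat_lit 83887048) (.two (nat_lit 46409973764) (nat_lit 822083811) (.two (nat_lit 4194305) (nat_lit 18941478561) (.two (nat_lit 4194304) (nat_lit 18941478561) (.one (nat_lit 16780753) .nil))))))),
   .two (nat_lit 20738736149) (nat_lit 11510218771) (.two (nat_lit 183845781506) (nat_lit 2098676) (.one (nat_lit 1052860) .nil)),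
   .two (nat_lit 2902458386) (nat_lit 166132187154) (.two (nat_lit 166132187141) (nat_lit 9781117155) (.one (nat_lit 16781501) .nil)),
   .two (nat_lit 12117344290) (nat_lit 19604176934) (.two (nat_lit 11551113223) (nat_lit 16777728) (.two (nat_lit 654311429) (nat_lit 4605346308) (.two (nat_lit 2097152) (nat_lit 8392105) (.one (nat_lit 8392920) .nil)))),
   .two (nat_lit 169869350) (nat_lit 159224168486) (.two (nat_lit 3531603975) (nat_lit 1277166075) (.two (nat_lit 2097155) (nat_lit 19134415880) (.two (nat_lit 1048576) (nat_lit 8392110) (.one (nat_lit 156364705234) .nil)))),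
   .two (nat_lit 3460300820) (nat_lit 2954887261) (.two (nat_lit 2887778315) (nat_lit 46510637276) (.two (nat_lit 9768534024) (nat_lit 606077157) (.two (nat_lit 183848927234) (nat_lit 2098805) (.two (nat_lit 156367847425) (nat_lit 2099740) (.two (nat_lit 2097152) (nat_lit 171969052) (.one (nat_lit 2101467) .nil)))))),
   .two (nat_lit 8388679) (nat_lit 4194343) (.two (nat_lit 1849688072) (nat_lit 158144135677) (.two (nat_lit 41943045) (nat_lit 4634706436) (.two (nat_lit 8388608) (nat_lit 4197807) (.one (nat_lit 4198620) .nil)))),
   .two (nat_lit 41943074) (nat_lit 3021996070) (.two (nat_lit 2961178632) (nat_lit 10940842496) (.two (nat_lit 2097157) (nat_lit 28093448708) (.two (nat_lit 4194304) (nat_lit 2100659) (.one (nat_lit 2316307923) .nil)))),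
   .two (nat_lit 4194342) (nat_lit 184993972262) (.two (nat_lit 1343225863) (nat_lit 205521412) (.two (nat_lit 171966467) (nat_lit 9934210057) (.two (nat_lit 1048576) (nat_lit 4197812) (.one (nat_lit 4198621) .nil)))),
   .two (nat_lit 9768534050) (nat_lit 19127074854) (.two (nat_lit 4605345799) (nat_lit 165525062148) (.two (nat_lit 8388611) (nat_lit 165525062148) (.two (nat_lit 8388608) (nat_lit 184986635691) (.one (nat_lit 1052894) .nil)))),
   .two (nat_lit 9781116936) (nat_lit 21811429400) (.two (nat_lit 34603009) (nat_lit 10015998611) (.one (nat_lit 16781536) .nil)),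
   .two (nat_lit 11492392968) (nat_lit 166132187144) (.two (nat_lit 10506731525) (nat_lit 11022631031) (.two (nat_lit 4194304) (nat_lit 166144770676) (.one (nat_lit 16780772) .nil))),
   .two (nat_lit 9934209032) (nat_lit 47547679020) (.two (nat_lit 8388608) (nat_lit 10503586441) (.one (nat_lit 2100711) .nil)),
   .two (nat_lit 713031688) (nat_lit 158077026319) (.two (nat_lit 13195280389) (nat_lit 10940842102) (.two (nat_lit 156365750273) (nat_lit 19100861022) (.two (nat_lit 2097152) (nat_lit 8390446) (.one (nat_lit 2100715) .nil)))),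
   .two (nat_lit 620757000) (nat_lit 272629824) (.two (nat_lit 16777217) (nat_lit 183949591759) (.one (nat_lit 4198625) .nil)),
   .two (nat_lit 1745879048) (nat_lit 19027460119) (.two (nat_lit 28086108165) (nat_lit 11007950960) (.two (nat_lit 9765388289) (nat_lit 11007951425) (.two (nat_lit 1048576) (nat_lit 2098996) (.one (nat_lit 2100040) .nil)))),
   .two (nat_lit 9881780232) (nat_lit 183845781545) (.two (nat_lit 34603013) (nat_lit 11559501933) (.two (nat_lit 605028353) (nat_lit 10519315022) (.two (nat_lit 1048576) (nat_lit 16779063) (.one (nat_lit 16781538) .nil)))),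
   .two (nat_lit 2969567240) (nat_lit 1343225871) (.two (nat_lit 9948889093) (nat_lit 21811429492) (.two (nat_lit 620756993) (nat_lit 13221496628) (.one (nat_lit 1052899) .nil))),
   .two (nat_lit 101711880) (nat_lit 1847590978) (.two (nat_lit 34603009) (nat_lit 1847591269) (.two (nat_lit 1048576) (nat_lit 2099124) (.one (nat_lit 2100168) .nil))),
   .two (nat_lit 2902458376) (nat_lit 21208498191) (.two (nat_lit 2902458373) (nat_lit 158144135284) (.two (nat_lit 2097153) (nat_lit 1795162693) (.two (nat_lit 2097152) (nat_lit 16779859) (.one (nat_lit 16781553) .nil)))),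
   .two (nat_lit 19596836872) (nat_lit 117440527) (.two (nat_lit 12047089669) (nat_lit 10385096816) (.two (nat_lit 34603009) (nat_lit 4613735723) (.one (nat_lit 16781554) .nil))),
   .two (nat_lit 3539992584) (nat_lit 1283457308) (.two (nat_lit 16777217) (nat_lit 1384120949) (.two (nat_lit 1048576) (nat_lit 8391253) (.one (nat_lit 8392947) .nil))),
   .two (nat_lit 176160776) (nat_lit 4601151552) (.two (nat_lit 8388609) (nat_lit 13224641776) (.one (nat_lit 272632719) .nil)),
   .two (nat_lit 620757000) (nat_lit 4631560311) (.two (nat_lit 16777217) (nat_lit 158646403712) (.two (nat_lit 16777216) (nat_lit 37246470733) (.one (nat_lit 156984413734) .nil))),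
   .two (nat_lit 16777224) (nat_lit 2887778429) (.two (nat_lit 16777217) (nat_lit 270533299) (.two (nat_lit 2097152) (nat_lit 16779863) (.one (nat_lit 2101476) .nil))),
   .two (nat_lit 37748744) (nat_lit 1753219087) (.two (nat_lit 4194308) (nat_lit 176160887) (.two (nat_lit 41943041) (nat_lit 2956984939) (.two (nat_lit 8388608) (nat_lit 10003417675) (.one (nat_lit 8392948) .nil)))),
   .two (nat_lit 822083592) (nat_lit 157035790439) (.two (nat_lit 34603013) (nat_lit 50331757) (.two (nat_lit 2097153) (nat_lit 174685422159) (.two (nat_lit 2097152) (nat_lit 1051225) (.one (nat_lit 16781557) .nil)))),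
   .two (nat_lit 8388616) (nat_lit 104857724) (.two (nat_lit 4194305) (nat_lit 3565159002) (.two (nat_lit 8388608) (nat_lit 104861247) .nil)),
   .two (nat_lit 47563407368) (nat_lit 673185816) (.two (nat_lit 34603013) (nat_lit 50331757) (.two (nat_lit 2097153) (nat_lit 183928619707) (.two (nat_lit 1048576) (nat_lit 16779869) (.one (nat_lit 16781558) .nil)))),
   .two (nat_lit 8388616) (nat_lit 2969567256) (.two (nat_lit 16777221) (nat_lit 47555019115) (.two (nat_lit 8388608) (nat_lit 9866052842) (.one (nat_lit 1052257) .nil))),
   .two (nat_lit 165525061640) (nat_lit 47582281793) (.two (nat_lit 16777217) (nat_lit 159250383552) (.two (nat_lit 16777216) (nat_lit 1050559) (.one (nat_lit 2101495) .nil))),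
   .two (nat_lit 28086108168) (nat_lit 21827158134) (.two (nat_lit 605028353) (nat_lit 1191182901) (.two (nat_lit 1048576) (nat_lit 16779200) (.one (nat_lit 16780898) .nil))),
   .two (nat_lit 159224168456) (nat_lit 50331762) (.two (nat_lit 8388609) (nat_lit 1929382750) .nil),
   .two (nat_lit 343932941) (nat_lit 673186026) (.two (nat_lit 8388609) (nat_lit 46474985829) (.two (nat_lit 8388608) (nat_lit 2099137) (.one (nat_lit 2100837) .nil))),
   .two (nat_lit 11559501837) (nat_lit 21811429610) (.two (nat_lit 50331649) (nat_lit 1376780646) (.two (nat_lit 16777216) (nat_lit 1050562) (.one (nat_lit 1052920) .nil))),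
   .two (nat_lit 606076936) (nat_lit 822083599) (.two (nat_lit 16777220) (nat_lit 673185912) (.two (nat_lit 16777217) (nat_lit 4632610718) (.one (nat_lit 2100845) .nil))),
   .two (nat_lit 176160776) (nat_lit 10942939262) (.two (nat_lit 8388609) (nat_lit 4634706482) (.two (nat_lit 8388608) (nat_lit 4196962) (.one (nat_lit 157043132618) .nil))),
   .two (nat_lit 9881780232) (nat_lit 10335813676) (.two (nat_lit 806354949) (nat_lit 11559502402) (.two (nat_lit 1048576) (nat_lit 9900656421) (.one (nat_lit 16781561) .nil))),
   .two (nat_lit 184549384) (nat_lit 2317353060) (.two (nat_lit 184549380) (nat_lit 2097464) (.two (nat_lit 2097153) (nat_lit 16778321) (.two (nat_lit 1048576) (nat_lit 1377830111) (.one (nat_lit 1052273) .nil)))),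
   .two (nat_lit 11525947405) (nat_lit 4634705986) (.two (nat_lit 16777217) (nat_lit 10000269916) (.two (nat_lit 16777216) (nat_lit 4196293) (.one (nat_lit 4198650) .nil))),
   .two (nat_lit 9768534024) (nat_lit 2988441665) (.two (nat_lit 2097153) (nat_lit 306185272) (.two (nat_lit 4194304) (nat_lit 2099811) (.one (nat_lit 2100851) .nil))),
   .two (nat_lit 606076936) (nat_lit 28093448207) (.two (nat_lit 169869316) (nat_lit 8388727) (.two (nat_lit 612368385) (nat_lit 10370417925) (.one (nat_lit 2101499) .nil))),
   .two (nat_lit 705691656) (nat_lit 19532873743) (.two (nat_lit 166132187140) (nat_lit 28690088055) (.two (nat_lit 2097153) (nat_lit 4195628) (.one (nat_lit 21814578701) .nil))),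
   .two (nat_lit 3525312520) (nat_lit 21207449615) (.two (nat_lit 2887778308) (nat_lit 20704133235) (.two (nat_lit 9766436865) (nat_lit 12114201136) (.one (nat_lit 1052924) .nil))),
   .two (nat_lit 8388616) (nat_lit 10336862223) (.two (nat_lit 8388613) (nat_lit 9967763695) (.two (nat_lit 2097153) (nat_lit 343933119) (.two (nat_lit 8388608) (nat_lit 2099816) (.one (nat_lit 807406506) .nil)))),
   .two (nat_lit 3458203656) (nat_lit 10552868888) (.two (nat_lit 2902458372) (nat_lit 2988441667) (.two (nat_lit 2097153) (nat_lit 10519316367) (.one (nat_lit 16781565) .nil))),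
   .two (nat_lit 3458203656) (nat_lit 18933088271) (.two (nat_lit 156372041733) (nat_lit 166130090589) (.two (nat_lit 8388608) (nat_lit 2317354801) (.one (nat_lit 2101502) .nil))),
   .two (nat_lit 2954887176) (nat_lit 28757196815) (.two (nat_lit 169869316) (nat_lit 10436477040) (.two (nat_lit 2097153) (nat_lit 28086108814) (.two (nat_lit 2097152) (nat_lit 11577328933) (.one (nat_lit 10906242598) .nil)))),
   .two (nat_lit 9934209032) (nat_lit 158143086659) (.two (nat_lit 2097153) (nat_lit 1779435301) (.one (nat_lit 1052927) .nil)),
   .two (nat_lit 41943048) (nat_lit 239075352) (.two (nat_lit 2889875460) (nat_lit 159224168809) (.two (nat_lit 4194304) (nat_lit 46984594718) (.one (nat_lit 4198020) .nil))),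
   .two (nat_lit 11479810056) (nat_lit 740294914) (.two (nat_lit 605028353) (nat_lit 18926797449) (.two (nat_lit 4194304) (nat_lit 2099819) (.one (nat_lit 4198656) .nil))),
   .two (nat_lit 18933088269) (nat_lit 3527409688) (.two (nat_lit 272629765) (nat_lit 165532401778) (.two (nat_lit 4194305) (nat_lit 12054430291) (.two (nat_lit 16777216) (nat_lit 9936308099) (.one (nat_lit 8392961) .nil)))),
   .two (nat_lit 285212680) (nat_lit 10007609453) (.two (nat_lit 16777217) (nat_lit 159224169289) (.one (nat_lit 8392962) .nil)),
   .two (nat_lit 2889875464) (nat_lit 46978301967) (.two (nat_lit 2889875460) (nat_lit 236978533) (.two (nat_lit 4194304) (nat_lit 3021997294) (.one (nat_lit 2101507) .nil))),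
   .two (nat_lit 37748744) (nat_lit 20644364354) (.two (nat_lit 2097153) (nat_lit 641729125) (.two (nat_lit 8388608) (nat_lit 171968395) (.one (nat_lit 4198660) .nil))),
   .two (nat_lit 1779433480) (nat_lit 184993972239) (.two (nat_lit 101711877) (nat_lit 1853882487) (.two (nat_lit 605028353) (nat_lit 880804031) (.two (nat_lit 1048576) (nat_lit 47555019997) (.one (nat_lit 8392965) .nil)))),
   .two (nat_lit 203423752) (nat_lit 1312817194) (.two (nat_lit 2887778308) (nat_lit 3460301061) (.two (nat_lit 4194305) (nat_lit 10001318992) (.two (nat_lit 4194304) (nat_lit 2099825) (.one (nat_lit 2101510) .nil)))),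
   .two (nat_lit 276824072) (nat_lit 4601151552) (.two (nat_lit 8388609) (nat_lit 4601151679) (.two (nat_lit 8388608) (nat_lit 4195639) (.one (nat_lit 1052935) .nil))),
   .two (nat_lit 169869320) (nat_lit 46980399170) (.two (nat_lit 2097153) (nat_lit 2990539340) (.two (nat_lit 1048576) (nat_lit 4196302) (.one (nat_lit 1052306) .nil))),
   .two (nat_lit 11492392968) (nat_lit 9867100175) (.two (nat_lit 708837381) (nat_lit 183962173506) (.two (nat_lit 4194305) (nat_lit 754976039) (.one (nat_lit 16781576) .nil))),
   .two (nat_lit 639631368) (nat_lit 28757196921) (.two (nat_lit 606076929) (nat_lit 28086108789) (.two (nat_lit 1048576) (nat_lit 2100699) (.one (nat_lit 28790754928) .nil)))]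

theorem k3 : chkL tab c3 (nat_lit 3900) = true := by decide +kernel

theorem l3 : c3.length = 1300 := by decide +kernel

end K2

end Pool.Agent.Work.MP_bf01b2_co.MR
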