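import Pool.Agent.Work.MP_bf01b2_co.MR.K2T

/-!
# Two roots in `Q_5`: certificates of the entries 5200 to 6499
-/

set_option autoImplicit false
set_option maxRecDepth 100000

namespace Pool.Agent.Work.MP_bf01b2_co.MR

namespace K2

open JT

/-- certificates of the entries 5200 to 6499 -/
def c4 : List Rc :=
  [.two (nat_lit 37748744) (nat_lit 754974829) (.two (nat_lit 4194305) (nat_lit 37314627468) (.one (nat_lit 2100890) .nil)),
   .two (nat_lit 721420296) (nat_lit 9899606039) (.two (nat_lit 721420292) (nat_lit 2316304491) (.two (nat_lit 605028353) (nat_lit 16777407) (.two (nat_lit 1048576) (nat_lit 721421583) (.one (nat_lit 16781577) .nil)))),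
   .two (nat_lit 1291845640) (nat_lit 12617515034) (.two (nat_lit 270532613) (nat_lit 2969567341) (.two (nat_lit 2097153) (nat_lit 318768428) (.one (nat_lit 16781578) .nil))),
   .two (nat_lit 4634705933) (nat_lit 19596836879) (.two (nat_lit 272629765) (nat_lit 37246468208) (.two (nat_lit 4194305) (nat_lit 19127076129) (.one (nat_lit 11543776146) .nil))),
   .two (nat_lit 21785214989) (nat_lit 28691136614) (.two (nat_lit 2954887173) (nat_lit 21785215090) (.two (nat_lit 612368385) (nat_lit 20705182954) (.one (nat_lit 9974057903) .nil))),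
   .two (nat_lit 9948889096) (nat_lit 174686470184) (.two (nat_lit 34603013) (nat_lit 1795162470) (.two (nat_lit 2097152) (nat_lit 352324159) (.one (nat_lit 2100902) .nil))),
   .two (nat_lit 739246088) (nat_lit 158653743128) (.two (nat_lit 11476664324) (nat_lit 142606454) (.two (nat_lit 34603009) (nat_lit 9906946650) (.two (nat_lit 1048576) (nat_lit 8391286) (.one (nat_lit 8392971) .nil)))),
   .two (nat_lit 1780482056) (nat_lit 12147752983) (.two (nat_lit 1277165572) (nat_lit 638582910) (.two (nat_lit 606076929) (nat_lit 1384120905) (.two (nat_lit 8388608) (nat_lit 2099156) (.one (nat_lit 2101516) .nil)))),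
   .two (nat_lit 2887778312) (nat_lit 159224168463) (.two (nat_lit 270532613) (nat_lit 166136381559) (.two (nat_lit 2097153) (nat_lit 3565158988) (.two (nat_lit 1048576) (nat_lit 8391288) (.one (nat_lit 1052941) .nil)))),
   .two (nat_lit 742391816) (nat_lit 158176641048) (.two (nat_lit 2097157) (nat_lit 46510637166) (.two (nat_lit 2097153) (nat_lit 9936308832) (.one (nat_lit 4198670) .nil))),
   .two (nat_lit 8388614) (nat_lit 47582281754) (.two (nat_lit 169869320) (nat_lit 4605345803) (.two (nat_lit 1277165570) (nat_lit 8388906) (.two (nat_lit 9934209029) (nat_lit 19134415186) (.two (nat_lit 9765388289) (nat_lit 8389796) (.two (nat_lit 1048576) (nat_lit 8391405) (.one (nat_lit 2100937) .nil)))))),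
   .two (nat_lit 46407876616) (nat_lit 37262196778) (.two (nat_lit 4599054341) (nat_lit 12129927429) (.two (nat_lit 620756993) (nat_lit 3524264312) (.two (nat_lit 1048576) (nat_lit 2099285) (.one (nat_lit 2100941) .nil)))),
   .two (nat_lit 11543773192) (nat_lit 1191182377) (.two (nat_lit 705691652) (nat_lit 9982443801) (.two (nat_lit 620756993) (nat_lit 1050290) (.two (nat_lit 16777216) (nat_lit 1050715) (.one (nat_lit 1052943) .nil)))),
   .two (nat_lit 606076936) (nat_lit 46414168080) (.two (nat_lit 37748743) (nat_lit 4638900247) (.two (nat_lit 8388612) (nat_lit 35651726) (.two (nat_lit 37748739) (nat_lit 20638072915) (.two (nat_lit 37748737) (nat_lit 8389801) (.two (nat_lit 4194304) (nat_lit 8390748) (.one (nat_lit 8392412) .nil)))))),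
   .two (nat_lit 16777231) (nat_lit 9866051705) (.two (nat_lit 1343225861) (nat_lit 285212863) (.two (nat_lit 605028353) (nat_lit 16778482) (.two (nat_lit 1048576) (nat_lit 183962176265) (.one (nat_lit 16781603) .nil)))),
   .two (nat_lit 8388623) (nat_lit 28693233731) (.two (nat_lit 8388612) (nat_lit 19130220901) (.two (nat_lit 37748737) (nat_lit 18933090490) (.one (nat_lit 4198151) .nil))),
   .two (nat_lit 285212687) (nat_lit 9934209039) (.two (nat_lit 169869320) (nat_lit 285212736) (.two (nat_lit 169869316) (nat_lit 4647289023) (.two (nat_lit 606076929) (nat_lit 34603850) (.two (nat_lit 1048576) (nat_lit 16780047) (.one (nat_lit 1052964) .nil))))),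
   .two (nat_lit 2889875471) (nat_lit 21208498191) (.two (nat_lit 9934209032) (nat_lit 28693233774) (.two (nat_lit 169869316) (nat_lit 2923430249) (.two (nat_lit 2097153) (nat_lit 2923432715) (.one (nat_lit 2923433722) .nil)))),
   .two (nat_lit 272629775) (nat_lit 1913651215) (.two (nat_lit 101711880) (nat_lit 4601151552) (.two (nat_lit 11476664324) (nat_lit 306184383) (.two (nat_lit 34603009) (nat_lit 876612367) (.one (nat_lit 876613912) .nil)))),
   .two (nat_lit 20638072847) (nat_lit 2969567256) (.two (nat_lit 184549384) (nat_lit 9967763568) (.two (nat_lit 184549380) (nat_lit 2097752) (.two (nat_lit 16777217) (nat_lit 2098420) (.two (nat_lit 16777216) (nat_lit 2100718) (.one (nat_lit 2101541) .nil))))),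
   .two (nat_lit 272629775) (nat_lit 1745879064) (.two (nat_lit 18925748232) (nat_lit 158179786871) (.two (nat_lit 183848927237) (nat_lit 21811429734) (.two (nat_lit 16777217) (nat_lit 1782581421) (.one (nat_lit 4198694) .nil)))),
   .two (nat_lit 176160783) (nat_lit 20719861884) (.two (nat_lit 12062818309) (nat_lit 47555020251) (.one (nat_lit 8392999) .nil)),
   .two (nat_lit 101711887) (nat_lit 1753219186) (.two (nat_lit 11476664324) (nat_lit 20644364871) (.two (nat_lit 34603009) (nat_lit 343936144) .nil)),
   .two (nat_lit 809500687) (nat_lit 11510218818) (.two (nat_lit 16777220) (nat_lit 37749093) (.two (nat_lit 4194305) (nat_lit 1050405) (.two (nat_lit 16777216) (nat_lit 1051409) (.one (nat_lit 4198696) .nil)))),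
   .two (nat_lit 8388623) (nat_lit 156969730089) (.two (nat_lit 2961178632) (nat_lit 673185915) (.two (nat_lit 11492392964) (nat_lit 1175454536) (.two (nat_lit 16777216) (nat_lit 9866053815) (.one (nat_lit 1052969) .nil)))),
   .two (nat_lit 2954887183) (nat_lit 168820861) (.two (nat_lit 4194308) (nat_lit 174752531679) (.two (nat_lit 2097152) (nat_lit 12147755780) (.one (nat_lit 4198698) .nil))),
   .two (nat_lit 50331663) (nat_lit 156566028355) (.two (nat_lit 8388612) (nat_lit 10906240235) (.two (nat_lit 8388608) (nat_lit 1052145) (.one (nat_lit 16781611) .nil))),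
   .two (nat_lit 272629775) (nat_lit 1753219181) (.two (nat_lit 4194308) (nat_lit 21785215554) (.two (nat_lit 606076929) (nat_lit 12150900517) (.two (nat_lit 2097152) (nat_lit 9772730541) (.one (nat_lit 4198701) .nil)))),
   .two (nat_lit 11479810063) (nat_lit 10336862223) (.two (nat_lit 104857608) (nat_lit 3458203714) (.two (nat_lit 47548727301) (nat_lit 156468511306) (.two (nat_lit 612368385) (nat_lit 159253531808) .nil))),
   .two (nat_lit 12147752983) (nat_lit 184423546905) (.two (nat_lit 184993972232) (nat_lit 183912890434) (.two (nat_lit 117440517) (nat_lit 1049182) (.two (nat_lit 34603009) (nat_lit 41944303) (.two (nat_lit 16777216) (nat_lit 11510220981) (.one (nat_lit 1052974) .nil))))),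
   .two (nat_lit 205520911) (nat_lit 28093448232) (.two (nat_lit 4194312) (nat_lit 159224168639) (.two (nat_lit 4194305) (nat_lit 9906947311) (.two (nat_lit 1048576) (nat_lit 8391453) (.one (nat_lit 1052448) .nil)))),
   .two (nat_lit 2954887183) (nat_lit 156968681496) (.two (nat_lit 19529728008) (nat_lit 185021235319) (.two (nat_lit 166130089989) (nat_lit 2316304745) (.two (nat_lit 16777217) (nat_lit 1344276653) (.one (nat_lit 2101551) .nil)))),
   .two (nat_lit 16777231) (nat_lit 19599982607) (.two (nat_lit 205520904) (nat_lit 620757183) (.two (nat_lit 37748737) (nat_lit 9933161290) (.two (nat_lit 1048576) (nat_lit 21793605820) (.one (nat_lit 1052965) .nil)))),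
   .two (nat_lit 1178599439) (nat_lit 21777874959) (.two (nat_lit 1178599432) (nat_lit 1376780404) (.two (nat_lit 11479810052) (nat_lit 21811429953) (.two (nat_lit 34603009) (nat_lit 13224642012) (.one (nat_lit 1052976) .nil)))),
   .two (nat_lit 8388623) (nat_lit 1849688089) (.two (nat_lit 21785214984) (nat_lit 10338959481) (.two (nat_lit 171966469) (nat_lit 10007609535) (.two (nat_lit 620756993) (nat_lit 10503588031) (.one (nat_lit 34606819) .nil)))),
   .two (nat_lit 11559501839) (nat_lit 3024093224) (.two (nat_lit 2969567240) (nat_lit 4194425) (.two (nat_lit 158075977733) (nat_lit 18926798062) (.two (nat_lit 1048576) (nat_lit 2100001) (.one (nat_lit 1052977) .nil)))),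
   .two (nat_lit 9768534031) (nat_lit 159217877007) (.two (nat_lit 9934209032) (nat_lit 2923429998) (.two (nat_lit 169869316) (nat_lit 4195344) (.two (nat_lit 2097153) (nat_lit 4634707156) (.two (nat_lit 2097152) (nat_lit 4197154) (.one (nat_lit 4198706) .nil))))),
   .two (nat_lit 75497487) (nat_lit 184416206915) (.two (nat_lit 713031684) (nat_lit 9866052189) (.two (nat_lit 34603009) (nat_lit 2927626020) (.two (nat_lit 4194304) (nat_lit 605030573) (.one (nat_lit 1052453) .nil)))),
   .two (nat_lit 11492392975) (nat_lit 8388634) (.two (nat_lit 158158815240) (nat_lit 310378562) (.two (nat_lit 50331653) (nat_lit 156372041919) (.two (nat_lit 156367847425) (nat_lit 11517560284) (.one (nat_lit 18941480108) .nil)))),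
   .two (nat_lit 11543773199) (nat_lit 18928893967) (.two (nat_lit 739246088) (nat_lit 2923429997) (.two (nat_lit 9765388293) (nat_lit 306184383) (.two (nat_lit 8388609) (nat_lit 46406830253) (.one (nat_lit 1052979) .nil)))),
   .two (nat_lit 8388623) (nat_lit 158077026319) (.two (nat_lit 12050235400) (nat_lit 8388672) (.two (nat_lit 156367847429) (nat_lit 41943231) (.two (nat_lit 156365750273) (nat_lit 13191086922) (.two (nat_lit 2097152) (nat_lit 8392179) (.one (nat_lit 8392488) .nil))))),
   .two (nat_lit 9967763480) (nat_lit 205520921) (.two (nat_lit 10007609356) (nat_lit 1413480570) (.two (nat_lit 159224168453) (nat_lit 4030726733) (.two (nat_lit 2097153) (nat_lit 13224642012) (.one (nat_lit 4198709) .nil)))),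
   .two (nat_lit 16777231) (nat_lit 46510637172) (.two (nat_lit 16777220) (nat_lit 2923430728) (.two (nat_lit 16777216) (nat_lit 4196549) (.one (nat_lit 4198187) .nil))),
   .two (nat_lit 272629775) (nat_lit 183853121559) (.two (nat_lit 37748744) (nat_lit 3028288058) (.two (nat_lit 4194305) (nat_lit 2099976) (.one (nat_lit 2101526) .nil))),
   .two (nat_lit 184549391) (nat_lit 874512483) (.two (nat_lit 620757000) (nat_lit 304087628) (.two (nat_lit 2097153) (nat_lit 4647290126) (.two (nat_lit 1048576) (nat_lit 13222547178) .nil))),
   .two (nat_lit 9781116943) (nat_lit 13195280410) (.two (nat_lit 813694984) (nat_lit 9781117039) (.two (nat_lit 10385096709) (nat_lit 11584668926) (.two (nat_lit 2097152) (nat_lit 9940503712) .nil))),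
   .two (nat_lit 1178599439) (nat_lit 1962934339) (.two (nat_lit 9768534021) (nat_lit 156581757530) (.two (nat_lit 37748737) (nat_lit 754976051) (.two (nat_lit 16777216) (nat_lit 12050238300) (.one (nat_lit 4198233) .nil)))),
   .two (nat_lit 654311439) (nat_lit 1913651224) (.two (nat_lit 1175453704) (nat_lit 9781117039) (.two (nat_lit 12114198533) (nat_lit 10343154504) (.two (nat_lit 8388608) (nat_lit 83889967) .nil))),
   .two (nat_lit 41943055) (nat_lit 19599982607) (.two (nat_lit 13195280392) (nat_lit 12117344320) (.two (nat_lit 183848927236) (nat_lit 185027527986) (.two (nat_lit 4194304) (nat_lit 158150429546) (.one (nat_lit 37320920212) .nil)))),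
   .two (nat_lit 654311439) (nat_lit 174753579199) (.two (nat_lit 16777217) (nat_lit 1176503600) (.two (nat_lit 2097152) (nat_lit 16780174) (.one (nat_lit 2101082) .nil))),
   .two (nat_lit 183848927247) (nat_lit 10906239075) (.two (nat_lit 101711885) (nat_lit 9802088515) (.two (nat_lit 183848927236) (nat_lit 184416207515) (.two (nat_lit 8388609) (nat_lit 876610800) (.two (nat_lit 8388608) (nat_lit 4197263) (.one (nat_lit 1053109) .nil))))),
   .two (nat_lit 285212687) (nat_lit 166132187151) (.two (nat_lit 166132187144) (nat_lit 285212736) (.two (nat_lit 10506731525) (nat_lit 46523221225) (.two (nat_lit 4194304) (nat_lit 16780176) (.one (nat_lit 16781750) .nil)))),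
   .two (nat_lit 16777231) (nat_lit 19093520408) (.two (nat_lit 620757000) (nat_lit 12617515123) (.two (nat_lit 721420292) (nat_lit 37246469337) (.two (nat_lit 16777216) (nat_lit 12047091923) (.one (nat_lit 47596965695) .nil)))),
   .two (nat_lit 11559501839) (nat_lit 2316304493) (.two (nat_lit 705691652) (nat_lit 50332889) (.two (nat_lit 1048576) (nat_lit 218106758) (.one (nat_lit 10000273735) .nil))),
   .two (nat_lit 184549391) (nat_lit 2988441626) (.two (nat_lit 169869320) (nat_lit 2969567341) (.two (nat_lit 169869316) (nat_lit 20753416873) (.two (nat_lit 606076929) (nat_lit 10537143133) (.one (nat_lit 1053111) .nil)))),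
   .two (nat_lit 9948889103) (nat_lit 2418016384) (.two (nat_lit 16777220) (nat_lit 9802089540) (.two (nat_lit 50331649) (nat_lit 1413483075) (.two (nat_lit 4194304) (nat_lit 16780834) (.one (nat_lit 4198200) .nil)))),
   .two (nat_lit 285212687) (nat_lit 158144135183) (.two (nat_lit 158144135176) (nat_lit 10015998084) (.two (nat_lit 1277165572) (nat_lit 11559502422) (.two (nat_lit 606076929) (nat_lit 46489666860) (.two (nat_lit 1048576) (nat_lit 706742474) (.one (nat_lit 16781752) .nil))))),
   .two (nat_lit 8388623) (nat_lit 28705816706) (.two (nat_lit 50331653) (nat_lit 1176502935) (.two (nat_lit 620756993) (nat_lit 19100862243) (.two (nat_lit 16777216) (nat_lit 8391571) (.one (nat_lit 8393145) .nil)))),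
   .two (nat_lit 8388623) (nat_lit 157038936176) (.two (nat_lit 8388612) (nat_lit 3527410022) (.two (nat_lit 8388609) (nat_lit 272631027) (.two (nat_lit 4194304) (nat_lit 880807735) .nil))),
   .two (nat_lit 721420303) (nat_lit 46414168130) (.two (nat_lit 4605345797) (nat_lit 16777574) (.two (nat_lit 8388609) (nat_lit 16778456) (.two (nat_lit 8388608) (nat_lit 10016000193) (.one (nat_lit 21785218861) .nil)))),
   .two (nat_lit 2954887183) (nat_lit 1358954511) (.two (nat_lit 721420296) (nat_lit 2954887359) (.two (nat_lit 34603009) (nat_lit 1176504093) (.two (nat_lit 1048576) (nat_lit 218107696) .nil))),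
   .two (nat_lit 11492392975) (nat_lit 4601151679) (.two (nat_lit 605028353) (nat_lit 37316724008) (.two (nat_lit 1048576) (nat_lit 10372517722) .nil)),
   .two (nat_lit 101711887) (nat_lit 1753219186) (.two (nat_lit 21785214981) (nat_lit 184986632896) (.two (nat_lit 2097153) (nat_lit 880805080) (.two (nat_lit 1048576) (nat_lit 8391573) (.one (nat_lit 336596803) .nil)))),
   .two (nat_lit 184549391) (nat_lit 159251431532) (.two (nat_lit 184549380) (nat_lit 10001319218) (.two (nat_lit 16777216) (nat_lit 304089962) (.one (nat_lit 2101691) .nil))),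
   .two (nat_lit 822083599) (nat_lit 158177689626) (.two (nat_lit 169869320) (nat_lit 11022631029) (.two (nat_lit 16777220) (nat_lit 203424330) (.two (nat_lit 34603009) (nat_lit 166211880224) (.two (nat_lit 1048576) (nat_lit 46489667786) (.one (nat_lit 1053116) .nil))))),
   .two (nat_lit 9934209039) (nat_lit 117440527) (.two (nat_lit 169869320) (nat_lit 11022631029) (.two (nat_lit 16777220) (nat_lit 203424330) (.two (nat_lit 34603009) (nat_lit 166211880224) (.two (nat_lit 1048576) (nat_lit 46489667786) (.one (nat_lit 1053117) .nil))))),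
   .two (nat_lit 165532401679) (nat_lit 46407876732) (.two (nat_lit 10336862213) (nat_lit 9940501322) (.two (nat_lit 2097152) (nat_lit 21785217208) (.one (nat_lit 8393150) .nil))),
   .two (nat_lit 1291845647) (nat_lit 4605345807) (.two (nat_lit 1291845640) (nat_lit 46414168131) (.two (nat_lit 8388612) (nat_lit 218104166) (.two (nat_lit 8388609) (nat_lit 4647290099) (.two (nat_lit 16777216) (nat_lit 1786777434) .nil)))),
   .two (nat_lit 16777231) (nat_lit 739246095) (.two (nat_lit 620757000) (nat_lit 166196150573) (.two (nat_lit 8388613) (nat_lit 1745879880) (.two (nat_lit 8388608) (nat_lit 605030598) (.one (nat_lit 16781759) .nil)))),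
   .two (nat_lit 639631375) (nat_lit 159224168463) (.two (nat_lit 101711880) (nat_lit 183947493500) (.two (nat_lit 270532613) (nat_lit 10007609701) (.two (nat_lit 2097153) (nat_lit 2927625446) (.two (nat_lit 1048576) (nat_lit 2954889400) (.one (nat_lit 1053120) .nil))))),
   .two (nat_lit 4194319) (nat_lit 3028287512) (.two (nat_lit 47555018760) (nat_lit 11610882113) (.two (nat_lit 169869316) (nat_lit 9906946408) (.two (nat_lit 2097153) (nat_lit 41944329) (.two (nat_lit 2097152) (nat_lit 645925649) (.one (nat_lit 8392543) .nil))))),
   .two (nat_lit 620757007) (nat_lit 166130089999) (.two (nat_lit 166130089992) (nat_lit 9948889197) (.two (nat_lit 10504634373) (nat_lit 16778458) (.two (nat_lit 2097152) (nat_lit 11559504774) (.one (nat_lit 2101070) .nil)))),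
   .two (nat_lit 165532401679) (nat_lit 46474985582) (.two (nat_lit 169869316) (nat_lit 18933089096) (.two (nat_lit 2097152) (nat_lit 156372043991) (.one (nat_lit 276828452) .nil))),
   .two (nat_lit 13191086095) (nat_lit 159250382965) (.two (nat_lit 183848927237) (nat_lit 21811429971) (.two (nat_lit 4194305) (nat_lit 3557820618) (.one (nat_lit 183947497896) .nil))),
   .two (nat_lit 9781116943) (nat_lit 183848927298) (.two (nat_lit 13191086085) (nat_lit 285213913) (.two (nat_lit 4194304) (nat_lit 754977670) (.one (nat_lit 809505473) .nil))),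
   .two (nat_lit 46414168079) (nat_lit 9899606128) (.two (nat_lit 705691652) (nat_lit 1753219666) (.two (nat_lit 34603009) (nat_lit 47588574504) (.two (nat_lit 8388608) (nat_lit 165525065524) .nil))),
   .two (nat_lit 9934209039) (nat_lit 20644364354) (.two (nat_lit 169869316) (nat_lit 20644365128) (.two (nat_lit 2097152) (nat_lit 46980402969) .nil)),
   .two (nat_lit 721420303) (nat_lit 9934209039) (.two (nat_lit 83886088) (nat_lit 673185914) (.two (nat_lit 9948889093) (nat_lit 9967763647) (.two (nat_lit 9781116929) (nat_lit 236981121) (.one (nat_lit 2101697) .nil)))),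
   .two (nat_lit 4194319) (nat_lit 158083318117) (.two (nat_lit 4194305) (nat_lit 21818770670) (.two (nat_lit 1048576) (nat_lit 10506733756) (.one (nat_lit 4198850) .nil))),
   .two (nat_lit 739246095) (nat_lit 174692761650) (.two (nat_lit 739246088) (nat_lit 8388917) (.two (nat_lit 11543773189) (nat_lit 183853122119) (.two (nat_lit 34603009) (nat_lit 8390867) (.one (nat_lit 1052514) .nil)))),
   .two (nat_lit 713031695) (nat_lit 166129041434) (.two (nat_lit 1350565896) (nat_lit 269484162) (.two (nat_lit 28757196805) (nat_lit 183853121893) (.two (nat_lit 9768534017) (nat_lit 19604179731) (.one (nat_lit 8393155) .nil)))),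
   .two (nat_lit 159224168463) (nat_lit 184986632207) (.two (nat_lit 184986632200) (nat_lit 12155093123) (.two (nat_lit 184416206853) (nat_lit 183916036727) (.two (nat_lit 8388609) (nat_lit 21814577029) (.two (nat_lit 8388608) (nat_lit 2923432814) (.one (nat_lit 310382936) .nil))))),
   .two (nat_lit 16777231) (nat_lit 28790751346) (.two (nat_lit 184549381) (nat_lit 1049676) (.two (nat_lit 50331649) (nat_lit 184986634433) (.one (nat_lit 185020190521) .nil))),
   .two (nat_lit 4194319) (nat_lit 13195280410) (.two (nat_lit 276824072) (nat_lit 1948254339) (.two (nat_lit 8388612) (nat_lit 11007951454) (.two (nat_lit 4194305) (nat_lit 1175456659) (.one (nat_lit 4601155410) .nil)))),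
   .two (nat_lit 41943055) (nat_lit 2902458433) (.two (nat_lit 16777221) (nat_lit 310379753) (.two (nat_lit 16777216) (nat_lit 8391576) (.one (nat_lit 8393156) .nil))),
   .two (nat_lit 1277165583) (nat_lit 12114198543) (.two (nat_lit 9867100168) (nat_lit 183912890476) (.two (nat_lit 1913651205) (nat_lit 10001318559) (.two (nat_lit 37748737) (nat_lit 10538189641) (.two (nat_lit 1048576) (nat_lit 10538190300) (.one (nat_lit 2101701) .nil))))),
   .two (nat_lit 2969567247) (nat_lit 10336862223) (.two (nat_lit 10336862216) (nat_lit 2969567298) (.two (nat_lit 46407876612) (nat_lit 2936013159) (.two (nat_lit 2097153) (nat_lit 3036677353) (.two (nat_lit 2097152) (nat_lit 21827160953) (.one (nat_lit 16781766) .nil))))),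
   .two (nat_lit 50331663) (nat_lit 157038936079) (.two (nat_lit 822083592) (nat_lit 183848927473) (.two (nat_lit 46409973764) (nat_lit 285213905) (.two (nat_lit 4194304) (nat_lit 16779431) (.one (nat_lit 1426067180) .nil)))),
   .two (nat_lit 276824079) (nat_lit 11593056306) (.two (nat_lit 165525061640) (nat_lit 847249765) (.two (nat_lit 8388609) (nat_lit 2432697578) (.two (nat_lit 1048576) (nat_lit 218106749) (.one (nat_lit 1053127) .nil)))),
   .two (nat_lit 620757007) (nat_lit 1947205746) (.two (nat_lit 1358954501) (nat_lit 21811429957) (.two (nat_lit 620756993) (nat_lit 174685423516) (.two (nat_lit 16777216) (nat_lit 1051546) (.one (nat_lit 1053066) .nil)))),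
   .two (nat_lit 3525312527) (nat_lit 1795162226) (.two (nat_lit 2887778308) (nat_lit 11492393543) (.two (nat_lit 9766436865) (nat_lit 1426064618) (.two (nat_lit 2097152) (nat_lit 16780187) (.one (nat_lit 47582286151) .nil)))),
   .two (nat_lit 158176641048) (nat_lit 11578376235) (.two (nat_lit 11476664328) (nat_lit 4634706493) (.two (nat_lit 2097153) (nat_lit 19529730250) (.one (nat_lit 156567080760) .nil))),
   .two (nat_lit 11492392975) (nat_lit 10506731535) (.two (nat_lit 10506731528) (nat_lit 11492393026) (.two (nat_lit 2889875460) (nat_lit 1191183176) (.two (nat_lit 4194304) (nat_lit 83889326) .nil))),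
   .two (nat_lit 8388623) (nat_lit 9948889103) (.two (nat_lit 9948889096) (nat_lit 8388672) (.two (nat_lit 184549380) (nat_lit 10007610843) (.one (nat_lit 3028290719) .nil))),
   .two (nat_lit 4601151503) (nat_lit 19596836879) (.two (nat_lit 169869320) (nat_lit 775946501) (.two (nat_lit 11546918917) (nat_lit 1376780479) (.two (nat_lit 37748737) (nat_lit 739247389) (.two (nat_lit 2097152) (nat_lit 11577330513) (.one (nat_lit 183947497198) .nil))))),
   .two (nat_lit 16777231) (nat_lit 183949590593) (.two (nat_lit 809500677) (nat_lit 352321727) (.two (nat_lit 156364701697) (nat_lit 12050237229) (.two (nat_lit 1048576) (nat_lit 339742484) .nil))),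
   .two (nat_lit 4194319) (nat_lit 41943055) (.two (nat_lit 41943048) (nat_lit 156566028417) (.two (nat_lit 8388612) (nat_lit 708838033) (.two (nat_lit 4194305) (nat_lit 638584096) (.two (nat_lit 1048576) (nat_lit 4197276) (.one (nat_lit 2353008442) .nil))))),
   .two (nat_lit 9781116943) (nat_lit 2954887359) (.two (nat_lit 16777217) (nat_lit 2887780268) (.two (nat_lit 1048576) (nat_lit 3558869831) (.one (nat_lit 2886734152) .nil))),
   .two (nat_lit 9866051599) (nat_lit 19029557271) (.two (nat_lit 1849688072) (nat_lit 158176641090) (.two (nat_lit 1343225861) (nat_lit 2319450797) (.two (nat_lit 4194305) (nat_lit 3028288810) (.two (nat_lit 1048576) (nat_lit 4197277) (.one (nat_lit 1053130) .nil))))),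
   .two (nat_lit 11543773199) (nat_lit 156971827312) (.two (nat_lit 739246085) (nat_lit 28693234248) (.two (nat_lit 34603009) (nat_lit 166132188380) (.two (nat_lit 8388608) (nat_lit 19127078716) .nil))),
   .two (nat_lit 20644364303) (nat_lit 11577327732) (.two (nat_lit 11543773189) (nat_lit 47588573791) (.two (nat_lit 34603009) (nat_lit 2994734313) (.two (nat_lit 8388608) (nat_lit 235932518) (.one (nat_lit 1053131) .nil)))),
   .two (nat_lit 9881780239) (nat_lit 28086108175) (.two (nat_lit 1795162120) (nat_lit 101712001) (.two (nat_lit 1191182341) (nat_lit 28089254479) (.two (nat_lit 4194305) (nat_lit 184550610) (.two (nat_lit 1048576) (nat_lit 352324480) (.one (nat_lit 1053132) .nil))))),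
   .two (nat_lit 4194319) (nat_lit 13195280410) (.two (nat_lit 276824072) (nat_lit 10001317999) (.two (nat_lit 9933160453) (nat_lit 3525313156) (.two (nat_lit 4194305) (nat_lit 12114199847) (.two (nat_lit 4194304) (nat_lit 1051550) (.one (nat_lit 4198861) .nil))))),
   .two (nat_lit 158075977743) (nat_lit 184419352591) (.two (nat_lit 12050235400) (nat_lit 1376780355) (.two (nat_lit 1745879045) (nat_lit 11513364837) (.two (nat_lit 606076929) (nat_lit 168822696) (.two (nat_lit 2097152) (nat_lit 184416210764) .nil)))),
   .two (nat_lit 183912890392) (nat_lit 1417674793) (.two (nat_lit 739246088) (nat_lit 1417674868) (.two (nat_lit 21785214981) (nat_lit 12147753801) (.two (nat_lit 1048576) (nat_lit 8391583) (.one (nat_lit 1053135) .nil)))),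
   .two (nat_lit 2961178639) (nat_lit 1291845647) (.two (nat_lit 158143086600) (nat_lit 209715317) (.two (nat_lit 9948889093) (nat_lit 156573368905) (.two (nat_lit 9765388289) (nat_lit 1317012778) (.two (nat_lit 16777216) (nat_lit 8391585) (.one (nat_lit 8393170) .nil))))),
   .two (nat_lit 184993972239) (nat_lit 705691698) (.two (nat_lit 2887778312) (nat_lit 1753219186) (.two (nat_lit 13187940357) (nat_lit 183853122376) (.two (nat_lit 1048576) (nat_lit 8391857) .nil))),
   .two (nat_lit 156372041743) (nat_lit 1916796943) (.two (nat_lit 1916796936) (nat_lit 20711473269) (.two (nat_lit 11479810052) (nat_lit 276824906) (.two (nat_lit 1048576) (nat_lit 780144380) .nil))),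
   .two (nat_lit 16777231) (nat_lit 11479810063) (.two (nat_lit 11479810056) (nat_lit 352321727) (.two (nat_lit 9768534017) (nat_lit 2902459658) (.two (nat_lit 1048576) (nat_lit 171968710) (.one (nat_lit 16781780) .nil)))),
   .two (nat_lit 8388623) (nat_lit 11513364594) (.two (nat_lit 8388612) (nat_lit 4634706503) (.two (nat_lit 8388609) (nat_lit 1916799899) (.one (nat_lit 4198869) .nil))),
   .two (nat_lit 4194319) (nat_lit 41943055) (.two (nat_lit 41943048) (nat_lit 10000269424) (.two (nat_lit 713031685) (nat_lit 1913651785) (.two (nat_lit 4194305) (nat_lit 156532475180) (.two (nat_lit 8388608) (nat_lit 19127077659) (.one (nat_lit 4198871) .nil))))),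
   .two (nat_lit 1779433487) (nat_lit 809500806) (.two (nat_lit 18928893957) (nat_lit 8388799) (.two (nat_lit 4194305) (nat_lit 343934880) (.two (nat_lit 1048576) (nat_lit 8391586) (.one (nat_lit 8393176) .nil)))),
   .two (nat_lit 272629775) (nat_lit 183845781519) (.two (nat_lit 1178599432) (nat_lit 1176502402) (.two (nat_lit 4599054341) (nat_lit 156569174207) (.two (nat_lit 4194305) (nat_lit 4598007614) (.two (nat_lit 4194304) (nat_lit 2100776) (.one (nat_lit 1178603304) .nil))))),
   .two (nat_lit 117440527) (nat_lit 2416967704) (.two (nat_lit 46407876616) (nat_lit 10385096818) (.two (nat_lit 34603013) (nat_lit 9781118169) (.two (nat_lit 2097152) (nat_lit 10016000814) (.one (nat_lit 1053145) .nil)))),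
   .two (nat_lit 1178599439) (nat_lit 754974785) (.two (nat_lit 2902458373) (nat_lit 1916797285) (.two (nat_lit 16777217) (nat_lit 158079126305) (.one (nat_lit 4198874) .nil))),
   .two (nat_lit 4605345807) (nat_lit 184986632324) (.two (nat_lit 8388612) (nat_lit 47547679325) (.two (nat_lit 4194305) (nat_lit 2349859657) (.two (nat_lit 4194304) (nat_lit 2349860316) (.one (nat_lit 1053147) .nil)))),
   .two (nat_lit 4601151503) (nat_lit 117440626) (.two (nat_lit 654311429) (nat_lit 11580473946) (.two (nat_lit 9781116929) (nat_lit 10942940464) (.two (nat_lit 2097152) (nat_lit 10385099616) (.one (nat_lit 352325960) .nil)))),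
   .two (nat_lit 16777231) (nat_lit 12147753026) (.two (nat_lit 184549381) (nat_lit 12147753317) (.two (nat_lit 50331649) (nat_lit 183845784383) (.one (nat_lit 1410338580) .nil))),
   .two (nat_lit 272629775) (nat_lit 12054429711) (.two (nat_lit 4194312) (nat_lit 1417675110) (.two (nat_lit 37748737) (nat_lit 9933162306) (.two (nat_lit 1048576) (nat_lit 8391587) (.one (nat_lit 8393180) .nil)))),
   .two (nat_lit 285212687) (nat_lit 183848927247) (.two (nat_lit 9781116936) (nat_lit 608174210) (.two (nat_lit 13191086085) (nat_lit 822083775) (.two (nat_lit 156367847425) (nat_lit 318769935) (.one (nat_lit 1178603836) .nil)))),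
   .two (nat_lit 713031695) (nat_lit 150995066) (.two (nat_lit 1746927621) (nat_lit 2424308318) (.two (nat_lit 50331649) (nat_lit 1948255537) (.two (nat_lit 2097152) (nat_lit 8392234) (.one (nat_lit 158083321696) .nil)))),
   .two (nat_lit 809500687) (nat_lit 10504634383) (.two (nat_lit 1916796936) (nat_lit 158176641142) (.two (nat_lit 171966469) (nat_lit 4599054695) (.two (nat_lit 4194305) (nat_lit 156533523698) (.two (nat_lit 1048576) (nat_lit 2100779) (.one (nat_lit 1745882963) .nil))))),
   .two (nat_lit 11492392975) (nat_lit 159217877007) (.two (nat_lit 1191182344) (nat_lit 236978243) (.two (nat_lit 169869316) (nat_lit 285213030) (.two (nat_lit 2097153) (nat_lit 3036677363) (.two (nat_lit 2097152) (nat_lit 1392511879) (.one (nat_lit 2101725) .nil))))),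
   .two (nat_lit 101711887) (nat_lit 1753219186) (.two (nat_lit 21785214981) (nat_lit 772801106) (.two (nat_lit 34603009) (nat_lit 880805080) (.two (nat_lit 1048576) (nat_lit 8391573) (.one (nat_lit 158646406957) .nil)))),
   .two (nat_lit 4194319) (nat_lit 9900654717) (.two (nat_lit 171966469) (nat_lit 10538189364) (.two (nat_lit 4194305) (nat_lit 10538190031) (.two (nat_lit 1048576) (nat_lit 2100132) (.one (nat_lit 10369371310) .nil)))),
   .two (nat_lit 3458203663) (nat_lit 12114198660) (.two (nat_lit 47548727301) (nat_lit 10369369388) (.two (nat_lit 2097152) (nat_lit 1051557) (.one (nat_lit 2101726) .nil))),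
   .two (nat_lit 117440527) (nat_lit 19596836879) (.two (nat_lit 654311432) (nat_lit 1277165687) (.two (nat_lit 270532613) (nat_lit 183962174697) (.two (nat_lit 1048576) (nat_lit 2902461188) (.one (nat_lit 2101728) .nil)))),
   .two (nat_lit 285212687) (nat_lit 10506731535) (.two (nat_lit 205520904) (nat_lit 9781117119) (.two (nat_lit 4194305) (nat_lit 3036677350) (.two (nat_lit 1048576) (nat_lit 2902461255) (.one (nat_lit 185020191072) .nil)))),
   .two (nat_lit 1277165583) (nat_lit 159250382898) (.two (nat_lit 1277165576) (nat_lit 1048876) (.two (nat_lit 1277165572) (nat_lit 13221495143) (.two (nat_lit 9766436865) (nat_lit 13187943284) (.one (nat_lit 1053153) .nil)))),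
   .two (nat_lit 276824079) (nat_lit 184419352939) (.two (nat_lit 8388609) (nat_lit 174752531684) (.two (nat_lit 4194304) (nat_lit 13188991750) (.one (nat_lit 4198882) .nil))),
   .two (nat_lit 37748751) (nat_lit 19604177156) (.two (nat_lit 46407876612) (nat_lit 8389196) (.two (nat_lit 156365750273) (nat_lit 2894072686) (.one (nat_lit 8393188) .nil))),
   .two (nat_lit 1291845647) (nat_lit 19094569077) (.two (nat_lit 4599054341) (nat_lit 2969567590) (.two (nat_lit 2097153) (nat_lit 184550616) (.two (nat_lit 1048576) (nat_lit 10552871105) (.one (nat_lit 35655491) .nil)))),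
   .two (nat_lit 12050235407) (nat_lit 1392508970) (.two (nat_lit 2969567240) (nat_lit 1847591021) (.two (nat_lit 2969567237) (nat_lit 1210057364) (.two (nat_lit 37748737) (nat_lit 1847592780) (.two (nat_lit 4194304) (nat_lit 2100783) (.one (nat_lit 4198886) .nil))))),
   .two (nat_lit 639631375) (nat_lit 11517558913) (.two (nat_lit 270532613) (nat_lit 10007609701) (.two (nat_lit 2097153) (nat_lit 47588575422) (.one (nat_lit 9765392172) .nil))),
   .two (nat_lit 272629775) (nat_lit 1745879055) (.two (nat_lit 11479810056) (nat_lit 19529728674) (.two (nat_lit 4194305) (nat_lit 34604893) (.two (nat_lit 1048576) (nat_lit 4634709537) (.one (nat_lit 1947210035) .nil)))),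
   .two (nat_lit 3460300815) (nat_lit 165526110223) (.two (nat_lit 3460300808) (nat_lit 184987680888) (.two (nat_lit 158143086597) (nat_lit 1377829545) (.two (nat_lit 605028353) (nat_lit 165526111530) (.two (nat_lit 1048576) (nat_lit 4197936) (.one (nat_lit 135270240) .nil))))),
   .two (nat_lit 156367847439) (nat_lit 158647451769) (.two (nat_lit 46409973764) (nat_lit 174753579365) (.two (nat_lit 4194305) (nat_lit 10370418471) (.two (nat_lit 4194304) (nat_lit 2100136) (.one (nat_lit 10504638888) .nil)))),
   .two (nat_lit 203423759) (nat_lit 166132187203) (.two (nat_lit 2954887173) (nat_lit 10506732360) (.two (nat_lit 2097152) (nat_lit 843058970) .nil)),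
   .two (nat_lit 184549391) (nat_lit 156372041743) (.two (nat_lit 184549384) (nat_lit 2927624433) (.two (nat_lit 46414168069) (nat_lit 721420646) (.two (nat_lit 8388609) (nat_lit 47563410288) (.one (nat_lit 16781801) .nil)))),
   .two (nat_lit 2954887183) (nat_lit 46980399119) (.two (nat_lit 203423752) (nat_lit 46510637170) (.two (nat_lit 2887778308) (nat_lit 156569175256) (.two (nat_lit 2097152) (nat_lit 138414260) (.one (nat_lit 19597889370) .nil)))),
   .two (nat_lit 203423759) (nat_lit 19033751855) (.two (nat_lit 2954887173) (nat_lit 156573369416) (.two (nat_lit 2097153) (nat_lit 75499398) (.two (nat_lit 1048576) (nat_lit 165526113057) (.one (nat_lit 2101738) .nil)))),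
   .two (nat_lit 16777231) (nat_lit 37246468228) (.two (nat_lit 184549381) (nat_lit 183845782576) (.two (nat_lit 16777217) (nat_lit 10537141548) (.two (nat_lit 8388608) (nat_lit 16780201) (.one (nat_lit 16781803) .nil)))),
   .two (nat_lit 272629775) (nat_lit 12624855064) (.two (nat_lit 9866051592) (nat_lit 28793897075) (.two (nat_lit 1343225861) (nat_lit 12050235981) (.two (nat_lit 41943041) (nat_lit 3527410933) (.two (nat_lit 1048576) (nat_lit 8391594) (.one (nat_lit 1052525) .nil))))),
   .two (nat_lit 9781116943) (nat_lit 47550824565) (.two (nat_lit 83886085) (nat_lit 9940501322) (.two (nat_lit 8388608) (nat_lit 185035917486) (.one (nat_lit 4198892) .nil))),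
   .two (nat_lit 9948889103) (nat_lit 1277165687) (.two (nat_lit 4599054341) (nat_lit 654312665) (.two (nat_lit 2097152) (nat_lit 889195310) (.one (nat_lit 638587608) .nil))),
   .two (nat_lit 8388623) (nat_lit 2969567247) (.two (nat_lit 41943048) (nat_lit 47596961900) (.two (nat_lit 41943045) (nat_lit 10939793765) (.two (nat_lit 41943041) (nat_lit 1947207525) (.two (nat_lit 1048576) (nat_lit 10007612231) (.one (nat_lit 1053165) .nil))))),
   .two (nat_lit 9934209039) (nat_lit 46510637082) (.two (nat_lit 205520904) (nat_lit 158144135282) (.two (nat_lit 19530776581) (nat_lit 183848928511) (.two (nat_lit 1048576) (nat_lit 4196541) (.one (nat_lit 34606251) .nil)))),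
   .two (nat_lit 1291845647) (nat_lit 159217877007) (.two (nat_lit 159217877000) (nat_lit 9881780337) (.two (nat_lit 169869316) (nat_lit 9881781064) (.two (nat_lit 2097152) (nat_lit 2902461614) .nil))),
   .two (nat_lit 83886095) (nat_lit 20738736195) (.two (nat_lit 620756997) (nat_lit 159251431781) (.two (nat_lit 50331649) (nat_lit 47582284691) (.one (nat_lit 16781806) .nil))),
   .two (nat_lit 37748751) (nat_lit 47547678839) (.two (nat_lit 4194308) (nat_lit 12114199114) (.two (nat_lit 2097153) (nat_lit 1849689376) (.two (nat_lit 2097152) (nat_lit 12150900938) (.one (nat_lit 2101743) .nil)))),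
   .two (nat_lit 28086108175) (nat_lit 10940841999) (.two (nat_lit 21207449608) (nat_lit 158647451889) (.two (nat_lit 174753579013) (nat_lit 37313577317) (.two (nat_lit 9766436865) (nat_lit 158646406035) (.one (nat_lit 158646407609) .nil)))),
   .two (nat_lit 174753579023) (nat_lit 4194406) (.two (nat_lit 174753579016) (nat_lit 19130220658) (.two (nat_lit 166132187141) (nat_lit 4028629353) (.two (nat_lit 4194305) (nat_lit 102761716) (.two (nat_lit 4194304) (nat_lit 28087160304) (.one (nat_lit 4198896) .nil))))),
   .two (nat_lit 2889875471) (nat_lit 1291845647) (.two (nat_lit 11543773192) (nat_lit 19029557314) (.two (nat_lit 705691652) (nat_lit 157038936668) (.two (nat_lit 34603009) (nat_lit 156971828445) (.two (nat_lit 16777216) (nat_lit 156535622481) (.one (nat_lit 1053169) .nil))))),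
   .two (nat_lit 612368399) (nat_lit 772800536) (.two (nat_lit 12114198536) (nat_lit 1417674863) (.two (nat_lit 184416206853) (nat_lit 13195280978) (.two (nat_lit 34603009) (nat_lit 713032937) (.two (nat_lit 1048576) (nat_lit 10007612258) (.one (nat_lit 4598010284) .nil))))),
   .two (nat_lit 721420303) (nat_lit 156372041743) (.two (nat_lit 156372041736) (nat_lit 11626610754) (.two (nat_lit 46414168068) (nat_lit 654312706) (.two (nat_lit 8388608) (nat_lit 9948892985) .nil))),
   .two (nat_lit 9934209039) (nat_lit 165532401775) (.two (nat_lit 169869316) (nat_lit 28093449032) (.two (nat_lit 2097152) (nat_lit 713033942) (.one (nat_lit 1384124257) .nil))),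
   .two (nat_lit 176160783) (nat_lit 2921332778) (.two (nat_lit 639631368) (nat_lit 46414168174) (.two (nat_lit 203423749) (nat_lit 343933501) (.two (nat_lit 2097153) (nat_lit 28093451019) (.one (nat_lit 158083321594) .nil)))),
   .two (nat_lit 4605345807) (nat_lit 21208498289) (.two (nat_lit 46414168068) (nat_lit 673187034) (.two (nat_lit 8388608) (nat_lit 840960870) (.one (nat_lit 2101747) .nil))),
   .two (nat_lit 183853121551) (nat_lit 158647451672) (.two (nat_lit 158077026312) (nat_lit 183853121601) (.two (nat_lit 69206021) (nat_lit 157043130969) (.two (nat_lit 37748737) (nat_lit 156466414890) (.two (nat_lit 4194304) (nat_lit 2100139) (.one (nat_lit 2101748) .nil))))),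
   .two (nat_lit 813694991) (nat_lit 9768534031) (.two (nat_lit 9940500488) (nat_lit 3558867054) (.two (nat_lit 2889875460) (nat_lit 3458204237) (.two (nat_lit 4194305) (nat_lit 3028290313) (.one (nat_lit 2101102) .nil)))),
   .two (nat_lit 184986632207) (nat_lit 159232557105) (.two (nat_lit 50331656) (nat_lit 10335813766) (.two (nat_lit 705691652) (nat_lit 117440873) (.two (nat_lit 50331649) (nat_lit 185020187869) (.two (nat_lit 1048576) (nat_lit 16780851) (.one (nat_lit 37329308832) .nil))))),
   .two (nat_lit 10343153679) (nat_lit 158077026319) (.two (nat_lit 4605345800) (nat_lit 158647451761) (.two (nat_lit 184989777925) (nat_lit 166237045326) (.two (nat_lit 8388609) (nat_lit 28691138441) (.two (nat_lit 4194304) (nat_lit 158077029147) (.one (nat_lit 8393205) .nil))))),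
   .two (nat_lit 16777231) (nat_lit 158177689624) (.two (nat_lit 158144135176) (nat_lit 19545456759) (.two (nat_lit 1277165572) (nat_lit 620757183) (.two (nat_lit 9766436865) (nat_lit 9948890354) (.two (nat_lit 2097152) (nat_lit 16780852) (.one (nat_lit 2101750) .nil))))),
   .two (nat_lit 183853121551) (nat_lit 1745879066) (.two (nat_lit 12054429704) (nat_lit 184416206914) (.two (nat_lit 183845781508) (nat_lit 183853121893) (.two (nat_lit 34603009) (nat_lit 1920992521) (.two (nat_lit 1048576) (nat_lit 10007612210) (.one (nat_lit 12121542495) .nil))))),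
   .two (nat_lit 272629775) (nat_lit 183853121648) (.two (nat_lit 4194308) (nat_lit 880804680) (.two (nat_lit 4194304) (nat_lit 18933090487) (.one (nat_lit 8393207) .nil))),
   .two (nat_lit 4194319) (nat_lit 12054429803) (.two (nat_lit 4194308) (nat_lit 880804458) (.two (nat_lit 4194305) (nat_lit 1343227172) (.two (nat_lit 4194304) (nat_lit 1052213) (.one (nat_lit 1053177) .nil)))),
   .two (nat_lit 176160783) (nat_lit 9967763480) (.two (nat_lit 176160776) (nat_lit 136315011) (.two (nat_lit 169869316) (nat_lit 158183981658) (.two (nat_lit 2097153) (nat_lit 19029558526) (.two (nat_lit 2097152) (nat_lit 4197292) (.one (nat_lit 2101754) .nil))))),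
   .two (nat_lit 4194319) (nat_lit 159224168556) (.two (nat_lit 4194308) (nat_lit 813695652) (.two (nat_lit 8388609) (nat_lit 166232851712) (.two (nat_lit 1048576) (nat_lit 4197942) (.one (nat_lit 11479814513) .nil)))),
   .two (nat_lit 101711887) (nat_lit 184993972239) (.two (nat_lit 184993972232) (nat_lit 12147753069) (.two (nat_lit 12047089669) (nat_lit 1283458301) (.two (nat_lit 1048576) (nat_lit 8391598) (.one (nat_lit 18925752692) .nil)))),
   .two (nat_lit 184549391) (nat_lit 10940842100) (.two (nat_lit 184549380) (nat_lit 673186632) (.two (nat_lit 2097152) (nat_lit 1191185559) .nil)),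
   .two (nat_lit 16777231) (nat_lit 1913651224) (.two (nat_lit 620757000) (nat_lit 184416206963) (.two (nat_lit 721420292) (nat_lit 705692308) (.two (nat_lit 8388609) (nat_lit 10000271533) (.one (nat_lit 1384124240) .nil)))),
   .two (nat_lit 183853121551) (nat_lit 19532873743) (.two (nat_lit 19532873736) (nat_lit 183853121602) (.two (nat_lit 157038936069) (nat_lit 18933089096) (.two (nat_lit 4194304) (nat_lit 28764539055) (.one (nat_lit 8393212) .nil)))),
   .two (nat_lit 37748751) (nat_lit 41943055) (.two (nat_lit 813694984) (nat_lit 183949590643) (.two (nat_lit 8388612) (nat_lit 4030726733) (.two (nat_lit 4194305) (nat_lit 2887779568) (.two (nat_lit 8388608) (nat_lit 2100144) (.one (nat_lit 2956988270) .nil))))),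
   .two (nat_lit 184986632207) (nat_lit 37247516721) (.two (nat_lit 12114198536) (nat_lit 166197198969) (.two (nat_lit 21207449605) (nat_lit 28758245737) (.two (nat_lit 9765388289) (nat_lit 874513673) (.two (nat_lit 1048576) (nat_lit 2100145) (.one (nat_lit 1053181) .nil))))),
   .two (nat_lit 19530776591) (nat_lit 28693233731) (.two (nat_lit 28693233669) (nat_lit 9799992616) (.two (nat_lit 4194304) (nat_lit 174686472984) (.one (nat_lit 1780486596) .nil))),
   .two (nat_lit 713031695) (nat_lit 11476664612) (.two (nat_lit 713031684) (nat_lit 1175454999) (.two (nat_lit 8388608) (nat_lit 1051571) (.one (nat_lit 11610885872) .nil))),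
   .two (nat_lit 169869327) (nat_lit 4605345856) (.two (nat_lit 169869316) (nat_lit 310378687) (.two (nat_lit 34603009) (nat_lit 28093450157) (.two (nat_lit 1048576) (nat_lit 46514834190) (.one (nat_lit 37247519902) .nil)))),
   .two (nat_lit 8388623) (nat_lit 606076943) (.two (nat_lit 13191086088) (nat_lit 21812478082) (.two (nat_lit 47555018757) (nat_lit 2988442226) (.two (nat_lit 4194305) (nat_lit 2961179936) (.two (nat_lit 4194304) (nat_lit 8391605) (.one (nat_lit 4198911) .nil))))),
   .two (nat_lit 185002360847) (nat_lit 2353004587) (.two (nat_lit 37748744) (nat_lit 2365587578) (.two (nat_lit 4194308) (nat_lit 11559502411) (.two (nat_lit 8388609) (nat_lit 9867101438) (.two (nat_lit 2097152) (nat_lit 16780214) (.one (nat_lit 20705185631) .nil))))),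
   .two (nat_lit 1277165583) (nat_lit 12617515073) (.two (nat_lit 639631365) (nat_lit 806355572) (.two (nat_lit 605028353) (nat_lit 156567079860) (.one (nat_lit 46473940128) .nil))),
   .two (nat_lit 16777231) (nat_lit 4605345857) (.two (nat_lit 8388612) (nat_lit 285213246) (.two (nat_lit 8388609) (nat_lit 46489667377) (.two (nat_lit 8388608) (nat_lit 16780215) (.one (nat_lit 16781825) .nil)))),
   .two (nat_lit 165526110223) (nat_lit 138412082) (.two (nat_lit 10336862221) (nat_lit 19532873842) (.two (nat_lit 2889875461) (nat_lit 16777811) (.two (nat_lit 4194305) (nat_lit 855639340) (.two (nat_lit 2097152) (nat_lit 21793606569) (.one (nat_lit 2101762) .nil))))),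
   .two (nat_lit 620757007) (nat_lit 4598005803) (.two (nat_lit 2969567240) (nat_lit 47581233285) (.two (nat_lit 2097157) (nat_lit 16777407) (.two (nat_lit 34603009) (nat_lit 11559503093) (.two (nat_lit 2097152) (nat_lit 16780855) (.one (nat_lit 68160684) .nil))))),
   .two (nat_lit 117440527) (nat_lit 9934209145) (.two (nat_lit 203423749) (nat_lit 9781117119) (.two (nat_lit 2097153) (nat_lit 12163482894) (.two (nat_lit 2097152) (nat_lit 16780216) (.one (nat_lit 13222546606) .nil)))),
   .two (nat_lit 4605345807) (nat_lit 10369368106) (.two (nat_lit 12047089672) (nat_lit 156372041837) (.two (nat_lit 165532401669) (nat_lit 9765388888) (.two (nat_lit 41943041) (nat_lit 157035791582) (.two (nat_lit 8388608) (nat_lit 1051577) (.one (nat_lit 21214794154) .nil))))),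
   .two (nat_lit 184549391) (nat_lit 159216828690) (.two (nat_lit 101711877) (nat_lit 12163482868) (.two (nat_lit 1048576) (nat_lit 184419355422) (.one (nat_lit 16781172) .nil))),
   .two (nat_lit 159224168463) (nat_lit 50331762) (.two (nat_lit 176160772) (nat_lit 721420871) (.two (nat_lit 8388609) (nat_lit 1929382750) (.one (nat_lit 16781827) .nil))),
   .two (nat_lit 4605345807) (nat_lit 2988441666) (.two (nat_lit 46414168069) (nat_lit 2988441957) (.two (nat_lit 8388609) (nat_lit 9967764690) (.two (nat_lit 8388608) (nat_lit 156365753132) (.one (nat_lit 8393220) .nil)))),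
   .two (nat_lit 654311464) (nat_lit 4028629018) (.two (nat_lit 46407876616) (nat_lit 654311538) (.two (nat_lit 158075977733) (nat_lit 12129927530) (.two (nat_lit 605028353) (nat_lit 12129929102) (.two (nat_lit 1048576) (nat_lit 16780218) (.one (nat_lit 807407427) .nil))))),
   .two (nat_lit 8388623) (nat_lit 11559501839) (.two (nat_lit 11559501832) (nat_lit 8388672) (.two (nat_lit 721420292) (nat_lit 75498729) (.two (nat_lit 16777216) (nat_lit 8391611) (.one (nat_lit 8393221) .nil)))),
   .two (nat_lit 101711887) (nat_lit 21785214991) (.two (nat_lit 21785214984) (nat_lit 1947205740) (.two (nat_lit 739246085) (nat_lit 1417675329) (.two (nat_lit 34603009) (nat_lit 209716490) (.two (nat_lit 1048576) (nat_lit 8391612) (.one (nat_lit 8393137) .nil))))),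
   .two (nat_lit 272629775) (nat_lit 1913651215) (.two (nat_lit 809500680) (nat_lit 1947205743) (.two (nat_lit 11479810053) (nat_lit 11577328210) (.two (nat_lit 4194305) (nat_lit 12047090923) (.two (nat_lit 4194304) (nat_lit 184416209686) (.one (nat_lit 1053190) .nil))))),
   .two (nat_lit 37748751) (nat_lit 156968681487) (.two (nat_lit 37748744) (nat_lit 156465365101) (.two (nat_lit 4194308) (nat_lit 12047090337) (.two (nat_lit 4194305) (nat_lit 1051218) (.two (nat_lit 4194304) (nat_lit 1052216) (.one (nat_lit 4198919) .nil))))),
   .two (nat_lit 28086108175) (nat_lit 1847590978) (.two (nat_lit 20637024260) (nat_lit 10940842824) (.two (nat_lit 1048576) (nat_lit 13188991151) (.one (nat_lit 2101768) .nil))),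
   .two (nat_lit 10336862223) (nat_lit 21207449666) (.two (nat_lit 165526110213) (nat_lit 37313577317) (.two (nat_lit 2097153) (nat_lit 34605992) (.one (nat_lit 2101769) .nil))),
   .two (nat_lit 272629775) (nat_lit 1745879055) (.two (nat_lit 1745879048) (nat_lit 13224640621) (.two (nat_lit 184419352581) (nat_lit 20637025548) (.two (nat_lit 1048576) (nat_lit 4634708919) (.one (nat_lit 1379929260) .nil)))),
   .two (nat_lit 9934209039) (nat_lit 156971827215) (.two (nat_lit 159217877000) (nat_lit 4601151607) (.two (nat_lit 169869316) (nat_lit 4030726796) (.two (nat_lit 2097153) (nat_lit 12117345492) (.two (nat_lit 16777216) (nat_lit 138414272) (.one (nat_lit 4198262) .nil))))),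
   .two (nat_lit 101711887) (nat_lit 21785214991) (.two (nat_lit 12114198536) (nat_lit 1417674863) (.two (nat_lit 184416206853) (nat_lit 158653744424) (.two (nat_lit 1048576) (nat_lit 10007612258) (.one (nat_lit 8393226) .nil)))),
   .two (nat_lit 1779433487) (nat_lit 713031706) (.two (nat_lit 9866051592) (nat_lit 46984593668) (.two (nat_lit 1343225861) (nat_lit 21214789992) (.two (nat_lit 605028353) (nat_lit 13195281650) (.two (nat_lit 1048576) (nat_lit 46414171056) (.one (nat_lit 8393227) .nil))))),
   .two (nat_lit 11479810063) (nat_lit 1276117094) (.two (nat_lit 11543773192) (nat_lit 1782579485) (.two (nat_lit 11479810052) (nat_lit 165525062238) (.two (nat_lit 34603009) (nat_lit 2956985597) (.two (nat_lit 1048576) (nat_lit 4197945) (.one (nat_lit 19026415365) .nil))))),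
   .two (nat_lit 1277165583) (nat_lit 159250382898) (.two (nat_lit 1343225864) (nat_lit 3021996304) (.two (nat_lit 639631365) (nat_lit 13221495143) (.two (nat_lit 34603009) (nat_lit 337643345) (.two (nat_lit 1048576) (nat_lit 2100794) (.one (nat_lit 166129045253) .nil))))),
   .two (nat_lit 11559501839) (nat_lit 4605345807) (.two (nat_lit 41943048) (nat_lit 21827158207) (.two (nat_lit 8388609) (nat_lit 18941478140) (.two (nat_lit 4194304) (nat_lit 21785217198) (.one (nat_lit 8393228) .nil)))),
   .two (nat_lit 1343225871) (nat_lit 165526110223) (.two (nat_lit 21208498184) (nat_lit 11577327682) (.two (nat_lit 1746927621) (nat_lit 1175454302) (.two (nat_lit 34603009) (nat_lit 2099025) (.two (nat_lit 16777216) (nat_lit 19529731845) .nil)))),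
   .two (nat_lit 20644364303) (nat_lit 183912890477) (.two (nat_lit 184986632197) (nat_lit 10343155164) (.one (nat_lit 8393229) .nil)),
   .two (nat_lit 11492392975) (nat_lit 4601151552) (.two (nat_lit 46409973765) (nat_lit 9915335293) (.two (nat_lit 4194305) (nat_lit 4647290714) (.two (nat_lit 4194304) (nat_lit 788532145) (.one (nat_lit 4601155383) .nil)))),
   .two (nat_lit 272629775) (nat_lit 13195280399) (.two (nat_lit 4194312) (nat_lit 880804197) (.two (nat_lit 8388609) (nat_lit 159219976059) (.two (nat_lit 4194304) (nat_lit 46473939847) (.one (nat_lit 1053198) .nil)))),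
   .two (nat_lit 11479810063) (nat_lit 303038507) (.two (nat_lit 1343225864) (nat_lit 2317353262) (.two (nat_lit 270532613) (nat_lit 156569174207) (.two (nat_lit 9766436865) (nat_lit 839910218) (.two (nat_lit 1048576) (nat_lit 270534832) (.one (nat_lit 1053199) .nil))))),
   .two (nat_lit 2954887183) (nat_lit 19532873795) (.two (nat_lit 203423749) (nat_lit 10506731878) (.two (nat_lit 2097153) (nat_lit 2889878381) (.one (nat_lit 639635255) .nil))),
   .two (nat_lit 13191086095) (nat_lit 11517558903) (.two (nat_lit 2894069765) (nat_lit 184419353157) (.two (nat_lit 41943041) (nat_lit 3560967031) (.one (nat_lit 1053019) .nil))),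
   .two (nat_lit 8388623) (nat_lit 157036838927) (.two (nat_lit 176160776) (nat_lit 19027460205) (.two (nat_lit 176160772) (nat_lit 156533522623) (.two (nat_lit 2097153) (nat_lit 2927626020) (.two (nat_lit 8388608) (nat_lit 46508543545) (.one (nat_lit 2101776) .nil))))),
   .two (nat_lit 46980399119) (nat_lit 158144135192) (.two (nat_lit 1277165576) (nat_lit 46980399170) (.two (nat_lit 1277165572) (nat_lit 157038936905) (.two (nat_lit 2097152) (nat_lit 157038938282) (.one (nat_lit 4198929) .nil)))),
   .two (nat_lit 176160783) (nat_lit 21777874990) (.two (nat_lit 639631368) (nat_lit 11577327919) (.two (nat_lit 2097157) (nat_lit 10007609535) (.two (nat_lit 2097153) (nat_lit 1350567157) (.two (nat_lit 1048576) (nat_lit 2099376) (.one (nat_lit 1053202) .nil))))),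
   .two (nat_lit 8388623) (nat_lit 218103823) (.two (nat_lit 713031688) (nat_lit 1846542402) (.two (nat_lit 41943045) (nat_lit 37313577564) (.two (nat_lit 16777217) (nat_lit 184993973469) (.two (nat_lit 16777216) (nat_lit 612371281) (.one (nat_lit 1053203) .nil))))),
   .two (nat_lit 169869327) (nat_lit 9781117119) (.two (nat_lit 2097153) (nat_lit 1929381109) (.two (nat_lit 1048576) (nat_lit 3525314744) (.one (nat_lit 1053204) .nil))),
   .two (nat_lit 721420303) (nat_lit 9934209039) (.two (nat_lit 1780482056) (nat_lit 9814671490) (.two (nat_lit 50331653) (nat_lit 47582282296) (.two (nat_lit 41943041) (nat_lit 2988442833) (.two (nat_lit 8388608) (nat_lit 2100158) (.one (nat_lit 2101781) .nil))))),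
   .two (nat_lit 272629775) (nat_lit 10336862223) (.two (nat_lit 809500680) (nat_lit 46978302242) (.two (nat_lit 3525312517) (nat_lit 2353005190) (.two (nat_lit 8388609) (nat_lit 165528209581) (.one (nat_lit 2101783) .nil)))),
   .two (nat_lit 20638072847) (nat_lit 4030726210) (.two (nat_lit 9934209029) (nat_lit 876610142) (.two (nat_lit 9766436865) (nat_lit 3460303033) (.one (nat_lit 4198936) .nil))),
   .two (nat_lit 16777231) (nat_lit 11479810063) (.two (nat_lit 11479810056) (nat_lit 352321727) (.two (nat_lit 9765388289) (nat_lit 171968710) (.one (nat_lit 16781850) .nil))),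
   .two (nat_lit 156372041743) (nat_lit 3527409679) (.two (nat_lit 3527409672) (nat_lit 20711473269) (.two (nat_lit 46980399109) (nat_lit 1753219670) (.two (nat_lit 605028353) (nat_lit 713032965) (.two (nat_lit 4194304) (nat_lit 1786776473) (.one (nat_lit 1053211) .nil))))),
   .two (nat_lit 176160783) (nat_lit 12617515032) (.two (nat_lit 612368392) (nat_lit 12147753072) (.two (nat_lit 75497477) (nat_lit 156364703021) (.two (nat_lit 8388608) (nat_lit 10537143146) (.one (nat_lit 11517562606) .nil)))),
   .two (nat_lit 639631375) (nat_lit 12624855082) (.two (nat_lit 2887778312) (nat_lit 1417674864) (.two (nat_lit 806354949) (nat_lit 612369032) (.two (nat_lit 2097153) (nat_lit 1350567157) (.two (nat_lit 1048576) (nat_lit 165532404612) (.one (nat_lit 270535851) .nil))))),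
   .two (nat_lit 117440527) (nat_lit 12047089679) (.two (nat_lit 12047089672) (nat_lit 1795162224) (.two (nat_lit 184986632197) (nat_lit 9881780808) (.two (nat_lit 34603009) (nat_lit 1291846876) (.two (nat_lit 8388608) (nat_lit 68161340) .nil)))),
   .two (nat_lit 2889875471) (nat_lit 739246106) (.two (nat_lit 3527409672) (nat_lit 4631560324) (.two (nat_lit 11543773189) (nat_lit 174688567882) (.two (nat_lit 620756993) (nat_lit 1779434972) (.one (nat_lit 158179789996) .nil)))),
   .two (nat_lit 285212687) (nat_lit 158143086607) (.two (nat_lit 13203669000) (nat_lit 158143086658) (.two (nat_lit 1276116996) (nat_lit 157051519659) (.two (nat_lit 50331649) (nat_lit 10436478428) (.one (nat_lit 1053213) .nil)))),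
   .two (nat_lit 46409973775) (nat_lit 183947493418) (.two (nat_lit 174753579016) (nat_lit 1279262839) (.two (nat_lit 10940841989) (nat_lit 10540286558) (.two (nat_lit 606076929) (nat_lit 46409975684) (.two (nat_lit 2097152) (nat_lit 3460303631) (.one (nat_lit 2101569) .nil))))),
   .two (nat_lit 1753219087) (nat_lit 156969730090) (.two (nat_lit 2954887176) (nat_lit 156372041836) (.two (nat_lit 169869316) (nat_lit 18933089492) (.two (nat_lit 2097152) (nat_lit 8391615) (.one (nat_lit 46978305781) .nil)))),
   .two (nat_lit 272629775) (nat_lit 13228834842) (.two (nat_lit 13191086088) (nat_lit 8388672) (.two (nat_lit 8388612) (nat_lit 13224640703) (.two (nat_lit 8388609) (nat_lit 28760343856) (.two (nat_lit 16777216) (nat_lit 9768535515) (.one (nat_lit 8392571) .nil))))),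
   .two (nat_lit 183853121551) (nat_lit 20704133230) (.two (nat_lit 705691652) (nat_lit 156372043228) (.one (nat_lit 28093452082) .nil)),
   .two (nat_lit 1343225871) (nat_lit 10343153679) (.two (nat_lit 705691656) (nat_lit 159224168639) (.two (nat_lit 2097153) (nat_lit 672139437) (.one (nat_lit 1053214) .nil))),
   .two (nat_lit 156367847439) (nat_lit 772800636) (.two (nat_lit 9933160453) (nat_lit 50331839) (.two (nat_lit 9765388289) (nat_lit 47550826680) (.one (nat_lit 4198944) .nil))),
   .two (nat_lit 13191086095) (nat_lit 1411383429) (.two (nat_lit 34603013) (nat_lit 1749026024) (.two (nat_lit 1048576) (nat_lit 2100160) (.one (nat_lit 4198268) .nil))),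
   .two (nat_lit 11543773199) (nat_lit 3558866990) (.two (nat_lit 1343225864) (nat_lit 158647451766) (.two (nat_lit 9866051589) (nat_lit 10001318976) (.two (nat_lit 605028353) (nat_lit 2887780268) (.two (nat_lit 1048576) (nat_lit 46508542900) (.one (nat_lit 47581237636) .nil))))),
   .two (nat_lit 2887778319) (nat_lit 9781117042) (.two (nat_lit 11476664324) (nat_lit 158192370749) (.two (nat_lit 50331649) (nat_lit 101713128) (.two (nat_lit 1048576) (nat_lit 16780863) (.one (nat_lit 16781859) .nil)))),
   .two (nat_lit 4194319) (nat_lit 157036838979) (.two (nat_lit 4194308) (nat_lit 9900655868) (.two (nat_lit 4194304) (nat_lit 156567079104) (.one (nat_lit 1053220) .nil))),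
   .two (nat_lit 2902458383) (nat_lit 12150898948) (.two (nat_lit 46409973764) (nat_lit 11492393318) (.two (nat_lit 4194305) (nat_lit 47563410288) (.one (nat_lit 16781861) .nil))),
   .two (nat_lit 4601151503) (nat_lit 1962934386) (.two (nat_lit 184993972229) (nat_lit 156367847615) (.two (nat_lit 620756993) (nat_lit 1212155755) (.two (nat_lit 4194304) (nat_lit 166211881824) (.one (nat_lit 2902462923) .nil)))),
   .two (nat_lit 176160783) (nat_lit 19027460119) (.two (nat_lit 612368392) (nat_lit 174686470253) (.two (nat_lit 176160772) (nat_lit 46474986715) (.two (nat_lit 2097152) (nat_lit 8391617) (.one (nat_lit 8393254) .nil)))),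
   .two (nat_lit 10343153679) (nat_lit 19027460163) (.two (nat_lit 2954887173) (nat_lit 156372042085) (.two (nat_lit 2097153) (nat_lit 8389940) (.two (nat_lit 4194304) (nat_lit 10336866124) .nil))),
   .two (nat_lit 1291845647) (nat_lit 184993972239) (.two (nat_lit 11551113224) (nat_lit 10385097061) (.two (nat_lit 2097153) (nat_lit 18933090492) (.one (nat_lit 16781863) .nil))),
   .two (nat_lit 2954887183) (nat_lit 156372041743) (.two (nat_lit 2954887176) (nat_lit 4034920692) (.two (nat_lit 169869316) (nat_lit 46984594668) (.two (nat_lit 16777216) (nat_lit 156567079682) (.one (nat_lit 2101800) .nil)))),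
   .two (nat_lit 11479810063) (nat_lit 21207449615) (.two (nat_lit 1178599432) (nat_lit 9899606082) (.two (nat_lit 11479810052) (nat_lit 9899606373) (.two (nat_lit 9768534017) (nat_lit 1410335982) (.two (nat_lit 1048576) (nat_lit 11513367310) (.one (nat_lit 4198954) .nil))))),
   .two (nat_lit 285212687) (nat_lit 28093448207) (.two (nat_lit 165532401672) (nat_lit 11510218818) (.two (nat_lit 4599054341) (nat_lit 9781117285) (.two (nat_lit 2097153) (nat_lit 21223179488) (.two (nat_lit 1048576) (nat_lit 11492395838) (.one (nat_lit 1053227) .nil))))),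
   .two (nat_lit 156367847439) (nat_lit 2988441626) (.two (nat_lit 3460300808) (nat_lit 21208498290) (.two (nat_lit 166130089989) (nat_lit 174688568575) (.two (nat_lit 1048576) (nat_lit 306187025) (.one (nat_lit 1052542) .nil)))),
   .two (nat_lit 813694991) (nat_lit 11492392975) (.two (nat_lit 117440520) (nat_lit 21818769529) (.two (nat_lit 1283457029) (nat_lit 156969731314) (.two (nat_lit 4194304) (nat_lit 19042144086) .nil))),
   .two (nat_lit 218103823) (nat_lit 4028629101) (.two (nat_lit 2954887173) (nat_lit 156581758185) (.two (nat_lit 2097152) (nat_lit 16780227) (.one (nat_lit 2101646) .nil))),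
   .two (nat_lit 9781116943) (nat_lit 1212153965) (.two (nat_lit 4194308) (nat_lit 754975960) (.two (nat_lit 4194304) (nat_lit 4647291073) (.one (nat_lit 4198956) .nil))),
   .two (nat_lit 13191086095) (nat_lit 47555018818) (.two (nat_lit 3464495109) (nat_lit 2353005842) (.two (nat_lit 8388608) (nat_lit 46507493578) (.one (nat_lit 8393261) .nil))),
   .two (nat_lit 169869327) (nat_lit 21785215084) (.two (nat_lit 705691652) (nat_lit 21214790254) (.two (nat_lit 34603009) (nat_lit 75498794) (.two (nat_lit 1048576) (nat_lit 1417677596) (.one (nat_lit 1417678623) .nil)))),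
   .two (nat_lit 1795162127) (nat_lit 2316304498) (.two (nat_lit 184986632197) (nat_lit 10385097544) (.two (nat_lit 1048576) (nat_lit 654312923) (.one (nat_lit 889196257) .nil))),
   .two (nat_lit 41943055) (nat_lit 2316304496) (.two (nat_lit 713031685) (nat_lit 9899606600) (.two (nat_lit 8388609) (nat_lit 1343227740) (.two (nat_lit 8388608) (nat_lit 1051588) (.one (nat_lit 21818773308) .nil)))),
   .two (nat_lit 813694991) (nat_lit 135266344) (.two (nat_lit 8388616) (nat_lit 165525061755) (.two (nat_lit 8388612) (nat_lit 10503586441) (.two (nat_lit 41943041) (nat_lit 12617516239) (.two (nat_lit 8388608) (nat_lit 11006905278) (.one (nat_lit 3558870163) .nil))))),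
   .two (nat_lit 184986632207) (nat_lit 19532873743) (.two (nat_lit 11543773192) (nat_lit 159219974274) (.two (nat_lit 19599982597) (nat_lit 158646403671) (.two (nat_lit 34603009) (nat_lit 4030727438) (.two (nat_lit 1048576) (nat_lit 13224643512) (.one (nat_lit 4598009006) .nil))))),
   .two (nat_lit 1310720019) (nat_lit 11610882065) (.two (nat_lit 4194312) (nat_lit 37247516709) (.two (nat_lit 4194312) (nat_lit 2921332755) (.two (nat_lit 4194308) (nat_lit 35651785) (.two (nat_lit 4194308) (nat_lit 2097352) (.two (nat_lit 4194305) (nat_lit 2099783) (.two (nat_lit 1048576) (nat_lit 2099458) (.one (nat_lit 1053257) .nil))))))),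
   .two (nat_lit 3464495119) (nat_lit 706740270) (.two (nat_lit 169869320) (nat_lit 47555018816) (.two (nat_lit 2097157) (nat_lit 159224168639) (.two (nat_lit 606076929) (nat_lit 21214790901) (.two (nat_lit 16777216) (nat_lit 8390915) (.one (nat_lit 8393290) .nil))))),
   .two (nat_lit 822083599) (nat_lit 3024093213) (.two (nat_lit 9802088460) (nat_lit 1325400147) (.two (nat_lit 822083591) (nat_lit 10439622943) (.two (nat_lit 10506731525) (nat_lit 2969567826) (.two (nat_lit 9768534017) (nat_lit 352322793) (.two (nat_lit 4194304) (nat_lit 10921970064) (.one (nat_lit 10921970064) .nil)))))),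
   .two (nat_lit 2954887179) (nat_lit 10506731535) (.two (nat_lit 169869318) (nat_lit 10439622693) (.two (nat_lit 10506731527) (nat_lit 3021996053) (.two (nat_lit 169869314) (nat_lit 3527409856) (.two (nat_lit 169869316) (nat_lit 1178599522) (.two (nat_lit 2097153) (nat_lit 876610383) (.two (nat_lit 2097152) (nat_lit 184419354077) (.one (nat_lit 272633734) .nil))))))),
   .two (nat_lit 46407876623) (nat_lit 11014242346) (.two (nat_lit 75497480) (nat_lit 1779433591) (.two (nat_lit 713031684) (nat_lit 19596837508) (.two (nat_lit 41943041) (nat_lit 1050509) (.two (nat_lit 8388608) (nat_lit 1050887) (.one (nat_lit 2101835) .nil))))),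
   .two (nat_lit 184986632207) (nat_lit 50331670) (.two (nat_lit 184986632200) (nat_lit 50331670) (.two (nat_lit 28705816581) (nat_lit 156465365196) (.two (nat_lit 612368385) (nat_lit 1049066) (.two (nat_lit 16777216) (nat_lit 1050115) (.one (nat_lit 1053260) .nil))))),
   .two (nat_lit 183848927247) (nat_lit 1913651215) (.two (nat_lit 11476664328) (nat_lit 708837444) (.two (nat_lit 11476664328) (nat_lit 158146232403) (.two (nat_lit 806354949) (nat_lit 21210595367) (.two (nat_lit 184989777925) (nat_lit 183946445003) (.two (nat_lit 37748737) (nat_lit 46977254360) (.two (nat_lit 16777216) (nat_lit 1052340) (.one (nat_lit 1053261) .nil))))))),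
   .two (nat_lit 158083317775) (nat_lit 4601151512) (.two (nat_lit 4194312) (nat_lit 1753219139) (.two (nat_lit 4194308) (nat_lit 12054429891) (.two (nat_lit 4194308) (nat_lit 1283457224) (.two (nat_lit 156372041729) (nat_lit 4196239) (.two (nat_lit 1048576) (nat_lit 8391701) (.one (nat_lit 8392640) .nil)))))),
   .two (nat_lit 9781116943) (nat_lit 4194335) (.two (nat_lit 68157448) (nat_lit 654311532) (.two (nat_lit 705691652) (nat_lit 159232557898) (.two (nat_lit 4194305) (nat_lit 4613735242) (.two (nat_lit 1048576) (nat_lit 20652753877) (.one (nat_lit 11577330910) .nil))))),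
   .two (nat_lit 612368399) (nat_lit 2987393069) (.two (nat_lit 11551113224) (nat_lit 10436476993) (.two (nat_lit 1277165573) (nat_lit 235929961) (.two (nat_lit 606076929) (nat_lit 166136382687) (.two (nat_lit 1048576) (nat_lit 3028289009) (.one (nat_lit 8393294) .nil))))),
   .two (nat_lit 174753579023) (nat_lit 10335813661) (.two (nat_lit 11577327628) (nat_lit 35651667) (.two (nat_lit 184986632199) (nat_lit 304087157) (.two (nat_lit 184416206853) (nat_lit 2350908073) (.two (nat_lit 9765388289) (nat_lit 20638074089) (.two (nat_lit 1048576) (nat_lit 2100247) (.one (nat_lit 2101839) .nil)))))),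
   .two (nat_lit 4194319) (nat_lit 156581756954) (.two (nat_lit 809500680) (nat_lit 9933160567) (.two (nat_lit 11479810053) (nat_lit 12617515594) (.two (nat_lit 16777217) (nat_lit 10939795341) (.two (nat_lit 16777216) (nat_lit 1051673) (.one (nat_lit 20753420180) .nil))))),
   .two (nat_lit 272629771) (nat_lit 11476664335) (.two (nat_lit 708837386) (nat_lit 4631560433) (.two (nat_lit 4194312) (nat_lit 46508539925) (.two (nat_lit 19532873733) (nat_lit 21777875310) (.two (nat_lit 4601151493) (nat_lit 269484129) (.two (nat_lit 605028353) (nat_lit 706741574) (.two (nat_lit 4194304) (nat_lit 1051675) (.one (nat_lit 1053264) .nil))))))),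
   .two (nat_lit 184416206863) (nat_lit 272629905) (.two (nat_lit 3539992584) (nat_lit 166232850576) (.two (nat_lit 809500679) (nat_lit 156968681539) (.two (nat_lit 9948889093) (nat_lit 12617515046) (.two (nat_lit 9948889093) (nat_lit 19093520480) (.two (nat_lit 37748737) (nat_lit 183946445286) (.two (nat_lit 8388608) (nat_lit 1051677) (.one (nat_lit 1053265) .nil))))))),
   .two (nat_lit 606076947) (nat_lit 12050235441) (.two (nat_lit 19599982604) (nat_lit 46508539941) (.two (nat_lit 2954887176) (nat_lit 339738646) (.two (nat_lit 169869314) (nat_lit 4195490) (.two (nat_lit 169869315) (nat_lit 37748936) (.two (nat_lit 2097153) (nat_lit 4195662) (.two (nat_lit 2097152) (nat_lit 12620663816) (.one (nat_lit 2101816) .nil))))))),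
   .two (nat_lit 156372041743) (nat_lit 20637024273) (.two (nat_lit 158075977736) (nat_lit 13228834939) (.two (nat_lit 713031685) (nat_lit 46977253415) (.two (nat_lit 68157443) (nat_lit 2424308342) (.two (nat_lit 41943041) (nat_lit 16779329) (.two (nat_lit 16777216) (nat_lit 1051678) (.one (nat_lit 16781257) .nil)))))),
   .two (nat_lit 754974735) (nat_lit 185020186664) (.two (nat_lit 754974728) (nat_lit 185020186738) (.two (nat_lit 11543773189) (nat_lit 1392509535) (.two (nat_lit 9765388289) (nat_lit 21793604886) (.two (nat_lit 1048576) (nat_lit 16779515) (.one (nat_lit 4613737719) .nil))))),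
   .two (nat_lit 739246095) (nat_lit 11559501864) (.two (nat_lit 739246088) (nat_lit 11559501938) (.two (nat_lit 11559501829) (nat_lit 1049259) (.two (nat_lit 9781116929) (nat_lit 28086109407) (.two (nat_lit 16777216) (nat_lit 2987397048) (.one (nat_lit 2987397048) .nil))))),
   .two (nat_lit 156971827219) (nat_lit 807403665) (.two (nat_lit 9867100169) (nat_lit 10506731632) (.two (nat_lit 9768534023) (nat_lit 2921332857) (.two (nat_lit 4599054341) (nat_lit 28693234021) (.two (nat_lit 2097153) (nat_lit 28693234504) (.two (nat_lit 1048576) (nat_lit 2319451091) (.one (nat_lit 2923431573) .nil)))))),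
   .two (nat_lit 822083599) (nat_lit 11614027805) (.two (nat_lit 9802088460) (nat_lit 1325400147) (.two (nat_lit 822083591) (nat_lit 3560964354) (.two (nat_lit 1916796933) (nat_lit 2969567826) (.two (nat_lit 9768534017) (nat_lit 352322793) (.two (nat_lit 4194304) (nat_lit 1325403159) (.one (nat_lit 10921970064) .nil)))))),
   .two (nat_lit 19096666136) (nat_lit 4027580461) (.two (nat_lit 104857608) (nat_lit 1276117116) (.two (nat_lit 2097157) (nat_lit 713032289) (.two (nat_lit 2097153) (nat_lit 780142441) (.two (nat_lit 4194304) (nat_lit 8392373) (.one (nat_lit 8392656) .nil))))),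
   .two (nat_lit 101711887) (nat_lit 18926796850) (.two (nat_lit 101711880) (nat_lit 156533522517) (.two (nat_lit 174753579021) (nat_lit 166229704741) (.two (nat_lit 1779433477) (nat_lit 2098231) (.two (nat_lit 9765388289) (nat_lit 2099781) (.two (nat_lit 1048576) (nat_lit 2100240) (.one (nat_lit 9798946739) .nil)))))),
   .two (nat_lit 156968681487) (nat_lit 19599982632) (.two (nat_lit 166129041416) (nat_lit 19599982706) (.two (nat_lit 1916796933) (nat_lit 2920284843) (.two (nat_lit 9768534017) (nat_lit 21777876191) (.two (nat_lit 1048576) (nat_lit 47550826768) (.one (nat_lit 1053563) .nil))))),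
   .two (nat_lit 21785214991) (nat_lit 34603037) (.two (nat_lit 1947205644) (nat_lit 156573368403) (.two (nat_lit 4613734407) (nat_lit 8388672) (.two (nat_lit 157035790341) (nat_lit 13195280978) (.two (nat_lit 16777217) (nat_lit 713032937) (.two (nat_lit 16777216) (nat_lit 8391715) (.one (nat_lit 8393298) .nil)))))),
   .two (nat_lit 11479810063) (nat_lit 46414168079) (.two (nat_lit 11479810056) (nat_lit 4605345859) (.two (nat_lit 809500677) (nat_lit 13195280579) (.two (nat_lit 809500677) (nat_lit 2357199048) (.two (nat_lit 37748737) (nat_lit 9806283614) (.two (nat_lit 2097152) (nat_lit 4196627) (.one (nat_lit 4198995) .nil)))))),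
   .two (nat_lit 10504634383) (nat_lit 4194403) (.two (nat_lit 606076936) (nat_lit 12054429810) (.two (nat_lit 28693233669) (nat_lit 35652263) (.two (nat_lit 37748737) (nat_lit 337642326) (.two (nat_lit 4194304) (nat_lit 2100241) (.one (nat_lit 2100514) .nil))))),
   .two (nat_lit 4194319) (nat_lit 28764536860) (.two (nat_lit 612368392) (nat_lit 1048651) (.two (nat_lit 68157448) (nat_lit 46481276950) (.two (nat_lit 176160772) (nat_lit 183916036467) (.two (nat_lit 176160771) (nat_lit 158075978368) (.two (nat_lit 8388609) (nat_lit 1049924) (.two (nat_lit 8388608) (nat_lit 4197413) (.one (nat_lit 8392663) .nil))))))),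
   .two (nat_lit 8388623) (nat_lit 4632608795) (.two (nat_lit 184989777933) (nat_lit 4605345858) (.two (nat_lit 13191086085) (nat_lit 236978831) (.two (nat_lit 156367847425) (nat_lit 2099089) (.two (nat_lit 4194304) (nat_lit 2100262) (.one (nat_lit 8393300) .nil))))),
   .two (nat_lit 9866051599) (nat_lit 183853121553) (.two (nat_lit 12054429704) (nat_lit 20704133186) (.two (nat_lit 184993972229) (nat_lit 20704133477) (.two (nat_lit 41943041) (nat_lit 37313577424) (.two (nat_lit 16777216) (nat_lit 880806140) (.one (nat_lit 8392664) .nil))))),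
   .two (nat_lit 156372041743) (nat_lit 272629777) (.two (nat_lit 4194312) (nat_lit 156372041839) (.two (nat_lit 4194308) (nat_lit 276824906) (.two (nat_lit 4194305) (nat_lit 276824906) (.two (nat_lit 4194304) (nat_lit 2894070741) (.one (nat_lit 1053269) .nil))))),
   .two (nat_lit 19599982607) (nat_lit 1343225872) (.two (nat_lit 9866051592) (nat_lit 37249613939) (.two (nat_lit 101711877) (nat_lit 4194343) (.two (nat_lit 1343225861) (nat_lit 11614027974) (.two (nat_lit 605028353) (nat_lit 4196419) (.two (nat_lit 2097152) (nat_lit 1052342) (.one (nat_lit 1053270) .nil)))))),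
   .two (nat_lit 713031695) (nat_lit 2923429911) (.two (nat_lit 46980399112) (nat_lit 46984593662) (.two (nat_lit 46409973764) (nat_lit 343933024) (.two (nat_lit 156367847427) (nat_lit 165532402025) (.two (nat_lit 4194305) (nat_lit 8390724) (.two (nat_lit 8388608) (nat_lit 4197416) (.one (nat_lit 4198362) .nil)))))),
   .two (nat_lit 721420303) (nat_lit 101711887) (.two (nat_lit 11476664328) (nat_lit 11559501937) (.two (nat_lit 11476664324) (nat_lit 158192370345) (.two (nat_lit 620756993) (nat_lit 183913940869) (.two (nat_lit 16777216) (nat_lit 203426038) (.one (nat_lit 2101211) .nil))))),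
   .two (nat_lit 721420303) (nat_lit 75497487) (.two (nat_lit 721420296) (nat_lit 1417674863) (.two (nat_lit 612368389) (nat_lit 822084178) (.two (nat_lit 41943041) (nat_lit 20719863080) (.two (nat_lit 8388608) (nat_lit 218105309) (.one (nat_lit 16781280) .nil))))),
   .two (nat_lit 75497487) (nat_lit 4030726167) (.two (nat_lit 3460300808) (nat_lit 10007609459) (.two (nat_lit 620756997) (nat_lit 138412622) (.two (nat_lit 41943041) (nat_lit 183848929135) (.two (nat_lit 1048576) (nat_lit 8391722) (.one (nat_lit 8392673) .nil))))),
   .two (nat_lit 2923429907) (nat_lit 157036838927) (.two (nat_lit 4194312) (nat_lit 2350907429) (.two (nat_lit 4194312) (nat_lit 236978195) (.two (nat_lit 156971827205) (nat_lit 1277166224) (.two (nat_lit 4194305) (nat_lit 35652431) (.two (nat_lit 2097152) (nat_lit 1052343) (.one (nat_lit 1053273) .nil)))))),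
   .two (nat_lit 11510218771) (nat_lit 28758245391) (.two (nat_lit 638582793) (nat_lit 169869437) (.two (nat_lit 9934209032) (nat_lit 1309671443) (.two (nat_lit 156968681477) (nat_lit 3021996233) (.two (nat_lit 705691652) (nat_lit 10001318088) (.two (nat_lit 34603009) (nat_lit 3021996879) (.two (nat_lit 1048576) (nat_lit 166230756367) (.one (nat_lit 2101850) .nil))))))),
   .two (nat_lit 158075977743) (nat_lit 4043309107) (.two (nat_lit 46992982026) (nat_lit 158646403185) (.two (nat_lit 10552868877) (nat_lit 68157477) (.two (nat_lit 21777874949) (nat_lit 4647289499) (.two (nat_lit 605028353) (nat_lit 183962174725) (.two (nat_lit 8388608) (nat_lit 47581236056) (.one (nat_lit 1053013) .nil)))))),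
   .two (nat_lit 11476664339) (nat_lit 1358954511) (.two (nat_lit 159216828425) (nat_lit 46523220087) (.two (nat_lit 1358954504) (nat_lit 11476664339) (.two (nat_lit 806354949) (nat_lit 156569174614) (.two (nat_lit 2097153) (nat_lit 183916037366) (.two (nat_lit 1048576) (nat_lit 2319451091) (.one (nat_lit 4199003) .nil)))))),
   .two (nat_lit 21214789655) (nat_lit 2988441640) (.two (nat_lit 165532401672) (nat_lit 10336862329) (.two (nat_lit 20644364290) (nat_lit 2097525) (.two (nat_lit 165526110211) (nat_lit 3464495744) (.two (nat_lit 156365750273) (nat_lit 10913579852) (.two (nat_lit 2097152) (nat_lit 612371464) (.one (nat_lit 8393308) .nil)))))),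
   .two (nat_lit 2902458379) (nat_lit 1384120363) (.two (nat_lit 19529728008) (nat_lit 11551113253) (.two (nat_lit 9781116936) (nat_lit 3531603990) (.two (nat_lit 8388610) (nat_lit 1049763) (.two (nat_lit 1343225861) (nat_lit 847249506) (.two (nat_lit 605028353) (nat_lit 1224737634) (.two (nat_lit 1048576) (nat_lit 1224738311) (.one (nat_lit 16781284) .nil))))))),
   .two (nat_lit 9934209039) (nat_lit 46477082641) (.two (nat_lit 169869320) (nat_lit 20640170067) (.two (nat_lit 2097159) (nat_lit 156569174124) (.two (nat_lit 2097157) (nat_lit 183949590624) (.two (nat_lit 2097155) (nat_lit 156569174207) (.two (nat_lit 2097153) (nat_lit 156569174491) (.two (nat_lit 2097152) (nat_lit 4198072) (.one (nat_lit 2101853) .nil))))))),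
   .two (nat_lit 9781116943) (nat_lit 185020186648) (.two (nat_lit 9781116936) (nat_lit 3524264010) (.two (nat_lit 2902458376) (nat_lit 11610882069) (.two (nat_lit 705691652) (nat_lit 11492393155) (.two (nat_lit 705691652) (nat_lit 3472883912) (.two (nat_lit 34603009) (nat_lit 46523220830) (.two (nat_lit 16777216) (nat_lit 10436479251) (.one (nat_lit 1426067392) .nil))))))),
   .two (nat_lit 2961178643) (nat_lit 16777231) (.two (nat_lit 166136381450) (nat_lit 16777280) (.two (nat_lit 16777224) (nat_lit 2961178643) (.two (nat_lit 75497477) (nat_lit 16777407) (.two (nat_lit 612368385) (nat_lit 46992983324) (.two (nat_lit 8388608) (nat_lit 47596964106) (.one (nat_lit 16781285) .nil)))))),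
   .two (nat_lit 184549391) (nat_lit 1920991259) (.two (nat_lit 343932941) (nat_lit 1426063427) (.two (nat_lit 8388613) (nat_lit 13203669626) (.two (nat_lit 8388609) (nat_lit 50331870) (.two (nat_lit 8388608) (nat_lit 184550896) (.one (nat_lit 21223181578) .nil))))),
   .two (nat_lit 639631375) (nat_lit 352321553) (.two (nat_lit 50331656) (nat_lit 10370416755) (.two (nat_lit 721420292) (nat_lit 11611931280) (.two (nat_lit 156364701697) (nat_lit 21778925632) (.two (nat_lit 1048576) (nat_lit 16780985) (.one (nat_lit 34606377) .nil))))),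
   .two (nat_lit 11479810063) (nat_lit 156380430379) (.two (nat_lit 18925748232) (nat_lit 239075456) (.two (nat_lit 285212677) (nat_lit 168821331) (.two (nat_lit 16777217) (nat_lit 11476665632) (.two (nat_lit 16777216) (nat_lit 1050906) (.one (nat_lit 1053278) .nil))))),
   .two (nat_lit 3458203663) (nat_lit 679477288) (.two (nat_lit 3458203656) (nat_lit 310378630) (.two (nat_lit 159224168453) (nat_lit 12618563785) (.two (nat_lit 2902458372) (nat_lit 2418016456) (.two (nat_lit 2097153) (nat_lit 4034921795) (.two (nat_lit 8388608) (nat_lit 2954889442) (.one (nat_lit 16781919) .nil)))))),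
   .two (nat_lit 3525312527) (nat_lit 1346371612) (.two (nat_lit 13191086088) (nat_lit 166130090051) (.two (nat_lit 183848927237) (nat_lit 807404172) (.two (nat_lit 4194305) (nat_lit 11007951070) (.two (nat_lit 4194304) (nat_lit 2100922) (.one (nat_lit 2101856) .nil))))),
   .two (nat_lit 183848927247) (nat_lit 10504634392) (.two (nat_lit 183848927240) (nat_lit 176160902) (.two (nat_lit 156372041733) (nat_lit 270533292) (.two (nat_lit 156367847425) (nat_lit 9766438799) (.two (nat_lit 4194304) (nat_lit 2100270) (.one (nat_lit 2101857) .nil))))),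
   .two (nat_lit 9934209039) (nat_lit 159224168464) (.two (nat_lit 20644364296) (nat_lit 2988441666) (.two (nat_lit 159224168453) (nat_lit 20638073436) (.two (nat_lit 156372041729) (nat_lit 673186643) (.two (nat_lit 8388608) (nat_lit 2100271) (.one (nat_lit 2101858) .nil))))),
   .two (nat_lit 272629775) (nat_lit 37314625576) (.two (nat_lit 185002360840) (nat_lit 272629824) (.two (nat_lit 721420293) (nat_lit 809500863) (.two (nat_lit 16777217) (nat_lit 158079124704) (.two (nat_lit 16777216) (nat_lit 10003417309) (.one (nat_lit 1377833845) .nil))))),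
   .two (nat_lit 184986632207) (nat_lit 1753219087) (.two (nat_lit 184986632200) (nat_lit 46481277045) (.two (nat_lit 1276116994) (nat_lit 9967764533) (.two (nat_lit 705691652) (nat_lit 19033751924) (.two (nat_lit 605028353) (nat_lit 2099785) (.two (nat_lit 1048576) (nat_lit 2100082) (.one (nat_lit 46474989462) .nil)))))),
   .two (nat_lit 28693233679) (nat_lit 18925748248) (.two (nat_lit 184416206856) (nat_lit 28693233729) (.two (nat_lit 739246085) (nat_lit 19532874090) (.two (nat_lit 605028353) (nat_lit 4195666) (.two (nat_lit 1048576) (nat_lit 4198075) (.one (nat_lit 1052651) .nil))))),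
   .two (nat_lit 50331663) (nat_lit 343932951) (.two (nat_lit 4605345800) (nat_lit 16777512) (.two (nat_lit 8388610) (nat_lit 16777423) (.two (nat_lit 8388611) (nat_lit 16778296) (.two (nat_lit 8388609) (nat_lit 16779333) (.two (nat_lit 4194304) (nat_lit 19604180005) (.one (nat_lit 4638904250) .nil)))))),
   .two (nat_lit 37748751) (nat_lit 11559501839) (.two (nat_lit 37748744) (nat_lit 117440621) (.two (nat_lit 4194308) (nat_lit 2936013458) (.two (nat_lit 2097153) (nat_lit 16779850) (.two (nat_lit 4194304) (nat_lit 184987683052) (.one (nat_lit 2101231) .nil))))),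
   .two (nat_lit 285212687) (nat_lit 3024093328) (.two (nat_lit 285212680) (nat_lit 3024093328) (.two (nat_lit 9768534023) (nat_lit 285212737) (.two (nat_lit 10506731525) (nat_lit 50332010) (.two (nat_lit 9768534017) (nat_lit 1191182558) (.two (nat_lit 4194304) (nat_lit 16778779) (.one (nat_lit 16780598) .nil)))))),
   .two (nat_lit 739246095) (nat_lit 4613734417) (.two (nat_lit 16777224) (nat_lit 1779433539) (.two (nat_lit 16777221) (nat_lit 9866052250) (.two (nat_lit 16777217) (nat_lit 1343226075) (.two (nat_lit 2097152) (nat_lit 1052348) (.one (nat_lit 35655713) .nil))))),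
   .two (nat_lit 12054429711) (nat_lit 10939793423) (.two (nat_lit 12054429704) (nat_lit 37313577072) (.two (nat_lit 184993972229) (nat_lit 11543773380) (.two (nat_lit 184993972229) (nat_lit 9765388488) (.two (nat_lit 9765388289) (nat_lit 8389971) (.two (nat_lit 4194304) (nat_lit 8392210) (.one (nat_lit 1052659) .nil)))))),
   .two (nat_lit 1277165583) (nat_lit 183912890396) (.two (nat_lit 158144135176) (nat_lit 157043130489) (.two (nat_lit 3531603973) (nat_lit 158177690213) (.two (nat_lit 9781116929) (nat_lit 158177691452) (.two (nat_lit 2097152) (nat_lit 159250385150) (.one (nat_lit 2101859) .nil))))),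
   .two (nat_lit 157038936079) (nat_lit 11544821788) (.two (nat_lit 159217877000) (nat_lit 37249613861) (.two (nat_lit 159217877000) (nat_lit 2923429907) (.two (nat_lit 169869316) (nat_lit 11479810244) (.two (nat_lit 169869316) (nat_lit 171966664) (.two (nat_lit 2097153) (nat_lit 4195627) (.two (nat_lit 2097152) (nat_lit 4197430) (.one (nat_lit 4198390) .nil))))))),
   .two (nat_lit 1913651215) (nat_lit 156535619614) (.two (nat_lit 4601151496) (nat_lit 156465365104) (.two (nat_lit 46409973765) (nat_lit 11543773854) (.two (nat_lit 37748737) (nat_lit 11610883371) (.two (nat_lit 4194304) (nat_lit 11610885174) (.one (nat_lit 1052663) .nil))))),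
   .two (nat_lit 21208498191) (nat_lit 184986632208) (.two (nat_lit 166129041416) (nat_lit 21208498283) (.two (nat_lit 169869316) (nat_lit 12047089703) (.two (nat_lit 10503585797) (nat_lit 174753579215) (.two (nat_lit 8388609) (nat_lit 3524264407) (.two (nat_lit 8388608) (nat_lit 158646405349) (.one (nat_lit 1051962) .nil)))))),
   .two (nat_lit 28086108175) (nat_lit 12054429719) (.two (nat_lit 183853121544) (nat_lit 9899606312) (.two (nat_lit 8388612) (nat_lit 11577327990) (.two (nat_lit 46409973763) (nat_lit 46406828686) (.two (nat_lit 4194305) (nat_lit 46977254724) (.two (nat_lit 4194304) (nat_lit 8391735) (.one (nat_lit 713036355) .nil)))))),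
   .two (nat_lit 1277165583) (nat_lit 183946444832) (.two (nat_lit 1277165576) (nat_lit 2987393098) (.two (nat_lit 1913651207) (nat_lit 159251431532) (.two (nat_lit 11543773189) (nat_lit 2954887542) (.two (nat_lit 83886083) (nat_lit 772801103) (.two (nat_lit 620756993) (nat_lit 156532474698) (.two (nat_lit 16777216) (nat_lit 1050916) (.one (nat_lit 1053285) .nil))))))),
   .two (nat_lit 20638072847) (nat_lit 8388660) (.two (nat_lit 21214789641) (nat_lit 10336862275) (.two (nat_lit 47555018759) (nat_lit 1310720065) (.two (nat_lit 176160773) (nat_lit 159217877596) (.two (nat_lit 8388609) (nat_lit 2099091) (.two (nat_lit 8388608) (nat_lit 2100281) (.one (nat_lit 8393318) .nil)))))),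
   .two (nat_lit 11479810063) (nat_lit 184416206863) (.two (nat_lit 104857608) (nat_lit 183912890480) (.two (nat_lit 12114198533) (nat_lit 809501353) (.two (nat_lit 156364701697) (nat_lit 4196244) (.two (nat_lit 1048576) (nat_lit 9802089949) (.one (nat_lit 4197695) .nil))))),
   .two (nat_lit 239075347) (nat_lit 1913651215) (.two (nat_lit 37748744) (nat_lit 19026411557) (.two (nat_lit 169869320) (nat_lit 239075347) (.two (nat_lit 19532873733) (nat_lit 158075978384) (.two (nat_lit 606076929) (nat_lit 1051211) (.two (nat_lit 2097152) (nat_lit 1051709) (.one (nat_lit 2101863) .nil)))))),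
   .two (nat_lit 28693233679) (nat_lit 135266330) (.two (nat_lit 18925748232) (nat_lit 104857637) (.two (nat_lit 18925748232) (nat_lit 166132187154) (.two (nat_lit 184549378) (nat_lit 4195494) (.two (nat_lit 156364701701) (nat_lit 156535619682) (.two (nat_lit 34603009) (nat_lit 4196423) (.two (nat_lit 1048576) (nat_lit 4197438) (.one (nat_lit 16781879) .nil))))))),
   .two (nat_lit 10343153679) (nat_lit 2353004586) (.two (nat_lit 4194312) (nat_lit 28093448306) (.two (nat_lit 4194308) (nat_lit 21214789829) (.two (nat_lit 4194308) (nat_lit 20644364385) (.two (nat_lit 4194305) (nat_lit 8389078) (.two (nat_lit 4194304) (nat_lit 8390951) (.one (nat_lit 1053288) .nil)))))),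
   .two (nat_lit 1277165583) (nat_lit 11510218771) (.two (nat_lit 1277165576) (nat_lit 11510218771) (.two (nat_lit 156968681477) (nat_lit 21812478050) (.two (nat_lit 156364701697) (nat_lit 169869541) (.two (nat_lit 1048576) (nat_lit 169869541) (.one (nat_lit 1053289) .nil))))),
   .two (nat_lit 1343225871) (nat_lit 156466413592) (.two (nat_lit 1343225864) (nat_lit 2097226) (.two (nat_lit 1343225864) (nat_lit 9799991318) (.two (nat_lit 166130089988) (nat_lit 1209008329) (.two (nat_lit 156365750275) (nat_lit 12147753154) (.two (nat_lit 9766436865) (nat_lit 1050696) (.two (nat_lit 1048576) (nat_lit 2100287) (.one (nat_lit 673190461) .nil))))))),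
   .two (nat_lit 1753219087) (nat_lit 46980399128) (.two (nat_lit 4601151496) (nat_lit 176160887) (.two (nat_lit 12054429701) (nat_lit 2956984939) (.two (nat_lit 612368385) (nat_lit 10003417675) (.two (nat_lit 2097152) (nat_lit 4198079) (.one (nat_lit 8393322) .nil))))),
   .two (nat_lit 156367847439) (nat_lit 47588573234) (.two (nat_lit 18928893960) (nat_lit 166203490599) (.two (nat_lit 183853121541) (nat_lit 158649549172) (.two (nat_lit 2894069765) (nat_lit 166132187231) (.two (nat_lit 41943041) (nat_lit 28690089452) (.two (nat_lit 8388608) (nat_lit 28690089452) (.one (nat_lit 1053291) .nil)))))),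
   .two (nat_lit 21208498191) (nat_lit 158143086617) (.two (nat_lit 1343225864) (nat_lit 20705181763) (.two (nat_lit 9866051589) (nat_lit 19597885804) (.two (nat_lit 34603009) (nat_lit 2098518) (.two (nat_lit 1048576) (nat_lit 2100928) (.one (nat_lit 1052675) .nil))))),
   .two (nat_lit 13203669007) (nat_lit 2923430245) (.two (nat_lit 3527409669) (nat_lit 2098411) (.two (nat_lit 2097153) (nat_lit 843057326) (.two (nat_lit 2097152) (nat_lit 4198128) (.one (nat_lit 4199065) .nil)))),
   .two (nat_lit 2902458383) (nat_lit 1410335077) (.two (nat_lit 2902458372) (nat_lit 10001318729) (.two (nat_lit 606076929) (nat_lit 156548204716) (.two (nat_lit 2097152) (nat_lit 4198129) (.one (nat_lit 4199066) .nil)))),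
   .two (nat_lit 46407876623) (nat_lit 2923429955) (.two (nat_lit 158077026312) (nat_lit 135266495) (.two (nat_lit 4194308) (nat_lit 269485284) (.two (nat_lit 37748737) (nat_lit 21777877764) (.two (nat_lit 4194304) (nat_lit 2100380) (.one (nat_lit 2101915) .nil))))),
   .two (nat_lit 4601151503) (nat_lit 28690088058) (.two (nat_lit 158077026312) (nat_lit 135266495) (.two (nat_lit 20638072836) (nat_lit 9866052838) (.two (nat_lit 4194305) (nat_lit 9899608238) (.two (nat_lit 4194304) (nat_lit 156533525649) (.one (nat_lit 1053340) .nil))))),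
   .two (nat_lit 721420303) (nat_lit 19128123510) (.two (nat_lit 203423752) (nat_lit 352321727) (.two (nat_lit 2887778308) (nat_lit 28086109000) (.two (nat_lit 9766436865) (nat_lit 1745880539) (.two (nat_lit 2097152) (nat_lit 16780445) (.one (nat_lit 1053341) .nil))))),
   .two (nat_lit 8388623) (nat_lit 672137334) (.two (nat_lit 276824072) (nat_lit 4634706111) (.two (nat_lit 8388612) (nat_lit 165528208608) (.two (nat_lit 37748737) (nat_lit 185020188846) (.two (nat_lit 1048576) (nat_lit 165532404881) (.one (nat_lit 272634477) .nil))))),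
   .two (nat_lit 713031695) (nat_lit 11614027894) (.two (nat_lit 4194312) (nat_lit 343933119) (.two (nat_lit 4194308) (nat_lit 174692762848) (.two (nat_lit 156364701697) (nat_lit 28793900188) (.one (nat_lit 13195285117) .nil)))),
   .two (nat_lit 16777231) (nat_lit 46978302311) (.two (nat_lit 11479810053) (nat_lit 156365751113) (.two (nat_lit 50331649) (nat_lit 706742446) (.two (nat_lit 16777216) (nat_lit 2100982) (.one (nat_lit 2101261) .nil)))),
   .two (nat_lit 8388623) (nat_lit 28793897078) (.two (nat_lit 9940500488) (nat_lit 47582281919) (.two (nat_lit 46407876612) (nat_lit 1178600264) (.two (nat_lit 8388609) (nat_lit 28089256111) (.two (nat_lit 4194304) (nat_lit 8391839) (.one (nat_lit 2101928) .nil))))),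
   .two (nat_lit 185002360847) (nat_lit 28690088049) (.two (nat_lit 165526110216) (nat_lit 176161127) (.two (nat_lit 19596836869) (nat_lit 12054430952) (.two (nat_lit 606076929) (nat_lit 183845783730) (.two (nat_lit 1048576) (nat_lit 2100384) (.one (nat_lit 8393385) .nil))))),
   .two (nat_lit 713031695) (nat_lit 10537140342) (.two (nat_lit 276824072) (nat_lit 13224640703) (.two (nat_lit 41943045) (nat_lit 156367848679) (.two (nat_lit 41943041) (nat_lit 10335815855) (.two (nat_lit 1048576) (nat_lit 28093451409) (.one (nat_lit 9873396372) .nil))))),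
   .two (nat_lit 46414168079) (nat_lit 46407876965) (.two (nat_lit 183861510149) (nat_lit 9866052839) (.two (nat_lit 156365750273) (nat_lit 184423549110) (.two (nat_lit 8388608) (nat_lit 1948257440) (.one (nat_lit 2101930) .nil)))),
   .two (nat_lit 2902458383) (nat_lit 9799991419) (.two (nat_lit 50331656) (nat_lit 10947133800) (.two (nat_lit 83886085) (nat_lit 11517559624) (.two (nat_lit 2097153) (nat_lit 13228837045) (.two (nat_lit 8388608) (nat_lit 10907290770) (.one (nat_lit 3531608703) .nil))))),
   .two (nat_lit 9940500495) (nat_lit 159251431491) (.two (nat_lit 37748744) (nat_lit 10007609535) (.two (nat_lit 8388612) (nat_lit 4195564) (.two (nat_lit 4194305) (nat_lit 8391428) (.two (nat_lit 2097152) (nat_lit 8391842) (.one (nat_lit 8393387) .nil))))),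
   .two (nat_lit 50331663) (nat_lit 605028419) (.two (nat_lit 50331656) (nat_lit 12114198888) (.two (nat_lit 2889875461) (nat_lit 18925749065) (.two (nat_lit 9768534017) (nat_lit 183845783723) (.two (nat_lit 16777216) (nat_lit 1052412) (.one (nat_lit 34607117) .nil))))),
   .two (nat_lit 169869327) (nat_lit 1916797046) (.two (nat_lit 184986632200) (nat_lit 1392509285) (.two (nat_lit 2956984325) (nat_lit 159266112330) (.two (nat_lit 605028353) (nat_lit 9902753966) (.two (nat_lit 1048576) (nat_lit 1325403888) (.one (nat_lit 1325404825) .nil))))),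
   .two (nat_lit 742391823) (nat_lit 158176641091) (.two (nat_lit 2887778312) (nat_lit 4634706111) (.two (nat_lit 270532613) (nat_lit 4195565) (.two (nat_lit 34603009) (nat_lit 2099387) (.two (nat_lit 1048576) (nat_lit 21812481180) (.one (nat_lit 1053359) .nil))))),
   .two (nat_lit 21785214991) (nat_lit 1343225923) (.two (nat_lit 4194312) (nat_lit 10007609535) (.two (nat_lit 156971827205) (nat_lit 1779434312) (.two (nat_lit 41943041) (nat_lit 1175455925) (.two (nat_lit 1048576) (nat_lit 20644367506) (.one (nat_lit 4199088) .nil))))),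
   .two (nat_lit 8388623) (nat_lit 3021996153) (.two (nat_lit 813694984) (nat_lit 28693234327) (.two (nat_lit 2097157) (nat_lit 1920992539) (.two (nat_lit 2097153) (nat_lit 10942941356) (.two (nat_lit 1048576) (nat_lit 156468513967) (.one (nat_lit 1053420) .nil))))),
   .two (nat_lit 4194319) (nat_lit 10001318024) (.two (nat_lit 46407876616) (nat_lit 843055295) (.two (nat_lit 270532613) (nat_lit 4634707207) (.two (nat_lit 34603009) (nat_lit 166230755500) (.two (nat_lit 1048576) (nat_lit 20738739346) (.one (nat_lit 1053422) .nil))))),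
   .two (nat_lit 654311439) (nat_lit 184423546996) (.two (nat_lit 19530776584) (nat_lit 156548202853) (.two (nat_lit 209715205) (nat_lit 9781118228) (.two (nat_lit 9765388289) (nat_lit 158653745324) (.two (nat_lit 2097152) (nat_lit 13221498595) (.one (nat_lit 9866056379) .nil))))),
   .two (nat_lit 11559501839) (nat_lit 1948254275) (.two (nat_lit 11479810056) (nat_lit 37247517029) (.two (nat_lit 809500677) (nat_lit 2424308553) (.two (nat_lit 41943041) (nat_lit 20640172241) (.two (nat_lit 8388608) (nat_lit 4197552) (.one (nat_lit 12121542669) .nil))))),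
   .two (nat_lit 620757007) (nat_lit 1175454057) (.two (nat_lit 169869316) (nat_lit 184986633481) (.two (nat_lit 2097153) (nat_lit 13221498016) (.one (nat_lit 605033121) .nil))),
   .two (nat_lit 16777231) (nat_lit 159217877354) (.two (nat_lit 272629765) (nat_lit 183845782345) (.two (nat_lit 2097153) (nat_lit 34605834) (.two (nat_lit 1048576) (nat_lit 174753582245) (.one (nat_lit 4199154) .nil)))),
   .two (nat_lit 159232557071) (nat_lit 1310720066) (.two (nat_lit 272629768) (nat_lit 889192639) (.two (nat_lit 16777220) (nat_lit 1749026028) (.two (nat_lit 16777217) (nat_lit 337643707) (.two (nat_lit 2097152) (nat_lit 10385099921) (.one (nat_lit 4199158) .nil))))),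
   .two (nat_lit 1350565903) (nat_lit 21811429443) (.two (nat_lit 4194312) (nat_lit 880804031) (.two (nat_lit 12054429701) (nat_lit 12047090932) (.two (nat_lit 37748737) (nat_lit 159257725826) (.two (nat_lit 1048576) (nat_lit 156971830417) (.one (nat_lit 8393466) .nil))))),
   .two (nat_lit 41943055) (nat_lit 742391931) (.two (nat_lit 276824072) (nat_lit 13224640703) (.two (nat_lit 2894069765) (nat_lit 742393069) (.two (nat_lit 37748737) (nat_lit 184986634456) (.two (nat_lit 1048576) (nat_lit 20745030812) (.one (nat_lit 1053438) .nil))))),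
   .two (nat_lit 183853121551) (nat_lit 11559501947) (.two (nat_lit 184549384) (nat_lit 11517559141) (.two (nat_lit 184549380) (nat_lit 11517559624) (.two (nat_lit 2097153) (nat_lit 158150428847) (.two (nat_lit 8388608) (nat_lit 46978305183) (.one (nat_lit 46984598264) .nil))))),
   .two (nat_lit 2969567247) (nat_lit 1276117057) (.two (nat_lit 2969567240) (nat_lit 19096666472) (.two (nat_lit 174755676165) (nat_lit 158075978991) (.two (nat_lit 620756993) (nat_lit 37750956) (.two (nat_lit 8388608) (nat_lit 184552595) (.one (nat_lit 16782081) .nil))))),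
   .two (nat_lit 16777231) (nat_lit 184416206981) (.two (nat_lit 4194312) (nat_lit 16777407) (.two (nat_lit 822083589) (nat_lit 157035791178) (.two (nat_lit 37748737) (nat_lit 156465367212) (.two (nat_lit 1048576) (nat_lit 46409976991) (.one (nat_lit 16782032) .nil))))),
   .two (nat_lit 184549391) (nat_lit 158649548936) (.two (nat_lit 156367847432) (nat_lit 3573547368) (.two (nat_lit 2097157) (nat_lit 9948890357) (.two (nat_lit 2097153) (nat_lit 158179788977) (.two (nat_lit 1048576) (nat_lit 169872556) (.one (nat_lit 687870660) .nil))))),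
   .two (nat_lit 713031695) (nat_lit 1947205753) (.two (nat_lit 75497480) (nat_lit 10001318514) (.two (nat_lit 209715205) (nat_lit 47548728590) (.two (nat_lit 34603009) (nat_lit 337643718) (.two (nat_lit 1048576) (nat_lit 183953788060) (.one (nat_lit 168825576) .nil))))),
   .two (nat_lit 721420303) (nat_lit 12117344379) (.two (nat_lit 2889875464) (nat_lit 11626611045) (.two (nat_lit 2889875460) (nat_lit 11626611528) (.two (nat_lit 2097153) (nat_lit 10385098924) (.two (nat_lit 2097152) (nat_lit 20652756138) (.one (nat_lit 46978305378) .nil))))),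
   .two (nat_lit 8388623) (nat_lit 12117344320) (.two (nat_lit 13195280392) (nat_lit 1916797119) (.two (nat_lit 4605345797) (nat_lit 1413481724) (.two (nat_lit 37748737) (nat_lit 185027528889) (.two (nat_lit 4194304) (nat_lit 142609589) (.one (nat_lit 71307974) .nil))))),
   .two (nat_lit 809500687) (nat_lit 41943111) (.two (nat_lit 4194310) (nat_lit 343933119) (.two (nat_lit 809500680) (nat_lit 2323644612) (.two (nat_lit 4194308) (nat_lit 8389929) (.two (nat_lit 4194305) (nat_lit 8391527) (.two (nat_lit 4194304) (nat_lit 46481278577) (.one (nat_lit 8393425) .nil)))))),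
   .two (nat_lit 2887778319) (nat_lit 9781117039) (.two (nat_lit 2887778310) (nat_lit 156380430921) (.two (nat_lit 2887778312) (nat_lit 11626610884) (.two (nat_lit 2887778308) (nat_lit 4613735242) (.two (nat_lit 2097153) (nat_lit 83888301) (.two (nat_lit 2097152) (nat_lit 9814674629) (.one (nat_lit 2936017516) .nil)))))),
   .two (nat_lit 169869327) (nat_lit 11546919046) (.two (nat_lit 205520904) (nat_lit 9799991656) (.two (nat_lit 705691652) (nat_lit 20738737390) (.two (nat_lit 34603009) (nat_lit 4197224) (.two (nat_lit 1048576) (nat_lit 4197584) (.one (nat_lit 1053394) .nil))))),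
   .two (nat_lit 16777231) (nat_lit 1916797042) (.two (nat_lit 16777222) (nat_lit 166132187719) (.two (nat_lit 16777224) (nat_lit 742392005) (.two (nat_lit 16777220) (nat_lit 608174923) (.two (nat_lit 16777217) (nat_lit 742394718) (.two (nat_lit 16777216) (nat_lit 4197585) (.one (nat_lit 171971264) .nil)))))),
   .two (nat_lit 713031695) (nat_lit 20640170108) (.two (nat_lit 11479810056) (nat_lit 21214789671) (.two (nat_lit 1795162120) (nat_lit 742392000) (.two (nat_lit 13191086085) (nat_lit 780141018) (.two (nat_lit 612368385) (nat_lit 138414944) (.two (nat_lit 16777216) (nat_lit 4197573) (.one (nat_lit 1325404197) .nil)))))),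
   .two (nat_lit 739246095) (nat_lit 1753219184) (.two (nat_lit 739246088) (nat_lit 12054430280) (.two (nat_lit 1753219077) (nat_lit 166229705549) (.two (nat_lit 705691651) (nat_lit 13195281619) (.two (nat_lit 612368385) (nat_lit 158646404573) (.two (nat_lit 1048576) (nat_lit 12624858932) (.one (nat_lit 109056821) .nil)))))),
   .two (nat_lit 37748751) (nat_lit 343933036) (.two (nat_lit 4194310) (nat_lit 47588573806) (.two (nat_lit 8388616) (nat_lit 706740321) (.two (nat_lit 11479810050) (nat_lit 8389930) (.two (nat_lit 2887778308) (nat_lit 4638900694) (.two (nat_lit 9766436865) (nat_lit 8390891) (.two (nat_lit 2097152) (nat_lit 8392604) (.one (nat_lit 2101309) .nil))))))),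
   .two (nat_lit 705691659) (nat_lit 12624855163) (.two (nat_lit 4194319) (nat_lit 41943076) (.two (nat_lit 11476664326) (nat_lit 742392434) (.two (nat_lit 4194312) (nat_lit 3028287583) (.two (nat_lit 705691650) (nat_lit 19532875001) (.two (nat_lit 9933160453) (nat_lit 20745028054) (.two (nat_lit 37748737) (nat_lit 11584669914) (.two (nat_lit 4194304) (nat_lit 8392605) (.one (nat_lit 8392766) .nil)))))))),
   .two (nat_lit 809500687) (nat_lit 1317011575) (.two (nat_lit 4194310) (nat_lit 47588574026) (.two (nat_lit 4194312) (nat_lit 243269828) (.two (nat_lit 4194308) (nat_lit 47588574026) (.two (nat_lit 605028353) (nat_lit 10343155885) (.two (nat_lit 1048576) (nat_lit 10376711365) (.one (nat_lit 159216833420) .nil)))))),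
   .two (nat_lit 2887778319) (nat_lit 2420113527) (.two (nat_lit 205520904) (nat_lit 183913939529) (.two (nat_lit 2956984325) (nat_lit 37314626382) (.two (nat_lit 171966467) (nat_lit 20738737398) (.two (nat_lit 9766436865) (nat_lit 166196152505) (.two (nat_lit 1048576) (nat_lit 47582285604) (.one (nat_lit 174753582409) .nil)))))),
   .two (nat_lit 1753219087) (nat_lit 158079123587) (.two (nat_lit 183853121544) (nat_lit 12620660834) (.two (nat_lit 183853121540) (nat_lit 166199296849) (.two (nat_lit 705691651) (nat_lit 19096666952) (.two (nat_lit 34603009) (nat_lit 2319452333) (.two (nat_lit 1048576) (nat_lit 675286789) (.one (nat_lit 4198464) .nil)))))),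
   .two (nat_lit 9881780239) (nat_lit 1350566015) (.two (nat_lit 612368392) (nat_lit 20652753255) (.two (nat_lit 713031684) (nat_lit 9915335505) (.two (nat_lit 83886083) (nat_lit 9906947311) (.two (nat_lit 9765388289) (nat_lit 166144772295) (.two (nat_lit 1048576) (nat_lit 10921971434) (.one (nat_lit 788532550) .nil)))))),
   .two (nat_lit 1291845647) (nat_lit 1343225974) (.two (nat_lit 8388616) (nat_lit 721420649) (.two (nat_lit 8388612) (nat_lit 218104030) (.two (nat_lit 620756995) (nat_lit 1283458272) (.two (nat_lit 41943041) (nat_lit 37313579391) (.two (nat_lit 1048576) (nat_lit 10913582849) (.one (nat_lit 8393546) .nil)))))),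
   .two (nat_lit 2889875467) (nat_lit 772800577) (.two (nat_lit 272629775) (nat_lit 12114198564) (.two (nat_lit 2889875462) (nat_lit 772800869) (.two (nat_lit 272629768) (nat_lit 21811429471) (.two (nat_lit 2889875458) (nat_lit 1175454999) (.two (nat_lit 2889875461) (nat_lit 1376780752) (.two (nat_lit 37748737) (nat_lit 1947206601) (.two (nat_lit 4194304) (nat_lit 1947207263) (.one (nat_lit 1053515) .nil)))))))),
   .two (nat_lit 158083317784) (nat_lit 50331684) (.two (nat_lit 50331663) (nat_lit 612368404) (.two (nat_lit 2961178632) (nat_lit 184549471) (.two (nat_lit 19596836869) (nat_lit 1350566358) (.two (nat_lit 176160772) (nat_lit 754974940) (.two (nat_lit 156364701697) (nat_lit 184993973738) (.two (nat_lit 1048576) (nat_lit 8391070) (.one (nat_lit 1053517) .nil))))))),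
   .two (nat_lit 2954887183) (nat_lit 159219974221) (.two (nat_lit 641728521) (nat_lit 11543773222) (.two (nat_lit 270532615) (nat_lit 641728709) (.two (nat_lit 156971827205) (nat_lit 101712094) (.two (nat_lit 37748737) (nat_lit 10436477905) (.two (nat_lit 2097152) (nat_lit 1343227515) (.one (nat_lit 169873450) .nil)))))),
   .two (nat_lit 176160783) (nat_lit 620757104) (.two (nat_lit 83886088) (nat_lit 8389289) (.two (nat_lit 721420290) (nat_lit 8389465) (.two (nat_lit 8388611) (nat_lit 4601152755) (.two (nat_lit 8388609) (nat_lit 46980400080) (.two (nat_lit 8388608) (nat_lit 4197593) (.one (nat_lit 4199207) .nil)))))),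
   .two (nat_lit 47555018767) (nat_lit 772800579) (.two (nat_lit 47555018760) (nat_lit 135266662) (.two (nat_lit 8388613) (nat_lit 135266771) (.two (nat_lit 8388611) (nat_lit 10939794675) (.two (nat_lit 8388609) (nat_lit 1050862) (.two (nat_lit 8388608) (nat_lit 174752534281) (.one (nat_lit 1053480) .nil)))))),
   .two (nat_lit 19599982607) (nat_lit 158646403182) (.two (nat_lit 183848927240) (nat_lit 605028552) (.two (nat_lit 156968681477) (nat_lit 4195627) (.two (nat_lit 34603009) (nat_lit 4196591) (.two (nat_lit 4194304) (nat_lit 1051866) (.one (nat_lit 4199246) .nil))))),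
   .two (nat_lit 2889875471) (nat_lit 165526110323) (.two (nat_lit 2889875464) (nat_lit 185021235880) (.two (nat_lit 2956984325) (nat_lit 9967763678) (.two (nat_lit 157038936069) (nat_lit 235930446) (.two (nat_lit 9768534017) (nat_lit 1745880016) (.two (nat_lit 2097152) (nat_lit 1051867) (.one (nat_lit 336597811) .nil)))))),
   .two (nat_lit 37748751) (nat_lit 28093448259) (.two (nat_lit 809500680) (nat_lit 8389290) (.two (nat_lit 4194308) (nat_lit 158083317979) (.two (nat_lit 2097153) (nat_lit 28093448699) (.two (nat_lit 4194304) (nat_lit 8391074) (.one (nat_lit 8392778) .nil))))),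
   .two (nat_lit 28693233679) (nat_lit 12048138279) (.two (nat_lit 28691136529) (nat_lit 1916796995) (.two (nat_lit 166130089992) (nat_lit 12117344352) (.two (nat_lit 12129927175) (nat_lit 11546919512) (.two (nat_lit 10504634373) (nat_lit 12117344475) (.two (nat_lit 9766436867) (nat_lit 166132187989) (.two (nat_lit 9766436865) (nat_lit 10372515441) (.two (nat_lit 2097152) (nat_lit 4197596) (.one (nat_lit 2101323) .nil)))))))),
   .two (nat_lit 117440527) (nat_lit 20637024367) (.two (nat_lit 1191182344) (nat_lit 205521256) (.two (nat_lit 159216828421) (nat_lit 117440975) (.two (nat_lit 4194307) (nat_lit 1358955727) (.two (nat_lit 4194305) (nat_lit 50332620) (.two (nat_lit 4194304) (nat_lit 1947209520) (.one (nat_lit 1053519) .nil)))))),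
   .two (nat_lit 16777231) (nat_lit 10439622779) (.two (nat_lit 184549384) (nat_lit 158146232941) (.two (nat_lit 2889875460) (nat_lit 9934209866) (.two (nat_lit 16777217) (nat_lit 28691138762) (.two (nat_lit 2097152) (nat_lit 16781202) (.one (nat_lit 337644882) .nil))))),
   .two (nat_lit 822083599) (nat_lit 158176641138) (.two (nat_lit 1325400074) (nat_lit 9798942919) (.two (nat_lit 822083592) (nat_lit 166229704901) (.two (nat_lit 11492392965) (nat_lit 3524264779) (.two (nat_lit 4194305) (nat_lit 336593876) (.two (nat_lit 4194304) (nat_lit 1051044) (.one (nat_lit 16781388) .nil)))))),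
   .two (nat_lit 620757007) (nat_lit 272629796) (.two (nat_lit 620757007) (nat_lit 272629778) (.two (nat_lit 620757000) (nat_lit 9936306271) (.two (nat_lit 176160772) (nat_lit 156367847889) (.two (nat_lit 176160772) (nat_lit 876609765) (.two (nat_lit 8388609) (nat_lit 183949591500) (.two (nat_lit 4194304) (nat_lit 4647293084) (.one (nat_lit 4199248) .nil))))))),
   .two (nat_lit 218103823) (nat_lit 46474985538) (.two (nat_lit 218103816) (nat_lit 236978770) (.two (nat_lit 2969567237) (nat_lit 174686470363) (.two (nat_lit 2969567237) (nat_lit 156466414413) (.two (nat_lit 2097153) (nat_lit 2902459888) (.two (nat_lit 2097152) (nat_lit 16780509) (.one (nat_lit 2102097) .nil)))))),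
   .two (nat_lit 20705181720) (nat_lit 158176641091) (.two (nat_lit 4194312) (nat_lit 4599054536) (.two (nat_lit 4194308) (nat_lit 13188989775) (.two (nat_lit 9766436867) (nat_lit 13191087336) (.two (nat_lit 9766436865) (nat_lit 4196593) (.two (nat_lit 1048576) (nat_lit 641731794) (.one (nat_lit 19532877841) .nil)))))),
   .two (nat_lit 276824079) (nat_lit 13224640624) (.two (nat_lit 276824072) (nat_lit 205521551) (.two (nat_lit 11476664324) (nat_lit 11010048846) (.two (nat_lit 8388611) (nat_lit 28793897188) (.two (nat_lit 34603009) (nat_lit 11513365459) (.two (nat_lit 4194304) (nat_lit 8390281) (.one (nat_lit 4199250) .nil)))))),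
   .two (nat_lit 46409973775) (nat_lit 1182793868) (.two (nat_lit 276824072) (nat_lit 9802088486) (.two (nat_lit 276824072) (nat_lit 11513364576) (.two (nat_lit 8388612) (nat_lit 183848927712) (.two (nat_lit 605028353) (nat_lit 4196594) (.two (nat_lit 1048576) (nat_lit 8391902) (.one (nat_lit 8392783) .nil)))))),
   .two (nat_lit 20738736147) (nat_lit 873463876) (.two (nat_lit 1846542373) (nat_lit 2097203) (.two (nat_lit 165525061641) (nat_lit 3458204315) (.two (nat_lit 9934209037) (nat_lit 873464008) (.two (nat_lit 11476664322) (nat_lit 2098010) (.two (nat_lit 1344274437) (nat_lit 10000269784) (.two (nat_lit 37748737) (nat_lit 34605287) (.two (nat_lit 4194304) (nat_lit 705694924) (.one (nat_lit 1053523) .nil)))))))),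
   .two (nat_lit 4601151499) (nat_lit 1277165687) (.two (nat_lit 184986632207) (nat_lit 1310720019) (.two (nat_lit 4194312) (nat_lit 19027460193) (.two (nat_lit 4194308) (nat_lit 2954887638) (.two (nat_lit 4194308) (nat_lit 19027460313) (.two (nat_lit 4194305) (nat_lit 35653236) (.two (nat_lit 1048576) (nat_lit 35653236) (.one (nat_lit 1053524) .nil))))))),
   .two (nat_lit 176160783) (nat_lit 158179786883) (.two (nat_lit 10443816970) (nat_lit 13224640550) (.two (nat_lit 176160776) (nat_lit 2990539117) (.two (nat_lit 50331651) (nat_lit 157038937313) (.two (nat_lit 50331649) (nat_lit 9768534523) (.two (nat_lit 16777216) (nat_lit 1413482914) (.one (nat_lit 8393557) .nil)))))),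
   .two (nat_lit 12147752979) (nat_lit 1310720113) (.two (nat_lit 165526110223) (nat_lit 12147752979) (.two (nat_lit 47581233162) (nat_lit 159217877090) (.two (nat_lit 28690087941) (nat_lit 102760920) (.two (nat_lit 28690087941) (nat_lit 236978393) (.two (nat_lit 34603009) (nat_lit 21812478931) (.two (nat_lit 1048576) (nat_lit 20738737778) (.one (nat_lit 203428622) .nil))))))),
   .two (nat_lit 272629771) (nat_lit 4599054373) (.two (nat_lit 37748751) (nat_lit 672137238) (.two (nat_lit 4194310) (nat_lit 47582281826) (.two (nat_lit 1277165570) (nat_lit 4196414) (.two (nat_lit 13191086085) (nat_lit 166230753508) (.two (nat_lit 606076929) (nat_lit 37751815) (.two (nat_lit 2097152) (nat_lit 4198307) (.one (nat_lit 2102103) .nil))))))),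
   .two (nat_lit 10906238995) (nat_lit 754974833) (.two (nat_lit 822083599) (nat_lit 13187940374) (.two (nat_lit 183845781510) (nat_lit 9881780321) (.two (nat_lit 9866051589) (nat_lit 46422557144) (.two (nat_lit 9866051589) (nat_lit 9881780441) (.two (nat_lit 34603009) (nat_lit 4613736072) (.two (nat_lit 1048576) (nat_lit 11626613148) (.one (nat_lit 16782149) .nil))))))),
   .two (nat_lit 46978301963) (nat_lit 12129927292) (.two (nat_lit 166245433381) (nat_lit 772800538) (.two (nat_lit 166129041417) (nat_lit 9915335314) (.two (nat_lit 183845781512) (nat_lit 9881780321) (.two (nat_lit 158143086597) (nat_lit 46523221238) (.two (nat_lit 2097153) (nat_lit 3036678364) (.two (nat_lit 1048576) (nat_lit 16780495) (.one (nat_lit 2102105) .nil))))))),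
   .two (nat_lit 46414168079) (nat_lit 156365750383) (.two (nat_lit 46414168072) (nat_lit 889192639) (.two (nat_lit 46414168068) (nat_lit 270533450) (.two (nat_lit 8388609) (nat_lit 1411385517) (.two (nat_lit 8388608) (nat_lit 156567080133) (.one (nat_lit 46508544620) .nil))))),
   .two (nat_lit 75497487) (nat_lit 46406828151) (.two (nat_lit 12054429704) (nat_lit 13187940711) (.two (nat_lit 183853121540) (nat_lit 183946446056) (.two (nat_lit 34603009) (nat_lit 276826297) (.two (nat_lit 1048576) (nat_lit 612371637) (.one (nat_lit 156532478654) .nil))))),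
   .two (nat_lit 2889875471) (nat_lit 46414168130) (.two (nat_lit 2889875464) (nat_lit 156372042085) (.two (nat_lit 166132187141) (nat_lit 847249888) (.two (nat_lit 4194305) (nat_lit 184993974458) (.two (nat_lit 4194304) (nat_lit 8391911) (.one (nat_lit 11010052729) .nil))))),
   .two (nat_lit 9934209039) (nat_lit 46414168129) (.two (nat_lit 9934209032) (nat_lit 13195280742) (.two (nat_lit 169869316) (nat_lit 880804307) (.two (nat_lit 169869315) (nat_lit 8390535) (.two (nat_lit 2097153) (nat_lit 8391533) (.two (nat_lit 2097152) (nat_lit 8391912) (.one (nat_lit 8392794) .nil)))))),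
   .two (nat_lit 1191182351) (nat_lit 2988441666) (.two (nat_lit 1191182344) (nat_lit 9967763813) (.two (nat_lit 1277165573) (nat_lit 4647289312) (.two (nat_lit 9781116929) (nat_lit 10538191034) (.two (nat_lit 16777216) (nat_lit 19530779879) (.one (nat_lit 21223182399) .nil))))),
   .two (nat_lit 2969567247) (nat_lit 742391829) (.two (nat_lit 2902458370) (nat_lit 4194789) (.two (nat_lit 9768534017) (nat_lit 16778745) (.one (nat_lit 4198491) .nil))),
   .two (nat_lit 9934209039) (nat_lit 156468510757) (.two (nat_lit 272629775) (nat_lit 337641494) (.two (nat_lit 9934209032) (nat_lit 19532873825) (.two (nat_lit 19530776581) (nat_lit 46510637520) (.two (nat_lit 169869316) (nat_lit 272629988) (.two (nat_lit 2097153) (nat_lit 19532874696) (.two (nat_lit 2097152) (nat_lit 10372515443) (.one (nat_lit 4198492) .nil))))))),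
   .two (nat_lit 713031695) (nat_lit 9798942846) (.two (nat_lit 165525061640) (nat_lit 343933119) (.two (nat_lit 10335813637) (nat_lit 4605346260) (.two (nat_lit 10335813637) (nat_lit 343933393) (.two (nat_lit 16777217) (nat_lit 1343228088) (.two (nat_lit 1048576) (nat_lit 13228838102) (.one (nat_lit 1053531) .nil)))))),
   .two (nat_lit 2954887183) (nat_lit 1309671531) (.two (nat_lit 166129041416) (nat_lit 20738736226) (.two (nat_lit 184989777925) (nat_lit 21811429842) (.two (nat_lit 176160771) (nat_lit 9967764712) (.two (nat_lit 156364701697) (nat_lit 158077027283) (.two (nat_lit 8388608) (nat_lit 2101056) (.one (nat_lit 3022000175) .nil)))))),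
   .two (nat_lit 19596836879) (nat_lit 21785215043) (.two (nat_lit 12047089672) (nat_lit 12054430054) (.two (nat_lit 184986632197) (nat_lit 12054429915) (.two (nat_lit 184986632197) (nat_lit 12054430672) (.two (nat_lit 34603009) (nat_lit 12054430672) (.two (nat_lit 1048576) (nat_lit 8392615) (.one (nat_lit 8393564) .nil)))))),
   .two (nat_lit 9936306204) (nat_lit 19530776647) (.two (nat_lit 2353004553) (nat_lit 10538188838) (.two (nat_lit 10504634375) (nat_lit 4194507) (.two (nat_lit 46409973765) (nat_lit 20738736347) (.two (nat_lit 4194305) (nat_lit 2098682) (.two (nat_lit 16777216) (nat_lit 608177512) (.one (nat_lit 608177512) .nil)))))),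
   .two (nat_lit 37320917011) (nat_lit 10436477044) (.two (nat_lit 10436476969) (nat_lit 37320917011) (.two (nat_lit 9966714889) (nat_lit 165532402247) (.two (nat_lit 11543773189) (nat_lit 157043131342) (.two (nat_lit 705691651) (nat_lit 165532402905) (.two (nat_lit 34603009) (nat_lit 8389604) (.two (nat_lit 1048576) (nat_lit 8391079) (.one (nat_lit 8393565) .nil))))))),
   .two (nat_lit 4194319) (nat_lit 218103826) (.two (nat_lit 4194308) (nat_lit 654311651) (.two (nat_lit 4194305) (nat_lit 654311651) (.one (nat_lit 1053534) .nil))),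
   .two (nat_lit 9948889103) (nat_lit 136314998) (.two (nat_lit 185002360840) (nat_lit 46510637418) (.two (nat_lit 159217876997) (nat_lit 3460302050) (.two (nat_lit 16777217) (nat_lit 46980400074) (.two (nat_lit 2097152) (nat_lit 4196778) (.one (nat_lit 16782176) .nil))))),
   .two (nat_lit 83886095) (nat_lit 37253808247) (.two (nat_lit 41943048) (nat_lit 352321727) (.two (nat_lit 8388612) (nat_lit 9881781470) (.two (nat_lit 8388609) (nat_lit 156532474834) (.two (nat_lit 8388608) (nat_lit 68159891) (.one (nat_lit 16782177) .nil))))),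
   .two (nat_lit 20738736194) (nat_lit 10000269334) (.two (nat_lit 1277165583) (nat_lit 10000269334) (.two (nat_lit 9765388297) (nat_lit 166230753637) (.two (nat_lit 10939793413) (nat_lit 166230754120) (.two (nat_lit 605028353) (nat_lit 184417257647) (.two (nat_lit 1048576) (nat_lit 20638075292) (.one (nat_lit 2102114) .nil)))))),
   .two (nat_lit 8388623) (nat_lit 1410334739) (.two (nat_lit 1914699781) (nat_lit 174685422053) (.two (nat_lit 605028353) (nat_lit 19537068542) (.one (nat_lit 8393571) .nil))),
   .two (nat_lit 11610882067) (nat_lit 47548727429) (.two (nat_lit 8388623) (nat_lit 11610882067) (.two (nat_lit 11477712906) (nat_lit 202375265) (.two (nat_lit 713031682) (nat_lit 874514493) (.two (nat_lit 20637024259) (nat_lit 11477713113) (.two (nat_lit 612368385) (nat_lit 2100238) (.two (nat_lit 2097152) (nat_lit 8392617) (.one (nat_lit 8393572) .nil))))))),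
   .two (nat_lit 176160783) (nat_lit 285212708) (.two (nat_lit 176160783) (nat_lit 285212690) (.two (nat_lit 721420296) (nat_lit 46481277026) (.two (nat_lit 20644364290) (nat_lit 1392509775) (.two (nat_lit 50331653) (nat_lit 75497980) (.two (nat_lit 156372041729) (nat_lit 16780303) (.two (nat_lit 8388608) (nat_lit 16781226) (.one (nat_lit 8393573) .nil))))))),
   .two (nat_lit 2961178635) (nat_lit 158647451757) (.two (nat_lit 9940500495) (nat_lit 174753579044) (.two (nat_lit 20638072838) (nat_lit 174692762193) (.two (nat_lit 9940500488) (nat_lit 773849183) (.two (nat_lit 1277165570) (nat_lit 21210596598) (.two (nat_lit 176160773) (nat_lit 35652056) (.two (nat_lit 606076929) (nat_lit 9869199584) (.two (nat_lit 4194304) (nat_lit 8392619) (.one (nat_lit 136319755) .nil)))))))),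
   .two (nat_lit 47548727307) (nat_lit 18933088365) (.two (nat_lit 1753219087) (nat_lit 3457155146) (.two (nat_lit 169869320) (nat_lit 12054429888) (.two (nat_lit 169869320) (nat_lit 21785215071) (.two (nat_lit 169869314) (nat_lit 8390537) (.two (nat_lit 165532401667) (nat_lit 1779434328) (.two (nat_lit 606076929) (nat_lit 847252478) (.two (nat_lit 1048576) (nat_lit 2100463) (.one (nat_lit 1053542) .nil)))))))),
   .two (nat_lit 1343225871) (nat_lit 19029557285) (.two (nat_lit 1343225871) (nat_lit 183949590547) (.two (nat_lit 1343225864) (nat_lit 156971827297) (.two (nat_lit 705691650) (nat_lit 104858919) (.two (nat_lit 705691652) (nat_lit 809500900) (.two (nat_lit 34603009) (nat_lit 3560966334) (.two (nat_lit 1048576) (nat_lit 10372515443) (.one (nat_lit 4198497) .nil))))))),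
   .two (nat_lit 28690087951) (nat_lit 184987680897) (.two (nat_lit 28690087944) (nat_lit 19027460288) (.two (nat_lit 28690087944) (nat_lit 10504634466) (.two (nat_lit 166129041412) (nat_lit 46474985691) (.two (nat_lit 1178599427) (nat_lit 12114198995) (.two (nat_lit 9768534017) (nat_lit 19027461755) (.two (nat_lit 4194304) (nat_lit 2100464) (.one (nat_lit 2101346) .nil))))))),
   .two (nat_lit 1358954511) (nat_lit 20638072905) (.two (nat_lit 713031688) (nat_lit 156365750310) (.two (nat_lit 2887778312) (nat_lit 318767305) (.two (nat_lit 612368387) (nat_lit 218104792) (.two (nat_lit 34603009) (nat_lit 3464496088) (.two (nat_lit 1048576) (nat_lit 8391921) (.one (nat_lit 16782184) .nil)))))),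
   .two (nat_lit 10370416655) (nat_lit 1309671461) (.two (nat_lit 1277165583) (nat_lit 11610882067) (.two (nat_lit 10370416648) (nat_lit 2316304481) (.two (nat_lit 705691650) (nat_lit 2099263) (.two (nat_lit 639631365) (nat_lit 4631560668) (.two (nat_lit 606076929) (nat_lit 1309673698) (.two (nat_lit 1048576) (nat_lit 639633814) (.one (nat_lit 1053545) .nil))))))),
   .two (nat_lit 10336862223) (nat_lit 339738644) (.two (nat_lit 2889875461) (nat_lit 2921332965) (.two (nat_lit 4194305) (nat_lit 159217877500) (.one (nat_lit 4199274) .nil))),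
   .two (nat_lit 620757007) (nat_lit 11543773293) (.two (nat_lit 620757000) (nat_lit 11543773376) (.two (nat_lit 620757000) (nat_lit 168820831) (.two (nat_lit 184549378) (nat_lit 19093521364) (.two (nat_lit 184549380) (nat_lit 158177690070) (.two (nat_lit 2097153) (nat_lit 28690090186) (.two (nat_lit 16777216) (nat_lit 2100467) (.one (nat_lit 2102123) .nil))))))),
   .two (nat_lit 3460300811) (nat_lit 184417255541) (.two (nat_lit 9768534031) (nat_lit 606076948) (.two (nat_lit 46980399112) (nat_lit 740294751) (.two (nat_lit 46407876610) (nat_lit 4195657) (.two (nat_lit 3525312517) (nat_lit 47550824669) (.two (nat_lit 156365750273) (nat_lit 4196602) (.two (nat_lit 4194304) (nat_lit 2101167) (.one (nat_lit 2102124) .nil))))))),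
   .two (nat_lit 169869323) (nat_lit 156465365105) (.two (nat_lit 47548727311) (nat_lit 28757196836) (.two (nat_lit 169869318) (nat_lit 156465365184) (.two (nat_lit 47548727304) (nat_lit 12147753055) (.two (nat_lit 169869314) (nat_lit 158646404313) (.two (nat_lit 169869316) (nat_lit 13187940824) (.two (nat_lit 2097153) (nat_lit 68158414) (.two (nat_lit 2097152) (nat_lit 12147755511) (.one (nat_lit 202380066) .nil)))))))),
   .two (nat_lit 183848927247) (nat_lit 184416206962) (.two (nat_lit 183848927234) (nat_lit 2097640) (.two (nat_lit 9765388289) (nat_lit 46407876837) (.one (nat_lit 1052773) .nil))),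
   .two (nat_lit 16777231) (nat_lit 183949590593) (.two (nat_lit 11479810056) (nat_lit 352321727) (.two (nat_lit 166132187138) (nat_lit 16778078) (.two (nat_lit 18925748227) (nat_lit 12050237229) (.two (nat_lit 156364701697) (nat_lit 3472885213) (.two (nat_lit 1048576) (nat_lit 339742484) (.one (nat_lit 16782190) .nil)))))),
   .two (nat_lit 28757196815) (nat_lit 239075402) (.two (nat_lit 156372041743) (nat_lit 11543773203) (.two (nat_lit 205520904) (nat_lit 183853121633) (.two (nat_lit 705691650) (nat_lit 8389962) (.two (nat_lit 171966469) (nat_lit 183853121754) (.two (nat_lit 37748737) (nat_lit 21777876454) (.two (nat_lit 8388608) (nat_lit 4198321) (.one (nat_lit 4199279) .nil))))))),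
   .two (nat_lit 809500687) (nat_lit 11525947528) (.two (nat_lit 809500680) (nat_lit 4605345889) (.two (nat_lit 46409973762) (nat_lit 2927626476) (.two (nat_lit 1358954501) (nat_lit 9969861084) (.two (nat_lit 156372041729) (nat_lit 165528209633) (.two (nat_lit 16777216) (nat_lit 8391925) (.one (nat_lit 8393584) .nil)))))),
   .two (nat_lit 2953838620) (nat_lit 1916796962) (.two (nat_lit 705691654) (nat_lit 19599982630) (.two (nat_lit 21777874952) (nat_lit 28693233859) (.two (nat_lit 705691652) (nat_lit 28693233883) (.two (nat_lit 34603009) (nat_lit 156971827707) (.two (nat_lit 1048576) (nat_lit 4196785) (.one (nat_lit 4197772) .nil)))))),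
   .two (nat_lit 28690087947) (nat_lit 142606457) (.two (nat_lit 41943055) (nat_lit 11510218771) (.two (nat_lit 159250382857) (nat_lit 10007609439) (.two (nat_lit 166129041410) (nat_lit 8389963) (.two (nat_lit 184986632197) (nat_lit 10376708606) (.two (nat_lit 8388609) (nat_lit 174685423084) (.two (nat_lit 1048576) (nat_lit 612370038) (.one (nat_lit 1053553) .nil))))))),
   .two (nat_lit 184419352591) (nat_lit 183912890481) (.two (nat_lit 1913651208) (nat_lit 1950351967) (.two (nat_lit 11476664324) (nat_lit 1916797147) (.two (nat_lit 34603009) (nat_lit 12117344763) (.two (nat_lit 1048576) (nat_lit 4197623) (.one (nat_lit 183916040277) .nil))))),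
   .two (nat_lit 272629775) (nat_lit 10504634404) (.two (nat_lit 272629775) (nat_lit 3525312530) (.two (nat_lit 272629768) (nat_lit 183947493471) (.two (nat_lit 183848927236) (nat_lit 1948254678) (.two (nat_lit 4194308) (nat_lit 12618563814) (.two (nat_lit 37748737) (nat_lit 1277167222) (.two (nat_lit 2097152) (nat_lit 1950353811) (.one (nat_lit 166132191318) .nil))))))),
   .two (nat_lit 41943055) (nat_lit 10942939259) (.two (nat_lit 156367847432) (nat_lit 8388799) (.two (nat_lit 46409973764) (nat_lit 4598006237) (.two (nat_lit 11476664324) (nat_lit 46414168923) (.two (nat_lit 34603009) (nat_lit 47555021583) (.two (nat_lit 8388608) (nat_lit 605030002) (.one (nat_lit 4199283) .nil)))))),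
   .two (nat_lit 1343225871) (nat_lit 11479810187) (.two (nat_lit 169869318) (nat_lit 183916036135) (.two (nat_lit 117440519) (nat_lit 68157797) (.two (nat_lit 2097157) (nat_lit 183949590747) (.two (nat_lit 2097153) (nat_lit 1212154368) (.two (nat_lit 16777216) (nat_lit 1276118639) (.one (nat_lit 34605557) .nil)))))),
   .two (nat_lit 639631375) (nat_lit 1358954532) (.two (nat_lit 639631375) (nat_lit 11559501842) (.two (nat_lit 1358954504) (nat_lit 740294751) (.two (nat_lit 11492392962) (nat_lit 1914700246) (.two (nat_lit 721420292) (nat_lit 13222543590) (.two (nat_lit 50331649) (nat_lit 2350909046) (.two (nat_lit 16777216) (nat_lit 2350909046) (.one (nat_lit 2102132) .nil))))))),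
   .two (nat_lit 620757007) (nat_lit 28690088003) (.two (nat_lit 620757004) (nat_lit 12114198622) (.two (nat_lit 620757000) (nat_lit 739246273) (.two (nat_lit 1291845634) (nat_lit 174685422886) (.two (nat_lit 83886085) (nat_lit 2416968147) (.two (nat_lit 9781116929) (nat_lit 839910893) (.two (nat_lit 1048576) (nat_lit 16780537) (.one (nat_lit 16782197) .nil))))))),
   .two (nat_lit 4605345807) (nat_lit 2923429954) (.two (nat_lit 4605345800) (nat_lit 19599983186) (.two (nat_lit 8388612) (nat_lit 843055323) (.two (nat_lit 8388612) (nat_lit 4195149) (.two (nat_lit 8388609) (nat_lit 12050236904) (.two (nat_lit 8388608) (nat_lit 4198325) (.one (nat_lit 4198503) .nil)))))),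
   .two (nat_lit 37748751) (nat_lit 183853121602) (.two (nat_lit 37748744) (nat_lit 10947133799) (.two (nat_lit 4194308) (nat_lit 157043130854) (.two (nat_lit 165532401667) (nat_lit 2099083) (.two (nat_lit 4194305) (nat_lit 2099453) (.two (nat_lit 8388608) (nat_lit 2101174) (.one (nat_lit 2102134) .nil)))))),
   .two (nat_lit 19596836879) (nat_lit 156472705098) (.two (nat_lit 47555018767) (nat_lit 1344274454) (.two (nat_lit 612368392) (nat_lit 34603208) (.two (nat_lit 1277165573) (nat_lit 183845782756) (.two (nat_lit 2097153) (nat_lit 8390910) (.two (nat_lit 2097152) (nat_lit 1317014763) (.one (nat_lit 8393491) .nil)))))),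
   .two (nat_lit 1376780307) (nat_lit 11479810169) (.two (nat_lit 11543773199) (nat_lit 37748758) (.two (nat_lit 165528207369) (nat_lit 184986632385) (.two (nat_lit 28693233669) (nat_lit 1947206099) (.two (nat_lit 705691651) (nat_lit 171966946) (.two (nat_lit 34603009) (nat_lit 156569175537) (.two (nat_lit 1048576) (nat_lit 171969914) (.one (nat_lit 1053561) .nil))))))),
   .two (nat_lit 11610882065) (nat_lit 1191182448) (.two (nat_lit 68157448) (nat_lit 9781116966) (.two (nat_lit 68157448) (nat_lit 11492393056) (.two (nat_lit 605028357) (nat_lit 11492393179) (.two (nat_lit 4194305) (nat_lit 1913652189) (.two (nat_lit 4194304) (nat_lit 10016000418) (.one (nat_lit 654314853) .nil)))))),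
   .two (nat_lit 4194319) (nat_lit 285212739) (.two (nat_lit 4194312) (nat_lit 3573547201) (.two (nat_lit 4194308) (nat_lit 839910232) (.two (nat_lit 4194308) (nat_lit 873464290) (.two (nat_lit 37748737) (nat_lit 158091709277) (.two (nat_lit 4194304) (nat_lit 1392512179) (.one (nat_lit 16782202) .nil)))))),
   .two (nat_lit 156968681487) (nat_lit 19599982706) (.two (nat_lit 166129041416) (nat_lit 12050235589) (.two (nat_lit 1350565895) (nat_lit 638582984) (.two (nat_lit 1916796933) (nat_lit 183912890846) (.two (nat_lit 1916796933) (nat_lit 202376015) (.two (nat_lit 9765388289) (nat_lit 158146235614) (.two (nat_lit 4194304) (nat_lit 1052600) (.one (nat_lit 1053563) .nil))))))),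
   .two (nat_lit 21811429400) (nat_lit 203423783) (.two (nat_lit 21777874952) (nat_lit 203423783) (.two (nat_lit 1847590920) (nat_lit 68157643) (.two (nat_lit 11492392963) (nat_lit 1779433950) (.two (nat_lit 50331649) (nat_lit 1779434461) (.two (nat_lit 16777216) (nat_lit 2886732177) (.one (nat_lit 1052050) .nil)))))),
   .two (nat_lit 159224168463) (nat_lit 3558867054) (.two (nat_lit 156365750280) (nat_lit 10007609535) (.two (nat_lit 46978301957) (nat_lit 11618222299) (.two (nat_lit 46407876612) (nat_lit 10007609809) (.two (nat_lit 2097153) (nat_lit 343933901) (.two (nat_lit 16777216) (nat_lit 343935392) (.one (nat_lit 2101356) .nil)))))),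
   .two (nat_lit 1191182351) (nat_lit 4194443) (.two (nat_lit 306184209) (nat_lit 1191182447) (.two (nat_lit 272629768) (nat_lit 117440869) (.two (nat_lit 4194308) (nat_lit 117441352) (.two (nat_lit 4194305) (nat_lit 117442182) (.two (nat_lit 4194304) (nat_lit 16778901) (.one (nat_lit 16782205) .nil)))))),
   .two (nat_lit 218103874) (nat_lit 270532630) (.two (nat_lit 9781116943) (nat_lit 270532630) (.two (nat_lit 19597885449) (nat_lit 654311781) (.two (nat_lit 20638072837) (nat_lit 654312264) (.two (nat_lit 2097153) (nat_lit 654312923) (.two (nat_lit 2097152) (nat_lit 620760228) (.one (nat_lit 2969570649) .nil)))))),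
   .two (nat_lit 272629775) (nat_lit 184993972288) (.two (nat_lit 272629768) (nat_lit 184993972318) (.two (nat_lit 272629768) (nat_lit 184993972317) (.two (nat_lit 4194306) (nat_lit 18933089501) (.two (nat_lit 4194308) (nat_lit 184993972688) (.two (nat_lit 37748737) (nat_lit 12155094509) (.two (nat_lit 4194304) (nat_lit 11584670112) (.one (nat_lit 8393598) .nil))))))),
   .two (nat_lit 11543773199) (nat_lit 18933088367) (.two (nat_lit 11543773192) (nat_lit 46414168161) (.two (nat_lit 705691652) (nat_lit 18933089096) (.two (nat_lit 605028353) (nat_lit 8390870) (.two (nat_lit 1048576) (nat_lit 11618223733) (.one (nat_lit 8392816) .nil))))),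
   .two (nat_lit 11479810063) (nat_lit 1048721) (.two (nat_lit 20737687561) (nat_lit 46477082663) (.two (nat_lit 3539992583) (nat_lit 1279263081) (.two (nat_lit 13187940357) (nat_lit 46510637275) (.two (nat_lit 2097153) (nat_lit 156569174523) (.two (nat_lit 1048576) (nat_lit 4196789) (.one (nat_lit 4197781) .nil)))))),
   .two (nat_lit 117440527) (nat_lit 4027580559) (.two (nat_lit 12617515025) (nat_lit 166245433381) (.two (nat_lit 12047089672) (nat_lit 3036676292) (.two (nat_lit 12047089672) (nat_lit 183861510344) (.two (nat_lit 184986632197) (nat_lit 9915335127) (.two (nat_lit 705691651) (nat_lit 4613735723) (.two (nat_lit 34603009) (nat_lit 16779520) (.two (nat_lit 1048576) (nat_lit 16781242) (.one (nat_lit 855642932) .nil)))))))),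
   .two (nat_lit 158083317775) (nat_lit 2988441666) (.two (nat_lit 47548727304) (nat_lit 19537068232) (.two (nat_lit 20644364292) (nat_lit 9967764296) (.two (nat_lit 156372041729) (nat_lit 12148803759) (.two (nat_lit 8388608) (nat_lit 3525314972) (.one (nat_lit 37314630460) .nil))))),
   .two (nat_lit 18933088271) (nat_lit 169869349) (.two (nat_lit 18933088271) (nat_lit 156365750291) (.two (nat_lit 3458203656) (nat_lit 746586312) (.two (nat_lit 156372041733) (nat_lit 166230754781) (.two (nat_lit 156372041733) (nat_lit 19597885922) (.two (nat_lit 41943041) (nat_lit 158144136669) (.two (nat_lit 8388608) (nat_lit 19597888890) (.one (nat_lit 2102144) .nil))))))),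
   .two (nat_lit 47555018767) (nat_lit 2097237) (.two (nat_lit 773849098) (nat_lit 185027526695) (.two (nat_lit 4605345799) (nat_lit 21781020873) (.two (nat_lit 69206021) (nat_lit 880804059) (.two (nat_lit 2097153) (nat_lit 813695956) (.two (nat_lit 16777216) (nat_lit 8391934) (.one (nat_lit 8392818) .nil)))))),
   .two (nat_lit 3036676117) (nat_lit 183949590640) (.two (nat_lit 620757007) (nat_lit 2889875650) (.two (nat_lit 4194312) (nat_lit 721420505) (.two (nat_lit 184549380) (nat_lit 1178600395) (.two (nat_lit 46422556675) (nat_lit 843056603) (.two (nat_lit 16777217) (nat_lit 306185838) (.two (nat_lit 1048576) (nat_lit 11614029474) (.one (nat_lit 2886734725) .nil))))))),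
   .two (nat_lit 8388685) (nat_lit 46510637123) (.two (nat_lit 272629775) (nat_lit 184993972262) (.two (nat_lit 272629768) (nat_lit 21785215817) (.two (nat_lit 4194308) (nat_lit 10007609851) (.two (nat_lit 4194305) (nat_lit 3028288516) (.two (nat_lit 8388608) (nat_lit 4196851) (.one (nat_lit 20707282351) .nil)))))),
   .two (nat_lit 2994733093) (nat_lit 165528207433) (.two (nat_lit 8388619) (nat_lit 156367848078) (.two (nat_lit 41943055) (nat_lit 4194502) (.two (nat_lit 8388614) (nat_lit 156569174856) (.two (nat_lit 41943048) (nat_lit 11614028248) (.two (nat_lit 8388612) (nat_lit 19130221051) (.two (nat_lit 4194307) (nat_lit 10007610843) (.two (nat_lit 4194305) (nat_lit 165532404897) (.two (nat_lit 4194304) (nat_lit 8392739) (.one (nat_lit 8393648) .nil))))))))),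
   .two (nat_lit 272629827) (nat_lit 243269669) (.two (nat_lit 2889875471) (nat_lit 2894069858) (.two (nat_lit 2889875464) (nat_lit 156372041945) (.two (nat_lit 272629765) (nat_lit 8389591) (.two (nat_lit 272629765) (nat_lit 8388839) (.two (nat_lit 4194305) (nat_lit 142607970) (.two (nat_lit 4194304) (nat_lit 41945588) (.one (nat_lit 176165789) .nil))))))),
   .two (nat_lit 775946259) (nat_lit 28690088055) (.two (nat_lit 2097157) (nat_lit 4601151716) (.one (nat_lit 4197823) .nil)),
   .two (nat_lit 184549442) (nat_lit 176160839) (.two (nat_lit 21785215000) (nat_lit 620757030) (.two (nat_lit 75497480) (nat_lit 620757832) (.two (nat_lit 612368389) (nat_lit 83886587) (.two (nat_lit 41943041) (nat_lit 16778249) (.two (nat_lit 8388608) (nat_lit 16779765) (.one (nat_lit 822087808) .nil)))))),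
   .two (nat_lit 9781117037) (nat_lit 2988441619) (.two (nat_lit 1277165573) (nat_lit 156380431988) (.one (nat_lit 2101404) .nil)),
   .two (nat_lit 272629778) (nat_lit 1411383429) (.two (nat_lit 11543773195) (nat_lit 2350907489) (.two (nat_lit 705691656) (nat_lit 37249614041) (.two (nat_lit 34603013) (nat_lit 46980400743) (.two (nat_lit 34603013) (nat_lit 1916797159) (.two (nat_lit 2097153) (nat_lit 46980400743) (.two (nat_lit 1048576) (nat_lit 10003418529) (.one (nat_lit 2102196) .nil))))))),
   .two (nat_lit 239075393) (nat_lit 2988441667) (.two (nat_lit 46407876623) (nat_lit 183848927328) (.two (nat_lit 11543773207) (nat_lit 16777309) (.two (nat_lit 705691656) (nat_lit 10015998427) (.two (nat_lit 272629773) (nat_lit 183846830297) (.two (nat_lit 272629765) (nat_lit 156380431305) (.two (nat_lit 2956984325) (nat_lit 3558867923) (.two (nat_lit 9768534017) (nat_lit 35654806) (.two (nat_lit 2097152) (nat_lit 184986635609) (.one (nat_lit 4199349) .nil))))))))),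
   .two (nat_lit 721420354) (nat_lit 184993972262) (.two (nat_lit 721420303) (nat_lit 184993972262) (.two (nat_lit 713031688) (nat_lit 16777435) (.two (nat_lit 41943045) (nat_lit 721420797) (.two (nat_lit 41943041) (nat_lit 721421317) (.two (nat_lit 8388608) (nat_lit 184552784) (.one (nat_lit 3028292592) .nil)))))),
   .two (nat_lit 1191182447) (nat_lit 159217877030) (.two (nat_lit 1191182351) (nat_lit 159217877030) (.two (nat_lit 606076936) (nat_lit 285212891) (.two (nat_lit 169869316) (nat_lit 11492393469) (.two (nat_lit 2097153) (nat_lit 11492393989) (.two (nat_lit 4194304) (nat_lit 16780636) (.one (nat_lit 2102260) .nil)))))),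
   .two (nat_lit 8388674) (nat_lit 184986632226) (.two (nat_lit 8388674) (nat_lit 21777874979) (.two (nat_lit 8388623) (nat_lit 1745879231) (.two (nat_lit 41943048) (nat_lit 1376780753) (.two (nat_lit 16777223) (nat_lit 166196151564) (.two (nat_lit 713031685) (nat_lit 1947206601) (.two (nat_lit 16777219) (nat_lit 10913579986) (.two (nat_lit 41943041) (nat_lit 1051018) (.two (nat_lit 16777216) (nat_lit 1417678863) (.one (nat_lit 1384124551) .nil))))))))),
   .two (nat_lit 9866051604) (nat_lit 28764536949) (.two (nat_lit 28086108175) (nat_lit 158083317855) (.two (nat_lit 28086108168) (nat_lit 9974055142) (.two (nat_lit 21207449605) (nat_lit 159224170087) (.two (nat_lit 1745879045) (nat_lit 9974055142) (.two (nat_lit 605028353) (nat_lit 159224170087) (.two (nat_lit 1048576) (nat_lit 8391158) (.one (nat_lit 1053624) .nil))))))),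
   .two (nat_lit 239075348) (nat_lit 4632609018) (.two (nat_lit 4601151552) (nat_lit 157036838948) (.two (nat_lit 157036838927) (nat_lit 4601151582) (.two (nat_lit 4601151503) (nat_lit 21208498271) (.two (nat_lit 46409973766) (nat_lit 236978640) (.two (nat_lit 4601151496) (nat_lit 1310720218) (.two (nat_lit 46409973762) (nat_lit 2988443105) (.two (nat_lit 46409973764) (nat_lit 19027461064) (.two (nat_lit 4194305) (nat_lit 773851526) (.two (nat_lit 4194304) (nat_lit 11511270741) (.one (nat_lit 4199354) .nil)))))))))),
   .two (nat_lit 11559501860) (nat_lit 3021996145) (.two (nat_lit 37748751) (nat_lit 721420326) (.two (nat_lit 37748751) (nat_lit 16777312) (.two (nat_lit 11492392966) (nat_lit 159217877832) (.two (nat_lit 11492392968) (nat_lit 13191086545) (.two (nat_lit 11492392964) (nat_lit 20638073339) (.two (nat_lit 9948889093) (nat_lit 166230754783) (.two (nat_lit 9781116929) (nat_lit 1916800145) (.two (nat_lit 16777216) (nat_lit 11578378725) (.one (nat_lit 352325780) .nil))))))))),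
   .two (nat_lit 270532723) (nat_lit 809500709) (.two (nat_lit 2887778319) (nat_lit 19130220639) (.two (nat_lit 2887778312) (nat_lit 9869197822) (.two (nat_lit 46409973762) (nat_lit 202377398) (.two (nat_lit 270532613) (nat_lit 9869197822) (.two (nat_lit 156367847425) (nat_lit 135269521) (.two (nat_lit 4194304) (nat_lit 2100573) (.one (nat_lit 2102203) .nil))))))),
   .two (nat_lit 272629824) (nat_lit 166129041446) (.two (nat_lit 176160783) (nat_lit 19096666151) (.two (nat_lit 10503585808) (nat_lit 13224640703) (.two (nat_lit 166129041416) (nat_lit 4634706142) (.two (nat_lit 3539992583) (nat_lit 612369224) (.two (nat_lit 3464495109) (nat_lit 9869197824) (.two (nat_lit 2902458371) (nat_lit 159216829390) (.two (nat_lit 16777217) (nat_lit 21207451233) (.two (nat_lit 16777216) (nat_lit 8392030) (.one (nat_lit 4199356) .nil))))))))),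
   .two (nat_lit 809500739) (nat_lit 4638900262) (.two (nat_lit 4638900290) (nat_lit 809500707) (.two (nat_lit 276824079) (nat_lit 272629856) (.two (nat_lit 2097168) (nat_lit 343933119) (.two (nat_lit 169869320) (nat_lit 343933393) (.two (nat_lit 2097159) (nat_lit 746587398) (.two (nat_lit 713031682) (nat_lit 1050085) (.two (nat_lit 705691651) (nat_lit 157036841135) (.two (nat_lit 34603009) (nat_lit 11477715339) (.two (nat_lit 1048576) (nat_lit 10001321290) (.one (nat_lit 168824948) .nil)))))))))),
   .two (nat_lit 343932949) (nat_lit 158646403185) (.two (nat_lit 3021996069) (nat_lit 11543773303) (.two (nat_lit 813694991) (nat_lit 158646403264) (.two (nat_lit 813694991) (nat_lit 11577327713) (.two (nat_lit 813694984) (nat_lit 10503586264) (.two (nat_lit 813694984) (nat_lit 11577327833) (.two (nat_lit 1176502277) (nat_lit 1410335694) (.two (nat_lit 46414168067) (nat_lit 806355923) (.two (nat_lit 41943041) (nat_lit 202377607) (.two (nat_lit 8388608) (nat_lit 1051999) (.one (nat_lit 8393661) .nil)))))))))),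
   .two (nat_lit 8388626) (nat_lit 772800627) (.two (nat_lit 8388672) (nat_lit 184416206885) (.two (nat_lit 41943055) (nat_lit 1276117190) (.two (nat_lit 184986632207) (nat_lit 8388701) (.two (nat_lit 41943048) (nat_lit 10537140696) (.two (nat_lit 8388616) (nat_lit 135266521) (.two (nat_lit 713031684) (nat_lit 185020188123) (.two (nat_lit 41943041) (nat_lit 135269537) (.two (nat_lit 8388608) (nat_lit 9866054999) (.one (nat_lit 11543778225) .nil))))))))),
   .two (nat_lit 1212153923) (nat_lit 20753416263) (.two (nat_lit 9781116943) (nat_lit 9802088486) (.two (nat_lit 9781116936) (nat_lit 11513364699) (.two (nat_lit 2902458372) (nat_lit 1212154363) (.two (nat_lit 4194305) (nat_lit 11559502852) (.two (nat_lit 4194304) (nat_lit 16779769) (.one (nat_lit 156581760419) .nil)))))),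
   .two (nat_lit 176160786) (nat_lit 236978289) (.two (nat_lit 8388623) (nat_lit 1310720097) (.two (nat_lit 8388616) (nat_lit 1310720217) (.two (nat_lit 176160772) (nat_lit 1210058402) (.two (nat_lit 176160772) (nat_lit 46474985699) (.two (nat_lit 8388609) (nat_lit 1210058402) (.two (nat_lit 8388608) (nat_lit 1210058402) (.one (nat_lit 2102206) .nil))))))),
   .two (nat_lit 156569174125) (nat_lit 772800531) (.two (nat_lit 156968681477) (nat_lit 3560964610) (.one (nat_lit 4199359) .nil)),
   .two (nat_lit 4605345856) (nat_lit 13224640587) (.two (nat_lit 9768534031) (nat_lit 310378687) (.two (nat_lit 205520904) (nat_lit 13228835045) (.two (nat_lit 2889875460) (nat_lit 10503586779) (.two (nat_lit 713031684) (nat_lit 1343226364) (.two (nat_lit 156364701697) (nat_lit 843056741) (.two (nat_lit 4194304) (nat_lit 1317014938) (.one (nat_lit 2923434912) .nil))))))),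
   .two (nat_lit 9802088560) (nat_lit 2350907429) (.two (nat_lit 18928893967) (nat_lit 2097352) (.two (nat_lit 18928893960) (nat_lit 19027460313) (.two (nat_lit 46407876612) (nat_lit 9969861586) (.two (nat_lit 46407876611) (nat_lit 18928894183) (.two (nat_lit 37748737) (nat_lit 156567078501) (.two (nat_lit 4194304) (nat_lit 304089574) (.one (nat_lit 10338963582) .nil))))))),
   .two (nat_lit 46409973778) (nat_lit 28791800062) (.two (nat_lit 157036838927) (nat_lit 166132187231) (.two (nat_lit 156367847432) (nat_lit 19027460314) (.two (nat_lit 4194306) (nat_lit 2098662) (.two (nat_lit 46409973765) (nat_lit 3525312740) (.two (nat_lit 2097153) (nat_lit 4196748) (.two (nat_lit 2097152) (nat_lit 4196858) (.one (nat_lit 2102209) .nil))))))),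
   .two (nat_lit 184423546900) (nat_lit 2923429909) (.two (nat_lit 1277165570) (nat_lit 4195292) (.one (nat_lit 8392874) .nil)),
   .two (nat_lit 47588573221) (nat_lit 4598005794) (.two (nat_lit 8388623) (nat_lit 184986632230) (.two (nat_lit 8388623) (nat_lit 4598005856) (.two (nat_lit 16777224) (nat_lit 2887779144) (.two (nat_lit 8388612) (nat_lit 4599054843) (.two (nat_lit 16777220) (nat_lit 269485001) (.two (nat_lit 8388609) (nat_lit 3573548657) (.two (nat_lit 16777216) (nat_lit 2100577) (.one (nat_lit 8393666) .nil)))))))),
   .two (nat_lit 272629778) (nat_lit 9867100284) (.two (nat_lit 11543773195) (nat_lit 102760546) (.two (nat_lit 68157448) (nat_lit 10940842201) (.two (nat_lit 605028357) (nat_lit 10370417623) (.two (nat_lit 605028357) (nat_lit 166197199079) (.two (nat_lit 4194305) (nat_lit 11611932276) (.two (nat_lit 1048576) (nat_lit 706743728) (.one (nat_lit 1413485458) .nil))))))),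
   .two (nat_lit 272629778) (nat_lit 4647288950) (.two (nat_lit 2902458372) (nat_lit 10003415270) (.one (nat_lit 4198571) .nil)),
   .two (nat_lit 2923429955) (nat_lit 3573547079) (.two (nat_lit 10385096815) (nat_lit 46409973795) (.two (nat_lit 10385096719) (nat_lit 1212154051) (.two (nat_lit 9948889104) (nat_lit 46409973954) (.two (nat_lit 4601151496) (nat_lit 9881781065) (.two (nat_lit 4194308) (nat_lit 159232558030) (.two (nat_lit 4194307) (nat_lit 11559504075) (.two (nat_lit 4194305) (nat_lit 184551819) (.two (nat_lit 16777216) (nat_lit 4197730) (.one (nat_lit 4199363) .nil))))))))),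
   .two (nat_lit 46489665555) (nat_lit 1277165687) (.two (nat_lit 166211878949) (nat_lit 1277165687) (.two (nat_lit 654311439) (nat_lit 35651785) (.two (nat_lit 157036838927) (nat_lit 165540790474) (.two (nat_lit 46407876616) (nat_lit 13203669469) (.two (nat_lit 46407876616) (nat_lit 11492393177) (.two (nat_lit 46407876612) (nat_lit 46422557653) (.two (nat_lit 4599054341) (nat_lit 1191183323) (.two (nat_lit 2097153) (nat_lit 9781118570) (.two (nat_lit 1048576) (nat_lit 352324950) (.one (nat_lit 1052807) .nil)))))))))),
   .two (nat_lit 620757026) (nat_lit 1343225890) (.two (nat_lit 16777231) (nat_lit 101711910) (.two (nat_lit 16777224) (nat_lit 9866051803) (.two (nat_lit 184549381) (nat_lit 168821248) (.two (nat_lit 8388609) (nat_lit 11626611721) (.two (nat_lit 8388608) (nat_lit 352325674) (.one (nat_lit 16782277) .nil)))))),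
   .two (nat_lit 3464495217) (nat_lit 3525312532) (.two (nat_lit 169869316) (nat_lit 4034920962) (.one (nat_lit 8393670) .nil)),
   .two (nat_lit 218103827) (nat_lit 20704133233) (.two (nat_lit 9781116943) (nat_lit 21207449698) (.two (nat_lit 9866051592) (nat_lit 11492393177) (.two (nat_lit 1191182341) (nat_lit 605029331) (.two (nat_lit 68157443) (nat_lit 156581757159) (.two (nat_lit 16777217) (nat_lit 10000270968) (.two (nat_lit 16777216) (nat_lit 10000272717) (.one (nat_lit 1053640) .nil))))))),
   .two (nat_lit 20638072899) (nat_lit 159219974183) (.two (nat_lit 156367847439) (nat_lit 2954887206) (.two (nat_lit 2889875473) (nat_lit 673185888) (.two (nat_lit 205520904) (nat_lit 673186014) (.two (nat_lit 9768534023) (nat_lit 21777875785) (.two (nat_lit 203423749) (nat_lit 1916797445) (.two (nat_lit 2097155) (nat_lit 306185162) (.two (nat_lit 2097153) (nat_lit 4196750) (.two (nat_lit 1048576) (nat_lit 2100579) (.one (nat_lit 1052844) .nil))))))))),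
   .two (nat_lit 310378562) (nat_lit 2923429907) (.two (nat_lit 46409973764) (nat_lit 156372041955) (.one (nat_lit 8392877) .nil)),
   .two (nat_lit 9934209091) (nat_lit 641728549) (.two (nat_lit 1277165583) (nat_lit 47581233249) (.two (nat_lit 1277165576) (nat_lit 47581233369) (.two (nat_lit 1343225861) (nat_lit 2098653) (.two (nat_lit 9934209029) (nat_lit 1276117223) (.two (nat_lit 9765388289) (nat_lit 46474987109) (.two (nat_lit 1048576) (nat_lit 11479812640) (.one (nat_lit 1053641) .nil))))))),
   .two (nat_lit 8388629) (nat_lit 2319450185) (.two (nat_lit 2889875491) (nat_lit 243269669) (.two (nat_lit 272629775) (nat_lit 11551113414) (.two (nat_lit 2889875472) (nat_lit 156372041825) (.two (nat_lit 4601151496) (nat_lit 343933768) (.two (nat_lit 8388610) (nat_lit 2319452648) (.two (nat_lit 37748739) (nat_lit 1753221302) (.two (nat_lit 41943041) (nat_lit 4197579) (.two (nat_lit 4194304) (nat_lit 8392751) (.one (nat_lit 8393674) .nil))))))))),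
   .two (nat_lit 47582281747) (nat_lit 1279262849) (.two (nat_lit 169869316) (nat_lit 4601151716) (.one (nat_lit 4197823) .nil)),
   .two (nat_lit 159217877059) (nat_lit 166132187174) (.two (nat_lit 20638072847) (nat_lit 46477082662) (.two (nat_lit 46477082641) (nat_lit 2988441696) (.two (nat_lit 205520904) (nat_lit 2988441822) (.two (nat_lit 9768534023) (nat_lit 19597885909) (.two (nat_lit 10506731525) (nat_lit 4599055313) (.two (nat_lit 1276116995) (nat_lit 20638074338) (.two (nat_lit 605028353) (nat_lit 159217880479) (.two (nat_lit 1048576) (nat_lit 136318307) (.one (nat_lit 2101424) .nil))))))))),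
   .two (nat_lit 889192468) (nat_lit 4601151552) (.two (nat_lit 754974735) (nat_lit 47547678817) (.two (nat_lit 4194312) (nat_lit 50331868) (.two (nat_lit 11492392964) (nat_lit 638583762) (.two (nat_lit 4194308) (nat_lit 3539993087) (.two (nat_lit 37748737) (nat_lit 9866053240) (.two (nat_lit 8388608) (nat_lit 336597109) (.one (nat_lit 336597109) .nil))))))),
   .two (nat_lit 1216348197) (nat_lit 2349858926) (.two (nat_lit 184416206859) (nat_lit 10343153855) (.two (nat_lit 28093448207) (nat_lit 156465365184) (.two (nat_lit 183845781510) (nat_lit 10343154504) (.two (nat_lit 19596836872) (nat_lit 209715672) (.two (nat_lit 183845781508) (nat_lit 10343155163) (.two (nat_lit 34603009) (nat_lit 19033754769) (.two (nat_lit 1048576) (nat_lit 8392038) (.one (nat_lit 11510222973) .nil)))))))),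
   .two (nat_lit 166129041445) (nat_lit 12117344369) (.two (nat_lit 20737687571) (nat_lit 19130220582) (.two (nat_lit 1916796943) (nat_lit 20704133312) (.two (nat_lit 156364701705) (nat_lit 19130221384) (.two (nat_lit 28757196808) (nat_lit 3024093656) (.two (nat_lit 1846542341) (nat_lit 156569174523) (.two (nat_lit 166129041411) (nat_lit 156569175515) (.two (nat_lit 605028353) (nat_lit 1212157102) (.two (nat_lit 1048576) (nat_lit 46409977190) (.one (nat_lit 174685425789) .nil))))))))),
   .two (nat_lit 2954887186) (nat_lit 10436477040) (.two (nat_lit 2954887204) (nat_lit 28690087973) (.two (nat_lit 2954887179) (nat_lit 12047089860) (.two (nat_lit 2954887183) (nat_lit 21207449794) (.two (nat_lit 169869318) (nat_lit 11610882525) (.two (nat_lit 2954887176) (nat_lit 2349859033) (.two (nat_lit 169869314) (nat_lit 156968683698) (.two (nat_lit 169869316) (nat_lit 739247051) (.two (nat_lit 606076929) (nat_lit 1947207274) (.two (nat_lit 2097152) (nat_lit 4598008306) (.one (nat_lit 1053643) .nil)))))))))),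
   .two (nat_lit 20644364355) (nat_lit 185023332420) (.two (nat_lit 4634705944) (nat_lit 159224168486) (.two (nat_lit 4601151496) (nat_lit 159224169288) (.two (nat_lit 4194308) (nat_lit 20644364795) (.two (nat_lit 4194305) (nat_lit 28764537348) (.two (nat_lit 4194304) (nat_lit 11014244851) (.one (nat_lit 843058612) .nil)))))),
   .two (nat_lit 12117344337) (nat_lit 12163481639) (.two (nat_lit 159219974172) (nat_lit 159232557095) (.two (nat_lit 4194312) (nat_lit 1291845851) (.two (nat_lit 4194308) (nat_lit 10385097211) (.two (nat_lit 4194305) (nat_lit 11626611720) (.two (nat_lit 4194304) (nat_lit 1051112) (.one (nat_lit 2365590954) .nil)))))),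
   .two (nat_lit 159217877028) (nat_lit 8388672) (.two (nat_lit 159217877007) (nat_lit 8388799) (.two (nat_lit 20638072838) (nat_lit 101712712) (.two (nat_lit 2961178632) (nat_lit 159251431889) (.two (nat_lit 21208498181) (nat_lit 1779433979) (.two (nat_lit 20638072836) (nat_lit 713032653) (.two (nat_lit 612368385) (nat_lit 202378414) (.two (nat_lit 1048576) (nat_lit 12148804069) (.one (nat_lit 9940504731) .nil)))))))),
   .two (nat_lit 46477082644) (nat_lit 34603144) (.two (nat_lit 8388672) (nat_lit 11610882117) (.two (nat_lit 4601151512) (nat_lit 8388702) (.two (nat_lit 4601151512) (nat_lit 8388701) (.two (nat_lit 705691657) (nat_lit 75498312) (.two (nat_lit 1376780301) (nat_lit 9869197529) (.two (nat_lit 1745879045) (nat_lit 41944013) (.two (nat_lit 1913651205) (nat_lit 679478226) (.two (nat_lit 156364701697) (nat_lit 9768535658) (.two (nat_lit 1048576) (nat_lit 4198450) (.one (nat_lit 1053645) .nil)))))))))),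
   .two (nat_lit 158083317779) (nat_lit 2988441619) (.two (nat_lit 169869316) (nat_lit 9906946279) (.one (nat_lit 8392884) .nil)),
   .two (nat_lit 9940500517) (nat_lit 1746927683) (.two (nat_lit 185002360847) (nat_lit 174688567654) (.two (nat_lit 20638072838) (nat_lit 174688568528) (.two (nat_lit 158077026312) (nat_lit 8389080) (.two (nat_lit 20638072836) (nat_lit 158150427131) (.two (nat_lit 20638072836) (nat_lit 158146233289) (.two (nat_lit 156365750273) (nat_lit 158083320979) (.two (nat_lit 2097152) (nat_lit 8392757) (.one (nat_lit 8393680) .nil)))))))),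
   .two (nat_lit 3028287555) (nat_lit 47596961830) (.two (nat_lit 8388623) (nat_lit 47596961830) (.two (nat_lit 8388616) (nat_lit 10552869086) (.two (nat_lit 8388612) (nat_lit 822084100) (.two (nat_lit 8388609) (nat_lit 822084100) (.two (nat_lit 8388608) (nat_lit 12047093162) (.one (nat_lit 12047093162) .nil)))))),
   .two (nat_lit 1847590978) (nat_lit 156968681510) (.two (nat_lit 28690087951) (nat_lit 10940842022) (.two (nat_lit 28690087951) (nat_lit 21208498272) (.two (nat_lit 28690087944) (nat_lit 21208498395) (.two (nat_lit 4613734407) (nat_lit 136315729) (.two (nat_lit 1913651205) (nat_lit 28758246409) (.two (nat_lit 16777219) (nat_lit 18926798318) (.two (nat_lit 9766436865) (nat_lit 2953841128) (.two (nat_lit 16777216) (nat_lit 156567081009) (.one (nat_lit 2102225) .nil))))))))),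
   .two (nat_lit 183845781525) (nat_lit 46510637075) (.two (nat_lit 2889875460) (nat_lit 13187940580) (.one (nat_lit 174685425804) .nil)),
   .two (nat_lit 4601151526) (nat_lit 8388748) (.two (nat_lit 11618222097) (nat_lit 4601151526) (.two (nat_lit 50331655) (nat_lit 109052382) (.two (nat_lit 50331651) (nat_lit 10947134425) (.two (nat_lit 50331649) (nat_lit 8390265) (.two (nat_lit 1048576) (nat_lit 8392040) (.one (nat_lit 8392887) .nil)))))),
   .two (nat_lit 9934209059) (nat_lit 10343153698) (.two (nat_lit 1277165583) (nat_lit 47555018790) (.two (nat_lit 1277165583) (nat_lit 10343153760) (.two (nat_lit 1277165576) (nat_lit 10343153883) (.two (nat_lit 9934209031) (nat_lit 8389458) (.two (nat_lit 9934209029) (nat_lit 3028287997) (.two (nat_lit 606076931) (nat_lit 10343154633) (.two (nat_lit 606076929) (nat_lit 4605348332) (.two (nat_lit 16777216) (nat_lit 142610461) (.one (nat_lit 2101432) .nil))))))))),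
   .two (nat_lit 3458203761) (nat_lit 847249428) (.two (nat_lit 713031685) (nat_lit 304087268) (.one (nat_lit 158075982799) .nil)),
   .two (nat_lit 236978195) (nat_lit 165540790391) (.two (nat_lit 46407876612) (nat_lit 4647289060) (.one (nat_lit 352325805) .nil)),
   .two (nat_lit 8388626) (nat_lit 46407876627) (.two (nat_lit 10504634373) (nat_lit 1417674980) (.one (nat_lit 2102227) .nil)),
   .two (nat_lit 11618222196) (nat_lit 9934209043) (.two (nat_lit 705691650) (nat_lit 2098671) (.one (nat_lit 8393684) .nil)),
   .two (nat_lit 12054429761) (nat_lit 739246159) (.two (nat_lit 11543773199) (nat_lit 780140582) (.two (nat_lit 705691656) (nat_lit 21785215195) (.two (nat_lit 34603013) (nat_lit 184993972731) (.two (nat_lit 8388609) (nat_lit 165526111240) (.two (nat_lit 1048576) (nat_lit 2101302) (.one (nat_lit 3022000279) .nil)))))),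
   .two (nat_lit 713031698) (nat_lit 174753579131) (.two (nat_lit 75497581) (nat_lit 788529189) (.two (nat_lit 13203669007) (nat_lit 742392000) (.two (nat_lit 11479810063) (nat_lit 2894069954) (.two (nat_lit 13203669000) (nat_lit 46409974232) (.two (nat_lit 3458203656) (nat_lit 9869197529) (.two (nat_lit 16777220) (nat_lit 11544822729) (.two (nat_lit 16777220) (nat_lit 11477713864) (.two (nat_lit 16777217) (nat_lit 740296287) (.two (nat_lit 16777216) (nat_lit 4197738) (.one (nat_lit 171971497) .nil)))))))))),
   .two (nat_lit 12117344369) (nat_lit 166129041445) (.two (nat_lit 11479810063) (nat_lit 1410334920) (.two (nat_lit 9866051592) (nat_lit 156971827417) (.two (nat_lit 1343225861) (nat_lit 156569175003) (.two (nat_lit 1343225861) (nat_lit 809500900) (.two (nat_lit 605028353) (nat_lit 1212157102) (.two (nat_lit 1048576) (nat_lit 4196862) (.one (nat_lit 9966719102) .nil))))))),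
   .two (nat_lit 847249428) (nat_lit 1376780420) (.two (nat_lit 11584667672) (nat_lit 303038559) (.two (nat_lit 41943048) (nat_lit 10336862439) (.two (nat_lit 176160770) (nat_lit 1050099) (.two (nat_lit 8388612) (nat_lit 10336862439) (.two (nat_lit 612368385) (nat_lit 1846544890) (.two (nat_lit 8388608) (nat_lit 1846544890) (.one (nat_lit 8393691) .nil))))))),
   .two (nat_lit 1426063380) (nat_lit 158177689638) (.two (nat_lit 158158815298) (nat_lit 158144135262) (.two (nat_lit 158158815298) (nat_lit 158144135261) (.two (nat_lit 1291845643) (nat_lit 12150899528) (.two (nat_lit 11551113231) (nat_lit 16777689) (.two (nat_lit 713031686) (nat_lit 150995913) (.two (nat_lit 1350565896) (nat_lit 304088018) (.two (nat_lit 713031682) (nat_lit 10336863841) (.two (nat_lit 708837379) (nat_lit 142607978) (.two (nat_lit 37748737) (nat_lit 185021237732) (.two (nat_lit 2097152) (nat_lit 183916039582) (.one (nat_lit 2954891455) .nil))))))))))),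
   .two (nat_lit 721420306) (nat_lit 183853121633) (.two (nat_lit 156372041743) (nat_lit 1795162329) (.two (nat_lit 721420301) (nat_lit 310378724) (.two (nat_lit 721420293) (nat_lit 13228836453) (.two (nat_lit 8388609) (nat_lit 37262198433) (.two (nat_lit 8388608) (nat_lit 11593058840) (.one (nat_lit 16781529) .nil)))))),
   .two (nat_lit 4194369) (nat_lit 343932966) (.two (nat_lit 4194369) (nat_lit 10007609440) (.two (nat_lit 4194319) (nat_lit 8389082) (.two (nat_lit 4605345800) (nat_lit 605028859) (.two (nat_lit 2887778312) (nat_lit 2927625173) (.two (nat_lit 4194308) (nat_lit 156969730564) (.two (nat_lit 2097157) (nat_lit 1782580847) (.two (nat_lit 2097153) (nat_lit 28093450727) (.two (nat_lit 1048576) (nat_lit 19128127609) (.one (nat_lit 18925752512) .nil))))))))),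
   .two (nat_lit 183962173461) (nat_lit 3028287584) (.two (nat_lit 41943075) (nat_lit 9881780321) (.two (nat_lit 11492392971) (nat_lit 1417675592) (.two (nat_lit 713031695) (nat_lit 9881780441) (.two (nat_lit 11492392966) (nat_lit 176161739) (.two (nat_lit 41943047) (nat_lit 13237223652) (.two (nat_lit 11492392962) (nat_lit 46414170596) (.two (nat_lit 11492392963) (nat_lit 12155094690) (.two (nat_lit 50331649) (nat_lit 1753222558) (.two (nat_lit 16777216) (nat_lit 2927627677) (.one (nat_lit 8393722) .nil)))))))))),
   .two (nat_lit 8388644) (nat_lit 606076966) (.two (nat_lit 608174114) (nat_lit 8388702) (.two (nat_lit 4194319) (nat_lit 8388830) (.two (nat_lit 4194310) (nat_lit 9765388795) (.two (nat_lit 2097159) (nat_lit 8390113) (.two (nat_lit 4194308) (nat_lit 806355977) (.two (nat_lit 4194308) (nat_lit 10369369711) (.two (nat_lit 2097153) (nat_lit 4196844) (.two (nat_lit 1048576) (nat_lit 11611934862) (.one (nat_lit 1053691) .nil))))))))),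
   .two (nat_lit 8388626) (nat_lit 68157478) (.two (nat_lit 11610882113) (nat_lit 8388702) (.two (nat_lit 11610882113) (nat_lit 8388701) (.two (nat_lit 4194315) (nat_lit 276824532) (.two (nat_lit 37748751) (nat_lit 8389083) (.two (nat_lit 4194310) (nat_lit 9772729289) (.two (nat_lit 2097159) (nat_lit 10376709064) (.two (nat_lit 4194306) (nat_lit 28690089569) (.two (nat_lit 13187940357) (nat_lit 9768535658) (.two (nat_lit 2097153) (nat_lit 1051108) (.two (nat_lit 1048576) (nat_lit 2954890654) (.one (nat_lit 1745883327) .nil))))))))))),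
   .two (nat_lit 11610882113) (nat_lit 8388702) (.two (nat_lit 11610882113) (nat_lit 8388701) (.two (nat_lit 37748751) (nat_lit 8389083) (.two (nat_lit 41943056) (nat_lit 20738736356) (.two (nat_lit 4194310) (nat_lit 2921333715) (.two (nat_lit 8388616) (nat_lit 28089254398) (.two (nat_lit 13187940357) (nat_lit 9768535658) (.two (nat_lit 4194307) (nat_lit 2098802) (.two (nat_lit 156364701697) (nat_lit 2954890654) (.two (nat_lit 2097152) (nat_lit 4197804) (.one (nat_lit 2102271) .nil)))))))))),
   .two (nat_lit 1410334740) (nat_lit 20705181889) (.two (nat_lit 47548727311) (nat_lit 739246297) (.two (nat_lit 9934209032) (nat_lit 159250383076) (.two (nat_lit 1276116994) (nat_lit 2098803) (.two (nat_lit 605028353) (nat_lit 158144138649) (.two (nat_lit 1048576) (nat_lit 158144138649) (.one (nat_lit 1053696) .nil)))))),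
   .two (nat_lit 184993972290) (nat_lit 4194342) (.two (nat_lit 4194312) (nat_lit 46414168576) (.two (nat_lit 171966469) (nat_lit 12054430729) (.two (nat_lit 1048576) (nat_lit 276828354) (.one (nat_lit 276828354) .nil)))),
   .two (nat_lit 1310720113) (nat_lit 10385096742) (.two (nat_lit 10385096712) (nat_lit 158144136201) (.two (nat_lit 9948889093) (nat_lit 12618564100) (.two (nat_lit 2097152) (nat_lit 16780717) (.one (nat_lit 270536910) .nil)))),
   .two (nat_lit 620757104) (nat_lit 202375207) (.two (nat_lit 721420296) (nat_lit 12147753476) (.two (nat_lit 50331653) (nat_lit 12147753476) (.two (nat_lit 8388608) (nat_lit 1276121303) (.one (nat_lit 1276121303) .nil)))),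
   .two (nat_lit 10015998019) (nat_lit 11479810086) (.two (nat_lit 641728520) (nat_lit 874512896) (.two (nat_lit 2889875460) (nat_lit 10015998985) (.two (nat_lit 2097152) (nat_lit 4613738624) (.one (nat_lit 2887782593) .nil)))),
   .two (nat_lit 11492393073) (nat_lit 185021235239) (.two (nat_lit 606076936) (nat_lit 9781117961) (.two (nat_lit 169869316) (nat_lit 9781117961) (.two (nat_lit 4194304) (nat_lit 9934212515) (.one (nat_lit 807407817) .nil)))),
   .two (nat_lit 272629824) (nat_lit 46508539942) (.two (nat_lit 8388642) (nat_lit 336592992) (.two (nat_lit 713031695) (nat_lit 874512606) (.two (nat_lit 183845781512) (nat_lit 1178599931) (.two (nat_lit 183845781512) (nat_lit 809501645) (.two (nat_lit 41943045) (nat_lit 608175110) (.two (nat_lit 183845781508) (nat_lit 21208499809) (.two (nat_lit 612368385) (nat_lit 174753581543) (.two (nat_lit 8388608) (nat_lit 1052820) (.one (nat_lit 1052890) .nil))))))))),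
   .two (nat_lit 272629826) (nat_lit 183913939041) (.two (nat_lit 37748751) (nat_lit 21818769637) (.two (nat_lit 37748744) (nat_lit 21818769637) (.two (nat_lit 46407876610) (nat_lit 8390262) (.two (nat_lit 612368385) (nat_lit 12050237929) (.two (nat_lit 4194304) (nat_lit 8392113) (.one (nat_lit 8393734) .nil)))))),
   .two (nat_lit 184549442) (nat_lit 159224168486) (.two (nat_lit 612368392) (nat_lit 184549885) (.two (nat_lit 16777221) (nat_lit 28764537348) (.two (nat_lit 8388608) (nat_lit 889195944) (.one (nat_lit 880808944) .nil)))),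
   .two (nat_lit 4030726164) (nat_lit 158646403169) (.two (nat_lit 4601151503) (nat_lit 183912890585) (.two (nat_lit 28690087944) (nat_lit 306184419) (.two (nat_lit 13191086085) (nat_lit 156532475554) (.two (nat_lit 37748737) (nat_lit 9966716578) (.two (nat_lit 4194304) (nat_lit 183946447384) (.one (nat_lit 1053703) .nil)))))),
   .two (nat_lit 11559501842) (nat_lit 772800609) (.two (nat_lit 174752530447) (nat_lit 16777433) (.two (nat_lit 721420296) (nat_lit 21777875172) (.two (nat_lit 721420292) (nat_lit 11610883685) (.two (nat_lit 605028353) (nat_lit 156380432033) (.two (nat_lit 1048576) (nat_lit 754977306) (.one (nat_lit 2969571531) .nil)))))),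
   .two (nat_lit 809500692) (nat_lit 158646403169) (.two (nat_lit 184419352600) (nat_lit 37313577187) (.two (nat_lit 13191086088) (nat_lit 1913651428) (.two (nat_lit 1276116994) (nat_lit 4195959) (.two (nat_lit 37748737) (nat_lit 1051118) (.two (nat_lit 4194304) (nat_lit 1052082) (.one (nat_lit 1053704) .nil)))))),
   .two (nat_lit 4034920468) (nat_lit 809500863) (.two (nat_lit 343932993) (nat_lit 1310720098) (.two (nat_lit 276824075) (nat_lit 156971827673) (.two (nat_lit 306184215) (nat_lit 47582281956) (.two (nat_lit 713031686) (nat_lit 3021997015) (.two (nat_lit 8388616) (nat_lit 10001318119) (.two (nat_lit 46414168066) (nat_lit 9934210666) (.two (nat_lit 4605345797) (nat_lit 13222544994) (.two (nat_lit 156372041729) (nat_lit 874515869) (.two (nat_lit 2097152) (nat_lit 641732012) (.one (nat_lit 2102281) .nil)))))))))),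
   .two (nat_lit 9781117039) (nat_lit 11577327654) (.two (nat_lit 11543773192) (nat_lit 2902458877) (.two (nat_lit 705691652) (nat_lit 2902459397) (.two (nat_lit 1048576) (nat_lit 20753419688) (.one (nat_lit 2953842889) .nil)))),
   .two (nat_lit 2887778324) (nat_lit 4601151679) (.two (nat_lit 11546918949) (nat_lit 11577327807) (.two (nat_lit 3460300815) (nat_lit 2988442066) (.two (nat_lit 169869329) (nat_lit 12047089881) (.two (nat_lit 11543773192) (nat_lit 12150899667) (.two (nat_lit 2887778312) (nat_lit 156367847651) (.two (nat_lit 10504634373) (nat_lit 21777876586) (.two (nat_lit 37748739) (nat_lit 873465458) (.two (nat_lit 605028353) (nat_lit 4197715) (.two (nat_lit 1048576) (nat_lit 876613036) (.one (nat_lit 1053709) .nil)))))))))),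
   .two (nat_lit 306184257) (nat_lit 202375207) (.two (nat_lit 612368392) (nat_lit 21777875451) (.two (nat_lit 176160772) (nat_lit 303039496) (.two (nat_lit 8388608) (nat_lit 1052822) (.one (nat_lit 343937237) .nil)))),
   .two (nat_lit 306184258) (nat_lit 8388646) (.two (nat_lit 8388616) (nat_lit 166132187648) (.two (nat_lit 8388612) (nat_lit 4634706949) (.two (nat_lit 4194304) (nat_lit 156968684970) (.one (nat_lit 2953842890) .nil)))),
   .two (nat_lit 46414168130) (nat_lit 28757196839) (.two (nat_lit 705691656) (nat_lit 18933089289) (.two (nat_lit 34603013) (nat_lit 18933089289) (.two (nat_lit 2097152) (nat_lit 21777878435) (.one (nat_lit 4598010057) .nil)))),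
   .two (nat_lit 1358954563) (nat_lit 1410334758) (.two (nat_lit 705691656) (nat_lit 1358955003) (.two (nat_lit 1191182339) (nat_lit 1178600456) (.two (nat_lit 2097152) (nat_lit 4198551) (.one (nat_lit 4199439) .nil)))),
   .two (nat_lit 37246468211) (nat_lit 47563407399) (.two (nat_lit 12047089672) (nat_lit 654311931) (.two (nat_lit 184986632197) (nat_lit 1795163143) (.two (nat_lit 4194304) (nat_lit 16781465) (.one (nat_lit 1053713) .nil)))),
   .two (nat_lit 184993972289) (nat_lit 13222543399) (.two (nat_lit 739246088) (nat_lit 158647452681) (.two (nat_lit 11543773189) (nat_lit 158647452681) (.two (nat_lit 1048576) (nat_lit 2101402) (.one (nat_lit 2101471) .nil)))),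
   .two (nat_lit 184419352641) (nat_lit 183928619047) (.two (nat_lit 809500679) (nat_lit 16777729) (.two (nat_lit 4194307) (nat_lit 16777733) (.two (nat_lit 8388608) (nat_lit 158146236566) (.one (nat_lit 16782354) .nil)))),
   .two (nat_lit 185027526726) (nat_lit 822083622) (.two (nat_lit 47555018786) (nat_lit 20753416388) (.two (nat_lit 20644364303) (nat_lit 1191182555) (.two (nat_lit 50331656) (nat_lit 10343154171) (.two (nat_lit 20644364296) (nat_lit 1191183312) (.two (nat_lit 16777220) (nat_lit 159224169481) (.two (nat_lit 16777220) (nat_lit 18933089903) (.two (nat_lit 612368385) (nat_lit 16779761) (.two (nat_lit 8388608) (nat_lit 16781467) (.one (nat_lit 8393747) .nil))))))))),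
   .two (nat_lit 11626610726) (nat_lit 2927624231) (.two (nat_lit 10336862215) (nat_lit 775946756) (.two (nat_lit 2097152) (nat_lit 4198606) .nil)),
   .two (nat_lit 721420326) (nat_lit 11551113255) (.two (nat_lit 159232557063) (nat_lit 156472705540) (.two (nat_lit 4194304) (nat_lit 2894074062) .nil)),
   .two (nat_lit 9866051622) (nat_lit 11584667686) (.two (nat_lit 10504634375) (nat_lit 10906239492) (.two (nat_lit 1048576) (nat_lit 4198597) .nil)),
   .two (nat_lit 11618222118) (nat_lit 4194343) (.two (nat_lit 12050235400) (nat_lit 343933958) (.two (nat_lit 2097152) (nat_lit 19100864706) .nil)),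
   .two (nat_lit 2954887206) (nat_lit 205520935) (.two (nat_lit 159224168455) (nat_lit 18925748740) (.two (nat_lit 8388608) (nat_lit 156466417857) .nil)),
   .two (nat_lit 3003121702) (nat_lit 11007950886) (.two (nat_lit 156367847431) (nat_lit 2920285188) (.two (nat_lit 4194304) (nat_lit 28757201094) .nil)),
   .two (nat_lit 165532401702) (nat_lit 1346371623) (.two (nat_lit 12050235400) (nat_lit 47555019782) (.two (nat_lit 2097152) (nat_lit 156472709314) .nil)),
   .two (nat_lit 612368422) (nat_lit 183845781542) (.two (nat_lit 18925748232) (nat_lit 2889876484) (.two (nat_lit 16777216) (nat_lit 2316307923) .nil)),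
   .two (nat_lit 4647288870) (nat_lit 4030726183) (.two (nat_lit 19596836871) (nat_lit 46407877124) (.two (nat_lit 1048576) (nat_lit 2101456) .nil)),
   .two (nat_lit 11479810086) (nat_lit 310378534) (.two (nat_lit 11479810056) (nat_lit 9867100676) (.two (nat_lit 1048576) (nat_lit 156365754569) .nil)),
   .two (nat_lit 1291845670) (nat_lit 28791799846) (.two (nat_lit 159232557063) (nat_lit 46474985988) (.two (nat_lit 2097152) (nat_lit 4198611) .nil)),
   .two (nat_lit 28806479910) (nat_lit 168820775) (.two (nat_lit 156372041735) (nat_lit 166229705220) (.two (nat_lit 8388608) (nat_lit 4198612) .nil)),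
   .two (nat_lit 1779433510) (nat_lit 11593056295) (.two (nat_lit 4605345799) (nat_lit 28772925956) (.two (nat_lit 8388608) (nat_lit 16781525) .nil)),
   .two (nat_lit 4638900262) (nat_lit 156569174054) (.two (nat_lit 639631367) (nat_lit 10544481286) (.two (nat_lit 2097152) (nat_lit 8392918) .nil)),
   .two (nat_lit 310378534) (nat_lit 46477082663) (.two (nat_lit 1913651207) (nat_lit 2887778820) (.two (nat_lit 1048576) (nat_lit 1746931920) .nil)),
   .two (nat_lit 9768534054) (nat_lit 11626610726) (.two (nat_lit 641728520) (nat_lit 10015998985) (.two (nat_lit 8388608) (nat_lit 2887782593) .nil)),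
   .two (nat_lit 10552869055) (nat_lit 158647451687) (.two (nat_lit 10343153671) (nat_lit 166129041924) (.two (nat_lit 8388608) (nat_lit 1052887) .nil)),
   .two (nat_lit 713031688) (nat_lit 83886095) (.two (nat_lit 620756997) (nat_lit 20745028235) (.two (nat_lit 2097152) (nat_lit 16780761) (.one (nat_lit 2100859) .nil))),
   .two (nat_lit 21207449608) (nat_lit 158144135290) (.two (nat_lit 9766436865) (nat_lit 68157800) (.two (nat_lit 2097152) (nat_lit 1051239) (.one (nat_lit 1053726) .nil))),
   .two (nat_lit 16777224) (nat_lit 9966714924) (.two (nat_lit 176160772) (nat_lit 157035791656) (.one (nat_lit 16782367) .nil)),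
   .two (nat_lit 8388616) (nat_lit 83886095) (.two (nat_lit 620756997) (nat_lit 10007609535) (.two (nat_lit 16777216) (nat_lit 8392154) (.one (nat_lit 16781552) .nil))),
   .two (nat_lit 809500680) (nat_lit 9781118427) .nil,
   .two (nat_lit 272629775) (nat_lit 184549400) (.two (nat_lit 2969567240) (nat_lit 272629951) (.two (nat_lit 16777217) (nat_lit 4634707156) (.two (nat_lit 1048576) (nat_lit 4197871) (.one (nat_lit 1053729) .nil)))),
   .two (nat_lit 4194319) (nat_lit 1847590935) (.two (nat_lit 4194312) (nat_lit 9799991403) (.two (nat_lit 16777220) (nat_lit 705692005) (.two (nat_lit 4194305) (nat_lit 168822004) (.two (nat_lit 4194304) (nat_lit 16780784) (.one (nat_lit 16782370) .nil))))),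
   .two (nat_lit 713031695) (nat_lit 183848927247) (.two (nat_lit 713031688) (nat_lit 10439622781) (.two (nat_lit 41943045) (nat_lit 4634706491) (.two (nat_lit 41943041) (nat_lit 4634707155) (.two (nat_lit 4194304) (nat_lit 8392178) (.one (nat_lit 8393004) .nil))))),
   .two (nat_lit 9881780239) (nat_lit 4605345902) (.two (nat_lit 1358954501) (nat_lit 12054430277) (.two (nat_lit 620756993) (nat_lit 12054430935) (.two (nat_lit 1048576) (nat_lit 1358957337) (.one (nat_lit 8393763) .nil)))),
   .two (nat_lit 158075977743) (nat_lit 19599982607) (.two (nat_lit 19599982600) (nat_lit 705691772) (.two (nat_lit 638582789) (nat_lit 19029559474) (.one (nat_lit 4198178) .nil))),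
   .two (nat_lit 276824079) (nat_lit 166132187377) (.two (nat_lit 8388612) (nat_lit 156468511305) (.two (nat_lit 41943041) (nat_lit 2990540574) (.two (nat_lit 8388608) (nat_lit 4197156) (.one (nat_lit 4199460) .nil)))),
   .two (nat_lit 713031695) (nat_lit 19026411543) (.two (nat_lit 75497480) (nat_lit 2953838709) (.two (nat_lit 713031684) (nat_lit 1049166) (.two (nat_lit 9768534017) (nat_lit 19596839096) (.one (nat_lit 1052980) .nil)))),
   .two (nat_lit 2954887183) (nat_lit 156971827310) (.two (nat_lit 203423749) (nat_lit 19130221125) (.two (nat_lit 2097153) (nat_lit 12117345495) (.two (nat_lit 2097152) (nat_lit 4197876) (.one (nat_lit 2101558) .nil)))),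
   .two (nat_lit 157036838927) (nat_lit 28757196815) (.two (nat_lit 1343225864) (nat_lit 10940842096) (.two (nat_lit 9866051589) (nat_lit 159217877662) (.two (nat_lit 605028353) (nat_lit 169870635) (.two (nat_lit 2097152) (nat_lit 1052903) (.one (nat_lit 1053756) .nil))))),
   .two (nat_lit 8388623) (nat_lit 157038936176) (.two (nat_lit 8388612) (nat_lit 4601152755) (.two (nat_lit 16777216) (nat_lit 708840285) (.one (nat_lit 8393789) .nil))),
   .two (nat_lit 654311439) (nat_lit 158144135744) (.two (nat_lit 2097153) (nat_lit 11593057566) (.two (nat_lit 2097152) (nat_lit 16781544) (.one (nat_lit 9814676524) .nil))),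
   .two (nat_lit 11543773199) (nat_lit 19027460120) (.two (nat_lit 1343225864) (nat_lit 183947494059) (.two (nat_lit 50331649) (nat_lit 739247379) (.two (nat_lit 1048576) (nat_lit 337644394) (.one (nat_lit 1376785445) .nil)))),
   .two (nat_lit 11543773199) (nat_lit 158083317827) (.two (nat_lit 34603013) (nat_lit 1417675109) (.two (nat_lit 2097153) (nat_lit 21818770727) (.two (nat_lit 2097152) (nat_lit 343935782) (.one (nat_lit 8393146) .nil)))),
   .two (nat_lit 822083599) (nat_lit 46510637169) (.two (nat_lit 16777220) (nat_lit 1178600105) (.two (nat_lit 50331649) (nat_lit 28790753162) (.two (nat_lit 4194304) (nat_lit 1052195) (.one (nat_lit 16782398) .nil)))),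
   .two (nat_lit 16777231) (nat_lit 343933040) (.two (nat_lit 8388613) (nat_lit 889193705) (.two (nat_lit 8388608) (nat_lit 83889975) .nil)),
   .two (nat_lit 8388623) (nat_lit 184549402) (.two (nat_lit 713031688) (nat_lit 21777875078) (.two (nat_lit 184549380) (nat_lit 11517560063) (.two (nat_lit 16777216) (nat_lit 813697213) (.one (nat_lit 705696061) .nil)))),
   .two (nat_lit 8388623) (nat_lit 10336862223) (.two (nat_lit 713031688) (nat_lit 47581233285) (.two (nat_lit 713031684) (nat_lit 69207084) (.two (nat_lit 612368385) (nat_lit 158143087844) (.two (nat_lit 1048576) (nat_lit 4605348623) (.one (nat_lit 1053759) .nil))))),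
   .two (nat_lit 10336862223) (nat_lit 19529728015) (.two (nat_lit 285212680) (nat_lit 1210056837) (.two (nat_lit 806354949) (nat_lit 3472884791) (.two (nat_lit 34603009) (nat_lit 37247519598) (.one (nat_lit 1053760) .nil)))),
   .two (nat_lit 12047089679) (nat_lit 12620660803) (.two (nat_lit 183845781508) (nat_lit 28089255156) (.two (nat_lit 1048576) (nat_lit 4197255) (.one (nat_lit 4199489) .nil))),
   .two (nat_lit 28757196815) (nat_lit 159251431448) (.two (nat_lit 13191086088) (nat_lit 1276117116) (.two (nat_lit 183848927237) (nat_lit 158075978395) (.two (nat_lit 2097153) (nat_lit 19529729252) (.two (nat_lit 2097152) (nat_lit 1052905) (.one (nat_lit 4199490) .nil))))),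
   .two (nat_lit 4194319) (nat_lit 10443817221) (.two (nat_lit 4194308) (nat_lit 1779434522) (.two (nat_lit 37748737) (nat_lit 156539815717) (.two (nat_lit 4194304) (nat_lit 21214792541) (.one (nat_lit 4199491) .nil)))),
   .two (nat_lit 2961178639) (nat_lit 1847591026) (.two (nat_lit 2097157) (nat_lit 46481277547) (.two (nat_lit 2097153) (nat_lit 46473938755) (.two (nat_lit 4194304) (nat_lit 1052906) (.one (nat_lit 2101704) .nil)))),
   .two (nat_lit 184549391) (nat_lit 159224168515) (.two (nat_lit 159224168453) (nat_lit 185002361438) (.two (nat_lit 612368385) (nat_lit 150997574) (.two (nat_lit 8388608) (nat_lit 20719866209) .nil))),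
   .two (nat_lit 11479810063) (nat_lit 236978199) (.two (nat_lit 1178599432) (nat_lit 9967764040) (.two (nat_lit 9768534017) (nat_lit 159251433642) (.one (nat_lit 4199691) .nil))),
   .two (nat_lit 2969567247) (nat_lit 158077026428) (.two (nat_lit 19530776581) (nat_lit 3539993900) (.two (nat_lit 1048576) (nat_lit 158192371920) (.one (nat_lit 16781157) .nil))),
   .two (nat_lit 8388623) (nat_lit 12062818349) (.two (nat_lit 276824072) (nat_lit 184549500) (.two (nat_lit 2956984325) (nat_lit 276824700) (.two (nat_lit 620756993) (nat_lit 159250385689) (.one (nat_lit 1053764) .nil)))),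
   .two (nat_lit 13203669007) (nat_lit 158176641048) (.two (nat_lit 157036838920) (nat_lit 1309671534) (.two (nat_lit 754974725) (nat_lit 184416207521) (.two (nat_lit 156365750273) (nat_lit 620758860) (.two (nat_lit 2097152) (nat_lit 1052196) (.one (nat_lit 2102325) .nil))))),
   .two (nat_lit 157038936079) (nat_lit 174753579115) (.two (nat_lit 46978301957) (nat_lit 20740833870) (.two (nat_lit 2097153) (nat_lit 4196271) (.two (nat_lit 2097152) (nat_lit 4197925) (.one (nat_lit 2101705) .nil)))),
   .two (nat_lit 11559501839) (nat_lit 1745879055) (.two (nat_lit 1745879048) (nat_lit 11559501890) (.two (nat_lit 2894069765) (nat_lit 318768378) (.two (nat_lit 8388608) (nat_lit 185002363075) (.one (nat_lit 16782405) .nil)))),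
   .two (nat_lit 654311439) (nat_lit 1176502403) (.two (nat_lit 1795162117) (nat_lit 46977254055) (.two (nat_lit 34603009) (nat_lit 855639951) (.two (nat_lit 2097152) (nat_lit 37313579886) (.one (nat_lit 1053734) .nil)))),
   .two (nat_lit 205520911) (nat_lit 47582281751) (.two (nat_lit 705691656) (nat_lit 28693233778) (.two (nat_lit 34603013) (nat_lit 174688568554) (.two (nat_lit 2097152) (nat_lit 876613120) (.one (nat_lit 1053134) .nil)))),
   .two (nat_lit 12054429711) (nat_lit 11476664444) (.two (nat_lit 9933160453) (nat_lit 158083320011) (.one (nat_lit 165532404891) .nil)),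
   .two (nat_lit 721420303) (nat_lit 165526110327) (.two (nat_lit 721420292) (nat_lit 157036839521) (.two (nat_lit 34603009) (nat_lit 50332977) (.two (nat_lit 1048576) (nat_lit 2100128) (.one (nat_lit 2101712) .nil)))),
   .two (nat_lit 285212687) (nat_lit 156569174128) (.two (nat_lit 16777220) (nat_lit 12150899939) (.two (nat_lit 2097152) (nat_lit 4197926) (.one (nat_lit 4198865) .nil))),
   .two (nat_lit 169869327) (nat_lit 46414168131) (.two (nat_lit 169869316) (nat_lit 4638900586) (.two (nat_lit 605028353) (nat_lit 8389864) (.two (nat_lit 1048576) (nat_lit 8392231) (.one (nat_lit 1053139) .nil)))),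
   .two (nat_lit 10506731535) (nat_lit 28690087960) (.two (nat_lit 166129041416) (nat_lit 28693233778) (.two (nat_lit 183848927237) (nat_lit 47588575118) (.two (nat_lit 1048576) (nat_lit 10913581862) (.one (nat_lit 1053766) .nil)))),
   .two (nat_lit 1916796952) (nat_lit 47582281769) (.two (nat_lit 1178599432) (nat_lit 47582281844) (.two (nat_lit 3525312517) (nat_lit 19029558526) (.two (nat_lit 8388608) (nat_lit 4634708753) (.one (nat_lit 4198870) .nil)))),
   .two (nat_lit 1753219087) (nat_lit 183912890391) (.two (nat_lit 2887778312) (nat_lit 165532401778) (.two (nat_lit 270532613) (nat_lit 156372042311) (.two (nat_lit 2097153) (nat_lit 156372042969) (.two (nat_lit 1048576) (nat_lit 2100780) (.one (nat_lit 2101727) .nil))))),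
   .two (nat_lit 9781116943) (nat_lit 339738986) (.two (nat_lit 4194305) (nat_lit 11593057554) (.two (nat_lit 4194304) (nat_lit 11476668238) .nil)),
   .two (nat_lit 13191086095) (nat_lit 159224168463) (.two (nat_lit 4194312) (nat_lit 2994733297) (.two (nat_lit 1343225861) (nat_lit 156971827558) (.two (nat_lit 4194305) (nat_lit 10343155607) (.two (nat_lit 1048576) (nat_lit 4197933) (.one (nat_lit 1053155) .nil))))),
   .two (nat_lit 8388623) (nat_lit 50331674) (.two (nat_lit 13203669000) (nat_lit 343932994) (.two (nat_lit 16777220) (nat_lit 780141822) (.two (nat_lit 8388608) (nat_lit 2101483) (.one (nat_lit 2102343) .nil)))),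
   .two (nat_lit 9881780239) (nat_lit 20637024380) (.two (nat_lit 2097157) (nat_lit 654312923) (.one (nat_lit 620760228) .nil)),
   .two (nat_lit 101711887) (nat_lit 10338959375) (.two (nat_lit 2969567240) (nat_lit 9866051693) (.two (nat_lit 184549380) (nat_lit 10906239679) (.two (nat_lit 4194305) (nat_lit 183912891611) (.two (nat_lit 4194304) (nat_lit 1052206) (.one (nat_lit 1053157) .nil))))),
   .two (nat_lit 18928893967) (nat_lit 158144135300) (.two (nat_lit 13195280389) (nat_lit 37316723279) (.two (nat_lit 37748737) (nat_lit 8390858) (.one (nat_lit 8393191) .nil))),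
   .two (nat_lit 2902458383) (nat_lit 1410334855) (.two (nat_lit 285212677) (nat_lit 20737688223) (.two (nat_lit 4194305) (nat_lit 10351544230) (.two (nat_lit 4194304) (nat_lit 19042143100) (.one (nat_lit 16781800) .nil)))),
   .two (nat_lit 205520911) (nat_lit 10907287659) (.two (nat_lit 9933160453) (nat_lit 183913939571) (.two (nat_lit 605028353) (nat_lit 10942941036) (.two (nat_lit 1048576) (nat_lit 4198636) (.one (nat_lit 1053768) .nil)))),
   .two (nat_lit 754974735) (nat_lit 183845781628) (.two (nat_lit 159216828421) (nat_lit 1191183176) (.two (nat_lit 1048576) (nat_lit 46523223193) .nil)),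
   .two (nat_lit 205520911) (nat_lit 47582281752) (.two (nat_lit 37748744) (nat_lit 166196150388) (.two (nat_lit 11546918917) (nat_lit 174752532267) (.two (nat_lit 2097152) (nat_lit 4197937) (.one (nat_lit 1053769) .nil)))),
   .two (nat_lit 19532873743) (nat_lit 10015998252) (.two (nat_lit 1916796933) (nat_lit 10015999037) (.two (nat_lit 2097153) (nat_lit 205524828) .nil)),
   .two (nat_lit 9781116943) (nat_lit 20705181720) (.two (nat_lit 218103816) (nat_lit 3458203767) (.two (nat_lit 708837381) (nat_lit 2432698543) (.one (nat_lit 16782410) .nil))),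
   .two (nat_lit 272629775) (nat_lit 3525312527) (.two (nat_lit 272629768) (nat_lit 2097463) (.two (nat_lit 1344274437) (nat_lit 1947205990) (.two (nat_lit 37748737) (nat_lit 1051217) (.two (nat_lit 1048576) (nat_lit 2101485) (.one (nat_lit 1053771) .nil))))),
   .two (nat_lit 18933088271) (nat_lit 47548727363) (.two (nat_lit 156372041733) (nat_lit 203425003) (.two (nat_lit 8388608) (nat_lit 2100074) (.one (nat_lit 2101746) .nil))),
   .two (nat_lit 11543773199) (nat_lit 158083317827) (.two (nat_lit 705691652) (nat_lit 1417675109) (.two (nat_lit 34603009) (nat_lit 21818770727) (.two (nat_lit 1048576) (nat_lit 8392242) (.one (nat_lit 8393146) .nil)))),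
   .two (nat_lit 813694991) (nat_lit 843055295) (.two (nat_lit 8388609) (nat_lit 11614030652) (.one (nat_lit 2102348) .nil)),
   .two (nat_lit 8388623) (nat_lit 9948889103) (.two (nat_lit 9948889096) (nat_lit 880804031) (.two (nat_lit 16777217) (nat_lit 243272503) (.one (nat_lit 8393805) .nil))),
   .two (nat_lit 654311439) (nat_lit 174686470260) (.two (nat_lit 159217876997) (nat_lit 19142805709) (.one (nat_lit 4647292058) .nil)),
   .two (nat_lit 1779433487) (nat_lit 11513364593) (.two (nat_lit 101711877) (nat_lit 46409975064) (.two (nat_lit 16777216) (nat_lit 156535622446) (.one (nat_lit 4198904) .nil))),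
   .two (nat_lit 8388623) (nat_lit 2969567256) (.two (nat_lit 184549384) (nat_lit 813696240) (.two (nat_lit 16777216) (nat_lit 11584670556) (.one (nat_lit 1053179) .nil))),
   .two (nat_lit 156372041743) (nat_lit 9799991431) (.two (nat_lit 3458203653) (nat_lit 9940501732) (.two (nat_lit 2097152) (nat_lit 16780210) (.one (nat_lit 16781822) .nil))),
   .two (nat_lit 2889875471) (nat_lit 19596837705) (.two (nat_lit 2097152) (nat_lit 13187943345) (.one (nat_lit 1053774) .nil)),
   .two (nat_lit 101711887) (nat_lit 166230753306) (.two (nat_lit 1780482056) (nat_lit 166196150386) (.two (nat_lit 28086108165) (nat_lit 645923177) (.two (nat_lit 2097153) (nat_lit 310380400) (.two (nat_lit 2097152) (nat_lit 28093451057) (.one (nat_lit 8393807) .nil))))),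
   .two (nat_lit 10343153679) (nat_lit 183845781606) (.two (nat_lit 10343153672) (nat_lit 20704133236) (.two (nat_lit 20644364292) (nat_lit 28086108827) (.two (nat_lit 2097153) (nat_lit 28757197640) (.two (nat_lit 2097152) (nat_lit 159224171281) (.one (nat_lit 8393216) .nil))))),
   .two (nat_lit 37246468120) (nat_lit 9982443570) (.two (nat_lit 166129041416) (nat_lit 9881780338) (.two (nat_lit 9765388293) (nat_lit 9982443882) (.two (nat_lit 34603009) (nat_lit 16779185) (.two (nat_lit 4194304) (nat_lit 202379075) .nil)))),
   .two (nat_lit 4194319) (nat_lit 2902458480) (.two (nat_lit 46409973765) (nat_lit 11543773773) (.two (nat_lit 37748737) (nat_lit 18925751181) (.one (nat_lit 1053776) .nil))),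
   .two (nat_lit 16777231) (nat_lit 28790751299) (.two (nat_lit 184549381) (nat_lit 21811429734) (.two (nat_lit 9781116929) (nat_lit 68160300) (.one (nat_lit 16781724) .nil))),
   .two (nat_lit 1753219087) (nat_lit 28757196815) (.two (nat_lit 28757196808) (nat_lit 46481277045) (.two (nat_lit 1276116996) (nat_lit 813695818) (.two (nat_lit 1048576) (nat_lit 612370632) (.one (nat_lit 8393809) .nil)))),
   .two (nat_lit 1291845647) (nat_lit 184993972239) (.two (nat_lit 713031688) (nat_lit 1291845698) (.two (nat_lit 9948889093) (nat_lit 1182794429) (.two (nat_lit 612368385) (nat_lit 2969569070) (.two (nat_lit 16777216) (nat_lit 8392251) (.one (nat_lit 16781846) .nil))))),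
   .two (nat_lit 822083599) (nat_lit 9798942853) (.two (nat_lit 19530776581) (nat_lit 2886730408) (.two (nat_lit 2097153) (nat_lit 20753418089) (.two (nat_lit 2097152) (nat_lit 184553956) .nil))),
   .two (nat_lit 1291845647) (nat_lit 12048138373) (.two (nat_lit 8388612) (nat_lit 352322803) (.two (nat_lit 2097152) (nat_lit 11525950301) (.one (nat_lit 8393810) .nil))),
   .two (nat_lit 9967763480) (nat_lit 19127074952) (.two (nat_lit 1277165573) (nat_lit 184416208106) (.two (nat_lit 2097152) (nat_lit 184416209107) (.one (nat_lit 2102355) .nil))),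
   .two (nat_lit 3028287512) (nat_lit 19532873769) (.two (nat_lit 47555018760) (nat_lit 19532873844) (.two (nat_lit 176160772) (nat_lit 4196019) (.two (nat_lit 606076929) (nat_lit 239078316) (.one (nat_lit 4198937) .nil)))),
   .two (nat_lit 50331663) (nat_lit 169869422) (.two (nat_lit 4194308) (nat_lit 46489666125) (.two (nat_lit 4194305) (nat_lit 47596962634) (.two (nat_lit 4194304) (nat_lit 16781550) (.one (nat_lit 3460304750) .nil)))),
   .two (nat_lit 16777231) (nat_lit 18933088372) (.two (nat_lit 159224168453) (nat_lit 50332488) (.two (nat_lit 8388608) (nat_lit 218107044) .nil)),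
   .two (nat_lit 1779433487) (nat_lit 673185816) (.two (nat_lit 28758245384) (nat_lit 12147753069) (.two (nat_lit 1276116996) (nat_lit 10538189372) (.two (nat_lit 50331649) (nat_lit 34604273) (.two (nat_lit 16777216) (nat_lit 156465367969) (.one (nat_lit 1053212) .nil))))),
   .two (nat_lit 1178599439) (nat_lit 3525312626) (.two (nat_lit 11479810052) (nat_lit 184986632896) (.two (nat_lit 37748737) (nat_lit 1050546) (.two (nat_lit 4194304) (nat_lit 1052220) (.one (nat_lit 1053780) .nil)))),
   .two (nat_lit 11559501839) (nat_lit 1175453738) (.two (nat_lit 4194312) (nat_lit 9881780797) (.two (nat_lit 37748737) (nat_lit 166196152195) (.two (nat_lit 1048576) (nat_lit 272633381) (.one (nat_lit 4199509) .nil)))),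
   .two (nat_lit 10343153679) (nat_lit 10940841999) (.two (nat_lit 46984593416) (nat_lit 11544821879) (.two (nat_lit 10504634373) (nat_lit 847251331) (.two (nat_lit 1048576) (nat_lit 840962366) .nil))),
   .two (nat_lit 2887778319) (nat_lit 11546919046) (.two (nat_lit 270532613) (nat_lit 11479810677) (.two (nat_lit 2097153) (nat_lit 12114199780) (.two (nat_lit 2097152) (nat_lit 1052221) (.one (nat_lit 2102358) .nil)))),
   .two (nat_lit 9802088488) (nat_lit 2097255) (.two (nat_lit 11007950861) (nat_lit 9802088562) (.two (nat_lit 1914699781) (nat_lit 2990540020) (.two (nat_lit 8388608) (nat_lit 21814578038) (.one (nat_lit 4198943) .nil)))),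
   .two (nat_lit 184416206863) (nat_lit 13224640538) (.two (nat_lit 37748744) (nat_lit 12617515074) (.two (nat_lit 4194308) (nat_lit 19529728599) (.two (nat_lit 2097153) (nat_lit 705693594) (.two (nat_lit 2097152) (nat_lit 166129043665) (.one (nat_lit 2101793) .nil))))),
   .two (nat_lit 9934209039) (nat_lit 41943286) (.two (nat_lit 169869316) (nat_lit 3028288066) (.two (nat_lit 2097153) (nat_lit 8390579) (.two (nat_lit 2097152) (nat_lit 8392254) (.one (nat_lit 2101794) .nil)))),
   .two (nat_lit 809500687) (nat_lit 9982444214) (.two (nat_lit 16777217) (nat_lit 2353005854) (.two (nat_lit 4194304) (nat_lit 16781551) (.one (nat_lit 158146236741) .nil))),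
   .two (nat_lit 654311439) (nat_lit 336592942) (.two (nat_lit 68157448) (nat_lit 19109250342) (.two (nat_lit 4194304) (nat_lit 4631564620) .nil)),
   .two (nat_lit 46978301967) (nat_lit 654311448) (.two (nat_lit 9781116936) (nat_lit 19027460335) (.two (nat_lit 2902458372) (nat_lit 2098253) (.two (nat_lit 37748737) (nat_lit 318769341) (.one (nat_lit 16781865) .nil)))),
   .two (nat_lit 754974735) (nat_lit 13221495073) (.two (nat_lit 605028357) (nat_lit 19142804713) (.two (nat_lit 4194304) (nat_lit 855640901) (.one (nat_lit 16782423) .nil))),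
   .two (nat_lit 1916796943) (nat_lit 21811429400) (.two (nat_lit 169869320) (nat_lit 166132187250) (.two (nat_lit 2097157) (nat_lit 183916037354) (.two (nat_lit 1048576) (nat_lit 4197314) (.one (nat_lit 12148805980) .nil)))),
   .two (nat_lit 285212687) (nat_lit 3527409774) (.two (nat_lit 4194308) (nat_lit 2936014077) (.two (nat_lit 4194304) (nat_lit 16780864) (.one (nat_lit 16782424) .nil))),
   .two (nat_lit 2969567247) (nat_lit 13224640536) (.two (nat_lit 16777224) (nat_lit 184419352686) (.two (nat_lit 4194308) (nat_lit 318768427) (.two (nat_lit 16777216) (nat_lit 2923432821) (.one (nat_lit 16782425) .nil)))),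
   .two (nat_lit 713031695) (nat_lit 158158815274) (.two (nat_lit 285212680) (nat_lit 10007610843) (.one (nat_lit 4605349028) .nil)),
   .two (nat_lit 2349858840) (nat_lit 3458203769) (.two (nat_lit 166129041412) (nat_lit 9900655894) (.two (nat_lit 1048576) (nat_lit 2100801) (.one (nat_lit 35655484) .nil))),
   .two (nat_lit 9866051599) (nat_lit 2969567256) (.two (nat_lit 184549384) (nat_lit 158075978338) (.two (nat_lit 4194305) (nat_lit 9866052842) (.two (nat_lit 4194304) (nat_lit 28790753450) (.one (nat_lit 1279267164) .nil)))),
   .two (nat_lit 184549391) (nat_lit 18933088363) (.two (nat_lit 713031684) (nat_lit 285213237) (.two (nat_lit 612368385) (nat_lit 1929381150) (.two (nat_lit 2097152) (nat_lit 16781667) .nil))),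
   .two (nat_lit 47548727311) (nat_lit 1379926147) (.two (nat_lit 3458203653) (nat_lit 46409975684) (.two (nat_lit 2097152) (nat_lit 3460303631) (.one (nat_lit 4198958) .nil))),
   .two (nat_lit 4601151503) (nat_lit 158158815274) (.two (nat_lit 285212680) (nat_lit 2923429955) (.two (nat_lit 4194308) (nat_lit 20753417459) (.two (nat_lit 4194304) (nat_lit 11492396919) .nil))),
   .two (nat_lit 654311439) (nat_lit 11543773199) (.two (nat_lit 654311432) (nat_lit 101711981) (.two (nat_lit 1291845637) (nat_lit 4598006381) (.two (nat_lit 620756993) (nat_lit 8391240) (.two (nat_lit 16777216) (nat_lit 1051667) (.one (nat_lit 16780554) .nil))))),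
   .two (nat_lit 4601151503) (nat_lit 142606360) (.two (nat_lit 19604176904) (nat_lit 4601151552) (.two (nat_lit 183853121541) (nat_lit 156367847615) (.two (nat_lit 8388609) (nat_lit 156367847889) (.two (nat_lit 4194304) (nat_lit 1929381356) (.one (nat_lit 4199515) .nil))))),
   .two (nat_lit 169869327) (nat_lit 2961178649) (.two (nat_lit 47555018760) (nat_lit 11610882113) (.two (nat_lit 169869316) (nat_lit 9906946408) (.two (nat_lit 2097153) (nat_lit 41944329) (.two (nat_lit 8388608) (nat_lit 4196623) (.one (nat_lit 47588574843) .nil))))),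
   .two (nat_lit 19532873769) (nat_lit 12114198558) (.two (nat_lit 10369368072) (nat_lit 19532873844) (.two (nat_lit 13191086085) (nat_lit 10503586394) (.two (nat_lit 37748737) (nat_lit 28790752085) (.two (nat_lit 8388608) (nat_lit 1051687) (.one (nat_lit 1053271) .nil))))),
   .two (nat_lit 11492392975) (nat_lit 20637024282) (.two (nat_lit 11492392966) (nat_lit 3524264053) (.two (nat_lit 11559501832) (nat_lit 1745879076) (.two (nat_lit 9866051589) (nat_lit 50331839) (.two (nat_lit 34603009) (nat_lit 3472884958) (.two (nat_lit 1048576) (nat_lit 16780329) (.one (nat_lit 1053272) .nil)))))),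
   .two (nat_lit 4194319) (nat_lit 158083317775) (.two (nat_lit 4194312) (nat_lit 1753219139) (.two (nat_lit 605028357) (nat_lit 3028287849) (.two (nat_lit 4194305) (nat_lit 165532402517) (.two (nat_lit 8388608) (nat_lit 46409978427) (.one (nat_lit 46409978427) .nil))))),
   .two (nat_lit 205520911) (nat_lit 11559501839) (.two (nat_lit 205520904) (nat_lit 11559501860) (.two (nat_lit 205520904) (nat_lit 721420306) (.two (nat_lit 2889875460) (nat_lit 3539993300) (.two (nat_lit 2956984325) (nat_lit 16777311) (.two (nat_lit 605028353) (nat_lit 159266111958) (.two (nat_lit 1048576) (nat_lit 16779545) (.one (nat_lit 4198962) .nil))))))),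
   .two (nat_lit 713031695) (nat_lit 46980399119) (.two (nat_lit 713031688) (nat_lit 183916036215) (.two (nat_lit 41943045) (nat_lit 2990539392) (.two (nat_lit 41943041) (nat_lit 183848929135) (.two (nat_lit 1048576) (nat_lit 8391736) (.one (nat_lit 8393316) .nil))))),
   .two (nat_lit 11492392971) (nat_lit 708837421) (.two (nat_lit 1276117000) (nat_lit 11559501860) (.two (nat_lit 754974728) (nat_lit 11010048019) (.two (nat_lit 1276116996) (nat_lit 10921967817) (.two (nat_lit 9933160453) (nat_lit 16777311) (.two (nat_lit 605028353) (nat_lit 159266111958) (.two (nat_lit 4194304) (nat_lit 16780989) (.one (nat_lit 4198962) .nil))))))),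
   .two (nat_lit 11476664331) (nat_lit 876609635) (.two (nat_lit 20753416205) (nat_lit 11543773220) (.two (nat_lit 68157448) (nat_lit 184549395) (.two (nat_lit 184549378) (nat_lit 168822086) (.two (nat_lit 1291845637) (nat_lit 269484127) (.two (nat_lit 16777217) (nat_lit 168822086) (.two (nat_lit 16777216) (nat_lit 37751815) (.one (nat_lit 4199516) .nil))))))),
   .two (nat_lit 169869323) (nat_lit 343932954) (.two (nat_lit 169869318) (nat_lit 41943181) (.two (nat_lit 169869320) (nat_lit 4605345810) (.two (nat_lit 1276116994) (nat_lit 8389796) (.two (nat_lit 9934209029) (nat_lit 3565159585) (.two (nat_lit 605028353) (nat_lit 8391405) (.two (nat_lit 1048576) (nat_lit 8392382) (.one (nat_lit 1053789) .nil))))))),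
   .two (nat_lit 1779433487) (nat_lit 4194357) (.two (nat_lit 708837385) (nat_lit 336593015) (.two (nat_lit 157038936077) (nat_lit 19127074853) (.two (nat_lit 1276116994) (nat_lit 4196017) (.two (nat_lit 19599982597) (nat_lit 165525061833) (.two (nat_lit 605028353) (nat_lit 4196940) (.two (nat_lit 1048576) (nat_lit 4197440) (.one (nat_lit 1054059) .nil))))))),
   .two (nat_lit 1291845647) (nat_lit 12617515121) (.two (nat_lit 1291845640) (nat_lit 11577328204) (.two (nat_lit 9881780229) (nat_lit 135267144) (.two (nat_lit 2097153) (nat_lit 2969568731) (.two (nat_lit 2097152) (nat_lit 251661458) (.one (nat_lit 336597630) .nil))))),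
   .two (nat_lit 9934209039) (nat_lit 166132187203) (.two (nat_lit 159217877000) (nat_lit 10506732360) (.two (nat_lit 2097153) (nat_lit 156569175515) (.two (nat_lit 2097152) (nat_lit 4198130) (.one (nat_lit 4199037) .nil)))),
   .two (nat_lit 9881780239) (nat_lit 10940842578) (.two (nat_lit 1358954501) (nat_lit 11007951689) (.two (nat_lit 2097153) (nat_lit 16780440) (.one (nat_lit 9967768183) .nil))),
   .two (nat_lit 4194319) (nat_lit 11559501933) (.two (nat_lit 9881780232) (nat_lit 11610882405) (.two (nat_lit 1795162117) (nat_lit 1410335561) (.two (nat_lit 4194305) (nat_lit 10351544493) (.two (nat_lit 1048576) (nat_lit 4197534) (.one (nat_lit 16782444) .nil))))),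
   .two (nat_lit 822083599) (nat_lit 156468510786) (.two (nat_lit 28693233672) (nat_lit 3003122506) (.two (nat_lit 9768534017) (nat_lit 11559503323) (.two (nat_lit 1048576) (nat_lit 4198131) (.one (nat_lit 4199070) .nil)))),
   .two (nat_lit 8388623) (nat_lit 3527410237) (.two (nat_lit 8388612) (nat_lit 46510638292) (.two (nat_lit 4194305) (nat_lit 8391433) (.two (nat_lit 4194304) (nat_lit 8392983) (.one (nat_lit 37753960) .nil)))),
   .two (nat_lit 809500687) (nat_lit 10001318249) (.two (nat_lit 721420292) (nat_lit 2098974) (.two (nat_lit 2097153) (nat_lit 1051402) (.two (nat_lit 2097152) (nat_lit 4198132) (.one (nat_lit 2101919) .nil)))),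
   .two (nat_lit 809500687) (nat_lit 19545457225) (.two (nat_lit 4194308) (nat_lit 19545457892) (.two (nat_lit 37748737) (nat_lit 2432699144) (.two (nat_lit 8388608) (nat_lit 11513367693) (.one (nat_lit 46514836126) .nil)))),
   .two (nat_lit 11479810063) (nat_lit 269484156) (.two (nat_lit 2889875464) (nat_lit 236978744) (.two (nat_lit 2956984325) (nat_lit 2988442833) (.two (nat_lit 34603009) (nat_lit 876612354) (.two (nat_lit 1048576) (nat_lit 4198680) (.one (nat_lit 873469026) .nil))))),
   .two (nat_lit 75497487) (nat_lit 1411383411) (.two (nat_lit 158083317773) (nat_lit 2921333325) (.two (nat_lit 1176502277) (nat_lit 19130221775) (.two (nat_lit 41943041) (nat_lit 2099384) (.two (nat_lit 8388608) (nat_lit 2100981) (.one (nat_lit 8393344) .nil))))),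
   .two (nat_lit 28690087951) (nat_lit 2927624312) (.two (nat_lit 101711880) (nat_lit 2097742) (.two (nat_lit 1779433477) (nat_lit 2098975) (.two (nat_lit 34603009) (nat_lit 19597887672) (.two (nat_lit 1048576) (nat_lit 2101529) (.one (nat_lit 2102381) .nil))))),
   .two (nat_lit 721420303) (nat_lit 18933088368) (.two (nat_lit 156372041736) (nat_lit 16777811) (.two (nat_lit 46414168068) (nat_lit 11559502664) (.two (nat_lit 8388609) (nat_lit 21827161241) (.one (nat_lit 285217397) .nil)))),
   .two (nat_lit 713031695) (nat_lit 754975560) (.two (nat_lit 50331649) (nat_lit 343936151) (.one (nat_lit 8393376) .nil)),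
   .two (nat_lit 739246095) (nat_lit 165532402247) (.two (nat_lit 21785214981) (nat_lit 1947206472) (.two (nat_lit 34603009) (nat_lit 343936144) (.one (nat_lit 8393377) .nil))),
   .two (nat_lit 37748751) (nat_lit 184993973064) (.two (nat_lit 4194305) (nat_lit 740297873) (.one (nat_lit 2102382) .nil)),
   .two (nat_lit 50331663) (nat_lit 18933088367) (.two (nat_lit 1753219080) (nat_lit 9781117523) (.two (nat_lit 156372041733) (nat_lit 3003122506) (.two (nat_lit 41943041) (nat_lit 184553479) .nil))),
   .two (nat_lit 75497487) (nat_lit 2953838709) (.two (nat_lit 205520904) (nat_lit 19537069278) (.two (nat_lit 4194305) (nat_lit 157035792568) (.two (nat_lit 1048576) (nat_lit 4199028) .nil))),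
   .two (nat_lit 739246095) (nat_lit 166132187375) (.two (nat_lit 11476664328) (nat_lit 156569175256) (.two (nat_lit 9765388289) (nat_lit 138414260) (.two (nat_lit 1048576) (nat_lit 2101531) (.one (nat_lit 4199535) .nil)))),
   .two (nat_lit 2969567247) (nat_lit 2350907507) (.two (nat_lit 3460300808) (nat_lit 4647290087) (.two (nat_lit 605028353) (nat_lit 270536435) (.one (nat_lit 20737692284) .nil))),
   .two (nat_lit 11492392975) (nat_lit 184419352685) (.two (nat_lit 183848927240) (nat_lit 11492393801) (.two (nat_lit 37748737) (nat_lit 11559503323) (.two (nat_lit 4194304) (nat_lit 150998161) (.one (nat_lit 4647293596) .nil)))),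
   .two (nat_lit 169869327) (nat_lit 3527410022) (.two (nat_lit 2097157) (nat_lit 3527410896) (.two (nat_lit 2097153) (nat_lit 171968691) (.two (nat_lit 1048576) (nat_lit 10538192608) (.one (nat_lit 2101922) .nil)))),
   .two (nat_lit 9768534031) (nat_lit 822083707) (.two (nat_lit 185002360840) (nat_lit 28793897320) (.two (nat_lit 158144135173) (nat_lit 1309672264) (.two (nat_lit 606076929) (nat_lit 1052398) (.one (nat_lit 1053347) .nil)))),
   .two (nat_lit 9866051599) (nat_lit 184419352643) (.two (nat_lit 10369368072) (nat_lit 12117344613) (.two (nat_lit 10503585797) (nat_lit 183949591760) (.two (nat_lit 156364701697) (nat_lit 9772730550) (.two (nat_lit 1048576) (nat_lit 8392439) (.one (nat_lit 8393380) .nil))))),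
   .two (nat_lit 2954887183) (nat_lit 166132187248) (.two (nat_lit 2954887176) (nat_lit 339739466) (.two (nat_lit 2097153) (nat_lit 156569175515) (.two (nat_lit 1048576) (nat_lit 156969733875) (.one (nat_lit 739250852) .nil)))),
   .two (nat_lit 16777231) (nat_lit 3458203766) (.two (nat_lit 16777224) (nat_lit 184419352933) (.two (nat_lit 184549380) (nat_lit 2954888418) (.two (nat_lit 2097153) (nat_lit 306186414) (.two (nat_lit 2097152) (nat_lit 37752560) (.one (nat_lit 2102384) .nil))))),
   .two (nat_lit 203423759) (nat_lit 20644364400) (.two (nat_lit 203423752) (nat_lit 4638901066) (.two (nat_lit 2097153) (nat_lit 165532404887) (.one (nat_lit 34607740) .nil))),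
   .two (nat_lit 272629775) (nat_lit 158083317875) (.two (nat_lit 4601151496) (nat_lit 1417675592) (.two (nat_lit 41943041) (nat_lit 183916039326) (.one (nat_lit 4199077) .nil))),
   .two (nat_lit 2969567247) (nat_lit 13188989045) (.two (nat_lit 166130089992) (nat_lit 47596961983) (.two (nat_lit 10504634373) (nat_lit 10385097936) (.two (nat_lit 156364701697) (nat_lit 773852308) (.one (nat_lit 21778928250) .nil)))),
   .two (nat_lit 11492392975) (nat_lit 184419352689) (.two (nat_lit 183848927240) (nat_lit 11492393801) (.two (nat_lit 37748737) (nat_lit 11559503323) (.two (nat_lit 4194304) (nat_lit 150998161) (.one (nat_lit 16781990) .nil)))),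
   .two (nat_lit 13191086095) (nat_lit 3028287554) (.two (nat_lit 176160776) (nat_lit 4194900) (.two (nat_lit 8388613) (nat_lit 4634706761) (.two (nat_lit 8388609) (nat_lit 4634707420) (.two (nat_lit 1048576) (nat_lit 8392440) (.one (nat_lit 8393841) .nil))))),
   .two (nat_lit 169869327) (nat_lit 13203669115) (.two (nat_lit 9781116936) (nat_lit 3020947814) (.two (nat_lit 11492392964) (nat_lit 37313578211) (.two (nat_lit 34603009) (nat_lit 4197868) (.two (nat_lit 1048576) (nat_lit 2100985) (.one (nat_lit 1053351) .nil))))),
   .two (nat_lit 11492392975) (nat_lit 156971828041) (.two (nat_lit 9768534017) (nat_lit 11559503323) (.two (nat_lit 4194304) (nat_lit 16780449) (.one (nat_lit 21781025402) .nil))),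
   .two (nat_lit 8388623) (nat_lit 773849208) (.two (nat_lit 813694984) (nat_lit 28760342887) (.two (nat_lit 176160772) (nat_lit 20738737364) (.two (nat_lit 2097153) (nat_lit 608176301) (.two (nat_lit 4194304) (nat_lit 1753222289) (.one (nat_lit 2102386) .nil))))),
   .two (nat_lit 11559501839) (nat_lit 10939793523) (.two (nat_lit 1191182344) (nat_lit 608174665) (.two (nat_lit 171966469) (nat_lit 1291846868) (.two (nat_lit 4194305) (nat_lit 16780043) (.two (nat_lit 1048576) (nat_lit 16781050) (.one (nat_lit 20737692284) .nil))))),
   .two (nat_lit 654311439) (nat_lit 184993972331) (.two (nat_lit 176160776) (nat_lit 13203669352) (.two (nat_lit 721420293) (nat_lit 20644365519) (.two (nat_lit 16777217) (nat_lit 21214793453) (.one (nat_lit 8393843) .nil)))),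
   .two (nat_lit 9768534031) (nat_lit 20638072947) (.two (nat_lit 169869320) (nat_lit 4195343) (.two (nat_lit 2889875460) (nat_lit 35653404) (.two (nat_lit 34603009) (nat_lit 11546921139) (.two (nat_lit 1048576) (nat_lit 4198139) (.one (nat_lit 1053812) .nil))))),
   .two (nat_lit 2902458383) (nat_lit 46980399217) (.two (nat_lit 46409973768) (nat_lit 2902459209) (.two (nat_lit 4194305) (nat_lit 16780443) (.one (nat_lit 16781972) .nil))),
   .two (nat_lit 639631375) (nat_lit 28086108520) (.two (nat_lit 2902458372) (nat_lit 1175454536) (.two (nat_lit 16777217) (nat_lit 159216831648) (.one (nat_lit 2102389) .nil))),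
   .two (nat_lit 11479810063) (nat_lit 20704133185) (.two (nat_lit 742391816) (nat_lit 156566028647) (.two (nat_lit 806354949) (nat_lit 46510638287) (.two (nat_lit 2097153) (nat_lit 638585016) (.two (nat_lit 2097152) (nat_lit 1052956) (.one (nat_lit 2101932) .nil))))),
   .two (nat_lit 46984593423) (nat_lit 28791799931) (.two (nat_lit 28087156744) (nat_lit 310378687) (.two (nat_lit 10335813637) (nat_lit 10336863050) (.two (nat_lit 605028353) (nat_lit 12618565806) (.two (nat_lit 1048576) (nat_lit 2100989) (.one (nat_lit 2102390) .nil))))),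
   .two (nat_lit 8388623) (nat_lit 12117344321) (.two (nat_lit 8388616) (nat_lit 12117344613) (.two (nat_lit 8388612) (nat_lit 183949591760) (.two (nat_lit 4194305) (nat_lit 10947136254) (.two (nat_lit 16777216) (nat_lit 8393358) .nil)))),
   .two (nat_lit 8388623) (nat_lit 843055295) (.two (nat_lit 8388613) (nat_lit 4196128) (.two (nat_lit 8388609) (nat_lit 4196537) (.two (nat_lit 4194304) (nat_lit 8392990) (.one (nat_lit 4199051) .nil)))),
   .two (nat_lit 2887778319) (nat_lit 306184383) (.two (nat_lit 2887778308) (nat_lit 10372515040) (.two (nat_lit 9765388289) (nat_lit 184987683988) (.one (nat_lit 2102391) .nil))),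
   .two (nat_lit 11559501839) (nat_lit 10939793475) (.two (nat_lit 21207449608) (nat_lit 117440703) (.two (nat_lit 158143086597) (nat_lit 1795163344) (.two (nat_lit 605028353) (nat_lit 16779450) (.two (nat_lit 1048576) (nat_lit 16781054) (.one (nat_lit 1053357) .nil))))),
   .two (nat_lit 11479810063) (nat_lit 165532402244) (.two (nat_lit 809500677) (nat_lit 21785216211) (.two (nat_lit 37748737) (nat_lit 21785218190) (.one (nat_lit 4199086) .nil))),
   .two (nat_lit 218103823) (nat_lit 12117344614) (.two (nat_lit 2969567237) (nat_lit 28693234504) (.two (nat_lit 9768534017) (nat_lit 721423511) (.one (nat_lit 843059839) .nil))),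
   .two (nat_lit 754974735) (nat_lit 156465365058) (.two (nat_lit 28690087944) (nat_lit 754975560) (.two (nat_lit 9765388289) (nat_lit 1426067464) .nil)),
   .two (nat_lit 41943055) (nat_lit 235929720) (.two (nat_lit 21785214984) (nat_lit 158176641598) (.two (nat_lit 1343225861) (nat_lit 1417675592) (.two (nat_lit 605028353) (nat_lit 10007610843) (.two (nat_lit 1048576) (nat_lit 10376711313) (.one (nat_lit 1309676147) .nil))))),
   .two (nat_lit 9781116943) (nat_lit 19532873795) (.two (nat_lit 754974728) (nat_lit 157035791595) (.two (nat_lit 4194305) (nat_lit 50335462) (.one (nat_lit 806359710) .nil))),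
   .two (nat_lit 169869327) (nat_lit 1916797040) (.two (nat_lit 169869320) (nat_lit 19130221124) (.two (nat_lit 270532613) (nat_lit 19130222760) (.two (nat_lit 1048576) (nat_lit 4198144) (.one (nat_lit 1053361) .nil)))),
   .two (nat_lit 2902458383) (nat_lit 46980399217) (.two (nat_lit 46409973768) (nat_lit 16777814) (.two (nat_lit 4601151493) (nat_lit 218104648) (.two (nat_lit 4194305) (nat_lit 9948892319) (.one (nat_lit 83890832) .nil)))),
   .two (nat_lit 8388623) (nat_lit 12117344321) (.two (nat_lit 8388616) (nat_lit 12117345096) (.two (nat_lit 4194305) (nat_lit 10947136254) (.two (nat_lit 8388608) (nat_lit 1212157089) (.one (nat_lit 8393358) .nil)))),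
   .two (nat_lit 620757007) (nat_lit 272629951) (.two (nat_lit 184549380) (nat_lit 4030727398) (.two (nat_lit 620756993) (nat_lit 2889878273) (.two (nat_lit 1048576) (nat_lit 3472887541) (.one (nat_lit 3457159799) .nil)))),
   .two (nat_lit 184549391) (nat_lit 46510637122) (.two (nat_lit 9948889096) (nat_lit 4194903) (.two (nat_lit 1291845637) (nat_lit 4195566) (.two (nat_lit 16777217) (nat_lit 184419354810) (.two (nat_lit 8388608) (nat_lit 174768262292) (.one (nat_lit 16782002) .nil))))),
   .two (nat_lit 2954887183) (nat_lit 46980399171) (.two (nat_lit 639631368) (nat_lit 3527410021) (.two (nat_lit 2887778308) (nat_lit 46510638288) (.two (nat_lit 2097153) (nat_lit 205523129) (.two (nat_lit 2097152) (nat_lit 4198687) (.one (nat_lit 2101939) .nil))))),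
   .two (nat_lit 16777231) (nat_lit 1916797119) (.two (nat_lit 16777220) (nat_lit 19599983823) (.two (nat_lit 156364701697) (nat_lit 788531384) (.two (nat_lit 1048576) (nat_lit 4198688) (.one (nat_lit 1053818) .nil)))),
   .two (nat_lit 272629775) (nat_lit 13195280575) (.two (nat_lit 4194308) (nat_lit 8389871) (.two (nat_lit 4194305) (nat_lit 276826297) (.two (nat_lit 16777216) (nat_lit 276828811) .nil))),
   .two (nat_lit 809500687) (nat_lit 11543773302) (.two (nat_lit 1913651208) (nat_lit 156569174207) (.two (nat_lit 11479810053) (nat_lit 10369369326) (.two (nat_lit 34603009) (nat_lit 37316725502) (.two (nat_lit 4194304) (nat_lit 1052961) (.one (nat_lit 1053819) .nil))))),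
   .two (nat_lit 8388623) (nat_lit 158075977795) (.two (nat_lit 8388616) (nat_lit 13221495144) (.two (nat_lit 28760342533) (nat_lit 9765389534) (.two (nat_lit 156367847425) (nat_lit 746588336) (.two (nat_lit 4194304) (nat_lit 1052962) (.one (nat_lit 4199092) .nil))))),
   .two (nat_lit 47555018767) (nat_lit 19027460207) (.two (nat_lit 166130089992) (nat_lit 165532403164) (.two (nat_lit 2097152) (nat_lit 156372045828) .nil)),
   .two (nat_lit 713031695) (nat_lit 11479810166) (.two (nat_lit 4601151496) (nat_lit 8389929) (.two (nat_lit 4194305) (nat_lit 8391527) (.two (nat_lit 4194304) (nat_lit 8393074) (.one (nat_lit 272634577) .nil)))),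
   .two (nat_lit 2889875471) (nat_lit 807403644) (.two (nat_lit 742391816) (nat_lit 1376780479) (.two (nat_lit 11546918917) (nat_lit 21811430642) (.two (nat_lit 2097153) (nat_lit 1947208530) (.two (nat_lit 4194304) (nat_lit 2101619) (.one (nat_lit 2102486) .nil))))),
   .two (nat_lit 276824079) (nat_lit 2420113540) (.two (nat_lit 169869320) (nat_lit 159257723722) (.two (nat_lit 2097153) (nat_lit 10343155885) (.two (nat_lit 1048576) (nat_lit 2956988182) (.one (nat_lit 1053421) .nil)))),
   .two (nat_lit 11492392975) (nat_lit 20707279445) (.two (nat_lit 809500677) (nat_lit 10452206845) (.two (nat_lit 37748737) (nat_lit 16780164) (.two (nat_lit 8388608) (nat_lit 4198772) (.one (nat_lit 10443821775) .nil)))),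
   .two (nat_lit 285212687) (nat_lit 184419352642) (.two (nat_lit 184419352584) (nat_lit 11492394460) (.two (nat_lit 4194304) (nat_lit 185002364938) .nil)),
   .two (nat_lit 639631375) (nat_lit 3531604099) (.two (nat_lit 3525312520) (nat_lit 9806284030) (.two (nat_lit 2097153) (nat_lit 343936152) (.one (nat_lit 11007955575) .nil))),
   .two (nat_lit 3458203663) (nat_lit 156971827312) (.two (nat_lit 3525312520) (nat_lit 1212154696) (.two (nat_lit 9766436865) (nat_lit 4196568) (.two (nat_lit 2097152) (nat_lit 4198773) (.one (nat_lit 13191091298) .nil)))),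
   .two (nat_lit 8388623) (nat_lit 1212154214) (.two (nat_lit 8388612) (nat_lit 4634706760) (.two (nat_lit 8388609) (nat_lit 876612755) (.one (nat_lit 9768538862) .nil))),
   .two (nat_lit 2902458383) (nat_lit 19599982700) (.two (nat_lit 18928893960) (nat_lit 185035916531) (.two (nat_lit 37748737) (nat_lit 185035919113) (.one (nat_lit 16782063) .nil))),
   .two (nat_lit 272629775) (nat_lit 156364701810) (.two (nat_lit 83886088) (nat_lit 12620661095) (.two (nat_lit 2954887173) (nat_lit 2316305640) (.two (nat_lit 9766436865) (nat_lit 184416209076) (.two (nat_lit 2097152) (nat_lit 1052489) (.one (nat_lit 16782551) .nil))))),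
   .two (nat_lit 272629775) (nat_lit 13195280575) (.two (nat_lit 4194308) (nat_lit 343934164) (.two (nat_lit 4194305) (nat_lit 343936837) (.one (nat_lit 272634559) .nil))),
   .two (nat_lit 276824079) (nat_lit 1277165932) (.two (nat_lit 8388612) (nat_lit 135268558) (.two (nat_lit 16777216) (nat_lit 9806287571) .nil)),
   .two (nat_lit 16777231) (nat_lit 28693233777) (.two (nat_lit 13203669000) (nat_lit 19532874568) (.two (nat_lit 2097153) (nat_lit 183949593774) (.one (nat_lit 183861514983) .nil))),
   .two (nat_lit 11492392975) (nat_lit 1950352025) (.two (nat_lit 605028357) (nat_lit 156481094957) (.two (nat_lit 9781116929) (nat_lit 1051525) (.two (nat_lit 16777216) (nat_lit 1053046) (.one (nat_lit 1053912) .nil)))),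
   .two (nat_lit 156367847439) (nat_lit 639631469) (.two (nat_lit 9766436872) (nat_lit 306184383) (.two (nat_lit 41943045) (nat_lit 183916037350) (.two (nat_lit 41943041) (nat_lit 184987683988) (.one (nat_lit 8393945) .nil)))),
   .two (nat_lit 183848927247) (nat_lit 9934209141) (.two (nat_lit 1753219080) (nat_lit 159217877183) (.two (nat_lit 183853121540) (nat_lit 46407877853) (.two (nat_lit 41943041) (nat_lit 1413483668) (.one (nat_lit 2353009260) .nil)))),
   .two (nat_lit 620757007) (nat_lit 46414168130) (.two (nat_lit 11559501832) (nat_lit 19093520972) (.two (nat_lit 754974725) (nat_lit 1175455020) (.two (nat_lit 8388609) (nat_lit 20753418448) (.two (nat_lit 1048576) (nat_lit 8392522) (.one (nat_lit 1053914) .nil))))),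
   .two (nat_lit 169869327) (nat_lit 1916797043) (.two (nat_lit 2954887176) (nat_lit 28089254507) (.two (nat_lit 270532613) (nat_lit 12117345495) (.two (nat_lit 605028353) (nat_lit 9936308397) (.two (nat_lit 1048576) (nat_lit 2101623) (.one (nat_lit 1053915) .nil))))),
   .two (nat_lit 1358954511) (nat_lit 2316304451) (.two (nat_lit 12047089672) (nat_lit 9915335247) (.two (nat_lit 184986632197) (nat_lit 16779172) (.two (nat_lit 156372041729) (nat_lit 11610885960) (.one (nat_lit 68162726) .nil)))),
   .two (nat_lit 46414168079) (nat_lit 46977253961) (.two (nat_lit 184549380) (nat_lit 184416208115) (.two (nat_lit 156372041729) (nat_lit 158075981556) (.one (nat_lit 9906951319) .nil))),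
   .two (nat_lit 16777231) (nat_lit 12047090024) (.two (nat_lit 620756997) (nat_lit 183846831347) (.two (nat_lit 34603009) (nat_lit 10001320806) (.two (nat_lit 8388608) (nat_lit 16781131) (.one (nat_lit 2102493) .nil)))),
   .two (nat_lit 276824079) (nat_lit 3527409777) (.two (nat_lit 705691656) (nat_lit 8389289) (.two (nat_lit 8388612) (nat_lit 4631562023) (.two (nat_lit 2097153) (nat_lit 21781023608) (.two (nat_lit 2097152) (nat_lit 4634709165) (.one (nat_lit 19130225379) .nil))))),
   .two (nat_lit 2902458383) (nat_lit 158144135235) (.two (nat_lit 654311432) (nat_lit 1847591270) (.two (nat_lit 158144135173) (nat_lit 9781117768) (.two (nat_lit 606076929) (nat_lit 46523223193) (.one (nat_lit 9881784949) .nil)))),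
   .two (nat_lit 620757007) (nat_lit 880804533) (.two (nat_lit 102760453) (nat_lit 9948890587) (.two (nat_lit 2097152) (nat_lit 83889307) (.one (nat_lit 16782558) .nil))),
   .two (nat_lit 620757007) (nat_lit 343933289) (.two (nat_lit 184993972229) (nat_lit 9948889928) (.two (nat_lit 41943041) (nat_lit 83889307) (.one (nat_lit 8393456) .nil))),
   .two (nat_lit 28758245391) (nat_lit 2902458480) (.two (nat_lit 639631368) (nat_lit 9781117286) (.two (nat_lit 184549381) (nat_lit 1344275757) (.two (nat_lit 606076929) (nat_lit 1426066309) (.two (nat_lit 2097152) (nat_lit 16781691) (.one (nat_lit 28806484643) .nil))))),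
   .two (nat_lit 18933088271) (nat_lit 35651701) (.two (nat_lit 165526110216) (nat_lit 1753219912) (.two (nat_lit 41943041) (nat_lit 606080819) (.one (nat_lit 2102495) .nil))),
   .two (nat_lit 9781116943) (nat_lit 9802088639) (.two (nat_lit 4194308) (nat_lit 11559503059) (.two (nat_lit 4194305) (nat_lit 12129931060) (.one (nat_lit 4199648) .nil))),
   .two (nat_lit 620757007) (nat_lit 47582281838) (.two (nat_lit 2969567240) (nat_lit 47548728553) (.two (nat_lit 2097153) (nat_lit 16780130) (.two (nat_lit 2097152) (nat_lit 16781692) (.one (nat_lit 169874139) .nil)))),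
   .two (nat_lit 8388623) (nat_lit 673185903) (.two (nat_lit 176160776) (nat_lit 4028630235) (.two (nat_lit 2097153) (nat_lit 10007613239) (.one (nat_lit 2102497) .nil))),
   .two (nat_lit 721420303) (nat_lit 2954887232) (.two (nat_lit 83886088) (nat_lit 102761694) (.two (nat_lit 50331649) (nat_lit 2100762) (.two (nat_lit 16777216) (nat_lit 2101629) (.one (nat_lit 159232561780) .nil)))),
   .two (nat_lit 47555018767) (nat_lit 21208498243) (.two (nat_lit 158144135176) (nat_lit 1317012713) (.two (nat_lit 606076929) (nat_lit 21214792482) (.two (nat_lit 2097152) (nat_lit 28093452101) (.one (nat_lit 2988446319) .nil)))),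
   .two (nat_lit 654311439) (nat_lit 9934209706) (.two (nat_lit 34603013) (nat_lit 9781118427) (.two (nat_lit 1048576) (nat_lit 12129931041) (.one (nat_lit 2102001) .nil))),
   .two (nat_lit 654311439) (nat_lit 1277165687) (.two (nat_lit 157036838920) (nat_lit 156581757552) (.two (nat_lit 34603013) (nat_lit 9781118427) (.two (nat_lit 8388608) (nat_lit 2102001) .nil))),
   .two (nat_lit 8388623) (nat_lit 306184257) (.two (nat_lit 8388616) (nat_lit 47584379239) (.two (nat_lit 8388612) (nat_lit 339740448) (.two (nat_lit 8388609) (nat_lit 4196537) (.two (nat_lit 4194304) (nat_lit 8393086) (.one (nat_lit 8393954) .nil))))),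
   .two (nat_lit 183848927247) (nat_lit 20637024380) (.two (nat_lit 19599982600) (nat_lit 9866052251) (.two (nat_lit 13187940357) (nat_lit 1212154696) (.two (nat_lit 2097153) (nat_lit 19130222774) (.two (nat_lit 1048576) (nat_lit 4198220) (.one (nat_lit 1053923) .nil))))),
   .two (nat_lit 1191182351) (nat_lit 20638072899) (.two (nat_lit 47548727304) (nat_lit 9948889669) (.two (nat_lit 169869316) (nat_lit 16778456) (.two (nat_lit 2097153) (nat_lit 28772927668) (.two (nat_lit 2097152) (nat_lit 721425130) .nil)))),
   .two (nat_lit 9768534031) (nat_lit 218103873) (.two (nat_lit 9768534024) (nat_lit 184431936813) (.two (nat_lit 16777217) (nat_lit 843057334) (.two (nat_lit 16777216) (nat_lit 11010052821) .nil))),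
   .two (nat_lit 16777231) (nat_lit 156364701829) (.two (nat_lit 83886088) (nat_lit 12114199114) (.two (nat_lit 806354949) (nat_lit 3573548836) (.two (nat_lit 2097153) (nat_lit 3573550849) (.one (nat_lit 16782565) .nil)))),
   .two (nat_lit 16777231) (nat_lit 11543773299) (.two (nat_lit 620757000) (nat_lit 336593527) (.two (nat_lit 184549381) (nat_lit 336594798) (.two (nat_lit 8388609) (nat_lit 21811433227) (.one (nat_lit 705696916) .nil)))),
   .two (nat_lit 11479810063) (nat_lit 9899606130) (.two (nat_lit 12117344264) (nat_lit 1376781128) (.two (nat_lit 34603009) (nat_lit 9768537241) (.one (nat_lit 20737692350) .nil))),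
   .two (nat_lit 75497487) (nat_lit 183848927298) (.two (nat_lit 75497480) (nat_lit 855638720) (.two (nat_lit 754974725) (nat_lit 4196261) (.two (nat_lit 41943041) (nat_lit 166144772884) (.two (nat_lit 8388608) (nat_lit 16781133) (.one (nat_lit 8393959) .nil))))),
   .two (nat_lit 1343225871) (nat_lit 21208498242) (.two (nat_lit 10369368072) (nat_lit 21208499016) (.two (nat_lit 8388609) (nat_lit 174686472365) (.two (nat_lit 8388608) (nat_lit 156533526309) (.one (nat_lit 2102504) .nil)))),
   .two (nat_lit 639631375) (nat_lit 28757196914) (.two (nat_lit 3525312520) (nat_lit 158150427215) (.two (nat_lit 13187940357) (nat_lit 21818770726) (.two (nat_lit 156364701697) (nat_lit 2954889400) (.two (nat_lit 2097152) (nat_lit 1053004) (.one (nat_lit 2102505) .nil))))),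
   .two (nat_lit 166130089999) (nat_lit 9948889197) (.two (nat_lit 166130089992) (nat_lit 2902458966) (.two (nat_lit 10504634373) (nat_lit 16778458) (.two (nat_lit 156367847425) (nat_lit 11559504774) (.two (nat_lit 4194304) (nat_lit 2101070) (.one (nat_lit 2102506) .nil))))),
   .two (nat_lit 165532401679) (nat_lit 4599054955) (.two (nat_lit 169869316) (nat_lit 713033941) (.two (nat_lit 4194304) (nat_lit 276828452) (.one (nat_lit 4199659) .nil))),
   .two (nat_lit 612368399) (nat_lit 166130090099) (.two (nat_lit 612368392) (nat_lit 4632609356) (.two (nat_lit 176160772) (nat_lit 9766438183) (.two (nat_lit 2097153) (nat_lit 310381439) (.two (nat_lit 1048576) (nat_lit 840961770) (.one (nat_lit 1053932) .nil))))),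
   .two (nat_lit 176160783) (nat_lit 843055213) (.two (nat_lit 4601151496) (nat_lit 813695583) (.two (nat_lit 8388613) (nat_lit 4195634) (.two (nat_lit 8388609) (nat_lit 4197256) (.two (nat_lit 8388608) (nat_lit 4198223) (.one (nat_lit 156372046447) .nil))))),
   .two (nat_lit 3525312527) (nat_lit 3457155201) (.two (nat_lit 28757196808) (nat_lit 158144135529) (.two (nat_lit 46978301957) (nat_lit 10906240289) (.two (nat_lit 9766436865) (nat_lit 158075979969) (.two (nat_lit 1048576) (nat_lit 11511271213) (.one (nat_lit 1053934) .nil))))),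
   .two (nat_lit 184549391) (nat_lit 158077026428) (.two (nat_lit 9948889096) (nat_lit 169870154) (.two (nat_lit 2097153) (nat_lit 2902462471) .nil)),
   .two (nat_lit 16777231) (nat_lit 184419352686) (.two (nat_lit 285212680) (nat_lit 9802089947) (.two (nat_lit 16777216) (nat_lit 13191090824) .nil)),
   .two (nat_lit 158083317775) (nat_lit 156465365103) (.two (nat_lit 28690087944) (nat_lit 158083318600) (.two (nat_lit 9765388289) (nat_lit 11517562006) (.one (nat_lit 47555022853) .nil))),
   .two (nat_lit 183853121551) (nat_lit 19532873839) (.two (nat_lit 9802088460) (nat_lit 18933089096) (.two (nat_lit 9768534017) (nat_lit 13195284290) (.one (nat_lit 4638905014) .nil))),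
   .two (nat_lit 2954887183) (nat_lit 3565158531) (.two (nat_lit 47548727304) (nat_lit 28093448787) (.two (nat_lit 169869316) (nat_lit 21214790956) (.two (nat_lit 37748737) (nat_lit 158647455516) (.one (nat_lit 156468515506) .nil)))),
   .two (nat_lit 2887778319) (nat_lit 37316722819) (.two (nat_lit 205520904) (nat_lit 3458204237) (.two (nat_lit 10372513797) (nat_lit 158143087844) (.two (nat_lit 2097153) (nat_lit 171968693) (.two (nat_lit 2097152) (nat_lit 19130223789) (.one (nat_lit 1053935) .nil))))),
   .two (nat_lit 46409973775) (nat_lit 11510218818) (.two (nat_lit 3460300808) (nat_lit 156365750868) (.two (nat_lit 184549380) (nat_lit 3020948772) (.two (nat_lit 50331649) (nat_lit 772803450) (.two (nat_lit 4194304) (nat_lit 3525315759) (.one (nat_lit 2102512) .nil))))),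
   .two (nat_lit 4605345807) (nat_lit 9899606083) (.two (nat_lit 10343153672) (nat_lit 156968682739) (.two (nat_lit 41943041) (nat_lit 28086112024) (.one (nat_lit 1053937) .nil))),
   .two (nat_lit 183853121551) (nat_lit 19530776936) (.two (nat_lit 11479810052) (nat_lit 8390566) (.two (nat_lit 2097153) (nat_lit 11517561719) (.two (nat_lit 4194304) (nat_lit 183853125451) (.one (nat_lit 158183985903) .nil)))),
   .two (nat_lit 813694991) (nat_lit 303038597) (.two (nat_lit 11551113224) (nat_lit 2953839189) (.two (nat_lit 2889875460) (nat_lit 4605347048) (.two (nat_lit 4194305) (nat_lit 3020949702) (.two (nat_lit 2097152) (nat_lit 11479813894) (.one (nat_lit 3024097992) .nil))))),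
   .two (nat_lit 18933088271) (nat_lit 156971827314) (.two (nat_lit 157038936072) (nat_lit 9906947318) (.two (nat_lit 4194305) (nat_lit 343935158) (.two (nat_lit 2097152) (nat_lit 8393092) (.one (nat_lit 8393970) .nil)))),
   .two (nat_lit 12054429711) (nat_lit 10537140352) (.two (nat_lit 12114198536) (nat_lit 2961179214) (.two (nat_lit 285212677) (nat_lit 158077028154) (.two (nat_lit 606076929) (nat_lit 11476666579) (.two (nat_lit 2097152) (nat_lit 1053061) (.one (nat_lit 16782579) .nil))))),
   .two (nat_lit 9934209039) (nat_lit 3020947580) (.two (nat_lit 47548727304) (nat_lit 339739466) (.two (nat_lit 2097153) (nat_lit 156569175515) (.two (nat_lit 1048576) (nat_lit 46407880502) (.one (nat_lit 19026416741) .nil)))),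
   .two (nat_lit 809500687) (nat_lit 1317011575) (.two (nat_lit 4601151496) (nat_lit 47588574026) (.two (nat_lit 605028353) (nat_lit 10343155885) (.two (nat_lit 1048576) (nat_lit 8393094) (.one (nat_lit 1053940) .nil)))),
   .two (nat_lit 184549391) (nat_lit 10537140291) (.two (nat_lit 2961178632) (nat_lit 4613735016) (.two (nat_lit 117440517) (nat_lit 11610883959) (.two (nat_lit 620756993) (nat_lit 46507494150) (.two (nat_lit 4194304) (nat_lit 165540794185) (.one (nat_lit 4199155) .nil))))),
   .two (nat_lit 16777231) (nat_lit 742391944) (.two (nat_lit 2889875464) (nat_lit 270533450) (.two (nat_lit 2097153) (nat_lit 708839622) (.two (nat_lit 2097152) (nat_lit 13224644363) (.one (nat_lit 169874120) .nil)))),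
   .two (nat_lit 754974735) (nat_lit 156465365058) (.two (nat_lit 28690087944) (nat_lit 117441353) (.two (nat_lit 9765388289) (nat_lit 1291848855) (.one (nat_lit 20737692381) .nil))),
   .two (nat_lit 272629775) (nat_lit 11007951039) (.two (nat_lit 4194308) (nat_lit 156969731309) (.two (nat_lit 4194305) (nat_lit 158144137402) (.two (nat_lit 4194304) (nat_lit 156365754736) (.one (nat_lit 2319454842) .nil)))),
   .two (nat_lit 83886095) (nat_lit 2350907525) (.two (nat_lit 2969567240) (nat_lit 9900655228) (.two (nat_lit 2097157) (nat_lit 158091707645) (.two (nat_lit 2097153) (nat_lit 158091708617) (.two (nat_lit 1048576) (nat_lit 13188992803) (.one (nat_lit 2317357756) .nil))))),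
   .two (nat_lit 184549391) (nat_lit 12054429761) (.two (nat_lit 620757000) (nat_lit 37320917593) (.two (nat_lit 713031685) (nat_lit 50332883) (.two (nat_lit 8388609) (nat_lit 158192372546) (.two (nat_lit 8388608) (nat_lit 16781703) (.one (nat_lit 16782581) .nil))))),
   .two (nat_lit 2902458383) (nat_lit 19128123674) (.two (nat_lit 3539992584) (nat_lit 19128124689) (.two (nat_lit 9765388289) (nat_lit 184417257655) (.two (nat_lit 1048576) (nat_lit 2350910611) (.one (nat_lit 1053428) .nil)))),
   .two (nat_lit 16777231) (nat_lit 1317011522) (.two (nat_lit 20644364296) (nat_lit 16778715) (.two (nat_lit 8388608) (nat_lit 3539996682) .nil)),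
   .two (nat_lit 2954887183) (nat_lit 742391932) (.two (nat_lit 10504634376) (nat_lit 156367848709) (.two (nat_lit 34603009) (nat_lit 2887781208) (.two (nat_lit 1048576) (nat_lit 9936310063) (.one (nat_lit 2102519) .nil)))),
   .two (nat_lit 9768534031) (nat_lit 12617515121) (.two (nat_lit 19596836872) (nat_lit 46510637897) (.two (nat_lit 9768534017) (nat_lit 11543775443) (.two (nat_lit 4194304) (nat_lit 1052496) (.one (nat_lit 138416856) .nil)))),
   .two (nat_lit 620757007) (nat_lit 9768534207) (.two (nat_lit 184549380) (nat_lit 37750005) (.two (nat_lit 16777217) (nat_lit 174688571148) (.one (nat_lit 184423551728) .nil))),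
   .two (nat_lit 176160783) (nat_lit 174753579122) (.two (nat_lit 673185804) (nat_lit 10007610184) (.two (nat_lit 156365750273) (nat_lit 1317014684) (.one (nat_lit 2102445) .nil))),
   .two (nat_lit 9768534031) (nat_lit 13221494851) (.two (nat_lit 9768534024) (nat_lit 1846542696) (.two (nat_lit 10372513797) (nat_lit 158143087844) (.two (nat_lit 34603009) (nat_lit 183949592782) (.two (nat_lit 4194304) (nat_lit 2101073) (.one (nat_lit 4199157) .nil))))),
   .two (nat_lit 218103823) (nat_lit 19027460210) (.two (nat_lit 166230753293) (nat_lit 654312265) (.two (nat_lit 2097153) (nat_lit 822087439) (.one (nat_lit 16782584) .nil))),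
   .two (nat_lit 654311439) (nat_lit 174686470211) (.two (nat_lit 165532401672) (nat_lit 169869671) (.two (nat_lit 3525312517) (nat_lit 156984412332) (.two (nat_lit 2097152) (nat_lit 20753420986) .nil))),
   .two (nat_lit 16777231) (nat_lit 37314625798) (.two (nat_lit 47563407368) (nat_lit 174753579848) (.two (nat_lit 2097153) (nat_lit 1761610897) (.one (nat_lit 1053945) .nil))),
   .two (nat_lit 713031695) (nat_lit 10436477044) (.two (nat_lit 713031688) (nat_lit 158075978395) (.two (nat_lit 713031684) (nat_lit 1947206472) (.two (nat_lit 2097153) (nat_lit 343934427) (.two (nat_lit 1048576) (nat_lit 158077031041) .nil)))),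
   .two (nat_lit 11479810063) (nat_lit 46414168176) (.two (nat_lit 4605345800) (nat_lit 205521503) (.two (nat_lit 809500677) (nat_lit 343933768) (.two (nat_lit 37748737) (nat_lit 713034906) (.one (nat_lit 8393463) .nil)))),
   .two (nat_lit 8388623) (nat_lit 2889875577) (.two (nat_lit 2889875464) (nat_lit 12054430053) (.two (nat_lit 18933088261) (nat_lit 1916798792) (.two (nat_lit 4194305) (nat_lit 11484006579) (.two (nat_lit 2097152) (nat_lit 809505399) .nil)))),
   .two (nat_lit 822083599) (nat_lit 11513364546) (.two (nat_lit 183848927240) (nat_lit 754975318) (.two (nat_lit 13191086085) (nat_lit 50332488) (.two (nat_lit 37748737) (nat_lit 50333147) (.two (nat_lit 1048576) (nat_lit 205525633) .nil)))),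
   .two (nat_lit 2969567247) (nat_lit 158183981714) (.two (nat_lit 8388612) (nat_lit 654312923) (.two (nat_lit 2097152) (nat_lit 159257727686) .nil)),
   .two (nat_lit 184549391) (nat_lit 2954887285) (.two (nat_lit 620757000) (nat_lit 11517559362) (.two (nat_lit 184549380) (nat_lit 46474986742) (.two (nat_lit 8388609) (nat_lit 352324394) (.two (nat_lit 1048576) (nat_lit 4599059139) .nil)))),
   .two (nat_lit 16777231) (nat_lit 156569174126) (.two (nat_lit 16777224) (nat_lit 306184773) (.two (nat_lit 16777220) (nat_lit 843056339) (.two (nat_lit 16777217) (nat_lit 1178601665) (.two (nat_lit 4194304) (nat_lit 1761611565) (.one (nat_lit 4199674) .nil))))),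
   .two (nat_lit 612368399) (nat_lit 158646403185) (.two (nat_lit 11551113224) (nat_lit 20704134619) (.two (nat_lit 2097152) (nat_lit 1350570611) .nil)),
   .two (nat_lit 10343153679) (nat_lit 21208498243) (.two (nat_lit 158144135176) (nat_lit 276824906) (.two (nat_lit 606076929) (nat_lit 3028289712) (.two (nat_lit 1048576) (nat_lit 679481073) (.one (nat_lit 2102523) .nil)))),
   .two (nat_lit 1753219087) (nat_lit 10436476994) (.two (nat_lit 10939793416) (nat_lit 1216348804) (.two (nat_lit 28757196805) (nat_lit 880806064) (.two (nat_lit 2097152) (nat_lit 1410339457) .nil))),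
   .two (nat_lit 285212687) (nat_lit 10000269426) (.two (nat_lit 2902458376) (nat_lit 1379926645) (.two (nat_lit 47550824453) (nat_lit 2332034272) (.two (nat_lit 2097153) (nat_lit 183946447709) (.two (nat_lit 1048576) (nat_lit 4198792) (.one (nat_lit 18925753066) .nil))))),
   .two (nat_lit 8388623) (nat_lit 9781117040) (.two (nat_lit 1191182344) (nat_lit 4605346390) (.two (nat_lit 9781116933) (nat_lit 46414169306) (.two (nat_lit 50331649) (nat_lit 46414171277) (.one (nat_lit 13195284494) .nil)))),
   .two (nat_lit 16777231) (nat_lit 158176641091) (.two (nat_lit 16777224) (nat_lit 20704133483) (.two (nat_lit 16777220) (nat_lit 2953840812) (.two (nat_lit 4194304) (nat_lit 1779438236) .nil))),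
   .two (nat_lit 50331663) (nat_lit 2990539279) (.two (nat_lit 822083592) (nat_lit 1849689315) (.two (nat_lit 4194305) (nat_lit 9948892324) (.one (nat_lit 47563412093) .nil))),
   .two (nat_lit 50331663) (nat_lit 18933088368) (.two (nat_lit 50331656) (nat_lit 4034921699) (.two (nat_lit 8388609) (nat_lit 654314660) (.one (nat_lit 20737692271) .nil))),
   .two (nat_lit 4194319) (nat_lit 11618222192) (.two (nat_lit 37748744) (nat_lit 156539814473) (.two (nat_lit 4601151493) (nat_lit 847250727) (.two (nat_lit 4194305) (nat_lit 46474987705) (.two (nat_lit 2097152) (nat_lit 11618225956) (.one (nat_lit 1053948) .nil))))),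
   .two (nat_lit 13191086095) (nat_lit 1191183176) (.two (nat_lit 4194305) (nat_lit 352324758) (.one (nat_lit 16782072) .nil)),
   .two (nat_lit 13191086095) (nat_lit 37246468210) (.two (nat_lit 13191086088) (nat_lit 1779434139) (.two (nat_lit 4194308) (nat_lit 1175455642) (.two (nat_lit 2097153) (nat_lit 4598007981) (.two (nat_lit 2097152) (nat_lit 18928898743) .nil)))),
   .two (nat_lit 158144135183) (nat_lit 46510637419) (.two (nat_lit 1277165572) (nat_lit 157038936904) (.two (nat_lit 605028353) (nat_lit 156569176885) (.two (nat_lit 1048576) (nat_lit 37249617933) .nil))),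
   .two (nat_lit 721420303) (nat_lit 2927624311) (.two (nat_lit 11551113224) (nat_lit 83886920) (.two (nat_lit 41943041) (nat_lit 2902460589) (.two (nat_lit 8388608) (nat_lit 4043312901) (.one (nat_lit 12633248364) .nil)))),
   .two (nat_lit 4605345807) (nat_lit 742391932) (.two (nat_lit 19130220557) (nat_lit 4638900586) (.two (nat_lit 2956984325) (nat_lit 13195281224) (.two (nat_lit 4194305) (nat_lit 11517562893) .nil))),
   .two (nat_lit 620757007) (nat_lit 10000269960) (.two (nat_lit 2097157) (nat_lit 876611493) (.two (nat_lit 2097153) (nat_lit 3472887544) (.one (nat_lit 2102009) .nil))),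
   .two (nat_lit 11479810063) (nat_lit 46414168175) (.two (nat_lit 606076936) (nat_lit 3028288328) (.two (nat_lit 2097153) (nat_lit 9806285595) (.two (nat_lit 2097152) (nat_lit 18928898800) .nil))),
   .two (nat_lit 4194319) (nat_lit 721420353) (.two (nat_lit 68157448) (nat_lit 158158815592) (.two (nat_lit 171966469) (nat_lit 4647290714) (.two (nat_lit 34603009) (nat_lit 4601155383) (.one (nat_lit 11510223560) .nil)))),
   .two (nat_lit 620757007) (nat_lit 1947205746) (.two (nat_lit 28690087944) (nat_lit 184419353210) (.two (nat_lit 1343225861) (nat_lit 11559503760) (.two (nat_lit 4194305) (nat_lit 135269230) (.two (nat_lit 4194304) (nat_lit 1053066) (.one (nat_lit 205526185) .nil))))),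
   .two (nat_lit 41943055) (nat_lit 3560964343) (.two (nat_lit 11551113224) (nat_lit 1175454360) (.two (nat_lit 13187940357) (nat_lit 4601152330) (.two (nat_lit 2097153) (nat_lit 608176939) (.two (nat_lit 4194304) (nat_lit 270536450) (.one (nat_lit 2102527) .nil))))),
   .two (nat_lit 1795162127) (nat_lit 2923429955) (.two (nat_lit 4601151496) (nat_lit 156581758206) (.two (nat_lit 4194305) (nat_lit 3036678322) (.two (nat_lit 8388608) (nat_lit 306188947) .nil))),
   .two (nat_lit 9934209039) (nat_lit 183848927351) (.two (nat_lit 705691656) (nat_lit 1916797768) (.two (nat_lit 2097153) (nat_lit 2889878681) (.one (nat_lit 4199680) .nil))),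
   .two (nat_lit 18928893967) (nat_lit 185002361191) (.two (nat_lit 156367847429) (nat_lit 12163482856) (.two (nat_lit 37748737) (nat_lit 10016001802) (.one (nat_lit 16782593) .nil))),
   .two (nat_lit 285212687) (nat_lit 165532401778) (.two (nat_lit 50331656) (nat_lit 10343154504) (.two (nat_lit 8388609) (nat_lit 50334884) (.one (nat_lit 855642789) .nil))),
   .two (nat_lit 4601151503) (nat_lit 2349858926) (.two (nat_lit 272629768) (nat_lit 166129042659) (.two (nat_lit 8388609) (nat_lit 772803332) (.two (nat_lit 8388608) (nat_lit 12147756794) (.one (nat_lit 1053954) .nil)))),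
   .two (nat_lit 2954887183) (nat_lit 37316723288) (.two (nat_lit 169869316) (nat_lit 4634708164) (.two (nat_lit 2097152) (nat_lit 1178604279) .nil)),
   .two (nat_lit 159217877007) (nat_lit 11479810167) (.two (nat_lit 2954887176) (nat_lit 4195146) (.two (nat_lit 2097153) (nat_lit 9802089947) (.two (nat_lit 1048576) (nat_lit 4599059060) .nil))),
   .two (nat_lit 21777874959) (nat_lit 156971827267) (.two (nat_lit 11543773192) (nat_lit 19599983432) (.two (nat_lit 34603009) (nat_lit 46409976985) (.one (nat_lit 13187945076) .nil))),
   .two (nat_lit 37748751) (nat_lit 19093520496) (.two (nat_lit 809500680) (nat_lit 184986632896) (.two (nat_lit 169869316) (nat_lit 20737688803) (.two (nat_lit 4194305) (nat_lit 873466730) (.two (nat_lit 4194304) (nat_lit 166130094755) .nil)))),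
   .two (nat_lit 41943055) (nat_lit 2416968286) (.two (nat_lit 9933160453) (nat_lit 10538190752) (.two (nat_lit 8388609) (nat_lit 46977257221) (.one (nat_lit 4199683) .nil))),
   .two (nat_lit 276824079) (nat_lit 19130220656) (.two (nat_lit 813694984) (nat_lit 2923430581) (.two (nat_lit 34603013) (nat_lit 713032937) (.two (nat_lit 2097153) (nat_lit 10942941356) (.two (nat_lit 2097152) (nat_lit 104860842) (.one (nat_lit 2102012) .nil))))),
   .two (nat_lit 11479810063) (nat_lit 158646403139) (.two (nat_lit 12117344264) (nat_lit 20704133960) (.two (nat_lit 37748737) (nat_lit 135268539) (.two (nat_lit 1048576) (nat_lit 11010052108) .nil))),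
   .two (nat_lit 721420303) (nat_lit 183853121648) (.two (nat_lit 41943048) (nat_lit 721421128) (.two (nat_lit 8388609) (nat_lit 12163484845) (.one (nat_lit 16782031) .nil))),
   .two (nat_lit 218103823) (nat_lit 4028629101) (.two (nat_lit 3458203656) (nat_lit 19142804137) (.two (nat_lit 270532613) (nat_lit 156581758185) (.two (nat_lit 2097153) (nat_lit 2902461306) (.two (nat_lit 1048576) (nat_lit 2101646) (.one (nat_lit 1053959) .nil))))),
   .two (nat_lit 176160783) (nat_lit 806355072) (.two (nat_lit 612368392) (nat_lit 21207450273) (.two (nat_lit 2889875460) (nat_lit 19127076751) (.two (nat_lit 8388609) (nat_lit 1052189) (.two (nat_lit 8388608) (nat_lit 876614343) .nil)))),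
   .two (nat_lit 639631375) (nat_lit 10343153778) (.two (nat_lit 2887778312) (nat_lit 20644364871) (.two (nat_lit 159224168453) (nat_lit 3021996874) (.two (nat_lit 2097153) (nat_lit 880807056) (.one (nat_lit 41947809) .nil)))),
   .two (nat_lit 813694991) (nat_lit 1209008402) (.two (nat_lit 1276117000) (nat_lit 47548727660) (.two (nat_lit 159216828421) (nat_lit 2099111) (.two (nat_lit 4194305) (nat_lit 19596839684) (.two (nat_lit 4194304) (nat_lit 166130093227) (.one (nat_lit 2102536) .nil))))),
   .two (nat_lit 1358954511) (nat_lit 11577327683) (.two (nat_lit 9948889096) (nat_lit 46407876970) (.two (nat_lit 1291845636) (nat_lit 1050536) (.two (nat_lit 9781116929) (nat_lit 2100105) (.two (nat_lit 1048576) (nat_lit 874515630) (.one (nat_lit 13187945124) .nil))))),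
   .two (nat_lit 2969567247) (nat_lit 10370416774) (.two (nat_lit 28690087944) (nat_lit 37329306686) (.two (nat_lit 9881780229) (nat_lit 156968683398) (.two (nat_lit 2097153) (nat_lit 185020189448) (.two (nat_lit 1048576) (nat_lit 16781711) (.one (nat_lit 12115252413) .nil))))),
   .two (nat_lit 809500687) (nat_lit 12114198641) (.two (nat_lit 1913651208) (nat_lit 203425014) (.two (nat_lit 4194305) (nat_lit 1051796) (.one (nat_lit 47547683510) .nil))),
   .two (nat_lit 13191086095) (nat_lit 218103922) (.two (nat_lit 4194312) (nat_lit 184549959) (.two (nat_lit 1745879045) (nat_lit 13224641824) (.two (nat_lit 156364701697) (nat_lit 1379928276) (.two (nat_lit 1048576) (nat_lit 183949594951) (.one (nat_lit 4199692) .nil))))),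
   .two (nat_lit 4194319) (nat_lit 880803951) (.two (nat_lit 37748744) (nat_lit 47588574026) (.two (nat_lit 4194305) (nat_lit 9933164310) (.one (nat_lit 47547683510) .nil))),
   .two (nat_lit 654311439) (nat_lit 10504635020) (.two (nat_lit 721420292) (nat_lit 165525063586) (.two (nat_lit 156364701697) (nat_lit 166245436187) (.two (nat_lit 1048576) (nat_lit 2954891969) .nil))),
   .two (nat_lit 285212687) (nat_lit 183848927351) (.two (nat_lit 205520904) (nat_lit 9781118427) (.two (nat_lit 1048576) (nat_lit 2902461599) (.one (nat_lit 4631565485) .nil))),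
   .two (nat_lit 13195280399) (nat_lit 46510637122) (.two (nat_lit 310378509) (nat_lit 272630364) (.two (nat_lit 272629765) (nat_lit 8390569) (.two (nat_lit 4194305) (nat_lit 8392222) (.two (nat_lit 1048576) (nat_lit 2889879300) (.one (nat_lit 4199694) .nil))))),
   .two (nat_lit 4194319) (nat_lit 47555019109) (.two (nat_lit 171966469) (nat_lit 47588574503) (.two (nat_lit 4194305) (nat_lit 2953841490) (.two (nat_lit 2097152) (nat_lit 608177300) (.one (nat_lit 2102543) .nil)))),
   .two (nat_lit 721420303) (nat_lit 10436477038) (.two (nat_lit 721420296) (nat_lit 12114199137) (.two (nat_lit 721420292) (nat_lit 9899607260) (.two (nat_lit 8388609) (nat_lit 11626613633) (.two (nat_lit 8388608) (nat_lit 16781712) (.one (nat_lit 16782608) .nil))))),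
   .two (nat_lit 20638072847) (nat_lit 46414168178) (.two (nat_lit 46414168077) (nat_lit 159251432018) (.two (nat_lit 176160773) (nat_lit 10907288392) (.two (nat_lit 8388609) (nat_lit 4632610993) (.two (nat_lit 8388608) (nat_lit 2101649) (.one (nat_lit 8394001) .nil))))),
   .two (nat_lit 13191086095) (nat_lit 46992982298) (.two (nat_lit 4194312) (nat_lit 20753417459) (.two (nat_lit 50331649) (nat_lit 605031274) (.two (nat_lit 4194304) (nat_lit 1053074) (.one (nat_lit 4199698) .nil)))),
   .two (nat_lit 184549391) (nat_lit 10000269960) (.two (nat_lit 16777221) (nat_lit 739247998) (.two (nat_lit 16777217) (nat_lit 19597888276) (.two (nat_lit 1048576) (nat_lit 19597889294) (.one (nat_lit 2102547) .nil)))),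
   .two (nat_lit 2954887183) (nat_lit 184986632324) (.two (nat_lit 21207449608) (nat_lit 21812478554) (.two (nat_lit 13187940357) (nat_lit 4634706760) (.two (nat_lit 2097153) (nat_lit 46980402346) (.one (nat_lit 1053972) .nil)))),
   .two (nat_lit 1291845647) (nat_lit 12054430059) (.two (nat_lit 8388612) (nat_lit 10385097544) (.two (nat_lit 8388609) (nat_lit 654315308) (.one (nat_lit 13195285124) .nil))),
   .two (nat_lit 276824079) (nat_lit 19130220659) (.two (nat_lit 2887778312) (nat_lit 46409974349) (.two (nat_lit 34603013) (nat_lit 184423548208) (.two (nat_lit 2097153) (nat_lit 171968693) (.two (nat_lit 2097152) (nat_lit 19130223789) (.one (nat_lit 4199702) .nil))))),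
   .two (nat_lit 9934209039) (nat_lit 1309671781) (.two (nat_lit 184549380) (nat_lit 68158280) (.two (nat_lit 16777217) (nat_lit 9967766675) (.one (nat_lit 2102551) .nil))),
   .two (nat_lit 809500687) (nat_lit 10939793768) (.two (nat_lit 16777220) (nat_lit 11580475583) (.two (nat_lit 16777216) (nat_lit 843058323) (.one (nat_lit 4199704) .nil))),
   .two (nat_lit 1358954511) (nat_lit 847249599) (.two (nat_lit 8388612) (nat_lit 1291846892) (.two (nat_lit 8388609) (nat_lit 21812480173) (.two (nat_lit 8388608) (nat_lit 2101651) (.one (nat_lit 2102553) .nil)))),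
   .two (nat_lit 4194319) (nat_lit 174686470265) (.two (nat_lit 8388616) (nat_lit 11610882405) (.two (nat_lit 4194308) (nat_lit 37246469351) (.two (nat_lit 605028353) (nat_lit 10338962278) (.two (nat_lit 8388608) (nat_lit 2101076) (.one (nat_lit 1176507119) .nil))))),
   .two (nat_lit 276824079) (nat_lit 20638073189) (.two (nat_lit 8388612) (nat_lit 11610884267) (.two (nat_lit 8388608) (nat_lit 11006905504) (.one (nat_lit 4199706) .nil))),
   .two (nat_lit 713031695) (nat_lit 158646403139) (.two (nat_lit 11551113224) (nat_lit 166196151112) (.two (nat_lit 41943041) (nat_lit 166129043647) (.two (nat_lit 1048576) (nat_lit 713036523) .nil))),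
   .two (nat_lit 2889875471) (nat_lit 156372041839) (.two (nat_lit 156372041736) (nat_lit 4195624) (.two (nat_lit 4194305) (nat_lit 3464496604) (.two (nat_lit 4194304) (nat_lit 8393108) (.one (nat_lit 4199707) .nil)))),
   .two (nat_lit 8388623) (nat_lit 2889875577) (.two (nat_lit 13195280392) (nat_lit 9802088809) (.two (nat_lit 183853121540) (nat_lit 1279264009) (.two (nat_lit 4194305) (nat_lit 1350568121) (.two (nat_lit 16777216) (nat_lit 21814579907) .nil)))),
   .two (nat_lit 46409973775) (nat_lit 159217877110) (.two (nat_lit 3460300808) (nat_lit 19094569597) (.two (nat_lit 47550824453) (nat_lit 304088913) (.two (nat_lit 4194305) (nat_lit 11007953725) (.two (nat_lit 1048576) (nat_lit 4028632843) (.one (nat_lit 1053980) .nil))))),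
   .two (nat_lit 4194319) (nat_lit 343933041) (.two (nat_lit 809500680) (nat_lit 1410335996) (.two (nat_lit 4194305) (nat_lit 156976025391) (.one (nat_lit 11551117932) .nil))),
   .two (nat_lit 2902458383) (nat_lit 28757197431) (.two (nat_lit 705691652) (nat_lit 1358956720) (.two (nat_lit 1048576) (nat_lit 10955525891) (.one (nat_lit 28693238493) .nil))),
   .two (nat_lit 41943055) (nat_lit 10000269427) (.two (nat_lit 184986632200) (nat_lit 19130221168) (.two (nat_lit 183848927237) (nat_lit 184986633516) (.two (nat_lit 8388609) (nat_lit 10000272154) (.two (nat_lit 1048576) (nat_lit 8393109) (.one (nat_lit 8393471) .nil))))),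
   .two (nat_lit 16777231) (nat_lit 239075606) (.two (nat_lit 272629768) (nat_lit 50331839) (.two (nat_lit 184549380) (nat_lit 3024095122) (.two (nat_lit 9781116929) (nat_lit 4634708157) (.two (nat_lit 16777216) (nat_lit 4198806) (.one (nat_lit 184989782672) .nil))))),
   .two (nat_lit 169869327) (nat_lit 174755676445) (.two (nat_lit 2954887176) (nat_lit 9969861205) (.two (nat_lit 166132187140) (nat_lit 9966715722) (.two (nat_lit 605028353) (nat_lit 28758248207) (.two (nat_lit 1048576) (nat_lit 2101655) (.one (nat_lit 1053983) .nil))))),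
   .two (nat_lit 203423759) (nat_lit 156971827314) (.two (nat_lit 9766436872) (nat_lit 12117344837) (.two (nat_lit 46409973764) (nat_lit 158077027632) (.two (nat_lit 2097153) (nat_lit 20707281761) (.two (nat_lit 8388608) (nat_lit 2101656) (.one (nat_lit 2102560) .nil))))),
   .two (nat_lit 1358954511) (nat_lit 11577327683) (.two (nat_lit 9948889096) (nat_lit 46407876970) (.two (nat_lit 4599054341) (nat_lit 11593057558) (.two (nat_lit 2097153) (nat_lit 16780170) (.two (nat_lit 1048576) (nat_lit 9967768277) .nil)))),
   .two (nat_lit 46407876623) (nat_lit 10343153771) (.two (nat_lit 183845781512) (nat_lit 158653743737) (.two (nat_lit 8388613) (nat_lit 13222545296) (.two (nat_lit 612368385) (nat_lit 1051531) (.two (nat_lit 1048576) (nat_lit 2101657) (.one (nat_lit 158647456470) .nil))))),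
   .two (nat_lit 169869327) (nat_lit 1916797040) (.two (nat_lit 46407876616) (nat_lit 19130221780) (.two (nat_lit 605028353) (nat_lit 11513367409) (.two (nat_lit 1048576) (nat_lit 203427573) (.one (nat_lit 1053440) .nil)))),
   .two (nat_lit 713031695) (nat_lit 1048700) (.two (nat_lit 612368392) (nat_lit 3525312703) (.two (nat_lit 176160772) (nat_lit 47548728550) (.two (nat_lit 34603009) (nat_lit 184993974460) (.two (nat_lit 2097152) (nat_lit 202378388) (.one (nat_lit 1053985) .nil))))),
   .two (nat_lit 183853121551) (nat_lit 1309671560) (.two (nat_lit 739246088) (nat_lit 165532402504) (.two (nat_lit 34603009) (nat_lit 156372044941) (.one (nat_lit 183853125646) .nil))),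
   .two (nat_lit 183848927247) (nat_lit 605028485) (.two (nat_lit 19599982600) (nat_lit 1049672) (.two (nat_lit 13187940357) (nat_lit 158146234543) (.two (nat_lit 1048576) (nat_lit 19130223790) (.one (nat_lit 2886735020) .nil)))),
   .two (nat_lit 176160783) (nat_lit 19027460205) (.two (nat_lit 9940500488) (nat_lit 46474986972) (.two (nat_lit 4194304) (nat_lit 28791803690) (.one (nat_lit 2102564) .nil))),
   .two (nat_lit 50331663) (nat_lit 20738736194) (.two (nat_lit 50331656) (nat_lit 20738736969) (.two (nat_lit 16777217) (nat_lit 11007954086) (.one (nat_lit 10940846701) .nil))),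
   .two (nat_lit 612368399) (nat_lit 4601151679) (.two (nat_lit 176160773) (nat_lit 843056340) (.two (nat_lit 8388609) (nat_lit 156971830027) (.two (nat_lit 1048576) (nat_lit 205524744) (.one (nat_lit 873468611) .nil)))),
   .two (nat_lit 721420303) (nat_lit 9867100267) (.two (nat_lit 11479810056) (nat_lit 10437526135) (.two (nat_lit 809500677) (nat_lit 46407878442) (.two (nat_lit 620756993) (nat_lit 1310722216) (.two (nat_lit 4194304) (nat_lit 46407880448) (.one (nat_lit 4199718) .nil))))),
   .two (nat_lit 809500687) (nat_lit 1175453817) (.two (nat_lit 1350565896) (nat_lit 47548727487) (.two (nat_lit 713031685) (nat_lit 47581235416) (.two (nat_lit 8388608) (nat_lit 1052501) (.one (nat_lit 1053991) .nil)))),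
   .two (nat_lit 2889875471) (nat_lit 21208498242) (.two (nat_lit 165526110216) (nat_lit 183949590886) (.two (nat_lit 3527409669) (nat_lit 158077027623) (.two (nat_lit 606076929) (nat_lit 46409976642) (.two (nat_lit 2097152) (nat_lit 4198810) (.one (nat_lit 46407881342) .nil))))),
   .two (nat_lit 9948889103) (nat_lit 174753579606) (.two (nat_lit 184549380) (nat_lit 2887779628) (.two (nat_lit 2097153) (nat_lit 156581760737) (.one (nat_lit 2987397754) .nil))),
   .two (nat_lit 2954887183) (nat_lit 158649548920) (.two (nat_lit 2954887176) (nat_lit 166199297280) (.two (nat_lit 620756993) (nat_lit 174753582225) (.one (nat_lit 21812482764) .nil))),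
   .two (nat_lit 4194319) (nat_lit 620757059) (.two (nat_lit 4194312) (nat_lit 1191182697) (.two (nat_lit 2956984325) (nat_lit 28101838089) (.two (nat_lit 50331649) (nat_lit 4598009006) (.one (nat_lit 1053992) .nil)))),
   .two (nat_lit 612368399) (nat_lit 1209008400) (.two (nat_lit 75497480) (nat_lit 839910004) (.two (nat_lit 75497477) (nat_lit 13221496669) (.two (nat_lit 34603009) (nat_lit 813697209) (.two (nat_lit 1048576) (nat_lit 8393115) (.one (nat_lit 806359696) .nil))))),
   .two (nat_lit 37748751) (nat_lit 11618222147) (.two (nat_lit 37748744) (nat_lit 4034920808) (.two (nat_lit 21778923525) (nat_lit 1182795017) (.two (nat_lit 8388609) (nat_lit 9936309422) (.one (nat_lit 4199170) .nil)))),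
   .two (nat_lit 11479810063) (nat_lit 276824906) (.two (nat_lit 37748737) (nat_lit 28093450411) (.two (nat_lit 1048576) (nat_lit 608177968) (.one (nat_lit 8394025) .nil))),
   .two (nat_lit 2889875471) (nat_lit 889192639) (.two (nat_lit 2889875460) (nat_lit 606079176) (.two (nat_lit 2097152) (nat_lit 4198230) (.one (nat_lit 169874120) .nil))),
   .two (nat_lit 9948889103) (nat_lit 12115247233) (.two (nat_lit 16777224) (nat_lit 183916036287) (.two (nat_lit 16777220) (nat_lit 156971828436) (.two (nat_lit 4194305) (nat_lit 9881783120) (.two (nat_lit 2097152) (nat_lit 4198814) (.one (nat_lit 2102019) .nil))))),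
   .two (nat_lit 11559501839) (nat_lit 772800621) (.two (nat_lit 184416206856) (nat_lit 1358955336) (.two (nat_lit 34603009) (nat_lit 2902461606) (.one (nat_lit 28806484636) .nil))),
   .two (nat_lit 11479810063) (nat_lit 3525312576) (.two (nat_lit 1916796936) (nat_lit 158144136417) (.two (nat_lit 37748737) (nat_lit 46508542137) (.two (nat_lit 4194304) (nat_lit 270537085) (.one (nat_lit 641733236) .nil)))),
   .two (nat_lit 276824079) (nat_lit 4634706032) (.two (nat_lit 21777874952) (nat_lit 2994733700) (.two (nat_lit 176160773) (nat_lit 1309672748) (.two (nat_lit 8388609) (nat_lit 21207452553) (.two (nat_lit 4194304) (nat_lit 9940503700) (.one (nat_lit 4199723) .nil))))),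
   .two (nat_lit 9781116943) (nat_lit 18928894019) (.two (nat_lit 46409973768) (nat_lit 721420886) (.two (nat_lit 4601151493) (nat_lit 822084825) (.two (nat_lit 156372041729) (nat_lit 218106758) (.two (nat_lit 8388608) (nat_lit 272634561) .nil)))),
   .two (nat_lit 822083599) (nat_lit 1182793859) (.two (nat_lit 16777224) (nat_lit 2357199207) (.two (nat_lit 19530776581) (nat_lit 47588574449) (.two (nat_lit 2097153) (nat_lit 185027530501) (.one (nat_lit 2927629571) .nil)))),
   .two (nat_lit 13195280399) (nat_lit 4634706111) (.two (nat_lit 46409973765) (nat_lit 310379790) (.two (nat_lit 9781116929) (nat_lit 166232853660) (.one (nat_lit 4199724) .nil))),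
   .two (nat_lit 169869327) (nat_lit 4034920571) (.two (nat_lit 37748744) (nat_lit 28798091885) (.two (nat_lit 2097157) (nat_lit 13191087332) (.two (nat_lit 8388609) (nat_lit 21207452515) (.two (nat_lit 2097152) (nat_lit 12121542397) (.one (nat_lit 8394030) .nil))))),
   .two (nat_lit 75497487) (nat_lit 639631623) (.two (nat_lit 4194312) (nat_lit 1182794340) (.two (nat_lit 9933160453) (nat_lit 2994734308) (.two (nat_lit 4194305) (nat_lit 47582284596) (.two (nat_lit 1048576) (nat_lit 19128127318) (.one (nat_lit 156566033096) .nil))))),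
   .two (nat_lit 4601151503) (nat_lit 1176502405) (.two (nat_lit 174753579016) (nat_lit 4195401) (.two (nat_lit 2097157) (nat_lit 1749026030) (.two (nat_lit 2097153) (nat_lit 239077566) (.two (nat_lit 1048576) (nat_lit 11611933844) (.one (nat_lit 1779438846) .nil))))),
   .two (nat_lit 75497487) (nat_lit 9881780805) (.two (nat_lit 16777220) (nat_lit 4605348022) (.two (nat_lit 8388608) (nat_lit 16781730) (.one (nat_lit 8394032) .nil))),
   .two (nat_lit 9934209039) (nat_lit 18933088854) (.two (nat_lit 169869316) (nat_lit 158083318600) (.two (nat_lit 2097153) (nat_lit 46980402927) (.one (nat_lit 4199729) .nil))),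
   .two (nat_lit 1350565903) (nat_lit 158176641089) (.two (nat_lit 4194312) (nat_lit 880804031) (.two (nat_lit 11479810052) (nat_lit 166237045983) (.two (nat_lit 37748737) (nat_lit 873466054) (.two (nat_lit 1048576) (nat_lit 1916800163) (.one (nat_lit 1054002) .nil))))),
   .two (nat_lit 203423759) (nat_lit 156372041839) (.two (nat_lit 705691656) (nat_lit 46414169564) (.two (nat_lit 1048576) (nat_lit 156969733268) (.one (nat_lit 2102579) .nil))),
   .two (nat_lit 16777231) (nat_lit 183949591100) (.two (nat_lit 16777220) (nat_lit 843057320) (.two (nat_lit 4194304) (nat_lit 16781732) (.one (nat_lit 352326291) .nil))),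
   .two (nat_lit 2954887183) (nat_lit 50331839) (.two (nat_lit 2969567237) (nat_lit 1377830160) (.two (nat_lit 156372041729) (nat_lit 1411387113) (.one (nat_lit 2102581) .nil))),
   .two (nat_lit 9866051599) (nat_lit 184993972415) (.two (nat_lit 1343225861) (nat_lit 4638901530) (.two (nat_lit 605028353) (nat_lit 8391564) (.two (nat_lit 1048576) (nat_lit 185027530477) (.one (nat_lit 672141942) .nil)))),
   .two (nat_lit 11559501839) (nat_lit 28790751593) (.two (nat_lit 21777874949) (nat_lit 721421128) (.two (nat_lit 605028353) (nat_lit 1291848870) (.one (nat_lit 10000274061) .nil))),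
   .two (nat_lit 16777231) (nat_lit 310378563) (.two (nat_lit 184549384) (nat_lit 3464495466) (.two (nat_lit 721420292) (nat_lit 13195281715) (.two (nat_lit 156372041729) (nat_lit 16780833) (.two (nat_lit 8388608) (nat_lit 4647293339) (.one (nat_lit 20745032310) .nil))))),
   .two (nat_lit 16777231) (nat_lit 11543773251) (.two (nat_lit 721420296) (nat_lit 1049674) (.two (nat_lit 184549380) (nat_lit 1343227765) (.two (nat_lit 8388609) (nat_lit 68159702) (.two (nat_lit 8388608) (nat_lit 1410338580) (.one (nat_lit 754980138) .nil))))),
   .two (nat_lit 1795162127) (nat_lit 3464495216) (.two (nat_lit 176160776) (nat_lit 159232557898) (.two (nat_lit 8388609) (nat_lit 50333869) (.two (nat_lit 4194304) (nat_lit 47588577957) .nil))),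
   .two (nat_lit 9781116943) (nat_lit 1279262851) (.two (nat_lit 46409973768) (nat_lit 13237223615) (.two (nat_lit 3527409669) (nat_lit 19128125613) (.two (nat_lit 2097152) (nat_lit 4198821) (.one (nat_lit 3022000748) .nil)))),
   .two (nat_lit 9934209039) (nat_lit 11559502398) (.two (nat_lit 16777221) (nat_lit 9867102405) (.two (nat_lit 16777216) (nat_lit 184987683985) (.one (nat_lit 3525317744) .nil))),
   .two (nat_lit 8388623) (nat_lit 166199296245) (.two (nat_lit 13195280392) (nat_lit 9936306773) (.two (nat_lit 171966469) (nat_lit 1283458301) (.two (nat_lit 4194305) (nat_lit 46984596331) (.two (nat_lit 1048576) (nat_lit 171970351) (.one (nat_lit 2956989598) .nil))))),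
   .two (nat_lit 8388623) (nat_lit 9900654705) (.two (nat_lit 1358954504) (nat_lit 174759871740) (.two (nat_lit 50331649) (nat_lit 2101039) (.one (nat_lit 8394038) .nil))),
   .two (nat_lit 169869327) (nat_lit 276824191) (.two (nat_lit 37748744) (nat_lit 156539814500) (.two (nat_lit 2887778308) (nat_lit 174752531721) (.two (nat_lit 9766436865) (nat_lit 47550827338) (.two (nat_lit 2097152) (nat_lit 183953788665) (.one (nat_lit 11611935399) .nil))))),
   .two (nat_lit 16777231) (nat_lit 183853121651) (.two (nat_lit 8388616) (nat_lit 50332488) (.two (nat_lit 8388609) (nat_lit 183962176685) (.one (nat_lit 16782647) .nil))),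
   .two (nat_lit 184549391) (nat_lit 156567077221) (.two (nat_lit 184549380) (nat_lit 19127075657) (.two (nat_lit 620756993) (nat_lit 645925073) (.two (nat_lit 2097152) (nat_lit 1053094) (.one (nat_lit 8394040) .nil)))),
   .two (nat_lit 176160783) (nat_lit 19027460205) (.two (nat_lit 47555018760) (nat_lit 46474986972) (.two (nat_lit 2097152) (nat_lit 8393127) (.one (nat_lit 8394041) .nil))),
   .two (nat_lit 8388623) (nat_lit 4647288899) (.two (nat_lit 2902458376) (nat_lit 41943231) (.two (nat_lit 176160772) (nat_lit 2887779560) (.two (nat_lit 2097153) (nat_lit 4647292738) (.one (nat_lit 2921337452) .nil)))),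
   .two (nat_lit 11479810063) (nat_lit 156566028937) (.two (nat_lit 2889875460) (nat_lit 21777876853) (.two (nat_lit 16777217) (nat_lit 9899609263) (.one (nat_lit 12050240804) .nil))),
   .two (nat_lit 713031695) (nat_lit 306184383) (.two (nat_lit 183853121540) (nat_lit 4601152782) (.two (nat_lit 612368385) (nat_lit 19029560831) (.two (nat_lit 8388608) (nat_lit 4198825) (.one (nat_lit 19033756773) .nil)))),
   .two (nat_lit 285212687) (nat_lit 28693233730) (.two (nat_lit 28693233672) (nat_lit 83886675) (.two (nat_lit 1916796933) (nat_lit 28772926738) (.two (nat_lit 9768534017) (nat_lit 185035917523) (.two (nat_lit 2097152) (nat_lit 4199128) .nil)))),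
   .two (nat_lit 654311439) (nat_lit 11010048117) (.two (nat_lit 9781116936) (nat_lit 13191086669) (.two (nat_lit 218103813) (nat_lit 11614028618) (.two (nat_lit 16777217) (nat_lit 11580475568) (.two (nat_lit 16777216) (nat_lit 4198826) (.one (nat_lit 4199742) .nil))))),
   .two (nat_lit 2954887183) (nat_lit 19537068689) (.two (nat_lit 2097157) (nat_lit 10343154909) (.two (nat_lit 34603009) (nat_lit 310381393) (.two (nat_lit 1048576) (nat_lit 2101675) (.one (nat_lit 1054015) .nil)))),
   .two (nat_lit 37748751) (nat_lit 3028287601) (.two (nat_lit 47555018760) (nat_lit 4195403) (.two (nat_lit 169869316) (nat_lit 1417676081) (.two (nat_lit 2097153) (nat_lit 1182797615) (.one (nat_lit 8394048) .nil)))),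
   .two (nat_lit 8388623) (nat_lit 13221494912) (.two (nat_lit 41943048) (nat_lit 19026412223) (.two (nat_lit 41943045) (nat_lit 1175454949) (.two (nat_lit 16777217) (nat_lit 2886732961) (.one (nat_lit 8393476) .nil)))),
   .two (nat_lit 4601151503) (nat_lit 165532401775) (.two (nat_lit 10343153677) (nat_lit 9802088639) (.two (nat_lit 10343153669) (nat_lit 9802089947) (.two (nat_lit 8388608) (nat_lit 2923433119) (.one (nat_lit 4199745) .nil)))),
   .two (nat_lit 639631375) (nat_lit 285212863) (.two (nat_lit 620756997) (nat_lit 2887779560) (.two (nat_lit 156367847425) (nat_lit 2887782114) (.one (nat_lit 16782057) .nil))),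
   .two (nat_lit 654311439) (nat_lit 1914699893) (.two (nat_lit 158077026312) (nat_lit 10519315103) (.two (nat_lit 184989777925) (nat_lit 3472885662) (.two (nat_lit 606076929) (nat_lit 12163483856) (.two (nat_lit 8388608) (nat_lit 1344278346) (.one (nat_lit 2102021) .nil))))),
   .two (nat_lit 16777231) (nat_lit 608174200) (.two (nat_lit 822083592) (nat_lit 47550825725) (.two (nat_lit 50331649) (nat_lit 13224643352) (.two (nat_lit 4194304) (nat_lit 16781741) (.one (nat_lit 16782658) .nil)))),
   .two (nat_lit 813694991) (nat_lit 21207449721) (.two (nat_lit 8388616) (nat_lit 4599055017) (.two (nat_lit 176160773) (nat_lit 337642792) (.two (nat_lit 8388609) (nat_lit 156532476102) (.two (nat_lit 2097152) (nat_lit 10443820192) (.one (nat_lit 1054019) .nil))))),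
   .two (nat_lit 117440527) (nat_lit 9934209145) (.two (nat_lit 10385096712) (nat_lit 740295302) (.two (nat_lit 2097157) (nat_lit 12163482894) (.two (nat_lit 606076929) (nat_lit 9966717103) (.two (nat_lit 1048576) (nat_lit 13222546606) (.one (nat_lit 1054020) .nil))))),
   .two (nat_lit 713031695) (nat_lit 159216828552) (.two (nat_lit 169869320) (nat_lit 10007609535) (.two (nat_lit 209715205) (nat_lit 2099117) (.two (nat_lit 34603009) (nat_lit 169872171) (.two (nat_lit 1048576) (nat_lit 28758248611) (.one (nat_lit 1053432) .nil))))),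
   .two (nat_lit 8388623) (nat_lit 135266371) (.two (nat_lit 41943048) (nat_lit 11577327974) (.two (nat_lit 713031684) (nat_lit 28690089797) (.two (nat_lit 41943041) (nat_lit 11610884908) (.two (nat_lit 1048576) (nat_lit 8393134) (.one (nat_lit 11584672961) .nil))))),
   .two (nat_lit 9781116943) (nat_lit 339738986) (.two (nat_lit 4194308) (nat_lit 11593057554) (.two (nat_lit 37748737) (nat_lit 11476668238) (.one (nat_lit 1054021) .nil))),
   .two (nat_lit 285212687) (nat_lit 19532873843) (.two (nat_lit 46409973768) (nat_lit 9781118427) (.two (nat_lit 4194304) (nat_lit 9781120141) (.one (nat_lit 16782086) .nil))),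
   .two (nat_lit 117440527) (nat_lit 46409973827) (.two (nat_lit 4601151496) (nat_lit 1358955736) (.two (nat_lit 37748737) (nat_lit 28806482113) (.two (nat_lit 4194304) (nat_lit 889197262) .nil))),
   .two (nat_lit 1291845647) (nat_lit 19094569077) (.two (nat_lit 46407876616) (nat_lit 1325401361) (.two (nat_lit 605028353) (nat_lit 10552871105) (.two (nat_lit 1048576) (nat_lit 16781143) (.one (nat_lit 16782087) .nil)))),
   .two (nat_lit 16777231) (nat_lit 10376708225) (.two (nat_lit 46414168072) (nat_lit 3036677353) (.two (nat_lit 8388609) (nat_lit 47563410210) (.two (nat_lit 8388608) (nat_lit 159266115947) (.one (nat_lit 8394056) .nil)))),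
   .two (nat_lit 183848927247) (nat_lit 47555018818) (.two (nat_lit 47555018760) (nat_lit 1212154696) (.two (nat_lit 8388609) (nat_lit 9802091664) (.one (nat_lit 11010052109) .nil))),
   .two (nat_lit 8388623) (nat_lit 28693233729) (.two (nat_lit 1175453704) (nat_lit 19096667439) (.two (nat_lit 4194305) (nat_lit 1182796630) (.two (nat_lit 1048576) (nat_lit 8393136) (.one (nat_lit 19093525173) .nil)))),
   .two (nat_lit 10343153679) (nat_lit 10437525626) (.two (nat_lit 4605345800) (nat_lit 3460302073) (.two (nat_lit 8388609) (nat_lit 272632010) (.two (nat_lit 4194304) (nat_lit 2101682) (.one (nat_lit 28087161990) .nil)))),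
   .two (nat_lit 28086108175) (nat_lit 10336862818) (.two (nat_lit 10335813637) (nat_lit 10940842824) (.two (nat_lit 605028353) (nat_lit 673189034) (.one (nat_lit 2102024) .nil))),
   .two (nat_lit 46409973775) (nat_lit 158144135233) (.two (nat_lit 28758245384) (nat_lit 9802089288) (.two (nat_lit 2097153) (nat_lit 1749028003) (.one (nat_lit 339743357) .nil))),
   .two (nat_lit 9948889103) (nat_lit 174686470259) (.two (nat_lit 1291845640) (nat_lit 2988442188) (.two (nat_lit 4599054341) (nat_lit 654312665) (.two (nat_lit 156365750273) (nat_lit 889195310) (.two (nat_lit 1048576) (nat_lit 16781747) (.one (nat_lit 638587608) .nil))))),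
   .two (nat_lit 11479810063) (nat_lit 9899606130) (.two (nat_lit 1916796936) (nat_lit 1376781128) (.two (nat_lit 34603009) (nat_lit 272632989) (.one (nat_lit 4199754) .nil))),
   .two (nat_lit 218103823) (nat_lit 4028629102) (.two (nat_lit 47548727304) (nat_lit 654312264) (.two (nat_lit 2097153) (nat_lit 9781118427) (.two (nat_lit 2097152) (nat_lit 16781144) (.one (nat_lit 4613739616) .nil)))),
   .two (nat_lit 3464495119) (nat_lit 1847591021) (.two (nat_lit 174753579016) (nat_lit 10343154505) (.two (nat_lit 606076929) (nat_lit 28697431185) (.one (nat_lit 10907292275) .nil))),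
   .two (nat_lit 654311439) (nat_lit 158075977846) (.two (nat_lit 705691656) (nat_lit 9781117119) (.two (nat_lit 705691652) (nat_lit 11626611942) (.two (nat_lit 605028353) (nat_lit 639635276) (.one (nat_lit 3525317284) .nil)))),
   .two (nat_lit 10506731535) (nat_lit 21208498289) (.two (nat_lit 2097162) (nat_lit 46980399679) (.two (nat_lit 10506731528) (nat_lit 21208498368) (.two (nat_lit 10940841989) (nat_lit 46980400345) (.two (nat_lit 606076929) (nat_lit 37751646) (.two (nat_lit 2097152) (nat_lit 2923433144) (.one (nat_lit 2102088) .nil)))))),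
   .two (nat_lit 165532401679) (nat_lit 21208498243) (.two (nat_lit 9799991305) (nat_lit 28093448549) (.two (nat_lit 158144135176) (nat_lit 46984593774) (.two (nat_lit 20638072835) (nat_lit 37320918254) (.two (nat_lit 606076929) (nat_lit 3531606782) (.two (nat_lit 2097152) (nat_lit 21785217407) (.one (nat_lit 1310724133) .nil)))))),
   .two (nat_lit 713031695) (nat_lit 638582852) (.two (nat_lit 2349858840) (nat_lit 41943075) (.two (nat_lit 713031688) (nat_lit 1209008326) (.two (nat_lit 11551113223) (nat_lit 166129042021) (.two (nat_lit 713031684) (nat_lit 9966715351) (.two (nat_lit 10370416643) (nat_lit 4034921296) (.two (nat_lit 9766436865) (nat_lit 3028288994) (.two (nat_lit 2097152) (nat_lit 3028290753) (.one (nat_lit 8393545) .nil)))))))),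
   .two (nat_lit 28690087947) (nat_lit 11611930757) (.two (nat_lit 2323644453) (nat_lit 874512427) (.two (nat_lit 705691656) (nat_lit 176160964) (.two (nat_lit 705691656) (nat_lit 20644364383) (.two (nat_lit 705691652) (nat_lit 813695818) (.two (nat_lit 2097153) (nat_lit 2894070741) (.two (nat_lit 2097152) (nat_lit 8391891) (.one (nat_lit 2102092) .nil))))))),
   .two (nat_lit 620757007) (nat_lit 813695232) (.two (nat_lit 11551113224) (nat_lit 166211879278) (.two (nat_lit 620757000) (nat_lit 3028287585) (.two (nat_lit 16777218) (nat_lit 8390531) (.two (nat_lit 721420293) (nat_lit 12121540070) (.two (nat_lit 16777217) (nat_lit 8390892) (.two (nat_lit 8388608) (nat_lit 16780500) (.one (nat_lit 2102637) .nil))))))),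
   .two (nat_lit 75497487) (nat_lit 4632608896) (.two (nat_lit 75497480) (nat_lit 184417255625) (.two (nat_lit 75497480) (nat_lit 166230753375) (.two (nat_lit 159224168453) (nat_lit 2317354211) (.two (nat_lit 50331649) (nat_lit 2100073) (.two (nat_lit 16777216) (nat_lit 2101150) (.one (nat_lit 2102638) .nil)))))),
   .two (nat_lit 16777231) (nat_lit 880803952) (.two (nat_lit 713031688) (nat_lit 50331839) (.two (nat_lit 41943045) (nat_lit 352322793) (.two (nat_lit 612368385) (nat_lit 4613737231) (.two (nat_lit 8388608) (nat_lit 620760887) (.one (nat_lit 1325404952) .nil))))),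
   .two (nat_lit 37249613848) (nat_lit 37246468210) (.two (nat_lit 19532873736) (nat_lit 168820935) (.two (nat_lit 10942939144) (nat_lit 19026411717) (.two (nat_lit 174755676165) (nat_lit 10000270980) (.two (nat_lit 2097153) (nat_lit 1191183313) (.two (nat_lit 1048576) (nat_lit 159266113147) (.one (nat_lit 16780661) .nil)))))),
   .two (nat_lit 16777231) (nat_lit 37748872) (.two (nat_lit 639631368) (nat_lit 10015998143) (.two (nat_lit 10506731525) (nat_lit 16779140) (.two (nat_lit 9768534017) (nat_lit 285215503) (.two (nat_lit 4194304) (nat_lit 16781882) (.one (nat_lit 16782703) .nil))))),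
   .two (nat_lit 1358954511) (nat_lit 41943107) (.two (nat_lit 721420296) (nat_lit 2323645021) (.two (nat_lit 50331653) (nat_lit 3028287710) (.two (nat_lit 41943043) (nat_lit 318767951) (.two (nat_lit 34603009) (nat_lit 8391689) (.two (nat_lit 1048576) (nat_lit 8392607) (.one (nat_lit 8394074) .nil)))))),
   .two (nat_lit 158144135179) (nat_lit 1048718) (.two (nat_lit 2953838620) (nat_lit 10437525619) (.two (nat_lit 21777874952) (nat_lit 69206214) (.two (nat_lit 68157448) (nat_lit 10001318088) (.two (nat_lit 705691650) (nat_lit 2098503) (.two (nat_lit 605028357) (nat_lit 3021996879) (.two (nat_lit 34603009) (nat_lit 2100234) (.two (nat_lit 1048576) (nat_lit 4198304) (.one (nat_lit 4199792) .nil)))))))),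
   .two (nat_lit 809500687) (nat_lit 28757196873) (.two (nat_lit 339738641) (nat_lit 28086108445) (.two (nat_lit 20637024264) (nat_lit 47582281919) (.two (nat_lit 159216828421) (nat_lit 46474985940) (.two (nat_lit 16777219) (nat_lit 705692488) (.two (nat_lit 16777217) (nat_lit 1309672405) (.two (nat_lit 16777216) (nat_lit 2889878878) (.one (nat_lit 2889878878) .nil))))))),
   .two (nat_lit 46409973775) (nat_lit 11007950956) (.two (nat_lit 157036838920) (nat_lit 4634706514) (.two (nat_lit 157036838917) (nat_lit 2889876715) (.two (nat_lit 156367847425) (nat_lit 2100074) (.two (nat_lit 4194304) (nat_lit 2101584) (.one (nat_lit 2102641) .nil))))),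
   .two (nat_lit 46409973775) (nat_lit 9940500608) (.two (nat_lit 183853121544) (nat_lit 12620661368) (.two (nat_lit 1343225861) (nat_lit 12117345526) (.two (nat_lit 605028353) (nat_lit 4197901) (.two (nat_lit 1048576) (nat_lit 1753223046) (.one (nat_lit 8394098) .nil))))),
   .two (nat_lit 46409973775) (nat_lit 20638072951) (.two (nat_lit 10504634376) (nat_lit 156971827798) (.two (nat_lit 2887778308) (nat_lit 4195628) (.two (nat_lit 4194305) (nat_lit 2100235) (.two (nat_lit 2097152) (nat_lit 4197603) (.one (nat_lit 4199798) .nil))))),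
   .two (nat_lit 16777231) (nat_lit 2317353034) (.two (nat_lit 16777231) (nat_lit 156971827219) (.two (nat_lit 9766436872) (nat_lit 9768535532) (.two (nat_lit 612368389) (nat_lit 169869782) (.two (nat_lit 41943045) (nat_lit 183846830297) (.two (nat_lit 2097153) (nat_lit 9768535532) (.two (nat_lit 4194304) (nat_lit 35654035) (.one (nat_lit 4199800) .nil))))))),
   .two (nat_lit 1191182351) (nat_lit 1745879157) (.two (nat_lit 117440520) (nat_lit 19026412136) (.two (nat_lit 11492392964) (nat_lit 3020948708) (.two (nat_lit 50331649) (nat_lit 184986634442) (.two (nat_lit 1048576) (nat_lit 166144772585) (.one (nat_lit 1052758) .nil))))),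
   .two (nat_lit 9866051599) (nat_lit 11584667763) (.two (nat_lit 9866051592) (nat_lit 28764537488) (.two (nat_lit 2902458371) (nat_lit 8391236) (.two (nat_lit 16777217) (nat_lit 8391532) (.two (nat_lit 16777216) (nat_lit 8392609) (.one (nat_lit 16782166) .nil))))),
   .two (nat_lit 41943055) (nat_lit 4601151552) (.two (nat_lit 41943048) (nat_lit 156367847615) (.two (nat_lit 8388612) (nat_lit 876610805) (.two (nat_lit 50331649) (nat_lit 306187079) (.two (nat_lit 4194304) (nat_lit 16781218) (.one (nat_lit 4199801) .nil))))),
   .two (nat_lit 16777231) (nat_lit 746586246) (.two (nat_lit 10007609356) (nat_lit 50331839) (.two (nat_lit 159224168453) (nat_lit 2969568477) (.two (nat_lit 612368385) (nat_lit 16779497) (.two (nat_lit 8388608) (nat_lit 16781207) (.one (nat_lit 1417679692) .nil))))),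
   .two (nat_lit 13191086095) (nat_lit 159250382965) (.two (nat_lit 20740833290) (nat_lit 28690088617) (.two (nat_lit 183848927245) (nat_lit 183912890560) (.two (nat_lit 1846542341) (nat_lit 46474986784) (.two (nat_lit 4194305) (nat_lit 3557820618) (.two (nat_lit 2097152) (nat_lit 1053244) (.one (nat_lit 1053528) .nil)))))),
   .two (nat_lit 3539992591) (nat_lit 12115247223) (.two (nat_lit 1846542344) (nat_lit 12048138849) (.two (nat_lit 1779433477) (nat_lit 2099077) (.two (nat_lit 2097153) (nat_lit 1051661) (.two (nat_lit 1048576) (nat_lit 16781885) (.one (nat_lit 1054075) .nil))))),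
   .two (nat_lit 156569174040) (nat_lit 174686470211) (.two (nat_lit 10506731528) (nat_lit 9799991658) (.two (nat_lit 2889875460) (nat_lit 166130090206) (.two (nat_lit 4194305) (nat_lit 2921333730) (.two (nat_lit 2097152) (nat_lit 16781221) (.one (nat_lit 16782170) .nil))))),
   .two (nat_lit 183848927247) (nat_lit 1216348274) (.two (nat_lit 343932940) (nat_lit 318767745) (.two (nat_lit 4605345797) (nat_lit 174768260324) (.two (nat_lit 37748737) (nat_lit 166136385445) (.two (nat_lit 4194304) (nat_lit 16781211) (.one (nat_lit 16782717) .nil))))),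
   .two (nat_lit 2902458383) (nat_lit 75497581) (.two (nat_lit 11593056265) (nat_lit 11584668292) (.two (nat_lit 2902458376) (nat_lit 28764537033) (.two (nat_lit 285212677) (nat_lit 8390534) (.two (nat_lit 16777217) (nat_lit 8392207) (.two (nat_lit 4194304) (nat_lit 8392614) (.one (nat_lit 1283461199) .nil)))))),
   .two (nat_lit 11492392979) (nat_lit 11006902405) (.two (nat_lit 2323644440) (nat_lit 638582806) (.two (nat_lit 9966714889) (nat_lit 16778293) (.two (nat_lit 209715205) (nat_lit 10385097556) (.two (nat_lit 705691651) (nat_lit 11559502816) (.two (nat_lit 8388609) (nat_lit 28772926956) (.two (nat_lit 1048576) (nat_lit 4613737857) (.one (nat_lit 16782718) .nil))))))),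
   .two (nat_lit 11479810063) (nat_lit 772800621) (.two (nat_lit 11479810056) (nat_lit 11577328191) (.two (nat_lit 9768534021) (nat_lit 11577328081) (.two (nat_lit 16777219) (nat_lit 1343226696) (.two (nat_lit 16777217) (nat_lit 2886731949) (.two (nat_lit 1048576) (nat_lit 4198737) (.one (nat_lit 1054079) .nil)))))),
   .two (nat_lit 184986632207) (nat_lit 21814575224) (.two (nat_lit 1178599432) (nat_lit 159250383048) (.two (nat_lit 705691650) (nat_lit 4195656) (.two (nat_lit 9768534019) (nat_lit 1276117474) (.two (nat_lit 34603009) (nat_lit 4196596) (.two (nat_lit 1048576) (nat_lit 4198738) (.one (nat_lit 4199808) .nil)))))),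
   .two (nat_lit 156367847443) (nat_lit 1191182447) (.two (nat_lit 10552868901) (nat_lit 10372513837) (.two (nat_lit 68157448) (nat_lit 352321732) (.two (nat_lit 68157448) (nat_lit 2902458463) (.two (nat_lit 705691652) (nat_lit 159232557898) (.two (nat_lit 4194305) (nat_lit 46422557653) (.two (nat_lit 4194304) (nat_lit 16781224) (.one (nat_lit 3024098124) .nil))))))),
   .two (nat_lit 11551113231) (nat_lit 10436476993) (.two (nat_lit 75497480) (nat_lit 21207449697) (.two (nat_lit 1277165573) (nat_lit 158143087056) (.two (nat_lit 2097157) (nat_lit 158183981277) (.two (nat_lit 2097153) (nat_lit 9974058350) (.two (nat_lit 1048576) (nat_lit 9974058350) (.one (nat_lit 1053535) .nil)))))),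
   .two (nat_lit 50331663) (nat_lit 9873391867) (.two (nat_lit 19042140170) (nat_lit 109052580) (.two (nat_lit 41943048) (nat_lit 620757087) (.two (nat_lit 11559501829) (nat_lit 19033752799) (.two (nat_lit 605028353) (nat_lit 11484006620) (.two (nat_lit 1048576) (nat_lit 713034938) (.one (nat_lit 1054082) .nil)))))),
   .two (nat_lit 4601151503) (nat_lit 156968681587) (.two (nat_lit 37748744) (nat_lit 28086108258) (.two (nat_lit 169869316) (nat_lit 1913652447) (.two (nat_lit 37748737) (nat_lit 705694559) (.two (nat_lit 2097152) (nat_lit 1053011) (.one (nat_lit 1054083) .nil))))),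
   .two (nat_lit 8388623) (nat_lit 12047089778) (.two (nat_lit 8388616) (nat_lit 19596837061) (.two (nat_lit 8388616) (nat_lit 2988441794) (.two (nat_lit 713031682) (nat_lit 19094570885) (.two (nat_lit 8388613) (nat_lit 20637025108) (.two (nat_lit 612368385) (nat_lit 2099446) (.two (nat_lit 8388608) (nat_lit 1053246) (.one (nat_lit 8393534) .nil))))))),
   .two (nat_lit 809500687) (nat_lit 9933160567) (.two (nat_lit 809500680) (nat_lit 739246281) (.two (nat_lit 809500680) (nat_lit 101712072) (.two (nat_lit 184549378) (nat_lit 1050504) (.two (nat_lit 4194308) (nat_lit 46473938244) (.two (nat_lit 16777217) (nat_lit 3020951435) (.two (nat_lit 16777216) (nat_lit 3020951435) (.one (nat_lit 2936018269) .nil))))))),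
   .two (nat_lit 10506731535) (nat_lit 46406828161) (.two (nat_lit 1749024777) (nat_lit 1745879694) (.two (nat_lit 10506731528) (nat_lit 705691846) (.two (nat_lit 28693233669) (nat_lit 11610883371) (.two (nat_lit 37748737) (nat_lit 1052176) (.two (nat_lit 4194304) (nat_lit 1051886) (.one (nat_lit 4197766) .nil)))))),
   .two (nat_lit 46407876623) (nat_lit 21818769664) (.two (nat_lit 21214789640) (nat_lit 183912890466) (.two (nat_lit 10372513797) (nat_lit 168821208) (.two (nat_lit 171966469) (nat_lit 166130090201) (.two (nat_lit 4194305) (nat_lit 11610883027) (.two (nat_lit 1048576) (nat_lit 158144138475) (.one (nat_lit 8394116) .nil)))))),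
   .two (nat_lit 8388623) (nat_lit 4601151552) (.two (nat_lit 8388616) (nat_lit 156367847615) (.two (nat_lit 8388612) (nat_lit 809501955) (.two (nat_lit 16777217) (nat_lit 843057991) (.two (nat_lit 8388608) (nat_lit 1178601078) (.one (nat_lit 4199813) .nil))))),
   .two (nat_lit 16777231) (nat_lit 10370416752) (.two (nat_lit 713031688) (nat_lit 889192639) (.two (nat_lit 184549380) (nat_lit 4605347651) (.two (nat_lit 612368385) (nat_lit 285215503) (.two (nat_lit 8388608) (nat_lit 16781882) (.one (nat_lit 16782668) .nil))))),
   .two (nat_lit 1916796943) (nat_lit 166196150399) (.two (nat_lit 1276116998) (nat_lit 47582282314) (.two (nat_lit 11476664328) (nat_lit 158179786847) (.two (nat_lit 46409973762) (nat_lit 1050506) (.two (nat_lit 9866051589) (nat_lit 28691136982) (.two (nat_lit 605028353) (nat_lit 156367850501) (.two (nat_lit 1048576) (nat_lit 4198317) (.one (nat_lit 4199815) .nil))))))),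
   .two (nat_lit 176160783) (nat_lit 83886147) (.two (nat_lit 176160776) (nat_lit 185002361439) (.two (nat_lit 8388613) (nat_lit 721420507) (.two (nat_lit 8388611) (nat_lit 185002362691) (.two (nat_lit 8388609) (nat_lit 9781120183) (.two (nat_lit 8388608) (nat_lit 9781120183) (.one (nat_lit 8393575) .nil)))))),
   .two (nat_lit 47548727307) (nat_lit 11479810167) (.two (nat_lit 37249613861) (nat_lit 47582281754) (.two (nat_lit 169869318) (nat_lit 608174281) (.two (nat_lit 169869320) (nat_lit 166132187233) (.two (nat_lit 169869314) (nat_lit 4195628) (.two (nat_lit 2097157) (nat_lit 708837848) (.two (nat_lit 2097153) (nat_lit 1413483522) (.two (nat_lit 1048576) (nat_lit 708840634) (.one (nat_lit 1054088) .nil)))))))),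
   .two (nat_lit 2961178639) (nat_lit 2936012883) (.two (nat_lit 612368399) (nat_lit 12047089683) (.two (nat_lit 1358954504) (nat_lit 202375265) (.two (nat_lit 8388610) (nat_lit 16780012) (.two (nat_lit 721420293) (nat_lit 202375385) (.two (nat_lit 50331649) (nat_lit 8390904) (.two (nat_lit 16777216) (nat_lit 8392622) (.one (nat_lit 8394090) .nil))))))),
   .two (nat_lit 272629771) (nat_lit 158075977847) (.two (nat_lit 19026411557) (nat_lit 13224640538) (.two (nat_lit 4194310) (nat_lit 336593097) (.two (nat_lit 37748744) (nat_lit 37246468193) (.two (nat_lit 4194306) (nat_lit 235931520) (.two (nat_lit 4194308) (nat_lit 184986632662) (.two (nat_lit 606076929) (nat_lit 1050873) (.two (nat_lit 4194304) (nat_lit 1376783567) (.one (nat_lit 2102665) .nil)))))))),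
   .two (nat_lit 10336862223) (nat_lit 3472883749) (.two (nat_lit 50331663) (nat_lit 9934209043) (.two (nat_lit 2902458376) (nat_lit 159217877090) (.two (nat_lit 1276116994) (nat_lit 2098013) (.two (nat_lit 2902458372) (nat_lit 12618564069) (.two (nat_lit 605028353) (nat_lit 9967767470) (.two (nat_lit 1048576) (nat_lit 9967767470) (.one (nat_lit 16782730) .nil))))))),
   .two (nat_lit 9768534031) (nat_lit 21827158294) (.two (nat_lit 16777224) (nat_lit 28757196997) (.two (nat_lit 16777224) (nat_lit 11476665172) (.two (nat_lit 721420290) (nat_lit 37316724613) (.two (nat_lit 16777220) (nat_lit 11476665172) (.two (nat_lit 50331649) (nat_lit 4197230) (.two (nat_lit 16777216) (nat_lit 1052592) (.one (nat_lit 16782189) .nil))))))),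
   .two (nat_lit 1753219087) (nat_lit 638582865) (.two (nat_lit 739246088) (nat_lit 1384120678) (.two (nat_lit 11476664324) (nat_lit 47582283044) (.two (nat_lit 9765388289) (nat_lit 2098150) (.two (nat_lit 1048576) (nat_lit 8392626) (.one (nat_lit 1052042) .nil))))),
   .two (nat_lit 3525312523) (nat_lit 4634705985) (.two (nat_lit 46477082661) (nat_lit 156567076890) (.two (nat_lit 11022630921) (nat_lit 1178599619) (.two (nat_lit 3527409677) (nat_lit 174686470239) (.two (nat_lit 721420290) (nat_lit 19027461342) (.two (nat_lit 3527409669) (nat_lit 9934209503) (.two (nat_lit 50331649) (nat_lit 1277168482) (.two (nat_lit 16777216) (nat_lit 2100470) (.one (nat_lit 4199820) .nil)))))))),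
   .two (nat_lit 11544821788) (nat_lit 13221494901) (.two (nat_lit 10942939145) (nat_lit 158075978395) (.two (nat_lit 159217877000) (nat_lit 3020947657) (.two (nat_lit 20638072837) (nat_lit 1410336044) (.two (nat_lit 34603009) (nat_lit 1279263704) (.two (nat_lit 2097152) (nat_lit 1052595) (.one (nat_lit 2102130) .nil)))))),
   .two (nat_lit 754974735) (nat_lit 185020186733) (.two (nat_lit 1343225864) (nat_lit 1392509535) (.two (nat_lit 1343225861) (nat_lit 21793604886) (.two (nat_lit 34603009) (nat_lit 16779515) (.two (nat_lit 1048576) (nat_lit 16781887) (.one (nat_lit 9881785679) .nil))))),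
   .two (nat_lit 739246095) (nat_lit 318767228) (.two (nat_lit 11559501837) (nat_lit 47581233354) (.two (nat_lit 11559501829) (nat_lit 2886731044) (.two (nat_lit 9781116929) (nat_lit 1050876) (.two (nat_lit 1048576) (nat_lit 16781236) (.one (nat_lit 1054093) .nil))))),
   .two (nat_lit 742391823) (nat_lit 739246326) (.two (nat_lit 19596836872) (nat_lit 10439623272) (.two (nat_lit 3458203653) (nat_lit 157038937334) (.two (nat_lit 2097153) (nat_lit 306186462) (.two (nat_lit 2097152) (nat_lit 1052599) (.one (nat_lit 2102670) .nil))))),
   .two (nat_lit 16777227) (nat_lit 12148801666) (.two (nat_lit 50331663) (nat_lit 158177689637) (.two (nat_lit 285212680) (nat_lit 4632609133) (.two (nat_lit 50331656) (nat_lit 166230753377) (.two (nat_lit 2902458373) (nat_lit 10001319207) (.two (nat_lit 16777217) (nat_lit 337642989) (.two (nat_lit 16777216) (nat_lit 47548729760) (.one (nat_lit 10921973070) .nil))))))),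
   .two (nat_lit 101711887) (nat_lit 2097447) (.two (nat_lit 183845781510) (nat_lit 10370417363) (.two (nat_lit 10336862215) (nat_lit 9866051681) (.two (nat_lit 166129041410) (nat_lit 2099781) (.two (nat_lit 183845781508) (nat_lit 28087158252) (.two (nat_lit 156364701697) (nat_lit 2100240) (.two (nat_lit 1048576) (nat_lit 2101825) (.one (nat_lit 9798948179) .nil))))))),
   .two (nat_lit 8388623) (nat_lit 28086108274) (.two (nat_lit 620757000) (nat_lit 101712229) (.two (nat_lit 184549380) (nat_lit 101712712) (.two (nat_lit 620756993) (nat_lit 10000271558) (.two (nat_lit 16777216) (nat_lit 1051899) (.one (nat_lit 8393592) .nil))))),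
   .two (nat_lit 10385096719) (nat_lit 20640170115) (.two (nat_lit 654311437) (nat_lit 10540286620) (.two (nat_lit 654311429) (nat_lit 28760343377) (.two (nat_lit 9948889093) (nat_lit 166199296488) (.two (nat_lit 9781116929) (nat_lit 9869198816) (.two (nat_lit 16777216) (nat_lit 641730965) (.one (nat_lit 4199292) .nil)))))),
   .two (nat_lit 8388623) (nat_lit 159250383108) (.two (nat_lit 184549384) (nat_lit 8388799) (.two (nat_lit 184549380) (nat_lit 13187941194) (.two (nat_lit 620756993) (nat_lit 13195283215) (.two (nat_lit 16777216) (nat_lit 8393282) (.one (nat_lit 8394127) .nil))))),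
   .two (nat_lit 21208498187) (nat_lit 1048719) (.two (nat_lit 12617515025) (nat_lit 9867100197) (.two (nat_lit 10369368073) (nat_lit 2921332937) (.two (nat_lit 12047089672) (nat_lit 9799991496) (.two (nat_lit 183845781506) (nat_lit 2098508) (.two (nat_lit 705691651) (nat_lit 10437526852) (.two (nat_lit 612368385) (nat_lit 158646405349) (.two (nat_lit 1048576) (nat_lit 2101827) (.one (nat_lit 2102672) .nil)))))))),
   .two (nat_lit 11559501841) (nat_lit 10370416707) (.two (nat_lit 721420296) (nat_lit 1277166234) (.two (nat_lit 16777220) (nat_lit 9934209243) (.two (nat_lit 16777217) (nat_lit 174753579525) (.two (nat_lit 1048576) (nat_lit 16781892) (.one (nat_lit 1052705) .nil))))),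
   .two (nat_lit 37748751) (nat_lit 12054429810) (.two (nat_lit 37748744) (nat_lit 19604177093) (.two (nat_lit 37748744) (nat_lit 20644365140) (.two (nat_lit 4194306) (nat_lit 337642326) (.two (nat_lit 4194308) (nat_lit 20644365140) (.two (nat_lit 4194305) (nat_lit 2100241) (.two (nat_lit 2097152) (nat_lit 8393285) (.one (nat_lit 2102673) .nil))))))),
   .two (nat_lit 37748751) (nat_lit 46514831728) (.two (nat_lit 37748744) (nat_lit 46514831728) (.two (nat_lit 28772925447) (nat_lit 10540286634) (.two (nat_lit 10385096707) (nat_lit 608174558) (.two (nat_lit 9781116929) (nat_lit 2319451097) (.two (nat_lit 16777216) (nat_lit 4198329) (.one (nat_lit 4199826) .nil)))))),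
   .two (nat_lit 272629775) (nat_lit 10504634480) (.two (nat_lit 37748744) (nat_lit 21214790278) (.two (nat_lit 754974725) (nat_lit 847251291) (.two (nat_lit 620756993) (nat_lit 1277168492) (.two (nat_lit 8388608) (nat_lit 2101830) (.one (nat_lit 8394131) .nil))))),
   .two (nat_lit 28693233679) (nat_lit 1048720) (.two (nat_lit 68157449) (nat_lit 28693233702) (.two (nat_lit 9768534023) (nat_lit 156581757610) (.two (nat_lit 28757196805) (nat_lit 184419352795) (.two (nat_lit 16777217) (nat_lit 19599983099) (.two (nat_lit 1048576) (nat_lit 165528209009) (.one (nat_lit 4197779) .nil)))))),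
   .two (nat_lit 16777240) (nat_lit 8388672) (.two (nat_lit 285212680) (nat_lit 10007609535) (.two (nat_lit 16777220) (nat_lit 3028287707) (.two (nat_lit 16777217) (nat_lit 3028287997) (.two (nat_lit 16777216) (nat_lit 8392635) (.one (nat_lit 8393599) .nil))))),
   .two (nat_lit 183848927247) (nat_lit 176160902) (.two (nat_lit 9766436872) (nat_lit 2923430083) (.two (nat_lit 203423752) (nat_lit 11546919112) (.two (nat_lit 13195280389) (nat_lit 4601151710) (.two (nat_lit 2887778308) (nat_lit 183848928094) (.two (nat_lit 41943041) (nat_lit 12048140689) (.two (nat_lit 8388608) (nat_lit 2101831) (.one (nat_lit 2102677) .nil))))))),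
   .two (nat_lit 3527409728) (nat_lit 2097269) (.two (nat_lit 185002360847) (nat_lit 19532874086) (.two (nat_lit 9768534024) (nat_lit 855638858) (.two (nat_lit 2889875460) (nat_lit 2902460589) (.two (nat_lit 50331649) (nat_lit 19532876941) (.two (nat_lit 2097152) (nat_lit 4198409) (.one (nat_lit 4199840) .nil)))))),
   .two (nat_lit 176160835) (nat_lit 2097270) (.two (nat_lit 37748751) (nat_lit 10007609535) (.two (nat_lit 159217877000) (nat_lit 10443818208) (.two (nat_lit 18928893957) (nat_lit 639632859) (.two (nat_lit 2097153) (nat_lit 20644367506) (.two (nat_lit 2097152) (nat_lit 8393348) (.one (nat_lit 2102689) .nil)))))),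
   .two (nat_lit 8388672) (nat_lit 873463875) (.two (nat_lit 4194319) (nat_lit 41943231) (.two (nat_lit 705691656) (nat_lit 13191086922) (.two (nat_lit 2956984325) (nat_lit 37253810351) (.two (nat_lit 4194305) (nat_lit 1410337942) (.two (nat_lit 1048576) (nat_lit 183846834182) (.one (nat_lit 2316309379) .nil)))))),
   .two (nat_lit 184986632258) (nat_lit 10506731635) (.two (nat_lit 184986632207) (nat_lit 10506732096) (.two (nat_lit 184986632200) (nat_lit 46980400344) (.two (nat_lit 183848927236) (nat_lit 3557820591) (.two (nat_lit 34603009) (nat_lit 2923433101) (.two (nat_lit 1048576) (nat_lit 4198410) (.one (nat_lit 4199842) .nil)))))),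
   .two (nat_lit 4194369) (nat_lit 11618222147) (.two (nat_lit 4194319) (nat_lit 41943231) (.two (nat_lit 37748744) (nat_lit 109053153) (.two (nat_lit 4194308) (nat_lit 2099381) (.two (nat_lit 37748737) (nat_lit 2886732951) (.two (nat_lit 1048576) (nat_lit 11611934728) (.one (nat_lit 174753584002) .nil)))))),
   .two (nat_lit 28790751299) (nat_lit 8388728) (.two (nat_lit 4194319) (nat_lit 10007609535) (.two (nat_lit 21785214984) (nat_lit 11580474186) (.two (nat_lit 183848927237) (nat_lit 1050806) (.two (nat_lit 37748737) (nat_lit 2349862033) (.two (nat_lit 1048576) (nat_lit 8393353) (.one (nat_lit 1054116) .nil)))))),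
   .two (nat_lit 4194369) (nat_lit 343932994) (.two (nat_lit 4194319) (nat_lit 343933119) (.two (nat_lit 2961178632) (nat_lit 19027461342) (.two (nat_lit 169869316) (nat_lit 174685423788) (.two (nat_lit 2097153) (nat_lit 46507494550) (.two (nat_lit 1048576) (nat_lit 2894073863) (.one (nat_lit 2416972674) .nil)))))),
   .two (nat_lit 4605345856) (nat_lit 19130220656) (.two (nat_lit 9768534031) (nat_lit 156372041919) (.two (nat_lit 9768534024) (nat_lit 183853123036) (.two (nat_lit 4194305) (nat_lit 880807940) (.one (nat_lit 8394149) .nil)))),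
   .two (nat_lit 1916796995) (nat_lit 4605345901) (.two (nat_lit 13195280399) (nat_lit 10338959720) (.two (nat_lit 156971827208) (nat_lit 880804680) (.two (nat_lit 19599982597) (nat_lit 11618224297) (.two (nat_lit 156367847425) (nat_lit 184423550986) (.one (nat_lit 8394150) .nil))))),
   .two (nat_lit 16777280) (nat_lit 1048698) (.two (nat_lit 1343225871) (nat_lit 889192639) (.two (nat_lit 21207449608) (nat_lit 11611931873) (.two (nat_lit 184549380) (nat_lit 3457157293) (.two (nat_lit 605028353) (nat_lit 18941480087) (.two (nat_lit 1048576) (nat_lit 16781964) (.one (nat_lit 10000274844) .nil)))))),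
   .two (nat_lit 4605345856) (nat_lit 12117344369) (.two (nat_lit 11479810063) (nat_lit 156372041919) (.two (nat_lit 11479810056) (nat_lit 183853123036) (.two (nat_lit 37748737) (nat_lit 183853124749) (.two (nat_lit 4194304) (nat_lit 8392715) (.one (nat_lit 847254936) .nil))))),
   .two (nat_lit 3028287555) (nat_lit 639631480) (.two (nat_lit 813694991) (nat_lit 4634706111) (.two (nat_lit 13191086088) (nat_lit 20644365534) (.two (nat_lit 20638072837) (nat_lit 13224642734) (.two (nat_lit 2097153) (nat_lit 165532404881) (.two (nat_lit 2097152) (nat_lit 8393361) (.one (nat_lit 8394151) .nil)))))),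
   .two (nat_lit 12117344321) (nat_lit 2887778417) (.two (nat_lit 37748751) (nat_lit 10007609535) (.two (nat_lit 37748744) (nat_lit 4605347037) (.two (nat_lit 183848927237) (nat_lit 35653814) (.two (nat_lit 2097153) (nat_lit 28093451409) (.two (nat_lit 2097152) (nat_lit 4199058) (.one (nat_lit 2102696) .nil)))))),
   .two (nat_lit 8388672) (nat_lit 184986632305) (.two (nat_lit 2961178639) (nat_lit 159251431615) (.two (nat_lit 159217877000) (nat_lit 159216829258) (.two (nat_lit 176160772) (nat_lit 638585005) (.two (nat_lit 605028353) (nat_lit 169873131) (.two (nat_lit 1048576) (nat_lit 8393368) (.one (nat_lit 9933165981) .nil)))))),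
   .two (nat_lit 739246146) (nat_lit 1753219186) (.two (nat_lit 739246095) (nat_lit 1753219650) (.two (nat_lit 739246088) (nat_lit 880805082) (.two (nat_lit 11543773189) (nat_lit 880806057) (.two (nat_lit 34603009) (nat_lit 185027530762) (.one (nat_lit 21214795179) .nil))))),
   .two (nat_lit 11626610755) (nat_lit 20707278981) (.two (nat_lit 4194319) (nat_lit 620757183) (.two (nat_lit 184416206856) (nat_lit 1379927300) (.two (nat_lit 9881780229) (nat_lit 47584381127) (.two (nat_lit 34603009) (nat_lit 352324770) (.two (nat_lit 4194304) (nat_lit 1426068117) (.one (nat_lit 68162971) .nil)))))),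
   .two (nat_lit 184986632258) (nat_lit 10538188916) (.two (nat_lit 21777874959) (nat_lit 156533523013) (.two (nat_lit 158144135176) (nat_lit 11577328456) (.two (nat_lit 158144135173) (nat_lit 12047091917) (.two (nat_lit 605028353) (nat_lit 2921336842) (.one (nat_lit 2102707) .nil))))),
   .two (nat_lit 4601151552) (nat_lit 46978302018) (.two (nat_lit 37748751) (nat_lit 50331839) (.two (nat_lit 606076936) (nat_lit 9948890333) (.two (nat_lit 184549380) (nat_lit 46407878851) (.two (nat_lit 2097153) (nat_lit 10909387932) (.two (nat_lit 2097152) (nat_lit 46409978520) (.one (nat_lit 2102708) .nil)))))),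
   .two (nat_lit 47555018816) (nat_lit 19027460207) (.two (nat_lit 166130089999) (nat_lit 159224168639) (.two (nat_lit 166130089992) (nat_lit 165532403164) (.two (nat_lit 9766436865) (nat_lit 18933091483) (.two (nat_lit 2097152) (nat_lit 156372045828) (.one (nat_lit 8394165) .nil))))),
   .two (nat_lit 4601151552) (nat_lit 9799991403) (.two (nat_lit 37748751) (nat_lit 50331839) (.two (nat_lit 2954887176) (nat_lit 9948890357) (.two (nat_lit 1344274437) (nat_lit 1358956733) (.two (nat_lit 2097153) (nat_lit 19599985827) (.two (nat_lit 4194304) (nat_lit 10016002692) (.one (nat_lit 11513370010) .nil)))))),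
   .two (nat_lit 3028287555) (nat_lit 19599982704) (.two (nat_lit 8388623) (nat_lit 156971827557) (.two (nat_lit 8388616) (nat_lit 156971828040) (.two (nat_lit 8388612) (nat_lit 46477083595) (.two (nat_lit 8388611) (nat_lit 2889877682) (.two (nat_lit 8388609) (nat_lit 2889878678) (.two (nat_lit 4194304) (nat_lit 343937727) (.one (nat_lit 2894074867) .nil))))))),
   .two (nat_lit 184549443) (nat_lit 9768534150) (.two (nat_lit 16777231) (nat_lit 158649549161) (.two (nat_lit 16777224) (nat_lit 306185481) (.two (nat_lit 1344274437) (nat_lit 620758491) (.two (nat_lit 37748737) (nat_lit 21793606819) (.two (nat_lit 2097152) (nat_lit 50336394) (.one (nat_lit 16782779) .nil)))))),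
   .two (nat_lit 10540285989) (nat_lit 18933088367) (.two (nat_lit 11479810059) (nat_lit 10343154021) (.two (nat_lit 1178599439) (nat_lit 176160964) (.two (nat_lit 11479810054) (nat_lit 10343154504) (.two (nat_lit 1178599432) (nat_lit 2927625163) (.two (nat_lit 9768534021) (nat_lit 1753221291) (.two (nat_lit 37748737) (nat_lit 20644367501) (.two (nat_lit 4194304) (nat_lit 47555021282) (.one (nat_lit 343937143) .nil)))))))),
   .two (nat_lit 3560964116) (nat_lit 3028287555) (.two (nat_lit 47555018862) (nat_lit 183916036133) (.two (nat_lit 8388623) (nat_lit 37748934) (.two (nat_lit 159224168463) (nat_lit 1178599521) (.two (nat_lit 8388616) (nat_lit 3024093656) (.two (nat_lit 8388616) (nat_lit 156971827417) (.two (nat_lit 4194308) (nat_lit 10007610843) (.two (nat_lit 4194305) (nat_lit 165532404897) (.two (nat_lit 4194304) (nat_lit 8392023) (.one (nat_lit 20740838403) .nil))))))))),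
   .two (nat_lit 272629778) (nat_lit 46414168176) (.two (nat_lit 272629824) (nat_lit 243269669) (.two (nat_lit 272629775) (nat_lit 11551113414) (.two (nat_lit 272629775) (nat_lit 12155093192) (.two (nat_lit 272629768) (nat_lit 158183981528) (.two (nat_lit 41943048) (nat_lit 13224640729) (.two (nat_lit 4194308) (nat_lit 343934427) (.two (nat_lit 4194305) (nat_lit 156372044951) (.two (nat_lit 4194304) (nat_lit 713035095) (.one (nat_lit 8393649) .nil))))))))),
   .two (nat_lit 83886147) (nat_lit 46474985586) (.two (nat_lit 620757007) (nat_lit 156533522790) (.two (nat_lit 620757000) (nat_lit 4028629832) (.two (nat_lit 184549380) (nat_lit 159217877963) (.two (nat_lit 169869315) (nat_lit 50333147) (.two (nat_lit 2097153) (nat_lit 1191185559) (.two (nat_lit 2097152) (nat_lit 1962939040) (.one (nat_lit 11611936184) .nil))))))),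
   .two (nat_lit 4638900290) (nat_lit 2353004614) (.two (nat_lit 1178599439) (nat_lit 673186398) (.two (nat_lit 2961178632) (nat_lit 10001318730) (.two (nat_lit 2097157) (nat_lit 880805339) (.two (nat_lit 34603009) (nat_lit 2988445418) (.two (nat_lit 1048576) (nat_lit 8391156) (.one (nat_lit 168826395) .nil)))))),
   .two (nat_lit 12114198592) (nat_lit 185027526777) (.two (nat_lit 813694991) (nat_lit 4027580777) (.two (nat_lit 813694984) (nat_lit 184986633447) (.two (nat_lit 270532613) (nat_lit 11584669898) (.two (nat_lit 9766436865) (nat_lit 11580477171) (.two (nat_lit 2097152) (nat_lit 1849692796) (.one (nat_lit 28758250400) .nil)))))),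
   .two (nat_lit 2961178689) (nat_lit 9934209145) (.two (nat_lit 2961178639) (nat_lit 9934209610) (.two (nat_lit 205520904) (nat_lit 9772729590) (.two (nat_lit 171966469) (nat_lit 1780483027) (.two (nat_lit 708837381) (nat_lit 605028862) (.two (nat_lit 4194305) (nat_lit 9765392129) (.two (nat_lit 8388608) (nat_lit 2101286) (.one (nat_lit 19096671674) .nil))))))),
   .two (nat_lit 1178599461) (nat_lit 4605345856) (.two (nat_lit 166132187147) (nat_lit 13195280575) (.two (nat_lit 28693233679) (nat_lit 4605345886) (.two (nat_lit 166132187142) (nat_lit 13195281224) (.two (nat_lit 28693233672) (nat_lit 2961179093) (.two (nat_lit 1916796933) (nat_lit 156372043227) (.two (nat_lit 9768534017) (nat_lit 183853124751) (.two (nat_lit 4194304) (nat_lit 4605348322) (.one (nat_lit 8392828) .nil)))))))),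
   .two (nat_lit 3527409730) (nat_lit 276824101) (.two (nat_lit 46414168079) (nat_lit 4030726792) (.two (nat_lit 46414168072) (nat_lit 4195624) (.two (nat_lit 272629765) (nat_lit 2994735309) (.two (nat_lit 4194305) (nat_lit 1317014682) (.two (nat_lit 4194304) (nat_lit 8393420) (.one (nat_lit 1782583422) .nil)))))),
   .two (nat_lit 2969567299) (nat_lit 12150898726) (.two (nat_lit 218103823) (nat_lit 12150898726) (.two (nat_lit 158144135175) (nat_lit 343933399) (.two (nat_lit 184549379) (nat_lit 8389593) (.two (nat_lit 606076929) (nat_lit 16779656) (.two (nat_lit 16777216) (nat_lit 8393501) (.one (nat_lit 8394211) .nil)))))),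
   .two (nat_lit 16777280) (nat_lit 158083317827) (.two (nat_lit 184993972239) (nat_lit 620757183) (.two (nat_lit 184993972232) (nat_lit 620757832) (.two (nat_lit 713031684) (nat_lit 620758491) (.two (nat_lit 41943041) (nat_lit 1291848859) (.two (nat_lit 8388608) (nat_lit 16780633) (.one (nat_lit 11492397978) .nil)))))),
   .two (nat_lit 620757059) (nat_lit 176160839) (.two (nat_lit 721420303) (nat_lit 2994733095) (.two (nat_lit 721420303) (nat_lit 2927624388) (.two (nat_lit 75497480) (nat_lit 83886920) (.two (nat_lit 50331653) (nat_lit 343934585) (.two (nat_lit 612368389) (nat_lit 11525948373) (.two (nat_lit 41943041) (nat_lit 1291847279) (.two (nat_lit 16777216) (nat_lit 8393502) (.one (nat_lit 16782820) .nil)))))))),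
   .two (nat_lit 16777280) (nat_lit 166230753392) (.two (nat_lit 620757007) (nat_lit 166230753860) (.two (nat_lit 184549384) (nat_lit 158144136408) (.two (nat_lit 16777221) (nat_lit 158144136144) (.two (nat_lit 16777219) (nat_lit 2954889409) (.two (nat_lit 2097153) (nat_lit 184553271) (.two (nat_lit 2097152) (nat_lit 16782111) (.one (nat_lit 11559507499) .nil))))))),
   .two (nat_lit 8388626) (nat_lit 47547678961) (.two (nat_lit 3028287555) (nat_lit 9933160485) (.two (nat_lit 41943055) (nat_lit 1779433838) (.two (nat_lit 8388623) (nat_lit 2987393121) (.two (nat_lit 276824072) (nat_lit 165528207832) (.two (nat_lit 41943048) (nat_lit 10335813860) (.two (nat_lit 46409973762) (nat_lit 813697213) (.two (nat_lit 8388612) (nat_lit 2990539731) (.two (nat_lit 156367847425) (nat_lit 11476667540) (.two (nat_lit 1048576) (nat_lit 1212157254) (.one (nat_lit 4199909) .nil)))))))))),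
   .two (nat_lit 13237223461) (nat_lit 3020947581) (.two (nat_lit 46409973771) (nat_lit 159266112119) (.two (nat_lit 721420303) (nat_lit 168820937) (.two (nat_lit 721420294) (nat_lit 68158282) (.two (nat_lit 721420296) (nat_lit 1343226326) (.two (nat_lit 9933160453) (nat_lit 16778715) (.two (nat_lit 4194305) (nat_lit 46422559890) (.two (nat_lit 1048576) (nat_lit 10552871397) (.one (nat_lit 16782822) .nil)))))))),
   .two (nat_lit 10001317907) (nat_lit 9936306308) (.two (nat_lit 47548727311) (nat_lit 11010048097) (.two (nat_lit 2954887176) (nat_lit 11010048217) (.two (nat_lit 169869314) (nat_lit 4195812) (.two (nat_lit 169869316) (nat_lit 10372514020) (.two (nat_lit 606076929) (nat_lit 4196745) (.two (nat_lit 2097152) (nat_lit 4197723) (.one (nat_lit 4199350) .nil))))))),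
   .two (nat_lit 9934209091) (nat_lit 3003121703) (.two (nat_lit 83886095) (nat_lit 1277165606) (.two (nat_lit 83886095) (nat_lit 2954887264) (.two (nat_lit 83886088) (nat_lit 2954887387) (.two (nat_lit 11559501832) (nat_lit 20740834126) (.two (nat_lit 620756997) (nat_lit 9934209531) (.two (nat_lit 10504634373) (nat_lit 156569174985) (.two (nat_lit 4194305) (nat_lit 10452209808) (.two (nat_lit 2097152) (nat_lit 16781351) (.one (nat_lit 50337387) .nil))))))))),
   .two (nat_lit 10007609453) (nat_lit 21207449637) (.two (nat_lit 159224168463) (nat_lit 1913651841) (.two (nat_lit 159224168456) (nat_lit 1779434742) (.two (nat_lit 8388612) (nat_lit 12147755192) (.two (nat_lit 41943041) (nat_lit 2953841809) (.two (nat_lit 2097152) (nat_lit 8393421) (.one (nat_lit 1277169805) .nil)))))),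
   .two (nat_lit 339738661) (nat_lit 159216828533) (.two (nat_lit 176160779) (nat_lit 806355563) (.two (nat_lit 2889875471) (nat_lit 202375369) (.two (nat_lit 176160774) (nat_lit 1779434757) (.two (nat_lit 2889875464) (nat_lit 1779433942) (.two (nat_lit 176160770) (nat_lit 739248336) (.two (nat_lit 1283457029) (nat_lit 68158414) (.two (nat_lit 4194305) (nat_lit 1051847) (.two (nat_lit 4194304) (nat_lit 1053474) (.one (nat_lit 4199882) .nil))))))))),
   .two (nat_lit 2969567345) (nat_lit 185021235272) (.two (nat_lit 9948889103) (nat_lit 10907288132) (.two (nat_lit 3525312520) (nat_lit 1358955336) (.two (nat_lit 2887778308) (nat_lit 620758491) (.two (nat_lit 2097153) (nat_lit 822086820) (.two (nat_lit 16777216) (nat_lit 2100576) (.one (nat_lit 156581762512) .nil)))))),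
   .two (nat_lit 4194443) (nat_lit 37314625604) (.two (nat_lit 157036838927) (nat_lit 159253528615) (.two (nat_lit 272629768) (nat_lit 9967765113) (.two (nat_lit 4194308) (nat_lit 9967765113) (.two (nat_lit 4194305) (nat_lit 9967765113) (.two (nat_lit 1048576) (nat_lit 2102051) (.one (nat_lit 2102762) .nil)))))),
   .two (nat_lit 159266111555) (nat_lit 310378633) (.two (nat_lit 75497487) (nat_lit 28705816936) (.two (nat_lit 18933088264) (nat_lit 18928895206) (.two (nat_lit 713031684) (nat_lit 10921969125) (.two (nat_lit 3527409669) (nat_lit 142607311) (.two (nat_lit 4194305) (nat_lit 37262199956) (.two (nat_lit 4194304) (nat_lit 19042144382) (.one (nat_lit 8394219) .nil))))))),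
   .two (nat_lit 2902458434) (nat_lit 166197198885) (.two (nat_lit 639631375) (nat_lit 9781117285) (.two (nat_lit 639631368) (nat_lit 9781117768) (.two (nat_lit 285212677) (nat_lit 185021236178) (.two (nat_lit 2887778307) (nat_lit 620759222) (.two (nat_lit 2097153) (nat_lit 1761611507) (.two (nat_lit 2097152) (nat_lit 184554108) (.one (nat_lit 2102176) .nil))))))),
   .two (nat_lit 16777282) (nat_lit 41943074) (.two (nat_lit 16777231) (nat_lit 3028287526) (.two (nat_lit 16777224) (nat_lit 880804059) (.two (nat_lit 16777220) (nat_lit 343933435) (.two (nat_lit 8388609) (nat_lit 721421321) (.two (nat_lit 8388608) (nat_lit 16781354) (.one (nat_lit 8393664) .nil)))))),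
   .two (nat_lit 183848927347) (nat_lit 41943074) (.two (nat_lit 176160783) (nat_lit 19096666151) (.two (nat_lit 50331655) (nat_lit 1276117832) (.two (nat_lit 50331651) (nat_lit 1745881263) (.two (nat_lit 50331649) (nat_lit 2953839620) (.two (nat_lit 16777216) (nat_lit 2886732273) (.one (nat_lit 4199918) .nil)))))),
   .two (nat_lit 176160834) (nat_lit 4647288971) (.two (nat_lit 176160783) (nat_lit 19096666151) (.two (nat_lit 352321553) (nat_lit 9768534207) (.two (nat_lit 50331656) (nat_lit 1276117832) (.two (nat_lit 16777220) (nat_lit 9933160955) (.two (nat_lit 16777220) (nat_lit 159216829390) (.two (nat_lit 16777217) (nat_lit 21207451233) (.two (nat_lit 16777216) (nat_lit 8392747) (.one (nat_lit 4199919) .nil)))))))),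
   .two (nat_lit 47555018865) (nat_lit 21793603622) (.two (nat_lit 176160783) (nat_lit 21793603622) (.two (nat_lit 176160783) (nat_lit 156581757124) (.two (nat_lit 176160774) (nat_lit 16777694) (.two (nat_lit 8388615) (nat_lit 10552870111) (.two (nat_lit 176160770) (nat_lit 16778205) (.two (nat_lit 8388611) (nat_lit 46980400080) (.two (nat_lit 8388609) (nat_lit 184419354221) (.two (nat_lit 2097152) (nat_lit 4199207) (.one (nat_lit 4199920) .nil))))))))),
   .two (nat_lit 772800579) (nat_lit 41943111) (.two (nat_lit 3464495216) (nat_lit 12047089699) (.two (nat_lit 47555018767) (nat_lit 135266400) (.two (nat_lit 47588573201) (nat_lit 135266662) (.two (nat_lit 176160776) (nat_lit 135266771) (.two (nat_lit 9940500487) (nat_lit 135267544) (.two (nat_lit 8388613) (nat_lit 2316305360) (.two (nat_lit 612368387) (nat_lit 4598008199) (.two (nat_lit 612368385) (nat_lit 4598008199) (.two (nat_lit 4194304) (nat_lit 1053480) (.one (nat_lit 1054193) .nil)))))))))),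
   .two (nat_lit 16777283) (nat_lit 47555018833) (.two (nat_lit 184549391) (nat_lit 1384120359) (.two (nat_lit 184549384) (nat_lit 156372042206) (.two (nat_lit 8388612) (nat_lit 754975697) (.two (nat_lit 8388609) (nat_lit 3036680323) (.two (nat_lit 8388608) (nat_lit 3036680323) (.one (nat_lit 3036680323) .nil)))))),
   .two (nat_lit 3558867011) (nat_lit 46523220039) (.two (nat_lit 1191182351) (nat_lit 2954887206) (.two (nat_lit 1191182344) (nat_lit 639631582) (.two (nat_lit 9781116933) (nat_lit 1847591889) (.two (nat_lit 50331649) (nat_lit 2954891395) (.two (nat_lit 16777216) (nat_lit 2954891395) (.one (nat_lit 2954891395) .nil)))))),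
   .two (nat_lit 1849688101) (nat_lit 34603086) (.two (nat_lit 11543773195) (nat_lit 4194983) (.two (nat_lit 1343225871) (nat_lit 708837574) (.two (nat_lit 169869318) (nat_lit 2420114655) (.two (nat_lit 9934209031) (nat_lit 4195653) (.two (nat_lit 2097157) (nat_lit 19130221051) (.two (nat_lit 34603013) (nat_lit 4195816) (.two (nat_lit 34603009) (nat_lit 4196749) (.two (nat_lit 2097152) (nat_lit 4198444) (.one (nat_lit 2102771) .nil))))))))),
   .two (nat_lit 16777283) (nat_lit 18933088294) (.two (nat_lit 184549391) (nat_lit 18933088294) (.two (nat_lit 184549391) (nat_lit 46414168160) (.two (nat_lit 620757000) (nat_lit 46414168286) (.two (nat_lit 13195280391) (nat_lit 50332883) (.two (nat_lit 13195280389) (nat_lit 1191182849) (.two (nat_lit 41943043) (nat_lit 16778729) (.two (nat_lit 16777217) (nat_lit 8391880) (.two (nat_lit 4194304) (nat_lit 16781357) (.one (nat_lit 16782276) .nil))))))))),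
   .two (nat_lit 47588573221) (nat_lit 12047089730) (.two (nat_lit 8388623) (nat_lit 184986632383) (.two (nat_lit 8388614) (nat_lit 12114199782) (.two (nat_lit 8388616) (nat_lit 12047090129) (.two (nat_lit 8388610) (nat_lit 165525064467) (.two (nat_lit 8388612) (nat_lit 19093521887) (.two (nat_lit 8388609) (nat_lit 1779435900) (.two (nat_lit 8388608) (nat_lit 1053486) (.one (nat_lit 28691141540) .nil)))))))),
   .two (nat_lit 713031698) (nat_lit 1782579319) (.two (nat_lit 809500687) (nat_lit 41943240) (.two (nat_lit 11559501832) (nat_lit 9869197530) (.two (nat_lit 8388610) (nat_lit 16778730) (.two (nat_lit 713031685) (nat_lit 339738853) (.two (nat_lit 4194305) (nat_lit 50335140) (.two (nat_lit 4194304) (nat_lit 50335140) (.one (nat_lit 4199925) .nil))))))),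
   .two (nat_lit 285212738) (nat_lit 4601151526) (.two (nat_lit 16777231) (nat_lit 19096666151) (.two (nat_lit 285212687) (nat_lit 156367847520) (.two (nat_lit 809500680) (nat_lit 9881780737) (.two (nat_lit 11559501831) (nat_lit 28757198055) (.two (nat_lit 4194308) (nat_lit 9881780737) (.two (nat_lit 11479810051) (nat_lit 10351543781) (.two (nat_lit 9765388289) (nat_lit 16778875) (.two (nat_lit 16777216) (nat_lit 4199217) (.one (nat_lit 16782279) .nil))))))))),
   .two (nat_lit 4028629058) (nat_lit 205520934) (.two (nat_lit 10336862223) (nat_lit 205520934) (.two (nat_lit 2889875464) (nat_lit 10504634587) (.two (nat_lit 272629765) (nat_lit 12115247616) (.two (nat_lit 4194305) (nat_lit 156533523462) (.two (nat_lit 8388608) (nat_lit 1052718) (.one (nat_lit 1054199) .nil)))))),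
   .two (nat_lit 352321603) (nat_lit 713031795) (.two (nat_lit 41943055) (nat_lit 158075978086) (.two (nat_lit 41943048) (nat_lit 11577328915) (.two (nat_lit 184549380) (nat_lit 10939795658) (.two (nat_lit 8388609) (nat_lit 9899607651) (.two (nat_lit 8388608) (nat_lit 3020950866) (.one (nat_lit 889197475) .nil)))))),
   .two (nat_lit 10370416707) (nat_lit 239075366) (.two (nat_lit 2889875471) (nat_lit 13188988967) (.two (nat_lit 46409973775) (nat_lit 304087238) (.two (nat_lit 3460300808) (nat_lit 159251431646) (.two (nat_lit 159232557063) (nat_lit 1410335976) (.two (nat_lit 1916796933) (nat_lit 10436477441) (.two (nat_lit 174755676165) (nat_lit 269485541) (.two (nat_lit 620756993) (nat_lit 101713504) (.two (nat_lit 16777216) (nat_lit 1053491) (.one (nat_lit 1054201) .nil))))))))),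
   .two (nat_lit 1317011477) (nat_lit 606077189) (.two (nat_lit 1847590927) (nat_lit 1350566088) (.two (nat_lit 19530776584) (nat_lit 13195281885) (.two (nat_lit 157036838917) (nat_lit 13195281885) (.two (nat_lit 156365750275) (nat_lit 10544480766) (.two (nat_lit 156365750273) (nat_lit 184993976119) (.two (nat_lit 2097152) (nat_lit 8392752) (.one (nat_lit 184987686332) .nil))))))),
   .two (nat_lit 156468510757) (nat_lit 840957991) (.two (nat_lit 10506731535) (nat_lit 840957991) (.two (nat_lit 47582281745) (nat_lit 10003415241) (.two (nat_lit 47548727304) (nat_lit 157038936542) (.two (nat_lit 1343225864) (nat_lit 1413481295) (.two (nat_lit 705691652) (nat_lit 19599983581) (.two (nat_lit 68157443) (nat_lit 4196581) (.two (nat_lit 2097153) (nat_lit 4198289) (.two (nat_lit 1048576) (nat_lit 4199220) (.one (nat_lit 839914972) .nil))))))))),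
   .two (nat_lit 166132187154) (nat_lit 166130090103) (.two (nat_lit 169869327) (nat_lit 184419352673) (.two (nat_lit 169869320) (nat_lit 184419352793) (.two (nat_lit 34603013) (nat_lit 708839032) (.two (nat_lit 2097157) (nat_lit 37249614055) (.two (nat_lit 2097153) (nat_lit 71304820) (.two (nat_lit 1048576) (nat_lit 9867102697) (.one (nat_lit 2102783) .nil))))))),
   .two (nat_lit 19029557315) (nat_lit 9934209058) (.two (nat_lit 203423759) (nat_lit 10506731558) (.two (nat_lit 203423759) (nat_lit 19532873824) (.two (nat_lit 203423752) (nat_lit 19532873947) (.two (nat_lit 203423752) (nat_lit 1849688912) (.two (nat_lit 2954887173) (nat_lit 46980400137) (.two (nat_lit 10385096707) (nat_lit 46510638715) (.two (nat_lit 9781116929) (nat_lit 46510638715) (.two (nat_lit 16777216) (nat_lit 4198449) (.one (nat_lit 4199936) .nil))))))))),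
   .two (nat_lit 21785215043) (nat_lit 839909444) (.two (nat_lit 1343225871) (nat_lit 9906946086) (.two (nat_lit 1343225871) (nat_lit 11584667744) (.two (nat_lit 68157448) (nat_lit 184993972443) (.two (nat_lit 184986632199) (nat_lit 11551114518) (.two (nat_lit 605028357) (nat_lit 21785215483) (.two (nat_lit 183845781507) (nat_lit 183949591504) (.two (nat_lit 34603009) (nat_lit 19532875373) (.two (nat_lit 1048576) (nat_lit 28793901972) (.one (nat_lit 28793901972) .nil))))))))),
   .two (nat_lit 612368451) (nat_lit 35651623) (.two (nat_lit 713031695) (nat_lit 303038503) (.two (nat_lit 11543773199) (nat_lit 184987680964) (.two (nat_lit 11543773192) (nat_lit 158647452126) (.two (nat_lit 46407876616) (nat_lit 183920231249) (.two (nat_lit 34603013) (nat_lit 343933958) (.two (nat_lit 156365750275) (nat_lit 11618223739) (.two (nat_lit 156365750273) (nat_lit 185020188283) (.two (nat_lit 8388608) (nat_lit 1053496) (.one (nat_lit 8394242) .nil))))))))),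
   .two (nat_lit 4601151552) (nat_lit 157035790403) (.two (nat_lit 4601151503) (nat_lit 11577328253) (.two (nat_lit 46984593416) (nat_lit 156367848264) (.two (nat_lit 638582789) (nat_lit 28760344751) (.two (nat_lit 8388609) (nat_lit 11510221974) (.two (nat_lit 8388608) (nat_lit 16782032) (.one (nat_lit 166232855997) .nil)))))),
   .two (nat_lit 8388672) (nat_lit 20638072947) (.two (nat_lit 75497487) (nat_lit 11511267984) (.two (nat_lit 176160774) (nat_lit 47582282202) (.two (nat_lit 2961178632) (nat_lit 159251431889) (.two (nat_lit 21208498181) (nat_lit 1779433979) (.two (nat_lit 2894069763) (nat_lit 203426569) (.two (nat_lit 9765388289) (nat_lit 11484005999) (.two (nat_lit 1048576) (nat_lit 12148804069) (.one (nat_lit 2102787) .nil)))))))),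
   .two (nat_lit 8388626) (nat_lit 12148801667) (.two (nat_lit 8388672) (nat_lit 9900654629) (.two (nat_lit 612368399) (nat_lit 156567077065) (.two (nat_lit 159217877007) (nat_lit 8388701) (.two (nat_lit 176160774) (nat_lit 159251431889) (.two (nat_lit 612368392) (nat_lit 183846830590) (.two (nat_lit 176160770) (nat_lit 2098669) (.two (nat_lit 176160772) (nat_lit 13188990432) (.two (nat_lit 620756993) (nat_lit 169873131) (.two (nat_lit 16777216) (nat_lit 3021999446) (.one (nat_lit 8393676) .nil)))))))))),
   .two (nat_lit 8388672) (nat_lit 20638072944) (.two (nat_lit 612368399) (nat_lit 169869957) (.two (nat_lit 18928893960) (nat_lit 639632200) (.two (nat_lit 176160772) (nat_lit 13188990432) (.two (nat_lit 176160772) (nat_lit 183846830590) (.two (nat_lit 2097153) (nat_lit 4198164) (.two (nat_lit 2097152) (nat_lit 1346375089) (.one (nat_lit 874517968) .nil))))))),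
   .two (nat_lit 46984593428) (nat_lit 2990538885) (.two (nat_lit 4601151499) (nat_lit 8388701) (.two (nat_lit 8388616) (nat_lit 46510637276) (.two (nat_lit 158091706373) (nat_lit 276825054) (.two (nat_lit 4605345797) (nat_lit 4194533) (.two (nat_lit 50331649) (nat_lit 166132188787) (.two (nat_lit 16777216) (nat_lit 47584382406) (.one (nat_lit 8394244) .nil))))))),
   .two (nat_lit 41943107) (nat_lit 159217877059) (.two (nat_lit 75497487) (nat_lit 2988441791) (.two (nat_lit 75497480) (nat_lit 185021236476) (.two (nat_lit 46407876612) (nat_lit 2424309223) (.two (nat_lit 41943045) (nat_lit 11511267558) (.two (nat_lit 41943041) (nat_lit 639633014) (.two (nat_lit 8388608) (nat_lit 10336864793) (.one (nat_lit 1786777741) .nil))))))),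
   .two (nat_lit 21827158083) (nat_lit 639631398) (.two (nat_lit 37748751) (nat_lit 12054429734) (.two (nat_lit 37748751) (nat_lit 21785215072) (.two (nat_lit 37748744) (nat_lit 9906946267) (.two (nat_lit 2954887175) (nat_lit 12062819571) (.two (nat_lit 4194308) (nat_lit 2323644923) (.two (nat_lit 4194307) (nat_lit 2350908368) (.two (nat_lit 2097153) (nat_lit 138413668) (.two (nat_lit 8388608) (nat_lit 16782137) (.one (nat_lit 8394245) .nil))))))))),
   .two (nat_lit 2954887186) (nat_lit 11476664444) (.two (nat_lit 156466413605) (nat_lit 1048914) (.two (nat_lit 20737687571) (nat_lit 47548727940) (.two (nat_lit 19530776673) (nat_lit 306184218) (.two (nat_lit 18926796809) (nat_lit 28086109445) (.two (nat_lit 4194312) (nat_lit 19530776793) (.two (nat_lit 4194306) (nat_lit 2099431) (.two (nat_lit 4194308) (nat_lit 1175454679) (.two (nat_lit 4194305) (nat_lit 2100428) (.two (nat_lit 4194304) (nat_lit 1052724) (.one (nat_lit 1054216) .nil)))))))))),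
   .two (nat_lit 9900654611) (nat_lit 1846542455) (.two (nat_lit 4601151499) (nat_lit 2097352) (.two (nat_lit 4194312) (nat_lit 19027460313) (.two (nat_lit 171966469) (nat_lit 2098808) (.two (nat_lit 4194308) (nat_lit 47548727524) (.two (nat_lit 4194305) (nat_lit 35653236) (.two (nat_lit 1048576) (nat_lit 2100557) (.one (nat_lit 874517965) .nil))))))),
   .two (nat_lit 159217877012) (nat_lit 638582918) (.two (nat_lit 158143086597) (nat_lit 773849598) (.one (nat_lit 1053647) .nil)),
   .two (nat_lit 184986632212) (nat_lit 20644364354) (.two (nat_lit 1846542373) (nat_lit 11584667723) (.two (nat_lit 28093448207) (nat_lit 12047089860) (.two (nat_lit 1913651215) (nat_lit 1384120418) (.two (nat_lit 11476664328) (nat_lit 165532402504) (.two (nat_lit 34603013) (nat_lit 10343155163) (.two (nat_lit 2097153) (nat_lit 4034924321) (.two (nat_lit 2097152) (nat_lit 159257727613) (.one (nat_lit 8393682) .nil)))))))),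
   .two (nat_lit 156569174083) (nat_lit 16777297) (.two (nat_lit 654311439) (nat_lit 1178599462) (.two (nat_lit 11479810063) (nat_lit 11626610884) (.two (nat_lit 9781116936) (nat_lit 19130221384) (.two (nat_lit 2902458372) (nat_lit 156569174523) (.two (nat_lit 2902458372) (nat_lit 166132188783) (.two (nat_lit 16777217) (nat_lit 166132188783) (.two (nat_lit 4194304) (nat_lit 1753222494) (.one (nat_lit 4030730416) .nil)))))))),
   .two (nat_lit 1310720067) (nat_lit 19596836932) (.two (nat_lit 3458203683) (nat_lit 1048659) (.two (nat_lit 174752530447) (nat_lit 165526110304) (.two (nat_lit 12047089681) (nat_lit 46409973954) (.two (nat_lit 13191086088) (nat_lit 269484879) (.two (nat_lit 184989777927) (nat_lit 158075978985) (.two (nat_lit 708837381) (nat_lit 9765390824) (.two (nat_lit 46407876611) (nat_lit 1947207133) (.two (nat_lit 606076929) (nat_lit 1051024) (.two (nat_lit 2097152) (nat_lit 28693237777) (.one (nat_lit 306189258) .nil)))))))))),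
   .two (nat_lit 10336862227) (nat_lit 8388672) (.two (nat_lit 4028629011) (nat_lit 8388799) (.two (nat_lit 304087053) (nat_lit 47555018981) (.two (nat_lit 739246085) (nat_lit 165526111724) (.two (nat_lit 739246085) (nat_lit 174753580000) (.two (nat_lit 156365750273) (nat_lit 184986633832) (.two (nat_lit 8388608) (nat_lit 1051133) (.one (nat_lit 1053653) .nil))))))),
   .two (nat_lit 20705181733) (nat_lit 46406828293) (.two (nat_lit 183946444819) (nat_lit 809500710) (.two (nat_lit 9934209039) (nat_lit 1049303) (.two (nat_lit 10335813641) (nat_lit 1178599646) (.two (nat_lit 9934209032) (nat_lit 68158789) (.two (nat_lit 11476664322) (nat_lit 4195298) (.two (nat_lit 1277165571) (nat_lit 1051650) (.two (nat_lit 2097153) (nat_lit 1051025) (.two (nat_lit 2097152) (nat_lit 4199230) (.one (nat_lit 2102794) .nil))))))))),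
   .two (nat_lit 721420306) (nat_lit 1182793858) (.two (nat_lit 176160783) (nat_lit 620757087) (.two (nat_lit 176160776) (nat_lit 184549596) (.two (nat_lit 20644364290) (nat_lit 16778737) (.two (nat_lit 8388613) (nat_lit 4613734629) (.two (nat_lit 612368385) (nat_lit 16779666) (.two (nat_lit 8388608) (nat_lit 16780649) (.one (nat_lit 8394251) .nil))))))),
   .two (nat_lit 37247516709) (nat_lit 11513364598) (.two (nat_lit 157036838927) (nat_lit 202375824) (.two (nat_lit 4194310) (nat_lit 20637025529) (.two (nat_lit 37748744) (nat_lit 165525063140) (.two (nat_lit 4194308) (nat_lit 1343228106) (.two (nat_lit 37748737) (nat_lit 1411385745) (.two (nat_lit 4194304) (nat_lit 1053503) (.one (nat_lit 2102796) .nil))))))),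
   .two (nat_lit 8388721) (nat_lit 50331684) (.two (nat_lit 41943055) (nat_lit 46406828129) (.two (nat_lit 41943048) (nat_lit 46406828249) (.two (nat_lit 8388612) (nat_lit 12147753939) (.two (nat_lit 8388612) (nat_lit 285212901) (.two (nat_lit 41943041) (nat_lit 1051027) (.two (nat_lit 8388608) (nat_lit 1052011) (.one (nat_lit 1053654) .nil))))))),
   .two (nat_lit 809500692) (nat_lit 10369368200) (.two (nat_lit 184419352587) (nat_lit 10939793610) (.two (nat_lit 705691654) (nat_lit 239075804) (.two (nat_lit 18928893957) (nat_lit 174685423084) (.two (nat_lit 18928893957) (nat_lit 156968682464) (.two (nat_lit 4194305) (nat_lit 156968683919) (.two (nat_lit 4194304) (nat_lit 1052013) (.one (nat_lit 4199950) .nil))))))),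
   .two (nat_lit 3458203668) (nat_lit 46507491452) (.two (nat_lit 3028287554) (nat_lit 806354981) (.two (nat_lit 46407876623) (nat_lit 10007609535) (.two (nat_lit 46407876616) (nat_lit 3028287952) (.two (nat_lit 46407876616) (nat_lit 165532401882) (.two (nat_lit 166129041410) (nat_lit 2100228) (.two (nat_lit 4599054341) (nat_lit 165532402632) (.two (nat_lit 156364701697) (nat_lit 4638902661) (.two (nat_lit 1048576) (nat_lit 8393536) (.one (nat_lit 1054223) .nil))))))))),
   .two (nat_lit 16777234) (nat_lit 746586246) (.two (nat_lit 16777280) (nat_lit 11618222149) (.two (nat_lit 21785215016) (nat_lit 16777310) (.two (nat_lit 21785215016) (nat_lit 16777309) (.two (nat_lit 184549384) (nat_lit 11618223427) (.two (nat_lit 10007609356) (nat_lit 2969567461) (.two (nat_lit 20644364290) (nat_lit 16779497) (.two (nat_lit 612368387) (nat_lit 9881781196) (.two (nat_lit 156372041729) (nat_lit 16781207) (.two (nat_lit 8388608) (nat_lit 16782147) (.one (nat_lit 8394256) .nil)))))))))),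
   .two (nat_lit 272629824) (nat_lit 183920230478) (.two (nat_lit 2889875491) (nat_lit 1283457152) (.two (nat_lit 272629775) (nat_lit 11584667839) (.two (nat_lit 37748744) (nat_lit 21785215441) (.two (nat_lit 37748743) (nat_lit 183920231677) (.two (nat_lit 4194308) (nat_lit 12054430669) (.two (nat_lit 606076931) (nat_lit 183920232649) (.two (nat_lit 606076929) (nat_lit 1786776764) (.two (nat_lit 4194304) (nat_lit 19128127539) (.one (nat_lit 2102802) .nil))))))))),
   .two (nat_lit 11618222146) (nat_lit 11626610726) (.two (nat_lit 713031695) (nat_lit 11626610726) (.two (nat_lit 813694983) (nat_lit 16778067) (.two (nat_lit 612368387) (nat_lit 218104792) (.two (nat_lit 156365750273) (nat_lit 8391060) (.two (nat_lit 1048576) (nat_lit 8393540) (.one (nat_lit 8393690) .nil)))))),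
   .two (nat_lit 28690087973) (nat_lit 11611930757) (.two (nat_lit 1753219087) (nat_lit 159216829035) (.two (nat_lit 705691656) (nat_lit 10343154504) (.two (nat_lit 705691652) (nat_lit 8390869) (.two (nat_lit 9766436865) (nat_lit 1051854) (.two (nat_lit 2097152) (nat_lit 1052728) (.one (nat_lit 2102803) .nil)))))),
   .two (nat_lit 46409973778) (nat_lit 21214789760) (.two (nat_lit 41943055) (nat_lit 159219974239) (.two (nat_lit 41943048) (nat_lit 11513364700) (.two (nat_lit 2889875458) (nat_lit 8391688) (.two (nat_lit 8388612) (nat_lit 876609765) (.two (nat_lit 612368385) (nat_lit 4196757) (.two (nat_lit 4194304) (nat_lit 8392046) (.one (nat_lit 8394260) .nil))))))),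
   .two (nat_lit 1191182448) (nat_lit 742391846) (.two (nat_lit 9781116943) (nat_lit 742391846) (.two (nat_lit 37748743) (nat_lit 184423548182) (.two (nat_lit 37748739) (nat_lit 1753219579) (.two (nat_lit 16777217) (nat_lit 21814576761) (.two (nat_lit 2097152) (nat_lit 4198459) (.one (nat_lit 4199388) .nil)))))),
   .two (nat_lit 158075977748) (nat_lit 3558867065) (.two (nat_lit 1343225871) (nat_lit 166203490399) (.two (nat_lit 705691656) (nat_lit 880804060) (.two (nat_lit 2887778306) (nat_lit 806356445) (.two (nat_lit 34603013) (nat_lit 8389116) (.two (nat_lit 2097153) (nat_lit 158075979384) (.two (nat_lit 1048576) (nat_lit 28087160253) (.one (nat_lit 1054232) .nil))))))),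
   .two (nat_lit 12150898753) (nat_lit 117440550) (.two (nat_lit 12150898753) (nat_lit 9881780320) (.two (nat_lit 11551113231) (nat_lit 754974939) (.two (nat_lit 11551113224) (nat_lit 16777728) (.two (nat_lit 1191182344) (nat_lit 9900656239) (.two (nat_lit 713031684) (nat_lit 1377829897) (.two (nat_lit 713031684) (nat_lit 37247518319) (.two (nat_lit 37748737) (nat_lit 343935463) (.two (nat_lit 2097152) (nat_lit 185023336563) (.one (nat_lit 166230757571) .nil))))))))),
   .two (nat_lit 2323644453) (nat_lit 50331686) (.two (nat_lit 16777282) (nat_lit 713031876) (.two (nat_lit 10343153679) (nat_lit 50332488) (.two (nat_lit 10343153672) (nat_lit 721420795) (.two (nat_lit 10343153672) (nat_lit 83887056) (.two (nat_lit 46414168068) (nat_lit 822084615) (.two (nat_lit 46414168068) (nat_lit 822085220) (.two (nat_lit 8388609) (nat_lit 285216773) (.two (nat_lit 8388608) (nat_lit 157051523970) (.one (nat_lit 10351546560) .nil))))))))),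
   .two (nat_lit 2927624213) (nat_lit 50331686) (.two (nat_lit 16777282) (nat_lit 713031876) (.two (nat_lit 620757026) (nat_lit 183853121633) (.two (nat_lit 10343153679) (nat_lit 50332488) (.two (nat_lit 10343153672) (nat_lit 83887056) (.two (nat_lit 16777224) (nat_lit 19100861394) (.two (nat_lit 46414168068) (nat_lit 822085220) (.two (nat_lit 165532401669) (nat_lit 1291848164) (.two (nat_lit 8388609) (nat_lit 285216773) (.two (nat_lit 8388608) (nat_lit 157051523970) (.one (nat_lit 156380434623) .nil)))))))))),
   .two (nat_lit 2927624213) (nat_lit 620757183) (.two (nat_lit 16777280) (nat_lit 20644364385) (.two (nat_lit 10343153679) (nat_lit 46489666005) (.two (nat_lit 16777231) (nat_lit 20644364505) (.two (nat_lit 10343153672) (nat_lit 16778862) (.two (nat_lit 16777224) (nat_lit 310378724) (.two (nat_lit 46414168068) (nat_lit 620758634) (.two (nat_lit 46414168068) (nat_lit 16778862) (.two (nat_lit 8388609) (nat_lit 10351544801) (.two (nat_lit 8388608) (nat_lit 183962176925) (.one (nat_lit 18941481150) .nil)))))))))),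
   .two (nat_lit 4194374) (nat_lit 18933088294) (.two (nat_lit 13195280451) (nat_lit 156971827395) (.two (nat_lit 12117344271) (nat_lit 46414168283) (.two (nat_lit 12117344264) (nat_lit 156372042235) (.two (nat_lit 12117344264) (nat_lit 46414169040) (.two (nat_lit 11479810052) (nat_lit 13195281417) (.two (nat_lit 11479810052) (nat_lit 165532403311) (.two (nat_lit 37748737) (nat_lit 8392712) (.two (nat_lit 4194304) (nat_lit 8392846) (.one (nat_lit 1379931101) .nil))))))))),
   .two (nat_lit 138412102) (nat_lit 18933088294) (.two (nat_lit 13195280451) (nat_lit 37748934) (.two (nat_lit 11479810063) (nat_lit 18933089096) (.two (nat_lit 11479810056) (nat_lit 156372042235) (.two (nat_lit 11479810056) (nat_lit 46414169040) (.two (nat_lit 809500677) (nat_lit 4605346820) (.two (nat_lit 809500677) (nat_lit 4605347424) (.two (nat_lit 37748737) (nat_lit 8392716) (.two (nat_lit 4194304) (nat_lit 41947257) (.one (nat_lit 37753826) .nil))))))))),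
   .two (nat_lit 169869377) (nat_lit 46414168102) (.two (nat_lit 272629768) (nat_lit 156566028795) (.two (nat_lit 4194308) (nat_lit 9867100676) (.two (nat_lit 4194304) (nat_lit 156365753770) (.one (nat_lit 8393726) .nil)))),
   .two (nat_lit 28758245443) (nat_lit 46507491367) (.two (nat_lit 10369368072) (nat_lit 28758245883) (.two (nat_lit 165526110211) (nat_lit 1947207273) (.two (nat_lit 2097152) (nat_lit 1052816) (.one (nat_lit 310383601) .nil)))),
   .two (nat_lit 822083603) (nat_lit 21814575716) (.two (nat_lit 21812477989) (nat_lit 10385096799) (.two (nat_lit 184549395) (nat_lit 18928894416) (.two (nat_lit 37748751) (nat_lit 10385096922) (.two (nat_lit 1749024777) (nat_lit 10370418292) (.two (nat_lit 37748744) (nat_lit 620757219) (.two (nat_lit 16777218) (nat_lit 4196741) (.two (nat_lit 183861510149) (nat_lit 165528209011) (.two (nat_lit 16777217) (nat_lit 4197713) (.two (nat_lit 16777216) (nat_lit 4198546) (.one (nat_lit 16782913) .nil)))))))))),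
   .two (nat_lit 158176641043) (nat_lit 10538188991) (.two (nat_lit 28758245391) (nat_lit 37246468313) (.two (nat_lit 28758245384) (nat_lit 336594548) (.two (nat_lit 705691652) (nat_lit 2317354597) (.two (nat_lit 605028353) (nat_lit 21812480486) (.two (nat_lit 2097152) (nat_lit 1052080) (.one (nat_lit 1053701) .nil)))))),
   .two (nat_lit 3028287509) (nat_lit 306184288) (.two (nat_lit 809500707) (nat_lit 16777314) (.two (nat_lit 612368399) (nat_lit 20637025096) (.two (nat_lit 612368392) (nat_lit 1962935250) (.two (nat_lit 612368392) (nat_lit 672137444) (.two (nat_lit 75497477) (nat_lit 19093522814) (.two (nat_lit 176160771) (nat_lit 183845784750) (.two (nat_lit 8388609) (nat_lit 16781342) (.two (nat_lit 8388608) (nat_lit 2902463392) (.one (nat_lit 8394308) .nil))))))))),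
   .two (nat_lit 176160835) (nat_lit 12047089702) (.two (nat_lit 176160835) (nat_lit 21777875040) (.two (nat_lit 612368418) (nat_lit 184986632383) (.two (nat_lit 8388623) (nat_lit 21777875166) (.two (nat_lit 176160784) (nat_lit 156465365465) (.two (nat_lit 41943048) (nat_lit 772801485) (.two (nat_lit 41943047) (nat_lit 12147753932) (.two (nat_lit 713031685) (nat_lit 47547681255) (.two (nat_lit 176160771) (nat_lit 1051836) (.two (nat_lit 156364701697) (nat_lit 2101279) (.two (nat_lit 2097152) (nat_lit 1384124551) (.one (nat_lit 8394309) .nil))))))))))),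
   .two (nat_lit 12117344370) (nat_lit 3557818465) (.two (nat_lit 809500687) (nat_lit 41943270) (.two (nat_lit 4194312) (nat_lit 159224168675) (.two (nat_lit 4194308) (nat_lit 11517560418) (.two (nat_lit 8388609) (nat_lit 1279264417) (.two (nat_lit 1048576) (nat_lit 11010051482) (.one (nat_lit 1054278) .nil)))))),
   .two (nat_lit 272629781) (nat_lit 2097352) (.two (nat_lit 272629771) (nat_lit 19027460313) (.two (nat_lit 4194310) (nat_lit 47548727524) (.two (nat_lit 4194306) (nat_lit 2098808) (.two (nat_lit 4194305) (nat_lit 18926798498) (.two (nat_lit 4194304) (nat_lit 28691139096) (.one (nat_lit 2102855) .nil)))))),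
   .two (nat_lit 46474985582) (nat_lit 174759870502) (.two (nat_lit 606076936) (nat_lit 156372042235) (.two (nat_lit 809500677) (nat_lit 612369416) (.two (nat_lit 16777216) (nat_lit 4199330) (.one (nat_lit 4200010) .nil)))),
   .two (nat_lit 183928619076) (nat_lit 75497510) (.two (nat_lit 16777224) (nat_lit 10370417147) (.two (nat_lit 16777220) (nat_lit 9766437895) (.two (nat_lit 4194304) (nat_lit 8393635) (.one (nat_lit 2102282) .nil)))),
   .two (nat_lit 2954887232) (nat_lit 9940500519) (.two (nat_lit 4605345856) (nat_lit 4599054534) (.two (nat_lit 156372041743) (nat_lit 9934209243) (.two (nat_lit 18933088264) (nat_lit 11543773691) (.two (nat_lit 169869320) (nat_lit 10007610313) (.two (nat_lit 2097157) (nat_lit 10007610374) (.two (nat_lit 10343153669) (nat_lit 34604655) (.two (nat_lit 34603009) (nat_lit 2099695) (.two (nat_lit 1048576) (nat_lit 9766441880) (.one (nat_lit 2102284) .nil))))))))),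
   .two (nat_lit 11577327681) (nat_lit 28806480069) (.two (nat_lit 156535619699) (nat_lit 184986632285) (.two (nat_lit 184986632207) (nat_lit 4030727120) (.two (nat_lit 183845781521) (nat_lit 156569174245) (.two (nat_lit 18925748232) (nat_lit 165528208862) (.two (nat_lit 12047089672) (nat_lit 156569174245) (.two (nat_lit 11476664322) (nat_lit 11492396212) (.two (nat_lit 9768534019) (nat_lit 1191183974) (.two (nat_lit 9768534017) (nat_lit 1862274374) (.two (nat_lit 16777216) (nat_lit 12050240394) (.one (nat_lit 1054283) .nil)))))))))),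
   .two (nat_lit 1358954563) (nat_lit 168820775) (.two (nat_lit 1191182448) (nat_lit 13191086176) (.two (nat_lit 9781116943) (nat_lit 11513364699) (.two (nat_lit 9781116936) (nat_lit 1212154363) (.two (nat_lit 20637024264) (nat_lit 754975696) (.two (nat_lit 2902458372) (nat_lit 1178600456) (.two (nat_lit 159216828421) (nat_lit 11559503456) (.two (nat_lit 605028353) (nat_lit 156581760419) (.two (nat_lit 4194304) (nat_lit 11543778315) (.one (nat_lit 11543778315) .nil))))))))),
   .two (nat_lit 8388626) (nat_lit 1310720097) (.two (nat_lit 8388623) (nat_lit 1310720217) (.two (nat_lit 10336862216) (nat_lit 343933155) (.two (nat_lit 176160772) (nat_lit 807405172) (.two (nat_lit 8388609) (nat_lit 1210058402) (.two (nat_lit 8388608) (nat_lit 158077028888) (.one (nat_lit 2102860) .nil)))))),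
   .two (nat_lit 1191182448) (nat_lit 840957991) (.two (nat_lit 169869320) (nat_lit 1191182843) (.two (nat_lit 169869316) (nat_lit 1426064392) (.two (nat_lit 2097152) (nat_lit 16781461) (.one (nat_lit 2102862) .nil)))),
   .two (nat_lit 11517558804) (nat_lit 11611930721) (.two (nat_lit 713031691) (nat_lit 11611930842) (.two (nat_lit 713031686) (nat_lit 606077159) (.two (nat_lit 16777218) (nat_lit 9940502133) (.two (nat_lit 16777217) (nat_lit 2100564) (.two (nat_lit 16777216) (nat_lit 2100661) (.one (nat_lit 2102863) .nil)))))),
   .two (nat_lit 1277165586) (nat_lit 4605346455) (.two (nat_lit 639631396) (nat_lit 13195280479) (.two (nat_lit 46414168075) (nat_lit 4030726616) (.two (nat_lit 1178599439) (nat_lit 183947493593) (.two (nat_lit 46414168070) (nat_lit 166132188115) (.two (nat_lit 742391816) (nat_lit 4605346019) (.two (nat_lit 183848927234) (nat_lit 21818772817) (.two (nat_lit 69206021) (nat_lit 9772730017) (.two (nat_lit 37748737) (nat_lit 21818772817) (.two (nat_lit 4194304) (nat_lit 21818773650) (.one (nat_lit 4200016) .nil)))))))))),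
   .two (nat_lit 3036676163) (nat_lit 1178599462) (.two (nat_lit 75497480) (nat_lit 20652753873) (.two (nat_lit 16777219) (nat_lit 8390265) (.two (nat_lit 8388608) (nat_lit 50335875) (.one (nat_lit 4200017) .nil)))),
   .two (nat_lit 18933088368) (nat_lit 156367847462) (.two (nat_lit 156372041736) (nat_lit 1212154363) (.two (nat_lit 4194307) (nat_lit 11559502852) (.two (nat_lit 8388608) (nat_lit 16780726) (.one (nat_lit 4199438) .nil)))),
   .two (nat_lit 9802088515) (nat_lit 780140583) (.two (nat_lit 46984593416) (nat_lit 9802088955) (.two (nat_lit 13191086085) (nat_lit 13195282041) (.two (nat_lit 1048576) (nat_lit 4634710144) (.one (nat_lit 4200018) .nil)))),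
   .two (nat_lit 2954887186) (nat_lit 158183981703) (.two (nat_lit 176160783) (nat_lit 9781117156) (.two (nat_lit 176160776) (nat_lit 9781117156) (.two (nat_lit 169869316) (nat_lit 16778853) (.two (nat_lit 606076929) (nat_lit 612370969) (.two (nat_lit 2097152) (nat_lit 612370969) (.one (nat_lit 8393744) .nil)))))),
   .two (nat_lit 41943074) (nat_lit 4601151526) (.two (nat_lit 50331655) (nat_lit 9933160955) (.two (nat_lit 50331651) (nat_lit 2953839620) (.two (nat_lit 16777216) (nat_lit 4197815) (.one (nat_lit 4200019) .nil)))),
   .two (nat_lit 739246147) (nat_lit 876609736) (.two (nat_lit 11543773199) (nat_lit 37249614041) (.two (nat_lit 11543773192) (nat_lit 1916797159) (.two (nat_lit 739246085) (nat_lit 46980400743) (.two (nat_lit 34603009) (nat_lit 4196848) (.two (nat_lit 1048576) (nat_lit 10003418529) (.one (nat_lit 4200021) .nil)))))),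
   .two (nat_lit 4601151508) (nat_lit 46474985569) (.two (nat_lit 10506731535) (nat_lit 3558867162) (.two (nat_lit 9768534024) (nat_lit 166130090215) (.two (nat_lit 10504634373) (nat_lit 2889877890) (.two (nat_lit 606076929) (nat_lit 1782581737) (.two (nat_lit 2097152) (nat_lit 775949730) (.one (nat_lit 3525318245) .nil)))))),
   .two (nat_lit 641728531) (nat_lit 10001318088) (.two (nat_lit 46508539923) (nat_lit 156971827417) (.two (nat_lit 11580473353) (nat_lit 9934209252) (.two (nat_lit 166130089989) (nat_lit 1413482100) (.two (nat_lit 2097153) (nat_lit 184419355114) (.two (nat_lit 2097152) (nat_lit 10003418529) (.one (nat_lit 11611936291) .nil)))))),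
   .two (nat_lit 21818769445) (nat_lit 20637024294) (.two (nat_lit 272629854) (nat_lit 166129041529) (.two (nat_lit 612368399) (nat_lit 20637025096) (.two (nat_lit 612368392) (nat_lit 159216828923) (.two (nat_lit 612368392) (nat_lit 159219975113) (.two (nat_lit 75497477) (nat_lit 156532474373) (.two (nat_lit 176160771) (nat_lit 183845784750) (.two (nat_lit 8388609) (nat_lit 4598008303) (.two (nat_lit 8388608) (nat_lit 16782253) (.one (nat_lit 8394327) .nil))))))))),
   .two (nat_lit 4194380) (nat_lit 46523220006) (.two (nat_lit 4194312) (nat_lit 2902458877) (.two (nat_lit 4194308) (nat_lit 2902459397) (.two (nat_lit 1048576) (nat_lit 183962176936) (.one (nat_lit 1053717) .nil)))),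
   .two (nat_lit 16777309) (nat_lit 12054429793) (.two (nat_lit 158653743123) (nat_lit 184550217) (.two (nat_lit 16777280) (nat_lit 12054429913) (.two (nat_lit 20644364299) (nat_lit 50333147) (.two (nat_lit 184549391) (nat_lit 9974055140) (.two (nat_lit 20644364294) (nat_lit 183861511842) (.two (nat_lit 20644364290) (nat_lit 16780702) (.two (nat_lit 1753219077) (nat_lit 20652754594) (.two (nat_lit 612368385) (nat_lit 156380434622) (.two (nat_lit 8388608) (nat_lit 1291849931) (.one (nat_lit 1795167846) .nil)))))))))),
   .two (nat_lit 218103826) (nat_lit 1310720217) (.two (nat_lit 654311439) (nat_lit 3525312740) (.two (nat_lit 46407876612) (nat_lit 21223179938) (.two (nat_lit 2097153) (nat_lit 184551965) (.one (nat_lit 16782362) .nil)))),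
   .two (nat_lit 184549394) (nat_lit 12054429913) (.two (nat_lit 620757007) (nat_lit 1753219299) (.two (nat_lit 158083317765) (nat_lit 12062820002) (.two (nat_lit 41943041) (nat_lit 822086170) (.one (nat_lit 16782363) .nil)))),
   .two (nat_lit 285212690) (nat_lit 2923430105) (.two (nat_lit 18928893967) (nat_lit 1426063590) (.two (nat_lit 156367847429) (nat_lit 11525949090) (.two (nat_lit 37748737) (nat_lit 185002363416) (.one (nat_lit 16782364) .nil)))),
   .two (nat_lit 352321727) (nat_lit 46477082663) (.two (nat_lit 21207449608) (nat_lit 1914700808) (.two (nat_lit 16777216) (nat_lit 156465370081) .nil)),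
   .two (nat_lit 272629778) (nat_lit 9765388796) (.two (nat_lit 809500687) (nat_lit 9765388796) (.two (nat_lit 2889875458) (nat_lit 19530780058) (.two (nat_lit 4194305) (nat_lit 19530780058) (.one (nat_lit 156971832957) .nil)))),
   .two (nat_lit 159217877183) (nat_lit 46507491367) (.two (nat_lit 1175453704) (nat_lit 840958984) (.two (nat_lit 8388608) (nat_lit 1052882) .nil)),
   .two (nat_lit 2994733094) (nat_lit 3021996071) (.two (nat_lit 9866051592) (nat_lit 142607366) (.two (nat_lit 2097152) (nat_lit 4199407) .nil)),
   .two (nat_lit 713031718) (nat_lit 1358954534) (.two (nat_lit 83886088) (nat_lit 11618223109) (.two (nat_lit 2097152) (nat_lit 16782320) .nil)),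
   .two (nat_lit 20705181734) (nat_lit 2886729767) (.two (nat_lit 166129041416) (nat_lit 3458204680) (.two (nat_lit 4194304) (nat_lit 8393713) .nil)),
   .two (nat_lit 20738736149) (nat_lit 13191086297) (.two (nat_lit 46409973775) (nat_lit 2887778533) (.two (nat_lit 11479810050) (nat_lit 2099689) (.two (nat_lit 606076929) (nat_lit 4198540) (.one (nat_lit 2102895) .nil)))),
   .two (nat_lit 8388626) (nat_lit 11611930841) (.two (nat_lit 8388623) (nat_lit 236978404) (.two (nat_lit 8388610) (nat_lit 2099690) (.two (nat_lit 41943041) (nat_lit 156365753752) (.one (nat_lit 2102896) .nil)))),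
   .two (nat_lit 3560964116) (nat_lit 20704133337) (.two (nat_lit 4194315) (nat_lit 19596837092) (.two (nat_lit 11479810050) (nat_lit 1051115) (.two (nat_lit 37748737) (nat_lit 1052069) (.one (nat_lit 4200049) .nil)))),
   .two (nat_lit 8388626) (nat_lit 11559502041) (.two (nat_lit 8388623) (nat_lit 1358954723) (.two (nat_lit 721420292) (nat_lit 1182796267) (.two (nat_lit 50331649) (nat_lit 8392102) (.one (nat_lit 8394354) .nil)))),
   .two (nat_lit 1191182374) (nat_lit 10001317926) (.two (nat_lit 169869320) (nat_lit 11492393989) (.two (nat_lit 1048576) (nat_lit 2102260) .nil)),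
   .two (nat_lit 9948889283) (nat_lit 11007950886) (.two (nat_lit 2969567299) (nat_lit 19027460315) (.two (nat_lit 654311439) (nat_lit 46474986505) (.two (nat_lit 654311432) (nat_lit 46474986505) (.two (nat_lit 174753579015) (nat_lit 16778863) (.two (nat_lit 2887778307) (nat_lit 9814673891) (.two (nat_lit 2097153) (nat_lit 16779807) (.two (nat_lit 2097152) (nat_lit 16782325) (.one (nat_lit 270538346) .nil)))))))),
   .two (nat_lit 2889875813) (nat_lit 243269671) (.two (nat_lit 166230753293) (nat_lit 10335814664) (.two (nat_lit 4194304) (nat_lit 35656675) .nil)),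
   .two (nat_lit 4601151679) (nat_lit 41943078) (.two (nat_lit 3460300808) (nat_lit 874513416) (.two (nat_lit 1048576) (nat_lit 4199414) .nil)),
   .two (nat_lit 1309671443) (nat_lit 236978393) (.two (nat_lit 174753579023) (nat_lit 184986632420) (.two (nat_lit 20637024258) (nat_lit 606080335) (.two (nat_lit 605028353) (nat_lit 46508543394) (.one (nat_lit 2102899) .nil)))),
   .two (nat_lit 184549414) (nat_lit 780140582) (.two (nat_lit 184549384) (nat_lit 343933444) (.two (nat_lit 2097152) (nat_lit 28101841097) .nil)),
   .two (nat_lit 272629826) (nat_lit 174753579236) (.two (nat_lit 37748751) (nat_lit 21818769637) (.two (nat_lit 169869316) (nat_lit 28693236201) (.two (nat_lit 37748737) (nat_lit 2100647) (.one (nat_lit 4200052) .nil)))),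
   .two (nat_lit 9781116966) (nat_lit 2987393063) (.two (nat_lit 68157448) (nat_lit 11492393988) (.two (nat_lit 4194304) (nat_lit 9948893386) .nil)),
   .two (nat_lit 3036676116) (nat_lit 9802088665) (.two (nat_lit 3539992591) (nat_lit 306184419) (.two (nat_lit 21223178245) (nat_lit 9966716578) (.two (nat_lit 37748737) (nat_lit 11610884632) (.one (nat_lit 1054325) .nil)))),
   .two (nat_lit 2961178662) (nat_lit 10940842022) (.two (nat_lit 19596836871) (nat_lit 2099588) (.two (nat_lit 4194304) (nat_lit 2102263) .nil)),
   .two (nat_lit 8388646) (nat_lit 11492392998) (.two (nat_lit 50331655) (nat_lit 1417675780) (.two (nat_lit 1048576) (nat_lit 16782329) .nil)),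
   .two (nat_lit 4030726164) (nat_lit 158646403289) (.two (nat_lit 10939793423) (nat_lit 843055331) (.two (nat_lit 183848927236) (nat_lit 9966716578) (.two (nat_lit 9765388289) (nat_lit 3527412252) (.one (nat_lit 9798948451) .nil)))),
   .two (nat_lit 11476664341) (nat_lit 4634706147) (.two (nat_lit 4194306) (nat_lit 168824215) (.one (nat_lit 135272058) .nil)),
   .two (nat_lit 3036676117) (nat_lit 13188989158) (.two (nat_lit 2887778306) (nat_lit 218106394) (.one (nat_lit 620762747) .nil)),
   .two (nat_lit 272629778) (nat_lit 9765388796) (.two (nat_lit 2889875458) (nat_lit 19530780058) (.one (nat_lit 156971832957) .nil)),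
   .two (nat_lit 742391827) (nat_lit 1745879267) (.two (nat_lit 19596836869) (nat_lit 9768536601) (.one (nat_lit 1054342) .nil)),
   .two (nat_lit 183848927299) (nat_lit 13237223654) (.two (nat_lit 4194308) (nat_lit 11492395547) (.one (nat_lit 4200071) .nil)),
   .two (nat_lit 158075977751) (nat_lit 310378617) (.two (nat_lit 11479810053) (nat_lit 11006902912) (.two (nat_lit 41943041) (nat_lit 13224643424) (.one (nat_lit 4200073) .nil))),
   .two (nat_lit 2969567247) (nat_lit 2887778428) (.two (nat_lit 639631365) (nat_lit 46477084480) (.two (nat_lit 2097152) (nat_lit 16781652) .nil)),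
   .two (nat_lit 16777231) (nat_lit 639631375) (.two (nat_lit 184549384) (nat_lit 47582281968) (.two (nat_lit 34603013) (nat_lit 1929380490) (.two (nat_lit 50331649) (nat_lit 1052120) (.two (nat_lit 1048576) (nat_lit 2100777) (.one (nat_lit 2102922) .nil))))),
   .two (nat_lit 713031695) (nat_lit 839910013) (.two (nat_lit 41943041) (nat_lit 1050544) (.two (nat_lit 1048576) (nat_lit 9940503311) (.one (nat_lit 1054347) .nil))),
   .two (nat_lit 285212687) (nat_lit 306184218) (.two (nat_lit 4194312) (nat_lit 9781118427) (.one (nat_lit 1054348) .nil)),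
   .two (nat_lit 8388623) (nat_lit 83886095) (.two (nat_lit 176160776) (nat_lit 136314996) (.two (nat_lit 620756997) (nat_lit 20745028885) (.two (nat_lit 2097152) (nat_lit 16781552) (.one (nat_lit 2101807) .nil)))),
   .two (nat_lit 639631375) (nat_lit 310378614) (.two (nat_lit 10343153672) (nat_lit 236978537) (.two (nat_lit 165526110213) (nat_lit 21785216211) (.two (nat_lit 2097153) (nat_lit 8392172) (.two (nat_lit 8388608) (nat_lit 2101530) (.one (nat_lit 2102928) .nil))))),
   .two (nat_lit 620757007) (nat_lit 272629951) (.two (nat_lit 2969567237) (nat_lit 13224641748) (.two (nat_lit 9781116929) (nat_lit 1745882869) (.one (nat_lit 16782993) .nil))),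
   .two (nat_lit 276824079) (nat_lit 1310720066) (.two (nat_lit 4605345800) (nat_lit 184987682017) (.two (nat_lit 8388609) (nat_lit 1051404) (.two (nat_lit 8388608) (nat_lit 2101533) (.one (nat_lit 2102930) .nil)))),
   .two (nat_lit 612368399) (nat_lit 46474985537) (.two (nat_lit 47555018760) (nat_lit 337641831) (.two (nat_lit 176160772) (nat_lit 2098977) (.two (nat_lit 606076929) (nat_lit 10913582824) (.one (nat_lit 2102931) .nil)))),
   .two (nat_lit 8388623) (nat_lit 12047089731) (.two (nat_lit 41943048) (nat_lit 13221495143) (.two (nat_lit 713031684) (nat_lit 1050402) (.two (nat_lit 41943041) (nat_lit 705693881) (.two (nat_lit 8388608) (nat_lit 1053728) (.one (nat_lit 1053816) .nil))))),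
   .two (nat_lit 169869327) (nat_lit 1916797042) (.two (nat_lit 12117344264) (nat_lit 1049173) (.two (nat_lit 806354949) (nat_lit 183949591764) (.two (nat_lit 2097153) (nat_lit 638585016) (.two (nat_lit 2097152) (nat_lit 1052415) (.one (nat_lit 1053817) .nil))))),
   .two (nat_lit 713031695) (nat_lit 9969860727) (.two (nat_lit 183848927240) (nat_lit 3028287846) (.two (nat_lit 612368389) (nat_lit 4196131) (.two (nat_lit 41943041) (nat_lit 4197869) (.two (nat_lit 4194304) (nat_lit 174692765978) (.one (nat_lit 8394388) .nil))))),
   .two (nat_lit 285212687) (nat_lit 12117344369) (.two (nat_lit 11479810056) (nat_lit 11492394460) (.two (nat_lit 4194304) (nat_lit 16781688) (.one (nat_lit 16782556) .nil))),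
   .two (nat_lit 16777231) (nat_lit 47555018818) (.two (nat_lit 47555018760) (nat_lit 3036677353) (.two (nat_lit 8388609) (nat_lit 158662134634) (.two (nat_lit 8388608) (nat_lit 16781689) (.one (nat_lit 16783036) .nil)))),
   .two (nat_lit 1795162127) (nat_lit 157035790955) (.two (nat_lit 34603013) (nat_lit 654312665) (.two (nat_lit 2097153) (nat_lit 16780166) (.two (nat_lit 2097152) (nat_lit 1053050) (.one (nat_lit 1054397) .nil)))),
   .two (nat_lit 813694991) (nat_lit 9781117040) (.two (nat_lit 10343153672) (nat_lit 2097857) (.two (nat_lit 169869316) (nat_lit 184423549120) (.two (nat_lit 16777216) (nat_lit 184417259263) (.one (nat_lit 184417260665) .nil)))),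
   .two (nat_lit 184549391) (nat_lit 159251431532) (.two (nat_lit 169869320) (nat_lit 285213266) (.two (nat_lit 270532613) (nat_lit 16779072) (.two (nat_lit 620756993) (nat_lit 638585693) (.two (nat_lit 1048576) (nat_lit 304091472) (.one (nat_lit 1053924) .nil))))),
   .two (nat_lit 2889875471) (nat_lit 1191182447) (.two (nat_lit 1191182344) (nat_lit 156569174856) (.two (nat_lit 50331649) (nat_lit 46980403874) .nil)),
   .two (nat_lit 2349858840) (nat_lit 2353004680) (.two (nat_lit 285212680) (nat_lit 21781021758) (.two (nat_lit 171966469) (nat_lit 20753417459) (.two (nat_lit 50331649) (nat_lit 13224643424) (.two (nat_lit 1048576) (nat_lit 16781695) (.one (nat_lit 4199654) .nil))))),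
   .two (nat_lit 9781116943) (nat_lit 20707278981) (.two (nat_lit 11543773192) (nat_lit 158158816483) (.two (nat_lit 4194305) (nat_lit 46977257807) (.one (nat_lit 1054398) .nil))),
   .two (nat_lit 8388623) (nat_lit 10452205685) (.two (nat_lit 620757000) (nat_lit 11517560063) (.two (nat_lit 16777217) (nat_lit 880808222) (.one (nat_lit 1410340507) .nil))),
   .two (nat_lit 654311439) (nat_lit 270533227) (.two (nat_lit 169869316) (nat_lit 9781118427) (.two (nat_lit 4194304) (nat_lit 4632613492) .nil)),
   .two (nat_lit 47555018776) (nat_lit 50331839) (.two (nat_lit 8388613) (nat_lit 16778716) (.two (nat_lit 8388608) (nat_lit 16781696) (.one (nat_lit 16783039) .nil))),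
   .two (nat_lit 12047089679) (nat_lit 12620660803) (.two (nat_lit 19596836872) (nat_lit 28089255156) (.two (nat_lit 156364701697) (nat_lit 4197255) (.two (nat_lit 1048576) (nat_lit 4198785) (.one (nat_lit 4200128) .nil)))),
   .two (nat_lit 1343225871) (nat_lit 19537068160) (.two (nat_lit 47582281741) (nat_lit 28093448815) (.two (nat_lit 2954887173) (nat_lit 8391247) (.two (nat_lit 9766436865) (nat_lit 746589039) (.two (nat_lit 2097152) (nat_lit 1053058) (.one (nat_lit 2102977) .nil))))),
   .two (nat_lit 183853121551) (nat_lit 1913651321) (.two (nat_lit 1753219080) (nat_lit 18925749526) (.two (nat_lit 156372041729) (nat_lit 1052187) (.two (nat_lit 1048576) (nat_lit 8393091) (.one (nat_lit 1053933) .nil)))),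
   .two (nat_lit 11479810063) (nat_lit 672137344) (.two (nat_lit 1175453704) (nat_lit 166132187730) (.two (nat_lit 10503585797) (nat_lit 37750056) (.two (nat_lit 37748737) (nat_lit 159224171360) (.two (nat_lit 4194304) (nat_lit 47588578534) .nil)))),
   .two (nat_lit 276824079) (nat_lit 13191086271) (.two (nat_lit 8388612) (nat_lit 3457157307) (.two (nat_lit 8388608) (nat_lit 11610885892) (.one (nat_lit 1054402) .nil))),
   .two (nat_lit 11559501839) (nat_lit 183946445061) (.two (nat_lit 21207449608) (nat_lit 159266112747) (.two (nat_lit 605028353) (nat_lit 16781111) (.one (nat_lit 318772417) .nil))),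
   .two (nat_lit 8388623) (nat_lit 2923430012) (.two (nat_lit 2969567240) (nat_lit 8388799) (.two (nat_lit 184549380) (nat_lit 11551114476) (.two (nat_lit 620756993) (nat_lit 1052188) (.two (nat_lit 1048576) (nat_lit 775950688) (.one (nat_lit 4200131) .nil))))),
   .two (nat_lit 620757007) (nat_lit 28764536949) (.two (nat_lit 12054429704) (nat_lit 13237224707) (.two (nat_lit 156367847425) (nat_lit 855640259) (.two (nat_lit 4194304) (nat_lit 11618225974) (.one (nat_lit 8394436) .nil)))),
   .two (nat_lit 2969567247) (nat_lit 270532972) (.two (nat_lit 203423749) (nat_lit 2902459599) (.two (nat_lit 2097153) (nat_lit 11626613520) (.two (nat_lit 2097152) (nat_lit 156548206317) (.one (nat_lit 203428593) .nil)))),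
   .two (nat_lit 169869327) (nat_lit 159224168556) (.two (nat_lit 159217877000) (nat_lit 156573368905) (.two (nat_lit 47555018757) (nat_lit 10437526751) (.two (nat_lit 2097153) (nat_lit 10510929724) (.one (nat_lit 8394437) .nil)))),
   .two (nat_lit 169869327) (nat_lit 10007609452) (.two (nat_lit 159217877000) (nat_lit 10510926409) (.two (nat_lit 158083317765) (nat_lit 10538190070) (.two (nat_lit 2097153) (nat_lit 8393061) (.one (nat_lit 1053942) .nil)))),
   .two (nat_lit 8388623) (nat_lit 13224640815) (.two (nat_lit 2969567240) (nat_lit 9772729569) (.two (nat_lit 41943041) (nat_lit 10439626258) (.two (nat_lit 8388608) (nat_lit 4199472) (.one (nat_lit 4200134) .nil)))),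
   .two (nat_lit 285212687) (nat_lit 12117344369) (.two (nat_lit 11479810056) (nat_lit 9781118427) (.two (nat_lit 4194304) (nat_lit 166245436572) (.one (nat_lit 9781122153) .nil))),
   .two (nat_lit 8388623) (nat_lit 169869560) (.two (nat_lit 9934209032) (nat_lit 21785215668) (.two (nat_lit 47548727301) (nat_lit 11551114526) (.two (nat_lit 2097153) (nat_lit 8392933) (.two (nat_lit 2097152) (nat_lit 8393777) (.one (nat_lit 2102950) .nil))))),
   .two (nat_lit 272629775) (nat_lit 183845781570) (.two (nat_lit 4613734408) (nat_lit 239075687) (.two (nat_lit 16777220) (nat_lit 337643332) (.two (nat_lit 4194305) (nat_lit 12618567177) (.two (nat_lit 1048576) (nat_lit 4198226) (.one (nat_lit 4199677) .nil))))),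
   .two (nat_lit 46407876623) (nat_lit 1920991362) (.two (nat_lit 3458203656) (nat_lit 19604177512) (.two (nat_lit 209715205) (nat_lit 9934210855) (.two (nat_lit 2097153) (nat_lit 612370634) (.two (nat_lit 1048576) (nat_lit 2102322) (.one (nat_lit 1054407) .nil))))),
   .two (nat_lit 11492392975) (nat_lit 185020186690) (.two (nat_lit 117440520) (nat_lit 185020187464) (.two (nat_lit 9781116929) (nat_lit 2920286383) (.two (nat_lit 16777216) (nat_lit 1052499) (.one (nat_lit 1053950) .nil)))),
   .two (nat_lit 16777231) (nat_lit 183946444866) (.two (nat_lit 276824072) (nat_lit 4647289476) (.two (nat_lit 8388612) (nat_lit 1050407) (.two (nat_lit 8388609) (nat_lit 10503588615) (.two (nat_lit 8388608) (nat_lit 1053065) (.one (nat_lit 16783048) .nil))))),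
   .two (nat_lit 754974735) (nat_lit 2349858930) (.two (nat_lit 158143086605) (nat_lit 654312018) (.two (nat_lit 159216828421) (nat_lit 1191183177) (.two (nat_lit 4194305) (nat_lit 1191183836) (.two (nat_lit 4194304) (nat_lit 822088062) (.one (nat_lit 16783049) .nil))))),
   .two (nat_lit 9934209039) (nat_lit 171967149) (.two (nat_lit 2097157) (nat_lit 156569174856) (.two (nat_lit 2097153) (nat_lit 156468513948) (.one (nat_lit 4199163) .nil))),
   .two (nat_lit 46414168079) (nat_lit 3527409774) (.two (nat_lit 4194312) (nat_lit 679478505) (.two (nat_lit 37748737) (nat_lit 4034922684) (.two (nat_lit 1048576) (nat_lit 4198795) (.one (nat_lit 4200138) .nil)))),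
   .two (nat_lit 184549391) (nat_lit 2357198979) (.two (nat_lit 612368392) (nat_lit 158192370942) (.two (nat_lit 8388609) (nat_lit 205523806) (.two (nat_lit 8388608) (nat_lit 4198796) (.one (nat_lit 4199684) .nil)))),
   .two (nat_lit 4613734415) (nat_lit 46980399218) (.two (nat_lit 68157448) (nat_lit 83886438) (.two (nat_lit 272629765) (nat_lit 13237224680) (.two (nat_lit 9768534017) (nat_lit 184986635137) (.two (nat_lit 1048576) (nat_lit 16781709) (.one (nat_lit 1053957) .nil))))),
   .two (nat_lit 3525312527) (nat_lit 1795162226) (.two (nat_lit 2887778312) (nat_lit 352322794) (.two (nat_lit 34603009) (nat_lit 3573550904) (.one (nat_lit 2102987) .nil))),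
   .two (nat_lit 158083317775) (nat_lit 158075978395) (.two (nat_lit 806354949) (nat_lit 20644365128) (.two (nat_lit 2097153) (nat_lit 11618225304) (.one (nat_lit 8393993) .nil))),
   .two (nat_lit 156372041743) (nat_lit 156984410407) (.two (nat_lit 9940500488) (nat_lit 3539992938) (.two (nat_lit 10506731525) (nat_lit 135267624) (.two (nat_lit 156367847425) (nat_lit 3539996155) (.two (nat_lit 1048576) (nat_lit 4199475) (.one (nat_lit 4199690) .nil))))),
   .two (nat_lit 184549391) (nat_lit 159224168515) (.two (nat_lit 10007609356) (nat_lit 185002361438) (.two (nat_lit 159224168453) (nat_lit 159266113412) (.two (nat_lit 612368385) (nat_lit 9982446351) (.two (nat_lit 8388608) (nat_lit 20719866209) (.one (nat_lit 16782497) .nil))))),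
   .two (nat_lit 9881780239) (nat_lit 9866052251) (.two (nat_lit 13187940357) (nat_lit 1291846472) (.two (nat_lit 2097153) (nat_lit 16781319) .nil)),
   .two (nat_lit 3458203663) (nat_lit 19599982712) (.two (nat_lit 1178599432) (nat_lit 9967764040) (.two (nat_lit 3525312517) (nat_lit 19029558526) (.two (nat_lit 612368385) (nat_lit 159251433642) (.two (nat_lit 2097152) (nat_lit 4199476) (.one (nat_lit 4199691) .nil))))),
   .two (nat_lit 713031695) (nat_lit 135266420) (.two (nat_lit 135266316) (nat_lit 13195280747) (.two (nat_lit 19596836869) (nat_lit 8389939) (.two (nat_lit 156364701697) (nat_lit 2994735964) (.two (nat_lit 2097152) (nat_lit 2920288608) (.one (nat_lit 1053965) .nil))))),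
   .two (nat_lit 28758245391) (nat_lit 772801095) (.two (nat_lit 28086108165) (nat_lit 166230754120) (.two (nat_lit 156364701697) (nat_lit 10940845208) (.one (nat_lit 2102013) .nil))),
   .two (nat_lit 4194319) (nat_lit 1325400181) (.two (nat_lit 272629768) (nat_lit 1947206238) (.two (nat_lit 169869316) (nat_lit 37313578892) (.two (nat_lit 37748737) (nat_lit 2418020170) (.one (nat_lit 2102988) .nil)))),
   .two (nat_lit 11543773199) (nat_lit 20711473283) (.two (nat_lit 21777874952) (nat_lit 2323645694) (.two (nat_lit 9781116929) (nat_lit 184416209104) (.two (nat_lit 1048576) (nat_lit 8393781) (.one (nat_lit 8394445) .nil)))),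
   .two (nat_lit 639631375) (nat_lit 13195281062) (.two (nat_lit 13187940357) (nat_lit 159224170684) (.two (nat_lit 4194304) (nat_lit 9765392172) (.one (nat_lit 2102549) .nil))),
   .two (nat_lit 37748751) (nat_lit 343933490) (.two (nat_lit 46414168068) (nat_lit 183947494661) (.two (nat_lit 2097153) (nat_lit 10338961610) (.two (nat_lit 16777216) (nat_lit 19128127268) (.one (nat_lit 2102557) .nil)))),
   .two (nat_lit 9948889103) (nat_lit 10907287664) (.two (nat_lit 9948889096) (nat_lit 12048138923) (.two (nat_lit 4599054341) (nat_lit 21793605839) (.two (nat_lit 1048576) (nat_lit 1291848859) (.one (nat_lit 16782622) .nil)))),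
   .two (nat_lit 11543773199) (nat_lit 1749025390) (.two (nat_lit 739246085) (nat_lit 28693234907) (.two (nat_lit 612368385) (nat_lit 19127078716) (.one (nat_lit 1053986) .nil))),
   .two (nat_lit 654311439) (nat_lit 174686470256) (.two (nat_lit 654311432) (nat_lit 184417256107) (.two (nat_lit 4599054341) (nat_lit 37329307823) (.two (nat_lit 1048576) (nat_lit 10385099931) (.one (nat_lit 16782627) .nil)))),
   .two (nat_lit 9934209039) (nat_lit 19029557363) (.two (nat_lit 705691656) (nat_lit 306186422) (.two (nat_lit 1048576) (nat_lit 46477087457) .nil)),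
   .two (nat_lit 159217877007) (nat_lit 11479810167) (.two (nat_lit 2954887176) (nat_lit 3527411896) (.two (nat_lit 1048576) (nat_lit 2887782198) (.one (nat_lit 4199717) .nil))),
   .two (nat_lit 47548727311) (nat_lit 9781117043) (.two (nat_lit 2954887176) (nat_lit 156581758227) (.two (nat_lit 9781116929) (nat_lit 270535530) (.two (nat_lit 2097152) (nat_lit 12163486994) .nil))),
   .two (nat_lit 9781116943) (nat_lit 46510637323) (.two (nat_lit 10370416653) (nat_lit 19109249640) (.two (nat_lit 218103813) (nat_lit 780141839) (.two (nat_lit 2097153) (nat_lit 159219978037) (.one (nat_lit 4200143) .nil)))),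
   .two (nat_lit 1753219087) (nat_lit 156465365104) (.two (nat_lit 1753219080) (nat_lit 11543773854) (.two (nat_lit 11543773189) (nat_lit 880806069) (.two (nat_lit 1048576) (nat_lit 780145377) .nil))),
   .two (nat_lit 4601151503) (nat_lit 75497591) (.two (nat_lit 156372041736) (nat_lit 158079124705) (.two (nat_lit 8388609) (nat_lit 1052993) (.one (nat_lit 4200144) .nil))),
   .two (nat_lit 16777231) (nat_lit 1916797042) (.two (nat_lit 4613734408) (nat_lit 166132187719) (.two (nat_lit 10506731525) (nat_lit 3573548286) (.two (nat_lit 16777217) (nat_lit 742394718) (.two (nat_lit 1048576) (nat_lit 171971264) .nil)))),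
   .two (nat_lit 809500687) (nat_lit 183853121601) (.two (nat_lit 13191086088) (nat_lit 174759870824) (.two (nat_lit 4194308) (nat_lit 8390570) (.two (nat_lit 4194305) (nat_lit 8392223) (.two (nat_lit 4194304) (nat_lit 8393782) (.one (nat_lit 339744429) .nil))))),
   .two (nat_lit 285212687) (nat_lit 156569174128) (.two (nat_lit 285212680) (nat_lit 11010049247) (.two (nat_lit 606076929) (nat_lit 306188606) (.one (nat_lit 4200145) .nil))),
   .two (nat_lit 8388623) (nat_lit 11476664679) (.two (nat_lit 8388612) (nat_lit 34604267) (.two (nat_lit 41943041) (nat_lit 68160300) (.two (nat_lit 8388608) (nat_lit 16781724) (.one (nat_lit 16783058) .nil)))),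
   .two (nat_lit 1291845647) (nat_lit 1276117102) (.two (nat_lit 21777874952) (nat_lit 9940501102) (.two (nat_lit 11543773189) (nat_lit 1317012778) (.two (nat_lit 34603009) (nat_lit 713034586) (.two (nat_lit 1048576) (nat_lit 8393117) (.one (nat_lit 1054419) .nil))))),
   .two (nat_lit 639631375) (nat_lit 18933088372) (.two (nat_lit 739246093) (nat_lit 1753219650) (.two (nat_lit 34603013) (nat_lit 880806057) (.two (nat_lit 1048576) (nat_lit 8391857) (.one (nat_lit 8394452) .nil)))),
   .two (nat_lit 809500687) (nat_lit 46984594672) (.two (nat_lit 4194305) (nat_lit 10913583801) .nil),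
   .two (nat_lit 11559501839) (nat_lit 2416967795) (.two (nat_lit 1846542344) (nat_lit 9982444362) (.two (nat_lit 9768534017) (nat_lit 1913655029) (.one (nat_lit 1054421) .nil))),
   .two (nat_lit 2954887183) (nat_lit 654311536) (.two (nat_lit 10385096712) (nat_lit 3558868444) (.two (nat_lit 16777216) (nat_lit 159251435319) (.one (nat_lit 2102570) .nil))),
   .two (nat_lit 9866051599) (nat_lit 156466413869) (.two (nat_lit 1276117000) (nat_lit 20738736485) (.two (nat_lit 9933160453) (nat_lit 2099115) (.two (nat_lit 156367847425) (nat_lit 47582284582) (.two (nat_lit 1048576) (nat_lit 2102327) (.one (nat_lit 4200150) .nil))))),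
   .two (nat_lit 276824079) (nat_lit 156468510838) (.two (nat_lit 13191086088) (nat_lit 18933088865) (.two (nat_lit 8388612) (nat_lit 47550825760) (.two (nat_lit 41943041) (nat_lit 171969306) (.two (nat_lit 8388608) (nat_lit 1053087) (.one (nat_lit 8394455) .nil))))),
   .two (nat_lit 37748751) (nat_lit 269484149) (.two (nat_lit 10506731528) (nat_lit 10335814246) (.two (nat_lit 3458203653) (nat_lit 159250384177) (.two (nat_lit 606076929) (nat_lit 12150900938) (.two (nat_lit 2097152) (nat_lit 4198816) (.one (nat_lit 1377833661) .nil))))),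
   .two (nat_lit 37748751) (nat_lit 16777786) (.two (nat_lit 117440517) (nat_lit 156365751517) (.two (nat_lit 2097153) (nat_lit 3024096008) (.two (nat_lit 2097152) (nat_lit 4199480) (.one (nat_lit 2103000) .nil)))),
   .two (nat_lit 285212687) (nat_lit 166132187248) (.two (nat_lit 9768534024) (nat_lit 9781118427) (.two (nat_lit 4194304) (nat_lit 16782549) .nil)),
   .two (nat_lit 654311439) (nat_lit 10940842565) (.two (nat_lit 169869316) (nat_lit 9781118427) (.two (nat_lit 2097152) (nat_lit 20753419422) (.one (nat_lit 337647276) .nil))),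
   .two (nat_lit 157036838927) (nat_lit 1426063494) (.two (nat_lit 20637024264) (nat_lit 46523221238) (.two (nat_lit 2097153) (nat_lit 10016000814) (.two (nat_lit 4194304) (nat_lit 2418020672) (.one (nat_lit 2102573) .nil)))),
   .two (nat_lit 9768534031) (nat_lit 11593057566) (.two (nat_lit 16777217) (nat_lit 158079126305) (.two (nat_lit 4194304) (nat_lit 16781729) (.one (nat_lit 4200153) .nil))),
   .two (nat_lit 4605345807) (nat_lit 739246211) (.two (nat_lit 4605345800) (nat_lit 18928894633) (.two (nat_lit 2889875461) (nat_lit 184416208118) (.two (nat_lit 41943041) (nat_lit 10540289172) (.one (nat_lit 4199727) .nil)))),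
   .two (nat_lit 4194319) (nat_lit 20644365525) (.two (nat_lit 34603009) (nat_lit 3464497929) (.two (nat_lit 1048576) (nat_lit 4198819) (.one (nat_lit 4199732) .nil))),
   .two (nat_lit 4194319) (nat_lit 47548727429) (.two (nat_lit 37748744) (nat_lit 813695599) (.two (nat_lit 159217876997) (nat_lit 46510638312) (.two (nat_lit 9766436865) (nat_lit 11484007217) (.two (nat_lit 2097152) (nat_lit 183953788665) (.one (nat_lit 8394458) .nil))))),
   .two (nat_lit 272629775) (nat_lit 185027526782) (.two (nat_lit 272629768) (nat_lit 880804412) (.two (nat_lit 11479810052) (nat_lit 8391248) (.two (nat_lit 4194305) (nat_lit 8392224) (.two (nat_lit 4194304) (nat_lit 8393786) (.one (nat_lit 2889880176) .nil))))),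
   .two (nat_lit 169869327) (nat_lit 11513364604) (.two (nat_lit 205520904) (nat_lit 158177690214) (.two (nat_lit 721420292) (nat_lit 606077769) (.two (nat_lit 34603009) (nat_lit 4198630) (.two (nat_lit 16777216) (nat_lit 1053755) (.one (nat_lit 16783067) .nil))))),
   .two (nat_lit 16777231) (nat_lit 13187940712) (.two (nat_lit 8388613) (nat_lit 1343228120) (.two (nat_lit 8388608) (nat_lit 1410338580) (.one (nat_lit 16783068) .nil))),
   .two (nat_lit 176160783) (nat_lit 3458203766) (.two (nat_lit 169869320) (nat_lit 11618222438) (.two (nat_lit 47555018757) (nat_lit 10370418549) (.two (nat_lit 156372041729) (nat_lit 11477717346) (.one (nat_lit 1054429) .nil)))),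
   .two (nat_lit 156372041743) (nat_lit 10336862399) (.two (nat_lit 169869316) (nat_lit 9940501732) (.two (nat_lit 8388609) (nat_lit 9799994114) (.two (nat_lit 8388608) (nat_lit 159266116807) .nil))),
   .two (nat_lit 20644364303) (nat_lit 9967763574) (.two (nat_lit 20644364296) (nat_lit 1426063969) (.two (nat_lit 159224168453) (nat_lit 11593059191) (.two (nat_lit 2097152) (nat_lit 9806286655) (.one (nat_lit 8394042) .nil)))),
   .two (nat_lit 176160783) (nat_lit 158179786883) (.two (nat_lit 46414168072) (nat_lit 13224640703) (.two (nat_lit 46414168068) (nat_lit 4196268) (.two (nat_lit 156372041729) (nat_lit 3560968545) (.one (nat_lit 11513369761) .nil)))),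
   .two (nat_lit 9940500495) (nat_lit 28791800414) (.two (nat_lit 176160772) (nat_lit 12048139510) (.two (nat_lit 8388609) (nat_lit 2921334986) (.two (nat_lit 8388608) (nat_lit 2101672) (.one (nat_lit 2103006) .nil)))),
   .two (nat_lit 4601151503) (nat_lit 9933160579) (.two (nat_lit 13191086088) (nat_lit 158075978387) (.two (nat_lit 4194308) (nat_lit 1209010082) (.two (nat_lit 8388609) (nat_lit 10338961597) (.two (nat_lit 8388608) (nat_lit 2886734176) (.one (nat_lit 1054011) .nil))))),
   .two (nat_lit 176160783) (nat_lit 10940842218) (.two (nat_lit 612368392) (nat_lit 9799991899) (.two (nat_lit 34603013) (nat_lit 4638902462) (.two (nat_lit 2097152) (nat_lit 202378388) (.one (nat_lit 1054012) .nil)))),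
   .two (nat_lit 169869327) (nat_lit 1216349481) (.two (nat_lit 605028353) (nat_lit 184417259299) (.one (nat_lit 1054013) .nil)),
   .two (nat_lit 272629775) (nat_lit 1753219186) (.two (nat_lit 37748744) (nat_lit 2927625450) (.two (nat_lit 4194305) (nat_lit 184423549790) (.two (nat_lit 2097152) (nat_lit 46514836160) .nil))),
   .two (nat_lit 169869327) (nat_lit 183962174697) (.two (nat_lit 605028353) (nat_lit 3525314744) (.two (nat_lit 2097152) (nat_lit 1053100) (.one (nat_lit 2103007) .nil))),
   .two (nat_lit 117440527) (nat_lit 12617515118) (.two (nat_lit 705691656) (nat_lit 183962174697) (.two (nat_lit 34603009) (nat_lit 12129930054) (.two (nat_lit 2097152) (nat_lit 1053100) (.one (nat_lit 1054432) .nil)))),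
   .two (nat_lit 654311439) (nat_lit 4028629057) (.two (nat_lit 169869320) (nat_lit 3573548302) (.two (nat_lit 606076929) (nat_lit 4631563438) (.one (nat_lit 2103009) .nil))),
   .two (nat_lit 16777231) (nat_lit 1417674864) (.two (nat_lit 612368392) (nat_lit 11626611945) (.two (nat_lit 8388609) (nat_lit 16781111) (.one (nat_lit 16783074) .nil))),
   .two (nat_lit 285212687) (nat_lit 104857723) (.two (nat_lit 4194312) (nat_lit 19109250342) (.two (nat_lit 37748737) (nat_lit 46507495741) (.one (nat_lit 1054435) .nil))),
   .two (nat_lit 20638072847) (nat_lit 13191086380) (.two (nat_lit 272629768) (nat_lit 16777811) (.two (nat_lit 4194308) (nat_lit 855639340) (.two (nat_lit 16777217) (nat_lit 157036842826) (.one (nat_lit 2103012) .nil)))),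
   .two (nat_lit 272629775) (nat_lit 183913939575) (.two (nat_lit 4194308) (nat_lit 3021996874) (.two (nat_lit 4194305) (nat_lit 2954890394) (.one (nat_lit 3558871664) .nil))),
   .two (nat_lit 12047089679) (nat_lit 13188989045) (.two (nat_lit 10940841992) (nat_lit 21811431317) (.two (nat_lit 34603009) (nat_lit 203427651) (.one (nat_lit 1053866) .nil)))]

theorem k4 : chkL tab c4 (nat_lit 5200) = true := by decide +kernel

theorem l4 : c4.length = 1300 := by decide +kernel

end K2

end Pool.Agent.Work.MP_bf01b2_co.MR
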