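import Pool.Agent.Work.MP_bf01b2_co.MR.K2T

/-!
# Two roots in `Q_5`: certificates of the entries 6500 to 7799
-/

set_option autoImplicit false
set_option maxRecDepth 100000

namespace Pool.Agent.Work.MP_bf01b2_co.MR

namespace K2

open JT

/-- certificates of the entries 6500 to 7799 -/
def c5 : List Rc :=
  [.two (nat_lit 809500687) (nat_lit 9806284073) (.two (nat_lit 4194305) (nat_lit 8393441) .nil),
   .two (nat_lit 203423759) (nat_lit 166132187375) (.two (nat_lit 639631368) (nat_lit 10338960611) (.two (nat_lit 2097153) (nat_lit 174688569537) (.two (nat_lit 16777216) (nat_lit 166132191008) (.one (nat_lit 2102598) .nil)))),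
   .two (nat_lit 612368399) (nat_lit 47548727430) (.two (nat_lit 13203669000) (nat_lit 10007610843) (.two (nat_lit 16777216) (nat_lit 1216351969) (.one (nat_lit 2103013) .nil))),
   .two (nat_lit 620757007) (nat_lit 2994733666) (.two (nat_lit 8388612) (nat_lit 50332889) (.two (nat_lit 41943041) (nat_lit 10552871726) (.two (nat_lit 1048576) (nat_lit 16781672) (.one (nat_lit 8394470) .nil)))),
   .two (nat_lit 16777231) (nat_lit 158083317826) (.two (nat_lit 158083317768) (nat_lit 10385097986) (.two (nat_lit 612368385) (nat_lit 156548204724) (.two (nat_lit 8388608) (nat_lit 2969571129) (.one (nat_lit 16782663) .nil)))),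
   .two (nat_lit 713031695) (nat_lit 4601151554) (.two (nat_lit 880803853) (nat_lit 12050235755) (.two (nat_lit 41943045) (nat_lit 19096668072) (.two (nat_lit 612368385) (nat_lit 183949593433) (.two (nat_lit 8388608) (nat_lit 4198831) (.one (nat_lit 8394404) .nil))))),
   .two (nat_lit 47555018767) (nat_lit 12617515371) (.two (nat_lit 46414168068) (nat_lit 10939795298) (.two (nat_lit 2097153) (nat_lit 37313579182) (.two (nat_lit 2097152) (nat_lit 10906242836) (.one (nat_lit 8394471) .nil)))),
   .two (nat_lit 639631375) (nat_lit 159250383088) (.two (nat_lit 2887778312) (nat_lit 847250062) (.two (nat_lit 34603013) (nat_lit 11484005629) (.two (nat_lit 2097153) (nat_lit 209718076) (.two (nat_lit 2097152) (nat_lit 8393137) (.one (nat_lit 11477717711) .nil))))),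
   .two (nat_lit 4194319) (nat_lit 46523220034) (.two (nat_lit 272629768) (nat_lit 10351544230) (.two (nat_lit 37748737) (nat_lit 19042143100) (.two (nat_lit 4194304) (nat_lit 183861514588) (.one (nat_lit 16782665) .nil)))),
   .two (nat_lit 184549391) (nat_lit 4030726274) (.two (nat_lit 1350565896) (nat_lit 9881780822) (.two (nat_lit 285212677) (nat_lit 12620662006) (.two (nat_lit 37748737) (nat_lit 2902461280) (.two (nat_lit 1048576) (nat_lit 1279267209) (.one (nat_lit 4200168) .nil))))),
   .two (nat_lit 46409973775) (nat_lit 156969730566) (.two (nat_lit 174753579016) (nat_lit 2990539340) (.two (nat_lit 2097157) (nat_lit 46409975684) (.two (nat_lit 2097153) (nat_lit 3460303631) (.two (nat_lit 1048576) (nat_lit 2101569) (.one (nat_lit 1054441) .nil))))),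
   .two (nat_lit 1358954511) (nat_lit 739246214) (.two (nat_lit 4194312) (nat_lit 3573548293) (.two (nat_lit 605028353) (nat_lit 21814578008) (.two (nat_lit 8388608) (nat_lit 10338963806) (.one (nat_lit 1054442) .nil)))),
   .two (nat_lit 176160783) (nat_lit 2988441896) (.two (nat_lit 47555018760) (nat_lit 159251431615) (.two (nat_lit 169869316) (nat_lit 4638901542) (.two (nat_lit 8388609) (nat_lit 3558869889) (.two (nat_lit 8388608) (nat_lit 2101684) (.one (nat_lit 159251436267) .nil))))),
   .two (nat_lit 3460300815) (nat_lit 1310720112) (.two (nat_lit 184419352584) (nat_lit 11543773857) (.two (nat_lit 34603013) (nat_lit 174688568555) (.two (nat_lit 2097153) (nat_lit 46977257900) (.one (nat_lit 2102603) .nil)))),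
   .two (nat_lit 11559501839) (nat_lit 9899606081) (.two (nat_lit 822083592) (nat_lit 11614028411) (.two (nat_lit 9933160453) (nat_lit 721420753) (.two (nat_lit 4194307) (nat_lit 185002362101) (.two (nat_lit 9765388289) (nat_lit 10003417270) (.two (nat_lit 16777216) (nat_lit 4196764) (.one (nat_lit 4200175) .nil)))))),
   .two (nat_lit 272629771) (nat_lit 1411383429) (.two (nat_lit 19029557285) (nat_lit 165526110253) (.two (nat_lit 705691654) (nat_lit 20705181888) (.two (nat_lit 705691656) (nat_lit 156971827297) (.two (nat_lit 11479810050) (nat_lit 3458207410) (.two (nat_lit 34603013) (nat_lit 184989778390) (.two (nat_lit 34603009) (nat_lit 11477715163) (.two (nat_lit 1048576) (nat_lit 13188992185) (.one (nat_lit 2103024) .nil)))))))),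
   .two (nat_lit 46978301967) (nat_lit 2956984438) (.two (nat_lit 2889875464) (nat_lit 10504634559) (.two (nat_lit 272629765) (nat_lit 11517559624) (.two (nat_lit 4194305) (nat_lit 2100075) (.two (nat_lit 4194304) (nat_lit 2100449) (.one (nat_lit 2102644) .nil))))),
   .two (nat_lit 2961178635) (nat_lit 2990538885) (.two (nat_lit 176160783) (nat_lit 4194445) (.two (nat_lit 1862270986) (nat_lit 9768534207) (.two (nat_lit 8388616) (nat_lit 1212153951) (.two (nat_lit 50331653) (nat_lit 9768534856) (.two (nat_lit 50331649) (nat_lit 9768535515) (.two (nat_lit 16777216) (nat_lit 9768535658) (.one (nat_lit 8394101) .nil))))))),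
   .two (nat_lit 620757007) (nat_lit 1417674873) (.two (nat_lit 9766436872) (nat_lit 10015998143) (.two (nat_lit 41943045) (nat_lit 1291846878) (.two (nat_lit 9768534017) (nat_lit 16780814) (.two (nat_lit 4194304) (nat_lit 706744205) (.one (nat_lit 4199799) .nil))))),
   .two (nat_lit 16777227) (nat_lit 1210056837) (.two (nat_lit 21208498191) (nat_lit 16777555) (.two (nat_lit 46406828042) (nat_lit 136315468) (.two (nat_lit 18925748232) (nat_lit 28758245473) (.two (nat_lit 11476664322) (nat_lit 2887780224) (.two (nat_lit 10385096709) (nat_lit 1050685) (.two (nat_lit 34603009) (nat_lit 2100229) (.two (nat_lit 1048576) (nat_lit 2102081) (.one (nat_lit 16783443) .nil)))))))),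
   .two (nat_lit 2961178639) (nat_lit 11559501891) (.two (nat_lit 205520904) (nat_lit 158662132347) (.two (nat_lit 176160772) (nat_lit 1358954715) (.two (nat_lit 9933160453) (nat_lit 2961179471) (.two (nat_lit 4194305) (nat_lit 1417678048) (.two (nat_lit 4194304) (nat_lit 8393275) (.one (nat_lit 8394481) .nil)))))),
   .two (nat_lit 12047089679) (nat_lit 174753579129) (.two (nat_lit 157036838920) (nat_lit 166199296620) (.two (nat_lit 166129041410) (nat_lit 35652062) (.two (nat_lit 1343225861) (nat_lit 166132188485) (.two (nat_lit 156365750273) (nat_lit 1051660) (.two (nat_lit 2097152) (nat_lit 1052580) (.one (nat_lit 2102650) .nil)))))),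
   .two (nat_lit 4194319) (nat_lit 12148801606) (.two (nat_lit 4194319) (nat_lit 19027460117) (.two (nat_lit 4194312) (nat_lit 12115247199) (.two (nat_lit 705691650) (nat_lit 2099947) (.two (nat_lit 4601151493) (nat_lit 337641693) (.two (nat_lit 156367847425) (nat_lit 2099443) (.two (nat_lit 1048576) (nat_lit 2100453) (.one (nat_lit 1054076) .nil))))))),
   .two (nat_lit 1745879055) (nat_lit 2317353067) (.two (nat_lit 47563407368) (nat_lit 673186355) (.two (nat_lit 10370416645) (nat_lit 11559503129) (.two (nat_lit 34603009) (nat_lit 185035918082) (.two (nat_lit 1048576) (nat_lit 285215952) (.one (nat_lit 34607120) .nil))))),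
   .two (nat_lit 47548727311) (nat_lit 176160889) (.two (nat_lit 21785214988) (nat_lit 21777875528) (.two (nat_lit 10503585797) (nat_lit 3525314383) (.two (nat_lit 8388609) (nat_lit 47563410272) (.two (nat_lit 2097152) (nat_lit 16780523) (.one (nat_lit 2102657) .nil))))),
   .two (nat_lit 1343225871) (nat_lit 13228834939) (.two (nat_lit 1343225864) (nat_lit 46984594031) (.two (nat_lit 184549378) (nat_lit 10335815557) (.two (nat_lit 654311429) (nat_lit 11551114068) (.two (nat_lit 16777217) (nat_lit 1051492) (.two (nat_lit 16777216) (nat_lit 1052588) (.one (nat_lit 16782726) .nil)))))),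
   .two (nat_lit 12054429711) (nat_lit 21811429503) (.two (nat_lit 21777874952) (nat_lit 2424308342) (.two (nat_lit 705691650) (nat_lit 8392151) (.two (nat_lit 705691652) (nat_lit 2894070621) (.two (nat_lit 9781116929) (nat_lit 713036343) (.two (nat_lit 16777216) (nat_lit 713036343) (.one (nat_lit 16782731) .nil)))))),
   .two (nat_lit 612368399) (nat_lit 2317353203) (.two (nat_lit 612368392) (nat_lit 184417255625) (.two (nat_lit 612368392) (nat_lit 166230753375) (.two (nat_lit 176160773) (nat_lit 639632607) (.two (nat_lit 16777217) (nat_lit 2100073) (.two (nat_lit 16777216) (nat_lit 2100466) (.one (nat_lit 2103026) .nil)))))),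
   .two (nat_lit 2961178639) (nat_lit 11559501891) (.two (nat_lit 10369368072) (nat_lit 218104169) (.two (nat_lit 176160772) (nat_lit 1358954715) (.two (nat_lit 638582789) (nat_lit 11492393813) (.two (nat_lit 605028353) (nat_lit 3573549474) (.two (nat_lit 2097152) (nat_lit 8393275) (.one (nat_lit 8394483) .nil)))))),
   .two (nat_lit 21214789655) (nat_lit 69206150) (.two (nat_lit 165532401672) (nat_lit 21811431082) (.two (nat_lit 165526110213) (nat_lit 10947134438) (.two (nat_lit 165526110211) (nat_lit 10913579852) (.two (nat_lit 156365750273) (nat_lit 713034764) (.two (nat_lit 1048576) (nat_lit 8393280) (.one (nat_lit 8394484) .nil)))))),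
   .two (nat_lit 176160779) (nat_lit 11610882113) (.two (nat_lit 9940500495) (nat_lit 10000269650) (.two (nat_lit 169869318) (nat_lit 9906946408) (.two (nat_lit 606076936) (nat_lit 343933026) (.two (nat_lit 19530776581) (nat_lit 41944329) (.two (nat_lit 8388609) (nat_lit 1052339) (.two (nat_lit 8388608) (nat_lit 171971415) (.one (nat_lit 8393591) .nil))))))),
   .two (nat_lit 9768534031) (nat_lit 706740366) (.two (nat_lit 2889875473) (nat_lit 12115247178) (.two (nat_lit 205520904) (nat_lit 169869515) (.two (nat_lit 4599054343) (nat_lit 156569174207) (.two (nat_lit 2097157) (nat_lit 183949590747) (.two (nat_lit 2097155) (nat_lit 156569174491) (.two (nat_lit 605028353) (nat_lit 740297105) (.two (nat_lit 1048576) (nat_lit 4199514) (.one (nat_lit 4200181) .nil)))))))),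
   .two (nat_lit 2969567247) (nat_lit 2887778428) (.two (nat_lit 156533522444) (nat_lit 4194663) (.two (nat_lit 639631365) (nat_lit 46477084480) (.two (nat_lit 9766436865) (nat_lit 16780817) (.two (nat_lit 2097152) (nat_lit 16781652) (.one (nat_lit 16783094) .nil))))),
   .two (nat_lit 10015998019) (nat_lit 8388727) (.two (nat_lit 11492392975) (nat_lit 339739877) (.two (nat_lit 10372513797) (nat_lit 11559503323) (.two (nat_lit 612368385) (nat_lit 9881784941) (.one (nat_lit 8394518) .nil)))),
   .two (nat_lit 20737687617) (nat_lit 20738736194) (.two (nat_lit 159224168463) (nat_lit 1914700136) (.two (nat_lit 4194312) (nat_lit 11517560038) (.two (nat_lit 21777874949) (nat_lit 2353006764) (.two (nat_lit 4194305) (nat_lit 2101523) (.two (nat_lit 2097152) (nat_lit 4199045) (.one (nat_lit 843060993) .nil)))))),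
   .two (nat_lit 8388672) (nat_lit 1048817) (.two (nat_lit 2961178639) (nat_lit 159251432924) (.two (nat_lit 34603009) (nat_lit 35655395) (.two (nat_lit 1048576) (nat_lit 8393350) (.one (nat_lit 1054487) .nil)))),
   .two (nat_lit 11559501888) (nat_lit 10437525623) (.two (nat_lit 117440527) (nat_lit 13188989289) (.two (nat_lit 606076936) (nat_lit 11559503323) (.two (nat_lit 2097153) (nat_lit 158649552020) (.two (nat_lit 4194304) (nat_lit 9967768183) (.one (nat_lit 2103064) .nil))))),
   .two (nat_lit 8388672) (nat_lit 1358954563) (.two (nat_lit 9881780239) (nat_lit 8389865) (.two (nat_lit 1358954501) (nat_lit 8391833) (.two (nat_lit 16777216) (nat_lit 184423550986) (.one (nat_lit 8394490) .nil)))),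
   .two (nat_lit 11559501891) (nat_lit 46510637295) (.two (nat_lit 11479810063) (nat_lit 1358955995) (.two (nat_lit 37748737) (nat_lit 11559506566) (.one (nat_lit 4199843) .nil))),
   .two (nat_lit 10504634435) (nat_lit 310378615) (.two (nat_lit 28772925455) (nat_lit 19027460936) (.two (nat_lit 50331653) (nat_lit 184993973723) (.two (nat_lit 620756993) (nat_lit 9900658410) (.two (nat_lit 2097152) (nat_lit 16781959) (.one (nat_lit 2103065) .nil))))),
   .two (nat_lit 3028287555) (nat_lit 4194546) (.two (nat_lit 8388623) (nat_lit 28693234240) (.two (nat_lit 8388616) (nat_lit 1916797769) (.two (nat_lit 4194308) (nat_lit 10007610843) (.two (nat_lit 4194305) (nat_lit 1786776721) (.two (nat_lit 4194304) (nat_lit 8393352) (.one (nat_lit 8394522) .nil)))))),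
   .two (nat_lit 2969567296) (nat_lit 4194425) (.two (nat_lit 3460300815) (nat_lit 117440869) (.two (nat_lit 3539992584) (nat_lit 71304420) (.two (nat_lit 20637024260) (nat_lit 3525314735) (.two (nat_lit 605028353) (nat_lit 1379930743) (.one (nat_lit 1054491) .nil))))),
   .two (nat_lit 8388672) (nat_lit 46980399214) (.two (nat_lit 8388623) (nat_lit 3527410237) (.two (nat_lit 41943048) (nat_lit 3527410900) (.two (nat_lit 9934209029) (nat_lit 19033753773) (.two (nat_lit 41943041) (nat_lit 183848931048) (.two (nat_lit 2097152) (nat_lit 37753960) (.one (nat_lit 4200220) .nil)))))),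
   .two (nat_lit 4030726211) (nat_lit 713031795) (.two (nat_lit 41943055) (nat_lit 158146232681) (.two (nat_lit 276824072) (nat_lit 156569175248) (.two (nat_lit 8388612) (nat_lit 272632577) (.two (nat_lit 37748737) (nat_lit 2886732948) (.two (nat_lit 1048576) (nat_lit 8393354) (.one (nat_lit 8394525) .nil)))))),
   .two (nat_lit 3527409730) (nat_lit 158647451714) (.two (nat_lit 21208498191) (nat_lit 46477082815) (.two (nat_lit 174753579016) (nat_lit 10506733019) (.two (nat_lit 156365750273) (nat_lit 104861706) (.one (nat_lit 4200222) .nil)))),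
   .two (nat_lit 3028287555) (nat_lit 4194547) (.two (nat_lit 13191086095) (nat_lit 8388799) (.two (nat_lit 276824072) (nat_lit 4634707420) (.two (nat_lit 156364701697) (nat_lit 713036422) (.one (nat_lit 1054495) .nil)))),
   .two (nat_lit 8388672) (nat_lit 4601151679) (.two (nat_lit 713031688) (nat_lit 166232851680) (.two (nat_lit 713031684) (nat_lit 4197122) (.two (nat_lit 8388609) (nat_lit 1178603231) (.two (nat_lit 1048576) (nat_lit 4199051) (.one (nat_lit 1054496) .nil))))),
   .two (nat_lit 2954887235) (nat_lit 11517558903) (.two (nat_lit 203423759) (nat_lit 156573368905) (.two (nat_lit 705691656) (nat_lit 10007610843) (.two (nat_lit 2097153) (nat_lit 2886732948) (.two (nat_lit 1048576) (nat_lit 2101901) (.one (nat_lit 8394529) .nil))))),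
   .two (nat_lit 10007609411) (nat_lit 16777339) (.two (nat_lit 654311439) (nat_lit 8388799) (.two (nat_lit 713031688) (nat_lit 156380431588) (.two (nat_lit 11492392964) (nat_lit 8391425) (.two (nat_lit 16777217) (nat_lit 8392428) (.two (nat_lit 1048576) (nat_lit 8393359) (.one (nat_lit 839915621) .nil)))))),
   .two (nat_lit 1343225923) (nat_lit 28093448306) (.two (nat_lit 9866051599) (nat_lit 18933088839) (.two (nat_lit 9866051592) (nat_lit 8389866) (.two (nat_lit 1343225861) (nat_lit 11551116029) (.two (nat_lit 41943041) (nat_lit 168825455) (.one (nat_lit 1054499) .nil))))),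
   .two (nat_lit 2969567296) (nat_lit 4194428) (.two (nat_lit 13191086095) (nat_lit 10552869055) (.two (nat_lit 13191086088) (nat_lit 10921968865) (.two (nat_lit 4194308) (nat_lit 9948890587) (.two (nat_lit 37748737) (nat_lit 10921970833) (.two (nat_lit 4194304) (nat_lit 16781968) (.one (nat_lit 8394532) .nil)))))),
   .two (nat_lit 8388672) (nat_lit 754974785) (.two (nat_lit 176160783) (nat_lit 13203669352) (.two (nat_lit 754974728) (nat_lit 10007610576) (.two (nat_lit 721420293) (nat_lit 10007611559) (.two (nat_lit 16777217) (nat_lit 8393339) (.one (nat_lit 8394517) .nil))))),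
   .two (nat_lit 2969567296) (nat_lit 3525312579) (.two (nat_lit 46978301967) (nat_lit 654311615) (.two (nat_lit 46978301960) (nat_lit 654312923) (.two (nat_lit 2097153) (nat_lit 19109253130) (.one (nat_lit 2103077) .nil)))),
   .two (nat_lit 310378562) (nat_lit 2349858934) (.two (nat_lit 9768534031) (nat_lit 10335814474) (.two (nat_lit 2889875460) (nat_lit 9798944944) (.two (nat_lit 34603009) (nat_lit 4199028) (.one (nat_lit 4200230) .nil)))),
   .two (nat_lit 2988441666) (nat_lit 117440620) (.two (nat_lit 47548727311) (nat_lit 12163482857) (.two (nat_lit 169869316) (nat_lit 21827161241) (.two (nat_lit 16777216) (nat_lit 46474990210) (.one (nat_lit 2103079) .nil)))),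
   .two (nat_lit 8388672) (nat_lit 4194548) (.two (nat_lit 13191086095) (nat_lit 41943231) (.two (nat_lit 813694984) (nat_lit 13224641743) (.two (nat_lit 18928893957) (nat_lit 8391428) (.two (nat_lit 4194305) (nat_lit 8392980) (.two (nat_lit 2097152) (nat_lit 8393363) (.one (nat_lit 8394536) .nil)))))),
   .two (nat_lit 2969567296) (nat_lit 4194425) (.two (nat_lit 3460300815) (nat_lit 16777577) (.two (nat_lit 3460300808) (nat_lit 4647290087) (.two (nat_lit 21207449605) (nat_lit 28791802038) (.two (nat_lit 9765388289) (nat_lit 158177694332) (.one (nat_lit 1054505) .nil))))),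
   .two (nat_lit 2902458434) (nat_lit 306184307) (.two (nat_lit 46409973775) (nat_lit 16777810) (.two (nat_lit 46409973768) (nat_lit 2902459209) (.two (nat_lit 19532873733) (nat_lit 9881782454) (.two (nat_lit 4194305) (nat_lit 159266114713) (.two (nat_lit 4194304) (nat_lit 16781972) (.one (nat_lit 37754617) .nil)))))),
   .two (nat_lit 47582281794) (nat_lit 4194549) (.two (nat_lit 37748751) (nat_lit 343933119) (.two (nat_lit 9766436872) (nat_lit 10372515038) (.two (nat_lit 4601151493) (nat_lit 69208240) (.two (nat_lit 2097153) (nat_lit 339742434) (.two (nat_lit 2097152) (nat_lit 8393365) (.one (nat_lit 706745759) .nil)))))),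
   .two (nat_lit 13195280451) (nat_lit 28693233779) (.two (nat_lit 11479810063) (nat_lit 18933089096) (.two (nat_lit 809500677) (nat_lit 1317014678) (.two (nat_lit 4194304) (nat_lit 8392716) (.one (nat_lit 159224173981) .nil)))),
   .two (nat_lit 8388672) (nat_lit 19029557367) (.two (nat_lit 1779433487) (nat_lit 20740833865) (.two (nat_lit 8388616) (nat_lit 3560964938) (.two (nat_lit 8388612) (nat_lit 13224642011) (.two (nat_lit 8388609) (nat_lit 876612755) (.two (nat_lit 1048576) (nat_lit 713036422) (.one (nat_lit 1054506) .nil)))))),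
   .two (nat_lit 1343225923) (nat_lit 165528207720) (.two (nat_lit 276824072) (nat_lit 156569175247) (.two (nat_lit 101711877) (nat_lit 166199298227) (.two (nat_lit 8388609) (nat_lit 9802092262) (.two (nat_lit 8388608) (nat_lit 11006906998) (.one (nat_lit 34608938) .nil))))),
   .two (nat_lit 46477082690) (nat_lit 16777462) (.two (nat_lit 185002360847) (nat_lit 46477082981) (.two (nat_lit 21208498184) (nat_lit 1309672264) (.two (nat_lit 20638072836) (nat_lit 739248303) (.two (nat_lit 606076929) (nat_lit 1052398) (.two (nat_lit 2097152) (nat_lit 1053334) (.one (nat_lit 1054508) .nil)))))),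
   .two (nat_lit 12147753027) (nat_lit 21812478064) (.two (nat_lit 10506731535) (nat_lit 2954887359) (.two (nat_lit 2887778312) (nat_lit 156569175247) (.two (nat_lit 19599982597) (nat_lit 1050807) (.two (nat_lit 34603009) (nat_lit 2100975) (.two (nat_lit 1048576) (nat_lit 203428499) (.one (nat_lit 1054509) .nil)))))),
   .two (nat_lit 8388672) (nat_lit 4601151679) (.two (nat_lit 713031688) (nat_lit 166232851680) (.two (nat_lit 1276116996) (nat_lit 4197126) (.two (nat_lit 8388609) (nat_lit 1178603231) (.two (nat_lit 1048576) (nat_lit 4199051) (.one (nat_lit 34608928) .nil))))),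
   .two (nat_lit 16777280) (nat_lit 3558867062) (.two (nat_lit 16777231) (nat_lit 3024094432) (.two (nat_lit 16777220) (nat_lit 185023334579) (.two (nat_lit 2097153) (nat_lit 37329308820) (.two (nat_lit 16777216) (nat_lit 2101911) (.one (nat_lit 2103086) .nil))))),
   .two (nat_lit 272629824) (nat_lit 847249599) (.two (nat_lit 2889875464) (nat_lit 158183982304) (.two (nat_lit 10940841989) (nat_lit 4196533) (.two (nat_lit 37748737) (nat_lit 612372191) (.two (nat_lit 2097152) (nat_lit 276828811) (.one (nat_lit 2103087) .nil))))),
   .two (nat_lit 272629824) (nat_lit 1048701) (.two (nat_lit 1913651215) (nat_lit 809500863) (.two (nat_lit 742391816) (nat_lit 739247337) (.two (nat_lit 169869316) (nat_lit 1051400) (.two (nat_lit 2097153) (nat_lit 1052950) (.two (nat_lit 2097152) (nat_lit 1053803) (.one (nat_lit 2103088) .nil)))))),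
   .two (nat_lit 4647288899) (nat_lit 46980399217) (.two (nat_lit 46409973775) (nat_lit 3472884071) (.two (nat_lit 46409973768) (nat_lit 2902459209) (.two (nat_lit 4601151493) (nat_lit 9948891319) (.two (nat_lit 4194305) (nat_lit 16780443) (.two (nat_lit 4194304) (nat_lit 16781972) (.one (nat_lit 16783153) .nil)))))),
   .two (nat_lit 8388672) (nat_lit 158079123580) (.two (nat_lit 41943055) (nat_lit 641729156) (.two (nat_lit 809500680) (nat_lit 11517560039) (.two (nat_lit 4194308) (nat_lit 159257725123) (.two (nat_lit 620756993) (nat_lit 9969865414) (.one (nat_lit 11525953283) .nil))))),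
   .two (nat_lit 8388672) (nat_lit 285212736) (.two (nat_lit 285212687) (nat_lit 3028288725) (.two (nat_lit 16777220) (nat_lit 343936141) (.two (nat_lit 16777216) (nat_lit 4034924554) (.one (nat_lit 13203674980) .nil)))),
   .two (nat_lit 272629824) (nat_lit 19604177019) (.two (nat_lit 713031695) (nat_lit 135266939) (.two (nat_lit 4194312) (nat_lit 176162062) (.two (nat_lit 13195280389) (nat_lit 806357165) (.two (nat_lit 4194305) (nat_lit 713035487) (.two (nat_lit 1048576) (nat_lit 9969865414) (.one (nat_lit 8394685) .nil)))))),
   .two (nat_lit 2954887232) (nat_lit 46414168174) (.two (nat_lit 75497487) (nat_lit 46406828688) (.two (nat_lit 169869320) (nat_lit 343934164) (.two (nat_lit 169869316) (nat_lit 9940502720) (.two (nat_lit 2097153) (nat_lit 75501279) (.two (nat_lit 1048576) (nat_lit 840962758) (.one (nat_lit 8394686) .nil)))))),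
   .two (nat_lit 11479810115) (nat_lit 3464495218) (.two (nat_lit 272629775) (nat_lit 3464495685) (.two (nat_lit 272629768) (nat_lit 847251667) (.two (nat_lit 4194305) (nat_lit 156372044961) (.two (nat_lit 4194304) (nat_lit 8393433) (.one (nat_lit 8394548) .nil))))),
   .two (nat_lit 11559501888) (nat_lit 156367847543) (.two (nat_lit 1178599439) (nat_lit 185035915455) (.two (nat_lit 11559501832) (nat_lit 876610378) (.two (nat_lit 11492392964) (nat_lit 1916798427) (.two (nat_lit 37748737) (nat_lit 185027530533) (.two (nat_lit 2097152) (nat_lit 19599987417) (.one (nat_lit 4200383) .nil)))))),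
   .two (nat_lit 3525312578) (nat_lit 12633243779) (.two (nat_lit 285212687) (nat_lit 4638900847) (.two (nat_lit 285212680) (nat_lit 2927625462) (.two (nat_lit 8388612) (nat_lit 9781118427) (.two (nat_lit 8388609) (nat_lit 183846834848) (.one (nat_lit 109057443) .nil))))),
   .two (nat_lit 2969567296) (nat_lit 236978242) (.two (nat_lit 1191182351) (nat_lit 1175454396) (.two (nat_lit 754974728) (nat_lit 165525062894) (.two (nat_lit 4599054341) (nat_lit 2969569447) (.two (nat_lit 2097153) (nat_lit 10519318267) (.two (nat_lit 1048576) (nat_lit 19094573690) (.one (nat_lit 16783296) .nil)))))),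
   .two (nat_lit 285212736) (nat_lit 20638072944) (.two (nat_lit 620757007) (nat_lit 20638073418) (.two (nat_lit 169869320) (nat_lit 4647290095) (.two (nat_lit 2097157) (nat_lit 4647291731) (.two (nat_lit 2097153) (nat_lit 13191089986) (.two (nat_lit 1048576) (nat_lit 18926801556) (.one (nat_lit 16783297) .nil)))))),
   .two (nat_lit 47563407425) (nat_lit 3525312578) (.two (nat_lit 2887778319) (nat_lit 285212863) (.two (nat_lit 3460300808) (nat_lit 157036840411) (.two (nat_lit 4194305) (nat_lit 47581237254) (.one (nat_lit 1054130) .nil)))),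
   .two (nat_lit 8388672) (nat_lit 183845781628) (.two (nat_lit 41943055) (nat_lit 12617516097) (.two (nat_lit 1350565896) (nat_lit 156465365832) (.two (nat_lit 8388612) (nat_lit 2316307296) (.two (nat_lit 4194305) (nat_lit 9899609262) (.two (nat_lit 1048576) (nat_lit 8393902) (.one (nat_lit 4200386) .nil)))))),
   .two (nat_lit 1753219139) (nat_lit 876609657) (.two (nat_lit 28757196815) (nat_lit 174688568611) (.two (nat_lit 184989777925) (nat_lit 21214791875) (.two (nat_lit 606076929) (nat_lit 4027584269) (.two (nat_lit 2097152) (nat_lit 1053402) (.one (nat_lit 1054659) .nil))))),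
   .two (nat_lit 11551113282) (nat_lit 166196150380) (.two (nat_lit 9768534031) (nat_lit 8389221) (.two (nat_lit 205520904) (nat_lit 612369654) (.two (nat_lit 171966469) (nat_lit 343934427) (.two (nat_lit 4194305) (nat_lit 2894072978) (.two (nat_lit 1048576) (nat_lit 673190518) (.one (nat_lit 1054660) .nil)))))),
   .two (nat_lit 16777280) (nat_lit 166132187248) (.two (nat_lit 16777231) (nat_lit 28693234900) (.two (nat_lit 16777220) (nat_lit 19532876941) (.two (nat_lit 4194304) (nat_lit 218108546) (.one (nat_lit 4200327) .nil)))),
   .two (nat_lit 4605345858) (nat_lit 28693233731) (.two (nat_lit 12117344271) (nat_lit 46414169564) (.two (nat_lit 37748737) (nat_lit 8392712) (.one (nat_lit 37754726) .nil))),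
   .two (nat_lit 16777280) (nat_lit 605028466) (.two (nat_lit 184549391) (nat_lit 10942939757) (.two (nat_lit 205520904) (nat_lit 9934209866) (.two (nat_lit 2097157) (nat_lit 2969570063) (.two (nat_lit 2097153) (nat_lit 47581237003) (.two (nat_lit 1048576) (nat_lit 2102447) (.one (nat_lit 839915417) .nil)))))),
   .two (nat_lit 159224168515) (nat_lit 156533522540) (.two (nat_lit 639631375) (nat_lit 165532402504) (.two (nat_lit 2887778308) (nat_lit 2927627414) (.two (nat_lit 2097152) (nat_lit 19100865410) .nil))),
   .two (nat_lit 2887778369) (nat_lit 156367847781) (.two (nat_lit 276824072) (nat_lit 158077028523) (.two (nat_lit 8388609) (nat_lit 605032461) (.one (nat_lit 16783301) .nil))),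
   .two (nat_lit 4194369) (nat_lit 19033751682) (.two (nat_lit 4194319) (nat_lit 156539814519) (.two (nat_lit 4194312) (nat_lit 9940501753) (.two (nat_lit 4194308) (nat_lit 9940502700) (.two (nat_lit 37748737) (nat_lit 11544825632) (.two (nat_lit 2097152) (nat_lit 183916040835) (.one (nat_lit 2103238) .nil)))))),
   .two (nat_lit 11559501888) (nat_lit 135266661) (.two (nat_lit 754974728) (nat_lit 165525062894) (.two (nat_lit 184986632197) (nat_lit 11559504039) (.two (nat_lit 34603009) (nat_lit 352326264) (.one (nat_lit 10000275554) .nil)))),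
   .two (nat_lit 343932993) (nat_lit 158646403185) (.two (nat_lit 41943055) (nat_lit 37313577801) (.two (nat_lit 8388612) (nat_lit 28690090198) (.two (nat_lit 41943041) (nat_lit 20704136335) (.two (nat_lit 1048576) (nat_lit 166203495070) (.one (nat_lit 2416973217) .nil))))),
   .two (nat_lit 46477082690) (nat_lit 37314625655) (.two (nat_lit 813694991) (nat_lit 3527411163) (.two (nat_lit 2097153) (nat_lit 276828787) (.one (nat_lit 156468516697) .nil))),
   .two (nat_lit 285212739) (nat_lit 19599982700) (.two (nat_lit 18928893967) (nat_lit 620757353) (.two (nat_lit 18928893960) (nat_lit 185035916531) (.two (nat_lit 184419352581) (nat_lit 21827160257) (.two (nat_lit 37748737) (nat_lit 185035919113) (.two (nat_lit 4194304) (nat_lit 16782512) (.one (nat_lit 16783304) .nil)))))),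
   .two (nat_lit 306184257) (nat_lit 16777521) (.two (nat_lit 285212687) (nat_lit 4601151679) (.two (nat_lit 4194312) (nat_lit 889193705) (.two (nat_lit 272629765) (nat_lit 16780154) (.two (nat_lit 9768534017) (nat_lit 174752533651) (.two (nat_lit 1048576) (nat_lit 4199131) (.one (nat_lit 1054665) .nil)))))),
   .two (nat_lit 12114198594) (nat_lit 10385096818) (.two (nat_lit 117440527) (nat_lit 1209009420) (.two (nat_lit 11476664324) (nat_lit 721423526) (.two (nat_lit 1048576) (nat_lit 19142808281) (.one (nat_lit 19127080834) .nil)))),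
   .two (nat_lit 2954887232) (nat_lit 11479810167) (.two (nat_lit 2887778319) (nat_lit 12117344837) (.two (nat_lit 11476664328) (nat_lit 183916038043) (.two (nat_lit 806354949) (nat_lit 20707281761) (.two (nat_lit 34603009) (nat_lit 2101595) (.two (nat_lit 1048576) (nat_lit 4199601) (.one (nat_lit 1054667) .nil)))))),
   .two (nat_lit 4601151554) (nat_lit 20644364645) (.two (nat_lit 20644364296) (nat_lit 4196257) (.two (nat_lit 10343153669) (nat_lit 4197243) (.two (nat_lit 4194305) (nat_lit 8393052) (.two (nat_lit 4194304) (nat_lit 157043135169) (.one (nat_lit 4200397) .nil))))),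
   .two (nat_lit 1916796995) (nat_lit 28806479991) (.two (nat_lit 13203669007) (nat_lit 156971828040) (.two (nat_lit 46407876612) (nat_lit 9802091690) (.two (nat_lit 2097152) (nat_lit 4601156291) (.one (nat_lit 16783310) .nil)))),
   .two (nat_lit 46414168130) (nat_lit 19142803575) (.two (nat_lit 620757007) (nat_lit 176161378) (.two (nat_lit 46414168072) (nat_lit 10552870149) (.two (nat_lit 4605345797) (nat_lit 20753418448) (.two (nat_lit 156364701697) (nat_lit 1350570712) (.one (nat_lit 1343231803) .nil))))),
   .two (nat_lit 2954887232) (nat_lit 11479810167) (.two (nat_lit 2954887183) (nat_lit 9969861205) (.two (nat_lit 2954887176) (nat_lit 13191087365) (.two (nat_lit 639631365) (nat_lit 13191088942) (.two (nat_lit 9768534017) (nat_lit 46507495745) (.two (nat_lit 1048576) (nat_lit 639636151) (.one (nat_lit 9900660550) .nil)))))),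
   .two (nat_lit 28093448259) (nat_lit 2921332849) (.two (nat_lit 285212687) (nat_lit 158183981691) (.two (nat_lit 285212680) (nat_lit 1753219913) (.two (nat_lit 2887778308) (nat_lit 9781118427) (.two (nat_lit 2097153) (nat_lit 4638904042) (.two (nat_lit 8388608) (nat_lit 183846834848) (.one (nat_lit 16783311) .nil)))))),
   .two (nat_lit 272629824) (nat_lit 183853121603) (.two (nat_lit 809500687) (nat_lit 183853122112) (.two (nat_lit 272629768) (nat_lit 2357201073) (.two (nat_lit 4194305) (nat_lit 109055121) (.two (nat_lit 4194304) (nat_lit 8393436) (.one (nat_lit 880809761) .nil))))),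
   .two (nat_lit 11559501891) (nat_lit 2416967788) (.two (nat_lit 1745879055) (nat_lit 117441352) (.two (nat_lit 184416206853) (nat_lit 10385099920) (.two (nat_lit 1048576) (nat_lit 9814676354) .nil))),
   .two (nat_lit 8388672) (nat_lit 10503585909) (.two (nat_lit 41943055) (nat_lit 1846543606) (.two (nat_lit 8388612) (nat_lit 46977255626) (.two (nat_lit 4194305) (nat_lit 873468608) (.one (nat_lit 21814581070) .nil)))),
   .two (nat_lit 184993972291) (nat_lit 158075977847) (.two (nat_lit 639631375) (nat_lit 276824906) (.two (nat_lit 34603013) (nat_lit 183853124751) (.two (nat_lit 1048576) (nat_lit 1283461126) (.one (nat_lit 2103248) .nil)))),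
   .two (nat_lit 721420353) (nat_lit 10007609455) (.two (nat_lit 612368399) (nat_lit 83886920) (.two (nat_lit 176160772) (nat_lit 11626612940) (.two (nat_lit 8388609) (nat_lit 4613739190) (.one (nat_lit 4647294783) .nil)))),
   .two (nat_lit 8388672) (nat_lit 12117344374) (.two (nat_lit 8388623) (nat_lit 19142804298) (.two (nat_lit 8388612) (nat_lit 2332036244) (.two (nat_lit 4194304) (nat_lit 9982448244) (.one (nat_lit 9936312188) .nil)))),
   .two (nat_lit 272629824) (nat_lit 19026411641) (.two (nat_lit 50331663) (nat_lit 1276117832) (.two (nat_lit 16777220) (nat_lit 11476667566) (.two (nat_lit 8388608) (nat_lit 46507496128) (.one (nat_lit 16783313) .nil)))),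
   .two (nat_lit 8388672) (nat_lit 46508540160) (.two (nat_lit 176160783) (nat_lit 12618564192) (.two (nat_lit 612368392) (nat_lit 156567078124) (.two (nat_lit 34603013) (nat_lit 4638902462) (.two (nat_lit 612368385) (nat_lit 303041684) (.two (nat_lit 8388608) (nat_lit 28790756018) (.one (nat_lit 1054674) .nil)))))),
   .two (nat_lit 46474985538) (nat_lit 272629897) (.two (nat_lit 83886095) (nat_lit 156533522789) (.two (nat_lit 9867100168) (nat_lit 13203670254) (.two (nat_lit 12117344261) (nat_lit 10940844220) (.two (nat_lit 50331649) (nat_lit 4030730044) (.two (nat_lit 4194304) (nat_lit 2969571966) (.one (nat_lit 4200403) .nil)))))),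
   .two (nat_lit 41943107) (nat_lit 13191086271) (.two (nat_lit 713031688) (nat_lit 183916037350) (.two (nat_lit 713031684) (nat_lit 184987683988) (.two (nat_lit 2097152) (nat_lit 37253812854) (.one (nat_lit 2103252) .nil)))),
   .two (nat_lit 11577327682) (nat_lit 1384120454) (.two (nat_lit 9948889103) (nat_lit 11610882684) (.two (nat_lit 28772925448) (nat_lit 1376781787) (.two (nat_lit 8388609) (nat_lit 9881784947) (.one (nat_lit 20745033530) .nil)))),
   .two (nat_lit 12117344322) (nat_lit 158647451778) (.two (nat_lit 183853121551) (nat_lit 11513364843) (.two (nat_lit 12117344264) (nat_lit 21214790884) (.two (nat_lit 69206021) (nat_lit 343936151) (.two (nat_lit 2097152) (nat_lit 4199133) (.one (nat_lit 8394709) .nil))))),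
   .two (nat_lit 47548727360) (nat_lit 11006902386) (.two (nat_lit 9948889103) (nat_lit 47548727487) (.two (nat_lit 28772925448) (nat_lit 9966717126) (.two (nat_lit 8388609) (nat_lit 235932822) (.two (nat_lit 8388608) (nat_lit 3457159882) (.one (nat_lit 1176508214) .nil))))),
   .two (nat_lit 47548727360) (nat_lit 1795162219) (.two (nat_lit 47548727311) (nat_lit 1358954687) (.two (nat_lit 2969567240) (nat_lit 1411384573) (.two (nat_lit 169869316) (nat_lit 721422504) (.two (nat_lit 606076929) (nat_lit 1392512749) (.two (nat_lit 16777216) (nat_lit 2102453) (.one (nat_lit 16783318) .nil)))))),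
   .two (nat_lit 12047089731) (nat_lit 156569174131) (.two (nat_lit 183949590552) (nat_lit 2316304742) (.two (nat_lit 12117344264) (nat_lit 19596839126) (.two (nat_lit 34603009) (nat_lit 9768537241) (.two (nat_lit 4194304) (nat_lit 156465370207) (.one (nat_lit 1054679) .nil))))),
   .two (nat_lit 285212737) (nat_lit 11513364547) (.two (nat_lit 285212687) (nat_lit 4601151679) (.two (nat_lit 4194312) (nat_lit 721421519) (.two (nat_lit 9781116933) (nat_lit 4601154402) (.two (nat_lit 4194305) (nat_lit 1426067167) (.two (nat_lit 1048576) (nat_lit 47550829186) (.one (nat_lit 336598845) .nil)))))),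
   .two (nat_lit 285212737) (nat_lit 2923429955) (.two (nat_lit 285212687) (nat_lit 9802088639) (.two (nat_lit 9781116936) (nat_lit 11546920240) (.two (nat_lit 4194308) (nat_lit 16779431) (.two (nat_lit 4194305) (nat_lit 19142808187) (.one (nat_lit 166199301886) .nil))))),
   .two (nat_lit 285212737) (nat_lit 306184258) (.two (nat_lit 4601151503) (nat_lit 822083775) (.two (nat_lit 4601151496) (nat_lit 822084820) (.two (nat_lit 4194308) (nat_lit 4613737250) (.two (nat_lit 4194305) (nat_lit 16781125) (.two (nat_lit 4194304) (nat_lit 16782518) (.one (nat_lit 4200408) .nil)))))),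
   .two (nat_lit 1847590977) (nat_lit 2969567345) (.two (nat_lit 9948889103) (nat_lit 21208499416) (.two (nat_lit 10370416645) (nat_lit 3036679321) (.two (nat_lit 2097152) (nat_lit 16782046) (.one (nat_lit 184555332) .nil)))),
   .two (nat_lit 2954887232) (nat_lit 739246210) (.two (nat_lit 2954887183) (nat_lit 1782579884) (.two (nat_lit 2954887176) (nat_lit 174688568566) (.two (nat_lit 270532613) (nat_lit 156569175516) (.two (nat_lit 34603009) (nat_lit 639635192) (.two (nat_lit 1048576) (nat_lit 2954891910) (.one (nat_lit 1054681) .nil)))))),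
   .two (nat_lit 3527409731) (nat_lit 28758245486) (.two (nat_lit 639631375) (nat_lit 157038936904) (.two (nat_lit 2887778308) (nat_lit 19532876944) (.two (nat_lit 2097152) (nat_lit 4199135) (.one (nat_lit 46477088665) .nil)))),
   .two (nat_lit 47563407425) (nat_lit 1310720112) (.two (nat_lit 620757007) (nat_lit 239075692) (.two (nat_lit 9934209032) (nat_lit 11010049319) (.two (nat_lit 47548727301) (nat_lit 16780156) (.two (nat_lit 2097153) (nat_lit 11593059486) (.two (nat_lit 2097152) (nat_lit 16782519) (.one (nat_lit 2103258) .nil)))))),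
   .two (nat_lit 11543773248) (nat_lit 3565158531) (.two (nat_lit 41943055) (nat_lit 183848927888) (.two (nat_lit 41943048) (nat_lit 11479811318) (.two (nat_lit 8388612) (nat_lit 843057963) (.two (nat_lit 4194305) (nat_lit 165525065459) (.two (nat_lit 4194304) (nat_lit 46507496096) (.one (nat_lit 4200411) .nil)))))),
   .two (nat_lit 11551113281) (nat_lit 12147753072) (.two (nat_lit 11479810063) (nat_lit 166197199207) (.two (nat_lit 4194312) (nat_lit 12115248377) (.two (nat_lit 2956984325) (nat_lit 10538190300) (.two (nat_lit 4194305) (nat_lit 184416210095) (.two (nat_lit 1048576) (nat_lit 4199136) (.one (nat_lit 1054684) .nil)))))),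
   .two (nat_lit 673185859) (nat_lit 10385096816) (.two (nat_lit 654311439) (nat_lit 10907288392) (.two (nat_lit 159217876997) (nat_lit 12163484841) (.two (nat_lit 2097152) (nat_lit 1426067468) (.one (nat_lit 16782774) .nil)))),
   .two (nat_lit 16777280) (nat_lit 605028466) (.two (nat_lit 46407876623) (nat_lit 608174778) (.two (nat_lit 205520904) (nat_lit 1411385520) (.two (nat_lit 2097153) (nat_lit 47581237003) (.two (nat_lit 1048576) (nat_lit 2102460) (.one (nat_lit 1054686) .nil))))),
   .two (nat_lit 11577327683) (nat_lit 1346371879) (.two (nat_lit 9948889103) (nat_lit 12047090345) (.two (nat_lit 4613734408) (nat_lit 809502914) (.two (nat_lit 16777217) (nat_lit 772804343) (.two (nat_lit 4194304) (nat_lit 352326349) (.one (nat_lit 1054687) .nil))))),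
   .two (nat_lit 772800577) (nat_lit 46523220087) (.two (nat_lit 9948889103) (nat_lit 1411383931) (.two (nat_lit 3458203656) (nat_lit 318767946) (.two (nat_lit 806354949) (nat_lit 620758491) (.two (nat_lit 9765388289) (nat_lit 1780486814) (.one (nat_lit 2103264) .nil))))),
   .two (nat_lit 1191182403) (nat_lit 11546919040) (.two (nat_lit 156367847439) (nat_lit 11022631517) (.two (nat_lit 156367847432) (nat_lit 10552870120) (.two (nat_lit 171966469) (nat_lit 20719863988) (.two (nat_lit 4194305) (nat_lit 117444409) (.two (nat_lit 1048576) (nat_lit 16782526) (.one (nat_lit 1054691) .nil)))))),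
   .two (nat_lit 28757196867) (nat_lit 184419352689) (.two (nat_lit 1846542351) (nat_lit 11513365321) (.two (nat_lit 28757196805) (nat_lit 1212156075) (.two (nat_lit 9765388289) (nat_lit 4634710712) (.one (nat_lit 4200420) .nil)))),
   .two (nat_lit 272629824) (nat_lit 1913651312) (.two (nat_lit 272629775) (nat_lit 158150427271) (.two (nat_lit 184993972232) (nat_lit 174752531687) (.two (nat_lit 47550824453) (nat_lit 276826297) (.two (nat_lit 612368385) (nat_lit 336597317) (.two (nat_lit 1048576) (nat_lit 8393920) (.one (nat_lit 1054693) .nil)))))),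
   .two (nat_lit 16777280) (nat_lit 10343153731) (.two (nat_lit 20644364303) (nat_lit 16777407) (.two (nat_lit 20644364296) (nat_lit 16778715) (.two (nat_lit 612368385) (nat_lit 3539996682) (.one (nat_lit 16783334) .nil)))),
   .two (nat_lit 2969567298) (nat_lit 183913939066) (.two (nat_lit 620757007) (nat_lit 1182794313) (.two (nat_lit 83886088) (nat_lit 2994734303) (.two (nat_lit 12121538565) (nat_lit 1291847849) (.two (nat_lit 16777217) (nat_lit 46514835248) (.two (nat_lit 2097152) (nat_lit 3036680203) (.one (nat_lit 16783335) .nil)))))),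
   .two (nat_lit 3527409729) (nat_lit 166230753394) (.two (nat_lit 28758245391) (nat_lit 4195624) (.two (nat_lit 169869316) (nat_lit 21814577327) (.two (nat_lit 2097153) (nat_lit 9869200529) (.two (nat_lit 2097152) (nat_lit 19029562011) (.one (nat_lit 37247522616) .nil))))),
   .two (nat_lit 272629824) (nat_lit 20745027715) (.two (nat_lit 713031695) (nat_lit 12047090320) (.two (nat_lit 4194312) (nat_lit 343934427) (.two (nat_lit 4194305) (nat_lit 156372044961) (.two (nat_lit 1048576) (nat_lit 2889880198) (.one (nat_lit 806360828) .nil))))),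
   .two (nat_lit 16777280) (nat_lit 11580473470) (.two (nat_lit 184549391) (nat_lit 138412685) (.two (nat_lit 2889875464) (nat_lit 9934209866) (.two (nat_lit 2889875460) (nat_lit 2988443822) (.two (nat_lit 156365750273) (nat_lit 156380433582) (.two (nat_lit 2097152) (nat_lit 3472888450) (.one (nat_lit 2103277) .nil)))))),
   .two (nat_lit 272629827) (nat_lit 157043130491) (.two (nat_lit 2889875471) (nat_lit 12624855670) (.two (nat_lit 184423546888) (nat_lit 1279264009) (.two (nat_lit 2954887173) (nat_lit 8391552) (.two (nat_lit 2097153) (nat_lit 809505399) (.one (nat_lit 2103279) .nil))))),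
   .two (nat_lit 2969567296) (nat_lit 236978242) (.two (nat_lit 285212687) (nat_lit 1950352006) (.two (nat_lit 3458203656) (nat_lit 10351543556) (.two (nat_lit 165526110213) (nat_lit 21210598548) (.two (nat_lit 2097152) (nat_lit 37316727486) (.one (nat_lit 2103280) .nil))))),
   .two (nat_lit 8388672) (nat_lit 12050235516) (.two (nat_lit 41943055) (nat_lit 9768534660) (.two (nat_lit 276824072) (nat_lit 28693234504) (.two (nat_lit 8388612) (nat_lit 174688569550) (.two (nat_lit 4194305) (nat_lit 11618225311) (.two (nat_lit 1048576) (nat_lit 4199141) (.one (nat_lit 9933166427) .nil)))))),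
   .two (nat_lit 3539992642) (nat_lit 166197198966) (.two (nat_lit 620757007) (nat_lit 11517559362) (.two (nat_lit 47563407368) (nat_lit 46474986742) (.two (nat_lit 209715205) (nat_lit 352324394) (.two (nat_lit 9765388289) (nat_lit 840961817) (.two (nat_lit 1048576) (nat_lit 4599059139) (.one (nat_lit 1054705) .nil)))))),
   .two (nat_lit 20705181762) (nat_lit 183920230517) (.two (nat_lit 158144135183) (nat_lit 8389312) (.two (nat_lit 158144135176) (nat_lit 4034921699) (.two (nat_lit 1277165572) (nat_lit 343935152) (.two (nat_lit 606076929) (nat_lit 46414171287) (.two (nat_lit 1048576) (nat_lit 1377833596) (.one (nat_lit 3458209555) .nil)))))),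
   .two (nat_lit 158143086658) (nat_lit 46481277045) (.two (nat_lit 10939793423) (nat_lit 19100861013) (.two (nat_lit 158143086600) (nat_lit 813695818) (.two (nat_lit 1276116996) (nat_lit 880806064) (.two (nat_lit 9766436865) (nat_lit 202379936) (.one (nat_lit 1054707) .nil))))),
   .two (nat_lit 184993972290) (nat_lit 158646403139) (.two (nat_lit 158143086607) (nat_lit 1753219263) (.two (nat_lit 158143086600) (nat_lit 158083319260) (.two (nat_lit 605028353) (nat_lit 9940504586) (.one (nat_lit 159250388903) .nil)))),
   .two (nat_lit 47555018818) (nat_lit 772800625) (.two (nat_lit 159224168463) (nat_lit 12617515849) (.two (nat_lit 176160772) (nat_lit 21207451826) (.two (nat_lit 8388609) (nat_lit 10369371304) (.two (nat_lit 1048576) (nat_lit 158183985793) (.one (nat_lit 185020192161) .nil))))),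
   .two (nat_lit 13191086147) (nat_lit 166130090050) (.two (nat_lit 11492392975) (nat_lit 169869957) (.two (nat_lit 18928893960) (nat_lit 156466414851) (.two (nat_lit 9948889093) (nat_lit 236981107) (.two (nat_lit 620756993) (nat_lit 166230757094) (.two (nat_lit 16777216) (nat_lit 28089258658) (.one (nat_lit 4200437) .nil)))))),
   .two (nat_lit 2969567296) (nat_lit 158144135234) (.two (nat_lit 158144135183) (nat_lit 3573548265) (.two (nat_lit 1277165572) (nat_lit 3573550233) (.two (nat_lit 2097152) (nat_lit 2969572062) (.one (nat_lit 16783350) .nil)))),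
   .two (nat_lit 16777280) (nat_lit 10343153731) (.two (nat_lit 16777231) (nat_lit 1350566248) (.two (nat_lit 20644364296) (nat_lit 16778448) (.two (nat_lit 159224168453) (nat_lit 16779431) (.two (nat_lit 16777217) (nat_lit 8393063) (.two (nat_lit 8388608) (nat_lit 11626615419) (.one (nat_lit 16783352) .nil)))))),
   .two (nat_lit 272629824) (nat_lit 16777331) (.two (nat_lit 184549391) (nat_lit 11479811305) (.two (nat_lit 16777221) (nat_lit 13224642012) (.two (nat_lit 16777217) (nat_lit 13224643726) (.two (nat_lit 16777216) (nat_lit 4199142) (.one (nat_lit 4200442) .nil))))),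
   .two (nat_lit 11618222145) (nat_lit 3558867245) (.two (nat_lit 176160783) (nat_lit 12618564192) (.two (nat_lit 612368392) (nat_lit 156567078124) (.two (nat_lit 209715205) (nat_lit 9967765690) (.two (nat_lit 612368385) (nat_lit 303041684) (.two (nat_lit 8388608) (nat_lit 28790756018) (.one (nat_lit 1054715) .nil)))))),
   .two (nat_lit 159224168515) (nat_lit 156365750409) (.two (nat_lit 2887778319) (nat_lit 47555019110) (.two (nat_lit 2887778312) (nat_lit 47555019985) (.two (nat_lit 270532613) (nat_lit 47555020967) (.two (nat_lit 34603009) (nat_lit 713035500) (.two (nat_lit 8388608) (nat_lit 2102475) (.one (nat_lit 304093289) .nil)))))),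
   .two (nat_lit 236978243) (nat_lit 1795162224) (.two (nat_lit 47548727311) (nat_lit 117441352) (.two (nat_lit 169869316) (nat_lit 20753419414) (.two (nat_lit 16777216) (nat_lit 2988446399) (.one (nat_lit 620762912) .nil)))),
   .two (nat_lit 8388672) (nat_lit 9765388418) (.two (nat_lit 75497487) (nat_lit 2097821) (.two (nat_lit 2961178632) (nat_lit 166230754511) (.two (nat_lit 1913651205) (nat_lit 174759872714) (.two (nat_lit 612368385) (nat_lit 605032175) (.two (nat_lit 1048576) (nat_lit 8393932) (.one (nat_lit 9866057689) .nil)))))),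
   .two (nat_lit 8388672) (nat_lit 9798942834) (.two (nat_lit 176160783) (nat_lit 2432696949) (.two (nat_lit 612368392) (nat_lit 269485290) (.two (nat_lit 176160772) (nat_lit 1846545246) (.two (nat_lit 2097153) (nat_lit 806359747) (.one (nat_lit 1054716) .nil))))),
   .two (nat_lit 2954887234) (nat_lit 780140663) (.two (nat_lit 37748751) (nat_lit 3028288328) (.two (nat_lit 169869316) (nat_lit 713033902) (.two (nat_lit 2097153) (nat_lit 4638904107) (.two (nat_lit 4194304) (nat_lit 21785220213) (.one (nat_lit 8394749) .nil))))),
   .two (nat_lit 2902458435) (nat_lit 10007609452) (.two (nat_lit 285212687) (nat_lit 21785215816) (.two (nat_lit 16777220) (nat_lit 20644367504) (.two (nat_lit 16777216) (nat_lit 2927629000) (.one (nat_lit 8394693) .nil)))),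
   .two (nat_lit 1358954563) (nat_lit 158646403137) (.two (nat_lit 21207449615) (nat_lit 754975078) (.two (nat_lit 21207449608) (nat_lit 1795162952) (.two (nat_lit 9866051589) (nat_lit 1291848847) (.two (nat_lit 1048576) (nat_lit 11626614792) (.one (nat_lit 16782748) .nil))))),
   .two (nat_lit 4601151552) (nat_lit 46481277059) (.two (nat_lit 4601151503) (nat_lit 20652753256) (.two (nat_lit 4601151496) (nat_lit 156581758206) (.two (nat_lit 4194308) (nat_lit 183962175702) (.two (nat_lit 41943041) (nat_lit 306188947) (.one (nat_lit 16783358) .nil))))),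
   .two (nat_lit 2954887232) (nat_lit 166132187203) (.two (nat_lit 2954887183) (nat_lit 37316723288) (.two (nat_lit 2954887176) (nat_lit 10506732360) (.two (nat_lit 169869316) (nat_lit 2923432117) (.two (nat_lit 2097153) (nat_lit 272632986) (.two (nat_lit 2097152) (nat_lit 2889880284) (.one (nat_lit 4200449) .nil)))))),
   .two (nat_lit 4194369) (nat_lit 1920991485) (.two (nat_lit 4194319) (nat_lit 157043130728) (.two (nat_lit 1343225864) (nat_lit 165532402967) (.two (nat_lit 806354949) (nat_lit 205523816) (.two (nat_lit 2097153) (nat_lit 202379986) (.one (nat_lit 1054722) .nil))))),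
   .two (nat_lit 8388672) (nat_lit 20637024363) (.two (nat_lit 41943055) (nat_lit 174685422182) (.two (nat_lit 1350565896) (nat_lit 12147754191) (.two (nat_lit 46409973764) (nat_lit 21811431598) (.two (nat_lit 156367847425) (nat_lit 1283461762) (.one (nat_lit 4200451) .nil))))),
   .two (nat_lit 21785215043) (nat_lit 20704133230) (.two (nat_lit 1343225871) (nat_lit 28093449032) (.two (nat_lit 705691652) (nat_lit 20644367503) (.two (nat_lit 1048576) (nat_lit 713035788) (.one (nat_lit 4605351325) .nil)))),
   .two (nat_lit 12054429762) (nat_lit 706740346) (.two (nat_lit 37748751) (nat_lit 12054430536) (.two (nat_lit 4194308) (nat_lit 1954547884) (.two (nat_lit 4194305) (nat_lit 1176505490) (.two (nat_lit 4194304) (nat_lit 2101991) (.one (nat_lit 4605351905) .nil))))),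
   .two (nat_lit 158646403139) (nat_lit 9869197441) (.two (nat_lit 19599982607) (nat_lit 1846543635) (.two (nat_lit 1276116996) (nat_lit 158146234543) (.two (nat_lit 9765388289) (nat_lit 183848930457) (.two (nat_lit 1048576) (nat_lit 843059934) (.one (nat_lit 1054724) .nil))))),
   .two (nat_lit 285212737) (nat_lit 4598005884) (.two (nat_lit 639631375) (nat_lit 285212863) (.two (nat_lit 2969567240) (nat_lit 1847592217) (.two (nat_lit 620756997) (nat_lit 19597888313) (.two (nat_lit 605028353) (nat_lit 2887782114) (.two (nat_lit 1048576) (nat_lit 16782057) (.one (nat_lit 1054725) .nil)))))),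
   .two (nat_lit 11577327681) (nat_lit 1795162226) (.two (nat_lit 21777874959) (nat_lit 1795162693) (.two (nat_lit 21777874952) (nat_lit 3539994524) (.two (nat_lit 705691652) (nat_lit 183928621236) (.two (nat_lit 605028353) (nat_lit 10921972035) (.two (nat_lit 1048576) (nat_lit 16782058) (.one (nat_lit 1054726) .nil)))))),
   .two (nat_lit 20704133186) (nat_lit 184419352688) (.two (nat_lit 12117344271) (nat_lit 20704133960) (.two (nat_lit 21207449605) (nat_lit 18928896194) (.two (nat_lit 605028353) (nat_lit 4601154729) (.two (nat_lit 1048576) (nat_lit 11010052108) (.one (nat_lit 4200456) .nil))))),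
   .two (nat_lit 9881780290) (nat_lit 166232850549) (.two (nat_lit 1795162127) (nat_lit 183916036706) (.two (nat_lit 37748744) (nat_lit 9881781064) (.two (nat_lit 9934209029) (nat_lit 2332035244) (.two (nat_lit 606076929) (nat_lit 156971830442) (.two (nat_lit 2097152) (nat_lit 306188932) (.one (nat_lit 4200457) .nil)))))),
   .two (nat_lit 8388672) (nat_lit 806355072) (.two (nat_lit 612368399) (nat_lit 47547679317) (.two (nat_lit 1745879048) (nat_lit 184423548208) (.two (nat_lit 183845781508) (nat_lit 8391553) (.two (nat_lit 41943041) (nat_lit 876614343) (.one (nat_lit 4200459) .nil))))),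
   .two (nat_lit 46474985538) (nat_lit 10947133552) (.two (nat_lit 3558866967) (nat_lit 10921968233) (.two (nat_lit 2969567240) (nat_lit 28691137778) (.two (nat_lit 158083317765) (nat_lit 3525315755) (.two (nat_lit 2097152) (nat_lit 19537072820) (.one (nat_lit 46514837477) .nil))))),
   .two (nat_lit 1343225923) (nat_lit 183853121649) (.two (nat_lit 9866051599) (nat_lit 18933089097) (.two (nat_lit 1343225861) (nat_lit 8391849) (.two (nat_lit 8388608) (nat_lit 9899610748) (.one (nat_lit 1054821) .nil)))),
   .two (nat_lit 21208498242) (nat_lit 2969567340) (.two (nat_lit 2969567247) (nat_lit 174753579848) (.two (nat_lit 184549380) (nat_lit 47582283958) (.two (nat_lit 16777217) (nat_lit 28758249243) (.two (nat_lit 2097152) (nat_lit 21827162123) (.one (nat_lit 10538195042) .nil))))),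
   .two (nat_lit 285212736) (nat_lit 11479810167) (.two (nat_lit 117440527) (nat_lit 168821321) (.two (nat_lit 1795162120) (nat_lit 12114199775) (.two (nat_lit 171966469) (nat_lit 9781120141) (.two (nat_lit 4194304) (nat_lit 11492397070) (.one (nat_lit 1054733) .nil))))),
   .two (nat_lit 4601151554) (nat_lit 166211879039) (.two (nat_lit 37748751) (nat_lit 16778451) (.two (nat_lit 11492392964) (nat_lit 4197250) (.two (nat_lit 9781116929) (nat_lit 69209244) (.two (nat_lit 2097152) (nat_lit 2990543511) (.one (nat_lit 47548733252) .nil))))),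
   .two (nat_lit 285212739) (nat_lit 11479810167) (.two (nat_lit 1795162127) (nat_lit 68158282) (.two (nat_lit 605028357) (nat_lit 218107023) (.two (nat_lit 1048576) (nat_lit 83890183) (.one (nat_lit 156566034317) .nil)))),
   .two (nat_lit 1277165635) (nat_lit 184986632324) (.two (nat_lit 2954887183) (nat_lit 13191086711) (.two (nat_lit 2954887176) (nat_lit 174688568566) (.two (nat_lit 2097157) (nat_lit 156367849666) (.two (nat_lit 2097153) (nat_lit 171969682) (.two (nat_lit 1048576) (nat_lit 183949595345) (.one (nat_lit 2103319) .nil)))))),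
   .two (nat_lit 1358954563) (nat_lit 13187940469) (.two (nat_lit 620757007) (nat_lit 276824906) (.two (nat_lit 3531603973) (nat_lit 28806483113) (.two (nat_lit 1048576) (nat_lit 11525951494) (.one (nat_lit 352327092) .nil)))),
   .two (nat_lit 2969567296) (nat_lit 1277165687) (.two (nat_lit 117440527) (nat_lit 1410335423) (.two (nat_lit 117440520) (nat_lit 158143087839) (.two (nat_lit 806354949) (nat_lit 9781120141) (.two (nat_lit 1048576) (nat_lit 46523224735) (.one (nat_lit 203429669) .nil))))),
   .two (nat_lit 1343225923) (nat_lit 3565158531) (.two (nat_lit 8388623) (nat_lit 184989778539) (.two (nat_lit 4194312) (nat_lit 10007610843) (.two (nat_lit 4194305) (nat_lit 159257726099) (.two (nat_lit 1048576) (nat_lit 310383740) (.one (nat_lit 873469797) .nil))))),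
   .two (nat_lit 13224640579) (nat_lit 9906946167) (.two (nat_lit 4605345807) (nat_lit 742392170) (.two (nat_lit 11479810056) (nat_lit 185027527498) (.two (nat_lit 809500677) (nat_lit 166237045714) (.two (nat_lit 37748739) (nat_lit 343934427) (.two (nat_lit 37748737) (nat_lit 156372044951) (.two (nat_lit 2097152) (nat_lit 708842108) (.one (nat_lit 9900659616) .nil))))))),
   .two (nat_lit 16777280) (nat_lit 156569174130) (.two (nat_lit 16777231) (nat_lit 156569174597) (.two (nat_lit 13203669000) (nat_lit 2923431128) (.two (nat_lit 16777220) (nat_lit 20640172423) (.two (nat_lit 16777219) (nat_lit 104859828) (.two (nat_lit 16777217) (nat_lit 156535623434) (.two (nat_lit 16777216) (nat_lit 156367852191) (.one (nat_lit 4199902) .nil))))))),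
   .two (nat_lit 339738661) (nat_lit 746586394) (.two (nat_lit 272629775) (nat_lit 158083318336) (.two (nat_lit 272629768) (nat_lit 21785215817) (.two (nat_lit 4194308) (nat_lit 10007610843) (.two (nat_lit 4194305) (nat_lit 165532404897) (.two (nat_lit 8388608) (nat_lit 272634504) (.one (nat_lit 4200289) .nil)))))),
   .two (nat_lit 809500708) (nat_lit 46414168175) (.two (nat_lit 4194315) (nat_lit 3028287845) (.two (nat_lit 809500687) (nat_lit 780140740) (.two (nat_lit 4194310) (nat_lit 3028288328) (.two (nat_lit 809500680) (nat_lit 1182794706) (.two (nat_lit 4194308) (nat_lit 343933435) (.two (nat_lit 4194307) (nat_lit 10343155895) (.two (nat_lit 4194305) (nat_lit 2927628017) (.two (nat_lit 4194304) (nat_lit 8392740) (.one (nat_lit 8394805) .nil))))))))),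
   .two (nat_lit 2954887235) (nat_lit 12155093123) (.two (nat_lit 813694991) (nat_lit 156569174373) (.two (nat_lit 813694984) (nat_lit 156569174856) (.two (nat_lit 2887778308) (nat_lit 184419354811) (.two (nat_lit 2097153) (nat_lit 46414171302) (.two (nat_lit 2097152) (nat_lit 9936310912) (.one (nat_lit 4199903) .nil)))))),
   .two (nat_lit 2902458434) (nat_lit 20705181804) (.two (nat_lit 2902458383) (nat_lit 20705181887) (.two (nat_lit 9867100168) (nat_lit 9781117768) (.two (nat_lit 1344274437) (nat_lit 9781118427) (.two (nat_lit 37748737) (nat_lit 2921335956) (.two (nat_lit 4194304) (nat_lit 166230758003) (.one (nat_lit 2102159) .nil)))))),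
   .two (nat_lit 4605345856) (nat_lit 156971827267) (.two (nat_lit 9881780239) (nat_lit 156372042394) (.two (nat_lit 41943048) (nat_lit 1795162952) (.two (nat_lit 12117344261) (nat_lit 156372043227) (.two (nat_lit 37748737) (nat_lit 19537071250) (.two (nat_lit 4194304) (nat_lit 184431940259) (.one (nat_lit 28798096829) .nil)))))),
   .two (nat_lit 2954887204) (nat_lit 185023332483) (.two (nat_lit 37748751) (nat_lit 11618222655) (.two (nat_lit 37748744) (nat_lit 1417675993) (.two (nat_lit 169869316) (nat_lit 243271888) (.two (nat_lit 4194305) (nat_lit 2101575) (.two (nat_lit 8388608) (nat_lit 2102042) (.one (nat_lit 4199905) .nil)))))),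
   .two (nat_lit 3560964116) (nat_lit 174692761717) (.two (nat_lit 343933043) (nat_lit 185023332389) (.two (nat_lit 37748751) (nat_lit 47555018944) (.two (nat_lit 37748751) (nat_lit 156372041823) (.two (nat_lit 37748744) (nat_lit 183953785304) (.two (nat_lit 37748744) (nat_lit 880804057) (.two (nat_lit 4194308) (nat_lit 4638902490) (.two (nat_lit 4194308) (nat_lit 2894070739) (.two (nat_lit 37748737) (nat_lit 8391876) (.two (nat_lit 8388608) (nat_lit 4199195) (.one (nat_lit 343938508) .nil)))))))))),
   .two (nat_lit 47584378917) (nat_lit 184993972288) (.two (nat_lit 4194319) (nat_lit 184993972415) (.two (nat_lit 705691654) (nat_lit 12121539861) (.two (nat_lit 4194312) (nat_lit 184993972687) (.two (nat_lit 705691650) (nat_lit 2319452333) (.two (nat_lit 739246085) (nat_lit 876610517) (.two (nat_lit 9765388289) (nat_lit 4197573) (.two (nat_lit 1048576) (nat_lit 4199196) (.one (nat_lit 21777879948) .nil)))))))),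
   .two (nat_lit 3560964116) (nat_lit 343933039) (.two (nat_lit 343933039) (nat_lit 21812477989) (.two (nat_lit 37748751) (nat_lit 780140740) (.two (nat_lit 8388623) (nat_lit 1310720098) (.two (nat_lit 37748744) (nat_lit 19134415826) (.two (nat_lit 8388616) (nat_lit 10001318119) (.two (nat_lit 4194308) (nat_lit 12155093973) (.two (nat_lit 4194308) (nat_lit 19134415826) (.two (nat_lit 2097153) (nat_lit 13195283604) (.two (nat_lit 2097152) (nat_lit 109055302) (.one (nat_lit 2102847) .nil)))))))))),
   .two (nat_lit 11577327681) (nat_lit 10007609458) (.two (nat_lit 176160783) (nat_lit 156364702331) (.two (nat_lit 813694984) (nat_lit 1376781128) (.two (nat_lit 8388612) (nat_lit 3557820591) (.two (nat_lit 41943041) (nat_lit 2953841809) (.two (nat_lit 2097152) (nat_lit 28086112924) (.one (nat_lit 1277169805) .nil)))))),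
   .two (nat_lit 3028287555) (nat_lit 11513364547) (.two (nat_lit 8388623) (nat_lit 1212154214) (.two (nat_lit 8388616) (nat_lit 843055944) (.two (nat_lit 8388612) (nat_lit 9768534987) (.two (nat_lit 8388611) (nat_lit 2420115634) (.two (nat_lit 8388609) (nat_lit 876612755) (.two (nat_lit 4194304) (nat_lit 156465369716) (.one (nat_lit 156532478880) .nil))))))),
   .two (nat_lit 269484109) (nat_lit 184989778202) (.two (nat_lit 157036838927) (nat_lit 19096666151) (.two (nat_lit 68157448) (nat_lit 1847591131) (.two (nat_lit 4194308) (nat_lit 183913939929) (.two (nat_lit 4194305) (nat_lit 1847591940) (.two (nat_lit 1048576) (nat_lit 2100570) (.one (nat_lit 2101405) .nil)))))),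
   .two (nat_lit 183946444821) (nat_lit 10443817082) (.two (nat_lit 21785215012) (nat_lit 2953838666) (.two (nat_lit 12047089675) (nat_lit 1317012100) (.two (nat_lit 12147752984) (nat_lit 166203490399) (.two (nat_lit 12114198536) (nat_lit 158653744451) (.two (nat_lit 12114198536) (nat_lit 185027526885) (.two (nat_lit 184549378) (nat_lit 41946110) (.two (nat_lit 11476664324) (nat_lit 19537070306) (.two (nat_lit 9765388289) (nat_lit 8392587) (.two (nat_lit 16777216) (nat_lit 8394066) (.one (nat_lit 16782823) .nil)))))))))),
   .two (nat_lit 8388672) (nat_lit 83886147) (.two (nat_lit 184549391) (nat_lit 10007609535) (.two (nat_lit 8388616) (nat_lit 11593057558) (.two (nat_lit 8388612) (nat_lit 83886587) (.two (nat_lit 8388612) (nat_lit 9781120183) (.two (nat_lit 16777217) (nat_lit 343936823) (.two (nat_lit 16777216) (nat_lit 713037272) (.one (nat_lit 8393633) .nil))))))),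
   .two (nat_lit 10506731539) (nat_lit 19033751671) (.two (nat_lit 4634705987) (nat_lit 780140581) (.two (nat_lit 10506731539) (nat_lit 813695589) (.two (nat_lit 2889875471) (nat_lit 46414168258) (.two (nat_lit 775946249) (nat_lit 813696295) (.two (nat_lit 2889875464) (nat_lit 176160996) (.two (nat_lit 2889875458) (nat_lit 8390883) (.two (nat_lit 4194307) (nat_lit 18933089224) (.two (nat_lit 4194305) (nat_lit 8391878) (.two (nat_lit 4194304) (nat_lit 8392744) (.one (nat_lit 4199351) .nil)))))))))),
   .two (nat_lit 1277165589) (nat_lit 19029557363) (.two (nat_lit 19029557363) (nat_lit 166130090021) (.two (nat_lit 28758245391) (nat_lit 171966662) (.two (nat_lit 10506731535) (nat_lit 10940842081) (.two (nat_lit 28758245384) (nat_lit 4601151958) (.two (nat_lit 205520904) (nat_lit 10940842201) (.two (nat_lit 1847590917) (nat_lit 3024094165) (.two (nat_lit 1847590917) (nat_lit 21814576082) (.two (nat_lit 605028353) (nat_lit 19532876948) (.two (nat_lit 1048576) (nat_lit 4030730874) (.one (nat_lit 4199353) .nil)))))))))),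
   .two (nat_lit 4613734466) (nat_lit 3527409731) (.two (nat_lit 9948889103) (nat_lit 166229705289) (.two (nat_lit 1358954504) (nat_lit 11543774434) (.two (nat_lit 721420292) (nat_lit 21811431612) (.two (nat_lit 156365750273) (nat_lit 156380433556) (.two (nat_lit 1048576) (nat_lit 35656803) (.one (nat_lit 21778927733) .nil)))))),
   .two (nat_lit 9781117040) (nat_lit 135266375) (.two (nat_lit 9781116995) (nat_lit 706740299) (.two (nat_lit 169869327) (nat_lit 1191182693) (.two (nat_lit 169869320) (nat_lit 1191183176) (.two (nat_lit 2097157) (nat_lit 156548203470) (.two (nat_lit 34603013) (nat_lit 788530131) (.two (nat_lit 605028353) (nat_lit 352326551) (.two (nat_lit 16777216) (nat_lit 2102612) (.one (nat_lit 2103351) .nil)))))))),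
   .two (nat_lit 16777280) (nat_lit 9765388355) (.two (nat_lit 184549391) (nat_lit 68157801) (.two (nat_lit 8388616) (nat_lit 18925749064) (.two (nat_lit 8388612) (nat_lit 156364702203) (.two (nat_lit 8388612) (nat_lit 156380431305) (.two (nat_lit 612368385) (nat_lit 1426067240) (.two (nat_lit 8388608) (nat_lit 184986635614) (.one (nat_lit 2102764) .nil))))))),
   .two (nat_lit 183962173460) (nat_lit 10007609455) (.two (nat_lit 83886190) (nat_lit 1384120357) (.two (nat_lit 721420303) (nat_lit 4638901066) (.two (nat_lit 721420296) (nat_lit 47588574435) (.two (nat_lit 50331653) (nat_lit 4605348016) (.two (nat_lit 9765388289) (nat_lit 11618225300) (.two (nat_lit 1048576) (nat_lit 16782492) (.one (nat_lit 1384125342) .nil))))))),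
   .two (nat_lit 16777280) (nat_lit 101711981) (.two (nat_lit 41943055) (nat_lit 1745879231) (.two (nat_lit 41943048) (nat_lit 1745879880) (.two (nat_lit 8388612) (nat_lit 1745880539) (.two (nat_lit 8388609) (nat_lit 1410338539) (.two (nat_lit 8388608) (nat_lit 2920286693) (.one (nat_lit 16783418) .nil)))))),
   .two (nat_lit 272629824) (nat_lit 19026411641) (.two (nat_lit 50331663) (nat_lit 1276117349) (.two (nat_lit 176160776) (nat_lit 272631643) (.two (nat_lit 16777220) (nat_lit 1745881263) (.two (nat_lit 8388609) (nat_lit 1053000) (.two (nat_lit 8388608) (nat_lit 4199206) (.one (nat_lit 4200507) .nil)))))),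
   .two (nat_lit 8388672) (nat_lit 620757104) (.two (nat_lit 83886095) (nat_lit 41943231) (.two (nat_lit 8388616) (nat_lit 10552870111) (.two (nat_lit 620756997) (nat_lit 343933901) (.two (nat_lit 28758245381) (nat_lit 12054431197) (.two (nat_lit 50331649) (nat_lit 880807735) (.two (nat_lit 2097152) (nat_lit 183953789720) (.one (nat_lit 13228840413) .nil))))))),
   .two (nat_lit 1948254324) (nat_lit 1325400182) (.two (nat_lit 158653743128) (nat_lit 352321898) (.two (nat_lit 713031688) (nat_lit 672139086) (.two (nat_lit 8388612) (nat_lit 156364702203) (.two (nat_lit 620756995) (nat_lit 1052168) (.two (nat_lit 50331649) (nat_lit 2101135) (.two (nat_lit 1048576) (nat_lit 8393513) (.one (nat_lit 16783422) .nil))))))),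
   .two (nat_lit 1343225923) (nat_lit 270532741) (.two (nat_lit 8388623) (nat_lit 20638073189) (.two (nat_lit 8388616) (nat_lit 20638073672) (.two (nat_lit 8388612) (nat_lit 183846832310) (.two (nat_lit 606076929) (nat_lit 37752865) (.two (nat_lit 1048576) (nat_lit 2102058) (.one (nat_lit 2103359) .nil)))))),
   .two (nat_lit 16777280) (nat_lit 742391921) (.two (nat_lit 16777231) (nat_lit 10372514390) (.two (nat_lit 16777224) (nat_lit 46510638326) (.two (nat_lit 8388612) (nat_lit 171968710) (.two (nat_lit 8388609) (nat_lit 4198730) (.two (nat_lit 16777216) (nat_lit 4199211) (.one (nat_lit 4200512) .nil)))))),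
   .two (nat_lit 156468510835) (nat_lit 159250382916) (.two (nat_lit 156468510835) (nat_lit 3524264010) (.two (nat_lit 185020186648) (nat_lit 4194983) (.two (nat_lit 47548727304) (nat_lit 2420114655) (.two (nat_lit 705691650) (nat_lit 4195816) (.two (nat_lit 34603013) (nat_lit 46980400605) (.two (nat_lit 2097153) (nat_lit 4198731) (.two (nat_lit 2097152) (nat_lit 4199212) (.one (nat_lit 4199922) .nil)))))))),
   .two (nat_lit 809500691) (nat_lit 157036839027) (.two (nat_lit 185023332466) (nat_lit 19596836900) (.two (nat_lit 19596836879) (nat_lit 1413480645) (.two (nat_lit 185023332392) (nat_lit 9899606111) (.two (nat_lit 675282953) (nat_lit 12114199769) (.two (nat_lit 158077026312) (nat_lit 183912890588) (.two (nat_lit 183848927237) (nat_lit 873464782) (.two (nat_lit 1283457029) (nat_lit 12617515991) (.two (nat_lit 4194305) (nat_lit 1051849) (.two (nat_lit 8388608) (nat_lit 2102617) (.one (nat_lit 8394228) .nil)))))))))),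
   .two (nat_lit 176160786) (nat_lit 620757114) (.two (nat_lit 822083620) (nat_lit 19532873849) (.two (nat_lit 822083599) (nat_lit 641729235) (.two (nat_lit 8388623) (nat_lit 83886175) (.two (nat_lit 339738633) (nat_lit 156380431621) (.two (nat_lit 8388616) (nat_lit 2902458588) (.two (nat_lit 10506731525) (nat_lit 889194714) (.two (nat_lit 10506731525) (nat_lit 11618223059) (.two (nat_lit 9768534017) (nat_lit 176164026) (.two (nat_lit 4194304) (nat_lit 8393519) (.one (nat_lit 4200514) .nil)))))))))),
   .two (nat_lit 169869377) (nat_lit 2902458406) (.two (nat_lit 4194319) (nat_lit 2902458406) (.two (nat_lit 285212688) (nat_lit 705692005) (.two (nat_lit 2902458376) (nat_lit 705692488) (.two (nat_lit 285212677) (nat_lit 34603515) (.two (nat_lit 285212677) (nat_lit 1309672405) (.two (nat_lit 16777217) (nat_lit 202377711) (.two (nat_lit 16777216) (nat_lit 2889878878) (.one (nat_lit 4199926) .nil)))))))),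
   .two (nat_lit 16777280) (nat_lit 1178599491) (.two (nat_lit 50331663) (nat_lit 3560964741) (.two (nat_lit 16777224) (nat_lit 2994734358) (.two (nat_lit 16777220) (nat_lit 1182796983) (.two (nat_lit 16777220) (nat_lit 1182796983) (.two (nat_lit 41943041) (nat_lit 876613396) (.two (nat_lit 8388608) (nat_lit 183962178328) (.one (nat_lit 16783427) .nil))))))),
   .two (nat_lit 41943107) (nat_lit 318767143) (.two (nat_lit 713031695) (nat_lit 46407876646) (.two (nat_lit 203423759) (nat_lit 318767305) (.two (nat_lit 721420296) (nat_lit 9934209243) (.two (nat_lit 721420296) (nat_lit 10544481102) (.two (nat_lit 50331653) (nat_lit 10370417147) (.two (nat_lit 50331653) (nat_lit 1182795237) (.two (nat_lit 620756993) (nat_lit 2100426) (.two (nat_lit 2097152) (nat_lit 8394074) (.one (nat_lit 2103364) .nil))))))))),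
   .two (nat_lit 1310720065) (nat_lit 10506731554) (.two (nat_lit 4601151503) (nat_lit 3458203687) (.two (nat_lit 20638072847) (nat_lit 156535619680) (.two (nat_lit 28691136520) (nat_lit 13191086299) (.two (nat_lit 28691136520) (nat_lit 2923430353) (.two (nat_lit 102760453) (nat_lit 21781021184) (.two (nat_lit 1914699781) (nat_lit 10506732489) (.two (nat_lit 41943041) (nat_lit 1411384943) (.two (nat_lit 1048576) (nat_lit 4199216) (.one (nat_lit 4200518) .nil))))))))),
   .two (nat_lit 203423810) (nat_lit 9806282832) (.two (nat_lit 10007609451) (nat_lit 46978301987) (.two (nat_lit 612368399) (nat_lit 157036839008) (.two (nat_lit 176160785) (nat_lit 46978302556) (.two (nat_lit 176160774) (nat_lit 2098001) (.two (nat_lit 2097159) (nat_lit 343934159) (.two (nat_lit 2887778306) (nat_lit 8390123) (.two (nat_lit 2097155) (nat_lit 3028288460) (.two (nat_lit 612368385) (nat_lit 1052560) (.two (nat_lit 1048576) (nat_lit 69209414) (.one (nat_lit 9765393862) .nil)))))))))),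
   .two (nat_lit 2889875523) (nat_lit 165532401780) (.two (nat_lit 272629775) (nat_lit 28093448773) (.two (nat_lit 4194312) (nat_lit 10007610584) (.two (nat_lit 4194308) (nat_lit 10007610320) (.two (nat_lit 13195280389) (nat_lit 135267805) (.two (nat_lit 37748737) (nat_lit 2416971565) (.two (nat_lit 1048576) (nat_lit 8393422) (.one (nat_lit 8394232) .nil))))))),
   .two (nat_lit 13191086117) (nat_lit 156372041837) (.two (nat_lit 1916796947) (nat_lit 183853122111) (.two (nat_lit 11479810063) (nat_lit 3464495296) (.two (nat_lit 239075337) (nat_lit 183853122777) (.two (nat_lit 11479810056) (nat_lit 11484004824) (.two (nat_lit 11479810050) (nat_lit 8390867) (.two (nat_lit 809500677) (nat_lit 813695950) (.two (nat_lit 9768534017) (nat_lit 41947913) (.two (nat_lit 4194304) (nat_lit 41947913) (.one (nat_lit 843060670) .nil))))))))),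
   .two (nat_lit 343932994) (nat_lit 184986632226) (.two (nat_lit 343932994) (nat_lit 21777874979) (.two (nat_lit 8388623) (nat_lit 12047089760) (.two (nat_lit 176160784) (nat_lit 772800870) (.two (nat_lit 8388616) (nat_lit 772801488) (.two (nat_lit 16777223) (nat_lit 9765389585) (.two (nat_lit 8388612) (nat_lit 11577328592) (.two (nat_lit 41943043) (nat_lit 46507493767) (.two (nat_lit 41943041) (nat_lit 3020949895) (.two (nat_lit 16777216) (nat_lit 1053493) (.one (nat_lit 8394234) .nil)))))))))),
   .two (nat_lit 46508540014) (nat_lit 21210595367) (.two (nat_lit 813694991) (nat_lit 158079124051) (.two (nat_lit 285212680) (nat_lit 4601153342) (.two (nat_lit 8388612) (nat_lit 874514618) (.two (nat_lit 8388609) (nat_lit 339742525) (.two (nat_lit 8388608) (nat_lit 4199581) (.one (nat_lit 16782843) .nil)))))),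
   .two (nat_lit 16777252) (nat_lit 3458203779) (.two (nat_lit 184549391) (nat_lit 10942939757) (.two (nat_lit 2889875462) (nat_lit 9934209866) (.two (nat_lit 9768534024) (nat_lit 2954887645) (.two (nat_lit 169869314) (nat_lit 2969570063) (.two (nat_lit 2889875460) (nat_lit 1277166549) (.two (nat_lit 2097153) (nat_lit 16781202) (.two (nat_lit 16777216) (nat_lit 2102070) (.one (nat_lit 2102780) .nil)))))))),
   .two (nat_lit 166130090099) (nat_lit 11614027844) (.two (nat_lit 19130220568) (nat_lit 874512423) (.two (nat_lit 11479810063) (nat_lit 2097350) (.two (nat_lit 1916796936) (nat_lit 9867101140) (.two (nat_lit 9781116935) (nat_lit 2887779549) (.two (nat_lit 11479810052) (nat_lit 9867101140) (.two (nat_lit 9781116931) (nat_lit 47582282701) (.two (nat_lit 9768534017) (nat_lit 606079373) (.two (nat_lit 1048576) (nat_lit 46510641191) (.one (nat_lit 2102781) .nil))))))))),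
   .two (nat_lit 4634706033) (nat_lit 1913651315) (.two (nat_lit 809500687) (nat_lit 1049256) (.two (nat_lit 4194310) (nat_lit 1050496) (.two (nat_lit 19529728008) (nat_lit 675283791) (.two (nat_lit 4194306) (nat_lit 1049567) (.two (nat_lit 11479810051) (nat_lit 1051489) (.two (nat_lit 37748737) (nat_lit 1052563) (.two (nat_lit 16777216) (nat_lit 47547683625) (.one (nat_lit 1054206) .nil)))))))),
   .two (nat_lit 16777280) (nat_lit 3028287555) (.two (nat_lit 8388623) (nat_lit 16777407) (.two (nat_lit 8388616) (nat_lit 10015999209) (.two (nat_lit 8388612) (nat_lit 83887053) (.two (nat_lit 721420292) (nat_lit 1753222327) (.two (nat_lit 41943041) (nat_lit 721424183) (.two (nat_lit 8388608) (nat_lit 788534040) (.one (nat_lit 1426069571) .nil))))))),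
   .two (nat_lit 19127074835) (nat_lit 46409973881) (.two (nat_lit 183845781541) (nat_lit 46409973881) (.two (nat_lit 1212153896) (nat_lit 20737687753) (.two (nat_lit 1212153896) (nat_lit 156465365186) (.two (nat_lit 1782579209) (nat_lit 18925750051) (.two (nat_lit 272629767) (nat_lit 3557818844) (.two (nat_lit 46409973762) (nat_lit 1051648) (.two (nat_lit 10369368067) (nat_lit 4195820) (.two (nat_lit 156367847425) (nat_lit 1053235) (.two (nat_lit 1048576) (nat_lit 4199772) (.one (nat_lit 4200523) .nil)))))))))),
   .two (nat_lit 47555018771) (nat_lit 2987393143) (.two (nat_lit 1417674792) (nat_lit 2316304578) (.two (nat_lit 156976021513) (nat_lit 68159267) (.two (nat_lit 176160770) (nat_lit 1050854) (.two (nat_lit 19529728003) (nat_lit 8389600) (.two (nat_lit 156364701697) (nat_lit 8391055) (.two (nat_lit 1048576) (nat_lit 8392039) (.one (nat_lit 8394241) .nil))))))),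
   .two (nat_lit 11007950915) (nat_lit 21785215088) (.two (nat_lit 158083317784) (nat_lit 46474985830) (.two (nat_lit 20644364296) (nat_lit 19027460936) (.two (nat_lit 159224168453) (nat_lit 3525313483) (.two (nat_lit 612368387) (nat_lit 9766439103) (.two (nat_lit 9768534017) (nat_lit 1914703023) (.two (nat_lit 4194304) (nat_lit 1780486846) (.one (nat_lit 2102222) .nil))))))),
   .two (nat_lit 673185903) (nat_lit 2886729767) (.two (nat_lit 3525312547) (nat_lit 168820997) (.two (nat_lit 28690087960) (nat_lit 9766437065) (.two (nat_lit 1846542353) (nat_lit 19530777224) (.two (nat_lit 166129041416) (nat_lit 4632609617) (.two (nat_lit 4605345799) (nat_lit 11544823058) (.two (nat_lit 10503585797) (nat_lit 2098670) (.two (nat_lit 156367847427) (nat_lit 12115249325) (.two (nat_lit 156367847425) (nat_lit 158144138420) (.two (nat_lit 8388608) (nat_lit 2101299) (.one (nat_lit 2102790) .nil)))))))))),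
   .two (nat_lit 1779433491) (nat_lit 1786773623) (.two (nat_lit 306184257) (nat_lit 174759870501) (.two (nat_lit 4601151503) (nat_lit 2927624778) (.two (nat_lit 13195280392) (nat_lit 2420114671) (.two (nat_lit 8388612) (nat_lit 184989779437) (.two (nat_lit 8388612) (nat_lit 12117345228) (.two (nat_lit 605028353) (nat_lit 847252666) (.two (nat_lit 1048576) (nat_lit 2923434769) (.one (nat_lit 1054215) .nil)))))))),
   .two (nat_lit 176160786) (nat_lit 184419352683) (.two (nat_lit 4634706027) (nat_lit 184993972260) (.two (nat_lit 2961178639) (nat_lit 12050236005) (.two (nat_lit 9866051592) (nat_lit 158079124741) (.two (nat_lit 1343225861) (nat_lit 8390868) (.two (nat_lit 9765388289) (nat_lit 156372045571) (.two (nat_lit 1048576) (nat_lit 183916041232) (.one (nat_lit 1054562) .nil))))))),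
   .two (nat_lit 47588573221) (nat_lit 183845781570) (.two (nat_lit 8388623) (nat_lit 157035790937) (.two (nat_lit 874512393) (nat_lit 11577328857) (.two (nat_lit 8388616) (nat_lit 37314626005) (.two (nat_lit 176160773) (nat_lit 28087158380) (.two (nat_lit 176160773) (nat_lit 855640291) (.two (nat_lit 8388609) (nat_lit 2101055) (.two (nat_lit 8388608) (nat_lit 788533949) (.one (nat_lit 8394595) .nil)))))))),
   .two (nat_lit 47548727332) (nat_lit 165532401775) (.two (nat_lit 47548727311) (nat_lit 9940501322) (.two (nat_lit 47548727304) (nat_lit 847250655) (.two (nat_lit 169869316) (nat_lit 21785217208) (.two (nat_lit 2097153) (nat_lit 8392580) (.two (nat_lit 2097152) (nat_lit 8394079) (.one (nat_lit 1310725613) .nil)))))),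
   .two (nat_lit 9806282819) (nat_lit 183949590640) (.two (nat_lit 13224640536) (nat_lit 9940501126) (.two (nat_lit 4194312) (nat_lit 183853122376) (.two (nat_lit 159216828421) (nat_lit 1786775727) (.two (nat_lit 4194305) (nat_lit 156372044971) (.two (nat_lit 1048576) (nat_lit 8393532) (.one (nat_lit 8394830) .nil)))))),
   .two (nat_lit 8388672) (nat_lit 12047089778) (.two (nat_lit 713031695) (nat_lit 174752531495) (.two (nat_lit 10336862216) (nat_lit 159216829258) (.two (nat_lit 713031682) (nat_lit 1050856) (.two (nat_lit 20637024259) (nat_lit 4605348623) (.two (nat_lit 605028353) (nat_lit 8392597) (.two (nat_lit 8388608) (nat_lit 2102077) (.one (nat_lit 2103376) .nil))))))),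
   .two (nat_lit 8388672) (nat_lit 10452205685) (.two (nat_lit 620757007) (nat_lit 8388799) (.two (nat_lit 620757000) (nat_lit 11517560063) (.two (nat_lit 83886085) (nat_lit 813697213) (.two (nat_lit 16777217) (nat_lit 880808222) (.two (nat_lit 8388608) (nat_lit 159250388487) (.one (nat_lit 11610888225) .nil)))))),
   .two (nat_lit 3028287555) (nat_lit 19142803575) (.two (nat_lit 620757007) (nat_lit 276824426) (.two (nat_lit 8388616) (nat_lit 46523220438) (.two (nat_lit 8388616) (nat_lit 184549593) (.two (nat_lit 16777218) (nat_lit 8390128) (.two (nat_lit 713031683) (nat_lit 156465367904) (.two (nat_lit 41943041) (nat_lit 1053238) (.two (nat_lit 8388608) (nat_lit 166196155905) (.one (nat_lit 1779439691) .nil)))))))),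
   .two (nat_lit 809500691) (nat_lit 185035915382) (.two (nat_lit 117440527) (nat_lit 19026412136) (.two (nat_lit 205520904) (nat_lit 185035915492) (.two (nat_lit 9781116933) (nat_lit 156468512994) (.two (nat_lit 171966469) (nat_lit 13237223652) (.two (nat_lit 34603009) (nat_lit 166144772585) (.two (nat_lit 1048576) (nat_lit 166144772585) (.one (nat_lit 1053655) .nil))))))),
   .two (nat_lit 8388672) (nat_lit 12047089777) (.two (nat_lit 612368399) (nat_lit 1049217) (.two (nat_lit 612368392) (nat_lit 21207450852) (.two (nat_lit 176160770) (nat_lit 2100227) (.two (nat_lit 12114198533) (nat_lit 165526111724) (.two (nat_lit 156365750273) (nat_lit 3020951437) (.two (nat_lit 2097152) (nat_lit 3028292389) (.one (nat_lit 2103378) .nil))))))),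
   .two (nat_lit 3573547028) (nat_lit 1210056837) (.two (nat_lit 1277165605) (nat_lit 16777555) (.two (nat_lit 12047089675) (nat_lit 18926796998) (.two (nat_lit 21208498191) (nat_lit 16778401) (.two (nat_lit 21793603593) (nat_lit 1050685) (.two (nat_lit 18925748232) (nat_lit 10336862436) (.two (nat_lit 11476664322) (nat_lit 2100229) (.two (nat_lit 10369368067) (nat_lit 3573548518) (.two (nat_lit 50331649) (nat_lit 2101815) (.two (nat_lit 1048576) (nat_lit 2102081) (.one (nat_lit 16783443) .nil)))))))))),
   .two (nat_lit 4601151555) (nat_lit 185027526693) (.two (nat_lit 41943055) (nat_lit 156367847615) (.two (nat_lit 41943048) (nat_lit 13191086307) (.two (nat_lit 8388612) (nat_lit 9802089423) (.two (nat_lit 8388612) (nat_lit 13191086307) (.two (nat_lit 8388609) (nat_lit 9768535670) (.two (nat_lit 4194304) (nat_lit 8392759) (.one (nat_lit 4200532) .nil))))))),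
   .two (nat_lit 46508539923) (nat_lit 205521416) (.two (nat_lit 156466413605) (nat_lit 205521416) (.two (nat_lit 158143086616) (nat_lit 169869510) (.two (nat_lit 158143086616) (nat_lit 183846830282) (.two (nat_lit 272629768) (nat_lit 874513231) (.two (nat_lit 4194312) (nat_lit 874512860) (.two (nat_lit 1277165570) (nat_lit 1051654) (.two (nat_lit 37748739) (nat_lit 10437527778) (.two (nat_lit 37748737) (nat_lit 2101581) (.two (nat_lit 4194304) (nat_lit 1054053) (.one (nat_lit 1054805) .nil)))))))))),
   .two (nat_lit 2923429907) (nat_lit 166129041535) (.two (nat_lit 272629771) (nat_lit 166197199048) (.two (nat_lit 28690087944) (nat_lit 46510637284) (.two (nat_lit 20637024258) (nat_lit 4197383) (.two (nat_lit 4601151493) (nat_lit 28790751460) (.two (nat_lit 156367847425) (nat_lit 159251433858) (.two (nat_lit 4194304) (nat_lit 2102082) (.one (nat_lit 1054806) .nil))))))),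
   .two (nat_lit 3560964116) (nat_lit 1913651314) (.two (nat_lit 1410334827) (nat_lit 13195280420) (.two (nat_lit 13195280399) (nat_lit 843055749) (.two (nat_lit 809500680) (nat_lit 46406829317) (.two (nat_lit 46409973765) (nat_lit 1051493) (.two (nat_lit 156372041729) (nat_lit 4198734) (.two (nat_lit 4194304) (nat_lit 1054055) (.one (nat_lit 1054807) .nil))))))),
   .two (nat_lit 183848927250) (nat_lit 713031799) (.two (nat_lit 10343153679) (nat_lit 184987680865) (.two (nat_lit 46984593416) (nat_lit 11578376409) (.two (nat_lit 1276116994) (nat_lit 3565160039) (.two (nat_lit 171966469) (nat_lit 847249638) (.two (nat_lit 605028353) (nat_lit 21210596982) (.two (nat_lit 1048576) (nat_lit 10947135978) (.one (nat_lit 8394840) .nil))))))),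
   .two (nat_lit 2889875477) (nat_lit 13222543480) (.two (nat_lit 46510637122) (nat_lit 156466413605) (.two (nat_lit 10504634383) (nat_lit 1178600072) (.two (nat_lit 10504634376) (nat_lit 1849689384) (.two (nat_lit 2887778306) (nat_lit 4195826) (.two (nat_lit 1178599427) (nat_lit 10907289053) (.two (nat_lit 9781116929) (nat_lit 2101145) (.two (nat_lit 2097152) (nat_lit 4199583) (.one (nat_lit 2102233) .nil)))))))),
   .two (nat_lit 3560964116) (nat_lit 183853121602) (.two (nat_lit 156372041795) (nat_lit 21812477989) (.two (nat_lit 37748751) (nat_lit 18933088613) (.two (nat_lit 37748744) (nat_lit 18933089096) (.two (nat_lit 272629765) (nat_lit 343935787) (.two (nat_lit 4194305) (nat_lit 276828452) (.two (nat_lit 8388608) (nat_lit 2102633) (.one (nat_lit 8394787) .nil))))))),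
   .two (nat_lit 176160786) (nat_lit 2921332857) (.two (nat_lit 37314625650) (nat_lit 46514831397) (.two (nat_lit 2961178639) (nat_lit 20638073029) (.two (nat_lit 1358954511) (nat_lit 202375265) (.two (nat_lit 721420294) (nat_lit 2098004) (.two (nat_lit 1358954504) (nat_lit 202375385) (.two (nat_lit 705691650) (nat_lit 2100070) (.two (nat_lit 1291845635) (nat_lit 1050858) (.two (nat_lit 9766436865) (nat_lit 8393272) (.two (nat_lit 2097152) (nat_lit 8394090) (.one (nat_lit 2103332) .nil)))))))))),
   .two (nat_lit 1358954515) (nat_lit 158179786871) (.two (nat_lit 18928894061) (nat_lit 880803909) (.two (nat_lit 272629775) (nat_lit 28772926032) (.two (nat_lit 343932940) (nat_lit 184550646) (.two (nat_lit 18933088261) (nat_lit 843058174) (.two (nat_lit 822083589) (nat_lit 306185713) (.two (nat_lit 4194305) (nat_lit 16781211) (.two (nat_lit 8388608) (nat_lit 4199788) (.one (nat_lit 16783450) .nil)))))))),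
   .two (nat_lit 184419352643) (nat_lit 37246468211) (.two (nat_lit 19596836879) (nat_lit 19599982950) (.two (nat_lit 19596836872) (nat_lit 156468512019) (.two (nat_lit 183845781508) (nat_lit 184419353083) (.two (nat_lit 183845781508) (nat_lit 19599983568) (.two (nat_lit 34603009) (nat_lit 4634707565) (.two (nat_lit 1048576) (nat_lit 4199238) (.one (nat_lit 4199959) .nil))))))),
   .two (nat_lit 185027526721) (nat_lit 1795162307) (.two (nat_lit 158158815298) (nat_lit 158144135261) (.two (nat_lit 10385096719) (nat_lit 12150899528) (.two (nat_lit 1191182344) (nat_lit 183949592761) (.two (nat_lit 11479810052) (nat_lit 3028289918) (.two (nat_lit 75497475) (nat_lit 156971830445) (.two (nat_lit 37748737) (nat_lit 11551116618) (.two (nat_lit 2097152) (nat_lit 10376713635) (.one (nat_lit 20707283944) .nil)))))))),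
   .two (nat_lit 156372041764) (nat_lit 1916797285) (.two (nat_lit 12117344322) (nat_lit 46414168256) (.two (nat_lit 156372041743) (nat_lit 1916797768) (.two (nat_lit 12117344264) (nat_lit 10343155883) (.two (nat_lit 184419352581) (nat_lit 165532404880) (.two (nat_lit 37748737) (nat_lit 176164872) (.two (nat_lit 4194304) (nat_lit 176165764) (.one (nat_lit 4200557) .nil))))))),
   .two (nat_lit 1847590978) (nat_lit 47555018943) (.two (nat_lit 166130089999) (nat_lit 20644364753) (.two (nat_lit 1847590929) (nat_lit 165532402505) (.two (nat_lit 166130089992) (nat_lit 165532403164) (.two (nat_lit 10504634373) (nat_lit 12054431327) (.two (nat_lit 9766436867) (nat_lit 18933091483) (.two (nat_lit 156365750273) (nat_lit 156372045828) (.two (nat_lit 2097152) (nat_lit 3028293033) (.one (nat_lit 2988447857) .nil)))))))),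
   .two (nat_lit 343932949) (nat_lit 272630430) (.two (nat_lit 339738661) (nat_lit 1317011652) (.two (nat_lit 272629827) (nat_lit 2927624386) (.two (nat_lit 13195280399) (nat_lit 156569174856) (.two (nat_lit 11580473353) (nat_lit 1417675728) (.two (nat_lit 41943048) (nat_lit 171967443) (.two (nat_lit 272629765) (nat_lit 847252629) (.two (nat_lit 4194305) (nat_lit 1216352264) (.two (nat_lit 4194304) (nat_lit 343936414) (.one (nat_lit 4200553) .nil))))))))),
   .two (nat_lit 3560964133) (nat_lit 1753219430) (.two (nat_lit 2889875523) (nat_lit 19604177093) (.two (nat_lit 272629775) (nat_lit 1753220312) (.two (nat_lit 272629768) (nat_lit 184993974443) (.two (nat_lit 4194308) (nat_lit 11618225295) (.two (nat_lit 4194305) (nat_lit 1216352264) (.two (nat_lit 8388608) (nat_lit 1379931024) (.one (nat_lit 158183987401) .nil))))))),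
   .two (nat_lit 9781116964) (nat_lit 19532874085) (.two (nat_lit 157038936131) (nat_lit 11492393152) (.two (nat_lit 9781116943) (nat_lit 19532874568) (.two (nat_lit 9781116936) (nat_lit 157038936571) (.two (nat_lit 166132187144) (nat_lit 3003122638) (.two (nat_lit 10506731525) (nat_lit 10385099920) (.two (nat_lit 16777217) (nat_lit 171971201) (.two (nat_lit 4194304) (nat_lit 11626615684) (.one (nat_lit 16782910) .nil)))))))),
   .two (nat_lit 272629827) (nat_lit 2927624386) (.two (nat_lit 13195280399) (nat_lit 156569174856) (.two (nat_lit 12050235401) (nat_lit 8388839) (.two (nat_lit 272629765) (nat_lit 847252629) (.two (nat_lit 4194305) (nat_lit 1216352264) (.two (nat_lit 4194304) (nat_lit 109055383) (.one (nat_lit 4200553) .nil)))))),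
   .two (nat_lit 843055219) (nat_lit 235929639) (.two (nat_lit 1358954504) (nat_lit 11577328123) (.two (nat_lit 11476664324) (nat_lit 20640170500) (.two (nat_lit 4194304) (nat_lit 1052074) (.one (nat_lit 1053692) .nil)))),
   .two (nat_lit 4605345856) (nat_lit 3021996070) (.two (nat_lit 606076936) (nat_lit 9806284252) (.two (nat_lit 169869316) (nat_lit 19596837897) (.two (nat_lit 4194304) (nat_lit 303043999) (.one (nat_lit 1053693) .nil)))),
   .two (nat_lit 183946444865) (nat_lit 4634706111) (.two (nat_lit 8388623) (nat_lit 135267148) (.two (nat_lit 41943056) (nat_lit 20738736356) (.two (nat_lit 183845781512) (nat_lit 9768535515) (.two (nat_lit 746586117) (nat_lit 28089256318) (.two (nat_lit 2097155) (nat_lit 159224171683) (.two (nat_lit 156364701697) (nat_lit 2101255) (.two (nat_lit 2097152) (nat_lit 3028293018) (.one (nat_lit 2102271) .nil)))))))),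
   .two (nat_lit 47548727360) (nat_lit 46477082818) (.two (nat_lit 157038936079) (nat_lit 1310720841) (.two (nat_lit 157036838920) (nat_lit 9802089947) (.two (nat_lit 46407876612) (nat_lit 166132190360) (.two (nat_lit 2097153) (nat_lit 165528209058) (.two (nat_lit 2097152) (nat_lit 159219977623) (.one (nat_lit 4199425) .nil)))))),
   .two (nat_lit 12114198548) (nat_lit 10336862875) (.two (nat_lit 2887778319) (nat_lit 1212154073) (.two (nat_lit 4194312) (nat_lit 10504634599) (.two (nat_lit 9933160453) (nat_lit 69207714) (.two (nat_lit 4194305) (nat_lit 69207714) (.two (nat_lit 1048576) (nat_lit 28087159320) (.one (nat_lit 2102274) .nil)))))),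
   .two (nat_lit 606076947) (nat_lit 28086108742) (.two (nat_lit 306184258) (nat_lit 303038559) (.two (nat_lit 2954887183) (nat_lit 202375640) (.two (nat_lit 2954887183) (nat_lit 12047089881) (.two (nat_lit 2954887176) (nat_lit 3560965075) (.two (nat_lit 4194312) (nat_lit 18926797028) (.two (nat_lit 1913651205) (nat_lit 159217878634) (.two (nat_lit 9933160453) (nat_lit 337643123) (.two (nat_lit 606076929) (nat_lit 20640174104) (.two (nat_lit 1048576) (nat_lit 35655069) (.one (nat_lit 1053699) .nil)))))))))),
   .two (nat_lit 11479810066) (nat_lit 1745879622) (.two (nat_lit 806354981) (nat_lit 843055295) (.two (nat_lit 184986632256) (nat_lit 1746928124) (.two (nat_lit 11479810059) (nat_lit 1745879881) (.two (nat_lit 809500687) (nat_lit 2886730200) (.two (nat_lit 11479810054) (nat_lit 1745880540) (.two (nat_lit 809500680) (nat_lit 183946445779) (.two (nat_lit 2887778306) (nat_lit 46406831278) (.two (nat_lit 1916796933) (nat_lit 184986633834) (.two (nat_lit 9766436865) (nat_lit 608176613) (.two (nat_lit 1048576) (nat_lit 11611934857) (.one (nat_lit 184987685867) .nil))))))))))),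
   .two (nat_lit 184549442) (nat_lit 1417674790) (.two (nat_lit 184549384) (nat_lit 10007609851) (.two (nat_lit 16777221) (nat_lit 880804873) (.two (nat_lit 8388608) (nat_lit 16781457) (.one (nat_lit 8394304) .nil)))),
   .two (nat_lit 11543773202) (nat_lit 11580474007) (.two (nat_lit 205520911) (nat_lit 203424252) (.two (nat_lit 169869320) (nat_lit 9768534247) (.two (nat_lit 184986632197) (nat_lit 10001320425) (.two (nat_lit 34603009) (nat_lit 10001320425) (.two (nat_lit 1048576) (nat_lit 156367850906) (.one (nat_lit 4199428) .nil)))))),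
   .two (nat_lit 203423810) (nat_lit 165532401702) (.two (nat_lit 203423810) (nat_lit 3464495200) (.two (nat_lit 203423759) (nat_lit 47555018971) (.two (nat_lit 203423752) (nat_lit 159224168955) (.two (nat_lit 203423752) (nat_lit 3464496077) (.two (nat_lit 2954887173) (nat_lit 47555019780) (.two (nat_lit 2954887173) (nat_lit 10544482787) (.two (nat_lit 2097153) (nat_lit 645925347) (.two (nat_lit 16777216) (nat_lit 8392851) (.one (nat_lit 11611936988) .nil))))))))),
   .two (nat_lit 8388672) (nat_lit 158143086957) (.two (nat_lit 2961178731) (nat_lit 673185889) (.two (nat_lit 2961178639) (nat_lit 47582282568) (.two (nat_lit 2961178632) (nat_lit 47582283227) (.two (nat_lit 638582789) (nat_lit 673189025) (.two (nat_lit 605028353) (nat_lit 1954550432) (.two (nat_lit 1048576) (nat_lit 13222546845) (.one (nat_lit 336598019) .nil))))))),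
   .two (nat_lit 184993972291) (nat_lit 1913651296) (.two (nat_lit 184993972259) (nat_lit 11510219114) (.two (nat_lit 184416206863) (nat_lit 158083318736) (.two (nat_lit 184416206865) (nat_lit 12054430536) (.two (nat_lit 183845781512) (nat_lit 310379467) (.two (nat_lit 270532615) (nat_lit 11618224309) (.two (nat_lit 13187940357) (nat_lit 3028290020) (.two (nat_lit 2097155) (nat_lit 2424310931) (.two (nat_lit 2097153) (nat_lit 156573371721) (.two (nat_lit 1048576) (nat_lit 2102176) (.one (nat_lit 2102851) .nil)))))))))),
   .two (nat_lit 9934209091) (nat_lit 721420326) (.two (nat_lit 9934209091) (nat_lit 16777312) (.two (nat_lit 721420303) (nat_lit 2954887387) (.two (nat_lit 721420296) (nat_lit 9934209531) (.two (nat_lit 166130089992) (nat_lit 156569174985) (.two (nat_lit 50331653) (nat_lit 3558868579) (.two (nat_lit 50331651) (nat_lit 9768536444) (.two (nat_lit 4194305) (nat_lit 889195935) (.two (nat_lit 16777216) (nat_lit 2102738) (.one (nat_lit 50337387) .nil))))))))),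
   .two (nat_lit 16777280) (nat_lit 165532401761) (.two (nat_lit 16777231) (nat_lit 165532401881) (.two (nat_lit 2961178632) (nat_lit 620758491) (.two (nat_lit 209715205) (nat_lit 158192372892) (.two (nat_lit 8388609) (nat_lit 855641423) (.two (nat_lit 8388608) (nat_lit 1052801) (.one (nat_lit 34608670) .nil)))))),
   .two (nat_lit 11584667685) (nat_lit 19532873766) (.two (nat_lit 612368418) (nat_lit 272629956) (.two (nat_lit 8388623) (nat_lit 184419352795) (.two (nat_lit 8388616) (nat_lit 19599983099) (.two (nat_lit 8388616) (nat_lit 184419353552) (.two (nat_lit 8388612) (nat_lit 12117345284) (.two (nat_lit 8388612) (nat_lit 12117345888) (.two (nat_lit 620756993) (nat_lit 8391149) (.two (nat_lit 4194304) (nat_lit 8393633) (.one (nat_lit 8394905) .nil))))))))),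
   .two (nat_lit 4601151552) (nat_lit 157036839103) (.two (nat_lit 822083599) (nat_lit 4632609610) (.two (nat_lit 10504634376) (nat_lit 156367848923) (.two (nat_lit 2887778308) (nat_lit 10909387932) (.two (nat_lit 4194305) (nat_lit 157051523782) (.two (nat_lit 4194304) (nat_lit 159232562056) (.one (nat_lit 2103453) .nil)))))),
   .two (nat_lit 8388626) (nat_lit 306184860) (.two (nat_lit 8388672) (nat_lit 171966658) (.two (nat_lit 13203669007) (nat_lit 9768534856) (.two (nat_lit 13203669000) (nat_lit 9768535515) (.two (nat_lit 16777220) (nat_lit 1277168783) (.two (nat_lit 16777217) (nat_lit 2101255) (.two (nat_lit 4194304) (nat_lit 813698476) (.one (nat_lit 4200606) .nil))))))),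
   .two (nat_lit 3003121684) (nat_lit 10370416997) (.two (nat_lit 8388672) (nat_lit 1346371781) (.two (nat_lit 183949590593) (nat_lit 2894069954) (.two (nat_lit 13203669007) (nat_lit 1178600264) (.two (nat_lit 13203669000) (nat_lit 10372516050) (.two (nat_lit 16777220) (nat_lit 606080164) (.two (nat_lit 16777217) (nat_lit 4199114) (.two (nat_lit 4194304) (nat_lit 209720218) (.one (nat_lit 4200607) .nil)))))))),
   .two (nat_lit 8388626) (nat_lit 185021235239) (.two (nat_lit 12155093029) (nat_lit 13224640608) (.two (nat_lit 4634705958) (nat_lit 11477712993) (.two (nat_lit 276824075) (nat_lit 272630234) (.two (nat_lit 813694991) (nat_lit 4634706395) (.two (nat_lit 4601151496) (nat_lit 46407877589) (.two (nat_lit 16777223) (nat_lit 9934210523) (.two (nat_lit 46978301957) (nat_lit 9873393263) (.two (nat_lit 16777219) (nat_lit 1277168783) (.two (nat_lit 16777217) (nat_lit 2101255) (.two (nat_lit 16777216) (nat_lit 2954890654) (.one (nat_lit 2102857) .nil))))))))))),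
   .two (nat_lit 8388644) (nat_lit 165526110803) (.two (nat_lit 8388672) (nat_lit 184986632384) (.two (nat_lit 612368399) (nat_lit 168822006) (.two (nat_lit 176160774) (nat_lit 638585005) (.two (nat_lit 612368392) (nat_lit 2953840859) (.two (nat_lit 176160772) (nat_lit 873465449) (.two (nat_lit 21207449605) (nat_lit 11484005999) (.two (nat_lit 2097153) (nat_lit 1051986) (.two (nat_lit 1048576) (nat_lit 8394196) (.one (nat_lit 1054880) .nil))))))))),
   .two (nat_lit 50331715) (nat_lit 880804031) (.two (nat_lit 8388623) (nat_lit 16777435) (.two (nat_lit 8388616) (nat_lit 50332155) (.two (nat_lit 721420296) (nat_lit 3028288461) (.two (nat_lit 620756997) (nat_lit 3028288521) (.two (nat_lit 620756995) (nat_lit 10007613239) (.two (nat_lit 620756993) (nat_lit 8392736) (.two (nat_lit 16777216) (nat_lit 8394200) (.one (nat_lit 8394917) .nil)))))))),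
   .two (nat_lit 21785215086) (nat_lit 352321574) (.two (nat_lit 612368392) (nat_lit 721420795) (.two (nat_lit 176160773) (nat_lit 166245434376) (.two (nat_lit 1048576) (nat_lit 83891107) (.one (nat_lit 16783526) .nil)))),
   .two (nat_lit 46414168082) (nat_lit 157036839542) (.two (nat_lit 34603045) (nat_lit 158083317855) (.two (nat_lit 183853121547) (nat_lit 10906239446) (.two (nat_lit 46407876623) (nat_lit 13195280604) (.two (nat_lit 183845781510) (nat_lit 184417257078) (.two (nat_lit 46407876616) (nat_lit 3464495333) (.two (nat_lit 713031682) (nat_lit 28791803065) (.two (nat_lit 183853121541) (nat_lit 156566029927) (.two (nat_lit 612368385) (nat_lit 2102036) (.two (nat_lit 1048576) (nat_lit 2102181) (.one (nat_lit 8394317) .nil)))))))))),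
   .two (nat_lit 272629778) (nat_lit 10343154021) (.two (nat_lit 272629796) (nat_lit 276824906) (.two (nat_lit 18933088368) (nat_lit 157038936159) (.two (nat_lit 272629775) (nat_lit 276824906) (.two (nat_lit 4194312) (nat_lit 10343155163) (.two (nat_lit 4194308) (nat_lit 11517561317) (.two (nat_lit 4194308) (nat_lit 10343155306) (.two (nat_lit 37748737) (nat_lit 46977258106) (.two (nat_lit 1048576) (nat_lit 8393638) (.one (nat_lit 4200615) .nil))))))))),
   .two (nat_lit 19029557363) (nat_lit 166230753318) (.two (nat_lit 1343225863) (nat_lit 2098136) (.two (nat_lit 68157443) (nat_lit 2098810) (.two (nat_lit 1048576) (nat_lit 4199335) (.one (nat_lit 4200020) .nil)))),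
   .two (nat_lit 8388626) (nat_lit 608174689) (.two (nat_lit 8388672) (nat_lit 11543773381) (.two (nat_lit 8388672) (nat_lit 2923430082) (.two (nat_lit 20637024275) (nat_lit 1178600264) (.two (nat_lit 13191086095) (nat_lit 8389083) (.two (nat_lit 806354953) (nat_lit 183848928213) (.two (nat_lit 276824072) (nat_lit 159219975648) (.two (nat_lit 19596836869) (nat_lit 1283458671) (.two (nat_lit 18925748227) (nat_lit 20745030812) (.two (nat_lit 156364701697) (nat_lit 158179789285) (.two (nat_lit 8388608) (nat_lit 1053609) (.one (nat_lit 168827039) .nil))))))))))),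
   .two (nat_lit 620757059) (nat_lit 166203490343) (.two (nat_lit 47555018865) (nat_lit 352321632) (.two (nat_lit 176160783) (nat_lit 184549595) (.two (nat_lit 176160776) (nat_lit 620757499) (.two (nat_lit 50331655) (nat_lit 4030728575) (.two (nat_lit 8388613) (nat_lit 156581757960) (.two (nat_lit 50331651) (nat_lit 4030728575) (.two (nat_lit 50331649) (nat_lit 13224643922) (.two (nat_lit 2097152) (nat_lit 165528212372) (.one (nat_lit 4200620) .nil))))))))),
   .two (nat_lit 8388674) (nat_lit 28086108198) (.two (nat_lit 176160835) (nat_lit 4598005856) (.two (nat_lit 612368418) (nat_lit 13187940917) (.two (nat_lit 8388623) (nat_lit 13188989147) (.two (nat_lit 8388623) (nat_lit 156380431312) (.two (nat_lit 16777224) (nat_lit 11543774683) (.two (nat_lit 8388612) (nat_lit 10015999597) (.two (nat_lit 16777220) (nat_lit 269485663) (.two (nat_lit 16777217) (nat_lit 269486562) (.two (nat_lit 8388608) (nat_lit 1053610) (.one (nat_lit 1054294) .nil)))))))))),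
   .two (nat_lit 185020186643) (nat_lit 4194505) (.two (nat_lit 21207449637) (nat_lit 37748936) (.two (nat_lit 185020186643) (nat_lit 4195151) (.two (nat_lit 21777874959) (nat_lit 4194780) (.two (nat_lit 705691654) (nat_lit 9969861586) (.two (nat_lit 21777874952) (nat_lit 13191086308) (.two (nat_lit 705691650) (nat_lit 19130223799) (.two (nat_lit 705691652) (nat_lit 339740261) (.two (nat_lit 34603009) (nat_lit 306188991) (.two (nat_lit 1048576) (nat_lit 3024098291) (.one (nat_lit 3024098291) .nil)))))))))),
   .two (nat_lit 183848927250) (nat_lit 343933551) (.two (nat_lit 41943055) (nat_lit 158079123674) (.two (nat_lit 41943048) (nat_lit 843055332) (.two (nat_lit 2889875458) (nat_lit 8391875) (.two (nat_lit 4194305) (nat_lit 880807332) (.two (nat_lit 4194304) (nat_lit 880807332) (.one (nat_lit 4200627) .nil)))))),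
   .two (nat_lit 75497581) (nat_lit 159266111527) (.two (nat_lit 16777224) (nat_lit 35653818) (.two (nat_lit 184549379) (nat_lit 4198205) (.two (nat_lit 4194304) (nat_lit 8393647) (.one (nat_lit 8393748) .nil)))),
   .two (nat_lit 352321603) (nat_lit 8388799) (.two (nat_lit 184549391) (nat_lit 101712712) (.two (nat_lit 8388616) (nat_lit 28086108667) (.two (nat_lit 184549384) (nat_lit 713032653) (.two (nat_lit 176160773) (nat_lit 168821768) (.two (nat_lit 83886083) (nat_lit 68161300) (.two (nat_lit 16777217) (nat_lit 880807968) (.two (nat_lit 16777216) (nat_lit 880809432) (.one (nat_lit 880810149) .nil)))))))),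
   .two (nat_lit 1212153923) (nat_lit 157043130406) (.two (nat_lit 18933088368) (nat_lit 13191086176) (.two (nat_lit 156372041743) (nat_lit 11513364699) (.two (nat_lit 46984593416) (nat_lit 1212154363) (.two (nat_lit 4194311) (nat_lit 11559502800) (.two (nat_lit 9933160453) (nat_lit 11559502852) (.two (nat_lit 9933160453) (nat_lit 11559503456) (.two (nat_lit 8388609) (nat_lit 16780726) (.two (nat_lit 16777216) (nat_lit 4199900) (.one (nat_lit 16783541) .nil))))))))),
   .two (nat_lit 183946444820) (nat_lit 11492393057) (.two (nat_lit 9781116943) (nat_lit 11577327845) (.two (nat_lit 9781116936) (nat_lit 11577327845) (.two (nat_lit 1191182341) (nat_lit 3020949108) (.two (nat_lit 16777217) (nat_lit 10000272717) (.two (nat_lit 16777216) (nat_lit 1343229350) (.one (nat_lit 1054902) .nil)))))),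
   .two (nat_lit 10538189157) (nat_lit 9974054950) (.two (nat_lit 158150426631) (nat_lit 2098796) (.two (nat_lit 2097152) (nat_lit 8393705) .nil)),
   .two (nat_lit 16777411) (nat_lit 2927624231) (.two (nat_lit 16777250) (nat_lit 9940501322) (.two (nat_lit 165532401679) (nat_lit 50332155) (.two (nat_lit 21214789640) (nat_lit 11559502855) (.two (nat_lit 21214789640) (nat_lit 11559503460) (.two (nat_lit 1283457027) (nat_lit 11559505925) (.two (nat_lit 50331649) (nat_lit 166232855522) (.two (nat_lit 4194304) (nat_lit 18941481152) (.one (nat_lit 608179802) .nil)))))))),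
   .two (nat_lit 16777309) (nat_lit 2927624231) (.two (nat_lit 8388804) (nat_lit 10015998143) (.two (nat_lit 1216348197) (nat_lit 50331867) (.two (nat_lit 620757026) (nat_lit 8389454) (.two (nat_lit 16777231) (nat_lit 142607977) (.two (nat_lit 28093448207) (nat_lit 721421261) (.two (nat_lit 21214789640) (nat_lit 183861511777) (.two (nat_lit 21214789640) (nat_lit 1191183967) (.two (nat_lit 158150426629) (nat_lit 156380432867) (.two (nat_lit 158150426629) (nat_lit 1191184866) (.two (nat_lit 612368385) (nat_lit 9814675648) (.two (nat_lit 4194304) (nat_lit 16781519) (.one (nat_lit 608180411) .nil)))))))))))),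
   .two (nat_lit 16777309) (nat_lit 1753219110) (.two (nat_lit 16777407) (nat_lit 158083317955) (.two (nat_lit 16777280) (nat_lit 158083317979) (.two (nat_lit 1753219110) (nat_lit 3539993045) (.two (nat_lit 16777231) (nat_lit 28093448699) (.two (nat_lit 12054429711) (nat_lit 654312393) (.two (nat_lit 12054429704) (nat_lit 20652754529) (.two (nat_lit 12054429704) (nat_lit 10385098335) (.two (nat_lit 16777220) (nat_lit 2894072296) (.two (nat_lit 184993972229) (nat_lit 10385099234) (.two (nat_lit 41943041) (nat_lit 855642307) (.two (nat_lit 8388608) (nat_lit 184553679) (.one (nat_lit 9940506811) .nil)))))))))))),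
   .two (nat_lit 46980399201) (nat_lit 822083775) (.two (nat_lit 1849688083) (nat_lit 11492393800) (.two (nat_lit 10338959397) (nat_lit 11492393800) (.two (nat_lit 285212736) (nat_lit 46980399321) (.two (nat_lit 19532873743) (nat_lit 822085083) (.two (nat_lit 19532873736) (nat_lit 822085226) (.two (nat_lit 2902458376) (nat_lit 3560965733) (.two (nat_lit 157038936069) (nat_lit 1358957026) (.two (nat_lit 157038936069) (nat_lit 285216158) (.two (nat_lit 9768534017) (nat_lit 16782209) (.two (nat_lit 4194304) (nat_lit 156380434622) (.one (nat_lit 620762718) .nil))))))))))),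
   .two (nat_lit 184986632383) (nat_lit 21827158054) (.two (nat_lit 339738689) (nat_lit 83886299) (.two (nat_lit 4194319) (nat_lit 721420797) (.two (nat_lit 822083592) (nat_lit 156367848454) (.two (nat_lit 12129927175) (nat_lit 9969863141) (.two (nat_lit 19530776581) (nat_lit 156569176551) (.two (nat_lit 2097153) (nat_lit 4197795) (.two (nat_lit 16777216) (nat_lit 2102250) (.one (nat_lit 47548732440) .nil)))))))),
   .two (nat_lit 2954887262) (nat_lit 10540285990) (.two (nat_lit 169869377) (nat_lit 11618222299) (.two (nat_lit 4194319) (nat_lit 1417675259) (.two (nat_lit 37748744) (nat_lit 1216349192) (.two (nat_lit 159224168455) (nat_lit 183949593773) (.two (nat_lit 708837381) (nat_lit 46406830568) (.two (nat_lit 2097153) (nat_lit 158649553094) (.two (nat_lit 4194304) (nat_lit 8394280) (.one (nat_lit 1277171296) .nil)))))))),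
   .two (nat_lit 4613734465) (nat_lit 2889875673) (.two (nat_lit 4613734415) (nat_lit 10538189028) (.two (nat_lit 16777220) (nat_lit 12617516706) (.two (nat_lit 16777217) (nat_lit 2886732318) (.one (nat_lit 1054919) .nil)))),
   .two (nat_lit 285212710) (nat_lit 47555019386) (.two (nat_lit 16777224) (nat_lit 184993973255) (.two (nat_lit 4194304) (nat_lit 16782317) .nil)),
   .two (nat_lit 46474985582) (nat_lit 4601151716) (.two (nat_lit 10504634383) (nat_lit 4601151716) (.two (nat_lit 639631365) (nat_lit 171969869) (.two (nat_lit 156367847425) (nat_lit 2100644) (.one (nat_lit 4200652) .nil)))),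
   .two (nat_lit 176160806) (nat_lit 285213266) (.two (nat_lit 276824071) (nat_lit 16778249) (.two (nat_lit 8388608) (nat_lit 16782895) .nil)),
   .two (nat_lit 46407876628) (nat_lit 46510637276) (.two (nat_lit 3458203667) (nat_lit 9768534243) (.two (nat_lit 183861510149) (nat_lit 171969052) (.two (nat_lit 16777217) (nat_lit 2099740) (.one (nat_lit 2103507) .nil)))),
   .two (nat_lit 2097351) (nat_lit 10540285990) (.two (nat_lit 1343225863) (nat_lit 4195952) (.two (nat_lit 1048576) (nat_lit 2102838) .nil)),
   .two (nat_lit 183848927270) (nat_lit 46984594042) (.two (nat_lit 183848927240) (nat_lit 156539814920) (.two (nat_lit 4194304) (nat_lit 243275295) .nil)),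
   .two (nat_lit 11014242342) (nat_lit 337641671) (.two (nat_lit 1913651208) (nat_lit 4638901872) (.two (nat_lit 16777216) (nat_lit 1054266) .nil)),
   .two (nat_lit 272629781) (nat_lit 166130090201) (.two (nat_lit 272629771) (nat_lit 4599054564) (.two (nat_lit 4194306) (nat_lit 46474988010) (.two (nat_lit 4194305) (nat_lit 13222546840) (.one (nat_lit 2103512) .nil)))),
   .two (nat_lit 184549394) (nat_lit 10343155163) (.two (nat_lit 176160770) (nat_lit 16779802) (.one (nat_lit 16782980) .nil)),
   .two (nat_lit 1291845746) (nat_lit 11007951076) (.two (nat_lit 176160770) (nat_lit 16779803) (.one (nat_lit 16782981) .nil)),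
   .two (nat_lit 156365750291) (nat_lit 654312924) (.two (nat_lit 46407876610) (nat_lit 16779804) (.one (nat_lit 117446265) .nil)),
   .two (nat_lit 41943060) (nat_lit 174701150718) (.two (nat_lit 713031682) (nat_lit 16780704) (.one (nat_lit 16783593) .nil)),
   .two (nat_lit 4601151552) (nat_lit 9781117155) (.two (nat_lit 4194306) (nat_lit 16779805) (.one (nat_lit 16783594) .nil)),
   .two (nat_lit 184549394) (nat_lit 11543773412) (.two (nat_lit 11476664324) (nat_lit 822086173) (.one (nat_lit 1054956) .nil)),
   .two (nat_lit 28087156755) (nat_lit 4598005990) (.two (nat_lit 11476664322) (nat_lit 2101381) (.one (nat_lit 2103534) .nil)),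
   .two (nat_lit 28772925459) (nat_lit 673187291) (.two (nat_lit 169869314) (nat_lit 16779806) (.one (nat_lit 37262202493) .nil)),
   .two (nat_lit 101711891) (nat_lit 9781117155) (.two (nat_lit 721420290) (nat_lit 2101382) (.one (nat_lit 16783600) .nil)),
   .two (nat_lit 8388626) (nat_lit 13224640741) (.two (nat_lit 166130089986) (nat_lit 11014245784) (.one (nat_lit 11014248673) .nil)),
   .two (nat_lit 185035915302) (nat_lit 135267144) (.two (nat_lit 185035915302) (nat_lit 2316304891) (.two (nat_lit 754974736) (nat_lit 1779434504) (.two (nat_lit 2097159) (nat_lit 156380432867) (.two (nat_lit 184986632197) (nat_lit 156380433875) (.two (nat_lit 34603009) (nat_lit 156380433875) (.two (nat_lit 1048576) (nat_lit 2102890) (.one (nat_lit 50338014) .nil))))))),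
   .two (nat_lit 9940500499) (nat_lit 156533522660) (.two (nat_lit 184549378) (nat_lit 2100642) (.one (nat_lit 2103537) .nil)),
   .two (nat_lit 183946444820) (nat_lit 1914700004) (.two (nat_lit 11476664322) (nat_lit 12115250593) (.one (nat_lit 4028635362) .nil)),
   .two (nat_lit 12054429711) (nat_lit 156465365108) (.two (nat_lit 47550824461) (nat_lit 156372043227) (.two (nat_lit 1048576) (nat_lit 165532404891) (.one (nat_lit 8393990) .nil))),
   .two (nat_lit 12117344271) (nat_lit 1846542403) (.two (nat_lit 158143086600) (nat_lit 71305083) (.two (nat_lit 606076929) (nat_lit 37316726556) (.one (nat_lit 4200142) .nil))),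
   .two (nat_lit 10343153679) (nat_lit 174686470710) (.two (nat_lit 169869316) (nat_lit 4034922686) (.two (nat_lit 2097152) (nat_lit 8393785) (.one (nat_lit 46407882409) .nil))),
   .two (nat_lit 37748751) (nat_lit 9781118427) (.two (nat_lit 2097152) (nat_lit 10519317667) (.one (nat_lit 2103548) .nil)),
   .two (nat_lit 8388623) (nat_lit 2987393154) (.two (nat_lit 713031688) (nat_lit 158646403430) (.two (nat_lit 713031684) (nat_lit 20704134355) (.two (nat_lit 34603009) (nat_lit 9940503311) (.two (nat_lit 8388608) (nat_lit 1054344) (.one (nat_lit 1054973) .nil))))),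
   .two (nat_lit 10343153679) (nat_lit 3525312646) (.two (nat_lit 159217877005) (nat_lit 352322125) (.two (nat_lit 809500677) (nat_lit 1426064645) (.two (nat_lit 606076929) (nat_lit 11618225674) (.two (nat_lit 4194304) (nat_lit 16780511) (.one (nat_lit 16782707) .nil))))),
   .two (nat_lit 9948889103) (nat_lit 46473937157) (.two (nat_lit 11543773192) (nat_lit 9948889676) (.two (nat_lit 705691652) (nat_lit 11593058105) (.two (nat_lit 9781116929) (nat_lit 4199453) (.two (nat_lit 1048576) (nat_lit 16782699) (.one (nat_lit 1054969) .nil))))),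
   .two (nat_lit 1913651215) (nat_lit 46980399169) (.two (nat_lit 1175453704) (nat_lit 19532874304) (.two (nat_lit 156367847429) (nat_lit 11610883371) (.two (nat_lit 37748737) (nat_lit 11476666612) (.two (nat_lit 8388608) (nat_lit 1053740) (.one (nat_lit 1054100) .nil))))),
   .two (nat_lit 158144135183) (nat_lit 37313577027) (.two (nat_lit 10370416648) (nat_lit 620757350) (.two (nat_lit 639631365) (nat_lit 1051206) (.two (nat_lit 9765388289) (nat_lit 2101476) (.two (nat_lit 1048576) (nat_lit 16781896) (.one (nat_lit 16782742) .nil))))),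
   .two (nat_lit 272629824) (nat_lit 166130090225) (.two (nat_lit 9768534031) (nat_lit 47548727487) (.two (nat_lit 205520904) (nat_lit 2988442833) (.two (nat_lit 46407876612) (nat_lit 2956986547) (.two (nat_lit 9768534017) (nat_lit 1052391) (.two (nat_lit 1048576) (nat_lit 2102925) (.one (nat_lit 4200704) .nil)))))),
   .two (nat_lit 1779433539) (nat_lit 2954887285) (.two (nat_lit 739246095) (nat_lit 2097742) (.two (nat_lit 2961178632) (nat_lit 2098973) (.two (nat_lit 2954887173) (nat_lit 8391427) (.two (nat_lit 156364701697) (nat_lit 840961770) (.two (nat_lit 1048576) (nat_lit 8394382) (.one (nat_lit 1054977) .nil)))))),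
   .two (nat_lit 2988441667) (nat_lit 18933088368) (.two (nat_lit 156372041743) (nat_lit 28772926692) (.two (nat_lit 46414168068) (nat_lit 10437527730) (.two (nat_lit 2097153) (nat_lit 285217397) (.one (nat_lit 2103074) .nil)))),
   .two (nat_lit 8388672) (nat_lit 184986632301) (.two (nat_lit 21777874959) (nat_lit 41943231) (.two (nat_lit 165525061640) (nat_lit 639632200) (.two (nat_lit 1176502277) (nat_lit 1052139) (.two (nat_lit 16777217) (nat_lit 705695467) (.two (nat_lit 2097152) (nat_lit 8393833) (.one (nat_lit 2103554) .nil)))))),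
   .two (nat_lit 8388672) (nat_lit 1410334836) (.two (nat_lit 8388623) (nat_lit 3560964688) (.two (nat_lit 276824072) (nat_lit 183949591760) (.two (nat_lit 159216828421) (nat_lit 10947136254) (.two (nat_lit 16777217) (nat_lit 3020950678) (.two (nat_lit 1048576) (nat_lit 8393358) (.one (nat_lit 8395011) .nil)))))),
   .two (nat_lit 47548727360) (nat_lit 156569174123) (.two (nat_lit 2889875471) (nat_lit 13222543950) (.two (nat_lit 1178599432) (nat_lit 2921333992) (.two (nat_lit 2889875460) (nat_lit 2099973) (.two (nat_lit 2097153) (nat_lit 4198125) (.two (nat_lit 2097152) (nat_lit 4199530) (.one (nat_lit 2103083) .nil)))))),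
   .two (nat_lit 20737687659) (nat_lit 337641589) (.two (nat_lit 158144135183) (nat_lit 159250383413) (.two (nat_lit 166129041416) (nat_lit 183949591767) (.two (nat_lit 158143086597) (nat_lit 2099975) (.two (nat_lit 41943041) (nat_lit 1052949) (.two (nat_lit 1048576) (nat_lit 2102927) (.one (nat_lit 2103556) .nil)))))),
   .two (nat_lit 11610882113) (nat_lit 46414168627) (.two (nat_lit 272629768) (nat_lit 156466414846) (.two (nat_lit 4194308) (nat_lit 12618567150) (.two (nat_lit 156364701697) (nat_lit 157036843734) (.one (nat_lit 1055026) .nil)))),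
   .two (nat_lit 285212739) (nat_lit 47555018865) (.two (nat_lit 176160783) (nat_lit 822085835) (.two (nat_lit 8388609) (nat_lit 10955526767) (.one (nat_lit 8394695) .nil))),
   .two (nat_lit 285212737) (nat_lit 306184257) (.two (nat_lit 4601151503) (nat_lit 822083775) (.two (nat_lit 4601151496) (nat_lit 166245434598) (.two (nat_lit 4194308) (nat_lit 1929382703) (.two (nat_lit 612368385) (nat_lit 47550829186) (.one (nat_lit 4200755) .nil))))),
   .two (nat_lit 9802088555) (nat_lit 9915334787) (.two (nat_lit 822083599) (nat_lit 11513365724) (.two (nat_lit 2889875460) (nat_lit 352324761) (.two (nat_lit 2097152) (nat_lit 3024097908) (.one (nat_lit 16783306) .nil)))),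
   .two (nat_lit 46409973826) (nat_lit 645922949) (.two (nat_lit 822083599) (nat_lit 11513365046) (.two (nat_lit 2889875464) (nat_lit 855639334) (.two (nat_lit 159224168453) (nat_lit 10003417270) (.two (nat_lit 612368385) (nat_lit 10003418286) (.two (nat_lit 8388608) (nat_lit 4200105) (.one (nat_lit 713037695) .nil)))))),
   .two (nat_lit 4605345858) (nat_lit 184419352689) (.two (nat_lit 183848927247) (nat_lit 156372043227) (.two (nat_lit 37748737) (nat_lit 46414172824) (.one (nat_lit 8394700) .nil))),
   .two (nat_lit 20738736238) (nat_lit 1947205770) (.two (nat_lit 158144135183) (nat_lit 1947205823) (.two (nat_lit 158144135176) (nat_lit 9866052841) (.two (nat_lit 28758245381) (nat_lit 1947208546) (.two (nat_lit 34603009) (nat_lit 2101597) (.two (nat_lit 1048576) (nat_lit 2102450) (.one (nat_lit 269490024) .nil)))))),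
   .two (nat_lit 4605345859) (nat_lit 10452205685) (.two (nat_lit 620757007) (nat_lit 343933291) (.two (nat_lit 101711885) (nat_lit 184550615) (.two (nat_lit 4605345797) (nat_lit 20753418448) (.two (nat_lit 8388609) (nat_lit 16781662) (.two (nat_lit 8388608) (nat_lit 183845786311) (.one (nat_lit 1054583) .nil)))))),
   .two (nat_lit 184549441) (nat_lit 156569174124) (.two (nat_lit 9768534031) (nat_lit 16777792) (.two (nat_lit 9881780232) (nat_lit 4196258) (.two (nat_lit 166144770053) (nat_lit 4197908) (.two (nat_lit 9781116929) (nat_lit 4198751) (.two (nat_lit 8388608) (nat_lit 16782515) (.one (nat_lit 16783668) .nil)))))),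
   .two (nat_lit 47555018817) (nat_lit 28757196919) (.two (nat_lit 159224168463) (nat_lit 28757197456) (.two (nat_lit 12047089672) (nat_lit 310379775) (.two (nat_lit 612368389) (nat_lit 184552302) (.two (nat_lit 16777217) (nat_lit 1053024) (.two (nat_lit 1048576) (nat_lit 16782516) (.one (nat_lit 8394650) .nil)))))),
   .two (nat_lit 4601151552) (nat_lit 18933088367) (.two (nat_lit 18933088271) (nat_lit 9802089947) (.two (nat_lit 41943041) (nat_lit 3527414402) (.one (nat_lit 4200757) .nil))),
   .two (nat_lit 16777280) (nat_lit 10007609455) (.two (nat_lit 612368399) (nat_lit 620758491) (.two (nat_lit 8388609) (nat_lit 218108546) (.one (nat_lit 16783670) .nil))),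
   .two (nat_lit 184986632259) (nat_lit 3036676215) (.two (nat_lit 9948889103) (nat_lit 10437526163) (.two (nat_lit 169869320) (nat_lit 2969568471) (.two (nat_lit 10940841989) (nat_lit 10537143133) (.two (nat_lit 606076929) (nat_lit 705696445) (.one (nat_lit 19597891435) .nil))))),
   .two (nat_lit 16777280) (nat_lit 9768534207) (.two (nat_lit 16777224) (nat_lit 13191087343) (.two (nat_lit 16777220) (nat_lit 37750979) (.two (nat_lit 41943041) (nat_lit 339743371) (.one (nat_lit 16783671) .nil)))),
   .two (nat_lit 218103874) (nat_lit 739246189) (.two (nat_lit 9781116943) (nat_lit 1913651844) (.two (nat_lit 11476664328) (nat_lit 352322795) (.two (nat_lit 2969567237) (nat_lit 772802736) (.two (nat_lit 2097153) (nat_lit 46473940113) (.two (nat_lit 2097152) (nat_lit 1392513665) (.one (nat_lit 1055033) .nil)))))),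
   .two (nat_lit 272629827) (nat_lit 1191182447) (.two (nat_lit 1191182351) (nat_lit 156569174856) (.two (nat_lit 9781116933) (nat_lit 184419354811) (.two (nat_lit 50331649) (nat_lit 46980403874) (.one (nat_lit 4200762) .nil)))),
   .two (nat_lit 4601151552) (nat_lit 166130090051) (.two (nat_lit 156367847439) (nat_lit 9799991930) (.two (nat_lit 3525312520) (nat_lit 3460303631) (.two (nat_lit 9766436865) (nat_lit 4198753) (.two (nat_lit 2097152) (nat_lit 4200106) (.one (nat_lit 2103611) .nil))))),
   .two (nat_lit 9802088556) (nat_lit 183846830199) (.two (nat_lit 10504634383) (nat_lit 3024094461) (.two (nat_lit 2887778308) (nat_lit 843058999) (.two (nat_lit 2097152) (nat_lit 1212159648) (.one (nat_lit 4599060749) .nil)))),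
   .two (nat_lit 2969567298) (nat_lit 1746927901) (.two (nat_lit 1310720024) (nat_lit 156548203130) (.two (nat_lit 21208498184) (nat_lit 21827159275) (.two (nat_lit 1277165573) (nat_lit 158662134634) (.two (nat_lit 2097153) (nat_lit 50335543) (.two (nat_lit 2097152) (nat_lit 16783019) (.one (nat_lit 2103612) .nil)))))),
   .two (nat_lit 16777280) (nat_lit 165526110327) (.two (nat_lit 620757007) (nat_lit 2921333423) (.two (nat_lit 2887778312) (nat_lit 20753419420) (.two (nat_lit 1048576) (nat_lit 270538675) .nil))),
   .two (nat_lit 46474985537) (nat_lit 3527409777) (.two (nat_lit 37748751) (nat_lit 46414169306) (.two (nat_lit 1782579205) (nat_lit 47582284633) (.two (nat_lit 2097153) (nat_lit 1849691966) (.two (nat_lit 2097152) (nat_lit 4199608) (.one (nat_lit 337647544) .nil))))),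
   .two (nat_lit 19027460211) (nat_lit 12117344377) (.two (nat_lit 10343153679) (nat_lit 1847591493) (.two (nat_lit 606076936) (nat_lit 156372043227) (.two (nat_lit 2097153) (nat_lit 19604180131) (.two (nat_lit 4194304) (nat_lit 2102956) (.one (nat_lit 3024099218) .nil))))),
   .two (nat_lit 1358954608) (nat_lit 169869439) (.two (nat_lit 813694991) (nat_lit 9915335953) (.two (nat_lit 169869316) (nat_lit 2936015709) (.two (nat_lit 2097153) (nat_lit 16781666) (.two (nat_lit 16777216) (nat_lit 8394413) (.one (nat_lit 16783677) .nil))))),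
   .two (nat_lit 2902458433) (nat_lit 843055231) (.two (nat_lit 184549391) (nat_lit 12117344901) (.two (nat_lit 2902458376) (nat_lit 166237046563) (.two (nat_lit 156372041733) (nat_lit 10519316682) (.two (nat_lit 37748737) (nat_lit 16781667) (.two (nat_lit 16777216) (nat_lit 8394414) (.one (nat_lit 8395070) .nil)))))),
   .two (nat_lit 276824130) (nat_lit 620757101) (.two (nat_lit 8388623) (nat_lit 18925748581) (.two (nat_lit 8388616) (nat_lit 1050531) (.two (nat_lit 620756997) (nat_lit 807406353) (.two (nat_lit 620756993) (nat_lit 12155097789) (.one (nat_lit 2103615) .nil))))),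
   .two (nat_lit 166197198915) (nat_lit 9798942837) (.two (nat_lit 10940841999) (nat_lit 4195399) (.two (nat_lit 68157448) (nat_lit 1344275700) (.two (nat_lit 3525312517) (nat_lit 4197245) (.two (nat_lit 2097153) (nat_lit 4198756) (.two (nat_lit 1048576) (nat_lit 2102457) (.one (nat_lit 2103616) .nil)))))),
   .two (nat_lit 12054429763) (nat_lit 12047089798) (.two (nat_lit 13195280399) (nat_lit 156569175257) (.two (nat_lit 4194308) (nat_lit 184993974443) (.two (nat_lit 605028353) (nat_lit 3460304654) (.two (nat_lit 1048576) (nat_lit 4199610) (.one (nat_lit 4200769) .nil))))),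
   .two (nat_lit 8388672) (nat_lit 285212863) (.two (nat_lit 176160776) (nat_lit 28705817822) (.two (nat_lit 176160772) (nat_lit 318769337) (.two (nat_lit 16777217) (nat_lit 4605350233) (.two (nat_lit 8388608) (nat_lit 16783023) (.one (nat_lit 4647294832) .nil))))),
   .two (nat_lit 166130090099) (nat_lit 166132187248) (.two (nat_lit 10504634383) (nat_lit 166232851712) (.two (nat_lit 739246085) (nat_lit 171970352) (.two (nat_lit 1048576) (nat_lit 2102459) (.one (nat_lit 2103261) .nil)))),
   .two (nat_lit 4605345856) (nat_lit 174688567415) (.two (nat_lit 809500687) (nat_lit 28697429217) (.two (nat_lit 4194308) (nat_lit 11618225959) (.two (nat_lit 1048576) (nat_lit 8393441) (.one (nat_lit 1055042) .nil)))),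
   .two (nat_lit 4601151552) (nat_lit 46474985538) (.two (nat_lit 156367847439) (nat_lit 2921333337) (.two (nat_lit 3525312520) (nat_lit 4195622) (.two (nat_lit 46978301957) (nat_lit 37750974) (.two (nat_lit 37748737) (nat_lit 165526114652) (.two (nat_lit 2097152) (nat_lit 11513369271) (.one (nat_lit 2921338806) .nil)))))),
   .two (nat_lit 11559501891) (nat_lit 9940500601) (.two (nat_lit 50331663) (nat_lit 11517559416) (.two (nat_lit 50331656) (nat_lit 4034921699) (.two (nat_lit 2956984325) (nat_lit 1929383713) (.two (nat_lit 1048576) (nat_lit 3539997309) (.one (nat_lit 8395075) .nil))))),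
   .two (nat_lit 4605345858) (nat_lit 4030726775) (.two (nat_lit 4605345800) (nat_lit 306185508) (.two (nat_lit 13191086085) (nat_lit 20644367512) (.two (nat_lit 4194304) (nat_lit 8394669) .nil))),
   .two (nat_lit 4634705985) (nat_lit 2902458481) (.two (nat_lit 272629775) (nat_lit 10385097945) (.two (nat_lit 4194308) (nat_lit 16780158) (.two (nat_lit 4194305) (nat_lit 16782382) (.two (nat_lit 4194304) (nat_lit 16782525) (.one (nat_lit 4200366) .nil))))),
   .two (nat_lit 2954887232) (nat_lit 184431935605) (.two (nat_lit 10385096719) (nat_lit 10538190300) (.two (nat_lit 620756993) (nat_lit 47582286110) (.two (nat_lit 16777216) (nat_lit 2102960) (.one (nat_lit 4200772) .nil)))),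
   .two (nat_lit 184549441) (nat_lit 11551113504) (.two (nat_lit 184549391) (nat_lit 2927624797) (.two (nat_lit 12054429704) (nat_lit 3539994498) (.two (nat_lit 713031685) (nat_lit 3539995504) (.two (nat_lit 8388609) (nat_lit 71308439) (.one (nat_lit 1182799711) .nil))))),
   .two (nat_lit 285212736) (nat_lit 19029557367) (.two (nat_lit 754974735) (nat_lit 739246747) (.two (nat_lit 4194312) (nat_lit 11492396175) (.two (nat_lit 16777216) (nat_lit 1054610) .nil))),
   .two (nat_lit 1417674864) (nat_lit 1779433592) (.two (nat_lit 2961178639) (nat_lit 166230754523) (.two (nat_lit 46978301957) (nat_lit 9806285002) (.two (nat_lit 2097153) (nat_lit 8393061) (.two (nat_lit 8388608) (nat_lit 1054385) (.one (nat_lit 8395077) .nil))))),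
   .two (nat_lit 772800625) (nat_lit 2317353076) (.two (nat_lit 9948889103) (nat_lit 1277166853) (.two (nat_lit 270532613) (nat_lit 620758491) (.two (nat_lit 2097153) (nat_lit 156581760737) (.two (nat_lit 8388608) (nat_lit 706746255) .nil)))),
   .two (nat_lit 2902458433) (nat_lit 166130090113) (.two (nat_lit 9781116943) (nat_lit 156567077564) (.two (nat_lit 169869320) (nat_lit 47563410288) (.two (nat_lit 606076929) (nat_lit 1343229756) (.two (nat_lit 2097152) (nat_lit 269489303) (.one (nat_lit 16783686) .nil))))),
   .two (nat_lit 218103873) (nat_lit 19029557377) (.two (nat_lit 654311439) (nat_lit 18928894618) (.two (nat_lit 4194312) (nat_lit 620758227) (.two (nat_lit 9933160453) (nat_lit 352324418) (.two (nat_lit 37748737) (nat_lit 11543777084) (.two (nat_lit 4194304) (nat_lit 2953844575) .nil))))),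
   .two (nat_lit 272629826) (nat_lit 166130090050) (.two (nat_lit 4194319) (nat_lit 28087157096) (.two (nat_lit 4194312) (nat_lit 10538190066) (.two (nat_lit 171966469) (nat_lit 46508542137) (.two (nat_lit 4194305) (nat_lit 19530780383) (.two (nat_lit 4194304) (nat_lit 639636583) (.one (nat_lit 1054689) .nil)))))),
   .two (nat_lit 13195280451) (nat_lit 2969567345) (.two (nat_lit 184549391) (nat_lit 46414168422) (.two (nat_lit 183853121544) (nat_lit 318769351) (.two (nat_lit 41943041) (nat_lit 83890867) (.one (nat_lit 16783330) .nil)))),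
   .two (nat_lit 8388672) (nat_lit 20637024322) (.two (nat_lit 8388623) (nat_lit 159250383447) (.two (nat_lit 713031688) (nat_lit 608175382) (.two (nat_lit 184549380) (nat_lit 174685423788) (.two (nat_lit 16777217) (nat_lit 9933163691) (.two (nat_lit 16777216) (nat_lit 3024098436) (.one (nat_lit 8395079) .nil)))))),
   .two (nat_lit 612368451) (nat_lit 754975298) (.two (nat_lit 11492392968) (nat_lit 11618222921) (.two (nat_lit 50331653) (nat_lit 20644367524) (.two (nat_lit 16777216) (nat_lit 8393442) (.one (nat_lit 8395080) .nil)))),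
   .two (nat_lit 285212736) (nat_lit 28693234262) (.two (nat_lit 285212680) (nat_lit 339739948) (.two (nat_lit 272629765) (nat_lit 28806483100) (.two (nat_lit 1048576) (nat_lit 1191187561) (.one (nat_lit 1055049) .nil)))),
   .two (nat_lit 8388672) (nat_lit 20638072947) (.two (nat_lit 8388623) (nat_lit 9766437543) (.two (nat_lit 169869320) (nat_lit 2961181455) (.two (nat_lit 34603009) (nat_lit 4632613185) (.two (nat_lit 1048576) (nat_lit 2102463) (.one (nat_lit 203430338) .nil))))),
   .two (nat_lit 10385096771) (nat_lit 4028629102) (.two (nat_lit 218103823) (nat_lit 159217877601) (.two (nat_lit 169869320) (nat_lit 183962176665) (.two (nat_lit 1048576) (nat_lit 4632613492) (.one (nat_lit 1055050) .nil)))),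
   .two (nat_lit 721420353) (nat_lit 4605345857) (.two (nat_lit 721420303) (nat_lit 243270895) (.two (nat_lit 41943045) (nat_lit 20753419074) (.two (nat_lit 9766436865) (nat_lit 612372284) (.two (nat_lit 2097152) (nat_lit 8393921) (.one (nat_lit 8395083) .nil))))),
   .two (nat_lit 8388672) (nat_lit 11559501889) (.two (nat_lit 8388623) (nat_lit 158192370991) (.two (nat_lit 184549381) (nat_lit 20644367515) (.two (nat_lit 16777216) (nat_lit 10947138198) (.one (nat_lit 8394728) .nil)))),
   .two (nat_lit 4634705987) (nat_lit 1325400722) (.two (nat_lit 285212680) (nat_lit 46510637897) (.two (nat_lit 1795162117) (nat_lit 166129044318) (.two (nat_lit 9768534017) (nat_lit 1779437368) (.two (nat_lit 4194304) (nat_lit 1053890) (.one (nat_lit 1055052) .nil))))),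
   .two (nat_lit 16777280) (nat_lit 183946444866) (.two (nat_lit 721420303) (nat_lit 3531604331) (.two (nat_lit 8388616) (nat_lit 873466037) (.two (nat_lit 8388609) (nat_lit 13187943595) (.two (nat_lit 8388608) (nat_lit 2103222) .nil)))),
   .two (nat_lit 8388674) (nat_lit 1795162230) (.two (nat_lit 2954887183) (nat_lit 12633244739) (.two (nat_lit 754974728) (nat_lit 606078173) (.two (nat_lit 11559501829) (nat_lit 639634298) (.two (nat_lit 50331649) (nat_lit 10336866643) (.two (nat_lit 8388608) (nat_lit 16783287) .nil))))),
   .two (nat_lit 16777280) (nat_lit 639631551) (.two (nat_lit 16777224) (nat_lit 166130091238) (.two (nat_lit 16777220) (nat_lit 236981006) (.two (nat_lit 16777217) (nat_lit 174686473958) (.two (nat_lit 8388608) (nat_lit 3036682141) .nil)))),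
   .two (nat_lit 13191086147) (nat_lit 20745027701) (.two (nat_lit 4605345807) (nat_lit 4632609128) (.two (nat_lit 4605345800) (nat_lit 166230754569) (.two (nat_lit 156367847429) (nat_lit 673189012) (.two (nat_lit 4194304) (nat_lit 2102467) (.one (nat_lit 2103629) .nil))))),
   .two (nat_lit 11618222145) (nat_lit 156481093763) (.two (nat_lit 50331663) (nat_lit 1417675592) (.two (nat_lit 16777220) (nat_lit 713033932) (.two (nat_lit 9766436865) (nat_lit 8393025) (.two (nat_lit 2097152) (nat_lit 8393924) (.one (nat_lit 2103273) .nil))))),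
   .two (nat_lit 2994733122) (nat_lit 19530776695) (.two (nat_lit 169869327) (nat_lit 159224169288) (.two (nat_lit 2097157) (nat_lit 612371605) (.two (nat_lit 1048576) (nat_lit 8393443) (.one (nat_lit 1054698) .nil)))),
   .two (nat_lit 1358954563) (nat_lit 2349858932) (.two (nat_lit 9881780239) (nat_lit 9866052251) (.two (nat_lit 184986632205) (nat_lit 754976971) (.two (nat_lit 2097153) (nat_lit 16781319) (.one (nat_lit 16783339) .nil)))),
   .two (nat_lit 3558867011) (nat_lit 19029557363) (.two (nat_lit 2954887183) (nat_lit 159253529892) (.two (nat_lit 2097157) (nat_lit 306186421) (.two (nat_lit 2097153) (nat_lit 19532876951) (.two (nat_lit 1048576) (nat_lit 270537340) (.one (nat_lit 4200428) .nil))))),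
   .two (nat_lit 4194370) (nat_lit 183853121648) (.two (nat_lit 37748751) (nat_lit 47588574026) (.two (nat_lit 4194308) (nat_lit 270535469) (.two (nat_lit 4194305) (nat_lit 9933164310) (.two (nat_lit 2097152) (nat_lit 209719916) (.one (nat_lit 2103630) .nil))))),
   .two (nat_lit 218103874) (nat_lit 166230753394) (.two (nat_lit 218103823) (nat_lit 2350908650) (.two (nat_lit 2954887173) (nat_lit 9948892943) (.two (nat_lit 16777216) (nat_lit 10001323903) .nil))),
   .two (nat_lit 2969567296) (nat_lit 2097458) (.two (nat_lit 654311439) (nat_lit 13222543950) (.two (nat_lit 21208498184) (nat_lit 46489667769) (.two (nat_lit 606076929) (nat_lit 11626615419) (.one (nat_lit 16783695) .nil)))),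
   .two (nat_lit 272629824) (nat_lit 310378604) (.two (nat_lit 272629775) (nat_lit 142606978) (.two (nat_lit 46414168072) (nat_lit 19096667395) (.two (nat_lit 4194308) (nat_lit 8391551) (.two (nat_lit 605028353) (nat_lit 11479813892) (.two (nat_lit 1048576) (nat_lit 4199140) (.one (nat_lit 1055056) .nil)))))),
   .two (nat_lit 654311531) (nat_lit 10939793527) (.two (nat_lit 654311439) (nat_lit 156968682719) (.two (nat_lit 605028357) (nat_lit 1291848855) (.two (nat_lit 4194304) (nat_lit 37313582985) .nil))),
   .two (nat_lit 272629827) (nat_lit 12054429806) (.two (nat_lit 117440527) (nat_lit 176162268) (.two (nat_lit 4194305) (nat_lit 12624858888) (.two (nat_lit 16777216) (nat_lit 21814579907) (.one (nat_lit 8395089) .nil)))),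
   .two (nat_lit 16777280) (nat_lit 1376780412) (.two (nat_lit 83886095) (nat_lit 1309672045) (.two (nat_lit 2969567240) (nat_lit 1377830165) (.two (nat_lit 9948889093) (nat_lit 156364703928) (.two (nat_lit 34603009) (nat_lit 11611933870) (.two (nat_lit 1048576) (nat_lit 4599059088) (.one (nat_lit 1054702) .nil)))))),
   .two (nat_lit 4634705985) (nat_lit 605028485) (.two (nat_lit 9934209039) (nat_lit 174752531273) (.two (nat_lit 13187940357) (nat_lit 4030729026) (.two (nat_lit 2097153) (nat_lit 3524269210) (.one (nat_lit 10503591907) .nil)))),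
   .two (nat_lit 16777280) (nat_lit 205521009) (.two (nat_lit 176160783) (nat_lit 3036677596) (.two (nat_lit 8388609) (nat_lit 4601155330) (.two (nat_lit 8388608) (nat_lit 4199621) (.one (nat_lit 4200786) .nil)))),
   .two (nat_lit 16777280) (nat_lit 205521009) (.two (nat_lit 176160783) (nat_lit 352323036) (.two (nat_lit 8388609) (nat_lit 169874120) (.one (nat_lit 4200434) .nil))),
   .two (nat_lit 184423546945) (nat_lit 156569174125) (.two (nat_lit 37748751) (nat_lit 11618222653) (.two (nat_lit 117440520) (nat_lit 1277166809) (.two (nat_lit 11492392964) (nat_lit 2100094) (.two (nat_lit 50331649) (nat_lit 3021999928) (.two (nat_lit 16777216) (nat_lit 2102470) (.one (nat_lit 4200787) .nil)))))),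
   .two (nat_lit 285212737) (nat_lit 235929734) (.two (nat_lit 2902458383) (nat_lit 1379926645) (.two (nat_lit 205520904) (nat_lit 2332034272) (.two (nat_lit 2889875460) (nat_lit 28690090167) (.two (nat_lit 2097153) (nat_lit 1053030) (.two (nat_lit 1048576) (nat_lit 2102471) (.one (nat_lit 1054708) .nil)))))),
   .two (nat_lit 8388672) (nat_lit 12047089730) (.two (nat_lit 612368399) (nat_lit 9899606682) (.two (nat_lit 612368392) (nat_lit 9866052851) (.two (nat_lit 612368389) (nat_lit 19026413748) (.two (nat_lit 41943041) (nat_lit 37313580857) (.two (nat_lit 8388608) (nat_lit 1053896) (.one (nat_lit 1054711) .nil)))))),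
   .two (nat_lit 16777280) (nat_lit 12054429810) (.two (nat_lit 11559501839) (nat_lit 9899607105) (.two (nat_lit 276824072) (nat_lit 9948892324) (.two (nat_lit 1048576) (nat_lit 16782537) (.one (nat_lit 1054713) .nil)))),
   .two (nat_lit 47548727360) (nat_lit 19604177512) (.two (nat_lit 46984593416) (nat_lit 174753580274) (.two (nat_lit 169869316) (nat_lit 612370634) (.two (nat_lit 8388609) (nat_lit 336596116) (.two (nat_lit 8388608) (nat_lit 1053898) (.one (nat_lit 1055060) .nil))))),
   .two (nat_lit 772800577) (nat_lit 1795162224) (.two (nat_lit 117440527) (nat_lit 12147753321) (.two (nat_lit 117440520) (nat_lit 839910701) (.two (nat_lit 11543773189) (nat_lit 11626612929) (.two (nat_lit 34603009) (nat_lit 16781126) (.two (nat_lit 1048576) (nat_lit 9982448331) (.one (nat_lit 1055061) .nil)))))),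
   .two (nat_lit 654311491) (nat_lit 1310720115) (.two (nat_lit 159217877007) (nat_lit 28697429241) (.two (nat_lit 169869316) (nat_lit 19134418736) (.two (nat_lit 8388608) (nat_lit 11525953187) (.one (nat_lit 16783702) .nil)))),
   .two (nat_lit 4601151554) (nat_lit 183953784963) (.two (nat_lit 47555018767) (nat_lit 184986633033) (.two (nat_lit 176160772) (nat_lit 28086111014) (.two (nat_lit 37748737) (nat_lit 12047093514) (.two (nat_lit 1048576) (nat_lit 4199629) (.one (nat_lit 1055063) .nil))))),
   .two (nat_lit 306184258) (nat_lit 46977253498) (.two (nat_lit 620757007) (nat_lit 168821825) (.two (nat_lit 809500680) (nat_lit 135269230) (.two (nat_lit 9765388289) (nat_lit 165528212641) (.one (nat_lit 16783704) .nil)))),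
   .two (nat_lit 1343225923) (nat_lit 10376708221) (.two (nat_lit 9866051599) (nat_lit 1182794390) (.two (nat_lit 4194312) (nat_lit 75498729) (.two (nat_lit 8388612) (nat_lit 641730749) (.two (nat_lit 41943041) (nat_lit 101715731) (.two (nat_lit 1048576) (nat_lit 13224645333) (.one (nat_lit 4200793) .nil)))))),
   .two (nat_lit 156468510787) (nat_lit 156968681591) (.two (nat_lit 1343225871) (nat_lit 1212154490) (.two (nat_lit 705691656) (nat_lit 306186422) (.two (nat_lit 2097153) (nat_lit 2889878681) (.two (nat_lit 1048576) (nat_lit 156468515483) (.one (nat_lit 4200794) .nil))))),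
   .two (nat_lit 754974785) (nat_lit 156968682139) (.two (nat_lit 754974728) (nat_lit 1913652485) (.two (nat_lit 11492392964) (nat_lit 1052181) (.two (nat_lit 2097153) (nat_lit 158192374439) (.one (nat_lit 1054719) .nil)))),
   .two (nat_lit 12117344366) (nat_lit 269484332) (.two (nat_lit 1916796943) (nat_lit 12147753535) (.two (nat_lit 1916796936) (nat_lit 1051214) (.two (nat_lit 184416206853) (nat_lit 4634709815) (.two (nat_lit 1048576) (nat_lit 4200114) (.one (nat_lit 1055067) .nil))))),
   .two (nat_lit 218103874) (nat_lit 1343225923) (.two (nat_lit 272629775) (nat_lit 1913651881) (.two (nat_lit 218103816) (nat_lit 37313578249) (.two (nat_lit 4194308) (nat_lit 158176644244) (.two (nat_lit 4194304) (nat_lit 183912895142) (.one (nat_lit 1054720) .nil))))),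
   .two (nat_lit 9899606131) (nat_lit 37249613939) (.two (nat_lit 157038936079) (nat_lit 639631969) (.two (nat_lit 2954887176) (nat_lit 3527411896) (.two (nat_lit 2097153) (nat_lit 174688570524) (.two (nat_lit 1048576) (nat_lit 4599059060) (.one (nat_lit 4200796) .nil))))),
   .two (nat_lit 37249613891) (nat_lit 9899606131) (.two (nat_lit 11577327640) (nat_lit 11010048602) (.two (nat_lit 11543773192) (nat_lit 19599983432) (.two (nat_lit 705691652) (nat_lit 12117348115) (.two (nat_lit 1048576) (nat_lit 4199630) (.one (nat_lit 4200797) .nil))))),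
   .two (nat_lit 1291845698) (nat_lit 10370416772) (.two (nat_lit 37748751) (nat_lit 1291846472) (.two (nat_lit 169869316) (nat_lit 889196356) (.two (nat_lit 2097152) (nat_lit 843059844) (.one (nat_lit 4200798) .nil)))),
   .two (nat_lit 654311491) (nat_lit 21208498290) (.two (nat_lit 159217877007) (nat_lit 3036678344) (.two (nat_lit 2097153) (nat_lit 3036679318) (.two (nat_lit 2097152) (nat_lit 16782056) (.one (nat_lit 16783189) .nil)))),
   .two (nat_lit 16777280) (nat_lit 9974055536) (.two (nat_lit 16777224) (nat_lit 209717151) (.two (nat_lit 75497477) (nat_lit 13203671229) (.two (nat_lit 8388609) (nat_lit 171971264) (.one (nat_lit 1055071) .nil)))),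
   .two (nat_lit 2969567298) (nat_lit 158647451778) (.two (nat_lit 620757007) (nat_lit 18933089096) (.two (nat_lit 2887778308) (nat_lit 11525951494) (.one (nat_lit 185002366386) .nil))),
   .two (nat_lit 285212736) (nat_lit 136315011) (.two (nat_lit 37748751) (nat_lit 183962174697) (.two (nat_lit 4194308) (nat_lit 2902461188) (.two (nat_lit 4194305) (nat_lit 2902462740) (.two (nat_lit 4194304) (nat_lit 2102479) (.one (nat_lit 2103648) .nil))))),
   .two (nat_lit 46980399218) (nat_lit 16777523) (.two (nat_lit 4194319) (nat_lit 83886438) (.two (nat_lit 4194312) (nat_lit 10385097986) (.two (nat_lit 272629765) (nat_lit 10016000806) (.two (nat_lit 50331649) (nat_lit 1947209517) (.two (nat_lit 1048576) (nat_lit 16782544) (.one (nat_lit 1055073) .nil)))))),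
   .two (nat_lit 10343153731) (nat_lit 158144135282) (.two (nat_lit 9934209039) (nat_lit 165532402504) (.two (nat_lit 169869316) (nat_lit 2927627414) (.two (nat_lit 2097152) (nat_lit 11517563586) (.one (nat_lit 8394759) .nil)))),
   .two (nat_lit 16777280) (nat_lit 880803951) (.two (nat_lit 41943055) (nat_lit 50333147) (.two (nat_lit 8388609) (nat_lit 19545461366) (.one (nat_lit 16783714) .nil))),
   .two (nat_lit 285212736) (nat_lit 184419352690) (.two (nat_lit 13191086095) (nat_lit 9781118427) (.two (nat_lit 4194305) (nat_lit 1426067468) (.one (nat_lit 16783370) .nil))),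
   .two (nat_lit 4605345858) (nat_lit 1862271093) (.two (nat_lit 620757007) (nat_lit 847249765) (.two (nat_lit 2969567240) (nat_lit 46978303222) (.two (nat_lit 8388612) (nat_lit 158192371920) (.two (nat_lit 2097153) (nat_lit 16781672) (.two (nat_lit 8388608) (nat_lit 3458208455) (.one (nat_lit 8395107) .nil)))))),
   .two (nat_lit 285212736) (nat_lit 19530776695) (.two (nat_lit 9781116943) (nat_lit 236978764) (.two (nat_lit 9934209032) (nat_lit 11626611967) (.two (nat_lit 705691652) (nat_lit 318769341) (.two (nat_lit 34603009) (nat_lit 185021239648) (.two (nat_lit 2097152) (nat_lit 185020191924) (.one (nat_lit 185035921306) .nil)))))),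
   .two (nat_lit 16777280) (nat_lit 3527409777) (.two (nat_lit 16777231) (nat_lit 3527410242) (.two (nat_lit 16777224) (nat_lit 46980400345) (.two (nat_lit 16777220) (nat_lit 19029560474) (.two (nat_lit 16777216) (nat_lit 4601156300) (.one (nat_lit 318772983) .nil))))),
   .two (nat_lit 9802088557) (nat_lit 19530776691) (.two (nat_lit 157036838927) (nat_lit 2990539340) (.two (nat_lit 157036838920) (nat_lit 4197215) (.two (nat_lit 2097153) (nat_lit 4198761) (.two (nat_lit 1048576) (nat_lit 2102963) (.one (nat_lit 2103308) .nil))))),
   .two (nat_lit 4605345856) (nat_lit 174688567415) (.two (nat_lit 809500687) (nat_lit 46984594672) (.two (nat_lit 4194308) (nat_lit 13195281883) (.two (nat_lit 4194305) (nat_lit 10913583801) (.one (nat_lit 1055076) .nil)))),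
   .two (nat_lit 285212737) (nat_lit 306184257) (.two (nat_lit 285212687) (nat_lit 843055295) (.two (nat_lit 809500680) (nat_lit 16778452) (.two (nat_lit 272629765) (nat_lit 1795164939) (.two (nat_lit 4194305) (nat_lit 16781125) (.two (nat_lit 4194304) (nat_lit 16782545) (.one (nat_lit 16783636) .nil)))))),
   .two (nat_lit 10538188908) (nat_lit 101712003) (.two (nat_lit 2954887183) (nat_lit 46477083210) (.two (nat_lit 2887778312) (nat_lit 12117345495) (.two (nat_lit 12114198533) (nat_lit 46508542154) (.two (nat_lit 34603009) (nat_lit 2101610) (.two (nat_lit 1048576) (nat_lit 2102964) (.one (nat_lit 1055077) .nil)))))),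
   .two (nat_lit 138412148) (nat_lit 2416967795) (.two (nat_lit 50331663) (nat_lit 2894070379) (.two (nat_lit 2961178632) (nat_lit 822085083) (.two (nat_lit 612368385) (nat_lit 1913655029) (.two (nat_lit 1048576) (nat_lit 2956990354) .nil)))),
   .two (nat_lit 4605345858) (nat_lit 11513364590) (.two (nat_lit 18928893967) (nat_lit 343934164) (.two (nat_lit 156367847429) (nat_lit 276826914) (.two (nat_lit 156367847425) (nat_lit 8393067) (.two (nat_lit 8388608) (nat_lit 4200117) (.one (nat_lit 4200806) .nil))))),
   .two (nat_lit 721420353) (nat_lit 2424307849) (.two (nat_lit 721420303) (nat_lit 156539814496) (.two (nat_lit 8388616) (nat_lit 1962935527) (.two (nat_lit 176160773) (nat_lit 639635260) (.two (nat_lit 8388608) (nat_lit 16782546) (.one (nat_lit 2103655) .nil))))),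
   .two (nat_lit 20704133233) (nat_lit 156468510835) (.two (nat_lit 28757196815) (nat_lit 2353006484) (.two (nat_lit 1343225861) (nat_lit 708841270) (.two (nat_lit 1048576) (nat_lit 876615507) .nil))),
   .two (nat_lit 47596961901) (nat_lit 184987680897) (.two (nat_lit 1847590927) (nat_lit 251658828) (.two (nat_lit 1847590920) (nat_lit 16778545) (.two (nat_lit 157036838917) (nat_lit 16780822) (.two (nat_lit 9766436865) (nat_lit 16781676) (.two (nat_lit 1048576) (nat_lit 69211275) (.one (nat_lit 2103656) .nil)))))),
   .two (nat_lit 21811429443) (nat_lit 183913939305) (.two (nat_lit 1276117000) (nat_lit 28791801111) (.two (nat_lit 9933160453) (nat_lit 2100099) (.two (nat_lit 9765388289) (nat_lit 2101613) (.two (nat_lit 1048576) (nat_lit 46477087421) (.one (nat_lit 1055081) .nil))))),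
   .two (nat_lit 2349858930) (nat_lit 71303305) (.two (nat_lit 285212687) (nat_lit 9802089689) (.two (nat_lit 4194308) (nat_lit 183962175696) (.two (nat_lit 605028353) (nat_lit 37316726590) (.two (nat_lit 1048576) (nat_lit 876614798) (.one (nat_lit 1054734) .nil))))),
   .two (nat_lit 4601151597) (nat_lit 183962173572) (.two (nat_lit 285212687) (nat_lit 10003415637) (.two (nat_lit 4194312) (nat_lit 16778455) (.two (nat_lit 4194308) (nat_lit 183962175696) (.two (nat_lit 156372041729) (nat_lit 168824632) (.two (nat_lit 1048576) (nat_lit 4199635) (.one (nat_lit 4200463) .nil)))))),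
   .two (nat_lit 16777280) (nat_lit 19604177019) (.two (nat_lit 50331663) (nat_lit 3565159028) (.two (nat_lit 41943048) (nat_lit 83887311) (.two (nat_lit 8388612) (nat_lit 11492395194) (.two (nat_lit 41943041) (nat_lit 1052487) (.two (nat_lit 1048576) (nat_lit 8394422) (.one (nat_lit 1054736) .nil)))))),
   .two (nat_lit 2902458434) (nat_lit 136315011) (.two (nat_lit 2902458383) (nat_lit 136315538) (.two (nat_lit 606076936) (nat_lit 620759222) (.two (nat_lit 2097153) (nat_lit 16781128) (.two (nat_lit 4194304) (nat_lit 2954893265) .nil)))),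
   .two (nat_lit 2994733122) (nat_lit 46406828152) (.two (nat_lit 4194319) (nat_lit 47555018943) (.two (nat_lit 184986632200) (nat_lit 209716509) (.two (nat_lit 4194308) (nat_lit 2927627010) (.two (nat_lit 9768534017) (nat_lit 1283461468) (.two (nat_lit 4194304) (nat_lit 8394423) (.one (nat_lit 4200810) .nil)))))),
   .two (nat_lit 12114198595) (nat_lit 185023332480) (.two (nat_lit 2902458383) (nat_lit 20704133711) (.two (nat_lit 2969567240) (nat_lit 28690089183) (.two (nat_lit 13191086085) (nat_lit 1947208516) (.two (nat_lit 37748737) (nat_lit 1053038) (.two (nat_lit 4194304) (nat_lit 1053908) (.one (nat_lit 9915340613) .nil)))))),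
   .two (nat_lit 21827158131) (nat_lit 158646403184) (.two (nat_lit 9881780239) (nat_lit 46507491913) (.two (nat_lit 9866051592) (nat_lit 285214893) (.two (nat_lit 605028353) (nat_lit 10007613246) (.two (nat_lit 1048576) (nat_lit 174692766822) (.one (nat_lit 1054737) .nil))))),
   .two (nat_lit 8388672) (nat_lit 203424029) (.two (nat_lit 2954887183) (nat_lit 166203490935) (.two (nat_lit 8388616) (nat_lit 10538190743) (.two (nat_lit 2097157) (nat_lit 3464497934) (.two (nat_lit 34603009) (nat_lit 11477716116) (.two (nat_lit 1048576) (nat_lit 2102463) (.one (nat_lit 2103314) .nil)))))),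
   .two (nat_lit 285212736) (nat_lit 166132187248) (.two (nat_lit 285212687) (nat_lit 166232851712) (.two (nat_lit 171966469) (nat_lit 2902461599) (.two (nat_lit 1048576) (nat_lit 16782549) (.one (nat_lit 34609436) .nil)))),
   .two (nat_lit 654311536) (nat_lit 2953838846) (.two (nat_lit 654311439) (nat_lit 10940842565) (.two (nat_lit 169869320) (nat_lit 9781118427) (.two (nat_lit 2097153) (nat_lit 1929383075) (.two (nat_lit 1048576) (nat_lit 337647276) (.one (nat_lit 13187946403) .nil))))),
   .two (nat_lit 156569174083) (nat_lit 3457155205) (.two (nat_lit 11479810063) (nat_lit 1954546285) (.two (nat_lit 4601151496) (nat_lit 12155094293) (.two (nat_lit 809500677) (nat_lit 1052183) (.two (nat_lit 37748737) (nat_lit 705695495) (.two (nat_lit 1048576) (nat_lit 37753572) (.one (nat_lit 4200811) .nil)))))),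
   .two (nat_lit 21208498242) (nat_lit 11525947523) (.two (nat_lit 2969567247) (nat_lit 174753579849) (.two (nat_lit 158144135173) (nat_lit 3036678355) (.two (nat_lit 156364701697) (nat_lit 10504638236) (.two (nat_lit 1048576) (nat_lit 35657531) .nil)))),
   .two (nat_lit 18933088368) (nat_lit 1048884) (.two (nat_lit 1753219087) (nat_lit 28790752473) (.two (nat_lit 605028357) (nat_lit 158083320984) (.two (nat_lit 4194304) (nat_lit 47547684682) .nil))),
   .two (nat_lit 11577327681) (nat_lit 156372041842) (.two (nat_lit 10343153679) (nat_lit 166196150633) (.two (nat_lit 10343153672) (nat_lit 156968682739) (.two (nat_lit 156372041733) (nat_lit 28690090177) (.two (nat_lit 41943041) (nat_lit 28086112024) (.two (nat_lit 8388608) (nat_lit 1054392) (.one (nat_lit 1054739) .nil)))))),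
   .two (nat_lit 185020186689) (nat_lit 2097285) (.two (nat_lit 272629775) (nat_lit 19596837705) (.two (nat_lit 21778923525) (nat_lit 21207452482) (.two (nat_lit 4194305) (nat_lit 1053039) (.two (nat_lit 4194304) (nat_lit 2102969) (.one (nat_lit 2103660) .nil))))),
   .two (nat_lit 1310720065) (nat_lit 1753219670) (.two (nat_lit 3464495112) (nat_lit 10907288392) (.two (nat_lit 176160773) (nat_lit 12115249327) (.two (nat_lit 9765388289) (nat_lit 236981396) (.two (nat_lit 1048576) (nat_lit 159224173724) (.one (nat_lit 8394772) .nil))))),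
   .two (nat_lit 158083317827) (nat_lit 20638072941) (.two (nat_lit 10336862223) (nat_lit 13228835175) (.two (nat_lit 10336862216) (nat_lit 780142400) (.two (nat_lit 9873391621) (nat_lit 2100760) (.two (nat_lit 2097153) (nat_lit 1279267089) (.two (nat_lit 8388608) (nat_lit 2954892424) (.one (nat_lit 2103661) .nil)))))),
   .two (nat_lit 272629824) (nat_lit 721420354) (.two (nat_lit 721420303) (nat_lit 272629951) (.two (nat_lit 721420296) (nat_lit 1782580446) (.two (nat_lit 50331653) (nat_lit 19532875962) (.two (nat_lit 50331649) (nat_lit 4198768) (.two (nat_lit 1048576) (nat_lit 13203673716) (.one (nat_lit 16783381) .nil)))))),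
   .two (nat_lit 8388672) (nat_lit 9881780805) (.two (nat_lit 16777224) (nat_lit 20644367515) (.two (nat_lit 8388608) (nat_lit 18941482130) (.one (nat_lit 8395118) .nil))),
   .two (nat_lit 9881780289) (nat_lit 1413480570) (.two (nat_lit 37748751) (nat_lit 11559503059) (.two (nat_lit 69206021) (nat_lit 2969570165) (.two (nat_lit 2097153) (nat_lit 306188087) (.two (nat_lit 2097152) (nat_lit 47563412657) (.one (nat_lit 4200470) .nil))))),
   .two (nat_lit 2969567297) (nat_lit 9768534136) (.two (nat_lit 37748751) (nat_lit 183928620318) (.two (nat_lit 4194308) (nat_lit 16780825) (.two (nat_lit 4194305) (nat_lit 16781681) (.two (nat_lit 4194304) (nat_lit 16783034) (.one (nat_lit 2103663) .nil))))),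
   .two (nat_lit 285212736) (nat_lit 11513364595) (.two (nat_lit 13191086095) (nat_lit 9781118427) (.two (nat_lit 4194305) (nat_lit 183962178969) .nil)),
   .two (nat_lit 3573547117) (nat_lit 4028629102) (.two (nat_lit 654311439) (nat_lit 3021996719) (.two (nat_lit 169869320) (nat_lit 9781118427) (.two (nat_lit 606076929) (nat_lit 12114202357) (.two (nat_lit 1048576) (nat_lit 2102971) (.one (nat_lit 1054744) .nil))))),
   .two (nat_lit 185020186691) (nat_lit 12148802120) (.two (nat_lit 159224168456) (nat_lit 46978303261) (.two (nat_lit 183853121540) (nat_lit 11477715761) (.two (nat_lit 34603009) (nat_lit 9934212267) (.two (nat_lit 1048576) (nat_lit 236983015) (.one (nat_lit 1055088) .nil))))),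
   .two (nat_lit 12617515120) (nat_lit 28764536962) (.two (nat_lit 1753219087) (nat_lit 2416968038) (.two (nat_lit 28093448200) (nat_lit 158646404354) (.two (nat_lit 11543773189) (nat_lit 11014244549) (.two (nat_lit 34603009) (nat_lit 20644367511) (.two (nat_lit 1048576) (nat_lit 3565163121) (.one (nat_lit 1054745) .nil)))))),
   .two (nat_lit 16777280) (nat_lit 1343225970) (.two (nat_lit 16777231) (nat_lit 239075920) (.two (nat_lit 285212680) (nat_lit 46477083878) (.two (nat_lit 101711877) (nat_lit 306186414) (.two (nat_lit 50331649) (nat_lit 46406832460) (.two (nat_lit 1048576) (nat_lit 16782059) (.one (nat_lit 16783729) .nil)))))),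
   .two (nat_lit 1291845698) (nat_lit 28793897077) (.two (nat_lit 4194319) (nat_lit 1291846472) (.two (nat_lit 605028357) (nat_lit 754978575) (.two (nat_lit 1048576) (nat_lit 306188932) (.one (nat_lit 4200474) .nil)))),
   .two (nat_lit 158144135277) (nat_lit 20644364410) (.two (nat_lit 10343153679) (nat_lit 19027460660) (.two (nat_lit 1277165576) (nat_lit 156372042568) (.two (nat_lit 159217876997) (nat_lit 156372043227) (.two (nat_lit 37748737) (nat_lit 4028632849) (.two (nat_lit 4194304) (nat_lit 13195285101) (.one (nat_lit 8395131) .nil)))))),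
   .two (nat_lit 620757059) (nat_lit 1277165679) (.two (nat_lit 721420303) (nat_lit 21781021257) (.two (nat_lit 721420296) (nat_lit 19096667368) (.two (nat_lit 9934209029) (nat_lit 1191185591) (.two (nat_lit 50331651) (nat_lit 1749026996) (.two (nat_lit 50331649) (nat_lit 1178603252) (.two (nat_lit 2097152) (nat_lit 4199115) (.one (nat_lit 16783387) .nil))))))),
   .two (nat_lit 4605345856) (nat_lit 705691769) (.two (nat_lit 3460300815) (nat_lit 847249599) (.two (nat_lit 3460300808) (nat_lit 713032934) (.two (nat_lit 2887778308) (nat_lit 165532404553) (.two (nat_lit 2097153) (nat_lit 46507494548) (.two (nat_lit 4194304) (nat_lit 2101285) (.one (nat_lit 2103570) .nil)))))),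
   .two (nat_lit 8388674) (nat_lit 809500749) (.two (nat_lit 2954887235) (nat_lit 3464495139) (.two (nat_lit 41943055) (nat_lit 157038936160) (.two (nat_lit 343932945) (nat_lit 4030726792) (.two (nat_lit 13195280392) (nat_lit 4195152) (.two (nat_lit 2954887175) (nat_lit 4634707838) (.two (nat_lit 2889875458) (nat_lit 8390115) (.two (nat_lit 4194307) (nat_lit 2961180867) (.two (nat_lit 2097153) (nat_lit 1212157108) (.two (nat_lit 2097152) (nat_lit 4197720) (.one (nat_lit 4199346) .nil)))))))))),
   .two (nat_lit 3003121730) (nat_lit 10443817080) (.two (nat_lit 47563407375) (nat_lit 1178600037) (.two (nat_lit 2969567240) (nat_lit 166232851712) (.two (nat_lit 171966469) (nat_lit 10544482477) (.two (nat_lit 37748737) (nat_lit 37320920213) (.two (nat_lit 1048576) (nat_lit 47584384114) (.one (nat_lit 46473941109) .nil)))))),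
   .two (nat_lit 9974054979) (nat_lit 3458203767) (.two (nat_lit 10506731535) (nat_lit 75498113) (.two (nat_lit 205520904) (nat_lit 1753219912) (.two (nat_lit 171966469) (nat_lit 1753220571) (.two (nat_lit 4194305) (nat_lit 156372045607) (.two (nat_lit 1048576) (nat_lit 169874031) (.one (nat_lit 2102195) .nil)))))),
   .two (nat_lit 184549394) (nat_lit 2954887232) (.two (nat_lit 184549387) (nat_lit 639631551) (.two (nat_lit 159224168461) (nat_lit 20738736348) (.two (nat_lit 184549381) (nat_lit 3565160646) (.two (nat_lit 16777217) (nat_lit 47555020389) (.two (nat_lit 2097152) (nat_lit 8393504) (.one (nat_lit 8394216) .nil)))))),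
   .two (nat_lit 10504634404) (nat_lit 742391932) (.two (nat_lit 46510637075) (nat_lit 4599054925) (.two (nat_lit 28691136536) (nat_lit 4195028) (.two (nat_lit 28089253897) (nat_lit 46508541155) (.two (nat_lit 166132187149) (nat_lit 47548727766) (.two (nat_lit 2889875458) (nat_lit 2988443824) (.two (nat_lit 166132187141) (nat_lit 337642453) (.two (nat_lit 4194305) (nat_lit 4028632821) (.two (nat_lit 4194304) (nat_lit 2101289) (.one (nat_lit 2102761) .nil))))))))),
   .two (nat_lit 156569174127) (nat_lit 166130090105) (.two (nat_lit 3527409675) (nat_lit 2097877) (.two (nat_lit 2097181) (nat_lit 46477082815) (.two (nat_lit 10538188812) (nat_lit 157038936529) (.two (nat_lit 639631367) (nat_lit 46980399945) (.two (nat_lit 10504634373) (nat_lit 3527411164) (.two (nat_lit 9766436865) (nat_lit 1849691301) (.two (nat_lit 1048576) (nat_lit 4199204) (.one (nat_lit 4200505) .nil)))))))),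
   .two (nat_lit 8388672) (nat_lit 165525061743) (.two (nat_lit 8388623) (nat_lit 352321727) (.two (nat_lit 8388616) (nat_lit 754975966) (.two (nat_lit 713031684) (nat_lit 9948891919) (.two (nat_lit 41943041) (nat_lit 1052557) (.two (nat_lit 8388608) (nat_lit 16782117) (.one (nat_lit 41949221) .nil)))))),
   .two (nat_lit 41943076) (nat_lit 721420397) (.two (nat_lit 41943055) (nat_lit 21223178859) (.two (nat_lit 41943048) (nat_lit 10552870149) (.two (nat_lit 184549381) (nat_lit 3464497328) (.two (nat_lit 16777217) (nat_lit 1317015428) (.two (nat_lit 16777216) (nat_lit 8394070) (.one (nat_lit 16782829) .nil)))))),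
   .two (nat_lit 50331760) (nat_lit 183912890636) (.two (nat_lit 156968681487) (nat_lit 3003121703) (.two (nat_lit 156968681496) (nat_lit 171967189) (.two (nat_lit 11559501832) (nat_lit 739247964) (.two (nat_lit 721420292) (nat_lit 3557820016) (.two (nat_lit 10506731525) (nat_lit 16778722) (.two (nat_lit 9768534017) (nat_lit 1051840) (.two (nat_lit 1048576) (nat_lit 16782680) (.one (nat_lit 1054897) .nil)))))))),
   .two (nat_lit 4647288898) (nat_lit 28693233730) (.two (nat_lit 157036838927) (nat_lit 742392393) (.two (nat_lit 28693233672) (nat_lit 1049828) (.two (nat_lit 4599054341) (nat_lit 11479813320) (.two (nat_lit 2097155) (nat_lit 11479813948) (.two (nat_lit 2097153) (nat_lit 11479813948) (.two (nat_lit 2097152) (nat_lit 16782125) (.one (nat_lit 16783425) .nil))))))),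
   .two (nat_lit 16777280) (nat_lit 343933040) (.two (nat_lit 176160783) (nat_lit 16777407) (.two (nat_lit 176160776) (nat_lit 352322793) (.two (nat_lit 8388613) (nat_lit 9781117897) (.two (nat_lit 612368387) (nat_lit 1291847133) (.two (nat_lit 612368385) (nat_lit 83889975) (.two (nat_lit 8388608) (nat_lit 9915339544) (.one (nat_lit 16783429) .nil))))))),
   .two (nat_lit 183853121601) (nat_lit 12047089776) (.two (nat_lit 183853121551) (nat_lit 10906239630) (.two (nat_lit 21214789640) (nat_lit 69207264) (.two (nat_lit 2956984325) (nat_lit 2921334969) (.two (nat_lit 4194305) (nat_lit 2887783216) (.two (nat_lit 1048576) (nat_lit 2102619) (.one (nat_lit 2103678) .nil)))))),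
   .two (nat_lit 3458203715) (nat_lit 1417674819) (.two (nat_lit 176160783) (nat_lit 9798943390) (.two (nat_lit 18925748232) (nat_lit 21785216840) (.two (nat_lit 176160770) (nat_lit 2099428) (.two (nat_lit 176160772) (nat_lit 157035792609) (.two (nat_lit 16777217) (nat_lit 336597552) (.two (nat_lit 16777216) (nat_lit 1053490) (.one (nat_lit 1055103) .nil))))))),
   .two (nat_lit 310378563) (nat_lit 3527409729) (.two (nat_lit 37748751) (nat_lit 47555018943) (.two (nat_lit 606076936) (nat_lit 880805089) (.two (nat_lit 169869316) (nat_lit 11014244537) (.two (nat_lit 2097153) (nat_lit 37320921904) (.two (nat_lit 16777216) (nat_lit 37320922782) (.one (nat_lit 8394823) .nil)))))),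
   .two (nat_lit 19130220653) (nat_lit 166130090099) (.two (nat_lit 10504634383) (nat_lit 608174677) (.two (nat_lit 705691654) (nat_lit 10336863054) (.two (nat_lit 9781116935) (nat_lit 705692488) (.two (nat_lit 2956984325) (nat_lit 47582282701) (.two (nat_lit 2956984325) (nat_lit 840959456) (.two (nat_lit 9781116929) (nat_lit 12147756205) (.two (nat_lit 16777216) (nat_lit 1053391) (.one (nat_lit 202381862) .nil)))))))),
   .two (nat_lit 10437525619) (nat_lit 20737687589) (.two (nat_lit 1343225871) (nat_lit 2350907489) (.two (nat_lit 10506731528) (nat_lit 2099071) (.two (nat_lit 705691652) (nat_lit 46477085530) (.two (nat_lit 34603009) (nat_lit 270536495) (.two (nat_lit 16777216) (nat_lit 2102430) (.one (nat_lit 4200520) .nil)))))),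
   .two (nat_lit 47555018770) (nat_lit 10372513925) (.two (nat_lit 10503585829) (nat_lit 174688567333) (.two (nat_lit 158143086603) (nat_lit 156468510912) (.two (nat_lit 2961178639) (nat_lit 28693233761) (.two (nat_lit 1276116998) (nat_lit 9936306648) (.two (nat_lit 2961178632) (nat_lit 156468510937) (.two (nat_lit 11479810050) (nat_lit 8392370) (.two (nat_lit 171966469) (nat_lit 28764538346) (.two (nat_lit 9768534017) (nat_lit 8393266) (.two (nat_lit 1048576) (nat_lit 183953789880) (.one (nat_lit 4200832) .nil)))))))))),
   .two (nat_lit 2954887232) (nat_lit 165525061670) (.two (nat_lit 185020186731) (nat_lit 304087114) (.two (nat_lit 185020186647) (nat_lit 4599055327) (.two (nat_lit 13187940368) (nat_lit 272630347) (.two (nat_lit 165525061640) (nat_lit 156535620426) (.two (nat_lit 285212677) (nat_lit 11477715130) (.two (nat_lit 9781116929) (nat_lit 166229707948) (.two (nat_lit 16777216) (nat_lit 1053495) (.one (nat_lit 1054793) .nil)))))))),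
   .two (nat_lit 2988441667) (nat_lit 37253808384) (.two (nat_lit 2889875471) (nat_lit 2097511) (.two (nat_lit 21214789640) (nat_lit 3021997294) (.two (nat_lit 158150426629) (nat_lit 2100067) (.two (nat_lit 156372041729) (nat_lit 2102314) (.two (nat_lit 2097152) (nat_lit 4199773) (.one (nat_lit 4200524) .nil)))))),
   .two (nat_lit 352321557) (nat_lit 742391929) (.two (nat_lit 10343153700) (nat_lit 203423878) (.two (nat_lit 10343153679) (nat_lit 20638073899) (.two (nat_lit 37748744) (nat_lit 159266112758) (.two (nat_lit 4194308) (nat_lit 9982445787) (.two (nat_lit 4194308) (nat_lit 10007611888) (.two (nat_lit 606076929) (nat_lit 8393269) (.two (nat_lit 2097152) (nat_lit 16782138) (.one (nat_lit 16783745) .nil)))))))),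
   .two (nat_lit 158192369731) (nat_lit 10436476993) (.two (nat_lit 11559501839) (nat_lit 12114199114) (.two (nat_lit 10336862216) (nat_lit 1291846931) (.two (nat_lit 806354949) (nat_lit 20753417707) (.two (nat_lit 46407876611) (nat_lit 3557821623) (.two (nat_lit 2097153) (nat_lit 3557821623) (.two (nat_lit 2097152) (nat_lit 16782139) (.one (nat_lit 16783437) .nil))))))),
   .two (nat_lit 343932993) (nat_lit 183848927299) (.two (nat_lit 1929379855) (nat_lit 12047090264) (.two (nat_lit 754974728) (nat_lit 9899607313) (.two (nat_lit 11559501829) (nat_lit 11543774160) (.two (nat_lit 1191182339) (nat_lit 306187771) (.two (nat_lit 9781116929) (nat_lit 1051853) (.two (nat_lit 1048576) (nat_lit 4199777) (.one (nat_lit 4200527) .nil))))))),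
   .two (nat_lit 16777234) (nat_lit 272629824) (.two (nat_lit 310378533) (nat_lit 4194445) (.two (nat_lit 16777227) (nat_lit 9768534207) (.two (nat_lit 8388623) (nat_lit 4195030) (.two (nat_lit 16777222) (nat_lit 9768534856) (.two (nat_lit 8388616) (nat_lit 46510637276) (.two (nat_lit 16777220) (nat_lit 9768535515) (.two (nat_lit 16777217) (nat_lit 9768535658) (.two (nat_lit 16777216) (nat_lit 4198450) (.one (nat_lit 8395139) .nil))))))))),
   .two (nat_lit 3539992641) (nat_lit 2420113529) (.two (nat_lit 809500687) (nat_lit 3557819002) (.two (nat_lit 809500680) (nat_lit 8390530) (.two (nat_lit 11479810053) (nat_lit 156548204016) (.two (nat_lit 2902458373) (nat_lit 184419353555) (.two (nat_lit 16777217) (nat_lit 3020951435) (.two (nat_lit 8388608) (nat_lit 16782690) (.one (nat_lit 16782861) .nil))))))),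
   .two (nat_lit 21208498241) (nat_lit 19596836983) (.two (nat_lit 9866051595) (nat_lit 21208498750) (.two (nat_lit 1343225871) (nat_lit 1847591107) (.two (nat_lit 10369368072) (nat_lit 21208499016) (.two (nat_lit 9765388293) (nat_lit 35653807) (.two (nat_lit 8388609) (nat_lit 1277169437) (.two (nat_lit 8388608) (nat_lit 2100588) (.one (nat_lit 2103377) .nil))))))),
   .two (nat_lit 612368420) (nat_lit 3457155336) (.two (nat_lit 46407876623) (nat_lit 10007609535) (.two (nat_lit 46407876616) (nat_lit 159224169714) (.two (nat_lit 1277165572) (nat_lit 8392203) (.two (nat_lit 606076929) (nat_lit 1053004) (.two (nat_lit 1048576) (nat_lit 2102627) (.one (nat_lit 2102232) .nil)))))),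
   .two (nat_lit 337641509) (nat_lit 675283204) (.two (nat_lit 10506731535) (nat_lit 28691137126) (.two (nat_lit 639631368) (nat_lit 46977254661) (.two (nat_lit 46978301957) (nat_lit 28690090847) (.two (nat_lit 156367847425) (nat_lit 2887782734) (.two (nat_lit 2097152) (nat_lit 4199784) (.one (nat_lit 2103571) .nil)))))),
   .two (nat_lit 1291845650) (nat_lit 3557818501) (.two (nat_lit 19142803493) (nat_lit 806354981) (.two (nat_lit 10906238995) (nat_lit 721420879) (.two (nat_lit 1795162127) (nat_lit 303038561) (.two (nat_lit 156566028297) (nat_lit 46523221238) (.two (nat_lit 46407876616) (nat_lit 754974937) (.two (nat_lit 158143086597) (nat_lit 3539994843) (.two (nat_lit 34603013) (nat_lit 19142804439) (.two (nat_lit 605028353) (nat_lit 16780495) (.two (nat_lit 2097152) (nat_lit 16782149) (.one (nat_lit 2102805) .nil)))))))))),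
   .two (nat_lit 8388672) (nat_lit 185035915301) (.two (nat_lit 50331663) (nat_lit 8388799) (.two (nat_lit 8388616) (nat_lit 156548202972) (.two (nat_lit 2902458370) (nat_lit 8390133) (.two (nat_lit 16777220) (nat_lit 10007609571) (.two (nat_lit 9781116929) (nat_lit 8391062) (.two (nat_lit 8388608) (nat_lit 1052730) (.one (nat_lit 1054809) .nil))))))),
   .two (nat_lit 183946444820) (nat_lit 11559501938) (.two (nat_lit 185020186648) (nat_lit 11559502816) (.two (nat_lit 184986632200) (nat_lit 11559502816) (.two (nat_lit 638582789) (nat_lit 28772926956) (.two (nat_lit 705691652) (nat_lit 11559502816) (.two (nat_lit 8388609) (nat_lit 28806482319) (.two (nat_lit 1048576) (nat_lit 16782235) (.one (nat_lit 16782235) .nil))))))),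
   .two (nat_lit 3527409777) (nat_lit 47588573543) (.two (nat_lit 2889875471) (nat_lit 8389864) (.two (nat_lit 2889875464) (nat_lit 8391424) (.two (nat_lit 272629765) (nat_lit 8391829) (.two (nat_lit 2097153) (nat_lit 4199526) (.two (nat_lit 2097152) (nat_lit 4200196) (.one (nat_lit 2103701) .nil)))))),
   .two (nat_lit 165526110275) (nat_lit 4613735242) (.two (nat_lit 10385096712) (nat_lit 159217879214) (.two (nat_lit 1291845636) (nat_lit 1847594132) (.two (nat_lit 2097153) (nat_lit 184553479) (.two (nat_lit 1048576) (nat_lit 20738742370) .nil)))),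
   .two (nat_lit 285212736) (nat_lit 1212154696) (.two (nat_lit 822083592) (nat_lit 158146234543) (.two (nat_lit 13191086085) (nat_lit 285216773) (.two (nat_lit 4194304) (nat_lit 822089825) .nil))),
   .two (nat_lit 1343225923) (nat_lit 1753219912) (.two (nat_lit 9866051592) (nat_lit 8390834) (.two (nat_lit 1343225861) (nat_lit 8391830) (.two (nat_lit 41943041) (nat_lit 168825455) (.two (nat_lit 1048576) (nat_lit 156573373315) (.one (nat_lit 1054821) .nil))))),
   .two (nat_lit 285212739) (nat_lit 19532874308) (.two (nat_lit 2902458383) (nat_lit 9802089947) (.two (nat_lit 4194308) (nat_lit 2969571333) (.two (nat_lit 4194304) (nat_lit 687870850) (.one (nat_lit 1379932251) .nil)))),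
   .two (nat_lit 11513364595) (nat_lit 47596961983) (.two (nat_lit 9881780239) (nat_lit 34604256) (.two (nat_lit 4194312) (nat_lit 9948890587) (.two (nat_lit 1343225861) (nat_lit 1325403282) (.two (nat_lit 4194305) (nat_lit 2969571952) (.two (nat_lit 16777216) (nat_lit 19529733879) (.one (nat_lit 1055126) .nil)))))),
   .two (nat_lit 339738689) (nat_lit 10007609535) (.two (nat_lit 47548727311) (nat_lit 10369368904) (.two (nat_lit 10506731528) (nat_lit 1209010348) (.two (nat_lit 47550824453) (nat_lit 10001321698) (.two (nat_lit 605028353) (nat_lit 109056629) (.two (nat_lit 1048576) (nat_lit 10001323419) (.one (nat_lit 1054822) .nil)))))),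
   .two (nat_lit 721420353) (nat_lit 184993973064) (.two (nat_lit 713031688) (nat_lit 11559503323) (.two (nat_lit 41943045) (nat_lit 16780439) (.two (nat_lit 50331649) (nat_lit 1283461745) (.two (nat_lit 8388608) (nat_lit 16783109) (.one (nat_lit 8395144) .nil))))),
   .two (nat_lit 135266415) (nat_lit 1962934463) (.two (nat_lit 1745879055) (nat_lit 117442011) (.two (nat_lit 183845781508) (nat_lit 2936016902) (.two (nat_lit 8388608) (nat_lit 620763229) .nil))),
   .two (nat_lit 11551113281) (nat_lit 21811430217) (.two (nat_lit 276824072) (nat_lit 1780485268) (.two (nat_lit 2097153) (nat_lit 1053311) (.two (nat_lit 1048576) (nat_lit 2102684) (.one (nat_lit 1054823) .nil)))),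
   .two (nat_lit 47582281841) (nat_lit 21827158207) (.two (nat_lit 11492392975) (nat_lit 21814577324) (.two (nat_lit 169869316) (nat_lit 16780439) (.two (nat_lit 50331649) (nat_lit 158649553519) (.two (nat_lit 4194304) (nat_lit 156984416347) .nil)))),
   .two (nat_lit 10504634435) (nat_lit 166136382025) (.two (nat_lit 28772925455) (nat_lit 19027460936) (.two (nat_lit 11492392968) (nat_lit 11618223580) (.two (nat_lit 50331653) (nat_lit 11618225293) (.two (nat_lit 620756993) (nat_lit 2921337470) (.two (nat_lit 2097152) (nat_lit 41948568) (.one (nat_lit 2103703) .nil)))))),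
   .two (nat_lit 28093448304) (nat_lit 11543773544) (.two (nat_lit 4613734415) (nat_lit 813695818) (.two (nat_lit 47563407368) (nat_lit 10007611565) (.two (nat_lit 270532613) (nat_lit 9781120141) (.two (nat_lit 34603009) (nat_lit 19134419582) (.two (nat_lit 1048576) (nat_lit 2103046) (.one (nat_lit 1055128) .nil)))))),
   .two (nat_lit 4605345856) (nat_lit 2097740) (.two (nat_lit 156372041743) (nat_lit 174753580257) (.two (nat_lit 47555018760) (nat_lit 2099379) (.two (nat_lit 46414168068) (nat_lit 2100964) (.two (nat_lit 34603009) (nat_lit 8393831) (.two (nat_lit 1048576) (nat_lit 2103047) (.one (nat_lit 2103705) .nil)))))),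
   .two (nat_lit 156971827315) (nat_lit 2097512) (.two (nat_lit 19599982607) (nat_lit 606078180) (.two (nat_lit 606076936) (nat_lit 11559503323) (.two (nat_lit 169869316) (nat_lit 16780440) (.two (nat_lit 37748737) (nat_lit 9967768183) (.two (nat_lit 16777216) (nat_lit 19029563129) (.one (nat_lit 4200858) .nil)))))),
   .two (nat_lit 8388672) (nat_lit 12150899047) (.two (nat_lit 276824079) (nat_lit 4634708135) (.two (nat_lit 9765388293) (nat_lit 4198117) (.two (nat_lit 8388609) (nat_lit 1053312) (.two (nat_lit 4194304) (nat_lit 8394504) (.one (nat_lit 1055131) .nil))))),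
   .two (nat_lit 272629824) (nat_lit 166229705063) (.two (nat_lit 2889875471) (nat_lit 679478500) (.two (nat_lit 4194312) (nat_lit 69208237) (.two (nat_lit 2956984325) (nat_lit 109055124) (.two (nat_lit 41943041) (nat_lit 706744960) (.two (nat_lit 1048576) (nat_lit 2102685) (.one (nat_lit 168826972) .nil)))))),
   .two (nat_lit 2969567296) (nat_lit 8389194) (.two (nat_lit 11559501839) (nat_lit 806357167) (.two (nat_lit 28757196805) (nat_lit 3464498321) (.two (nat_lit 41943041) (nat_lit 13221499510) (.two (nat_lit 1048576) (nat_lit 8394505) (.one (nat_lit 8395164) .nil))))),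
   .two (nat_lit 754974833) (nat_lit 41943231) (.two (nat_lit 612368399) (nat_lit 157051521197) (.two (nat_lit 176160772) (nat_lit 12115250321) (.two (nat_lit 2097153) (nat_lit 41948568) (.one (nat_lit 2103700) .nil)))),
   .two (nat_lit 158647451714) (nat_lit 156481093992) (.two (nat_lit 21208498191) (nat_lit 12114200751) (.two (nat_lit 171966469) (nat_lit 16781030) (.two (nat_lit 605028353) (nat_lit 1379930743) (.two (nat_lit 1048576) (nat_lit 2103050) (.one (nat_lit 1055133) .nil))))),
   .two (nat_lit 343932993) (nat_lit 12114198887) (.two (nat_lit 4601151503) (nat_lit 1175454536) (.two (nat_lit 9940500488) (nat_lit 638585005) (.two (nat_lit 3531603973) (nat_lit 10907290769) (.two (nat_lit 156372041729) (nat_lit 4027584518) (.two (nat_lit 4194304) (nat_lit 9933165981) (.one (nat_lit 1055134) .nil)))))),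
   .two (nat_lit 1358954563) (nat_lit 8388799) (.two (nat_lit 9881780239) (nat_lit 8389865) (.two (nat_lit 9881780232) (nat_lit 880805339) (.two (nat_lit 1358954501) (nat_lit 8391833) (.two (nat_lit 9765388289) (nat_lit 9915339388) (.two (nat_lit 1048576) (nat_lit 8394490) (.one (nat_lit 16783775) .nil)))))),
   .two (nat_lit 2954887232) (nat_lit 156535619775) (.two (nat_lit 813694991) (nat_lit 46510638292) (.two (nat_lit 9934209032) (nat_lit 19033753773) (.two (nat_lit 46409973764) (nat_lit 11477716119) (.two (nat_lit 41943041) (nat_lit 18926801526) (.two (nat_lit 2097152) (nat_lit 8394507) (.one (nat_lit 2103712) .nil)))))),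
   .two (nat_lit 2954887232) (nat_lit 10343153855) (.two (nat_lit 2954887183) (nat_lit 10343155880) (.two (nat_lit 169869316) (nat_lit 343937028) (.two (nat_lit 2097152) (nat_lit 8394142) (.one (nat_lit 37314631771) .nil)))),
   .two (nat_lit 156535619651) (nat_lit 4647289023) (.two (nat_lit 166132187151) (nat_lit 156984411361) (.two (nat_lit 166132187144) (nat_lit 9781118428) (.two (nat_lit 157038936069) (nat_lit 2920287380) (.two (nat_lit 9765388289) (nat_lit 4199041) (.two (nat_lit 4194304) (nat_lit 166196156510) .nil))))),
   .two (nat_lit 1417674862) (nat_lit 156367847615) (.two (nat_lit 713031695) (nat_lit 28760343776) (.two (nat_lit 713031688) (nat_lit 11513365980) (.two (nat_lit 13195280389) (nat_lit 11513367693) (.two (nat_lit 9781116929) (nat_lit 13191091608) (.one (nat_lit 4613740937) .nil))))),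
   .two (nat_lit 8388672) (nat_lit 37262197097) (.two (nat_lit 8388623) (nat_lit 28693234921) (.two (nat_lit 9881780232) (nat_lit 880805339) (.two (nat_lit 117440517) (nat_lit 205524116) (.two (nat_lit 620756993) (nat_lit 10338964097) (.two (nat_lit 16777216) (nat_lit 4030732379) .nil))))),
   .two (nat_lit 184419352686) (nat_lit 41943231) (.two (nat_lit 813694991) (nat_lit 183949591764) (.two (nat_lit 19599982600) (nat_lit 10504637587) (.two (nat_lit 2097153) (nat_lit 4199528) (.two (nat_lit 2097152) (nat_lit 41948939) (.one (nat_lit 2103713) .nil))))),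
   .two (nat_lit 11584667714) (nat_lit 174752530790) (.two (nat_lit 12054429711) (nat_lit 11577329836) (.two (nat_lit 4194308) (nat_lit 8392424) (.two (nat_lit 37748737) (nat_lit 34607734) (.two (nat_lit 1048576) (nat_lit 8394508) (.one (nat_lit 8395170) .nil))))),
   .two (nat_lit 339738734) (nat_lit 10007609535) (.two (nat_lit 813694991) (nat_lit 19130221775) (.two (nat_lit 46409973768) (nat_lit 2099376) (.two (nat_lit 46409973764) (nat_lit 10940845201) (.two (nat_lit 8388609) (nat_lit 2101890) (.two (nat_lit 8388608) (nat_lit 2103053) (.one (nat_lit 8395171) .nil)))))),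
   .two (nat_lit 8388672) (nat_lit 13191086271) (.two (nat_lit 176160783) (nat_lit 158179788000) (.two (nat_lit 184993972232) (nat_lit 18926799021) (.two (nat_lit 46409973764) (nat_lit 2100969) (.two (nat_lit 9766436865) (nat_lit 174692766326) (.two (nat_lit 2097152) (nat_lit 8394510) (.one (nat_lit 2103716) .nil)))))),
   .two (nat_lit 183853121601) (nat_lit 1916797286) (.two (nat_lit 11479810063) (nat_lit 18933089096) (.two (nat_lit 183848927240) (nat_lit 12054432911) (.two (nat_lit 37748737) (nat_lit 8392712) (.two (nat_lit 4194304) (nat_lit 8394511) (.one (nat_lit 8395173) .nil))))),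
   .two (nat_lit 272629826) (nat_lit 310378687) (.two (nat_lit 272629775) (nat_lit 1913652040) (.two (nat_lit 809500680) (nat_lit 20704135340) (.two (nat_lit 4194308) (nat_lit 1052394) (.two (nat_lit 605028353) (nat_lit 2319454838) (.two (nat_lit 1048576) (nat_lit 4200208) (.one (nat_lit 1055142) .nil)))))),
   .two (nat_lit 1343225923) (nat_lit 4194894) (.two (nat_lit 9866051599) (nat_lit 8390428) (.two (nat_lit 4194312) (nat_lit 10007610843) (.two (nat_lit 171966469) (nat_lit 8391834) (.two (nat_lit 41943041) (nat_lit 11510223489) (.two (nat_lit 8388608) (nat_lit 1054481) (.one (nat_lit 34609548) .nil)))))),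
   .two (nat_lit 8388672) (nat_lit 21777875522) (.two (nat_lit 13191086095) (nat_lit 13187941194) (.two (nat_lit 18925748232) (nat_lit 9768535515) (.two (nat_lit 156364701701) (nat_lit 4198123) (.two (nat_lit 16777217) (nat_lit 806360477) (.one (nat_lit 8395175) .nil))))),
   .two (nat_lit 754974785) (nat_lit 8388799) (.two (nat_lit 754974735) (nat_lit 19537069280) (.two (nat_lit 754974728) (nat_lit 8391425) (.two (nat_lit 157035790341) (nat_lit 21818773221) (.two (nat_lit 16777217) (nat_lit 8393339) (.two (nat_lit 1048576) (nat_lit 8394517) (.one (nat_lit 839915621) .nil)))))),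
   .two (nat_lit 3021996097) (nat_lit 10007609535) (.two (nat_lit 8388623) (nat_lit 10907288807) (.two (nat_lit 46407876616) (nat_lit 9768535515) (.two (nat_lit 10336862213) (nat_lit 876612758) (.two (nat_lit 156364701697) (nat_lit 2101255) (.two (nat_lit 4194304) (nat_lit 1054111) (.one (nat_lit 4200552) .nil)))))),
   .two (nat_lit 8388672) (nat_lit 13191086271) (.two (nat_lit 176160783) (nat_lit 158179788000) (.two (nat_lit 46409973768) (nat_lit 69208240) (.two (nat_lit 46414168069) (nat_lit 13188992746) (.two (nat_lit 9766436865) (nat_lit 174692766326) (.two (nat_lit 2097152) (nat_lit 41948942) (.one (nat_lit 2103698) .nil)))))),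
   .two (nat_lit 3464495214) (nat_lit 174753579365) (.two (nat_lit 46414168079) (nat_lit 158647452905) (.two (nat_lit 46414168072) (nat_lit 236981399) (.two (nat_lit 8388609) (nat_lit 3458208416) (.two (nat_lit 2097152) (nat_lit 8394625) (.one (nat_lit 270539158) .nil))))),
   .two (nat_lit 2954887232) (nat_lit 10376708701) (.two (nat_lit 37748751) (nat_lit 343934427) (.two (nat_lit 4194308) (nat_lit 12054432934) (.two (nat_lit 2097153) (nat_lit 809505422) (.two (nat_lit 2097152) (nat_lit 4200322) (.one (nat_lit 2103786) .nil))))),
   .two (nat_lit 46510637165) (nat_lit 1795162469) (.two (nat_lit 9768534031) (nat_lit 10385097544) (.two (nat_lit 9781116940) (nat_lit 166132189353) (.two (nat_lit 46409973765) (nat_lit 16781078) (.two (nat_lit 9781116929) (nat_lit 641732618) (.two (nat_lit 16777216) (nat_lit 46510642997) (.one (nat_lit 352328118) .nil)))))),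
   .two (nat_lit 3527409780) (nat_lit 1753219263) (.two (nat_lit 18933088271) (nat_lit 166132189353) (.two (nat_lit 2889875461) (nat_lit 46414171288) (.two (nat_lit 4194305) (nat_lit 176164872) (.two (nat_lit 4194304) (nat_lit 8394159) (.one (nat_lit 8395243) .nil))))),
   .two (nat_lit 10538188912) (nat_lit 1384120679) (.two (nat_lit 1178599439) (nat_lit 46407877867) (.two (nat_lit 11551113224) (nat_lit 9899608240) (.two (nat_lit 2097157) (nat_lit 158083320998) (.two (nat_lit 2097153) (nat_lit 1913655998) (.two (nat_lit 2097152) (nat_lit 1054596) (.one (nat_lit 1055212) .nil)))))),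
   .two (nat_lit 2969567296) (nat_lit 19530777273) (.two (nat_lit 654311439) (nat_lit 138414291) (.two (nat_lit 183848927237) (nat_lit 203427635) (.two (nat_lit 2097153) (nat_lit 184986636928) (.two (nat_lit 1048576) (nat_lit 2103173) (.one (nat_lit 1055213) .nil))))),
   .two (nat_lit 742391873) (nat_lit 19093520575) (.two (nat_lit 11551113231) (nat_lit 28690089199) (.two (nat_lit 742391816) (nat_lit 10939796266) (.two (nat_lit 9768534021) (nat_lit 19604180142) (.two (nat_lit 37748737) (nat_lit 28691141236) (.two (nat_lit 2097152) (nat_lit 4200329) (.one (nat_lit 706746814) .nil)))))),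
   .two (nat_lit 9974054979) (nat_lit 10370417284) (.two (nat_lit 19604176920) (nat_lit 742393059) (.two (nat_lit 9768534024) (nat_lit 10007611565) (.two (nat_lit 708837381) (nat_lit 156472708241) (.two (nat_lit 4194305) (nat_lit 166197203661) (.two (nat_lit 8388608) (nat_lit 4200330) (.one (nat_lit 4200944) .nil)))))),
   .two (nat_lit 11584667714) (nat_lit 1276117688) (.two (nat_lit 205520911) (nat_lit 18933089096) (.two (nat_lit 205520904) (nat_lit 880807076) (.two (nat_lit 4194305) (nat_lit 156372045828) (.two (nat_lit 1048576) (nat_lit 243275173) (.one (nat_lit 34609253) .nil))))),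
   .two (nat_lit 158083317825) (nat_lit 10537140859) (.two (nat_lit 156372041743) (nat_lit 809501927) (.two (nat_lit 9768534024) (nat_lit 11618224301) (.two (nat_lit 171966469) (nat_lit 343936166) (.two (nat_lit 4194305) (nat_lit 183853126310) (.two (nat_lit 1048576) (nat_lit 4200331) (.one (nat_lit 4200945) .nil)))))),
   .two (nat_lit 654311538) (nat_lit 10540286312) (.two (nat_lit 12117344271) (nat_lit 4647290099) (.two (nat_lit 11479810056) (nat_lit 46523223190) (.two (nat_lit 37748737) (nat_lit 285217407) (.two (nat_lit 16777216) (nat_lit 2923435781) (.one (nat_lit 20740839819) .nil))))),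
   .two (nat_lit 4605345858) (nat_lit 10003415740) (.two (nat_lit 2889875471) (nat_lit 156372043227) (.two (nat_lit 272629765) (nat_lit 46414171279) (.two (nat_lit 4194305) (nat_lit 41947144) (.two (nat_lit 4194304) (nat_lit 8394135) (.one (nat_lit 37755321) .nil))))),
   .two (nat_lit 41943107) (nat_lit 13203669834) (.two (nat_lit 1191182344) (nat_lit 310380758) (.two (nat_lit 2887778308) (nat_lit 2927627414) (.two (nat_lit 2097153) (nat_lit 19100865410) (.one (nat_lit 8394862) .nil)))),
   .two (nat_lit 8388672) (nat_lit 11610882612) (.two (nat_lit 176160783) (nat_lit 18928895241) (.two (nat_lit 183845781512) (nat_lit 9768535515) (.two (nat_lit 1344274437) (nat_lit 8392492) (.two (nat_lit 16777217) (nat_lit 135271298) (.one (nat_lit 13222549614) .nil))))),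
   .two (nat_lit 183845781620) (nat_lit 654311615) (.two (nat_lit 9781116943) (nat_lit 4030728027) (.two (nat_lit 156367847432) (nat_lit 158143088815) (.two (nat_lit 34603013) (nat_lit 1426067180) (.two (nat_lit 2097153) (nat_lit 1053863) (.two (nat_lit 2097152) (nat_lit 3024099433) .nil))))),
   .two (nat_lit 184993972288) (nat_lit 3524264544) (.two (nat_lit 205520911) (nat_lit 2424309031) (.two (nat_lit 205520904) (nat_lit 184423549113) (.two (nat_lit 1745879045) (nat_lit 9974058732) (.two (nat_lit 4194305) (nat_lit 9933165178) (.two (nat_lit 4194304) (nat_lit 1054605) (.one (nat_lit 4200946) .nil)))))),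
   .two (nat_lit 2887778369) (nat_lit 156367848264) (.two (nat_lit 4194312) (nat_lit 352324423) (.two (nat_lit 8388612) (nat_lit 184986636293) (.two (nat_lit 8388608) (nat_lit 339744872) .nil))),
   .two (nat_lit 285212737) (nat_lit 1379926377) (.two (nat_lit 285212687) (nat_lit 9902752993) (.two (nat_lit 104857608) (nat_lit 11492396173) (.two (nat_lit 16777217) (nat_lit 12121543802) (.two (nat_lit 4194304) (nat_lit 8394551) (.one (nat_lit 183953791402) .nil))))),
   .two (nat_lit 3527409730) (nat_lit 3557818953) (.two (nat_lit 276824079) (nat_lit 3527410504) (.two (nat_lit 276824072) (nat_lit 1413482671) (.two (nat_lit 8388612) (nat_lit 20704136362) (.two (nat_lit 4194305) (nat_lit 28757201561) (.two (nat_lit 4194304) (nat_lit 156465370525) (.one (nat_lit 19599988835) .nil)))))),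
   .two (nat_lit 310378563) (nat_lit 3527410504) (.two (nat_lit 156372041736) (nat_lit 28693235893) (.two (nat_lit 46980399109) (nat_lit 183853125391) (.two (nat_lit 8388609) (nat_lit 158146237039) (.two (nat_lit 4194304) (nat_lit 8394638) (.one (nat_lit 20707285402) .nil))))),
   .two (nat_lit 1795162179) (nat_lit 20705182337) (.two (nat_lit 713031695) (nat_lit 117441353) (.two (nat_lit 754974728) (nat_lit 874514634) (.two (nat_lit 822083589) (nat_lit 13195283626) (.two (nat_lit 2097153) (nat_lit 28093453009) (.two (nat_lit 16777216) (nat_lit 28093454091) (.one (nat_lit 8395252) .nil)))))),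
   .two (nat_lit 285212736) (nat_lit 339738986) (.two (nat_lit 11492392975) (nat_lit 166129042660) (.two (nat_lit 4194312) (nat_lit 285215887) (.two (nat_lit 4194305) (nat_lit 21223182342) (.two (nat_lit 4194304) (nat_lit 336599141) .nil)))),
   .two (nat_lit 2969567296) (nat_lit 184987681376) (.two (nat_lit 158144135183) (nat_lit 3036677359) (.two (nat_lit 1277165576) (nat_lit 2969570163) (.two (nat_lit 156372041733) (nat_lit 183846833300) (.two (nat_lit 41943041) (nat_lit 304091770) (.two (nat_lit 8388608) (nat_lit 2103183) (.one (nat_lit 8395253) .nil)))))),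
   .two (nat_lit 16777331) (nat_lit 28758245567) (.two (nat_lit 184549391) (nat_lit 2350908649) (.two (nat_lit 184549384) (nat_lit 10940843484) (.two (nat_lit 184549380) (nat_lit 236981399) (.two (nat_lit 16777217) (nat_lit 46978306720) (.two (nat_lit 2097152) (nat_lit 11626616218) (.one (nat_lit 12115253339) .nil)))))),
   .two (nat_lit 2969567296) (nat_lit 10504634559) (.two (nat_lit 2969567247) (nat_lit 679478090) (.two (nat_lit 9766436872) (nat_lit 721422522) (.two (nat_lit 2887778308) (nat_lit 3539996411) (.two (nat_lit 2097153) (nat_lit 1417679486) (.two (nat_lit 8388608) (nat_lit 2103184) (.one (nat_lit 1344280965) .nil)))))),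
   .two (nat_lit 10437525570) (nat_lit 156380431019) (.two (nat_lit 1847590927) (nat_lit 9982444771) (.two (nat_lit 2969567240) (nat_lit 28087158975) (.two (nat_lit 9948889093) (nat_lit 157036842157) (.two (nat_lit 9766436865) (nat_lit 21827162123) (.two (nat_lit 2097152) (nat_lit 16783249) (.one (nat_lit 2103798) .nil)))))),
   .two (nat_lit 2316304496) (nat_lit 10007609535) (.two (nat_lit 713031695) (nat_lit 839910701) (.two (nat_lit 184416206856) (nat_lit 158653745349) (.two (nat_lit 183845781508) (nat_lit 713034905) (.two (nat_lit 34603009) (nat_lit 1350570677) (.two (nat_lit 1048576) (nat_lit 8394643) (.one (nat_lit 11618228678) .nil)))))),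
   .two (nat_lit 1358954606) (nat_lit 272629951) (.two (nat_lit 11559501839) (nat_lit 1782581449) (.two (nat_lit 11492392965) (nat_lit 156569177230) (.two (nat_lit 50331649) (nat_lit 4199592) (.two (nat_lit 1048576) (nat_lit 16783252) (.one (nat_lit 1055223) .nil))))),
   .two (nat_lit 12147753025) (nat_lit 83886920) (.two (nat_lit 739246088) (nat_lit 158192372892) (.two (nat_lit 50331649) (nat_lit 9866056359) (.two (nat_lit 16777216) (nat_lit 1054613) (.one (nat_lit 20704139710) .nil)))),
   .two (nat_lit 8388672) (nat_lit 1191182916) (.two (nat_lit 9781116943) (nat_lit 11484005629) (.two (nat_lit 2969567240) (nat_lit 11618225293) (.two (nat_lit 16777217) (nat_lit 880807940) (.two (nat_lit 8388608) (nat_lit 16783254) (.one (nat_lit 2994739640) .nil))))),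
   .two (nat_lit 3464495214) (nat_lit 4634706111) (.two (nat_lit 272629775) (nat_lit 20644365527) (.two (nat_lit 809500680) (nat_lit 159224169948) (.two (nat_lit 4194308) (nat_lit 158653747210) (.two (nat_lit 4194304) (nat_lit 8394647) (.one (nat_lit 4200953) .nil))))),
   .two (nat_lit 13195280496) (nat_lit 352321727) (.two (nat_lit 183853121551) (nat_lit 16779168) (.two (nat_lit 12054429704) (nat_lit 159232559293) (.two (nat_lit 13195280389) (nat_lit 183962176668) (.two (nat_lit 156364701697) (nat_lit 47563412150) (.two (nat_lit 8388608) (nat_lit 3003127636) (.one (nat_lit 8395258) .nil)))))),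
   .two (nat_lit 1847590977) (nat_lit 822084179) (.two (nat_lit 654311439) (nat_lit 639633621) (.two (nat_lit 270532613) (nat_lit 11492396175) (.two (nat_lit 2097153) (nat_lit 184553479) (.two (nat_lit 1048576) (nat_lit 184554920) (.one (nat_lit 16783867) .nil))))),
   .two (nat_lit 8388672) (nat_lit 19532874308) (.two (nat_lit 8388623) (nat_lit 156971829416) (.two (nat_lit 8388612) (nat_lit 156569178116) (.two (nat_lit 8388608) (nat_lit 9802093993) (.one (nat_lit 4200956) .nil)))),
   .two (nat_lit 11559501891) (nat_lit 37246468673) (.two (nat_lit 754974735) (nat_lit 159250385073) (.two (nat_lit 11543773189) (nat_lit 285216773) (.two (nat_lit 1048576) (nat_lit 9814676354) (.one (nat_lit 83892316) .nil)))),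
   .two (nat_lit 4194369) (nat_lit 21785215542) (.two (nat_lit 4194319) (nat_lit 21785216207) (.two (nat_lit 9934209032) (nat_lit 166129044260) (.two (nat_lit 169869316) (nat_lit 158075981619) (.two (nat_lit 2097153) (nat_lit 4631565434) (.two (nat_lit 4194304) (nat_lit 1054616) (.one (nat_lit 1055229) .nil)))))),
   .two (nat_lit 343932995) (nat_lit 12062818923) (.two (nat_lit 176160783) (nat_lit 10015999237) (.two (nat_lit 822083592) (nat_lit 10007611563) (.two (nat_lit 16777220) (nat_lit 75501581) (.two (nat_lit 1048576) (nat_lit 8394649) (.one (nat_lit 1055230) .nil))))),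
   .two (nat_lit 272629824) (nat_lit 276824906) (.two (nat_lit 4194312) (nat_lit 20644367503) (.two (nat_lit 4194305) (nat_lit 343937031) (.two (nat_lit 1048576) (nat_lit 158649554686) (.one (nat_lit 13195286950) .nil)))),
   .two (nat_lit 285212736) (nat_lit 12150899368) (.two (nat_lit 11492392975) (nat_lit 47584380145) (.two (nat_lit 46409973768) (nat_lit 9781118427) (.two (nat_lit 9933160453) (nat_lit 9781120141) (.two (nat_lit 4194305) (nat_lit 11492397070) (.two (nat_lit 4194304) (nat_lit 16783259) (.one (nat_lit 4200959) .nil)))))),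
   .two (nat_lit 4601151552) (nat_lit 1182794313) (.two (nat_lit 4601151503) (nat_lit 46984594681) (.two (nat_lit 4601151496) (nat_lit 19134417782) (.two (nat_lit 4194308) (nat_lit 46514835248) (.two (nat_lit 41943041) (nat_lit 3527414402) (.two (nat_lit 8388608) (nat_lit 2103196) (.one (nat_lit 2103808) .nil)))))),
   .two (nat_lit 41943107) (nat_lit 13191086271) (.two (nat_lit 713031695) (nat_lit 46477083920) (.two (nat_lit 9766436872) (nat_lit 843058035) (.two (nat_lit 713031684) (nat_lit 184987683988) (.two (nat_lit 2097153) (nat_lit 28697432749) (.two (nat_lit 2097152) (nat_lit 8394657) (.one (nat_lit 8395265) .nil)))))),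
   .two (nat_lit 2889875523) (nat_lit 18933089096) (.two (nat_lit 272629768) (nat_lit 183853124751) (.two (nat_lit 4194305) (nat_lit 156573373315) (.one (nat_lit 343939176) .nil))),
   .two (nat_lit 16777280) (nat_lit 3565159058) (.two (nat_lit 83886095) (nat_lit 47588575033) (.two (nat_lit 721420296) (nat_lit 1350568799) (.two (nat_lit 713031684) (nat_lit 12129931273) (.two (nat_lit 4194304) (nat_lit 1426068888) (.one (nat_lit 16783874) .nil))))),
   .two (nat_lit 28693233777) (nat_lit 2323644780) (.two (nat_lit 156971827215) (nat_lit 46414168904) (.two (nat_lit 156971827208) (nat_lit 780142806) (.two (nat_lit 19599982597) (nat_lit 9906949270) (.two (nat_lit 156367847425) (nat_lit 746590214) (.two (nat_lit 1048576) (nat_lit 1417680285) (.one (nat_lit 1417681382) .nil)))))),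
   .two (nat_lit 11584667715) (nat_lit 185002361519) (.two (nat_lit 285212687) (nat_lit 28093449491) (.two (nat_lit 50331656) (nat_lit 46414170295) (.two (nat_lit 721420292) (nat_lit 184993975467) (.two (nat_lit 41943041) (nat_lit 46523225510) (.one (nat_lit 47548733531) .nil))))),
   .two (nat_lit 218103874) (nat_lit 606077583) (.two (nat_lit 218103823) (nat_lit 185021237423) (.two (nat_lit 2969567237) (nat_lit 174753582861) (.two (nat_lit 2097153) (nat_lit 1761612446) (.two (nat_lit 2097152) (nat_lit 18941482762) (.one (nat_lit 18926803357) .nil))))),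
   .two (nat_lit 184993972290) (nat_lit 1947205994) (.two (nat_lit 101711887) (nat_lit 9806284045) (.two (nat_lit 101711880) (nat_lit 12054431196) (.two (nat_lit 1779433477) (nat_lit 19100863633) (.two (nat_lit 34603009) (nat_lit 159224173993) (.one (nat_lit 12617521246) .nil))))),
   .two (nat_lit 8388672) (nat_lit 47548727653) (.two (nat_lit 713031695) (nat_lit 47582283047) (.two (nat_lit 28757196808) (nat_lit 606079171) (.two (nat_lit 1745879045) (nat_lit 3021999842) (.two (nat_lit 606076929) (nat_lit 75502227) (.two (nat_lit 2097152) (nat_lit 8394660) (.one (nat_lit 2103811) .nil)))))),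
   .two (nat_lit 1343225923) (nat_lit 1384120511) (.two (nat_lit 272629775) (nat_lit 28093449423) (.two (nat_lit 4194312) (nat_lit 10007611559) (.two (nat_lit 4194308) (nat_lit 8392428) (.two (nat_lit 4194305) (nat_lit 21818774213) (.two (nat_lit 4194304) (nat_lit 672143459) .nil))))),
   .two (nat_lit 176160834) (nat_lit 20707279485) (.two (nat_lit 176160783) (nat_lit 239076611) (.two (nat_lit 176160776) (nat_lit 218106669) (.two (nat_lit 8388613) (nat_lit 28101840020) (.two (nat_lit 8388609) (nat_lit 788533882) (.two (nat_lit 8388608) (nat_lit 13237229385) (.one (nat_lit 16783878) .nil)))))),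
   .two (nat_lit 285212736) (nat_lit 843055462) (.two (nat_lit 2902458383) (nat_lit 18928895251) (.two (nat_lit 46409973768) (nat_lit 822085083) (.two (nat_lit 4601151493) (nat_lit 19142806681) (.two (nat_lit 4194305) (nat_lit 11593060362) (.two (nat_lit 4194304) (nat_lit 16783269) (.one (nat_lit 46510643716) .nil)))))),
   .two (nat_lit 2954887234) (nat_lit 165528207962) (.two (nat_lit 2954887183) (nat_lit 4195632) (.two (nat_lit 2954887176) (nat_lit 3527411164) (.two (nat_lit 203423749) (nat_lit 11010051225) (.two (nat_lit 2097153) (nat_lit 339742730) (.two (nat_lit 16777216) (nat_lit 2103207) (.one (nat_lit 2103817) .nil)))))),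
   .two (nat_lit 10538188911) (nat_lit 2994733247) (.two (nat_lit 2887778319) (nat_lit 174692762897) (.two (nat_lit 2887778312) (nat_lit 47555020252) (.two (nat_lit 270532613) (nat_lit 1753222310) (.two (nat_lit 2097153) (nat_lit 1216353709) (.one (nat_lit 304093289) .nil))))),
   .two (nat_lit 184419352641) (nat_lit 135266887) (.two (nat_lit 184419352591) (nat_lit 21207451859) (.two (nat_lit 739246085) (nat_lit 306188047) (.two (nat_lit 156364701697) (nat_lit 37249618587) (.two (nat_lit 1048576) (nat_lit 4200361) (.one (nat_lit 1055242) .nil))))),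
   .two (nat_lit 12117344323) (nat_lit 184549956) (.two (nat_lit 18928893967) (nat_lit 4613735723) (.two (nat_lit 285212680) (nat_lit 1749027987) (.two (nat_lit 37748737) (nat_lit 620761092) (.two (nat_lit 4194304) (nat_lit 2902463913) (.one (nat_lit 11479816636) .nil))))),
   .two (nat_lit 4605345859) (nat_lit 4195007) (.two (nat_lit 1178599439) (nat_lit 156372042568) (.two (nat_lit 742391816) (nat_lit 780143766) (.two (nat_lit 37748737) (nat_lit 28764541826) (.one (nat_lit 713037934) .nil)))),
   .two (nat_lit 8388672) (nat_lit 3457155433) (.two (nat_lit 11551113231) (nat_lit 1846544197) (.two (nat_lit 1780482056) (nat_lit 10939796290) (.two (nat_lit 1277165572) (nat_lit 2323648316) (.two (nat_lit 9765388289) (nat_lit 236983457) (.two (nat_lit 8388608) (nat_lit 2103210) (.one (nat_lit 2103819) .nil)))))),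
   .two (nat_lit 4605345858) (nat_lit 184989778539) (.two (nat_lit 4605345807) (nat_lit 156367848709) (.two (nat_lit 4194312) (nat_lit 183853124752) (.two (nat_lit 4194305) (nat_lit 11517562893) (.two (nat_lit 1048576) (nat_lit 4200363) (.one (nat_lit 21207456229) .nil))))),
   .two (nat_lit 169869377) (nat_lit 10007610184) (.two (nat_lit 4194312) (nat_lit 10007610843) (.two (nat_lit 4194308) (nat_lit 806358850) (.two (nat_lit 4194305) (nat_lit 2316309110) (.two (nat_lit 1048576) (nat_lit 21781026211) (.one (nat_lit 4598012335) .nil))))),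
   .two (nat_lit 3525312576) (nat_lit 10939793765) (.two (nat_lit 2969567247) (nat_lit 10537141066) (.two (nat_lit 101711880) (nat_lit 1914702008) (.two (nat_lit 9948889093) (nat_lit 4599057564) (.two (nat_lit 34603009) (nat_lit 337646756) (.two (nat_lit 2097152) (nat_lit 16783276) (.one (nat_lit 1055244) .nil)))))),
   .two (nat_lit 272629824) (nat_lit 183946445157) (.two (nat_lit 11479810063) (nat_lit 9806284041) (.two (nat_lit 4601151496) (nat_lit 4631562414) (.two (nat_lit 9933160453) (nat_lit 10376711342) (.two (nat_lit 37748737) (nat_lit 11543777901) (.two (nat_lit 1048576) (nat_lit 11618227609) (.one (nat_lit 336599150) .nil)))))),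
   .two (nat_lit 3527409777) (nat_lit 847249599) (.two (nat_lit 2889875471) (nat_lit 10510927073) (.two (nat_lit 2889875464) (nat_lit 46414169564) (.two (nat_lit 272629765) (nat_lit 184993975462) (.two (nat_lit 2097153) (nat_lit 310384024) (.one (nat_lit 2103821) .nil))))),
   .two (nat_lit 11559501890) (nat_lit 4631560870) (.two (nat_lit 11559501839) (nat_lit 772801353) (.two (nat_lit 12047089672) (nat_lit 11559503324) (.two (nat_lit 184986632197) (nat_lit 21827161241) (.two (nat_lit 34603009) (nat_lit 50335748) (.two (nat_lit 1048576) (nat_lit 10385102249) (.one (nat_lit 1055246) .nil)))))),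
   .two (nat_lit 9781117039) (nat_lit 159217877183) (.two (nat_lit 9781116943) (nat_lit 156969731376) (.two (nat_lit 606076936) (nat_lit 11492396175) (.two (nat_lit 2097153) (nat_lit 185002365554) (.two (nat_lit 4194304) (nat_lit 183913944830) (.one (nat_lit 2103823) .nil))))),
   .two (nat_lit 46978302065) (nat_lit 9802088639) (.two (nat_lit 18928893967) (nat_lit 10437526756) (.two (nat_lit 12050235400) (nat_lit 11510220990) (.two (nat_lit 4194308) (nat_lit 10940845886) (.two (nat_lit 156365750273) (nat_lit 336598139) (.two (nat_lit 2097152) (nat_lit 4601157384) (.one (nat_lit 1055248) .nil)))))),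
   .two (nat_lit 12147753073) (nat_lit 142606527) (.two (nat_lit 101711887) (nat_lit 813696304) (.two (nat_lit 101711880) (nat_lit 158653745341) (.two (nat_lit 1779433477) (nat_lit 41946268) (.two (nat_lit 34603009) (nat_lit 310382603) (.two (nat_lit 1048576) (nat_lit 21785221009) (.one (nat_lit 21777881568) .nil)))))),
   .two (nat_lit 16777280) (nat_lit 183853122376) (.two (nat_lit 184549384) (nat_lit 11551115463) (.two (nat_lit 184549380) (nat_lit 159224172310) (.two (nat_lit 41943041) (nat_lit 183928623114) (.two (nat_lit 8388608) (nat_lit 16783281) (.one (nat_lit 10385103285) .nil))))),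
   .two (nat_lit 11492393025) (nat_lit 158649549446) (.two (nat_lit 37748751) (nat_lit 16778451) (.two (nat_lit 37748744) (nat_lit 158158818160) (.two (nat_lit 183848927237) (nat_lit 9934212924) (.two (nat_lit 37748737) (nat_lit 807408791) (.two (nat_lit 2097152) (nat_lit 4200370) (.one (nat_lit 47548733894) .nil)))))),
   .two (nat_lit 11559501888) (nat_lit 28790751593) (.two (nat_lit 117440527) (nat_lit 3457156361) (.two (nat_lit 158075977736) (nat_lit 9948892326) (.two (nat_lit 605028353) (nat_lit 654316969) (.one (nat_lit 1947212215) .nil)))),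
   .two (nat_lit 16777280) (nat_lit 47555018943) (.two (nat_lit 16777231) (nat_lit 158150427870) (.two (nat_lit 16777224) (nat_lit 47555021666) (.two (nat_lit 8388613) (nat_lit 3539996682) (.two (nat_lit 8388608) (nat_lit 16783285) (.one (nat_lit 8395281) .nil))))),
   .two (nat_lit 156372041837) (nat_lit 4634706111) (.two (nat_lit 272629775) (nat_lit 3464496343) (.two (nat_lit 41943048) (nat_lit 166199298922) (.two (nat_lit 4194308) (nat_lit 46984597514) (.two (nat_lit 4194304) (nat_lit 8394681) (.one (nat_lit 2420119643) .nil))))),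
   .two (nat_lit 4601151554) (nat_lit 343933119) (.two (nat_lit 4601151503) (nat_lit 8389929) (.two (nat_lit 8388616) (nat_lit 10338961617) (.two (nat_lit 8388612) (nat_lit 2889878685) (.two (nat_lit 41943041) (nat_lit 11479814792) (.two (nat_lit 4194304) (nat_lit 8394682) (.one (nat_lit 8395282) .nil)))))),
   .two (nat_lit 3527409728) (nat_lit 13237223615) (.two (nat_lit 3527409679) (nat_lit 1191183572) (.two (nat_lit 3527409672) (nat_lit 9781118427) (.two (nat_lit 2889875460) (nat_lit 9781120141) (.two (nat_lit 4194305) (nat_lit 166211883018) (.two (nat_lit 2097152) (nat_lit 205526884) (.one (nat_lit 4200979) .nil)))))),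
   .two (nat_lit 9781117039) (nat_lit 306184383) (.two (nat_lit 9781116943) (nat_lit 9802089947) (.two (nat_lit 4194308) (nat_lit 11626614792) (.two (nat_lit 4194304) (nat_lit 16782769) (.one (nat_lit 4200980) .nil)))),
   .two (nat_lit 11610882113) (nat_lit 10007609535) (.two (nat_lit 37748751) (nat_lit 1350567157) (.two (nat_lit 4194312) (nat_lit 2954889400) (.two (nat_lit 11546918917) (nat_lit 713034923) (.two (nat_lit 2097153) (nat_lit 306188965) (.two (nat_lit 4194304) (nat_lit 35657119) (.one (nat_lit 3024099434) .nil)))))),
   .two (nat_lit 2954887232) (nat_lit 4638900583) (.two (nat_lit 37748751) (nat_lit 10007610843) (.two (nat_lit 4194308) (nat_lit 158083321639) (.two (nat_lit 2097153) (nat_lit 809505416) (.two (nat_lit 2097152) (nat_lit 37754721) (.one (nat_lit 2103829) .nil))))),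
   .two (nat_lit 28806479909) (nat_lit 10504634559) (.two (nat_lit 10504634402) (nat_lit 8388973) (.two (nat_lit 813694991) (nat_lit 9781117768) (.two (nat_lit 813694984) (nat_lit 9781118427) (.two (nat_lit 2887778308) (nat_lit 159232560288) (.two (nat_lit 2097153) (nat_lit 352326780) (.two (nat_lit 8388608) (nat_lit 158177694608) (.one (nat_lit 4638906796) .nil))))))),
   .two (nat_lit 847249599) (nat_lit 11479810167) (.two (nat_lit 3460300808) (nat_lit 156372043227) (.two (nat_lit 9933160453) (nat_lit 1417677998) (.two (nat_lit 2097152) (nat_lit 8394585) (.one (nat_lit 1054269) .nil)))),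
   .two (nat_lit 276824129) (nat_lit 272630602) (.two (nat_lit 50331663) (nat_lit 185020187879) (.two (nat_lit 8388616) (nat_lit 156364703913) (.two (nat_lit 2887778308) (nat_lit 3020951316) (.two (nat_lit 41943041) (nat_lit 2101960) (.two (nat_lit 8388608) (nat_lit 2103130) (.one (nat_lit 2103445) .nil)))))),
   .two (nat_lit 3560964116) (nat_lit 18933088851) (.two (nat_lit 780140581) (nat_lit 4601152132) (.two (nat_lit 183853121651) (nat_lit 706740321) (.two (nat_lit 37748751) (nat_lit 11618223321) (.two (nat_lit 37748744) (nat_lit 13228835790) (.two (nat_lit 37748744) (nat_lit 2894070739) (.two (nat_lit 708837381) (nat_lit 156372044984) (.two (nat_lit 8388612) (nat_lit 11614031034) (.two (nat_lit 2097153) (nat_lit 4199566) (.two (nat_lit 2097152) (nat_lit 8394188) (.one (nat_lit 2103866) .nil)))))))))),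
   .two (nat_lit 13228834853) (nat_lit 10385097302) (.two (nat_lit 3525312576) (nat_lit 9806283222) (.two (nat_lit 713031695) (nat_lit 46523221238) (.two (nat_lit 13203669000) (nat_lit 184993973723) (.two (nat_lit 16777220) (nat_lit 12155096210) (.two (nat_lit 2097153) (nat_lit 50336371) (.two (nat_lit 2097152) (nat_lit 16781437) (.one (nat_lit 10907293232) .nil))))))),
   .two (nat_lit 16777252) (nat_lit 46414168646) (.two (nat_lit 4605345859) (nat_lit 2969567424) (.two (nat_lit 16777231) (nat_lit 46414168905) (.two (nat_lit 185027526665) (nat_lit 2902460585) (.two (nat_lit 4605345799) (nat_lit 4613735374) (.two (nat_lit 16777220) (nat_lit 4605346825) (.two (nat_lit 8388611) (nat_lit 2902461581) (.two (nat_lit 8388609) (nat_lit 4613738506) (.two (nat_lit 8388608) (nat_lit 620761231) (.one (nat_lit 4605352030) .nil))))))))),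
   .two (nat_lit 16777280) (nat_lit 343933023) (.two (nat_lit 612368399) (nat_lit 185035916527) (.two (nat_lit 16777224) (nat_lit 46984593919) (.two (nat_lit 166129041410) (nat_lit 8390260) (.two (nat_lit 9765388289) (nat_lit 41946445) (.two (nat_lit 1048576) (nat_lit 16782239) (.one (nat_lit 1054856) .nil)))))),
   .two (nat_lit 4601151554) (nat_lit 4613734439) (.two (nat_lit 11559501888) (nat_lit 3021996224) (.two (nat_lit 37748751) (nat_lit 11559503056) (.two (nat_lit 117440520) (nat_lit 11611932855) (.two (nat_lit 1291845636) (nat_lit 159219977390) (.two (nat_lit 37748737) (nat_lit 10437530764) (.two (nat_lit 4194304) (nat_lit 2102735) (.one (nat_lit 2102850) .nil))))))),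
   .two (nat_lit 16777280) (nat_lit 705691686) (.two (nat_lit 16777280) (nat_lit 101711968) (.two (nat_lit 11543773222) (nat_lit 10015998143) (.two (nat_lit 16777231) (nat_lit 101712091) (.two (nat_lit 46409973777) (nat_lit 166197199694) (.two (nat_lit 46978301960) (nat_lit 159216831903) (.two (nat_lit 185002360839) (nat_lit 10906241831) (.two (nat_lit 721420292) (nat_lit 1947208065) (.two (nat_lit 18928893955) (nat_lit 28758247806) (.two (nat_lit 156365750273) (nat_lit 1052701) (.two (nat_lit 2097152) (nat_lit 9969866278) (.one (nat_lit 840963622) .nil))))))))))),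
   .two (nat_lit 16777234) (nat_lit 9934209215) (.two (nat_lit 75497581) (nat_lit 183846830177) (.two (nat_lit 13203669007) (nat_lit 46409974232) (.two (nat_lit 41943055) (nat_lit 183846830298) (.two (nat_lit 13203669000) (nat_lit 11513365459) (.two (nat_lit 41943048) (nat_lit 2988441828) (.two (nat_lit 16777220) (nat_lit 740296287) (.two (nat_lit 16777220) (nat_lit 19027461747) (.two (nat_lit 620756993) (nat_lit 9766441988) (.two (nat_lit 4194304) (nat_lit 9766441988) (.one (nat_lit 8395327) .nil)))))))))),
   .two (nat_lit 156569174083) (nat_lit 10351542369) (.two (nat_lit 2969567247) (nat_lit 68158280) (.two (nat_lit 2969567240) (nat_lit 806357173) (.two (nat_lit 69206021) (nat_lit 156465368839) (.two (nat_lit 2097153) (nat_lit 46406832766) (.two (nat_lit 16777216) (nat_lit 2103131) (.one (nat_lit 2103766) .nil)))))),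
   .two (nat_lit 1350565907) (nat_lit 158146232969) (.two (nat_lit 159257722996) (nat_lit 673185887) (.two (nat_lit 11559501843) (nat_lit 1277166809) (.two (nat_lit 203423759) (nat_lit 19532873948) (.two (nat_lit 318767113) (nat_lit 157036840564) (.two (nat_lit 2954887176) (nat_lit 3527409891) (.two (nat_lit 28705816581) (nat_lit 1849691321) (.two (nat_lit 612368389) (nat_lit 102762087) (.two (nat_lit 9781116929) (nat_lit 19537073698) (.two (nat_lit 16777216) (nat_lit 19537073698) (.one (nat_lit 8394906) .nil)))))))))),
   .two (nat_lit 28086108227) (nat_lit 9806283222) (.two (nat_lit 11577327683) (nat_lit 47555018847) (.two (nat_lit 12047089679) (nat_lit 9806283222) (.two (nat_lit 184549391) (nat_lit 184993972441) (.two (nat_lit 12047089672) (nat_lit 1954547303) (.two (nat_lit 184549384) (nat_lit 21785215203) (.two (nat_lit 183853121538) (nat_lit 12062822718) (.two (nat_lit 713031684) (nat_lit 10369371315) (.two (nat_lit 34603009) (nat_lit 16782098) (.two (nat_lit 1048576) (nat_lit 2902464703) (.one (nat_lit 16783515) .nil)))))))))),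
   .two (nat_lit 8388672) (nat_lit 1346371781) (.two (nat_lit 8388672) (nat_lit 171966658) (.two (nat_lit 13203669007) (nat_lit 9768534856) (.two (nat_lit 13203669000) (nat_lit 9768535515) (.two (nat_lit 16777220) (nat_lit 1277168783) (.two (nat_lit 16777217) (nat_lit 2101255) (.two (nat_lit 2097152) (nat_lit 9940503980) (.one (nat_lit 2103434) .nil))))))),
   .two (nat_lit 10001317995) (nat_lit 880804031) (.two (nat_lit 37748751) (nat_lit 880804315) (.two (nat_lit 46407876625) (nat_lit 13191086922) (.two (nat_lit 156365750280) (nat_lit 9768535515) (.two (nat_lit 46407876612) (nat_lit 9768535658) (.two (nat_lit 50331651) (nat_lit 1277168783) (.two (nat_lit 50331649) (nat_lit 183846834182) (.two (nat_lit 16777216) (nat_lit 183949596058) (.one (nat_lit 4200008) .nil)))))))),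
   .two (nat_lit 8388672) (nat_lit 158077026342) (.two (nat_lit 13191086118) (nat_lit 880804031) (.two (nat_lit 813694991) (nat_lit 306184660) (.two (nat_lit 28087156744) (nat_lit 176162268) (.two (nat_lit 3525312517) (nat_lit 1279265155) (.two (nat_lit 183853121541) (nat_lit 1344276079) (.two (nat_lit 50331649) (nat_lit 183846834182) (.two (nat_lit 16777216) (nat_lit 171972001) (.one (nat_lit 2103457) .nil)))))))),
   .two (nat_lit 46508539924) (nat_lit 183912890963) (.two (nat_lit 4194370) (nat_lit 12155093192) (.two (nat_lit 37748751) (nat_lit 184416208118) (.two (nat_lit 4194312) (nat_lit 166136383079) (.two (nat_lit 4194312) (nat_lit 713031908) (.two (nat_lit 4194306) (nat_lit 1052474) (.two (nat_lit 4194308) (nat_lit 157035792034) (.two (nat_lit 37748737) (nat_lit 19094573761) (.two (nat_lit 2097152) (nat_lit 158646408215) (.one (nat_lit 1054883) .nil))))))))),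
   .two (nat_lit 28093448259) (nat_lit 9881780815) (.two (nat_lit 12054429711) (nat_lit 16779134) (.two (nat_lit 12054429704) (nat_lit 174768261292) (.two (nat_lit 11479810053) (nat_lit 9781120164) (.two (nat_lit 16777217) (nat_lit 28760347286) (.two (nat_lit 16777216) (nat_lit 28760348460) (.one (nat_lit 16783943) .nil)))))),
   .two (nat_lit 19093520498) (nat_lit 843055295) (.two (nat_lit 19093520424) (nat_lit 843055570) (.two (nat_lit 1048603) (nat_lit 843056340) (.two (nat_lit 12117344264) (nat_lit 166129043636) (.two (nat_lit 166129041410) (nat_lit 4197565) (.two (nat_lit 11479810051) (nat_lit 1052995) (.two (nat_lit 9768534017) (nat_lit 166129046147) (.two (nat_lit 4194304) (nat_lit 1054556) (.one (nat_lit 4201032) .nil)))))))),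
   .two (nat_lit 343932994) (nat_lit 16777407) (.two (nat_lit 8388623) (nat_lit 16777435) (.two (nat_lit 8388623) (nat_lit 16777681) (.two (nat_lit 8388616) (nat_lit 9781117897) (.two (nat_lit 620757000) (nat_lit 158083319261) (.two (nat_lit 184549380) (nat_lit 10007612752) (.two (nat_lit 176160771) (nat_lit 620760887) (.two (nat_lit 8388609) (nat_lit 83891765) (.two (nat_lit 8388608) (nat_lit 16782807) (.one (nat_lit 16783524) .nil))))))))),
   .two (nat_lit 10370416660) (nat_lit 339739466) (.two (nat_lit 19027460206) (nat_lit 19532873825) (.two (nat_lit 19530776591) (nat_lit 339739466) (.two (nat_lit 205520904) (nat_lit 166130090967) (.two (nat_lit 205520904) (nat_lit 28758245603) (.two (nat_lit 166130089986) (nat_lit 4197566) (.two (nat_lit 171966469) (nat_lit 47582283367) (.two (nat_lit 605028353) (nat_lit 9902755142) (.two (nat_lit 1048576) (nat_lit 185021240219) (.one (nat_lit 2103464) .nil))))))))),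
   .two (nat_lit 183962173460) (nat_lit 12147753523) (.two (nat_lit 16777280) (nat_lit 1048671) (.two (nat_lit 285212683) (nat_lit 839909846) (.two (nat_lit 16777231) (nat_lit 11543773411) (.two (nat_lit 16777222) (nat_lit 1745880694) (.two (nat_lit 16777224) (nat_lit 11543773411) (.two (nat_lit 11492392962) (nat_lit 1051014) (.two (nat_lit 16777220) (nat_lit 1745880694) (.two (nat_lit 9781116929) (nat_lit 1051989) (.two (nat_lit 16777216) (nat_lit 1052824) (.one (nat_lit 13187946025) .nil)))))))))),
   .two (nat_lit 8388672) (nat_lit 4601151526) (.two (nat_lit 4601151526) (nat_lit 880804031) (.two (nat_lit 9866051599) (nat_lit 209716184) (.two (nat_lit 9866051592) (nat_lit 209716184) (.two (nat_lit 50331655) (nat_lit 9768535515) (.two (nat_lit 1276116996) (nat_lit 2956985978) (.two (nat_lit 50331651) (nat_lit 2953840224) (.two (nat_lit 41943041) (nat_lit 806357487) (.two (nat_lit 16777216) (nat_lit 4199336) (.one (nat_lit 4200618) .nil))))))))),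
   .two (nat_lit 11626610803) (nat_lit 612368575) (.two (nat_lit 50331663) (nat_lit 1276117832) (.two (nat_lit 50331656) (nat_lit 3020949682) (.two (nat_lit 16777220) (nat_lit 3020950678) (.two (nat_lit 16777217) (nat_lit 4601156704) (.two (nat_lit 16777216) (nat_lit 168827039) (.one (nat_lit 4201035) .nil)))))),
   .two (nat_lit 11626610803) (nat_lit 612368575) (.two (nat_lit 50331663) (nat_lit 1276117832) (.two (nat_lit 50331656) (nat_lit 3020949682) (.two (nat_lit 16777220) (nat_lit 3020950678) (.two (nat_lit 16777217) (nat_lit 4601156704) (.two (nat_lit 16777216) (nat_lit 1054169) (.one (nat_lit 8394923) .nil)))))),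
   .two (nat_lit 620757059) (nat_lit 46481277588) (.two (nat_lit 813694991) (nat_lit 3003122966) (.two (nat_lit 721420294) (nat_lit 8391678) (.two (nat_lit 156365750280) (nat_lit 12054431197) (.two (nat_lit 8388610) (nat_lit 822087829) (.two (nat_lit 50331651) (nat_lit 8392582) (.two (nat_lit 2097153) (nat_lit 16782671) (.two (nat_lit 16777216) (nat_lit 8394793) (.one (nat_lit 2103885) .nil)))))))),
   .two (nat_lit 16777280) (nat_lit 11477713254) (.two (nat_lit 184549391) (nat_lit 12121539870) (.two (nat_lit 176160776) (nat_lit 28087158994) (.two (nat_lit 713031684) (nat_lit 13222547211) (.two (nat_lit 612368385) (nat_lit 2102420) (.two (nat_lit 16777216) (nat_lit 2102187) (.one (nat_lit 16783533) .nil)))))),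
   .two (nat_lit 276824129) (nat_lit 620757030) (.two (nat_lit 813695083) (nat_lit 34603204) (.two (nat_lit 813694991) (nat_lit 183861511128) (.two (nat_lit 8388616) (nat_lit 156364702203) (.two (nat_lit 8388616) (nat_lit 183846831056) (.two (nat_lit 176160773) (nat_lit 605029384) (.two (nat_lit 8388612) (nat_lit 20638074477) (.two (nat_lit 41943041) (nat_lit 1411386706) (.two (nat_lit 8388608) (nat_lit 1054762) (.one (nat_lit 2103470) .nil))))))))),
   .two (nat_lit 16777283) (nat_lit 1384120359) (.two (nat_lit 1426063427) (nat_lit 1317011652) (.two (nat_lit 13195280399) (nat_lit 9802090089) (.two (nat_lit 41943048) (nat_lit 11492393937) (.two (nat_lit 276824072) (nat_lit 889194879) (.two (nat_lit 8388612) (nat_lit 9802090089) (.two (nat_lit 8388612) (nat_lit 889194879) (.two (nat_lit 8388609) (nat_lit 3036680323) (.two (nat_lit 16777216) (nat_lit 8394202) (.one (nat_lit 16783535) .nil))))))))),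
   .two (nat_lit 1191182447) (nat_lit 169869350) (.two (nat_lit 1191182447) (nat_lit 47581233348) (.two (nat_lit 1191182351) (nat_lit 639631582) (.two (nat_lit 117440520) (nat_lit 185020188265) (.two (nat_lit 117440520) (nat_lit 10370419071) (.two (nat_lit 11492392964) (nat_lit 185020188265) (.two (nat_lit 11492392964) (nat_lit 10370419071) (.two (nat_lit 50331649) (nat_lit 2954891395) (.two (nat_lit 4194304) (nat_lit 2103339) (.one (nat_lit 2103886) .nil))))))))),
   .two (nat_lit 11543773204) (nat_lit 10955522679) (.two (nat_lit 28806479987) (nat_lit 166129041605) (.two (nat_lit 1048649) (nat_lit 2097352) (.two (nat_lit 184416206859) (nat_lit 10955523950) (.two (nat_lit 654311439) (nat_lit 2099260) (.two (nat_lit 46407876614) (nat_lit 2969569464) (.two (nat_lit 654311431) (nat_lit 2099426) (.two (nat_lit 34603013) (nat_lit 2902461599) (.two (nat_lit 605028353) (nat_lit 16782485) (.two (nat_lit 2097152) (nat_lit 16783198) (.one (nat_lit 16783536) .nil)))))))))),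
   .two (nat_lit 16777280) (nat_lit 742392000) (.two (nat_lit 16777280) (nat_lit 1346371679) (.two (nat_lit 41943055) (nat_lit 156367848264) (.two (nat_lit 41943048) (nat_lit 156367848923) (.two (nat_lit 8388612) (nat_lit 1325403292) (.two (nat_lit 612368385) (nat_lit 4197718) (.two (nat_lit 16777216) (nat_lit 4199340) (.one (nat_lit 352327823) .nil))))))),
   .two (nat_lit 8388672) (nat_lit 20638073416) (.two (nat_lit 713031695) (nat_lit 606078812) (.two (nat_lit 721420296) (nat_lit 1786775738) (.two (nat_lit 50331653) (nat_lit 1277167213) (.two (nat_lit 50331653) (nat_lit 9772729951) (.two (nat_lit 605028353) (nat_lit 343938380) (.two (nat_lit 16777216) (nat_lit 336599075) (.one (nat_lit 8395346) .nil))))))),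
   .two (nat_lit 9768534083) (nat_lit 9948889126) (.two (nat_lit 10007609451) (nat_lit 184987680864) (.two (nat_lit 612368399) (nat_lit 184987680987) (.two (nat_lit 612368392) (nat_lit 28791800324) (.two (nat_lit 3464495112) (nat_lit 9934210673) (.two (nat_lit 176160772) (nat_lit 3021996548) (.two (nat_lit 47555018757) (nat_lit 9934210673) (.two (nat_lit 8388609) (nat_lit 606081940) (.two (nat_lit 8388608) (nat_lit 606081940) (.one (nat_lit 16783957) .nil))))))))),
   .two (nat_lit 11479810066) (nat_lit 156465365569) (.two (nat_lit 809500708) (nat_lit 158075977924) (.two (nat_lit 272629824) (nat_lit 3524264031) (.two (nat_lit 11479810059) (nat_lit 156465366230) (.two (nat_lit 1913651215) (nat_lit 3460301269) (.two (nat_lit 11479810054) (nat_lit 1947207131) (.two (nat_lit 809500680) (nat_lit 269485010) (.two (nat_lit 2889875458) (nat_lit 1846546161) (.two (nat_lit 11479810052) (nat_lit 1947207274) (.two (nat_lit 9768534017) (nat_lit 705695771) (.two (nat_lit 4194304) (nat_lit 11543778204) (.one (nat_lit 1054898) .nil))))))))))),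
   .two (nat_lit 16777234) (nat_lit 880804031) (.two (nat_lit 8388672) (nat_lit 83886175) (.two (nat_lit 16777231) (nat_lit 847250671) (.two (nat_lit 16777224) (nat_lit 46414169036) (.two (nat_lit 8388616) (nat_lit 20719862271) (.two (nat_lit 1916796933) (nat_lit 176164026) (.two (nat_lit 10506731525) (nat_lit 75499124) (.two (nat_lit 9768534017) (nat_lit 1417680333) (.two (nat_lit 4194304) (nat_lit 1417680333) (.one (nat_lit 4200997) .nil))))))))),
   .two (nat_lit 4601151526) (nat_lit 8388683) (.two (nat_lit 20745027652) (nat_lit 156367847520) (.two (nat_lit 75497487) (nat_lit 156367847643) (.two (nat_lit 75497480) (nat_lit 10506732036) (.two (nat_lit 822083591) (nat_lit 37750979) (.two (nat_lit 612368389) (nat_lit 21781021188) (.two (nat_lit 50331651) (nat_lit 1346374119) (.two (nat_lit 41943041) (nat_lit 1346374119) (.two (nat_lit 1048576) (nat_lit 4199342) (.one (nat_lit 4200024) .nil))))))))),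
   .two (nat_lit 3558866963) (nat_lit 1947206272) (.two (nat_lit 46474985582) (nat_lit 605028550) (.two (nat_lit 46474985582) (nat_lit 1410334920) (.two (nat_lit 20738736147) (nat_lit 10537141206) (.two (nat_lit 159219974172) (nat_lit 3020947928) (.two (nat_lit 4194310) (nat_lit 21777877194) (.two (nat_lit 272629768) (nat_lit 46977254877) (.two (nat_lit 4194308) (nat_lit 605032240) (.two (nat_lit 4194305) (nat_lit 1053848) (.two (nat_lit 4194304) (nat_lit 1054560) (.one (nat_lit 1055319) .nil)))))))))),
   .two (nat_lit 20704133230) (nat_lit 708837574) (.two (nat_lit 20704133230) (nat_lit 876609736) (.two (nat_lit 158143086603) (nat_lit 339739471) (.two (nat_lit 2954887185) (nat_lit 174688567513) (.two (nat_lit 9934209032) (nat_lit 4027581917) (.two (nat_lit 169869320) (nat_lit 2956984548) (.two (nat_lit 169869316) (nat_lit 708841264) (.two (nat_lit 606076929) (nat_lit 608179352) (.two (nat_lit 2097152) (nat_lit 608180064) (.one (nat_lit 4200628) .nil))))))))),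
   .two (nat_lit 2961178731) (nat_lit 18928893990) (.two (nat_lit 2961178731) (nat_lit 272629961) (.two (nat_lit 8388646) (nat_lit 721420933) (.two (nat_lit 2961178639) (nat_lit 47550825432) (.two (nat_lit 8388625) (nat_lit 11525949306) (.two (nat_lit 83886088) (nat_lit 2953839568) (.two (nat_lit 276824071) (nat_lit 16780806) (.two (nat_lit 620756997) (nat_lit 2953840224) (.two (nat_lit 1175453699) (nat_lit 4196743) (.two (nat_lit 9765388289) (nat_lit 8393495) (.two (nat_lit 1048576) (nat_lit 318773279) (.one (nat_lit 4201048) .nil))))))))))),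
   .two (nat_lit 16777310) (nat_lit 28093448549) (.two (nat_lit 16777280) (nat_lit 28093449032) (.two (nat_lit 50331663) (nat_lit 157043132615) (.two (nat_lit 158083317768) (nat_lit 16780431) (.two (nat_lit 21785214981) (nat_lit 16781317) (.two (nat_lit 612368385) (nat_lit 16782209) (.two (nat_lit 8388608) (nat_lit 83892321) (.one (nat_lit 813700698) .nil))))))),
   .two (nat_lit 156533522623) (nat_lit 47555018849) (.two (nat_lit 3525312576) (nat_lit 20644365128) (.two (nat_lit 639631375) (nat_lit 1920993455) (.two (nat_lit 3525312520) (nat_lit 2927627414) (.two (nat_lit 3525312517) (nat_lit 2927628300) (.two (nat_lit 2097153) (nat_lit 19100865410) (.two (nat_lit 2097152) (nat_lit 8394860) (.one (nat_lit 8395377) .nil))))))),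
   .two (nat_lit 285212766) (nat_lit 19096666303) (.two (nat_lit 9781116962) (nat_lit 9902752993) (.two (nat_lit 21214789647) (nat_lit 2332035247) (.two (nat_lit 104857608) (nat_lit 11492396173) (.two (nat_lit 11479810052) (nat_lit 285216782) (.two (nat_lit 37748737) (nat_lit 4647294374) (.two (nat_lit 8388608) (nat_lit 184989783577) (.one (nat_lit 2902464103) .nil))))))),
   .two (nat_lit 158144135359) (nat_lit 10540285990) (.two (nat_lit 4194312) (nat_lit 1853883400) (.two (nat_lit 1048576) (nat_lit 4199404) .nil)),
   .two (nat_lit 184993972318) (nat_lit 3558867542) (.two (nat_lit 1358954530) (nat_lit 9934210294) (.two (nat_lit 713031695) (nat_lit 150997164) (.two (nat_lit 156365750280) (nat_lit 343936151) (.two (nat_lit 20644364292) (nat_lit 1411387398) (.two (nat_lit 612368385) (nat_lit 2988447144) (.two (nat_lit 16777216) (nat_lit 1786779739) (.one (nat_lit 10007615684) .nil))))))),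
   .two (nat_lit 46474985569) (nat_lit 19033751648) (.two (nat_lit 352321556) (nat_lit 47588574026) (.two (nat_lit 780140610) (nat_lit 28086108630) (.two (nat_lit 46489665602) (nat_lit 46474985689) (.two (nat_lit 41943055) (nat_lit 46422557653) (.two (nat_lit 3539992591) (nat_lit 807404498) (.two (nat_lit 166129041416) (nat_lit 20738739348) (.two (nat_lit 46422556677) (nat_lit 1283461126) (.two (nat_lit 156364701697) (nat_lit 310384042) (.two (nat_lit 1048576) (nat_lit 2418022494) (.one (nat_lit 303045214) .nil)))))))))),
   .two (nat_lit 303038559) (nat_lit 9881780806) (.two (nat_lit 11559501918) (nat_lit 12114198622) (.two (nat_lit 12114198564) (nat_lit 9881781065) (.two (nat_lit 11559501888) (nat_lit 705692117) (.two (nat_lit 12114198543) (nat_lit 9881781724) (.two (nat_lit 11476664326) (nat_lit 11492396173) (.two (nat_lit 12114198536) (nat_lit 117442154) (.two (nat_lit 11476664322) (nat_lit 1426067464) (.two (nat_lit 11476664324) (nat_lit 285215202) (.two (nat_lit 34603009) (nat_lit 1426068356) (.two (nat_lit 1048576) (nat_lit 16782890) (.one (nat_lit 1410340444)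 .nil))))))))))),
   .two (nat_lit 2954887261) (nat_lit 9802089054) (.two (nat_lit 169869377) (nat_lit 10007610184) (.two (nat_lit 4194319) (nat_lit 10007610843) (.two (nat_lit 4194312) (nat_lit 840959589) (.two (nat_lit 4194308) (nat_lit 4631564303) (.two (nat_lit 4194307) (nat_lit 2316309110) (.two (nat_lit 4194305) (nat_lit 605032565) (.two (nat_lit 4194304) (nat_lit 1309676518) (.one (nat_lit 4200648) .nil)))))))),
   .two (nat_lit 10369368084) (nat_lit 19027460313) (.two (nat_lit 1846542347) (nat_lit 47548727524) (.two (nat_lit 166129041410) (nat_lit 2100557) (.two (nat_lit 4194305) (nat_lit 159251434904) (.one (nat_lit 2102893) .nil)))),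
   .two (nat_lit 1417674862) (nat_lit 183846830297) (.two (nat_lit 713031695) (nat_lit 2988441828) (.two (nat_lit 713031682) (nat_lit 2100558) (.two (nat_lit 2097153) (nat_lit 8392843) (.one (nat_lit 2103927) .nil)))),
   .two (nat_lit 10538189157) (nat_lit 9974054950) (.two (nat_lit 10538189157) (nat_lit 10913579104) (.two (nat_lit 3464495171) (nat_lit 20738736347) (.two (nat_lit 9974054950) (nat_lit 10538189640) (.two (nat_lit 203423759) (nat_lit 20644364795) (.two (nat_lit 203423759) (nat_lit 165532402640) (.two (nat_lit 203423752) (nat_lit 10007610980) (.two (nat_lit 2954887175) (nat_lit 20644367504) (.two (nat_lit 2954887173) (nat_lit 109055443) (.two (nat_lit 2954887173) (nat_lit 183853124068) (.two (nat_lit 2097153) (nat_lit 10343157879) (.two (nat_lit 2097152) (nat_lit 156573372607) (.one (nat_lit 8394350) .nil)))))))))))),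
   .two (nat_lit 13195280481) (nat_lit 46477082662) (.two (nat_lit 880804035) (nat_lit 21207449792) (.two (nat_lit 9933160485) (nat_lit 3464495944) (.two (nat_lit 4194372) (nat_lit 158653743573) (.two (nat_lit 3460300815) (nat_lit 47555020251) (.two (nat_lit 3460300808) (nat_lit 1753222310) (.two (nat_lit 75497477) (nat_lit 12147756363) (.two (nat_lit 47550824453) (nat_lit 880806370) (.two (nat_lit 156364701697) (nat_lit 37753744) (.two (nat_lit 8388608) (nat_lit 1054854) (.one (nat_lit 8394953) .nil)))))))))),
   .two (nat_lit 9781117025) (nat_lit 4030726183) (.two (nat_lit 156581757024) (nat_lit 37749578) (.two (nat_lit 2902458403) (nat_lit 37749578) (.two (nat_lit 9781116962) (nat_lit 37749578) (.two (nat_lit 18928893967) (nat_lit 10385097681) (.two (nat_lit 285212687) (nat_lit 708838357) (.two (nat_lit 12050235400) (nat_lit 16778852) (.two (nat_lit 285212679) (nat_lit 166132190356) (.two (nat_lit 184989777925) (nat_lit 165540793811) (.two (nat_lit 184989777925) (nat_lit 1291848164) (.two (nat_lit 16777217) (nat_lit 11611934845) (.two (nat_lit 1048576) (nat_lit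 9814675647) (.one (nat_lit 11626616430) .nil)))))))))))),
   .two (nat_lit 11543773375) (nat_lit 1753219110) (.two (nat_lit 20738736224) (nat_lit 10335813828) (.two (nat_lit 2954887203) (nat_lit 1049047) (.two (nat_lit 165532401702) (nat_lit 9934209488) (.two (nat_lit 639631375) (nat_lit 8389590) (.two (nat_lit 184986632209) (nat_lit 343933898) (.two (nat_lit 157043130376) (nat_lit 1050221) (.two (nat_lit 9781116935) (nat_lit 2886731359) (.two (nat_lit 2887778306) (nat_lit 101715359) (.two (nat_lit 9781116931) (nat_lit 2886732258) (.two (nat_lit 9781116929) (nat_lit 10376713109) (.two (nat_lit 16777216) (nat_lit 20738741798) (.one (nat_lit 1054926) .nil)))))))))))),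
   .two (nat_lit 11479810114) (nat_lit 12633243869) (.two (nat_lit 16777231) (nat_lit 2954889399) (.two (nat_lit 822083589) (nat_lit 1310722537) (.two (nat_lit 156365750273) (nat_lit 20745031820) (.one (nat_lit 2103503) .nil)))),
   .two (nat_lit 4601151552) (nat_lit 183853121753) (.two (nat_lit 183848927247) (nat_lit 47547678950) (.two (nat_lit 4194308) (nat_lit 28757199338) (.two (nat_lit 156372041729) (nat_lit 12114202017) (.one (nat_lit 1054928) .nil)))),
   .two (nat_lit 47548727316) (nat_lit 11513364697) (.two (nat_lit 10504634383) (nat_lit 9802088675) (.two (nat_lit 2887778306) (nat_lit 4197711) (.two (nat_lit 4194305) (nat_lit 673190010) (.one (nat_lit 2103505) .nil)))),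
   .two (nat_lit 47582281919) (nat_lit 9940500519) (.two (nat_lit 639631394) (nat_lit 158176642297) (.two (nat_lit 2954887183) (nat_lit 20637026506) (.two (nat_lit 169869320) (nat_lit 156372042758) (.two (nat_lit 169869320) (nat_lit 1216351413) (.two (nat_lit 606076931) (nat_lit 1053382) (.two (nat_lit 606076929) (nat_lit 1052866) (.two (nat_lit 1048576) (nat_lit 2102832) (.one (nat_lit 1054930) .nil)))))))),
   .two (nat_lit 4613734510) (nat_lit 1279262938) (.two (nat_lit 13203669007) (nat_lit 9768534243) (.two (nat_lit 16777220) (nat_lit 1847592610) (.two (nat_lit 8388609) (nat_lit 156380434554) (.one (nat_lit 8395386) .nil)))),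
   .two (nat_lit 109052262) (nat_lit 721420326) (.two (nat_lit 713031718) (nat_lit 37249614806) (.two (nat_lit 41943056) (nat_lit 21778924027) (.two (nat_lit 713031688) (nat_lit 184987681796) (.two (nat_lit 713031688) (nat_lit 1761609312) (.two (nat_lit 41943045) (nat_lit 9799994787) (.two (nat_lit 41943041) (nat_lit 9799994787) (.two (nat_lit 8388608) (nat_lit 16782898) (.one (nat_lit 8394965) .nil)))))))),
   .two (nat_lit 156367847462) (nat_lit 158143086631) (.two (nat_lit 21793603591) (nat_lit 1051011) (.two (nat_lit 2097152) (nat_lit 1054259) .nil)),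
   .two (nat_lit 2954887261) (nat_lit 3024093800) (.two (nat_lit 46508539925) (nat_lit 158146233595) (.two (nat_lit 4601151552) (nat_lit 2921333715) (.two (nat_lit 2954887232) (nat_lit 638583292) (.two (nat_lit 156367847439) (nat_lit 34605266) (.two (nat_lit 9802088460) (nat_lit 11543774826) (.two (nat_lit 1178599432) (nat_lit 2921335273) (.two (nat_lit 157038936069) (nat_lit 874514917) (.two (nat_lit 1916796933) (nat_lit 1746931014) (.two (nat_lit 2097153) (nat_lit 68163108) (.two (nat_lit 2097152) (nat_lit 4199988) (.one (nat_lit 4201085) .nil))))))))))),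
   .two (nat_lit 272629854) (nat_lit 276824906) (.two (nat_lit 272629824) (nat_lit 276824906) (.two (nat_lit 809500687) (nat_lit 10343155163) (.two (nat_lit 4194312) (nat_lit 20644367503) (.two (nat_lit 4194308) (nat_lit 343937031) (.two (nat_lit 37748737) (nat_lit 4605351325) (.two (nat_lit 4194304) (nat_lit 68162530) (.one (nat_lit 1947211369) .nil))))))),
   .two (nat_lit 50331839) (nat_lit 1417674790) (.two (nat_lit 16777280) (nat_lit 343933147) (.two (nat_lit 16777231) (nat_lit 11618222589) (.two (nat_lit 16777224) (nat_lit 11618223109) (.two (nat_lit 13195280391) (nat_lit 16781111) (.two (nat_lit 41943043) (nat_lit 16780624) (.two (nat_lit 50331649) (nat_lit 8392104) (.two (nat_lit 8388608) (nat_lit 16782901) (.one (nat_lit 16783574) .nil)))))))),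
   .two (nat_lit 41943231) (nat_lit 620757030) (.two (nat_lit 184549384) (nat_lit 880804873) (.two (nat_lit 2097152) (nat_lit 41948701) .nil)),
   .two (nat_lit 3003121684) (nat_lit 13221496051) (.two (nat_lit 21207449619) (nat_lit 2961180853) (.two (nat_lit 1291845634) (nat_lit 19537071515) (.two (nat_lit 620756993) (nat_lit 19537071515) (.one (nat_lit 1055360) .nil)))),
   .two (nat_lit 156581757119) (nat_lit 184419352795) (.two (nat_lit 156468510786) (nat_lit 2902458875) (.two (nat_lit 285212687) (nat_lit 46510637572) (.two (nat_lit 19096666125) (nat_lit 157051521507) (.two (nat_lit 21785214981) (nat_lit 157051523264) (.two (nat_lit 612368385) (nat_lit 1224740306) (.two (nat_lit 8388608) (nat_lit 37754458) (.one (nat_lit 4200667) .nil))))))),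
   .two (nat_lit 16777310) (nat_lit 10343154504) (.two (nat_lit 50331839) (nat_lit 276824533) (.two (nat_lit 16777280) (nat_lit 165532402171) (.two (nat_lit 3464495170) (nat_lit 620757965) (.two (nat_lit 50331663) (nat_lit 1853882884) (.two (nat_lit 3464495119) (nat_lit 12062819937) (.two (nat_lit 46414168070) (nat_lit 166245437452) (.two (nat_lit 3464495112) (nat_lit 117443042) (.two (nat_lit 16777218) (nat_lit 880808925) (.two (nat_lit 47555018757) (nat_lit 9814675647) (.two (nat_lit 8388609) (nat_lit 4613738691) (.two (nat_lit 16777216) (nat_lit 28798096988) (.one (nat_lit 746592473) .nil)))))))))))),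
   .two (nat_lit 16777309) (nat_lit 165532402504) (.two (nat_lit 50331839) (nat_lit 1350566357) (.two (nat_lit 16777407) (nat_lit 12054429913) (.two (nat_lit 16777280) (nat_lit 10343154171) (.two (nat_lit 10343153731) (nat_lit 620757965) (.two (nat_lit 47555018786) (nat_lit 50333147) (.two (nat_lit 20644364303) (nat_lit 183861511777) (.two (nat_lit 20644364303) (nat_lit 1191183967) (.two (nat_lit 20644364296) (nat_lit 9781119458) (.two (nat_lit 20644364296) (nat_lit 620760478) (.two (nat_lit 159224168453) (nat_lit 9814675647) (.two (nat_lit 159224168453) (nat_lit 16780702) (.two (nat_lit 612368385) (nat_lit 156380434623) (.two (nat_lit 8388608) (nat_lit 18941482585) (.one (nat_lit 746592904) .nil)))))))))))))),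
   .two (nat_lit 156539813983) (nat_lit 721421129) (.two (nat_lit 176160788) (nat_lit 620758491) (.two (nat_lit 16777280) (nat_lit 10343153891) (.two (nat_lit 46414168075) (nat_lit 184552607) (.two (nat_lit 47555018760) (nat_lit 165540791969) (.two (nat_lit 176160772) (nat_lit 18941481150) (.two (nat_lit 176160771) (nat_lit 4613736984) (.two (nat_lit 8388609) (nat_lit 9881784523) (.two (nat_lit 8388608) (nat_lit 16782359) (.one (nat_lit 11484011141) .nil))))))))),
   .two (nat_lit 185035915455) (nat_lit 156465365209) (.two (nat_lit 218103826) (nat_lit 47582283952) (.two (nat_lit 12163481667) (nat_lit 184986632420) (.two (nat_lit 10385096719) (nat_lit 9934210658) (.two (nat_lit 10385096712) (nat_lit 19094571494) (.two (nat_lit 270532613) (nat_lit 9814675646) (.two (nat_lit 270532613) (nat_lit 184551962) (.two (nat_lit 2097153) (nat_lit 11492397259) (.two (nat_lit 1048576) (nat_lit 9881785979) (.one (nat_lit 1054952) .nil))))))))),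
   .two (nat_lit 2969567325) (nat_lit 169870154) (.two (nat_lit 2969567326) (nat_lit 169870154) (.two (nat_lit 9948889279) (nat_lit 19027460313) (.two (nat_lit 1795162131) (nat_lit 19530778217) (.two (nat_lit 2969567296) (nat_lit 2098133) (.two (nat_lit 1291845670) (nat_lit 12115248743) (.two (nat_lit 46407876623) (nat_lit 2969568864) (.two (nat_lit 46407876623) (nat_lit 16779748) (.two (nat_lit 46407876616) (nat_lit 11559504354) (.two (nat_lit 46407876616) (nat_lit 2969570718) (.two (nat_lit 1291845636) (nat_lit 336597117) (.two (nat_lit 4599054341) (nat_lit 2969570718) (.two (nat_lit 2097153) (nat_lit 156380434623) (.two (nat_lit 1048576) (nat_lit 50337374) (.one (nat_lit 9866058376) .nil)))))))))))))),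
   .two (nat_lit 10921967711) (nat_lit 169870154) (.two (nat_lit 185035915455) (nat_lit 772800729) (.two (nat_lit 2969567253) (nat_lit 46474987704) (.two (nat_lit 2097189) (nat_lit 47596962763) (.two (nat_lit 11559501888) (nat_lit 135266531) (.two (nat_lit 20637024267) (nat_lit 50334890) (.two (nat_lit 9881780239) (nat_lit 19128125031) (.two (nat_lit 1291845638) (nat_lit 28087160958) (.two (nat_lit 46407876616) (nat_lit 1862272674) (.two (nat_lit 34603013) (nat_lit 16780702) (.two (nat_lit 34603013) (nat_lit 156380434622) (.two (nat_lit 2097153) (nat_lit 156380434622) (.two (nat_lit 2097152) (nat_lit 16782950) (.one (nat_lit 102767239) .nil))))))))))))),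
   .two (nat_lit 18925748262) (nat_lit 75498312) (.two (nat_lit 8388642) (nat_lit 11610882557) (.two (nat_lit 713031695) (nat_lit 34604651) (.two (nat_lit 16777223) (nat_lit 673188323) (.two (nat_lit 16777219) (nat_lit 10335817171) (.two (nat_lit 16777217) (nat_lit 156364705235) (.two (nat_lit 16777216) (nat_lit 1053720) (.one (nat_lit 1055375) .nil))))))),
   .two (nat_lit 742391846) (nat_lit 19093521224) (.two (nat_lit 47588573250) (nat_lit 3558867451) (.two (nat_lit 169869327) (nat_lit 142607368) (.two (nat_lit 11546918919) (nat_lit 1051111) (.two (nat_lit 708837381) (nat_lit 11006906566) (.two (nat_lit 2097153) (nat_lit 645927114) (.two (nat_lit 8388608) (nat_lit 1054311) (.one (nat_lit 1054957) .nil))))))),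
   .two (nat_lit 4638900289) (nat_lit 156569174243) (.two (nat_lit 171966469) (nat_lit 3464498592) (.one (nat_lit 71309956) .nil)),
   .two (nat_lit 184549394) (nat_lit 21785215203) (.two (nat_lit 46407876610) (nat_lit 8392097) (.one (nat_lit 16784016) .nil)),
   .two (nat_lit 21785215817) (nat_lit 1379926055) (.two (nat_lit 158083317827) (nat_lit 13188989908) (.two (nat_lit 37748751) (nat_lit 3028288516) (.two (nat_lit 10504634376) (nat_lit 71305703) (.two (nat_lit 203423749) (nat_lit 306188485) (.two (nat_lit 2097153) (nat_lit 46980403396) (.two (nat_lit 8388608) (nat_lit 2103492) (.one (nat_lit 9799998101) .nil))))))),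
   .two (nat_lit 46978301972) (nat_lit 809500902) (.two (nat_lit 46407876610) (nat_lit 9802092671) (.one (nat_lit 4201106) .nil)),
   .two (nat_lit 183962173478) (nat_lit 2923430397) (.two (nat_lit 285212706) (nat_lit 2923430917) (.two (nat_lit 272629767) (nat_lit 10921971904) (.two (nat_lit 4601151493) (nat_lit 28101840338) (.two (nat_lit 2097152) (nat_lit 16783588) (.one (nat_lit 16784029) .nil))))),
   .two (nat_lit 183962173478) (nat_lit 9802088955) (.two (nat_lit 2969567266) (nat_lit 1310721029) (.two (nat_lit 809500679) (nat_lit 2332036563) (.two (nat_lit 13191086085) (nat_lit 2332036563) (.two (nat_lit 4194304) (nat_lit 1780488436) (.one (nat_lit 11544828148) .nil))))),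
   .two (nat_lit 8388646) (nat_lit 9881780731) (.two (nat_lit 612368418) (nat_lit 46523221000) (.two (nat_lit 12129927175) (nat_lit 8392835) (.two (nat_lit 620756995) (nat_lit 8392908) (.two (nat_lit 1048576) (nat_lit 2103526) (.one (nat_lit 8395424) .nil))))),
   .two (nat_lit 3036676134) (nat_lit 41944072) (.two (nat_lit 1745879047) (nat_lit 11618226370) (.two (nat_lit 1048576) (nat_lit 1291852021) .nil)),
   .two (nat_lit 4194342) (nat_lit 184550405) (.two (nat_lit 37748743) (nat_lit 1191186628) (.two (nat_lit 2097152) (nat_lit 1054967) .nil)),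
   .two (nat_lit 16777280) (nat_lit 4601151848) (.two (nat_lit 50331656) (nat_lit 28790752488) (.two (nat_lit 16777220) (nat_lit 13221497633) (.two (nat_lit 8388609) (nat_lit 28690093185) (.one (nat_lit 8395426) .nil)))),
   .two (nat_lit 2988441665) (nat_lit 813695113) (.two (nat_lit 156372041743) (nat_lit 158144136414) (.two (nat_lit 169869316) (nat_lit 612370634) (.two (nat_lit 8388609) (nat_lit 2953843859) (.one (nat_lit 1055032) .nil)))),
   .two (nat_lit 10913579075) (nat_lit 46474985581) (.two (nat_lit 184423546895) (nat_lit 37246468680) (.two (nat_lit 169869320) (nat_lit 2927625449) (.two (nat_lit 169869316) (nat_lit 46414171002) (.two (nat_lit 34603009) (nat_lit 8393775) (.two (nat_lit 1048576) (nat_lit 8395002) (.one (nat_lit 1055395) .nil)))))),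
   .two (nat_lit 285212736) (nat_lit 239075586) (.two (nat_lit 19026411543) (nat_lit 166245434026) (.two (nat_lit 11559501832) (nat_lit 739247964) (.two (nat_lit 10506731525) (nat_lit 1191185156) (.two (nat_lit 9768534017) (nat_lit 184554646) (.one (nat_lit 171972879) .nil))))),
   .two (nat_lit 4194369) (nat_lit 9781118427) (.two (nat_lit 4194305) (nat_lit 28791805029) (.one (nat_lit 1055396) .nil)),
   .two (nat_lit 8388672) (nat_lit 28086108275) (.two (nat_lit 612368399) (nat_lit 13187940940) (.two (nat_lit 612368392) (nat_lit 12147754225) (.two (nat_lit 176160772) (nat_lit 4027582666) (.two (nat_lit 612368385) (nat_lit 11511271786) (.two (nat_lit 1048576) (nat_lit 2103547) (.one (nat_lit 2103973) .nil)))))),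
   .two (nat_lit 156372041795) (nat_lit 306184315) (.two (nat_lit 205520911) (nat_lit 8389262) (.two (nat_lit 205520904) (nat_lit 2323645725) (.two (nat_lit 171966469) (nat_lit 46414170280) (.two (nat_lit 37748737) (nat_lit 1417678586) (.two (nat_lit 8388608) (nat_lit 3524268743) (.one (nat_lit 1054176) .nil)))))),
   .two (nat_lit 2988441665) (nat_lit 9881780338) (.two (nat_lit 47548727311) (nat_lit 285213033) (.two (nat_lit 606076936) (nat_lit 83886920) (.two (nat_lit 2954887173) (nat_lit 218106043) (.two (nat_lit 2097153) (nat_lit 4601155374) (.two (nat_lit 4194304) (nat_lit 889197666) (.one (nat_lit 4199906) .nil)))))),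
   .two (nat_lit 272629796) (nat_lit 9866051703) (.two (nat_lit 10506731535) (nat_lit 235930221) (.two (nat_lit 19596836872) (nat_lit 18928895237) (.two (nat_lit 3458203653) (nat_lit 166132189978) (.two (nat_lit 2097153) (nat_lit 4198206) (.two (nat_lit 2097152) (nat_lit 4199579) (.one (nat_lit 28693239230) .nil)))))),
   .two (nat_lit 809500708) (nat_lit 605028485) (.two (nat_lit 28758245391) (nat_lit 47547679329) (.two (nat_lit 174752530440) (nat_lit 174688568548) (.two (nat_lit 169869316) (nat_lit 3560967008) (.two (nat_lit 606076929) (nat_lit 4198961) (.two (nat_lit 1048576) (nat_lit 2102611) (.one (nat_lit 2103350) .nil)))))),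
   .two (nat_lit 183928619073) (nat_lit 1178599542) (.two (nat_lit 272629775) (nat_lit 19530776938) (.two (nat_lit 19604176904) (nat_lit 1212155126) (.two (nat_lit 612368389) (nat_lit 11511270190) (.two (nat_lit 9766436865) (nat_lit 8392588) (.two (nat_lit 8388608) (nat_lit 2102049) (.one (nat_lit 4200828) .nil)))))),
   .two (nat_lit 754974785) (nat_lit 183949590646) (.two (nat_lit 754974735) (nat_lit 10939793995) (.two (nat_lit 272629768) (nat_lit 1913653058) (.two (nat_lit 4194308) (nat_lit 157035790843) (.two (nat_lit 4194308) (nat_lit 174685423075) (.two (nat_lit 4194305) (nat_lit 11543775720) (.two (nat_lit 4194304) (nat_lit 16782677) (.one (nat_lit 16783416) .nil))))))),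
   .two (nat_lit 174686470211) (nat_lit 10335813762) (.two (nat_lit 205520911) (nat_lit 174686470709) (.two (nat_lit 2889875464) (nat_lit 159217878247) (.two (nat_lit 2956984325) (nat_lit 2954890659) (.two (nat_lit 9768534019) (nat_lit 2100743) (.two (nat_lit 9765388289) (nat_lit 4198286) (.two (nat_lit 16777216) (nat_lit 2102615) (.one (nat_lit 2103356) .nil))))))),
   .two (nat_lit 156465365059) (nat_lit 183949590643) (.two (nat_lit 809500687) (nat_lit 135266938) (.two (nat_lit 37748744) (nat_lit 37246468313) (.two (nat_lit 4194306) (nat_lit 1050087) (.two (nat_lit 708837379) (nat_lit 19093522602) (.two (nat_lit 37748737) (nat_lit 1053001) (.two (nat_lit 4194304) (nat_lit 158177694397) (.one (nat_lit 2103357) .nil))))))),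
   .two (nat_lit 739246147) (nat_lit 1384120438) (.two (nat_lit 2889875471) (nat_lit 3525312703) (.two (nat_lit 68157448) (nat_lit 156976023366) (.two (nat_lit 272629765) (nat_lit 156976023748) (.two (nat_lit 4194305) (nat_lit 2100415) (.two (nat_lit 1048576) (nat_lit 156567081766) (.one (nat_lit 2103677) .nil)))))),
   .two (nat_lit 272629796) (nat_lit 12121538674) (.two (nat_lit 3527409679) (nat_lit 37247517264) (.two (nat_lit 3003121673) (nat_lit 1277166809) (.two (nat_lit 3525312520) (nat_lit 1920995496) (.two (nat_lit 41943045) (nat_lit 4647291742) (.two (nat_lit 612368385) (nat_lit 4647294419) (.two (nat_lit 8388608) (nat_lit 4647294419) (.one (nat_lit 8395350) .nil))))))),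
   .two (nat_lit 16777280) (nat_lit 3028287555) (.two (nat_lit 8388623) (nat_lit 16777407) (.two (nat_lit 8388616) (nat_lit 12062819550) (.two (nat_lit 8388612) (nat_lit 16780130) (.two (nat_lit 41943041) (nat_lit 721424183) (.two (nat_lit 8388608) (nat_lit 16783008) (.one (nat_lit 16783434) .nil)))))),
   .two (nat_lit 4601151524) (nat_lit 156539814005) (.two (nat_lit 4601151503) (nat_lit 2927624778) (.two (nat_lit 276824072) (nat_lit 1749026030) (.two (nat_lit 1276116994) (nat_lit 4197897) (.two (nat_lit 8388612) (nat_lit 184989779437) (.two (nat_lit 605028353) (nat_lit 4198964) (.two (nat_lit 1048576) (nat_lit 8394078) (.one (nat_lit 9798948897) .nil))))))),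
   .two (nat_lit 50331684) (nat_lit 184416206966) (.two (nat_lit 1358954511) (nat_lit 158176641594) (.two (nat_lit 721420294) (nat_lit 1050497) (.two (nat_lit 28757196807) (nat_lit 16778566) (.two (nat_lit 16777218) (nat_lit 1052170) (.two (nat_lit 11476664323) (nat_lit 16780289) (.two (nat_lit 34603009) (nat_lit 16781204) (.two (nat_lit 1048576) (nat_lit 16782688) (.one (nat_lit 16782857) .nil)))))))),
   .two (nat_lit 136314996) (nat_lit 37313577072) (.two (nat_lit 166129041431) (nat_lit 158091707008) (.two (nat_lit 673185804) (nat_lit 9765389130) (.two (nat_lit 10504634373) (nat_lit 10519317287) (.two (nat_lit 9766436865) (nat_lit 28757200629) (.two (nat_lit 4194304) (nat_lit 16783085) (.one (nat_lit 16783746) .nil)))))),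
   .two (nat_lit 1962934309) (nat_lit 1779433581) (.two (nat_lit 1343225871) (nat_lit 37253808716) (.two (nat_lit 1276116998) (nat_lit 2961180544) (.two (nat_lit 1343225864) (nat_lit 11492394307) (.two (nat_lit 83886085) (nat_lit 1051492) (.two (nat_lit 9781116929) (nat_lit 8392598) (.two (nat_lit 16777216) (nat_lit 1054052) (.one (nat_lit 46992988214) .nil))))))),
   .two (nat_lit 16777252) (nat_lit 9873391750) (.two (nat_lit 16777231) (nat_lit 12054430763) (.two (nat_lit 880803852) (nat_lit 620758224) (.two (nat_lit 13195280389) (nat_lit 1191184570) (.two (nat_lit 41943041) (nat_lit 16781208) (.two (nat_lit 8388608) (nat_lit 16782694) (.one (nat_lit 8394257) .nil)))))),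
   .two (nat_lit 12620660773) (nat_lit 159250382965) (.two (nat_lit 4634705939) (nat_lit 185020187212) (.two (nat_lit 13191086095) (nat_lit 336593097) (.two (nat_lit 9799991305) (nat_lit 28086109445) (.two (nat_lit 13191086088) (nat_lit 184986632662) (.two (nat_lit 1846542341) (nat_lit 874514644) (.two (nat_lit 605028353) (nat_lit 2101817) (.two (nat_lit 1048576) (nat_lit 2103022) (.one (nat_lit 2103976) .nil)))))))),
   .two (nat_lit 9948889124) (nat_lit 46473937157) (.two (nat_lit 117440527) (nat_lit 2987393063) (.two (nat_lit 9948889103) (nat_lit 3457155799) (.two (nat_lit 705691654) (nat_lit 11593058105) (.two (nat_lit 68157448) (nat_lit 3472884184) (.two (nat_lit 11492392962) (nat_lit 4199453) (.two (nat_lit 272629765) (nat_lit 352323804) (.two (nat_lit 9768534017) (nat_lit 16781210) (.two (nat_lit 1048576) (nat_lit 16782699) (.one (nat_lit 1055108) .nil))))))))),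
   .two (nat_lit 11510218789) (nat_lit 1384120435) (.two (nat_lit 705691659) (nat_lit 16778293) (.two (nat_lit 184986632207) (nat_lit 174692761798) (.two (nat_lit 705691654) (nat_lit 16779843) (.two (nat_lit 184986632200) (nat_lit 9806283222) (.two (nat_lit 705691652) (nat_lit 16780812) (.two (nat_lit 605028353) (nat_lit 16781647) (.two (nat_lit 1048576) (nat_lit 16781369) (.one (nat_lit 16782870) .nil)))))))),
   .two (nat_lit 158144135233) (nat_lit 13187940469) (.two (nat_lit 174752530447) (nat_lit 2350907750) (.two (nat_lit 174752530440) (nat_lit 2350907614) (.two (nat_lit 158144135176) (nat_lit 176161238) (.two (nat_lit 20638072837) (nat_lit 880806752) (.two (nat_lit 605028353) (nat_lit 8393771) (.two (nat_lit 1048576) (nat_lit 8393543) (.one (nat_lit 8395433) .nil))))))),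
   .two (nat_lit 272629824) (nat_lit 2097741) (.two (nat_lit 1178599439) (nat_lit 2921333992) (.two (nat_lit 157036838920) (nat_lit 2956986547) (.two (nat_lit 10506731525) (nat_lit 1052391) (.two (nat_lit 34603009) (nat_lit 3458208375) (.two (nat_lit 1048576) (nat_lit 2103551) (.one (nat_lit 1055407) .nil)))))),
   .two (nat_lit 12117344323) (nat_lit 16777807) (.two (nat_lit 3539992591) (nat_lit 28693234904) (.two (nat_lit 9781116936) (nat_lit 4196532) (.two (nat_lit 171966469) (nat_lit 16781586) (.two (nat_lit 16777217) (nat_lit 4199043) (.two (nat_lit 1048576) (nat_lit 4200210) (.one (nat_lit 16784048) .nil)))))),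
   .two (nat_lit 183962173549) (nat_lit 4194896) (.two (nat_lit 3539992591) (nat_lit 71304420) (.two (nat_lit 158077026312) (nat_lit 235932820) (.two (nat_lit 4194305) (nat_lit 159216833146) (.two (nat_lit 1048576) (nat_lit 2103059) (.one (nat_lit 1055144) .nil))))),
   .two (nat_lit 3527409776) (nat_lit 2097745) (.two (nat_lit 813694991) (nat_lit 46510638292) (.two (nat_lit 47548727304) (nat_lit 71305389) (.two (nat_lit 46409973764) (nat_lit 8393328) (.two (nat_lit 8388608) (nat_lit 2103060) (.one (nat_lit 2103697) .nil))))),
   .two (nat_lit 4605345904) (nat_lit 104858223) (.two (nat_lit 41943055) (nat_lit 37749987) (.two (nat_lit 37748744) (nat_lit 2927627420) (.two (nat_lit 4194305) (nat_lit 69210748) (.two (nat_lit 2097152) (nat_lit 46409979675) (.one (nat_lit 35658184) .nil))))),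
   .two (nat_lit 11551113282) (nat_lit 156465365566) (.two (nat_lit 10370416655) (nat_lit 183845782756) (.two (nat_lit 205520904) (nat_lit 2927627034) (.two (nat_lit 171966469) (nat_lit 10343156888) (.two (nat_lit 4194305) (nat_lit 12617519735) (.two (nat_lit 1048576) (nat_lit 2103171) (.one (nat_lit 1055473) .nil)))))),
   .two (nat_lit 2902458434) (nat_lit 847250021) (.two (nat_lit 41943055) (nat_lit 9781117768) (.two (nat_lit 2902458376) (nat_lit 75499726) (.two (nat_lit 285212677) (nat_lit 142609577) (.two (nat_lit 16777217) (nat_lit 1283461126) (.two (nat_lit 2097152) (nat_lit 47555024284) (.one (nat_lit 8395506) .nil)))))),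
   .two (nat_lit 21785215043) (nat_lit 251658880) (.two (nat_lit 9781116943) (nat_lit 166132187976) (.two (nat_lit 2969567240) (nat_lit 4638903456) (.two (nat_lit 37748737) (nat_lit 157043135582) (.two (nat_lit 1048576) (nat_lit 4200326) (.one (nat_lit 16783854) .nil))))),
   .two (nat_lit 11559501934) (nat_lit 742392431) (.two (nat_lit 16777231) (nat_lit 12150900928) (.two (nat_lit 16777220) (nat_lit 46980403214) (.two (nat_lit 8388608) (nat_lit 4200327) (.one (nat_lit 4200943) .nil)))),
   .two (nat_lit 16777280) (nat_lit 310378856) (.two (nat_lit 16777231) (nat_lit 28798093093) (.two (nat_lit 50331656) (nat_lit 166237047569) (.two (nat_lit 16777220) (nat_lit 156566033089) (.two (nat_lit 8388608) (nat_lit 1054600) (.one (nat_lit 16784115) .nil))))),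
   .two (nat_lit 16777280) (nat_lit 13191086440) (.two (nat_lit 16777231) (nat_lit 166230754536) (.two (nat_lit 612368392) (nat_lit 10907290773) (.two (nat_lit 8388609) (nat_lit 605033160) (.two (nat_lit 8388608) (nat_lit 605034330) (.one (nat_lit 1055476) .nil))))),
   .two (nat_lit 16777280) (nat_lit 1279263078) (.two (nat_lit 16777231) (nat_lit 20705183630) (.two (nat_lit 184549384) (nat_lit 158183983981) (.two (nat_lit 176160773) (nat_lit 136318989) (.two (nat_lit 8388608) (nat_lit 605034330) (.one (nat_lit 1055477) .nil))))),
   .two (nat_lit 4194369) (nat_lit 276824677) (.two (nat_lit 11551113231) (nat_lit 156465366223) (.two (nat_lit 4194312) (nat_lit 1210059528) (.two (nat_lit 4194308) (nat_lit 1210061078) (.two (nat_lit 606076929) (nat_lit 174688572115) (.two (nat_lit 2097152) (nat_lit 11546924913) (.one (nat_lit 1055478) .nil)))))),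
   .two (nat_lit 2902458435) (nat_lit 9772728937) (.two (nat_lit 285212687) (nat_lit 158083318991) (.two (nat_lit 41943048) (nat_lit 2902461255) (.two (nat_lit 16777220) (nat_lit 847254159) (.two (nat_lit 4194304) (nat_lit 8394636) (.one (nat_lit 8395511) .nil))))),
   .two (nat_lit 4605345856) (nat_lit 876610128) (.two (nat_lit 2961178639) (nat_lit 2954889091) (.two (nat_lit 205520904) (nat_lit 847252225) (.two (nat_lit 171966469) (nat_lit 847253228) (.two (nat_lit 4194305) (nat_lit 2994737807) (.two (nat_lit 1048576) (nat_lit 2103397) .nil))))),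
   .two (nat_lit 4605345856) (nat_lit 174688567928) (.two (nat_lit 276824079) (nat_lit 272631683) (.two (nat_lit 2887778312) (nat_lit 9974057729) (.two (nat_lit 2097157) (nat_lit 847254159) (.two (nat_lit 1048576) (nat_lit 2103397) .nil)))),
   .two (nat_lit 2969567344) (nat_lit 4634706601) (.two (nat_lit 176160783) (nat_lit 754976950) (.two (nat_lit 8388613) (nat_lit 2332036851) (.two (nat_lit 4194305) (nat_lit 159224173190) (.two (nat_lit 4194304) (nat_lit 18941482788) (.one (nat_lit 4200947) .nil))))),
   .two (nat_lit 8388672) (nat_lit 19093521074) (.two (nat_lit 813694991) (nat_lit 1209009452) (.two (nat_lit 41943048) (nat_lit 19026414437) (.two (nat_lit 10370416645) (nat_lit 276827966) (.two (nat_lit 16777217) (nat_lit 75502263) (.two (nat_lit 16777216) (nat_lit 4034926406) (.one (nat_lit 2104056) .nil)))))),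
   .two (nat_lit 21785215090) (nat_lit 10015998143) (.two (nat_lit 822083599) (nat_lit 3024095134) (.two (nat_lit 9768534024) (nat_lit 50333147) (.two (nat_lit 2889875460) (nat_lit 183962176668) (.two (nat_lit 612368385) (nat_lit 3024097908) (.two (nat_lit 4194304) (nat_lit 8394642) (.one (nat_lit 4201209) .nil)))))),
   .two (nat_lit 4605345857) (nat_lit 13224641086) (.two (nat_lit 4605345807) (nat_lit 13224641748) (.two (nat_lit 13191086088) (nat_lit 276826914) (.two (nat_lit 2889875460) (nat_lit 156372045623) (.two (nat_lit 4194305) (nat_lit 343938211) (.two (nat_lit 4194304) (nat_lit 8395038) (.one (nat_lit 339745495) .nil)))))),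
   .two (nat_lit 11584667715) (nat_lit 18926797481) (.two (nat_lit 654311439) (nat_lit 19027462312) (.two (nat_lit 169869316) (nat_lit 4638904042) (.two (nat_lit 2097153) (nat_lit 822088330) (.two (nat_lit 8388608) (nat_lit 285218559) (.one (nat_lit 16783864) .nil))))),
   .two (nat_lit 47548727360) (nat_lit 1346372221) (.two (nat_lit 20644364303) (nat_lit 159219976374) (.two (nat_lit 159224168453) (nat_lit 183848931136) (.two (nat_lit 612368385) (nat_lit 10907292825) (.two (nat_lit 2097152) (nat_lit 4200735) (.one (nat_lit 4201210) .nil))))),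
   .two (nat_lit 16777280) (nat_lit 1276117832) (.two (nat_lit 16777224) (nat_lit 11476667566) (.two (nat_lit 8388609) (nat_lit 46507496128) (.two (nat_lit 8388608) (nat_lit 4598011695) (.one (nat_lit 34609854) .nil)))),
   .two (nat_lit 721420353) (nat_lit 101712063) (.two (nat_lit 11492392975) (nat_lit 19026414443) (.two (nat_lit 620756997) (nat_lit 11476667555) (.two (nat_lit 8388609) (nat_lit 28086112981) (.two (nat_lit 1048576) (nat_lit 8395040) (.one (nat_lit 158150433462) .nil))))),
   .two (nat_lit 4605345859) (nat_lit 10338959717) (.two (nat_lit 156367847439) (nat_lit 1051512) (.two (nat_lit 4605345797) (nat_lit 9798946623) (.two (nat_lit 4194305) (nat_lit 1054583) (.one (nat_lit 8395515) .nil)))),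
   .two (nat_lit 184549441) (nat_lit 9768534207) (.two (nat_lit 2902458383) (nat_lit 4634707156) (.two (nat_lit 2902458376) (nat_lit 4197154) (.two (nat_lit 1358954501) (nat_lit 19130224439) (.two (nat_lit 9781116929) (nat_lit 843060387) (.two (nat_lit 8388608) (nat_lit 4200737) (.one (nat_lit 13195287222) .nil)))))),
   .two (nat_lit 285212737) (nat_lit 156569175108) (.two (nat_lit 166132187151) (nat_lit 2097994) (.two (nat_lit 47548727304) (nat_lit 4043311977) (.two (nat_lit 9768534021) (nat_lit 12115250943) (.two (nat_lit 9768534017) (nat_lit 11525952673) (.two (nat_lit 4194304) (nat_lit 2103586) (.one (nat_lit 4201212) .nil)))))),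
   .two (nat_lit 2954887234) (nat_lit 3036676720) (.two (nat_lit 809500687) (nat_lit 2416969612) (.two (nat_lit 2969567240) (nat_lit 9933162677) (.two (nat_lit 218103813) (nat_lit 46977257221) (.two (nat_lit 4194305) (nat_lit 159250387648) (.two (nat_lit 16777216) (nat_lit 158179792718) (.one (nat_lit 2104061) .nil)))))),
   .two (nat_lit 4028629057) (nat_lit 339739225) (.two (nat_lit 3527409679) (nat_lit 21208499421) (.two (nat_lit 157036838920) (nat_lit 10338962191) (.two (nat_lit 272629765) (nat_lit 2101592) (.two (nat_lit 37748737) (nat_lit 2102441) (.two (nat_lit 4194304) (nat_lit 2103194) (.one (nat_lit 2104062) .nil)))))),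
   .two (nat_lit 166230753394) (nat_lit 9948889279) (.two (nat_lit 166230753320) (nat_lit 2969568732) (.two (nat_lit 2954887173) (nat_lit 1291848847) (.two (nat_lit 2097153) (nat_lit 11626614796) (.two (nat_lit 2097152) (nat_lit 16782768) (.one (nat_lit 16784127) .nil))))),
   .two (nat_lit 16777280) (nat_lit 10007610184) (.two (nat_lit 16777224) (nat_lit 10443819183) (.two (nat_lit 16777220) (nat_lit 813699766) (.two (nat_lit 8388608) (nat_lit 16783651) (.one (nat_lit 847256004) .nil)))),
   .two (nat_lit 16777280) (nat_lit 10007610184) (.two (nat_lit 16777224) (nat_lit 156372044974) (.two (nat_lit 8388609) (nat_lit 218108546) (.two (nat_lit 8388608) (nat_lit 16783261) (.one (nat_lit 16784128) .nil)))),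
   .two (nat_lit 156465365057) (nat_lit 1950351966) (.two (nat_lit 28690087951) (nat_lit 1346372860) (.two (nat_lit 13191086088) (nat_lit 184416209681) (.two (nat_lit 101711877) (nat_lit 675286847) (.two (nat_lit 4194305) (nat_lit 1053400) (.two (nat_lit 4194304) (nat_lit 1054622) (.one (nat_lit 4201217) .nil)))))),
   .two (nat_lit 46980399214) (nat_lit 19597886031) (.two (nat_lit 4601151503) (nat_lit 20705182943) (.two (nat_lit 4601151496) (nat_lit 158144139007) (.two (nat_lit 2097153) (nat_lit 2923434630) (.two (nat_lit 1048576) (nat_lit 706746760) .nil)))),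
   .two (nat_lit 176160834) (nat_lit 1426063938) (.two (nat_lit 176160783) (nat_lit 11593058515) (.two (nat_lit 16777220) (nat_lit 209719972) (.two (nat_lit 8388608) (nat_lit 16783190) (.one (nat_lit 8395522) .nil)))),
   .two (nat_lit 8388674) (nat_lit 11626611266) (.two (nat_lit 8388623) (nat_lit 1392511187) (.two (nat_lit 184549381) (nat_lit 9866055439) (.two (nat_lit 8388609) (nat_lit 3557823168) (.two (nat_lit 8388608) (nat_lit 184555350) (.one (nat_lit 159257729731) .nil))))),
   .two (nat_lit 772800577) (nat_lit 746586701) (.two (nat_lit 156372041743) (nat_lit 1745879881) (.two (nat_lit 10343153672) (nat_lit 13187943257) (.two (nat_lit 11543773189) (nat_lit 10343157566) (.two (nat_lit 2097153) (nat_lit 1053835) (.two (nat_lit 8388608) (nat_lit 1344280439) (.one (nat_lit 1344281300) .nil)))))),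
   .two (nat_lit 184549441) (nat_lit 21818769997) (.two (nat_lit 612368399) (nat_lit 158176643273) (.two (nat_lit 1358954501) (nat_lit 19537072762) (.two (nat_lit 8388608) (nat_lit 16783264) (.one (nat_lit 8395523) .nil)))),
   .two (nat_lit 16777280) (nat_lit 183949591785) (.two (nat_lit 16777224) (nat_lit 41946283) (.two (nat_lit 41943041) (nat_lit 339743371) (.two (nat_lit 8388608) (nat_lit 16783266) (.one (nat_lit 16784132) .nil)))),
   .two (nat_lit 16777283) (nat_lit 28793898253) (.two (nat_lit 184549384) (nat_lit 2889878276) (.two (nat_lit 41943045) (nat_lit 889196315) (.two (nat_lit 16777217) (nat_lit 746590882) (.two (nat_lit 8388608) (nat_lit 16783267) (.one (nat_lit 16784133) .nil))))),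
   .two (nat_lit 285212736) (nat_lit 1916797768) (.two (nat_lit 50331656) (nat_lit 708841270) (.two (nat_lit 16777217) (nat_lit 843059828) (.two (nat_lit 16777216) (nat_lit 807410124) .nil))),
   .two (nat_lit 156971827267) (nat_lit 336593493) (.two (nat_lit 184419352591) (nat_lit 873465727) (.two (nat_lit 705691656) (nat_lit 4634709166) (.two (nat_lit 2097153) (nat_lit 2349863602) (.two (nat_lit 8388608) (nat_lit 303044415) (.one (nat_lit 1055494) .nil))))),
   .two (nat_lit 3527409777) (nat_lit 183913939575) (.two (nat_lit 2889875471) (nat_lit 13222544676) (.two (nat_lit 2889875464) (nat_lit 2101046) (.two (nat_lit 2097153) (nat_lit 21781025438) (.two (nat_lit 1048576) (nat_lit 1411389211) (.one (nat_lit 2103812) .nil))))),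
   .two (nat_lit 3525312578) (nat_lit 156367848033) (.two (nat_lit 809500687) (nat_lit 156532475115) (.two (nat_lit 9867100168) (nat_lit 19093522602) (.two (nat_lit 4194308) (nat_lit 10940845204) (.two (nat_lit 9765388289) (nat_lit 2956989044) (.two (nat_lit 1048576) (nat_lit 2103588) (.one (nat_lit 1055237) .nil)))))),
   .two (nat_lit 2969567345) (nat_lit 4632609405) (.two (nat_lit 184549391) (nat_lit 1344275700) (.two (nat_lit 166130089992) (nat_lit 2365589679) (.two (nat_lit 10504634373) (nat_lit 16781122) (.two (nat_lit 9766436865) (nat_lit 16782015) (.two (nat_lit 2097152) (nat_lit 889198422) (.one (nat_lit 2103756) .nil)))))),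
   .two (nat_lit 37249613939) (nat_lit 135266887) (.two (nat_lit 19599982607) (nat_lit 21207450858) (.two (nat_lit 12114198541) (nat_lit 158146234543) (.two (nat_lit 13187940357) (nat_lit 843059010) (.two (nat_lit 2097153) (nat_lit 1782583981) (.two (nat_lit 1048576) (nat_lit 13191092131) (.one (nat_lit 1055495) .nil)))))),
   .two (nat_lit 285212736) (nat_lit 156569175258) (.two (nat_lit 11479810056) (nat_lit 9781120141) (.two (nat_lit 37748737) (nat_lit 12163485707) (.two (nat_lit 4194304) (nat_lit 16783270) (.one (nat_lit 4201225) .nil)))),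
   .two (nat_lit 285212736) (nat_lit 156533523038) (.two (nat_lit 4194319) (nat_lit 318769341) (.two (nat_lit 705691652) (nat_lit 46508544317) (.two (nat_lit 4194305) (nat_lit 185035921306) (.one (nat_lit 1055498) .nil)))),
   .two (nat_lit 243269698) (nat_lit 46474985663) (.two (nat_lit 654311439) (nat_lit 3565159242) (.two (nat_lit 606076936) (nat_lit 1291848849) (.two (nat_lit 37748737) (nat_lit 4632612871) (.two (nat_lit 4194304) (nat_lit 11492398489) (.one (nat_lit 8395271) .nil))))),
   .two (nat_lit 47555018816) (nat_lit 46508540746) (.two (nat_lit 169869320) (nat_lit 11618225303) (.two (nat_lit 2097153) (nat_lit 3464499903) (.two (nat_lit 8388608) (nat_lit 11006908682) (.one (nat_lit 3457161916) .nil)))),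
   .two (nat_lit 3003121730) (nat_lit 11007951689) (.two (nat_lit 705691656) (nat_lit 3573549264) (.two (nat_lit 4599054341) (nat_lit 174755680062) (.two (nat_lit 50331649) (nat_lit 174688572082) (.two (nat_lit 2097152) (nat_lit 37754711) (.one (nat_lit 2103816) .nil))))),
   .two (nat_lit 4613734466) (nat_lit 156971827781) (.two (nat_lit 4194319) (nat_lit 19142804741) (.two (nat_lit 169869320) (nat_lit 687868116) (.two (nat_lit 1291845636) (nat_lit 2923433133) (.two (nat_lit 50331649) (nat_lit 1745883831) (.two (nat_lit 4194304) (nat_lit 2103590) (.one (nat_lit 2104075) .nil)))))),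
   .two (nat_lit 16777280) (nat_lit 47588574026) (.two (nat_lit 184549384) (nat_lit 46414170296) (.two (nat_lit 8388612) (nat_lit 352324761) (.two (nat_lit 8388609) (nat_lit 184554175) (.two (nat_lit 16777216) (nat_lit 1054632) (.one (nat_lit 1055501) .nil))))),
   .two (nat_lit 285212736) (nat_lit 9768534625) (.two (nat_lit 2902458383) (nat_lit 158649550720) (.two (nat_lit 4194312) (nat_lit 20753420300) (.two (nat_lit 1048576) (nat_lit 183962178969) (.one (nat_lit 1055502) .nil)))),
   .two (nat_lit 9802088562) (nat_lit 12618564215) (.two (nat_lit 157036838927) (nat_lit 158146234543) (.two (nat_lit 4599054341) (nat_lit 3527413517) (.two (nat_lit 2097153) (nat_lit 2956989057) (.two (nat_lit 4194304) (nat_lit 3022002635) .nil)))),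
   .two (nat_lit 184549441) (nat_lit 874512969) (.two (nat_lit 184549391) (nat_lit 639632679) (.two (nat_lit 620757000) (nat_lit 1914702632) (.two (nat_lit 8388612) (nat_lit 1052483) (.two (nat_lit 9765388289) (nat_lit 8393898) (.two (nat_lit 1048576) (nat_lit 8395047) (.one (nat_lit 1055503) .nil)))))),
   .two (nat_lit 46474985582) (nat_lit 174755676751) (.two (nat_lit 10504634383) (nat_lit 9802089947) (.two (nat_lit 270532613) (nat_lit 174688570524) (.two (nat_lit 9766436865) (nat_lit 13187945076) (.two (nat_lit 2097152) (nat_lit 4598011773) (.one (nat_lit 4201232) .nil))))),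
   .two (nat_lit 184549441) (nat_lit 876610128) (.two (nat_lit 16777231) (nat_lit 19029558511) (.two (nat_lit 205520904) (nat_lit 183846833300) (.two (nat_lit 16777217) (nat_lit 102765178) (.two (nat_lit 1048576) (nat_lit 37247522598) (.one (nat_lit 1055505) .nil))))),
   .two (nat_lit 16777280) (nat_lit 2894071002) (.two (nat_lit 8388616) (nat_lit 11559505061) (.two (nat_lit 8388609) (nat_lit 169875290) (.one (nat_lit 16784146) .nil))),
   .two (nat_lit 3527409774) (nat_lit 847249599) (.two (nat_lit 37748751) (nat_lit 21785217803) (.two (nat_lit 4194308) (nat_lit 4638904072) (.two (nat_lit 37748737) (nat_lit 2921337460) (.two (nat_lit 2097152) (nat_lit 4200744) (.one (nat_lit 2104083) .nil))))),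
   .two (nat_lit 285212736) (nat_lit 4601151679) (.two (nat_lit 272629775) (nat_lit 721421519) (.two (nat_lit 1191182344) (nat_lit 47547680951) (.two (nat_lit 9781116933) (nat_lit 1052484) (.two (nat_lit 37748737) (nat_lit 184986636919) (.two (nat_lit 1048576) (nat_lit 272635731) (.one (nat_lit 1055508) .nil)))))),
   .two (nat_lit 28693233729) (nat_lit 183962174121) (.two (nat_lit 822083599) (nat_lit 4601153729) (.two (nat_lit 2956984325) (nat_lit 352324761) (.two (nat_lit 605028353) (nat_lit 117445237) (.two (nat_lit 1048576) (nat_lit 16783172) (.one (nat_lit 16784149) .nil))))),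
   .two (nat_lit 2416967795) (nat_lit 158177690216) (.two (nat_lit 285212687) (nat_lit 46508540746) (.two (nat_lit 1846542344) (nat_lit 9799995170) (.two (nat_lit 620756993) (nat_lit 3557824330) (.one (nat_lit 10921974452) .nil)))),
   .two (nat_lit 2969567297) (nat_lit 156533522996) (.two (nat_lit 2969567247) (nat_lit 156533523663) (.two (nat_lit 9948889096) (nat_lit 2921335570) (.two (nat_lit 1277165573) (nat_lit 46489669357) (.two (nat_lit 2097153) (nat_lit 16783010) (.two (nat_lit 16777216) (nat_lit 2103593) (.one (nat_lit 2104086) .nil)))))),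
   .two (nat_lit 4605345858) (nat_lit 4030726775) (.two (nat_lit 13195280399) (nat_lit 3539993828) (.two (nat_lit 13191086088) (nat_lit 19537071250) (.two (nat_lit 4194305) (nat_lit 4605350532) (.two (nat_lit 4194304) (nat_lit 8394669) (.one (nat_lit 16784151) .nil))))),
   .two (nat_lit 28086108275) (nat_lit 158653743737) (.two (nat_lit 46407876623) (nat_lit 880805789) (.two (nat_lit 13195280392) (nat_lit 101714122) (.two (nat_lit 8388613) (nat_lit 235934407) (.two (nat_lit 2097152) (nat_lit 8394670) (.one (nat_lit 1055512) .nil))))),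
   .two (nat_lit 16777280) (nat_lit 13195280575) (.two (nat_lit 184549391) (nat_lit 880805106) (.two (nat_lit 16777224) (nat_lit 4638903055) (.two (nat_lit 8388612) (nat_lit 16781657) (.two (nat_lit 156372041729) (nat_lit 12633248937) (.two (nat_lit 8388608) (nat_lit 12633249690) (.one (nat_lit 276830916) .nil)))))),
   .two (nat_lit 28758245443) (nat_lit 605028971) (.two (nat_lit 2961178639) (nat_lit 13188991151) (.two (nat_lit 21207449605) (nat_lit 158177693451) (.two (nat_lit 8388609) (nat_lit 2102947) (.two (nat_lit 8388608) (nat_lit 2103594) (.one (nat_lit 20705188545) .nil))))),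
   .two (nat_lit 16777280) (nat_lit 1276117832) (.two (nat_lit 16777224) (nat_lit 11476667566) (.two (nat_lit 8388609) (nat_lit 46507496128) (.two (nat_lit 8388608) (nat_lit 4598011695) (.one (nat_lit 8395545) .nil)))),
   .two (nat_lit 3036676162) (nat_lit 47588573830) (.two (nat_lit 156367847439) (nat_lit 117441774) (.two (nat_lit 156367847432) (nat_lit 1358957394) (.two (nat_lit 165528207365) (nat_lit 10913583424) (.two (nat_lit 4194305) (nat_lit 1182799711) (.one (nat_lit 4201242) .nil))))),
   .two (nat_lit 16777280) (nat_lit 13195281224) (.two (nat_lit 16777224) (nat_lit 2357201073) (.two (nat_lit 8388612) (nat_lit 1426066585) (.two (nat_lit 8388609) (nat_lit 184554175) (.two (nat_lit 8388608) (nat_lit 16783279) (.one (nat_lit 3028294425) .nil))))),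
   .two (nat_lit 285212736) (nat_lit 2956984939) (.two (nat_lit 37748751) (nat_lit 9781120141) (.two (nat_lit 2097153) (nat_lit 47563412576) (.two (nat_lit 2097152) (nat_lit 4200747) (.one (nat_lit 2104021) .nil)))),
   .two (nat_lit 10007609452) (nat_lit 21812478572) (.two (nat_lit 2961178639) (nat_lit 20738737366) (.two (nat_lit 11007950861) (nat_lit 1417677599) (.two (nat_lit 176160772) (nat_lit 2101594) (.two (nat_lit 8388609) (nat_lit 1054372) (.two (nat_lit 8388608) (nat_lit 1055020) (.one (nat_lit 8395547) .nil)))))),
   .two (nat_lit 285212738) (nat_lit 19130221384) (.two (nat_lit 285212680) (nat_lit 156468513965) (.two (nat_lit 16777217) (nat_lit 9902756470) (.two (nat_lit 4194304) (nat_lit 16783120) (.one (nat_lit 822090475) .nil)))),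
   .two (nat_lit 47596961858) (nat_lit 2098246) (.two (nat_lit 37748751) (nat_lit 654312659) (.two (nat_lit 606076936) (nat_lit 855640244) (.two (nat_lit 4194308) (nat_lit 4647292660) (.two (nat_lit 2097153) (nat_lit 16782507) (.two (nat_lit 16777216) (nat_lit 2103216) (.one (nat_lit 2104092) .nil)))))),
   .two (nat_lit 183962173507) (nat_lit 47584379500) (.two (nat_lit 37748751) (nat_lit 20753418433) (.two (nat_lit 169869316) (nat_lit 47596965620) (.two (nat_lit 2097153) (nat_lit 4200101) (.two (nat_lit 16777216) (nat_lit 171972528) (.one (nat_lit 2104093) .nil))))),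
   .two (nat_lit 620757100) (nat_lit 3021996391) (.two (nat_lit 813694991) (nat_lit 9948892324) (.two (nat_lit 16777217) (nat_lit 10538194782) (.one (nat_lit 2104094) .nil))),
   .two (nat_lit 2954887234) (nat_lit 4613735242) (.two (nat_lit 2954887176) (nat_lit 184551600) (.two (nat_lit 169869316) (nat_lit 1358958371) (.two (nat_lit 34603009) (nat_lit 2102444) (.two (nat_lit 2097152) (nat_lit 16783661) (.one (nat_lit 1055519) .nil))))),
   .two (nat_lit 11007950960) (nat_lit 174752530623) (.two (nat_lit 19530776591) (nat_lit 19026413757) (.two (nat_lit 1276116996) (nat_lit 620761775) (.two (nat_lit 2097152) (nat_lit 1291851552) (.one (nat_lit 158192376596) .nil)))),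
   .two (nat_lit 3525312578) (nat_lit 156367848033) (.two (nat_lit 12114198543) (nat_lit 156969731300) (.two (nat_lit 4601151496) (nat_lit 157036841134) (.two (nat_lit 9933160453) (nat_lit 1277168793) (.two (nat_lit 4194305) (nat_lit 47582286445) (.two (nat_lit 1048576) (nat_lit 4200750) (.one (nat_lit 2104096) .nil)))))),
   .two (nat_lit 46980399213) (nat_lit 158144135526) (.two (nat_lit 203423759) (nat_lit 1749027013) (.two (nat_lit 2954887173) (nat_lit 10942942355) (.two (nat_lit 2097153) (nat_lit 809506199) (.one (nat_lit 2104098) .nil)))),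
   .two (nat_lit 285212738) (nat_lit 156468512047) (.two (nat_lit 2902458376) (nat_lit 4030728385) (.two (nat_lit 2889875461) (nat_lit 11492396175) (.two (nat_lit 4194305) (nat_lit 19142808986) (.one (nat_lit 16784163) .nil)))),
   .two (nat_lit 285212736) (nat_lit 2889876726) (.two (nat_lit 606076936) (nat_lit 166245436572) (.two (nat_lit 2097153) (nat_lit 9781122153) (.two (nat_lit 4194304) (nat_lit 2103219) (.one (nat_lit 2104100) .nil)))),
   .two (nat_lit 285212738) (nat_lit 28693234245) (.two (nat_lit 285212687) (nat_lit 156468512667) (.two (nat_lit 272629768) (nat_lit 11492396175) (.two (nat_lit 4194305) (nat_lit 183962178969) (.one (nat_lit 16784095) .nil)))),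
   .two (nat_lit 654311536) (nat_lit 3560964455) (.two (nat_lit 37748751) (nat_lit 46523223190) (.two (nat_lit 2097153) (nat_lit 16783136) (.one (nat_lit 4201253) .nil))),
   .two (nat_lit 4634705986) (nat_lit 10376708707) (.two (nat_lit 9940500495) (nat_lit 47582282965) (.two (nat_lit 46414168072) (nat_lit 156569176841) (.two (nat_lit 46414168068) (nat_lit 46510640282) (.two (nat_lit 2097153) (nat_lit 2889880176) (.two (nat_lit 4194304) (nat_lit 2103220) (.one (nat_lit 2104102) .nil)))))),
   .two (nat_lit 218103875) (nat_lit 3021996708) (.two (nat_lit 2969567247) (nat_lit 46508541157) (.two (nat_lit 19599982600) (nat_lit 1795164985) (.two (nat_lit 708837381) (nat_lit 156581760777) (.two (nat_lit 2097153) (nat_lit 12163486367) (.two (nat_lit 16777216) (nat_lit 37249619835) (.one (nat_lit 4201255) .nil)))))),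
   .two (nat_lit 176160834) (nat_lit 9881780585) (.two (nat_lit 184549391) (nat_lit 165532404491) (.two (nat_lit 184549380) (nat_lit 158083322130) (.two (nat_lit 620756993) (nat_lit 13195285667) (.two (nat_lit 16777216) (nat_lit 8395055) (.one (nat_lit 16784168) .nil))))),
   .two (nat_lit 16777280) (nat_lit 9940501156) (.two (nat_lit 13195280399) (nat_lit 754975966) (.two (nat_lit 41943048) (nat_lit 50333147) (.two (nat_lit 8388612) (nat_lit 159266115298) (.two (nat_lit 8388609) (nat_lit 9948894357) (.two (nat_lit 8388608) (nat_lit 2969573214) (.one (nat_lit 1276123637) .nil)))))),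
   .two (nat_lit 272629827) (nat_lit 822084179) (.two (nat_lit 285212687) (nat_lit 46510637897) (.two (nat_lit 9768534024) (nat_lit 269486282) (.two (nat_lit 2902458373) (nat_lit 183848931100) (.two (nat_lit 50331649) (nat_lit 4200299) (.one (nat_lit 4201257) .nil))))),
   .two (nat_lit 16777280) (nat_lit 184986632552) (.two (nat_lit 276824079) (nat_lit 158192370943) (.two (nat_lit 8388616) (nat_lit 873466037) (.two (nat_lit 8388613) (nat_lit 13187943595) (.two (nat_lit 16777217) (nat_lit 4599060122) (.two (nat_lit 8388608) (nat_lit 2103222) (.one (nat_lit 16784170) .nil)))))),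
   .two (nat_lit 3028287555) (nat_lit 1780482669) (.two (nat_lit 3464495119) (nat_lit 159251432655) (.two (nat_lit 754974728) (nat_lit 9940503339) (.two (nat_lit 2902458372) (nat_lit 9873395481) (.two (nat_lit 16777217) (nat_lit 2102950) (.two (nat_lit 8388608) (nat_lit 16783287) (.one (nat_lit 16784171) .nil)))))),
   .two (nat_lit 16777280) (nat_lit 166230754601) (.two (nat_lit 8388616) (nat_lit 117443729) (.two (nat_lit 8388609) (nat_lit 3036682141) (.one (nat_lit 3036683008) .nil))),
   .two (nat_lit 11543773248) (nat_lit 16777811) (.two (nat_lit 721420303) (nat_lit 158075979007) (.two (nat_lit 1358954504) (nat_lit 158176644258) (.two (nat_lit 50331649) (nat_lit 1947210392) (.two (nat_lit 16777216) (nat_lit 185020192676) (.one (nat_lit 1055532) .nil))))),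
   .two (nat_lit 1849688171) (nat_lit 20738736791) (.two (nat_lit 620757007) (nat_lit 843056373) (.two (nat_lit 641728520) (nat_lit 185021238117) (.two (nat_lit 159224168453) (nat_lit 10001321130) (.two (nat_lit 156372041729) (nat_lit 2936018821) (.one (nat_lit 2104109) .nil))))),
   .two (nat_lit 11559501938) (nat_lit 41943231) (.two (nat_lit 50331663) (nat_lit 10007610843) (.two (nat_lit 16777220) (nat_lit 1317014684) (.two (nat_lit 16777217) (nat_lit 2102445) (.two (nat_lit 2097152) (nat_lit 3036682130) (.one (nat_lit 2104110) .nil))))),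
   .two (nat_lit 11610882113) (nat_lit 1291846215) (.two (nat_lit 4194319) (nat_lit 1291846873) (.two (nat_lit 169869320) (nat_lit 352323792) (.two (nat_lit 2097157) (nat_lit 2420117311) (.two (nat_lit 2097153) (nat_lit 1054542) (.one (nat_lit 1055535) .nil))))),
   .two (nat_lit 16777332) (nat_lit 11543773546) (.two (nat_lit 169869327) (nat_lit 20719863084) (.two (nat_lit 37748744) (nat_lit 1050826) (.two (nat_lit 9881780229) (nat_lit 183846833903) (.two (nat_lit 16777217) (nat_lit 1054376) (.two (nat_lit 1048576) (nat_lit 2103224) (.one (nat_lit 1055536) .nil)))))),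
   .two (nat_lit 1795162179) (nat_lit 156465366081) (.two (nat_lit 13191086095) (nat_lit 9781118427) (.two (nat_lit 4194308) (nat_lit 184553479) (.two (nat_lit 16777216) (nat_lit 1054610) (.one (nat_lit 1055537) .nil)))),
   .two (nat_lit 285212737) (nat_lit 166232851712) (.two (nat_lit 205520904) (nat_lit 1929383075) (.two (nat_lit 605028353) (nat_lit 285217950) (.two (nat_lit 4194304) (nat_lit 16783665) (.one (nat_lit 705698293) .nil)))),
   .two (nat_lit 16777280) (nat_lit 2994733645) (.two (nat_lit 184549391) (nat_lit 158077027556) (.two (nat_lit 8388616) (nat_lit 156548205728) (.two (nat_lit 8388609) (nat_lit 46474990199) (.two (nat_lit 8388608) (nat_lit 159266117549) (.one (nat_lit 16784090) .nil))))),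
   .two (nat_lit 654311536) (nat_lit 3560964455) (.two (nat_lit 37748751) (nat_lit 183962176662) (.two (nat_lit 2097153) (nat_lit 50337568) (.one (nat_lit 4201266) .nil))),
   .two (nat_lit 218103874) (nat_lit 166230753858) (.two (nat_lit 218103823) (nat_lit 20705183955) (.two (nat_lit 169869316) (nat_lit 822087439) (.two (nat_lit 606076929) (nat_lit 2969572004) (.two (nat_lit 16777216) (nat_lit 2954893142) (.one (nat_lit 10016004803) .nil))))),
   .two (nat_lit 285212736) (nat_lit 272630845) (.two (nat_lit 50331663) (nat_lit 9940501322) (.two (nat_lit 822083592) (nat_lit 708840306) (.two (nat_lit 809500677) (nat_lit 1325404166) (.two (nat_lit 4194304) (nat_lit 1291851167) (.one (nat_lit 16784179) .nil))))),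
   .two (nat_lit 28093448259) (nat_lit 4631560789) (.two (nat_lit 156533522456) (nat_lit 159224169718) (.two (nat_lit 11476664328) (nat_lit 343936174) (.two (nat_lit 2097153) (nat_lit 10906243699) (.two (nat_lit 2097152) (nat_lit 1054651) (.one (nat_lit 2104116) .nil))))),
   .two (nat_lit 4194414) (nat_lit 620757183) (.two (nat_lit 4194328) (nat_lit 12163482909) (.two (nat_lit 2954887176) (nat_lit 184552273) (.two (nat_lit 2889875460) (nat_lit 10907290781) (.two (nat_lit 16777217) (nat_lit 46407882590) (.one (nat_lit 2104117) .nil))))),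
   .two (nat_lit 285212736) (nat_lit 12117344837) (.two (nat_lit 285212687) (nat_lit 37249615771) (.two (nat_lit 809500680) (nat_lit 9781120141) (.two (nat_lit 4194305) (nat_lit 12163485707) (.two (nat_lit 4194304) (nat_lit 16783292) (.one (nat_lit 2889882325) .nil))))),
   .two (nat_lit 46980399169) (nat_lit 1277166235) (.two (nat_lit 46980399119) (nat_lit 639632645) (.two (nat_lit 169869320) (nat_lit 13224643758) (.two (nat_lit 2097153) (nat_lit 12117349008) (.two (nat_lit 1048576) (nat_lit 166130095865) (.one (nat_lit 2104118) .nil))))),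
   .two (nat_lit 339738645) (nat_lit 20644364851) (.two (nat_lit 47555018862) (nat_lit 19130220641) (.two (nat_lit 8388623) (nat_lit 708840868) (.two (nat_lit 8388623) (nat_lit 708840868) (.two (nat_lit 8388616) (nat_lit 708838355) (.two (nat_lit 8388616) (nat_lit 13224640739) (.two (nat_lit 4194308) (nat_lit 10007610986) (.two (nat_lit 4194308) (nat_lit 4638901864) (.two (nat_lit 4194305) (nat_lit 142609821) (.two (nat_lit 4194304) (nat_lit 679480733) (.one (nat_lit 8394300) .nil)))))))))),
   .two (nat_lit 339738645) (nat_lit 20644364851) (.two (nat_lit 47588573221) (nat_lit 37748934) (.two (nat_lit 47555018862) (nat_lit 19130220641) (.two (nat_lit 4194315) (nat_lit 10007610184) (.two (nat_lit 8388623) (nat_lit 708840868) (.two (nat_lit 4194310) (nat_lit 10007610843) (.two (nat_lit 8388616) (nat_lit 708838355) (.two (nat_lit 4194306) (nat_lit 165532404887) (.two (nat_lit 4194308) (nat_lit 10007610986) (.two (nat_lit 156372041729) (nat_lit 4198427) (.two (nat_lit 4194304) (nat_lit 8393628) (.one (nat_lit 4201017) .nil))))))))))),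
   .two (nat_lit 337641509) (nat_lit 158083318117) (.two (nat_lit 1753219106) (nat_lit 2097874) (.two (nat_lit 2961178639) (nat_lit 183846831332) (.two (nat_lit 101711880) (nat_lit 158158817474) (.two (nat_lit 739246085) (nat_lit 9900657838) (.two (nat_lit 34603009) (nat_lit 12618568311) (.two (nat_lit 16777216) (nat_lit 2102152) (.one (nat_lit 2920290425) .nil))))))),
   .two (nat_lit 2349858930) (nat_lit 4194981) (.two (nat_lit 156971827417) (nat_lit 19127074860) (.two (nat_lit 2889875469) (nat_lit 10510928047) (.two (nat_lit 171966469) (nat_lit 11517562006) (.two (nat_lit 606076929) (nat_lit 306188916) (.two (nat_lit 2097152) (nat_lit 1054986) (.one (nat_lit 1055424) .nil)))))),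
   .two (nat_lit 272629827) (nat_lit 1216348256) (.two (nat_lit 272629795) (nat_lit 183853122140) (.two (nat_lit 813694991) (nat_lit 339739469) (.two (nat_lit 4638900241) (nat_lit 46409975019) (.two (nat_lit 2889875462) (nat_lit 8389591) (.two (nat_lit 272629767) (nat_lit 4605348010) (.two (nat_lit 2954887173) (nat_lit 109055156) (.two (nat_lit 4194307) (nat_lit 176163997) (.two (nat_lit 2097153) (nat_lit 675287059) (.two (nat_lit 4194304) (nat_lit 8393629) (.one (nat_lit 69211675) .nil)))))))))),
   .two (nat_lit 339738661) (nat_lit 156372041919) (.two (nat_lit 4605345857) (nat_lit 641728709) (.two (nat_lit 2889875471) (nat_lit 156372042568) (.two (nat_lit 2889875464) (nat_lit 156372043227) (.two (nat_lit 272629765) (nat_lit 46414171279) (.two (nat_lit 4194305) (nat_lit 41947147) (.two (nat_lit 4194304) (nat_lit 8392825) (.one (nat_lit 4199394) .nil))))))),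
   .two (nat_lit 46508539924) (nat_lit 165532402259) (.two (nat_lit 47555018861) (nat_lit 71303265) (.two (nat_lit 37748751) (nat_lit 183953785304) (.two (nat_lit 37748751) (nat_lit 47555018969) (.two (nat_lit 37748744) (nat_lit 2894070739) (.two (nat_lit 8388616) (nat_lit 10001318119) (.two (nat_lit 2887778306) (nat_lit 47588578201) (.two (nat_lit 4194308) (nat_lit 10376709735) (.two (nat_lit 2097153) (nat_lit 21781027052) (.two (nat_lit 2097152) (nat_lit 166199301741) (.one (nat_lit 8394902) .nil)))))))))),
   .two (nat_lit 3560964116) (nat_lit 813695572) (.two (nat_lit 185023332389) (nat_lit 11584667844) (.two (nat_lit 4605345900) (nat_lit 706740321) (.two (nat_lit 4194315) (nat_lit 813696227) (.two (nat_lit 37748751) (nat_lit 41944011) (.two (nat_lit 4194310) (nat_lit 12155093973) (.two (nat_lit 37748744) (nat_lit 41944011) (.two (nat_lit 4194306) (nat_lit 159224171668) (.two (nat_lit 4194307) (nat_lit 8391867) (.two (nat_lit 9766436865) (nat_lit 8392732) (.two (nat_lit 2097152) (nat_lit 8393630) (.one (nat_lit 2102847) .nil))))))))))),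
   .two (nat_lit 4632608805) (nat_lit 21785215167) (.two (nat_lit 1753219106) (nat_lit 2097875) (.two (nat_lit 169869327) (nat_lit 9806284006) (.two (nat_lit 1343225864) (nat_lit 158158817458) (.two (nat_lit 705691652) (nat_lit 9900657838) (.two (nat_lit 50331649) (nat_lit 606081644) (.two (nat_lit 16777216) (nat_lit 184986637196) (.one (nat_lit 16783511) .nil))))))),
   .two (nat_lit 4194369) (nat_lit 156372041919) (.two (nat_lit 4194312) (nat_lit 21812480175) (.two (nat_lit 4194308) (nat_lit 4631564047) (.two (nat_lit 4194304) (nat_lit 8392107) (.one (nat_lit 1053693) .nil)))),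
   .two (nat_lit 12117344292) (nat_lit 9781117119) (.two (nat_lit 285212737) (nat_lit 19599982787) (.two (nat_lit 12117344271) (nat_lit 285213909) (.two (nat_lit 12117344264) (nat_lit 11492394460) (.two (nat_lit 11479810052) (nat_lit 11492396173) (.two (nat_lit 37748737) (nat_lit 185002364938) (.two (nat_lit 4194304) (nat_lit 16781455) (.one (nat_lit 184989783577) .nil))))))),
   .two (nat_lit 158144135204) (nat_lit 654311615) (.two (nat_lit 2969567297) (nat_lit 174753579203) (.two (nat_lit 158144135183) (nat_lit 2969568469) (.two (nat_lit 158144135176) (nat_lit 1291847132) (.two (nat_lit 1277165572) (nat_lit 1291848845) (.two (nat_lit 606076929) (nat_lit 21793607690) (.two (nat_lit 2097152) (nat_lit 184553615) (.one (nat_lit 21778929177) .nil))))))),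
   .two (nat_lit 8388672) (nat_lit 10015998143) (.two (nat_lit 8388623) (nat_lit 184419353827) (.two (nat_lit 8388616) (nat_lit 156535620562) (.two (nat_lit 8388616) (nat_lit 156367847651) (.two (nat_lit 8388612) (nat_lit 184553494) (.two (nat_lit 8388612) (nat_lit 272631400) (.two (nat_lit 8388609) (nat_lit 184553494) (.two (nat_lit 8388608) (nat_lit 184554390) (.one (nat_lit 8394904) .nil)))))))),
   .two (nat_lit 8388626) (nat_lit 183845781861) (.two (nat_lit 2954887232) (nat_lit 156364702419) (.two (nat_lit 276824129) (nat_lit 1761607775) (.two (nat_lit 41943055) (nat_lit 183845782344) (.two (nat_lit 41943048) (nat_lit 68159682) (.two (nat_lit 8388613) (nat_lit 20637027502) (.two (nat_lit 8388609) (nat_lit 605033155) (.two (nat_lit 8388608) (nat_lit 873469476) (.one (nat_lit 34608676) .nil)))))))),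
   .two (nat_lit 176160786) (nat_lit 352321727) (.two (nat_lit 16777280) (nat_lit 202375265) (.two (nat_lit 612368399) (nat_lit 156581758183) (.two (nat_lit 50331656) (nat_lit 10000272718) (.two (nat_lit 16777224) (nat_lit 21811429604) (.two (nat_lit 1745879045) (nat_lit 612371642) (.two (nat_lit 16777220) (nat_lit 10000272718) (.two (nat_lit 605028353) (nat_lit 16782097) (.two (nat_lit 1048576) (nat_lit 16782797) (.one (nat_lit 1410341413) .nil))))))))),
   .two (nat_lit 8388672) (nat_lit 742392278) (.two (nat_lit 8388672) (nat_lit 9902751841) (.two (nat_lit 11559501839) (nat_lit 9768534856) (.two (nat_lit 11559501832) (nat_lit 9768535515) (.two (nat_lit 721420292) (nat_lit 156971830417) (.two (nat_lit 50331649) (nat_lit 2319453510) (.two (nat_lit 4194304) (nat_lit 12155098755) (.one (nat_lit 1954551937) .nil))))))),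
   .two (nat_lit 205520915) (nat_lit 156465365567) (.two (nat_lit 1950351397) (nat_lit 772800704) (.two (nat_lit 46510637166) (nat_lit 4631560287) (.two (nat_lit 205520915) (nat_lit 37246469337) (.two (nat_lit 9768534031) (nat_lit 9765388760) (.two (nat_lit 184989777929) (nat_lit 1175454670) (.two (nat_lit 9768534024) (nat_lit 13221495763) (.two (nat_lit 46409973762) (nat_lit 101716745) (.two (nat_lit 1916796933) (nat_lit 12147758106) (.two (nat_lit 4194305) (nat_lit 101716745) (.two (nat_lit 4194304) (nat_lit 1054158) (.one (nat_lit 4201020) .nil))))))))))),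
   .two (nat_lit 16777281) (nat_lit 11476664677) (.two (nat_lit 276824079) (nat_lit 304088307) (.two (nat_lit 276824072) (nat_lit 3458205148) (.two (nat_lit 8388612) (nat_lit 165525064868) (.two (nat_lit 8388609) (nat_lit 37313581733) (.two (nat_lit 1048576) (nat_lit 9940504712) (.one (nat_lit 1055293) .nil)))))),
   .two (nat_lit 2954887232) (nat_lit 46477082815) (.two (nat_lit 166132187151) (nat_lit 9966715722) (.two (nat_lit 169869320) (nat_lit 272632631) (.two (nat_lit 2097157) (nat_lit 159253531107) (.two (nat_lit 270532613) (nat_lit 4030730387) (.two (nat_lit 2097153) (nat_lit 4030730387) (.two (nat_lit 1048576) (nat_lit 3525316743) (.one (nat_lit 3020953126) .nil))))))),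
   .two (nat_lit 9802088515) (nat_lit 788529768) (.two (nat_lit 9948889103) (nat_lit 1277166822) (.two (nat_lit 1191182349) (nat_lit 239077576) (.two (nat_lit 2969567237) (nat_lit 1413483668) (.two (nat_lit 37748737) (nat_lit 159217881719) (.two (nat_lit 4194304) (nat_lit 185002366516) (.one (nat_lit 4200917) .nil)))))),
   .two (nat_lit 272629827) (nat_lit 352321727) (.two (nat_lit 2889875471) (nat_lit 18925749064) (.two (nat_lit 185002360840) (nat_lit 13187942601) (.two (nat_lit 13187940357) (nat_lit 18941480119) (.two (nat_lit 2097155) (nat_lit 876613396) (.two (nat_lit 9768534017) (nat_lit 28758248777) (.two (nat_lit 2097152) (nat_lit 1054160) (.one (nat_lit 1055294) .nil))))))),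
   .two (nat_lit 8388672) (nat_lit 184986632383) (.two (nat_lit 158075977743) (nat_lit 4599055178) (.two (nat_lit 713031688) (nat_lit 11543776048) (.two (nat_lit 176160770) (nat_lit 1051836) (.two (nat_lit 16777219) (nat_lit 705695467) (.two (nat_lit 16777217) (nat_lit 174753582409) (.two (nat_lit 2097152) (nat_lit 12054434803) (.one (nat_lit 12054434803) .nil))))))),
   .two (nat_lit 16777234) (nat_lit 9934209215) (.two (nat_lit 8388672) (nat_lit 1346371781) (.two (nat_lit 8388672) (nat_lit 13188989023) (.two (nat_lit 13203669007) (nat_lit 1178600264) (.two (nat_lit 13203669000) (nat_lit 20740835522) (.two (nat_lit 16777220) (nat_lit 1176505499) (.two (nat_lit 16777217) (nat_lit 2101961) (.two (nat_lit 4194304) (nat_lit 209720218) (.one (nat_lit 8395592) .nil)))))))),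
   .two (nat_lit 8388672) (nat_lit 158077026661) (.two (nat_lit 176160783) (nat_lit 2418018095) (.two (nat_lit 185002360840) (nat_lit 9768535515) (.two (nat_lit 721420293) (nat_lit 3021999254) (.two (nat_lit 16777217) (nat_lit 306188925) (.two (nat_lit 16777216) (nat_lit 2954891412) (.one (nat_lit 8395593) .nil)))))),
   .two (nat_lit 46414168129) (nat_lit 184989778518) (.two (nat_lit 4601151503) (nat_lit 11014243560) (.two (nat_lit 156372041736) (nat_lit 46978304863) (.two (nat_lit 69206021) (nat_lit 8393024) (.two (nat_lit 2097153) (nat_lit 8394394) (.two (nat_lit 2097152) (nat_lit 8394193) (.one (nat_lit 2103872) .nil)))))),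
   .two (nat_lit 4194369) (nat_lit 343932966) (.two (nat_lit 813695083) (nat_lit 839909572) (.two (nat_lit 8388646) (nat_lit 11611931208) (.two (nat_lit 813694991) (nat_lit 46473937367) (.two (nat_lit 3460300823) (nat_lit 2886730704) (.two (nat_lit 8388616) (nat_lit 874513360) (.two (nat_lit 156367847431) (nat_lit 21812480193) (.two (nat_lit 4194308) (nat_lit 47548728945) (.two (nat_lit 18925748227) (nat_lit 12115250996) (.two (nat_lit 9766436865) (nat_lit 880809522) (.two (nat_lit 2097152) (nat_lit 2424313887) (.one (nat_lit 11577334323) .nil))))))))))),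
   .two (nat_lit 9881780289) (nat_lit 9934209215) (.two (nat_lit 2954887183) (nat_lit 11559502043) (.two (nat_lit 2954887183) (nat_lit 47596962636) (.two (nat_lit 218103816) (nat_lit 1176504521) (.two (nat_lit 184549380) (nat_lit 11477715431) (.two (nat_lit 2969567237) (nat_lit 185021238460) (.two (nat_lit 2097153) (nat_lit 11010053012) (.two (nat_lit 4194304) (nat_lit 47582288243) (.one (nat_lit 2104138) .nil)))))))),
   .two (nat_lit 104857619) (nat_lit 28764537481) (.two (nat_lit 809500739) (nat_lit 740294853) (.two (nat_lit 809500739) (nat_lit 159224168543) (.two (nat_lit 46414168075) (nat_lit 166230754537) (.two (nat_lit 1178599439) (nat_lit 46407877078) (.two (nat_lit 157043130376) (nat_lit 47584381126) (.two (nat_lit 9781116933) (nat_lit 3558870169) (.two (nat_lit 50331649) (nat_lit 1176507028) (.two (nat_lit 4194304) (nat_lit 8394790) (.one (nat_lit 8395595) .nil))))))))),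
   .two (nat_lit 3525312621) (nat_lit 9802088639) (.two (nat_lit 10504634383) (nat_lit 157038937330) (.two (nat_lit 2887778312) (nat_lit 3460303631) (.two (nat_lit 705691650) (nat_lit 4199462) (.two (nat_lit 11476664323) (nat_lit 2101569) (.two (nat_lit 605028353) (nat_lit 1212159637) (.two (nat_lit 1048576) (nat_lit 1212158870) (.one (nat_lit 1055425) .nil))))))),
   .two (nat_lit 166130090099) (nat_lit 9802088639) (.two (nat_lit 10504634383) (nat_lit 2889876710) (.two (nat_lit 2887778312) (nat_lit 3460303631) (.two (nat_lit 169869314) (nat_lit 4199463) (.two (nat_lit 270532613) (nat_lit 46409977878) (.two (nat_lit 34603009) (nat_lit 1210062491) (.two (nat_lit 1048576) (nat_lit 13188995630) (.one (nat_lit 1055426) .nil))))))),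
   .two (nat_lit 19029557363) (nat_lit 673185983) (.two (nat_lit 10506731535) (nat_lit 203424998) (.two (nat_lit 205520904) (nat_lit 46407879439) (.two (nat_lit 4194306) (nat_lit 169874471) (.two (nat_lit 166132187139) (nat_lit 1052991) (.two (nat_lit 34603009) (nat_lit 20638078613) (.two (nat_lit 1048576) (nat_lit 1312823329) (.one (nat_lit 168827586) .nil))))))),
   .two (nat_lit 9781116947) (nat_lit 3525313098) (.two (nat_lit 2969567346) (nat_lit 10504634466) (.two (nat_lit 117440527) (nat_lit 739246550) (.two (nat_lit 117440527) (nat_lit 9899606233) (.two (nat_lit 1745879048) (nat_lit 28691137495) (.two (nat_lit 183845781512) (nat_lit 13237223652) (.two (nat_lit 28758245381) (nat_lit 158192373560) (.two (nat_lit 2097153) (nat_lit 16783001) (.two (nat_lit 1048576) (nat_lit 183846835813) (.one (nat_lit 16783516) .nil))))))))),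
   .two (nat_lit 41943076) (nat_lit 47548727487) (.two (nat_lit 9772728354) (nat_lit 4194670) (.two (nat_lit 41943055) (nat_lit 10336863441) (.two (nat_lit 8388614) (nat_lit 2988444478) (.two (nat_lit 276824072) (nat_lit 35653853) (.two (nat_lit 19596836869) (nat_lit 10443820832) (.two (nat_lit 9765388289) (nat_lit 9940505212) (.two (nat_lit 1048576) (nat_lit 10372518792) (.one (nat_lit 4200610) .nil)))))))),
   .two (nat_lit 13191086116) (nat_lit 47563407720) (.two (nat_lit 2902458433) (nat_lit 1749024965) (.two (nat_lit 13191086095) (nat_lit 183928620310) (.two (nat_lit 13191086088) (nat_lit 159232559284) (.two (nat_lit 272629765) (nat_lit 16781113) (.two (nat_lit 4194305) (nat_lit 13237228199) (.two (nat_lit 4194304) (nat_lit 16782805) (.one (nat_lit 4199435) .nil))))))),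
   .two (nat_lit 16777234) (nat_lit 705692005) (.two (nat_lit 285212708) (nat_lit 705692005) (.two (nat_lit 169869377) (nat_lit 620757087) (.two (nat_lit 4194315) (nat_lit 10436478231) (.two (nat_lit 37748751) (nat_lit 184416207312) (.two (nat_lit 4194310) (nat_lit 2921334955) (.two (nat_lit 4194312) (nat_lit 47582282707) (.two (nat_lit 4194306) (nat_lit 46508543146) (.two (nat_lit 4194308) (nat_lit 303040095) (.two (nat_lit 37748737) (nat_lit 19027465793) (.two (nat_lit 4194304) (nat_lit 19027465793) (.one (nat_lit 16783941) .nil))))))))))),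
   .two (nat_lit 4601151554) (nat_lit 3565159047) (.two (nat_lit 813694991) (nat_lit 28760343776) (.two (nat_lit 41943048) (nat_lit 11513367358) (.two (nat_lit 8388612) (nat_lit 19096668540) (.two (nat_lit 8388611) (nat_lit 183916039937) (.two (nat_lit 8388609) (nat_lit 4199569) (.two (nat_lit 16777216) (nat_lit 2103336) (.one (nat_lit 2103878) .nil))))))),
   .two (nat_lit 4601151554) (nat_lit 3565159047) (.two (nat_lit 813694991) (nat_lit 28760343776) (.two (nat_lit 41943048) (nat_lit 11513367358) (.two (nat_lit 4194308) (nat_lit 9906947076) (.two (nat_lit 8388612) (nat_lit 19096668540) (.two (nat_lit 8388609) (nat_lit 4199569) (.two (nat_lit 4194304) (nat_lit 1325405733) (.one (nat_lit 1325405733) .nil))))))),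
   .two (nat_lit 185035915331) (nat_lit 156465365573) (.two (nat_lit 169869327) (nat_lit 1191183176) (.two (nat_lit 169869320) (nat_lit 11022633135) (.two (nat_lit 34603013) (nat_lit 16781115) (.two (nat_lit 606076929) (nat_lit 1053842) (.two (nat_lit 16777216) (nat_lit 2103564) (.one (nat_lit 1055305) .nil)))))),
   .two (nat_lit 4605345856) (nat_lit 10942939752) (.two (nat_lit 13195280399) (nat_lit 12050236665) (.two (nat_lit 183853121544) (nat_lit 4634708190) (.two (nat_lit 3460300808) (nat_lit 20644365256) (.two (nat_lit 183848927237) (nat_lit 46507494548) (.two (nat_lit 4194305) (nat_lit 1053843) (.two (nat_lit 8388608) (nat_lit 4598011337) (.one (nat_lit 8395598) .nil))))))),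
   .two (nat_lit 184549394) (nat_lit 47588574026) (.two (nat_lit 620757028) (nat_lit 47588574026) (.two (nat_lit 721420397) (nat_lit 1417674849) (.two (nat_lit 41943055) (nat_lit 10552870149) (.two (nat_lit 620757000) (nat_lit 3565159381) (.two (nat_lit 41943048) (nat_lit 11626611671) (.two (nat_lit 174752530437) (nat_lit 1417677972) (.two (nat_lit 9765388289) (nat_lit 159224173706) (.two (nat_lit 1048576) (nat_lit 11584672670) (.one (nat_lit 16783946) .nil))))))))),
   .two (nat_lit 16777234) (nat_lit 156566028877) (.two (nat_lit 16777280) (nat_lit 1276117184) (.two (nat_lit 16777280) (nat_lit 168820831) (.two (nat_lit 612368399) (nat_lit 1745879880) (.two (nat_lit 612368392) (nat_lit 1745880539) (.two (nat_lit 75497477) (nat_lit 68161264) (.two (nat_lit 8388609) (nat_lit 889197208) (.two (nat_lit 8388608) (nat_lit 34608038) (.one (nat_lit 16783529) .nil)))))))),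
   .two (nat_lit 8388672) (nat_lit 20637024294) (.two (nat_lit 1048648) (nat_lit 2956985304) (.two (nat_lit 50331686) (nat_lit 1276117349) (.two (nat_lit 9866051599) (nat_lit 209716184) (.two (nat_lit 184549392) (nat_lit 1276117832) (.two (nat_lit 16777224) (nat_lit 9768535515) (.two (nat_lit 16777220) (nat_lit 2953840224) (.two (nat_lit 16777220) (nat_lit 1051108) (.two (nat_lit 16777217) (nat_lit 1051108) (.two (nat_lit 16777216) (nat_lit 1055093) (.one (nat_lit 1055568) .nil)))))))))),
   .two (nat_lit 8388672) (nat_lit 1191182697) (.two (nat_lit 721420303) (nat_lit 13195281629) (.two (nat_lit 156365750280) (nat_lit 2961181455) (.two (nat_lit 46407876612) (nat_lit 880807735) (.two (nat_lit 620756993) (nat_lit 2102940) (.two (nat_lit 16777216) (nat_lit 2103565) (.one (nat_lit 2103884) .nil)))))),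
   .two (nat_lit 2349858883) (nat_lit 47582281919) (.two (nat_lit 21207449615) (nat_lit 3558867409) (.two (nat_lit 9934209040) (nat_lit 10436478168) (.two (nat_lit 1277165574) (nat_lit 269488320) (.two (nat_lit 16777223) (nat_lit 1050807) (.two (nat_lit 1277165572) (nat_lit 269488320) (.two (nat_lit 606076931) (nat_lit 28757200664) (.two (nat_lit 16777217) (nat_lit 2349862929) (.two (nat_lit 16777216) (nat_lit 2103427) (.one (nat_lit 2103427) .nil))))))))),
   .two (nat_lit 16777280) (nat_lit 11477713254) (.two (nat_lit 184549391) (nat_lit 12121539870) (.two (nat_lit 8388616) (nat_lit 3557820593) (.two (nat_lit 713031684) (nat_lit 13222547211) (.two (nat_lit 612368385) (nat_lit 2102420) (.two (nat_lit 8388608) (nat_lit 1055094) (.one (nat_lit 69212721) .nil)))))),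
   .two (nat_lit 4028629057) (nat_lit 876609575) (.two (nat_lit 1276117099) (nat_lit 203423940) (.two (nat_lit 205520911) (nat_lit 156533522651) (.two (nat_lit 4194312) (nat_lit 174686470651) (.two (nat_lit 205520904) (nat_lit 2954890659) (.two (nat_lit 4194308) (nat_lit 46507492985) (.two (nat_lit 2956984325) (nat_lit 2954890659) (.two (nat_lit 4194305) (nat_lit 2954890659) (.two (nat_lit 16777216) (nat_lit 19026417095) (.one (nat_lit 1346377262) .nil))))))))),
   .two (nat_lit 12617515118) (nat_lit 16777894) (.two (nat_lit 169869327) (nat_lit 9781117768) (.two (nat_lit 169869320) (nat_lit 9781118427) (.two (nat_lit 34603013) (nat_lit 1929383075) (.two (nat_lit 605028353) (nat_lit 16783005) (.two (nat_lit 8388608) (nat_lit 1054990) (.one (nat_lit 16783951) .nil)))))),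
   .two (nat_lit 2349858930) (nat_lit 158192370330) (.two (nat_lit 19596836879) (nat_lit 16779842) (.two (nat_lit 183845781512) (nat_lit 16779446) (.two (nat_lit 34603013) (nat_lit 10385099931) (.two (nat_lit 605028353) (nat_lit 16782485) (.two (nat_lit 2097152) (nat_lit 16783198) (.one (nat_lit 16784211) .nil)))))),
   .two (nat_lit 4601151552) (nat_lit 166130090022) (.two (nat_lit 1176502309) (nat_lit 4601151679) (.two (nat_lit 276824102) (nat_lit 9802088639) (.two (nat_lit 184423546895) (nat_lit 13191086299) (.two (nat_lit 184423546895) (nat_lit 4601151963) (.two (nat_lit 8388616) (nat_lit 19530777557) (.two (nat_lit 8388615) (nat_lit 2319452983) (.two (nat_lit 8388612) (nat_lit 1411384943) (.two (nat_lit 10369368067) (nat_lit 4198279) (.two (nat_lit 9765388289) (nat_lit 2103020) (.two (nat_lit 1048576) (nat_lit 4200823) (.one (nat_lit 4201040) .nil))))))))))),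
   .two (nat_lit 46409973873) (nat_lit 4638900869) (.two (nat_lit 41943055) (nat_lit 158075978568) (.two (nat_lit 41943048) (nat_lit 11577329870) (.two (nat_lit 8388612) (nat_lit 20637025287) (.two (nat_lit 156372041731) (nat_lit 2102313) (.two (nat_lit 605028353) (nat_lit 4198433) (.two (nat_lit 2097152) (nat_lit 1054765) (.one (nat_lit 1055313) .nil))))))),
   .two (nat_lit 135266420) (nat_lit 11593056294) (.two (nat_lit 2319450228) (nat_lit 1343226052) (.two (nat_lit 156465365016) (nat_lit 10351542785) (.two (nat_lit 1846542344) (nat_lit 50332155) (.two (nat_lit 9802088460) (nat_lit 10369369045) (.two (nat_lit 10506731525) (nat_lit 16778245) (.two (nat_lit 10506731525) (nat_lit 620759425) (.two (nat_lit 9765388289) (nat_lit 10351544807) (.two (nat_lit 2097152) (nat_lit 16782811) (.one (nat_lit 16783955) .nil))))))))),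
   .two (nat_lit 135266420) (nat_lit 11593056294) (.two (nat_lit 1048650) (nat_lit 16777312) (.two (nat_lit 11593056294) (nat_lit 12617515592) (.two (nat_lit 11626610711) (nat_lit 3557820016) (.two (nat_lit 11593056273) (nat_lit 739247964) (.two (nat_lit 876609545) (nat_lit 16778722) (.two (nat_lit 9768534023) (nat_lit 12062820553) (.two (nat_lit 166132187138) (nat_lit 1051840) (.two (nat_lit 1178599427) (nat_lit 16780481) (.two (nat_lit 9765388289) (nat_lit 50337243) (.two (nat_lit 2097152) (nat_lit 1054766) (.one (nat_lit 1054897) .nil))))))))))),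
   .two (nat_lit 847249475) (nat_lit 10000269906) (.two (nat_lit 183853121551) (nat_lit 3460301641) (.two (nat_lit 1753219080) (nat_lit 1191185234) (.two (nat_lit 605028357) (nat_lit 8392508) (.two (nat_lit 4194305) (nat_lit 1053847) (.two (nat_lit 4194304) (nat_lit 1054559) (.one (nat_lit 16783956) .nil)))))),
   .two (nat_lit 4647288898) (nat_lit 28089254247) (.two (nat_lit 28693233679) (nat_lit 218105070) (.two (nat_lit 28693233672) (nat_lit 1291848530) (.two (nat_lit 1779433477) (nat_lit 11479813948) (.two (nat_lit 34603009) (nat_lit 9869202583) (.two (nat_lit 4194304) (nat_lit 2886735711) (.one (nat_lit 16784212) .nil)))))),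
   .two (nat_lit 8388626) (nat_lit 20638073407) (.two (nat_lit 8388644) (nat_lit 20638073407) (.two (nat_lit 13191086189) (nat_lit 9772728415) (.two (nat_lit 8388623) (nat_lit 20638074073) (.two (nat_lit 8388616) (nat_lit 9934209998) (.two (nat_lit 8388616) (nat_lit 9967764439) (.two (nat_lit 822083589) (nat_lit 159257727753) (.two (nat_lit 822083589) (nat_lit 675287066) (.two (nat_lit 50331649) (nat_lit 4632615059) (.two (nat_lit 16777216) (nat_lit 4632615059) (.one (nat_lit 8395350) .nil)))))))))),
   .two (nat_lit 183949590637) (nat_lit 310378534) (.two (nat_lit 183949590637) (nat_lit 9806282848) (.two (nat_lit 156372041762) (nat_lit 9936306773) (.two (nat_lit 9768534031) (nat_lit 9806282971) (.two (nat_lit 4194332) (nat_lit 4605347298) (.two (nat_lit 12117344264) (nat_lit 4605347298) (.two (nat_lit 50331655) (nat_lit 174685423788) (.two (nat_lit 171966469) (nat_lit 10007612752) (.two (nat_lit 50331651) (nat_lit 1175456938) (.two (nat_lit 605028353) (nat_lit 276829102) (.two (nat_lit 16777216) (nat_lit 8395129) (.one (nat_lit 1055270) .nil))))))))))),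
   .two (nat_lit 1310720065) (nat_lit 174752531016) (.two (nat_lit 20638072847) (nat_lit 19529729884) (.two (nat_lit 184423546888) (nat_lit 3460303033) (.two (nat_lit 176160773) (nat_lit 1411384943) (.two (nat_lit 176160773) (nat_lit 12150901951) (.two (nat_lit 9765388289) (nat_lit 4200094) (.two (nat_lit 1048576) (nat_lit 4200496) (.one (nat_lit 11510225073) .nil))))))),
   .two (nat_lit 16777282) (nat_lit 158179787381) (.two (nat_lit 1350565903) (nat_lit 1209009998) (.two (nat_lit 1350565896) (nat_lit 158091709241) (.two (nat_lit 713031685) (nat_lit 184986633824) (.two (nat_lit 713031683) (nat_lit 1052997) (.two (nat_lit 50331649) (nat_lit 4199760) (.two (nat_lit 16777216) (nat_lit 1054770) (.one (nat_lit 1055321) .nil))))))),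
   .two (nat_lit 47548727363) (nat_lit 1317011494) (.two (nat_lit 205520934) (nat_lit 2097511) (.two (nat_lit 21214789647) (nat_lit 10504634587) (.two (nat_lit 705691656) (nat_lit 3565159384) (.two (nat_lit 270532615) (nat_lit 4197375) (.two (nat_lit 2956984325) (nat_lit 156533523462) (.two (nat_lit 1276116995) (nat_lit 8392586) (.two (nat_lit 156365750273) (nat_lit 4199761) (.two (nat_lit 1048576) (nat_lit 4200500) (.one (nat_lit 4201303) .nil))))))))),
   .two (nat_lit 2316304496) (nat_lit 28798091625) (.two (nat_lit 16777231) (nat_lit 158083318601) (.two (nat_lit 16777224) (nat_lit 343933440) (.two (nat_lit 1350565895) (nat_lit 9948890064) (.two (nat_lit 16777220) (nat_lit 21785216009) (.two (nat_lit 75497475) (nat_lit 9948890720) (.two (nat_lit 34603009) (nat_lit 8393882) (.two (nat_lit 4194304) (nat_lit 16783633) (.one (nat_lit 16783543) .nil)))))))),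
   .two (nat_lit 2954887359) (nat_lit 156535619775) (.two (nat_lit 276824130) (nat_lit 166132188367) (.two (nat_lit 2954887183) (nat_lit 11551115436) (.two (nat_lit 3460300808) (nat_lit 10940845201) (.two (nat_lit 8388612) (nat_lit 1053303) (.two (nat_lit 2097153) (nat_lit 1054460) (.two (nat_lit 2097152) (nat_lit 1055118) (.one (nat_lit 1055598) .nil))))))),
   .two (nat_lit 2954887359) (nat_lit 10343153855) (.two (nat_lit 2954887232) (nat_lit 8389862) (.two (nat_lit 20644364303) (nat_lit 9933162669) (.two (nat_lit 20644364296) (nat_lit 1051796) (.two (nat_lit 2097157) (nat_lit 8393336) (.two (nat_lit 2097153) (nat_lit 8394493) (.two (nat_lit 1048576) (nat_lit 2103394) (.one (nat_lit 1055599) .nil))))))),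
   .two (nat_lit 3527409855) (nat_lit 166197199039) (.two (nat_lit 4601151552) (nat_lit 8389863) (.two (nat_lit 9940500495) (nat_lit 2099966) (.two (nat_lit 612368392) (nat_lit 11611933844) (.two (nat_lit 713031685) (nat_lit 2101882) (.two (nat_lit 8388609) (nat_lit 2103038) (.two (nat_lit 2097152) (nat_lit 8395152) (.one (nat_lit 2104177) .nil))))))),
   .two (nat_lit 47555018943) (nat_lit 20705181887) (.two (nat_lit 47555018819) (nat_lit 1914701030) (.two (nat_lit 8388623) (nat_lit 2420114908) (.two (nat_lit 46414168072) (nat_lit 47582284945) (.two (nat_lit 184989777925) (nat_lit 8393339) (.two (nat_lit 156367847425) (nat_lit 4632614654) (.two (nat_lit 4194304) (nat_lit 2103395) (.one (nat_lit 2104178) .nil))))))),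
   .two (nat_lit 272629951) (nat_lit 847249599) (.two (nat_lit 272629824) (nat_lit 19127075656) (.two (nat_lit 809500687) (nat_lit 10538192019) (.two (nat_lit 169869316) (nat_lit 4199036) (.two (nat_lit 156364701697) (nat_lit 19130226074) (.two (nat_lit 2097152) (nat_lit 4200851) (.one (nat_lit 2104184) .nil)))))),
   .two (nat_lit 185035915455) (nat_lit 37313577317) (.two (nat_lit 158646403137) (nat_lit 1426064610) (.two (nat_lit 10336862223) (nat_lit 47581235382) (.two (nat_lit 10336862216) (nat_lit 1052481) (.two (nat_lit 34603013) (nat_lit 47596966520) (.two (nat_lit 2097153) (nat_lit 10537146466) (.one (nat_lit 2104252) .nil)))))),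
   .two (nat_lit 285212863) (nat_lit 11614028439) (.two (nat_lit 285212736) (nat_lit 3024094470) (.two (nat_lit 37748751) (nat_lit 16779431) (.two (nat_lit 9781116936) (nat_lit 69209244) (.two (nat_lit 183848927237) (nat_lit 19094573690) (.two (nat_lit 2097153) (nat_lit 166199301886) (.two (nat_lit 2097152) (nat_lit 166232856675) (.one (nat_lit 102767503) .nil))))))),
   .two (nat_lit 21777875135) (nat_lit 183928619634) (.two (nat_lit 4601151555) (nat_lit 19529728840) (.two (nat_lit 1191182351) (nat_lit 775948488) (.two (nat_lit 156372041736) (nat_lit 772803737) (.two (nat_lit 9765388293) (nat_lit 1279267501) (.two (nat_lit 4194305) (nat_lit 8394612) (.two (nat_lit 8388608) (nat_lit 11614034376) (.one (nat_lit 166237051793) .nil))))))),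
   .two (nat_lit 13237223615) (nat_lit 9802088805) (.two (nat_lit 4601151555) (nat_lit 11626611942) (.two (nat_lit 46409973775) (nat_lit 3539995411) (.two (nat_lit 19599982604) (nat_lit 184417258644) (.two (nat_lit 18928893957) (nat_lit 10504639097) (.two (nat_lit 2097153) (nat_lit 11614034018) (.one (nat_lit 2104258) .nil)))))),
   .two (nat_lit 50331839) (nat_lit 2994733247) (.two (nat_lit 16777280) (nat_lit 2323645679) (.two (nat_lit 721420303) (nat_lit 10906241205) (.two (nat_lit 721420296) (nat_lit 174752533675) (.two (nat_lit 612368389) (nat_lit 12163486351) (.two (nat_lit 41943041) (nat_lit 1054585) (.two (nat_lit 8388608) (nat_lit 1055207) (.one (nat_lit 1055683) .nil))))))),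
   .two (nat_lit 1753219263) (nat_lit 10503586152) (.two (nat_lit 158176641090) (nat_lit 156976022758) (.two (nat_lit 1779433487) (nat_lit 11580475568) (.two (nat_lit 183853121544) (nat_lit 168823956) (.two (nat_lit 47550824453) (nat_lit 8393431) (.two (nat_lit 156367847425) (nat_lit 672143459) (.one (nat_lit 1055684) .nil)))))),
   .two (nat_lit 183916036287) (nat_lit 168821097) (.two (nat_lit 1343225923) (nat_lit 10913580323) (.two (nat_lit 2961178639) (nat_lit 158179789650) (.two (nat_lit 1779433480) (nat_lit 9900657834) (.two (nat_lit 12121538565) (nat_lit 46977258157) (.two (nat_lit 9766436865) (nat_lit 157035796234) (.two (nat_lit 2097152) (nat_lit 806361544) (.one (nat_lit 1055685) .nil))))))),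
   .two (nat_lit 3525312606) (nat_lit 1417675350) (.two (nat_lit 156581756995) (nat_lit 176162038) (.two (nat_lit 41943055) (nat_lit 352323784) (.two (nat_lit 813694984) (nat_lit 822086827) (.two (nat_lit 11484004357) (nat_lit 1224741487) (.two (nat_lit 2097153) (nat_lit 1350571427) (.two (nat_lit 2097152) (nat_lit 822089822) (.one (nat_lit 46992989087) .nil))))))),
   .two (nat_lit 46406828127) (nat_lit 1795162469) (.two (nat_lit 11559501918) (nat_lit 11543773380) (.two (nat_lit 1745879076) (nat_lit 117441352) (.two (nat_lit 117440546) (nat_lit 739247714) (.two (nat_lit 1745879055) (nat_lit 117442011) (.two (nat_lit 183845781510) (nat_lit 9881783439) (.two (nat_lit 1745879048) (nat_lit 117442154) (.two (nat_lit 705691650) (nat_lit 16781316) (.two (nat_lit 12047089669) (nat_lit 2969569762) (.two (nat_lit 34603009) (nat_lit 16782209) (.two (nat_lit 1048576) (nat_lit 156380434623) (.one (nat_lit 16783972) .nil))))))))))),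
   .two (nat_lit 4601151679) (nat_lit 18941477469) (.two (nat_lit 2902458435) (nat_lit 1410335560) (.two (nat_lit 4194319) (nat_lit 16778715) (.two (nat_lit 4194312) (nat_lit 158192372903) (.two (nat_lit 4194308) (nat_lit 3020950854) (.two (nat_lit 2097155) (nat_lit 183848931974) (.two (nat_lit 620756993) (nat_lit 184986638113) (.two (nat_lit 16777216) (nat_lit 303045029) (.one (nat_lit 1346378698) .nil)))))))),
   .two (nat_lit 4605345886) (nat_lit 3527409855) (.two (nat_lit 4605345857) (nat_lit 174688568595) (.two (nat_lit 2889875471) (nat_lit 156372043227) (.two (nat_lit 2889875464) (nat_lit 158083320984) (.two (nat_lit 4601151493) (nat_lit 41947144) (.two (nat_lit 9768534017) (nat_lit 2927629722) (.two (nat_lit 4194304) (nat_lit 8395304) (.one (nat_lit 37755786) .nil))))))),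
   .two (nat_lit 9936306271) (nat_lit 18933088613) (.two (nat_lit 847249599) (nat_lit 3527409856) (.two (nat_lit 4605345856) (nat_lit 18928895237) (.two (nat_lit 272629775) (nat_lit 156372043227) (.two (nat_lit 37748744) (nat_lit 46414171277) (.two (nat_lit 4194308) (nat_lit 11618226183) (.two (nat_lit 606076929) (nat_lit 310384024) (.two (nat_lit 2097152) (nat_lit 8394273) (.one (nat_lit 2104231) .nil)))))))),
   .two (nat_lit 9974055103) (nat_lit 46474985664) (.two (nat_lit 47555018816) (nat_lit 165526111493) (.two (nat_lit 2954887183) (nat_lit 10343155163) (.two (nat_lit 606076936) (nat_lit 46414171277) (.two (nat_lit 169869316) (nat_lit 1417678855) (.two (nat_lit 37748737) (nat_lit 2994738584) (.two (nat_lit 2097152) (nat_lit 19134419134) (.one (nat_lit 171973543) .nil))))))),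
   .two (nat_lit 4605345886) (nat_lit 47550825067) (.two (nat_lit 4605345856) (nat_lit 18928895237) (.two (nat_lit 272629775) (nat_lit 156372043227) (.two (nat_lit 37748744) (nat_lit 46414171277) (.two (nat_lit 4194308) (nat_lit 11618226183) (.two (nat_lit 606076929) (nat_lit 310384024) (.two (nat_lit 2097152) (nat_lit 4199394) (.one (nat_lit 2104231) .nil))))))),
   .two (nat_lit 156372041919) (nat_lit 4194666) (.two (nat_lit 2889875523) (nat_lit 18933089096) (.two (nat_lit 272629775) (nat_lit 156372043227) (.two (nat_lit 4194312) (nat_lit 4605349007) (.two (nat_lit 4194308) (nat_lit 4605349893) (.two (nat_lit 4194305) (nat_lit 156573373315) (.two (nat_lit 1048576) (nat_lit 343939176) (.one (nat_lit 1054909) .nil))))))),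
   .two (nat_lit 8388799) (nat_lit 47548727878) (.two (nat_lit 8388672) (nat_lit 3021996872) (.two (nat_lit 41943055) (nat_lit 183912892617) (.two (nat_lit 41943048) (nat_lit 673189653) (.two (nat_lit 8388612) (nat_lit 19093522919) (.two (nat_lit 156364701697) (nat_lit 270538141) (.two (nat_lit 2097152) (nat_lit 1346378150) (.one (nat_lit 1053720) .nil))))))),
   .two (nat_lit 612368575) (nat_lit 13187940917) (.two (nat_lit 46407876673) (nat_lit 9768534856) (.two (nat_lit 4613734415) (nat_lit 9768535515) (.two (nat_lit 16777224) (nat_lit 11543776399) (.two (nat_lit 16777220) (nat_lit 11543777285) (.two (nat_lit 16777217) (nat_lit 2316309379) (.two (nat_lit 16777216) (nat_lit 4200552) (.one (nat_lit 706745368) .nil))))))),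
   .two (nat_lit 8388799) (nat_lit 159217877030) (.two (nat_lit 343933119) (nat_lit 336592992) (.two (nat_lit 8388672) (nat_lit 336593115) (.two (nat_lit 4601151526) (nat_lit 4599055178) (.two (nat_lit 8388623) (nat_lit 11610882557) (.two (nat_lit 339738641) (nat_lit 183845782485) (.two (nat_lit 713031686) (nat_lit 1051009) (.two (nat_lit 4599054343) (nat_lit 9768535658) (.two (nat_lit 46409973765) (nat_lit 1753221607) (.two (nat_lit 2097155) (nat_lit 20740835813) (.two (nat_lit 9766436865) (nat_lit 1053589) (.two (nat_lit 16777216) (nat_lit 1745883327) (.one (nat_lit 1054316) .nil)))))))))))),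
   .two (nat_lit 612368575) (nat_lit 13187940917) (.two (nat_lit 46407876673) (nat_lit 9768534856) (.two (nat_lit 4613734415) (nat_lit 9768535515) (.two (nat_lit 16777224) (nat_lit 11543776399) (.two (nat_lit 16777220) (nat_lit 11543777285) (.two (nat_lit 16777217) (nat_lit 2316309379) (.two (nat_lit 16777216) (nat_lit 4200552) (.one (nat_lit 1055703) .nil))))))),
   .two (nat_lit 612368575) (nat_lit 4598006118) (.two (nat_lit 4613734465) (nat_lit 9768534856) (.two (nat_lit 4613734415) (nat_lit 3021998258) (.two (nat_lit 4613734408) (nat_lit 1277168783) (.two (nat_lit 16777220) (nat_lit 11543777285) (.two (nat_lit 16777217) (nat_lit 135271299) (.two (nat_lit 16777216) (nat_lit 4200552) (.one (nat_lit 1055346) .nil))))))),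
   .two (nat_lit 8388701) (nat_lit 11610882405) (.two (nat_lit 3021996389) (nat_lit 8388702) (.two (nat_lit 8388644) (nat_lit 775947518) (.two (nat_lit 8388672) (nat_lit 336593360) (.two (nat_lit 46407876623) (nat_lit 9768535515) (.two (nat_lit 176160774) (nat_lit 20640173856) (.two (nat_lit 46407876616) (nat_lit 9768535658) (.two (nat_lit 20637024258) (nat_lit 12148806300) (.two (nat_lit 159216828421) (nat_lit 183947495909) (.two (nat_lit 156364701697) (nat_lit 11611934844) (.two (nat_lit 4194304) (nat_lit 1053675) (.one (nat_lit 1055704) .nil))))))))))),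
   .two (nat_lit 612368575) (nat_lit 13187940917) (.two (nat_lit 46407876673) (nat_lit 9768534856) (.two (nat_lit 4613734415) (nat_lit 9768535515) (.two (nat_lit 16777224) (nat_lit 11543776399) (.two (nat_lit 16777220) (nat_lit 11543777285) (.two (nat_lit 16777217) (nat_lit 2316309379) (.two (nat_lit 16777216) (nat_lit 4200552) (.one (nat_lit 1055347) .nil))))))),
   .two (nat_lit 612368575) (nat_lit 4598006118) (.two (nat_lit 4613734465) (nat_lit 9768534856) (.two (nat_lit 4613734415) (nat_lit 3021998258) (.two (nat_lit 4613734408) (nat_lit 1277168783) (.two (nat_lit 16777220) (nat_lit 11543777285) (.two (nat_lit 16777217) (nat_lit 135271299) (.two (nat_lit 16777216) (nat_lit 4200552) (.one (nat_lit 1055348) .nil))))))),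
   .two (nat_lit 13222543455) (nat_lit 272629951) (.two (nat_lit 3460300820) (nat_lit 18926798048) (.two (nat_lit 3024093221) (nat_lit 47582282195) (.two (nat_lit 272629824) (nat_lit 4631560410) (.two (nat_lit 46407876619) (nat_lit 3020949682) (.two (nat_lit 205520911) (nat_lit 673186760) (.two (nat_lit 4194310) (nat_lit 3457158329) (.two (nat_lit 205520904) (nat_lit 35653281) (.two (nat_lit 166129041410) (nat_lit 11611933157) (.two (nat_lit 156365750275) (nat_lit 336596381) (.two (nat_lit 156367847425) (nat_lit 1052809) (.two (nat_lit 1048576) (nat_lit 2102825) (.one (nat_lit 1276124159) .nil)))))))))))),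
   .two (nat_lit 612368575) (nat_lit 13187940917) (.two (nat_lit 46407876673) (nat_lit 9768534856) (.two (nat_lit 4613734415) (nat_lit 9768535515) (.two (nat_lit 16777224) (nat_lit 11543776399) (.two (nat_lit 16777220) (nat_lit 11543777285) (.two (nat_lit 16777217) (nat_lit 2316309379) (.two (nat_lit 16777216) (nat_lit 4200552) (.one (nat_lit 4201077) .nil))))))),
   .two (nat_lit 612368575) (nat_lit 4598006118) (.two (nat_lit 4613734465) (nat_lit 9768534856) (.two (nat_lit 4613734415) (nat_lit 3021998258) (.two (nat_lit 4613734408) (nat_lit 1277168783) (.two (nat_lit 16777220) (nat_lit 11543777285) (.two (nat_lit 16777217) (nat_lit 135271299) (.two (nat_lit 16777216) (nat_lit 4200552) (.one (nat_lit 4201077) .nil))))))),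
   .two (nat_lit 8388799) (nat_lit 11611930721) (.two (nat_lit 8388672) (nat_lit 874512848) (.two (nat_lit 8388672) (nat_lit 3020947674) (.two (nat_lit 47548727311) (nat_lit 336595142) (.two (nat_lit 8388616) (nat_lit 10372515431) (.two (nat_lit 184989777925) (nat_lit 713036773) (.two (nat_lit 713031684) (nat_lit 1050273) (.two (nat_lit 37748737) (nat_lit 713036773) (.two (nat_lit 1048576) (nat_lit 3460305894) (.one (nat_lit 1055705) .nil))))))))),
   .two (nat_lit 4601151526) (nat_lit 10913579640) (.two (nat_lit 159217877000) (nat_lit 705692164) (.two (nat_lit 1048576) (nat_lit 2101457) .nil)),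
   .two (nat_lit 285212766) (nat_lit 3527409855) (.two (nat_lit 285212737) (nat_lit 3527410504) (.two (nat_lit 285212687) (nat_lit 3527411163) (.two (nat_lit 2889875464) (nat_lit 2902461581) (.two (nat_lit 16777220) (nat_lit 1782583921) (.two (nat_lit 4194305) (nat_lit 16783176) (.two (nat_lit 4194304) (nat_lit 16783490) (.one (nat_lit 19130227619) .nil))))))),
   .two (nat_lit 11559501921) (nat_lit 1947206213) (.two (nat_lit 2969567251) (nat_lit 12114199786) (.two (nat_lit 306184259) (nat_lit 352322006) (.two (nat_lit 306184259) (nat_lit 1291845849) (.two (nat_lit 9881780239) (nat_lit 1745881296) (.two (nat_lit 28690087944) (nat_lit 156971830442) (.two (nat_lit 9933160453) (nat_lit 10385101464) (.two (nat_lit 4194305) (nat_lit 1054539) (.two (nat_lit 4194304) (nat_lit 1053678) (.one (nat_lit 1055707) .nil))))))))),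
   .two (nat_lit 16777310) (nat_lit 159257723239) (.two (nat_lit 16777280) (nat_lit 75498728) (.two (nat_lit 184549391) (nat_lit 1954547895) (.two (nat_lit 184549384) (nat_lit 10343157536) (.two (nat_lit 184549380) (nat_lit 20711477884) (.two (nat_lit 16777217) (nat_lit 46984599299) (.two (nat_lit 8388608) (nat_lit 12115253339) (.one (nat_lit 2104232) .nil))))))),
   .two (nat_lit 880804031) (nat_lit 12047089761) (.two (nat_lit 1276117012) (nat_lit 19604178723) (.two (nat_lit 8388672) (nat_lit 12047089881) (.two (nat_lit 28086108175) (nat_lit 18933089224) (.two (nat_lit 8388623) (nat_lit 9966715108) (.two (nat_lit 20637024262) (nat_lit 8391042) (.two (nat_lit 20637024258) (nat_lit 8392726) (.two (nat_lit 75497475) (nat_lit 1051980) (.two (nat_lit 605028353) (nat_lit 8393622) (.two (nat_lit 1048576) (nat_lit 8394885) (.one (nat_lit 1055350) .nil)))))))))),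
   .two (nat_lit 16777280) (nat_lit 156372041948) (.two (nat_lit 184549391) (nat_lit 176160998) (.two (nat_lit 8388612) (nat_lit 18941478561) (.two (nat_lit 8388609) (nat_lit 654315647) (.one (nat_lit 705697384) .nil)))),
   .two (nat_lit 41943231) (nat_lit 11492393055) (.two (nat_lit 3036676116) (nat_lit 1780482888) (.two (nat_lit 713031747) (nat_lit 21210595545) (.two (nat_lit 654311439) (nat_lit 69208245) (.two (nat_lit 654311432) (nat_lit 1344277675) (.two (nat_lit 1344274437) (nat_lit 41947804) (.two (nat_lit 9766436865) (nat_lit 13191091963) (.two (nat_lit 2097152) (nat_lit 184419359120) (.one (nat_lit 16784297) .nil)))))))),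
   .two (nat_lit 2954887359) (nat_lit 10376708701) (.two (nat_lit 4194369) (nat_lit 343933768) (.two (nat_lit 4194319) (nat_lit 343934427) (.two (nat_lit 4194312) (nat_lit 12054432934) (.two (nat_lit 4194308) (nat_lit 9765391775) (.two (nat_lit 4194308) (nat_lit 10343156194) (.two (nat_lit 41943041) (nat_lit 1343231777) (.two (nat_lit 8388608) (nat_lit 47581239717) (.one (nat_lit 28790757991) .nil)))))))),
   .two (nat_lit 9881780321) (nat_lit 11577328181) (.two (nat_lit 654311781) (nat_lit 174752530628) (.two (nat_lit 166245433381) (nat_lit 183912891208) (.two (nat_lit 218103873) (nat_lit 3020948434) (.two (nat_lit 739246095) (nat_lit 285214171) (.two (nat_lit 739246088) (nat_lit 2902461583) (.two (nat_lit 2969567237) (nat_lit 156465369772) (.two (nat_lit 16777217) (nat_lit 1054541) (.two (nat_lit 1048576) (nat_lit 16782892) (.one (nat_lit 1055658) .nil))))))))),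
   .two (nat_lit 158143086783) (nat_lit 184993972416) (.two (nat_lit 19029557315) (nat_lit 1216349430) (.two (nat_lit 9768534031) (nat_lit 2920287064) (.two (nat_lit 276824072) (nat_lit 10909388576) (.two (nat_lit 9873391621) (nat_lit 20704137862) (.two (nat_lit 4194305) (nat_lit 2920290098) (.two (nat_lit 1048576) (nat_lit 46980405342) (.one (nat_lit 21210602399) .nil))))))),
   .two (nat_lit 10506731615) (nat_lit 12618564215) (.two (nat_lit 19530776691) (nat_lit 2923430352) (.two (nat_lit 772800579) (nat_lit 10437525721) (.two (nat_lit 184986632207) (nat_lit 272632010) (.two (nat_lit 46407876616) (nat_lit 46409976194) (.two (nat_lit 2097157) (nat_lit 4199105) (.two (nat_lit 34603009) (nat_lit 2103118) (.two (nat_lit 1048576) (nat_lit 2102829) (.one (nat_lit 2103498) .nil)))))))),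
   .two (nat_lit 4194501) (nat_lit 18933088613) (.two (nat_lit 13195280451) (nat_lit 19029558506) (.two (nat_lit 183853121551) (nat_lit 4197214) (.two (nat_lit 3560964105) (nat_lit 4605349647) (.two (nat_lit 809500679) (nat_lit 1417677998) (.two (nat_lit 13191086085) (nat_lit 8393410) (.two (nat_lit 156367847425) (nat_lit 8394575) (.two (nat_lit 8388608) (nat_lit 4200583) (.one (nat_lit 4201387) .nil)))))))),
   .two (nat_lit 11559502015) (nat_lit 21207449638) (.two (nat_lit 11559502015) (nat_lit 28757196896) (.two (nat_lit 11559501890) (nat_lit 166196150491) (.two (nat_lit 285212710) (nat_lit 12620661994) (.two (nat_lit 50331663) (nat_lit 13224641028) (.two (nat_lit 3460300815) (nat_lit 1358955472) (.two (nat_lit 285212680) (nat_lit 165528208993) (.two (nat_lit 11492392968) (nat_lit 1413483700) (.two (nat_lit 4601151493) (nat_lit 12163485091) (.two (nat_lit 822083589) (nat_lit 809504789) (.two (nat_lit 4194305) (nat_lit 150999232) (.two (nat_lit 1048576) (nat_lit 184553679) (.one (nat_lit 12163487936) .nil)))))))))))),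
   .two (nat_lit 306184383) (nat_lit 47582282400) (.two (nat_lit 272629824) (nat_lit 2920285430) (.two (nat_lit 2889875471) (nat_lit 19026413770) (.two (nat_lit 9768534024) (nat_lit 47581236384) (.two (nat_lit 2887778308) (nat_lit 1053379) (.two (nat_lit 156364701697) (nat_lit 166130095881) (.two (nat_lit 1048576) (nat_lit 10001323556) (.one (nat_lit 19529735017) .nil))))))),
   .two (nat_lit 1182793823) (nat_lit 1862271567) (.two (nat_lit 46523219989) (nat_lit 1175454536) (.two (nat_lit 183946444916) (nat_lit 47555019216) (.two (nat_lit 8388674) (nat_lit 4647289060) (.two (nat_lit 9781116943) (nat_lit 174752532655) (.two (nat_lit 2887778312) (nat_lit 184993973855) (.two (nat_lit 75497480) (nat_lit 1325401703) (.two (nat_lit 806354949) (nat_lit 8393412) (.two (nat_lit 2097153) (nat_lit 772806450) (.two (nat_lit 2097152) (nat_lit 11525953637) (.one (nat_lit 2104236) .nil)))))))))),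
   .two (nat_lit 4647289023) (nat_lit 19532874391) (.two (nat_lit 9781116964) (nat_lit 2987394282) (.two (nat_lit 873463922) (nat_lit 654311887) (.two (nat_lit 9781116943) (nat_lit 19596839774) (.two (nat_lit 157036838920) (nat_lit 1052469) (.two (nat_lit 34603013) (nat_lit 19142808207) (.two (nat_lit 34603009) (nat_lit 102766391) (.two (nat_lit 2097152) (nat_lit 3024099433) (.one (nat_lit 203430768) .nil)))))))),
   .two (nat_lit 809500863) (nat_lit 19596836902) (.two (nat_lit 11510218790) (nat_lit 306184660) (.two (nat_lit 3458203664) (nat_lit 11577328596) (.two (nat_lit 47548727304) (nat_lit 2956985961) (.two (nat_lit 16777223) (nat_lit 158075979361) (.two (nat_lit 20638072837) (nat_lit 272633247) (.two (nat_lit 2097153) (nat_lit 272633247) (.two (nat_lit 16777216) (nat_lit 1053682) (.one (nat_lit 1054925) .nil)))))))),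
   .two (nat_lit 11479810242) (nat_lit 2097350) (.two (nat_lit 843055123) (nat_lit 1210057175) (.two (nat_lit 166130090099) (nat_lit 156569174483) (.two (nat_lit 272629798) (nat_lit 174686470361) (.two (nat_lit 3525312523) (nat_lit 272633987) (.two (nat_lit 272629775) (nat_lit 2099425) (.two (nat_lit 272629768) (nat_lit 2101046) (.two (nat_lit 171966469) (nat_lit 10001322119) (.two (nat_lit 171966469) (nat_lit 9934213135) (.two (nat_lit 4194305) (nat_lit 3022000263) (.two (nat_lit 1048576) (nat_lit 2102259) (.one (nat_lit 2103929) .nil))))))))))),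
   .two (nat_lit 13191086176) (nat_lit 2961178983) (.two (nat_lit 46409973826) (nat_lit 183853121755) (.two (nat_lit 620757007) (nat_lit 18933088763) (.two (nat_lit 620757000) (nat_lit 75498504) (.two (nat_lit 20637024264) (nat_lit 218105453) (.two (nat_lit 9933160453) (nat_lit 10016001443) (.two (nat_lit 4194305) (nat_lit 2416973417) (.two (nat_lit 4194304) (nat_lit 2416973417) (.one (nat_lit 135272041) .nil)))))))),
   .two (nat_lit 10015998143) (nat_lit 156372041823) (.two (nat_lit 16777280) (nat_lit 9906946518) (.two (nat_lit 16777280) (nat_lit 880804057) (.two (nat_lit 8388619) (nat_lit 185002363069) (.two (nat_lit 8388623) (nat_lit 16777443) (.two (nat_lit 8388614) (nat_lit 16778862) (.two (nat_lit 8388610) (nat_lit 16781335) (.two (nat_lit 16777219) (nat_lit 12050238876) (.two (nat_lit 41943041) (nat_lit 16782792) (.two (nat_lit 16777216) (nat_lit 4200584) (.one (nat_lit 876616310) .nil)))))))))),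
   .two (nat_lit 1309671621) (nat_lit 19042140519) (.two (nat_lit 185035915331) (nat_lit 135267144) (.two (nat_lit 754974735) (nat_lit 159250385073) (.two (nat_lit 117440520) (nat_lit 10939797233) (.two (nat_lit 11543773189) (nat_lit 285216773) (.two (nat_lit 34603009) (nat_lit 157051523970) (.two (nat_lit 1048576) (nat_lit 11626616938) (.one (nat_lit 16784301) .nil))))))),
   .two (nat_lit 8388701) (nat_lit 11611930721) (.two (nat_lit 352321555) (nat_lit 9768534856) (.two (nat_lit 8388672) (nat_lit 11611930842) (.two (nat_lit 352321555) (nat_lit 11614030022) (.two (nat_lit 8388623) (nat_lit 236978404) (.two (nat_lit 8388614) (nat_lit 10940843622) (.two (nat_lit 166144770053) (nat_lit 874515869) (.two (nat_lit 183861510149) (nat_lit 166132188834) (.two (nat_lit 16777217) (nat_lit 874515869) (.two (nat_lit 8388608) (nat_lit 2103507) (.one (nat_lit 2104288) .nil)))))))))),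
   .two (nat_lit 41943231) (nat_lit 2990538946) (.two (nat_lit 4613734510) (nat_lit 176161232) (.two (nat_lit 4613734510) (nat_lit 2889875673) (.two (nat_lit 13203669007) (nat_lit 9768535515) (.two (nat_lit 16777224) (nat_lit 1277168783) (.two (nat_lit 16777220) (nat_lit 11611934732) (.two (nat_lit 16777217) (nat_lit 11618227609) (.two (nat_lit 8388608) (nat_lit 2103433) (.one (nat_lit 2104289) .nil)))))))),
   .two (nat_lit 41943231) (nat_lit 4634706118) (.two (nat_lit 8388672) (nat_lit 1176503115) (.two (nat_lit 4613734510) (nat_lit 176161232) (.two (nat_lit 4613734510) (nat_lit 2889875673) (.two (nat_lit 13203669007) (nat_lit 9768535515) (.two (nat_lit 16777224) (nat_lit 1277168783) (.two (nat_lit 16777220) (nat_lit 11611934732) (.two (nat_lit 16777217) (nat_lit 11618227609) (.two (nat_lit 8388608) (nat_lit 2103434) (.one (nat_lit 2103931) .nil))))))))),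
   .two (nat_lit 8388701) (nat_lit 21778924101) (.two (nat_lit 41943231) (nat_lit 4634706118) (.two (nat_lit 8388672) (nat_lit 1176503115) (.two (nat_lit 4613734510) (nat_lit 176161232) (.two (nat_lit 13203669007) (nat_lit 9768535515) (.two (nat_lit 16777224) (nat_lit 1277168783) (.two (nat_lit 16777220) (nat_lit 11611934732) (.two (nat_lit 16777217) (nat_lit 11618227609) (.two (nat_lit 8388608) (nat_lit 2103853) (.one (nat_lit 2104290) .nil))))))))),
   .two (nat_lit 612368575) (nat_lit 183846830650) (.two (nat_lit 8388672) (nat_lit 184987682003) (.two (nat_lit 8388623) (nat_lit 2936015041) (.two (nat_lit 50331656) (nat_lit 1277168783) (.two (nat_lit 16777220) (nat_lit 183846834182) (.two (nat_lit 16777217) (nat_lit 11618227610) (.two (nat_lit 8388608) (nat_lit 16782897) (.one (nat_lit 8394964) .nil))))))),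
   .two (nat_lit 46406828127) (nat_lit 28764537463) (.two (nat_lit 2887778324) (nat_lit 156573369572) (.two (nat_lit 3458203761) (nat_lit 780141052) (.two (nat_lit 159224168463) (nat_lit 183946445779) (.two (nat_lit 2961178639) (nat_lit 304087268) (.two (nat_lit 612368392) (nat_lit 11476667725) (.two (nat_lit 46407876610) (nat_lit 1054153) (.two (nat_lit 176160772) (nat_lit 11476667725) (.two (nat_lit 2097153) (nat_lit 19026417855) (.two (nat_lit 2097152) (nat_lit 19026417855) (.one (nat_lit 1055356) .nil)))))))))),
   .two (nat_lit 9934209215) (nat_lit 50331743) (.two (nat_lit 2954887234) (nat_lit 21827158486) (.two (nat_lit 2954887234) (nat_lit 9948889305) (.two (nat_lit 2969567247) (nat_lit 2319451090) (.two (nat_lit 37748751) (nat_lit 2969567459) (.two (nat_lit 2954887176) (nat_lit 174701151847) (.two (nat_lit 218103813) (nat_lit 12117348478) (.two (nat_lit 218103813) (nat_lit 12117348478) (.two (nat_lit 2097153) (nat_lit 184419358911) (.two (nat_lit 2097152) (nat_lit 3560970376) (.one (nat_lit 1279269488) .nil)))))))))),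
   .two (nat_lit 157036839103) (nat_lit 183949590623) (.two (nat_lit 3525312578) (nat_lit 18928894422) (.two (nat_lit 3525312578) (nat_lit 3527409881) (.two (nat_lit 205520907) (nat_lit 2921334973) (.two (nat_lit 3525312527) (nat_lit 10506731747) (.two (nat_lit 10942939144) (nat_lit 12048140669) (.two (nat_lit 2889875460) (nat_lit 156533526551) (.two (nat_lit 46978301957) (nat_lit 156367850830) (.two (nat_lit 4194305) (nat_lit 156533528008) (.two (nat_lit 2097152) (nat_lit 156548208776) (.one (nat_lit 3539999350) .nil)))))))))),
   .two (nat_lit 809500863) (nat_lit 21785215071) (.two (nat_lit 12054429761) (nat_lit 4028629971) (.two (nat_lit 272629826) (nat_lit 184993972444) (.two (nat_lit 37748751) (nat_lit 880805339) (.two (nat_lit 37748744) (nat_lit 11618225293) (.two (nat_lit 4194308) (nat_lit 4034924553) (.two (nat_lit 2097153) (nat_lit 11010054235) (.two (nat_lit 2097152) (nat_lit 11010054235) (.one (nat_lit 2104238) .nil)))))))),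
   .two (nat_lit 183846830175) (nat_lit 157043131012) (.two (nat_lit 47588573204) (nat_lit 10439623929) (.two (nat_lit 20638072941) (nat_lit 2894069981) (.two (nat_lit 10336862223) (nat_lit 1950352339) (.two (nat_lit 813694991) (nat_lit 13191086588) (.two (nat_lit 18928893960) (nat_lit 2988445092) (.two (nat_lit 183853121538) (nat_lit 2102030) (.two (nat_lit 156367847429) (nat_lit 2988445092) (.two (nat_lit 606076929) (nat_lit 8394786) (.two (nat_lit 4194304) (nat_lit 2103437) (.one (nat_lit 2104294) .nil)))))))))),
   .two (nat_lit 109051999) (nat_lit 156984410770) (.two (nat_lit 8388626) (nat_lit 3472885024) (.two (nat_lit 8388717) (nat_lit 4043309277) (.two (nat_lit 41943055) (nat_lit 19529728979) (.two (nat_lit 41943055) (nat_lit 11577327844) (.two (nat_lit 739246088) (nat_lit 880807332) (.two (nat_lit 176160770) (nat_lit 1053383) (.two (nat_lit 11543773189) (nat_lit 880807332) (.two (nat_lit 612368385) (nat_lit 16782233) (.two (nat_lit 1048576) (nat_lit 8394894) (.one (nat_lit 8395751) .nil)))))))))),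
   .two (nat_lit 183853121633) (nat_lit 675283566) (.two (nat_lit 176160788) (nat_lit 37749578) (.two (nat_lit 10343153772) (nat_lit 184987680985) (.two (nat_lit 156372041743) (nat_lit 272631394) (.two (nat_lit 156367847439) (nat_lit 10343153891) (.two (nat_lit 12050235400) (nat_lit 47588574821) (.two (nat_lit 3464495109) (nat_lit 158179790150) (.two (nat_lit 708837381) (nat_lit 3531606502) (.two (nat_lit 606076929) (nat_lit 675287166) (.two (nat_lit 2097152) (nat_lit 46409979493) (.one (nat_lit 4200054) .nil)))))))))),
   .two (nat_lit 739246176) (nat_lit 9982444191) (.two (nat_lit 4605345904) (nat_lit 165525062473) (.two (nat_lit 620757007) (nat_lit 1947206139) (.two (nat_lit 620757000) (nat_lit 1745880072) (.two (nat_lit 159232557064) (nat_lit 2349860461) (.two (nat_lit 28705816581) (nat_lit 28690091427) (.two (nat_lit 50331649) (nat_lit 28690091427) (.two (nat_lit 8388608) (nat_lit 16782953) (.one (nat_lit 16782953) .nil)))))))),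
   .two (nat_lit 10015998143) (nat_lit 739246438) (.two (nat_lit 176160835) (nat_lit 18928894792) (.two (nat_lit 8388623) (nat_lit 156367848923) (.two (nat_lit 8388616) (nat_lit 168823958) (.two (nat_lit 8388612) (nat_lit 2886734017) (.two (nat_lit 8388612) (nat_lit 336595428) (.two (nat_lit 41943041) (nat_lit 37753751) (.two (nat_lit 4194304) (nat_lit 1055281) (.one (nat_lit 1055721) .nil)))))))),
   .two (nat_lit 8388799) (nat_lit 12050235584) (.two (nat_lit 8388672) (nat_lit 156367848665) (.two (nat_lit 8388623) (nat_lit 46977256286) (.two (nat_lit 50331656) (nat_lit 3020950678) (.two (nat_lit 8388612) (nat_lit 46507496128) (.two (nat_lit 41943041) (nat_lit 16783190) (.two (nat_lit 1048576) (nat_lit 8394895) (.one (nat_lit 4201450) .nil))))))),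
   .two (nat_lit 9768534207) (nat_lit 2921333381) (.two (nat_lit 41943107) (nat_lit 20638073672) (.two (nat_lit 713031695) (nat_lit 159217878491) (.two (nat_lit 713031688) (nat_lit 166230756497) (.two (nat_lit 41943045) (nat_lit 9799994698) (.two (nat_lit 41943043) (nat_lit 1411388052) (.two (nat_lit 41943041) (nat_lit 9766441866) (.two (nat_lit 8388608) (nat_lit 19530783132) (.one (nat_lit 2103511) .nil)))))))),
   .two (nat_lit 21777875135) (nat_lit 880803936) (.two (nat_lit 8388675) (nat_lit 184986632411) (.two (nat_lit 8388643) (nat_lit 4601152328) (.two (nat_lit 41943074) (nat_lit 4601152328) (.two (nat_lit 176160783) (nat_lit 12047090637) (.two (nat_lit 8388624) (nat_lit 165528209595) (.two (nat_lit 47555018760) (nat_lit 28693236916) (.two (nat_lit 16777223) (nat_lit 2316307601) (.two (nat_lit 176160772) (nat_lit 138416149) (.two (nat_lit 16777219) (nat_lit 19127078218) (.two (nat_lit 37748737) (nat_lit 11584671879) (.two (nat_lit 16777216) (nat_lit 4200593) (.one (nat_lit 8395756) .nil)))))))))))),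
   .two (nat_lit 183912890726) (nat_lit 843055142) (.two (nat_lit 713031747) (nat_lit 184986632411) (.two (nat_lit 8388623) (nat_lit 21777875451) (.two (nat_lit 8388616) (nat_lit 184986633220) (.two (nat_lit 16777223) (nat_lit 11543774816) (.two (nat_lit 16777219) (nat_lit 13224644812) (.two (nat_lit 16777217) (nat_lit 13224644812) (.two (nat_lit 16777216) (nat_lit 1054866) (.one (nat_lit 1055359) .nil)))))))),
   .two (nat_lit 109052001) (nat_lit 20640170081) (.two (nat_lit 184549394) (nat_lit 9867101000) (.two (nat_lit 10370416749) (nat_lit 1312817370) (.two (nat_lit 159232557071) (nat_lit 20644365267) (.two (nat_lit 75497487) (nat_lit 4601151715) (.two (nat_lit 75497480) (nat_lit 2954890652) (.two (nat_lit 16777218) (nat_lit 8392728) (.two (nat_lit 184549381) (nat_lit 10437528038) (.two (nat_lit 50331649) (nat_lit 8392845) (.two (nat_lit 8388608) (nat_lit 4199416) (.one (nat_lit 2104302) .nil)))))))))),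
   .two (nat_lit 8388799) (nat_lit 889192639) (.two (nat_lit 8388672) (nat_lit 18925749064) (.two (nat_lit 176160783) (nat_lit 28087158994) (.two (nat_lit 713031688) (nat_lit 50334082) (.two (nat_lit 713031684) (nat_lit 50335766) (.two (nat_lit 713031683) (nat_lit 620762006) (.two (nat_lit 41943041) (nat_lit 620762006) (.two (nat_lit 8388608) (nat_lit 2102841) (.one (nat_lit 2103937) .nil)))))))),
   .two (nat_lit 8388799) (nat_lit 889192639) (.two (nat_lit 8388672) (nat_lit 18925749064) (.two (nat_lit 176160783) (nat_lit 28087158994) (.two (nat_lit 8388616) (nat_lit 156380431967) (.two (nat_lit 713031688) (nat_lit 50334082) (.two (nat_lit 1276116994) (nat_lit 16782668) (.two (nat_lit 713031684) (nat_lit 50335766) (.two (nat_lit 8388609) (nat_lit 1054755) (.two (nat_lit 8388608) (nat_lit 337648257) (.one (nat_lit 8395759) .nil))))))))),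
   .two (nat_lit 8388799) (nat_lit 10015998143) (.two (nat_lit 8388672) (nat_lit 165525062472) (.two (nat_lit 8388623) (nat_lit 18941479098) (.two (nat_lit 8388616) (nat_lit 12047091309) (.two (nat_lit 8388616) (nat_lit 165540791903) (.two (nat_lit 176160770) (nat_lit 16781337) (.two (nat_lit 612368387) (nat_lit 1053455) (.two (nat_lit 41943041) (nat_lit 16782795) (.two (nat_lit 8388608) (nat_lit 1055286) (.one (nat_lit 8395760) .nil))))))))),
   .two (nat_lit 21811429567) (nat_lit 12048138437) (.two (nat_lit 16777234) (nat_lit 4027581664) (.two (nat_lit 1914699890) (nat_lit 1376780753) (.two (nat_lit 276824130) (nat_lit 12633243869) (.two (nat_lit 8388623) (nat_lit 2349861043) (.two (nat_lit 3464495112) (nat_lit 3021999274) (.two (nat_lit 50331653) (nat_lit 183846834851) (.two (nat_lit 620756993) (nat_lit 2350913298) (.two (nat_lit 2097152) (nat_lit 68164143) (.one (nat_lit 11611937711) .nil))))))))),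
   .two (nat_lit 1182793823) (nat_lit 158077026661) (.two (nat_lit 8388626) (nat_lit 236979431) (.two (nat_lit 41943076) (nat_lit 236979431) (.two (nat_lit 203423810) (nat_lit 50331876) (.two (nat_lit 721420299) (nat_lit 19027462323) (.two (nat_lit 11593056273) (nat_lit 11477713864) (.two (nat_lit 11559501832) (nat_lit 11544823391) (.two (nat_lit 11559501832) (nat_lit 159253530210) (.two (nat_lit 176160770) (nat_lit 4199564) (.two (nat_lit 2887778307) (nat_lit 4198426) (.two (nat_lit 606076929) (nat_lit 4200484) (.two (nat_lit 2097152) (nat_lit 4201015) (.one (nat_lit 2104305) .nil)))))))))))),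
   .two (nat_lit 641728709) (nat_lit 46978301990) (.two (nat_lit 3527409778) (nat_lit 10504634587) (.two (nat_lit 272629775) (nat_lit 159251431940) (.two (nat_lit 272629768) (nat_lit 159251431940) (.two (nat_lit 2956984327) (nat_lit 2098801) (.two (nat_lit 171966469) (nat_lit 1377831400) (.two (nat_lit 37748737) (nat_lit 11543777411) (.two (nat_lit 1048576) (nat_lit 2102843) (.one (nat_lit 2103939) .nil)))))))),
   .two (nat_lit 50331839) (nat_lit 276824533) (.two (nat_lit 16777407) (nat_lit 12054429913) (.two (nat_lit 16777280) (nat_lit 10343155163) (.two (nat_lit 16777231) (nat_lit 1853885585) (.two (nat_lit 47555018760) (nat_lit 1761610209) (.two (nat_lit 16777224) (nat_lit 3531606502) (.two (nat_lit 176160772) (nat_lit 16782209) (.two (nat_lit 8388609) (nat_lit 620763233) (.two (nat_lit 8388608) (nat_lit 16782939) (.one (nat_lit 11484011142) .nil))))))))),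
   .two (nat_lit 285212863) (nat_lit 12117344473) (.two (nat_lit 1916796995) (nat_lit 285214171) (.two (nat_lit 2902458383) (nat_lit 10942942355) (.two (nat_lit 28693233672) (nat_lit 2936014498) (.two (nat_lit 166132187138) (nat_lit 16781444) (.two (nat_lit 1178599427) (nat_lit 16782209) (.two (nat_lit 9768534017) (nat_lit 16783455) (.two (nat_lit 4194304) (nat_lit 156380435478) (.one (nat_lit 608181234) .nil)))))))),
   .two (nat_lit 13237223462) (nat_lit 9969861924) (.two (nat_lit 19532873840) (nat_lit 9798943227) (.two (nat_lit 11492392975) (nat_lit 174688568937) (.two (nat_lit 4599054343) (nat_lit 218107918) (.two (nat_lit 34603013) (nat_lit 157051523264) (.two (nat_lit 2097153) (nat_lit 11476670681) (.two (nat_lit 2097152) (nat_lit 11476670681) (.one (nat_lit 35658390) .nil))))))),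
   .two (nat_lit 1847591477) (nat_lit 37313577177) (.two (nat_lit 21208498243) (nat_lit 28790752732) (.two (nat_lit 158143086607) (nat_lit 20738739343) (.two (nat_lit 1277165576) (nat_lit 9933162146) (.two (nat_lit 1277165573) (nat_lit 772804725) (.two (nat_lit 606076931) (nat_lit 10906241560) (.two (nat_lit 9765388289) (nat_lit 4599059430) (.two (nat_lit 2097152) (nat_lit 1053721) (.one (nat_lit 4598012918) .nil)))))))),
   .two (nat_lit 4599054450) (nat_lit 159224168675) (.two (nat_lit 1795162117) (nat_lit 174752533017) (.one (nat_lit 8395782) .nil)),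
   .two (nat_lit 889192639) (nat_lit 75498312) (.two (nat_lit 16777280) (nat_lit 9934209531) (.two (nat_lit 16777231) (nat_lit 2954888196) (.two (nat_lit 16777224) (nat_lit 19532876263) (.two (nat_lit 16777220) (nat_lit 46407880897) (.two (nat_lit 4194305) (nat_lit 620762653) (.two (nat_lit 8388608) (nat_lit 11626617025) (.one (nat_lit 11618228459) .nil))))))),
   .two (nat_lit 157036838950) (nat_lit 675284246) (.two (nat_lit 2923429955) (nat_lit 21208498692) (.two (nat_lit 4601151503) (nat_lit 184417255940) (.two (nat_lit 3527409671) (nat_lit 874514919) (.two (nat_lit 2889875459) (nat_lit 2317357186) (.two (nat_lit 4194305) (nat_lit 2101453) (.two (nat_lit 16777216) (nat_lit 2102889) (.one (nat_lit 2103535) .nil))))))),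
   .two (nat_lit 272629824) (nat_lit 3020947966) (.two (nat_lit 11479810052) (nat_lit 37246471584) (.one (nat_lit 1846548701) .nil)),
   .two (nat_lit 8388672) (nat_lit 620757219) (.two (nat_lit 721420290) (nat_lit 1052808) (.one (nat_lit 1055754) .nil)),
   .two (nat_lit 4601151552) (nat_lit 806355172) (.two (nat_lit 183848927234) (nat_lit 1052810) (.one (nat_lit 1055377) .nil)),
   .two (nat_lit 11626610726) (nat_lit 1753219579) (.two (nat_lit 620757059) (nat_lit 8389640) (.two (nat_lit 1384120333) (nat_lit 156380433875) (.two (nat_lit 21785214981) (nat_lit 156380433875) (.two (nat_lit 2097152) (nat_lit 171972827) (.one (nat_lit 11479816436) .nil))))),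
   .two (nat_lit 9781117769) (nat_lit 13191086307) (.two (nat_lit 285212863) (nat_lit 4634706149) (.two (nat_lit 239075348) (nat_lit 285215887) (.two (nat_lit 339738648) (nat_lit 184431937186) (.two (nat_lit 9781116940) (nat_lit 166132190619) (.two (nat_lit 4194306) (nat_lit 16781515) (.two (nat_lit 4194305) (nat_lit 10385102457) (.two (nat_lit 4194304) (nat_lit 10385102457) (.one (nat_lit 4201118) .nil)))))))),
   .two (nat_lit 352321727) (nat_lit 3028287997) (.two (nat_lit 16777280) (nat_lit 3028288517) (.two (nat_lit 21785214983) (nat_lit 16780703) (.two (nat_lit 721420292) (nat_lit 183912894666) (.two (nat_lit 8388608) (nat_lit 16783589) (.one (nat_lit 176167578) .nil))))),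
   .two (nat_lit 809500710) (nat_lit 1291846661) (.two (nat_lit 11551113223) (nat_lit 1346375881) (.two (nat_lit 8388608) (nat_lit 4201116) .nil)),
   .two (nat_lit 8388646) (nat_lit 184550405) (.two (nat_lit 1358954503) (nat_lit 8393700) (.two (nat_lit 2097152) (nat_lit 3036682906) .nil)),
   .two (nat_lit 41943231) (nat_lit 101712904) (.two (nat_lit 11551113223) (nat_lit 1052115) (.two (nat_lit 2097152) (nat_lit 185023339160) .nil)),
   .two (nat_lit 713031718) (nat_lit 1795163140) (.two (nat_lit 9940500487) (nat_lit 16781514) (.two (nat_lit 8388608) (nat_lit 174688574106) .nil)),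
   .two (nat_lit 184549441) (nat_lit 3458204304) (.two (nat_lit 2902458383) (nat_lit 165528209609) (.two (nat_lit 4194308) (nat_lit 11626614552) (.two (nat_lit 4194305) (nat_lit 158192374478) (.two (nat_lit 2097152) (nat_lit 71309151) (.one (nat_lit 3003128863) .nil))))),
   .two (nat_lit 135266418) (nat_lit 8389310) (.two (nat_lit 822083599) (nat_lit 10003416986) (.two (nat_lit 4194312) (nat_lit 166144773266) (.two (nat_lit 4194305) (nat_lit 20737692271) (.two (nat_lit 4194304) (nat_lit 1054623) (.one (nat_lit 8395809) .nil))))),
   .two (nat_lit 2969567297) (nat_lit 47582282303) (.two (nat_lit 639631375) (nat_lit 11559503069) (.two (nat_lit 639631368) (nat_lit 158662134634) (.two (nat_lit 203423749) (nat_lit 50335543) (.two (nat_lit 606076929) (nat_lit 83891872) (.two (nat_lit 16777216) (nat_lit 2103589) (.one (nat_lit 2104072) .nil)))))),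
   .two (nat_lit 10343153772) (nat_lit 4632609817) (.two (nat_lit 37748751) (nat_lit 156372043227) (.two (nat_lit 4194308) (nat_lit 158077031070) (.two (nat_lit 4194304) (nat_lit 2103969) (.one (nat_lit 4201228) .nil)))),
   .two (nat_lit 8388672) (nat_lit 4647290095) (.two (nat_lit 612368392) (nat_lit 318769337) (.two (nat_lit 9948889093) (nat_lit 10007613224) (.two (nat_lit 9768534017) (nat_lit 310384496) (.one (nat_lit 8395810) .nil)))),
   .two (nat_lit 47555018816) (nat_lit 10504635626) (.two (nat_lit 20738736141) (nat_lit 10921971503) (.two (nat_lit 2097153) (nat_lit 2323650422) (.one (nat_lit 8395553) .nil))),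
   .two (nat_lit 10913579075) (nat_lit 840958564) (.two (nat_lit 169869327) (nat_lit 2927625449) (.two (nat_lit 169869320) (nat_lit 8391545) (.two (nat_lit 2097157) (nat_lit 8393773) (.two (nat_lit 2097153) (nat_lit 8394407) (.two (nat_lit 8388608) (nat_lit 2103600) (.one (nat_lit 46406834869) .nil)))))),
   .two (nat_lit 1795162224) (nat_lit 11476664936) (.two (nat_lit 4194319) (nat_lit 1291848855) (.two (nat_lit 4194305) (nat_lit 13221499508) (.two (nat_lit 4194304) (nat_lit 37313582985) (.one (nat_lit 16784419) .nil)))),
   .two (nat_lit 2889875523) (nat_lit 176160964) (.two (nat_lit 2889875491) (nat_lit 165532402244) (.two (nat_lit 9866051599) (nat_lit 174692763249) (.two (nat_lit 272629777) (nat_lit 159224169683) (.two (nat_lit 4194312) (nat_lit 4638904515) (.two (nat_lit 4194311) (nat_lit 2994735297) (.two (nat_lit 4194308) (nat_lit 1954549952) (.two (nat_lit 4194307) (nat_lit 1317015320) (.two (nat_lit 4194305) (nat_lit 10007614220) (.two (nat_lit 4194304) (nat_lit 174752536603) (.one (nat_lit 1055291) .nil)))))))))),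
   .two (nat_lit 4194369) (nat_lit 156372041919) (.two (nat_lit 4194319) (nat_lit 713032934) (.two (nat_lit 4194312) (nat_lit 46474986443) (.two (nat_lit 4194312) (nat_lit 10504634595) (.two (nat_lit 4194308) (nat_lit 1209011374) (.two (nat_lit 4194305) (nat_lit 19596840984) (.two (nat_lit 1048576) (nat_lit 2353009563) (.one (nat_lit 2416974392) .nil))))))),
   .two (nat_lit 4194369) (nat_lit 10343154021) (.two (nat_lit 169869327) (nat_lit 75498726) (.two (nat_lit 169869320) (nat_lit 11618223583) (.two (nat_lit 4194312) (nat_lit 183853122504) (.two (nat_lit 169869316) (nat_lit 10906242222) (.two (nat_lit 156364701697) (nat_lit 4199757) (.two (nat_lit 2097152) (nat_lit 37313583672) (.one (nat_lit 1055559) .nil))))))),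
   .two (nat_lit 176160786) (nat_lit 352321727) (.two (nat_lit 612368420) (nat_lit 352321727) (.two (nat_lit 16777280) (nat_lit 202375265) (.two (nat_lit 612368399) (nat_lit 3573548262) (.two (nat_lit 612368392) (nat_lit 654312927) (.two (nat_lit 50331656) (nat_lit 10000272718) (.two (nat_lit 46414168066) (nat_lit 1052548) (.two (nat_lit 176160772) (nat_lit 2969571203) (.two (nat_lit 8388609) (nat_lit 1054030) (.two (nat_lit 1048576) (nat_lit 16783397) (.one (nat_lit 11610888750) .nil)))))))))),
   .two (nat_lit 16777282) (nat_lit 880804427) (.two (nat_lit 8388623) (nat_lit 4613735664) (.two (nat_lit 8388616) (nat_lit 4613737294) (.two (nat_lit 746586117) (nat_lit 721424670) (.two (nat_lit 9766436865) (nat_lit 4200091) (.two (nat_lit 2097152) (nat_lit 37754913) (.one (nat_lit 2104366) .nil)))))),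
   .two (nat_lit 16777282) (nat_lit 880804427) (.two (nat_lit 8388623) (nat_lit 4613735664) (.two (nat_lit 8388616) (nat_lit 4613737294) (.two (nat_lit 746586117) (nat_lit 721424670) (.two (nat_lit 9766436865) (nat_lit 4200091) (.two (nat_lit 2097152) (nat_lit 1413487141) (.one (nat_lit 2103873) .nil)))))),
   .two (nat_lit 675283060) (nat_lit 236978739) (.two (nat_lit 184549391) (nat_lit 158079124724) (.two (nat_lit 713031688) (nat_lit 272632670) (.two (nat_lit 156367847429) (nat_lit 2101570) (.two (nat_lit 612368385) (nat_lit 4199567) (.two (nat_lit 4194304) (nat_lit 8394195) (.one (nat_lit 16783938) .nil)))))),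
   .two (nat_lit 159257722996) (nat_lit 47582282291) (.two (nat_lit 2889875471) (nat_lit 1786774772) (.two (nat_lit 11492392968) (nat_lit 310381406) (.two (nat_lit 612368389) (nat_lit 4632613186) (.two (nat_lit 612368385) (nat_lit 318772367) (.two (nat_lit 8388608) (nat_lit 16783399) (.one (nat_lit 4201027) .nil)))))),
   .two (nat_lit 2988441708) (nat_lit 10942939493) (.two (nat_lit 9948889103) (nat_lit 158077027557) (.two (nat_lit 2954887176) (nat_lit 166199298841) (.two (nat_lit 41943045) (nat_lit 4198200) (.two (nat_lit 16777217) (nat_lit 2103544) (.two (nat_lit 8388608) (nat_lit 2103563) (.one (nat_lit 16784204) .nil)))))),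
   .two (nat_lit 3021996069) (nat_lit 2323644773) (.two (nat_lit 2954887235) (nat_lit 612368749) (.two (nat_lit 28772925455) (nat_lit 10538189640) (.two (nat_lit 28772925448) (nat_lit 174686472375) (.two (nat_lit 183861510149) (nat_lit 4605349016) (.two (nat_lit 16777217) (nat_lit 159251436151) (.two (nat_lit 16777216) (nat_lit 2102180) (.one (nat_lit 16783940) .nil))))))),
   .two (nat_lit 4601151554) (nat_lit 20644364926) (.two (nat_lit 813694991) (nat_lit 28760343776) (.two (nat_lit 41943048) (nat_lit 11614030025) (.two (nat_lit 8388612) (nat_lit 9902755004) (.two (nat_lit 8388611) (nat_lit 183916039937) (.two (nat_lit 8388609) (nat_lit 4199568) (.two (nat_lit 16777216) (nat_lit 2102742) (.one (nat_lit 2104367) .nil))))))),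
   .two (nat_lit 185035915331) (nat_lit 158646403645) (.two (nat_lit 3464495119) (nat_lit 9915336553) (.two (nat_lit 272629768) (nat_lit 183953787697) (.two (nat_lit 4194308) (nat_lit 11543775720) (.two (nat_lit 4194307) (nat_lit 8393028) (.two (nat_lit 37748737) (nat_lit 37320922004) (.two (nat_lit 4194304) (nat_lit 1055398) (.one (nat_lit 1055565) .nil))))))),
   .two (nat_lit 21827158083) (nat_lit 12617515581) (.two (nat_lit 46414168079) (nat_lit 788531049) (.two (nat_lit 2954887176) (nat_lit 20745030449) (.two (nat_lit 46414168066) (nat_lit 16781189) (.two (nat_lit 169869315) (nat_lit 176165188) (.two (nat_lit 156372041729) (nat_lit 16782099) (.two (nat_lit 2097152) (nat_lit 1191187926) (.one (nat_lit 8395824) .nil))))))),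
   .two (nat_lit 101711891) (nat_lit 654311615) (.two (nat_lit 158192369701) (nat_lit 46414168651) (.two (nat_lit 156566028402) (nat_lit 10385096801) (.two (nat_lit 184549387) (nat_lit 276824906) (.two (nat_lit 1795162127) (nat_lit 101712342) (.two (nat_lit 47563407368) (nat_lit 11484005333) (.two (nat_lit 47563407368) (nat_lit 10510926802) (.two (nat_lit 2097157) (nat_lit 19042143378) (.two (nat_lit 2097153) (nat_lit 183946449519) (.two (nat_lit 1048576) (nat_lit 11492397193) (.one (nat_lit 8395825) .nil)))))))))),
   .two (nat_lit 46474985537) (nat_lit 10942939493) (.two (nat_lit 10504634383) (nat_lit 2319451374) (.two (nat_lit 19532873736) (nat_lit 184423549099) (.two (nat_lit 156367847429) (nat_lit 2432700156) (.two (nat_lit 37748737) (nat_lit 2894075021) (.two (nat_lit 4194304) (nat_lit 16783732) (.one (nat_lit 2902465748) .nil)))))),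
   .two (nat_lit 8388626) (nat_lit 840958619) (.two (nat_lit 183928619073) (nat_lit 185023332717) (.two (nat_lit 183928619073) (nat_lit 608174175) (.two (nat_lit 12129927183) (nat_lit 675284217) (.two (nat_lit 12129927176) (nat_lit 12117346523) (.two (nat_lit 8388616) (nat_lit 13203672487) (.two (nat_lit 620756997) (nat_lit 2956987576) (.two (nat_lit 754974725) (nat_lit 46407881702) (.two (nat_lit 50331649) (nat_lit 10001322761) (.two (nat_lit 16777216) (nat_lit 166197204557) (.one (nat_lit 2104143) .nil)))))))))),
   .two (nat_lit 183912890475) (nat_lit 20705182275) (.two (nat_lit 205520911) (nat_lit 174686471375) (.two (nat_lit 2889875464) (nat_lit 2921334976) (.two (nat_lit 272629765) (nat_lit 2920287999) (.two (nat_lit 9765388289) (nat_lit 2102037) (.two (nat_lit 16777216) (nat_lit 4200285) (.one (nat_lit 2104145) .nil)))))),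
   .two (nat_lit 183912890475) (nat_lit 20705182275) (.two (nat_lit 205520911) (nat_lit 174686471375) (.two (nat_lit 2889875464) (nat_lit 2921334976) (.two (nat_lit 272629765) (nat_lit 2920287999) (.two (nat_lit 37748737) (nat_lit 2103019) (.two (nat_lit 16777216) (nat_lit 4200285) (.one (nat_lit 4201298) .nil)))))),
   .two (nat_lit 12147753027) (nat_lit 21208498785) (.two (nat_lit 2889875471) (nat_lit 11517559624) (.two (nat_lit 2889875464) (nat_lit 156976023748) (.two (nat_lit 46409973762) (nat_lit 2100415) (.two (nat_lit 4194307) (nat_lit 2102312) (.two (nat_lit 156367847425) (nat_lit 2102038) (.two (nat_lit 1048576) (nat_lit 2103340) (.one (nat_lit 2104370) .nil))))))),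
   .two (nat_lit 136314996) (nat_lit 158646403656) (.two (nat_lit 166129041419) (nat_lit 16778564) (.two (nat_lit 185035915281) (nat_lit 9866053468) (.two (nat_lit 10538188812) (nat_lit 10519317287) (.two (nat_lit 166130089986) (nat_lit 16780482) (.two (nat_lit 9766436867) (nat_lit 1191186170) (.two (nat_lit 9766436865) (nat_lit 16782486) (.two (nat_lit 4194304) (nat_lit 2103567) (.one (nat_lit 1055795) .nil)))))))),
   .two (nat_lit 2954887232) (nat_lit 47563407399) (.two (nat_lit 2954887232) (nat_lit 104857965) (.two (nat_lit 2954887232) (nat_lit 4030726241) (.two (nat_lit 2954887183) (nat_lit 11479811300) (.two (nat_lit 2954887176) (nat_lit 20740835547) (.two (nat_lit 606076936) (nat_lit 285214311) (.two (nat_lit 184549381) (nat_lit 71306388) (.two (nat_lit 16777217) (nat_lit 185023336476) (.two (nat_lit 4194304) (nat_lit 2103672) (.one (nat_lit 272637118) .nil))))))))),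
   .two (nat_lit 16777280) (nat_lit 28093448553) (.two (nat_lit 176160783) (nat_lit 158091707614) (.two (nat_lit 176160776) (nat_lit 4613736633) (.two (nat_lit 721420292) (nat_lit 28093451447) (.two (nat_lit 612368387) (nat_lit 12163486016) (.two (nat_lit 612368385) (nat_lit 16782489) (.two (nat_lit 8388608) (nat_lit 16783407) (.one (nat_lit 16784436) .nil))))))),
   .two (nat_lit 13191086147) (nat_lit 19537068672) (.two (nat_lit 4194319) (nat_lit 13237224691) (.two (nat_lit 156372041736) (nat_lit 12050237635) (.two (nat_lit 9765388293) (nat_lit 306188087) (.two (nat_lit 8388609) (nat_lit 12050240430) (.two (nat_lit 16777216) (nat_lit 4199901) (.one (nat_lit 4201301) .nil)))))),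
   .two (nat_lit 159217877059) (nat_lit 174692762240) (.two (nat_lit 169869327) (nat_lit 159266112755) (.two (nat_lit 10343153672) (nat_lit 158077028547) (.two (nat_lit 638582789) (nat_lit 2988445495) (.two (nat_lit 605028353) (nat_lit 2102040) (.two (nat_lit 16777216) (nat_lit 2103975) (.one (nat_lit 2104373) .nil)))))),
   .two (nat_lit 183853121601) (nat_lit 1745879624) (.two (nat_lit 183853121551) (nat_lit 10906240860) (.two (nat_lit 205520904) (nat_lit 2921334969) (.two (nat_lit 272629765) (nat_lit 28791803071) (.two (nat_lit 1276116995) (nat_lit 2887784094) (.two (nat_lit 605028353) (nat_lit 2887784094) (.two (nat_lit 1048576) (nat_lit 8394801) (.one (nat_lit 4201526) .nil))))))),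
   .two (nat_lit 8388672) (nat_lit 4043309716) (.two (nat_lit 16777231) (nat_lit 13195281653) (.two (nat_lit 9948889096) (nat_lit 847252226) (.two (nat_lit 16777220) (nat_lit 9772728837) (.two (nat_lit 1178599427) (nat_lit 8392584) (.two (nat_lit 156367847425) (nat_lit 8392738) (.two (nat_lit 4194304) (nat_lit 8395130) (.one (nat_lit 2104150) .nil))))))),
   .two (nat_lit 1417674819) (nat_lit 21777875528) (.two (nat_lit 12047089679) (nat_lit 2927626063) (.two (nat_lit 166129041416) (nat_lit 3458206489) (.two (nat_lit 176160770) (nat_lit 1053232) (.two (nat_lit 16777219) (nat_lit 12115250355) (.two (nat_lit 8388609) (nat_lit 16783007) (.two (nat_lit 8388608) (nat_lit 16783632) (.one (nat_lit 16783962) .nil))))))),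
   .two (nat_lit 754974827) (nat_lit 739246664) (.two (nat_lit 1779433487) (nat_lit 1920992502) (.two (nat_lit 2902458376) (nat_lit 4197216) (.two (nat_lit 4194306) (nat_lit 16781193) (.two (nat_lit 50331651) (nat_lit 8393030) (.two (nat_lit 37748737) (nat_lit 8393497) (.two (nat_lit 4194304) (nat_lit 1054771) (.one (nat_lit 16784439) .nil))))))),
   .two (nat_lit 306184383) (nat_lit 9781117768) (.two (nat_lit 272629775) (nat_lit 2969571333) (.two (nat_lit 4194305) (nat_lit 687870851) (.two (nat_lit 4194304) (nat_lit 117446752) (.one (nat_lit 754981742) .nil)))),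
   .two (nat_lit 1291845990) (nat_lit 3558867525) (.two (nat_lit 2969567299) (nat_lit 19027461336) (.two (nat_lit 218103823) (nat_lit 174686473360) (.two (nat_lit 203423749) (nat_lit 285216773) (.two (nat_lit 2097153) (nat_lit 9814676355) (.two (nat_lit 2097152) (nat_lit 1795168352) (.one (nat_lit 2104176) .nil)))))),
   .two (nat_lit 185020186815) (nat_lit 21818769765) (.two (nat_lit 2887778369) (nat_lit 183949591768) (.two (nat_lit 276824079) (nat_lit 183949592028) (.two (nat_lit 813694984) (nat_lit 10369371284) (.two (nat_lit 8388612) (nat_lit 1053305) (.two (nat_lit 156367847425) (nat_lit 185027532187) (.two (nat_lit 1048576) (nat_lit 2103695) (.one (nat_lit 102767463) .nil))))))),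
   .two (nat_lit 2988441791) (nat_lit 4194663) (.two (nat_lit 4030726210) (nat_lit 1310721237) (.two (nat_lit 37748751) (nat_lit 620758491) (.two (nat_lit 606076936) (nat_lit 165540793489) (.two (nat_lit 16777220) (nat_lit 4199520) (.two (nat_lit 4194305) (nat_lit 16783103) (.two (nat_lit 4194304) (nat_lit 16784042) (.one (nat_lit 16784440) .nil))))))),
   .two (nat_lit 285212863) (nat_lit 19599983433) (.two (nat_lit 285212687) (nat_lit 9802089947) (.two (nat_lit 2902458376) (nat_lit 158079126673) (.two (nat_lit 4194308) (nat_lit 16782209) (.two (nat_lit 4194304) (nat_lit 1358961512) .nil)))),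
   .two (nat_lit 41943231) (nat_lit 183946445159) (.two (nat_lit 276824129) (nat_lit 4634706760) (.two (nat_lit 276824079) (nat_lit 4634707419) (.two (nat_lit 606076936) (nat_lit 11476667540) (.two (nat_lit 8388612) (nat_lit 1053793) (.two (nat_lit 2097153) (nat_lit 34608892) (.two (nat_lit 4194304) (nat_lit 28087163275) (.one (nat_lit 1055603) .nil))))))),
   .two (nat_lit 156569174207) (nat_lit 185027527015) (.two (nat_lit 310378562) (nat_lit 156569175515) (.two (nat_lit 4194312) (nat_lit 9772733314) (.two (nat_lit 8388608) (nat_lit 156968688482) .nil))),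
   .two (nat_lit 13237223615) (nat_lit 1212154696) (.two (nat_lit 2902458383) (nat_lit 46510639277) (.two (nat_lit 2902458376) (nat_lit 166132190356) (.two (nat_lit 16777220) (nat_lit 158179791478) (.two (nat_lit 37748737) (nat_lit 9781123167) (.one (nat_lit 639638362) .nil))))),
   .two (nat_lit 880804420) (nat_lit 3560964455) (.two (nat_lit 4601151554) (nat_lit 184993973723) (.two (nat_lit 4601151496) (nat_lit 12155096210) (.two (nat_lit 46980399109) (nat_lit 1210060806) (.two (nat_lit 4194305) (nat_lit 28697434203) (.one (nat_lit 2104180) .nil))))),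
   .two (nat_lit 47582281919) (nat_lit 20737687909) (.two (nat_lit 46508539969) (nat_lit 46510638292) (.two (nat_lit 276824079) (nat_lit 4197119) (.two (nat_lit 46407876616) (nat_lit 165532404881) (.two (nat_lit 47550824453) (nat_lit 8393328) (.two (nat_lit 41943041) (nat_lit 1054464) (.two (nat_lit 1048576) (nat_lit 2103697) (.one (nat_lit 1055605) .nil))))))),
   .two (nat_lit 880804031) (nat_lit 1049161) (.two (nat_lit 8388672) (nat_lit 1049828) (.two (nat_lit 46407876623) (nat_lit 343936143) (.two (nat_lit 176160772) (nat_lit 157035795060) (.two (nat_lit 2097153) (nat_lit 8394138) (.two (nat_lit 2097152) (nat_lit 1055587) .nil))))),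
   .two (nat_lit 8388799) (nat_lit 3560964455) (.two (nat_lit 276824129) (nat_lit 4634706760) (.two (nat_lit 276824079) (nat_lit 37316726790) (.two (nat_lit 2097153) (nat_lit 2416973923) (.one (nat_lit 1846549341) .nil)))),
   .two (nat_lit 654311615) (nat_lit 20737688394) (.two (nat_lit 1291845647) (nat_lit 20704135344) (.two (nat_lit 1291845640) (nat_lit 183845784723) (.two (nat_lit 117440517) (nat_lit 158176645127) (.two (nat_lit 620756993) (nat_lit 1745884570) (.two (nat_lit 4194304) (nat_lit 1224743793) .nil))))),
   .two (nat_lit 8388799) (nat_lit 13191086271) (.two (nat_lit 8388672) (nat_lit 1410335560) (.two (nat_lit 46409973775) (nat_lit 69208240) (.two (nat_lit 3460300808) (nat_lit 174686473361) (.two (nat_lit 713031684) (nat_lit 2102370) (.two (nat_lit 156367847425) (nat_lit 3022001563) (.two (nat_lit 1048576) (nat_lit 2103698) (.one (nat_lit 1055606) .nil))))))),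
   .two (nat_lit 20704133477) (nat_lit 174692761959) (.two (nat_lit 1343225923) (nat_lit 1753219912) (.two (nat_lit 1753219087) (nat_lit 20737690771) (.two (nat_lit 101711877) (nat_lit 8393827) (.two (nat_lit 605028353) (nat_lit 156573373315) (.two (nat_lit 1048576) (nat_lit 8394852) (.one (nat_lit 1055607) .nil)))))),
   .two (nat_lit 159251431615) (nat_lit 339738983) (.two (nat_lit 46477082690) (nat_lit 20738737364) (.two (nat_lit 37748751) (nat_lit 10007610843) (.two (nat_lit 606076936) (nat_lit 10376711313) (.two (nat_lit 8388612) (nat_lit 4199037) (.two (nat_lit 2097153) (nat_lit 4200193) (.two (nat_lit 2097152) (nat_lit 4201131) (.one (nat_lit 2104185) .nil))))))),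
   .two (nat_lit 28693234242) (nat_lit 2097512) (.two (nat_lit 19530776643) (nat_lit 9802089690) (.two (nat_lit 47548727311) (nat_lit 775949460) (.two (nat_lit 169869316) (nat_lit 21781025402) (.two (nat_lit 2097153) (nat_lit 4200194) (.two (nat_lit 2097152) (nat_lit 4201132) (.one (nat_lit 2104377) .nil)))))),
   .two (nat_lit 41943231) (nat_lit 3020948026) (.two (nat_lit 8388672) (nat_lit 336594131) (.two (nat_lit 46407876623) (nat_lit 9768535515) (.two (nat_lit 8388616) (nat_lit 2101520) (.two (nat_lit 713031684) (nat_lit 2102372) (.two (nat_lit 156364701697) (nat_lit 11618227609) (.two (nat_lit 2097152) (nat_lit 4201133) (.one (nat_lit 2104186) .nil))))))),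
   .two (nat_lit 2969567423) (nat_lit 8389194) (.two (nat_lit 10436476993) (nat_lit 142607835) (.two (nat_lit 1745879048) (nat_lit 218107025) (.two (nat_lit 721420292) (nat_lit 1053797) (.two (nat_lit 34603009) (nat_lit 8395149) (.one (nat_lit 8395834) .nil))))),
   .two (nat_lit 185020186815) (nat_lit 21818769765) (.two (nat_lit 46508539969) (nat_lit 19130221775) (.two (nat_lit 28693233679) (nat_lit 12048140465) (.two (nat_lit 46407876616) (nat_lit 20644367506) (.two (nat_lit 156367847429) (nat_lit 2886734453) (.two (nat_lit 156367847425) (nat_lit 185027532187) (.two (nat_lit 1048576) (nat_lit 2103982) (.one (nat_lit 1055803) .nil))))))),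
   .two (nat_lit 3525312703) (nat_lit 166136382025) (.two (nat_lit 1191182446) (nat_lit 1175454536) (.two (nat_lit 612368399) (nat_lit 157051521197) (.two (nat_lit 612368392) (nat_lit 318770324) (.two (nat_lit 176160772) (nat_lit 10385101427) (.two (nat_lit 2097153) (nat_lit 41948568) (.two (nat_lit 1048576) (nat_lit 2103700) (.one (nat_lit 2104187) .nil))))))),
   .two (nat_lit 10552869055) (nat_lit 169870154) (.two (nat_lit 1291845647) (nat_lit 20738738349) (.two (nat_lit 1291845640) (nat_lit 1847594132) (.two (nat_lit 4599054341) (nat_lit 174768264066) (.two (nat_lit 1048576) (nat_lit 218110045) (.one (nat_lit 16784252) .nil))))),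
   .two (nat_lit 12054430053) (nat_lit 16777803) (.two (nat_lit 184993972288) (nat_lit 16779035) (.two (nat_lit 50331663) (nat_lit 184993973723) (.two (nat_lit 4613734408) (nat_lit 2319454844) (.two (nat_lit 16777217) (nat_lit 4200195) (.two (nat_lit 1048576) (nat_lit 4201311) .nil))))),
   .two (nat_lit 8388799) (nat_lit 13191086271) (.two (nat_lit 8388672) (nat_lit 1410335560) (.two (nat_lit 46409973775) (nat_lit 19093523603) (.two (nat_lit 806354949) (nat_lit 19033756773) (.two (nat_lit 156367847425) (nat_lit 11610887579) (.two (nat_lit 2097152) (nat_lit 34609554) (.one (nat_lit 1055613) .nil)))))),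
   .two (nat_lit 612368575) (nat_lit 16777577) (.two (nat_lit 754974785) (nat_lit 1178600264) (.two (nat_lit 654311439) (nat_lit 171968685) (.two (nat_lit 8388616) (nat_lit 4198673) (.two (nat_lit 721420293) (nat_lit 4199038) (.two (nat_lit 8388609) (nat_lit 4200702) (.two (nat_lit 4194304) (nat_lit 251665261) .nil)))))),
   .two (nat_lit 654311615) (nat_lit 174686471386) (.two (nat_lit 2969567247) (nat_lit 174686472361) (.two (nat_lit 46978301960) (nat_lit 1291848847) (.two (nat_lit 203423749) (nat_lit 16782209) (.two (nat_lit 2097152) (nat_lit 9781123168) (.one (nat_lit 2887785312) .nil))))),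
   .two (nat_lit 185035915455) (nat_lit 2349859656) (.two (nat_lit 11559501839) (nat_lit 165525063871) (.two (nat_lit 754974728) (nat_lit 19529731219) (.two (nat_lit 11492392964) (nat_lit 1947210381) (.two (nat_lit 620756993) (nat_lit 11577333521) (.two (nat_lit 2097152) (nat_lit 11543780186) .nil))))),
   .two (nat_lit 2969567423) (nat_lit 21208499016) (.two (nat_lit 2902458383) (nat_lit 46474989334) (.two (nat_lit 184549380) (nat_lit 12148806262) (.two (nat_lit 16777217) (nat_lit 12115253642) (.one (nat_lit 203430746) .nil)))),
   .two (nat_lit 157038936255) (nat_lit 20711473810) (.two (nat_lit 159266111555) (nat_lit 18928895204) (.two (nat_lit 9940500495) (nat_lit 721424154) (.two (nat_lit 2889875460) (nat_lit 158150431382) (.two (nat_lit 4194305) (nat_lit 318773017) (.two (nat_lit 16777216) (nat_lit 272635995) (.one (nat_lit 8395889) .nil)))))),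
   .two (nat_lit 156372041919) (nat_lit 4598006326) (.two (nat_lit 218103873) (nat_lit 136316756) (.two (nat_lit 218103823) (nat_lit 1216350391) (.two (nat_lit 117440520) (nat_lit 19604180142) (.two (nat_lit 2097157) (nat_lit 310383242) (.two (nat_lit 4194305) (nat_lit 3524270494) (.one (nat_lit 8395705) .nil)))))),
   .two (nat_lit 3464495462) (nat_lit 11010048644) (.two (nat_lit 10343153731) (nat_lit 156535620869) (.two (nat_lit 156367847439) (nat_lit 176163990) (.two (nat_lit 10343153669) (nat_lit 174688571405) (.two (nat_lit 4194305) (nat_lit 847255397) (.two (nat_lit 1048576) (nat_lit 343939999) .nil))))),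
   .two (nat_lit 10343153855) (nat_lit 174688567963) (.two (nat_lit 1384120387) (nat_lit 21777876222) (.two (nat_lit 156372041743) (nat_lit 19029561357) (.two (nat_lit 37748737) (nat_lit 21207455579) (.two (nat_lit 1048576) (nat_lit 3024100208) .nil)))),
   .two (nat_lit 10552869055) (nat_lit 11007951688) (.two (nat_lit 2969567247) (nat_lit 159251433654) (.two (nat_lit 46978301960) (nat_lit 11525951494) (.two (nat_lit 2097153) (nat_lit 16782209) (.two (nat_lit 2097152) (nat_lit 10385102944) (.one (nat_lit 16784314) .nil))))),
   .two (nat_lit 352321727) (nat_lit 740295896) (.two (nat_lit 16777231) (nat_lit 4631564056) (.two (nat_lit 8388612) (nat_lit 672141325) (.two (nat_lit 8388609) (nat_lit 1054579) (.two (nat_lit 1048576) (nat_lit 8395469) (.one (nat_lit 1055858) .nil))))),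
   .two (nat_lit 184993972415) (nat_lit 19529728636) (.two (nat_lit 2927624259) (nat_lit 166232851712) (.two (nat_lit 205520911) (nat_lit 184993975467) (.two (nat_lit 171966469) (nat_lit 1417680297) (.two (nat_lit 1048576) (nat_lit 8395233) (.one (nat_lit 775953261) .nil))))),
   .two (nat_lit 847249599) (nat_lit 339739216) (.two (nat_lit 2927624259) (nat_lit 166232851712) (.two (nat_lit 205520911) (nat_lit 75499720) (.two (nat_lit 205520904) (nat_lit 75502237) (.two (nat_lit 4194305) (nat_lit 9906951589) (.two (nat_lit 1048576) (nat_lit 2103397) (.one (nat_lit 135273385) .nil)))))),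
   .two (nat_lit 310378687) (nat_lit 174688567928) (.two (nat_lit 310378562) (nat_lit 166232851712) (.two (nat_lit 2887778319) (nat_lit 3028290347) (.two (nat_lit 2887778312) (nat_lit 47588577917) (.two (nat_lit 2097153) (nat_lit 34609253) (.one (nat_lit 1055576) .nil))))),
   .two (nat_lit 285212863) (nat_lit 9802089031) (.two (nat_lit 285212736) (nat_lit 9802089288) (.two (nat_lit 285212687) (nat_lit 156569177915) (.two (nat_lit 16777220) (nat_lit 3527414436) (.two (nat_lit 4194305) (nat_lit 2969573473) (.one (nat_lit 71310170) .nil))))),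
   .two (nat_lit 847249599) (nat_lit 37749359) (.two (nat_lit 4194369) (nat_lit 156372042960) (.two (nat_lit 4194319) (nat_lit 1417678566) (.two (nat_lit 4194308) (nat_lit 4631564919) (.two (nat_lit 37748737) (nat_lit 1411389194) (.two (nat_lit 1048576) (nat_lit 2104014) (.one (nat_lit 1055859) .nil)))))),
   .two (nat_lit 4605345983) (nat_lit 304088128) (.two (nat_lit 4194369) (nat_lit 156372043943) (.two (nat_lit 4194312) (nat_lit 9974059663) (.two (nat_lit 2097153) (nat_lit 34609253) (.one (nat_lit 1055675) .nil)))),
   .two (nat_lit 4605346368) (nat_lit 37316723047) (.two (nat_lit 46414168129) (nat_lit 843057355) (.two (nat_lit 46409973768) (nat_lit 9974058137) (.two (nat_lit 3464495109) (nat_lit 1212158628) (.two (nat_lit 4194305) (nat_lit 13195286376) (.two (nat_lit 4194304) (nat_lit 8395234) (.one (nat_lit 13191093094) .nil)))))),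
   .two (nat_lit 822083775) (nat_lit 3024093841) (.two (nat_lit 285212736) (nat_lit 4195587) (.two (nat_lit 2902458383) (nat_lit 18926799024) (.two (nat_lit 9781116936) (nat_lit 166230756497) (.two (nat_lit 20638072837) (nat_lit 13224645784) (.two (nat_lit 2097153) (nat_lit 4601157488) (.two (nat_lit 2097152) (nat_lit 4200931) (.one (nat_lit 2104436) .nil))))))),
   .two (nat_lit 9967763647) (nat_lit 9781117562) (.two (nat_lit 2969567297) (nat_lit 9967764296) (.two (nat_lit 2969567247) (nat_lit 9967764955) (.two (nat_lit 169869320) (nat_lit 11626613913) (.two (nat_lit 270532613) (nat_lit 166245438112) (.two (nat_lit 34603009) (nat_lit 11492399539) (.one (nat_lit 166229711711) .nil)))))),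
   .two (nat_lit 285212863) (nat_lit 10439623909) (.two (nat_lit 11492392975) (nat_lit 336596735) (.two (nat_lit 4194308) (nat_lit 21827162123) (.two (nat_lit 37748737) (nat_lit 19142808998) (.two (nat_lit 1048576) (nat_lit 2969573839) (.one (nat_lit 1055664) .nil))))),
   .two (nat_lit 9781117119) (nat_lit 11007951454) (.two (nat_lit 285212736) (nat_lit 169871236) (.two (nat_lit 4194319) (nat_lit 20652756998) (.two (nat_lit 4194305) (nat_lit 9948895654) (.one (nat_lit 1055677) .nil)))),
   .two (nat_lit 9967763647) (nat_lit 10913579848) (.two (nat_lit 2969567247) (nat_lit 10907290439) (.two (nat_lit 9934209032) (nat_lit 158150431394) (.two (nat_lit 2097153) (nat_lit 2961185242) (.one (nat_lit 2104437) .nil)))),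
   .two (nat_lit 620757183) (nat_lit 839910061) (.two (nat_lit 16777280) (nat_lit 1050525) (.two (nat_lit 50331663) (nat_lit 19127077727) (.two (nat_lit 11476664328) (nat_lit 165540793489) (.two (nat_lit 638582789) (nat_lit 337646196) (.two (nat_lit 16777217) (nat_lit 2886735726) (.two (nat_lit 8388608) (nat_lit 2104218) .nil)))))),
   .two (nat_lit 306184383) (nat_lit 157036839103) (.two (nat_lit 3525312578) (nat_lit 339739916) (.two (nat_lit 3525312527) (nat_lit 889194680) (.two (nat_lit 1749024776) (nat_lit 19027463991) (.two (nat_lit 2887778308) (nat_lit 16782037) (.two (nat_lit 4194305) (nat_lit 16783221) (.two (nat_lit 2097152) (nat_lit 16784079) (.one (nat_lit 4201590) .nil))))))),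
   .two (nat_lit 50331839) (nat_lit 9934210523) (.two (nat_lit 16777224) (nat_lit 1310723218) (.two (nat_lit 16777220) (nat_lit 2101904) (.two (nat_lit 16777217) (nat_lit 19029563789) (.one (nat_lit 19029564267) .nil)))),
   .two (nat_lit 2969567423) (nat_lit 19027460659) (.two (nat_lit 2969567296) (nat_lit 19027461327) (.two (nat_lit 2969567247) (nat_lit 156976023736) (.two (nat_lit 2954887176) (nat_lit 1417679486) (.two (nat_lit 606076929) (nat_lit 8395032) (.two (nat_lit 8388608) (nat_lit 2104016) (.one (nat_lit 8395895) .nil)))))),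
   .two (nat_lit 156372041919) (nat_lit 156535620215) (.two (nat_lit 12054429761) (nat_lit 12047090934) (.two (nat_lit 4601151503) (nat_lit 3028290726) (.two (nat_lit 4194308) (nat_lit 174752535218) (.two (nat_lit 4194305) (nat_lit 8394614) (.two (nat_lit 4194304) (nat_lit 1055441) (.one (nat_lit 1055864) .nil)))))),
   .two (nat_lit 16777407) (nat_lit 47588574026) (.two (nat_lit 184549391) (nat_lit 159224170678) (.two (nat_lit 41943048) (nat_lit 1426066585) (.two (nat_lit 8388612) (nat_lit 183962178203) (.two (nat_lit 8388609) (nat_lit 184555376) (.two (nat_lit 8388608) (nat_lit 68164509) .nil))))),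
   .two (nat_lit 343933119) (nat_lit 754975301) (.two (nat_lit 8388672) (nat_lit 9781118168) (.two (nat_lit 8388623) (nat_lit 19142807320) (.two (nat_lit 16777220) (nat_lit 645927811) (.two (nat_lit 16777216) (nat_lit 4605352040) (.one (nat_lit 8395710) .nil))))),
   .two (nat_lit 9768534207) (nat_lit 620757350) (.two (nat_lit 16777281) (nat_lit 1916799164) (.two (nat_lit 285212680) (nat_lit 156367852228) (.two (nat_lit 4194305) (nat_lit 16783641) (.two (nat_lit 4194304) (nat_lit 8395474) (.one (nat_lit 4201593) .nil))))),
   .two (nat_lit 174753579589) (nat_lit 20740833641) (.two (nat_lit 11010048067) (nat_lit 2099102) (.two (nat_lit 16777231) (nat_lit 2923432118) (.two (nat_lit 639631368) (nat_lit 13191090883) (.two (nat_lit 2097153) (nat_lit 306190112) (.two (nat_lit 4194304) (nat_lit 4647295684) (.one (nat_lit 4201594) .nil)))))),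
   .two (nat_lit 620757183) (nat_lit 11618222675) (.two (nat_lit 16777280) (nat_lit 159224169947) (.two (nat_lit 16777224) (nat_lit 641733310) (.two (nat_lit 8388609) (nat_lit 272636376) (.one (nat_lit 343940003) .nil)))),
   .two (nat_lit 2954887359) (nat_lit 50332009) (.two (nat_lit 218103873) (nat_lit 11544823009) (.two (nat_lit 654311439) (nat_lit 2886733567) (.two (nat_lit 9781116933) (nat_lit 2102433) (.two (nat_lit 50331649) (nat_lit 9933166861) (.two (nat_lit 16777216) (nat_lit 1055443) (.one (nat_lit 16784507) .nil)))))),
   .two (nat_lit 343933119) (nat_lit 11559503064) (.two (nat_lit 8388623) (nat_lit 47563409588) (.two (nat_lit 620757000) (nat_lit 880807940) (.two (nat_lit 16777217) (nat_lit 11584673182) (.two (nat_lit 8388608) (nat_lit 16784311) .nil)))),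
   .two (nat_lit 9768534207) (nat_lit 270533450) (.two (nat_lit 16777231) (nat_lit 1310723218) (.two (nat_lit 16777220) (nat_lit 69210772) (.two (nat_lit 16777217) (nat_lit 166130096540) (.one (nat_lit 2104444) .nil)))),
   .two (nat_lit 4634706111) (nat_lit 28093448790) (.two (nat_lit 101711939) (nat_lit 780141814) (.two (nat_lit 272629775) (nat_lit 243271891) (.two (nat_lit 4194312) (nat_lit 847253512) (.two (nat_lit 37748737) (nat_lit 185027532195) (.two (nat_lit 1048576) (nat_lit 4201394) .nil))))),
   .two (nat_lit 11584667839) (nat_lit 772800873) (.two (nat_lit 10436476993) (nat_lit 176162052) (.two (nat_lit 639631375) (nat_lit 679478748) (.two (nat_lit 1847590920) (nat_lit 3020950688) (.two (nat_lit 2887778308) (nat_lit 21207454385) (.two (nat_lit 2097153) (nat_lit 1745884962) (.two (nat_lit 2097152) (nat_lit 184416213392) (.one (nat_lit 2104255) .nil))))))),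
   .two (nat_lit 156367847781) (nat_lit 343933291) (.two (nat_lit 4605345859) (nat_lit 165525062473) (.two (nat_lit 46409973775) (nat_lit 1051512) (.two (nat_lit 21793603592) (nat_lit 8392511) (.two (nat_lit 721420292) (nat_lit 8393890) (.two (nat_lit 4194305) (nat_lit 1054583) (.two (nat_lit 4194304) (nat_lit 1055444) (.one (nat_lit 1055869) .nil))))))),
   .two (nat_lit 50331839) (nat_lit 243270242) (.two (nat_lit 16777280) (nat_lit 880804680) (.two (nat_lit 8388623) (nat_lit 50333147) (.two (nat_lit 8388616) (nat_lit 183962176668) (.two (nat_lit 184549380) (nat_lit 9940505270) (.two (nat_lit 8388609) (nat_lit 3003127636) (.two (nat_lit 1048576) (nat_lit 9974061508) (.one (nat_lit 1055870) .nil))))))),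
   .two (nat_lit 4647289023) (nat_lit 2956984939) (.two (nat_lit 285212736) (nat_lit 2953840451) (.two (nat_lit 4194319) (nat_lit 9781120141) (.two (nat_lit 4194308) (nat_lit 303043191) (.two (nat_lit 50331649) (nat_lit 3020953440) (.two (nat_lit 1048576) (nat_lit 2104021) (.one (nat_lit 1055871) .nil)))))),
   .two (nat_lit 20738736709) (nat_lit 3472884076) (.two (nat_lit 218103873) (nat_lit 37314626794) (.two (nat_lit 218103823) (nat_lit 21208500394) (.two (nat_lit 9781116936) (nat_lit 2101590) (.two (nat_lit 203423749) (nat_lit 1426068135) (.two (nat_lit 2097153) (nat_lit 16783642) (.two (nat_lit 2097152) (nat_lit 16784086) (.one (nat_lit 16784512) .nil))))))),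
   .two (nat_lit 285212863) (nat_lit 10338960613) (.two (nat_lit 809500687) (nat_lit 3539995391) (.two (nat_lit 156372041740) (nat_lit 20640173217) (.two (nat_lit 10372513797) (nat_lit 16782499) (.two (nat_lit 612368385) (nat_lit 13191092080) (.two (nat_lit 8388608) (nat_lit 4201175) (.one (nat_lit 8395905) .nil)))))),
   .two (nat_lit 675283301) (nat_lit 1310720575) (.two (nat_lit 3021996097) (nat_lit 83887322) (.two (nat_lit 169869327) (nat_lit 3573549264) (.two (nat_lit 809500680) (nat_lit 806359745) (.two (nat_lit 37748737) (nat_lit 174685427526) (.two (nat_lit 1048576) (nat_lit 4201176) (.one (nat_lit 1055874) .nil)))))),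
   .two (nat_lit 9781117119) (nat_lit 159217877616) (.two (nat_lit 285212736) (nat_lit 2099103) (.two (nat_lit 9781116943) (nat_lit 35653844) (.two (nat_lit 169869320) (nat_lit 1291848856) (.two (nat_lit 2097157) (nat_lit 2902463128) (.two (nat_lit 37748737) (nat_lit 269490650) (.one (nat_lit 13221501848) .nil)))))),
   .two (nat_lit 4647289023) (nat_lit 1212154696) (.two (nat_lit 285212687) (nat_lit 13224642741) (.two (nat_lit 3539992584) (nat_lit 156569177878) (.two (nat_lit 13191086085) (nat_lit 157051523970) (.two (nat_lit 4194304) (nat_lit 721427294) .nil)))),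
   .two (nat_lit 16777407) (nat_lit 880804421) (.two (nat_lit 16777280) (nat_lit 46414169304) (.two (nat_lit 16777231) (nat_lit 11551115444) (.two (nat_lit 183853121544) (nat_lit 889195673) (.two (nat_lit 41943045) (nat_lit 16781316) (.two (nat_lit 41943041) (nat_lit 47596967326) (.two (nat_lit 16777216) (nat_lit 343939928) .nil)))))),
   .two (nat_lit 157036839269) (nat_lit 239075999) (.two (nat_lit 339738689) (nat_lit 721421530) (.two (nat_lit 4194319) (nat_lit 46523222224) (.two (nat_lit 4194312) (nat_lit 2350911295) (.two (nat_lit 169869316) (nat_lit 9933165249) (.two (nat_lit 37748737) (nat_lit 1780488055) (.two (nat_lit 1048576) (nat_lit 2104025) (.one (nat_lit 1055875) .nil))))))),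
   .two (nat_lit 352321727) (nat_lit 2994733645) (.two (nat_lit 184549442) (nat_lit 41944359) (.two (nat_lit 620757007) (nat_lit 3558869177) (.two (nat_lit 8388616) (nat_lit 202379905) (.two (nat_lit 8388609) (nat_lit 1176508184) (.two (nat_lit 1048576) (nat_lit 16784090) (.one (nat_lit 1055876) .nil)))))),
   .two (nat_lit 21785215167) (nat_lit 1745880296) (.two (nat_lit 639631375) (nat_lit 11618225326) (.two (nat_lit 4599054341) (nat_lit 19100865411) (.two (nat_lit 1048576) (nat_lit 46407883609) .nil))),
   .two (nat_lit 50331839) (nat_lit 28093448787) (.two (nat_lit 16777280) (nat_lit 184993973064) (.two (nat_lit 16777231) (nat_lit 165528211251) (.two (nat_lit 16777220) (nat_lit 809505914) (.two (nat_lit 16777217) (nat_lit 1413486339) (.two (nat_lit 4194304) (nat_lit 9948895635) (.one (nat_lit 4201408) .nil)))))),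
   .two (nat_lit 20704133311) (nat_lit 9766437706) (.two (nat_lit 18933088271) (nat_lit 9798945642) (.two (nat_lit 9866051592) (nat_lit 159217881722) (.two (nat_lit 605028353) (nat_lit 9867106121) (.two (nat_lit 1048576) (nat_lit 2104027) (.one (nat_lit 8395910) .nil))))),
   .two (nat_lit 11559502015) (nat_lit 46510637896) (.two (nat_lit 721420303) (nat_lit 157038939919) (.two (nat_lit 50331653) (nat_lit 156367852226) (.two (nat_lit 4194305) (nat_lit 117446055) (.two (nat_lit 16777216) (nat_lit 13224647551) .nil)))),
   .two (nat_lit 272629951) (nat_lit 156372042568) (.two (nat_lit 272629775) (nat_lit 18933090473) (.two (nat_lit 4194312) (nat_lit 156539818882) (.two (nat_lit 1048576) (nat_lit 880810870) .nil))),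
   .two (nat_lit 343933119) (nat_lit 47548727487) (.two (nat_lit 47548727360) (nat_lit 4605348028) (.two (nat_lit 2961178632) (nat_lit 2101591) (.two (nat_lit 20638072836) (nat_lit 11618226871) (.two (nat_lit 34603009) (nat_lit 2103579) (.two (nat_lit 1048576) (nat_lit 2104028) (.one (nat_lit 8395911) .nil)))))),
   .two (nat_lit 9802088639) (nat_lit 19596837705) (.two (nat_lit 46407876623) (nat_lit 3460303631) (.two (nat_lit 4194312) (nat_lit 37247520575) (.two (nat_lit 20638072836) (nat_lit 19532878514) (.two (nat_lit 4194305) (nat_lit 638588791) (.two (nat_lit 1048576) (nat_lit 2103780) (.one (nat_lit 1055681) .nil)))))),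
   .two (nat_lit 236978757) (nat_lit 239075690) (.two (nat_lit 46980399169) (nat_lit 9900655890) (.two (nat_lit 639631375) (nat_lit 4030728396) (.two (nat_lit 2887778312) (nat_lit 19532876944) (.two (nat_lit 2887778308) (nat_lit 174688571405) (.two (nat_lit 2097153) (nat_lit 4200312) (.two (nat_lit 1048576) (nat_lit 2103781) (.one (nat_lit 1055880) .nil))))))),
   .two (nat_lit 822083775) (nat_lit 13224641107) (.two (nat_lit 285212738) (nat_lit 809501976) (.two (nat_lit 2889875471) (nat_lit 184553479) (.two (nat_lit 4194305) (nat_lit 19142808985) (.two (nat_lit 1048576) (nat_lit 9781123495) (.one (nat_lit 1055881) .nil))))),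
   .two (nat_lit 822083775) (nat_lit 809501281) (.two (nat_lit 306184302) (nat_lit 3036677350) (.two (nat_lit 822083599) (nat_lit 9902754657) (.two (nat_lit 4194312) (nat_lit 20753420300) (.two (nat_lit 4194305) (nat_lit 183962178969) (.two (nat_lit 1048576) (nat_lit 16784095) (.one (nat_lit 1055883) .nil)))))),
   .two (nat_lit 285212863) (nat_lit 28693234262) (.two (nat_lit 285212737) (nat_lit 10506732361) (.two (nat_lit 285212687) (nat_lit 10506733020) (.two (nat_lit 2889875464) (nat_lit 11492397070) (.two (nat_lit 4194305) (nat_lit 28806485866) (.two (nat_lit 1048576) (nat_lit 46510643659) (.one (nat_lit 174755683216) .nil)))))),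
   .two (nat_lit 809500863) (nat_lit 1913651557) (.two (nat_lit 272629824) (nat_lit 156567077705) (.two (nat_lit 2889875471) (nat_lit 184423549809) (.two (nat_lit 3464495112) (nat_lit 11476667562) (.two (nat_lit 46414168068) (nat_lit 168825519) (.two (nat_lit 156372041729) (nat_lit 183946450331) (.two (nat_lit 1048576) (nat_lit 2103782) (.one (nat_lit 1055885) .nil))))))),
   .two (nat_lit 156581757119) (nat_lit 9802089288) (.two (nat_lit 285212687) (nat_lit 20707281071) (.two (nat_lit 285212680) (nat_lit 1212157740) (.two (nat_lit 2902458372) (nat_lit 46510641788) (.two (nat_lit 4194305) (nat_lit 2969573473) (.one (nat_lit 71310170) .nil))))),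
   .two (nat_lit 11007951039) (nat_lit 46473937480) (.two (nat_lit 3525312576) (nat_lit 3457156956) (.two (nat_lit 1745879055) (nat_lit 19597887672) (.two (nat_lit 2961178632) (nat_lit 37247520575) (.two (nat_lit 2887778308) (nat_lit 46406832839) (.two (nat_lit 156364701697) (nat_lit 9799997278) (.two (nat_lit 2097152) (nat_lit 1055457) (.one (nat_lit 1209015222) .nil))))))),
   .two (nat_lit 156372041919) (nat_lit 2887778932) (.two (nat_lit 9781116995) (nat_lit 3460302750) (.two (nat_lit 37748751) (nat_lit 1224740014) (.two (nat_lit 4194308) (nat_lit 46978306751) (.two (nat_lit 4194305) (nat_lit 46992987936) (.two (nat_lit 8388608) (nat_lit 2902465217) (.one (nat_lit 3472891002) .nil)))))),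
   .two (nat_lit 9806282943) (nat_lit 4601152132) (.two (nat_lit 310378562) (nat_lit 708839295) (.two (nat_lit 37748751) (nat_lit 13195284494) (.two (nat_lit 2097153) (nat_lit 310384024) (.two (nat_lit 16777216) (nat_lit 337648531) .nil)))),
   .two (nat_lit 4647289023) (nat_lit 19599982783) (.two (nat_lit 12117344321) (nat_lit 1392510235) (.two (nat_lit 11492392975) (nat_lit 1849690886) (.two (nat_lit 1745879048) (nat_lit 46980402321) (.two (nat_lit 605028357) (nat_lit 4647293563) (.two (nat_lit 34603009) (nat_lit 47550830334) (.two (nat_lit 1048576) (nat_lit 4200936) (.one (nat_lit 806362013) .nil))))))),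
   .two (nat_lit 157036839269) (nat_lit 156971827798) (.two (nat_lit 47563407426) (nat_lit 10001319803) (.two (nat_lit 117440527) (nat_lit 135267804) (.two (nat_lit 3460300808) (nat_lit 166197202716) (.two (nat_lit 11492392964) (nat_lit 174688572082) (.two (nat_lit 2097153) (nat_lit 1178605371) (.two (nat_lit 1048576) (nat_lit 706746815) (.one (nat_lit 1055886) .nil))))))),
   .two (nat_lit 10007609535) (nat_lit 9900655222) (.two (nat_lit 12117344321) (nat_lit 9974056164) (.two (nat_lit 176160783) (nat_lit 28791802048) (.two (nat_lit 176160776) (nat_lit 21812481170) (.two (nat_lit 176160772) (nat_lit 2921336841) (.two (nat_lit 4194305) (nat_lit 9806288987) (.one (nat_lit 2956991406) .nil)))))),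
   .two (nat_lit 310378687) (nat_lit 166132187719) (.two (nat_lit 157038936178) (nat_lit 2994734310) (.two (nat_lit 156372041743) (nat_lit 12050238302) (.two (nat_lit 9802088460) (nat_lit 158150430726) (.two (nat_lit 9765388289) (nat_lit 174755682789) (.one (nat_lit 306191271) .nil))))),
   .two (nat_lit 50331839) (nat_lit 9936307492) (.two (nat_lit 822083599) (nat_lit 4601153729) (.two (nat_lit 205520904) (nat_lit 352324761) (.two (nat_lit 159216828421) (nat_lit 1795166930) (.two (nat_lit 4194305) (nat_lit 16783226) (.two (nat_lit 1048576) (nat_lit 16783814) (.one (nat_lit 4201616) .nil)))))),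
   .two (nat_lit 158144135749) (nat_lit 1343226220) (.two (nat_lit 2902458435) (nat_lit 1343227178) (.two (nat_lit 285212687) (nat_lit 4598008694) (.two (nat_lit 2350907405) (nat_lit 166129045300) (.two (nat_lit 1746927621) (nat_lit 1053398) (.two (nat_lit 50331649) (nat_lit 2103163) (.two (nat_lit 1048576) (nat_lit 2104035) (.one (nat_lit 2104465) .nil))))))),
   .two (nat_lit 10015998143) (nat_lit 20644365128) (.two (nat_lit 16777231) (nat_lit 157038938308) (.two (nat_lit 16777224) (nat_lit 339741856) (.two (nat_lit 50331653) (nat_lit 75502268) (.two (nat_lit 41943041) (nat_lit 272636376) (.one (nat_lit 176167869) .nil))))),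
   .two (nat_lit 16777407) (nat_lit 9768534207) (.two (nat_lit 16777280) (nat_lit 310379338) (.two (nat_lit 16777231) (nat_lit 209717432) (.two (nat_lit 16777224) (nat_lit 109055743) (.two (nat_lit 1916796933) (nat_lit 185002366111) (.two (nat_lit 8388609) (nat_lit 352327536) (.two (nat_lit 8388608) (nat_lit 4201188) (.one (nat_lit 4201618) .nil))))))),
   .two (nat_lit 47582281919) (nat_lit 3036676456) (.two (nat_lit 2988441666) (nat_lit 10537141486) (.two (nat_lit 2902458383) (nat_lit 28086110383) (.two (nat_lit 11551113224) (nat_lit 11022635327) (.two (nat_lit 10385096709) (nat_lit 8393893) (.two (nat_lit 16777217) (nat_lit 1055005) (.two (nat_lit 16777216) (nat_lit 1055461) (.one (nat_lit 1055891) .nil))))))),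
   .two (nat_lit 639631551) (nat_lit 352321727) (.two (nat_lit 16777280) (nat_lit 4638902476) (.two (nat_lit 16777224) (nat_lit 269488847) (.two (nat_lit 41943041) (nat_lit 672143173) (.two (nat_lit 8388608) (nat_lit 1055462) (.one (nat_lit 1055892) .nil))))),
   .two (nat_lit 1947205823) (nat_lit 174768259657) (.two (nat_lit 11492393025) (nat_lit 9869199533) (.two (nat_lit 11559501832) (nat_lit 135271078) (.two (nat_lit 620756993) (nat_lit 772806449) (.two (nat_lit 1048576) (nat_lit 16784103) (.one (nat_lit 4201621) .nil))))),
   .two (nat_lit 272629951) (nat_lit 158662132071) (.two (nat_lit 184549442) (nat_lit 183946447061) (.two (nat_lit 184549384) (nat_lit 20638076079) (.two (nat_lit 806354949) (nat_lit 788533882) (.two (nat_lit 2097153) (nat_lit 1054588) (.two (nat_lit 2097152) (nat_lit 174688573858) (.one (nat_lit 1055894) .nil)))))),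
   .two (nat_lit 10007609535) (nat_lit 2902458956) (.two (nat_lit 41943107) (nat_lit 166245435241) (.two (nat_lit 50331663) (nat_lit 2961182497) (.two (nat_lit 16777220) (nat_lit 1317016219) (.two (nat_lit 16777217) (nat_lit 1054589) (.two (nat_lit 8388608) (nat_lit 1055464) (.one (nat_lit 1055895) .nil)))))),
   .two (nat_lit 10007609535) (nat_lit 620758232) (.two (nat_lit 16777231) (nat_lit 11584671755) (.two (nat_lit 50331649) (nat_lit 21785220936) (.two (nat_lit 8388608) (nat_lit 16784105) (.one (nat_lit 8395928) .nil)))),
   .two (nat_lit 13237223615) (nat_lit 156971827781) (.two (nat_lit 156971827314) (nat_lit 2097994) (.two (nat_lit 37748751) (nat_lit 12163485707) (.two (nat_lit 37748737) (nat_lit 16783230) (.two (nat_lit 2097152) (nat_lit 4201194) (.one (nat_lit 2104474) .nil))))),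
   .two (nat_lit 285212863) (nat_lit 183848927888) (.two (nat_lit 285212736) (nat_lit 4195612) (.two (nat_lit 11492392975) (nat_lit 239078168) (.two (nat_lit 68157448) (nat_lit 166211883018) (.two (nat_lit 34603009) (nat_lit 46510643659) (.one (nat_lit 1055686) .nil))))),
   .two (nat_lit 612368575) (nat_lit 620757832) (.two (nat_lit 8388623) (nat_lit 9881783466) (.two (nat_lit 8388612) (nat_lit 12117349039) (.two (nat_lit 16777217) (nat_lit 4601158105) (.one (nat_lit 843062347) .nil)))),
   .two (nat_lit 822083775) (nat_lit 2889876726) (.two (nat_lit 11479810063) (nat_lit 12129931041) (.two (nat_lit 11479810052) (nat_lit 4632613492) (.two (nat_lit 2097153) (nat_lit 2902464378) (.two (nat_lit 4194304) (nat_lit 2902464966) (.one (nat_lit 2104475) .nil))))),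
   .two (nat_lit 285212863) (nat_lit 13224641352) (.two (nat_lit 272629775) (nat_lit 21827162123) (.two (nat_lit 4194305) (nat_lit 185035921258) (.two (nat_lit 4194304) (nat_lit 12163488226) (.one (nat_lit 46510644131) .nil)))),
   .two (nat_lit 21827158207) (nat_lit 2416968521) (.two (nat_lit 1795162127) (nat_lit 10369371000) (.two (nat_lit 183848927240) (nat_lit 1276120819) (.two (nat_lit 13191086085) (nat_lit 184554908) (.two (nat_lit 4194304) (nat_lit 1410341305) (.one (nat_lit 873470811) .nil))))),
   .two (nat_lit 620757183) (nat_lit 2927625470) (.two (nat_lit 16777231) (nat_lit 10443819183) (.two (nat_lit 176160776) (nat_lit 16781973) (.two (nat_lit 8388609) (nat_lit 50337550) (.two (nat_lit 1048576) (nat_lit 16784107) (.one (nat_lit 705698942) .nil))))),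
   .two (nat_lit 620757183) (nat_lit 47548727655) (.two (nat_lit 276824129) (nat_lit 50333147) (.two (nat_lit 620757000) (nat_lit 156566031531) (.two (nat_lit 8388612) (nat_lit 159232561829) (.two (nat_lit 8388609) (nat_lit 11492398897) (.two (nat_lit 2097152) (nat_lit 159250389713) (.one (nat_lit 1055900) .nil)))))),
   .two (nat_lit 21785215167) (nat_lit 18925748895) (.two (nat_lit 4647288899) (nat_lit 4638901066) (.two (nat_lit 612368399) (nat_lit 1291847863) (.two (nat_lit 12047089672) (nat_lit 46514835462) (.two (nat_lit 34603009) (nat_lit 721426530) (.one (nat_lit 1376787381) .nil))))),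
   .two (nat_lit 352321727) (nat_lit 1417675592) (.two (nat_lit 16777231) (nat_lit 13195282613) (.two (nat_lit 713031688) (nat_lit 158192372892) (.two (nat_lit 16777220) (nat_lit 276828854) (.two (nat_lit 41943041) (nat_lit 318773076) (.two (nat_lit 1048576) (nat_lit 310385092) (.one (nat_lit 8395933) .nil)))))),
   .two (nat_lit 16777407) (nat_lit 11618222920) (.two (nat_lit 16777231) (nat_lit 880806057) (.two (nat_lit 713031688) (nat_lit 50334861) (.two (nat_lit 41943045) (nat_lit 21827162123) (.two (nat_lit 612368385) (nat_lit 12163487594) (.two (nat_lit 8388608) (nat_lit 16784108) (.one (nat_lit 8395709) .nil)))))),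
   .two (nat_lit 654311615) (nat_lit 2956985005) (.two (nat_lit 306184257) (nat_lit 4613735242) (.two (nat_lit 9781116943) (nat_lit 9802089947) (.two (nat_lit 4194312) (nat_lit 1291848847) (.two (nat_lit 4194308) (nat_lit 16781319) (.two (nat_lit 16777217) (nat_lit 4200276) (.two (nat_lit 2097152) (nat_lit 822090150) (.one (nat_lit 1055687) .nil))))))),
   .two (nat_lit 310378854) (nat_lit 1212154439) (.two (nat_lit 847249475) (nat_lit 19029558506) (.two (nat_lit 159217877016) (nat_lit 46414170315) (.two (nat_lit 606076936) (nat_lit 4605349647) (.two (nat_lit 1277165573) (nat_lit 8393894) (.two (nat_lit 2097153) (nat_lit 4200319) (.two (nat_lit 2097152) (nat_lit 4201197) (.one (nat_lit 4201630) .nil))))))),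
   .two (nat_lit 2969567423) (nat_lit 9766437535) (.two (nat_lit 2969567298) (nat_lit 4599055590) (.two (nat_lit 16777231) (nat_lit 156573371222) (.two (nat_lit 184549384) (nat_lit 184417259299) (.two (nat_lit 8388612) (nat_lit 47596967320) (.two (nat_lit 2097152) (nat_lit 1384126555) (.one (nat_lit 166230760327) .nil)))))),
   .two (nat_lit 2969567423) (nat_lit 270533235) (.two (nat_lit 2969567296) (nat_lit 2954889071) (.two (nat_lit 159232557071) (nat_lit 10007611565) (.two (nat_lit 9867100168) (nat_lit 185002364937) (.two (nat_lit 4194305) (nat_lit 166245438872) (.two (nat_lit 2097152) (nat_lit 8395502) (.one (nat_lit 2104479) .nil)))))),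
   .two (nat_lit 822083775) (nat_lit 1950352641) (.two (nat_lit 2902458383) (nat_lit 4030728385) (.two (nat_lit 742391816) (nat_lit 20753420300) (.two (nat_lit 4194305) (nat_lit 12148807781) (.one (nat_lit 2104422) .nil)))),
   .two (nat_lit 272629951) (nat_lit 654312264) (.two (nat_lit 272629775) (nat_lit 50334894) (.two (nat_lit 4194308) (nat_lit 28101841566) (.two (nat_lit 16777217) (nat_lit 339744595) (.two (nat_lit 1048576) (nat_lit 20652759453) (.one (nat_lit 4201632) .nil))))),
   .two (nat_lit 11559502015) (nat_lit 184993972858) (.two (nat_lit 8388675) (nat_lit 11559503323) (.two (nat_lit 176160776) (nat_lit 16780439) (.two (nat_lit 721420292) (nat_lit 780145319) (.two (nat_lit 8388609) (nat_lit 16783208) (.two (nat_lit 4194304) (nat_lit 28764543909) .nil))))),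
   .two (nat_lit 46414168421) (nat_lit 10942939772) (.two (nat_lit 310378563) (nat_lit 18928896213) (.two (nat_lit 742391816) (nat_lit 157043133587) (.two (nat_lit 69206021) (nat_lit 28764541826) (.two (nat_lit 2097152) (nat_lit 880810869) .nil)))),
   .two (nat_lit 1753219263) (nat_lit 269485118) (.two (nat_lit 847249475) (nat_lit 339739466) (.two (nat_lit 9768534031) (nat_lit 8390856) (.two (nat_lit 205520904) (nat_lit 12624858259) (.two (nat_lit 605028357) (nat_lit 166203495298) (.two (nat_lit 1048576) (nat_lit 847255658) (.one (nat_lit 8395937) .nil)))))),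
   .two (nat_lit 8388799) (nat_lit 159217877349) (.two (nat_lit 8388672) (nat_lit 1410335561) (.two (nat_lit 183848927247) (nat_lit 156533525651) (.two (nat_lit 12121538565) (nat_lit 34607760) (.two (nat_lit 9766436865) (nat_lit 605034289) (.two (nat_lit 2097152) (nat_lit 806361574) (.one (nat_lit 158143093689) .nil)))))),
   .two (nat_lit 822083775) (nat_lit 47550825067) (.two (nat_lit 285212736) (nat_lit 2990540702) (.two (nat_lit 822083599) (nat_lit 9902754657) (.two (nat_lit 37748744) (nat_lit 20753420300) (.two (nat_lit 4194305) (nat_lit 183962178969) (.two (nat_lit 2097152) (nat_lit 16784095) (.one (nat_lit 2104482) .nil)))))),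
   .two (nat_lit 4647289023) (nat_lit 156971828040) (.two (nat_lit 822083599) (nat_lit 10338961607) (.two (nat_lit 1191182344) (nat_lit 19599986476) (.two (nat_lit 1916796933) (nat_lit 9814676354) (.two (nat_lit 1048576) (nat_lit 13224646754) (.one (nat_lit 16784328) .nil))))),
   .two (nat_lit 880804031) (nat_lit 83886920) (.two (nat_lit 8388623) (nat_lit 822085813) (.two (nat_lit 41943048) (nat_lit 16781071) (.two (nat_lit 8388612) (nat_lit 19545461406) (.two (nat_lit 8388609) (nat_lit 156984416010) (.two (nat_lit 8388608) (nat_lit 16783849) (.one (nat_lit 8395939) .nil)))))),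
   .two (nat_lit 809500863) (nat_lit 310378853) (.two (nat_lit 272629824) (nat_lit 46508540745) (.two (nat_lit 4605345807) (nat_lit 1175455926) (.two (nat_lit 184993972232) (nat_lit 1780485294) (.two (nat_lit 47550824453) (nat_lit 2954891914) (.two (nat_lit 612368385) (nat_lit 270538545) (.two (nat_lit 1048576) (nat_lit 2104047) (.one (nat_lit 47548734393) .nil))))))),
   .two (nat_lit 47582281919) (nat_lit 9768535335) (.two (nat_lit 4194319) (nat_lit 10007610843) (.two (nat_lit 4194312) (nat_lit 2954890997) (.two (nat_lit 4194308) (nat_lit 158075982509) (.two (nat_lit 2097153) (nat_lit 336598885) (.two (nat_lit 4194304) (nat_lit 34609630) (.one (nat_lit 1055689) .nil)))))),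
   .two (nat_lit 11543773375) (nat_lit 775946834) (.two (nat_lit 4194369) (nat_lit 880804680) (.two (nat_lit 4194319) (nat_lit 880805339) (.two (nat_lit 4194312) (nat_lit 713034909) (.two (nat_lit 4194308) (nat_lit 706743622) (.two (nat_lit 2097155) (nat_lit 272634510) (.two (nat_lit 2097153) (nat_lit 612374305) (.two (nat_lit 2097152) (nat_lit 28798097829) (.one (nat_lit 47547685834) .nil)))))))),
   .two (nat_lit 272629951) (nat_lit 165532402244) (.two (nat_lit 158176641090) (nat_lit 19096666952) (.two (nat_lit 272629775) (nat_lit 28093450408) (.two (nat_lit 4194312) (nat_lit 10007612557) (.two (nat_lit 4194308) (nat_lit 10007613444) (.two (nat_lit 4194305) (nat_lit 46414173609) (.two (nat_lit 1048576) (nat_lit 239081876) (.one (nat_lit 135273052) .nil))))))),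
   .two (nat_lit 16777407) (nat_lit 705691686) (.two (nat_lit 16777407) (nat_lit 1048672) (.two (nat_lit 285212737) (nat_lit 3020947675) (.two (nat_lit 169869350) (nat_lit 9982444794) (.two (nat_lit 4194319) (nat_lit 16777723) (.two (nat_lit 4194319) (nat_lit 9781117897) (.two (nat_lit 4194312) (nat_lit 19530780063) (.two (nat_lit 2954887176) (nat_lit 1947208062) (.two (nat_lit 4194308) (nat_lit 156968684959) (.two (nat_lit 2097155) (nat_lit 10921970149) (.two (nat_lit 2097153) (nat_lit 10351548007) (.two (nat_lit 16777216) (nat_lit 1054246) (.one (nat_lit 772807271) .nil)))))))))))),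
   .two (nat_lit 16777407) (nat_lit 1048672) (.two (nat_lit 285212737) (nat_lit 3020947675) (.two (nat_lit 2902458403) (nat_lit 1410335560) (.two (nat_lit 169869350) (nat_lit 9982444794) (.two (nat_lit 4194319) (nat_lit 9781117897) (.two (nat_lit 169869329) (nat_lit 9982446375) (.two (nat_lit 2954887176) (nat_lit 1947208062) (.two (nat_lit 270532615) (nat_lit 20640173207) (.two (nat_lit 4194306) (nat_lit 1052693) (.two (nat_lit 169869315) (nat_lit 1947209033) (.two (nat_lit 2097153) (nat_lit 235935270) (.two (nat_lit 16777216) (nat_lit 1054247) (.one (nat_lit 1376787048) .nil)))))))))))),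
   .two (nat_lit 41943231) (nat_lit 1745879231) (.two (nat_lit 8388672) (nat_lit 47548728136) (.two (nat_lit 176160783) (nat_lit 605031223) (.two (nat_lit 11551113224) (nat_lit 156968685288) (.two (nat_lit 41943045) (nat_lit 102763846) (.two (nat_lit 16777219) (nat_lit 235933702) (.two (nat_lit 16777217) (nat_lit 9933165981) (.two (nat_lit 16777216) (nat_lit 11544828326) (.one (nat_lit 168828091) .nil)))))))),
   .two (nat_lit 705691713) (nat_lit 184423548183) (.two (nat_lit 37748751) (nat_lit 873466644) (.two (nat_lit 4194308) (nat_lit 184416211598) (.two (nat_lit 4194305) (nat_lit 1054984) (.one (nat_lit 1054918) .nil)))),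
   .two (nat_lit 12117344447) (nat_lit 156472705629) (.two (nat_lit 13195280451) (nat_lit 183962174282) (.two (nat_lit 713031695) (nat_lit 183928621251) (.two (nat_lit 721420296) (nat_lit 20707282068) (.two (nat_lit 50331653) (nat_lit 4198419) (.two (nat_lit 37748739) (nat_lit 10007614574) (.two (nat_lit 37748737) (nat_lit 11584673588) (.two (nat_lit 4194304) (nat_lit 16783827) (.one (nat_lit 1853889489) .nil)))))))),
   .two (nat_lit 11559502015) (nat_lit 10537140859) (.two (nat_lit 2349858883) (nat_lit 2317353800) (.two (nat_lit 46980399119) (nat_lit 166144772297) (.two (nat_lit 3460300808) (nat_lit 50334884) (.two (nat_lit 171966469) (nat_lit 9781121028) (.two (nat_lit 4194305) (nat_lit 158192375205) (.two (nat_lit 1048576) (nat_lit 337647717) (.one (nat_lit 336600233) .nil))))))),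
   .two (nat_lit 9781117119) (nat_lit 9934209637) (.two (nat_lit 184419352642) (nat_lit 1209008968) (.two (nat_lit 9781116943) (nat_lit 159219976365) (.two (nat_lit 169869320) (nat_lit 11492396173) (.two (nat_lit 2097157) (nat_lit 185002364938) (.two (nat_lit 2097153) (nat_lit 13237228952) (.two (nat_lit 1048576) (nat_lit 4632615316) (.one (nat_lit 16784580) .nil))))))),
   .two (nat_lit 159217877183) (nat_lit 1853882952) (.two (nat_lit 28772925547) (nat_lit 47584379722) (.two (nat_lit 158158815247) (nat_lit 174753581245) (.two (nat_lit 9768534024) (nat_lit 3458206879) (.two (nat_lit 159224168453) (nat_lit 11477716998) (.two (nat_lit 612368385) (nat_lit 10907293081) (.two (nat_lit 8388608) (nat_lit 4200916) (.one (nat_lit 20640177338) .nil))))))),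
   .two (nat_lit 41943231) (nat_lit 3460301445) (.two (nat_lit 9934209091) (nat_lit 19029558088) (.two (nat_lit 41943055) (nat_lit 721422508) (.two (nat_lit 41943048) (nat_lit 159266115372) (.two (nat_lit 4194308) (nat_lit 3036680327) (.two (nat_lit 4194308) (nat_lit 2969571343) (.two (nat_lit 4194305) (nat_lit 47548731527) (.two (nat_lit 2097152) (nat_lit 18928900508) (.one (nat_lit 205528241) .nil)))))))),
   .two (nat_lit 16777407) (nat_lit 9866051622) (.two (nat_lit 16777407) (nat_lit 11543773280) (.two (nat_lit 306184259) (nat_lit 156968682312) (.two (nat_lit 1779433487) (nat_lit 4647291731) (.two (nat_lit 11559501832) (nat_lit 12114202377) (.two (nat_lit 50331653) (nat_lit 28690091427) (.two (nat_lit 721420292) (nat_lit 46507495616) (.two (nat_lit 156367847425) (nat_lit 183912896321) (.two (nat_lit 4194304) (nat_lit 16782891) (.one (nat_lit 16784346) .nil))))))))),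
   .two (nat_lit 4601151679) (nat_lit 156372041825) (.two (nat_lit 306184258) (nat_lit 8389927) (.two (nat_lit 813694991) (nat_lit 4598007981) (.two (nat_lit 166129041416) (nat_lit 28087159956) (.two (nat_lit 11484004357) (nat_lit 183912895084) (.two (nat_lit 41943041) (nat_lit 10437531451) (.two (nat_lit 2097152) (nat_lit 183912895511) (.one (nat_lit 1055944) .nil))))))),
   .two (nat_lit 4601151679) (nat_lit 1291845729) (.two (nat_lit 218103874) (nat_lit 11510219222) (.two (nat_lit 218103874) (nat_lit 3020947673) (.two (nat_lit 4194319) (nat_lit 9948890587) (.two (nat_lit 11543773192) (nat_lit 1325403282) (.two (nat_lit 4194308) (nat_lit 47547683450) (.two (nat_lit 4194305) (nat_lit 1054538) (.two (nat_lit 1048576) (nat_lit 306189285) (.one (nat_lit 889199214) .nil)))))))),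
   .two (nat_lit 11492393055) (nat_lit 608174685) (.two (nat_lit 9948889279) (nat_lit 21207450070) (.two (nat_lit 156581756965) (nat_lit 156569175305) (.two (nat_lit 2969567296) (nat_lit 21207450070) (.two (nat_lit 4194319) (nat_lit 9948890587) (.two (nat_lit 11543773192) (nat_lit 1325403282) (.two (nat_lit 171966469) (nat_lit 10385101464) (.two (nat_lit 16777217) (nat_lit 3524269899) (.two (nat_lit 1048576) (nat_lit 157038942403) (.one (nat_lit 16784348) .nil))))))))),
   .two (nat_lit 50331839) (nat_lit 183920230760) (.two (nat_lit 16777280) (nat_lit 9806284007) (.two (nat_lit 41943055) (nat_lit 159216830648) (.two (nat_lit 1276116998) (nat_lit 8393020) (.two (nat_lit 184549384) (nat_lit 47555022723) (.two (nat_lit 1291845634) (nat_lit 8394389) (.two (nat_lit 1276116995) (nat_lit 8393485) (.two (nat_lit 156372041729) (nat_lit 1054753) (.two (nat_lit 1048576) (nat_lit 8395305) (.one (nat_lit 8395977) .nil))))))))),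
   .two (nat_lit 8388799) (nat_lit 50331839) (.two (nat_lit 8388672) (nat_lit 3573548262) (.two (nat_lit 19093520424) (nat_lit 11626612954) (.two (nat_lit 8388623) (nat_lit 1191183304) (.two (nat_lit 855638025) (nat_lit 1052989) (.two (nat_lit 8388616) (nat_lit 18941478561) (.two (nat_lit 1291845634) (nat_lit 336599073) (.two (nat_lit 10503585797) (nat_lit 352326546) (.two (nat_lit 9765388289) (nat_lit 75504169) (.two (nat_lit 8388608) (nat_lit 10000276005) (.one (nat_lit 1055709) .nil)))))))))),
   .two (nat_lit 9768534207) (nat_lit 352321727) (.two (nat_lit 16777280) (nat_lit 1276117832) (.two (nat_lit 16777231) (nat_lit 11476666550) (.two (nat_lit 16777224) (nat_lit 11476667566) (.two (nat_lit 16777220) (nat_lit 202379895) (.two (nat_lit 8388609) (nat_lit 873469728) (.two (nat_lit 1048576) (nat_lit 889197541) (.one (nat_lit 16784481) .nil))))))),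
   .two (nat_lit 10907288132) (nat_lit 11584667687) (.two (nat_lit 4613734466) (nat_lit 1753219291) (.two (nat_lit 50331663) (nat_lit 9765388795) (.two (nat_lit 176160776) (nat_lit 236978692) (.two (nat_lit 50331656) (nat_lit 158075980264) (.two (nat_lit 16777220) (nat_lit 158075980264) (.two (nat_lit 16777217) (nat_lit 46474989770) (.two (nat_lit 16777216) (nat_lit 1054254) (.one (nat_lit 1054923) .nil)))))))),
   .two (nat_lit 41943231) (nat_lit 28101837384) (.two (nat_lit 1749024875) (nat_lit 4599055178) (.two (nat_lit 185002360847) (nat_lit 176162268) (.two (nat_lit 721420296) (nat_lit 1277168783) (.two (nat_lit 50331653) (nat_lit 183846834182) (.two (nat_lit 50331649) (nat_lit 1417680281) (.two (nat_lit 16777216) (nat_lit 46508546516) (.one (nat_lit 706747347) .nil))))))),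
   .two (nat_lit 285212863) (nat_lit 9934209637) (.two (nat_lit 11513364546) (nat_lit 1209008968) (.two (nat_lit 9781116943) (nat_lit 3024095419) (.two (nat_lit 169869320) (nat_lit 50334861) (.two (nat_lit 2097157) (nat_lit 11593060362) (.two (nat_lit 34603009) (nat_lit 28772930976) (.two (nat_lit 1048576) (nat_lit 28760349066) (.one (nat_lit 3024099934) .nil))))))),
   .two (nat_lit 13191086271) (nat_lit 46414168161) (.two (nat_lit 4601151552) (nat_lit 4605347062) (.two (nat_lit 18933088271) (nat_lit 159217878491) (.two (nat_lit 18933088264) (nat_lit 28758248593) (.two (nat_lit 1176502277) (nat_lit 843059895) (.two (nat_lit 41943041) (nat_lit 2103118) (.two (nat_lit 2097152) (nat_lit 171972141) (.one (nat_lit 2103498) .nil))))))),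
   .two (nat_lit 165532402021) (nat_lit 306184288) (.two (nat_lit 183848927298) (nat_lit 165532402504) (.two (nat_lit 1191182351) (nat_lit 19599984091) (.two (nat_lit 11479810056) (nat_lit 9881783439) (.two (nat_lit 809500677) (nat_lit 2936016902) (.two (nat_lit 37748737) (nat_lit 47563412899) (.two (nat_lit 4194304) (nat_lit 158083324011) (.one (nat_lit 46523227319) .nil))))))),
   .two (nat_lit 8388799) (nat_lit 10336862565) (.two (nat_lit 8388672) (nat_lit 18925749064) (.two (nat_lit 176160783) (nat_lit 16780805) (.two (nat_lit 2961178632) (nat_lit 10001321748) (.two (nat_lit 10503585797) (nat_lit 47596967455) (.two (nat_lit 1291845635) (nat_lit 1053833) (.two (nat_lit 612368385) (nat_lit 1053591) (.two (nat_lit 1048576) (nat_lit 2104128) (.one (nat_lit 168828080) .nil)))))))),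
   .two (nat_lit 272629951) (nat_lit 1426063964) (.two (nat_lit 184549442) (nat_lit 68158280) (.two (nat_lit 184549391) (nat_lit 10939795631) (.two (nat_lit 620757000) (nat_lit 1175457543) (.two (nat_lit 13187940357) (nat_lit 4199109) (.two (nat_lit 2097153) (nat_lit 4200263) (.two (nat_lit 1048576) (nat_lit 1176508515) (.one (nat_lit 46406834382) .nil))))))),
   .two (nat_lit 272629951) (nat_lit 158662132071) (.two (nat_lit 184549442) (nat_lit 68158280) (.two (nat_lit 184549391) (nat_lit 10939795631) (.two (nat_lit 169869320) (nat_lit 47596965636) (.two (nat_lit 13187940357) (nat_lit 4199109) (.two (nat_lit 16777217) (nat_lit 239081287) (.two (nat_lit 1048576) (nat_lit 1176508515) (.one (nat_lit 159219981612) .nil))))))),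
   .two (nat_lit 50331839) (nat_lit 3524264543) (.two (nat_lit 184993972289) (nat_lit 18925749064) (.two (nat_lit 16777231) (nat_lit 9765388795) (.two (nat_lit 16777231) (nat_lit 158075980264) (.two (nat_lit 713031688) (nat_lit 184987684633) (.two (nat_lit 8388612) (nat_lit 9866054120) (.two (nat_lit 176160772) (nat_lit 11577333355) (.two (nat_lit 8388609) (nat_lit 11577333355) (.two (nat_lit 16777216) (nat_lit 10906246102) (.one (nat_lit 10906246102) .nil))))))))),
   .two (nat_lit 1417675109) (nat_lit 50331686) (.two (nat_lit 1417675109) (nat_lit 69206212) (.two (nat_lit 13203669099) (nat_lit 1417675592) (.two (nat_lit 13203669007) (nat_lit 1853884591) (.two (nat_lit 16777224) (nat_lit 880807083) (.two (nat_lit 16777221) (nat_lit 4599056872) (.two (nat_lit 184549380) (nat_lit 310383511) (.two (nat_lit 2097153) (nat_lit 11626617067) (.two (nat_lit 8388608) (nat_lit 2103851) (.one (nat_lit 16784350) .nil))))))))),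
   .two (nat_lit 28757196991) (nat_lit 28691137157) (.two (nat_lit 10940842091) (nat_lit 47596962632) (.two (nat_lit 10940841999) (nat_lit 822085804) (.two (nat_lit 9766436872) (nat_lit 28772929300) (.two (nat_lit 8388612) (nat_lit 9866054120) (.two (nat_lit 2097153) (nat_lit 10939796895) (.two (nat_lit 8388608) (nat_lit 158177695974) (.one (nat_lit 158177695974) .nil))))))),
   .two (nat_lit 16777310) (nat_lit 1277166143) (.two (nat_lit 16777280) (nat_lit 1277166809) (.two (nat_lit 8388623) (nat_lit 159217878491) (.two (nat_lit 8388616) (nat_lit 20638076047) (.two (nat_lit 8388612) (nat_lit 1411388052) (.two (nat_lit 8388609) (nat_lit 4599059869) (.two (nat_lit 16777216) (nat_lit 310384775) (.one (nat_lit 8395874) .nil))))))),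
   .two (nat_lit 889192639) (nat_lit 1779433830) (.two (nat_lit 1178599491) (nat_lit 18925749064) (.two (nat_lit 16777231) (nat_lit 101712848) (.two (nat_lit 2889875471) (nat_lit 183946445779) (.two (nat_lit 2887778312) (nat_lit 876613396) (.two (nat_lit 2887778308) (nat_lit 168825751) (.two (nat_lit 9766436867) (nat_lit 185020191357) (.two (nat_lit 9766436865) (nat_lit 9969866278) (.two (nat_lit 2097152) (nat_lit 4201004) (.one (nat_lit 2104524) .nil))))))))),
   .two (nat_lit 620757183) (nat_lit 705691686) (.two (nat_lit 620757183) (nat_lit 101711968) (.two (nat_lit 16777280) (nat_lit 101712091) (.two (nat_lit 2889875494) (nat_lit 270533450) (.two (nat_lit 16777231) (nat_lit 9866052091) (.two (nat_lit 2889875471) (nat_lit 11476665301) (.two (nat_lit 2889875464) (nat_lit 165525063279) (.two (nat_lit 166132187144) (nat_lit 28758247806) (.two (nat_lit 16777220) (nat_lit 158176644511) (.two (nat_lit 2887778307) (nat_lit 168825751) (.two (nat_lit 2097153) (nat_lit 168825751) (.two (nat_lit 2097152) (nat_lit 9969866278) (.one (nat_lit 4201439) .nil)))))))))))),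
   .two (nat_lit 10376708191) (nat_lit 12115247753) (.two (nat_lit 8388626) (nat_lit 165528209241) (.two (nat_lit 788529189) (nat_lit 9768534856) (.two (nat_lit 8388672) (nat_lit 11611930842) (.two (nat_lit 13203669007) (nat_lit 9768535515) (.two (nat_lit 13203669000) (nat_lit 9768535658) (.two (nat_lit 9768534024) (nat_lit 9940504712) (.two (nat_lit 16777220) (nat_lit 11544824290) (.two (nat_lit 16777220) (nat_lit 156567080266) (.two (nat_lit 16777217) (nat_lit 2954890654) (.two (nat_lit 4194304) (nat_lit 270538281) (.one (nat_lit 2104525) .nil))))))))))),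
   .two (nat_lit 8388701) (nat_lit 21777875135) (.two (nat_lit 612368575) (nat_lit 184986632286) (.two (nat_lit 8388644) (nat_lit 18925749469) (.two (nat_lit 8388672) (nat_lit 21777875407) (.two (nat_lit 1745879055) (nat_lit 9768535515) (.two (nat_lit 176160774) (nat_lit 159219977364) (.two (nat_lit 1350565896) (nat_lit 1947207263) (.two (nat_lit 11479810050) (nat_lit 11484009122) (.two (nat_lit 156367847429) (nat_lit 46507493861) (.two (nat_lit 41943041) (nat_lit 4199320) (.two (nat_lit 8388608) (nat_lit 4199972) (.one (nat_lit 4201657) .nil))))))))))),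
   .two (nat_lit 13188989025) (nat_lit 9940501093) (.two (nat_lit 10336862227) (nat_lit 174759872291) (.two (nat_lit 159224168555) (nat_lit 10940842963) (.two (nat_lit 813695083) (nat_lit 12047089881) (.two (nat_lit 10336862223) (nat_lit 165525064475) (.two (nat_lit 46407876614) (nat_lit 1052990) (.two (nat_lit 176160776) (nat_lit 11476667725) (.two (nat_lit 46407876610) (nat_lit 1054358) (.two (nat_lit 2887778307) (nat_lit 19026417855) (.two (nat_lit 2097153) (nat_lit 1054153) (.two (nat_lit 2097152) (nat_lit 1054859) (.one (nat_lit 1055715) .nil))))))))))),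
   .two (nat_lit 11477712991) (nat_lit 1376780876) (.two (nat_lit 2954887262) (nat_lit 1343226326) (.two (nat_lit 12150898725) (nat_lit 1343227141) (.two (nat_lit 2954887232) (nat_lit 1343226326) (.two (nat_lit 2887778315) (nat_lit 2920286410) (.two (nat_lit 809500687) (nat_lit 1175455962) (.two (nat_lit 166129041414) (nat_lit 104860820) (.two (nat_lit 9867100168) (nat_lit 21811434519) (.two (nat_lit 46409973762) (nat_lit 10436481644) (.two (nat_lit 166129041412) (nat_lit 10538192916) (.two (nat_lit 37748737) (nat_lit 2102730) (.two (nat_lit 4194304) (nat_lit 2103436) (.one (nat_lit 4201679) .nil)))))))))))),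
   .two (nat_lit 9768534207) (nat_lit 352321727) (.two (nat_lit 16777280) (nat_lit 1276117832) (.two (nat_lit 16777231) (nat_lit 11610884274) (.two (nat_lit 16777224) (nat_lit 11476667566) (.two (nat_lit 16777220) (nat_lit 873468611) (.two (nat_lit 8388609) (nat_lit 873469728) (.two (nat_lit 8388608) (nat_lit 10000274980) (.one (nat_lit 4201444) .nil))))))),
   .two (nat_lit 9768534207) (nat_lit 352321727) (.two (nat_lit 16777280) (nat_lit 1276117832) (.two (nat_lit 16777231) (nat_lit 11610884274) (.two (nat_lit 16777224) (nat_lit 11476667566) (.two (nat_lit 16777220) (nat_lit 873468611) (.two (nat_lit 8388609) (nat_lit 873469728) (.two (nat_lit 1048576) (nat_lit 4201002) (.one (nat_lit 4201680) .nil))))))),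
   .two (nat_lit 9768534207) (nat_lit 352321727) (.two (nat_lit 16777280) (nat_lit 1276117832) (.two (nat_lit 16777231) (nat_lit 11610884274) (.two (nat_lit 16777224) (nat_lit 11476667566) (.two (nat_lit 16777220) (nat_lit 873468611) (.two (nat_lit 8388609) (nat_lit 873469728) (.two (nat_lit 4194304) (nat_lit 185020193425) (.one (nat_lit 4201445) .nil))))))),
   .two (nat_lit 10343153855) (nat_lit 10370417272) (.two (nat_lit 754974785) (nat_lit 10544481541) (.two (nat_lit 9934209039) (nat_lit 11014245141) (.two (nat_lit 654311432) (nat_lit 746587753) (.two (nat_lit 159217877000) (nat_lit 2994735484) (.two (nat_lit 169869316) (nat_lit 21827162743) (.two (nat_lit 2097153) (nat_lit 16783186) (.two (nat_lit 16777216) (nat_lit 236985148) (.one (nat_lit 236985221) .nil)))))))),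
   .two (nat_lit 13224640703) (nat_lit 46406828229) (.two (nat_lit 176160786) (nat_lit 20637025096) (.two (nat_lit 156532473970) (nat_lit 843055569) (.two (nat_lit 2889875522) (nat_lit 46992982237) (.two (nat_lit 612368399) (nat_lit 156971829427) (.two (nat_lit 1358954504) (nat_lit 68160682) (.two (nat_lit 176160773) (nat_lit 202379939) (.two (nat_lit 41943041) (nat_lit 28690093842) (.two (nat_lit 1048576) (nat_lit 4201007) (.one (nat_lit 1055663) .nil))))))))),
   .two (nat_lit 4601151582) (nat_lit 1182794313) (.two (nat_lit 4601151554) (nat_lit 813695818) (.two (nat_lit 4601151503) (nat_lit 3028289709) (.two (nat_lit 4601151496) (nat_lit 20644367508) (.two (nat_lit 4194308) (nat_lit 2994737786) (.two (nat_lit 4194305) (nat_lit 276830025) (.two (nat_lit 8388608) (nat_lit 4599060591) (.one (nat_lit 8395876) .nil))))))),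
   .two (nat_lit 236978271) (nat_lit 1279263376) (.two (nat_lit 28087156933) (nat_lit 3024093382) (.two (nat_lit 174753579044) (nat_lit 10439623908) (.two (nat_lit 2420113476) (nat_lit 2097624) (.two (nat_lit 10940841999) (nat_lit 4197215) (.two (nat_lit 169869318) (nat_lit 3527413493) (.two (nat_lit 157038936071) (nat_lit 2100410) (.two (nat_lit 2097157) (nat_lit 10372518573) (.two (nat_lit 2097153) (nat_lit 4200275) (.two (nat_lit 1048576) (nat_lit 2102839) (.one (nat_lit 2103934) .nil)))))))))),
   .two (nat_lit 21210595423) (nat_lit 28087156933) (.two (nat_lit 3525312532) (nat_lit 9969861924) (.two (nat_lit 13221494821) (nat_lit 159219975122) (.two (nat_lit 673186031) (nat_lit 13191086310) (.two (nat_lit 46508539923) (nat_lit 9802089947) (.two (nat_lit 169869327) (nat_lit 159219975122) (.two (nat_lit 169869318) (nat_lit 12117348131) (.two (nat_lit 169869320) (nat_lit 11479811682) (.two (nat_lit 2097157) (nat_lit 876614326) (.two (nat_lit 2097153) (nat_lit 4200276) (.two (nat_lit 1048576) (nat_lit 3024098291) (.one (nat_lit 4201682) .nil))))))))))),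
   .two (nat_lit 4601151679) (nat_lit 176160964) (.two (nat_lit 4601151552) (nat_lit 276824906) (.two (nat_lit 4601151503) (nat_lit 3028289712) (.two (nat_lit 46984593416) (nat_lit 158079126673) (.two (nat_lit 2894069765) (nat_lit 3527414402) (.two (nat_lit 8388609) (nat_lit 4200275) (.two (nat_lit 1048576) (nat_lit 3024098291) (.one (nat_lit 4201448) .nil))))))),
   .two (nat_lit 4601151581) (nat_lit 276824906) (.two (nat_lit 4601151679) (nat_lit 176160964) (.two (nat_lit 4601151552) (nat_lit 276824906) (.two (nat_lit 4601151503) (nat_lit 3028289712) (.two (nat_lit 46984593416) (nat_lit 158079126673) (.two (nat_lit 2894069765) (nat_lit 3527414402) (.two (nat_lit 8388609) (nat_lit 4200275) (.two (nat_lit 1048576) (nat_lit 4199992) (.one (nat_lit 4201683) .nil)))))))),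
   .two (nat_lit 4601151679) (nat_lit 11517558881) (.two (nat_lit 4601151554) (nat_lit 679478567) (.two (nat_lit 4601151503) (nat_lit 46481279769) (.two (nat_lit 156372041736) (nat_lit 83889325) (.two (nat_lit 4194308) (nat_lit 209720001) (.two (nat_lit 8388609) (nat_lit 2353010502) (.two (nat_lit 8388608) (nat_lit 185023338737) (.one (nat_lit 16784597) .nil))))))),
   .two (nat_lit 780141112) (nat_lit 12617515105) (.two (nat_lit 352321557) (nat_lit 185027527909) (.two (nat_lit 10537140338) (nat_lit 1191182553) (.two (nat_lit 1779433491) (nat_lit 9781118427) (.two (nat_lit 10343153679) (nat_lit 3036676324) (.two (nat_lit 4613734408) (nat_lit 276825704) (.two (nat_lit 171966469) (nat_lit 159266114973) (.two (nat_lit 16777220) (nat_lit 336597125) (.two (nat_lit 4194305) (nat_lit 839915034) (.two (nat_lit 4194304) (nat_lit 839915034) (.one (nat_lit 8395990) .nil)))))))))),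
   .two (nat_lit 47548727389) (nat_lit 679477878) (.two (nat_lit 46414168082) (nat_lit 12047090504) (.two (nat_lit 47548727360) (nat_lit 18925748694) (.two (nat_lit 2988441665) (nat_lit 46481277156) (.two (nat_lit 156372041743) (nat_lit 1050818) (.two (nat_lit 10343153672) (nat_lit 9899609824) (.two (nat_lit 169869316) (nat_lit 1053835) (.two (nat_lit 8388609) (nat_lit 1054551) (.two (nat_lit 1048576) (nat_lit 2103440) (.one (nat_lit 2104536) .nil))))))))),
   .two (nat_lit 1745879231) (nat_lit 880803935) (.two (nat_lit 184549442) (nat_lit 47581234422) (.two (nat_lit 612368399) (nat_lit 158075979228) (.two (nat_lit 612368392) (nat_lit 2332036268) (.two (nat_lit 1358954501) (nat_lit 21214794356) (.two (nat_lit 620756993) (nat_lit 2323650377) (.two (nat_lit 8388608) (nat_lit 605033447) (.one (nat_lit 1055723) .nil))))))),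
   .two (nat_lit 336593254) (nat_lit 654311462) (.two (nat_lit 4631560776) (nat_lit 11525947588) (.two (nat_lit 339738731) (nat_lit 185021235671) (.two (nat_lit 46508540011) (nat_lit 843055948) (.two (nat_lit 2887778319) (nat_lit 174688568278) (.two (nat_lit 46508539927) (nat_lit 47547679696) (.two (nat_lit 4601151496) (nat_lit 1052468) (.two (nat_lit 4194308) (nat_lit 11476667811) (.two (nat_lit 1291845636) (nat_lit 9802094130) (.two (nat_lit 605028353) (nat_lit 306189874) (.two (nat_lit 4194304) (nat_lit 16783923) (.one (nat_lit 158646409848) .nil))))))))))),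
   .two (nat_lit 41943231) (nat_lit 4613735018) (.two (nat_lit 285212737) (nat_lit 159216829258) (.two (nat_lit 612368399) (nat_lit 157036839419) (.two (nat_lit 285212687) (nat_lit 20637025237) (.two (nat_lit 16777224) (nat_lit 156372044161) (.two (nat_lit 620756999) (nat_lit 2927628033) (.two (nat_lit 209715205) (nat_lit 156466418673) (.two (nat_lit 612368387) (nat_lit 28086113172) (.two (nat_lit 605028353) (nat_lit 165526115220) (.two (nat_lit 2097152) (nat_lit 1055284) (.one (nat_lit 1055725) .nil)))))))))),
   .two (nat_lit 13195280479) (nat_lit 9934209215) (.two (nat_lit 2902458386) (nat_lit 639632200) (.two (nat_lit 156481093669) (nat_lit 166197200150) (.two (nat_lit 809500739) (nat_lit 166136381658) (.two (nat_lit 10519314447) (nat_lit 47584381126) (.two (nat_lit 2902458374) (nat_lit 3558870169) (.two (nat_lit 606076936) (nat_lit 9772730017) (.two (nat_lit 2902458373) (nat_lit 740297186) (.two (nat_lit 2902458373) (nat_lit 10001321290) (.two (nat_lit 156367847425) (nat_lit 2102170) (.two (nat_lit 4194304) (nat_lit 8395317) (.one (nat_lit 2104539) .nil))))))))))),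
   .two (nat_lit 28086108517) (nat_lit 46514832032) (.two (nat_lit 16777252) (nat_lit 158176642279) (.two (nat_lit 1914699890) (nat_lit 9899606481) (.two (nat_lit 47548727311) (nat_lit 166196153089) (.two (nat_lit 8388616) (nat_lit 169873137) (.two (nat_lit 8388612) (nat_lit 47563412148) (.two (nat_lit 606076929) (nat_lit 12163487506) (.two (nat_lit 2097152) (nat_lit 8395455) (.one (nat_lit 165540797359) .nil)))))))),
   .two (nat_lit 4601151679) (nat_lit 12115247199) (.two (nat_lit 3525312621) (nat_lit 2923430352) (.two (nat_lit 4601151552) (nat_lit 807403750) (.two (nat_lit 4194319) (nat_lit 2988443239) (.two (nat_lit 4194319) (nat_lit 10504634596) (.two (nat_lit 4194312) (nat_lit 2988443239) (.two (nat_lit 270532613) (nat_lit 46409977878) (.two (nat_lit 4194308) (nat_lit 28758247914) (.two (nat_lit 2097153) (nat_lit 183848932246) (.two (nat_lit 1048576) (nat_lit 2103504) (.one (nat_lit 2103938) .nil)))))))))),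
   .two (nat_lit 306184383) (nat_lit 28697428326) (.two (nat_lit 12129927233) (nat_lit 46980400370) (.two (nat_lit 159217877007) (nat_lit 19545459502) (.two (nat_lit 18933088264) (nat_lit 4613737646) (.two (nat_lit 612368389) (nat_lit 2102413) (.two (nat_lit 2097153) (nat_lit 8394584) (.two (nat_lit 8388608) (nat_lit 16783928) (.one (nat_lit 16784604) .nil))))))),
   .two (nat_lit 236978739) (nat_lit 158079123653) (.two (nat_lit 16777234) (nat_lit 19094570270) (.two (nat_lit 16777252) (nat_lit 19094570270) (.two (nat_lit 742391873) (nat_lit 721420508) (.two (nat_lit 184549391) (nat_lit 13228837707) (.two (nat_lit 713031688) (nat_lit 675287817) (.two (nat_lit 713031688) (nat_lit 20738737826) (.two (nat_lit 41943045) (nat_lit 675287817) (.two (nat_lit 41943045) (nat_lit 156548206618) (.two (nat_lit 612368385) (nat_lit 4200713) (.two (nat_lit 8388608) (nat_lit 2103443) (.one (nat_lit 2104541) .nil))))))))))),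
   .two (nat_lit 21210595686) (nat_lit 9967763551) (.two (nat_lit 47588573204) (nat_lit 2921333994) (.two (nat_lit 158158815297) (nat_lit 10907287772) (.two (nat_lit 21214789647) (nat_lit 218104787) (.two (nat_lit 16777231) (nat_lit 4028629220) (.two (nat_lit 813694984) (nat_lit 1212156393) (.two (nat_lit 184549378) (nat_lit 4199184) (.two (nat_lit 8388612) (nat_lit 1212156393) (.two (nat_lit 620756993) (nat_lit 4199323) (.two (nat_lit 4194304) (nat_lit 16783508) (.one (nat_lit 16784606) .nil)))))))))),
   .two (nat_lit 620757089) (nat_lit 2350907489) (.two (nat_lit 10001317908) (nat_lit 2902459609) (.two (nat_lit 16777332) (nat_lit 18926797021) (.two (nat_lit 1745879055) (nat_lit 654312403) (.two (nat_lit 16777231) (nat_lit 1344274660) (.two (nat_lit 1745879048) (nat_lit 16780696) (.two (nat_lit 169869314) (nat_lit 16783001) (.two (nat_lit 2097157) (nat_lit 2936014498) (.two (nat_lit 50331649) (nat_lit 158144140187) (.two (nat_lit 1048576) (nat_lit 183846835813) (.one (nat_lit 2104543) .nil)))))))))),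
   .two (nat_lit 654311615) (nat_lit 4195555) (.two (nat_lit 306184257) (nat_lit 16779440) (.two (nat_lit 9781116943) (nat_lit 1212157069) (.two (nat_lit 809500680) (nat_lit 16781319) (.two (nat_lit 809500677) (nat_lit 10016003483) (.two (nat_lit 605028353) (nat_lit 21781026907) (.two (nat_lit 1048576) (nat_lit 4201316) (.one (nat_lit 10955529442) .nil))))))),
   .two (nat_lit 352321727) (nat_lit 156372043227) (.two (nat_lit 184549391) (nat_lit 28697431185) (.two (nat_lit 276824072) (nat_lit 16782209) (.two (nat_lit 41943041) (nat_lit 822089821) (.two (nat_lit 8388608) (nat_lit 269491034) (.one (nat_lit 16784612) .nil))))),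
   .two (nat_lit 306184383) (nat_lit 9781117768) (.two (nat_lit 285212739) (nat_lit 19532875944) (.two (nat_lit 2902458383) (nat_lit 9802091661) (.two (nat_lit 272629768) (nat_lit 174768264066) (.two (nat_lit 4194305) (nat_lit 16783456) (.two (nat_lit 4194304) (nat_lit 16784231) (.one (nat_lit 174701157603) .nil)))))),
   .two (nat_lit 11559502015) (nat_lit 2416968921) (.two (nat_lit 11559501888) (nat_lit 2416969179) (.two (nat_lit 11559501839) (nat_lit 46977256593) (.two (nat_lit 739246088) (nat_lit 16782209) (.two (nat_lit 34603009) (nat_lit 16783457) (.two (nat_lit 1048576) (nat_lit 16784232) (.one (nat_lit 10385104096) .nil)))))),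
   .two (nat_lit 156367847615) (nat_lit 46977254625) (.two (nat_lit 705691713) (nat_lit 16778715) (.two (nat_lit 4194319) (nat_lit 50334879) (.two (nat_lit 37748744) (nat_lit 1410339526) (.two (nat_lit 21778923525) (nat_lit 10906244514) (.two (nat_lit 4194305) (nat_lit 10000275881) (.two (nat_lit 4194304) (nat_lit 158091713454) (.one (nat_lit 1795169507) .nil))))))),
   .two (nat_lit 889192639) (nat_lit 12054430536) (.two (nat_lit 16777280) (nat_lit 1954547884) (.two (nat_lit 620757007) (nat_lit 12115250321) (.two (nat_lit 9766436872) (nat_lit 12129931274) (.two (nat_lit 184549380) (nat_lit 47582287272) (.two (nat_lit 2097153) (nat_lit 654318005) (.two (nat_lit 8388608) (nat_lit 3003128676) (.one (nat_lit 2104553) .nil))))))),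
   .two (nat_lit 654311615) (nat_lit 158179788068) (.two (nat_lit 183848927298) (nat_lit 156472707244) (.two (nat_lit 9781116943) (nat_lit 9768537255) (.two (nat_lit 11479810056) (nat_lit 2936016902) (.two (nat_lit 28760342533) (nat_lit 10016003479) (.two (nat_lit 50331649) (nat_lit 1786780058) (.two (nat_lit 4194304) (nat_lit 8395700) (.one (nat_lit 16784619) .nil))))))),
   .two (nat_lit 1291846473) (nat_lit 3560964135) (.two (nat_lit 2969567266) (nat_lit 4195284) (.two (nat_lit 9768534031) (nat_lit 3036679318) (.two (nat_lit 612368391) (nat_lit 218108591) (.two (nat_lit 612368387) (nat_lit 3472888006) (.two (nat_lit 612368385) (nat_lit 46510641349) (.two (nat_lit 8388608) (nat_lit 16784287) (.one (nat_lit 608180885) .nil))))))),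
   .two (nat_lit 2954887359) (nat_lit 2889876712) (.two (nat_lit 339738690) (nat_lit 10007610843) (.two (nat_lit 4194319) (nat_lit 9906949276) (.two (nat_lit 169869320) (nat_lit 1950356158) (.two (nat_lit 270532613) (nat_lit 10338964899) (.two (nat_lit 2097153) (nat_lit 10537146462) (.two (nat_lit 4194304) (nat_lit 12047096669) (.one (nat_lit 4201475) .nil))))))),
   .two (nat_lit 9802088805) (nat_lit 166130090201) (.two (nat_lit 4030726210) (nat_lit 47582283957) (.two (nat_lit 3458203663) (nat_lit 4198195) (.two (nat_lit 46980399112) (nat_lit 46474990242) (.two (nat_lit 3527409669) (nat_lit 21812482949) (.two (nat_lit 4194307) (nat_lit 11544825238) (.two (nat_lit 2097153) (nat_lit 4200905) (.two (nat_lit 2097152) (nat_lit 4201376) (.one (nat_lit 4201748) .nil)))))))),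
   .two (nat_lit 822083775) (nat_lit 157038936905) (.two (nat_lit 4647288898) (nat_lit 166132189387) (.two (nat_lit 822083599) (nat_lit 306187435) (.two (nat_lit 285212680) (nat_lit 3527414436) (.two (nat_lit 4601151493) (nat_lit 9814676354) (.two (nat_lit 4194305) (nat_lit 2969573473) (.two (nat_lit 4194304) (nat_lit 2969574248) (.one (nat_lit 104864391) .nil))))))),
   .two (nat_lit 13237223615) (nat_lit 4195146) (.two (nat_lit 183845781620) (nat_lit 654312923) (.two (nat_lit 46407876623) (nat_lit 11626613910) (.two (nat_lit 46407876616) (nat_lit 183861514246) (.two (nat_lit 34603013) (nat_lit 16782209) (.two (nat_lit 2097153) (nat_lit 336599138) (.two (nat_lit 2097152) (nat_lit 9933167456) (.one (nat_lit 11476670681) .nil))))))),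
   .two (nat_lit 41943231) (nat_lit 47547679955) (.two (nat_lit 4613734465) (nat_lit 9768535515) (.two (nat_lit 8388623) (nat_lit 1224740632) (.two (nat_lit 8388616) (nat_lit 1224741543) (.two (nat_lit 16777220) (nat_lit 135271299) (.two (nat_lit 50331649) (nat_lit 169875560) (.two (nat_lit 16777216) (nat_lit 2104186) (.one (nat_lit 1055748) .nil))))))),
   .two (nat_lit 41943231) (nat_lit 47547679955) (.two (nat_lit 4613734465) (nat_lit 9768535515) (.two (nat_lit 8388623) (nat_lit 1224740632) (.two (nat_lit 8388616) (nat_lit 1224741543) (.two (nat_lit 16777220) (nat_lit 135271299) (.two (nat_lit 50331649) (nat_lit 169875560) (.two (nat_lit 16777216) (nat_lit 2104186) (.one (nat_lit 1056022) .nil))))))),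
   .two (nat_lit 41943231) (nat_lit 47547679955) (.two (nat_lit 4613734465) (nat_lit 9768535515) (.two (nat_lit 8388623) (nat_lit 1224740632) (.two (nat_lit 8388616) (nat_lit 1224741543) (.two (nat_lit 16777220) (nat_lit 135271299) (.two (nat_lit 50331649) (nat_lit 169875560) (.two (nat_lit 16777216) (nat_lit 2104186) (.one (nat_lit 1056023) .nil))))))),
   .two (nat_lit 41943231) (nat_lit 47547679955) (.two (nat_lit 4613734465) (nat_lit 9768535515) (.two (nat_lit 8388623) (nat_lit 1224740632) (.two (nat_lit 8388616) (nat_lit 1224741543) (.two (nat_lit 16777220) (nat_lit 135271299) (.two (nat_lit 50331649) (nat_lit 169875560) (.two (nat_lit 16777216) (nat_lit 2104186) (.one (nat_lit 1056024) .nil))))))),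
   .two (nat_lit 8388799) (nat_lit 337642714) (.two (nat_lit 8388672) (nat_lit 184986634407) (.two (nat_lit 16777231) (nat_lit 11543776399) (.two (nat_lit 16777224) (nat_lit 11543777285) (.two (nat_lit 16777220) (nat_lit 135271298) (.two (nat_lit 16777217) (nat_lit 13228841060) (.two (nat_lit 16777216) (nat_lit 11546925944) (.one (nat_lit 1056025) .nil))))))),
   .two (nat_lit 889192639) (nat_lit 28093449428) (.two (nat_lit 16777280) (nat_lit 159224169420) (.two (nat_lit 16777280) (nat_lit 276824575) (.two (nat_lit 10940841999) (nat_lit 156539817763) (.two (nat_lit 184549384) (nat_lit 236982895) (.two (nat_lit 75497477) (nat_lit 28806485413) (.two (nat_lit 8388609) (nat_lit 47582288311) (.two (nat_lit 2097152) (nat_lit 16784289) (.one (nat_lit 13222550767) .nil)))))))),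
   .two (nat_lit 41943231) (nat_lit 16778533) (.two (nat_lit 855638123) (nat_lit 10007610843) (.two (nat_lit 13203669007) (nat_lit 10007612557) (.two (nat_lit 285212680) (nat_lit 3028291598) (.two (nat_lit 16777220) (nat_lit 176166309) (.two (nat_lit 2097153) (nat_lit 310385080) (.two (nat_lit 8388608) (nat_lit 2104226) (.one (nat_lit 3022002393) .nil))))))),
   .two (nat_lit 16777407) (nat_lit 880804680) (.two (nat_lit 8388672) (nat_lit 50333147) (.two (nat_lit 8388623) (nat_lit 185002364067) (.two (nat_lit 2969567240) (nat_lit 3028292287) (.two (nat_lit 176160773) (nat_lit 10351546568) (.two (nat_lit 8388609) (nat_lit 10351546568) (.two (nat_lit 8388608) (nat_lit 16783553) (.one (nat_lit 8394987) .nil))))))),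
   .two (nat_lit 8388799) (nat_lit 16777435) (.two (nat_lit 8388672) (nat_lit 16777723) (.two (nat_lit 8388623) (nat_lit 16778245) (.two (nat_lit 11559501832) (nat_lit 3028290975) (.two (nat_lit 713031684) (nat_lit 158646407370) (.two (nat_lit 41943041) (nat_lit 158646407370) (.two (nat_lit 8388608) (nat_lit 184555749) (.one (nat_lit 8395770) .nil))))))),
   .two (nat_lit 272629951) (nat_lit 8389864) (.two (nat_lit 47588573250) (nat_lit 10538190299) (.two (nat_lit 4194319) (nat_lit 343936143) (.two (nat_lit 4194312) (nat_lit 2357202950) (.two (nat_lit 4194308) (nat_lit 612373930) (.two (nat_lit 2097153) (nat_lit 135272547) (.two (nat_lit 8388608) (nat_lit 21207456605) (.one (nat_lit 772807677) .nil))))))),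
   .two (nat_lit 2954887359) (nat_lit 176162024) (.two (nat_lit 4638900290) (nat_lit 156569175515) (.two (nat_lit 4194319) (nat_lit 3028290703) (.two (nat_lit 4194312) (nat_lit 183853125639) (.two (nat_lit 2097157) (nat_lit 157043135907) (.two (nat_lit 2097153) (nat_lit 159250389086) (.two (nat_lit 8388608) (nat_lit 184416213853) (.one (nat_lit 8395783) .nil))))))),
   .two (nat_lit 272629951) (nat_lit 8389864) (.two (nat_lit 47588573250) (nat_lit 10538190299) (.two (nat_lit 4194319) (nat_lit 343936143) (.two (nat_lit 4194312) (nat_lit 2357202950) (.two (nat_lit 4194308) (nat_lit 612373930) (.two (nat_lit 2097153) (nat_lit 135272547) (.two (nat_lit 8388608) (nat_lit 21207456605) (.one (nat_lit 1056029) .nil))))))),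
   .two (nat_lit 117440869) (nat_lit 1376780507) (.two (nat_lit 183912890559) (nat_lit 1358954963) (.two (nat_lit 11559501891) (nat_lit 19093521884) (.two (nat_lit 739246095) (nat_lit 285215887) (.two (nat_lit 739246088) (nat_lit 285216773) (.two (nat_lit 11559501829) (nat_lit 336597192) (.two (nat_lit 11543773189) (nat_lit 156380434623) (.two (nat_lit 9765388289) (nat_lit 158158821807) (.two (nat_lit 1048576) (nat_lit 16783980) (.one (nat_lit 1358961949) .nil))))))))),
   .two (nat_lit 184986632385) (nat_lit 2350907609) (.two (nat_lit 166130090099) (nat_lit 156569175515) (.two (nat_lit 11543773199) (nat_lit 171970352) (.two (nat_lit 2887778312) (nat_lit 4634710719) (.two (nat_lit 2097157) (nat_lit 71308173) (.two (nat_lit 2097155) (nat_lit 13224645605) (.two (nat_lit 2097153) (nat_lit 4200907) (.two (nat_lit 1048576) (nat_lit 2104227) (.one (nat_lit 2104328) .nil)))))))),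
   .two (nat_lit 4601151679) (nat_lit 183962174280) (.two (nat_lit 11492393025) (nat_lit 10003416070) (.two (nat_lit 4194319) (nat_lit 19597887081) (.two (nat_lit 4194312) (nat_lit 157036842399) (.two (nat_lit 4194308) (nat_lit 157036842399) (.two (nat_lit 4194305) (nat_lit 159232561349) (.two (nat_lit 1048576) (nat_lit 18928900289) (.one (nat_lit 185021242015) .nil))))))),
   .two (nat_lit 47582281919) (nat_lit 21210595547) (.two (nat_lit 184549441) (nat_lit 11544822790) (.two (nat_lit 184549391) (nat_lit 11544822790) (.two (nat_lit 2969567240) (nat_lit 159257727099) (.two (nat_lit 41943045) (nat_lit 9967767683) (.two (nat_lit 41943041) (nat_lit 2988445900) (.two (nat_lit 8388608) (nat_lit 10540293072) (.one (nat_lit 2988448416) .nil))))))),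
   .two (nat_lit 8388799) (nat_lit 16777434) (.two (nat_lit 8388672) (nat_lit 1191183304) (.two (nat_lit 8388672) (nat_lit 50331875) (.two (nat_lit 8388623) (nat_lit 18941478561) (.two (nat_lit 8388616) (nat_lit 18941478561) (.two (nat_lit 166129041410) (nat_lit 8393618) (.two (nat_lit 176160772) (nat_lit 654315647) (.two (nat_lit 9765388289) (nat_lit 8394275) (.two (nat_lit 1048576) (nat_lit 8394983) (.one (nat_lit 605035529) .nil))))))))),
   .two (nat_lit 10007609382) (nat_lit 47581234425) (.two (nat_lit 8388672) (nat_lit 183845782484) (.two (nat_lit 1350565903) (nat_lit 185020189857) (.two (nat_lit 713031688) (nat_lit 11543777978) (.two (nat_lit 8388612) (nat_lit 11614032070) (.two (nat_lit 37748737) (nat_lit 1055181) (.two (nat_lit 1048576) (nat_lit 8395732) (.one (nat_lit 336599287) .nil))))))),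
   .two (nat_lit 11477712991) (nat_lit 28086109001) (.two (nat_lit 2954887359) (nat_lit 183848927449) (.two (nat_lit 9768534035) (nat_lit 169872172) (.two (nat_lit 2954887232) (nat_lit 20737688531) (.two (nat_lit 2954887232) (nat_lit 9966715108) (.two (nat_lit 809500687) (nat_lit 202378425) (.two (nat_lit 10370416655) (nat_lit 184419354213) (.two (nat_lit 3460300808) (nat_lit 35654113) (.two (nat_lit 742391816) (nat_lit 336594593) (.two (nat_lit 46407876610) (nat_lit 1053587) (.two (nat_lit 1916796933) (nat_lit 28757202559) (.two (nat_lit 156365750273) (nat_lit 1054849) (.two (nat_lit 2097152) (nat_lit 1055342) (.one (nat_lit 20637031423) .nil))))))))))))),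
   .two (nat_lit 272629854) (nat_lit 2920285430) (.two (nat_lit 272629951) (nat_lit 2097622) (.two (nat_lit 10540285989) (nat_lit 1745880540) (.two (nat_lit 809500706) (nat_lit 1050848) (.two (nat_lit 9768534031) (nat_lit 873467050) (.two (nat_lit 2887778310) (nat_lit 10000274100) (.two (nat_lit 156569174028) (nat_lit 168824136) (.two (nat_lit 166129041410) (nat_lit 166130095881) (.two (nat_lit 2887778308) (nat_lit 18925753224) (.two (nat_lit 9765388289) (nat_lit 158144141430) (.two (nat_lit 1048576) (nat_lit 2103490) (.one (nat_lit 1056036) .nil))))))))))),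
   .two (nat_lit 2889875553) (nat_lit 28690089220) (.two (nat_lit 184986632286) (nat_lit 9900655571) (.two (nat_lit 272629951) (nat_lit 3525312739) (.two (nat_lit 876609556) (nat_lit 11543776003) (.two (nat_lit 1209008165) (nat_lit 10370418140) (.two (nat_lit 184986632256) (nat_lit 9900655571) (.two (nat_lit 46407876619) (nat_lit 303041696) (.two (nat_lit 742391823) (nat_lit 1947207263) (.two (nat_lit 2097161) (nat_lit 336596296) (.two (nat_lit 742391816) (nat_lit 1051105) (.two (nat_lit 183848927234) (nat_lit 1780487048) (.two (nat_lit 156367847427) (nat_lit 1052809) (.two (nat_lit 606076929) (nat_lit 4199972) (.two (nat_lit 2097152) (nat_lit 4200643) (.one (nat_lit 2104613) .nil)))))))))))))),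
   .two (nat_lit 620757183) (nat_lit 1753220361) (.two (nat_lit 41943107) (nat_lit 620758491) (.two (nat_lit 16777231) (nat_lit 880807083) (.two (nat_lit 75497480) (nat_lit 337646196) (.two (nat_lit 2887778308) (nat_lit 285216896) (.two (nat_lit 2097153) (nat_lit 352327197) (.two (nat_lit 8388608) (nat_lit 2103919) (.one (nat_lit 8395405) .nil))))))),
   .two (nat_lit 159251431615) (nat_lit 19042141442) (.two (nat_lit 47563407426) (nat_lit 2988443837) (.two (nat_lit 620757007) (nat_lit 11543776399) (.two (nat_lit 620757000) (nat_lit 47581237260) (.two (nat_lit 184549380) (nat_lit 202380708) (.two (nat_lit 16777217) (nat_lit 1055185) (.two (nat_lit 16777216) (nat_lit 1055654) (.one (nat_lit 4201483) .nil))))))),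
   .two (nat_lit 889192639) (nat_lit 880804057) (.two (nat_lit 8388626) (nat_lit 185002363069) (.two (nat_lit 16777280) (nat_lit 343933155) (.two (nat_lit 620757007) (nat_lit 19597887079) (.two (nat_lit 620757000) (nat_lit 20638076321) (.two (nat_lit 176160773) (nat_lit 174753583230) (.two (nat_lit 176160772) (nat_lit 1277169057) (.two (nat_lit 16777217) (nat_lit 10940848319) (.two (nat_lit 4194304) (nat_lit 10940848319) (.one (nat_lit 16784685) .nil))))))))),
   .two (nat_lit 46489665574) (nat_lit 12150900529) (.two (nat_lit 3539992641) (nat_lit 306184699) (.two (nat_lit 620757007) (nat_lit 11543774212) (.two (nat_lit 46414168072) (nat_lit 159216831903) (.two (nat_lit 4605345797) (nat_lit 159216831903) (.two (nat_lit 8388609) (nat_lit 166232854727) (.two (nat_lit 8388608) (nat_lit 16782955) (.one (nat_lit 16783602) .nil))))))),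
   .two (nat_lit 37748774) (nat_lit 1191183176) (.two (nat_lit 705691713) (nat_lit 9781117435) (.two (nat_lit 4194319) (nat_lit 2902459396) (.two (nat_lit 4194311) (nat_lit 2099688) (.two (nat_lit 605028357) (nat_lit 822087071) (.two (nat_lit 4194305) (nat_lit 807407817) (.two (nat_lit 16777216) (nat_lit 1054917) (.one (nat_lit 1055379) .nil))))))),
   .two (nat_lit 83886297) (nat_lit 19029558088) (.two (nat_lit 50332488) (nat_lit 1317011921) (.two (nat_lit 10015998143) (nat_lit 10343155163) (.two (nat_lit 16777280) (nat_lit 780143077) (.two (nat_lit 16777280) (nat_lit 10343155306) (.two (nat_lit 620757026) (nat_lit 713033314) (.two (nat_lit 47555018767) (nat_lit 16781326) (.two (nat_lit 9940500488) (nat_lit 16782209) (.two (nat_lit 176160772) (nat_lit 156380434623) (.two (nat_lit 176160772) (nat_lit 156380434622) (.two (nat_lit 8388609) (nat_lit 4200634) (.two (nat_lit 4194304) (nat_lit 11484011142) (.one (nat_lit 4201486) .nil)))))))))))),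
   .two (nat_lit 50332488) (nat_lit 1317011921) (.two (nat_lit 10015998143) (nat_lit 10343155163) (.two (nat_lit 16777280) (nat_lit 10343155306) (.two (nat_lit 184549411) (nat_lit 713033314) (.two (nat_lit 47555018767) (nat_lit 16781326) (.two (nat_lit 9940500488) (nat_lit 16782209) (.two (nat_lit 176160772) (nat_lit 156380434622) (.two (nat_lit 176160771) (nat_lit 2969573469) (.two (nat_lit 8388609) (nat_lit 4200633) (.two (nat_lit 4194304) (nat_lit 11484011141) (.one (nat_lit 4201485) .nil)))))))))),
   .two (nat_lit 50332489) (nat_lit 47588573413) (.two (nat_lit 16777407) (nat_lit 159224168675) (.two (nat_lit 16777280) (nat_lit 174692763298) (.two (nat_lit 16777231) (nat_lit 174692763298) (.two (nat_lit 11492392968) (nat_lit 19033755035) (.two (nat_lit 176160772) (nat_lit 16782941) (.two (nat_lit 8388609) (nat_lit 156380435478) (.two (nat_lit 8388608) (nat_lit 50337401) (.one (nat_lit 1182800908) .nil)))))))),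
   .two (nat_lit 2927624657) (nat_lit 83886920) (.two (nat_lit 352321727) (nat_lit 156372043227) (.two (nat_lit 16777280) (nat_lit 75498504) (.two (nat_lit 16777280) (nat_lit 1317013989) (.two (nat_lit 16777280) (nat_lit 156372043370) (.two (nat_lit 13195280399) (nat_lit 721424398) (.two (nat_lit 276824072) (nat_lit 16782209) (.two (nat_lit 8388612) (nat_lit 150999232) (.two (nat_lit 8388612) (nat_lit 156380434623) (.two (nat_lit 8388609) (nat_lit 16782943) (.two (nat_lit 1048576) (nat_lit 1283463816) (.one (nat_lit 168828206) .nil))))))))))),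
   .two (nat_lit 8388799) (nat_lit 620757499) (.two (nat_lit 8388672) (nat_lit 156581757960) (.two (nat_lit 50331655) (nat_lit 1052800) (.two (nat_lit 2097155) (nat_lit 8394269) (.two (nat_lit 1048576) (nat_lit 8395405) (.one (nat_lit 2104630) .nil))))),
   .two (nat_lit 16777443) (nat_lit 1277165785) (.two (nat_lit 16777309) (nat_lit 4632608996) (.two (nat_lit 184549394) (nat_lit 174753580647) (.two (nat_lit 2969567243) (nat_lit 19128125090) (.two (nat_lit 620757000) (nat_lit 35655064) (.two (nat_lit 184549378) (nat_lit 2102246) (.two (nat_lit 16777217) (nat_lit 35657953) (.two (nat_lit 16777216) (nat_lit 35657953) (.one (nat_lit 2104634) .nil)))))))),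
   .two (nat_lit 9802088639) (nat_lit 9967763972) (.two (nat_lit 4601151552) (nat_lit 9967763972) (.two (nat_lit 10504634375) (nat_lit 4198530) (.two (nat_lit 183845781507) (nat_lit 4199967) (.two (nat_lit 1048576) (nat_lit 2104321) (.one (nat_lit 705698458) .nil))))),
   .two (nat_lit 10015997990) (nat_lit 1216351381) (.two (nat_lit 21793603592) (nat_lit 156539818975) (.two (nat_lit 4194304) (nat_lit 16784405) .nil)),
   .two (nat_lit 11618222437) (nat_lit 2902459399) (.two (nat_lit 2902458376) (nat_lit 1182798024) (.two (nat_lit 8388608) (nat_lit 1191188723) .nil)),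
   .two (nat_lit 3464495461) (nat_lit 1761608196) (.two (nat_lit 50331656) (nat_lit 28697432264) (.two (nat_lit 8388608) (nat_lit 285219059) .nil)),
   .two (nat_lit 639631551) (nat_lit 34604040) (.two (nat_lit 9766436872) (nat_lit 2886734017) (.two (nat_lit 8388608) (nat_lit 2103542) .nil)),
   .two (nat_lit 11626610726) (nat_lit 183853122567) (.two (nat_lit 847249421) (nat_lit 18941481160) (.two (nat_lit 2097152) (nat_lit 8395419) .nil)),
   .two (nat_lit 8388646) (nat_lit 184550405) (.two (nat_lit 11551113223) (nat_lit 1052873) (.two (nat_lit 8388608) (nat_lit 1055766) .nil)),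
   .two (nat_lit 157038936291) (nat_lit 183946445029) (.two (nat_lit 3560964116) (nat_lit 3557821848) (.two (nat_lit 11479810050) (nat_lit 1054337) (.one (nat_lit 1056059) .nil))),
   .two (nat_lit 46474985699) (nat_lit 158143086819) (.two (nat_lit 46407876628) (nat_lit 4027583896) (.two (nat_lit 166130089986) (nat_lit 4631565953) (.one (nat_lit 1056062) .nil))),
   .two (nat_lit 705692005) (nat_lit 10385097544) (.two (nat_lit 4194319) (nat_lit 11559505679) (.two (nat_lit 2097157) (nat_lit 1358959268) (.two (nat_lit 4194305) (nat_lit 9934214998) (.two (nat_lit 1048576) (nat_lit 47596968642) (.one (nat_lit 4201605) .nil))))),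
   .two (nat_lit 2994733247) (nat_lit 37247517034) (.two (nat_lit 754974785) (nat_lit 3557819626) (.two (nat_lit 1846542351) (nat_lit 183913941175) (.two (nat_lit 10940841992) (nat_lit 156532477740) (.two (nat_lit 11543773189) (nat_lit 37314630308) (.two (nat_lit 2097153) (nat_lit 13187946259) (.two (nat_lit 1048576) (nat_lit 2104029) (.one (nat_lit 1056068) .nil))))))),
   .two (nat_lit 9781117119) (nat_lit 20704134440) (.two (nat_lit 4194319) (nat_lit 166245436572) (.two (nat_lit 171966469) (nat_lit 4632613492) (.two (nat_lit 2097153) (nat_lit 1055004) (.two (nat_lit 1048576) (nat_lit 2104030) (.one (nat_lit 1055882) .nil))))),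
   .two (nat_lit 772801087) (nat_lit 4195004) (.two (nat_lit 184419352641) (nat_lit 21207450858) (.two (nat_lit 184419352591) (nat_lit 21207451859) (.two (nat_lit 705691656) (nat_lit 1279267486) (.two (nat_lit 2097153) (nat_lit 166129047289) (.two (nat_lit 1048576) (nat_lit 4201184) (.one (nat_lit 1055884) .nil)))))),
   .two (nat_lit 37313577318) (nat_lit 156468511386) (.two (nat_lit 20704133185) (nat_lit 11010049259) (.two (nat_lit 184419352591) (nat_lit 12047091905) (.two (nat_lit 169869320) (nat_lit 4634710652) (.two (nat_lit 2097153) (nat_lit 269490023) (.two (nat_lit 2097152) (nat_lit 11510225821) .nil))))),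
   .two (nat_lit 8388799) (nat_lit 1325400761) (.two (nat_lit 183912890606) (nat_lit 2323645657) (.two (nat_lit 620757007) (nat_lit 11551116088) (.two (nat_lit 3539992584) (nat_lit 71307581) (.two (nat_lit 10506731525) (nat_lit 1053860) (.two (nat_lit 156364701697) (nat_lit 47563413322) (.two (nat_lit 1048576) (nat_lit 4201186) (.one (nat_lit 1055887) .nil))))))),
   .two (nat_lit 156465365573) (nat_lit 4195005) (.two (nat_lit 12117344321) (nat_lit 158143087850) (.two (nat_lit 12117344271) (nat_lit 158143088851) (.two (nat_lit 705691656) (nat_lit 306187438) (.two (nat_lit 806354949) (nat_lit 19130225769) (.two (nat_lit 2097153) (nat_lit 19529733881) (.two (nat_lit 1048576) (nat_lit 4201504) (.one (nat_lit 4201797) .nil))))))),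
   .two (nat_lit 41943231) (nat_lit 218104166) (.two (nat_lit 8388674) (nat_lit 50332930) (.two (nat_lit 1291845647) (nat_lit 706744111) (.two (nat_lit 9948889093) (nat_lit 46978306738) (.two (nat_lit 2097153) (nat_lit 50337893) (.one (nat_lit 8395929) .nil))))),
   .two (nat_lit 41943231) (nat_lit 620758491) (.two (nat_lit 8388616) (nat_lit 20753419420) (.two (nat_lit 8388612) (nat_lit 50337648) (.two (nat_lit 8388608) (nat_lit 352328816) .nil))),
   .two (nat_lit 9781117119) (nat_lit 608174438) (.two (nat_lit 169869377) (nat_lit 19545459857) (.two (nat_lit 4194308) (nat_lit 158176645750) (.two (nat_lit 4194305) (nat_lit 1054592) (.two (nat_lit 4194304) (nat_lit 2104048) (.one (nat_lit 2104646) .nil))))),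
   .two (nat_lit 8388799) (nat_lit 47548727865) (.two (nat_lit 8388672) (nat_lit 3021996872) (.two (nat_lit 8388623) (nat_lit 34605879) (.two (nat_lit 41943048) (nat_lit 673189653) (.two (nat_lit 8388612) (nat_lit 2317357077) (.two (nat_lit 41943045) (nat_lit 102763846) (.two (nat_lit 16777217) (nat_lit 135271298) (.two (nat_lit 2097152) (nat_lit 1346378150) (.one (nat_lit 2104836) .nil)))))))),
   .two (nat_lit 12117344447) (nat_lit 9906946700) (.two (nat_lit 1191182452) (nat_lit 9969861906) (.two (nat_lit 18933088271) (nat_lit 9768536887) (.two (nat_lit 1291845640) (nat_lit 9969864462) (.two (nat_lit 9948889093) (nat_lit 645926214) (.two (nat_lit 620756995) (nat_lit 13224645298) (.two (nat_lit 34603009) (nat_lit 12054435617) (.two (nat_lit 1048576) (nat_lit 11580479923) (.one (nat_lit 4201808) .nil)))))))),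
   .two (nat_lit 285212863) (nat_lit 1212154440) (.two (nat_lit 21777875011) (nat_lit 654312689) (.two (nat_lit 4601151503) (nat_lit 1191183836) (.two (nat_lit 4194312) (nat_lit 285215887) (.two (nat_lit 4194308) (nat_lit 21223182342) (.two (nat_lit 4194305) (nat_lit 13237228953) (.two (nat_lit 4194304) (nat_lit 336599141) (.one (nat_lit 1055941) .nil))))))),
   .two (nat_lit 16777407) (nat_lit 1343225952) (.two (nat_lit 47555018819) (nat_lit 18925749064) (.two (nat_lit 739246095) (nat_lit 3036678995) (.two (nat_lit 1358954504) (nat_lit 10939797236) (.two (nat_lit 721420292) (nat_lit 11577333184) (.two (nat_lit 721420292) (nat_lit 185020191498) (.two (nat_lit 156365750273) (nat_lit 20704139073) (.two (nat_lit 2097152) (nat_lit 16783491) (.one (nat_lit 3525319860) .nil)))))))),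
   .two (nat_lit 2954887359) (nat_lit 889193033) (.two (nat_lit 1277165635) (nat_lit 166129042249) (.two (nat_lit 2902458383) (nat_lit 639632859) (.two (nat_lit 169869320) (nat_lit 813698797) (.two (nat_lit 2097157) (nat_lit 889196679) (.two (nat_lit 2097157) (nat_lit 822087695) (.two (nat_lit 606076929) (nat_lit 184423552796) (.two (nat_lit 16777216) (nat_lit 168827305) (.one (nat_lit 8395974) .nil)))))))),
   .two (nat_lit 285212863) (nat_lit 37749352) (.two (nat_lit 306184257) (nat_lit 41943882) (.two (nat_lit 285212687) (nat_lit 1212156743) (.two (nat_lit 4601151496) (nat_lit 166136384660) (.two (nat_lit 4194308) (nat_lit 46481281658) (.two (nat_lit 4194305) (nat_lit 8394569) (.two (nat_lit 8388608) (nat_lit 4200580) (.one (nat_lit 8395872) .nil))))))),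
   .two (nat_lit 9772728417) (nat_lit 10338959959) (.two (nat_lit 4601151679) (nat_lit 11584668118) (.two (nat_lit 306184258) (nat_lit 8389927) (.two (nat_lit 813694991) (nat_lit 4598007981) (.two (nat_lit 813694984) (nat_lit 11610885268) (.two (nat_lit 11484004357) (nat_lit 183912895084) (.two (nat_lit 41943041) (nat_lit 10437531451) (.two (nat_lit 8388608) (nat_lit 840964221) (.one (nat_lit 1056081) .nil)))))))),
   .two (nat_lit 4601151679) (nat_lit 11584668118) (.two (nat_lit 306184258) (nat_lit 8389927) (.two (nat_lit 813694991) (nat_lit 4598007981) (.two (nat_lit 813694984) (nat_lit 11610885268) (.two (nat_lit 11484004357) (nat_lit 183912895084) (.two (nat_lit 41943041) (nat_lit 10437531451) (.two (nat_lit 4194304) (nat_lit 2350914585) (.one (nat_lit 1055943) .nil))))))),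
   .two (nat_lit 705692005) (nat_lit 754974912) (.two (nat_lit 46508539924) (nat_lit 10015999237) (.two (nat_lit 1191182445) (nat_lit 1049040) (.two (nat_lit 169869377) (nat_lit 754974937) (.two (nat_lit 10909384744) (nat_lit 156533523932) (.two (nat_lit 4194312) (nat_lit 318770324) (.two (nat_lit 171966469) (nat_lit 28806484658) (.two (nat_lit 4194305) (nat_lit 1054540) (.two (nat_lit 1048576) (nat_lit 2104361) (.one (nat_lit 2104658) .nil))))))))),
   .two (nat_lit 608174175) (nat_lit 158091706987) (.two (nat_lit 68157797) (nat_lit 9881780416) (.two (nat_lit 272629796) (nat_lit 889193733) (.two (nat_lit 10385096813) (nat_lit 168821200) (.two (nat_lit 1210056744) (nat_lit 10506733020) (.two (nat_lit 169869320) (nat_lit 3003124884) (.two (nat_lit 2097157) (nat_lit 1962939058) (.two (nat_lit 2097153) (nat_lit 168826700) (.two (nat_lit 1048576) (nat_lit 16784191) (.one (nat_lit 4201811) .nil))))))))),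
   .two (nat_lit 9768534207) (nat_lit 352321727) (.two (nat_lit 16777280) (nat_lit 1276117832) (.two (nat_lit 16777231) (nat_lit 11476666550) (.two (nat_lit 16777224) (nat_lit 11476667566) (.two (nat_lit 16777220) (nat_lit 202379895) (.two (nat_lit 8388609) (nat_lit 336598816) (.two (nat_lit 8388608) (nat_lit 10000274980) (.one (nat_lit 16784481) .nil))))))),
   .two (nat_lit 9768534207) (nat_lit 352321727) (.two (nat_lit 16777280) (nat_lit 1276117832) (.two (nat_lit 16777231) (nat_lit 11476666550) (.two (nat_lit 16777224) (nat_lit 11476667566) (.two (nat_lit 16777220) (nat_lit 202379895) (.two (nat_lit 8388609) (nat_lit 336598816) (.two (nat_lit 1048576) (nat_lit 4201002) (.one (nat_lit 16784481) .nil))))))),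
   .two (nat_lit 285212863) (nat_lit 9934209062) (.two (nat_lit 46474985663) (nat_lit 20753416288) (.two (nat_lit 46407876718) (nat_lit 18933089096) (.two (nat_lit 218103823) (nat_lit 19027462312) (.two (nat_lit 606076936) (nat_lit 4638904042) (.two (nat_lit 16777220) (nat_lit 10370421732) (.two (nat_lit 169869316) (nat_lit 156372047302) (.two (nat_lit 37748737) (nat_lit 9781122849) (.two (nat_lit 4194304) (nat_lit 16783823) (.one (nat_lit 2104850) .nil))))))))),
   .two (nat_lit 3527409855) (nat_lit 183962173536) (.two (nat_lit 3460300910) (nat_lit 165532402504) (.two (nat_lit 2902458383) (nat_lit 166132189352) (.two (nat_lit 37748744) (nat_lit 47588577002) (.two (nat_lit 4194308) (nat_lit 10343159238) (.two (nat_lit 4194308) (nat_lit 880807238) (.two (nat_lit 606076929) (nat_lit 654317345) (.two (nat_lit 2097152) (nat_lit 184555983) (.one (nat_lit 4201812) .nil)))))))),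
   .two (nat_lit 159217877183) (nat_lit 10947134028) (.two (nat_lit 158083317826) (nat_lit 13191086920) (.two (nat_lit 20644364303) (nat_lit 28087158969) (.two (nat_lit 11492392968) (nat_lit 4601155316) (.two (nat_lit 4194308) (nat_lit 645925352) (.two (nat_lit 708837381) (nat_lit 10519320101) (.two (nat_lit 9781116929) (nat_lit 9802094401) (.two (nat_lit 8388608) (nat_lit 4201503) (.one (nat_lit 4201080) .nil)))))))),
   .two (nat_lit 13195280575) (nat_lit 740295293) (.two (nat_lit 184419352642) (nat_lit 10504635208) (.two (nat_lit 183848927247) (nat_lit 840960182) (.two (nat_lit 9881780232) (nat_lit 28697431853) (.two (nat_lit 654311429) (nat_lit 13188993216) (.two (nat_lit 1291845636) (nat_lit 1310724874) (.two (nat_lit 620756993) (nat_lit 11007956801) (.two (nat_lit 4194304) (nat_lit 2887785503) (.one (nat_lit 2104522) .nil)))))))),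
   .two (nat_lit 50331839) (nat_lit 3524264543) (.two (nat_lit 184993972289) (nat_lit 18925749064) (.two (nat_lit 813694991) (nat_lit 11626614277) (.two (nat_lit 713031688) (nat_lit 184987684633) (.two (nat_lit 176160772) (nat_lit 11577333355) (.two (nat_lit 612368387) (nat_lit 839914626) (.two (nat_lit 34603009) (nat_lit 16783731) (.two (nat_lit 2097152) (nat_lit 184556583) (.one (nat_lit 169876810) .nil)))))))),
   .two (nat_lit 11618222437) (nat_lit 708837572) (.two (nat_lit 159232557163) (nat_lit 11618222920) (.two (nat_lit 159232557071) (nat_lit 183947495596) (.two (nat_lit 184549384) (nat_lit 10007612587) (.two (nat_lit 16777220) (nat_lit 2994738071) (.two (nat_lit 16777219) (nat_lit 11578380305) (.two (nat_lit 4194305) (nat_lit 2432702496) (.two (nat_lit 2097152) (nat_lit 4201281) (.one (nat_lit 4201675) .nil)))))))),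
   .two (nat_lit 3525312703) (nat_lit 1795162715) (.two (nat_lit 47596961858) (nat_lit 183946445640) (.two (nat_lit 9948889103) (nat_lit 28758247625) (.two (nat_lit 721420296) (nat_lit 183846833948) (.two (nat_lit 83886085) (nat_lit 156539818903) (.two (nat_lit 721420292) (nat_lit 174686474255) (.two (nat_lit 41943041) (nat_lit 10437529735) (.two (nat_lit 8388608) (nat_lit 156481100467) (.one (nat_lit 1056085) .nil)))))))),
   .two (nat_lit 183912890559) (nat_lit 874512984) (.two (nat_lit 742391873) (nat_lit 12147753428) (.two (nat_lit 339738689) (nat_lit 75498316) (.two (nat_lit 8388646) (nat_lit 840959836) (.two (nat_lit 11551113231) (nat_lit 183912891338) (.two (nat_lit 11551113231) (nat_lit 19599984865) (.two (nat_lit 46409973768) (nat_lit 9765392129) (.two (nat_lit 176160773) (nat_lit 46508544916) (.two (nat_lit 18928893955) (nat_lit 20705186435) (.two (nat_lit 156367847425) (nat_lit 11477718849) (.two (nat_lit 2097152) (nat_lit 3557825576) (.one (nat_lit 1056086) .nil))))))))))),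
   .two (nat_lit 46474985663) (nat_lit 28757196991) (.two (nat_lit 2902458435) (nat_lit 269484251) (.two (nat_lit 2902458435) (nat_lit 9772729296) (.two (nat_lit 16777254) (nat_lit 1276118309) (.two (nat_lit 158143086607) (nat_lit 1358956716) (.two (nat_lit 9934209032) (nat_lit 1913655041) (.two (nat_lit 705691652) (nat_lit 11584672660) (.two (nat_lit 606076931) (nat_lit 19033756355) (.two (nat_lit 41943041) (nat_lit 10437529735) (.two (nat_lit 8388608) (nat_lit 28758250483) (.one (nat_lit 166196157769) .nil)))))))))),
   .two (nat_lit 10376708191) (nat_lit 165525062230) (.two (nat_lit 10007609535) (nat_lit 12047089856) (.two (nat_lit 159257722917) (nat_lit 158647452900) (.two (nat_lit 8388672) (nat_lit 10940842963) (.two (nat_lit 46407876623) (nat_lit 2961181455) (.two (nat_lit 10336862216) (nat_lit 2886732948) (.two (nat_lit 46407876612) (nat_lit 1053834) (.two (nat_lit 2097153) (nat_lit 3020953633) (.two (nat_lit 2097152) (nat_lit 1055278) (.one (nat_lit 1055950) .nil))))))))),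
   .two (nat_lit 11007951039) (nat_lit 46409974119) (.two (nat_lit 2961178689) (nat_lit 2921334039) (.two (nat_lit 9768534031) (nat_lit 158075979951) (.two (nat_lit 10336862216) (nat_lit 705694894) (.two (nat_lit 10372513797) (nat_lit 156968686201) (.two (nat_lit 4194305) (nat_lit 1054544) (.two (nat_lit 1048576) (nat_lit 2961185426) (.one (nat_lit 8395985) .nil))))))),
   .two (nat_lit 11007951039) (nat_lit 46409974119) (.two (nat_lit 2961178689) (nat_lit 2921334039) (.two (nat_lit 9768534031) (nat_lit 158075979951) (.two (nat_lit 10336862216) (nat_lit 705694894) (.two (nat_lit 10372513797) (nat_lit 156968686201) (.two (nat_lit 4194305) (nat_lit 1054544) (.two (nat_lit 2097152) (nat_lit 8395985) (.one (nat_lit 8396119) .nil))))))),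
   .two (nat_lit 11007951039) (nat_lit 46409974119) (.two (nat_lit 2961178689) (nat_lit 2921334039) (.two (nat_lit 9768534031) (nat_lit 158075979951) (.two (nat_lit 10336862216) (nat_lit 705694894) (.two (nat_lit 10372513797) (nat_lit 156968686201) (.two (nat_lit 4194305) (nat_lit 1054544) (.two (nat_lit 2097152) (nat_lit 8395818) (.one (nat_lit 8396120) .nil))))))),
   .two (nat_lit 8388702) (nat_lit 12047090021) (.two (nat_lit 8388672) (nat_lit 12047090504) (.two (nat_lit 8388623) (nat_lit 10000271547) (.two (nat_lit 176160776) (nat_lit 3457158318) (.two (nat_lit 176160773) (nat_lit 46406832768) (.two (nat_lit 8388609) (nat_lit 1054545) (.two (nat_lit 2097152) (nat_lit 8395819) (.one (nat_lit 8395875) .nil))))))),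
   .two (nat_lit 28697428326) (nat_lit 4601151582) (.two (nat_lit 4601151554) (nat_lit 142607655) (.two (nat_lit 13191086095) (nat_lit 183920233241) (.two (nat_lit 18933088264) (nat_lit 620760237) (.two (nat_lit 4194308) (nat_lit 746590913) (.two (nat_lit 41943041) (nat_lit 10942945094) (.two (nat_lit 8388608) (nat_lit 16783920) (.one (nat_lit 16784596) .nil)))))))]

theorem k5 : chkL tab c5 (nat_lit 6500) = true := by decide +kernel

theorem l5 : c5.length = 1300 := by decide +kernel

end K2

end Pool.Agent.Work.MP_bf01b2_co.MR
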