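import Pool.Agent.Work.MP_bf01b2_co.MR.K2T

/-!
# Two roots in `Q_5`: certificates of the entries 7800 to 8511
-/

set_option autoImplicit false
set_option maxRecDepth 100000

namespace Pool.Agent.Work.MP_bf01b2_co.MR

namespace K2

open JT

/-- certificates of the entries 7800 to 8511 -/
def c6 : List Rc :=
  [.two (nat_lit 654311519) (nat_lit 713032305) (.two (nat_lit 21210595686) (nat_lit 3525312606) (.two (nat_lit 46474985537) (nat_lit 37249615143) (.two (nat_lit 10504634383) (nat_lit 166199298841) (.two (nat_lit 19532873736) (nat_lit 822086829) (.two (nat_lit 203423749) (nat_lit 10372518589) (.two (nat_lit 37748737) (nat_lit 28087162694) (.two (nat_lit 4194304) (nat_lit 16784428) (.one (nat_lit 16784729) .nil)))))))),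
   .two (nat_lit 8388701) (nat_lit 20637024839) (.two (nat_lit 8388799) (nat_lit 12050235584) (.two (nat_lit 8388672) (nat_lit 2920285418) (.two (nat_lit 8388623) (nat_lit 46977256286) (.two (nat_lit 50331656) (nat_lit 3020950678) (.two (nat_lit 8388612) (nat_lit 46507496128) (.two (nat_lit 16777217) (nat_lit 1054549) (.two (nat_lit 1048576) (nat_lit 8395314) (.one (nat_lit 16784485) .nil)))))))),
   .two (nat_lit 780141112) (nat_lit 11510218949) (.two (nat_lit 352321557) (nat_lit 185027527909) (.two (nat_lit 10343153700) (nat_lit 47596962262) (.two (nat_lit 10537140338) (nat_lit 1191182553) (.two (nat_lit 9933160488) (nat_lit 9781118427) (.two (nat_lit 4194312) (nat_lit 166144773266) (.two (nat_lit 4194308) (nat_lit 20737692271) (.two (nat_lit 4194305) (nat_lit 839915281) (.two (nat_lit 16777216) (nat_lit 8395586) (.one (nat_lit 8395991) .nil))))))))),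
   .two (nat_lit 10385096801) (nat_lit 46406828699) (.two (nat_lit 9906946616) (nat_lit 1309671621) (.two (nat_lit 1048645) (nat_lit 654312264) (.two (nat_lit 654311458) (nat_lit 1049923) (.two (nat_lit 806354984) (nat_lit 654312923) (.two (nat_lit 169869320) (nat_lit 19042143378) (.two (nat_lit 169869316) (nat_lit 183946449519) (.two (nat_lit 2097153) (nat_lit 9966720785) (.two (nat_lit 16777216) (nat_lit 176168151) (.one (nat_lit 8396122) .nil))))))))),
   .two (nat_lit 4605345885) (nat_lit 10942939752) (.two (nat_lit 156372041919) (nat_lit 2416967878) (.two (nat_lit 13195280420) (nat_lit 202377084) (.two (nat_lit 4605345856) (nat_lit 19529728470) (.two (nat_lit 13195280399) (nat_lit 159216831258) (.two (nat_lit 156367847432) (nat_lit 12617518816) (.two (nat_lit 8388612) (nat_lit 46977258183) (.two (nat_lit 4194305) (nat_lit 2886735703) (.two (nat_lit 1048576) (nat_lit 8395587) (.one (nat_lit 8395993) .nil))))))))),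
   .two (nat_lit 4598006344) (nat_lit 11614027972) (.two (nat_lit 276824171) (nat_lit 183913939415) (.two (nat_lit 46407876715) (nat_lit 157038936908) (.two (nat_lit 8388646) (nat_lit 11611931868) (.two (nat_lit 46407876623) (nat_lit 11517563892) (.two (nat_lit 176160784) (nat_lit 9798944961) (.two (nat_lit 8388616) (nat_lit 4631564084) (.two (nat_lit 10504634373) (nat_lit 10343159346) (.two (nat_lit 8388612) (nat_lit 336597772) (.two (nat_lit 8388609) (nat_lit 4634712627) (.two (nat_lit 8388608) (nat_lit 1055789) (.one (nat_lit 1055962) .nil))))))))))),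
   .two (nat_lit 2954887359) (nat_lit 1392509288) (.two (nat_lit 218103875) (nat_lit 11543774024) (.two (nat_lit 2969567247) (nat_lit 2953840822) (.two (nat_lit 10370416648) (nat_lit 739249913) (.two (nat_lit 1277165572) (nat_lit 12147758528) (.two (nat_lit 16777221) (nat_lit 2349862929) (.two (nat_lit 620756993) (nat_lit 28790757185) (.two (nat_lit 16777216) (nat_lit 2103427) (.one (nat_lit 1056091) .nil)))))))),
   .two (nat_lit 9772728415) (nat_lit 889192639) (.two (nat_lit 889192639) (nat_lit 9906946518) (.two (nat_lit 8388644) (nat_lit 10351543521) (.two (nat_lit 16777280) (nat_lit 780141014) (.two (nat_lit 8388623) (nat_lit 4613737294) (.two (nat_lit 9940500488) (nat_lit 158077029524) (.two (nat_lit 9873391621) (nat_lit 1411388554) (.two (nat_lit 2097153) (nat_lit 37754913) (.two (nat_lit 2097152) (nat_lit 4201284) (.one (nat_lit 4201820) .nil))))))))),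
   .two (nat_lit 9802088639) (nat_lit 2097350) (.two (nat_lit 46409973778) (nat_lit 19530778395) (.two (nat_lit 3525312621) (nat_lit 2923430352) (.two (nat_lit 306184257) (nat_lit 807403750) (.two (nat_lit 21777874959) (nat_lit 19530778842) (.two (nat_lit 4194319) (nat_lit 2988443239) (.two (nat_lit 2887778312) (nat_lit 46409977878) (.two (nat_lit 4194312) (nat_lit 2988443239) (.two (nat_lit 705691650) (nat_lit 4200087) (.two (nat_lit 34603013) (nat_lit 46409978770) (.two (nat_lit 34603009) (nat_lit 13188994505) (.two (nat_lit 1048576) (nat_lit 13188995211) (.one (nat_lit 2104669) .nil)))))))))))),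
   .two (nat_lit 156533522527) (nat_lit 104858260) (.two (nat_lit 673185983) (nat_lit 171966662) (.two (nat_lit 10506731556) (nat_lit 203424998) (.two (nat_lit 46477082733) (nat_lit 236978640) (.two (nat_lit 184986632203) (nat_lit 2954889418) (.two (nat_lit 184986632207) (nat_lit 174688569562) (.two (nat_lit 166132187142) (nat_lit 1052991) (.two (nat_lit 205520904) (nat_lit 3458207766) (.two (nat_lit 705691650) (nat_lit 169875095) (.two (nat_lit 1276116995) (nat_lit 159219979402) (.two (nat_lit 605028353) (nat_lit 1312823329) (.two (nat_lit 1048576) (nat_lit 159219980846) (.one (nat_lit 4201822) .nil)))))))))))),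
   .two (nat_lit 46474985663) (nat_lit 10942939493) (.two (nat_lit 158158815297) (nat_lit 236979442) (.two (nat_lit 13195280399) (nat_lit 10921970478) (.two (nat_lit 19532873736) (nat_lit 3539995822) (.two (nat_lit 809500677) (nat_lit 2894075021) (.two (nat_lit 8388609) (nat_lit 2889881432) (.two (nat_lit 4194304) (nat_lit 16784197) (.one (nat_lit 16784735) .nil))))))),
   .two (nat_lit 8388799) (nat_lit 37329306215) (.two (nat_lit 8388672) (nat_lit 4027581718) (.two (nat_lit 612368399) (nat_lit 11006905162) (.two (nat_lit 620757000) (nat_lit 1377832701) (.two (nat_lit 721420292) (nat_lit 2350912641) (.two (nat_lit 50331649) (nat_lit 11544825973) (.two (nat_lit 8388608) (nat_lit 4043314745) (.one (nat_lit 1056096) .nil))))))),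
   .two (nat_lit 9772728415) (nat_lit 20638073415) (.two (nat_lit 47582282291) (nat_lit 1786773701) (.two (nat_lit 8388644) (nat_lit 20638074073) (.two (nat_lit 46474985510) (nat_lit 156548205991) (.two (nat_lit 8388623) (nat_lit 11511270190) (.two (nat_lit 11492392968) (nat_lit 10001322761) (.two (nat_lit 11492392968) (nat_lit 10001322761) (.two (nat_lit 174755676165) (nat_lit 8394392) (.two (nat_lit 9781116929) (nat_lit 4638906633) (.two (nat_lit 16777216) (nat_lit 4201286) (.one (nat_lit 4201825) .nil)))))))))),
   .two (nat_lit 46474985663) (nat_lit 158146232678) (.two (nat_lit 158158815297) (nat_lit 46508541166) (.two (nat_lit 822083599) (nat_lit 166237047598) (.two (nat_lit 158158815240) (nat_lit 1920994452) (.two (nat_lit 13191086085) (nat_lit 46422561933) (.two (nat_lit 16777217) (nat_lit 46409979736) (.two (nat_lit 4194304) (nat_lit 343939909) (.one (nat_lit 2104674) .nil))))))),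
   .two (nat_lit 847249599) (nat_lit 3527410504) (.two (nat_lit 46980399171) (nat_lit 11511269549) (.two (nat_lit 2889875471) (nat_lit 8392418) (.two (nat_lit 306184204) (nat_lit 11618226183) (.two (nat_lit 272629765) (nat_lit 8394139) (.two (nat_lit 2097153) (nat_lit 18928900956) (.one (nat_lit 2104689) .nil)))))),
   .two (nat_lit 822083775) (nat_lit 46980399944) (.two (nat_lit 4601151555) (nat_lit 9781118427) (.two (nat_lit 822083599) (nat_lit 10338962579) (.two (nat_lit 11559501836) (nat_lit 21210600047) (.two (nat_lit 4601151493) (nat_lit 9814676354) (.two (nat_lit 4194305) (nat_lit 16784225) (.one (nat_lit 1178606951) .nil)))))),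
   .two (nat_lit 159257723237) (nat_lit 159251432924) (.two (nat_lit 169869327) (nat_lit 1283460242) (.two (nat_lit 4194312) (nat_lit 2101876) (.two (nat_lit 8388612) (nat_lit 1054456) (.two (nat_lit 2097153) (nat_lit 1055116) (.two (nat_lit 1048576) (nat_lit 4201317) (.one (nat_lit 1056114) .nil)))))),
   .two (nat_lit 3036676454) (nat_lit 184993973723) (.two (nat_lit 156367847439) (nat_lit 19100863633) (.two (nat_lit 713031688) (nat_lit 16781941) (.two (nat_lit 1178599429) (nat_lit 8394489) (.two (nat_lit 4194305) (nat_lit 8395144) (.two (nat_lit 4194304) (nat_lit 8395622) (.one (nat_lit 8396147) .nil)))))),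
   .two (nat_lit 13237223615) (nat_lit 4195146) (.two (nat_lit 183845781620) (nat_lit 654312923) (.two (nat_lit 19596836879) (nat_lit 9915337874) (.two (nat_lit 46407876616) (nat_lit 183861514246) (.two (nat_lit 34603013) (nat_lit 16782209) (.two (nat_lit 2097153) (nat_lit 50337885) (.two (nat_lit 2097152) (nat_lit 9933167456) (.one (nat_lit 16784756) .nil))))))),
   .two (nat_lit 156365750629) (nat_lit 184993973723) (.two (nat_lit 50331663) (nat_lit 12155096210) (.two (nat_lit 158083317768) (nat_lit 20637028975) (.two (nat_lit 3472883717) (nat_lit 1786779739) (.two (nat_lit 1048576) (nat_lit 2104169) (.one (nat_lit 2104693) .nil))))),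
   .two (nat_lit 13237223615) (nat_lit 156971828040) (.two (nat_lit 28693233729) (nat_lit 285214171) (.two (nat_lit 10336862223) (nat_lit 10955525265) (.two (nat_lit 28693233672) (nat_lit 158662135814) (.two (nat_lit 1178599429) (nat_lit 83892317) (.two (nat_lit 2097152) (nat_lit 104864608) (.one (nat_lit 16784758) .nil)))))),
   .two (nat_lit 880804031) (nat_lit 4195556) (.two (nat_lit 1358954563) (nat_lit 9768535515) (.two (nat_lit 13191086095) (nat_lit 11618225293) (.two (nat_lit 159224168456) (nat_lit 157038940788) (.two (nat_lit 4194308) (nat_lit 8394490) (.two (nat_lit 620756993) (nat_lit 11010054235) (.two (nat_lit 16777216) (nat_lit 4201322) (.one (nat_lit 4201847) .nil))))))),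
   .two (nat_lit 156581757119) (nat_lit 9802089947) (.two (nat_lit 2902458383) (nat_lit 158079126673) (.two (nat_lit 4601151496) (nat_lit 251662342) (.two (nat_lit 4194308) (nat_lit 218110045) (.two (nat_lit 8388608) (nat_lit 4201312) (.one (nat_lit 4201848) .nil))))),
   .two (nat_lit 2969567423) (nat_lit 20745028426) (.two (nat_lit 3573547075) (nat_lit 20711475376) (.two (nat_lit 47555018767) (nat_lit 673189010) (.two (nat_lit 16777224) (nat_lit 2101878) (.two (nat_lit 176160773) (nat_lit 2103035) (.two (nat_lit 2097153) (nat_lit 8395149) (.two (nat_lit 2097152) (nat_lit 8395627) (.one (nat_lit 2104697) .nil))))))),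
   .two (nat_lit 156581757119) (nat_lit 9802089947) (.two (nat_lit 2902458383) (nat_lit 158079126673) (.two (nat_lit 4601151496) (nat_lit 251662342) (.two (nat_lit 4194308) (nat_lit 2902464605) (.two (nat_lit 4194304) (nat_lit 16784236) (.one (nat_lit 16784762) .nil))))),
   .two (nat_lit 166130090341) (nat_lit 4195557) (.two (nat_lit 21214789697) (nat_lit 2099377) (.two (nat_lit 11492392975) (nat_lit 2100963) (.two (nat_lit 11492392968) (nat_lit 2102367) (.two (nat_lit 708837381) (nat_lit 41948568) (.two (nat_lit 606076929) (nat_lit 4200841) (.two (nat_lit 2097152) (nat_lit 4201325) (.one (nat_lit 2104699) .nil))))))),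
   .two (nat_lit 21827158207) (nat_lit 37246468936) (.two (nat_lit 11559501888) (nat_lit 1779435733) (.two (nat_lit 117440527) (nat_lit 185020190501) (.two (nat_lit 11492392968) (nat_lit 183912895644) (.two (nat_lit 171966469) (nat_lit 16783457) (.two (nat_lit 4194304) (nat_lit 1175460704) (.one (nat_lit 272637309) .nil)))))),
   .two (nat_lit 4647289023) (nat_lit 37749578) (.two (nat_lit 3460300916) (nat_lit 117442011) (.two (nat_lit 47563407375) (nat_lit 1411387190) (.two (nat_lit 3539992584) (nat_lit 9802093261) (.two (nat_lit 171966469) (nat_lit 16782209) (.two (nat_lit 4194305) (nat_lit 16783453) (.two (nat_lit 1048576) (nat_lit 2104154) (.one (nat_lit 1056183) .nil))))))),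
   .two (nat_lit 4647289023) (nat_lit 37749578) (.two (nat_lit 337641586) (nat_lit 117442011) (.two (nat_lit 4613734415) (nat_lit 11614031670) (.two (nat_lit 3539992584) (nat_lit 673190605) (.two (nat_lit 2097157) (nat_lit 721426525) (.two (nat_lit 1048576) (nat_lit 2104154) (.one (nat_lit 1055976) .nil)))))),
   .two (nat_lit 46474985663) (nat_lit 4034921682) (.two (nat_lit 4194369) (nat_lit 9806284251) (.two (nat_lit 4194319) (nat_lit 13228839600) (.two (nat_lit 4194308) (nat_lit 2886735980) (.two (nat_lit 4194304) (nat_lit 1055848) (.one (nat_lit 16784824) .nil))))),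
   .two (nat_lit 156372041919) (nat_lit 2316305639) (.two (nat_lit 4194369) (nat_lit 46984595641) (.two (nat_lit 4194319) (nat_lit 1377833590) (.two (nat_lit 4194308) (nat_lit 156533527962) (.two (nat_lit 4194305) (nat_lit 157035796900) (.two (nat_lit 1048576) (nat_lit 4201577) (.one (nat_lit 1056185) .nil)))))),
   .two (nat_lit 156372041919) (nat_lit 2987394326) (.two (nat_lit 4194369) (nat_lit 156372043943) (.two (nat_lit 4194319) (nat_lit 847253228) (.two (nat_lit 4194312) (nat_lit 9974059663) (.two (nat_lit 4194308) (nat_lit 1411389239) (.two (nat_lit 2097153) (nat_lit 34609253) (.two (nat_lit 2097152) (nat_lit 10338966420) (.one (nat_lit 1056186) .nil))))))),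
   .two (nat_lit 9781117119) (nat_lit 1410335560) (.two (nat_lit 285212736) (nat_lit 1846544559) (.two (nat_lit 4194319) (nat_lit 889196268) (.two (nat_lit 4194312) (nat_lit 159266116239) (.two (nat_lit 4194308) (nat_lit 21811435629) (.two (nat_lit 1048576) (nat_lit 11611937647) (.one (nat_lit 1055974) .nil)))))),
   .two (nat_lit 8388799) (nat_lit 47548728137) (.two (nat_lit 8388672) (nat_lit 185020188867) (.two (nat_lit 8388623) (nat_lit 28087160635) (.two (nat_lit 75497480) (nat_lit 11614032546) (.two (nat_lit 11546918917) (nat_lit 11610888007) (.two (nat_lit 2097153) (nat_lit 11479816646) (.two (nat_lit 4194304) (nat_lit 174686477538) .nil)))))),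
   .two (nat_lit 889192639) (nat_lit 47555020251) (.two (nat_lit 176160783) (nat_lit 184552589) (.two (nat_lit 47555018760) (nat_lit 13188993657) (.two (nat_lit 176160772) (nat_lit 3573552536) (.two (nat_lit 2097153) (nat_lit 1417681827) (.one (nat_lit 2357206383) .nil))))),
   .two (nat_lit 9948889279) (nat_lit 20737688394) (.two (nat_lit 2969567296) (nat_lit 2416970900) (.two (nat_lit 4194312) (nat_lit 13237227532) (.two (nat_lit 171966469) (nat_lit 47596967322) (.two (nat_lit 4194305) (nat_lit 3020953701) (.two (nat_lit 4194304) (nat_lit 47581240163) (.one (nat_lit 9936313891) .nil)))))),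
   .two (nat_lit 4647289023) (nat_lit 37316724937) (.two (nat_lit 9781116943) (nat_lit 12048142643) (.two (nat_lit 169869320) (nat_lit 4199070) (.two (nat_lit 169869316) (nat_lit 47563413278) (.two (nat_lit 34603009) (nat_lit 4632615319) (.two (nat_lit 1048576) (nat_lit 4632615803) (.one (nat_lit 2104763) .nil)))))),
   .two (nat_lit 4605345983) (nat_lit 3003122966) (.two (nat_lit 721420353) (nat_lit 46414170281) (.two (nat_lit 8388623) (nat_lit 47596965641) (.two (nat_lit 721420296) (nat_lit 2961182730) (.two (nat_lit 620756997) (nat_lit 8394602) (.two (nat_lit 8388609) (nat_lit 16784069) (.two (nat_lit 16777216) (nat_lit 8395882) (.one (nat_lit 8396220) .nil))))))),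
   .two (nat_lit 8388799) (nat_lit 2902459609) (.two (nat_lit 8388672) (nat_lit 11626612944) (.two (nat_lit 16777231) (nat_lit 46414172167) (.two (nat_lit 1913651205) (nat_lit 10351548235) (.two (nat_lit 50331649) (nat_lit 11577334695) (.one (nat_lit 34610583) .nil))))),
   .two (nat_lit 8388799) (nat_lit 2954888424) (.two (nat_lit 4638900290) (nat_lit 19599985816) (.two (nat_lit 4194312) (nat_lit 236982892) (.two (nat_lit 176160772) (nat_lit 639636906) (.two (nat_lit 8388609) (nat_lit 638589852) (.one (nat_lit 1056189) .nil))))),
   .two (nat_lit 9967763647) (nat_lit 10913579848) (.two (nat_lit 2988441666) (nat_lit 47555020974) (.two (nat_lit 9934209039) (nat_lit 158150431394) (.two (nat_lit 46407876612) (nat_lit 3531609934) (.two (nat_lit 2097153) (nat_lit 159257729944) (.one (nat_lit 2104767) .nil))))),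
   .two (nat_lit 4601151679) (nat_lit 8389864) (.two (nat_lit 46414168131) (nat_lit 1310723245) (.two (nat_lit 12050235400) (nat_lit 12624859837) (.two (nat_lit 183848927236) (nat_lit 2103147) (.two (nat_lit 4194305) (nat_lit 1055431) (.two (nat_lit 8388608) (nat_lit 706747469) (.one (nat_lit 4201920) .nil)))))),
   .two (nat_lit 50331839) (nat_lit 13228835658) (.two (nat_lit 16777280) (nat_lit 142608558) (.two (nat_lit 16777231) (nat_lit 1350569107) (.two (nat_lit 620757000) (nat_lit 166237049985) (.two (nat_lit 612368389) (nat_lit 20705187934) (.two (nat_lit 16777216) (nat_lit 276831102) (.one (nat_lit 2104769) .nil)))))),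
   .two (nat_lit 50331839) (nat_lit 1276117832) (.two (nat_lit 16777280) (nat_lit 158150428879) (.two (nat_lit 16777231) (nat_lit 813698222) (.two (nat_lit 612368392) (nat_lit 159216833188) (.two (nat_lit 176160772) (nat_lit 168826703) (.two (nat_lit 8388609) (nat_lit 303045081) (.two (nat_lit 8388608) (nat_lit 9781123973) (.one (nat_lit 1056194) .nil))))))),
   .two (nat_lit 47582281919) (nat_lit 1312818401) (.two (nat_lit 3527409728) (nat_lit 2887781119) (.two (nat_lit 11551113231) (nat_lit 19532876971) (.two (nat_lit 9766436872) (nat_lit 13191090187) (.two (nat_lit 13195280389) (nat_lit 4030731672) (.two (nat_lit 156372041729) (nat_lit 1916803535) (.two (nat_lit 2097152) (nat_lit 8395697) (.one (nat_lit 4201923) .nil))))))),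
   .two (nat_lit 9768534207) (nat_lit 270533450) (.two (nat_lit 16777280) (nat_lit 4634709145) (.two (nat_lit 16777224) (nat_lit 2889880235) (.two (nat_lit 612368389) (nat_lit 3036681639) (.two (nat_lit 16777217) (nat_lit 174692768607) (.one (nat_lit 4201924) .nil))))),
   .two (nat_lit 21781021030) (nat_lit 19026412782) (.two (nat_lit 185002360897) (nat_lit 135268538) (.two (nat_lit 9781116943) (nat_lit 10000273153) (.two (nat_lit 11559501832) (nat_lit 2418021022) (.two (nat_lit 11559501829) (nat_lit 136320787) (.two (nat_lit 2097153) (nat_lit 1055432) (.two (nat_lit 2097152) (nat_lit 1279269969) (.one (nat_lit 2104773) .nil))))))),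
   .two (nat_lit 50331839) (nat_lit 28093449481) (.two (nat_lit 16777280) (nat_lit 880806103) (.two (nat_lit 16777231) (nat_lit 1216351390) (.two (nat_lit 713031688) (nat_lit 3024097908) (.two (nat_lit 3527409669) (nat_lit 159266117439) (.two (nat_lit 4194305) (nat_lit 2994739652) (.two (nat_lit 8388608) (nat_lit 4201580) (.one (nat_lit 2994740633) .nil))))))),
   .two (nat_lit 156569174207) (nat_lit 20637025508) (.two (nat_lit 272629824) (nat_lit 2920287064) (.two (nat_lit 272629775) (nat_lit 19127078718) (.two (nat_lit 4194312) (nat_lit 847253512) (.two (nat_lit 4194308) (nat_lit 2920290413) (.two (nat_lit 1048576) (nat_lit 4201394) (.one (nat_lit 8396230) .nil)))))),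
   .two (nat_lit 8388799) (nat_lit 11492394201) (.two (nat_lit 11618222145) (nat_lit 46523222857) (.two (nat_lit 50331663) (nat_lit 12121542662) (.two (nat_lit 822083589) (nat_lit 156372047263) (.two (nat_lit 50331649) (nat_lit 168827273) (.two (nat_lit 1048576) (nat_lit 184556379) (.one (nat_lit 168828316) .nil)))))),
   .two (nat_lit 41943231) (nat_lit 721421529) (.two (nat_lit 8388672) (nat_lit 46523222224) (.two (nat_lit 16777231) (nat_lit 19537072134) (.two (nat_lit 8388613) (nat_lit 20753422144) (.two (nat_lit 8388609) (nat_lit 10336869274) (.one (nat_lit 2104776) .nil))))),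
   .two (nat_lit 620757349) (nat_lit 8389935) (.two (nat_lit 184549441) (nat_lit 9806285974) (.two (nat_lit 176160776) (nat_lit 185035919372) (.two (nat_lit 176160772) (nat_lit 47596967321) (.two (nat_lit 9781116929) (nat_lit 156472712031) (.one (nat_lit 47588580717) .nil))))),
   .two (nat_lit 13224640703) (nat_lit 2927625462) (.two (nat_lit 1753219139) (nat_lit 46510639898) (.two (nat_lit 37748751) (nat_lit 310382600) (.two (nat_lit 2887778308) (nat_lit 4634711848) (.two (nat_lit 2097153) (nat_lit 37755826) (.one (nat_lit 2104554) .nil))))),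
   .two (nat_lit 13191086271) (nat_lit 336594172) (.two (nat_lit 4634705985) (nat_lit 12115249334) (.two (nat_lit 1277165583) (nat_lit 1916800816) (.two (nat_lit 9867100168) (nat_lit 1779438203) (.two (nat_lit 12117344261) (nat_lit 1054572) (.two (nat_lit 156367847425) (nat_lit 11577334203) (.two (nat_lit 4194304) (nat_lit 28691143547) (.one (nat_lit 10437533115) .nil))))))),
   .two (nat_lit 336593254) (nat_lit 654312264) (.two (nat_lit 4194370) (nat_lit 9781120141) (.two (nat_lit 37748744) (nat_lit 11492397685) (.two (nat_lit 4194308) (nat_lit 16783213) (.two (nat_lit 156365750273) (nat_lit 3020954310) (.two (nat_lit 1048576) (nat_lit 2104429) (.one (nat_lit 1056201) .nil)))))),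
   .two (nat_lit 9781117119) (nat_lit 46508540746) (.two (nat_lit 285212736) (nat_lit 2100013) (.two (nat_lit 169869327) (nat_lit 11492396175) (.two (nat_lit 9781116936) (nat_lit 236982933) (.two (nat_lit 34603013) (nat_lit 183962178970) (.two (nat_lit 34603009) (nat_lit 156567083434) (.two (nat_lit 1048576) (nat_lit 740301711) (.one (nat_lit 2104778) .nil))))))),
   .two (nat_lit 8388799) (nat_lit 1358955336) (.two (nat_lit 8388672) (nat_lit 20719864015) (.two (nat_lit 41943055) (nat_lit 285215918) (.two (nat_lit 620757000) (nat_lit 165532406438) (.two (nat_lit 721420293) (nat_lit 165525067513) (.two (nat_lit 16777217) (nat_lit 1182800773) (.one (nat_lit 1056203) .nil)))))),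
   .two (nat_lit 654311615) (nat_lit 10504635653) (.two (nat_lit 2969567296) (nat_lit 174753581227) (.two (nat_lit 2969567247) (nat_lit 28087159955) (.two (nat_lit 1795162120) (nat_lit 20737692819) (.two (nat_lit 2097157) (nat_lit 16783455) (.two (nat_lit 1048576) (nat_lit 203430746) (.one (nat_lit 203431335) .nil)))))),
   .two (nat_lit 13237223615) (nat_lit 9802089288) (.two (nat_lit 2969567296) (nat_lit 10907289815) (.two (nat_lit 822083599) (nat_lit 306187435) (.two (nat_lit 46409973768) (nat_lit 20652756998) (.two (nat_lit 2954887173) (nat_lit 721426525) (.two (nat_lit 2097152) (nat_lit 71310170) (.one (nat_lit 69213623) .nil)))))),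
   .two (nat_lit 285212863) (nat_lit 3560964938) (.two (nat_lit 285212736) (nat_lit 843056603) (.two (nat_lit 285212687) (nat_lit 12050238627) (.two (nat_lit 4194312) (nat_lit 21827162123) (.two (nat_lit 654311429) (nat_lit 156532479847) (.two (nat_lit 37748737) (nat_lit 1947211877) (.two (nat_lit 1048576) (nat_lit 46510644131) (.one (nat_lit 1056205) .nil))))))),
   .two (nat_lit 50331839) (nat_lit 8390555) (.two (nat_lit 16777280) (nat_lit 1384122561) (.two (nat_lit 16777231) (nat_lit 1417678649) (.two (nat_lit 620757000) (nat_lit 9806287566) (.two (nat_lit 75497477) (nat_lit 1291851177) (.two (nat_lit 8388609) (nat_lit 16783839) (.two (nat_lit 16777216) (nat_lit 880810840) (.one (nat_lit 8396238) .nil))))))),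
   .two (nat_lit 8388799) (nat_lit 2902459607) (.two (nat_lit 28757196867) (nat_lit 47555020973) (.two (nat_lit 75497487) (nat_lit 10906242878) (.two (nat_lit 620757000) (nat_lit 158150430726) (.two (nat_lit 620756997) (nat_lit 10343159199) (.two (nat_lit 50331649) (nat_lit 1376786530) (.two (nat_lit 8388608) (nat_lit 2316311448) (.one (nat_lit 68165020) .nil))))))),
   .two (nat_lit 9768534207) (nat_lit 50333147) (.two (nat_lit 272629775) (nat_lit 185002364067) (.two (nat_lit 641728520) (nat_lit 19142808224) (.two (nat_lit 2969567237) (nat_lit 10540291924) (.two (nat_lit 612368385) (nat_lit 19532880307) (.two (nat_lit 8388608) (nat_lit 2902465443) (.one (nat_lit 4201936) .nil)))))),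
   .two (nat_lit 21785215167) (nat_lit 1745880296) (.two (nat_lit 9974054979) (nat_lit 156533523931) (.two (nat_lit 75497487) (nat_lit 337645881) (.two (nat_lit 46407876616) (nat_lit 1954550659) (.two (nat_lit 2097153) (nat_lit 243275884) (.two (nat_lit 1048576) (nat_lit 46407883609) (.one (nat_lit 2104785) .nil)))))),
   .two (nat_lit 50331839) (nat_lit 13228835658) (.two (nat_lit 352321603) (nat_lit 158083320023) (.two (nat_lit 612368399) (nat_lit 4613739133) (.two (nat_lit 176160772) (nat_lit 184555332) (.two (nat_lit 8388609) (nat_lit 169876381) (.one (nat_lit 2104786) .nil))))),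
   .two (nat_lit 620757183) (nat_lit 159257723722) (.two (nat_lit 16777280) (nat_lit 184993974443) (.two (nat_lit 16777231) (nat_lit 165528211251) (.two (nat_lit 41943048) (nat_lit 19042144262) (.two (nat_lit 8388612) (nat_lit 1346377527) (.two (nat_lit 8388609) (nat_lit 21814581349) (.two (nat_lit 4194304) (nat_lit 8395886) (.one (nat_lit 4201939) .nil))))))),
   .two (nat_lit 10015998143) (nat_lit 159224169947) (.two (nat_lit 16777231) (nat_lit 239079146) (.two (nat_lit 16777224) (nat_lit 641733310) (.two (nat_lit 713031685) (nat_lit 20719867298) (.two (nat_lit 8388609) (nat_lit 272636376) (.two (nat_lit 4194304) (nat_lit 343940003) (.one (nat_lit 8396244) .nil)))))),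
   .two (nat_lit 2969567423) (nat_lit 183949591368) (.two (nat_lit 16777283) (nat_lit 21210597551) (.two (nat_lit 184549391) (nat_lit 184419357348) (.two (nat_lit 184549380) (nat_lit 46477088591) (.two (nat_lit 16777217) (nat_lit 166132193671) (.two (nat_lit 4194304) (nat_lit 18941483895) (.one (nat_lit 4201942) .nil)))))),
   .two (nat_lit 809500863) (nat_lit 18933089096) (.two (nat_lit 272629826) (nat_lit 310380718) (.two (nat_lit 37748751) (nat_lit 19100865410) (.two (nat_lit 2097153) (nat_lit 343939958) (.one (nat_lit 8396179) .nil)))),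
   .two (nat_lit 159266111679) (nat_lit 158144136008) (.two (nat_lit 20753416259) (nat_lit 21208500439) (.two (nat_lit 11479810063) (nat_lit 9781120164) (.two (nat_lit 9781116936) (nat_lit 2956988422) (.two (nat_lit 2954887173) (nat_lit 1916802827) (.two (nat_lit 2097153) (nat_lit 4201366) (.one (nat_lit 4201876) .nil)))))),
   .two (nat_lit 654311615) (nat_lit 156968682719) (.two (nat_lit 156581756995) (nat_lit 46510639982) (.two (nat_lit 11492392975) (nat_lit 641733319) (.two (nat_lit 16777220) (nat_lit 1054574) (.two (nat_lit 4194305) (nat_lit 2953845672) (.one (nat_lit 1056215) .nil))))),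
   .two (nat_lit 8388799) (nat_lit 158146233568) (.two (nat_lit 8388672) (nat_lit 2920286422) (.two (nat_lit 8388623) (nat_lit 158646406291) (.two (nat_lit 8388616) (nat_lit 202379939) (.two (nat_lit 1795162117) (nat_lit 269489967) (.two (nat_lit 156364701697) (nat_lit 11525954461) (.one (nat_lit 183946452368) .nil)))))),
   .two (nat_lit 809500863) (nat_lit 721421529) (.two (nat_lit 272629824) (nat_lit 46523222224) (.two (nat_lit 16777231) (nat_lit 807407407) (.two (nat_lit 272629768) (nat_lit 20638077639) (.two (nat_lit 16777220) (nat_lit 4200303) (.two (nat_lit 4194305) (nat_lit 16784074) (.two (nat_lit 2097152) (nat_lit 4201583) (.one (nat_lit 2104728) .nil))))))),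
   .two (nat_lit 822083775) (nat_lit 11479811318) (.two (nat_lit 285212736) (nat_lit 272632649) (.two (nat_lit 50331663) (nat_lit 10003419452) (.two (nat_lit 68157448) (nat_lit 20753420300) (.two (nat_lit 605028357) (nat_lit 19142808985) (.two (nat_lit 34603009) (nat_lit 9781123495) (.two (nat_lit 4194304) (nat_lit 739253139) (.one (nat_lit 1056216) .nil))))))),
   .two (nat_lit 28757196991) (nat_lit 1277167830) (.two (nat_lit 2961178639) (nat_lit 13222548086) (.two (nat_lit 746586117) (nat_lit 158176646928) (.two (nat_lit 605028353) (nat_lit 10370423706) (.one (nat_lit 1056218) .nil)))),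
   .two (nat_lit 11584667839) (nat_lit 166196151113) (.two (nat_lit 166230753394) (nat_lit 3524266162) (.two (nat_lit 1343225871) (nat_lit 10443820177) (.two (nat_lit 705691656) (nat_lit 713035784) (.two (nat_lit 34603013) (nat_lit 343938468) (.two (nat_lit 2097153) (nat_lit 705698233) (.two (nat_lit 2097152) (nat_lit 1055669) (.one (nat_lit 1056219) .nil))))))),
   .two (nat_lit 2994733247) (nat_lit 28758246217) (.two (nat_lit 10437525571) (nat_lit 10343156497) (.two (nat_lit 9934209039) (nat_lit 10913582237) (.two (nat_lit 169869320) (nat_lit 176164872) (.two (nat_lit 169869316) (nat_lit 9806288283) (.two (nat_lit 34603009) (nat_lit 169875897) (.two (nat_lit 1048576) (nat_lit 35658677) (.one (nat_lit 2104796) .nil))))))),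
   .two (nat_lit 156581757119) (nat_lit 1212154696) (.two (nat_lit 4647288898) (nat_lit 10338961615) (.two (nat_lit 285212687) (nat_lit 843058347) (.two (nat_lit 183848927240) (nat_lit 9915338758) (.two (nat_lit 13191086085) (nat_lit 9814676354) (.two (nat_lit 8388609) (nat_lit 608181082) (.one (nat_lit 16784861) .nil)))))),
   .two (nat_lit 4647289023) (nat_lit 4196252) (.two (nat_lit 285212736) (nat_lit 339741559) (.two (nat_lit 4194319) (nat_lit 20753420300) (.two (nat_lit 171966469) (nat_lit 19142808985) (.two (nat_lit 4194305) (nat_lit 1055200) (.two (nat_lit 4194304) (nat_lit 16784310) (.one (nat_lit 1056222) .nil)))))),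
   .two (nat_lit 822083775) (nat_lit 2889876726) (.two (nat_lit 285212736) (nat_lit 843058346) (.two (nat_lit 11479810056) (nat_lit 20652756998) (.two (nat_lit 16777220) (nat_lit 272635705) (.two (nat_lit 2097153) (nat_lit 654317971) (.two (nat_lit 2097152) (nat_lit 37316729745) (.one (nat_lit 203431310) .nil)))))),
   .two (nat_lit 47596961983) (nat_lit 10940844247) (.two (nat_lit 1191182351) (nat_lit 28758249807) (.two (nat_lit 47563407368) (nat_lit 159251436156) (.two (nat_lit 2097157) (nat_lit 83892321) (.two (nat_lit 1048576) (nat_lit 740301658) (.one (nat_lit 2104799) .nil))))),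
   .two (nat_lit 343933119) (nat_lit 11559503064) (.two (nat_lit 176160835) (nat_lit 47563409588) (.two (nat_lit 620757007) (nat_lit 880807940) (.two (nat_lit 176160772) (nat_lit 16783217) (.two (nat_lit 8388609) (nat_lit 16784075) (.two (nat_lit 8388608) (nat_lit 16784311) (.one (nat_lit 41950629) .nil)))))),
   .two (nat_lit 4601151679) (nat_lit 9967764705) (.two (nat_lit 2954887232) (nat_lit 1779435722) (.two (nat_lit 809500687) (nat_lit 10369371909) (.two (nat_lit 3460300808) (nat_lit 1277170299) (.two (nat_lit 47550824453) (nat_lit 2103154) (.two (nat_lit 4194305) (nat_lit 1276123543) (.two (nat_lit 4194304) (nat_lit 1276124027) (.one (nat_lit 28790758626) .nil))))))),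
   .two (nat_lit 21827158207) (nat_lit 37246468936) (.two (nat_lit 12163481666) (nat_lit 1209010383) (.two (nat_lit 754974735) (nat_lit 19093523627) (.two (nat_lit 158158815240) (nat_lit 28790755964) (.two (nat_lit 1913651205) (nat_lit 2432701314) (.two (nat_lit 9768534017) (nat_lit 269491034) (.one (nat_lit 16784865) .nil)))))),
   .two (nat_lit 4601151679) (nat_lit 9967764705) (.two (nat_lit 2954887232) (nat_lit 1779435722) (.two (nat_lit 809500687) (nat_lit 10369371909) (.two (nat_lit 28758245384) (nat_lit 183848932017) (.two (nat_lit 2956984325) (nat_lit 270538610) (.two (nat_lit 4194305) (nat_lit 10369374615) (.two (nat_lit 1048576) (nat_lit 10372520813) (.one (nat_lit 28790758626) .nil))))))),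
   .two (nat_lit 16777407) (nat_lit 158083318600) (.two (nat_lit 352321602) (nat_lit 9940502719) (.two (nat_lit 184549391) (nat_lit 174759873683) (.two (nat_lit 620757000) (nat_lit 713036482) (.two (nat_lit 159224168453) (nat_lit 156380435330) (.two (nat_lit 16777217) (nat_lit 1920997770) (.two (nat_lit 8388608) (nat_lit 16784312) (.one (nat_lit 16784866) .nil))))))),
   .two (nat_lit 16777407) (nat_lit 28093449033) (.two (nat_lit 16777280) (nat_lit 10343154171) (.two (nat_lit 16777280) (nat_lit 157043131342) (.two (nat_lit 16777231) (nat_lit 46510637572) (.two (nat_lit 16777231) (nat_lit 10947135073) (.two (nat_lit 20644364296) (nat_lit 1291849735) (.two (nat_lit 184549381) (nat_lit 612372603) (.two (nat_lit 16777220) (nat_lit 20740837501) (.two (nat_lit 16777217) (nat_lit 46510642141) (.two (nat_lit 4194304) (nat_lit 276830395) (.one (nat_lit 4200665) .nil)))))))))),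
   .two (nat_lit 16777407) (nat_lit 28093449033) (.two (nat_lit 16777280) (nat_lit 10343154171) (.two (nat_lit 16777280) (nat_lit 157043131342) (.two (nat_lit 620757026) (nat_lit 2994735278) (.two (nat_lit 16777231) (nat_lit 10947135073) (.two (nat_lit 16777231) (nat_lit 10544483508) (.two (nat_lit 20644364296) (nat_lit 1291849735) (.two (nat_lit 16777220) (nat_lit 20740837501) (.two (nat_lit 159224168453) (nat_lit 16780702) (.two (nat_lit 612368385) (nat_lit 156380434623) (.two (nat_lit 4194304) (nat_lit 276830394) (.one (nat_lit 272636552) .nil))))))))))),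
   .two (nat_lit 16777407) (nat_lit 28093449033) (.two (nat_lit 16777280) (nat_lit 157043131342) (.two (nat_lit 184549411) (nat_lit 2994735278) (.two (nat_lit 620757026) (nat_lit 2994735278) (.two (nat_lit 16777231) (nat_lit 10544483508) (.two (nat_lit 47563407377) (nat_lit 21785218835) (.two (nat_lit 20644364296) (nat_lit 1291849735) (.two (nat_lit 159224168453) (nat_lit 16780702) (.two (nat_lit 612368387) (nat_lit 16782209) (.two (nat_lit 612368385) (nat_lit 156380434622) (.two (nat_lit 4194304) (nat_lit 276830393) (.one (nat_lit 9768541421) .nil))))))))))),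
   .two (nat_lit 50331839) (nat_lit 10343154505) (.two (nat_lit 16777280) (nat_lit 2424308686) (.two (nat_lit 184549411) (nat_lit 20644366539) (.two (nat_lit 620757026) (nat_lit 20644366539) (.two (nat_lit 721420303) (nat_lit 19134418100) (.two (nat_lit 4605345808) (nat_lit 1795165336) (.two (nat_lit 46414168072) (nat_lit 19042144262) (.two (nat_lit 4605345797) (nat_lit 16780702) (.two (nat_lit 8388611) (nat_lit 16782209) (.two (nat_lit 8388609) (nat_lit 156380434622) (.two (nat_lit 1048576) (nat_lit 11551119545) (.one (nat_lit 9765395693) .nil))))))))))),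
   .two (nat_lit 2969567326) (nat_lit 169870154) (.two (nat_lit 3573547365) (nat_lit 10370418274) (.two (nat_lit 2969567268) (nat_lit 3558869168) (.two (nat_lit 654311458) (nat_lit 2098133) (.two (nat_lit 46407876623) (nat_lit 3036679318) (.two (nat_lit 184549382) (nat_lit 47582286452) (.two (nat_lit 46407876616) (nat_lit 11559504354) (.two (nat_lit 2097157) (nat_lit 16782209) (.two (nat_lit 2097153) (nat_lit 721426524) (.two (nat_lit 1048576) (nat_lit 50338404) (.one (nat_lit 1276123353) .nil)))))))))),
   .two (nat_lit 4601151679) (nat_lit 166130090203) (.two (nat_lit 169869350) (nat_lit 16778056) (.two (nat_lit 285212737) (nat_lit 2953839572) (.two (nat_lit 2902458435) (nat_lit 183946445781) (.two (nat_lit 4194319) (nat_lit 16778244) (.two (nat_lit 4194319) (nat_lit 16778848) (.two (nat_lit 4194312) (nat_lit 156567081085) (.two (nat_lit 4194312) (nat_lit 156567081085) (.two (nat_lit 4194308) (nat_lit 156364705183) (.two (nat_lit 4194308) (nat_lit 156567081085) (.two (nat_lit 2097153) (nat_lit 1413485533) (.two (nat_lit 2097152) (nat_lit 166245439680) (.one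 (nat_lit 50339388) .nil)))))))))))),
   .two (nat_lit 2969567325) (nat_lit 169870154) (.two (nat_lit 3573547365) (nat_lit 10370418274) (.two (nat_lit 2969567423) (nat_lit 1847591129) (.two (nat_lit 9934209043) (nat_lit 16778715) (.two (nat_lit 2969567296) (nat_lit 2098133) (.two (nat_lit 47596961859) (nat_lit 10370418274) (.two (nat_lit 46407876623) (nat_lit 3036679318) (.two (nat_lit 46407876616) (nat_lit 11559504354) (.two (nat_lit 1291845640) (nat_lit 156969734270) (.two (nat_lit 2097157) (nat_lit 16782209) (.two (nat_lit 2097153) (nat_lit 721426524) (.two (nat_lit 1048576) (nat_lit 50337374) (.one (nat_lit 9866058376) .nil)))))))))))),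
   .two (nat_lit 4601151679) (nat_lit 166130090203) (.two (nat_lit 35651680) (nat_lit 16778056) (.two (nat_lit 169869350) (nat_lit 16778056) (.two (nat_lit 285212737) (nat_lit 2953839572) (.two (nat_lit 2902458435) (nat_lit 183946445781) (.two (nat_lit 608174114) (nat_lit 16778715) (.two (nat_lit 4194319) (nat_lit 16778848) (.two (nat_lit 4194319) (nat_lit 9781118559) (.two (nat_lit 4194312) (nat_lit 156567081085) (.two (nat_lit 4194312) (nat_lit 21827161418) (.two (nat_lit 4194308) (nat_lit 156567081085) (.two (nat_lit 708837381) (nat_lit 166245439680) (.two (nat_lit 4194305) (nat_lit 166245439680) (.two (nat_lit 4194304) (nat_lit 1055927) (.one (nat_lit 352328956) .nil)))))))))))))),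
   .two (nat_lit 3573547365) (nat_lit 10370418274) (.two (nat_lit 2969567423) (nat_lit 1847591129) (.two (nat_lit 2969567296) (nat_lit 2098133) (.two (nat_lit 47596961859) (nat_lit 10370418274) (.two (nat_lit 2969567296) (nat_lit 673186019) (.two (nat_lit 46407876623) (nat_lit 3036679318) (.two (nat_lit 1291845640) (nat_lit 156969734270) (.two (nat_lit 620757000) (nat_lit 2987397249) (.two (nat_lit 2097157) (nat_lit 16782209) (.two (nat_lit 2097153) (nat_lit 721426524) (.two (nat_lit 1048576) (nat_lit 16782939) (.one (nat_lit 638589575) .nil))))))))))),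
   .two (nat_lit 4601151581) (nat_lit 2097997) (.two (nat_lit 35651680) (nat_lit 16778056) (.two (nat_lit 2902458435) (nat_lit 183946445781) (.two (nat_lit 171966499) (nat_lit 16778715) (.two (nat_lit 608174114) (nat_lit 16778715) (.two (nat_lit 4194319) (nat_lit 9781118559) (.two (nat_lit 171966480) (nat_lit 156380433553) (.two (nat_lit 4194312) (nat_lit 21827161418) (.two (nat_lit 2097159) (nat_lit 156581761692) (.two (nat_lit 708837381) (nat_lit 166245439680) (.two (nat_lit 2097155) (nat_lit 352327476) (.two (nat_lit 4194305) (nat_lit 2103423) (.two (nat_lit 16777216) (nat_lit 1055697) (.one (nat_lit 352329278) .nil))))))))))))),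
   .two (nat_lit 352321727) (nat_lit 11544822995) (.two (nat_lit 276824129) (nat_lit 156367848923) (.two (nat_lit 16777231) (nat_lit 4631564056) (.two (nat_lit 8388616) (nat_lit 184986636293) (.two (nat_lit 8388612) (nat_lit 1947210627) (.two (nat_lit 8388609) (nat_lit 11610888296) (.two (nat_lit 8388608) (nat_lit 873470842) (.one (nat_lit 1056256) .nil))))))),
   .two (nat_lit 608174175) (nat_lit 156372042568) (.two (nat_lit 847249599) (nat_lit 171967443) (.two (nat_lit 847249599) (nat_lit 13224640729) (.two (nat_lit 3560964116) (nat_lit 4605347291) (.two (nat_lit 4605345856) (nat_lit 339740890) (.two (nat_lit 310378562) (nat_lit 28760343507) (.two (nat_lit 37748751) (nat_lit 46414171277) (.two (nat_lit 37748744) (nat_lit 13195282914) (.two (nat_lit 37748744) (nat_lit 10510928353) (.two (nat_lit 4194308) (nat_lit 612372604) (.two (nat_lit 4194308) (nat_lit 13195283870) (.two (nat_lit 2097153) (nat_lit 8394273) (.two (nat_lit 2097152) (nat_lit 8395730) (.one (nat_lit 8396289) .nil))))))))))))),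
   .two (nat_lit 4605345886) (nat_lit 18928895237) (.two (nat_lit 847249599) (nat_lit 171967443) (.two (nat_lit 272629796) (nat_lit 156372043227) (.two (nat_lit 4605345856) (nat_lit 339740890) (.two (nat_lit 37748751) (nat_lit 46414171277) (.two (nat_lit 4194310) (nat_lit 276828786) (.two (nat_lit 37748744) (nat_lit 13195282914) (.two (nat_lit 4194306) (nat_lit 2988447492) (.two (nat_lit 4194308) (nat_lit 612372604) (.two (nat_lit 2097153) (nat_lit 4199394) (.two (nat_lit 2097152) (nat_lit 8395960) (.one (nat_lit 2104563) .nil))))))))))),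
   .two (nat_lit 612368575) (nat_lit 4598005979) (.two (nat_lit 612368575) (nat_lit 156380431312) (.two (nat_lit 8388672) (nat_lit 873464315) (.two (nat_lit 8388672) (nat_lit 10003416016) (.two (nat_lit 8388623) (nat_lit 336593924) (.two (nat_lit 8388623) (nat_lit 10003416672) (.two (nat_lit 16777224) (nat_lit 11543777285) (.two (nat_lit 4194308) (nat_lit 813699276) (.two (nat_lit 16777220) (nat_lit 9765392499) (.two (nat_lit 4194305) (nat_lit 612374048) (.two (nat_lit 4194304) (nat_lit 1055699) (.one (nat_lit 1056021) .nil))))))))))),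
   .two (nat_lit 8388702) (nat_lit 184986633424) (.two (nat_lit 8388799) (nat_lit 46474986451) (.two (nat_lit 8388672) (nat_lit 3021998251) (.two (nat_lit 8388623) (nat_lit 35655420) (.two (nat_lit 176160774) (nat_lit 3024098423) (.two (nat_lit 46407876616) (nat_lit 20740835813) (.two (nat_lit 1277165570) (nat_lit 2357204746) (.two (nat_lit 12117344261) (nat_lit 102765448) (.two (nat_lit 9766436865) (nat_lit 746592712) (.two (nat_lit 2097152) (nat_lit 4201657) (.one (nat_lit 169876967) .nil)))))))))),
   .two (nat_lit 612368575) (nat_lit 4598005979) (.two (nat_lit 612368575) (nat_lit 156380431312) (.two (nat_lit 16777254) (nat_lit 705692488) (.two (nat_lit 8388672) (nat_lit 873464315) (.two (nat_lit 8388672) (nat_lit 10003416016) (.two (nat_lit 16777254) (nat_lit 11543774683) (.two (nat_lit 8388623) (nat_lit 10003416672) (.two (nat_lit 4613734415) (nat_lit 2099684) (.two (nat_lit 16777224) (nat_lit 11543777285) (.two (nat_lit 16777220) (nat_lit 9765392499) (.two (nat_lit 16777220) (nat_lit 11543776670) (.two (nat_lit 16777217) (nat_lit 1745883327) (.two (nat_lit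 4194304) (nat_lit 1055930) (.one (nat_lit 1056259) .nil))))))))))))),
   .two (nat_lit 8388701) (nat_lit 184986633424) (.two (nat_lit 8388799) (nat_lit 46474986451) (.two (nat_lit 8388799) (nat_lit 11611930841) (.two (nat_lit 8388672) (nat_lit 3021998251) (.two (nat_lit 8388623) (nat_lit 35655420) (.two (nat_lit 46407876616) (nat_lit 20740835813) (.two (nat_lit 276824072) (nat_lit 18926800198) (.two (nat_lit 12117344261) (nat_lit 102765448) (.two (nat_lit 46409973764) (nat_lit 2953842804) (.two (nat_lit 9766436865) (nat_lit 746592712) (.two (nat_lit 8388608) (nat_lit 1276124159) (.one (nat_lit 46507498988) .nil))))))))))),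
   .two (nat_lit 8388799) (nat_lit 47548728137) (.two (nat_lit 8388672) (nat_lit 336593865) (.two (nat_lit 41943075) (nat_lit 19128125615) (.two (nat_lit 8388642) (nat_lit 19128125615) (.two (nat_lit 713031695) (nat_lit 1782581630) (.two (nat_lit 746586128) (nat_lit 156968685288) (.two (nat_lit 11551113224) (nat_lit 28089257286) (.two (nat_lit 16777223) (nat_lit 11543777285) (.two (nat_lit 713031682) (nat_lit 2102726) (.two (nat_lit 16777219) (nat_lit 135271298) (.two (nat_lit 16777217) (nat_lit 1053672) (.two (nat_lit 2097152) (nat_lit 1055931) (.one (nat_lit 2104836) .nil)))))))))))),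
   .two (nat_lit 8388799) (nat_lit 46474986451) (.two (nat_lit 8388799) (nat_lit 11611930841) (.two (nat_lit 8388672) (nat_lit 3021998251) (.two (nat_lit 8388623) (nat_lit 35655420) (.two (nat_lit 276824072) (nat_lit 18926800198) (.two (nat_lit 8388616) (nat_lit 20738737826) (.two (nat_lit 46409973764) (nat_lit 2953842804) (.two (nat_lit 176160772) (nat_lit 2956988542) (.two (nat_lit 9766436865) (nat_lit 746592712) (.two (nat_lit 8388608) (nat_lit 1276124159) (.one (nat_lit 1056246) .nil)))))))))),
   .two (nat_lit 8388799) (nat_lit 11611930841) (.two (nat_lit 8388672) (nat_lit 3021998251) (.two (nat_lit 8388623) (nat_lit 35655420) (.two (nat_lit 8388616) (nat_lit 20738737826) (.two (nat_lit 176160772) (nat_lit 2956988542) (.two (nat_lit 8388612) (nat_lit 1176505751) (.two (nat_lit 9766436865) (nat_lit 746592712) (.two (nat_lit 1048576) (nat_lit 47582288095) (.one (nat_lit 1055749) .nil)))))))),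
   .two (nat_lit 285212863) (nat_lit 2987394326) (.two (nat_lit 4194369) (nat_lit 83888314) (.two (nat_lit 4194319) (nat_lit 9948890723) (.two (nat_lit 157036838927) (nat_lit 28757198432) (.two (nat_lit 606076936) (nat_lit 1053827) (.two (nat_lit 2097157) (nat_lit 3527413891) (.two (nat_lit 705691651) (nat_lit 2103557) (.two (nat_lit 9781116929) (nat_lit 4631567355) (.two (nat_lit 4194304) (nat_lit 1055826) (.one (nat_lit 16784666) .nil))))))))),
   .two (nat_lit 639631551) (nat_lit 11022632201) (.two (nat_lit 2969567299) (nat_lit 639632859) (.two (nat_lit 2954887183) (nat_lit 21827161838) (.two (nat_lit 2902458376) (nat_lit 2921337457) (.two (nat_lit 169869316) (nat_lit 176164994) (.two (nat_lit 2969567237) (nat_lit 1283463294) (.two (nat_lit 9781116929) (nat_lit 2103754) (.two (nat_lit 16777216) (nat_lit 8395859) (.one (nat_lit 8396059) .nil)))))))),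
   .two (nat_lit 612368575) (nat_lit 873465085) (.two (nat_lit 4634705987) (nat_lit 1913652699) (.two (nat_lit 2889875471) (nat_lit 183845785314) (.two (nat_lit 75497480) (nat_lit 11476668426) (.two (nat_lit 713031684) (nat_lit 12114204062) (.two (nat_lit 9768534017) (nat_lit 1317017691) (.two (nat_lit 1048576) (nat_lit 339745690) (.one (nat_lit 138418393) .nil))))))),
   .two (nat_lit 612368575) (nat_lit 156532475104) (.two (nat_lit 8388672) (nat_lit 873466057) (.two (nat_lit 75497487) (nat_lit 166196154106) (.two (nat_lit 75497480) (nat_lit 1376784398) (.two (nat_lit 713031684) (nat_lit 1913656741) (.two (nat_lit 9768534017) (nat_lit 21793610121) (.two (nat_lit 4194304) (nat_lit 2316311457) (.one (nat_lit 21818776594) .nil))))))),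
   .two (nat_lit 3525312703) (nat_lit 10506732360) (.two (nat_lit 46978302018) (nat_lit 158146234540) (.two (nat_lit 46407876623) (nat_lit 19599986415) (.two (nat_lit 641728520) (nat_lit 157035795060) (.two (nat_lit 605028357) (nat_lit 156533525919) (.two (nat_lit 159216828421) (nat_lit 159224173448) (.two (nat_lit 9768534017) (nat_lit 2103994) (.two (nat_lit 2097152) (nat_lit 8395860) (.one (nat_lit 1056028) .nil)))))))),
   .two (nat_lit 50331839) (nat_lit 9934209864) (.two (nat_lit 16777280) (nat_lit 9934210523) (.two (nat_lit 16777231) (nat_lit 1310723218) (.two (nat_lit 16777224) (nat_lit 641733296) (.two (nat_lit 41943045) (nat_lit 37754267) (.two (nat_lit 16777217) (nat_lit 166130096540) (.two (nat_lit 8388608) (nat_lit 19029564267) (.one (nat_lit 2104839) .nil))))))),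
   .two (nat_lit 50331839) (nat_lit 9934209864) (.two (nat_lit 16777280) (nat_lit 9934210523) (.two (nat_lit 16777231) (nat_lit 1310723218) (.two (nat_lit 16777224) (nat_lit 641733296) (.two (nat_lit 41943045) (nat_lit 37754267) (.two (nat_lit 16777217) (nat_lit 166130096540) (.two (nat_lit 8388608) (nat_lit 19029564267) (.one (nat_lit 2104840) .nil))))))),
   .two (nat_lit 50331839) (nat_lit 9934209864) (.two (nat_lit 16777280) (nat_lit 9934210523) (.two (nat_lit 16777231) (nat_lit 1310723218) (.two (nat_lit 16777224) (nat_lit 641733296) (.two (nat_lit 41943045) (nat_lit 37754267) (.two (nat_lit 16777217) (nat_lit 166130096540) (.two (nat_lit 8388608) (nat_lit 19029564267) (.one (nat_lit 2104841) .nil))))))),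
   .two (nat_lit 8388799) (nat_lit 4613735664) (.two (nat_lit 620757059) (nat_lit 1350568782) (.two (nat_lit 285212683) (nat_lit 343937310) (.two (nat_lit 2961178632) (nat_lit 2101952) (.two (nat_lit 176160770) (nat_lit 2103558) (.two (nat_lit 8388611) (nat_lit 46407880092) (.two (nat_lit 612368385) (nat_lit 1054242) (.two (nat_lit 1048576) (nat_lit 2102888) (.one (nat_lit 1055753) .nil)))))))),
   .two (nat_lit 47555018943) (nat_lit 235931431) (.two (nat_lit 75497539) (nat_lit 269486282) (.two (nat_lit 2954887183) (nat_lit 1052421) (.two (nat_lit 169869320) (nat_lit 4647293618) (.two (nat_lit 21785214981) (nat_lit 1376785823) (.two (nat_lit 606076929) (nat_lit 9899612582) (.two (nat_lit 1048576) (nat_lit 28764543877) (.one (nat_lit 1056266) .nil))))))),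
   .two (nat_lit 639631551) (nat_lit 4196218) (.two (nat_lit 41943107) (nat_lit 236980398) (.two (nat_lit 713031695) (nat_lit 9967766685) (.two (nat_lit 9766436872) (nat_lit 251662970) (.two (nat_lit 28760342533) (nat_lit 3458209596) (.two (nat_lit 612368385) (nat_lit 21208504763) (.two (nat_lit 8388608) (nat_lit 166132194374) (.one (nat_lit 2104843) .nil))))))),
   .two (nat_lit 184549734) (nat_lit 807403739) (.two (nat_lit 276824102) (nat_lit 47596963674) (.two (nat_lit 721420353) (nat_lit 270533115) (.two (nat_lit 3464495169) (nat_lit 1745880016) (.two (nat_lit 721420303) (nat_lit 3457156104) (.two (nat_lit 4605345807) (nat_lit 11610883684) (.two (nat_lit 8388616) (nat_lit 2102405) (.two (nat_lit 12121538565) (nat_lit 83890307) (.two (nat_lit 2097155) (nat_lit 8395015) (.two (nat_lit 41943041) (nat_lit 16783488) (.two (nat_lit 1048576) (nat_lit 16784572) (.one (nat_lit 1056030) .nil))))))))))),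
   .two (nat_lit 9768534207) (nat_lit 169871226) (.two (nat_lit 41943107) (nat_lit 1344276679) (.two (nat_lit 713031695) (nat_lit 28758248593) (.two (nat_lit 9766436872) (nat_lit 1862275706) (.two (nat_lit 1914699781) (nat_lit 46409979708) (.two (nat_lit 41943041) (nat_lit 37247523220) (.two (nat_lit 8388608) (nat_lit 19027467334) (.one (nat_lit 4201759) .nil))))))),
   .two (nat_lit 4601151581) (nat_lit 1050491) (.two (nat_lit 183912890433) (nat_lit 13224642741) (.two (nat_lit 12114198543) (nat_lit 2923433119) (.two (nat_lit 2954887176) (nat_lit 4634710644) (.two (nat_lit 184989777925) (nat_lit 11610887610) (.two (nat_lit 37748739) (nat_lit 135270522) (.two (nat_lit 2097153) (nat_lit 1055419) (.two (nat_lit 2097152) (nat_lit 1055653) (.one (nat_lit 1056268) .nil)))))))),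
   .two (nat_lit 41943231) (nat_lit 620757832) (.two (nat_lit 8388672) (nat_lit 620758491) (.two (nat_lit 8388623) (nat_lit 1291848859) (.two (nat_lit 176160776) (nat_lit 1795166837) (.two (nat_lit 176160770) (nat_lit 16782225) (.two (nat_lit 176160771) (nat_lit 35657246) (.two (nat_lit 8388609) (nat_lit 2103756) (.two (nat_lit 8388608) (nat_lit 2104406) (.one (nat_lit 8396301) .nil)))))))),
   .two (nat_lit 41943231) (nat_lit 620757832) (.two (nat_lit 8388672) (nat_lit 620758491) (.two (nat_lit 8388623) (nat_lit 46510640302) (.two (nat_lit 8388616) (nat_lit 16781971) (.two (nat_lit 8388612) (nat_lit 156569179016) (.two (nat_lit 8388611) (nat_lit 306190112) (.two (nat_lit 8388609) (nat_lit 2103996) (.two (nat_lit 8388608) (nat_lit 2104407) (.one (nat_lit 8396302) .nil)))))))),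
   .two (nat_lit 4601151679) (nat_lit 10343154504) (.two (nat_lit 4601151554) (nat_lit 4605348036) (.two (nat_lit 4194319) (nat_lit 1786777331) (.two (nat_lit 10369368072) (nat_lit 1413485167) (.two (nat_lit 4194308) (nat_lit 8392827) (.two (nat_lit 4194308) (nat_lit 880808925) (.two (nat_lit 4194305) (nat_lit 880808925) (.two (nat_lit 8388608) (nat_lit 11510225821) (.one (nat_lit 1056032) .nil)))))))),
   .two (nat_lit 13191086271) (nat_lit 18933089096) (.two (nat_lit 4601151554) (nat_lit 166136383660) (.two (nat_lit 37748751) (nat_lit 47555022575) (.two (nat_lit 9766436872) (nat_lit 306188947) (.two (nat_lit 2887778308) (nat_lit 9781121928) (.two (nat_lit 2887778307) (nat_lit 16783136) (.two (nat_lit 156372041729) (nat_lit 185023339194) (.two (nat_lit 4194304) (nat_lit 185035922516) (.one (nat_lit 2104847) .nil)))))))),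
   .two (nat_lit 157036839103) (nat_lit 4195622) (.two (nat_lit 50331715) (nat_lit 46980400083) (.two (nat_lit 50331715) (nat_lit 2954887395) (.two (nat_lit 46980399119) (nat_lit 10504638175) (.two (nat_lit 1749024776) (nat_lit 19027464887) (.two (nat_lit 28089253893) (nat_lit 2103110) (.two (nat_lit 620756993) (nat_lit 3460307864) (.two (nat_lit 16777216) (nat_lit 3460307864) (.one (nat_lit 2104609) .nil)))))))),
   .two (nat_lit 41943231) (nat_lit 318768973) (.two (nat_lit 11559501889) (nat_lit 10503588047) (.two (nat_lit 9948889103) (nat_lit 156573370748) (.two (nat_lit 9948889103) (nat_lit 10907289982) (.two (nat_lit 18925748232) (nat_lit 13188994179) (.two (nat_lit 176160770) (nat_lit 2102727) (.two (nat_lit 46407876611) (nat_lit 13187946757) (.two (nat_lit 620756993) (nat_lit 2103844) (.two (nat_lit 16777216) (nat_lit 13188996178) (.one (nat_lit 13195288069) .nil))))))))),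
   .two (nat_lit 4601151679) (nat_lit 19027461353) (.two (nat_lit 654311491) (nat_lit 165525063862) (.two (nat_lit 1291845647) (nat_lit 165525064878) (.two (nat_lit 10385096712) (nat_lit 3024097956) (.two (nat_lit 4194308) (nat_lit 157036842399) (.two (nat_lit 1344274437) (nat_lit 2316310656) (.two (nat_lit 9766436865) (nat_lit 37755581) (.two (nat_lit 2097152) (nat_lit 34610264) (.one (nat_lit 2104849) .nil)))))))),
   .two (nat_lit 4605345886) (nat_lit 46510638297) (.two (nat_lit 156372041919) (nat_lit 47550825427) (.two (nat_lit 809500708) (nat_lit 156372043227) (.two (nat_lit 4605345856) (nat_lit 339739598) (.two (nat_lit 809500687) (nat_lit 166136384657) (.two (nat_lit 4194310) (nat_lit 243273739) (.two (nat_lit 4601151496) (nat_lit 4605348322) (.two (nat_lit 4194306) (nat_lit 142611865) (.two (nat_lit 4194308) (nat_lit 679481465) (.two (nat_lit 8388609) (nat_lit 184419359266) (.two (nat_lit 8388608) (nat_lit 4201069) (.one (nat_lit 11513371891) .nil))))))))))),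
   .two (nat_lit 41943231) (nat_lit 156367848264) (.two (nat_lit 8388672) (nat_lit 159217878491) (.two (nat_lit 8388623) (nat_lit 20638076047) (.two (nat_lit 8388616) (nat_lit 11477716998) (.two (nat_lit 8388612) (nat_lit 83891610) (.two (nat_lit 8388609) (nat_lit 19530783132) (.two (nat_lit 8388608) (nat_lit 16784473) (.one (nat_lit 2104610) .nil))))))),
   .two (nat_lit 41943231) (nat_lit 156367848264) (.two (nat_lit 8388672) (nat_lit 159217878491) (.two (nat_lit 8388623) (nat_lit 20638076047) (.two (nat_lit 8388616) (nat_lit 11477716998) (.two (nat_lit 8388612) (nat_lit 83891610) (.two (nat_lit 8388609) (nat_lit 19530783132) (.two (nat_lit 8388608) (nat_lit 16784473) (.one (nat_lit 8396049) .nil))))))),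
   .two (nat_lit 41943231) (nat_lit 20640171228) (.two (nat_lit 185002360897) (nat_lit 185027529564) (.two (nat_lit 13203669007) (nat_lit 176163999) (.two (nat_lit 16777224) (nat_lit 183846834182) (.two (nat_lit 16777220) (nat_lit 20738741657) (.two (nat_lit 8388609) (nat_lit 2103758) (.two (nat_lit 8388608) (nat_lit 2104410) (.one (nat_lit 2104611) .nil))))))),
   .two (nat_lit 41943231) (nat_lit 156367848264) (.two (nat_lit 8388672) (nat_lit 159217878491) (.two (nat_lit 8388623) (nat_lit 20638076047) (.two (nat_lit 8388616) (nat_lit 11477716998) (.two (nat_lit 8388612) (nat_lit 83891610) (.two (nat_lit 8388609) (nat_lit 19530783132) (.two (nat_lit 8388608) (nat_lit 16784473) (.one (nat_lit 343940362) .nil))))))),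
   .two (nat_lit 41943231) (nat_lit 20640171228) (.two (nat_lit 185002360897) (nat_lit 21785217213) (.two (nat_lit 13203669007) (nat_lit 176163999) (.two (nat_lit 16777224) (nat_lit 183846834182) (.two (nat_lit 16777220) (nat_lit 1417680282) (.two (nat_lit 8388609) (nat_lit 2103758) (.two (nat_lit 8388608) (nat_lit 4201563) (.one (nat_lit 343940362) .nil))))))),
   .two (nat_lit 41943231) (nat_lit 20640171228) (.two (nat_lit 185002360897) (nat_lit 185027529564) (.two (nat_lit 13203669007) (nat_lit 176163999) (.two (nat_lit 16777224) (nat_lit 183846834182) (.two (nat_lit 16777220) (nat_lit 20738741657) (.two (nat_lit 8388609) (nat_lit 2103758) (.two (nat_lit 8388608) (nat_lit 2104410) (.one (nat_lit 721426667) .nil))))))),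
   .two (nat_lit 3525312703) (nat_lit 13224640731) (.two (nat_lit 2889875494) (nat_lit 4028629833) (.two (nat_lit 46510637121) (nat_lit 3524266157) (.two (nat_lit 2889875471) (nat_lit 10503589679) (.two (nat_lit 9768534024) (nat_lit 10940846725) (.two (nat_lit 605028357) (nat_lit 11544825298) (.two (nat_lit 9768534019) (nat_lit 156968687403) (.two (nat_lit 9768534017) (nat_lit 1055184) (.two (nat_lit 4194304) (nat_lit 2104413) (.one (nat_lit 2104852) .nil))))))))),
   .two (nat_lit 612368575) (nat_lit 46523220438) (.two (nat_lit 8388799) (nat_lit 2923430105) (.two (nat_lit 184549394) (nat_lit 10503588031) (.two (nat_lit 47563407425) (nat_lit 10510928253) (.two (nat_lit 8388672) (nat_lit 156367847651) (.two (nat_lit 83886095) (nat_lit 12150901918) (.two (nat_lit 276824072) (nat_lit 46510642199) (.two (nat_lit 8388616) (nat_lit 184989779618) (.two (nat_lit 46422556677) (nat_lit 2990544325) (.two (nat_lit 8388612) (nat_lit 46510642199) (.two (nat_lit 4194305) (nat_lit 1055269) (.two (nat_lit 4194304) (nat_lit 1055344) (.one (nat_lit 4202006) .nil)))))))))))),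
   .two (nat_lit 13191086271) (nat_lit 9806282969) (.two (nat_lit 306184258) (nat_lit 1780483027) (.two (nat_lit 306184257) (nat_lit 3525312739) (.two (nat_lit 4605345807) (nat_lit 166230756497) (.two (nat_lit 8388616) (nat_lit 20738737826) (.two (nat_lit 8388612) (nat_lit 35655069) (.two (nat_lit 8388612) (nat_lit 11544824344) (.two (nat_lit 8388609) (nat_lit 2988447967) (.two (nat_lit 4194304) (nat_lit 2102915) (.one (nat_lit 2104614) .nil))))))))),
   .two (nat_lit 47582281919) (nat_lit 2987393243) (.two (nat_lit 47582281919) (nat_lit 687866832) (.two (nat_lit 2954887232) (nat_lit 9966715387) (.two (nat_lit 2954887232) (nat_lit 687866832) (.two (nat_lit 2954887183) (nat_lit 2987394052) (.two (nat_lit 2954887183) (nat_lit 687867488) (.two (nat_lit 184549384) (nat_lit 9765392391) (.two (nat_lit 16777221) (nat_lit 28790755532) (.two (nat_lit 16777221) (nat_lit 9765392499) (.two (nat_lit 4194305) (nat_lit 1055549) (.two (nat_lit 16777216) (nat_lit 1055701) (.one (nat_lit 1056039) .nil))))))))))),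
   .two (nat_lit 47582281919) (nat_lit 46473937115) (.two (nat_lit 47582281919) (nat_lit 11022631888) (.two (nat_lit 2902458406) (nat_lit 11543774024) (.two (nat_lit 2954887234) (nat_lit 156532474363) (.two (nat_lit 2954887232) (nat_lit 11022631888) (.two (nat_lit 2902458406) (nat_lit 11543774683) (.two (nat_lit 2954887183) (nat_lit 11022632544) (.two (nat_lit 285212688) (nat_lit 739249295) (.two (nat_lit 2902458376) (nat_lit 605032455) (.two (nat_lit 285212677) (nat_lit 605032563) (.two (nat_lit 285212677) (nat_lit 1343229342) (.two (nat_lit 34603009) (nat_lit 2103846) (.two (nat_lit 16777216) (nat_lit 1055935) (.one (nat_lit 1056279) .nil))))))))))))),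
   .two (nat_lit 8388799) (nat_lit 156367848264) (.two (nat_lit 8388672) (nat_lit 156367848923) (.two (nat_lit 8388623) (nat_lit 705694870) (.two (nat_lit 713031688) (nat_lit 13224645245) (.two (nat_lit 8388612) (nat_lit 2886734017) (.two (nat_lit 8388612) (nat_lit 156364706696) (.two (nat_lit 41943041) (nat_lit 1055422) (.two (nat_lit 8388608) (nat_lit 1055838) (.one (nat_lit 4201768) .nil)))))))),
   .two (nat_lit 8388799) (nat_lit 156367848264) (.two (nat_lit 8388672) (nat_lit 156367848923) (.two (nat_lit 8388623) (nat_lit 705694870) (.two (nat_lit 713031688) (nat_lit 13224645245) (.two (nat_lit 8388612) (nat_lit 156364706696) (.two (nat_lit 8388612) (nat_lit 4647293063) (.two (nat_lit 41943041) (nat_lit 1055422) (.two (nat_lit 8388608) (nat_lit 1055838) (.one (nat_lit 4201769) .nil)))))))),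
   .two (nat_lit 16777407) (nat_lit 639632200) (.two (nat_lit 8388672) (nat_lit 10336863707) (.two (nat_lit 8388623) (nat_lit 10001321124) (.two (nat_lit 8388616) (nat_lit 47582286461) (.two (nat_lit 176160773) (nat_lit 3036681105) (.two (nat_lit 176160771) (nat_lit 47550830383) (.two (nat_lit 8388609) (nat_lit 608180926) (.two (nat_lit 8388608) (nat_lit 608181342) (.one (nat_lit 2104618) .nil)))))))),
   .two (nat_lit 285213237) (nat_lit 1346371803) (.two (nat_lit 285213237) (nat_lit 109052880) (.two (nat_lit 847249475) (nat_lit 10519316682) (.two (nat_lit 184549391) (nat_lit 1746928648) (.two (nat_lit 2902458383) (nat_lit 1954548095) (.two (nat_lit 184993972232) (nat_lit 4199558) (.two (nat_lit 4194308) (nat_lit 156533526659) (.two (nat_lit 169869315) (nat_lit 813700551) (.two (nat_lit 37748737) (nat_lit 2102821) (.two (nat_lit 2097152) (nat_lit 4201430) (.one (nat_lit 9766444314) .nil)))))))))),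
   .two (nat_lit 809500863) (nat_lit 705693562) (.two (nat_lit 184549442) (nat_lit 1343227355) (.two (nat_lit 184549391) (nat_lit 37313580177) (.two (nat_lit 11476664328) (nat_lit 10452210298) (.two (nat_lit 806354949) (nat_lit 4200263) (.two (nat_lit 2097153) (nat_lit 4043315305) (.two (nat_lit 2097152) (nat_lit 156465372230) (.one (nat_lit 4201771) .nil))))))),
   .two (nat_lit 11010048191) (nat_lit 10906240890) (.two (nat_lit 184549442) (nat_lit 4027582641) (.two (nat_lit 2969567247) (nat_lit 20638076079) (.two (nat_lit 742391816) (nat_lit 11626615905) (.two (nat_lit 157035790341) (nat_lit 239081287) (.two (nat_lit 2097153) (nat_lit 1175460244) (.two (nat_lit 16777216) (nat_lit 19093527622) (.one (nat_lit 4202008) .nil))))))),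
   .two (nat_lit 639631551) (nat_lit 12620661988) (.two (nat_lit 4634705985) (nat_lit 12147755203) (.two (nat_lit 8388623) (nat_lit 11510222562) (.two (nat_lit 9867100168) (nat_lit 1779438203) (.two (nat_lit 184989777925) (nat_lit 11610888007) (.two (nat_lit 41943041) (nat_lit 28691143063) (.two (nat_lit 4194304) (nat_lit 28691143547) (.one (nat_lit 1056044) .nil))))))),
   .two (nat_lit 8388799) (nat_lit 4647289674) (.two (nat_lit 8388672) (nat_lit 159216828923) (.two (nat_lit 8388623) (nat_lit 839910408) (.two (nat_lit 620757000) (nat_lit 28093450727) (.two (nat_lit 8388612) (nat_lit 159216831903) (.two (nat_lit 8388609) (nat_lit 166232854727) (.two (nat_lit 16777216) (nat_lit 9936311911) (.one (nat_lit 10376714467) .nil))))))),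
   .two (nat_lit 13191086271) (nat_lit 8390525) (.two (nat_lit 4601151552) (nat_lit 158653744084) (.two (nat_lit 11517558893) (nat_lit 1916797897) (.two (nat_lit 4601151503) (nat_lit 343933444) (.two (nat_lit 156372041743) (nat_lit 156468513148) (.two (nat_lit 46409973768) (nat_lit 8393864) (.two (nat_lit 713031685) (nat_lit 37752962) (.two (nat_lit 11484004355) (nat_lit 11513371238) (.two (nat_lit 41943041) (nat_lit 11513371238) (.two (nat_lit 2097152) (nat_lit 4201667) (.one (nat_lit 4202013) .nil)))))))))),
   .two (nat_lit 19532874568) (nat_lit 41943882) (.two (nat_lit 16777407) (nat_lit 28093449692) (.two (nat_lit 16777280) (nat_lit 3464496132) (.two (nat_lit 16777280) (nat_lit 10947135073) (.two (nat_lit 184993972239) (nat_lit 3539996682) (.two (nat_lit 75497480) (nat_lit 16782209) (.two (nat_lit 16777220) (nat_lit 9902756034) (.two (nat_lit 612368389) (nat_lit 9814675648) (.two (nat_lit 41943041) (nat_lit 4200026) (.two (nat_lit 4194304) (nat_lit 822090976) (.one (nat_lit 37755919) .nil)))))))))),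
   .two (nat_lit 10913579848) (nat_lit 10940842824) (.two (nat_lit 16777407) (nat_lit 28093449692) (.two (nat_lit 16777280) (nat_lit 3464496132) (.two (nat_lit 16777280) (nat_lit 10947135073) (.two (nat_lit 16777280) (nat_lit 3464496735) (.two (nat_lit 184993972239) (nat_lit 3539996682) (.two (nat_lit 75497480) (nat_lit 16782209) (.two (nat_lit 184549380) (nat_lit 9799996386) (.two (nat_lit 612368389) (nat_lit 156380434623) (.two (nat_lit 41943041) (nat_lit 50337375) (.two (nat_lit 2097152) (nat_lit 822090976) (.one (nat_lit 35659054) .nil))))))))))),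
   .two (nat_lit 16777682) (nat_lit 28093449432) (.two (nat_lit 16777407) (nat_lit 28093449692) (.two (nat_lit 16777280) (nat_lit 165532404877) (.two (nat_lit 16777231) (nat_lit 19604181002) (.two (nat_lit 612368392) (nat_lit 16782209) (.two (nat_lit 176160773) (nat_lit 83892321) (.two (nat_lit 8388609) (nat_lit 10385103720) (.two (nat_lit 16777216) (nat_lit 4638907383) (.one (nat_lit 612375570) .nil)))))))),
   .two (nat_lit 620757209) (nat_lit 11618223367) (.two (nat_lit 16778056) (nat_lit 21785215442) (.two (nat_lit 16777407) (nat_lit 28093449692) (.two (nat_lit 16777280) (nat_lit 165532404877) (.two (nat_lit 16777231) (nat_lit 19604181002) (.two (nat_lit 612368392) (nat_lit 16782209) (.two (nat_lit 176160773) (nat_lit 83892321) (.two (nat_lit 8388609) (nat_lit 10385103720) (.two (nat_lit 16777216) (nat_lit 8395774) (.one (nat_lit 176167953) .nil))))))))),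
   .two (nat_lit 16778056) (nat_lit 21785215442) (.two (nat_lit 16777407) (nat_lit 28093449692) (.two (nat_lit 16777280) (nat_lit 165532404877) (.two (nat_lit 16777231) (nat_lit 19604181002) (.two (nat_lit 612368392) (nat_lit 16782209) (.two (nat_lit 176160773) (nat_lit 83892321) (.two (nat_lit 8388609) (nat_lit 10385103720) (.two (nat_lit 16777216) (nat_lit 9772735109) (.one (nat_lit 612376105) .nil)))))))),
   .two (nat_lit 156533523272) (nat_lit 183848927740) (.two (nat_lit 156533522789) (nat_lit 183848927740) (.two (nat_lit 3525312578) (nat_lit 171968162) (.two (nat_lit 37748751) (nat_lit 1417679512) (.two (nat_lit 176160776) (nat_lit 37247519256) (.two (nat_lit 46980399109) (nat_lit 8394859) (.two (nat_lit 8388609) (nat_lit 1948261213) (.two (nat_lit 2097152) (nat_lit 71308922) (.one (nat_lit 2104891) .nil)))))))),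
   .two (nat_lit 352321727) (nat_lit 9934210523) (.two (nat_lit 16777280) (nat_lit 1049604) (.two (nat_lit 713031688) (nat_lit 1947210626) (.two (nat_lit 16777220) (nat_lit 1846546630) (.two (nat_lit 8388608) (nat_lit 34609398) (.one (nat_lit 34609398) .nil))))),
   .two (nat_lit 8389448) (nat_lit 3458203865) (.two (nat_lit 8388799) (nat_lit 159217878491) (.two (nat_lit 8388672) (nat_lit 184986635407) (.two (nat_lit 8388623) (nat_lit 183913943046) (.two (nat_lit 8388616) (nat_lit 9765391767) (.two (nat_lit 166129041410) (nat_lit 166130096540) (.two (nat_lit 8388609) (nat_lit 19529735017) (.two (nat_lit 1048576) (nat_lit 874519859) (.one (nat_lit 336600371) .nil)))))))),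
   .two (nat_lit 4195144) (nat_lit 1753219539) (.two (nat_lit 9768534207) (nat_lit 46977254877) (.two (nat_lit 608174176) (nat_lit 183853123753) (.two (nat_lit 4194369) (nat_lit 20644366820) (.two (nat_lit 171966499) (nat_lit 343936143) (.two (nat_lit 4194319) (nat_lit 343937029) (.two (nat_lit 4194312) (nat_lit 9772733314) (.two (nat_lit 4194308) (nat_lit 9798948977) (.two (nat_lit 2097155) (nat_lit 10343159900) (.two (nat_lit 2097153) (nat_lit 672143964) (.two (nat_lit 1048576) (nat_lit 11578383596) (.one (nat_lit 8396349) .nil))))))))))),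
   .two (nat_lit 13224640729) (nat_lit 9798944221) (.two (nat_lit 13224640609) (nat_lit 158647452156) (.two (nat_lit 3525312625) (nat_lit 10372515490) (.two (nat_lit 10504634383) (nat_lit 174685426311) (.two (nat_lit 10504634376) (nat_lit 2886733208) (.two (nat_lit 166130089989) (nat_lit 2416973338) (.two (nat_lit 9765388289) (nat_lit 11578383250) (.two (nat_lit 1048576) (nat_lit 807409274) (.one (nat_lit 1055767) .nil)))))))),
   .two (nat_lit 4195144) (nat_lit 12054429915) (.two (nat_lit 156372041919) (nat_lit 270534837) (.two (nat_lit 4194369) (nat_lit 4605346820) (.two (nat_lit 4194369) (nat_lit 13195282016) (.two (nat_lit 4194319) (nat_lit 880807940) (.two (nat_lit 169869320) (nat_lit 8394149) (.two (nat_lit 4194308) (nat_lit 9873395911) (.two (nat_lit 4194308) (nat_lit 68162525) (.two (nat_lit 2097153) (nat_lit 156364708057) (.two (nat_lit 1048576) (nat_lit 169876705) (.one (nat_lit 46406835215) .nil)))))))))),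
   .two (nat_lit 47582281919) (nat_lit 679478278) (.two (nat_lit 4194369) (nat_lit 4605346823) (.two (nat_lit 1780482056) (nat_lit 9899611549) (.two (nat_lit 4194308) (nat_lit 68161730) (.two (nat_lit 1048576) (nat_lit 8394979) (.one (nat_lit 739252469) .nil))))),
   .two (nat_lit 620757832) (nat_lit 9866051801) (.two (nat_lit 620757183) (nat_lit 13221495012) (.two (nat_lit 46508539925) (nat_lit 184552607) (.two (nat_lit 2887778319) (nat_lit 16782015) (.two (nat_lit 2887778310) (nat_lit 1052801) (.two (nat_lit 2887778306) (nat_lit 1054238) (.two (nat_lit 2097153) (nat_lit 1055337) (.two (nat_lit 1048576) (nat_lit 2103950) (.one (nat_lit 1056319) .nil)))))))),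
   .two (nat_lit 4195144) (nat_lit 8388838) (.two (nat_lit 2954887359) (nat_lit 156535619811) (.two (nat_lit 169869377) (nat_lit 18933091494) (.two (nat_lit 169869327) (nat_lit 184423550985) (.two (nat_lit 169869320) (nat_lit 41945625) (.two (nat_lit 169869316) (nat_lit 1276123243) (.two (nat_lit 2097153) (nat_lit 1055644) (.two (nat_lit 1048576) (nat_lit 673191549) (.one (nat_lit 8396352) .nil)))))))),
   .two (nat_lit 8389448) (nat_lit 46409973977) (.two (nat_lit 8388799) (nat_lit 156367848923) (.two (nat_lit 8388672) (nat_lit 158075980943) (.two (nat_lit 8388623) (nat_lit 168824844) (.two (nat_lit 8388616) (nat_lit 46977255960) (.two (nat_lit 8388610) (nat_lit 4598012326) (.two (nat_lit 41943041) (nat_lit 1054308) (.two (nat_lit 8388608) (nat_lit 1056051) (.one (nat_lit 1056051) .nil)))))))),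
   .two (nat_lit 343933119) (nat_lit 159216828923) (.two (nat_lit 8388672) (nat_lit 47547679748) (.two (nat_lit 721420296) (nat_lit 708842913) (.two (nat_lit 8388612) (nat_lit 19127079113) (.two (nat_lit 8388608) (nat_lit 1055744) (.one (nat_lit 3028294298) .nil))))),
   .two (nat_lit 9881780805) (nat_lit 9765388795) (.two (nat_lit 4613734465) (nat_lit 3028288516) (.two (nat_lit 16777224) (nat_lit 156976025799) (.two (nat_lit 16777220) (nat_lit 156976025799) (.two (nat_lit 8388608) (nat_lit 46406834829) (.one (nat_lit 8396087) .nil))))),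
   .two (nat_lit 41943078) (nat_lit 620758491) (.two (nat_lit 41943078) (nat_lit 20652756114) (.two (nat_lit 813694984) (nat_lit 3024097473) (.two (nat_lit 8388612) (nat_lit 3024097473) (.two (nat_lit 4194304) (nat_lit 8395778) (.one (nat_lit 16784408) .nil))))),
   .two (nat_lit 166132187353) (nat_lit 2097373) (.two (nat_lit 843055295) (nat_lit 13188989158) (.two (nat_lit 239075348) (nat_lit 28758249208) (.two (nat_lit 157038936079) (nat_lit 46978306059) (.two (nat_lit 4194310) (nat_lit 169875206) (.two (nat_lit 10370416645) (nat_lit 843060197) (.two (nat_lit 2097153) (nat_lit 4201374) (.two (nat_lit 4194304) (nat_lit 2102914) (.one (nat_lit 171974174) .nil)))))))),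
   .two (nat_lit 156533522623) (nat_lit 28757197307) (.two (nat_lit 11492393027) (nat_lit 10537141865) (.two (nat_lit 13203669000) (nat_lit 1846545823) (.two (nat_lit 713031684) (nat_lit 2987397319) (.two (nat_lit 16777216) (nat_lit 166130096357) (.one (nat_lit 1055391) .nil))))),
   .two (nat_lit 46474986703) (nat_lit 156569174245) (.two (nat_lit 306184383) (nat_lit 183846830310) (.two (nat_lit 50331715) (nat_lit 1310721698) (.two (nat_lit 721420303) (nat_lit 1310721698) (.two (nat_lit 721420296) (nat_lit 184987683352) (.two (nat_lit 166132187138) (nat_lit 2102247) (.two (nat_lit 50331649) (nat_lit 2921338467) (.two (nat_lit 16777216) (nat_lit 2102915) (.one (nat_lit 2104898) .nil)))))))),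
   .two (nat_lit 721420508) (nat_lit 1384121603) (.two (nat_lit 8388799) (nat_lit 50331875) (.two (nat_lit 8388672) (nat_lit 18941478561) (.two (nat_lit 8388623) (nat_lit 18941478561) (.two (nat_lit 2961178632) (nat_lit 654315647) (.two (nat_lit 1291845634) (nat_lit 8395299) (.two (nat_lit 9765388289) (nat_lit 8394341) (.two (nat_lit 1048576) (nat_lit 8394983) (.one (nat_lit 8396355) .nil)))))))),
   .two (nat_lit 285213512) (nat_lit 8389116) (.two (nat_lit 46523220035) (nat_lit 746588646) (.two (nat_lit 184549391) (nat_lit 2961181208) (.two (nat_lit 16777220) (nat_lit 9772733462) (.two (nat_lit 8388609) (nat_lit 16782969) (.one (nat_lit 746593308) .nil))))),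
   .two (nat_lit 9948889279) (nat_lit 174752531464) (.two (nat_lit 28772925448) (nat_lit 269487570) (.two (nat_lit 8388608) (nat_lit 12163488408) .nil)),
   .two (nat_lit 20704133347) (nat_lit 1962934499) (.two (nat_lit 20737687573) (nat_lit 21793607690) (.two (nat_lit 28790751256) (nat_lit 11492396441) (.two (nat_lit 1276116994) (nat_lit 16782945) (.two (nat_lit 605028353) (nat_lit 16783584) (.one (nat_lit 705699407) .nil))))),
   .two (nat_lit 11513365321) (nat_lit 13187940580) (.two (nat_lit 705691668) (nat_lit 158179791478) (.two (nat_lit 19596836879) (nat_lit 21814578584) (.two (nat_lit 4194306) (nat_lit 1054306) (.two (nat_lit 34603009) (nat_lit 1279268472) (.one (nat_lit 1055770) .nil))))),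
   .two (nat_lit 1291845670) (nat_lit 2953839620) (.two (nat_lit 739246088) (nat_lit 8392902) (.two (nat_lit 16777216) (nat_lit 1849695538) .nil)),
   .two (nat_lit 620757219) (nat_lit 706742445) (.two (nat_lit 4647288852) (nat_lit 236982892) (.two (nat_lit 2969567243) (nat_lit 158077028888) (.two (nat_lit 176160770) (nat_lit 2102883) (.two (nat_lit 8388609) (nat_lit 874518753) (.one (nat_lit 2104634) .nil))))),
   .two (nat_lit 1795162332) (nat_lit 9768534243) (.two (nat_lit 28790751339) (nat_lit 9802090146) (.two (nat_lit 1779433487) (nat_lit 165540792856) (.two (nat_lit 1291845634) (nat_lit 4200639) (.two (nat_lit 9768534017) (nat_lit 16783586) (.one (nat_lit 4201499) .nil))))),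
   .two (nat_lit 1291847132) (nat_lit 1376780517) (.two (nat_lit 1175453715) (nat_lit 12129929752) (.two (nat_lit 11492392964) (nat_lit 46507497089) (.one (nat_lit 16784701) .nil))),
   .two (nat_lit 41943231) (nat_lit 352322803) (.two (nat_lit 9948889155) (nat_lit 813697212) (.two (nat_lit 813694991) (nat_lit 687869741) (.two (nat_lit 1291845640) (nat_lit 69210740) (.two (nat_lit 203423749) (nat_lit 50337571) (.two (nat_lit 2097153) (nat_lit 50337893) (.two (nat_lit 2097152) (nat_lit 8395883) (.one (nat_lit 2104766) .nil))))))),
   .two (nat_lit 343933119) (nat_lit 166211880799) (.two (nat_lit 889192515) (nat_lit 310381354) (.two (nat_lit 83886095) (nat_lit 35655402) (.two (nat_lit 83886088) (nat_lit 2102432) (.two (nat_lit 9948889093) (nat_lit 2103574) (.two (nat_lit 2097153) (nat_lit 16784070) (.two (nat_lit 2097152) (nat_lit 16784706) (.one (nat_lit 2104920) .nil))))))),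
   .two (nat_lit 8388799) (nat_lit 19142804741) (.two (nat_lit 4613734465) (nat_lit 28093451416) (.two (nat_lit 16777224) (nat_lit 11543777954) (.two (nat_lit 746586117) (nat_lit 1779439424) (.two (nat_lit 16777217) (nat_lit 874519002) (.two (nat_lit 16777216) (nat_lit 2104216) (.one (nat_lit 2104775) .nil)))))),
   .two (nat_lit 8388799) (nat_lit 165540792503) (.two (nat_lit 8388623) (nat_lit 10335818404) (.two (nat_lit 285212677) (nat_lit 1054496) (.two (nat_lit 41943041) (nat_lit 4201161) (.two (nat_lit 8388608) (nat_lit 16784307) (.one (nat_lit 8396377) .nil))))),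
   .two (nat_lit 1847591269) (nat_lit 10537142482) (.two (nat_lit 10504634383) (nat_lit 3557822269) (.two (nat_lit 10939793416) (nat_lit 12618568320) (.two (nat_lit 165526110213) (nat_lit 9966721122) (.two (nat_lit 1048576) (nat_lit 2104173) (.one (nat_lit 1056346) .nil))))),
   .two (nat_lit 9781117119) (nat_lit 9866054489) (.two (nat_lit 4194319) (nat_lit 822088341) (.two (nat_lit 171966469) (nat_lit 35657545) (.two (nat_lit 4194305) (nat_lit 13221501848) (.one (nat_lit 1056204) .nil)))),
   .two (nat_lit 16777407) (nat_lit 10007610843) (.two (nat_lit 8388623) (nat_lit 9881783451) (.two (nat_lit 8388616) (nat_lit 20753420955) (.two (nat_lit 176160772) (nat_lit 184555970) (.two (nat_lit 2097152) (nat_lit 8395877) (.one (nat_lit 2104783) .nil))))),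
   .two (nat_lit 169869669) (nat_lit 754976971) (.two (nat_lit 4194319) (nat_lit 2969571087) (.two (nat_lit 169869320) (nat_lit 1358959268) (.two (nat_lit 9933160453) (nat_lit 9934214998) (.two (nat_lit 4194305) (nat_lit 3036682947) (.two (nat_lit 1048576) (nat_lit 3036683585) (.one (nat_lit 1056213) .nil)))))),
   .two (nat_lit 2994733414) (nat_lit 1310721241) (.two (nat_lit 9974054979) (nat_lit 203426000) (.two (nat_lit 37748751) (nat_lit 176165570) (.two (nat_lit 69206021) (nat_lit 2927630159) (.two (nat_lit 4194305) (nat_lit 169876395) (.one (nat_lit 2104793) .nil))))),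
   .two (nat_lit 8388799) (nat_lit 620758491) (.two (nat_lit 8388623) (nat_lit 18926800684) (.two (nat_lit 612368392) (nat_lit 873468532) (.two (nat_lit 8388612) (nat_lit 16783216) (.two (nat_lit 8388609) (nat_lit 303045314) (.two (nat_lit 1048576) (nat_lit 8395888) (.one (nat_lit 1056347) .nil)))))),
   .two (nat_lit 8388799) (nat_lit 620758491) (.two (nat_lit 8388623) (nat_lit 12117348983) (.two (nat_lit 8388612) (nat_lit 4634711869) (.two (nat_lit 8388609) (nat_lit 272636377) (.two (nat_lit 1048576) (nat_lit 4634713163) (.one (nat_lit 1056224) .nil))))),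
   .two (nat_lit 8388799) (nat_lit 9982444794) (.two (nat_lit 8388672) (nat_lit 13237226282) (.two (nat_lit 612368399) (nat_lit 183947496622) (.two (nat_lit 713031688) (nat_lit 16783009) (.two (nat_lit 612368389) (nat_lit 1054999) (.two (nat_lit 605028353) (nat_lit 2104012) (.two (nat_lit 2097152) (nat_lit 1056067) (.one (nat_lit 8396380) .nil))))))),
   .two (nat_lit 285212766) (nat_lit 174759871716) (.two (nat_lit 13237223615) (nat_lit 11484005331) (.two (nat_lit 41943076) (nat_lit 9781118427) (.two (nat_lit 285212738) (nat_lit 2961180891) (.two (nat_lit 813694991) (nat_lit 1291848856) (.two (nat_lit 16777222) (nat_lit 209719302) (.two (nat_lit 41943048) (nat_lit 158192372197) (.two (nat_lit 8388610) (nat_lit 11559507732) (.two (nat_lit 16777220) (nat_lit 2927629751) (.two (nat_lit 2097153) (nat_lit 47555025294) (.two (nat_lit 2097152) (nat_lit 9982450269) (.one (nat_lit 2936020452) .nil))))))))))),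
   .two (nat_lit 847249599) (nat_lit 171967443) (.two (nat_lit 4605345983) (nat_lit 3558867172) (.two (nat_lit 4605345856) (nat_lit 339740890) (.two (nat_lit 310378562) (nat_lit 28760343507) (.two (nat_lit 4605345858) (nat_lit 236978404) (.two (nat_lit 37748751) (nat_lit 46414171277) (.two (nat_lit 37748744) (nat_lit 10510928353) (.two (nat_lit 37748744) (nat_lit 156573370017) (.two (nat_lit 4194308) (nat_lit 13195283870) (.two (nat_lit 4194308) (nat_lit 11584671133) (.two (nat_lit 2097153) (nat_lit 19134419134) (.two (nat_lit 2097152) (nat_lit 183848934425) (.one (nat_lit 8396290) .nil)))))))))))),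
   .two (nat_lit 285212863) (nat_lit 47547680579) (.two (nat_lit 4194369) (nat_lit 9781118427) (.two (nat_lit 4194319) (nat_lit 1795165339) (.two (nat_lit 169869320) (nat_lit 158662136470) (.two (nat_lit 16777218) (nat_lit 4200478) (.two (nat_lit 2097157) (nat_lit 10921973181) (.two (nat_lit 34603009) (nat_lit 337648310) (.two (nat_lit 4194304) (nat_lit 1055826) (.one (nat_lit 16785010) .nil)))))))),
   .two (nat_lit 285212863) (nat_lit 47547680579) (.two (nat_lit 4194369) (nat_lit 9781118427) (.two (nat_lit 4194319) (nat_lit 1795165339) (.two (nat_lit 169869320) (nat_lit 158662136470) (.two (nat_lit 2097157) (nat_lit 822089248) (.two (nat_lit 16777220) (nat_lit 4200478) (.two (nat_lit 34603009) (nat_lit 337648310) (.two (nat_lit 4194304) (nat_lit 1055826) (.one (nat_lit 16784901) .nil)))))))),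
   .two (nat_lit 8388799) (nat_lit 9948890987) (.two (nat_lit 2969567299) (nat_lit 639632859) (.two (nat_lit 2954887183) (nat_lit 1343229678) (.two (nat_lit 169869320) (nat_lit 50336367) (.two (nat_lit 9934209029) (nat_lit 158646409025) (.two (nat_lit 9781116929) (nat_lit 1377835461) (.two (nat_lit 1048576) (nat_lit 8395859) (.one (nat_lit 1283464959) .nil))))))),
   .two (nat_lit 8388799) (nat_lit 9948890987) (.two (nat_lit 2969567299) (nat_lit 639632859) (.two (nat_lit 2954887183) (nat_lit 1343229678) (.two (nat_lit 169869320) (nat_lit 50336367) (.two (nat_lit 9934209029) (nat_lit 158646409025) (.two (nat_lit 9781116929) (nat_lit 1377835461) (.two (nat_lit 1048576) (nat_lit 8395859) (.one (nat_lit 8396294) .nil))))))),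
   .two (nat_lit 8388799) (nat_lit 10351543521) (.two (nat_lit 8388672) (nat_lit 166129043628) (.two (nat_lit 176160783) (nat_lit 47547682585) (.two (nat_lit 75497480) (nat_lit 2102404) (.two (nat_lit 166130089986) (nat_lit 1054751) (.two (nat_lit 713031684) (nat_lit 706745788) (.two (nat_lit 9766436865) (nat_lit 16784422) (.two (nat_lit 8388608) (nat_lit 705699314) (.one (nat_lit 705699314) .nil)))))))),
   .two (nat_lit 8388799) (nat_lit 10351543521) (.two (nat_lit 8388672) (nat_lit 166129043628) (.two (nat_lit 176160783) (nat_lit 47547682585) (.two (nat_lit 75497480) (nat_lit 2102404) (.two (nat_lit 270532613) (nat_lit 50337312) (.two (nat_lit 1914699781) (nat_lit 1054751) (.two (nat_lit 9765388289) (nat_lit 69213459) (.two (nat_lit 2097152) (nat_lit 705699315) (.one (nat_lit 705699315) .nil)))))))),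
   .two (nat_lit 1191182431) (nat_lit 165532402902) (.two (nat_lit 310378687) (nat_lit 183861511123) (.two (nat_lit 11559502015) (nat_lit 183912890585) (.two (nat_lit 8388626) (nat_lit 822085083) (.two (nat_lit 4605345857) (nat_lit 855640282) (.two (nat_lit 11559501890) (nat_lit 46507492296) (.two (nat_lit 50331663) (nat_lit 11517562620) (.two (nat_lit 50331656) (nat_lit 1317013989) (.two (nat_lit 721420296) (nat_lit 9974058397) (.two (nat_lit 8388612) (nat_lit 1426067580) (.two (nat_lit 8388612) (nat_lit 285216158) (.two (nat_lit 34603009) (nat_lit 9974061147) (.two (nat_lit 1048576) (nat_lit 176168204) (.one (nat_lit 9933168121) .nil))))))))))))),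
   .two (nat_lit 8388799) (nat_lit 352323408) (.two (nat_lit 8388672) (nat_lit 10000271561) (.two (nat_lit 41943055) (nat_lit 10939797249) (.two (nat_lit 705691656) (nat_lit 50336367) (.two (nat_lit 41943045) (nat_lit 184986637734) (.two (nat_lit 41943041) (nat_lit 12062824841) (.two (nat_lit 1048576) (nat_lit 3022003098) (.one (nat_lit 19094576120) .nil))))))),
   .two (nat_lit 2969567423) (nat_lit 19027461334) (.two (nat_lit 2969567296) (nat_lit 19027462312) (.two (nat_lit 158144135192) (nat_lit 13237227231) (.two (nat_lit 606076936) (nat_lit 1417679486) (.two (nat_lit 169869316) (nat_lit 19109254562) (.two (nat_lit 37748737) (nat_lit 1344280965) (.two (nat_lit 2097152) (nat_lit 4201557) (.one (nat_lit 16785011) .nil))))))),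
   .two (nat_lit 2969567423) (nat_lit 19027461334) (.two (nat_lit 2969567296) (nat_lit 19027462312) (.two (nat_lit 158144135192) (nat_lit 13237227231) (.two (nat_lit 606076936) (nat_lit 1417679486) (.two (nat_lit 169869316) (nat_lit 19109254562) (.two (nat_lit 37748737) (nat_lit 1344280965) (.two (nat_lit 2097152) (nat_lit 4201557) (.one (nat_lit 16785012) .nil))))))),
   .two (nat_lit 2969567423) (nat_lit 19027461334) (.two (nat_lit 2969567296) (nat_lit 19027462312) (.two (nat_lit 158144135192) (nat_lit 13237227231) (.two (nat_lit 606076936) (nat_lit 1417679486) (.two (nat_lit 169869316) (nat_lit 19109254562) (.two (nat_lit 37748737) (nat_lit 1344280965) (.two (nat_lit 2097152) (nat_lit 4201557) (.one (nat_lit 16785013) .nil))))))),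
   .two (nat_lit 4647289023) (nat_lit 4196187) (.two (nat_lit 339738690) (nat_lit 9781118427) (.two (nat_lit 4194319) (nat_lit 11492396175) (.two (nat_lit 4194312) (nat_lit 10504639604) (.two (nat_lit 4194308) (nat_lit 184554908) (.two (nat_lit 4194305) (nat_lit 11477719429) (.two (nat_lit 1048576) (nat_lit 2104228) (.one (nat_lit 16785014) .nil))))))),
   .two (nat_lit 13191086271) (nat_lit 18933089096) (.two (nat_lit 4601151554) (nat_lit 166136383660) (.two (nat_lit 37748751) (nat_lit 47555022575) (.two (nat_lit 37748744) (nat_lit 184993976996) (.two (nat_lit 2887778306) (nat_lit 4198535) (.two (nat_lit 46409973764) (nat_lit 236983745) (.two (nat_lit 9781116929) (nat_lit 2923436486) (.two (nat_lit 4194304) (nat_lit 185035922516) (.one (nat_lit 2104848) .nil)))))))),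
   .two (nat_lit 4601151679) (nat_lit 19545457929) (.two (nat_lit 117440579) (nat_lit 28087158966) (.two (nat_lit 2902458383) (nat_lit 12148805358) (.two (nat_lit 1779433480) (nat_lit 708842629) (.two (nat_lit 9933160453) (nat_lit 10907293824) (.two (nat_lit 117440517) (nat_lit 2420117639) (.two (nat_lit 9765388289) (nat_lit 4201149) (.two (nat_lit 1048576) (nat_lit 2104408) (.one (nat_lit 1056375) .nil)))))))),
   .two (nat_lit 3525312703) (nat_lit 10921968905) (.two (nat_lit 9881780291) (nat_lit 156969732278) (.two (nat_lit 2969567247) (nat_lit 28798095086) (.two (nat_lit 1343225864) (nat_lit 1176507525) (.two (nat_lit 721420292) (nat_lit 2350911623) (.two (nat_lit 68157443) (nat_lit 2887785149) (.two (nat_lit 605028353) (nat_lit 2887785149) (.two (nat_lit 1048576) (nat_lit 2894077016) (.one (nat_lit 1056376) .nil)))))))),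
   .two (nat_lit 41943231) (nat_lit 20640171228) (.two (nat_lit 185002360897) (nat_lit 21785217213) (.two (nat_lit 13203669007) (nat_lit 176163999) (.two (nat_lit 16777224) (nat_lit 183846834182) (.two (nat_lit 16777220) (nat_lit 20738741657) (.two (nat_lit 8388609) (nat_lit 2103758) (.two (nat_lit 8388608) (nat_lit 2104410) (.one (nat_lit 2104953) .nil))))))),
   .two (nat_lit 19027460659) (nat_lit 9948889307) (.two (nat_lit 9934209062) (nat_lit 9781117768) (.two (nat_lit 47596961859) (nat_lit 19027462312) (.two (nat_lit 37748751) (nat_lit 4638904042) (.two (nat_lit 37748744) (nat_lit 1920995968) (.two (nat_lit 4194308) (nat_lit 9781122849) (.two (nat_lit 4194305) (nat_lit 16783823) (.two (nat_lit 8388608) (nat_lit 2104640) (.one (nat_lit 2104850) .nil)))))))),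
   .two (nat_lit 19027460659) (nat_lit 9948889307) (.two (nat_lit 9948889184) (nat_lit 19027461334) (.two (nat_lit 9934209062) (nat_lit 9781117768) (.two (nat_lit 47596961859) (nat_lit 19027462312) (.two (nat_lit 37748751) (nat_lit 4638904042) (.two (nat_lit 37748744) (nat_lit 1920995968) (.two (nat_lit 4194308) (nat_lit 9781122849) (.two (nat_lit 4194305) (nat_lit 16783823) (.two (nat_lit 8388608) (nat_lit 2104640) (.one (nat_lit 2104954) .nil))))))))),
   .two (nat_lit 2097346) (nat_lit 165532402504) (.two (nat_lit 822083680) (nat_lit 166132188374) (.two (nat_lit 4647288899) (nat_lit 166132189352) (.two (nat_lit 37748751) (nat_lit 47588577002) (.two (nat_lit 37748744) (nat_lit 3003126437) (.two (nat_lit 169869316) (nat_lit 654317345) (.two (nat_lit 2097153) (nat_lit 184555983) (.two (nat_lit 8388608) (nat_lit 171973952) (.one (nat_lit 4202107) .nil)))))))),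
   .two (nat_lit 159217877183) (nat_lit 8390524) (.two (nat_lit 158083317826) (nat_lit 47548728796) (.two (nat_lit 37748751) (nat_lit 4605349677) (.two (nat_lit 11492392968) (nat_lit 46409978527) (.two (nat_lit 2889875460) (nat_lit 1224742722) (.two (nat_lit 612368385) (nat_lit 1344281272) (.two (nat_lit 2097152) (nat_lit 4201564) (.one (nat_lit 4202003) .nil))))))),
   .two (nat_lit 13195280575) (nat_lit 2889877372) (.two (nat_lit 3458203715) (nat_lit 183953787081) (.two (nat_lit 813694991) (nat_lit 3527413549) (.two (nat_lit 606076936) (nat_lit 159232561795) (.two (nat_lit 169869316) (nat_lit 174701156162) (.two (nat_lit 37748737) (nat_lit 746592952) (.two (nat_lit 4194304) (nat_lit 2887785564) (.one (nat_lit 2104956) .nil))))))),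
   .two (nat_lit 10376708191) (nat_lit 4027581674) (.two (nat_lit 8388799) (nat_lit 2902458586) (.two (nat_lit 2902458386) (nat_lit 174752532655) (.two (nat_lit 2994733122) (nat_lit 101715356) (.two (nat_lit 8388672) (nat_lit 9781117155) (.two (nat_lit 639631375) (nat_lit 9966718691) (.two (nat_lit 612368392) (nat_lit 1276122658) (.two (nat_lit 41943048) (nat_lit 2920287644) (.two (nat_lit 218103813) (nat_lit 1343230865) (.two (nat_lit 34603013) (nat_lit 343938688) (.two (nat_lit 2097153) (nat_lit 839915621) (.two (nat_lit 1048576) (nat_lit 773855851) (.one (nat_lit 8396309) .nil)))))))))))),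
   .two (nat_lit 1291845727) (nat_lit 10906240234) (.two (nat_lit 2902458464) (nat_lit 37314629020) (.two (nat_lit 285212863) (nat_lit 184419352794) (.two (nat_lit 9934209043) (nat_lit 16779431) (.two (nat_lit 156367847460) (nat_lit 158143088815) (.two (nat_lit 3573547074) (nat_lit 19596840348) (.two (nat_lit 157036838927) (nat_lit 10537144035) (.two (nat_lit 46407876614) (nat_lit 10942943924) (.two (nat_lit 9781116936) (nat_lit 166129047074) (.two (nat_lit 46409973765) (nat_lit 4632613768) (.two (nat_lit 3458203653) (nat_lit 168827112) (.two (nat_lit 2097153) (nat_lit 873470053) (.two (nat_lit 2097152) (nat_lit 16784573) (.one (nat_lit 16785021) .nil))))))))))))),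
   .two (nat_lit 50331743) (nat_lit 705692488) (.two (nat_lit 2954887359) (nat_lit 21827158486) (.two (nat_lit 2954887359) (nat_lit 1312817369) (.two (nat_lit 46523219988) (nat_lit 2953840813) (.two (nat_lit 2969567268) (nat_lit 9933162677) (.two (nat_lit 2954887232) (nat_lit 46473938535) (.two (nat_lit 2969567247) (nat_lit 3020951264) (.two (nat_lit 3539992584) (nat_lit 10538192916) (.two (nat_lit 2969567240) (nat_lit 19532877129) (.two (nat_lit 1291845634) (nat_lit 2921338694) (.two (nat_lit 20652752901) (nat_lit 159216833989) (.two (nat_lit 620756993) (nat_lit 159253534845) (.two (nat_lit 4194304) (nat_lit 1055934) (.one (nat_lit 4202110) .nil))))))))))))),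
   .two (nat_lit 50331839) (nat_lit 185021236467) (.two (nat_lit 184993972289) (nat_lit 11510221004) (.two (nat_lit 184993972239) (nat_lit 20638076678) (.two (nat_lit 176160776) (nat_lit 37313581749) (.two (nat_lit 8388613) (nat_lit 21777879953) (.two (nat_lit 8388611) (nat_lit 2103109) (.two (nat_lit 2097153) (nat_lit 16784423) (.two (nat_lit 2097152) (nat_lit 1056075) (.one (nat_lit 1056383) .nil)))))))),
   .two (nat_lit 50331839) (nat_lit 185021236467) (.two (nat_lit 184993972289) (nat_lit 11510221004) (.two (nat_lit 184993972239) (nat_lit 20638076678) (.two (nat_lit 176160776) (nat_lit 37313581749) (.two (nat_lit 34603013) (nat_lit 16782880) (.two (nat_lit 8388613) (nat_lit 21777879953) (.two (nat_lit 2097153) (nat_lit 1056019) (.two (nat_lit 2097152) (nat_lit 1056076) (.one (nat_lit 185002368517) .nil)))))))),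
   .two (nat_lit 41943231) (nat_lit 285213989) (.two (nat_lit 13203669099) (nat_lit 10007610843) (.two (nat_lit 13203669007) (nat_lit 2923433134) (.two (nat_lit 184549384) (nat_lit 276828797) (.two (nat_lit 8388612) (nat_lit 157038939551) (.two (nat_lit 176160772) (nat_lit 2102727) (.two (nat_lit 2097153) (nat_lit 343938592) (.two (nat_lit 4194304) (nat_lit 8395968) (.one (nat_lit 8396313) .nil)))))))),
   .two (nat_lit 41943231) (nat_lit 285213989) (.two (nat_lit 13203669099) (nat_lit 10007610843) (.two (nat_lit 13203669007) (nat_lit 2923433134) (.two (nat_lit 184549384) (nat_lit 276828797) (.two (nat_lit 176160772) (nat_lit 2102727) (.two (nat_lit 8388612) (nat_lit 13203675166) (.two (nat_lit 2097153) (nat_lit 16783911) (.two (nat_lit 4194304) (nat_lit 8395969) (.one (nat_lit 8396416) .nil)))))))),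
   .two (nat_lit 41943231) (nat_lit 2969568549) (.two (nat_lit 159232557163) (nat_lit 880805339) (.two (nat_lit 159232557071) (nat_lit 236981422) (.two (nat_lit 16777224) (nat_lit 2961183357) (.two (nat_lit 176160772) (nat_lit 159232563230) (.two (nat_lit 46409973763) (nat_lit 10443822525) (.two (nat_lit 4194305) (nat_lit 16784190) (.two (nat_lit 2097152) (nat_lit 8395970) (.one (nat_lit 8396417) .nil)))))))),
   .two (nat_lit 13191086271) (nat_lit 46523220808) (.two (nat_lit 306184257) (nat_lit 156532476727) (.two (nat_lit 9781116943) (nat_lit 13188992794) (.two (nat_lit 9881780232) (nat_lit 183947498147) (.two (nat_lit 1276116996) (nat_lit 270538277) (.two (nat_lit 117440517) (nat_lit 2420117639) (.two (nat_lit 606076929) (nat_lit 4200914) (.two (nat_lit 2097152) (nat_lit 11593063316) (.one (nat_lit 1056282) .nil)))))))),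
   .two (nat_lit 46474985663) (nat_lit 47596962632) (.two (nat_lit 47596961858) (nat_lit 19529730230) (.two (nat_lit 9948889103) (nat_lit 10510929690) (.two (nat_lit 11559501832) (nat_lit 166237049507) (.two (nat_lit 721420292) (nat_lit 2350911623) (.two (nat_lit 83886083) (nat_lit 19537073952) (.two (nat_lit 41943041) (nat_lit 2887784914) (.two (nat_lit 8388608) (nat_lit 19109256084) (.one (nat_lit 1056386) .nil)))))))),
   .two (nat_lit 8388799) (nat_lit 11010049318) (.two (nat_lit 8388672) (nat_lit 1413482682) (.two (nat_lit 41943055) (nat_lit 13221498016) (.two (nat_lit 41943048) (nat_lit 10351547513) (.two (nat_lit 8388612) (nat_lit 159216831903) (.two (nat_lit 8388612) (nat_lit 156364706696) (.two (nat_lit 50331649) (nat_lit 4631567027) (.two (nat_lit 8388608) (nat_lit 1055839) (.one (nat_lit 4202115) .nil)))))))),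
   .two (nat_lit 185020186815) (nat_lit 10338960657) (.two (nat_lit 46489665643) (nat_lit 675285194) (.two (nat_lit 272629775) (nat_lit 1052468) (.two (nat_lit 11492392968) (nat_lit 11511272086) (.two (nat_lit 2887778306) (nat_lit 4199316) (.two (nat_lit 1191182339) (nat_lit 11611936577) (.two (nat_lit 37748737) (nat_lit 303045589) (.two (nat_lit 4194304) (nat_lit 1056077) (.one (nat_lit 1056283) .nil)))))))),
   .two (nat_lit 183912890559) (nat_lit 9940501777) (.two (nat_lit 239075435) (nat_lit 159257725130) (.two (nat_lit 4605345807) (nat_lit 4631564084) (.two (nat_lit 183848927240) (nat_lit 11611935382) (.two (nat_lit 20637024258) (nat_lit 4200480) (.two (nat_lit 612368389) (nat_lit 28089259457) (.two (nat_lit 41943041) (nat_lit 1055784) (.two (nat_lit 8388608) (nat_lit 1056078) (.one (nat_lit 1056388) .nil)))))))),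
   .two (nat_lit 306184383) (nat_lit 1948255050) (.two (nat_lit 11513364545) (nat_lit 807405774) (.two (nat_lit 184549391) (nat_lit 183946448628) (.two (nat_lit 158144135176) (nat_lit 19545461411) (.two (nat_lit 2954887173) (nat_lit 318772116) (.two (nat_lit 1277165572) (nat_lit 12620664967) (.two (nat_lit 620756993) (nat_lit 239081938) (.two (nat_lit 16777216) (nat_lit 2317360020) (.one (nat_lit 235937306) .nil)))))))),
   .two (nat_lit 46474985663) (nat_lit 158183981898) (.two (nat_lit 19027460161) (nat_lit 645925070) (.two (nat_lit 285212687) (nat_lit 166229708532) (.two (nat_lit 184993972232) (nat_lit 10921972387) (.two (nat_lit 713031684) (nat_lit 10437529735) (.two (nat_lit 184549379) (nat_lit 2886735681) (.two (nat_lit 50331649) (nat_lit 46407883218) (.two (nat_lit 16777216) (nat_lit 2424314772) (.one (nat_lit 1056389) .nil)))))))),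
   .two (nat_lit 174753579570) (nat_lit 47596962632) (.two (nat_lit 2969567297) (nat_lit 270533115) (.two (nat_lit 2969567297) (nat_lit 9772729296) (.two (nat_lit 2969567247) (nat_lit 8393765) (.two (nat_lit 8388616) (nat_lit 1053831) (.two (nat_lit 8388612) (nat_lit 10939796895) (.two (nat_lit 16777221) (nat_lit 4034925460) (.two (nat_lit 41943041) (nat_lit 158177695974) (.two (nat_lit 8388608) (nat_lit 1056079) (.one (nat_lit 1056284) .nil))))))))),
   .two (nat_lit 236979017) (nat_lit 11010048840) (.two (nat_lit 166132187494) (nat_lit 183947495597) (.two (nat_lit 3527409731) (nat_lit 1224739985) (.two (nat_lit 10336862223) (nat_lit 2936017521) (.two (nat_lit 4634705932) (nat_lit 9814676354) (.two (nat_lit 3527409669) (nat_lit 47548733534) (.two (nat_lit 2097153) (nat_lit 11479817050) (.two (nat_lit 2097152) (nat_lit 1178606951) (.one (nat_lit 69213831) .nil)))))))),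
   .two (nat_lit 21827158856) (nat_lit 37313577801) (.two (nat_lit 37313577542) (nat_lit 2420114907) (.two (nat_lit 2349858883) (nat_lit 184552593) (.two (nat_lit 9781116943) (nat_lit 9802092548) (.two (nat_lit 205520904) (nat_lit 10016003479) (.two (nat_lit 4194308) (nat_lit 16783750) (.two (nat_lit 156364701697) (nat_lit 11492400353) (.one (nat_lit 1056288) .nil))))))),
   .two (nat_lit 2923430728) (nat_lit 16778461) (.two (nat_lit 285212863) (nat_lit 4197117) (.two (nat_lit 3527409731) (nat_lit 1224739985) (.two (nat_lit 2902458383) (nat_lit 104862318) (.two (nat_lit 4634705932) (nat_lit 9814676354) (.two (nat_lit 3527409669) (nat_lit 16783751) (.two (nat_lit 4194305) (nat_lit 16784225) (.two (nat_lit 4194304) (nat_lit 16784744) (.one (nat_lit 4202017) .nil)))))))),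
   .two (nat_lit 184550217) (nat_lit 11618223311) (.two (nat_lit 2969567423) (nat_lit 880805339) (.two (nat_lit 8388672) (nat_lit 2969571333) (.two (nat_lit 8388616) (nat_lit 174768264066) (.two (nat_lit 176160773) (nat_lit 9881786759) (.two (nat_lit 16777217) (nat_lit 165532408673) (.two (nat_lit 8388608) (nat_lit 16784745) (.one (nat_lit 4613742111) .nil))))))),
   .two (nat_lit 83886920) (nat_lit 10343154909) (.two (nat_lit 16777407) (nat_lit 12054431915) (.two (nat_lit 16777280) (nat_lit 183853124751) (.two (nat_lit 41943055) (nat_lit 16782209) (.two (nat_lit 8388612) (nat_lit 16783455) (.two (nat_lit 8388609) (nat_lit 11492399969) (.two (nat_lit 8388608) (nat_lit 9781124456) (.one (nat_lit 2961186335) .nil))))))),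
   .two (nat_lit 1847591753) (nat_lit 16778462) (.two (nat_lit 889192639) (nat_lit 1753220571) (.two (nat_lit 16777280) (nat_lit 8392417) (.two (nat_lit 2969567247) (nat_lit 673190508) (.two (nat_lit 11551113224) (nat_lit 9781123167) (.two (nat_lit 41943041) (nat_lit 9881787233) (.two (nat_lit 2097152) (nat_lit 8396138) (.one (nat_lit 10370424353) .nil))))))),
   .two (nat_lit 184993973064) (nat_lit 1426064200) (.two (nat_lit 156367847615) (nat_lit 19100863633) (.two (nat_lit 713031695) (nat_lit 876614259) (.two (nat_lit 713031688) (nat_lit 809506551) (.two (nat_lit 4194308) (nat_lit 8395144) (.two (nat_lit 4194305) (nat_lit 8395618) (.two (nat_lit 4194304) (nat_lit 16784747) (.one (nat_lit 4202123) .nil))))))),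
   .two (nat_lit 46980399945) (nat_lit 1209008968) (.two (nat_lit 185035915455) (nat_lit 37313579179) (.two (nat_lit 20704133187) (nat_lit 788532370) (.two (nat_lit 1191182351) (nat_lit 4199518) (.two (nat_lit 9866051597) (nat_lit 16782209) (.two (nat_lit 34603013) (nat_lit 50337887) (.two (nat_lit 2097153) (nat_lit 739253082) (.two (nat_lit 1048576) (nat_lit 16784748) (.one (nat_lit 1056396) .nil)))))))),
   .two (nat_lit 343933769) (nat_lit 1049823) (.two (nat_lit 20704133311) (nat_lit 3464497325) (.two (nat_lit 46409973827) (nat_lit 10947137542) (.two (nat_lit 4194312) (nat_lit 8394137) (.two (nat_lit 4194308) (nat_lit 1055113) (.two (nat_lit 612368385) (nat_lit 20707285855) (.two (nat_lit 1048576) (nat_lit 4201837) (.one (nat_lit 1056397) .nil))))))),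
   .two (nat_lit 754975560) (nat_lit 1049824) (.two (nat_lit 9781117119) (nat_lit 9802089948) (.two (nat_lit 4601151552) (nat_lit 19545459857) (.two (nat_lit 11492392975) (nat_lit 174685426291) (.two (nat_lit 4194312) (nat_lit 16782209) (.two (nat_lit 4194308) (nat_lit 822089821) (.two (nat_lit 4194305) (nat_lit 721427294) (.two (nat_lit 1048576) (nat_lit 754982112) (.one (nat_lit 1056398) .nil)))))))),
   .two (nat_lit 9899606856) (nat_lit 16778465) (.two (nat_lit 11559502015) (nat_lit 1050799) (.two (nat_lit 20704133187) (nat_lit 150998161) (.two (nat_lit 28086108175) (nat_lit 11525952113) (.two (nat_lit 21811429388) (nat_lit 150999938) (.two (nat_lit 11492392964) (nat_lit 1055114) (.two (nat_lit 605028353) (nat_lit 83893089) (.two (nat_lit 1048576) (nat_lit 16784750) (.one (nat_lit 68165153) .nil)))))))),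
   .two (nat_lit 9781117768) (nat_lit 4195554) (.two (nat_lit 9781117119) (nat_lit 1212155356) (.two (nat_lit 184419352641) (nat_lit 9814674577) (.two (nat_lit 37748751) (nat_lit 16782209) (.two (nat_lit 4194308) (nat_lit 83892317) (.two (nat_lit 2097153) (nat_lit 218111200) (.one (nat_lit 270540319) .nil)))))),
   .two (nat_lit 47555019592) (nat_lit 156365751113) (.two (nat_lit 2994733247) (nat_lit 28758247597) (.two (nat_lit 889192557) (nat_lit 3565161618) (.two (nat_lit 20644364303) (nat_lit 37246472813) (.two (nat_lit 28772925448) (nat_lit 303043458) (.two (nat_lit 4599054341) (nat_lit 10443823496) (.two (nat_lit 50331649) (nat_lit 158653750105) (.two (nat_lit 1048576) (nat_lit 8396143) (.one (nat_lit 1056399) .nil)))))))),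
   .two (nat_lit 9802089288) (nat_lit 156968682312) (.two (nat_lit 4647289023) (nat_lit 9802089947) (.two (nat_lit 156465365057) (nat_lit 2332036241) (.two (nat_lit 11492392975) (nat_lit 174685426291) (.two (nat_lit 4194312) (nat_lit 16782209) (.two (nat_lit 4194308) (nat_lit 822089821) (.two (nat_lit 4194305) (nat_lit 721427294) (.two (nat_lit 1048576) (nat_lit 16784752) (.one (nat_lit 1056400) .nil)))))))),
   .two (nat_lit 310379336) (nat_lit 156569174857) (.two (nat_lit 156569174598) (nat_lit 12114200028) (.two (nat_lit 19130220611) (nat_lit 8391827) (.two (nat_lit 184993972239) (nat_lit 1947209732) (.two (nat_lit 68157448) (nat_lit 8394138) (.two (nat_lit 272629765) (nat_lit 1055115) (.two (nat_lit 4194305) (nat_lit 1055587) (.two (nat_lit 4194304) (nat_lit 21785222369) (.one (nat_lit 1056401) .nil)))))))),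
   .two (nat_lit 16778056) (nat_lit 28791800648) (.two (nat_lit 16777407) (nat_lit 1377831093) (.two (nat_lit 16777283) (nat_lit 28693236909) (.two (nat_lit 16777231) (nat_lit 236982902) (.two (nat_lit 16777224) (nat_lit 158179792645) (.two (nat_lit 721420293) (nat_lit 21781027268) (.two (nat_lit 16777217) (nat_lit 159217883997) (.two (nat_lit 2097152) (nat_lit 708845087) .nil))))))),
   .two (nat_lit 1191183176) (nat_lit 158146233595) (.two (nat_lit 285212863) (nat_lit 19599984092) (.two (nat_lit 285212736) (nat_lit 1212157069) (.two (nat_lit 285212687) (nat_lit 10942943242) (.two (nat_lit 4194312) (nat_lit 83892321) (.two (nat_lit 4194305) (nat_lit 83893096) (.two (nat_lit 1048576) (nat_lit 218111200) (.one (nat_lit 9933168161) .nil))))))),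
   .two (nat_lit 157036839752) (nat_lit 4195146) (.two (nat_lit 47596961983) (nat_lit 2954889429) (.two (nat_lit 3460300865) (nat_lit 740298483) (.two (nat_lit 156367847439) (nat_lit 12114203300) (.two (nat_lit 9781116936) (nat_lit 3557824344) (.two (nat_lit 2097157) (nat_lit 721426525) (.two (nat_lit 2097153) (nat_lit 34610010) (.two (nat_lit 1048576) (nat_lit 2104743) (.one (nat_lit 1056434) .nil)))))))),
   .two (nat_lit 20753417032) (nat_lit 9766438170) (.two (nat_lit 654311615) (nat_lit 2988444497) (.two (nat_lit 47548727360) (nat_lit 165528210588) (.two (nat_lit 37748751) (nat_lit 11626615419) (.two (nat_lit 9768534024) (nat_lit 19094574846) (.two (nat_lit 9768534021) (nat_lit 19128129635) (.two (nat_lit 2097153) (nat_lit 1358961540) (.two (nat_lit 2097152) (nat_lit 285220233) (.one (nat_lit 2105011) .nil)))))))),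
   .two (nat_lit 1847591753) (nat_lit 11014243145) (.two (nat_lit 352321727) (nat_lit 2323646672) (.two (nat_lit 46489665602) (nat_lit 236982077) (.two (nat_lit 3464495119) (nat_lit 47548732099) (.two (nat_lit 47563407368) (nat_lit 3458209623) (.two (nat_lit 3531603973) (nat_lit 874518921) (.two (nat_lit 9765388289) (nat_lit 880810843) (.two (nat_lit 1048576) (nat_lit 2104744) (.one (nat_lit 1056436) .nil)))))))),
   .two (nat_lit 46474986313) (nat_lit 10015998794) (.two (nat_lit 41943231) (nat_lit 159266113729) (.two (nat_lit 47555018816) (nat_lit 28691139749) (.two (nat_lit 721420303) (nat_lit 343937028) (.two (nat_lit 612368392) (nat_lit 1780488003) (.two (nat_lit 10370416645) (nat_lit 159224175046) (.two (nat_lit 2097153) (nat_lit 9982450594) (.two (nat_lit 2097152) (nat_lit 8396201) (.one (nat_lit 2105013) .nil)))))))),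
   .two (nat_lit 50332488) (nat_lit 10503586634) (.two (nat_lit 272629951) (nat_lit 2969570468) (.two (nat_lit 285212687) (nat_lit 19096670219) (.two (nat_lit 158143086600) (nat_lit 10552874815) (.two (nat_lit 754974725) (nat_lit 19130227142) (.two (nat_lit 620756993) (nat_lit 19127081885) (.two (nat_lit 1048576) (nat_lit 4201898) (.one (nat_lit 1056438) .nil))))))),
   .two (nat_lit 306185033) (nat_lit 142607599) (.two (nat_lit 310378687) (nat_lit 11513367696) (.two (nat_lit 4601151503) (nat_lit 3028291591) (.two (nat_lit 276824072) (nat_lit 11010053527) (.two (nat_lit 1846542341) (nat_lit 166203496915) (.two (nat_lit 37748737) (nat_lit 772807591) (.two (nat_lit 1048576) (nat_lit 4201899) (.one (nat_lit 4202167) .nil))))))),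
   .two (nat_lit 3028288329) (nat_lit 18925749064) (.two (nat_lit 352321727) (nat_lit 847251670) (.two (nat_lit 4613734466) (nat_lit 1317014701) (.two (nat_lit 176160783) (nat_lit 184986636962) (.two (nat_lit 2961178632) (nat_lit 740300619) (.two (nat_lit 176160772) (nat_lit 1055194) (.two (nat_lit 50331649) (nat_lit 310385562) (.two (nat_lit 8388608) (nat_lit 705699222) (.one (nat_lit 1056440) .nil)))))))),
   .two (nat_lit 343933769) (nat_lit 83887380) (.two (nat_lit 50331839) (nat_lit 20644367157) (.two (nat_lit 176160835) (nat_lit 2902462471) (.two (nat_lit 8388616) (nat_lit 159266117019) (.two (nat_lit 8388612) (nat_lit 16783835) (.two (nat_lit 41943041) (nat_lit 1343232915) (.two (nat_lit 8388608) (nat_lit 1056172) (.one (nat_lit 1056441) .nil))))))),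
   .two (nat_lit 11618222920) (nat_lit 620758292) (.two (nat_lit 50331839) (nat_lit 8390830) (.two (nat_lit 16777280) (nat_lit 746589359) (.two (nat_lit 16777231) (nat_lit 3464499839) (.two (nat_lit 184549384) (nat_lit 156372047612) (.two (nat_lit 41943045) (nat_lit 20705187934) (.two (nat_lit 16777217) (nat_lit 276831102) (.two (nat_lit 8388608) (nat_lit 2104730) (.one (nat_lit 2105018) .nil)))))))),
   .two (nat_lit 46477083464) (nat_lit 174753579848) (.two (nat_lit 158143086783) (nat_lit 156969732293) (.two (nat_lit 3527409729) (nat_lit 10538192677) (.two (nat_lit 205520911) (nat_lit 28791804598) (.two (nat_lit 1178599432) (nat_lit 35657465) (.two (nat_lit 158144135173) (nat_lit 2420119965) (.two (nat_lit 2097153) (nat_lit 1279269797) (.two (nat_lit 2097152) (nat_lit 4201901) (.one (nat_lit 28760350384) .nil)))))))),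
   .two (nat_lit 159266112329) (nat_lit 21208499016) (.two (nat_lit 47596961983) (nat_lit 4028632238) (.two (nat_lit 2969567247) (nat_lit 102765219) (.two (nat_lit 2969567240) (nat_lit 12115253011) (.two (nat_lit 218103813) (nat_lit 183913945503) (.two (nat_lit 605028353) (nat_lit 46978309013) (.two (nat_lit 1048576) (nat_lit 2104750) (.one (nat_lit 1056443) .nil))))))),
   .two (nat_lit 37246468937) (nat_lit 158091707622) (.two (nat_lit 50331839) (nat_lit 10343155164) (.two (nat_lit 16777280) (nat_lit 183853125646) (.two (nat_lit 8388616) (nat_lit 16782209) (.two (nat_lit 8388612) (nat_lit 620763233) (.two (nat_lit 41943041) (nat_lit 2953845594) (.two (nat_lit 1048576) (nat_lit 11559509216) (.one (nat_lit 269491744) .nil))))))),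
   .two (nat_lit 156569174856) (nat_lit 1913652041) (.two (nat_lit 10504634950) (nat_lit 156569175515) (.two (nat_lit 3525312578) (nat_lit 46510640287) (.two (nat_lit 2887778319) (nat_lit 4634710719) (.two (nat_lit 4194312) (nat_lit 2103142) (.two (nat_lit 4194308) (nat_lit 1055161) (.two (nat_lit 2097153) (nat_lit 873470812) (.two (nat_lit 1048576) (nat_lit 2104751) (.one (nat_lit 1056444) .nil)))))))),
   .two (nat_lit 47582282569) (nat_lit 174752531272) (.two (nat_lit 47596961983) (nat_lit 158177691839) (.two (nat_lit 11543773250) (nat_lit 721423512) (.two (nat_lit 169869327) (nat_lit 47596966540) (.two (nat_lit 2954887176) (nat_lit 158143092571) (.two (nat_lit 169869316) (nat_lit 158143093206) (.two (nat_lit 9781116929) (nat_lit 11477719937) (.two (nat_lit 2097152) (nat_lit 19042147714) (.one (nat_lit 1056445) .nil)))))))),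
   .two (nat_lit 11492393801) (nat_lit 165526111524) (.two (nat_lit 2988441791) (nat_lit 721422509) (.two (nat_lit 47548727360) (nat_lit 721424175) (.two (nat_lit 169869327) (nat_lit 1426067464) (.two (nat_lit 2954887176) (nat_lit 184554909) (.two (nat_lit 101711877) (nat_lit 184555922) (.two (nat_lit 16777217) (nat_lit 1309678493) (.two (nat_lit 1048576) (nat_lit 16784816) (.one (nat_lit 2105022) .nil)))))))),
   .two (nat_lit 159224169288) (nat_lit 3573547850) (.two (nat_lit 41943231) (nat_lit 1392511156) (.two (nat_lit 8388672) (nat_lit 20753420042) (.two (nat_lit 713031695) (nat_lit 46523224735) (.two (nat_lit 16777224) (nat_lit 9772733314) (.two (nat_lit 16777220) (nat_lit 1317017706) (.two (nat_lit 8388609) (nat_lit 156380437413) (.two (nat_lit 2097152) (nat_lit 8396209) (.one (nat_lit 2105001) .nil)))))))),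
   .two (nat_lit 104858440) (nat_lit 1392510184) (.two (nat_lit 41943231) (nat_lit 183848928732) (.two (nat_lit 8388672) (nat_lit 304090279) (.two (nat_lit 8388623) (nat_lit 3472888447) (.two (nat_lit 176160776) (nat_lit 156380436220) (.two (nat_lit 176160772) (nat_lit 10452211811) (.two (nat_lit 8388609) (nat_lit 166132194374) (.two (nat_lit 16777216) (nat_lit 156971834594) (.one (nat_lit 2105023) .nil)))))))),
   .two (nat_lit 1343226696) (nat_lit 1191183580) (.two (nat_lit 272629951) (nat_lit 16780149) (.two (nat_lit 4647288945) (nat_lit 156569177230) (.two (nat_lit 822083599) (nat_lit 4199124) (.two (nat_lit 822083592) (nat_lit 37246474019) (.two (nat_lit 12114198533) (nat_lit 16783836) (.two (nat_lit 34603009) (nat_lit 46489672610) (.two (nat_lit 1048576) (nat_lit 16784818) (.one (nat_lit 1056448) .nil)))))))),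
   .two (nat_lit 157038936904) (nat_lit 2886730998) (.two (nat_lit 9802088639) (nat_lit 1051510) (.two (nat_lit 4601151552) (nat_lit 605032240) (.two (nat_lit 2887778319) (nat_lit 306188991) (.two (nat_lit 606076936) (nat_lit 1054567) (.two (nat_lit 169869316) (nat_lit 4598012364) (.two (nat_lit 2097153) (nat_lit 839916630) (.two (nat_lit 2097152) (nat_lit 11510226337) (.one (nat_lit 2920292007) .nil)))))))),
   .two (nat_lit 3573547848) (nat_lit 166230754516) (.two (nat_lit 21811429567) (nat_lit 158662134639) (.two (nat_lit 218103873) (nat_lit 1051799) (.two (nat_lit 117440527) (nat_lit 1276121739) (.two (nat_lit 218103816) (nat_lit 1054568) (.two (nat_lit 184549381) (nat_lit 638589386) (.two (nat_lit 50331649) (nat_lit 101719123) (.two (nat_lit 16777216) (nat_lit 20705189286) (.one (nat_lit 16785090) .nil)))))))),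
   .two (nat_lit 10506732360) (nat_lit 8389931) (.two (nat_lit 612368575) (nat_lit 185035917505) (.two (nat_lit 10519314539) (nat_lit 1178602669) (.two (nat_lit 16777231) (nat_lit 10007613444) (.two (nat_lit 16777224) (nat_lit 8394157) (.two (nat_lit 16777220) (nat_lit 46409980348) (.two (nat_lit 4194305) (nat_lit 11593063330) (.two (nat_lit 4194304) (nat_lit 612375977) (.one (nat_lit 16785091) .nil)))))))),
   .two (nat_lit 12163482441) (nat_lit 1309672737) (.two (nat_lit 8388799) (nat_lit 47596964033) (.two (nat_lit 713031746) (nat_lit 10552872692) (.two (nat_lit 50331663) (nat_lit 10007613444) (.two (nat_lit 4613734408) (nat_lit 46414173609) (.two (nat_lit 16777220) (nat_lit 8395229) (.two (nat_lit 156364701697) (nat_lit 620764041) (.two (nat_lit 1048576) (nat_lit 75505065) (.one (nat_lit 16785092) .nil)))))))),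
   .two (nat_lit 19530777416) (nat_lit 4195146) (.two (nat_lit 47596961983) (nat_lit 10370418901) (.two (nat_lit 3460300865) (nat_lit 159251435286) (.two (nat_lit 28086108175) (nat_lit 11611935414) (.two (nat_lit 3539992584) (nat_lit 203429695) (.two (nat_lit 171966469) (nat_lit 4632615010) (.two (nat_lit 4194305) (nat_lit 9766443872) (.two (nat_lit 1048576) (nat_lit 809508221) (.one (nat_lit 2105029) .nil)))))))),
   .two (nat_lit 739246920) (nat_lit 19545457913) (.two (nat_lit 2954887359) (nat_lit 1786775754) (.two (nat_lit 11543773251) (nat_lit 158177692820) (.two (nat_lit 11492392975) (nat_lit 2316309110) (.two (nat_lit 169869320) (nat_lit 41948568) (.two (nat_lit 822083589) (nat_lit 174752536970) (.two (nat_lit 606076929) (nat_lit 839916379) (.two (nat_lit 16777216) (nat_lit 46406835744) .nil))))))),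
   .two (nat_lit 1191183176) (nat_lit 2988442856) (.two (nat_lit 13237223615) (nat_lit 4197239) (.two (nat_lit 4194370) (nat_lit 12163485707) (.two (nat_lit 4194312) (nat_lit 16783209) (.two (nat_lit 4599054341) (nat_lit 218110402) (.two (nat_lit 156365750273) (nat_lit 202382410) (.two (nat_lit 1048576) (nat_lit 2104756) (.one (nat_lit 2105030) .nil))))))),
   .two (nat_lit 754975561) (nat_lit 166197200100) (.two (nat_lit 9781117119) (nat_lit 28758248596) (.two (nat_lit 169869327) (nat_lit 20753420300) (.two (nat_lit 1343225864) (nat_lit 740300599) (.two (nat_lit 2902458372) (nat_lit 236984795) (.two (nat_lit 34603009) (nat_lit 203430832) (.two (nat_lit 1048576) (nat_lit 2104757) (.one (nat_lit 1056455) .nil))))))),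
   .two (nat_lit 1753219913) (nat_lit 1358955765) (.two (nat_lit 620757183) (nat_lit 18933089756) (.two (nat_lit 16777280) (nat_lit 880807076) (.two (nat_lit 4605345807) (nat_lit 3539996681) (.two (nat_lit 41943048) (nat_lit 184555613) (.two (nat_lit 8388609) (nat_lit 9869204314) (.two (nat_lit 4194304) (nat_lit 41950437) (.one (nat_lit 8396488) .nil))))))),
   .two (nat_lit 9781117768) (nat_lit 13221495626) (.two (nat_lit 654311615) (nat_lit 2953841526) (.two (nat_lit 285212736) (nat_lit 11476668214) (.two (nat_lit 4194319) (nat_lit 16782209) (.two (nat_lit 4194308) (nat_lit 156566034530) (.two (nat_lit 4194305) (nat_lit 168827738) (.two (nat_lit 1048576) (nat_lit 608181610) (.one (nat_lit 806362655) .nil))))))),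
   .two (nat_lit 2349859657) (nat_lit 9869198570) (.two (nat_lit 8388799) (nat_lit 352323792) (.two (nat_lit 8388672) (nat_lit 28101840698) (.two (nat_lit 620757007) (nat_lit 158150430726) (.two (nat_lit 620757000) (nat_lit 8394158) (.two (nat_lit 10506731525) (nat_lit 46406834650) (.two (nat_lit 16777217) (nat_lit 306191271) (.two (nat_lit 1048576) (nat_lit 4201879) (.one (nat_lit 1056457) .nil)))))))),
   .two (nat_lit 10007610184) (nat_lit 50332967) (.two (nat_lit 46474985663) (nat_lit 9806285000) (.two (nat_lit 2902458435) (nat_lit 10940845201) (.two (nat_lit 285212687) (nat_lit 2954891918) (.two (nat_lit 285212680) (nat_lit 174759876003) (.two (nat_lit 16777220) (nat_lit 156372047964) (.two (nat_lit 16777217) (nat_lit 10376715491) (.one (nat_lit 8396490) .nil))))))),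
   .two (nat_lit 156372042568) (nat_lit 9934209866) (.two (nat_lit 10552869055) (nat_lit 174686472361) (.two (nat_lit 310378563) (nat_lit 46407879828) (.two (nat_lit 9948889103) (nat_lit 606081705) (.two (nat_lit 46414168072) (nat_lit 2902463912) (.two (nat_lit 203423749) (nat_lit 11492399197) (.two (nat_lit 2097153) (nat_lit 11559508830) (.two (nat_lit 2097152) (nat_lit 16784822) (.one (nat_lit 2105035) .nil)))))))),
   .two (nat_lit 310379337) (nat_lit 19130221384) (.two (nat_lit 46474985663) (nat_lit 28764539052) (.two (nat_lit 156569174083) (nat_lit 41946259) (.two (nat_lit 9934209039) (nat_lit 310383310) (.two (nat_lit 606076936) (nat_lit 4605352040) (.two (nat_lit 37748737) (nat_lit 156365757273) (.two (nat_lit 4194304) (nat_lit 10376715491) (.one (nat_lit 8396492) .nil))))))),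
   .two (nat_lit 1847591753) (nat_lit 16778506) (.two (nat_lit 47596961983) (nat_lit 1277167830) (.two (nat_lit 28758245443) (nat_lit 50334881) (.two (nat_lit 19530776591) (nat_lit 11626615456) (.two (nat_lit 47563407368) (nat_lit 270538532) (.two (nat_lit 174753579013) (nat_lit 16783838) (.two (nat_lit 156364701697) (nat_lit 4599061376) (.two (nat_lit 1048576) (nat_lit 203431294) (.one (nat_lit 2105037) .nil)))))))),
   .two (nat_lit 156569174856) (nat_lit 10504635208) (.two (nat_lit 47555018845) (nat_lit 2098131) (.two (nat_lit 159251431520) (nat_lit 10343155163) (.two (nat_lit 272629827) (nat_lit 156372043370) (.two (nat_lit 272629795) (nat_lit 158077030131) (.two (nat_lit 813694991) (nat_lit 809504783) (.two (nat_lit 46508539921) (nat_lit 46980403874) (.two (nat_lit 3525312520) (nat_lit 3464500647) (.two (nat_lit 46978301957) (nat_lit 71309425) (.two (nat_lit 4194307) (nat_lit 1210062946) (.two (nat_lit 2097153) (nat_lit 184989784249) (.two (nat_lit 2097152) (nat_lit 28089261042) (.one (nat_lit 158077033485) .nil)))))))))))),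
   .two (nat_lit 8389448) (nat_lit 28087157576) (.two (nat_lit 8388799) (nat_lit 159217878491) (.two (nat_lit 8388672) (nat_lit 184986635407) (.two (nat_lit 8388623) (nat_lit 184986636293) (.two (nat_lit 8388616) (nat_lit 1947210626) (.two (nat_lit 8388612) (nat_lit 4030732722) (.two (nat_lit 8388609) (nat_lit 19529735017) (.two (nat_lit 8388608) (nat_lit 1056157) (.one (nat_lit 34610970) .nil)))))))),
   .two (nat_lit 8389448) (nat_lit 28087157576) (.two (nat_lit 8388799) (nat_lit 159217878491) (.two (nat_lit 8388672) (nat_lit 184986635407) (.two (nat_lit 8388623) (nat_lit 184986636293) (.two (nat_lit 8388616) (nat_lit 1947210626) (.two (nat_lit 8388612) (nat_lit 4030732722) (.two (nat_lit 8388609) (nat_lit 19529735017) (.two (nat_lit 8388608) (nat_lit 1056157) (.one (nat_lit 1056504) .nil)))))))),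
   .two (nat_lit 8389448) (nat_lit 28087157576) (.two (nat_lit 8388799) (nat_lit 159217878491) (.two (nat_lit 8388672) (nat_lit 184986635407) (.two (nat_lit 8388623) (nat_lit 184986636293) (.two (nat_lit 8388616) (nat_lit 1947210626) (.two (nat_lit 8388612) (nat_lit 4030732722) (.two (nat_lit 8388609) (nat_lit 19529735017) (.two (nat_lit 8388608) (nat_lit 1056157) (.one (nat_lit 1056505) .nil)))))))),
   .two (nat_lit 8389448) (nat_lit 28087157576) (.two (nat_lit 8388799) (nat_lit 159217878491) (.two (nat_lit 8388672) (nat_lit 184986635407) (.two (nat_lit 8388623) (nat_lit 184986636293) (.two (nat_lit 8388616) (nat_lit 1947210626) (.two (nat_lit 8388612) (nat_lit 4030732722) (.two (nat_lit 8388609) (nat_lit 19529735017) (.two (nat_lit 8388608) (nat_lit 1056157) (.one (nat_lit 1056507) .nil)))))))),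
   .two (nat_lit 41943881) (nat_lit 20640170201) (.two (nat_lit 41943231) (nat_lit 3460303019) (.two (nat_lit 8388672) (nat_lit 337644688) (.two (nat_lit 8388623) (nat_lit 2101261) (.two (nat_lit 16777224) (nat_lit 135271298) (.two (nat_lit 16777220) (nat_lit 159257729124) (.two (nat_lit 50331649) (nat_lit 1344281464) (.two (nat_lit 8388608) (nat_lit 19027465853) (.one (nat_lit 1056509) .nil)))))))),
   .two (nat_lit 47596961983) (nat_lit 2100061) (.two (nat_lit 28757196867) (nat_lit 158177693466) (.two (nat_lit 2961178632) (nat_lit 47596967674) (.two (nat_lit 176160772) (nat_lit 47582288287) (.two (nat_lit 1048576) (nat_lit 47588580727) (.one (nat_lit 1056427) .nil))))),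
   .two (nat_lit 13203669832) (nat_lit 12117344473) (.two (nat_lit 1209008485) (nat_lit 12117345755) (.two (nat_lit 4613734465) (nat_lit 9802092661) (.two (nat_lit 46407876623) (nat_lit 156481098356) (.two (nat_lit 169869320) (nat_lit 4197782) (.two (nat_lit 2902458372) (nat_lit 673190885) (.two (nat_lit 9768534017) (nat_lit 10335820696) (.two (nat_lit 1048576) (nat_lit 639638553) (.one (nat_lit 639638553) .nil)))))))),
   .two (nat_lit 46510637897) (nat_lit 183845782763) (.two (nat_lit 4194661) (nat_lit 1753220048) (.two (nat_lit 9768534207) (nat_lit 46977254877) (.two (nat_lit 156372042086) (nat_lit 158179786982) (.two (nat_lit 339738690) (nat_lit 343936143) (.two (nat_lit 4194319) (nat_lit 343937029) (.two (nat_lit 4194312) (nat_lit 9772733314) (.two (nat_lit 2097157) (nat_lit 306190441) (.two (nat_lit 2097153) (nat_lit 10343160691) (.two (nat_lit 1048576) (nat_lit 2104734) (.one (nat_lit 1056428) .nil)))))))))),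
   .two (nat_lit 156569174856) (nat_lit 4631560411) (.two (nat_lit 4195144) (nat_lit 1753219539) (.two (nat_lit 272629951) (nat_lit 158083321163) (.two (nat_lit 9768534207) (nat_lit 46977254877) (.two (nat_lit 4194342) (nat_lit 183853123753) (.two (nat_lit 4194369) (nat_lit 10007610976) (.two (nat_lit 4194369) (nat_lit 20644366820) (.two (nat_lit 608174114) (nat_lit 343936143) (.two (nat_lit 4194319) (nat_lit 343937029) (.two (nat_lit 4194312) (nat_lit 9772733314) (.two (nat_lit 4194308) (nat_lit 156573372607) (.two (nat_lit 4194308) (nat_lit 2920290417) (.two (nat_lit 605028353) (nat_lit 8395368) (.two (nat_lit 1048576) (nat_lit 8396045) (.one (nat_lit 8396350) .nil)))))))))))))),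
   .two (nat_lit 19026412361) (nat_lit 156569175651) (.two (nat_lit 20704133311) (nat_lit 166232852679) (.two (nat_lit 272629824) (nat_lit 13187941384) (.two (nat_lit 10385096771) (nat_lit 2953840224) (.two (nat_lit 809500687) (nat_lit 1343230150) (.two (nat_lit 20637024264) (nat_lit 780146492) (.two (nat_lit 4194308) (nat_lit 1052865) (.two (nat_lit 37748739) (nat_lit 2332039594) (.two (nat_lit 16777217) (nat_lit 8395370) (.two (nat_lit 1048576) (nat_lit 4201887) (.one (nat_lit 4613742372) .nil)))))))))),
   .two (nat_lit 876610376) (nat_lit 218104027) (.two (nat_lit 4601151679) (nat_lit 19530777083) (.two (nat_lit 4601151679) (nat_lit 166130090960) (.two (nat_lit 705691713) (nat_lit 16778244) (.two (nat_lit 705691713) (nat_lit 16778848) (.two (nat_lit 4194319) (nat_lit 10921971904) (.two (nat_lit 158158815240) (nat_lit 1054530) (.two (nat_lit 4194308) (nat_lit 1761611218) (.two (nat_lit 4194308) (nat_lit 10921971904) (.two (nat_lit 2097153) (nat_lit 4200666) (.two (nat_lit 16777216) (nat_lit 1056248) (.one (nat_lit 16785152) .nil))))))))))),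
   .two (nat_lit 71303385) (nat_lit 11014243564) (.two (nat_lit 2954887359) (nat_lit 3527410635) (.two (nat_lit 272629951) (nat_lit 310378723) (.two (nat_lit 169869377) (nat_lit 880805471) (.two (nat_lit 4194370) (nat_lit 847251993) (.two (nat_lit 4194319) (nat_lit 645925345) (.two (nat_lit 4194319) (nat_lit 9772730017) (.two (nat_lit 169869320) (nat_lit 156372047488) (.two (nat_lit 4194312) (nat_lit 28087160214) (.two (nat_lit 183845781506) (nat_lit 2103752) (.two (nat_lit 2097157) (nat_lit 156372047488) (.two (nat_lit 156364701697) (nat_lit 4201067) (.two (nat_lit 2097152) (nat_lit 8396048) (.one (nat_lit 8396545) .nil))))))))))))),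
   .two (nat_lit 1048793) (nat_lit 880805156) (.two (nat_lit 2954887633) (nat_lit 46477083088) (.two (nat_lit 2954887261) (nat_lit 20737689771) (.two (nat_lit 2954887359) (nat_lit 20740834248) (.two (nat_lit 8388799) (nat_lit 4601151715) (.two (nat_lit 2954887186) (nat_lit 21214792874) (.two (nat_lit 2887778369) (nat_lit 13224642143) (.two (nat_lit 276824130) (nat_lit 13191088665) (.two (nat_lit 3460300815) (nat_lit 1954548197) (.two (nat_lit 276824079) (nat_lit 9936308705) (.two (nat_lit 20637024262) (nat_lit 171970676) (.two (nat_lit 606076936) (nat_lit 156532478078) (.two (nat_lit 183845781506) (nat_lit 270539208) (.two (nat_lit 4605345797) (nat_lit 269490795) (.two (nat_lit 156364701697) (nat_lit 8395958) (.two (nat_lit 2097152) (nat_lit 4201471) (.one (nat_lit 4202242) .nil)))))))))))))))),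
   .two (nat_lit 11559502291) (nat_lit 156532475133) (.two (nat_lit 1795162469) (nat_lit 1376780795) (.two (nat_lit 754974816) (nat_lit 9899608235) (.two (nat_lit 1795162150) (nat_lit 9899608235) (.two (nat_lit 9881780289) (nat_lit 9866054805) (.two (nat_lit 9866051599) (nat_lit 2969571333) (.two (nat_lit 9866051592) (nat_lit 174768264066) (.two (nat_lit 1343225861) (nat_lit 16783456) (.two (nat_lit 9765388289) (nat_lit 16784231) (.two (nat_lit 16777216) (nat_lit 1056249) (.one (nat_lit 1056292) .nil)))))))))),
   .two (nat_lit 8389449) (nat_lit 1426063825) (.two (nat_lit 41943231) (nat_lit 156367848923) (.two (nat_lit 8388672) (nat_lit 20638076047) (.two (nat_lit 8388623) (nat_lit 11477716998) (.two (nat_lit 8388616) (nat_lit 35655069) (.two (nat_lit 8388616) (nat_lit 184417258008) (.two (nat_lit 285212677) (nat_lit 813701523) (.two (nat_lit 8388609) (nat_lit 2104398) (.two (nat_lit 8388608) (nat_lit 35659059) (.one (nat_lit 2105091) .nil))))))))),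
   .two (nat_lit 8388835) (nat_lit 165526111048) (.two (nat_lit 8389449) (nat_lit 1426063825) (.two (nat_lit 41943231) (nat_lit 156367848923) (.two (nat_lit 8388672) (nat_lit 20638076047) (.two (nat_lit 8388623) (nat_lit 11477716998) (.two (nat_lit 8388616) (nat_lit 47548730782) (.two (nat_lit 8388616) (nat_lit 35655069) (.two (nat_lit 285212677) (nat_lit 813701523) (.two (nat_lit 8388609) (nat_lit 2104398) (.two (nat_lit 2097152) (nat_lit 4201978) (.one (nat_lit 2105092) .nil)))))))))),
   .two (nat_lit 8389073) (nat_lit 165526111048) (.two (nat_lit 8388799) (nat_lit 10336863707) (.two (nat_lit 8388672) (nat_lit 12047092879) (.two (nat_lit 8388623) (nat_lit 1052684) (.two (nat_lit 8388616) (nat_lit 34607225) (.two (nat_lit 8388616) (nat_lit 21777878430) (.two (nat_lit 9948889093) (nat_lit 2961185171) (.two (nat_lit 612368385) (nat_lit 605035598) (.two (nat_lit 1048576) (nat_lit 8396049) (.one (nat_lit 1056517) .nil))))))))),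
   .two (nat_lit 608174298) (nat_lit 243270890) (.two (nat_lit 4634706386) (nat_lit 11517560054) (.two (nat_lit 21811429567) (nat_lit 12624857307) (.two (nat_lit 272629951) (nat_lit 46514832339) (.two (nat_lit 272629951) (nat_lit 310378724) (.two (nat_lit 3560964116) (nat_lit 3028290704) (.two (nat_lit 4605345828) (nat_lit 156569177229) (.two (nat_lit 3527409728) (nat_lit 2316306023) (.two (nat_lit 4194319) (nat_lit 847253512) (.two (nat_lit 4194312) (nat_lit 880807326) (.two (nat_lit 4194312) (nat_lit 780144029) (.two (nat_lit 46414168069) (nat_lit 37246474341) (.two (nat_lit 34603009) (nat_lit 4601158540) (.two (nat_lit 1048576) (nat_lit 8396283) (.one (nat_lit 8396551) .nil)))))))))))))),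
   .two (nat_lit 1795162332) (nat_lit 839911229) (.two (nat_lit 4647289672) (nat_lit 205521365) (.two (nat_lit 11577327807) (nat_lit 185002363098) (.two (nat_lit 21777875135) (nat_lit 788530131) (.two (nat_lit 285212863) (nat_lit 4634706149) (.two (nat_lit 4601151552) (nat_lit 2920287383) (.two (nat_lit 4194319) (nat_lit 159266115592) (.two (nat_lit 4194312) (nat_lit 620760478) (.two (nat_lit 4194312) (nat_lit 10016001437) (.two (nat_lit 4194308) (nat_lit 46473943131) (.two (nat_lit 37748737) (nat_lit 11543780236) (.two (nat_lit 4194304) (nat_lit 11626618363) (.one (nat_lit 16785161) .nil)))))))))))),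
   .two (nat_lit 183962174280) (nat_lit 28089255165) (.two (nat_lit 306184383) (nat_lit 166130091484) (.two (nat_lit 4601151552) (nat_lit 156581760770) (.two (nat_lit 11492392975) (nat_lit 2102402) (.two (nat_lit 272629768) (nat_lit 2103107) (.two (nat_lit 4194306) (nat_lit 2103992) (.two (nat_lit 9781116931) (nat_lit 171972121) (.two (nat_lit 4194305) (nat_lit 2104400) (.two (nat_lit 4194304) (nat_lit 2104736) (.one (nat_lit 10921975456) .nil))))))))),
   .two (nat_lit 50332488) (nat_lit 10443818208) (.two (nat_lit 50331839) (nat_lit 11618223580) (.two (nat_lit 8388672) (nat_lit 21793607457) (.two (nat_lit 8388623) (nat_lit 47563412093) (.two (nat_lit 8388616) (nat_lit 16783172) (.two (nat_lit 8388612) (nat_lit 16783814) (.two (nat_lit 8388609) (nat_lit 4201373) (.two (nat_lit 8388608) (nat_lit 4201889) (.one (nat_lit 4202042) .nil)))))))),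
   .two (nat_lit 12114199368) (nat_lit 2923430352) (.two (nat_lit 9802088639) (nat_lit 10504635868) (.two (nat_lit 12114198594) (nat_lit 11611933844) (.two (nat_lit 2887778319) (nat_lit 843059895) (.two (nat_lit 4601151496) (nat_lit 9798946933) (.two (nat_lit 4194312) (nat_lit 3558870425) (.two (nat_lit 1276116994) (nat_lit 10338966424) (.two (nat_lit 705691651) (nat_lit 158177695935) (.two (nat_lit 605028353) (nat_lit 10338966424) (.two (nat_lit 1048576) (nat_lit 2104594) (.one (nat_lit 165525069539) .nil)))))))))),
   .two (nat_lit 158075978568) (nat_lit 209716477) (.two (nat_lit 880804031) (nat_lit 156367848924) (.two (nat_lit 8388672) (nat_lit 1745882882) (.two (nat_lit 158075977743) (nat_lit 185023337602) (.two (nat_lit 184993972232) (nat_lit 185023338307) (.two (nat_lit 713031682) (nat_lit 185023339192) (.two (nat_lit 18925748227) (nat_lit 171972734) (.two (nat_lit 41943041) (nat_lit 185023339600) (.two (nat_lit 8388608) (nat_lit 185023339936) (.one (nat_lit 46507499168) .nil))))))))),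
   .two (nat_lit 9768534856) (nat_lit 46407876837) (.two (nat_lit 41943231) (nat_lit 13191086307) (.two (nat_lit 8388672) (nat_lit 46978303592) (.two (nat_lit 813694991) (nat_lit 608175777) (.two (nat_lit 41943048) (nat_lit 3458208741) (.two (nat_lit 8388612) (nat_lit 3458208741) (.two (nat_lit 8388609) (nat_lit 19027466464) (.two (nat_lit 2097152) (nat_lit 46510643423) (.one (nat_lit 2105098) .nil)))))))),
   .two (nat_lit 46407877449) (nat_lit 1753219291) (.two (nat_lit 50331839) (nat_lit 9765388795) (.two (nat_lit 50331839) (nat_lit 11477713872) (.two (nat_lit 16777280) (nat_lit 19529728516) (.two (nat_lit 11559501890) (nat_lit 183947495807) (.two (nat_lit 2961178639) (nat_lit 35655881) (.two (nat_lit 8388616) (nat_lit 874516608) (.two (nat_lit 8388615) (nat_lit 2103109) (.two (nat_lit 8388612) (nat_lit 28705820871) (.two (nat_lit 2097155) (nat_lit 16782880) (.two (nat_lit 34603009) (nat_lit 11626617498) (.two (nat_lit 2097152) (nat_lit 1056019) (.one (nat_lit 1056321) .nil)))))))))))),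
   .two (nat_lit 1847591753) (nat_lit 679477755) (.two (nat_lit 889192639) (nat_lit 158083320975) (.two (nat_lit 16777280) (nat_lit 880807943) (.two (nat_lit 184549391) (nat_lit 13195285916) (.two (nat_lit 11551113224) (nat_lit 50337887) (.two (nat_lit 159224168453) (nat_lit 35657945) (.two (nat_lit 612368385) (nat_lit 1277171930) (.two (nat_lit 2097152) (nat_lit 813702687) (.one (nat_lit 35659334) .nil)))))))),
   .two (nat_lit 285213904) (nat_lit 1417675259) (.two (nat_lit 285212863) (nat_lit 1317014684) (.two (nat_lit 8388672) (nat_lit 285216773) (.two (nat_lit 8388623) (nat_lit 157051523971) (.two (nat_lit 8388616) (nat_lit 1962940516) (.two (nat_lit 176160772) (nat_lit 11492398688) (.two (nat_lit 8388609) (nat_lit 9781123315) (.two (nat_lit 16777216) (nat_lit 47555026470) (.one (nat_lit 8396089) .nil)))))))),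
   .two (nat_lit 16777681) (nat_lit 21785216475) (.two (nat_lit 166132187976) (nat_lit 1224738271) (.two (nat_lit 285212863) (nat_lit 339741856) (.two (nat_lit 16777280) (nat_lit 2894073862) (.two (nat_lit 16777231) (nat_lit 46984598947) (.two (nat_lit 50331656) (nat_lit 11010054238) (.two (nat_lit 184993972229) (nat_lit 71309529) (.two (nat_lit 612368389) (nat_lit 620762719) (.two (nat_lit 41943041) (nat_lit 171972825) (.two (nat_lit 4194304) (nat_lit 813702687) (.one (nat_lit 171974416) .nil)))))))))),
   .two (nat_lit 16778447) (nat_lit 11618222587) (.two (nat_lit 620757832) (nat_lit 10007610313) (.two (nat_lit 16777407) (nat_lit 11618225296) (.two (nat_lit 16777280) (nat_lit 4605349893) (.two (nat_lit 8388623) (nat_lit 16782209) (.two (nat_lit 8388616) (nat_lit 16783455) (.two (nat_lit 184549380) (nat_lit 183853127264) (.two (nat_lit 8388611) (nat_lit 117447521) (.two (nat_lit 8388609) (nat_lit 184556537) (.two (nat_lit 8388608) (nat_lit 16784947) (.one (nat_lit 1283464773) .nil)))))))))),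
   .two (nat_lit 50332488) (nat_lit 1417675724) (.two (nat_lit 50332489) (nat_lit 47588573413) (.two (nat_lit 16777407) (nat_lit 46514833058) (.two (nat_lit 16777280) (nat_lit 10510928353) (.two (nat_lit 16777280) (nat_lit 156573370017) (.two (nat_lit 8388623) (nat_lit 16782209) (.two (nat_lit 8388616) (nat_lit 156380435478) (.two (nat_lit 8388612) (nat_lit 156380436664) (.two (nat_lit 8388612) (nat_lit 156380435478) (.two (nat_lit 8388609) (nat_lit 352328329) (.two (nat_lit 8388608) (nat_lit 117447700) (.one (nat_lit 50339606) .nil))))))))))),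
   .two (nat_lit 50332155) (nat_lit 176162018) (.two (nat_lit 285212863) (nat_lit 156569177258) (.two (nat_lit 16777280) (nat_lit 11484008454) (.two (nat_lit 16777231) (nat_lit 343938472) (.two (nat_lit 16777224) (nat_lit 2420119646) (.two (nat_lit 47555018757) (nat_lit 608180441) (.two (nat_lit 8388609) (nat_lit 608180443) (.two (nat_lit 4194304) (nat_lit 276831775) (.one (nat_lit 16785177) .nil)))))))),
   .two (nat_lit 83886587) (nat_lit 4638901486) (.two (nat_lit 46414168421) (nat_lit 165540790788) (.two (nat_lit 46414168102) (nat_lit 10385099927) (.two (nat_lit 159224168482) (nat_lit 1962939040) (.two (nat_lit 1358954511) (nat_lit 158083322845) (.two (nat_lit 50331656) (nat_lit 28697432264) (.two (nat_lit 1358954504) (nat_lit 158083322845) (.two (nat_lit 83886085) (nat_lit 1317018213) (.two (nat_lit 8388609) (nat_lit 16783603) (.two (nat_lit 8388608) (nat_lit 721428006) (.one (nat_lit 746593862) .nil)))))))))),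
   .two (nat_lit 8389448) (nat_lit 1377829092) (.two (nat_lit 8388672) (nat_lit 158176642722) (.two (nat_lit 50331663) (nat_lit 2416972674) (.two (nat_lit 83886085) (nat_lit 20705187452) (.two (nat_lit 8388609) (nat_lit 156465370749) (.one (nat_lit 2105115) .nil))))),
   .two (nat_lit 9766437704) (nat_lit 16777443) (.two (nat_lit 8388672) (nat_lit 20652754594) (.two (nat_lit 8388623) (nat_lit 28772928024) (.two (nat_lit 721420290) (nat_lit 2104216) (.two (nat_lit 50331649) (nat_lit 1054945) (.one (nat_lit 8396362) .nil))))),
   .two (nat_lit 9967763647) (nat_lit 8391855) (.two (nat_lit 21208498184) (nat_lit 158150432873) (.two (nat_lit 8388608) (nat_lit 2104629) .nil)),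
   .two (nat_lit 620757832) (nat_lit 101712099) (.two (nat_lit 276824129) (nat_lit 788531686) (.two (nat_lit 8388623) (nat_lit 185002364313) (.two (nat_lit 713031682) (nat_lit 2104218) (.two (nat_lit 612368385) (nat_lit 1344281228) (.one (nat_lit 1056541) .nil))))),
   .two (nat_lit 13224641353) (nat_lit 37313577188) (.two (nat_lit 10343153774) (nat_lit 1413482145) (.two (nat_lit 12054429711) (nat_lit 19029560730) (.two (nat_lit 184993972229) (nat_lit 12117350009) (.two (nat_lit 41943041) (nat_lit 12117350009) (.one (nat_lit 4202271) .nil))))),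
   .two (nat_lit 185020186851) (nat_lit 104859852) (.two (nat_lit 9768534035) (nat_lit 2887780888) (.two (nat_lit 8388613) (nat_lit 1847596667) (.one (nat_lit 2105126) .nil))),
   .two (nat_lit 16777443) (nat_lit 608176314) (.two (nat_lit 4634705985) (nat_lit 3458207132) (.two (nat_lit 46409973762) (nat_lit 2103948) (.one (nat_lit 4201788) .nil))),
   .two (nat_lit 2969568732) (nat_lit 47555018981) (.two (nat_lit 620757100) (nat_lit 183845784982) (.two (nat_lit 11559501829) (nat_lit 109057661) (.one (nat_lit 8395805) .nil))),
   .two (nat_lit 620757832) (nat_lit 9866053815) (.two (nat_lit 8388672) (nat_lit 9866056365) (.two (nat_lit 276824072) (nat_lit 855643988) (.two (nat_lit 270532613) (nat_lit 847256004) (.two (nat_lit 9765388289) (nat_lit 310386073) (.one (nat_lit 1056560) .nil))))),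
   .two (nat_lit 343933769) (nat_lit 1309672683) (.two (nat_lit 10907287910) (nat_lit 4197236) (.two (nat_lit 339738690) (nat_lit 1216352268) (.two (nat_lit 4194312) (nat_lit 706746467) (.two (nat_lit 2097153) (nat_lit 20707285906) (.two (nat_lit 4194304) (nat_lit 3464502952) .nil))))),
   .two (nat_lit 9766437705) (nat_lit 9982444838) (.two (nat_lit 8388799) (nat_lit 874515630) (.two (nat_lit 176160783) (nat_lit 184986636964) (.two (nat_lit 276824072) (nat_lit 2103573) (.two (nat_lit 8388612) (nat_lit 1055427) (.two (nat_lit 8388609) (nat_lit 1056065) (.two (nat_lit 1048576) (nat_lit 8396371) (.one (nat_lit 8396593) .nil))))))),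
   .two (nat_lit 9974055752) (nat_lit 2098478) (.two (nat_lit 158144135359) (nat_lit 156569177251) (.two (nat_lit 37748751) (nat_lit 21214794858) (.two (nat_lit 4601151496) (nat_lit 4599060219) (.two (nat_lit 47548727301) (nat_lit 4601158029) (.two (nat_lit 2097153) (nat_lit 4601158507) (.two (nat_lit 2097152) (nat_lit 4202068) (.one (nat_lit 174755684003) .nil))))))),
   .two (nat_lit 1191183176) (nat_lit 28758247318) (.two (nat_lit 9781117119) (nat_lit 2886732552) (.two (nat_lit 2954887234) (nat_lit 166211883018) (.two (nat_lit 169869320) (nat_lit 117446472) (.two (nat_lit 169869316) (nat_lit 12147759205) (.two (nat_lit 2097153) (nat_lit 1055846) (.two (nat_lit 1048576) (nat_lit 2104755) (.one (nat_lit 2105025) .nil))))))),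
   .two (nat_lit 169870153) (nat_lit 9881782475) (.two (nat_lit 4194369) (nat_lit 9948892941) (.two (nat_lit 4194319) (nat_lit 165540795038) (.two (nat_lit 705691656) (nat_lit 28089260445) (.two (nat_lit 2097153) (nat_lit 71310213) (.two (nat_lit 16777216) (nat_lit 4631567769) (.one (nat_lit 1056562) .nil)))))),
   .two (nat_lit 612369224) (nat_lit 19109250298) (.two (nat_lit 16777407) (nat_lit 166232853660) (.two (nat_lit 8388623) (nat_lit 20740838501) (.two (nat_lit 176160776) (nat_lit 876615518) (.two (nat_lit 176160772) (nat_lit 4201156) (.two (nat_lit 4194305) (nat_lit 8395879) (.two (nat_lit 4194304) (nat_lit 8396373) (.one (nat_lit 4202291) .nil))))))),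
   .two (nat_lit 620757833) (nat_lit 20745028838) (.two (nat_lit 16777407) (nat_lit 10007610843) (.two (nat_lit 8388672) (nat_lit 166245438108) (.two (nat_lit 8388616) (nat_lit 10370422521) (.two (nat_lit 176160772) (nat_lit 184555970) (.two (nat_lit 8388609) (nat_lit 822090648) (.two (nat_lit 2097152) (nat_lit 8396374) (.one (nat_lit 2105140) .nil))))))),
   .two (nat_lit 620757832) (nat_lit 10369368904) (.two (nat_lit 8388799) (nat_lit 620758491) (.two (nat_lit 8388672) (nat_lit 873467670) (.two (nat_lit 8388623) (nat_lit 739252004) (.two (nat_lit 8388612) (nat_lit 303045468) (.two (nat_lit 4194304) (nat_lit 8396375) (.one (nat_lit 4202293) .nil)))))),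
   .two (nat_lit 11551114056) (nat_lit 37313577427) (.two (nat_lit 8388799) (nat_lit 183846831581) (.two (nat_lit 608174176) (nat_lit 4605348010) (.two (nat_lit 11551113281) (nat_lit 156465367524) (.two (nat_lit 171966499) (nat_lit 41946265) (.two (nat_lit 11551113231) (nat_lit 185020190725) (.two (nat_lit 11551113224) (nat_lit 1053570) (.two (nat_lit 713031684) (nat_lit 1746933873) (.two (nat_lit 2097155) (nat_lit 158179793288) (.two (nat_lit 8388609) (nat_lit 156365757390) (.two (nat_lit 1048576) (nat_lit 156365757430) (.one (nat_lit 12115255094) .nil))))))))))),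
   .two (nat_lit 10385097545) (nat_lit 11543774160) (.two (nat_lit 310378687) (nat_lit 9936310464) (.two (nat_lit 612368480) (nat_lit 184552235) (.two (nat_lit 2889875523) (nat_lit 28798093694) (.two (nat_lit 2889875491) (nat_lit 19537071250) (.two (nat_lit 1291845647) (nat_lit 10376712209) (.two (nat_lit 272629777) (nat_lit 158183985158) (.two (nat_lit 4194312) (nat_lit 9974060439) (.two (nat_lit 4194308) (nat_lit 687872120) (.two (nat_lit 4194307) (nat_lit 12054435944) (.two (nat_lit 4194305) (nat_lit 151001277) (.two (nat_lit 4194304) (nat_lit 1056011) (.one (nat_lit 1056503) .nil)))))))))))),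
   .two (nat_lit 8389073) (nat_lit 2921333994) (.two (nat_lit 41943231) (nat_lit 3460303019) (.two (nat_lit 8388672) (nat_lit 337644688) (.two (nat_lit 8388623) (nat_lit 2101261) (.two (nat_lit 16777224) (nat_lit 135271298) (.two (nat_lit 16777220) (nat_lit 1411389546) (.two (nat_lit 50331649) (nat_lit 1344281464) (.two (nat_lit 16777216) (nat_lit 46507498988) (.one (nat_lit 1056583) .nil)))))))),
   .two (nat_lit 721420508) (nat_lit 705692488) (.two (nat_lit 41943880) (nat_lit 3457155536) (.two (nat_lit 41943231) (nat_lit 3460303019) (.two (nat_lit 8388672) (nat_lit 337644688) (.two (nat_lit 8388623) (nat_lit 2101261) (.two (nat_lit 16777224) (nat_lit 135271298) (.two (nat_lit 16777220) (nat_lit 1411389546) (.two (nat_lit 50331649) (nat_lit 1344281464) (.two (nat_lit 16777216) (nat_lit 1056246) (.one (nat_lit 1056506) .nil))))))))),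
   .two (nat_lit 41943880) (nat_lit 3457155536) (.two (nat_lit 41943231) (nat_lit 3460303019) (.two (nat_lit 8388672) (nat_lit 337644688) (.two (nat_lit 8388623) (nat_lit 2101261) (.two (nat_lit 16777224) (nat_lit 135271298) (.two (nat_lit 16777220) (nat_lit 1411389546) (.two (nat_lit 50331649) (nat_lit 1344281464) (.two (nat_lit 1048576) (nat_lit 1954553140) (.one (nat_lit 1056508) .nil)))))))),
   .two (nat_lit 10552869705) (nat_lit 158144135387) (.two (nat_lit 8388799) (nat_lit 184549883) (.two (nat_lit 8388799) (nat_lit 620757968) (.two (nat_lit 8388672) (nat_lit 620758020) (.two (nat_lit 8388672) (nat_lit 620758624) (.two (nat_lit 16777231) (nat_lit 10007613444) (.two (nat_lit 8388616) (nat_lit 687870144) (.two (nat_lit 8388616) (nat_lit 687870144) (.two (nat_lit 8388612) (nat_lit 156380433874) (.two (nat_lit 8388612) (nat_lit 687870144) (.two (nat_lit 8388609) (nat_lit 9867106522) (.two (nat_lit 1048576) (nat_lit 337647833) (.one (nat_lit 166196158033) .nil)))))))))))),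
   .two (nat_lit 9781117768) (nat_lit 1048794) (.two (nat_lit 169869669) (nat_lit 9781118427) (.two (nat_lit 169869377) (nat_lit 1291848855) (.two (nat_lit 4194319) (nat_lit 20738740847) (.two (nat_lit 4194312) (nat_lit 9967766935) (.two (nat_lit 4194308) (nat_lit 1055175) (.two (nat_lit 4194305) (nat_lit 1055820) (.two (nat_lit 1048576) (nat_lit 10372520588) (.one (nat_lit 10369375548) .nil)))))))),
   .two (nat_lit 9781117768) (nat_lit 1049040) (.two (nat_lit 169869669) (nat_lit 9781118427) (.two (nat_lit 169869377) (nat_lit 1291848855) (.two (nat_lit 4194319) (nat_lit 20738740847) (.two (nat_lit 4194312) (nat_lit 874517382) (.two (nat_lit 4194312) (nat_lit 9967766935) (.two (nat_lit 4194308) (nat_lit 1055175) (.two (nat_lit 4194305) (nat_lit 1055820) (.two (nat_lit 4194304) (nat_lit 10369375548) (.one (nat_lit 1056584) .nil))))))))),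
   .two (nat_lit 35651802) (nat_lit 9781117768) (.two (nat_lit 9781117768) (nat_lit 1049040) (.two (nat_lit 169869669) (nat_lit 9781118427) (.two (nat_lit 169869377) (nat_lit 1291848855) (.two (nat_lit 4194319) (nat_lit 20738740847) (.two (nat_lit 4194310) (nat_lit 2920290053) (.two (nat_lit 4194312) (nat_lit 874517382) (.two (nat_lit 4194308) (nat_lit 1055175) (.two (nat_lit 4194305) (nat_lit 1055820) (.two (nat_lit 4194304) (nat_lit 1056361) (.one (nat_lit 1056585) .nil)))))))))),
   .two (nat_lit 608174544) (nat_lit 654312264) (.two (nat_lit 4194661) (nat_lit 654312923) (.two (nat_lit 4194369) (nat_lit 11492396183) (.two (nat_lit 169869327) (nat_lit 183949595247) (.two (nat_lit 169869320) (nat_lit 12150903696) (.two (nat_lit 4601151495) (nat_lit 16783389) (.two (nat_lit 169869316) (nat_lit 168827335) (.two (nat_lit 2097153) (nat_lit 168827980) (.two (nat_lit 2097152) (nat_lit 1056362) (.one (nat_lit 1056586) .nil))))))))),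
   .two (nat_lit 608174298) (nat_lit 184550617) (.two (nat_lit 184550617) (nat_lit 168821200) (.two (nat_lit 4194661) (nat_lit 318768078) (.two (nat_lit 10336862399) (nat_lit 4027581917) (.two (nat_lit 47548727487) (nat_lit 10506731747) (.two (nat_lit 4194369) (nat_lit 11492396216) (.two (nat_lit 4194370) (nat_lit 11492397835) (.two (nat_lit 4194369) (nat_lit 46422558370) (.two (nat_lit 285212687) (nat_lit 304091837) (.two (nat_lit 166129041414) (nat_lit 156581762875) (.two (nat_lit 4194312) (nat_lit 1191187342) (.two (nat_lit 218103813) (nat_lit 2987399293) (.two (nat_lit 2902458371) (nat_lit 156968688665) (.two (nat_lit 16777217) (nat_lit 1055821) (.two (nat_lit 16777216) (nat_lit 1056363) (.one (nat_lit 1056587) .nil))))))))))))))),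
   .two (nat_lit 807403984) (nat_lit 285213913) (.two (nat_lit 35651679) (nat_lit 166245435600) (.two (nat_lit 2887778661) (nat_lit 3003122638) (.two (nat_lit 9806282943) (nat_lit 3457156573) (.two (nat_lit 46508539924) (nat_lit 276828861) (.two (nat_lit 276824130) (nat_lit 10385099960) (.two (nat_lit 276824130) (nat_lit 10385101579) (.two (nat_lit 169869327) (nat_lit 310383287) (.two (nat_lit 10519314440) (nat_lit 158646408638) (.two (nat_lit 47563407367) (nat_lit 2102725) (.two (nat_lit 20637024260) (nat_lit 9906953016) (.two (nat_lit 184549381) (nat_lit 4598012029) (.two (nat_lit 16777217) (nat_lit 2886736973) (.two (nat_lit 16777216) (nat_lit 1056364) (.one (nat_lit 1056588) .nil)))))))))))))),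
   .two (nat_lit 855638856) (nat_lit 174755677139) (.two (nat_lit 675283301) (nat_lit 46474986971) (.two (nat_lit 47563407425) (nat_lit 10907291765) (.two (nat_lit 169869377) (nat_lit 2936014498) (.two (nat_lit 4194319) (nat_lit 9766441661) (.two (nat_lit 4194312) (nat_lit 721425294) (.two (nat_lit 4194312) (nat_lit 606080406) (.two (nat_lit 21778923525) (nat_lit 2332039292) (.two (nat_lit 4194308) (nat_lit 4043314787) (.two (nat_lit 606076929) (nat_lit 28089260952) (.two (nat_lit 1048576) (nat_lit 157036846388) (.one (nat_lit 16785150) .nil))))))))))),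
   .two (nat_lit 83886300) (nat_lit 28758246217) (.two (nat_lit 185035916104) (nat_lit 11476664789) (.two (nat_lit 620757183) (nat_lit 10001320154) (.two (nat_lit 620757183) (nat_lit 69206995) (.two (nat_lit 50331839) (nat_lit 2988441829) (.two (nat_lit 11559501888) (nat_lit 156365753492) (.two (nat_lit 169869327) (nat_lit 4647292936) (.two (nat_lit 169869320) (nat_lit 16780702) (.two (nat_lit 169869320) (nat_lit 46523223453) (.two (nat_lit 705691652) (nat_lit 3525318747) (.two (nat_lit 34603009) (nat_lit 3022003050) (.two (nat_lit 1048576) (nat_lit 2104588) (.one (nat_lit 10370424476) .nil)))))))))))),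
   .two (nat_lit 822084050) (nat_lit 9806284037) (.two (nat_lit 1182793823) (nat_lit 822085083) (.two (nat_lit 822083775) (nat_lit 13228837082) (.two (nat_lit 822083775) (nat_lit 11484005331) (.two (nat_lit 11559501888) (nat_lit 157043133588) (.two (nat_lit 41943055) (nat_lit 13203673714) (.two (nat_lit 41943048) (nat_lit 1426067580) (.two (nat_lit 41943048) (nat_lit 285216158) (.two (nat_lit 11476664324) (nat_lit 2994739291) (.two (nat_lit 34603009) (nat_lit 4638907242) (.two (nat_lit 1048576) (nat_lit 8396279) (.one (nat_lit 75505308) .nil))))))))))),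
   .two (nat_lit 343933768) (nat_lit 336593115) (.two (nat_lit 272629951) (nat_lit 10907288529) (.two (nat_lit 272629951) (nat_lit 158083321163) (.two (nat_lit 9768534207) (nat_lit 46977254877) (.two (nat_lit 4194369) (nat_lit 10007610372) (.two (nat_lit 4194369) (nat_lit 10007610976) (.two (nat_lit 4194369) (nat_lit 20644366820) (.two (nat_lit 4194319) (nat_lit 343937029) (.two (nat_lit 4194312) (nat_lit 9772733314) (.two (nat_lit 4194308) (nat_lit 34608098) (.two (nat_lit 4194308) (nat_lit 156573372607) (.two (nat_lit 2097153) (nat_lit 75504231) (.two (nat_lit 1048576) (nat_lit 1310727433) (.one (nat_lit 8396348) .nil))))))))))))),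
   .two (nat_lit 1191183176) (nat_lit 4632609610) (.two (nat_lit 117440703) (nat_lit 3458205289) (.two (nat_lit 1191182374) (nat_lit 9802089948) (.two (nat_lit 11492393025) (nat_lit 4634706951) (.two (nat_lit 11492393025) (nat_lit 4634707556) (.two (nat_lit 37748751) (nat_lit 11559505925) (.two (nat_lit 37748744) (nat_lit 2332038019) (.two (nat_lit 4194308) (nat_lit 11544828121) (.two (nat_lit 4194308) (nat_lit 159251436509) (.two (nat_lit 2097153) (nat_lit 2956990042) (.two (nat_lit 2097152) (nat_lit 1346377945) (.one (nat_lit 16785319) .nil))))))))))),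
   .two (nat_lit 612369225) (nat_lit 2969567451) (.two (nat_lit 8388799) (nat_lit 1291846141) (.two (nat_lit 3028288068) (nat_lit 184419353546) (.two (nat_lit 2961178662) (nat_lit 2432699185) (.two (nat_lit 8388672) (nat_lit 1291846661) (.two (nat_lit 1343225923) (nat_lit 10506733153) (.two (nat_lit 1343225923) (nat_lit 306187444) (.two (nat_lit 8388623) (nat_lit 9936310473) (.two (nat_lit 1291845647) (nat_lit 1051108) (.two (nat_lit 4194312) (nat_lit 612373912) (.two (nat_lit 4194308) (nat_lit 645927104) (.two (nat_lit 4194307) (nat_lit 1358960734) (.two (nat_lit 605028353) (nat_lit 8394944) (.two (nat_lit 1048576) (nat_lit 4201742) (.one (nat_lit 4202317) .nil)))))))))))))),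
   .two (nat_lit 156581757769) (nat_lit 3527409883) (.two (nat_lit 2902458833) (nat_lit 8389452) (.two (nat_lit 2902458948) (nat_lit 184993973194) (.two (nat_lit 3527409760) (nat_lit 9806284251) (.two (nat_lit 8388646) (nat_lit 9781118427) (.two (nat_lit 1913651267) (nat_lit 157038937697) (.two (nat_lit 156535619651) (nat_lit 10007612596) (.two (nat_lit 8388646) (nat_lit 9781120141) (.two (nat_lit 166132187151) (nat_lit 4631562724) (.two (nat_lit 166132187151) (nat_lit 276827466) (.two (nat_lit 8388616) (nat_lit 19142808984) (.two (nat_lit 10506731525) (nat_lit 159266117824) (.two (nat_lit 8388612) (nat_lit 4634712177) (.two (nat_lit 41943041) (nat_lit 159250389598) (.two (nat_lit 1048576) (nat_lit 8396047) (.one (nat_lit 8396622) .nil))))))))))))))),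
   .two (nat_lit 41943880) (nat_lit 184549595) (.two (nat_lit 10336862399) (nat_lit 2894072009) (.two (nat_lit 8388672) (nat_lit 20638073861) (.two (nat_lit 8388672) (nat_lit 12117345889) (.two (nat_lit 620757059) (nat_lit 740296287) (.two (nat_lit 8388623) (nat_lit 158079127754) (.two (nat_lit 721420303) (nat_lit 740297186) (.two (nat_lit 156365750280) (nat_lit 4634711873) (.two (nat_lit 8388612) (nat_lit 2921339098) (.two (nat_lit 50331651) (nat_lit 304093637) (.two (nat_lit 50331649) (nat_lit 608181427) (.two (nat_lit 16777216) (nat_lit 159251439204) (.one (nat_lit 2105087) .nil)))))))))))),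
   .two (nat_lit 41943881) (nat_lit 9948889307) (.two (nat_lit 10552869705) (nat_lit 47582282193) (.two (nat_lit 679477439) (nat_lit 1344276681) (.two (nat_lit 8388672) (nat_lit 46406832330) (.two (nat_lit 2969567299) (nat_lit 168823268) (.two (nat_lit 218103846) (nat_lit 12114201747) (.two (nat_lit 218103823) (nat_lit 168823268) (.two (nat_lit 218103823) (nat_lit 37313580361) (.two (nat_lit 174759870472) (nat_lit 158176646977) (.two (nat_lit 2902458370) (nat_lit 2103422) (.two (nat_lit 10385096707) (nat_lit 1377835461) (.two (nat_lit 9781116929) (nat_lit 2104500) (.two (nat_lit 16777216) (nat_lit 3028295267) (.one (nat_lit 8396623) .nil))))))))))))),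
   .two (nat_lit 9806283593) (nat_lit 166132187976) (.two (nat_lit 285212863) (nat_lit 158179788972) (.two (nat_lit 285212737) (nat_lit 1216349192) (.two (nat_lit 285212736) (nat_lit 28760344161) (.two (nat_lit 285212736) (nat_lit 9969863038) (.two (nat_lit 176160783) (nat_lit 9781121028) (.two (nat_lit 16777224) (nat_lit 28764541826) (.two (nat_lit 16777220) (nat_lit 11513369565) (.two (nat_lit 16777220) (nat_lit 645927103) (.two (nat_lit 16777217) (nat_lit 1317018215) (.two (nat_lit 1048576) (nat_lit 3028294881) (.one (nat_lit 243277372) .nil))))))))))),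
   .two (nat_lit 1310720840) (nat_lit 10906239816) (.two (nat_lit 2969567423) (nat_lit 185021237420) (.two (nat_lit 2969567296) (nat_lit 21778925153) (.two (nat_lit 2969567296) (nat_lit 13188991358) (.two (nat_lit 4194342) (nat_lit 620760205) (.two (nat_lit 272629775) (nat_lit 620761092) (.two (nat_lit 16777224) (nat_lit 156535625111) (.two (nat_lit 16777220) (nat_lit 608178367) (.two (nat_lit 285212677) (nat_lit 183913945201) (.two (nat_lit 156364701697) (nat_lit 4601158248) (.two (nat_lit 1048576) (nat_lit 4634713313) (.one (nat_lit 9802096190) .nil))))))))))),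
   .two (nat_lit 4647290073) (nat_lit 843055568) (.two (nat_lit 4601151679) (nat_lit 166230754259) (.two (nat_lit 11543773375) (nat_lit 843055332) (.two (nat_lit 4601151552) (nat_lit 1780487142) (.two (nat_lit 11543773248) (nat_lit 10372517043) (.two (nat_lit 9781116943) (nat_lit 2102391) (.two (nat_lit 606076936) (nat_lit 2936017022) (.two (nat_lit 4194312) (nat_lit 773851672) (.two (nat_lit 11559501829) (nat_lit 1346378347) (.two (nat_lit 4194308) (nat_lit 1780487142) (.two (nat_lit 37748737) (nat_lit 2104399) (.two (nat_lit 1048576) (nat_lit 9867107355) (.one (nat_lit 1056518) .nil)))))))))))),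
   .two (nat_lit 4634706386) (nat_lit 11517560054) (.two (nat_lit 608174175) (nat_lit 2920287064) (.two (nat_lit 4634706111) (nat_lit 184423549147) (.two (nat_lit 272629951) (nat_lit 46514832339) (.two (nat_lit 3560964116) (nat_lit 9933164270) (.two (nat_lit 4605345828) (nat_lit 156569177229) (.two (nat_lit 272629794) (nat_lit 1051833) (.two (nat_lit 4194319) (nat_lit 847253512) (.two (nat_lit 4194312) (nat_lit 847254404) (.two (nat_lit 4194312) (nat_lit 4605350795) (.two (nat_lit 4194308) (nat_lit 2987399269) (.two (nat_lit 34603009) (nat_lit 4601158540) (.two (nat_lit 1048576) (nat_lit 8396284) (.one (nat_lit 8396552) .nil))))))))))))),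
   .two (nat_lit 47563407829) (nat_lit 13221495626) (.two (nat_lit 285212765) (nat_lit 11513367305) (.two (nat_lit 11577327807) (nat_lit 185002363098) (.two (nat_lit 4601151679) (nat_lit 620760471) (.two (nat_lit 4601151552) (nat_lit 1745882259) (.two (nat_lit 4194319) (nat_lit 159266115592) (.two (nat_lit 4194312) (nat_lit 159266116484) (.two (nat_lit 4194312) (nat_lit 2969572235) (.two (nat_lit 4194308) (nat_lit 46473943131) (.two (nat_lit 37748737) (nat_lit 11543780236) (.two (nat_lit 4194304) (nat_lit 11626618364) (.one (nat_lit 16785069) .nil))))))))))),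
   .two (nat_lit 50332114) (nat_lit 1276117832) (.two (nat_lit 50332005) (nat_lit 11610884274) (.two (nat_lit 2961178689) (nat_lit 620758627) (.two (nat_lit 1376780355) (nat_lit 12633246904) (.two (nat_lit 16777280) (nat_lit 1052789) (.two (nat_lit 612368399) (nat_lit 28089258644) (.two (nat_lit 822083592) (nat_lit 9765393288) (.two (nat_lit 1745879047) (nat_lit 318773372) (.two (nat_lit 183853121540) (nat_lit 21793610273) (.two (nat_lit 19596836869) (nat_lit 4638906491) (.two (nat_lit 41943041) (nat_lit 9781123973) (.two (nat_lit 1048576) (nat_lit 4202093) (.one (nat_lit 4202320) .nil)))))))))))),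
   .two (nat_lit 721420508) (nat_lit 1276117832) (.two (nat_lit 9940501320) (nat_lit 16777680) (.two (nat_lit 50332005) (nat_lit 11610884274) (.two (nat_lit 1376780355) (nat_lit 12633246904) (.two (nat_lit 16777280) (nat_lit 1052789) (.two (nat_lit 16777280) (nat_lit 1052789) (.two (nat_lit 612368399) (nat_lit 28089258644) (.two (nat_lit 183853121542) (nat_lit 336598816) (.two (nat_lit 16777224) (nat_lit 1052789) (.two (nat_lit 19596836869) (nat_lit 4638906491) (.two (nat_lit 10369368067) (nat_lit 276830332) (.two (nat_lit 41943041) (nat_lit 9781123973) (.two (nat_lit 1048576) (nat_lit 4201981) (.one (nat_lit 4202321) .nil))))))))))))),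
   .two (nat_lit 2887779145) (nat_lit 21223179219) (.two (nat_lit 4613734757) (nat_lit 10007610843) (.two (nat_lit 4613734465) (nat_lit 10376711313) (.two (nat_lit 16777231) (nat_lit 11543777954) (.two (nat_lit 16777224) (nat_lit 235934597) (.two (nat_lit 8388616) (nat_lit 28772928024) (.two (nat_lit 721420290) (nat_lit 2104216) (.two (nat_lit 16777220) (nat_lit 157035795998) (.two (nat_lit 50331649) (nat_lit 2104216) (.two (nat_lit 1048576) (nat_lit 8396362) (.one (nat_lit 1056594) .nil)))))))))),
   .two (nat_lit 8388835) (nat_lit 19142804741) (.two (nat_lit 2887779145) (nat_lit 21223179219) (.two (nat_lit 4613734757) (nat_lit 10007610843) (.two (nat_lit 4613734465) (nat_lit 10376711313) (.two (nat_lit 16777231) (nat_lit 11543777954) (.two (nat_lit 16777222) (nat_lit 336598847) (.two (nat_lit 16777224) (nat_lit 235934597) (.two (nat_lit 9881780229) (nat_lit 874518653) (.two (nat_lit 713031683) (nat_lit 1962941465) (.two (nat_lit 50331649) (nat_lit 2104216) (.two (nat_lit 8388608) (nat_lit 1056254) (.one (nat_lit 1056595) .nil))))))))))),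
   .two (nat_lit 8389073) (nat_lit 166245434629) (.two (nat_lit 47563407717) (nat_lit 880805339) (.two (nat_lit 47563407425) (nat_lit 1182796945) (.two (nat_lit 16777231) (nat_lit 1343230626) (.two (nat_lit 1350565896) (nat_lit 754980286) (.two (nat_lit 1350565895) (nat_lit 28806487065) (.two (nat_lit 754974725) (nat_lit 10913585976) (.two (nat_lit 754974725) (nat_lit 10003421309) (.two (nat_lit 50331649) (nat_lit 171973528) (.two (nat_lit 8388608) (nat_lit 1056366) (.one (nat_lit 1056596) .nil)))))))))),
   .two (nat_lit 1191182556) (nat_lit 10369368904) (.two (nat_lit 641729352) (nat_lit 2936013779) (.two (nat_lit 20707279206) (nat_lit 19093521883) (.two (nat_lit 158158815297) (nat_lit 158143089822) (.two (nat_lit 285212687) (nat_lit 19127079612) (.two (nat_lit 4613734408) (nat_lit 183853125748) (.two (nat_lit 75497480) (nat_lit 16781438) (.two (nat_lit 16777220) (nat_lit 9933166686) (.two (nat_lit 4194305) (nat_lit 34610043) (.two (nat_lit 1048576) (nat_lit 11614034567) (.one (nat_lit 8396629) .nil)))))))))),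
   .two (nat_lit 809501137) (nat_lit 166245434614) (.two (nat_lit 11578376550) (nat_lit 20704134619) (.two (nat_lit 185002360897) (nat_lit 184986635422) (.two (nat_lit 2969567247) (nat_lit 20737692348) (.two (nat_lit 742391816) (nat_lit 11559506045) (.two (nat_lit 3539992584) (nat_lit 166132191348) (.two (nat_lit 2902458373) (nat_lit 337647710) (.two (nat_lit 2097153) (nat_lit 9765395323) (.two (nat_lit 2097152) (nat_lit 4202095) (.one (nat_lit 4202326) .nil))))))))),
   .two (nat_lit 9768534856) (nat_lit 352322000) (.two (nat_lit 41943231) (nat_lit 183848928732) (.two (nat_lit 8388672) (nat_lit 2988444825) (.two (nat_lit 41943055) (nat_lit 1377833627) (.two (nat_lit 41943048) (nat_lit 3458208741) (.two (nat_lit 8388616) (nat_lit 4647292316) (.two (nat_lit 4605345797) (nat_lit 46422563272) (.two (nat_lit 8388609) (nat_lit 166144777055) (.two (nat_lit 16777216) (nat_lit 2105098) (.one (nat_lit 2105175) .nil))))))))),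
   .two (nat_lit 285212892) (nat_lit 1175454536) (.two (nat_lit 46489666377) (nat_lit 20738736592) (.two (nat_lit 1947205823) (nat_lit 1176504511) (.two (nat_lit 2954887235) (nat_lit 9966718691) (.two (nat_lit 9781116943) (nat_lit 11543777956) (.two (nat_lit 654311432) (nat_lit 706744436) (.two (nat_lit 705691656) (nat_lit 343938688) (.two (nat_lit 705691652) (nat_lit 304093285) (.two (nat_lit 16777217) (nat_lit 157035797361) (.two (nat_lit 1048576) (nat_lit 28087163527) (.one (nat_lit 8396632) .nil)))))))))),
   .two (nat_lit 159266111953) (nat_lit 159217878247) (.two (nat_lit 2416967871) (nat_lit 1210058943) (.two (nat_lit 4028629057) (nat_lit 10942942378) (.two (nat_lit 156367847439) (nat_lit 12114203300) (.two (nat_lit 1795162120) (nat_lit 12620665740) (.two (nat_lit 157038936072) (nat_lit 183947497588) (.two (nat_lit 171966469) (nat_lit 19128129634) (.two (nat_lit 4194305) (nat_lit 159216835441) (.two (nat_lit 2097152) (nat_lit 16785008) (.one (nat_lit 16785241) .nil))))))))),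
   .two (nat_lit 807403738) (nat_lit 165532402505) (.two (nat_lit 4638901064) (nat_lit 46409975394) (.two (nat_lit 21818769765) (nat_lit 19093521883) (.two (nat_lit 742391873) (nat_lit 3524267153) (.two (nat_lit 742391823) (nat_lit 2416972426) (.two (nat_lit 183845781512) (nat_lit 183853125748) (.two (nat_lit 2887778312) (nat_lit 41946525) (.two (nat_lit 708837381) (nat_lit 11577333858) (.two (nat_lit 2097153) (nat_lit 13191093143) (.two (nat_lit 1048576) (nat_lit 706747388) (.one (nat_lit 8396634) .nil)))))))))),
   .two (nat_lit 13191086545) (nat_lit 10913580278) (.two (nat_lit 12150899045) (nat_lit 20704134619) (.two (nat_lit 9867100225) (nat_lit 2987396241) (.two (nat_lit 11551113231) (nat_lit 2349863562) (.two (nat_lit 11551113224) (nat_lit 184419357576) (.two (nat_lit 166129041416) (nat_lit 166132191348) (.two (nat_lit 11484004357) (nat_lit 19093526626) (.two (nat_lit 2097153) (nat_lit 156364708731) (.two (nat_lit 8388608) (nat_lit 4202097) (.one (nat_lit 4202331) .nil))))))))),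
   .two (nat_lit 3003122504) (nat_lit 28758245840) (.two (nat_lit 21208498533) (nat_lit 239077547) (.two (nat_lit 21208498241) (nat_lit 3560967338) (.two (nat_lit 2969567247) (nat_lit 20704137909) (.two (nat_lit 83886088) (nat_lit 740298869) (.two (nat_lit 169869320) (nat_lit 158079126040) (.two (nat_lit 169869314) (nat_lit 1055417) (.two (nat_lit 721420293) (nat_lit 9799997026) (.two (nat_lit 2097153) (nat_lit 1055825) (.two (nat_lit 2097152) (nat_lit 4201983) (.one (nat_lit 4202332) .nil)))))))))),
   .two (nat_lit 47563408201) (nat_lit 2961179093) (.two (nat_lit 2927624549) (nat_lit 183916037598) (.two (nat_lit 4601151679) (nat_lit 2994733284) (.two (nat_lit 4605345859) (nat_lit 83889325) (.two (nat_lit 4194319) (nat_lit 276828861) (.two (nat_lit 4194312) (nat_lit 2936017894) (.two (nat_lit 4194312) (nat_lit 1350569366) (.two (nat_lit 4194306) (nat_lit 1343232447) (.two (nat_lit 4194308) (nat_lit 2936017894) (.two (nat_lit 8388609) (nat_lit 1056063) (.two (nat_lit 4194304) (nat_lit 739253273) (.one (nat_lit 1056523) .nil))))))))))),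
   .two (nat_lit 236979017) (nat_lit 11010049499) (.two (nat_lit 13237223615) (nat_lit 46980402319) (.two (nat_lit 285212736) (nat_lit 4199026) (.two (nat_lit 2889875471) (nat_lit 83892317) (.two (nat_lit 2889875460) (nat_lit 10370423642) (.two (nat_lit 2097153) (nat_lit 104865311) (.one (nat_lit 2105191) .nil)))))),
   .two (nat_lit 10436477768) (nat_lit 142607835) (.two (nat_lit 8388799) (nat_lit 1291848845) (.two (nat_lit 8388672) (nat_lit 16781319) (.two (nat_lit 620757007) (nat_lit 343937921) (.two (nat_lit 83886088) (nat_lit 13195286621) (.two (nat_lit 713031684) (nat_lit 1343232860) (.two (nat_lit 41943041) (nat_lit 1343233379) (.two (nat_lit 1048576) (nat_lit 4613742111) (.one (nat_lit 1056608) .nil)))))))),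
   .two (nat_lit 339739464) (nat_lit 117442011) (.two (nat_lit 9781117119) (nat_lit 1052384) (.two (nat_lit 4194370) (nat_lit 16782209) (.two (nat_lit 4194312) (nat_lit 83892317) (.two (nat_lit 2097157) (nat_lit 1178606426) (.two (nat_lit 2097153) (nat_lit 1056103) (.two (nat_lit 1048576) (nat_lit 270540319) (.one (nat_lit 1056616) .nil))))))),
   .two (nat_lit 174752531272) (nat_lit 673187291) (.two (nat_lit 185035915455) (nat_lit 9899609231) (.two (nat_lit 11559501888) (nat_lit 12147757063) (.two (nat_lit 169869327) (nat_lit 16782209) (.two (nat_lit 1343225864) (nat_lit 16783453) (.two (nat_lit 169869316) (nat_lit 739253082) (.two (nat_lit 2097153) (nat_lit 101719399) (.two (nat_lit 2097152) (nat_lit 11476672031) (.one (nat_lit 739254118) .nil)))))))),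
   .two (nat_lit 3036676937) (nat_lit 47555020251) (.two (nat_lit 156367847615) (nat_lit 156539817105) (.two (nat_lit 352321603) (nat_lit 4199027) (.two (nat_lit 176160783) (nat_lit 4200183) (.two (nat_lit 46414168072) (nat_lit 16783454) (.two (nat_lit 184419352581) (nat_lit 20711480156) (.two (nat_lit 8388609) (nat_lit 10452213278) (.one (nat_lit 4202345) .nil))))))),
   .two (nat_lit 2323645256) (nat_lit 2349861035) (.two (nat_lit 352321727) (nat_lit 20644367503) (.two (nat_lit 16777280) (nat_lit 343937031) (.two (nat_lit 612368399) (nat_lit 620763229) (.two (nat_lit 1779433477) (nat_lit 8395610) (.two (nat_lit 34603009) (nat_lit 276831775) (.one (nat_lit 8396650) .nil)))))),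
   .two (nat_lit 46489666377) (nat_lit 47582283227) (.two (nat_lit 679477439) (nat_lit 2100370) (.two (nat_lit 19026411585) (nat_lit 21778928241) (.two (nat_lit 169869327) (nat_lit 8394136) (.two (nat_lit 174759870472) (nat_lit 11611936859) (.two (nat_lit 1277165572) (nat_lit 37329312604) (.two (nat_lit 606076929) (nat_lit 4631567586) (.two (nat_lit 16777216) (nat_lit 20638080542) (.one (nat_lit 2105195) .nil)))))))),
   .two (nat_lit 9781117768) (nat_lit 20637026514) (.two (nat_lit 9781117119) (nat_lit 337644715) (.two (nat_lit 705691713) (nat_lit 16782209) (.two (nat_lit 4194312) (nat_lit 83892317) (.two (nat_lit 4194308) (nat_lit 34610016) (.two (nat_lit 2097153) (nat_lit 4201701) (.two (nat_lit 1048576) (nat_lit 270540319) (.one (nat_lit 2105225) .nil))))))),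
   .two (nat_lit 3527410504) (nat_lit 9806284251) (.two (nat_lit 156581757119) (nat_lit 159253531793) (.two (nat_lit 285212736) (nat_lit 276828787) (.two (nat_lit 8388623) (nat_lit 4647294360) (.two (nat_lit 2889875464) (nat_lit 1384126555) (.two (nat_lit 8388612) (nat_lit 19130227619) (.two (nat_lit 9768534017) (nat_lit 183920238110) (.one (nat_lit 47584386917) .nil))))))),
   .two (nat_lit 1947206473) (nat_lit 19094571223) (.two (nat_lit 2921333093) (nat_lit 28798094481) (.two (nat_lit 318767169) (nat_lit 1216352264) (.two (nat_lit 4613734415) (nat_lit 174759876003) (.two (nat_lit 4613734408) (nat_lit 13222549595) (.two (nat_lit 169869316) (nat_lit 303045543) (.two (nat_lit 16777217) (nat_lit 46406835744) (.one (nat_lit 1056651) .nil))))))),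
   .two (nat_lit 47582282568) (nat_lit 158143088823) (.two (nat_lit 679477439) (nat_lit 2100370) (.two (nat_lit 4613734466) (nat_lit 4638904330) (.two (nat_lit 11551113231) (nat_lit 2316309917) (.two (nat_lit 21785214984) (nat_lit 158144141411) (.two (nat_lit 1795162117) (nat_lit 10335820649) (.two (nat_lit 50331649) (nat_lit 20638080542) (.one (nat_lit 159232565110) .nil))))))),
   .two (nat_lit 183928619849) (nat_lit 1947207132) (.two (nat_lit 185020186815) (nat_lit 1795165357) (.two (nat_lit 184423546945) (nat_lit 1053395) (.two (nat_lit 169869327) (nat_lit 41948568) (.two (nat_lit 184986632200) (nat_lit 11578382434) (.two (nat_lit 822083589) (nat_lit 156365757354) (.two (nat_lit 605028353) (nat_lit 28798098658) (.two (nat_lit 16777216) (nat_lit 46406835744) (.one (nat_lit 1056653) .nil)))))))),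
   .two (nat_lit 12617515849) (nat_lit 1962935772) (.two (nat_lit 47596961983) (nat_lit 19027463311) (.two (nat_lit 2969567296) (nat_lit 47582285831) (.two (nat_lit 1291845647) (nat_lit 2988447132) (.two (nat_lit 2887778312) (nat_lit 16783455) (.two (nat_lit 270532613) (nat_lit 1795169121) (.two (nat_lit 34603009) (nat_lit 1780489761) (.one (nat_lit 202383201) .nil))))))),
   .two (nat_lit 19027460936) (nat_lit 679477755) (.two (nat_lit 16778056) (nat_lit 343933897) (.two (nat_lit 11618222920) (nat_lit 16778188) (.two (nat_lit 16777407) (nat_lit 184993975439) (.two (nat_lit 16777280) (nat_lit 184993976325) (.two (nat_lit 16777231) (nat_lit 166203495298) (.two (nat_lit 184549384) (nat_lit 10907293801) (.two (nat_lit 41943045) (nat_lit 50337375) (.two (nat_lit 41943045) (nat_lit 156380436057) (.two (nat_lit 612368385) (nat_lit 270539400) (.two (nat_lit 2097152) (nat_lit 813702687) (.one (nat_lit 2105103) .nil))))))))))),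
   .two (nat_lit 16778447) (nat_lit 1417676252) (.two (nat_lit 16777407) (nat_lit 11618225293) (.two (nat_lit 8388672) (nat_lit 16781316) (.two (nat_lit 8388623) (nat_lit 16782209) (.two (nat_lit 8388616) (nat_lit 16783455) (.two (nat_lit 8388613) (nat_lit 117447521) (.two (nat_lit 8388609) (nat_lit 11559509358) (.two (nat_lit 8388608) (nat_lit 16784948) (.one (nat_lit 9772736364) .nil)))))))),
   .two (nat_lit 16778056) (nat_lit 343933897) (.two (nat_lit 11618222920) (nat_lit 16778188) (.two (nat_lit 16778056) (nat_lit 185027526885) (.two (nat_lit 16777407) (nat_lit 184993975439) (.two (nat_lit 16777280) (nat_lit 184993976325) (.two (nat_lit 16777231) (nat_lit 166203495298) (.two (nat_lit 184549384) (nat_lit 10907293801) (.two (nat_lit 41943045) (nat_lit 156380436057) (.two (nat_lit 16777221) (nat_lit 4599061088) (.two (nat_lit 612368385) (nat_lit 35658375) (.two (nat_lit 2097152) (nat_lit 813702687) (.one (nat_lit 2105102) .nil))))))))))),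
   .two (nat_lit 16778447) (nat_lit 1417676252) (.two (nat_lit 16777407) (nat_lit 11618225293) (.two (nat_lit 8388672) (nat_lit 16781316) (.two (nat_lit 8388623) (nat_lit 16782209) (.two (nat_lit 8388616) (nat_lit 16783455) (.two (nat_lit 8388613) (nat_lit 117447521) (.two (nat_lit 8388609) (nat_lit 11559509358) (.two (nat_lit 8388608) (nat_lit 16784949) (.one (nat_lit 9772736364) .nil)))))))),
   .two (nat_lit 47555020252) (nat_lit 10015999252) (.two (nat_lit 16777407) (nat_lit 10007612586) (.two (nat_lit 16777280) (nat_lit 11484008454) (.two (nat_lit 16777231) (nat_lit 343938472) (.two (nat_lit 16777224) (nat_lit 2420119646) (.two (nat_lit 75497477) (nat_lit 11479817050) (.two (nat_lit 4194305) (nat_lit 3028294881) (.two (nat_lit 4194304) (nat_lit 276831775) (.one (nat_lit 4202361) .nil)))))))),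
   .two (nat_lit 9806283593) (nat_lit 157038936571) (.two (nat_lit 50331839) (nat_lit 10343154692) (.two (nat_lit 50331839) (nat_lit 10343155296) (.two (nat_lit 16777280) (nat_lit 156539816419) (.two (nat_lit 16777231) (nat_lit 1212158946) (.two (nat_lit 16777224) (nat_lit 876615258) (.two (nat_lit 16777224) (nat_lit 1212158946) (.two (nat_lit 16777220) (nat_lit 876615258) (.two (nat_lit 8388609) (nat_lit 2889881818) (.two (nat_lit 1048576) (nat_lit 4201487) (.one (nat_lit 1056326) .nil)))))))))),
   .two (nat_lit 9806283593) (nat_lit 157038936571) (.two (nat_lit 9806283593) (nat_lit 10338960334) (.two (nat_lit 50331839) (nat_lit 10343154692) (.two (nat_lit 50331839) (nat_lit 10343155296) (.two (nat_lit 352321727) (nat_lit 183853123167) (.two (nat_lit 16777280) (nat_lit 156539816419) (.two (nat_lit 16777280) (nat_lit 183853124066) (.two (nat_lit 16777231) (nat_lit 1212158946) (.two (nat_lit 16777231) (nat_lit 11513368701) (.two (nat_lit 16777224) (nat_lit 1212158946) (.two (nat_lit 176160776) (nat_lit 156380434623) (.two (nat_lit 16777220) (nat_lit 876615258)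 (.two (nat_lit 8388613) (nat_lit 16782943) (.two (nat_lit 8388609) (nat_lit 171972825) (.two (nat_lit 1048576) (nat_lit 4201774) (.one (nat_lit 16785307) .nil))))))))))))))),
   .two (nat_lit 156367848265) (nat_lit 10343154171) (.two (nat_lit 156367848265) (nat_lit 157043131342) (.two (nat_lit 10015998171) (nat_lit 2994735278) (.two (nat_lit 822083775) (nat_lit 157038937696) (.two (nat_lit 4647289023) (nat_lit 11513366111) (.two (nat_lit 2889875494) (nat_lit 16780429) (.two (nat_lit 285212738) (nat_lit 158146234851) (.two (nat_lit 285212736) (nat_lit 11513367010) (.two (nat_lit 2889875494) (nat_lit 16781316) (.two (nat_lit 285212687) (nat_lit 183853125757) (.two (nat_lit 272629776) (nat_lit 16782209) (.two (nat_lit 2889875464) (nat_lit 156380434623) (.two (nat_lit 2889875464) (nat_lit 156380434622) (.two (nat_lit 272629765) (nat_lit 16782943) (.two (nat_lit 272629765) (nat_lit 156380436057) (.two (nat_lit 4194305) (nat_lit 209721992) (.two (nat_lit 1048576) (nat_lit 9768541908) (.one (nat_lit 16785308) .nil))))))))))))))))),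
   .two (nat_lit 16778056) (nat_lit 166232852677) (.two (nat_lit 16777407) (nat_lit 12618567407) (.two (nat_lit 185027526721) (nat_lit 16781317) (.two (nat_lit 11551113231) (nat_lit 16782209) (.two (nat_lit 184549384) (nat_lit 2921339275) (.two (nat_lit 41943045) (nat_lit 807409850) (.two (nat_lit 41943045) (nat_lit 807409849) (.two (nat_lit 37748737) (nat_lit 9948896480) (.two (nat_lit 2097152) (nat_lit 708845087) (.one (nat_lit 69213767) .nil))))))))),
   .two (nat_lit 620757832) (nat_lit 1948256453) (.two (nat_lit 620757183) (nat_lit 46977257199) (.two (nat_lit 4638900289) (nat_lit 16781317) (.two (nat_lit 276824079) (nat_lit 16782209) (.two (nat_lit 8388616) (nat_lit 3020953698) (.two (nat_lit 8388612) (nat_lit 2953844314) (.two (nat_lit 2097153) (nat_lit 11559509216) (.two (nat_lit 1048576) (nat_lit 2104863) (.one (nat_lit 269491513) .nil)))))))),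
   .two (nat_lit 620757832) (nat_lit 1948256453) (.two (nat_lit 620757183) (nat_lit 46977257199) (.two (nat_lit 4638900289) (nat_lit 16781317) (.two (nat_lit 276824079) (nat_lit 16782209) (.two (nat_lit 8388616) (nat_lit 3020953698) (.two (nat_lit 8388612) (nat_lit 2953844314) (.two (nat_lit 8388612) (nat_lit 2953844923) (.two (nat_lit 2097153) (nat_lit 11559509216) (.two (nat_lit 1048576) (nat_lit 2104863) (.one (nat_lit 168828485) .nil))))))))),
   .two (nat_lit 620757832) (nat_lit 1948256453) (.two (nat_lit 620757183) (nat_lit 46977257199) (.two (nat_lit 4638900289) (nat_lit 16781317) (.two (nat_lit 276824079) (nat_lit 16782209) (.two (nat_lit 8388616) (nat_lit 3020953698) (.two (nat_lit 8388612) (nat_lit 2953844923) (.two (nat_lit 8388612) (nat_lit 2953844922) (.two (nat_lit 2097153) (nat_lit 11559509216) (.two (nat_lit 1048576) (nat_lit 2104863) (.one (nat_lit 168828484) .nil))))))))),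
   .two (nat_lit 721420508) (nat_lit 159224170666) (.two (nat_lit 50332114) (nat_lit 47555020971) (.two (nat_lit 50332488) (nat_lit 1417675724) (.two (nat_lit 16777309) (nat_lit 46414171277) (.two (nat_lit 50331839) (nat_lit 47555020394) (.two (nat_lit 16777407) (nat_lit 46514833058) (.two (nat_lit 8388626) (nat_lit 16781316) (.two (nat_lit 16777280) (nat_lit 13195282914) (.two (nat_lit 16777280) (nat_lit 10510928353) (.two (nat_lit 8388623) (nat_lit 16782209) (.two (nat_lit 8388616) (nat_lit 156380434623) (.two (nat_lit 8388616) (nat_lit 156380434622) (.two (nat_lit 8388612) (nat_lit 18941483611) (.two (nat_lit 8388612) (nat_lit 18941482585) (.two (nat_lit 50331649) (nat_lit 185027533815) (.two (nat_lit 8388608) (nat_lit 352329429) (.one (nat_lit 746593860) .nil)))))))))))))))),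
   .two (nat_lit 721420508) (nat_lit 159224170666) (.two (nat_lit 50332488) (nat_lit 1417675724) (.two (nat_lit 50332489) (nat_lit 47588573413) (.two (nat_lit 50331839) (nat_lit 47555020394) (.two (nat_lit 16777407) (nat_lit 46514833058) (.two (nat_lit 16777280) (nat_lit 13195282914) (.two (nat_lit 16777280) (nat_lit 10510928353) (.two (nat_lit 16777280) (nat_lit 156573370017) (.two (nat_lit 8388623) (nat_lit 16782209) (.two (nat_lit 8388616) (nat_lit 156380434622) (.two (nat_lit 8388616) (nat_lit 156380435478) (.two (nat_lit 8388612) (nat_lit 18941482585) (.two (nat_lit 8388612) (nat_lit 156380436664) (.two (nat_lit 41943041) (nat_lit 16784647) (.two (nat_lit 8388608) (nat_lit 352329427) (.one (nat_lit 1786781453) .nil))))))))))))))),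
   .two (nat_lit 166130090201) (nat_lit 4195278) (.two (nat_lit 2097621) (nat_lit 13191087051) (.two (nat_lit 2923430728) (nat_lit 4599054564) (.two (nat_lit 166130090081) (nat_lit 183949593060) (.two (nat_lit 10506731616) (nat_lit 156365753491) (.two (nat_lit 46978302018) (nat_lit 183949593060) (.two (nat_lit 46978302018) (nat_lit 20740836681) (.two (nat_lit 157038936102) (nat_lit 773853883) (.two (nat_lit 46978301967) (nat_lit 19130225543) (.two (nat_lit 2921332759) (nat_lit 19130226105) (.two (nat_lit 46978301960) (nat_lit 4200897) (.two (nat_lit 3525312517) (nat_lit 183949597278) (.two (nat_lit 3525312517) (nat_lit 183949597279) (.two (nat_lit 156365750273) (nat_lit 4201736) (.two (nat_lit 2097152) (nat_lit 4202038) (.one (nat_lit 2105245) .nil))))))))))))))),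
   .two (nat_lit 205521737) (nat_lit 1291847881) (.two (nat_lit 8388799) (nat_lit 20638076047) (.two (nat_lit 8388672) (nat_lit 184986636293) (.two (nat_lit 8388623) (nat_lit 1947210627) (.two (nat_lit 8388616) (nat_lit 1392515172) (.two (nat_lit 176160772) (nat_lit 47548734091) (.two (nat_lit 8388609) (nat_lit 2990546151) (.two (nat_lit 8388608) (nat_lit 1056421) (.one (nat_lit 2105114) .nil)))))))),
   .two (nat_lit 8389448) (nat_lit 706742472) (.two (nat_lit 8388799) (nat_lit 20638076047) (.two (nat_lit 8388672) (nat_lit 184986636293) (.two (nat_lit 8388623) (nat_lit 19093525378) (.two (nat_lit 8388616) (nat_lit 605034602) (.two (nat_lit 8388612) (nat_lit 336599926) (.two (nat_lit 8388609) (nat_lit 1056147) (.two (nat_lit 1048576) (nat_lit 8396343) (.one (nat_lit 8396666) .nil)))))))),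
   .two (nat_lit 742392649) (nat_lit 9881782473) (.two (nat_lit 8388799) (nat_lit 20638076047) (.two (nat_lit 8388672) (nat_lit 184986636293) (.two (nat_lit 8388623) (nat_lit 1947210627) (.two (nat_lit 8388616) (nat_lit 1392515172) (.two (nat_lit 713031684) (nat_lit 184986638987) (.two (nat_lit 8388611) (nat_lit 13187947384) (.two (nat_lit 41943041) (nat_lit 11580480743) (.two (nat_lit 8388608) (nat_lit 35659429) (.one (nat_lit 1056670) .nil))))))))),
   .two (nat_lit 8389448) (nat_lit 706742472) (.two (nat_lit 8388799) (nat_lit 20638076047) (.two (nat_lit 8388672) (nat_lit 184986636293) (.two (nat_lit 8388623) (nat_lit 19093525378) (.two (nat_lit 8388616) (nat_lit 605034602) (.two (nat_lit 8388612) (nat_lit 336599926) (.two (nat_lit 8388609) (nat_lit 1056147) (.two (nat_lit 8388608) (nat_lit 1056487) (.one (nat_lit 8396666) .nil)))))))),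
   .two (nat_lit 742392649) (nat_lit 9881782473) (.two (nat_lit 8388799) (nat_lit 20638076047) (.two (nat_lit 8388672) (nat_lit 184986636293) (.two (nat_lit 8388623) (nat_lit 1947210627) (.two (nat_lit 8388616) (nat_lit 1392515172) (.two (nat_lit 705691650) (nat_lit 2104496) (.two (nat_lit 8388611) (nat_lit 13187947384) (.two (nat_lit 41943041) (nat_lit 11580480743) (.two (nat_lit 8388608) (nat_lit 35659429) (.one (nat_lit 1056671) .nil))))))))),
   .two (nat_lit 8389448) (nat_lit 706742472) (.two (nat_lit 8388799) (nat_lit 20638076047) (.two (nat_lit 8388672) (nat_lit 184986636293) (.two (nat_lit 8388623) (nat_lit 19093525378) (.two (nat_lit 8388616) (nat_lit 605034602) (.two (nat_lit 8388612) (nat_lit 336599926) (.two (nat_lit 8388609) (nat_lit 1056147) (.two (nat_lit 8388608) (nat_lit 1056488) (.one (nat_lit 8396666) .nil)))))))),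
   .two (nat_lit 2887779145) (nat_lit 11492395209) (.two (nat_lit 8388799) (nat_lit 20638076047) (.two (nat_lit 8388672) (nat_lit 184986636293) (.two (nat_lit 8388623) (nat_lit 1054103) (.two (nat_lit 8388616) (nat_lit 336599142) (.two (nat_lit 166129041410) (nat_lit 4201649) (.two (nat_lit 8388611) (nat_lit 13187947384) (.two (nat_lit 8388609) (nat_lit 304094439) (.two (nat_lit 8388608) (nat_lit 168828581) (.one (nat_lit 4202400) .nil))))))))),
   .two (nat_lit 8389448) (nat_lit 706742472) (.two (nat_lit 8388799) (nat_lit 20638076047) (.two (nat_lit 8388672) (nat_lit 184986636293) (.two (nat_lit 8388623) (nat_lit 19093525378) (.two (nat_lit 8388616) (nat_lit 605034602) (.two (nat_lit 8388612) (nat_lit 336599926) (.two (nat_lit 8388609) (nat_lit 1056147) (.two (nat_lit 8388608) (nat_lit 1056489) (.one (nat_lit 8396666) .nil)))))))),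
   .two (nat_lit 8389448) (nat_lit 706742472) (.two (nat_lit 8388799) (nat_lit 20638076047) (.two (nat_lit 8388672) (nat_lit 184986636293) (.two (nat_lit 8388623) (nat_lit 19093525378) (.two (nat_lit 8388616) (nat_lit 605034602) (.two (nat_lit 8388612) (nat_lit 336599926) (.two (nat_lit 8388609) (nat_lit 1056147) (.two (nat_lit 8388608) (nat_lit 1056051) (.one (nat_lit 8396666) .nil)))))))),
   .two (nat_lit 19142804297) (nat_lit 34603516) (.two (nat_lit 4194370) (nat_lit 159266114073) (.two (nat_lit 4194319) (nat_lit 1344280342) (.two (nat_lit 4194308) (nat_lit 1055638) (.two (nat_lit 4194305) (nat_lit 1056148) (.one (nat_lit 4202363) .nil))))),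
   .two (nat_lit 3028288719) (nat_lit 4599054843) (.two (nat_lit 11584667839) (nat_lit 12047093516) (.two (nat_lit 285212710) (nat_lit 638587540) (.two (nat_lit 4613734415) (nat_lit 8394556) (.two (nat_lit 16777224) (nat_lit 11578382762) (.two (nat_lit 8388613) (nat_lit 20719868923) (.two (nat_lit 8388609) (nat_lit 773856251) (.two (nat_lit 2097152) (nat_lit 8396454) (.one (nat_lit 9873399592) .nil)))))))),
   .two (nat_lit 641729352) (nat_lit 50333147) (.two (nat_lit 8388799) (nat_lit 754978599) (.two (nat_lit 8388672) (nat_lit 19042144455) (.two (nat_lit 8388623) (nat_lit 19042144455) (.two (nat_lit 276824072) (nat_lit 16783810) (.two (nat_lit 41943043) (nat_lit 1055818) (.two (nat_lit 4194305) (nat_lit 8395770) (.two (nat_lit 8388608) (nat_lit 1056423) (.one (nat_lit 608181833) .nil)))))))),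
   .two (nat_lit 1276117833) (nat_lit 16777723) (.two (nat_lit 16777407) (nat_lit 1947208877) (.two (nat_lit 8388672) (nat_lit 19042144455) (.two (nat_lit 8388623) (nat_lit 19042144455) (.two (nat_lit 8388616) (nat_lit 19042144455) (.two (nat_lit 41943047) (nat_lit 1055413) (.two (nat_lit 11479810053) (nat_lit 8395770) (.two (nat_lit 4194305) (nat_lit 8395770) (.two (nat_lit 1048576) (nat_lit 4202218) (.one (nat_lit 608181833) .nil))))))))),
   .two (nat_lit 855638856) (nat_lit 645923794) (.two (nat_lit 11618222920) (nat_lit 12617515237) (.two (nat_lit 4613734757) (nat_lit 184993975439) (.two (nat_lit 4613734466) (nat_lit 2994737164) (.two (nat_lit 21207449615) (nat_lit 158150432536) (.two (nat_lit 165525061640) (nat_lit 11578382435) (.two (nat_lit 34603013) (nat_lit 11626617747) (.two (nat_lit 16777217) (nat_lit 8396178) (.two (nat_lit 16777216) (nat_lit 8396084) (.one (nat_lit 8396707) .nil))))))))),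
   .two (nat_lit 159232557896) (nat_lit 880804067) (.two (nat_lit 4601151552) (nat_lit 46977258103) (.two (nat_lit 620757007) (nat_lit 1054525) (.two (nat_lit 184549378) (nat_lit 1055819) (.two (nat_lit 37748737) (nat_lit 16784789) (.one (nat_lit 4202268) .nil))))),
   .two (nat_lit 641729352) (nat_lit 50333147) (.two (nat_lit 50331839) (nat_lit 47581236960) (.two (nat_lit 8388672) (nat_lit 21777879714) (.two (nat_lit 2961178639) (nat_lit 184555278) (.two (nat_lit 8388614) (nat_lit 10000276376) (.two (nat_lit 8388612) (nat_lit 10000276376) (.two (nat_lit 8388609) (nat_lit 4201878) (.two (nat_lit 1048576) (nat_lit 4202033) (.one (nat_lit 1056676) .nil)))))))),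
   .two (nat_lit 4647289672) (nat_lit 12054431928) (.two (nat_lit 8388799) (nat_lit 20753420042) (.two (nat_lit 4613734465) (nat_lit 343937029) (.two (nat_lit 4613734415) (nat_lit 645927811) (.two (nat_lit 2961178632) (nat_lit 1795168702) (.two (nat_lit 16777220) (nat_lit 47547684442) (.two (nat_lit 2097153) (nat_lit 336599259) (.two (nat_lit 1048576) (nat_lit 2105001) (.one (nat_lit 185020194740) .nil)))))))),
   .two (nat_lit 9766437704) (nat_lit 754975227) (.two (nat_lit 9766437704) (nat_lit 117441488) (.two (nat_lit 41943231) (nat_lit 13237227252) (.two (nat_lit 4613734465) (nat_lit 10913583116) (.two (nat_lit 4613734415) (nat_lit 75503002) (.two (nat_lit 620757000) (nat_lit 10343160230) (.two (nat_lit 11476664322) (nat_lit 713038490) (.two (nat_lit 184549379) (nat_lit 185021242225) (.two (nat_lit 34603009) (nat_lit 8396042) (.two (nat_lit 2097152) (nat_lit 1056426) (.one (nat_lit 8396709) .nil)))))))))),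
   .two (nat_lit 8388835) (nat_lit 11611931140) (.two (nat_lit 8389073) (nat_lit 18928895452) (.two (nat_lit 46409974600) (nat_lit 9906947550) (.two (nat_lit 8388799) (nat_lit 11611933857) (.two (nat_lit 8388672) (nat_lit 303042568) (.two (nat_lit 2961178639) (nat_lit 639636902) (.two (nat_lit 2961178632) (nat_lit 156468516955) (.two (nat_lit 176160773) (nat_lit 28089260921) (.two (nat_lit 2097153) (nat_lit 46507498896) (.two (nat_lit 8388608) (nat_lit 1056492) (.one (nat_lit 1056638) .nil)))))))))),
   .two (nat_lit 10552870105) (nat_lit 156533523931) (.two (nat_lit 2921333093) (nat_lit 166203493521) (.two (nat_lit 4613734465) (nat_lit 2994737163) (.two (nat_lit 1291845647) (nat_lit 2988447495) (.two (nat_lit 16777224) (nat_lit 706746466) (.two (nat_lit 184549380) (nat_lit 46406835036) (.two (nat_lit 2097153) (nat_lit 1056151) (.two (nat_lit 1048576) (nat_lit 8396344) (.one (nat_lit 1056637) .nil)))))))),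
   .two (nat_lit 47596963033) (nat_lit 236979149) (.two (nat_lit 47548727761) (nat_lit 10506734367) (.two (nat_lit 4613735241) (nat_lit 809501180) (.two (nat_lit 184549949) (nat_lit 608175711) (.two (nat_lit 47548727487) (nat_lit 19599984290) (.two (nat_lit 272629824) (nat_lit 2101949) (.two (nat_lit 654311439) (nat_lit 4200254) (.two (nat_lit 16777222) (nat_lit 1055171) (.two (nat_lit 11546918919) (nat_lit 1054842) (.two (nat_lit 166129041412) (nat_lit 2104217) (.two (nat_lit 2097153) (nat_lit 1056152) (.two (nat_lit 2097152) (nat_lit 4202221) (.one (nat_lit 2105215) .nil)))))))))))),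
   .two (nat_lit 11477713113) (nat_lit 873466043) (.two (nat_lit 46409974600) (nat_lit 157036839890) (.two (nat_lit 8389448) (nat_lit 11580473572) (.two (nat_lit 8388799) (nat_lit 11611933847) (.two (nat_lit 8388672) (nat_lit 303042568) (.two (nat_lit 276824079) (nat_lit 10504640311) (.two (nat_lit 276824072) (nat_lit 10437531739) (.two (nat_lit 8388613) (nat_lit 1746934649) (.two (nat_lit 4194305) (nat_lit 3557825936) (.two (nat_lit 8388608) (nat_lit 1056494) (.one (nat_lit 168828798) .nil)))))))))),
   .two (nat_lit 183848928072) (nat_lit 157035791314) (.two (nat_lit 276824904) (nat_lit 2889875686) (.two (nat_lit 8388799) (nat_lit 9934212243) (.two (nat_lit 8388672) (nat_lit 303042568) (.two (nat_lit 276824079) (nat_lit 775951778) (.two (nat_lit 276824072) (nat_lit 2921339312) (.two (nat_lit 41943045) (nat_lit 10335820665) (.two (nat_lit 37748737) (nat_lit 12148809104) (.two (nat_lit 1048576) (nat_lit 874519859) (.one (nat_lit 706748286) .nil))))))))),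
   .two (nat_lit 2887779145) (nat_lit 620758491) (.two (nat_lit 620757183) (nat_lit 166230756525) (.two (nat_lit 8388672) (nat_lit 4631564982) (.two (nat_lit 41943055) (nat_lit 1054527) (.two (nat_lit 8388614) (nat_lit 1055172) (.two (nat_lit 11551113223) (nat_lit 1054844) (.two (nat_lit 1914699781) (nat_lit 285219736) (.two (nat_lit 8388609) (nat_lit 1056153) (.two (nat_lit 2097152) (nat_lit 1056497) (.one (nat_lit 8396672) .nil))))))))),
   .two (nat_lit 2887779145) (nat_lit 620758491) (.two (nat_lit 620757183) (nat_lit 166230756525) (.two (nat_lit 8388672) (nat_lit 4631564982) (.two (nat_lit 41943055) (nat_lit 1054527) (.two (nat_lit 10369368072) (nat_lit 35657852) (.two (nat_lit 270532615) (nat_lit 16782309) (.two (nat_lit 1914699781) (nat_lit 285219736) (.two (nat_lit 8388609) (nat_lit 1056153) (.two (nat_lit 8388608) (nat_lit 12617522918) (.one (nat_lit 8396672) .nil))))))))),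
   .two (nat_lit 675283784) (nat_lit 10001318862) (.two (nat_lit 3021996873) (nat_lit 157051519954) (.two (nat_lit 218104649) (nat_lit 18926797310) (.two (nat_lit 705692005) (nat_lit 1291848847) (.two (nat_lit 169869377) (nat_lit 183962177548) (.two (nat_lit 10504634383) (nat_lit 166144775960) (.two (nat_lit 2887778312) (nat_lit 20740839523) (.two (nat_lit 1344274437) (nat_lit 9866058643) (.two (nat_lit 16777217) (nat_lit 2921340310) (.two (nat_lit 16777216) (nat_lit 2105074) (.one (nat_lit 16785318) .nil)))))))))),
   .two (nat_lit 50333147) (nat_lit 10007610644) (.two (nat_lit 41943231) (nat_lit 721423503) (.two (nat_lit 8388672) (nat_lit 166144774150) (.two (nat_lit 8388623) (nat_lit 2902463912) (.two (nat_lit 8388616) (nat_lit 20705187934) (.two (nat_lit 176160772) (nat_lit 2365594482) (.two (nat_lit 8388609) (nat_lit 2104730) (.two (nat_lit 2097152) (nat_lit 343940663) (.one (nat_lit 8396574) .nil)))))))),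
   .two (nat_lit 9940501320) (nat_lit 1191183304) (.two (nat_lit 9940501320) (nat_lit 50331875) (.two (nat_lit 50331839) (nat_lit 19134416482) (.two (nat_lit 16777280) (nat_lit 1052789) (.two (nat_lit 16777280) (nat_lit 1052789) (.two (nat_lit 16777231) (nat_lit 1052789) (.two (nat_lit 16777231) (nat_lit 2420115993) (.two (nat_lit 612368392) (nat_lit 13191091173) (.two (nat_lit 183853121538) (nat_lit 9781123973) (.two (nat_lit 16777220) (nat_lit 843061438) (.two (nat_lit 16777217) (nat_lit 4201973) (.two (nat_lit 1048576) (nat_lit 37756220) (.one (nat_lit 4202408) .nil)))))))))))),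
   .two (nat_lit 46489666376) (nat_lit 236979148) (.two (nat_lit 8389448) (nat_lit 9967763684) (.two (nat_lit 639631551) (nat_lit 37329307234) (.two (nat_lit 2954887232) (nat_lit 166237048949) (.two (nat_lit 2954887232) (nat_lit 166237048949) (.two (nat_lit 41943055) (nat_lit 2103104) (.two (nat_lit 11559501832) (nat_lit 1277170661) (.two (nat_lit 754974725) (nat_lit 10940849029) (.two (nat_lit 605028353) (nat_lit 8396187) (.two (nat_lit 8388608) (nat_lit 1056313) (.one (nat_lit 8396673) .nil)))))))))),
   .two (nat_lit 3003122504) (nat_lit 20738737098) (.two (nat_lit 3003122504) (nat_lit 4028629964) (.two (nat_lit 4195144) (nat_lit 3539992805) (.two (nat_lit 159251431615) (nat_lit 235931231) (.two (nat_lit 9934209215) (nat_lit 2365589090) (.two (nat_lit 2902458386) (nat_lit 166196155005) (.two (nat_lit 2954887232) (nat_lit 20740837493) (.two (nat_lit 2954887232) (nat_lit 20740837493) (.two (nat_lit 809500687) (nat_lit 270538560) (.two (nat_lit 184549382) (nat_lit 4201143) (.two (nat_lit 83886088) (nat_lit 10370421733) (.two (nat_lit 11559501829) (nat_lit 174753586053)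 (.two (nat_lit 9765388289) (nat_lit 272637339) (.two (nat_lit 4194304) (nat_lit 28757204706) (.one (nat_lit 272637825) .nil)))))))))))))),
   .two (nat_lit 157036840145) (nat_lit 19130221051) (.two (nat_lit 11584667839) (nat_lit 1947206660) (.two (nat_lit 11584667839) (nat_lit 1947207264) (.two (nat_lit 183845781611) (nat_lit 46481281030) (.two (nat_lit 46407876623) (nat_lit 1384125850) (.two (nat_lit 158075977736) (nat_lit 156372048292) (.two (nat_lit 165525061635) (nat_lit 11544828785) (.two (nat_lit 156364701697) (nat_lit 156535626394) (.two (nat_lit 4194304) (nat_lit 8396532) (.one (nat_lit 8396576) .nil))))))))),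
   .two (nat_lit 11618223311) (nat_lit 159216828923) (.two (nat_lit 159232557896) (nat_lit 343933898) (.two (nat_lit 159232557896) (nat_lit 158083318732) (.two (nat_lit 8388701) (nat_lit 4027584267) (.two (nat_lit 343933119) (nat_lit 336597109) (.two (nat_lit 8388799) (nat_lit 1224738402) (.two (nat_lit 184549394) (nat_lit 11543777967) (.two (nat_lit 620757028) (nat_lit 11543777967) (.two (nat_lit 8388672) (nat_lit 336597109) (.two (nat_lit 1779433487) (nat_lit 9873397568) (.two (nat_lit 28690087944) (nat_lit 4638906491) (.two (nat_lit 101711879) (nat_lit 4638906492) (.two (nat_lit 9781116933) (nat_lit 156372048773) (.two (nat_lit 37748737) (nat_lit 9866059163) (.two (nat_lit 1048576) (nat_lit 4202229) (.one (nat_lit 9866059649) .nil))))))))))))))),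
   .two (nat_lit 721420507) (nat_lit 1417677630) (.two (nat_lit 41943231) (nat_lit 21793607457) (.two (nat_lit 612368418) (nat_lit 47563412093) (.two (nat_lit 176160783) (nat_lit 2936017094) (.two (nat_lit 813694984) (nat_lit 16783814) (.two (nat_lit 2889875459) (nat_lit 713038842) (.two (nat_lit 4194305) (nat_lit 713038842) (.two (nat_lit 2097152) (nat_lit 4202042) (.one (nat_lit 4202273) .nil)))))))),
   .two (nat_lit 12129928008) (nat_lit 12117346487) (.two (nat_lit 21210595686) (nat_lit 166197202076) (.two (nat_lit 156535619651) (nat_lit 41947838) (.two (nat_lit 13203669007) (nat_lit 306190434) (.two (nat_lit 13203669000) (nat_lit 306190434) (.two (nat_lit 46407876612) (nat_lit 4201371) (.two (nat_lit 2097153) (nat_lit 4201884) (.two (nat_lit 4194304) (nat_lit 8396534) (.one (nat_lit 2105219) .nil)))))))),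
   .two (nat_lit 343934427) (nat_lit 50332620) (.two (nat_lit 10939794248) (nat_lit 2961180261) (.two (nat_lit 8388799) (nat_lit 10921969313) (.two (nat_lit 8388672) (nat_lit 687870142) (.two (nat_lit 166196150339) (nat_lit 1392512409) (.two (nat_lit 83886095) (nat_lit 13195286621) (.two (nat_lit 8388616) (nat_lit 156380435478) (.two (nat_lit 184549381) (nat_lit 343939722) (.two (nat_lit 8388611) (nat_lit 16782969) (.two (nat_lit 156364701697) (nat_lit 1216355874) (.two (nat_lit 1048576) (nat_lit 2894076956) (.one (nat_lit 168828842) .nil))))))))))),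
   .two (nat_lit 16778715) (nat_lit 343933958) (.two (nat_lit 16778056) (nat_lit 343933958) (.two (nat_lit 16777407) (nat_lit 1216352264) (.two (nat_lit 612368418) (nat_lit 10351547267) (.two (nat_lit 8388623) (nat_lit 1224740306) (.two (nat_lit 285212679) (nat_lit 8395365) (.two (nat_lit 8388612) (nat_lit 620763379) (.two (nat_lit 8388609) (nat_lit 16783603) (.two (nat_lit 8388608) (nat_lit 16785173) (.one (nat_lit 8396581) .nil))))))))),
   .two (nat_lit 1962935771) (nat_lit 12617515984) (.two (nat_lit 16778715) (nat_lit 10007610316) (.two (nat_lit 156465365833) (nat_lit 142607978) (.two (nat_lit 28690088776) (nat_lit 4613736037) (.two (nat_lit 352321727) (nat_lit 1920993761) (.two (nat_lit 16777407) (nat_lit 1954547361) (.two (nat_lit 16777280) (nat_lit 4605349278) (.two (nat_lit 16777280) (nat_lit 156573372606) (.two (nat_lit 19093520451) (nat_lit 11593059737) (.two (nat_lit 713031695) (nat_lit 822089821) (.two (nat_lit 41943048) (nat_lit 156380436664) (.two (nat_lit 16777224) (nat_lit 156573373462) (.two (nat_lit 713031684) (nat_lit 1055367) (.two (nat_lit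 8388612) (nat_lit 16784010) (.two (nat_lit 9765388289) (nat_lit 9940508191) (.two (nat_lit 1048576) (nat_lit 16785174) (.one (nat_lit 1056684) .nil)))))))))))))))),
   .two (nat_lit 50333147) (nat_lit 1786775008) (.two (nat_lit 880804057) (nat_lit 1392512749) (.two (nat_lit 16777407) (nat_lit 3565160098) (.two (nat_lit 352321602) (nat_lit 11584671133) (.two (nat_lit 352321602) (nat_lit 813697560) (.two (nat_lit 176160783) (nat_lit 2969573473) (.two (nat_lit 176160776) (nat_lit 174768264214) (.two (nat_lit 8388613) (nat_lit 10385103498) (.two (nat_lit 612368387) (nat_lit 1358960249) (.two (nat_lit 612368385) (nat_lit 16784404) (.two (nat_lit 8388608) (nat_lit 16785175) (.one (nat_lit 1786781609) .nil))))))))))),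
   .two (nat_lit 843056603) (nat_lit 620758495) (.two (nat_lit 4601152987) (nat_lit 11022631890) (.two (nat_lit 2420114248) (nat_lit 135267946) (.two (nat_lit 1191183176) (nat_lit 303040098) (.two (nat_lit 9781117119) (nat_lit 9768537501) (.two (nat_lit 285212863) (nat_lit 28089255586) (.two (nat_lit 285212736) (nat_lit 306187678) (.two (nat_lit 285212736) (nat_lit 9768537501) (.two (nat_lit 285212736) (nat_lit 1849690648) (.two (nat_lit 4194319) (nat_lit 16783455) (.two (nat_lit 4194312) (nat_lit 174768265400) (.two (nat_lit 4194312) (nat_lit 174768264214) (.two (nat_lit 705691652) (nat_lit 1279269511) (.two (nat_lit 171966469) (nat_lit 10385103498) (.two (nat_lit 34603009) (nat_lit 205528607) (.two (nat_lit 1048576) (nat_lit 1279270668) (.one (nat_lit 9765396395) .nil)))))))))))))))),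
   .two (nat_lit 654312924) (nat_lit 102760958) (.two (nat_lit 339738689) (nat_lit 21793606168) (.two (nat_lit 4194308) (nat_lit 83891835) (.one (nat_lit 16785330) .nil))),
   .two (nat_lit 285213181) (nat_lit 3024095430) (.two (nat_lit 1178600264) (nat_lit 16778245) (.two (nat_lit 183949590566) (nat_lit 19545460043) (.two (nat_lit 21814575343) (nat_lit 2953842130) (.two (nat_lit 1350565903) (nat_lit 2953842130) (.two (nat_lit 2961178631) (nat_lit 16783974) (.two (nat_lit 37748739) (nat_lit 8395770) (.two (nat_lit 37748737) (nat_lit 8395418) (.two (nat_lit 1048576) (nat_lit 4202057) (.one (nat_lit 4202279) .nil))))))))),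
   .two (nat_lit 11010048840) (nat_lit 10907290765) (.two (nat_lit 4647288899) (nat_lit 843059821) (.two (nat_lit 37748751) (nat_lit 16782209) (.two (nat_lit 272629768) (nat_lit 1780489056) (.two (nat_lit 4194305) (nat_lit 9934216842) (.one (nat_lit 1277173604) .nil))))),
   .two (nat_lit 620757833) (nat_lit 68159670) (.two (nat_lit 16777407) (nat_lit 158075982509) (.two (nat_lit 713031695) (nat_lit 11626616230) (.two (nat_lit 713031688) (nat_lit 185020192869) (.two (nat_lit 270532613) (nat_lit 343940003) (.two (nat_lit 2097153) (nat_lit 176168335) (.two (nat_lit 8388608) (nat_lit 169877365) .nil)))))),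
   .two (nat_lit 4028629833) (nat_lit 9982445749) (.two (nat_lit 41943231) (nat_lit 352325385) (.two (nat_lit 721420353) (nat_lit 679482012) (.two (nat_lit 721420303) (nat_lit 612373925) (.two (nat_lit 612368392) (nat_lit 1780488645) (.two (nat_lit 721420292) (nat_lit 874519447) (.two (nat_lit 2097153) (nat_lit 8396197) (.two (nat_lit 16777216) (nat_lit 606084766) (.one (nat_lit 2105226) .nil)))))))),
   .two (nat_lit 50332489) (nat_lit 174686472364) (.two (nat_lit 41943231) (nat_lit 11593060362) (.two (nat_lit 8388623) (nat_lit 11593061794) (.two (nat_lit 8388616) (nat_lit 203430360) (.two (nat_lit 8388613) (nat_lit 156548209508) (.two (nat_lit 8388609) (nat_lit 2954894566) (.two (nat_lit 2097152) (nat_lit 8396463) (.one (nat_lit 2954895215) .nil))))))),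
   .two (nat_lit 16778057) (nat_lit 37314627759) (.two (nat_lit 8388799) (nat_lit 166144774150) (.two (nat_lit 8388623) (nat_lit 13237228955) (.two (nat_lit 612368392) (nat_lit 1309677978) (.two (nat_lit 176160772) (nat_lit 873470872) (.two (nat_lit 8388609) (nat_lit 169876886) (.two (nat_lit 8388608) (nat_lit 47548735346) .nil)))))),
   .two (nat_lit 9766437705) (nat_lit 620758491) (.two (nat_lit 8388799) (nat_lit 1780486814) (.two (nat_lit 276824079) (nat_lit 855643988) (.two (nat_lit 276824072) (nat_lit 1277172125) (.two (nat_lit 2969567237) (nat_lit 13222550437) (.two (nat_lit 9765388289) (nat_lit 310386073) (.two (nat_lit 1048576) (nat_lit 2105008) (.one (nat_lit 1056703) .nil))))))),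
   .two (nat_lit 12054430537) (nat_lit 158075979979) (.two (nat_lit 47596961983) (nat_lit 37314629645) (.two (nat_lit 3458203663) (nat_lit 2969573160) (.two (nat_lit 46984593416) (nat_lit 270539632) (.two (nat_lit 8388609) (nat_lit 1056100) (.two (nat_lit 1048576) (nat_lit 9934216844) (.one (nat_lit 1056652) .nil)))))),
   .two (nat_lit 4634706760) (nat_lit 158083320977) (.two (nat_lit 176160835) (nat_lit 11593060978) (.two (nat_lit 8388623) (nat_lit 13237228954) (.two (nat_lit 8388616) (nat_lit 218110355) (.two (nat_lit 4194308) (nat_lit 46481283933) (.two (nat_lit 4194305) (nat_lit 713039515) (.one (nat_lit 165532409701) .nil)))))),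
   .two (nat_lit 75498312) (nat_lit 889194689) (.two (nat_lit 612368575) (nat_lit 3539996468) (.two (nat_lit 176160835) (nat_lit 3003126475) (.two (nat_lit 41943055) (nat_lit 12129933074) (.two (nat_lit 41943048) (nat_lit 843061702) (.two (nat_lit 4194308) (nat_lit 855645090) (.two (nat_lit 4194305) (nat_lit 855645854) (.one (nat_lit 50339699) .nil))))))),
   .two (nat_lit 41943880) (nat_lit 20652756114) (.two (nat_lit 8388672) (nat_lit 11511272096) (.two (nat_lit 8388623) (nat_lit 740301206) (.two (nat_lit 8388612) (nat_lit 2921339737) (.two (nat_lit 8388609) (nat_lit 3573554718) (.one (nat_lit 2105280) .nil))))),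
   .two (nat_lit 612369224) (nat_lit 9881783051) (.two (nat_lit 16777407) (nat_lit 1279265943) (.two (nat_lit 8388672) (nat_lit 4601156287) (.two (nat_lit 8388623) (nat_lit 16783636) (.two (nat_lit 2969567240) (nat_lit 708843978) (.two (nat_lit 176160772) (nat_lit 11626617939) (.two (nat_lit 4194305) (nat_lit 8396198) (.two (nat_lit 4194304) (nat_lit 8396591) (.one (nat_lit 4202356) .nil)))))))),
   .two (nat_lit 18933089097) (nat_lit 156367848923) (.two (nat_lit 10015998143) (nat_lit 880807076) (.two (nat_lit 4601151552) (nat_lit 285217416) (.two (nat_lit 4601151503) (nat_lit 156548208034) (.two (nat_lit 41943048) (nat_lit 9969866843) (.two (nat_lit 4194308) (nat_lit 2969574624) (.two (nat_lit 4194304) (nat_lit 8396465) (.one (nat_lit 4202382) .nil))))))),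
   .two (nat_lit 239076169) (nat_lit 156533523932) (.two (nat_lit 46474985663) (nat_lit 166129044638) (.two (nat_lit 169869377) (nat_lit 19109253130) (.two (nat_lit 4194319) (nat_lit 1344280342) (.two (nat_lit 37748744) (nat_lit 21777881179) (.two (nat_lit 4194308) (nat_lit 20737694563) (.two (nat_lit 4194305) (nat_lit 1056148) (.two (nat_lit 4194304) (nat_lit 10369375548) (.one (nat_lit 4202363) .nil)))))))),
   .two (nat_lit 239076169) (nat_lit 156533523932) (.two (nat_lit 46474985663) (nat_lit 166129044638) (.two (nat_lit 169869377) (nat_lit 19109253130) (.two (nat_lit 4194319) (nat_lit 1344280342) (.two (nat_lit 37748744) (nat_lit 21777881179) (.two (nat_lit 4194308) (nat_lit 20737694563) (.two (nat_lit 4194305) (nat_lit 1056148) (.two (nat_lit 4194304) (nat_lit 1056576) (.one (nat_lit 4202363) .nil)))))))),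
   .two (nat_lit 239076169) (nat_lit 156533523932) (.two (nat_lit 46474985663) (nat_lit 166129044638) (.two (nat_lit 169869377) (nat_lit 19109253130) (.two (nat_lit 4194319) (nat_lit 1344280342) (.two (nat_lit 37748744) (nat_lit 21777881179) (.two (nat_lit 4194308) (nat_lit 20737694563) (.two (nat_lit 4194305) (nat_lit 1056148) (.two (nat_lit 4194304) (nat_lit 1056577) (.one (nat_lit 4202363) .nil)))))))),
   .two (nat_lit 239076169) (nat_lit 156533523932) (.two (nat_lit 46474985663) (nat_lit 166129044638) (.two (nat_lit 169869377) (nat_lit 19109253130) (.two (nat_lit 4194319) (nat_lit 1344280342) (.two (nat_lit 37748744) (nat_lit 21777881179) (.two (nat_lit 4194308) (nat_lit 20737694563) (.two (nat_lit 4194305) (nat_lit 1056148) (.two (nat_lit 4194304) (nat_lit 1056578) (.one (nat_lit 4202363) .nil)))))))),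
   .two (nat_lit 50333148) (nat_lit 12155094246) (.two (nat_lit 8388799) (nat_lit 50334861) (.two (nat_lit 8388672) (nat_lit 2902463085) (.two (nat_lit 612368399) (nat_lit 183912896606) (.two (nat_lit 612368392) (nat_lit 183912896606) (.two (nat_lit 176160773) (nat_lit 1055639) (.two (nat_lit 34603009) (nat_lit 8396175) (.two (nat_lit 1048576) (nat_lit 8396611) (.one (nat_lit 8396668) .nil)))))))),
   .two (nat_lit 19109249864) (nat_lit 158176643240) (.two (nat_lit 11584667839) (nat_lit 12047093516) (.two (nat_lit 183845781569) (nat_lit 10007613444) (.two (nat_lit 117440527) (nat_lit 68163356) (.two (nat_lit 16777224) (nat_lit 19596843099) (.two (nat_lit 16777220) (nat_lit 13187946074) (.two (nat_lit 16777220) (nat_lit 3457161403) (.two (nat_lit 2097153) (nat_lit 873470169) (.two (nat_lit 2097152) (nat_lit 8396454) (.one (nat_lit 8396760) .nil))))))))),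
   .two (nat_lit 4605346632) (nat_lit 1175454212) (.two (nat_lit 608174544) (nat_lit 1753220048) (.two (nat_lit 4605346632) (nat_lit 10335815133) (.two (nat_lit 272629951) (nat_lit 21208501579) (.two (nat_lit 608174176) (nat_lit 183853124752) (.two (nat_lit 4194342) (nat_lit 183853124752) (.two (nat_lit 339738690) (nat_lit 343937029) (.two (nat_lit 4605345807) (nat_lit 13191091611) (.two (nat_lit 4194312) (nat_lit 46978308190) (.two (nat_lit 4194306) (nat_lit 8395367) (.two (nat_lit 4194308) (nat_lit 10907294302) (.two (nat_lit 4194305) (nat_lit 2104585) (.two (nat_lit 1048576) (nat_lit 2105000) (.one (nat_lit 2105249) .nil))))))))))))),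
   .two (nat_lit 608174297) (nat_lit 28093449168) (.two (nat_lit 4605346632) (nat_lit 10335815133) (.two (nat_lit 4605346632) (nat_lit 156468511228) (.two (nat_lit 8388801) (nat_lit 156364704948) (.two (nat_lit 608174176) (nat_lit 183853124752) (.two (nat_lit 339738690) (nat_lit 343937029) (.two (nat_lit 4605345807) (nat_lit 13191091611) (.two (nat_lit 4194312) (nat_lit 46978308190) (.two (nat_lit 4194308) (nat_lit 10907294302) (.two (nat_lit 4194308) (nat_lit 2920290908) (.two (nat_lit 4194305) (nat_lit 2104317) (.two (nat_lit 1048576) (nat_lit 2105000) (.one (nat_lit 2105305) .nil)))))))))))),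
   .two (nat_lit 158083318600) (nat_lit 1914701997) (.two (nat_lit 47555018943) (nat_lit 165526114077) (.two (nat_lit 8388675) (nat_lit 285216773) (.two (nat_lit 16777231) (nat_lit 166237049731) (.two (nat_lit 612368392) (nat_lit 12147759209) (.two (nat_lit 184549381) (nat_lit 10335819963) (.two (nat_lit 806354949) (nat_lit 9940507640) (.two (nat_lit 2097153) (nat_lit 612375570) (.two (nat_lit 2097152) (nat_lit 3457162787) (.one (nat_lit 8396706) .nil))))))))),
   .two (nat_lit 158083318600) (nat_lit 1914701997) (.two (nat_lit 47555018943) (nat_lit 165526114077) (.two (nat_lit 8388675) (nat_lit 285216773) (.two (nat_lit 16777231) (nat_lit 166237049731) (.two (nat_lit 612368392) (nat_lit 12147759209) (.two (nat_lit 806354949) (nat_lit 9940507640) (.two (nat_lit 184549381) (nat_lit 2920290492) (.two (nat_lit 2097153) (nat_lit 10369375496) (.two (nat_lit 2097152) (nat_lit 3457162787) (.one (nat_lit 8396762) .nil))))))))),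
   .two (nat_lit 713032520) (nat_lit 16778186) (.two (nat_lit 16777682) (nat_lit 9934210523) (.two (nat_lit 713032520) (nat_lit 306184420) (.two (nat_lit 16777407) (nat_lit 158144138403) (.two (nat_lit 11618222145) (nat_lit 183947497478) (.two (nat_lit 713031695) (nat_lit 10907293081) (.two (nat_lit 2902458376) (nat_lit 156468517282) (.two (nat_lit 4194306) (nat_lit 2104650) (.two (nat_lit 2902458371) (nat_lit 166130097210) (.two (nat_lit 156372041729) (nat_lit 2104935) (.two (nat_lit 8388608) (nat_lit 2104995) (.one (nat_lit 2105307) .nil))))))))))),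
   .two (nat_lit 713032520) (nat_lit 352323179) (.two (nat_lit 713032520) (nat_lit 16778186) (.two (nat_lit 9869197531) (nat_lit 157051521824) (.two (nat_lit 16777407) (nat_lit 158144138403) (.two (nat_lit 11618222145) (nat_lit 183947497478) (.two (nat_lit 713031695) (nat_lit 10907293081) (.two (nat_lit 2902458376) (nat_lit 156468517282) (.two (nat_lit 4194306) (nat_lit 2104498) (.two (nat_lit 2902458371) (nat_lit 166130097210) (.two (nat_lit 156372041729) (nat_lit 2104936) (.two (nat_lit 8388608) (nat_lit 2104995) (.one (nat_lit 2105308) .nil))))))))))),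
   .two (nat_lit 713032520) (nat_lit 352323179) (.two (nat_lit 713032520) (nat_lit 16778186) (.two (nat_lit 16777407) (nat_lit 158144138403) (.two (nat_lit 11618222145) (nat_lit 183947497478) (.two (nat_lit 713031695) (nat_lit 10907293081) (.two (nat_lit 2902458376) (nat_lit 156468517282) (.two (nat_lit 4194306) (nat_lit 2104272) (.two (nat_lit 2902458371) (nat_lit 166130097210) (.two (nat_lit 156372041729) (nat_lit 2104820) (.two (nat_lit 8388608) (nat_lit 2104995) (.one (nat_lit 2105376) .nil)))))))))),
   .two (nat_lit 10552870105) (nat_lit 156533523931) (.two (nat_lit 3525312703) (nat_lit 3028290708) (.two (nat_lit 4613734465) (nat_lit 2994737163) (.two (nat_lit 16777231) (nat_lit 706746466) (.two (nat_lit 16777224) (nat_lit 706746466) (.two (nat_lit 184549380) (nat_lit 46406835036) (.two (nat_lit 156364701697) (nat_lit 142613906) (.two (nat_lit 2097152) (nat_lit 8396698) (.one (nat_lit 1056637) .nil)))))))),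
   .two (nat_lit 10015998792) (nat_lit 9940502720) (.two (nat_lit 8388799) (nat_lit 13203672852) (.two (nat_lit 184549441) (nat_lit 19127078928) (.two (nat_lit 184549441) (nat_lit 1051108) (.two (nat_lit 184549391) (nat_lit 2920288449) (.two (nat_lit 184549391) (nat_lit 605033352) (.two (nat_lit 28086108168) (nat_lit 16784054) (.two (nat_lit 16777221) (nat_lit 4601158298) (.two (nat_lit 83886083) (nat_lit 3020954516) (.two (nat_lit 620756993) (nat_lit 343940591) (.two (nat_lit 1048576) (nat_lit 4202284) (.one (nat_lit 4202461) .nil))))))))))),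
   .two (nat_lit 10015998792) (nat_lit 9940502720) (.two (nat_lit 8388799) (nat_lit 13203672852) (.two (nat_lit 184549441) (nat_lit 19127078928) (.two (nat_lit 184549441) (nat_lit 1051108) (.two (nat_lit 184549441) (nat_lit 135269705) (.two (nat_lit 184549391) (nat_lit 605033352) (.two (nat_lit 1350565903) (nat_lit 21811434944) (.two (nat_lit 28086108168) (nat_lit 16784054) (.two (nat_lit 1291845634) (nat_lit 1055923) (.two (nat_lit 83886083) (nat_lit 3020954516) (.two (nat_lit 620756993) (nat_lit 343940708) (.two (nat_lit 1048576) (nat_lit 4202284) (.one (nat_lit 4202462) .nil)))))))))))),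
   .two (nat_lit 889193288) (nat_lit 813697216) (.two (nat_lit 8388799) (nat_lit 159232560916) (.two (nat_lit 16777281) (nat_lit 168823268) (.two (nat_lit 16777281) (nat_lit 2316307785) (.two (nat_lit 620757026) (nat_lit 2961183371) (.two (nat_lit 11551113231) (nat_lit 185020192192) (.two (nat_lit 21818769432) (nat_lit 1310726171) (.two (nat_lit 1745879048) (nat_lit 184556214) (.two (nat_lit 11492392962) (nat_lit 2104500) (.two (nat_lit 721420291) (nat_lit 336599956) (.two (nat_lit 41943041) (nat_lit 10906246642) (.two (nat_lit 1048576) (nat_lit 169877292) (.one (nat_lit 2105311) .nil)))))))))))),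
   .two (nat_lit 4647289672) (nat_lit 46414170285) (.two (nat_lit 3525312703) (nat_lit 3464498347) (.two (nat_lit 46407876673) (nat_lit 343937029) (.two (nat_lit 285212687) (nat_lit 41948961) (.two (nat_lit 169869320) (nat_lit 4605352040) (.two (nat_lit 16777220) (nat_lit 713038439) (.two (nat_lit 184986632197) (nat_lit 165526117394) (.two (nat_lit 16777217) (nat_lit 47555026145) (.two (nat_lit 8388608) (nat_lit 156364709406) (.one (nat_lit 2105312) .nil))))))))),
   .two (nat_lit 3573547848) (nat_lit 46980401325) (.two (nat_lit 2994733247) (nat_lit 2923433131) (.two (nat_lit 46409973827) (nat_lit 10007613444) (.two (nat_lit 218103823) (nat_lit 9768539937) (.two (nat_lit 4194312) (nat_lit 721426533) (.two (nat_lit 1913651205) (nat_lit 1216355346) (.two (nat_lit 4194308) (nat_lit 11577333949) (.two (nat_lit 16777217) (nat_lit 306191585) (.two (nat_lit 4194304) (nat_lit 157035798046) (.one (nat_lit 8396769) .nil))))))))),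
   .two (nat_lit 876610377) (nat_lit 47555020251) (.two (nat_lit 336593254) (nat_lit 880807063) (.two (nat_lit 4194369) (nat_lit 8393404) (.two (nat_lit 21214789647) (nat_lit 1053570) (.two (nat_lit 21214789640) (nat_lit 2316310620) (.two (nat_lit 2097157) (nat_lit 20707285862) (.two (nat_lit 606076929) (nat_lit 10939800979) (.two (nat_lit 1048576) (nat_lit 4202219) (.one (nat_lit 1056699) .nil)))))))),
   .two (nat_lit 184550217) (nat_lit 158177691842) (.two (nat_lit 41943231) (nat_lit 4647292656) (.two (nat_lit 8388672) (nat_lit 184986636962) (.two (nat_lit 276824079) (nat_lit 754980621) (.two (nat_lit 2961178632) (nat_lit 13222548449) (.two (nat_lit 813694984) (nat_lit 336599151) (.two (nat_lit 176160772) (nat_lit 873470872) (.two (nat_lit 8388609) (nat_lit 169876886) (.two (nat_lit 2097152) (nat_lit 8396527) (.one (nat_lit 8396672) .nil))))))))),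
   .two (nat_lit 184550217) (nat_lit 158177691842) (.two (nat_lit 41943231) (nat_lit 4647292656) (.two (nat_lit 8388672) (nat_lit 184986636962) (.two (nat_lit 276824079) (nat_lit 754980621) (.two (nat_lit 813694984) (nat_lit 336599151) (.two (nat_lit 11551113223) (nat_lit 1054843) (.two (nat_lit 176160772) (nat_lit 873470872) (.two (nat_lit 8388609) (nat_lit 169876886) (.two (nat_lit 2097152) (nat_lit 1056496) (.one (nat_lit 8396672) .nil))))))))),
   .two (nat_lit 156566029530) (nat_lit 9802089947) (.two (nat_lit 13191086271) (nat_lit 754977940) (.two (nat_lit 169869377) (nat_lit 183962177548) (.two (nat_lit 37748751) (nat_lit 11476670201) (.two (nat_lit 2954887176) (nat_lit 183949596771) (.two (nat_lit 708837381) (nat_lit 1779440531) (.two (nat_lit 16777217) (nat_lit 11510226326) (.two (nat_lit 16777216) (nat_lit 1056499) (.one (nat_lit 4202428) .nil)))))))),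
   .two (nat_lit 156566029530) (nat_lit 9802089947) (.two (nat_lit 13191086271) (nat_lit 754977940) (.two (nat_lit 169869377) (nat_lit 183962177548) (.two (nat_lit 37748751) (nat_lit 11476670201) (.two (nat_lit 2954887176) (nat_lit 183949596771) (.two (nat_lit 708837381) (nat_lit 1779440531) (.two (nat_lit 16777217) (nat_lit 11510226326) (.two (nat_lit 16777216) (nat_lit 1056580) (.one (nat_lit 4202428) .nil)))))))),
   .two (nat_lit 9766437704) (nat_lit 4197212) (.two (nat_lit 8388799) (nat_lit 11511271137) (.two (nat_lit 8388672) (nat_lit 156364705799) (.two (nat_lit 8388623) (nat_lit 1376785817) (.two (nat_lit 8388616) (nat_lit 10336868771) (.two (nat_lit 2894069763) (nat_lit 166130097003) (.two (nat_lit 8388609) (nat_lit 304094439) (.two (nat_lit 1048576) (nat_lit 2105133) (.one (nat_lit 1056679) .nil)))))))),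
   .two (nat_lit 9766437704) (nat_lit 4197212) (.two (nat_lit 8388799) (nat_lit 11511271137) (.two (nat_lit 8388672) (nat_lit 156364705799) (.two (nat_lit 8388623) (nat_lit 1376785817) (.two (nat_lit 8388616) (nat_lit 10336868771) (.two (nat_lit 8388610) (nat_lit 4201653) (.two (nat_lit 2894069763) (nat_lit 166130097003) (.two (nat_lit 8388609) (nat_lit 304094439) (.two (nat_lit 1048576) (nat_lit 2105133) (.one (nat_lit 1056738) .nil))))))))),
   .two (nat_lit 20753417032) (nat_lit 679479498) (.two (nat_lit 1343226047) (nat_lit 654314671) (.two (nat_lit 1291845698) (nat_lit 3020951560) (.two (nat_lit 4194319) (nat_lit 612373912) (.two (nat_lit 68157448) (nat_lit 1358960734) (.two (nat_lit 46409973765) (nat_lit 20637030587) (.two (nat_lit 620756995) (nat_lit 672144242) (.two (nat_lit 605028353) (nat_lit 183848934629) (.two (nat_lit 16777216) (nat_lit 672145037) (.one (nat_lit 4202467) .nil))))))))),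
   .two (nat_lit 19029558088) (nat_lit 159266113738) (.two (nat_lit 1913651391) (nat_lit 157038939311) (.two (nat_lit 166132187202) (nat_lit 2886733832) (.two (nat_lit 276824079) (nat_lit 156581762456) (.two (nat_lit 612368392) (nat_lit 158176647607) (.two (nat_lit 11492392962) (nat_lit 156532481204) (.two (nat_lit 176160772) (nat_lit 158176647356) (.two (nat_lit 9765388289) (nat_lit 713039077) (.two (nat_lit 4194304) (nat_lit 159250390669) (.one (nat_lit 8396772) .nil))))))))),
   .two (nat_lit 50332114) (nat_lit 46507493554) (.two (nat_lit 1178600264) (nat_lit 654312927) (.two (nat_lit 8388799) (nat_lit 28693236881) (.two (nat_lit 8388672) (nat_lit 28089258644) (.two (nat_lit 822083599) (nat_lit 34608928) (.two (nat_lit 11492392968) (nat_lit 1350572577) (.two (nat_lit 2961178631) (nat_lit 4200573) (.two (nat_lit 822083589) (nat_lit 156372048773) (.two (nat_lit 9765388289) (nat_lit 183953792406) (.two (nat_lit 1048576) (nat_lit 37756732) (.one (nat_lit 8396733) .nil)))))))))),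
   .two (nat_lit 721420508) (nat_lit 9768535515) (.two (nat_lit 1178600264) (nat_lit 654312927) (.two (nat_lit 612369225) (nat_lit 1191183304) (.two (nat_lit 8388799) (nat_lit 28693236881) (.two (nat_lit 8388672) (nat_lit 28089258644) (.two (nat_lit 822083599) (nat_lit 34608928) (.two (nat_lit 2961178632) (nat_lit 4200573) (.two (nat_lit 101711879) (nat_lit 276830332) (.two (nat_lit 822083589) (nat_lit 156372048773) (.two (nat_lit 9765388289) (nat_lit 183953792406) (.two (nat_lit 1048576) (nat_lit 37756733) (.one (nat_lit 8396733) .nil))))))))))),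
   .two (nat_lit 1178600264) (nat_lit 654312927) (.two (nat_lit 612369225) (nat_lit 1191183304) (.two (nat_lit 612369225) (nat_lit 50331875) (.two (nat_lit 8388799) (nat_lit 28693236881) (.two (nat_lit 8388672) (nat_lit 28089258644) (.two (nat_lit 822083599) (nat_lit 34608928) (.two (nat_lit 176160774) (nat_lit 46409980354) (.two (nat_lit 8388616) (nat_lit 13191091173) (.two (nat_lit 822083589) (nat_lit 156372048773) (.two (nat_lit 9765388289) (nat_lit 183953792406) (.two (nat_lit 8388608) (nat_lit 183845789411) (.one (nat_lit 8396733) .nil))))))))))),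
   .two (nat_lit 166132187976) (nat_lit 19596838363) (.two (nat_lit 285212863) (nat_lit 12054433561) (.two (nat_lit 8388675) (nat_lit 9781121028) (.two (nat_lit 176160783) (nat_lit 183962178981) (.two (nat_lit 16777224) (nat_lit 12054436254) (.two (nat_lit 16777220) (nat_lit 1317018215) (.two (nat_lit 28086108165) (nat_lit 11626617874) (.two (nat_lit 34603009) (nat_lit 3028294881) (.two (nat_lit 1048576) (nat_lit 687873681) (.one (nat_lit 16785381) .nil))))))))),
   .two (nat_lit 1310720840) (nat_lit 174752531931) (.two (nat_lit 2969567423) (nat_lit 28693237529) (.two (nat_lit 2889875523) (nat_lit 620761092) (.two (nat_lit 272629775) (nat_lit 166245438885) (.two (nat_lit 37748744) (nat_lit 185020192869) (.two (nat_lit 19596836869) (nat_lit 19142810642) (.two (nat_lit 4194308) (nat_lit 185020192957) (.two (nat_lit 9765388289) (nat_lit 4634713313) (.two (nat_lit 1048576) (nat_lit 156380438161) (.one (nat_lit 16785382) .nil))))))))),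
   .two (nat_lit 46477083464) (nat_lit 243271882) (.two (nat_lit 20704133311) (nat_lit 104860821) (.two (nat_lit 218103873) (nat_lit 10906243272) (.two (nat_lit 218103873) (nat_lit 1051108) (.two (nat_lit 809500687) (nat_lit 1343230150) (.two (nat_lit 754974735) (nat_lit 21814581495) (.two (nat_lit 4601151496) (nat_lit 839915621) (.two (nat_lit 4194308) (nat_lit 873470169) (.two (nat_lit 4194308) (nat_lit 336599227) (.two (nat_lit 16777217) (nat_lit 13191093477) (.two (nat_lit 1048576) (nat_lit 4202286) (.one (nat_lit 8396775) .nil))))))))))),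
   .two (nat_lit 1426064200) (nat_lit 21777877194) (.two (nat_lit 4601151679) (nat_lit 156581760770) (.two (nat_lit 169869377) (nat_lit 1761611218) (.two (nat_lit 169869377) (nat_lit 11593060547) (.two (nat_lit 2887778319) (nat_lit 16783169) (.two (nat_lit 4194312) (nat_lit 2103749) (.two (nat_lit 4194308) (nat_lit 2887784666) (.two (nat_lit 171966467) (nat_lit 174701157268) (.two (nat_lit 9765388289) (nat_lit 673193455) (.two (nat_lit 1048576) (nat_lit 673193633) (.one (nat_lit 2105320) .nil)))))))))),
   .two (nat_lit 20644365519) (nat_lit 68159682) (.two (nat_lit 47555018943) (nat_lit 20637027502) (.two (nat_lit 47548727360) (nat_lit 4027585143) (.two (nat_lit 50331663) (nat_lit 168826685) (.two (nat_lit 721420296) (nat_lit 1780488737) (.two (nat_lit 12047089672) (nat_lit 3022002299) (.two (nat_lit 50331653) (nat_lit 673192837) (.two (nat_lit 41943041) (nat_lit 18925755803) (.two (nat_lit 1048576) (nat_lit 159217884984) (.one (nat_lit 739254145) .nil))))))))),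
   .two (nat_lit 3539993416) (nat_lit 3527411895) (.two (nat_lit 158649549158) (nat_lit 28757200028) (.two (nat_lit 28693233729) (nat_lit 8393406) (.two (nat_lit 1358954511) (nat_lit 183848933156) (.two (nat_lit 50331656) (nat_lit 9933166686) (.two (nat_lit 822083589) (nat_lit 184986639255) (.two (nat_lit 41943041) (nat_lit 183848934809) (.two (nat_lit 4194304) (nat_lit 8396613) (.one (nat_lit 1056642) .nil)))))))),
   .two (nat_lit 3003122504) (nat_lit 2988443831) (.two (nat_lit 773849446) (nat_lit 21777878172) (.two (nat_lit 21208498241) (nat_lit 2889880254) (.two (nat_lit 11559501839) (nat_lit 166130095908) (.two (nat_lit 9781116936) (nat_lit 34609246) (.two (nat_lit 654311429) (nat_lit 1913658263) (.two (nat_lit 9768534017) (nat_lit 166130097561) (.two (nat_lit 2097152) (nat_lit 4202310) (.one (nat_lit 2886737794) .nil)))))))),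
   .two (nat_lit 13237224923) (nat_lit 19599984091) (.two (nat_lit 174759871304) (nat_lit 174686473357) (.two (nat_lit 16777407) (nat_lit 4199023) (.two (nat_lit 9867100225) (nat_lit 16782209) (.two (nat_lit 2969567247) (nat_lit 176167003) (.two (nat_lit 713031688) (nat_lit 171973466) (.two (nat_lit 69206021) (nat_lit 9948896480) (.two (nat_lit 2097153) (nat_lit 708845087) (.two (nat_lit 2097152) (nat_lit 4202338) (.one (nat_lit 742399980) .nil))))))))),
   .two (nat_lit 47596963291) (nat_lit 4196524) (.two (nat_lit 47588574024) (nat_lit 16780433) (.two (nat_lit 158144135359) (nat_lit 11577332610) (.two (nat_lit 2961178639) (nat_lit 2103685) (.two (nat_lit 4194312) (nat_lit 2104159) (.two (nat_lit 10503585797) (nat_lit 16784610) (.two (nat_lit 4194305) (nat_lit 2104969) (.two (nat_lit 1048576) (nat_lit 2105187) (.one (nat_lit 1056749) .nil)))))))),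
   .two (nat_lit 156581758427) (nat_lit 157038937563) (.two (nat_lit 156367848264) (nat_lit 156372044941) (.two (nat_lit 9974055103) (nat_lit 16781936) (.two (nat_lit 2961178734) (nat_lit 16782209) (.two (nat_lit 3527409679) (nat_lit 9974061147) (.two (nat_lit 8388616) (nat_lit 4201312) (.two (nat_lit 8388612) (nat_lit 117447904) (.two (nat_lit 4194305) (nat_lit 8396426) (.two (nat_lit 4194304) (nat_lit 8396644) (.one (nat_lit 4202478) .nil))))))))),
   .two (nat_lit 47582283227) (nat_lit 156535621083) (.two (nat_lit 10001318729) (nat_lit 3028290701) (.two (nat_lit 2954887359) (nat_lit 4199025) (.two (nat_lit 185027526721) (nat_lit 1053571) (.two (nat_lit 47548727311) (nat_lit 12620666971) (.two (nat_lit 9867100168) (nat_lit 37320923993) (.two (nat_lit 184989777925) (nat_lit 1055971) (.two (nat_lit 606076929) (nat_lit 37316730398) (.two (nat_lit 1048576) (nat_lit 2105189) (.one (nat_lit 4202479) .nil))))))))),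
   .two (nat_lit 10552870363) (nat_lit 156533523931) (.two (nat_lit 10552869704) (nat_lit 673189028) (.two (nat_lit 41943231) (nat_lit 9781121028) (.two (nat_lit 8388672) (nat_lit 46523225509) (.two (nat_lit 612368399) (nat_lit 159217883227) (.two (nat_lit 16777224) (nat_lit 158083324766) (.two (nat_lit 184549380) (nat_lit 3028294880) (.two (nat_lit 2097153) (nat_lit 8396440) (.two (nat_lit 2097152) (nat_lit 352329582) (.one (nat_lit 169877482) .nil))))))))),
   .two (nat_lit 10552870363) (nat_lit 639633621) (.two (nat_lit 156365751112) (nat_lit 165532404877) (.two (nat_lit 156365750629) (nat_lit 157043134474) (.two (nat_lit 9765388402) (nat_lit 16782209) (.two (nat_lit 159224168463) (nat_lit 183845787755) (.two (nat_lit 612368392) (nat_lit 9765395290) (.two (nat_lit 270532613) (nat_lit 285220064) (.two (nat_lit 2097153) (nat_lit 9765396001) (.two (nat_lit 1048576) (nat_lit 8396676) (.one (nat_lit 269492201) .nil))))))))),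
   .two (nat_lit 12147754460) (nat_lit 19096667611) (.two (nat_lit 156567077704) (nat_lit 183949593741) (.two (nat_lit 4605345983) (nat_lit 807408254) (.two (nat_lit 3560964161) (nat_lit 10370422170) (.two (nat_lit 169869327) (nat_lit 306190437) (.two (nat_lit 705691656) (nat_lit 18928900953) (.two (nat_lit 47550824453) (nat_lit 2988448993) (.two (nat_lit 4194305) (nat_lit 10376715921) (.two (nat_lit 1048576) (nat_lit 4202373) (.one (nat_lit 4202484) .nil))))))))),
   .two (nat_lit 889193947) (nat_lit 156372043227) (.two (nat_lit 185002361672) (nat_lit 166136384657) (.two (nat_lit 156372041919) (nat_lit 159219978879) (.two (nat_lit 9802088515) (nat_lit 109057443) (.two (nat_lit 813694991) (nat_lit 3024099426) (.two (nat_lit 813694984) (nat_lit 608181082) (.two (nat_lit 8388612) (nat_lit 9948896484) (.two (nat_lit 8388609) (nat_lit 1277173395) (.two (nat_lit 8388608) (nat_lit 2956992353) (.one (nat_lit 8396789) .nil))))))))),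
   .two (nat_lit 16778715) (nat_lit 343933958) (.two (nat_lit 16778715) (nat_lit 343933897) (.two (nat_lit 16778056) (nat_lit 343933958) (.two (nat_lit 16777682) (nat_lit 11618225295) (.two (nat_lit 16778452) (nat_lit 28093449823) (.two (nat_lit 16777407) (nat_lit 1216352264) (.two (nat_lit 8388672) (nat_lit 16782209) (.two (nat_lit 8388623) (nat_lit 83892321) (.two (nat_lit 8388616) (nat_lit 9881787233) (.two (nat_lit 8388610) (nat_lit 16784377) (.two (nat_lit 8388611) (nat_lit 117448040) (.two (nat_lit 8388609) (nat_lit 754982559) (.two (nat_lit 8388608) (nat_lit 16785303) (.one (nat_lit 8396779) .nil))))))))))))),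
   .two (nat_lit 16778715) (nat_lit 343933958) (.two (nat_lit 16778056) (nat_lit 343933958) (.two (nat_lit 16777684) (nat_lit 165532404887) (.two (nat_lit 16777407) (nat_lit 1216352264) (.two (nat_lit 8388672) (nat_lit 16782209) (.two (nat_lit 8388623) (nat_lit 83892321) (.two (nat_lit 8388616) (nat_lit 9881787233) (.two (nat_lit 8388612) (nat_lit 620763379) (.two (nat_lit 8388612) (nat_lit 16784377) (.two (nat_lit 8388609) (nat_lit 754982559) (.two (nat_lit 8388608) (nat_lit 16785172) (.one (nat_lit 8396779) .nil))))))))))),
   .two (nat_lit 117442011) (nat_lit 706742446) (.two (nat_lit 339739464) (nat_lit 2902461591) (.two (nat_lit 9781117119) (nat_lit 3524268673) (.two (nat_lit 4194370) (nat_lit 16782209) (.two (nat_lit 4194319) (nat_lit 16783455) (.two (nat_lit 705691656) (nat_lit 2889882458) (.two (nat_lit 2097157) (nat_lit 9869204466) (.two (nat_lit 2097155) (nat_lit 4634713313) (.two (nat_lit 2097153) (nat_lit 1343233569) (.two (nat_lit 2097152) (nat_lit 2889883494) (.one (nat_lit 2886737914) .nil)))))))))),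
   .two (nat_lit 166196151771) (nat_lit 3573549258) (.two (nat_lit 19142804296) (nat_lit 19026413157) (.two (nat_lit 156581757119) (nat_lit 156465369724) (.two (nat_lit 713031747) (nat_lit 10385102241) (.two (nat_lit 8388623) (nat_lit 336599141) (.two (nat_lit 754974728) (nat_lit 9873398665) (.two (nat_lit 8388612) (nat_lit 34610433) (.two (nat_lit 8388611) (nat_lit 10552876429) (.two (nat_lit 605028353) (nat_lit 713039515) (.two (nat_lit 1048576) (nat_lit 165532409701) (.one (nat_lit 34611185) .nil)))))))))),
   .two (nat_lit 285214171) (nat_lit 37314627759) (.two (nat_lit 285213512) (nat_lit 606080174) (.two (nat_lit 8388799) (nat_lit 721424391) (.two (nat_lit 276824130) (nat_lit 156581762458) (.two (nat_lit 16777231) (nat_lit 168826978) (.two (nat_lit 2961178632) (nat_lit 183846837090) (.two (nat_lit 16777220) (nat_lit 10000275676) (.two (nat_lit 2097153) (nat_lit 13187948064) (.two (nat_lit 1048576) (nat_lit 46422564710) (.one (nat_lit 4599062309) .nil))))))))),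
   .two (nat_lit 9781118427) (nat_lit 1050798) (.two (nat_lit 339739464) (nat_lit 10552872092) (.two (nat_lit 654311615) (nat_lit 174753583762) (.two (nat_lit 4194370) (nat_lit 16782209) (.two (nat_lit 4194319) (nat_lit 620763231) (.two (nat_lit 4194312) (nat_lit 1277172570) (.two (nat_lit 4194308) (nat_lit 168827528) (.two (nat_lit 4194308) (nat_lit 202381959) (.two (nat_lit 2097153) (nat_lit 1343233569) (.two (nat_lit 1048576) (nat_lit 2105190) (.one (nat_lit 16785431) .nil)))))))))),
   .two (nat_lit 612369883) (nat_lit 1358955003) (.two (nat_lit 612369224) (nat_lit 11559502852) (.two (nat_lit 612369224) (nat_lit 11559503456) (.two (nat_lit 156367847615) (nat_lit 880807940) (.two (nat_lit 4601151552) (nat_lit 310384037) (.two (nat_lit 620757007) (nat_lit 11010054235) (.two (nat_lit 620757000) (nat_lit 4601158489) (.two (nat_lit 184549380) (nat_lit 339745012) (.two (nat_lit 4194308) (nat_lit 46422563033) (.two (nat_lit 37748737) (nat_lit 318774942) (.two (nat_lit 4194304) (nat_lit 16785267) (.one (nat_lit 4202520) .nil))))))))))),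
   .two (nat_lit 880805339) (nat_lit 672137723) (.two (nat_lit 13224642012) (nat_lit 10510926793) (.two (nat_lit 10519315272) (nat_lit 13224643726) (.two (nat_lit 20637024613) (nat_lit 880807940) (.two (nat_lit 47563407426) (nat_lit 10343159209) (.two (nat_lit 4601151503) (nat_lit 9966721125) (.two (nat_lit 2969567240) (nat_lit 135273335) (.two (nat_lit 4194308) (nat_lit 1410341081) (.two (nat_lit 184549380) (nat_lit 339745810) (.two (nat_lit 37748737) (nat_lit 9915342494) (.two (nat_lit 1048576) (nat_lit 251666291) (.one (nat_lit 8396825) .nil))))))))))),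
   .two (nat_lit 654312923) (nat_lit 168822958) (.two (nat_lit 339739464) (nat_lit 156581760156) (.two (nat_lit 9781117119) (nat_lit 12115251841) (.two (nat_lit 4194370) (nat_lit 16782209) (.two (nat_lit 4194319) (nat_lit 50337887) (.two (nat_lit 169869320) (nat_lit 11479817050) (.two (nat_lit 4194308) (nat_lit 1276123353) (.two (nat_lit 4194308) (nat_lit 9866058376) (.two (nat_lit 2097153) (nat_lit 34610720) (.two (nat_lit 1048576) (nat_lit 171974502) (.one (nat_lit 16785434) .nil)))))))))),
   .two (nat_lit 117442011) (nat_lit 706742446) (.two (nat_lit 339739464) (nat_lit 2902461591) (.two (nat_lit 9781117119) (nat_lit 3524268673) (.two (nat_lit 4194370) (nat_lit 16782209) (.two (nat_lit 4194319) (nat_lit 16783455) (.two (nat_lit 705691656) (nat_lit 2889882458) (.two (nat_lit 4194308) (nat_lit 1054938) (.two (nat_lit 4194308) (nat_lit 1276123353) (.two (nat_lit 2097153) (nat_lit 1343233569) (.two (nat_lit 2097152) (nat_lit 2889883494) (.one (nat_lit 16785435) .nil)))))))))),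
   .two (nat_lit 343934427) (nat_lit 10000269819) (.two (nat_lit 276824904) (nat_lit 9902752260) (.two (nat_lit 2954887359) (nat_lit 12054433099) (.two (nat_lit 4194369) (nat_lit 166237048274) (.two (nat_lit 4194319) (nat_lit 156573371858) (.two (nat_lit 169869320) (nat_lit 1749030490) (.two (nat_lit 4194308) (nat_lit 4598012122) (.two (nat_lit 2097153) (nat_lit 46406834836) (.two (nat_lit 1048576) (nat_lit 46407884578) (.one (nat_lit 2920292130) .nil))))))))),
   .two (nat_lit 176161275) (nat_lit 13203671235) (.two (nat_lit 9940501320) (nat_lit 9781117958) (.two (nat_lit 8388799) (nat_lit 4613739147) (.two (nat_lit 8388672) (nat_lit 46507495617) (.two (nat_lit 8388623) (nat_lit 46507495617) (.two (nat_lit 11559501831) (nat_lit 4201545) (.two (nat_lit 713031683) (nat_lit 4201873) (.two (nat_lit 612368385) (nat_lit 16785057) (.two (nat_lit 1048576) (nat_lit 4202264) (.one (nat_lit 4202419) .nil))))))))),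
   .two (nat_lit 50333147) (nat_lit 1050806) (.two (nat_lit 101712712) (nat_lit 721423503) (.two (nat_lit 8388799) (nat_lit 19142807560) (.two (nat_lit 8388672) (nat_lit 2902463900) (.two (nat_lit 276824079) (nat_lit 218110368) (.two (nat_lit 612368392) (nat_lit 1055637) (.two (nat_lit 713031682) (nat_lit 1056003) (.two (nat_lit 1291845635) (nat_lit 1283464578) (.two (nat_lit 41943041) (nat_lit 1056418) (.two (nat_lit 8388608) (nat_lit 1056630) (.one (nat_lit 1056799) .nil)))))))))),
   .two (nat_lit 156569176231) (nat_lit 304087547) (.two (nat_lit 156569175247) (nat_lit 10001318404) (.two (nat_lit 20738737359) (nat_lit 21777876577) (.two (nat_lit 2954887359) (nat_lit 166199300759) (.two (nat_lit 1291845699) (nat_lit 9765393825) (.two (nat_lit 4613734415) (nat_lit 2418022499) (.two (nat_lit 16777224) (nat_lit 12617522055) (.two (nat_lit 4194306) (nat_lit 1055739) (.two (nat_lit 721420291) (nat_lit 156567084429) (.two (nat_lit 16777217) (nat_lit 1056420) (.two (nat_lit 4194304) (nat_lit 16785271) (.one (nat_lit 4202529) .nil))))))))))),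
   .two (nat_lit 10007611559) (nat_lit 4599054843) (.two (nat_lit 2994734555) (nat_lit 3558867914) (.two (nat_lit 10007610575) (nat_lit 156567077380) (.two (nat_lit 166230754511) (nat_lit 1913652833) (.two (nat_lit 158176642255) (nat_lit 19100862047) (.two (nat_lit 2954887359) (nat_lit 20711477911) (.two (nat_lit 10385096771) (nat_lit 605033889) (.two (nat_lit 4613734415) (nat_lit 136321123) (.two (nat_lit 16777224) (nat_lit 156364708751) (.two (nat_lit 20638072834) (nat_lit 1056006) (.two (nat_lit 184549379) (nat_lit 10000276878) (.two (nat_lit 16777217) (nat_lit 269491876) (.two (nat_lit 8388608) (nat_lit 285220727) (.one (nat_lit 8396834) .nil))))))))))))),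
   .two (nat_lit 185035916764) (nat_lit 20704134619) (.two (nat_lit 174685422409) (nat_lit 10506734766) (.two (nat_lit 20704133311) (nat_lit 4199099) (.two (nat_lit 3539992641) (nat_lit 10003420035) (.two (nat_lit 12054429711) (nat_lit 156971833753) (.two (nat_lit 12054429704) (nat_lit 184989784948) (.two (nat_lit 176160773) (nat_lit 21781028066) (.two (nat_lit 37748737) (nat_lit 1350573722) (.two (nat_lit 1048576) (nat_lit 8396664) (.one (nat_lit 16785332) .nil))))))))),
   .two (nat_lit 16777443) (nat_lit 20711475401) (.two (nat_lit 855638856) (nat_lit 12624856677) (.two (nat_lit 184993972415) (nat_lit 159216830114) (.two (nat_lit 4613734465) (nat_lit 46414172277) (.two (nat_lit 41943107) (nat_lit 9765391766) (.two (nat_lit 47563407375) (nat_lit 11578382435) (.two (nat_lit 713031688) (nat_lit 37262202497) (.two (nat_lit 184549378) (nat_lit 8396178) (.two (nat_lit 34603013) (nat_lit 156380436097) (.two (nat_lit 2097153) (nat_lit 8395801) (.two (nat_lit 1048576) (nat_lit 9934216217) (.one (nat_lit 16785443) .nil))))))))))),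
   .two (nat_lit 47582283943) (nat_lit 28760343035) (.two (nat_lit 343934159) (nat_lit 1950351876) (.two (nat_lit 9768534207) (nat_lit 4599059095) (.two (nat_lit 822083651) (nat_lit 2102689) (.two (nat_lit 158158815247) (nat_lit 19537074275) (.two (nat_lit 10385096712) (nat_lit 174755683215) (.two (nat_lit 1277165573) (nat_lit 813702139) (.two (nat_lit 9781116929) (nat_lit 1786781348) (.two (nat_lit 2097152) (nat_lit 1795170167) (.one (nat_lit 2105128) .nil))))))))),
   .two (nat_lit 16778716) (nat_lit 12150900930) (.two (nat_lit 16778057) (nat_lit 184986633832) (.two (nat_lit 8388799) (nat_lit 183861511842) (.two (nat_lit 8388672) (nat_lit 46507496325) (.two (nat_lit 8388672) (nat_lit 156569177496) (.two (nat_lit 8388619) (nat_lit 1055412) (.two (nat_lit 11559501832) (nat_lit 46406833793) (.two (nat_lit 705691650) (nat_lit 4202033) (.two (nat_lit 713031684) (nat_lit 2886735489) (.two (nat_lit 4194305) (nat_lit 68165169) (.two (nat_lit 4194304) (nat_lit 3524271422) (.one (nat_lit 1056805) .nil))))))))))),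
   .two (nat_lit 158143088092) (nat_lit 156533523931) (.two (nat_lit 318767944) (nat_lit 4605349038) (.two (nat_lit 156533522623) (nat_lit 185027531451) (.two (nat_lit 4613734465) (nat_lit 645927810) (.two (nat_lit 2961178639) (nat_lit 1795168702) (.two (nat_lit 9948889096) (nat_lit 1283464052) (.two (nat_lit 754974725) (nat_lit 10376715490) (.two (nat_lit 612368385) (nat_lit 166211886746) (.two (nat_lit 2097152) (nat_lit 185035923320) (.one (nat_lit 1056806) .nil))))))))),
   .two (nat_lit 19142804956) (nat_lit 46980400132) (.two (nat_lit 889192639) (nat_lit 10510930112) (.two (nat_lit 4605345856) (nat_lit 3024097473) (.two (nat_lit 41943048) (nat_lit 809507036) (.two (nat_lit 8388612) (nat_lit 205527284) (.two (nat_lit 2097152) (nat_lit 4202274) (.one (nat_lit 10504642129) .nil)))))),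
   .two (nat_lit 11559503323) (nat_lit 9766437895) (.two (nat_lit 21827158207) (nat_lit 10437529723) (.two (nat_lit 721420353) (nat_lit 156976025798) (.two (nat_lit 9766436872) (nat_lit 157051525339) (.two (nat_lit 9948889093) (nat_lit 243276440) (.two (nat_lit 4194304) (nat_lit 2105124) (.one (nat_lit 41950801) .nil)))))),
   .two (nat_lit 612369884) (nat_lit 2969568263) (.two (nat_lit 4605345983) (nat_lit 156548206792) (.two (nat_lit 184549441) (nat_lit 2920288449) (.two (nat_lit 184993972232) (nat_lit 788535960) (.two (nat_lit 713031684) (nat_lit 788535960) (.two (nat_lit 1048576) (nat_lit 4202417) (.one (nat_lit 4202066) .nil)))))),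
   .two (nat_lit 13188989956) (nat_lit 8390251) (.two (nat_lit 4634706111) (nat_lit 1277169106) (.two (nat_lit 13203668999) (nat_lit 4201778) (.two (nat_lit 2097152) (nat_lit 1056694) .nil))),
   .two (nat_lit 11559502855) (nat_lit 9766437895) (.two (nat_lit 75497510) (nat_lit 28705820870) (.two (nat_lit 9766436872) (nat_lit 157038942451) (.two (nat_lit 4194304) (nat_lit 2105271) .nil))),
   .two (nat_lit 46474986972) (nat_lit 20753417692) (.two (nat_lit 20753417033) (nat_lit 19027463311) (.two (nat_lit 16777407) (nat_lit 3531608070) (.two (nat_lit 16777280) (nat_lit 1954550659) (.two (nat_lit 713031695) (nat_lit 83892317) (.two (nat_lit 75497480) (nat_lit 1277172570) (.two (nat_lit 16777220) (nat_lit 8396134) (.two (nat_lit 2097153) (nat_lit 813702687) (.two (nat_lit 8388608) (nat_lit 169877345) (.one (nat_lit 337649642) .nil))))))))),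
   .two (nat_lit 285214171) (nat_lit 2099373) (.two (nat_lit 10552869704) (nat_lit 19027463309) (.two (nat_lit 41943231) (nat_lit 9814676354) (.two (nat_lit 16777231) (nat_lit 158077033312) (.two (nat_lit 176160772) (nat_lit 157051526371) (.two (nat_lit 2097153) (nat_lit 184993980040) (.two (nat_lit 16777216) (nat_lit 165526118237) (.one (nat_lit 69214186) .nil))))))),
   .two (nat_lit 9781118427) (nat_lit 1050798) (.two (nat_lit 1309672265) (nat_lit 236981391) (.two (nat_lit 159266111679) (nat_lit 102764550) (.two (nat_lit 4194369) (nat_lit 16782209) (.two (nat_lit 169869327) (nat_lit 2969573469) (.two (nat_lit 4194312) (nat_lit 1277172570) (.two (nat_lit 2956984325) (nat_lit 9867107871) (.two (nat_lit 1048576) (nat_lit 2105190) (.one (nat_lit 1056814) .nil)))))))),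
   .two (nat_lit 16778715) (nat_lit 10336864458) (.two (nat_lit 10552869705) (nat_lit 19027463311) (.two (nat_lit 16777407) (nat_lit 11007955577) (.two (nat_lit 184549442) (nat_lit 839915268) (.two (nat_lit 620757007) (nat_lit 156364708700) (.two (nat_lit 184549380) (nat_lit 156364709219) (.two (nat_lit 2097153) (nat_lit 873471840) (.one (nat_lit 34611182) .nil))))))),
   .two (nat_lit 822085083) (nat_lit 185023334608) (.two (nat_lit 12117345096) (nat_lit 183845784726) (.two (nat_lit 4647289023) (nat_lit 813699699) (.two (nat_lit 285212736) (nat_lit 1054522) (.two (nat_lit 809500687) (nat_lit 159250389879) (.two (nat_lit 4194308) (nat_lit 21818776951) (.two (nat_lit 4194305) (nat_lit 705699499) (.two (nat_lit 1048576) (nat_lit 185023340389) (.one (nat_lit 1056821) .nil)))))))),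
   .two (nat_lit 612369883) (nat_lit 16779431) (.two (nat_lit 16778447) (nat_lit 19130223773) (.two (nat_lit 16777407) (nat_lit 272634515) (.two (nat_lit 8388672) (nat_lit 166199301886) (.two (nat_lit 41943055) (nat_lit 1358961540) (.two (nat_lit 4194308) (nat_lit 8396194) (.two (nat_lit 4194305) (nat_lit 8396462) (.two (nat_lit 4194304) (nat_lit 8396678) (.one (nat_lit 4202543) .nil)))))))),
   .two (nat_lit 1384121819) (nat_lit 20704135335) (.two (nat_lit 10007610579) (nat_lit 1745882283) (.two (nat_lit 8388799) (nat_lit 306188983) (.two (nat_lit 8388672) (nat_lit 34608974) (.two (nat_lit 8388623) (nat_lit 18925755288) (.two (nat_lit 4194308) (nat_lit 34610588) (.two (nat_lit 612368385) (nat_lit 174688575359) (.one (nat_lit 1056822) .nil))))))),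
   .two (nat_lit 343934427) (nat_lit 19597888340) (.two (nat_lit 18925749065) (nat_lit 3028290701) (.two (nat_lit 8388799) (nat_lit 2954891969) (.two (nat_lit 8388672) (nat_lit 1779439419) (.two (nat_lit 41943055) (nat_lit 1779440063) (.two (nat_lit 50331656) (nat_lit 47548734368) (.two (nat_lit 8388613) (nat_lit 1056163) (.two (nat_lit 2097153) (nat_lit 68165277) (.two (nat_lit 1048576) (nat_lit 606084989) (.one (nat_lit 68165680) .nil))))))))),
   .two (nat_lit 8390107) (nat_lit 620758491) (.two (nat_lit 276824904) (nat_lit 28101840017) (.two (nat_lit 8388799) (nat_lit 337646221) (.two (nat_lit 8388672) (nat_lit 20652758428) (.two (nat_lit 8388623) (nat_lit 1411389875) (.two (nat_lit 8388616) (nat_lit 203430749) (.two (nat_lit 8388613) (nat_lit 12617522541) (.two (nat_lit 8388609) (nat_lit 158177697641) (.one (nat_lit 1056823) .nil)))))))),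
   .two (nat_lit 50333148) (nat_lit 11479813279) (.two (nat_lit 16777407) (nat_lit 3460305537) (.two (nat_lit 8388672) (nat_lit 4200292) (.two (nat_lit 8388623) (nat_lit 2969573839) (.two (nat_lit 8388616) (nat_lit 46510644131) (.two (nat_lit 4194308) (nat_lit 8396175) (.two (nat_lit 4194305) (nat_lit 8396463) (.two (nat_lit 4194304) (nat_lit 8396679) (.one (nat_lit 4202546) .nil)))))))),
   .two (nat_lit 612369884) (nat_lit 16780147) (.two (nat_lit 721421519) (nat_lit 46507494550) (.two (nat_lit 8388799) (nat_lit 47550829186) (.two (nat_lit 8388672) (nat_lit 336598845) (.two (nat_lit 8388623) (nat_lit 1055193) (.two (nat_lit 2961178632) (nat_lit 876616600) (.two (nat_lit 41943045) (nat_lit 1056164) (.two (nat_lit 612368385) (nat_lit 165525069697) (.one (nat_lit 1056824) .nil)))))))),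
   .two (nat_lit 46414169564) (nat_lit 11614031014) (.two (nat_lit 4601151679) (nat_lit 8393852) (.two (nat_lit 4605345858) (nat_lit 1054565) (.two (nat_lit 4601151503) (nat_lit 159216834954) (.two (nat_lit 4194312) (nat_lit 8395609) (.two (nat_lit 4194308) (nat_lit 101719585) (.two (nat_lit 4194304) (nat_lit 1056648) (.one (nat_lit 1056825) .nil))))))),
   .two (nat_lit 16777443) (nat_lit 11618224296) (.two (nat_lit 16778715) (nat_lit 343933897) (.two (nat_lit 721420508) (nat_lit 1786776721) (.two (nat_lit 16778452) (nat_lit 28093449823) (.two (nat_lit 16778056) (nat_lit 8391193) (.two (nat_lit 16777407) (nat_lit 343935458) (.two (nat_lit 16777407) (nat_lit 109054433) (.two (nat_lit 16777407) (nat_lit 1182795425) (.two (nat_lit 8388672) (nat_lit 16782209) (.two (nat_lit 8388623) (nat_lit 9781123168) (.two (nat_lit 8388616) (nat_lit 156380436057) (.two (nat_lit 8388616) (nat_lit 156380436664) (.two (nat_lit 8388610) (nat_lit 1358962024) (.two (nat_lit 8388611) (nat_lit 20753423845) (.two (nat_lit 8388609) (nat_lit 166245441237) (.two (nat_lit 8388608) (nat_lit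 16785360) (.one (nat_lit 2894077949) .nil)))))))))))))))),
   .two (nat_lit 11492393932) (nat_lit 10007610843) (.two (nat_lit 16778715) (nat_lit 343933897) (.two (nat_lit 721420508) (nat_lit 1786776721) (.two (nat_lit 16777682) (nat_lit 11618225295) (.two (nat_lit 16778452) (nat_lit 28093449823) (.two (nat_lit 8388701) (nat_lit 16781316) (.two (nat_lit 16777407) (nat_lit 343935458) (.two (nat_lit 16777407) (nat_lit 109054433) (.two (nat_lit 8388672) (nat_lit 16782209) (.two (nat_lit 8388623) (nat_lit 9781123168) (.two (nat_lit 8388616) (nat_lit 156380437083) (.two (nat_lit 8388616) (nat_lit 156380436057) (.two (nat_lit 8388612) (nat_lit 19142810862) (.two (nat_lit 8388611) (nat_lit 20753423846) (.two (nat_lit 8388609) (nat_lit 166245441239) (.two (nat_lit 8388608) (nat_lit 16785304) (.one (nat_lit 645931006) .nil)))))))))))))))),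
   .two (nat_lit 4028630492) (nat_lit 679478747) (.two (nat_lit 1182793946) (nat_lit 16780429) (.two (nat_lit 4028629833) (nat_lit 679478890) (.two (nat_lit 620757832) (nat_lit 13188990562) (.two (nat_lit 620757183) (nat_lit 612370917) (.two (nat_lit 620757183) (nat_lit 75500957) (.two (nat_lit 16777407) (nat_lit 21778926998) (.two (nat_lit 16777280) (nat_lit 612372604) (.two (nat_lit 16777280) (nat_lit 13195283870) (.two (nat_lit 16777280) (nat_lit 75500957) (.two (nat_lit 8388623) (nat_lit 9781123164) (.two (nat_lit 8388616) (nat_lit 50337374) (.two (nat_lit 8388616) (nat_lit 156380436664) (.two (nat_lit 176160773) (nat_lit 706747016) (.two (nat_lit 176160773) (nat_lit 740301447) (.two (nat_lit 2097153) (nat_lit 11551120927) (.two (nat_lit 2097152) (nat_lit 1786781453) (.one (nat_lit 606085110) .nil))))))))))))))))),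
   .two (nat_lit 12617516508) (nat_lit 142607835) (.two (nat_lit 9772728538) (nat_lit 16780429) (.two (nat_lit 620757458) (nat_lit 11517562614) (.two (nat_lit 12617515849) (nat_lit 142607978) (.two (nat_lit 16777309) (nat_lit 813699698) (.two (nat_lit 620757183) (nat_lit 75500005) (.two (nat_lit 620757183) (nat_lit 612371869) (.two (nat_lit 8388626) (nat_lit 16782209) (.two (nat_lit 16777280) (nat_lit 75501692) (.two (nat_lit 16777280) (nat_lit 4605349278) (.two (nat_lit 41943055) (nat_lit 1191188572) (.two (nat_lit 41943048) (nat_lit 16783972) (.two (nat_lit 41943048) (nat_lit 16782942) (.two (nat_lit 713031685) (nat_lit 2953844953) (.two (nat_lit 713031685) (nat_lit 168827528) (.two (nat_lit 34603009) (nat_lit 2961186335) (.two (nat_lit 1048576) (nat_lit 209722948) (.one (nat_lit 68165624) .nil))))))))))))))))),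
   .two (nat_lit 352323036) (nat_lit 47555020251) (.two (nat_lit 352322377) (nat_lit 343936807) (.two (nat_lit 889192639) (nat_lit 4634710706) (.two (nat_lit 2988441667) (nat_lit 46481282460) (.two (nat_lit 176160783) (nat_lit 2988447838) (.two (nat_lit 50331656) (nat_lit 13191093094) (.two (nat_lit 721420292) (nat_lit 1954552453) (.two (nat_lit 4194307) (nat_lit 2357206383) (.two (nat_lit 2097153) (nat_lit 37756451) (.two (nat_lit 2097152) (nat_lit 4613742441) (.one (nat_lit 16785485) .nil)))))))))),
   .two (nat_lit 612369883) (nat_lit 159232559296) (.two (nat_lit 75498312) (nat_lit 10385100538) (.two (nat_lit 8388799) (nat_lit 4613739147) (.two (nat_lit 46984593428) (nat_lit 171972028) (.two (nat_lit 713031746) (nat_lit 20753419674) (.two (nat_lit 713031695) (nat_lit 1055411) (.two (nat_lit 713031688) (nat_lit 168827796) (.two (nat_lit 713031682) (nat_lit 1056354) (.two (nat_lit 612368387) (nat_lit 168828304) (.two (nat_lit 612368385) (nat_lit 168828576) (.two (nat_lit 1048576) (nat_lit 4202356) (.one (nat_lit 4202574) .nil))))))))))),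
   .two (nat_lit 612369883) (nat_lit 159232559296) (.two (nat_lit 75498312) (nat_lit 10385100538) (.two (nat_lit 8388799) (nat_lit 4613739147) (.two (nat_lit 184423546900) (nat_lit 1947211200) (.two (nat_lit 176160803) (nat_lit 13187946272) (.two (nat_lit 713031746) (nat_lit 20753419674) (.two (nat_lit 713031695) (nat_lit 1055411) (.two (nat_lit 713031688) (nat_lit 168827796) (.two (nat_lit 713031682) (nat_lit 16784995) (.two (nat_lit 612368387) (nat_lit 168828304) (.two (nat_lit 612368385) (nat_lit 168828576) (.two (nat_lit 1048576) (nat_lit 4202356) (.one (nat_lit 4202575) .nil)))))))))))),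
   .two (nat_lit 612369883) (nat_lit 159232559296) (.two (nat_lit 75498312) (nat_lit 10385100538) (.two (nat_lit 8388799) (nat_lit 4613739147) (.two (nat_lit 8388672) (nat_lit 10000274312) (.two (nat_lit 176160803) (nat_lit 13187946272) (.two (nat_lit 612368418) (nat_lit 13187946272) (.two (nat_lit 713031695) (nat_lit 1055411) (.two (nat_lit 713031688) (nat_lit 168827796) (.two (nat_lit 713031682) (nat_lit 16784996) (.two (nat_lit 612368387) (nat_lit 168828304) (.two (nat_lit 612368385) (nat_lit 168828576) (.two (nat_lit 1048576) (nat_lit 4202356) (.one (nat_lit 4202524) .nil)))))))))))),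
   .two (nat_lit 612369883) (nat_lit 159232559296) (.two (nat_lit 75498312) (nat_lit 10385100538) (.two (nat_lit 8388799) (nat_lit 4613739147) (.two (nat_lit 8388672) (nat_lit 46507495617) (.two (nat_lit 8388672) (nat_lit 10000274312) (.two (nat_lit 612368418) (nat_lit 13187946272) (.two (nat_lit 713031695) (nat_lit 1055411) (.two (nat_lit 713031688) (nat_lit 168827796) (.two (nat_lit 713031682) (nat_lit 16784879) (.two (nat_lit 612368387) (nat_lit 168828304) (.two (nat_lit 612368385) (nat_lit 168828576) (.two (nat_lit 1048576) (nat_lit 4202356) (.one (nat_lit 4202525) .nil)))))))))))),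
   .two (nat_lit 612369883) (nat_lit 159232559296) (.two (nat_lit 75498312) (nat_lit 10385100538) (.two (nat_lit 8388799) (nat_lit 4613739147) (.two (nat_lit 8388672) (nat_lit 46507495617) (.two (nat_lit 8388672) (nat_lit 10000274312) (.two (nat_lit 713031695) (nat_lit 1055411) (.two (nat_lit 713031688) (nat_lit 168827796) (.two (nat_lit 713031684) (nat_lit 775952602) (.two (nat_lit 713031684) (nat_lit 16784879) (.two (nat_lit 612368385) (nat_lit 168828576) (.two (nat_lit 1048576) (nat_lit 4202356) (.one (nat_lit 171974676) .nil))))))))))),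
   .two (nat_lit 620758492) (nat_lit 11006904495) (.two (nat_lit 9766437705) (nat_lit 620760205) (.two (nat_lit 8388799) (nat_lit 1780486814) (.two (nat_lit 8388672) (nat_lit 166245438886) (.two (nat_lit 2887778319) (nat_lit 713038234) (.two (nat_lit 2887778312) (nat_lit 166136388454) (.two (nat_lit 166130089986) (nat_lit 8396272) (.two (nat_lit 2097155) (nat_lit 176168335) (.two (nat_lit 9766436865) (nat_lit 68165274) (.two (nat_lit 1048576) (nat_lit 2105205) (.one (nat_lit 8396830) .nil)))))))))),
   .two (nat_lit 620758492) (nat_lit 11006904495) (.two (nat_lit 9766437705) (nat_lit 620760205) (.two (nat_lit 8388799) (nat_lit 1780486814) (.two (nat_lit 8388672) (nat_lit 166245438886) (.two (nat_lit 2887778319) (nat_lit 713038234) (.two (nat_lit 2887778312) (nat_lit 166136388454) (.two (nat_lit 166130089986) (nat_lit 8396034) (.two (nat_lit 2097155) (nat_lit 176168335) (.two (nat_lit 9766436865) (nat_lit 68165274) (.two (nat_lit 1048576) (nat_lit 2105205) (.one (nat_lit 8396880) .nil)))))))))),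
   .two (nat_lit 620758492) (nat_lit 11006904495) (.two (nat_lit 9766437705) (nat_lit 620760205) (.two (nat_lit 8388799) (nat_lit 1780486814) (.two (nat_lit 8388672) (nat_lit 166245438886) (.two (nat_lit 2887778319) (nat_lit 713038234) (.two (nat_lit 2887778312) (nat_lit 166136388454) (.two (nat_lit 166130089986) (nat_lit 8396273) (.two (nat_lit 2954887173) (nat_lit 1343233281) (.two (nat_lit 9766436865) (nat_lit 68165274) (.two (nat_lit 1048576) (nat_lit 2105205) (.one (nat_lit 8396881) .nil)))))))))),
   .two (nat_lit 9781118427) (nat_lit 28086110391) (.two (nat_lit 339739464) (nat_lit 352323170) (.two (nat_lit 4647289023) (nat_lit 20640171681) (.two (nat_lit 4194369) (nat_lit 16782209) (.two (nat_lit 4194319) (nat_lit 285218909) (.two (nat_lit 4194312) (nat_lit 620762747) (.two (nat_lit 4194308) (nat_lit 1276124146) (.two (nat_lit 4194308) (nat_lit 620762747) (.two (nat_lit 2097153) (nat_lit 9933168161) (.two (nat_lit 16777216) (nat_lit 1055769) (.one (nat_lit 16785490) .nil)))))))))),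
   .two (nat_lit 9781118427) (nat_lit 28086110391) (.two (nat_lit 9781117768) (nat_lit 1413482079) (.two (nat_lit 339739464) (nat_lit 352323170) (.two (nat_lit 9802088639) (nat_lit 158176644425) (.two (nat_lit 4647289023) (nat_lit 20640171681) (.two (nat_lit 4194369) (nat_lit 16782209) (.two (nat_lit 4194319) (nat_lit 285218909) (.two (nat_lit 4194312) (nat_lit 16782939) (.two (nat_lit 4194312) (nat_lit 620762747) (.two (nat_lit 4194308) (nat_lit 9933167239) (.two (nat_lit 4194308) (nat_lit 1276124146) (.two (nat_lit 2097153) (nat_lit 9933168161) (.two (nat_lit 16777216) (nat_lit 1056721) (.one (nat_lit 16785491) .nil))))))))))))),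
   .two (nat_lit 13191086307) (nat_lit 880805339) (.two (nat_lit 46414169036) (nat_lit 37751002) (.two (nat_lit 608174297) (nat_lit 11578380003) (.two (nat_lit 11543773649) (nat_lit 1379929827) (.two (nat_lit 8389448) (nat_lit 183913940583) (.two (nat_lit 11584667839) (nat_lit 1947209748) (.two (nat_lit 11543773375) (nat_lit 21210598813) (.two (nat_lit 11543773375) (nat_lit 156569175714) (.two (nat_lit 4194369) (nat_lit 159224173449) (.two (nat_lit 4194369) (nat_lit 159224173451) (.two (nat_lit 705691713) (nat_lit 2927627677) (.two (nat_lit 4194319) (nat_lit 2988447845) (.two (nat_lit 13191086088) (nat_lit 47547685050) (.two (nat_lit 4194312) (nat_lit 159217884185) (.two (nat_lit 46407876610) (nat_lit 138419575) (.two (nat_lit 13191086085) (nat_lit 1746934407) (.two (nat_lit 156365750273) (nat_lit 18928901788) (.two (nat_lit 1048576) (nat_lit 2105298) (.one (nat_lit 2105428) .nil)))))))))))))))))),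
   .two (nat_lit 352322507) (nat_lit 18926799649) (.two (nat_lit 9881781197) (nat_lit 2099423) (.two (nat_lit 41943267) (nat_lit 11492396173) (.two (nat_lit 1182794192) (nat_lit 11492396173) (.two (nat_lit 285212891) (nat_lit 2101123) (.two (nat_lit 1182793823) (nat_lit 3472887814) (.two (nat_lit 185035915455) (nat_lit 2416971796) (.two (nat_lit 185035915455) (nat_lit 158083321158) (.two (nat_lit 8388626) (nat_lit 3022001970) (.two (nat_lit 276824129) (nat_lit 352326532) (.two (nat_lit 276824129) (nat_lit 285216158) (.two (nat_lit 41943055) (nat_lit 183947499618) (.two (nat_lit 41943048) (nat_lit 159250388572) (.two (nat_lit 41943048) (nat_lit 202381498) (.two (nat_lit 169869314) (nat_lit 21818776951) (.two (nat_lit 75497475) (nat_lit 10519322209) (.two (nat_lit 606076929) (nat_lit 75505308) (.two (nat_lit 1048576) (nat_lit 2105299) (.one (nat_lit 2105429) .nil)))))))))))))))))),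
   .two (nat_lit 8388835) (nat_lit 166199298903) (.two (nat_lit 156367848924) (nat_lit 18933089759) (.two (nat_lit 612368601) (nat_lit 185021238420) (.two (nat_lit 47588574025) (nat_lit 166230754911) (.two (nat_lit 8389448) (nat_lit 337643111) (.two (nat_lit 8388799) (nat_lit 1379928549) (.two (nat_lit 8388799) (nat_lit 773852573) (.two (nat_lit 8388799) (nat_lit 20738737826) (.two (nat_lit 8388672) (nat_lit 9966719097) (.two (nat_lit 8388672) (nat_lit 1745882526) (.two (nat_lit 8388672) (nat_lit 10000273525) (.two (nat_lit 276824079) (nat_lit 4599060578) (.two (nat_lit 276824072) (nat_lit 19128130182) (.two (nat_lit 276824072) (nat_lit 19128130182) (.two (nat_lit 46414168066) (nat_lit 9798950286) (.two (nat_lit 8388612) (nat_lit 156566035078) (.two (nat_lit 8388609) (nat_lit 21778931429) (.two (nat_lit 4194304) (nat_lit 1056724) (.one (nat_lit 10003423301) .nil)))))))))))))))))),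
   .two (nat_lit 183853122508) (nat_lit 46406830266) (.two (nat_lit 679478748) (nat_lit 807405023) (.two (nat_lit 71303385) (nat_lit 165525065456) (.two (nat_lit 9934209489) (nat_lit 165525065456) (.two (nat_lit 339739464) (nat_lit 880805471) (.two (nat_lit 35651679) (nat_lit 165525066393) (.two (nat_lit 9934209215) (nat_lit 3524266469) (.two (nat_lit 41943231) (nat_lit 47584383102) (.two (nat_lit 2954887186) (nat_lit 20637029787) (.two (nat_lit 2954887232) (nat_lit 47547682940) (.two (nat_lit 2954887232) (nat_lit 174752533918) (.two (nat_lit 11551113231) (nat_lit 28760348770) (.two (nat_lit 21785214984) (nat_lit 28758252125) (.two (nat_lit 11551113224) (nat_lit 12150905479) (.two (nat_lit 21778923525) (nat_lit 142613994) (.two (nat_lit 156365750275) (nat_lit 1056237) (.two (nat_lit 156365750273) (nat_lit 4202303) (.two (nat_lit 1048576) (nat_lit 4202453) (.one (nat_lit 47581241412) .nil)))))))))))))))))),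
   .two (nat_lit 8390108) (nat_lit 16778186) (.two (nat_lit 11618223055) (nat_lit 166132189356) (.two (nat_lit 11477713113) (nat_lit 19532876946) (.two (nat_lit 16777682) (nat_lit 1277168783) (.two (nat_lit 16777407) (nat_lit 11511271430) (.two (nat_lit 8388672) (nat_lit 10907293082) (.two (nat_lit 10519314447) (nat_lit 166130096525) (.two (nat_lit 9781116936) (nat_lit 19530783595) (.two (nat_lit 4194306) (nat_lit 2104818) (.two (nat_lit 2902458371) (nat_lit 19537075577) (.two (nat_lit 8388609) (nat_lit 2104995) (.two (nat_lit 2097152) (nat_lit 4202426) (.one (nat_lit 2105430) .nil)))))))))))),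
   .two (nat_lit 8390108) (nat_lit 352323179) (.two (nat_lit 8390108) (nat_lit 16778186) (.two (nat_lit 4634707151) (nat_lit 12115248736) (.two (nat_lit 16777682) (nat_lit 1277168783) (.two (nat_lit 156984410331) (nat_lit 37752557) (.two (nat_lit 16777407) (nat_lit 11511271430) (.two (nat_lit 8388672) (nat_lit 10907293082) (.two (nat_lit 10519314447) (nat_lit 166130096525) (.two (nat_lit 9781116936) (nat_lit 19530783595) (.two (nat_lit 4194306) (nat_lit 2104819) (.two (nat_lit 11479810053) (nat_lit 2104818) (.two (nat_lit 8388609) (nat_lit 2104995) (.two (nat_lit 2097152) (nat_lit 4202426) (.one (nat_lit 2105431) .nil))))))))))))),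
   .two (nat_lit 8390108) (nat_lit 352323179) (.two (nat_lit 8390108) (nat_lit 16778186) (.two (nat_lit 8389449) (nat_lit 352323179) (.two (nat_lit 4634707151) (nat_lit 12115248736) (.two (nat_lit 156984410331) (nat_lit 37752557) (.two (nat_lit 16777407) (nat_lit 11511271430) (.two (nat_lit 8388672) (nat_lit 10907293082) (.two (nat_lit 10519314447) (nat_lit 166130096525) (.two (nat_lit 9781116936) (nat_lit 19530783595) (.two (nat_lit 4194306) (nat_lit 2104580) (.two (nat_lit 4194308) (nat_lit 2104819) (.two (nat_lit 8388609) (nat_lit 2104995) (.two (nat_lit 2097152) (nat_lit 4202426) (.one (nat_lit 2105432) .nil))))))))))))),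
   .two (nat_lit 8390108) (nat_lit 352323179) (.two (nat_lit 8389449) (nat_lit 352323179) (.two (nat_lit 4634707151) (nat_lit 12115248736) (.two (nat_lit 16777407) (nat_lit 11511271430) (.two (nat_lit 8388672) (nat_lit 10907293082) (.two (nat_lit 10519314447) (nat_lit 166130096525) (.two (nat_lit 9781116936) (nat_lit 19530783595) (.two (nat_lit 4194306) (nat_lit 2104581) (.two (nat_lit 2902458371) (nat_lit 337649315) (.two (nat_lit 8388609) (nat_lit 2104995) (.two (nat_lit 2097152) (nat_lit 4202426) (.one (nat_lit 2105376) .nil))))))))))),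
   .two (nat_lit 185035916763) (nat_lit 19093521883) (.two (nat_lit 184549596) (nat_lit 9798946608) (.two (nat_lit 185035916104) (nat_lit 19093522026) (.two (nat_lit 185035916104) (nat_lit 158075979362) (.two (nat_lit 11477712991) (nat_lit 184553479) (.two (nat_lit 11559502015) (nat_lit 168824134) (.two (nat_lit 11559502015) (nat_lit 135269784) (.two (nat_lit 11559501890) (nat_lit 9867104381) (.two (nat_lit 9766436974) (nat_lit 285216158) (.two (nat_lit 11559501890) (nat_lit 2101374) (.two (nat_lit 2887778319) (nat_lit 50338195) (.two (nat_lit 4613734408) (nat_lit 156365756602) (.two (nat_lit 2887778312) (nat_lit 9781124116) (.two (nat_lit 2097157) (nat_lit 3003128823) (.two (nat_lit 2097155) (nat_lit 16784380) (.two (nat_lit 34603009) (nat_lit 21778931230) (.two (nat_lit 1048576) (nat_lit 2105302) (.one (nat_lit 2105433) .nil))))))))))))))))),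
   .two (nat_lit 12163483100) (nat_lit 20704134619) (.two (nat_lit 10385096924) (nat_lit 174692765488) (.two (nat_lit 1962934735) (nat_lit 47581236369) (.two (nat_lit 12163482441) (nat_lit 20704134762) (.two (nat_lit 10376708191) (nat_lit 16781319) (.two (nat_lit 11559501918) (nat_lit 1350570611) (.two (nat_lit 117440703) (nat_lit 269487430) (.two (nat_lit 176160786) (nat_lit 1410340612) (.two (nat_lit 11559501888) (nat_lit 11551117437) (.two (nat_lit 176160877) (nat_lit 2969570718) (.two (nat_lit 2961178639) (nat_lit 9781123475) (.two (nat_lit 9866051592) (nat_lit 4638906973) (.two (nat_lit 3539992584) (nat_lit 157043136698) (.two (nat_lit 713031685) (nat_lit 11610889203) (.two (nat_lit 2894069765) (nat_lit 4613741559) (.two (nat_lit 605028353) (nat_lit 3531611678) (.two (nat_lit 1048576) (nat_lit 8396759) (.one (nat_lit 8396890) .nil))))))))))))))))),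
   .two (nat_lit 46510638556) (nat_lit 12062820543) (.two (nat_lit 46510637897) (nat_lit 12115248735) (.two (nat_lit 8389449) (nat_lit 12633245346) (.two (nat_lit 9768534207) (nat_lit 9948892486) (.two (nat_lit 41943231) (nat_lit 12633245346) (.two (nat_lit 20719861825) (nat_lit 159251434910) (.two (nat_lit 272629824) (nat_lit 880808062) (.two (nat_lit 8388674) (nat_lit 166130093468) (.two (nat_lit 11492392975) (nat_lit 171973035) (.two (nat_lit 37748744) (nat_lit 3036683289) (.two (nat_lit 37748744) (nat_lit 9772733462) (.two (nat_lit 4194308) (nat_lit 11611937414) (.two (nat_lit 4194308) (nat_lit 3036683289) (.two (nat_lit 50331649) (nat_lit 21781028387) (.two (nat_lit 16777216) (nat_lit 2105241) (.one (nat_lit 2105435) .nil))))))))))))))),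
   .two (nat_lit 46474986972) (nat_lit 9765389262) (.two (nat_lit 46474986972) (nat_lit 1947207330) (.two (nat_lit 285213911) (nat_lit 9772729951) (.two (nat_lit 2887779145) (nat_lit 2936014498) (.two (nat_lit 3525312703) (nat_lit 156539817286) (.two (nat_lit 8388799) (nat_lit 1344277910) (.two (nat_lit 4613734465) (nat_lit 343936414) (.two (nat_lit 4638900290) (nat_lit 83891086) (.two (nat_lit 8388672) (nat_lit 9765391766) (.two (nat_lit 16777231) (nat_lit 706746466) (.two (nat_lit 16777224) (nat_lit 47547685049) (.two (nat_lit 8388616) (nat_lit 1224742529) (.two (nat_lit 16777220) (nat_lit 1746934407) (.two (nat_lit 8388612) (nat_lit 101719065) (.two (nat_lit 8388609) (nat_lit 16785126) (.two (nat_lit 2097152) (nat_lit 8396698) (.one (nat_lit 8396892) .nil)))))))))))))))),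
   .two (nat_lit 13191087579) (nat_lit 8391515) (.two (nat_lit 13191086920) (nat_lit 1317015308) (.two (nat_lit 612368575) (nat_lit 304091799) (.two (nat_lit 721420353) (nat_lit 2954892711) (.two (nat_lit 721420303) (nat_lit 270539154) (.two (nat_lit 1291845640) (nat_lit 174755683215) (.two (nat_lit 4194306) (nat_lit 8396389) (.two (nat_lit 620756995) (nat_lit 2988449161) (.two (nat_lit 620756993) (nat_lit 9869205156) (.two (nat_lit 2097152) (nat_lit 9881788279) (.one (nat_lit 2105380) .nil)))))))))),
   .two (nat_lit 13191087579) (nat_lit 176163675) (.two (nat_lit 159217877832) (nat_lit 11517562636) (.two (nat_lit 41943231) (nat_lit 2990543511) (.two (nat_lit 721420353) (nat_lit 272635303) (.two (nat_lit 721420303) (nat_lit 608180646) (.two (nat_lit 11492392968) (nat_lit 19597892495) (.two (nat_lit 169869314) (nat_lit 8396390) (.two (nat_lit 822083589) (nat_lit 19597892596) (.two (nat_lit 50331649) (nat_lit 740302500) (.two (nat_lit 4194304) (nat_lit 754982775) (.one (nat_lit 4202589) .nil)))))))))),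
   .two (nat_lit 20705183196) (nat_lit 19093521883) (.two (nat_lit 813695816) (nat_lit 156581760792) (.two (nat_lit 183912890559) (nat_lit 183920235116) (.two (nat_lit 285212737) (nat_lit 41948961) (.two (nat_lit 285212687) (nat_lit 69212595) (.two (nat_lit 2961178632) (nat_lit 654318424) (.two (nat_lit 16777221) (nat_lit 645930211) (.two (nat_lit 8388609) (nat_lit 654319238) (.two (nat_lit 1048576) (nat_lit 47596969848) (.one (nat_lit 2105438) .nil))))))))),
   .two (nat_lit 11584669148) (nat_lit 20704134619) (.two (nat_lit 75498312) (nat_lit 185035919114) (.two (nat_lit 20704133311) (nat_lit 339743419) (.two (nat_lit 218103873) (nat_lit 9768539937) (.two (nat_lit 218103823) (nat_lit 11484010931) (.two (nat_lit 4194312) (nat_lit 620763992) (.two (nat_lit 184549381) (nat_lit 306191585) (.two (nat_lit 4194305) (nat_lit 620764806) (.two (nat_lit 1048576) (nat_lit 352329592) (.one (nat_lit 8396895) .nil))))))))),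
   .two (nat_lit 3527411164) (nat_lit 158083320977) (.two (nat_lit 16777682) (nat_lit 174692765702) (.two (nat_lit 3527410505) (nat_lit 37262199269) (.two (nat_lit 612368575) (nat_lit 16782209) (.two (nat_lit 8388672) (nat_lit 721426525) (.two (nat_lit 8388623) (nat_lit 104864608) (.two (nat_lit 8388616) (nat_lit 171972825) (.two (nat_lit 8388616) (nat_lit 2956991112) (.two (nat_lit 8388612) (nat_lit 4202015) (.two (nat_lit 4194305) (nat_lit 9772736364) (.two (nat_lit 4194304) (nat_lit 9772736510) (.one (nat_lit 1786781792) .nil))))))))))),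
   .two (nat_lit 12117345756) (nat_lit 20644367505) (.two (nat_lit 620757209) (nat_lit 37316727426) (.two (nat_lit 12117345097) (nat_lit 174701152741) (.two (nat_lit 2969568072) (nat_lit 2319453510) (.two (nat_lit 612368575) (nat_lit 16782209) (.two (nat_lit 8388672) (nat_lit 184555613) (.two (nat_lit 176160783) (nat_lit 9869204314) (.two (nat_lit 8388616) (nat_lit 171973256) (.two (nat_lit 8388616) (nat_lit 171973254) (.two (nat_lit 8388612) (nat_lit 37756447) (.two (nat_lit 37748737) (nat_lit 9772736364) (.two (nat_lit 4194304) (nat_lit 813703169) (.one (nat_lit 10376716384) .nil)))))))))))),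
   .two (nat_lit 3527411164) (nat_lit 158083320977) (.two (nat_lit 3527410505) (nat_lit 37262199269) (.two (nat_lit 11559502664) (nat_lit 10909388102) (.two (nat_lit 16778056) (nat_lit 243273114) (.two (nat_lit 612368575) (nat_lit 16782209) (.two (nat_lit 8388672) (nat_lit 721426525) (.two (nat_lit 8388623) (nat_lit 104864608) (.two (nat_lit 8388616) (nat_lit 71309959) (.two (nat_lit 8388616) (nat_lit 608181234) (.two (nat_lit 8388612) (nat_lit 4202015) (.two (nat_lit 4194305) (nat_lit 9772736364) (.two (nat_lit 4194304) (nat_lit 276832256) (.one (nat_lit 1786781792) .nil)))))))))))),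
   .two (nat_lit 12117345756) (nat_lit 20644367505) (.two (nat_lit 2969568072) (nat_lit 2319453510) (.two (nat_lit 16778056) (nat_lit 8391193) (.two (nat_lit 612368575) (nat_lit 16782209) (.two (nat_lit 8388672) (nat_lit 184555613) (.two (nat_lit 176160783) (nat_lit 9869204314) (.two (nat_lit 8388616) (nat_lit 171973253) (.two (nat_lit 8388616) (nat_lit 608179832) (.two (nat_lit 8388612) (nat_lit 37756447) (.two (nat_lit 37748737) (nat_lit 9772736364) (.two (nat_lit 4194304) (nat_lit 813703167) (.one (nat_lit 10376716384) .nil))))))))))),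
   .two (nat_lit 3527411164) (nat_lit 158083320977) (.two (nat_lit 16778056) (nat_lit 243273114) (.two (nat_lit 612368575) (nat_lit 16782209) (.two (nat_lit 8388672) (nat_lit 721426525) (.two (nat_lit 8388623) (nat_lit 104864608) (.two (nat_lit 8388616) (nat_lit 50337403) (.two (nat_lit 8388612) (nat_lit 4202015) (.two (nat_lit 4194305) (nat_lit 9772736364) (.two (nat_lit 4194304) (nat_lit 2894076956) (.one (nat_lit 1786781792) .nil))))))))),
   .two (nat_lit 285214171) (nat_lit 1948255240) (.two (nat_lit 9781118427) (nat_lit 71305596) (.two (nat_lit 138412872) (nat_lit 135270404) (.two (nat_lit 185035915455) (nat_lit 12047095205) (.two (nat_lit 705691713) (nat_lit 156380433874) (.two (nat_lit 705691713) (nat_lit 4613738691) (.two (nat_lit 4194319) (nat_lit 2902464096) (.two (nat_lit 37748744) (nat_lit 721427680) (.two (nat_lit 4194308) (nat_lit 1054964) (.two (nat_lit 4194308) (nat_lit 11476671504) (.two (nat_lit 2097153) (nat_lit 1346379334) (.two (nat_lit 2097152) (nat_lit 12150906858) (.one (nat_lit 158177697831) .nil)))))))))))),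
   .two (nat_lit 8390108) (nat_lit 4634707557) (.two (nat_lit 8389449) (nat_lit 156380432033) (.two (nat_lit 16777407) (nat_lit 184987683352) (.two (nat_lit 8388626) (nat_lit 2103744) (.two (nat_lit 8388623) (nat_lit 184555743) (.two (nat_lit 8388616) (nat_lit 184555743) (.two (nat_lit 4194306) (nat_lit 2104882) (.two (nat_lit 2097153) (nat_lit 4202056) (.two (nat_lit 2097152) (nat_lit 4202064) (.one (nat_lit 2105389) .nil))))))))),
   .two (nat_lit 2994734555) (nat_lit 10940843615) (.two (nat_lit 679478748) (nat_lit 159219975781) (.two (nat_lit 46508540745) (nat_lit 1279265249) (.two (nat_lit 46508540745) (nat_lit 1279264417) (.two (nat_lit 809500863) (nat_lit 10537144446) (.two (nat_lit 2954887359) (nat_lit 1786776088) (.two (nat_lit 4605345856) (nat_lit 18926803045) (.two (nat_lit 9934209039) (nat_lit 306191239) (.two (nat_lit 12050235400) (nat_lit 21777882416) (.two (nat_lit 169869320) (nat_lit 11614033528) (.two (nat_lit 183845781506) (nat_lit 13195288215) (.two (nat_lit 13187940357) (nat_lit 4601158960) (.two (nat_lit 156372041729) (nat_lit 1948262258)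 (.two (nat_lit 2097152) (nat_lit 276832271) (.one (nat_lit 8396917) .nil)))))))))))))),
   .two (nat_lit 166132188636) (nat_lit 3539995822) (.two (nat_lit 11626611528) (nat_lit 183920232098) (.two (nat_lit 13191086271) (nat_lit 47588575768) (.two (nat_lit 3525312576) (nat_lit 11022637154) (.two (nat_lit 183853121551) (nat_lit 4613741423) (.two (nat_lit 2889875464) (nat_lit 47582287481) (.two (nat_lit 41943045) (nat_lit 11544829475) (.two (nat_lit 2097153) (nat_lit 4613742449) (.two (nat_lit 8388608) (nat_lit 11525955363) (.one (nat_lit 2105463) .nil))))))))),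
   .two (nat_lit 13195281883) (nat_lit 47547679748) (.two (nat_lit 13195281883) (nat_lit 158143088225) (.two (nat_lit 159232557897) (nat_lit 11551117322) (.two (nat_lit 4601151679) (nat_lit 1384125862) (.two (nat_lit 184549441) (nat_lit 705696739) (.two (nat_lit 4605345857) (nat_lit 46406833117) (.two (nat_lit 41943055) (nat_lit 1055384) (.two (nat_lit 4194312) (nat_lit 176167576) (.two (nat_lit 4613734407) (nat_lit 18928901519) (.two (nat_lit 4194308) (nat_lit 269490840) (.two (nat_lit 20637024259) (nat_lit 13203676826) (.two (nat_lit 605028353) (nat_lit 8396694) (.two (nat_lit 16777216) (nat_lit 4202514) (.one (nat_lit 4202616) .nil))))))))))))),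
   .two (nat_lit 47548728795) (nat_lit 9772730017) (.two (nat_lit 339739464) (nat_lit 9772730017) (.two (nat_lit 41943231) (nat_lit 21811432857) (.two (nat_lit 158143086656) (nat_lit 37316728933) (.two (nat_lit 11479810063) (nat_lit 28758252423) (.two (nat_lit 37748744) (nat_lit 780146300) (.two (nat_lit 21778923525) (nat_lit 11584675120) (.two (nat_lit 156364701697) (nat_lit 3024101234) (.two (nat_lit 1048576) (nat_lit 239083299) (.one (nat_lit 1056889) .nil))))))))),
   .two (nat_lit 8390108) (nat_lit 889194091) (.two (nat_lit 4605345983) (nat_lit 203428038) (.two (nat_lit 721420353) (nat_lit 11511271617) (.two (nat_lit 620756999) (nat_lit 3560971661) (.two (nat_lit 4194307) (nat_lit 13228842290) (.two (nat_lit 16777216) (nat_lit 2105363) (.one (nat_lit 874520502) .nil)))))),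
   .two (nat_lit 11559503323) (nat_lit 10537141256) (.two (nat_lit 3525312703) (nat_lit 47584383169) (.two (nat_lit 169869377) (nat_lit 10351545810) (.two (nat_lit 4194312) (nat_lit 35657947) (.two (nat_lit 4194308) (nat_lit 9867106548) (.two (nat_lit 1048576) (nat_lit 159253536546) (.one (nat_lit 236986293) .nil)))))),
   .two (nat_lit 41944540) (nat_lit 184550405) (.two (nat_lit 8389115) (nat_lit 21793607432) (.two (nat_lit 184549595) (nat_lit 159224173181) (.two (nat_lit 8388799) (nat_lit 304092697) (.two (nat_lit 8388799) (nat_lit 304092697) (.two (nat_lit 8388672) (nat_lit 3557822657) (.two (nat_lit 8388672) (nat_lit 304092697) (.two (nat_lit 713031697) (nat_lit 1055636) (.two (nat_lit 1358954504) (nat_lit 185021242008) (.two (nat_lit 41943047) (nat_lit 1056144) (.two (nat_lit 713031684) (nat_lit 11578383000) (.two (nat_lit 41943043) (nat_lit 1056416) (.two (nat_lit 34603009) (nat_lit 159257730993) (.two (nat_lit 1048576) (nat_lit 2105364) (.one (nat_lit 2105466) .nil)))))))))))))),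
   .two (nat_lit 4605347291) (nat_lit 13203672238) (.two (nat_lit 159232557896) (nat_lit 9772730849) (.two (nat_lit 612369225) (nat_lit 1325401762) (.two (nat_lit 880804031) (nat_lit 21811433598) (.two (nat_lit 8388799) (nat_lit 12129929752) (.two (nat_lit 4601151552) (nat_lit 303044706) (.two (nat_lit 620757007) (nat_lit 705698671) (.two (nat_lit 620757000) (nat_lit 165528214149) (.two (nat_lit 183848927240) (nat_lit 336598648) (.two (nat_lit 1358954501) (nat_lit 20707286563) (.two (nat_lit 37748737) (nat_lit 705699697) (.two (nat_lit 1048576) (nat_lit 4202517) (.one (nat_lit 1056878) .nil)))))))))))),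
   .two (nat_lit 50334864) (nat_lit 37247517188) (.two (nat_lit 4605345983) (nat_lit 4634710210) (.two (nat_lit 8388616) (nat_lit 807410324) (.two (nat_lit 2097152) (nat_lit 612376620) .nil))),
   .two (nat_lit 28693234695) (nat_lit 4613738228) (.two (nat_lit 50331839) (nat_lit 705695941) (.two (nat_lit 9768534023) (nat_lit 8395417) (.two (nat_lit 4194304) (nat_lit 8396585) .nil))),
   .two (nat_lit 156581758428) (nat_lit 184419355791) (.two (nat_lit 9806283593) (nat_lit 47584382982) (.two (nat_lit 310378687) (nat_lit 687872091) (.two (nat_lit 11479810063) (nat_lit 269491034) (.two (nat_lit 276824072) (nat_lit 641736223) (.two (nat_lit 37748737) (nat_lit 11543781215) (.two (nat_lit 1048576) (nat_lit 41951209) (.one (nat_lit 4202625) .nil))))))),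
   .two (nat_lit 1962935772) (nat_lit 9966718982) (.two (nat_lit 185035915455) (nat_lit 166237050971) (.two (nat_lit 721420303) (nat_lit 18926803802) (.two (nat_lit 176160776) (nat_lit 1056100) (.two (nat_lit 83886085) (nat_lit 28087164447) (.two (nat_lit 2097153) (nat_lit 184986640223) (.two (nat_lit 1048576) (nat_lit 1325408234) (.one (nat_lit 1056898) .nil))))))),
   .two (nat_lit 156581758427) (nat_lit 12117348357) (.two (nat_lit 285212863) (nat_lit 10544486491) (.two (nat_lit 8388623) (nat_lit 654318816) (.two (nat_lit 8388612) (nat_lit 37756447) (.two (nat_lit 41943041) (nat_lit 272637789) (.two (nat_lit 4194304) (nat_lit 8396779) (.one (nat_lit 10376716384) .nil)))))),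
   .two (nat_lit 10015999452) (nat_lit 4605349893) (.two (nat_lit 739246438) (nat_lit 16782209) (.two (nat_lit 713031747) (nat_lit 50337885) (.two (nat_lit 8388623) (nat_lit 1055578) (.two (nat_lit 4605345800) (nat_lit 739253603) (.two (nat_lit 176160773) (nat_lit 739253895) (.two (nat_lit 41943041) (nat_lit 739254109) (.two (nat_lit 1048576) (nat_lit 8396780) (.one (nat_lit 34611298) .nil)))))))),
   .two (nat_lit 16778715) (nat_lit 8392415) (.two (nat_lit 46523220809) (nat_lit 4199022) (.two (nat_lit 612368575) (nat_lit 16782209) (.two (nat_lit 8388674) (nat_lit 2969573469) (.two (nat_lit 8388623) (nat_lit 16784222) (.two (nat_lit 8388616) (nat_lit 16784741) (.two (nat_lit 8388612) (nat_lit 16785032) (.two (nat_lit 8388609) (nat_lit 4202337) (.two (nat_lit 4194304) (nat_lit 8396779) (.one (nat_lit 8396931) .nil))))))))),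
   .two (nat_lit 50333147) (nat_lit 18926800627) (.two (nat_lit 50332488) (nat_lit 606081660) (.two (nat_lit 16777407) (nat_lit 8394154) (.two (nat_lit 8388672) (nat_lit 874518626) (.two (nat_lit 8388623) (nat_lit 11492400356) (.two (nat_lit 8388612) (nat_lit 1277173281) (.two (nat_lit 8388609) (nat_lit 9934217062) (.two (nat_lit 2097152) (nat_lit 10376716384) .nil))))))),
   .two (nat_lit 620758491) (nat_lit 303042324) (.two (nat_lit 339739464) (nat_lit 21818774214) (.two (nat_lit 4601151679) (nat_lit 109057443) (.two (nat_lit 169869377) (nat_lit 11618228322) (.two (nat_lit 4194319) (nat_lit 50339044) (.two (nat_lit 4194308) (nat_lit 34610719) (.two (nat_lit 4194305) (nat_lit 813703148) (.one (nat_lit 1056871) .nil))))))),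
   .two (nat_lit 8390107) (nat_lit 3021999278) (.two (nat_lit 176161608) (nat_lit 876614268) (.two (nat_lit 16777407) (nat_lit 3557824620) (.two (nat_lit 8388623) (nat_lit 4598012797) (.two (nat_lit 612368392) (nat_lit 303046035) (.two (nat_lit 176160772) (nat_lit 47582289558) (.two (nat_lit 2097153) (nat_lit 1056702) (.two (nat_lit 4194304) (nat_lit 28764545009) (.one (nat_lit 4202633) .nil)))))))),
   .two (nat_lit 50333148) (nat_lit 183946448022) (.two (nat_lit 721421128) (nat_lit 343937744) (.two (nat_lit 612368575) (nat_lit 101717815) (.two (nat_lit 8388672) (nat_lit 13221501354) (.two (nat_lit 8388623) (nat_lit 1055664) (.two (nat_lit 4194312) (nat_lit 8396175) (.two (nat_lit 612368389) (nat_lit 11476672154) (.two (nat_lit 612368385) (nat_lit 158143094647) (.two (nat_lit 1048576) (nat_lit 4202546) (.one (nat_lit 1056906) .nil))))))))),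
   .two (nat_lit 2954888668) (nat_lit 20753420044) (.two (nat_lit 16778447) (nat_lit 11511271430) (.two (nat_lit 16777407) (nat_lit 270538145) (.two (nat_lit 8388672) (nat_lit 2103767) (.two (nat_lit 612368399) (nat_lit 10370423659) (.two (nat_lit 612368392) (nat_lit 239082893) (.two (nat_lit 2969567237) (nat_lit 1786781348) (.two (nat_lit 2097153) (nat_lit 4202424) (.two (nat_lit 2097152) (nat_lit 4202547) (.one (nat_lit 2105483) .nil))))))))),
   .two (nat_lit 50333148) (nat_lit 46508543126) (.two (nat_lit 612369224) (nat_lit 158158819337) (.two (nat_lit 612368575) (nat_lit 11593061794) (.two (nat_lit 8388672) (nat_lit 2103768) (.two (nat_lit 176160783) (nat_lit 19128130427) (.two (nat_lit 176160776) (nat_lit 2889883166) (.two (nat_lit 4194305) (nat_lit 2954895215) (.two (nat_lit 2097152) (nat_lit 4202546) (.one (nat_lit 2105478) .nil)))))))),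
   .two (nat_lit 4601152988) (nat_lit 11618225318) (.two (nat_lit 183848928072) (nat_lit 343937669) (.two (nat_lit 4605345983) (nat_lit 1346377123) (.two (nat_lit 2994733123) (nat_lit 1782585738) (.two (nat_lit 37748751) (nat_lit 11559509216) (.two (nat_lit 4194308) (nat_lit 2104863) (.two (nat_lit 4194305) (nat_lit 2961186798) (.one (nat_lit 2105484) .nil))))))),
   .two (nat_lit 4605347291) (nat_lit 1795165329) (.two (nat_lit 343933768) (nat_lit 21814579910) (.two (nat_lit 2969567423) (nat_lit 166232856347) (.two (nat_lit 16777280) (nat_lit 343939176) (.two (nat_lit 8388623) (nat_lit 218111200) (.two (nat_lit 4194308) (nat_lit 2961186335) (.two (nat_lit 4194305) (nat_lit 41951212) (.one (nat_lit 4202628) .nil))))))),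
   .two (nat_lit 13237224923) (nat_lit 9802092548) (.two (nat_lit 843055295) (nat_lit 46523225855) (.two (nat_lit 285212736) (nat_lit 2889882040) (.two (nat_lit 37748751) (nat_lit 1191189352) (.two (nat_lit 272629768) (nat_lit 639638757) (.two (nat_lit 272629765) (nat_lit 639639178) (.two (nat_lit 2097153) (nat_lit 809508708) (.two (nat_lit 2097152) (nat_lit 4202548) (.one (nat_lit 2887786597) .nil)))))))),
   .two (nat_lit 156581758428) (nat_lit 3527410692) (.two (nat_lit 156581758428) (nat_lit 3527411296) (.two (nat_lit 166132187976) (nat_lit 9933163986) (.two (nat_lit 8388799) (nat_lit 16782209) (.two (nat_lit 285212738) (nat_lit 171970753) (.two (nat_lit 8388672) (nat_lit 9814675648) (.two (nat_lit 8388623) (nat_lit 37754458) (.two (nat_lit 8388616) (nat_lit 272636124) (.two (nat_lit 8388616) (nat_lit 171972825) (.two (nat_lit 8388612) (nat_lit 171973268) (.two (nat_lit 8388612) (nat_lit 171973647) (.two (nat_lit 8388609) (nat_lit 2104902) (.two (nat_lit 1048576) (nat_lit 41951216) (.one (nat_lit 8396954) .nil))))))))))))),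
   .two (nat_lit 156581758428) (nat_lit 3527410692) (.two (nat_lit 156581758428) (nat_lit 3527411296) (.two (nat_lit 156581758428) (nat_lit 4634708452) (.two (nat_lit 166132187976) (nat_lit 9933163986) (.two (nat_lit 156581757769) (nat_lit 4634708452) (.two (nat_lit 8388799) (nat_lit 16782209) (.two (nat_lit 285212738) (nat_lit 171970753) (.two (nat_lit 8388672) (nat_lit 9814675648) (.two (nat_lit 8388672) (nat_lit 156380434623) (.two (nat_lit 8388623) (nat_lit 37754458) (.two (nat_lit 8388623) (nat_lit 37755067) (.two (nat_lit 8388616) (nat_lit 171972825) (.two (nat_lit 8388616) (nat_lit 2956991112) (.two (nat_lit 8388612) (nat_lit 171973647) (.two (nat_lit 8388612) (nat_lit 171973934) (.two (nat_lit 9765388289) (nat_lit 2105104) (.two (nat_lit 1048576) (nat_lit 41951216) (.one (nat_lit 8396955) .nil))))))))))))))))),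
   .two (nat_lit 16778715) (nat_lit 1277166597) (.two (nat_lit 184993973723) (nat_lit 10940843617) (.two (nat_lit 880806057) (nat_lit 156569176446) (.two (nat_lit 16777723) (nat_lit 183913942164) (.two (nat_lit 18928894793) (nat_lit 184993976325) (.two (nat_lit 16777407) (nat_lit 156372047272) (.two (nat_lit 16777280) (nat_lit 606082018) (.two (nat_lit 16777280) (nat_lit 109056191) (.two (nat_lit 16777280) (nat_lit 2103409) (.two (nat_lit 713031695) (nat_lit 270538939) (.two (nat_lit 713031695) (nat_lit 270538938) (.two (nat_lit 713031688) (nat_lit 203430536) (.two (nat_lit 713031688) (nat_lit 807410311) (.two (nat_lit 41943045) (nat_lit 270540078) (.two (nat_lit 41943045) (nat_lit 270539790) (.two (nat_lit 37748737) (nat_lit 2105103) (.two (nat_lit 2097152) (nat_lit 37756930) (.one (nat_lit 16785564) .nil))))))))))))))))),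
   .two (nat_lit 11559503323) (nat_lit 21208499809) (.two (nat_lit 50333865) (nat_lit 156372044158) (.two (nat_lit 16778185) (nat_lit 276827930) (.two (nat_lit 75498313) (nat_lit 11559505925) (.two (nat_lit 809500863) (nat_lit 2432701314) (.two (nat_lit 272629824) (nat_lit 1761611967) (.two (nat_lit 272629824) (nat_lit 4632615025) (.two (nat_lit 8388642) (nat_lit 304093622) (.two (nat_lit 713031695) (nat_lit 272636946) (.two (nat_lit 272629775) (nat_lit 4632615516) (.two (nat_lit 11492392968) (nat_lit 840964743) (.two (nat_lit 37748744) (nat_lit 4638907628) (.two (nat_lit 822083589) (nat_lit 304094222) (.two (nat_lit 822083589) (nat_lit 304094221) (.two (nat_lit 41943041) (nat_lit 4632616718) (.two (nat_lit 2097152) (nat_lit 46514839467) (.one (nat_lit 4202653) .nil)))))))))))))))),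
   .two (nat_lit 16778715) (nat_lit 343933958) (.two (nat_lit 16778715) (nat_lit 176164021) (.two (nat_lit 16778186) (nat_lit 159257726099) (.two (nat_lit 16778715) (nat_lit 2323647001) (.two (nat_lit 83886300) (nat_lit 176165512) (.two (nat_lit 16777682) (nat_lit 156372046463) (.two (nat_lit 620757211) (nat_lit 109054433) (.two (nat_lit 16777407) (nat_lit 1216353156) (.two (nat_lit 16777407) (nat_lit 343936414) (.two (nat_lit 16777407) (nat_lit 8392093) (.two (nat_lit 8388672) (nat_lit 2969573473) (.two (nat_lit 8388623) (nat_lit 11559508840) (.two (nat_lit 285212680) (nat_lit 4034927607) (.two (nat_lit 8388615) (nat_lit 20753423845) (.two (nat_lit 8388610) (nat_lit 16785055) (.two (nat_lit 8388611) (nat_lit 20753424085) (.two (nat_lit 8388609) (nat_lit 16785337) (.two (nat_lit 8388608) (nat_lit 16785472) (.one (nat_lit 8396909) .nil)))))))))))))))))),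
   .two (nat_lit 16778715) (nat_lit 343933958) (.two (nat_lit 16778715) (nat_lit 176164021) (.two (nat_lit 16777723) (nat_lit 3028289119) (.two (nat_lit 16777682) (nat_lit 156372046463) (.two (nat_lit 9781117147) (nat_lit 8392724) (.two (nat_lit 8388701) (nat_lit 16782209) (.two (nat_lit 16777407) (nat_lit 1216353156) (.two (nat_lit 16777407) (nat_lit 343936414) (.two (nat_lit 8388672) (nat_lit 2969573473) (.two (nat_lit 8388623) (nat_lit 11559508840) (.two (nat_lit 8388616) (nat_lit 183962180846) (.two (nat_lit 285212680) (nat_lit 4034927607) (.two (nat_lit 8388612) (nat_lit 50339366) (.two (nat_lit 8388611) (nat_lit 20753424087) (.two (nat_lit 8388609) (nat_lit 16785337) (.two (nat_lit 8388608) (nat_lit 16785473) (.one (nat_lit 8396843) .nil)))))))))))))))),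
   .two (nat_lit 16778715) (nat_lit 2954888199) (.two (nat_lit 9781118427) (nat_lit 71305596) (.two (nat_lit 4601152987) (nat_lit 19134417278) (.two (nat_lit 156372042569) (nat_lit 184986636293) (.two (nat_lit 185035915455) (nat_lit 12047095205) (.two (nat_lit 705691713) (nat_lit 156380433874) (.two (nat_lit 705691713) (nat_lit 156380434624) (.two (nat_lit 705691713) (nat_lit 156380434623) (.two (nat_lit 4194319) (nat_lit 11551118938) (.two (nat_lit 4194319) (nat_lit 11551119547) (.two (nat_lit 37748744) (nat_lit 721427680) (.two (nat_lit 4194308) (nat_lit 11476671504) (.two (nat_lit 4194308) (nat_lit 1175461590) (.two (nat_lit 8388609) (nat_lit 2886737477) (.two (nat_lit 2097152) (nat_lit 12150906858) (.one (nat_lit 1344282665) .nil))))))))))))))),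
   .two (nat_lit 16778715) (nat_lit 1343226887) (.two (nat_lit 654312923) (nat_lit 35654012) (.two (nat_lit 4601152987) (nat_lit 1954548094) (.two (nat_lit 605028859) (nat_lit 16780429) (.two (nat_lit 165532402505) (nat_lit 184986636293) (.two (nat_lit 4647289023) (nat_lit 46409979301) (.two (nat_lit 4194369) (nat_lit 156380434624) (.two (nat_lit 4194369) (nat_lit 156380434623) (.two (nat_lit 4194369) (nat_lit 156380434622) (.two (nat_lit 4194319) (nat_lit 276830395) (.two (nat_lit 4194319) (nat_lit 276830394) (.two (nat_lit 169869320) (nat_lit 16784608) (.two (nat_lit 2097157) (nat_lit 9768541910) (.two (nat_lit 2097157) (nat_lit 9768541908) (.two (nat_lit 2097153) (nat_lit 11476672271) (.two (nat_lit 1048576) (nat_lit 46508548074) (.one (nat_lit 16785566) .nil)))))))))))))))),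
   .two (nat_lit 50333147) (nat_lit 10376710524) (.two (nat_lit 352323035) (nat_lit 183853123167) (.two (nat_lit 11559502794) (nat_lit 10909388589) (.two (nat_lit 673186633) (nat_lit 158143090693) (.two (nat_lit 185035915455) (nat_lit 21207455141) (.two (nat_lit 1276117057) (nat_lit 156380434623) (.two (nat_lit 1276117057) (nat_lit 156380434622) (.two (nat_lit 705691686) (nat_lit 847255643) (.two (nat_lit 2961178639) (nat_lit 1344280762) (.two (nat_lit 2961178639) (nat_lit 1344280761) (.two (nat_lit 176160776) (nat_lit 11559509220) (.two (nat_lit 8388613) (nat_lit 68165332) (.two (nat_lit 8388613) (nat_lit 68165330) (.two (nat_lit 2097153) (nat_lit 605036103) (.two (nat_lit 2097152) (nat_lit 1279270889) (.one (nat_lit 16785567) .nil))))))))))))))),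
   .two (nat_lit 4605347291) (nat_lit 1291848850) (.two (nat_lit 10376708314) (nat_lit 16781316) (.two (nat_lit 4605346632) (nat_lit 9969864008) (.two (nat_lit 50332488) (nat_lit 708840774) (.two (nat_lit 50331839) (nat_lit 37752957) (.two (nat_lit 10015998143) (nat_lit 13195283870) (.two (nat_lit 50331839) (nat_lit 713035165) (.two (nat_lit 4601151552) (nat_lit 41949617) (.two (nat_lit 8388623) (nat_lit 4201312) (.two (nat_lit 8388616) (nat_lit 1279269512) (.two (nat_lit 8388616) (nat_lit 1279269510) (.two (nat_lit 4194308) (nat_lit 11551120927) (.two (nat_lit 4194305) (nat_lit 109059938) (.two (nat_lit 16777216) (nat_lit 4202562) (.one (nat_lit 50339942) .nil)))))))))))))),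
   .two (nat_lit 4605347291) (nat_lit 1291848850) (.two (nat_lit 721420753) (nat_lit 4199027) (.two (nat_lit 4605346632) (nat_lit 9969864008) (.two (nat_lit 16777309) (nat_lit 310384024) (.two (nat_lit 50331839) (nat_lit 37752957) (.two (nat_lit 10015998143) (nat_lit 13195283870) (.two (nat_lit 4601151552) (nat_lit 41949617) (.two (nat_lit 8388623) (nat_lit 4201312) (.two (nat_lit 8388616) (nat_lit 1279269081) (.two (nat_lit 8388616) (nat_lit 1279269512) (.two (nat_lit 4194308) (nat_lit 11551120927) (.two (nat_lit 4194305) (nat_lit 109059938) (.two (nat_lit 16777216) (nat_lit 4202563) (.one (nat_lit 50339942) .nil))))))))))))),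
   .two (nat_lit 8390107) (nat_lit 3021999278) (.two (nat_lit 16777682) (nat_lit 11543777285) (.two (nat_lit 9766437704) (nat_lit 10921970149) (.two (nat_lit 16777407) (nat_lit 2416972674) (.two (nat_lit 8388672) (nat_lit 4598011996) (.two (nat_lit 713031695) (nat_lit 184987687807) (.two (nat_lit 713031686) (nat_lit 11578383590) (.two (nat_lit 41943047) (nat_lit 1056236) (.two (nat_lit 28705816581) (nat_lit 37247524399) (.two (nat_lit 2097155) (nat_lit 4202300) (.two (nat_lit 9781116929) (nat_lit 19537076067) (.two (nat_lit 8388608) (nat_lit 1056836) (.one (nat_lit 1056928) .nil)))))))))))),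
   .two (nat_lit 8390107) (nat_lit 3021999278) (.two (nat_lit 721420508) (nat_lit 11543777285) (.two (nat_lit 9766437704) (nat_lit 10921970149) (.two (nat_lit 813695816) (nat_lit 166232853830) (.two (nat_lit 16777407) (nat_lit 2416972674) (.two (nat_lit 8388672) (nat_lit 4598011996) (.two (nat_lit 713031695) (nat_lit 184987687807) (.two (nat_lit 713031686) (nat_lit 11578383590) (.two (nat_lit 11551113224) (nat_lit 28793903750) (.two (nat_lit 2902458370) (nat_lit 19529735823) (.two (nat_lit 2097155) (nat_lit 4202301) (.two (nat_lit 9781116929) (nat_lit 19537076067) (.two (nat_lit 8388608) (nat_lit 1056837) (.one (nat_lit 1056929) .nil))))))))))))),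
   .two (nat_lit 8390107) (nat_lit 3021999278) (.two (nat_lit 9766437704) (nat_lit 10921970149) (.two (nat_lit 813695816) (nat_lit 166232853830) (.two (nat_lit 4195144) (nat_lit 156380432033) (.two (nat_lit 16777407) (nat_lit 2416972674) (.two (nat_lit 8388672) (nat_lit 4598011996) (.two (nat_lit 713031695) (nat_lit 184987687807) (.two (nat_lit 11551113224) (nat_lit 28793903750) (.two (nat_lit 11551113224) (nat_lit 166199303156) (.two (nat_lit 2902458370) (nat_lit 19529735823) (.two (nat_lit 11476664323) (nat_lit 183846837987) (.two (nat_lit 9781116929) (nat_lit 19537076067) (.two (nat_lit 8388608) (nat_lit 1056838) (.one (nat_lit 1056930) .nil))))))))))))),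
   .two (nat_lit 8390107) (nat_lit 3021999278) (.two (nat_lit 813695816) (nat_lit 166232853830) (.two (nat_lit 4195144) (nat_lit 156380432033) (.two (nat_lit 16777407) (nat_lit 2416972674) (.two (nat_lit 8388672) (nat_lit 4598011996) (.two (nat_lit 713031695) (nat_lit 184987687807) (.two (nat_lit 11551113224) (nat_lit 166199303156) (.two (nat_lit 8388616) (nat_lit 185035921020) (.two (nat_lit 2902458370) (nat_lit 19529735823) (.two (nat_lit 12121538565) (nat_lit 183916043568) (.two (nat_lit 9781116929) (nat_lit 19537076067) (.two (nat_lit 1048576) (nat_lit 2105361) (.one (nat_lit 1056931) .nil)))))))))))),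
   .two (nat_lit 2994734555) (nat_lit 2350909820) (.two (nat_lit 2994734555) (nat_lit 174753580639) (.two (nat_lit 679478748) (nat_lit 159219975781) (.two (nat_lit 21811430607) (nat_lit 773851620) (.two (nat_lit 3021996873) (nat_lit 9772730849) (.two (nat_lit 2954888008) (nat_lit 184989782136) (.two (nat_lit 159251431615) (nat_lit 174752533918) (.two (nat_lit 41943231) (nat_lit 159250387070) (.two (nat_lit 2954887359) (nat_lit 9869199896) (.two (nat_lit 4601151552) (nat_lit 1210062949) (.two (nat_lit 9934209039) (nat_lit 306191239) (.two (nat_lit 169869320) (nat_lit 11614034566) (.two (nat_lit 12050235400) (nat_lit 21777882416) (.two (nat_lit 4194306) (nat_lit 1056554) (.two (nat_lit 2097157) (nat_lit 37756464) (.two (nat_lit 156367847425) (nat_lit 303046513) (.two (nat_lit 2097152) (nat_lit 4202559) (.one (nat_lit 4202614) .nil))))))))))))))))),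
   .two (nat_lit 11559503323) (nat_lit 2954888196) (.two (nat_lit 11559503323) (nat_lit 2954888800) (.two (nat_lit 13195281884) (nat_lit 9781119358) (.two (nat_lit 620757499) (nat_lit 713035521) (.two (nat_lit 1426064201) (nat_lit 4605349893) (.two (nat_lit 4605345983) (nat_lit 104863139) (.two (nat_lit 721420353) (nat_lit 10907292637) (.two (nat_lit 176160835) (nat_lit 1761611967) (.two (nat_lit 176160835) (nat_lit 337647729) (.two (nat_lit 8388623) (nat_lit 11546925243) (.two (nat_lit 41943055) (nat_lit 272636946) (.two (nat_lit 37748744) (nat_lit 8395794) (.two (nat_lit 8388615) (nat_lit 11511275043) (.two (nat_lit 4194308) (nat_lit 8395794) (.two (nat_lit 4194307) (nat_lit 183846837795) (.two (nat_lit 4194305) (nat_lit 8396750) (.two (nat_lit 2097152) (nat_lit 28760350701) (.one (nat_lit 4202660) .nil))))))))))))))))),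
   .two (nat_lit 11559503323) (nat_lit 9766438500) (.two (nat_lit 10506733020) (nat_lit 9948891518) (.two (nat_lit 8389584) (nat_lit 11559505039) (.two (nat_lit 183962174280) (nat_lit 3527413765) (.two (nat_lit 3527409855) (nat_lit 9867105699) (.two (nat_lit 41943107) (nat_lit 11546925243) (.two (nat_lit 41943107) (nat_lit 20740839544) (.two (nat_lit 8388642) (nat_lit 11611936869) (.two (nat_lit 9768534031) (nat_lit 203430930) (.two (nat_lit 713031695) (nat_lit 11611936957) (.two (nat_lit 2887778310) (nat_lit 4201464) (.two (nat_lit 713031688) (nat_lit 11614035183) (.two (nat_lit 2887778306) (nat_lit 4202302) (.two (nat_lit 4194307) (nat_lit 185021243021) (.two (nat_lit 2097153) (nat_lit 4202447) (.two (nat_lit 2097152) (nat_lit 708845553) (.one (nat_lit 2105509) .nil)))))))))))))))),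
   .two (nat_lit 612369883) (nat_lit 156968683113) (.two (nat_lit 343934427) (nat_lit 10003416672) (.two (nat_lit 3525314011) (nat_lit 19532875359) (.two (nat_lit 47588574024) (nat_lit 10538192900) (.two (nat_lit 158143086783) (nat_lit 1780487586) (.two (nat_lit 4194369) (nat_lit 166237048274) (.two (nat_lit 4194370) (nat_lit 276828355) (.two (nat_lit 2961178689) (nat_lit 166230759966) (.two (nat_lit 4194319) (nat_lit 874518745) (.two (nat_lit 4194319) (nat_lit 337647803) (.two (nat_lit 20637024264) (nat_lit 47555026145) (.two (nat_lit 171966469) (nat_lit 156365757456) (.two (nat_lit 4194308) (nat_lit 1745886226) (.two (nat_lit 8388609) (nat_lit 166197206989) (.two (nat_lit 4194304) (nat_lit 1276125170) (.one (nat_lit 1056934) .nil))))))))))))))),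
   .two (nat_lit 612369884) (nat_lit 50332676) (.two (nat_lit 612369884) (nat_lit 50333280) (.two (nat_lit 612369884) (nat_lit 9814675648) (.two (nat_lit 10015998793) (nat_lit 880807940) (.two (nat_lit 4601151679) (nat_lit 847254942) (.two (nat_lit 8388672) (nat_lit 1055384) (.two (nat_lit 8388672) (nat_lit 1055384) (.two (nat_lit 2961178689) (nat_lit 822090272) (.two (nat_lit 8388623) (nat_lit 168827098) (.two (nat_lit 184549391) (nat_lit 46406834363) (.two (nat_lit 4194312) (nat_lit 46422563033) (.two (nat_lit 4194312) (nat_lit 50339057) (.two (nat_lit 16777221) (nat_lit 46406835215) (.two (nat_lit 16777221) (nat_lit 339745810) (.two (nat_lit 605028353) (nat_lit 713039821) (.two (nat_lit 1048576) (nat_lit 4202567) (.one (nat_lit 4202663) .nil)))))))))))))))),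
   .two (nat_lit 4601152987) (nat_lit 9806285180) (.two (nat_lit 4601152987) (nat_lit 10007610975) (.two (nat_lit 4601152987) (nat_lit 236979813) (.two (nat_lit 3028288719) (nat_lit 336595426) (.two (nat_lit 339739464) (nat_lit 9772730849) (.two (nat_lit 339739464) (nat_lit 9772730017) (.two (nat_lit 343933119) (nat_lit 1745882526) (.two (nat_lit 8388799) (nat_lit 337645685) (.two (nat_lit 8388799) (nat_lit 11544824344) (.two (nat_lit 4601151552) (nat_lit 184417261966) (.two (nat_lit 713031695) (nat_lit 158144142215) (.two (nat_lit 11551113224) (nat_lit 28793903750) (.two (nat_lit 184993972232) (nat_lit 1948261364) (.two (nat_lit 4194306) (nat_lit 1056555) (.two (nat_lit 18928893955) (nat_lit 2105060) (.two (nat_lit 156364701697) (nat_lit 3024101234) (.two (nat_lit 1048576) (nat_lit 2105416) (.one (nat_lit 1276125302) .nil))))))))))))))))),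
   .two (nat_lit 10001320107) (nat_lit 156372042758) (.two (nat_lit 4601152987) (nat_lit 9806285180) (.two (nat_lit 4601152987) (nat_lit 10007610975) (.two (nat_lit 4601152987) (nat_lit 236979813) (.two (nat_lit 109052121) (nat_lit 1212158642) (.two (nat_lit 3028288719) (nat_lit 336595426) (.two (nat_lit 339739464) (nat_lit 9772730849) (.two (nat_lit 343933119) (nat_lit 839913593) (.two (nat_lit 343933119) (nat_lit 1745882526) (.two (nat_lit 8388799) (nat_lit 337645685) (.two (nat_lit 4601151552) (nat_lit 184417261966) (.two (nat_lit 713031695) (nat_lit 158144142215) (.two (nat_lit 176160774) (nat_lit 28790758626) (.two (nat_lit 11551113224) (nat_lit 28793903750) (.two (nat_lit 4194306) (nat_lit 1056555) (.two (nat_lit 18928893955) (nat_lit 2105061) (.two (nat_lit 156364701697) (nat_lit 3024101234) (.two (nat_lit 1048576) (nat_lit 2105417) (.one (nat_lit 1056936) .nil)))))))))))))))))),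
   .two (nat_lit 876611755) (nat_lit 10343154694) (.two (nat_lit 47548728795) (nat_lit 679479676) (.two (nat_lit 4601152987) (nat_lit 880805471) (.two (nat_lit 343933394) (nat_lit 2987397132) (.two (nat_lit 343934159) (nat_lit 336595426) (.two (nat_lit 8388701) (nat_lit 156364707229) (.two (nat_lit 343933119) (nat_lit 9966719097) (.two (nat_lit 343933119) (nat_lit 1745882526) (.two (nat_lit 47548727360) (nat_lit 21210601870) (.two (nat_lit 75497487) (nat_lit 12117351303) (.two (nat_lit 158077026312) (nat_lit 142613994) (.two (nat_lit 10336862215) (nat_lit 1056237) (.two (nat_lit 158083317765) (nat_lit 156466421295) (.two (nat_lit 165526110211) (nat_lit 4202303) (.two (nat_lit 156364701697) (nat_lit 337649522) (.two (nat_lit 1048576) (nat_lit 4202570) (.one (nat_lit 1056937) .nil)))))))))))))))),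
   .two (nat_lit 176162268) (nat_lit 10016000380) (.two (nat_lit 8390108) (nat_lit 620758623) (.two (nat_lit 8390108) (nat_lit 4634707557) (.two (nat_lit 184550607) (nat_lit 11544824290) (.two (nat_lit 8389449) (nat_lit 156380432865) (.two (nat_lit 8389449) (nat_lit 156380432033) (.two (nat_lit 16777407) (nat_lit 2954890654) (.two (nat_lit 16777407) (nat_lit 13222546845) (.two (nat_lit 16777407) (nat_lit 184987683352) (.two (nat_lit 184549442) (nat_lit 37755283) (.two (nat_lit 41943055) (nat_lit 183949597575) (.two (nat_lit 176160774) (nat_lit 4201869) (.two (nat_lit 2969567240) (nat_lit 174755683316) (.two (nat_lit 176160770) (nat_lit 171974514) (.two (nat_lit 169869315) (nat_lit 8396514) (.two (nat_lit 4194305) (nat_lit 2894077810) (.two (nat_lit 4194304) (nat_lit 4632617032) (.one (nat_lit 2105493) .nil))))))))))))))))),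
   .two (nat_lit 1350568107) (nat_lit 9781117958) (.two (nat_lit 176162268) (nat_lit 10016000380) (.two (nat_lit 8390108) (nat_lit 620758623) (.two (nat_lit 8390108) (nat_lit 4634707557) (.two (nat_lit 721420508) (nat_lit 183846834182) (.two (nat_lit 184550607) (nat_lit 11544824290) (.two (nat_lit 8389449) (nat_lit 156380432865) (.two (nat_lit 16777407) (nat_lit 185021240759) (.two (nat_lit 16777407) (nat_lit 2954890654) (.two (nat_lit 16777407) (nat_lit 13222546845) (.two (nat_lit 184549442) (nat_lit 37755283) (.two (nat_lit 41943055) (nat_lit 183949597575) (.two (nat_lit 176160774) (nat_lit 4201869) (.two (nat_lit 1350565895) (nat_lit 2104814) (.two (nat_lit 176160770) (nat_lit 171974514) (.two (nat_lit 169869315) (nat_lit 8396601) (.two (nat_lit 4194305) (nat_lit 2894077810) (.two (nat_lit 4194304) (nat_lit 4632617033) (.one (nat_lit 2105492) .nil)))))))))))))))))),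
   .two (nat_lit 11551115435) (nat_lit 654312454) (.two (nat_lit 8390108) (nat_lit 889194876) (.two (nat_lit 8390108) (nat_lit 50333279) (.two (nat_lit 16777682) (nat_lit 1312821254) (.two (nat_lit 16778447) (nat_lit 11544824290) (.two (nat_lit 8388701) (nat_lit 10907293082) (.two (nat_lit 16777407) (nat_lit 2101363) (.two (nat_lit 16777407) (nat_lit 2954890654) (.two (nat_lit 16777282) (nat_lit 606083475) (.two (nat_lit 41943055) (nat_lit 1176509279) (.two (nat_lit 8388614) (nat_lit 169876877) (.two (nat_lit 11551113223) (nat_lit 4202080) (.two (nat_lit 8388610) (nat_lit 2105202) (.two (nat_lit 4194307) (nat_lit 176168760) (.two (nat_lit 2097153) (nat_lit 209723250) (.two (nat_lit 2097152) (nat_lit 3560972362) (.one (nat_lit 171974803) .nil)))))))))))))))),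
   .two (nat_lit 343934427) (nat_lit 4043312893) (.two (nat_lit 11559502051) (nat_lit 11611934728) (.two (nat_lit 11551114056) (nat_lit 50336523) (.two (nat_lit 185002361673) (nat_lit 9772730849) (.two (nat_lit 612368575) (nat_lit 10001323454) (.two (nat_lit 13191086271) (nat_lit 10007612830) (.two (nat_lit 343933119) (nat_lit 159251435646) (.two (nat_lit 4601151554) (nat_lit 840964194) (.two (nat_lit 37748751) (nat_lit 50338651) (.two (nat_lit 46409973766) (nat_lit 185021242594) (.two (nat_lit 83886088) (nat_lit 18926803591) (.two (nat_lit 620756997) (nat_lit 46409981472) (.two (nat_lit 4194305) (nat_lit 169877361) (.two (nat_lit 16777216) (nat_lit 4202571) (.one (nat_lit 4202666) .nil)))))))))))))),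
   .two (nat_lit 4634707419) (nat_lit 3472887549) (.two (nat_lit 9768534481) (nat_lit 10385101420) (.two (nat_lit 104858440) (nat_lit 9781121803) (.two (nat_lit 1182793823) (nat_lit 37262201825) (.two (nat_lit 809500863) (nat_lit 13228840382) (.two (nat_lit 10504634559) (nat_lit 13224643998) (.two (nat_lit 3525312578) (nat_lit 156539820130) (.two (nat_lit 37748751) (nat_lit 721427291) (.two (nat_lit 813694984) (nat_lit 9781124339) (.two (nat_lit 822083591) (nat_lit 4202081) (.two (nat_lit 50331653) (nat_lit 184987688483) (.two (nat_lit 2097153) (nat_lit 276832113) (.two (nat_lit 16777216) (nat_lit 2105420) (.one (nat_lit 2105515) .nil))))))))))))),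
   .two (nat_lit 4605347291) (nat_lit 13203672238) (.two (nat_lit 159232557896) (nat_lit 10007611874) (.two (nat_lit 343933768) (nat_lit 336597109) (.two (nat_lit 612369225) (nat_lit 3472885410) (.two (nat_lit 4601151679) (nat_lit 47555023755) (.two (nat_lit 343933119) (nat_lit 336597109) (.two (nat_lit 8388799) (nat_lit 641731990) (.two (nat_lit 4605345857) (nat_lit 19093526627) (.two (nat_lit 620757007) (nat_lit 705698671) (.two (nat_lit 713031688) (nat_lit 19596844526) (.two (nat_lit 620757000) (nat_lit 165528214149) (.two (nat_lit 721420292) (nat_lit 183848934942) (.two (nat_lit 37748737) (nat_lit 705699697) (.two (nat_lit 1048576) (nat_lit 4202518) (.one (nat_lit 4202619) .nil)))))))))))))),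
   .two (nat_lit 16780429) (nat_lit 37247517188) (.two (nat_lit 19142804956) (nat_lit 171970566) (.two (nat_lit 104858440) (nat_lit 16782209) (.two (nat_lit 41943231) (nat_lit 184555613) (.two (nat_lit 8388672) (nat_lit 807409242) (.two (nat_lit 8388623) (nat_lit 11492400356) (.two (nat_lit 8388616) (nat_lit 1277173281) (.two (nat_lit 8388612) (nat_lit 807411270) (.two (nat_lit 37748737) (nat_lit 41951216) (.two (nat_lit 2097152) (nat_lit 10376716384) (.one (nat_lit 35659952) .nil)))))))))),
   .two (nat_lit 16780429) (nat_lit 37247517188) (.two (nat_lit 285215887) (nat_lit 1954548092) (.two (nat_lit 19142804956) (nat_lit 171970566) (.two (nat_lit 104858440) (nat_lit 16782209) (.two (nat_lit 41943231) (nat_lit 184555613) (.two (nat_lit 8388672) (nat_lit 807409242) (.two (nat_lit 8388672) (nat_lit 807409851) (.two (nat_lit 8388623) (nat_lit 11492400356) (.two (nat_lit 8388616) (nat_lit 1277173281) (.two (nat_lit 8388612) (nat_lit 807411270) (.two (nat_lit 8388612) (nat_lit 171974213) (.two (nat_lit 37748737) (nat_lit 41951216) (.two (nat_lit 2097152) (nat_lit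 10376716384) (.one (nat_lit 2105519) .nil))))))))))))),
   .two (nat_lit 16780429) (nat_lit 37247517188) (.two (nat_lit 285215887) (nat_lit 1954548092) (.two (nat_lit 19142804956) (nat_lit 171970566) (.two (nat_lit 104858440) (nat_lit 16782209) (.two (nat_lit 41943231) (nat_lit 184555613) (.two (nat_lit 8388672) (nat_lit 807409242) (.two (nat_lit 8388672) (nat_lit 807409851) (.two (nat_lit 8388672) (nat_lit 807409850) (.two (nat_lit 8388623) (nat_lit 11492400356) (.two (nat_lit 8388616) (nat_lit 1277173281) (.two (nat_lit 8388612) (nat_lit 171974213) (.two (nat_lit 8388612) (nat_lit 171974212) (.two (nat_lit 37748737) (nat_lit 41951216) (.two (nat_lit 2097152) (nat_lit 10376716384) (.one (nat_lit 35659950) .nil)))))))))))))),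
   .two (nat_lit 16780430) (nat_lit 19134415880) (.two (nat_lit 47555021967) (nat_lit 2332035557) (.two (nat_lit 10015999451) (nat_lit 47555022853) (.two (nat_lit 612369224) (nat_lit 16782209) (.two (nat_lit 50331839) (nat_lit 21814581339) (.two (nat_lit 16777280) (nat_lit 184989783642) (.two (nat_lit 16777280) (nat_lit 47550830779) (.two (nat_lit 272629824) (nat_lit 11551119546) (.two (nat_lit 16777231) (nat_lit 847256806) (.two (nat_lit 176160776) (nat_lit 205528607) (.two (nat_lit 4194308) (nat_lit 11484012101) (.two (nat_lit 4194308) (nat_lit 11484012100) (.two (nat_lit 4194305) (nat_lit 612376556) (.two (nat_lit 8388608) (nat_lit 2889883757) (.one (nat_lit 11484012718) .nil)))))))))))))),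
   .two (nat_lit 285215887) (nat_lit 1954548092) (.two (nat_lit 50334861) (nat_lit 9802090878) (.two (nat_lit 19142804956) (nat_lit 171970566) (.two (nat_lit 104858440) (nat_lit 16782209) (.two (nat_lit 41943231) (nat_lit 184555613) (.two (nat_lit 8388672) (nat_lit 807409851) (.two (nat_lit 8388672) (nat_lit 807409850) (.two (nat_lit 8388672) (nat_lit 807409849) (.two (nat_lit 8388623) (nat_lit 11492400356) (.two (nat_lit 8388616) (nat_lit 1277173281) (.two (nat_lit 8388612) (nat_lit 171974212) (.two (nat_lit 8388612) (nat_lit 37756487) (.two (nat_lit 37748737) (nat_lit 41951216) (.two (nat_lit 2097152) (nat_lit 10376716384) (.one (nat_lit 2105517) .nil)))))))))))))),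
   .two (nat_lit 3527412879) (nat_lit 37262199269) (.two (nat_lit 16780431) (nat_lit 10909387134) (.two (nat_lit 156581758427) (nat_lit 3527413765) (.two (nat_lit 9768534856) (nat_lit 16782209) (.two (nat_lit 822083775) (nat_lit 1954551899) (.two (nat_lit 8388672) (nat_lit 11546925243) (.two (nat_lit 8388672) (nat_lit 11546925242) (.two (nat_lit 8388672) (nat_lit 11546925241) (.two (nat_lit 41943055) (nat_lit 117447904) (.two (nat_lit 41943048) (nat_lit 104865311) (.two (nat_lit 8388612) (nat_lit 708845124) (.two (nat_lit 8388612) (nat_lit 4202055) (.two (nat_lit 4194305) (nat_lit 8396779) (.two (nat_lit 4194304) (nat_lit 8396912) (.one (nat_lit 71311533) .nil)))))))))))))),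
   .two (nat_lit 50334861) (nat_lit 9802090878) (.two (nat_lit 19142804956) (nat_lit 171970566) (.two (nat_lit 104858440) (nat_lit 16782209) (.two (nat_lit 41943231) (nat_lit 184555613) (.two (nat_lit 8388672) (nat_lit 807409850) (.two (nat_lit 8388672) (nat_lit 807409849) (.two (nat_lit 612368418) (nat_lit 102767450) (.two (nat_lit 8388623) (nat_lit 11492400356) (.two (nat_lit 8388616) (nat_lit 1277173281) (.two (nat_lit 8388612) (nat_lit 37756487) (.two (nat_lit 8388611) (nat_lit 809508710) (.two (nat_lit 37748737) (nat_lit 41951216) (.two (nat_lit 2097152) (nat_lit 10376716384) (.one (nat_lit 35659948) .nil))))))))))))),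
   .two (nat_lit 16780431) (nat_lit 2319452542) (.two (nat_lit 156581758427) (nat_lit 12117348357) (.two (nat_lit 1178600264) (nat_lit 16782209) (.two (nat_lit 285212863) (nat_lit 10544486491) (.two (nat_lit 8388672) (nat_lit 2956990650) (.two (nat_lit 8388672) (nat_lit 2956990649) (.two (nat_lit 612368418) (nat_lit 37755744) (.two (nat_lit 8388623) (nat_lit 654318816) (.two (nat_lit 8388616) (nat_lit 641736223) (.two (nat_lit 8388612) (nat_lit 37756487) (.two (nat_lit 8388611) (nat_lit 272637800) (.two (nat_lit 37748737) (nat_lit 8396779) (.two (nat_lit 4194304) (nat_lit 8396913) (.one (nat_lit 171974828) .nil))))))))))))),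
   .two (nat_lit 16780429) (nat_lit 1413482082) (.two (nat_lit 156581758427) (nat_lit 158146234849) (.two (nat_lit 16778715) (nat_lit 142608921) (.two (nat_lit 156581757768) (nat_lit 4601154973) (.two (nat_lit 16778056) (nat_lit 8391193) (.two (nat_lit 16777407) (nat_lit 1753224827) (.two (nat_lit 8388672) (nat_lit 285218395) (.two (nat_lit 8388672) (nat_lit 654317179) (.two (nat_lit 8388623) (nat_lit 171973253) (.two (nat_lit 8388623) (nat_lit 608179831) (.two (nat_lit 8388616) (nat_lit 608181260) (.two (nat_lit 4194306) (nat_lit 9772736364) (.two (nat_lit 8388612) (nat_lit 608181560) (.two (nat_lit 4194305) (nat_lit 813703167) (.two (nat_lit 8388608) (nat_lit 16785522) (.one (nat_lit 612376753) .nil))))))))))))))),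
   .two (nat_lit 285214171) (nat_lit 2420115993) (.two (nat_lit 16778056) (nat_lit 11010051482) (.two (nat_lit 16777280) (nat_lit 156372047481) (.two (nat_lit 16777231) (nat_lit 10003420791) (.two (nat_lit 4194308) (nat_lit 9772735800) (.two (nat_lit 4194305) (nat_lit 9772736075) (.one (nat_lit 608182396) .nil)))))),
   .two (nat_lit 3036679311) (nat_lit 612369416) (.two (nat_lit 156372041919) (nat_lit 159219980391) (.two (nat_lit 4194312) (nat_lit 2104863) (.two (nat_lit 4194304) (nat_lit 1056871) .nil))),
   .two (nat_lit 184552589) (nat_lit 21812478984) (.two (nat_lit 156372043228) (nat_lit 235933708) (.two (nat_lit 9772728539) (nat_lit 16782209) (.two (nat_lit 4605345983) (nat_lit 19127079112) (.two (nat_lit 185035915455) (nat_lit 4598010048) (.two (nat_lit 2887778369) (nat_lit 184555104) (.two (nat_lit 169869327) (nat_lit 11559509216) (.two (nat_lit 8388616) (nat_lit 9933168159) (.two (nat_lit 8388612) (nat_lit 740302406) (.two (nat_lit 41943041) (nat_lit 158177697770) (.two (nat_lit 8388608) (nat_lit 1276125285) (.one (nat_lit 16785590) .nil))))))))))),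
   .two (nat_lit 2902461581) (nat_lit 1948255240) (.two (nat_lit 4647292047) (nat_lit 165528208993) (.two (nat_lit 9802089948) (nat_lit 4027584524) (.two (nat_lit 21827158481) (nat_lit 28690093477) (.two (nat_lit 9802089289) (nat_lit 11006906489) (.two (nat_lit 306184383) (nat_lit 1410339016) (.two (nat_lit 185035915455) (nat_lit 303042752) (.two (nat_lit 608174438) (nat_lit 156380434623) (.two (nat_lit 169869377) (nat_lit 2902464096) (.two (nat_lit 2969567296) (nat_lit 166199301724) (.two (nat_lit 2887778319) (nat_lit 754982112) (.two (nat_lit 272629768) (nat_lit 638590495) (.two (nat_lit 4194308) (nat_lit 11544829510) (.two (nat_lit 4194308) (nat_lit 2953846341) (.two (nat_lit 37748737) (nat_lit 28791807978) (.two (nat_lit 4194304) (nat_lit 1276125285) (.one (nat_lit 9881788595) .nil)))))))))))))))),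
   .two (nat_lit 4601152987) (nat_lit 9772730017) (.two (nat_lit 46409974600) (nat_lit 9906949530) (.two (nat_lit 4601151552) (nat_lit 780146300) (.two (nat_lit 4601151503) (nat_lit 780146300) (.two (nat_lit 20644364290) (nat_lit 3560972067) (.two (nat_lit 612368385) (nat_lit 3560972067) (.one (nat_lit 1056951) .nil)))))),
   .two (nat_lit 16778716) (nat_lit 2323647001) (.two (nat_lit 16778057) (nat_lit 2323647001) (.two (nat_lit 8388672) (nat_lit 1795167867) (.two (nat_lit 8388623) (nat_lit 2902464121) (.two (nat_lit 8388613) (nat_lit 270539804) (.two (nat_lit 2097153) (nat_lit 1056808) (.one (nat_lit 8396984) .nil)))))),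
   .two (nat_lit 8390108) (nat_lit 156380432033) (.two (nat_lit 176161609) (nat_lit 158192373146) (.two (nat_lit 2954887234) (nat_lit 16783550) (.two (nat_lit 176160779) (nat_lit 4201869) (.two (nat_lit 158150426629) (nat_lit 46489673507) (.two (nat_lit 612368385) (nat_lit 3560972067) (.one (nat_lit 2105470) .nil)))))),
   .two (nat_lit 713034895) (nat_lit 156380432033) (.two (nat_lit 8390108) (nat_lit 10351544801) (.two (nat_lit 8390108) (nat_lit 156380432033) (.two (nat_lit 16778447) (nat_lit 159253532061) (.two (nat_lit 8389449) (nat_lit 12163485082) (.two (nat_lit 9781117023) (nat_lit 2956990884) (.two (nat_lit 176160786) (nat_lit 20738743175) (.two (nat_lit 272629826) (nat_lit 184555710) (.two (nat_lit 285212687) (nat_lit 19597892596) (.two (nat_lit 612368399) (nat_lit 16783583) (.two (nat_lit 4194310) (nat_lit 2104881) (.two (nat_lit 8388610) (nat_lit 2105202) (.two (nat_lit 12121538565) (nat_lit 3540000547) (.two (nat_lit 4194305) (nat_lit 2105360) (.two (nat_lit 2097152) (nat_lit 47584387198) (.one (nat_lit 4202681) .nil))))))))))))))),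
   .two (nat_lit 16778716) (nat_lit 840960536) (.two (nat_lit 8388675) (nat_lit 184555131) (.two (nat_lit 1276116996) (nat_lit 3565166155) (.one (nat_lit 2105532) .nil))),
   .two (nat_lit 183962176655) (nat_lit 46980402319) (.two (nat_lit 50333147) (nat_lit 4199020) (.two (nat_lit 2894071002) (nat_lit 16782209) (.two (nat_lit 847249599) (nat_lit 151001179) (.two (nat_lit 16777280) (nat_lit 2104155) (.two (nat_lit 2889875471) (nat_lit 46508547297) (.two (nat_lit 2889875464) (nat_lit 2104863) (.two (nat_lit 41943045) (nat_lit 69214047) (.two (nat_lit 2097153) (nat_lit 8396777) (.two (nat_lit 2097152) (nat_lit 16785507) (.one (nat_lit 2105536) .nil)))))))))),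
   .two (nat_lit 158192372879) (nat_lit 20704136335) (.two (nat_lit 11559503324) (nat_lit 8393325) (.two (nat_lit 159232557896) (nat_lit 343937921) (.two (nat_lit 4601151679) (nat_lit 159224174684) (.two (nat_lit 8388672) (nat_lit 1055580) (.two (nat_lit 8388623) (nat_lit 1056099) (.two (nat_lit 4194312) (nat_lit 4613742111) (.two (nat_lit 4194308) (nat_lit 1056608) (.two (nat_lit 50331649) (nat_lit 10003423328) (.one (nat_lit 13187948735) .nil))))))))),
   .two (nat_lit 3573550223) (nat_lit 1847594127) (.two (nat_lit 47596963291) (nat_lit 2101254) (.two (nat_lit 612369617) (nat_lit 16782209) (.two (nat_lit 8388799) (nat_lit 16783453) (.two (nat_lit 19027460161) (nat_lit 8395613) (.two (nat_lit 2961178639) (nat_lit 606084639) (.two (nat_lit 2894069765) (nat_lit 639639391) (.two (nat_lit 605028353) (nat_lit 1182802016) (.one (nat_lit 1056961) .nil)))))))),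
   .two (nat_lit 673189005) (nat_lit 672140432) (.two (nat_lit 47548728795) (nat_lit 10921972350) (.two (nat_lit 156372042568) (nat_lit 1947210627) (.two (nat_lit 156372041919) (nat_lit 873470048) (.two (nat_lit 169869377) (nat_lit 276831072) (.two (nat_lit 4194319) (nat_lit 102768161) (.two (nat_lit 169869316) (nat_lit 9936314205) (.two (nat_lit 4194305) (nat_lit 2953846882) (.one (nat_lit 1056968) .nil)))))))),
   .two (nat_lit 4605349006) (nat_lit 11614031014) (.two (nat_lit 620758491) (nat_lit 46406832832) (.two (nat_lit 612369625) (nat_lit 16782209) (.two (nat_lit 4601151679) (nat_lit 8395185) (.two (nat_lit 16777280) (nat_lit 1055655) (.two (nat_lit 41943055) (nat_lit 9933168161) (.two (nat_lit 4194308) (nat_lit 3020955488) (.two (nat_lit 4194305) (nat_lit 209723374) (.two (nat_lit 1048576) (nat_lit 16785510) (.one (nat_lit 1056969) .nil))))))))),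
   .two (nat_lit 2923433101) (nat_lit 19128126630) (.two (nat_lit 4601152987) (nat_lit 1358959225) (.two (nat_lit 37749577) (nat_lit 16782209) (.two (nat_lit 13237223615) (nat_lit 156465371234) (.two (nat_lit 4194369) (nat_lit 1191189345) (.two (nat_lit 272629775) (nat_lit 218111204) (.two (nat_lit 272629768) (nat_lit 739253793) (.two (nat_lit 2097157) (nat_lit 9869205346) (.two (nat_lit 37748737) (nat_lit 638591074) (.one (nat_lit 1056970) .nil))))))))),
   .two (nat_lit 184552589) (nat_lit 156971830417) (.two (nat_lit 184550876) (nat_lit 2956989058) (.two (nat_lit 612369224) (nat_lit 16782209) (.two (nat_lit 16777407) (nat_lit 159253534811) (.two (nat_lit 16777282) (nat_lit 2927631235) (.two (nat_lit 8388623) (nat_lit 218111200) (.two (nat_lit 8388616) (nat_lit 205528607) (.two (nat_lit 4194308) (nat_lit 9772736364) (.two (nat_lit 4194305) (nat_lit 8396779) (.two (nat_lit 4194304) (nat_lit 8396906) (.one (nat_lit 608182466) .nil)))))))))),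
   .two (nat_lit 184552589) (nat_lit 156971830417) (.two (nat_lit 184550876) (nat_lit 2956989058) (.two (nat_lit 612369224) (nat_lit 16782209) (.two (nat_lit 16777407) (nat_lit 159253534811) (.two (nat_lit 16777282) (nat_lit 2927631235) (.two (nat_lit 8388623) (nat_lit 218111200) (.two (nat_lit 8388616) (nat_lit 205528607) (.two (nat_lit 4194308) (nat_lit 9772736364) (.two (nat_lit 4194305) (nat_lit 8396779) (.two (nat_lit 4194304) (nat_lit 8396843) (.one (nat_lit 608182466) .nil)))))))))),
   .two (nat_lit 16780429) (nat_lit 2954888199) (.two (nat_lit 16780429) (nat_lit 272631396) (.two (nat_lit 156372043228) (nat_lit 184986636293) (.two (nat_lit 156372042569) (nat_lit 28790756227) (.two (nat_lit 4605345983) (nat_lit 269490607) (.two (nat_lit 169869377) (nat_lit 11551118938) (.two (nat_lit 169869377) (nat_lit 11551119547) (.two (nat_lit 169869377) (nat_lit 11551119546) (.two (nat_lit 4194319) (nat_lit 11559509216) (.two (nat_lit 4194312) (nat_lit 2104863) (.two (nat_lit 4194308) (nat_lit 168828485) (.two (nat_lit 4194308) (nat_lit 168828484) (.two (nat_lit 4194305)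 (nat_lit 813703148) (.two (nat_lit 4194304) (nat_lit 1276125285) (.one (nat_lit 16785631) .nil)))))))))))))),
   .two (nat_lit 16780429) (nat_lit 272631396) (.two (nat_lit 352324751) (nat_lit 20644365919) (.two (nat_lit 156372043228) (nat_lit 184986636293) (.two (nat_lit 156372042569) (nat_lit 28790756227) (.two (nat_lit 4605345983) (nat_lit 269490607) (.two (nat_lit 169869377) (nat_lit 11551119547) (.two (nat_lit 169869377) (nat_lit 11551119546) (.two (nat_lit 169869377) (nat_lit 11551119545) (.two (nat_lit 4194319) (nat_lit 11559509216) (.two (nat_lit 4194312) (nat_lit 2104863) (.two (nat_lit 4194308) (nat_lit 168828484) (.two (nat_lit 4194308) (nat_lit 34610759) (.two (nat_lit 4194305) (nat_lit 813703148) (.two (nat_lit 4194304) (nat_lit 1276125285) (.one (nat_lit 16785632) .nil)))))))))))))),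
   .two (nat_lit 352324751) (nat_lit 183853123167) (.two (nat_lit 10343155164) (nat_lit 184986636293) (.two (nat_lit 156372042569) (nat_lit 1947210627) (.two (nat_lit 185035915455) (nat_lit 746592357) (.two (nat_lit 4194369) (nat_lit 11551119546) (.two (nat_lit 4194369) (nat_lit 11551119545) (.two (nat_lit 608174114) (nat_lit 276831072) (.two (nat_lit 4194319) (nat_lit 1358961888) (.two (nat_lit 169869320) (nat_lit 171974175) (.two (nat_lit 2097157) (nat_lit 171974215) (.two (nat_lit 2097155) (nat_lit 272637796) (.two (nat_lit 2097153) (nat_lit 9940508652) (.two (nat_lit 2097152) (nat_lit 11476672613) (.one (nat_lit 16785633) .nil))))))))))))),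
   .two (nat_lit 8391823) (nat_lit 352323179) (.two (nat_lit 8389115) (nat_lit 156365755060) (.two (nat_lit 2961179465) (nat_lit 754979808) (.two (nat_lit 16777407) (nat_lit 269490278) (.two (nat_lit 8388672) (nat_lit 352328331) (.two (nat_lit 612368399) (nat_lit 2104551) (.two (nat_lit 9948889096) (nat_lit 2988449430) (.two (nat_lit 2097155) (nat_lit 4202424) (.two (nat_lit 612368385) (nat_lit 158146240497) (.two (nat_lit 4194304) (nat_lit 158150434949) (.one (nat_lit 1056946) .nil)))))))))),
   .two (nat_lit 605031568) (nat_lit 9781117958) (.two (nat_lit 8390107) (nat_lit 184987685495) (.two (nat_lit 184550607) (nat_lit 2416972674) (.two (nat_lit 16777407) (nat_lit 2953844838) (.two (nat_lit 8388672) (nat_lit 184987687790) (.two (nat_lit 8388623) (nat_lit 1056140) (.two (nat_lit 1350565896) (nat_lit 158177696407) (.two (nat_lit 1350565896) (nat_lit 28791807535) (.two (nat_lit 176160772) (nat_lit 2987401071) (.two (nat_lit 612368385) (nat_lit 158146240497) (.two (nat_lit 1048576) (nat_lit 2105490) (.one (nat_lit 1056966) .nil))))))))))),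
   .two (nat_lit 8391823) (nat_lit 352323179) (.two (nat_lit 46409975393) (nat_lit 20753420044) (.two (nat_lit 16778186) (nat_lit 11543777285) (.two (nat_lit 8389115) (nat_lit 156365755060) (.two (nat_lit 2961179465) (nat_lit 754979808) (.two (nat_lit 9934209864) (nat_lit 156566033288) (.two (nat_lit 16777407) (nat_lit 269490278) (.two (nat_lit 8388672) (nat_lit 352328331) (.two (nat_lit 612368418) (nat_lit 4598012797) (.two (nat_lit 612368399) (nat_lit 2104551) (.two (nat_lit 9948889096) (nat_lit 2988449430) (.two (nat_lit 4194306) (nat_lit 8396743) (.two (nat_lit 2097155) (nat_lit 4202424) (.two (nat_lit 612368385) (nat_lit 158146240497) (.two (nat_lit 4194304) (nat_lit 158150434949) (.one (nat_lit 168829176) .nil))))))))))))))),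
   .two (nat_lit 605031568) (nat_lit 9781117958) (.two (nat_lit 3464496737) (nat_lit 10016000380) (.two (nat_lit 8390107) (nat_lit 184987685495) (.two (nat_lit 184550607) (nat_lit 2416972674) (.two (nat_lit 16777407) (nat_lit 2953844838) (.two (nat_lit 8388672) (nat_lit 184987687790) (.two (nat_lit 8388623) (nat_lit 1056140) (.two (nat_lit 1350565896) (nat_lit 28791807535) (.two (nat_lit 2097159) (nat_lit 8396600) (.two (nat_lit 176160772) (nat_lit 2987401071) (.two (nat_lit 612368385) (nat_lit 158146240497) (.two (nat_lit 1048576) (nat_lit 2105491) (.one (nat_lit 1056966) .nil)))))))))))),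
   .two (nat_lit 8391823) (nat_lit 352323179) (.two (nat_lit 9772729951) (nat_lit 47550828271) (.two (nat_lit 11492393932) (nat_lit 11543777285) (.two (nat_lit 16778186) (nat_lit 11543777285) (.two (nat_lit 8389115) (nat_lit 156365755060) (.two (nat_lit 2961179465) (nat_lit 754979808) (.two (nat_lit 9934209864) (nat_lit 156566033288) (.two (nat_lit 16778447) (nat_lit 1745883327) (.two (nat_lit 16777407) (nat_lit 269490278) (.two (nat_lit 8388672) (nat_lit 352328331) (.two (nat_lit 176160803) (nat_lit 4598012797) (.two (nat_lit 612368418) (nat_lit 4598012797) (.two (nat_lit 612368399) (nat_lit 2104551) (.two (nat_lit 9948889096) (nat_lit 2988449430) (.two (nat_lit 4194306) (nat_lit 8396744) (.two (nat_lit 2097155) (nat_lit 4202424) (.two (nat_lit 612368385) (nat_lit 158146240497) (.two (nat_lit 4194304) (nat_lit 158150434949) (.one (nat_lit 1056994) .nil)))))))))))))))))),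
   .two (nat_lit 605031568) (nat_lit 9781117958) (.two (nat_lit 9772729951) (nat_lit 4601155355) (.two (nat_lit 8390107) (nat_lit 184987685495) (.two (nat_lit 184550607) (nat_lit 2416972674) (.two (nat_lit 16777407) (nat_lit 2953844838) (.two (nat_lit 8388672) (nat_lit 184987687790) (.two (nat_lit 8388623) (nat_lit 1056140) (.two (nat_lit 176160774) (nat_lit 2987401071) (.two (nat_lit 2097159) (nat_lit 8396601) (.two (nat_lit 176160772) (nat_lit 2987401071) (.two (nat_lit 612368385) (nat_lit 158146240497) (.two (nat_lit 1048576) (nat_lit 2105492) (.one (nat_lit 1056966) .nil)))))))))))),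
   .two (nat_lit 35653281) (nat_lit 47581234784) (.two (nat_lit 9772729951) (nat_lit 47550828271) (.two (nat_lit 8388835) (nat_lit 46508544193) (.two (nat_lit 11492393932) (nat_lit 11543777285) (.two (nat_lit 16778186) (nat_lit 11543777285) (.two (nat_lit 8389115) (nat_lit 156365755060) (.two (nat_lit 9934209864) (nat_lit 156566033288) (.two (nat_lit 16778447) (nat_lit 1745883327) (.two (nat_lit 9940501320) (nat_lit 10001322890) (.two (nat_lit 16777407) (nat_lit 269490278) (.two (nat_lit 339738645) (nat_lit 16784712) (.two (nat_lit 176160803) (nat_lit 4598012797) (.two (nat_lit 612368418) (nat_lit 4598012797) (.two (nat_lit 612368399) (nat_lit 2104551) (.two (nat_lit 9948889096) (nat_lit 2988449430) (.two (nat_lit 4194306) (nat_lit 8396745) (.two (nat_lit 2097155) (nat_lit 4202424) (.two (nat_lit 612368385) (nat_lit 158146240497) (.two (nat_lit 4194304) (nat_lit 158150434949) (.one (nat_lit 1056995) .nil))))))))))))))))))),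
   .two (nat_lit 156380432033) (nat_lit 11543776399) (.two (nat_lit 8391823) (nat_lit 620758623) (.two (nat_lit 8390107) (nat_lit 184987685495) (.two (nat_lit 184550607) (nat_lit 2416972674) (.two (nat_lit 16777407) (nat_lit 2953844838) (.two (nat_lit 8388672) (nat_lit 184987687790) (.two (nat_lit 8388623) (nat_lit 1056140) (.two (nat_lit 176160774) (nat_lit 2987401071) (.two (nat_lit 2097159) (nat_lit 8396514) (.two (nat_lit 176160772) (nat_lit 2987401071) (.two (nat_lit 612368385) (nat_lit 158146240497) (.two (nat_lit 1048576) (nat_lit 2105493) (.one (nat_lit 1056966) .nil)))))))))))),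
   .two (nat_lit 608175777) (nat_lit 12147757251) (.two (nat_lit 4634706147) (nat_lit 68161728) (.two (nat_lit 1291846604) (nat_lit 11543777285) (.two (nat_lit 16778186) (nat_lit 11543777285) (.two (nat_lit 184550607) (nat_lit 1745883327) (.two (nat_lit 813695816) (nat_lit 876614538) (.two (nat_lit 8389448) (nat_lit 12163485082) (.two (nat_lit 16777407) (nat_lit 2953844838) (.two (nat_lit 3021996053) (nat_lit 16784713) (.two (nat_lit 176160803) (nat_lit 10000276344) (.two (nat_lit 612368418) (nat_lit 10000276344) (.two (nat_lit 41943055) (nat_lit 171973863) (.two (nat_lit 822083592) (nat_lit 306192022) (.two (nat_lit 169869314) (nat_lit 8396746) (.two (nat_lit 41943043) (nat_lit 1948262243) (.two (nat_lit 41943041) (nat_lit 12115255281) (.two (nat_lit 2097152) (nat_lit 12121546885) (.one (nat_lit 1056996) .nil))))))))))))))))),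
   .two (nat_lit 8391823) (nat_lit 620758623) (.two (nat_lit 8390107) (nat_lit 184987685495) (.two (nat_lit 184550607) (nat_lit 2416972674) (.two (nat_lit 16777407) (nat_lit 2953844838) (.two (nat_lit 8388672) (nat_lit 184987687790) (.two (nat_lit 8388623) (nat_lit 1056140) (.two (nat_lit 176160774) (nat_lit 2987401071) (.two (nat_lit 11551113224) (nat_lit 185035922736) (.two (nat_lit 176160772) (nat_lit 2987401071) (.two (nat_lit 612368385) (nat_lit 158146240497) (.two (nat_lit 1048576) (nat_lit 2105494) (.one (nat_lit 1056966) .nil))))))))))),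
   .two (nat_lit 8391823) (nat_lit 156380432033) (.two (nat_lit 8390107) (nat_lit 184987685495) (.two (nat_lit 184550607) (nat_lit 2416972674) (.two (nat_lit 16777407) (nat_lit 2953844838) (.two (nat_lit 8388672) (nat_lit 184987687790) (.two (nat_lit 8388623) (nat_lit 1056140) (.two (nat_lit 11551113224) (nat_lit 185035922736) (.two (nat_lit 176160772) (nat_lit 2987401071) (.two (nat_lit 612368385) (nat_lit 158146240497) (.two (nat_lit 1048576) (nat_lit 2105459) (.one (nat_lit 1056966) .nil)))))))))),
   .two (nat_lit 880807053) (nat_lit 9866053217) (.two (nat_lit 880807053) (nat_lit 3020949087) (.two (nat_lit 4601152987) (nat_lit 880807940) (.two (nat_lit 339739464) (nat_lit 11584673182) (.two (nat_lit 4601151679) (nat_lit 46407883196) (.two (nat_lit 4601151554) (nat_lit 11610888379) (.two (nat_lit 169869377) (nat_lit 880810957) (.two (nat_lit 46409973826) (nat_lit 158075984480) (.two (nat_lit 156367847439) (nat_lit 3022003429) (.two (nat_lit 169869320) (nat_lit 4202142) (.two (nat_lit 169869314) (nat_lit 8396747) (.two (nat_lit 171966467) (nat_lit 47588581232)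 (.two (nat_lit 156364701697) (nat_lit 4202482) (.two (nat_lit 1048576) (nat_lit 2105479) (.one (nat_lit 1056997) .nil)))))))))))))),
   .two (nat_lit 156569177230) (nat_lit 4631561823) (.two (nat_lit 3525314011) (nat_lit 156569178116) (.two (nat_lit 4638901064) (nat_lit 19096671646) (.two (nat_lit 3525312703) (nat_lit 46984599996) (.two (nat_lit 276824129) (nat_lit 156569181133) (.two (nat_lit 2927624259) (nat_lit 156364708029) (.two (nat_lit 4194342) (nat_lit 1786779261) (.two (nat_lit 46407876623) (nat_lit 4605353185) (.two (nat_lit 276824072) (nat_lit 2887786142) (.two (nat_lit 8388610) (nat_lit 4202444) (.two (nat_lit 2097155) (nat_lit 339746672) (.two (nat_lit 156364701697) (nat_lit 2887786482) (.two (nat_lit 1048576) (nat_lit 2894078087) (.one (nat_lit 1056998) .nil))))))))))))),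
   .two (nat_lit 713034895) (nat_lit 50333279) (.two (nat_lit 8390108) (nat_lit 19142808207) (.two (nat_lit 50332879) (nat_lit 8392094) (.two (nat_lit 16778447) (nat_lit 159253532061) (.two (nat_lit 8389449) (nat_lit 12163485082) (.two (nat_lit 41943231) (nat_lit 166232856675) (.two (nat_lit 8388672) (nat_lit 102767503) (.two (nat_lit 8388623) (nat_lit 2104718) (.two (nat_lit 713031686) (nat_lit 185021243037) (.two (nat_lit 11551113224) (nat_lit 205528867) (.two (nat_lit 713031685) (nat_lit 304095090) (.two (nat_lit 2097153) (nat_lit 4202543) (.two (nat_lit 2097152) (nat_lit 185023340725) (.one (nat_lit 2105541) .nil))))))))))))),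
   .two (nat_lit 156380432033) (nat_lit 1277168783) (.two (nat_lit 713034895) (nat_lit 50333279) (.two (nat_lit 8390108) (nat_lit 19142808207) (.two (nat_lit 16778447) (nat_lit 807407735) (.two (nat_lit 16778447) (nat_lit 2954890654) (.two (nat_lit 16778447) (nat_lit 159253532061) (.two (nat_lit 41943231) (nat_lit 166232856675) (.two (nat_lit 8388672) (nat_lit 102767503) (.two (nat_lit 8388623) (nat_lit 2104718) (.two (nat_lit 713031686) (nat_lit 185021243037) (.two (nat_lit 11559501831) (nat_lit 4202211) (.two (nat_lit 713031685) (nat_lit 304095090) (.two (nat_lit 2097153) (nat_lit 4202543) (.two (nat_lit 2097152) (nat_lit 4202647) (.one (nat_lit 2105541) .nil)))))))))))))),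
   .two (nat_lit 156380432033) (nat_lit 1277168783) (.two (nat_lit 9781118559) (nat_lit 1277168783) (.two (nat_lit 8390108) (nat_lit 19142808207) (.two (nat_lit 721420508) (nat_lit 272635303) (.two (nat_lit 16778447) (nat_lit 807407735) (.two (nat_lit 16778447) (nat_lit 2954890654) (.two (nat_lit 41943231) (nat_lit 166232856675) (.two (nat_lit 8388672) (nat_lit 102767503) (.two (nat_lit 8388623) (nat_lit 2104718) (.two (nat_lit 713031686) (nat_lit 185021243037) (.two (nat_lit 11559501831) (nat_lit 4202298) (.two (nat_lit 713031685) (nat_lit 304095090) (.two (nat_lit 2097153) (nat_lit 4202543) (.two (nat_lit 2097152) (nat_lit 4202648) (.one (nat_lit 2105541) .nil)))))))))))))),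
   .two (nat_lit 9781118559) (nat_lit 1277168783) (.two (nat_lit 16779648) (nat_lit 1277168783) (.two (nat_lit 8390108) (nat_lit 19142808207) (.two (nat_lit 50332114) (nat_lit 2954892711) (.two (nat_lit 16778447) (nat_lit 807407735) (.two (nat_lit 41943231) (nat_lit 166232856675) (.two (nat_lit 8388672) (nat_lit 102767503) (.two (nat_lit 8388623) (nat_lit 2104718) (.two (nat_lit 713031686) (nat_lit 185021243037) (.two (nat_lit 11559501831) (nat_lit 4202299) (.two (nat_lit 713031685) (nat_lit 304095090) (.two (nat_lit 2097153) (nat_lit 4202543) (.two (nat_lit 2097152) (nat_lit 4202649) (.one (nat_lit 2105541) .nil))))))))))))),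
   .two (nat_lit 50334861) (nat_lit 9866054799) (.two (nat_lit 50333148) (nat_lit 46507495436) (.two (nat_lit 4195147) (nat_lit 1054124) (.two (nat_lit 612368575) (nat_lit 28757203035) (.two (nat_lit 713031746) (nat_lit 166232857463) (.two (nat_lit 4194319) (nat_lit 8396175) (.two (nat_lit 75497480) (nat_lit 101719708) (.two (nat_lit 176160772) (nat_lit 183928627049) (.two (nat_lit 4194305) (nat_lit 1056817) (.two (nat_lit 1048576) (nat_lit 4202612) (.one (nat_lit 1056967) .nil)))))))))),
   .two (nat_lit 713034895) (nat_lit 16778244) (.two (nat_lit 713034895) (nat_lit 16778848) (.two (nat_lit 13191087579) (nat_lit 343937028) (.two (nat_lit 13191086920) (nat_lit 9974060453) (.two (nat_lit 13191086271) (nat_lit 620763575) (.two (nat_lit 8388672) (nat_lit 2103960) (.two (nat_lit 889192515) (nat_lit 46407882939) (.two (nat_lit 8388623) (nat_lit 2103960) (.two (nat_lit 37748751) (nat_lit 183861516505) (.two (nat_lit 11559501832) (nat_lit 1948262043) (.two (nat_lit 4194306) (nat_lit 19094576721) (.two (nat_lit 721420291) (nat_lit 2105189) (.two (nat_lit 50331649)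 (nat_lit 4202483) (.two (nat_lit 2097152) (nat_lit 4202632) (.one (nat_lit 2105530) .nil)))))))))))))),
   .two (nat_lit 713034895) (nat_lit 16778244) (.two (nat_lit 713034895) (nat_lit 16778848) (.two (nat_lit 13191087579) (nat_lit 343937028) (.two (nat_lit 13191086920) (nat_lit 9974060453) (.two (nat_lit 13191086271) (nat_lit 620763575) (.two (nat_lit 8388672) (nat_lit 2103960) (.two (nat_lit 889192515) (nat_lit 46407882939) (.two (nat_lit 889192515) (nat_lit 876616722) (.two (nat_lit 37748751) (nat_lit 183861516505) (.two (nat_lit 37748751) (nat_lit 16784625) (.two (nat_lit 11559501832) (nat_lit 1948262043) (.two (nat_lit 4194306) (nat_lit 8396749) (.two (nat_lit 721420291) (nat_lit 2105189) (.two (nat_lit 50331649) (nat_lit 4202483) (.two (nat_lit 2097152) (nat_lit 4202632) (.one (nat_lit 2105575) .nil))))))))))))))),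
   .two (nat_lit 2969568263) (nat_lit 806359679) (.two (nat_lit 2969568731) (nat_lit 10338964446) (.two (nat_lit 184550216) (nat_lit 2316308680) (.two (nat_lit 8388799) (nat_lit 11546924634) (.two (nat_lit 8388672) (nat_lit 2953844980) (.two (nat_lit 8388623) (nat_lit 2953844980) (.two (nat_lit 184549384) (nat_lit 46406835782) (.two (nat_lit 4194308) (nat_lit 336600866) (.two (nat_lit 37748737) (nat_lit 8396844) (.two (nat_lit 1048576) (nat_lit 183861518512) (.one (nat_lit 336601329) .nil)))))))))),
   .two (nat_lit 183912893582) (nat_lit 11551116618) (.two (nat_lit 3573550223) (nat_lit 19128125090) (.two (nat_lit 158143088092) (nat_lit 47582285940) (.two (nat_lit 11559503323) (nat_lit 11544825973) (.two (nat_lit 50333148) (nat_lit 10913581593) (.two (nat_lit 2887779145) (nat_lit 156380434622) (.two (nat_lit 2887779145) (nat_lit 620762715) (.two (nat_lit 8388799) (nat_lit 285218395) (.two (nat_lit 41943231) (nat_lit 1191188091) (.two (nat_lit 8388672) (nat_lit 102767239) (.two (nat_lit 8388672) (nat_lit 1780489202) (.two (nat_lit 8388672) (nat_lit 1191188091)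 (.two (nat_lit 75497487) (nat_lit 2104865) (.two (nat_lit 2887778312) (nat_lit 1182801676) (.two (nat_lit 713031688) (nat_lit 1056056) (.two (nat_lit 713031684) (nat_lit 740302764) (.two (nat_lit 713031684) (nat_lit 12148809642) (.two (nat_lit 2097153) (nat_lit 9772736608) (.two (nat_lit 2097152) (nat_lit 8396977) (.one (nat_lit 8397044) .nil))))))))))))))))))),
   .two (nat_lit 35652612) (nat_lit 16781317) (.two (nat_lit 46978303452) (nat_lit 1379930304) (.two (nat_lit 318767944) (nat_lit 1413483986) (.two (nat_lit 157036839103) (nat_lit 156566034010) (.two (nat_lit 3527409729) (nat_lit 4028635358) (.two (nat_lit 2887778319) (nat_lit 4200692) (.two (nat_lit 2097159) (nat_lit 4202352) (.two (nat_lit 2887778308) (nat_lit 46507499298) (.two (nat_lit 16777217) (nat_lit 2104913) (.two (nat_lit 16777216) (nat_lit 1056948) (.one (nat_lit 166129049846) .nil)))))))))),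
   .two (nat_lit 156364704912) (nat_lit 156372045828) (.two (nat_lit 156372043228) (nat_lit 1054103) (.two (nat_lit 318767944) (nat_lit 8394843) (.two (nat_lit 16777407) (nat_lit 1055576) (.two (nat_lit 2887778369) (nat_lit 16784608) (.two (nat_lit 16777231) (nat_lit 1056390) (.two (nat_lit 8388616) (nat_lit 1056605) (.two (nat_lit 8388612) (nat_lit 1056745) (.two (nat_lit 2097153) (nat_lit 1056866) (.two (nat_lit 1048576) (nat_lit 2105533) (.one (nat_lit 1057018) .nil)))))))))),
   .two (nat_lit 713034895) (nat_lit 11559505925) (.two (nat_lit 8390108) (nat_lit 150999938) (.two (nat_lit 8389449) (nat_lit 16783452) (.two (nat_lit 41943231) (nat_lit 4201305) (.two (nat_lit 50331715) (nat_lit 4201697) (.two (nat_lit 8388623) (nat_lit 2104862) (.two (nat_lit 8388616) (nat_lit 2105182) (.two (nat_lit 4194308) (nat_lit 2105322) (.two (nat_lit 2097153) (nat_lit 20640178272) (.two (nat_lit 2097152) (nat_lit 4202686) (.one (nat_lit 2105595) .nil)))))))))),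
   .two (nat_lit 1847594127) (nat_lit 158143090693) (.two (nat_lit 158144136668) (nat_lit 183912895362) (.two (nat_lit 159257723720) (nat_lit 156380436571) (.two (nat_lit 8388799) (nat_lit 2104154) (.two (nat_lit 2961178690) (nat_lit 620764384) (.two (nat_lit 8388623) (nat_lit 1056391) (.two (nat_lit 8388616) (nat_lit 1056607) (.two (nat_lit 2956984325) (nat_lit 1411391466) (.two (nat_lit 4194305) (nat_lit 1182802016) (.two (nat_lit 1048576) (nat_lit 2105535) (.one (nat_lit 4202748) .nil)))))))))),
   .two (nat_lit 4634709136) (nat_lit 166237048838) (.two (nat_lit 8390108) (nat_lit 16782209) (.two (nat_lit 8389449) (nat_lit 2969573469) (.two (nat_lit 16777407) (nat_lit 2988448684) (.two (nat_lit 272629827) (nat_lit 50339044) (.two (nat_lit 2889875471) (nat_lit 2104863) (.two (nat_lit 41943048) (nat_lit 2105191) (.two (nat_lit 2902458372) (nat_lit 21812486125) (.two (nat_lit 2097153) (nat_lit 37757028) (.two (nat_lit 2097152) (nat_lit 71311551) (.one (nat_lit 8397055) .nil)))))))))),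
   .two (nat_lit 156380432033) (nat_lit 276828818) (.two (nat_lit 184552589) (nat_lit 28798093797) (.two (nat_lit 184552591) (nat_lit 2319453513) (.two (nat_lit 16780429) (nat_lit 166132188834) (.two (nat_lit 176162268) (nat_lit 16782209) (.two (nat_lit 8388835) (nat_lit 3024099426) (.two (nat_lit 176161609) (nat_lit 156380434623) (.two (nat_lit 176161609) (nat_lit 156380434622) (.two (nat_lit 16777407) (nat_lit 675289693) (.two (nat_lit 612368575) (nat_lit 19545462361) (.two (nat_lit 16777407) (nat_lit 165528214540) (.two (nat_lit 8388672) (nat_lit 1279269081) (.two (nat_lit 8388672) (nat_lit 1279269512) (.two (nat_lit 8388672) (nat_lit 1279269510) (.two (nat_lit 8388623) (nat_lit 83893913) (.two (nat_lit 8388616) (nat_lit 2956992068) (.two (nat_lit 8388616) (nat_lit 1279270669) (.two (nat_lit 4194308) (nat_lit 645931006) (.two (nat_lit 4194308) (nat_lit 2961186817) (.two (nat_lit 4194305) (nat_lit 8396909) (.two (nat_lit 4194304) (nat_lit 9772736717) (.one (nat_lit 608182508) .nil))))))))))))))))))))),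
   .two (nat_lit 11559503455) (nat_lit 46510641804) (.two (nat_lit 184552589) (nat_lit 28798093797) (.two (nat_lit 184552591) (nat_lit 2319453513) (.two (nat_lit 176162268) (nat_lit 16782209) (.two (nat_lit 8388835) (nat_lit 3024099426) (.two (nat_lit 16777682) (nat_lit 4200553) (.two (nat_lit 176161609) (nat_lit 156380434623) (.two (nat_lit 8388701) (nat_lit 4201305) (.two (nat_lit 16777407) (nat_lit 675289693) (.two (nat_lit 612368575) (nat_lit 19545462361) (.two (nat_lit 8388626) (nat_lit 218111200) (.two (nat_lit 8388672) (nat_lit 1279269081) (.two (nat_lit 8388672) (nat_lit 1279269512) (.two (nat_lit 8388623) (nat_lit 83893913) (.two (nat_lit 8388616) (nat_lit 2956992069) (.two (nat_lit 8388616) (nat_lit 2956992068) (.two (nat_lit 4194306) (nat_lit 8396779) (.two (nat_lit 4194308) (nat_lit 645931006) (.two (nat_lit 4194305) (nat_lit 8396843) (.two (nat_lit 4194304) (nat_lit 10510934222) (.one (nat_lit 608182510) .nil)))))))))))))))))))),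
   .two (nat_lit 156380432033) (nat_lit 37753827) (.two (nat_lit 4605349006) (nat_lit 47547681250) (.two (nat_lit 4605349006) (nat_lit 4197706) (.two (nat_lit 16780429) (nat_lit 9899607714) (.two (nat_lit 41943267) (nat_lit 2987398904) (.two (nat_lit 16778715) (nat_lit 21777879948) (.two (nat_lit 352323035) (nat_lit 156573372606) (.two (nat_lit 352323035) (nat_lit 156573372606) (.two (nat_lit 608174298) (nat_lit 3028293730) (.two (nat_lit 176162009) (nat_lit 156380434623) (.two (nat_lit 352322376) (nat_lit 156573372606) (.two (nat_lit 4601151679) (nat_lit 9982450269) (.two (nat_lit 156367847615) (nat_lit 873470138) (.two (nat_lit 4601151679) (nat_lit 20652760076) (.two (nat_lit 16777280) (nat_lit 34610419) (.two (nat_lit 41943076) (nat_lit 11610889441) (.two (nat_lit 4601151552) (nat_lit 158091713159) (.two (nat_lit 4194319) (nat_lit 2961186335) (.two (nat_lit 4194312) (nat_lit 209722948) (.two (nat_lit 4194312) (nat_lit 10376716045) (.two (nat_lit 4194308) (nat_lit 68165624) (.two (nat_lit 4194308) (nat_lit 68165622) (.two (nat_lit 4194305) (nat_lit 721428579)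 (.two (nat_lit 16777216) (nat_lit 1056987) (.one (nat_lit 16785680) .nil)))))))))))))))))))))))),
   .two (nat_lit 285214314) (nat_lit 9766441580) (.two (nat_lit 3527412878) (nat_lit 303040994) (.two (nat_lit 3527412878) (nat_lit 2887781706) (.two (nat_lit 11492393932) (nat_lit 9799996385) (.two (nat_lit 285214171) (nat_lit 12114203532) (.two (nat_lit 4647290331) (nat_lit 159253532862) (.two (nat_lit 807403738) (nat_lit 4634712162) (.two (nat_lit 285213137) (nat_lit 638589474) (.two (nat_lit 272631001) (nat_lit 156380434623) (.two (nat_lit 16777309) (nat_lit 705698651) (.two (nat_lit 3525312703) (nat_lit 13203675741) (.two (nat_lit 157036839103) (nat_lit 156566034618) (.two (nat_lit 9934209043) (nat_lit 809508195) (.two (nat_lit 285212736) (nat_lit 9765395699) (.two (nat_lit 156380430370) (nat_lit 4201463) (.two (nat_lit 2887778319) (nat_lit 4202015) (.two (nat_lit 2887778312) (nat_lit 171974213) (.two (nat_lit 2887778312) (nat_lit 171974212) (.two (nat_lit 4194306) (nat_lit 34611182) (.two (nat_lit 2097157) (nat_lit 608182264) (.two (nat_lit 2097153) (nat_lit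 1191190627) (.two (nat_lit 16777216) (nat_lit 1056988) (.one (nat_lit 16785681) .nil)))))))))))))))))))))),
   .two (nat_lit 4195333) (nat_lit 11626615439) (.two (nat_lit 16779431) (nat_lit 2416972675) (.two (nat_lit 8389448) (nat_lit 1948260453) (.two (nat_lit 8388799) (nat_lit 102767503) (.two (nat_lit 8388672) (nat_lit 1055974) (.two (nat_lit 41943055) (nat_lit 285220502) (.two (nat_lit 41943048) (nat_lit 1056623) (.two (nat_lit 2097155) (nat_lit 4202543) (.two (nat_lit 2097153) (nat_lit 1056902) (.two (nat_lit 1048576) (nat_lit 2105541) (.one (nat_lit 1057015) .nil)))))))))),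
   .two (nat_lit 46409975393) (nat_lit 11626615439) (.two (nat_lit 4195333) (nat_lit 11626615439) (.two (nat_lit 16779431) (nat_lit 2416972675) (.two (nat_lit 8389448) (nat_lit 1948260453) (.two (nat_lit 8388799) (nat_lit 102767503) (.two (nat_lit 8388672) (nat_lit 1055974) (.two (nat_lit 41943055) (nat_lit 285220502) (.two (nat_lit 41943048) (nat_lit 1056623) (.two (nat_lit 4194306) (nat_lit 8396814) (.two (nat_lit 2097155) (nat_lit 4202543) (.two (nat_lit 2097153) (nat_lit 1056902) (.two (nat_lit 1048576) (nat_lit 2105541) (.one (nat_lit 1057016) .nil)))))))))))),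
   .two (nat_lit 9772729951) (nat_lit 4601156215) (.two (nat_lit 46409975393) (nat_lit 11626615439) (.two (nat_lit 8391823) (nat_lit 156380432865) (.two (nat_lit 16779431) (nat_lit 2416972675) (.two (nat_lit 8389448) (nat_lit 1948260453) (.two (nat_lit 8388799) (nat_lit 102767503) (.two (nat_lit 8388672) (nat_lit 1055974) (.two (nat_lit 41943055) (nat_lit 285220502) (.two (nat_lit 41943048) (nat_lit 1056623) (.two (nat_lit 4194306) (nat_lit 8396858) (.two (nat_lit 2097155) (nat_lit 4202543) (.two (nat_lit 2097153) (nat_lit 1056902) (.two (nat_lit 1048576) (nat_lit 2105541) (.one (nat_lit 1057042) .nil))))))))))))),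
   .two (nat_lit 156380432033) (nat_lit 11543777285) (.two (nat_lit 9772729951) (nat_lit 4601156215) (.two (nat_lit 8391823) (nat_lit 156380432865) (.two (nat_lit 8391823) (nat_lit 156380432033) (.two (nat_lit 16779431) (nat_lit 2416972675) (.two (nat_lit 8389448) (nat_lit 1948260453) (.two (nat_lit 8388799) (nat_lit 102767503) (.two (nat_lit 8388672) (nat_lit 1055974) (.two (nat_lit 41943055) (nat_lit 285220502) (.two (nat_lit 41943048) (nat_lit 1056623) (.two (nat_lit 4194306) (nat_lit 8396859) (.two (nat_lit 2097155) (nat_lit 4202543) (.two (nat_lit 2097153) (nat_lit 1056902) (.two (nat_lit 1048576) (nat_lit 2105541) (.one (nat_lit 1057043) .nil)))))))))))))),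
   .two (nat_lit 156380432033) (nat_lit 11543777285) (.two (nat_lit 8391823) (nat_lit 156380432865) (.two (nat_lit 8391823) (nat_lit 156380432033) (.two (nat_lit 16779431) (nat_lit 2416972675) (.two (nat_lit 8389448) (nat_lit 1948260453) (.two (nat_lit 8388799) (nat_lit 102767503) (.two (nat_lit 8388672) (nat_lit 1055974) (.two (nat_lit 41943055) (nat_lit 285220502) (.two (nat_lit 41943048) (nat_lit 1056623) (.two (nat_lit 4194306) (nat_lit 8396860) (.two (nat_lit 2097155) (nat_lit 4202543) (.two (nat_lit 2097153) (nat_lit 1056902) (.two (nat_lit 1048576) (nat_lit 2105541) (.one (nat_lit 1057044) .nil))))))))))))),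
   .two (nat_lit 8391823) (nat_lit 156380432865) (.two (nat_lit 8391823) (nat_lit 156380432033) (.two (nat_lit 16779431) (nat_lit 2416972675) (.two (nat_lit 8389448) (nat_lit 1948260453) (.two (nat_lit 8388799) (nat_lit 102767503) (.two (nat_lit 8388672) (nat_lit 1055974) (.two (nat_lit 41943055) (nat_lit 285220502) (.two (nat_lit 41943048) (nat_lit 1056623) (.two (nat_lit 4194306) (nat_lit 8396861) (.two (nat_lit 2097155) (nat_lit 4202543) (.two (nat_lit 2097153) (nat_lit 1056902) (.two (nat_lit 1048576) (nat_lit 2105541) (.one (nat_lit 1057045) .nil)))))))))))),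
   .two (nat_lit 8391823) (nat_lit 156380432033) (.two (nat_lit 16779431) (nat_lit 2416972675) (.two (nat_lit 8389448) (nat_lit 1948260453) (.two (nat_lit 8388799) (nat_lit 102767503) (.two (nat_lit 8388672) (nat_lit 1055974) (.two (nat_lit 41943055) (nat_lit 285220502) (.two (nat_lit 41943048) (nat_lit 1056623) (.two (nat_lit 4194306) (nat_lit 2105406) (.two (nat_lit 713031684) (nat_lit 2887786275) (.two (nat_lit 2097153) (nat_lit 1056902) (.two (nat_lit 1048576) (nat_lit 2105541) (.one (nat_lit 2105622) .nil))))))))))),
   .two (nat_lit 46474988686) (nat_lit 46473939426) (.two (nat_lit 46474988686) (nat_lit 2961182026) (.two (nat_lit 16780429) (nat_lit 12617516706) (.two (nat_lit 9766439083) (nat_lit 16782209) (.two (nat_lit 2887779145) (nat_lit 156380434623) (.two (nat_lit 2887779145) (nat_lit 156380434622) (.two (nat_lit 2887779145) (nat_lit 822089307) (.two (nat_lit 8388799) (nat_lit 50337374) (.two (nat_lit 8388799) (nat_lit 285218395) (.two (nat_lit 8388799) (nat_lit 9781122683) (.two (nat_lit 8388672) (nat_lit 9866058376) (.two (nat_lit 8388672) (nat_lit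 638589575) (.two (nat_lit 8388672) (nat_lit 10369375218) (.two (nat_lit 612368399) (nat_lit 34610721) (.two (nat_lit 2961178632) (nat_lit 169877063) (.two (nat_lit 2887778312) (nat_lit 1182801676) (.two (nat_lit 2097157) (nat_lit 276832257) (.two (nat_lit 2097157) (nat_lit 276832256) (.two (nat_lit 2097153) (nat_lit 9772736608) (.two (nat_lit 8388608) (nat_lit 16785629) (.one (nat_lit 2953847019) .nil)))))))))))))))))))),
   .two (nat_lit 4601154703) (nat_lit 9772730849) (.two (nat_lit 4601154703) (nat_lit 9772730017) (.two (nat_lit 8388835) (nat_lit 2103099) (.two (nat_lit 156372043943) (nat_lit 1052061) (.two (nat_lit 8390107) (nat_lit 807406998) (.two (nat_lit 8388835) (nat_lit 2103743) (.two (nat_lit 46409974600) (nat_lit 20644370048) (.two (nat_lit 4601151679) (nat_lit 1411390086) (.two (nat_lit 4601151679) (nat_lit 1411389048) (.two (nat_lit 4601151554) (nat_lit 1410341511) (.two (nat_lit 4605345858) (nat_lit 156566035444) (.two (nat_lit 4601151552) (nat_lit 10000275064) (.two (nat_lit 4194315) (nat_lit 1056413) (.two (nat_lit 46407876623) (nat_lit 4601158960)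 (.two (nat_lit 4194310) (nat_lit 1056625) (.two (nat_lit 4194312) (nat_lit 28087164707) (.two (nat_lit 4194306) (nat_lit 1056816) (.two (nat_lit 156365750275) (nat_lit 4202511) (.two (nat_lit 156364701697) (nat_lit 2105454) (.two (nat_lit 1048576) (nat_lit 2105525) (.one (nat_lit 1057047) .nil)))))))))))))))))))),
   .two (nat_lit 9772730017) (nat_lit 303042572) (.two (nat_lit 4601154703) (nat_lit 9772730849) (.two (nat_lit 4601154703) (nat_lit 9772730017) (.two (nat_lit 8388835) (nat_lit 2103099) (.two (nat_lit 9772729288) (nat_lit 102766395) (.two (nat_lit 343935143) (nat_lit 773852573) (.two (nat_lit 8390107) (nat_lit 807406998) (.two (nat_lit 8388835) (nat_lit 2103743) (.two (nat_lit 4601151953) (nat_lit 304093282) (.two (nat_lit 46409974600) (nat_lit 20644370048) (.two (nat_lit 4601151679) (nat_lit 1411390086) (.two (nat_lit 4601151679) (nat_lit 1411390086) (.two (nat_lit 4601151679) (nat_lit 1411389048) (.two (nat_lit 339738645) (nat_lit 1056413) (.two (nat_lit 4601151554) (nat_lit 1410341511) (.two (nat_lit 4605345858) (nat_lit 156566035444) (.two (nat_lit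 4194315) (nat_lit 1056413) (.two (nat_lit 46407876623) (nat_lit 4202032) (.two (nat_lit 4194310) (nat_lit 1056625) (.two (nat_lit 2097159) (nat_lit 4202438) (.two (nat_lit 4194306) (nat_lit 1056816) (.two (nat_lit 156365750275) (nat_lit 4202559) (.two (nat_lit 156364701697) (nat_lit 2105455) (.two (nat_lit 1048576) (nat_lit 2105566) (.one (nat_lit 1057048) .nil)))))))))))))))))))))))),
   .two (nat_lit 343937028) (nat_lit 20738737826) (.two (nat_lit 880807053) (nat_lit 1346374168) (.two (nat_lit 4601152988) (nat_lit 880809563) (.two (nat_lit 612368601) (nat_lit 102767452) (.two (nat_lit 4605345983) (nat_lit 19128129144) (.two (nat_lit 4601151552) (nat_lit 1411390476) (.two (nat_lit 37748751) (nat_lit 9772735800) (.two (nat_lit 8388616) (nat_lit 183947501131) (.two (nat_lit 46407876610) (nat_lit 4202604) (.two (nat_lit 2097153) (nat_lit 608182459) (.two (nat_lit 2097152) (nat_lit 608182459) (.one (nat_lit 2105625) .nil))))))))))),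
   .two (nat_lit 50334862) (nat_lit 10335817170) (.two (nat_lit 50333148) (nat_lit 10335817170) (.two (nat_lit 8388799) (nat_lit 641734875) (.two (nat_lit 8388672) (nat_lit 10335820019) (.two (nat_lit 2961178632) (nat_lit 9936314146) (.two (nat_lit 612368387) (nat_lit 16785333) (.two (nat_lit 1048576) (nat_lit 4202742) (.one (nat_lit 4202745) .nil))))))),
   .two (nat_lit 343937028) (nat_lit 183912892066) (.two (nat_lit 343936141) (nat_lit 13222545944) (.two (nat_lit 8388835) (nat_lit 11611937209) (.two (nat_lit 4638901064) (nat_lit 4634711673) (.two (nat_lit 4605345983) (nat_lit 156569179769) (.two (nat_lit 3525312576) (nat_lit 183953792012) (.two (nat_lit 276824079) (nat_lit 270540364) (.two (nat_lit 8388616) (nat_lit 4631567948) (.two (nat_lit 4194306) (nat_lit 165532409955) (.two (nat_lit 156372041729) (nat_lit 1056893) (.two (nat_lit 8388608) (nat_lit 1056896) (.one (nat_lit 8397083) .nil))))))))))),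
   .two (nat_lit 9781119458) (nat_lit 270537343) (.two (nat_lit 713034895) (nat_lit 16782209) (.two (nat_lit 8390108) (nat_lit 184555613) (.two (nat_lit 612368847) (nat_lit 35658586) (.two (nat_lit 8389449) (nat_lit 1358961252) (.two (nat_lit 8388701) (nat_lit 3022003425) (.two (nat_lit 41943231) (nat_lit 1279269081) (.two (nat_lit 41943231) (nat_lit 1279269512) (.two (nat_lit 8388672) (nat_lit 270540319) (.two (nat_lit 8388623) (nat_lit 2105197) (.two (nat_lit 4194310) (nat_lit 2105322) (.two (nat_lit 37748744) (nat_lit 645931006) (.two (nat_lit 4194308) (nat_lit 109060192) (.two (nat_lit 2097153) (nat_lit 608182466) (.two (nat_lit 2097152) (nat_lit 608182510) (.one (nat_lit 185021243677) .nil))))))))))))))),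
   .two (nat_lit 156380432865) (nat_lit 11611934728) (.two (nat_lit 16781316) (nat_lit 11544824290) (.two (nat_lit 713034895) (nat_lit 16782209) (.two (nat_lit 8390108) (nat_lit 184555613) (.two (nat_lit 721420508) (nat_lit 156365755994) (.two (nat_lit 8389449) (nat_lit 1358961252) (.two (nat_lit 8389449) (nat_lit 620762718) (.two (nat_lit 41943231) (nat_lit 1279269081) (.two (nat_lit 41943231) (nat_lit 1279269512) (.two (nat_lit 41943231) (nat_lit 1279269510) (.two (nat_lit 8388672) (nat_lit 270540319) (.two (nat_lit 8388623) (nat_lit 2105197) (.two (nat_lit 37748744) (nat_lit 645931006) (.two (nat_lit 37748744) (nat_lit 2961186817) (.two (nat_lit 4194308) (nat_lit 109060192) (.two (nat_lit 2097153) (nat_lit 608182466) (.two (nat_lit 2097152) (nat_lit 608182508) (.one (nat_lit 185021243677) .nil))))))))))))))))),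
   .two (nat_lit 156380432033) (nat_lit 11511271430) (.two (nat_lit 16781316) (nat_lit 11544824290) (.two (nat_lit 713034895) (nat_lit 16782209) (.two (nat_lit 8390108) (nat_lit 184555613) (.two (nat_lit 8389449) (nat_lit 1358961252) (.two (nat_lit 8389449) (nat_lit 620762718) (.two (nat_lit 8389449) (nat_lit 822089307) (.two (nat_lit 41943231) (nat_lit 1279269512) (.two (nat_lit 41943231) (nat_lit 1279269510) (.two (nat_lit 16777407) (nat_lit 18926803980) (.two (nat_lit 8388672) (nat_lit 270540319) (.two (nat_lit 8388623) (nat_lit 2105197) (.two (nat_lit 37748744) (nat_lit 2961186817) (.two (nat_lit 37748744) (nat_lit 2961186816) (.two (nat_lit 4194308) (nat_lit 109060192) (.two (nat_lit 2097153) (nat_lit 608182466) (.two (nat_lit 2097152) (nat_lit 608182506) (.one (nat_lit 185021243677) .nil))))))))))))))))),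
   .two (nat_lit 16781316) (nat_lit 11544824290) (.two (nat_lit 16781316) (nat_lit 673189191) (.two (nat_lit 713034895) (nat_lit 16782209) (.two (nat_lit 8390108) (nat_lit 184555613) (.two (nat_lit 8389449) (nat_lit 620762718) (.two (nat_lit 8389449) (nat_lit 822089307) (.two (nat_lit 16778056) (nat_lit 673191549) (.two (nat_lit 41943231) (nat_lit 1279269510) (.two (nat_lit 16777407) (nat_lit 18926803980) (.two (nat_lit 16777407) (nat_lit 18926802552) (.two (nat_lit 8388672) (nat_lit 270540319) (.two (nat_lit 8388623) (nat_lit 2105197) (.two (nat_lit 37748744) (nat_lit 2961186816) (.two (nat_lit 37748744) (nat_lit 2961186815) (.two (nat_lit 4194308) (nat_lit 109060192) (.two (nat_lit 2097153) (nat_lit 608182466) (.two (nat_lit 2097152) (nat_lit 608182505) (.one (nat_lit 185021243677) .nil))))))))))))))))),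
   .two (nat_lit 16781316) (nat_lit 673189191) (.two (nat_lit 713034895) (nat_lit 16782209) (.two (nat_lit 8390108) (nat_lit 184555613) (.two (nat_lit 8389449) (nat_lit 822089307) (.two (nat_lit 16778056) (nat_lit 673191549) (.two (nat_lit 16777407) (nat_lit 18926803980) (.two (nat_lit 16777407) (nat_lit 18926802552) (.two (nat_lit 8388672) (nat_lit 270540319) (.two (nat_lit 8388623) (nat_lit 2105197) (.two (nat_lit 37748744) (nat_lit 2961186815) (.two (nat_lit 8388616) (nat_lit 183947501131) (.two (nat_lit 4194308) (nat_lit 109060192) (.two (nat_lit 2097153) (nat_lit 608182466) (.two (nat_lit 2097152) (nat_lit 608182504) (.one (nat_lit 185021243677) .nil)))))))))))))),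
   .two (nat_lit 47596965893) (nat_lit 158144139269) (.two (nat_lit 184552589) (nat_lit 10335817170) (.two (nat_lit 47596965007) (nat_lit 47582285943) (.two (nat_lit 16778715) (nat_lit 10335817170) (.two (nat_lit 16778715) (nat_lit 1054236) (.two (nat_lit 9940501321) (nat_lit 606082650) (.two (nat_lit 8388799) (nat_lit 822090980) (.two (nat_lit 8388672) (nat_lit 2886736532) (.two (nat_lit 8388672) (nat_lit 2886736911) (.two (nat_lit 8388623) (nat_lit 2886737478) (.two (nat_lit 4194312) (nat_lit 41951216) (.two (nat_lit 4194308) (nat_lit 46414176181) (.two (nat_lit 8388613) (nat_lit 806363178) (.two (nat_lit 4194305) (nat_lit 2105520) (.two (nat_lit 1048576) (nat_lit 47584387323) (.one (nat_lit 47581241646) .nil))))))))))))))),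
   .two (nat_lit 47596965893) (nat_lit 158144139269) (.two (nat_lit 184552589) (nat_lit 10335817170) (.two (nat_lit 47596965007) (nat_lit 47582285943) (.two (nat_lit 184552589) (nat_lit 2101364) (.two (nat_lit 16778715) (nat_lit 10335817170) (.two (nat_lit 16778715) (nat_lit 1054236) (.two (nat_lit 612369884) (nat_lit 156380434623) (.two (nat_lit 9940501321) (nat_lit 606082650) (.two (nat_lit 612369225) (nat_lit 50337375) (.two (nat_lit 8388799) (nat_lit 822090980) (.two (nat_lit 8388672) (nat_lit 2886736532) (.two (nat_lit 8388672) (nat_lit 2886736911) (.two (nat_lit 8388672) (nat_lit 2886737198) (.two (nat_lit 8388623) (nat_lit 2886737478) (.two (nat_lit 8388623) (nat_lit 2887786256) (.two (nat_lit 4194312) (nat_lit 41951216) (.two (nat_lit 8388613) (nat_lit 806363178) (.two (nat_lit 8388613) (nat_lit 9766445097) (.two (nat_lit 4194305) (nat_lit 35659951) (.two (nat_lit 1048576) (nat_lit 47584387323) (.one (nat_lit 4202778) .nil)))))))))))))))))))),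
   .two (nat_lit 47596965893) (nat_lit 158144139269) (.two (nat_lit 184552589) (nat_lit 10335817170) (.two (nat_lit 47596965007) (nat_lit 47582285943) (.two (nat_lit 184552589) (nat_lit 2101364) (.two (nat_lit 16778245) (nat_lit 1054515) (.two (nat_lit 16778715) (nat_lit 10335817170) (.two (nat_lit 16778715) (nat_lit 1054236) (.two (nat_lit 612369884) (nat_lit 156380434623) (.two (nat_lit 612369884) (nat_lit 156380434622) (.two (nat_lit 9940501321) (nat_lit 606082650) (.two (nat_lit 612369225) (nat_lit 50337375) (.two (nat_lit 612369225) (nat_lit 50337374) (.two (nat_lit 8388799) (nat_lit 822090980) (.two (nat_lit 8388672) (nat_lit 2886736911) (.two (nat_lit 8388672) (nat_lit 2886737198) (.two (nat_lit 8388672) (nat_lit 2886736910) (.two (nat_lit 8388623) (nat_lit 2887786256) (.two (nat_lit 8388623) (nat_lit 2887786255) (.two (nat_lit 4194312) (nat_lit 41951216) (.two (nat_lit 8388613) (nat_lit 9766445097) (.two (nat_lit 4194307) (nat_lit 1182802016) (.two (nat_lit 4194305) (nat_lit 2105518) (.two (nat_lit 1048576) (nat_lit 47584387323) (.one (nat_lit 4202795)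 .nil))))))))))))))))))))))),
   .two (nat_lit 157051521505) (nat_lit 1948258317) (.two (nat_lit 4647292933) (nat_lit 3527412194) (.two (nat_lit 9765391504) (nat_lit 16782209) (.two (nat_lit 4647290331) (nat_lit 156472711266) (.two (nat_lit 721420508) (nat_lit 156365755994) (.two (nat_lit 2887779145) (nat_lit 1358961252) (.two (nat_lit 2887779145) (nat_lit 620762718) (.two (nat_lit 8388799) (nat_lit 2887784665) (.two (nat_lit 8388799) (nat_lit 203430536) (.two (nat_lit 8388799) (nat_lit 1176509063) (.two (nat_lit 2887778369) (nat_lit 4202015) (.two (nat_lit 8388623) (nat_lit 1056605) (.two (nat_lit 9766436872) (nat_lit 11476672504) (.two (nat_lit 9766436872) (nat_lit 11476672502) (.two (nat_lit 2097157) (nat_lit 1786781792) (.two (nat_lit 2097153) (nat_lit 34611391) (.two (nat_lit 1048576) (nat_lit 35660013) (.one (nat_lit 1057055) .nil))))))))))))))))),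
   .two (nat_lit 9814673057) (nat_lit 1948258317) (.two (nat_lit 4647292933) (nat_lit 3527412194) (.two (nat_lit 9765391504) (nat_lit 16782209) (.two (nat_lit 4647290331) (nat_lit 156472711266) (.two (nat_lit 2887779145) (nat_lit 1358961252) (.two (nat_lit 2887779145) (nat_lit 620762718) (.two (nat_lit 2887779145) (nat_lit 822089307) (.two (nat_lit 8388799) (nat_lit 203430536) (.two (nat_lit 8388799) (nat_lit 1176509063) (.two (nat_lit 8388799) (nat_lit 9766444018) (.two (nat_lit 2887778369) (nat_lit 4202015) (.two (nat_lit 8388623) (nat_lit 1056605) (.two (nat_lit 9766436872) (nat_lit 11476672502) (.two (nat_lit 276824072) (nat_lit 11477721004) (.two (nat_lit 2097157) (nat_lit 1786781792) (.two (nat_lit 2097153) (nat_lit 34611391) (.two (nat_lit 1048576) (nat_lit 807411947) (.one (nat_lit 1057055) .nil))))))))))))))))),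
   .two (nat_lit 4647292933) (nat_lit 3527412194) (.two (nat_lit 4647292933) (nat_lit 158146234849) (.two (nat_lit 9765391504) (nat_lit 16782209) (.two (nat_lit 4647290331) (nat_lit 156472711266) (.two (nat_lit 2887779145) (nat_lit 620762718) (.two (nat_lit 2887779145) (nat_lit 822089307) (.two (nat_lit 16778056) (nat_lit 11007956605) (.two (nat_lit 8388799) (nat_lit 1176509063) (.two (nat_lit 8388799) (nat_lit 9766444018) (.two (nat_lit 8388799) (nat_lit 9781122683) (.two (nat_lit 2887778369) (nat_lit 4202015) (.two (nat_lit 8388623) (nat_lit 1056605) (.two (nat_lit 276824072) (nat_lit 11477721004) (.two (nat_lit 276824072) (nat_lit 183947501482) (.two (nat_lit 2097157) (nat_lit 1786781792) (.two (nat_lit 2097153) (nat_lit 34611391) (.two (nat_lit 1048576) (nat_lit 713040116) (.one (nat_lit 1057055) .nil))))))))))))))))),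
   .two (nat_lit 4647292933) (nat_lit 158146234849) (.two (nat_lit 9765391504) (nat_lit 16782209) (.two (nat_lit 4647290331) (nat_lit 156472711266) (.two (nat_lit 2887779145) (nat_lit 822089307) (.two (nat_lit 16778056) (nat_lit 11007956605) (.two (nat_lit 8388799) (nat_lit 9766444018) (.two (nat_lit 8388799) (nat_lit 9781122683) (.two (nat_lit 2887778369) (nat_lit 4202015) (.two (nat_lit 8388623) (nat_lit 1056605) (.two (nat_lit 276824072) (nat_lit 183947501482) (.two (nat_lit 8388616) (nat_lit 9765396043) (.two (nat_lit 2097157) (nat_lit 1786781792) (.two (nat_lit 2097153) (nat_lit 34611391) (.two (nat_lit 1048576) (nat_lit 11551121651) (.one (nat_lit 1057055) .nil)))))))))))))),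
   .two (nat_lit 352325637) (nat_lit 156372045828) (.two (nat_lit 16780429) (nat_lit 28086111698) (.two (nat_lit 16780429) (nat_lit 1376784579) (.two (nat_lit 16778715) (nat_lit 1745882578) (.two (nat_lit 16778715) (nat_lit 11577331907) (.two (nat_lit 352322376) (nat_lit 46407882969) (.two (nat_lit 4601151679) (nat_lit 318774497) (.two (nat_lit 16777280) (nat_lit 336599702) (.two (nat_lit 4194369) (nat_lit 276831248) (.two (nat_lit 4194319) (nat_lit 169877062) (.two (nat_lit 4194312) (nat_lit 3022004202) (.two (nat_lit 4194308) (nat_lit 46414176181) (.two (nat_lit 4194308) (nat_lit 11610890279) (.two (nat_lit 156364701697) (nat_lit 46407885046) (.two (nat_lit 1048576) (nat_lit 2105598) (.one (nat_lit 185020195120) .nil))))))))))))))),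
   .two (nat_lit 352325637) (nat_lit 156372045828) (.two (nat_lit 16780429) (nat_lit 28086111698) (.two (nat_lit 16780429) (nat_lit 1376784579) (.two (nat_lit 156372044942) (nat_lit 101716159) (.two (nat_lit 16778715) (nat_lit 1745882578) (.two (nat_lit 16778715) (nat_lit 11577331907) (.two (nat_lit 352323035) (nat_lit 13188995259) (.two (nat_lit 352322376) (nat_lit 46407882969) (.two (nat_lit 352322376) (nat_lit 13188995259) (.two (nat_lit 4601151679) (nat_lit 318774497) (.two (nat_lit 16777280) (nat_lit 336599702) (.two (nat_lit 4194369) (nat_lit 276831248) (.two (nat_lit 4194369) (nat_lit 8395794) (.two (nat_lit 4194319) (nat_lit 169877062) (.two (nat_lit 4194319) (nat_lit 169877264) (.two (nat_lit 4194312) (nat_lit 3022004202) (.two (nat_lit 4194308) (nat_lit 11610890279) (.two (nat_lit 4194308) (nat_lit 34611241) (.two (nat_lit 2097153) (nat_lit 16785587) (.two (nat_lit 1048576) (nat_lit 2105598) (.one (nat_lit 16785708) .nil)))))))))))))))))))),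
   .two (nat_lit 352325637) (nat_lit 156372045828) (.two (nat_lit 16780429) (nat_lit 28086111698) (.two (nat_lit 16780429) (nat_lit 1376784579) (.two (nat_lit 156372044942) (nat_lit 101716159) (.two (nat_lit 2954888199) (nat_lit 16782209) (.two (nat_lit 16778715) (nat_lit 1745882578) (.two (nat_lit 16778715) (nat_lit 11577331907) (.two (nat_lit 352323035) (nat_lit 13188995259) (.two (nat_lit 352323035) (nat_lit 236984440) (.two (nat_lit 352322376) (nat_lit 46407882969) (.two (nat_lit 352322376) (nat_lit 13188995259) (.two (nat_lit 1049811) (nat_lit 156380436057) (.two (nat_lit 4601151679) (nat_lit 318774497) (.two (nat_lit 4194369) (nat_lit 276831248) (.two (nat_lit 4194369) (nat_lit 8395794) (.two (nat_lit 4194369) (nat_lit 8395793) (.two (nat_lit 4194319) (nat_lit 169877264) (.two (nat_lit 4194319) (nat_lit 169877263) (.two (nat_lit 4194312) (nat_lit 3022004202) (.two (nat_lit 4194308) (nat_lit 34611241) (.two (nat_lit 2097155) (nat_lit 4202597) (.two (nat_lit 2097153) (nat_lit 16785626) (.two (nat_lit 1048576) (nat_lit 2105598) (.one (nat_lit 16785709) .nil)))))))))))))))))))))))]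

theorem k6 : chkL tab c6 (nat_lit 7800) = true := by decide +kernel

theorem l6 : c6.length = 712 := by decide +kernel

end K2

end Pool.Agent.Work.MP_bf01b2_co.MR
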