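import Pool.Agent.Work.MP_bf01b2_co.MR.K2I

/-!
# Two roots in `Q_5`: certificates of the special vectors, part 1
-/

set_option autoImplicit false
set_option maxRecDepth 100000

namespace Pool.Agent.Work.MP_bf01b2_co.MR

namespace K2

open Tab Exc K4

theorem t3_23 : GF FULL [0, 3] [23, 1] := by
  have h := JT.chkW_ok (zs := [0, 3]) good (by decide) (by decide)
    (L := [([23, 1], [.cov (nat_lit 6917529027641090351),
      .cov (nat_lit 6917529027641090358),
      .cov (nat_lit 6917529027641090359),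
      .rot (.exp (.alt (nat_lit 3) (.cov (nat_lit 8504)) .e)),
      .rot (.exp (.alt (nat_lit 3) (.exp (.alt (nat_lit 0) (.cov (nat_lit 2318903008345195525)) (.alt (nat_lit 0) (.cov (nat_lit 2318903054750975585)) (.alt (nat_lit 0) (.cov (nat_lit 36907201256449114621)) (.alt (nat_lit 0) (.cov (nat_lit 2311411092477184481)) (.alt (nat_lit 0) (.cov (nat_lit 2316835936249316959)) (.alt (nat_lit 0) (.cov (nat_lit 2320532484577559498)) (.alt (nat_lit 0) (.cov (nat_lit 4627083579875131611)) (.alt (nat_lit 0) (.cov (nat_lit 756332764401024106534)) (.alt (nat_lit 0) (.cov (nat_lit 7602369978256905471649)) (.alt (nat_lit 0) (.cov (nat_lit 1478053092032031753889)) (.alt (nat_lit 0) (.cov (nat_lit 2319604508239332300)) (.alt (nat_lit 0) (.cov (nat_lit 2320686416205447634)) (.alt (nat_lit 0) (.cov (nat_lit 21474330878374068617310)) (.alt (nat_lit 0) (.cov (nat_lit 21843267787348305248290)) (.alt (nat_lit 0) (.cov (nat_lit 1551843527234087289059)) (.alt (nat_lit 0) (.cov (nat_lit 2321966248444821724))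 (.alt (nat_lit 0) (.cov (nat_lit 445042636544203030621)) (.alt (nat_lit 0) (.cov (nat_lit 6348001597750329212964)) (.alt (nat_lit 0) (.cov (nat_lit 21490474534814867259408)) (.alt (nat_lit 0) (.cov (nat_lit 1332795225345517158407)) (.alt (nat_lit 0) (.cov (nat_lit 6348002231069026811922)) (.alt (nat_lit 0) (.cov (nat_lit 25237469220277793587211)) (.alt (nat_lit 0) (.cov (nat_lit 2323837616518070278)) (.alt (nat_lit 0) (.cov (nat_lit 2324086106145947651)) (.alt (nat_lit 0) (.cov (nat_lit 2324167470006403074)) (.alt (nat_lit 0) (.cov (nat_lit 2324312605541269505)) (.alt (nat_lit 0) (.cov (nat_lit 4630217187402973184)) (.alt (nat_lit 0) (.cov (nat_lit 1057056)) .e))))))))))))))))))))))))))))) .e)),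
      .rot (.exp (.alt (nat_lit 3) (.exp (.alt (nat_lit 0) (.cov (nat_lit 2318903054750975585)) (.alt (nat_lit 0) (.cov (nat_lit 1480358686551617571297)) (.alt (nat_lit 0) (.cov (nat_lit 2318071787318937183)) (.alt (nat_lit 0) (.cov (nat_lit 2318285082810385354)) (.alt (nat_lit 0) (.cov (nat_lit 4627083579875131611)) (.alt (nat_lit 0) (.cov (nat_lit 756332764401024106534)) (.alt (nat_lit 0) (.cov (nat_lit 2311411092477183649)) (.alt (nat_lit 0) (.cov (nat_lit 4620948460760204961)) (.alt (nat_lit 0) (.cov (nat_lit 2318287293309256652)) (.alt (nat_lit 0) (.cov (nat_lit 2320688615228703186)) (.alt (nat_lit 0) (.cov (nat_lit 21474331676619510382686)) (.alt (nat_lit 0) (.cov (nat_lit 21843267787348305248290)) (.alt (nat_lit 0) (.cov (nat_lit 2319606695786971363)) (.alt (nat_lit 0) (.cov (nat_lit 2321968447468077276)) (.alt (nat_lit 0) (.cov (nat_lit 21474330878374068617309)) (.alt (nat_lit 0) (.cov (nat_lit 6348001595551305957412)) (.alt (nat_lit 0) (.cov (nat_lit 21490474534814867259408))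 (.alt (nat_lit 0) (.cov (nat_lit 1332795225345517158407)) (.alt (nat_lit 0) (.cov (nat_lit 6348001597750329212946)) (.alt (nat_lit 0) (.cov (nat_lit 25237469218078770331659)) (.alt (nat_lit 0) (.cov (nat_lit 2323672689773903878)) (.alt (nat_lit 0) (.cov (nat_lit 2324088305169203203)) (.alt (nat_lit 0) (.cov (nat_lit 2324169669029658626)) (.alt (nat_lit 0) (.cov (nat_lit 2324314804564525057)) (.alt (nat_lit 0) (.cov (nat_lit 4630265565914595328)) (.alt (nat_lit 0) (.cov (nat_lit 1057057)) .e))))))))))))))))))))))))))) .e)),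
      .rot (.exp (.alt (nat_lit 3) (.exp (.alt (nat_lit 0) (.cov (nat_lit 299767241609467397727)) (.alt (nat_lit 0) (.cov (nat_lit 1480358686551617570465)) (.alt (nat_lit 0) (.exp (.alt (nat_lit 1) (.cov (nat_lit 20309305785399443034262943563783)) (.alt (nat_lit 1) (.cov (nat_lit 81153783082424943304823043784707)) (.alt (nat_lit 1) (.cov (nat_lit 5851499334662828573931445544812545)) (.alt (nat_lit 1) (.exp (.alt (nat_lit 5) (.exp (.alt (nat_lit 9) (.cov (nat_lit 81156539432002392512609062486018)) (.alt (nat_lit 9) (.cov (nat_lit 10168110654924824498305495990273)) (.alt (nat_lit 9) (.cov (nat_lit 81159479547417114808801118126080)) (.alt (nat_lit 9) (.cov (nat_lit 10113438426930764316765)) .e))))) .e)) (.alt (nat_lit 1) (.cov (nat_lit 4620950503420854779)) .e)))))) (.alt (nat_lit 0) (.exp (.alt (nat_lit 1) (.cov (nat_lit 81159808367381736983949063749638)) (.alt (nat_lit 1) (.cov (nat_lit 243419085196595100393119260082179)) (.alt (nat_lit 1) (.cov (nat_lit 1632764157555172525424144599220225))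 (.alt (nat_lit 1) (.cov (nat_lit 1632764157553844359982778906836992)) (.alt (nat_lit 1) (.exp (.alt (nat_lit 5) (.cov (nat_lit 1308247093292424003226836841529346)) (.alt (nat_lit 5) (.cov (nat_lit 56182304786575021188378429167239169)) (.alt (nat_lit 5) (.cov (nat_lit 1632764157553853583187689993142272)) (.alt (nat_lit 5) (.cov (nat_lit 742495175269984239709)) .e))))) .e)))))) (.alt (nat_lit 0) (.exp (.alt (nat_lit 1) (.cov (nat_lit 6247016051369013958919572526465027)) (.alt (nat_lit 1) (.cov (nat_lit 983730725371482534697842949226498)) (.alt (nat_lit 1) (.cov (nat_lit 3093101324151256258805949269016577)) (.alt (nat_lit 1) (.cov (nat_lit 3093101324151256258852128757383168)) (.alt (nat_lit 1) (.cov (nat_lit 4627083579272200286)) .e)))))) (.alt (nat_lit 0) (.cov (nat_lit 627205562482131206238)) (.alt (nat_lit 0) (.cov (nat_lit 2320534683600814307)) (.alt (nat_lit 0) (.cov (nat_lit 9239499674031751385)) (.alt (nat_lit 0) (.cov (nat_lit 21474331676619510382685)) (.alt (nat_lit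 0) (.cov (nat_lit 21843267787347869040675)) (.alt (nat_lit 0) (.cov (nat_lit 21490474534814867259408)) (.alt (nat_lit 0) (.cov (nat_lit 1332795225345517158407)) (.alt (nat_lit 0) (.cov (nat_lit 6348001595551305957394)) (.alt (nat_lit 0) (.exp (.alt (nat_lit 1) (.exp (.alt (nat_lit 5) (.exp (.alt (nat_lit 9) (.exp (.alt (nat_lit 8) (.exp (.alt (nat_lit 10) (.exp (.alt (nat_lit 2) (.exp (.alt (nat_lit 6) (.cov (nat_lit 1389349119840925611009748355776514)) (.alt (nat_lit 6) (.cov (nat_lit 17128501012966658962134754299740161)) (.alt (nat_lit 6) (.cov (nat_lit 17128501012966658962156744488255488)) (.alt (nat_lit 6) (.cov (nat_lit 21956239935293033021533)) .e))))) (.alt (nat_lit 2) (.cov (nat_lit 23109161934686995349542)) (.alt (nat_lit 2) (.cov (nat_lit 23109161934675788169310)) (.alt (nat_lit 2) (.cov (nat_lit 365333161759261249765410)) (.alt (nat_lit 2) (.cov (nat_lit 365333161759261786636324)) (.alt (nat_lit 2) (.cov (nat_lit 25248989975692884049935)) (.alt (nat_lit 2) (.cov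 (nat_lit 25248991937210957692935)) (.alt (nat_lit 2) (.cov (nat_lit 41516153900443369478)) (.alt (nat_lit 2) (.cov (nat_lit 115305870178257993731)) (.alt (nat_lit 2) (.cov (nat_lit 6534773458740065599490)) (.alt (nat_lit 2) (.cov (nat_lit 21882465570391993614337)) (.alt (nat_lit 2) (.cov (nat_lit 1591048501084383346688)) (.alt (nat_lit 2) (.cov (nat_lit 6299167)) .e)))))))))))))) .e)) .e)) .e)) .e)) (.alt (nat_lit 1) (.exp (.alt (nat_lit 5) (.exp (.alt (nat_lit 4) (.exp (.alt (nat_lit 6) (.exp (.alt (nat_lit 12) (.exp (.alt (nat_lit 2) (.exp (.alt (nat_lit 10) (.cov (nat_lit 3011941888134601853898680948490242)) (.alt (nat_lit 10) (.cov (nat_lit 770011545500491439176535924221673473)) (.alt (nat_lit 10) (.cov (nat_lit 770011545500491439176557914417528832)) (.alt (nat_lit 10) (.cov (nat_lit 6608548866147071557725)) .e))))) (.alt (nat_lit 2) (.cov (nat_lit 104579207136213788000294)) (.alt (nat_lit 2) (.cov (nat_lit 10131877478820850171998)) (.alt (nat_lit 2) (.cov (nat_lit 102070453711315719421986))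 (.alt (nat_lit 2) (.cov (nat_lit 102070453711315148996644)) (.alt (nat_lit 2) (.cov (nat_lit 96854431178468360207)) (.alt (nat_lit 2) (.cov (nat_lit 96856392707212312583)) (.alt (nat_lit 2) (.cov (nat_lit 41516153888971948038)) (.alt (nat_lit 2) (.cov (nat_lit 115305870166820126723)) (.alt (nat_lit 2) (.cov (nat_lit 21882464528054941122562)) (.alt (nat_lit 2) (.cov (nat_lit 6534774501065650864129)) (.alt (nat_lit 2) (.cov (nat_lit 115308975187623411712)) (.alt (nat_lit 2) (.cov (nat_lit 11553218079)) .e)))))))))))))) .e)) .e)) .e)) .e)) .e))) (.alt (nat_lit 0) (.cov (nat_lit 2323668291727392774)) (.alt (nat_lit 0) (.cov (nat_lit 2323945368657592323)) (.alt (nat_lit 0) (.exp (.alt (nat_lit 1) (.exp (.alt (nat_lit 5) (.exp (.alt (nat_lit 9) (.exp (.alt (nat_lit 2) (.exp (.alt (nat_lit 6) (.cov (nat_lit 47308727649236786401732892018343942)) (.alt (nat_lit 6) (.cov (nat_lit 50513351853155814097318092690423811)) (.alt (nat_lit 6) (.cov (nat_lit 5770347983940513142664545406287874))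 (.alt (nat_lit 6) (.cov (nat_lit 8488199149553849700495846908362753)) (.alt (nat_lit 6) (.cov (nat_lit 769970981827345803607164770351841280)) (.alt (nat_lit 6) (.cov (nat_lit 406810662042070243344849)) .e))))))) (.alt (nat_lit 2) (.exp (.alt (nat_lit 6) (.cov (nat_lit 1389360696514592687442787567665154)) (.alt (nat_lit 6) (.cov (nat_lit 50026578964756924591747424858406913)) (.alt (nat_lit 6) (.cov (nat_lit 99840176811090032077680282903248896)) (.alt (nat_lit 6) (.cov (nat_lit 45402055916879377072221)) .e))))) (.alt (nat_lit 2) (.cov (nat_lit 23065906771224690726)) (.alt (nat_lit 2) (.cov (nat_lit 350142268078332839985618)) (.alt (nat_lit 2) (.cov (nat_lit 6368747411841635844190)) (.alt (nat_lit 2) (.cov (nat_lit 539579488526904852514)) (.alt (nat_lit 2) (.cov (nat_lit 13848115855392505892)) (.alt (nat_lit 2) (.cov (nat_lit 604144579324005056527)) (.alt (nat_lit 2) (.cov (nat_lit 13849899263252758535)) (.alt (nat_lit 2) (.cov (nat_lit 604144579324005056523)) (.alt (nat_lit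 2) (.cov (nat_lit 530359324864375947270)) (.alt (nat_lit 2) (.cov (nat_lit 677934671634796380163)) (.alt (nat_lit 2) (.cov (nat_lit 6663902554006510108674)) (.alt (nat_lit 2) (.cov (nat_lit 613371197119172444161)) (.alt (nat_lit 2) (.cov (nat_lit 6368755431679436259328)) (.alt (nat_lit 2) (.exp (.alt (nat_lit 6) (.cov (nat_lit 404311129794583686283729)) (.alt (nat_lit 6) (.cov (nat_lit 45609579604079221407961)) (.alt (nat_lit 6) (.cov (nat_lit 343879598401536776994909)) (.alt (nat_lit 6) (.cov (nat_lit 343879600352071008649252)) (.alt (nat_lit 6) (.cov (nat_lit 9231020239752265744)) (.alt (nat_lit 6) (.cov (nat_lit 343879600352070572441618)) (.alt (nat_lit 6) (.cov (nat_lit 378169242030444642315)) (.alt (nat_lit 6) (.cov (nat_lit 10191839827027870875654)) (.alt (nat_lit 6) (.cov (nat_lit 606452108984655544323)) (.alt (nat_lit 6) (.cov (nat_lit 9237289655221616642)) (.alt (nat_lit 6) (.cov (nat_lit 1344322206184572452865)) (.alt (nat_lit 6) (.cov (nat_lit 1780127761980325888000))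 (.alt (nat_lit 6) (.exp (.alt (nat_lit 7) (.exp (.alt (nat_lit 15) (.cov (nat_lit 278887194042546181800816651796482)) (.alt (nat_lit 15) (.cov (nat_lit 63884525751759826748514878344921089)) (.alt (nat_lit 15) (.cov (nat_lit 63884525751759826748536867970351104)) (.alt (nat_lit 15) (.cov (nat_lit 717119977606086656093)) .e))))) (.alt (nat_lit 7) (.cov (nat_lit 10143406693867527864358)) (.alt (nat_lit 7) (.cov (nat_lit 10143406693866923884638)) (.alt (nat_lit 7) (.cov (nat_lit 102081982926361222709282)) (.alt (nat_lit 7) (.cov (nat_lit 102081982926361793134628)) (.alt (nat_lit 7) (.cov (nat_lit 1362762243237362008079)) (.alt (nat_lit 7) (.cov (nat_lit 1362764204766105960455)) (.alt (nat_lit 7) (.cov (nat_lit 53045368935213432838)) (.alt (nat_lit 7) (.cov (nat_lit 1381213682225713774595)) (.alt (nat_lit 7) (.cov (nat_lit 1823936190905190449154)) (.alt (nat_lit 7) (.cov (nat_lit 643345612525238484993)) (.alt (nat_lit 7) (.cov (nat_lit 1381216787245946634240)) (.alt (nat_lit 7)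 (.cov (nat_lit 11558460959)) .e)))))))))))))) .e)))))))))))))) .e))))))))))))))))) .e)) .e)) .e)) (.alt (nat_lit 0) (.exp (.alt (nat_lit 1) (.exp (.alt (nat_lit 5) (.exp (.alt (nat_lit 2) (.cov (nat_lit 23063769320620294651)) (.alt (nat_lit 2) (.cov (nat_lit 345346114597178124010442)) (.alt (nat_lit 2) (.exp (.alt (nat_lit 6) (.cov (nat_lit 50731382437172141080833620443138)) (.alt (nat_lit 6) (.cov (nat_lit 100326958940517886717460969036972033)) (.alt (nat_lit 6) (.cov (nat_lit 91290669599906478667939229728768)) (.alt (nat_lit 6) (.cov (nat_lit 41514190161208934493)) .e))))) (.alt (nat_lit 2) (.cov (nat_lit 23070654462433427494)) (.alt (nat_lit 2) (.cov (nat_lit 41516153888971948126)) (.alt (nat_lit 2) (.cov (nat_lit 41518887275482578978)) (.alt (nat_lit 2) (.cov (nat_lit 344303880176073525166116)) (.alt (nat_lit 2) (.cov (nat_lit 1637163947296708100111)) (.alt (nat_lit 2) (.cov (nat_lit 382783927516412248071)) (.alt (nat_lit 2) (.cov (nat_lit 102282600460079975104518)) (.alt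 (nat_lit 2) (.cov (nat_lit 13852014723616210947)) (.alt (nat_lit 2) (.cov (nat_lit 613371197119172444162)) (.alt (nat_lit 2) (.cov (nat_lit 23076110239117869057)) (.alt (nat_lit 2) (.exp (.alt (nat_lit 6) (.exp (.alt (nat_lit 10) (.cov (nat_lit 18447245453924762065)) (.alt (nat_lit 10) (.cov (nat_lit 25366408364434653401)) (.alt (nat_lit 10) (.cov (nat_lit 7625431238335887573085)) (.alt (nat_lit 10) (.cov (nat_lit 59960934235086258211)) (.alt (nat_lit 10) (.cov (nat_lit 59962897962853466128)) (.alt (nat_lit 10) (.cov (nat_lit 25373313286249906194)) (.alt (nat_lit 10) (.cov (nat_lit 59962897962685693963)) (.alt (nat_lit 10) (.cov (nat_lit 6666205865939965050886)) (.alt (nat_lit 10) (.cov (nat_lit 475019070653004251139)) (.alt (nat_lit 10) (.cov (nat_lit 6518632104665311870978)) (.alt (nat_lit 10) (.cov (nat_lit 21497390106711647322113)) (.alt (nat_lit 10) (.cov (nat_lit 608759511100750299136)) (.alt (nat_lit 10) (.exp (.alt (nat_lit 11) (.exp (.alt (nat_lit 9) (.cov (nat_lit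 3219836586570883165925551840952322)) (.alt (nat_lit 9) (.cov (nat_lit 764864884010372458372454090466656257)) (.alt (nat_lit 9) (.cov (nat_lit 47455771932135397721509779684196352)) (.alt (nat_lit 9) (.cov (nat_lit 21580386570410791010397)) .e))))) (.alt (nat_lit 11) (.cov (nat_lit 34592628125736108070)) (.alt (nat_lit 11) (.cov (nat_lit 21580388019567118516318)) (.alt (nat_lit 11) (.cov (nat_lit 102081984296362445897762)) (.alt (nat_lit 11) (.cov (nat_lit 365353914370533438259236)) (.alt (nat_lit 11) (.cov (nat_lit 62266777244166782991)) (.alt (nat_lit 11) (.cov (nat_lit 62268740971933990919)) (.alt (nat_lit 11) (.cov (nat_lit 62268740971900436486)) (.alt (nat_lit 11) (.cov (nat_lit 21534281576155725168643)) (.alt (nat_lit 11) (.cov (nat_lit 104576911714375745667074)) (.alt (nat_lit 11) (.cov (nat_lit 624898850858732617729)) (.alt (nat_lit 11) (.cov (nat_lit 2838506732328995258368)) (.alt (nat_lit 11) (.cov (nat_lit 277880351)) .e)))))))))))))) .e)))))))))))))) .e)) (.alt (nat_lit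 2) (.cov (nat_lit 6299687)) .e)))))))))))))))) .e)) .e)) (.alt (nat_lit 0) (.cov (nat_lit 4630263366891339776)) (.alt (nat_lit 0) (.exp (.alt (nat_lit 1) (.cov (nat_lit 350204526187027283051525)) (.alt (nat_lit 1) (.exp (.alt (nat_lit 5) (.cov (nat_lit 14162215523703778438749393458823174)) (.alt (nat_lit 5) (.cov (nat_lit 86220067198991255218943203213315)) (.alt (nat_lit 5) (.cov (nat_lit 45660780138304305911370506829826)) (.alt (nat_lit 5) (.cov (nat_lit 86220067198991255383869947379713)) (.alt (nat_lit 5) (.cov (nat_lit 224450238158959809444389861522931712)) (.alt (nat_lit 5) (.exp (.alt (nat_lit 4) (.cov (nat_lit 17245141594860056497494063006613510)) (.alt (nat_lit 4) (.cov (nat_lit 45655306020143396767716517871619)) (.alt (nat_lit 4) (.cov (nat_lit 86220067200317114984425448275969)) (.alt (nat_lit 4) (.cov (nat_lit 86220067198988949543059755892736)) (.alt (nat_lit 4) (.exp (.alt (nat_lit 6) (.cov (nat_lit 1343734994669966130607470889926658)) (.alt (nat_lit 6) (.cov (nat_lit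 11728323208709290501887455402131457)) (.alt (nat_lit 6) (.cov (nat_lit 86220067198993561061952411664384)) (.alt (nat_lit 6) (.cov (nat_lit 39208347151995240541)) .e))))) .e)))))) .e))))))) (.alt (nat_lit 1) (.cov (nat_lit 11540210162364056059)) (.alt (nat_lit 1) (.cov (nat_lit 39210310879757206477)) (.alt (nat_lit 1) (.exp (.alt (nat_lit 5) (.cov (nat_lit 45665693111156766366277789810690)) (.alt (nat_lit 5) (.cov (nat_lit 48114976337708349606502309775278081)) (.alt (nat_lit 5) (.cov (nat_lit 14040528222916356408120387569713152)) (.alt (nat_lit 5) (.cov (nat_lit 629508865619489980509)) .e))))) (.alt (nat_lit 1) (.cov (nat_lit 21926276015820985335846)) (.alt (nat_lit 1) (.cov (nat_lit 11542956742410240466)) (.alt (nat_lit 1) (.cov (nat_lit 11544610407890026590)) (.alt (nat_lit 1) (.cov (nat_lit 2815448302237462298658)) (.alt (nat_lit 1) (.cov (nat_lit 21852488190703162097700)) (.alt (nat_lit 1) (.cov (nat_lit 11545012829145792527)) (.alt (nat_lit 1) (.cov (nat_lit 6504800169223047348231))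 (.alt (nat_lit 1) (.cov (nat_lit 611065354109957701643)) (.alt (nat_lit 1) (.cov (nat_lit 1348935840536990842886)) (.alt (nat_lit 1) (.exp (.alt (nat_lit 5) (.exp (.alt (nat_lit 4) (.exp (.alt (nat_lit 6) (.exp (.alt (nat_lit 9) (.cov (nat_lit 398911341971498861009)) (.alt (nat_lit 9) (.cov (nat_lit 18448879326591975641)) (.alt (nat_lit 9) (.cov (nat_lit 102065843366703834071133)) (.alt (nat_lit 9) (.cov (nat_lit 57655091225701646371)) (.alt (nat_lit 9) (.cov (nat_lit 57657054953468854288)) (.alt (nat_lit 9) (.cov (nat_lit 387390665735483162642)) (.alt (nat_lit 9) (.cov (nat_lit 57657054953636626443)) (.alt (nat_lit 9) (.cov (nat_lit 756330233325432078342)) (.alt (nat_lit 9) (.cov (nat_lit 6371059645212592701443)) (.alt (nat_lit 9) (.cov (nat_lit 608756472050778898434)) (.alt (nat_lit 9) (.cov (nat_lit 1420415025488019324929)) (.alt (nat_lit 9) (.cov (nat_lit 6523246829733872140288)) (.alt (nat_lit 9) (.exp (.alt (nat_lit 8) (.exp (.alt (nat_lit 12) (.cov (nat_lit 47339148076913817238264363819728898))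 (.alt (nat_lit 12) (.cov (nat_lit 58697299442432800122136182705356801)) (.alt (nat_lit 12) (.cov (nat_lit 3295895622590708166603241524559872)) (.alt (nat_lit 12) (.cov (nat_lit 1498799803171417882717)) .e))))) (.alt (nat_lit 8) (.cov (nat_lit 391998294562982330406)) (.alt (nat_lit 8) (.cov (nat_lit 1498801252327739097182)) (.alt (nat_lit 8) (.cov (nat_lit 7623125423914343202850)) (.alt (nat_lit 8) (.cov (nat_lit 41860281078919353860132)) (.alt (nat_lit 8) (.cov (nat_lit 55349248217090883599)) (.alt (nat_lit 8) (.cov (nat_lit 55351211944858091527)) (.alt (nat_lit 8) (.cov (nat_lit 55351211944421883910)) (.alt (nat_lit 8) (.cov (nat_lit 1457306494932254457859)) (.alt (nat_lit 8) (.cov (nat_lit 10136499586010645004290)) (.alt (nat_lit 8) (.cov (nat_lit 6516327739399723810817)) (.alt (nat_lit 8) (.cov (nat_lit 25258218310913744699392)) (.alt (nat_lit 8) (.cov (nat_lit 2965380639)) .e)))))))))))))) .e)))))))))))))) .e)) .e)) .e)) (.alt (nat_lit 1) (.cov (nat_lit 20770555301949603842))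 (.alt (nat_lit 1) (.cov (nat_lit 20770834577903058945)) (.alt (nat_lit 1) (.exp (.alt (nat_lit 5) (.exp (.alt (nat_lit 9) (.exp (.alt (nat_lit 8) (.cov (nat_lit 844777590581168144000662417491099654)) (.alt (nat_lit 8) (.cov (nat_lit 139111995355964790883199489734082563)) (.alt (nat_lit 8) (.cov (nat_lit 1526266869462654671271291191820289)) (.alt (nat_lit 8) (.cov (nat_lit 1526266869461474079782505411510272)) (.alt (nat_lit 8) (.exp (.alt (nat_lit 10) (.cov (nat_lit 47283388704299413752861430661513218)) (.alt (nat_lit 10) (.cov (nat_lit 47283375290058519308947110116720641)) (.alt (nat_lit 10) (.cov (nat_lit 1526266869467234075452395452628992)) (.alt (nat_lit 10) (.cov (nat_lit 694065815633384177757)) .e))))) .e)))))) (.alt (nat_lit 9) (.cov (nat_lit 694067763972349624785)) (.alt (nat_lit 9) (.cov (nat_lit 22018505876903996424286)) (.alt (nat_lit 9) (.cov (nat_lit 21490463997105045242083)) (.alt (nat_lit 9) (.cov (nat_lit 21490464320363175084249)) (.alt (nat_lit 9) (.cov (nat_lit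 102213419900944128147549)) (.alt (nat_lit 9) (.cov (nat_lit 92247437875910541347)) (.alt (nat_lit 9) (.cov (nat_lit 6364142188752832299024)) (.alt (nat_lit 9) (.cov (nat_lit 6364143310264188534791)) (.alt (nat_lit 9) (.cov (nat_lit 6364140464721217191954)) (.alt (nat_lit 9) (.cov (nat_lit 21490471684883467993099)) (.alt (nat_lit 9) (.cov (nat_lit 21497390656470364717062)) (.alt (nat_lit 9) (.cov (nat_lit 6364143675302048956419)) (.alt (nat_lit 9) (.cov (nat_lit 21497391945097992470530)) (.alt (nat_lit 9) (.exp (.alt (nat_lit 8) (.exp (.alt (nat_lit 10) (.exp (.alt (nat_lit 11) (.exp (.alt (nat_lit 15) (.cov (nat_lit 47354359884141758855173029783142402)) (.alt (nat_lit 15) (.cov (nat_lit 50924066015026630708541468717350913)) (.alt (nat_lit 15) (.cov (nat_lit 50924066015026630708563458915303424)) (.alt (nat_lit 15) (.cov (nat_lit 102257222731167441092701)) .e))))) (.alt (nat_lit 11) (.cov (nat_lit 7782223452432910778406)) (.alt (nat_lit 11) (.cov (nat_lit 698673728127906087006))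 (.alt (nat_lit 11) (.cov (nat_lit 6454061648260642111522)) (.alt (nat_lit 11) (.cov (nat_lit 6454061648251683078180)) (.alt (nat_lit 11) (.cov (nat_lit 1805484101006596767759)) (.alt (nat_lit 11) (.cov (nat_lit 1805486062535340720135)) (.alt (nat_lit 11) (.cov (nat_lit 62268740971900436486)) (.alt (nat_lit 11) (.cov (nat_lit 136058457249748615171)) (.alt (nat_lit 11) (.cov (nat_lit 1464224681467686420482)) (.alt (nat_lit 11) (.cov (nat_lit 504995031971846422529)) (.alt (nat_lit 11) (.cov (nat_lit 1833162017051830648832)) (.alt (nat_lit 11) (.cov (nat_lit 753933855)) .e)))))))))))))) .e)) .e)) (.alt (nat_lit 9) (.cov (nat_lit 2607926444625066196992)) (.alt (nat_lit 9) (.exp (.alt (nat_lit 8) (.exp (.alt (nat_lit 10) (.cov (nat_lit 48150447647794685627660098772926470)) (.alt (nat_lit 10) (.cov (nat_lit 764464311106502793758806714288701443)) (.alt (nat_lit 10) (.cov (nat_lit 48150442850771130438732135738114050)) (.alt (nat_lit 10) (.cov (nat_lit 47440566793388363983160387540353025))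 (.alt (nat_lit 10) (.cov (nat_lit 4117336398261153753310930985287680)) (.alt (nat_lit 10) (.cov (nat_lit 691756201300193182161)) .e))))))) (.alt (nat_lit 8) (.exp (.alt (nat_lit 10) (.cov (nat_lit 1095265757267998369628948250230786)) (.alt (nat_lit 10) (.cov (nat_lit 759109759913227503351488706148040705)) (.alt (nat_lit 10) (.cov (nat_lit 55715794718352177973716430678392832)) (.alt (nat_lit 10) (.cov (nat_lit 25336610050702084931677)) .e))))) (.alt (nat_lit 8) (.cov (nat_lit 21499687694597340790822)) (.alt (nat_lit 8) (.cov (nat_lit 26664775687790340866514)) (.alt (nat_lit 8) (.cov (nat_lit 6520933050450014371934)) (.alt (nat_lit 8) (.cov (nat_lit 102075070556242911952930)) (.alt (nat_lit 8) (.cov (nat_lit 1793958918978134868004)) (.alt (nat_lit 8) (.cov (nat_lit 96859117306763018255)) (.alt (nat_lit 8) (.cov (nat_lit 1793960702385995120647)) (.alt (nat_lit 8) (.cov (nat_lit 465793998774075392011)) (.alt (nat_lit 8) (.cov (nat_lit 102070462078601494790150)) (.alt (nat_lit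 8) (.cov (nat_lit 344239319672448111083523)) (.alt (nat_lit 8) (.cov (nat_lit 10210289102180061282306)) (.alt (nat_lit 8) (.cov (nat_lit 470408930557691953153)) (.alt (nat_lit 8) (.cov (nat_lit 6520941070287544254464)) (.alt (nat_lit 8) (.exp (.alt (nat_lit 10) (.cov (nat_lit 103334053487949517947345)) (.alt (nat_lit 10) (.cov (nat_lit 406886756444671144100057)) (.alt (nat_lit 10) (.cov (nat_lit 21578085945683763789917)) (.alt (nat_lit 10) (.cov (nat_lit 21578087896217928335396)) (.alt (nat_lit 10) (.cov (nat_lit 615667731663759081488)) (.alt (nat_lit 10) (.cov (nat_lit 21578087896228598644754)) (.alt (nat_lit 10) (.cov (nat_lit 25260521154466728116235)) (.alt (nat_lit 10) (.cov (nat_lit 1943839383081795452934)) (.alt (nat_lit 10) (.cov (nat_lit 1406579633192678981635)) (.alt (nat_lit 10) (.cov (nat_lit 1796265621807142273026)) (.alt (nat_lit 10) (.cov (nat_lit 25239773310665512452097)) (.alt (nat_lit 10) (.cov (nat_lit 25381231968699547648)) (.alt (nat_lit 10) (.exp (.alt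 (nat_lit 2) (.exp (.alt (nat_lit 6) (.cov (nat_lit 1389349119840925611009748355776514)) (.alt (nat_lit 6) (.cov (nat_lit 17128501012966658962134754299740161)) (.alt (nat_lit 6) (.cov (nat_lit 17128501012966658962156744488255488)) (.alt (nat_lit 6) (.cov (nat_lit 21956239935293033021533)) .e))))) (.alt (nat_lit 2) (.cov (nat_lit 23109161934686995349542)) (.alt (nat_lit 2) (.cov (nat_lit 23109161934675788169310)) (.alt (nat_lit 2) (.cov (nat_lit 365333161759261249765410)) (.alt (nat_lit 2) (.cov (nat_lit 365333161759261786636324)) (.alt (nat_lit 2) (.cov (nat_lit 25248989975692884049935)) (.alt (nat_lit 2) (.cov (nat_lit 25248991937210957692935)) (.alt (nat_lit 2) (.cov (nat_lit 41516153900443369478)) (.alt (nat_lit 2) (.cov (nat_lit 115305870178257993731)) (.alt (nat_lit 2) (.cov (nat_lit 6534773458740065599490)) (.alt (nat_lit 2) (.cov (nat_lit 21882465570391993614337)) (.alt (nat_lit 2) (.cov (nat_lit 1591048501084383346688)) (.alt (nat_lit 2) (.cov (nat_lit 6299167)) .e))))))))))))))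 .e)))))))))))))) .e))))))))))))))))) .e)))))))))))))))))) .e)) (.alt (nat_lit 1) (.exp (.alt (nat_lit 5) (.exp (.alt (nat_lit 4) (.cov (nat_lit 2956182510677953413439880922398727)) (.alt (nat_lit 4) (.cov (nat_lit 102583375659762989537539796318027779)) (.alt (nat_lit 4) (.cov (nat_lit 4284674565887423346790065013522433)) (.alt (nat_lit 4) (.exp (.alt (nat_lit 6) (.exp (.alt (nat_lit 12) (.cov (nat_lit 894641891453372982959295740982067202)) (.alt (nat_lit 12) (.cov (nat_lit 2956176920604022731438021801934849)) (.alt (nat_lit 12) (.cov (nat_lit 1009065458424191614489965542506496)) (.alt (nat_lit 12) (.cov (nat_lit 458869844089436635229)) .e))))) .e)) (.alt (nat_lit 4) (.cov (nat_lit 1860823704306865668603)) .e)))))) (.alt (nat_lit 5) (.exp (.alt (nat_lit 4) (.cov (nat_lit 6201369792951104204778376781627398)) (.alt (nat_lit 4) (.cov (nat_lit 19506630405903940990652065668661251)) (.alt (nat_lit 4) (.cov (nat_lit 106502476802714406811361054031873)) (.alt (nat_lit 4) (.cov (nat_lit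 106502476802640619967007007178752)) (.alt (nat_lit 4) (.cov (nat_lit 102211112087613360570587)) .e)))))) (.alt (nat_lit 5) (.cov (nat_lit 24232116364217148244434)) (.alt (nat_lit 5) (.cov (nat_lit 1337396417625590857955)) (.alt (nat_lit 5) (.cov (nat_lit 1337401171913970024665)) (.alt (nat_lit 5) (.cov (nat_lit 6650064964875468144733)) (.alt (nat_lit 5) (.cov (nat_lit 21481248871395621863459)) (.alt (nat_lit 5) (.cov (nat_lit 9239970264401313808)) (.alt (nat_lit 5) (.cov (nat_lit 6502491203600982736914)) (.alt (nat_lit 5) (.cov (nat_lit 21850184087121515511819)) (.alt (nat_lit 5) (.cov (nat_lit 21481250432702301077510)) (.alt (nat_lit 5) (.cov (nat_lit 1411193639169768292355)) (.alt (nat_lit 5) (.exp (.alt (nat_lit 4) (.exp (.alt (nat_lit 6) (.exp (.alt (nat_lit 12) (.exp (.alt (nat_lit 7) (.exp (.alt (nat_lit 15) (.cov (nat_lit 116627917211776374378019934961666)) (.alt (nat_lit 15) (.cov (nat_lit 230038025224875491453111477717696513)) (.alt (nat_lit 15) (.cov (nat_lit 230038025224875491453133467918794752))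 (.alt (nat_lit 15) (.cov (nat_lit 21967769150339098345565)) .e))))) (.alt (nat_lit 7) (.cov (nat_lit 350153793460482083913766)) (.alt (nat_lit 7) (.cov (nat_lit 350153793460481379270750)) (.alt (nat_lit 7) (.cov (nat_lit 45413585131925446590498)) (.alt (nat_lit 7) (.cov (nat_lit 45413585131925480144932)) (.alt (nat_lit 7) (.cov (nat_lit 1584123172121977290767)) (.alt (nat_lit 7) (.cov (nat_lit 1584125133650050154503)) (.alt (nat_lit 7) (.cov (nat_lit 53045368935750303750)) (.alt (nat_lit 7) (.cov (nat_lit 126835085213564928003)) (.alt (nat_lit 7) (.cov (nat_lit 6546302673775372533762)) (.alt (nat_lit 7) (.cov (nat_lit 21893994785438071521281)) (.alt (nat_lit 7) (.cov (nat_lit 1602577716130461253632)) (.alt (nat_lit 7) (.cov (nat_lit 284171807)) .e)))))))))))))) .e)) .e)) .e)) (.alt (nat_lit 5) (.cov (nat_lit 1337406946548930052097)) (.alt (nat_lit 5) (.cov (nat_lit 1344324708672422805504)) (.alt (nat_lit 5) (.exp (.alt (nat_lit 4) (.cov (nat_lit 1355841028646741475835)) (.alt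 (nat_lit 4) (.cov (nat_lit 24229805448060846736330)) (.alt (nat_lit 4) (.exp (.alt (nat_lit 6) (.cov (nat_lit 872168971385433728132171656331266)) (.alt (nat_lit 6) (.cov (nat_lit 58798725277041460459310446823866369)) (.alt (nat_lit 6) (.cov (nat_lit 101431874402101248761387041161216)) (.alt (nat_lit 6) (.cov (nat_lit 46125876179636322397)) .e))))) (.alt (nat_lit 4) (.cov (nat_lit 1355847913788554608678)) (.alt (nat_lit 4) (.cov (nat_lit 46127839907401433182)) (.alt (nat_lit 4) (.cov (nat_lit 415065454767532671010)) (.alt (nat_lit 4) (.cov (nat_lit 42072425272416837566500)) (.alt (nat_lit 4) (.cov (nat_lit 6359530430166959390735)) (.alt (nat_lit 4) (.cov (nat_lit 1563375548234429628423)) (.alt (nat_lit 4) (.cov (nat_lit 7835270802687240699910)) (.alt (nat_lit 4) (.cov (nat_lit 382786896198413320195)) (.alt (nat_lit 4) (.cov (nat_lit 617982883137767604226)) (.alt (nat_lit 4) (.cov (nat_lit 1355853369565236953089)) (.alt (nat_lit 4) (.exp (.alt (nat_lit 6) (.exp (.alt (nat_lit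 12) (.cov (nat_lit 1358142033805472432593)) (.alt (nat_lit 12) (.cov (nat_lit 1346614452632609095897)) (.alt (nat_lit 12) (.cov (nat_lit 347628900475925388329053)) (.alt (nat_lit 12) (.cov (nat_lit 64572620253345873955)) (.alt (nat_lit 12) (.cov (nat_lit 64574583981113081872)) (.alt (nat_lit 12) (.cov (nat_lit 1346621357568382992402)) (.alt (nat_lit 12) (.cov (nat_lit 64574583981280854027)) (.alt (nat_lit 12) (.cov (nat_lit 3117513474760257830918)) (.alt (nat_lit 12) (.cov (nat_lit 6377977174240669990915)) (.alt (nat_lit 12) (.cov (nat_lit 25401180507116419416066)) (.alt (nat_lit 12) (.cov (nat_lit 1420415025488623304705)) (.alt (nat_lit 12) (.cov (nat_lit 21870937899060219084800)) (.alt (nat_lit 12) (.exp (.alt (nat_lit 8) (.exp (.alt (nat_lit 9) (.cov (nat_lit 608476350101911190463060814856194)) (.alt (nat_lit 9) (.cov (nat_lit 889464796808006763295988759942660097)) (.alt (nat_lit 9) (.cov (nat_lit 3295895622590701249074213883478016)) (.alt (nat_lit 9) (.cov (nat_lit 1498799803171414736989))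 .e))))) (.alt (nat_lit 8) (.cov (nat_lit 1351228986388899692582)) (.alt (nat_lit 8) (.cov (nat_lit 1498801252327739097182)) (.alt (nat_lit 8) (.cov (nat_lit 45402057286871504912418)) (.alt (nat_lit 8) (.cov (nat_lit 4081349215969171472420)) (.alt (nat_lit 8) (.cov (nat_lit 55349248216654675983)) (.alt (nat_lit 8) (.cov (nat_lit 55351211944254111751)) (.alt (nat_lit 8) (.cov (nat_lit 55351211944421883910)) (.alt (nat_lit 8) (.cov (nat_lit 2637898115650101968899)) (.alt (nat_lit 8) (.cov (nat_lit 47908513919940165632002)) (.alt (nat_lit 8) (.cov (nat_lit 6516327739400324644865)) (.alt (nat_lit 8) (.cov (nat_lit 25258218310913741553664)) (.alt (nat_lit 8) (.cov (nat_lit 9941556767)) .e)))))))))))))) .e)))))))))))))) .e)) (.alt (nat_lit 4) (.cov (nat_lit 6299687)) .e)))))))))))))))) .e))))))))))))))))) .e)))))))))))))))))))) .e))))))))))))))))))))) .e)),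
      .rot (.exp (.alt (nat_lit 3) (.exp (.alt (nat_lit 0) (.cov (nat_lit 347762639981785282250402)) (.alt (nat_lit 0) (.exp (.alt (nat_lit 1) (.cov (nat_lit 81153783082858441748773780586503)) (.alt (nat_lit 1) (.cov (nat_lit 81153783082424943304823043784707)) (.alt (nat_lit 1) (.cov (nat_lit 527366799197155252269741985759233)) (.alt (nat_lit 1) (.exp (.alt (nat_lit 5) (.exp (.alt (nat_lit 9) (.cov (nat_lit 14623634147646167305436179486212098)) (.alt (nat_lit 9) (.cov (nat_lit 20302787257324740712735708282881)) (.alt (nat_lit 9) (.cov (nat_lit 81153783081843870837913893732352)) (.alt (nat_lit 9) (.cov (nat_lit 47970768945604121854045)) .e))))) .e)) (.alt (nat_lit 1) (.cov (nat_lit 18459806271865356795)) .e)))))) (.alt (nat_lit 0) (.exp (.alt (nat_lit 1) (.exp (.alt (nat_lit 5) (.exp (.alt (nat_lit 4) (.exp (.alt (nat_lit 6) (.exp (.alt (nat_lit 12) (.exp (.alt (nat_lit 9) (.exp (.alt (nat_lit 13) (.exp (.alt (nat_lit 15) (.exp (.alt (nat_lit 29) (.exp (.alt (nat_lit 2) (.exp (.alt (nat_lit 10) (.cov (nat_lit 91271152703051816677816935645185)) (.alt (nat_lit 10) (.exp (.alt (nat_lit 26) (.cov (nat_lit 91271152703061040051896466800640)) (.alt (nat_lit 11) (.cov (nat_lit 41505314903363158023)) .e))) .e))) (.alt (nat_lit 2) (.cov (nat_lit 41505594181043617807)) (.alt (nat_lit 2) (.exp (.alt (nat_lit 10) (.exp (.alt (nat_lit 26) (.exp (.alt (nat_lit 27) (.exp (.alt (nat_lit 24) (.exp (.alt (nat_lit 18) (.cov (nat_lit 25285874456630278488066)) (.alt (nat_lit 18) (.cov (nat_lit 1593337552361798762497)) (.alt (nat_lit 18) (.cov (nat_lit 184467687027720060928)) (.alt (nat_lit 18) (.exp (.alt (nat_lit 19) (.cov (nat_lit 6398714359364715544579)) (.alt (nat_lit 19) (.cov (nat_lit 6398714368160808566785)) (.alt (nat_lit 19) (.cov (nat_lit 643330232555987271680)) (.alt (nat_lit 19) (.exp (.alt (nat_lit 23) (.cov (nat_lit 25285874447834086899713)) (.alt (nat_lit 17) (.cov (nat_lit 290455567)) .e))) .e))))) .e))))) .e)) .e)) .e)) .e)) (.alt (nat_lit 2) (.exp (.alt (nat_lit 10) (.exp (.alt (nat_lit 11) (.exp (.alt (nat_lit 27) (.exp (.alt (nat_lit 18) (.cov (nat_lit 21730264551815925202946)) (.alt (nat_lit 18) (.cov (nat_lit 2988372687275558961153)) (.alt (nat_lit 18) (.exp (.alt (nat_lit 19) (.cov (nat_lit 643330217165710163971)) (.alt (nat_lit 16) (.exp (.alt (nat_lit 17) (.exp (.alt (nat_lit 20) (.cov (nat_lit 1614090115245734363137)) (.alt (nat_lit 24) (.cov (nat_lit 11504975887)) .e))) .e)) (.alt (nat_lit 16) (.exp (.alt (nat_lit 20) (.cov (nat_lit 1614090115246405451778)) (.alt (nat_lit 17) (.cov (nat_lit 2907701315)) .e))) .e)))) .e)))) .e)) .e)) .e)) (.alt (nat_lit 8) (.cov (nat_lit 25290493190527290179585)) (.alt (nat_lit 8) (.exp (.alt (nat_lit 10) (.exp (.alt (nat_lit 24) (.cov (nat_lit 1680959586712023990283)) (.alt (nat_lit 24) (.cov (nat_lit 3968355966192627744774)) (.alt (nat_lit 24) (.cov (nat_lit 6553206252198944571394)) (.alt (nat_lit 24) (.cov (nat_lit 1586421837528346656769)) (.alt (nat_lit 24) (.cov (nat_lit 110683760778143596544)) (.alt (nat_lit 24) (.exp (.alt (nat_lit 25) (.cov (nat_lit 39199364151942053895)) (.alt (nat_lit 25) (.cov (nat_lit 6555511815932642066435)) (.alt (nat_lit 16) (.cov (nat_lit 21882450577461179580417)) (.alt (nat_lit 16) (.exp (.alt (nat_lit 17) (.exp (.alt (nat_lit 18) (.cov (nat_lit 25285874456630848913410)) (.alt (nat_lit 20) (.cov (nat_lit 2854633678391957520385)) (.alt (nat_lit 20) (.cov (nat_lit 6543982600885973811200)) (.alt (nat_lit 20) (.cov (nat_lit 2975858879)) .e))))) .e)) (.alt (nat_lit 25) (.cov (nat_lit 51381723)) .e)))))) .e))))))) .e)) (.alt (nat_lit 2) (.exp (.alt (nat_lit 18) (.cov (nat_lit 43003972381330018140171)) (.alt (nat_lit 18) (.exp (.alt (nat_lit 22) (.exp (.alt (nat_lit 20) (.exp (.alt (nat_lit 23) (.exp (.alt (nat_lit 16) (.cov (nat_lit 406842940563267840376835)) (.alt (nat_lit 16) (.exp (.alt (nat_lit 17) (.exp (.alt (nat_lit 24) (.cov (nat_lit 428886808509882040321)) (.alt (nat_lit 24) (.exp (.alt (nat_lit 26) (.cov (nat_lit 438110182745728614400)) (.alt (nat_lit 8) (.cov (nat_lit 10345250824)) .e))) .e))) .e)) (.alt (nat_lit 16) (.cov (nat_lit 4051698256)) .e)))) .e)) .e)) .e)) (.alt (nat_lit 10) (.cov (nat_lit 21531965316529712529409)) (.alt (nat_lit 10) (.cov (nat_lit 9791606788)) .e))))) .e)))))))) .e)) .e)) .e)) .e)) .e)) .e)) .e)) .e)) (.alt (nat_lit 1) (.exp (.alt (nat_lit 5) (.exp (.alt (nat_lit 9) (.exp (.alt (nat_lit 8) (.exp (.alt (nat_lit 10) (.exp (.alt (nat_lit 12) (.exp (.alt (nat_lit 11) (.exp (.alt (nat_lit 15) (.exp (.alt (nat_lit 27) (.exp (.alt (nat_lit 4) (.exp (.alt (nat_lit 6) (.cov (nat_lit 14380228718474463815355901203709953)) (.alt (nat_lit 6) (.exp (.alt (nat_lit 22) (.cov (nat_lit 14380228718475425351892785990467584)) (.alt (nat_lit 14) (.cov (nat_lit 6539370914868193394695)) .e))) .e))) (.alt (nat_lit 4) (.cov (nat_lit 1448069829965171916815)) (.alt (nat_lit 4) (.exp (.alt (nat_lit 6) (.exp (.alt (nat_lit 22) (.exp (.alt (nat_lit 30) (.exp (.alt (nat_lit 18) (.exp (.alt (nat_lit 20) (.cov (nat_lit 25431142566210213773314)) (.alt (nat_lit 20) (.cov (nat_lit 21905508620515496951809)) (.alt (nat_lit 20) (.cov (nat_lit 6530147648383815254016)) (.alt (nat_lit 20) (.exp (.alt (nat_lit 28) (.cov (nat_lit 25302015348900867604483)) (.alt (nat_lit 28) (.cov (nat_lit 288230393743922954241)) (.alt (nat_lit 28) (.cov (nat_lit 288230409137085743104)) (.alt (nat_lit 28) (.exp (.alt (nat_lit 29) (.cov (nat_lit 1597949214181209145345)) (.alt (nat_lit 24) (.cov (nat_lit 9891217423)) .e))) .e))))) .e))))) .e)) .e)) .e)) .e)) (.alt (nat_lit 4) (.exp (.alt (nat_lit 6) (.exp (.alt (nat_lit 14) (.exp (.alt (nat_lit 30) (.exp (.alt (nat_lit 20) (.cov (nat_lit 36893521132965068802)) (.alt (nat_lit 20) (.cov (nat_lit 405828516956801597441)) (.alt (nat_lit 20) (.exp (.alt (nat_lit 28) (.cov (nat_lit 288230393745097359363)) (.alt (nat_lit 16) (.exp (.alt (nat_lit 24) (.exp (.alt (nat_lit 17) (.cov (nat_lit 412745907445974433793)) (.alt (nat_lit 18) (.cov (nat_lit 11562647567)) .e))) .e)) (.alt (nat_lit 16) (.exp (.alt (nat_lit 17) (.cov (nat_lit 412745907445538226178)) (.alt (nat_lit 24) (.cov (nat_lit 126877763)) .e))) .e)))) .e)))) .e)) .e)) .e)) (.alt (nat_lit 2) (.cov (nat_lit 1591038741819208761345)) (.alt (nat_lit 2) (.exp (.alt (nat_lit 6) (.exp (.alt (nat_lit 18) (.cov (nat_lit 1609478453416530280459)) (.alt (nat_lit 18) (.cov (nat_lit 133739041868975439878)) (.alt (nat_lit 18) (.cov (nat_lit 641024776577751187458)) (.alt (nat_lit 18) (.cov (nat_lit 1365060908634102300673)) (.alt (nat_lit 18) (.cov (nat_lit 21877841767755415552000)) (.alt (nat_lit 18) (.exp (.alt (nat_lit 26) (.cov (nat_lit 1457292814808703303687)) (.alt (nat_lit 26) (.cov (nat_lit 659471241375515672579)) (.alt (nat_lit 16) (.cov (nat_lit 636413090556480061441)) (.alt (nat_lit 16) (.exp (.alt (nat_lit 24) (.exp (.alt (nat_lit 20) (.cov (nat_lit 1597949222977305313282)) (.alt (nat_lit 17) (.cov (nat_lit 638718546538172252161)) (.alt (nat_lit 17) (.cov (nat_lit 638718654289707794432)) (.alt (nat_lit 17) (.cov (nat_lit 4652531903)) .e))))) .e)) (.alt (nat_lit 26) (.cov (nat_lit 9957279195)) .e)))))) .e))))))) .e)) (.alt (nat_lit 4) (.exp (.alt (nat_lit 20) (.cov (nat_lit 43142322961872974774283)) (.alt (nat_lit 20) (.exp (.alt (nat_lit 21) (.exp (.alt (nat_lit 17) (.exp (.alt (nat_lit 29) (.exp (.alt (nat_lit 16) (.cov (nat_lit 350160707710765414481923)) (.alt (nat_lit 16) (.exp (.alt (nat_lit 24) (.exp (.alt (nat_lit 18) (.cov (nat_lit 6396408516355486121985)) (.alt (nat_lit 18) (.exp (.alt (nat_lit 22) (.cov (nat_lit 1454986949808963452928)) (.alt (nat_lit 2) (.cov (nat_lit 157041033224)) .e))) .e))) .e)) (.alt (nat_lit 16) (.cov (nat_lit 28707914320)) .e)))) .e)) .e)) .e)) (.alt (nat_lit 6) (.cov (nat_lit 25433451688119275356161)) (.alt (nat_lit 6) (.cov (nat_lit 56627204)) .e))))) .e)))))))) .e)) .e)) .e)) .e)) .e)) .e)) (.alt (nat_lit 9) (.exp (.alt (nat_lit 8) (.exp (.alt (nat_lit 10) (.exp (.alt (nat_lit 12) (.exp (.alt (nat_lit 13) (.exp (.alt (nat_lit 15) (.exp (.alt (nat_lit 29) (.exp (.alt (nat_lit 2) (.exp (.alt (nat_lit 6) (.cov (nat_lit 1389345367335199973936212563984385)) (.alt (nat_lit 6) (.exp (.alt (nat_lit 22) (.cov (nat_lit 1389345367335276066757559292264448)) (.alt (nat_lit 14) (.cov (nat_lit 631801125271836295175)) .e))) .e))) (.alt (nat_lit 2) (.cov (nat_lit 21513515695996137373711)) (.alt (nat_lit 2) (.exp (.alt (nat_lit 6) (.exp (.alt (nat_lit 22) (.exp (.alt (nat_lit 30) (.exp (.alt (nat_lit 20) (.exp (.alt (nat_lit 18) (.cov (nat_lit 1593337536958875828226)) (.alt (nat_lit 18) (.cov (nat_lit 1830839382301645733889)) (.alt (nat_lit 18) (.cov (nat_lit 627189544796756639744)) (.alt (nat_lit 18) (.exp (.alt (nat_lit 26) (.cov (nat_lit 2866162869251625451523)) (.alt (nat_lit 26) (.cov (nat_lit 3972967522467405889537)) (.alt (nat_lit 26) (.cov (nat_lit 283618723118658355200)) (.alt (nat_lit 26) (.exp (.alt (nat_lit 27) (.cov (nat_lit 1593337528162781757441)) (.alt (nat_lit 24) (.cov (nat_lit 764411919)) .e))) .e))))) .e))))) .e)) .e)) .e)) .e)) (.alt (nat_lit 2) (.exp (.alt (nat_lit 6) (.exp (.alt (nat_lit 14) (.exp (.alt (nat_lit 30) (.exp (.alt (nat_lit 18) (.cov (nat_lit 405828402606986231810)) (.alt (nat_lit 18) (.cov (nat_lit 36893635482038042625)) (.alt (nat_lit 18) (.exp (.alt (nat_lit 26) (.cov (nat_lit 283618707735863885827)) (.alt (nat_lit 16) (.exp (.alt (nat_lit 24) (.exp (.alt (nat_lit 17) (.cov (nat_lit 48422711989640364033)) (.alt (nat_lit 20) (.cov (nat_lit 11564744719)) .e))) .e)) (.alt (nat_lit 16) (.exp (.alt (nat_lit 17) (.cov (nat_lit 48422711989606809602)) (.alt (nat_lit 24) (.cov (nat_lit 1804599363)) .e))) .e)))) .e)))) .e)) .e)) .e)) (.alt (nat_lit 4) (.cov (nat_lit 1595650427838206574593)) (.alt (nat_lit 4) (.exp (.alt (nat_lit 6) (.exp (.alt (nat_lit 20) (.cov (nat_lit 1614090139435125440523)) (.alt (nat_lit 20) (.cov (nat_lit 1392729324899820109830)) (.alt (nat_lit 20) (.cov (nat_lit 6543982880164807704578)) (.alt (nat_lit 20) (.cov (nat_lit 110682311622425313281)) (.alt (nat_lit 20) (.cov (nat_lit 1807784215559425490944)) (.alt (nat_lit 20) (.exp (.alt (nat_lit 28) (.cov (nat_lit 21527350367007379816455)) (.alt (nat_lit 28) (.cov (nat_lit 6562429344962572189699)) (.alt (nat_lit 16) (.cov (nat_lit 6534759508125679616001)) (.alt (nat_lit 16) (.exp (.alt (nat_lit 24) (.exp (.alt (nat_lit 18) (.cov (nat_lit 25426530880191784288258)) (.alt (nat_lit 17) (.cov (nat_lit 6537064964106230956033)) (.alt (nat_lit 17) (.cov (nat_lit 6537065071858336923648)) (.alt (nat_lit 17) (.cov (nat_lit 47600107711)) .e))))) .e)) (.alt (nat_lit 28) (.cov (nat_lit 830473691)) .e)))))) .e))))))) .e)) (.alt (nat_lit 2) (.exp (.alt (nat_lit 18) (.cov (nat_lit 384333301349205009235979)) (.alt (nat_lit 18) (.exp (.alt (nat_lit 19) (.exp (.alt (nat_lit 17) (.exp (.alt (nat_lit 27) (.exp (.alt (nat_lit 16) (.cov (nat_lit 29044398561648604872707)) (.alt (nat_lit 16) (.exp (.alt (nat_lit 24) (.exp (.alt (nat_lit 20) (.cov (nat_lit 6396408516354917793793)) (.alt (nat_lit 20) (.exp (.alt (nat_lit 22) (.cov (nat_lit 21525044502004955611136)) (.alt (nat_lit 4) (.cov (nat_lit 157041033224)) .e))) .e))) .e)) (.alt (nat_lit 16) (.cov (nat_lit 1866465872)) .e)))) .e)) .e)) .e)) (.alt (nat_lit 6) (.cov (nat_lit 3002210894488460591105)) (.alt (nat_lit 6) (.cov (nat_lit 627052548)) .e))))) .e)))))))) .e)) .e)) .e)) .e)) .e)) .e)) .e))) .e)) .e))) (.alt (nat_lit 0) (.exp (.alt (nat_lit 1) (.exp (.alt (nat_lit 5) (.exp (.alt (nat_lit 4) (.exp (.alt (nat_lit 6) (.exp (.alt (nat_lit 9) (.exp (.alt (nat_lit 13) (.exp (.alt (nat_lit 12) (.exp (.alt (nat_lit 15) (.exp (.alt (nat_lit 16) (.cov (nat_lit 406916728307021861879842)) (.alt (nat_lit 8) (.cov (nat_lit 6548597442677512863751)) (.alt (nat_lit 8) (.cov (nat_lit 6401027259059580960771)) (.alt (nat_lit 8) (.cov (nat_lit 55351211944254111744)) (.alt (nat_lit 8) (.cov (nat_lit 192944220)) .e)))))) .e)) .e)) .e)) .e)) .e)) .e)) .e)) (.alt (nat_lit 1) (.exp (.alt (nat_lit 5) (.exp (.alt (nat_lit 9) (.exp (.alt (nat_lit 8) (.exp (.alt (nat_lit 10) (.exp (.alt (nat_lit 11) (.exp (.alt (nat_lit 15) (.exp (.alt (nat_lit 27) (.exp (.alt (nat_lit 4) (.cov (nat_lit 3924546103504132898850)) (.alt (nat_lit 2) (.cov (nat_lit 43105432510577478991879)) (.alt (nat_lit 2) (.cov (nat_lit 1591038741820349612035)) (.alt (nat_lit 2) (.exp (.alt (nat_lit 6) (.exp (.alt (nat_lit 18) (.cov (nat_lit 347794913001018283261963)) (.alt (nat_lit 18) (.exp (.alt (nat_lit 16) (.exp (.alt (nat_lit 24) (.exp (.alt (nat_lit 17) (.exp (.alt (nat_lit 22) (.cov (nat_lit 23141440458070607003651)) (.alt (nat_lit 22) (.exp (.alt (nat_lit 20) (.exp (.alt (nat_lit 30) (.cov (nat_lit 25306627035072777158657)) (.alt (nat_lit 23) (.cov (nat_lit 4629463055)) .e))) .e)) (.alt (nat_lit 26) (.cov (nat_lit 13251903679)) .e)))) .e)) .e)) .e)) (.alt (nat_lit 18) (.cov (nat_lit 272094385515926650881)) (.alt (nat_lit 18) (.exp (.alt (nat_lit 16) (.exp (.alt (nat_lit 24) (.exp (.alt (nat_lit 28) (.exp (.alt (nat_lit 12) (.exp (.alt (nat_lit 29) (.exp (.alt (nat_lit 20) (.cov (nat_lit 1597949214190970339329)) (.alt (nat_lit 17) (.cov (nat_lit 827326479)) .e))) .e)) .e)) .e)) .e)) (.alt (nat_lit 26) (.cov (nat_lit 29141244370465895481347)) (.alt (nat_lit 26) (.exp (.alt (nat_lit 24) (.exp (.alt (nat_lit 30) (.cov (nat_lit 1694794644923571240962)) (.alt (nat_lit 30) (.cov (nat_lit 7885983234457141772289)) (.alt (nat_lit 30) (.exp (.alt (nat_lit 22) (.cov (nat_lit 365365436513521148887043)) (.alt (nat_lit 28) (.exp (.alt (nat_lit 12) (.exp (.alt (nat_lit 20) (.cov (nat_lit 25283568604824263983105)) (.alt (nat_lit 20) (.exp (.alt (nat_lit 21) (.cov (nat_lit 2635578570526386290688)) (.alt (nat_lit 16) (.cov (nat_lit 1360003080)) .e))) .e))) .e)) (.alt (nat_lit 22) (.cov (nat_lit 166216073808)) .e)))) .e)))) .e)) (.alt (nat_lit 26) (.cov (nat_lit 1333791890)) .e))))) .e))))) .e)) (.alt (nat_lit 2) (.cov (nat_lit 46479186011)) .e)))))) .e)) .e)) .e)) .e)) .e)) (.alt (nat_lit 9) (.exp (.alt (nat_lit 8) (.exp (.alt (nat_lit 10) (.exp (.alt (nat_lit 12) (.exp (.alt (nat_lit 13) (.exp (.alt (nat_lit 15) (.exp (.alt (nat_lit 16) (.cov (nat_lit 1964579028901428199458)) (.alt (nat_lit 4) (.cov (nat_lit 1448072706132400930823)) (.alt (nat_lit 4) (.cov (nat_lit 2850029024896257884163)) (.alt (nat_lit 4) (.cov (nat_lit 46127839907395141632)) (.alt (nat_lit 4) (.cov (nat_lit 188749916)) .e)))))) .e)) .e)) .e)) .e)) (.alt (nat_lit 8) (.exp (.alt (nat_lit 10) (.exp (.alt (nat_lit 11) (.exp (.alt (nat_lit 15) (.exp (.alt (nat_lit 27) (.exp (.alt (nat_lit 4) (.cov (nat_lit 3924546103504132898850)) (.alt (nat_lit 2) (.cov (nat_lit 43105432510577478991879)) (.alt (nat_lit 2) (.cov (nat_lit 1591038741820349612035)) (.alt (nat_lit 2) (.exp (.alt (nat_lit 6) (.exp (.alt (nat_lit 18) (.cov (nat_lit 347794913001018283261963)) (.alt (nat_lit 18) (.exp (.alt (nat_lit 16) (.exp (.alt (nat_lit 24) (.exp (.alt (nat_lit 17) (.exp (.alt (nat_lit 22) (.cov (nat_lit 23141440458070607003651)) (.alt (nat_lit 22) (.exp (.alt (nat_lit 20) (.exp (.alt (nat_lit 30) (.cov (nat_lit 25306627035072777158657)) (.alt (nat_lit 23) (.cov (nat_lit 4629463055)) .e))) .e)) (.alt (nat_lit 26) (.cov (nat_lit 13251903679)) .e)))) .e)) .e)) .e)) (.alt (nat_lit 18) (.cov (nat_lit 272094385515926650881)) (.alt (nat_lit 18) (.exp (.alt (nat_lit 16) (.exp (.alt (nat_lit 24) (.exp (.alt (nat_lit 28) (.exp (.alt (nat_lit 12) (.exp (.alt (nat_lit 29) (.exp (.alt (nat_lit 20) (.cov (nat_lit 1597949214190970339329)) (.alt (nat_lit 17) (.cov (nat_lit 827326479)) .e))) .e)) .e)) .e)) .e)) (.alt (nat_lit 26) (.cov (nat_lit 29141244370465895481347)) (.alt (nat_lit 26) (.exp (.alt (nat_lit 24) (.exp (.alt (nat_lit 30) (.cov (nat_lit 1694794644923571240962)) (.alt (nat_lit 30) (.cov (nat_lit 7885983234457141772289)) (.alt (nat_lit 30) (.exp (.alt (nat_lit 22) (.cov (nat_lit 365365436513521148887043)) (.alt (nat_lit 28) (.exp (.alt (nat_lit 12) (.exp (.alt (nat_lit 20) (.cov (nat_lit 25283568604824263983105)) (.alt (nat_lit 20) (.exp (.alt (nat_lit 21) (.cov (nat_lit 2635578570526386290688)) (.alt (nat_lit 16) (.cov (nat_lit 1360003080)) .e))) .e))) .e)) (.alt (nat_lit 22) (.cov (nat_lit 166216073808)) .e)))) .e)))) .e)) (.alt (nat_lit 26) (.cov (nat_lit 1333791890)) .e))))) .e))))) .e)) (.alt (nat_lit 2) (.cov (nat_lit 46479186011)) .e)))))) .e)) .e)) .e)) .e)) .e))) .e))) .e)) (.alt (nat_lit 1) (.exp (.alt (nat_lit 5) (.exp (.alt (nat_lit 4) (.exp (.alt (nat_lit 6) (.exp (.alt (nat_lit 12) (.exp (.alt (nat_lit 7) (.exp (.alt (nat_lit 15) (.exp (.alt (nat_lit 23) (.exp (.alt (nat_lit 8) (.cov (nat_lit 6368739693272967938082)) (.alt (nat_lit 2) (.cov (nat_lit 343870371260374091563015)) (.alt (nat_lit 2) (.cov (nat_lit 25276658132462243676163)) (.alt (nat_lit 2) (.exp (.alt (nat_lit 10) (.exp (.alt (nat_lit 18) (.cov (nat_lit 344253138138863335637003)) (.alt (nat_lit 18) (.exp (.alt (nat_lit 16) (.exp (.alt (nat_lit 17) (.exp (.alt (nat_lit 20) (.exp (.alt (nat_lit 26) (.cov (nat_lit 104611485659599252488195)) (.alt (nat_lit 26) (.exp (.alt (nat_lit 24) (.exp (.alt (nat_lit 27) (.cov (nat_lit 71481142238107402241)) (.alt (nat_lit 30) (.cov (nat_lit 185018089487)) .e))) .e)) (.alt (nat_lit 19) (.cov (nat_lit 900726975)) .e)))) .e)) .e)) .e)) (.alt (nat_lit 18) (.cov (nat_lit 650252639017208119297)) (.alt (nat_lit 18) (.exp (.alt (nat_lit 16) (.exp (.alt (nat_lit 17) (.exp (.alt (nat_lit 25) (.exp (.alt (nat_lit 9) (.exp (.alt (nat_lit 29) (.exp (.alt (nat_lit 24) (.cov (nat_lit 25299709505888770326529)) (.alt (nat_lit 20) (.cov (nat_lit 734003215)) .e))) .e)) .e)) .e)) .e)) (.alt (nat_lit 19) (.cov (nat_lit 1980719564928190513155)) (.alt (nat_lit 19) (.exp (.alt (nat_lit 17) (.exp (.alt (nat_lit 27) (.cov (nat_lit 661776976676110991362)) (.alt (nat_lit 27) (.cov (nat_lit 104687578604247463231489)) (.alt (nat_lit 27) (.exp (.alt (nat_lit 26) (.cov (nat_lit 7655398808193157038083)) (.alt (nat_lit 25) (.exp (.alt (nat_lit 9) (.exp (.alt (nat_lit 24) (.cov (nat_lit 64563613054697209857)) (.alt (nat_lit 24) (.exp (.alt (nat_lit 28) (.cov (nat_lit 69175301271548067840)) (.alt (nat_lit 16) (.cov (nat_lit 9785311240)) .e))) .e))) .e)) (.alt (nat_lit 26) (.cov (nat_lit 3548381776)) .e)))) .e)))) .e)) (.alt (nat_lit 19) (.cov (nat_lit 19043191954)) .e))))) .e))))) .e)) (.alt (nat_lit 2) (.cov (nat_lit 9976158299)) .e)))))) .e)) .e)) .e)) .e)) .e)) .e)) (.alt (nat_lit 5) (.exp (.alt (nat_lit 4) (.exp (.alt (nat_lit 6) (.exp (.alt (nat_lit 12) (.exp (.alt (nat_lit 13) (.exp (.alt (nat_lit 9) (.exp (.alt (nat_lit 15) (.exp (.alt (nat_lit 16) (.cov (nat_lit 29127409677439510511650)) (.alt (nat_lit 8) (.cov (nat_lit 21896288511986143068167)) (.alt (nat_lit 8) (.cov (nat_lit 2859252396933116854275)) (.alt (nat_lit 8) (.cov (nat_lit 55351211944254111744)) (.alt (nat_lit 8) (.cov (nat_lit 192944220)) .e)))))) .e)) .e)) .e)) .e)) .e)) .e)) .e))) .e)))) (.alt (nat_lit 0) (.cov (nat_lit 627205562482131206237)) (.alt (nat_lit 0) (.exp (.alt (nat_lit 1) (.exp (.alt (nat_lit 5) (.exp (.alt (nat_lit 9) (.exp (.alt (nat_lit 11) (.exp (.alt (nat_lit 10) (.exp (.alt (nat_lit 15) (.exp (.alt (nat_lit 16) (.exp (.alt (nat_lit 17) (.exp (.alt (nat_lit 19) (.exp (.alt (nat_lit 18) (.exp (.alt (nat_lit 27) (.exp (.alt (nat_lit 25) (.exp (.alt (nat_lit 24) (.exp (.alt (nat_lit 29) (.exp (.alt (nat_lit 20) (.cov (nat_lit 25244369282466616180738)) (.alt (nat_lit 20) (.cov (nat_lit 4215081053828004446209)) (.alt (nat_lit 20) (.cov (nat_lit 63138593513584860332032)) (.alt (nat_lit 20) (.exp (.alt (nat_lit 4) (.cov (nat_lit 404306513244371602636803)) (.alt (nat_lit 4) (.cov (nat_lit 345336884135490287042561)) (.alt (nat_lit 4) (.cov (nat_lit 345336884150883449831424)) (.alt (nat_lit 4) (.exp (.alt (nat_lit 6) (.cov (nat_lit 404311124930343641022465)) (.alt (nat_lit 12) (.cov (nat_lit 166142672911)) .e))) .e))))) .e))))) .e)) .e)) .e)) .e)) .e)) .e)) (.alt (nat_lit 17) (.exp (.alt (nat_lit 19) (.exp (.alt (nat_lit 18) (.exp (.alt (nat_lit 27) (.exp (.alt (nat_lit 25) (.exp (.alt (nat_lit 24) (.exp (.alt (nat_lit 29) (.exp (.alt (nat_lit 20) (.cov (nat_lit 25244369282466616180738)) (.alt (nat_lit 20) (.cov (nat_lit 4215081053828004446209)) (.alt (nat_lit 20) (.cov (nat_lit 63138593513584860332032)) (.alt (nat_lit 20) (.exp (.alt (nat_lit 4) (.cov (nat_lit 404306513244371602636803)) (.alt (nat_lit 4) (.cov (nat_lit 345336884135490287042561)) (.alt (nat_lit 4) (.cov (nat_lit 345336884150883449831424)) (.alt (nat_lit 4) (.exp (.alt (nat_lit 6) (.cov (nat_lit 404311124930343641022465)) (.alt (nat_lit 12) (.cov (nat_lit 166142672911)) .e))) .e))))) .e))))) .e)) .e)) .e)) .e)) .e)) .e)) .e))) (.alt (nat_lit 2) (.cov (nat_lit 43105432510586438025250)) (.alt (nat_lit 2) (.cov (nat_lit 3850764904043015831567)) (.alt (nat_lit 2) (.exp (.alt (nat_lit 6) (.exp (.alt (nat_lit 4) (.exp (.alt (nat_lit 12) (.exp (.alt (nat_lit 20) (.exp (.alt (nat_lit 18) (.cov (nat_lit 6396408540544431554571)) (.alt (nat_lit 18) (.cov (nat_lit 21737182294148124770310)) (.alt (nat_lit 18) (.cov (nat_lit 133739314548560625666)) (.alt (nat_lit 18) (.cov (nat_lit 22843988539459617423361)) (.alt (nat_lit 18) (.cov (nat_lit 265175242395451654144)) (.alt (nat_lit 18) (.exp (.alt (nat_lit 16) (.cov (nat_lit 129127241502675697671)) (.alt (nat_lit 16) (.cov (nat_lit 55340372958701944835)) (.alt (nat_lit 19) (.cov (nat_lit 1390423754569317089281)) (.alt (nat_lit 19) (.exp (.alt (nat_lit 17) (.exp (.alt (nat_lit 27) (.cov (nat_lit 426580974299637612546)) (.alt (nat_lit 27) (.cov (nat_lit 426580989699679059969)) (.alt (nat_lit 27) (.cov (nat_lit 1388117737837274595328)) (.alt (nat_lit 27) (.exp (.alt (nat_lit 25) (.cov (nat_lit 1604866743220330037251)) (.alt (nat_lit 25) (.cov (nat_lit 1837756895935558844417)) (.alt (nat_lit 25) (.cov (nat_lit 1837756911328688078848)) (.alt (nat_lit 25) (.exp (.alt (nat_lit 29) (.cov (nat_lit 1614090115255475634177)) (.alt (nat_lit 24) (.cov (nat_lit 297795599)) .e))) .e))))) .e))))) .e)) (.alt (nat_lit 16) (.cov (nat_lit 118490587)) .e)))))) .e))))))) .e)) .e)) .e)) .e)) (.alt (nat_lit 2) (.cov (nat_lit 41516153900443369475)) (.alt (nat_lit 2) (.cov (nat_lit 41518893871944171521)) (.alt (nat_lit 2) (.exp (.alt (nat_lit 6) (.exp (.alt (nat_lit 18) (.cov (nat_lit 25426531282613606285333)) (.alt (nat_lit 18) (.cov (nat_lit 6382575296695175741451)) (.alt (nat_lit 18) (.cov (nat_lit 61796597528758652502022)) (.alt (nat_lit 18) (.exp (.alt (nat_lit 16) (.exp (.alt (nat_lit 17) (.exp (.alt (nat_lit 24) (.exp (.alt (nat_lit 26) (.cov (nat_lit 26706273765699722674183)) (.alt (nat_lit 26) (.exp (.alt (nat_lit 27) (.exp (.alt (nat_lit 19) (.exp (.alt (nat_lit 23) (.exp (.alt (nat_lit 30) (.cov (nat_lit 102111951828815372615681)) (.alt (nat_lit 30) (.exp (.alt (nat_lit 28) (.cov (nat_lit 21538879560060244066304)) (.alt (nat_lit 22) (.cov (nat_lit 10523508744)) .e))) .e))) .e)) .e)) .e)) (.alt (nat_lit 26) (.cov (nat_lit 29141244370456167841793)) (.alt (nat_lit 26) (.exp (.alt (nat_lit 27) (.exp (.alt (nat_lit 30) (.cov (nat_lit 365383883257605637799938)) (.alt (nat_lit 30) (.cov (nat_lit 641024389546803986433)) (.alt (nat_lit 30) (.cov (nat_lit 404550932741840321904640)) (.alt (nat_lit 30) (.exp (.alt (nat_lit 22) (.cov (nat_lit 365365436504725525626883)) (.alt (nat_lit 22) (.cov (nat_lit 23141440458070607003649)) (.alt (nat_lit 22) (.cov (nat_lit 23141440473454005452800)) (.alt (nat_lit 22) (.exp (.alt (nat_lit 20) (.cov (nat_lit 25283568604834015739905)) (.alt (nat_lit 23) (.cov (nat_lit 3545235471)) .e))) .e))))) .e))))) .e)) (.alt (nat_lit 19) (.exp (.alt (nat_lit 23) (.cov (nat_lit 7796055247137048363010)) (.alt (nat_lit 27) (.cov (nat_lit 10254084009308485320705)) (.alt (nat_lit 27) (.exp (.alt (nat_lit 31) (.cov (nat_lit 102114257680620646825987)) (.alt (nat_lit 31) (.exp (.alt (nat_lit 23) (.exp (.alt (nat_lit 30) (.cov (nat_lit 102111951828815372615681)) (.alt (nat_lit 30) (.exp (.alt (nat_lit 28) (.cov (nat_lit 102075058342866941116416)) (.alt (nat_lit 22) (.cov (nat_lit 10523508744)) .e))) .e))) .e)) (.alt (nat_lit 25) (.cov (nat_lit 4660920511)) .e)))) .e)))) .e)))))) .e)) .e)) .e)) (.alt (nat_lit 18) (.exp (.alt (nat_lit 16) (.exp (.alt (nat_lit 17) (.exp (.alt (nat_lit 26) (.exp (.alt (nat_lit 24) (.exp (.alt (nat_lit 28) (.exp (.alt (nat_lit 20) (.exp (.alt (nat_lit 12) (.exp (.alt (nat_lit 27) (.cov (nat_lit 6417161105637450448897)) (.alt (nat_lit 27) (.exp (.alt (nat_lit 31) (.cov (nat_lit 6398714361563147403264)) (.alt (nat_lit 19) (.cov (nat_lit 9788456968)) .e))) .e))) .e)) .e)) .e)) .e)) (.alt (nat_lit 26) (.cov (nat_lit 29141244370456131141635)) (.alt (nat_lit 26) (.exp (.alt (nat_lit 24) (.exp (.alt (nat_lit 30) (.exp (.alt (nat_lit 28) (.exp (.alt (nat_lit 20) (.exp (.alt (nat_lit 12) (.exp (.alt (nat_lit 31) (.cov (nat_lit 25288180293041726160896)) (.alt (nat_lit 22) (.cov (nat_lit 124780552)) .e))) .e)) .e)) .e)) (.alt (nat_lit 27) (.cov (nat_lit 10254084007109455773697)) (.alt (nat_lit 27) (.exp (.alt (nat_lit 31) (.cov (nat_lit 102114257680620646825987)) (.alt (nat_lit 31) (.exp (.alt (nat_lit 30) (.exp (.alt (nat_lit 29) (.cov (nat_lit 365383883248798092230657)) (.alt (nat_lit 23) (.cov (nat_lit 3545235471)) .e))) .e)) (.alt (nat_lit 25) (.cov (nat_lit 4660920511)) .e)))) .e)))) .e)) (.alt (nat_lit 19) (.cov (nat_lit 10396634263)) .e))))) .e)) .e)) (.alt (nat_lit 18) (.cov (nat_lit 48021498672682033479680)) (.alt (nat_lit 18) (.exp (.alt (nat_lit 16) (.exp (.alt (nat_lit 17) (.exp (.alt (nat_lit 19) (.exp (.alt (nat_lit 27) (.exp (.alt (nat_lit 21) (.exp (.alt (nat_lit 20) (.exp (.alt (nat_lit 23) (.exp (.alt (nat_lit 24) (.cov (nat_lit 404343406732473239863297)) (.alt (nat_lit 24) (.exp (.alt (nat_lit 28) (.cov (nat_lit 69175301271539679232)) (.alt (nat_lit 25) (.cov (nat_lit 4627365896)) .e))) .e))) .e)) .e)) .e)) .e)) .e)) (.alt (nat_lit 17) (.exp (.alt (nat_lit 19) (.exp (.alt (nat_lit 27) (.exp (.alt (nat_lit 23) (.exp (.alt (nat_lit 21) (.exp (.alt (nat_lit 20) (.exp (.alt (nat_lit 24) (.cov (nat_lit 404343406732473239863297)) (.alt (nat_lit 24) (.exp (.alt (nat_lit 28) (.cov (nat_lit 69175301271539679232)) (.alt (nat_lit 25) (.cov (nat_lit 4627365896)) .e))) .e))) .e)) .e)) .e)) .e)) (.alt (nat_lit 19) (.exp (.alt (nat_lit 27) (.exp (.alt (nat_lit 31) (.exp (.alt (nat_lit 23) (.exp (.alt (nat_lit 29) (.exp (.alt (nat_lit 24) (.cov (nat_lit 365383883248798667898881)) (.alt (nat_lit 24) (.exp (.alt (nat_lit 28) (.cov (nat_lit 365346989762849672265728)) (.alt (nat_lit 26) (.cov (nat_lit 12144607240)) .e))) .e))) .e)) .e)) .e)) .e)) .e))) .e))) (.alt (nat_lit 16) (.cov (nat_lit 344336148671913080651791)) (.alt (nat_lit 16) (.exp (.alt (nat_lit 17) (.exp (.alt (nat_lit 25) (.exp (.alt (nat_lit 24) (.exp (.alt (nat_lit 27) (.exp (.alt (nat_lit 20) (.cov (nat_lit 102111951837614317764610)) (.alt (nat_lit 20) (.cov (nat_lit 25283568629023271550977)) (.alt (nat_lit 20) (.cov (nat_lit 344338454242243121250304)) (.alt (nat_lit 20) (.exp (.alt (nat_lit 21) (.cov (nat_lit 102114257671827439484931)) (.alt (nat_lit 21) (.cov (nat_lit 10175685217252241571841)) (.alt (nat_lit 21) (.cov (nat_lit 10175685232645404360704)) (.alt (nat_lit 21) (.exp (.alt (nat_lit 29) (.cov (nat_lit 6417161103437816922113)) (.alt (nat_lit 23) (.cov (nat_lit 4629463055)) .e))) .e))))) .e))))) .e)) .e)) .e)) .e)) (.alt (nat_lit 16) (.cov (nat_lit 1662516108344105631747)) (.alt (nat_lit 16) (.cov (nat_lit 629502279544851136513)) (.alt (nat_lit 16) (.exp (.alt (nat_lit 17) (.exp (.alt (nat_lit 24) (.exp (.alt (nat_lit 25) (.cov (nat_lit 55634649615695995328752871097237504)) (.alt (nat_lit 8) (.cov (nat_lit 6553205865327714369543)) .e))) (.alt (nat_lit 24) (.cov (nat_lit 344354595231268738170886)) (.alt (nat_lit 24) (.exp (.alt (nat_lit 28) (.exp (.alt (nat_lit 20) (.exp (.alt (nat_lit 12) (.exp (.alt (nat_lit 25) (.cov (nat_lit 22862433447348955774979)) (.alt (nat_lit 25) (.cov (nat_lit 25302015357694078091265)) (.alt (nat_lit 25) (.cov (nat_lit 25302015373087240880128)) (.alt (nat_lit 25) (.exp (.alt (nat_lit 27) (.cov (nat_lit 440416025755555725313)) (.alt (nat_lit 27) (.exp (.alt (nat_lit 31) (.cov (nat_lit 25288180293041729306624)) (.alt (nat_lit 19) (.cov (nat_lit 9788456968)) .e))) .e))) .e))))) .e)) .e)) .e)) (.alt (nat_lit 24) (.cov (nat_lit 205221875000165793793)) (.alt (nat_lit 24) (.cov (nat_lit 82108768596922063650816)) (.alt (nat_lit 24) (.exp (.alt (nat_lit 25) (.cov (nat_lit 7814501991220518060039)) (.alt (nat_lit 25) (.exp (.alt (nat_lit 27) (.exp (.alt (nat_lit 19) (.exp (.alt (nat_lit 23) (.exp (.alt (nat_lit 29) (.cov (nat_lit 404343406732472631689217)) (.alt (nat_lit 29) (.exp (.alt (nat_lit 28) (.cov (nat_lit 2651719471590876905472)) (.alt (nat_lit 21) (.cov (nat_lit 1933574152)) .e))) .e))) .e)) .e)) .e)) (.alt (nat_lit 25) (.cov (nat_lit 10249472595968339738625)) (.alt (nat_lit 25) (.exp (.alt (nat_lit 27) (.exp (.alt (nat_lit 29) (.cov (nat_lit 365383883257597047865346)) (.alt (nat_lit 29) (.cov (nat_lit 638718546537555689473)) (.alt (nat_lit 29) (.cov (nat_lit 102317171995173813485568)) (.alt (nat_lit 29) (.exp (.alt (nat_lit 21) (.cov (nat_lit 365365436504734115561475)) (.alt (nat_lit 21) (.cov (nat_lit 4251974526592026148865)) (.alt (nat_lit 21) (.cov (nat_lit 4251974541975424598016)) (.alt (nat_lit 21) (.exp (.alt (nat_lit 20) (.cov (nat_lit 6396408516364648579073)) (.alt (nat_lit 23) (.cov (nat_lit 12136218639)) .e))) .e))))) .e))))) .e)) (.alt (nat_lit 25) (.exp (.alt (nat_lit 29) (.exp (.alt (nat_lit 28) (.exp (.alt (nat_lit 20) (.exp (.alt (nat_lit 12) (.exp (.alt (nat_lit 31) (.cov (nat_lit 6398714361563145306112)) (.alt (nat_lit 21) (.cov (nat_lit 661651464)) .e))) .e)) .e)) .e)) (.alt (nat_lit 27) (.cov (nat_lit 10254084007109455773697)) (.alt (nat_lit 27) (.exp (.alt (nat_lit 31) (.cov (nat_lit 404348018427287187750915)) (.alt (nat_lit 31) (.exp (.alt (nat_lit 29) (.exp (.alt (nat_lit 30) (.cov (nat_lit 365383883248798059724801)) (.alt (nat_lit 23) (.cov (nat_lit 12136218639)) .e))) .e)) (.alt (nat_lit 26) (.cov (nat_lit 13251903679)) .e)))) .e)))) .e)))))) .e))))))) .e)) (.alt (nat_lit 16) (.exp (.alt (nat_lit 17) (.cov (nat_lit 104613791627952882974731)) (.alt (nat_lit 17) (.exp (.alt (nat_lit 25) (.exp (.alt (nat_lit 24) (.exp (.alt (nat_lit 27) (.exp (.alt (nat_lit 21) (.cov (nat_lit 10175685217252241571843)) (.alt (nat_lit 21) (.exp (.alt (nat_lit 20) (.exp (.alt (nat_lit 29) (.cov (nat_lit 6417161103437816922113)) (.alt (nat_lit 23) (.cov (nat_lit 4629463055)) .e))) .e)) (.alt (nat_lit 21) (.cov (nat_lit 19146998117)) .e)))) .e)) .e)) .e)) (.alt (nat_lit 17) (.cov (nat_lit 491149471381472673793)) (.alt (nat_lit 17) (.exp (.alt (nat_lit 25) (.exp (.alt (nat_lit 24) (.exp (.alt (nat_lit 28) (.exp (.alt (nat_lit 20) (.exp (.alt (nat_lit 12) (.exp (.alt (nat_lit 27) (.cov (nat_lit 440416025755555725313)) (.alt (nat_lit 27) (.exp (.alt (nat_lit 31) (.cov (nat_lit 25288180293041729306624)) (.alt (nat_lit 19) (.cov (nat_lit 9788456968)) .e))) .e))) .e)) .e)) .e)) .e)) (.alt (nat_lit 25) (.cov (nat_lit 10249472595968370147331)) (.alt (nat_lit 25) (.exp (.alt (nat_lit 24) (.exp (.alt (nat_lit 29) (.exp (.alt (nat_lit 28) (.exp (.alt (nat_lit 20) (.exp (.alt (nat_lit 12) (.exp (.alt (nat_lit 31) (.cov (nat_lit 6398714361563145306112)) (.alt (nat_lit 21) (.cov (nat_lit 661651464)) .e))) .e)) .e)) .e)) (.alt (nat_lit 27) (.cov (nat_lit 10254084007109455773697)) (.alt (nat_lit 27) (.exp (.alt (nat_lit 31) (.cov (nat_lit 404348018427287187750915)) (.alt (nat_lit 31) (.exp (.alt (nat_lit 29) (.exp (.alt (nat_lit 30) (.cov (nat_lit 365383883248798059724801)) (.alt (nat_lit 23) (.cov (nat_lit 12136218639)) .e))) .e)) (.alt (nat_lit 26) (.cov (nat_lit 13251903679)) .e)))) .e)))) .e)) (.alt (nat_lit 19) (.cov (nat_lit 10396634263)) .e))))) .e))))) .e)))))))) .e)))))))) .e)) (.alt (nat_lit 2) (.exp (.alt (nat_lit 6) (.cov (nat_lit 41648138279597465665554)) (.alt (nat_lit 6) (.cov (nat_lit 6673114552695271718923)) (.alt (nat_lit 6) (.cov (nat_lit 50737564580931698690)) (.alt (nat_lit 6) (.cov (nat_lit 50739525925864472577)) (.alt (nat_lit 6) (.exp (.alt (nat_lit 22) (.cov (nat_lit 1987637093955700523042)) (.alt (nat_lit 4) (.cov (nat_lit 119907132825319505927)) (.alt (nat_lit 4) (.cov (nat_lit 46123925666642526211)) (.alt (nat_lit 4) (.cov (nat_lit 46127839907401433088)) (.alt (nat_lit 7) (.cov (nat_lit 628103263)) .e)))))) .e)))))) .e))))))))) .e)) .e)) .e)) .e)) .e)) .e)) (.alt (nat_lit 0) (.exp (.alt (nat_lit 1) (.exp (.alt (nat_lit 5) (.exp (.alt (nat_lit 9) (.exp (.alt (nat_lit 8) (.exp (.alt (nat_lit 10) (.exp (.alt (nat_lit 2) (.cov (nat_lit 23109161934686995349542)) (.alt (nat_lit 2) (.cov (nat_lit 365333161759261249765410)) (.alt (nat_lit 2) (.cov (nat_lit 41516153898732093447)) (.alt (nat_lit 2) (.cov (nat_lit 115305870178257993731)) (.alt (nat_lit 2) (.exp (.alt (nat_lit 6) (.exp (.alt (nat_lit 18) (.cov (nat_lit 42109306881451643371540)) (.alt (nat_lit 18) (.cov (nat_lit 344340763234265128239115)) (.alt (nat_lit 18) (.exp (.alt (nat_lit 16) (.exp (.alt (nat_lit 24) (.exp (.alt (nat_lit 17) (.exp (.alt (nat_lit 26) (.exp (.alt (nat_lit 27) (.exp (.alt (nat_lit 31) (.exp (.alt (nat_lit 15) (.exp (.alt (nat_lit 23) (.exp (.alt (nat_lit 30) (.cov (nat_lit 6410243574410210443265)) (.alt (nat_lit 30) (.exp (.alt (nat_lit 28) (.cov (nat_lit 1468822007864251908096)) (.alt (nat_lit 14) (.cov (nat_lit 157047324680)) .e))) .e))) .e)) .e)) .e)) .e)) (.alt (nat_lit 26) (.cov (nat_lit 1913850117671204421635)) (.alt (nat_lit 26) (.exp (.alt (nat_lit 27) (.exp (.alt (nat_lit 30) (.cov (nat_lit 641024389546770432002)) (.alt (nat_lit 30) (.cov (nat_lit 102319477838183061782529)) (.alt (nat_lit 30) (.exp (.alt (nat_lit 14) (.cov (nat_lit 43126181818935445291011)) (.alt (nat_lit 28) (.exp (.alt (nat_lit 12) (.exp (.alt (nat_lit 29) (.cov (nat_lit 365390800777825699758081)) (.alt (nat_lit 20) (.cov (nat_lit 12135170063)) .e))) .e)) (.alt (nat_lit 28) (.exp (.alt (nat_lit 29) (.cov (nat_lit 48422711989594226690)) (.alt (nat_lit 12) (.cov (nat_lit 156981264451)) .e))) .e)))) .e)))) .e)) (.alt (nat_lit 26) (.exp (.alt (nat_lit 30) (.cov (nat_lit 404311125181035184128002)) (.alt (nat_lit 27) (.cov (nat_lit 4663019688)) .e))) .e))))) .e)) .e)) .e)) (.alt (nat_lit 18) (.cov (nat_lit 641037376978163859457)) (.alt (nat_lit 18) (.exp (.alt (nat_lit 26) (.cov (nat_lit 3168229640463218376738)) (.alt (nat_lit 16) (.cov (nat_lit 344336151548244987478023)) (.alt (nat_lit 16) (.cov (nat_lit 22772512666249096855555)) (.alt (nat_lit 16) (.exp (.alt (nat_lit 24) (.exp (.alt (nat_lit 17) (.cov (nat_lit 347668091547547981578251)) (.alt (nat_lit 17) (.cov (nat_lit 3156700926793103704066)) (.alt (nat_lit 17) (.cov (nat_lit 344338457391244478775297)) (.alt (nat_lit 17) (.exp (.alt (nat_lit 25) (.exp (.alt (nat_lit 27) (.exp (.alt (nat_lit 31) (.exp (.alt (nat_lit 15) (.exp (.alt (nat_lit 23) (.exp (.alt (nat_lit 29) (.cov (nat_lit 25299709505888756695041)) (.alt (nat_lit 29) (.exp (.alt (nat_lit 28) (.cov (nat_lit 290536230156054298624)) (.alt (nat_lit 13) (.cov (nat_lit 19608371208)) .e))) .e))) .e)) .e)) .e)) .e)) (.alt (nat_lit 25) (.cov (nat_lit 730952653944579424259)) (.alt (nat_lit 25) (.exp (.alt (nat_lit 27) (.exp (.alt (nat_lit 29) (.cov (nat_lit 638718546537555689474)) (.alt (nat_lit 29) (.cov (nat_lit 404548626898831107162113)) (.alt (nat_lit 29) (.exp (.alt (nat_lit 13) (.cov (nat_lit 345357636722592738967555)) (.alt (nat_lit 28) (.exp (.alt (nat_lit 12) (.exp (.alt (nat_lit 30) (.cov (nat_lit 365390800777825734361089)) (.alt (nat_lit 20) (.cov (nat_lit 3546284047)) .e))) .e)) (.alt (nat_lit 28) (.exp (.alt (nat_lit 30) (.cov (nat_lit 50728554998808969218)) (.alt (nat_lit 12) (.cov (nat_lit 19543359555)) .e))) .e)))) .e)))) .e)) (.alt (nat_lit 25) (.exp (.alt (nat_lit 29) (.cov (nat_lit 102077364434377266692098)) (.alt (nat_lit 27) (.cov (nat_lit 4663019688)) .e))) .e))))) .e))))) .e)) (.alt (nat_lit 16) (.cov (nat_lit 11500788139)) .e)))))) .e)))))) .e)) (.alt (nat_lit 2) (.cov (nat_lit 6299167)) .e))))))) .e)) .e)) .e)) .e)) (.alt (nat_lit 1) (.exp (.alt (nat_lit 5) (.exp (.alt (nat_lit 4) (.exp (.alt (nat_lit 6) (.exp (.alt (nat_lit 12) (.exp (.alt (nat_lit 2) (.cov (nat_lit 104579207136213788000294)) (.alt (nat_lit 2) (.cov (nat_lit 102070453711315719421986)) (.alt (nat_lit 2) (.cov (nat_lit 41516153888971948039)) (.alt (nat_lit 2) (.cov (nat_lit 115305870166820126723)) (.alt (nat_lit 2) (.exp (.alt (nat_lit 10) (.exp (.alt (nat_lit 18) (.cov (nat_lit 797823528371052609556)) (.alt (nat_lit 18) (.cov (nat_lit 797824977523821248523)) (.alt (nat_lit 18) (.exp (.alt (nat_lit 16) (.exp (.alt (nat_lit 17) (.exp (.alt (nat_lit 20) (.exp (.alt (nat_lit 19) (.exp (.alt (nat_lit 23) (.exp (.alt (nat_lit 31) (.exp (.alt (nat_lit 15) (.exp (.alt (nat_lit 30) (.exp (.alt (nat_lit 27) (.cov (nat_lit 426580965500671492097)) (.alt (nat_lit 27) (.exp (.alt (nat_lit 25) (.cov (nat_lit 6560123372208085008384)) (.alt (nat_lit 11) (.cov (nat_lit 10344202248)) .e))) .e))) .e)) .e)) .e)) .e)) (.alt (nat_lit 19) (.cov (nat_lit 406849858494708153581571)) (.alt (nat_lit 19) (.exp (.alt (nat_lit 23) (.exp (.alt (nat_lit 27) (.cov (nat_lit 1609478453417223389186)) (.alt (nat_lit 27) (.cov (nat_lit 22048471001435944779777)) (.alt (nat_lit 27) (.exp (.alt (nat_lit 11) (.cov (nat_lit 343881897196832806666243)) (.alt (nat_lit 25) (.exp (.alt (nat_lit 9) (.exp (.alt (nat_lit 29) (.cov (nat_lit 102118869357843590414337)) (.alt (nat_lit 24) (.cov (nat_lit 4626317327)) .e))) .e)) (.alt (nat_lit 25) (.exp (.alt (nat_lit 29) (.cov (nat_lit 1614090115246397063170)) (.alt (nat_lit 9) (.cov (nat_lit 156377284675)) .e))) .e)))) .e)))) .e)) (.alt (nat_lit 19) (.exp (.alt (nat_lit 27) (.cov (nat_lit 26514889022433204895746)) (.alt (nat_lit 23) (.cov (nat_lit 11642341544)) .e))) .e))))) .e)) .e)) .e)) (.alt (nat_lit 18) (.cov (nat_lit 797834701604687708161)) (.alt (nat_lit 18) (.exp (.alt (nat_lit 19) (.cov (nat_lit 4341903732161406566434)) (.alt (nat_lit 16) (.cov (nat_lit 793213291505391763463)) (.alt (nat_lit 16) (.cov (nat_lit 5368009632692695990275)) (.alt (nat_lit 16) (.exp (.alt (nat_lit 17) (.exp (.alt (nat_lit 20) (.cov (nat_lit 344117093313359336439819)) (.alt (nat_lit 20) (.cov (nat_lit 4328069175474372214786)) (.alt (nat_lit 20) (.cov (nat_lit 802436663542281142273)) (.alt (nat_lit 20) (.exp (.alt (nat_lit 21) (.exp (.alt (nat_lit 23) (.exp (.alt (nat_lit 31) (.exp (.alt (nat_lit 15) (.exp (.alt (nat_lit 30) (.exp (.alt (nat_lit 29) (.cov (nat_lit 57646084027052982273)) (.alt (nat_lit 29) (.exp (.alt (nat_lit 25) (.cov (nat_lit 652553582602601103360)) (.alt (nat_lit 13) (.cov (nat_lit 156373090312)) .e))) .e))) .e)) .e)) .e)) .e)) (.alt (nat_lit 21) (.cov (nat_lit 47954617482633544728579)) (.alt (nat_lit 21) (.exp (.alt (nat_lit 23) (.exp (.alt (nat_lit 29) (.cov (nat_lit 1614090139435652874242)) (.alt (nat_lit 29) (.cov (nat_lit 1983025135258952531969)) (.alt (nat_lit 29) (.exp (.alt (nat_lit 13) (.cov (nat_lit 22760976361696932134915)) (.alt (nat_lit 25) (.exp (.alt (nat_lit 9) (.exp (.alt (nat_lit 27) (.cov (nat_lit 102118869357843017891841)) (.alt (nat_lit 24) (.cov (nat_lit 47573893135)) .e))) .e)) (.alt (nat_lit 25) (.exp (.alt (nat_lit 27) (.cov (nat_lit 1609478429227967578114)) (.alt (nat_lit 9) (.cov (nat_lit 10346299459)) .e))) .e)))) .e)))) .e)) (.alt (nat_lit 21) (.exp (.alt (nat_lit 29) (.cov (nat_lit 347640421543587339042818)) (.alt (nat_lit 23) (.cov (nat_lit 11642341544)) .e))) .e))))) .e))))) .e)) (.alt (nat_lit 16) (.cov (nat_lit 51386795)) .e)))))) .e)))))) .e)) (.alt (nat_lit 2) (.cov (nat_lit 11553218079)) .e))))))) .e)) .e)) .e)) .e)) .e))) (.alt (nat_lit 0) (.cov (nat_lit 2322898633587949574)) (.alt (nat_lit 0) (.exp (.alt (nat_lit 1) (.exp (.alt (nat_lit 5) (.exp (.alt (nat_lit 9) (.exp (.alt (nat_lit 2) (.exp (.alt (nat_lit 6) (.cov (nat_lit 1389352306596041660369746983387138)) (.alt (nat_lit 6) (.cov (nat_lit 8488199149553849700456264489762817)) (.alt (nat_lit 6) (.cov (nat_lit 1498801252328791867609)) .e)))) (.alt (nat_lit 2) (.exp (.alt (nat_lit 6) (.cov (nat_lit 1389360696514592687442787567665154)) (.alt (nat_lit 6) (.cov (nat_lit 50026578964756924591747424858406913)) (.alt (nat_lit 6) (.cov (nat_lit 99840176811090032077680282903248896)) (.alt (nat_lit 6) (.cov (nat_lit 45402055916879377072221)) .e))))) (.alt (nat_lit 2) (.exp (.alt (nat_lit 6) (.exp (.alt (nat_lit 4) (.exp (.alt (nat_lit 12) (.exp (.alt (nat_lit 20) (.exp (.alt (nat_lit 7) (.exp (.alt (nat_lit 15) (.exp (.alt (nat_lit 23) (.exp (.alt (nat_lit 18) (.exp (.alt (nat_lit 16) (.cov (nat_lit 943132119147023046460404631863296)) (.alt (nat_lit 22) (.cov (nat_lit 1667124528668657844231)) .e))) (.alt (nat_lit 18) (.cov (nat_lit 3159005157929744596998)) (.alt (nat_lit 18) (.exp (.alt (nat_lit 26) (.exp (.alt (nat_lit 10) (.exp (.alt (nat_lit 30) (.exp (.alt (nat_lit 16) (.cov (nat_lit 21732570372834206941187)) (.alt (nat_lit 16) (.cov (nat_lit 424275131287557111809)) (.alt (nat_lit 16) (.cov (nat_lit 424275146680686346240)) (.alt (nat_lit 16) (.exp (.alt (nat_lit 17) (.cov (nat_lit 426580967709436018689)) (.alt (nat_lit 17) (.exp (.alt (nat_lit 25) (.cov (nat_lit 435804339736532746240)) (.alt (nat_lit 21) (.cov (nat_lit 634388488)) .e))) .e))) .e))))) .e)) .e)) .e)) (.alt (nat_lit 10) (.exp (.alt (nat_lit 14) (.exp (.alt (nat_lit 30) (.exp (.alt (nat_lit 26) (.cov (nat_lit 1611784281032610545667)) (.alt (nat_lit 26) (.exp (.alt (nat_lit 18) (.exp (.alt (nat_lit 24) (.cov (nat_lit 1607172586218054483969)) (.alt (nat_lit 24) (.exp (.alt (nat_lit 25) (.cov (nat_lit 1616395960453933563904)) (.alt (nat_lit 16) (.cov (nat_lit 118489096)) .e))) .e))) .e)) (.alt (nat_lit 11) (.cov (nat_lit 833618111)) .e)))) .e)) .e)) (.alt (nat_lit 10) (.cov (nat_lit 59956791275105026048)) (.alt (nat_lit 10) (.exp (.alt (nat_lit 26) (.cov (nat_lit 631801017509965987847)) (.alt (nat_lit 26) (.cov (nat_lit 69175433212974858243)) (.alt (nat_lit 26) (.cov (nat_lit 424275898746674348033)) (.alt (nat_lit 26) (.exp (.alt (nat_lit 18) (.exp (.alt (nat_lit 24) (.cov (nat_lit 1680959571308998295554)) (.alt (nat_lit 30) (.cov (nat_lit 25454201011695949709313)) (.alt (nat_lit 30) (.cov (nat_lit 6557817663339295145984)) (.alt (nat_lit 30) (.exp (.alt (nat_lit 28) (.cov (nat_lit 6401020202374042484739)) (.alt (nat_lit 28) (.cov (nat_lit 6401020211169464418305)) (.alt (nat_lit 28) (.cov (nat_lit 3018348532046099382272)) (.alt (nat_lit 28) (.exp (.alt (nat_lit 24) (.cov (nat_lit 1607172586218054483969)) (.alt (nat_lit 24) (.exp (.alt (nat_lit 25) (.cov (nat_lit 25274345234986446094336)) (.alt (nat_lit 16) (.cov (nat_lit 118489096)) .e))) .e))) .e))))) .e))))) .e)) (.alt (nat_lit 14) (.cov (nat_lit 635438555)) .e)))))) .e))))))) .e)) .e)) .e)) .e)) .e)) .e)) (.alt (nat_lit 6) (.exp (.alt (nat_lit 4) (.exp (.alt (nat_lit 12) (.exp (.alt (nat_lit 20) (.exp (.alt (nat_lit 16) (.exp (.alt (nat_lit 17) (.exp (.alt (nat_lit 18) (.exp (.alt (nat_lit 10) (.cov (nat_lit 103334048647887856861195)) (.alt (nat_lit 10) (.cov (nat_lit 6451748884915477807110)) (.alt (nat_lit 10) (.exp (.alt (nat_lit 11) (.exp (.alt (nat_lit 15) (.exp (.alt (nat_lit 27) (.exp (.alt (nat_lit 26) (.cov (nat_lit 6414855260428782534659)) (.alt (nat_lit 26) (.cov (nat_lit 659471118227327680513)) (.alt (nat_lit 26) (.cov (nat_lit 659471133620490469376)) (.alt (nat_lit 26) (.exp (.alt (nat_lit 30) (.cov (nat_lit 25306627034917017485313)) (.alt (nat_lit 24) (.cov (nat_lit 297795599)) .e))) .e))))) .e)) .e)) .e)) (.alt (nat_lit 10) (.exp (.alt (nat_lit 11) (.exp (.alt (nat_lit 27) (.exp (.alt (nat_lit 26) (.cov (nat_lit 7816807818826801479683)) (.alt (nat_lit 26) (.exp (.alt (nat_lit 24) (.exp (.alt (nat_lit 30) (.cov (nat_lit 25306627034916398825473)) (.alt (nat_lit 30) (.exp (.alt (nat_lit 31) (.cov (nat_lit 41682724088551085965312)) (.alt (nat_lit 14) (.cov (nat_lit 19611516936)) .e))) .e))) .e)) (.alt (nat_lit 26) (.cov (nat_lit 12178162256)) .e)))) .e)) .e)) (.alt (nat_lit 10) (.cov (nat_lit 25562580484173673267200)) (.alt (nat_lit 10) (.exp (.alt (nat_lit 11) (.cov (nat_lit 345357636737966422360071)) (.alt (nat_lit 11) (.cov (nat_lit 62257902152401813507)) (.alt (nat_lit 11) (.cov (nat_lit 1390423754569348546561)) (.alt (nat_lit 11) (.exp (.alt (nat_lit 15) (.exp (.alt (nat_lit 27) (.cov (nat_lit 25306627043713209073666)) (.alt (nat_lit 27) (.cov (nat_lit 426580989690506117121)) (.alt (nat_lit 27) (.cov (nat_lit 205220175154596806656)) (.alt (nat_lit 27) (.exp (.alt (nat_lit 25) (.cov (nat_lit 25302015348898686566403)) (.alt (nat_lit 25) (.cov (nat_lit 1837756895935558844417)) (.alt (nat_lit 25) (.cov (nat_lit 1837756911328688078848)) (.alt (nat_lit 25) (.exp (.alt (nat_lit 29) (.cov (nat_lit 6417161103438436630529)) (.alt (nat_lit 24) (.cov (nat_lit 297795599)) .e))) .e))))) .e))))) .e)) (.alt (nat_lit 11) (.exp (.alt (nat_lit 27) (.cov (nat_lit 426580989856042713090)) (.alt (nat_lit 15) (.cov (nat_lit 71481274179483860993)) (.alt (nat_lit 15) (.exp (.alt (nat_lit 31) (.cov (nat_lit 62257778852455514115)) (.alt (nat_lit 31) (.cov (nat_lit 62257904185305464832)) (.alt (nat_lit 13) (.cov (nat_lit 63963327)) .e)))) .e)))) .e)))))) .e))))))) .e)) .e)) .e)) .e)) .e)) .e)) .e))) (.alt (nat_lit 2) (.exp (.alt (nat_lit 6) (.cov (nat_lit 91294987883303076969650860326913)) (.alt (nat_lit 6) (.exp (.alt (nat_lit 4) (.exp (.alt (nat_lit 12) (.exp (.alt (nat_lit 20) (.exp (.alt (nat_lit 16) (.exp (.alt (nat_lit 17) (.exp (.alt (nat_lit 18) (.cov (nat_lit 1978413537204384038923)) (.alt (nat_lit 18) (.exp (.alt (nat_lit 19) (.exp (.alt (nat_lit 27) (.exp (.alt (nat_lit 23) (.exp (.alt (nat_lit 26) (.cov (nat_lit 350142260966692241801219)) (.alt (nat_lit 26) (.exp (.alt (nat_lit 24) (.exp (.alt (nat_lit 30) (.cov (nat_lit 404350324261500869410817)) (.alt (nat_lit 10) (.cov (nat_lit 46420459535)) .e))) .e)) (.alt (nat_lit 26) (.exp (.alt (nat_lit 30) (.cov (nat_lit 401216692399472902146)) (.alt (nat_lit 24) (.cov (nat_lit 183874093123)) .e))) .e)))) .e)) .e)) .e)) (.alt (nat_lit 18) (.cov (nat_lit 6700784657810551996417)) (.alt (nat_lit 18) (.exp (.alt (nat_lit 19) (.exp (.alt (nat_lit 23) (.exp (.alt (nat_lit 31) (.exp (.alt (nat_lit 29) (.exp (.alt (nat_lit 15) (.exp (.alt (nat_lit 27) (.cov (nat_lit 45438942348361172254721)) (.alt (nat_lit 27) (.exp (.alt (nat_lit 26) (.cov (nat_lit 61828874460051131072512)) (.alt (nat_lit 25) (.cov (nat_lit 185010749448)) .e))) .e))) .e)) .e)) .e)) .e)) (.alt (nat_lit 19) (.cov (nat_lit 800127944230146408451)) (.alt (nat_lit 19) (.exp (.alt (nat_lit 23) (.exp (.alt (nat_lit 27) (.cov (nat_lit 104581509715872632012802)) (.alt (nat_lit 27) (.cov (nat_lit 45404354841761431945217)) (.alt (nat_lit 27) (.exp (.alt (nat_lit 25) (.cov (nat_lit 29065151148914668208131)) (.alt (nat_lit 26) (.exp (.alt (nat_lit 24) (.exp (.alt (nat_lit 30) (.cov (nat_lit 404350324261500869410817)) (.alt (nat_lit 10) (.cov (nat_lit 46420459535)) .e))) .e)) (.alt (nat_lit 26) (.exp (.alt (nat_lit 30) (.cov (nat_lit 401216692399472902146)) (.alt (nat_lit 24) (.cov (nat_lit 183874093123)) .e))) .e)))) .e)))) .e)) (.alt (nat_lit 19) (.exp (.alt (nat_lit 27) (.cov (nat_lit 57646334735749742594)) (.alt (nat_lit 23) (.cov (nat_lit 3052406952)) .e))) .e))))) .e))))) .e)) .e)) .e)) .e)) (.alt (nat_lit 4) (.cov (nat_lit 41516153889007599623)) .e))) .e))) (.alt (nat_lit 2) (.cov (nat_lit 604144579324005056527)) (.alt (nat_lit 2) (.exp (.alt (nat_lit 6) (.exp (.alt (nat_lit 4) (.exp (.alt (nat_lit 12) (.exp (.alt (nat_lit 20) (.exp (.alt (nat_lit 10) (.cov (nat_lit 10242555066987090804757)) (.alt (nat_lit 10) (.exp (.alt (nat_lit 11) (.exp (.alt (nat_lit 15) (.exp (.alt (nat_lit 27) (.exp (.alt (nat_lit 19) (.exp (.alt (nat_lit 17) (.exp (.alt (nat_lit 26) (.cov (nat_lit 659471118228502085635)) (.alt (nat_lit 26) (.exp (.alt (nat_lit 18) (.exp (.alt (nat_lit 30) (.cov (nat_lit 433498494538064330753)) (.alt (nat_lit 24) (.cov (nat_lit 297795599)) .e))) .e)) (.alt (nat_lit 26) (.exp (.alt (nat_lit 30) (.cov (nat_lit 433498494528458326018)) (.alt (nat_lit 18) (.cov (nat_lit 1197473859)) .e))) .e)))) .e)) .e)) .e)) .e)) (.alt (nat_lit 8) (.cov (nat_lit 5116667484636289433607)) .e))) (.alt (nat_lit 10) (.cov (nat_lit 26736254575874934833158)) (.alt (nat_lit 10) (.exp (.alt (nat_lit 14) (.exp (.alt (nat_lit 15) (.exp (.alt (nat_lit 30) (.exp (.alt (nat_lit 26) (.cov (nat_lit 3013736846037436334087)) (.alt (nat_lit 26) (.cov (nat_lit 25444977747411800686595)) (.alt (nat_lit 26) (.cov (nat_lit 283619110156515672065)) (.alt (nat_lit 26) (.exp (.alt (nat_lit 18) (.exp (.alt (nat_lit 27) (.cov (nat_lit 500367950603065753602)) (.alt (nat_lit 24) (.cov (nat_lit 25440365953640050982913)) (.alt (nat_lit 24) (.cov (nat_lit 25440366061392182116352)) (.alt (nat_lit 24) (.cov (nat_lit 185045352639)) .e))))) .e)) (.alt (nat_lit 8) (.cov (nat_lit 293602779)) .e)))))) .e)) .e)) .e)) (.alt (nat_lit 10) (.cov (nat_lit 59960934234918486017)) (.alt (nat_lit 10) (.cov (nat_lit 10242566803127793614848)) (.alt (nat_lit 10) (.exp (.alt (nat_lit 11) (.exp (.alt (nat_lit 15) (.cov (nat_lit 1434980788968672130870011469234177)) (.alt (nat_lit 15) (.exp (.alt (nat_lit 31) (.cov (nat_lit 1434980788946014917463520388841472)) (.alt (nat_lit 14) (.cov (nat_lit 652553712345263636487)) .e))) .e))) (.alt (nat_lit 11) (.cov (nat_lit 652553991777900560399)) (.alt (nat_lit 11) (.exp (.alt (nat_lit 15) (.exp (.alt (nat_lit 31) (.exp (.alt (nat_lit 30) (.exp (.alt (nat_lit 23) (.exp (.alt (nat_lit 27) (.cov (nat_lit 2861551192037883117570)) (.alt (nat_lit 27) (.cov (nat_lit 2642496121544872296449)) (.alt (nat_lit 27) (.cov (nat_lit 25278957156300358680576)) (.alt (nat_lit 27) (.exp (.alt (nat_lit 26) (.cov (nat_lit 424275122491465138179)) (.alt (nat_lit 26) (.cov (nat_lit 6548594163759129296897)) (.alt (nat_lit 26) (.cov (nat_lit 6548594179152258531328)) (.alt (nat_lit 26) (.exp (.alt (nat_lit 24) (.cov (nat_lit 2861551183230337548289)) (.alt (nat_lit 18) (.cov (nat_lit 218103823)) .e))) .e))))) .e))))) .e)) .e)) .e)) .e)) (.alt (nat_lit 11) (.exp (.alt (nat_lit 15) (.exp (.alt (nat_lit 14) (.exp (.alt (nat_lit 30) (.exp (.alt (nat_lit 27) (.cov (nat_lit 25426530895596254920706)) (.alt (nat_lit 27) (.cov (nat_lit 1667124643005850451969)) (.alt (nat_lit 27) (.exp (.alt (nat_lit 26) (.cov (nat_lit 6548594163759263514627)) (.alt (nat_lit 19) (.exp (.alt (nat_lit 18) (.exp (.alt (nat_lit 17) (.cov (nat_lit 25283568604834028322817)) (.alt (nat_lit 23) (.cov (nat_lit 1297088527)) .e))) .e)) (.alt (nat_lit 19) (.exp (.alt (nat_lit 17) (.cov (nat_lit 25283568604835739598850)) (.alt (nat_lit 18) (.cov (nat_lit 2969567299)) .e))) .e)))) .e)))) .e)) .e)) .e)) (.alt (nat_lit 14) (.cov (nat_lit 438117237222102007809)) (.alt (nat_lit 14) (.exp (.alt (nat_lit 15) (.exp (.alt (nat_lit 30) (.cov (nat_lit 6557817551189323022347)) (.alt (nat_lit 30) (.cov (nat_lit 25454201119458958770182)) (.alt (nat_lit 30) (.cov (nat_lit 25454201398734912225282)) (.alt (nat_lit 30) (.cov (nat_lit 6557819365393071865857)) (.alt (nat_lit 30) (.cov (nat_lit 3022963483614063362048)) (.alt (nat_lit 30) (.exp (.alt (nat_lit 22) (.cov (nat_lit 25435754267631390031879)) (.alt (nat_lit 22) (.cov (nat_lit 25435754375374939619331)) (.alt (nat_lit 26) (.cov (nat_lit 283619110156515672065)) (.alt (nat_lit 26) (.exp (.alt (nat_lit 18) (.exp (.alt (nat_lit 27) (.cov (nat_lit 500367950603065753602)) (.alt (nat_lit 24) (.cov (nat_lit 25440365953640050982913)) (.alt (nat_lit 24) (.cov (nat_lit 25440366061392182116352)) (.alt (nat_lit 24) (.cov (nat_lit 185045352639)) .e))))) .e)) (.alt (nat_lit 22) (.cov (nat_lit 287311323)) .e)))))) .e))))))) .e)) (.alt (nat_lit 8) (.exp (.alt (nat_lit 24) (.cov (nat_lit 6700779929910546268171)) (.alt (nat_lit 24) (.exp (.alt (nat_lit 26) (.exp (.alt (nat_lit 18) (.exp (.alt (nat_lit 27) (.exp (.alt (nat_lit 25) (.cov (nat_lit 29065151148731520778243)) (.alt (nat_lit 25) (.exp (.alt (nat_lit 17) (.exp (.alt (nat_lit 29) (.cov (nat_lit 365390800777825740652545)) (.alt (nat_lit 29) (.exp (.alt (nat_lit 31) (.cov (nat_lit 6398714361563132723200)) (.alt (nat_lit 28) (.cov (nat_lit 3554672648)) .e))) .e))) .e)) (.alt (nat_lit 25) (.cov (nat_lit 1875903056)) .e)))) .e)) .e)) .e)) (.alt (nat_lit 24) (.cov (nat_lit 1683270280756697497601)) (.alt (nat_lit 24) (.exp (.alt (nat_lit 26) (.exp (.alt (nat_lit 18) (.exp (.alt (nat_lit 19) (.exp (.alt (nat_lit 17) (.exp (.alt (nat_lit 27) (.exp (.alt (nat_lit 30) (.cov (nat_lit 404350324261500273819649)) (.alt (nat_lit 30) (.exp (.alt (nat_lit 31) (.cov (nat_lit 2649413628581666357248)) (.alt (nat_lit 22) (.cov (nat_lit 1936719880)) .e))) .e))) .e)) .e)) .e)) .e)) (.alt (nat_lit 28) (.cov (nat_lit 406928257157019815903235)) (.alt (nat_lit 28) (.exp (.alt (nat_lit 30) (.exp (.alt (nat_lit 29) (.cov (nat_lit 1597949238391107223554)) (.alt (nat_lit 29) (.cov (nat_lit 1597949350520671961089)) (.alt (nat_lit 29) (.exp (.alt (nat_lit 21) (.cov (nat_lit 63288473091480461770755)) (.alt (nat_lit 31) (.exp (.alt (nat_lit 15) (.exp (.alt (nat_lit 23) (.cov (nat_lit 25278956918806446866433)) (.alt (nat_lit 23) (.exp (.alt (nat_lit 19) (.cov (nat_lit 25297403665078571499520)) (.alt (nat_lit 22) (.cov (nat_lit 287309832)) .e))) .e))) .e)) (.alt (nat_lit 21) (.cov (nat_lit 10526655056)) .e)))) .e)))) .e)) (.alt (nat_lit 16) (.cov (nat_lit 47565507731)) .e))))) .e))))) .e)))))))) .e)))))))) .e)) .e)) .e)) .e)) (.alt (nat_lit 2) (.exp (.alt (nat_lit 6) (.exp (.alt (nat_lit 4) (.exp (.alt (nat_lit 12) (.exp (.alt (nat_lit 10) (.cov (nat_lit 21578080727412785545234)) (.alt (nat_lit 10) (.cov (nat_lit 404532490734474193010699)) (.alt (nat_lit 10) (.cov (nat_lit 650256746839053172738)) (.alt (nat_lit 10) (.cov (nat_lit 59962897962685693953)) (.alt (nat_lit 10) (.exp (.alt (nat_lit 26) (.cov (nat_lit 10251778438977821868066)) (.alt (nat_lit 11) (.cov (nat_lit 652556867962946977799)) (.alt (nat_lit 11) (.cov (nat_lit 62264826876633546755)) (.alt (nat_lit 11) (.cov (nat_lit 62268740971900436480)) (.alt (nat_lit 8) (.cov (nat_lit 9789511775)) .e)))))) .e)))))) .e)) .e)) .e)) (.alt (nat_lit 2) (.cov (nat_lit 613371197119172444161)) (.alt (nat_lit 2) (.exp (.alt (nat_lit 6) (.exp (.alt (nat_lit 10) (.cov (nat_lit 45397439012590244069593)) (.alt (nat_lit 10) (.cov (nat_lit 21578082176557903773789)) (.alt (nat_lit 10) (.exp (.alt (nat_lit 11) (.exp (.alt (nat_lit 15) (.exp (.alt (nat_lit 27) (.exp (.alt (nat_lit 19) (.exp (.alt (nat_lit 18) (.exp (.alt (nat_lit 17) (.exp (.alt (nat_lit 14) (.cov (nat_lit 22754058847915876548615)) (.alt (nat_lit 14) (.cov (nat_lit 659471241393253384195)) (.alt (nat_lit 14) (.cov (nat_lit 1840063141375746506753)) (.alt (nat_lit 14) (.exp (.alt (nat_lit 12) (.exp (.alt (nat_lit 30) (.cov (nat_lit 2868468721065529442306)) (.alt (nat_lit 30) (.cov (nat_lit 641024389546816569345)) (.alt (nat_lit 30) (.cov (nat_lit 25285874586371953262592)) (.alt (nat_lit 30) (.exp (.alt (nat_lit 22) (.cov (nat_lit 2850021968185417269251)) (.alt (nat_lit 22) (.cov (nat_lit 1448069427388174303233)) (.alt (nat_lit 22) (.cov (nat_lit 1448069442771572752384)) (.alt (nat_lit 22) (.exp (.alt (nat_lit 20) (.cov (nat_lit 433498494528323059713)) (.alt (nat_lit 23) (.cov (nat_lit 223346703)) .e))) .e))))) .e))))) .e)) (.alt (nat_lit 14) (.exp (.alt (nat_lit 30) (.cov (nat_lit 641024389567421087746)) (.alt (nat_lit 12) (.cov (nat_lit 654859555510549479425)) (.alt (nat_lit 12) (.exp (.alt (nat_lit 28) (.cov (nat_lit 6414855269235076104195)) (.alt (nat_lit 28) (.cov (nat_lit 6414855394569033351168)) (.alt (nat_lit 4) (.cov (nat_lit 9785311423)) .e)))) .e)))) .e)))))) .e)) .e)) .e)) .e)) .e)) .e)) (.alt (nat_lit 10) (.cov (nat_lit 21531971036037433524235)) (.alt (nat_lit 10) (.cov (nat_lit 59962897962685693958)) (.alt (nat_lit 10) (.exp (.alt (nat_lit 11) (.exp (.alt (nat_lit 15) (.exp (.alt (nat_lit 27) (.exp (.alt (nat_lit 26) (.exp (.alt (nat_lit 18) (.exp (.alt (nat_lit 19) (.exp (.alt (nat_lit 17) (.exp (.alt (nat_lit 22) (.exp (.alt (nat_lit 30) (.exp (.alt (nat_lit 23) (.exp (.alt (nat_lit 24) (.cov (nat_lit 102111951828815936749569)) (.alt (nat_lit 24) (.exp (.alt (nat_lit 28) (.cov (nat_lit 21538879560060244066304)) (.alt (nat_lit 16) (.cov (nat_lit 10523508744)) .e))) .e))) .e)) .e)) .e)) .e)) .e)) (.alt (nat_lit 18) (.exp (.alt (nat_lit 19) (.exp (.alt (nat_lit 17) (.exp (.alt (nat_lit 23) (.exp (.alt (nat_lit 22) (.exp (.alt (nat_lit 30) (.exp (.alt (nat_lit 24) (.cov (nat_lit 102111951828815936749569)) (.alt (nat_lit 24) (.exp (.alt (nat_lit 28) (.cov (nat_lit 21538879560060244066304)) (.alt (nat_lit 16) (.cov (nat_lit 10523508744)) .e))) .e))) .e)) .e)) .e)) .e)) (.alt (nat_lit 19) (.exp (.alt (nat_lit 17) (.exp (.alt (nat_lit 21) (.exp (.alt (nat_lit 23) (.exp (.alt (nat_lit 20) (.exp (.alt (nat_lit 24) (.cov (nat_lit 404343406732473239863297)) (.alt (nat_lit 24) (.exp (.alt (nat_lit 28) (.cov (nat_lit 404306513246524244230144)) (.alt (nat_lit 25) (.cov (nat_lit 4627365896)) .e))) .e))) .e)) .e)) .e)) .e)) .e))) .e))) (.alt (nat_lit 26) (.cov (nat_lit 29141244370465895481359)) (.alt (nat_lit 26) (.exp (.alt (nat_lit 18) (.exp (.alt (nat_lit 16) (.exp (.alt (nat_lit 24) (.exp (.alt (nat_lit 17) (.exp (.alt (nat_lit 30) (.cov (nat_lit 365383883257605637799938)) (.alt (nat_lit 30) (.cov (nat_lit 641024389546803986433)) (.alt (nat_lit 30) (.cov (nat_lit 404550932741840321904640)) (.alt (nat_lit 30) (.exp (.alt (nat_lit 22) (.cov (nat_lit 365365436504725525626883)) (.alt (nat_lit 22) (.cov (nat_lit 23141440458070607003649)) (.alt (nat_lit 22) (.cov (nat_lit 23141440473454005452800)) (.alt (nat_lit 22) (.exp (.alt (nat_lit 20) (.cov (nat_lit 25283568604834015739905)) (.alt (nat_lit 23) (.cov (nat_lit 3545235471)) .e))) .e))))) .e))))) .e)) .e)) .e)) .e)) (.alt (nat_lit 8) (.cov (nat_lit 276704457487921709059)) (.alt (nat_lit 8) (.cov (nat_lit 2859252396896477511681)) (.alt (nat_lit 8) (.exp (.alt (nat_lit 12) (.exp (.alt (nat_lit 24) (.cov (nat_lit 2863857050428987408395)) (.alt (nat_lit 24) (.cov (nat_lit 1461904615178955128838)) (.alt (nat_lit 24) (.cov (nat_lit 654859834630147670018)) (.alt (nat_lit 24) (.cov (nat_lit 1365060908643833085953)) (.alt (nat_lit 24) (.cov (nat_lit 1365062357790394155008)) (.alt (nat_lit 24) (.exp (.alt (nat_lit 26) (.cov (nat_lit 115292183446333423623)) (.alt (nat_lit 26) (.cov (nat_lit 659471241372623699971)) (.alt (nat_lit 16) (.cov (nat_lit 636413090566204555265)) (.alt (nat_lit 16) (.exp (.alt (nat_lit 18) (.exp (.alt (nat_lit 20) (.cov (nat_lit 21741793751471015067650)) (.alt (nat_lit 17) (.cov (nat_lit 6394102697535546064897)) (.alt (nat_lit 17) (.cov (nat_lit 638718654289701502976)) (.alt (nat_lit 17) (.cov (nat_lit 4652531903)) .e))))) .e)) (.alt (nat_lit 26) (.cov (nat_lit 622855643)) .e)))))) .e))))))) .e)) (.alt (nat_lit 8) (.exp (.alt (nat_lit 24) (.cov (nat_lit 45637244985693291151371)) (.alt (nat_lit 24) (.cov (nat_lit 22860129440570531643394)) (.alt (nat_lit 12) (.cov (nat_lit 1466519450352147759105)) (.alt (nat_lit 12) (.cov (nat_lit 9793703940)) .e))))) .e)))))))) .e)) .e)) .e)) (.alt (nat_lit 10) (.exp (.alt (nat_lit 11) (.exp (.alt (nat_lit 15) (.exp (.alt (nat_lit 26) (.cov (nat_lit 22043859953134839267362)) (.alt (nat_lit 8) (.cov (nat_lit 21527353630511283044359)) (.alt (nat_lit 8) (.cov (nat_lit 25290493190563933716483)) (.alt (nat_lit 8) (.cov (nat_lit 55351211944256208896)) (.alt (nat_lit 8) (.cov (nat_lit 25172060)) .e)))))) .e)) .e)) (.alt (nat_lit 10) (.cov (nat_lit 502690031188501856256)) (.alt (nat_lit 10) (.exp (.alt (nat_lit 26) (.exp (.alt (nat_lit 18) (.exp (.alt (nat_lit 19) (.exp (.alt (nat_lit 27) (.exp (.alt (nat_lit 17) (.exp (.alt (nat_lit 16) (.exp (.alt (nat_lit 24) (.exp (.alt (nat_lit 20) (.exp (.alt (nat_lit 30) (.cov (nat_lit 32281819732685881346)) (.alt (nat_lit 30) (.cov (nat_lit 29030563518995552534529)) (.alt (nat_lit 30) (.cov (nat_lit 25380414237710632353792)) (.alt (nat_lit 30) (.exp (.alt (nat_lit 14) (.cov (nat_lit 102075058340834040610819)) (.alt (nat_lit 14) (.cov (nat_lit 43126181818925680951297)) (.alt (nat_lit 14) (.cov (nat_lit 43126181834309079400448)) (.alt (nat_lit 14) (.exp (.alt (nat_lit 15) (.cov (nat_lit 102077364183686907428865)) (.alt (nat_lit 12) (.cov (nat_lit 184428789775)) .e))) .e))))) .e))))) .e)) .e)) .e)) .e)) .e)) .e)) (.alt (nat_lit 18) (.exp (.alt (nat_lit 19) (.exp (.alt (nat_lit 27) (.exp (.alt (nat_lit 17) (.exp (.alt (nat_lit 16) (.exp (.alt (nat_lit 24) (.exp (.alt (nat_lit 20) (.exp (.alt (nat_lit 30) (.cov (nat_lit 32281819732685881346)) (.alt (nat_lit 30) (.cov (nat_lit 29030563518995552534529)) (.alt (nat_lit 30) (.cov (nat_lit 25380414237710632353792)) (.alt (nat_lit 30) (.exp (.alt (nat_lit 14) (.cov (nat_lit 102075058340834040610819)) (.alt (nat_lit 14) (.cov (nat_lit 43126181818925680951297)) (.alt (nat_lit 14) (.cov (nat_lit 43126181834309079400448)) (.alt (nat_lit 14) (.exp (.alt (nat_lit 15) (.cov (nat_lit 102077364183686907428865)) (.alt (nat_lit 12) (.cov (nat_lit 184428789775)) .e))) .e))))) .e))))) .e)) .e)) .e)) .e)) .e)) .e)) .e))) (.alt (nat_lit 11) (.cov (nat_lit 21580388019567655387170)) (.alt (nat_lit 11) (.cov (nat_lit 1510334249700621811727)) (.alt (nat_lit 11) (.exp (.alt (nat_lit 15) (.exp (.alt (nat_lit 14) (.exp (.alt (nat_lit 12) (.exp (.alt (nat_lit 30) (.exp (.alt (nat_lit 27) (.cov (nat_lit 25306627059108551852043)) (.alt (nat_lit 27) (.cov (nat_lit 191385216058253115398)) (.alt (nat_lit 27) (.cov (nat_lit 6550900409189734023170)) (.alt (nat_lit 27) (.cov (nat_lit 1593339366555988787201)) (.alt (nat_lit 27) (.cov (nat_lit 117601289805785726976)) (.alt (nat_lit 27) (.exp (.alt (nat_lit 26) (.cov (nat_lit 6548594179152862511111)) (.alt (nat_lit 26) (.cov (nat_lit 6548594286905002033155)) (.alt (nat_lit 19) (.cov (nat_lit 21880144734451966935041)) (.alt (nat_lit 19) (.exp (.alt (nat_lit 18) (.exp (.alt (nat_lit 17) (.cov (nat_lit 21730264536433535483906)) (.alt (nat_lit 17) (.cov (nat_lit 22837069196237829308417)) (.alt (nat_lit 17) (.cov (nat_lit 2861551420724815593472)) (.alt (nat_lit 17) (.exp (.alt (nat_lit 16) (.cov (nat_lit 424275122491433680899)) (.alt (nat_lit 16) (.cov (nat_lit 636412688135190740993)) (.alt (nat_lit 16) (.cov (nat_lit 636412703528353529856)) (.alt (nat_lit 16) (.exp (.alt (nat_lit 20) (.cov (nat_lit 433498494528323059713)) (.alt (nat_lit 24) (.cov (nat_lit 2915041295)) .e))) .e))))) .e))))) .e)) (.alt (nat_lit 26) (.cov (nat_lit 52430299)) .e)))))) .e))))))) .e)) .e)) .e)) .e)) (.alt (nat_lit 11) (.cov (nat_lit 62268740971900436483)) (.alt (nat_lit 11) (.cov (nat_lit 21534281582762559275009)) (.alt (nat_lit 11) (.exp (.alt (nat_lit 15) (.exp (.alt (nat_lit 27) (.cov (nat_lit 43811437188534501397)) (.alt (nat_lit 27) (.cov (nat_lit 2642497935743057395723)) (.alt (nat_lit 27) (.cov (nat_lit 24040724095896512364550)) (.alt (nat_lit 27) (.exp (.alt (nat_lit 26) (.exp (.alt (nat_lit 18) (.exp (.alt (nat_lit 24) (.exp (.alt (nat_lit 25) (.cov (nat_lit 10175685232646002049031)) (.alt (nat_lit 25) (.exp (.alt (nat_lit 17) (.exp (.alt (nat_lit 19) (.exp (.alt (nat_lit 23) (.exp (.alt (nat_lit 29) (.cov (nat_lit 365383883248798069161985)) (.alt (nat_lit 29) (.exp (.alt (nat_lit 28) (.cov (nat_lit 25281262764014069350400)) (.alt (nat_lit 31) (.cov (nat_lit 12144607240)) .e))) .e))) .e)) .e)) .e)) (.alt (nat_lit 25) (.cov (nat_lit 10249472595968329252865)) (.alt (nat_lit 25) (.exp (.alt (nat_lit 17) (.exp (.alt (nat_lit 29) (.cov (nat_lit 404343406741268724711426)) (.alt (nat_lit 29) (.cov (nat_lit 6417161127627072733185)) (.alt (nat_lit 29) (.cov (nat_lit 10254084009307868758016)) (.alt (nat_lit 29) (.exp (.alt (nat_lit 31) (.cov (nat_lit 404348018418491094728707)) (.alt (nat_lit 31) (.cov (nat_lit 26706273750305247068161)) (.alt (nat_lit 31) (.cov (nat_lit 26706273765698376302592)) (.alt (nat_lit 31) (.exp (.alt (nat_lit 30) (.cov (nat_lit 50728554998842523649)) (.alt (nat_lit 23) (.cov (nat_lit 12136218639)) .e))) .e))))) .e))))) .e)) (.alt (nat_lit 19) (.exp (.alt (nat_lit 23) (.cov (nat_lit 26687827021625939722242)) (.alt (nat_lit 17) (.cov (nat_lit 344338454242243737812993)) (.alt (nat_lit 17) (.exp (.alt (nat_lit 21) (.cov (nat_lit 365365436513530208583683)) (.alt (nat_lit 21) (.exp (.alt (nat_lit 23) (.exp (.alt (nat_lit 29) (.cov (nat_lit 365383883248798069161985)) (.alt (nat_lit 29) (.exp (.alt (nat_lit 28) (.cov (nat_lit 365346989762849672265728)) (.alt (nat_lit 31) (.cov (nat_lit 12144607240)) .e))) .e))) .e)) (.alt (nat_lit 16) (.cov (nat_lit 156585951423)) .e)))) .e)))) .e)))))) .e)) .e)) .e)) (.alt (nat_lit 27) (.exp (.alt (nat_lit 26) (.exp (.alt (nat_lit 18) (.exp (.alt (nat_lit 25) (.exp (.alt (nat_lit 24) (.exp (.alt (nat_lit 28) (.exp (.alt (nat_lit 30) (.exp (.alt (nat_lit 12) (.exp (.alt (nat_lit 17) (.cov (nat_lit 638718524547933405185)) (.alt (nat_lit 17) (.exp (.alt (nat_lit 21) (.cov (nat_lit 2635578570526389436416)) (.alt (nat_lit 19) (.cov (nat_lit 829423624)) .e))) .e))) .e)) .e)) .e)) .e)) (.alt (nat_lit 25) (.cov (nat_lit 10249472595978100932611)) (.alt (nat_lit 25) (.exp (.alt (nat_lit 24) (.exp (.alt (nat_lit 29) (.exp (.alt (nat_lit 28) (.exp (.alt (nat_lit 30) (.exp (.alt (nat_lit 12) (.exp (.alt (nat_lit 21) (.cov (nat_lit 53034400207049064448)) (.alt (nat_lit 31) (.cov (nat_lit 57671688)) .e))) .e)) .e)) .e)) (.alt (nat_lit 17) (.cov (nat_lit 102317171992975400501249)) (.alt (nat_lit 17) (.exp (.alt (nat_lit 21) (.cov (nat_lit 365365436513530208583683)) (.alt (nat_lit 21) (.exp (.alt (nat_lit 29) (.exp (.alt (nat_lit 20) (.cov (nat_lit 404343406732472632737793)) (.alt (nat_lit 23) (.cov (nat_lit 12136218639)) .e))) .e)) (.alt (nat_lit 16) (.cov (nat_lit 156585951423)) .e)))) .e)))) .e)) (.alt (nat_lit 19) (.cov (nat_lit 722472087)) .e))))) .e)) .e)) (.alt (nat_lit 27) (.cov (nat_lit 22046177173889781596160)) (.alt (nat_lit 27) (.exp (.alt (nat_lit 26) (.exp (.alt (nat_lit 18) (.exp (.alt (nat_lit 19) (.exp (.alt (nat_lit 17) (.exp (.alt (nat_lit 22) (.exp (.alt (nat_lit 30) (.exp (.alt (nat_lit 23) (.exp (.alt (nat_lit 24) (.cov (nat_lit 102111951828815936749569)) (.alt (nat_lit 24) (.exp (.alt (nat_lit 28) (.cov (nat_lit 21538879560060244066304)) (.alt (nat_lit 16) (.cov (nat_lit 10523508744)) .e))) .e))) .e)) .e)) .e)) .e)) .e)) (.alt (nat_lit 18) (.exp (.alt (nat_lit 19) (.exp (.alt (nat_lit 17) (.exp (.alt (nat_lit 23) (.exp (.alt (nat_lit 22) (.exp (.alt (nat_lit 30) (.exp (.alt (nat_lit 24) (.cov (nat_lit 102111951828815936749569)) (.alt (nat_lit 24) (.exp (.alt (nat_lit 28) (.cov (nat_lit 21538879560060244066304)) (.alt (nat_lit 16) (.cov (nat_lit 10523508744)) .e))) .e))) .e)) .e)) .e)) .e)) (.alt (nat_lit 19) (.exp (.alt (nat_lit 17) (.exp (.alt (nat_lit 21) (.exp (.alt (nat_lit 23) (.exp (.alt (nat_lit 20) (.exp (.alt (nat_lit 24) (.cov (nat_lit 404343406732473239863297)) (.alt (nat_lit 24) (.exp (.alt (nat_lit 28) (.cov (nat_lit 404306513246524244230144)) (.alt (nat_lit 25) (.cov (nat_lit 4627365896)) .e))) .e))) .e)) .e)) .e)) .e)) .e))) .e))) (.alt (nat_lit 26) (.cov (nat_lit 29141244370465895481359)) (.alt (nat_lit 26) (.exp (.alt (nat_lit 18) (.exp (.alt (nat_lit 16) (.exp (.alt (nat_lit 24) (.exp (.alt (nat_lit 17) (.exp (.alt (nat_lit 30) (.cov (nat_lit 365383883257605637799938)) (.alt (nat_lit 30) (.cov (nat_lit 641024389546803986433)) (.alt (nat_lit 30) (.cov (nat_lit 404550932741840321904640)) (.alt (nat_lit 30) (.exp (.alt (nat_lit 22) (.cov (nat_lit 365365436504725525626883)) (.alt (nat_lit 22) (.cov (nat_lit 23141440458070607003649)) (.alt (nat_lit 22) (.cov (nat_lit 23141440473454005452800)) (.alt (nat_lit 22) (.exp (.alt (nat_lit 20) (.cov (nat_lit 25283568604834015739905)) (.alt (nat_lit 23) (.cov (nat_lit 3545235471)) .e))) .e))))) .e))))) .e)) .e)) .e)) .e)) (.alt (nat_lit 26) (.cov (nat_lit 41508472884606009347)) (.alt (nat_lit 26) (.cov (nat_lit 21513522414003041599489)) (.alt (nat_lit 26) (.exp (.alt (nat_lit 18) (.exp (.alt (nat_lit 24) (.exp (.alt (nat_lit 16) (.cov (nat_lit 1440051154437807914048382521311232)) (.alt (nat_lit 8) (.cov (nat_lit 21751017138917732253703)) .e))) (.alt (nat_lit 24) (.cov (nat_lit 404564767887857820893190)) (.alt (nat_lit 24) (.exp (.alt (nat_lit 28) (.exp (.alt (nat_lit 30) (.exp (.alt (nat_lit 12) (.exp (.alt (nat_lit 16) (.cov (nat_lit 25421919187578998751235)) (.alt (nat_lit 16) (.cov (nat_lit 636412688144947740673)) (.alt (nat_lit 16) (.cov (nat_lit 636412703528346189824)) (.alt (nat_lit 16) (.exp (.alt (nat_lit 17) (.cov (nat_lit 638718524547933405185)) (.alt (nat_lit 17) (.exp (.alt (nat_lit 21) (.cov (nat_lit 53034400207061647360)) (.alt (nat_lit 19) (.cov (nat_lit 829423624)) .e))) .e))) .e))))) .e)) .e)) .e)) (.alt (nat_lit 24) (.cov (nat_lit 1365060908634653851649)) (.alt (nat_lit 24) (.cov (nat_lit 61796597528758633627648)) (.alt (nat_lit 24) (.exp (.alt (nat_lit 16) (.cov (nat_lit 4251974541976760483847)) (.alt (nat_lit 16) (.exp (.alt (nat_lit 17) (.exp (.alt (nat_lit 19) (.exp (.alt (nat_lit 23) (.exp (.alt (nat_lit 20) (.cov (nat_lit 102111951828825103400961)) (.alt (nat_lit 20) (.exp (.alt (nat_lit 28) (.cov (nat_lit 140656434557164191744)) (.alt (nat_lit 22) (.cov (nat_lit 13218349064)) .e))) .e))) .e)) .e)) .e)) (.alt (nat_lit 16) (.cov (nat_lit 344336148671922569216001)) (.alt (nat_lit 16) (.exp (.alt (nat_lit 17) (.exp (.alt (nat_lit 20) (.cov (nat_lit 404343406741280200327170)) (.alt (nat_lit 20) (.cov (nat_lit 6396408540553904390145)) (.alt (nat_lit 20) (.cov (nat_lit 42109305181595041267712)) (.alt (nat_lit 20) (.exp (.alt (nat_lit 22) (.cov (nat_lit 404348018418502536790019)) (.alt (nat_lit 22) (.cov (nat_lit 29067456991740069675009)) (.alt (nat_lit 22) (.cov (nat_lit 29067457007133198909440)) (.alt (nat_lit 22) (.exp (.alt (nat_lit 30) (.cov (nat_lit 25306627034916432379905)) (.alt (nat_lit 23) (.cov (nat_lit 4629463055)) .e))) .e))))) .e))))) .e)) (.alt (nat_lit 16) (.exp (.alt (nat_lit 20) (.exp (.alt (nat_lit 28) (.exp (.alt (nat_lit 30) (.exp (.alt (nat_lit 12) (.exp (.alt (nat_lit 21) (.cov (nat_lit 2635578570526386290688)) (.alt (nat_lit 22) (.cov (nat_lit 11566841864)) .e))) .e)) .e)) .e)) (.alt (nat_lit 17) (.cov (nat_lit 102317171992975400501249)) (.alt (nat_lit 17) (.exp (.alt (nat_lit 21) (.cov (nat_lit 103368636277635782017027)) (.alt (nat_lit 21) (.exp (.alt (nat_lit 20) (.exp (.alt (nat_lit 29) (.cov (nat_lit 404343406732482406514689)) (.alt (nat_lit 23) (.cov (nat_lit 4629463055)) .e))) .e)) (.alt (nat_lit 25) (.cov (nat_lit 4660920511)) .e)))) .e)))) .e)))))) .e))))))) .e)) (.alt (nat_lit 26) (.exp (.alt (nat_lit 18) (.cov (nat_lit 347794912908659306528779)) (.alt (nat_lit 18) (.exp (.alt (nat_lit 16) (.exp (.alt (nat_lit 24) (.exp (.alt (nat_lit 17) (.exp (.alt (nat_lit 22) (.cov (nat_lit 23141440458070607003651)) (.alt (nat_lit 22) (.exp (.alt (nat_lit 30) (.exp (.alt (nat_lit 20) (.cov (nat_lit 25283568604834015739905)) (.alt (nat_lit 23) (.cov (nat_lit 3545235471)) .e))) .e)) (.alt (nat_lit 22) (.cov (nat_lit 13251903845)) .e)))) .e)) .e)) .e)) (.alt (nat_lit 18) (.cov (nat_lit 272094385515926650881)) (.alt (nat_lit 18) (.exp (.alt (nat_lit 16) (.exp (.alt (nat_lit 24) (.exp (.alt (nat_lit 28) (.exp (.alt (nat_lit 30) (.exp (.alt (nat_lit 12) (.exp (.alt (nat_lit 17) (.cov (nat_lit 638718524547933405185)) (.alt (nat_lit 17) (.exp (.alt (nat_lit 21) (.cov (nat_lit 53034400207061647360)) (.alt (nat_lit 19) (.cov (nat_lit 829423624)) .e))) .e))) .e)) .e)) .e)) .e)) (.alt (nat_lit 16) (.cov (nat_lit 344336148671915697897475)) (.alt (nat_lit 16) (.exp (.alt (nat_lit 24) (.exp (.alt (nat_lit 20) (.exp (.alt (nat_lit 28) (.exp (.alt (nat_lit 30) (.exp (.alt (nat_lit 12) (.exp (.alt (nat_lit 21) (.cov (nat_lit 2635578570526386290688)) (.alt (nat_lit 22) (.cov (nat_lit 11566841864)) .e))) .e)) .e)) .e)) (.alt (nat_lit 17) (.cov (nat_lit 102317171992975400501249)) (.alt (nat_lit 17) (.exp (.alt (nat_lit 21) (.cov (nat_lit 103368636277635782017027)) (.alt (nat_lit 21) (.exp (.alt (nat_lit 20) (.exp (.alt (nat_lit 29) (.cov (nat_lit 404343406732482406514689)) (.alt (nat_lit 23) (.cov (nat_lit 4629463055)) .e))) .e)) (.alt (nat_lit 25) (.cov (nat_lit 4660920511)) .e)))) .e)))) .e)) (.alt (nat_lit 19) (.cov (nat_lit 722472087)) .e))))) .e))))) .e)))))))) .e)))))))) .e)) (.alt (nat_lit 11) (.exp (.alt (nat_lit 15) (.cov (nat_lit 1505717332197384388626)) (.alt (nat_lit 15) (.cov (nat_lit 45630332193361747771403)) (.alt (nat_lit 15) (.cov (nat_lit 6564744065472177111042)) (.alt (nat_lit 15) (.cov (nat_lit 71492113008753115137)) (.alt (nat_lit 15) (.exp (.alt (nat_lit 31) (.cov (nat_lit 104696802253364199948322)) (.alt (nat_lit 14) (.cov (nat_lit 6562432500732797124615)) (.alt (nat_lit 14) (.cov (nat_lit 6414862317114865221635)) (.alt (nat_lit 14) (.cov (nat_lit 69186269999538372608)) (.alt (nat_lit 7) (.cov (nat_lit 628103263)) .e)))))) .e)))))) .e))))))))) .e)))))))))) .e)) (.alt (nat_lit 2) (.exp (.alt (nat_lit 6) (.cov (nat_lit 45609579604079221407961)) (.alt (nat_lit 6) (.cov (nat_lit 343879600352070572441618)) (.alt (nat_lit 6) (.cov (nat_lit 1508033484226503376907)) (.alt (nat_lit 6) (.exp (.alt (nat_lit 7) (.exp (.alt (nat_lit 15) (.exp (.alt (nat_lit 23) (.exp (.alt (nat_lit 22) (.cov (nat_lit 63378402297050482868258)) (.alt (nat_lit 4) (.cov (nat_lit 3864596179778636087303)) (.alt (nat_lit 4) (.cov (nat_lit 2850029024850563039235)) (.alt (nat_lit 4) (.exp (.alt (nat_lit 12) (.exp (.alt (nat_lit 20) (.cov (nat_lit 4242751372248714575883)) (.alt (nat_lit 20) (.exp (.alt (nat_lit 16) (.exp (.alt (nat_lit 18) (.exp (.alt (nat_lit 17) (.exp (.alt (nat_lit 28) (.cov (nat_lit 29053621933684793802755)) (.alt (nat_lit 28) (.exp (.alt (nat_lit 24) (.exp (.alt (nat_lit 30) (.cov (nat_lit 1621007644429710786561)) (.alt (nat_lit 29) (.cov (nat_lit 47579136015)) .e))) .e)) (.alt (nat_lit 22) (.cov (nat_lit 10030678207)) .e)))) .e)) .e)) .e)) (.alt (nat_lit 20) (.cov (nat_lit 25447288360101306433537)) (.alt (nat_lit 20) (.exp (.alt (nat_lit 16) (.exp (.alt (nat_lit 18) (.exp (.alt (nat_lit 26) (.exp (.alt (nat_lit 10) (.exp (.alt (nat_lit 27) (.exp (.alt (nat_lit 24) (.cov (nat_lit 2861551183230350131201)) (.alt (nat_lit 17) (.cov (nat_lit 630194191)) .e))) .e)) .e)) .e)) .e)) (.alt (nat_lit 22) (.cov (nat_lit 22057694646151690584067)) (.alt (nat_lit 22) (.exp (.alt (nat_lit 18) (.exp (.alt (nat_lit 30) (.cov (nat_lit 25454201011879188365314)) (.alt (nat_lit 30) (.cov (nat_lit 10242554789863806205953)) (.alt (nat_lit 30) (.exp (.alt (nat_lit 28) (.cov (nat_lit 404334183369233153392643)) (.alt (nat_lit 26) (.exp (.alt (nat_lit 10) (.exp (.alt (nat_lit 24) (.cov (nat_lit 1607172586218054483969)) (.alt (nat_lit 24) (.exp (.alt (nat_lit 25) (.cov (nat_lit 1616395960453933563904)) (.alt (nat_lit 16) (.cov (nat_lit 118489096)) .e))) .e))) .e)) (.alt (nat_lit 28) (.cov (nat_lit 183937008208)) .e)))) .e)))) .e)) (.alt (nat_lit 22) (.cov (nat_lit 166146870418)) .e))))) .e))))) .e)) (.alt (nat_lit 4) (.cov (nat_lit 314579035)) .e)))))) .e)) .e)) .e)) (.alt (nat_lit 6) (.cov (nat_lit 1378906770491196833793)) (.alt (nat_lit 6) (.exp (.alt (nat_lit 7) (.cov (nat_lit 10143406693867527864358)) (.alt (nat_lit 7) (.cov (nat_lit 102081982926361222709282)) (.alt (nat_lit 7) (.cov (nat_lit 53045368935045660679)) (.alt (nat_lit 7) (.cov (nat_lit 1381213682225713774595)) (.alt (nat_lit 7) (.exp (.alt (nat_lit 15) (.exp (.alt (nat_lit 23) (.cov (nat_lit 6712310847047126220820)) (.alt (nat_lit 23) (.cov (nat_lit 809354192570056441867)) (.alt (nat_lit 23) (.exp (.alt (nat_lit 19) (.exp (.alt (nat_lit 18) (.exp (.alt (nat_lit 17) (.exp (.alt (nat_lit 22) (.exp (.alt (nat_lit 20) (.exp (.alt (nat_lit 28) (.exp (.alt (nat_lit 12) (.exp (.alt (nat_lit 29) (.exp (.alt (nat_lit 30) (.cov (nat_lit 59951927036267724801)) (.alt (nat_lit 30) (.exp (.alt (nat_lit 26) (.cov (nat_lit 645636053574961070080)) (.alt (nat_lit 14) (.cov (nat_lit 156374138888)) .e))) .e))) .e)) .e)) .e)) .e)) (.alt (nat_lit 22) (.cov (nat_lit 47956923325642755276803)) (.alt (nat_lit 22) (.exp (.alt (nat_lit 20) (.exp (.alt (nat_lit 30) (.cov (nat_lit 1621007668463295004674)) (.alt (nat_lit 30) (.cov (nat_lit 1989942664286594662401)) (.alt (nat_lit 30) (.exp (.alt (nat_lit 14) (.cov (nat_lit 22754058832669292101635)) (.alt (nat_lit 26) (.exp (.alt (nat_lit 10) (.exp (.alt (nat_lit 24) (.cov (nat_lit 102111951828815375761409)) (.alt (nat_lit 27) (.cov (nat_lit 47572844559)) .e))) .e)) (.alt (nat_lit 26) (.exp (.alt (nat_lit 24) (.cov (nat_lit 1607172586218750738434)) (.alt (nat_lit 10) (.cov (nat_lit 10343153731)) .e))) .e)))) .e)))) .e)) (.alt (nat_lit 22) (.exp (.alt (nat_lit 30) (.cov (nat_lit 347642727386596553785346)) (.alt (nat_lit 20) (.cov (nat_lit 11639195816)) .e))) .e))))) .e)) .e)) .e)) (.alt (nat_lit 23) (.cov (nat_lit 6712322020238386266113)) (.alt (nat_lit 23) (.exp (.alt (nat_lit 22) (.cov (nat_lit 63378402297050482868258)) (.alt (nat_lit 19) (.cov (nat_lit 800130820533029699591)) (.alt (nat_lit 19) (.cov (nat_lit 5374927161720904351747)) (.alt (nat_lit 19) (.exp (.alt (nat_lit 18) (.exp (.alt (nat_lit 17) (.cov (nat_lit 22984643263177390293003)) (.alt (nat_lit 17) (.cov (nat_lit 63346120996298865770498)) (.alt (nat_lit 17) (.cov (nat_lit 795519134515205242881)) (.alt (nat_lit 17) (.exp (.alt (nat_lit 16) (.exp (.alt (nat_lit 20) (.exp (.alt (nat_lit 28) (.exp (.alt (nat_lit 12) (.exp (.alt (nat_lit 29) (.exp (.alt (nat_lit 24) (.cov (nat_lit 428886808509882040321)) (.alt (nat_lit 24) (.exp (.alt (nat_lit 26) (.cov (nat_lit 6562429215217299750912)) (.alt (nat_lit 8) (.cov (nat_lit 10345250824)) .e))) .e))) .e)) .e)) .e)) .e)) (.alt (nat_lit 16) (.cov (nat_lit 406842940965680509353987)) (.alt (nat_lit 16) (.exp (.alt (nat_lit 20) (.exp (.alt (nat_lit 24) (.cov (nat_lit 1607172610408006549506)) (.alt (nat_lit 24) (.cov (nat_lit 22046165158426727940097)) (.alt (nat_lit 24) (.exp (.alt (nat_lit 8) (.cov (nat_lit 343874979667805166632963)) (.alt (nat_lit 26) (.exp (.alt (nat_lit 10) (.exp (.alt (nat_lit 30) (.cov (nat_lit 102111951828815952478209)) (.alt (nat_lit 27) (.cov (nat_lit 4629463055)) .e))) .e)) (.alt (nat_lit 26) (.exp (.alt (nat_lit 30) (.cov (nat_lit 1621007644274039193602)) (.alt (nat_lit 10) (.cov (nat_lit 156378333251)) .e))) .e)))) .e)))) .e)) (.alt (nat_lit 16) (.exp (.alt (nat_lit 24) (.cov (nat_lit 26507971493405564862466)) (.alt (nat_lit 20) (.cov (nat_lit 11639195816)) .e))) .e))))) .e))))) .e)) (.alt (nat_lit 19) (.cov (nat_lit 622860715)) .e)))))) .e)))))) .e)) (.alt (nat_lit 7) (.cov (nat_lit 11558460959)) .e))))))) .e))))))) .e))))))))))) .e)) .e)) .e)) (.alt (nat_lit 0) (.exp (.alt (nat_lit 1) (.exp (.alt (nat_lit 5) (.exp (.alt (nat_lit 2) (.cov (nat_lit 2817747238116988551675)) (.alt (nat_lit 2) (.cov (nat_lit 41516153889575927846)) (.alt (nat_lit 2) (.cov (nat_lit 41518887275482578978)) (.alt (nat_lit 2) (.exp (.alt (nat_lit 6) (.exp (.alt (nat_lit 7) (.exp (.alt (nat_lit 15) (.exp (.alt (nat_lit 23) (.exp (.alt (nat_lit 10) (.cov (nat_lit 404311126768727288184851)) (.alt (nat_lit 10) (.cov (nat_lit 18454634172063416331)) (.alt (nat_lit 10) (.cov (nat_lit 133747910529918173186)) (.alt (nat_lit 10) (.cov (nat_lit 29132032734606374469633)) (.alt (nat_lit 10) (.exp (.alt (nat_lit 8) (.cov (nat_lit 470393275701654454306)) (.alt (nat_lit 11) (.cov (nat_lit 1496495409318528548871)) (.alt (nat_lit 11) (.cov (nat_lit 62264826710667034627)) (.alt (nat_lit 11) (.exp (.alt (nat_lit 9) (.exp (.alt (nat_lit 27) (.cov (nat_lit 25590245861389130268683)) (.alt (nat_lit 27) (.exp (.alt (nat_lit 26) (.exp (.alt (nat_lit 18) (.exp (.alt (nat_lit 24) (.exp (.alt (nat_lit 25) (.cov (nat_lit 10175685217252403052547)) (.alt (nat_lit 25) (.exp (.alt (nat_lit 17) (.exp (.alt (nat_lit 29) (.cov (nat_lit 365383883248798069161985)) (.alt (nat_lit 29) (.exp (.alt (nat_lit 28) (.cov (nat_lit 25281262764014069350400)) (.alt (nat_lit 31) (.cov (nat_lit 12144607240)) .e))) .e))) .e)) (.alt (nat_lit 25) (.cov (nat_lit 10465837648)) .e)))) .e)) .e)) .e)) (.alt (nat_lit 27) (.cov (nat_lit 502678660039255785473)) (.alt (nat_lit 27) (.exp (.alt (nat_lit 26) (.exp (.alt (nat_lit 18) (.exp (.alt (nat_lit 16) (.exp (.alt (nat_lit 17) (.exp (.alt (nat_lit 24) (.exp (.alt (nat_lit 30) (.cov (nat_lit 102111951828815372615681)) (.alt (nat_lit 30) (.exp (.alt (nat_lit 28) (.cov (nat_lit 21538879560060244066304)) (.alt (nat_lit 22) (.cov (nat_lit 10523508744)) .e))) .e))) .e)) .e)) .e)) .e)) (.alt (nat_lit 31) (.cov (nat_lit 104696802253362522226691)) (.alt (nat_lit 31) (.exp (.alt (nat_lit 30) (.exp (.alt (nat_lit 29) (.cov (nat_lit 417357617673692774402)) (.alt (nat_lit 29) (.cov (nat_lit 417357729803227103233)) (.alt (nat_lit 29) (.exp (.alt (nat_lit 21) (.cov (nat_lit 63281555562452854243331)) (.alt (nat_lit 28) (.exp (.alt (nat_lit 12) (.exp (.alt (nat_lit 20) (.cov (nat_lit 6382573458300224929793)) (.alt (nat_lit 20) (.exp (.alt (nat_lit 16) (.cov (nat_lit 6401020204572349562880)) (.alt (nat_lit 22) (.cov (nat_lit 824180744)) .e))) .e))) .e)) (.alt (nat_lit 21) (.cov (nat_lit 1933574736)) .e)))) .e)))) .e)) (.alt (nat_lit 19) (.cov (nat_lit 185004461203)) .e))))) .e))))) .e)) (.alt (nat_lit 11) (.cov (nat_lit 11585722459)) .e)))))) .e)))))) .e)) .e)) .e)) .e)) (.alt (nat_lit 2) (.cov (nat_lit 13852014723616210947)) (.alt (nat_lit 2) (.exp (.alt (nat_lit 6) (.exp (.alt (nat_lit 10) (.cov (nat_lit 18447861178355941593)) (.alt (nat_lit 10) (.cov (nat_lit 650256746792882274324)) (.alt (nat_lit 10) (.cov (nat_lit 59962897962685693963)) (.alt (nat_lit 10) (.exp (.alt (nat_lit 11) (.exp (.alt (nat_lit 9) (.exp (.alt (nat_lit 15) (.exp (.alt (nat_lit 26) (.cov (nat_lit 22043859953134839267362)) (.alt (nat_lit 8) (.cov (nat_lit 21527353630511283044359)) (.alt (nat_lit 8) (.cov (nat_lit 25290493190563933716483)) (.alt (nat_lit 8) (.cov (nat_lit 55351211944256208896)) (.alt (nat_lit 8) (.cov (nat_lit 25172060)) .e)))))) .e)) .e)) .e)) (.alt (nat_lit 10) (.cov (nat_lit 502690031188498710529)) (.alt (nat_lit 10) (.exp (.alt (nat_lit 11) (.cov (nat_lit 21580388019580070527014)) (.alt (nat_lit 11) (.cov (nat_lit 102081984296362445897762)) (.alt (nat_lit 11) (.cov (nat_lit 62268740971933990919)) (.alt (nat_lit 11) (.cov (nat_lit 21534281576155725168643)) (.alt (nat_lit 11) (.exp (.alt (nat_lit 9) (.exp (.alt (nat_lit 15) (.cov (nat_lit 1505717332197384388626)) (.alt (nat_lit 15) (.cov (nat_lit 45630332193361747771403)) (.alt (nat_lit 15) (.cov (nat_lit 6564744065472177111042)) (.alt (nat_lit 15) (.cov (nat_lit 71492113008753115137)) (.alt (nat_lit 15) (.exp (.alt (nat_lit 31) (.cov (nat_lit 104696802253364199948322)) (.alt (nat_lit 14) (.cov (nat_lit 6562432500732797124615)) (.alt (nat_lit 14) (.cov (nat_lit 6414862317114865221635)) (.alt (nat_lit 14) (.cov (nat_lit 69186269999538372608)) (.alt (nat_lit 7) (.cov (nat_lit 628103263)) .e)))))) .e)))))) .e)) (.alt (nat_lit 11) (.cov (nat_lit 277880351)) .e))))))) .e))))))) .e)) (.alt (nat_lit 2) (.cov (nat_lit 10378813536)) .e)))))))) .e)) .e)) (.alt (nat_lit 0) (.cov (nat_lit 104639174324470779215872)) (.alt (nat_lit 0) (.exp (.alt (nat_lit 1) (.exp (.alt (nat_lit 5) (.exp (.alt (nat_lit 4) (.exp (.alt (nat_lit 6) (.exp (.alt (nat_lit 12) (.exp (.alt (nat_lit 7) (.exp (.alt (nat_lit 15) (.exp (.alt (nat_lit 23) (.exp (.alt (nat_lit 21) (.exp (.alt (nat_lit 20) (.exp (.alt (nat_lit 17) (.exp (.alt (nat_lit 9) (.cov (nat_lit 103327131118860382502923)) (.alt (nat_lit 9) (.cov (nat_lit 541873252300946931718)) (.alt (nat_lit 9) (.exp (.alt (nat_lit 8) (.exp (.alt (nat_lit 10) (.exp (.alt (nat_lit 24) (.exp (.alt (nat_lit 25) (.cov (nat_lit 6407937731400978923523)) (.alt (nat_lit 25) (.cov (nat_lit 6555511692786748358657)) (.alt (nat_lit 25) (.cov (nat_lit 6555511708179911147520)) (.alt (nat_lit 25) (.exp (.alt (nat_lit 27) (.cov (nat_lit 2863857026239566970881)) (.alt (nat_lit 29) (.cov (nat_lit 2985295887)) .e))) .e))))) .e)) .e)) .e)) (.alt (nat_lit 9) (.exp (.alt (nat_lit 8) (.exp (.alt (nat_lit 24) (.exp (.alt (nat_lit 25) (.cov (nat_lit 7809890289798997868547)) (.alt (nat_lit 25) (.exp (.alt (nat_lit 29) (.exp (.alt (nat_lit 27) (.cov (nat_lit 2863857026239512444929)) (.alt (nat_lit 27) (.exp (.alt (nat_lit 26) (.cov (nat_lit 364060329363708418457600)) (.alt (nat_lit 11) (.cov (nat_lit 174761967624)) .e))) .e))) .e)) (.alt (nat_lit 25) (.cov (nat_lit 158203904592)) .e)))) .e)) .e)) (.alt (nat_lit 9) (.cov (nat_lit 25555662955146029039616)) (.alt (nat_lit 9) (.exp (.alt (nat_lit 8) (.cov (nat_lit 345346107522920921169927)) (.alt (nat_lit 8) (.cov (nat_lit 55340373124755488771)) (.alt (nat_lit 8) (.cov (nat_lit 129127628530023137281)) (.alt (nat_lit 8) (.exp (.alt (nat_lit 10) (.exp (.alt (nat_lit 24) (.cov (nat_lit 2863857035036324790274)) (.alt (nat_lit 24) (.cov (nat_lit 64563637243382595585)) (.alt (nat_lit 24) (.cov (nat_lit 1614090253784160665600)) (.alt (nat_lit 24) (.exp (.alt (nat_lit 28) (.cov (nat_lit 2873080398276453203971)) (.alt (nat_lit 28) (.cov (nat_lit 21910120291141340364801)) (.alt (nat_lit 28) (.cov (nat_lit 21910120306533899173888)) (.alt (nat_lit 28) (.exp (.alt (nat_lit 30) (.cov (nat_lit 6405631888391800881153)) (.alt (nat_lit 29) (.cov (nat_lit 2985295887)) .e))) .e))))) .e))))) .e)) (.alt (nat_lit 8) (.exp (.alt (nat_lit 24) (.cov (nat_lit 64563637409487519746)) (.alt (nat_lit 10) (.cov (nat_lit 59952059133410148353)) (.alt (nat_lit 10) (.exp (.alt (nat_lit 26) (.cov (nat_lit 424275131288799674371)) (.alt (nat_lit 26) (.cov (nat_lit 424275256631850172416)) (.alt (nat_lit 14) (.cov (nat_lit 635437247)) .e)))) .e)))) .e)))))) .e))))))) .e)) .e)) .e)) .e)) .e)) .e)) .e)) .e)) .e)) (.alt (nat_lit 5) (.exp (.alt (nat_lit 4) (.exp (.alt (nat_lit 6) (.exp (.alt (nat_lit 2) (.exp (.alt (nat_lit 10) (.exp (.alt (nat_lit 18) (.exp (.alt (nat_lit 12) (.exp (.alt (nat_lit 8) (.exp (.alt (nat_lit 9) (.exp (.alt (nat_lit 24) (.exp (.alt (nat_lit 17) (.cov (nat_lit 347801830327735783784459)) (.alt (nat_lit 17) (.cov (nat_lit 45644162512523514347526)) (.alt (nat_lit 17) (.exp (.alt (nat_lit 25) (.exp (.alt (nat_lit 27) (.exp (.alt (nat_lit 29) (.exp (.alt (nat_lit 21) (.cov (nat_lit 365372354033753163563011)) (.alt (nat_lit 21) (.cov (nat_lit 23148357987098244939777)) (.alt (nat_lit 21) (.cov (nat_lit 23148358002481643388928)) (.alt (nat_lit 21) (.exp (.alt (nat_lit 23) (.cov (nat_lit 102118869357843013697537)) (.alt (nat_lit 20) (.cov (nat_lit 3546284047)) .e))) .e))))) .e)) .e)) .e)) (.alt (nat_lit 17) (.exp (.alt (nat_lit 25) (.exp (.alt (nat_lit 29) (.exp (.alt (nat_lit 21) (.cov (nat_lit 63288473091481639321603)) (.alt (nat_lit 21) (.exp (.alt (nat_lit 20) (.exp (.alt (nat_lit 23) (.cov (nat_lit 102118869357852741337089)) (.alt (nat_lit 23) (.exp (.alt (nat_lit 31) (.cov (nat_lit 1397340874578630541312)) (.alt (nat_lit 19) (.cov (nat_lit 159244091400)) .e))) .e))) .e)) (.alt (nat_lit 21) (.cov (nat_lit 46429897296)) .e)))) .e)) .e)) (.alt (nat_lit 17) (.cov (nat_lit 634111711564442632192)) (.alt (nat_lit 17) (.exp (.alt (nat_lit 25) (.cov (nat_lit 347820277071806884478983)) (.alt (nat_lit 25) (.cov (nat_lit 657165398528943456259)) (.alt (nat_lit 25) (.cov (nat_lit 29138938527446920593409)) (.alt (nat_lit 25) (.exp (.alt (nat_lit 27) (.exp (.alt (nat_lit 29) (.cov (nat_lit 102118869366639072116738)) (.alt (nat_lit 29) (.cov (nat_lit 25299709530078046060545)) (.alt (nat_lit 29) (.cov (nat_lit 29136632411758808530944)) (.alt (nat_lit 29) (.exp (.alt (nat_lit 28) (.cov (nat_lit 102116563514833764352003)) (.alt (nat_lit 28) (.cov (nat_lit 7816807818826629513217)) (.alt (nat_lit 28) (.cov (nat_lit 7816807834219792302080)) (.alt (nat_lit 28) (.exp (.alt (nat_lit 30) (.cov (nat_lit 365390800777825734361089)) (.alt (nat_lit 20) (.cov (nat_lit 3546284047)) .e))) .e))))) .e))))) .e)) (.alt (nat_lit 25) (.exp (.alt (nat_lit 29) (.cov (nat_lit 2647107807583337971714)) (.alt (nat_lit 27) (.cov (nat_lit 661777084382434033665)) (.alt (nat_lit 27) (.exp (.alt (nat_lit 31) (.cov (nat_lit 21538879566703722758147)) (.alt (nat_lit 31) (.cov (nat_lit 102335618734849478623232)) (.alt (nat_lit 26) (.cov (nat_lit 4661969087)) .e)))) .e)))) .e)))))) .e))))))) .e)) .e)) .e)) .e)) .e)) .e)) .e)) .e)) (.alt (nat_lit 4) (.exp (.alt (nat_lit 6) (.exp (.alt (nat_lit 12) (.exp (.alt (nat_lit 8) (.exp (.alt (nat_lit 9) (.exp (.alt (nat_lit 10) (.exp (.alt (nat_lit 13) (.exp (.alt (nat_lit 15) (.exp (.alt (nat_lit 29) (.exp (.alt (nat_lit 17) (.cov (nat_lit 57646108215878877195)) (.alt (nat_lit 17) (.cov (nat_lit 426581104039279198214)) (.alt (nat_lit 17) (.cov (nat_lit 104673743823270370607106)) (.alt (nat_lit 17) (.cov (nat_lit 1586421837518582317057)) (.alt (nat_lit 17) (.cov (nat_lit 25419616629907648413696)) (.alt (nat_lit 17) (.exp (.alt (nat_lit 25) (.cov (nat_lit 276701194100952530951)) (.alt (nat_lit 25) (.cov (nat_lit 6555511815933320495107)) (.alt (nat_lit 16) (.cov (nat_lit 21882450577451422580737)) (.alt (nat_lit 16) (.exp (.alt (nat_lit 24) (.exp (.alt (nat_lit 18) (.cov (nat_lit 50728563795082346498)) (.alt (nat_lit 20) (.cov (nat_lit 6543982493133875183617)) (.alt (nat_lit 20) (.cov (nat_lit 6543982600885981151232)) (.alt (nat_lit 20) (.cov (nat_lit 2975858879)) .e))))) .e)) (.alt (nat_lit 25) (.cov (nat_lit 11567891931)) .e)))))) .e))))))) .e)) .e)) .e)) .e)) .e)) .e)) (.alt (nat_lit 12) (.exp (.alt (nat_lit 8) (.exp (.alt (nat_lit 9) (.exp (.alt (nat_lit 10) (.exp (.alt (nat_lit 11) (.exp (.alt (nat_lit 15) (.exp (.alt (nat_lit 27) (.exp (.alt (nat_lit 17) (.cov (nat_lit 6537064964106394533899)) (.alt (nat_lit 17) (.cov (nat_lit 25419613579865274449926)) (.alt (nat_lit 17) (.cov (nat_lit 1819310554294538731522)) (.alt (nat_lit 17) (.cov (nat_lit 184469287916656394241)) (.alt (nat_lit 17) (.cov (nat_lit 2988375836276833648640)) (.alt (nat_lit 17) (.exp (.alt (nat_lit 25) (.cov (nat_lit 21538879582062031929351)) (.alt (nat_lit 25) (.cov (nat_lit 657165398374891913219)) (.alt (nat_lit 16) (.cov (nat_lit 1817004711273857810433)) (.alt (nat_lit 16) (.exp (.alt (nat_lit 24) (.exp (.alt (nat_lit 20) (.cov (nat_lit 64563621850360315906)) (.alt (nat_lit 20) (.cov (nat_lit 654859447602664964097)) (.alt (nat_lit 20) (.cov (nat_lit 1819310380560238510080)) (.alt (nat_lit 20) (.exp (.alt (nat_lit 28) (.cov (nat_lit 25302015348908356534275)) (.alt (nat_lit 28) (.cov (nat_lit 1471127857480317534209)) (.alt (nat_lit 28) (.cov (nat_lit 1471127872863715983360)) (.alt (nat_lit 28) (.exp (.alt (nat_lit 30) (.cov (nat_lit 25306627034917011193857)) (.alt (nat_lit 29) (.cov (nat_lit 233832463)) .e))) .e))))) .e))))) .e)) (.alt (nat_lit 25) (.cov (nat_lit 1367344603)) .e)))))) .e))))))) .e)) .e)) .e)) .e)) .e)) .e)) .e))) .e)) .e))) .e))) (.alt (nat_lit 1) (.cov (nat_lit 39210310880361185787)) (.alt (nat_lit 1) (.exp (.alt (nat_lit 5) (.cov (nat_lit 45667221295038930789712675209218)) (.alt (nat_lit 5) (.cov (nat_lit 48114976337708349606502309775278081)) (.alt (nat_lit 5) (.cov (nat_lit 14040528222916356408120387569713152)) (.alt (nat_lit 5) (.cov (nat_lit 629508865619489980509)) .e))))) (.alt (nat_lit 1) (.exp (.alt (nat_lit 5) (.exp (.alt (nat_lit 4) (.exp (.alt (nat_lit 6) (.exp (.alt (nat_lit 12) (.exp (.alt (nat_lit 7) (.exp (.alt (nat_lit 15) (.exp (.alt (nat_lit 23) (.exp (.alt (nat_lit 9) (.cov (nat_lit 104687578881327828566037)) (.alt (nat_lit 9) (.exp (.alt (nat_lit 8) (.exp (.alt (nat_lit 10) (.exp (.alt (nat_lit 24) (.exp (.alt (nat_lit 16) (.exp (.alt (nat_lit 20) (.exp (.alt (nat_lit 25) (.cov (nat_lit 6555511692797116678147)) (.alt (nat_lit 25) (.exp (.alt (nat_lit 17) (.exp (.alt (nat_lit 27) (.cov (nat_lit 71481142091509137409)) (.alt (nat_lit 29) (.cov (nat_lit 2985295887)) .e))) .e)) (.alt (nat_lit 25) (.exp (.alt (nat_lit 27) (.cov (nat_lit 71481142081737457666)) (.alt (nat_lit 17) (.cov (nat_lit 10388242499)) .e))) .e)))) .e)) .e)) .e)) .e)) (.alt (nat_lit 13) (.cov (nat_lit 313596496433969627143)) .e))) (.alt (nat_lit 9) (.cov (nat_lit 347850257881972966686726)) (.alt (nat_lit 9) (.exp (.alt (nat_lit 11) (.exp (.alt (nat_lit 10) (.exp (.alt (nat_lit 27) (.exp (.alt (nat_lit 25) (.cov (nat_lit 25438060110631488454663)) (.alt (nat_lit 25) (.cov (nat_lit 25438060218393358761987)) (.alt (nat_lit 25) (.cov (nat_lit 276701581128879833089)) (.alt (nat_lit 25) (.exp (.alt (nat_lit 17) (.exp (.alt (nat_lit 24) (.cov (nat_lit 6410243583207557562370)) (.alt (nat_lit 29) (.cov (nat_lit 25447283482667697307649)) (.alt (nat_lit 29) (.cov (nat_lit 25447283590419828441088)) (.alt (nat_lit 29) (.cov (nat_lit 11572084927)) .e))))) .e)) (.alt (nat_lit 13) (.cov (nat_lit 2983200219)) .e)))))) .e)) .e)) .e)) (.alt (nat_lit 9) (.cov (nat_lit 57655091225701646337)) (.alt (nat_lit 9) (.cov (nat_lit 104687590617511489437696)) (.alt (nat_lit 9) (.exp (.alt (nat_lit 8) (.exp (.alt (nat_lit 10) (.cov (nat_lit 14400511128080559679369614967439361)) (.alt (nat_lit 10) (.exp (.alt (nat_lit 26) (.cov (nat_lit 14400511128100565173319595652546560)) (.alt (nat_lit 11) (.cov (nat_lit 6548594286907360280583)) .e))) .e))) (.alt (nat_lit 8) (.cov (nat_lit 6548594566191281864719)) (.alt (nat_lit 8) (.exp (.alt (nat_lit 10) (.exp (.alt (nat_lit 26) (.exp (.alt (nat_lit 27) (.exp (.alt (nat_lit 18) (.exp (.alt (nat_lit 24) (.cov (nat_lit 25299709514686137368578)) (.alt (nat_lit 24) (.cov (nat_lit 22857821783320759894017)) (.alt (nat_lit 24) (.cov (nat_lit 2840798833641901785088)) (.alt (nat_lit 24) (.exp (.alt (nat_lit 25) (.cov (nat_lit 66869456063911952387)) (.alt (nat_lit 25) (.cov (nat_lit 657165275218710626305)) (.alt (nat_lit 25) (.cov (nat_lit 657165290611269435392)) (.alt (nat_lit 25) (.exp (.alt (nat_lit 29) (.cov (nat_lit 25299709505889369063425)) (.alt (nat_lit 17) (.cov (nat_lit 2907701263)) .e))) .e))))) .e))))) .e)) .e)) .e)) .e)) (.alt (nat_lit 8) (.exp (.alt (nat_lit 10) (.exp (.alt (nat_lit 11) (.exp (.alt (nat_lit 27) (.exp (.alt (nat_lit 24) (.cov (nat_lit 25419613366558412242946)) (.alt (nat_lit 24) (.cov (nat_lit 21730264666174200479745)) (.alt (nat_lit 24) (.exp (.alt (nat_lit 25) (.cov (nat_lit 657165275218106646531)) (.alt (nat_lit 16) (.exp (.alt (nat_lit 17) (.exp (.alt (nat_lit 20) (.cov (nat_lit 2854633654212432494593)) (.alt (nat_lit 18) (.cov (nat_lit 11498684431)) .e))) .e)) (.alt (nat_lit 16) (.exp (.alt (nat_lit 20) (.cov (nat_lit 2854633654203943223298)) (.alt (nat_lit 17) (.cov (nat_lit 290455619)) .e))) .e)))) .e)))) .e)) .e)) .e)) (.alt (nat_lit 11) (.cov (nat_lit 62264826720264650753)) (.alt (nat_lit 11) (.exp (.alt (nat_lit 10) (.exp (.alt (nat_lit 27) (.cov (nat_lit 661776976632590893067)) (.alt (nat_lit 27) (.cov (nat_lit 25442671904402688704518)) (.alt (nat_lit 27) (.cov (nat_lit 406921339627992169578498)) (.alt (nat_lit 27) (.cov (nat_lit 661778790833655382017)) (.alt (nat_lit 27) (.cov (nat_lit 25442675062198808608768)) (.alt (nat_lit 27) (.exp (.alt (nat_lit 19) (.cov (nat_lit 2992984258945378942983)) (.alt (nat_lit 19) (.cov (nat_lit 25424225160338064015363)) (.alt (nat_lit 25) (.cov (nat_lit 276701581128879833089)) (.alt (nat_lit 25) (.exp (.alt (nat_lit 17) (.exp (.alt (nat_lit 24) (.cov (nat_lit 6410243583207557562370)) (.alt (nat_lit 29) (.cov (nat_lit 25447283482667697307649)) (.alt (nat_lit 29) (.cov (nat_lit 25447283590419828441088)) (.alt (nat_lit 29) (.cov (nat_lit 11572084927)) .e))))) .e)) (.alt (nat_lit 19) (.cov (nat_lit 2970617307)) .e)))))) .e))))))) .e)) (.alt (nat_lit 13) (.exp (.alt (nat_lit 29) (.cov (nat_lit 795515983314449072139)) (.alt (nat_lit 29) (.exp (.alt (nat_lit 25) (.exp (.alt (nat_lit 17) (.exp (.alt (nat_lit 24) (.exp (.alt (nat_lit 28) (.cov (nat_lit 350188377826875974615043)) (.alt (nat_lit 28) (.exp (.alt (nat_lit 20) (.exp (.alt (nat_lit 30) (.cov (nat_lit 365379271562780245753857)) (.alt (nat_lit 30) (.exp (.alt (nat_lit 26) (.cov (nat_lit 6387185146517059010560)) (.alt (nat_lit 31) (.cov (nat_lit 3551526920)) .e))) .e))) .e)) (.alt (nat_lit 28) (.cov (nat_lit 28720497232)) .e)))) .e)) .e)) .e)) (.alt (nat_lit 29) (.cov (nat_lit 21751021989944051630081)) (.alt (nat_lit 29) (.exp (.alt (nat_lit 25) (.exp (.alt (nat_lit 17) (.exp (.alt (nat_lit 16) (.exp (.alt (nat_lit 20) (.exp (.alt (nat_lit 24) (.exp (.alt (nat_lit 27) (.cov (nat_lit 45438942348361165963265)) (.alt (nat_lit 27) (.exp (.alt (nat_lit 26) (.cov (nat_lit 22869350976376543379456)) (.alt (nat_lit 19) (.cov (nat_lit 28775022600)) .e))) .e))) .e)) .e)) .e)) .e)) (.alt (nat_lit 31) (.cov (nat_lit 48030710301946190757891)) (.alt (nat_lit 31) (.exp (.alt (nat_lit 27) (.exp (.alt (nat_lit 30) (.cov (nat_lit 1600255081563524431874)) (.alt (nat_lit 30) (.cov (nat_lit 1600255193530457128961)) (.alt (nat_lit 30) (.exp (.alt (nat_lit 22) (.cov (nat_lit 4247362840563999047683)) (.alt (nat_lit 26) (.exp (.alt (nat_lit 10) (.exp (.alt (nat_lit 18) (.cov (nat_lit 2840798596147417448449)) (.alt (nat_lit 18) (.exp (.alt (nat_lit 16) (.cov (nat_lit 2859245342420114604032)) (.alt (nat_lit 19) (.cov (nat_lit 2970615816)) .e))) .e))) .e)) (.alt (nat_lit 22) (.cov (nat_lit 156550300240)) .e)))) .e)))) .e)) (.alt (nat_lit 21) (.cov (nat_lit 4614786195)) .e))))) .e))))) .e)))))))) .e)))))))) .e)) .e)) .e)) .e)) .e)) .e)) (.alt (nat_lit 5) (.exp (.alt (nat_lit 4) (.exp (.alt (nat_lit 6) (.exp (.alt (nat_lit 12) (.exp (.alt (nat_lit 8) (.exp (.alt (nat_lit 9) (.exp (.alt (nat_lit 10) (.exp (.alt (nat_lit 17) (.cov (nat_lit 406898281197908616282133)) (.alt (nat_lit 17) (.cov (nat_lit 491146408300213436427)) (.alt (nat_lit 17) (.cov (nat_lit 3885350352356895621126)) (.alt (nat_lit 17) (.exp (.alt (nat_lit 21) (.exp (.alt (nat_lit 20) (.exp (.alt (nat_lit 29) (.exp (.alt (nat_lit 25) (.cov (nat_lit 347820277071818153525255)) (.alt (nat_lit 25) (.exp (.alt (nat_lit 24) (.exp (.alt (nat_lit 16) (.exp (.alt (nat_lit 18) (.exp (.alt (nat_lit 27) (.cov (nat_lit 102118869357843580977153)) (.alt (nat_lit 27) (.exp (.alt (nat_lit 31) (.cov (nat_lit 21541185403069460905984)) (.alt (nat_lit 19) (.cov (nat_lit 10526654472)) .e))) .e))) .e)) .e)) .e)) (.alt (nat_lit 25) (.cov (nat_lit 350255247676564968570881)) (.alt (nat_lit 25) (.exp (.alt (nat_lit 24) (.exp (.alt (nat_lit 27) (.cov (nat_lit 365390800786623073091586)) (.alt (nat_lit 27) (.cov (nat_lit 6537064964106786701313)) (.alt (nat_lit 27) (.cov (nat_lit 45644162514719641436160)) (.alt (nat_lit 27) (.exp (.alt (nat_lit 19) (.cov (nat_lit 365372354033762355380227)) (.alt (nat_lit 19) (.cov (nat_lit 23148357987098242842625)) (.alt (nat_lit 19) (.cov (nat_lit 23148358002481641291776)) (.alt (nat_lit 19) (.exp (.alt (nat_lit 23) (.cov (nat_lit 2854633654212417814529)) (.alt (nat_lit 18) (.cov (nat_lit 3546284047)) .e))) .e))))) .e))))) .e)) (.alt (nat_lit 16) (.exp (.alt (nat_lit 18) (.cov (nat_lit 7798361090146089041922)) (.alt (nat_lit 24) (.cov (nat_lit 104689884451654753845249)) (.alt (nat_lit 24) (.exp (.alt (nat_lit 26) (.cov (nat_lit 7669233866237118775299)) (.alt (nat_lit 26) (.exp (.alt (nat_lit 18) (.exp (.alt (nat_lit 27) (.cov (nat_lit 102118869357843580977153)) (.alt (nat_lit 27) (.exp (.alt (nat_lit 31) (.cov (nat_lit 102081975871894585344000)) (.alt (nat_lit 19) (.cov (nat_lit 10526654472)) .e))) .e))) .e)) (.alt (nat_lit 28) (.cov (nat_lit 47611642047)) .e)))) .e)))) .e)))))) .e)) .e)) .e)) (.alt (nat_lit 17) (.exp (.alt (nat_lit 21) (.exp (.alt (nat_lit 20) (.exp (.alt (nat_lit 25) (.exp (.alt (nat_lit 29) (.exp (.alt (nat_lit 31) (.exp (.alt (nat_lit 23) (.exp (.alt (nat_lit 15) (.exp (.alt (nat_lit 24) (.cov (nat_lit 502673787003751890945)) (.alt (nat_lit 24) (.exp (.alt (nat_lit 26) (.cov (nat_lit 6387185146517079982080)) (.alt (nat_lit 16) (.cov (nat_lit 656408584)) .e))) .e))) .e)) .e)) .e)) .e)) (.alt (nat_lit 25) (.cov (nat_lit 350255247676564537606147)) (.alt (nat_lit 25) (.exp (.alt (nat_lit 29) (.exp (.alt (nat_lit 27) (.exp (.alt (nat_lit 31) (.exp (.alt (nat_lit 23) (.exp (.alt (nat_lit 15) (.exp (.alt (nat_lit 26) (.cov (nat_lit 2845410284364839780352)) (.alt (nat_lit 19) (.cov (nat_lit 119537672)) .e))) .e)) .e)) .e)) (.alt (nat_lit 24) (.cov (nat_lit 104689884449455718006785)) (.alt (nat_lit 24) (.exp (.alt (nat_lit 26) (.cov (nat_lit 7669233866237118775299)) (.alt (nat_lit 26) (.exp (.alt (nat_lit 27) (.exp (.alt (nat_lit 30) (.cov (nat_lit 365390800777826304786433)) (.alt (nat_lit 18) (.cov (nat_lit 3546284047)) .e))) .e)) (.alt (nat_lit 28) (.cov (nat_lit 47611642047)) .e)))) .e)))) .e)) (.alt (nat_lit 16) (.cov (nat_lit 1199574167)) .e))))) .e)) .e)) (.alt (nat_lit 17) (.cov (nat_lit 406919045527765861269504)) (.alt (nat_lit 17) (.exp (.alt (nat_lit 21) (.exp (.alt (nat_lit 20) (.exp (.alt (nat_lit 16) (.exp (.alt (nat_lit 24) (.exp (.alt (nat_lit 22) (.exp (.alt (nat_lit 23) (.exp (.alt (nat_lit 18) (.exp (.alt (nat_lit 29) (.cov (nat_lit 45450471563407277424641)) (.alt (nat_lit 29) (.exp (.alt (nat_lit 31) (.cov (nat_lit 431192653718092775424)) (.alt (nat_lit 28) (.cov (nat_lit 47578087432)) .e))) .e))) .e)) .e)) .e)) .e)) .e)) (.alt (nat_lit 20) (.exp (.alt (nat_lit 16) (.exp (.alt (nat_lit 24) (.exp (.alt (nat_lit 18) (.exp (.alt (nat_lit 22) (.exp (.alt (nat_lit 23) (.exp (.alt (nat_lit 29) (.cov (nat_lit 45450471563407277424641)) (.alt (nat_lit 29) (.exp (.alt (nat_lit 31) (.cov (nat_lit 431192653718092775424)) (.alt (nat_lit 28) (.cov (nat_lit 47578087432)) .e))) .e))) .e)) .e)) .e)) .e)) (.alt (nat_lit 16) (.exp (.alt (nat_lit 24) (.exp (.alt (nat_lit 26) (.exp (.alt (nat_lit 18) (.exp (.alt (nat_lit 30) (.exp (.alt (nat_lit 29) (.cov (nat_lit 365390800777825737506817)) (.alt (nat_lit 29) (.exp (.alt (nat_lit 31) (.cov (nat_lit 365353907291877310201856)) (.alt (nat_lit 25) (.cov (nat_lit 158170349576)) .e))) .e))) .e)) .e)) .e)) .e)) .e))) .e))) (.alt (nat_lit 21) (.cov (nat_lit 23222145365807536799759)) (.alt (nat_lit 21) (.exp (.alt (nat_lit 20) (.exp (.alt (nat_lit 28) (.exp (.alt (nat_lit 29) (.exp (.alt (nat_lit 24) (.exp (.alt (nat_lit 23) (.cov (nat_lit 7671539709249051426818)) (.alt (nat_lit 23) (.cov (nat_lit 2854633678401673625601)) (.alt (nat_lit 23) (.cov (nat_lit 23219839250116463558656)) (.alt (nat_lit 23) (.exp (.alt (nat_lit 22) (.cov (nat_lit 102116563514836647936003)) (.alt (nat_lit 22) (.cov (nat_lit 104625320717654354296833)) (.alt (nat_lit 22) (.cov (nat_lit 104625320733047517085696)) (.alt (nat_lit 22) (.exp (.alt (nat_lit 30) (.cov (nat_lit 6405631888391749500929)) (.alt (nat_lit 18) (.cov (nat_lit 47573893135)) .e))) .e))))) .e))))) .e)) .e)) .e)) .e)) (.alt (nat_lit 21) (.cov (nat_lit 21739491189567742017539)) (.alt (nat_lit 21) (.cov (nat_lit 6539377912159553978369)) (.alt (nat_lit 21) (.exp (.alt (nat_lit 20) (.exp (.alt (nat_lit 29) (.exp (.alt (nat_lit 28) (.cov (nat_lit 6323041266817873916374125618659328)) (.alt (nat_lit 13) (.cov (nat_lit 647941918731447304199)) .e))) (.alt (nat_lit 29) (.cov (nat_lit 23240591925160335900678)) (.alt (nat_lit 29) (.exp (.alt (nat_lit 31) (.exp (.alt (nat_lit 23) (.exp (.alt (nat_lit 15) (.exp (.alt (nat_lit 28) (.cov (nat_lit 2637884413536217595907)) (.alt (nat_lit 28) (.cov (nat_lit 2873080407072473874433)) (.alt (nat_lit 28) (.cov (nat_lit 2873080422465636663296)) (.alt (nat_lit 28) (.exp (.alt (nat_lit 24) (.cov (nat_lit 59951929234722652161)) (.alt (nat_lit 24) (.exp (.alt (nat_lit 26) (.cov (nat_lit 2845410284364842926080)) (.alt (nat_lit 16) (.cov (nat_lit 656408584)) .e))) .e))) .e))))) .e)) .e)) .e)) (.alt (nat_lit 29) (.cov (nat_lit 1614091953629167616001)) (.alt (nat_lit 29) (.cov (nat_lit 5377230779317975252992)) (.alt (nat_lit 29) (.exp (.alt (nat_lit 28) (.cov (nat_lit 7816807834220601802759)) (.alt (nat_lit 28) (.exp (.alt (nat_lit 24) (.exp (.alt (nat_lit 16) (.exp (.alt (nat_lit 18) (.exp (.alt (nat_lit 30) (.cov (nat_lit 45450471563407237578753)) (.alt (nat_lit 30) (.exp (.alt (nat_lit 31) (.cov (nat_lit 22862433447348907540480)) (.alt (nat_lit 22) (.cov (nat_lit 28780265480)) .e))) .e))) .e)) .e)) .e)) (.alt (nat_lit 28) (.cov (nat_lit 104699108096370454560769)) (.alt (nat_lit 28) (.exp (.alt (nat_lit 24) (.exp (.alt (nat_lit 30) (.cov (nat_lit 365390800786624683704322)) (.alt (nat_lit 30) (.cov (nat_lit 6543982493133826949121)) (.alt (nat_lit 30) (.cov (nat_lit 7872148180790123954176)) (.alt (nat_lit 30) (.exp (.alt (nat_lit 22) (.cov (nat_lit 365372354033761751400451)) (.alt (nat_lit 22) (.cov (nat_lit 63288473091490227159041)) (.alt (nat_lit 22) (.cov (nat_lit 63288473106873625608192)) (.alt (nat_lit 22) (.exp (.alt (nat_lit 23) (.cov (nat_lit 6389490987337010642945)) (.alt (nat_lit 18) (.cov (nat_lit 158161960975)) .e))) .e))))) .e))))) .e)) (.alt (nat_lit 28) (.exp (.alt (nat_lit 30) (.exp (.alt (nat_lit 31) (.exp (.alt (nat_lit 23) (.exp (.alt (nat_lit 15) (.exp (.alt (nat_lit 26) (.cov (nat_lit 6387185146517073690624)) (.alt (nat_lit 22) (.cov (nat_lit 9783214088)) .e))) .e)) .e)) .e)) (.alt (nat_lit 24) (.cov (nat_lit 104689884449455718006785)) (.alt (nat_lit 24) (.exp (.alt (nat_lit 26) (.cov (nat_lit 45441248200167075610627)) (.alt (nat_lit 26) (.exp (.alt (nat_lit 30) (.exp (.alt (nat_lit 27) (.cov (nat_lit 365390800777825697660929)) (.alt (nat_lit 18) (.cov (nat_lit 158161960975)) .e))) .e)) (.alt (nat_lit 25) (.cov (nat_lit 159277646015)) .e)))) .e)))) .e)))))) .e))))))) .e)) (.alt (nat_lit 21) (.exp (.alt (nat_lit 20) (.cov (nat_lit 10173379499590305185803)) (.alt (nat_lit 20) (.exp (.alt (nat_lit 28) (.exp (.alt (nat_lit 29) (.exp (.alt (nat_lit 24) (.exp (.alt (nat_lit 22) (.cov (nat_lit 104625320717654522068995)) (.alt (nat_lit 22) (.exp (.alt (nat_lit 23) (.exp (.alt (nat_lit 30) (.cov (nat_lit 6405631888391749500929)) (.alt (nat_lit 18) (.cov (nat_lit 47573893135)) .e))) .e)) (.alt (nat_lit 22) (.cov (nat_lit 166252773733)) .e)))) .e)) .e)) .e)) (.alt (nat_lit 20) (.cov (nat_lit 6396413417977746030593)) (.alt (nat_lit 20) (.exp (.alt (nat_lit 28) (.exp (.alt (nat_lit 29) (.exp (.alt (nat_lit 31) (.exp (.alt (nat_lit 23) (.exp (.alt (nat_lit 15) (.exp (.alt (nat_lit 24) (.cov (nat_lit 59951929234722652161)) (.alt (nat_lit 24) (.exp (.alt (nat_lit 26) (.cov (nat_lit 2845410284364842926080)) (.alt (nat_lit 16) (.cov (nat_lit 656408584)) .e))) .e))) .e)) .e)) .e)) .e)) (.alt (nat_lit 28) (.cov (nat_lit 104699108096371063783427)) (.alt (nat_lit 28) (.exp (.alt (nat_lit 29) (.exp (.alt (nat_lit 30) (.exp (.alt (nat_lit 31) (.exp (.alt (nat_lit 23) (.exp (.alt (nat_lit 15) (.exp (.alt (nat_lit 26) (.cov (nat_lit 6387185146517073690624)) (.alt (nat_lit 22) (.cov (nat_lit 9783214088)) .e))) .e)) .e)) .e)) (.alt (nat_lit 24) (.cov (nat_lit 104689884449455718006785)) (.alt (nat_lit 24) (.exp (.alt (nat_lit 26) (.cov (nat_lit 45441248200167075610627)) (.alt (nat_lit 26) (.exp (.alt (nat_lit 30) (.exp (.alt (nat_lit 27) (.cov (nat_lit 365390800777825697660929)) (.alt (nat_lit 18) (.cov (nat_lit 158161960975)) .e))) .e)) (.alt (nat_lit 25) (.cov (nat_lit 159277646015)) .e)))) .e)))) .e)) (.alt (nat_lit 16) (.cov (nat_lit 1199574167)) .e))))) .e))))) .e)))))))) .e)))))))) .e)) .e)) .e)) .e)) .e)) .e)) .e))) (.alt (nat_lit 1) (.exp (.alt (nat_lit 5) (.exp (.alt (nat_lit 4) (.exp (.alt (nat_lit 6) (.exp (.alt (nat_lit 7) (.exp (.alt (nat_lit 15) (.exp (.alt (nat_lit 23) (.exp (.alt (nat_lit 9) (.cov (nat_lit 7625424678659111780371)) (.alt (nat_lit 9) (.cov (nat_lit 1346620207477539471371)) (.alt (nat_lit 9) (.cov (nat_lit 57655091226403143682)) (.alt (nat_lit 9) (.cov (nat_lit 104687590617512088174593)) (.alt (nat_lit 9) (.exp (.alt (nat_lit 8) (.cov (nat_lit 21716430762606294204450)) (.alt (nat_lit 13) (.cov (nat_lit 322821317627149811719)) (.alt (nat_lit 13) (.cov (nat_lit 435811394203187937283)) (.alt (nat_lit 13) (.exp (.alt (nat_lit 12) (.exp (.alt (nat_lit 29) (.cov (nat_lit 795515983314449072139)) (.alt (nat_lit 29) (.exp (.alt (nat_lit 25) (.exp (.alt (nat_lit 17) (.exp (.alt (nat_lit 24) (.exp (.alt (nat_lit 28) (.cov (nat_lit 350188377826875974615043)) (.alt (nat_lit 28) (.exp (.alt (nat_lit 20) (.exp (.alt (nat_lit 30) (.cov (nat_lit 365379271562780245753857)) (.alt (nat_lit 30) (.exp (.alt (nat_lit 26) (.cov (nat_lit 6387185146517059010560)) (.alt (nat_lit 31) (.cov (nat_lit 3551526920)) .e))) .e))) .e)) (.alt (nat_lit 28) (.cov (nat_lit 28720497232)) .e)))) .e)) .e)) .e)) (.alt (nat_lit 29) (.cov (nat_lit 21751021989944051630081)) (.alt (nat_lit 29) (.exp (.alt (nat_lit 25) (.exp (.alt (nat_lit 17) (.exp (.alt (nat_lit 16) (.exp (.alt (nat_lit 20) (.exp (.alt (nat_lit 24) (.exp (.alt (nat_lit 27) (.cov (nat_lit 45438942348361165963265)) (.alt (nat_lit 27) (.exp (.alt (nat_lit 26) (.cov (nat_lit 22869350976376543379456)) (.alt (nat_lit 19) (.cov (nat_lit 28775022600)) .e))) .e))) .e)) .e)) .e)) .e)) (.alt (nat_lit 31) (.cov (nat_lit 48030710301946190757891)) (.alt (nat_lit 31) (.exp (.alt (nat_lit 27) (.exp (.alt (nat_lit 30) (.cov (nat_lit 1600255081563524431874)) (.alt (nat_lit 30) (.cov (nat_lit 1600255193530457128961)) (.alt (nat_lit 30) (.exp (.alt (nat_lit 22) (.cov (nat_lit 4247362840563999047683)) (.alt (nat_lit 26) (.exp (.alt (nat_lit 10) (.exp (.alt (nat_lit 18) (.cov (nat_lit 2840798596147417448449)) (.alt (nat_lit 18) (.exp (.alt (nat_lit 16) (.cov (nat_lit 2859245342420114604032)) (.alt (nat_lit 19) (.cov (nat_lit 2970615816)) .e))) .e))) .e)) (.alt (nat_lit 22) (.cov (nat_lit 156550300240)) .e)))) .e)))) .e)) (.alt (nat_lit 21) (.cov (nat_lit 4614786195)) .e))))) .e))))) .e)) (.alt (nat_lit 13) (.cov (nat_lit 314579035)) .e)))))) .e)))))) .e)) .e)) .e)) .e)) .e)) (.alt (nat_lit 5) (.exp (.alt (nat_lit 4) (.exp (.alt (nat_lit 6) (.exp (.alt (nat_lit 12) (.exp (.alt (nat_lit 8) (.exp (.alt (nat_lit 9) (.exp (.alt (nat_lit 17) (.cov (nat_lit 23212923420934149242900)) (.alt (nat_lit 17) (.cov (nat_lit 23212924870090340433931)) (.alt (nat_lit 17) (.exp (.alt (nat_lit 16) (.exp (.alt (nat_lit 24) (.exp (.alt (nat_lit 20) (.exp (.alt (nat_lit 25) (.exp (.alt (nat_lit 29) (.exp (.alt (nat_lit 31) (.exp (.alt (nat_lit 15) (.exp (.alt (nat_lit 23) (.exp (.alt (nat_lit 27) (.cov (nat_lit 2863857026239512444929)) (.alt (nat_lit 27) (.exp (.alt (nat_lit 26) (.cov (nat_lit 3979885044897962524672)) (.alt (nat_lit 11) (.cov (nat_lit 174761967624)) .e))) .e))) .e)) .e)) .e)) .e)) (.alt (nat_lit 25) (.cov (nat_lit 6629299071504016736259)) (.alt (nat_lit 25) (.exp (.alt (nat_lit 29) (.exp (.alt (nat_lit 27) (.cov (nat_lit 6537064964106350493698)) (.alt (nat_lit 27) (.cov (nat_lit 45644162514719641436161)) (.alt (nat_lit 27) (.exp (.alt (nat_lit 11) (.cov (nat_lit 345357636722592736870403)) (.alt (nat_lit 26) (.exp (.alt (nat_lit 10) (.exp (.alt (nat_lit 30) (.cov (nat_lit 365390800777826304786433)) (.alt (nat_lit 18) (.cov (nat_lit 3546284047)) .e))) .e)) (.alt (nat_lit 26) (.exp (.alt (nat_lit 30) (.cov (nat_lit 419663436473167773698)) (.alt (nat_lit 10) (.cov (nat_lit 174699053123)) .e))) .e)))) .e)))) .e)) (.alt (nat_lit 25) (.exp (.alt (nat_lit 27) (.cov (nat_lit 7625423090955732385794)) (.alt (nat_lit 29) (.cov (nat_lit 47612692648)) .e))) .e))))) .e)) .e)) .e)) (.alt (nat_lit 17) (.cov (nat_lit 21884769020863891636225)) (.alt (nat_lit 17) (.exp (.alt (nat_lit 25) (.cov (nat_lit 1980720490717631217698)) (.alt (nat_lit 16) (.cov (nat_lit 23210619027081561899015)) (.alt (nat_lit 16) (.cov (nat_lit 343888821815357957210115)) (.alt (nat_lit 16) (.exp (.alt (nat_lit 24) (.exp (.alt (nat_lit 20) (.cov (nat_lit 404343406871014050627595)) (.alt (nat_lit 20) (.cov (nat_lit 1983026835103502303234)) (.alt (nat_lit 20) (.cov (nat_lit 23219842399117787529217)) (.alt (nat_lit 20) (.exp (.alt (nat_lit 28) (.exp (.alt (nat_lit 29) (.exp (.alt (nat_lit 31) (.exp (.alt (nat_lit 15) (.exp (.alt (nat_lit 23) (.exp (.alt (nat_lit 30) (.cov (nat_lit 6405631888392353480705)) (.alt (nat_lit 30) (.exp (.alt (nat_lit 26) (.cov (nat_lit 21534267874041814581248)) (.alt (nat_lit 14) (.cov (nat_lit 157045227528)) .e))) .e))) .e)) .e)) .e)) .e)) (.alt (nat_lit 28) (.cov (nat_lit 21983907669858004762627)) (.alt (nat_lit 28) (.exp (.alt (nat_lit 29) (.exp (.alt (nat_lit 30) (.cov (nat_lit 6543982493133994721282)) (.alt (nat_lit 30) (.cov (nat_lit 7872148180790727933953)) (.alt (nat_lit 30) (.exp (.alt (nat_lit 14) (.cov (nat_lit 384317160206267309883395)) (.alt (nat_lit 26) (.exp (.alt (nat_lit 10) (.exp (.alt (nat_lit 27) (.cov (nat_lit 365390800777825697660929)) (.alt (nat_lit 18) (.cov (nat_lit 158161960975)) .e))) .e)) (.alt (nat_lit 26) (.exp (.alt (nat_lit 27) (.cov (nat_lit 412745907445523546114)) (.alt (nat_lit 10) (.cov (nat_lit 10950279235)) .e))) .e)))) .e)))) .e)) (.alt (nat_lit 28) (.exp (.alt (nat_lit 30) (.cov (nat_lit 45411272482942145789954)) (.alt (nat_lit 29) (.cov (nat_lit 47612692648)) .e))) .e))))) .e))))) .e)) (.alt (nat_lit 16) (.cov (nat_lit 226498987)) .e)))))) .e)))))) .e)) .e)) .e)) .e)) (.alt (nat_lit 4) (.exp (.alt (nat_lit 6) (.exp (.alt (nat_lit 2) (.exp (.alt (nat_lit 10) (.exp (.alt (nat_lit 18) (.exp (.alt (nat_lit 9) (.cov (nat_lit 45404356541609294168083)) (.alt (nat_lit 9) (.cov (nat_lit 398918730689637515275)) (.alt (nat_lit 9) (.cov (nat_lit 1385820664532791459842)) (.alt (nat_lit 9) (.cov (nat_lit 350250647726733040549889)) (.alt (nat_lit 9) (.exp (.alt (nat_lit 13) (.cov (nat_lit 6380268908319041650722)) (.alt (nat_lit 8) (.cov (nat_lit 21573470490539474288647)) (.alt (nat_lit 8) (.cov (nat_lit 424282179157052358659)) (.alt (nat_lit 8) (.exp (.alt (nat_lit 12) (.exp (.alt (nat_lit 24) (.cov (nat_lit 25587940018380081201163)) (.alt (nat_lit 24) (.exp (.alt (nat_lit 25) (.exp (.alt (nat_lit 17) (.exp (.alt (nat_lit 29) (.exp (.alt (nat_lit 28) (.cov (nat_lit 104625320717654356393987)) (.alt (nat_lit 28) (.exp (.alt (nat_lit 20) (.exp (.alt (nat_lit 30) (.cov (nat_lit 365390800777825705000961)) (.alt (nat_lit 30) (.exp (.alt (nat_lit 31) (.cov (nat_lit 2856939499410898812928)) (.alt (nat_lit 26) (.cov (nat_lit 158170349576)) .e))) .e))) .e)) (.alt (nat_lit 28) (.cov (nat_lit 156495774288)) .e)))) .e)) .e)) .e)) (.alt (nat_lit 24) (.cov (nat_lit 6403330920617095462913)) (.alt (nat_lit 24) (.exp (.alt (nat_lit 25) (.exp (.alt (nat_lit 17) (.exp (.alt (nat_lit 21) (.exp (.alt (nat_lit 20) (.exp (.alt (nat_lit 29) (.exp (.alt (nat_lit 27) (.cov (nat_lit 102118869357843580977153)) (.alt (nat_lit 27) (.exp (.alt (nat_lit 31) (.cov (nat_lit 21541185403069460905984)) (.alt (nat_lit 19) (.cov (nat_lit 10526654472)) .e))) .e))) .e)) .e)) .e)) .e)) (.alt (nat_lit 26) (.cov (nat_lit 10251778438989029048323)) (.alt (nat_lit 26) (.exp (.alt (nat_lit 27) (.exp (.alt (nat_lit 30) (.cov (nat_lit 50728579371927339010)) (.alt (nat_lit 30) (.cov (nat_lit 50728691338250813441)) (.alt (nat_lit 30) (.exp (.alt (nat_lit 22) (.cov (nat_lit 4258892055610503725059)) (.alt (nat_lit 31) (.exp (.alt (nat_lit 15) (.exp (.alt (nat_lit 23) (.cov (nat_lit 6394102673345719828481)) (.alt (nat_lit 23) (.exp (.alt (nat_lit 21) (.cov (nat_lit 509591316031360466944)) (.alt (nat_lit 19) (.cov (nat_lit 9949937672)) .e))) .e))) .e)) (.alt (nat_lit 22) (.cov (nat_lit 28780266064)) .e)))) .e)))) .e)) (.alt (nat_lit 16) (.cov (nat_lit 21794655379)) .e))))) .e))))) .e)) (.alt (nat_lit 8) (.cov (nat_lit 1388320859)) .e)))))) .e)))))) .e)) .e)) .e)) .e)) .e))) .e))) (.alt (nat_lit 1) (.cov (nat_lit 11543262406634373135)) (.alt (nat_lit 1) (.exp (.alt (nat_lit 5) (.exp (.alt (nat_lit 4) (.exp (.alt (nat_lit 6) (.exp (.alt (nat_lit 12) (.exp (.alt (nat_lit 9) (.cov (nat_lit 404308820925719147184345)) (.alt (nat_lit 9) (.cov (nat_lit 1501107095336953839709)) (.alt (nat_lit 9) (.exp (.alt (nat_lit 8) (.exp (.alt (nat_lit 10) (.exp (.alt (nat_lit 24) (.exp (.alt (nat_lit 16) (.exp (.alt (nat_lit 17) (.exp (.alt (nat_lit 20) (.exp (.alt (nat_lit 11) (.cov (nat_lit 343881897212070262210567)) (.alt (nat_lit 11) (.cov (nat_lit 6555511816115880722435)) (.alt (nat_lit 11) (.cov (nat_lit 21903203164544100728833)) (.alt (nat_lit 11) (.exp (.alt (nat_lit 15) (.exp (.alt (nat_lit 27) (.cov (nat_lit 25306627043713779499010)) (.alt (nat_lit 27) (.cov (nat_lit 6537064964106801381377)) (.alt (nat_lit 27) (.cov (nat_lit 2847716263713496367104)) (.alt (nat_lit 27) (.exp (.alt (nat_lit 19) (.cov (nat_lit 25288180290853061787651)) (.alt (nat_lit 19) (.cov (nat_lit 21525044508611802300417)) (.alt (nat_lit 19) (.cov (nat_lit 21525044523995200749568)) (.alt (nat_lit 19) (.exp (.alt (nat_lit 23) (.cov (nat_lit 71481142082344583169)) (.alt (nat_lit 18) (.cov (nat_lit 2908749839)) .e))) .e))))) .e))))) .e)) (.alt (nat_lit 11) (.exp (.alt (nat_lit 27) (.cov (nat_lit 6537064964290048425986)) (.alt (nat_lit 15) (.cov (nat_lit 6564735188125252321281)) (.alt (nat_lit 15) (.exp (.alt (nat_lit 31) (.cov (nat_lit 504979636611189833731)) (.alt (nat_lit 31) (.cov (nat_lit 504979761954340995072)) (.alt (nat_lit 7) (.cov (nat_lit 661651647)) .e)))) .e)))) .e)))))) .e)) .e)) .e)) .e)) .e)) .e)) (.alt (nat_lit 9) (.cov (nat_lit 21529665193071166357515)) (.alt (nat_lit 9) (.cov (nat_lit 57657054953636626438)) (.alt (nat_lit 9) (.exp (.alt (nat_lit 8) (.exp (.alt (nat_lit 10) (.exp (.alt (nat_lit 24) (.exp (.alt (nat_lit 25) (.exp (.alt (nat_lit 17) (.exp (.alt (nat_lit 16) (.exp (.alt (nat_lit 20) (.exp (.alt (nat_lit 19) (.exp (.alt (nat_lit 27) (.exp (.alt (nat_lit 18) (.exp (.alt (nat_lit 29) (.cov (nat_lit 102118869357843012648961)) (.alt (nat_lit 29) (.exp (.alt (nat_lit 31) (.cov (nat_lit 21541185403069460905984)) (.alt (nat_lit 21) (.cov (nat_lit 10526654472)) .e))) .e))) .e)) .e)) .e)) .e)) .e)) (.alt (nat_lit 17) (.exp (.alt (nat_lit 16) (.exp (.alt (nat_lit 20) (.exp (.alt (nat_lit 18) (.exp (.alt (nat_lit 19) (.exp (.alt (nat_lit 27) (.exp (.alt (nat_lit 29) (.cov (nat_lit 102118869357843012648961)) (.alt (nat_lit 29) (.exp (.alt (nat_lit 31) (.cov (nat_lit 21541185403069460905984)) (.alt (nat_lit 21) (.cov (nat_lit 10526654472)) .e))) .e))) .e)) .e)) .e)) .e)) (.alt (nat_lit 16) (.exp (.alt (nat_lit 20) (.exp (.alt (nat_lit 22) (.exp (.alt (nat_lit 18) (.exp (.alt (nat_lit 23) (.exp (.alt (nat_lit 29) (.cov (nat_lit 45450471563407277424641)) (.alt (nat_lit 29) (.exp (.alt (nat_lit 31) (.cov (nat_lit 45413578077458850119680)) (.alt (nat_lit 28) (.cov (nat_lit 47578087432)) .e))) .e))) .e)) .e)) .e)) .e)) .e))) .e))) (.alt (nat_lit 25) (.cov (nat_lit 350255247676565007368207)) (.alt (nat_lit 25) (.exp (.alt (nat_lit 17) (.exp (.alt (nat_lit 21) (.exp (.alt (nat_lit 29) (.exp (.alt (nat_lit 20) (.exp (.alt (nat_lit 27) (.cov (nat_lit 365390800786623073091586)) (.alt (nat_lit 27) (.cov (nat_lit 6537064964106786701313)) (.alt (nat_lit 27) (.cov (nat_lit 45644162514719641436160)) (.alt (nat_lit 27) (.exp (.alt (nat_lit 19) (.cov (nat_lit 365372354033762355380227)) (.alt (nat_lit 19) (.cov (nat_lit 23148357987098242842625)) (.alt (nat_lit 19) (.cov (nat_lit 23148358002481641291776)) (.alt (nat_lit 19) (.exp (.alt (nat_lit 23) (.cov (nat_lit 2854633654212417814529)) (.alt (nat_lit 18) (.cov (nat_lit 3546284047)) .e))) .e))))) .e))))) .e)) .e)) .e)) .e)) (.alt (nat_lit 13) (.cov (nat_lit 288233672533993324547)) (.alt (nat_lit 13) (.cov (nat_lit 25302022405573363892225)) (.alt (nat_lit 13) (.exp (.alt (nat_lit 15) (.exp (.alt (nat_lit 29) (.cov (nat_lit 25292792001053275979787)) (.alt (nat_lit 29) (.cov (nat_lit 21529656324365736738822)) (.alt (nat_lit 29) (.cov (nat_lit 6564735467245018284034)) (.alt (nat_lit 29) (.cov (nat_lit 122211526677650997249)) (.alt (nat_lit 29) (.cov (nat_lit 122212975824212066304)) (.alt (nat_lit 29) (.exp (.alt (nat_lit 25) (.cov (nat_lit 1367364937452050448391)) (.alt (nat_lit 25) (.cov (nat_lit 6555511815932205858819)) (.alt (nat_lit 21) (.cov (nat_lit 6546288723180901105665)) (.alt (nat_lit 21) (.exp (.alt (nat_lit 17) (.exp (.alt (nat_lit 23) (.cov (nat_lit 1674042042284233457666)) (.alt (nat_lit 20) (.cov (nat_lit 493450436957129670657)) (.alt (nat_lit 20) (.cov (nat_lit 6543982600885968568320)) (.alt (nat_lit 20) (.cov (nat_lit 47603253439)) .e))))) .e)) (.alt (nat_lit 25) (.cov (nat_lit 51381723)) .e)))))) .e))))))) .e)) (.alt (nat_lit 13) (.exp (.alt (nat_lit 29) (.cov (nat_lit 404548626898842595360779)) (.alt (nat_lit 29) (.cov (nat_lit 2640192092775652524034)) (.alt (nat_lit 15) (.cov (nat_lit 21543494531575777853441)) (.alt (nat_lit 15) (.cov (nat_lit 9796849668)) .e))))) .e)))))))) .e)) .e)) .e)) (.alt (nat_lit 9) (.exp (.alt (nat_lit 8) (.exp (.alt (nat_lit 10) (.exp (.alt (nat_lit 25) (.cov (nat_lit 1985331615984344104994)) (.alt (nat_lit 13) (.cov (nat_lit 1468825293215333613575)) (.alt (nat_lit 13) (.cov (nat_lit 2870781611979190566915)) (.alt (nat_lit 13) (.cov (nat_lit 66880426990327824384)) (.alt (nat_lit 13) (.cov (nat_lit 198187100)) .e)))))) .e)) .e)) (.alt (nat_lit 9) (.cov (nat_lit 6403342291766341533696)) (.alt (nat_lit 9) (.exp (.alt (nat_lit 25) (.exp (.alt (nat_lit 17) (.exp (.alt (nat_lit 16) (.exp (.alt (nat_lit 24) (.exp (.alt (nat_lit 20) (.exp (.alt (nat_lit 21) (.exp (.alt (nat_lit 29) (.exp (.alt (nat_lit 23) (.exp (.alt (nat_lit 27) (.cov (nat_lit 394299172169030041602)) (.alt (nat_lit 27) (.cov (nat_lit 350144566825103780741121)) (.alt (nat_lit 27) (.cov (nat_lit 2937644229033745973248)) (.alt (nat_lit 27) (.exp (.alt (nat_lit 11) (.cov (nat_lit 102081975869861676449795)) (.alt (nat_lit 11) (.cov (nat_lit 384305630991211482316801)) (.alt (nat_lit 11) (.cov (nat_lit 384305631006594880765952)) (.alt (nat_lit 11) (.exp (.alt (nat_lit 10) (.cov (nat_lit 102079670026696115879937)) (.alt (nat_lit 15) (.cov (nat_lit 21221081103)) .e))) .e))))) .e))))) .e)) .e)) .e)) .e)) .e)) .e)) (.alt (nat_lit 17) (.exp (.alt (nat_lit 16) (.exp (.alt (nat_lit 24) (.exp (.alt (nat_lit 20) (.exp (.alt (nat_lit 21) (.exp (.alt (nat_lit 29) (.exp (.alt (nat_lit 23) (.exp (.alt (nat_lit 27) (.cov (nat_lit 394299172169030041602)) (.alt (nat_lit 27) (.cov (nat_lit 350144566825103780741121)) (.alt (nat_lit 27) (.cov (nat_lit 2937644229033745973248)) (.alt (nat_lit 27) (.exp (.alt (nat_lit 11) (.cov (nat_lit 102081975869861676449795)) (.alt (nat_lit 11) (.cov (nat_lit 384305630991211482316801)) (.alt (nat_lit 11) (.cov (nat_lit 384305631006594880765952)) (.alt (nat_lit 11) (.exp (.alt (nat_lit 10) (.cov (nat_lit 102079670026696115879937)) (.alt (nat_lit 15) (.cov (nat_lit 21221081103)) .e))) .e))))) .e))))) .e)) .e)) .e)) .e)) .e)) .e)) .e))) (.alt (nat_lit 8) (.cov (nat_lit 1498801252334718418978)) (.alt (nat_lit 8) (.cov (nat_lit 21568862586841415548943)) (.alt (nat_lit 8) (.exp (.alt (nat_lit 10) (.exp (.alt (nat_lit 11) (.exp (.alt (nat_lit 15) (.exp (.alt (nat_lit 27) (.exp (.alt (nat_lit 24) (.cov (nat_lit 2863857050428987408395)) (.alt (nat_lit 24) (.cov (nat_lit 1586420236632541102086)) (.alt (nat_lit 24) (.cov (nat_lit 654859834630147670018)) (.alt (nat_lit 24) (.cov (nat_lit 184469287926420733953)) (.alt (nat_lit 24) (.cov (nat_lit 1365062357790393106432)) (.alt (nat_lit 24) (.exp (.alt (nat_lit 25) (.cov (nat_lit 657165290611302989831)) (.alt (nat_lit 25) (.cov (nat_lit 657165398363442511875)) (.alt (nat_lit 16) (.cov (nat_lit 1817004711283614810113)) (.alt (nat_lit 16) (.exp (.alt (nat_lit 17) (.exp (.alt (nat_lit 20) (.cov (nat_lit 1671736199273412296706)) (.alt (nat_lit 20) (.cov (nat_lit 2630966906498800680961)) (.alt (nat_lit 20) (.cov (nat_lit 25299709743383276683264)) (.alt (nat_lit 20) (.exp (.alt (nat_lit 21) (.cov (nat_lit 66869456063482036227)) (.alt (nat_lit 21) (.cov (nat_lit 6546288320749893582849)) (.alt (nat_lit 21) (.cov (nat_lit 6546288336143056371712)) (.alt (nat_lit 21) (.exp (.alt (nat_lit 23) (.cov (nat_lit 71481142082344583169)) (.alt (nat_lit 29) (.cov (nat_lit 233832463)) .e))) .e))))) .e))))) .e)) (.alt (nat_lit 25) (.cov (nat_lit 621807067)) .e)))))) .e))))))) .e)) .e)) .e)) .e)) (.alt (nat_lit 8) (.cov (nat_lit 55351211944421883907)) (.alt (nat_lit 8) (.cov (nat_lit 21527364053734912950273)) (.alt (nat_lit 8) (.exp (.alt (nat_lit 10) (.exp (.alt (nat_lit 24) (.cov (nat_lit 36893908161055948821)) (.alt (nat_lit 24) (.cov (nat_lit 22857823597562456702987)) (.alt (nat_lit 24) (.cov (nat_lit 2713982103679060148230)) (.alt (nat_lit 24) (.exp (.alt (nat_lit 25) (.exp (.alt (nat_lit 17) (.exp (.alt (nat_lit 29) (.exp (.alt (nat_lit 28) (.cov (nat_lit 104625320733047552737287)) (.alt (nat_lit 28) (.exp (.alt (nat_lit 20) (.exp (.alt (nat_lit 16) (.exp (.alt (nat_lit 18) (.exp (.alt (nat_lit 30) (.cov (nat_lit 365390800777825705000961)) (.alt (nat_lit 30) (.exp (.alt (nat_lit 31) (.cov (nat_lit 2856939499410898812928)) (.alt (nat_lit 26) (.cov (nat_lit 158170349576)) .e))) .e))) .e)) .e)) .e)) (.alt (nat_lit 28) (.cov (nat_lit 104699108096370450366465)) (.alt (nat_lit 28) (.exp (.alt (nat_lit 20) (.exp (.alt (nat_lit 30) (.cov (nat_lit 45450471572203498373122)) (.alt (nat_lit 30) (.cov (nat_lit 502673808993948794881)) (.alt (nat_lit 30) (.cov (nat_lit 104689884451654705610752)) (.alt (nat_lit 30) (.exp (.alt (nat_lit 26) (.cov (nat_lit 45441248191370982588419)) (.alt (nat_lit 26) (.cov (nat_lit 347820277056414045700097)) (.alt (nat_lit 26) (.cov (nat_lit 347820277071806604509184)) (.alt (nat_lit 26) (.exp (.alt (nat_lit 27) (.cov (nat_lit 412745907445959753729)) (.alt (nat_lit 18) (.cov (nat_lit 158161960975)) .e))) .e))))) .e))))) .e)) (.alt (nat_lit 16) (.exp (.alt (nat_lit 18) (.cov (nat_lit 347801830327744374767618)) (.alt (nat_lit 20) (.cov (nat_lit 23219839250116511793153)) (.alt (nat_lit 20) (.exp (.alt (nat_lit 22) (.cov (nat_lit 365372354042557844422659)) (.alt (nat_lit 22) (.exp (.alt (nat_lit 18) (.exp (.alt (nat_lit 30) (.cov (nat_lit 365390800777825705000961)) (.alt (nat_lit 30) (.exp (.alt (nat_lit 31) (.cov (nat_lit 365353907291877310201856)) (.alt (nat_lit 26) (.cov (nat_lit 158170349576)) .e))) .e))) .e)) (.alt (nat_lit 21) (.cov (nat_lit 10560209087)) .e)))) .e)))) .e)))))) .e)) .e)) .e)) (.alt (nat_lit 24) (.exp (.alt (nat_lit 25) (.exp (.alt (nat_lit 17) (.exp (.alt (nat_lit 28) (.exp (.alt (nat_lit 29) (.exp (.alt (nat_lit 31) (.exp (.alt (nat_lit 27) (.exp (.alt (nat_lit 15) (.exp (.alt (nat_lit 20) (.cov (nat_lit 641024367556573528065)) (.alt (nat_lit 20) (.exp (.alt (nat_lit 22) (.cov (nat_lit 22841680860265992683520)) (.alt (nat_lit 16) (.cov (nat_lit 9950986248)) .e))) .e))) .e)) .e)) .e)) .e)) (.alt (nat_lit 28) (.cov (nat_lit 104699108096380224143363)) (.alt (nat_lit 28) (.exp (.alt (nat_lit 29) (.exp (.alt (nat_lit 30) (.exp (.alt (nat_lit 31) (.exp (.alt (nat_lit 27) (.exp (.alt (nat_lit 15) (.exp (.alt (nat_lit 22) (.cov (nat_lit 410440066635174772736)) (.alt (nat_lit 26) (.cov (nat_lit 622854152)) .e))) .e)) .e)) .e)) (.alt (nat_lit 20) (.cov (nat_lit 7872148178591136350209)) (.alt (nat_lit 20) (.exp (.alt (nat_lit 22) (.cov (nat_lit 365372354042557844422659)) (.alt (nat_lit 22) (.exp (.alt (nat_lit 30) (.exp (.alt (nat_lit 23) (.cov (nat_lit 45450471563407234433025)) (.alt (nat_lit 18) (.cov (nat_lit 158161960975)) .e))) .e)) (.alt (nat_lit 21) (.cov (nat_lit 10560209087)) .e)))) .e)))) .e)) (.alt (nat_lit 16) (.cov (nat_lit 88083607)) .e))))) .e)) .e)) (.alt (nat_lit 24) (.cov (nat_lit 1983037150721429471232)) (.alt (nat_lit 24) (.exp (.alt (nat_lit 25) (.exp (.alt (nat_lit 17) (.exp (.alt (nat_lit 16) (.exp (.alt (nat_lit 20) (.exp (.alt (nat_lit 19) (.exp (.alt (nat_lit 27) (.exp (.alt (nat_lit 18) (.exp (.alt (nat_lit 29) (.cov (nat_lit 102118869357843012648961)) (.alt (nat_lit 29) (.exp (.alt (nat_lit 31) (.cov (nat_lit 21541185403069460905984)) (.alt (nat_lit 21) (.cov (nat_lit 10526654472)) .e))) .e))) .e)) .e)) .e)) .e)) .e)) (.alt (nat_lit 17) (.exp (.alt (nat_lit 16) (.exp (.alt (nat_lit 20) (.exp (.alt (nat_lit 18) (.exp (.alt (nat_lit 19) (.exp (.alt (nat_lit 27) (.exp (.alt (nat_lit 29) (.cov (nat_lit 102118869357843012648961)) (.alt (nat_lit 29) (.exp (.alt (nat_lit 31) (.cov (nat_lit 21541185403069460905984)) (.alt (nat_lit 21) (.cov (nat_lit 10526654472)) .e))) .e))) .e)) .e)) .e)) .e)) (.alt (nat_lit 16) (.exp (.alt (nat_lit 20) (.exp (.alt (nat_lit 22) (.exp (.alt (nat_lit 18) (.exp (.alt (nat_lit 23) (.exp (.alt (nat_lit 29) (.cov (nat_lit 45450471563407277424641)) (.alt (nat_lit 29) (.exp (.alt (nat_lit 31) (.cov (nat_lit 45413578077458850119680)) (.alt (nat_lit 28) (.cov (nat_lit 47578087432)) .e))) .e))) .e)) .e)) .e)) .e)) .e))) .e))) (.alt (nat_lit 25) (.cov (nat_lit 350255247676565007368207)) (.alt (nat_lit 25) (.exp (.alt (nat_lit 17) (.exp (.alt (nat_lit 21) (.exp (.alt (nat_lit 29) (.exp (.alt (nat_lit 20) (.exp (.alt (nat_lit 27) (.cov (nat_lit 365390800786623073091586)) (.alt (nat_lit 27) (.cov (nat_lit 6537064964106786701313)) (.alt (nat_lit 27) (.cov (nat_lit 45644162514719641436160)) (.alt (nat_lit 27) (.exp (.alt (nat_lit 19) (.cov (nat_lit 365372354033762355380227)) (.alt (nat_lit 19) (.cov (nat_lit 23148357987098242842625)) (.alt (nat_lit 19) (.cov (nat_lit 23148358002481641291776)) (.alt (nat_lit 19) (.exp (.alt (nat_lit 23) (.cov (nat_lit 2854633654212417814529)) (.alt (nat_lit 18) (.cov (nat_lit 3546284047)) .e))) .e))))) .e))))) .e)) .e)) .e)) .e)) (.alt (nat_lit 25) (.cov (nat_lit 408137511186371444739)) (.alt (nat_lit 25) (.cov (nat_lit 1441159018797840990209)) (.alt (nat_lit 25) (.exp (.alt (nat_lit 17) (.exp (.alt (nat_lit 29) (.exp (.alt (nat_lit 21) (.cov (nat_lit 14436005107977622655721611427053568)) (.alt (nat_lit 13) (.cov (nat_lit 1687877115904540016647)) .e))) (.alt (nat_lit 29) (.cov (nat_lit 45671832718802629427206)) (.alt (nat_lit 29) (.exp (.alt (nat_lit 31) (.exp (.alt (nat_lit 27) (.exp (.alt (nat_lit 15) (.exp (.alt (nat_lit 21) (.cov (nat_lit 2997595922975828213763)) (.alt (nat_lit 21) (.cov (nat_lit 6546288320759648485377)) (.alt (nat_lit 21) (.cov (nat_lit 6546288336143046934528)) (.alt (nat_lit 21) (.exp (.alt (nat_lit 20) (.cov (nat_lit 6543982471143630045185)) (.alt (nat_lit 20) (.exp (.alt (nat_lit 22) (.cov (nat_lit 410440066635185258496)) (.alt (nat_lit 16) (.cov (nat_lit 9950986248)) .e))) .e))) .e))))) .e)) .e)) .e)) (.alt (nat_lit 29) (.cov (nat_lit 122211526667907629057)) (.alt (nat_lit 29) (.cov (nat_lit 3885350352356715266048)) (.alt (nat_lit 29) (.exp (.alt (nat_lit 21) (.cov (nat_lit 63288473106885170429959)) (.alt (nat_lit 21) (.exp (.alt (nat_lit 20) (.exp (.alt (nat_lit 16) (.exp (.alt (nat_lit 18) (.exp (.alt (nat_lit 23) (.cov (nat_lit 102118869357852741337089)) (.alt (nat_lit 23) (.exp (.alt (nat_lit 31) (.cov (nat_lit 1397340874578630541312)) (.alt (nat_lit 19) (.cov (nat_lit 159244091400)) .e))) .e))) .e)) .e)) .e)) (.alt (nat_lit 21) (.cov (nat_lit 23222145365814338912257)) (.alt (nat_lit 21) (.exp (.alt (nat_lit 20) (.exp (.alt (nat_lit 23) (.cov (nat_lit 45450471572204605669378)) (.alt (nat_lit 23) (.cov (nat_lit 486532907939209936897)) (.alt (nat_lit 23) (.cov (nat_lit 365584491729138100469760)) (.alt (nat_lit 23) (.exp (.alt (nat_lit 19) (.cov (nat_lit 45441248191371653677059)) (.alt (nat_lit 19) (.cov (nat_lit 350181460297848868306945)) (.alt (nat_lit 19) (.cov (nat_lit 350181460313241427116032)) (.alt (nat_lit 19) (.exp (.alt (nat_lit 27) (.cov (nat_lit 2863857026240116424705)) (.alt (nat_lit 18) (.cov (nat_lit 47573893135)) .e))) .e))))) .e))))) .e)) (.alt (nat_lit 21) (.exp (.alt (nat_lit 23) (.exp (.alt (nat_lit 31) (.exp (.alt (nat_lit 27) (.exp (.alt (nat_lit 15) (.exp (.alt (nat_lit 22) (.cov (nat_lit 22841680860265989537792)) (.alt (nat_lit 19) (.cov (nat_lit 1361051656)) .e))) .e)) .e)) .e)) (.alt (nat_lit 20) (.cov (nat_lit 7872148178591136350209)) (.alt (nat_lit 20) (.exp (.alt (nat_lit 22) (.cov (nat_lit 103370942120644990468099)) (.alt (nat_lit 22) (.exp (.alt (nat_lit 23) (.exp (.alt (nat_lit 30) (.cov (nat_lit 45450471563417006112769)) (.alt (nat_lit 18) (.cov (nat_lit 47573893135)) .e))) .e)) (.alt (nat_lit 28) (.cov (nat_lit 47611642047)) .e)))) .e)))) .e)))))) .e))))))) .e)) (.alt (nat_lit 25) (.exp (.alt (nat_lit 17) (.cov (nat_lit 26685521288566812966923)) (.alt (nat_lit 17) (.exp (.alt (nat_lit 21) (.exp (.alt (nat_lit 29) (.exp (.alt (nat_lit 20) (.exp (.alt (nat_lit 19) (.cov (nat_lit 23148357987098242842627)) (.alt (nat_lit 19) (.exp (.alt (nat_lit 27) (.exp (.alt (nat_lit 23) (.cov (nat_lit 2854633654212417814529)) (.alt (nat_lit 18) (.cov (nat_lit 3546284047)) .e))) .e)) (.alt (nat_lit 19) (.cov (nat_lit 159277646181)) .e)))) .e)) .e)) .e)) (.alt (nat_lit 17) (.cov (nat_lit 3954525671230201135105)) (.alt (nat_lit 17) (.exp (.alt (nat_lit 21) (.exp (.alt (nat_lit 29) (.exp (.alt (nat_lit 31) (.exp (.alt (nat_lit 27) (.exp (.alt (nat_lit 15) (.exp (.alt (nat_lit 20) (.cov (nat_lit 6543982471143630045185)) (.alt (nat_lit 20) (.exp (.alt (nat_lit 22) (.cov (nat_lit 410440066635185258496)) (.alt (nat_lit 16) (.cov (nat_lit 9950986248)) .e))) .e))) .e)) .e)) .e)) .e)) (.alt (nat_lit 21) (.cov (nat_lit 23222145365807469690883)) (.alt (nat_lit 21) (.exp (.alt (nat_lit 29) (.exp (.alt (nat_lit 23) (.exp (.alt (nat_lit 31) (.exp (.alt (nat_lit 27) (.exp (.alt (nat_lit 15) (.exp (.alt (nat_lit 22) (.cov (nat_lit 22841680860265989537792)) (.alt (nat_lit 19) (.cov (nat_lit 1361051656)) .e))) .e)) .e)) .e)) (.alt (nat_lit 20) (.cov (nat_lit 7872148178591136350209)) (.alt (nat_lit 20) (.exp (.alt (nat_lit 22) (.cov (nat_lit 103370942120644990468099)) (.alt (nat_lit 22) (.exp (.alt (nat_lit 23) (.exp (.alt (nat_lit 30) (.cov (nat_lit 45450471563417006112769)) (.alt (nat_lit 18) (.cov (nat_lit 47573893135)) .e))) .e)) (.alt (nat_lit 28) (.cov (nat_lit 47611642047)) .e)))) .e)))) .e)) (.alt (nat_lit 16) (.cov (nat_lit 88083607)) .e))))) .e))))) .e)))))))) .e)))))))) .e)) (.alt (nat_lit 8) (.exp (.alt (nat_lit 10) (.cov (nat_lit 21578080727412785545234)) (.alt (nat_lit 10) (.cov (nat_lit 404532490734474193010699)) (.alt (nat_lit 10) (.cov (nat_lit 650256746839053172738)) (.alt (nat_lit 10) (.cov (nat_lit 59962897962685693953)) (.alt (nat_lit 10) (.exp (.alt (nat_lit 26) (.cov (nat_lit 10251778438977821868066)) (.alt (nat_lit 11) (.cov (nat_lit 652556867962946977799)) (.alt (nat_lit 11) (.cov (nat_lit 6407944788250436042755)) (.alt (nat_lit 11) (.cov (nat_lit 62268740971900436480)) (.alt (nat_lit 2) (.cov (nat_lit 52435039)) .e)))))) .e)))))) .e))))))))) .e)))))))))) .e)) .e)) .e)) .e)) (.alt (nat_lit 1) (.exp (.alt (nat_lit 5) (.exp (.alt (nat_lit 4) (.exp (.alt (nat_lit 6) (.exp (.alt (nat_lit 9) (.cov (nat_lit 398911957707741200601)) (.alt (nat_lit 9) (.cov (nat_lit 6550909007373406306324)) (.alt (nat_lit 9) (.cov (nat_lit 57657054953636626443)) (.alt (nat_lit 9) (.exp (.alt (nat_lit 8) (.exp (.alt (nat_lit 12) (.exp (.alt (nat_lit 10) (.exp (.alt (nat_lit 25) (.cov (nat_lit 1985331615984344104994)) (.alt (nat_lit 13) (.cov (nat_lit 1468825293215333613575)) (.alt (nat_lit 13) (.cov (nat_lit 2870781611979190566915)) (.alt (nat_lit 13) (.cov (nat_lit 66880426990327824384)) (.alt (nat_lit 13) (.cov (nat_lit 198187100)) .e)))))) .e)) .e)) .e)) (.alt (nat_lit 9) (.cov (nat_lit 6403342291766346776577)) (.alt (nat_lit 9) (.exp (.alt (nat_lit 8) (.cov (nat_lit 1498801252484035641382)) (.alt (nat_lit 8) (.cov (nat_lit 7623125423914343202850)) (.alt (nat_lit 8) (.cov (nat_lit 55351211944858091527)) (.alt (nat_lit 8) (.cov (nat_lit 1457306494932254457859)) (.alt (nat_lit 8) (.exp (.alt (nat_lit 12) (.exp (.alt (nat_lit 10) (.cov (nat_lit 21578080727412785545234)) (.alt (nat_lit 10) (.cov (nat_lit 404532490734474193010699)) (.alt (nat_lit 10) (.cov (nat_lit 650256746839053172738)) (.alt (nat_lit 10) (.cov (nat_lit 59962897962685693953)) (.alt (nat_lit 10) (.exp (.alt (nat_lit 26) (.cov (nat_lit 10251778438977821868066)) (.alt (nat_lit 11) (.cov (nat_lit 652556867962946977799)) (.alt (nat_lit 11) (.cov (nat_lit 6407944788250436042755)) (.alt (nat_lit 11) (.cov (nat_lit 62268740971900436480)) (.alt (nat_lit 2) (.cov (nat_lit 52435039)) .e)))))) .e)))))) .e)) (.alt (nat_lit 8) (.cov (nat_lit 2965380639)) .e))))))) .e))))))) .e)) .e)) .e)) (.alt (nat_lit 4) (.cov (nat_lit 21499698443413230714881)) (.alt (nat_lit 4) (.exp (.alt (nat_lit 5) (.exp (.alt (nat_lit 6) (.exp (.alt (nat_lit 2) (.exp (.alt (nat_lit 10) (.exp (.alt (nat_lit 8) (.exp (.alt (nat_lit 12) (.exp (.alt (nat_lit 9) (.exp (.alt (nat_lit 18) (.exp (.alt (nat_lit 16) (.exp (.alt (nat_lit 20) (.exp (.alt (nat_lit 24) (.exp (.alt (nat_lit 7) (.cov (nat_lit 22760976376945288675335)) (.alt (nat_lit 7) (.cov (nat_lit 25435754375420167847939)) (.alt (nat_lit 7) (.cov (nat_lit 274395738109920673793)) (.alt (nat_lit 7) (.exp (.alt (nat_lit 15) (.exp (.alt (nat_lit 23) (.cov (nat_lit 71481150889306095618)) (.alt (nat_lit 23) (.cov (nat_lit 21741793766871056515073)) (.alt (nat_lit 23) (.cov (nat_lit 269783779412583383040)) (.alt (nat_lit 23) (.exp (.alt (nat_lit 21) (.cov (nat_lit 66869456074783588355)) (.alt (nat_lit 21) (.cov (nat_lit 140656441154272755713)) (.alt (nat_lit 21) (.cov (nat_lit 140656456547401990144)) (.alt (nat_lit 21) (.exp (.alt (nat_lit 29) (.cov (nat_lit 440416023565699121153)) (.alt (nat_lit 17) (.cov (nat_lit 730857487)) .e))) .e))))) .e))))) .e)) (.alt (nat_lit 7) (.exp (.alt (nat_lit 23) (.cov (nat_lit 21741793766907707392002)) (.alt (nat_lit 15) (.cov (nat_lit 25454201119603834224641)) (.alt (nat_lit 15) (.exp (.alt (nat_lit 31) (.cov (nat_lit 3004513458597694275587)) (.alt (nat_lit 31) (.cov (nat_lit 25435754377572801052672)) (.alt (nat_lit 13) (.cov (nat_lit 11573133503)) .e)))) .e)))) .e)))))) .e)) .e)) .e)) .e)) .e)) .e)) .e)) .e)) (.alt (nat_lit 2) (.exp (.alt (nat_lit 10) (.exp (.alt (nat_lit 18) (.exp (.alt (nat_lit 16) (.exp (.alt (nat_lit 20) (.exp (.alt (nat_lit 17) (.exp (.alt (nat_lit 19) (.exp (.alt (nat_lit 23) (.exp (.alt (nat_lit 27) (.exp (.alt (nat_lit 14) (.cov (nat_lit 142962299556610441223)) (.alt (nat_lit 14) (.cov (nat_lit 104583815666680228478979)) (.alt (nat_lit 14) (.cov (nat_lit 104583815945909776154625)) (.alt (nat_lit 14) (.exp (.alt (nat_lit 15) (.exp (.alt (nat_lit 12) (.cov (nat_lit 102065834977427164495874)) (.alt (nat_lit 12) (.cov (nat_lit 7618505335427456565249)) (.alt (nat_lit 12) (.cov (nat_lit 22756364904220558622720)) (.alt (nat_lit 12) (.exp (.alt (nat_lit 8) (.cov (nat_lit 45399743017205243052035)) (.alt (nat_lit 8) (.cov (nat_lit 1383505823120445407233)) (.alt (nat_lit 8) (.cov (nat_lit 1383505838513574641664)) (.alt (nat_lit 8) (.exp (.alt (nat_lit 24) (.cov (nat_lit 45436636505351995260929)) (.alt (nat_lit 9) (.cov (nat_lit 193986575)) .e))) .e))))) .e))))) .e)) (.alt (nat_lit 7) (.cov (nat_lit 13202621915)) .e)))))) .e)) .e)) .e)) .e)) .e)) .e)) (.alt (nat_lit 18) (.exp (.alt (nat_lit 16) (.exp (.alt (nat_lit 20) (.exp (.alt (nat_lit 17) (.exp (.alt (nat_lit 19) (.exp (.alt (nat_lit 23) (.exp (.alt (nat_lit 27) (.exp (.alt (nat_lit 14) (.cov (nat_lit 142962299556610441223)) (.alt (nat_lit 14) (.cov (nat_lit 104583815666680228478979)) (.alt (nat_lit 14) (.cov (nat_lit 104583815945909776154625)) (.alt (nat_lit 14) (.exp (.alt (nat_lit 15) (.exp (.alt (nat_lit 12) (.cov (nat_lit 102065834977427164495874)) (.alt (nat_lit 12) (.cov (nat_lit 7618505335427456565249)) (.alt (nat_lit 12) (.cov (nat_lit 22756364904220558622720)) (.alt (nat_lit 12) (.exp (.alt (nat_lit 8) (.cov (nat_lit 45399743017205243052035)) (.alt (nat_lit 8) (.cov (nat_lit 1383505823120445407233)) (.alt (nat_lit 8) (.cov (nat_lit 1383505838513574641664)) (.alt (nat_lit 8) (.exp (.alt (nat_lit 24) (.cov (nat_lit 45436636505351995260929)) (.alt (nat_lit 9) (.cov (nat_lit 193986575)) .e))) .e))))) .e))))) .e)) (.alt (nat_lit 7) (.cov (nat_lit 13202621915)) .e)))))) .e)) .e)) .e)) .e)) .e)) .e)) .e))) .e)) .e))) (.alt (nat_lit 6) (.exp (.alt (nat_lit 2) (.exp (.alt (nat_lit 10) (.exp (.alt (nat_lit 8) (.exp (.alt (nat_lit 12) (.exp (.alt (nat_lit 18) (.exp (.alt (nat_lit 16) (.exp (.alt (nat_lit 24) (.exp (.alt (nat_lit 17) (.exp (.alt (nat_lit 7) (.cov (nat_lit 406822188099319018553351)) (.alt (nat_lit 7) (.cov (nat_lit 3871510832483258073091)) (.alt (nat_lit 22) (.exp (.alt (nat_lit 23) (.exp (.alt (nat_lit 30) (.cov (nat_lit 347681926491256679038978)) (.alt (nat_lit 30) (.cov (nat_lit 22864739538847748063233)) (.alt (nat_lit 20) (.cov (nat_lit 364905288)) .e)))) .e)) (.alt (nat_lit 7) (.exp (.alt (nat_lit 15) (.cov (nat_lit 45556540592519895842818)) (.alt (nat_lit 15) (.exp (.alt (nat_lit 31) (.cov (nat_lit 26551782268688164454407)) (.alt (nat_lit 13) (.cov (nat_lit 1837757298356765327360)) .e))) .e))) .e))))) .e)) .e)) .e)) .e)) .e)) .e)) .e)) (.alt (nat_lit 2) (.cov (nat_lit 22300529190435526260329224404467712)) (.alt (nat_lit 2) (.cov (nat_lit 1950752201790151720998)) .e)))) (.alt (nat_lit 6) (.cov (nat_lit 50739525925830918237)) (.alt (nat_lit 6) (.exp (.alt (nat_lit 2) (.exp (.alt (nat_lit 10) (.exp (.alt (nat_lit 18) (.exp (.alt (nat_lit 16) (.exp (.alt (nat_lit 20) (.exp (.alt (nat_lit 17) (.exp (.alt (nat_lit 14) (.exp (.alt (nat_lit 12) (.exp (.alt (nat_lit 8) (.exp (.alt (nat_lit 24) (.exp (.alt (nat_lit 13) (.exp (.alt (nat_lit 15) (.exp (.alt (nat_lit 9) (.exp (.alt (nat_lit 30) (.cov (nat_lit 2875386241285598740481)) (.alt (nat_lit 30) (.exp (.alt (nat_lit 31) (.cov (nat_lit 1611784274435512467456)) (.alt (nat_lit 28) (.cov (nat_lit 11573133320)) .e))) .e))) .e)) .e)) .e)) .e)) .e)) (.alt (nat_lit 12) (.exp (.alt (nat_lit 8) (.exp (.alt (nat_lit 24) (.exp (.alt (nat_lit 9) (.exp (.alt (nat_lit 13) (.exp (.alt (nat_lit 15) (.exp (.alt (nat_lit 30) (.cov (nat_lit 2875386241285598740481)) (.alt (nat_lit 30) (.exp (.alt (nat_lit 31) (.cov (nat_lit 1611784274435512467456)) (.alt (nat_lit 28) (.cov (nat_lit 11573133320)) .e))) .e))) .e)) .e)) .e)) .e)) (.alt (nat_lit 8) (.exp (.alt (nat_lit 24) (.exp (.alt (nat_lit 25) (.exp (.alt (nat_lit 9) (.exp (.alt (nat_lit 29) (.exp (.alt (nat_lit 30) (.cov (nat_lit 365390800777825705000961)) (.alt (nat_lit 30) (.exp (.alt (nat_lit 31) (.cov (nat_lit 42997054603802895712256)) (.alt (nat_lit 26) (.cov (nat_lit 158170349576)) .e))) .e))) .e)) .e)) .e)) .e)) .e))) .e))) (.alt (nat_lit 14) (.cov (nat_lit 329735970516017086479)) (.alt (nat_lit 14) (.exp (.alt (nat_lit 12) (.exp (.alt (nat_lit 28) (.exp (.alt (nat_lit 30) (.exp (.alt (nat_lit 24) (.exp (.alt (nat_lit 15) (.cov (nat_lit 1694794629548107366402)) (.alt (nat_lit 15) (.cov (nat_lit 347640421317244288499713)) (.alt (nat_lit 15) (.cov (nat_lit 325124011633696309248)) (.alt (nat_lit 15) (.exp (.alt (nat_lit 13) (.cov (nat_lit 25302015349081810927619)) (.alt (nat_lit 13) (.cov (nat_lit 25449589310283769184257)) (.alt (nat_lit 13) (.cov (nat_lit 25449589325676898418688)) (.alt (nat_lit 13) (.exp (.alt (nat_lit 29) (.cov (nat_lit 404336489203445024161793)) (.alt (nat_lit 9) (.cov (nat_lit 11568939023)) .e))) .e))))) .e))))) .e)) .e)) .e)) .e)) (.alt (nat_lit 22) (.cov (nat_lit 29067460270484985217027)) (.alt (nat_lit 22) (.cov (nat_lit 807052118686570643457)) (.alt (nat_lit 22) (.exp (.alt (nat_lit 23) (.exp (.alt (nat_lit 30) (.cov (nat_lit 32281835115077697547)) (.alt (nat_lit 30) (.cov (nat_lit 25562575747478306422790)) (.alt (nat_lit 30) (.cov (nat_lit 25527988375038912888834)) (.alt (nat_lit 30) (.cov (nat_lit 6705393317973004910593)) (.alt (nat_lit 30) (.cov (nat_lit 104620712310379596742656)) (.alt (nat_lit 30) (.exp (.alt (nat_lit 14) (.cov (nat_lit 22754058847927873306631)) (.alt (nat_lit 14) (.cov (nat_lit 406822188099339374559235)) (.alt (nat_lit 28) (.cov (nat_lit 47954617482630681067521)) (.alt (nat_lit 28) (.exp (.alt (nat_lit 12) (.exp (.alt (nat_lit 29) (.cov (nat_lit 10166461845216080953346)) (.alt (nat_lit 24) (.cov (nat_lit 406845246421658731806721)) (.alt (nat_lit 24) (.cov (nat_lit 406845246529410871328768)) (.alt (nat_lit 24) (.cov (nat_lit 185011798207)) .e))))) .e)) (.alt (nat_lit 14) (.cov (nat_lit 47559214555)) .e)))))) .e))))))) .e)) (.alt (nat_lit 22) (.exp (.alt (nat_lit 30) (.cov (nat_lit 64563751592556232715)) (.alt (nat_lit 30) (.cov (nat_lit 1950745032975627321346)) (.alt (nat_lit 23) (.cov (nat_lit 1989945813297049632769)) (.alt (nat_lit 23) (.cov (nat_lit 904925188)) .e))))) .e)))))))) .e)) .e)) .e)) .e)) .e)) .e)) (.alt (nat_lit 6) (.exp (.alt (nat_lit 2) (.exp (.alt (nat_lit 10) (.exp (.alt (nat_lit 18) (.exp (.alt (nat_lit 16) (.exp (.alt (nat_lit 17) (.exp (.alt (nat_lit 14) (.cov (nat_lit 4127460290523650064418)) (.alt (nat_lit 7) (.cov (nat_lit 21525047787345742397447)) (.alt (nat_lit 7) (.cov (nat_lit 345228516570722873638915)) (.alt (nat_lit 7) (.exp (.alt (nat_lit 15) (.exp (.alt (nat_lit 23) (.cov (nat_lit 41885638508657555537931)) (.alt (nat_lit 23) (.cov (nat_lit 6689252421306707607554)) (.alt (nat_lit 23) (.cov (nat_lit 1989945813287299973121)) (.alt (nat_lit 23) (.exp (.alt (nat_lit 21) (.exp (.alt (nat_lit 20) (.exp (.alt (nat_lit 28) (.exp (.alt (nat_lit 12) (.exp (.alt (nat_lit 30) (.exp (.alt (nat_lit 29) (.cov (nat_lit 57646084027052982273)) (.alt (nat_lit 29) (.exp (.alt (nat_lit 25) (.cov (nat_lit 62257772243895451648)) (.alt (nat_lit 13) (.cov (nat_lit 156373090312)) .e))) .e))) .e)) .e)) .e)) .e)) (.alt (nat_lit 21) (.cov (nat_lit 350186072386299425193987)) (.alt (nat_lit 21) (.exp (.alt (nat_lit 20) (.exp (.alt (nat_lit 29) (.cov (nat_lit 1614090139435116003330)) (.alt (nat_lit 29) (.cov (nat_lit 22053082687454340710401)) (.alt (nat_lit 29) (.exp (.alt (nat_lit 13) (.cov (nat_lit 343868062138640088694787)) (.alt (nat_lit 28) (.exp (.alt (nat_lit 12) (.exp (.alt (nat_lit 24) (.cov (nat_lit 428886808509848485889)) (.alt (nat_lit 30) (.cov (nat_lit 4624220175)) .e))) .e)) (.alt (nat_lit 28) (.exp (.alt (nat_lit 24) (.cov (nat_lit 428886808510016258050)) (.alt (nat_lit 12) (.cov (nat_lit 18933088323)) .e))) .e)))) .e)))) .e)) (.alt (nat_lit 19) (.cov (nat_lit 13248760979)) .e))))) .e))))) .e)) (.alt (nat_lit 7) (.cov (nat_lit 15735217)) .e)))))) .e)) .e)) .e)) .e)) (.alt (nat_lit 2) (.exp (.alt (nat_lit 10) (.exp (.alt (nat_lit 8) (.exp (.alt (nat_lit 12) (.exp (.alt (nat_lit 9) (.exp (.alt (nat_lit 22) (.cov (nat_lit 10251778804015672852514)) (.alt (nat_lit 14) (.cov (nat_lit 3020657638425410666503)) (.alt (nat_lit 14) (.cov (nat_lit 2873087455125843214339)) (.alt (nat_lit 14) (.cov (nat_lit 69186269999541518336)) (.alt (nat_lit 14) (.cov (nat_lit 736106588)) .e)))))) .e)) .e)) .e)) .e)) .e))) (.alt (nat_lit 12) (.cov (nat_lit 433514740912087891974)) (.alt (nat_lit 12) (.exp (.alt (nat_lit 8) (.exp (.alt (nat_lit 9) (.exp (.alt (nat_lit 10) (.exp (.alt (nat_lit 28) (.exp (.alt (nat_lit 20) (.exp (.alt (nat_lit 16) (.exp (.alt (nat_lit 24) (.exp (.alt (nat_lit 18) (.exp (.alt (nat_lit 21) (.exp (.alt (nat_lit 17) (.exp (.alt (nat_lit 29) (.exp (.alt (nat_lit 30) (.cov (nat_lit 2875386250084562763778)) (.alt (nat_lit 30) (.cov (nat_lit 7779914346072379490305)) (.alt (nat_lit 30) (.cov (nat_lit 102245690960844236521472)) (.alt (nat_lit 30) (.exp (.alt (nat_lit 14) (.cov (nat_lit 45413578075306207477763)) (.alt (nat_lit 14) (.cov (nat_lit 384317160206247777009665)) (.alt (nat_lit 14) (.cov (nat_lit 384317160221640939798528)) (.alt (nat_lit 14) (.exp (.alt (nat_lit 15) (.cov (nat_lit 2875386241285576720385)) (.alt (nat_lit 6) (.cov (nat_lit 1852833807)) .e))) .e))))) .e))))) .e)) .e)) .e)) .e)) .e)) .e)) (.alt (nat_lit 20) (.exp (.alt (nat_lit 16) (.exp (.alt (nat_lit 24) (.exp (.alt (nat_lit 17) (.exp (.alt (nat_lit 25) (.exp (.alt (nat_lit 29) (.exp (.alt (nat_lit 27) (.exp (.alt (nat_lit 30) (.cov (nat_lit 6377961781077454356482)) (.alt (nat_lit 30) (.cov (nat_lit 7779914346072979275777)) (.alt (nat_lit 30) (.cov (nat_lit 8905165936878789066752)) (.alt (nat_lit 30) (.exp (.alt (nat_lit 14) (.cov (nat_lit 365353907289698900901891)) (.alt (nat_lit 14) (.cov (nat_lit 22740223774457685082113)) (.alt (nat_lit 14) (.cov (nat_lit 22740223789850814316544)) (.alt (nat_lit 14) (.exp (.alt (nat_lit 6) (.cov (nat_lit 365335460545605176131585)) (.alt (nat_lit 15) (.cov (nat_lit 3463446543)) .e))) .e))))) .e))))) .e)) .e)) .e)) .e)) .e)) .e)) .e))) (.alt (nat_lit 13) (.cov (nat_lit 24236719166181665144866)) (.alt (nat_lit 13) (.cov (nat_lit 405567816435829784444943)) (.alt (nat_lit 13) (.exp (.alt (nat_lit 15) (.exp (.alt (nat_lit 7) (.exp (.alt (nat_lit 6) (.exp (.alt (nat_lit 23) (.exp (.alt (nat_lit 29) (.cov (nat_lit 6564735080216963055627)) (.alt (nat_lit 29) (.cov (nat_lit 25447283695975842971654)) (.alt (nat_lit 29) (.cov (nat_lit 1828533926331406090242)) (.alt (nat_lit 29) (.cov (nat_lit 212139404027216527361)) (.alt (nat_lit 29) (.cov (nat_lit 3016045952387393781760)) (.alt (nat_lit 29) (.exp (.alt (nat_lit 21) (.cov (nat_lit 21511209465951463407623)) (.alt (nat_lit 21) (.cov (nat_lit 629495282264323391491)) (.alt (nat_lit 28) (.cov (nat_lit 1826228083310708391937)) (.alt (nat_lit 28) (.exp (.alt (nat_lit 20) (.exp (.alt (nat_lit 24) (.cov (nat_lit 36893505739800182786)) (.alt (nat_lit 24) (.cov (nat_lit 627189331492104830977)) (.alt (nat_lit 24) (.cov (nat_lit 1828533752597080702976)) (.alt (nat_lit 24) (.exp (.alt (nat_lit 16) (.cov (nat_lit 25274345232797779623939)) (.alt (nat_lit 16) (.cov (nat_lit 1443457741369740623873)) (.alt (nat_lit 16) (.cov (nat_lit 1443457756753139073024)) (.alt (nat_lit 16) (.exp (.alt (nat_lit 18) (.cov (nat_lit 25278956918806451060737)) (.alt (nat_lit 17) (.cov (nat_lit 221249551)) .e))) .e))))) .e))))) .e)) (.alt (nat_lit 21) (.cov (nat_lit 1363150299)) .e)))))) .e))))))) .e)) .e)) .e)) .e)) (.alt (nat_lit 13) (.cov (nat_lit 66880426993213505539)) (.alt (nat_lit 13) (.cov (nat_lit 1395048740280391958529)) (.alt (nat_lit 13) (.exp (.alt (nat_lit 15) (.exp (.alt (nat_lit 29) (.cov (nat_lit 647942305602780266517)) (.alt (nat_lit 29) (.cov (nat_lit 212139404031813484555)) (.alt (nat_lit 29) (.cov (nat_lit 21815588600266225614854)) (.alt (nat_lit 29) (.exp (.alt (nat_lit 21) (.exp (.alt (nat_lit 20) (.exp (.alt (nat_lit 17) (.exp (.alt (nat_lit 28) (.cov (nat_lit 23164498903546948747271)) (.alt (nat_lit 28) (.exp (.alt (nat_lit 24) (.exp (.alt (nat_lit 25) (.exp (.alt (nat_lit 27) (.exp (.alt (nat_lit 30) (.cov (nat_lit 419663436482764341249)) (.alt (nat_lit 30) (.exp (.alt (nat_lit 22) (.cov (nat_lit 21893979383479146643456)) (.alt (nat_lit 14) (.cov (nat_lit 10341056520)) .e))) .e))) .e)) .e)) .e)) (.alt (nat_lit 28) (.cov (nat_lit 23238286266869074624513)) (.alt (nat_lit 28) (.exp (.alt (nat_lit 24) (.exp (.alt (nat_lit 30) (.cov (nat_lit 2875386250102321446914)) (.alt (nat_lit 30) (.cov (nat_lit 2875386265631211913217)) (.alt (nat_lit 30) (.cov (nat_lit 350243718276800349995008)) (.alt (nat_lit 30) (.exp (.alt (nat_lit 31) (.cov (nat_lit 6407937731557336285187)) (.alt (nat_lit 31) (.cov (nat_lit 104609179816589901430785)) (.alt (nat_lit 31) (.cov (nat_lit 104609179831983030665216)) (.alt (nat_lit 31) (.exp (.alt (nat_lit 23) (.cov (nat_lit 6389490987483625684993)) (.alt (nat_lit 27) (.cov (nat_lit 47566553103)) .e))) .e))))) .e))))) .e)) (.alt (nat_lit 25) (.exp (.alt (nat_lit 27) (.cov (nat_lit 104599956459946879483906)) (.alt (nat_lit 24) (.cov (nat_lit 45660303415784176091137)) (.alt (nat_lit 24) (.exp (.alt (nat_lit 26) (.cov (nat_lit 350160707710765521436675)) (.alt (nat_lit 26) (.exp (.alt (nat_lit 27) (.exp (.alt (nat_lit 18) (.cov (nat_lit 6396408516355486121985)) (.alt (nat_lit 18) (.exp (.alt (nat_lit 22) (.cov (nat_lit 6414855262627619143680)) (.alt (nat_lit 2) (.cov (nat_lit 157041033224)) .e))) .e))) .e)) (.alt (nat_lit 16) (.cov (nat_lit 159268208831)) .e)))) .e)))) .e)))))) .e)) .e)) .e)) (.alt (nat_lit 29) (.exp (.alt (nat_lit 21) (.exp (.alt (nat_lit 20) (.exp (.alt (nat_lit 28) (.cov (nat_lit 645636183327856656391)) (.alt (nat_lit 28) (.cov (nat_lit 23238286266871960305667)) (.alt (nat_lit 28) (.exp (.alt (nat_lit 24) (.exp (.alt (nat_lit 30) (.cov (nat_lit 6405631912627419480066)) (.alt (nat_lit 30) (.cov (nat_lit 22039247717360002400257)) (.alt (nat_lit 30) (.exp (.alt (nat_lit 26) (.cov (nat_lit 350160707710776826134531)) (.alt (nat_lit 22) (.exp (.alt (nat_lit 6) (.exp (.alt (nat_lit 23) (.cov (nat_lit 43811025971789692929)) (.alt (nat_lit 23) (.exp (.alt (nat_lit 19) (.cov (nat_lit 21513515286958898675712)) (.alt (nat_lit 31) (.cov (nat_lit 9792651272)) .e))) .e))) .e)) (.alt (nat_lit 26) (.cov (nat_lit 1394606672)) .e)))) .e)))) .e)) (.alt (nat_lit 28) (.cov (nat_lit 19620957329)) .e))))) .e)) .e)) (.alt (nat_lit 29) (.cov (nat_lit 3975285537070335918080)) (.alt (nat_lit 29) (.exp (.alt (nat_lit 21) (.exp (.alt (nat_lit 20) (.cov (nat_lit 1384274765036334444545830675283969)) (.alt (nat_lit 20) (.exp (.alt (nat_lit 28) (.exp (.alt (nat_lit 24) (.exp (.alt (nat_lit 30) (.exp (.alt (nat_lit 14) (.exp (.alt (nat_lit 6) (.exp (.alt (nat_lit 17) (.cov (nat_lit 2847716125175055384577)) (.alt (nat_lit 17) (.exp (.alt (nat_lit 19) (.cov (nat_lit 1369670758468078796800)) (.alt (nat_lit 16) (.cov (nat_lit 2971664392)) .e))) .e))) .e)) .e)) .e)) .e)) (.alt (nat_lit 28) (.cov (nat_lit 629495282263360798727)) .e))) .e))) (.alt (nat_lit 21) (.cov (nat_lit 29051316158845523329039)) (.alt (nat_lit 21) (.exp (.alt (nat_lit 20) (.exp (.alt (nat_lit 16) (.exp (.alt (nat_lit 17) (.exp (.alt (nat_lit 24) (.exp (.alt (nat_lit 23) (.cov (nat_lit 7791443545891408969730)) (.alt (nat_lit 23) (.cov (nat_lit 1445763599918721662977)) (.alt (nat_lit 23) (.cov (nat_lit 365591409346126684356608)) (.alt (nat_lit 23) (.exp (.alt (nat_lit 19) (.cov (nat_lit 431192651684596678659)) (.alt (nat_lit 19) (.cov (nat_lit 347799524469330561466369)) (.alt (nat_lit 19) (.cov (nat_lit 347799524484723690700800)) (.alt (nat_lit 19) (.exp (.alt (nat_lit 18) (.cov (nat_lit 428886808666226819073)) (.alt (nat_lit 27) (.cov (nat_lit 158169301007)) .e))) .e))))) .e))))) .e)) .e)) .e)) .e)) (.alt (nat_lit 21) (.cov (nat_lit 21511212731535864102915)) (.alt (nat_lit 21) (.cov (nat_lit 6613164857668054024193)) (.alt (nat_lit 21) (.exp (.alt (nat_lit 20) (.exp (.alt (nat_lit 17) (.cov (nat_lit 104599956459946173792267)) (.alt (nat_lit 17) (.cov (nat_lit 6610852052551221641222)) (.alt (nat_lit 17) (.exp (.alt (nat_lit 16) (.exp (.alt (nat_lit 24) (.exp (.alt (nat_lit 18) (.exp (.alt (nat_lit 19) (.cov (nat_lit 431192651675441561603)) (.alt (nat_lit 19) (.cov (nat_lit 7800666917762174550017)) (.alt (nat_lit 19) (.cov (nat_lit 7800666933155303784448)) (.alt (nat_lit 19) (.exp (.alt (nat_lit 23) (.cov (nat_lit 440416023712295288833)) (.alt (nat_lit 27) (.cov (nat_lit 3555721231)) .e))) .e))))) .e)) .e)) .e)) (.alt (nat_lit 17) (.exp (.alt (nat_lit 16) (.exp (.alt (nat_lit 24) (.exp (.alt (nat_lit 19) (.cov (nat_lit 45420495613083725594627)) (.alt (nat_lit 19) (.exp (.alt (nat_lit 18) (.exp (.alt (nat_lit 23) (.cov (nat_lit 440416023712295288833)) (.alt (nat_lit 27) (.cov (nat_lit 3555721231)) .e))) .e)) (.alt (nat_lit 19) (.cov (nat_lit 20755513701)) .e)))) .e)) .e)) (.alt (nat_lit 17) (.cov (nat_lit 2693229516593222909952)) (.alt (nat_lit 17) (.exp (.alt (nat_lit 16) (.cov (nat_lit 350160707726158543716359)) (.alt (nat_lit 16) (.exp (.alt (nat_lit 24) (.exp (.alt (nat_lit 25) (.exp (.alt (nat_lit 27) (.exp (.alt (nat_lit 18) (.cov (nat_lit 6396408516355486121985)) (.alt (nat_lit 18) (.exp (.alt (nat_lit 22) (.cov (nat_lit 1454986949808963452928)) (.alt (nat_lit 2) (.cov (nat_lit 157041033224)) .e))) .e))) .e)) .e)) .e)) (.alt (nat_lit 16) (.cov (nat_lit 350234495089481441345537)) (.alt (nat_lit 16) (.exp (.alt (nat_lit 24) (.exp (.alt (nat_lit 18) (.cov (nat_lit 347801830312505864355842)) (.alt (nat_lit 18) (.cov (nat_lit 22843986725421801537537)) (.alt (nat_lit 18) (.cov (nat_lit 23219839338077406363648)) (.alt (nat_lit 18) (.exp (.alt (nat_lit 19) (.cov (nat_lit 431192651675441561603)) (.alt (nat_lit 19) (.cov (nat_lit 7800666917762174550017)) (.alt (nat_lit 19) (.cov (nat_lit 7800666933155303784448)) (.alt (nat_lit 19) (.exp (.alt (nat_lit 23) (.cov (nat_lit 440416023712295288833)) (.alt (nat_lit 27) (.cov (nat_lit 3555721231)) .e))) .e))))) .e))))) .e)) (.alt (nat_lit 16) (.exp (.alt (nat_lit 18) (.exp (.alt (nat_lit 22) (.exp (.alt (nat_lit 6) (.exp (.alt (nat_lit 23) (.exp (.alt (nat_lit 26) (.cov (nat_lit 1390423345550998896640)) (.alt (nat_lit 19) (.cov (nat_lit 28311560)) .e))) .e)) .e)) .e)) (.alt (nat_lit 24) (.cov (nat_lit 45660303413585162272769)) (.alt (nat_lit 24) (.exp (.alt (nat_lit 26) (.cov (nat_lit 350160707710765521436675)) (.alt (nat_lit 26) (.exp (.alt (nat_lit 18) (.exp (.alt (nat_lit 30) (.cov (nat_lit 102098116770760670314497)) (.alt (nat_lit 27) (.cov (nat_lit 3555721231)) .e))) .e)) (.alt (nat_lit 28) (.cov (nat_lit 10567549119)) .e)))) .e)))) .e)))))) .e))))))) .e)) (.alt (nat_lit 21) (.exp (.alt (nat_lit 20) (.cov (nat_lit 384333301349204841463819)) (.alt (nat_lit 20) (.cov (nat_lit 212139404073623355394)) (.alt (nat_lit 20) (.cov (nat_lit 41680423116378375979009)) (.alt (nat_lit 20) (.exp (.alt (nat_lit 28) (.cov (nat_lit 645636183327856656391)) (.alt (nat_lit 28) (.cov (nat_lit 23238286266871960305667)) (.alt (nat_lit 28) (.exp (.alt (nat_lit 24) (.exp (.alt (nat_lit 30) (.cov (nat_lit 6405631912627419480066)) (.alt (nat_lit 30) (.cov (nat_lit 22039247717360002400257)) (.alt (nat_lit 30) (.exp (.alt (nat_lit 26) (.cov (nat_lit 350160707710776826134531)) (.alt (nat_lit 22) (.exp (.alt (nat_lit 6) (.exp (.alt (nat_lit 23) (.cov (nat_lit 43811025971789692929)) (.alt (nat_lit 23) (.exp (.alt (nat_lit 19) (.cov (nat_lit 21513515286958898675712)) (.alt (nat_lit 31) (.cov (nat_lit 9792651272)) .e))) .e))) .e)) (.alt (nat_lit 26) (.cov (nat_lit 1394606672)) .e)))) .e)))) .e)) (.alt (nat_lit 28) (.cov (nat_lit 19620957329)) .e))))) .e))))) .e)))))))) .e)))))))) .e)) (.alt (nat_lit 13) (.exp (.alt (nat_lit 15) (.cov (nat_lit 22742531447054230618130)) (.alt (nat_lit 15) (.cov (nat_lit 1934607188552181612555)) (.alt (nat_lit 15) (.cov (nat_lit 71490151526408650754)) (.alt (nat_lit 15) (.cov (nat_lit 71492113008746823681)) (.alt (nat_lit 15) (.exp (.alt (nat_lit 31) (.cov (nat_lit 790904572174371127330)) (.alt (nat_lit 7) (.cov (nat_lit 274398614434040774663)) (.alt (nat_lit 7) (.cov (nat_lit 21746412489773045252099)) (.alt (nat_lit 7) (.cov (nat_lit 53045368935036223488)) (.alt (nat_lit 11) (.cov (nat_lit 296753248)) .e)))))) .e)))))) .e))))))))) .e)) .e)) .e)) (.alt (nat_lit 6) (.exp (.alt (nat_lit 2) (.exp (.alt (nat_lit 10) (.exp (.alt (nat_lit 7) (.cov (nat_lit 406822191254917121835046)) (.alt (nat_lit 7) (.cov (nat_lit 404313437830019086811170)) (.alt (nat_lit 7) (.cov (nat_lit 53045368935079215111)) (.alt (nat_lit 7) (.cov (nat_lit 53048108918022078467)) (.alt (nat_lit 7) (.exp (.alt (nat_lit 15) (.exp (.alt (nat_lit 23) (.cov (nat_lit 1989944364134529237012)) (.alt (nat_lit 23) (.cov (nat_lit 1989945813287297875979)) (.alt (nat_lit 23) (.exp (.alt (nat_lit 22) (.exp (.alt (nat_lit 20) (.exp (.alt (nat_lit 18) (.exp (.alt (nat_lit 21) (.exp (.alt (nat_lit 17) (.exp (.alt (nat_lit 25) (.exp (.alt (nat_lit 9) (.exp (.alt (nat_lit 27) (.exp (.alt (nat_lit 29) (.cov (nat_lit 1614090115245692420097)) (.alt (nat_lit 29) (.exp (.alt (nat_lit 28) (.cov (nat_lit 25438060088640600539136)) (.alt (nat_lit 13) (.cov (nat_lit 1757413384)) .e))) .e))) .e)) .e)) .e)) .e)) (.alt (nat_lit 21) (.cov (nat_lit 104623015277077870936067)) (.alt (nat_lit 21) (.exp (.alt (nat_lit 17) (.exp (.alt (nat_lit 29) (.cov (nat_lit 440416047745345781762)) (.alt (nat_lit 29) (.cov (nat_lit 3170534285003400937473)) (.alt (nat_lit 29) (.exp (.alt (nat_lit 13) (.cov (nat_lit 343868062138640088694787)) (.alt (nat_lit 28) (.exp (.alt (nat_lit 12) (.exp (.alt (nat_lit 24) (.cov (nat_lit 404336489203445599830017)) (.alt (nat_lit 30) (.cov (nat_lit 4624220175)) .e))) .e)) (.alt (nat_lit 28) (.exp (.alt (nat_lit 24) (.cov (nat_lit 428886808510016258050)) (.alt (nat_lit 12) (.cov (nat_lit 18933088323)) .e))) .e)))) .e)))) .e)) (.alt (nat_lit 21) (.exp (.alt (nat_lit 29) (.cov (nat_lit 7630034776973591445506)) (.alt (nat_lit 17) (.cov (nat_lit 3046115496)) .e))) .e))))) .e)) .e)) .e)) (.alt (nat_lit 23) (.cov (nat_lit 1989955537368136024065)) (.alt (nat_lit 23) (.exp (.alt (nat_lit 21) (.cov (nat_lit 23235981349658408517666)) (.alt (nat_lit 22) (.cov (nat_lit 1987639970278116687879)) (.alt (nat_lit 22) (.cov (nat_lit 24271310622226523357187)) (.alt (nat_lit 22) (.exp (.alt (nat_lit 20) (.exp (.alt (nat_lit 18) (.cov (nat_lit 41874109194655435325451)) (.alt (nat_lit 18) (.cov (nat_lit 23206005891906345631746)) (.alt (nat_lit 18) (.cov (nat_lit 1978416598241226260481)) (.alt (nat_lit 18) (.exp (.alt (nat_lit 16) (.exp (.alt (nat_lit 17) (.exp (.alt (nat_lit 25) (.exp (.alt (nat_lit 9) (.exp (.alt (nat_lit 27) (.exp (.alt (nat_lit 24) (.cov (nat_lit 64563613054688821249)) (.alt (nat_lit 24) (.exp (.alt (nat_lit 28) (.cov (nat_lit 1837756889338442940416)) (.alt (nat_lit 8) (.cov (nat_lit 156376236040)) .e))) .e))) .e)) .e)) .e)) .e)) (.alt (nat_lit 16) (.cov (nat_lit 350174543171253353578499)) (.alt (nat_lit 16) (.exp (.alt (nat_lit 17) (.exp (.alt (nat_lit 24) (.cov (nat_lit 428886832699272069122)) (.alt (nat_lit 24) (.cov (nat_lit 797821828523108597761)) (.alt (nat_lit 24) (.exp (.alt (nat_lit 8) (.cov (nat_lit 3857675372025633308675)) (.alt (nat_lit 28) (.exp (.alt (nat_lit 12) (.exp (.alt (nat_lit 29) (.cov (nat_lit 404336489203445001093121)) (.alt (nat_lit 30) (.cov (nat_lit 185018089487)) .e))) .e)) (.alt (nat_lit 28) (.exp (.alt (nat_lit 29) (.cov (nat_lit 440416023556089970690)) (.alt (nat_lit 12) (.cov (nat_lit 1758462019)) .e))) .e)))) .e)))) .e)) (.alt (nat_lit 16) (.exp (.alt (nat_lit 24) (.cov (nat_lit 45397437424883980042242)) (.alt (nat_lit 17) (.cov (nat_lit 3046115496)) .e))) .e))))) .e))))) .e)) (.alt (nat_lit 22) (.cov (nat_lit 20978091)) .e)))))) .e)))))) .e)) (.alt (nat_lit 7) (.cov (nat_lit 2968526367)) .e))))))) .e)) .e)) (.alt (nat_lit 6) (.cov (nat_lit 16157956688868016128)) (.alt (nat_lit 6) (.exp (.alt (nat_lit 2) (.exp (.alt (nat_lit 10) (.cov (nat_lit 3011945074871656234967520015024130)) (.alt (nat_lit 10) (.cov (nat_lit 253537368826645353089534558994433)) (.alt (nat_lit 10) (.exp (.alt (nat_lit 8) (.cov (nat_lit 3011945074871651623272705492516867)) (.alt (nat_lit 8) (.exp (.alt (nat_lit 12) (.exp (.alt (nat_lit 9) (.cov (nat_lit 3011945074906891821971523274539009)) (.alt (nat_lit 9) (.cov (nat_lit 115295446817192280075)) .e))) .e)) (.alt (nat_lit 8) (.exp (.alt (nat_lit 12) (.cov (nat_lit 91278091937261016335142519570434)) (.alt (nat_lit 12) (.cov (nat_lit 115295446952923103251)) .e))) .e)))) .e)))) (.alt (nat_lit 2) (.exp (.alt (nat_lit 10) (.cov (nat_lit 91605518531350645157618888453652482)) (.alt (nat_lit 10) (.cov (nat_lit 889596642030718889590982533395251201)) (.alt (nat_lit 10) (.cov (nat_lit 91286380331614994802089287221248)) (.alt (nat_lit 10) (.cov (nat_lit 21513517540962329428061)) .e))))) (.alt (nat_lit 2) (.exp (.alt (nat_lit 10) (.exp (.alt (nat_lit 8) (.exp (.alt (nat_lit 12) (.exp (.alt (nat_lit 9) (.exp (.alt (nat_lit 11) (.exp (.alt (nat_lit 15) (.exp (.alt (nat_lit 27) (.exp (.alt (nat_lit 18) (.cov (nat_lit 25426530895585513308171)) (.alt (nat_lit 18) (.cov (nat_lit 6530147648395284578310)) (.alt (nat_lit 18) (.cov (nat_lit 641024776577751187458)) (.alt (nat_lit 18) (.cov (nat_lit 1365060908634102300673)) (.alt (nat_lit 18) (.cov (nat_lit 21877841767755415552000)) (.alt (nat_lit 18) (.exp (.alt (nat_lit 26) (.cov (nat_lit 21541185425062655688711)) (.alt (nat_lit 26) (.cov (nat_lit 659471241375515672579)) (.alt (nat_lit 16) (.cov (nat_lit 636413090556480061441)) (.alt (nat_lit 16) (.exp (.alt (nat_lit 24) (.exp (.alt (nat_lit 20) (.cov (nat_lit 64563621850896138242)) (.alt (nat_lit 20) (.cov (nat_lit 1835451068320075218945)) (.alt (nat_lit 20) (.cov (nat_lit 641024602852040900608)) (.alt (nat_lit 20) (.exp (.alt (nat_lit 28) (.cov (nat_lit 6414855260438988324867)) (.alt (nat_lit 28) (.cov (nat_lit 288230393753693585409)) (.alt (nat_lit 28) (.cov (nat_lit 288230409137092034560)) (.alt (nat_lit 28) (.exp (.alt (nat_lit 29) (.cov (nat_lit 6417161103438429290497)) (.alt (nat_lit 30) (.cov (nat_lit 770703375)) .e))) .e))))) .e))))) .e)) (.alt (nat_lit 26) (.cov (nat_lit 9957279195)) .e)))))) .e))))))) .e)) .e)) .e)) .e)) .e)) .e)) (.alt (nat_lit 10) (.exp (.alt (nat_lit 8) (.exp (.alt (nat_lit 12) (.exp (.alt (nat_lit 9) (.exp (.alt (nat_lit 11) (.exp (.alt (nat_lit 15) (.exp (.alt (nat_lit 27) (.exp (.alt (nat_lit 18) (.cov (nat_lit 25426530895585513308171)) (.alt (nat_lit 18) (.cov (nat_lit 6530147648395284578310)) (.alt (nat_lit 18) (.cov (nat_lit 641024776577751187458)) (.alt (nat_lit 18) (.cov (nat_lit 1365060908634102300673)) (.alt (nat_lit 18) (.cov (nat_lit 21877841767755415552000)) (.alt (nat_lit 18) (.exp (.alt (nat_lit 26) (.cov (nat_lit 21541185425062655688711)) (.alt (nat_lit 26) (.cov (nat_lit 659471241375515672579)) (.alt (nat_lit 16) (.cov (nat_lit 636413090556480061441)) (.alt (nat_lit 16) (.exp (.alt (nat_lit 24) (.exp (.alt (nat_lit 20) (.cov (nat_lit 64563621850896138242)) (.alt (nat_lit 20) (.cov (nat_lit 1835451068320075218945)) (.alt (nat_lit 20) (.cov (nat_lit 641024602852040900608)) (.alt (nat_lit 20) (.exp (.alt (nat_lit 28) (.cov (nat_lit 6414855260438988324867)) (.alt (nat_lit 28) (.cov (nat_lit 288230393753693585409)) (.alt (nat_lit 28) (.cov (nat_lit 288230409137092034560)) (.alt (nat_lit 28) (.exp (.alt (nat_lit 29) (.cov (nat_lit 6417161103438429290497)) (.alt (nat_lit 30) (.cov (nat_lit 770703375)) .e))) .e))))) .e))))) .e)) (.alt (nat_lit 26) (.cov (nat_lit 9957279195)) .e)))))) .e))))))) .e)) .e)) .e)) .e)) .e)) .e)) .e))) (.alt (nat_lit 2) (.cov (nat_lit 41516153889575927842)) (.alt (nat_lit 2) (.cov (nat_lit 115305872365809827855)) (.alt (nat_lit 2) (.exp (.alt (nat_lit 10) (.exp (.alt (nat_lit 8) (.exp (.alt (nat_lit 12) (.exp (.alt (nat_lit 9) (.exp (.alt (nat_lit 18) (.cov (nat_lit 104666826294242732670997)) (.alt (nat_lit 18) (.cov (nat_lit 1674043872026838433803)) (.alt (nat_lit 18) (.cov (nat_lit 22777122126845228089350)) (.alt (nat_lit 18) (.exp (.alt (nat_lit 22) (.exp (.alt (nat_lit 20) (.exp (.alt (nat_lit 30) (.exp (.alt (nat_lit 26) (.cov (nat_lit 347820277071809563590663)) (.alt (nat_lit 26) (.exp (.alt (nat_lit 24) (.exp (.alt (nat_lit 16) (.exp (.alt (nat_lit 17) (.exp (.alt (nat_lit 27) (.cov (nat_lit 404350324261500874653697)) (.alt (nat_lit 27) (.exp (.alt (nat_lit 31) (.cov (nat_lit 2649413628581666357248)) (.alt (nat_lit 19) (.cov (nat_lit 1936719880)) .e))) .e))) .e)) .e)) .e)) (.alt (nat_lit 26) (.cov (nat_lit 48023792772907674894337)) (.alt (nat_lit 26) (.exp (.alt (nat_lit 24) (.exp (.alt (nat_lit 27) (.cov (nat_lit 63159345882965778366466)) (.alt (nat_lit 27) (.cov (nat_lit 25426530895585367556097)) (.alt (nat_lit 27) (.cov (nat_lit 347875617418376935112704)) (.alt (nat_lit 27) (.exp (.alt (nat_lit 19) (.cov (nat_lit 365372354033762354331651)) (.alt (nat_lit 19) (.cov (nat_lit 4258892055619660939265)) (.alt (nat_lit 19) (.cov (nat_lit 4258892071003059388416)) (.alt (nat_lit 19) (.exp (.alt (nat_lit 23) (.cov (nat_lit 2852327811203204120577)) (.alt (nat_lit 17) (.cov (nat_lit 12135170063)) .e))) .e))))) .e))))) .e)) (.alt (nat_lit 16) (.exp (.alt (nat_lit 17) (.cov (nat_lit 26685521178615455154178)) (.alt (nat_lit 24) (.cov (nat_lit 406919033512302800273409)) (.alt (nat_lit 24) (.exp (.alt (nat_lit 25) (.cov (nat_lit 26556393954707021758467)) (.alt (nat_lit 25) (.exp (.alt (nat_lit 17) (.exp (.alt (nat_lit 27) (.cov (nat_lit 404350324261500874653697)) (.alt (nat_lit 27) (.exp (.alt (nat_lit 31) (.cov (nat_lit 404313430775551879020544)) (.alt (nat_lit 19) (.cov (nat_lit 1936719880)) .e))) .e))) .e)) (.alt (nat_lit 28) (.cov (nat_lit 185049546943)) .e)))) .e)))) .e)))))) .e)) .e)) .e)) (.alt (nat_lit 18) (.exp (.alt (nat_lit 22) (.exp (.alt (nat_lit 20) (.exp (.alt (nat_lit 26) (.exp (.alt (nat_lit 30) (.exp (.alt (nat_lit 31) (.exp (.alt (nat_lit 23) (.exp (.alt (nat_lit 15) (.exp (.alt (nat_lit 24) (.cov (nat_lit 1680959564711915945985)) (.alt (nat_lit 24) (.exp (.alt (nat_lit 25) (.cov (nat_lit 25274345234986446094336)) (.alt (nat_lit 16) (.cov (nat_lit 118489096)) .e))) .e))) .e)) .e)) .e)) .e)) (.alt (nat_lit 26) (.cov (nat_lit 48023792772907781849091)) (.alt (nat_lit 26) (.exp (.alt (nat_lit 30) (.exp (.alt (nat_lit 27) (.exp (.alt (nat_lit 31) (.exp (.alt (nat_lit 23) (.exp (.alt (nat_lit 15) (.exp (.alt (nat_lit 25) (.cov (nat_lit 2843104441355626086400)) (.alt (nat_lit 19) (.cov (nat_lit 655360008)) .e))) .e)) .e)) .e)) (.alt (nat_lit 24) (.cov (nat_lit 406919033510103764434945)) (.alt (nat_lit 24) (.exp (.alt (nat_lit 25) (.cov (nat_lit 26556393954707021758467)) (.alt (nat_lit 25) (.exp (.alt (nat_lit 27) (.exp (.alt (nat_lit 29) (.cov (nat_lit 365390800777826303737857)) (.alt (nat_lit 17) (.cov (nat_lit 12135170063)) .e))) .e)) (.alt (nat_lit 28) (.cov (nat_lit 185049546943)) .e)))) .e)))) .e)) (.alt (nat_lit 16) (.cov (nat_lit 9789508759)) .e))))) .e)) .e)) (.alt (nat_lit 18) (.cov (nat_lit 104689896467117782335488)) (.alt (nat_lit 18) (.exp (.alt (nat_lit 22) (.exp (.alt (nat_lit 20) (.exp (.alt (nat_lit 16) (.exp (.alt (nat_lit 24) (.exp (.alt (nat_lit 21) (.exp (.alt (nat_lit 23) (.exp (.alt (nat_lit 17) (.exp (.alt (nat_lit 30) (.cov (nat_lit 45450471563407243870209)) (.alt (nat_lit 30) (.exp (.alt (nat_lit 31) (.cov (nat_lit 1611784274435504078848)) (.alt (nat_lit 28) (.cov (nat_lit 185015992328)) .e))) .e))) .e)) .e)) .e)) .e)) .e)) (.alt (nat_lit 20) (.exp (.alt (nat_lit 16) (.exp (.alt (nat_lit 24) (.exp (.alt (nat_lit 17) (.exp (.alt (nat_lit 21) (.exp (.alt (nat_lit 23) (.exp (.alt (nat_lit 30) (.cov (nat_lit 45450471563407243870209)) (.alt (nat_lit 30) (.exp (.alt (nat_lit 31) (.cov (nat_lit 1611784274435504078848)) (.alt (nat_lit 28) (.cov (nat_lit 185015992328)) .e))) .e))) .e)) .e)) .e)) .e)) (.alt (nat_lit 16) (.exp (.alt (nat_lit 24) (.exp (.alt (nat_lit 25) (.exp (.alt (nat_lit 17) (.exp (.alt (nat_lit 29) (.exp (.alt (nat_lit 30) (.cov (nat_lit 365390800777825705000961)) (.alt (nat_lit 30) (.exp (.alt (nat_lit 31) (.cov (nat_lit 365353907291877310201856)) (.alt (nat_lit 26) (.cov (nat_lit 158170349576)) .e))) .e))) .e)) .e)) .e)) .e)) .e))) .e))) (.alt (nat_lit 22) (.cov (nat_lit 4332679434337546928143)) (.alt (nat_lit 22) (.exp (.alt (nat_lit 20) (.exp (.alt (nat_lit 28) (.exp (.alt (nat_lit 30) (.exp (.alt (nat_lit 24) (.exp (.alt (nat_lit 23) (.cov (nat_lit 26561005640736222216194)) (.alt (nat_lit 23) (.cov (nat_lit 21741793766871040786433)) (.alt (nat_lit 23) (.cov (nat_lit 4328067475628669009920)) (.alt (nat_lit 23) (.exp (.alt (nat_lit 21) (.cov (nat_lit 404345712575493316804611)) (.alt (nat_lit 21) (.cov (nat_lit 406854469778302466785281)) (.alt (nat_lit 21) (.cov (nat_lit 406854469793695596019712)) (.alt (nat_lit 21) (.exp (.alt (nat_lit 29) (.cov (nat_lit 25292791976861149167617)) (.alt (nat_lit 17) (.cov (nat_lit 185011798031)) .e))) .e))))) .e))))) .e)) .e)) .e)) .e)) (.alt (nat_lit 22) (.cov (nat_lit 2850025258089161162755)) (.alt (nat_lit 22) (.cov (nat_lit 25428843843638169436161)) (.alt (nat_lit 22) (.exp (.alt (nat_lit 20) (.exp (.alt (nat_lit 30) (.exp (.alt (nat_lit 28) (.cov (nat_lit 47861416134794261183871429745049600)) (.alt (nat_lit 14) (.cov (nat_lit 650247761603222044679)) .e))) (.alt (nat_lit 30) (.cov (nat_lit 4351125993681756094470)) (.alt (nat_lit 30) (.exp (.alt (nat_lit 31) (.exp (.alt (nat_lit 23) (.exp (.alt (nat_lit 15) (.exp (.alt (nat_lit 28) (.cov (nat_lit 21527350345014260531203)) (.alt (nat_lit 28) (.cov (nat_lit 21760240495541874589697)) (.alt (nat_lit 28) (.cov (nat_lit 21760240510935003824128)) (.alt (nat_lit 28) (.exp (.alt (nat_lit 24) (.cov (nat_lit 131433062520313610241)) (.alt (nat_lit 24) (.exp (.alt (nat_lit 25) (.cov (nat_lit 2843104441355629232128)) (.alt (nat_lit 16) (.cov (nat_lit 118489096)) .e))) .e))) .e))))) .e)) .e)) .e)) (.alt (nat_lit 30) (.cov (nat_lit 433500332911723806721)) (.alt (nat_lit 30) (.cov (nat_lit 24266696710796557156352)) (.alt (nat_lit 30) (.exp (.alt (nat_lit 28) (.cov (nat_lit 26703967922689432092679)) (.alt (nat_lit 28) (.exp (.alt (nat_lit 24) (.exp (.alt (nat_lit 16) (.exp (.alt (nat_lit 17) (.exp (.alt (nat_lit 29) (.cov (nat_lit 45450471563407270084609)) (.alt (nat_lit 29) (.exp (.alt (nat_lit 31) (.cov (nat_lit 22862433447348907540480)) (.alt (nat_lit 21) (.cov (nat_lit 28780265480)) .e))) .e))) .e)) .e)) .e)) (.alt (nat_lit 28) (.cov (nat_lit 406928257157018568097793)) (.alt (nat_lit 28) (.exp (.alt (nat_lit 24) (.exp (.alt (nat_lit 29) (.cov (nat_lit 63159345882975978913794)) (.alt (nat_lit 29) (.cov (nat_lit 25431142581603226615809)) (.alt (nat_lit 29) (.cov (nat_lit 26759308269259490066432)) (.alt (nat_lit 29) (.exp (.alt (nat_lit 21) (.cov (nat_lit 365372354033753160417283)) (.alt (nat_lit 21) (.cov (nat_lit 63288473091490226110465)) (.alt (nat_lit 21) (.cov (nat_lit 63288473106873624559616)) (.alt (nat_lit 21) (.exp (.alt (nat_lit 23) (.cov (nat_lit 25278956918815591497729)) (.alt (nat_lit 17) (.cov (nat_lit 158161960975)) .e))) .e))))) .e))))) .e)) (.alt (nat_lit 28) (.exp (.alt (nat_lit 29) (.exp (.alt (nat_lit 31) (.exp (.alt (nat_lit 23) (.exp (.alt (nat_lit 15) (.exp (.alt (nat_lit 25) (.cov (nat_lit 25274345234986440851456)) (.alt (nat_lit 21) (.cov (nat_lit 9782165512)) .e))) .e)) .e)) .e)) (.alt (nat_lit 24) (.cov (nat_lit 406919033510103764434945)) (.alt (nat_lit 24) (.exp (.alt (nat_lit 25) (.cov (nat_lit 347672703103823831367683)) (.alt (nat_lit 25) (.exp (.alt (nat_lit 29) (.exp (.alt (nat_lit 27) (.cov (nat_lit 365390800777825731215361)) (.alt (nat_lit 17) (.cov (nat_lit 158161960975)) .e))) .e)) (.alt (nat_lit 26) (.cov (nat_lit 21838692543)) .e)))) .e)))) .e)))))) .e))))))) .e)) (.alt (nat_lit 22) (.exp (.alt (nat_lit 20) (.cov (nat_lit 10173379499598894071819)) (.alt (nat_lit 20) (.exp (.alt (nat_lit 28) (.exp (.alt (nat_lit 30) (.exp (.alt (nat_lit 24) (.exp (.alt (nat_lit 21) (.cov (nat_lit 406854469778303137873923)) (.alt (nat_lit 21) (.exp (.alt (nat_lit 23) (.exp (.alt (nat_lit 29) (.cov (nat_lit 25292791976861149167617)) (.alt (nat_lit 17) (.cov (nat_lit 185011798031)) .e))) .e)) (.alt (nat_lit 21) (.cov (nat_lit 28813820261)) .e)))) .e)) .e)) .e)) (.alt (nat_lit 20) (.cov (nat_lit 25283573506447146745857)) (.alt (nat_lit 20) (.exp (.alt (nat_lit 28) (.exp (.alt (nat_lit 30) (.exp (.alt (nat_lit 31) (.exp (.alt (nat_lit 23) (.exp (.alt (nat_lit 15) (.exp (.alt (nat_lit 24) (.cov (nat_lit 131433062520313610241)) (.alt (nat_lit 24) (.exp (.alt (nat_lit 25) (.cov (nat_lit 2843104441355629232128)) (.alt (nat_lit 16) (.cov (nat_lit 118489096)) .e))) .e))) .e)) .e)) .e)) .e)) (.alt (nat_lit 28) (.cov (nat_lit 406928257157018607943683)) (.alt (nat_lit 28) (.exp (.alt (nat_lit 30) (.exp (.alt (nat_lit 29) (.exp (.alt (nat_lit 31) (.exp (.alt (nat_lit 23) (.exp (.alt (nat_lit 15) (.exp (.alt (nat_lit 25) (.cov (nat_lit 25274345234986440851456)) (.alt (nat_lit 21) (.cov (nat_lit 9782165512)) .e))) .e)) .e)) .e)) (.alt (nat_lit 24) (.cov (nat_lit 406919033510103764434945)) (.alt (nat_lit 24) (.exp (.alt (nat_lit 25) (.cov (nat_lit 347672703103823831367683)) (.alt (nat_lit 25) (.exp (.alt (nat_lit 29) (.exp (.alt (nat_lit 27) (.cov (nat_lit 365390800777825731215361)) (.alt (nat_lit 17) (.cov (nat_lit 158161960975)) .e))) .e)) (.alt (nat_lit 26) (.cov (nat_lit 21838692543)) .e)))) .e)))) .e)) (.alt (nat_lit 16) (.cov (nat_lit 9789508759)) .e))))) .e))))) .e)))))))) .e)))))))) .e)) .e)) .e)) .e)) (.alt (nat_lit 2) (.exp (.alt (nat_lit 10) (.exp (.alt (nat_lit 8) (.exp (.alt (nat_lit 12) (.exp (.alt (nat_lit 18) (.cov (nat_lit 4323457489456106307604)) (.alt (nat_lit 18) (.cov (nat_lit 4323458938612297498635)) (.alt (nat_lit 18) (.exp (.alt (nat_lit 16) (.exp (.alt (nat_lit 24) (.exp (.alt (nat_lit 20) (.exp (.alt (nat_lit 26) (.exp (.alt (nat_lit 30) (.exp (.alt (nat_lit 31) (.exp (.alt (nat_lit 15) (.exp (.alt (nat_lit 23) (.exp (.alt (nat_lit 27) (.cov (nat_lit 2861551183230332305409)) (.alt (nat_lit 27) (.exp (.alt (nat_lit 25) (.cov (nat_lit 22867045133367328636928)) (.alt (nat_lit 11) (.cov (nat_lit 174760919048)) .e))) .e))) .e)) .e)) .e)) .e)) (.alt (nat_lit 26) (.cov (nat_lit 25518765002991188574211)) (.alt (nat_lit 26) (.exp (.alt (nat_lit 30) (.exp (.alt (nat_lit 27) (.cov (nat_lit 25426530895585468219394)) (.alt (nat_lit 27) (.cov (nat_lit 347875617418376968667137)) (.alt (nat_lit 27) (.exp (.alt (nat_lit 11) (.cov (nat_lit 43126181818935442145283)) (.alt (nat_lit 25) (.exp (.alt (nat_lit 9) (.exp (.alt (nat_lit 29) (.cov (nat_lit 365390800777826303737857)) (.alt (nat_lit 17) (.cov (nat_lit 12135170063)) .e))) .e)) (.alt (nat_lit 25) (.exp (.alt (nat_lit 29) (.cov (nat_lit 1597949214181901205506)) (.alt (nat_lit 9) (.cov (nat_lit 37259051075)) .e))) .e)))) .e)))) .e)) (.alt (nat_lit 26) (.exp (.alt (nat_lit 27) (.cov (nat_lit 26514889022434312192002)) (.alt (nat_lit 30) (.cov (nat_lit 185051646120)) .e))) .e))))) .e)) .e)) .e)) (.alt (nat_lit 18) (.cov (nat_lit 2995303089385345384449)) (.alt (nat_lit 18) (.exp (.alt (nat_lit 26) (.cov (nat_lit 800128869999684091938)) (.alt (nat_lit 16) (.cov (nat_lit 4318847252593230479367)) (.alt (nat_lit 16) (.cov (nat_lit 41655061068700039774211)) (.alt (nat_lit 16) (.exp (.alt (nat_lit 24) (.exp (.alt (nat_lit 20) (.cov (nat_lit 102111951967365345837067)) (.alt (nat_lit 20) (.cov (nat_lit 802435214386626822146)) (.alt (nat_lit 20) (.cov (nat_lit 4328070624630026534913)) (.alt (nat_lit 20) (.exp (.alt (nat_lit 28) (.exp (.alt (nat_lit 30) (.exp (.alt (nat_lit 31) (.exp (.alt (nat_lit 15) (.exp (.alt (nat_lit 23) (.exp (.alt (nat_lit 29) (.cov (nat_lit 25292791976861719592961)) (.alt (nat_lit 29) (.exp (.alt (nat_lit 25) (.cov (nat_lit 2644801942563232677888)) (.alt (nat_lit 13) (.cov (nat_lit 19605225480)) .e))) .e))) .e)) .e)) .e)) .e)) (.alt (nat_lit 28) (.cov (nat_lit 3092135895378801197059)) (.alt (nat_lit 28) (.exp (.alt (nat_lit 30) (.exp (.alt (nat_lit 29) (.cov (nat_lit 25431142581603897704450)) (.alt (nat_lit 29) (.cov (nat_lit 26759308269260094046209)) (.alt (nat_lit 29) (.exp (.alt (nat_lit 13) (.cov (nat_lit 384317160206267308834819)) (.alt (nat_lit 25) (.exp (.alt (nat_lit 9) (.exp (.alt (nat_lit 27) (.cov (nat_lit 365390800777825731215361)) (.alt (nat_lit 17) (.cov (nat_lit 158161960975)) .e))) .e)) (.alt (nat_lit 25) (.exp (.alt (nat_lit 27) (.cov (nat_lit 1593337528163471720450)) (.alt (nat_lit 9) (.cov (nat_lit 2360344643)) .e))) .e)))) .e)))) .e)) (.alt (nat_lit 28) (.exp (.alt (nat_lit 29) (.cov (nat_lit 347640421543598814658562)) (.alt (nat_lit 30) (.cov (nat_lit 185051646120)) .e))) .e))))) .e))))) .e)) (.alt (nat_lit 16) (.cov (nat_lit 763369899)) .e)))))) .e)))))) .e)) .e)) .e)) (.alt (nat_lit 2) (.cov (nat_lit 21513529321125308268545)) (.alt (nat_lit 2) (.exp (.alt (nat_lit 10) (.exp (.alt (nat_lit 18) (.exp (.alt (nat_lit 26) (.cov (nat_lit 51030546625126176968859526853820419)) (.alt (nat_lit 26) (.exp (.alt (nat_lit 24) (.exp (.alt (nat_lit 30) (.cov (nat_lit 92421874028631590271178590796120065)) (.alt (nat_lit 30) (.cov (nat_lit 405830216801159479307)) .e))) .e)) (.alt (nat_lit 26) (.exp (.alt (nat_lit 24) (.cov (nat_lit 139314805027477508536369784031281154)) (.alt (nat_lit 24) (.cov (nat_lit 42109306881452085870612)) .e))) .e)))) (.alt (nat_lit 18) (.exp (.alt (nat_lit 26) (.cov (nat_lit 9507386750476369251201950479810563)) (.alt (nat_lit 26) (.cov (nat_lit 9507386750457641194289921534197761)) (.alt (nat_lit 26) (.cov (nat_lit 757213346186675551537987908160978944)) (.alt (nat_lit 26) (.cov (nat_lit 774764368201388130338)) .e))))) (.alt (nat_lit 18) (.exp (.alt (nat_lit 26) (.exp (.alt (nat_lit 24) (.exp (.alt (nat_lit 30) (.exp (.alt (nat_lit 14) (.exp (.alt (nat_lit 12) (.exp (.alt (nat_lit 15) (.exp (.alt (nat_lit 16) (.cov (nat_lit 4245057012948048805895)) (.alt (nat_lit 16) (.exp (.alt (nat_lit 20) (.exp (.alt (nat_lit 22) (.exp (.alt (nat_lit 23) (.exp (.alt (nat_lit 17) (.cov (nat_lit 45436636505361716609025)) (.alt (nat_lit 17) (.exp (.alt (nat_lit 25) (.cov (nat_lit 1616395960453925175296)) (.alt (nat_lit 19) (.cov (nat_lit 185013895176)) .e))) .e))) .e)) .e)) .e)) (.alt (nat_lit 16) (.cov (nat_lit 4318844376280475893761)) (.alt (nat_lit 16) (.exp (.alt (nat_lit 20) (.exp (.alt (nat_lit 17) (.cov (nat_lit 26547170582680942149634)) (.alt (nat_lit 17) (.cov (nat_lit 21737182080852607107073)) (.alt (nat_lit 17) (.cov (nat_lit 4323455789610235330560)) (.alt (nat_lit 17) (.exp (.alt (nat_lit 19) (.cov (nat_lit 404341100889474895708163)) (.alt (nat_lit 19) (.cov (nat_lit 406849858092284045688833)) (.alt (nat_lit 19) (.cov (nat_lit 406849858107677174923264)) (.alt (nat_lit 19) (.exp (.alt (nat_lit 27) (.cov (nat_lit 25306627034916429234177)) (.alt (nat_lit 23) (.cov (nat_lit 185018089487)) .e))) .e))))) .e))))) .e)) (.alt (nat_lit 22) (.exp (.alt (nat_lit 23) (.cov (nat_lit 406859081479714195374082)) (.alt (nat_lit 20) (.cov (nat_lit 347880229104395380326401)) (.alt (nat_lit 20) (.exp (.alt (nat_lit 21) (.cov (nat_lit 46700238483198428839939)) (.alt (nat_lit 21) (.exp (.alt (nat_lit 23) (.exp (.alt (nat_lit 17) (.cov (nat_lit 45436636505361716609025)) (.alt (nat_lit 17) (.exp (.alt (nat_lit 25) (.cov (nat_lit 45399743019403564810240)) (.alt (nat_lit 19) (.cov (nat_lit 185013895176)) .e))) .e))) .e)) (.alt (nat_lit 28) (.cov (nat_lit 21840789695)) .e)))) .e)))) .e)))))) .e)) .e)) .e)) .e)) .e)) .e)) (.alt (nat_lit 18) (.cov (nat_lit 797830699383033692171)) (.alt (nat_lit 18) (.cov (nat_lit 281320499736498667526)) (.alt (nat_lit 18) (.exp (.alt (nat_lit 16) (.exp (.alt (nat_lit 20) (.exp (.alt (nat_lit 24) (.exp (.alt (nat_lit 26) (.exp (.alt (nat_lit 30) (.exp (.alt (nat_lit 22) (.exp (.alt (nat_lit 23) (.exp (.alt (nat_lit 14) (.exp (.alt (nat_lit 12) (.exp (.alt (nat_lit 15) (.exp (.alt (nat_lit 27) (.cov (nat_lit 45436636505351985823745)) (.alt (nat_lit 27) (.exp (.alt (nat_lit 25) (.cov (nat_lit 22867045133367328636928)) (.alt (nat_lit 19) (.cov (nat_lit 28773974024)) .e))) .e))) .e)) .e)) .e)) .e)) .e)) (.alt (nat_lit 30) (.cov (nat_lit 25444977747410615795723)) .e))) (.alt (nat_lit 26) (.cov (nat_lit 733258496955537948687)) (.alt (nat_lit 26) (.exp (.alt (nat_lit 30) (.exp (.alt (nat_lit 14) (.exp (.alt (nat_lit 12) (.exp (.alt (nat_lit 15) (.exp (.alt (nat_lit 27) (.cov (nat_lit 63145510824920703041538)) (.alt (nat_lit 27) (.cov (nat_lit 25426530895584797130753)) (.alt (nat_lit 27) (.cov (nat_lit 26754696583241060581376)) (.alt (nat_lit 27) (.exp (.alt (nat_lit 19) (.cov (nat_lit 365358518975697884545027)) (.alt (nat_lit 19) (.cov (nat_lit 63274638033434950238209)) (.alt (nat_lit 19) (.cov (nat_lit 63274638048818348687360)) (.alt (nat_lit 19) (.exp (.alt (nat_lit 17) (.cov (nat_lit 25283568604834012594177)) (.alt (nat_lit 23) (.cov (nat_lit 158164058127)) .e))) .e))))) .e))))) .e)) .e)) .e)) .e)) (.alt (nat_lit 26) (.exp (.alt (nat_lit 30) (.exp (.alt (nat_lit 22) (.exp (.alt (nat_lit 23) (.exp (.alt (nat_lit 27) (.cov (nat_lit 1574890808279603085314)) (.alt (nat_lit 27) (.cov (nat_lit 2935338293666159525889)) (.alt (nat_lit 27) (.exp (.alt (nat_lit 31) (.cov (nat_lit 347824888742431899516931)) (.alt (nat_lit 25) (.exp (.alt (nat_lit 17) (.exp (.alt (nat_lit 29) (.cov (nat_lit 1579502470263866392577)) (.alt (nat_lit 29) (.exp (.alt (nat_lit 13) (.cov (nat_lit 182161608723010682880)) (.alt (nat_lit 28) (.cov (nat_lit 12582920)) .e))) .e))) .e)) (.alt (nat_lit 31) (.cov (nat_lit 9962521168)) .e)))) .e)))) .e)) .e)) .e)) (.alt (nat_lit 26) (.cov (nat_lit 357407931431871578113)) (.alt (nat_lit 22) (.exp (.alt (nat_lit 30) (.exp (.alt (nat_lit 23) (.cov (nat_lit 404350324285701639634955)) (.alt (nat_lit 23) (.cov (nat_lit 404350324397851188133894)) (.alt (nat_lit 23) (.exp (.alt (nat_lit 19) (.exp (.alt (nat_lit 17) (.exp (.alt (nat_lit 27) (.exp (.alt (nat_lit 31) (.cov (nat_lit 45445859879587859660803)) (.alt (nat_lit 31) (.cov (nat_lit 108374639035024408577)) (.alt (nat_lit 31) (.cov (nat_lit 108374654418422857728)) (.alt (nat_lit 7) (.exp (.alt (nat_lit 15) (.cov (nat_lit 45408966389241416253441)) (.alt (nat_lit 15) (.exp (.alt (nat_lit 13) (.cov (nat_lit 389687479552260964352)) (.alt (nat_lit 14) (.cov (nat_lit 47559213064)) .e))) .e))) .e))))) .e)) .e)) .e)) (.alt (nat_lit 23) (.exp (.alt (nat_lit 19) (.exp (.alt (nat_lit 17) (.exp (.alt (nat_lit 31) (.cov (nat_lit 108374639025962614787)) (.alt (nat_lit 31) (.exp (.alt (nat_lit 27) (.exp (.alt (nat_lit 29) (.cov (nat_lit 1579502470263866392577)) (.alt (nat_lit 29) (.exp (.alt (nat_lit 13) (.cov (nat_lit 1570279100269654441984)) (.alt (nat_lit 28) (.cov (nat_lit 12582920)) .e))) .e))) .e)) (.alt (nat_lit 7) (.cov (nat_lit 185001312447)) .e)))) .e)) .e)) (.alt (nat_lit 23) (.cov (nat_lit 3170539048087766171648)) (.alt (nat_lit 23) (.exp (.alt (nat_lit 21) (.cov (nat_lit 343914179014200518508551)) (.alt (nat_lit 21) (.exp (.alt (nat_lit 17) (.exp (.alt (nat_lit 19) (.exp (.alt (nat_lit 27) (.exp (.alt (nat_lit 29) (.cov (nat_lit 1579502470263866392577)) (.alt (nat_lit 29) (.exp (.alt (nat_lit 13) (.cov (nat_lit 34587656133331124224)) (.alt (nat_lit 28) (.cov (nat_lit 12582920)) .e))) .e))) .e)) .e)) .e)) (.alt (nat_lit 21) (.cov (nat_lit 3903792999659868258305)) (.alt (nat_lit 21) (.exp (.alt (nat_lit 17) (.exp (.alt (nat_lit 29) (.cov (nat_lit 404336489212241075240962)) (.alt (nat_lit 29) (.cov (nat_lit 26547170598062620934145)) (.alt (nat_lit 29) (.cov (nat_lit 406817576507858324815872)) (.alt (nat_lit 29) (.exp (.alt (nat_lit 25) (.cov (nat_lit 45441248191370536943619)) (.alt (nat_lit 25) (.cov (nat_lit 1348918177982225317889)) (.alt (nat_lit 25) (.cov (nat_lit 1348918193375388106752)) (.alt (nat_lit 25) (.exp (.alt (nat_lit 9) (.cov (nat_lit 45404354703222954262529)) (.alt (nat_lit 27) (.cov (nat_lit 716177423)) .e))) .e))))) .e))))) .e)) (.alt (nat_lit 7) (.exp (.alt (nat_lit 15) (.cov (nat_lit 25454201011695497773058)) (.alt (nat_lit 15) (.cov (nat_lit 46663345120394672603137)) (.alt (nat_lit 15) (.exp (.alt (nat_lit 11) (.cov (nat_lit 350139955123693902888963)) (.alt (nat_lit 13) (.exp (.alt (nat_lit 12) (.exp (.alt (nat_lit 9) (.cov (nat_lit 1607172586374402408449)) (.alt (nat_lit 9) (.exp (.alt (nat_lit 25) (.cov (nat_lit 209831724833580253184)) (.alt (nat_lit 1) (.cov (nat_lit 118489096)) .e))) .e))) .e)) (.alt (nat_lit 11) (.cov (nat_lit 1284506192)) .e)))) .e)))) .e)))))) .e))))))) .e)) (.alt (nat_lit 26) (.exp (.alt (nat_lit 27) (.cov (nat_lit 26754696682243533832203)) (.alt (nat_lit 27) (.cov (nat_lit 45436638343736098553858)) (.alt (nat_lit 27) (.cov (nat_lit 22825544830047774310401)) (.alt (nat_lit 27) (.exp (.alt (nat_lit 25) (.exp (.alt (nat_lit 9) (.exp (.alt (nat_lit 13) (.exp (.alt (nat_lit 12) (.exp (.alt (nat_lit 15) (.exp (.alt (nat_lit 29) (.cov (nat_lit 1597949214181245845505)) (.alt (nat_lit 17) (.cov (nat_lit 11497635855)) .e))) .e)) .e)) .e)) .e)) (.alt (nat_lit 11) (.cov (nat_lit 21580385143410540937219)) (.alt (nat_lit 25) (.exp (.alt (nat_lit 17) (.exp (.alt (nat_lit 29) (.exp (.alt (nat_lit 31) (.exp (.alt (nat_lit 30) (.exp (.alt (nat_lit 23) (.exp (.alt (nat_lit 13) (.cov (nat_lit 101457103400528248832)) (.alt (nat_lit 28) (.cov (nat_lit 12582920)) .e))) .e)) .e)) .e)) (.alt (nat_lit 9) (.cov (nat_lit 25338908973385430073345)) (.alt (nat_lit 9) (.exp (.alt (nat_lit 13) (.cov (nat_lit 404306513253122488401923)) (.alt (nat_lit 13) (.exp (.alt (nat_lit 12) (.exp (.alt (nat_lit 29) (.cov (nat_lit 365390800777825740652545)) (.alt (nat_lit 29) (.exp (.alt (nat_lit 31) (.cov (nat_lit 6398714361563132723200)) (.alt (nat_lit 28) (.cov (nat_lit 3554672648)) .e))) .e))) .e)) (.alt (nat_lit 11) (.cov (nat_lit 9813622975)) .e)))) .e)))) .e)) (.alt (nat_lit 19) (.cov (nat_lit 19552799892)) .e))))) .e))))) .e)))))))) .e)) .e)) .e)) (.alt (nat_lit 18) (.exp (.alt (nat_lit 16) (.exp (.alt (nat_lit 20) (.exp (.alt (nat_lit 26) (.cov (nat_lit 62259107055630549026)) (.alt (nat_lit 22) (.cov (nat_lit 4332682310833408049159)) (.alt (nat_lit 22) (.cov (nat_lit 807052118686604197891)) (.alt (nat_lit 22) (.exp (.alt (nat_lit 23) (.exp (.alt (nat_lit 30) (.cov (nat_lit 104694496225792155975691)) (.alt (nat_lit 30) (.exp (.alt (nat_lit 28) (.exp (.alt (nat_lit 24) (.exp (.alt (nat_lit 12) (.exp (.alt (nat_lit 31) (.cov (nat_lit 347824888742452501938179)) (.alt (nat_lit 31) (.exp (.alt (nat_lit 29) (.exp (.alt (nat_lit 27) (.cov (nat_lit 1574890784098836545537)) (.alt (nat_lit 15) (.cov (nat_lit 184426692623)) .e))) .e)) (.alt (nat_lit 26) (.cov (nat_lit 11604590783)) .e)))) .e)) .e)) .e)) (.alt (nat_lit 30) (.cov (nat_lit 3170539048088392171521)) (.alt (nat_lit 30) (.exp (.alt (nat_lit 28) (.exp (.alt (nat_lit 24) (.exp (.alt (nat_lit 25) (.exp (.alt (nat_lit 17) (.exp (.alt (nat_lit 9) (.exp (.alt (nat_lit 29) (.cov (nat_lit 29975967916507529217)) (.alt (nat_lit 12) (.cov (nat_lit 12059672591)) .e))) .e)) .e)) .e)) .e)) (.alt (nat_lit 26) (.cov (nat_lit 25518765003002053918723)) (.alt (nat_lit 26) (.exp (.alt (nat_lit 24) (.exp (.alt (nat_lit 27) (.cov (nat_lit 1574890808279603085314)) (.alt (nat_lit 27) (.cov (nat_lit 2935338293666159525889)) (.alt (nat_lit 27) (.exp (.alt (nat_lit 31) (.cov (nat_lit 347824888742431899516931)) (.alt (nat_lit 25) (.exp (.alt (nat_lit 17) (.exp (.alt (nat_lit 29) (.cov (nat_lit 1579502470263866392577)) (.alt (nat_lit 29) (.exp (.alt (nat_lit 13) (.cov (nat_lit 182161608723010682880)) (.alt (nat_lit 28) (.cov (nat_lit 12582920)) .e))) .e))) .e)) (.alt (nat_lit 31) (.cov (nat_lit 9962521168)) .e)))) .e)))) .e)) (.alt (nat_lit 26) (.cov (nat_lit 3581938834)) .e))))) .e))))) .e)) (.alt (nat_lit 22) (.cov (nat_lit 47604308059)) .e)))))) .e)) .e)) (.alt (nat_lit 18) (.cov (nat_lit 21531974673217303347200)) (.alt (nat_lit 18) (.exp (.alt (nat_lit 26) (.exp (.alt (nat_lit 24) (.exp (.alt (nat_lit 16) (.exp (.alt (nat_lit 20) (.exp (.alt (nat_lit 17) (.exp (.alt (nat_lit 28) (.exp (.alt (nat_lit 30) (.exp (.alt (nat_lit 12) (.exp (.alt (nat_lit 27) (.cov (nat_lit 1694794629364967276546)) (.alt (nat_lit 27) (.cov (nat_lit 347668091433199105736705)) (.alt (nat_lit 27) (.cov (nat_lit 3082912250653286858752)) (.alt (nat_lit 27) (.exp (.alt (nat_lit 25) (.cov (nat_lit 25302015348898670837763)) (.alt (nat_lit 25) (.cov (nat_lit 26703967907296018694145)) (.alt (nat_lit 25) (.cov (nat_lit 26703967922689147928576)) (.alt (nat_lit 25) (.exp (.alt (nat_lit 29) (.cov (nat_lit 1579502470107528953857)) (.alt (nat_lit 9) (.cov (nat_lit 184428789775)) .e))) .e))))) .e))))) .e)) .e)) .e)) .e)) .e)) .e)) (.alt (nat_lit 24) (.exp (.alt (nat_lit 16) (.exp (.alt (nat_lit 20) (.exp (.alt (nat_lit 17) (.exp (.alt (nat_lit 25) (.exp (.alt (nat_lit 27) (.exp (.alt (nat_lit 9) (.exp (.alt (nat_lit 30) (.cov (nat_lit 365390800786668205899778)) (.alt (nat_lit 30) (.cov (nat_lit 10141097587507197902849)) (.alt (nat_lit 30) (.cov (nat_lit 6451748887114496868352)) (.alt (nat_lit 30) (.exp (.alt (nat_lit 14) (.cov (nat_lit 365353907289834634870787)) (.alt (nat_lit 14) (.cov (nat_lit 43126181819072280264705)) (.alt (nat_lit 14) (.cov (nat_lit 43126181834309079400448)) (.alt (nat_lit 14) (.exp (.alt (nat_lit 15) (.cov (nat_lit 102077364183833481576449)) (.alt (nat_lit 12) (.cov (nat_lit 184428789775)) .e))) .e))))) .e))))) .e)) .e)) .e)) .e)) .e)) .e)) .e))) (.alt (nat_lit 16) (.exp (.alt (nat_lit 20) (.cov (nat_lit 1744297956341216505117957832048641)) (.alt (nat_lit 20) (.cov (nat_lit 350174546047575843143691)) .e))) (.alt (nat_lit 16) (.cov (nat_lit 1662521245254381731855)) (.alt (nat_lit 16) (.exp (.alt (nat_lit 20) (.exp (.alt (nat_lit 22) (.exp (.alt (nat_lit 23) (.exp (.alt (nat_lit 30) (.exp (.alt (nat_lit 24) (.exp (.alt (nat_lit 8) (.cov (nat_lit 894662158292376984567026415487156224)) (.alt (nat_lit 26) (.cov (nat_lit 102111951853016713265159)) .e))) (.alt (nat_lit 24) (.cov (nat_lit 1754746765353544581126)) (.alt (nat_lit 24) (.exp (.alt (nat_lit 25) (.exp (.alt (nat_lit 17) (.exp (.alt (nat_lit 27) (.exp (.alt (nat_lit 8) (.cov (nat_lit 29025951810997741158403)) (.alt (nat_lit 8) (.cov (nat_lit 47908500220181481521153)) (.alt (nat_lit 8) (.cov (nat_lit 47908500235418280656896)) (.alt (nat_lit 8) (.exp (.alt (nat_lit 12) (.cov (nat_lit 47917723585464904974337)) (.alt (nat_lit 12) (.exp (.alt (nat_lit 13) (.cov (nat_lit 182161608723028508672)) (.alt (nat_lit 14) (.cov (nat_lit 185001312264)) .e))) .e))) .e))))) .e)) .e)) .e)) (.alt (nat_lit 17) (.exp (.alt (nat_lit 19) (.exp (.alt (nat_lit 27) (.exp (.alt (nat_lit 25) (.cov (nat_lit 3903792232356519084035)) (.alt (nat_lit 25) (.exp (.alt (nat_lit 24) (.exp (.alt (nat_lit 9) (.cov (nat_lit 404308819087335016628225)) (.alt (nat_lit 9) (.exp (.alt (nat_lit 13) (.cov (nat_lit 41650442286422082715648)) (.alt (nat_lit 8) (.cov (nat_lit 4609540104)) .e))) .e))) .e)) (.alt (nat_lit 21) (.cov (nat_lit 10365173951)) .e)))) .e)) .e)) (.alt (nat_lit 17) (.cov (nat_lit 45436641369591393550336)) (.alt (nat_lit 17) (.exp (.alt (nat_lit 25) (.cov (nat_lit 45434330686533747605511)) (.alt (nat_lit 25) (.cov (nat_lit 347672703229333621178371)) (.alt (nat_lit 25) (.cov (nat_lit 47908500987640610291713)) (.alt (nat_lit 25) (.exp (.alt (nat_lit 24) (.exp (.alt (nat_lit 9) (.cov (nat_lit 102077364192493851115522)) (.alt (nat_lit 27) (.cov (nat_lit 404350324285689551650817)) (.alt (nat_lit 27) (.cov (nat_lit 25555658216250924859392)) (.alt (nat_lit 27) (.exp (.alt (nat_lit 11) (.cov (nat_lit 389687477372147728387)) (.alt (nat_lit 11) (.cov (nat_lit 350139955123838778343425)) (.alt (nat_lit 11) (.cov (nat_lit 29032869361994978820096)) (.alt (nat_lit 11) (.exp (.alt (nat_lit 9) (.cov (nat_lit 404308819087335016628225)) (.alt (nat_lit 9) (.exp (.alt (nat_lit 13) (.cov (nat_lit 343874979661051738456064)) (.alt (nat_lit 8) (.cov (nat_lit 4609540104)) .e))) .e))) .e))))) .e))))) .e)) (.alt (nat_lit 19) (.cov (nat_lit 185013896667)) .e)))))) .e))))))) .e)) .e)) .e)) .e)) (.alt (nat_lit 16) (.exp (.alt (nat_lit 20) (.exp (.alt (nat_lit 22) (.exp (.alt (nat_lit 23) (.exp (.alt (nat_lit 24) (.cov (nat_lit 6631604641880715821067)) (.alt (nat_lit 24) (.cov (nat_lit 350179156284592534585346)) (.alt (nat_lit 17) (.cov (nat_lit 350176851890583276355585)) (.alt (nat_lit 17) (.cov (nat_lit 10025439236)) .e))))) .e)) .e)) .e)) (.alt (nat_lit 16) (.cov (nat_lit 48007665162895487926273)) (.alt (nat_lit 16) (.exp (.alt (nat_lit 20) (.exp (.alt (nat_lit 17) (.cov (nat_lit 104613791905030817710101)) (.alt (nat_lit 17) (.exp (.alt (nat_lit 21) (.exp (.alt (nat_lit 23) (.exp (.alt (nat_lit 29) (.exp (.alt (nat_lit 28) (.exp (.alt (nat_lit 12) (.exp (.alt (nat_lit 25) (.cov (nat_lit 350181460297894660669443)) (.alt (nat_lit 25) (.exp (.alt (nat_lit 24) (.exp (.alt (nat_lit 27) (.cov (nat_lit 1574890784089078497281)) (.alt (nat_lit 9) (.cov (nat_lit 20647510031)) .e))) .e)) (.alt (nat_lit 25) (.exp (.alt (nat_lit 27) (.cov (nat_lit 1574890784089777897474)) (.alt (nat_lit 24) (.cov (nat_lit 3483369539)) .e))) .e)))) .e)) .e)) .e)) .e)) (.alt (nat_lit 1) (.cov (nat_lit 42107001038587173011463)) .e))) (.alt (nat_lit 17) (.cov (nat_lit 6467894524921494110214)) (.alt (nat_lit 17) (.exp (.alt (nat_lit 19) (.exp (.alt (nat_lit 23) (.exp (.alt (nat_lit 27) (.exp (.alt (nat_lit 25) (.cov (nat_lit 29065151164171517165575)) (.alt (nat_lit 25) (.cov (nat_lit 10175685340443934982147)) (.alt (nat_lit 25) (.cov (nat_lit 10175685619673482657793)) (.alt (nat_lit 25) (.exp (.alt (nat_lit 24) (.exp (.alt (nat_lit 29) (.cov (nat_lit 398910858232593383426)) (.alt (nat_lit 9) (.cov (nat_lit 404308819111524272439297)) (.alt (nat_lit 9) (.cov (nat_lit 10138791852250101710848)) (.alt (nat_lit 9) (.cov (nat_lit 4610588863)) .e))))) .e)) (.alt (nat_lit 1) (.cov (nat_lit 159225218523)) .e)))))) .e)) .e)) .e)) (.alt (nat_lit 17) (.cov (nat_lit 22046174027088099540993)) (.alt (nat_lit 17) (.cov (nat_lit 21972390190997847408640)) (.alt (nat_lit 17) (.exp (.alt (nat_lit 21) (.exp (.alt (nat_lit 23) (.cov (nat_lit 230068443046208939227138181569708033)) (.alt (nat_lit 23) (.exp (.alt (nat_lit 31) (.cov (nat_lit 230068443046208902333652223417909248)) (.alt (nat_lit 19) (.cov (nat_lit 104623014997949668130823)) .e))) .e))) (.alt (nat_lit 21) (.cov (nat_lit 350186072386298455261199)) (.alt (nat_lit 21) (.exp (.alt (nat_lit 23) (.exp (.alt (nat_lit 31) (.exp (.alt (nat_lit 27) (.exp (.alt (nat_lit 30) (.exp (.alt (nat_lit 29) (.cov (nat_lit 29975976758396059650)) (.alt (nat_lit 29) (.cov (nat_lit 7657704666584073633793)) (.alt (nat_lit 29) (.cov (nat_lit 22790952549358781857792)) (.alt (nat_lit 29) (.exp (.alt (nat_lit 25) (.cov (nat_lit 1570279098236167782403)) (.alt (nat_lit 25) (.cov (nat_lit 168326557421174521857)) (.alt (nat_lit 25) (.cov (nat_lit 1348918193375384961024)) (.alt (nat_lit 25) (.exp (.alt (nat_lit 9) (.cov (nat_lit 29975968072243085313)) (.alt (nat_lit 24) (.cov (nat_lit 176160783)) .e))) .e))))) .e))))) .e)) .e)) .e)) .e)) (.alt (nat_lit 21) (.exp (.alt (nat_lit 23) (.exp (.alt (nat_lit 19) (.exp (.alt (nat_lit 27) (.exp (.alt (nat_lit 29) (.cov (nat_lit 404343406756708297474050)) (.alt (nat_lit 29) (.cov (nat_lit 343911873285538609889281)) (.alt (nat_lit 29) (.exp (.alt (nat_lit 25) (.cov (nat_lit 1348918177982289281027)) (.alt (nat_lit 28) (.exp (.alt (nat_lit 24) (.exp (.alt (nat_lit 12) (.cov (nat_lit 102079670026686332665857)) (.alt (nat_lit 30) (.cov (nat_lit 14680079)) .e))) .e)) (.alt (nat_lit 28) (.exp (.alt (nat_lit 12) (.cov (nat_lit 102079670026732738445314)) (.alt (nat_lit 24) (.cov (nat_lit 1417674819)) .e))) .e)))) .e)))) .e)) .e)) .e)) (.alt (nat_lit 19) (.cov (nat_lit 25592558624724533379073)) (.alt (nat_lit 19) (.exp (.alt (nat_lit 23) (.exp (.alt (nat_lit 27) (.cov (nat_lit 1574890808278495789067)) (.alt (nat_lit 27) (.cov (nat_lit 10180297026462379147270)) (.alt (nat_lit 27) (.cov (nat_lit 10180297305738332602370)) (.alt (nat_lit 27) (.cov (nat_lit 3124419124664116183041)) (.alt (nat_lit 27) (.cov (nat_lit 29069766115691949195264)) (.alt (nat_lit 27) (.exp (.alt (nat_lit 26) (.cov (nat_lit 343916484857255373570055)) (.alt (nat_lit 26) (.cov (nat_lit 10177991183453164404739)) (.alt (nat_lit 25) (.cov (nat_lit 10175685619673482657793)) (.alt (nat_lit 25) (.exp (.alt (nat_lit 24) (.exp (.alt (nat_lit 29) (.cov (nat_lit 398910858232593383426)) (.alt (nat_lit 9) (.cov (nat_lit 404308819111524272439297)) (.alt (nat_lit 9) (.cov (nat_lit 10138791852250101710848)) (.alt (nat_lit 9) (.cov (nat_lit 4610588863)) .e))))) .e)) (.alt (nat_lit 26) (.cov (nat_lit 159240947163)) .e)))))) .e))))))) .e)) (.alt (nat_lit 1) (.exp (.alt (nat_lit 9) (.cov (nat_lit 406919033510261830975499)) (.alt (nat_lit 9) (.exp (.alt (nat_lit 25) (.exp (.alt (nat_lit 24) (.exp (.alt (nat_lit 29) (.exp (.alt (nat_lit 13) (.cov (nat_lit 384317160206266708000771)) (.alt (nat_lit 13) (.exp (.alt (nat_lit 12) (.exp (.alt (nat_lit 15) (.cov (nat_lit 6417161103594178478081)) (.alt (nat_lit 15) (.exp (.alt (nat_lit 31) (.cov (nat_lit 1397340874578638929920)) (.alt (nat_lit 11) (.cov (nat_lit 9960423432)) .e))) .e))) .e)) (.alt (nat_lit 13) (.cov (nat_lit 2901410384)) .e)))) .e)) .e)) .e)) (.alt (nat_lit 9) (.cov (nat_lit 102105039175178604511233)) (.alt (nat_lit 9) (.exp (.alt (nat_lit 25) (.exp (.alt (nat_lit 24) (.exp (.alt (nat_lit 28) (.exp (.alt (nat_lit 12) (.exp (.alt (nat_lit 29) (.exp (.alt (nat_lit 27) (.cov (nat_lit 365390800777826308980737)) (.alt (nat_lit 27) (.exp (.alt (nat_lit 31) (.cov (nat_lit 102081975871894585344000)) (.alt (nat_lit 26) (.cov (nat_lit 3554672648)) .e))) .e))) .e)) .e)) .e)) .e)) (.alt (nat_lit 11) (.cov (nat_lit 21580385143244465373187)) (.alt (nat_lit 11) (.exp (.alt (nat_lit 27) (.exp (.alt (nat_lit 15) (.cov (nat_lit 26521806324972764790786)) (.alt (nat_lit 15) (.cov (nat_lit 404311125066839430791169)) (.alt (nat_lit 15) (.exp (.alt (nat_lit 14) (.cov (nat_lit 659471118247951073283)) (.alt (nat_lit 31) (.exp (.alt (nat_lit 23) (.exp (.alt (nat_lit 30) (.cov (nat_lit 102111951828815376809985)) (.alt (nat_lit 30) (.exp (.alt (nat_lit 28) (.cov (nat_lit 22793258157072506159104)) (.alt (nat_lit 26) (.cov (nat_lit 159240945672)) .e))) .e))) .e)) (.alt (nat_lit 14) (.cov (nat_lit 47611642448)) .e)))) .e)))) .e)) (.alt (nat_lit 8) (.cov (nat_lit 159274503315)) .e))))) .e))))) .e)))))))) .e)))))))) .e)) (.alt (nat_lit 16) (.exp (.alt (nat_lit 20) (.cov (nat_lit 493452251309369458707)) (.alt (nat_lit 20) (.cov (nat_lit 25433453275678360207371)) (.alt (nat_lit 20) (.cov (nat_lit 802442383202439921666)) (.alt (nat_lit 20) (.cov (nat_lit 6631616650699766497281)) (.alt (nat_lit 20) (.exp (.alt (nat_lit 21) (.cov (nat_lit 22041554627054713962530)) (.alt (nat_lit 22) (.cov (nat_lit 4332682310833408049159)) (.alt (nat_lit 22) (.cov (nat_lit 807052118686604197891)) (.alt (nat_lit 22) (.exp (.alt (nat_lit 23) (.exp (.alt (nat_lit 30) (.cov (nat_lit 104694496225792155975691)) (.alt (nat_lit 30) (.exp (.alt (nat_lit 28) (.exp (.alt (nat_lit 24) (.exp (.alt (nat_lit 12) (.exp (.alt (nat_lit 31) (.cov (nat_lit 347824888742452501938179)) (.alt (nat_lit 31) (.exp (.alt (nat_lit 29) (.exp (.alt (nat_lit 27) (.cov (nat_lit 1574890784098836545537)) (.alt (nat_lit 15) (.cov (nat_lit 184426692623)) .e))) .e)) (.alt (nat_lit 26) (.cov (nat_lit 11604590783)) .e)))) .e)) .e)) .e)) (.alt (nat_lit 30) (.cov (nat_lit 3170539048088392171521)) (.alt (nat_lit 30) (.exp (.alt (nat_lit 28) (.exp (.alt (nat_lit 24) (.exp (.alt (nat_lit 25) (.exp (.alt (nat_lit 17) (.exp (.alt (nat_lit 9) (.exp (.alt (nat_lit 29) (.cov (nat_lit 29975967916507529217)) (.alt (nat_lit 12) (.cov (nat_lit 12059672591)) .e))) .e)) .e)) .e)) .e)) (.alt (nat_lit 26) (.cov (nat_lit 25518765003002053918723)) (.alt (nat_lit 26) (.exp (.alt (nat_lit 24) (.exp (.alt (nat_lit 27) (.cov (nat_lit 1574890808279603085314)) (.alt (nat_lit 27) (.cov (nat_lit 2935338293666159525889)) (.alt (nat_lit 27) (.exp (.alt (nat_lit 31) (.cov (nat_lit 347824888742431899516931)) (.alt (nat_lit 25) (.exp (.alt (nat_lit 17) (.exp (.alt (nat_lit 29) (.cov (nat_lit 1579502470263866392577)) (.alt (nat_lit 29) (.exp (.alt (nat_lit 13) (.cov (nat_lit 182161608723010682880)) (.alt (nat_lit 28) (.cov (nat_lit 12582920)) .e))) .e))) .e)) (.alt (nat_lit 31) (.cov (nat_lit 9962521168)) .e)))) .e)))) .e)) (.alt (nat_lit 26) (.cov (nat_lit 3581938834)) .e))))) .e))))) .e)) (.alt (nat_lit 22) (.cov (nat_lit 47604308059)) .e)))))) .e)))))) .e))))))))) .e)))))))))) .e)) (.alt (nat_lit 2) (.exp (.alt (nat_lit 10) (.cov (nat_lit 1581809421425777311961)) (.alt (nat_lit 10) (.cov (nat_lit 25442680781869790789652)) (.alt (nat_lit 10) (.cov (nat_lit 59962897963387191307)) (.alt (nat_lit 10) (.exp (.alt (nat_lit 8) (.exp (.alt (nat_lit 12) (.exp (.alt (nat_lit 9) (.exp (.alt (nat_lit 26) (.cov (nat_lit 807045838276113989666)) (.alt (nat_lit 14) (.cov (nat_lit 290539515498546069511)) (.alt (nat_lit 14) (.cov (nat_lit 2873087455125843214339)) (.alt (nat_lit 14) (.cov (nat_lit 69186269999541518336)) (.alt (nat_lit 14) (.cov (nat_lit 736106588)) .e)))))) .e)) .e)) .e)) (.alt (nat_lit 10) (.cov (nat_lit 25295114066254175928321)) (.alt (nat_lit 10) (.exp (.alt (nat_lit 8) (.cov (nat_lit 315903788619971690534)) (.alt (nat_lit 8) (.cov (nat_lit 26510285512383173492770)) (.alt (nat_lit 8) (.cov (nat_lit 55351211944857042951)) (.alt (nat_lit 8) (.cov (nat_lit 1457306494932790280195)) (.alt (nat_lit 8) (.exp (.alt (nat_lit 12) (.exp (.alt (nat_lit 9) (.cov (nat_lit 2686308952916400013330)) (.alt (nat_lit 9) (.cov (nat_lit 102298729987799094657035)) (.alt (nat_lit 9) (.cov (nat_lit 647950903967277383682)) (.alt (nat_lit 9) (.cov (nat_lit 57657054953504505857)) (.alt (nat_lit 9) (.exp (.alt (nat_lit 25) (.cov (nat_lit 29138938527447725899810)) (.alt (nat_lit 11) (.cov (nat_lit 1833148488817797234695)) (.alt (nat_lit 11) (.cov (nat_lit 25297410719591577944067)) (.alt (nat_lit 11) (.cov (nat_lit 62268740971900436480)) (.alt (nat_lit 1) (.cov (nat_lit 17832031)) .e)))))) .e)))))) .e)) (.alt (nat_lit 8) (.cov (nat_lit 11555315231)) .e))))))) .e))))))) .e))))))))))) .e))))))))))) .e)) (.alt (nat_lit 1) (.exp (.alt (nat_lit 5) (.cov (nat_lit 102211112087620340941027)) (.alt (nat_lit 5) (.cov (nat_lit 1337396595746575220953)) (.alt (nat_lit 5) (.exp (.alt (nat_lit 4) (.exp (.alt (nat_lit 6) (.exp (.alt (nat_lit 12) (.exp (.alt (nat_lit 8) (.exp (.alt (nat_lit 9) (.exp (.alt (nat_lit 10) (.exp (.alt (nat_lit 21) (.cov (nat_lit 406928257522067933495330)) (.alt (nat_lit 13) (.cov (nat_lit 6560126657723586576391)) (.alt (nat_lit 13) (.cov (nat_lit 6412556474105654673411)) (.alt (nat_lit 13) (.cov (nat_lit 66880426990327824384)) (.alt (nat_lit 13) (.cov (nat_lit 198187100)) .e)))))) .e)) .e)) .e)) .e)) .e)) .e)) (.alt (nat_lit 5) (.cov (nat_lit 417373839847765049355)) (.alt (nat_lit 5) (.exp (.alt (nat_lit 4) (.exp (.alt (nat_lit 6) (.exp (.alt (nat_lit 12) (.exp (.alt (nat_lit 7) (.cov (nat_lit 350153793460482083913766)) (.alt (nat_lit 7) (.cov (nat_lit 45413585131925446590498)) (.alt (nat_lit 7) (.cov (nat_lit 53045368935649640455)) (.alt (nat_lit 7) (.cov (nat_lit 126835085213564928003)) (.alt (nat_lit 7) (.exp (.alt (nat_lit 15) (.exp (.alt (nat_lit 23) (.cov (nat_lit 3170535985032332312596)) (.alt (nat_lit 23) (.cov (nat_lit 22060003365483997822987)) (.alt (nat_lit 23) (.exp (.alt (nat_lit 21) (.exp (.alt (nat_lit 17) (.exp (.alt (nat_lit 20) (.exp (.alt (nat_lit 19) (.exp (.alt (nat_lit 18) (.exp (.alt (nat_lit 26) (.exp (.alt (nat_lit 10) (.exp (.alt (nat_lit 30) (.exp (.alt (nat_lit 27) (.cov (nat_lit 426580965500671492097)) (.alt (nat_lit 27) (.exp (.alt (nat_lit 25) (.cov (nat_lit 21896285226488363483136)) (.alt (nat_lit 11) (.cov (nat_lit 10344202248)) .e))) .e))) .e)) .e)) .e)) .e)) (.alt (nat_lit 19) (.cov (nat_lit 29060539865134920630275)) (.alt (nat_lit 19) (.exp (.alt (nat_lit 18) (.exp (.alt (nat_lit 27) (.cov (nat_lit 71481166270984880130)) (.alt (nat_lit 27) (.cov (nat_lit 6712309147155666305025)) (.alt (nat_lit 27) (.exp (.alt (nat_lit 11) (.cov (nat_lit 3859981215181443170307)) (.alt (nat_lit 25) (.exp (.alt (nat_lit 9) (.exp (.alt (nat_lit 24) (.cov (nat_lit 45438942348361175400449)) (.alt (nat_lit 29) (.cov (nat_lit 185014943759)) .e))) .e)) (.alt (nat_lit 25) (.exp (.alt (nat_lit 24) (.cov (nat_lit 64563613054084841474)) (.alt (nat_lit 9) (.cov (nat_lit 28093448259)) .e))) .e)))) .e)))) .e)) (.alt (nat_lit 19) (.exp (.alt (nat_lit 27) (.cov (nat_lit 404304207652004821991426)) (.alt (nat_lit 18) (.cov (nat_lit 362809512)) .e))) .e))))) .e)) .e)) .e)) (.alt (nat_lit 23) (.cov (nat_lit 71494153702374113281)) (.alt (nat_lit 23) (.exp (.alt (nat_lit 19) (.cov (nat_lit 42120835595108899356706)) (.alt (nat_lit 21) (.cov (nat_lit 22055391679465467674631)) (.alt (nat_lit 21) (.cov (nat_lit 345389925614353890934787)) (.alt (nat_lit 21) (.exp (.alt (nat_lit 17) (.exp (.alt (nat_lit 20) (.cov (nat_lit 63124758367568673112075)) (.alt (nat_lit 20) (.cov (nat_lit 42095471823384760811522)) (.alt (nat_lit 20) (.cov (nat_lit 22053085836455679361025)) (.alt (nat_lit 20) (.exp (.alt (nat_lit 16) (.exp (.alt (nat_lit 18) (.exp (.alt (nat_lit 26) (.exp (.alt (nat_lit 10) (.exp (.alt (nat_lit 30) (.exp (.alt (nat_lit 24) (.cov (nat_lit 1607172586218046095361)) (.alt (nat_lit 24) (.exp (.alt (nat_lit 25) (.cov (nat_lit 3013736824037423710208)) (.alt (nat_lit 8) (.cov (nat_lit 1754267656)) .e))) .e))) .e)) .e)) .e)) .e)) (.alt (nat_lit 16) (.cov (nat_lit 10164156404628698693635)) (.alt (nat_lit 16) (.exp (.alt (nat_lit 18) (.exp (.alt (nat_lit 24) (.cov (nat_lit 64563637243340652546)) (.alt (nat_lit 24) (.cov (nat_lit 25594857549606569377793)) (.alt (nat_lit 24) (.exp (.alt (nat_lit 8) (.cov (nat_lit 22749447146660024025091)) (.alt (nat_lit 25) (.exp (.alt (nat_lit 9) (.exp (.alt (nat_lit 27) (.cov (nat_lit 45438942348361212100609)) (.alt (nat_lit 29) (.cov (nat_lit 47579136015)) .e))) .e)) (.alt (nat_lit 25) (.exp (.alt (nat_lit 27) (.cov (nat_lit 71481142081729069058)) (.alt (nat_lit 9) (.cov (nat_lit 165535547459)) .e))) .e)))) .e)))) .e)) (.alt (nat_lit 16) (.exp (.alt (nat_lit 24) (.cov (nat_lit 102065835219320424103938)) (.alt (nat_lit 18) (.cov (nat_lit 362809512)) .e))) .e))))) .e))))) .e)) (.alt (nat_lit 21) (.cov (nat_lit 722475435)) .e)))))) .e)))))) .e)) (.alt (nat_lit 7) (.cov (nat_lit 284171807)) .e))))))) .e)) .e)) .e)) (.alt (nat_lit 5) (.cov (nat_lit 378175306937010225153)) (.alt (nat_lit 5) (.exp (.alt (nat_lit 4) (.cov (nat_lit 1637155617397968732667)) (.alt (nat_lit 4) (.cov (nat_lit 46127839908106076198)) (.alt (nat_lit 4) (.cov (nat_lit 415065454767532671010)) (.alt (nat_lit 4) (.exp (.alt (nat_lit 6) (.exp (.alt (nat_lit 2) (.exp (.alt (nat_lit 10) (.exp (.alt (nat_lit 18) (.exp (.alt (nat_lit 12) (.cov (nat_lit 7632342207686756007955)) (.alt (nat_lit 12) (.cov (nat_lit 1358149422523611086859)) (.alt (nat_lit 12) (.cov (nat_lit 64572620254049468418)) (.alt (nat_lit 12) (.cov (nat_lit 104694508146539734499329)) (.alt (nat_lit 12) (.exp (.alt (nat_lit 13) (.cov (nat_lit 21727959977652367917090)) (.alt (nat_lit 8) (.cov (nat_lit 315903788599503486983)) (.alt (nat_lit 8) (.cov (nat_lit 424282179157116321795)) (.alt (nat_lit 8) (.exp (.alt (nat_lit 9) (.exp (.alt (nat_lit 24) (.cov (nat_lit 802433512342084911115)) (.alt (nat_lit 24) (.exp (.alt (nat_lit 28) (.exp (.alt (nat_lit 20) (.exp (.alt (nat_lit 29) (.exp (.alt (nat_lit 25) (.cov (nat_lit 350181460297848330387459)) (.alt (nat_lit 25) (.exp (.alt (nat_lit 17) (.exp (.alt (nat_lit 27) (.cov (nat_lit 365390800777826308980737)) (.alt (nat_lit 27) (.exp (.alt (nat_lit 31) (.cov (nat_lit 6398714361563132723200)) (.alt (nat_lit 26) (.cov (nat_lit 3554672648)) .e))) .e))) .e)) (.alt (nat_lit 25) (.cov (nat_lit 28717351504)) .e)))) .e)) .e)) .e)) (.alt (nat_lit 24) (.cov (nat_lit 21757939518971687469057)) (.alt (nat_lit 24) (.exp (.alt (nat_lit 28) (.exp (.alt (nat_lit 20) (.exp (.alt (nat_lit 21) (.exp (.alt (nat_lit 17) (.exp (.alt (nat_lit 29) (.exp (.alt (nat_lit 30) (.cov (nat_lit 45450471563407237578753)) (.alt (nat_lit 30) (.exp (.alt (nat_lit 31) (.cov (nat_lit 22862433447348907540480)) (.alt (nat_lit 22) (.cov (nat_lit 28780265480)) .e))) .e))) .e)) .e)) .e)) .e)) (.alt (nat_lit 26) (.cov (nat_lit 48023792772918552821763)) (.alt (nat_lit 26) (.exp (.alt (nat_lit 30) (.exp (.alt (nat_lit 27) (.cov (nat_lit 1593337552535888592898)) (.alt (nat_lit 27) (.cov (nat_lit 1593337664502812901377)) (.alt (nat_lit 27) (.exp (.alt (nat_lit 19) (.cov (nat_lit 4258892055610064371715)) (.alt (nat_lit 31) (.exp (.alt (nat_lit 15) (.exp (.alt (nat_lit 23) (.cov (nat_lit 2852327811193489063937)) (.alt (nat_lit 23) (.exp (.alt (nat_lit 21) (.cov (nat_lit 2870774557466186219520)) (.alt (nat_lit 22) (.cov (nat_lit 2973761544)) .e))) .e))) .e)) (.alt (nat_lit 19) (.cov (nat_lit 156555543120)) .e)))) .e)))) .e)) (.alt (nat_lit 16) (.cov (nat_lit 4617931923)) .e))))) .e))))) .e)) (.alt (nat_lit 8) (.cov (nat_lit 311433307)) .e)))))) .e)))))) .e)) .e)) .e)) .e)) (.alt (nat_lit 4) (.cov (nat_lit 382786896198413320195)) (.alt (nat_lit 4) (.exp (.alt (nat_lit 6) (.exp (.alt (nat_lit 12) (.cov (nat_lit 1358142649533661708505)) (.alt (nat_lit 12) (.cov (nat_lit 6557826536401050533908)) (.alt (nat_lit 12) (.cov (nat_lit 64574583981280854027)) (.alt (nat_lit 12) (.exp (.alt (nat_lit 8) (.exp (.alt (nat_lit 9) (.exp (.alt (nat_lit 10) (.exp (.alt (nat_lit 28) (.cov (nat_lit 25597164030332573319202)) (.alt (nat_lit 13) (.cov (nat_lit 1468825293215333613575)) (.alt (nat_lit 13) (.cov (nat_lit 6412556474105654673411)) (.alt (nat_lit 13) (.cov (nat_lit 66880426990327824384)) (.alt (nat_lit 13) (.cov (nat_lit 198187100)) .e)))))) .e)) .e)) .e)) (.alt (nat_lit 12) (.cov (nat_lit 6410259820794591838209)) (.alt (nat_lit 12) (.exp (.alt (nat_lit 8) (.cov (nat_lit 1498801252372366491686)) (.alt (nat_lit 8) (.cov (nat_lit 45402057286871504912418)) (.alt (nat_lit 8) (.cov (nat_lit 55351211944254111751)) (.alt (nat_lit 8) (.cov (nat_lit 2637898115650101968899)) (.alt (nat_lit 8) (.exp (.alt (nat_lit 9) (.exp (.alt (nat_lit 10) (.cov (nat_lit 5116667484625487003666)) (.alt (nat_lit 10) (.cov (nat_lit 26736254575864197414923)) (.alt (nat_lit 10) (.cov (nat_lit 25442680781878917595138)) (.alt (nat_lit 10) (.cov (nat_lit 59962897963286528001)) (.alt (nat_lit 10) (.exp (.alt (nat_lit 26) (.cov (nat_lit 48023792772908419383330)) (.alt (nat_lit 14) (.cov (nat_lit 3020657638425410666503)) (.alt (nat_lit 14) (.cov (nat_lit 2873087455125843214339)) (.alt (nat_lit 14) (.cov (nat_lit 69186269999541518336)) (.alt (nat_lit 2) (.cov (nat_lit 52435039)) .e)))))) .e)))))) .e)) (.alt (nat_lit 8) (.cov (nat_lit 9941556767)) .e))))))) .e))))))) .e)) (.alt (nat_lit 4) (.cov (nat_lit 1186996320)) .e)))))))) .e)))))))) .e)))))))))))) .e))))))))))))) .e))])]) (by decide +kernel)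
  exact h _ List.mem_cons_self

theorem t7_13 : GF FULL [0, 7] [13, 11] := by
  have h := JT.chkW_ok (zs := [0, 7]) good (by decide) (by decide)
    (L := [([13, 11], [.cov (nat_lit 1344310206127268698207),
      .cov (nat_lit 1344312035714617317471),
      .cov (nat_lit 2820051563808794089570),
      .rot (.exp (.alt (nat_lit 7) (.cov (nat_lit 31809262564414497602141159435)) (.alt (nat_lit 7) (.cov (nat_lit 33700118469360980712259321862)) (.alt (nat_lit 7) (.cov (nat_lit 1622622952752032359826661538004994)) (.alt (nat_lit 7) (.cov (nat_lit 31814093250179021068620005377)) (.alt (nat_lit 7) (.cov (nat_lit 6814919811286859988651826983469056)) (.alt (nat_lit 7) (.exp (.alt (nat_lit 3) (.exp (.alt (nat_lit 1) (.cov (nat_lit 19471144830499749588794257987076098)) .e)) (.alt (nat_lit 3) (.exp (.alt (nat_lit 1) (.cov (nat_lit 48353294679566799958672656363945985)) .e)) (.alt (nat_lit 3) (.cov (nat_lit 31818928944233713923309699073)) (.alt (nat_lit 3) (.exp (.alt (nat_lit 1) (.exp (.alt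 (nat_lit 2) (.cov (nat_lit 49975887428521154133981910519513090)) (.alt (nat_lit 2) (.cov (nat_lit 92325560378271347038172771522707457)) (.alt (nat_lit 2) (.cov (nat_lit 1622622952752020830446688728514560)) (.alt (nat_lit 2) (.cov (nat_lit 737883489251553706077)) .e))))) .e)) (.alt (nat_lit 3) (.cov (nat_lit 14471772064711163)) .e)))))) .e))))))),
      .cov (nat_lit 1344310206127268698207),
      .cov (nat_lit 1344312035714617317471),
      .cov (nat_lit 2820051563808794089570),
      .cov (nat_lit 1344312040100047360190),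
      .cov (nat_lit 1344310206127268698207),
      .cov (nat_lit 1344312035714617317471),
      .cov (nat_lit 2820051563808794089570),
      .cov (nat_lit 1344312040100047360191),
      .cov (nat_lit 1344310206127268698207),
      .cov (nat_lit 1344312035714617317471),
      .cov (nat_lit 2820051563808794089570),
      .cov (nat_lit 1344312040099443380419),
      .cov (nat_lit 1344310206127268698207),
      .cov (nat_lit 1344312035714617317471),
      .cov (nat_lit 2820051563808794089570),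
      .cov (nat_lit 1344312040100047359442)])]) (by decide +kernel)
  exact h _ List.mem_cons_self

theorem t7_14 : GF FULL [0, 7] [14, 10] := by
  have h := JT.chkW_ok (zs := [0, 7]) good (by decide) (by decide)
    (L := [([14, 10], [.cov (nat_lit 1344310206114652230678),
      .cov (nat_lit 2820049586875277515616),
      .rot (.exp (.alt (nat_lit 7) (.cov (nat_lit 34406029248201641187515301894)) (.alt (nat_lit 7) (.exp (.alt (nat_lit 3) (.exp (.alt (nat_lit 1) (.exp (.alt (nat_lit 5) (.cov (nat_lit 25235161303589657247762)) .e)) .e)) .e)) (.alt (nat_lit 7) (.cov (nat_lit 3082960119349444258696011388551170)) (.alt (nat_lit 7) (.cov (nat_lit 6490404961777144560797793146372097)) (.alt (nat_lit 7) (.cov (nat_lit 34957300381177056922856062976)) (.alt (nat_lit 7) (.exp (.alt (nat_lit 3) (.cov (nat_lit 889343130252391796913327743777636358)) (.alt (nat_lit 3) (.exp (.alt (nat_lit 1) (.cov (nat_lit 8599775531542763177569941258764289)) .e)) (.alt (nat_lit 3) (.exp (.alt (nat_lit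 1) (.exp (.alt (nat_lit 5) (.cov (nat_lit 6345694890525583212578)) .e)) .e)) (.alt (nat_lit 3) (.cov (nat_lit 48028779830055756365671925946515456)) (.alt (nat_lit 3) (.exp (.alt (nat_lit 1) (.cov (nat_lit 92325563468287289193813129343008770)) (.alt (nat_lit 1) (.cov (nat_lit 13954331666907094705702380430688257)) (.alt (nat_lit 1) (.cov (nat_lit 6165886408118703998791655101562880)) (.alt (nat_lit 1) (.cov (nat_lit 21840960394027093459037)) .e))))) .e)))))) .e))))))),
      .rot (.exp (.alt (nat_lit 7) (.exp (.alt (nat_lit 3) (.exp (.alt (nat_lit 1) (.exp (.alt (nat_lit 2) (.exp (.alt (nat_lit 5) (.exp (.alt (nat_lit 13) (.exp (.alt (nat_lit 21) (.exp (.alt (nat_lit 23) (.exp (.alt (nat_lit 19) (.exp (.alt (nat_lit 31) (.exp (.alt (nat_lit 0) (.cov (nat_lit 5321886085435019493410)) (.alt (nat_lit 0) (.cov (nat_lit 5321888961605671059463)) (.alt (nat_lit 0) (.cov (nat_lit 103310997259068165324803)) (.alt (nat_lit 0) (.exp (.alt (nat_lit 4) (.exp (.alt (nat_lit 8) (.cov (nat_lit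 29019034517254833176587)) (.alt (nat_lit 8) (.cov (nat_lit 5114361641799362019330)) (.alt (nat_lit 8) (.cov (nat_lit 103329441810715691188225)) (.alt (nat_lit 8) (.exp (.alt (nat_lit 10) (.exp (.alt (nat_lit 14) (.exp (.alt (nat_lit 30) (.exp (.alt (nat_lit 22) (.exp (.alt (nat_lit 28) (.exp (.alt (nat_lit 26) (.cov (nat_lit 404341100889463448403969)) (.alt (nat_lit 11) (.cov (nat_lit 296747023)) .e))) .e)) .e)) .e)) .e)) (.alt (nat_lit 12) (.cov (nat_lit 3016043076065135951875)) (.alt (nat_lit 10) (.exp (.alt (nat_lit 11) (.exp (.alt (nat_lit 26) (.exp (.alt (nat_lit 24) (.exp (.alt (nat_lit 16) (.exp (.alt (nat_lit 25) (.exp (.alt (nat_lit 30) (.cov (nat_lit 1674042035684272766976)) (.alt (nat_lit 18) (.cov (nat_lit 1935671304)) .e))) .e)) .e)) .e)) (.alt (nat_lit 14) (.cov (nat_lit 1618701937759917965313)) (.alt (nat_lit 14) (.exp (.alt (nat_lit 30) (.cov (nat_lit 25433448409219257597955)) (.alt (nat_lit 30) (.exp (.alt (nat_lit 22) (.exp (.alt (nat_lit 26) (.cov (nat_lit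 424275122491465138177)) (.alt (nat_lit 26) (.exp (.alt (nat_lit 24) (.cov (nat_lit 21529656188023406067712)) (.alt (nat_lit 18) (.cov (nat_lit 654311432)) .e))) .e))) .e)) (.alt (nat_lit 12) (.cov (nat_lit 1371537599)) .e)))) .e)))) .e)) (.alt (nat_lit 9) (.cov (nat_lit 9958329492)) .e))))) .e))))) .e)) (.alt (nat_lit 0) (.cov (nat_lit 138418579)) .e)))))) .e)) .e)) .e)) .e)) .e)) .e)) .e)) .e)) .e)) (.alt (nat_lit 7) (.exp (.alt (nat_lit 3) (.exp (.alt (nat_lit 1) (.exp (.alt (nat_lit 5) (.exp (.alt (nat_lit 4) (.exp (.alt (nat_lit 13) (.exp (.alt (nat_lit 11) (.exp (.alt (nat_lit 15) (.exp (.alt (nat_lit 14) (.exp (.alt (nat_lit 31) (.exp (.alt (nat_lit 0) (.cov (nat_lit 1789335476971644125218)) (.alt (nat_lit 0) (.exp (.alt (nat_lit 2) (.exp (.alt (nat_lit 10) (.exp (.alt (nat_lit 8) (.exp (.alt (nat_lit 26) (.exp (.alt (nat_lit 16) (.cov (nat_lit 2843104463346020122626)) (.alt (nat_lit 16) (.cov (nat_lit 21880144461763318906881)) (.alt (nat_lit 16) (.exp (.alt (nat_lit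 18) (.cov (nat_lit 1821615994882499805187)) (.alt (nat_lit 17) (.exp (.alt (nat_lit 19) (.exp (.alt (nat_lit 21) (.cov (nat_lit 435804337537505296385)) (.alt (nat_lit 25) (.cov (nat_lit 2916089871)) .e))) .e)) (.alt (nat_lit 17) (.exp (.alt (nat_lit 21) (.cov (nat_lit 435804337537673068546)) (.alt (nat_lit 19) (.cov (nat_lit 11499733059)) .e))) .e)))) .e)))) .e)) .e)) .e)) .e)) (.alt (nat_lit 0) (.exp (.alt (nat_lit 2) (.exp (.alt (nat_lit 6) (.exp (.alt (nat_lit 22) (.exp (.alt (nat_lit 16) (.cov (nat_lit 631801244010589192194)) (.alt (nat_lit 8) (.cov (nat_lit 2910849192)) .e))) .e)) .e)) .e)) (.alt (nat_lit 0) (.exp (.alt (nat_lit 2) (.exp (.alt (nat_lit 16) (.cov (nat_lit 345230815598960295542795)) (.alt (nat_lit 16) (.exp (.alt (nat_lit 20) (.exp (.alt (nat_lit 21) (.exp (.alt (nat_lit 22) (.exp (.alt (nat_lit 17) (.cov (nat_lit 104613791502611172556803)) (.alt (nat_lit 17) (.exp (.alt (nat_lit 19) (.exp (.alt (nat_lit 25) (.cov (nat_lit 1604866743208833449985)) (.alt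 (nat_lit 25) (.exp (.alt (nat_lit 24) (.cov (nat_lit 1614090117444710432768)) (.alt (nat_lit 9) (.cov (nat_lit 1753219080)) .e))) .e))) .e)) (.alt (nat_lit 17) (.cov (nat_lit 12642681424)) .e)))) .e)) .e)) .e)) (.alt (nat_lit 8) (.cov (nat_lit 21527353630511283044353)) (.alt (nat_lit 8) (.cov (nat_lit 9789509636)) .e))))) .e)) (.alt (nat_lit 0) (.cov (nat_lit 4632615013)) .e)))))) .e)) .e)) .e)) .e)) .e)) .e)) .e)) .e)) (.alt (nat_lit 3) (.exp (.alt (nat_lit 1) (.exp (.alt (nat_lit 11) (.exp (.alt (nat_lit 9) (.exp (.alt (nat_lit 8) (.exp (.alt (nat_lit 13) (.exp (.alt (nat_lit 15) (.exp (.alt (nat_lit 14) (.exp (.alt (nat_lit 31) (.exp (.alt (nat_lit 0) (.cov (nat_lit 83011650154282352674)) (.alt (nat_lit 0) (.exp (.alt (nat_lit 2) (.exp (.alt (nat_lit 6) (.exp (.alt (nat_lit 4) (.exp (.alt (nat_lit 22) (.exp (.alt (nat_lit 16) (.cov (nat_lit 2843104463348738031618)) (.alt (nat_lit 16) (.cov (nat_lit 1441152028093135716353)) (.alt (nat_lit 16) (.exp (.alt (nat_lit 18) (.cov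 (nat_lit 133738912127304859651)) (.alt (nat_lit 17) (.exp (.alt (nat_lit 19) (.exp (.alt (nat_lit 25) (.cov (nat_lit 6412549417419404214273)) (.alt (nat_lit 21) (.cov (nat_lit 198180879)) .e))) .e)) (.alt (nat_lit 17) (.exp (.alt (nat_lit 25) (.cov (nat_lit 6412549417422289895426)) (.alt (nat_lit 19) (.cov (nat_lit 732954691)) .e))) .e)))) .e)))) .e)) .e)) .e)) .e)) (.alt (nat_lit 0) (.exp (.alt (nat_lit 2) (.exp (.alt (nat_lit 10) (.exp (.alt (nat_lit 26) (.exp (.alt (nat_lit 16) (.cov (nat_lit 41505433651883540482)) (.alt (nat_lit 4) (.cov (nat_lit 188745896)) .e))) .e)) .e)) .e)) (.alt (nat_lit 0) (.exp (.alt (nat_lit 2) (.exp (.alt (nat_lit 16) (.cov (nat_lit 61805816278449889738763)) (.alt (nat_lit 16) (.exp (.alt (nat_lit 24) (.exp (.alt (nat_lit 25) (.exp (.alt (nat_lit 26) (.exp (.alt (nat_lit 17) (.cov (nat_lit 7796055231743872991235)) (.alt (nat_lit 17) (.exp (.alt (nat_lit 19) (.exp (.alt (nat_lit 21) (.cov (nat_lit 25281262761815038754817)) (.alt (nat_lit 21) (.exp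 (.alt (nat_lit 20) (.cov (nat_lit 25299709508087770513408)) (.alt (nat_lit 5) (.cov (nat_lit 19599982600)) .e))) .e))) .e)) (.alt (nat_lit 17) (.cov (nat_lit 793772624)) .e)))) .e)) .e)) .e)) (.alt (nat_lit 4) (.cov (nat_lit 1374285729983597903873)) (.alt (nat_lit 4) (.cov (nat_lit 624955396)) .e))))) .e)) (.alt (nat_lit 0) (.cov (nat_lit 337647717)) .e)))))) .e)) .e)) .e)) .e)) .e)) .e)) (.alt (nat_lit 2) (.exp (.alt (nat_lit 6) (.exp (.alt (nat_lit 14) (.exp (.alt (nat_lit 22) (.exp (.alt (nat_lit 23) (.exp (.alt (nat_lit 19) (.exp (.alt (nat_lit 31) (.exp (.alt (nat_lit 0) (.cov (nat_lit 24211352016913600348194)) (.alt (nat_lit 0) (.cov (nat_lit 24211354893092841848839)) (.alt (nat_lit 0) (.cov (nat_lit 405542452162725492555779)) (.alt (nat_lit 0) (.exp (.alt (nat_lit 4) (.exp (.alt (nat_lit 8) (.cov (nat_lit 10131874428776876081163)) (.alt (nat_lit 8) (.cov (nat_lit 24001521730131291275266)) (.alt (nat_lit 8) (.cov (nat_lit 405560896714373017370625)) (.alt (nat_lit 8)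 (.exp (.alt (nat_lit 9) (.exp (.alt (nat_lit 13) (.exp (.alt (nat_lit 29) (.exp (.alt (nat_lit 21) (.exp (.alt (nat_lit 28) (.exp (.alt (nat_lit 25) (.cov (nat_lit 102109645985806120124417)) (.alt (nat_lit 11) (.cov (nat_lit 296747023)) .e))) .e)) .e)) .e)) .e)) (.alt (nat_lit 12) (.cov (nat_lit 21905509007544252628995)) (.alt (nat_lit 9) (.exp (.alt (nat_lit 11) (.exp (.alt (nat_lit 25) (.exp (.alt (nat_lit 24) (.exp (.alt (nat_lit 16) (.exp (.alt (nat_lit 26) (.exp (.alt (nat_lit 29) (.cov (nat_lit 491144571957646721024)) (.alt (nat_lit 17) (.cov (nat_lit 10524557320)) .e))) .e)) .e)) .e)) (.alt (nat_lit 13) (.cov (nat_lit 435804474033291919361)) (.alt (nat_lit 13) (.exp (.alt (nat_lit 29) (.cov (nat_lit 6541676634731495555075)) (.alt (nat_lit 29) (.exp (.alt (nat_lit 21) (.exp (.alt (nat_lit 25) (.cov (nat_lit 1604866743208841838593)) (.alt (nat_lit 25) (.exp (.alt (nat_lit 24) (.cov (nat_lit 2642496099554038906880)) (.alt (nat_lit 17) (.cov (nat_lit 117440520)) .e))) .e)))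 .e)) (.alt (nat_lit 12) (.cov (nat_lit 9961472191)) .e)))) .e)))) .e)) (.alt (nat_lit 10) (.cov (nat_lit 1369443476)) .e))))) .e))))) .e)) (.alt (nat_lit 0) (.cov (nat_lit 675289491)) .e)))))) .e)) .e)) .e)) .e)) .e)) .e)) .e))) .e)) .e))) .e))),
      .cov (nat_lit 1344310206114652231864),
      .cov (nat_lit 2820049586875277515616),
      .cov (nat_lit 16144498678084671673),
      .cov (nat_lit 16143168269015062713),
      .cov (nat_lit 1344310206114115360345),
      .cov (nat_lit 2820049586875277515616),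
      .cov (nat_lit 16144498678084671674),
      .cov (nat_lit 16143168269015062714),
      .cov (nat_lit 1344310206114115361371),
      .cov (nat_lit 2820049586875277515616),
      .cov (nat_lit 16144498678084671675),
      .cov (nat_lit 16143168269015062715),
      .rot (.exp (.alt (nat_lit 7) (.exp (.alt (nat_lit 3) (.cov (nat_lit 35469883600527642183154532354)) .e)) (.alt (nat_lit 7) (.exp (.alt (nat_lit 3) (.exp (.alt (nat_lit 1) (.exp (.alt (nat_lit 5) (.cov (nat_lit 1770900013887804932130)) .e)) .e)) .e)) (.alt (nat_lit 7) (.cov (nat_lit 811330272754676841971616507232257)) (.alt (nat_lit 7) (.exp (.alt (nat_lit 3) (.exp (.alt (nat_lit 5) (.cov (nat_lit 34033680091148638388160036866)) (.alt (nat_lit 5) (.cov (nat_lit 34962134751677803115259625473)) (.alt (nat_lit 5) (.cov (nat_lit 3407478702022086044506865777246208)) (.alt (nat_lit 5) (.cov (nat_lit 25382735256179331563613)) .e))))) .e)) (.alt (nat_lit 7) (.cov (nat_lit 15485521789714939)) .e)))))),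
      .cov (nat_lit 2820049586875277515616),
      .cov (nat_lit 16144498678084671066),
      .cov (nat_lit 16143168269015062106)])]) (by decide +kernel)
  exact h _ List.mem_cons_self

theorem t7_15 : GF FULL [0, 7] [15, 9] := by
  have h := JT.chkW_ok (zs := [0, 7]) good (by decide) (by decide)
    (L := [([15, 9], [.cov (nat_lit 21488151502041968023159),
      .cov (nat_lit 22816318713620173166200),
      .cov (nat_lit 102284892178763109899488),
      .cov (nat_lit 344306173407696470940896),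
      .cov (nat_lit 21488151502041968024197),
      .cov (nat_lit 22816318713620810701445),
      .cov (nat_lit 606438844476363381746),
      .cov (nat_lit 6361821977326714362866),
      .cov (nat_lit 21488151502041968024198),
      .cov (nat_lit 22816318713620810701446),
      .cov (nat_lit 606438844476363381383),
      .cov (nat_lit 6361821981723418696941),
      .cov (nat_lit 21488151502041968024200),
      .cov (nat_lit 22816318713620810701448),
      .cov (nat_lit 606438844478712191624),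
      .cov (nat_lit 6361821981724123339400),
      .cov (nat_lit 21488151502041968023769),
      .cov (nat_lit 22816318713620810701017),
      .cov (nat_lit 606438844475927173337),
      .cov (nat_lit 6361821981734961420505),
      .rot (.exp (.alt (nat_lit 7) (.exp (.alt (nat_lit 3) (.exp (.alt (nat_lit 1) (.exp (.alt (nat_lit 5) (.exp (.alt (nat_lit 9) (.exp (.alt (nat_lit 6) (.exp (.alt (nat_lit 14) (.exp (.alt (nat_lit 15) (.exp (.alt (nat_lit 10) (.exp (.alt (nat_lit 0) (.cov (nat_lit 364009602653690133479442)) (.alt (nat_lit 0) (.cov (nat_lit 756321391052758974475)) (.alt (nat_lit 0) (.cov (nat_lit 36902506362434486274)) (.alt (nat_lit 0) (.cov (nat_lit 36904467871146442753)) (.alt (nat_lit 0) (.exp (.alt (nat_lit 16) (.cov (nat_lit 22043859588096980942882)) (.alt (nat_lit 4) (.cov (nat_lit 1374285729983597903879)) (.alt (nat_lit 4) (.cov (nat_lit 1595650427884014665731)) (.alt (nat_lit 4) (.cov (nat_lit 46127839907401433088)) (.alt (nat_lit 2) (.cov (nat_lit 18880607))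 .e)))))) .e)))))) .e)) .e)) .e)) .e)) .e)) .e)) .e)) .e)) (.alt (nat_lit 7) (.exp (.alt (nat_lit 3) (.exp (.alt (nat_lit 5) (.exp (.alt (nat_lit 1) (.exp (.alt (nat_lit 9) (.exp (.alt (nat_lit 17) (.exp (.alt (nat_lit 13) (.exp (.alt (nat_lit 15) (.exp (.alt (nat_lit 12) (.exp (.alt (nat_lit 0) (.cov (nat_lit 22837071010433236729876)) (.alt (nat_lit 0) (.cov (nat_lit 384287187525872958570507)) (.alt (nat_lit 0) (.cov (nat_lit 25419622351767410311170)) (.alt (nat_lit 0) (.cov (nat_lit 5349566763297945944065)) (.alt (nat_lit 0) (.exp (.alt (nat_lit 16) (.cov (nat_lit 345364555535830478749730)) (.alt (nat_lit 4) (.cov (nat_lit 384296410897909180006407)) (.alt (nat_lit 4) (.cov (nat_lit 25281269818491035189251)) (.alt (nat_lit 4) (.exp (.alt (nat_lit 6) (.exp (.alt (nat_lit 20) (.cov (nat_lit 406925951039132148957195)) (.alt (nat_lit 20) (.exp (.alt (nat_lit 28) (.exp (.alt (nat_lit 29) (.exp (.alt (nat_lit 30) (.exp (.alt (nat_lit 22) (.cov (nat_lit 4247362840574202740739)) (.alt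 (nat_lit 22) (.exp (.alt (nat_lit 23) (.exp (.alt (nat_lit 18) (.cov (nat_lit 102107340142806669721601)) (.alt (nat_lit 18) (.exp (.alt (nat_lit 26) (.cov (nat_lit 136044748538734706688)) (.alt (nat_lit 16) (.cov (nat_lit 13212057608)) .e))) .e))) .e)) (.alt (nat_lit 22) (.cov (nat_lit 3474981456)) .e)))) .e)) .e)) .e)) (.alt (nat_lit 20) (.cov (nat_lit 507290346067449610241)) (.alt (nat_lit 20) (.exp (.alt (nat_lit 28) (.exp (.alt (nat_lit 29) (.exp (.alt (nat_lit 31) (.exp (.alt (nat_lit 23) (.exp (.alt (nat_lit 30) (.exp (.alt (nat_lit 24) (.cov (nat_lit 365379271562779669037057)) (.alt (nat_lit 24) (.exp (.alt (nat_lit 26) (.cov (nat_lit 6387185146517059010560)) (.alt (nat_lit 25) (.cov (nat_lit 3551526920)) .e))) .e))) .e)) .e)) .e)) .e)) (.alt (nat_lit 16) (.cov (nat_lit 23210616150759114276867)) (.alt (nat_lit 16) (.exp (.alt (nat_lit 24) (.exp (.alt (nat_lit 18) (.cov (nat_lit 21737182080863504957442)) (.alt (nat_lit 18) (.cov (nat_lit 2847716261524213334017)) (.alt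 (nat_lit 18) (.exp (.alt (nat_lit 19) (.cov (nat_lit 104618403188638194073603)) (.alt (nat_lit 26) (.exp (.alt (nat_lit 10) (.exp (.alt (nat_lit 27) (.cov (nat_lit 6417161103438433484801)) (.alt (nat_lit 27) (.exp (.alt (nat_lit 31) (.cov (nat_lit 21541185403069475586048)) (.alt (nat_lit 25) (.cov (nat_lit 835715080)) .e))) .e))) .e)) (.alt (nat_lit 19) (.cov (nat_lit 330302032)) .e)))) .e)))) .e)) (.alt (nat_lit 21) (.cov (nat_lit 869272723)) .e))))) .e))))) .e)) (.alt (nat_lit 4) (.cov (nat_lit 47552927835)) .e)))))) .e)))))) .e)) .e)) .e)) .e)) .e)) .e)) (.alt (nat_lit 5) (.exp (.alt (nat_lit 1) (.exp (.alt (nat_lit 9) (.exp (.alt (nat_lit 17) (.exp (.alt (nat_lit 19) (.exp (.alt (nat_lit 23) (.exp (.alt (nat_lit 18) (.exp (.alt (nat_lit 0) (.cov (nat_lit 41634303221725841588244)) (.alt (nat_lit 0) (.cov (nat_lit 4215084317362345738251)) (.alt (nat_lit 0) (.cov (nat_lit 406806056075894961733634)) (.alt (nat_lit 0) (.cov (nat_lit 365485351314330090471425)) (.alt (nat_lit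 0) (.exp (.alt (nat_lit 8) (.cov (nat_lit 344243915833353193914402)) (.alt (nat_lit 2) (.cov (nat_lit 4219696003353294143495)) (.alt (nat_lit 2) (.cov (nat_lit 45402055916898284994563)) (.alt (nat_lit 2) (.exp (.alt (nat_lit 6) (.exp (.alt (nat_lit 10) (.cov (nat_lit 406921339353271047815179)) (.alt (nat_lit 10) (.exp (.alt (nat_lit 26) (.exp (.alt (nat_lit 27) (.exp (.alt (nat_lit 30) (.exp (.alt (nat_lit 14) (.cov (nat_lit 384310242677239070064643)) (.alt (nat_lit 14) (.exp (.alt (nat_lit 15) (.exp (.alt (nat_lit 12) (.cov (nat_lit 6410243574566534250497)) (.alt (nat_lit 12) (.exp (.alt (nat_lit 28) (.cov (nat_lit 1395035031569422090240)) (.alt (nat_lit 8) (.cov (nat_lit 9957277704)) .e))) .e))) .e)) (.alt (nat_lit 14) (.cov (nat_lit 2898264656)) .e)))) .e)) .e)) .e)) (.alt (nat_lit 10) (.cov (nat_lit 102107345018187821350913)) (.alt (nat_lit 10) (.exp (.alt (nat_lit 26) (.exp (.alt (nat_lit 27) (.exp (.alt (nat_lit 31) (.exp (.alt (nat_lit 15) (.exp (.alt (nat_lit 30) (.exp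 (.alt (nat_lit 24) (.cov (nat_lit 365383883248798666850305)) (.alt (nat_lit 24) (.exp (.alt (nat_lit 28) (.cov (nat_lit 102075058342866941116416)) (.alt (nat_lit 25) (.cov (nat_lit 3553624072)) .e))) .e))) .e)) .e)) .e)) .e)) (.alt (nat_lit 8) (.cov (nat_lit 21573467614216821145603)) (.alt (nat_lit 8) (.exp (.alt (nat_lit 24) (.exp (.alt (nat_lit 12) (.cov (nat_lit 26519500481963547951106)) (.alt (nat_lit 12) (.cov (nat_lit 404308819223830213951489)) (.alt (nat_lit 12) (.exp (.alt (nat_lit 13) (.cov (nat_lit 657165275238740525059)) (.alt (nat_lit 28) (.exp (.alt (nat_lit 20) (.exp (.alt (nat_lit 29) (.cov (nat_lit 102118869357843016843265)) (.alt (nat_lit 29) (.exp (.alt (nat_lit 31) (.cov (nat_lit 22795564000081722998784)) (.alt (nat_lit 25) (.cov (nat_lit 159244091400)) .e))) .e))) .e)) (.alt (nat_lit 13) (.cov (nat_lit 47610593872)) .e)))) .e)))) .e)) (.alt (nat_lit 11) (.cov (nat_lit 159277649043)) .e))))) .e))))) .e)) (.alt (nat_lit 2) (.cov (nat_lit 274733147)) .e))))))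 .e)))))) .e)) .e)) .e)) .e)) .e)) .e)) .e))) .e)) .e))),
      .rot (.exp (.alt (nat_lit 7) (.cov (nat_lit 36519231802248933073323294726)) (.alt (nat_lit 7) (.exp (.alt (nat_lit 3) (.exp (.alt (nat_lit 1) (.exp (.alt (nat_lit 5) (.cov (nat_lit 13994584014061583)) .e)) .e)) .e)) (.alt (nat_lit 7) (.cov (nat_lit 47217480326882412331784167702396929)) (.alt (nat_lit 7) (.cov (nat_lit 47217480326881084166342802010013696)) (.alt (nat_lit 7) (.exp (.alt (nat_lit 3) (.cov (nat_lit 36524066906008206995434242050)) (.alt (nat_lit 3) (.cov (nat_lit 36528902609286676507249344513)) (.alt (nat_lit 3) (.cov (nat_lit 811332884034437986154616550588416)) (.alt (nat_lit 3) (.cov (nat_lit 21472024094182904692829)) .e))))) .e)))))),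
      .cov (nat_lit 606438844476363380955),
      .cov (nat_lit 6361821981734961420507)])]) (by decide +kernel)
  exact h _ List.mem_cons_self

theorem t7_16 : GF FULL [0, 7] [16, 8] := by
  have h := JT.chkW_ok (zs := [0, 7]) good (by decide) (by decide)
    (L := [([16, 8], [.cov (nat_lit 2598685555169653955596),
      .cov (nat_lit 606437736168038604319),
      .rot (.exp (.alt (nat_lit 7) (.cov (nat_lit 1298112049176192154225608034877442)) (.alt (nat_lit 7) (.cov (nat_lit 37844213891804021012466499585)) (.alt (nat_lit 7) (.cov (nat_lit 37849049595082494922328113152)) (.alt (nat_lit 7) (.cov (nat_lit 17213954060189789)) .e))))),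
      .cov (nat_lit 2598685555168949312525),
      .cov (nat_lit 606437736168038604319),
      .cov (nat_lit 21488151484460049636365),
      .cov (nat_lit 2598685555169653955598),
      .cov (nat_lit 606437736168038604319),
      .cov (nat_lit 21488151484460049636366),
      .cov (nat_lit 2598685555169117085393),
      .cov (nat_lit 606437736168038604319),
      .cov (nat_lit 21488151484460049636654),
      .cov (nat_lit 25251287271088014236688),
      .cov (nat_lit 606437736168038604319),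
      .cov (nat_lit 21488151484460049636367),
      .cov (nat_lit 25251287271088014235892),
      .cov (nat_lit 606437736168038604319),
      .cov (nat_lit 21488151484460049635988)])]) (by decide +kernel)
  exact h _ List.mem_cons_self

theorem t7_17 : GF FULL [0, 7] [17, 7] := by
  have h := JT.chkW_ok (zs := [0, 7]) good (by decide) (by decide)
    (L := [([17, 7], [.cov (nat_lit 606436915932968263532),
      .cov (nat_lit 606436918131991519084),
      .rot (.exp (.alt (nat_lit 7) (.exp (.alt (nat_lit 3) (.exp (.alt (nat_lit 1) (.exp (.alt (nat_lit 2) (.exp (.alt (nat_lit 5) (.exp (.alt (nat_lit 4) (.exp (.alt (nat_lit 13) (.exp (.alt (nat_lit 0) (.cov (nat_lit 406806050353852618637350)) (.alt (nat_lit 0) (.cov (nat_lit 404297296928954583613474)) (.alt (nat_lit 0) (.cov (nat_lit 36904467870576017415)) (.alt (nat_lit 0) (.cov (nat_lit 36907207853518880771)) (.alt (nat_lit 0) (.exp (.alt (nat_lit 8) (.exp (.alt (nat_lit 16) (.cov (nat_lit 1973803463070034427924)) (.alt (nat_lit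 16) (.cov (nat_lit 1973804912222803066891)) (.alt (nat_lit 16) (.exp (.alt (nat_lit 17) (.exp (.alt (nat_lit 19) (.exp (.alt (nat_lit 21) (.exp (.alt (nat_lit 18) (.exp (.alt (nat_lit 22) (.exp (.alt (nat_lit 30) (.exp (.alt (nat_lit 14) (.exp (.alt (nat_lit 28) (.exp (.alt (nat_lit 26) (.cov (nat_lit 1611784272236475580417)) (.alt (nat_lit 26) (.exp (.alt (nat_lit 27) (.cov (nat_lit 25454200989705095348224)) (.alt (nat_lit 10) (.cov (nat_lit 1756364808)) .e))) .e))) .e)) .e)) .e)) .e)) (.alt (nat_lit 18) (.cov (nat_lit 104616097748050235097091)) (.alt (nat_lit 18) (.exp (.alt (nat_lit 22) (.exp (.alt (nat_lit 26) (.cov (nat_lit 424275146680846778370)) (.alt (nat_lit 26) (.cov (nat_lit 3154393383938901934081)) (.alt (nat_lit 26) (.exp (.alt (nat_lit 10) (.cov (nat_lit 343879591353686156115971)) (.alt (nat_lit 27) (.exp (.alt (nat_lit 11) (.exp (.alt (nat_lit 31) (.cov (nat_lit 404348018418491671445505)) (.alt (nat_lit 25) (.cov (nat_lit 4627365903)) .e))) .e)) (.alt (nat_lit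 27) (.exp (.alt (nat_lit 31) (.cov (nat_lit 435804337537664679938)) (.alt (nat_lit 11) (.cov (nat_lit 18940428355)) .e))) .e)))) .e)))) .e)) (.alt (nat_lit 18) (.exp (.alt (nat_lit 26) (.cov (nat_lit 7623117247945949315074)) (.alt (nat_lit 22) (.cov (nat_lit 3051358376)) .e))) .e))))) .e)) .e)) .e)) (.alt (nat_lit 16) (.cov (nat_lit 1973814636303637020673)) (.alt (nat_lit 16) (.exp (.alt (nat_lit 18) (.cov (nat_lit 23229063820630772678690)) (.alt (nat_lit 17) (.cov (nat_lit 1976110755232051363847)) (.alt (nat_lit 17) (.cov (nat_lit 24259781407180458033155)) (.alt (nat_lit 17) (.exp (.alt (nat_lit 19) (.exp (.alt (nat_lit 21) (.cov (nat_lit 41890250095719934328843)) (.alt (nat_lit 21) (.cov (nat_lit 23222146792970844635138)) (.alt (nat_lit 21) (.cov (nat_lit 1985334127268874682369)) (.alt (nat_lit 21) (.exp (.alt (nat_lit 23) (.exp (.alt (nat_lit 22) (.exp (.alt (nat_lit 30) (.exp (.alt (nat_lit 14) (.exp (.alt (nat_lit 28) (.exp (.alt (nat_lit 31) (.cov (nat_lit 62257770045482467329))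 (.alt (nat_lit 31) (.exp (.alt (nat_lit 27) (.cov (nat_lit 1830839360310800809984)) (.alt (nat_lit 15) (.cov (nat_lit 156375187464)) .e))) .e))) .e)) .e)) .e)) .e)) (.alt (nat_lit 23) (.cov (nat_lit 350190684072317854679043)) (.alt (nat_lit 23) (.exp (.alt (nat_lit 22) (.exp (.alt (nat_lit 31) (.cov (nat_lit 435804361726920491010)) (.alt (nat_lit 31) (.cov (nat_lit 804739357550757019649)) (.alt (nat_lit 31) (.exp (.alt (nat_lit 15) (.cov (nat_lit 3869204587071700729859)) (.alt (nat_lit 27) (.exp (.alt (nat_lit 11) (.exp (.alt (nat_lit 26) (.cov (nat_lit 404348018418491062222849)) (.alt (nat_lit 25) (.cov (nat_lit 185010749455)) .e))) .e)) (.alt (nat_lit 27) (.exp (.alt (nat_lit 26) (.cov (nat_lit 424275122491590967298)) (.alt (nat_lit 11) (.cov (nat_lit 1755316291)) .e))) .e)))) .e)))) .e)) (.alt (nat_lit 23) (.exp (.alt (nat_lit 31) (.cov (nat_lit 45413578325948474851330)) (.alt (nat_lit 22) (.cov (nat_lit 3051358376)) .e))) .e))))) .e))))) .e)) (.alt (nat_lit 17) (.cov (nat_lit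 19929515)) .e)))))) .e)))))) .e)) (.alt (nat_lit 0) (.cov (nat_lit 2961186335)) .e))))))) .e)) .e)) .e)) .e)) .e)) .e)) (.alt (nat_lit 7) (.exp (.alt (nat_lit 3) (.exp (.alt (nat_lit 1) (.exp (.alt (nat_lit 2) (.exp (.alt (nat_lit 6) (.exp (.alt (nat_lit 4) (.exp (.alt (nat_lit 14) (.exp (.alt (nat_lit 0) (.cov (nat_lit 104574595450195358515238)) (.alt (nat_lit 0) (.cov (nat_lit 102065842025297289936930)) (.alt (nat_lit 0) (.cov (nat_lit 36904467870542462983)) (.alt (nat_lit 0) (.cov (nat_lit 110694184148390641667)) (.alt (nat_lit 0) (.exp (.alt (nat_lit 8) (.exp (.alt (nat_lit 16) (.cov (nat_lit 793211842352623124500)) (.alt (nat_lit 16) (.cov (nat_lit 793213291505391763467)) (.alt (nat_lit 16) (.exp (.alt (nat_lit 18) (.exp (.alt (nat_lit 19) (.exp (.alt (nat_lit 22) (.exp (.alt (nat_lit 17) (.exp (.alt (nat_lit 21) (.exp (.alt (nat_lit 29) (.exp (.alt (nat_lit 13) (.exp (.alt (nat_lit 28) (.exp (.alt (nat_lit 25) (.cov (nat_lit 431192651519096782849)) (.alt (nat_lit 25)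 (.exp (.alt (nat_lit 27) (.cov (nat_lit 6564735058226514493440)) (.alt (nat_lit 9) (.cov (nat_lit 10346299400)) .e))) .e))) .e)) .e)) .e)) .e)) (.alt (nat_lit 17) (.cov (nat_lit 406845246808689724096515)) (.alt (nat_lit 17) (.exp (.alt (nat_lit 21) (.exp (.alt (nat_lit 25) (.cov (nat_lit 1604866767398793904130)) (.alt (nat_lit 25) (.cov (nat_lit 22043859315417515294721)) (.alt (nat_lit 25) (.exp (.alt (nat_lit 9) (.cov (nat_lit 343877285510814381375491)) (.alt (nat_lit 27) (.exp (.alt (nat_lit 11) (.exp (.alt (nat_lit 31) (.cov (nat_lit 102114257671825165123585)) (.alt (nat_lit 26) (.cov (nat_lit 4628414479)) .e))) .e)) (.alt (nat_lit 27) (.exp (.alt (nat_lit 31) (.cov (nat_lit 1618701801264826548226)) (.alt (nat_lit 11) (.cov (nat_lit 156379381827)) .e))) .e)))) .e)))) .e)) (.alt (nat_lit 17) (.exp (.alt (nat_lit 25) (.cov (nat_lit 26510277336414779604994)) (.alt (nat_lit 21) (.cov (nat_lit 11640244392)) .e))) .e))))) .e)) .e)) .e)) (.alt (nat_lit 16) (.cov (nat_lit 793223015586258223105))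 (.alt (nat_lit 16) (.exp (.alt (nat_lit 17) (.cov (nat_lit 4337292046142977081378)) (.alt (nat_lit 18) (.cov (nat_lit 797824977523821248519)) (.alt (nat_lit 18) (.cov (nat_lit 5372621318711125475331)) (.alt (nat_lit 18) (.exp (.alt (nat_lit 19) (.exp (.alt (nat_lit 22) (.cov (nat_lit 344121704999377765924875)) (.alt (nat_lit 22) (.cov (nat_lit 4332680861492801699842)) (.alt (nat_lit 22) (.cov (nat_lit 807048349560710627329)) (.alt (nat_lit 22) (.exp (.alt (nat_lit 23) (.exp (.alt (nat_lit 21) (.exp (.alt (nat_lit 29) (.exp (.alt (nat_lit 13) (.exp (.alt (nat_lit 28) (.exp (.alt (nat_lit 31) (.cov (nat_lit 62257770045482467329)) (.alt (nat_lit 31) (.exp (.alt (nat_lit 27) (.cov (nat_lit 647941896584175812608)) (.alt (nat_lit 15) (.cov (nat_lit 156375187464)) .e))) .e))) .e)) .e)) .e)) .e)) (.alt (nat_lit 23) (.cov (nat_lit 47959229168651970019331)) (.alt (nat_lit 23) (.exp (.alt (nat_lit 21) (.exp (.alt (nat_lit 31) (.cov (nat_lit 1618701825454082359298)) (.alt (nat_lit 31)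 (.cov (nat_lit 1987636821277382017025)) (.alt (nat_lit 31) (.exp (.alt (nat_lit 15) (.cov (nat_lit 22756364675678506844163)) (.alt (nat_lit 27) (.exp (.alt (nat_lit 11) (.exp (.alt (nat_lit 25) (.cov (nat_lit 102114257671824588406785)) (.alt (nat_lit 26) (.cov (nat_lit 47571795983)) .e))) .e)) (.alt (nat_lit 27) (.exp (.alt (nat_lit 25) (.cov (nat_lit 1604866743209538093058)) (.alt (nat_lit 11) (.cov (nat_lit 10344202307)) .e))) .e)))) .e)))) .e)) (.alt (nat_lit 23) (.exp (.alt (nat_lit 31) (.cov (nat_lit 347645033229605768527874)) (.alt (nat_lit 21) (.cov (nat_lit 11640244392)) .e))) .e))))) .e))))) .e)) (.alt (nat_lit 18) (.cov (nat_lit 53483947)) .e)))))) .e)))))) .e)) (.alt (nat_lit 0) (.cov (nat_lit 11551120927)) .e))))))) .e)) .e)) .e)) .e)) .e)) .e)) .e))),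
      .cov (nat_lit 606436915932968263532),
      .cov (nat_lit 606436918131991519084),
      .rot (.exp (.alt (nat_lit 7) (.exp (.alt (nat_lit 3) (.exp (.alt (nat_lit 1) (.exp (.alt (nat_lit 2) (.exp (.alt (nat_lit 5) (.exp (.alt (nat_lit 4) (.exp (.alt (nat_lit 13) (.exp (.alt (nat_lit 0) (.exp (.alt (nat_lit 8) (.cov (nat_lit 3001800683331593121222980695752706)) (.alt (nat_lit 8) (.cov (nat_lit 105387406403231672277734401993867265)) (.alt (nat_lit 8) (.cov (nat_lit 105387406403231672277756392225374208)) (.alt (nat_lit 8) (.cov (nat_lit 25493403111469785022557)) .e))))) (.alt (nat_lit 0) (.cov (nat_lit 406806050353852618637350)) (.alt (nat_lit 0) (.cov (nat_lit 29016731724281001541726)) (.alt (nat_lit 0) (.cov (nat_lit 404297296928954583613474)) (.alt (nat_lit 0) (.cov (nat_lit 404297296928953979633700)) (.alt (nat_lit 0) (.cov (nat_lit 18455768865167114255)) (.alt (nat_lit 0) (.cov (nat_lit 18457730393911066631)) (.alt (nat_lit 0) (.cov (nat_lit 36904467870542462982)) (.alt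 (nat_lit 0) (.cov (nat_lit 36907207853518880771)) (.alt (nat_lit 0) (.cov (nat_lit 2988386910557930782722)) (.alt (nat_lit 0) (.cov (nat_lit 25419628746525768679425)) (.alt (nat_lit 0) (.cov (nat_lit 36910312874355720192)) (.alt (nat_lit 0) (.cov (nat_lit 2961186335)) .e)))))))))))))) .e)) .e)) .e)) .e)) .e)) .e)) (.alt (nat_lit 7) (.exp (.alt (nat_lit 3) (.exp (.alt (nat_lit 1) (.exp (.alt (nat_lit 2) (.exp (.alt (nat_lit 6) (.exp (.alt (nat_lit 4) (.exp (.alt (nat_lit 14) (.exp (.alt (nat_lit 0) (.exp (.alt (nat_lit 8) (.cov (nat_lit 3001800683332771407000688893362178)) (.alt (nat_lit 8) (.cov (nat_lit 770001404295689608729637932166545409)) (.alt (nat_lit 8) (.cov (nat_lit 770001404295689608729659922366595072)) (.alt (nat_lit 8) (.cov (nat_lit 6603937180128642072669)) .e))))) (.alt (nat_lit 0) (.cov (nat_lit 104574595450195358515238)) (.alt (nat_lit 0) (.cov (nat_lit 10127265792802420686942)) (.alt (nat_lit 0) (.cov (nat_lit 102065842025297289936930)) (.alt (nat_lit 0) (.cov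 (nat_lit 102065842025296719511588)) (.alt (nat_lit 0) (.cov (nat_lit 92242745160038875151)) (.alt (nat_lit 0) (.cov (nat_lit 92244706688782827527)) (.alt (nat_lit 0) (.cov (nat_lit 36904467870542462982)) (.alt (nat_lit 0) (.cov (nat_lit 110694184148390641667)) (.alt (nat_lit 0) (.cov (nat_lit 21877852842036511637506)) (.alt (nat_lit 0) (.cov (nat_lit 6530162815047221379073)) (.alt (nat_lit 0) (.cov (nat_lit 110697289169193926656)) (.alt (nat_lit 0) (.cov (nat_lit 11551120927)) .e)))))))))))))) .e)) .e)) .e)) .e)) .e)) .e)) .e))),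
      .cov (nat_lit 606436915932968263532),
      .cov (nat_lit 21488151213968646479431),
      .cov (nat_lit 16140984628084219662),
      .cov (nat_lit 606436915932968263532),
      .cov (nat_lit 21488151213969351122500),
      .cov (nat_lit 16140984628084219663),
      .cov (nat_lit 606436915932968263532),
      .cov (nat_lit 21488151213969351122501),
      .cov (nat_lit 16140984628084219664),
      .cov (nat_lit 606436915932968263532),
      .cov (nat_lit 21488151213968814251590),
      .cov (nat_lit 16140984627379576390)])]) (by decide +kernel)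
  exact h _ List.mem_cons_self

theorem t7_18 : GF FULL [0, 7] [18, 6] := by
  have h := JT.chkW_ok (zs := [0, 7]) good (by decide) (by decide)
    (L := [([18, 6], [.cov (nat_lit 104646073331126141722187),
      .cov (nat_lit 606436790588206488604),
      .cov (nat_lit 21488151077629473071083),
      .cov (nat_lit 104646073331126141722537),
      .cov (nat_lit 606436790588038717439),
      .cov (nat_lit 21488151077629473071083),
      .cov (nat_lit 104646073331126141722539),
      .cov (nat_lit 606436790588038717440),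
      .cov (nat_lit 21488151077629473071083),
      .cov (nat_lit 104646073331126141722614),
      .cov (nat_lit 606436790588038717441),
      .cov (nat_lit 16140984627379576834),
      .cov (nat_lit 104646073331126141722616),
      .cov (nat_lit 606436790588642697214),
      .cov (nat_lit 16140984627379576835),
      .rot (.exp (.alt (nat_lit 7) (.exp (.alt (nat_lit 3) (.exp (.alt (nat_lit 5) (.exp (.alt (nat_lit 1) (.exp (.alt (nat_lit 9) (.exp (.alt (nat_lit 17) (.exp (.alt (nat_lit 0) (.cov (nat_lit 365323936262967659594195)) (.alt (nat_lit 0) (.cov (nat_lit 4614986752619184345)) (.alt (nat_lit 0) (.exp (.alt (nat_lit 2) (.cov (nat_lit 20294155527325486223245982040067)) (.alt (nat_lit 2) (.cov (nat_lit 20290325651288177778649334808577)) (.alt (nat_lit 2) (.cov (nat_lit 55898336414451395156566195845464064)) (.alt (nat_lit 2) (.exp (.alt (nat_lit 6) (.cov (nat_lit 40572720746511070614781144596481)) (.alt (nat_lit 6) (.cov (nat_lit 42003243330094753644555)) .e))) .e)))))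 (.alt (nat_lit 0) (.cov (nat_lit 63240060769875787776035)) (.alt (nat_lit 0) (.cov (nat_lit 332052375248952098832)) (.alt (nat_lit 0) (.cov (nat_lit 21490464320535635427348)) (.alt (nat_lit 0) (.cov (nat_lit 29076691334704601759755)) (.alt (nat_lit 0) (.cov (nat_lit 23099948983821333954566)) (.alt (nat_lit 0) (.cov (nat_lit 6645455029279580487683)) (.alt (nat_lit 0) (.cov (nat_lit 4626533824161906690)) (.alt (nat_lit 0) (.cov (nat_lit 10201065754329603899393)) (.alt (nat_lit 0) (.cov (nat_lit 6502494255845082136576)) (.alt (nat_lit 0) (.exp (.alt (nat_lit 2) (.exp (.alt (nat_lit 6) (.cov (nat_lit 105397547559682806396625551177547778)) (.alt (nat_lit 6) (.cov (nat_lit 212974164683092978293305761595393)) (.alt (nat_lit 6) (.cov (nat_lit 769970980531481954912507846945931264)) (.alt (nat_lit 6) (.exp (.alt (nat_lit 4) (.cov (nat_lit 891868262331537161030077484749553667)) (.alt (nat_lit 4) (.cov (nat_lit 50026567349397718909671794597167105)) (.alt (nat_lit 4) (.cov (nat_lit 50026567349397718909689386783211520))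 (.alt (nat_lit 4) (.exp (.alt (nat_lit 12) (.cov (nat_lit 58829135124199718028587589615747073)) (.alt (nat_lit 12) (.cov (nat_lit 345216983034596289413131)) .e))) .e))))) .e))))) (.alt (nat_lit 2) (.cov (nat_lit 13840043241658908710)) (.alt (nat_lit 2) (.cov (nat_lit 13841444021787951198)) (.alt (nat_lit 2) (.exp (.alt (nat_lit 6) (.cov (nat_lit 50026578964756924591727633649106945)) (.alt (nat_lit 6) (.cov (nat_lit 6590104659561493299211)) .e))) (.alt (nat_lit 2) (.cov (nat_lit 2845417338832032890916)) (.alt (nat_lit 2) (.cov (nat_lit 102088902410321094770703)) (.alt (nat_lit 2) (.cov (nat_lit 41514443049483108359)) (.alt (nat_lit 2) (.cov (nat_lit 751717878803933954054)) (.alt (nat_lit 2) (.cov (nat_lit 10122664521358293073923)) (.alt (nat_lit 2) (.cov (nat_lit 10122664521358125301762)) (.alt (nat_lit 2) (.cov (nat_lit 7835269978053349998593)) (.alt (nat_lit 2) (.cov (nat_lit 760945019966476779520)) (.alt (nat_lit 2) (.exp (.alt (nat_lit 6) (.cov (nat_lit 347864090870746355597405))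 (.alt (nat_lit 6) (.cov (nat_lit 32282307907249242147)) (.alt (nat_lit 6) (.cov (nat_lit 45411277096537626247188)) (.alt (nat_lit 6) (.cov (nat_lit 106077169896864612363)) (.alt (nat_lit 6) (.cov (nat_lit 21522747663995981791238)) (.alt (nat_lit 6) (.cov (nat_lit 451958338183525040131)) (.alt (nat_lit 6) (.cov (nat_lit 50740739786667982850)) (.alt (nat_lit 6) (.cov (nat_lit 63244675774220280528897)) (.alt (nat_lit 6) (.cov (nat_lit 32297289849784762368)) (.alt (nat_lit 6) (.exp (.alt (nat_lit 4) (.cov (nat_lit 406815270849567059345600)) (.alt (nat_lit 4) (.exp (.alt (nat_lit 12) (.cov (nat_lit 3995638754314430268539525820055553)) (.alt (nat_lit 12) (.cov (nat_lit 21887064590220282298379)) .e))) (.alt (nat_lit 4) (.cov (nat_lit 1817007587596297043983)) (.alt (nat_lit 4) (.cov (nat_lit 25281269818480706715655)) (.alt (nat_lit 4) (.cov (nat_lit 25281269818480673161222)) (.alt (nat_lit 4) (.cov (nat_lit 6539381186505163669507)) (.alt (nat_lit 4) (.cov (nat_lit 46129924581447696385))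 (.alt (nat_lit 4) (.cov (nat_lit 46130628268889473024)) (.alt (nat_lit 4) (.cov (nat_lit 4643101546)) .e)))))))))) .e))))))))))) .e)))))))))))))) .e)))))))))))))) .e)) .e)) .e)) .e)) .e)) .e)),
      .cov (nat_lit 6361820939386664001515),
      .cov (nat_lit 16140984627379576749),
      .rot (.exp (.alt (nat_lit 7) (.exp (.alt (nat_lit 3) (.exp (.alt (nat_lit 5) (.exp (.alt (nat_lit 13) (.exp (.alt (nat_lit 15) (.exp (.alt (nat_lit 9) (.exp (.alt (nat_lit 0) (.cov (nat_lit 41994016180136275083481)) (.alt (nat_lit 0) (.cov (nat_lit 36902506526213668884)) (.alt (nat_lit 0) (.cov (nat_lit 3043725792578788917259)) (.alt (nat_lit 0) (.exp (.alt (nat_lit 2) (.exp (.alt (nat_lit 6) (.exp (.alt (nat_lit 10) (.exp (.alt (nat_lit 16) (.cov (nat_lit 22043859588096980942882)) (.alt (nat_lit 4) (.cov (nat_lit 1374285729983597903879)) (.alt (nat_lit 4) (.cov (nat_lit 415058807304042315779)) (.alt (nat_lit 4) (.cov (nat_lit 46127839907401433088)) (.alt (nat_lit 1) (.cov (nat_lit 51386463))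 .e)))))) .e)) .e)) .e)) (.alt (nat_lit 0) (.cov (nat_lit 21877854726599471005697)) (.alt (nat_lit 0) (.exp (.alt (nat_lit 2) (.cov (nat_lit 3859984493769601843238)) (.alt (nat_lit 2) (.cov (nat_lit 23060699484759523362)) (.alt (nat_lit 2) (.cov (nat_lit 41516153890314125319)) (.alt (nat_lit 2) (.cov (nat_lit 41518887275583242243)) (.alt (nat_lit 2) (.exp (.alt (nat_lit 6) (.exp (.alt (nat_lit 10) (.cov (nat_lit 384301021134770852069394)) (.alt (nat_lit 10) (.cov (nat_lit 7839871115357438607371)) (.alt (nat_lit 10) (.cov (nat_lit 6553214850400333594626)) (.alt (nat_lit 10) (.cov (nat_lit 59962897963283382273)) (.alt (nat_lit 10) (.exp (.alt (nat_lit 26) (.cov (nat_lit 350248330147546661912610)) (.alt (nat_lit 14) (.cov (nat_lit 21910123570041427329031)) (.alt (nat_lit 14) (.cov (nat_lit 438117237378462515203)) (.alt (nat_lit 14) (.cov (nat_lit 69186269999538372608)) (.alt (nat_lit 11) (.cov (nat_lit 9792657503)) .e)))))) .e)))))) .e)) (.alt (nat_lit 1) (.cov (nat_lit 17832179))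 .e))))))) .e))))))) .e)) .e)) .e)) .e)) .e)) .e)),
      .cov (nat_lit 6361820939386664001515),
      .cov (nat_lit 16140984627715120930)])]) (by decide +kernel)
  exact h _ List.mem_cons_self

theorem t7_20 : GF FULL [0, 7] [20, 4] := by
  have h := JT.chkW_ok (zs := [0, 7]) good (by decide) (by decide)
    (L := [([20, 4], [.cov (nat_lit 16140914259239379138),
      .rot (.exp (.alt (nat_lit 7) (.exp (.alt (nat_lit 3) (.exp (.alt (nat_lit 1) (.exp (.alt (nat_lit 2) (.exp (.alt (nat_lit 0) (.cov (nat_lit 2813135552098559066619)) (.alt (nat_lit 0) (.cov (nat_lit 36904467871146442790)) (.alt (nat_lit 0) (.cov (nat_lit 36907201257053093922)) (.alt (nat_lit 0) (.exp (.alt (nat_lit 4) (.exp (.alt (nat_lit 5) (.exp (.alt (nat_lit 13) (.exp (.alt (nat_lit 21) (.exp (.alt (nat_lit 8) (.cov (nat_lit 404306515082708858699795)) (.alt (nat_lit 8) (.cov (nat_lit 23066320190488707083)) (.alt (nat_lit 8) (.cov (nat_lit 129136224511492882434)) (.alt (nat_lit 8) (.cov (nat_lit 29127421048587949178881))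 (.alt (nat_lit 8) (.exp (.alt (nat_lit 10) (.cov (nat_lit 475004961720083939362)) (.alt (nat_lit 9) (.cov (nat_lit 1501107095336953839623)) (.alt (nat_lit 9) (.cov (nat_lit 57653140692241743875)) (.alt (nat_lit 9) (.exp (.alt (nat_lit 11) (.exp (.alt (nat_lit 25) (.cov (nat_lit 25585634175370700783627)) (.alt (nat_lit 25) (.exp (.alt (nat_lit 24) (.exp (.alt (nat_lit 16) (.exp (.alt (nat_lit 26) (.exp (.alt (nat_lit 27) (.cov (nat_lit 10180296903270832537603)) (.alt (nat_lit 27) (.exp (.alt (nat_lit 19) (.exp (.alt (nat_lit 31) (.cov (nat_lit 365388494934816494452737)) (.alt (nat_lit 31) (.exp (.alt (nat_lit 30) (.cov (nat_lit 25285874450032498835456)) (.alt (nat_lit 29) (.cov (nat_lit 12142510088)) .e))) .e))) .e)) (.alt (nat_lit 27) (.cov (nat_lit 10467934800)) .e)))) .e)) .e)) .e)) (.alt (nat_lit 25) (.cov (nat_lit 498066974020826300417)) (.alt (nat_lit 25) (.exp (.alt (nat_lit 24) (.exp (.alt (nat_lit 16) (.exp (.alt (nat_lit 18) (.exp (.alt (nat_lit 19) (.exp (.alt (nat_lit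 26) (.exp (.alt (nat_lit 28) (.cov (nat_lit 102116563514833797906433)) (.alt (nat_lit 28) (.exp (.alt (nat_lit 30) (.cov (nat_lit 21543491246078673551360)) (.alt (nat_lit 20) (.cov (nat_lit 10525605896)) .e))) .e))) .e)) .e)) .e)) .e)) (.alt (nat_lit 29) (.cov (nat_lit 104701413939380947517443)) (.alt (nat_lit 29) (.exp (.alt (nat_lit 28) (.exp (.alt (nat_lit 31) (.cov (nat_lit 421969303692122259458)) (.alt (nat_lit 31) (.cov (nat_lit 421969415821656588289)) (.alt (nat_lit 31) (.exp (.alt (nat_lit 23) (.cov (nat_lit 63286167248471283728387)) (.alt (nat_lit 30) (.exp (.alt (nat_lit 14) (.exp (.alt (nat_lit 22) (.cov (nat_lit 6387185144318650220545)) (.alt (nat_lit 22) (.exp (.alt (nat_lit 18) (.cov (nat_lit 6405631890590774853632)) (.alt (nat_lit 20) (.cov (nat_lit 822083592)) .e))) .e))) .e)) (.alt (nat_lit 23) (.cov (nat_lit 1935671888)) .e)))) .e)))) .e)) (.alt (nat_lit 17) (.cov (nat_lit 185002364051)) .e))))) .e))))) .e)) (.alt (nat_lit 9) (.cov (nat_lit 11587819611))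 .e)))))) .e)))))) .e)) .e)) .e)) .e)) (.alt (nat_lit 0) (.cov (nat_lit 9240328705186725891)) (.alt (nat_lit 0) (.exp (.alt (nat_lit 4) (.exp (.alt (nat_lit 8) (.cov (nat_lit 23059547196781232345)) (.alt (nat_lit 8) (.cov (nat_lit 645645060774452789268)) (.alt (nat_lit 8) (.cov (nat_lit 55351211944256208907)) (.alt (nat_lit 8) (.exp (.alt (nat_lit 9) (.exp (.alt (nat_lit 11) (.exp (.alt (nat_lit 13) (.exp (.alt (nat_lit 24) (.cov (nat_lit 22048471639153264558114)) (.alt (nat_lit 10) (.cov (nat_lit 21531965316529712529415)) (.alt (nat_lit 10) (.cov (nat_lit 25295104876582363201539)) (.alt (nat_lit 10) (.cov (nat_lit 59962897962685693952)) (.alt (nat_lit 10) (.cov (nat_lit 27269212)) .e)))))) .e)) .e)) .e)) (.alt (nat_lit 8) (.cov (nat_lit 498078345170073419777)) (.alt (nat_lit 8) (.exp (.alt (nat_lit 9) (.cov (nat_lit 21575776333561641041958)) (.alt (nat_lit 9) (.cov (nat_lit 102077372610344016412706)) (.alt (nat_lit 9) (.cov (nat_lit 57657054953504505863)) (.alt (nat_lit 9)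 (.cov (nat_lit 21529669890137295683587)) (.alt (nat_lit 9) (.exp (.alt (nat_lit 11) (.exp (.alt (nat_lit 13) (.cov (nat_lit 1510329018215809679378)) (.alt (nat_lit 13) (.cov (nat_lit 45634943879380173062155)) (.alt (nat_lit 13) (.cov (nat_lit 6560132379453751820290)) (.alt (nat_lit 13) (.cov (nat_lit 66880426990327824385)) (.alt (nat_lit 13) (.exp (.alt (nat_lit 29) (.cov (nat_lit 104701413939382625239074)) (.alt (nat_lit 12) (.cov (nat_lit 6557820814714371833863)) (.alt (nat_lit 12) (.cov (nat_lit 6410250631096439930883)) (.alt (nat_lit 12) (.cov (nat_lit 64574583981113081856)) (.alt (nat_lit 5) (.cov (nat_lit 626006111)) .e)))))) .e)))))) .e)) (.alt (nat_lit 9) (.cov (nat_lit 279977503)) .e))))))) .e))))))) .e)) (.alt (nat_lit 0) (.cov (nat_lit 10376716384)) .e)))))))) .e)) .e)) .e)) .e)),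
      .cov (nat_lit 16140914259239379138),
      .rot (.exp (.alt (nat_lit 7) (.exp (.alt (nat_lit 3) (.exp (.alt (nat_lit 1) (.exp (.alt (nat_lit 2) (.exp (.alt (nat_lit 0) (.cov (nat_lit 18452083302190809595)) (.alt (nat_lit 0) (.cov (nat_lit 345341502911159694525386)) (.alt (nat_lit 0) (.exp (.alt (nat_lit 4) (.cov (nat_lit 40590177635341694182841565315074)) (.alt (nat_lit 4) (.cov (nat_lit 100316817735716056270562976981843969)) (.alt (nat_lit 4) (.cov (nat_lit 81149464798076031769947174600704)) (.alt (nat_lit 4) (.cov (nat_lit 36902504142779449437)) .e))))) (.alt (nat_lit 0) (.cov (nat_lit 18458968444003942438)) (.alt (nat_lit 0) (.cov (nat_lit 36904467870542463070)) (.alt (nat_lit 0) (.cov (nat_lit 36907201257053093922)) (.alt (nat_lit 0) (.cov (nat_lit 344299268490055095681060)) (.alt (nat_lit 0) (.cov (nat_lit 1632552261278278615055)) (.alt (nat_lit 0) (.cov (nat_lit 378172241497982763015)) (.alt (nat_lit 0) (.cov (nat_lit 102277988774061545619462)) (.alt (nat_lit 0)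 (.cov (nat_lit 9240328705186725891)) (.alt (nat_lit 0) (.cov (nat_lit 608759511100742959106)) (.alt (nat_lit 0) (.cov (nat_lit 18464424220688384001)) (.alt (nat_lit 0) (.exp (.alt (nat_lit 4) (.exp (.alt (nat_lit 8) (.cov (nat_lit 23058931472350052817)) (.alt (nat_lit 8) (.cov (nat_lit 20754722346005168345)) (.alt (nat_lit 8) (.cov (nat_lit 7620819552317458088029)) (.alt (nat_lit 8) (.cov (nat_lit 55349248216656773155)) (.alt (nat_lit 8) (.cov (nat_lit 55351211944423981072)) (.alt (nat_lit 8) (.cov (nat_lit 20761627267820421138)) (.alt (nat_lit 8) (.cov (nat_lit 55351211944256208907)) (.alt (nat_lit 8) (.cov (nat_lit 6661594179921535565830)) (.alt (nat_lit 8) (.cov (nat_lit 470407384634578960387)) (.alt (nat_lit 8) (.cov (nat_lit 6514020418646882385922)) (.alt (nat_lit 8) (.cov (nat_lit 21492778420693222031361)) (.alt (nat_lit 8) (.cov (nat_lit 613371197119175589888)) (.alt (nat_lit 8) (.exp (.alt (nat_lit 9) (.exp (.alt (nat_lit 11) (.cov (nat_lit 3209695381769061942399596644794370))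 (.alt (nat_lit 11) (.cov (nat_lit 764854742805570637148928135270498305)) (.alt (nat_lit 11) (.cov (nat_lit 47445630727333576497983824488038400)) (.alt (nat_lit 11) (.cov (nat_lit 21575774884392365719645)) .e))))) (.alt (nat_lit 9) (.cov (nat_lit 29980942107306623014)) (.alt (nat_lit 9) (.cov (nat_lit 21575776333548689031262)) (.alt (nat_lit 9) (.cov (nat_lit 102077372610344016412706)) (.alt (nat_lit 9) (.cov (nat_lit 365349302684515008774180)) (.alt (nat_lit 9) (.cov (nat_lit 57655091225737297935)) (.alt (nat_lit 9) (.cov (nat_lit 57657054953504505863)) (.alt (nat_lit 9) (.cov (nat_lit 57657054953470951430)) (.alt (nat_lit 9) (.cov (nat_lit 21529669890137295683587)) (.alt (nat_lit 9) (.cov (nat_lit 104581523400394170957826)) (.alt (nat_lit 9) (.cov (nat_lit 620287164840307326977)) (.alt (nat_lit 9) (.cov (nat_lit 2833895046310569967616)) (.alt (nat_lit 9) (.cov (nat_lit 279977503)) .e)))))))))))))) .e)))))))))))))) .e)) (.alt (nat_lit 0) (.cov (nat_lit 4202535)) .e))))))))))))))))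 .e)) .e)) .e)) .e)),
      .cov (nat_lit 16140914259239379138),
      .cov (nat_lit 16140916458363297964),
      .cov (nat_lit 16140914259239379138),
      .cov (nat_lit 16140916458363297965),
      .cov (nat_lit 16140914259239379138),
      .cov (nat_lit 16140916458363297966),
      .cov (nat_lit 16140914259239379138),
      .cov (nat_lit 16140916458363297967),
      .cov (nat_lit 16140914259239379138),
      .cov (nat_lit 16140916458363297968)])]) (by decide +kernel)
  exact h _ List.mem_cons_self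

theorem t7_21 : GF FULL [0, 7] [21, 3] := by
  have h := JT.chkW_ok (zs := [0, 7]) good (by decide) (by decide)
    (L := [([21, 3], [.cov (nat_lit 16140905463146356923),
      .cov (nat_lit 16140907846584770811),
      .cov (nat_lit 16140905463146356968),
      .cov (nat_lit 16140907846584770811),
      .cov (nat_lit 16140905463146356969),
      .cov (nat_lit 16140907846584770811),
      .cov (nat_lit 16140905463146356970),
      .cov (nat_lit 16140907846584770811),
      .cov (nat_lit 16140905463146356972),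
      .cov (nat_lit 16140907846584770811),
      .cov (nat_lit 16140905463146356974),
      .cov (nat_lit 16140907846584770811),
      .rot (.exp (.alt (nat_lit 7) (.exp (.alt (nat_lit 3) (.exp (.alt (nat_lit 5) (.exp (.alt (nat_lit 0) (.exp (.alt (nat_lit 1) (.cov (nat_lit 3103224337039137867253251746824199)) (.alt (nat_lit 1) (.cov (nat_lit 759393716534588445710233872708403203)) (.alt (nat_lit 1) (.cov (nat_lit 224739255184226929968386007616192513)) (.alt (nat_lit 1) (.exp (.alt (nat_lit 9) (.exp (.alt (nat_lit 17) (.cov (nat_lit 224769681820946974957268570236518402)) (.alt (nat_lit 17) (.cov (nat_lit 10159991509120292648768177700865)) (.alt (nat_lit 17) (.cov (nat_lit 52744424637019155934326009901350912)) (.alt (nat_lit 17) (.exp (.alt (nat_lit 16) (.cov (nat_lit 14126719599887791957201170460573699)) (.alt (nat_lit 16) (.cov (nat_lit 1308234003043287198671885601603585)) (.alt (nat_lit 16) (.cov (nat_lit 10149125683851290527532796870656)) (.alt (nat_lit 16) (.exp (.alt (nat_lit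 18) (.cov (nat_lit 10149130519559180643480624955393)) (.alt (nat_lit 18) (.cov (nat_lit 594915947223531388939)) .e))) .e))))) .e))))) .e)) (.alt (nat_lit 1) (.cov (nat_lit 1775507589931165811195)) .e)))))) (.alt (nat_lit 0) (.exp (.alt (nat_lit 1) (.cov (nat_lit 4076787295088894354055750032031750)) (.alt (nat_lit 1) (.cov (nat_lit 20307772867460171684469416132611)) (.alt (nat_lit 1) (.cov (nat_lit 845056477799387193573854950468878337)) (.alt (nat_lit 1) (.cov (nat_lit 845056477799385865408413584776495104)) (.alt (nat_lit 1) (.cov (nat_lit 378167274088403304667)) .e)))))) (.alt (nat_lit 0) (.cov (nat_lit 18458939856701620690)) (.alt (nat_lit 0) (.cov (nat_lit 299767063478819356899)) (.alt (nat_lit 0) (.cov (nat_lit 4623912588349014233)) (.alt (nat_lit 0) (.cov (nat_lit 1923086795987390300253)) (.alt (nat_lit 0) (.cov (nat_lit 225988012463953543203)) (.alt (nat_lit 0) (.cov (nat_lit 36906143526430965776)) (.alt (nat_lit 0) (.cov (nat_lit 1775513034712737120274)) (.alt (nat_lit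 0) (.cov (nat_lit 594923228189511647243)) (.alt (nat_lit 0) (.cov (nat_lit 2808533746288657694726)) (.alt (nat_lit 0) (.cov (nat_lit 6497881419737498386435)) (.alt (nat_lit 0) (.exp (.alt (nat_lit 1) (.exp (.alt (nat_lit 9) (.exp (.alt (nat_lit 17) (.exp (.alt (nat_lit 2) (.exp (.alt (nat_lit 6) (.cov (nat_lit 105397547559682806396625551177547778)) (.alt (nat_lit 6) (.cov (nat_lit 212974164683092978293305761595393)) (.alt (nat_lit 6) (.cov (nat_lit 769970980531481954912507846945931264)) (.alt (nat_lit 6) (.exp (.alt (nat_lit 4) (.cov (nat_lit 891868262331537161030077484749553667)) (.alt (nat_lit 4) (.cov (nat_lit 50026567349397718909671794597167105)) (.alt (nat_lit 4) (.cov (nat_lit 50026567349397718909689386783211520)) (.alt (nat_lit 4) (.exp (.alt (nat_lit 12) (.cov (nat_lit 58829135124199718028587589615747073)) (.alt (nat_lit 12) (.cov (nat_lit 345216983034596289413131)) .e))) .e))))) .e))))) (.alt (nat_lit 2) (.cov (nat_lit 13840043241658908710)) (.alt (nat_lit 2) (.cov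 (nat_lit 13841444021787951198)) (.alt (nat_lit 2) (.exp (.alt (nat_lit 6) (.cov (nat_lit 50026578964756924591727633649106945)) (.alt (nat_lit 6) (.cov (nat_lit 6590104659561493299211)) .e))) (.alt (nat_lit 2) (.cov (nat_lit 2845417338832032890916)) (.alt (nat_lit 2) (.cov (nat_lit 102088902410321094770703)) (.alt (nat_lit 2) (.cov (nat_lit 41514443049483108359)) (.alt (nat_lit 2) (.cov (nat_lit 751717878803933954054)) (.alt (nat_lit 2) (.cov (nat_lit 10122664521358293073923)) (.alt (nat_lit 2) (.cov (nat_lit 10122664521358125301762)) (.alt (nat_lit 2) (.cov (nat_lit 7835269978053349998593)) (.alt (nat_lit 2) (.cov (nat_lit 760945019966476779520)) (.alt (nat_lit 2) (.exp (.alt (nat_lit 6) (.cov (nat_lit 347864090870746355597405)) (.alt (nat_lit 6) (.cov (nat_lit 32282307907249242147)) (.alt (nat_lit 6) (.cov (nat_lit 45411277096537626247188)) (.alt (nat_lit 6) (.cov (nat_lit 106077169896864612363)) (.alt (nat_lit 6) (.cov (nat_lit 21522747663995981791238)) (.alt (nat_lit 6)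 (.cov (nat_lit 451958338183525040131)) (.alt (nat_lit 6) (.cov (nat_lit 50740739786667982850)) (.alt (nat_lit 6) (.cov (nat_lit 63244675774220280528897)) (.alt (nat_lit 6) (.cov (nat_lit 32297289849784762368)) (.alt (nat_lit 6) (.exp (.alt (nat_lit 4) (.cov (nat_lit 406815270849567059345600)) (.alt (nat_lit 4) (.exp (.alt (nat_lit 12) (.cov (nat_lit 3995638754314430268539525820055553)) (.alt (nat_lit 12) (.cov (nat_lit 21887064590220282298379)) .e))) (.alt (nat_lit 4) (.cov (nat_lit 1817007587596297043983)) (.alt (nat_lit 4) (.cov (nat_lit 25281269818480706715655)) (.alt (nat_lit 4) (.cov (nat_lit 25281269818480673161222)) (.alt (nat_lit 4) (.cov (nat_lit 6539381186505163669507)) (.alt (nat_lit 4) (.cov (nat_lit 46129924581447696385)) (.alt (nat_lit 4) (.cov (nat_lit 46130628268889473024)) (.alt (nat_lit 4) (.cov (nat_lit 4643101546)) .e)))))))))) .e))))))))))) .e)))))))))))))) .e)) .e)) .e)) (.alt (nat_lit 0) (.cov (nat_lit 4629520097038303233)) (.alt (nat_lit 0) (.cov (nat_lit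 1554156422510865809408)) (.alt (nat_lit 0) (.exp (.alt (nat_lit 1) (.cov (nat_lit 20759740505591382523)) (.alt (nat_lit 1) (.cov (nat_lit 47982294257383634895818)) (.alt (nat_lit 1) (.exp (.alt (nat_lit 9) (.cov (nat_lit 19557336289676358455036896699482114)) (.alt (nat_lit 9) (.cov (nat_lit 86223408669984340154699496816641)) (.alt (nat_lit 9) (.cov (nat_lit 86220067199729124988488656093184)) (.alt (nat_lit 9) (.exp (.alt (nat_lit 8) (.cov (nat_lit 19557336289676356149187290414972931)) (.alt (nat_lit 8) (.cov (nat_lit 86223408670055821279189027258369)) (.alt (nat_lit 8) (.cov (nat_lit 14527295734023306777723272865775616)) (.alt (nat_lit 8) (.exp (.alt (nat_lit 10) (.cov (nat_lit 897519449481120692381121939243009)) (.alt (nat_lit 10) (.cov (nat_lit 22839385418641365270539)) .e))) .e))))) .e))))) (.alt (nat_lit 1) (.cov (nat_lit 2677094720017301241894)) (.alt (nat_lit 1) (.cov (nat_lit 39210310879757205598)) (.alt (nat_lit 1) (.cov (nat_lit 1662526531548801400866)) (.alt (nat_lit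 1) (.cov (nat_lit 629508865619485786148)) (.alt (nat_lit 1) (.cov (nat_lit 6532468673449598910479)) (.alt (nat_lit 1) (.cov (nat_lit 1810103586959720972295)) (.alt (nat_lit 1) (.cov (nat_lit 39215885403710029830)) (.alt (nat_lit 1) (.cov (nat_lit 39216303218128584707)) (.alt (nat_lit 1) (.cov (nat_lit 6532470483245704675330)) (.alt (nat_lit 1) (.cov (nat_lit 39216819988593639425)) (.alt (nat_lit 1) (.exp (.alt (nat_lit 9) (.exp (.alt (nat_lit 17) (.cov (nat_lit 7791448469340098134483)) (.alt (nat_lit 17) (.cov (nat_lit 3880737085259504419033)) (.alt (nat_lit 17) (.exp (.alt (nat_lit 19) (.cov (nat_lit 105412765058865960898427361446330371)) (.alt (nat_lit 19) (.cov (nat_lit 8543972961632483008071763891322881)) (.alt (nat_lit 19) (.cov (nat_lit 1749373375448648768728771154935808)) (.alt (nat_lit 19) (.exp (.alt (nat_lit 23) (.cov (nat_lit 8518619935477208903531390010654721)) (.alt (nat_lit 23) (.cov (nat_lit 627196372947815104523)) .e))) .e))))) (.alt (nat_lit 17) (.cov (nat_lit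 104673753802448675274787)) (.alt (nat_lit 17) (.cov (nat_lit 279017986049058013200)) (.alt (nat_lit 17) (.cov (nat_lit 6382580923984415555604)) (.alt (nat_lit 17) (.cov (nat_lit 25352754875008775356427)) (.alt (nat_lit 17) (.cov (nat_lit 103345591547455639388166)) (.alt (nat_lit 17) (.cov (nat_lit 404470243566092803899395)) (.alt (nat_lit 17) (.cov (nat_lit 3880748632312389828610)) (.alt (nat_lit 17) (.cov (nat_lit 2693240916329834217473)) (.alt (nat_lit 17) (.cov (nat_lit 45427430094381467566080)) (.alt (nat_lit 17) (.exp (.alt (nat_lit 19) (.exp (.alt (nat_lit 23) (.cov (nat_lit 105605442258215958479312682433380354)) (.alt (nat_lit 23) (.cov (nat_lit 58342360089152489713222427070169089)) (.alt (nat_lit 23) (.cov (nat_lit 105559806734957475511546983285260288)) (.alt (nat_lit 23) (.exp (.alt (nat_lit 21) (.cov (nat_lit 55629584975717224750497992852635651)) (.alt (nat_lit 21) (.cov (nat_lit 803761473040707829770323934377410561)) (.alt (nat_lit 21) (.cov (nat_lit 803761473040327531694517774083686400))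 (.alt (nat_lit 21) (.exp (.alt (nat_lit 20) (.cov (nat_lit 299171610506920158221816895111169)) (.alt (nat_lit 20) (.cov (nat_lit 344352291906299061338123)) .e))) .e))))) .e))))) (.alt (nat_lit 19) (.cov (nat_lit 3889962141732706451494)) (.alt (nat_lit 19) (.cov (nat_lit 47940788390573020020830)) (.alt (nat_lit 19) (.exp (.alt (nat_lit 23) (.cov (nat_lit 50553921614856167618456920011046913)) (.alt (nat_lit 23) (.cov (nat_lit 25424230359002531233803)) .e))) (.alt (nat_lit 19) (.cov (nat_lit 6703092693267724107812)) (.alt (nat_lit 19) (.cov (nat_lit 404488683853808467443727)) (.alt (nat_lit 19) (.cov (nat_lit 26551791520000503709703)) (.alt (nat_lit 19) (.cov (nat_lit 3078313475121027743750)) (.alt (nat_lit 19) (.cov (nat_lit 48014582691932290416643)) (.alt (nat_lit 19) (.cov (nat_lit 48014582691950611136514)) (.alt (nat_lit 19) (.cov (nat_lit 1528789348010269081601)) (.alt (nat_lit 19) (.cov (nat_lit 336669906271174918144)) (.alt (nat_lit 19) (.exp (.alt (nat_lit 23) (.cov (nat_lit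 1378896934264185552989)) (.alt (nat_lit 23) (.cov (nat_lit 788598814939651506211)) (.alt (nat_lit 23) (.cov (nat_lit 347882539673106277990420)) (.alt (nat_lit 23) (.cov (nat_lit 26540261427706237812747)) (.alt (nat_lit 23) (.cov (nat_lit 809359912413222141958)) (.alt (nat_lit 23) (.cov (nat_lit 22774824510400229277699)) (.alt (nat_lit 23) (.cov (nat_lit 26561017816900360470530)) (.alt (nat_lit 23) (.cov (nat_lit 104678368806937519194113)) (.alt (nat_lit 23) (.cov (nat_lit 406838344347366544375808)) (.alt (nat_lit 23) (.exp (.alt (nat_lit 21) (.cov (nat_lit 406907504570119461273792)) (.alt (nat_lit 21) (.exp (.alt (nat_lit 20) (.cov (nat_lit 63914947325523352368003339146756097)) (.alt (nat_lit 20) (.cov (nat_lit 45445862615184870211595)) .e))) (.alt (nat_lit 21) (.cov (nat_lit 804742506563506274319)) (.alt (nat_lit 21) (.cov (nat_lit 804746275862305832967)) (.alt (nat_lit 21) (.cov (nat_lit 804746275861164982278)) (.alt (nat_lit 21) (.cov (nat_lit 364058033922098130321411))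 (.alt (nat_lit 21) (.cov (nat_lit 350186085030828032655361)) (.alt (nat_lit 21) (.cov (nat_lit 350186085734359110778880)) (.alt (nat_lit 21) (.cov (nat_lit 88087402)) .e)))))))))) .e))))))))))) .e)))))))))))))) .e)))))))))))))) .e)) (.alt (nat_lit 1) (.cov (nat_lit 42999914)) .e)))))))))))))))) .e))))))))))))))))) .e)) .e)) .e)),
      .cov (nat_lit 16140907846584770811),
      .rot (.exp (.alt (nat_lit 7) (.exp (.alt (nat_lit 3) (.exp (.alt (nat_lit 5) (.exp (.alt (nat_lit 0) (.cov (nat_lit 378167274061021839587)) (.alt (nat_lit 0) (.cov (nat_lit 4619336420954210521)) (.alt (nat_lit 0) (.exp (.alt (nat_lit 1) (.exp (.alt (nat_lit 9) (.exp (.alt (nat_lit 17) (.exp (.alt (nat_lit 19) (.exp (.alt (nat_lit 23) (.exp (.alt (nat_lit 18) (.exp (.alt (nat_lit 8) (.cov (nat_lit 344243915833353193914402)) (.alt (nat_lit 2) (.cov (nat_lit 4219696003353294143495)) (.alt (nat_lit 2) (.cov (nat_lit 45402055916898284994563)) (.alt (nat_lit 2) (.exp (.alt (nat_lit 6) (.exp (.alt (nat_lit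 10) (.cov (nat_lit 406921339353271047815179)) (.alt (nat_lit 10) (.exp (.alt (nat_lit 26) (.exp (.alt (nat_lit 27) (.exp (.alt (nat_lit 30) (.exp (.alt (nat_lit 14) (.cov (nat_lit 384310242677239070064643)) (.alt (nat_lit 14) (.exp (.alt (nat_lit 15) (.exp (.alt (nat_lit 12) (.cov (nat_lit 6410243574566534250497)) (.alt (nat_lit 12) (.exp (.alt (nat_lit 28) (.cov (nat_lit 1395035031569422090240)) (.alt (nat_lit 8) (.cov (nat_lit 9957277704)) .e))) .e))) .e)) (.alt (nat_lit 14) (.cov (nat_lit 2898264656)) .e)))) .e)) .e)) .e)) (.alt (nat_lit 10) (.cov (nat_lit 102107345018187821350913)) (.alt (nat_lit 10) (.exp (.alt (nat_lit 26) (.exp (.alt (nat_lit 27) (.exp (.alt (nat_lit 31) (.exp (.alt (nat_lit 15) (.exp (.alt (nat_lit 30) (.exp (.alt (nat_lit 24) (.cov (nat_lit 365383883248798666850305)) (.alt (nat_lit 24) (.exp (.alt (nat_lit 28) (.cov (nat_lit 102075058342866941116416)) (.alt (nat_lit 25) (.cov (nat_lit 3553624072)) .e))) .e))) .e)) .e)) .e)) .e)) (.alt (nat_lit 8)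 (.cov (nat_lit 21573467614216821145603)) (.alt (nat_lit 8) (.exp (.alt (nat_lit 24) (.exp (.alt (nat_lit 12) (.cov (nat_lit 26519500481963547951106)) (.alt (nat_lit 12) (.cov (nat_lit 404308819223830213951489)) (.alt (nat_lit 12) (.exp (.alt (nat_lit 13) (.cov (nat_lit 657165275238740525059)) (.alt (nat_lit 28) (.exp (.alt (nat_lit 20) (.exp (.alt (nat_lit 29) (.cov (nat_lit 102118869357843016843265)) (.alt (nat_lit 29) (.exp (.alt (nat_lit 31) (.cov (nat_lit 22795564000081722998784)) (.alt (nat_lit 25) (.cov (nat_lit 159244091400)) .e))) .e))) .e)) (.alt (nat_lit 13) (.cov (nat_lit 47610593872)) .e)))) .e)))) .e)) (.alt (nat_lit 11) (.cov (nat_lit 159277649043)) .e))))) .e))))) .e)) (.alt (nat_lit 2) (.cov (nat_lit 274733147)) .e)))))) .e)) .e)) .e)) .e)) .e)) .e)) (.alt (nat_lit 0) (.cov (nat_lit 110696719622170738699)) (.alt (nat_lit 0) (.exp (.alt (nat_lit 1) (.exp (.alt (nat_lit 9) (.exp (.alt (nat_lit 17) (.exp (.alt (nat_lit 2) (.exp (.alt (nat_lit 6) (.cov (nat_lit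 3174204352056029373676455408435202)) (.alt (nat_lit 6) (.cov (nat_lit 47910809341782646587412)) .e))) (.alt (nat_lit 2) (.exp (.alt (nat_lit 6) (.cov (nat_lit 50026578964756924591727633649106945)) (.alt (nat_lit 6) (.cov (nat_lit 46656434527088718905355)) .e))) (.alt (nat_lit 2) (.exp (.alt (nat_lit 6) (.exp (.alt (nat_lit 4) (.exp (.alt (nat_lit 12) (.exp (.alt (nat_lit 20) (.exp (.alt (nat_lit 10) (.cov (nat_lit 384167280645944396218379)) (.alt (nat_lit 10) (.exp (.alt (nat_lit 11) (.exp (.alt (nat_lit 15) (.exp (.alt (nat_lit 27) (.exp (.alt (nat_lit 26) (.cov (nat_lit 659471118228502085635)) (.alt (nat_lit 26) (.exp (.alt (nat_lit 18) (.exp (.alt (nat_lit 30) (.cov (nat_lit 433498494538064330753)) (.alt (nat_lit 24) (.cov (nat_lit 297795599)) .e))) .e)) (.alt (nat_lit 26) (.exp (.alt (nat_lit 30) (.cov (nat_lit 433498494528458326018)) (.alt (nat_lit 18) (.cov (nat_lit 1197473859)) .e))) .e)))) .e)) .e)) .e)) (.alt (nat_lit 10) (.cov (nat_lit 428891672749296058369)) (.alt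 (nat_lit 10) (.exp (.alt (nat_lit 11) (.exp (.alt (nat_lit 15) (.exp (.alt (nat_lit 31) (.exp (.alt (nat_lit 23) (.exp (.alt (nat_lit 29) (.exp (.alt (nat_lit 27) (.cov (nat_lit 1609478429227271323649)) (.alt (nat_lit 27) (.exp (.alt (nat_lit 26) (.cov (nat_lit 2637884413535613616128)) (.alt (nat_lit 19) (.cov (nat_lit 119537672)) .e))) .e))) .e)) .e)) .e)) .e)) (.alt (nat_lit 11) (.cov (nat_lit 6555512095391834177539)) (.alt (nat_lit 11) (.exp (.alt (nat_lit 15) (.exp (.alt (nat_lit 27) (.cov (nat_lit 1609478453416694906882)) (.alt (nat_lit 27) (.cov (nat_lit 145268344885742665729)) (.alt (nat_lit 27) (.exp (.alt (nat_lit 19) (.cov (nat_lit 21525044508603212365827)) (.alt (nat_lit 26) (.exp (.alt (nat_lit 18) (.exp (.alt (nat_lit 30) (.cov (nat_lit 433498494538064330753)) (.alt (nat_lit 24) (.cov (nat_lit 297795599)) .e))) .e)) (.alt (nat_lit 26) (.exp (.alt (nat_lit 30) (.cov (nat_lit 433498494528458326018)) (.alt (nat_lit 18) (.cov (nat_lit 1197473859)) .e))) .e)))) .e))))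 .e)) (.alt (nat_lit 8) (.cov (nat_lit 864029843)) .e))))) .e))))) .e)) .e)) .e)) .e)) (.alt (nat_lit 2) (.cov (nat_lit 10122664521358293073923)) (.alt (nat_lit 2) (.exp (.alt (nat_lit 6) (.exp (.alt (nat_lit 10) (.cov (nat_lit 45397439012581654134803)) (.alt (nat_lit 10) (.cov (nat_lit 401224573698852257803)) (.alt (nat_lit 10) (.cov (nat_lit 1388126507542006202370)) (.alt (nat_lit 10) (.cov (nat_lit 350252953569742255292417)) (.alt (nat_lit 10) (.exp (.alt (nat_lit 14) (.cov (nat_lit 6373351379291401617442)) (.alt (nat_lit 11) (.cov (nat_lit 21580388019567118516231)) (.alt (nat_lit 11) (.cov (nat_lit 431199708184696586243)) (.alt (nat_lit 11) (.exp (.alt (nat_lit 15) (.exp (.alt (nat_lit 27) (.cov (nat_lit 25590245861389298040843)) (.alt (nat_lit 27) (.exp (.alt (nat_lit 26) (.exp (.alt (nat_lit 18) (.exp (.alt (nat_lit 30) (.exp (.alt (nat_lit 31) (.cov (nat_lit 104623014874645145845763)) (.alt (nat_lit 31) (.exp (.alt (nat_lit 23) (.exp (.alt (nat_lit 29) (.cov (nat_lit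 365383883248798062870529)) (.alt (nat_lit 29) (.exp (.alt (nat_lit 28) (.cov (nat_lit 2850021970383254585344)) (.alt (nat_lit 25) (.cov (nat_lit 158167203848)) .e))) .e))) .e)) (.alt (nat_lit 31) (.cov (nat_lit 156494725712)) .e)))) .e)) .e)) .e)) (.alt (nat_lit 27) (.cov (nat_lit 6405636763626312302593)) (.alt (nat_lit 27) (.exp (.alt (nat_lit 26) (.exp (.alt (nat_lit 18) (.exp (.alt (nat_lit 22) (.exp (.alt (nat_lit 23) (.exp (.alt (nat_lit 30) (.exp (.alt (nat_lit 24) (.cov (nat_lit 102111951828815936749569)) (.alt (nat_lit 24) (.exp (.alt (nat_lit 28) (.cov (nat_lit 21538879560060244066304)) (.alt (nat_lit 16) (.cov (nat_lit 10523508744)) .e))) .e))) .e)) .e)) .e)) .e)) (.alt (nat_lit 25) (.cov (nat_lit 10249472595979812208643)) (.alt (nat_lit 25) (.exp (.alt (nat_lit 24) (.exp (.alt (nat_lit 29) (.cov (nat_lit 48422736362710499330)) (.alt (nat_lit 29) (.cov (nat_lit 48422848329036070913)) (.alt (nat_lit 29) (.exp (.alt (nat_lit 21) (.cov (nat_lit 4251974526582865788931))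 (.alt (nat_lit 28) (.exp (.alt (nat_lit 12) (.exp (.alt (nat_lit 20) (.cov (nat_lit 6396408516354930376705)) (.alt (nat_lit 20) (.exp (.alt (nat_lit 22) (.cov (nat_lit 511897159040575209472)) (.alt (nat_lit 16) (.cov (nat_lit 9950986248)) .e))) .e))) .e)) (.alt (nat_lit 21) (.cov (nat_lit 28777120336)) .e)))) .e)))) .e)) (.alt (nat_lit 19) (.cov (nat_lit 21795703955)) .e))))) .e))))) .e)) (.alt (nat_lit 11) (.cov (nat_lit 1391466587)) .e)))))) .e)))))) .e)) (.alt (nat_lit 2) (.cov (nat_lit 6298261)) .e))))))) .e)) .e)) .e)) (.alt (nat_lit 0) (.cov (nat_lit 594924549802488233985)) (.alt (nat_lit 0) (.exp (.alt (nat_lit 1) (.cov (nat_lit 758624615025276355067)) (.alt (nat_lit 1) (.exp (.alt (nat_lit 9) (.exp (.alt (nat_lit 8) (.exp (.alt (nat_lit 10) (.exp (.alt (nat_lit 12) (.exp (.alt (nat_lit 11) (.exp (.alt (nat_lit 15) (.exp (.alt (nat_lit 27) (.exp (.alt (nat_lit 17) (.cov (nat_lit 25567187431297167392779)) (.alt (nat_lit 17) (.exp (.alt (nat_lit 16) (.exp (.alt (nat_lit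 24) (.exp (.alt (nat_lit 18) (.exp (.alt (nat_lit 21) (.cov (nat_lit 404324959997195023548419)) (.alt (nat_lit 21) (.exp (.alt (nat_lit 20) (.exp (.alt (nat_lit 23) (.cov (nat_lit 365370048190742820552705)) (.alt (nat_lit 29) (.cov (nat_lit 3555721231)) .e))) .e)) (.alt (nat_lit 19) (.cov (nat_lit 4654629055)) .e)))) .e)) .e)) .e)) (.alt (nat_lit 17) (.cov (nat_lit 24017665665801483452417)) (.alt (nat_lit 17) (.exp (.alt (nat_lit 16) (.exp (.alt (nat_lit 24) (.exp (.alt (nat_lit 28) (.exp (.alt (nat_lit 20) (.exp (.alt (nat_lit 29) (.exp (.alt (nat_lit 18) (.cov (nat_lit 6396408516355486121985)) (.alt (nat_lit 18) (.exp (.alt (nat_lit 22) (.cov (nat_lit 21525044502004955611136)) (.alt (nat_lit 2) (.cov (nat_lit 19534970888)) .e))) .e))) .e)) .e)) .e)) .e)) (.alt (nat_lit 19) (.cov (nat_lit 10235637537924523753475)) (.alt (nat_lit 19) (.exp (.alt (nat_lit 23) (.exp (.alt (nat_lit 18) (.cov (nat_lit 1609478453600375013378)) (.alt (nat_lit 18) (.cov (nat_lit 404550932737442321530881))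 (.alt (nat_lit 18) (.exp (.alt (nat_lit 16) (.cov (nat_lit 26683215320213245394947)) (.alt (nat_lit 22) (.exp (.alt (nat_lit 6) (.exp (.alt (nat_lit 20) (.cov (nat_lit 64563613063857569793)) (.alt (nat_lit 20) (.exp (.alt (nat_lit 28) (.cov (nat_lit 140656434557176774656)) (.alt (nat_lit 16) (.cov (nat_lit 629145608)) .e))) .e))) .e)) (.alt (nat_lit 16) (.cov (nat_lit 13207863888)) .e)))) .e)))) .e)) (.alt (nat_lit 19) (.cov (nat_lit 320867488)) .e))))) .e))))) .e)) .e)) .e)) .e)) .e)) .e)) (.alt (nat_lit 9) (.cov (nat_lit 39210310880096944149)) .e))) (.alt (nat_lit 1) (.cov (nat_lit 1662526531548801400866)) (.alt (nat_lit 1) (.exp (.alt (nat_lit 9) (.exp (.alt (nat_lit 8) (.exp (.alt (nat_lit 10) (.exp (.alt (nat_lit 12) (.exp (.alt (nat_lit 17) (.cov (nat_lit 29120493212785905238036)) (.alt (nat_lit 17) (.cov (nat_lit 29120494661894918897675)) (.alt (nat_lit 17) (.exp (.alt (nat_lit 16) (.exp (.alt (nat_lit 24) (.exp (.alt (nat_lit 18) (.exp (.alt (nat_lit 19) (.exp (.alt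 (nat_lit 23) (.exp (.alt (nat_lit 22) (.exp (.alt (nat_lit 6) (.exp (.alt (nat_lit 20) (.exp (.alt (nat_lit 27) (.cov (nat_lit 71481142082333048833)) (.alt (nat_lit 27) (.exp (.alt (nat_lit 31) (.cov (nat_lit 142962277566381031424)) (.alt (nat_lit 11) (.cov (nat_lit 156379381768)) .e))) .e))) .e)) .e)) .e)) .e)) (.alt (nat_lit 19) (.cov (nat_lit 7800667685221961826307)) (.alt (nat_lit 19) (.exp (.alt (nat_lit 27) (.exp (.alt (nat_lit 23) (.cov (nat_lit 365370048214934918004738)) (.alt (nat_lit 23) (.cov (nat_lit 23146052372777686532097)) (.alt (nat_lit 23) (.exp (.alt (nat_lit 21) (.cov (nat_lit 29065151148914664013827)) (.alt (nat_lit 22) (.exp (.alt (nat_lit 6) (.exp (.alt (nat_lit 30) (.cov (nat_lit 6410243574566558367745)) (.alt (nat_lit 20) (.cov (nat_lit 4626317327)) .e))) .e)) (.alt (nat_lit 22) (.exp (.alt (nat_lit 30) (.cov (nat_lit 6410243574413062569986)) (.alt (nat_lit 6) (.cov (nat_lit 1222639683)) .e))) .e)))) .e)))) .e)) (.alt (nat_lit 19) (.exp (.alt (nat_lit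 23) (.cov (nat_lit 365591409387908843438082)) (.alt (nat_lit 23) (.exp (.alt (nat_lit 21) (.cov (nat_lit 26683215320398068449287)) (.alt (nat_lit 22) (.cov (nat_lit 406930563881836054839296)) .e))) .e))) .e))))) .e)) .e)) .e)) (.alt (nat_lit 17) (.cov (nat_lit 48430357993460072449)) (.alt (nat_lit 17) (.exp (.alt (nat_lit 19) (.exp (.alt (nat_lit 23) (.cov (nat_lit 224820372211531697555112628786823169)) (.alt (nat_lit 23) (.exp (.alt (nat_lit 21) (.cov (nat_lit 224820372211531692943428809381642240)) (.alt (nat_lit 21) (.cov (nat_lit 22050777117309003628551)) .e))) .e))) (.alt (nat_lit 16) (.cov (nat_lit 42104696646777765363719)) (.alt (nat_lit 16) (.cov (nat_lit 6387192216376836096003)) (.alt (nat_lit 16) (.exp (.alt (nat_lit 24) (.exp (.alt (nat_lit 18) (.cov (nat_lit 2937644141073095720971)) (.alt (nat_lit 18) (.exp (.alt (nat_lit 19) (.exp (.alt (nat_lit 23) (.exp (.alt (nat_lit 27) (.exp (.alt (nat_lit 22) (.cov (nat_lit 10177991060280376819715)) (.alt (nat_lit 22) (.exp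 (.alt (nat_lit 6) (.exp (.alt (nat_lit 30) (.cov (nat_lit 6410243574566558367745)) (.alt (nat_lit 20) (.cov (nat_lit 4626317327)) .e))) .e)) (.alt (nat_lit 22) (.exp (.alt (nat_lit 30) (.cov (nat_lit 6410243574413062569986)) (.alt (nat_lit 6) (.cov (nat_lit 1222639683)) .e))) .e)))) .e)) .e)) .e)) (.alt (nat_lit 18) (.cov (nat_lit 344340764810953334194177)) (.alt (nat_lit 18) (.exp (.alt (nat_lit 19) (.exp (.alt (nat_lit 23) (.exp (.alt (nat_lit 22) (.exp (.alt (nat_lit 6) (.exp (.alt (nat_lit 20) (.exp (.alt (nat_lit 27) (.cov (nat_lit 71481142082333048833)) (.alt (nat_lit 27) (.exp (.alt (nat_lit 31) (.cov (nat_lit 142962277566381031424)) (.alt (nat_lit 11) (.cov (nat_lit 156379381768)) .e))) .e))) .e)) .e)) .e)) .e)) (.alt (nat_lit 19) (.cov (nat_lit 7800667685221961826307)) (.alt (nat_lit 19) (.exp (.alt (nat_lit 27) (.exp (.alt (nat_lit 23) (.cov (nat_lit 365370048214934918004738)) (.alt (nat_lit 23) (.cov (nat_lit 23146052372777686532097)) (.alt (nat_lit 23) (.exp (.alt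 (nat_lit 21) (.cov (nat_lit 29065151148914664013827)) (.alt (nat_lit 22) (.exp (.alt (nat_lit 6) (.exp (.alt (nat_lit 30) (.cov (nat_lit 6410243574566558367745)) (.alt (nat_lit 20) (.cov (nat_lit 4626317327)) .e))) .e)) (.alt (nat_lit 22) (.exp (.alt (nat_lit 30) (.cov (nat_lit 6410243574413062569986)) (.alt (nat_lit 6) (.cov (nat_lit 1222639683)) .e))) .e)))) .e)))) .e)) (.alt (nat_lit 2) (.cov (nat_lit 2355104915)) .e))))) .e))))) .e)) (.alt (nat_lit 16) (.cov (nat_lit 18878660)) .e)))))) .e)))))) .e)) .e)) .e)) .e)) (.alt (nat_lit 1) (.cov (nat_lit 1367378949625263161347)) (.alt (nat_lit 2) (.exp (.alt (nat_lit 6) (.exp (.alt (nat_lit 10) (.cov (nat_lit 401217800716955943129)) (.alt (nat_lit 10) (.cov (nat_lit 6553214850382616854548)) (.alt (nat_lit 10) (.cov (nat_lit 59962897962847174667)) (.alt (nat_lit 10) (.exp (.alt (nat_lit 11) (.exp (.alt (nat_lit 15) (.exp (.alt (nat_lit 9) (.exp (.alt (nat_lit 26) (.cov (nat_lit 1987637458993558847522)) (.alt (nat_lit 14) (.cov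 (nat_lit 1471131136224544161799)) (.alt (nat_lit 14) (.cov (nat_lit 2873087454988401115139)) (.alt (nat_lit 14) (.cov (nat_lit 69186269999538372608)) (.alt (nat_lit 14) (.cov (nat_lit 199235676)) .e)))))) .e)) .e)) .e)) (.alt (nat_lit 10) (.cov (nat_lit 6405648134775561519105)) (.alt (nat_lit 10) (.exp (.alt (nat_lit 11) (.cov (nat_lit 1496495409474825093158)) (.alt (nat_lit 11) (.cov (nat_lit 7620819580905132654626)) (.alt (nat_lit 11) (.cov (nat_lit 62268740972498124807)) (.alt (nat_lit 11) (.cov (nat_lit 1464224023959894491139)) (.alt (nat_lit 11) (.exp (.alt (nat_lit 15) (.exp (.alt (nat_lit 9) (.cov (nat_lit 21575774884403570802706)) (.alt (nat_lit 9) (.cov (nat_lit 404530184891464978268171)) (.alt (nat_lit 9) (.cov (nat_lit 647950903829838430210)) (.alt (nat_lit 9) (.cov (nat_lit 57657054953470951425)) (.alt (nat_lit 9) (.exp (.alt (nat_lit 25) (.cov (nat_lit 10249472595968605028386)) (.alt (nat_lit 8) (.cov (nat_lit 645639338935302750215)) (.alt (nat_lit 8) (.cov (nat_lit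 6401027259222791815171)) (.alt (nat_lit 8) (.cov (nat_lit 55351211944256208896)) (.alt (nat_lit 1) (.cov (nat_lit 51386463)) .e)))))) .e)))))) .e)) (.alt (nat_lit 11) (.cov (nat_lit 2968526367)) .e))))))) .e))))))) .e)) (.alt (nat_lit 2) (.cov (nat_lit 10378813536)) .e)))))))) .e)))))))) .e)) .e)) .e)),
      .cov (nat_lit 16140907846584770811)])]) (by decide +kernel)
  exact h _ List.mem_cons_self

theorem t7_23 : GF FULL [0, 7] [23, 1] := by
  have h := JT.chkW_ok (zs := [0, 7]) good (by decide) (by decide)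
    (L := [([23, 1], [.rot (.exp (.alt (nat_lit 7) (.exp (.alt (nat_lit 0) (.cov (nat_lit 36904467870635787271)) (.alt (nat_lit 0) (.cov (nat_lit 4621126425280250363)) (.alt (nat_lit 0) (.exp (.alt (nat_lit 1) (.exp (.alt (nat_lit 3) (.exp (.alt (nat_lit 2) (.exp (.alt (nat_lit 11) (.exp (.alt (nat_lit 5) (.exp (.alt (nat_lit 4) (.exp (.alt (nat_lit 13) (.exp (.alt (nat_lit 8) (.cov (nat_lit 2684003109907185270802)) (.alt (nat_lit 8) (.cov (nat_lit 102296424144789879914507)) (.alt (nat_lit 8) (.cov (nat_lit 645645060958062641154)) (.alt (nat_lit 8) (.cov (nat_lit 55351211944289763329)) (.alt (nat_lit 8) (.exp (.alt (nat_lit 24) (.cov (nat_lit 29136632684438511157282)) (.alt (nat_lit 10) (.cov (nat_lit 1830842645808582492167)) (.alt (nat_lit 10) (.cov (nat_lit 59958983867418804227)) (.alt (nat_lit 10) (.cov (nat_lit 59962897962685693952)) (.alt (nat_lit 9) (.cov (nat_lit 9790560351)) .e)))))) .e)))))) .e)) .e)) .e)) .e)) .e)) .e)) (.alt (nat_lit 1) (.exp (.alt (nat_lit 3) (.exp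 (.alt (nat_lit 2) (.exp (.alt (nat_lit 11) (.exp (.alt (nat_lit 9) (.exp (.alt (nat_lit 8) (.exp (.alt (nat_lit 13) (.exp (.alt (nat_lit 4) (.cov (nat_lit 41643526593579036180498)) (.alt (nat_lit 4) (.cov (nat_lit 6668502866676842233867)) (.alt (nat_lit 4) (.cov (nat_lit 46125878562502213634)) (.alt (nat_lit 4) (.cov (nat_lit 46127839907434987521)) (.alt (nat_lit 4) (.exp (.alt (nat_lit 20) (.cov (nat_lit 1983025407937275232290)) (.alt (nat_lit 6) (.cov (nat_lit 124518818843748990983)) (.alt (nat_lit 6) (.cov (nat_lit 50735611685072011267)) (.alt (nat_lit 6) (.cov (nat_lit 50739525925830918144)) (.alt (nat_lit 5) (.cov (nat_lit 626006111)) .e)))))) .e)))))) .e)) .e)) .e)) .e)) .e)) .e)) .e))) (.alt (nat_lit 0) (.cov (nat_lit 2320809562103349282)) (.alt (nat_lit 0) (.exp (.alt (nat_lit 1) (.exp (.alt (nat_lit 3) (.exp (.alt (nat_lit 2) (.exp (.alt (nat_lit 11) (.exp (.alt (nat_lit 4) (.cov (nat_lit 45614191290097646698713)) (.alt (nat_lit 4) (.cov (nat_lit 343874988666052142956562))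 (.alt (nat_lit 4) (.cov (nat_lit 1503421798208073891851)) (.alt (nat_lit 4) (.exp (.alt (nat_lit 5) (.exp (.alt (nat_lit 13) (.exp (.alt (nat_lit 21) (.exp (.alt (nat_lit 20) (.cov (nat_lit 63373790611032057577506)) (.alt (nat_lit 6) (.cov (nat_lit 3869207865797065572359)) (.alt (nat_lit 6) (.cov (nat_lit 2854640710868992524291)) (.alt (nat_lit 6) (.exp (.alt (nat_lit 14) (.exp (.alt (nat_lit 22) (.cov (nat_lit 4247363058267144060939)) (.alt (nat_lit 22) (.exp (.alt (nat_lit 18) (.exp (.alt (nat_lit 16) (.exp (.alt (nat_lit 19) (.exp (.alt (nat_lit 30) (.cov (nat_lit 29058233619703223287811)) (.alt (nat_lit 30) (.exp (.alt (nat_lit 26) (.exp (.alt (nat_lit 28) (.cov (nat_lit 1616395958411281301505)) (.alt (nat_lit 31) (.cov (nat_lit 47577038863)) .e))) .e)) (.alt (nat_lit 20) (.cov (nat_lit 10028581055)) .e)))) .e)) .e)) .e)) (.alt (nat_lit 22) (.cov (nat_lit 25451900046119735918593)) (.alt (nat_lit 22) (.exp (.alt (nat_lit 18) (.exp (.alt (nat_lit 16) (.exp (.alt (nat_lit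 24) (.exp (.alt (nat_lit 8) (.exp (.alt (nat_lit 25) (.exp (.alt (nat_lit 26) (.cov (nat_lit 2866162869248779616257)) (.alt (nat_lit 19) (.cov (nat_lit 632291343)) .e))) .e)) .e)) .e)) .e)) (.alt (nat_lit 20) (.cov (nat_lit 22053082960133261099011)) (.alt (nat_lit 20) (.exp (.alt (nat_lit 16) (.exp (.alt (nat_lit 28) (.cov (nat_lit 25449589325860758880258)) (.alt (nat_lit 28) (.cov (nat_lit 10237943103845376720897)) (.alt (nat_lit 28) (.exp (.alt (nat_lit 30) (.cov (nat_lit 404338795055251582877699)) (.alt (nat_lit 24) (.exp (.alt (nat_lit 8) (.exp (.alt (nat_lit 26) (.cov (nat_lit 1611784272236483969025)) (.alt (nat_lit 26) (.exp (.alt (nat_lit 27) (.cov (nat_lit 1621007646472363048960)) (.alt (nat_lit 18) (.cov (nat_lit 120586248)) .e))) .e))) .e)) (.alt (nat_lit 30) (.cov (nat_lit 183939105360)) .e)))) .e)))) .e)) (.alt (nat_lit 20) (.cov (nat_lit 166144773266)) .e))))) .e))))) .e)) (.alt (nat_lit 6) (.cov (nat_lit 316676187)) .e)))))) .e)) .e)) .e)) (.alt (nat_lit 4) (.cov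 (nat_lit 1374295084472767348737)) (.alt (nat_lit 4) (.exp (.alt (nat_lit 5) (.cov (nat_lit 10138795007849098379302)) (.alt (nat_lit 5) (.cov (nat_lit 102077371240342793224226)) (.alt (nat_lit 5) (.cov (nat_lit 48433682916616175623)) (.alt (nat_lit 5) (.cov (nat_lit 1376601996207284289539)) (.alt (nat_lit 5) (.exp (.alt (nat_lit 13) (.exp (.alt (nat_lit 21) (.cov (nat_lit 6707699161028700930068)) (.alt (nat_lit 21) (.cov (nat_lit 804742506551631151115)) (.alt (nat_lit 21) (.exp (.alt (nat_lit 17) (.exp (.alt (nat_lit 16) (.exp (.alt (nat_lit 19) (.exp (.alt (nat_lit 20) (.exp (.alt (nat_lit 22) (.exp (.alt (nat_lit 30) (.exp (.alt (nat_lit 14) (.exp (.alt (nat_lit 31) (.exp (.alt (nat_lit 28) (.cov (nat_lit 55340241017838239745)) (.alt (nat_lit 28) (.exp (.alt (nat_lit 24) (.cov (nat_lit 650247739593386360832)) (.alt (nat_lit 12) (.cov (nat_lit 156372041736)) .e))) .e))) .e)) .e)) .e)) .e)) (.alt (nat_lit 20) (.cov (nat_lit 47952311639624329986051)) (.alt (nat_lit 20) (.exp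 (.alt (nat_lit 22) (.exp (.alt (nat_lit 28) (.cov (nat_lit 1616395982444865519618)) (.alt (nat_lit 28) (.cov (nat_lit 1985330978268165177345)) (.alt (nat_lit 28) (.exp (.alt (nat_lit 12) (.cov (nat_lit 22758670518687717392387)) (.alt (nat_lit 24) (.exp (.alt (nat_lit 8) (.exp (.alt (nat_lit 26) (.cov (nat_lit 102116563514833805246465)) (.alt (nat_lit 25) (.cov (nat_lit 47574941711)) .e))) .e)) (.alt (nat_lit 24) (.exp (.alt (nat_lit 26) (.cov (nat_lit 1611784272237180223490)) (.alt (nat_lit 8) (.cov (nat_lit 10345250883)) .e))) .e)))) .e)))) .e)) (.alt (nat_lit 20) (.exp (.alt (nat_lit 28) (.cov (nat_lit 347638115700578124300290)) (.alt (nat_lit 22) (.cov (nat_lit 11641292968)) .e))) .e))))) .e)) .e)) .e)) (.alt (nat_lit 21) (.cov (nat_lit 6707710334219956781057)) (.alt (nat_lit 21) (.exp (.alt (nat_lit 20) (.cov (nat_lit 63373790611032057577506)) (.alt (nat_lit 17) (.cov (nat_lit 795519134514604408839)) (.alt (nat_lit 17) (.cov (nat_lit 5370315475702479060995)) (.alt (nat_lit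 17) (.exp (.alt (nat_lit 16) (.exp (.alt (nat_lit 19) (.cov (nat_lit 22989254949195819778059)) (.alt (nat_lit 19) (.cov (nat_lit 63350732682317295255554)) (.alt (nat_lit 19) (.cov (nat_lit 800130820533634727937)) (.alt (nat_lit 19) (.exp (.alt (nat_lit 18) (.exp (.alt (nat_lit 22) (.exp (.alt (nat_lit 30) (.exp (.alt (nat_lit 14) (.exp (.alt (nat_lit 31) (.exp (.alt (nat_lit 26) (.cov (nat_lit 424275122491456749569)) (.alt (nat_lit 26) (.exp (.alt (nat_lit 24) (.cov (nat_lit 6557817529198870265856)) (.alt (nat_lit 10) (.cov (nat_lit 10343153672)) .e))) .e))) .e)) .e)) .e)) .e)) (.alt (nat_lit 18) (.cov (nat_lit 406847552651698938839043)) (.alt (nat_lit 18) (.exp (.alt (nat_lit 22) (.exp (.alt (nat_lit 26) (.cov (nat_lit 1611784296426436034562)) (.alt (nat_lit 26) (.cov (nat_lit 22050776844445157425153)) (.alt (nat_lit 26) (.exp (.alt (nat_lit 10) (.cov (nat_lit 343879591353823591923715)) (.alt (nat_lit 24) (.exp (.alt (nat_lit 8) (.exp (.alt (nat_lit 28) (.cov (nat_lit 102116563514834377768961))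 (.alt (nat_lit 25) (.cov (nat_lit 4627365903)) .e))) .e)) (.alt (nat_lit 24) (.exp (.alt (nat_lit 28) (.cov (nat_lit 1616395958255609708546)) (.alt (nat_lit 8) (.cov (nat_lit 156376236099)) .e))) .e)))) .e)))) .e)) (.alt (nat_lit 18) (.exp (.alt (nat_lit 26) (.cov (nat_lit 26512583179423990153218)) (.alt (nat_lit 22) (.cov (nat_lit 11641292968)) .e))) .e))))) .e))))) .e)) (.alt (nat_lit 17) (.cov (nat_lit 620763563)) .e)))))) .e)))))) .e)) (.alt (nat_lit 5) (.cov (nat_lit 11556363807)) .e))))))) .e))))))) .e)) .e)) .e)) .e)) (.alt (nat_lit 0) (.cov (nat_lit 22818640644683459461123)) (.alt (nat_lit 0) (.exp (.alt (nat_lit 1) (.exp (.alt (nat_lit 2) (.cov (nat_lit 26650942518842829570275)) (.alt (nat_lit 2) (.cov (nat_lit 23064114567875395801)) (.alt (nat_lit 2) (.exp (.alt (nat_lit 3) (.exp (.alt (nat_lit 11) (.exp (.alt (nat_lit 19) (.exp (.alt (nat_lit 17) (.exp (.alt (nat_lit 16) (.exp (.alt (nat_lit 21) (.exp (.alt (nat_lit 10) (.cov (nat_lit 3057549176020221820962)) (.alt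 (nat_lit 18) (.cov (nat_lit 4256589491357553262599)) (.alt (nat_lit 18) (.cov (nat_lit 25590252781734243336195)) (.alt (nat_lit 18) (.exp (.alt (nat_lit 22) (.exp (.alt (nat_lit 26) (.cov (nat_lit 46688709485900800720907)) (.alt (nat_lit 26) (.exp (.alt (nat_lit 24) (.exp (.alt (nat_lit 8) (.exp (.alt (nat_lit 25) (.exp (.alt (nat_lit 30) (.cov (nat_lit 345387612681849371885571)) (.alt (nat_lit 30) (.exp (.alt (nat_lit 28) (.exp (.alt (nat_lit 14) (.cov (nat_lit 404313430773362608570369)) (.alt (nat_lit 31) (.cov (nat_lit 284164111)) .e))) .e)) (.alt (nat_lit 10) (.cov (nat_lit 853541055)) .e)))) .e)) .e)) .e)) (.alt (nat_lit 26) (.cov (nat_lit 3906102968183316021249)) (.alt (nat_lit 26) (.exp (.alt (nat_lit 24) (.exp (.alt (nat_lit 8) (.exp (.alt (nat_lit 12) (.exp (.alt (nat_lit 4) (.exp (.alt (nat_lit 13) (.exp (.alt (nat_lit 28) (.cov (nat_lit 1616395958411287592961)) (.alt (nat_lit 25) (.cov (nat_lit 13217300495)) .e))) .e)) .e)) .e)) .e)) (.alt (nat_lit 10) (.cov (nat_lit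 1876956629669760729091)) (.alt (nat_lit 10) (.exp (.alt (nat_lit 8) (.exp (.alt (nat_lit 14) (.cov (nat_lit 26524112168136610938882)) (.alt (nat_lit 14) (.cov (nat_lit 544179093267322765313)) (.alt (nat_lit 14) (.exp (.alt (nat_lit 30) (.cov (nat_lit 43008583825446742786051)) (.alt (nat_lit 12) (.exp (.alt (nat_lit 4) (.exp (.alt (nat_lit 28) (.cov (nat_lit 404345712575481848528897)) (.alt (nat_lit 28) (.exp (.alt (nat_lit 29) (.cov (nat_lit 41687335774569515450368)) (.alt (nat_lit 24) (.cov (nat_lit 21803040776)) .e))) .e))) .e)) (.alt (nat_lit 30) (.cov (nat_lit 37341889104)) .e)))) .e)))) .e)) (.alt (nat_lit 10) (.cov (nat_lit 20745030802)) .e))))) .e))))) .e)) (.alt (nat_lit 18) (.cov (nat_lit 4049606747)) .e)))))) .e)) .e)) .e)) .e)) .e)) .e)) (.alt (nat_lit 2) (.cov (nat_lit 115308405640600223755)) (.alt (nat_lit 2) (.exp (.alt (nat_lit 3) (.exp (.alt (nat_lit 11) (.exp (.alt (nat_lit 19) (.exp (.alt (nat_lit 6) (.exp (.alt (nat_lit 4) (.cov (nat_lit 598338332392269535678164243578882))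 (.alt (nat_lit 4) (.cov (nat_lit 29030566782349508345876)) .e))) (.alt (nat_lit 6) (.exp (.alt (nat_lit 4) (.cov (nat_lit 135882018817014809819491804708339713)) (.alt (nat_lit 4) (.cov (nat_lit 27776191967655580663819)) .e))) (.alt (nat_lit 6) (.exp (.alt (nat_lit 4) (.exp (.alt (nat_lit 5) (.exp (.alt (nat_lit 13) (.exp (.alt (nat_lit 21) (.exp (.alt (nat_lit 14) (.cov (nat_lit 5192758709637112397835)) (.alt (nat_lit 14) (.exp (.alt (nat_lit 10) (.exp (.alt (nat_lit 8) (.exp (.alt (nat_lit 26) (.exp (.alt (nat_lit 30) (.cov (nat_lit 21905508605132075433987)) (.alt (nat_lit 30) (.exp (.alt (nat_lit 22) (.exp (.alt (nat_lit 28) (.cov (nat_lit 1616395958264681988097)) (.alt (nat_lit 31) (.cov (nat_lit 2983198735)) .e))) .e)) (.alt (nat_lit 30) (.exp (.alt (nat_lit 28) (.cov (nat_lit 1616395958255618097154)) (.alt (nat_lit 22) (.cov (nat_lit 658505795)) .e))) .e)))) .e)) .e)) .e)) (.alt (nat_lit 14) (.cov (nat_lit 1618706665504164020225)) (.alt (nat_lit 14) (.exp (.alt (nat_lit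 10) (.exp (.alt (nat_lit 8) (.exp (.alt (nat_lit 24) (.exp (.alt (nat_lit 16) (.exp (.alt (nat_lit 25) (.exp (.alt (nat_lit 26) (.cov (nat_lit 69175299073126694913)) (.alt (nat_lit 26) (.exp (.alt (nat_lit 30) (.cov (nat_lit 21543491246078688231424)) (.alt (nat_lit 18) (.cov (nat_lit 9787408392)) .e))) .e))) .e)) .e)) .e)) .e)) (.alt (nat_lit 10) (.cov (nat_lit 3011431390092940279811)) (.alt (nat_lit 10) (.exp (.alt (nat_lit 8) (.exp (.alt (nat_lit 26) (.cov (nat_lit 69175323262483169282)) (.alt (nat_lit 26) (.cov (nat_lit 424275349000603828225)) (.alt (nat_lit 26) (.exp (.alt (nat_lit 18) (.cov (nat_lit 1438846055351318478851)) (.alt (nat_lit 30) (.exp (.alt (nat_lit 22) (.exp (.alt (nat_lit 28) (.cov (nat_lit 1616395958264681988097)) (.alt (nat_lit 31) (.cov (nat_lit 2983198735)) .e))) .e)) (.alt (nat_lit 30) (.exp (.alt (nat_lit 28) (.cov (nat_lit 1616395958255618097154)) (.alt (nat_lit 22) (.cov (nat_lit 658505795)) .e))) .e)))) .e)))) .e)) (.alt (nat_lit 15) (.cov (nat_lit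 334498963)) .e))))) .e))))) .e)) .e)) .e)) .e)) (.alt (nat_lit 6) (.cov (nat_lit 29007518766818350071811)) (.alt (nat_lit 6) (.exp (.alt (nat_lit 4) (.exp (.alt (nat_lit 14) (.cov (nat_lit 26524113982165962719251)) (.alt (nat_lit 14) (.cov (nat_lit 175251958805578121227)) (.alt (nat_lit 14) (.cov (nat_lit 142971282566777143298)) (.alt (nat_lit 14) (.cov (nat_lit 406930574736215454515201)) (.alt (nat_lit 14) (.exp (.alt (nat_lit 12) (.cov (nat_lit 2833882360146768691234)) (.alt (nat_lit 10) (.cov (nat_lit 1494189566316293128199)) (.alt (nat_lit 10) (.cov (nat_lit 1609485485893490835459)) (.alt (nat_lit 10) (.exp (.alt (nat_lit 8) (.exp (.alt (nat_lit 26) (.cov (nat_lit 807045198361051267083)) (.alt (nat_lit 26) (.exp (.alt (nat_lit 30) (.exp (.alt (nat_lit 22) (.exp (.alt (nat_lit 28) (.exp (.alt (nat_lit 24) (.cov (nat_lit 47945393708173145145347)) (.alt (nat_lit 24) (.exp (.alt (nat_lit 16) (.exp (.alt (nat_lit 25) (.cov (nat_lit 365386189091807882641409)) (.alt (nat_lit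 25) (.exp (.alt (nat_lit 29) (.cov (nat_lit 25283568607023284092928)) (.alt (nat_lit 27) (.cov (nat_lit 12145655816)) .e))) .e))) .e)) (.alt (nat_lit 24) (.cov (nat_lit 166154207824)) .e)))) .e)) .e)) .e)) (.alt (nat_lit 26) (.cov (nat_lit 2873085273511536099329)) (.alt (nat_lit 26) (.exp (.alt (nat_lit 30) (.exp (.alt (nat_lit 22) (.exp (.alt (nat_lit 20) (.exp (.alt (nat_lit 16) (.exp (.alt (nat_lit 28) (.exp (.alt (nat_lit 31) (.cov (nat_lit 45445859877388844793857)) (.alt (nat_lit 31) (.exp (.alt (nat_lit 29) (.cov (nat_lit 22857821761330478055424)) (.alt (nat_lit 23) (.cov (nat_lit 28778168328)) .e))) .e))) .e)) .e)) .e)) .e)) (.alt (nat_lit 27) (.cov (nat_lit 350250635990548830224387)) (.alt (nat_lit 27) (.exp (.alt (nat_lit 31) (.exp (.alt (nat_lit 25) (.cov (nat_lit 408134245662608850946)) (.alt (nat_lit 25) (.cov (nat_lit 408134357766972112897)) (.alt (nat_lit 25) (.exp (.alt (nat_lit 17) (.cov (nat_lit 23143746301070753660931)) (.alt (nat_lit 29) (.exp (.alt (nat_lit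 13) (.exp (.alt (nat_lit 21) (.cov (nat_lit 2850021968184242864129)) (.alt (nat_lit 21) (.exp (.alt (nat_lit 20) (.cov (nat_lit 21757934645935555477504)) (.alt (nat_lit 23) (.cov (nat_lit 11565793288)) .e))) .e))) .e)) (.alt (nat_lit 17) (.cov (nat_lit 19114492496)) .e)))) .e)))) .e)) (.alt (nat_lit 18) (.cov (nat_lit 13209963667)) .e))))) .e))))) .e)) (.alt (nat_lit 10) (.cov (nat_lit 847255643)) .e)))))) .e)))))) .e)) (.alt (nat_lit 6) (.cov (nat_lit 37755541)) .e))))))) .e)) .e)) .e)) (.alt (nat_lit 2) (.cov (nat_lit 1342017684787727171585)) (.alt (nat_lit 2) (.exp (.alt (nat_lit 3) (.cov (nat_lit 22013885473957713281531)) (.alt (nat_lit 3) (.exp (.alt (nat_lit 11) (.exp (.alt (nat_lit 15) (.exp (.alt (nat_lit 14) (.exp (.alt (nat_lit 13) (.exp (.alt (nat_lit 10) (.exp (.alt (nat_lit 8) (.exp (.alt (nat_lit 26) (.exp (.alt (nat_lit 19) (.cov (nat_lit 790904297296564846603)) (.alt (nat_lit 19) (.exp (.alt (nat_lit 23) (.exp (.alt (nat_lit 31) (.exp (.alt (nat_lit 22) (.exp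 (.alt (nat_lit 17) (.cov (nat_lit 7648481279154639077379)) (.alt (nat_lit 17) (.exp (.alt (nat_lit 21) (.exp (.alt (nat_lit 16) (.cov (nat_lit 365365436504724352270337)) (.alt (nat_lit 25) (.cov (nat_lit 158167203855)) .e))) .e)) (.alt (nat_lit 18) (.cov (nat_lit 159266111679)) .e)))) .e)) .e)) .e)) (.alt (nat_lit 19) (.cov (nat_lit 348187176223517966337)) (.alt (nat_lit 19) (.exp (.alt (nat_lit 23) (.exp (.alt (nat_lit 31) (.exp (.alt (nat_lit 29) (.exp (.alt (nat_lit 21) (.exp (.alt (nat_lit 25) (.exp (.alt (nat_lit 22) (.cov (nat_lit 2850021968184258592769)) (.alt (nat_lit 22) (.exp (.alt (nat_lit 20) (.cov (nat_lit 22837069174247545372672)) (.alt (nat_lit 6) (.cov (nat_lit 10942939144)) .e))) .e))) .e)) .e)) .e)) .e)) (.alt (nat_lit 18) (.cov (nat_lit 350229883403465897541635)) (.alt (nat_lit 18) (.exp (.alt (nat_lit 16) (.exp (.alt (nat_lit 22) (.cov (nat_lit 69175323308186402818)) (.alt (nat_lit 22) (.cov (nat_lit 7867536490373666832385)) (.alt (nat_lit 22) (.exp (.alt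 (nat_lit 23) (.cov (nat_lit 7796055231743784910851)) (.alt (nat_lit 20) (.exp (.alt (nat_lit 4) (.exp (.alt (nat_lit 21) (.cov (nat_lit 435804337547269636097)) (.alt (nat_lit 21) (.exp (.alt (nat_lit 29) (.cov (nat_lit 426580967699682164736)) (.alt (nat_lit 23) (.cov (nat_lit 66060296)) .e))) .e))) .e)) (.alt (nat_lit 23) (.cov (nat_lit 47568650832)) .e)))) .e)))) .e)) (.alt (nat_lit 18) (.cov (nat_lit 9988738208)) .e))))) .e))))) .e)) .e)) .e)) .e)) .e)) .e)) (.alt (nat_lit 11) (.cov (nat_lit 43821996901204492309)) .e))) (.alt (nat_lit 3) (.cov (nat_lit 6389504700436305674274)) (.alt (nat_lit 3) (.exp (.alt (nat_lit 11) (.exp (.alt (nat_lit 15) (.exp (.alt (nat_lit 14) (.exp (.alt (nat_lit 13) (.exp (.alt (nat_lit 19) (.cov (nat_lit 104669133566620426305556)) (.alt (nat_lit 19) (.cov (nat_lit 104669135015775073992715)) (.alt (nat_lit 19) (.exp (.alt (nat_lit 23) (.exp (.alt (nat_lit 31) (.exp (.alt (nat_lit 22) (.exp (.alt (nat_lit 18) (.exp (.alt (nat_lit 16) (.exp (.alt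 (nat_lit 20) (.exp (.alt (nat_lit 4) (.exp (.alt (nat_lit 21) (.exp (.alt (nat_lit 26) (.cov (nat_lit 424275122491456749569)) (.alt (nat_lit 26) (.exp (.alt (nat_lit 24) (.cov (nat_lit 433498496727299129344)) (.alt (nat_lit 10) (.cov (nat_lit 10343153672)) .e))) .e))) .e)) .e)) .e)) .e)) (.alt (nat_lit 18) (.cov (nat_lit 347794913550771215663107)) (.alt (nat_lit 18) (.exp (.alt (nat_lit 26) (.exp (.alt (nat_lit 16) (.cov (nat_lit 4104400589387016962050)) (.alt (nat_lit 16) (.cov (nat_lit 63281555791151843246081)) (.alt (nat_lit 16) (.exp (.alt (nat_lit 17) (.cov (nat_lit 104613791502654694752259)) (.alt (nat_lit 20) (.exp (.alt (nat_lit 4) (.exp (.alt (nat_lit 28) (.cov (nat_lit 2870774555423530811393)) (.alt (nat_lit 21) (.cov (nat_lit 47577038863)) .e))) .e)) (.alt (nat_lit 20) (.exp (.alt (nat_lit 28) (.cov (nat_lit 2870774555268429643778)) (.alt (nat_lit 4) (.cov (nat_lit 683671619)) .e))) .e)))) .e)))) .e)) (.alt (nat_lit 18) (.exp (.alt (nat_lit 16) (.cov (nat_lit 4325761762361845219330))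 (.alt (nat_lit 16) (.exp (.alt (nat_lit 17) (.cov (nat_lit 7796055231748308467719)) (.alt (nat_lit 20) (.cov (nat_lit 10247167634767427403776)) .e))) .e))) .e))))) .e)) .e)) .e)) (.alt (nat_lit 19) (.cov (nat_lit 1367372559264295944193)) (.alt (nat_lit 19) (.exp (.alt (nat_lit 18) (.exp (.alt (nat_lit 16) (.cov (nat_lit 100225530015997238544999942947078145)) (.alt (nat_lit 16) (.exp (.alt (nat_lit 17) (.cov (nat_lit 100225530015997240850845150584242176)) (.alt (nat_lit 17) (.cov (nat_lit 1978413721923410198535)) .e))) .e))) (.alt (nat_lit 23) (.cov (nat_lit 23217536558310553026567)) (.alt (nat_lit 23) (.cov (nat_lit 2854640726262061989891)) (.alt (nat_lit 23) (.exp (.alt (nat_lit 31) (.exp (.alt (nat_lit 22) (.cov (nat_lit 1766275892395221450763)) (.alt (nat_lit 22) (.exp (.alt (nat_lit 18) (.exp (.alt (nat_lit 16) (.exp (.alt (nat_lit 26) (.exp (.alt (nat_lit 20) (.cov (nat_lit 350183766141013844819971)) (.alt (nat_lit 20) (.exp (.alt (nat_lit 4) (.exp (.alt (nat_lit 28)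 (.cov (nat_lit 2870774555423530811393)) (.alt (nat_lit 21) (.cov (nat_lit 47577038863)) .e))) .e)) (.alt (nat_lit 20) (.exp (.alt (nat_lit 28) (.cov (nat_lit 2870774555268429643778)) (.alt (nat_lit 4) (.cov (nat_lit 683671619)) .e))) .e)))) .e)) .e)) .e)) (.alt (nat_lit 22) (.cov (nat_lit 365586802297848918441985)) (.alt (nat_lit 22) (.exp (.alt (nat_lit 18) (.exp (.alt (nat_lit 16) (.exp (.alt (nat_lit 20) (.exp (.alt (nat_lit 4) (.exp (.alt (nat_lit 21) (.exp (.alt (nat_lit 26) (.cov (nat_lit 424275122491456749569)) (.alt (nat_lit 26) (.exp (.alt (nat_lit 24) (.cov (nat_lit 433498496727299129344)) (.alt (nat_lit 10) (.cov (nat_lit 10343153672)) .e))) .e))) .e)) .e)) .e)) .e)) (.alt (nat_lit 18) (.cov (nat_lit 347794913550771215663107)) (.alt (nat_lit 18) (.exp (.alt (nat_lit 26) (.exp (.alt (nat_lit 16) (.cov (nat_lit 4104400589387016962050)) (.alt (nat_lit 16) (.cov (nat_lit 63281555791151843246081)) (.alt (nat_lit 16) (.exp (.alt (nat_lit 17) (.cov (nat_lit 104613791502654694752259))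 (.alt (nat_lit 20) (.exp (.alt (nat_lit 4) (.exp (.alt (nat_lit 28) (.cov (nat_lit 2870774555423530811393)) (.alt (nat_lit 21) (.cov (nat_lit 47577038863)) .e))) .e)) (.alt (nat_lit 20) (.exp (.alt (nat_lit 28) (.cov (nat_lit 2870774555268429643778)) (.alt (nat_lit 4) (.cov (nat_lit 683671619)) .e))) .e)))) .e)))) .e)) (.alt (nat_lit 6) (.cov (nat_lit 156971830419)) .e))))) .e))))) .e)) (.alt (nat_lit 23) (.cov (nat_lit 627052740)) .e)))))) .e)))))) .e)) .e)) .e)) .e)) (.alt (nat_lit 3) (.cov (nat_lit 117612038632047116291)) (.alt (nat_lit 6) (.exp (.alt (nat_lit 4) (.exp (.alt (nat_lit 14) (.cov (nat_lit 175245185815628742873)) (.alt (nat_lit 14) (.cov (nat_lit 25451904153906649759764)) (.alt (nat_lit 14) (.cov (nat_lit 69186270000246161419)) (.alt (nat_lit 14) (.exp (.alt (nat_lit 10) (.exp (.alt (nat_lit 8) (.exp (.alt (nat_lit 11) (.exp (.alt (nat_lit 30) (.cov (nat_lit 6705392255844747313186)) (.alt (nat_lit 12) (.cov (nat_lit 285927829480116584455)) (.alt (nat_lit 12)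 (.cov (nat_lit 25299716562575019737091)) (.alt (nat_lit 12) (.cov (nat_lit 64574583981112033280)) (.alt (nat_lit 12) (.cov (nat_lit 734009436)) .e)))))) .e)) .e)) .e)) (.alt (nat_lit 14) (.cov (nat_lit 25304337438291599032321)) (.alt (nat_lit 14) (.exp (.alt (nat_lit 10) (.cov (nat_lit 320515474801609932838)) (.alt (nat_lit 10) (.cov (nat_lit 347635818033537477509154)) (.alt (nat_lit 10) (.cov (nat_lit 59962897962716102663)) (.alt (nat_lit 10) (.cov (nat_lit 21531975733146574389251)) (.alt (nat_lit 10) (.exp (.alt (nat_lit 8) (.exp (.alt (nat_lit 11) (.cov (nat_lit 24001521730085104648210)) (.alt (nat_lit 11) (.cov (nat_lit 7842176958366653349899)) (.alt (nat_lit 11) (.cov (nat_lit 6555520693409548337154)) (.alt (nat_lit 11) (.cov (nat_lit 62268740972498124801)) (.alt (nat_lit 11) (.exp (.alt (nat_lit 27) (.cov (nat_lit 350250635990555876655138)) (.alt (nat_lit 15) (.cov (nat_lit 21912429413050642071559)) (.alt (nat_lit 15) (.cov (nat_lit 2875393297997615857667)) (.alt (nat_lit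 15) (.cov (nat_lit 71492113008753115136)) (.alt (nat_lit 3) (.cov (nat_lit 19929183)) .e)))))) .e)))))) .e)) (.alt (nat_lit 10) (.cov (nat_lit 1350573599)) .e))))))) .e))))))) .e)) (.alt (nat_lit 6) (.cov (nat_lit 115351648)) .e)))))))) .e)))))))) .e)) (.alt (nat_lit 0) (.cov (nat_lit 1057055)) .e))))))))) .e)),
      .rot (.exp (.alt (nat_lit 7) (.exp (.alt (nat_lit 0) (.exp (.alt (nat_lit 1) (.cov (nat_lit 91595384662335538202412019608453131)) (.alt (nat_lit 1) (.cov (nat_lit 4076787174196681327498496008257542)) (.alt (nat_lit 1) (.cov (nat_lit 19491418501985801585732959731712002)) (.alt (nat_lit 1) (.cov (nat_lit 47400014179475970874891080551104513)) (.alt (nat_lit 1) (.cov (nat_lit 81149464798069114700515391832064)) (.alt (nat_lit 1) (.exp (.alt (nat_lit 3) (.cov (nat_lit 91595384662312890212384318801575943)) (.alt (nat_lit 3) (.cov (nat_lit 4076787174196317004338224618799107)) (.alt (nat_lit 3) (.cov (nat_lit 10166572926651159536737958494209)) (.alt (nat_lit 3) (.exp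 (.alt (nat_lit 2) (.exp (.alt (nat_lit 11) (.cov (nat_lit 3265491099535647390289378545762306)) (.alt (nat_lit 11) (.cov (nat_lit 224911662900070096799301259202920449)) (.alt (nat_lit 11) (.cov (nat_lit 81149464798820819068520271708160)) (.alt (nat_lit 11) (.cov (nat_lit 378167273904736829533)) .e))))) .e)) (.alt (nat_lit 3) (.cov (nat_lit 1480361604499117179387)) .e)))))) .e))))))) (.alt (nat_lit 0) (.cov (nat_lit 2316840324531487749)) (.alt (nat_lit 0) (.cov (nat_lit 36904467870635787876)) (.alt (nat_lit 0) (.cov (nat_lit 2318289480856895995)) (.alt (nat_lit 0) (.cov (nat_lit 384284889572957910729674)) (.alt (nat_lit 0) (.exp (.alt (nat_lit 1) (.cov (nat_lit 10176171772640502972047799877634)) (.alt (nat_lit 1) (.cov (nat_lit 13974614071674674162786336790020097)) (.alt (nat_lit 1) (.cov (nat_lit 10175064396202354372564141211648)) (.alt (nat_lit 1) (.cov (nat_lit 4627083579272200285)) .e))))) (.alt (nat_lit 0) (.cov (nat_lit 6350305635361450098726)) (.alt (nat_lit 0) (.cov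 (nat_lit 2322115781313167454)) (.alt (nat_lit 0) (.cov (nat_lit 2322817270335668258)) (.alt (nat_lit 0) (.cov (nat_lit 2320809561499369508)) (.alt (nat_lit 0) (.cov (nat_lit 2323498966940909583)) (.alt (nat_lit 0) (.exp (.alt (nat_lit 1) (.exp (.alt (nat_lit 3) (.exp (.alt (nat_lit 2) (.exp (.alt (nat_lit 11) (.exp (.alt (nat_lit 4) (.cov (nat_lit 404306518108565256798673)) (.alt (nat_lit 4) (.cov (nat_lit 45614191290097646698713)) (.alt (nat_lit 4) (.cov (nat_lit 343874986715518347509853)) (.alt (nat_lit 4) (.cov (nat_lit 343874988666052579164196)) (.alt (nat_lit 4) (.cov (nat_lit 13842706258177556496)) (.alt (nat_lit 4) (.cov (nat_lit 343874988666052142956562)) (.alt (nat_lit 4) (.cov (nat_lit 382780928048869933067)) (.alt (nat_lit 4) (.cov (nat_lit 10196451513046296166406)) (.alt (nat_lit 4) (.cov (nat_lit 601840422966226059267)) (.alt (nat_lit 4) (.cov (nat_lit 13848975673646907394)) (.alt (nat_lit 4) (.cov (nat_lit 1339710520166142967809)) (.alt (nat_lit 4) (.cov (nat_lit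 1784739447998751178752)) (.alt (nat_lit 4) (.exp (.alt (nat_lit 5) (.exp (.alt (nat_lit 13) (.cov (nat_lit 268745989240715734902824596668418)) (.alt (nat_lit 13) (.cov (nat_lit 63874384546957996301616886289793025)) (.alt (nat_lit 13) (.cov (nat_lit 63874384546957996301638875915223040)) (.alt (nat_lit 13) (.cov (nat_lit 712508291587657171037)) .e))))) (.alt (nat_lit 5) (.cov (nat_lit 10138795007849098379302)) (.alt (nat_lit 5) (.cov (nat_lit 10138795007848494399582)) (.alt (nat_lit 5) (.cov (nat_lit 102077371240342793224226)) (.alt (nat_lit 5) (.cov (nat_lit 102077371240343363649572)) (.alt (nat_lit 5) (.cov (nat_lit 1358150557218932523023)) (.alt (nat_lit 5) (.cov (nat_lit 1358152518747676475399)) (.alt (nat_lit 5) (.cov (nat_lit 48433682916783947782)) (.alt (nat_lit 5) (.cov (nat_lit 1376601996207284289539)) (.alt (nat_lit 5) (.cov (nat_lit 1819324504886760964098)) (.alt (nat_lit 5) (.cov (nat_lit 638733926506808999937)) (.alt (nat_lit 5) (.cov (nat_lit 1376605101227517149184))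 (.alt (nat_lit 5) (.cov (nat_lit 11556363807)) .e)))))))))))))) .e)))))))))))))) .e)) .e)) .e)) .e)) (.alt (nat_lit 0) (.cov (nat_lit 2323806830196686854)) (.alt (nat_lit 0) (.cov (nat_lit 9241472197273321475)) (.alt (nat_lit 0) (.cov (nat_lit 2324077310052925442)) (.alt (nat_lit 0) (.cov (nat_lit 76111253716005289985)) (.alt (nat_lit 0) (.exp (.alt (nat_lit 1) (.exp (.alt (nat_lit 2) (.exp (.alt (nat_lit 3) (.cov (nat_lit 19501552414548859004447322262208519)) (.alt (nat_lit 3) (.cov (nat_lit 227193429807270290131175224802017283)) (.alt (nat_lit 3) (.cov (nat_lit 63960597215530549546054384782147585)) (.alt (nat_lit 3) (.exp (.alt (nat_lit 11) (.exp (.alt (nat_lit 19) (.cov (nat_lit 50724815552131523630202694402050)) (.alt (nat_lit 19) (.cov (nat_lit 55523114801068659982542961539809281)) (.alt (nat_lit 19) (.cov (nat_lit 100144412989002553808583768688033792)) (.alt (nat_lit 19) (.exp (.alt (nat_lit 17) (.cov (nat_lit 1328516620582255935622558864375811)) (.alt (nat_lit 17) (.cov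 (nat_lit 22259952441547513233399376398778369)) (.alt (nat_lit 17) (.cov (nat_lit 756158672255997430621786955002675200)) (.alt (nat_lit 17) (.exp (.alt (nat_lit 16) (.cov (nat_lit 22259952441546920631735013362106369)) (.alt (nat_lit 16) (.cov (nat_lit 47975376723957954641931)) .e))) .e))))) .e))))) .e)) (.alt (nat_lit 3) (.cov (nat_lit 22740232172527468675579)) .e)))))) (.alt (nat_lit 2) (.exp (.alt (nat_lit 3) (.cov (nat_lit 47896933132557157512133920791986182)) (.alt (nat_lit 3) (.cov (nat_lit 47896933132557157512151512978030595)) (.alt (nat_lit 3) (.cov (nat_lit 229951841788128615466160812737953793)) (.alt (nat_lit 3) (.cov (nat_lit 11713114414149687311378889617440768)) (.alt (nat_lit 3) (.cov (nat_lit 26650942518870211035355)) .e)))))) (.alt (nat_lit 2) (.cov (nat_lit 43114664766667480891858)) (.alt (nat_lit 2) (.cov (nat_lit 382777411810514436323)) (.alt (nat_lit 2) (.cov (nat_lit 13846057570229289177)) (.alt (nat_lit 2) (.cov (nat_lit 6654676650893892386909)) (.alt (nat_lit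 2) (.cov (nat_lit 87637445105273536547)) (.alt (nat_lit 2) (.cov (nat_lit 13851671676156117008)) (.alt (nat_lit 2) (.cov (nat_lit 6507102889619239206930)) (.alt (nat_lit 2) (.cov (nat_lit 382784868698365624331)) (.alt (nat_lit 2) (.cov (nat_lit 87638991018454417414)) (.alt (nat_lit 2) (.cov (nat_lit 604148548560972939267)) (.alt (nat_lit 2) (.exp (.alt (nat_lit 3) (.exp (.alt (nat_lit 11) (.exp (.alt (nat_lit 19) (.exp (.alt (nat_lit 6) (.exp (.alt (nat_lit 4) (.cov (nat_lit 63879455101004290652257357299449858)) (.alt (nat_lit 4) (.cov (nat_lit 882293681609496448701134285045761)) (.alt (nat_lit 4) (.cov (nat_lit 63838890180254597161440882092670976)) (.alt (nat_lit 4) (.exp (.alt (nat_lit 5) (.cov (nat_lit 227274546848679336779578759445479427)) (.alt (nat_lit 5) (.cov (nat_lit 8508474890722678070718486195208193)) (.alt (nat_lit 5) (.cov (nat_lit 8508474890723047005617551968305152)) (.alt (nat_lit 5) (.exp (.alt (nat_lit 13) (.cov (nat_lit 225002917006919036709451146628956161))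 (.alt (nat_lit 13) (.cov (nat_lit 384185729890308255121419)) .e))) .e))))) .e))))) (.alt (nat_lit 6) (.cov (nat_lit 1337393930531464282150)) (.alt (nat_lit 6) (.cov (nat_lit 83016734306792898654)) (.alt (nat_lit 6) (.exp (.alt (nat_lit 4) (.cov (nat_lit 135882018817014809819491804708339713)) (.alt (nat_lit 4) (.cov (nat_lit 696369928013973815307)) .e))) (.alt (nat_lit 6) (.cov (nat_lit 25285881504499136200740)) (.alt (nat_lit 6) (.cov (nat_lit 7650796124965150130191)) (.alt (nat_lit 6) (.cov (nat_lit 419672696559962685447)) (.alt (nat_lit 6) (.cov (nat_lit 1927697813503458934790)) (.alt (nat_lit 6) (.cov (nat_lit 29007518766818350071811)) (.alt (nat_lit 6) (.cov (nat_lit 29007518766818450735106)) (.alt (nat_lit 6) (.cov (nat_lit 347841045058649986170881)) (.alt (nat_lit 6) (.cov (nat_lit 22020817564916732919808)) (.alt (nat_lit 6) (.exp (.alt (nat_lit 4) (.cov (nat_lit 404527876979166353031261)) (.alt (nat_lit 4) (.cov (nat_lit 396605503360326434851)) (.alt (nat_lit 4) (.cov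 (nat_lit 404306518108569283330068)) (.alt (nat_lit 4) (.cov (nat_lit 396613389060472307723)) (.alt (nat_lit 4) (.cov (nat_lit 21518135977977720078342)) (.alt (nat_lit 4) (.cov (nat_lit 21704913354106744078339)) (.alt (nat_lit 4) (.cov (nat_lit 415063935242597302274)) (.alt (nat_lit 4) (.cov (nat_lit 41996332444316692643841)) (.alt (nat_lit 4) (.cov (nat_lit 27685603831358423040)) (.alt (nat_lit 4) (.exp (.alt (nat_lit 5) (.cov (nat_lit 10138792131529028927680)) (.alt (nat_lit 5) (.exp (.alt (nat_lit 13) (.cov (nat_lit 14385303073482783129203913095380993)) (.alt (nat_lit 13) (.cov (nat_lit 25431145295201348616203)) .e))) (.alt (nat_lit 5) (.cov (nat_lit 638721809888234700815)) (.alt (nat_lit 5) (.cov (nat_lit 6394109730011307048967)) (.alt (nat_lit 5) (.cov (nat_lit 6394109730011474821126)) (.alt (nat_lit 5) (.cov (nat_lit 2999912167362748481539)) (.alt (nat_lit 5) (.cov (nat_lit 122222743886104625153)) (.alt (nat_lit 5) (.cov (nat_lit 122223447572942422016)) (.alt (nat_lit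 5) (.cov (nat_lit 13234084714)) .e)))))))))) .e))))))))))) .e)))))))))))))) .e)) .e)) .e)) (.alt (nat_lit 2) (.cov (nat_lit 382787940733853630465)) (.alt (nat_lit 2) (.cov (nat_lit 13853292356120346624)) (.alt (nat_lit 2) (.exp (.alt (nat_lit 3) (.cov (nat_lit 1353536999831712563707)) (.alt (nat_lit 3) (.cov (nat_lit 29097440011923651298250)) (.alt (nat_lit 3) (.exp (.alt (nat_lit 11) (.cov (nat_lit 227259351835871662978036216275927042)) (.alt (nat_lit 11) (.cov (nat_lit 3017031596398024262982570528997377)) (.alt (nat_lit 11) (.cov (nat_lit 96361272007448694932012490817536)) (.alt (nat_lit 11) (.exp (.alt (nat_lit 15) (.cov (nat_lit 227259351835872631432093489398022147)) (.alt (nat_lit 15) (.cov (nat_lit 3017031596397664551464337103912961)) (.alt (nat_lit 15) (.cov (nat_lit 6748991651362903862749125670862848)) (.alt (nat_lit 15) (.exp (.alt (nat_lit 14) (.cov (nat_lit 420882823795684595671873181712385)) (.alt (nat_lit 14) (.cov (nat_lit 265182358482249056267)) .e))) .e)))))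 .e))))) (.alt (nat_lit 3) (.cov (nat_lit 1501114785318923403302)) (.alt (nat_lit 3) (.cov (nat_lit 43821996898186690654)) (.alt (nat_lit 3) (.cov (nat_lit 6389504700436305674274)) (.alt (nat_lit 3) (.cov (nat_lit 634120551638519250980)) (.alt (nat_lit 3) (.cov (nat_lit 1593352947714002780175)) (.alt (nat_lit 3) (.cov (nat_lit 634123652260705599495)) (.alt (nat_lit 3) (.cov (nat_lit 1371993144729395003398)) (.alt (nat_lit 3) (.cov (nat_lit 1371993562544249765891)) (.alt (nat_lit 3) (.cov (nat_lit 412763136792730796034)) (.alt (nat_lit 3) (.cov (nat_lit 6537082419953389273089)) (.alt (nat_lit 3) (.exp (.alt (nat_lit 11) (.exp (.alt (nat_lit 19) (.cov (nat_lit 347799529393099960746451)) (.alt (nat_lit 19) (.cov (nat_lit 343888818008856158273753)) (.alt (nat_lit 19) (.exp (.alt (nat_lit 18) (.cov (nat_lit 63854107780661310594484139628429315)) (.alt (nat_lit 18) (.cov (nat_lit 756214438181025118074264800257376257)) (.alt (nat_lit 18) (.cov (nat_lit 1759514580307152225107217370578944))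 (.alt (nat_lit 18) (.exp (.alt (nat_lit 16) (.cov (nat_lit 756244861780996530239360047316467713)) (.alt (nat_lit 16) (.cov (nat_lit 21893986446745318457355)) .e))) .e))))) (.alt (nat_lit 19) (.cov (nat_lit 48003050165038086094883)) (.alt (nat_lit 19) (.cov (nat_lit 21534278845015255941136)) (.alt (nat_lit 19) (.cov (nat_lit 2856946962898827083796)) (.alt (nat_lit 19) (.cov (nat_lit 558024996753543004171)) (.alt (nat_lit 19) (.cov (nat_lit 46674887910010846707718)) (.alt (nat_lit 19) (.cov (nat_lit 7789153161895960641539)) (.alt (nat_lit 19) (.cov (nat_lit 343888829555916934217730)) (.alt (nat_lit 19) (.cov (nat_lit 1528790196676881022977)) (.alt (nat_lit 19) (.cov (nat_lit 26528740790866030886912)) (.alt (nat_lit 19) (.exp (.alt (nat_lit 18) (.exp (.alt (nat_lit 16) (.cov (nat_lit 64061996787479739994767087307325442)) (.alt (nat_lit 16) (.cov (nat_lit 224516141971473930571160142160592897)) (.alt (nat_lit 16) (.cov (nat_lit 64041714276280940486323703800397824)) (.alt (nat_lit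 16) (.exp (.alt (nat_lit 17) (.cov (nat_lit 1105397358720756354478385998594051)) (.alt (nat_lit 17) (.cov (nat_lit 9360336094086166267648856206344193)) (.alt (nat_lit 17) (.cov (nat_lit 9360336094178104840129660433989632)) (.alt (nat_lit 17) (.exp (.alt (nat_lit 21) (.cov (nat_lit 943138115781762852723244371279873)) (.alt (nat_lit 21) (.cov (nat_lit 365600635236229021958155)) .e))) .e))))) .e))))) (.alt (nat_lit 18) (.cov (nat_lit 343884208007437283754022)) (.alt (nat_lit 18) (.cov (nat_lit 29035181558167381213278)) (.alt (nat_lit 18) (.exp (.alt (nat_lit 16) (.cov (nat_lit 138843250619249641378094583067443201)) (.alt (nat_lit 16) (.cov (nat_lit 641029695793352671243)) .e))) (.alt (nat_lit 18) (.cov (nat_lit 25590252781728505528356)) (.alt (nat_lit 18) (.cov (nat_lit 7807593449774829797391)) (.alt (nat_lit 18) (.cov (nat_lit 102107349402897027694599)) (.alt (nat_lit 18) (.cov (nat_lit 1881580953502333534214)) (.alt (nat_lit 18) (.cov (nat_lit 29108975859242618585091)) (.alt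 (nat_lit 18) (.cov (nat_lit 29108975859270099664898)) (.alt (nat_lit 18) (.cov (nat_lit 5128210285392849534977)) (.alt (nat_lit 18) (.cov (nat_lit 21596542451221425815552)) (.alt (nat_lit 18) (.exp (.alt (nat_lit 16) (.cov (nat_lit 1595646177173215117405)) (.alt (nat_lit 16) (.cov (nat_lit 102093505581768433991715)) (.alt (nat_lit 16) (.cov (nat_lit 404546325781522881183764)) (.alt (nat_lit 16) (.cov (nat_lit 102093513467421737877515)) (.alt (nat_lit 16) (.cov (nat_lit 22043868184124688695302)) (.alt (nat_lit 16) (.cov (nat_lit 61798911598470222577667)) (.alt (nat_lit 16) (.cov (nat_lit 102102740641612746981378)) (.alt (nat_lit 16) (.cov (nat_lit 48000747640464919756801)) (.alt (nat_lit 16) (.cov (nat_lit 10154948100297914843136)) (.alt (nat_lit 16) (.exp (.alt (nat_lit 17) (.cov (nat_lit 10231025851898084196544)) (.alt (nat_lit 17) (.exp (.alt (nat_lit 21) (.cov (nat_lit 230048164389015311485524860343418881)) (.alt (nat_lit 21) (.cov (nat_lit 26547173311660851986443)) .e)))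 (.alt (nat_lit 17) (.cov (nat_lit 795519134561012285455)) (.alt (nat_lit 17) (.cov (nat_lit 6698481007232119996423)) (.alt (nat_lit 17) (.cov (nat_lit 6698481007273928818694)) (.alt (nat_lit 17) (.cov (nat_lit 3894579255093429796867)) (.alt (nat_lit 17) (.cov (nat_lit 29055940823655304396801)) (.alt (nat_lit 17) (.cov (nat_lit 29055941527186382520320)) (.alt (nat_lit 17) (.cov (nat_lit 55581546)) .e)))))))))) .e))))))))))) .e)))))))))))))) .e)))))))))))))) .e)) (.alt (nat_lit 3) (.cov (nat_lit 11542634)) .e)))))))))))))))) .e))))))))))))))))) .e)) (.alt (nat_lit 0) (.cov (nat_lit 1057055)) .e))))))))))))))))))) .e)),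
      .rot (.exp (.alt (nat_lit 7) (.exp (.alt (nat_lit 0) (.cov (nat_lit 2316844722577998853)) (.alt (nat_lit 0) (.cov (nat_lit 2316380738435418594)) (.alt (nat_lit 0) (.cov (nat_lit 2316840370937267809)) (.alt (nat_lit 0) (.cov (nat_lit 2321170201321669117)) (.alt (nat_lit 0) (.cov (nat_lit 36904467880306804319)) (.alt (nat_lit 0) (.cov (nat_lit 2320536882624070602)) (.alt (nat_lit 0) (.cov (nat_lit 2321975044437180635)) (.alt (nat_lit 0) (.cov (nat_lit 447348479553416724518)) (.alt (nat_lit 0) (.cov (nat_lit 384284889572969386345420)) (.alt (nat_lit 0) (.cov (nat_lit 2320693013275214290)) (.alt (nat_lit 0) (.cov (nat_lit 2322115781313167454)) (.alt (nat_lit 0) (.cov (nat_lit 2322819469358923810)) (.alt (nat_lit 0) (.cov (nat_lit 2322115781313167453)) (.alt (nat_lit 0) (.cov (nat_lit 223683200796478930980)) (.alt (nat_lit 0) (.cov (nat_lit 2323608918112075792)) (.alt (nat_lit 0) (.cov (nat_lit 2323866203824586759)) (.alt (nat_lit 0) (.cov (nat_lit 371258004408155242514))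 (.alt (nat_lit 0) (.cov (nat_lit 2323498966940909579)) (.alt (nat_lit 0) (.cov (nat_lit 2323806830196686854)) (.alt (nat_lit 0) (.cov (nat_lit 9241476595319832579)) (.alt (nat_lit 0) (.cov (nat_lit 2324077310052925442)) (.alt (nat_lit 0) (.cov (nat_lit 76111253716005289985)) (.alt (nat_lit 0) (.cov (nat_lit 4630225983495995392)) (.alt (nat_lit 0) (.cov (nat_lit 1057055)) .e))))))))))))))))))))))))) .e)),
      .cov (nat_lit 16140901064495866169),
      .cov (nat_lit 16140901064495866170),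
      .cov (nat_lit 16140901064495866171),
      .cov (nat_lit 16140901064495866172),
      .cov (nat_lit 16140901064495866160)])]) (by decide +kernel)
  exact h _ List.mem_cons_self

end K2

end Pool.Agent.Work.MP_bf01b2_co.MR
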