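import Pool.Agent.Work.MP_bf01b2_co.MR.K2I

/-!
# Two roots in `Q_5`: certificates of the special vectors, part 2
-/

set_option autoImplicit false
set_option maxRecDepth 100000

namespace Pool.Agent.Work.MP_bf01b2_co.MR

namespace K2

open Tab Exc K4

theorem t15_13 : GF FULL [0, 15] [13, 11] := by
  have h := JT.chkW_ok (zs := [0, 15]) good (by decide) (by decide)
    (L := [([13, 11], [.cov (nat_lit 343881900910838322042978),
      .cov (nat_lit 343881902740425670662242),
      .cov (nat_lit 343881902742623083305055),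
      .cov (nat_lit 21506603312710389076171),
      .cov (nat_lit 343881900910838322042978),
      .cov (nat_lit 343881902740425670662242),
      .cov (nat_lit 343881902742623083305055),
      .cov (nat_lit 21506603312673747636414),
      .cov (nat_lit 343881900910838322042978),
      .cov (nat_lit 343881902740425670662242),
      .cov (nat_lit 343881902742623083305055),
      .cov (nat_lit 21506603312673747636415),
      .cov (nat_lit 343881900910838322042978),
      .cov (nat_lit 343881902740425670662242),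
      .cov (nat_lit 343881902742623083305055),
      .rot (.exp (.alt (nat_lit 15) (.cov (nat_lit 14603365089417731767543696483942411)) (.alt (nat_lit 15) (.cov (nat_lit 759373445716164846916878448775397382)) (.alt (nat_lit 15) (.cov (nat_lit 759373445716164846917043375519563778)) (.alt (nat_lit 15) (.cov (nat_lit 30281175772076273117835558913)) (.alt (nat_lit 15) (.cov (nat_lit 30286010294763132907355635712)) (.alt (nat_lit 15) (.exp (.alt (nat_lit 7) (.exp (.alt (nat_lit 3) (.cov (nat_lit 33709709448113725376891453442)) .e)) (.alt (nat_lit 7) (.exp (.alt (nat_lit 3) (.exp (.alt (nat_lit 11) (.cov (nat_lit 33714524638612815710008639488)) .e)) .e)) (.alt (nat_lit 7) (.cov (nat_lit 34836406471049627073134985217)) (.alt (nat_lit 7) (.exp (.alt (nat_lit 3) (.exp (.alt (nat_lit 5) (.cov (nat_lit 32317005408849120886376103938)) (.alt (nat_lit 5) (.cov (nat_lit 32321842311165955189303672833)) (.alt (nat_lit 5) (.cov (nat_lit 3731993551531819918810304207650816)) (.alt (nat_lit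 5) (.cov (nat_lit 1697114181084461924445)) .e))))) .e)) (.alt (nat_lit 7) (.cov (nat_lit 13772482942075387)) .e)))))) .e))))))),
      .cov (nat_lit 343881900910838322042978),
      .cov (nat_lit 343881902740425670662242),
      .cov (nat_lit 343881902742623083305055),
      .rot (.exp (.alt (nat_lit 15) (.cov (nat_lit 14603365089417731767543696483942411)) (.alt (nat_lit 15) (.cov (nat_lit 759373445716164846916878448775397382)) (.alt (nat_lit 15) (.cov (nat_lit 759373445716164846917043375519563778)) (.alt (nat_lit 15) (.cov (nat_lit 759048917752229020901880119881105409)) (.alt (nat_lit 15) (.cov (nat_lit 24604058942574375786236608512)) (.alt (nat_lit 15) (.exp (.alt (nat_lit 7) (.exp (.alt (nat_lit 3) (.cov (nat_lit 20764531771680276174137720834)) .e)) (.alt (nat_lit 7) (.exp (.alt (nat_lit 3) (.exp (.alt (nat_lit 11) (.cov (nat_lit 20769347035966342802093113344)) .e)) .e)) (.alt (nat_lit 7) (.cov (nat_lit 52734285714662788889345573191155713)) (.alt (nat_lit 7) (.exp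 (.alt (nat_lit 3) (.exp (.alt (nat_lit 5) (.cov (nat_lit 20774546605883279685486379010)) (.alt (nat_lit 5) (.cov (nat_lit 24608895582024621054678269953)) (.alt (nat_lit 5) (.cov (nat_lit 3731993551531819918810304207650816)) (.alt (nat_lit 5) (.cov (nat_lit 1697114181084461924445)) .e))))) .e)) (.alt (nat_lit 7) (.cov (nat_lit 11188630616801787)) .e)))))) .e)))))))])]) (by decide +kernel)
  exact h _ List.mem_cons_self

theorem t15_14 : GF FULL [0, 15] [14, 10] := by
  have h := JT.chkW_ok (zs := [0, 15]) good (by decide) (by decide)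
    (L := [([14, 10], [.rot (.exp (.alt (nat_lit 15) (.cov (nat_lit 50138150399821310418837617056415751)) (.alt (nat_lit 15) (.cov (nat_lit 14278850249580704945665065505259523)) (.alt (nat_lit 15) (.cov (nat_lit 1298108103242307708774313687515137)) (.alt (nat_lit 15) (.exp (.alt (nat_lit 7) (.exp (.alt (nat_lit 11) (.cov (nat_lit 34971806172069767208812675074)) (.alt (nat_lit 11) (.cov (nat_lit 34976641875348236720627777537)) (.alt (nat_lit 11) (.cov (nat_lit 34981477578626710630489391104)) (.alt (nat_lit 11) (.cov (nat_lit 15909933282230365)) .e))))) .e)) (.alt (nat_lit 15) (.cov (nat_lit 1549541899752451342843)) .e)))))),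
      .cov (nat_lit 21506601333543120411482),
      .cov (nat_lit 6380271197499368150038),
      .cov (nat_lit 772459670882154976278),
      .cov (nat_lit 343881900910838254934201),
      .cov (nat_lit 21506601333543120411482),
      .cov (nat_lit 6380271197499368151224),
      .cov (nat_lit 772459670882154977464),
      .cov (nat_lit 343881900910838254934202),
      .cov (nat_lit 21506601333543120411482),
      .cov (nat_lit 6380271197509635806809),
      .cov (nat_lit 772459670891885762137),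
      .cov (nat_lit 343881900910838254934203),
      .cov (nat_lit 21506601333543120411482),
      .cov (nat_lit 6380271197501045873243),
      .cov (nat_lit 772459670891885763163),
      .cov (nat_lit 343881900910838254933594),
      .cov (nat_lit 21506601333543120411482),
      .rot (.exp (.alt (nat_lit 15) (.cov (nat_lit 14278844030864960682388706194096134)) (.alt (nat_lit 15) (.cov (nat_lit 50138150399829131838335865022578691)) (.alt (nat_lit 15) (.cov (nat_lit 1298108103242676643649190808780802)) (.alt (nat_lit 15) (.cov (nat_lit 34410864600992142623631212545)) (.alt (nat_lit 15) (.cov (nat_lit 34062695735830833176316477440)) (.alt (nat_lit 15) (.exp (.alt (nat_lit 7) (.cov (nat_lit 50787187540988663282348257243561990)) (.alt (nat_lit 7) (.exp (.alt (nat_lit 3) (.exp (.alt (nat_lit 11) (.cov (nat_lit 34067529723561648635331477504)) .e)) .e)) (.alt (nat_lit 7) (.cov (nat_lit 34072366681218745945715376129)) (.alt (nat_lit 7) (.cov (nat_lit 34072365353053304580022992896))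 (.alt (nat_lit 7) (.exp (.alt (nat_lit 3) (.cov (nat_lit 1622626811643257792903709040050178)) (.alt (nat_lit 3) (.cov (nat_lit 34077201416043090015136251905)) (.alt (nat_lit 3) (.cov (nat_lit 4056515939902941851511183968829440)) (.alt (nat_lit 3) (.cov (nat_lit 15494317878542429)) .e))))) .e)))))) .e))))))),
      .rot (.exp (.alt (nat_lit 15) (.exp (.alt (nat_lit 7) (.exp (.alt (nat_lit 3) (.exp (.alt (nat_lit 5) (.exp (.alt (nat_lit 11) (.exp (.alt (nat_lit 9) (.exp (.alt (nat_lit 10) (.exp (.alt (nat_lit 14) (.exp (.alt (nat_lit 6) (.exp (.alt (nat_lit 30) (.exp (.alt (nat_lit 0) (.cov (nat_lit 774763671267326296083)) (.alt (nat_lit 0) (.cov (nat_lit 36895335348168556555)) (.alt (nat_lit 0) (.cov (nat_lit 36896784503923539974)) (.alt (nat_lit 0) (.exp (.alt (nat_lit 4) (.exp (.alt (nat_lit 12) (.exp (.alt (nat_lit 20) (.exp (.alt (nat_lit 16) (.cov (nat_lit 55340265206496362503)) (.alt (nat_lit 16) (.cov (nat_lit 25421919317329964957699)) (.alt (nat_lit 16) (.cov (nat_lit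 3949909859834378846209)) (.alt (nat_lit 16) (.exp (.alt (nat_lit 18) (.exp (.alt (nat_lit 17) (.cov (nat_lit 25283568613620366442498)) (.alt (nat_lit 17) (.cov (nat_lit 21737182080842867933185)) (.alt (nat_lit 17) (.cov (nat_lit 265172093394133975040)) (.alt (nat_lit 17) (.exp (.alt (nat_lit 19) (.cov (nat_lit 25288180290842702905347)) (.alt (nat_lit 19) (.cov (nat_lit 136044755135818104833)) (.alt (nat_lit 19) (.cov (nat_lit 136044770528980893696)) (.alt (nat_lit 19) (.exp (.alt (nat_lit 27) (.cov (nat_lit 25306627034916410359809)) (.alt (nat_lit 23) (.cov (nat_lit 737148943)) .e))) .e))))) .e))))) .e)) (.alt (nat_lit 1) (.exp (.alt (nat_lit 17) (.cov (nat_lit 6389491011527992410114)) (.alt (nat_lit 17) (.cov (nat_lit 2626355334829011107841)) (.alt (nat_lit 17) (.exp (.alt (nat_lit 21) (.cov (nat_lit 1395035038167098982403)) (.alt (nat_lit 19) (.exp (.alt (nat_lit 23) (.exp (.alt (nat_lit 27) (.cov (nat_lit 25295097819870381735937)) (.alt (nat_lit 18) (.cov (nat_lit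 27262991)) .e))) .e)) (.alt (nat_lit 19) (.exp (.alt (nat_lit 27) (.cov (nat_lit 25295097819881823797250)) (.alt (nat_lit 23) (.cov (nat_lit 636485699)) .e))) .e)))) .e)))) .e)))))) .e)) .e)) .e)) (.alt (nat_lit 0) (.cov (nat_lit 36902504143379234817)) (.alt (nat_lit 0) (.cov (nat_lit 104666838043622693142528)) (.alt (nat_lit 0) (.exp (.alt (nat_lit 16) (.exp (.alt (nat_lit 17) (.exp (.alt (nat_lit 21) (.exp (.alt (nat_lit 23) (.exp (.alt (nat_lit 19) (.exp (.alt (nat_lit 18) (.exp (.alt (nat_lit 27) (.exp (.alt (nat_lit 20) (.cov (nat_lit 433498494538036019201)) (.alt (nat_lit 20) (.exp (.alt (nat_lit 28) (.cov (nat_lit 7627728685474041036800)) (.alt (nat_lit 4) (.cov (nat_lit 10347347976)) .e))) .e))) .e)) .e)) .e)) .e)) .e)) (.alt (nat_lit 17) (.exp (.alt (nat_lit 19) (.exp (.alt (nat_lit 18) (.exp (.alt (nat_lit 23) (.exp (.alt (nat_lit 31) (.exp (.alt (nat_lit 27) (.exp (.alt (nat_lit 24) (.cov (nat_lit 6410243574410774577153)) (.alt (nat_lit 24) (.exp (.alt (nat_lit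 28) (.cov (nat_lit 6391796832535488495616)) (.alt (nat_lit 8) (.cov (nat_lit 157047324680)) .e))) .e))) .e)) .e)) .e)) .e)) (.alt (nat_lit 21) (.exp (.alt (nat_lit 20) (.exp (.alt (nat_lit 28) (.exp (.alt (nat_lit 12) (.exp (.alt (nat_lit 29) (.exp (.alt (nat_lit 18) (.cov (nat_lit 59951927035672133633)) (.alt (nat_lit 24) (.cov (nat_lit 228589583)) .e))) .e)) .e)) .e)) .e)) .e))) .e))) (.alt (nat_lit 16) (.cov (nat_lit 3966051321649972641807)) (.alt (nat_lit 16) (.exp (.alt (nat_lit 18) (.exp (.alt (nat_lit 19) (.exp (.alt (nat_lit 23) (.exp (.alt (nat_lit 27) (.exp (.alt (nat_lit 20) (.cov (nat_lit 45443554043176963538946)) (.alt (nat_lit 17) (.cov (nat_lit 104613791518001451761665)) (.alt (nat_lit 17) (.cov (nat_lit 102243385016679939440640)) (.alt (nat_lit 17) (.exp (.alt (nat_lit 21) (.cov (nat_lit 365365436504724961492995)) (.alt (nat_lit 21) (.cov (nat_lit 4104400573993195667457)) (.alt (nat_lit 21) (.cov (nat_lit 104623014890038305488896)) (.alt (nat_lit 21) (.exp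 (.alt (nat_lit 20) (.cov (nat_lit 433498494538036019201)) (.alt (nat_lit 20) (.exp (.alt (nat_lit 28) (.cov (nat_lit 45406660548431207989248)) (.alt (nat_lit 4) (.cov (nat_lit 10347347976)) .e))) .e))) .e))))) .e))))) .e)) .e)) .e)) .e)) (.alt (nat_lit 4) (.cov (nat_lit 1374285729873640030211)) (.alt (nat_lit 4) (.cov (nat_lit 415058807120197582849)) (.alt (nat_lit 4) (.exp (.alt (nat_lit 12) (.exp (.alt (nat_lit 20) (.cov (nat_lit 433498518718249959435)) (.alt (nat_lit 20) (.cov (nat_lit 627189439255110746118)) (.alt (nat_lit 20) (.cov (nat_lit 10219496636860031041538)) (.alt (nat_lit 20) (.cov (nat_lit 1392731024744661385217)) (.alt (nat_lit 20) (.cov (nat_lit 627192597041030103040)) (.alt (nat_lit 20) (.exp (.alt (nat_lit 22) (.cov (nat_lit 21513515308960680247303)) (.alt (nat_lit 22) (.cov (nat_lit 631801125273540231171)) (.alt (nat_lit 21) (.cov (nat_lit 1810087182246255525889)) (.alt (nat_lit 21) (.exp (.alt (nat_lit 23) (.exp (.alt (nat_lit 17) (.cov (nat_lit 1607172595025623121922))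 (.alt (nat_lit 29) (.cov (nat_lit 6403326069572413423617)) (.alt (nat_lit 29) (.cov (nat_lit 647942026326549987328)) (.alt (nat_lit 29) (.cov (nat_lit 294650047)) .e))))) .e)) (.alt (nat_lit 22) (.cov (nat_lit 1366296027)) .e)))))) .e))))))) .e)) (.alt (nat_lit 2) (.exp (.alt (nat_lit 18) (.cov (nat_lit 25590245863588858167307)) (.alt (nat_lit 18) (.exp (.alt (nat_lit 19) (.exp (.alt (nat_lit 27) (.exp (.alt (nat_lit 23) (.exp (.alt (nat_lit 16) (.cov (nat_lit 350174542768821226176515)) (.alt (nat_lit 16) (.exp (.alt (nat_lit 17) (.exp (.alt (nat_lit 20) (.cov (nat_lit 433498494538036019201)) (.alt (nat_lit 20) (.exp (.alt (nat_lit 28) (.cov (nat_lit 1395035031569413701632)) (.alt (nat_lit 4) (.cov (nat_lit 10347347976)) .e))) .e))) .e)) (.alt (nat_lit 26) (.cov (nat_lit 159274500287)) .e)))) .e)) .e)) .e)) (.alt (nat_lit 18) (.cov (nat_lit 1461909371663965749249)) (.alt (nat_lit 18) (.exp (.alt (nat_lit 26) (.cov (nat_lit 25444977747568768319495)) (.alt (nat_lit 26)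 (.cov (nat_lit 350248330147538001723395)) (.alt (nat_lit 26) (.exp (.alt (nat_lit 27) (.exp (.alt (nat_lit 24) (.cov (nat_lit 405828402653394108418)) (.alt (nat_lit 24) (.cov (nat_lit 102333312891840265977857)) (.alt (nat_lit 24) (.exp (.alt (nat_lit 25) (.cov (nat_lit 103368636277632957153283)) (.alt (nat_lit 28) (.exp (.alt (nat_lit 12) (.exp (.alt (nat_lit 29) (.cov (nat_lit 417357593473568473089)) (.alt (nat_lit 29) (.exp (.alt (nat_lit 21) (.cov (nat_lit 408134223625964224512)) (.alt (nat_lit 31) (.cov (nat_lit 57671688)) .e))) .e))) .e)) (.alt (nat_lit 25) (.cov (nat_lit 4627366480)) .e)))) .e)))) .e)) (.alt (nat_lit 26) (.cov (nat_lit 162532497)) .e))))) .e))))) .e)))))))) .e)))))))) .e)) .e)) .e)) .e)) .e)) .e)) .e)) .e)) .e)) (.alt (nat_lit 15) (.exp (.alt (nat_lit 7) (.exp (.alt (nat_lit 3) (.exp (.alt (nat_lit 11) (.exp (.alt (nat_lit 9) (.exp (.alt (nat_lit 10) (.exp (.alt (nat_lit 5) (.exp (.alt (nat_lit 13) (.exp (.alt (nat_lit 12) (.exp (.alt (nat_lit 29)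 (.exp (.alt (nat_lit 0) (.cov (nat_lit 627189718703415492629)) (.alt (nat_lit 0) (.exp (.alt (nat_lit 2) (.exp (.alt (nat_lit 6) (.exp (.alt (nat_lit 18) (.exp (.alt (nat_lit 19) (.exp (.alt (nat_lit 23) (.exp (.alt (nat_lit 16) (.cov (nat_lit 129127226108341649411)) (.alt (nat_lit 16) (.exp (.alt (nat_lit 17) (.exp (.alt (nat_lit 24) (.cov (nat_lit 25299709505888770326529)) (.alt (nat_lit 20) (.cov (nat_lit 734003215)) .e))) .e)) (.alt (nat_lit 16) (.exp (.alt (nat_lit 24) (.cov (nat_lit 25299709505900244893698)) (.alt (nat_lit 17) (.cov (nat_lit 193986627)) .e))) .e)))) .e)) .e)) .e)) .e)) (.alt (nat_lit 1) (.cov (nat_lit 384287186076718311931911)) .e))) (.alt (nat_lit 0) (.cov (nat_lit 104634548975921048584198)) (.alt (nat_lit 0) (.exp (.alt (nat_lit 4) (.exp (.alt (nat_lit 6) (.exp (.alt (nat_lit 20) (.exp (.alt (nat_lit 16) (.cov (nat_lit 129127241501367074823)) (.alt (nat_lit 16) (.cov (nat_lit 6534759228852007862275)) (.alt (nat_lit 16) (.cov (nat_lit 22841681634322205900801))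 (.alt (nat_lit 16) (.exp (.alt (nat_lit 17) (.exp (.alt (nat_lit 18) (.cov (nat_lit 6396408525151000330242)) (.alt (nat_lit 18) (.cov (nat_lit 2847716149364321681409)) (.alt (nat_lit 18) (.cov (nat_lit 1445763714111546327040)) (.alt (nat_lit 18) (.exp (.alt (nat_lit 19) (.cov (nat_lit 6398714359364155604995)) (.alt (nat_lit 19) (.cov (nat_lit 62257778841013452801)) (.alt (nat_lit 19) (.cov (nat_lit 62257794234142687232)) (.alt (nat_lit 19) (.exp (.alt (nat_lit 27) (.cov (nat_lit 6417161103437864108033)) (.alt (nat_lit 23) (.cov (nat_lit 200278031)) .e))) .e))))) .e))))) .e)) (.alt (nat_lit 2) (.exp (.alt (nat_lit 18) (.cov (nat_lit 25278956942997984378882)) (.alt (nat_lit 18) (.cov (nat_lit 21515821266307559456769)) (.alt (nat_lit 18) (.exp (.alt (nat_lit 22) (.cov (nat_lit 1397340881175775805443)) (.alt (nat_lit 19) (.exp (.alt (nat_lit 23) (.exp (.alt (nat_lit 27) (.cov (nat_lit 6403326045382553632769)) (.alt (nat_lit 17) (.cov (nat_lit 26214415)) .e))) .e)) (.alt (nat_lit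 19) (.exp (.alt (nat_lit 27) (.cov (nat_lit 6403326045385439313922)) (.alt (nat_lit 23) (.cov (nat_lit 99614787)) .e))) .e)))) .e)))) .e)))))) .e)) .e)) .e)) (.alt (nat_lit 0) (.cov (nat_lit 110689480437642821633)) (.alt (nat_lit 0) (.cov (nat_lit 404537109692651024678912)) (.alt (nat_lit 0) (.exp (.alt (nat_lit 2) (.exp (.alt (nat_lit 6) (.cov (nat_lit 1389345367341545653897568639254529)) (.alt (nat_lit 6) (.exp (.alt (nat_lit 22) (.cov (nat_lit 1389345367341564100643685025185792)) (.alt (nat_lit 4) (.cov (nat_lit 6534759228859050098695)) .e))) .e))) (.alt (nat_lit 2) (.cov (nat_lit 21513515695996137373711)) (.alt (nat_lit 2) (.exp (.alt (nat_lit 6) (.exp (.alt (nat_lit 22) (.exp (.alt (nat_lit 23) (.exp (.alt (nat_lit 20) (.exp (.alt (nat_lit 18) (.cov (nat_lit 25278956927602644746242)) (.alt (nat_lit 18) (.cov (nat_lit 25278956942995706871809)) (.alt (nat_lit 18) (.cov (nat_lit 2619437904757380874240)) (.alt (nat_lit 18) (.exp (.alt (nat_lit 19) (.cov (nat_lit 6384879301309443866627))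 (.alt (nat_lit 19) (.cov (nat_lit 62257778841577586689)) (.alt (nat_lit 19) (.cov (nat_lit 62257794234136395776)) (.alt (nat_lit 19) (.exp (.alt (nat_lit 27) (.cov (nat_lit 6403326045383152369665)) (.alt (nat_lit 17) (.cov (nat_lit 26214415)) .e))) .e))))) .e))))) .e)) .e)) .e)) .e)) (.alt (nat_lit 2) (.exp (.alt (nat_lit 6) (.exp (.alt (nat_lit 4) (.exp (.alt (nat_lit 20) (.exp (.alt (nat_lit 18) (.cov (nat_lit 25278956942997984378882)) (.alt (nat_lit 18) (.cov (nat_lit 21515821266307559456769)) (.alt (nat_lit 18) (.exp (.alt (nat_lit 22) (.cov (nat_lit 1397340881175775805443)) (.alt (nat_lit 19) (.exp (.alt (nat_lit 23) (.exp (.alt (nat_lit 27) (.cov (nat_lit 6403326045382553632769)) (.alt (nat_lit 17) (.cov (nat_lit 26214415)) .e))) .e)) (.alt (nat_lit 19) (.exp (.alt (nat_lit 27) (.cov (nat_lit 6403326045385439313922)) (.alt (nat_lit 23) (.cov (nat_lit 99614787)) .e))) .e)))) .e)))) .e)) .e)) .e)) (.alt (nat_lit 4) (.cov (nat_lit 1595650427838206574593)) (.alt (nat_lit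 4) (.exp (.alt (nat_lit 6) (.exp (.alt (nat_lit 20) (.cov (nat_lit 1614090139435125440523)) (.alt (nat_lit 20) (.cov (nat_lit 627189439246521860102)) (.alt (nat_lit 20) (.cov (nat_lit 627189718522475315202)) (.alt (nat_lit 20) (.cov (nat_lit 212139404027217575937)) (.alt (nat_lit 20) (.cov (nat_lit 1807784217758442455040)) (.alt (nat_lit 20) (.exp (.alt (nat_lit 21) (.cov (nat_lit 21511209465942876618759)) (.alt (nat_lit 21) (.cov (nat_lit 629495282255736602627)) (.alt (nat_lit 22) (.cov (nat_lit 631801404538025410561)) (.alt (nat_lit 22) (.exp (.alt (nat_lit 23) (.exp (.alt (nat_lit 18) (.cov (nat_lit 428886817308835577858)) (.alt (nat_lit 30) (.cov (nat_lit 25295097844060207972353)) (.alt (nat_lit 30) (.cov (nat_lit 650247869335764729856)) (.alt (nat_lit 30) (.cov (nat_lit 295698623)) .e))))) .e)) (.alt (nat_lit 21) (.cov (nat_lit 9956230619)) .e)))))) .e))))))) .e)) (.alt (nat_lit 1) (.exp (.alt (nat_lit 17) (.cov (nat_lit 6610852142721030684683)) (.alt (nat_lit 17)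 (.exp (.alt (nat_lit 19) (.exp (.alt (nat_lit 23) (.exp (.alt (nat_lit 27) (.exp (.alt (nat_lit 16) (.cov (nat_lit 347799524469331799834627)) (.alt (nat_lit 16) (.exp (.alt (nat_lit 18) (.exp (.alt (nat_lit 20) (.cov (nat_lit 1614090115402065510401)) (.alt (nat_lit 24) (.cov (nat_lit 12142510095)) .e))) .e)) (.alt (nat_lit 21) (.cov (nat_lit 185040109759)) .e)))) .e)) .e)) .e)) (.alt (nat_lit 17) (.cov (nat_lit 184472351156649066497)) (.alt (nat_lit 17) (.exp (.alt (nat_lit 19) (.exp (.alt (nat_lit 23) (.exp (.alt (nat_lit 22) (.exp (.alt (nat_lit 6) (.exp (.alt (nat_lit 30) (.exp (.alt (nat_lit 18) (.cov (nat_lit 59951927036269821953)) (.alt (nat_lit 27) (.cov (nat_lit 765460495)) .e))) .e)) .e)) .e)) .e)) (.alt (nat_lit 21) (.cov (nat_lit 406907504569936885317635)) (.alt (nat_lit 21) (.exp (.alt (nat_lit 23) (.exp (.alt (nat_lit 20) (.cov (nat_lit 1614090139455593644034)) (.alt (nat_lit 20) (.cov (nat_lit 45651080039349857812481)) (.alt (nat_lit 20) (.exp (.alt (nat_lit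 16) (.cov (nat_lit 46674874210095837741059)) (.alt (nat_lit 22) (.exp (.alt (nat_lit 6) (.exp (.alt (nat_lit 18) (.cov (nat_lit 1609478429237035663361)) (.alt (nat_lit 18) (.exp (.alt (nat_lit 26) (.cov (nat_lit 202914195805949657088)) (.alt (nat_lit 19) (.cov (nat_lit 28311560)) .e))) .e))) .e)) (.alt (nat_lit 16) (.cov (nat_lit 159234654800)) .e)))) .e)))) .e)) (.alt (nat_lit 21) (.cov (nat_lit 259001490)) .e))))) .e))))) .e)))))))) .e)))))))) .e)) .e)) .e)) .e)) .e)) .e)) .e)) .e)) (.alt (nat_lit 7) (.exp (.alt (nat_lit 3) (.exp (.alt (nat_lit 5) (.exp (.alt (nat_lit 1) (.exp (.alt (nat_lit 9) (.exp (.alt (nat_lit 17) (.exp (.alt (nat_lit 13) (.exp (.alt (nat_lit 12) (.exp (.alt (nat_lit 29) (.exp (.alt (nat_lit 0) (.exp (.alt (nat_lit 4) (.exp (.alt (nat_lit 6) (.exp (.alt (nat_lit 20) (.exp (.alt (nat_lit 28) (.exp (.alt (nat_lit 24) (.exp (.alt (nat_lit 30) (.exp (.alt (nat_lit 2) (.cov (nat_lit 102070446654649656147971)) (.alt (nat_lit 2) (.cov (nat_lit 6534759105703805190145))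 (.alt (nat_lit 2) (.cov (nat_lit 6534759121096967979008)) (.alt (nat_lit 2) (.exp (.alt (nat_lit 18) (.cov (nat_lit 102107340142797512507393)) (.alt (nat_lit 10) (.cov (nat_lit 228589583)) .e))) .e))))) .e)) .e)) .e)) .e)) .e)) .e)) (.alt (nat_lit 0) (.exp (.alt (nat_lit 4) (.cov (nat_lit 55573806375999148606933351761182720)) (.alt (nat_lit 4) (.exp (.alt (nat_lit 6) (.exp (.alt (nat_lit 14) (.exp (.alt (nat_lit 10) (.exp (.alt (nat_lit 30) (.exp (.alt (nat_lit 16) (.cov (nat_lit 6534759105705094938627)) (.alt (nat_lit 16) (.exp (.alt (nat_lit 20) (.exp (.alt (nat_lit 18) (.cov (nat_lit 59951927036272967681)) (.alt (nat_lit 24) (.cov (nat_lit 228589583)) .e))) .e)) (.alt (nat_lit 16) (.exp (.alt (nat_lit 18) (.cov (nat_lit 59951927035672133634)) (.alt (nat_lit 20) (.cov (nat_lit 1298137155)) .e))) .e)))) .e)) .e)) .e)) .e)) .e))) (.alt (nat_lit 0) (.cov (nat_lit 5128201236439615143942)) (.alt (nat_lit 0) (.exp (.alt (nat_lit 4) (.exp (.alt (nat_lit 6) (.exp (.alt (nat_lit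 20) (.exp (.alt (nat_lit 16) (.cov (nat_lit 29053621949087843614727)) (.alt (nat_lit 16) (.cov (nat_lit 6534759228868046880771)) (.alt (nat_lit 16) (.cov (nat_lit 23210616150759114276865)) (.alt (nat_lit 16) (.exp (.alt (nat_lit 24) (.exp (.alt (nat_lit 18) (.cov (nat_lit 45438942357158534053890)) (.alt (nat_lit 18) (.cov (nat_lit 493450436966845775873)) (.alt (nat_lit 18) (.cov (nat_lit 365591409258165736308736)) (.alt (nat_lit 18) (.exp (.alt (nat_lit 22) (.cov (nat_lit 45448165720399300001795)) (.alt (nat_lit 22) (.cov (nat_lit 350188377826876514631681)) (.alt (nat_lit 22) (.cov (nat_lit 350188377842269073440768)) (.alt (nat_lit 22) (.exp (.alt (nat_lit 30) (.cov (nat_lit 102107340142806685450241)) (.alt (nat_lit 23) (.cov (nat_lit 47579136015)) .e))) .e))))) .e))))) .e)) (.alt (nat_lit 16) (.exp (.alt (nat_lit 18) (.cov (nat_lit 493450437140951334914)) (.alt (nat_lit 24) (.cov (nat_lit 6553205972922848509953)) (.alt (nat_lit 24) (.exp (.alt (nat_lit 26) (.cov (nat_lit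 6534759105724441165827)) (.alt (nat_lit 26) (.cov (nat_lit 104671437703182945353728)) (.alt (nat_lit 28) (.cov (nat_lit 159280791743)) .e)))) .e)))) .e)))))) .e)) .e)) .e)) (.alt (nat_lit 0) (.exp (.alt (nat_lit 4) (.exp (.alt (nat_lit 6) (.exp (.alt (nat_lit 2) (.exp (.alt (nat_lit 10) (.exp (.alt (nat_lit 26) (.exp (.alt (nat_lit 27) (.exp (.alt (nat_lit 24) (.exp (.alt (nat_lit 18) (.cov (nat_lit 25285874447834084802561)) (.alt (nat_lit 18) (.exp (.alt (nat_lit 22) (.cov (nat_lit 25304321194106217824256)) (.alt (nat_lit 19) (.cov (nat_lit 292552712)) .e))) .e))) .e)) .e)) .e)) .e)) (.alt (nat_lit 2) (.cov (nat_lit 21882450577635252633603)) (.alt (nat_lit 2) (.exp (.alt (nat_lit 10) (.exp (.alt (nat_lit 18) (.cov (nat_lit 21730264551816495628290)) (.alt (nat_lit 18) (.cov (nat_lit 258254564367115747329)) (.alt (nat_lit 18) (.exp (.alt (nat_lit 19) (.cov (nat_lit 62257778840979898371)) (.alt (nat_lit 22) (.exp (.alt (nat_lit 23) (.exp (.alt (nat_lit 30) (.cov (nat_lit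 59951927045442764801)) (.alt (nat_lit 20) (.cov (nat_lit 734003215)) .e))) .e)) (.alt (nat_lit 22) (.exp (.alt (nat_lit 30) (.cov (nat_lit 2868468712259235872770)) (.alt (nat_lit 23) (.cov (nat_lit 32505923)) .e))) .e)))) .e)))) .e)) (.alt (nat_lit 2) (.exp (.alt (nat_lit 18) (.cov (nat_lit 21884756259943412137986)) (.alt (nat_lit 10) (.cov (nat_lit 1302333608)) .e))) .e))))) .e)) .e)) (.alt (nat_lit 0) (.exp (.alt (nat_lit 4) (.exp (.alt (nat_lit 16) (.cov (nat_lit 25498012081831945437191)) (.alt (nat_lit 8) (.cov (nat_lit 539574351607982194688)) .e))) .e)) (.alt (nat_lit 0) (.exp (.alt (nat_lit 16) (.exp (.alt (nat_lit 20) (.exp (.alt (nat_lit 21) (.exp (.alt (nat_lit 23) (.exp (.alt (nat_lit 22) (.exp (.alt (nat_lit 6) (.exp (.alt (nat_lit 18) (.exp (.alt (nat_lit 24) (.cov (nat_lit 102107340142796951519233)) (.alt (nat_lit 24) (.exp (.alt (nat_lit 26) (.cov (nat_lit 45402048862412778504192)) (.alt (nat_lit 28) (.cov (nat_lit 159247237128)) .e))) .e))) .e)) .e)) .e))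 .e)) .e)) (.alt (nat_lit 20) (.exp (.alt (nat_lit 22) (.exp (.alt (nat_lit 23) (.exp (.alt (nat_lit 18) (.exp (.alt (nat_lit 2) (.exp (.alt (nat_lit 6) (.exp (.alt (nat_lit 24) (.cov (nat_lit 102107340142796951519233)) (.alt (nat_lit 24) (.exp (.alt (nat_lit 26) (.cov (nat_lit 102070446656848524214272)) (.alt (nat_lit 28) (.cov (nat_lit 159247237128)) .e))) .e))) .e)) .e)) .e)) .e)) (.alt (nat_lit 21) (.exp (.alt (nat_lit 23) (.exp (.alt (nat_lit 31) (.exp (.alt (nat_lit 27) (.exp (.alt (nat_lit 30) (.exp (.alt (nat_lit 18) (.cov (nat_lit 404338795046454788358145)) (.alt (nat_lit 24) (.cov (nat_lit 1872756751)) .e))) .e)) .e)) .e)) .e)) .e))) .e))) (.alt (nat_lit 16) (.cov (nat_lit 103343273288773174034447)) (.alt (nat_lit 16) (.exp (.alt (nat_lit 18) (.exp (.alt (nat_lit 22) (.exp (.alt (nat_lit 23) (.exp (.alt (nat_lit 6) (.exp (.alt (nat_lit 24) (.cov (nat_lit 102107340151604486602754)) (.alt (nat_lit 24) (.exp (.alt (nat_lit 28) (.exp (.alt (nat_lit 20) (.exp (.alt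 (nat_lit 26) (.cov (nat_lit 45402048862412778504192)) (.alt (nat_lit 25) (.cov (nat_lit 47574941704)) .e))) .e)) .e)) (.alt (nat_lit 20) (.cov (nat_lit 25594857547407559753728)) (.alt (nat_lit 20) (.exp (.alt (nat_lit 28) (.cov (nat_lit 55340241182777147395)) (.alt (nat_lit 28) (.cov (nat_lit 350188377827032275353601)) (.alt (nat_lit 28) (.cov (nat_lit 350188377842269074489344)) (.alt (nat_lit 28) (.exp (.alt (nat_lit 24) (.cov (nat_lit 45438942348361205809153)) (.alt (nat_lit 24) (.exp (.alt (nat_lit 26) (.cov (nat_lit 45402048862412778504192)) (.alt (nat_lit 25) (.cov (nat_lit 47574941704)) .e))) .e))) .e))))) .e))))) .e)) .e)) .e)) .e)) (.alt (nat_lit 4) (.cov (nat_lit 384296410897909817540611)) (.alt (nat_lit 4) (.cov (nat_lit 61773541295491345547265)) (.alt (nat_lit 4) (.exp (.alt (nat_lit 6) (.exp (.alt (nat_lit 20) (.cov (nat_lit 406852163950689340358667)) (.alt (nat_lit 20) (.cov (nat_lit 25594857547407728574470)) (.alt (nat_lit 20) (.exp (.alt (nat_lit 16) (.exp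 (.alt (nat_lit 24) (.exp (.alt (nat_lit 18) (.exp (.alt (nat_lit 22) (.cov (nat_lit 45448165720399300001795)) (.alt (nat_lit 22) (.cov (nat_lit 350188377826876514631681)) (.alt (nat_lit 22) (.cov (nat_lit 350188377842269073440768)) (.alt (nat_lit 22) (.exp (.alt (nat_lit 30) (.cov (nat_lit 102107340142806685450241)) (.alt (nat_lit 23) (.cov (nat_lit 47579136015)) .e))) .e))))) .e)) .e)) .e)) (.alt (nat_lit 20) (.exp (.alt (nat_lit 16) (.exp (.alt (nat_lit 18) (.exp (.alt (nat_lit 22) (.cov (nat_lit 47956922923219892043779)) (.alt (nat_lit 22) (.exp (.alt (nat_lit 23) (.exp (.alt (nat_lit 30) (.cov (nat_lit 102107340142797521944577)) (.alt (nat_lit 30) (.exp (.alt (nat_lit 26) (.cov (nat_lit 136044748538734706688)) (.alt (nat_lit 28) (.cov (nat_lit 13212057608)) .e))) .e))) .e)) (.alt (nat_lit 22) (.cov (nat_lit 47007662672)) .e)))) .e)) .e)) (.alt (nat_lit 20) (.cov (nat_lit 507290346057680027648)) (.alt (nat_lit 20) (.exp (.alt (nat_lit 16) (.cov (nat_lit 406842940578652481388551))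 (.alt (nat_lit 16) (.cov (nat_lit 6534759228868046880771)) (.alt (nat_lit 16) (.cov (nat_lit 23210616150758510297089)) (.alt (nat_lit 16) (.exp (.alt (nat_lit 24) (.exp (.alt (nat_lit 18) (.cov (nat_lit 102107340151595890376706)) (.alt (nat_lit 18) (.cov (nat_lit 2847716149374027300865)) (.alt (nat_lit 18) (.cov (nat_lit 23212921721088817233920)) (.alt (nat_lit 18) (.exp (.alt (nat_lit 19) (.cov (nat_lit 102109645985809012097027)) (.alt (nat_lit 19) (.cov (nat_lit 104618403188626718457857)) (.alt (nat_lit 19) (.cov (nat_lit 104618403204019881246720)) (.alt (nat_lit 19) (.exp (.alt (nat_lit 27) (.cov (nat_lit 45438942348370942885889)) (.alt (nat_lit 23) (.cov (nat_lit 47579136015)) .e))) .e))))) .e))))) .e)) (.alt (nat_lit 16) (.exp (.alt (nat_lit 18) (.cov (nat_lit 2847716149548132859906)) (.alt (nat_lit 24) (.cov (nat_lit 6553205972922848509953)) (.alt (nat_lit 24) (.exp (.alt (nat_lit 26) (.cov (nat_lit 21882450175076557914115)) (.alt (nat_lit 26) (.cov (nat_lit 104671437703182945353728))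 (.alt (nat_lit 25) (.cov (nat_lit 47608496319)) .e)))) .e)))) .e)))))) .e))))))) .e)) (.alt (nat_lit 4) (.exp (.alt (nat_lit 6) (.cov (nat_lit 6543982695602041389067)) (.alt (nat_lit 6) (.exp (.alt (nat_lit 2) (.exp (.alt (nat_lit 18) (.exp (.alt (nat_lit 10) (.exp (.alt (nat_lit 22) (.cov (nat_lit 3956826621413277302787)) (.alt (nat_lit 22) (.exp (.alt (nat_lit 23) (.exp (.alt (nat_lit 30) (.cov (nat_lit 59951927045442764801)) (.alt (nat_lit 20) (.cov (nat_lit 734003215)) .e))) .e)) (.alt (nat_lit 22) (.exp (.alt (nat_lit 30) (.cov (nat_lit 2868468712259235872770)) (.alt (nat_lit 23) (.cov (nat_lit 32505923)) .e))) .e)))) .e)) .e)) .e)) (.alt (nat_lit 6) (.cov (nat_lit 2854638518442706075649)) (.alt (nat_lit 6) (.exp (.alt (nat_lit 2) (.exp (.alt (nat_lit 10) (.exp (.alt (nat_lit 26) (.exp (.alt (nat_lit 27) (.exp (.alt (nat_lit 24) (.exp (.alt (nat_lit 18) (.cov (nat_lit 25285874447834084802561)) (.alt (nat_lit 18) (.exp (.alt (nat_lit 22) (.cov (nat_lit 25304321194106217824256))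 (.alt (nat_lit 19) (.cov (nat_lit 292552712)) .e))) .e))) .e)) .e)) .e)) .e)) (.alt (nat_lit 2) (.cov (nat_lit 21882450577635252633603)) (.alt (nat_lit 2) (.exp (.alt (nat_lit 10) (.exp (.alt (nat_lit 18) (.cov (nat_lit 21730264551816495628290)) (.alt (nat_lit 18) (.cov (nat_lit 258254564367115747329)) (.alt (nat_lit 18) (.exp (.alt (nat_lit 19) (.cov (nat_lit 62257778840979898371)) (.alt (nat_lit 22) (.exp (.alt (nat_lit 23) (.exp (.alt (nat_lit 30) (.cov (nat_lit 59951927045442764801)) (.alt (nat_lit 20) (.cov (nat_lit 734003215)) .e))) .e)) (.alt (nat_lit 22) (.exp (.alt (nat_lit 30) (.cov (nat_lit 2868468712259235872770)) (.alt (nat_lit 23) (.cov (nat_lit 32505923)) .e))) .e)))) .e)))) .e)) (.alt (nat_lit 2) (.exp (.alt (nat_lit 18) (.cov (nat_lit 21884756259943412137986)) (.alt (nat_lit 10) (.cov (nat_lit 1302333608)) .e))) .e))))) .e))))) .e)))))))) .e)))))))) .e)) .e)) .e)) .e)) .e)) .e)) (.alt (nat_lit 5) (.exp (.alt (nat_lit 1) (.exp (.alt (nat_lit 9) (.exp (.alt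 (nat_lit 17) (.exp (.alt (nat_lit 19) (.exp (.alt (nat_lit 23) (.exp (.alt (nat_lit 18) (.exp (.alt (nat_lit 0) (.cov (nat_lit 404435640864070560645139)) (.alt (nat_lit 0) (.cov (nat_lit 22837071010443510677515)) (.alt (nat_lit 0) (.cov (nat_lit 365337771261660776890374)) (.alt (nat_lit 0) (.exp (.alt (nat_lit 2) (.exp (.alt (nat_lit 6) (.exp (.alt (nat_lit 10) (.exp (.alt (nat_lit 8) (.cov (nat_lit 345350719208938778132487)) (.alt (nat_lit 8) (.cov (nat_lit 55340373124757585923)) (.alt (nat_lit 8) (.cov (nat_lit 1383506225541704318977)) (.alt (nat_lit 8) (.exp (.alt (nat_lit 12) (.exp (.alt (nat_lit 24) (.cov (nat_lit 25299709514685566943234)) (.alt (nat_lit 24) (.cov (nat_lit 428886832699716665345)) (.alt (nat_lit 24) (.cov (nat_lit 207526018163807354880)) (.alt (nat_lit 24) (.exp (.alt (nat_lit 26) (.cov (nat_lit 25304321191907903406083)) (.alt (nat_lit 26) (.cov (nat_lit 1840062738944775684097)) (.alt (nat_lit 26) (.cov (nat_lit 1840062754337904918528)) (.alt (nat_lit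 26) (.exp (.alt (nat_lit 30) (.cov (nat_lit 6410243574410798694401)) (.alt (nat_lit 27) (.cov (nat_lit 300941327)) .e))) .e))))) .e))))) .e)) (.alt (nat_lit 8) (.exp (.alt (nat_lit 24) (.cov (nat_lit 428886832865253261314)) (.alt (nat_lit 12) (.cov (nat_lit 64563745151839633409)) (.alt (nat_lit 12) (.exp (.alt (nat_lit 28) (.cov (nat_lit 55340249824811286531)) (.alt (nat_lit 28) (.cov (nat_lit 55340375157661237248)) (.alt (nat_lit 14) (.cov (nat_lit 65011903)) .e)))) .e)))) .e)))))) .e)) .e)) .e)) (.alt (nat_lit 0) (.exp (.alt (nat_lit 2) (.exp (.alt (nat_lit 6) (.exp (.alt (nat_lit 16) (.exp (.alt (nat_lit 20) (.exp (.alt (nat_lit 28) (.exp (.alt (nat_lit 29) (.exp (.alt (nat_lit 12) (.exp (.alt (nat_lit 24) (.cov (nat_lit 45438942348361205809153)) (.alt (nat_lit 24) (.exp (.alt (nat_lit 26) (.cov (nat_lit 364060329363708427894784)) (.alt (nat_lit 25) (.cov (nat_lit 47574941704)) .e))) .e))) .e)) .e)) .e)) .e)) (.alt (nat_lit 16) (.cov (nat_lit 1973802035919913484291))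 (.alt (nat_lit 16) (.exp (.alt (nat_lit 20) (.exp (.alt (nat_lit 24) (.cov (nat_lit 406806047090502821478402)) (.alt (nat_lit 24) (.cov (nat_lit 347628892216391118094337)) (.alt (nat_lit 24) (.exp (.alt (nat_lit 25) (.cov (nat_lit 10175685217298651545603)) (.alt (nat_lit 26) (.exp (.alt (nat_lit 27) (.exp (.alt (nat_lit 30) (.cov (nat_lit 102111951828815934652417)) (.alt (nat_lit 10) (.cov (nat_lit 183859413007)) .e))) .e)) (.alt (nat_lit 26) (.exp (.alt (nat_lit 30) (.cov (nat_lit 1581808313117424222210)) (.alt (nat_lit 27) (.cov (nat_lit 46438285379)) .e))) .e)))) .e)))) .e)) (.alt (nat_lit 16) (.exp (.alt (nat_lit 24) (.cov (nat_lit 131433311030587949058)) (.alt (nat_lit 20) (.cov (nat_lit 11639195816)) .e))) .e))))) .e)) .e)) (.alt (nat_lit 0) (.cov (nat_lit 3855382531821994508288)) (.alt (nat_lit 0) (.exp (.alt (nat_lit 16) (.exp (.alt (nat_lit 20) (.exp (.alt (nat_lit 21) (.exp (.alt (nat_lit 29) (.exp (.alt (nat_lit 4) (.exp (.alt (nat_lit 6) (.exp (.alt (nat_lit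 12) (.exp (.alt (nat_lit 24) (.cov (nat_lit 45438942348361205809153)) (.alt (nat_lit 24) (.exp (.alt (nat_lit 26) (.cov (nat_lit 438110182745728614400)) (.alt (nat_lit 25) (.cov (nat_lit 47574941704)) .e))) .e))) .e)) .e)) .e)) .e)) .e)) (.alt (nat_lit 20) (.cov (nat_lit 55340372959359401995)) .e))) (.alt (nat_lit 16) (.cov (nat_lit 4251974929016705515535)) (.alt (nat_lit 16) (.exp (.alt (nat_lit 20) (.exp (.alt (nat_lit 4) (.exp (.alt (nat_lit 6) (.exp (.alt (nat_lit 12) (.exp (.alt (nat_lit 24) (.cov (nat_lit 102107340151593010987010)) (.alt (nat_lit 24) (.cov (nat_lit 1607172610407335460865)) (.alt (nat_lit 24) (.cov (nat_lit 1976107606230702227456)) (.alt (nat_lit 24) (.exp (.alt (nat_lit 25) (.cov (nat_lit 102109645985806132707331)) (.alt (nat_lit 25) (.cov (nat_lit 104618403188626724749313)) (.alt (nat_lit 25) (.cov (nat_lit 104618403204019887538176)) (.alt (nat_lit 25) (.exp (.alt (nat_lit 27) (.cov (nat_lit 71481142081729069057)) (.alt (nat_lit 29) (.cov (nat_lit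 47579136015)) .e))) .e))))) .e))))) .e)) .e)) .e)) .e)) (.alt (nat_lit 2) (.cov (nat_lit 3859984493943434772483)) (.alt (nat_lit 2) (.cov (nat_lit 43114659664933548982273)) (.alt (nat_lit 2) (.exp (.alt (nat_lit 6) (.exp (.alt (nat_lit 10) (.cov (nat_lit 405565503551545150537739)) (.alt (nat_lit 10) (.cov (nat_lit 25341214816394058661894)) (.alt (nat_lit 10) (.exp (.alt (nat_lit 8) (.exp (.alt (nat_lit 12) (.exp (.alt (nat_lit 24) (.exp (.alt (nat_lit 26) (.cov (nat_lit 25304321191907903406083)) (.alt (nat_lit 26) (.cov (nat_lit 1840062738944775684097)) (.alt (nat_lit 26) (.cov (nat_lit 1840062754337904918528)) (.alt (nat_lit 26) (.exp (.alt (nat_lit 30) (.cov (nat_lit 6410243574410798694401)) (.alt (nat_lit 27) (.cov (nat_lit 300941327)) .e))) .e))))) .e)) .e)) .e)) (.alt (nat_lit 10) (.exp (.alt (nat_lit 8) (.exp (.alt (nat_lit 24) (.exp (.alt (nat_lit 26) (.cov (nat_lit 26706273750305922351107)) (.alt (nat_lit 26) (.exp (.alt (nat_lit 27) (.exp (.alt (nat_lit 30) (.cov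 (nat_lit 6410243574410210443265)) (.alt (nat_lit 30) (.exp (.alt (nat_lit 28) (.cov (nat_lit 343914178992208376496128)) (.alt (nat_lit 14) (.cov (nat_lit 157047324680)) .e))) .e))) .e)) (.alt (nat_lit 26) (.cov (nat_lit 3588227664)) .e)))) .e)) .e)) (.alt (nat_lit 10) (.cov (nat_lit 6673114552695089266688)) (.alt (nat_lit 10) (.exp (.alt (nat_lit 8) (.cov (nat_lit 43119264305281450901511)) (.alt (nat_lit 8) (.cov (nat_lit 55340373124757585923)) (.alt (nat_lit 8) (.cov (nat_lit 1383506225541670764545)) (.alt (nat_lit 8) (.exp (.alt (nat_lit 12) (.exp (.alt (nat_lit 24) (.cov (nat_lit 6410243583206450266114)) (.alt (nat_lit 24) (.cov (nat_lit 1607172610407914274817)) (.alt (nat_lit 24) (.cov (nat_lit 1385811795872004964352)) (.alt (nat_lit 24) (.exp (.alt (nat_lit 25) (.cov (nat_lit 6412549417419571986435)) (.alt (nat_lit 25) (.cov (nat_lit 657165275218117132289)) (.alt (nat_lit 25) (.cov (nat_lit 657165290611279921152)) (.alt (nat_lit 25) (.exp (.alt (nat_lit 29) (.cov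 (nat_lit 25299709505889379549185)) (.alt (nat_lit 27) (.cov (nat_lit 300941327)) .e))) .e))))) .e))))) .e)) (.alt (nat_lit 8) (.exp (.alt (nat_lit 24) (.cov (nat_lit 1607172610573450870786)) (.alt (nat_lit 12) (.cov (nat_lit 64563745151839633409)) (.alt (nat_lit 12) (.exp (.alt (nat_lit 28) (.cov (nat_lit 129127226111059558403)) (.alt (nat_lit 28) (.cov (nat_lit 55340375157661237248)) (.alt (nat_lit 13) (.cov (nat_lit 30408895)) .e)))) .e)))) .e)))))) .e))))))) .e)) (.alt (nat_lit 2) (.exp (.alt (nat_lit 6) (.cov (nat_lit 21522738795520177733643)) (.alt (nat_lit 6) (.cov (nat_lit 2633274563702292480002)) (.alt (nat_lit 6) (.cov (nat_lit 3869207865796495147009)) (.alt (nat_lit 6) (.exp (.alt (nat_lit 22) (.exp (.alt (nat_lit 20) (.exp (.alt (nat_lit 28) (.exp (.alt (nat_lit 29) (.exp (.alt (nat_lit 12) (.exp (.alt (nat_lit 30) (.cov (nat_lit 404338795046454818766849)) (.alt (nat_lit 30) (.exp (.alt (nat_lit 26) (.cov (nat_lit 41671194873505021689856)) (.alt (nat_lit 31)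 (.cov (nat_lit 4625268744)) .e))) .e))) .e)) .e)) .e)) .e)) (.alt (nat_lit 22) (.cov (nat_lit 22057694646171187806211)) (.alt (nat_lit 22) (.exp (.alt (nat_lit 20) (.exp (.alt (nat_lit 30) (.cov (nat_lit 406819882148558109933570)) (.alt (nat_lit 30) (.cov (nat_lit 26521806439311102443521)) (.alt (nat_lit 30) (.exp (.alt (nat_lit 31) (.cov (nat_lit 104623014874691555819523)) (.alt (nat_lit 26) (.exp (.alt (nat_lit 27) (.exp (.alt (nat_lit 24) (.cov (nat_lit 102111951828815357935617)) (.alt (nat_lit 10) (.cov (nat_lit 20644364303)) .e))) .e)) (.alt (nat_lit 26) (.exp (.alt (nat_lit 24) (.cov (nat_lit 1567973255062135767042)) (.alt (nat_lit 27) (.cov (nat_lit 3482320963)) .e))) .e)))) .e)))) .e)) (.alt (nat_lit 22) (.exp (.alt (nat_lit 30) (.cov (nat_lit 1399646966261328379906)) (.alt (nat_lit 20) (.cov (nat_lit 11639195816)) .e))) .e))))) .e))))) .e)))))))) .e)))))))) .e)) .e)) .e)) .e)) .e)) .e)) .e))) .e)) .e))) .e)))])]) (by decide +kernel)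
  exact h _ List.mem_cons_self

theorem t15_15 : GF FULL [0, 15] [15, 9] := by
  have h := JT.chkW_ok (zs := [0, 15]) good (by decide) (by decide)
    (L := [([15, 9], [.cov (nat_lit 10143403896720928546016),
      .cov (nat_lit 404313432902192328613088),
      .cov (nat_lit 34589778201131619959),
      .cov (nat_lit 772458527399188895351),
      .cov (nat_lit 34588144316585090034),
      .cov (nat_lit 25269735675424751491717),
      .cov (nat_lit 34589778192038369925),
      .cov (nat_lit 772458527389424556681),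
      .cov (nat_lit 34588144316585089671),
      .cov (nat_lit 25269735675424751491718),
      .cov (nat_lit 34589778192038369926),
      .cov (nat_lit 772458527389424557541),
      .cov (nat_lit 34588144317189069448),
      .cov (nat_lit 25269735675434952039048),
      .cov (nat_lit 34589778192038369928),
      .cov (nat_lit 772458527389424557542),
      .cov (nat_lit 34588144328027150553),
      .cov (nat_lit 25269735675424214620377),
      .cov (nat_lit 34589778192038369497),
      .cov (nat_lit 772458522991378046190),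
      .cov (nat_lit 34588144328027150555),
      .cov (nat_lit 25269735675423577086171),
      .rot (.exp (.alt (nat_lit 15) (.cov (nat_lit 2920697757341530015334971003109382)) (.alt (nat_lit 15) (.cov (nat_lit 35769697176121945311820120067)) (.alt (nat_lit 15) (.cov (nat_lit 1298110695179633897372359936966658)) (.alt (nat_lit 15) (.cov (nat_lit 486808600067995220948030015406081)) (.alt (nat_lit 15) (.cov (nat_lit 36538574043513889971114082304)) (.alt (nat_lit 15) (.exp (.alt (nat_lit 7) (.cov (nat_lit 22391815947950131547795609191710723)) (.alt (nat_lit 7) (.cov (nat_lit 4056518415783029645619581368139778)) (.alt (nat_lit 7) (.cov (nat_lit 36543409728345432890285228033)) (.alt (nat_lit 7) (.cov (nat_lit 36548245431623937586472419328)) (.alt (nat_lit 7) (.cov (nat_lit 16622416812834910)) .e)))))) .e))))))),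
      .rot (.exp (.alt (nat_lit 15) (.exp (.alt (nat_lit 7) (.exp (.alt (nat_lit 3) (.exp (.alt (nat_lit 5) (.exp (.alt (nat_lit 11) (.exp (.alt (nat_lit 9) (.exp (.alt (nat_lit 10) (.exp (.alt (nat_lit 2) (.exp (.alt (nat_lit 6) (.exp (.alt (nat_lit 0) (.cov (nat_lit 364009602653690133479442)) (.alt (nat_lit 0) (.cov (nat_lit 756321391052758974475)) (.alt (nat_lit 0) (.cov (nat_lit 36902506362434486274)) (.alt (nat_lit 0) (.cov (nat_lit 36904467871146442753)) (.alt (nat_lit 0) (.exp (.alt (nat_lit 16) (.cov (nat_lit 22043859588096980942882)) (.alt (nat_lit 4) (.cov (nat_lit 1374285729983597903879)) (.alt (nat_lit 4) (.cov (nat_lit 415058807304042315779)) (.alt (nat_lit 4) (.cov (nat_lit 46127839907401433088)) (.alt (nat_lit 1) (.cov (nat_lit 51386463)) .e)))))) .e)))))) .e)) .e)) .e)) .e)) (.alt (nat_lit 11) (.exp (.alt (nat_lit 9) (.exp (.alt (nat_lit 13) (.exp (.alt (nat_lit 12) (.exp (.alt (nat_lit 29) (.exp (.alt (nat_lit 0) (.cov (nat_lit 1715549046044471853075))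 (.alt (nat_lit 0) (.cov (nat_lit 6497866105739722883083)) (.alt (nat_lit 0) (.cov (nat_lit 110689480438882238466)) (.alt (nat_lit 0) (.cov (nat_lit 25567199442362032979969)) (.alt (nat_lit 0) (.exp (.alt (nat_lit 2) (.cov (nat_lit 24225188009398016933922)) (.alt (nat_lit 4) (.cov (nat_lit 384296410897918474584071)) (.alt (nat_lit 4) (.cov (nat_lit 530350979571290996739)) (.alt (nat_lit 4) (.exp (.alt (nat_lit 6) (.exp (.alt (nat_lit 20) (.cov (nat_lit 25594857547407554510859)) (.alt (nat_lit 20) (.exp (.alt (nat_lit 16) (.exp (.alt (nat_lit 17) (.exp (.alt (nat_lit 18) (.exp (.alt (nat_lit 22) (.cov (nat_lit 47956922923219892043779)) (.alt (nat_lit 22) (.exp (.alt (nat_lit 23) (.exp (.alt (nat_lit 30) (.cov (nat_lit 59951927036267724801)) (.alt (nat_lit 30) (.exp (.alt (nat_lit 26) (.cov (nat_lit 136044748538734706688)) (.alt (nat_lit 14) (.cov (nat_lit 18935185416)) .e))) .e))) .e)) (.alt (nat_lit 22) (.cov (nat_lit 47007662672)) .e)))) .e)) .e)) .e)) (.alt (nat_lit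 20) (.cov (nat_lit 10233339164985831456769)) (.alt (nat_lit 20) (.exp (.alt (nat_lit 16) (.exp (.alt (nat_lit 17) (.exp (.alt (nat_lit 19) (.exp (.alt (nat_lit 18) (.exp (.alt (nat_lit 23) (.exp (.alt (nat_lit 24) (.cov (nat_lit 428886808509882040321)) (.alt (nat_lit 24) (.exp (.alt (nat_lit 26) (.cov (nat_lit 438110182745728614400)) (.alt (nat_lit 8) (.cov (nat_lit 165534498824)) .e))) .e))) .e)) .e)) .e)) .e)) (.alt (nat_lit 28) (.cov (nat_lit 29127409312403740950531)) (.alt (nat_lit 28) (.exp (.alt (nat_lit 30) (.exp (.alt (nat_lit 24) (.cov (nat_lit 36893521179200978946)) (.alt (nat_lit 24) (.cov (nat_lit 7881371548428934316033)) (.alt (nat_lit 24) (.exp (.alt (nat_lit 25) (.cov (nat_lit 102257219955988687224835)) (.alt (nat_lit 26) (.exp (.alt (nat_lit 10) (.exp (.alt (nat_lit 27) (.cov (nat_lit 43811025980950052865)) (.alt (nat_lit 27) (.exp (.alt (nat_lit 19) (.cov (nat_lit 186773294741444362240)) (.alt (nat_lit 31) (.cov (nat_lit 628097032)) .e))) .e))) .e)) (.alt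 (nat_lit 25) (.cov (nat_lit 47574942288)) .e)))) .e)))) .e)) (.alt (nat_lit 21) (.cov (nat_lit 183929670803)) .e))))) .e))))) .e)) (.alt (nat_lit 1) (.exp (.alt (nat_lit 17) (.cov (nat_lit 560320097530363772947)) (.alt (nat_lit 17) (.cov (nat_lit 82088016012038177292290)) (.alt (nat_lit 17) (.exp (.alt (nat_lit 16) (.cov (nat_lit 345364555535830478749703)) (.alt (nat_lit 21) (.cov (nat_lit 1528781002560652705792)) .e))) .e)))) .e)))))) .e)))))) .e)) .e)) .e)) .e)) .e))) .e)) .e)) .e)) (.alt (nat_lit 15) (.exp (.alt (nat_lit 7) (.exp (.alt (nat_lit 3) (.exp (.alt (nat_lit 11) (.exp (.alt (nat_lit 9) (.exp (.alt (nat_lit 10) (.exp (.alt (nat_lit 2) (.exp (.alt (nat_lit 6) (.exp (.alt (nat_lit 18) (.exp (.alt (nat_lit 0) (.cov (nat_lit 21508905437127761723412)) (.alt (nat_lit 0) (.cov (nat_lit 345332275728218423558155)) (.alt (nat_lit 0) (.cov (nat_lit 6530156420290442166274)) (.alt (nat_lit 0) (.cov (nat_lit 384319477013587541622785)) (.alt (nat_lit 0) (.exp (.alt (nat_lit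 16) (.cov (nat_lit 5358780455235021176866)) (.alt (nat_lit 1) (.cov (nat_lit 345334581571234516959239)) (.alt (nat_lit 1) (.cov (nat_lit 2843111495831974313987)) (.alt (nat_lit 1) (.exp (.alt (nat_lit 5) (.exp (.alt (nat_lit 17) (.cov (nat_lit 104687578606447748972555)) (.alt (nat_lit 17) (.exp (.alt (nat_lit 25) (.exp (.alt (nat_lit 27) (.exp (.alt (nat_lit 29) (.exp (.alt (nat_lit 21) (.cov (nat_lit 63281555562462591320067)) (.alt (nat_lit 21) (.exp (.alt (nat_lit 23) (.exp (.alt (nat_lit 20) (.cov (nat_lit 404343406732482390786049)) (.alt (nat_lit 20) (.exp (.alt (nat_lit 28) (.cov (nat_lit 216749253861216092160)) (.alt (nat_lit 16) (.cov (nat_lit 21801992200)) .e))) .e))) .e)) (.alt (nat_lit 21) (.cov (nat_lit 183865705040)) .e)))) .e)) .e)) .e)) (.alt (nat_lit 17) (.cov (nat_lit 25292796852105443803137)) (.alt (nat_lit 17) (.exp (.alt (nat_lit 25) (.exp (.alt (nat_lit 27) (.exp (.alt (nat_lit 31) (.exp (.alt (nat_lit 23) (.exp (.alt (nat_lit 29) (.exp (.alt (nat_lit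 24) (.cov (nat_lit 365383883248798667898881)) (.alt (nat_lit 24) (.exp (.alt (nat_lit 28) (.cov (nat_lit 25281262764014069350400)) (.alt (nat_lit 26) (.cov (nat_lit 12144607240)) .e))) .e))) .e)) .e)) .e)) .e)) (.alt (nat_lit 16) (.cov (nat_lit 344336148671912812216323)) (.alt (nat_lit 16) (.exp (.alt (nat_lit 24) (.exp (.alt (nat_lit 20) (.cov (nat_lit 493450437003514478594)) (.alt (nat_lit 20) (.cov (nat_lit 6396408652704090423297)) (.alt (nat_lit 20) (.exp (.alt (nat_lit 22) (.cov (nat_lit 29067456991741311188995)) (.alt (nat_lit 28) (.exp (.alt (nat_lit 12) (.exp (.alt (nat_lit 30) (.cov (nat_lit 25306627034916411408385)) (.alt (nat_lit 30) (.exp (.alt (nat_lit 31) (.cov (nat_lit 288230387146856333312)) (.alt (nat_lit 26) (.cov (nat_lit 1370488840)) .e))) .e))) .e)) (.alt (nat_lit 22) (.cov (nat_lit 11607736912)) .e)))) .e)))) .e)) (.alt (nat_lit 19) (.cov (nat_lit 9993981075)) .e))))) .e))))) .e)) (.alt (nat_lit 1) (.cov (nat_lit 13192140891)) .e)))))) .e)))))) .e))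 .e)) .e)) .e)) .e)) .e)) .e)) .e)) (.alt (nat_lit 15) (.exp (.alt (nat_lit 7) (.exp (.alt (nat_lit 3) (.exp (.alt (nat_lit 11) (.exp (.alt (nat_lit 9) (.exp (.alt (nat_lit 5) (.exp (.alt (nat_lit 13) (.exp (.alt (nat_lit 12) (.exp (.alt (nat_lit 29) (.exp (.alt (nat_lit 0) (.cov (nat_lit 27753128306076209381395)) (.alt (nat_lit 0) (.cov (nat_lit 447334049565707862027)) (.alt (nat_lit 0) (.cov (nat_lit 110689480438882238466)) (.alt (nat_lit 0) (.cov (nat_lit 404537109692651065573377)) (.alt (nat_lit 0) (.exp (.alt (nat_lit 2) (.cov (nat_lit 1489575938560154927138)) (.alt (nat_lit 8) (.cov (nat_lit 384305634269946038976519)) (.alt (nat_lit 8) (.cov (nat_lit 539574351610867875843)) (.alt (nat_lit 8) (.exp (.alt (nat_lit 10) (.exp (.alt (nat_lit 24) (.cov (nat_lit 404564767797696851345419)) (.alt (nat_lit 24) (.exp (.alt (nat_lit 16) (.exp (.alt (nat_lit 17) (.exp (.alt (nat_lit 18) (.exp (.alt (nat_lit 26) (.cov (nat_lit 4275032956684771262467)) (.alt (nat_lit 26) (.exp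 (.alt (nat_lit 27) (.exp (.alt (nat_lit 30) (.cov (nat_lit 50728555008573308929)) (.alt (nat_lit 30) (.exp (.alt (nat_lit 22) (.cov (nat_lit 126821376501875736576)) (.alt (nat_lit 14) (.cov (nat_lit 18930991112)) .e))) .e))) .e)) (.alt (nat_lit 26) (.cov (nat_lit 3487564368)) .e)))) .e)) .e)) .e)) (.alt (nat_lit 24) (.cov (nat_lit 797829571283395805185)) (.alt (nat_lit 24) (.exp (.alt (nat_lit 16) (.exp (.alt (nat_lit 17) (.exp (.alt (nat_lit 19) (.exp (.alt (nat_lit 18) (.exp (.alt (nat_lit 27) (.exp (.alt (nat_lit 20) (.cov (nat_lit 6396408516354917793793)) (.alt (nat_lit 20) (.exp (.alt (nat_lit 22) (.cov (nat_lit 6414855262627619143680)) (.alt (nat_lit 4) (.cov (nat_lit 19534970888)) .e))) .e))) .e)) .e)) .e)) .e)) (.alt (nat_lit 28) (.cov (nat_lit 1964578663863708286979)) (.alt (nat_lit 28) (.exp (.alt (nat_lit 30) (.exp (.alt (nat_lit 20) (.cov (nat_lit 627189331537902436354)) (.alt (nat_lit 20) (.cov (nat_lit 104680661075219806420993)) (.alt (nat_lit 20) (.exp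 (.alt (nat_lit 21) (.cov (nat_lit 6620075305852287844355)) (.alt (nat_lit 22) (.exp (.alt (nat_lit 6) (.exp (.alt (nat_lit 23) (.cov (nat_lit 43811025971789692929)) (.alt (nat_lit 23) (.exp (.alt (nat_lit 19) (.cov (nat_lit 2621743512471105175552)) (.alt (nat_lit 31) (.cov (nat_lit 9792651272)) .e))) .e))) .e)) (.alt (nat_lit 21) (.cov (nat_lit 3547333200)) .e)))) .e)))) .e)) (.alt (nat_lit 25) (.cov (nat_lit 11594108051)) .e))))) .e))))) .e)) (.alt (nat_lit 1) (.exp (.alt (nat_lit 17) (.cov (nat_lit 8898248418846305157139)) (.alt (nat_lit 17) (.cov (nat_lit 5201986712816770351106)) (.alt (nat_lit 17) (.exp (.alt (nat_lit 16) (.cov (nat_lit 22767895174798607646727)) (.alt (nat_lit 25) (.cov (nat_lit 1538004374597511675904)) .e))) .e)))) .e)))))) .e)))))) .e)) .e)) .e)) .e)) .e)) .e)) .e)) (.alt (nat_lit 7) (.exp (.alt (nat_lit 3) (.exp (.alt (nat_lit 5) (.exp (.alt (nat_lit 1) (.exp (.alt (nat_lit 9) (.exp (.alt (nat_lit 13) (.exp (.alt (nat_lit 12) (.exp (.alt (nat_lit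 29) (.exp (.alt (nat_lit 0) (.cov (nat_lit 1715549046044471853075)) (.alt (nat_lit 0) (.cov (nat_lit 2956098627907581116427)) (.alt (nat_lit 0) (.cov (nat_lit 110689480438882238466)) (.alt (nat_lit 0) (.cov (nat_lit 1955367028014375239681)) (.alt (nat_lit 0) (.exp (.alt (nat_lit 2) (.cov (nat_lit 21864004715186636193826)) (.alt (nat_lit 4) (.cov (nat_lit 384296410897918474584071)) (.alt (nat_lit 4) (.cov (nat_lit 1595650427838877663235)) (.alt (nat_lit 4) (.exp (.alt (nat_lit 6) (.exp (.alt (nat_lit 20) (.cov (nat_lit 26747779052025949454347)) (.alt (nat_lit 20) (.exp (.alt (nat_lit 16) (.exp (.alt (nat_lit 17) (.exp (.alt (nat_lit 18) (.exp (.alt (nat_lit 22) (.cov (nat_lit 47956922923219892043779)) (.alt (nat_lit 22) (.exp (.alt (nat_lit 23) (.exp (.alt (nat_lit 30) (.cov (nat_lit 102107340142797521944577)) (.alt (nat_lit 30) (.exp (.alt (nat_lit 26) (.cov (nat_lit 136044748538734706688)) (.alt (nat_lit 28) (.cov (nat_lit 13212057608)) .e))) .e))) .e)) (.alt (nat_lit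 22) (.cov (nat_lit 47007662672)) .e)))) .e)) .e)) .e)) (.alt (nat_lit 20) (.cov (nat_lit 6530152286124457852929)) (.alt (nat_lit 20) (.exp (.alt (nat_lit 16) (.exp (.alt (nat_lit 17) (.exp (.alt (nat_lit 19) (.exp (.alt (nat_lit 23) (.exp (.alt (nat_lit 18) (.exp (.alt (nat_lit 24) (.cov (nat_lit 45438942348361205809153)) (.alt (nat_lit 24) (.exp (.alt (nat_lit 26) (.cov (nat_lit 438110182745728614400)) (.alt (nat_lit 25) (.cov (nat_lit 47574941704)) .e))) .e))) .e)) .e)) .e)) .e)) (.alt (nat_lit 28) (.cov (nat_lit 350262165205601770012675)) (.alt (nat_lit 28) (.exp (.alt (nat_lit 24) (.exp (.alt (nat_lit 30) (.cov (nat_lit 21764852197119561302018)) (.alt (nat_lit 30) (.cov (nat_lit 2875386377625629884417)) (.alt (nat_lit 30) (.exp (.alt (nat_lit 31) (.cov (nat_lit 7809890289799696220163)) (.alt (nat_lit 26) (.exp (.alt (nat_lit 10) (.exp (.alt (nat_lit 27) (.cov (nat_lit 412745907455134793729)) (.alt (nat_lit 27) (.exp (.alt (nat_lit 19) (.cov (nat_lit 1369670758468068311040))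 (.alt (nat_lit 25) (.cov (nat_lit 51380232)) .e))) .e))) .e)) (.alt (nat_lit 31) (.cov (nat_lit 4625269328)) .e)))) .e)))) .e)) (.alt (nat_lit 21) (.cov (nat_lit 13204720787)) .e))))) .e))))) .e)) (.alt (nat_lit 4) (.cov (nat_lit 3529513051)) .e)))))) .e)))))) .e)) .e)) .e)) .e)) .e)) (.alt (nat_lit 5) (.exp (.alt (nat_lit 1) (.exp (.alt (nat_lit 9) (.exp (.alt (nat_lit 17) (.exp (.alt (nat_lit 19) (.exp (.alt (nat_lit 23) (.exp (.alt (nat_lit 0) (.cov (nat_lit 41634303221542735052820)) (.alt (nat_lit 0) (.cov (nat_lit 3855372807753206595595)) (.alt (nat_lit 0) (.exp (.alt (nat_lit 2) (.exp (.alt (nat_lit 18) (.exp (.alt (nat_lit 6) (.exp (.alt (nat_lit 16) (.exp (.alt (nat_lit 20) (.exp (.alt (nat_lit 28) (.exp (.alt (nat_lit 29) (.exp (.alt (nat_lit 12) (.exp (.alt (nat_lit 24) (.cov (nat_lit 45438942348361205809153)) (.alt (nat_lit 24) (.exp (.alt (nat_lit 26) (.cov (nat_lit 364060329363708427894784)) (.alt (nat_lit 25) (.cov (nat_lit 47574941704)) .e))) .e))) .e))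 .e)) .e)) .e)) (.alt (nat_lit 16) (.cov (nat_lit 1973802035919913484291)) (.alt (nat_lit 16) (.exp (.alt (nat_lit 20) (.exp (.alt (nat_lit 24) (.cov (nat_lit 406806047090502821478402)) (.alt (nat_lit 24) (.cov (nat_lit 347628892216391118094337)) (.alt (nat_lit 24) (.exp (.alt (nat_lit 25) (.cov (nat_lit 10175685217298651545603)) (.alt (nat_lit 26) (.exp (.alt (nat_lit 27) (.exp (.alt (nat_lit 30) (.cov (nat_lit 102111951828815934652417)) (.alt (nat_lit 10) (.cov (nat_lit 183859413007)) .e))) .e)) (.alt (nat_lit 26) (.exp (.alt (nat_lit 30) (.cov (nat_lit 1581808313117424222210)) (.alt (nat_lit 27) (.cov (nat_lit 46438285379)) .e))) .e)))) .e)))) .e)) (.alt (nat_lit 16) (.exp (.alt (nat_lit 24) (.cov (nat_lit 131433311030587949058)) (.alt (nat_lit 20) (.cov (nat_lit 11639195816)) .e))) .e))))) .e)) .e)) .e)) (.alt (nat_lit 0) (.cov (nat_lit 3043725792578822471681)) (.alt (nat_lit 0) (.exp (.alt (nat_lit 16) (.cov (nat_lit 276702506909809246242)) (.alt (nat_lit 2) (.cov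 (nat_lit 3859984493761334870023)) (.alt (nat_lit 2) (.cov (nat_lit 613361347877855559683)) (.alt (nat_lit 2) (.exp (.alt (nat_lit 18) (.exp (.alt (nat_lit 6) (.cov (nat_lit 21522738795520177733643)) (.alt (nat_lit 6) (.cov (nat_lit 2633274563702292480002)) (.alt (nat_lit 6) (.cov (nat_lit 3869207865796495147009)) (.alt (nat_lit 6) (.exp (.alt (nat_lit 22) (.exp (.alt (nat_lit 20) (.exp (.alt (nat_lit 28) (.exp (.alt (nat_lit 29) (.exp (.alt (nat_lit 12) (.exp (.alt (nat_lit 30) (.cov (nat_lit 404338795046454818766849)) (.alt (nat_lit 30) (.exp (.alt (nat_lit 26) (.cov (nat_lit 41671194873505021689856)) (.alt (nat_lit 31) (.cov (nat_lit 4625268744)) .e))) .e))) .e)) .e)) .e)) .e)) (.alt (nat_lit 22) (.cov (nat_lit 22057694646171187806211)) (.alt (nat_lit 22) (.exp (.alt (nat_lit 20) (.exp (.alt (nat_lit 30) (.cov (nat_lit 406819882148558109933570)) (.alt (nat_lit 30) (.cov (nat_lit 26521806439311102443521)) (.alt (nat_lit 30) (.exp (.alt (nat_lit 31) (.cov (nat_lit 104623014874691555819523))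 (.alt (nat_lit 26) (.exp (.alt (nat_lit 27) (.exp (.alt (nat_lit 24) (.cov (nat_lit 102111951828815357935617)) (.alt (nat_lit 10) (.cov (nat_lit 20644364303)) .e))) .e)) (.alt (nat_lit 26) (.exp (.alt (nat_lit 24) (.cov (nat_lit 1567973255062135767042)) (.alt (nat_lit 27) (.cov (nat_lit 3482320963)) .e))) .e)))) .e)))) .e)) (.alt (nat_lit 22) (.exp (.alt (nat_lit 30) (.cov (nat_lit 1399646966261328379906)) (.alt (nat_lit 20) (.cov (nat_lit 11639195816)) .e))) .e))))) .e))))) .e)) (.alt (nat_lit 2) (.cov (nat_lit 790632875)) .e)))))) .e)))))) .e)) .e)) .e)) .e)) (.alt (nat_lit 1) (.exp (.alt (nat_lit 9) (.exp (.alt (nat_lit 11) (.exp (.alt (nat_lit 10) (.exp (.alt (nat_lit 27) (.exp (.alt (nat_lit 0) (.cov (nat_lit 21785606598231337205779)) (.alt (nat_lit 0) (.cov (nat_lit 25391951107556655497227)) (.alt (nat_lit 0) (.cov (nat_lit 1365068077461334392834)) (.alt (nat_lit 0) (.cov (nat_lit 22025424580209799069697)) (.alt (nat_lit 0) (.exp (.alt (nat_lit 4) (.cov (nat_lit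 1798558849008503095330)) (.alt (nat_lit 2) (.cov (nat_lit 43105432510577478991879)) (.alt (nat_lit 2) (.cov (nat_lit 1591038741830650822659)) (.alt (nat_lit 2) (.exp (.alt (nat_lit 6) (.exp (.alt (nat_lit 18) (.cov (nat_lit 347868699887161821888523)) (.alt (nat_lit 18) (.exp (.alt (nat_lit 16) (.exp (.alt (nat_lit 17) (.exp (.alt (nat_lit 20) (.exp (.alt (nat_lit 22) (.cov (nat_lit 406856775621323128832003)) (.alt (nat_lit 22) (.exp (.alt (nat_lit 23) (.exp (.alt (nat_lit 30) (.cov (nat_lit 102111951828815376809985)) (.alt (nat_lit 30) (.exp (.alt (nat_lit 28) (.cov (nat_lit 1395035031569413701632)) (.alt (nat_lit 26) (.cov (nat_lit 159240945672)) .e))) .e))) .e)) (.alt (nat_lit 22) (.cov (nat_lit 4057989712)) .e)))) .e)) .e)) .e)) (.alt (nat_lit 18) (.cov (nat_lit 627194182536828813313)) (.alt (nat_lit 18) (.exp (.alt (nat_lit 16) (.exp (.alt (nat_lit 17) (.exp (.alt (nat_lit 21) (.exp (.alt (nat_lit 23) (.exp (.alt (nat_lit 20) (.exp (.alt (nat_lit 24) (.cov (nat_lit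 404343406732473239863297)) (.alt (nat_lit 24) (.exp (.alt (nat_lit 28) (.cov (nat_lit 69175301271539679232)) (.alt (nat_lit 25) (.cov (nat_lit 4627365896)) .e))) .e))) .e)) .e)) .e)) .e)) (.alt (nat_lit 26) (.cov (nat_lit 29141244370465895481347)) (.alt (nat_lit 26) (.exp (.alt (nat_lit 24) (.exp (.alt (nat_lit 30) (.cov (nat_lit 1694794644923571240962)) (.alt (nat_lit 30) (.cov (nat_lit 25306627171255874224129)) (.alt (nat_lit 30) (.exp (.alt (nat_lit 31) (.cov (nat_lit 7814501975817486073859)) (.alt (nat_lit 28) (.exp (.alt (nat_lit 12) (.exp (.alt (nat_lit 29) (.cov (nat_lit 48422711999371149313)) (.alt (nat_lit 29) (.exp (.alt (nat_lit 21) (.cov (nat_lit 119903847474246189056)) (.alt (nat_lit 25) (.cov (nat_lit 621805576)) .e))) .e))) .e)) (.alt (nat_lit 31) (.cov (nat_lit 47577039440)) .e)))) .e)))) .e)) (.alt (nat_lit 19) (.cov (nat_lit 159233608851)) .e))))) .e))))) .e)) (.alt (nat_lit 2) (.cov (nat_lit 46479186011)) .e)))))) .e)))))) .e)) .e)) .e)) .e)) .e)))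 .e))) .e)) (.alt (nat_lit 7) (.exp (.alt (nat_lit 3) (.exp (.alt (nat_lit 11) (.exp (.alt (nat_lit 9) (.exp (.alt (nat_lit 10) (.exp (.alt (nat_lit 1) (.exp (.alt (nat_lit 5) (.exp (.alt (nat_lit 17) (.exp (.alt (nat_lit 0) (.cov (nat_lit 2619439505657770803220)) (.alt (nat_lit 0) (.cov (nat_lit 43100820824569719816203)) (.alt (nat_lit 0) (.cov (nat_lit 25419622351777612955650)) (.alt (nat_lit 0) (.cov (nat_lit 82088022109930248994817)) (.alt (nat_lit 0) (.exp (.alt (nat_lit 16) (.cov (nat_lit 24248246386713602031650)) (.alt (nat_lit 2) (.cov (nat_lit 43105432510586438025223)) (.alt (nat_lit 2) (.cov (nat_lit 2845417338832599121923)) (.alt (nat_lit 2) (.exp (.alt (nat_lit 6) (.exp (.alt (nat_lit 18) (.cov (nat_lit 406921339353122846277643)) (.alt (nat_lit 18) (.exp (.alt (nat_lit 26) (.exp (.alt (nat_lit 27) (.exp (.alt (nat_lit 30) (.exp (.alt (nat_lit 22) (.cov (nat_lit 63281555562454001385475)) (.alt (nat_lit 22) (.exp (.alt (nat_lit 23) (.exp (.alt (nat_lit 20) (.cov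 (nat_lit 102111951828825097109505)) (.alt (nat_lit 20) (.exp (.alt (nat_lit 28) (.cov (nat_lit 1395035031569413701632)) (.alt (nat_lit 16) (.cov (nat_lit 159240945672)) .e))) .e))) .e)) (.alt (nat_lit 22) (.cov (nat_lit 46426751568)) .e)))) .e)) .e)) .e)) (.alt (nat_lit 18) (.cov (nat_lit 6405636763636076642305)) (.alt (nat_lit 18) (.exp (.alt (nat_lit 26) (.exp (.alt (nat_lit 27) (.exp (.alt (nat_lit 31) (.exp (.alt (nat_lit 23) (.exp (.alt (nat_lit 30) (.exp (.alt (nat_lit 24) (.cov (nat_lit 365383883248798666850305)) (.alt (nat_lit 24) (.exp (.alt (nat_lit 28) (.cov (nat_lit 6391796832535488495616)) (.alt (nat_lit 25) (.cov (nat_lit 3553624072)) .e))) .e))) .e)) .e)) .e)) .e)) (.alt (nat_lit 16) (.cov (nat_lit 344336148671912845770755)) (.alt (nat_lit 16) (.exp (.alt (nat_lit 24) (.exp (.alt (nat_lit 20) (.cov (nat_lit 1671736214849151041538)) (.alt (nat_lit 20) (.cov (nat_lit 25283568741173457584129)) (.alt (nat_lit 20) (.exp (.alt (nat_lit 21) (.cov (nat_lit 10175685217253516640259))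 (.alt (nat_lit 28) (.exp (.alt (nat_lit 12) (.exp (.alt (nat_lit 29) (.cov (nat_lit 6417161103437863059457)) (.alt (nat_lit 29) (.exp (.alt (nat_lit 31) (.cov (nat_lit 1471127850873481330688)) (.alt (nat_lit 25) (.cov (nat_lit 9960423432)) .e))) .e))) .e)) (.alt (nat_lit 21) (.cov (nat_lit 3016753744)) .e)))) .e)))) .e)) (.alt (nat_lit 19) (.cov (nat_lit 9993981075)) .e))))) .e))))) .e)) (.alt (nat_lit 2) (.cov (nat_lit 4603254875)) .e)))))) .e)))))) .e)) .e)) .e)) .e)) .e)) .e)) (.alt (nat_lit 3) (.exp (.alt (nat_lit 11) (.exp (.alt (nat_lit 9) (.exp (.alt (nat_lit 10) (.exp (.alt (nat_lit 2) (.exp (.alt (nat_lit 6) (.exp (.alt (nat_lit 18) (.exp (.alt (nat_lit 0) (.cov (nat_lit 21508905437127761723412)) (.alt (nat_lit 0) (.cov (nat_lit 345332275728218423558155)) (.alt (nat_lit 0) (.cov (nat_lit 6530156420290442166274)) (.alt (nat_lit 0) (.cov (nat_lit 384319477013587541622785)) (.alt (nat_lit 0) (.exp (.alt (nat_lit 16) (.cov (nat_lit 5358780455235021176866)) (.alt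 (nat_lit 1) (.cov (nat_lit 345334581571234516959239)) (.alt (nat_lit 1) (.cov (nat_lit 2843111495831974313987)) (.alt (nat_lit 1) (.exp (.alt (nat_lit 5) (.exp (.alt (nat_lit 17) (.cov (nat_lit 104687578606447748972555)) (.alt (nat_lit 17) (.exp (.alt (nat_lit 25) (.exp (.alt (nat_lit 27) (.exp (.alt (nat_lit 29) (.exp (.alt (nat_lit 21) (.cov (nat_lit 63281555562462591320067)) (.alt (nat_lit 21) (.exp (.alt (nat_lit 23) (.exp (.alt (nat_lit 20) (.cov (nat_lit 404343406732482390786049)) (.alt (nat_lit 20) (.exp (.alt (nat_lit 28) (.cov (nat_lit 216749253861216092160)) (.alt (nat_lit 16) (.cov (nat_lit 21801992200)) .e))) .e))) .e)) (.alt (nat_lit 21) (.cov (nat_lit 183865705040)) .e)))) .e)) .e)) .e)) (.alt (nat_lit 17) (.cov (nat_lit 25292796852105443803137)) (.alt (nat_lit 17) (.exp (.alt (nat_lit 25) (.exp (.alt (nat_lit 27) (.exp (.alt (nat_lit 31) (.exp (.alt (nat_lit 23) (.exp (.alt (nat_lit 29) (.exp (.alt (nat_lit 24) (.cov (nat_lit 365383883248798667898881))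 (.alt (nat_lit 24) (.exp (.alt (nat_lit 28) (.cov (nat_lit 25281262764014069350400)) (.alt (nat_lit 26) (.cov (nat_lit 12144607240)) .e))) .e))) .e)) .e)) .e)) .e)) (.alt (nat_lit 16) (.cov (nat_lit 344336148671912812216323)) (.alt (nat_lit 16) (.exp (.alt (nat_lit 24) (.exp (.alt (nat_lit 20) (.cov (nat_lit 493450437003514478594)) (.alt (nat_lit 20) (.cov (nat_lit 6396408652704090423297)) (.alt (nat_lit 20) (.exp (.alt (nat_lit 22) (.cov (nat_lit 29067456991741311188995)) (.alt (nat_lit 28) (.exp (.alt (nat_lit 12) (.exp (.alt (nat_lit 30) (.cov (nat_lit 25306627034916411408385)) (.alt (nat_lit 30) (.exp (.alt (nat_lit 31) (.cov (nat_lit 288230387146856333312)) (.alt (nat_lit 26) (.cov (nat_lit 1370488840)) .e))) .e))) .e)) (.alt (nat_lit 22) (.cov (nat_lit 11607736912)) .e)))) .e)))) .e)) (.alt (nat_lit 19) (.cov (nat_lit 9993981075)) .e))))) .e))))) .e)) (.alt (nat_lit 1) (.cov (nat_lit 13192140891)) .e)))))) .e)))))) .e)) .e)) .e)) .e)) .e)) .e)) .e))) .e)))) .e))))])])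 (by decide +kernel)
  exact h _ List.mem_cons_self

theorem t15_16 : GF FULL [0, 15] [16, 8] := by
  have h := JT.chkW_ok (zs := [0, 15]) good (by decide) (by decide)
    (L := [([16, 8], [.cov (nat_lit 22023107058188037398050),
      .cov (nat_lit 34588669883042503984),
      .cov (nat_lit 22023107062586419452948),
      .cov (nat_lit 1584114631114923974354),
      .cov (nat_lit 34588669883042504233),
      .cov (nat_lit 22023107062586083909331),
      .cov (nat_lit 1584114631114923974356),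
      .cov (nat_lit 34588669883042503697),
      .cov (nat_lit 22023107062586083909333),
      .cov (nat_lit 1584114631114923974358),
      .cov (nat_lit 34588669883042503698),
      .cov (nat_lit 22023107062586083909335),
      .cov (nat_lit 1584114631115192409104),
      .cov (nat_lit 34588669883847810064),
      .rot (.exp (.alt (nat_lit 15) (.cov (nat_lit 973592949083659284825520814948354)) (.alt (nat_lit 15) (.cov (nat_lit 3894257383593498531679127217373185)) (.alt (nat_lit 15) (.cov (nat_lit 14278851100670975208247163934998528)) (.alt (nat_lit 15) (.cov (nat_lit 17363487658344541)) .e))))),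
      .cov (nat_lit 1584114631115192408308),
      .cov (nat_lit 34588669883847809268),
      .rot (.exp (.alt (nat_lit 15) (.cov (nat_lit 973592949083659284825520814948354)) (.alt (nat_lit 15) (.cov (nat_lit 3894253534373688878699834952908801)) (.alt (nat_lit 15) (.cov (nat_lit 14278847251451165555267871670534144)) (.alt (nat_lit 15) (.cov (nat_lit 21472027065067915706461)) .e)))))])]) (by decide +kernel)
  exact h _ List.mem_cons_self

theorem t15_17 : GF FULL [0, 15] [17, 7] := by
  have h := JT.chkW_ok (zs := [0, 15]) good (by decide) (by decide)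
    (L := [([17, 7], [.cov (nat_lit 34587849657132523372),
      .cov (nat_lit 34587851856155778924),
      .cov (nat_lit 34587728702364196152),
      .cov (nat_lit 34587849657132523372),
      .cov (nat_lit 34587851856155778924),
      .cov (nat_lit 34587728702867513100),
      .cov (nat_lit 34587849657132523372),
      .cov (nat_lit 34587851856155778924),
      .cov (nat_lit 34587728702867513101),
      .cov (nat_lit 34587849657132523372),
      .cov (nat_lit 34587851856155778924),
      .cov (nat_lit 34587728701827325508),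
      .cov (nat_lit 34587849657132523372),
      .cov (nat_lit 34587851856155778924),
      .cov (nat_lit 34587728701827325509),
      .cov (nat_lit 34587849657132523372),
      .cov (nat_lit 34587851856155778924),
      .rot (.exp (.alt (nat_lit 15) (.exp (.alt (nat_lit 7) (.exp (.alt (nat_lit 3) (.exp (.alt (nat_lit 5) (.exp (.alt (nat_lit 11) (.exp (.alt (nat_lit 9) (.exp (.alt (nat_lit 10) (.exp (.alt (nat_lit 0) (.cov (nat_lit 21785606598231135879385)) (.alt (nat_lit 0) (.cov (nat_lit 43100820824558512635997)) (.alt (nat_lit 0) (.exp (.alt (nat_lit 2) (.exp (.alt (nat_lit 6) (.exp (.alt (nat_lit 18) (.exp (.alt (nat_lit 19) (.exp (.alt (nat_lit 23) (.exp (.alt (nat_lit 27) (.exp (.alt (nat_lit 4) (.cov (nat_lit 3864592916430473658375)) (.alt (nat_lit 4) (.cov (nat_lit 6539370915051381719043)) (.alt (nat_lit 4) (.cov (nat_lit 1448069829799654195201)) (.alt (nat_lit 4) (.exp (.alt (nat_lit 12) (.exp (.alt (nat_lit 20) (.cov (nat_lit 64563621853071933442)) (.alt (nat_lit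 20) (.cov (nat_lit 2852327835392475660289)) (.alt (nat_lit 20) (.cov (nat_lit 1450375400129994686464)) (.alt (nat_lit 20) (.exp (.alt (nat_lit 21) (.cov (nat_lit 66869456066193653763)) (.alt (nat_lit 21) (.cov (nat_lit 66869464859400994817)) (.alt (nat_lit 21) (.cov (nat_lit 66869480252563783680)) (.alt (nat_lit 21) (.exp (.alt (nat_lit 29) (.cov (nat_lit 1614090115255469342721)) (.alt (nat_lit 17) (.cov (nat_lit 193986575)) .e))) .e))))) .e))))) .e)) (.alt (nat_lit 4) (.exp (.alt (nat_lit 20) (.cov (nat_lit 2852327835566562344962)) (.alt (nat_lit 12) (.cov (nat_lit 6557817659097612288001)) (.alt (nat_lit 12) (.exp (.alt (nat_lit 28) (.cov (nat_lit 21887061861048600494083)) (.alt (nat_lit 28) (.cov (nat_lit 6539370917066579116032)) (.alt (nat_lit 13) (.cov (nat_lit 2983198911)) .e)))) .e)))) .e)))))) .e)) .e)) .e)) .e)) .e)) .e)) (.alt (nat_lit 0) (.cov (nat_lit 36902504154884210699)) (.alt (nat_lit 0) (.cov (nat_lit 36904467882013884422)) (.alt (nat_lit 0) (.exp (.alt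 (nat_lit 2) (.exp (.alt (nat_lit 6) (.exp (.alt (nat_lit 18) (.exp (.alt (nat_lit 16) (.exp (.alt (nat_lit 17) (.exp (.alt (nat_lit 19) (.exp (.alt (nat_lit 23) (.exp (.alt (nat_lit 25) (.exp (.alt (nat_lit 27) (.exp (.alt (nat_lit 24) (.exp (.alt (nat_lit 20) (.cov (nat_lit 404343406732482396028929)) (.alt (nat_lit 20) (.exp (.alt (nat_lit 28) (.cov (nat_lit 69175301271539679232)) (.alt (nat_lit 21) (.cov (nat_lit 4627365896)) .e))) .e))) .e)) .e)) .e)) .e)) .e)) (.alt (nat_lit 17) (.exp (.alt (nat_lit 19) (.exp (.alt (nat_lit 23) (.exp (.alt (nat_lit 27) (.exp (.alt (nat_lit 26) (.exp (.alt (nat_lit 24) (.exp (.alt (nat_lit 20) (.cov (nat_lit 102111951828825103400961)) (.alt (nat_lit 20) (.exp (.alt (nat_lit 28) (.cov (nat_lit 140656434557164191744)) (.alt (nat_lit 22) (.cov (nat_lit 13218349064)) .e))) .e))) .e)) .e)) .e)) .e)) (.alt (nat_lit 19) (.exp (.alt (nat_lit 23) (.exp (.alt (nat_lit 31) (.exp (.alt (nat_lit 27) (.exp (.alt (nat_lit 30) (.exp (.alt (nat_lit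 20) (.cov (nat_lit 45443554034389359788033)) (.alt (nat_lit 20) (.exp (.alt (nat_lit 28) (.cov (nat_lit 45406660548431207989248)) (.alt (nat_lit 21) (.cov (nat_lit 47577038856)) .e))) .e))) .e)) .e)) .e)) .e)) .e))) .e))) (.alt (nat_lit 16) (.cov (nat_lit 21960850165553512316943)) (.alt (nat_lit 16) (.exp (.alt (nat_lit 17) (.exp (.alt (nat_lit 21) (.exp (.alt (nat_lit 20) (.exp (.alt (nat_lit 23) (.exp (.alt (nat_lit 24) (.cov (nat_lit 404343406741269433548802)) (.alt (nat_lit 24) (.cov (nat_lit 428886832699708276737)) (.alt (nat_lit 24) (.cov (nat_lit 3159005069957327224832)) (.alt (nat_lit 24) (.exp (.alt (nat_lit 26) (.cov (nat_lit 404348018418491770011651)) (.alt (nat_lit 26) (.cov (nat_lit 29067456991740073869313)) (.alt (nat_lit 26) (.cov (nat_lit 29067457007133203103744)) (.alt (nat_lit 26) (.exp (.alt (nat_lit 30) (.cov (nat_lit 1621007644273368104961)) (.alt (nat_lit 27) (.cov (nat_lit 4629463055)) .e))) .e))))) .e))))) .e)) .e)) .e)) .e)) (.alt (nat_lit 4)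 (.cov (nat_lit 6539374070649753436163)) (.alt (nat_lit 4) (.cov (nat_lit 6391803887002125860865)) (.alt (nat_lit 4) (.exp (.alt (nat_lit 12) (.exp (.alt (nat_lit 20) (.cov (nat_lit 6382573482500351328267)) (.alt (nat_lit 20) (.cov (nat_lit 64563744996198449158)) (.alt (nat_lit 20) (.cov (nat_lit 802433787220533968898)) (.alt (nat_lit 20) (.cov (nat_lit 21508905437124927422465)) (.alt (nat_lit 20) (.cov (nat_lit 64566902792888778752)) (.alt (nat_lit 20) (.exp (.alt (nat_lit 22) (.cov (nat_lit 1397340896580414210055)) (.alt (nat_lit 22) (.cov (nat_lit 69175431014627934211)) (.alt (nat_lit 21) (.cov (nat_lit 140656843575528521729)) (.alt (nat_lit 21) (.exp (.alt (nat_lit 23) (.exp (.alt (nat_lit 29) (.cov (nat_lit 25292791985657929007106)) (.alt (nat_lit 17) (.cov (nat_lit 426580989699666477057)) (.alt (nat_lit 17) (.cov (nat_lit 57646215967831752704)) (.alt (nat_lit 17) (.cov (nat_lit 26214591)) .e))))) .e)) (.alt (nat_lit 22) (.cov (nat_lit 124782043)) .e)))))) .e)))))))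 .e)) (.alt (nat_lit 1) (.exp (.alt (nat_lit 17) (.cov (nat_lit 7869842335583167315979)) (.alt (nat_lit 17) (.exp (.alt (nat_lit 21) (.exp (.alt (nat_lit 23) (.exp (.alt (nat_lit 29) (.exp (.alt (nat_lit 25) (.cov (nat_lit 347813359527386414055427)) (.alt (nat_lit 25) (.exp (.alt (nat_lit 27) (.exp (.alt (nat_lit 24) (.cov (nat_lit 404343406732473230426113)) (.alt (nat_lit 24) (.exp (.alt (nat_lit 28) (.cov (nat_lit 2651719471590876905472)) (.alt (nat_lit 16) (.cov (nat_lit 1933574152)) .e))) .e))) .e)) (.alt (nat_lit 25) (.cov (nat_lit 11534336592)) .e)))) .e)) .e)) .e)) (.alt (nat_lit 17) (.cov (nat_lit 1597954089416364392449)) (.alt (nat_lit 17) (.exp (.alt (nat_lit 21) (.exp (.alt (nat_lit 23) (.exp (.alt (nat_lit 31) (.exp (.alt (nat_lit 27) (.exp (.alt (nat_lit 29) (.exp (.alt (nat_lit 20) (.cov (nat_lit 45443554034389360836609)) (.alt (nat_lit 20) (.exp (.alt (nat_lit 28) (.cov (nat_lit 1604866745407859851264)) (.alt (nat_lit 22) (.cov (nat_lit 185017040904)) .e)))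 .e))) .e)) .e)) .e)) .e)) (.alt (nat_lit 16) (.cov (nat_lit 22043859588096376963075)) (.alt (nat_lit 16) (.exp (.alt (nat_lit 20) (.exp (.alt (nat_lit 24) (.cov (nat_lit 6553205865217102184450)) (.alt (nat_lit 24) (.cov (nat_lit 428886944849894309889)) (.alt (nat_lit 24) (.exp (.alt (nat_lit 26) (.cov (nat_lit 29067456991750408634371)) (.alt (nat_lit 28) (.exp (.alt (nat_lit 12) (.exp (.alt (nat_lit 30) (.cov (nat_lit 1621007644273342939137)) (.alt (nat_lit 30) (.exp (.alt (nat_lit 31) (.cov (nat_lit 3018348510055865778176)) (.alt (nat_lit 22) (.cov (nat_lit 124780552)) .e))) .e))) .e)) (.alt (nat_lit 26) (.cov (nat_lit 183943299664)) .e)))) .e)))) .e)) (.alt (nat_lit 19) (.cov (nat_lit 156555545747)) .e))))) .e))))) .e)))))))) .e)) .e)) .e)) (.alt (nat_lit 0) (.exp (.alt (nat_lit 1) (.exp (.alt (nat_lit 17) (.exp (.alt (nat_lit 16) (.cov (nat_lit 24248246386713602031650)) (.alt (nat_lit 2) (.cov (nat_lit 43105432510586438025223)) (.alt (nat_lit 2) (.cov (nat_lit 2845417338832599121923))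 (.alt (nat_lit 2) (.exp (.alt (nat_lit 6) (.exp (.alt (nat_lit 18) (.cov (nat_lit 406921339353122846277643)) (.alt (nat_lit 18) (.exp (.alt (nat_lit 26) (.exp (.alt (nat_lit 27) (.exp (.alt (nat_lit 30) (.exp (.alt (nat_lit 22) (.cov (nat_lit 63281555562454001385475)) (.alt (nat_lit 22) (.exp (.alt (nat_lit 23) (.exp (.alt (nat_lit 20) (.cov (nat_lit 102111951828825097109505)) (.alt (nat_lit 20) (.exp (.alt (nat_lit 28) (.cov (nat_lit 1395035031569413701632)) (.alt (nat_lit 16) (.cov (nat_lit 159240945672)) .e))) .e))) .e)) (.alt (nat_lit 22) (.cov (nat_lit 46426751568)) .e)))) .e)) .e)) .e)) (.alt (nat_lit 18) (.cov (nat_lit 6405636763636076642305)) (.alt (nat_lit 18) (.exp (.alt (nat_lit 26) (.exp (.alt (nat_lit 27) (.exp (.alt (nat_lit 31) (.exp (.alt (nat_lit 23) (.exp (.alt (nat_lit 30) (.exp (.alt (nat_lit 24) (.cov (nat_lit 365383883248798666850305)) (.alt (nat_lit 24) (.exp (.alt (nat_lit 28) (.cov (nat_lit 6391796832535488495616)) (.alt (nat_lit 25) (.cov (nat_lit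 3553624072)) .e))) .e))) .e)) .e)) .e)) .e)) (.alt (nat_lit 16) (.cov (nat_lit 344336148671912845770755)) (.alt (nat_lit 16) (.exp (.alt (nat_lit 24) (.exp (.alt (nat_lit 20) (.cov (nat_lit 1671736214849151041538)) (.alt (nat_lit 20) (.cov (nat_lit 25283568741173457584129)) (.alt (nat_lit 20) (.exp (.alt (nat_lit 21) (.cov (nat_lit 10175685217253516640259)) (.alt (nat_lit 28) (.exp (.alt (nat_lit 12) (.exp (.alt (nat_lit 29) (.cov (nat_lit 6417161103437863059457)) (.alt (nat_lit 29) (.exp (.alt (nat_lit 31) (.cov (nat_lit 1471127850873481330688)) (.alt (nat_lit 25) (.cov (nat_lit 9960423432)) .e))) .e))) .e)) (.alt (nat_lit 21) (.cov (nat_lit 3016753744)) .e)))) .e)))) .e)) (.alt (nat_lit 19) (.cov (nat_lit 9993981075)) .e))))) .e))))) .e)) (.alt (nat_lit 2) (.cov (nat_lit 4603254875)) .e)))))) .e)) .e)) (.alt (nat_lit 0) (.cov (nat_lit 110696719622163398656)) (.alt (nat_lit 0) (.exp (.alt (nat_lit 16) (.exp (.alt (nat_lit 17) (.exp (.alt (nat_lit 19) (.exp (.alt (nat_lit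 18) (.exp (.alt (nat_lit 23) (.exp (.alt (nat_lit 25) (.exp (.alt (nat_lit 27) (.exp (.alt (nat_lit 24) (.exp (.alt (nat_lit 20) (.cov (nat_lit 1632536868115510722562)) (.alt (nat_lit 20) (.cov (nat_lit 26646321847458825502721)) (.alt (nat_lit 20) (.cov (nat_lit 4256586441299087851520)) (.alt (nat_lit 20) (.exp (.alt (nat_lit 4) (.cov (nat_lit 365333154702641753751555)) (.alt (nat_lit 4) (.cov (nat_lit 343874979667649402765313)) (.alt (nat_lit 4) (.cov (nat_lit 343874979683041961574400)) (.alt (nat_lit 4) (.exp (.alt (nat_lit 12) (.cov (nat_lit 365351601446825422225409)) (.alt (nat_lit 6) (.cov (nat_lit 183859413007)) .e))) .e))))) .e))))) .e)) .e)) .e)) .e)) .e)) .e)) (.alt (nat_lit 17) (.exp (.alt (nat_lit 19) (.exp (.alt (nat_lit 18) (.exp (.alt (nat_lit 23) (.exp (.alt (nat_lit 22) (.exp (.alt (nat_lit 6) (.exp (.alt (nat_lit 20) (.exp (.alt (nat_lit 24) (.cov (nat_lit 102111951837611604049922)) (.alt (nat_lit 24) (.cov (nat_lit 1607172610407905886209)) (.alt (nat_lit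 24) (.cov (nat_lit 22046165158426694385664)) (.alt (nat_lit 24) (.exp (.alt (nat_lit 25) (.cov (nat_lit 102114257671824725770243)) (.alt (nat_lit 25) (.cov (nat_lit 10175685217252245766145)) (.alt (nat_lit 25) (.cov (nat_lit 10175685232645408555008)) (.alt (nat_lit 25) (.exp (.alt (nat_lit 29) (.cov (nat_lit 440416023555922198529)) (.alt (nat_lit 27) (.cov (nat_lit 4629463055)) .e))) .e))))) .e))))) .e)) .e)) .e)) .e)) .e)) .e)) .e))) (.alt (nat_lit 2) (.cov (nat_lit 43105432510586438025250)) (.alt (nat_lit 2) (.cov (nat_lit 3850764904043015831567)) (.alt (nat_lit 2) (.exp (.alt (nat_lit 6) (.exp (.alt (nat_lit 4) (.exp (.alt (nat_lit 12) (.exp (.alt (nat_lit 20) (.exp (.alt (nat_lit 18) (.cov (nat_lit 479615378904777228299)) (.alt (nat_lit 18) (.cov (nat_lit 1667124741952300384262)) (.alt (nat_lit 18) (.cov (nat_lit 133739314548560625666)) (.alt (nat_lit 18) (.cov (nat_lit 2626357034673955143681)) (.alt (nat_lit 18) (.cov (nat_lit 265175242395457945600)) (.alt (nat_lit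 18) (.exp (.alt (nat_lit 22) (.cov (nat_lit 1397340896580414210055)) (.alt (nat_lit 22) (.cov (nat_lit 69175431014627934211)) (.alt (nat_lit 19) (.cov (nat_lit 136045157557073870849)) (.alt (nat_lit 19) (.exp (.alt (nat_lit 23) (.exp (.alt (nat_lit 27) (.cov (nat_lit 71481150880722452482)) (.alt (nat_lit 27) (.cov (nat_lit 71481166280763899905)) (.alt (nat_lit 27) (.cov (nat_lit 133739140825031376896)) (.alt (nat_lit 27) (.exp (.alt (nat_lit 31) (.cov (nat_lit 1618701801265411653635)) (.alt (nat_lit 31) (.cov (nat_lit 21907814448132127719425)) (.alt (nat_lit 31) (.cov (nat_lit 21907814463524686528512)) (.alt (nat_lit 31) (.exp (.alt (nat_lit 29) (.cov (nat_lit 1614090115255469342721)) (.alt (nat_lit 30) (.cov (nat_lit 2982150159)) .e))) .e))))) .e))))) .e)) (.alt (nat_lit 22) (.cov (nat_lit 124782043)) .e)))))) .e))))))) .e)) .e)) .e)) .e)) (.alt (nat_lit 2) (.cov (nat_lit 41516153900443369475)) (.alt (nat_lit 2) (.cov (nat_lit 41518893871977725953)) (.alt (nat_lit 2)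 (.exp (.alt (nat_lit 6) (.exp (.alt (nat_lit 18) (.cov (nat_lit 406905198726936254218261)) (.alt (nat_lit 18) (.cov (nat_lit 493452251309423984651)) (.alt (nat_lit 18) (.cov (nat_lit 3887656195366110363654)) (.alt (nat_lit 18) (.exp (.alt (nat_lit 22) (.exp (.alt (nat_lit 23) (.exp (.alt (nat_lit 30) (.exp (.alt (nat_lit 26) (.cov (nat_lit 347813359542790515589127)) (.alt (nat_lit 26) (.exp (.alt (nat_lit 27) (.exp (.alt (nat_lit 19) (.exp (.alt (nat_lit 17) (.exp (.alt (nat_lit 24) (.cov (nat_lit 102111951828815936749569)) (.alt (nat_lit 24) (.exp (.alt (nat_lit 28) (.cov (nat_lit 21538879560060244066304)) (.alt (nat_lit 16) (.cov (nat_lit 10523508744)) .e))) .e))) .e)) .e)) .e)) (.alt (nat_lit 26) (.cov (nat_lit 350248330147537330634753)) (.alt (nat_lit 26) (.exp (.alt (nat_lit 27) (.exp (.alt (nat_lit 24) (.cov (nat_lit 365383883257595430961154)) (.alt (nat_lit 24) (.cov (nat_lit 6530147435079142473729)) (.alt (nat_lit 24) (.cov (nat_lit 45637244985691997208576)) (.alt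 (nat_lit 24) (.exp (.alt (nat_lit 16) (.cov (nat_lit 365365436504734713249795)) (.alt (nat_lit 16) (.cov (nat_lit 23141440458070600712193)) (.alt (nat_lit 16) (.cov (nat_lit 23141440473453999161344)) (.alt (nat_lit 16) (.exp (.alt (nat_lit 20) (.cov (nat_lit 2852327811203200974849)) (.alt (nat_lit 17) (.cov (nat_lit 3545235471)) .e))) .e))))) .e))))) .e)) (.alt (nat_lit 19) (.exp (.alt (nat_lit 17) (.cov (nat_lit 7796055247136874299394)) (.alt (nat_lit 27) (.cov (nat_lit 104687578608645543297025)) (.alt (nat_lit 27) (.exp (.alt (nat_lit 25) (.cov (nat_lit 7666928023227904032771)) (.alt (nat_lit 25) (.exp (.alt (nat_lit 17) (.exp (.alt (nat_lit 24) (.cov (nat_lit 102111951828815936749569)) (.alt (nat_lit 24) (.exp (.alt (nat_lit 28) (.cov (nat_lit 102075058342866941116416)) (.alt (nat_lit 16) (.cov (nat_lit 10523508744)) .e))) .e))) .e)) (.alt (nat_lit 31) (.cov (nat_lit 47610593471)) .e)))) .e)))) .e)))))) .e)) .e)) .e)) (.alt (nat_lit 18) (.exp (.alt (nat_lit 22) (.exp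 (.alt (nat_lit 23) (.exp (.alt (nat_lit 26) (.exp (.alt (nat_lit 30) (.exp (.alt (nat_lit 28) (.exp (.alt (nat_lit 20) (.exp (.alt (nat_lit 12) (.exp (.alt (nat_lit 27) (.cov (nat_lit 500367943994541342721)) (.alt (nat_lit 27) (.exp (.alt (nat_lit 25) (.cov (nat_lit 6384879303507865239552)) (.alt (nat_lit 19) (.cov (nat_lit 655360008)) .e))) .e))) .e)) .e)) .e)) .e)) (.alt (nat_lit 26) (.cov (nat_lit 350248330147536897572867)) (.alt (nat_lit 26) (.exp (.alt (nat_lit 30) (.exp (.alt (nat_lit 24) (.exp (.alt (nat_lit 28) (.exp (.alt (nat_lit 20) (.exp (.alt (nat_lit 12) (.exp (.alt (nat_lit 25) (.cov (nat_lit 2843104441355629232128)) (.alt (nat_lit 16) (.cov (nat_lit 118489096)) .e))) .e)) .e)) .e)) (.alt (nat_lit 27) (.cov (nat_lit 104687578606446507458561)) (.alt (nat_lit 27) (.exp (.alt (nat_lit 25) (.cov (nat_lit 7666928023227904032771)) (.alt (nat_lit 25) (.exp (.alt (nat_lit 24) (.exp (.alt (nat_lit 29) (.cov (nat_lit 365383883248798662656001)) (.alt (nat_lit 17)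 (.cov (nat_lit 3545235471)) .e))) .e)) (.alt (nat_lit 31) (.cov (nat_lit 47610593471)) .e)))) .e)))) .e)) (.alt (nat_lit 19) (.cov (nat_lit 1202719895)) .e))))) .e)) .e)) (.alt (nat_lit 18) (.cov (nat_lit 406921351370775076012032)) (.alt (nat_lit 18) (.exp (.alt (nat_lit 22) (.exp (.alt (nat_lit 23) (.exp (.alt (nat_lit 19) (.exp (.alt (nat_lit 27) (.exp (.alt (nat_lit 21) (.exp (.alt (nat_lit 20) (.exp (.alt (nat_lit 17) (.exp (.alt (nat_lit 30) (.cov (nat_lit 45443554034379639488513)) (.alt (nat_lit 30) (.exp (.alt (nat_lit 28) (.cov (nat_lit 424275124690448547840)) (.alt (nat_lit 31) (.cov (nat_lit 47577038856)) .e))) .e))) .e)) .e)) .e)) .e)) .e)) (.alt (nat_lit 23) (.exp (.alt (nat_lit 19) (.exp (.alt (nat_lit 27) (.exp (.alt (nat_lit 17) (.exp (.alt (nat_lit 21) (.exp (.alt (nat_lit 20) (.exp (.alt (nat_lit 30) (.cov (nat_lit 45443554034379639488513)) (.alt (nat_lit 30) (.exp (.alt (nat_lit 28) (.cov (nat_lit 424275124690448547840)) (.alt (nat_lit 31) (.cov (nat_lit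 47577038856)) .e))) .e))) .e)) .e)) .e)) .e)) (.alt (nat_lit 19) (.exp (.alt (nat_lit 27) (.exp (.alt (nat_lit 25) (.exp (.alt (nat_lit 17) (.exp (.alt (nat_lit 29) (.exp (.alt (nat_lit 30) (.cov (nat_lit 365383883248798097473537)) (.alt (nat_lit 30) (.exp (.alt (nat_lit 28) (.cov (nat_lit 365346989762849665974272)) (.alt (nat_lit 26) (.cov (nat_lit 158167203848)) .e))) .e))) .e)) .e)) .e)) .e)) .e))) .e))) (.alt (nat_lit 22) (.cov (nat_lit 23215227836779896766479)) (.alt (nat_lit 22) (.exp (.alt (nat_lit 23) (.exp (.alt (nat_lit 31) (.exp (.alt (nat_lit 30) (.exp (.alt (nat_lit 27) (.exp (.alt (nat_lit 20) (.cov (nat_lit 7664622180221407199234)) (.alt (nat_lit 20) (.cov (nat_lit 2852327835392456785921)) (.alt (nat_lit 20) (.cov (nat_lit 23217533407107246718976)) (.alt (nat_lit 20) (.exp (.alt (nat_lit 21) (.cov (nat_lit 102114257671827433193475)) (.alt (nat_lit 21) (.cov (nat_lit 104623014874645139554305)) (.alt (nat_lit 21) (.cov (nat_lit 104623014890038302343168))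 (.alt (nat_lit 21) (.exp (.alt (nat_lit 29) (.cov (nat_lit 6403326045382534758401)) (.alt (nat_lit 17) (.cov (nat_lit 47572844559)) .e))) .e))))) .e))))) .e)) .e)) .e)) .e)) (.alt (nat_lit 22) (.cov (nat_lit 21746408718595379953667)) (.alt (nat_lit 22) (.cov (nat_lit 6546295441187196108801)) (.alt (nat_lit 22) (.exp (.alt (nat_lit 23) (.exp (.alt (nat_lit 30) (.exp (.alt (nat_lit 31) (.cov (nat_lit 6307829459615132857713155969646592)) (.alt (nat_lit 14) (.cov (nat_lit 650247761740657852423)) .e))) (.alt (nat_lit 30) (.cov (nat_lit 23233674396132695867398)) (.alt (nat_lit 30) (.exp (.alt (nat_lit 28) (.exp (.alt (nat_lit 20) (.exp (.alt (nat_lit 12) (.exp (.alt (nat_lit 31) (.cov (nat_lit 2644801942563857629187)) (.alt (nat_lit 31) (.cov (nat_lit 2870774564063263326209)) (.alt (nat_lit 31) (.cov (nat_lit 2870774579456426115072)) (.alt (nat_lit 31) (.exp (.alt (nat_lit 27) (.cov (nat_lit 57646086225512103937)) (.alt (nat_lit 27) (.exp (.alt (nat_lit 25) (.cov (nat_lit 2843104441355626086400))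 (.alt (nat_lit 19) (.cov (nat_lit 655360008)) .e))) .e))) .e))))) .e)) .e)) .e)) (.alt (nat_lit 30) (.cov (nat_lit 1621009482656809746433)) (.alt (nat_lit 30) (.cov (nat_lit 5384148308345617383424)) (.alt (nat_lit 30) (.exp (.alt (nat_lit 31) (.cov (nat_lit 7814501991211391254535)) (.alt (nat_lit 31) (.exp (.alt (nat_lit 27) (.exp (.alt (nat_lit 19) (.exp (.alt (nat_lit 17) (.exp (.alt (nat_lit 29) (.cov (nat_lit 45443554034379595448321)) (.alt (nat_lit 29) (.exp (.alt (nat_lit 28) (.cov (nat_lit 22855515918321263312896)) (.alt (nat_lit 21) (.cov (nat_lit 28777119752)) .e))) .e))) .e)) .e)) .e)) (.alt (nat_lit 31) (.cov (nat_lit 104696802253361244012545)) (.alt (nat_lit 31) (.exp (.alt (nat_lit 27) (.exp (.alt (nat_lit 29) (.cov (nat_lit 365383883257597041573890)) (.alt (nat_lit 29) (.cov (nat_lit 6541676650124612206593)) (.alt (nat_lit 29) (.cov (nat_lit 7869842337780909211648)) (.alt (nat_lit 29) (.exp (.alt (nat_lit 21) (.cov (nat_lit 365365436504734109270019)) (.alt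 (nat_lit 21) (.cov (nat_lit 63281555562462585028609)) (.alt (nat_lit 21) (.cov (nat_lit 63281555577845983477760)) (.alt (nat_lit 21) (.exp (.alt (nat_lit 20) (.cov (nat_lit 6382573458309366415361)) (.alt (nat_lit 17) (.cov (nat_lit 158158815247)) .e))) .e))))) .e))))) .e)) (.alt (nat_lit 31) (.exp (.alt (nat_lit 29) (.exp (.alt (nat_lit 28) (.exp (.alt (nat_lit 20) (.exp (.alt (nat_lit 12) (.exp (.alt (nat_lit 25) (.cov (nat_lit 6384879303507863142400)) (.alt (nat_lit 21) (.cov (nat_lit 9782165512)) .e))) .e)) .e)) .e)) (.alt (nat_lit 27) (.cov (nat_lit 104687578606446507458561)) (.alt (nat_lit 27) (.exp (.alt (nat_lit 25) (.cov (nat_lit 45434330671139433480195)) (.alt (nat_lit 25) (.exp (.alt (nat_lit 29) (.exp (.alt (nat_lit 24) (.cov (nat_lit 365383883248798053433345)) (.alt (nat_lit 17) (.cov (nat_lit 158158815247)) .e))) .e)) (.alt (nat_lit 26) (.cov (nat_lit 159274500287)) .e)))) .e)))) .e)))))) .e))))))) .e)) (.alt (nat_lit 22) (.exp (.alt (nat_lit 23) (.cov (nat_lit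 10180297028617945219083)) (.alt (nat_lit 23) (.exp (.alt (nat_lit 31) (.exp (.alt (nat_lit 30) (.exp (.alt (nat_lit 27) (.exp (.alt (nat_lit 21) (.cov (nat_lit 104623014874645307326467)) (.alt (nat_lit 21) (.exp (.alt (nat_lit 20) (.exp (.alt (nat_lit 29) (.cov (nat_lit 6403326045382534758401)) (.alt (nat_lit 17) (.cov (nat_lit 47572844559)) .e))) .e)) (.alt (nat_lit 21) (.cov (nat_lit 166249628005)) .e)))) .e)) .e)) .e)) (.alt (nat_lit 23) (.cov (nat_lit 6394107574968535482369)) (.alt (nat_lit 23) (.exp (.alt (nat_lit 31) (.exp (.alt (nat_lit 30) (.exp (.alt (nat_lit 28) (.exp (.alt (nat_lit 20) (.exp (.alt (nat_lit 12) (.exp (.alt (nat_lit 27) (.cov (nat_lit 57646086225512103937)) (.alt (nat_lit 27) (.exp (.alt (nat_lit 25) (.cov (nat_lit 2843104441355626086400)) (.alt (nat_lit 19) (.cov (nat_lit 655360008)) .e))) .e))) .e)) .e)) .e)) .e)) (.alt (nat_lit 31) (.cov (nat_lit 104696802253361851138051)) (.alt (nat_lit 31) (.exp (.alt (nat_lit 30) (.exp (.alt (nat_lit 29)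 (.exp (.alt (nat_lit 28) (.exp (.alt (nat_lit 20) (.exp (.alt (nat_lit 12) (.exp (.alt (nat_lit 25) (.cov (nat_lit 6384879303507863142400)) (.alt (nat_lit 21) (.cov (nat_lit 9782165512)) .e))) .e)) .e)) .e)) (.alt (nat_lit 27) (.cov (nat_lit 104687578606446507458561)) (.alt (nat_lit 27) (.exp (.alt (nat_lit 25) (.cov (nat_lit 45434330671139433480195)) (.alt (nat_lit 25) (.exp (.alt (nat_lit 29) (.exp (.alt (nat_lit 24) (.cov (nat_lit 365383883248798053433345)) (.alt (nat_lit 17) (.cov (nat_lit 158158815247)) .e))) .e)) (.alt (nat_lit 26) (.cov (nat_lit 159274500287)) .e)))) .e)))) .e)) (.alt (nat_lit 19) (.cov (nat_lit 1202719895)) .e))))) .e))))) .e)))))))) .e)))))))) .e)) (.alt (nat_lit 1) (.exp (.alt (nat_lit 17) (.cov (nat_lit 47998429926985034629140)) (.alt (nat_lit 17) (.cov (nat_lit 47998431376139682316299)) (.alt (nat_lit 17) (.exp (.alt (nat_lit 19) (.exp (.alt (nat_lit 23) (.exp (.alt (nat_lit 27) (.exp (.alt (nat_lit 21) (.exp (.alt (nat_lit 29) (.exp (.alt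 (nat_lit 28) (.exp (.alt (nat_lit 12) (.exp (.alt (nat_lit 24) (.exp (.alt (nat_lit 20) (.cov (nat_lit 2854633654202683883521)) (.alt (nat_lit 20) (.exp (.alt (nat_lit 22) (.cov (nat_lit 2873080400475385233408)) (.alt (nat_lit 4) (.cov (nat_lit 174757773320)) .e))) .e))) .e)) .e)) .e)) .e)) (.alt (nat_lit 21) (.cov (nat_lit 404472534352206559707139)) (.alt (nat_lit 21) (.exp (.alt (nat_lit 29) (.exp (.alt (nat_lit 20) (.cov (nat_lit 1660206999630688288770)) (.alt (nat_lit 20) (.cov (nat_lit 63346119296453196120065)) (.alt (nat_lit 20) (.exp (.alt (nat_lit 4) (.cov (nat_lit 3864592901199867412483)) (.alt (nat_lit 22) (.exp (.alt (nat_lit 6) (.exp (.alt (nat_lit 30) (.cov (nat_lit 45443554034389365030913)) (.alt (nat_lit 18) (.cov (nat_lit 185012846607)) .e))) .e)) (.alt (nat_lit 22) (.exp (.alt (nat_lit 30) (.cov (nat_lit 25295097819881805971458)) (.alt (nat_lit 6) (.cov (nat_lit 2329935939)) .e))) .e)))) .e)))) .e)) (.alt (nat_lit 21) (.exp (.alt (nat_lit 20) (.cov (nat_lit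 405542445347953679794178)) (.alt (nat_lit 29) (.cov (nat_lit 12176066728)) .e))) .e))))) .e)) .e)) .e)) (.alt (nat_lit 17) (.cov (nat_lit 47998441100209005002753)) (.alt (nat_lit 17) (.exp (.alt (nat_lit 21) (.cov (nat_lit 10228720934674209177634)) (.alt (nat_lit 19) (.cov (nat_lit 48003043062147911254023)) (.alt (nat_lit 19) (.cov (nat_lit 2697843428023916822531)) (.alt (nat_lit 19) (.exp (.alt (nat_lit 23) (.exp (.alt (nat_lit 27) (.cov (nat_lit 6490948218271872057355)) (.alt (nat_lit 27) (.cov (nat_lit 10254085709164334546946)) (.alt (nat_lit 27) (.cov (nat_lit 48021489806220316377089)) (.alt (nat_lit 27) (.exp (.alt (nat_lit 31) (.exp (.alt (nat_lit 29) (.exp (.alt (nat_lit 28) (.exp (.alt (nat_lit 12) (.exp (.alt (nat_lit 24) (.exp (.alt (nat_lit 30) (.cov (nat_lit 1600255057200175644673)) (.alt (nat_lit 30) (.exp (.alt (nat_lit 22) (.cov (nat_lit 193690823769072861184)) (.alt (nat_lit 14) (.cov (nat_lit 1751121928)) .e))) .e))) .e)) .e)) .e)) .e)) (.alt (nat_lit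 31) (.cov (nat_lit 42053965222053426495491)) (.alt (nat_lit 31) (.exp (.alt (nat_lit 29) (.exp (.alt (nat_lit 30) (.cov (nat_lit 1683265429722835714050)) (.alt (nat_lit 30) (.cov (nat_lit 406921339355321763627009)) (.alt (nat_lit 30) (.exp (.alt (nat_lit 14) (.cov (nat_lit 384310242677385659940867)) (.alt (nat_lit 22) (.exp (.alt (nat_lit 6) (.exp (.alt (nat_lit 20) (.cov (nat_lit 45443554034379623759873)) (.alt (nat_lit 18) (.cov (nat_lit 158158815247)) .e))) .e)) (.alt (nat_lit 22) (.exp (.alt (nat_lit 20) (.cov (nat_lit 25272039389789658546178)) (.alt (nat_lit 6) (.cov (nat_lit 37316722755)) .e))) .e)))) .e)))) .e)) (.alt (nat_lit 31) (.exp (.alt (nat_lit 30) (.cov (nat_lit 63120146793701130108930)) (.alt (nat_lit 29) (.cov (nat_lit 12176066728)) .e))) .e))))) .e))))) .e)) (.alt (nat_lit 19) (.cov (nat_lit 11566848427)) .e)))))) .e)))))) .e))))))))) .e)))))))))) .e)) .e)) .e)) .e)) .e)) .e)) (.alt (nat_lit 15) (.exp (.alt (nat_lit 7) (.exp (.alt (nat_lit 3) (.exp (.alt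 (nat_lit 5) (.exp (.alt (nat_lit 1) (.exp (.alt (nat_lit 9) (.exp (.alt (nat_lit 17) (.exp (.alt (nat_lit 0) (.exp (.alt (nat_lit 16) (.cov (nat_lit 844731940440027524099687762725175299)) (.alt (nat_lit 16) (.exp (.alt (nat_lit 18) (.exp (.alt (nat_lit 20) (.cov (nat_lit 91554801017812195594076954396983297)) (.alt (nat_lit 20) (.cov (nat_lit 63313839194169903415307)) .e))) .e)) (.alt (nat_lit 16) (.exp (.alt (nat_lit 18) (.cov (nat_lit 800465581479707629585206848291602434)) (.alt (nat_lit 18) (.cov (nat_lit 43100819375401962831892)) .e))) .e)))) (.alt (nat_lit 0) (.exp (.alt (nat_lit 16) (.cov (nat_lit 8478054463046982317280571525431299)) (.alt (nat_lit 16) (.cov (nat_lit 8478054463074657045086087810121729)) (.alt (nat_lit 16) (.cov (nat_lit 94779707326987804483806661827362816)) (.alt (nat_lit 16) (.cov (nat_lit 225973732006780993570)) .e))))) (.alt (nat_lit 0) (.exp (.alt (nat_lit 16) (.exp (.alt (nat_lit 18) (.exp (.alt (nat_lit 20) (.exp (.alt (nat_lit 21) (.exp (.alt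 (nat_lit 23) (.exp (.alt (nat_lit 29) (.exp (.alt (nat_lit 2) (.cov (nat_lit 343870367997025446789127)) (.alt (nat_lit 2) (.exp (.alt (nat_lit 6) (.exp (.alt (nat_lit 4) (.exp (.alt (nat_lit 12) (.exp (.alt (nat_lit 10) (.cov (nat_lit 428886808666212139009)) (.alt (nat_lit 10) (.exp (.alt (nat_lit 26) (.cov (nat_lit 1618701803463157743616)) (.alt (nat_lit 8) (.cov (nat_lit 58720264)) .e))) .e))) .e)) .e)) .e)) (.alt (nat_lit 2) (.cov (nat_lit 3859981617593535430657)) (.alt (nat_lit 2) (.exp (.alt (nat_lit 6) (.exp (.alt (nat_lit 10) (.cov (nat_lit 59951936015601500162)) (.alt (nat_lit 10) (.cov (nat_lit 347628892102198224224257)) (.alt (nat_lit 10) (.cov (nat_lit 3855369658739865944064)) (.alt (nat_lit 10) (.exp (.alt (nat_lit 8) (.cov (nat_lit 55340241201078992899)) (.alt (nat_lit 8) (.cov (nat_lit 129127226108199043073)) (.alt (nat_lit 8) (.cov (nat_lit 129127241501328277504)) (.alt (nat_lit 8) (.exp (.alt (nat_lit 24) (.cov (nat_lit 404343406732472669437953)) (.alt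 (nat_lit 12) (.cov (nat_lit 734003215)) .e))) .e))))) .e))))) .e)) (.alt (nat_lit 4) (.exp (.alt (nat_lit 12) (.cov (nat_lit 1614090139436224348162)) (.alt (nat_lit 6) (.cov (nat_lit 347642727274456127897601)) (.alt (nat_lit 6) (.exp (.alt (nat_lit 14) (.cov (nat_lit 350188377826896535093251)) (.alt (nat_lit 14) (.exp (.alt (nat_lit 12) (.exp (.alt (nat_lit 10) (.cov (nat_lit 428886808666212139009)) (.alt (nat_lit 10) (.exp (.alt (nat_lit 26) (.cov (nat_lit 1390423345550998896640)) (.alt (nat_lit 8) (.cov (nat_lit 58720264)) .e))) .e))) .e)) (.alt (nat_lit 22) (.cov (nat_lit 21808283839)) .e)))) .e)))) .e)))))) .e)) .e)) .e)) .e)) .e)) .e)) (.alt (nat_lit 0) (.cov (nat_lit 25419622351777684258827)) (.alt (nat_lit 0) (.cov (nat_lit 332049046111550177286)) (.alt (nat_lit 0) (.exp (.alt (nat_lit 2) (.exp (.alt (nat_lit 6) (.exp (.alt (nat_lit 18) (.exp (.alt (nat_lit 16) (.exp (.alt (nat_lit 20) (.exp (.alt (nat_lit 4) (.exp (.alt (nat_lit 12) (.exp (.alt (nat_lit 21) (.exp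 (.alt (nat_lit 23) (.exp (.alt (nat_lit 29) (.exp (.alt (nat_lit 24) (.cov (nat_lit 428886808509882040321)) (.alt (nat_lit 24) (.exp (.alt (nat_lit 26) (.cov (nat_lit 364060329363708427894784)) (.alt (nat_lit 8) (.cov (nat_lit 10345250824)) .e))) .e))) .e)) .e)) .e)) .e)) .e)) (.alt (nat_lit 20) (.cov (nat_lit 406842940686402409463819)) .e))) (.alt (nat_lit 16) (.cov (nat_lit 344336148672096656949263)) (.alt (nat_lit 16) (.exp (.alt (nat_lit 20) (.exp (.alt (nat_lit 21) (.exp (.alt (nat_lit 23) (.exp (.alt (nat_lit 29) (.exp (.alt (nat_lit 24) (.cov (nat_lit 102107340151776855719938)) (.alt (nat_lit 24) (.cov (nat_lit 406806047090502150389761)) (.alt (nat_lit 24) (.cov (nat_lit 26507971381255210008576)) (.alt (nat_lit 24) (.exp (.alt (nat_lit 8) (.cov (nat_lit 102070446654668406784003)) (.alt (nat_lit 8) (.cov (nat_lit 22749447146650866810881)) (.alt (nat_lit 8) (.cov (nat_lit 22749447161887665946624)) (.alt (nat_lit 8) (.exp (.alt (nat_lit 10) (.cov (nat_lit 404311124930499993141249))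 (.alt (nat_lit 12) (.cov (nat_lit 20650655759)) .e))) .e))))) .e))))) .e)) .e)) .e)) .e)) (.alt (nat_lit 16) (.exp (.alt (nat_lit 20) (.exp (.alt (nat_lit 4) (.exp (.alt (nat_lit 12) (.exp (.alt (nat_lit 24) (.cov (nat_lit 25440365953660697444354)) (.alt (nat_lit 24) (.cov (nat_lit 104689884447257274613761)) (.alt (nat_lit 24) (.exp (.alt (nat_lit 28) (.cov (nat_lit 45448165729205599862787)) (.alt (nat_lit 26) (.exp (.alt (nat_lit 10) (.exp (.alt (nat_lit 30) (.cov (nat_lit 1621007644273342939137)) (.alt (nat_lit 30) (.exp (.alt (nat_lit 31) (.cov (nat_lit 214443410852013932544)) (.alt (nat_lit 22) (.cov (nat_lit 124780552)) .e))) .e))) .e)) (.alt (nat_lit 28) (.cov (nat_lit 20734542416)) .e)))) .e)))) .e)) .e)) .e)) (.alt (nat_lit 16) (.cov (nat_lit 793212260319848562689)) (.alt (nat_lit 4) (.exp (.alt (nat_lit 20) (.exp (.alt (nat_lit 12) (.cov (nat_lit 654859447785891037195)) (.alt (nat_lit 12) (.cov (nat_lit 654859559936077070342)) (.alt (nat_lit 12) (.exp (.alt (nat_lit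 8) (.exp (.alt (nat_lit 10) (.exp (.alt (nat_lit 24) (.exp (.alt (nat_lit 28) (.cov (nat_lit 21910120284555142234115)) (.alt (nat_lit 28) (.cov (nat_lit 25449589310440121303041)) (.alt (nat_lit 28) (.cov (nat_lit 25449589325676920438784)) (.alt (nat_lit 13) (.exp (.alt (nat_lit 29) (.cov (nat_lit 440416023555964141569)) (.alt (nat_lit 29) (.exp (.alt (nat_lit 31) (.cov (nat_lit 22862433447348923269120)) (.alt (nat_lit 21) (.cov (nat_lit 661651464)) .e))) .e))) .e))))) .e)) .e)) .e)) (.alt (nat_lit 12) (.exp (.alt (nat_lit 8) (.exp (.alt (nat_lit 10) (.exp (.alt (nat_lit 28) (.cov (nat_lit 25449589310284456001539)) (.alt (nat_lit 28) (.exp (.alt (nat_lit 24) (.exp (.alt (nat_lit 30) (.cov (nat_lit 1621007644273342939137)) (.alt (nat_lit 30) (.exp (.alt (nat_lit 31) (.cov (nat_lit 1611784274435512467456)) (.alt (nat_lit 22) (.cov (nat_lit 124780552)) .e))) .e))) .e)) (.alt (nat_lit 13) (.cov (nat_lit 63963327)) .e)))) .e)) .e)) (.alt (nat_lit 12) (.cov (nat_lit 10173384267069760995328))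 (.alt (nat_lit 12) (.exp (.alt (nat_lit 14) (.cov (nat_lit 659471133776839442439)) (.alt (nat_lit 14) (.exp (.alt (nat_lit 10) (.exp (.alt (nat_lit 8) (.exp (.alt (nat_lit 24) (.exp (.alt (nat_lit 30) (.cov (nat_lit 1621007644273342939137)) (.alt (nat_lit 30) (.exp (.alt (nat_lit 31) (.cov (nat_lit 2649413628581678940160)) (.alt (nat_lit 22) (.cov (nat_lit 124780552)) .e))) .e))) .e)) .e)) .e)) (.alt (nat_lit 14) (.cov (nat_lit 69176075484087189505)) (.alt (nat_lit 14) (.exp (.alt (nat_lit 10) (.exp (.alt (nat_lit 30) (.cov (nat_lit 650247746201955860482)) (.alt (nat_lit 30) (.cov (nat_lit 133738927529539928065)) (.alt (nat_lit 30) (.cov (nat_lit 1621007870772742455296)) (.alt (nat_lit 30) (.exp (.alt (nat_lit 26) (.cov (nat_lit 424275122501809340419)) (.alt (nat_lit 26) (.cov (nat_lit 3013736830644273545217)) (.alt (nat_lit 26) (.cov (nat_lit 3013736846027671994368)) (.alt (nat_lit 26) (.exp (.alt (nat_lit 27) (.cov (nat_lit 426580965510423248897)) (.alt (nat_lit 24)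 (.cov (nat_lit 11568939023)) .e))) .e))))) .e))))) .e)) (.alt (nat_lit 13) (.exp (.alt (nat_lit 29) (.cov (nat_lit 406852163950687672074242)) (.alt (nat_lit 29) (.cov (nat_lit 6638522166463369838593)) (.alt (nat_lit 29) (.exp (.alt (nat_lit 25) (.cov (nat_lit 2866162878228677525507)) (.alt (nat_lit 31) (.exp (.alt (nat_lit 23) (.exp (.alt (nat_lit 27) (.cov (nat_lit 1609478429227262935041)) (.alt (nat_lit 27) (.exp (.alt (nat_lit 26) (.cov (nat_lit 202914195805931831296)) (.alt (nat_lit 11) (.cov (nat_lit 1755316232)) .e))) .e))) .e)) (.alt (nat_lit 25) (.cov (nat_lit 158673666640)) .e)))) .e)))) .e)))))) .e))))))) .e)) (.alt (nat_lit 16) (.exp (.alt (nat_lit 24) (.cov (nat_lit 26507971480214145335307)) (.alt (nat_lit 24) (.cov (nat_lit 1388119338726891454466)) (.alt (nat_lit 24) (.cov (nat_lit 82108768597078446178305)) (.alt (nat_lit 24) (.exp (.alt (nat_lit 26) (.exp (.alt (nat_lit 27) (.exp (.alt (nat_lit 31) (.exp (.alt (nat_lit 23) (.exp (.alt (nat_lit 29) (.exp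 (.alt (nat_lit 30) (.cov (nat_lit 1581808313116743696385)) (.alt (nat_lit 10) (.cov (nat_lit 184429838351)) .e))) .e)) .e)) .e)) .e)) (.alt (nat_lit 25) (.cov (nat_lit 10249472596124703391747)) (.alt (nat_lit 26) (.exp (.alt (nat_lit 10) (.exp (.alt (nat_lit 30) (.exp (.alt (nat_lit 28) (.exp (.alt (nat_lit 20) (.exp (.alt (nat_lit 12) (.exp (.alt (nat_lit 31) (.cov (nat_lit 25288180293041726160896)) (.alt (nat_lit 22) (.cov (nat_lit 124780552)) .e))) .e)) .e)) .e)) (.alt (nat_lit 27) (.cov (nat_lit 10254084007109455773697)) (.alt (nat_lit 27) (.exp (.alt (nat_lit 31) (.cov (nat_lit 1823921837899174117379)) (.alt (nat_lit 31) (.exp (.alt (nat_lit 23) (.exp (.alt (nat_lit 30) (.cov (nat_lit 102111951828815372615681)) (.alt (nat_lit 30) (.exp (.alt (nat_lit 28) (.cov (nat_lit 365346989762849671217152)) (.alt (nat_lit 22) (.cov (nat_lit 10523508744)) .e))) .e))) .e)) (.alt (nat_lit 25) (.cov (nat_lit 4660920511)) .e)))) .e)))) .e)) (.alt (nat_lit 8) (.cov (nat_lit 46988790932))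 .e))))) .e))))) .e)))))))) .e)) .e)) .e)) (.alt (nat_lit 0) (.exp (.alt (nat_lit 2) (.exp (.alt (nat_lit 6) (.exp (.alt (nat_lit 16) (.cov (nat_lit 4334986203133762338850)) (.alt (nat_lit 4) (.cov (nat_lit 3864596179778065661959)) (.alt (nat_lit 4) (.cov (nat_lit 25281269818480740270083)) (.alt (nat_lit 4) (.exp (.alt (nat_lit 12) (.exp (.alt (nat_lit 20) (.cov (nat_lit 63286167466174729682955)) (.alt (nat_lit 20) (.exp (.alt (nat_lit 22) (.exp (.alt (nat_lit 18) (.exp (.alt (nat_lit 23) (.exp (.alt (nat_lit 28) (.cov (nat_lit 350188377826876520923139)) (.alt (nat_lit 28) (.exp (.alt (nat_lit 30) (.exp (.alt (nat_lit 24) (.cov (nat_lit 1607172586374428622849)) (.alt (nat_lit 29) (.cov (nat_lit 4623171599)) .e))) .e)) (.alt (nat_lit 16) (.cov (nat_lit 897581247)) .e)))) .e)) .e)) .e)) (.alt (nat_lit 20) (.cov (nat_lit 3016047566471068385281)) (.alt (nat_lit 20) (.exp (.alt (nat_lit 22) (.exp (.alt (nat_lit 18) (.exp (.alt (nat_lit 26) (.exp (.alt (nat_lit 10) (.exp (.alt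 (nat_lit 27) (.exp (.alt (nat_lit 30) (.cov (nat_lit 25306627034917017485313)) (.alt (nat_lit 23) (.cov (nat_lit 66060303)) .e))) .e)) .e)) .e)) .e)) (.alt (nat_lit 16) (.cov (nat_lit 1973802035900986687491)) (.alt (nat_lit 16) (.exp (.alt (nat_lit 18) (.exp (.alt (nat_lit 24) (.cov (nat_lit 25440365953660697444354)) (.alt (nat_lit 24) (.cov (nat_lit 104689884447257274613761)) (.alt (nat_lit 24) (.exp (.alt (nat_lit 28) (.cov (nat_lit 45448165729205599862787)) (.alt (nat_lit 26) (.exp (.alt (nat_lit 10) (.exp (.alt (nat_lit 30) (.cov (nat_lit 1621007644273342939137)) (.alt (nat_lit 30) (.exp (.alt (nat_lit 31) (.cov (nat_lit 214443410852013932544)) (.alt (nat_lit 22) (.cov (nat_lit 124780552)) .e))) .e))) .e)) (.alt (nat_lit 28) (.cov (nat_lit 20734542416)) .e)))) .e)))) .e)) (.alt (nat_lit 16) (.cov (nat_lit 19044240530)) .e))))) .e))))) .e)) (.alt (nat_lit 4) (.cov (nat_lit 2998933595)) .e)))))) .e)) .e)) (.alt (nat_lit 0) (.cov (nat_lit 36906141327233646592)) (.alt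 (nat_lit 0) (.exp (.alt (nat_lit 16) (.exp (.alt (nat_lit 18) (.exp (.alt (nat_lit 2) (.exp (.alt (nat_lit 6) (.exp (.alt (nat_lit 10) (.exp (.alt (nat_lit 22) (.exp (.alt (nat_lit 20) (.exp (.alt (nat_lit 23) (.exp (.alt (nat_lit 24) (.cov (nat_lit 404343406741269433548802)) (.alt (nat_lit 24) (.cov (nat_lit 428886832699708276737)) (.alt (nat_lit 24) (.cov (nat_lit 3159005069957327224832)) (.alt (nat_lit 24) (.exp (.alt (nat_lit 26) (.cov (nat_lit 404348018418491770011651)) (.alt (nat_lit 26) (.cov (nat_lit 29067456991740073869313)) (.alt (nat_lit 26) (.cov (nat_lit 29067457007133203103744)) (.alt (nat_lit 26) (.exp (.alt (nat_lit 30) (.cov (nat_lit 1621007644273368104961)) (.alt (nat_lit 27) (.cov (nat_lit 4629463055)) .e))) .e))))) .e))))) .e)) .e)) .e)) .e)) .e)) .e)) (.alt (nat_lit 18) (.exp (.alt (nat_lit 2) (.exp (.alt (nat_lit 6) (.exp (.alt (nat_lit 10) (.exp (.alt (nat_lit 26) (.exp (.alt (nat_lit 24) (.exp (.alt (nat_lit 27) (.exp (.alt (nat_lit 20) (.cov (nat_lit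 102111951837614317764610)) (.alt (nat_lit 20) (.cov (nat_lit 25283568629023271550977)) (.alt (nat_lit 20) (.cov (nat_lit 344338454242243121250304)) (.alt (nat_lit 20) (.exp (.alt (nat_lit 21) (.cov (nat_lit 102114257671827439484931)) (.alt (nat_lit 21) (.cov (nat_lit 10175685217252241571841)) (.alt (nat_lit 21) (.cov (nat_lit 10175685232645404360704)) (.alt (nat_lit 21) (.exp (.alt (nat_lit 29) (.cov (nat_lit 6417161103437816922113)) (.alt (nat_lit 23) (.cov (nat_lit 4629463055)) .e))) .e))))) .e))))) .e)) .e)) .e)) .e)) .e)) .e)) .e))) (.alt (nat_lit 2) (.exp (.alt (nat_lit 6) (.cov (nat_lit 578059404131229314839770017300481)) (.alt (nat_lit 6) (.cov (nat_lit 21882453453958815940619)) .e))) (.alt (nat_lit 2) (.cov (nat_lit 1720167320327246839823)) (.alt (nat_lit 2) (.exp (.alt (nat_lit 6) (.exp (.alt (nat_lit 4) (.exp (.alt (nat_lit 12) (.exp (.alt (nat_lit 20) (.exp (.alt (nat_lit 18) (.exp (.alt (nat_lit 19) (.cov (nat_lit 3539280548716675233158337737523200)) (.alt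 (nat_lit 16) (.cov (nat_lit 6396408540557347913735)) .e))) (.alt (nat_lit 18) (.cov (nat_lit 1978413537203746504710)) (.alt (nat_lit 18) (.exp (.alt (nat_lit 26) (.exp (.alt (nat_lit 10) (.exp (.alt (nat_lit 24) (.exp (.alt (nat_lit 19) (.cov (nat_lit 25288180293042330140675)) (.alt (nat_lit 19) (.cov (nat_lit 209831731430656311297)) (.alt (nat_lit 19) (.cov (nat_lit 209831746823819100160)) (.alt (nat_lit 19) (.exp (.alt (nat_lit 23) (.cov (nat_lit 71481144290527150081)) (.alt (nat_lit 23) (.exp (.alt (nat_lit 31) (.cov (nat_lit 214443410852021272576)) (.alt (nat_lit 21) (.cov (nat_lit 63963144)) .e))) .e))) .e))))) .e)) .e)) .e)) (.alt (nat_lit 10) (.exp (.alt (nat_lit 8) (.exp (.alt (nat_lit 24) (.exp (.alt (nat_lit 26) (.cov (nat_lit 69175307868783509507)) (.alt (nat_lit 26) (.exp (.alt (nat_lit 18) (.exp (.alt (nat_lit 27) (.cov (nat_lit 71481142082341437441)) (.alt (nat_lit 27) (.exp (.alt (nat_lit 31) (.cov (nat_lit 66869458262337519616)) (.alt (nat_lit 19) (.cov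 (nat_lit 9788456968)) .e))) .e))) .e)) (.alt (nat_lit 14) (.cov (nat_lit 2984247487)) .e)))) .e)) .e)) (.alt (nat_lit 10) (.cov (nat_lit 428891672749289766912)) (.alt (nat_lit 10) (.exp (.alt (nat_lit 26) (.cov (nat_lit 21882450190423329603591)) (.alt (nat_lit 26) (.cov (nat_lit 424275256632017944579)) (.alt (nat_lit 26) (.cov (nat_lit 209832498889767256065)) (.alt (nat_lit 26) (.exp (.alt (nat_lit 18) (.exp (.alt (nat_lit 27) (.cov (nat_lit 6417161112234090299394)) (.alt (nat_lit 24) (.cov (nat_lit 654859447602097684481)) (.alt (nat_lit 24) (.cov (nat_lit 25440366065790228627456)) (.alt (nat_lit 24) (.exp (.alt (nat_lit 25) (.cov (nat_lit 2866162869248745013251)) (.alt (nat_lit 25) (.cov (nat_lit 2866162878044838035457)) (.alt (nat_lit 25) (.cov (nat_lit 1837756911328691224576)) (.alt (nat_lit 25) (.exp (.alt (nat_lit 27) (.cov (nat_lit 71481142082341437441)) (.alt (nat_lit 27) (.exp (.alt (nat_lit 31) (.cov (nat_lit 6398714361563147403264)) (.alt (nat_lit 19) (.cov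 (nat_lit 9788456968)) .e))) .e))) .e))))) .e))))) .e)) (.alt (nat_lit 8) (.cov (nat_lit 58721755)) .e)))))) .e))))))) .e)) .e)) .e)) .e)) (.alt (nat_lit 2) (.exp (.alt (nat_lit 6) (.exp (.alt (nat_lit 4) (.exp (.alt (nat_lit 12) (.exp (.alt (nat_lit 18) (.cov (nat_lit 365591409258167026057227)) (.alt (nat_lit 18) (.cov (nat_lit 2840800434577238654978)) (.alt (nat_lit 10) (.cov (nat_lit 21900900198003897270273)) (.alt (nat_lit 10) (.cov (nat_lit 631246852)) .e))))) .e)) .e)) .e)) (.alt (nat_lit 2) (.cov (nat_lit 10122664521358125301761)) (.alt (nat_lit 2) (.exp (.alt (nat_lit 6) (.exp (.alt (nat_lit 10) (.cov (nat_lit 6553206252219404386325)) (.alt (nat_lit 10) (.exp (.alt (nat_lit 14) (.exp (.alt (nat_lit 12) (.exp (.alt (nat_lit 30) (.exp (.alt (nat_lit 22) (.exp (.alt (nat_lit 23) (.exp (.alt (nat_lit 26) (.cov (nat_lit 21896285233095216463875)) (.alt (nat_lit 26) (.exp (.alt (nat_lit 18) (.exp (.alt (nat_lit 24) (.cov (nat_lit 1607172586227831406593)) (.alt (nat_lit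 27) (.cov (nat_lit 2979004431)) .e))) .e)) (.alt (nat_lit 26) (.exp (.alt (nat_lit 24) (.cov (nat_lit 1607172586218759127042)) (.alt (nat_lit 18) (.cov (nat_lit 654311491)) .e))) .e)))) .e)) .e)) .e)) .e)) (.alt (nat_lit 11) (.cov (nat_lit 2688614795922998558727)) .e))) (.alt (nat_lit 10) (.cov (nat_lit 102301035830808309399558)) (.alt (nat_lit 10) (.exp (.alt (nat_lit 8) (.exp (.alt (nat_lit 12) (.exp (.alt (nat_lit 24) (.exp (.alt (nat_lit 26) (.cov (nat_lit 1840062754338542452743)) (.alt (nat_lit 26) (.cov (nat_lit 659471241382397476867)) (.alt (nat_lit 26) (.cov (nat_lit 21541185812097563361281)) (.alt (nat_lit 26) (.exp (.alt (nat_lit 18) (.exp (.alt (nat_lit 30) (.cov (nat_lit 21764852181563158298626)) (.alt (nat_lit 27) (.cov (nat_lit 661776976630302900225)) (.alt (nat_lit 27) (.cov (nat_lit 661777084381830053888)) (.alt (nat_lit 27) (.cov (nat_lit 4663017663)) .e))))) .e)) (.alt (nat_lit 11) (.cov (nat_lit 9960424923)) .e)))))) .e)) .e)) .e)) (.alt (nat_lit 10)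 (.cov (nat_lit 1388126507542603890689)) (.alt (nat_lit 10) (.cov (nat_lit 350252953569742252146688)) (.alt (nat_lit 10) (.exp (.alt (nat_lit 14) (.exp (.alt (nat_lit 12) (.cov (nat_lit 14430934742489583571553706502520833)) (.alt (nat_lit 12) (.exp (.alt (nat_lit 28) (.cov (nat_lit 14430934742504712207539200224919552)) (.alt (nat_lit 8) (.cov (nat_lit 6562429344969618620423)) .e))) .e))) (.alt (nat_lit 14) (.cov (nat_lit 21910120693581503004687)) (.alt (nat_lit 14) (.exp (.alt (nat_lit 12) (.exp (.alt (nat_lit 28) (.exp (.alt (nat_lit 24) (.exp (.alt (nat_lit 20) (.exp (.alt (nat_lit 30) (.cov (nat_lit 1694794629367164043266)) (.alt (nat_lit 30) (.cov (nat_lit 1461904500826896859137)) (.alt (nat_lit 30) (.cov (nat_lit 493450650262362390528)) (.alt (nat_lit 30) (.exp (.alt (nat_lit 26) (.cov (nat_lit 1611784272236651741187)) (.alt (nat_lit 26) (.cov (nat_lit 3013736830634502914049)) (.alt (nat_lit 26) (.cov (nat_lit 3013736846027665702912)) (.alt (nat_lit 26) (.exp (.alt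 (nat_lit 27) (.cov (nat_lit 25306627034916404068353)) (.alt (nat_lit 18) (.cov (nat_lit 9884925967)) .e))) .e))))) .e))))) .e)) .e)) .e)) .e)) (.alt (nat_lit 14) (.exp (.alt (nat_lit 12) (.exp (.alt (nat_lit 8) (.exp (.alt (nat_lit 24) (.exp (.alt (nat_lit 30) (.cov (nat_lit 641024389549668696066)) (.alt (nat_lit 30) (.cov (nat_lit 6396408654903136747521)) (.alt (nat_lit 30) (.exp (.alt (nat_lit 26) (.cov (nat_lit 3013736830634570022915)) (.alt (nat_lit 22) (.exp (.alt (nat_lit 18) (.exp (.alt (nat_lit 23) (.cov (nat_lit 6394102673355450613761)) (.alt (nat_lit 20) (.cov (nat_lit 760217615)) .e))) .e)) (.alt (nat_lit 22) (.exp (.alt (nat_lit 23) (.cov (nat_lit 6394102673348571955202)) (.alt (nat_lit 18) (.cov (nat_lit 1362100291)) .e))) .e)))) .e)))) .e)) .e)) .e)) (.alt (nat_lit 8) (.cov (nat_lit 1604873799884228001793)) (.alt (nat_lit 8) (.exp (.alt (nat_lit 12) (.exp (.alt (nat_lit 24) (.cov (nat_lit 25440365953649926471691)) (.alt (nat_lit 24) (.cov (nat_lit 654859555357090381830))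 (.alt (nat_lit 24) (.cov (nat_lit 654859834633043836930)) (.alt (nat_lit 24) (.cov (nat_lit 3009126974213196873729)) (.alt (nat_lit 24) (.cov (nat_lit 1835454333869010976768)) (.alt (nat_lit 24) (.exp (.alt (nat_lit 16) (.cov (nat_lit 636412703528984772615)) (.alt (nat_lit 16) (.cov (nat_lit 636412811290251100163)) (.alt (nat_lit 26) (.cov (nat_lit 21541185812097563361281)) (.alt (nat_lit 26) (.exp (.alt (nat_lit 18) (.exp (.alt (nat_lit 30) (.cov (nat_lit 21764852181563158298626)) (.alt (nat_lit 27) (.cov (nat_lit 661776976630302900225)) (.alt (nat_lit 27) (.cov (nat_lit 661777084381830053888)) (.alt (nat_lit 27) (.cov (nat_lit 4663017663)) .e))))) .e)) (.alt (nat_lit 16) (.cov (nat_lit 9950987739)) .e)))))) .e))))))) .e)) (.alt (nat_lit 11) (.exp (.alt (nat_lit 27) (.cov (nat_lit 25590245861389298040843)) (.alt (nat_lit 27) (.exp (.alt (nat_lit 26) (.exp (.alt (nat_lit 18) (.exp (.alt (nat_lit 30) (.exp (.alt (nat_lit 31) (.cov (nat_lit 104623014874645145845763)) (.alt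 (nat_lit 31) (.exp (.alt (nat_lit 23) (.exp (.alt (nat_lit 29) (.cov (nat_lit 365383883248798062870529)) (.alt (nat_lit 29) (.exp (.alt (nat_lit 28) (.cov (nat_lit 2850021970383254585344)) (.alt (nat_lit 25) (.cov (nat_lit 158167203848)) .e))) .e))) .e)) (.alt (nat_lit 31) (.cov (nat_lit 156494725712)) .e)))) .e)) .e)) .e)) (.alt (nat_lit 27) (.cov (nat_lit 6405636763626312302593)) (.alt (nat_lit 27) (.exp (.alt (nat_lit 26) (.exp (.alt (nat_lit 18) (.exp (.alt (nat_lit 22) (.exp (.alt (nat_lit 23) (.exp (.alt (nat_lit 30) (.exp (.alt (nat_lit 24) (.cov (nat_lit 102111951828815936749569)) (.alt (nat_lit 24) (.exp (.alt (nat_lit 28) (.cov (nat_lit 21538879560060244066304)) (.alt (nat_lit 16) (.cov (nat_lit 10523508744)) .e))) .e))) .e)) .e)) .e)) .e)) (.alt (nat_lit 25) (.cov (nat_lit 10249472595979812208643)) (.alt (nat_lit 25) (.exp (.alt (nat_lit 24) (.exp (.alt (nat_lit 29) (.cov (nat_lit 48422736362710499330)) (.alt (nat_lit 29) (.cov (nat_lit 48422848329036070913))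 (.alt (nat_lit 29) (.exp (.alt (nat_lit 21) (.cov (nat_lit 4251974526582865788931)) (.alt (nat_lit 28) (.exp (.alt (nat_lit 12) (.exp (.alt (nat_lit 20) (.cov (nat_lit 6396408516354930376705)) (.alt (nat_lit 20) (.exp (.alt (nat_lit 22) (.cov (nat_lit 511897159040575209472)) (.alt (nat_lit 16) (.cov (nat_lit 9950986248)) .e))) .e))) .e)) (.alt (nat_lit 21) (.cov (nat_lit 28777120336)) .e)))) .e)))) .e)) (.alt (nat_lit 19) (.cov (nat_lit 21795703955)) .e))))) .e))))) .e)))))))) .e)))))))) .e)) (.alt (nat_lit 2) (.exp (.alt (nat_lit 6) (.cov (nat_lit 22956974846911698698259)) (.alt (nat_lit 6) (.cov (nat_lit 25465735077789662445579)) (.alt (nat_lit 6) (.cov (nat_lit 21522747663996686434306)) (.alt (nat_lit 6) (.cov (nat_lit 23219851258983073447937)) (.alt (nat_lit 6) (.exp (.alt (nat_lit 14) (.cov (nat_lit 21721042448624727883810)) (.alt (nat_lit 4) (.cov (nat_lit 3864596179778065661959)) (.alt (nat_lit 4) (.cov (nat_lit 25281269818480740270083)) (.alt (nat_lit 4) (.exp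 (.alt (nat_lit 12) (.exp (.alt (nat_lit 20) (.cov (nat_lit 63286167466174729682955)) (.alt (nat_lit 20) (.exp (.alt (nat_lit 22) (.exp (.alt (nat_lit 18) (.exp (.alt (nat_lit 23) (.exp (.alt (nat_lit 28) (.cov (nat_lit 350188377826876520923139)) (.alt (nat_lit 28) (.exp (.alt (nat_lit 30) (.exp (.alt (nat_lit 24) (.cov (nat_lit 1607172586374428622849)) (.alt (nat_lit 29) (.cov (nat_lit 4623171599)) .e))) .e)) (.alt (nat_lit 16) (.cov (nat_lit 897581247)) .e)))) .e)) .e)) .e)) (.alt (nat_lit 20) (.cov (nat_lit 3016047566471068385281)) (.alt (nat_lit 20) (.exp (.alt (nat_lit 22) (.exp (.alt (nat_lit 18) (.exp (.alt (nat_lit 26) (.exp (.alt (nat_lit 10) (.exp (.alt (nat_lit 27) (.exp (.alt (nat_lit 30) (.cov (nat_lit 25306627034917017485313)) (.alt (nat_lit 23) (.cov (nat_lit 66060303)) .e))) .e)) .e)) .e)) .e)) (.alt (nat_lit 16) (.cov (nat_lit 1973802035900986687491)) (.alt (nat_lit 16) (.exp (.alt (nat_lit 18) (.exp (.alt (nat_lit 24) (.cov (nat_lit 25440365953660697444354))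 (.alt (nat_lit 24) (.cov (nat_lit 104689884447257274613761)) (.alt (nat_lit 24) (.exp (.alt (nat_lit 28) (.cov (nat_lit 45448165729205599862787)) (.alt (nat_lit 26) (.exp (.alt (nat_lit 10) (.exp (.alt (nat_lit 30) (.cov (nat_lit 1621007644273342939137)) (.alt (nat_lit 30) (.exp (.alt (nat_lit 31) (.cov (nat_lit 214443410852013932544)) (.alt (nat_lit 22) (.cov (nat_lit 124780552)) .e))) .e))) .e)) (.alt (nat_lit 28) (.cov (nat_lit 20734542416)) .e)))) .e)))) .e)) (.alt (nat_lit 16) (.cov (nat_lit 19044240530)) .e))))) .e))))) .e)) (.alt (nat_lit 4) (.cov (nat_lit 2998933595)) .e)))))) .e)))))) .e))))))))) .e)))))))))) .e)) .e)) .e)) .e)) .e)) .e)) .e)))])]) (by decide +kernel)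
  exact h _ List.mem_cons_self

theorem t15_18 : GF FULL [0, 15] [18, 6] := by
  have h := JT.chkW_ok (zs := [0, 15]) good (by decide) (by decide)
    (L := [([18, 6], [.cov (nat_lit 34587684720624017392),
      .cov (nat_lit 34587724303042617328),
      .cov (nat_lit 1362753293214969502748),
      .cov (nat_lit 34587684720624017392),
      .cov (nat_lit 34587724303042617328),
      .cov (nat_lit 1362753293215036612607),
      .cov (nat_lit 34587684720624017392),
      .cov (nat_lit 34587724303042617328),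
      .cov (nat_lit 1362753293215036612608),
      .cov (nat_lit 34587684720624017392),
      .cov (nat_lit 34587724303042617328),
      .cov (nat_lit 1362753293215036612609),
      .cov (nat_lit 34587684720624017392),
      .cov (nat_lit 34587724303042617328),
      .cov (nat_lit 1362753293212721356798),
      .cov (nat_lit 34587684720624017392),
      .cov (nat_lit 34587724303042617328),
      .rot (.exp (.alt (nat_lit 15) (.exp (.alt (nat_lit 7) (.exp (.alt (nat_lit 3) (.exp (.alt (nat_lit 11) (.exp (.alt (nat_lit 9) (.exp (.alt (nat_lit 10) (.exp (.alt (nat_lit 0) (.cov (nat_lit 26720113716580663165393)) (.alt (nat_lit 0) (.cov (nat_lit 6659279492441396216025)) (.alt (nat_lit 0) (.cov (nat_lit 42953250641094696239197)) (.alt (nat_lit 0) (.cov (nat_lit 3846155168558214021156)) (.alt (nat_lit 0) (.cov (nat_lit 18456015155939508240)) (.alt (nat_lit 0) (.cov (nat_lit 102213416384706000191509)) (.alt (nat_lit 0) (.cov (nat_lit 9235570019138535435)) (.alt (nat_lit 0) (.cov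 (nat_lit 18461218044794372102)) (.alt (nat_lit 0) (.cov (nat_lit 4627184734349295619)) (.alt (nat_lit 0) (.cov (nat_lit 608756472050603786242)) (.alt (nat_lit 0) (.cov (nat_lit 594923228189507452929)) (.alt (nat_lit 0) (.cov (nat_lit 1627942349871611117568)) (.alt (nat_lit 0) (.exp (.alt (nat_lit 1) (.exp (.alt (nat_lit 5) (.cov (nat_lit 47303653860132606620683069507502082)) (.alt (nat_lit 5) (.cov (nat_lit 14202763350244005892218610911281153)) (.alt (nat_lit 5) (.cov (nat_lit 248465538095953362106375550795776)) (.alt (nat_lit 5) (.cov (nat_lit 10148017885117212000349)) .e))))) (.alt (nat_lit 1) (.cov (nat_lit 11531356895005638694)) (.alt (nat_lit 1) (.cov (nat_lit 7759165022341132451936)) (.alt (nat_lit 1) (.cov (nat_lit 103313303097689106284578)) (.alt (nat_lit 1) (.cov (nat_lit 11538910539653578788)) (.alt (nat_lit 1) (.cov (nat_lit 11540753321141731343)) (.alt (nat_lit 1) (.cov (nat_lit 11540218958457077767)) (.alt (nat_lit 1) (.cov (nat_lit 25320475043019636080646))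 (.alt (nat_lit 1) (.cov (nat_lit 113000027157567635459)) (.alt (nat_lit 1) (.cov (nat_lit 85330702695387889666)) (.alt (nat_lit 1) (.cov (nat_lit 39214744110636204033)) (.alt (nat_lit 1) (.cov (nat_lit 1810103586959683223552)) (.alt (nat_lit 1) (.cov (nat_lit 105913887)) .e)))))))))))))) .e)))))))))))))) .e)) .e)) .e)) .e)) .e)) (.alt (nat_lit 15) (.exp (.alt (nat_lit 7) (.exp (.alt (nat_lit 3) (.exp (.alt (nat_lit 5) (.exp (.alt (nat_lit 1) (.exp (.alt (nat_lit 9) (.exp (.alt (nat_lit 0) (.cov (nat_lit 25391943718838550397393)) (.alt (nat_lit 0) (.cov (nat_lit 25387333666694972309721)) (.alt (nat_lit 0) (.cov (nat_lit 27748523179743515770973)) (.alt (nat_lit 0) (.cov (nat_lit 36902504143513452579)) (.alt (nat_lit 0) (.cov (nat_lit 36904467871280660496)) (.alt (nat_lit 0) (.cov (nat_lit 25387340571628095406098)) (.alt (nat_lit 0) (.cov (nat_lit 36904467882085187595)) (.alt (nat_lit 0) (.cov (nat_lit 1923086795988094943238)) (.alt (nat_lit 0) (.cov (nat_lit 1789349585905510252547))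 (.alt (nat_lit 0) (.cov (nat_lit 1775513034713441763330)) (.alt (nat_lit 0) (.cov (nat_lit 4627417830835355649)) (.alt (nat_lit 0) (.cov (nat_lit 1558766830896782770176)) (.alt (nat_lit 0) (.exp (.alt (nat_lit 2) (.exp (.alt (nat_lit 6) (.cov (nat_lit 1389349119866179203646645952577538)) (.alt (nat_lit 6) (.cov (nat_lit 50878430540226690652124948526530561)) (.alt (nat_lit 6) (.cov (nat_lit 8488192481120578232663928402345984)) (.alt (nat_lit 6) (.cov (nat_lit 3859983044603281408093)) .e))))) (.alt (nat_lit 2) (.cov (nat_lit 25405783258503263027238)) (.alt (nat_lit 2) (.cov (nat_lit 3859984493759602622558)) (.alt (nat_lit 2) (.cov (nat_lit 1720167320326642860066)) (.alt (nat_lit 2) (.cov (nat_lit 102070453735504404807716)) (.alt (nat_lit 2) (.cov (nat_lit 41514190162546917391)) (.alt (nat_lit 2) (.cov (nat_lit 41516153890314125319)) (.alt (nat_lit 2) (.cov (nat_lit 41516153889676591110)) (.alt (nat_lit 2) (.cov (nat_lit 41518887275583242243)) (.alt (nat_lit 2) (.cov (nat_lit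 404440265847571275055106)) (.alt (nat_lit 2) (.cov (nat_lit 1572600327645591240705)) (.alt (nat_lit 2) (.cov (nat_lit 6368752379435157553152)) (.alt (nat_lit 2) (.cov (nat_lit 710942239)) .e)))))))))))))) .e)))))))))))))) .e)) .e)) .e)) .e)) (.alt (nat_lit 7) (.exp (.alt (nat_lit 3) (.exp (.alt (nat_lit 11) (.exp (.alt (nat_lit 9) (.exp (.alt (nat_lit 10) (.exp (.alt (nat_lit 0) (.cov (nat_lit 26720113716580663165393)) (.alt (nat_lit 0) (.cov (nat_lit 6659279492441396216025)) (.alt (nat_lit 0) (.cov (nat_lit 42953250641094696239197)) (.alt (nat_lit 0) (.cov (nat_lit 3846155168558214021156)) (.alt (nat_lit 0) (.cov (nat_lit 18456015155939508240)) (.alt (nat_lit 0) (.cov (nat_lit 102213416384706000191509)) (.alt (nat_lit 0) (.cov (nat_lit 9235570019138535435)) (.alt (nat_lit 0) (.cov (nat_lit 18461218044794372102)) (.alt (nat_lit 0) (.cov (nat_lit 4627184734349295619)) (.alt (nat_lit 0) (.cov (nat_lit 608756472050603786242)) (.alt (nat_lit 0) (.cov (nat_lit 594923228189507452929))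 (.alt (nat_lit 0) (.cov (nat_lit 1627942349871611117568)) (.alt (nat_lit 0) (.exp (.alt (nat_lit 1) (.exp (.alt (nat_lit 5) (.cov (nat_lit 47303653860132606620683069507502082)) (.alt (nat_lit 5) (.cov (nat_lit 14202763350244005892218610911281153)) (.alt (nat_lit 5) (.cov (nat_lit 248465538095953362106375550795776)) (.alt (nat_lit 5) (.cov (nat_lit 10148017885117212000349)) .e))))) (.alt (nat_lit 1) (.cov (nat_lit 11531356895005638694)) (.alt (nat_lit 1) (.cov (nat_lit 7759165022341132451936)) (.alt (nat_lit 1) (.cov (nat_lit 103313303097689106284578)) (.alt (nat_lit 1) (.cov (nat_lit 11538910539653578788)) (.alt (nat_lit 1) (.cov (nat_lit 11540753321141731343)) (.alt (nat_lit 1) (.cov (nat_lit 11540218958457077767)) (.alt (nat_lit 1) (.cov (nat_lit 25320475043019636080646)) (.alt (nat_lit 1) (.cov (nat_lit 113000027157567635459)) (.alt (nat_lit 1) (.cov (nat_lit 85330702695387889666)) (.alt (nat_lit 1) (.cov (nat_lit 39214744110636204033)) (.alt (nat_lit 1) (.cov (nat_lit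 1810103586959683223552)) (.alt (nat_lit 1) (.cov (nat_lit 105913887)) .e)))))))))))))) .e)))))))))))))) .e)) .e)) .e)) .e)) .e))) .e))),
      .cov (nat_lit 34587684720624017392),
      .cov (nat_lit 34587724303042617328),
      .rot (.exp (.alt (nat_lit 15) (.exp (.alt (nat_lit 7) (.exp (.alt (nat_lit 3) (.exp (.alt (nat_lit 11) (.exp (.alt (nat_lit 9) (.exp (.alt (nat_lit 10) (.exp (.alt (nat_lit 0) (.cov (nat_lit 6659279492441396216025)) (.alt (nat_lit 0) (.cov (nat_lit 22735621100036794875922)) (.alt (nat_lit 0) (.cov (nat_lit 9235570019138535435)) (.alt (nat_lit 0) (.exp (.alt (nat_lit 1) (.exp (.alt (nat_lit 5) (.exp (.alt (nat_lit 17) (.exp (.alt (nat_lit 16) (.cov (nat_lit 24248246386713602031650)) (.alt (nat_lit 2) (.cov (nat_lit 43105432510586438025223)) (.alt (nat_lit 2) (.cov (nat_lit 2845417338832599121923)) (.alt (nat_lit 2) (.exp (.alt (nat_lit 6) (.exp (.alt (nat_lit 18) (.cov (nat_lit 406921339353122846277643)) (.alt (nat_lit 18) (.exp (.alt (nat_lit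 26) (.exp (.alt (nat_lit 27) (.exp (.alt (nat_lit 30) (.exp (.alt (nat_lit 22) (.cov (nat_lit 63281555562454001385475)) (.alt (nat_lit 22) (.exp (.alt (nat_lit 23) (.exp (.alt (nat_lit 20) (.cov (nat_lit 102111951828825097109505)) (.alt (nat_lit 20) (.exp (.alt (nat_lit 28) (.cov (nat_lit 1395035031569413701632)) (.alt (nat_lit 16) (.cov (nat_lit 159240945672)) .e))) .e))) .e)) (.alt (nat_lit 22) (.cov (nat_lit 46426751568)) .e)))) .e)) .e)) .e)) (.alt (nat_lit 18) (.cov (nat_lit 6405636763636076642305)) (.alt (nat_lit 18) (.exp (.alt (nat_lit 26) (.exp (.alt (nat_lit 27) (.exp (.alt (nat_lit 31) (.exp (.alt (nat_lit 23) (.exp (.alt (nat_lit 30) (.exp (.alt (nat_lit 24) (.cov (nat_lit 365383883248798666850305)) (.alt (nat_lit 24) (.exp (.alt (nat_lit 28) (.cov (nat_lit 6391796832535488495616)) (.alt (nat_lit 25) (.cov (nat_lit 3553624072)) .e))) .e))) .e)) .e)) .e)) .e)) (.alt (nat_lit 16) (.cov (nat_lit 344336148671912845770755)) (.alt (nat_lit 16) (.exp (.alt (nat_lit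 24) (.exp (.alt (nat_lit 20) (.cov (nat_lit 1671736214849151041538)) (.alt (nat_lit 20) (.cov (nat_lit 25283568741173457584129)) (.alt (nat_lit 20) (.exp (.alt (nat_lit 21) (.cov (nat_lit 10175685217253516640259)) (.alt (nat_lit 28) (.exp (.alt (nat_lit 12) (.exp (.alt (nat_lit 29) (.cov (nat_lit 6417161103437863059457)) (.alt (nat_lit 29) (.exp (.alt (nat_lit 31) (.cov (nat_lit 1471127850873481330688)) (.alt (nat_lit 25) (.cov (nat_lit 9960423432)) .e))) .e))) .e)) (.alt (nat_lit 21) (.cov (nat_lit 3016753744)) .e)))) .e)))) .e)) (.alt (nat_lit 19) (.cov (nat_lit 9993981075)) .e))))) .e))))) .e)) (.alt (nat_lit 2) (.cov (nat_lit 4603254875)) .e)))))) .e)) .e)) .e)) (.alt (nat_lit 0) (.cov (nat_lit 627201949486918139905)) (.alt (nat_lit 0) (.exp (.alt (nat_lit 1) (.cov (nat_lit 7759165022340763353126)) (.alt (nat_lit 1) (.cov (nat_lit 103313303097689106284578)) (.alt (nat_lit 1) (.cov (nat_lit 39210310880021446663)) (.alt (nat_lit 1) (.cov (nat_lit 113000027157567635459))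 (.alt (nat_lit 1) (.exp (.alt (nat_lit 5) (.exp (.alt (nat_lit 17) (.cov (nat_lit 47998429926985034629140)) (.alt (nat_lit 17) (.cov (nat_lit 47998431376139682316299)) (.alt (nat_lit 17) (.exp (.alt (nat_lit 19) (.exp (.alt (nat_lit 23) (.exp (.alt (nat_lit 27) (.exp (.alt (nat_lit 21) (.exp (.alt (nat_lit 29) (.exp (.alt (nat_lit 28) (.exp (.alt (nat_lit 12) (.exp (.alt (nat_lit 24) (.exp (.alt (nat_lit 20) (.cov (nat_lit 2854633654202683883521)) (.alt (nat_lit 20) (.exp (.alt (nat_lit 22) (.cov (nat_lit 2873080400475385233408)) (.alt (nat_lit 4) (.cov (nat_lit 174757773320)) .e))) .e))) .e)) .e)) .e)) .e)) (.alt (nat_lit 21) (.cov (nat_lit 404472534352206559707139)) (.alt (nat_lit 21) (.exp (.alt (nat_lit 29) (.exp (.alt (nat_lit 20) (.cov (nat_lit 1660206999630688288770)) (.alt (nat_lit 20) (.cov (nat_lit 63346119296453196120065)) (.alt (nat_lit 20) (.exp (.alt (nat_lit 4) (.cov (nat_lit 3864592901199867412483)) (.alt (nat_lit 22) (.exp (.alt (nat_lit 6) (.exp (.alt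 (nat_lit 30) (.cov (nat_lit 45443554034389365030913)) (.alt (nat_lit 18) (.cov (nat_lit 185012846607)) .e))) .e)) (.alt (nat_lit 22) (.exp (.alt (nat_lit 30) (.cov (nat_lit 25295097819881805971458)) (.alt (nat_lit 6) (.cov (nat_lit 2329935939)) .e))) .e)))) .e)))) .e)) (.alt (nat_lit 21) (.exp (.alt (nat_lit 20) (.cov (nat_lit 405542445347953679794178)) (.alt (nat_lit 29) (.cov (nat_lit 12176066728)) .e))) .e))))) .e)) .e)) .e)) (.alt (nat_lit 17) (.cov (nat_lit 47998441100209005002753)) (.alt (nat_lit 17) (.exp (.alt (nat_lit 21) (.cov (nat_lit 10228720934674209177634)) (.alt (nat_lit 19) (.cov (nat_lit 48003043062147911254023)) (.alt (nat_lit 19) (.cov (nat_lit 2697843428023916822531)) (.alt (nat_lit 19) (.exp (.alt (nat_lit 23) (.exp (.alt (nat_lit 27) (.cov (nat_lit 6490948218271872057355)) (.alt (nat_lit 27) (.cov (nat_lit 10254085709164334546946)) (.alt (nat_lit 27) (.cov (nat_lit 48021489806220316377089)) (.alt (nat_lit 27) (.exp (.alt (nat_lit 31) (.exp (.alt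 (nat_lit 29) (.exp (.alt (nat_lit 28) (.exp (.alt (nat_lit 12) (.exp (.alt (nat_lit 24) (.exp (.alt (nat_lit 30) (.cov (nat_lit 1600255057200175644673)) (.alt (nat_lit 30) (.exp (.alt (nat_lit 22) (.cov (nat_lit 193690823769072861184)) (.alt (nat_lit 14) (.cov (nat_lit 1751121928)) .e))) .e))) .e)) .e)) .e)) .e)) (.alt (nat_lit 31) (.cov (nat_lit 42053965222053426495491)) (.alt (nat_lit 31) (.exp (.alt (nat_lit 29) (.exp (.alt (nat_lit 30) (.cov (nat_lit 1683265429722835714050)) (.alt (nat_lit 30) (.cov (nat_lit 406921339355321763627009)) (.alt (nat_lit 30) (.exp (.alt (nat_lit 14) (.cov (nat_lit 384310242677385659940867)) (.alt (nat_lit 22) (.exp (.alt (nat_lit 6) (.exp (.alt (nat_lit 20) (.cov (nat_lit 45443554034379623759873)) (.alt (nat_lit 18) (.cov (nat_lit 158158815247)) .e))) .e)) (.alt (nat_lit 22) (.exp (.alt (nat_lit 20) (.cov (nat_lit 25272039389789658546178)) (.alt (nat_lit 6) (.cov (nat_lit 37316722755)) .e))) .e)))) .e)))) .e)) (.alt (nat_lit 31) (.exp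 (.alt (nat_lit 30) (.cov (nat_lit 63120146793701130108930)) (.alt (nat_lit 29) (.cov (nat_lit 12176066728)) .e))) .e))))) .e))))) .e)) (.alt (nat_lit 19) (.cov (nat_lit 11566848427)) .e)))))) .e)))))) .e)) (.alt (nat_lit 1) (.cov (nat_lit 105913887)) .e))))))) .e))))))) .e)) .e)) .e)) .e)) .e)) (.alt (nat_lit 15) (.exp (.alt (nat_lit 7) (.exp (.alt (nat_lit 3) (.exp (.alt (nat_lit 5) (.exp (.alt (nat_lit 1) (.exp (.alt (nat_lit 9) (.exp (.alt (nat_lit 0) (.cov (nat_lit 25391944334565095506137)) (.alt (nat_lit 0) (.cov (nat_lit 36902506526213668884)) (.alt (nat_lit 0) (.cov (nat_lit 36904467882085187595)) (.alt (nat_lit 0) (.exp (.alt (nat_lit 2) (.exp (.alt (nat_lit 6) (.exp (.alt (nat_lit 10) (.exp (.alt (nat_lit 16) (.cov (nat_lit 4325762270336310575138)) (.alt (nat_lit 4) (.cov (nat_lit 46120156521891364871)) (.alt (nat_lit 4) (.cov (nat_lit 415058807304042315779)) (.alt (nat_lit 4) (.cov (nat_lit 46127839907401433088)) (.alt (nat_lit 4) (.cov (nat_lit 289413212))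 .e)))))) .e)) .e)) .e)) (.alt (nat_lit 0) (.cov (nat_lit 1807797174403478847489)) (.alt (nat_lit 0) (.exp (.alt (nat_lit 2) (.cov (nat_lit 3859984493761011908646)) (.alt (nat_lit 2) (.cov (nat_lit 1720167320326642860066)) (.alt (nat_lit 2) (.cov (nat_lit 41516153890314125319)) (.alt (nat_lit 2) (.cov (nat_lit 41518887275583242243)) (.alt (nat_lit 2) (.exp (.alt (nat_lit 6) (.exp (.alt (nat_lit 10) (.cov (nat_lit 2688614795925614755858)) (.alt (nat_lit 10) (.cov (nat_lit 102301035830808309399563)) (.alt (nat_lit 10) (.cov (nat_lit 650256746976492126210)) (.alt (nat_lit 10) (.cov (nat_lit 59962897962719248385)) (.alt (nat_lit 10) (.exp (.alt (nat_lit 26) (.cov (nat_lit 29141244370456936448034)) (.alt (nat_lit 8) (.cov (nat_lit 1826230959790153007111)) (.alt (nat_lit 8) (.cov (nat_lit 55347297848989319171)) (.alt (nat_lit 8) (.cov (nat_lit 55351211944256208896)) (.alt (nat_lit 11) (.cov (nat_lit 9792657503)) .e)))))) .e)))))) .e)) (.alt (nat_lit 2) (.cov (nat_lit 710942239))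 .e))))))) .e))))))) .e)) .e)) .e)) .e)) (.alt (nat_lit 7) (.exp (.alt (nat_lit 3) (.exp (.alt (nat_lit 11) (.exp (.alt (nat_lit 9) (.exp (.alt (nat_lit 10) (.exp (.alt (nat_lit 0) (.cov (nat_lit 6659279492441396216025)) (.alt (nat_lit 0) (.cov (nat_lit 22735621100036794875922)) (.alt (nat_lit 0) (.cov (nat_lit 9235570019138535435)) (.alt (nat_lit 0) (.exp (.alt (nat_lit 1) (.exp (.alt (nat_lit 5) (.exp (.alt (nat_lit 17) (.exp (.alt (nat_lit 16) (.cov (nat_lit 24248246386713602031650)) (.alt (nat_lit 2) (.cov (nat_lit 43105432510586438025223)) (.alt (nat_lit 2) (.cov (nat_lit 2845417338832599121923)) (.alt (nat_lit 2) (.exp (.alt (nat_lit 6) (.exp (.alt (nat_lit 18) (.cov (nat_lit 406921339353122846277643)) (.alt (nat_lit 18) (.exp (.alt (nat_lit 26) (.exp (.alt (nat_lit 27) (.exp (.alt (nat_lit 30) (.exp (.alt (nat_lit 22) (.cov (nat_lit 63281555562454001385475)) (.alt (nat_lit 22) (.exp (.alt (nat_lit 23) (.exp (.alt (nat_lit 20) (.cov (nat_lit 102111951828825097109505))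 (.alt (nat_lit 20) (.exp (.alt (nat_lit 28) (.cov (nat_lit 1395035031569413701632)) (.alt (nat_lit 16) (.cov (nat_lit 159240945672)) .e))) .e))) .e)) (.alt (nat_lit 22) (.cov (nat_lit 46426751568)) .e)))) .e)) .e)) .e)) (.alt (nat_lit 18) (.cov (nat_lit 6405636763636076642305)) (.alt (nat_lit 18) (.exp (.alt (nat_lit 26) (.exp (.alt (nat_lit 27) (.exp (.alt (nat_lit 31) (.exp (.alt (nat_lit 23) (.exp (.alt (nat_lit 30) (.exp (.alt (nat_lit 24) (.cov (nat_lit 365383883248798666850305)) (.alt (nat_lit 24) (.exp (.alt (nat_lit 28) (.cov (nat_lit 6391796832535488495616)) (.alt (nat_lit 25) (.cov (nat_lit 3553624072)) .e))) .e))) .e)) .e)) .e)) .e)) (.alt (nat_lit 16) (.cov (nat_lit 344336148671912845770755)) (.alt (nat_lit 16) (.exp (.alt (nat_lit 24) (.exp (.alt (nat_lit 20) (.cov (nat_lit 1671736214849151041538)) (.alt (nat_lit 20) (.cov (nat_lit 25283568741173457584129)) (.alt (nat_lit 20) (.exp (.alt (nat_lit 21) (.cov (nat_lit 10175685217253516640259)) (.alt (nat_lit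 28) (.exp (.alt (nat_lit 12) (.exp (.alt (nat_lit 29) (.cov (nat_lit 6417161103437863059457)) (.alt (nat_lit 29) (.exp (.alt (nat_lit 31) (.cov (nat_lit 1471127850873481330688)) (.alt (nat_lit 25) (.cov (nat_lit 9960423432)) .e))) .e))) .e)) (.alt (nat_lit 21) (.cov (nat_lit 3016753744)) .e)))) .e)))) .e)) (.alt (nat_lit 19) (.cov (nat_lit 9993981075)) .e))))) .e))))) .e)) (.alt (nat_lit 2) (.cov (nat_lit 4603254875)) .e)))))) .e)) .e)) .e)) (.alt (nat_lit 0) (.cov (nat_lit 627201949486918139905)) (.alt (nat_lit 0) (.exp (.alt (nat_lit 1) (.cov (nat_lit 7759165022340763353126)) (.alt (nat_lit 1) (.cov (nat_lit 103313303097689106284578)) (.alt (nat_lit 1) (.cov (nat_lit 39210310880021446663)) (.alt (nat_lit 1) (.cov (nat_lit 113000027157567635459)) (.alt (nat_lit 1) (.exp (.alt (nat_lit 5) (.exp (.alt (nat_lit 17) (.cov (nat_lit 47998429926985034629140)) (.alt (nat_lit 17) (.cov (nat_lit 47998431376139682316299)) (.alt (nat_lit 17) (.exp (.alt (nat_lit 19) (.exp (.alt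 (nat_lit 23) (.exp (.alt (nat_lit 27) (.exp (.alt (nat_lit 21) (.exp (.alt (nat_lit 29) (.exp (.alt (nat_lit 28) (.exp (.alt (nat_lit 12) (.exp (.alt (nat_lit 24) (.exp (.alt (nat_lit 20) (.cov (nat_lit 2854633654202683883521)) (.alt (nat_lit 20) (.exp (.alt (nat_lit 22) (.cov (nat_lit 2873080400475385233408)) (.alt (nat_lit 4) (.cov (nat_lit 174757773320)) .e))) .e))) .e)) .e)) .e)) .e)) (.alt (nat_lit 21) (.cov (nat_lit 404472534352206559707139)) (.alt (nat_lit 21) (.exp (.alt (nat_lit 29) (.exp (.alt (nat_lit 20) (.cov (nat_lit 1660206999630688288770)) (.alt (nat_lit 20) (.cov (nat_lit 63346119296453196120065)) (.alt (nat_lit 20) (.exp (.alt (nat_lit 4) (.cov (nat_lit 3864592901199867412483)) (.alt (nat_lit 22) (.exp (.alt (nat_lit 6) (.exp (.alt (nat_lit 30) (.cov (nat_lit 45443554034389365030913)) (.alt (nat_lit 18) (.cov (nat_lit 185012846607)) .e))) .e)) (.alt (nat_lit 22) (.exp (.alt (nat_lit 30) (.cov (nat_lit 25295097819881805971458)) (.alt (nat_lit 6) (.cov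 (nat_lit 2329935939)) .e))) .e)))) .e)))) .e)) (.alt (nat_lit 21) (.exp (.alt (nat_lit 20) (.cov (nat_lit 405542445347953679794178)) (.alt (nat_lit 29) (.cov (nat_lit 12176066728)) .e))) .e))))) .e)) .e)) .e)) (.alt (nat_lit 17) (.cov (nat_lit 47998441100209005002753)) (.alt (nat_lit 17) (.exp (.alt (nat_lit 21) (.cov (nat_lit 10228720934674209177634)) (.alt (nat_lit 19) (.cov (nat_lit 48003043062147911254023)) (.alt (nat_lit 19) (.cov (nat_lit 2697843428023916822531)) (.alt (nat_lit 19) (.exp (.alt (nat_lit 23) (.exp (.alt (nat_lit 27) (.cov (nat_lit 6490948218271872057355)) (.alt (nat_lit 27) (.cov (nat_lit 10254085709164334546946)) (.alt (nat_lit 27) (.cov (nat_lit 48021489806220316377089)) (.alt (nat_lit 27) (.exp (.alt (nat_lit 31) (.exp (.alt (nat_lit 29) (.exp (.alt (nat_lit 28) (.exp (.alt (nat_lit 12) (.exp (.alt (nat_lit 24) (.exp (.alt (nat_lit 30) (.cov (nat_lit 1600255057200175644673)) (.alt (nat_lit 30) (.exp (.alt (nat_lit 22) (.cov (nat_lit 193690823769072861184))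 (.alt (nat_lit 14) (.cov (nat_lit 1751121928)) .e))) .e))) .e)) .e)) .e)) .e)) (.alt (nat_lit 31) (.cov (nat_lit 42053965222053426495491)) (.alt (nat_lit 31) (.exp (.alt (nat_lit 29) (.exp (.alt (nat_lit 30) (.cov (nat_lit 1683265429722835714050)) (.alt (nat_lit 30) (.cov (nat_lit 406921339355321763627009)) (.alt (nat_lit 30) (.exp (.alt (nat_lit 14) (.cov (nat_lit 384310242677385659940867)) (.alt (nat_lit 22) (.exp (.alt (nat_lit 6) (.exp (.alt (nat_lit 20) (.cov (nat_lit 45443554034379623759873)) (.alt (nat_lit 18) (.cov (nat_lit 158158815247)) .e))) .e)) (.alt (nat_lit 22) (.exp (.alt (nat_lit 20) (.cov (nat_lit 25272039389789658546178)) (.alt (nat_lit 6) (.cov (nat_lit 37316722755)) .e))) .e)))) .e)))) .e)) (.alt (nat_lit 31) (.exp (.alt (nat_lit 30) (.cov (nat_lit 63120146793701130108930)) (.alt (nat_lit 29) (.cov (nat_lit 12176066728)) .e))) .e))))) .e))))) .e)) (.alt (nat_lit 19) (.cov (nat_lit 11566848427)) .e)))))) .e)))))) .e)) (.alt (nat_lit 1) (.cov (nat_lit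 105913887)) .e))))))) .e))))))) .e)) .e)) .e)) .e)) .e))) .e)))])]) (by decide +kernel)
  exact h _ List.mem_cons_self

theorem t15_20 : GF FULL [0, 15] [20, 4] := by
  have h := JT.chkW_ok (zs := [0, 15]) good (by decide) (by decide)
    (L := [([20, 4], [.cov (nat_lit 34587658332344950979),
      .cov (nat_lit 34587660542910931068),
      .cov (nat_lit 34587658332344950979),
      .cov (nat_lit 34587660531368206513),
      .cov (nat_lit 34587658332344950979),
      .cov (nat_lit 34587660531368206545),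
      .cov (nat_lit 34587658332344950979),
      .cov (nat_lit 1362753233838455922898),
      .cov (nat_lit 34587658332344950979),
      .cov (nat_lit 6527841574477130375379),
      .cov (nat_lit 34587658332344950979),
      .rot (.exp (.alt (nat_lit 15) (.exp (.alt (nat_lit 7) (.exp (.alt (nat_lit 3) (.exp (.alt (nat_lit 5) (.exp (.alt (nat_lit 0) (.exp (.alt (nat_lit 1) (.cov (nat_lit 6835193347375074085876160047087622)) (.alt (nat_lit 1) (.cov (nat_lit 81148434794838775816530930171907)) (.alt (nat_lit 1) (.cov (nat_lit 10160006017539846904129176731649)) (.alt (nat_lit 1) (.cov (nat_lit 61019647779479723216892509929078784)) (.alt (nat_lit 1) (.exp (.alt (nat_lit 9) (.cov (nat_lit 55989610362189549193064754019565570)) (.alt (nat_lit 9) (.cov (nat_lit 105316427549147457298296650391879681)) (.alt (nat_lit 9) (.cov (nat_lit 10156940180351585340124370567168)) (.alt (nat_lit 9) (.cov (nat_lit 25534913972262239469661)) .e))))) .e)))))) (.alt (nat_lit 0) (.cov (nat_lit 343865765294015451759055))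 (.alt (nat_lit 0) (.cov (nat_lit 1715559383642864091230)) (.alt (nat_lit 0) (.cov (nat_lit 4617029644955156707)) (.alt (nat_lit 0) (.cov (nat_lit 4619164897140277465)) (.alt (nat_lit 0) (.cov (nat_lit 4622692129838202973)) (.alt (nat_lit 0) (.cov (nat_lit 4626162188703236131)) (.alt (nat_lit 0) (.cov (nat_lit 225988012463953543184)) (.alt (nat_lit 0) (.cov (nat_lit 63313853604368545218567)) (.alt (nat_lit 0) (.cov (nat_lit 4625460700116942866)) (.alt (nat_lit 0) (.cov (nat_lit 4625610233698320395)) (.alt (nat_lit 0) (.cov (nat_lit 594923228189511647238)) (.alt (nat_lit 0) (.cov (nat_lit 2587172813006096564227)) (.alt (nat_lit 0) (.cov (nat_lit 1775514908280550850562)) (.alt (nat_lit 0) (.exp (.alt (nat_lit 1) (.exp (.alt (nat_lit 9) (.exp (.alt (nat_lit 2) (.exp (.alt (nat_lit 6) (.cov (nat_lit 1389349119866179203646645952577538)) (.alt (nat_lit 6) (.cov (nat_lit 50878430540226690652124948526530561)) (.alt (nat_lit 6) (.cov (nat_lit 8488192481120578232663928402345984))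 (.alt (nat_lit 6) (.cov (nat_lit 3859983044603281408093)) .e))))) (.alt (nat_lit 2) (.cov (nat_lit 25405783258503263027238)) (.alt (nat_lit 2) (.cov (nat_lit 3859984493759602622558)) (.alt (nat_lit 2) (.cov (nat_lit 1720167320326642860066)) (.alt (nat_lit 2) (.cov (nat_lit 102070453735504404807716)) (.alt (nat_lit 2) (.cov (nat_lit 41514190162546917391)) (.alt (nat_lit 2) (.cov (nat_lit 41516153890314125319)) (.alt (nat_lit 2) (.cov (nat_lit 41516153889676591110)) (.alt (nat_lit 2) (.cov (nat_lit 41518887275583242243)) (.alt (nat_lit 2) (.cov (nat_lit 404440265847571275055106)) (.alt (nat_lit 2) (.cov (nat_lit 1572600327645591240705)) (.alt (nat_lit 2) (.cov (nat_lit 6368752379435157553152)) (.alt (nat_lit 2) (.cov (nat_lit 710942239)) .e)))))))))))))) .e)) .e)) (.alt (nat_lit 0) (.cov (nat_lit 25387349495263746064384)) (.alt (nat_lit 0) (.exp (.alt (nat_lit 1) (.exp (.alt (nat_lit 9) (.cov (nat_lit 3006874472462142522926171019018246)) (.alt (nat_lit 9) (.cov (nat_lit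 50548848942369958842447947119984643)) (.alt (nat_lit 9) (.cov (nat_lit 3006874472460666783422264487444482)) (.alt (nat_lit 9) (.cov (nat_lit 55903402287533577098740136986804225)) (.alt (nat_lit 9) (.exp (.alt (nat_lit 11) (.cov (nat_lit 406826804555203588653149)) .e)) (.alt (nat_lit 9) (.exp (.alt (nat_lit 11) (.cov (nat_lit 3006874472462147134612189448503299)) (.alt (nat_lit 11) (.cov (nat_lit 3006874472463549087163990397681666)) (.alt (nat_lit 11) (.cov (nat_lit 3006874472463549087181582583726081)) (.alt (nat_lit 11) (.cov (nat_lit 55903402287533212775546880245366784)) (.alt (nat_lit 11) (.cov (nat_lit 406826804555203590750302)) .e)))))) .e))))))) (.alt (nat_lit 1) (.exp (.alt (nat_lit 9) (.cov (nat_lit 6738846156943688829581187234136066)) (.alt (nat_lit 9) (.cov (nat_lit 86211996410247178055290270515201)) (.alt (nat_lit 9) (.cov (nat_lit 86211996410247178077280499924992)) (.alt (nat_lit 9) (.cov (nat_lit 777076247712659144797)) .e))))) (.alt (nat_lit 1) (.cov (nat_lit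 20763302923265376294)) (.alt (nat_lit 1) (.cov (nat_lit 20759722913438892498)) (.alt (nat_lit 1) (.cov (nat_lit 94548594766289829982)) (.alt (nat_lit 1) (.cov (nat_lit 20761860364613713954)) (.alt (nat_lit 1) (.cov (nat_lit 39210310879757205540)) (.alt (nat_lit 1) (.cov (nat_lit 1662526531548197421071)) (.alt (nat_lit 1) (.cov (nat_lit 345214689275219677282311)) (.alt (nat_lit 1) (.cov (nat_lit 1662526531548197421067)) (.alt (nat_lit 1) (.cov (nat_lit 39214744110640398342)) (.alt (nat_lit 1) (.cov (nat_lit 102307964761768627011587)) (.alt (nat_lit 1) (.cov (nat_lit 2843120984607561875458)) (.alt (nat_lit 1) (.cov (nat_lit 25274362196052795195393)) (.alt (nat_lit 1) (.cov (nat_lit 39217207016686616576)) (.alt (nat_lit 1) (.exp (.alt (nat_lit 9) (.cov (nat_lit 6511705539852299665873)) (.alt (nat_lit 9) (.cov (nat_lit 25548745452509570531545)) (.alt (nat_lit 9) (.cov (nat_lit 22966204778634592387165)) (.alt (nat_lit 9) (.cov (nat_lit 2601001447715272392739)) (.alt (nat_lit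 9) (.cov (nat_lit 2600996596669970645008)) (.alt (nat_lit 9) (.cov (nat_lit 239816713154329575442)) (.alt (nat_lit 9) (.cov (nat_lit 2601001905122779856907)) (.alt (nat_lit 9) (.cov (nat_lit 2601005372982453862406)) (.alt (nat_lit 9) (.cov (nat_lit 25260525647060936949763)) (.alt (nat_lit 9) (.cov (nat_lit 2601006558255988604930)) (.alt (nat_lit 9) (.cov (nat_lit 2981470742725718441985)) (.alt (nat_lit 9) (.cov (nat_lit 25253609593576711258112)) (.alt (nat_lit 9) (.exp (.alt (nat_lit 11) (.exp (.alt (nat_lit 10) (.cov (nat_lit 55954101556090067114926665598238722)) (.alt (nat_lit 10) (.cov (nat_lit 56116362873582549883077252435935233)) (.alt (nat_lit 10) (.cov (nat_lit 56116362873582549883099232891568128)) (.alt (nat_lit 10) (.cov (nat_lit 10171076315209359425629)) .e))))) (.alt (nat_lit 11) (.cov (nat_lit 3048327754518170173478)) (.alt (nat_lit 11) (.cov (nat_lit 3048327754527934513246)) (.alt (nat_lit 11) (.cov (nat_lit 21790223502542698971170)) (.alt (nat_lit 11) (.cov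 (nat_lit 21790223502531256909860)) (.alt (nat_lit 11) (.cov (nat_lit 3933777198511809363983)) (.alt (nat_lit 11) (.cov (nat_lit 3933779160038875594759)) (.alt (nat_lit 11) (.cov (nat_lit 62268740973170262022)) (.alt (nat_lit 11) (.cov (nat_lit 21534281582763158011907)) (.alt (nat_lit 11) (.cov (nat_lit 136059108161868529666)) (.alt (nat_lit 11) (.cov (nat_lit 62273174212542726145)) (.alt (nat_lit 11) (.cov (nat_lit 21534284687773626531840)) (.alt (nat_lit 11) (.cov (nat_lit 11486109215)) .e)))))))))))))) .e)))))))))))))) .e))))))))))))))))) .e)))))))))))))))))) .e)) .e)) .e)) .e)),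
      .cov (nat_lit 34587658332344950979),
      .rot (.exp (.alt (nat_lit 15) (.exp (.alt (nat_lit 7) (.exp (.alt (nat_lit 3) (.exp (.alt (nat_lit 5) (.exp (.alt (nat_lit 0) (.exp (.alt (nat_lit 1) (.exp (.alt (nat_lit 9) (.exp (.alt (nat_lit 11) (.exp (.alt (nat_lit 10) (.exp (.alt (nat_lit 27) (.exp (.alt (nat_lit 17) (.exp (.alt (nat_lit 19) (.exp (.alt (nat_lit 23) (.exp (.alt (nat_lit 18) (.exp (.alt (nat_lit 8) (.cov (nat_lit 21896285248490712334343)) (.alt (nat_lit 8) (.cov (nat_lit 26664768699284838154243)) (.alt (nat_lit 8) (.cov (nat_lit 43119264692309577433089)) (.alt (nat_lit 8) (.exp (.alt (nat_lit 24) (.exp (.alt (nat_lit 12) (.cov (nat_lit 64563622034018402306)) (.alt (nat_lit 12) (.cov (nat_lit 63120146567357384359937)) (.alt (nat_lit 12) (.cov (nat_lit 43123876105649076043776)) (.alt (nat_lit 12) (.exp (.alt (nat_lit 14) (.cov (nat_lit 69175299256354865155)) (.alt (nat_lit 14) (.cov (nat_lit 1840062738944753664001)) (.alt (nat_lit 14) (.cov (nat_lit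 1840062754337882898432)) (.alt (nat_lit 14) (.exp (.alt (nat_lit 30) (.cov (nat_lit 6410243574566548930561)) (.alt (nat_lit 6) (.cov (nat_lit 11498684431)) .e))) .e))))) .e))))) .e)) (.alt (nat_lit 8) (.exp (.alt (nat_lit 12) (.cov (nat_lit 63120146567201204207618)) (.alt (nat_lit 24) (.cov (nat_lit 26701662187432694513665)) (.alt (nat_lit 24) (.exp (.alt (nat_lit 28) (.cov (nat_lit 4233527782508592103427)) (.alt (nat_lit 28) (.cov (nat_lit 26664768701483698880512)) (.alt (nat_lit 26) (.cov (nat_lit 12144607423)) .e)))) .e)))) .e)))))) .e)) .e)) .e)) .e)) .e)) .e)) .e)) .e)) (.alt (nat_lit 1) (.exp (.alt (nat_lit 9) (.exp (.alt (nat_lit 17) (.exp (.alt (nat_lit 16) (.exp (.alt (nat_lit 18) (.exp (.alt (nat_lit 20) (.exp (.alt (nat_lit 19) (.exp (.alt (nat_lit 23) (.exp (.alt (nat_lit 27) (.exp (.alt (nat_lit 4) (.cov (nat_lit 22754058847934843191303)) (.alt (nat_lit 4) (.exp (.alt (nat_lit 6) (.exp (.alt (nat_lit 2) (.exp (.alt (nat_lit 10) (.exp (.alt (nat_lit 12) (.cov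 (nat_lit 64563613210448494593)) (.alt (nat_lit 12) (.exp (.alt (nat_lit 28) (.cov (nat_lit 216749253861233917952)) (.alt (nat_lit 8) (.cov (nat_lit 629145608)) .e))) .e))) .e)) .e)) .e)) (.alt (nat_lit 4) (.cov (nat_lit 3864593303611962818561)) (.alt (nat_lit 4) (.exp (.alt (nat_lit 6) (.exp (.alt (nat_lit 12) (.cov (nat_lit 433498503345011163138)) (.alt (nat_lit 12) (.cov (nat_lit 26507971267062351790081)) (.alt (nat_lit 12) (.cov (nat_lit 61778146050187860115456)) (.alt (nat_lit 12) (.exp (.alt (nat_lit 8) (.cov (nat_lit 424275122512059170819)) (.alt (nat_lit 8) (.cov (nat_lit 1383505823121016881153)) (.alt (nat_lit 8) (.cov (nat_lit 1383505838513575690240)) (.alt (nat_lit 8) (.exp (.alt (nat_lit 24) (.cov (nat_lit 45438942348361776234497)) (.alt (nat_lit 10) (.cov (nat_lit 731906063)) .e))) .e))))) .e))))) .e)) (.alt (nat_lit 2) (.exp (.alt (nat_lit 10) (.cov (nat_lit 1609478453427997507586)) (.alt (nat_lit 6) (.cov (nat_lit 26521806439320253366273)) (.alt (nat_lit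 6) (.exp (.alt (nat_lit 14) (.cov (nat_lit 29067456991923867222019)) (.alt (nat_lit 14) (.exp (.alt (nat_lit 10) (.exp (.alt (nat_lit 12) (.cov (nat_lit 64563613210448494593)) (.alt (nat_lit 12) (.exp (.alt (nat_lit 28) (.cov (nat_lit 140656434557176774656)) (.alt (nat_lit 8) (.cov (nat_lit 629145608)) .e))) .e))) .e)) (.alt (nat_lit 22) (.cov (nat_lit 185017041087)) .e)))) .e)))) .e)))))) .e)) .e)) .e)) .e)) .e)) .e)) (.alt (nat_lit 17) (.exp (.alt (nat_lit 16) (.exp (.alt (nat_lit 18) (.exp (.alt (nat_lit 20) (.exp (.alt (nat_lit 21) (.exp (.alt (nat_lit 23) (.exp (.alt (nat_lit 29) (.exp (.alt (nat_lit 2) (.cov (nat_lit 343870367997025446789127)) (.alt (nat_lit 2) (.exp (.alt (nat_lit 6) (.exp (.alt (nat_lit 4) (.exp (.alt (nat_lit 12) (.exp (.alt (nat_lit 10) (.cov (nat_lit 428886808666212139009)) (.alt (nat_lit 10) (.exp (.alt (nat_lit 26) (.cov (nat_lit 1618701803463157743616)) (.alt (nat_lit 8) (.cov (nat_lit 58720264)) .e))) .e))) .e)) .e)) .e)) (.alt (nat_lit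 2) (.cov (nat_lit 3859981617593535430657)) (.alt (nat_lit 2) (.exp (.alt (nat_lit 6) (.exp (.alt (nat_lit 10) (.cov (nat_lit 59951936015601500162)) (.alt (nat_lit 10) (.cov (nat_lit 347628892102198224224257)) (.alt (nat_lit 10) (.cov (nat_lit 3855369658739865944064)) (.alt (nat_lit 10) (.exp (.alt (nat_lit 8) (.cov (nat_lit 55340241201078992899)) (.alt (nat_lit 8) (.cov (nat_lit 129127226108199043073)) (.alt (nat_lit 8) (.cov (nat_lit 129127241501328277504)) (.alt (nat_lit 8) (.exp (.alt (nat_lit 24) (.cov (nat_lit 404343406732472669437953)) (.alt (nat_lit 12) (.cov (nat_lit 734003215)) .e))) .e))))) .e))))) .e)) (.alt (nat_lit 4) (.exp (.alt (nat_lit 12) (.cov (nat_lit 1614090139436224348162)) (.alt (nat_lit 6) (.cov (nat_lit 347642727274456127897601)) (.alt (nat_lit 6) (.exp (.alt (nat_lit 14) (.cov (nat_lit 350188377826896535093251)) (.alt (nat_lit 14) (.exp (.alt (nat_lit 12) (.exp (.alt (nat_lit 10) (.cov (nat_lit 428886808666212139009)) (.alt (nat_lit 10) (.exp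 (.alt (nat_lit 26) (.cov (nat_lit 1390423345550998896640)) (.alt (nat_lit 8) (.cov (nat_lit 58720264)) .e))) .e))) .e)) (.alt (nat_lit 22) (.cov (nat_lit 21808283839)) .e)))) .e)))) .e)))))) .e)) .e)) .e)) .e)) .e)) .e)) .e))) .e)) .e))) (.alt (nat_lit 0) (.cov (nat_lit 343865765294061509411033)) (.alt (nat_lit 0) (.cov (nat_lit 1715559383642864091229)) (.alt (nat_lit 0) (.exp (.alt (nat_lit 1) (.exp (.alt (nat_lit 9) (.exp (.alt (nat_lit 17) (.exp (.alt (nat_lit 19) (.exp (.alt (nat_lit 23) (.exp (.alt (nat_lit 18) (.exp (.alt (nat_lit 16) (.exp (.alt (nat_lit 20) (.exp (.alt (nat_lit 21) (.exp (.alt (nat_lit 29) (.exp (.alt (nat_lit 4) (.exp (.alt (nat_lit 6) (.exp (.alt (nat_lit 12) (.exp (.alt (nat_lit 24) (.cov (nat_lit 45438942348361205809153)) (.alt (nat_lit 24) (.exp (.alt (nat_lit 26) (.cov (nat_lit 438110182745728614400)) (.alt (nat_lit 25) (.cov (nat_lit 47574941704)) .e))) .e))) .e)) .e)) .e)) .e)) .e)) (.alt (nat_lit 20) (.cov (nat_lit 55340372959359401995))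 .e))) (.alt (nat_lit 16) (.cov (nat_lit 4251974929016705515535)) (.alt (nat_lit 16) (.exp (.alt (nat_lit 20) (.exp (.alt (nat_lit 4) (.exp (.alt (nat_lit 6) (.exp (.alt (nat_lit 12) (.exp (.alt (nat_lit 24) (.cov (nat_lit 102107340151593010987010)) (.alt (nat_lit 24) (.cov (nat_lit 1607172610407335460865)) (.alt (nat_lit 24) (.cov (nat_lit 1976107606230702227456)) (.alt (nat_lit 24) (.exp (.alt (nat_lit 25) (.cov (nat_lit 102109645985806132707331)) (.alt (nat_lit 25) (.cov (nat_lit 104618403188626724749313)) (.alt (nat_lit 25) (.cov (nat_lit 104618403204019887538176)) (.alt (nat_lit 25) (.exp (.alt (nat_lit 27) (.cov (nat_lit 71481142081729069057)) (.alt (nat_lit 29) (.cov (nat_lit 47579136015)) .e))) .e))))) .e))))) .e)) .e)) .e)) .e)) (.alt (nat_lit 2) (.cov (nat_lit 3859984493943434772483)) (.alt (nat_lit 2) (.cov (nat_lit 43114659664933548982273)) (.alt (nat_lit 2) (.exp (.alt (nat_lit 6) (.exp (.alt (nat_lit 10) (.cov (nat_lit 405565503551545150537739)) (.alt (nat_lit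 10) (.cov (nat_lit 25341214816394058661894)) (.alt (nat_lit 10) (.exp (.alt (nat_lit 8) (.exp (.alt (nat_lit 12) (.exp (.alt (nat_lit 24) (.exp (.alt (nat_lit 26) (.cov (nat_lit 25304321191907903406083)) (.alt (nat_lit 26) (.cov (nat_lit 1840062738944775684097)) (.alt (nat_lit 26) (.cov (nat_lit 1840062754337904918528)) (.alt (nat_lit 26) (.exp (.alt (nat_lit 30) (.cov (nat_lit 6410243574410798694401)) (.alt (nat_lit 27) (.cov (nat_lit 300941327)) .e))) .e))))) .e)) .e)) .e)) (.alt (nat_lit 10) (.exp (.alt (nat_lit 8) (.exp (.alt (nat_lit 24) (.exp (.alt (nat_lit 26) (.cov (nat_lit 26706273750305922351107)) (.alt (nat_lit 26) (.exp (.alt (nat_lit 27) (.exp (.alt (nat_lit 30) (.cov (nat_lit 6410243574410210443265)) (.alt (nat_lit 30) (.exp (.alt (nat_lit 28) (.cov (nat_lit 343914178992208376496128)) (.alt (nat_lit 14) (.cov (nat_lit 157047324680)) .e))) .e))) .e)) (.alt (nat_lit 26) (.cov (nat_lit 3588227664)) .e)))) .e)) .e)) (.alt (nat_lit 10) (.cov (nat_lit 6673114552695089266688))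 (.alt (nat_lit 10) (.exp (.alt (nat_lit 8) (.cov (nat_lit 43119264305281450901511)) (.alt (nat_lit 8) (.cov (nat_lit 55340373124757585923)) (.alt (nat_lit 8) (.cov (nat_lit 1383506225541670764545)) (.alt (nat_lit 8) (.exp (.alt (nat_lit 12) (.exp (.alt (nat_lit 24) (.cov (nat_lit 6410243583206450266114)) (.alt (nat_lit 24) (.cov (nat_lit 1607172610407914274817)) (.alt (nat_lit 24) (.cov (nat_lit 1385811795872004964352)) (.alt (nat_lit 24) (.exp (.alt (nat_lit 25) (.cov (nat_lit 6412549417419571986435)) (.alt (nat_lit 25) (.cov (nat_lit 657165275218117132289)) (.alt (nat_lit 25) (.cov (nat_lit 657165290611279921152)) (.alt (nat_lit 25) (.exp (.alt (nat_lit 29) (.cov (nat_lit 25299709505889379549185)) (.alt (nat_lit 27) (.cov (nat_lit 300941327)) .e))) .e))))) .e))))) .e)) (.alt (nat_lit 8) (.exp (.alt (nat_lit 24) (.cov (nat_lit 1607172610573450870786)) (.alt (nat_lit 12) (.cov (nat_lit 64563745151839633409)) (.alt (nat_lit 12) (.exp (.alt (nat_lit 28) (.cov (nat_lit 129127226111059558403))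 (.alt (nat_lit 28) (.cov (nat_lit 55340375157661237248)) (.alt (nat_lit 13) (.cov (nat_lit 30408895)) .e)))) .e)))) .e)))))) .e))))))) .e)) (.alt (nat_lit 2) (.exp (.alt (nat_lit 6) (.cov (nat_lit 21522738795520177733643)) (.alt (nat_lit 6) (.cov (nat_lit 2633274563702292480002)) (.alt (nat_lit 6) (.cov (nat_lit 3869207865796495147009)) (.alt (nat_lit 6) (.exp (.alt (nat_lit 22) (.exp (.alt (nat_lit 20) (.exp (.alt (nat_lit 28) (.exp (.alt (nat_lit 29) (.exp (.alt (nat_lit 12) (.exp (.alt (nat_lit 30) (.cov (nat_lit 404338795046454818766849)) (.alt (nat_lit 30) (.exp (.alt (nat_lit 26) (.cov (nat_lit 41671194873505021689856)) (.alt (nat_lit 31) (.cov (nat_lit 4625268744)) .e))) .e))) .e)) .e)) .e)) .e)) (.alt (nat_lit 22) (.cov (nat_lit 22057694646171187806211)) (.alt (nat_lit 22) (.exp (.alt (nat_lit 20) (.exp (.alt (nat_lit 30) (.cov (nat_lit 406819882148558109933570)) (.alt (nat_lit 30) (.cov (nat_lit 26521806439311102443521)) (.alt (nat_lit 30) (.exp (.alt (nat_lit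 31) (.cov (nat_lit 104623014874691555819523)) (.alt (nat_lit 26) (.exp (.alt (nat_lit 27) (.exp (.alt (nat_lit 24) (.cov (nat_lit 102111951828815357935617)) (.alt (nat_lit 10) (.cov (nat_lit 20644364303)) .e))) .e)) (.alt (nat_lit 26) (.exp (.alt (nat_lit 24) (.cov (nat_lit 1567973255062135767042)) (.alt (nat_lit 27) (.cov (nat_lit 3482320963)) .e))) .e)))) .e)))) .e)) (.alt (nat_lit 22) (.exp (.alt (nat_lit 30) (.cov (nat_lit 1399646966261328379906)) (.alt (nat_lit 20) (.cov (nat_lit 11639195816)) .e))) .e))))) .e))))) .e)))))))) .e)) .e)) .e)) .e)) .e)) .e)) (.alt (nat_lit 0) (.exp (.alt (nat_lit 1) (.exp (.alt (nat_lit 9) (.exp (.alt (nat_lit 17) (.exp (.alt (nat_lit 19) (.exp (.alt (nat_lit 23) (.exp (.alt (nat_lit 16) (.cov (nat_lit 276702506909809246242)) (.alt (nat_lit 2) (.cov (nat_lit 3859984493761334870023)) (.alt (nat_lit 2) (.cov (nat_lit 613361347877855559683)) (.alt (nat_lit 2) (.exp (.alt (nat_lit 18) (.exp (.alt (nat_lit 6) (.cov (nat_lit 21522738795520177733643))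 (.alt (nat_lit 6) (.cov (nat_lit 2633274563702292480002)) (.alt (nat_lit 6) (.cov (nat_lit 3869207865796495147009)) (.alt (nat_lit 6) (.exp (.alt (nat_lit 22) (.exp (.alt (nat_lit 20) (.exp (.alt (nat_lit 28) (.exp (.alt (nat_lit 29) (.exp (.alt (nat_lit 12) (.exp (.alt (nat_lit 30) (.cov (nat_lit 404338795046454818766849)) (.alt (nat_lit 30) (.exp (.alt (nat_lit 26) (.cov (nat_lit 41671194873505021689856)) (.alt (nat_lit 31) (.cov (nat_lit 4625268744)) .e))) .e))) .e)) .e)) .e)) .e)) (.alt (nat_lit 22) (.cov (nat_lit 22057694646171187806211)) (.alt (nat_lit 22) (.exp (.alt (nat_lit 20) (.exp (.alt (nat_lit 30) (.cov (nat_lit 406819882148558109933570)) (.alt (nat_lit 30) (.cov (nat_lit 26521806439311102443521)) (.alt (nat_lit 30) (.exp (.alt (nat_lit 31) (.cov (nat_lit 104623014874691555819523)) (.alt (nat_lit 26) (.exp (.alt (nat_lit 27) (.exp (.alt (nat_lit 24) (.cov (nat_lit 102111951828815357935617)) (.alt (nat_lit 10) (.cov (nat_lit 20644364303)) .e))) .e)) (.alt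 (nat_lit 26) (.exp (.alt (nat_lit 24) (.cov (nat_lit 1567973255062135767042)) (.alt (nat_lit 27) (.cov (nat_lit 3482320963)) .e))) .e)))) .e)))) .e)) (.alt (nat_lit 22) (.exp (.alt (nat_lit 30) (.cov (nat_lit 1399646966261328379906)) (.alt (nat_lit 20) (.cov (nat_lit 11639195816)) .e))) .e))))) .e))))) .e)) (.alt (nat_lit 2) (.cov (nat_lit 790632875)) .e)))))) .e)) .e)) .e)) .e)) (.alt (nat_lit 1) (.exp (.alt (nat_lit 9) (.exp (.alt (nat_lit 11) (.exp (.alt (nat_lit 10) (.exp (.alt (nat_lit 27) (.exp (.alt (nat_lit 4) (.cov (nat_lit 1798558849008503095330)) (.alt (nat_lit 2) (.cov (nat_lit 43105432510577478991879)) (.alt (nat_lit 2) (.cov (nat_lit 1591038741830650822659)) (.alt (nat_lit 2) (.exp (.alt (nat_lit 6) (.exp (.alt (nat_lit 18) (.cov (nat_lit 347868699887161821888523)) (.alt (nat_lit 18) (.exp (.alt (nat_lit 16) (.exp (.alt (nat_lit 17) (.exp (.alt (nat_lit 20) (.exp (.alt (nat_lit 22) (.cov (nat_lit 406856775621323128832003)) (.alt (nat_lit 22) (.exp (.alt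 (nat_lit 23) (.exp (.alt (nat_lit 30) (.cov (nat_lit 102111951828815376809985)) (.alt (nat_lit 30) (.exp (.alt (nat_lit 28) (.cov (nat_lit 1395035031569413701632)) (.alt (nat_lit 26) (.cov (nat_lit 159240945672)) .e))) .e))) .e)) (.alt (nat_lit 22) (.cov (nat_lit 4057989712)) .e)))) .e)) .e)) .e)) (.alt (nat_lit 18) (.cov (nat_lit 627194182536828813313)) (.alt (nat_lit 18) (.exp (.alt (nat_lit 16) (.exp (.alt (nat_lit 17) (.exp (.alt (nat_lit 21) (.exp (.alt (nat_lit 23) (.exp (.alt (nat_lit 20) (.exp (.alt (nat_lit 24) (.cov (nat_lit 404343406732473239863297)) (.alt (nat_lit 24) (.exp (.alt (nat_lit 28) (.cov (nat_lit 69175301271539679232)) (.alt (nat_lit 25) (.cov (nat_lit 4627365896)) .e))) .e))) .e)) .e)) .e)) .e)) (.alt (nat_lit 26) (.cov (nat_lit 29141244370465895481347)) (.alt (nat_lit 26) (.exp (.alt (nat_lit 24) (.exp (.alt (nat_lit 30) (.cov (nat_lit 1694794644923571240962)) (.alt (nat_lit 30) (.cov (nat_lit 25306627171255874224129)) (.alt (nat_lit 30) (.exp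 (.alt (nat_lit 31) (.cov (nat_lit 7814501975817486073859)) (.alt (nat_lit 28) (.exp (.alt (nat_lit 12) (.exp (.alt (nat_lit 29) (.cov (nat_lit 48422711999371149313)) (.alt (nat_lit 29) (.exp (.alt (nat_lit 21) (.cov (nat_lit 119903847474246189056)) (.alt (nat_lit 25) (.cov (nat_lit 621805576)) .e))) .e))) .e)) (.alt (nat_lit 31) (.cov (nat_lit 47577039440)) .e)))) .e)))) .e)) (.alt (nat_lit 19) (.cov (nat_lit 159233608851)) .e))))) .e))))) .e)) (.alt (nat_lit 2) (.cov (nat_lit 46479186011)) .e)))))) .e)) .e)) .e)) .e)) .e))) (.alt (nat_lit 0) (.cov (nat_lit 110696719622170738694)) (.alt (nat_lit 0) (.exp (.alt (nat_lit 1) (.exp (.alt (nat_lit 9) (.exp (.alt (nat_lit 17) (.exp (.alt (nat_lit 16) (.exp (.alt (nat_lit 18) (.exp (.alt (nat_lit 2) (.exp (.alt (nat_lit 6) (.exp (.alt (nat_lit 10) (.exp (.alt (nat_lit 22) (.exp (.alt (nat_lit 20) (.exp (.alt (nat_lit 23) (.exp (.alt (nat_lit 24) (.cov (nat_lit 404343406741269433548802)) (.alt (nat_lit 24) (.cov (nat_lit 428886832699708276737))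 (.alt (nat_lit 24) (.cov (nat_lit 3159005069957327224832)) (.alt (nat_lit 24) (.exp (.alt (nat_lit 26) (.cov (nat_lit 404348018418491770011651)) (.alt (nat_lit 26) (.cov (nat_lit 29067456991740073869313)) (.alt (nat_lit 26) (.cov (nat_lit 29067457007133203103744)) (.alt (nat_lit 26) (.exp (.alt (nat_lit 30) (.cov (nat_lit 1621007644273368104961)) (.alt (nat_lit 27) (.cov (nat_lit 4629463055)) .e))) .e))))) .e))))) .e)) .e)) .e)) .e)) .e)) .e)) (.alt (nat_lit 18) (.exp (.alt (nat_lit 2) (.exp (.alt (nat_lit 6) (.exp (.alt (nat_lit 10) (.exp (.alt (nat_lit 26) (.exp (.alt (nat_lit 24) (.exp (.alt (nat_lit 27) (.exp (.alt (nat_lit 20) (.cov (nat_lit 102111951837614317764610)) (.alt (nat_lit 20) (.cov (nat_lit 25283568629023271550977)) (.alt (nat_lit 20) (.cov (nat_lit 344338454242243121250304)) (.alt (nat_lit 20) (.exp (.alt (nat_lit 21) (.cov (nat_lit 102114257671827439484931)) (.alt (nat_lit 21) (.cov (nat_lit 10175685217252241571841)) (.alt (nat_lit 21) (.cov (nat_lit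 10175685232645404360704)) (.alt (nat_lit 21) (.exp (.alt (nat_lit 29) (.cov (nat_lit 6417161103437816922113)) (.alt (nat_lit 23) (.cov (nat_lit 4629463055)) .e))) .e))))) .e))))) .e)) .e)) .e)) .e)) .e)) .e)) .e))) (.alt (nat_lit 2) (.exp (.alt (nat_lit 6) (.cov (nat_lit 578059404131229314839770017300481)) (.alt (nat_lit 6) (.cov (nat_lit 21882453453958815940619)) .e))) (.alt (nat_lit 2) (.cov (nat_lit 1720167320327246839823)) (.alt (nat_lit 2) (.exp (.alt (nat_lit 6) (.exp (.alt (nat_lit 4) (.exp (.alt (nat_lit 12) (.exp (.alt (nat_lit 20) (.exp (.alt (nat_lit 18) (.exp (.alt (nat_lit 19) (.cov (nat_lit 3539280548716675233158337737523200)) (.alt (nat_lit 16) (.cov (nat_lit 6396408540557347913735)) .e))) (.alt (nat_lit 18) (.cov (nat_lit 1978413537203746504710)) (.alt (nat_lit 18) (.exp (.alt (nat_lit 26) (.exp (.alt (nat_lit 10) (.exp (.alt (nat_lit 24) (.exp (.alt (nat_lit 19) (.cov (nat_lit 25288180293042330140675)) (.alt (nat_lit 19) (.cov (nat_lit 209831731430656311297))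 (.alt (nat_lit 19) (.cov (nat_lit 209831746823819100160)) (.alt (nat_lit 19) (.exp (.alt (nat_lit 23) (.cov (nat_lit 71481144290527150081)) (.alt (nat_lit 23) (.exp (.alt (nat_lit 31) (.cov (nat_lit 214443410852021272576)) (.alt (nat_lit 21) (.cov (nat_lit 63963144)) .e))) .e))) .e))))) .e)) .e)) .e)) (.alt (nat_lit 10) (.exp (.alt (nat_lit 8) (.exp (.alt (nat_lit 24) (.exp (.alt (nat_lit 26) (.cov (nat_lit 69175307868783509507)) (.alt (nat_lit 26) (.exp (.alt (nat_lit 18) (.exp (.alt (nat_lit 27) (.cov (nat_lit 71481142082341437441)) (.alt (nat_lit 27) (.exp (.alt (nat_lit 31) (.cov (nat_lit 66869458262337519616)) (.alt (nat_lit 19) (.cov (nat_lit 9788456968)) .e))) .e))) .e)) (.alt (nat_lit 14) (.cov (nat_lit 2984247487)) .e)))) .e)) .e)) (.alt (nat_lit 10) (.cov (nat_lit 428891672749289766912)) (.alt (nat_lit 10) (.exp (.alt (nat_lit 26) (.cov (nat_lit 21882450190423329603591)) (.alt (nat_lit 26) (.cov (nat_lit 424275256632017944579)) (.alt (nat_lit 26) (.cov (nat_lit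 209832498889767256065)) (.alt (nat_lit 26) (.exp (.alt (nat_lit 18) (.exp (.alt (nat_lit 27) (.cov (nat_lit 6417161112234090299394)) (.alt (nat_lit 24) (.cov (nat_lit 654859447602097684481)) (.alt (nat_lit 24) (.cov (nat_lit 25440366065790228627456)) (.alt (nat_lit 24) (.exp (.alt (nat_lit 25) (.cov (nat_lit 2866162869248745013251)) (.alt (nat_lit 25) (.cov (nat_lit 2866162878044838035457)) (.alt (nat_lit 25) (.cov (nat_lit 1837756911328691224576)) (.alt (nat_lit 25) (.exp (.alt (nat_lit 27) (.cov (nat_lit 71481142082341437441)) (.alt (nat_lit 27) (.exp (.alt (nat_lit 31) (.cov (nat_lit 6398714361563147403264)) (.alt (nat_lit 19) (.cov (nat_lit 9788456968)) .e))) .e))) .e))))) .e))))) .e)) (.alt (nat_lit 8) (.cov (nat_lit 58721755)) .e)))))) .e))))))) .e)) .e)) .e)) .e)) (.alt (nat_lit 2) (.exp (.alt (nat_lit 6) (.exp (.alt (nat_lit 4) (.exp (.alt (nat_lit 12) (.exp (.alt (nat_lit 18) (.cov (nat_lit 365591409258167026057227)) (.alt (nat_lit 18) (.cov (nat_lit 2840800434577238654978))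 (.alt (nat_lit 10) (.cov (nat_lit 21900900198003897270273)) (.alt (nat_lit 10) (.cov (nat_lit 631246852)) .e))))) .e)) .e)) .e)) (.alt (nat_lit 2) (.cov (nat_lit 10122664521358125301761)) (.alt (nat_lit 2) (.exp (.alt (nat_lit 6) (.exp (.alt (nat_lit 10) (.cov (nat_lit 6553206252219404386325)) (.alt (nat_lit 10) (.exp (.alt (nat_lit 14) (.exp (.alt (nat_lit 12) (.exp (.alt (nat_lit 30) (.exp (.alt (nat_lit 22) (.exp (.alt (nat_lit 23) (.exp (.alt (nat_lit 26) (.cov (nat_lit 21896285233095216463875)) (.alt (nat_lit 26) (.exp (.alt (nat_lit 18) (.exp (.alt (nat_lit 24) (.cov (nat_lit 1607172586227831406593)) (.alt (nat_lit 27) (.cov (nat_lit 2979004431)) .e))) .e)) (.alt (nat_lit 26) (.exp (.alt (nat_lit 24) (.cov (nat_lit 1607172586218759127042)) (.alt (nat_lit 18) (.cov (nat_lit 654311491)) .e))) .e)))) .e)) .e)) .e)) .e)) (.alt (nat_lit 11) (.cov (nat_lit 2688614795922998558727)) .e))) (.alt (nat_lit 10) (.cov (nat_lit 102301035830808309399558)) (.alt (nat_lit 10) (.exp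 (.alt (nat_lit 8) (.exp (.alt (nat_lit 12) (.exp (.alt (nat_lit 24) (.exp (.alt (nat_lit 26) (.cov (nat_lit 1840062754338542452743)) (.alt (nat_lit 26) (.cov (nat_lit 659471241382397476867)) (.alt (nat_lit 26) (.cov (nat_lit 21541185812097563361281)) (.alt (nat_lit 26) (.exp (.alt (nat_lit 18) (.exp (.alt (nat_lit 30) (.cov (nat_lit 21764852181563158298626)) (.alt (nat_lit 27) (.cov (nat_lit 661776976630302900225)) (.alt (nat_lit 27) (.cov (nat_lit 661777084381830053888)) (.alt (nat_lit 27) (.cov (nat_lit 4663017663)) .e))))) .e)) (.alt (nat_lit 11) (.cov (nat_lit 9960424923)) .e)))))) .e)) .e)) .e)) (.alt (nat_lit 10) (.cov (nat_lit 1388126507542603890689)) (.alt (nat_lit 10) (.cov (nat_lit 350252953569742252146688)) (.alt (nat_lit 10) (.exp (.alt (nat_lit 14) (.exp (.alt (nat_lit 12) (.cov (nat_lit 14430934742489583571553706502520833)) (.alt (nat_lit 12) (.exp (.alt (nat_lit 28) (.cov (nat_lit 14430934742504712207539200224919552)) (.alt (nat_lit 8) (.cov (nat_lit 6562429344969618620423))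 .e))) .e))) (.alt (nat_lit 14) (.cov (nat_lit 21910120693581503004687)) (.alt (nat_lit 14) (.exp (.alt (nat_lit 12) (.exp (.alt (nat_lit 28) (.exp (.alt (nat_lit 24) (.exp (.alt (nat_lit 20) (.exp (.alt (nat_lit 30) (.cov (nat_lit 1694794629367164043266)) (.alt (nat_lit 30) (.cov (nat_lit 1461904500826896859137)) (.alt (nat_lit 30) (.cov (nat_lit 493450650262362390528)) (.alt (nat_lit 30) (.exp (.alt (nat_lit 26) (.cov (nat_lit 1611784272236651741187)) (.alt (nat_lit 26) (.cov (nat_lit 3013736830634502914049)) (.alt (nat_lit 26) (.cov (nat_lit 3013736846027665702912)) (.alt (nat_lit 26) (.exp (.alt (nat_lit 27) (.cov (nat_lit 25306627034916404068353)) (.alt (nat_lit 18) (.cov (nat_lit 9884925967)) .e))) .e))))) .e))))) .e)) .e)) .e)) .e)) (.alt (nat_lit 14) (.exp (.alt (nat_lit 12) (.exp (.alt (nat_lit 8) (.exp (.alt (nat_lit 24) (.exp (.alt (nat_lit 30) (.cov (nat_lit 641024389549668696066)) (.alt (nat_lit 30) (.cov (nat_lit 6396408654903136747521)) (.alt (nat_lit 30)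 (.exp (.alt (nat_lit 26) (.cov (nat_lit 3013736830634570022915)) (.alt (nat_lit 22) (.exp (.alt (nat_lit 18) (.exp (.alt (nat_lit 23) (.cov (nat_lit 6394102673355450613761)) (.alt (nat_lit 20) (.cov (nat_lit 760217615)) .e))) .e)) (.alt (nat_lit 22) (.exp (.alt (nat_lit 23) (.cov (nat_lit 6394102673348571955202)) (.alt (nat_lit 18) (.cov (nat_lit 1362100291)) .e))) .e)))) .e)))) .e)) .e)) .e)) (.alt (nat_lit 8) (.cov (nat_lit 1604873799884228001793)) (.alt (nat_lit 8) (.exp (.alt (nat_lit 12) (.exp (.alt (nat_lit 24) (.cov (nat_lit 25440365953649926471691)) (.alt (nat_lit 24) (.cov (nat_lit 654859555357090381830)) (.alt (nat_lit 24) (.cov (nat_lit 654859834633043836930)) (.alt (nat_lit 24) (.cov (nat_lit 3009126974213196873729)) (.alt (nat_lit 24) (.cov (nat_lit 1835454333869010976768)) (.alt (nat_lit 24) (.exp (.alt (nat_lit 16) (.cov (nat_lit 636412703528984772615)) (.alt (nat_lit 16) (.cov (nat_lit 636412811290251100163)) (.alt (nat_lit 26) (.cov (nat_lit 21541185812097563361281))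 (.alt (nat_lit 26) (.exp (.alt (nat_lit 18) (.exp (.alt (nat_lit 30) (.cov (nat_lit 21764852181563158298626)) (.alt (nat_lit 27) (.cov (nat_lit 661776976630302900225)) (.alt (nat_lit 27) (.cov (nat_lit 661777084381830053888)) (.alt (nat_lit 27) (.cov (nat_lit 4663017663)) .e))))) .e)) (.alt (nat_lit 16) (.cov (nat_lit 9950987739)) .e)))))) .e))))))) .e)) (.alt (nat_lit 11) (.exp (.alt (nat_lit 27) (.cov (nat_lit 25590245861389298040843)) (.alt (nat_lit 27) (.exp (.alt (nat_lit 26) (.exp (.alt (nat_lit 18) (.exp (.alt (nat_lit 30) (.exp (.alt (nat_lit 31) (.cov (nat_lit 104623014874645145845763)) (.alt (nat_lit 31) (.exp (.alt (nat_lit 23) (.exp (.alt (nat_lit 29) (.cov (nat_lit 365383883248798062870529)) (.alt (nat_lit 29) (.exp (.alt (nat_lit 28) (.cov (nat_lit 2850021970383254585344)) (.alt (nat_lit 25) (.cov (nat_lit 158167203848)) .e))) .e))) .e)) (.alt (nat_lit 31) (.cov (nat_lit 156494725712)) .e)))) .e)) .e)) .e)) (.alt (nat_lit 27) (.cov (nat_lit 6405636763626312302593))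 (.alt (nat_lit 27) (.exp (.alt (nat_lit 26) (.exp (.alt (nat_lit 18) (.exp (.alt (nat_lit 22) (.exp (.alt (nat_lit 23) (.exp (.alt (nat_lit 30) (.exp (.alt (nat_lit 24) (.cov (nat_lit 102111951828815936749569)) (.alt (nat_lit 24) (.exp (.alt (nat_lit 28) (.cov (nat_lit 21538879560060244066304)) (.alt (nat_lit 16) (.cov (nat_lit 10523508744)) .e))) .e))) .e)) .e)) .e)) .e)) (.alt (nat_lit 25) (.cov (nat_lit 10249472595979812208643)) (.alt (nat_lit 25) (.exp (.alt (nat_lit 24) (.exp (.alt (nat_lit 29) (.cov (nat_lit 48422736362710499330)) (.alt (nat_lit 29) (.cov (nat_lit 48422848329036070913)) (.alt (nat_lit 29) (.exp (.alt (nat_lit 21) (.cov (nat_lit 4251974526582865788931)) (.alt (nat_lit 28) (.exp (.alt (nat_lit 12) (.exp (.alt (nat_lit 20) (.cov (nat_lit 6396408516354930376705)) (.alt (nat_lit 20) (.exp (.alt (nat_lit 22) (.cov (nat_lit 511897159040575209472)) (.alt (nat_lit 16) (.cov (nat_lit 9950986248)) .e))) .e))) .e)) (.alt (nat_lit 21) (.cov (nat_lit 28777120336))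 .e)))) .e)))) .e)) (.alt (nat_lit 19) (.cov (nat_lit 21795703955)) .e))))) .e))))) .e)))))))) .e)))))))) .e)) (.alt (nat_lit 2) (.exp (.alt (nat_lit 6) (.cov (nat_lit 22956974846911698698259)) (.alt (nat_lit 6) (.cov (nat_lit 25465735077789662445579)) (.alt (nat_lit 6) (.cov (nat_lit 21522747663996686434306)) (.alt (nat_lit 6) (.cov (nat_lit 23219851258983073447937)) (.alt (nat_lit 6) (.exp (.alt (nat_lit 14) (.cov (nat_lit 21721042448624727883810)) (.alt (nat_lit 4) (.cov (nat_lit 3864596179778065661959)) (.alt (nat_lit 4) (.cov (nat_lit 25281269818480740270083)) (.alt (nat_lit 4) (.exp (.alt (nat_lit 12) (.exp (.alt (nat_lit 20) (.cov (nat_lit 63286167466174729682955)) (.alt (nat_lit 20) (.exp (.alt (nat_lit 22) (.exp (.alt (nat_lit 18) (.exp (.alt (nat_lit 23) (.exp (.alt (nat_lit 28) (.cov (nat_lit 350188377826876520923139)) (.alt (nat_lit 28) (.exp (.alt (nat_lit 30) (.exp (.alt (nat_lit 24) (.cov (nat_lit 1607172586374428622849)) (.alt (nat_lit 29) (.cov (nat_lit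 4623171599)) .e))) .e)) (.alt (nat_lit 16) (.cov (nat_lit 897581247)) .e)))) .e)) .e)) .e)) (.alt (nat_lit 20) (.cov (nat_lit 3016047566471068385281)) (.alt (nat_lit 20) (.exp (.alt (nat_lit 22) (.exp (.alt (nat_lit 18) (.exp (.alt (nat_lit 26) (.exp (.alt (nat_lit 10) (.exp (.alt (nat_lit 27) (.exp (.alt (nat_lit 30) (.cov (nat_lit 25306627034917017485313)) (.alt (nat_lit 23) (.cov (nat_lit 66060303)) .e))) .e)) .e)) .e)) .e)) (.alt (nat_lit 16) (.cov (nat_lit 1973802035900986687491)) (.alt (nat_lit 16) (.exp (.alt (nat_lit 18) (.exp (.alt (nat_lit 24) (.cov (nat_lit 25440365953660697444354)) (.alt (nat_lit 24) (.cov (nat_lit 104689884447257274613761)) (.alt (nat_lit 24) (.exp (.alt (nat_lit 28) (.cov (nat_lit 45448165729205599862787)) (.alt (nat_lit 26) (.exp (.alt (nat_lit 10) (.exp (.alt (nat_lit 30) (.cov (nat_lit 1621007644273342939137)) (.alt (nat_lit 30) (.exp (.alt (nat_lit 31) (.cov (nat_lit 214443410852013932544)) (.alt (nat_lit 22) (.cov (nat_lit 124780552))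 .e))) .e))) .e)) (.alt (nat_lit 28) (.cov (nat_lit 20734542416)) .e)))) .e)))) .e)) (.alt (nat_lit 16) (.cov (nat_lit 19044240530)) .e))))) .e))))) .e)) (.alt (nat_lit 4) (.cov (nat_lit 2998933595)) .e)))))) .e)))))) .e))))))))) .e)) .e)) .e)) (.alt (nat_lit 0) (.exp (.alt (nat_lit 1) (.exp (.alt (nat_lit 9) (.exp (.alt (nat_lit 2) (.cov (nat_lit 3859984493761011908646)) (.alt (nat_lit 2) (.cov (nat_lit 1720167320326642860066)) (.alt (nat_lit 2) (.cov (nat_lit 41516153890314125319)) (.alt (nat_lit 2) (.cov (nat_lit 41518887275583242243)) (.alt (nat_lit 2) (.exp (.alt (nat_lit 6) (.exp (.alt (nat_lit 10) (.cov (nat_lit 2688614795925614755858)) (.alt (nat_lit 10) (.cov (nat_lit 102301035830808309399563)) (.alt (nat_lit 10) (.cov (nat_lit 650256746976492126210)) (.alt (nat_lit 10) (.cov (nat_lit 59962897962719248385)) (.alt (nat_lit 10) (.exp (.alt (nat_lit 26) (.cov (nat_lit 29141244370456936448034)) (.alt (nat_lit 8) (.cov (nat_lit 1826230959790153007111)) (.alt (nat_lit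 8) (.cov (nat_lit 55347297848989319171)) (.alt (nat_lit 8) (.cov (nat_lit 55351211944256208896)) (.alt (nat_lit 11) (.cov (nat_lit 9792657503)) .e)))))) .e)))))) .e)) (.alt (nat_lit 2) (.cov (nat_lit 710942239)) .e))))))) .e)) .e)) (.alt (nat_lit 0) (.cov (nat_lit 25387349495263746064384)) (.alt (nat_lit 0) (.exp (.alt (nat_lit 1) (.exp (.alt (nat_lit 9) (.cov (nat_lit 3006874472485975716280398875983874)) (.alt (nat_lit 9) (.cov (nat_lit 3980430133457430503095173590810625)) (.alt (nat_lit 9) (.exp (.alt (nat_lit 11) (.cov (nat_lit 3006874472463549087163990397681667)) (.alt (nat_lit 11) (.exp (.alt (nat_lit 27) (.exp (.alt (nat_lit 10) (.cov (nat_lit 48114953431027273174637140420591617)) (.alt (nat_lit 10) (.exp (.alt (nat_lit 2) (.cov (nat_lit 48114953431007138553482885438898176)) (.alt (nat_lit 2) (.exp (.alt (nat_lit 6) (.exp (.alt (nat_lit 14) (.exp (.alt (nat_lit 12) (.exp (.alt (nat_lit 30) (.exp (.alt (nat_lit 17) (.cov (nat_lit 2840798620336807477250)) (.alt (nat_lit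 17) (.cov (nat_lit 1450375488090952171521)) (.alt (nat_lit 17) (.exp (.alt (nat_lit 19) (.cov (nat_lit 1823921837891712450563)) (.alt (nat_lit 16) (.exp (.alt (nat_lit 18) (.exp (.alt (nat_lit 20) (.cov (nat_lit 433498494528323059713)) (.alt (nat_lit 24) (.cov (nat_lit 2915041295)) .e))) .e)) (.alt (nat_lit 16) (.exp (.alt (nat_lit 20) (.cov (nat_lit 433498494528458326018)) (.alt (nat_lit 18) (.cov (nat_lit 11498684483)) .e))) .e)))) .e)))) .e)) .e)) .e)) .e)) .e))) .e))) .e)) (.alt (nat_lit 11) (.exp (.alt (nat_lit 10) (.cov (nat_lit 3006874472485841977366073273483266)) (.alt (nat_lit 10) (.cov (nat_lit 260563556414322114579)) .e))) .e)))) .e)))) (.alt (nat_lit 1) (.exp (.alt (nat_lit 9) (.cov (nat_lit 6738846156943688829581187234136066)) (.alt (nat_lit 9) (.cov (nat_lit 86208147190437525075998006050817)) (.alt (nat_lit 9) (.cov (nat_lit 86208147190437525097988235460608)) (.alt (nat_lit 9) (.cov (nat_lit 39201596335579988061)) .e))))) (.alt (nat_lit 1) (.exp (.alt (nat_lit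 9) (.exp (.alt (nat_lit 11) (.exp (.alt (nat_lit 10) (.exp (.alt (nat_lit 27) (.exp (.alt (nat_lit 8) (.exp (.alt (nat_lit 12) (.exp (.alt (nat_lit 24) (.exp (.alt (nat_lit 17) (.cov (nat_lit 104599956459949055279115)) (.alt (nat_lit 17) (.cov (nat_lit 104673743548394079518726)) (.alt (nat_lit 17) (.exp (.alt (nat_lit 16) (.exp (.alt (nat_lit 18) (.exp (.alt (nat_lit 20) (.exp (.alt (nat_lit 21) (.cov (nat_lit 7653092958575396913155)) (.alt (nat_lit 21) (.cov (nat_lit 7800666917762143092737)) (.alt (nat_lit 21) (.cov (nat_lit 7800666933155305881600)) (.alt (nat_lit 21) (.exp (.alt (nat_lit 23) (.cov (nat_lit 365370048190742820552705)) (.alt (nat_lit 29) (.cov (nat_lit 3555721231)) .e))) .e))))) .e)) .e)) .e)) (.alt (nat_lit 17) (.exp (.alt (nat_lit 16) (.exp (.alt (nat_lit 18) (.exp (.alt (nat_lit 21) (.cov (nat_lit 404324959997195023548419)) (.alt (nat_lit 21) (.exp (.alt (nat_lit 20) (.exp (.alt (nat_lit 23) (.cov (nat_lit 365370048190742820552705)) (.alt (nat_lit 29)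 (.cov (nat_lit 3555721231)) .e))) .e)) (.alt (nat_lit 19) (.cov (nat_lit 4654629055)) .e)))) .e)) .e)) (.alt (nat_lit 17) (.cov (nat_lit 25278961794040394153984)) (.alt (nat_lit 17) (.exp (.alt (nat_lit 16) (.cov (nat_lit 347799524484723951796231)) (.alt (nat_lit 16) (.cov (nat_lit 102314866147787194499075)) (.alt (nat_lit 16) (.cov (nat_lit 29118185940363987910657)) (.alt (nat_lit 16) (.exp (.alt (nat_lit 18) (.exp (.alt (nat_lit 20) (.cov (nat_lit 365370048199550345150466)) (.alt (nat_lit 20) (.cov (nat_lit 25283568629013540765697)) (.alt (nat_lit 20) (.cov (nat_lit 29120491510694303236096)) (.alt (nat_lit 20) (.exp (.alt (nat_lit 21) (.cov (nat_lit 7653092958575396913155)) (.alt (nat_lit 21) (.cov (nat_lit 7800666917762143092737)) (.alt (nat_lit 21) (.cov (nat_lit 7800666933155305881600)) (.alt (nat_lit 21) (.exp (.alt (nat_lit 23) (.cov (nat_lit 365370048190742820552705)) (.alt (nat_lit 29) (.cov (nat_lit 3555721231)) .e))) .e))))) .e))))) .e)) (.alt (nat_lit 16)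 (.exp (.alt (nat_lit 20) (.cov (nat_lit 2630966906518832676866)) (.alt (nat_lit 18) (.cov (nat_lit 641024497299501350913)) (.alt (nat_lit 18) (.exp (.alt (nat_lit 22) (.cov (nat_lit 2635578577307289255939)) (.alt (nat_lit 22) (.cov (nat_lit 102314866147766545940480)) (.alt (nat_lit 19) (.cov (nat_lit 4654629055)) .e)))) .e)))) .e)))))) .e))))))) .e)) .e)) .e)) .e)) .e)) .e)) (.alt (nat_lit 9) (.exp (.alt (nat_lit 11) (.exp (.alt (nat_lit 27) (.exp (.alt (nat_lit 10) (.exp (.alt (nat_lit 2) (.exp (.alt (nat_lit 6) (.exp (.alt (nat_lit 18) (.exp (.alt (nat_lit 17) (.cov (nat_lit 104613791518001720197131)) (.alt (nat_lit 17) (.cov (nat_lit 6698474086901337817094)) (.alt (nat_lit 17) (.exp (.alt (nat_lit 16) (.exp (.alt (nat_lit 24) (.exp (.alt (nat_lit 20) (.exp (.alt (nat_lit 21) (.cov (nat_lit 102114257671827439484931)) (.alt (nat_lit 21) (.cov (nat_lit 10175685217252241571841)) (.alt (nat_lit 21) (.cov (nat_lit 10175685232645404360704)) (.alt (nat_lit 21) (.exp (.alt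 (nat_lit 29) (.cov (nat_lit 404343406732482406514689)) (.alt (nat_lit 23) (.cov (nat_lit 4629463055)) .e))) .e))))) .e)) .e)) .e)) (.alt (nat_lit 17) (.exp (.alt (nat_lit 16) (.exp (.alt (nat_lit 20) (.exp (.alt (nat_lit 21) (.cov (nat_lit 104623014874648031526915)) (.alt (nat_lit 21) (.exp (.alt (nat_lit 23) (.exp (.alt (nat_lit 29) (.cov (nat_lit 404343406732472635883521)) (.alt (nat_lit 29) (.exp (.alt (nat_lit 28) (.cov (nat_lit 216749253861216092160)) (.alt (nat_lit 25) (.cov (nat_lit 21801992200)) .e))) .e))) .e)) (.alt (nat_lit 21) (.cov (nat_lit 12646875728)) .e)))) .e)) .e)) (.alt (nat_lit 17) (.cov (nat_lit 25292796852095676317696)) (.alt (nat_lit 17) (.exp (.alt (nat_lit 16) (.cov (nat_lit 350174542784214593437703)) (.alt (nat_lit 16) (.cov (nat_lit 636412811446017064963)) (.alt (nat_lit 16) (.cov (nat_lit 344336148671912845770753)) (.alt (nat_lit 16) (.exp (.alt (nat_lit 24) (.exp (.alt (nat_lit 20) (.cov (nat_lit 404343406741280200327170)) (.alt (nat_lit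 20) (.cov (nat_lit 6396408540553904390145)) (.alt (nat_lit 20) (.cov (nat_lit 42109305181595041267712)) (.alt (nat_lit 20) (.exp (.alt (nat_lit 22) (.cov (nat_lit 404348018418502536790019)) (.alt (nat_lit 22) (.cov (nat_lit 29067456991740069675009)) (.alt (nat_lit 22) (.cov (nat_lit 29067457007133198909440)) (.alt (nat_lit 22) (.exp (.alt (nat_lit 30) (.cov (nat_lit 102111951828825112838145)) (.alt (nat_lit 23) (.cov (nat_lit 4629463055)) .e))) .e))))) .e))))) .e)) (.alt (nat_lit 16) (.exp (.alt (nat_lit 20) (.cov (nat_lit 6396408540564801191938)) (.alt (nat_lit 24) (.cov (nat_lit 654859555354789806081)) (.alt (nat_lit 24) (.exp (.alt (nat_lit 28) (.cov (nat_lit 636412688319022891011)) (.alt (nat_lit 28) (.cov (nat_lit 10228719731808470564864)) (.alt (nat_lit 26) (.cov (nat_lit 13251903679)) .e)))) .e)))) .e)))))) .e))))))) .e)) .e)) .e)) .e)) .e)) .e)) .e))) (.alt (nat_lit 1) (.exp (.alt (nat_lit 9) (.exp (.alt (nat_lit 11) (.exp (.alt (nat_lit 10) (.exp (.alt (nat_lit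 8) (.exp (.alt (nat_lit 12) (.exp (.alt (nat_lit 24) (.exp (.alt (nat_lit 17) (.cov (nat_lit 25567187431297704263691)) (.alt (nat_lit 17) (.exp (.alt (nat_lit 19) (.exp (.alt (nat_lit 23) (.exp (.alt (nat_lit 27) (.exp (.alt (nat_lit 16) (.cov (nat_lit 21518126979739920891907)) (.alt (nat_lit 21) (.exp (.alt (nat_lit 29) (.exp (.alt (nat_lit 20) (.cov (nat_lit 2854633654202683883521)) (.alt (nat_lit 20) (.exp (.alt (nat_lit 22) (.cov (nat_lit 3952214928787394002944)) (.alt (nat_lit 4) (.cov (nat_lit 174757773320)) .e))) .e))) .e)) (.alt (nat_lit 16) (.cov (nat_lit 19046335056)) .e)))) .e)) .e)) .e)) (.alt (nat_lit 17) (.cov (nat_lit 48423206769833017345)) (.alt (nat_lit 17) (.exp (.alt (nat_lit 19) (.exp (.alt (nat_lit 23) (.exp (.alt (nat_lit 21) (.exp (.alt (nat_lit 20) (.exp (.alt (nat_lit 29) (.exp (.alt (nat_lit 18) (.cov (nat_lit 365370048190742781755393)) (.alt (nat_lit 27) (.cov (nat_lit 158169301007)) .e))) .e)) .e)) .e)) .e)) (.alt (nat_lit 16) (.cov (nat_lit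 29118185940366873591811)) (.alt (nat_lit 16) (.exp (.alt (nat_lit 18) (.exp (.alt (nat_lit 20) (.cov (nat_lit 64563637289761112066)) (.alt (nat_lit 20) (.cov (nat_lit 7872148176392092123137)) (.alt (nat_lit 20) (.exp (.alt (nat_lit 21) (.cov (nat_lit 102247996583951845031939)) (.alt (nat_lit 22) (.exp (.alt (nat_lit 6) (.exp (.alt (nat_lit 23) (.cov (nat_lit 71481142091501797377)) (.alt (nat_lit 23) (.exp (.alt (nat_lit 31) (.cov (nat_lit 214443410852021272576)) (.alt (nat_lit 19) (.cov (nat_lit 632291336)) .e))) .e))) .e)) (.alt (nat_lit 21) (.cov (nat_lit 47570747984)) .e)))) .e)))) .e)) (.alt (nat_lit 16) (.cov (nat_lit 1327500434)) .e))))) .e))))) .e)) .e)) .e)) .e)) .e)) (.alt (nat_lit 9) (.cov (nat_lit 39210310891298881547)) .e))) (.alt (nat_lit 1) (.cov (nat_lit 1662526531548197421071)) (.alt (nat_lit 1) (.exp (.alt (nat_lit 9) (.exp (.alt (nat_lit 11) (.exp (.alt (nat_lit 10) (.exp (.alt (nat_lit 27) (.exp (.alt (nat_lit 17) (.exp (.alt (nat_lit 19) (.exp (.alt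 (nat_lit 23) (.exp (.alt (nat_lit 18) (.exp (.alt (nat_lit 26) (.exp (.alt (nat_lit 24) (.exp (.alt (nat_lit 30) (.exp (.alt (nat_lit 21) (.cov (nat_lit 102114257671843475357699)) (.alt (nat_lit 21) (.cov (nat_lit 43137711034118366560257)) (.alt (nat_lit 21) (.cov (nat_lit 43137711049355165696000)) (.alt (nat_lit 21) (.exp (.alt (nat_lit 20) (.cov (nat_lit 102111951828815353741313)) (.alt (nat_lit 29) (.cov (nat_lit 28718399503)) .e))) .e))))) .e)) .e)) .e)) .e)) .e)) .e)) (.alt (nat_lit 17) (.exp (.alt (nat_lit 19) (.cov (nat_lit 764971364673342443795037200186343424)) (.alt (nat_lit 19) (.exp (.alt (nat_lit 23) (.exp (.alt (nat_lit 31) (.exp (.alt (nat_lit 29) (.exp (.alt (nat_lit 30) (.exp (.alt (nat_lit 16) (.cov (nat_lit 43137711033973473280003)) (.alt (nat_lit 16) (.exp (.alt (nat_lit 18) (.exp (.alt (nat_lit 20) (.cov (nat_lit 45443554034379611176961)) (.alt (nat_lit 24) (.cov (nat_lit 28718399503)) .e))) .e)) (.alt (nat_lit 16) (.exp (.alt (nat_lit 20) (.cov (nat_lit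 45443554034400232472578)) (.alt (nat_lit 18) (.cov (nat_lit 183934910531)) .e))) .e)))) .e)) .e)) .e)) .e)) .e))) (.alt (nat_lit 17) (.cov (nat_lit 36899871912117665798)) (.alt (nat_lit 17) (.exp (.alt (nat_lit 19) (.exp (.alt (nat_lit 23) (.exp (.alt (nat_lit 18) (.exp (.alt (nat_lit 16) (.cov (nat_lit 350174542784225901281287)) (.alt (nat_lit 16) (.cov (nat_lit 26683215443358547705859)) (.alt (nat_lit 16) (.cov (nat_lit 4251974929003552178177)) (.alt (nat_lit 16) (.exp (.alt (nat_lit 24) (.exp (.alt (nat_lit 20) (.cov (nat_lit 64563621861649285122)) (.alt (nat_lit 20) (.cov (nat_lit 63138593311284502986753)) (.alt (nat_lit 20) (.cov (nat_lit 4256586342343059177472)) (.alt (nat_lit 20) (.exp (.alt (nat_lit 22) (.cov (nat_lit 69175299083985747971)) (.alt (nat_lit 22) (.cov (nat_lit 29067456991740051849217)) (.alt (nat_lit 22) (.cov (nat_lit 29067457007133181083648)) (.alt (nat_lit 22) (.exp (.alt (nat_lit 30) (.cov (nat_lit 102111951828825095012353)) (.alt (nat_lit 6)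 (.cov (nat_lit 183859413007)) .e))) .e))))) .e))))) .e)) (.alt (nat_lit 16) (.exp (.alt (nat_lit 20) (.cov (nat_lit 345226203686441377071106)) (.alt (nat_lit 24) (.cov (nat_lit 26701662187432694513665)) (.alt (nat_lit 24) (.exp (.alt (nat_lit 28) (.cov (nat_lit 43137711033962036461571)) (.alt (nat_lit 28) (.cov (nat_lit 405579338719551598624768)) (.alt (nat_lit 26) (.cov (nat_lit 12144607423)) .e)))) .e)))) .e)))))) .e)) .e)) .e)) (.alt (nat_lit 17) (.exp (.alt (nat_lit 19) (.exp (.alt (nat_lit 23) (.exp (.alt (nat_lit 21) (.exp (.alt (nat_lit 29) (.exp (.alt (nat_lit 28) (.exp (.alt (nat_lit 12) (.exp (.alt (nat_lit 24) (.exp (.alt (nat_lit 20) (.cov (nat_lit 2854633654202683883521)) (.alt (nat_lit 20) (.exp (.alt (nat_lit 22) (.cov (nat_lit 2873080400475385233408)) (.alt (nat_lit 4) (.cov (nat_lit 174757773320)) .e))) .e))) .e)) .e)) .e)) .e)) (.alt (nat_lit 21) (.cov (nat_lit 404472534352206559707139)) (.alt (nat_lit 21) (.exp (.alt (nat_lit 29) (.exp (.alt (nat_lit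 20) (.cov (nat_lit 1660206999630688288770)) (.alt (nat_lit 20) (.cov (nat_lit 63346119296453196120065)) (.alt (nat_lit 20) (.exp (.alt (nat_lit 4) (.cov (nat_lit 3864592901199867412483)) (.alt (nat_lit 22) (.exp (.alt (nat_lit 6) (.exp (.alt (nat_lit 30) (.cov (nat_lit 45443554034389365030913)) (.alt (nat_lit 18) (.cov (nat_lit 185012846607)) .e))) .e)) (.alt (nat_lit 22) (.exp (.alt (nat_lit 30) (.cov (nat_lit 25295097819881805971458)) (.alt (nat_lit 6) (.cov (nat_lit 2329935939)) .e))) .e)))) .e)))) .e)) (.alt (nat_lit 21) (.exp (.alt (nat_lit 20) (.cov (nat_lit 405542445347953679794178)) (.alt (nat_lit 29) (.cov (nat_lit 12176066728)) .e))) .e))))) .e)) .e)) (.alt (nat_lit 17) (.exp (.alt (nat_lit 19) (.exp (.alt (nat_lit 16) (.cov (nat_lit 46116945946809991175)) (.alt (nat_lit 25) (.cov (nat_lit 21612673612811931222016)) .e))) .e)) (.alt (nat_lit 17) (.exp (.alt (nat_lit 16) (.exp (.alt (nat_lit 18) (.exp (.alt (nat_lit 2) (.exp (.alt (nat_lit 6) (.exp (.alt (nat_lit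 22) (.exp (.alt (nat_lit 23) (.exp (.alt (nat_lit 20) (.exp (.alt (nat_lit 24) (.cov (nat_lit 102111951828815947235329)) (.alt (nat_lit 24) (.exp (.alt (nat_lit 28) (.cov (nat_lit 140656434557164191744)) (.alt (nat_lit 26) (.cov (nat_lit 13218349064)) .e))) .e))) .e)) .e)) .e)) .e)) .e)) (.alt (nat_lit 18) (.exp (.alt (nat_lit 22) (.exp (.alt (nat_lit 6) (.exp (.alt (nat_lit 20) (.exp (.alt (nat_lit 21) (.exp (.alt (nat_lit 23) (.exp (.alt (nat_lit 24) (.cov (nat_lit 102111951828815947235329)) (.alt (nat_lit 24) (.exp (.alt (nat_lit 28) (.cov (nat_lit 343914178992208386981888)) (.alt (nat_lit 26) (.cov (nat_lit 13218349064)) .e))) .e))) .e)) .e)) .e)) .e)) (.alt (nat_lit 2) (.exp (.alt (nat_lit 6) (.exp (.alt (nat_lit 14) (.exp (.alt (nat_lit 12) (.exp (.alt (nat_lit 30) (.exp (.alt (nat_lit 20) (.cov (nat_lit 433498494528323059713)) (.alt (nat_lit 24) (.cov (nat_lit 2915041295)) .e))) .e)) .e)) .e)) .e)) .e))) .e))) (.alt (nat_lit 16) (.cov (nat_lit 24248246386713602031631))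 (.alt (nat_lit 16) (.exp (.alt (nat_lit 20) (.exp (.alt (nat_lit 22) (.exp (.alt (nat_lit 6) (.exp (.alt (nat_lit 23) (.exp (.alt (nat_lit 24) (.cov (nat_lit 102111951837612711346178)) (.alt (nat_lit 24) (.exp (.alt (nat_lit 26) (.exp (.alt (nat_lit 18) (.exp (.alt (nat_lit 28) (.cov (nat_lit 140656434557164191744)) (.alt (nat_lit 8) (.cov (nat_lit 156376236040)) .e))) .e)) .e)) (.alt (nat_lit 18) (.cov (nat_lit 25590245861389112442880)) (.alt (nat_lit 18) (.exp (.alt (nat_lit 26) (.cov (nat_lit 45434330662342750109699)) (.alt (nat_lit 26) (.cov (nat_lit 29067456991740037169153)) (.alt (nat_lit 26) (.cov (nat_lit 29067457007133199958016)) (.alt (nat_lit 26) (.exp (.alt (nat_lit 24) (.cov (nat_lit 64563613054688821249)) (.alt (nat_lit 24) (.exp (.alt (nat_lit 28) (.cov (nat_lit 140656434557164191744)) (.alt (nat_lit 8) (.cov (nat_lit 156376236040)) .e))) .e))) .e))))) .e))))) .e)) .e)) .e)) .e)) (.alt (nat_lit 19) (.cov (nat_lit 10235640414246942015491)) (.alt (nat_lit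 19) (.cov (nat_lit 790911230816209076225)) (.alt (nat_lit 19) (.exp (.alt (nat_lit 23) (.exp (.alt (nat_lit 18) (.cov (nat_lit 1609478453600945438731)) (.alt (nat_lit 18) (.cov (nat_lit 25590245861572978147334)) (.alt (nat_lit 18) (.exp (.alt (nat_lit 16) (.exp (.alt (nat_lit 24) (.exp (.alt (nat_lit 20) (.exp (.alt (nat_lit 22) (.cov (nat_lit 69175299083985747971)) (.alt (nat_lit 22) (.cov (nat_lit 29067456991740051849217)) (.alt (nat_lit 22) (.cov (nat_lit 29067457007133181083648)) (.alt (nat_lit 22) (.exp (.alt (nat_lit 30) (.cov (nat_lit 102111951828825095012353)) (.alt (nat_lit 6) (.cov (nat_lit 183859413007)) .e))) .e))))) .e)) .e)) .e)) (.alt (nat_lit 18) (.exp (.alt (nat_lit 16) (.exp (.alt (nat_lit 20) (.exp (.alt (nat_lit 22) (.cov (nat_lit 142962284174916976643)) (.alt (nat_lit 22) (.exp (.alt (nat_lit 6) (.exp (.alt (nat_lit 30) (.cov (nat_lit 102111951828815376809985)) (.alt (nat_lit 30) (.exp (.alt (nat_lit 28) (.cov (nat_lit 45406660548431207989248)) (.alt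 (nat_lit 26) (.cov (nat_lit 159240945672)) .e))) .e))) .e)) (.alt (nat_lit 22) (.cov (nat_lit 11037311568)) .e)))) .e)) .e)) (.alt (nat_lit 18) (.cov (nat_lit 344128627265100780142592)) (.alt (nat_lit 18) (.exp (.alt (nat_lit 16) (.cov (nat_lit 1383505838533181964295)) (.alt (nat_lit 16) (.cov (nat_lit 26683215443358547705859)) (.alt (nat_lit 16) (.cov (nat_lit 4251974929159882276865)) (.alt (nat_lit 16) (.exp (.alt (nat_lit 24) (.exp (.alt (nat_lit 20) (.cov (nat_lit 102111951837777560076290)) (.alt (nat_lit 20) (.cov (nat_lit 26646321847468582502401)) (.alt (nat_lit 20) (.cov (nat_lit 63097088251458101444608)) (.alt (nat_lit 20) (.exp (.alt (nat_lit 4) (.cov (nat_lit 102075058340687431860227)) (.alt (nat_lit 4) (.cov (nat_lit 343874979667805162438657)) (.alt (nat_lit 4) (.cov (nat_lit 343874979683041961574400)) (.alt (nat_lit 4) (.exp (.alt (nat_lit 12) (.cov (nat_lit 64563613063855472641)) (.alt (nat_lit 6) (.cov (nat_lit 183859413007)) .e))) .e))))) .e))))) .e)) (.alt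 (nat_lit 16) (.exp (.alt (nat_lit 20) (.cov (nat_lit 26646321847458993274882)) (.alt (nat_lit 24) (.cov (nat_lit 26701662187432694513665)) (.alt (nat_lit 24) (.exp (.alt (nat_lit 28) (.cov (nat_lit 405579338594363636711427)) (.alt (nat_lit 28) (.cov (nat_lit 405579338719551598624768)) (.alt (nat_lit 8) (.cov (nat_lit 19608371391)) .e)))) .e)))) .e)))))) .e))))))) .e)) (.alt (nat_lit 19) (.exp (.alt (nat_lit 23) (.cov (nat_lit 5363391074726572982283)) (.alt (nat_lit 23) (.exp (.alt (nat_lit 21) (.exp (.alt (nat_lit 20) (.exp (.alt (nat_lit 29) (.exp (.alt (nat_lit 22) (.cov (nat_lit 262866120643727851523)) (.alt (nat_lit 22) (.exp (.alt (nat_lit 6) (.exp (.alt (nat_lit 30) (.cov (nat_lit 45443554034389365030913)) (.alt (nat_lit 18) (.cov (nat_lit 185012846607)) .e))) .e)) (.alt (nat_lit 22) (.exp (.alt (nat_lit 30) (.cov (nat_lit 25295097819881805971458)) (.alt (nat_lit 6) (.cov (nat_lit 2329935939)) .e))) .e)))) .e)) .e)) .e)) (.alt (nat_lit 23) (.cov (nat_lit 26761618837969732370433))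 (.alt (nat_lit 23) (.exp (.alt (nat_lit 21) (.exp (.alt (nat_lit 29) (.exp (.alt (nat_lit 28) (.exp (.alt (nat_lit 12) (.exp (.alt (nat_lit 24) (.exp (.alt (nat_lit 20) (.cov (nat_lit 2854633654202683883521)) (.alt (nat_lit 20) (.exp (.alt (nat_lit 22) (.cov (nat_lit 2873080400475385233408)) (.alt (nat_lit 4) (.cov (nat_lit 174757773320)) .e))) .e))) .e)) .e)) .e)) .e)) (.alt (nat_lit 21) (.cov (nat_lit 404472534352206559707139)) (.alt (nat_lit 21) (.exp (.alt (nat_lit 29) (.exp (.alt (nat_lit 20) (.cov (nat_lit 1660206999630688288770)) (.alt (nat_lit 20) (.cov (nat_lit 63346119296453196120065)) (.alt (nat_lit 20) (.exp (.alt (nat_lit 4) (.cov (nat_lit 3864592901199867412483)) (.alt (nat_lit 22) (.exp (.alt (nat_lit 6) (.exp (.alt (nat_lit 30) (.cov (nat_lit 45443554034389365030913)) (.alt (nat_lit 18) (.cov (nat_lit 185012846607)) .e))) .e)) (.alt (nat_lit 22) (.exp (.alt (nat_lit 30) (.cov (nat_lit 25295097819881805971458)) (.alt (nat_lit 6) (.cov (nat_lit 2329935939))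 .e))) .e)))) .e)))) .e)) (.alt (nat_lit 21) (.exp (.alt (nat_lit 20) (.cov (nat_lit 405542445347953679794178)) (.alt (nat_lit 29) (.cov (nat_lit 12176066728)) .e))) .e))))) .e))))) .e)))))))) .e)))))))) .e)) .e)) .e)) .e)) (.alt (nat_lit 1) (.exp (.alt (nat_lit 9) (.exp (.alt (nat_lit 11) (.exp (.alt (nat_lit 10) (.exp (.alt (nat_lit 17) (.cov (nat_lit 47998429926985034629140)) (.alt (nat_lit 17) (.cov (nat_lit 47998431376139682316299)) (.alt (nat_lit 17) (.exp (.alt (nat_lit 19) (.exp (.alt (nat_lit 23) (.exp (.alt (nat_lit 27) (.exp (.alt (nat_lit 21) (.exp (.alt (nat_lit 29) (.exp (.alt (nat_lit 28) (.exp (.alt (nat_lit 12) (.exp (.alt (nat_lit 24) (.exp (.alt (nat_lit 20) (.cov (nat_lit 2854633654202683883521)) (.alt (nat_lit 20) (.exp (.alt (nat_lit 22) (.cov (nat_lit 2873080400475385233408)) (.alt (nat_lit 4) (.cov (nat_lit 174757773320)) .e))) .e))) .e)) .e)) .e)) .e)) (.alt (nat_lit 21) (.cov (nat_lit 404472534352206559707139)) (.alt (nat_lit 21) (.exp (.alt (nat_lit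 29) (.exp (.alt (nat_lit 20) (.cov (nat_lit 1660206999630688288770)) (.alt (nat_lit 20) (.cov (nat_lit 63346119296453196120065)) (.alt (nat_lit 20) (.exp (.alt (nat_lit 4) (.cov (nat_lit 3864592901199867412483)) (.alt (nat_lit 22) (.exp (.alt (nat_lit 6) (.exp (.alt (nat_lit 30) (.cov (nat_lit 45443554034389365030913)) (.alt (nat_lit 18) (.cov (nat_lit 185012846607)) .e))) .e)) (.alt (nat_lit 22) (.exp (.alt (nat_lit 30) (.cov (nat_lit 25295097819881805971458)) (.alt (nat_lit 6) (.cov (nat_lit 2329935939)) .e))) .e)))) .e)))) .e)) (.alt (nat_lit 21) (.exp (.alt (nat_lit 20) (.cov (nat_lit 405542445347953679794178)) (.alt (nat_lit 29) (.cov (nat_lit 12176066728)) .e))) .e))))) .e)) .e)) .e)) (.alt (nat_lit 17) (.cov (nat_lit 47998441100209005002753)) (.alt (nat_lit 17) (.exp (.alt (nat_lit 21) (.cov (nat_lit 10228720934674209177634)) (.alt (nat_lit 19) (.cov (nat_lit 48003043062147911254023)) (.alt (nat_lit 19) (.cov (nat_lit 2697843428023916822531)) (.alt (nat_lit 19)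 (.exp (.alt (nat_lit 23) (.exp (.alt (nat_lit 27) (.cov (nat_lit 6490948218271872057355)) (.alt (nat_lit 27) (.cov (nat_lit 10254085709164334546946)) (.alt (nat_lit 27) (.cov (nat_lit 48021489806220316377089)) (.alt (nat_lit 27) (.exp (.alt (nat_lit 31) (.exp (.alt (nat_lit 29) (.exp (.alt (nat_lit 28) (.exp (.alt (nat_lit 12) (.exp (.alt (nat_lit 24) (.exp (.alt (nat_lit 30) (.cov (nat_lit 1600255057200175644673)) (.alt (nat_lit 30) (.exp (.alt (nat_lit 22) (.cov (nat_lit 193690823769072861184)) (.alt (nat_lit 14) (.cov (nat_lit 1751121928)) .e))) .e))) .e)) .e)) .e)) .e)) (.alt (nat_lit 31) (.cov (nat_lit 42053965222053426495491)) (.alt (nat_lit 31) (.exp (.alt (nat_lit 29) (.exp (.alt (nat_lit 30) (.cov (nat_lit 1683265429722835714050)) (.alt (nat_lit 30) (.cov (nat_lit 406921339355321763627009)) (.alt (nat_lit 30) (.exp (.alt (nat_lit 14) (.cov (nat_lit 384310242677385659940867)) (.alt (nat_lit 22) (.exp (.alt (nat_lit 6) (.exp (.alt (nat_lit 20) (.cov (nat_lit 45443554034379623759873))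 (.alt (nat_lit 18) (.cov (nat_lit 158158815247)) .e))) .e)) (.alt (nat_lit 22) (.exp (.alt (nat_lit 20) (.cov (nat_lit 25272039389789658546178)) (.alt (nat_lit 6) (.cov (nat_lit 37316722755)) .e))) .e)))) .e)))) .e)) (.alt (nat_lit 31) (.exp (.alt (nat_lit 30) (.cov (nat_lit 63120146793701130108930)) (.alt (nat_lit 29) (.cov (nat_lit 12176066728)) .e))) .e))))) .e))))) .e)) (.alt (nat_lit 19) (.cov (nat_lit 11566848427)) .e)))))) .e)))))) .e)) .e)) .e)) (.alt (nat_lit 1) (.cov (nat_lit 39213376318175444993)) (.alt (nat_lit 1) (.exp (.alt (nat_lit 9) (.exp (.alt (nat_lit 17) (.exp (.alt (nat_lit 16) (.cov (nat_lit 17295828851854890401941667148988419)) (.alt (nat_lit 16) (.exp (.alt (nat_lit 18) (.exp (.alt (nat_lit 20) (.cov (nat_lit 22356290052553609025174763458265089)) (.alt (nat_lit 20) (.cov (nat_lit 22843988539460343037963)) .e))) .e)) (.alt (nat_lit 16) (.exp (.alt (nat_lit 18) (.cov (nat_lit 14730104037047109122215738835206146)) (.alt (nat_lit 18) (.cov (nat_lit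 10231027279060956872724)) .e))) .e)))) (.alt (nat_lit 17) (.exp (.alt (nat_lit 16) (.cov (nat_lit 1749365077079591478984070395854851)) (.alt (nat_lit 16) (.cov (nat_lit 1749365077063215381941430832332801)) (.alt (nat_lit 16) (.cov (nat_lit 22498270101598883449029097938747392)) (.alt (nat_lit 16) (.cov (nat_lit 4323456759381259976738)) .e))))) (.alt (nat_lit 17) (.exp (.alt (nat_lit 16) (.exp (.alt (nat_lit 18) (.exp (.alt (nat_lit 20) (.exp (.alt (nat_lit 4) (.exp (.alt (nat_lit 6) (.exp (.alt (nat_lit 12) (.exp (.alt (nat_lit 19) (.cov (nat_lit 10171073546636741312519)) (.alt (nat_lit 19) (.exp (.alt (nat_lit 23) (.exp (.alt (nat_lit 21) (.exp (.alt (nat_lit 29) (.exp (.alt (nat_lit 27) (.cov (nat_lit 45438942348361172254721)) (.alt (nat_lit 27) (.exp (.alt (nat_lit 26) (.cov (nat_lit 1618701803463139917824)) (.alt (nat_lit 25) (.cov (nat_lit 185010749448)) .e))) .e))) .e)) .e)) .e)) (.alt (nat_lit 19) (.cov (nat_lit 800127944210617729025)) (.alt (nat_lit 19) (.exp (.alt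 (nat_lit 23) (.exp (.alt (nat_lit 27) (.cov (nat_lit 404338795055250307809282)) (.alt (nat_lit 27) (.cov (nat_lit 426580989689893748737)) (.alt (nat_lit 27) (.cov (nat_lit 795515985513294069760)) (.alt (nat_lit 27) (.exp (.alt (nat_lit 25) (.cov (nat_lit 404334183360435818856451)) (.alt (nat_lit 25) (.cov (nat_lit 406842940563256410898433)) (.alt (nat_lit 25) (.cov (nat_lit 406842940578649540132864)) (.alt (nat_lit 25) (.exp (.alt (nat_lit 24) (.cov (nat_lit 64563613054118395905)) (.alt (nat_lit 29) (.cov (nat_lit 185014943759)) .e))) .e))))) .e))))) .e)) (.alt (nat_lit 21) (.exp (.alt (nat_lit 29) (.cov (nat_lit 406852163950687672074242)) (.alt (nat_lit 23) (.cov (nat_lit 22060000216491755569153)) (.alt (nat_lit 23) (.exp (.alt (nat_lit 31) (.cov (nat_lit 45448165729194728226819)) (.alt (nat_lit 31) (.exp (.alt (nat_lit 29) (.exp (.alt (nat_lit 27) (.cov (nat_lit 45438942348361172254721)) (.alt (nat_lit 27) (.exp (.alt (nat_lit 26) (.cov (nat_lit 45402048862412775358464))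 (.alt (nat_lit 25) (.cov (nat_lit 185010749448)) .e))) .e))) .e)) (.alt (nat_lit 22) (.cov (nat_lit 10030678207)) .e)))) .e)))) .e)))))) .e)) .e)) .e)) .e)) .e)) .e)) (.alt (nat_lit 17) (.cov (nat_lit 406898289796091229503499)) (.alt (nat_lit 17) (.cov (nat_lit 36901140748370444294)) (.alt (nat_lit 17) (.exp (.alt (nat_lit 19) (.exp (.alt (nat_lit 23) (.exp (.alt (nat_lit 18) (.exp (.alt (nat_lit 16) (.exp (.alt (nat_lit 20) (.exp (.alt (nat_lit 21) (.exp (.alt (nat_lit 29) (.exp (.alt (nat_lit 4) (.exp (.alt (nat_lit 6) (.exp (.alt (nat_lit 12) (.exp (.alt (nat_lit 24) (.cov (nat_lit 45438942348361205809153)) (.alt (nat_lit 24) (.exp (.alt (nat_lit 26) (.cov (nat_lit 438110182745728614400)) (.alt (nat_lit 25) (.cov (nat_lit 47574941704)) .e))) .e))) .e)) .e)) .e)) .e)) .e)) (.alt (nat_lit 20) (.cov (nat_lit 55340372959359401995)) .e))) (.alt (nat_lit 16) (.cov (nat_lit 4251974929016705515535)) (.alt (nat_lit 16) (.exp (.alt (nat_lit 20) (.exp (.alt (nat_lit 4) (.exp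 (.alt (nat_lit 6) (.exp (.alt (nat_lit 12) (.exp (.alt (nat_lit 24) (.cov (nat_lit 102107340151593010987010)) (.alt (nat_lit 24) (.cov (nat_lit 1607172610407335460865)) (.alt (nat_lit 24) (.cov (nat_lit 1976107606230702227456)) (.alt (nat_lit 24) (.exp (.alt (nat_lit 25) (.cov (nat_lit 102109645985806132707331)) (.alt (nat_lit 25) (.cov (nat_lit 104618403188626724749313)) (.alt (nat_lit 25) (.cov (nat_lit 104618403204019887538176)) (.alt (nat_lit 25) (.exp (.alt (nat_lit 27) (.cov (nat_lit 71481142081729069057)) (.alt (nat_lit 29) (.cov (nat_lit 47579136015)) .e))) .e))))) .e))))) .e)) .e)) .e)) .e)) (.alt (nat_lit 16) (.exp (.alt (nat_lit 20) (.exp (.alt (nat_lit 21) (.exp (.alt (nat_lit 29) (.exp (.alt (nat_lit 24) (.cov (nat_lit 25401166622483596443650)) (.alt (nat_lit 24) (.cov (nat_lit 46693321079514426507265)) (.alt (nat_lit 24) (.exp (.alt (nat_lit 28) (.cov (nat_lit 350188377826887374733315)) (.alt (nat_lit 26) (.exp (.alt (nat_lit 27) (.exp (.alt (nat_lit 30)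 (.cov (nat_lit 1581808313273073795073)) (.alt (nat_lit 30) (.exp (.alt (nat_lit 14) (.cov (nat_lit 175244079695363309568)) (.alt (nat_lit 22) (.cov (nat_lit 106954760)) .e))) .e))) .e)) (.alt (nat_lit 28) (.cov (nat_lit 1306526288)) .e)))) .e)))) .e)) .e)) .e)) (.alt (nat_lit 16) (.cov (nat_lit 3892265264546689581057)) (.alt (nat_lit 21) (.exp (.alt (nat_lit 20) (.exp (.alt (nat_lit 29) (.cov (nat_lit 405597785353678738161675)) (.alt (nat_lit 29) (.cov (nat_lit 27808466836252710141958)) (.alt (nat_lit 29) (.exp (.alt (nat_lit 25) (.exp (.alt (nat_lit 27) (.exp (.alt (nat_lit 24) (.exp (.alt (nat_lit 28) (.cov (nat_lit 45448165722608512270339)) (.alt (nat_lit 28) (.cov (nat_lit 25410389979127124852737)) (.alt (nat_lit 28) (.cov (nat_lit 25410389994520287641600)) (.alt (nat_lit 13) (.exp (.alt (nat_lit 12) (.cov (nat_lit 45411272232250619461633)) (.alt (nat_lit 12) (.exp (.alt (nat_lit 14) (.cov (nat_lit 22823234116192290471936)) (.alt (nat_lit 4) (.cov (nat_lit 28762439688))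 .e))) .e))) .e))))) .e)) .e)) .e)) (.alt (nat_lit 29) (.exp (.alt (nat_lit 25) (.exp (.alt (nat_lit 27) (.exp (.alt (nat_lit 28) (.cov (nat_lit 25410389979127823204355)) (.alt (nat_lit 28) (.exp (.alt (nat_lit 24) (.exp (.alt (nat_lit 30) (.cov (nat_lit 1581808313273073795073)) (.alt (nat_lit 30) (.exp (.alt (nat_lit 14) (.cov (nat_lit 1572584943278861844480)) (.alt (nat_lit 22) (.cov (nat_lit 106954760)) .e))) .e))) .e)) (.alt (nat_lit 13) (.cov (nat_lit 11588862143)) .e)))) .e)) .e)) (.alt (nat_lit 29) (.cov (nat_lit 48026103106321760911360)) (.alt (nat_lit 29) (.exp (.alt (nat_lit 31) (.cov (nat_lit 43160769479451897495559)) (.alt (nat_lit 31) (.exp (.alt (nat_lit 27) (.exp (.alt (nat_lit 25) (.exp (.alt (nat_lit 24) (.exp (.alt (nat_lit 30) (.cov (nat_lit 1581808313273073795073)) (.alt (nat_lit 30) (.exp (.alt (nat_lit 14) (.cov (nat_lit 2610214297425028317184)) (.alt (nat_lit 22) (.cov (nat_lit 106954760)) .e))) .e))) .e)) .e)) .e)) (.alt (nat_lit 31) (.cov (nat_lit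 364323980507094188033)) (.alt (nat_lit 31) (.exp (.alt (nat_lit 27) (.exp (.alt (nat_lit 30) (.cov (nat_lit 404338795055261765599234)) (.alt (nat_lit 30) (.cov (nat_lit 26549476441081600016385)) (.alt (nat_lit 30) (.cov (nat_lit 25488788859143688552448)) (.alt (nat_lit 30) (.exp (.alt (nat_lit 26) (.cov (nat_lit 45434330662353097457667)) (.alt (nat_lit 26) (.cov (nat_lit 2974537499487640748033)) (.alt (nat_lit 26) (.cov (nat_lit 2974537514871039197184)) (.alt (nat_lit 26) (.exp (.alt (nat_lit 10) (.cov (nat_lit 45397437174205078568961)) (.alt (nat_lit 24) (.cov (nat_lit 11551113231)) .e))) .e))))) .e))))) .e)) (.alt (nat_lit 13) (.exp (.alt (nat_lit 12) (.cov (nat_lit 1614090139436224348162)) (.alt (nat_lit 12) (.cov (nat_lit 2909974020564826718209)) (.alt (nat_lit 12) (.exp (.alt (nat_lit 8) (.cov (nat_lit 347781077725256848769027)) (.alt (nat_lit 14) (.exp (.alt (nat_lit 6) (.exp (.alt (nat_lit 10) (.cov (nat_lit 1609478429383626588161)) (.alt (nat_lit 10) (.exp (.alt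 (nat_lit 26) (.cov (nat_lit 202914195805949657088)) (.alt (nat_lit 11) (.cov (nat_lit 28311560)) .e))) .e))) .e)) (.alt (nat_lit 8) (.cov (nat_lit 9942598224)) .e)))) .e)))) .e)))))) .e))))))) .e)) (.alt (nat_lit 16) (.exp (.alt (nat_lit 24) (.cov (nat_lit 1976107705215458738187)) (.alt (nat_lit 24) (.cov (nat_lit 21827111772397092470786)) (.alt (nat_lit 24) (.cov (nat_lit 6511705539851126308865)) (.alt (nat_lit 24) (.exp (.alt (nat_lit 26) (.exp (.alt (nat_lit 10) (.exp (.alt (nat_lit 14) (.exp (.alt (nat_lit 6) (.exp (.alt (nat_lit 12) (.exp (.alt (nat_lit 30) (.cov (nat_lit 1621007644273376493569)) (.alt (nat_lit 27) (.cov (nat_lit 300941327)) .e))) .e)) .e)) .e)) .e)) (.alt (nat_lit 8) (.cov (nat_lit 43119264692355934978051)) (.alt (nat_lit 26) (.exp (.alt (nat_lit 27) (.exp (.alt (nat_lit 30) (.exp (.alt (nat_lit 28) (.exp (.alt (nat_lit 20) (.exp (.alt (nat_lit 29) (.exp (.alt (nat_lit 14) (.cov (nat_lit 1637148547536849469440)) (.alt (nat_lit 22) (.cov (nat_lit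 106954760)) .e))) .e)) .e)) .e)) (.alt (nat_lit 10) (.cov (nat_lit 25341214816394637475841)) (.alt (nat_lit 10) (.exp (.alt (nat_lit 14) (.cov (nat_lit 405547056792078282391555)) (.alt (nat_lit 14) (.exp (.alt (nat_lit 6) (.exp (.alt (nat_lit 30) (.cov (nat_lit 102111951828815372615681)) (.alt (nat_lit 30) (.exp (.alt (nat_lit 28) (.cov (nat_lit 21538879560060244066304)) (.alt (nat_lit 22) (.cov (nat_lit 10523508744)) .e))) .e))) .e)) (.alt (nat_lit 8) (.cov (nat_lit 19608371391)) .e)))) .e)))) .e)) (.alt (nat_lit 25) (.cov (nat_lit 157065153684)) .e))))) .e))))) .e)))))))) .e)) .e)) .e)) (.alt (nat_lit 17) (.exp (.alt (nat_lit 19) (.exp (.alt (nat_lit 23) (.exp (.alt (nat_lit 16) (.cov (nat_lit 276702506909809246242)) (.alt (nat_lit 21) (.cov (nat_lit 804742506736445816839)) (.alt (nat_lit 21) (.cov (nat_lit 26757009344377522225155)) (.alt (nat_lit 21) (.exp (.alt (nat_lit 29) (.exp (.alt (nat_lit 20) (.cov (nat_lit 365591409346284768722955)) (.alt (nat_lit 20) (.exp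 (.alt (nat_lit 22) (.exp (.alt (nat_lit 18) (.exp (.alt (nat_lit 6) (.exp (.alt (nat_lit 28) (.cov (nat_lit 350188377826896535093251)) (.alt (nat_lit 28) (.exp (.alt (nat_lit 30) (.exp (.alt (nat_lit 24) (.cov (nat_lit 1567973255061432172545)) (.alt (nat_lit 12) (.cov (nat_lit 183853121551)) .e))) .e)) (.alt (nat_lit 16) (.cov (nat_lit 185010749631)) .e)))) .e)) .e)) .e)) (.alt (nat_lit 20) (.cov (nat_lit 48026103106322374328321)) (.alt (nat_lit 20) (.exp (.alt (nat_lit 22) (.exp (.alt (nat_lit 18) (.exp (.alt (nat_lit 26) (.exp (.alt (nat_lit 27) (.exp (.alt (nat_lit 10) (.exp (.alt (nat_lit 30) (.cov (nat_lit 25267427703760384688129)) (.alt (nat_lit 6) (.cov (nat_lit 12060721167)) .e))) .e)) .e)) .e)) .e)) (.alt (nat_lit 16) (.cov (nat_lit 406842940965698257551363)) (.alt (nat_lit 16) (.exp (.alt (nat_lit 18) (.exp (.alt (nat_lit 24) (.cov (nat_lit 25401166622483596443650)) (.alt (nat_lit 24) (.cov (nat_lit 46693321079514426507265)) (.alt (nat_lit 24) (.exp (.alt (nat_lit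 28) (.cov (nat_lit 350188377826887374733315)) (.alt (nat_lit 26) (.exp (.alt (nat_lit 27) (.exp (.alt (nat_lit 30) (.cov (nat_lit 1581808313273073795073)) (.alt (nat_lit 30) (.exp (.alt (nat_lit 14) (.cov (nat_lit 175244079695363309568)) (.alt (nat_lit 22) (.cov (nat_lit 106954760)) .e))) .e))) .e)) (.alt (nat_lit 28) (.cov (nat_lit 1306526288)) .e)))) .e)))) .e)) (.alt (nat_lit 16) (.cov (nat_lit 10554969234)) .e))))) .e))))) .e)) (.alt (nat_lit 21) (.cov (nat_lit 166259071067)) .e)))))) .e)) .e)) (.alt (nat_lit 17) (.cov (nat_lit 36906141327251472384)) (.alt (nat_lit 17) (.exp (.alt (nat_lit 16) (.exp (.alt (nat_lit 18) (.exp (.alt (nat_lit 19) (.exp (.alt (nat_lit 23) (.exp (.alt (nat_lit 27) (.exp (.alt (nat_lit 22) (.exp (.alt (nat_lit 20) (.exp (.alt (nat_lit 6) (.exp (.alt (nat_lit 24) (.cov (nat_lit 64563621850882506754)) (.alt (nat_lit 24) (.cov (nat_lit 347670397276208325722113)) (.alt (nat_lit 24) (.cov (nat_lit 47947699680924136374272)) (.alt (nat_lit 24)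 (.exp (.alt (nat_lit 26) (.cov (nat_lit 69175299073218969603)) (.alt (nat_lit 26) (.cov (nat_lit 29067456991740056043521)) (.alt (nat_lit 26) (.cov (nat_lit 29067457007133185277952)) (.alt (nat_lit 26) (.exp (.alt (nat_lit 30) (.cov (nat_lit 1581808313116753133569)) (.alt (nat_lit 10) (.cov (nat_lit 183859413007)) .e))) .e))))) .e))))) .e)) .e)) .e)) .e)) .e)) .e)) (.alt (nat_lit 18) (.exp (.alt (nat_lit 19) (.exp (.alt (nat_lit 23) (.exp (.alt (nat_lit 27) (.exp (.alt (nat_lit 26) (.exp (.alt (nat_lit 24) (.exp (.alt (nat_lit 10) (.exp (.alt (nat_lit 20) (.cov (nat_lit 102111951837777560076290)) (.alt (nat_lit 20) (.cov (nat_lit 26646321847468582502401)) (.alt (nat_lit 20) (.cov (nat_lit 63097088251458101444608)) (.alt (nat_lit 20) (.exp (.alt (nat_lit 4) (.cov (nat_lit 102075058340687431860227)) (.alt (nat_lit 4) (.cov (nat_lit 343874979667805162438657)) (.alt (nat_lit 4) (.cov (nat_lit 343874979683041961574400)) (.alt (nat_lit 4) (.exp (.alt (nat_lit 12) (.cov (nat_lit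 365351601446825422225409)) (.alt (nat_lit 6) (.cov (nat_lit 183859413007)) .e))) .e))))) .e))))) .e)) .e)) .e)) .e)) .e)) .e)) .e))) (.alt (nat_lit 19) (.exp (.alt (nat_lit 23) (.cov (nat_lit 9502319629738003500707873579597825)) (.alt (nat_lit 23) (.cov (nat_lit 45568072844417617100811)) .e))) (.alt (nat_lit 19) (.cov (nat_lit 136053173154910044175)) (.alt (nat_lit 19) (.exp (.alt (nat_lit 23) (.exp (.alt (nat_lit 21) (.exp (.alt (nat_lit 29) (.exp (.alt (nat_lit 20) (.exp (.alt (nat_lit 18) (.exp (.alt (nat_lit 2) (.cov (nat_lit 894667228894514627859055428786716672)) (.alt (nat_lit 16) (.cov (nat_lit 63138593311287928684551)) .e))) (.alt (nat_lit 18) (.cov (nat_lit 26549476643548111568902)) (.alt (nat_lit 18) (.exp (.alt (nat_lit 26) (.exp (.alt (nat_lit 27) (.exp (.alt (nat_lit 24) (.exp (.alt (nat_lit 2) (.cov (nat_lit 26650933511507637436419)) (.alt (nat_lit 2) (.cov (nat_lit 47910806063190688923649)) (.alt (nat_lit 2) (.cov (nat_lit 47910806078427488059392)) (.alt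 (nat_lit 2) (.exp (.alt (nat_lit 6) (.cov (nat_lit 350151484332141166198785)) (.alt (nat_lit 6) (.exp (.alt (nat_lit 14) (.cov (nat_lit 175244079695388475392)) (.alt (nat_lit 4) (.cov (nat_lit 184998166536)) .e))) .e))) .e))))) .e)) .e)) .e)) (.alt (nat_lit 27) (.exp (.alt (nat_lit 25) (.exp (.alt (nat_lit 24) (.exp (.alt (nat_lit 26) (.cov (nat_lit 3906098075365726486531)) (.alt (nat_lit 26) (.exp (.alt (nat_lit 18) (.exp (.alt (nat_lit 10) (.cov (nat_lit 404311124930344224030721)) (.alt (nat_lit 10) (.exp (.alt (nat_lit 14) (.cov (nat_lit 41643524757394435342336)) (.alt (nat_lit 2) (.cov (nat_lit 1918894088)) .e))) .e))) .e)) (.alt (nat_lit 31) (.cov (nat_lit 37343985855)) .e)))) .e)) .e)) (.alt (nat_lit 27) (.cov (nat_lit 21827114798252387467264)) (.alt (nat_lit 27) (.exp (.alt (nat_lit 26) (.cov (nat_lit 46674874225490711805959)) (.alt (nat_lit 26) (.cov (nat_lit 347665785700305973805059)) (.alt (nat_lit 26) (.cov (nat_lit 3048325243388188164097)) (.alt (nat_lit 26)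 (.exp (.alt (nat_lit 18) (.exp (.alt (nat_lit 10) (.cov (nat_lit 63120146551828488650754)) (.alt (nat_lit 24) (.cov (nat_lit 405597785353674156933121)) (.alt (nat_lit 24) (.cov (nat_lit 406879834178947141074944)) (.alt (nat_lit 24) (.exp (.alt (nat_lit 8) (.cov (nat_lit 2826963538111019089923)) (.alt (nat_lit 8) (.cov (nat_lit 347781077725413166284801)) (.alt (nat_lit 8) (.cov (nat_lit 26664768591532516179968)) (.alt (nat_lit 8) (.exp (.alt (nat_lit 10) (.cov (nat_lit 404311124930344224030721)) (.alt (nat_lit 10) (.exp (.alt (nat_lit 14) (.cov (nat_lit 345189310176303540862976)) (.alt (nat_lit 2) (.cov (nat_lit 1918894088)) .e))) .e))) .e))))) .e))))) .e)) (.alt (nat_lit 25) (.cov (nat_lit 11601446363)) .e)))))) .e))))))) .e)) .e)) .e)) .e)) (.alt (nat_lit 19) (.exp (.alt (nat_lit 23) (.exp (.alt (nat_lit 21) (.exp (.alt (nat_lit 29) (.exp (.alt (nat_lit 18) (.cov (nat_lit 63286167378371761143819)) (.alt (nat_lit 18) (.cov (nat_lit 45563459709288560197634)) (.alt (nat_lit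 27) (.cov (nat_lit 45586519588490615717889)) (.alt (nat_lit 27) (.cov (nat_lit 21837647876)) .e))))) .e)) .e)) .e)) (.alt (nat_lit 19) (.cov (nat_lit 3152101104661509963777)) (.alt (nat_lit 19) (.exp (.alt (nat_lit 23) (.exp (.alt (nat_lit 27) (.cov (nat_lit 347817971615828443922453)) (.alt (nat_lit 27) (.exp (.alt (nat_lit 31) (.exp (.alt (nat_lit 29) (.exp (.alt (nat_lit 30) (.exp (.alt (nat_lit 22) (.exp (.alt (nat_lit 6) (.exp (.alt (nat_lit 26) (.cov (nat_lit 347813359527551920242691)) (.alt (nat_lit 26) (.exp (.alt (nat_lit 18) (.exp (.alt (nat_lit 24) (.cov (nat_lit 1567973255071198609409)) (.alt (nat_lit 10) (.cov (nat_lit 21214789647)) .e))) .e)) (.alt (nat_lit 26) (.exp (.alt (nat_lit 24) (.cov (nat_lit 1567973255062126329858)) (.alt (nat_lit 18) (.cov (nat_lit 10452205635)) .e))) .e)))) .e)) .e)) .e)) .e)) (.alt (nat_lit 11) (.cov (nat_lit 10254085709172437942279)) .e))) (.alt (nat_lit 27) (.cov (nat_lit 63159350749569096876038)) (.alt (nat_lit 27) (.exp (.alt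 (nat_lit 25) (.exp (.alt (nat_lit 29) (.exp (.alt (nat_lit 24) (.exp (.alt (nat_lit 26) (.cov (nat_lit 26706273765727118819335)) (.alt (nat_lit 26) (.cov (nat_lit 26706273873616630185987)) (.alt (nat_lit 26) (.cov (nat_lit 42053965222062566932481)) (.alt (nat_lit 26) (.exp (.alt (nat_lit 18) (.exp (.alt (nat_lit 30) (.cov (nat_lit 2836186919091186958338)) (.alt (nat_lit 10) (.cov (nat_lit 405565503551545729351681)) (.alt (nat_lit 10) (.cov (nat_lit 26669380385303084138496)) (.alt (nat_lit 10) (.cov (nat_lit 12127830207)) .e))))) .e)) (.alt (nat_lit 11) (.cov (nat_lit 20713571803)) .e)))))) .e)) .e)) .e)) (.alt (nat_lit 27) (.cov (nat_lit 48021495525880368201729)) (.alt (nat_lit 27) (.cov (nat_lit 347817983352012591333376)) (.alt (nat_lit 27) (.exp (.alt (nat_lit 31) (.exp (.alt (nat_lit 29) (.cov (nat_lit 764880090077960362897276235613732865)) (.alt (nat_lit 29) (.exp (.alt (nat_lit 28) (.cov (nat_lit 764880090077960326003790287216836608)) (.alt (nat_lit 25) (.cov (nat_lit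 347827194708744533442567)) .e))) .e))) (.alt (nat_lit 31) (.cov (nat_lit 45595740084208579641359)) (.alt (nat_lit 31) (.exp (.alt (nat_lit 29) (.exp (.alt (nat_lit 28) (.exp (.alt (nat_lit 24) (.exp (.alt (nat_lit 20) (.exp (.alt (nat_lit 30) (.cov (nat_lit 25267427712721999626242)) (.alt (nat_lit 30) (.cov (nat_lit 4118235647441054466049)) (.alt (nat_lit 30) (.cov (nat_lit 5215817133132007604224)) (.alt (nat_lit 30) (.exp (.alt (nat_lit 26) (.cov (nat_lit 1572584941245375184899)) (.alt (nat_lit 26) (.cov (nat_lit 2974537499634233769985)) (.alt (nat_lit 26) (.cov (nat_lit 2974537514871032905728)) (.alt (nat_lit 26) (.exp (.alt (nat_lit 10) (.cov (nat_lit 25267427703916117098497)) (.alt (nat_lit 18) (.cov (nat_lit 9867100175)) .e))) .e))))) .e))))) .e)) .e)) .e)) .e)) (.alt (nat_lit 31) (.exp (.alt (nat_lit 29) (.exp (.alt (nat_lit 25) (.exp (.alt (nat_lit 24) (.exp (.alt (nat_lit 30) (.cov (nat_lit 405583950295784988082178)) (.alt (nat_lit 30) (.cov (nat_lit 81954272380817460166657))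 (.alt (nat_lit 30) (.exp (.alt (nat_lit 26) (.cov (nat_lit 2974537499477937225731)) (.alt (nat_lit 22) (.exp (.alt (nat_lit 18) (.exp (.alt (nat_lit 6) (.cov (nat_lit 365328543016586674438145)) (.alt (nat_lit 20) (.cov (nat_lit 742391823)) .e))) .e)) (.alt (nat_lit 22) (.exp (.alt (nat_lit 6) (.cov (nat_lit 365328543016743038091266)) (.alt (nat_lit 18) (.cov (nat_lit 21812478019)) .e))) .e)))) .e)))) .e)) .e)) .e)) (.alt (nat_lit 25) (.cov (nat_lit 406916734587430513934337)) (.alt (nat_lit 25) (.exp (.alt (nat_lit 29) (.exp (.alt (nat_lit 24) (.cov (nat_lit 25401166622493293674507)) (.alt (nat_lit 24) (.cov (nat_lit 26701662187598219575302)) (.alt (nat_lit 24) (.cov (nat_lit 26701662466874173030402)) (.alt (nat_lit 24) (.cov (nat_lit 47979983182907870019585)) (.alt (nat_lit 24) (.cov (nat_lit 404490983974801103650816)) (.alt (nat_lit 24) (.exp (.alt (nat_lit 16) (.cov (nat_lit 43137711049383910309895)) (.alt (nat_lit 16) (.cov (nat_lit 26683215443524501635075)) (.alt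 (nat_lit 26) (.cov (nat_lit 42053965222062566932481)) (.alt (nat_lit 26) (.exp (.alt (nat_lit 18) (.exp (.alt (nat_lit 30) (.cov (nat_lit 2836186919091186958338)) (.alt (nat_lit 10) (.cov (nat_lit 405565503551545729351681)) (.alt (nat_lit 10) (.cov (nat_lit 26669380385303084138496)) (.alt (nat_lit 10) (.cov (nat_lit 12127830207)) .e))))) .e)) (.alt (nat_lit 16) (.cov (nat_lit 20721960411)) .e)))))) .e))))))) .e)) (.alt (nat_lit 11) (.exp (.alt (nat_lit 10) (.cov (nat_lit 25590245861547187372043)) (.alt (nat_lit 10) (.exp (.alt (nat_lit 26) (.exp (.alt (nat_lit 18) (.exp (.alt (nat_lit 30) (.exp (.alt (nat_lit 14) (.cov (nat_lit 22754058832531848953859)) (.alt (nat_lit 14) (.exp (.alt (nat_lit 6) (.exp (.alt (nat_lit 12) (.cov (nat_lit 6410243574566534250497)) (.alt (nat_lit 12) (.exp (.alt (nat_lit 28) (.cov (nat_lit 2850021970383272411136)) (.alt (nat_lit 8) (.cov (nat_lit 9957277704)) .e))) .e))) .e)) (.alt (nat_lit 14) (.cov (nat_lit 9776923216)) .e)))) .e)) .e)) .e))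 (.alt (nat_lit 10) (.cov (nat_lit 344128627265257129115649)) (.alt (nat_lit 10) (.exp (.alt (nat_lit 26) (.exp (.alt (nat_lit 18) (.exp (.alt (nat_lit 22) (.exp (.alt (nat_lit 6) (.exp (.alt (nat_lit 30) (.exp (.alt (nat_lit 24) (.cov (nat_lit 102111951828815936749569)) (.alt (nat_lit 24) (.exp (.alt (nat_lit 28) (.cov (nat_lit 365346989762849671217152)) (.alt (nat_lit 16) (.cov (nat_lit 10523508744)) .e))) .e))) .e)) .e)) .e)) .e)) (.alt (nat_lit 8) (.cov (nat_lit 43119264692321019494403)) (.alt (nat_lit 8) (.exp (.alt (nat_lit 24) (.exp (.alt (nat_lit 12) (.cov (nat_lit 26498747894869149089794)) (.alt (nat_lit 12) (.cov (nat_lit 1706323972110045675521)) (.alt (nat_lit 12) (.exp (.alt (nat_lit 4) (.cov (nat_lit 21518126979595020271619)) (.alt (nat_lit 28) (.exp (.alt (nat_lit 29) (.exp (.alt (nat_lit 20) (.cov (nat_lit 365370048190742804824065)) (.alt (nat_lit 20) (.exp (.alt (nat_lit 22) (.cov (nat_lit 43013195504867382132736)) (.alt (nat_lit 16) (.cov (nat_lit 158160912392))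 .e))) .e))) .e)) (.alt (nat_lit 4) (.cov (nat_lit 166249628240)) .e)))) .e)))) .e)) (.alt (nat_lit 2) (.cov (nat_lit 1428163731)) .e))))) .e))))) .e)))))))) .e)))))))) .e)) (.alt (nat_lit 19) (.exp (.alt (nat_lit 23) (.cov (nat_lit 1450377099984869785619)) (.alt (nat_lit 23) (.cov (nat_lit 1597954089436969959435)) (.alt (nat_lit 23) (.cov (nat_lit 4330382187299402153986)) (.alt (nat_lit 23) (.cov (nat_lit 63286179387080237383681)) (.alt (nat_lit 23) (.exp (.alt (nat_lit 31) (.cov (nat_lit 347898677003114443178018)) (.alt (nat_lit 21) (.cov (nat_lit 804742506736445816839)) (.alt (nat_lit 21) (.cov (nat_lit 26757009344377522225155)) (.alt (nat_lit 21) (.exp (.alt (nat_lit 29) (.exp (.alt (nat_lit 20) (.cov (nat_lit 365591409346284768722955)) (.alt (nat_lit 20) (.exp (.alt (nat_lit 22) (.exp (.alt (nat_lit 18) (.exp (.alt (nat_lit 6) (.exp (.alt (nat_lit 28) (.cov (nat_lit 350188377826896535093251)) (.alt (nat_lit 28) (.exp (.alt (nat_lit 30) (.exp (.alt (nat_lit 24) (.cov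 (nat_lit 1567973255061432172545)) (.alt (nat_lit 12) (.cov (nat_lit 183853121551)) .e))) .e)) (.alt (nat_lit 16) (.cov (nat_lit 185010749631)) .e)))) .e)) .e)) .e)) (.alt (nat_lit 20) (.cov (nat_lit 48026103106322374328321)) (.alt (nat_lit 20) (.exp (.alt (nat_lit 22) (.exp (.alt (nat_lit 18) (.exp (.alt (nat_lit 26) (.exp (.alt (nat_lit 27) (.exp (.alt (nat_lit 10) (.exp (.alt (nat_lit 30) (.cov (nat_lit 25267427703760384688129)) (.alt (nat_lit 6) (.cov (nat_lit 12060721167)) .e))) .e)) .e)) .e)) .e)) (.alt (nat_lit 16) (.cov (nat_lit 406842940965698257551363)) (.alt (nat_lit 16) (.exp (.alt (nat_lit 18) (.exp (.alt (nat_lit 24) (.cov (nat_lit 25401166622483596443650)) (.alt (nat_lit 24) (.cov (nat_lit 46693321079514426507265)) (.alt (nat_lit 24) (.exp (.alt (nat_lit 28) (.cov (nat_lit 350188377826887374733315)) (.alt (nat_lit 26) (.exp (.alt (nat_lit 27) (.exp (.alt (nat_lit 30) (.cov (nat_lit 1581808313273073795073)) (.alt (nat_lit 30) (.exp (.alt (nat_lit 14) (.cov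 (nat_lit 175244079695363309568)) (.alt (nat_lit 22) (.cov (nat_lit 106954760)) .e))) .e))) .e)) (.alt (nat_lit 28) (.cov (nat_lit 1306526288)) .e)))) .e)))) .e)) (.alt (nat_lit 16) (.cov (nat_lit 10554969234)) .e))))) .e))))) .e)) (.alt (nat_lit 21) (.cov (nat_lit 166259071067)) .e)))))) .e)))))) .e))))))))) .e)))))))))) .e)) (.alt (nat_lit 1) (.exp (.alt (nat_lit 9) (.cov (nat_lit 25548745452509570531545)) (.alt (nat_lit 9) (.cov (nat_lit 25474962583988026212370)) (.alt (nat_lit 9) (.cov (nat_lit 47917731224883181912075)) (.alt (nat_lit 17) (.exp (.alt (nat_lit 19) (.exp (.alt (nat_lit 23) (.exp (.alt (nat_lit 18) (.exp (.alt (nat_lit 16) (.cov (nat_lit 4251974929159882276898)) (.alt (nat_lit 16) (.exp (.alt (nat_lit 20) (.exp (.alt (nat_lit 22) (.exp (.alt (nat_lit 6) (.exp (.alt (nat_lit 30) (.exp (.alt (nat_lit 24) (.cov (nat_lit 45436636529587621199874)) (.alt (nat_lit 24) (.cov (nat_lit 22784034921375095324673)) (.alt (nat_lit 24) (.exp (.alt (nat_lit 26) (.cov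 (nat_lit 96845423979894145027)) (.alt (nat_lit 25) (.exp (.alt (nat_lit 27) (.exp (.alt (nat_lit 9) (.cov (nat_lit 102077364183677122117633)) (.alt (nat_lit 29) (.cov (nat_lit 181403663)) .e))) .e)) (.alt (nat_lit 25) (.exp (.alt (nat_lit 9) (.cov (nat_lit 102077364183723527897090)) (.alt (nat_lit 27) (.cov (nat_lit 11621367875)) .e))) .e)))) .e)))) .e)) .e)) .e)) .e)) (.alt (nat_lit 16) (.cov (nat_lit 43137714611772834447363)) (.alt (nat_lit 21) (.exp (.alt (nat_lit 20) (.exp (.alt (nat_lit 29) (.cov (nat_lit 29976106454362357771)) (.alt (nat_lit 29) (.exp (.alt (nat_lit 25) (.exp (.alt (nat_lit 9) (.exp (.alt (nat_lit 27) (.exp (.alt (nat_lit 28) (.cov (nat_lit 25410389979127823204355)) (.alt (nat_lit 28) (.exp (.alt (nat_lit 24) (.exp (.alt (nat_lit 30) (.cov (nat_lit 1581808313273073795073)) (.alt (nat_lit 30) (.exp (.alt (nat_lit 14) (.cov (nat_lit 1572584943278861844480)) (.alt (nat_lit 22) (.cov (nat_lit 106954760)) .e))) .e))) .e)) (.alt (nat_lit 13) (.cov (nat_lit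 11588862143)) .e)))) .e)) .e)) .e)) (.alt (nat_lit 29) (.cov (nat_lit 61789680021721276481537)) (.alt (nat_lit 29) (.exp (.alt (nat_lit 13) (.cov (nat_lit 10129568480225371619335)) (.alt (nat_lit 13) (.cov (nat_lit 25484177358027041538051)) (.alt (nat_lit 13) (.exp (.alt (nat_lit 9) (.exp (.alt (nat_lit 12) (.cov (nat_lit 1614090139436224348162)) (.alt (nat_lit 12) (.cov (nat_lit 2909974020564826718209)) (.alt (nat_lit 12) (.exp (.alt (nat_lit 8) (.cov (nat_lit 347781077725256848769027)) (.alt (nat_lit 14) (.exp (.alt (nat_lit 6) (.exp (.alt (nat_lit 10) (.cov (nat_lit 1609478429383626588161)) (.alt (nat_lit 10) (.exp (.alt (nat_lit 26) (.cov (nat_lit 202914195805949657088)) (.alt (nat_lit 11) (.cov (nat_lit 28311560)) .e))) .e))) .e)) (.alt (nat_lit 8) (.cov (nat_lit 9942598224)) .e)))) .e)))) .e)) (.alt (nat_lit 13) (.cov (nat_lit 156574420113)) .e))))) .e))))) .e)) (.alt (nat_lit 16) (.cov (nat_lit 11597256802)) .e)))))) .e)) .e)) .e)) (.alt (nat_lit 17) (.cov (nat_lit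 25493416567245584203777)) (.alt (nat_lit 9) (.exp (.alt (nat_lit 11) (.cov (nat_lit 3048327754518170173478)) (.alt (nat_lit 11) (.cov (nat_lit 21790223502542698971170)) (.alt (nat_lit 11) (.cov (nat_lit 62268740973237370887)) (.alt (nat_lit 11) (.cov (nat_lit 21534281582763158011907)) (.alt (nat_lit 11) (.exp (.alt (nat_lit 10) (.exp (.alt (nat_lit 27) (.cov (nat_lit 347891760019296421412884)) (.alt (nat_lit 27) (.cov (nat_lit 48021489806230141534219)) (.alt (nat_lit 27) (.exp (.alt (nat_lit 19) (.exp (.alt (nat_lit 23) (.exp (.alt (nat_lit 17) (.exp (.alt (nat_lit 31) (.exp (.alt (nat_lit 29) (.exp (.alt (nat_lit 28) (.exp (.alt (nat_lit 12) (.exp (.alt (nat_lit 24) (.exp (.alt (nat_lit 30) (.cov (nat_lit 1600255057200175644673)) (.alt (nat_lit 30) (.exp (.alt (nat_lit 22) (.cov (nat_lit 193690823769072861184)) (.alt (nat_lit 14) (.cov (nat_lit 1751121928)) .e))) .e))) .e)) .e)) .e)) .e)) (.alt (nat_lit 31) (.cov (nat_lit 42053965222053426495491)) (.alt (nat_lit 31)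 (.exp (.alt (nat_lit 29) (.exp (.alt (nat_lit 30) (.cov (nat_lit 1683265429722835714050)) (.alt (nat_lit 30) (.cov (nat_lit 406921339355321763627009)) (.alt (nat_lit 30) (.exp (.alt (nat_lit 14) (.cov (nat_lit 384310242677385659940867)) (.alt (nat_lit 22) (.exp (.alt (nat_lit 6) (.exp (.alt (nat_lit 20) (.cov (nat_lit 45443554034379623759873)) (.alt (nat_lit 18) (.cov (nat_lit 158158815247)) .e))) .e)) (.alt (nat_lit 22) (.exp (.alt (nat_lit 20) (.cov (nat_lit 25272039389789658546178)) (.alt (nat_lit 6) (.cov (nat_lit 37316722755)) .e))) .e)))) .e)))) .e)) (.alt (nat_lit 31) (.exp (.alt (nat_lit 30) (.cov (nat_lit 63120146793701130108930)) (.alt (nat_lit 29) (.cov (nat_lit 12176066728)) .e))) .e))))) .e)) .e)) .e)) (.alt (nat_lit 27) (.cov (nat_lit 1683278417152489553921)) (.alt (nat_lit 27) (.exp (.alt (nat_lit 31) (.cov (nat_lit 102337925780727380574242)) (.alt (nat_lit 19) (.cov (nat_lit 48003043062147900768263)) (.alt (nat_lit 19) (.cov (nat_lit 2697843428033570013187))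 (.alt (nat_lit 19) (.exp (.alt (nat_lit 23) (.exp (.alt (nat_lit 17) (.cov (nat_lit 103350189663302289719307)) (.alt (nat_lit 17) (.cov (nat_lit 102317173695030268788738)) (.alt (nat_lit 17) (.cov (nat_lit 47998431376137899737089)) (.alt (nat_lit 17) (.exp (.alt (nat_lit 21) (.exp (.alt (nat_lit 29) (.exp (.alt (nat_lit 28) (.exp (.alt (nat_lit 12) (.exp (.alt (nat_lit 24) (.exp (.alt (nat_lit 20) (.cov (nat_lit 2854633654202683883521)) (.alt (nat_lit 20) (.exp (.alt (nat_lit 22) (.cov (nat_lit 2873080400475385233408)) (.alt (nat_lit 4) (.cov (nat_lit 174757773320)) .e))) .e))) .e)) .e)) .e)) .e)) (.alt (nat_lit 21) (.cov (nat_lit 404472534352206559707139)) (.alt (nat_lit 21) (.exp (.alt (nat_lit 29) (.exp (.alt (nat_lit 20) (.cov (nat_lit 1660206999630688288770)) (.alt (nat_lit 20) (.cov (nat_lit 63346119296453196120065)) (.alt (nat_lit 20) (.exp (.alt (nat_lit 4) (.cov (nat_lit 3864592901199867412483)) (.alt (nat_lit 22) (.exp (.alt (nat_lit 6) (.exp (.alt (nat_lit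 30) (.cov (nat_lit 45443554034389365030913)) (.alt (nat_lit 18) (.cov (nat_lit 185012846607)) .e))) .e)) (.alt (nat_lit 22) (.exp (.alt (nat_lit 30) (.cov (nat_lit 25295097819881805971458)) (.alt (nat_lit 6) (.cov (nat_lit 2329935939)) .e))) .e)))) .e)))) .e)) (.alt (nat_lit 21) (.exp (.alt (nat_lit 20) (.cov (nat_lit 405542445347953679794178)) (.alt (nat_lit 29) (.cov (nat_lit 12176066728)) .e))) .e))))) .e))))) .e)) (.alt (nat_lit 19) (.cov (nat_lit 1802508715)) .e)))))) .e)))))) .e)) (.alt (nat_lit 11) (.cov (nat_lit 11486109215)) .e))))))) .e))))))) .e))))))))))) .e))))))))))) .e)) .e)) .e)) .e))])]) (by decide +kernel)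
  exact h _ List.mem_cons_self

theorem t15_21 : GF FULL [0, 15] [21, 3] := by
  have h := JT.chkW_ok (zs := [0, 15]) good (by decide) (by decide)
    (L := [([21, 3], [.cov (nat_lit 34587649536251928829),
      .cov (nat_lit 34587651735275184370),
      .cov (nat_lit 34587649536251928829),
      .cov (nat_lit 34587651735275184371),
      .cov (nat_lit 34587649536251928829),
      .cov (nat_lit 34587651735275184372),
      .cov (nat_lit 34587649536251928829),
      .cov (nat_lit 34587651735275184386),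
      .cov (nat_lit 34587649536251928829),
      .cov (nat_lit 34587651735275184387),
      .cov (nat_lit 34587649536251928829),
      .cov (nat_lit 403522533209466216708),
      .cov (nat_lit 34587649536251928829),
      .rot (.exp (.alt (nat_lit 15) (.exp (.alt (nat_lit 7) (.exp (.alt (nat_lit 3) (.exp (.alt (nat_lit 0) (.exp (.alt (nat_lit 1) (.cov (nat_lit 20290340157657837565834020519943)) (.alt (nat_lit 1) (.cov (nat_lit 756168810380457577797794806285467651)) (.alt (nat_lit 1) (.cov (nat_lit 61019648079293326481197399949705217)) (.alt (nat_lit 1) (.exp (.alt (nat_lit 5) (.exp (.alt (nat_lit 9) (.cov (nat_lit 55989610362189549193064754019565570)) (.alt (nat_lit 9) (.cov (nat_lit 105316427549147457298296650391879681)) (.alt (nat_lit 9) (.cov (nat_lit 10156940180351585340124370567168)) (.alt (nat_lit 9) (.cov (nat_lit 25534913972262239469661)) .e))))) .e)) (.alt (nat_lit 1) (.cov (nat_lit 10113434587436487279099)) .e)))))) (.alt (nat_lit 0) (.cov (nat_lit 343865765294015116215247))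 (.alt (nat_lit 0) (.cov (nat_lit 18454401072702161361)) (.alt (nat_lit 0) (.cov (nat_lit 4620730601094250723)) (.alt (nat_lit 0) (.cov (nat_lit 4623923582894866649)) (.alt (nat_lit 0) (.cov (nat_lit 76106552204299599965)) (.alt (nat_lit 0) (.cov (nat_lit 2321343924326629411)) (.alt (nat_lit 0) (.cov (nat_lit 2322467625201827856)) (.alt (nat_lit 0) (.cov (nat_lit 2321977242856456210)) (.alt (nat_lit 0) (.cov (nat_lit 2322131174484344843)) (.alt (nat_lit 0) (.cov (nat_lit 2323028375964221446)) (.alt (nat_lit 0) (.cov (nat_lit 21474333609560952012803)) (.alt (nat_lit 0) (.exp (.alt (nat_lit 1) (.exp (.alt (nat_lit 5) (.exp (.alt (nat_lit 9) (.exp (.alt (nat_lit 2) (.exp (.alt (nat_lit 6) (.cov (nat_lit 1389349119866179203646645952577538)) (.alt (nat_lit 6) (.cov (nat_lit 50878430540226690652124948526530561)) (.alt (nat_lit 6) (.cov (nat_lit 8488192481120578232663928402345984)) (.alt (nat_lit 6) (.cov (nat_lit 3859983044603281408093)) .e))))) (.alt (nat_lit 2) (.cov (nat_lit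 25405783258503263027238)) (.alt (nat_lit 2) (.cov (nat_lit 3859984493759602622558)) (.alt (nat_lit 2) (.cov (nat_lit 1720167320326642860066)) (.alt (nat_lit 2) (.cov (nat_lit 102070453735504404807716)) (.alt (nat_lit 2) (.cov (nat_lit 41514190162546917391)) (.alt (nat_lit 2) (.cov (nat_lit 41516153890314125319)) (.alt (nat_lit 2) (.cov (nat_lit 41516153889676591110)) (.alt (nat_lit 2) (.cov (nat_lit 41518887275583242243)) (.alt (nat_lit 2) (.cov (nat_lit 404440265847571275055106)) (.alt (nat_lit 2) (.cov (nat_lit 1572600327645591240705)) (.alt (nat_lit 2) (.cov (nat_lit 6368752379435157553152)) (.alt (nat_lit 2) (.cov (nat_lit 710942239)) .e)))))))))))))) .e)) .e)) .e)) (.alt (nat_lit 0) (.cov (nat_lit 2323679286843670529)) (.alt (nat_lit 0) (.cov (nat_lit 78416892216055169024)) (.alt (nat_lit 0) (.exp (.alt (nat_lit 1) (.cov (nat_lit 11537945168410837499)) (.alt (nat_lit 1) (.cov (nat_lit 20756195680808076234)) (.alt (nat_lit 1) (.exp (.alt (nat_lit 5) (.cov (nat_lit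 1222038007975589656553945172017154)) (.alt (nat_lit 5) (.cov (nat_lit 224450238294358320649154612897513473)) (.alt (nat_lit 5) (.cov (nat_lit 207914558670842673716317309108224)) (.alt (nat_lit 5) (.cov (nat_lit 94548594766294024285)) .e))))) (.alt (nat_lit 1) (.cov (nat_lit 11541454809526698022)) (.alt (nat_lit 1) (.cov (nat_lit 11542171691108008030)) (.alt (nat_lit 1) (.cov (nat_lit 11540408075061035042)) (.alt (nat_lit 1) (.cov (nat_lit 675625719206689898532)) (.alt (nat_lit 1) (.cov (nat_lit 159118565196589694991)) (.alt (nat_lit 1) (.cov (nat_lit 21704914233715439173639)) (.alt (nat_lit 1) (.cov (nat_lit 344301576864140077563910)) (.alt (nat_lit 1) (.cov (nat_lit 25403489389175595073539)) (.alt (nat_lit 1) (.cov (nat_lit 365478439757849014829058)) (.alt (nat_lit 1) (.cov (nat_lit 389705124514838347777)) (.alt (nat_lit 1) (.exp (.alt (nat_lit 5) (.exp (.alt (nat_lit 9) (.cov (nat_lit 6511705539852299665873)) (.alt (nat_lit 9) (.cov (nat_lit 25548745452509570531545))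 (.alt (nat_lit 9) (.cov (nat_lit 22966204778634592387165)) (.alt (nat_lit 9) (.cov (nat_lit 2601001447715272392739)) (.alt (nat_lit 9) (.cov (nat_lit 2600996596669970645008)) (.alt (nat_lit 9) (.cov (nat_lit 239816713154329575442)) (.alt (nat_lit 9) (.cov (nat_lit 2601001905122779856907)) (.alt (nat_lit 9) (.cov (nat_lit 2601005372982453862406)) (.alt (nat_lit 9) (.cov (nat_lit 25260525647060936949763)) (.alt (nat_lit 9) (.cov (nat_lit 2601006558255988604930)) (.alt (nat_lit 9) (.cov (nat_lit 2981470742725718441985)) (.alt (nat_lit 9) (.cov (nat_lit 25253609593576711258112)) (.alt (nat_lit 9) (.exp (.alt (nat_lit 11) (.exp (.alt (nat_lit 10) (.cov (nat_lit 55954101556090067114926665598238722)) (.alt (nat_lit 10) (.cov (nat_lit 56116362873582549883077252435935233)) (.alt (nat_lit 10) (.cov (nat_lit 56116362873582549883099232891568128)) (.alt (nat_lit 10) (.cov (nat_lit 10171076315209359425629)) .e))))) (.alt (nat_lit 11) (.cov (nat_lit 3048327754518170173478)) (.alt (nat_lit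 11) (.cov (nat_lit 3048327754527934513246)) (.alt (nat_lit 11) (.cov (nat_lit 21790223502542698971170)) (.alt (nat_lit 11) (.cov (nat_lit 21790223502531256909860)) (.alt (nat_lit 11) (.cov (nat_lit 3933777198511809363983)) (.alt (nat_lit 11) (.cov (nat_lit 3933779160038875594759)) (.alt (nat_lit 11) (.cov (nat_lit 62268740973170262022)) (.alt (nat_lit 11) (.cov (nat_lit 21534281582763158011907)) (.alt (nat_lit 11) (.cov (nat_lit 136059108161868529666)) (.alt (nat_lit 11) (.cov (nat_lit 62273174212542726145)) (.alt (nat_lit 11) (.cov (nat_lit 21534284687773626531840)) (.alt (nat_lit 11) (.cov (nat_lit 11486109215)) .e)))))))))))))) .e)))))))))))))) .e)) (.alt (nat_lit 1) (.cov (nat_lit 5251114)) .e)))))))))))))))) .e))))))))))))))))) .e)) .e)) .e)),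
      .cov (nat_lit 34587649536251928829),
      .rot (.exp (.alt (nat_lit 15) (.exp (.alt (nat_lit 7) (.exp (.alt (nat_lit 3) (.exp (.alt (nat_lit 0) (.cov (nat_lit 343865765294025115435235)) (.alt (nat_lit 0) (.cov (nat_lit 4619345217047232729)) (.alt (nat_lit 0) (.exp (.alt (nat_lit 1) (.exp (.alt (nat_lit 5) (.exp (.alt (nat_lit 9) (.exp (.alt (nat_lit 11) (.exp (.alt (nat_lit 10) (.exp (.alt (nat_lit 27) (.exp (.alt (nat_lit 4) (.cov (nat_lit 1798558849008503095330)) (.alt (nat_lit 2) (.cov (nat_lit 43105432510577478991879)) (.alt (nat_lit 2) (.cov (nat_lit 1591038741830650822659)) (.alt (nat_lit 2) (.exp (.alt (nat_lit 6) (.exp (.alt (nat_lit 18) (.cov (nat_lit 347868699887161821888523)) (.alt (nat_lit 18) (.exp (.alt (nat_lit 16) (.exp (.alt (nat_lit 17) (.exp (.alt (nat_lit 20) (.exp (.alt (nat_lit 22) (.cov (nat_lit 406856775621323128832003)) (.alt (nat_lit 22) (.exp (.alt (nat_lit 23) (.exp (.alt (nat_lit 30) (.cov (nat_lit 102111951828815376809985)) (.alt (nat_lit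 30) (.exp (.alt (nat_lit 28) (.cov (nat_lit 1395035031569413701632)) (.alt (nat_lit 26) (.cov (nat_lit 159240945672)) .e))) .e))) .e)) (.alt (nat_lit 22) (.cov (nat_lit 4057989712)) .e)))) .e)) .e)) .e)) (.alt (nat_lit 18) (.cov (nat_lit 627194182536828813313)) (.alt (nat_lit 18) (.exp (.alt (nat_lit 16) (.exp (.alt (nat_lit 17) (.exp (.alt (nat_lit 21) (.exp (.alt (nat_lit 23) (.exp (.alt (nat_lit 20) (.exp (.alt (nat_lit 24) (.cov (nat_lit 404343406732473239863297)) (.alt (nat_lit 24) (.exp (.alt (nat_lit 28) (.cov (nat_lit 69175301271539679232)) (.alt (nat_lit 25) (.cov (nat_lit 4627365896)) .e))) .e))) .e)) .e)) .e)) .e)) (.alt (nat_lit 26) (.cov (nat_lit 29141244370465895481347)) (.alt (nat_lit 26) (.exp (.alt (nat_lit 24) (.exp (.alt (nat_lit 30) (.cov (nat_lit 1694794644923571240962)) (.alt (nat_lit 30) (.cov (nat_lit 25306627171255874224129)) (.alt (nat_lit 30) (.exp (.alt (nat_lit 31) (.cov (nat_lit 7814501975817486073859)) (.alt (nat_lit 28) (.exp (.alt (nat_lit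 12) (.exp (.alt (nat_lit 29) (.cov (nat_lit 48422711999371149313)) (.alt (nat_lit 29) (.exp (.alt (nat_lit 21) (.cov (nat_lit 119903847474246189056)) (.alt (nat_lit 25) (.cov (nat_lit 621805576)) .e))) .e))) .e)) (.alt (nat_lit 31) (.cov (nat_lit 47577039440)) .e)))) .e)))) .e)) (.alt (nat_lit 19) (.cov (nat_lit 159233608851)) .e))))) .e))))) .e)) (.alt (nat_lit 2) (.cov (nat_lit 46479186011)) .e)))))) .e)) .e)) .e)) .e)) .e)) .e)) (.alt (nat_lit 0) (.cov (nat_lit 18460740856747917323)) (.alt (nat_lit 0) (.exp (.alt (nat_lit 1) (.exp (.alt (nat_lit 5) (.exp (.alt (nat_lit 9) (.exp (.alt (nat_lit 2) (.cov (nat_lit 3859984493761011908646)) (.alt (nat_lit 2) (.cov (nat_lit 1720167320326642860066)) (.alt (nat_lit 2) (.cov (nat_lit 41516153890314125319)) (.alt (nat_lit 2) (.cov (nat_lit 41518887275583242243)) (.alt (nat_lit 2) (.exp (.alt (nat_lit 6) (.exp (.alt (nat_lit 10) (.cov (nat_lit 2688614795925614755858)) (.alt (nat_lit 10) (.cov (nat_lit 102301035830808309399563))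 (.alt (nat_lit 10) (.cov (nat_lit 650256746976492126210)) (.alt (nat_lit 10) (.cov (nat_lit 59962897962719248385)) (.alt (nat_lit 10) (.exp (.alt (nat_lit 26) (.cov (nat_lit 29141244370456936448034)) (.alt (nat_lit 8) (.cov (nat_lit 1826230959790153007111)) (.alt (nat_lit 8) (.cov (nat_lit 55347297848989319171)) (.alt (nat_lit 8) (.cov (nat_lit 55351211944256208896)) (.alt (nat_lit 11) (.cov (nat_lit 9792657503)) .e)))))) .e)))))) .e)) (.alt (nat_lit 2) (.cov (nat_lit 710942239)) .e))))))) .e)) .e)) .e)) (.alt (nat_lit 0) (.cov (nat_lit 2322900832611205121)) (.alt (nat_lit 0) (.exp (.alt (nat_lit 1) (.cov (nat_lit 85325891232538296827)) (.alt (nat_lit 1) (.exp (.alt (nat_lit 5) (.exp (.alt (nat_lit 4) (.exp (.alt (nat_lit 6) (.exp (.alt (nat_lit 12) (.exp (.alt (nat_lit 13) (.exp (.alt (nat_lit 9) (.exp (.alt (nat_lit 29) (.exp (.alt (nat_lit 17) (.cov (nat_lit 404537097681586292260875)) (.alt (nat_lit 17) (.exp (.alt (nat_lit 16) (.exp (.alt (nat_lit 20) (.exp (.alt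 (nat_lit 18) (.exp (.alt (nat_lit 19) (.cov (nat_lit 10171073531236699865091)) (.alt (nat_lit 19) (.exp (.alt (nat_lit 23) (.exp (.alt (nat_lit 27) (.cov (nat_lit 45438942348361172254721)) (.alt (nat_lit 27) (.exp (.alt (nat_lit 26) (.cov (nat_lit 1618701803463139917824)) (.alt (nat_lit 25) (.cov (nat_lit 185010749448)) .e))) .e))) .e)) (.alt (nat_lit 19) (.cov (nat_lit 158673666640)) .e)))) .e)) .e)) .e)) (.alt (nat_lit 17) (.cov (nat_lit 6530152286123853873153)) (.alt (nat_lit 17) (.exp (.alt (nat_lit 16) (.exp (.alt (nat_lit 20) (.exp (.alt (nat_lit 22) (.exp (.alt (nat_lit 23) (.exp (.alt (nat_lit 18) (.exp (.alt (nat_lit 24) (.cov (nat_lit 102107340142796951519233)) (.alt (nat_lit 24) (.exp (.alt (nat_lit 26) (.cov (nat_lit 1390423345550984216576)) (.alt (nat_lit 28) (.cov (nat_lit 159247237128)) .e))) .e))) .e)) .e)) .e)) .e)) (.alt (nat_lit 25) (.cov (nat_lit 104692190567353181798403)) (.alt (nat_lit 25) (.exp (.alt (nat_lit 24) (.exp (.alt (nat_lit 27) (.cov (nat_lit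 6417161127793214357506)) (.alt (nat_lit 27) (.cov (nat_lit 6417161239777256669185)) (.alt (nat_lit 27) (.exp (.alt (nat_lit 31) (.cov (nat_lit 347827194585441121599491)) (.alt (nat_lit 26) (.exp (.alt (nat_lit 10) (.exp (.alt (nat_lit 30) (.cov (nat_lit 419663436482779021313)) (.alt (nat_lit 30) (.exp (.alt (nat_lit 22) (.cov (nat_lit 410440066635174772736)) (.alt (nat_lit 28) (.cov (nat_lit 54525960)) .e))) .e))) .e)) (.alt (nat_lit 31) (.cov (nat_lit 21808284240)) .e)))) .e)))) .e)) (.alt (nat_lit 21) (.cov (nat_lit 185006558355)) .e))))) .e))))) .e)) .e)) .e)) .e)) .e)) .e)) (.alt (nat_lit 5) (.cov (nat_lit 39210310889693511699)) .e))) (.alt (nat_lit 1) (.cov (nat_lit 344089434234146379530274)) (.alt (nat_lit 1) (.exp (.alt (nat_lit 5) (.exp (.alt (nat_lit 4) (.exp (.alt (nat_lit 6) (.exp (.alt (nat_lit 12) (.exp (.alt (nat_lit 9) (.cov (nat_lit 313596496442488258578)) (.alt (nat_lit 9) (.cov (nat_lit 347850257881981556621323)) (.alt (nat_lit 9) (.cov (nat_lit 25440374939032909512706))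 (.alt (nat_lit 9) (.cov (nat_lit 57657054953499262977)) (.alt (nat_lit 9) (.exp (.alt (nat_lit 25) (.cov (nat_lit 406916727941984011943970)) (.alt (nat_lit 11) (.cov (nat_lit 25444980903183734800391)) (.alt (nat_lit 11) (.cov (nat_lit 1611791329068230639619)) (.alt (nat_lit 11) (.cov (nat_lit 62268740971895193600)) (.alt (nat_lit 13) (.cov (nat_lit 9794754655)) .e)))))) .e)))))) .e)) .e)) .e)) .e)) (.alt (nat_lit 1) (.cov (nat_lit 25403489389175595073539)) (.alt (nat_lit 1) (.exp (.alt (nat_lit 5) (.exp (.alt (nat_lit 9) (.cov (nat_lit 25548745452509570531545)) (.alt (nat_lit 9) (.cov (nat_lit 25474962583988026212370)) (.alt (nat_lit 9) (.cov (nat_lit 47917731224883181912075)) (.alt (nat_lit 17) (.exp (.alt (nat_lit 19) (.exp (.alt (nat_lit 23) (.exp (.alt (nat_lit 18) (.exp (.alt (nat_lit 16) (.cov (nat_lit 4251974929159882276898)) (.alt (nat_lit 16) (.exp (.alt (nat_lit 20) (.exp (.alt (nat_lit 22) (.exp (.alt (nat_lit 6) (.exp (.alt (nat_lit 30) (.exp (.alt (nat_lit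 24) (.cov (nat_lit 45436636529587621199874)) (.alt (nat_lit 24) (.cov (nat_lit 22784034921375095324673)) (.alt (nat_lit 24) (.exp (.alt (nat_lit 26) (.cov (nat_lit 96845423979894145027)) (.alt (nat_lit 25) (.exp (.alt (nat_lit 27) (.exp (.alt (nat_lit 9) (.cov (nat_lit 102077364183677122117633)) (.alt (nat_lit 29) (.cov (nat_lit 181403663)) .e))) .e)) (.alt (nat_lit 25) (.exp (.alt (nat_lit 9) (.cov (nat_lit 102077364183723527897090)) (.alt (nat_lit 27) (.cov (nat_lit 11621367875)) .e))) .e)))) .e)))) .e)) .e)) .e)) .e)) (.alt (nat_lit 16) (.cov (nat_lit 43137714611772834447363)) (.alt (nat_lit 21) (.exp (.alt (nat_lit 20) (.exp (.alt (nat_lit 29) (.cov (nat_lit 29976106454362357771)) (.alt (nat_lit 29) (.exp (.alt (nat_lit 25) (.exp (.alt (nat_lit 9) (.exp (.alt (nat_lit 27) (.exp (.alt (nat_lit 28) (.cov (nat_lit 25410389979127823204355)) (.alt (nat_lit 28) (.exp (.alt (nat_lit 24) (.exp (.alt (nat_lit 30) (.cov (nat_lit 1581808313273073795073)) (.alt (nat_lit 30) (.exp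 (.alt (nat_lit 14) (.cov (nat_lit 1572584943278861844480)) (.alt (nat_lit 22) (.cov (nat_lit 106954760)) .e))) .e))) .e)) (.alt (nat_lit 13) (.cov (nat_lit 11588862143)) .e)))) .e)) .e)) .e)) (.alt (nat_lit 29) (.cov (nat_lit 61789680021721276481537)) (.alt (nat_lit 29) (.exp (.alt (nat_lit 13) (.cov (nat_lit 10129568480225371619335)) (.alt (nat_lit 13) (.cov (nat_lit 25484177358027041538051)) (.alt (nat_lit 13) (.exp (.alt (nat_lit 9) (.exp (.alt (nat_lit 12) (.cov (nat_lit 1614090139436224348162)) (.alt (nat_lit 12) (.cov (nat_lit 2909974020564826718209)) (.alt (nat_lit 12) (.exp (.alt (nat_lit 8) (.cov (nat_lit 347781077725256848769027)) (.alt (nat_lit 14) (.exp (.alt (nat_lit 6) (.exp (.alt (nat_lit 10) (.cov (nat_lit 1609478429383626588161)) (.alt (nat_lit 10) (.exp (.alt (nat_lit 26) (.cov (nat_lit 202914195805949657088)) (.alt (nat_lit 11) (.cov (nat_lit 28311560)) .e))) .e))) .e)) (.alt (nat_lit 8) (.cov (nat_lit 9942598224)) .e)))) .e)))) .e)) (.alt (nat_lit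 13) (.cov (nat_lit 156574420113)) .e))))) .e))))) .e)) (.alt (nat_lit 16) (.cov (nat_lit 11597256802)) .e)))))) .e)) .e)) .e)) (.alt (nat_lit 17) (.cov (nat_lit 25493416567245584203777)) (.alt (nat_lit 9) (.exp (.alt (nat_lit 11) (.cov (nat_lit 3048327754518170173478)) (.alt (nat_lit 11) (.cov (nat_lit 21790223502542698971170)) (.alt (nat_lit 11) (.cov (nat_lit 62268740973237370887)) (.alt (nat_lit 11) (.cov (nat_lit 21534281582763158011907)) (.alt (nat_lit 11) (.exp (.alt (nat_lit 10) (.exp (.alt (nat_lit 27) (.cov (nat_lit 347891760019296421412884)) (.alt (nat_lit 27) (.cov (nat_lit 48021489806230141534219)) (.alt (nat_lit 27) (.exp (.alt (nat_lit 19) (.exp (.alt (nat_lit 23) (.exp (.alt (nat_lit 17) (.exp (.alt (nat_lit 31) (.exp (.alt (nat_lit 29) (.exp (.alt (nat_lit 28) (.exp (.alt (nat_lit 12) (.exp (.alt (nat_lit 24) (.exp (.alt (nat_lit 30) (.cov (nat_lit 1600255057200175644673)) (.alt (nat_lit 30) (.exp (.alt (nat_lit 22) (.cov (nat_lit 193690823769072861184))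 (.alt (nat_lit 14) (.cov (nat_lit 1751121928)) .e))) .e))) .e)) .e)) .e)) .e)) (.alt (nat_lit 31) (.cov (nat_lit 42053965222053426495491)) (.alt (nat_lit 31) (.exp (.alt (nat_lit 29) (.exp (.alt (nat_lit 30) (.cov (nat_lit 1683265429722835714050)) (.alt (nat_lit 30) (.cov (nat_lit 406921339355321763627009)) (.alt (nat_lit 30) (.exp (.alt (nat_lit 14) (.cov (nat_lit 384310242677385659940867)) (.alt (nat_lit 22) (.exp (.alt (nat_lit 6) (.exp (.alt (nat_lit 20) (.cov (nat_lit 45443554034379623759873)) (.alt (nat_lit 18) (.cov (nat_lit 158158815247)) .e))) .e)) (.alt (nat_lit 22) (.exp (.alt (nat_lit 20) (.cov (nat_lit 25272039389789658546178)) (.alt (nat_lit 6) (.cov (nat_lit 37316722755)) .e))) .e)))) .e)))) .e)) (.alt (nat_lit 31) (.exp (.alt (nat_lit 30) (.cov (nat_lit 63120146793701130108930)) (.alt (nat_lit 29) (.cov (nat_lit 12176066728)) .e))) .e))))) .e)) .e)) .e)) (.alt (nat_lit 27) (.cov (nat_lit 1683278417152489553921)) (.alt (nat_lit 27) (.exp (.alt (nat_lit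 31) (.cov (nat_lit 102337925780727380574242)) (.alt (nat_lit 19) (.cov (nat_lit 48003043062147900768263)) (.alt (nat_lit 19) (.cov (nat_lit 2697843428033570013187)) (.alt (nat_lit 19) (.exp (.alt (nat_lit 23) (.exp (.alt (nat_lit 17) (.cov (nat_lit 103350189663302289719307)) (.alt (nat_lit 17) (.cov (nat_lit 102317173695030268788738)) (.alt (nat_lit 17) (.cov (nat_lit 47998431376137899737089)) (.alt (nat_lit 17) (.exp (.alt (nat_lit 21) (.exp (.alt (nat_lit 29) (.exp (.alt (nat_lit 28) (.exp (.alt (nat_lit 12) (.exp (.alt (nat_lit 24) (.exp (.alt (nat_lit 20) (.cov (nat_lit 2854633654202683883521)) (.alt (nat_lit 20) (.exp (.alt (nat_lit 22) (.cov (nat_lit 2873080400475385233408)) (.alt (nat_lit 4) (.cov (nat_lit 174757773320)) .e))) .e))) .e)) .e)) .e)) .e)) (.alt (nat_lit 21) (.cov (nat_lit 404472534352206559707139)) (.alt (nat_lit 21) (.exp (.alt (nat_lit 29) (.exp (.alt (nat_lit 20) (.cov (nat_lit 1660206999630688288770)) (.alt (nat_lit 20) (.cov (nat_lit 63346119296453196120065))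 (.alt (nat_lit 20) (.exp (.alt (nat_lit 4) (.cov (nat_lit 3864592901199867412483)) (.alt (nat_lit 22) (.exp (.alt (nat_lit 6) (.exp (.alt (nat_lit 30) (.cov (nat_lit 45443554034389365030913)) (.alt (nat_lit 18) (.cov (nat_lit 185012846607)) .e))) .e)) (.alt (nat_lit 22) (.exp (.alt (nat_lit 30) (.cov (nat_lit 25295097819881805971458)) (.alt (nat_lit 6) (.cov (nat_lit 2329935939)) .e))) .e)))) .e)))) .e)) (.alt (nat_lit 21) (.exp (.alt (nat_lit 20) (.cov (nat_lit 405542445347953679794178)) (.alt (nat_lit 29) (.cov (nat_lit 12176066728)) .e))) .e))))) .e))))) .e)) (.alt (nat_lit 19) (.cov (nat_lit 1802508715)) .e)))))) .e)))))) .e)) (.alt (nat_lit 11) (.cov (nat_lit 11486109215)) .e))))))) .e))))))) .e)) (.alt (nat_lit 1) (.cov (nat_lit 17834083)) .e)))))))) .e)))))))) .e)) .e)) .e))])]) (by decide +kernel)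
  exact h _ List.mem_cons_self

end K2

end Pool.Agent.Work.MP_bf01b2_co.MR
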