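import Pool.Agent.Work.MP_bf01b2_co.MR.K2I

/-!
# Two roots in `Q_5`: certificates of the special vectors, part 3
-/

set_option autoImplicit false
set_option maxRecDepth 100000

namespace Pool.Agent.Work.MP_bf01b2_co.MR

namespace K2

open Tab Exc K4

theorem t15_23 : GF FULL [0, 15] [23, 1] := by
  have h := JT.chkW_ok (zs := [0, 15]) good (by decide) (by decide)
    (L := [([23, 1], [.cov (nat_lit 34587645184611197231),
      .cov (nat_lit 34587645138205417789),
      .cov (nat_lit 34587645138205417790),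
      .cov (nat_lit 34587645138205417791),
      .rot (.exp (.alt (nat_lit 15) (.exp (.alt (nat_lit 0) (.cov (nat_lit 76100478502067766277)) (.alt (nat_lit 0) (.cov (nat_lit 2316851366053545569)) (.alt (nat_lit 0) (.cov (nat_lit 627203011615150572029)) (.alt (nat_lit 0) (.cov (nat_lit 3027581307262750165473)) (.alt (nat_lit 0) (.cov (nat_lit 2318084981458470495)) (.alt (nat_lit 0) (.cov (nat_lit 2320543479693837258)) (.alt (nat_lit 0) (.cov (nat_lit 25401182000253635657947)) (.alt (nat_lit 0) (.cov (nat_lit 1567989512440337399846)) (.alt (nat_lit 0) (.cov (nat_lit 26491835909735486326433)) (.alt (nat_lit 0) (.cov (nat_lit 25458822100893564929697)) (.alt (nat_lit 0) (.cov (nat_lit 2320545690192708556)) (.alt (nat_lit 0) (.cov (nat_lit 2321493457740235218)) (.alt (nat_lit 0) (.cov (nat_lit 2322133373507600478)) (.alt (nat_lit 0) (.cov (nat_lit 18463958028362186786)) (.alt (nat_lit 0) (.cov (nat_lit 41618169902709698724067)) (.alt (nat_lit 0) (.cov (nat_lit 2321979442584355036))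 (.alt (nat_lit 0) (.cov (nat_lit 2322135572530856029)) (.alt (nat_lit 0) (.cov (nat_lit 2323208695879565348)) (.alt (nat_lit 0) (.cov (nat_lit 18464437414995689488)) (.alt (nat_lit 0) (.cov (nat_lit 747111101005236797447)) (.alt (nat_lit 0) (.cov (nat_lit 2323415404065587218)) (.alt (nat_lit 0) (.cov (nat_lit 1551849829634725117963)) (.alt (nat_lit 0) (.cov (nat_lit 592619617188898144262)) (.alt (nat_lit 0) (.cov (nat_lit 9241608536715165699)) (.alt (nat_lit 0) (.cov (nat_lit 2324171868052914178)) (.alt (nat_lit 0) (.cov (nat_lit 2324323600655450113)) (.alt (nat_lit 0) (.cov (nat_lit 4630258968844828672)) (.alt (nat_lit 0) (.cov (nat_lit 2105634)) .e))))))))))))))))))))))))))))) .e)),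
      .rot (.exp (.alt (nat_lit 15) (.exp (.alt (nat_lit 0) (.cov (nat_lit 2315118535728170593)) (.alt (nat_lit 0) (.cov (nat_lit 4622404214155381217)) (.alt (nat_lit 0) (.cov (nat_lit 406789918387419610089066)) (.alt (nat_lit 0) (.cov (nat_lit 3117513474760076428240)) (.alt (nat_lit 0) (.cov (nat_lit 25401182000253635657947)) (.alt (nat_lit 0) (.cov (nat_lit 1567989512440337399846)) (.alt (nat_lit 0) (.cov (nat_lit 25458822100893564929697)) (.alt (nat_lit 0) (.cov (nat_lit 4623930336294733473)) (.alt (nat_lit 0) (.cov (nat_lit 4626390896718382024)) (.alt (nat_lit 0) (.cov (nat_lit 36906073157511676371)) (.alt (nat_lit 0) (.cov (nat_lit 2322137771554111582)) (.alt (nat_lit 0) (.cov (nat_lit 18463958028362186786)) (.alt (nat_lit 0) (.cov (nat_lit 2320550076763603171)) (.alt (nat_lit 0) (.cov (nat_lit 2321981640902967523)) (.alt (nat_lit 0) (.cov (nat_lit 2322133373507600477)) (.alt (nat_lit 0) (.cov (nat_lit 2323210894902820900)) (.alt (nat_lit 0) (.cov (nat_lit 18464437414995689488))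 (.alt (nat_lit 0) (.cov (nat_lit 747111101005236797447)) (.alt (nat_lit 0) (.cov (nat_lit 2323208695879565330)) (.alt (nat_lit 0) (.cov (nat_lit 1551849827435701862411)) (.alt (nat_lit 0) (.cov (nat_lit 592619617188898144262)) (.alt (nat_lit 0) (.cov (nat_lit 9241608536715165699)) (.alt (nat_lit 0) (.cov (nat_lit 4630017076289863682)) (.alt (nat_lit 0) (.cov (nat_lit 2324325799678705665)) (.alt (nat_lit 0) (.cov (nat_lit 4630258968844828672)) (.alt (nat_lit 0) (.cov (nat_lit 8397091)) .e))))))))))))))))))))))))))) .e)),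
      .rot (.exp (.alt (nat_lit 15) (.exp (.alt (nat_lit 0) (.cov (nat_lit 47896980254080630785631)) (.alt (nat_lit 0) (.cov (nat_lit 4622404214155380385)) (.alt (nat_lit 0) (.exp (.alt (nat_lit 1) (.cov (nat_lit 81153783081161341293992501837831)) (.alt (nat_lit 1) (.cov (nat_lit 14157148697982099259535440101769219)) (.alt (nat_lit 1) (.cov (nat_lit 81159484378232006127367199129601)) (.alt (nat_lit 1) (.exp (.alt (nat_lit 3) (.exp (.alt (nat_lit 5) (.cov (nat_lit 10165417168539987858872771543042)) (.alt (nat_lit 5) (.cov (nat_lit 53261634399314091059278342719012865)) (.alt (nat_lit 5) (.cov (nat_lit 47907078278457159902747211635621888)) (.alt (nat_lit 5) (.cov (nat_lit 4622692129843445853)) .e))))) .e)) (.alt (nat_lit 1) (.cov (nat_lit 4623932378988937723)) .e)))))) (.alt (nat_lit 0) (.exp (.alt (nat_lit 1) (.cov (nat_lit 92497959181913327859075149644955654)) (.alt (nat_lit 1) (.cov (nat_lit 6825061016088671988339552398868483)) (.alt (nat_lit 1) (.cov (nat_lit 40596657479056076701070078771201))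 (.alt (nat_lit 1) (.cov (nat_lit 10171403768839008186622607884288)) (.alt (nat_lit 1) (.exp (.alt (nat_lit 3) (.cov (nat_lit 22412092796494985320809242232356866)) (.alt (nat_lit 3) (.cov (nat_lit 92508100386715158305981937793105921)) (.alt (nat_lit 3) (.cov (nat_lit 40596657477732522778597045305344)) (.alt (nat_lit 3) (.cov (nat_lit 4625418918678233181)) .e))))) .e)))))) (.alt (nat_lit 0) (.exp (.alt (nat_lit 1) (.cov (nat_lit 47785390905140525151787993063751683)) (.alt (nat_lit 1) (.cov (nat_lit 13964472900722771276775183965224962)) (.alt (nat_lit 1) (.cov (nat_lit 993871959187528040678508951764993)) (.alt (nat_lit 1) (.cov (nat_lit 10175064396202354412146559811584)) (.alt (nat_lit 1) (.cov (nat_lit 668710028562498846814)) .e)))))) (.alt (nat_lit 0) (.cov (nat_lit 21490469492454978486368)) (.alt (nat_lit 0) (.cov (nat_lit 2321981640902967523)) (.alt (nat_lit 0) (.cov (nat_lit 9239512868171284697)) (.alt (nat_lit 0) (.cov (nat_lit 2322137771554111581)) (.alt (nat_lit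 0) (.cov (nat_lit 18463958027925979171)) (.alt (nat_lit 0) (.cov (nat_lit 18464437414995689488)) (.alt (nat_lit 0) (.cov (nat_lit 747111101005236797447)) (.alt (nat_lit 0) (.cov (nat_lit 2323210894902820882)) (.alt (nat_lit 0) (.exp (.alt (nat_lit 1) (.exp (.alt (nat_lit 3) (.exp (.alt (nat_lit 5) (.exp (.alt (nat_lit 7) (.exp (.alt (nat_lit 6) (.exp (.alt (nat_lit 2) (.exp (.alt (nat_lit 10) (.cov (nat_lit 3011941888133414344748935896104962)) (.alt (nat_lit 10) (.cov (nat_lit 105397547608033502724632394044801025)) (.alt (nat_lit 10) (.cov (nat_lit 105397547608033502724654384280502272)) (.alt (nat_lit 10) (.cov (nat_lit 25498014797488210313309)) .e))))) (.alt (nat_lit 2) (.cov (nat_lit 406810662039871048122406)) (.alt (nat_lit 2) (.cov (nat_lit 29021343410299431026782)) (.alt (nat_lit 2) (.cov (nat_lit 404301908614973013098530)) (.alt (nat_lit 2) (.cov (nat_lit 404301908614972409118756)) (.alt (nat_lit 2) (.cov (nat_lit 23067454883596599311)) (.alt (nat_lit 2) (.cov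 (nat_lit 23069416412340551687)) (.alt (nat_lit 2) (.cov (nat_lit 41516153888971948038)) (.alt (nat_lit 2) (.cov (nat_lit 41518893871948365827)) (.alt (nat_lit 2) (.cov (nat_lit 2992998596576360267778)) (.alt (nat_lit 2) (.cov (nat_lit 25424240432544198164481)) (.alt (nat_lit 2) (.cov (nat_lit 41521998892785205248)) (.alt (nat_lit 2) (.cov (nat_lit 2963283487)) .e)))))))))))))) .e)) .e)) .e)) .e)) (.alt (nat_lit 1) (.exp (.alt (nat_lit 3) (.exp (.alt (nat_lit 2) (.exp (.alt (nat_lit 6) (.exp (.alt (nat_lit 10) (.exp (.alt (nat_lit 4) (.exp (.alt (nat_lit 5) (.cov (nat_lit 588193940498250296667076710891522)) (.alt (nat_lit 5) (.cov (nat_lit 803771616285795015787826502230343681)) (.alt (nat_lit 5) (.cov (nat_lit 50036708554199473263774671848865792)) (.alt (nat_lit 5) (.cov (nat_lit 22754060662100288602205)) .e))))) (.alt (nat_lit 4) (.cov (nat_lit 27675103495328890918)) (.alt (nat_lit 4) (.cov (nat_lit 22754062111256612962398)) (.alt (nat_lit 4) (.cov (nat_lit 27679813803746263074))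 (.alt (nat_lit 4) (.cov (nat_lit 404306520325180094414884)) (.alt (nat_lit 4) (.cov (nat_lit 27680656029216931855)) (.alt (nat_lit 4) (.cov (nat_lit 27684440548071964679)) (.alt (nat_lit 4) (.cov (nat_lit 27679393789700472838)) (.alt (nat_lit 4) (.cov (nat_lit 45390533402257199726595)) (.alt (nat_lit 4) (.cov (nat_lit 1374296148799419056130)) (.alt (nat_lit 4) (.cov (nat_lit 2850037365745066704897)) (.alt (nat_lit 4) (.cov (nat_lit 25262829996932164747264)) (.alt (nat_lit 4) (.cov (nat_lit 9769590305)) .e)))))))))))))) .e)) .e)) .e)) .e)) .e))) (.alt (nat_lit 0) (.cov (nat_lit 592619617188898144262)) (.alt (nat_lit 0) (.cov (nat_lit 9241608536715165699)) (.alt (nat_lit 0) (.exp (.alt (nat_lit 1) (.exp (.alt (nat_lit 3) (.exp (.alt (nat_lit 5) (.exp (.alt (nat_lit 2) (.cov (nat_lit 43105432510581304198093)) (.alt (nat_lit 2) (.exp (.alt (nat_lit 6) (.cov (nat_lit 92416814925169271452998418758107138)) (.alt (nat_lit 6) (.cov (nat_lit 55583959065595024849287138743681025))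 (.alt (nat_lit 6) (.cov (nat_lit 889069299308383831614315724944703488)) (.alt (nat_lit 6) (.cov (nat_lit 404301908614972413313117)) .e))))) (.alt (nat_lit 2) (.cov (nat_lit 23064000218062127142)) (.alt (nat_lit 2) (.cov (nat_lit 1720167307132503327186)) (.alt (nat_lit 2) (.cov (nat_lit 25405788659304311554142)) (.alt (nat_lit 2) (.cov (nat_lit 23067709970898223138)) (.alt (nat_lit 2) (.cov (nat_lit 87635206499440001060)) (.alt (nat_lit 2) (.cov (nat_lit 25396567343354200719375)) (.alt (nat_lit 2) (.cov (nat_lit 13847645264415817735)) (.alt (nat_lit 2) (.cov (nat_lit 10122664521358125301771)) (.alt (nat_lit 2) (.cov (nat_lit 25248996346251771379718)) (.alt (nat_lit 2) (.cov (nat_lit 382783927516412248067)) (.alt (nat_lit 2) (.cov (nat_lit 760944450419453591554)) (.alt (nat_lit 2) (.cov (nat_lit 6516329300706228961281)) (.alt (nat_lit 2) (.cov (nat_lit 465797328092379742208)) (.alt (nat_lit 2) (.exp (.alt (nat_lit 6) (.cov (nat_lit 47920032713814870852049)) (.alt (nat_lit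 6) (.cov (nat_lit 406893674002286418854105)) (.alt (nat_lit 6) (.cov (nat_lit 406819889185431813619805)) (.alt (nat_lit 6) (.cov (nat_lit 406819891133766418038820)) (.alt (nat_lit 6) (.cov (nat_lit 365499186372384957399056)) (.alt (nat_lit 6) (.cov (nat_lit 406819891133766418038802)) (.alt (nat_lit 6) (.cov (nat_lit 365499186372384789626891)) (.alt (nat_lit 6) (.cov (nat_lit 622592071065625690118)) (.alt (nat_lit 6) (.cov (nat_lit 599534663519302582275)) (.alt (nat_lit 6) (.cov (nat_lit 622593256339160432642)) (.alt (nat_lit 6) (.cov (nat_lit 50743486366747721729)) (.alt (nat_lit 6) (.cov (nat_lit 1803186189873436426240)) (.alt (nat_lit 6) (.exp (.alt (nat_lit 4) (.exp (.alt (nat_lit 12) (.cov (nat_lit 3022083092934917361939619585720322)) (.alt (nat_lit 12) (.cov (nat_lit 1399492283102611503734097623121921)) (.alt (nat_lit 12) (.cov (nat_lit 1399492283131609785435561224306688)) (.alt (nat_lit 12) (.cov (nat_lit 344262364077164739952733)) .e))))) (.alt (nat_lit 4) (.cov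 (nat_lit 47915421027796441366566)) (.alt (nat_lit 4) (.cov (nat_lit 350146875931453735043166)) (.alt (nat_lit 4) (.cov (nat_lit 45406667602898406342690)) (.alt (nat_lit 4) (.cov (nat_lit 45406667602897802362916)) (.alt (nat_lit 4) (.cov (nat_lit 396614022376217116687)) (.alt (nat_lit 4) (.cov (nat_lit 396615983904961069063)) (.alt (nat_lit 4) (.cov (nat_lit 6668511047043185115142)) (.alt (nat_lit 4) (.cov (nat_lit 6668511750730626891779)) (.alt (nat_lit 4) (.cov (nat_lit 46130579890377850882)) (.alt (nat_lit 4) (.cov (nat_lit 267493202022799245313)) (.alt (nat_lit 4) (.cov (nat_lit 22034652082012302606336)) (.alt (nat_lit 7) (.cov (nat_lit 292560422)) .e)))))))))))))) .e)))))))))))))) .e))))))))))))))))) .e)) .e)) .e)) (.alt (nat_lit 0) (.exp (.alt (nat_lit 1) (.exp (.alt (nat_lit 3) (.exp (.alt (nat_lit 2) (.cov (nat_lit 13844757946881278459)) (.alt (nat_lit 2) (.cov (nat_lit 96849014984324154314)) (.alt (nat_lit 2) (.exp (.alt (nat_lit 6) (.cov (nat_lit 224982651488426902106989685666480130))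 (.alt (nat_lit 6) (.cov (nat_lit 135861743540073129552204323056779265)) (.alt (nat_lit 6) (.cov (nat_lit 50725884242544533773735325335552)) (.alt (nat_lit 6) (.cov (nat_lit 23067461480670560349)) .e))))) (.alt (nat_lit 2) (.cov (nat_lit 13844340132462723110)) (.alt (nat_lit 2) (.cov (nat_lit 13848381937206427742)) (.alt (nat_lit 2) (.cov (nat_lit 87633227379113984034)) (.alt (nat_lit 2) (.cov (nat_lit 13849538623438848036)) (.alt (nat_lit 2) (.cov (nat_lit 13850561169252679695)) (.alt (nat_lit 2) (.cov (nat_lit 13850792066694512647)) (.alt (nat_lit 2) (.cov (nat_lit 760944450419453591558)) (.alt (nat_lit 2) (.cov (nat_lit 6516329300706228961283)) (.alt (nat_lit 2) (.cov (nat_lit 6516329300706228961282)) (.alt (nat_lit 2) (.cov (nat_lit 96863062344700264449)) (.alt (nat_lit 2) (.exp (.alt (nat_lit 6) (.exp (.alt (nat_lit 10) (.cov (nat_lit 534960486360396333521)) (.alt (nat_lit 10) (.cov (nat_lit 18450047018142269657)) (.alt (nat_lit 10) (.cov (nat_lit 24073009458241538621533))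 (.alt (nat_lit 10) (.cov (nat_lit 18452316398934818851)) (.alt (nat_lit 10) (.cov (nat_lit 32289463526209093648)) (.alt (nat_lit 10) (.cov (nat_lit 32290848910960754706)) (.alt (nat_lit 10) (.cov (nat_lit 7839878477687264641035)) (.alt (nat_lit 10) (.cov (nat_lit 59965637945823592454)) (.alt (nat_lit 10) (.cov (nat_lit 6377977161045921234947)) (.alt (nat_lit 10) (.cov (nat_lit 59964507647870238722)) (.alt (nat_lit 10) (.cov (nat_lit 21873242517213479436289)) (.alt (nat_lit 10) (.cov (nat_lit 1353547031775188877312)) (.alt (nat_lit 10) (.exp (.alt (nat_lit 11) (.exp (.alt (nat_lit 9) (.cov (nat_lit 14415726687792554314908207168880642)) (.alt (nat_lit 9) (.cov (nat_lit 102684775246176640949349377246232577)) (.alt (nat_lit 9) (.cov (nat_lit 8736653957226400267189182224400384)) (.alt (nat_lit 9) (.cov (nat_lit 29060542246679349297245)) .e))))) (.alt (nat_lit 11) (.cov (nat_lit 1348920302239965249574)) (.alt (nat_lit 11) (.cov (nat_lit 21935487842985960276064)) (.alt (nat_lit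 11) (.cov (nat_lit 2898451732444360998946)) (.alt (nat_lit 11) (.cov (nat_lit 21714133313259018649636)) (.alt (nat_lit 11) (.cov (nat_lit 21714135156042184523791)) (.alt (nat_lit 11) (.cov (nat_lit 21714134621679097217031)) (.alt (nat_lit 11) (.cov (nat_lit 4079049242144372948998)) (.alt (nat_lit 11) (.cov (nat_lit 21534281582754063712259)) (.alt (nat_lit 11) (.cov (nat_lit 3931476842065114955778)) (.alt (nat_lit 11) (.cov (nat_lit 136060150498219524097)) (.alt (nat_lit 11) (.cov (nat_lit 2644818756295044628480)) (.alt (nat_lit 11) (.cov (nat_lit 2895126047)) .e)))))))))))))) .e)))))))))))))) .e)) (.alt (nat_lit 2) (.cov (nat_lit 10374619178)) .e)))))))))))))))) .e)) .e)) (.alt (nat_lit 0) (.cov (nat_lit 4630258968844828672)) (.alt (nat_lit 0) (.exp (.alt (nat_lit 1) (.cov (nat_lit 6928249266029724677)) (.alt (nat_lit 1) (.exp (.alt (nat_lit 3) (.cov (nat_lit 86220067198986643517531613036550)) (.alt (nat_lit 3) (.cov (nat_lit 180477974089884401042061238092169219)) (.alt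 (nat_lit 3) (.cov (nat_lit 86220067199355578451782362202114)) (.alt (nat_lit 3) (.cov (nat_lit 14324474616769916929250282301292545)) (.alt (nat_lit 3) (.cov (nat_lit 63793271664276827558014678636429312)) (.alt (nat_lit 3) (.exp (.alt (nat_lit 2) (.cov (nat_lit 894581051478116553642489579984388102)) (.alt (nat_lit 2) (.cov (nat_lit 207914544163725920805142503882755)) (.alt (nat_lit 2) (.cov (nat_lit 14324474616771242788850837802188801)) (.alt (nat_lit 2) (.cov (nat_lit 14324474616769914623409472109805568)) (.alt (nat_lit 2) (.exp (.alt (nat_lit 6) (.cov (nat_lit 803878115725752120531266911275581442)) (.alt (nat_lit 6) (.cov (nat_lit 105351928980822763329234970888634369)) (.alt (nat_lit 6) (.cov (nat_lit 6860544889325779764779958149316608)) (.alt (nat_lit 6) (.cov (nat_lit 6514016884816521199709)) .e))))) .e)))))) .e))))))) (.alt (nat_lit 1) (.cov (nat_lit 350126131051947352916475)) (.alt (nat_lit 1) (.cov (nat_lit 39210310892939903950)) (.alt (nat_lit 1) (.exp (.alt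 (nat_lit 3) (.cov (nat_lit 248489687597512629665333293088770)) (.alt (nat_lit 3) (.cov (nat_lit 248489673090402794300778312892417)) (.alt (nat_lit 3) (.cov (nat_lit 25377625734295752936688562733056)) (.alt (nat_lit 3) (.cov (nat_lit 11540408074459152477)) .e))))) (.alt (nat_lit 1) (.cov (nat_lit 6934010706959269926)) (.alt (nat_lit 1) (.cov (nat_lit 11540410273513865682)) (.alt (nat_lit 1) (.cov (nat_lit 6932928787517538398)) (.alt (nat_lit 1) (.cov (nat_lit 6933825989609783330)) (.alt (nat_lit 1) (.cov (nat_lit 6647761652942017396772)) (.alt (nat_lit 1) (.cov (nat_lit 597230296054679732239)) (.alt (nat_lit 1) (.cov (nat_lit 6935407086726545415)) (.alt (nat_lit 1) (.cov (nat_lit 104563079897680731701259)) (.alt (nat_lit 1) (.cov (nat_lit 6647763058117873500166)) (.alt (nat_lit 1) (.exp (.alt (nat_lit 3) (.exp (.alt (nat_lit 2) (.exp (.alt (nat_lit 6) (.exp (.alt (nat_lit 5) (.cov (nat_lit 350149181774462983340497)) (.alt (nat_lit 5) (.cov (nat_lit 104659913255619373564121))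 (.alt (nat_lit 5) (.cov (nat_lit 104586128438765305200733)) (.alt (nat_lit 5) (.cov (nat_lit 104586130387099943174180)) (.alt (nat_lit 5) (.cov (nat_lit 63265425625718448979984)) (.alt (nat_lit 5) (.cov (nat_lit 104586130387099909619730)) (.alt (nat_lit 5) (.cov (nat_lit 63265425625718281207819)) (.alt (nat_lit 5) (.cov (nat_lit 1800877848773822251014)) (.alt (nat_lit 5) (.cov (nat_lit 599534663519335088131)) (.alt (nat_lit 5) (.cov (nat_lit 1800879034047356993538)) (.alt (nat_lit 5) (.cov (nat_lit 48437643357499424769)) (.alt (nat_lit 5) (.cov (nat_lit 620288726146811428864)) (.alt (nat_lit 5) (.exp (.alt (nat_lit 4) (.exp (.alt (nat_lit 12) (.cov (nat_lit 3022083092934917361939619585720322)) (.alt (nat_lit 12) (.cov (nat_lit 3995640712370025317999345821286401)) (.alt (nat_lit 12) (.cov (nat_lit 3995640712380134133769330808061952)) (.alt (nat_lit 12) (.cov (nat_lit 344262364077164739952733)) .e))))) (.alt (nat_lit 4) (.cov (nat_lit 350146875931453768597542)) (.alt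 (nat_lit 4) (.cov (nat_lit 350146875931453735043166)) (.alt (nat_lit 4) (.cov (nat_lit 45406667602898406342690)) (.alt (nat_lit 4) (.cov (nat_lit 45406667602897835917348)) (.alt (nat_lit 4) (.cov (nat_lit 1577205643093661974543)) (.alt (nat_lit 4) (.cov (nat_lit 1577207604622405926919)) (.alt (nat_lit 4) (.cov (nat_lit 6668511047043185115142)) (.alt (nat_lit 4) (.cov (nat_lit 6668511750730660446211)) (.alt (nat_lit 4) (.cov (nat_lit 46130579890377850882)) (.alt (nat_lit 4) (.cov (nat_lit 1448084822740244103169)) (.alt (nat_lit 4) (.cov (nat_lit 22034652082012302606336)) (.alt (nat_lit 7) (.cov (nat_lit 292560422)) .e)))))))))))))) .e)))))))))))))) .e)) .e)) .e)) (.alt (nat_lit 1) (.cov (nat_lit 375870385317928239106)) (.alt (nat_lit 1) (.cov (nat_lit 3922257065429982773249)) (.alt (nat_lit 1) (.exp (.alt (nat_lit 3) (.exp (.alt (nat_lit 5) (.exp (.alt (nat_lit 7) (.cov (nat_lit 1688529274990298165587432514256902)) (.alt (nat_lit 7) (.cov (nat_lit 56045386988598258509491074652700675))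 (.alt (nat_lit 7) (.cov (nat_lit 14669268316848732699832627317702657)) (.alt (nat_lit 7) (.cov (nat_lit 229987328644993297133470975973654528)) (.alt (nat_lit 7) (.exp (.alt (nat_lit 6) (.cov (nat_lit 56045386988599605121788664239620098)) (.alt (nat_lit 6) (.cov (nat_lit 6272350716716901131065384054554625)) (.alt (nat_lit 6) (.cov (nat_lit 229987328644993294827460840988344320)) (.alt (nat_lit 6) (.cov (nat_lit 104586128438765306249309)) .e))))) .e)))))) (.alt (nat_lit 5) (.cov (nat_lit 104586130387100245164497)) (.alt (nat_lit 5) (.cov (nat_lit 365570667507869436346462)) (.alt (nat_lit 5) (.cov (nat_lit 9230529857573617891)) (.alt (nat_lit 5) (.cov (nat_lit 3034498440310710862041)) (.alt (nat_lit 5) (.cov (nat_lit 378169259622461866077)) (.alt (nat_lit 5) (.cov (nat_lit 29989703015315013667)) (.alt (nat_lit 5) (.cov (nat_lit 29990811323035811856)) (.alt (nat_lit 5) (.cov (nat_lit 6670820083034152239111)) (.alt (nat_lit 5) (.cov (nat_lit 6428704084369473536018)) (.alt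 (nat_lit 5) (.cov (nat_lit 6502491203600982736907)) (.alt (nat_lit 5) (.cov (nat_lit 6502493017795168567302)) (.alt (nat_lit 5) (.cov (nat_lit 620288726146814574595)) (.alt (nat_lit 5) (.cov (nat_lit 21850184146495143411714)) (.alt (nat_lit 5) (.exp (.alt (nat_lit 7) (.exp (.alt (nat_lit 6) (.exp (.alt (nat_lit 4) (.exp (.alt (nat_lit 12) (.cov (nat_lit 263675386838244067422609325686786)) (.alt (nat_lit 12) (.cov (nat_lit 894636811310129501643047302330318849)) (.alt (nat_lit 12) (.cov (nat_lit 894636811310129501643069292568117248)) (.alt (nat_lit 12) (.cov (nat_lit 3071385689832873263197)) .e))))) (.alt (nat_lit 4) (.cov (nat_lit 47915421027796609138726)) (.alt (nat_lit 4) (.cov (nat_lit 350146875931453735043166)) (.alt (nat_lit 4) (.cov (nat_lit 45406667602897835917346)) (.alt (nat_lit 4) (.cov (nat_lit 45406667602897802362916)) (.alt (nat_lit 4) (.cov (nat_lit 396614022376384888847)) (.alt (nat_lit 4) (.cov (nat_lit 396615983904961069063)) (.alt (nat_lit 4) (.cov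 (nat_lit 46127839907569205254)) (.alt (nat_lit 4) (.cov (nat_lit 46130579890545623043)) (.alt (nat_lit 4) (.cov (nat_lit 25428851076225772290050)) (.alt (nat_lit 4) (.cov (nat_lit 2997611324931812884481)) (.alt (nat_lit 4) (.cov (nat_lit 415068566385405722624)) (.alt (nat_lit 4) (.cov (nat_lit 281026079)) .e)))))))))))))) .e)) .e)) (.alt (nat_lit 5) (.cov (nat_lit 237519666226640453632)) (.alt (nat_lit 5) (.exp (.alt (nat_lit 7) (.exp (.alt (nat_lit 6) (.cov (nat_lit 6607002177110327858234874876919814)) (.alt (nat_lit 6) (.cov (nat_lit 16829342976300673158585101823508483)) (.alt (nat_lit 6) (.cov (nat_lit 6607002177110401645233159947681794)) (.alt (nat_lit 6) (.cov (nat_lit 3524079486128145096331292808577025)) (.alt (nat_lit 6) (.exp (.alt (nat_lit 4) (.cov (nat_lit 25509546121535026102365)) .e)) (.alt (nat_lit 6) (.exp (.alt (nat_lit 4) (.cov (nat_lit 6607002177110323246548846146224131)) (.alt (nat_lit 4) (.cov (nat_lit 6607002177110101885622170956070914)) (.alt (nat_lit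 4) (.cov (nat_lit 48145377045387542322263014653296641)) (.alt (nat_lit 4) (.cov (nat_lit 3524079486102979125730923820089344)) (.alt (nat_lit 4) (.cov (nat_lit 25509546121535024005214)) .e)))))) .e))))))) (.alt (nat_lit 7) (.exp (.alt (nat_lit 6) (.cov (nat_lit 105422910083510905112354605120880642)) (.alt (nat_lit 6) (.cov (nat_lit 603413441304981169815413734768641)) (.alt (nat_lit 6) (.cov (nat_lit 603413441304981169837394213470208)) (.alt (nat_lit 6) (.cov (nat_lit 4332686167920181510237)) .e))))) (.alt (nat_lit 7) (.cov (nat_lit 235206702780245868582)) (.alt (nat_lit 7) (.cov (nat_lit 235203122781827891666)) (.alt (nat_lit 7) (.cov (nat_lit 1637157567941800099934)) (.alt (nat_lit 7) (.cov (nat_lit 235205260222231740450)) (.alt (nat_lit 7) (.cov (nat_lit 53045368935136886820)) (.alt (nat_lit 7) (.cov (nat_lit 126835087411974766607)) (.alt (nat_lit 7) (.cov (nat_lit 343900358759967969247239)) (.alt (nat_lit 7) (.cov (nat_lit 643343921476479746059)) (.alt (nat_lit 7)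 (.cov (nat_lit 21893994785449504145414)) (.alt (nat_lit 7) (.cov (nat_lit 3152103679562530947075)) (.alt (nat_lit 7) (.cov (nat_lit 21893995926742573776898)) (.alt (nat_lit 7) (.cov (nat_lit 1823938792359288897537)) (.alt (nat_lit 7) (.cov (nat_lit 274413193956480253952)) (.alt (nat_lit 7) (.exp (.alt (nat_lit 6) (.cov (nat_lit 22832462359065916342737)) (.alt (nat_lit 6) (.cov (nat_lit 406893674002295579214041)) (.alt (nat_lit 6) (.cov (nat_lit 7632348767363524460637)) (.alt (nat_lit 6) (.cov (nat_lit 622588145812000210979)) (.alt (nat_lit 6) (.cov (nat_lit 622583294766698463248)) (.alt (nat_lit 6) (.cov (nat_lit 32290842313886793746)) (.alt (nat_lit 6) (.cov (nat_lit 622588603206220120075)) (.alt (nat_lit 6) (.cov (nat_lit 622592071065625690118)) (.alt (nat_lit 6) (.cov (nat_lit 599534663519302582275)) (.alt (nat_lit 6) (.cov (nat_lit 622593256339160432642)) (.alt (nat_lit 6) (.cov (nat_lit 1332792991137933557761)) (.alt (nat_lit 6) (.cov (nat_lit 1803186189873436426240))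 (.alt (nat_lit 6) (.exp (.alt (nat_lit 4) (.exp (.alt (nat_lit 12) (.cov (nat_lit 263675386838244067422609325686786)) (.alt (nat_lit 12) (.cov (nat_lit 894636811310129501643047302330318849)) (.alt (nat_lit 12) (.cov (nat_lit 894636811310129501643069292568117248)) (.alt (nat_lit 12) (.cov (nat_lit 3071385689832873263197)) .e))))) (.alt (nat_lit 4) (.cov (nat_lit 47915421027796609138726)) (.alt (nat_lit 4) (.cov (nat_lit 350146875931453735043166)) (.alt (nat_lit 4) (.cov (nat_lit 45406667602897835917346)) (.alt (nat_lit 4) (.cov (nat_lit 45406667602897802362916)) (.alt (nat_lit 4) (.cov (nat_lit 396614022376384888847)) (.alt (nat_lit 4) (.cov (nat_lit 396615983904961069063)) (.alt (nat_lit 4) (.cov (nat_lit 46127839907569205254)) (.alt (nat_lit 4) (.cov (nat_lit 46130579890545623043)) (.alt (nat_lit 4) (.cov (nat_lit 25428851076225772290050)) (.alt (nat_lit 4) (.cov (nat_lit 2997611324931812884481)) (.alt (nat_lit 4) (.cov (nat_lit 415068566385405722624)) (.alt (nat_lit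 4) (.cov (nat_lit 281026079)) .e)))))))))))))) .e)))))))))))))) .e))))))))))))))))) .e)))))))))))))))))) .e)) (.alt (nat_lit 1) (.exp (.alt (nat_lit 3) (.exp (.alt (nat_lit 2) (.cov (nat_lit 99845247461849711773807768347082759)) (.alt (nat_lit 2) (.cov (nat_lit 22285313098799682793265468803121155)) (.alt (nat_lit 2) (.cov (nat_lit 63985947263249002133170573247774721)) (.alt (nat_lit 2) (.exp (.alt (nat_lit 6) (.exp (.alt (nat_lit 10) (.cov (nat_lit 1333589747220536157154882258731010)) (.alt (nat_lit 10) (.cov (nat_lit 1658102855876743909951922155552769)) (.alt (nat_lit 10) (.cov (nat_lit 48388777498721538226376395473289216)) (.alt (nat_lit 10) (.cov (nat_lit 606443796676426596445)) .e))))) .e)) (.alt (nat_lit 2) (.cov (nat_lit 47913119105645690225147)) .e)))))) (.alt (nat_lit 3) (.cov (nat_lit 10134189043688575861711)) (.alt (nat_lit 3) (.cov (nat_lit 22825547607404375441874)) (.alt (nat_lit 3) (.cov (nat_lit 16148382146219737315)) (.alt (nat_lit 3) (.cov (nat_lit 742490713461795848409))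 (.alt (nat_lit 3) (.cov (nat_lit 4625418918678233181)) (.alt (nat_lit 3) (.cov (nat_lit 4627083579442069539)) (.alt (nat_lit 3) (.cov (nat_lit 4628238066651234320)) (.alt (nat_lit 3) (.cov (nat_lit 4625612432724721682)) (.alt (nat_lit 3) (.cov (nat_lit 21476637519628727222283)) (.alt (nat_lit 3) (.cov (nat_lit 1775516075961898500102)) (.alt (nat_lit 3) (.cov (nat_lit 4629350772246577155)) (.alt (nat_lit 3) (.exp (.alt (nat_lit 2) (.exp (.alt (nat_lit 6) (.exp (.alt (nat_lit 10) (.exp (.alt (nat_lit 7) (.exp (.alt (nat_lit 5) (.cov (nat_lit 14395444278182925899404378018676738)) (.alt (nat_lit 5) (.cov (nat_lit 102664492836572980055553402296336385)) (.alt (nat_lit 5) (.cov (nat_lit 47820857263463159950763498597777408)) (.alt (nat_lit 5) (.cov (nat_lit 1897711598186057957469)) .e))))) (.alt (nat_lit 7) (.cov (nat_lit 21483541458703029895206)) (.alt (nat_lit 7) (.cov (nat_lit 344227776926805138604128)) (.alt (nat_lit 7) (.cov (nat_lit 41848751844082075041826)) (.alt (nat_lit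 7) (.cov (nat_lit 3922248654167393435684)) (.alt (nat_lit 7) (.cov (nat_lit 3922250496957404413967)) (.alt (nat_lit 7) (.cov (nat_lit 3922249962584988975111)) (.alt (nat_lit 7) (.cov (nat_lit 46644911192229159108614)) (.alt (nat_lit 7) (.cov (nat_lit 1381213682235467628547)) (.alt (nat_lit 7) (.cov (nat_lit 21704914757084263743490)) (.alt (nat_lit 7) (.cov (nat_lit 1823937233251799662593)) (.alt (nat_lit 7) (.cov (nat_lit 200625166528524845056)) (.alt (nat_lit 7) (.cov (nat_lit 173022751)) .e)))))))))))))) .e)) .e)) .e)) (.alt (nat_lit 3) (.cov (nat_lit 1554156024487662845953)) (.alt (nat_lit 3) (.cov (nat_lit 16159205734077169664)) (.alt (nat_lit 3) (.exp (.alt (nat_lit 2) (.cov (nat_lit 13844757946881278459)) (.alt (nat_lit 2) (.cov (nat_lit 96849014984324154314)) (.alt (nat_lit 2) (.exp (.alt (nat_lit 6) (.cov (nat_lit 224982651488426902106989685666480130)) (.alt (nat_lit 6) (.cov (nat_lit 135861743540073129552204323056779265)) (.alt (nat_lit 6) (.cov (nat_lit 50725884242544533773735325335552))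 (.alt (nat_lit 6) (.cov (nat_lit 23067461480670560349)) .e))))) (.alt (nat_lit 2) (.cov (nat_lit 13844340132462723110)) (.alt (nat_lit 2) (.cov (nat_lit 13848381937206427742)) (.alt (nat_lit 2) (.cov (nat_lit 87633227379113984034)) (.alt (nat_lit 2) (.cov (nat_lit 13849538623438848036)) (.alt (nat_lit 2) (.cov (nat_lit 13850561169252679695)) (.alt (nat_lit 2) (.cov (nat_lit 13850792066694512647)) (.alt (nat_lit 2) (.cov (nat_lit 760944450419453591558)) (.alt (nat_lit 2) (.cov (nat_lit 6516329300706228961283)) (.alt (nat_lit 2) (.cov (nat_lit 6516329300706228961282)) (.alt (nat_lit 2) (.cov (nat_lit 96863062344700264449)) (.alt (nat_lit 2) (.exp (.alt (nat_lit 6) (.exp (.alt (nat_lit 10) (.cov (nat_lit 534960486360396333521)) (.alt (nat_lit 10) (.cov (nat_lit 18450047018142269657)) (.alt (nat_lit 10) (.cov (nat_lit 24073009458241538621533)) (.alt (nat_lit 10) (.cov (nat_lit 18452316398934818851)) (.alt (nat_lit 10) (.cov (nat_lit 32289463526209093648)) (.alt (nat_lit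 10) (.cov (nat_lit 32290848910960754706)) (.alt (nat_lit 10) (.cov (nat_lit 7839878477687264641035)) (.alt (nat_lit 10) (.cov (nat_lit 59965637945823592454)) (.alt (nat_lit 10) (.cov (nat_lit 6377977161045921234947)) (.alt (nat_lit 10) (.cov (nat_lit 59964507647870238722)) (.alt (nat_lit 10) (.cov (nat_lit 21873242517213479436289)) (.alt (nat_lit 10) (.cov (nat_lit 1353547031775188877312)) (.alt (nat_lit 10) (.exp (.alt (nat_lit 11) (.exp (.alt (nat_lit 9) (.cov (nat_lit 14415726687792554314908207168880642)) (.alt (nat_lit 9) (.cov (nat_lit 102684775246176640949349377246232577)) (.alt (nat_lit 9) (.cov (nat_lit 8736653957226400267189182224400384)) (.alt (nat_lit 9) (.cov (nat_lit 29060542246679349297245)) .e))))) (.alt (nat_lit 11) (.cov (nat_lit 1348920302239965249574)) (.alt (nat_lit 11) (.cov (nat_lit 21935487842985960276064)) (.alt (nat_lit 11) (.cov (nat_lit 2898451732444360998946)) (.alt (nat_lit 11) (.cov (nat_lit 21714133313259018649636)) (.alt (nat_lit 11)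 (.cov (nat_lit 21714135156042184523791)) (.alt (nat_lit 11) (.cov (nat_lit 21714134621679097217031)) (.alt (nat_lit 11) (.cov (nat_lit 4079049242144372948998)) (.alt (nat_lit 11) (.cov (nat_lit 21534281582754063712259)) (.alt (nat_lit 11) (.cov (nat_lit 3931476842065114955778)) (.alt (nat_lit 11) (.cov (nat_lit 136060150498219524097)) (.alt (nat_lit 11) (.cov (nat_lit 2644818756295044628480)) (.alt (nat_lit 11) (.cov (nat_lit 2895126047)) .e)))))))))))))) .e)))))))))))))) .e)) (.alt (nat_lit 2) (.cov (nat_lit 10374619178)) .e)))))))))))))))) .e))))))))))))))))) .e)))))))))))))))))))) .e))))))))))))))))))))) .e)),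
      .rot (.exp (.alt (nat_lit 15) (.exp (.alt (nat_lit 0) (.cov (nat_lit 406789915174812753331873)) (.alt (nat_lit 0) (.exp (.alt (nat_lit 1) (.cov (nat_lit 81153783081161341293992501837831)) (.alt (nat_lit 1) (.cov (nat_lit 14157148697982099259535440101769219)) (.alt (nat_lit 1) (.cov (nat_lit 40581657126231919794054168051713)) (.alt (nat_lit 1) (.exp (.alt (nat_lit 3) (.exp (.alt (nat_lit 5) (.cov (nat_lit 14643916557249809752488090050494466)) (.alt (nat_lit 5) (.cov (nat_lit 53261634399314091059278342719012865)) (.alt (nat_lit 5) (.cov (nat_lit 47907078278457159902747211635621888)) (.alt (nat_lit 5) (.cov (nat_lit 1715559383642869334109)) .e))))) .e)) (.alt (nat_lit 1) (.cov (nat_lit 534967762926326252027)) .e)))))) (.alt (nat_lit 0) (.exp (.alt (nat_lit 1) (.exp (.alt (nat_lit 3) (.exp (.alt (nat_lit 2) (.exp (.alt (nat_lit 6) (.exp (.alt (nat_lit 10) (.exp (.alt (nat_lit 5) (.exp (.alt (nat_lit 4) (.exp (.alt (nat_lit 12) (.exp (.alt (nat_lit 20) (.exp (.alt (nat_lit 16) (.exp (.alt (nat_lit 17) (.cov (nat_lit 14370087513774323351007095675682817)) (.alt (nat_lit 17) (.exp (.alt (nat_lit 21) (.exp (.alt (nat_lit 23) (.exp (.alt (nat_lit 29) (.exp (.alt (nat_lit 13) (.exp (.alt (nat_lit 9) (.exp (.alt (nat_lit 18) (.cov (nat_lit 59951927045436473345)) (.alt (nat_lit 18) (.exp (.alt (nat_lit 26) (.cov (nat_lit 136044748538755678208)) (.alt (nat_lit 22) (.cov (nat_lit 635437064)) .e))) .e))) .e)) .e)) .e)) .e)) (.alt (nat_lit 21) (.cov (nat_lit 6534759229008343203847)) .e))) .e))) (.alt (nat_lit 16) (.cov (nat_lit 793210415183139176463)) (.alt (nat_lit 16) (.exp (.alt (nat_lit 17) (.exp (.alt (nat_lit 19) (.exp (.alt (nat_lit 18) (.exp (.alt (nat_lit 23) (.exp (.alt (nat_lit 24) (.cov (nat_lit 104616097345638142836738)) (.alt (nat_lit 24) (.cov (nat_lit 1388117524688382459905)) (.alt (nat_lit 24) (.cov (nat_lit 3156699314909062627328)) (.alt (nat_lit 24) (.exp (.alt (nat_lit 26) (.cov (nat_lit 69175299091456851971)) (.alt (nat_lit 26) (.cov (nat_lit 406849858092293783814145)) (.alt (nat_lit 26) (.cov (nat_lit 406849858107677182263296)) (.alt (nat_lit 26) (.exp (.alt (nat_lit 27) (.cov (nat_lit 71481142238107402241)) (.alt (nat_lit 30) (.cov (nat_lit 185018089487)) .e))) .e))))) .e))))) .e)) .e)) .e)) .e)) (.alt (nat_lit 8) (.cov (nat_lit 1826230959653751095299)) (.alt (nat_lit 8) (.cov (nat_lit 55347297682891735041)) (.alt (nat_lit 8) (.exp (.alt (nat_lit 9) (.exp (.alt (nat_lit 24) (.cov (nat_lit 1607172610407310295051)) (.alt (nat_lit 24) (.cov (nat_lit 1607172722557496328198)) (.alt (nat_lit 24) (.cov (nat_lit 104689884724334875901954)) (.alt (nat_lit 24) (.cov (nat_lit 1607174424601496125441)) (.alt (nat_lit 24) (.cov (nat_lit 25440369216990562222080)) (.alt (nat_lit 24) (.exp (.alt (nat_lit 16) (.cov (nat_lit 260560293036447236103)) (.alt (nat_lit 16) (.cov (nat_lit 6534759228850389909507)) (.alt (nat_lit 25) (.cov (nat_lit 21903203164534338486273)) (.alt (nat_lit 25) (.exp (.alt (nat_lit 17) (.exp (.alt (nat_lit 27) (.cov (nat_lit 412745916241469767682)) (.alt (nat_lit 27) (.cov (nat_lit 6537064964106237247489)) (.alt (nat_lit 27) (.cov (nat_lit 2847716263713481687040)) (.alt (nat_lit 27) (.exp (.alt (nat_lit 19) (.cov (nat_lit 2845410282166989881347)) (.alt (nat_lit 19) (.cov (nat_lit 21525044508611802300417)) (.alt (nat_lit 19) (.cov (nat_lit 21525044523995200749568)) (.alt (nat_lit 19) (.exp (.alt (nat_lit 23) (.cov (nat_lit 2854633654202712195073)) (.alt (nat_lit 18) (.cov (nat_lit 2908749839)) .e))) .e))))) .e))))) .e)) (.alt (nat_lit 16) (.cov (nat_lit 11560551899)) .e)))))) .e))))))) .e)) (.alt (nat_lit 8) (.exp (.alt (nat_lit 24) (.cov (nat_lit 25587940016180890173451)) (.alt (nat_lit 24) (.cov (nat_lit 110682311642454163458)) (.alt (nat_lit 9) (.cov (nat_lit 1828536802798696660993)) (.alt (nat_lit 9) (.cov (nat_lit 59772932)) .e))))) .e)))))))) .e)) .e)) .e)) .e)) .e)) .e)) .e)) .e)) (.alt (nat_lit 1) (.exp (.alt (nat_lit 3) (.exp (.alt (nat_lit 5) (.exp (.alt (nat_lit 7) (.exp (.alt (nat_lit 6) (.exp (.alt (nat_lit 23) (.exp (.alt (nat_lit 4) (.exp (.alt (nat_lit 12) (.exp (.alt (nat_lit 20) (.exp (.alt (nat_lit 8) (.exp (.alt (nat_lit 9) (.exp (.alt (nat_lit 13) (.exp (.alt (nat_lit 29) (.exp (.alt (nat_lit 25) (.exp (.alt (nat_lit 24) (.exp (.alt (nat_lit 17) (.exp (.alt (nat_lit 10) (.cov (nat_lit 2863857026395876098049)) (.alt (nat_lit 10) (.exp (.alt (nat_lit 26) (.cov (nat_lit 6387185146517079982080)) (.alt (nat_lit 11) (.cov (nat_lit 2981101576)) .e))) .e))) .e)) .e)) .e)) .e)) .e)) (.alt (nat_lit 9) (.exp (.alt (nat_lit 25) (.exp (.alt (nat_lit 17) (.exp (.alt (nat_lit 24) (.exp (.alt (nat_lit 28) (.exp (.alt (nat_lit 29) (.exp (.alt (nat_lit 10) (.cov (nat_lit 6405631888548113154049)) (.alt (nat_lit 10) (.exp (.alt (nat_lit 26) (.cov (nat_lit 1464210321845843394560)) (.alt (nat_lit 14) (.cov (nat_lit 9963569160)) .e))) .e))) .e)) .e)) .e)) .e)) (.alt (nat_lit 13) (.exp (.alt (nat_lit 29) (.exp (.alt (nat_lit 31) (.exp (.alt (nat_lit 27) (.exp (.alt (nat_lit 30) (.exp (.alt (nat_lit 24) (.cov (nat_lit 365379271562779626045441)) (.alt (nat_lit 10) (.cov (nat_lit 11502878735)) .e))) .e)) .e)) .e)) .e)) .e))) .e))) (.alt (nat_lit 8) (.cov (nat_lit 6368739693272967938063)) (.alt (nat_lit 8) (.exp (.alt (nat_lit 24) (.exp (.alt (nat_lit 25) (.exp (.alt (nat_lit 17) (.exp (.alt (nat_lit 29) (.exp (.alt (nat_lit 10) (.cov (nat_lit 2863857035219450200066)) (.alt (nat_lit 10) (.exp (.alt (nat_lit 11) (.exp (.alt (nat_lit 9) (.exp (.alt (nat_lit 26) (.cov (nat_lit 438110182745737003008)) (.alt (nat_lit 2) (.cov (nat_lit 656408584)) .e))) .e)) .e)) (.alt (nat_lit 9) (.cov (nat_lit 541873252300766576640)) (.alt (nat_lit 9) (.exp (.alt (nat_lit 11) (.cov (nat_lit 365342378074632822456323)) (.alt (nat_lit 11) (.cov (nat_lit 6555511692787332415489)) (.alt (nat_lit 11) (.cov (nat_lit 6555511708179891224576)) (.alt (nat_lit 11) (.exp (.alt (nat_lit 10) (.cov (nat_lit 428886808666205847553)) (.alt (nat_lit 10) (.exp (.alt (nat_lit 26) (.cov (nat_lit 438110182745737003008)) (.alt (nat_lit 2) (.cov (nat_lit 656408584)) .e))) .e))) .e))))) .e))))) .e)) .e)) .e)) .e)) (.alt (nat_lit 2) (.cov (nat_lit 21513518572299635130371)) (.alt (nat_lit 2) (.cov (nat_lit 344257756668241949753345)) (.alt (nat_lit 2) (.exp (.alt (nat_lit 10) (.exp (.alt (nat_lit 18) (.cov (nat_lit 23132217101417321594891)) (.alt (nat_lit 18) (.cov (nat_lit 7858313120535998889990)) (.alt (nat_lit 18) (.exp (.alt (nat_lit 16) (.exp (.alt (nat_lit 17) (.exp (.alt (nat_lit 24) (.exp (.alt (nat_lit 26) (.cov (nat_lit 69175299091456851971)) (.alt (nat_lit 26) (.cov (nat_lit 406849858092440383127553)) (.alt (nat_lit 26) (.cov (nat_lit 406849858107677182263296)) (.alt (nat_lit 26) (.exp (.alt (nat_lit 27) (.cov (nat_lit 71481142238107402241)) (.alt (nat_lit 30) (.cov (nat_lit 185018089487)) .e))) .e))))) .e)) .e)) .e)) (.alt (nat_lit 18) (.exp (.alt (nat_lit 16) (.exp (.alt (nat_lit 17) (.exp (.alt (nat_lit 26) (.cov (nat_lit 104611485659599252488195)) (.alt (nat_lit 26) (.exp (.alt (nat_lit 24) (.exp (.alt (nat_lit 27) (.cov (nat_lit 71481142238107402241)) (.alt (nat_lit 30) (.cov (nat_lit 185018089487)) .e))) .e)) (.alt (nat_lit 19) (.cov (nat_lit 900726975)) .e)))) .e)) .e)) (.alt (nat_lit 18) (.cov (nat_lit 21884760915264162234368)) (.alt (nat_lit 18) (.exp (.alt (nat_lit 16) (.cov (nat_lit 63274638048818383290375)) (.alt (nat_lit 16) (.cov (nat_lit 25585634173337805520899)) (.alt (nat_lit 16) (.cov (nat_lit 793210415183003910145)) (.alt (nat_lit 16) (.exp (.alt (nat_lit 17) (.exp (.alt (nat_lit 24) (.cov (nat_lit 654859432392746074114)) (.alt (nat_lit 24) (.cov (nat_lit 138350613694560337921)) (.alt (nat_lit 24) (.cov (nat_lit 25587940108539879489536)) (.alt (nat_lit 24) (.exp (.alt (nat_lit 28) (.cov (nat_lit 438110180712249294851)) (.alt (nat_lit 28) (.cov (nat_lit 47954617080365774274561)) (.alt (nat_lit 28) (.cov (nat_lit 47954617095602573410304)) (.alt (nat_lit 28) (.exp (.alt (nat_lit 29) (.cov (nat_lit 440416023712298434561)) (.alt (nat_lit 30) (.cov (nat_lit 185018089487)) .e))) .e))))) .e))))) .e)) (.alt (nat_lit 16) (.exp (.alt (nat_lit 24) (.cov (nat_lit 1388117524698146799618)) (.alt (nat_lit 17) (.cov (nat_lit 6698474084712076804097)) (.alt (nat_lit 17) (.exp (.alt (nat_lit 25) (.cov (nat_lit 1390423352194458714115)) (.alt (nat_lit 25) (.cov (nat_lit 25585634173171669139456)) (.alt (nat_lit 19) (.cov (nat_lit 900726975)) .e)))) .e)))) .e)))))) .e))))))) .e)) (.alt (nat_lit 2) (.exp (.alt (nat_lit 10) (.cov (nat_lit 42962467200557415137291)) (.alt (nat_lit 10) (.exp (.alt (nat_lit 11) (.exp (.alt (nat_lit 9) (.exp (.alt (nat_lit 27) (.exp (.alt (nat_lit 26) (.cov (nat_lit 6548594163769476644867)) (.alt (nat_lit 26) (.exp (.alt (nat_lit 18) (.exp (.alt (nat_lit 24) (.cov (nat_lit 64563613063867006977)) (.alt (nat_lit 30) (.cov (nat_lit 2982150159)) .e))) .e)) (.alt (nat_lit 26) (.exp (.alt (nat_lit 24) (.cov (nat_lit 64563613054093230082)) (.alt (nat_lit 18) (.cov (nat_lit 10385096771)) .e))) .e)))) .e)) .e)) .e)) (.alt (nat_lit 10) (.cov (nat_lit 59956791275098734593)) (.alt (nat_lit 10) (.exp (.alt (nat_lit 11) (.exp (.alt (nat_lit 9) (.exp (.alt (nat_lit 25) (.exp (.alt (nat_lit 17) (.exp (.alt (nat_lit 29) (.exp (.alt (nat_lit 27) (.cov (nat_lit 1609478429227271323649)) (.alt (nat_lit 27) (.exp (.alt (nat_lit 26) (.cov (nat_lit 22869350976376558059520)) (.alt (nat_lit 19) (.cov (nat_lit 119537672)) .e))) .e))) .e)) .e)) .e)) .e)) (.alt (nat_lit 11) (.cov (nat_lit 652553991641562611715)) (.alt (nat_lit 11) (.exp (.alt (nat_lit 9) (.exp (.alt (nat_lit 27) (.cov (nat_lit 1609478453416527134722)) (.alt (nat_lit 27) (.cov (nat_lit 1385811883842710011905)) (.alt (nat_lit 27) (.exp (.alt (nat_lit 19) (.cov (nat_lit 1441151898361131958275)) (.alt (nat_lit 26) (.exp (.alt (nat_lit 18) (.exp (.alt (nat_lit 24) (.cov (nat_lit 64563613063867006977)) (.alt (nat_lit 30) (.cov (nat_lit 2982150159)) .e))) .e)) (.alt (nat_lit 26) (.exp (.alt (nat_lit 24) (.cov (nat_lit 64563613054093230082)) (.alt (nat_lit 18) (.cov (nat_lit 10385096771)) .e))) .e)))) .e)))) .e)) (.alt (nat_lit 14) (.cov (nat_lit 9997126803)) .e))))) .e))))) .e)))))))) .e)) .e)) .e)) .e)) .e)) .e)) (.alt (nat_lit 5) (.exp (.alt (nat_lit 7) (.exp (.alt (nat_lit 6) (.exp (.alt (nat_lit 23) (.exp (.alt (nat_lit 19) (.exp (.alt (nat_lit 17) (.exp (.alt (nat_lit 18) (.exp (.alt (nat_lit 16) (.exp (.alt (nat_lit 20) (.cov (nat_lit 22351215692709215192143605440446465)) (.alt (nat_lit 20) (.exp (.alt (nat_lit 28) (.cov (nat_lit 22351215692709219803831813135138816)) (.alt (nat_lit 4) (.cov (nat_lit 10164156125507827531783)) .e))) .e))) (.alt (nat_lit 16) (.cov (nat_lit 343902650186190397898767)) (.alt (nat_lit 16) (.exp (.alt (nat_lit 20) (.exp (.alt (nat_lit 28) (.exp (.alt (nat_lit 12) (.exp (.alt (nat_lit 29) (.exp (.alt (nat_lit 24) (.cov (nat_lit 428886817305941508098)) (.alt (nat_lit 24) (.cov (nat_lit 10127262529452523913217)) (.alt (nat_lit 24) (.cov (nat_lit 29055928005392370499584)) (.alt (nat_lit 24) (.exp (.alt (nat_lit 8) (.cov (nat_lit 45402048860397581107203)) (.alt (nat_lit 8) (.cov (nat_lit 364014212510121238462465)) (.alt (nat_lit 8) (.cov (nat_lit 22749447161887662800896)) (.alt (nat_lit 8) (.exp (.alt (nat_lit 10) (.cov (nat_lit 428886808509885186049)) (.alt (nat_lit 9) (.cov (nat_lit 3467640847)) .e))) .e))))) .e))))) .e)) .e)) .e)) .e)) (.alt (nat_lit 16) (.exp (.alt (nat_lit 20) (.exp (.alt (nat_lit 4) (.exp (.alt (nat_lit 12) (.exp (.alt (nat_lit 24) (.cov (nat_lit 1607172610407301906434)) (.alt (nat_lit 24) (.cov (nat_lit 1976107606230702227457)) (.alt (nat_lit 24) (.exp (.alt (nat_lit 8) (.cov (nat_lit 22749447146660024025091)) (.alt (nat_lit 25) (.exp (.alt (nat_lit 9) (.exp (.alt (nat_lit 27) (.cov (nat_lit 71481142081729069057)) (.alt (nat_lit 29) (.cov (nat_lit 47579136015)) .e))) .e)) (.alt (nat_lit 25) (.exp (.alt (nat_lit 27) (.cov (nat_lit 71481142081729069058)) (.alt (nat_lit 9) (.cov (nat_lit 165535547459)) .e))) .e)))) .e)))) .e)) .e)) .e)) (.alt (nat_lit 4) (.cov (nat_lit 45406667602897802362881)) (.alt (nat_lit 4) (.exp (.alt (nat_lit 20) (.exp (.alt (nat_lit 12) (.cov (nat_lit 45411272256443302019083)) (.alt (nat_lit 12) (.cov (nat_lit 64563744995480174598)) (.alt (nat_lit 12) (.cov (nat_lit 64564024271433629698)) (.alt (nat_lit 12) (.cov (nat_lit 364023437711745407254529)) (.alt (nat_lit 12) (.cov (nat_lit 22053085838654660673536)) (.alt (nat_lit 12) (.exp (.alt (nat_lit 13) (.cov (nat_lit 140656456551990558727)) (.alt (nat_lit 13) (.cov (nat_lit 66869588004694917123)) (.alt (nat_lit 8) (.cov (nat_lit 793210415182963015681)) (.alt (nat_lit 8) (.exp (.alt (nat_lit 9) (.exp (.alt (nat_lit 24) (.cov (nat_lit 102107340151593010987010)) (.alt (nat_lit 10) (.cov (nat_lit 1609478453572882399233)) (.alt (nat_lit 10) (.cov (nat_lit 59952058977046495232)) (.alt (nat_lit 10) (.cov (nat_lit 362807487)) .e))))) .e)) (.alt (nat_lit 13) (.cov (nat_lit 156373091803)) .e)))))) .e))))))) .e)) (.alt (nat_lit 2) (.exp (.alt (nat_lit 10) (.cov (nat_lit 21785604896198572900363)) (.alt (nat_lit 10) (.exp (.alt (nat_lit 8) (.exp (.alt (nat_lit 9) (.exp (.alt (nat_lit 24) (.exp (.alt (nat_lit 26) (.cov (nat_lit 26706273750305922351107)) (.alt (nat_lit 26) (.exp (.alt (nat_lit 27) (.exp (.alt (nat_lit 30) (.cov (nat_lit 6410243574410210443265)) (.alt (nat_lit 30) (.exp (.alt (nat_lit 28) (.cov (nat_lit 343914178992208376496128)) (.alt (nat_lit 14) (.cov (nat_lit 157047324680)) .e))) .e))) .e)) (.alt (nat_lit 26) (.cov (nat_lit 3588227664)) .e)))) .e)) .e)) .e)) (.alt (nat_lit 10) (.cov (nat_lit 756321391052787286017)) (.alt (nat_lit 10) (.exp (.alt (nat_lit 8) (.exp (.alt (nat_lit 9) (.exp (.alt (nat_lit 25) (.exp (.alt (nat_lit 27) (.exp (.alt (nat_lit 24) (.exp (.alt (nat_lit 12) (.cov (nat_lit 25299709506045120348161)) (.alt (nat_lit 12) (.exp (.alt (nat_lit 28) (.cov (nat_lit 69175301271548067840)) (.alt (nat_lit 13) (.cov (nat_lit 298844168)) .e))) .e))) .e)) .e)) .e)) .e)) (.alt (nat_lit 14) (.cov (nat_lit 142962686585307398147)) (.alt (nat_lit 14) (.exp (.alt (nat_lit 12) (.exp (.alt (nat_lit 30) (.cov (nat_lit 406859081479715310010370)) (.alt (nat_lit 30) (.cov (nat_lit 25601775076435235438593)) (.alt (nat_lit 30) (.exp (.alt (nat_lit 31) (.cov (nat_lit 6560123378824098349059)) (.alt (nat_lit 28) (.exp (.alt (nat_lit 20) (.exp (.alt (nat_lit 29) (.cov (nat_lit 57646084027052982273)) (.alt (nat_lit 29) (.exp (.alt (nat_lit 25) (.cov (nat_lit 1826227674292371324928)) (.alt (nat_lit 13) (.cov (nat_lit 156373090312)) .e))) .e))) .e)) (.alt (nat_lit 31) (.cov (nat_lit 47006614096)) .e)))) .e)))) .e)) (.alt (nat_lit 11) (.cov (nat_lit 157044182163)) .e))))) .e))))) .e)))))))) .e)) .e)) .e)) .e)) .e)) .e)) .e))) .e)) .e))) (.alt (nat_lit 0) (.exp (.alt (nat_lit 1) (.exp (.alt (nat_lit 3) (.exp (.alt (nat_lit 2) (.exp (.alt (nat_lit 6) (.exp (.alt (nat_lit 5) (.exp (.alt (nat_lit 4) (.exp (.alt (nat_lit 12) (.exp (.alt (nat_lit 20) (.exp (.alt (nat_lit 16) (.cov (nat_lit 344345372969739088822306)) (.alt (nat_lit 8) (.exp (.alt (nat_lit 9) (.exp (.alt (nat_lit 25) (.exp (.alt (nat_lit 17) (.exp (.alt (nat_lit 27) (.exp (.alt (nat_lit 24) (.cov (nat_lit 654859447768193171458)) (.alt (nat_lit 24) (.cov (nat_lit 45660303411386108608513)) (.alt (nat_lit 10) (.exp (.alt (nat_lit 26) (.cov (nat_lit 1383505831916682084355)) (.alt (nat_lit 26) (.exp (.alt (nat_lit 24) (.exp (.alt (nat_lit 30) (.cov (nat_lit 419663436473051381761)) (.alt (nat_lit 18) (.cov (nat_lit 2908749839)) .e))) .e)) (.alt (nat_lit 26) (.exp (.alt (nat_lit 30) (.cov (nat_lit 64563615253290549250)) (.alt (nat_lit 24) (.cov (nat_lit 11504975939)) .e))) .e)))) .e)))) .e)) .e)) .e)) .e)) (.alt (nat_lit 8) (.cov (nat_lit 55347297682859229187)) (.alt (nat_lit 8) (.exp (.alt (nat_lit 9) (.exp (.alt (nat_lit 24) (.cov (nat_lit 6700779927711523012619)) (.alt (nat_lit 24) (.cov (nat_lit 36895335347617005570)) (.alt (nat_lit 10) (.cov (nat_lit 650251025090500100097)) (.alt (nat_lit 10) (.cov (nat_lit 27267076)) .e))))) .e)) (.alt (nat_lit 8) (.cov (nat_lit 848304222)) .e)))))) .e)) .e)) .e)) .e)) .e)) .e)) .e)) (.alt (nat_lit 1) (.exp (.alt (nat_lit 3) (.exp (.alt (nat_lit 5) (.exp (.alt (nat_lit 7) (.exp (.alt (nat_lit 6) (.exp (.alt (nat_lit 4) (.exp (.alt (nat_lit 12) (.exp (.alt (nat_lit 20) (.exp (.alt (nat_lit 16) (.cov (nat_lit 344345372969739088822306)) (.alt (nat_lit 2) (.cov (nat_lit 343870371260374058008583)) (.alt (nat_lit 2) (.cov (nat_lit 6387192200983696375811)) (.alt (nat_lit 2) (.exp (.alt (nat_lit 10) (.exp (.alt (nat_lit 18) (.cov (nat_lit 42028600764234219913227)) (.alt (nat_lit 18) (.exp (.alt (nat_lit 19) (.exp (.alt (nat_lit 17) (.exp (.alt (nat_lit 23) (.exp (.alt (nat_lit 26) (.cov (nat_lit 406849858092284724117507)) (.alt (nat_lit 26) (.exp (.alt (nat_lit 27) (.exp (.alt (nat_lit 24) (.cov (nat_lit 64563613210466320385)) (.alt (nat_lit 30) (.cov (nat_lit 47575990287)) .e))) .e)) (.alt (nat_lit 16) (.cov (nat_lit 360710335)) .e)))) .e)) .e)) .e)) (.alt (nat_lit 18) (.cov (nat_lit 1830844259734656122881)) (.alt (nat_lit 18) (.exp (.alt (nat_lit 19) (.exp (.alt (nat_lit 17) (.exp (.alt (nat_lit 25) (.exp (.alt (nat_lit 9) (.exp (.alt (nat_lit 29) (.exp (.alt (nat_lit 27) (.cov (nat_lit 6417161103437864108033)) (.alt (nat_lit 23) (.cov (nat_lit 200278031)) .e))) .e)) .e)) .e)) .e)) (.alt (nat_lit 16) (.cov (nat_lit 793210415183674998787)) (.alt (nat_lit 16) (.exp (.alt (nat_lit 17) (.exp (.alt (nat_lit 24) (.cov (nat_lit 654859447785908862978)) (.alt (nat_lit 24) (.cov (nat_lit 406919033507904787316737)) (.alt (nat_lit 24) (.exp (.alt (nat_lit 26) (.cov (nat_lit 26551782268690789040131)) (.alt (nat_lit 25) (.exp (.alt (nat_lit 9) (.exp (.alt (nat_lit 27) (.cov (nat_lit 71481142082341437441)) (.alt (nat_lit 27) (.exp (.alt (nat_lit 31) (.cov (nat_lit 142962277566389420032)) (.alt (nat_lit 19) (.cov (nat_lit 9788456968)) .e))) .e))) .e)) (.alt (nat_lit 26) (.cov (nat_lit 12141462096)) .e)))) .e)))) .e)) (.alt (nat_lit 16) (.cov (nat_lit 156482145426)) .e))))) .e))))) .e)) (.alt (nat_lit 2) (.cov (nat_lit 1386223707)) .e)))))) .e)) .e)) .e)) .e)) .e)) (.alt (nat_lit 5) (.exp (.alt (nat_lit 7) (.exp (.alt (nat_lit 6) (.exp (.alt (nat_lit 23) (.exp (.alt (nat_lit 19) (.exp (.alt (nat_lit 17) (.exp (.alt (nat_lit 16) (.cov (nat_lit 1964579545685046591522)) (.alt (nat_lit 2) (.cov (nat_lit 262869399386265223175)) (.alt (nat_lit 2) (.cov (nat_lit 404301908614973113761795)) (.alt (nat_lit 2) (.exp (.alt (nat_lit 18) (.exp (.alt (nat_lit 10) (.cov (nat_lit 21785604896198572900363)) (.alt (nat_lit 10) (.exp (.alt (nat_lit 8) (.exp (.alt (nat_lit 9) (.exp (.alt (nat_lit 24) (.exp (.alt (nat_lit 26) (.cov (nat_lit 26706273750305922351107)) (.alt (nat_lit 26) (.exp (.alt (nat_lit 27) (.exp (.alt (nat_lit 30) (.cov (nat_lit 6410243574410210443265)) (.alt (nat_lit 30) (.exp (.alt (nat_lit 28) (.cov (nat_lit 343914178992208376496128)) (.alt (nat_lit 14) (.cov (nat_lit 157047324680)) .e))) .e))) .e)) (.alt (nat_lit 26) (.cov (nat_lit 3588227664)) .e)))) .e)) .e)) .e)) (.alt (nat_lit 10) (.cov (nat_lit 756321391052787286017)) (.alt (nat_lit 10) (.exp (.alt (nat_lit 8) (.exp (.alt (nat_lit 9) (.exp (.alt (nat_lit 25) (.exp (.alt (nat_lit 27) (.exp (.alt (nat_lit 24) (.exp (.alt (nat_lit 12) (.cov (nat_lit 25299709506045120348161)) (.alt (nat_lit 12) (.exp (.alt (nat_lit 28) (.cov (nat_lit 69175301271548067840)) (.alt (nat_lit 13) (.cov (nat_lit 298844168)) .e))) .e))) .e)) .e)) .e)) .e)) (.alt (nat_lit 14) (.cov (nat_lit 142962686585307398147)) (.alt (nat_lit 14) (.exp (.alt (nat_lit 12) (.exp (.alt (nat_lit 30) (.cov (nat_lit 406859081479715310010370)) (.alt (nat_lit 30) (.cov (nat_lit 25601775076435235438593)) (.alt (nat_lit 30) (.exp (.alt (nat_lit 31) (.cov (nat_lit 6560123378824098349059)) (.alt (nat_lit 28) (.exp (.alt (nat_lit 20) (.exp (.alt (nat_lit 29) (.cov (nat_lit 57646084027052982273)) (.alt (nat_lit 29) (.exp (.alt (nat_lit 25) (.cov (nat_lit 1826227674292371324928)) (.alt (nat_lit 13) (.cov (nat_lit 156373090312)) .e))) .e))) .e)) (.alt (nat_lit 31) (.cov (nat_lit 47006614096)) .e)))) .e)))) .e)) (.alt (nat_lit 11) (.cov (nat_lit 157044182163)) .e))))) .e))))) .e)) (.alt (nat_lit 2) (.cov (nat_lit 47599065179)) .e)))))) .e)) .e)) .e)) .e)) (.alt (nat_lit 7) (.exp (.alt (nat_lit 6) (.exp (.alt (nat_lit 2) (.exp (.alt (nat_lit 10) (.exp (.alt (nat_lit 18) (.exp (.alt (nat_lit 16) (.cov (nat_lit 23224452134612343193634)) (.alt (nat_lit 4) (.cov (nat_lit 22754062111256612962311)) (.alt (nat_lit 4) (.cov (nat_lit 6391803887002696286211)) (.alt (nat_lit 4) (.exp (.alt (nat_lit 12) (.exp (.alt (nat_lit 20) (.cov (nat_lit 365515316526823346536459)) (.alt (nat_lit 20) (.exp (.alt (nat_lit 21) (.exp (.alt (nat_lit 17) (.exp (.alt (nat_lit 23) (.exp (.alt (nat_lit 28) (.cov (nat_lit 47954617080209477730307)) (.alt (nat_lit 28) (.exp (.alt (nat_lit 29) (.exp (.alt (nat_lit 24) (.cov (nat_lit 428886808666229964801)) (.alt (nat_lit 30) (.cov (nat_lit 4624220175)) .e))) .e)) (.alt (nat_lit 16) (.cov (nat_lit 360710335)) .e)))) .e)) .e)) .e)) (.alt (nat_lit 20) (.cov (nat_lit 21905513497949648191489)) (.alt (nat_lit 20) (.exp (.alt (nat_lit 21) (.exp (.alt (nat_lit 17) (.exp (.alt (nat_lit 25) (.exp (.alt (nat_lit 9) (.exp (.alt (nat_lit 27) (.exp (.alt (nat_lit 29) (.cov (nat_lit 6417161103438436630529)) (.alt (nat_lit 23) (.cov (nat_lit 32505871)) .e))) .e)) .e)) .e)) .e)) (.alt (nat_lit 16) (.cov (nat_lit 793210415183037464579)) (.alt (nat_lit 16) (.exp (.alt (nat_lit 17) (.exp (.alt (nat_lit 24) (.cov (nat_lit 6553205865191329234946)) (.alt (nat_lit 24) (.cov (nat_lit 406919033507905355644929)) (.alt (nat_lit 24) (.exp (.alt (nat_lit 28) (.cov (nat_lit 347677314789845090959363)) (.alt (nat_lit 25) (.exp (.alt (nat_lit 9) (.exp (.alt (nat_lit 29) (.cov (nat_lit 440416023555964141569)) (.alt (nat_lit 29) (.exp (.alt (nat_lit 31) (.cov (nat_lit 1397340874578638929920)) (.alt (nat_lit 21) (.cov (nat_lit 661651464)) .e))) .e))) .e)) (.alt (nat_lit 28) (.cov (nat_lit 158172447312)) .e)))) .e)))) .e)) (.alt (nat_lit 16) (.cov (nat_lit 156482145426)) .e))))) .e))))) .e)) (.alt (nat_lit 4) (.cov (nat_lit 11588868187)) .e)))))) .e)) .e)) .e)) .e)) .e))) .e))) .e)) (.alt (nat_lit 1) (.exp (.alt (nat_lit 3) (.exp (.alt (nat_lit 2) (.exp (.alt (nat_lit 6) (.exp (.alt (nat_lit 10) (.exp (.alt (nat_lit 7) (.exp (.alt (nat_lit 5) (.exp (.alt (nat_lit 23) (.exp (.alt (nat_lit 8) (.cov (nat_lit 470393275701654454306)) (.alt (nat_lit 4) (.cov (nat_lit 22754062111257216942087)) (.alt (nat_lit 4) (.cov (nat_lit 2850029024850026168323)) (.alt (nat_lit 4) (.exp (.alt (nat_lit 12) (.exp (.alt (nat_lit 20) (.cov (nat_lit 23132217303727295430667)) (.alt (nat_lit 20) (.exp (.alt (nat_lit 16) (.exp (.alt (nat_lit 17) (.exp (.alt (nat_lit 18) (.exp (.alt (nat_lit 28) (.cov (nat_lit 10164156002206180442115)) (.alt (nat_lit 28) (.exp (.alt (nat_lit 24) (.exp (.alt (nat_lit 29) (.cov (nat_lit 440416023712298434561)) (.alt (nat_lit 30) (.cov (nat_lit 185018089487)) .e))) .e)) (.alt (nat_lit 21) (.cov (nat_lit 10029629631)) .e)))) .e)) .e)) .e)) (.alt (nat_lit 20) (.cov (nat_lit 6557822428622692024321)) (.alt (nat_lit 20) (.exp (.alt (nat_lit 16) (.exp (.alt (nat_lit 17) (.exp (.alt (nat_lit 25) (.exp (.alt (nat_lit 9) (.exp (.alt (nat_lit 27) (.exp (.alt (nat_lit 24) (.cov (nat_lit 2863857026239530270721)) (.alt (nat_lit 18) (.cov (nat_lit 94371855)) .e))) .e)) .e)) .e)) .e)) (.alt (nat_lit 21) (.cov (nat_lit 22055388803142442287107)) (.alt (nat_lit 21) (.exp (.alt (nat_lit 17) (.exp (.alt (nat_lit 29) (.cov (nat_lit 6564735080263167508482)) (.alt (nat_lit 29) (.cov (nat_lit 10240248946854558957569)) (.alt (nat_lit 29) (.exp (.alt (nat_lit 28) (.cov (nat_lit 102102728465575860764675)) (.alt (nat_lit 25) (.exp (.alt (nat_lit 9) (.exp (.alt (nat_lit 24) (.cov (nat_lit 428886808509890428929)) (.alt (nat_lit 24) (.exp (.alt (nat_lit 26) (.cov (nat_lit 438110182745737003008)) (.alt (nat_lit 16) (.cov (nat_lit 656408584)) .e))) .e))) .e)) (.alt (nat_lit 28) (.cov (nat_lit 46498054736)) .e)))) .e)))) .e)) (.alt (nat_lit 21) (.cov (nat_lit 166145821842)) .e))))) .e))))) .e)) (.alt (nat_lit 4) (.cov (nat_lit 851449947)) .e)))))) .e)) .e)) .e)) .e)) .e)) .e)) (.alt (nat_lit 3) (.exp (.alt (nat_lit 2) (.exp (.alt (nat_lit 6) (.exp (.alt (nat_lit 10) (.exp (.alt (nat_lit 11) (.exp (.alt (nat_lit 9) (.exp (.alt (nat_lit 27) (.exp (.alt (nat_lit 4) (.cov (nat_lit 6520925331878114754594)) (.alt (nat_lit 8) (.cov (nat_lit 345350722472299020156935)) (.alt (nat_lit 8) (.cov (nat_lit 2859252396889598853123)) (.alt (nat_lit 8) (.exp (.alt (nat_lit 12) (.exp (.alt (nat_lit 24) (.cov (nat_lit 350156096242450494914571)) (.alt (nat_lit 24) (.exp (.alt (nat_lit 16) (.exp (.alt (nat_lit 17) (.exp (.alt (nat_lit 18) (.exp (.alt (nat_lit 28) (.cov (nat_lit 10154932630169325666307)) (.alt (nat_lit 28) (.exp (.alt (nat_lit 20) (.exp (.alt (nat_lit 29) (.cov (nat_lit 6417161103594188963841)) (.alt (nat_lit 30) (.cov (nat_lit 12145655823)) .e))) .e)) (.alt (nat_lit 25) (.cov (nat_lit 156595388607)) .e)))) .e)) .e)) .e)) (.alt (nat_lit 24) (.cov (nat_lit 507290372445959094273)) (.alt (nat_lit 24) (.exp (.alt (nat_lit 16) (.exp (.alt (nat_lit 17) (.exp (.alt (nat_lit 21) (.exp (.alt (nat_lit 5) (.exp (.alt (nat_lit 23) (.exp (.alt (nat_lit 20) (.cov (nat_lit 2854633654202675494913)) (.alt (nat_lit 18) (.cov (nat_lit 1197473807)) .e))) .e)) .e)) .e)) .e)) (.alt (nat_lit 25) (.cov (nat_lit 344356901258995728121859)) (.alt (nat_lit 25) (.exp (.alt (nat_lit 17) (.exp (.alt (nat_lit 29) (.cov (nat_lit 514203024086430384130)) (.alt (nat_lit 29) (.cov (nat_lit 786292609078413754369)) (.alt (nat_lit 29) (.exp (.alt (nat_lit 28) (.cov (nat_lit 102093505093548099239939)) (.alt (nat_lit 21) (.exp (.alt (nat_lit 5) (.exp (.alt (nat_lit 20) (.cov (nat_lit 6396408516354930376705)) (.alt (nat_lit 20) (.exp (.alt (nat_lit 22) (.cov (nat_lit 6414855262627631726592)) (.alt (nat_lit 16) (.cov (nat_lit 9950986248)) .e))) .e))) .e)) (.alt (nat_lit 28) (.cov (nat_lit 3007316560)) .e)))) .e)))) .e)) (.alt (nat_lit 25) (.cov (nat_lit 20653804690)) .e))))) .e))))) .e)) (.alt (nat_lit 8) (.cov (nat_lit 13199480923)) .e)))))) .e)) .e)) .e)) .e)) .e)) .e)) .e))) .e)))) (.alt (nat_lit 0) (.cov (nat_lit 18459401656169660509)) (.alt (nat_lit 0) (.exp (.alt (nat_lit 1) (.exp (.alt (nat_lit 3) (.exp (.alt (nat_lit 5) (.exp (.alt (nat_lit 7) (.exp (.alt (nat_lit 6) (.exp (.alt (nat_lit 23) (.exp (.alt (nat_lit 8) (.exp (.alt (nat_lit 9) (.exp (.alt (nat_lit 11) (.exp (.alt (nat_lit 10) (.exp (.alt (nat_lit 27) (.exp (.alt (nat_lit 13) (.exp (.alt (nat_lit 12) (.exp (.alt (nat_lit 29) (.exp (.alt (nat_lit 24) (.cov (nat_lit 2863857035035778482178)) (.alt (nat_lit 24) (.cov (nat_lit 21753322981907354353665)) (.alt (nat_lit 24) (.cov (nat_lit 2988372775236462968832)) (.alt (nat_lit 24) (.exp (.alt (nat_lit 26) (.cov (nat_lit 25304321191907189325827)) (.alt (nat_lit 26) (.cov (nat_lit 115292168052902199297)) (.alt (nat_lit 26) (.cov (nat_lit 115292183446064988160)) (.alt (nat_lit 26) (.exp (.alt (nat_lit 18) (.cov (nat_lit 25285874447833477677057)) (.alt (nat_lit 30) (.cov (nat_lit 727711759)) .e))) .e))))) .e))))) .e)) .e)) .e)) .e)) .e)) .e)) (.alt (nat_lit 9) (.exp (.alt (nat_lit 11) (.exp (.alt (nat_lit 10) (.exp (.alt (nat_lit 27) (.exp (.alt (nat_lit 31) (.exp (.alt (nat_lit 29) (.exp (.alt (nat_lit 30) (.exp (.alt (nat_lit 24) (.cov (nat_lit 365383883257594146455554)) (.alt (nat_lit 24) (.exp (.alt (nat_lit 28) (.exp (.alt (nat_lit 12) (.exp (.alt (nat_lit 16) (.cov (nat_lit 41505185160983740416)) (.alt (nat_lit 25) (.cov (nat_lit 17825800)) .e))) .e)) .e)) (.alt (nat_lit 12) (.cov (nat_lit 2868468848597374337024)) (.alt (nat_lit 12) (.exp (.alt (nat_lit 28) (.cov (nat_lit 25290486133852077031427)) (.alt (nat_lit 28) (.cov (nat_lit 21527350351611253751809)) (.alt (nat_lit 28) (.cov (nat_lit 21527350367004416540672)) (.alt (nat_lit 4) (.exp (.alt (nat_lit 20) (.cov (nat_lit 36893496944145465345)) (.alt (nat_lit 20) (.exp (.alt (nat_lit 16) (.cov (nat_lit 112986318446612447232)) (.alt (nat_lit 28) (.cov (nat_lit 9789505544)) .e))) .e))) .e))))) .e))))) .e)) .e)) .e)) .e)) .e)) .e)) .e))) (.alt (nat_lit 2) (.exp (.alt (nat_lit 10) (.cov (nat_lit 3985500736241078772548111995764737)) (.alt (nat_lit 10) (.exp (.alt (nat_lit 11) (.cov (nat_lit 55908469321185433620402283920490496)) (.alt (nat_lit 11) (.exp (.alt (nat_lit 9) (.exp (.alt (nat_lit 13) (.exp (.alt (nat_lit 12) (.exp (.alt (nat_lit 29) (.exp (.alt (nat_lit 18) (.cov (nat_lit 25442671796660743438338)) (.alt (nat_lit 18) (.cov (nat_lit 21730264754125367410689)) (.alt (nat_lit 18) (.exp (.alt (nat_lit 19) (.cov (nat_lit 6532453262694777094147)) (.alt (nat_lit 26) (.exp (.alt (nat_lit 27) (.exp (.alt (nat_lit 24) (.cov (nat_lit 25299709505888759840769)) (.alt (nat_lit 30) (.cov (nat_lit 1304428559)) .e))) .e)) (.alt (nat_lit 26) (.exp (.alt (nat_lit 24) (.cov (nat_lit 25299709505900244893698)) (.alt (nat_lit 27) (.cov (nat_lit 2979004483)) .e))) .e)))) .e)))) .e)) .e)) .e)) .e)) .e))) .e))) (.alt (nat_lit 2) (.cov (nat_lit 25276658132462277230607)) (.alt (nat_lit 2) (.exp (.alt (nat_lit 10) (.exp (.alt (nat_lit 11) (.exp (.alt (nat_lit 9) (.exp (.alt (nat_lit 27) (.exp (.alt (nat_lit 18) (.cov (nat_lit 26687827021624860737547)) (.alt (nat_lit 18) (.cov (nat_lit 404550932739644186427398)) (.alt (nat_lit 18) (.exp (.alt (nat_lit 26) (.exp (.alt (nat_lit 30) (.exp (.alt (nat_lit 24) (.exp (.alt (nat_lit 16) (.cov (nat_lit 365365436504734713249795)) (.alt (nat_lit 16) (.cov (nat_lit 23141440458070600712193)) (.alt (nat_lit 16) (.cov (nat_lit 23141440473453999161344)) (.alt (nat_lit 16) (.exp (.alt (nat_lit 20) (.cov (nat_lit 102111951828815941992449)) (.alt (nat_lit 17) (.cov (nat_lit 3545235471)) .e))) .e))))) .e)) .e)) .e)) (.alt (nat_lit 18) (.exp (.alt (nat_lit 26) (.exp (.alt (nat_lit 24) (.exp (.alt (nat_lit 16) (.cov (nat_lit 4251974526592623837187)) (.alt (nat_lit 16) (.exp (.alt (nat_lit 17) (.exp (.alt (nat_lit 20) (.cov (nat_lit 102111951828825103400961)) (.alt (nat_lit 20) (.exp (.alt (nat_lit 28) (.cov (nat_lit 140656434557164191744)) (.alt (nat_lit 22) (.cov (nat_lit 13218349064)) .e))) .e))) .e)) (.alt (nat_lit 16) (.cov (nat_lit 3477078608)) .e)))) .e)) .e)) (.alt (nat_lit 18) (.cov (nat_lit 6543987344179141279744)) (.alt (nat_lit 18) (.exp (.alt (nat_lit 26) (.cov (nat_lit 26706273765701330141191)) (.alt (nat_lit 26) (.cov (nat_lit 6548594286923335335939)) (.alt (nat_lit 26) (.cov (nat_lit 350248330147536729800705)) (.alt (nat_lit 26) (.exp (.alt (nat_lit 30) (.exp (.alt (nat_lit 24) (.cov (nat_lit 102111951837611593564162)) (.alt (nat_lit 24) (.cov (nat_lit 2861551207420155396097)) (.alt (nat_lit 24) (.cov (nat_lit 350250635717867036737536)) (.alt (nat_lit 24) (.exp (.alt (nat_lit 25) (.cov (nat_lit 102114257671824715284483)) (.alt (nat_lit 25) (.cov (nat_lit 7814501975817412673537)) (.alt (nat_lit 25) (.cov (nat_lit 7814501991210575462400)) (.alt (nat_lit 25) (.exp (.alt (nat_lit 29) (.cov (nat_lit 365383883248798662656001)) (.alt (nat_lit 17) (.cov (nat_lit 3545235471)) .e))) .e))))) .e))))) .e)) (.alt (nat_lit 26) (.exp (.alt (nat_lit 24) (.cov (nat_lit 22857821783504571072514)) (.alt (nat_lit 30) (.cov (nat_lit 6557817658941282189313)) (.alt (nat_lit 30) (.exp (.alt (nat_lit 28) (.cov (nat_lit 1457292799461658984451)) (.alt (nat_lit 28) (.cov (nat_lit 7876759862410502733824)) (.alt (nat_lit 31) (.cov (nat_lit 47610593471)) .e)))) .e)))) .e)))))) .e))))))) .e)) .e)) .e)) .e)) (.alt (nat_lit 2) (.exp (.alt (nat_lit 10) (.exp (.alt (nat_lit 11) (.exp (.alt (nat_lit 9) (.exp (.alt (nat_lit 18) (.cov (nat_lit 347868699887151017361419)) (.alt (nat_lit 18) (.exp (.alt (nat_lit 16) (.exp (.alt (nat_lit 17) (.exp (.alt (nat_lit 24) (.exp (.alt (nat_lit 26) (.cov (nat_lit 26706273750305922351107)) (.alt (nat_lit 26) (.exp (.alt (nat_lit 27) (.exp (.alt (nat_lit 30) (.cov (nat_lit 102111951828815372615681)) (.alt (nat_lit 30) (.exp (.alt (nat_lit 28) (.cov (nat_lit 21538879560060244066304)) (.alt (nat_lit 22) (.cov (nat_lit 10523508744)) .e))) .e))) .e)) (.alt (nat_lit 26) (.cov (nat_lit 266338896)) .e)))) .e)) .e)) .e)) (.alt (nat_lit 18) (.cov (nat_lit 36898372178123161601)) (.alt (nat_lit 18) (.exp (.alt (nat_lit 16) (.exp (.alt (nat_lit 17) (.exp (.alt (nat_lit 25) (.exp (.alt (nat_lit 27) (.exp (.alt (nat_lit 24) (.exp (.alt (nat_lit 20) (.cov (nat_lit 404343406732482396028929)) (.alt (nat_lit 20) (.exp (.alt (nat_lit 28) (.cov (nat_lit 69175301271539679232)) (.alt (nat_lit 21) (.cov (nat_lit 4627365896)) .e))) .e))) .e)) .e)) .e)) .e)) (.alt (nat_lit 22) (.cov (nat_lit 1987637093956270948355)) (.alt (nat_lit 22) (.exp (.alt (nat_lit 20) (.exp (.alt (nat_lit 30) (.cov (nat_lit 25454201011715981705218)) (.alt (nat_lit 30) (.cov (nat_lit 1621007780612809949185)) (.alt (nat_lit 30) (.exp (.alt (nat_lit 31) (.cov (nat_lit 104623014874646324445187)) (.alt (nat_lit 28) (.exp (.alt (nat_lit 12) (.exp (.alt (nat_lit 29) (.cov (nat_lit 57646084027061370881)) (.alt (nat_lit 29) (.exp (.alt (nat_lit 25) (.cov (nat_lit 1826227674292379713536)) (.alt (nat_lit 21) (.cov (nat_lit 9782165512)) .e))) .e))) .e)) (.alt (nat_lit 31) (.cov (nat_lit 3553624656)) .e)))) .e)))) .e)) (.alt (nat_lit 19) (.cov (nat_lit 10520366227)) .e))))) .e))))) .e)) .e)) .e)) (.alt (nat_lit 2) (.exp (.alt (nat_lit 10) (.exp (.alt (nat_lit 11) (.exp (.alt (nat_lit 18) (.cov (nat_lit 4095177331708037955603)) (.alt (nat_lit 18) (.cov (nat_lit 1978416598241394032642)) (.alt (nat_lit 18) (.exp (.alt (nat_lit 16) (.cov (nat_lit 344271584733413792284679)) (.alt (nat_lit 19) (.cov (nat_lit 29134333500070900531200)) .e))) .e)))) .e)) .e)) (.alt (nat_lit 2) (.exp (.alt (nat_lit 10) (.exp (.alt (nat_lit 18) (.exp (.alt (nat_lit 19) (.exp (.alt (nat_lit 17) (.exp (.alt (nat_lit 27) (.exp (.alt (nat_lit 31) (.exp (.alt (nat_lit 30) (.exp (.alt (nat_lit 29) (.exp (.alt (nat_lit 16) (.cov (nat_lit 365365436504880715923459)) (.alt (nat_lit 16) (.cov (nat_lit 22781728948779866914817)) (.alt (nat_lit 16) (.cov (nat_lit 22781728964016666050560)) (.alt (nat_lit 16) (.exp (.alt (nat_lit 24) (.cov (nat_lit 365383883248798045044737)) (.alt (nat_lit 20) (.cov (nat_lit 20665335823)) .e))) .e))))) .e)) .e)) .e)) .e)) .e)) .e)) (.alt (nat_lit 18) (.exp (.alt (nat_lit 19) (.cov (nat_lit 56273549507322721630614903627710464)) (.alt (nat_lit 19) (.exp (.alt (nat_lit 17) (.exp (.alt (nat_lit 21) (.exp (.alt (nat_lit 20) (.exp (.alt (nat_lit 29) (.exp (.alt (nat_lit 26) (.cov (nat_lit 22781728948623681519619)) (.alt (nat_lit 26) (.exp (.alt (nat_lit 27) (.exp (.alt (nat_lit 24) (.cov (nat_lit 404343406732472618057729)) (.alt (nat_lit 30) (.cov (nat_lit 20665335823)) .e))) .e)) (.alt (nat_lit 26) (.exp (.alt (nat_lit 24) (.cov (nat_lit 404343406732656480616450)) (.alt (nat_lit 27) (.cov (nat_lit 47572844611)) .e))) .e)))) .e)) .e)) .e)) .e)) .e))) (.alt (nat_lit 18) (.cov (nat_lit 21531968403813480529926)) (.alt (nat_lit 18) (.exp (.alt (nat_lit 19) (.exp (.alt (nat_lit 17) (.exp (.alt (nat_lit 27) (.exp (.alt (nat_lit 26) (.cov (nat_lit 26706273765745923981319)) (.alt (nat_lit 26) (.cov (nat_lit 104611485782745561432067)) (.alt (nat_lit 26) (.cov (nat_lit 21970072611801549242369)) (.alt (nat_lit 26) (.exp (.alt (nat_lit 30) (.exp (.alt (nat_lit 24) (.cov (nat_lit 6410243583206431391746)) (.alt (nat_lit 24) (.cov (nat_lit 45436636529541808914433)) (.alt (nat_lit 24) (.cov (nat_lit 21972378182131864567808)) (.alt (nat_lit 24) (.exp (.alt (nat_lit 25) (.cov (nat_lit 6412549417419553112067)) (.alt (nat_lit 25) (.cov (nat_lit 7814501975817404284929)) (.alt (nat_lit 25) (.cov (nat_lit 7814501991210567073792)) (.alt (nat_lit 25) (.exp (.alt (nat_lit 29) (.cov (nat_lit 365383883248798654267393)) (.alt (nat_lit 9) (.cov (nat_lit 46989836303)) .e))) .e))))) .e))))) .e)) (.alt (nat_lit 26) (.exp (.alt (nat_lit 24) (.cov (nat_lit 364048800170664068644866)) (.alt (nat_lit 30) (.cov (nat_lit 104620709154781266968577)) (.alt (nat_lit 30) (.exp (.alt (nat_lit 28) (.cov (nat_lit 22781728948626388942851)) (.alt (nat_lit 28) (.cov (nat_lit 571849209221528682496)) (.alt (nat_lit 31) (.cov (nat_lit 3016753343)) .e)))) .e)))) .e)))))) .e)) .e)) .e)) (.alt (nat_lit 18) (.exp (.alt (nat_lit 19) (.exp (.alt (nat_lit 17) (.exp (.alt (nat_lit 16) (.exp (.alt (nat_lit 20) (.exp (.alt (nat_lit 28) (.exp (.alt (nat_lit 12) (.exp (.alt (nat_lit 30) (.exp (.alt (nat_lit 24) (.cov (nat_lit 1607172586218046095361)) (.alt (nat_lit 24) (.exp (.alt (nat_lit 25) (.cov (nat_lit 25449589303686665863168)) (.alt (nat_lit 8) (.cov (nat_lit 1754267656)) .e))) .e))) .e)) .e)) .e)) .e)) (.alt (nat_lit 16) (.cov (nat_lit 104611486062031805612035)) (.alt (nat_lit 16) (.exp (.alt (nat_lit 20) (.exp (.alt (nat_lit 24) (.cov (nat_lit 428886832699272069122)) (.alt (nat_lit 24) (.cov (nat_lit 3159005069957327224833)) (.alt (nat_lit 24) (.exp (.alt (nat_lit 8) (.cov (nat_lit 343874979667667726630915)) (.alt (nat_lit 25) (.exp (.alt (nat_lit 9) (.exp (.alt (nat_lit 29) (.cov (nat_lit 404343406732473246154753)) (.alt (nat_lit 27) (.cov (nat_lit 4629463055)) .e))) .e)) (.alt (nat_lit 25) (.exp (.alt (nat_lit 29) (.cov (nat_lit 440416023556089970690)) (.alt (nat_lit 9) (.cov (nat_lit 18938331203)) .e))) .e)))) .e)))) .e)) (.alt (nat_lit 16) (.exp (.alt (nat_lit 24) (.cov (nat_lit 7618505561927519830018)) (.alt (nat_lit 20) (.cov (nat_lit 3049261224)) .e))) .e))))) .e)) .e)) (.alt (nat_lit 18) (.exp (.alt (nat_lit 19) (.exp (.alt (nat_lit 26) (.cov (nat_lit 1826227749059989340167)) (.alt (nat_lit 22) (.cov (nat_lit 384181122538563960832000)) .e))) .e)) (.alt (nat_lit 18) (.exp (.alt (nat_lit 26) (.exp (.alt (nat_lit 27) (.exp (.alt (nat_lit 11) (.exp (.alt (nat_lit 9) (.exp (.alt (nat_lit 25) (.exp (.alt (nat_lit 17) (.exp (.alt (nat_lit 24) (.exp (.alt (nat_lit 30) (.cov (nat_lit 365383883248798102716417)) (.alt (nat_lit 30) (.exp (.alt (nat_lit 28) (.cov (nat_lit 6391796832535488495616)) (.alt (nat_lit 31) (.cov (nat_lit 3553624072)) .e))) .e))) .e)) .e)) .e)) .e)) .e)) (.alt (nat_lit 27) (.exp (.alt (nat_lit 25) (.exp (.alt (nat_lit 9) (.exp (.alt (nat_lit 24) (.exp (.alt (nat_lit 16) (.exp (.alt (nat_lit 17) (.exp (.alt (nat_lit 30) (.cov (nat_lit 365383883248798102716417)) (.alt (nat_lit 30) (.exp (.alt (nat_lit 28) (.cov (nat_lit 42990137074775256727552)) (.alt (nat_lit 31) (.cov (nat_lit 3553624072)) .e))) .e))) .e)) .e)) .e)) .e)) (.alt (nat_lit 11) (.exp (.alt (nat_lit 9) (.exp (.alt (nat_lit 13) (.exp (.alt (nat_lit 12) (.exp (.alt (nat_lit 29) (.exp (.alt (nat_lit 24) (.cov (nat_lit 25299709505888759840769)) (.alt (nat_lit 30) (.cov (nat_lit 1304428559)) .e))) .e)) .e)) .e)) .e)) .e))) .e))) (.alt (nat_lit 26) (.cov (nat_lit 5220429874693077467151)) (.alt (nat_lit 26) (.exp (.alt (nat_lit 24) (.exp (.alt (nat_lit 25) (.exp (.alt (nat_lit 9) (.exp (.alt (nat_lit 17) (.exp (.alt (nat_lit 30) (.cov (nat_lit 365383883257594866827266)) (.alt (nat_lit 30) (.exp (.alt (nat_lit 31) (.exp (.alt (nat_lit 27) (.exp (.alt (nat_lit 28) (.cov (nat_lit 6391796832535488495616)) (.alt (nat_lit 14) (.cov (nat_lit 157047324680)) .e))) .e)) .e)) (.alt (nat_lit 27) (.cov (nat_lit 10254084007108843405312)) (.alt (nat_lit 27) (.exp (.alt (nat_lit 31) (.cov (nat_lit 404348018418500831805443)) (.alt (nat_lit 31) (.cov (nat_lit 7814501975827190644737)) (.alt (nat_lit 31) (.cov (nat_lit 7814501991210589093888)) (.alt (nat_lit 31) (.exp (.alt (nat_lit 30) (.cov (nat_lit 6410243574410210443265)) (.alt (nat_lit 30) (.exp (.alt (nat_lit 28) (.cov (nat_lit 6391796832535488495616)) (.alt (nat_lit 14) (.cov (nat_lit 157047324680)) .e))) .e))) .e))))) .e))))) .e)) .e)) .e)) .e)) (.alt (nat_lit 19) (.cov (nat_lit 23208313184071885783043)) (.alt (nat_lit 19) (.cov (nat_lit 344329237801527592091649)) (.alt (nat_lit 19) (.exp (.alt (nat_lit 17) (.exp (.alt (nat_lit 27) (.cov (nat_lit 661776976633161318411)) (.alt (nat_lit 27) (.cov (nat_lit 10254084007155263864838)) (.alt (nat_lit 27) (.exp (.alt (nat_lit 26) (.exp (.alt (nat_lit 30) (.exp (.alt (nat_lit 24) (.exp (.alt (nat_lit 25) (.cov (nat_lit 6412549417419553112067)) (.alt (nat_lit 25) (.cov (nat_lit 7814501975817404284929)) (.alt (nat_lit 25) (.cov (nat_lit 7814501991210567073792)) (.alt (nat_lit 25) (.exp (.alt (nat_lit 29) (.cov (nat_lit 365383883248798654267393)) (.alt (nat_lit 9) (.cov (nat_lit 46989836303)) .e))) .e))))) .e)) .e)) .e)) (.alt (nat_lit 27) (.exp (.alt (nat_lit 26) (.exp (.alt (nat_lit 24) (.exp (.alt (nat_lit 25) (.cov (nat_lit 657165275218266030083)) (.alt (nat_lit 25) (.exp (.alt (nat_lit 9) (.exp (.alt (nat_lit 29) (.cov (nat_lit 365383883248798069161985)) (.alt (nat_lit 29) (.exp (.alt (nat_lit 28) (.cov (nat_lit 404306513246524234792960)) (.alt (nat_lit 31) (.cov (nat_lit 12144607240)) .e))) .e))) .e)) (.alt (nat_lit 25) (.cov (nat_lit 2379219536)) .e)))) .e)) .e)) (.alt (nat_lit 27) (.cov (nat_lit 45450476438641799331840)) (.alt (nat_lit 27) (.exp (.alt (nat_lit 26) (.cov (nat_lit 1840062754348236537863)) (.alt (nat_lit 26) (.cov (nat_lit 104611485782745561432067)) (.alt (nat_lit 26) (.cov (nat_lit 21970072611957912895489)) (.alt (nat_lit 26) (.exp (.alt (nat_lit 30) (.exp (.alt (nat_lit 24) (.cov (nat_lit 365383883257614791868418)) (.alt (nat_lit 24) (.cov (nat_lit 104574592186845417701377)) (.alt (nat_lit 24) (.cov (nat_lit 2896138966906974502912)) (.alt (nat_lit 24) (.exp (.alt (nat_lit 8) (.cov (nat_lit 365346989760816151003139)) (.alt (nat_lit 8) (.cov (nat_lit 345350719193701929713665)) (.alt (nat_lit 8) (.cov (nat_lit 345350719208938728849408)) (.alt (nat_lit 8) (.exp (.alt (nat_lit 12) (.cov (nat_lit 6410243574410779820033)) (.alt (nat_lit 9) (.cov (nat_lit 46989836303)) .e))) .e))))) .e))))) .e)) (.alt (nat_lit 26) (.exp (.alt (nat_lit 24) (.cov (nat_lit 104574592186856301920258)) (.alt (nat_lit 30) (.cov (nat_lit 104620709154781266968577)) (.alt (nat_lit 30) (.exp (.alt (nat_lit 28) (.cov (nat_lit 7655398808201199616003)) (.alt (nat_lit 28) (.cov (nat_lit 571849209221528682496)) (.alt (nat_lit 14) (.cov (nat_lit 683671743)) .e)))) .e)))) .e)))))) .e))))))) .e)) (.alt (nat_lit 19) (.exp (.alt (nat_lit 17) (.cov (nat_lit 22784035009338905985035)) (.alt (nat_lit 17) (.exp (.alt (nat_lit 16) (.exp (.alt (nat_lit 24) (.exp (.alt (nat_lit 20) (.exp (.alt (nat_lit 25) (.cov (nat_lit 1390423352148656914435)) (.alt (nat_lit 25) (.exp (.alt (nat_lit 9) (.exp (.alt (nat_lit 29) (.cov (nat_lit 404343406732473246154753)) (.alt (nat_lit 27) (.cov (nat_lit 4629463055)) .e))) .e)) (.alt (nat_lit 25) (.exp (.alt (nat_lit 29) (.cov (nat_lit 440416023556089970690)) (.alt (nat_lit 9) (.cov (nat_lit 18938331203)) .e))) .e)))) .e)) .e)) .e)) (.alt (nat_lit 17) (.cov (nat_lit 6698478814801337253889)) (.alt (nat_lit 17) (.exp (.alt (nat_lit 16) (.exp (.alt (nat_lit 20) (.exp (.alt (nat_lit 28) (.exp (.alt (nat_lit 12) (.exp (.alt (nat_lit 30) (.exp (.alt (nat_lit 24) (.cov (nat_lit 1607172586218046095361)) (.alt (nat_lit 24) (.exp (.alt (nat_lit 25) (.cov (nat_lit 25449589303686665863168)) (.alt (nat_lit 8) (.cov (nat_lit 1754267656)) .e))) .e))) .e)) .e)) .e)) .e)) (.alt (nat_lit 16) (.cov (nat_lit 104611486062031805612035)) (.alt (nat_lit 16) (.exp (.alt (nat_lit 20) (.exp (.alt (nat_lit 24) (.cov (nat_lit 428886832699272069122)) (.alt (nat_lit 24) (.cov (nat_lit 3159005069957327224833)) (.alt (nat_lit 24) (.exp (.alt (nat_lit 8) (.cov (nat_lit 343874979667667726630915)) (.alt (nat_lit 25) (.exp (.alt (nat_lit 9) (.exp (.alt (nat_lit 29) (.cov (nat_lit 404343406732473246154753)) (.alt (nat_lit 27) (.cov (nat_lit 4629463055)) .e))) .e)) (.alt (nat_lit 25) (.exp (.alt (nat_lit 29) (.cov (nat_lit 440416023556089970690)) (.alt (nat_lit 9) (.cov (nat_lit 18938331203)) .e))) .e)))) .e)))) .e)) (.alt (nat_lit 16) (.exp (.alt (nat_lit 24) (.cov (nat_lit 7618505561927519830018)) (.alt (nat_lit 20) (.cov (nat_lit 3049261224)) .e))) .e))))) .e))))) .e)))))))) .e)))))))) .e)) (.alt (nat_lit 2) (.exp (.alt (nat_lit 10) (.cov (nat_lit 404311126768727288184851)) (.alt (nat_lit 10) (.cov (nat_lit 18454634172063416331)) (.alt (nat_lit 10) (.cov (nat_lit 133747910529918173186)) (.alt (nat_lit 10) (.cov (nat_lit 29132032734606374469633)) (.alt (nat_lit 10) (.exp (.alt (nat_lit 8) (.cov (nat_lit 470393275701654454306)) (.alt (nat_lit 11) (.cov (nat_lit 1496495409318528548871)) (.alt (nat_lit 11) (.cov (nat_lit 62264826710667034627)) (.alt (nat_lit 11) (.exp (.alt (nat_lit 9) (.exp (.alt (nat_lit 27) (.cov (nat_lit 25590245861389130268683)) (.alt (nat_lit 27) (.exp (.alt (nat_lit 26) (.exp (.alt (nat_lit 18) (.exp (.alt (nat_lit 24) (.exp (.alt (nat_lit 25) (.cov (nat_lit 10175685217252403052547)) (.alt (nat_lit 25) (.exp (.alt (nat_lit 17) (.exp (.alt (nat_lit 29) (.cov (nat_lit 365383883248798069161985)) (.alt (nat_lit 29) (.exp (.alt (nat_lit 28) (.cov (nat_lit 25281262764014069350400)) (.alt (nat_lit 31) (.cov (nat_lit 12144607240)) .e))) .e))) .e)) (.alt (nat_lit 25) (.cov (nat_lit 10465837648)) .e)))) .e)) .e)) .e)) (.alt (nat_lit 27) (.cov (nat_lit 502678660039255785473)) (.alt (nat_lit 27) (.exp (.alt (nat_lit 26) (.exp (.alt (nat_lit 18) (.exp (.alt (nat_lit 16) (.exp (.alt (nat_lit 17) (.exp (.alt (nat_lit 24) (.exp (.alt (nat_lit 30) (.cov (nat_lit 102111951828815372615681)) (.alt (nat_lit 30) (.exp (.alt (nat_lit 28) (.cov (nat_lit 21538879560060244066304)) (.alt (nat_lit 22) (.cov (nat_lit 10523508744)) .e))) .e))) .e)) .e)) .e)) .e)) (.alt (nat_lit 31) (.cov (nat_lit 104696802253362522226691)) (.alt (nat_lit 31) (.exp (.alt (nat_lit 30) (.exp (.alt (nat_lit 29) (.cov (nat_lit 417357617673692774402)) (.alt (nat_lit 29) (.cov (nat_lit 417357729803227103233)) (.alt (nat_lit 29) (.exp (.alt (nat_lit 21) (.cov (nat_lit 63281555562452854243331)) (.alt (nat_lit 28) (.exp (.alt (nat_lit 12) (.exp (.alt (nat_lit 20) (.cov (nat_lit 6382573458300224929793)) (.alt (nat_lit 20) (.exp (.alt (nat_lit 16) (.cov (nat_lit 6401020204572349562880)) (.alt (nat_lit 22) (.cov (nat_lit 824180744)) .e))) .e))) .e)) (.alt (nat_lit 21) (.cov (nat_lit 1933574736)) .e)))) .e)))) .e)) (.alt (nat_lit 19) (.cov (nat_lit 185004461203)) .e))))) .e))))) .e)) (.alt (nat_lit 11) (.cov (nat_lit 11585722459)) .e)))))) .e)))))) .e))))))))) .e)) .e)) .e)) .e)) .e)) .e)) (.alt (nat_lit 0) (.exp (.alt (nat_lit 1) (.exp (.alt (nat_lit 3) (.exp (.alt (nat_lit 5) (.exp (.alt (nat_lit 7) (.exp (.alt (nat_lit 6) (.exp (.alt (nat_lit 2) (.cov (nat_lit 406810662039871048122406)) (.alt (nat_lit 2) (.cov (nat_lit 404301908614973013098530)) (.alt (nat_lit 2) (.cov (nat_lit 41516153889005502471)) (.alt (nat_lit 2) (.cov (nat_lit 41518893871948365827)) (.alt (nat_lit 2) (.exp (.alt (nat_lit 10) (.exp (.alt (nat_lit 18) (.cov (nat_lit 1978415149088463912980)) (.alt (nat_lit 18) (.cov (nat_lit 1978416598241232551947)) (.alt (nat_lit 18) (.exp (.alt (nat_lit 19) (.exp (.alt (nat_lit 17) (.exp (.alt (nat_lit 23) (.exp (.alt (nat_lit 16) (.exp (.alt (nat_lit 20) (.exp (.alt (nat_lit 28) (.exp (.alt (nat_lit 12) (.exp (.alt (nat_lit 30) (.exp (.alt (nat_lit 24) (.cov (nat_lit 1607172586218046095361)) (.alt (nat_lit 24) (.exp (.alt (nat_lit 25) (.cov (nat_lit 25449589303686665863168)) (.alt (nat_lit 8) (.cov (nat_lit 1754267656)) .e))) .e))) .e)) .e)) .e)) .e)) (.alt (nat_lit 16) (.cov (nat_lit 104611486062031805612035)) (.alt (nat_lit 16) (.exp (.alt (nat_lit 20) (.exp (.alt (nat_lit 24) (.cov (nat_lit 428886832699272069122)) (.alt (nat_lit 24) (.cov (nat_lit 3159005069957327224833)) (.alt (nat_lit 24) (.exp (.alt (nat_lit 8) (.cov (nat_lit 343874979667667726630915)) (.alt (nat_lit 25) (.exp (.alt (nat_lit 9) (.exp (.alt (nat_lit 29) (.cov (nat_lit 404343406732473246154753)) (.alt (nat_lit 27) (.cov (nat_lit 4629463055)) .e))) .e)) (.alt (nat_lit 25) (.exp (.alt (nat_lit 29) (.cov (nat_lit 440416023556089970690)) (.alt (nat_lit 9) (.cov (nat_lit 18938331203)) .e))) .e)))) .e)))) .e)) (.alt (nat_lit 16) (.exp (.alt (nat_lit 24) (.cov (nat_lit 7618505561927519830018)) (.alt (nat_lit 20) (.cov (nat_lit 3049261224)) .e))) .e))))) .e)) .e)) .e)) (.alt (nat_lit 18) (.cov (nat_lit 1978426322322062311425)) (.alt (nat_lit 18) (.exp (.alt (nat_lit 16) (.cov (nat_lit 23224452134612343193634)) (.alt (nat_lit 19) (.cov (nat_lit 1980722441250480848903)) (.alt (nat_lit 19) (.cov (nat_lit 24264393093198887518211)) (.alt (nat_lit 19) (.exp (.alt (nat_lit 17) (.exp (.alt (nat_lit 23) (.cov (nat_lit 41885638409701509038091)) (.alt (nat_lit 23) (.cov (nat_lit 23217535106952419344386)) (.alt (nat_lit 23) (.cov (nat_lit 1989945813287299973121)) (.alt (nat_lit 23) (.exp (.alt (nat_lit 21) (.exp (.alt (nat_lit 20) (.exp (.alt (nat_lit 28) (.exp (.alt (nat_lit 12) (.exp (.alt (nat_lit 30) (.exp (.alt (nat_lit 29) (.cov (nat_lit 57646084027052982273)) (.alt (nat_lit 29) (.exp (.alt (nat_lit 25) (.cov (nat_lit 1826227674292371324928)) (.alt (nat_lit 13) (.cov (nat_lit 156373090312)) .e))) .e))) .e)) .e)) .e)) .e)) (.alt (nat_lit 21) (.cov (nat_lit 350186072386299425193987)) (.alt (nat_lit 21) (.exp (.alt (nat_lit 20) (.exp (.alt (nat_lit 29) (.cov (nat_lit 440416047745345781762)) (.alt (nat_lit 29) (.cov (nat_lit 809351043569182310401)) (.alt (nat_lit 29) (.exp (.alt (nat_lit 13) (.cov (nat_lit 3864592901053271244803)) (.alt (nat_lit 25) (.exp (.alt (nat_lit 9) (.exp (.alt (nat_lit 24) (.cov (nat_lit 404343406732472636932097)) (.alt (nat_lit 27) (.cov (nat_lit 185012846607)) .e))) .e)) (.alt (nat_lit 25) (.exp (.alt (nat_lit 24) (.cov (nat_lit 428886808510016258050)) (.alt (nat_lit 9) (.cov (nat_lit 1753219139)) .e))) .e)))) .e)))) .e)) (.alt (nat_lit 21) (.exp (.alt (nat_lit 29) (.cov (nat_lit 45408966639930045366274)) (.alt (nat_lit 20) (.cov (nat_lit 3049261224)) .e))) .e))))) .e))))) .e)) (.alt (nat_lit 19) (.cov (nat_lit 17832363)) .e)))))) .e)))))) .e)) (.alt (nat_lit 2) (.cov (nat_lit 2963283487)) .e))))))) .e)) .e)) .e)) .e)) (.alt (nat_lit 1) (.exp (.alt (nat_lit 3) (.exp (.alt (nat_lit 2) (.exp (.alt (nat_lit 6) (.exp (.alt (nat_lit 10) (.exp (.alt (nat_lit 4) (.cov (nat_lit 22754062111256948506662)) (.alt (nat_lit 4) (.cov (nat_lit 27679813803746263074)) (.alt (nat_lit 4) (.cov (nat_lit 46127839910354223111)) (.alt (nat_lit 4) (.cov (nat_lit 1374296148799586828291)) (.alt (nat_lit 4) (.exp (.alt (nat_lit 5) (.exp (.alt (nat_lit 12) (.cov (nat_lit 5121279170653043294226)) (.alt (nat_lit 12) (.cov (nat_lit 63339206523922713411595)) (.alt (nat_lit 12) (.cov (nat_lit 25447292467897347080194)) (.alt (nat_lit 12) (.cov (nat_lit 64574583981716013057)) (.alt (nat_lit 12) (.exp (.alt (nat_lit 28) (.cov (nat_lit 48028404458937047318562)) (.alt (nat_lit 13) (.cov (nat_lit 657168553981368074247)) (.alt (nat_lit 13) (.cov (nat_lit 657172327505207492611)) (.alt (nat_lit 13) (.cov (nat_lit 66880426990321532928)) (.alt (nat_lit 14) (.cov (nat_lit 11507079264)) .e)))))) .e)))))) .e)) (.alt (nat_lit 4) (.cov (nat_lit 9769590305)) .e))))))) .e)) .e)) .e)) .e)) .e))) (.alt (nat_lit 0) (.cov (nat_lit 592619617188898144262)) (.alt (nat_lit 0) (.exp (.alt (nat_lit 1) (.exp (.alt (nat_lit 3) (.exp (.alt (nat_lit 5) (.exp (.alt (nat_lit 2) (.cov (nat_lit 43105432510733238665723)) (.alt (nat_lit 2) (.exp (.alt (nat_lit 6) (.cov (nat_lit 92416814925169271452998418758107138)) (.alt (nat_lit 6) (.cov (nat_lit 55583959065595024849287138743681025)) (.alt (nat_lit 6) (.cov (nat_lit 889069299308383831614315724944703488)) (.alt (nat_lit 6) (.cov (nat_lit 404301908614972413313117)) .e))))) (.alt (nat_lit 2) (.exp (.alt (nat_lit 6) (.exp (.alt (nat_lit 4) (.exp (.alt (nat_lit 12) (.exp (.alt (nat_lit 20) (.exp (.alt (nat_lit 14) (.exp (.alt (nat_lit 10) (.exp (.alt (nat_lit 30) (.exp (.alt (nat_lit 18) (.cov (nat_lit 23132217101427011485707)) (.alt (nat_lit 18) (.cov (nat_lit 7858313120537098846214)) (.alt (nat_lit 18) (.exp (.alt (nat_lit 26) (.exp (.alt (nat_lit 24) (.exp (.alt (nat_lit 27) (.exp (.alt (nat_lit 19) (.cov (nat_lit 365358518977896907800579)) (.alt (nat_lit 19) (.cov (nat_lit 63274638033434950238209)) (.alt (nat_lit 19) (.cov (nat_lit 63274638048818348687360)) (.alt (nat_lit 19) (.exp (.alt (nat_lit 17) (.cov (nat_lit 45436636505351987920897)) (.alt (nat_lit 23) (.cov (nat_lit 28778168335)) .e))) .e))))) .e)) .e)) .e)) (.alt (nat_lit 18) (.exp (.alt (nat_lit 26) (.exp (.alt (nat_lit 24) (.exp (.alt (nat_lit 19) (.cov (nat_lit 405595479495272937029635)) (.alt (nat_lit 19) (.exp (.alt (nat_lit 27) (.exp (.alt (nat_lit 17) (.cov (nat_lit 45436636505351987920897)) (.alt (nat_lit 23) (.cov (nat_lit 28778168335)) .e))) .e)) (.alt (nat_lit 16) (.cov (nat_lit 1963983039)) .e)))) .e)) .e)) (.alt (nat_lit 18) (.cov (nat_lit 25419618217602439970816)) (.alt (nat_lit 18) (.exp (.alt (nat_lit 26) (.cov (nat_lit 104611485674992345022471)) (.alt (nat_lit 26) (.cov (nat_lit 347894064158099017564163)) (.alt (nat_lit 26) (.cov (nat_lit 406923645471009871495169)) (.alt (nat_lit 26) (.exp (.alt (nat_lit 24) (.exp (.alt (nat_lit 27) (.cov (nat_lit 45436636514148749934594)) (.alt (nat_lit 27) (.cov (nat_lit 25426530895584797130753)) (.alt (nat_lit 27) (.cov (nat_lit 26754696583241060581376)) (.alt (nat_lit 27) (.exp (.alt (nat_lit 19) (.cov (nat_lit 365358518977896907800579)) (.alt (nat_lit 19) (.cov (nat_lit 63274638033434950238209)) (.alt (nat_lit 19) (.cov (nat_lit 63274638048818348687360)) (.alt (nat_lit 19) (.exp (.alt (nat_lit 17) (.cov (nat_lit 45436636505351987920897)) (.alt (nat_lit 23) (.cov (nat_lit 28778168335)) .e))) .e))))) .e))))) .e)) (.alt (nat_lit 26) (.exp (.alt (nat_lit 27) (.cov (nat_lit 2995290102000369270786)) (.alt (nat_lit 24) (.cov (nat_lit 25440366061392182116353)) (.alt (nat_lit 24) (.exp (.alt (nat_lit 25) (.cov (nat_lit 2990678400726201270275)) (.alt (nat_lit 25) (.cov (nat_lit 347894064158052596056064)) (.alt (nat_lit 16) (.cov (nat_lit 1963983039)) .e)))) .e)))) .e)))))) .e))))))) .e)) .e)) .e)) .e)) .e)) .e)) (.alt (nat_lit 6) (.exp (.alt (nat_lit 4) (.exp (.alt (nat_lit 12) (.exp (.alt (nat_lit 20) (.exp (.alt (nat_lit 16) (.exp (.alt (nat_lit 17) (.exp (.alt (nat_lit 18) (.exp (.alt (nat_lit 10) (.cov (nat_lit 7618505335430373703691)) (.alt (nat_lit 10) (.cov (nat_lit 5116665784780476907526)) (.alt (nat_lit 10) (.exp (.alt (nat_lit 8) (.exp (.alt (nat_lit 9) (.exp (.alt (nat_lit 24) (.exp (.alt (nat_lit 26) (.cov (nat_lit 3972967515870342414339)) (.alt (nat_lit 26) (.cov (nat_lit 659471118227364380673)) (.alt (nat_lit 26) (.cov (nat_lit 659471133620493615104)) (.alt (nat_lit 11) (.exp (.alt (nat_lit 27) (.cov (nat_lit 71481142082341437441)) (.alt (nat_lit 27) (.exp (.alt (nat_lit 31) (.cov (nat_lit 66869458262337519616)) (.alt (nat_lit 19) (.cov (nat_lit 9788456968)) .e))) .e))) .e))))) .e)) .e)) .e)) (.alt (nat_lit 10) (.exp (.alt (nat_lit 8) (.exp (.alt (nat_lit 9) (.exp (.alt (nat_lit 26) (.cov (nat_lit 659471118227327680515)) (.alt (nat_lit 26) (.exp (.alt (nat_lit 24) (.exp (.alt (nat_lit 30) (.cov (nat_lit 2875386241285598740481)) (.alt (nat_lit 30) (.exp (.alt (nat_lit 31) (.cov (nat_lit 214443410852013932544)) (.alt (nat_lit 28) (.cov (nat_lit 11573133320)) .e))) .e))) .e)) (.alt (nat_lit 11) (.cov (nat_lit 632291519)) .e)))) .e)) .e)) (.alt (nat_lit 10) (.cov (nat_lit 763238939871600967680)) (.alt (nat_lit 10) (.exp (.alt (nat_lit 11) (.cov (nat_lit 22747141318888400093191)) (.alt (nat_lit 11) (.exp (.alt (nat_lit 9) (.exp (.alt (nat_lit 8) (.exp (.alt (nat_lit 24) (.exp (.alt (nat_lit 27) (.cov (nat_lit 71481142082341437441)) (.alt (nat_lit 27) (.exp (.alt (nat_lit 31) (.cov (nat_lit 66869458262337519616)) (.alt (nat_lit 19) (.cov (nat_lit 9788456968)) .e))) .e))) .e)) .e)) .e)) (.alt (nat_lit 11) (.cov (nat_lit 1390423754569308700673)) (.alt (nat_lit 11) (.exp (.alt (nat_lit 9) (.exp (.alt (nat_lit 27) (.cov (nat_lit 6417161112234090299394)) (.alt (nat_lit 27) (.cov (nat_lit 1609478453417131114497)) (.alt (nat_lit 27) (.cov (nat_lit 1388117638881221804032)) (.alt (nat_lit 27) (.exp (.alt (nat_lit 26) (.cov (nat_lit 6414855260428782534659)) (.alt (nat_lit 26) (.cov (nat_lit 659471118227327680513)) (.alt (nat_lit 26) (.cov (nat_lit 659471133620490469376)) (.alt (nat_lit 26) (.exp (.alt (nat_lit 30) (.cov (nat_lit 25306627034917017485313)) (.alt (nat_lit 24) (.cov (nat_lit 297795599)) .e))) .e))))) .e))))) .e)) (.alt (nat_lit 14) (.exp (.alt (nat_lit 30) (.cov (nat_lit 10168767703629247283202)) (.alt (nat_lit 30) (.cov (nat_lit 797821826323496042497)) (.alt (nat_lit 30) (.exp (.alt (nat_lit 26) (.cov (nat_lit 3013736830790872858627)) (.alt (nat_lit 31) (.exp (.alt (nat_lit 23) (.exp (.alt (nat_lit 27) (.cov (nat_lit 426580965500671492097)) (.alt (nat_lit 27) (.exp (.alt (nat_lit 25) (.cov (nat_lit 6560123372208085008384)) (.alt (nat_lit 11) (.cov (nat_lit 10344202248)) .e))) .e))) .e)) (.alt (nat_lit 26) (.cov (nat_lit 21234713168)) .e)))) .e)))) .e)))))) .e))))))) .e)) .e)) .e)) .e)) .e)) .e)) .e))) (.alt (nat_lit 2) (.exp (.alt (nat_lit 6) (.exp (.alt (nat_lit 7) (.exp (.alt (nat_lit 23) (.exp (.alt (nat_lit 4) (.exp (.alt (nat_lit 12) (.exp (.alt (nat_lit 20) (.exp (.alt (nat_lit 10) (.cov (nat_lit 42962467200557415137291)) (.alt (nat_lit 10) (.exp (.alt (nat_lit 11) (.exp (.alt (nat_lit 9) (.exp (.alt (nat_lit 27) (.exp (.alt (nat_lit 26) (.cov (nat_lit 6548594163769476644867)) (.alt (nat_lit 26) (.exp (.alt (nat_lit 18) (.exp (.alt (nat_lit 24) (.cov (nat_lit 64563613063867006977)) (.alt (nat_lit 30) (.cov (nat_lit 2982150159)) .e))) .e)) (.alt (nat_lit 26) (.exp (.alt (nat_lit 24) (.cov (nat_lit 64563613054093230082)) (.alt (nat_lit 18) (.cov (nat_lit 10385096771)) .e))) .e)))) .e)) .e)) .e)) (.alt (nat_lit 10) (.cov (nat_lit 59956791275098734593)) (.alt (nat_lit 10) (.exp (.alt (nat_lit 11) (.exp (.alt (nat_lit 9) (.exp (.alt (nat_lit 25) (.exp (.alt (nat_lit 17) (.exp (.alt (nat_lit 29) (.exp (.alt (nat_lit 27) (.cov (nat_lit 1609478429227271323649)) (.alt (nat_lit 27) (.exp (.alt (nat_lit 26) (.cov (nat_lit 22869350976376558059520)) (.alt (nat_lit 19) (.cov (nat_lit 119537672)) .e))) .e))) .e)) .e)) .e)) .e)) (.alt (nat_lit 11) (.cov (nat_lit 652553991641562611715)) (.alt (nat_lit 11) (.exp (.alt (nat_lit 9) (.exp (.alt (nat_lit 27) (.cov (nat_lit 1609478453416527134722)) (.alt (nat_lit 27) (.cov (nat_lit 1385811883842710011905)) (.alt (nat_lit 27) (.exp (.alt (nat_lit 19) (.cov (nat_lit 1441151898361131958275)) (.alt (nat_lit 26) (.exp (.alt (nat_lit 18) (.exp (.alt (nat_lit 24) (.cov (nat_lit 64563613063867006977)) (.alt (nat_lit 30) (.cov (nat_lit 2982150159)) .e))) .e)) (.alt (nat_lit 26) (.exp (.alt (nat_lit 24) (.cov (nat_lit 64563613054093230082)) (.alt (nat_lit 18) (.cov (nat_lit 10385096771)) .e))) .e)))) .e)))) .e)) (.alt (nat_lit 14) (.cov (nat_lit 9997126803)) .e))))) .e))))) .e)) .e)) .e)) .e)) .e)) (.alt (nat_lit 6) (.cov (nat_lit 41516153889680785419)) .e))) (.alt (nat_lit 2) (.cov (nat_lit 41518887274912153615)) (.alt (nat_lit 2) (.exp (.alt (nat_lit 6) (.exp (.alt (nat_lit 4) (.exp (.alt (nat_lit 12) (.exp (.alt (nat_lit 20) (.exp (.alt (nat_lit 10) (.cov (nat_lit 104689884724337039114261)) (.alt (nat_lit 10) (.exp (.alt (nat_lit 8) (.cov (nat_lit 14086137531727041928776800915161088)) (.alt (nat_lit 14) (.cov (nat_lit 21564245669346300395527)) .e))) (.alt (nat_lit 10) (.cov (nat_lit 102220331329881695584262)) (.alt (nat_lit 10) (.exp (.alt (nat_lit 8) (.exp (.alt (nat_lit 9) (.exp (.alt (nat_lit 24) (.exp (.alt (nat_lit 26) (.cov (nat_lit 209831746823813857287)) (.alt (nat_lit 26) (.cov (nat_lit 25444977747411895058435)) (.alt (nat_lit 26) (.cov (nat_lit 3013737233055792234497)) (.alt (nat_lit 26) (.exp (.alt (nat_lit 18) (.exp (.alt (nat_lit 27) (.cov (nat_lit 1593337536958881071106)) (.alt (nat_lit 27) (.cov (nat_lit 25426530895584784547841)) (.alt (nat_lit 27) (.cov (nat_lit 21737182195192062541824)) (.alt (nat_lit 27) (.exp (.alt (nat_lit 19) (.cov (nat_lit 2843104439166366121987)) (.alt (nat_lit 19) (.cov (nat_lit 21525044508611801251841)) (.alt (nat_lit 19) (.cov (nat_lit 21525044523995199700992)) (.alt (nat_lit 19) (.exp (.alt (nat_lit 23) (.cov (nat_lit 2852327811193464946689)) (.alt (nat_lit 17) (.cov (nat_lit 11497635855)) .e))) .e))))) .e))))) .e)) (.alt (nat_lit 11) (.exp (.alt (nat_lit 27) (.cov (nat_lit 2863857050430058004482)) (.alt (nat_lit 27) (.cov (nat_lit 21900897048856013832193)) (.alt (nat_lit 27) (.exp (.alt (nat_lit 25) (.cov (nat_lit 1837756895935551504387)) (.alt (nat_lit 19) (.exp (.alt (nat_lit 17) (.exp (.alt (nat_lit 23) (.cov (nat_lit 71481142082344583169)) (.alt (nat_lit 18) (.cov (nat_lit 2908749839)) .e))) .e)) (.alt (nat_lit 19) (.exp (.alt (nat_lit 23) (.cov (nat_lit 2854633654203943223298)) (.alt (nat_lit 17) (.cov (nat_lit 827326531)) .e))) .e)))) .e)))) .e)))))) .e)) .e)) .e)) (.alt (nat_lit 10) (.cov (nat_lit 59960934234912194561)) (.alt (nat_lit 10) (.cov (nat_lit 724046883083897536512)) (.alt (nat_lit 10) (.exp (.alt (nat_lit 11) (.exp (.alt (nat_lit 9) (.cov (nat_lit 14415722935286837901206718428217345)) (.alt (nat_lit 9) (.exp (.alt (nat_lit 25) (.cov (nat_lit 14415722935301961925506193723228160)) (.alt (nat_lit 13) (.cov (nat_lit 652553712345799458823)) .e))) .e))) (.alt (nat_lit 11) (.cov (nat_lit 6555512095382734635023)) (.alt (nat_lit 11) (.exp (.alt (nat_lit 9) (.exp (.alt (nat_lit 25) (.exp (.alt (nat_lit 17) (.exp (.alt (nat_lit 29) (.exp (.alt (nat_lit 27) (.cov (nat_lit 412745916242169167874)) (.alt (nat_lit 27) (.cov (nat_lit 21884756033432578949121)) (.alt (nat_lit 27) (.cov (nat_lit 6564735293522011226112)) (.alt (nat_lit 27) (.exp (.alt (nat_lit 19) (.cov (nat_lit 6398714359375588229123)) (.alt (nat_lit 19) (.cov (nat_lit 262866120642604826625)) (.alt (nat_lit 19) (.cov (nat_lit 262866136035734061056)) (.alt (nat_lit 19) (.exp (.alt (nat_lit 18) (.cov (nat_lit 6396408516354940862465)) (.alt (nat_lit 23) (.cov (nat_lit 9888071695)) .e))) .e))))) .e))))) .e)) .e)) .e)) .e)) (.alt (nat_lit 8) (.cov (nat_lit 1826230959653751095299)) (.alt (nat_lit 8) (.cov (nat_lit 55347297682891735041)) (.alt (nat_lit 8) (.exp (.alt (nat_lit 9) (.exp (.alt (nat_lit 24) (.cov (nat_lit 1607172610407310295051)) (.alt (nat_lit 24) (.cov (nat_lit 1607172722557496328198)) (.alt (nat_lit 24) (.cov (nat_lit 104689884724334875901954)) (.alt (nat_lit 24) (.cov (nat_lit 1607174424601496125441)) (.alt (nat_lit 24) (.cov (nat_lit 25440369216990562222080)) (.alt (nat_lit 24) (.exp (.alt (nat_lit 16) (.cov (nat_lit 260560293036447236103)) (.alt (nat_lit 16) (.cov (nat_lit 6534759228850389909507)) (.alt (nat_lit 25) (.cov (nat_lit 21903203164534338486273)) (.alt (nat_lit 25) (.exp (.alt (nat_lit 17) (.exp (.alt (nat_lit 27) (.cov (nat_lit 412745916241469767682)) (.alt (nat_lit 27) (.cov (nat_lit 6537064964106237247489)) (.alt (nat_lit 27) (.cov (nat_lit 2847716263713481687040)) (.alt (nat_lit 27) (.exp (.alt (nat_lit 19) (.cov (nat_lit 2845410282166989881347)) (.alt (nat_lit 19) (.cov (nat_lit 21525044508611802300417)) (.alt (nat_lit 19) (.cov (nat_lit 21525044523995200749568)) (.alt (nat_lit 19) (.exp (.alt (nat_lit 23) (.cov (nat_lit 2854633654202712195073)) (.alt (nat_lit 18) (.cov (nat_lit 2908749839)) .e))) .e))))) .e))))) .e)) (.alt (nat_lit 16) (.cov (nat_lit 11560551899)) .e)))))) .e))))))) .e)) (.alt (nat_lit 14) (.exp (.alt (nat_lit 30) (.cov (nat_lit 104694496135475402637323)) (.alt (nat_lit 30) (.exp (.alt (nat_lit 31) (.exp (.alt (nat_lit 23) (.exp (.alt (nat_lit 27) (.exp (.alt (nat_lit 26) (.cov (nat_lit 104611485659599072133123)) (.alt (nat_lit 26) (.exp (.alt (nat_lit 18) (.exp (.alt (nat_lit 24) (.cov (nat_lit 2861551183230295605249)) (.alt (nat_lit 24) (.exp (.alt (nat_lit 25) (.cov (nat_lit 2843104441355610357760)) (.alt (nat_lit 8) (.cov (nat_lit 174760919048)) .e))) .e))) .e)) (.alt (nat_lit 26) (.cov (nat_lit 156489482832)) .e)))) .e)) .e)) .e)) (.alt (nat_lit 30) (.cov (nat_lit 63369185469315974955009)) (.alt (nat_lit 30) (.exp (.alt (nat_lit 31) (.exp (.alt (nat_lit 23) (.exp (.alt (nat_lit 19) (.exp (.alt (nat_lit 27) (.exp (.alt (nat_lit 18) (.exp (.alt (nat_lit 29) (.cov (nat_lit 6403326045383138738177)) (.alt (nat_lit 29) (.exp (.alt (nat_lit 25) (.cov (nat_lit 21527350345014172450816)) (.alt (nat_lit 13) (.cov (nat_lit 157044178952)) .e))) .e))) .e)) .e)) .e)) .e)) (.alt (nat_lit 28) (.cov (nat_lit 48028404458926672707587)) (.alt (nat_lit 28) (.exp (.alt (nat_lit 24) (.exp (.alt (nat_lit 29) (.cov (nat_lit 2875386265640979398658)) (.alt (nat_lit 29) (.cov (nat_lit 404557850266479698640897)) (.alt (nat_lit 29) (.exp (.alt (nat_lit 21) (.cov (nat_lit 4245057006351317729283)) (.alt (nat_lit 25) (.exp (.alt (nat_lit 9) (.exp (.alt (nat_lit 17) (.cov (nat_lit 2847716125175055384577)) (.alt (nat_lit 17) (.exp (.alt (nat_lit 19) (.cov (nat_lit 421969281681250582528)) (.alt (nat_lit 16) (.cov (nat_lit 2971664392)) .e))) .e))) .e)) (.alt (nat_lit 21) (.cov (nat_lit 156549251664)) .e)))) .e)))) .e)) (.alt (nat_lit 22) (.cov (nat_lit 21800946835)) .e))))) .e))))) .e)))))))) .e)))))))) .e)) .e)) .e)) .e)) (.alt (nat_lit 2) (.exp (.alt (nat_lit 6) (.exp (.alt (nat_lit 7) (.exp (.alt (nat_lit 23) (.exp (.alt (nat_lit 10) (.cov (nat_lit 404311126768727288184851)) (.alt (nat_lit 10) (.cov (nat_lit 18454634172063416331)) (.alt (nat_lit 10) (.cov (nat_lit 133747910529918173186)) (.alt (nat_lit 10) (.cov (nat_lit 29132032734606374469633)) (.alt (nat_lit 10) (.exp (.alt (nat_lit 8) (.cov (nat_lit 470393275701654454306)) (.alt (nat_lit 11) (.cov (nat_lit 1496495409318528548871)) (.alt (nat_lit 11) (.cov (nat_lit 62264826710667034627)) (.alt (nat_lit 11) (.exp (.alt (nat_lit 9) (.exp (.alt (nat_lit 27) (.cov (nat_lit 25590245861389130268683)) (.alt (nat_lit 27) (.exp (.alt (nat_lit 26) (.exp (.alt (nat_lit 18) (.exp (.alt (nat_lit 24) (.exp (.alt (nat_lit 25) (.cov (nat_lit 10175685217252403052547)) (.alt (nat_lit 25) (.exp (.alt (nat_lit 17) (.exp (.alt (nat_lit 29) (.cov (nat_lit 365383883248798069161985)) (.alt (nat_lit 29) (.exp (.alt (nat_lit 28) (.cov (nat_lit 25281262764014069350400)) (.alt (nat_lit 31) (.cov (nat_lit 12144607240)) .e))) .e))) .e)) (.alt (nat_lit 25) (.cov (nat_lit 10465837648)) .e)))) .e)) .e)) .e)) (.alt (nat_lit 27) (.cov (nat_lit 502678660039255785473)) (.alt (nat_lit 27) (.exp (.alt (nat_lit 26) (.exp (.alt (nat_lit 18) (.exp (.alt (nat_lit 16) (.exp (.alt (nat_lit 17) (.exp (.alt (nat_lit 24) (.exp (.alt (nat_lit 30) (.cov (nat_lit 102111951828815372615681)) (.alt (nat_lit 30) (.exp (.alt (nat_lit 28) (.cov (nat_lit 21538879560060244066304)) (.alt (nat_lit 22) (.cov (nat_lit 10523508744)) .e))) .e))) .e)) .e)) .e)) .e)) (.alt (nat_lit 31) (.cov (nat_lit 104696802253362522226691)) (.alt (nat_lit 31) (.exp (.alt (nat_lit 30) (.exp (.alt (nat_lit 29) (.cov (nat_lit 417357617673692774402)) (.alt (nat_lit 29) (.cov (nat_lit 417357729803227103233)) (.alt (nat_lit 29) (.exp (.alt (nat_lit 21) (.cov (nat_lit 63281555562452854243331)) (.alt (nat_lit 28) (.exp (.alt (nat_lit 12) (.exp (.alt (nat_lit 20) (.cov (nat_lit 6382573458300224929793)) (.alt (nat_lit 20) (.exp (.alt (nat_lit 16) (.cov (nat_lit 6401020204572349562880)) (.alt (nat_lit 22) (.cov (nat_lit 824180744)) .e))) .e))) .e)) (.alt (nat_lit 21) (.cov (nat_lit 1933574736)) .e)))) .e)))) .e)) (.alt (nat_lit 19) (.cov (nat_lit 185004461203)) .e))))) .e))))) .e)) (.alt (nat_lit 11) (.cov (nat_lit 11585722459)) .e)))))) .e)))))) .e)) .e)) .e)) (.alt (nat_lit 2) (.cov (nat_lit 6516329300706228961281)) (.alt (nat_lit 2) (.exp (.alt (nat_lit 6) (.exp (.alt (nat_lit 10) (.cov (nat_lit 404311126768738562474201)) (.alt (nat_lit 10) (.cov (nat_lit 1494189566309313806429)) (.alt (nat_lit 10) (.exp (.alt (nat_lit 11) (.exp (.alt (nat_lit 9) (.exp (.alt (nat_lit 27) (.exp (.alt (nat_lit 19) (.exp (.alt (nat_lit 18) (.exp (.alt (nat_lit 17) (.exp (.alt (nat_lit 14) (.cov (nat_lit 22754058847915876548615)) (.alt (nat_lit 14) (.cov (nat_lit 659471241393253384195)) (.alt (nat_lit 14) (.cov (nat_lit 1840063141375746506753)) (.alt (nat_lit 14) (.exp (.alt (nat_lit 12) (.exp (.alt (nat_lit 30) (.cov (nat_lit 2868468721065529442306)) (.alt (nat_lit 30) (.cov (nat_lit 641024389546816569345)) (.alt (nat_lit 30) (.cov (nat_lit 25285874586371953262592)) (.alt (nat_lit 30) (.exp (.alt (nat_lit 22) (.cov (nat_lit 2850021968185417269251)) (.alt (nat_lit 22) (.cov (nat_lit 1448069427388174303233)) (.alt (nat_lit 22) (.cov (nat_lit 1448069442771572752384)) (.alt (nat_lit 22) (.exp (.alt (nat_lit 20) (.cov (nat_lit 433498494528323059713)) (.alt (nat_lit 23) (.cov (nat_lit 223346703)) .e))) .e))))) .e))))) .e)) (.alt (nat_lit 14) (.exp (.alt (nat_lit 30) (.cov (nat_lit 641024389567421087746)) (.alt (nat_lit 12) (.cov (nat_lit 654859555510549479425)) (.alt (nat_lit 12) (.exp (.alt (nat_lit 28) (.cov (nat_lit 6414855269235076104195)) (.alt (nat_lit 28) (.cov (nat_lit 6414855394569033351168)) (.alt (nat_lit 4) (.cov (nat_lit 9785311423)) .e)))) .e)))) .e)))))) .e)) .e)) .e)) .e)) .e)) .e)) (.alt (nat_lit 10) (.cov (nat_lit 21531971036080376905739)) (.alt (nat_lit 10) (.cov (nat_lit 59962897962847174662)) (.alt (nat_lit 10) (.exp (.alt (nat_lit 11) (.exp (.alt (nat_lit 9) (.exp (.alt (nat_lit 27) (.exp (.alt (nat_lit 26) (.exp (.alt (nat_lit 18) (.exp (.alt (nat_lit 19) (.exp (.alt (nat_lit 17) (.exp (.alt (nat_lit 22) (.exp (.alt (nat_lit 30) (.exp (.alt (nat_lit 23) (.exp (.alt (nat_lit 24) (.cov (nat_lit 102111951828815936749569)) (.alt (nat_lit 24) (.exp (.alt (nat_lit 28) (.cov (nat_lit 21538879560060244066304)) (.alt (nat_lit 16) (.cov (nat_lit 10523508744)) .e))) .e))) .e)) .e)) .e)) .e)) .e)) (.alt (nat_lit 18) (.exp (.alt (nat_lit 19) (.exp (.alt (nat_lit 17) (.exp (.alt (nat_lit 23) (.exp (.alt (nat_lit 22) (.exp (.alt (nat_lit 30) (.exp (.alt (nat_lit 24) (.cov (nat_lit 102111951828815936749569)) (.alt (nat_lit 24) (.exp (.alt (nat_lit 28) (.cov (nat_lit 21538879560060244066304)) (.alt (nat_lit 16) (.cov (nat_lit 10523508744)) .e))) .e))) .e)) .e)) .e)) .e)) (.alt (nat_lit 19) (.exp (.alt (nat_lit 17) (.exp (.alt (nat_lit 21) (.exp (.alt (nat_lit 23) (.exp (.alt (nat_lit 20) (.exp (.alt (nat_lit 24) (.cov (nat_lit 404343406732473239863297)) (.alt (nat_lit 24) (.exp (.alt (nat_lit 28) (.cov (nat_lit 404306513246524244230144)) (.alt (nat_lit 25) (.cov (nat_lit 4627365896)) .e))) .e))) .e)) .e)) .e)) .e)) .e))) .e))) (.alt (nat_lit 26) (.cov (nat_lit 29141244370465895481359)) (.alt (nat_lit 26) (.exp (.alt (nat_lit 18) (.exp (.alt (nat_lit 16) (.exp (.alt (nat_lit 24) (.exp (.alt (nat_lit 17) (.exp (.alt (nat_lit 30) (.cov (nat_lit 365383883257605637799938)) (.alt (nat_lit 30) (.cov (nat_lit 641024389546803986433)) (.alt (nat_lit 30) (.cov (nat_lit 404550932741840321904640)) (.alt (nat_lit 30) (.exp (.alt (nat_lit 22) (.cov (nat_lit 365365436504725525626883)) (.alt (nat_lit 22) (.cov (nat_lit 23141440458070607003649)) (.alt (nat_lit 22) (.cov (nat_lit 23141440473454005452800)) (.alt (nat_lit 22) (.exp (.alt (nat_lit 20) (.cov (nat_lit 25283568604834015739905)) (.alt (nat_lit 23) (.cov (nat_lit 3545235471)) .e))) .e))))) .e))))) .e)) .e)) .e)) .e)) (.alt (nat_lit 8) (.cov (nat_lit 276704457487921709059)) (.alt (nat_lit 8) (.cov (nat_lit 2859252396896477511681)) (.alt (nat_lit 8) (.exp (.alt (nat_lit 12) (.exp (.alt (nat_lit 24) (.cov (nat_lit 2863857050428987408395)) (.alt (nat_lit 24) (.cov (nat_lit 1461904615178955128838)) (.alt (nat_lit 24) (.cov (nat_lit 654859834630147670018)) (.alt (nat_lit 24) (.cov (nat_lit 1365060908643833085953)) (.alt (nat_lit 24) (.cov (nat_lit 1365062357790394155008)) (.alt (nat_lit 24) (.exp (.alt (nat_lit 26) (.cov (nat_lit 115292183446333423623)) (.alt (nat_lit 26) (.cov (nat_lit 659471241372623699971)) (.alt (nat_lit 16) (.cov (nat_lit 636413090566204555265)) (.alt (nat_lit 16) (.exp (.alt (nat_lit 18) (.exp (.alt (nat_lit 20) (.cov (nat_lit 21741793751471015067650)) (.alt (nat_lit 17) (.cov (nat_lit 6394102697535546064897)) (.alt (nat_lit 17) (.cov (nat_lit 638718654289701502976)) (.alt (nat_lit 17) (.cov (nat_lit 4652531903)) .e))))) .e)) (.alt (nat_lit 26) (.cov (nat_lit 622855643)) .e)))))) .e))))))) .e)) (.alt (nat_lit 8) (.exp (.alt (nat_lit 24) (.cov (nat_lit 45637244985693291151371)) (.alt (nat_lit 24) (.cov (nat_lit 22860129440570531643394)) (.alt (nat_lit 12) (.cov (nat_lit 1466519450352147759105)) (.alt (nat_lit 12) (.cov (nat_lit 9793703940)) .e))))) .e)))))))) .e)) .e)) .e)) (.alt (nat_lit 10) (.exp (.alt (nat_lit 11) (.exp (.alt (nat_lit 9) (.exp (.alt (nat_lit 26) (.cov (nat_lit 22043859953134839267362)) (.alt (nat_lit 8) (.cov (nat_lit 21527353630511283044359)) (.alt (nat_lit 8) (.cov (nat_lit 25290493190563933716483)) (.alt (nat_lit 8) (.cov (nat_lit 55351211944256208896)) (.alt (nat_lit 8) (.cov (nat_lit 25172060)) .e)))))) .e)) .e)) (.alt (nat_lit 10) (.cov (nat_lit 1461917118822279544832)) (.alt (nat_lit 10) (.exp (.alt (nat_lit 26) (.exp (.alt (nat_lit 18) (.exp (.alt (nat_lit 16) (.exp (.alt (nat_lit 17) (.exp (.alt (nat_lit 20) (.exp (.alt (nat_lit 19) (.exp (.alt (nat_lit 27) (.exp (.alt (nat_lit 23) (.exp (.alt (nat_lit 24) (.cov (nat_lit 387381643140115988482)) (.alt (nat_lit 24) (.cov (nat_lit 104574592186844859858945)) (.alt (nat_lit 24) (.cov (nat_lit 350176848840528245030912)) (.alt (nat_lit 24) (.exp (.alt (nat_lit 25) (.cov (nat_lit 389687477353237708803)) (.alt (nat_lit 25) (.cov (nat_lit 10175685217252226891777)) (.alt (nat_lit 25) (.cov (nat_lit 10175685232645389680640)) (.alt (nat_lit 25) (.exp (.alt (nat_lit 29) (.cov (nat_lit 398910849390124990465)) (.alt (nat_lit 9) (.cov (nat_lit 46419410959)) .e))) .e))))) .e))))) .e)) .e)) .e)) .e)) .e)) .e)) (.alt (nat_lit 18) (.exp (.alt (nat_lit 16) (.exp (.alt (nat_lit 17) (.exp (.alt (nat_lit 24) (.exp (.alt (nat_lit 8) (.exp (.alt (nat_lit 9) (.exp (.alt (nat_lit 12) (.exp (.alt (nat_lit 30) (.cov (nat_lit 1621007653069435961346)) (.alt (nat_lit 27) (.cov (nat_lit 661776976630302900225)) (.alt (nat_lit 27) (.cov (nat_lit 661777084381830053888)) (.alt (nat_lit 27) (.cov (nat_lit 4663017663)) .e))))) .e)) .e)) .e)) .e)) .e)) .e)) .e))) (.alt (nat_lit 11) (.cov (nat_lit 1496495409318528548898)) (.alt (nat_lit 11) (.cov (nat_lit 5112061030093015744527)) (.alt (nat_lit 11) (.exp (.alt (nat_lit 9) (.exp (.alt (nat_lit 13) (.exp (.alt (nat_lit 12) (.exp (.alt (nat_lit 29) (.exp (.alt (nat_lit 27) (.cov (nat_lit 6417161127638561980427)) (.alt (nat_lit 27) (.cov (nat_lit 1371976836784255401990)) (.alt (nat_lit 27) (.cov (nat_lit 25442672183678065442818)) (.alt (nat_lit 27) (.cov (nat_lit 412747745838576435201)) (.alt (nat_lit 27) (.cov (nat_lit 43814313510946471936)) (.alt (nat_lit 27) (.exp (.alt (nat_lit 25) (.cov (nat_lit 25438060110631442317319)) (.alt (nat_lit 25) (.cov (nat_lit 25438060218383044968451)) (.alt (nat_lit 19) (.cov (nat_lit 2992984645982598725633)) (.alt (nat_lit 19) (.exp (.alt (nat_lit 17) (.exp (.alt (nat_lit 18) (.cov (nat_lit 2840798604946365743106)) (.alt (nat_lit 18) (.cov (nat_lit 3947603264759215947777)) (.alt (nat_lit 18) (.cov (nat_lit 21753323195212610142208)) (.alt (nat_lit 18) (.exp (.alt (nat_lit 16) (.cov (nat_lit 1604866743208878538755)) (.alt (nat_lit 16) (.cov (nat_lit 1817004308852635598849)) (.alt (nat_lit 16) (.cov (nat_lit 1817004324245764833280)) (.alt (nat_lit 16) (.exp (.alt (nat_lit 20) (.cov (nat_lit 1614090115245701857281)) (.alt (nat_lit 24) (.cov (nat_lit 11504975887)) .e))) .e))))) .e))))) .e)) (.alt (nat_lit 25) (.cov (nat_lit 17827291)) .e)))))) .e))))))) .e)) .e)) .e)) .e)) (.alt (nat_lit 11) (.cov (nat_lit 62268740972498124803)) (.alt (nat_lit 11) (.cov (nat_lit 21534281582753392623617)) (.alt (nat_lit 11) (.exp (.alt (nat_lit 9) (.exp (.alt (nat_lit 27) (.cov (nat_lit 43811437188534501397)) (.alt (nat_lit 27) (.cov (nat_lit 21529658024212424556555)) (.alt (nat_lit 27) (.cov (nat_lit 5148952321417308798982)) (.alt (nat_lit 27) (.exp (.alt (nat_lit 25) (.exp (.alt (nat_lit 17) (.exp (.alt (nat_lit 24) (.exp (.alt (nat_lit 26) (.cov (nat_lit 29067457007133797646343)) (.alt (nat_lit 26) (.exp (.alt (nat_lit 18) (.exp (.alt (nat_lit 19) (.exp (.alt (nat_lit 23) (.exp (.alt (nat_lit 30) (.cov (nat_lit 365383883248798102716417)) (.alt (nat_lit 30) (.exp (.alt (nat_lit 28) (.cov (nat_lit 6391796832535488495616)) (.alt (nat_lit 31) (.cov (nat_lit 3553624072)) .e))) .e))) .e)) .e)) .e)) (.alt (nat_lit 26) (.cov (nat_lit 29141244370456158404609)) (.alt (nat_lit 26) (.exp (.alt (nat_lit 18) (.exp (.alt (nat_lit 30) (.cov (nat_lit 102111951837611432083458)) (.alt (nat_lit 30) (.cov (nat_lit 25306627059105688190977)) (.alt (nat_lit 30) (.cov (nat_lit 29143549940786450661376)) (.alt (nat_lit 30) (.exp (.alt (nat_lit 31) (.cov (nat_lit 102114257671824553803779)) (.alt (nat_lit 31) (.cov (nat_lit 7814501975817418964993)) (.alt (nat_lit 31) (.cov (nat_lit 7814501991210581753856)) (.alt (nat_lit 31) (.exp (.alt (nat_lit 29) (.cov (nat_lit 48422711989594226689)) (.alt (nat_lit 23) (.cov (nat_lit 3545235471)) .e))) .e))))) .e))))) .e)) (.alt (nat_lit 19) (.exp (.alt (nat_lit 23) (.cov (nat_lit 7796055247138146222082)) (.alt (nat_lit 18) (.cov (nat_lit 42109305181595657830401)) (.alt (nat_lit 18) (.exp (.alt (nat_lit 22) (.cov (nat_lit 63133981609864324972547)) (.alt (nat_lit 22) (.exp (.alt (nat_lit 23) (.exp (.alt (nat_lit 30) (.cov (nat_lit 365383883248798102716417)) (.alt (nat_lit 30) (.exp (.alt (nat_lit 28) (.cov (nat_lit 365346989762849671217152)) (.alt (nat_lit 31) (.cov (nat_lit 3553624072)) .e))) .e))) .e)) (.alt (nat_lit 16) (.cov (nat_lit 156585951423)) .e)))) .e)))) .e)))))) .e)) .e)) .e)) (.alt (nat_lit 27) (.exp (.alt (nat_lit 25) (.exp (.alt (nat_lit 17) (.exp (.alt (nat_lit 26) (.exp (.alt (nat_lit 24) (.exp (.alt (nat_lit 28) (.exp (.alt (nat_lit 29) (.exp (.alt (nat_lit 12) (.exp (.alt (nat_lit 18) (.cov (nat_lit 1821615988274558402561)) (.alt (nat_lit 18) (.exp (.alt (nat_lit 22) (.cov (nat_lit 21525044502004970291200)) (.alt (nat_lit 19) (.cov (nat_lit 292552712)) .e))) .e))) .e)) .e)) .e)) .e)) (.alt (nat_lit 26) (.cov (nat_lit 29141244370457305546755)) (.alt (nat_lit 26) (.exp (.alt (nat_lit 24) (.exp (.alt (nat_lit 30) (.exp (.alt (nat_lit 28) (.exp (.alt (nat_lit 29) (.exp (.alt (nat_lit 12) (.exp (.alt (nat_lit 22) (.cov (nat_lit 126821376501888319488)) (.alt (nat_lit 31) (.cov (nat_lit 24117256)) .e))) .e)) .e)) .e)) (.alt (nat_lit 18) (.cov (nat_lit 404550932739641907871745)) (.alt (nat_lit 18) (.exp (.alt (nat_lit 22) (.cov (nat_lit 63133981609864324972547)) (.alt (nat_lit 22) (.exp (.alt (nat_lit 30) (.exp (.alt (nat_lit 20) (.cov (nat_lit 102111951828815371567105)) (.alt (nat_lit 23) (.cov (nat_lit 3545235471)) .e))) .e)) (.alt (nat_lit 16) (.cov (nat_lit 156585951423)) .e)))) .e)))) .e)) (.alt (nat_lit 19) (.cov (nat_lit 186649751)) .e))))) .e)) .e)) (.alt (nat_lit 27) (.cov (nat_lit 3159017085420413386752)) (.alt (nat_lit 27) (.exp (.alt (nat_lit 25) (.exp (.alt (nat_lit 17) (.exp (.alt (nat_lit 19) (.exp (.alt (nat_lit 18) (.exp (.alt (nat_lit 21) (.exp (.alt (nat_lit 29) (.exp (.alt (nat_lit 23) (.exp (.alt (nat_lit 24) (.cov (nat_lit 404343406732473230426113)) (.alt (nat_lit 24) (.exp (.alt (nat_lit 28) (.cov (nat_lit 2651719471590876905472)) (.alt (nat_lit 16) (.cov (nat_lit 1933574152)) .e))) .e))) .e)) .e)) .e)) .e)) .e)) (.alt (nat_lit 17) (.exp (.alt (nat_lit 19) (.exp (.alt (nat_lit 18) (.exp (.alt (nat_lit 23) (.exp (.alt (nat_lit 21) (.exp (.alt (nat_lit 29) (.exp (.alt (nat_lit 24) (.cov (nat_lit 404343406732473230426113)) (.alt (nat_lit 24) (.exp (.alt (nat_lit 28) (.cov (nat_lit 2651719471590876905472)) (.alt (nat_lit 16) (.cov (nat_lit 1933574152)) .e))) .e))) .e)) .e)) .e)) .e)) (.alt (nat_lit 19) (.exp (.alt (nat_lit 18) (.exp (.alt (nat_lit 22) (.exp (.alt (nat_lit 23) (.exp (.alt (nat_lit 20) (.exp (.alt (nat_lit 24) (.cov (nat_lit 102111951828815947235329)) (.alt (nat_lit 24) (.exp (.alt (nat_lit 28) (.cov (nat_lit 102075058342866951602176)) (.alt (nat_lit 26) (.cov (nat_lit 13218349064)) .e))) .e))) .e)) .e)) .e)) .e)) .e))) .e))) (.alt (nat_lit 25) (.cov (nat_lit 10249472595969510998031)) (.alt (nat_lit 25) (.exp (.alt (nat_lit 17) (.exp (.alt (nat_lit 16) (.exp (.alt (nat_lit 24) (.exp (.alt (nat_lit 18) (.exp (.alt (nat_lit 29) (.cov (nat_lit 365383883257597047865346)) (.alt (nat_lit 29) (.cov (nat_lit 638718546537555689473)) (.alt (nat_lit 29) (.cov (nat_lit 102317171995173813485568)) (.alt (nat_lit 29) (.exp (.alt (nat_lit 21) (.cov (nat_lit 365365436504734115561475)) (.alt (nat_lit 21) (.cov (nat_lit 4251974526592026148865)) (.alt (nat_lit 21) (.cov (nat_lit 4251974541975424598016)) (.alt (nat_lit 21) (.exp (.alt (nat_lit 20) (.cov (nat_lit 6396408516364648579073)) (.alt (nat_lit 23) (.cov (nat_lit 12136218639)) .e))) .e))))) .e))))) .e)) .e)) .e)) .e)) (.alt (nat_lit 25) (.cov (nat_lit 112989606032790519811)) (.alt (nat_lit 25) (.cov (nat_lit 2621750639515247050753)) (.alt (nat_lit 25) (.exp (.alt (nat_lit 17) (.exp (.alt (nat_lit 24) (.exp (.alt (nat_lit 16) (.cov (nat_lit 1440051154437807914048382522359808)) (.alt (nat_lit 8) (.cov (nat_lit 2863857050585804046343)) .e))) (.alt (nat_lit 24) (.cov (nat_lit 102333312984200528265222)) (.alt (nat_lit 24) (.exp (.alt (nat_lit 28) (.exp (.alt (nat_lit 29) (.exp (.alt (nat_lit 12) (.exp (.alt (nat_lit 16) (.cov (nat_lit 6534759099118221524995)) (.alt (nat_lit 16) (.cov (nat_lit 1817004308862360092673)) (.alt (nat_lit 16) (.cov (nat_lit 1817004324245758541824)) (.alt (nat_lit 16) (.exp (.alt (nat_lit 18) (.cov (nat_lit 1821615988274558402561)) (.alt (nat_lit 18) (.exp (.alt (nat_lit 22) (.cov (nat_lit 126821376501900902400)) (.alt (nat_lit 19) (.cov (nat_lit 292552712)) .e))) .e))) .e))))) .e)) .e)) .e)) (.alt (nat_lit 24) (.cov (nat_lit 184469287917242548225)) (.alt (nat_lit 24) (.cov (nat_lit 364028052432415927304192)) (.alt (nat_lit 24) (.exp (.alt (nat_lit 16) (.cov (nat_lit 23141440473463932321799)) (.alt (nat_lit 16) (.exp (.alt (nat_lit 18) (.exp (.alt (nat_lit 19) (.exp (.alt (nat_lit 23) (.exp (.alt (nat_lit 20) (.cov (nat_lit 404343406732482396028929)) (.alt (nat_lit 20) (.exp (.alt (nat_lit 28) (.cov (nat_lit 69175301271539679232)) (.alt (nat_lit 21) (.cov (nat_lit 4627365896)) .e))) .e))) .e)) .e)) .e)) (.alt (nat_lit 16) (.cov (nat_lit 344336148671922570264577)) (.alt (nat_lit 16) (.exp (.alt (nat_lit 18) (.exp (.alt (nat_lit 20) (.cov (nat_lit 102111951837614317764610)) (.alt (nat_lit 20) (.cov (nat_lit 25283568629023271550977)) (.alt (nat_lit 20) (.cov (nat_lit 344338454242243121250304)) (.alt (nat_lit 20) (.exp (.alt (nat_lit 21) (.cov (nat_lit 102114257671827439484931)) (.alt (nat_lit 21) (.cov (nat_lit 10175685217252241571841)) (.alt (nat_lit 21) (.cov (nat_lit 10175685232645404360704)) (.alt (nat_lit 21) (.exp (.alt (nat_lit 29) (.cov (nat_lit 6417161103437816922113)) (.alt (nat_lit 23) (.cov (nat_lit 4629463055)) .e))) .e))))) .e))))) .e)) (.alt (nat_lit 16) (.exp (.alt (nat_lit 20) (.exp (.alt (nat_lit 28) (.exp (.alt (nat_lit 29) (.exp (.alt (nat_lit 12) (.exp (.alt (nat_lit 22) (.cov (nat_lit 21525044502004968194048)) (.alt (nat_lit 21) (.cov (nat_lit 2976907272)) .e))) .e)) .e)) .e)) (.alt (nat_lit 18) (.cov (nat_lit 404550932739641907871745)) (.alt (nat_lit 18) (.exp (.alt (nat_lit 22) (.cov (nat_lit 405602397024310879322115)) (.alt (nat_lit 22) (.exp (.alt (nat_lit 20) (.exp (.alt (nat_lit 30) (.cov (nat_lit 102111951828825112838145)) (.alt (nat_lit 23) (.cov (nat_lit 4629463055)) .e))) .e)) (.alt (nat_lit 26) (.cov (nat_lit 13251903679)) .e)))) .e)))) .e)))))) .e))))))) .e)) (.alt (nat_lit 25) (.exp (.alt (nat_lit 17) (.cov (nat_lit 45563458005010601738251)) (.alt (nat_lit 17) (.exp (.alt (nat_lit 16) (.exp (.alt (nat_lit 24) (.exp (.alt (nat_lit 18) (.exp (.alt (nat_lit 21) (.cov (nat_lit 4251974526583436214275)) (.alt (nat_lit 21) (.exp (.alt (nat_lit 29) (.exp (.alt (nat_lit 20) (.cov (nat_lit 6396408516364648579073)) (.alt (nat_lit 23) (.cov (nat_lit 12136218639)) .e))) .e)) (.alt (nat_lit 21) (.cov (nat_lit 4660920677)) .e)))) .e)) .e)) .e)) (.alt (nat_lit 17) (.cov (nat_lit 1450380163224124260353)) (.alt (nat_lit 17) (.exp (.alt (nat_lit 16) (.exp (.alt (nat_lit 24) (.exp (.alt (nat_lit 28) (.exp (.alt (nat_lit 29) (.exp (.alt (nat_lit 12) (.exp (.alt (nat_lit 18) (.cov (nat_lit 1821615988274558402561)) (.alt (nat_lit 18) (.exp (.alt (nat_lit 22) (.cov (nat_lit 126821376501900902400)) (.alt (nat_lit 19) (.cov (nat_lit 292552712)) .e))) .e))) .e)) .e)) .e)) .e)) (.alt (nat_lit 16) (.cov (nat_lit 344336148671924287832067)) (.alt (nat_lit 16) (.exp (.alt (nat_lit 24) (.exp (.alt (nat_lit 20) (.exp (.alt (nat_lit 28) (.exp (.alt (nat_lit 29) (.exp (.alt (nat_lit 12) (.exp (.alt (nat_lit 22) (.cov (nat_lit 21525044502004968194048)) (.alt (nat_lit 21) (.cov (nat_lit 2976907272)) .e))) .e)) .e)) .e)) (.alt (nat_lit 18) (.cov (nat_lit 404550932739641907871745)) (.alt (nat_lit 18) (.exp (.alt (nat_lit 22) (.cov (nat_lit 405602397024310879322115)) (.alt (nat_lit 22) (.exp (.alt (nat_lit 20) (.exp (.alt (nat_lit 30) (.cov (nat_lit 102111951828825112838145)) (.alt (nat_lit 23) (.cov (nat_lit 4629463055)) .e))) .e)) (.alt (nat_lit 26) (.cov (nat_lit 13251903679)) .e)))) .e)))) .e)) (.alt (nat_lit 19) (.cov (nat_lit 186649751)) .e))))) .e))))) .e)))))))) .e)))))))) .e)) (.alt (nat_lit 11) (.exp (.alt (nat_lit 9) (.cov (nat_lit 21575774884392363622418)) (.alt (nat_lit 9) (.cov (nat_lit 45556545221463943151627)) (.alt (nat_lit 9) (.cov (nat_lit 647950903829838430210)) (.alt (nat_lit 9) (.cov (nat_lit 57657054953470951425)) (.alt (nat_lit 9) (.exp (.alt (nat_lit 25) (.cov (nat_lit 3154394021656257364002)) (.alt (nat_lit 8) (.cov (nat_lit 21527353630511283044359)) (.alt (nat_lit 8) (.cov (nat_lit 6401027259222791815171)) (.alt (nat_lit 8) (.cov (nat_lit 55351211944256208896)) (.alt (nat_lit 8) (.cov (nat_lit 25172060)) .e)))))) .e)))))) .e))))))))) .e)))))))))) .e)) (.alt (nat_lit 2) (.exp (.alt (nat_lit 6) (.cov (nat_lit 406893674002286418854105)) (.alt (nat_lit 6) (.cov (nat_lit 406819891133766418038802)) (.alt (nat_lit 6) (.cov (nat_lit 365499186372384789626891)) (.alt (nat_lit 10) (.exp (.alt (nat_lit 11) (.exp (.alt (nat_lit 9) (.exp (.alt (nat_lit 27) (.exp (.alt (nat_lit 26) (.cov (nat_lit 347900982889955905765410)) (.alt (nat_lit 8) (.cov (nat_lit 43119267568641726480391)) (.alt (nat_lit 8) (.cov (nat_lit 2859252396898188787715)) (.alt (nat_lit 8) (.exp (.alt (nat_lit 12) (.exp (.alt (nat_lit 24) (.cov (nat_lit 47924641338793201238027)) (.alt (nat_lit 24) (.exp (.alt (nat_lit 16) (.exp (.alt (nat_lit 18) (.exp (.alt (nat_lit 17) (.exp (.alt (nat_lit 28) (.cov (nat_lit 29044398561647939026947)) (.alt (nat_lit 28) (.exp (.alt (nat_lit 20) (.exp (.alt (nat_lit 30) (.cov (nat_lit 25306627035072770867201)) (.alt (nat_lit 29) (.cov (nat_lit 3555721231)) .e))) .e)) (.alt (nat_lit 26) (.cov (nat_lit 156596437183)) .e)))) .e)) .e)) .e)) (.alt (nat_lit 24) (.cov (nat_lit 1687881993163403952129)) (.alt (nat_lit 24) (.exp (.alt (nat_lit 16) (.exp (.alt (nat_lit 18) (.exp (.alt (nat_lit 22) (.exp (.alt (nat_lit 6) (.exp (.alt (nat_lit 23) (.exp (.alt (nat_lit 20) (.cov (nat_lit 2852327811193495355393)) (.alt (nat_lit 17) (.cov (nat_lit 9786359823)) .e))) .e)) .e)) .e)) .e)) (.alt (nat_lit 26) (.cov (nat_lit 344359207102004976418819)) (.alt (nat_lit 26) (.exp (.alt (nat_lit 18) (.exp (.alt (nat_lit 30) (.cov (nat_lit 1694794644941281689602)) (.alt (nat_lit 30) (.cov (nat_lit 788598452087661002753)) (.alt (nat_lit 30) (.exp (.alt (nat_lit 28) (.cov (nat_lit 404324959997205391867907)) (.alt (nat_lit 22) (.exp (.alt (nat_lit 6) (.exp (.alt (nat_lit 20) (.cov (nat_lit 25283568604824263983105)) (.alt (nat_lit 20) (.exp (.alt (nat_lit 21) (.cov (nat_lit 25302015351096997838848)) (.alt (nat_lit 16) (.cov (nat_lit 1360003080)) .e))) .e))) .e)) (.alt (nat_lit 28) (.cov (nat_lit 11597251152)) .e)))) .e)))) .e)) (.alt (nat_lit 26) (.cov (nat_lit 20654853266)) .e))))) .e))))) .e)) (.alt (nat_lit 8) (.cov (nat_lit 4609546331)) .e)))))) .e)) .e)) .e)) (.alt (nat_lit 10) (.cov (nat_lit 133755149714307678209)) (.alt (nat_lit 6) (.exp (.alt (nat_lit 4) (.cov (nat_lit 47915421027796441366566)) (.alt (nat_lit 4) (.cov (nat_lit 45406667602898406342690)) (.alt (nat_lit 4) (.cov (nat_lit 46127839908005412871)) (.alt (nat_lit 4) (.cov (nat_lit 46130579890545623043)) (.alt (nat_lit 4) (.exp (.alt (nat_lit 12) (.exp (.alt (nat_lit 20) (.cov (nat_lit 22053084387345833132052)) (.alt (nat_lit 20) (.cov (nat_lit 22053085836455645806603)) (.alt (nat_lit 20) (.exp (.alt (nat_lit 16) (.exp (.alt (nat_lit 17) (.exp (.alt (nat_lit 18) (.exp (.alt (nat_lit 28) (.cov (nat_lit 10164156125351751188487)) (.alt (nat_lit 28) (.cov (nat_lit 10164156404630321889283)) (.alt (nat_lit 21) (.cov (nat_lit 22055391679464866840576)) (.alt (nat_lit 21) (.cov (nat_lit 869273328)) .e))))) .e)) .e)) .e)) (.alt (nat_lit 20) (.cov (nat_lit 23159900552404729331713)) (.alt (nat_lit 20) (.exp (.alt (nat_lit 16) (.cov (nat_lit 344345372969739088822306)) (.alt (nat_lit 16) (.cov (nat_lit 25421922473073224712199)) (.alt (nat_lit 16) (.cov (nat_lit 22043861433076886274051)) (.alt (nat_lit 16) (.exp (.alt (nat_lit 17) (.exp (.alt (nat_lit 18) (.cov (nat_lit 46677180294998282731531)) (.alt (nat_lit 18) (.exp (.alt (nat_lit 19) (.exp (.alt (nat_lit 23) (.exp (.alt (nat_lit 27) (.exp (.alt (nat_lit 26) (.cov (nat_lit 1383505823120412901379)) (.alt (nat_lit 26) (.exp (.alt (nat_lit 10) (.exp (.alt (nat_lit 24) (.cov (nat_lit 64563613210466320385)) (.alt (nat_lit 30) (.cov (nat_lit 47575990287)) .e))) .e)) (.alt (nat_lit 26) (.exp (.alt (nat_lit 24) (.cov (nat_lit 64563613054084841474)) (.alt (nat_lit 10) (.cov (nat_lit 165532401731)) .e))) .e)))) .e)) .e)) .e)) (.alt (nat_lit 18) (.cov (nat_lit 797826554223495479297)) (.alt (nat_lit 18) (.exp (.alt (nat_lit 19) (.cov (nat_lit 10171073654388880834567)) (.alt (nat_lit 19) (.cov (nat_lit 29060539865136536485891)) (.alt (nat_lit 19) (.exp (.alt (nat_lit 23) (.exp (.alt (nat_lit 27) (.cov (nat_lit 426580989689893748738)) (.alt (nat_lit 27) (.cov (nat_lit 6698474084702304075777)) (.alt (nat_lit 27) (.exp (.alt (nat_lit 11) (.cov (nat_lit 3859981215036555132931)) (.alt (nat_lit 25) (.exp (.alt (nat_lit 9) (.exp (.alt (nat_lit 24) (.cov (nat_lit 64563613210467368961)) (.alt (nat_lit 29) (.cov (nat_lit 185014943759)) .e))) .e)) (.alt (nat_lit 25) (.exp (.alt (nat_lit 24) (.cov (nat_lit 64563613054084841474)) (.alt (nat_lit 9) (.cov (nat_lit 28093448259)) .e))) .e)))) .e)))) .e)) (.alt (nat_lit 19) (.exp (.alt (nat_lit 27) (.cov (nat_lit 205220175154588418050)) (.alt (nat_lit 23) (.cov (nat_lit 10031728091)) .e))) .e))))) .e))))) .e)) (.alt (nat_lit 16) (.cov (nat_lit 2970622350)) .e)))))) .e)))))) .e)) (.alt (nat_lit 7) (.cov (nat_lit 9788463347)) .e))))))) .e))))))) .e))))))))))) .e)) .e)) .e)) (.alt (nat_lit 0) (.exp (.alt (nat_lit 1) (.exp (.alt (nat_lit 3) (.exp (.alt (nat_lit 2) (.cov (nat_lit 13844757946881278459)) (.alt (nat_lit 2) (.exp (.alt (nat_lit 6) (.exp (.alt (nat_lit 7) (.exp (.alt (nat_lit 5) (.exp (.alt (nat_lit 23) (.exp (.alt (nat_lit 4) (.exp (.alt (nat_lit 12) (.exp (.alt (nat_lit 20) (.exp (.alt (nat_lit 10) (.cov (nat_lit 42962467200557415137291)) (.alt (nat_lit 10) (.exp (.alt (nat_lit 11) (.exp (.alt (nat_lit 9) (.exp (.alt (nat_lit 27) (.exp (.alt (nat_lit 26) (.cov (nat_lit 6548594163769476644867)) (.alt (nat_lit 26) (.exp (.alt (nat_lit 18) (.exp (.alt (nat_lit 24) (.cov (nat_lit 64563613063867006977)) (.alt (nat_lit 30) (.cov (nat_lit 2982150159)) .e))) .e)) (.alt (nat_lit 26) (.exp (.alt (nat_lit 24) (.cov (nat_lit 64563613054093230082)) (.alt (nat_lit 18) (.cov (nat_lit 10385096771)) .e))) .e)))) .e)) .e)) .e)) (.alt (nat_lit 10) (.cov (nat_lit 59956791275098734593)) (.alt (nat_lit 10) (.exp (.alt (nat_lit 11) (.exp (.alt (nat_lit 9) (.exp (.alt (nat_lit 25) (.exp (.alt (nat_lit 17) (.exp (.alt (nat_lit 29) (.exp (.alt (nat_lit 27) (.cov (nat_lit 1609478429227271323649)) (.alt (nat_lit 27) (.exp (.alt (nat_lit 26) (.cov (nat_lit 22869350976376558059520)) (.alt (nat_lit 19) (.cov (nat_lit 119537672)) .e))) .e))) .e)) .e)) .e)) .e)) (.alt (nat_lit 11) (.cov (nat_lit 652553991641562611715)) (.alt (nat_lit 11) (.exp (.alt (nat_lit 9) (.exp (.alt (nat_lit 27) (.cov (nat_lit 1609478453416527134722)) (.alt (nat_lit 27) (.cov (nat_lit 1385811883842710011905)) (.alt (nat_lit 27) (.exp (.alt (nat_lit 19) (.cov (nat_lit 1441151898361131958275)) (.alt (nat_lit 26) (.exp (.alt (nat_lit 18) (.exp (.alt (nat_lit 24) (.cov (nat_lit 64563613063867006977)) (.alt (nat_lit 30) (.cov (nat_lit 2982150159)) .e))) .e)) (.alt (nat_lit 26) (.exp (.alt (nat_lit 24) (.cov (nat_lit 64563613054093230082)) (.alt (nat_lit 18) (.cov (nat_lit 10385096771)) .e))) .e)))) .e)))) .e)) (.alt (nat_lit 14) (.cov (nat_lit 9997126803)) .e))))) .e))))) .e)) .e)) .e)) .e)) .e)) .e)) (.alt (nat_lit 6) (.cov (nat_lit 41516153890318319635)) .e))) (.alt (nat_lit 2) (.cov (nat_lit 41860285173498300596258)) (.alt (nat_lit 2) (.exp (.alt (nat_lit 6) (.exp (.alt (nat_lit 7) (.exp (.alt (nat_lit 5) (.exp (.alt (nat_lit 23) (.exp (.alt (nat_lit 10) (.cov (nat_lit 404311126768727288184851)) (.alt (nat_lit 10) (.cov (nat_lit 18454634172063416331)) (.alt (nat_lit 10) (.cov (nat_lit 133747910529918173186)) (.alt (nat_lit 10) (.cov (nat_lit 29132032734606374469633)) (.alt (nat_lit 10) (.exp (.alt (nat_lit 8) (.cov (nat_lit 470393275701654454306)) (.alt (nat_lit 11) (.cov (nat_lit 1496495409318528548871)) (.alt (nat_lit 11) (.cov (nat_lit 62264826710667034627)) (.alt (nat_lit 11) (.exp (.alt (nat_lit 9) (.exp (.alt (nat_lit 27) (.cov (nat_lit 25590245861389130268683)) (.alt (nat_lit 27) (.exp (.alt (nat_lit 26) (.exp (.alt (nat_lit 18) (.exp (.alt (nat_lit 24) (.exp (.alt (nat_lit 25) (.cov (nat_lit 10175685217252403052547)) (.alt (nat_lit 25) (.exp (.alt (nat_lit 17) (.exp (.alt (nat_lit 29) (.cov (nat_lit 365383883248798069161985)) (.alt (nat_lit 29) (.exp (.alt (nat_lit 28) (.cov (nat_lit 25281262764014069350400)) (.alt (nat_lit 31) (.cov (nat_lit 12144607240)) .e))) .e))) .e)) (.alt (nat_lit 25) (.cov (nat_lit 10465837648)) .e)))) .e)) .e)) .e)) (.alt (nat_lit 27) (.cov (nat_lit 502678660039255785473)) (.alt (nat_lit 27) (.exp (.alt (nat_lit 26) (.exp (.alt (nat_lit 18) (.exp (.alt (nat_lit 16) (.exp (.alt (nat_lit 17) (.exp (.alt (nat_lit 24) (.exp (.alt (nat_lit 30) (.cov (nat_lit 102111951828815372615681)) (.alt (nat_lit 30) (.exp (.alt (nat_lit 28) (.cov (nat_lit 21538879560060244066304)) (.alt (nat_lit 22) (.cov (nat_lit 10523508744)) .e))) .e))) .e)) .e)) .e)) .e)) (.alt (nat_lit 31) (.cov (nat_lit 104696802253362522226691)) (.alt (nat_lit 31) (.exp (.alt (nat_lit 30) (.exp (.alt (nat_lit 29) (.cov (nat_lit 417357617673692774402)) (.alt (nat_lit 29) (.cov (nat_lit 417357729803227103233)) (.alt (nat_lit 29) (.exp (.alt (nat_lit 21) (.cov (nat_lit 63281555562452854243331)) (.alt (nat_lit 28) (.exp (.alt (nat_lit 12) (.exp (.alt (nat_lit 20) (.cov (nat_lit 6382573458300224929793)) (.alt (nat_lit 20) (.exp (.alt (nat_lit 16) (.cov (nat_lit 6401020204572349562880)) (.alt (nat_lit 22) (.cov (nat_lit 824180744)) .e))) .e))) .e)) (.alt (nat_lit 21) (.cov (nat_lit 1933574736)) .e)))) .e)))) .e)) (.alt (nat_lit 19) (.cov (nat_lit 185004461203)) .e))))) .e))))) .e)) (.alt (nat_lit 11) (.cov (nat_lit 11585722459)) .e)))))) .e)))))) .e)) .e)) .e)) .e)) (.alt (nat_lit 2) (.cov (nat_lit 6516329300706228961283)) (.alt (nat_lit 2) (.exp (.alt (nat_lit 6) (.exp (.alt (nat_lit 10) (.cov (nat_lit 461169718947385180377)) (.alt (nat_lit 10) (.cov (nat_lit 2600999934789421105170)) (.alt (nat_lit 10) (.cov (nat_lit 350151491971541100396555)) (.alt (nat_lit 18) (.exp (.alt (nat_lit 19) (.exp (.alt (nat_lit 17) (.exp (.alt (nat_lit 23) (.exp (.alt (nat_lit 16) (.cov (nat_lit 23141440860638463131682)) (.alt (nat_lit 16) (.exp (.alt (nat_lit 20) (.exp (.alt (nat_lit 4) (.exp (.alt (nat_lit 5) (.exp (.alt (nat_lit 12) (.exp (.alt (nat_lit 24) (.cov (nat_lit 428886832699104296962)) (.alt (nat_lit 24) (.cov (nat_lit 6700779927711514624001)) (.alt (nat_lit 24) (.exp (.alt (nat_lit 8) (.cov (nat_lit 3857675372027342487555)) (.alt (nat_lit 26) (.exp (.alt (nat_lit 10) (.exp (.alt (nat_lit 27) (.cov (nat_lit 71481142238107402241)) (.alt (nat_lit 30) (.cov (nat_lit 185018089487)) .e))) .e)) (.alt (nat_lit 26) (.exp (.alt (nat_lit 27) (.cov (nat_lit 71481142081729069058)) (.alt (nat_lit 10) (.cov (nat_lit 28096593987)) .e))) .e)))) .e)))) .e)) .e)) .e)) .e)) (.alt (nat_lit 16) (.cov (nat_lit 345369169515430128123907)) (.alt (nat_lit 22) (.exp (.alt (nat_lit 20) (.exp (.alt (nat_lit 30) (.cov (nat_lit 106068925758415306763)) (.alt (nat_lit 30) (.exp (.alt (nat_lit 26) (.exp (.alt (nat_lit 10) (.exp (.alt (nat_lit 27) (.exp (.alt (nat_lit 28) (.cov (nat_lit 6520924047648705478659)) (.alt (nat_lit 28) (.exp (.alt (nat_lit 24) (.exp (.alt (nat_lit 12) (.cov (nat_lit 45408966389241372213249)) (.alt (nat_lit 12) (.exp (.alt (nat_lit 13) (.cov (nat_lit 364011906660514917253120)) (.alt (nat_lit 4) (.cov (nat_lit 1850736648)) .e))) .e))) .e)) (.alt (nat_lit 14) (.cov (nat_lit 2998927551)) .e)))) .e)) .e)) .e)) (.alt (nat_lit 30) (.cov (nat_lit 364023440768387751346177)) (.alt (nat_lit 30) (.exp (.alt (nat_lit 14) (.cov (nat_lit 10131874323225995378695)) (.alt (nat_lit 14) (.cov (nat_lit 6594711426411022778371)) (.alt (nat_lit 14) (.exp (.alt (nat_lit 10) (.exp (.alt (nat_lit 12) (.cov (nat_lit 433498518718811996162)) (.alt (nat_lit 12) (.cov (nat_lit 21797134109034193879041)) (.alt (nat_lit 12) (.exp (.alt (nat_lit 8) (.cov (nat_lit 45547316987386400866307)) (.alt (nat_lit 13) (.exp (.alt (nat_lit 5) (.exp (.alt (nat_lit 9) (.cov (nat_lit 426580965657001590785)) (.alt (nat_lit 9) (.exp (.alt (nat_lit 25) (.cov (nat_lit 129127219511113547776)) (.alt (nat_lit 11) (.cov (nat_lit 61865992)) .e))) .e))) .e)) (.alt (nat_lit 8) (.cov (nat_lit 1351615056)) .e)))) .e)))) .e)) (.alt (nat_lit 14) (.cov (nat_lit 21787315352)) .e))))) .e))))) .e)) (.alt (nat_lit 16) (.cov (nat_lit 3007322210)) .e)))))) .e)) .e)) .e)) (.alt (nat_lit 18) (.cov (nat_lit 6603950635766970843137)) (.alt (nat_lit 10) (.exp (.alt (nat_lit 11) (.cov (nat_lit 21935487842996127268902)) (.alt (nat_lit 11) (.cov (nat_lit 2898451732444360998946)) (.alt (nat_lit 11) (.cov (nat_lit 62268740981826256903)) (.alt (nat_lit 11) (.cov (nat_lit 21534281582754063712259)) (.alt (nat_lit 11) (.exp (.alt (nat_lit 9) (.exp (.alt (nat_lit 27) (.cov (nat_lit 404571687028779844108308)) (.alt (nat_lit 27) (.cov (nat_lit 29143553089799240810507)) (.alt (nat_lit 27) (.exp (.alt (nat_lit 19) (.exp (.alt (nat_lit 17) (.exp (.alt (nat_lit 18) (.exp (.alt (nat_lit 25) (.exp (.alt (nat_lit 24) (.exp (.alt (nat_lit 28) (.exp (.alt (nat_lit 12) (.exp (.alt (nat_lit 30) (.exp (.alt (nat_lit 29) (.cov (nat_lit 48422711999358566401)) (.alt (nat_lit 29) (.exp (.alt (nat_lit 21) (.cov (nat_lit 119903847474233606144)) (.alt (nat_lit 13) (.cov (nat_lit 156368896008)) .e))) .e))) .e)) .e)) .e)) .e)) (.alt (nat_lit 25) (.cov (nat_lit 23162193447565727367171)) (.alt (nat_lit 25) (.exp (.alt (nat_lit 24) (.exp (.alt (nat_lit 29) (.cov (nat_lit 6417161127629958414338)) (.alt (nat_lit 29) (.cov (nat_lit 10254084009317633097729)) (.alt (nat_lit 29) (.exp (.alt (nat_lit 13) (.cov (nat_lit 43119264289907192889347)) (.alt (nat_lit 21) (.exp (.alt (nat_lit 5) (.exp (.alt (nat_lit 20) (.cov (nat_lit 404343406732472632737793)) (.alt (nat_lit 23) (.cov (nat_lit 12136218639)) .e))) .e)) (.alt (nat_lit 21) (.exp (.alt (nat_lit 20) (.cov (nat_lit 6396408516357769920514)) (.alt (nat_lit 5) (.cov (nat_lit 19599982659)) .e))) .e)))) .e)))) .e)) (.alt (nat_lit 25) (.exp (.alt (nat_lit 29) (.cov (nat_lit 365349295854348504399874)) (.alt (nat_lit 24) (.cov (nat_lit 46535805096)) .e))) .e))))) .e)) .e)) .e)) (.alt (nat_lit 27) (.cov (nat_lit 6417174115068196945921)) (.alt (nat_lit 27) (.exp (.alt (nat_lit 25) (.cov (nat_lit 45667222143280808460322)) (.alt (nat_lit 19) (.cov (nat_lit 29125106345714852560903)) (.alt (nat_lit 19) (.cov (nat_lit 1528781022353034313731)) (.alt (nat_lit 19) (.exp (.alt (nat_lit 17) (.exp (.alt (nat_lit 18) (.cov (nat_lit 46670262653822632460299)) (.alt (nat_lit 18) (.cov (nat_lit 45637246685539874111490)) (.alt (nat_lit 18) (.cov (nat_lit 29122800502714595803137)) (.alt (nat_lit 18) (.exp (.alt (nat_lit 16) (.exp (.alt (nat_lit 24) (.exp (.alt (nat_lit 28) (.exp (.alt (nat_lit 12) (.exp (.alt (nat_lit 30) (.exp (.alt (nat_lit 20) (.cov (nat_lit 25283568604824251400193)) (.alt (nat_lit 20) (.exp (.alt (nat_lit 21) (.cov (nat_lit 1690182936748759187456)) (.alt (nat_lit 4) (.cov (nat_lit 19601031176)) .e))) .e))) .e)) .e)) .e)) .e)) (.alt (nat_lit 16) (.cov (nat_lit 7793749791156457177091)) (.alt (nat_lit 16) (.exp (.alt (nat_lit 24) (.exp (.alt (nat_lit 20) (.cov (nat_lit 6396408540547025731586)) (.alt (nat_lit 20) (.cov (nat_lit 42109305181595041267713)) (.alt (nat_lit 20) (.exp (.alt (nat_lit 4) (.cov (nat_lit 343874979667667722436611)) (.alt (nat_lit 21) (.exp (.alt (nat_lit 5) (.exp (.alt (nat_lit 29) (.cov (nat_lit 404343406732482406514689)) (.alt (nat_lit 23) (.cov (nat_lit 4629463055)) .e))) .e)) (.alt (nat_lit 21) (.exp (.alt (nat_lit 29) (.cov (nat_lit 6417161103440702603266)) (.alt (nat_lit 5) (.cov (nat_lit 1221591107)) .e))) .e)))) .e)))) .e)) (.alt (nat_lit 16) (.exp (.alt (nat_lit 20) (.cov (nat_lit 103310990444306585616386)) (.alt (nat_lit 24) (.cov (nat_lit 46535805096)) .e))) .e))))) .e))))) .e)) (.alt (nat_lit 19) (.cov (nat_lit 1192237483)) .e)))))) .e)))))) .e)) (.alt (nat_lit 11) (.cov (nat_lit 2895126047)) .e))))))) .e))))))) .e)) (.alt (nat_lit 2) (.cov (nat_lit 18882662)) .e)))))))) .e)) .e)) (.alt (nat_lit 0) (.cov (nat_lit 4630258968844828672)) (.alt (nat_lit 0) (.exp (.alt (nat_lit 1) (.exp (.alt (nat_lit 3) (.exp (.alt (nat_lit 2) (.exp (.alt (nat_lit 6) (.exp (.alt (nat_lit 10) (.exp (.alt (nat_lit 7) (.exp (.alt (nat_lit 5) (.exp (.alt (nat_lit 23) (.exp (.alt (nat_lit 19) (.exp (.alt (nat_lit 18) (.exp (.alt (nat_lit 17) (.exp (.alt (nat_lit 9) (.cov (nat_lit 103331742804878642118667)) (.alt (nat_lit 9) (.cov (nat_lit 6449443041906263064582)) (.alt (nat_lit 9) (.exp (.alt (nat_lit 8) (.exp (.alt (nat_lit 12) (.exp (.alt (nat_lit 24) (.exp (.alt (nat_lit 25) (.cov (nat_lit 6412549417419571986435)) (.alt (nat_lit 25) (.cov (nat_lit 657165275218117132289)) (.alt (nat_lit 25) (.cov (nat_lit 657165290611279921152)) (.alt (nat_lit 25) (.exp (.alt (nat_lit 29) (.cov (nat_lit 25299709505889379549185)) (.alt (nat_lit 27) (.cov (nat_lit 300941327)) .e))) .e))))) .e)) .e)) .e)) (.alt (nat_lit 9) (.exp (.alt (nat_lit 8) (.exp (.alt (nat_lit 24) (.exp (.alt (nat_lit 25) (.cov (nat_lit 7814501975817590931459)) (.alt (nat_lit 25) (.exp (.alt (nat_lit 27) (.exp (.alt (nat_lit 29) (.cov (nat_lit 25299709505888756695041)) (.alt (nat_lit 29) (.exp (.alt (nat_lit 28) (.cov (nat_lit 41685029931560296513536)) (.alt (nat_lit 13) (.cov (nat_lit 19608371208)) .e))) .e))) .e)) (.alt (nat_lit 25) (.cov (nat_lit 12177113680)) .e)))) .e)) .e)) (.alt (nat_lit 9) (.cov (nat_lit 25560274641164456427520)) (.alt (nat_lit 9) (.exp (.alt (nat_lit 8) (.cov (nat_lit 345350719208938778132487)) (.alt (nat_lit 8) (.cov (nat_lit 55340373124757585923)) (.alt (nat_lit 8) (.cov (nat_lit 1383506225541704318977)) (.alt (nat_lit 8) (.exp (.alt (nat_lit 12) (.exp (.alt (nat_lit 24) (.cov (nat_lit 25299709514685566943234)) (.alt (nat_lit 24) (.cov (nat_lit 428886832699716665345)) (.alt (nat_lit 24) (.cov (nat_lit 207526018163807354880)) (.alt (nat_lit 24) (.exp (.alt (nat_lit 26) (.cov (nat_lit 25304321191907903406083)) (.alt (nat_lit 26) (.cov (nat_lit 1840062738944775684097)) (.alt (nat_lit 26) (.cov (nat_lit 1840062754337904918528)) (.alt (nat_lit 26) (.exp (.alt (nat_lit 30) (.cov (nat_lit 6410243574410798694401)) (.alt (nat_lit 27) (.cov (nat_lit 300941327)) .e))) .e))))) .e))))) .e)) (.alt (nat_lit 8) (.exp (.alt (nat_lit 24) (.cov (nat_lit 428886832865253261314)) (.alt (nat_lit 12) (.cov (nat_lit 64563745151839633409)) (.alt (nat_lit 12) (.exp (.alt (nat_lit 28) (.cov (nat_lit 55340249824811286531)) (.alt (nat_lit 28) (.cov (nat_lit 55340375157661237248)) (.alt (nat_lit 14) (.cov (nat_lit 65011903)) .e)))) .e)))) .e)))))) .e))))))) .e)) .e)) .e)) .e)) .e)) .e)) .e)) .e)) .e)) (.alt (nat_lit 3) (.exp (.alt (nat_lit 2) (.exp (.alt (nat_lit 6) (.exp (.alt (nat_lit 7) (.exp (.alt (nat_lit 5) (.exp (.alt (nat_lit 23) (.exp (.alt (nat_lit 10) (.exp (.alt (nat_lit 11) (.exp (.alt (nat_lit 9) (.exp (.alt (nat_lit 27) (.exp (.alt (nat_lit 17) (.cov (nat_lit 7796055247137603059723)) (.alt (nat_lit 17) (.cov (nat_lit 102317171992986268991494)) (.alt (nat_lit 17) (.exp (.alt (nat_lit 25) (.exp (.alt (nat_lit 29) (.exp (.alt (nat_lit 24) (.exp (.alt (nat_lit 16) (.cov (nat_lit 365365436504734714298371)) (.alt (nat_lit 16) (.cov (nat_lit 4251974526592020905985)) (.alt (nat_lit 16) (.cov (nat_lit 4251974541975419355136)) (.alt (nat_lit 16) (.exp (.alt (nat_lit 20) (.cov (nat_lit 404343406732473236717569)) (.alt (nat_lit 18) (.cov (nat_lit 12136218639)) .e))) .e))))) .e)) .e)) .e)) (.alt (nat_lit 17) (.exp (.alt (nat_lit 25) (.exp (.alt (nat_lit 24) (.exp (.alt (nat_lit 16) (.cov (nat_lit 23141440458071205740547)) (.alt (nat_lit 16) (.exp (.alt (nat_lit 18) (.exp (.alt (nat_lit 20) (.cov (nat_lit 404343406732482396028929)) (.alt (nat_lit 20) (.exp (.alt (nat_lit 28) (.cov (nat_lit 69175301271539679232)) (.alt (nat_lit 21) (.cov (nat_lit 4627365896)) .e))) .e))) .e)) (.alt (nat_lit 16) (.cov (nat_lit 12067013200)) .e)))) .e)) .e)) (.alt (nat_lit 17) (.cov (nat_lit 25431147432648507392000)) (.alt (nat_lit 17) (.exp (.alt (nat_lit 25) (.cov (nat_lit 7814501991222125527047)) (.alt (nat_lit 25) (.cov (nat_lit 25438060218539354095619)) (.alt (nat_lit 25) (.cov (nat_lit 48016875243879468630017)) (.alt (nat_lit 25) (.exp (.alt (nat_lit 29) (.exp (.alt (nat_lit 24) (.cov (nat_lit 404343406741269424111618)) (.alt (nat_lit 24) (.cov (nat_lit 21753322981907949944833)) (.alt (nat_lit 24) (.cov (nat_lit 48021486657218956754944)) (.alt (nat_lit 24) (.exp (.alt (nat_lit 26) (.cov (nat_lit 404348018418491760574467)) (.alt (nat_lit 26) (.cov (nat_lit 26706273750305241825281)) (.alt (nat_lit 26) (.cov (nat_lit 26706273765698371059712)) (.alt (nat_lit 26) (.exp (.alt (nat_lit 30) (.cov (nat_lit 365383883248798663704577)) (.alt (nat_lit 18) (.cov (nat_lit 12136218639)) .e))) .e))))) .e))))) .e)) (.alt (nat_lit 25) (.exp (.alt (nat_lit 24) (.cov (nat_lit 3970661694897764958210)) (.alt (nat_lit 29) (.cov (nat_lit 25447283590419828441089)) (.alt (nat_lit 29) (.exp (.alt (nat_lit 28) (.cov (nat_lit 276701178881686634499)) (.alt (nat_lit 28) (.cov (nat_lit 26766225793889083588608)) (.alt (nat_lit 31) (.cov (nat_lit 185050595519)) .e)))) .e)))) .e)))))) .e))))))) .e)) .e)) .e)) .e)) .e)) .e)) .e)) .e)) (.alt (nat_lit 2) (.exp (.alt (nat_lit 6) (.exp (.alt (nat_lit 10) (.exp (.alt (nat_lit 11) (.exp (.alt (nat_lit 9) (.exp (.alt (nat_lit 27) (.exp (.alt (nat_lit 8) (.exp (.alt (nat_lit 12) (.exp (.alt (nat_lit 24) (.exp (.alt (nat_lit 17) (.exp (.alt (nat_lit 19) (.cov (nat_lit 14060780530308738587305280188448768)) (.alt (nat_lit 25) (.cov (nat_lit 25419613366559053971463)) .e))) (.alt (nat_lit 17) (.cov (nat_lit 42106999426547475021830)) (.alt (nat_lit 17) (.exp (.alt (nat_lit 21) (.exp (.alt (nat_lit 5) (.exp (.alt (nat_lit 29) (.exp (.alt (nat_lit 19) (.cov (nat_lit 3952214928787411828739)) (.alt (nat_lit 19) (.cov (nat_lit 6398714368160239190017)) (.alt (nat_lit 19) (.cov (nat_lit 6398714383553368424448)) (.alt (nat_lit 19) (.exp (.alt (nat_lit 18) (.cov (nat_lit 6396408518554534543361)) (.alt (nat_lit 18) (.exp (.alt (nat_lit 22) (.cov (nat_lit 6414855262627633823744)) (.alt (nat_lit 26) (.cov (nat_lit 9795797000)) .e))) .e))) .e))))) .e)) .e)) .e)) (.alt (nat_lit 5) (.exp (.alt (nat_lit 13) (.exp (.alt (nat_lit 29) (.exp (.alt (nat_lit 21) (.cov (nat_lit 25281262770611177914371)) (.alt (nat_lit 21) (.exp (.alt (nat_lit 17) (.exp (.alt (nat_lit 23) (.cov (nat_lit 25285874447833480822785)) (.alt (nat_lit 23) (.exp (.alt (nat_lit 22) (.cov (nat_lit 25304321194106212581376)) (.alt (nat_lit 19) (.cov (nat_lit 1361051656)) .e))) .e))) .e)) (.alt (nat_lit 4) (.cov (nat_lit 54526143)) .e)))) .e)) .e)) (.alt (nat_lit 5) (.cov (nat_lit 48427576229035507712)) (.alt (nat_lit 5) (.exp (.alt (nat_lit 21) (.cov (nat_lit 39199364142817345543)) (.alt (nat_lit 21) (.cov (nat_lit 657165400562465767427)) (.alt (nat_lit 21) (.cov (nat_lit 6398715135619354329089)) (.alt (nat_lit 21) (.exp (.alt (nat_lit 17) (.exp (.alt (nat_lit 23) (.cov (nat_lit 25433448409219262840834)) (.alt (nat_lit 29) (.cov (nat_lit 1687877115739569651713)) (.alt (nat_lit 29) (.cov (nat_lit 514203136190202249216)) (.alt (nat_lit 29) (.exp (.alt (nat_lit 31) (.cov (nat_lit 421969279493706088451)) (.alt (nat_lit 31) (.cov (nat_lit 421969288278357049345)) (.alt (nat_lit 31) (.cov (nat_lit 290536252146298388480)) (.alt (nat_lit 31) (.exp (.alt (nat_lit 23) (.cov (nat_lit 25285874447833480822785)) (.alt (nat_lit 23) (.exp (.alt (nat_lit 22) (.cov (nat_lit 1591031687352596561920)) (.alt (nat_lit 19) (.cov (nat_lit 1361051656)) .e))) .e))) .e))))) .e))))) .e)) (.alt (nat_lit 13) (.cov (nat_lit 9794749915)) .e)))))) .e))))))) .e)) .e)) .e)) .e)) .e)) .e)) (.alt (nat_lit 10) (.exp (.alt (nat_lit 11) (.exp (.alt (nat_lit 9) (.exp (.alt (nat_lit 27) (.exp (.alt (nat_lit 19) (.exp (.alt (nat_lit 18) (.exp (.alt (nat_lit 17) (.exp (.alt (nat_lit 5) (.cov (nat_lit 7630034550473752576011)) (.alt (nat_lit 5) (.cov (nat_lit 102077364320016574447622)) (.alt (nat_lit 5) (.exp (.alt (nat_lit 4) (.exp (.alt (nat_lit 12) (.exp (.alt (nat_lit 20) (.exp (.alt (nat_lit 21) (.cov (nat_lit 435804337540390977539)) (.alt (nat_lit 21) (.cov (nat_lit 66869464859407286273)) (.alt (nat_lit 21) (.cov (nat_lit 66869480252570075136)) (.alt (nat_lit 21) (.exp (.alt (nat_lit 29) (.cov (nat_lit 1614090115255475634177)) (.alt (nat_lit 23) (.cov (nat_lit 32505871)) .e))) .e))))) .e)) .e)) .e)) (.alt (nat_lit 5) (.exp (.alt (nat_lit 4) (.exp (.alt (nat_lit 20) (.exp (.alt (nat_lit 21) (.cov (nat_lit 104623014874648031526915)) (.alt (nat_lit 21) (.exp (.alt (nat_lit 23) (.exp (.alt (nat_lit 29) (.cov (nat_lit 1614090115245692420097)) (.alt (nat_lit 29) (.exp (.alt (nat_lit 28) (.cov (nat_lit 41685029931560300707840)) (.alt (nat_lit 13) (.cov (nat_lit 1757413384)) .e))) .e))) .e)) (.alt (nat_lit 21) (.cov (nat_lit 185049547344)) .e)))) .e)) .e)) (.alt (nat_lit 5) (.cov (nat_lit 404530184891453480632320)) (.alt (nat_lit 5) (.exp (.alt (nat_lit 4) (.cov (nat_lit 22754058847906907029511)) (.alt (nat_lit 4) (.cov (nat_lit 636412811301116444675)) (.alt (nat_lit 4) (.cov (nat_lit 21518127381995679907841)) (.alt (nat_lit 4) (.exp (.alt (nat_lit 12) (.exp (.alt (nat_lit 20) (.cov (nat_lit 1614090124053269446658)) (.alt (nat_lit 20) (.cov (nat_lit 6396408540553916973057)) (.alt (nat_lit 20) (.cov (nat_lit 2633272863856613392384)) (.alt (nat_lit 20) (.exp (.alt (nat_lit 22) (.cov (nat_lit 1618701801275605909507)) (.alt (nat_lit 22) (.cov (nat_lit 142962284163492741121)) (.alt (nat_lit 22) (.cov (nat_lit 142962299556621975552)) (.alt (nat_lit 22) (.exp (.alt (nat_lit 30) (.cov (nat_lit 433498494538064330753)) (.alt (nat_lit 23) (.cov (nat_lit 32505871)) .e))) .e))))) .e))))) .e)) (.alt (nat_lit 4) (.exp (.alt (nat_lit 20) (.cov (nat_lit 6396408540564801191938)) (.alt (nat_lit 12) (.cov (nat_lit 654859555510549479425)) (.alt (nat_lit 12) (.exp (.alt (nat_lit 28) (.cov (nat_lit 636412688135895384067)) (.alt (nat_lit 28) (.cov (nat_lit 636412813479516307456)) (.alt (nat_lit 14) (.cov (nat_lit 836763839)) .e)))) .e)))) .e)))))) .e))))))) .e)) .e)) .e)) .e)) .e)) .e)) .e))) .e)) .e))) .e))) (.alt (nat_lit 1) (.exp (.alt (nat_lit 3) (.cov (nat_lit 86224385482014306972943663497218)) (.alt (nat_lit 3) (.cov (nat_lit 86224385482604602800894555193345)) (.alt (nat_lit 3) (.exp (.alt (nat_lit 2) (.cov (nat_lit 86224385482085788097433193938947)) (.alt (nat_lit 2) (.exp (.alt (nat_lit 6) (.exp (.alt (nat_lit 10) (.exp (.alt (nat_lit 11) (.exp (.alt (nat_lit 9) (.exp (.alt (nat_lit 8) (.exp (.alt (nat_lit 12) (.exp (.alt (nat_lit 24) (.exp (.alt (nat_lit 17) (.cov (nat_lit 3142864168893553836043)) (.alt (nat_lit 17) (.cov (nat_lit 1607174424647907147778)) (.alt (nat_lit 5) (.cov (nat_lit 122212975980563136513)) (.alt (nat_lit 5) (.cov (nat_lit 55578628)) .e))))) .e)) .e)) .e)) .e)) .e)) (.alt (nat_lit 10) (.cov (nat_lit 39210310882708946955)) .e))) .e)) (.alt (nat_lit 2) (.exp (.alt (nat_lit 6) (.exp (.alt (nat_lit 7) (.exp (.alt (nat_lit 5) (.exp (.alt (nat_lit 23) (.exp (.alt (nat_lit 4) (.exp (.alt (nat_lit 12) (.exp (.alt (nat_lit 20) (.exp (.alt (nat_lit 9) (.cov (nat_lit 345193922104215244636171)) (.alt (nat_lit 9) (.exp (.alt (nat_lit 11) (.exp (.alt (nat_lit 10) (.exp (.alt (nat_lit 27) (.exp (.alt (nat_lit 25) (.cov (nat_lit 25438060095248056451075)) (.alt (nat_lit 25) (.exp (.alt (nat_lit 17) (.exp (.alt (nat_lit 24) (.cov (nat_lit 64563613063868055553)) (.alt (nat_lit 29) (.cov (nat_lit 11572084751)) .e))) .e)) (.alt (nat_lit 25) (.exp (.alt (nat_lit 24) (.cov (nat_lit 64563613054093230082)) (.alt (nat_lit 17) (.cov (nat_lit 1795162179)) .e))) .e)))) .e)) .e)) .e)) (.alt (nat_lit 9) (.cov (nat_lit 57650948265918595073)) (.alt (nat_lit 9) (.exp (.alt (nat_lit 11) (.exp (.alt (nat_lit 10) (.exp (.alt (nat_lit 26) (.exp (.alt (nat_lit 18) (.exp (.alt (nat_lit 30) (.exp (.alt (nat_lit 27) (.cov (nat_lit 426580965500679880705)) (.alt (nat_lit 27) (.exp (.alt (nat_lit 25) (.cov (nat_lit 22867045133367344365568)) (.alt (nat_lit 19) (.cov (nat_lit 655360008)) .e))) .e))) .e)) .e)) .e)) .e)) (.alt (nat_lit 11) (.cov (nat_lit 1833145612358974963715)) (.alt (nat_lit 11) (.exp (.alt (nat_lit 10) (.exp (.alt (nat_lit 27) (.cov (nat_lit 426580989689902137346)) (.alt (nat_lit 27) (.cov (nat_lit 207526106134511353857)) (.alt (nat_lit 27) (.exp (.alt (nat_lit 19) (.cov (nat_lit 262866120652933300227)) (.alt (nat_lit 25) (.exp (.alt (nat_lit 17) (.exp (.alt (nat_lit 24) (.cov (nat_lit 64563613063868055553)) (.alt (nat_lit 29) (.cov (nat_lit 11572084751)) .e))) .e)) (.alt (nat_lit 25) (.exp (.alt (nat_lit 24) (.cov (nat_lit 64563613054093230082)) (.alt (nat_lit 17) (.cov (nat_lit 1795162179)) .e))) .e)))) .e)))) .e)) (.alt (nat_lit 13) (.cov (nat_lit 9996078227)) .e))))) .e))))) .e)) .e)) .e)) .e)) .e)) .e)) (.alt (nat_lit 6) (.cov (nat_lit 39210310881104625683)) .e))) .e)))) .e)))) (.alt (nat_lit 1) (.exp (.alt (nat_lit 3) (.cov (nat_lit 248489687597512629665333293088770)) (.alt (nat_lit 3) (.cov (nat_lit 248489673090402794300778312892417)) (.alt (nat_lit 3) (.cov (nat_lit 756660667870617047804454830992261120)) (.alt (nat_lit 3) (.cov (nat_lit 344089434234145777647709)) .e))))) (.alt (nat_lit 1) (.exp (.alt (nat_lit 3) (.exp (.alt (nat_lit 2) (.exp (.alt (nat_lit 6) (.exp (.alt (nat_lit 10) (.exp (.alt (nat_lit 7) (.exp (.alt (nat_lit 5) (.exp (.alt (nat_lit 23) (.exp (.alt (nat_lit 9) (.cov (nat_lit 10240249223977876062229)) (.alt (nat_lit 9) (.exp (.alt (nat_lit 8) (.exp (.alt (nat_lit 12) (.exp (.alt (nat_lit 24) (.exp (.alt (nat_lit 16) (.exp (.alt (nat_lit 18) (.exp (.alt (nat_lit 25) (.cov (nat_lit 657165275219291537411)) (.alt (nat_lit 25) (.exp (.alt (nat_lit 17) (.exp (.alt (nat_lit 29) (.cov (nat_lit 440416023565702266881)) (.alt (nat_lit 27) (.cov (nat_lit 300941327)) .e))) .e)) (.alt (nat_lit 25) (.exp (.alt (nat_lit 29) (.cov (nat_lit 440416023556098359298)) (.alt (nat_lit 17) (.cov (nat_lit 1196425283)) .e))) .e)))) .e)) .e)) .e)) .e)) (.alt (nat_lit 11) (.cov (nat_lit 5109749955608651497479)) .e))) (.alt (nat_lit 9) (.cov (nat_lit 26729337046847292702726)) (.alt (nat_lit 9) (.exp (.alt (nat_lit 13) (.exp (.alt (nat_lit 12) (.exp (.alt (nat_lit 29) (.exp (.alt (nat_lit 25) (.cov (nat_lit 3006819317009798397959)) (.alt (nat_lit 25) (.cov (nat_lit 25438060218384162750467)) (.alt (nat_lit 25) (.cov (nat_lit 276701581128877735937)) (.alt (nat_lit 25) (.exp (.alt (nat_lit 17) (.exp (.alt (nat_lit 24) (.cov (nat_lit 502673793612276301826)) (.alt (nat_lit 27) (.cov (nat_lit 25442671796649267822593)) (.alt (nat_lit 27) (.cov (nat_lit 25442671904401398956032)) (.alt (nat_lit 27) (.cov (nat_lit 185046401215)) .e))))) .e)) (.alt (nat_lit 11) (.cov (nat_lit 296748507)) .e)))))) .e)) .e)) .e)) (.alt (nat_lit 9) (.cov (nat_lit 57655091225703743489)) (.alt (nat_lit 9) (.cov (nat_lit 10240260960118583066624)) (.alt (nat_lit 9) (.exp (.alt (nat_lit 8) (.exp (.alt (nat_lit 12) (.cov (nat_lit 1419768981765926460523023388639233)) (.alt (nat_lit 12) (.exp (.alt (nat_lit 28) (.cov (nat_lit 1419768981743278470488569163022336)) (.alt (nat_lit 13) (.cov (nat_lit 645636183317621506055)) .e))) .e))) (.alt (nat_lit 8) (.cov (nat_lit 645636462750256332815)) (.alt (nat_lit 8) (.exp (.alt (nat_lit 12) (.exp (.alt (nat_lit 28) (.exp (.alt (nat_lit 29) (.exp (.alt (nat_lit 20) (.exp (.alt (nat_lit 24) (.cov (nat_lit 2863857035047095762946)) (.alt (nat_lit 24) (.cov (nat_lit 2640190278535659651073)) (.alt (nat_lit 24) (.cov (nat_lit 25272039627272716550144)) (.alt (nat_lit 24) (.exp (.alt (nat_lit 25) (.cov (nat_lit 431192651519105171459)) (.alt (nat_lit 25) (.cov (nat_lit 6555511692786769330177)) (.alt (nat_lit 25) (.cov (nat_lit 6555511708179898564608)) (.alt (nat_lit 25) (.exp (.alt (nat_lit 27) (.cov (nat_lit 2863857026239554387969)) (.alt (nat_lit 17) (.cov (nat_lit 221249551)) .e))) .e))))) .e))))) .e)) .e)) .e)) .e)) (.alt (nat_lit 8) (.exp (.alt (nat_lit 12) (.exp (.alt (nat_lit 13) (.exp (.alt (nat_lit 29) (.exp (.alt (nat_lit 24) (.cov (nat_lit 25419613366568612790274)) (.alt (nat_lit 24) (.cov (nat_lit 1660207113978208321537)) (.alt (nat_lit 24) (.exp (.alt (nat_lit 25) (.cov (nat_lit 6555511692786903547907)) (.alt (nat_lit 16) (.exp (.alt (nat_lit 17) (.exp (.alt (nat_lit 18) (.cov (nat_lit 25285874447843245162497)) (.alt (nat_lit 20) (.cov (nat_lit 1298137103)) .e))) .e)) (.alt (nat_lit 16) (.exp (.alt (nat_lit 18) (.cov (nat_lit 25285874447844956438530)) (.alt (nat_lit 17) (.cov (nat_lit 2972713027)) .e))) .e)))) .e)))) .e)) .e)) .e)) (.alt (nat_lit 13) (.cov (nat_lit 435811394212885168129)) (.alt (nat_lit 13) (.exp (.alt (nat_lit 12) (.exp (.alt (nat_lit 29) (.cov (nat_lit 6564735080216963055627)) (.alt (nat_lit 29) (.cov (nat_lit 25447283590431316639750)) (.alt (nat_lit 29) (.cov (nat_lit 25447283869707270094850)) (.alt (nat_lit 29) (.cov (nat_lit 6564736894420711899137)) (.alt (nat_lit 29) (.cov (nat_lit 3016045954586421231616)) (.alt (nat_lit 29) (.exp (.alt (nat_lit 21) (.cov (nat_lit 25428836738603747901447)) (.alt (nat_lit 21) (.cov (nat_lit 25428836846347297488899)) (.alt (nat_lit 25) (.cov (nat_lit 276701581128877735937)) (.alt (nat_lit 25) (.exp (.alt (nat_lit 17) (.exp (.alt (nat_lit 24) (.cov (nat_lit 502673793612276301826)) (.alt (nat_lit 27) (.cov (nat_lit 25442671796649267822593)) (.alt (nat_lit 27) (.cov (nat_lit 25442671904401398956032)) (.alt (nat_lit 27) (.cov (nat_lit 185046401215)) .e))))) .e)) (.alt (nat_lit 21) (.cov (nat_lit 286262747)) .e)))))) .e))))))) .e)) (.alt (nat_lit 11) (.exp (.alt (nat_lit 27) (.cov (nat_lit 6698474086901335719947)) (.alt (nat_lit 27) (.exp (.alt (nat_lit 25) (.exp (.alt (nat_lit 17) (.exp (.alt (nat_lit 24) (.exp (.alt (nat_lit 26) (.cov (nat_lit 29067456991740735520771)) (.alt (nat_lit 26) (.exp (.alt (nat_lit 18) (.exp (.alt (nat_lit 30) (.cov (nat_lit 365383883248798102716417)) (.alt (nat_lit 30) (.exp (.alt (nat_lit 28) (.cov (nat_lit 6391796832535488495616)) (.alt (nat_lit 31) (.cov (nat_lit 3553624072)) .e))) .e))) .e)) (.alt (nat_lit 26) (.cov (nat_lit 1876951632)) .e)))) .e)) .e)) .e)) (.alt (nat_lit 27) (.cov (nat_lit 1680964437747486949377)) (.alt (nat_lit 27) (.exp (.alt (nat_lit 25) (.exp (.alt (nat_lit 17) (.exp (.alt (nat_lit 16) (.exp (.alt (nat_lit 18) (.exp (.alt (nat_lit 24) (.exp (.alt (nat_lit 29) (.cov (nat_lit 404343406732472631689217)) (.alt (nat_lit 29) (.exp (.alt (nat_lit 28) (.cov (nat_lit 2651719471590876905472)) (.alt (nat_lit 21) (.cov (nat_lit 1933574152)) .e))) .e))) .e)) .e)) .e)) .e)) (.alt (nat_lit 31) (.cov (nat_lit 406930563000029028548611)) (.alt (nat_lit 31) (.exp (.alt (nat_lit 29) (.exp (.alt (nat_lit 30) (.cov (nat_lit 1600255081400317771778)) (.alt (nat_lit 30) (.cov (nat_lit 1600255193529886703617)) (.alt (nat_lit 30) (.exp (.alt (nat_lit 22) (.cov (nat_lit 63281555562452821737475)) (.alt (nat_lit 28) (.exp (.alt (nat_lit 12) (.exp (.alt (nat_lit 20) (.cov (nat_lit 25272039389778804736001)) (.alt (nat_lit 20) (.exp (.alt (nat_lit 16) (.cov (nat_lit 25290486136050929369088)) (.alt (nat_lit 21) (.cov (nat_lit 286261256)) .e))) .e))) .e)) (.alt (nat_lit 22) (.cov (nat_lit 10523509328)) .e)))) .e)))) .e)) (.alt (nat_lit 19) (.cov (nat_lit 47564459155)) .e))))) .e))))) .e)))))))) .e)))))))) .e)) .e)) .e)) .e)) .e)) .e)) (.alt (nat_lit 3) (.exp (.alt (nat_lit 2) (.exp (.alt (nat_lit 6) (.exp (.alt (nat_lit 10) (.exp (.alt (nat_lit 11) (.exp (.alt (nat_lit 9) (.exp (.alt (nat_lit 27) (.exp (.alt (nat_lit 5) (.cov (nat_lit 786292886158244315157)) (.alt (nat_lit 5) (.exp (.alt (nat_lit 4) (.exp (.alt (nat_lit 12) (.exp (.alt (nat_lit 20) (.exp (.alt (nat_lit 16) (.exp (.alt (nat_lit 18) (.exp (.alt (nat_lit 21) (.cov (nat_lit 66869464859474395139)) (.alt (nat_lit 21) (.exp (.alt (nat_lit 17) (.exp (.alt (nat_lit 29) (.cov (nat_lit 6417161103438436630529)) (.alt (nat_lit 23) (.cov (nat_lit 32505871)) .e))) .e)) (.alt (nat_lit 21) (.exp (.alt (nat_lit 29) (.cov (nat_lit 6417161103440715186178)) (.alt (nat_lit 17) (.cov (nat_lit 93323331)) .e))) .e)))) .e)) .e)) .e)) .e)) (.alt (nat_lit 7) (.cov (nat_lit 81912768906498365456391)) .e))) (.alt (nat_lit 5) (.cov (nat_lit 406870615545806102462470)) (.alt (nat_lit 5) (.exp (.alt (nat_lit 13) (.exp (.alt (nat_lit 12) (.exp (.alt (nat_lit 29) (.exp (.alt (nat_lit 21) (.cov (nat_lit 267477822054765428743)) (.alt (nat_lit 21) (.cov (nat_lit 25428836846346196484099)) (.alt (nat_lit 21) (.cov (nat_lit 2997596331991872045057)) (.alt (nat_lit 21) (.exp (.alt (nat_lit 17) (.exp (.alt (nat_lit 20) (.cov (nat_lit 6543982477741383483394)) (.alt (nat_lit 23) (.cov (nat_lit 1674042057674510565377)) (.alt (nat_lit 23) (.cov (nat_lit 25433448532364539985920)) (.alt (nat_lit 23) (.cov (nat_lit 185042206911)) .e))))) .e)) (.alt (nat_lit 7) (.cov (nat_lit 24118747)) .e)))))) .e)) .e)) .e)) (.alt (nat_lit 5) (.cov (nat_lit 48431719188848967681)) (.alt (nat_lit 5) (.cov (nat_lit 786304622342433669120)) (.alt (nat_lit 5) (.exp (.alt (nat_lit 4) (.exp (.alt (nat_lit 12) (.cov (nat_lit 101412357504882263575808990773249)) (.alt (nat_lit 12) (.exp (.alt (nat_lit 28) (.cov (nat_lit 101412357503484922714268168617984)) (.alt (nat_lit 13) (.cov (nat_lit 46117000921792643079)) .e))) .e))) (.alt (nat_lit 4) (.cov (nat_lit 46117280225813331983)) (.alt (nat_lit 4) (.exp (.alt (nat_lit 12) (.exp (.alt (nat_lit 28) (.exp (.alt (nat_lit 29) (.exp (.alt (nat_lit 24) (.exp (.alt (nat_lit 20) (.cov (nat_lit 2854633662999465820162)) (.alt (nat_lit 20) (.cov (nat_lit 195996688778300227585)) (.alt (nat_lit 20) (.cov (nat_lit 1586420236629648080896)) (.alt (nat_lit 20) (.exp (.alt (nat_lit 21) (.cov (nat_lit 6398714359364145119235)) (.alt (nat_lit 21) (.cov (nat_lit 495756264573181624321)) (.alt (nat_lit 21) (.cov (nat_lit 6546288336143043788800)) (.alt (nat_lit 21) (.exp (.alt (nat_lit 23) (.cov (nat_lit 2854633654202699612161)) (.alt (nat_lit 17) (.cov (nat_lit 2972712975)) .e))) .e))))) .e))))) .e)) .e)) .e)) .e)) (.alt (nat_lit 4) (.exp (.alt (nat_lit 12) (.exp (.alt (nat_lit 13) (.exp (.alt (nat_lit 29) (.exp (.alt (nat_lit 20) (.cov (nat_lit 1660206999619935141890)) (.alt (nat_lit 20) (.cov (nat_lit 25419613480906946248705)) (.alt (nat_lit 20) (.exp (.alt (nat_lit 21) (.cov (nat_lit 6546288320752766681091)) (.alt (nat_lit 16) (.exp (.alt (nat_lit 17) (.exp (.alt (nat_lit 18) (.cov (nat_lit 1609478429227875303425)) (.alt (nat_lit 24) (.cov (nat_lit 1302331407)) .e))) .e)) (.alt (nat_lit 16) (.exp (.alt (nat_lit 18) (.cov (nat_lit 1609478429227975966722)) (.alt (nat_lit 17) (.cov (nat_lit 221249603)) .e))) .e)))) .e)))) .e)) .e)) .e)) (.alt (nat_lit 13) (.cov (nat_lit 6412556474085619531777)) (.alt (nat_lit 13) (.exp (.alt (nat_lit 12) (.exp (.alt (nat_lit 29) (.cov (nat_lit 514203024042977394699)) (.alt (nat_lit 29) (.cov (nat_lit 25447283590420541472774)) (.alt (nat_lit 29) (.cov (nat_lit 25447283869696494927874)) (.alt (nat_lit 29) (.cov (nat_lit 514204838234814414849)) (.alt (nat_lit 29) (.cov (nat_lit 285927831677403398144)) (.alt (nat_lit 29) (.exp (.alt (nat_lit 25) (.cov (nat_lit 25438060110631442317319)) (.alt (nat_lit 25) (.cov (nat_lit 25438060218383044968451)) (.alt (nat_lit 21) (.cov (nat_lit 2997596331991872045057)) (.alt (nat_lit 21) (.exp (.alt (nat_lit 17) (.exp (.alt (nat_lit 20) (.cov (nat_lit 6543982477741383483394)) (.alt (nat_lit 23) (.cov (nat_lit 1674042057674510565377)) (.alt (nat_lit 23) (.cov (nat_lit 25433448532364539985920)) (.alt (nat_lit 23) (.cov (nat_lit 185042206911)) .e))))) .e)) (.alt (nat_lit 25) (.cov (nat_lit 17827291)) .e)))))) .e))))))) .e)) (.alt (nat_lit 7) (.exp (.alt (nat_lit 23) (.cov (nat_lit 102317171992975064956939)) (.alt (nat_lit 23) (.exp (.alt (nat_lit 21) (.exp (.alt (nat_lit 17) (.exp (.alt (nat_lit 20) (.exp (.alt (nat_lit 22) (.cov (nat_lit 29067456991751506493443)) (.alt (nat_lit 22) (.exp (.alt (nat_lit 18) (.exp (.alt (nat_lit 30) (.cov (nat_lit 45443554034379639488513)) (.alt (nat_lit 30) (.exp (.alt (nat_lit 28) (.cov (nat_lit 424275124690448547840)) (.alt (nat_lit 31) (.cov (nat_lit 47577038856)) .e))) .e))) .e)) (.alt (nat_lit 22) (.cov (nat_lit 21237858896)) .e)))) .e)) .e)) .e)) (.alt (nat_lit 23) (.cov (nat_lit 25431147432648534654977)) (.alt (nat_lit 23) (.exp (.alt (nat_lit 21) (.exp (.alt (nat_lit 17) (.exp (.alt (nat_lit 16) (.exp (.alt (nat_lit 18) (.exp (.alt (nat_lit 20) (.exp (.alt (nat_lit 29) (.cov (nat_lit 404343406732472635883521)) (.alt (nat_lit 29) (.exp (.alt (nat_lit 28) (.cov (nat_lit 216749253861216092160)) (.alt (nat_lit 25) (.cov (nat_lit 21801992200)) .e))) .e))) .e)) .e)) .e)) .e)) (.alt (nat_lit 31) (.cov (nat_lit 406930563000038121799683)) (.alt (nat_lit 31) (.exp (.alt (nat_lit 29) (.exp (.alt (nat_lit 30) (.cov (nat_lit 25295097844225728839682)) (.alt (nat_lit 30) (.cov (nat_lit 25295097956209805754369)) (.alt (nat_lit 30) (.exp (.alt (nat_lit 26) (.cov (nat_lit 347813359527385800638467)) (.alt (nat_lit 28) (.exp (.alt (nat_lit 12) (.exp (.alt (nat_lit 24) (.cov (nat_lit 1586419999144905015297)) (.alt (nat_lit 24) (.exp (.alt (nat_lit 16) (.cov (nat_lit 1595643373371010318336)) (.alt (nat_lit 25) (.cov (nat_lit 17825800)) .e))) .e))) .e)) (.alt (nat_lit 26) (.cov (nat_lit 159240946256)) .e)))) .e)))) .e)) (.alt (nat_lit 19) (.cov (nat_lit 47564459155)) .e))))) .e))))) .e)))))))) .e)))))))) .e)) .e)) .e)) .e)) .e)) .e)) .e))) (.alt (nat_lit 1) (.exp (.alt (nat_lit 3) (.exp (.alt (nat_lit 2) (.exp (.alt (nat_lit 6) (.exp (.alt (nat_lit 7) (.exp (.alt (nat_lit 5) (.exp (.alt (nat_lit 23) (.exp (.alt (nat_lit 9) (.cov (nat_lit 102077366022061316636691)) (.alt (nat_lit 9) (.cov (nat_lit 92241610475490508811)) (.alt (nat_lit 9) (.cov (nat_lit 57655091226403143682)) (.alt (nat_lit 9) (.cov (nat_lit 10240260960118613475329)) (.alt (nat_lit 9) (.exp (.alt (nat_lit 8) (.cov (nat_lit 1650984896419602628642)) (.alt (nat_lit 11) (.cov (nat_lit 318209631618920873991)) (.alt (nat_lit 11) (.cov (nat_lit 62264826711204954115)) (.alt (nat_lit 11) (.exp (.alt (nat_lit 10) (.exp (.alt (nat_lit 27) (.cov (nat_lit 6698474086901335719947)) (.alt (nat_lit 27) (.exp (.alt (nat_lit 25) (.exp (.alt (nat_lit 17) (.exp (.alt (nat_lit 24) (.exp (.alt (nat_lit 26) (.cov (nat_lit 29067456991740735520771)) (.alt (nat_lit 26) (.exp (.alt (nat_lit 18) (.exp (.alt (nat_lit 30) (.cov (nat_lit 365383883248798102716417)) (.alt (nat_lit 30) (.exp (.alt (nat_lit 28) (.cov (nat_lit 6391796832535488495616)) (.alt (nat_lit 31) (.cov (nat_lit 3553624072)) .e))) .e))) .e)) (.alt (nat_lit 26) (.cov (nat_lit 1876951632)) .e)))) .e)) .e)) .e)) (.alt (nat_lit 27) (.cov (nat_lit 1680964437747486949377)) (.alt (nat_lit 27) (.exp (.alt (nat_lit 25) (.exp (.alt (nat_lit 17) (.exp (.alt (nat_lit 16) (.exp (.alt (nat_lit 18) (.exp (.alt (nat_lit 24) (.exp (.alt (nat_lit 29) (.cov (nat_lit 404343406732472631689217)) (.alt (nat_lit 29) (.exp (.alt (nat_lit 28) (.cov (nat_lit 2651719471590876905472)) (.alt (nat_lit 21) (.cov (nat_lit 1933574152)) .e))) .e))) .e)) .e)) .e)) .e)) (.alt (nat_lit 31) (.cov (nat_lit 406930563000029028548611)) (.alt (nat_lit 31) (.exp (.alt (nat_lit 29) (.exp (.alt (nat_lit 30) (.cov (nat_lit 1600255081400317771778)) (.alt (nat_lit 30) (.cov (nat_lit 1600255193529886703617)) (.alt (nat_lit 30) (.exp (.alt (nat_lit 22) (.cov (nat_lit 63281555562452821737475)) (.alt (nat_lit 28) (.exp (.alt (nat_lit 12) (.exp (.alt (nat_lit 20) (.cov (nat_lit 25272039389778804736001)) (.alt (nat_lit 20) (.exp (.alt (nat_lit 16) (.cov (nat_lit 25290486136050929369088)) (.alt (nat_lit 21) (.cov (nat_lit 286261256)) .e))) .e))) .e)) (.alt (nat_lit 22) (.cov (nat_lit 10523509328)) .e)))) .e)))) .e)) (.alt (nat_lit 19) (.cov (nat_lit 47564459155)) .e))))) .e))))) .e)) (.alt (nat_lit 11) (.cov (nat_lit 2996836443)) .e)))))) .e)))))) .e)) .e)) .e)) .e)) .e)) (.alt (nat_lit 3) (.exp (.alt (nat_lit 2) (.exp (.alt (nat_lit 6) (.exp (.alt (nat_lit 10) (.exp (.alt (nat_lit 11) (.exp (.alt (nat_lit 9) (.exp (.alt (nat_lit 5) (.cov (nat_lit 343877287340246081470482)) (.alt (nat_lit 5) (.cov (nat_lit 25560274641165174702091)) (.alt (nat_lit 5) (.cov (nat_lit 48431721434278002690)) (.alt (nat_lit 5) (.cov (nat_lit 48433682916616175617)) (.alt (nat_lit 5) (.exp (.alt (nat_lit 21) (.cov (nat_lit 804739630229041971234)) (.alt (nat_lit 4) (.cov (nat_lit 46120156521891364871)) (.alt (nat_lit 4) (.cov (nat_lit 46123925666642526211)) (.alt (nat_lit 4) (.cov (nat_lit 46127839907401433088)) (.alt (nat_lit 7) (.cov (nat_lit 628103263)) .e)))))) .e)))))) .e)) .e)) .e)) .e)) (.alt (nat_lit 2) (.exp (.alt (nat_lit 6) (.exp (.alt (nat_lit 7) (.exp (.alt (nat_lit 5) (.exp (.alt (nat_lit 23) (.exp (.alt (nat_lit 9) (.cov (nat_lit 102077366022061316636691)) (.alt (nat_lit 9) (.cov (nat_lit 92241610475490508811)) (.alt (nat_lit 9) (.cov (nat_lit 57655091226403143682)) (.alt (nat_lit 9) (.cov (nat_lit 10240260960118613475329)) (.alt (nat_lit 9) (.exp (.alt (nat_lit 8) (.cov (nat_lit 1650984896419602628642)) (.alt (nat_lit 11) (.cov (nat_lit 318209631618920873991)) (.alt (nat_lit 11) (.cov (nat_lit 62264826711204954115)) (.alt (nat_lit 11) (.exp (.alt (nat_lit 10) (.exp (.alt (nat_lit 27) (.cov (nat_lit 6698474086901335719947)) (.alt (nat_lit 27) (.exp (.alt (nat_lit 25) (.exp (.alt (nat_lit 17) (.exp (.alt (nat_lit 24) (.exp (.alt (nat_lit 26) (.cov (nat_lit 29067456991740735520771)) (.alt (nat_lit 26) (.exp (.alt (nat_lit 18) (.exp (.alt (nat_lit 30) (.cov (nat_lit 365383883248798102716417)) (.alt (nat_lit 30) (.exp (.alt (nat_lit 28) (.cov (nat_lit 6391796832535488495616)) (.alt (nat_lit 31) (.cov (nat_lit 3553624072)) .e))) .e))) .e)) (.alt (nat_lit 26) (.cov (nat_lit 1876951632)) .e)))) .e)) .e)) .e)) (.alt (nat_lit 27) (.cov (nat_lit 1680964437747486949377)) (.alt (nat_lit 27) (.exp (.alt (nat_lit 25) (.exp (.alt (nat_lit 17) (.exp (.alt (nat_lit 16) (.exp (.alt (nat_lit 18) (.exp (.alt (nat_lit 24) (.exp (.alt (nat_lit 29) (.cov (nat_lit 404343406732472631689217)) (.alt (nat_lit 29) (.exp (.alt (nat_lit 28) (.cov (nat_lit 2651719471590876905472)) (.alt (nat_lit 21) (.cov (nat_lit 1933574152)) .e))) .e))) .e)) .e)) .e)) .e)) (.alt (nat_lit 31) (.cov (nat_lit 406930563000029028548611)) (.alt (nat_lit 31) (.exp (.alt (nat_lit 29) (.exp (.alt (nat_lit 30) (.cov (nat_lit 1600255081400317771778)) (.alt (nat_lit 30) (.cov (nat_lit 1600255193529886703617)) (.alt (nat_lit 30) (.exp (.alt (nat_lit 22) (.cov (nat_lit 63281555562452821737475)) (.alt (nat_lit 28) (.exp (.alt (nat_lit 12) (.exp (.alt (nat_lit 20) (.cov (nat_lit 25272039389778804736001)) (.alt (nat_lit 20) (.exp (.alt (nat_lit 16) (.cov (nat_lit 25290486136050929369088)) (.alt (nat_lit 21) (.cov (nat_lit 286261256)) .e))) .e))) .e)) (.alt (nat_lit 22) (.cov (nat_lit 10523509328)) .e)))) .e)))) .e)) (.alt (nat_lit 19) (.cov (nat_lit 47564459155)) .e))))) .e))))) .e)) (.alt (nat_lit 11) (.cov (nat_lit 2996836443)) .e)))))) .e)))))) .e)) .e)) .e)) .e)) .e))) .e))) (.alt (nat_lit 1) (.cov (nat_lit 597230296054679732239)) (.alt (nat_lit 1) (.exp (.alt (nat_lit 3) (.exp (.alt (nat_lit 2) (.exp (.alt (nat_lit 6) (.exp (.alt (nat_lit 10) (.exp (.alt (nat_lit 5) (.cov (nat_lit 4067508915432512815321)) (.alt (nat_lit 5) (.cov (nat_lit 22756367954265827704925)) (.alt (nat_lit 5) (.exp (.alt (nat_lit 4) (.exp (.alt (nat_lit 12) (.exp (.alt (nat_lit 20) (.exp (.alt (nat_lit 16) (.exp (.alt (nat_lit 17) (.exp (.alt (nat_lit 18) (.exp (.alt (nat_lit 13) (.cov (nat_lit 343868062154015149916167)) (.alt (nat_lit 13) (.exp (.alt (nat_lit 9) (.exp (.alt (nat_lit 8) (.exp (.alt (nat_lit 24) (.exp (.alt (nat_lit 29) (.cov (nat_lit 440416023555964141569)) (.alt (nat_lit 29) (.exp (.alt (nat_lit 31) (.cov (nat_lit 431192653718101164032)) (.alt (nat_lit 21) (.cov (nat_lit 661651464)) .e))) .e))) .e)) .e)) .e)) (.alt (nat_lit 13) (.cov (nat_lit 140656843575486578689)) (.alt (nat_lit 13) (.exp (.alt (nat_lit 9) (.exp (.alt (nat_lit 29) (.cov (nat_lit 6417161112233922527234)) (.alt (nat_lit 29) (.cov (nat_lit 1614090139434990174209)) (.alt (nat_lit 29) (.cov (nat_lit 138350727887401779200)) (.alt (nat_lit 29) (.exp (.alt (nat_lit 28) (.cov (nat_lit 6414855260428614762499)) (.alt (nat_lit 28) (.cov (nat_lit 6562429221814384197633)) (.alt (nat_lit 28) (.cov (nat_lit 6562429237207546986496)) (.alt (nat_lit 28) (.exp (.alt (nat_lit 30) (.cov (nat_lit 2875386241285630197761)) (.alt (nat_lit 24) (.cov (nat_lit 2980053007)) .e))) .e))))) .e))))) .e)) (.alt (nat_lit 13) (.exp (.alt (nat_lit 29) (.exp (.alt (nat_lit 25) (.exp (.alt (nat_lit 9) (.exp (.alt (nat_lit 24) (.exp (.alt (nat_lit 31) (.cov (nat_lit 1397340874578638929920)) (.alt (nat_lit 21) (.cov (nat_lit 661651464)) .e))) .e)) .e)) .e)) (.alt (nat_lit 9) (.cov (nat_lit 1607172722713851592705)) (.alt (nat_lit 9) (.exp (.alt (nat_lit 25) (.cov (nat_lit 1837756895935528435715)) (.alt (nat_lit 25) (.exp (.alt (nat_lit 24) (.exp (.alt (nat_lit 29) (.cov (nat_lit 440416023555964141569)) (.alt (nat_lit 29) (.exp (.alt (nat_lit 31) (.cov (nat_lit 1397340874578638929920)) (.alt (nat_lit 21) (.cov (nat_lit 661651464)) .e))) .e))) .e)) (.alt (nat_lit 11) (.cov (nat_lit 632291519)) .e)))) .e)))) .e)))))) .e)) .e)) .e)) .e)) .e)) .e)) (.alt (nat_lit 5) (.cov (nat_lit 122218695531233804299)) (.alt (nat_lit 5) (.cov (nat_lit 48433682916783947782)) (.alt (nat_lit 5) (.exp (.alt (nat_lit 4) (.exp (.alt (nat_lit 12) (.exp (.alt (nat_lit 20) (.exp (.alt (nat_lit 21) (.exp (.alt (nat_lit 17) (.cov (nat_lit 14395440525722219541242593991983105)) (.alt (nat_lit 17) (.exp (.alt (nat_lit 16) (.exp (.alt (nat_lit 18) (.exp (.alt (nat_lit 24) (.exp (.alt (nat_lit 8) (.exp (.alt (nat_lit 9) (.exp (.alt (nat_lit 23) (.cov (nat_lit 71481142091501797377)) (.alt (nat_lit 23) (.exp (.alt (nat_lit 31) (.cov (nat_lit 1611784274435519807488)) (.alt (nat_lit 19) (.cov (nat_lit 632291336)) .e))) .e))) .e)) .e)) .e)) .e)) (.alt (nat_lit 16) (.cov (nat_lit 6546288443942737281031)) .e))) .e))) (.alt (nat_lit 21) (.cov (nat_lit 365533763121364039893007)) (.alt (nat_lit 21) (.exp (.alt (nat_lit 17) (.exp (.alt (nat_lit 19) (.exp (.alt (nat_lit 23) (.exp (.alt (nat_lit 18) (.exp (.alt (nat_lit 29) (.cov (nat_lit 440416032398433583106)) (.alt (nat_lit 29) (.cov (nat_lit 440416047901554245633)) (.alt (nat_lit 29) (.cov (nat_lit 795516073474245263360)) (.alt (nat_lit 29) (.exp (.alt (nat_lit 31) (.cov (nat_lit 1618701801283059187715)) (.alt (nat_lit 31) (.cov (nat_lit 29060539462722166718465)) (.alt (nat_lit 31) (.cov (nat_lit 29060539478105565167616)) (.alt (nat_lit 31) (.exp (.alt (nat_lit 27) (.cov (nat_lit 1609478429383641268225)) (.alt (nat_lit 30) (.cov (nat_lit 4624220175)) .e))) .e))))) .e))))) .e)) .e)) .e)) .e)) (.alt (nat_lit 13) (.cov (nat_lit 25449592589073815437315)) (.alt (nat_lit 13) (.cov (nat_lit 1616403014920562540545)) (.alt (nat_lit 13) (.exp (.alt (nat_lit 9) (.exp (.alt (nat_lit 29) (.cov (nat_lit 25447283482668439699467)) (.alt (nat_lit 29) (.cov (nat_lit 6564735187971786932230)) (.alt (nat_lit 29) (.cov (nat_lit 6564735467247740387330)) (.alt (nat_lit 29) (.cov (nat_lit 25447285296871651672065)) (.alt (nat_lit 29) (.cov (nat_lit 21912429415092643168256)) (.alt (nat_lit 29) (.exp (.alt (nat_lit 21) (.cov (nat_lit 6546288336152808128519)) (.alt (nat_lit 21) (.cov (nat_lit 6546288443904947650563)) (.alt (nat_lit 25) (.cov (nat_lit 1464210730873926975489)) (.alt (nat_lit 25) (.exp (.alt (nat_lit 17) (.exp (.alt (nat_lit 27) (.cov (nat_lit 1683265414321100816386)) (.alt (nat_lit 24) (.cov (nat_lit 6553205865170717376513)) (.alt (nat_lit 24) (.cov (nat_lit 6553205972922814955520)) (.alt (nat_lit 24) (.cov (nat_lit 47607447743)) .e))))) .e)) (.alt (nat_lit 21) (.cov (nat_lit 823133659)) .e)))))) .e))))))) .e)) (.alt (nat_lit 7) (.exp (.alt (nat_lit 23) (.cov (nat_lit 4249668901276358803467)) (.alt (nat_lit 23) (.exp (.alt (nat_lit 19) (.exp (.alt (nat_lit 17) (.exp (.alt (nat_lit 18) (.exp (.alt (nat_lit 31) (.cov (nat_lit 29060539462712435933187)) (.alt (nat_lit 31) (.exp (.alt (nat_lit 27) (.exp (.alt (nat_lit 29) (.cov (nat_lit 1614090115402068656129)) (.alt (nat_lit 30) (.cov (nat_lit 47575990287)) .e))) .e)) (.alt (nat_lit 21) (.cov (nat_lit 10029629631)) .e)))) .e)) .e)) .e)) (.alt (nat_lit 23) (.cov (nat_lit 25454205889128950661121)) (.alt (nat_lit 23) (.exp (.alt (nat_lit 19) (.exp (.alt (nat_lit 17) (.exp (.alt (nat_lit 25) (.exp (.alt (nat_lit 9) (.exp (.alt (nat_lit 24) (.exp (.alt (nat_lit 27) (.cov (nat_lit 2863857026239566970881)) (.alt (nat_lit 18) (.cov (nat_lit 631242767)) .e))) .e)) .e)) .e)) .e)) (.alt (nat_lit 21) (.cov (nat_lit 22055388803142475841539)) (.alt (nat_lit 21) (.exp (.alt (nat_lit 17) (.exp (.alt (nat_lit 29) (.cov (nat_lit 25447283482851546234882)) (.alt (nat_lit 29) (.cov (nat_lit 10240248946854589366273)) (.alt (nat_lit 29) (.exp (.alt (nat_lit 31) (.cov (nat_lit 404341100898260795523075)) (.alt (nat_lit 25) (.exp (.alt (nat_lit 9) (.exp (.alt (nat_lit 27) (.cov (nat_lit 1609478429227271323649)) (.alt (nat_lit 27) (.exp (.alt (nat_lit 26) (.cov (nat_lit 1618701803463148306432)) (.alt (nat_lit 19) (.cov (nat_lit 119537672)) .e))) .e))) .e)) (.alt (nat_lit 31) (.cov (nat_lit 183940153936)) .e)))) .e)))) .e)) (.alt (nat_lit 21) (.cov (nat_lit 166145821842)) .e))))) .e))))) .e)))))))) .e)) .e)) .e)) (.alt (nat_lit 5) (.exp (.alt (nat_lit 7) (.exp (.alt (nat_lit 23) (.exp (.alt (nat_lit 21) (.cov (nat_lit 365607551357698025979938)) (.alt (nat_lit 4) (.cov (nat_lit 22754062111257216942087)) (.alt (nat_lit 4) (.cov (nat_lit 2850029024850026168323)) (.alt (nat_lit 4) (.exp (.alt (nat_lit 12) (.exp (.alt (nat_lit 20) (.cov (nat_lit 23132217303727295430667)) (.alt (nat_lit 20) (.exp (.alt (nat_lit 16) (.exp (.alt (nat_lit 17) (.exp (.alt (nat_lit 18) (.exp (.alt (nat_lit 28) (.cov (nat_lit 10164156002206180442115)) (.alt (nat_lit 28) (.exp (.alt (nat_lit 24) (.exp (.alt (nat_lit 29) (.cov (nat_lit 440416023712298434561)) (.alt (nat_lit 30) (.cov (nat_lit 185018089487)) .e))) .e)) (.alt (nat_lit 21) (.cov (nat_lit 10029629631)) .e)))) .e)) .e)) .e)) (.alt (nat_lit 20) (.cov (nat_lit 6557822428622692024321)) (.alt (nat_lit 20) (.exp (.alt (nat_lit 16) (.exp (.alt (nat_lit 17) (.exp (.alt (nat_lit 25) (.exp (.alt (nat_lit 9) (.exp (.alt (nat_lit 27) (.exp (.alt (nat_lit 24) (.cov (nat_lit 2863857026239530270721)) (.alt (nat_lit 18) (.cov (nat_lit 94371855)) .e))) .e)) .e)) .e)) .e)) (.alt (nat_lit 21) (.cov (nat_lit 22055388803142442287107)) (.alt (nat_lit 21) (.exp (.alt (nat_lit 17) (.exp (.alt (nat_lit 29) (.cov (nat_lit 6564735080263167508482)) (.alt (nat_lit 29) (.cov (nat_lit 10240248946854558957569)) (.alt (nat_lit 29) (.exp (.alt (nat_lit 28) (.cov (nat_lit 102102728465575860764675)) (.alt (nat_lit 25) (.exp (.alt (nat_lit 9) (.exp (.alt (nat_lit 24) (.cov (nat_lit 428886808509890428929)) (.alt (nat_lit 24) (.exp (.alt (nat_lit 26) (.cov (nat_lit 438110182745737003008)) (.alt (nat_lit 16) (.cov (nat_lit 656408584)) .e))) .e))) .e)) (.alt (nat_lit 28) (.cov (nat_lit 46498054736)) .e)))) .e)))) .e)) (.alt (nat_lit 21) (.cov (nat_lit 166145821842)) .e))))) .e))))) .e)) (.alt (nat_lit 4) (.cov (nat_lit 851449947)) .e)))))) .e)) .e)) (.alt (nat_lit 5) (.cov (nat_lit 638734768732102459392)) (.alt (nat_lit 5) (.exp (.alt (nat_lit 21) (.exp (.alt (nat_lit 17) (.exp (.alt (nat_lit 16) (.exp (.alt (nat_lit 18) (.exp (.alt (nat_lit 20) (.exp (.alt (nat_lit 19) (.exp (.alt (nat_lit 23) (.exp (.alt (nat_lit 27) (.exp (.alt (nat_lit 29) (.cov (nat_lit 1614090124041953214466)) (.alt (nat_lit 29) (.cov (nat_lit 104586121401890897920001)) (.alt (nat_lit 29) (.cov (nat_lit 104613791731306699161600)) (.alt (nat_lit 29) (.exp (.alt (nat_lit 13) (.cov (nat_lit 404306513244371605782531)) (.alt (nat_lit 13) (.cov (nat_lit 3864592901034346545153)) (.alt (nat_lit 13) (.cov (nat_lit 3864592916427509334016)) (.alt (nat_lit 13) (.exp (.alt (nat_lit 12) (.cov (nat_lit 1614090115245687177217)) (.alt (nat_lit 9) (.cov (nat_lit 158083317775)) .e))) .e))))) .e))))) .e)) .e)) .e)) .e)) .e)) .e)) (.alt (nat_lit 17) (.exp (.alt (nat_lit 16) (.exp (.alt (nat_lit 18) (.exp (.alt (nat_lit 20) (.exp (.alt (nat_lit 22) (.exp (.alt (nat_lit 23) (.exp (.alt (nat_lit 30) (.exp (.alt (nat_lit 29) (.cov (nat_lit 398910858186181312514)) (.alt (nat_lit 29) (.cov (nat_lit 104586121401890925182977)) (.alt (nat_lit 29) (.cov (nat_lit 7657704868894179590144)) (.alt (nat_lit 29) (.exp (.alt (nat_lit 13) (.cov (nat_lit 45406660546416008495107)) (.alt (nat_lit 13) (.cov (nat_lit 343868062138621197549569)) (.alt (nat_lit 13) (.cov (nat_lit 343868062154014326784000)) (.alt (nat_lit 13) (.exp (.alt (nat_lit 9) (.cov (nat_lit 45397437174351674736641)) (.alt (nat_lit 12) (.cov (nat_lit 46414168079)) .e))) .e))))) .e))))) .e)) .e)) .e)) .e)) .e)) .e)) .e))) (.alt (nat_lit 4) (.cov (nat_lit 22754062111256612962338)) (.alt (nat_lit 4) (.cov (nat_lit 41864892749541728583695)) (.alt (nat_lit 4) (.exp (.alt (nat_lit 12) (.exp (.alt (nat_lit 13) (.exp (.alt (nat_lit 9) (.exp (.alt (nat_lit 29) (.exp (.alt (nat_lit 20) (.cov (nat_lit 1614090139435125440523)) (.alt (nat_lit 20) (.cov (nat_lit 2619437904757551792134)) (.alt (nat_lit 20) (.cov (nat_lit 6543982880164807704578)) (.alt (nat_lit 20) (.cov (nat_lit 25272041228162246377473)) (.alt (nat_lit 20) (.cov (nat_lit 1807784215559418150912)) (.alt (nat_lit 20) (.exp (.alt (nat_lit 21) (.cov (nat_lit 6546288336152808128519)) (.alt (nat_lit 21) (.cov (nat_lit 6546288443904947650563)) (.alt (nat_lit 16) (.cov (nat_lit 1443458143781836029953)) (.alt (nat_lit 16) (.exp (.alt (nat_lit 17) (.exp (.alt (nat_lit 18) (.cov (nat_lit 2847716133971829981186)) (.alt (nat_lit 18) (.cov (nat_lit 2847716149364321681409)) (.alt (nat_lit 18) (.cov (nat_lit 22850904467598331609088)) (.alt (nat_lit 18) (.exp (.alt (nat_lit 19) (.cov (nat_lit 6398714359364122050563)) (.alt (nat_lit 19) (.cov (nat_lit 62257778840979898369)) (.alt (nat_lit 19) (.cov (nat_lit 62257794234142687232)) (.alt (nat_lit 19) (.exp (.alt (nat_lit 27) (.cov (nat_lit 6417161103437864108033)) (.alt (nat_lit 23) (.cov (nat_lit 200278031)) .e))) .e))))) .e))))) .e)) (.alt (nat_lit 21) (.cov (nat_lit 823133659)) .e)))))) .e))))))) .e)) .e)) .e)) .e)) (.alt (nat_lit 4) (.cov (nat_lit 46127839908005412867)) (.alt (nat_lit 4) (.cov (nat_lit 119917556185820037121)) (.alt (nat_lit 4) (.exp (.alt (nat_lit 12) (.exp (.alt (nat_lit 20) (.cov (nat_lit 104680661352298016931861)) (.alt (nat_lit 20) (.cov (nat_lit 1660208813971558367243)) (.alt (nat_lit 20) (.cov (nat_lit 405581652309721009356806)) (.alt (nat_lit 20) (.exp (.alt (nat_lit 21) (.exp (.alt (nat_lit 17) (.exp (.alt (nat_lit 23) (.exp (.alt (nat_lit 16) (.cov (nat_lit 104611485674992872456199)) (.alt (nat_lit 16) (.exp (.alt (nat_lit 18) (.exp (.alt (nat_lit 22) (.exp (.alt (nat_lit 30) (.exp (.alt (nat_lit 24) (.cov (nat_lit 1607172586218046095361)) (.alt (nat_lit 24) (.exp (.alt (nat_lit 25) (.cov (nat_lit 1616395960453925175296)) (.alt (nat_lit 8) (.cov (nat_lit 1754267656)) .e))) .e))) .e)) .e)) .e)) (.alt (nat_lit 16) (.cov (nat_lit 793210415183575384065)) (.alt (nat_lit 16) (.exp (.alt (nat_lit 18) (.exp (.alt (nat_lit 24) (.cov (nat_lit 10173379374426874707970)) (.alt (nat_lit 24) (.cov (nat_lit 138350613694560337921)) (.alt (nat_lit 24) (.cov (nat_lit 25587940108539879489536)) (.alt (nat_lit 24) (.exp (.alt (nat_lit 28) (.cov (nat_lit 438110180712249294851)) (.alt (nat_lit 28) (.cov (nat_lit 47954617080219174961153)) (.alt (nat_lit 28) (.cov (nat_lit 47954617095602573410304)) (.alt (nat_lit 28) (.exp (.alt (nat_lit 29) (.cov (nat_lit 440416023712298434561)) (.alt (nat_lit 30) (.cov (nat_lit 185018089487)) .e))) .e))))) .e))))) .e)) (.alt (nat_lit 22) (.exp (.alt (nat_lit 30) (.cov (nat_lit 406859081479725508460546)) (.alt (nat_lit 18) (.cov (nat_lit 1978413449249691795457)) (.alt (nat_lit 18) (.exp (.alt (nat_lit 26) (.cov (nat_lit 406849858092284080291843)) (.alt (nat_lit 26) (.exp (.alt (nat_lit 30) (.exp (.alt (nat_lit 27) (.cov (nat_lit 426580965500671492097)) (.alt (nat_lit 27) (.exp (.alt (nat_lit 25) (.cov (nat_lit 21896285226488363483136)) (.alt (nat_lit 11) (.cov (nat_lit 10344202248)) .e))) .e))) .e)) (.alt (nat_lit 19) (.cov (nat_lit 900726975)) .e)))) .e)))) .e)))))) .e)) .e)) .e)) (.alt (nat_lit 20) (.exp (.alt (nat_lit 21) (.exp (.alt (nat_lit 17) (.exp (.alt (nat_lit 16) (.cov (nat_lit 6534759228896668811271)) (.alt (nat_lit 16) (.cov (nat_lit 793210415183575384067)) (.alt (nat_lit 16) (.exp (.alt (nat_lit 18) (.exp (.alt (nat_lit 24) (.cov (nat_lit 6553205865191329234946)) (.alt (nat_lit 24) (.cov (nat_lit 406919033600264332378113)) (.alt (nat_lit 24) (.exp (.alt (nat_lit 26) (.cov (nat_lit 406849858092293783814147)) (.alt (nat_lit 25) (.exp (.alt (nat_lit 9) (.exp (.alt (nat_lit 29) (.cov (nat_lit 2875386241285632294913)) (.alt (nat_lit 29) (.exp (.alt (nat_lit 31) (.cov (nat_lit 6555511686189672300544)) (.alt (nat_lit 28) (.cov (nat_lit 2984247304)) .e))) .e))) .e)) (.alt (nat_lit 26) (.cov (nat_lit 12141462096)) .e)))) .e)))) .e)) (.alt (nat_lit 16) (.cov (nat_lit 174703250577)) .e))))) .e)) .e)) (.alt (nat_lit 20) (.cov (nat_lit 627201487692052299776)) (.alt (nat_lit 20) (.exp (.alt (nat_lit 21) (.exp (.alt (nat_lit 17) (.cov (nat_lit 14395440525722219541242593991983105)) (.alt (nat_lit 17) (.exp (.alt (nat_lit 16) (.exp (.alt (nat_lit 18) (.exp (.alt (nat_lit 24) (.exp (.alt (nat_lit 8) (.exp (.alt (nat_lit 9) (.exp (.alt (nat_lit 23) (.cov (nat_lit 71481142091501797377)) (.alt (nat_lit 23) (.exp (.alt (nat_lit 31) (.cov (nat_lit 1611784274435519807488)) (.alt (nat_lit 19) (.cov (nat_lit 632291336)) .e))) .e))) .e)) .e)) .e)) .e)) (.alt (nat_lit 16) (.cov (nat_lit 6546288443942737281031)) .e))) .e))) (.alt (nat_lit 21) (.cov (nat_lit 365533763121364039893007)) (.alt (nat_lit 21) (.exp (.alt (nat_lit 17) (.exp (.alt (nat_lit 19) (.exp (.alt (nat_lit 23) (.exp (.alt (nat_lit 18) (.exp (.alt (nat_lit 29) (.cov (nat_lit 440416032398433583106)) (.alt (nat_lit 29) (.cov (nat_lit 440416047901554245633)) (.alt (nat_lit 29) (.cov (nat_lit 795516073474245263360)) (.alt (nat_lit 29) (.exp (.alt (nat_lit 31) (.cov (nat_lit 1618701801283059187715)) (.alt (nat_lit 31) (.cov (nat_lit 29060539462722166718465)) (.alt (nat_lit 31) (.cov (nat_lit 29060539478105565167616)) (.alt (nat_lit 31) (.exp (.alt (nat_lit 27) (.cov (nat_lit 1609478429383641268225)) (.alt (nat_lit 30) (.cov (nat_lit 4624220175)) .e))) .e))))) .e))))) .e)) .e)) .e)) .e)) (.alt (nat_lit 21) (.cov (nat_lit 6546291601713226842115)) (.alt (nat_lit 21) (.cov (nat_lit 47926954053750418833409)) (.alt (nat_lit 21) (.exp (.alt (nat_lit 17) (.exp (.alt (nat_lit 23) (.cov (nat_lit 406859081479723893653515)) (.alt (nat_lit 23) (.cov (nat_lit 406859081591865489752070)) (.alt (nat_lit 23) (.exp (.alt (nat_lit 19) (.exp (.alt (nat_lit 18) (.exp (.alt (nat_lit 27) (.exp (.alt (nat_lit 31) (.cov (nat_lit 1618701801429660598275)) (.alt (nat_lit 31) (.cov (nat_lit 350186071983876468637697)) (.alt (nat_lit 31) (.cov (nat_lit 350186071999259867086848)) (.alt (nat_lit 31) (.exp (.alt (nat_lit 29) (.cov (nat_lit 1614090115402068656129)) (.alt (nat_lit 30) (.cov (nat_lit 47575990287)) .e))) .e))))) .e)) .e)) .e)) (.alt (nat_lit 23) (.exp (.alt (nat_lit 19) (.exp (.alt (nat_lit 18) (.exp (.alt (nat_lit 31) (.cov (nat_lit 26551782268687970467843)) (.alt (nat_lit 31) (.exp (.alt (nat_lit 27) (.exp (.alt (nat_lit 29) (.cov (nat_lit 1614090115402068656129)) (.alt (nat_lit 30) (.cov (nat_lit 47575990287)) .e))) .e)) (.alt (nat_lit 31) (.cov (nat_lit 900727141)) .e)))) .e)) .e)) (.alt (nat_lit 23) (.cov (nat_lit 24098370171123950157824)) (.alt (nat_lit 23) (.exp (.alt (nat_lit 19) (.cov (nat_lit 406849858107677270343687)) (.alt (nat_lit 19) (.exp (.alt (nat_lit 18) (.exp (.alt (nat_lit 22) (.exp (.alt (nat_lit 30) (.exp (.alt (nat_lit 27) (.cov (nat_lit 426580965500671492097)) (.alt (nat_lit 27) (.exp (.alt (nat_lit 25) (.cov (nat_lit 435804339736513871872)) (.alt (nat_lit 11) (.cov (nat_lit 10344202248)) .e))) .e))) .e)) .e)) .e)) (.alt (nat_lit 19) (.cov (nat_lit 1980719564928627769345)) (.alt (nat_lit 19) (.exp (.alt (nat_lit 18) (.exp (.alt (nat_lit 27) (.cov (nat_lit 71481150924242550786)) (.alt (nat_lit 27) (.cov (nat_lit 71481166427363213313)) (.alt (nat_lit 27) (.cov (nat_lit 6698474177061301780480)) (.alt (nat_lit 27) (.exp (.alt (nat_lit 31) (.cov (nat_lit 1618701801429660598275)) (.alt (nat_lit 31) (.cov (nat_lit 350186071983876468637697)) (.alt (nat_lit 31) (.cov (nat_lit 350186071999259867086848)) (.alt (nat_lit 31) (.exp (.alt (nat_lit 29) (.cov (nat_lit 1614090115402068656129)) (.alt (nat_lit 30) (.cov (nat_lit 47575990287)) .e))) .e))))) .e))))) .e)) (.alt (nat_lit 19) (.exp (.alt (nat_lit 27) (.exp (.alt (nat_lit 25) (.exp (.alt (nat_lit 9) (.exp (.alt (nat_lit 29) (.exp (.alt (nat_lit 26) (.cov (nat_lit 1618701803463148306432)) (.alt (nat_lit 31) (.cov (nat_lit 1373634568)) .e))) .e)) .e)) .e)) (.alt (nat_lit 18) (.cov (nat_lit 797821826333260382209)) (.alt (nat_lit 18) (.exp (.alt (nat_lit 26) (.cov (nat_lit 406849858092284080291843)) (.alt (nat_lit 26) (.exp (.alt (nat_lit 27) (.exp (.alt (nat_lit 24) (.cov (nat_lit 45436636505351995260929)) (.alt (nat_lit 30) (.cov (nat_lit 47575990287)) .e))) .e)) (.alt (nat_lit 16) (.cov (nat_lit 360710335)) .e)))) .e)))) .e)))))) .e))))))) .e)) (.alt (nat_lit 21) (.exp (.alt (nat_lit 17) (.cov (nat_lit 41673500965013719875595)) (.alt (nat_lit 17) (.cov (nat_lit 1660208813834056499202)) (.alt (nat_lit 17) (.cov (nat_lit 5201986710618344783873)) (.alt (nat_lit 17) (.exp (.alt (nat_lit 16) (.cov (nat_lit 6534759228896668811271)) (.alt (nat_lit 16) (.cov (nat_lit 793210415183575384067)) (.alt (nat_lit 16) (.exp (.alt (nat_lit 18) (.exp (.alt (nat_lit 24) (.cov (nat_lit 6553205865191329234946)) (.alt (nat_lit 24) (.cov (nat_lit 406919033600264332378113)) (.alt (nat_lit 24) (.exp (.alt (nat_lit 26) (.cov (nat_lit 406849858092293783814147)) (.alt (nat_lit 25) (.exp (.alt (nat_lit 9) (.exp (.alt (nat_lit 29) (.cov (nat_lit 2875386241285632294913)) (.alt (nat_lit 29) (.exp (.alt (nat_lit 31) (.cov (nat_lit 6555511686189672300544)) (.alt (nat_lit 28) (.cov (nat_lit 2984247304)) .e))) .e))) .e)) (.alt (nat_lit 26) (.cov (nat_lit 12141462096)) .e)))) .e)))) .e)) (.alt (nat_lit 16) (.cov (nat_lit 174703250577)) .e))))) .e))))) .e)))))))) .e)))))))) .e)) (.alt (nat_lit 7) (.exp (.alt (nat_lit 23) (.cov (nat_lit 25601776778663147077652)) (.alt (nat_lit 23) (.cov (nat_lit 1989945813288005664779)) (.alt (nat_lit 23) (.exp (.alt (nat_lit 19) (.exp (.alt (nat_lit 17) (.exp (.alt (nat_lit 18) (.exp (.alt (nat_lit 21) (.exp (.alt (nat_lit 20) (.exp (.alt (nat_lit 28) (.exp (.alt (nat_lit 12) (.exp (.alt (nat_lit 30) (.exp (.alt (nat_lit 29) (.cov (nat_lit 57646084027052982273)) (.alt (nat_lit 29) (.exp (.alt (nat_lit 25) (.cov (nat_lit 1826227674292371324928)) (.alt (nat_lit 13) (.cov (nat_lit 156373090312)) .e))) .e))) .e)) .e)) .e)) .e)) (.alt (nat_lit 21) (.cov (nat_lit 350186072386299425193987)) (.alt (nat_lit 21) (.exp (.alt (nat_lit 20) (.exp (.alt (nat_lit 29) (.cov (nat_lit 440416047745345781762)) (.alt (nat_lit 29) (.cov (nat_lit 809351043569182310401)) (.alt (nat_lit 29) (.exp (.alt (nat_lit 13) (.cov (nat_lit 3864592901053271244803)) (.alt (nat_lit 25) (.exp (.alt (nat_lit 9) (.exp (.alt (nat_lit 24) (.cov (nat_lit 404343406732472636932097)) (.alt (nat_lit 27) (.cov (nat_lit 185012846607)) .e))) .e)) (.alt (nat_lit 25) (.exp (.alt (nat_lit 24) (.cov (nat_lit 428886808510016258050)) (.alt (nat_lit 9) (.cov (nat_lit 1753219139)) .e))) .e)))) .e)))) .e)) (.alt (nat_lit 21) (.exp (.alt (nat_lit 29) (.cov (nat_lit 45408966639930045366274)) (.alt (nat_lit 20) (.cov (nat_lit 3049261224)) .e))) .e))))) .e)) .e)) .e)) (.alt (nat_lit 23) (.cov (nat_lit 440429035177137668097)) (.alt (nat_lit 23) (.exp (.alt (nat_lit 21) (.cov (nat_lit 365607551357698025979938)) (.alt (nat_lit 19) (.cov (nat_lit 1980722441250475606023)) (.alt (nat_lit 19) (.cov (nat_lit 24264393093198949384195)) (.alt (nat_lit 19) (.exp (.alt (nat_lit 17) (.exp (.alt (nat_lit 18) (.cov (nat_lit 4095177331698273615883)) (.alt (nat_lit 18) (.cov (nat_lit 365577575899955623624706)) (.alt (nat_lit 18) (.cov (nat_lit 1978416598241830240257)) (.alt (nat_lit 18) (.exp (.alt (nat_lit 16) (.exp (.alt (nat_lit 20) (.exp (.alt (nat_lit 28) (.exp (.alt (nat_lit 12) (.exp (.alt (nat_lit 30) (.exp (.alt (nat_lit 24) (.cov (nat_lit 1607172586218046095361)) (.alt (nat_lit 24) (.exp (.alt (nat_lit 25) (.cov (nat_lit 25449589303686665863168)) (.alt (nat_lit 8) (.cov (nat_lit 1754267656)) .e))) .e))) .e)) .e)) .e)) .e)) (.alt (nat_lit 16) (.cov (nat_lit 104611486062031805612035)) (.alt (nat_lit 16) (.exp (.alt (nat_lit 20) (.exp (.alt (nat_lit 24) (.cov (nat_lit 428886832699272069122)) (.alt (nat_lit 24) (.cov (nat_lit 3159005069957327224833)) (.alt (nat_lit 24) (.exp (.alt (nat_lit 8) (.cov (nat_lit 343874979667667726630915)) (.alt (nat_lit 25) (.exp (.alt (nat_lit 9) (.exp (.alt (nat_lit 29) (.cov (nat_lit 404343406732473246154753)) (.alt (nat_lit 27) (.cov (nat_lit 4629463055)) .e))) .e)) (.alt (nat_lit 25) (.exp (.alt (nat_lit 29) (.cov (nat_lit 440416023556089970690)) (.alt (nat_lit 9) (.cov (nat_lit 18938331203)) .e))) .e)))) .e)))) .e)) (.alt (nat_lit 16) (.exp (.alt (nat_lit 24) (.cov (nat_lit 7618505561927519830018)) (.alt (nat_lit 20) (.cov (nat_lit 3049261224)) .e))) .e))))) .e))))) .e)) (.alt (nat_lit 19) (.cov (nat_lit 84941227)) .e)))))) .e)))))) .e))))))))) .e)))))))))) .e)) .e)) .e)) .e)) (.alt (nat_lit 1) (.exp (.alt (nat_lit 3) (.exp (.alt (nat_lit 2) (.exp (.alt (nat_lit 6) (.exp (.alt (nat_lit 5) (.cov (nat_lit 104659913255619373564121)) (.alt (nat_lit 5) (.cov (nat_lit 104586130387099909619730)) (.alt (nat_lit 5) (.cov (nat_lit 63265425625718281207819)) (.alt (nat_lit 9) (.exp (.alt (nat_lit 11) (.exp (.alt (nat_lit 10) (.exp (.alt (nat_lit 27) (.exp (.alt (nat_lit 25) (.cov (nat_lit 45667222143280808460322)) (.alt (nat_lit 8) (.cov (nat_lit 345350722472299020156935)) (.alt (nat_lit 8) (.cov (nat_lit 2859252396889598853123)) (.alt (nat_lit 8) (.exp (.alt (nat_lit 12) (.exp (.alt (nat_lit 24) (.cov (nat_lit 350156096242450494914571)) (.alt (nat_lit 24) (.exp (.alt (nat_lit 16) (.exp (.alt (nat_lit 17) (.exp (.alt (nat_lit 18) (.exp (.alt (nat_lit 28) (.cov (nat_lit 10154932630169325666307)) (.alt (nat_lit 28) (.exp (.alt (nat_lit 20) (.exp (.alt (nat_lit 29) (.cov (nat_lit 6417161103594188963841)) (.alt (nat_lit 30) (.cov (nat_lit 12145655823)) .e))) .e)) (.alt (nat_lit 25) (.cov (nat_lit 156595388607)) .e)))) .e)) .e)) .e)) (.alt (nat_lit 24) (.cov (nat_lit 507290372445959094273)) (.alt (nat_lit 24) (.exp (.alt (nat_lit 16) (.exp (.alt (nat_lit 17) (.exp (.alt (nat_lit 21) (.exp (.alt (nat_lit 5) (.exp (.alt (nat_lit 23) (.exp (.alt (nat_lit 20) (.cov (nat_lit 2854633654202675494913)) (.alt (nat_lit 18) (.cov (nat_lit 1197473807)) .e))) .e)) .e)) .e)) .e)) (.alt (nat_lit 25) (.cov (nat_lit 344356901258995728121859)) (.alt (nat_lit 25) (.exp (.alt (nat_lit 17) (.exp (.alt (nat_lit 29) (.cov (nat_lit 514203024086430384130)) (.alt (nat_lit 29) (.cov (nat_lit 786292609078413754369)) (.alt (nat_lit 29) (.exp (.alt (nat_lit 28) (.cov (nat_lit 102093505093548099239939)) (.alt (nat_lit 21) (.exp (.alt (nat_lit 5) (.exp (.alt (nat_lit 20) (.cov (nat_lit 6396408516354930376705)) (.alt (nat_lit 20) (.exp (.alt (nat_lit 22) (.cov (nat_lit 6414855262627631726592)) (.alt (nat_lit 16) (.cov (nat_lit 9950986248)) .e))) .e))) .e)) (.alt (nat_lit 28) (.cov (nat_lit 3007316560)) .e)))) .e)))) .e)) (.alt (nat_lit 25) (.cov (nat_lit 20653804690)) .e))))) .e))))) .e)) (.alt (nat_lit 8) (.cov (nat_lit 13199480923)) .e)))))) .e)) .e)) .e)) (.alt (nat_lit 9) (.cov (nat_lit 57662330410289332225)) (.alt (nat_lit 5) (.exp (.alt (nat_lit 4) (.cov (nat_lit 350146875931453768597542)) (.alt (nat_lit 4) (.cov (nat_lit 45406667602898406342690)) (.alt (nat_lit 4) (.cov (nat_lit 46127839908005412871)) (.alt (nat_lit 4) (.cov (nat_lit 119917556185920700419)) (.alt (nat_lit 4) (.exp (.alt (nat_lit 12) (.exp (.alt (nat_lit 20) (.cov (nat_lit 3163618456004690182164)) (.alt (nat_lit 20) (.cov (nat_lit 22053085836455645806603)) (.alt (nat_lit 20) (.exp (.alt (nat_lit 16) (.exp (.alt (nat_lit 18) (.exp (.alt (nat_lit 17) (.exp (.alt (nat_lit 28) (.cov (nat_lit 10164156125352287010823)) (.alt (nat_lit 28) (.cov (nat_lit 29053622336117491630083)) (.alt (nat_lit 22) (.cov (nat_lit 22057697522474080534528)) (.alt (nat_lit 22) (.cov (nat_lit 333450992)) .e))))) .e)) .e)) .e)) (.alt (nat_lit 20) (.cov (nat_lit 4270434620926182031361)) (.alt (nat_lit 20) (.exp (.alt (nat_lit 16) (.cov (nat_lit 42113918066081257226274)) (.alt (nat_lit 16) (.cov (nat_lit 6534762384603857551367)) (.alt (nat_lit 16) (.cov (nat_lit 22043861433076918779907)) (.alt (nat_lit 16) (.exp (.alt (nat_lit 18) (.exp (.alt (nat_lit 17) (.cov (nat_lit 348908635198655038488587)) (.alt (nat_lit 17) (.exp (.alt (nat_lit 19) (.exp (.alt (nat_lit 23) (.exp (.alt (nat_lit 27) (.exp (.alt (nat_lit 25) (.cov (nat_lit 202914202403034103811)) (.alt (nat_lit 25) (.exp (.alt (nat_lit 9) (.exp (.alt (nat_lit 24) (.cov (nat_lit 64563613210467368961)) (.alt (nat_lit 29) (.cov (nat_lit 185014943759)) .e))) .e)) (.alt (nat_lit 25) (.exp (.alt (nat_lit 24) (.cov (nat_lit 64563613054084841474)) (.alt (nat_lit 9) (.cov (nat_lit 28093448259)) .e))) .e)))) .e)) .e)) .e)) (.alt (nat_lit 17) (.cov (nat_lit 795520711214314291201)) (.alt (nat_lit 17) (.exp (.alt (nat_lit 19) (.cov (nat_lit 10171073654388880834567)) (.alt (nat_lit 19) (.cov (nat_lit 10171073933666545565699)) (.alt (nat_lit 19) (.exp (.alt (nat_lit 23) (.exp (.alt (nat_lit 27) (.cov (nat_lit 1609478453416518746114)) (.alt (nat_lit 27) (.cov (nat_lit 25590245859190132178945)) (.alt (nat_lit 27) (.exp (.alt (nat_lit 11) (.cov (nat_lit 22747141303505923342339)) (.alt (nat_lit 26) (.exp (.alt (nat_lit 10) (.exp (.alt (nat_lit 24) (.cov (nat_lit 64563613210466320385)) (.alt (nat_lit 30) (.cov (nat_lit 47575990287)) .e))) .e)) (.alt (nat_lit 26) (.exp (.alt (nat_lit 24) (.cov (nat_lit 64563613054084841474)) (.alt (nat_lit 10) (.cov (nat_lit 165532401731)) .e))) .e)))) .e)))) .e)) (.alt (nat_lit 19) (.exp (.alt (nat_lit 27) (.cov (nat_lit 1388117638881213415426)) (.alt (nat_lit 23) (.cov (nat_lit 10031728091)) .e))) .e))))) .e))))) .e)) (.alt (nat_lit 16) (.cov (nat_lit 11561605518)) .e)))))) .e)))))) .e)) (.alt (nat_lit 7) (.cov (nat_lit 9788463347)) .e))))))) .e))))))) .e)) .e)) .e)) (.alt (nat_lit 1) (.cov (nat_lit 113004546150355697665)) (.alt (nat_lit 1) (.exp (.alt (nat_lit 3) (.exp (.alt (nat_lit 5) (.exp (.alt (nat_lit 7) (.exp (.alt (nat_lit 6) (.exp (.alt (nat_lit 2) (.exp (.alt (nat_lit 10) (.exp (.alt (nat_lit 18) (.exp (.alt (nat_lit 23) (.exp (.alt (nat_lit 19) (.exp (.alt (nat_lit 17) (.exp (.alt (nat_lit 27) (.exp (.alt (nat_lit 4) (.cov (nat_lit 350146872668112988143623)) (.alt (nat_lit 4) (.cov (nat_lit 104583815666645287829507)) (.alt (nat_lit 4) (.cov (nat_lit 22754059234934194700289)) (.alt (nat_lit 4) (.exp (.alt (nat_lit 20) (.exp (.alt (nat_lit 12) (.cov (nat_lit 102065834977427164495874)) (.alt (nat_lit 12) (.cov (nat_lit 7618505335427456565249)) (.alt (nat_lit 12) (.cov (nat_lit 22756364904220558622720)) (.alt (nat_lit 12) (.exp (.alt (nat_lit 8) (.cov (nat_lit 45399743017205243052035)) (.alt (nat_lit 8) (.cov (nat_lit 1383505823120445407233)) (.alt (nat_lit 8) (.cov (nat_lit 1383505838513574641664)) (.alt (nat_lit 8) (.exp (.alt (nat_lit 24) (.cov (nat_lit 64563613210466320385)) (.alt (nat_lit 9) (.cov (nat_lit 193986575)) .e))) .e))))) .e))))) .e)) (.alt (nat_lit 4) (.exp (.alt (nat_lit 12) (.cov (nat_lit 7618505335438898626562)) (.alt (nat_lit 12) (.cov (nat_lit 350149178737768183889921)) (.alt (nat_lit 12) (.exp (.alt (nat_lit 8) (.cov (nat_lit 3006819301627488370691)) (.alt (nat_lit 8) (.exp (.alt (nat_lit 9) (.exp (.alt (nat_lit 24) (.cov (nat_lit 64563613054697209857)) (.alt (nat_lit 24) (.exp (.alt (nat_lit 28) (.cov (nat_lit 21538879560060262940672)) (.alt (nat_lit 16) (.cov (nat_lit 9785311240)) .e))) .e))) .e)) (.alt (nat_lit 8) (.cov (nat_lit 3548381776)) .e)))) .e)))) .e)))))) .e)) .e)) .e)) .e)) .e)) .e)) .e)) .e)) (.alt (nat_lit 7) (.exp (.alt (nat_lit 6) (.exp (.alt (nat_lit 23) (.exp (.alt (nat_lit 19) (.exp (.alt (nat_lit 17) (.exp (.alt (nat_lit 18) (.exp (.alt (nat_lit 22) (.exp (.alt (nat_lit 20) (.exp (.alt (nat_lit 30) (.exp (.alt (nat_lit 13) (.cov (nat_lit 1395035053559643111431)) (.alt (nat_lit 13) (.cov (nat_lit 10129568480259682074627)) (.alt (nat_lit 13) (.cov (nat_lit 10129568759489229750273)) (.alt (nat_lit 13) (.exp (.alt (nat_lit 12) (.exp (.alt (nat_lit 9) (.cov (nat_lit 102072752506454970204162)) (.alt (nat_lit 9) (.cov (nat_lit 102072752521848569200641)) (.alt (nat_lit 9) (.cov (nat_lit 343865756524310367830016)) (.alt (nat_lit 9) (.exp (.alt (nat_lit 11) (.cov (nat_lit 404301901558306858598403)) (.alt (nat_lit 11) (.cov (nat_lit 136044755136408453121)) (.alt (nat_lit 11) (.cov (nat_lit 136044770528967262208)) (.alt (nat_lit 11) (.exp (.alt (nat_lit 27) (.cov (nat_lit 404338795046454812475393)) (.alt (nat_lit 10) (.cov (nat_lit 27262991)) .e))) .e))))) .e))))) .e)) (.alt (nat_lit 4) (.cov (nat_lit 159228364251)) .e)))))) .e)) .e)) .e)) .e)) .e)) .e)) (.alt (nat_lit 23) (.exp (.alt (nat_lit 19) (.exp (.alt (nat_lit 17) (.exp (.alt (nat_lit 18) (.exp (.alt (nat_lit 22) (.exp (.alt (nat_lit 20) (.exp (.alt (nat_lit 30) (.exp (.alt (nat_lit 13) (.cov (nat_lit 1395035053559643111431)) (.alt (nat_lit 13) (.cov (nat_lit 10129568480259682074627)) (.alt (nat_lit 13) (.cov (nat_lit 10129568759489229750273)) (.alt (nat_lit 13) (.exp (.alt (nat_lit 12) (.exp (.alt (nat_lit 9) (.cov (nat_lit 102072752506454970204162)) (.alt (nat_lit 9) (.cov (nat_lit 102072752521848569200641)) (.alt (nat_lit 9) (.cov (nat_lit 343865756524310367830016)) (.alt (nat_lit 9) (.exp (.alt (nat_lit 11) (.cov (nat_lit 404301901558306858598403)) (.alt (nat_lit 11) (.cov (nat_lit 136044755136408453121)) (.alt (nat_lit 11) (.cov (nat_lit 136044770528967262208)) (.alt (nat_lit 11) (.exp (.alt (nat_lit 27) (.cov (nat_lit 404338795046454812475393)) (.alt (nat_lit 10) (.cov (nat_lit 27262991)) .e))) .e))))) .e))))) .e)) (.alt (nat_lit 4) (.cov (nat_lit 159228364251)) .e)))))) .e)) .e)) .e)) .e)) .e)) .e)) .e))) .e)) .e))) (.alt (nat_lit 5) (.cov (nat_lit 104586130387283739672793)) (.alt (nat_lit 5) (.cov (nat_lit 365570667507869436346461)) (.alt (nat_lit 5) (.exp (.alt (nat_lit 7) (.exp (.alt (nat_lit 6) (.exp (.alt (nat_lit 23) (.exp (.alt (nat_lit 19) (.exp (.alt (nat_lit 17) (.exp (.alt (nat_lit 18) (.exp (.alt (nat_lit 13) (.exp (.alt (nat_lit 9) (.exp (.alt (nat_lit 11) (.exp (.alt (nat_lit 27) (.exp (.alt (nat_lit 8) (.exp (.alt (nat_lit 12) (.exp (.alt (nat_lit 10) (.exp (.alt (nat_lit 29) (.cov (nat_lit 25299709505888769277953)) (.alt (nat_lit 29) (.exp (.alt (nat_lit 28) (.cov (nat_lit 216749253861224480768)) (.alt (nat_lit 25) (.cov (nat_lit 1367343112)) .e))) .e))) .e)) .e)) .e)) .e)) .e)) (.alt (nat_lit 9) (.exp (.alt (nat_lit 11) (.exp (.alt (nat_lit 27) (.exp (.alt (nat_lit 10) (.exp (.alt (nat_lit 8) (.exp (.alt (nat_lit 12) (.exp (.alt (nat_lit 29) (.cov (nat_lit 25299709505888769277953)) (.alt (nat_lit 29) (.exp (.alt (nat_lit 28) (.cov (nat_lit 216749253861224480768)) (.alt (nat_lit 25) (.cov (nat_lit 1367343112)) .e))) .e))) .e)) .e)) .e)) .e)) (.alt (nat_lit 11) (.exp (.alt (nat_lit 27) (.exp (.alt (nat_lit 26) (.exp (.alt (nat_lit 10) (.exp (.alt (nat_lit 24) (.exp (.alt (nat_lit 29) (.cov (nat_lit 365383883248798069161985)) (.alt (nat_lit 29) (.exp (.alt (nat_lit 28) (.cov (nat_lit 42990137074775257776128)) (.alt (nat_lit 31) (.cov (nat_lit 12144607240)) .e))) .e))) .e)) .e)) .e)) .e)) .e))) .e))) (.alt (nat_lit 13) (.cov (nat_lit 322818441325166198799)) (.alt (nat_lit 13) (.exp (.alt (nat_lit 9) (.exp (.alt (nat_lit 25) (.exp (.alt (nat_lit 29) (.exp (.alt (nat_lit 27) (.exp (.alt (nat_lit 12) (.cov (nat_lit 21757934652553252831234)) (.alt (nat_lit 12) (.cov (nat_lit 26507971267062342352897)) (.alt (nat_lit 12) (.cov (nat_lit 5109748255752108113920)) (.alt (nat_lit 12) (.exp (.alt (nat_lit 8) (.cov (nat_lit 2859245340241719984131)) (.alt (nat_lit 8) (.cov (nat_lit 3006819301607457423361)) (.alt (nat_lit 8) (.cov (nat_lit 3006819317000016232448)) (.alt (nat_lit 8) (.exp (.alt (nat_lit 24) (.cov (nat_lit 45438942348361766797313)) (.alt (nat_lit 10) (.cov (nat_lit 11569987599)) .e))) .e))))) .e))))) .e)) .e)) .e)) .e)) (.alt (nat_lit 21) (.cov (nat_lit 350186075262621843456003)) (.alt (nat_lit 21) (.cov (nat_lit 6707704379264980746241)) (.alt (nat_lit 21) (.exp (.alt (nat_lit 20) (.exp (.alt (nat_lit 29) (.cov (nat_lit 398910873580051890187)) (.alt (nat_lit 29) (.cov (nat_lit 3129029110838274818054)) (.alt (nat_lit 29) (.cov (nat_lit 406852164337898328424450)) (.alt (nat_lit 29) (.cov (nat_lit 795517685358876688385)) (.alt (nat_lit 29) (.cov (nat_lit 10166465123959050338304)) (.alt (nat_lit 29) (.exp (.alt (nat_lit 13) (.cov (nat_lit 343868062154199312367623)) (.alt (nat_lit 13) (.cov (nat_lit 406815270570474939088899)) (.alt (nat_lit 25) (.cov (nat_lit 406842940965678216118273)) (.alt (nat_lit 25) (.exp (.alt (nat_lit 9) (.exp (.alt (nat_lit 24) (.cov (nat_lit 104616097345618193678338)) (.alt (nat_lit 27) (.cov (nat_lit 406847552264667948646401)) (.alt (nat_lit 27) (.cov (nat_lit 406847552372420088168448)) (.alt (nat_lit 27) (.cov (nat_lit 11603542207)) .e))))) .e)) (.alt (nat_lit 13) (.cov (nat_lit 4606395867)) .e)))))) .e))))))) .e)) (.alt (nat_lit 21) (.exp (.alt (nat_lit 29) (.cov (nat_lit 426581104039272906763)) (.alt (nat_lit 29) (.cov (nat_lit 22018496742172603187202)) (.alt (nat_lit 20) (.cov (nat_lit 22053085836465397563393)) (.alt (nat_lit 20) (.cov (nat_lit 10028584964)) .e))))) .e)))))))) .e)) .e)) .e)) .e)) .e)) .e)) (.alt (nat_lit 5) (.exp (.alt (nat_lit 7) (.exp (.alt (nat_lit 6) (.exp (.alt (nat_lit 23) (.exp (.alt (nat_lit 19) (.exp (.alt (nat_lit 18) (.exp (.alt (nat_lit 13) (.cov (nat_lit 63154735483531027284002)) (.alt (nat_lit 4) (.cov (nat_lit 1448072706122676436999)) (.alt (nat_lit 4) (.cov (nat_lit 24100678206559522652163)) (.alt (nat_lit 4) (.exp (.alt (nat_lit 12) (.exp (.alt (nat_lit 20) (.cov (nat_lit 365356213370182013288459)) (.alt (nat_lit 20) (.cov (nat_lit 774765102673411702786)) (.alt (nat_lit 20) (.cov (nat_lit 22053085836455645806593)) (.alt (nat_lit 20) (.exp (.alt (nat_lit 16) (.exp (.alt (nat_lit 17) (.exp (.alt (nat_lit 25) (.exp (.alt (nat_lit 9) (.exp (.alt (nat_lit 29) (.exp (.alt (nat_lit 24) (.cov (nat_lit 428886808509882040321)) (.alt (nat_lit 24) (.exp (.alt (nat_lit 26) (.cov (nat_lit 438110182745728614400)) (.alt (nat_lit 8) (.cov (nat_lit 10345250824)) .e))) .e))) .e)) .e)) .e)) .e)) (.alt (nat_lit 16) (.cov (nat_lit 29053622336107278499843)) (.alt (nat_lit 16) (.exp (.alt (nat_lit 17) (.exp (.alt (nat_lit 24) (.cov (nat_lit 1607172610407301906434)) (.alt (nat_lit 24) (.cov (nat_lit 1976107606230702227457)) (.alt (nat_lit 24) (.exp (.alt (nat_lit 8) (.cov (nat_lit 22749447146660024025091)) (.alt (nat_lit 25) (.exp (.alt (nat_lit 9) (.exp (.alt (nat_lit 27) (.cov (nat_lit 71481142081729069057)) (.alt (nat_lit 29) (.cov (nat_lit 47579136015)) .e))) .e)) (.alt (nat_lit 25) (.exp (.alt (nat_lit 27) (.cov (nat_lit 71481142081729069058)) (.alt (nat_lit 9) (.cov (nat_lit 165535547459)) .e))) .e)))) .e)))) .e)) (.alt (nat_lit 22) (.cov (nat_lit 159280794771)) .e))))) .e))))) .e)) (.alt (nat_lit 4) (.cov (nat_lit 180361649)) .e)))))) .e)) .e)) .e)) .e)) (.alt (nat_lit 7) (.exp (.alt (nat_lit 6) (.exp (.alt (nat_lit 2) (.exp (.alt (nat_lit 10) (.exp (.alt (nat_lit 18) (.exp (.alt (nat_lit 13) (.cov (nat_lit 2831576517137556045858)) (.alt (nat_lit 4) (.cov (nat_lit 22754062111256612962311)) (.alt (nat_lit 4) (.cov (nat_lit 6391803887002696286211)) (.alt (nat_lit 4) (.exp (.alt (nat_lit 12) (.exp (.alt (nat_lit 20) (.cov (nat_lit 365515316526823346536459)) (.alt (nat_lit 20) (.exp (.alt (nat_lit 21) (.exp (.alt (nat_lit 17) (.exp (.alt (nat_lit 23) (.exp (.alt (nat_lit 28) (.cov (nat_lit 47954617080209477730307)) (.alt (nat_lit 28) (.exp (.alt (nat_lit 29) (.exp (.alt (nat_lit 24) (.cov (nat_lit 428886808666229964801)) (.alt (nat_lit 30) (.cov (nat_lit 4624220175)) .e))) .e)) (.alt (nat_lit 16) (.cov (nat_lit 360710335)) .e)))) .e)) .e)) .e)) (.alt (nat_lit 20) (.cov (nat_lit 21905513497949648191489)) (.alt (nat_lit 20) (.exp (.alt (nat_lit 21) (.exp (.alt (nat_lit 17) (.exp (.alt (nat_lit 25) (.exp (.alt (nat_lit 9) (.exp (.alt (nat_lit 27) (.exp (.alt (nat_lit 29) (.cov (nat_lit 6417161103438436630529)) (.alt (nat_lit 23) (.cov (nat_lit 32505871)) .e))) .e)) .e)) .e)) .e)) (.alt (nat_lit 16) (.cov (nat_lit 793210415183037464579)) (.alt (nat_lit 16) (.exp (.alt (nat_lit 17) (.exp (.alt (nat_lit 24) (.cov (nat_lit 6553205865191329234946)) (.alt (nat_lit 24) (.cov (nat_lit 406919033507905355644929)) (.alt (nat_lit 24) (.exp (.alt (nat_lit 28) (.cov (nat_lit 347677314789845090959363)) (.alt (nat_lit 25) (.exp (.alt (nat_lit 9) (.exp (.alt (nat_lit 29) (.cov (nat_lit 440416023555964141569)) (.alt (nat_lit 29) (.exp (.alt (nat_lit 31) (.cov (nat_lit 1397340874578638929920)) (.alt (nat_lit 21) (.cov (nat_lit 661651464)) .e))) .e))) .e)) (.alt (nat_lit 28) (.cov (nat_lit 158172447312)) .e)))) .e)))) .e)) (.alt (nat_lit 16) (.cov (nat_lit 156482145426)) .e))))) .e))))) .e)) (.alt (nat_lit 4) (.cov (nat_lit 11588868187)) .e)))))) .e)) .e)) .e)) .e)) .e))) (.alt (nat_lit 17) (.cov (nat_lit 36906147925596307462)) (.alt (nat_lit 17) (.exp (.alt (nat_lit 19) (.exp (.alt (nat_lit 18) (.exp (.alt (nat_lit 23) (.exp (.alt (nat_lit 16) (.exp (.alt (nat_lit 20) (.exp (.alt (nat_lit 21) (.exp (.alt (nat_lit 5) (.exp (.alt (nat_lit 29) (.exp (.alt (nat_lit 4) (.exp (.alt (nat_lit 6) (.exp (.alt (nat_lit 12) (.exp (.alt (nat_lit 24) (.cov (nat_lit 428886817305941508098)) (.alt (nat_lit 24) (.cov (nat_lit 10127262529451955585025)) (.alt (nat_lit 24) (.cov (nat_lit 29055928005392370499584)) (.alt (nat_lit 24) (.exp (.alt (nat_lit 8) (.cov (nat_lit 45402048860397581107203)) (.alt (nat_lit 8) (.cov (nat_lit 364014212510121238462465)) (.alt (nat_lit 8) (.cov (nat_lit 22749447161887662800896)) (.alt (nat_lit 8) (.exp (.alt (nat_lit 10) (.cov (nat_lit 428886808509885186049)) (.alt (nat_lit 9) (.cov (nat_lit 3467640847)) .e))) .e))))) .e))))) .e)) .e)) .e)) .e)) .e)) .e)) (.alt (nat_lit 20) (.exp (.alt (nat_lit 21) (.exp (.alt (nat_lit 29) (.exp (.alt (nat_lit 5) (.exp (.alt (nat_lit 4) (.exp (.alt (nat_lit 6) (.exp (.alt (nat_lit 12) (.exp (.alt (nat_lit 24) (.cov (nat_lit 428886817305941508098)) (.alt (nat_lit 24) (.cov (nat_lit 10127262529451955585025)) (.alt (nat_lit 24) (.cov (nat_lit 29055928005392370499584)) (.alt (nat_lit 24) (.exp (.alt (nat_lit 8) (.cov (nat_lit 45402048860397581107203)) (.alt (nat_lit 8) (.cov (nat_lit 364014212510121238462465)) (.alt (nat_lit 8) (.cov (nat_lit 22749447161887662800896)) (.alt (nat_lit 8) (.exp (.alt (nat_lit 10) (.cov (nat_lit 428886808509885186049)) (.alt (nat_lit 9) (.cov (nat_lit 3467640847)) .e))) .e))))) .e))))) .e)) .e)) .e)) .e)) .e)) .e)) .e))) (.alt (nat_lit 16) (.exp (.alt (nat_lit 20) (.exp (.alt (nat_lit 21) (.exp (.alt (nat_lit 5) (.exp (.alt (nat_lit 4) (.exp (.alt (nat_lit 6) (.exp (.alt (nat_lit 12) (.exp (.alt (nat_lit 24) (.cov (nat_lit 1607172610407301906434)) (.alt (nat_lit 24) (.cov (nat_lit 1976107606230702227457)) (.alt (nat_lit 24) (.exp (.alt (nat_lit 8) (.cov (nat_lit 22749447146515135987715)) (.alt (nat_lit 25) (.exp (.alt (nat_lit 9) (.exp (.alt (nat_lit 27) (.cov (nat_lit 45438942348361212100609)) (.alt (nat_lit 29) (.cov (nat_lit 47579136015)) .e))) .e)) (.alt (nat_lit 25) (.exp (.alt (nat_lit 27) (.cov (nat_lit 71481142081729069058)) (.alt (nat_lit 9) (.cov (nat_lit 165535547459)) .e))) .e)))) .e)))) .e)) .e)) .e)) .e)) .e)) (.alt (nat_lit 20) (.exp (.alt (nat_lit 21) (.exp (.alt (nat_lit 5) (.exp (.alt (nat_lit 29) (.exp (.alt (nat_lit 13) (.exp (.alt (nat_lit 9) (.exp (.alt (nat_lit 24) (.cov (nat_lit 25401166622483596443650)) (.alt (nat_lit 24) (.cov (nat_lit 46693321079514426507265)) (.alt (nat_lit 24) (.exp (.alt (nat_lit 28) (.cov (nat_lit 350188377826877073522691)) (.alt (nat_lit 26) (.exp (.alt (nat_lit 27) (.exp (.alt (nat_lit 30) (.cov (nat_lit 2836186910285329596417)) (.alt (nat_lit 30) (.exp (.alt (nat_lit 14) (.cov (nat_lit 2817740168254262870016)) (.alt (nat_lit 28) (.cov (nat_lit 11555307528)) .e))) .e))) .e)) (.alt (nat_lit 28) (.cov (nat_lit 1306526288)) .e)))) .e)))) .e)) .e)) .e)) .e)) (.alt (nat_lit 21) (.exp (.alt (nat_lit 5) (.exp (.alt (nat_lit 4) (.exp (.alt (nat_lit 6) (.exp (.alt (nat_lit 12) (.exp (.alt (nat_lit 24) (.cov (nat_lit 1607172610407301906434)) (.alt (nat_lit 24) (.cov (nat_lit 1976107606230702227457)) (.alt (nat_lit 24) (.exp (.alt (nat_lit 8) (.cov (nat_lit 22749447146515135987715)) (.alt (nat_lit 25) (.exp (.alt (nat_lit 9) (.exp (.alt (nat_lit 27) (.cov (nat_lit 45438942348361212100609)) (.alt (nat_lit 29) (.cov (nat_lit 47579136015)) .e))) .e)) (.alt (nat_lit 25) (.exp (.alt (nat_lit 27) (.cov (nat_lit 71481142081729069058)) (.alt (nat_lit 9) (.cov (nat_lit 165535547459)) .e))) .e)))) .e)))) .e)) .e)) .e)) .e)) .e))) .e))) (.alt (nat_lit 16) (.cov (nat_lit 4251978104393099640847)) (.alt (nat_lit 21) (.exp (.alt (nat_lit 5) (.exp (.alt (nat_lit 4) (.exp (.alt (nat_lit 20) (.exp (.alt (nat_lit 6) (.exp (.alt (nat_lit 29) (.cov (nat_lit 398910873579344101387)) (.alt (nat_lit 29) (.cov (nat_lit 767845869402744422406)) (.alt (nat_lit 29) (.cov (nat_lit 406852164337898328424450)) (.alt (nat_lit 29) (.cov (nat_lit 3163618455820736397313)) (.alt (nat_lit 29) (.cov (nat_lit 10166465123959050338304)) (.alt (nat_lit 29) (.exp (.alt (nat_lit 13) (.cov (nat_lit 3864592916440696225799)) (.alt (nat_lit 13) (.cov (nat_lit 406815270570474939088899)) (.alt (nat_lit 25) (.cov (nat_lit 406842941330715472560129)) (.alt (nat_lit 25) (.exp (.alt (nat_lit 9) (.exp (.alt (nat_lit 24) (.cov (nat_lit 1567973263857692966914)) (.alt (nat_lit 27) (.cov (nat_lit 406847552264667948646401)) (.alt (nat_lit 27) (.cov (nat_lit 406847552372420088168448)) (.alt (nat_lit 27) (.cov (nat_lit 11603542207)) .e))))) .e)) (.alt (nat_lit 13) (.cov (nat_lit 4606395867)) .e)))))) .e))))))) .e)) .e)) .e)) .e)) (.alt (nat_lit 16) (.exp (.alt (nat_lit 24) (.exp (.alt (nat_lit 25) (.exp (.alt (nat_lit 27) (.exp (.alt (nat_lit 20) (.cov (nat_lit 102111952079504172646411)) (.alt (nat_lit 20) (.exp (.alt (nat_lit 4) (.exp (.alt (nat_lit 5) (.exp (.alt (nat_lit 6) (.exp (.alt (nat_lit 28) (.cov (nat_lit 1355835707009869545475)) (.alt (nat_lit 28) (.exp (.alt (nat_lit 29) (.exp (.alt (nat_lit 12) (.cov (nat_lit 45411272232250590101505)) (.alt (nat_lit 30) (.cov (nat_lit 719323151)) .e))) .e)) (.alt (nat_lit 28) (.exp (.alt (nat_lit 12) (.cov (nat_lit 45411272232271231320066)) (.alt (nat_lit 29) (.cov (nat_lit 349175875)) .e))) .e)))) .e)) .e)) .e)) (.alt (nat_lit 20) (.cov (nat_lit 6631605611602401820673)) (.alt (nat_lit 20) (.exp (.alt (nat_lit 4) (.exp (.alt (nat_lit 5) (.exp (.alt (nat_lit 13) (.exp (.alt (nat_lit 9) (.exp (.alt (nat_lit 29) (.exp (.alt (nat_lit 12) (.cov (nat_lit 2836186910128999497729)) (.alt (nat_lit 12) (.exp (.alt (nat_lit 14) (.cov (nat_lit 22823234116192290471936)) (.alt (nat_lit 28) (.cov (nat_lit 174782939144)) .e))) .e))) .e)) .e)) .e)) .e)) (.alt (nat_lit 4) (.cov (nat_lit 21868615185145861767171)) (.alt (nat_lit 4) (.exp (.alt (nat_lit 5) (.exp (.alt (nat_lit 12) (.exp (.alt (nat_lit 13) (.exp (.alt (nat_lit 9) (.exp (.alt (nat_lit 29) (.exp (.alt (nat_lit 14) (.cov (nat_lit 22823234116192290471936)) (.alt (nat_lit 28) (.cov (nat_lit 174782939144)) .e))) .e)) .e)) .e)) (.alt (nat_lit 6) (.cov (nat_lit 29030563633344731414529)) (.alt (nat_lit 6) (.exp (.alt (nat_lit 14) (.cov (nat_lit 343874979667648802979843)) (.alt (nat_lit 14) (.exp (.alt (nat_lit 10) (.exp (.alt (nat_lit 12) (.cov (nat_lit 64563613054084841473)) (.alt (nat_lit 30) (.cov (nat_lit 10364125199)) .e))) .e)) (.alt (nat_lit 14) (.exp (.alt (nat_lit 12) (.cov (nat_lit 64563613054084841474)) (.alt (nat_lit 10) (.cov (nat_lit 20644364403)) .e))) .e)))) .e)))) .e)) (.alt (nat_lit 21) (.exp (.alt (nat_lit 5) (.cov (nat_lit 26720108935924469989378)) (.alt (nat_lit 5) (.exp (.alt (nat_lit 4) (.cov (nat_lit 63249273760371370360839)) (.alt (nat_lit 13) (.cov (nat_lit 25557965268722918621184)) .e))) .e))) .e))))) .e))))) .e)) .e)) .e)) (.alt (nat_lit 16) (.exp (.alt (nat_lit 20) (.exp (.alt (nat_lit 21) (.exp (.alt (nat_lit 24) (.cov (nat_lit 1976107606230869999635)) (.alt (nat_lit 24) (.cov (nat_lit 26729333279909149147138)) (.alt (nat_lit 24) (.exp (.alt (nat_lit 8) (.cov (nat_lit 42967079935667891863559)) (.alt (nat_lit 25) (.exp (.alt (nat_lit 27) (.exp (.alt (nat_lit 9) (.cov (nat_lit 406879834179113256484866)) (.alt (nat_lit 9) (.exp (.alt (nat_lit 8) (.cov (nat_lit 347781077725260325847047)) (.alt (nat_lit 13) (.cov (nat_lit 25557965268722914426880)) .e))) .e))) .e)) .e))) .e)))) .e)) .e)) (.alt (nat_lit 21) (.exp (.alt (nat_lit 5) (.exp (.alt (nat_lit 20) (.cov (nat_lit 802433787231287115795)) (.alt (nat_lit 20) (.cov (nat_lit 22053084387311420964875)) (.alt (nat_lit 20) (.cov (nat_lit 22053085836467108839430)) (.alt (nat_lit 20) (.exp (.alt (nat_lit 4) (.exp (.alt (nat_lit 6) (.exp (.alt (nat_lit 12) (.exp (.alt (nat_lit 28) (.cov (nat_lit 343902649799152551067655)) (.alt (nat_lit 28) (.cov (nat_lit 10164156125351482753027)) (.alt (nat_lit 28) (.cov (nat_lit 10164156404627436208129)) (.alt (nat_lit 28) (.exp (.alt (nat_lit 29) (.exp (.alt (nat_lit 24) (.cov (nat_lit 18446761666090631170)) (.alt (nat_lit 24) (.cov (nat_lit 41673500738505070870529)) (.alt (nat_lit 24) (.cov (nat_lit 29055927906436332388352)) (.alt (nat_lit 24) (.exp (.alt (nat_lit 25) (.cov (nat_lit 20752595879648559107)) (.alt (nat_lit 25) (.cov (nat_lit 104618403188627307757569)) (.alt (nat_lit 25) (.cov (nat_lit 104618403204019866566656)) (.alt (nat_lit 25) (.exp (.alt (nat_lit 27) (.cov (nat_lit 25364281898074898433)) (.alt (nat_lit 9) (.cov (nat_lit 3467640847)) .e))) .e))))) .e))))) .e)) (.alt (nat_lit 16) (.exp (.alt (nat_lit 24) (.cov (nat_lit 1607172610407301906434)) (.alt (nat_lit 24) (.cov (nat_lit 1976107606230702227457)) (.alt (nat_lit 24) (.exp (.alt (nat_lit 8) (.cov (nat_lit 22749447146515135987715)) (.alt (nat_lit 25) (.exp (.alt (nat_lit 9) (.exp (.alt (nat_lit 27) (.cov (nat_lit 45438942348361212100609)) (.alt (nat_lit 29) (.cov (nat_lit 47579136015)) .e))) .e)) (.alt (nat_lit 25) (.exp (.alt (nat_lit 27) (.cov (nat_lit 71481142081729069058)) (.alt (nat_lit 9) (.cov (nat_lit 165535547459)) .e))) .e)))) .e)))) .e)))))) .e)) .e)) .e)) (.alt (nat_lit 20) (.cov (nat_lit 22053091556115154468865)) (.alt (nat_lit 20) (.cov (nat_lit 3089841801741050314752)) (.alt (nat_lit 20) (.exp (.alt (nat_lit 28) (.exp (.alt (nat_lit 29) (.exp (.alt (nat_lit 13) (.exp (.alt (nat_lit 9) (.exp (.alt (nat_lit 25) (.exp (.alt (nat_lit 24) (.exp (.alt (nat_lit 27) (.exp (.alt (nat_lit 12) (.cov (nat_lit 45411272232250619461633)) (.alt (nat_lit 12) (.exp (.alt (nat_lit 14) (.cov (nat_lit 364014212503524131995648)) (.alt (nat_lit 4) (.cov (nat_lit 28762439688)) .e))) .e))) .e)) .e)) .e)) .e)) .e)) (.alt (nat_lit 29) (.exp (.alt (nat_lit 13) (.exp (.alt (nat_lit 9) (.exp (.alt (nat_lit 12) (.exp (.alt (nat_lit 4) (.exp (.alt (nat_lit 6) (.exp (.alt (nat_lit 24) (.cov (nat_lit 45438942348361205809153)) (.alt (nat_lit 24) (.exp (.alt (nat_lit 26) (.cov (nat_lit 45402048862412778504192)) (.alt (nat_lit 25) (.cov (nat_lit 47574941704)) .e))) .e))) .e)) .e)) .e)) .e)) (.alt (nat_lit 13) (.cov (nat_lit 10164156125363577028615)) .e))) .e))) (.alt (nat_lit 28) (.cov (nat_lit 41643526092201570336783)) (.alt (nat_lit 28) (.exp (.alt (nat_lit 29) (.exp (.alt (nat_lit 25) (.exp (.alt (nat_lit 9) (.exp (.alt (nat_lit 27) (.exp (.alt (nat_lit 12) (.cov (nat_lit 365351601455648991084546)) (.alt (nat_lit 24) (.cov (nat_lit 46693320969563263729665)) (.alt (nat_lit 24) (.cov (nat_lit 348924775985370139459584)) (.alt (nat_lit 24) (.exp (.alt (nat_lit 8) (.cov (nat_lit 2610214297445664292867)) (.alt (nat_lit 8) (.cov (nat_lit 347781077725256802631681)) (.alt (nat_lit 8) (.cov (nat_lit 347781077740649965420544)) (.alt (nat_lit 8) (.exp (.alt (nat_lit 12) (.cov (nat_lit 45411272232250619461633)) (.alt (nat_lit 12) (.exp (.alt (nat_lit 14) (.cov (nat_lit 22823234116192290471936)) (.alt (nat_lit 4) (.cov (nat_lit 28762439688)) .e))) .e))) .e))))) .e))))) .e)) .e)) .e)) .e)) (.alt (nat_lit 4) (.cov (nat_lit 22754062111257873350659)) (.alt (nat_lit 4) (.cov (nat_lit 45406667602897787682817)) (.alt (nat_lit 4) (.exp (.alt (nat_lit 6) (.exp (.alt (nat_lit 12) (.cov (nat_lit 45411272256487413514251)) (.alt (nat_lit 12) (.cov (nat_lit 64563744995480174598)) (.alt (nat_lit 12) (.cov (nat_lit 802433787219815694338)) (.alt (nat_lit 12) (.cov (nat_lit 364023437711745407254529)) (.alt (nat_lit 12) (.cov (nat_lit 22053085838654660673536)) (.alt (nat_lit 12) (.exp (.alt (nat_lit 13) (.cov (nat_lit 29019034303939717627911)) (.alt (nat_lit 13) (.cov (nat_lit 66869588004694917123)) (.alt (nat_lit 8) (.cov (nat_lit 793210415182963015681)) (.alt (nat_lit 8) (.exp (.alt (nat_lit 9) (.exp (.alt (nat_lit 24) (.cov (nat_lit 64563621896602517506)) (.alt (nat_lit 24) (.cov (nat_lit 205220060961758511105)) (.alt (nat_lit 24) (.cov (nat_lit 1976107606230710616064)) (.alt (nat_lit 24) (.exp (.alt (nat_lit 25) (.cov (nat_lit 66869456219682111491)) (.alt (nat_lit 25) (.cov (nat_lit 104618403188783088402433)) (.alt (nat_lit 25) (.cov (nat_lit 104618403204019887538176)) (.alt (nat_lit 25) (.exp (.alt (nat_lit 27) (.cov (nat_lit 71481142238108450817)) (.alt (nat_lit 29) (.cov (nat_lit 47579136015)) .e))) .e))))) .e))))) .e)) (.alt (nat_lit 13) (.cov (nat_lit 156373091803)) .e)))))) .e))))))) .e)) (.alt (nat_lit 4) (.exp (.alt (nat_lit 12) (.cov (nat_lit 253642990498279849995)) (.alt (nat_lit 12) (.cov (nat_lit 343865758125200576086018)) (.alt (nat_lit 12) (.cov (nat_lit 2868473649065145401345)) (.alt (nat_lit 6) (.cov (nat_lit 185000267781)) .e))))) .e)))))))) .e)))))))) .e)) (.alt (nat_lit 16) (.exp (.alt (nat_lit 20) (.cov (nat_lit 3163618455825323917332)) (.alt (nat_lit 20) (.cov (nat_lit 104639156875221442494475)) (.alt (nat_lit 20) (.cov (nat_lit 22053091556115120914434)) (.alt (nat_lit 20) (.cov (nat_lit 3089841801741050314753)) (.alt (nat_lit 20) (.exp (.alt (nat_lit 28) (.exp (.alt (nat_lit 24) (.cov (nat_lit 50523485291819731172163676031418369)) (.alt (nat_lit 24) (.cov (nat_lit 48030711185963268177931)) .e))) (.alt (nat_lit 21) (.cov (nat_lit 22055391679465116401671)) (.alt (nat_lit 21) (.cov (nat_lit 6707704379264361037827)) (.alt (nat_lit 21) (.exp (.alt (nat_lit 5) (.exp (.alt (nat_lit 29) (.cov (nat_lit 29976106454362357771)) (.alt (nat_lit 29) (.exp (.alt (nat_lit 25) (.exp (.alt (nat_lit 9) (.exp (.alt (nat_lit 27) (.exp (.alt (nat_lit 28) (.cov (nat_lit 25410389979127823204355)) (.alt (nat_lit 28) (.exp (.alt (nat_lit 24) (.exp (.alt (nat_lit 12) (.cov (nat_lit 365351601446669086883841)) (.alt (nat_lit 12) (.exp (.alt (nat_lit 14) (.cov (nat_lit 364014212503524131995648)) (.alt (nat_lit 8) (.cov (nat_lit 158152523784)) .e))) .e))) .e)) (.alt (nat_lit 31) (.cov (nat_lit 165675199)) .e)))) .e)) .e)) .e)) (.alt (nat_lit 29) (.cov (nat_lit 61789680021721276481537)) (.alt (nat_lit 29) (.exp (.alt (nat_lit 13) (.cov (nat_lit 10129568480225371619335)) (.alt (nat_lit 13) (.cov (nat_lit 25484177358027041538051)) (.alt (nat_lit 13) (.exp (.alt (nat_lit 9) (.exp (.alt (nat_lit 12) (.cov (nat_lit 1614090139436224348162)) (.alt (nat_lit 12) (.cov (nat_lit 25594857547407575482369)) (.alt (nat_lit 12) (.exp (.alt (nat_lit 28) (.cov (nat_lit 384351747851386001293315)) (.alt (nat_lit 14) (.exp (.alt (nat_lit 6) (.exp (.alt (nat_lit 30) (.cov (nat_lit 404338795046454818766849)) (.alt (nat_lit 30) (.exp (.alt (nat_lit 26) (.cov (nat_lit 404301901560505814745088)) (.alt (nat_lit 31) (.cov (nat_lit 4625268744)) .e))) .e))) .e)) (.alt (nat_lit 28) (.cov (nat_lit 157066199632)) .e)))) .e)))) .e)) (.alt (nat_lit 13) (.cov (nat_lit 156574420113)) .e))))) .e))))) .e)) (.alt (nat_lit 21) (.cov (nat_lit 28820116446)) .e)))))) .e)))))) .e))))))))) .e)) .e)) .e)) (.alt (nat_lit 5) (.exp (.alt (nat_lit 7) (.exp (.alt (nat_lit 6) (.exp (.alt (nat_lit 4) (.cov (nat_lit 47915421027796609138726)) (.alt (nat_lit 4) (.cov (nat_lit 45406667602897835917346)) (.alt (nat_lit 4) (.cov (nat_lit 46127839908005412871)) (.alt (nat_lit 4) (.cov (nat_lit 46130579890545623043)) (.alt (nat_lit 4) (.exp (.alt (nat_lit 12) (.exp (.alt (nat_lit 20) (.cov (nat_lit 22053084387345833132052)) (.alt (nat_lit 20) (.cov (nat_lit 22053085836455819870219)) (.alt (nat_lit 20) (.exp (.alt (nat_lit 21) (.exp (.alt (nat_lit 17) (.exp (.alt (nat_lit 23) (.exp (.alt (nat_lit 16) (.exp (.alt (nat_lit 18) (.exp (.alt (nat_lit 26) (.exp (.alt (nat_lit 10) (.exp (.alt (nat_lit 30) (.exp (.alt (nat_lit 24) (.cov (nat_lit 1607172586218046095361)) (.alt (nat_lit 24) (.exp (.alt (nat_lit 25) (.cov (nat_lit 3013736824037423710208)) (.alt (nat_lit 8) (.cov (nat_lit 1754267656)) .e))) .e))) .e)) .e)) .e)) .e)) (.alt (nat_lit 16) (.cov (nat_lit 10164156404628698693635)) (.alt (nat_lit 16) (.exp (.alt (nat_lit 18) (.exp (.alt (nat_lit 24) (.cov (nat_lit 64563637243340652546)) (.alt (nat_lit 24) (.cov (nat_lit 25594857549606569377793)) (.alt (nat_lit 24) (.exp (.alt (nat_lit 8) (.cov (nat_lit 22749447146660024025091)) (.alt (nat_lit 25) (.exp (.alt (nat_lit 9) (.exp (.alt (nat_lit 27) (.cov (nat_lit 45438942348361212100609)) (.alt (nat_lit 29) (.cov (nat_lit 47579136015)) .e))) .e)) (.alt (nat_lit 25) (.exp (.alt (nat_lit 27) (.cov (nat_lit 71481142081729069058)) (.alt (nat_lit 9) (.cov (nat_lit 165535547459)) .e))) .e)))) .e)))) .e)) (.alt (nat_lit 16) (.exp (.alt (nat_lit 24) (.cov (nat_lit 102065835219320424103938)) (.alt (nat_lit 18) (.cov (nat_lit 362809512)) .e))) .e))))) .e)) .e)) .e)) (.alt (nat_lit 20) (.cov (nat_lit 138363600969534537729)) (.alt (nat_lit 20) (.exp (.alt (nat_lit 16) (.cov (nat_lit 344345372969739088822306)) (.alt (nat_lit 21) (.cov (nat_lit 22055391679465470820359)) (.alt (nat_lit 21) (.cov (nat_lit 345389925614353357209603)) (.alt (nat_lit 21) (.exp (.alt (nat_lit 17) (.exp (.alt (nat_lit 23) (.cov (nat_lit 365363130800253611016203)) (.alt (nat_lit 23) (.cov (nat_lit 344333844256069698715650)) (.alt (nat_lit 23) (.cov (nat_lit 22060003365483290034177)) (.alt (nat_lit 23) (.exp (.alt (nat_lit 19) (.exp (.alt (nat_lit 18) (.exp (.alt (nat_lit 26) (.exp (.alt (nat_lit 10) (.exp (.alt (nat_lit 30) (.exp (.alt (nat_lit 27) (.cov (nat_lit 426580965500671492097)) (.alt (nat_lit 27) (.exp (.alt (nat_lit 25) (.cov (nat_lit 21896285226488363483136)) (.alt (nat_lit 11) (.cov (nat_lit 10344202248)) .e))) .e))) .e)) .e)) .e)) .e)) (.alt (nat_lit 19) (.cov (nat_lit 29060539865134920630275)) (.alt (nat_lit 19) (.exp (.alt (nat_lit 18) (.exp (.alt (nat_lit 27) (.cov (nat_lit 71481166270984880130)) (.alt (nat_lit 27) (.cov (nat_lit 6712309147155666305025)) (.alt (nat_lit 27) (.exp (.alt (nat_lit 11) (.cov (nat_lit 3859981215181443170307)) (.alt (nat_lit 25) (.exp (.alt (nat_lit 9) (.exp (.alt (nat_lit 24) (.cov (nat_lit 45438942348361175400449)) (.alt (nat_lit 29) (.cov (nat_lit 185014943759)) .e))) .e)) (.alt (nat_lit 25) (.exp (.alt (nat_lit 24) (.cov (nat_lit 64563613054084841474)) (.alt (nat_lit 9) (.cov (nat_lit 28093448259)) .e))) .e)))) .e)))) .e)) (.alt (nat_lit 19) (.exp (.alt (nat_lit 27) (.cov (nat_lit 404304207652004821991426)) (.alt (nat_lit 18) (.cov (nat_lit 362809512)) .e))) .e))))) .e))))) .e)) (.alt (nat_lit 21) (.cov (nat_lit 185604523)) .e)))))) .e)))))) .e)) (.alt (nat_lit 4) (.cov (nat_lit 281026079)) .e))))))) .e)) .e)) (.alt (nat_lit 5) (.cov (nat_lit 237518887772407988224)) (.alt (nat_lit 5) (.exp (.alt (nat_lit 7) (.exp (.alt (nat_lit 6) (.cov (nat_lit 6607002177110327858245869993197570)) (.alt (nat_lit 6) (.cov (nat_lit 4010853748186512322487163247656961)) (.alt (nat_lit 6) (.exp (.alt (nat_lit 4) (.cov (nat_lit 6607002177110101885622160654860291)) (.alt (nat_lit 4) (.exp (.alt (nat_lit 20) (.exp (.alt (nat_lit 12) (.cov (nat_lit 48145377045432776044546162641862657)) (.alt (nat_lit 12) (.exp (.alt (nat_lit 13) (.cov (nat_lit 48145377045387461617731294140039168)) (.alt (nat_lit 13) (.exp (.alt (nat_lit 9) (.exp (.alt (nat_lit 8) (.exp (.alt (nat_lit 10) (.exp (.alt (nat_lit 24) (.exp (.alt (nat_lit 23) (.cov (nat_lit 6564735080218032603138)) (.alt (nat_lit 23) (.cov (nat_lit 486533110239643828225)) (.alt (nat_lit 23) (.exp (.alt (nat_lit 21) (.cov (nat_lit 1810086779824999759875)) (.alt (nat_lit 31) (.exp (.alt (nat_lit 29) (.exp (.alt (nat_lit 27) (.cov (nat_lit 2863857026239554387969)) (.alt (nat_lit 30) (.cov (nat_lit 2912944143)) .e))) .e)) (.alt (nat_lit 31) (.exp (.alt (nat_lit 27) (.cov (nat_lit 2863857026240802193410)) (.alt (nat_lit 29) (.cov (nat_lit 831520835)) .e))) .e)))) .e)))) .e)) .e)) .e)) .e)) .e))) .e))) .e)) (.alt (nat_lit 4) (.exp (.alt (nat_lit 12) (.cov (nat_lit 6607002177108764496665831905689602)) (.alt (nat_lit 12) (.cov (nat_lit 53037685713312677907)) .e))) .e)))) .e)))) (.alt (nat_lit 7) (.exp (.alt (nat_lit 6) (.cov (nat_lit 105422910083510905112354605120880642)) (.alt (nat_lit 6) (.cov (nat_lit 603409592085171516836121470304257)) (.alt (nat_lit 6) (.cov (nat_lit 603409592085171516858101949005824)) (.alt (nat_lit 6) (.cov (nat_lit 274397583275383062621)) .e))))) (.alt (nat_lit 7) (.exp (.alt (nat_lit 6) (.exp (.alt (nat_lit 4) (.exp (.alt (nat_lit 12) (.exp (.alt (nat_lit 20) (.exp (.alt (nat_lit 14) (.exp (.alt (nat_lit 10) (.exp (.alt (nat_lit 30) (.exp (.alt (nat_lit 23) (.cov (nat_lit 63283861420858084950027)) (.alt (nat_lit 23) (.cov (nat_lit 45648774198541939638278)) (.alt (nat_lit 23) (.exp (.alt (nat_lit 31) (.exp (.alt (nat_lit 29) (.exp (.alt (nat_lit 27) (.exp (.alt (nat_lit 19) (.cov (nat_lit 365358518977896902557699)) (.alt (nat_lit 19) (.cov (nat_lit 23134522929042960678913)) (.alt (nat_lit 19) (.cov (nat_lit 23134522944426359128064)) (.alt (nat_lit 19) (.exp (.alt (nat_lit 17) (.cov (nat_lit 102105034299787725242369)) (.alt (nat_lit 18) (.cov (nat_lit 10519314447)) .e))) .e))))) .e)) .e)) .e)) (.alt (nat_lit 23) (.exp (.alt (nat_lit 31) (.exp (.alt (nat_lit 29) (.exp (.alt (nat_lit 19) (.cov (nat_lit 405595479495272931786755)) (.alt (nat_lit 19) (.exp (.alt (nat_lit 27) (.exp (.alt (nat_lit 17) (.cov (nat_lit 102105034299787725242369)) (.alt (nat_lit 18) (.cov (nat_lit 10519314447)) .e))) .e)) (.alt (nat_lit 21) (.cov (nat_lit 156582805695)) .e)))) .e)) .e)) (.alt (nat_lit 23) (.cov (nat_lit 638723397582876311552)) (.alt (nat_lit 23) (.exp (.alt (nat_lit 31) (.cov (nat_lit 350186071999269628280839)) (.alt (nat_lit 31) (.cov (nat_lit 102331007048851701891075)) (.alt (nat_lit 31) (.cov (nat_lit 29134326841438259642369)) (.alt (nat_lit 31) (.exp (.alt (nat_lit 29) (.exp (.alt (nat_lit 27) (.cov (nat_lit 102105034308583787855874)) (.alt (nat_lit 27) (.cov (nat_lit 634106860519159758849)) (.alt (nat_lit 27) (.cov (nat_lit 404544015212812677677056)) (.alt (nat_lit 27) (.exp (.alt (nat_lit 19) (.cov (nat_lit 365358518977896902557699)) (.alt (nat_lit 19) (.cov (nat_lit 23134522929042960678913)) (.alt (nat_lit 19) (.cov (nat_lit 23134522944426359128064)) (.alt (nat_lit 19) (.exp (.alt (nat_lit 17) (.cov (nat_lit 102105034299787725242369)) (.alt (nat_lit 18) (.cov (nat_lit 10519314447)) .e))) .e))))) .e))))) .e)) (.alt (nat_lit 31) (.exp (.alt (nat_lit 27) (.cov (nat_lit 634106860539776860162)) (.alt (nat_lit 29) (.cov (nat_lit 647942026327153967105)) (.alt (nat_lit 29) (.exp (.alt (nat_lit 25) (.cov (nat_lit 629495159291378663427)) (.alt (nat_lit 25) (.cov (nat_lit 102331007048831044943872)) (.alt (nat_lit 21) (.cov (nat_lit 156582805695)) .e)))) .e)))) .e)))))) .e))))))) .e)) .e)) .e)) .e)) .e)) .e)) (.alt (nat_lit 6) (.exp (.alt (nat_lit 4) (.exp (.alt (nat_lit 20) (.exp (.alt (nat_lit 12) (.exp (.alt (nat_lit 13) (.exp (.alt (nat_lit 9) (.exp (.alt (nat_lit 29) (.exp (.alt (nat_lit 23) (.cov (nat_lit 347808747856772012703755)) (.alt (nat_lit 23) (.cov (nat_lit 347882534945217036943366)) (.alt (nat_lit 23) (.exp (.alt (nat_lit 31) (.exp (.alt (nat_lit 30) (.exp (.alt (nat_lit 27) (.exp (.alt (nat_lit 19) (.cov (nat_lit 365360824818715681882115)) (.alt (nat_lit 19) (.cov (nat_lit 4247362840573592469505)) (.alt (nat_lit 19) (.cov (nat_lit 4247362855956990918656)) (.alt (nat_lit 19) (.exp (.alt (nat_lit 18) (.cov (nat_lit 404338795046454199058433)) (.alt (nat_lit 17) (.cov (nat_lit 12129927183)) .e))) .e))))) .e)) .e)) .e)) (.alt (nat_lit 23) (.exp (.alt (nat_lit 31) (.exp (.alt (nat_lit 27) (.exp (.alt (nat_lit 19) (.cov (nat_lit 63276943876444157640707)) (.alt (nat_lit 19) (.exp (.alt (nat_lit 17) (.exp (.alt (nat_lit 18) (.cov (nat_lit 404338795046463969689601)) (.alt (nat_lit 18) (.exp (.alt (nat_lit 26) (.cov (nat_lit 202914195805931831296)) (.alt (nat_lit 22) (.cov (nat_lit 21808283656)) .e))) .e))) .e)) (.alt (nat_lit 19) (.cov (nat_lit 183863607888)) .e)))) .e)) .e)) (.alt (nat_lit 23) (.cov (nat_lit 641029240592090005504)) (.alt (nat_lit 23) (.exp (.alt (nat_lit 31) (.cov (nat_lit 347827194600835060334599)) (.alt (nat_lit 31) (.cov (nat_lit 652553712510519214083)) (.alt (nat_lit 31) (.cov (nat_lit 10244860909949949050881)) (.alt (nat_lit 31) (.exp (.alt (nat_lit 30) (.exp (.alt (nat_lit 27) (.cov (nat_lit 404338795055250295226370)) (.alt (nat_lit 27) (.cov (nat_lit 6403326069571788472321)) (.alt (nat_lit 27) (.cov (nat_lit 10240248951252584497152)) (.alt (nat_lit 27) (.exp (.alt (nat_lit 25) (.cov (nat_lit 404334183360435806273539)) (.alt (nat_lit 25) (.cov (nat_lit 26692438692249958612993)) (.alt (nat_lit 25) (.cov (nat_lit 26692438707643087847424)) (.alt (nat_lit 25) (.exp (.alt (nat_lit 24) (.cov (nat_lit 365379271562779626045441)) (.alt (nat_lit 17) (.cov (nat_lit 12129927183)) .e))) .e))))) .e))))) .e)) (.alt (nat_lit 31) (.exp (.alt (nat_lit 27) (.cov (nat_lit 21529656210034272501762)) (.alt (nat_lit 30) (.cov (nat_lit 650247869336368709633)) (.alt (nat_lit 30) (.exp (.alt (nat_lit 26) (.cov (nat_lit 2644801949344148226051)) (.alt (nat_lit 26) (.cov (nat_lit 404562461952488339668992)) (.alt (nat_lit 28) (.cov (nat_lit 13245612223)) .e)))) .e)))) .e)))))) .e))))))) .e)) .e)) .e)) .e)) .e)) .e)) .e))) (.alt (nat_lit 7) (.exp (.alt (nat_lit 6) (.exp (.alt (nat_lit 4) (.exp (.alt (nat_lit 12) (.exp (.alt (nat_lit 14) (.exp (.alt (nat_lit 10) (.exp (.alt (nat_lit 30) (.exp (.alt (nat_lit 23) (.cov (nat_lit 406932868568170595614731)) (.alt (nat_lit 23) (.exp (.alt (nat_lit 21) (.exp (.alt (nat_lit 17) (.exp (.alt (nat_lit 20) (.exp (.alt (nat_lit 31) (.cov (nat_lit 652553589365215854595)) (.alt (nat_lit 19) (.exp (.alt (nat_lit 18) (.exp (.alt (nat_lit 27) (.cov (nat_lit 426580965500671492097)) (.alt (nat_lit 27) (.exp (.alt (nat_lit 25) (.cov (nat_lit 435804339736513871872)) (.alt (nat_lit 11) (.cov (nat_lit 10344202248)) .e))) .e))) .e)) (.alt (nat_lit 31) (.cov (nat_lit 4054843984)) .e)))) .e)) .e)) .e)) (.alt (nat_lit 23) (.cov (nat_lit 707894307414715924481)) (.alt (nat_lit 23) (.exp (.alt (nat_lit 21) (.exp (.alt (nat_lit 17) (.exp (.alt (nat_lit 19) (.exp (.alt (nat_lit 27) (.exp (.alt (nat_lit 18) (.exp (.alt (nat_lit 29) (.cov (nat_lit 102105034299797468610561)) (.alt (nat_lit 20) (.cov (nat_lit 47575990287)) .e))) .e)) .e)) .e)) .e)) (.alt (nat_lit 31) (.cov (nat_lit 29134326841438259642371)) (.alt (nat_lit 31) (.exp (.alt (nat_lit 29) (.exp (.alt (nat_lit 27) (.cov (nat_lit 1683265429877499625474)) (.alt (nat_lit 27) (.cov (nat_lit 7879065705429495447553)) (.alt (nat_lit 27) (.exp (.alt (nat_lit 19) (.cov (nat_lit 344255443772965868535811)) (.alt (nat_lit 25) (.exp (.alt (nat_lit 9) (.exp (.alt (nat_lit 17) (.cov (nat_lit 25272039389778200756225)) (.alt (nat_lit 17) (.exp (.alt (nat_lit 16) (.cov (nat_lit 189079137750664347648)) (.alt (nat_lit 21) (.cov (nat_lit 1363148808)) .e))) .e))) .e)) (.alt (nat_lit 19) (.cov (nat_lit 166212928080)) .e)))) .e)))) .e)) (.alt (nat_lit 31) (.cov (nat_lit 1339034770)) .e))))) .e))))) .e)) .e)) .e)) .e)) .e)) (.alt (nat_lit 6) (.cov (nat_lit 53045368935749255179)) .e))) (.alt (nat_lit 7) (.cov (nat_lit 126835087411974766607)) (.alt (nat_lit 7) (.exp (.alt (nat_lit 6) (.exp (.alt (nat_lit 4) (.exp (.alt (nat_lit 12) (.exp (.alt (nat_lit 20) (.exp (.alt (nat_lit 23) (.exp (.alt (nat_lit 21) (.exp (.alt (nat_lit 17) (.exp (.alt (nat_lit 29) (.exp (.alt (nat_lit 28) (.exp (.alt (nat_lit 30) (.exp (.alt (nat_lit 24) (.exp (.alt (nat_lit 19) (.cov (nat_lit 365360824818724852727811)) (.alt (nat_lit 19) (.cov (nat_lit 343909567312943380430849)) (.alt (nat_lit 19) (.cov (nat_lit 343909567328180179566592)) (.alt (nat_lit 19) (.exp (.alt (nat_lit 27) (.cov (nat_lit 365379271562779654356993)) (.alt (nat_lit 18) (.cov (nat_lit 46433042447)) .e))) .e))))) .e)) .e)) .e)) .e)) .e)) .e)) (.alt (nat_lit 23) (.exp (.alt (nat_lit 21) (.cov (nat_lit 48510457231524749627943913847259136)) (.alt (nat_lit 21) (.exp (.alt (nat_lit 17) (.exp (.alt (nat_lit 16) (.exp (.alt (nat_lit 18) (.exp (.alt (nat_lit 24) (.exp (.alt (nat_lit 31) (.cov (nat_lit 343909567312787062915075)) (.alt (nat_lit 31) (.exp (.alt (nat_lit 29) (.exp (.alt (nat_lit 27) (.cov (nat_lit 45438942348361191129089)) (.alt (nat_lit 30) (.cov (nat_lit 46433042447)) .e))) .e)) (.alt (nat_lit 31) (.exp (.alt (nat_lit 27) (.cov (nat_lit 45438942348381808230402)) (.alt (nat_lit 29) (.cov (nat_lit 13213106243)) .e))) .e)))) .e)) .e)) .e)) .e)) .e))) (.alt (nat_lit 23) (.cov (nat_lit 292848445935947087878)) (.alt (nat_lit 23) (.exp (.alt (nat_lit 21) (.exp (.alt (nat_lit 17) (.exp (.alt (nat_lit 29) (.exp (.alt (nat_lit 31) (.cov (nat_lit 347827194600847441920007)) (.alt (nat_lit 31) (.cov (nat_lit 10171073654389492154371)) (.alt (nat_lit 31) (.cov (nat_lit 726340967915820417025)) (.alt (nat_lit 31) (.exp (.alt (nat_lit 30) (.exp (.alt (nat_lit 27) (.cov (nat_lit 25295097828666420232194)) (.alt (nat_lit 27) (.cov (nat_lit 102105034323976950644737)) (.alt (nat_lit 27) (.cov (nat_lit 721729009218464251904)) (.alt (nat_lit 27) (.exp (.alt (nat_lit 25) (.cov (nat_lit 25290486133851931279363)) (.alt (nat_lit 25) (.cov (nat_lit 26692438692249950224385)) (.alt (nat_lit 25) (.cov (nat_lit 26692438707643079458816)) (.alt (nat_lit 25) (.exp (.alt (nat_lit 24) (.cov (nat_lit 365379271562779617656833)) (.alt (nat_lit 9) (.cov (nat_lit 184423546895)) .e))) .e))))) .e))))) .e)) (.alt (nat_lit 31) (.exp (.alt (nat_lit 27) (.cov (nat_lit 343904955642163035635714)) (.alt (nat_lit 30) (.cov (nat_lit 10168767811370505732097)) (.alt (nat_lit 30) (.exp (.alt (nat_lit 26) (.cov (nat_lit 41678112409141198716931)) (.alt (nat_lit 26) (.cov (nat_lit 25371190773314805039104)) (.alt (nat_lit 28) (.cov (nat_lit 864026815)) .e)))) .e)))) .e)))))) .e)) .e)) .e)) (.alt (nat_lit 23) (.exp (.alt (nat_lit 21) (.exp (.alt (nat_lit 17) (.exp (.alt (nat_lit 19) (.exp (.alt (nat_lit 18) (.exp (.alt (nat_lit 26) (.exp (.alt (nat_lit 10) (.exp (.alt (nat_lit 30) (.exp (.alt (nat_lit 27) (.cov (nat_lit 426580965500671492097)) (.alt (nat_lit 27) (.exp (.alt (nat_lit 25) (.cov (nat_lit 21896285226488363483136)) (.alt (nat_lit 11) (.cov (nat_lit 10344202248)) .e))) .e))) .e)) .e)) .e)) .e)) (.alt (nat_lit 19) (.cov (nat_lit 29060539865134920630275)) (.alt (nat_lit 19) (.exp (.alt (nat_lit 18) (.exp (.alt (nat_lit 27) (.cov (nat_lit 71481166270984880130)) (.alt (nat_lit 27) (.cov (nat_lit 6712309147155666305025)) (.alt (nat_lit 27) (.exp (.alt (nat_lit 11) (.cov (nat_lit 3859981215181443170307)) (.alt (nat_lit 25) (.exp (.alt (nat_lit 9) (.exp (.alt (nat_lit 24) (.cov (nat_lit 45438942348361175400449)) (.alt (nat_lit 29) (.cov (nat_lit 185014943759)) .e))) .e)) (.alt (nat_lit 25) (.exp (.alt (nat_lit 24) (.cov (nat_lit 64563613054084841474)) (.alt (nat_lit 9) (.cov (nat_lit 28093448259)) .e))) .e)))) .e)))) .e)) (.alt (nat_lit 19) (.exp (.alt (nat_lit 27) (.cov (nat_lit 404304207652004821991426)) (.alt (nat_lit 18) (.cov (nat_lit 362809512)) .e))) .e))))) .e)) .e)) (.alt (nat_lit 23) (.exp (.alt (nat_lit 21) (.exp (.alt (nat_lit 31) (.cov (nat_lit 3013736898805578596359)) (.alt (nat_lit 22) (.cov (nat_lit 42985532465213666754560)) .e))) .e)) (.alt (nat_lit 23) (.exp (.alt (nat_lit 31) (.exp (.alt (nat_lit 29) (.exp (.alt (nat_lit 13) (.exp (.alt (nat_lit 9) (.exp (.alt (nat_lit 25) (.exp (.alt (nat_lit 17) (.exp (.alt (nat_lit 27) (.exp (.alt (nat_lit 30) (.cov (nat_lit 365379271562780242608129)) (.alt (nat_lit 30) (.exp (.alt (nat_lit 26) (.cov (nat_lit 25276651077995639865344)) (.alt (nat_lit 28) (.cov (nat_lit 12138315784)) .e))) .e))) .e)) .e)) .e)) .e)) .e)) (.alt (nat_lit 29) (.exp (.alt (nat_lit 25) (.exp (.alt (nat_lit 9) (.exp (.alt (nat_lit 27) (.exp (.alt (nat_lit 19) (.exp (.alt (nat_lit 17) (.exp (.alt (nat_lit 30) (.cov (nat_lit 365379271562780242608129)) (.alt (nat_lit 30) (.exp (.alt (nat_lit 26) (.cov (nat_lit 345216980292414117773312)) (.alt (nat_lit 28) (.cov (nat_lit 12138315784)) .e))) .e))) .e)) .e)) .e)) .e)) (.alt (nat_lit 13) (.exp (.alt (nat_lit 9) (.exp (.alt (nat_lit 8) (.exp (.alt (nat_lit 10) (.exp (.alt (nat_lit 24) (.exp (.alt (nat_lit 27) (.cov (nat_lit 2863857026239554387969)) (.alt (nat_lit 30) (.cov (nat_lit 2912944143)) .e))) .e)) .e)) .e)) .e)) .e))) .e))) (.alt (nat_lit 31) (.cov (nat_lit 384197257654008136335375)) (.alt (nat_lit 31) (.exp (.alt (nat_lit 27) (.exp (.alt (nat_lit 25) (.exp (.alt (nat_lit 9) (.exp (.alt (nat_lit 17) (.exp (.alt (nat_lit 30) (.cov (nat_lit 365379271571575899422722)) (.alt (nat_lit 30) (.exp (.alt (nat_lit 28) (.exp (.alt (nat_lit 29) (.exp (.alt (nat_lit 26) (.cov (nat_lit 25276651077995639865344)) (.alt (nat_lit 14) (.cov (nat_lit 19606274056)) .e))) .e)) .e)) (.alt (nat_lit 29) (.cov (nat_lit 406925951039131402371072)) (.alt (nat_lit 29) (.exp (.alt (nat_lit 28) (.cov (nat_lit 45448165720399200387075)) (.alt (nat_lit 28) (.cov (nat_lit 26692438692259703029761)) (.alt (nat_lit 28) (.cov (nat_lit 26692438707643101478912)) (.alt (nat_lit 28) (.exp (.alt (nat_lit 30) (.cov (nat_lit 25295097819870934335489)) (.alt (nat_lit 30) (.exp (.alt (nat_lit 26) (.cov (nat_lit 25276651077995639865344)) (.alt (nat_lit 14) (.cov (nat_lit 19606274056)) .e))) .e))) .e))))) .e))))) .e)) .e)) .e)) .e)) (.alt (nat_lit 21) (.cov (nat_lit 344329234019207628193795)) (.alt (nat_lit 21) (.cov (nat_lit 4318851034913172357121)) (.alt (nat_lit 21) (.exp (.alt (nat_lit 17) (.exp (.alt (nat_lit 29) (.cov (nat_lit 25447283482851546234891)) (.alt (nat_lit 29) (.cov (nat_lit 406925951039315259686918)) (.alt (nat_lit 29) (.exp (.alt (nat_lit 31) (.exp (.alt (nat_lit 30) (.exp (.alt (nat_lit 27) (.exp (.alt (nat_lit 25) (.cov (nat_lit 25290486133851931279363)) (.alt (nat_lit 25) (.cov (nat_lit 26692438692249950224385)) (.alt (nat_lit 25) (.cov (nat_lit 26692438707643079458816)) (.alt (nat_lit 25) (.exp (.alt (nat_lit 24) (.cov (nat_lit 365379271562779617656833)) (.alt (nat_lit 9) (.cov (nat_lit 184423546895)) .e))) .e))))) .e)) .e)) .e)) (.alt (nat_lit 29) (.exp (.alt (nat_lit 31) (.exp (.alt (nat_lit 27) (.exp (.alt (nat_lit 25) (.cov (nat_lit 25438060095237700714499)) (.alt (nat_lit 25) (.exp (.alt (nat_lit 9) (.exp (.alt (nat_lit 24) (.cov (nat_lit 365379271562779672182785)) (.alt (nat_lit 24) (.exp (.alt (nat_lit 26) (.cov (nat_lit 45402048862412769067008)) (.alt (nat_lit 28) (.cov (nat_lit 158173495304)) .e))) .e))) .e)) (.alt (nat_lit 25) (.cov (nat_lit 174709539408)) .e)))) .e)) .e)) (.alt (nat_lit 29) (.cov (nat_lit 102111956704049906057216)) (.alt (nat_lit 29) (.exp (.alt (nat_lit 31) (.cov (nat_lit 3020654375211679875079)) (.alt (nat_lit 31) (.cov (nat_lit 10171073654389492154371)) (.alt (nat_lit 31) (.cov (nat_lit 726340968072150515713)) (.alt (nat_lit 31) (.exp (.alt (nat_lit 30) (.exp (.alt (nat_lit 27) (.cov (nat_lit 365379271571622134284290)) (.alt (nat_lit 27) (.cov (nat_lit 10134180058479553675265)) (.alt (nat_lit 27) (.cov (nat_lit 6444831358086852640768)) (.alt (nat_lit 27) (.exp (.alt (nat_lit 11) (.cov (nat_lit 365342378074788563255299)) (.alt (nat_lit 11) (.cov (nat_lit 43114652604026208649217)) (.alt (nat_lit 11) (.cov (nat_lit 43114652619263007784960)) (.alt (nat_lit 11) (.exp (.alt (nat_lit 10) (.cov (nat_lit 25295097819870324064257)) (.alt (nat_lit 9) (.cov (nat_lit 184423546895)) .e))) .e))))) .e))))) .e)) (.alt (nat_lit 31) (.exp (.alt (nat_lit 27) (.cov (nat_lit 29023645989959416938498)) (.alt (nat_lit 30) (.cov (nat_lit 10168767811370505732097)) (.alt (nat_lit 30) (.exp (.alt (nat_lit 26) (.cov (nat_lit 404341100898279036551171)) (.alt (nat_lit 26) (.cov (nat_lit 25371190773314805039104)) (.alt (nat_lit 14) (.cov (nat_lit 9808380095)) .e)))) .e)))) .e)))))) .e))))))) .e)) (.alt (nat_lit 21) (.exp (.alt (nat_lit 17) (.cov (nat_lit 41673500940815334113291)) (.alt (nat_lit 17) (.exp (.alt (nat_lit 19) (.exp (.alt (nat_lit 27) (.exp (.alt (nat_lit 18) (.exp (.alt (nat_lit 25) (.cov (nat_lit 66869464859392606211)) (.alt (nat_lit 25) (.exp (.alt (nat_lit 9) (.exp (.alt (nat_lit 24) (.cov (nat_lit 45438942348361175400449)) (.alt (nat_lit 29) (.cov (nat_lit 185014943759)) .e))) .e)) (.alt (nat_lit 25) (.exp (.alt (nat_lit 24) (.cov (nat_lit 64563613054084841474)) (.alt (nat_lit 9) (.cov (nat_lit 28093448259)) .e))) .e)))) .e)) .e)) .e)) (.alt (nat_lit 17) (.cov (nat_lit 795520711214309048321)) (.alt (nat_lit 17) (.exp (.alt (nat_lit 19) (.exp (.alt (nat_lit 18) (.exp (.alt (nat_lit 26) (.exp (.alt (nat_lit 10) (.exp (.alt (nat_lit 30) (.exp (.alt (nat_lit 27) (.cov (nat_lit 426580965500671492097)) (.alt (nat_lit 27) (.exp (.alt (nat_lit 25) (.cov (nat_lit 21896285226488363483136)) (.alt (nat_lit 11) (.cov (nat_lit 10344202248)) .e))) .e))) .e)) .e)) .e)) .e)) (.alt (nat_lit 19) (.cov (nat_lit 29060539865134920630275)) (.alt (nat_lit 19) (.exp (.alt (nat_lit 18) (.exp (.alt (nat_lit 27) (.cov (nat_lit 71481166270984880130)) (.alt (nat_lit 27) (.cov (nat_lit 6712309147155666305025)) (.alt (nat_lit 27) (.exp (.alt (nat_lit 11) (.cov (nat_lit 3859981215181443170307)) (.alt (nat_lit 25) (.exp (.alt (nat_lit 9) (.exp (.alt (nat_lit 24) (.cov (nat_lit 45438942348361175400449)) (.alt (nat_lit 29) (.cov (nat_lit 185014943759)) .e))) .e)) (.alt (nat_lit 25) (.exp (.alt (nat_lit 24) (.cov (nat_lit 64563613054084841474)) (.alt (nat_lit 9) (.cov (nat_lit 28093448259)) .e))) .e)))) .e)))) .e)) (.alt (nat_lit 19) (.exp (.alt (nat_lit 27) (.cov (nat_lit 404304207652004821991426)) (.alt (nat_lit 18) (.cov (nat_lit 362809512)) .e))) .e))))) .e))))) .e)))))))) .e)))))))) .e)) .e)) .e)) .e)) (.alt (nat_lit 7) (.exp (.alt (nat_lit 6) (.exp (.alt (nat_lit 4) (.exp (.alt (nat_lit 12) (.exp (.alt (nat_lit 23) (.cov (nat_lit 3170535985032332312596)) (.alt (nat_lit 23) (.cov (nat_lit 22060003365483997822987)) (.alt (nat_lit 23) (.exp (.alt (nat_lit 21) (.exp (.alt (nat_lit 17) (.exp (.alt (nat_lit 20) (.exp (.alt (nat_lit 19) (.exp (.alt (nat_lit 18) (.exp (.alt (nat_lit 26) (.exp (.alt (nat_lit 10) (.exp (.alt (nat_lit 30) (.exp (.alt (nat_lit 27) (.cov (nat_lit 426580965500671492097)) (.alt (nat_lit 27) (.exp (.alt (nat_lit 25) (.cov (nat_lit 21896285226488363483136)) (.alt (nat_lit 11) (.cov (nat_lit 10344202248)) .e))) .e))) .e)) .e)) .e)) .e)) (.alt (nat_lit 19) (.cov (nat_lit 29060539865134920630275)) (.alt (nat_lit 19) (.exp (.alt (nat_lit 18) (.exp (.alt (nat_lit 27) (.cov (nat_lit 71481166270984880130)) (.alt (nat_lit 27) (.cov (nat_lit 6712309147155666305025)) (.alt (nat_lit 27) (.exp (.alt (nat_lit 11) (.cov (nat_lit 3859981215181443170307)) (.alt (nat_lit 25) (.exp (.alt (nat_lit 9) (.exp (.alt (nat_lit 24) (.cov (nat_lit 45438942348361175400449)) (.alt (nat_lit 29) (.cov (nat_lit 185014943759)) .e))) .e)) (.alt (nat_lit 25) (.exp (.alt (nat_lit 24) (.cov (nat_lit 64563613054084841474)) (.alt (nat_lit 9) (.cov (nat_lit 28093448259)) .e))) .e)))) .e)))) .e)) (.alt (nat_lit 19) (.exp (.alt (nat_lit 27) (.cov (nat_lit 404304207652004821991426)) (.alt (nat_lit 18) (.cov (nat_lit 362809512)) .e))) .e))))) .e)) .e)) .e)) (.alt (nat_lit 23) (.cov (nat_lit 71494153702374113281)) (.alt (nat_lit 23) (.exp (.alt (nat_lit 19) (.cov (nat_lit 42120835595108899356706)) (.alt (nat_lit 21) (.cov (nat_lit 22055391679465467674631)) (.alt (nat_lit 21) (.cov (nat_lit 345389925614353890934787)) (.alt (nat_lit 21) (.exp (.alt (nat_lit 17) (.exp (.alt (nat_lit 20) (.cov (nat_lit 63124758367568673112075)) (.alt (nat_lit 20) (.cov (nat_lit 42095471823384760811522)) (.alt (nat_lit 20) (.cov (nat_lit 22053085836455679361025)) (.alt (nat_lit 20) (.exp (.alt (nat_lit 16) (.exp (.alt (nat_lit 18) (.exp (.alt (nat_lit 26) (.exp (.alt (nat_lit 10) (.exp (.alt (nat_lit 30) (.exp (.alt (nat_lit 24) (.cov (nat_lit 1607172586218046095361)) (.alt (nat_lit 24) (.exp (.alt (nat_lit 25) (.cov (nat_lit 3013736824037423710208)) (.alt (nat_lit 8) (.cov (nat_lit 1754267656)) .e))) .e))) .e)) .e)) .e)) .e)) (.alt (nat_lit 16) (.cov (nat_lit 10164156404628698693635)) (.alt (nat_lit 16) (.exp (.alt (nat_lit 18) (.exp (.alt (nat_lit 24) (.cov (nat_lit 64563637243340652546)) (.alt (nat_lit 24) (.cov (nat_lit 25594857549606569377793)) (.alt (nat_lit 24) (.exp (.alt (nat_lit 8) (.cov (nat_lit 22749447146660024025091)) (.alt (nat_lit 25) (.exp (.alt (nat_lit 9) (.exp (.alt (nat_lit 27) (.cov (nat_lit 45438942348361212100609)) (.alt (nat_lit 29) (.cov (nat_lit 47579136015)) .e))) .e)) (.alt (nat_lit 25) (.exp (.alt (nat_lit 27) (.cov (nat_lit 71481142081729069058)) (.alt (nat_lit 9) (.cov (nat_lit 165535547459)) .e))) .e)))) .e)))) .e)) (.alt (nat_lit 16) (.exp (.alt (nat_lit 24) (.cov (nat_lit 102065835219320424103938)) (.alt (nat_lit 18) (.cov (nat_lit 362809512)) .e))) .e))))) .e))))) .e)) (.alt (nat_lit 21) (.cov (nat_lit 722475435)) .e)))))) .e)))))) .e)) .e)) .e)) (.alt (nat_lit 7) (.cov (nat_lit 21525058536181136883713)) (.alt (nat_lit 7) (.exp (.alt (nat_lit 6) (.exp (.alt (nat_lit 23) (.exp (.alt (nat_lit 31) (.cov (nat_lit 51055899637130748474418488555864067)) (.alt (nat_lit 31) (.exp (.alt (nat_lit 29) (.exp (.alt (nat_lit 27) (.cov (nat_lit 92437085835834322106467523588259841)) (.alt (nat_lit 27) (.cov (nat_lit 417359431847224803339)) .e))) .e)) (.alt (nat_lit 31) (.exp (.alt (nat_lit 29) (.cov (nat_lit 139330016834680240371658716833906690)) (.alt (nat_lit 29) (.cov (nat_lit 42102389352424447934484)) .e))) .e)))) (.alt (nat_lit 23) (.exp (.alt (nat_lit 31) (.cov (nat_lit 9522598557679119533234956983599107)) (.alt (nat_lit 31) (.cov (nat_lit 9522598557660373029578854336823297)) (.alt (nat_lit 31) (.cov (nat_lit 757198134379472819702698975368839168)) (.alt (nat_lit 31) (.cov (nat_lit 786293583247459745826)) .e))))) (.alt (nat_lit 23) (.exp (.alt (nat_lit 31) (.exp (.alt (nat_lit 29) (.exp (.alt (nat_lit 27) (.exp (.alt (nat_lit 11) (.exp (.alt (nat_lit 9) (.exp (.alt (nat_lit 10) (.exp (.alt (nat_lit 21) (.cov (nat_lit 4251974541975686742023)) (.alt (nat_lit 21) (.exp (.alt (nat_lit 17) (.exp (.alt (nat_lit 19) (.exp (.alt (nat_lit 18) (.exp (.alt (nat_lit 20) (.cov (nat_lit 45443554034389360836609)) (.alt (nat_lit 20) (.exp (.alt (nat_lit 28) (.cov (nat_lit 1604866745407859851264)) (.alt (nat_lit 22) (.cov (nat_lit 185017040904)) .e))) .e))) .e)) .e)) .e)) (.alt (nat_lit 21) (.cov (nat_lit 4325761905308113829889)) (.alt (nat_lit 21) (.exp (.alt (nat_lit 17) (.exp (.alt (nat_lit 20) (.cov (nat_lit 26554088111708577988610)) (.alt (nat_lit 20) (.cov (nat_lit 21744099609880251334657)) (.alt (nat_lit 20) (.cov (nat_lit 4330373318637879558144)) (.alt (nat_lit 20) (.exp (.alt (nat_lit 22) (.cov (nat_lit 404348018418502531547139)) (.alt (nat_lit 22) (.cov (nat_lit 406856775621311681527809)) (.alt (nat_lit 22) (.cov (nat_lit 406856775636704810762240)) (.alt (nat_lit 22) (.exp (.alt (nat_lit 30) (.cov (nat_lit 25295097819870363910145)) (.alt (nat_lit 18) (.cov (nat_lit 185012846607)) .e))) .e))))) .e))))) .e)) (.alt (nat_lit 19) (.exp (.alt (nat_lit 18) (.cov (nat_lit 406847552264668121661442)) (.alt (nat_lit 17) (.cov (nat_lit 347868699889349308710913)) (.alt (nat_lit 17) (.exp (.alt (nat_lit 16) (.cov (nat_lit 46688709268152355127299)) (.alt (nat_lit 16) (.exp (.alt (nat_lit 18) (.exp (.alt (nat_lit 20) (.cov (nat_lit 45443554034389360836609)) (.alt (nat_lit 20) (.exp (.alt (nat_lit 28) (.cov (nat_lit 45406660548431209037824)) (.alt (nat_lit 22) (.cov (nat_lit 185017040904)) .e))) .e))) .e)) (.alt (nat_lit 25) (.cov (nat_lit 21835546815)) .e)))) .e)))) .e)))))) .e)) .e)) .e)) .e)) .e)) .e)) (.alt (nat_lit 23) (.cov (nat_lit 809359914429105307659)) (.alt (nat_lit 23) (.cov (nat_lit 292849714782563991558)) (.alt (nat_lit 23) (.exp (.alt (nat_lit 21) (.exp (.alt (nat_lit 17) (.exp (.alt (nat_lit 29) (.exp (.alt (nat_lit 31) (.exp (.alt (nat_lit 27) (.exp (.alt (nat_lit 19) (.exp (.alt (nat_lit 18) (.exp (.alt (nat_lit 11) (.exp (.alt (nat_lit 9) (.exp (.alt (nat_lit 10) (.exp (.alt (nat_lit 30) (.cov (nat_lit 45443554034379630051329)) (.alt (nat_lit 30) (.exp (.alt (nat_lit 28) (.cov (nat_lit 22855515918321263312896)) (.alt (nat_lit 22) (.cov (nat_lit 28777119752)) .e))) .e))) .e)) .e)) .e)) .e)) .e)) (.alt (nat_lit 27) (.cov (nat_lit 25451895276438253731851)) .e))) (.alt (nat_lit 31) (.cov (nat_lit 726340967927900012559)) (.alt (nat_lit 31) (.exp (.alt (nat_lit 27) (.exp (.alt (nat_lit 11) (.exp (.alt (nat_lit 9) (.exp (.alt (nat_lit 10) (.exp (.alt (nat_lit 30) (.cov (nat_lit 63152428353948338880514)) (.alt (nat_lit 30) (.cov (nat_lit 25433448424612441358337)) (.alt (nat_lit 30) (.cov (nat_lit 26761614112268704808960)) (.alt (nat_lit 30) (.exp (.alt (nat_lit 22) (.cov (nat_lit 365365436504725520384003)) (.alt (nat_lit 22) (.cov (nat_lit 63281555562462586077185)) (.alt (nat_lit 22) (.cov (nat_lit 63281555577845984526336)) (.alt (nat_lit 22) (.exp (.alt (nat_lit 20) (.cov (nat_lit 25272039389787947270145)) (.alt (nat_lit 18) (.cov (nat_lit 158158815247)) .e))) .e))))) .e))))) .e)) .e)) .e)) .e)) (.alt (nat_lit 31) (.exp (.alt (nat_lit 27) (.exp (.alt (nat_lit 19) (.exp (.alt (nat_lit 18) (.exp (.alt (nat_lit 30) (.cov (nat_lit 1581808337307247312898)) (.alt (nat_lit 30) (.cov (nat_lit 2942255822693803753473)) (.alt (nat_lit 30) (.exp (.alt (nat_lit 26) (.cov (nat_lit 347813359527385825804291)) (.alt (nat_lit 28) (.exp (.alt (nat_lit 20) (.exp (.alt (nat_lit 24) (.cov (nat_lit 1567973255217794777089)) (.alt (nat_lit 24) (.exp (.alt (nat_lit 8) (.cov (nat_lit 170632393676939067392)) (.alt (nat_lit 25) (.cov (nat_lit 9437192)) .e))) .e))) .e)) (.alt (nat_lit 26) (.cov (nat_lit 9957278288)) .e)))) .e)))) .e)) .e)) .e)) (.alt (nat_lit 31) (.cov (nat_lit 364325460459509514241)) (.alt (nat_lit 19) (.exp (.alt (nat_lit 27) (.exp (.alt (nat_lit 18) (.cov (nat_lit 404338795070655574310923)) (.alt (nat_lit 18) (.cov (nat_lit 404338795182805122809862)) (.alt (nat_lit 18) (.exp (.alt (nat_lit 22) (.exp (.alt (nat_lit 20) (.exp (.alt (nat_lit 30) (.exp (.alt (nat_lit 26) (.cov (nat_lit 45434330664541785948163)) (.alt (nat_lit 26) (.cov (nat_lit 96845423988950695937)) (.alt (nat_lit 26) (.cov (nat_lit 96845439372349145088)) (.alt (nat_lit 2) (.exp (.alt (nat_lit 10) (.cov (nat_lit 45397437174195344637953)) (.alt (nat_lit 10) (.exp (.alt (nat_lit 8) (.cov (nat_lit 396605008579896803328)) (.alt (nat_lit 11) (.cov (nat_lit 47556067336)) .e))) .e))) .e))))) .e)) .e)) .e)) (.alt (nat_lit 18) (.exp (.alt (nat_lit 22) (.exp (.alt (nat_lit 20) (.exp (.alt (nat_lit 26) (.cov (nat_lit 96845423979897290755)) (.alt (nat_lit 26) (.exp (.alt (nat_lit 30) (.exp (.alt (nat_lit 24) (.cov (nat_lit 1567973255217794777089)) (.alt (nat_lit 24) (.exp (.alt (nat_lit 8) (.cov (nat_lit 1577196629297292378112)) (.alt (nat_lit 25) (.cov (nat_lit 9437192)) .e))) .e))) .e)) (.alt (nat_lit 2) (.cov (nat_lit 184996069567)) .e)))) .e)) .e)) (.alt (nat_lit 18) (.cov (nat_lit 3159009833041692459008)) (.alt (nat_lit 18) (.exp (.alt (nat_lit 16) (.cov (nat_lit 343902649799154453184519)) (.alt (nat_lit 16) (.exp (.alt (nat_lit 20) (.exp (.alt (nat_lit 22) (.exp (.alt (nat_lit 30) (.exp (.alt (nat_lit 24) (.cov (nat_lit 1567973255217794777089)) (.alt (nat_lit 24) (.exp (.alt (nat_lit 8) (.cov (nat_lit 23058441087265800192)) (.alt (nat_lit 25) (.cov (nat_lit 9437192)) .e))) .e))) .e)) .e)) .e)) (.alt (nat_lit 16) (.cov (nat_lit 3892263784613802934273)) (.alt (nat_lit 16) (.exp (.alt (nat_lit 20) (.exp (.alt (nat_lit 24) (.cov (nat_lit 404343406741268711079938)) (.alt (nat_lit 24) (.cov (nat_lit 26554088127090256773121)) (.alt (nat_lit 24) (.cov (nat_lit 406806047292812259491840)) (.alt (nat_lit 24) (.exp (.alt (nat_lit 28) (.cov (nat_lit 45448165720398181171203)) (.alt (nat_lit 28) (.cov (nat_lit 1355835707009869545473)) (.alt (nat_lit 28) (.cov (nat_lit 1355835722403032334336)) (.alt (nat_lit 28) (.exp (.alt (nat_lit 12) (.cov (nat_lit 45411272232250590101505)) (.alt (nat_lit 30) (.cov (nat_lit 719323151)) .e))) .e))))) .e))))) .e)) (.alt (nat_lit 2) (.exp (.alt (nat_lit 10) (.cov (nat_lit 25442671796649424060418)) (.alt (nat_lit 10) (.cov (nat_lit 46651815905348598890497)) (.alt (nat_lit 10) (.exp (.alt (nat_lit 14) (.cov (nat_lit 350146872652721547116547)) (.alt (nat_lit 8) (.exp (.alt (nat_lit 9) (.exp (.alt (nat_lit 12) (.cov (nat_lit 1614090115402046636033)) (.alt (nat_lit 12) (.exp (.alt (nat_lit 28) (.cov (nat_lit 216749253861224480768)) (.alt (nat_lit 4) (.cov (nat_lit 121634824)) .e))) .e))) .e)) (.alt (nat_lit 14) (.cov (nat_lit 1287651920)) .e)))) .e)))) .e)))))) .e))))))) .e)) (.alt (nat_lit 31) (.exp (.alt (nat_lit 30) (.cov (nat_lit 26761614211271169671179)) (.alt (nat_lit 30) (.cov (nat_lit 45443555872763742781442)) (.alt (nat_lit 30) (.cov (nat_lit 22832462359075418537985)) (.alt (nat_lit 30) (.exp (.alt (nat_lit 28) (.exp (.alt (nat_lit 12) (.exp (.alt (nat_lit 8) (.exp (.alt (nat_lit 9) (.exp (.alt (nat_lit 10) (.exp (.alt (nat_lit 24) (.cov (nat_lit 1586419999135174230017)) (.alt (nat_lit 20) (.cov (nat_lit 11492392975)) .e))) .e)) .e)) .e)) .e)) (.alt (nat_lit 14) (.cov (nat_lit 21568855928364475613187)) (.alt (nat_lit 28) (.exp (.alt (nat_lit 20) (.exp (.alt (nat_lit 24) (.exp (.alt (nat_lit 26) (.exp (.alt (nat_lit 27) (.exp (.alt (nat_lit 18) (.exp (.alt (nat_lit 8) (.cov (nat_lit 94539574372890312704)) (.alt (nat_lit 25) (.cov (nat_lit 9437192)) .e))) .e)) .e)) .e)) (.alt (nat_lit 12) (.cov (nat_lit 25327379758339366846465)) (.alt (nat_lit 12) (.exp (.alt (nat_lit 8) (.cov (nat_lit 404299595724094842077187)) (.alt (nat_lit 8) (.exp (.alt (nat_lit 9) (.exp (.alt (nat_lit 24) (.cov (nat_lit 365379271562779669037057)) (.alt (nat_lit 24) (.exp (.alt (nat_lit 26) (.cov (nat_lit 6387185146517059010560)) (.alt (nat_lit 25) (.cov (nat_lit 3551526920)) .e))) .e))) .e)) (.alt (nat_lit 14) (.cov (nat_lit 9808380095)) .e)))) .e)))) .e)) (.alt (nat_lit 22) (.cov (nat_lit 19547557012)) .e))))) .e))))) .e)))))))) .e)) .e)) .e)) (.alt (nat_lit 23) (.exp (.alt (nat_lit 21) (.exp (.alt (nat_lit 17) (.exp (.alt (nat_lit 31) (.cov (nat_lit 69176636083268485154)) (.alt (nat_lit 19) (.cov (nat_lit 4321153095787336433671)) (.alt (nat_lit 19) (.cov (nat_lit 800134589658957873155)) (.alt (nat_lit 19) (.exp (.alt (nat_lit 18) (.exp (.alt (nat_lit 27) (.cov (nat_lit 104687578696764509650955)) (.alt (nat_lit 27) (.exp (.alt (nat_lit 25) (.exp (.alt (nat_lit 29) (.exp (.alt (nat_lit 9) (.exp (.alt (nat_lit 26) (.cov (nat_lit 347813359527406428225539)) (.alt (nat_lit 26) (.exp (.alt (nat_lit 24) (.exp (.alt (nat_lit 30) (.cov (nat_lit 1581808313126480773121)) (.alt (nat_lit 10) (.cov (nat_lit 184429838351)) .e))) .e)) (.alt (nat_lit 31) (.cov (nat_lit 11607736511)) .e)))) .e)) .e)) .e)) (.alt (nat_lit 27) (.cov (nat_lit 3159009833042320556033)) (.alt (nat_lit 27) (.exp (.alt (nat_lit 25) (.exp (.alt (nat_lit 29) (.exp (.alt (nat_lit 28) (.exp (.alt (nat_lit 20) (.exp (.alt (nat_lit 12) (.exp (.alt (nat_lit 24) (.cov (nat_lit 18446752870433816577)) (.alt (nat_lit 9) (.cov (nat_lit 12054429711)) .e))) .e)) .e)) .e)) .e)) (.alt (nat_lit 31) (.cov (nat_lit 25525682532029700243459)) (.alt (nat_lit 31) (.exp (.alt (nat_lit 29) (.exp (.alt (nat_lit 30) (.cov (nat_lit 1581808337307247312898)) (.alt (nat_lit 30) (.cov (nat_lit 2942255822693803753473)) (.alt (nat_lit 30) (.exp (.alt (nat_lit 26) (.cov (nat_lit 347813359527385825804291)) (.alt (nat_lit 28) (.exp (.alt (nat_lit 20) (.exp (.alt (nat_lit 24) (.cov (nat_lit 1567973255217794777089)) (.alt (nat_lit 24) (.exp (.alt (nat_lit 8) (.cov (nat_lit 170632393676939067392)) (.alt (nat_lit 25) (.cov (nat_lit 9437192)) .e))) .e))) .e)) (.alt (nat_lit 26) (.cov (nat_lit 9957278288)) .e)))) .e)))) .e)) (.alt (nat_lit 31) (.cov (nat_lit 3587181714)) .e))))) .e))))) .e)) (.alt (nat_lit 19) (.cov (nat_lit 47599065179)) .e)))))) .e)) .e)) (.alt (nat_lit 23) (.cov (nat_lit 21543503888263377059840)) (.alt (nat_lit 23) (.exp (.alt (nat_lit 31) (.exp (.alt (nat_lit 29) (.exp (.alt (nat_lit 21) (.exp (.alt (nat_lit 17) (.exp (.alt (nat_lit 20) (.exp (.alt (nat_lit 25) (.exp (.alt (nat_lit 27) (.exp (.alt (nat_lit 9) (.exp (.alt (nat_lit 30) (.cov (nat_lit 1683265414318901952514)) (.alt (nat_lit 30) (.cov (nat_lit 347675008962226749964289)) (.alt (nat_lit 30) (.cov (nat_lit 3089829779680931086336)) (.alt (nat_lit 30) (.exp (.alt (nat_lit 28) (.cov (nat_lit 25290486133852605513731)) (.alt (nat_lit 28) (.cov (nat_lit 26692438692249953370113)) (.alt (nat_lit 28) (.cov (nat_lit 26692438707643082604544)) (.alt (nat_lit 28) (.exp (.alt (nat_lit 24) (.cov (nat_lit 1567973255061455241217)) (.alt (nat_lit 12) (.cov (nat_lit 184423546895)) .e))) .e))))) .e))))) .e)) .e)) .e)) .e)) .e)) .e)) (.alt (nat_lit 29) (.exp (.alt (nat_lit 21) (.exp (.alt (nat_lit 17) (.exp (.alt (nat_lit 20) (.exp (.alt (nat_lit 28) (.exp (.alt (nat_lit 30) (.exp (.alt (nat_lit 12) (.exp (.alt (nat_lit 27) (.cov (nat_lit 365379271571622134284290)) (.alt (nat_lit 27) (.cov (nat_lit 10134180058479553675265)) (.alt (nat_lit 27) (.cov (nat_lit 6444831358086852640768)) (.alt (nat_lit 27) (.exp (.alt (nat_lit 11) (.cov (nat_lit 365342378074788563255299)) (.alt (nat_lit 11) (.cov (nat_lit 43114652604026208649217)) (.alt (nat_lit 11) (.cov (nat_lit 43114652619263007784960)) (.alt (nat_lit 11) (.exp (.alt (nat_lit 10) (.cov (nat_lit 102065834968787407863809)) (.alt (nat_lit 9) (.cov (nat_lit 184423546895)) .e))) .e))))) .e))))) .e)) .e)) .e)) .e)) .e)) .e)) .e))) (.alt (nat_lit 21) (.exp (.alt (nat_lit 17) (.cov (nat_lit 1769650968345769563932845824540673)) (.alt (nat_lit 17) (.cov (nat_lit 350186075262621906370571)) .e))) (.alt (nat_lit 21) (.cov (nat_lit 1669438774282028056591)) (.alt (nat_lit 21) (.exp (.alt (nat_lit 17) (.exp (.alt (nat_lit 19) (.exp (.alt (nat_lit 18) (.exp (.alt (nat_lit 27) (.exp (.alt (nat_lit 29) (.exp (.alt (nat_lit 13) (.cov (nat_lit 894677370099579730237373403563556864)) (.alt (nat_lit 31) (.cov (nat_lit 102105034323989075329031)) .e))) (.alt (nat_lit 29) (.cov (nat_lit 1761664294381182517254)) (.alt (nat_lit 29) (.exp (.alt (nat_lit 28) (.exp (.alt (nat_lit 20) (.exp (.alt (nat_lit 30) (.exp (.alt (nat_lit 13) (.cov (nat_lit 29019034281970103222275)) (.alt (nat_lit 13) (.cov (nat_lit 47915417749209119457281)) (.alt (nat_lit 13) (.cov (nat_lit 47915417764445918593024)) (.alt (nat_lit 13) (.exp (.alt (nat_lit 9) (.cov (nat_lit 47906194370418833358849)) (.alt (nat_lit 9) (.exp (.alt (nat_lit 8) (.cov (nat_lit 170632393676954796032)) (.alt (nat_lit 11) (.cov (nat_lit 184996069384)) .e))) .e))) .e))))) .e)) .e)) .e)) (.alt (nat_lit 20) (.exp (.alt (nat_lit 22) (.exp (.alt (nat_lit 30) (.exp (.alt (nat_lit 28) (.cov (nat_lit 3892263017310455857155)) (.alt (nat_lit 28) (.exp (.alt (nat_lit 29) (.exp (.alt (nat_lit 12) (.cov (nat_lit 404297289872288953401345)) (.alt (nat_lit 12) (.exp (.alt (nat_lit 8) (.cov (nat_lit 41638913071376011100160)) (.alt (nat_lit 13) (.cov (nat_lit 4606394376)) .e))) .e))) .e)) (.alt (nat_lit 16) (.cov (nat_lit 10359931071)) .e)))) .e)) .e)) (.alt (nat_lit 20) (.cov (nat_lit 45443558898619037777920)) (.alt (nat_lit 20) (.exp (.alt (nat_lit 28) (.cov (nat_lit 45445859901579819220999)) (.alt (nat_lit 28) (.cov (nat_lit 347679620758361267503107)) (.alt (nat_lit 28) (.cov (nat_lit 47915418516668256616449)) (.alt (nat_lit 28) (.exp (.alt (nat_lit 29) (.exp (.alt (nat_lit 12) (.cov (nat_lit 102065834977447785791490)) (.alt (nat_lit 30) (.cov (nat_lit 404338795070643486326785)) (.alt (nat_lit 30) (.cov (nat_lit 25562575745278569086976)) (.alt (nat_lit 30) (.exp (.alt (nat_lit 14) (.cov (nat_lit 396605006399783567363)) (.alt (nat_lit 14) (.cov (nat_lit 350146872652866414182401)) (.alt (nat_lit 14) (.cov (nat_lit 29021340146948913496064)) (.alt (nat_lit 14) (.exp (.alt (nat_lit 12) (.cov (nat_lit 404297289872288953401345)) (.alt (nat_lit 12) (.exp (.alt (nat_lit 8) (.cov (nat_lit 343868062132024092131328)) (.alt (nat_lit 13) (.cov (nat_lit 4606394376)) .e))) .e))) .e))))) .e))))) .e)) (.alt (nat_lit 22) (.cov (nat_lit 185017042395)) .e)))))) .e))))))) .e)) .e)) .e)) .e)) (.alt (nat_lit 21) (.exp (.alt (nat_lit 17) (.exp (.alt (nat_lit 19) (.exp (.alt (nat_lit 18) (.exp (.alt (nat_lit 29) (.cov (nat_lit 6624687112853079982091)) (.alt (nat_lit 29) (.cov (nat_lit 350190685499638606200834)) (.alt (nat_lit 20) (.cov (nat_lit 350183769419610920583169)) (.alt (nat_lit 20) (.cov (nat_lit 10028584964)) .e))))) .e)) .e)) .e)) (.alt (nat_lit 21) (.cov (nat_lit 48000747633867849990145)) (.alt (nat_lit 21) (.exp (.alt (nat_lit 17) (.exp (.alt (nat_lit 20) (.cov (nat_lit 104620709434058461937685)) (.alt (nat_lit 20) (.exp (.alt (nat_lit 16) (.exp (.alt (nat_lit 18) (.exp (.alt (nat_lit 24) (.exp (.alt (nat_lit 25) (.exp (.alt (nat_lit 9) (.exp (.alt (nat_lit 28) (.cov (nat_lit 350188377826922304897027)) (.alt (nat_lit 28) (.exp (.alt (nat_lit 29) (.exp (.alt (nat_lit 30) (.cov (nat_lit 1581808313116714336257)) (.alt (nat_lit 12) (.cov (nat_lit 20650655759)) .e))) .e)) (.alt (nat_lit 28) (.exp (.alt (nat_lit 30) (.cov (nat_lit 1581808313117424222210)) (.alt (nat_lit 29) (.cov (nat_lit 3488612419)) .e))) .e)))) .e)) .e)) .e)) .e)) (.alt (nat_lit 4) (.cov (nat_lit 42095471823541107687431)) .e))) (.alt (nat_lit 20) (.cov (nat_lit 6456365309875428786182)) (.alt (nat_lit 20) (.exp (.alt (nat_lit 22) (.exp (.alt (nat_lit 18) (.exp (.alt (nat_lit 30) (.exp (.alt (nat_lit 28) (.cov (nat_lit 29053621949125451841543)) (.alt (nat_lit 28) (.cov (nat_lit 10164156125397869658115)) (.alt (nat_lit 28) (.cov (nat_lit 10164156404627417333761)) (.alt (nat_lit 28) (.exp (.alt (nat_lit 29) (.exp (.alt (nat_lit 24) (.cov (nat_lit 387381643186519670786)) (.alt (nat_lit 12) (.cov (nat_lit 404297289896478209212417)) (.alt (nat_lit 12) (.cov (nat_lit 10127262637204036386816)) (.alt (nat_lit 12) (.cov (nat_lit 4605345983)) .e))))) .e)) (.alt (nat_lit 4) (.cov (nat_lit 159228364251)) .e)))))) .e)) .e)) .e)) (.alt (nat_lit 20) (.cov (nat_lit 22053091556115743768577)) (.alt (nat_lit 20) (.cov (nat_lit 21979307720025491636224)) (.alt (nat_lit 20) (.exp (.alt (nat_lit 16) (.exp (.alt (nat_lit 18) (.cov (nat_lit 230043090034204363109893201440276481)) (.alt (nat_lit 18) (.exp (.alt (nat_lit 26) (.cov (nat_lit 230043090034204326216407243288477696)) (.alt (nat_lit 22) (.cov (nat_lit 104611485782903602806791)) .e))) .e))) (.alt (nat_lit 16) (.cov (nat_lit 350174543171252381548559)) (.alt (nat_lit 16) (.exp (.alt (nat_lit 18) (.exp (.alt (nat_lit 26) (.exp (.alt (nat_lit 30) (.exp (.alt (nat_lit 27) (.exp (.alt (nat_lit 24) (.cov (nat_lit 18446761712330735618)) (.alt (nat_lit 24) (.cov (nat_lit 7664622195611709472769)) (.alt (nat_lit 24) (.cov (nat_lit 22784035020331143921664)) (.alt (nat_lit 24) (.exp (.alt (nat_lit 28) (.cov (nat_lit 1577196627263814107139)) (.alt (nat_lit 28) (.cov (nat_lit 175244086448820846593)) (.alt (nat_lit 28) (.cov (nat_lit 1355835722403031285760)) (.alt (nat_lit 28) (.exp (.alt (nat_lit 12) (.cov (nat_lit 18446753026179858433)) (.alt (nat_lit 29) (.cov (nat_lit 181403663)) .e))) .e))))) .e))))) .e)) .e)) .e)) .e)) (.alt (nat_lit 16) (.exp (.alt (nat_lit 18) (.exp (.alt (nat_lit 22) (.exp (.alt (nat_lit 30) (.exp (.alt (nat_lit 24) (.cov (nat_lit 404336489227680659537922)) (.alt (nat_lit 24) (.cov (nat_lit 343904955756510971953153)) (.alt (nat_lit 24) (.exp (.alt (nat_lit 28) (.cov (nat_lit 1355835707009935605763)) (.alt (nat_lit 25) (.exp (.alt (nat_lit 29) (.exp (.alt (nat_lit 9) (.cov (nat_lit 102072752497658696826881)) (.alt (nat_lit 27) (.cov (nat_lit 11534351)) .e))) .e)) (.alt (nat_lit 25) (.exp (.alt (nat_lit 9) (.cov (nat_lit 102072752497705102606338)) (.alt (nat_lit 29) (.cov (nat_lit 1422917699)) .e))) .e)))) .e)))) .e)) .e)) .e)) (.alt (nat_lit 22) (.cov (nat_lit 25599476153752169218049)) (.alt (nat_lit 22) (.exp (.alt (nat_lit 18) (.exp (.alt (nat_lit 30) (.cov (nat_lit 1581808337306140016651)) (.alt (nat_lit 30) (.cov (nat_lit 10168767811416313823238)) (.alt (nat_lit 30) (.cov (nat_lit 10168768090692267278338)) (.alt (nat_lit 30) (.cov (nat_lit 3131336653691760410625)) (.alt (nat_lit 30) (.cov (nat_lit 29058236900645883871232)) (.alt (nat_lit 30) (.exp (.alt (nat_lit 31) (.cov (nat_lit 343909567328227737731079)) (.alt (nat_lit 31) (.cov (nat_lit 10171073654425528565763)) (.alt (nat_lit 28) (.cov (nat_lit 10164156404627417333761)) (.alt (nat_lit 28) (.exp (.alt (nat_lit 29) (.exp (.alt (nat_lit 24) (.cov (nat_lit 387381643186519670786)) (.alt (nat_lit 12) (.cov (nat_lit 404297289896478209212417)) (.alt (nat_lit 12) (.cov (nat_lit 10127262637204036386816)) (.alt (nat_lit 12) (.cov (nat_lit 4605345983)) .e))))) .e)) (.alt (nat_lit 31) (.cov (nat_lit 159246190043)) .e)))))) .e))))))) .e)) (.alt (nat_lit 4) (.exp (.alt (nat_lit 12) (.cov (nat_lit 406925951039289477300235)) (.alt (nat_lit 12) (.exp (.alt (nat_lit 28) (.exp (.alt (nat_lit 29) (.exp (.alt (nat_lit 24) (.exp (.alt (nat_lit 8) (.cov (nat_lit 384305630991220636385283)) (.alt (nat_lit 8) (.exp (.alt (nat_lit 9) (.exp (.alt (nat_lit 10) (.cov (nat_lit 6405631888548113154049)) (.alt (nat_lit 10) (.exp (.alt (nat_lit 26) (.cov (nat_lit 1390423345550992605184)) (.alt (nat_lit 14) (.cov (nat_lit 9963569160)) .e))) .e))) .e)) (.alt (nat_lit 8) (.cov (nat_lit 2896167504)) .e)))) .e)) .e)) .e)) (.alt (nat_lit 12) (.cov (nat_lit 102111956704206250835969)) (.alt (nat_lit 12) (.exp (.alt (nat_lit 28) (.exp (.alt (nat_lit 29) (.exp (.alt (nat_lit 25) (.exp (.alt (nat_lit 9) (.exp (.alt (nat_lit 24) (.exp (.alt (nat_lit 30) (.cov (nat_lit 365379271562780245753857)) (.alt (nat_lit 30) (.exp (.alt (nat_lit 26) (.cov (nat_lit 102070446656848511631360)) (.alt (nat_lit 31) (.cov (nat_lit 3551526920)) .e))) .e))) .e)) .e)) .e)) .e)) (.alt (nat_lit 14) (.cov (nat_lit 21568855928198400049155)) (.alt (nat_lit 14) (.exp (.alt (nat_lit 30) (.exp (.alt (nat_lit 10) (.cov (nat_lit 26514888795945118466050)) (.alt (nat_lit 10) (.cov (nat_lit 404304207537811784466433)) (.alt (nat_lit 10) (.exp (.alt (nat_lit 11) (.cov (nat_lit 652553589220306845699)) (.alt (nat_lit 26) (.exp (.alt (nat_lit 18) (.exp (.alt (nat_lit 27) (.cov (nat_lit 102105034299787740971009)) (.alt (nat_lit 27) (.exp (.alt (nat_lit 25) (.cov (nat_lit 22781728942026442932224)) (.alt (nat_lit 31) (.cov (nat_lit 159246188552)) .e))) .e))) .e)) (.alt (nat_lit 11) (.cov (nat_lit 47608496720)) .e)))) .e)))) .e)) (.alt (nat_lit 13) (.cov (nat_lit 159279746195)) .e))))) .e))))) .e)))))))) .e)))))))) .e)) (.alt (nat_lit 21) (.exp (.alt (nat_lit 17) (.cov (nat_lit 486534722281725231123)) (.alt (nat_lit 17) (.cov (nat_lit 25426535746650715979787)) (.alt (nat_lit 17) (.cov (nat_lit 795524854174793596930)) (.alt (nat_lit 17) (.cov (nat_lit 6624699121672120172545)) (.alt (nat_lit 17) (.exp (.alt (nat_lit 16) (.cov (nat_lit 22030025412008640249890)) (.alt (nat_lit 19) (.cov (nat_lit 4321153095787336433671)) (.alt (nat_lit 19) (.cov (nat_lit 800134589658957873155)) (.alt (nat_lit 19) (.exp (.alt (nat_lit 18) (.exp (.alt (nat_lit 27) (.cov (nat_lit 104687578696764509650955)) (.alt (nat_lit 27) (.exp (.alt (nat_lit 25) (.exp (.alt (nat_lit 29) (.exp (.alt (nat_lit 9) (.exp (.alt (nat_lit 26) (.cov (nat_lit 347813359527406428225539)) (.alt (nat_lit 26) (.exp (.alt (nat_lit 24) (.exp (.alt (nat_lit 30) (.cov (nat_lit 1581808313126480773121)) (.alt (nat_lit 10) (.cov (nat_lit 184429838351)) .e))) .e)) (.alt (nat_lit 31) (.cov (nat_lit 11607736511)) .e)))) .e)) .e)) .e)) (.alt (nat_lit 27) (.cov (nat_lit 3159009833042320556033)) (.alt (nat_lit 27) (.exp (.alt (nat_lit 25) (.exp (.alt (nat_lit 29) (.exp (.alt (nat_lit 28) (.exp (.alt (nat_lit 20) (.exp (.alt (nat_lit 12) (.exp (.alt (nat_lit 24) (.cov (nat_lit 18446752870433816577)) (.alt (nat_lit 9) (.cov (nat_lit 12054429711)) .e))) .e)) .e)) .e)) .e)) (.alt (nat_lit 31) (.cov (nat_lit 25525682532029700243459)) (.alt (nat_lit 31) (.exp (.alt (nat_lit 29) (.exp (.alt (nat_lit 30) (.cov (nat_lit 1581808337307247312898)) (.alt (nat_lit 30) (.cov (nat_lit 2942255822693803753473)) (.alt (nat_lit 30) (.exp (.alt (nat_lit 26) (.cov (nat_lit 347813359527385825804291)) (.alt (nat_lit 28) (.exp (.alt (nat_lit 20) (.exp (.alt (nat_lit 24) (.cov (nat_lit 1567973255217794777089)) (.alt (nat_lit 24) (.exp (.alt (nat_lit 8) (.cov (nat_lit 170632393676939067392)) (.alt (nat_lit 25) (.cov (nat_lit 9437192)) .e))) .e))) .e)) (.alt (nat_lit 26) (.cov (nat_lit 9957278288)) .e)))) .e)))) .e)) (.alt (nat_lit 31) (.cov (nat_lit 3587181714)) .e))))) .e))))) .e)) (.alt (nat_lit 19) (.cov (nat_lit 47599065179)) .e)))))) .e)))))) .e))))))))) .e)))))))))) .e)) (.alt (nat_lit 7) (.exp (.alt (nat_lit 6) (.cov (nat_lit 406893674002295579214041)) (.alt (nat_lit 6) (.cov (nat_lit 406819891133766418038802)) (.alt (nat_lit 6) (.cov (nat_lit 3029885364508991422475)) (.alt (nat_lit 23) (.exp (.alt (nat_lit 21) (.exp (.alt (nat_lit 17) (.exp (.alt (nat_lit 29) (.exp (.alt (nat_lit 31) (.cov (nat_lit 726340967935382650914)) (.alt (nat_lit 31) (.exp (.alt (nat_lit 27) (.exp (.alt (nat_lit 25) (.exp (.alt (nat_lit 9) (.exp (.alt (nat_lit 24) (.exp (.alt (nat_lit 30) (.cov (nat_lit 46684097597691953938434)) (.alt (nat_lit 30) (.cov (nat_lit 5215817034185727541249)) (.alt (nat_lit 30) (.exp (.alt (nat_lit 28) (.cov (nat_lit 25410389979127819010051)) (.alt (nat_lit 22) (.exp (.alt (nat_lit 20) (.exp (.alt (nat_lit 6) (.cov (nat_lit 365323931330568249147393)) (.alt (nat_lit 18) (.cov (nat_lit 9867100175)) .e))) .e)) (.alt (nat_lit 22) (.exp (.alt (nat_lit 6) (.cov (nat_lit 365323931330724612800514)) (.alt (nat_lit 20) (.cov (nat_lit 185023332419)) .e))) .e)))) .e)))) .e)) .e)) .e)) .e)) (.alt (nat_lit 31) (.cov (nat_lit 2718592503267173859331)) (.alt (nat_lit 19) (.exp (.alt (nat_lit 27) (.exp (.alt (nat_lit 18) (.cov (nat_lit 225972762238261395467)) (.alt (nat_lit 18) (.exp (.alt (nat_lit 22) (.exp (.alt (nat_lit 6) (.exp (.alt (nat_lit 20) (.exp (.alt (nat_lit 26) (.cov (nat_lit 96845423979897290755)) (.alt (nat_lit 26) (.exp (.alt (nat_lit 30) (.exp (.alt (nat_lit 24) (.cov (nat_lit 1567973255217794777089)) (.alt (nat_lit 24) (.exp (.alt (nat_lit 8) (.cov (nat_lit 1577196629297292378112)) (.alt (nat_lit 25) (.cov (nat_lit 9437192)) .e))) .e))) .e)) (.alt (nat_lit 2) (.cov (nat_lit 184996069567)) .e)))) .e)) .e)) .e)) (.alt (nat_lit 18) (.cov (nat_lit 5095917954184180137985)) (.alt (nat_lit 18) (.exp (.alt (nat_lit 2) (.cov (nat_lit 26650933641242560430087)) (.alt (nat_lit 2) (.cov (nat_lit 406810659163732462010371)) (.alt (nat_lit 2) (.exp (.alt (nat_lit 6) (.exp (.alt (nat_lit 10) (.cov (nat_lit 25442671796649424060418)) (.alt (nat_lit 10) (.cov (nat_lit 46651815905348598890497)) (.alt (nat_lit 10) (.exp (.alt (nat_lit 14) (.cov (nat_lit 350146872652721547116547)) (.alt (nat_lit 8) (.exp (.alt (nat_lit 9) (.exp (.alt (nat_lit 12) (.cov (nat_lit 1614090115402046636033)) (.alt (nat_lit 12) (.exp (.alt (nat_lit 28) (.cov (nat_lit 216749253861224480768)) (.alt (nat_lit 4) (.cov (nat_lit 121634824)) .e))) .e))) .e)) (.alt (nat_lit 14) (.cov (nat_lit 1287651920)) .e)))) .e)))) .e)) (.alt (nat_lit 2) (.cov (nat_lit 46512737425)) .e))))) .e))))) .e)) (.alt (nat_lit 31) (.cov (nat_lit 185013901410)) .e)))))) .e)) .e)) .e)) (.alt (nat_lit 23) (.cov (nat_lit 406859097704107638521857)) (.alt (nat_lit 6) (.exp (.alt (nat_lit 4) (.cov (nat_lit 47915421027796609138726)) (.alt (nat_lit 4) (.cov (nat_lit 45406667602897835917346)) (.alt (nat_lit 4) (.cov (nat_lit 46127839908005412871)) (.alt (nat_lit 4) (.cov (nat_lit 46130579890545623043)) (.alt (nat_lit 4) (.exp (.alt (nat_lit 12) (.exp (.alt (nat_lit 20) (.cov (nat_lit 22053084387345833132052)) (.alt (nat_lit 20) (.cov (nat_lit 22053085836455819870219)) (.alt (nat_lit 20) (.exp (.alt (nat_lit 21) (.exp (.alt (nat_lit 17) (.exp (.alt (nat_lit 23) (.exp (.alt (nat_lit 16) (.exp (.alt (nat_lit 18) (.exp (.alt (nat_lit 26) (.exp (.alt (nat_lit 10) (.exp (.alt (nat_lit 30) (.exp (.alt (nat_lit 24) (.cov (nat_lit 1607172586218046095361)) (.alt (nat_lit 24) (.exp (.alt (nat_lit 25) (.cov (nat_lit 3013736824037423710208)) (.alt (nat_lit 8) (.cov (nat_lit 1754267656)) .e))) .e))) .e)) .e)) .e)) .e)) (.alt (nat_lit 16) (.cov (nat_lit 10164156404628698693635)) (.alt (nat_lit 16) (.exp (.alt (nat_lit 18) (.exp (.alt (nat_lit 24) (.cov (nat_lit 64563637243340652546)) (.alt (nat_lit 24) (.cov (nat_lit 25594857549606569377793)) (.alt (nat_lit 24) (.exp (.alt (nat_lit 8) (.cov (nat_lit 22749447146660024025091)) (.alt (nat_lit 25) (.exp (.alt (nat_lit 9) (.exp (.alt (nat_lit 27) (.cov (nat_lit 45438942348361212100609)) (.alt (nat_lit 29) (.cov (nat_lit 47579136015)) .e))) .e)) (.alt (nat_lit 25) (.exp (.alt (nat_lit 27) (.cov (nat_lit 71481142081729069058)) (.alt (nat_lit 9) (.cov (nat_lit 165535547459)) .e))) .e)))) .e)))) .e)) (.alt (nat_lit 16) (.exp (.alt (nat_lit 24) (.cov (nat_lit 102065835219320424103938)) (.alt (nat_lit 18) (.cov (nat_lit 362809512)) .e))) .e))))) .e)) .e)) .e)) (.alt (nat_lit 20) (.cov (nat_lit 138363600969534537729)) (.alt (nat_lit 20) (.exp (.alt (nat_lit 16) (.cov (nat_lit 344345372969739088822306)) (.alt (nat_lit 21) (.cov (nat_lit 22055391679465470820359)) (.alt (nat_lit 21) (.cov (nat_lit 345389925614353357209603)) (.alt (nat_lit 21) (.exp (.alt (nat_lit 17) (.exp (.alt (nat_lit 23) (.cov (nat_lit 365363130800253611016203)) (.alt (nat_lit 23) (.cov (nat_lit 344333844256069698715650)) (.alt (nat_lit 23) (.cov (nat_lit 22060003365483290034177)) (.alt (nat_lit 23) (.exp (.alt (nat_lit 19) (.exp (.alt (nat_lit 18) (.exp (.alt (nat_lit 26) (.exp (.alt (nat_lit 10) (.exp (.alt (nat_lit 30) (.exp (.alt (nat_lit 27) (.cov (nat_lit 426580965500671492097)) (.alt (nat_lit 27) (.exp (.alt (nat_lit 25) (.cov (nat_lit 21896285226488363483136)) (.alt (nat_lit 11) (.cov (nat_lit 10344202248)) .e))) .e))) .e)) .e)) .e)) .e)) (.alt (nat_lit 19) (.cov (nat_lit 29060539865134920630275)) (.alt (nat_lit 19) (.exp (.alt (nat_lit 18) (.exp (.alt (nat_lit 27) (.cov (nat_lit 71481166270984880130)) (.alt (nat_lit 27) (.cov (nat_lit 6712309147155666305025)) (.alt (nat_lit 27) (.exp (.alt (nat_lit 11) (.cov (nat_lit 3859981215181443170307)) (.alt (nat_lit 25) (.exp (.alt (nat_lit 9) (.exp (.alt (nat_lit 24) (.cov (nat_lit 45438942348361175400449)) (.alt (nat_lit 29) (.cov (nat_lit 185014943759)) .e))) .e)) (.alt (nat_lit 25) (.exp (.alt (nat_lit 24) (.cov (nat_lit 64563613054084841474)) (.alt (nat_lit 9) (.cov (nat_lit 28093448259)) .e))) .e)))) .e)))) .e)) (.alt (nat_lit 19) (.exp (.alt (nat_lit 27) (.cov (nat_lit 404304207652004821991426)) (.alt (nat_lit 18) (.cov (nat_lit 362809512)) .e))) .e))))) .e))))) .e)) (.alt (nat_lit 21) (.cov (nat_lit 185604523)) .e)))))) .e)))))) .e)) (.alt (nat_lit 4) (.cov (nat_lit 281026079)) .e))))))) .e))))))) .e))))))))))) .e))))))))))) .e)) (.alt (nat_lit 1) (.exp (.alt (nat_lit 3) (.cov (nat_lit 10134189043698575081699)) (.alt (nat_lit 3) (.cov (nat_lit 4323461326760802517209)) (.alt (nat_lit 3) (.exp (.alt (nat_lit 2) (.exp (.alt (nat_lit 6) (.exp (.alt (nat_lit 10) (.exp (.alt (nat_lit 14) (.exp (.alt (nat_lit 12) (.exp (.alt (nat_lit 30) (.exp (.alt (nat_lit 19) (.exp (.alt (nat_lit 17) (.cov (nat_lit 770219436959109708090156119301816321)) (.alt (nat_lit 17) (.exp (.alt (nat_lit 16) (.cov (nat_lit 770219436959109705784315309079920640)) (.alt (nat_lit 16) (.cov (nat_lit 8916696218455739727879)) .e))) .e))) (.alt (nat_lit 7) (.cov (nat_lit 24066088366805884076039)) (.alt (nat_lit 7) (.cov (nat_lit 345187011400955249819651)) (.alt (nat_lit 7) (.exp (.alt (nat_lit 5) (.exp (.alt (nat_lit 23) (.cov (nat_lit 406932868568170595614731)) (.alt (nat_lit 23) (.exp (.alt (nat_lit 19) (.exp (.alt (nat_lit 17) (.exp (.alt (nat_lit 18) (.exp (.alt (nat_lit 31) (.cov (nat_lit 6560123378824098349059)) (.alt (nat_lit 21) (.exp (.alt (nat_lit 20) (.exp (.alt (nat_lit 29) (.cov (nat_lit 57646084027052982273)) (.alt (nat_lit 29) (.exp (.alt (nat_lit 25) (.cov (nat_lit 62257772243895451648)) (.alt (nat_lit 13) (.cov (nat_lit 156373090312)) .e))) .e))) .e)) (.alt (nat_lit 31) (.cov (nat_lit 47006614096)) .e)))) .e)) .e)) .e)) (.alt (nat_lit 23) (.cov (nat_lit 6615464097020197732353)) (.alt (nat_lit 23) (.exp (.alt (nat_lit 19) (.exp (.alt (nat_lit 17) (.exp (.alt (nat_lit 21) (.exp (.alt (nat_lit 29) (.exp (.alt (nat_lit 20) (.exp (.alt (nat_lit 27) (.cov (nat_lit 102105034299797466513409)) (.alt (nat_lit 18) (.cov (nat_lit 4624220175)) .e))) .e)) .e)) .e)) .e)) (.alt (nat_lit 31) (.cov (nat_lit 350259859362592559464451)) (.alt (nat_lit 31) (.exp (.alt (nat_lit 27) (.exp (.alt (nat_lit 29) (.cov (nat_lit 21757934668091919171586)) (.alt (nat_lit 29) (.cov (nat_lit 102326395362822401818625)) (.alt (nat_lit 29) (.exp (.alt (nat_lit 21) (.cov (nat_lit 23134522937829358567427)) (.alt (nat_lit 25) (.exp (.alt (nat_lit 9) (.exp (.alt (nat_lit 17) (.cov (nat_lit 2840798596147383894017)) (.alt (nat_lit 17) (.exp (.alt (nat_lit 16) (.cov (nat_lit 1595643373371017658368)) (.alt (nat_lit 19) (.cov (nat_lit 11561598984)) .e))) .e))) .e)) (.alt (nat_lit 21) (.cov (nat_lit 19110298192)) .e)))) .e)))) .e)) (.alt (nat_lit 31) (.cov (nat_lit 11537484946)) .e))))) .e))))) .e)) (.alt (nat_lit 7) (.cov (nat_lit 47585433701)) .e)))))) .e)) .e)) .e)) .e)) .e)) .e)) (.alt (nat_lit 3) (.cov (nat_lit 486549130124005998603)) (.alt (nat_lit 3) (.exp (.alt (nat_lit 2) (.exp (.alt (nat_lit 6) (.exp (.alt (nat_lit 10) (.exp (.alt (nat_lit 7) (.cov (nat_lit 344227776926803460882470)) (.alt (nat_lit 7) (.cov (nat_lit 41848751844082075041826)) (.alt (nat_lit 7) (.cov (nat_lit 53045368935672709127)) (.alt (nat_lit 7) (.cov (nat_lit 1381213682235467628547)) (.alt (nat_lit 7) (.exp (.alt (nat_lit 5) (.exp (.alt (nat_lit 23) (.cov (nat_lit 25601776778663147077652)) (.alt (nat_lit 23) (.cov (nat_lit 1989945813288005664779)) (.alt (nat_lit 23) (.exp (.alt (nat_lit 19) (.exp (.alt (nat_lit 17) (.exp (.alt (nat_lit 18) (.exp (.alt (nat_lit 21) (.exp (.alt (nat_lit 20) (.exp (.alt (nat_lit 28) (.exp (.alt (nat_lit 12) (.exp (.alt (nat_lit 30) (.exp (.alt (nat_lit 29) (.cov (nat_lit 57646084027052982273)) (.alt (nat_lit 29) (.exp (.alt (nat_lit 25) (.cov (nat_lit 1826227674292371324928)) (.alt (nat_lit 13) (.cov (nat_lit 156373090312)) .e))) .e))) .e)) .e)) .e)) .e)) (.alt (nat_lit 21) (.cov (nat_lit 350186072386299425193987)) (.alt (nat_lit 21) (.exp (.alt (nat_lit 20) (.exp (.alt (nat_lit 29) (.cov (nat_lit 440416047745345781762)) (.alt (nat_lit 29) (.cov (nat_lit 809351043569182310401)) (.alt (nat_lit 29) (.exp (.alt (nat_lit 13) (.cov (nat_lit 3864592901053271244803)) (.alt (nat_lit 25) (.exp (.alt (nat_lit 9) (.exp (.alt (nat_lit 24) (.cov (nat_lit 404343406732472636932097)) (.alt (nat_lit 27) (.cov (nat_lit 185012846607)) .e))) .e)) (.alt (nat_lit 25) (.exp (.alt (nat_lit 24) (.cov (nat_lit 428886808510016258050)) (.alt (nat_lit 9) (.cov (nat_lit 1753219139)) .e))) .e)))) .e)))) .e)) (.alt (nat_lit 21) (.exp (.alt (nat_lit 29) (.cov (nat_lit 45408966639930045366274)) (.alt (nat_lit 20) (.cov (nat_lit 3049261224)) .e))) .e))))) .e)) .e)) .e)) (.alt (nat_lit 23) (.cov (nat_lit 440429035177137668097)) (.alt (nat_lit 23) (.exp (.alt (nat_lit 21) (.cov (nat_lit 365607551357698025979938)) (.alt (nat_lit 19) (.cov (nat_lit 1980722441250475606023)) (.alt (nat_lit 19) (.cov (nat_lit 24264393093198949384195)) (.alt (nat_lit 19) (.exp (.alt (nat_lit 17) (.exp (.alt (nat_lit 18) (.cov (nat_lit 4095177331698273615883)) (.alt (nat_lit 18) (.cov (nat_lit 365577575899955623624706)) (.alt (nat_lit 18) (.cov (nat_lit 1978416598241830240257)) (.alt (nat_lit 18) (.exp (.alt (nat_lit 16) (.exp (.alt (nat_lit 20) (.exp (.alt (nat_lit 28) (.exp (.alt (nat_lit 12) (.exp (.alt (nat_lit 30) (.exp (.alt (nat_lit 24) (.cov (nat_lit 1607172586218046095361)) (.alt (nat_lit 24) (.exp (.alt (nat_lit 25) (.cov (nat_lit 25449589303686665863168)) (.alt (nat_lit 8) (.cov (nat_lit 1754267656)) .e))) .e))) .e)) .e)) .e)) .e)) (.alt (nat_lit 16) (.cov (nat_lit 104611486062031805612035)) (.alt (nat_lit 16) (.exp (.alt (nat_lit 20) (.exp (.alt (nat_lit 24) (.cov (nat_lit 428886832699272069122)) (.alt (nat_lit 24) (.cov (nat_lit 3159005069957327224833)) (.alt (nat_lit 24) (.exp (.alt (nat_lit 8) (.cov (nat_lit 343874979667667726630915)) (.alt (nat_lit 25) (.exp (.alt (nat_lit 9) (.exp (.alt (nat_lit 29) (.cov (nat_lit 404343406732473246154753)) (.alt (nat_lit 27) (.cov (nat_lit 4629463055)) .e))) .e)) (.alt (nat_lit 25) (.exp (.alt (nat_lit 29) (.cov (nat_lit 440416023556089970690)) (.alt (nat_lit 9) (.cov (nat_lit 18938331203)) .e))) .e)))) .e)))) .e)) (.alt (nat_lit 16) (.exp (.alt (nat_lit 24) (.cov (nat_lit 7618505561927519830018)) (.alt (nat_lit 20) (.cov (nat_lit 3049261224)) .e))) .e))))) .e))))) .e)) (.alt (nat_lit 19) (.cov (nat_lit 84941227)) .e)))))) .e)))))) .e)) (.alt (nat_lit 7) (.cov (nat_lit 173022751)) .e))))))) .e)) .e)) .e)) (.alt (nat_lit 3) (.cov (nat_lit 78415720136666251265)) (.alt (nat_lit 3) (.exp (.alt (nat_lit 2) (.cov (nat_lit 13844757946881278459)) (.alt (nat_lit 2) (.exp (.alt (nat_lit 6) (.exp (.alt (nat_lit 7) (.exp (.alt (nat_lit 5) (.exp (.alt (nat_lit 23) (.exp (.alt (nat_lit 4) (.exp (.alt (nat_lit 12) (.exp (.alt (nat_lit 20) (.exp (.alt (nat_lit 10) (.cov (nat_lit 42962467200557415137291)) (.alt (nat_lit 10) (.exp (.alt (nat_lit 11) (.exp (.alt (nat_lit 9) (.exp (.alt (nat_lit 27) (.exp (.alt (nat_lit 26) (.cov (nat_lit 6548594163769476644867)) (.alt (nat_lit 26) (.exp (.alt (nat_lit 18) (.exp (.alt (nat_lit 24) (.cov (nat_lit 64563613063867006977)) (.alt (nat_lit 30) (.cov (nat_lit 2982150159)) .e))) .e)) (.alt (nat_lit 26) (.exp (.alt (nat_lit 24) (.cov (nat_lit 64563613054093230082)) (.alt (nat_lit 18) (.cov (nat_lit 10385096771)) .e))) .e)))) .e)) .e)) .e)) (.alt (nat_lit 10) (.cov (nat_lit 59956791275098734593)) (.alt (nat_lit 10) (.exp (.alt (nat_lit 11) (.exp (.alt (nat_lit 9) (.exp (.alt (nat_lit 25) (.exp (.alt (nat_lit 17) (.exp (.alt (nat_lit 29) (.exp (.alt (nat_lit 27) (.cov (nat_lit 1609478429227271323649)) (.alt (nat_lit 27) (.exp (.alt (nat_lit 26) (.cov (nat_lit 22869350976376558059520)) (.alt (nat_lit 19) (.cov (nat_lit 119537672)) .e))) .e))) .e)) .e)) .e)) .e)) (.alt (nat_lit 11) (.cov (nat_lit 652553991641562611715)) (.alt (nat_lit 11) (.exp (.alt (nat_lit 9) (.exp (.alt (nat_lit 27) (.cov (nat_lit 1609478453416527134722)) (.alt (nat_lit 27) (.cov (nat_lit 1385811883842710011905)) (.alt (nat_lit 27) (.exp (.alt (nat_lit 19) (.cov (nat_lit 1441151898361131958275)) (.alt (nat_lit 26) (.exp (.alt (nat_lit 18) (.exp (.alt (nat_lit 24) (.cov (nat_lit 64563613063867006977)) (.alt (nat_lit 30) (.cov (nat_lit 2982150159)) .e))) .e)) (.alt (nat_lit 26) (.exp (.alt (nat_lit 24) (.cov (nat_lit 64563613054093230082)) (.alt (nat_lit 18) (.cov (nat_lit 10385096771)) .e))) .e)))) .e)))) .e)) (.alt (nat_lit 14) (.cov (nat_lit 9997126803)) .e))))) .e))))) .e)) .e)) .e)) .e)) .e)) .e)) (.alt (nat_lit 6) (.cov (nat_lit 41516153890318319635)) .e))) (.alt (nat_lit 2) (.cov (nat_lit 41860285173498300596258)) (.alt (nat_lit 2) (.exp (.alt (nat_lit 6) (.exp (.alt (nat_lit 7) (.exp (.alt (nat_lit 5) (.exp (.alt (nat_lit 23) (.exp (.alt (nat_lit 10) (.cov (nat_lit 404311126768727288184851)) (.alt (nat_lit 10) (.cov (nat_lit 18454634172063416331)) (.alt (nat_lit 10) (.cov (nat_lit 133747910529918173186)) (.alt (nat_lit 10) (.cov (nat_lit 29132032734606374469633)) (.alt (nat_lit 10) (.exp (.alt (nat_lit 8) (.cov (nat_lit 470393275701654454306)) (.alt (nat_lit 11) (.cov (nat_lit 1496495409318528548871)) (.alt (nat_lit 11) (.cov (nat_lit 62264826710667034627)) (.alt (nat_lit 11) (.exp (.alt (nat_lit 9) (.exp (.alt (nat_lit 27) (.cov (nat_lit 25590245861389130268683)) (.alt (nat_lit 27) (.exp (.alt (nat_lit 26) (.exp (.alt (nat_lit 18) (.exp (.alt (nat_lit 24) (.exp (.alt (nat_lit 25) (.cov (nat_lit 10175685217252403052547)) (.alt (nat_lit 25) (.exp (.alt (nat_lit 17) (.exp (.alt (nat_lit 29) (.cov (nat_lit 365383883248798069161985)) (.alt (nat_lit 29) (.exp (.alt (nat_lit 28) (.cov (nat_lit 25281262764014069350400)) (.alt (nat_lit 31) (.cov (nat_lit 12144607240)) .e))) .e))) .e)) (.alt (nat_lit 25) (.cov (nat_lit 10465837648)) .e)))) .e)) .e)) .e)) (.alt (nat_lit 27) (.cov (nat_lit 502678660039255785473)) (.alt (nat_lit 27) (.exp (.alt (nat_lit 26) (.exp (.alt (nat_lit 18) (.exp (.alt (nat_lit 16) (.exp (.alt (nat_lit 17) (.exp (.alt (nat_lit 24) (.exp (.alt (nat_lit 30) (.cov (nat_lit 102111951828815372615681)) (.alt (nat_lit 30) (.exp (.alt (nat_lit 28) (.cov (nat_lit 21538879560060244066304)) (.alt (nat_lit 22) (.cov (nat_lit 10523508744)) .e))) .e))) .e)) .e)) .e)) .e)) (.alt (nat_lit 31) (.cov (nat_lit 104696802253362522226691)) (.alt (nat_lit 31) (.exp (.alt (nat_lit 30) (.exp (.alt (nat_lit 29) (.cov (nat_lit 417357617673692774402)) (.alt (nat_lit 29) (.cov (nat_lit 417357729803227103233)) (.alt (nat_lit 29) (.exp (.alt (nat_lit 21) (.cov (nat_lit 63281555562452854243331)) (.alt (nat_lit 28) (.exp (.alt (nat_lit 12) (.exp (.alt (nat_lit 20) (.cov (nat_lit 6382573458300224929793)) (.alt (nat_lit 20) (.exp (.alt (nat_lit 16) (.cov (nat_lit 6401020204572349562880)) (.alt (nat_lit 22) (.cov (nat_lit 824180744)) .e))) .e))) .e)) (.alt (nat_lit 21) (.cov (nat_lit 1933574736)) .e)))) .e)))) .e)) (.alt (nat_lit 19) (.cov (nat_lit 185004461203)) .e))))) .e))))) .e)) (.alt (nat_lit 11) (.cov (nat_lit 11585722459)) .e)))))) .e)))))) .e)) .e)) .e)) .e)) (.alt (nat_lit 2) (.cov (nat_lit 6516329300706228961283)) (.alt (nat_lit 2) (.exp (.alt (nat_lit 6) (.exp (.alt (nat_lit 10) (.cov (nat_lit 461169718947385180377)) (.alt (nat_lit 10) (.cov (nat_lit 2600999934789421105170)) (.alt (nat_lit 10) (.cov (nat_lit 350151491971541100396555)) (.alt (nat_lit 18) (.exp (.alt (nat_lit 19) (.exp (.alt (nat_lit 17) (.exp (.alt (nat_lit 23) (.exp (.alt (nat_lit 16) (.cov (nat_lit 23141440860638463131682)) (.alt (nat_lit 16) (.exp (.alt (nat_lit 20) (.exp (.alt (nat_lit 4) (.exp (.alt (nat_lit 5) (.exp (.alt (nat_lit 12) (.exp (.alt (nat_lit 24) (.cov (nat_lit 428886832699104296962)) (.alt (nat_lit 24) (.cov (nat_lit 6700779927711514624001)) (.alt (nat_lit 24) (.exp (.alt (nat_lit 8) (.cov (nat_lit 3857675372027342487555)) (.alt (nat_lit 26) (.exp (.alt (nat_lit 10) (.exp (.alt (nat_lit 27) (.cov (nat_lit 71481142238107402241)) (.alt (nat_lit 30) (.cov (nat_lit 185018089487)) .e))) .e)) (.alt (nat_lit 26) (.exp (.alt (nat_lit 27) (.cov (nat_lit 71481142081729069058)) (.alt (nat_lit 10) (.cov (nat_lit 28096593987)) .e))) .e)))) .e)))) .e)) .e)) .e)) .e)) (.alt (nat_lit 16) (.cov (nat_lit 345369169515430128123907)) (.alt (nat_lit 22) (.exp (.alt (nat_lit 20) (.exp (.alt (nat_lit 30) (.cov (nat_lit 106068925758415306763)) (.alt (nat_lit 30) (.exp (.alt (nat_lit 26) (.exp (.alt (nat_lit 10) (.exp (.alt (nat_lit 27) (.exp (.alt (nat_lit 28) (.cov (nat_lit 6520924047648705478659)) (.alt (nat_lit 28) (.exp (.alt (nat_lit 24) (.exp (.alt (nat_lit 12) (.cov (nat_lit 45408966389241372213249)) (.alt (nat_lit 12) (.exp (.alt (nat_lit 13) (.cov (nat_lit 364011906660514917253120)) (.alt (nat_lit 4) (.cov (nat_lit 1850736648)) .e))) .e))) .e)) (.alt (nat_lit 14) (.cov (nat_lit 2998927551)) .e)))) .e)) .e)) .e)) (.alt (nat_lit 30) (.cov (nat_lit 364023440768387751346177)) (.alt (nat_lit 30) (.exp (.alt (nat_lit 14) (.cov (nat_lit 10131874323225995378695)) (.alt (nat_lit 14) (.cov (nat_lit 6594711426411022778371)) (.alt (nat_lit 14) (.exp (.alt (nat_lit 10) (.exp (.alt (nat_lit 12) (.cov (nat_lit 433498518718811996162)) (.alt (nat_lit 12) (.cov (nat_lit 21797134109034193879041)) (.alt (nat_lit 12) (.exp (.alt (nat_lit 8) (.cov (nat_lit 45547316987386400866307)) (.alt (nat_lit 13) (.exp (.alt (nat_lit 5) (.exp (.alt (nat_lit 9) (.cov (nat_lit 426580965657001590785)) (.alt (nat_lit 9) (.exp (.alt (nat_lit 25) (.cov (nat_lit 129127219511113547776)) (.alt (nat_lit 11) (.cov (nat_lit 61865992)) .e))) .e))) .e)) (.alt (nat_lit 8) (.cov (nat_lit 1351615056)) .e)))) .e)))) .e)) (.alt (nat_lit 14) (.cov (nat_lit 21787315352)) .e))))) .e))))) .e)) (.alt (nat_lit 16) (.cov (nat_lit 3007322210)) .e)))))) .e)) .e)) .e)) (.alt (nat_lit 18) (.cov (nat_lit 6603950635766970843137)) (.alt (nat_lit 10) (.exp (.alt (nat_lit 11) (.cov (nat_lit 21935487842996127268902)) (.alt (nat_lit 11) (.cov (nat_lit 2898451732444360998946)) (.alt (nat_lit 11) (.cov (nat_lit 62268740981826256903)) (.alt (nat_lit 11) (.cov (nat_lit 21534281582754063712259)) (.alt (nat_lit 11) (.exp (.alt (nat_lit 9) (.exp (.alt (nat_lit 27) (.cov (nat_lit 404571687028779844108308)) (.alt (nat_lit 27) (.cov (nat_lit 29143553089799240810507)) (.alt (nat_lit 27) (.exp (.alt (nat_lit 19) (.exp (.alt (nat_lit 17) (.exp (.alt (nat_lit 18) (.exp (.alt (nat_lit 25) (.exp (.alt (nat_lit 24) (.exp (.alt (nat_lit 28) (.exp (.alt (nat_lit 12) (.exp (.alt (nat_lit 30) (.exp (.alt (nat_lit 29) (.cov (nat_lit 48422711999358566401)) (.alt (nat_lit 29) (.exp (.alt (nat_lit 21) (.cov (nat_lit 119903847474233606144)) (.alt (nat_lit 13) (.cov (nat_lit 156368896008)) .e))) .e))) .e)) .e)) .e)) .e)) (.alt (nat_lit 25) (.cov (nat_lit 23162193447565727367171)) (.alt (nat_lit 25) (.exp (.alt (nat_lit 24) (.exp (.alt (nat_lit 29) (.cov (nat_lit 6417161127629958414338)) (.alt (nat_lit 29) (.cov (nat_lit 10254084009317633097729)) (.alt (nat_lit 29) (.exp (.alt (nat_lit 13) (.cov (nat_lit 43119264289907192889347)) (.alt (nat_lit 21) (.exp (.alt (nat_lit 5) (.exp (.alt (nat_lit 20) (.cov (nat_lit 404343406732472632737793)) (.alt (nat_lit 23) (.cov (nat_lit 12136218639)) .e))) .e)) (.alt (nat_lit 21) (.exp (.alt (nat_lit 20) (.cov (nat_lit 6396408516357769920514)) (.alt (nat_lit 5) (.cov (nat_lit 19599982659)) .e))) .e)))) .e)))) .e)) (.alt (nat_lit 25) (.exp (.alt (nat_lit 29) (.cov (nat_lit 365349295854348504399874)) (.alt (nat_lit 24) (.cov (nat_lit 46535805096)) .e))) .e))))) .e)) .e)) .e)) (.alt (nat_lit 27) (.cov (nat_lit 6417174115068196945921)) (.alt (nat_lit 27) (.exp (.alt (nat_lit 25) (.cov (nat_lit 45667222143280808460322)) (.alt (nat_lit 19) (.cov (nat_lit 29125106345714852560903)) (.alt (nat_lit 19) (.cov (nat_lit 1528781022353034313731)) (.alt (nat_lit 19) (.exp (.alt (nat_lit 17) (.exp (.alt (nat_lit 18) (.cov (nat_lit 46670262653822632460299)) (.alt (nat_lit 18) (.cov (nat_lit 45637246685539874111490)) (.alt (nat_lit 18) (.cov (nat_lit 29122800502714595803137)) (.alt (nat_lit 18) (.exp (.alt (nat_lit 16) (.exp (.alt (nat_lit 24) (.exp (.alt (nat_lit 28) (.exp (.alt (nat_lit 12) (.exp (.alt (nat_lit 30) (.exp (.alt (nat_lit 20) (.cov (nat_lit 25283568604824251400193)) (.alt (nat_lit 20) (.exp (.alt (nat_lit 21) (.cov (nat_lit 1690182936748759187456)) (.alt (nat_lit 4) (.cov (nat_lit 19601031176)) .e))) .e))) .e)) .e)) .e)) .e)) (.alt (nat_lit 16) (.cov (nat_lit 7793749791156457177091)) (.alt (nat_lit 16) (.exp (.alt (nat_lit 24) (.exp (.alt (nat_lit 20) (.cov (nat_lit 6396408540547025731586)) (.alt (nat_lit 20) (.cov (nat_lit 42109305181595041267713)) (.alt (nat_lit 20) (.exp (.alt (nat_lit 4) (.cov (nat_lit 343874979667667722436611)) (.alt (nat_lit 21) (.exp (.alt (nat_lit 5) (.exp (.alt (nat_lit 29) (.cov (nat_lit 404343406732482406514689)) (.alt (nat_lit 23) (.cov (nat_lit 4629463055)) .e))) .e)) (.alt (nat_lit 21) (.exp (.alt (nat_lit 29) (.cov (nat_lit 6417161103440702603266)) (.alt (nat_lit 5) (.cov (nat_lit 1221591107)) .e))) .e)))) .e)))) .e)) (.alt (nat_lit 16) (.exp (.alt (nat_lit 20) (.cov (nat_lit 103310990444306585616386)) (.alt (nat_lit 24) (.cov (nat_lit 46535805096)) .e))) .e))))) .e))))) .e)) (.alt (nat_lit 19) (.cov (nat_lit 1192237483)) .e)))))) .e)))))) .e)) (.alt (nat_lit 11) (.cov (nat_lit 2895126047)) .e))))))) .e))))))) .e)) (.alt (nat_lit 2) (.cov (nat_lit 18882662)) .e)))))))) .e)))))))) .e)))))))))))) .e))))))))))))) .e))])]) (by decide +kernel)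
  exact h _ List.mem_cons_self

theorem t31_13 : GF FULL [0, 31] [13, 11] := by
  have h := JT.chkW_ok (zs := [0, 31]) good (by decide) (by decide)
    (L := [([13, 11], [.cov (nat_lit 343918794398975305717852),
      .cov (nat_lit 343918796228562083911773),
      .cov (nat_lit 21543496798612983126109),
      .rot (.exp (.alt (nat_lit 31) (.cov (nat_lit 48353294655386992294244335676817419)) (.alt (nat_lit 31) (.cov (nat_lit 31847949675605083460559962118)) (.alt (nat_lit 31) (.cov (nat_lit 100276264710795563096718659508240386)) (.alt (nat_lit 31) (.cov (nat_lit 31852778876406689202223185921)) (.alt (nat_lit 31) (.cov (nat_lit 33042360554741932993278902272)) (.alt (nat_lit 31) (.exp (.alt (nat_lit 15) (.cov (nat_lit 894697684114974688287210129436180487)) (.alt (nat_lit 15) (.cov (nat_lit 894697684100468906617449667869278211)) (.alt (nat_lit 15) (.cov (nat_lit 224891389349474814371451130405191681)) (.alt (nat_lit 15) (.exp (.alt (nat_lit 7) (.exp (.alt (nat_lit 11) (.cov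 (nat_lit 22391811881124011017262410677354498)) (.alt (nat_lit 11) (.cov (nat_lit 34807392260602188636168912897)) (.alt (nat_lit 11) (.cov (nat_lit 63930186734997422024424789103345664)) (.alt (nat_lit 11) (.cov (nat_lit 10182617112499083804765)) .e))))) .e)) (.alt (nat_lit 15) (.cov (nat_lit 14487165221208571)) .e)))))) .e))))))),
      .cov (nat_lit 343918794398975305717852),
      .cov (nat_lit 343918796228562083911773),
      .cov (nat_lit 21543496798612983126109),
      .cov (nat_lit 343918796233115890094270),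
      .cov (nat_lit 343918794398975305717852),
      .cov (nat_lit 343918796228562083911773),
      .cov (nat_lit 21543496798612983126109),
      .cov (nat_lit 343918796233115890094271),
      .cov (nat_lit 343918794398975305717852),
      .cov (nat_lit 343918796228562083911773),
      .cov (nat_lit 21543496798612983126109),
      .cov (nat_lit 343918796232960197529792),
      .cov (nat_lit 343918794398975305717852),
      .cov (nat_lit 343918796228562083911773),
      .cov (nat_lit 21543496798612983126109),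
      .cov (nat_lit 343918796233116561182162)])]) (by decide +kernel)
  exact h _ List.mem_cons_self

theorem t31_14 : GF FULL [0, 31] [14, 10] := by
  have h := JT.chkW_ok (zs := [0, 31]) good (by decide) (by decide)
    (L := [([14, 10], [.cov (nat_lit 343918794398985741145700),
      .cov (nat_lit 21543494821690472405899),
      .rot (.exp (.alt (nat_lit 31) (.cov (nat_lit 32665175699021693701747376134)) (.alt (nat_lit 31) (.cov (nat_lit 30629344618790673564704964611)) (.alt (nat_lit 31) (.cov (nat_lit 35498898189133318738007818242)) (.alt (nat_lit 31) (.cov (nat_lit 486811893181586586560081645535233)) (.alt (nat_lit 31) (.cov (nat_lit 34991150304126266539760418816)) (.alt (nat_lit 31) (.exp (.alt (nat_lit 15) (.cov (nat_lit 58737892231347826867704710476857350)) (.alt (nat_lit 15) (.cov (nat_lit 894697686455455075061132211667337219)) (.alt (nat_lit 15) (.cov (nat_lit 34101380873219380935348191233)) (.alt (nat_lit 15) (.cov (nat_lit 48353298557809609932714075965358080))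 (.alt (nat_lit 15) (.exp (.alt (nat_lit 7) (.cov (nat_lit 34995984679238687755452022786)) (.alt (nat_lit 7) (.cov (nat_lit 34106215276002331677984555009)) (.alt (nat_lit 7) (.cov (nat_lit 35000820382517172660429914112)) (.alt (nat_lit 7) (.cov (nat_lit 15918729371058269)) .e))))) .e)))))) .e))))))),
      .rot (.exp (.alt (nat_lit 31) (.exp (.alt (nat_lit 15) (.exp (.alt (nat_lit 7) (.exp (.alt (nat_lit 11) (.exp (.alt (nat_lit 23) (.exp (.alt (nat_lit 19) (.exp (.alt (nat_lit 21) (.exp (.alt (nat_lit 5) (.exp (.alt (nat_lit 13) (.exp (.alt (nat_lit 1) (.exp (.alt (nat_lit 0) (.cov (nat_lit 258254837045484584994)) (.alt (nat_lit 0) (.cov (nat_lit 405537838341465223200775)) (.alt (nat_lit 0) (.cov (nat_lit 343865763354477296877571)) (.alt (nat_lit 0) (.exp (.alt (nat_lit 4) (.exp (.alt (nat_lit 2) (.cov (nat_lit 41998624717164274253835)) (.alt (nat_lit 2) (.exp (.alt (nat_lit 10) (.exp (.alt (nat_lit 8) (.exp (.alt (nat_lit 14) (.exp (.alt (nat_lit 18) (.cov (nat_lit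 21730264536422065111043)) (.alt (nat_lit 18) (.exp (.alt (nat_lit 16) (.exp (.alt (nat_lit 26) (.cov (nat_lit 25304321191907232317441)) (.alt (nat_lit 22) (.cov (nat_lit 736100367)) .e))) .e)) (.alt (nat_lit 18) (.cov (nat_lit 1795162469)) .e)))) .e)) .e)) .e)) (.alt (nat_lit 2) (.cov (nat_lit 404467927156593029808129)) (.alt (nat_lit 2) (.exp (.alt (nat_lit 10) (.exp (.alt (nat_lit 8) (.exp (.alt (nat_lit 24) (.exp (.alt (nat_lit 16) (.exp (.alt (nat_lit 25) (.exp (.alt (nat_lit 14) (.cov (nat_lit 142962277722735247361)) (.alt (nat_lit 14) (.exp (.alt (nat_lit 30) (.cov (nat_lit 2647107785572464197632)) (.alt (nat_lit 6) (.cov (nat_lit 123731976)) .e))) .e))) .e)) .e)) .e)) .e)) (.alt (nat_lit 10) (.cov (nat_lit 25442672183678060199939)) (.alt (nat_lit 10) (.exp (.alt (nat_lit 8) (.exp (.alt (nat_lit 26) (.exp (.alt (nat_lit 24) (.exp (.alt (nat_lit 16) (.exp (.alt (nat_lit 25) (.exp (.alt (nat_lit 30) (.cov (nat_lit 1674042035684272766976)) (.alt (nat_lit 18) (.cov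 (nat_lit 1935671304)) .e))) .e)) .e)) .e)) (.alt (nat_lit 14) (.cov (nat_lit 1618701937759917965313)) (.alt (nat_lit 14) (.exp (.alt (nat_lit 30) (.cov (nat_lit 25433448409219257597955)) (.alt (nat_lit 30) (.exp (.alt (nat_lit 22) (.exp (.alt (nat_lit 26) (.cov (nat_lit 424275122491465138177)) (.alt (nat_lit 26) (.exp (.alt (nat_lit 24) (.cov (nat_lit 21529656188023406067712)) (.alt (nat_lit 18) (.cov (nat_lit 654311432)) .e))) .e))) .e)) (.alt (nat_lit 12) (.cov (nat_lit 1371537599)) .e)))) .e)))) .e)) (.alt (nat_lit 6) (.cov (nat_lit 156478999703)) .e))))) .e))))) .e)) (.alt (nat_lit 0) (.cov (nat_lit 28691142756)) .e)))))) .e)) .e)) .e)) .e)) .e)) .e)) .e)) .e)) .e)) (.alt (nat_lit 31) (.exp (.alt (nat_lit 15) (.exp (.alt (nat_lit 7) (.exp (.alt (nat_lit 23) (.exp (.alt (nat_lit 19) (.exp (.alt (nat_lit 21) (.exp (.alt (nat_lit 11) (.exp (.alt (nat_lit 3) (.exp (.alt (nat_lit 1) (.exp (.alt (nat_lit 2) (.exp (.alt (nat_lit 0) (.cov (nat_lit 682530832549138137122))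 (.alt (nat_lit 0) (.cov (nat_lit 5321888961648620732423)) (.alt (nat_lit 0) (.cov (nat_lit 103310997259068333096963)) (.alt (nat_lit 0) (.exp (.alt (nat_lit 4) (.exp (.alt (nat_lit 8) (.cov (nat_lit 350139955358978650669067)) (.alt (nat_lit 8) (.cov (nat_lit 5114361641636153262082)) (.alt (nat_lit 8) (.cov (nat_lit 8877500467304361623553)) (.alt (nat_lit 8) (.exp (.alt (nat_lit 12) (.exp (.alt (nat_lit 14) (.exp (.alt (nat_lit 30) (.exp (.alt (nat_lit 22) (.exp (.alt (nat_lit 26) (.exp (.alt (nat_lit 28) (.cov (nat_lit 45445859877398576627713)) (.alt (nat_lit 13) (.cov (nat_lit 2983198735)) .e))) .e)) .e)) .e)) .e)) (.alt (nat_lit 10) (.cov (nat_lit 25442672183677389111299)) (.alt (nat_lit 12) (.exp (.alt (nat_lit 13) (.exp (.alt (nat_lit 28) (.exp (.alt (nat_lit 24) (.exp (.alt (nat_lit 16) (.exp (.alt (nat_lit 25) (.exp (.alt (nat_lit 30) (.cov (nat_lit 21744099587880264925184)) (.alt (nat_lit 20) (.cov (nat_lit 28779216904)) .e))) .e)) .e)) .e)) (.alt (nat_lit 14)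 (.cov (nat_lit 1618701937759917965313)) (.alt (nat_lit 14) (.exp (.alt (nat_lit 30) (.cov (nat_lit 3002207615588612702211)) (.alt (nat_lit 30) (.exp (.alt (nat_lit 22) (.exp (.alt (nat_lit 28) (.cov (nat_lit 55340241017846628353)) (.alt (nat_lit 28) (.exp (.alt (nat_lit 24) (.cov (nat_lit 21529656188023403970560)) (.alt (nat_lit 20) (.cov (nat_lit 9781116936)) .e))) .e))) .e)) (.alt (nat_lit 10) (.cov (nat_lit 11569987775)) .e)))) .e)))) .e)) (.alt (nat_lit 9) (.cov (nat_lit 831523988)) .e))))) .e))))) .e)) (.alt (nat_lit 0) (.cov (nat_lit 21814581646)) .e)))))) .e)) .e)) .e)) .e)) .e)) .e)) .e)) .e)) (.alt (nat_lit 15) (.exp (.alt (nat_lit 7) (.exp (.alt (nat_lit 11) (.exp (.alt (nat_lit 3) (.exp (.alt (nat_lit 1) (.exp (.alt (nat_lit 2) (.exp (.alt (nat_lit 9) (.exp (.alt (nat_lit 13) (.exp (.alt (nat_lit 25) (.exp (.alt (nat_lit 0) (.cov (nat_lit 3043713192176138584098)) (.alt (nat_lit 0) (.cov (nat_lit 3043716068497952866311)) (.alt (nat_lit 0) (.cov (nat_lit 104574599228117277999107))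 (.alt (nat_lit 0) (.exp (.alt (nat_lit 8) (.exp (.alt (nat_lit 16) (.cov (nat_lit 112986553770785636363)) (.alt (nat_lit 16) (.cov (nat_lit 347873313275213408894978)) (.alt (nat_lit 16) (.cov (nat_lit 104611490523838513414145)) (.alt (nat_lit 16) (.exp (.alt (nat_lit 18) (.exp (.alt (nat_lit 26) (.exp (.alt (nat_lit 30) (.exp (.alt (nat_lit 14) (.exp (.alt (nat_lit 28) (.exp (.alt (nat_lit 22) (.cov (nat_lit 1602560900199650164737)) (.alt (nat_lit 19) (.cov (nat_lit 4621074447)) .e))) .e)) .e)) .e)) .e)) (.alt (nat_lit 24) (.cov (nat_lit 4270421673080115953667)) (.alt (nat_lit 18) (.exp (.alt (nat_lit 19) (.exp (.alt (nat_lit 22) (.exp (.alt (nat_lit 20) (.exp (.alt (nat_lit 4) (.exp (.alt (nat_lit 21) (.exp (.alt (nat_lit 30) (.cov (nat_lit 26521806302971051376640)) (.alt (nat_lit 6) (.cov (nat_lit 1759510536)) .e))) .e)) .e)) .e)) (.alt (nat_lit 26) (.cov (nat_lit 404569379483715607986177)) (.alt (nat_lit 26) (.exp (.alt (nat_lit 30) (.cov (nat_lit 26669380262157793361923))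 (.alt (nat_lit 30) (.exp (.alt (nat_lit 14) (.exp (.alt (nat_lit 22) (.cov (nat_lit 6391796830336492503041)) (.alt (nat_lit 22) (.exp (.alt (nat_lit 20) (.cov (nat_lit 343895732248134675333120)) (.alt (nat_lit 6) (.cov (nat_lit 157038936072)) .e))) .e))) .e)) (.alt (nat_lit 24) (.cov (nat_lit 1941962943)) .e)))) .e)))) .e)) (.alt (nat_lit 17) (.cov (nat_lit 10524560532)) .e))))) .e))))) .e)) (.alt (nat_lit 0) (.cov (nat_lit 21818775955)) .e)))))) .e)) .e)) .e)) .e)) .e)) .e)) (.alt (nat_lit 11) (.exp (.alt (nat_lit 3) (.exp (.alt (nat_lit 1) (.exp (.alt (nat_lit 2) (.exp (.alt (nat_lit 6) (.exp (.alt (nat_lit 14) (.exp (.alt (nat_lit 22) (.exp (.alt (nat_lit 0) (.cov (nat_lit 344225468207480310857762)) (.alt (nat_lit 0) (.cov (nat_lit 344225471083793770086407)) (.alt (nat_lit 0) (.cov (nat_lit 26646328888731310751747)) (.alt (nat_lit 0) (.exp (.alt (nat_lit 4) (.exp (.alt (nat_lit 16) (.cov (nat_lit 631801230835817906187)) (.alt (nat_lit 16) (.cov (nat_lit 365579881742967546839042))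 (.alt (nat_lit 16) (.cov (nat_lit 26683220184452545118209)) (.alt (nat_lit 16) (.exp (.alt (nat_lit 17) (.exp (.alt (nat_lit 21) (.exp (.alt (nat_lit 29) (.exp (.alt (nat_lit 13) (.exp (.alt (nat_lit 28) (.exp (.alt (nat_lit 25) (.cov (nat_lit 6407937731400957952001)) (.alt (nat_lit 19) (.cov (nat_lit 4625268751)) .e))) .e)) .e)) .e)) .e)) (.alt (nat_lit 20) (.cov (nat_lit 350183766543279441575939)) (.alt (nat_lit 17) (.exp (.alt (nat_lit 19) (.exp (.alt (nat_lit 25) (.exp (.alt (nat_lit 24) (.exp (.alt (nat_lit 8) (.exp (.alt (nat_lit 26) (.exp (.alt (nat_lit 29) (.cov (nat_lit 7630034528483251585024)) (.alt (nat_lit 9) (.cov (nat_lit 157048373256)) .e))) .e)) .e)) .e)) (.alt (nat_lit 21) (.cov (nat_lit 6707697458947940155393)) (.alt (nat_lit 21) (.exp (.alt (nat_lit 29) (.cov (nat_lit 104586121386497762394115)) (.alt (nat_lit 29) (.exp (.alt (nat_lit 13) (.exp (.alt (nat_lit 25) (.cov (nat_lit 1604866743208833449985)) (.alt (nat_lit 25) (.exp (.alt (nat_lit 24) (.cov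 (nat_lit 41675806559523450126336)) (.alt (nat_lit 9) (.cov (nat_lit 1753219080)) .e))) .e))) .e)) (.alt (nat_lit 20) (.cov (nat_lit 159245140159)) .e)))) .e)))) .e)) (.alt (nat_lit 18) (.cov (nat_lit 21804092564)) .e))))) .e))))) .e)) (.alt (nat_lit 0) (.cov (nat_lit 10540292499)) .e)))))) .e)) .e)) .e)) .e)) .e)) .e)) .e))) .e)) .e))) .e))),
      .cov (nat_lit 343918794398974399747675),
      .cov (nat_lit 21543494821690472405899),
      .cov (nat_lit 102118872940054793164379),
      .cov (nat_lit 71483396083507271259),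
      .cov (nat_lit 343918794398974131312222),
      .cov (nat_lit 21543494821690472405899),
      .cov (nat_lit 102118872940217364387417),
      .cov (nat_lit 71483396246078494297),
      .cov (nat_lit 343918794398974131313252),
      .cov (nat_lit 21543494821690472405899),
      .cov (nat_lit 102118872940051840374367),
      .cov (nat_lit 71483396080554481247),
      .rot (.exp (.alt (nat_lit 31) (.cov (nat_lit 229921429363539214594661518125563911)) (.alt (nat_lit 31) (.cov (nat_lit 34111052316669786116173332483)) (.alt (nat_lit 31) (.cov (nat_lit 486811893181586586439135366479873)) (.alt (nat_lit 31) (.exp (.alt (nat_lit 15) (.exp (.alt (nat_lit 23) (.cov (nat_lit 3407478919629120956739276852166658)) (.alt (nat_lit 23) (.cov (nat_lit 56141743724709179044856064933625857)) (.alt (nat_lit 23) (.cov (nat_lit 2920701045620368109707146898178048)) (.alt (nat_lit 23) (.cov (nat_lit 1328181063227188183133)) .e))))) .e)) (.alt (nat_lit 31) (.cov (nat_lit 6345695389703270826491))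 .e)))))),
      .cov (nat_lit 21543494821690472405899),
      .cov (nat_lit 102118872940051840374368),
      .cov (nat_lit 71483396080554481248)])]) (by decide +kernel)
  exact h _ List.mem_cons_self

theorem t31_15 : GF FULL [0, 31] [15, 9] := by
  have h := JT.chkW_ok (zs := [0, 31]) good (by decide) (by decide)
    (L := [([15, 9], [.cov (nat_lit 71481632473667868281),
      .cov (nat_lit 25306629163572069930619),
      .cov (nat_lit 71483266338182403710),
      .cov (nat_lit 71482248201890700512),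
      .cov (nat_lit 71481632463903530228),
      .cov (nat_lit 25306629163570895527157),
      .cov (nat_lit 1621009775138397232356),
      .cov (nat_lit 71482248201890700512),
      .cov (nat_lit 71481632463903530230),
      .cov (nat_lit 25306629163570895527159),
      .cov (nat_lit 71483266338182405368),
      .cov (nat_lit 71482252588461595897),
      .cov (nat_lit 71481632463903530589),
      .cov (nat_lit 25306629163570895527162),
      .cov (nat_lit 71483266338182405371),
      .cov (nat_lit 71482252588461595900),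
      .cov (nat_lit 71481632463903530471),
      .cov (nat_lit 25306629163570895527165),
      .cov (nat_lit 71483266338182405374),
      .cov (nat_lit 71482252588461595903),
      .rot (.exp (.alt (nat_lit 31) (.exp (.alt (nat_lit 15) (.exp (.alt (nat_lit 7) (.exp (.alt (nat_lit 23) (.exp (.alt (nat_lit 3) (.exp (.alt (nat_lit 27) (.exp (.alt (nat_lit 11) (.exp (.alt (nat_lit 9) (.exp (.alt (nat_lit 10) (.exp (.alt (nat_lit 0) (.cov (nat_lit 348869437455349550415891)) (.alt (nat_lit 0) (.cov (nat_lit 4616574447342583819)) (.alt (nat_lit 0) (.exp (.alt (nat_lit 1) (.exp (.alt (nat_lit 5) (.exp (.alt (nat_lit 17) (.exp (.alt (nat_lit 16) (.exp (.alt (nat_lit 18) (.exp (.alt (nat_lit 22) (.exp (.alt (nat_lit 20) (.exp (.alt (nat_lit 6) (.exp (.alt (nat_lit 24) (.cov (nat_lit 404343406732473239863297)) (.alt (nat_lit 24) (.exp (.alt (nat_lit 28) (.cov (nat_lit 404306513246524244230144)) (.alt (nat_lit 25) (.cov (nat_lit 46436188168)) .e))) .e))) .e)) .e)) .e)) .e)) (.alt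 (nat_lit 8) (.cov (nat_lit 3006819704039586922499)) (.alt (nat_lit 8) (.exp (.alt (nat_lit 12) (.exp (.alt (nat_lit 24) (.cov (nat_lit 406824493834575829532674)) (.alt (nat_lit 24) (.cov (nat_lit 26701662189631137906689)) (.alt (nat_lit 24) (.exp (.alt (nat_lit 26) (.cov (nat_lit 29141243976851598082051)) (.alt (nat_lit 28) (.exp (.alt (nat_lit 29) (.exp (.alt (nat_lit 30) (.cov (nat_lit 1600255057200175644673)) (.alt (nat_lit 30) (.exp (.alt (nat_lit 22) (.cov (nat_lit 364032659247597856227328)) (.alt (nat_lit 14) (.cov (nat_lit 1751121928)) .e))) .e))) .e)) (.alt (nat_lit 26) (.cov (nat_lit 183876190800)) .e)))) .e)))) .e)) (.alt (nat_lit 2) (.cov (nat_lit 20755516563)) .e))))) .e)) .e)) .e)) (.alt (nat_lit 0) (.cov (nat_lit 104648386782755219832833)) (.alt (nat_lit 0) (.exp (.alt (nat_lit 4) (.exp (.alt (nat_lit 5) (.cov (nat_lit 894799065407922922606664369860247553)) (.alt (nat_lit 5) (.cov (nat_lit 1798558849008638361611)) .e))) (.alt (nat_lit 1) (.cov (nat_lit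 6532456541438528716807)) (.alt (nat_lit 1) (.cov (nat_lit 112993394903428890627)) (.alt (nat_lit 1) (.exp (.alt (nat_lit 5) (.exp (.alt (nat_lit 17) (.cov (nat_lit 21804051642459442118667)) (.alt (nat_lit 17) (.cov (nat_lit 47998429926971981955074)) (.alt (nat_lit 17) (.cov (nat_lit 27780801459037255237633)) (.alt (nat_lit 17) (.exp (.alt (nat_lit 21) (.exp (.alt (nat_lit 29) (.exp (.alt (nat_lit 28) (.exp (.alt (nat_lit 12) (.exp (.alt (nat_lit 24) (.exp (.alt (nat_lit 20) (.cov (nat_lit 2854633654202683883521)) (.alt (nat_lit 20) (.exp (.alt (nat_lit 22) (.cov (nat_lit 364032659247597866713088)) (.alt (nat_lit 4) (.cov (nat_lit 174757773320)) .e))) .e))) .e)) .e)) .e)) .e)) (.alt (nat_lit 21) (.cov (nat_lit 27790020732094939922435)) (.alt (nat_lit 21) (.exp (.alt (nat_lit 29) (.exp (.alt (nat_lit 20) (.cov (nat_lit 21744099609881962610690)) (.alt (nat_lit 20) (.cov (nat_lit 4330373318637913112577)) (.alt (nat_lit 20) (.exp (.alt (nat_lit 4) (.cov (nat_lit 3864592901199867412483))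 (.alt (nat_lit 22) (.exp (.alt (nat_lit 6) (.exp (.alt (nat_lit 30) (.cov (nat_lit 25295097819870363910145)) (.alt (nat_lit 18) (.cov (nat_lit 185012846607)) .e))) .e)) (.alt (nat_lit 22) (.exp (.alt (nat_lit 30) (.cov (nat_lit 25295097819881805971458)) (.alt (nat_lit 6) (.cov (nat_lit 2329935939)) .e))) .e)))) .e)))) .e)) (.alt (nat_lit 19) (.cov (nat_lit 20755516563)) .e))))) .e))))) .e)) (.alt (nat_lit 1) (.exp (.alt (nat_lit 5) (.cov (nat_lit 344077893982248498102292)) (.alt (nat_lit 5) (.cov (nat_lit 6541679913486589624322)) (.alt (nat_lit 5) (.exp (.alt (nat_lit 4) (.cov (nat_lit 1798558849009073520647)) (.alt (nat_lit 13) (.cov (nat_lit 24269004746231954538496)) .e))) .e)))) .e)))))) .e)))))) .e)) .e)) .e)) .e)) .e)) .e)) .e)) .e)) (.alt (nat_lit 31) (.exp (.alt (nat_lit 15) (.exp (.alt (nat_lit 23) (.exp (.alt (nat_lit 7) (.exp (.alt (nat_lit 3) (.exp (.alt (nat_lit 5) (.exp (.alt (nat_lit 19) (.exp (.alt (nat_lit 27) (.exp (.alt (nat_lit 17) (.exp (.alt (nat_lit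 0) (.cov (nat_lit 5095914897542108676116)) (.alt (nat_lit 0) (.cov (nat_lit 4612807521579565067)) (.alt (nat_lit 0) (.exp (.alt (nat_lit 2) (.exp (.alt (nat_lit 6) (.exp (.alt (nat_lit 18) (.exp (.alt (nat_lit 4) (.exp (.alt (nat_lit 12) (.exp (.alt (nat_lit 8) (.exp (.alt (nat_lit 10) (.exp (.alt (nat_lit 9) (.exp (.alt (nat_lit 20) (.cov (nat_lit 433498494538054893569)) (.alt (nat_lit 20) (.exp (.alt (nat_lit 28) (.cov (nat_lit 21907814441534453972992)) (.alt (nat_lit 22) (.cov (nat_lit 736100360)) .e))) .e))) .e)) .e)) .e)) .e)) (.alt (nat_lit 4) (.cov (nat_lit 47915418151476908785667)) (.alt (nat_lit 4) (.exp (.alt (nat_lit 20) (.exp (.alt (nat_lit 12) (.cov (nat_lit 26507971266926624112642)) (.alt (nat_lit 12) (.cov (nat_lit 3869204822348261228545)) (.alt (nat_lit 12) (.exp (.alt (nat_lit 13) (.cov (nat_lit 435804346333583638531)) (.alt (nat_lit 8) (.exp (.alt (nat_lit 10) (.exp (.alt (nat_lit 24) (.cov (nat_lit 45436636505352563589121)) (.alt (nat_lit 9) (.cov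 (nat_lit 193986575)) .e))) .e)) (.alt (nat_lit 8) (.exp (.alt (nat_lit 24) (.cov (nat_lit 45438942348381808230402)) (.alt (nat_lit 10) (.cov (nat_lit 899678323)) .e))) .e)))) .e)))) .e)) (.alt (nat_lit 1) (.cov (nat_lit 881855639)) .e))))) .e)) .e)) .e)) (.alt (nat_lit 0) (.cov (nat_lit 63318461200203717279745)) (.alt (nat_lit 0) (.exp (.alt (nat_lit 4) (.cov (nat_lit 82064953117939156910114)) (.alt (nat_lit 2) (.cov (nat_lit 406810662039892824948743)) (.alt (nat_lit 2) (.cov (nat_lit 384148840727638855122947)) (.alt (nat_lit 2) (.exp (.alt (nat_lit 6) (.exp (.alt (nat_lit 18) (.cov (nat_lit 404338795182805122809867)) (.alt (nat_lit 18) (.cov (nat_lit 404338796884849122607106)) (.alt (nat_lit 18) (.cov (nat_lit 406847555528018504974337)) (.alt (nat_lit 18) (.exp (.alt (nat_lit 16) (.exp (.alt (nat_lit 24) (.exp (.alt (nat_lit 8) (.exp (.alt (nat_lit 10) (.exp (.alt (nat_lit 9) (.exp (.alt (nat_lit 20) (.cov (nat_lit 102111951828825103400961)) (.alt (nat_lit 20) (.exp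 (.alt (nat_lit 28) (.cov (nat_lit 22793258157072512450560)) (.alt (nat_lit 22) (.cov (nat_lit 183876190216)) .e))) .e))) .e)) .e)) .e)) .e)) (.alt (nat_lit 16) (.cov (nat_lit 3892263419569063854083)) (.alt (nat_lit 16) (.exp (.alt (nat_lit 20) (.exp (.alt (nat_lit 24) (.cov (nat_lit 406806047090522752811010)) (.alt (nat_lit 24) (.cov (nat_lit 47947699786477234814977)) (.alt (nat_lit 24) (.exp (.alt (nat_lit 25) (.cov (nat_lit 102114257680620632145923)) (.alt (nat_lit 8) (.exp (.alt (nat_lit 10) (.exp (.alt (nat_lit 12) (.cov (nat_lit 45408966389397746352129)) (.alt (nat_lit 9) (.cov (nat_lit 46419410959)) .e))) .e)) (.alt (nat_lit 8) (.exp (.alt (nat_lit 12) (.cov (nat_lit 45411272232271231320066)) (.alt (nat_lit 10) (.cov (nat_lit 13201571955)) .e))) .e)))) .e)))) .e)) (.alt (nat_lit 16) (.exp (.alt (nat_lit 24) (.cov (nat_lit 3896874945056063094786)) (.alt (nat_lit 20) (.cov (nat_lit 4055894208)) .e))) .e))))) .e))))) .e)) (.alt (nat_lit 2) (.cov (nat_lit 20642273735))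 .e)))))) .e)))))) .e)) .e)) .e)) .e)) .e)) .e)) (.alt (nat_lit 23) (.exp (.alt (nat_lit 7) (.exp (.alt (nat_lit 3) (.exp (.alt (nat_lit 5) (.exp (.alt (nat_lit 1) (.exp (.alt (nat_lit 9) (.exp (.alt (nat_lit 17) (.exp (.alt (nat_lit 0) (.cov (nat_lit 347836419787066022297619)) (.alt (nat_lit 0) (.cov (nat_lit 42067804792515287056395)) (.alt (nat_lit 0) (.exp (.alt (nat_lit 2) (.exp (.alt (nat_lit 6) (.exp (.alt (nat_lit 10) (.exp (.alt (nat_lit 8) (.exp (.alt (nat_lit 12) (.exp (.alt (nat_lit 28) (.exp (.alt (nat_lit 29) (.exp (.alt (nat_lit 20) (.exp (.alt (nat_lit 24) (.cov (nat_lit 59951929234722652161)) (.alt (nat_lit 24) (.exp (.alt (nat_lit 26) (.cov (nat_lit 21534267874041835552768)) (.alt (nat_lit 16) (.cov (nat_lit 656408584)) .e))) .e))) .e)) .e)) .e)) .e)) (.alt (nat_lit 8) (.cov (nat_lit 25438060497705331851267)) (.alt (nat_lit 4) (.cov (nat_lit 21739491189401602490368)) (.alt (nat_lit 4) (.cov (nat_lit 20975409)) .e))))) .e)) .e)) .e)) (.alt (nat_lit 0)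 (.cov (nat_lit 1586427645139015958529)) (.alt (nat_lit 0) (.exp (.alt (nat_lit 8) (.cov (nat_lit 7876761021315354198050)) (.alt (nat_lit 2) (.cov (nat_lit 1664821951188523024391)) (.alt (nat_lit 2) (.cov (nat_lit 779377206506943414275)) (.alt (nat_lit 2) (.exp (.alt (nat_lit 6) (.exp (.alt (nat_lit 10) (.cov (nat_lit 22744835590228327530507)) (.alt (nat_lit 10) (.exp (.alt (nat_lit 14) (.exp (.alt (nat_lit 30) (.exp (.alt (nat_lit 12) (.exp (.alt (nat_lit 26) (.cov (nat_lit 21896285233088328368131)) (.alt (nat_lit 26) (.exp (.alt (nat_lit 27) (.exp (.alt (nat_lit 24) (.cov (nat_lit 1586419999135143821313)) (.alt (nat_lit 18) (.cov (nat_lit 1291845647)) .e))) .e)) (.alt (nat_lit 26) (.exp (.alt (nat_lit 24) (.cov (nat_lit 1586419999135845318658)) (.alt (nat_lit 27) (.cov (nat_lit 227541059)) .e))) .e)))) .e)) .e)) .e)) (.alt (nat_lit 10) (.cov (nat_lit 25442676636700045737985)) (.alt (nat_lit 10) (.exp (.alt (nat_lit 14) (.exp (.alt (nat_lit 30) (.exp (.alt (nat_lit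 26) (.exp (.alt (nat_lit 27) (.exp (.alt (nat_lit 18) (.exp (.alt (nat_lit 12) (.cov (nat_lit 2868468712414305583105)) (.alt (nat_lit 12) (.exp (.alt (nat_lit 28) (.cov (nat_lit 22855515918321281138688)) (.alt (nat_lit 13) (.cov (nat_lit 2983198728)) .e))) .e))) .e)) .e)) .e)) .e)) (.alt (nat_lit 14) (.cov (nat_lit 216750028083530039299)) (.alt (nat_lit 14) (.exp (.alt (nat_lit 12) (.exp (.alt (nat_lit 30) (.cov (nat_lit 133738927520470794242)) (.alt (nat_lit 30) (.cov (nat_lit 1609478666722390048769)) (.alt (nat_lit 30) (.exp (.alt (nat_lit 22) (.cov (nat_lit 1448069427388169060355)) (.alt (nat_lit 26) (.exp (.alt (nat_lit 27) (.exp (.alt (nat_lit 24) (.cov (nat_lit 1586419999135143821313)) (.alt (nat_lit 18) (.cov (nat_lit 1291845647)) .e))) .e)) (.alt (nat_lit 26) (.exp (.alt (nat_lit 24) (.cov (nat_lit 1586419999135845318658)) (.alt (nat_lit 27) (.cov (nat_lit 227541059)) .e))) .e)))) .e)))) .e)) (.alt (nat_lit 11) (.cov (nat_lit 330304659)) .e))))) .e))))) .e))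 (.alt (nat_lit 2) (.cov (nat_lit 10513027270)) .e)))))) .e)))))) .e)) .e)) .e)) .e)) .e)) .e)) .e))) .e)) .e))),
      .rot (.exp (.alt (nat_lit 31) (.cov (nat_lit 1298110733864928083627375554723846)) (.alt (nat_lit 31) (.cov (nat_lit 37022144352912826043481456643)) (.alt (nat_lit 31) (.cov (nat_lit 36562753869624882045622681601)) (.alt (nat_lit 31) (.cov (nat_lit 36567588244737899196629123072)) (.alt (nat_lit 31) (.exp (.alt (nat_lit 15) (.cov (nat_lit 22391815952786180702705507946725378)) (.alt (nat_lit 15) (.cov (nat_lit 35769697176121945311820120065)) (.alt (nat_lit 15) (.cov (nat_lit 2920702752630838082500760064491520)) (.alt (nat_lit 15) (.cov (nat_lit 10182618983872181829725)) .e))))) .e)))))),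
      .cov (nat_lit 71483266338182404747),
      .cov (nat_lit 71482252588461594846)])]) (by decide +kernel)
  exact h _ List.mem_cons_self

theorem t31_16 : GF FULL [0, 31] [16, 8] := by
  have h := JT.chkW_ok (zs := [0, 31]) good (by decide) (by decide)
    (L := [([16, 8], [.cov (nat_lit 1621008119262343076883),
      .cov (nat_lit 71482158030461607466),
      .rot (.exp (.alt (nat_lit 31) (.cov (nat_lit 37858721020086129641168830466)) (.alt (nat_lit 31) (.cov (nat_lit 37863556723364599152983932929)) (.alt (nat_lit 31) (.cov (nat_lit 37868392426643073062845546496)) (.alt (nat_lit 31) (.cov (nat_lit 17222750153211997)) .e))))),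
      .cov (nat_lit 1621008119262343077595),
      .cov (nat_lit 71482158030461607467),
      .cov (nat_lit 1399647188178805202652),
      .cov (nat_lit 1621008119262343077597),
      .cov (nat_lit 71482158030461607468),
      .cov (nat_lit 1399647188178805202654),
      .cov (nat_lit 71481632463903530719),
      .cov (nat_lit 71482158030461607469),
      .cov (nat_lit 1399647188178805202656),
      .cov (nat_lit 1399647183780758691481),
      .cov (nat_lit 71482155831438351918),
      .cov (nat_lit 1399647188178805202657),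
      .cov (nat_lit 1399647183780758691481),
      .cov (nat_lit 71482155831438350581),
      .cov (nat_lit 1399647188178805201141)])]) (by decide +kernel)
  exact h _ List.mem_cons_self

theorem t31_17 : GF FULL [0, 31] [17, 7] := by
  have h := JT.chkW_ok (zs := [0, 31]) good (by decide) (by decide)
    (L := [([17, 7], [.cov (nat_lit 71481337794787286802),
      .cov (nat_lit 71481339993810542354),
      .rot (.exp (.alt (nat_lit 31) (.exp (.alt (nat_lit 15) (.exp (.alt (nat_lit 7) (.exp (.alt (nat_lit 11) (.exp (.alt (nat_lit 23) (.exp (.alt (nat_lit 19) (.exp (.alt (nat_lit 21) (.exp (.alt (nat_lit 0) (.cov (nat_lit 82055732622261961621542)) (.alt (nat_lit 0) (.cov (nat_lit 8859055915657471197218)) (.alt (nat_lit 0) (.cov (nat_lit 102199584836320238764039)) (.alt (nat_lit 0) (.cov (nat_lit 47970772349691828895747)) (.alt (nat_lit 0) (.exp (.alt (nat_lit 1) (.exp (.alt (nat_lit 2) (.cov (nat_lit 5326499198484955004947)) (.alt (nat_lit 2) (.cov (nat_lit 404467927178583933452299))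 (.alt (nat_lit 2) (.exp (.alt (nat_lit 6) (.exp (.alt (nat_lit 4) (.exp (.alt (nat_lit 14) (.exp (.alt (nat_lit 10) (.cov (nat_lit 104574592294597064392711)) (.alt (nat_lit 10) (.cov (nat_lit 25442672183677517037571)) (.alt (nat_lit 18) (.exp (.alt (nat_lit 16) (.exp (.alt (nat_lit 26) (.cov (nat_lit 7655398823586319826946)) (.alt (nat_lit 26) (.cov (nat_lit 344137846012591736881153)) (.alt (nat_lit 22) (.cov (nat_lit 11641291592)) .e)))) .e)) (.alt (nat_lit 10) (.exp (.alt (nat_lit 8) (.cov (nat_lit 102222632543946249601026)) (.alt (nat_lit 8) (.exp (.alt (nat_lit 24) (.cov (nat_lit 45436636514159584870407)) (.alt (nat_lit 12) (.cov (nat_lit 3016043076064967131136)) .e))) .e))) .e))))) .e)) .e)) .e)) (.alt (nat_lit 2) (.cov (nat_lit 25479578314009495994369)) (.alt (nat_lit 2) (.exp (.alt (nat_lit 10) (.cov (nat_lit 406879834119573614886946)) (.alt (nat_lit 6) (.cov (nat_lit 406819885412092892676103)) (.alt (nat_lit 6) (.cov (nat_lit 50729680898749366275)) (.alt (nat_lit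 6) (.exp (.alt (nat_lit 4) (.exp (.alt (nat_lit 14) (.cov (nat_lit 29021340261298879856651)) (.alt (nat_lit 14) (.exp (.alt (nat_lit 12) (.exp (.alt (nat_lit 8) (.exp (.alt (nat_lit 13) (.exp (.alt (nat_lit 30) (.cov (nat_lit 25433448409219257597955)) (.alt (nat_lit 30) (.exp (.alt (nat_lit 22) (.exp (.alt (nat_lit 28) (.cov (nat_lit 55340241017846628353)) (.alt (nat_lit 28) (.exp (.alt (nat_lit 24) (.cov (nat_lit 21529656188023403970560)) (.alt (nat_lit 20) (.cov (nat_lit 9781116936)) .e))) .e))) .e)) (.alt (nat_lit 10) (.cov (nat_lit 11569987775)) .e)))) .e)) .e)) .e)) (.alt (nat_lit 14) (.cov (nat_lit 347854869567990105374721)) (.alt (nat_lit 14) (.exp (.alt (nat_lit 10) (.cov (nat_lit 104574592294597064392711)) (.alt (nat_lit 10) (.cov (nat_lit 25442672183677517037571)) (.alt (nat_lit 12) (.exp (.alt (nat_lit 8) (.exp (.alt (nat_lit 28) (.cov (nat_lit 25428836738614632120322)) (.alt (nat_lit 28) (.cov (nat_lit 22793258405562163396609)) (.alt (nat_lit 13) (.cov (nat_lit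 198181704)) .e)))) .e)) (.alt (nat_lit 10) (.exp (.alt (nat_lit 8) (.cov (nat_lit 102222632543946249601026)) (.alt (nat_lit 8) (.exp (.alt (nat_lit 24) (.cov (nat_lit 45436636514159584870407)) (.alt (nat_lit 12) (.cov (nat_lit 3016043076064967131136)) .e))) .e))) .e))))) .e))))) .e)) (.alt (nat_lit 6) (.cov (nat_lit 809504966)) .e)))))) .e)))))) .e)) (.alt (nat_lit 0) (.exp (.alt (nat_lit 1) (.cov (nat_lit 364030358282032143925267)) (.alt (nat_lit 2) (.exp (.alt (nat_lit 6) (.exp (.alt (nat_lit 4) (.exp (.alt (nat_lit 14) (.exp (.alt (nat_lit 10) (.cov (nat_lit 25442672183680302055431)) (.alt (nat_lit 18) (.cov (nat_lit 347647345920373394767872)) .e))) .e)) .e)) .e)) (.alt (nat_lit 2) (.exp (.alt (nat_lit 10) (.cov (nat_lit 25442672183687281377318)) (.alt (nat_lit 6) (.cov (nat_lit 344100959352414458085383)) (.alt (nat_lit 6) (.cov (nat_lit 6576273702684314304512)) .e)))) .e)))) .e))))))) .e)) .e)) .e)) .e)) .e)) .e)) (.alt (nat_lit 31) (.exp (.alt (nat_lit 15) (.exp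 (.alt (nat_lit 7) (.exp (.alt (nat_lit 11) (.exp (.alt (nat_lit 3) (.exp (.alt (nat_lit 1) (.exp (.alt (nat_lit 2) (.exp (.alt (nat_lit 0) (.exp (.alt (nat_lit 4) (.exp (.alt (nat_lit 5) (.exp (.alt (nat_lit 13) (.exp (.alt (nat_lit 21) (.exp (.alt (nat_lit 6) (.exp (.alt (nat_lit 14) (.exp (.alt (nat_lit 22) (.exp (.alt (nat_lit 16) (.cov (nat_lit 6387185168527942221826)) (.alt (nat_lit 16) (.cov (nat_lit 1810087021727277121537)) (.alt (nat_lit 16) (.exp (.alt (nat_lit 18) (.cov (nat_lit 406847552249286269861891)) (.alt (nat_lit 18) (.exp (.alt (nat_lit 19) (.exp (.alt (nat_lit 26) (.cov (nat_lit 424275122491456749569)) (.alt (nat_lit 26) (.exp (.alt (nat_lit 24) (.cov (nat_lit 343904955620171530108928)) (.alt (nat_lit 10) (.cov (nat_lit 10343153672)) .e))) .e))) .e)) (.alt (nat_lit 18) (.cov (nat_lit 4053795408)) .e)))) .e)))) .e)) .e)) .e)) .e)) .e)) .e)) (.alt (nat_lit 4) (.cov (nat_lit 1494189566325365407763)) .e))) (.alt (nat_lit 0) (.cov (nat_lit 45388220874227577782306))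 (.alt (nat_lit 0) (.exp (.alt (nat_lit 4) (.exp (.alt (nat_lit 5) (.exp (.alt (nat_lit 13) (.exp (.alt (nat_lit 21) (.exp (.alt (nat_lit 16) (.cov (nat_lit 1810087008681454469131)) (.alt (nat_lit 16) (.cov (nat_lit 63350732682328055742466)) (.alt (nat_lit 16) (.cov (nat_lit 7793754252973931757569)) (.alt (nat_lit 16) (.exp (.alt (nat_lit 18) (.exp (.alt (nat_lit 22) (.exp (.alt (nat_lit 30) (.exp (.alt (nat_lit 14) (.exp (.alt (nat_lit 28) (.exp (.alt (nat_lit 26) (.cov (nat_lit 25297403662879573409793)) (.alt (nat_lit 19) (.cov (nat_lit 4625268751)) .e))) .e)) .e)) .e)) .e)) (.alt (nat_lit 20) (.cov (nat_lit 47952311639621612077059)) (.alt (nat_lit 18) (.exp (.alt (nat_lit 19) (.exp (.alt (nat_lit 26) (.exp (.alt (nat_lit 24) (.exp (.alt (nat_lit 8) (.exp (.alt (nat_lit 25) (.exp (.alt (nat_lit 30) (.cov (nat_lit 26521806302971047182336)) (.alt (nat_lit 10) (.cov (nat_lit 19610468360)) .e))) .e)) .e)) .e)) (.alt (nat_lit 22) (.cov (nat_lit 25599469233435735752705))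 (.alt (nat_lit 22) (.exp (.alt (nat_lit 30) (.cov (nat_lit 406819882133164237258755)) (.alt (nat_lit 30) (.exp (.alt (nat_lit 14) (.exp (.alt (nat_lit 26) (.cov (nat_lit 424275122491456749569)) (.alt (nat_lit 26) (.exp (.alt (nat_lit 24) (.cov (nat_lit 343904955620171530108928)) (.alt (nat_lit 10) (.cov (nat_lit 10343153672)) .e))) .e))) .e)) (.alt (nat_lit 20) (.cov (nat_lit 21806186687)) .e)))) .e)))) .e)) (.alt (nat_lit 17) (.cov (nat_lit 159241997460)) .e))))) .e))))) .e)) .e)) .e)) .e)) (.alt (nat_lit 0) (.cov (nat_lit 2886924881345327923203)) (.alt (nat_lit 0) (.exp (.alt (nat_lit 4) (.exp (.alt (nat_lit 8) (.cov (nat_lit 2637886249748095041555)) (.alt (nat_lit 8) (.cov (nat_lit 102222633401568204947467)) (.alt (nat_lit 8) (.cov (nat_lit 21527359350014407081986)) (.alt (nat_lit 8) (.cov (nat_lit 4334997026716453437441)) (.alt (nat_lit 8) (.exp (.alt (nat_lit 24) (.exp (.alt (nat_lit 16) (.cov (nat_lit 6632348128989367192947660974718977)) (.alt (nat_lit 16) (.cov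 (nat_lit 42044742734181445926923)) .e))) (.alt (nat_lit 9) (.cov (nat_lit 21529659473368731090951)) (.alt (nat_lit 9) (.cov (nat_lit 6403333102048161824771)) (.alt (nat_lit 9) (.exp (.alt (nat_lit 13) (.exp (.alt (nat_lit 25) (.cov (nat_lit 2649413877071296331787)) (.alt (nat_lit 25) (.exp (.alt (nat_lit 17) (.exp (.alt (nat_lit 16) (.exp (.alt (nat_lit 19) (.exp (.alt (nat_lit 24) (.cov (nat_lit 347817971213407124193283)) (.alt (nat_lit 29) (.exp (.alt (nat_lit 21) (.exp (.alt (nat_lit 28) (.cov (nat_lit 2873080398276401823745)) (.alt (nat_lit 28) (.exp (.alt (nat_lit 30) (.cov (nat_lit 42994748760793680969728)) (.alt (nat_lit 12) (.cov (nat_lit 174766161928)) .e))) .e))) .e)) (.alt (nat_lit 24) (.cov (nat_lit 166224462417)) .e)))) .e)) .e)) .e)) (.alt (nat_lit 25) (.cov (nat_lit 1604871644831712018433)) (.alt (nat_lit 25) (.exp (.alt (nat_lit 27) (.cov (nat_lit 43811157934352629767)) (.alt (nat_lit 27) (.cov (nat_lit 48021486929898556620803)) (.alt (nat_lit 27) (.exp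 (.alt (nat_lit 19) (.exp (.alt (nat_lit 26) (.cov (nat_lit 1591031709526673850370)) (.alt (nat_lit 26) (.cov (nat_lit 404569379481516022693889)) (.alt (nat_lit 26) (.exp (.alt (nat_lit 24) (.cov (nat_lit 26701662064286946557955)) (.alt (nat_lit 30) (.exp (.alt (nat_lit 14) (.exp (.alt (nat_lit 28) (.cov (nat_lit 46116868990156406785)) (.alt (nat_lit 28) (.exp (.alt (nat_lit 20) (.cov (nat_lit 122209690483458834432)) (.alt (nat_lit 24) (.cov (nat_lit 620757000)) .e))) .e))) .e)) (.alt (nat_lit 24) (.cov (nat_lit 13216252496)) .e)))) .e)))) .e)) (.alt (nat_lit 27) (.cov (nat_lit 10354691217)) .e))))) .e))))) .e)) (.alt (nat_lit 9) (.cov (nat_lit 37271639006)) .e)))))) .e)))))) .e)) (.alt (nat_lit 0) (.cov (nat_lit 4201111)) .e))))))) .e)) .e)) .e)) .e)) .e)) .e)) .e))),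
      .cov (nat_lit 71481337794787286928),
      .cov (nat_lit 71481339993810542480),
      .rot (.exp (.alt (nat_lit 31) (.exp (.alt (nat_lit 15) (.exp (.alt (nat_lit 7) (.exp (.alt (nat_lit 11) (.exp (.alt (nat_lit 23) (.exp (.alt (nat_lit 19) (.exp (.alt (nat_lit 21) (.exp (.alt (nat_lit 0) (.exp (.alt (nat_lit 1) (.cov (nat_lit 100124119070423609832275340021465090)) (.alt (nat_lit 1) (.cov (nat_lit 48434400197492489846858722770419713)) (.alt (nat_lit 1) (.cov (nat_lit 48434400197513961856978112874545152)) (.alt (nat_lit 1) (.cov (nat_lit 365323934123365571231837)) .e))))) (.alt (nat_lit 0) (.cov (nat_lit 36896793289312698406)) (.alt (nat_lit 0) (.cov (nat_lit 2307991466493870174)) (.alt (nat_lit 0) (.cov (nat_lit 8859055915657471197218)) (.alt (nat_lit 0) (.cov (nat_lit 1775507631722370957348)) (.alt (nat_lit 0) (.cov (nat_lit 4619169304347148303)) (.alt (nat_lit 0) (.cov (nat_lit 47966155537753147703303)) (.alt (nat_lit 0) (.cov (nat_lit 4624752614788038662)) (.alt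 (nat_lit 0) (.cov (nat_lit 47970772349691828895747)) (.alt (nat_lit 0) (.cov (nat_lit 2320871134146330626)) (.alt (nat_lit 0) (.cov (nat_lit 2321763937585987585)) (.alt (nat_lit 0) (.cov (nat_lit 4628523939496198144)) (.alt (nat_lit 0) (.cov (nat_lit 166196157991)) .e)))))))))))))) .e)) .e)) .e)) .e)) .e)) .e)) (.alt (nat_lit 31) (.exp (.alt (nat_lit 15) (.exp (.alt (nat_lit 7) (.exp (.alt (nat_lit 11) (.exp (.alt (nat_lit 3) (.exp (.alt (nat_lit 1) (.exp (.alt (nat_lit 2) (.exp (.alt (nat_lit 0) (.exp (.alt (nat_lit 4) (.cov (nat_lit 17280619026940367391222310052560898)) (.alt (nat_lit 4) (.cov (nat_lit 202832959880672235584955000815617)) (.alt (nat_lit 4) (.cov (nat_lit 50016428035355801164787744622247936)) (.alt (nat_lit 4) (.cov (nat_lit 22744838149881525698653)) .e))))) (.alt (nat_lit 0) (.cov (nat_lit 18451733657493176358)) (.alt (nat_lit 0) (.cov (nat_lit 21933184898289184538718)) (.alt (nat_lit 0) (.cov (nat_lit 534960917366662234146)) (.alt (nat_lit 0) (.cov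 (nat_lit 27753134883354129203236)) (.alt (nat_lit 0) (.cov (nat_lit 5321896060048151412751)) (.alt (nat_lit 0) (.cov (nat_lit 1706334821934428061703)) (.alt (nat_lit 0) (.cov (nat_lit 23990003631101380132870)) (.alt (nat_lit 0) (.cov (nat_lit 344299268534035569180675)) (.alt (nat_lit 0) (.cov (nat_lit 18461127884828311554)) (.alt (nat_lit 0) (.cov (nat_lit 18462179017944465409)) (.alt (nat_lit 0) (.cov (nat_lit 18463584193804763136)) (.alt (nat_lit 0) (.cov (nat_lit 4202031)) .e)))))))))))))) .e)) .e)) .e)) .e)) .e)) .e)) .e))),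
      .cov (nat_lit 71481337794787286929),
      .cov (nat_lit 71481339993810542481),
      .cov (nat_lit 71481216848508231619),
      .cov (nat_lit 71481337794787286930),
      .cov (nat_lit 71481339993810542482),
      .cov (nat_lit 71481216848508231620),
      .cov (nat_lit 71481337794787286931),
      .cov (nat_lit 71481339993810542483),
      .cov (nat_lit 71481216848508231621),
      .cov (nat_lit 71481337794787286803),
      .cov (nat_lit 71481339993810542355),
      .cov (nat_lit 71481216848508231572)])]) (by decide +kernel)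
  exact h _ List.mem_cons_self

theorem t31_18 : GF FULL [0, 31] [18, 6] := by
  have h := JT.chkW_ok (zs := [0, 31]) good (by decide) (by decide)
    (L := [([18, 6], [.cov (nat_lit 71481172868043120206),
      .cov (nat_lit 71481212450461720142),
      .cov (nat_lit 1399646781359502925390),
      .cov (nat_lit 71481172868043120645),
      .cov (nat_lit 71481212450495275013),
      .cov (nat_lit 1399646781359502925830),
      .cov (nat_lit 71481172868043120647),
      .cov (nat_lit 71481212450461720583),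
      .cov (nat_lit 1399646781359502925832),
      .cov (nat_lit 440416054342234152969),
      .cov (nat_lit 145268188745333481481),
      .cov (nat_lit 1399646781359502925834),
      .cov (nat_lit 440416054342234152971),
      .cov (nat_lit 71481212451166363659),
      .cov (nat_lit 1399646781359502925836),
      .rot (.exp (.alt (nat_lit 31) (.exp (.alt (nat_lit 15) (.exp (.alt (nat_lit 23) (.exp (.alt (nat_lit 7) (.exp (.alt (nat_lit 3) (.exp (.alt (nat_lit 5) (.exp (.alt (nat_lit 0) (.cov (nat_lit 534956695241676030418)) (.alt (nat_lit 0) (.cov (nat_lit 4613836847133491417)) (.alt (nat_lit 0) (.cov (nat_lit 41839528485248500236381)) (.alt (nat_lit 0) (.cov (nat_lit 4623226495374983203)) (.alt (nat_lit 0) (.cov (nat_lit 4624754813811294224)) (.alt (nat_lit 0) (.cov (nat_lit 384287193269768007188500)) (.alt (nat_lit 0) (.cov (nat_lit 1701721405284966989835)) (.alt (nat_lit 0) (.cov (nat_lit 10187228789721129811974)) (.alt (nat_lit 0) (.cov (nat_lit 4627200127503695875))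 (.alt (nat_lit 0) (.cov (nat_lit 4627831247178039298)) (.alt (nat_lit 0) (.cov (nat_lit 4627422228852506625)) (.alt (nat_lit 0) (.cov (nat_lit 10187231613266982600704)) (.alt (nat_lit 0) (.exp (.alt (nat_lit 2) (.exp (.alt (nat_lit 10) (.cov (nat_lit 9502315040654358617574236802252802)) (.alt (nat_lit 6) (.cov (nat_lit 889069287838097204637200913816092673)) (.alt (nat_lit 6) (.cov (nat_lit 63818605880285285826742539402608640)) (.alt (nat_lit 6) (.exp (.alt (nat_lit 4) (.cov (nat_lit 102639139834243361493442042875871235)) (.alt (nat_lit 4) (.cov (nat_lit 91564944132616092586085390215020545)) (.alt (nat_lit 4) (.cov (nat_lit 889069287838096978664594806931456000)) (.alt (nat_lit 4) (.exp (.alt (nat_lit 12) (.cov (nat_lit 764981507884935906573853616192356353)) (.alt (nat_lit 12) (.cov (nat_lit 63258499859149733494795)) .e))) .e))))) .e))))) (.alt (nat_lit 2) (.cov (nat_lit 5335725708507032322086)) (.alt (nat_lit 1) (.exp (.alt (nat_lit 9) (.cov (nat_lit 86214288533674954350908867084290))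 (.alt (nat_lit 9) (.cov (nat_lit 14689548946972549832421496960581633)) (.alt (nat_lit 9) (.cov (nat_lit 6414325644925943718038378993680384)) (.alt (nat_lit 9) (.cov (nat_lit 629498437851945107491)) .e))))) (.alt (nat_lit 1) (.exp (.alt (nat_lit 9) (.cov (nat_lit 47465924631505345874870054016778241)) (.alt (nat_lit 9) (.cov (nat_lit 6384886357985989754891)) .e))) (.alt (nat_lit 1) (.cov (nat_lit 6384886357974448078884)) (.alt (nat_lit 1) (.cov (nat_lit 1957669746210946154511)) (.alt (nat_lit 1) (.cov (nat_lit 39211579716175659015)) (.alt (nat_lit 1) (.cov (nat_lit 1810099721076804157446)) (.alt (nat_lit 1) (.cov (nat_lit 39214040423198621699)) (.alt (nat_lit 1) (.cov (nat_lit 39214847464733409282)) (.alt (nat_lit 1) (.cov (nat_lit 39214847464733409281)) (.alt (nat_lit 1) (.exp (.alt (nat_lit 9) (.exp (.alt (nat_lit 17) (.exp (.alt (nat_lit 19) (.cov (nat_lit 230027880828510726237898783136415747)) (.alt (nat_lit 19) (.cov (nat_lit 17163992038186592712533766659112961))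 (.alt (nat_lit 19) (.cov (nat_lit 17143708443842815909078502601654272)) (.alt (nat_lit 19) (.cov (nat_lit 3135947288577674575906)) .e))))) (.alt (nat_lit 17) (.cov (nat_lit 7796057061333945810979)) (.alt (nat_lit 17) (.cov (nat_lit 102105039166226189778960)) (.alt (nat_lit 17) (.cov (nat_lit 332042420270658486290)) (.alt (nat_lit 17) (.cov (nat_lit 3147477858221730824203)) (.alt (nat_lit 17) (.cov (nat_lit 384319473158699195826182)) (.alt (nat_lit 17) (.cov (nat_lit 365589113792347283390467)) (.alt (nat_lit 17) (.cov (nat_lit 365577583099557593481218)) (.alt (nat_lit 17) (.cov (nat_lit 48431987469692436481)) (.alt (nat_lit 17) (.cov (nat_lit 43825506539307794432)) (.alt (nat_lit 17) (.cov (nat_lit 19615717980)) .e)))))))))))) .e)) (.alt (nat_lit 1) (.cov (nat_lit 183921286686)) .e)))))))))))))) .e)))))))))))))) .e)) .e)) .e)) .e)) .e)) .e)),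
      .cov (nat_lit 440416091725629497357),
      .cov (nat_lit 1399646781359502925837),
      .rot (.exp (.alt (nat_lit 31) (.exp (.alt (nat_lit 15) (.exp (.alt (nat_lit 23) (.exp (.alt (nat_lit 7) (.exp (.alt (nat_lit 3) (.exp (.alt (nat_lit 5) (.exp (.alt (nat_lit 0) (.cov (nat_lit 5174316645268653605081)) (.alt (nat_lit 0) (.cov (nat_lit 23132227634751749488660)) (.alt (nat_lit 0) (.cov (nat_lit 534961262612977811467)) (.alt (nat_lit 0) (.exp (.alt (nat_lit 1) (.exp (.alt (nat_lit 9) (.exp (.alt (nat_lit 17) (.exp (.alt (nat_lit 8) (.cov (nat_lit 7876761021315354198050)) (.alt (nat_lit 2) (.cov (nat_lit 1664821951188523024391)) (.alt (nat_lit 2) (.cov (nat_lit 779377206506943414275)) (.alt (nat_lit 2) (.exp (.alt (nat_lit 6) (.exp (.alt (nat_lit 10) (.cov (nat_lit 22744835590228327530507)) (.alt (nat_lit 10) (.exp (.alt (nat_lit 14) (.exp (.alt (nat_lit 30) (.exp (.alt (nat_lit 12) (.exp (.alt (nat_lit 26) (.cov (nat_lit 21896285233088328368131)) (.alt (nat_lit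 26) (.exp (.alt (nat_lit 27) (.exp (.alt (nat_lit 24) (.cov (nat_lit 1586419999135143821313)) (.alt (nat_lit 18) (.cov (nat_lit 1291845647)) .e))) .e)) (.alt (nat_lit 26) (.exp (.alt (nat_lit 24) (.cov (nat_lit 1586419999135845318658)) (.alt (nat_lit 27) (.cov (nat_lit 227541059)) .e))) .e)))) .e)) .e)) .e)) (.alt (nat_lit 10) (.cov (nat_lit 25442676636700045737985)) (.alt (nat_lit 10) (.exp (.alt (nat_lit 14) (.exp (.alt (nat_lit 30) (.exp (.alt (nat_lit 26) (.exp (.alt (nat_lit 27) (.exp (.alt (nat_lit 18) (.exp (.alt (nat_lit 12) (.cov (nat_lit 2868468712414305583105)) (.alt (nat_lit 12) (.exp (.alt (nat_lit 28) (.cov (nat_lit 22855515918321281138688)) (.alt (nat_lit 13) (.cov (nat_lit 2983198728)) .e))) .e))) .e)) .e)) .e)) .e)) (.alt (nat_lit 14) (.cov (nat_lit 216750028083530039299)) (.alt (nat_lit 14) (.exp (.alt (nat_lit 12) (.exp (.alt (nat_lit 30) (.cov (nat_lit 133738927520470794242)) (.alt (nat_lit 30) (.cov (nat_lit 1609478666722390048769)) (.alt (nat_lit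 30) (.exp (.alt (nat_lit 22) (.cov (nat_lit 1448069427388169060355)) (.alt (nat_lit 26) (.exp (.alt (nat_lit 27) (.exp (.alt (nat_lit 24) (.cov (nat_lit 1586419999135143821313)) (.alt (nat_lit 18) (.cov (nat_lit 1291845647)) .e))) .e)) (.alt (nat_lit 26) (.exp (.alt (nat_lit 24) (.cov (nat_lit 1586419999135845318658)) (.alt (nat_lit 27) (.cov (nat_lit 227541059)) .e))) .e)))) .e)))) .e)) (.alt (nat_lit 11) (.cov (nat_lit 330304659)) .e))))) .e))))) .e)) (.alt (nat_lit 2) (.cov (nat_lit 10513027270)) .e)))))) .e)) .e)) .e)) (.alt (nat_lit 0) (.cov (nat_lit 18459408248676024321)) (.alt (nat_lit 0) (.exp (.alt (nat_lit 2) (.exp (.alt (nat_lit 10) (.cov (nat_lit 3985500736202119249064437590523906)) (.alt (nat_lit 6) (.cov (nat_lit 29021343410483380617236)) .e))) (.alt (nat_lit 1) (.exp (.alt (nat_lit 9) (.cov (nat_lit 47465924631505345874870054016778241)) (.alt (nat_lit 9) (.cov (nat_lit 6384886357985989754891)) .e))) (.alt (nat_lit 1) (.exp (.alt (nat_lit 9) (.exp (.alt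 (nat_lit 11) (.exp (.alt (nat_lit 27) (.exp (.alt (nat_lit 10) (.exp (.alt (nat_lit 17) (.cov (nat_lit 21804051642459442118667)) (.alt (nat_lit 17) (.cov (nat_lit 47998429926971981955074)) (.alt (nat_lit 17) (.cov (nat_lit 27780801459037255237633)) (.alt (nat_lit 17) (.exp (.alt (nat_lit 21) (.exp (.alt (nat_lit 29) (.exp (.alt (nat_lit 28) (.exp (.alt (nat_lit 12) (.exp (.alt (nat_lit 24) (.exp (.alt (nat_lit 20) (.cov (nat_lit 2854633654202683883521)) (.alt (nat_lit 20) (.exp (.alt (nat_lit 22) (.cov (nat_lit 364032659247597866713088)) (.alt (nat_lit 4) (.cov (nat_lit 174757773320)) .e))) .e))) .e)) .e)) .e)) .e)) (.alt (nat_lit 21) (.cov (nat_lit 27790020732094939922435)) (.alt (nat_lit 21) (.exp (.alt (nat_lit 29) (.exp (.alt (nat_lit 20) (.cov (nat_lit 21744099609881962610690)) (.alt (nat_lit 20) (.cov (nat_lit 4330373318637913112577)) (.alt (nat_lit 20) (.exp (.alt (nat_lit 4) (.cov (nat_lit 3864592901199867412483)) (.alt (nat_lit 22) (.exp (.alt (nat_lit 6) (.exp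 (.alt (nat_lit 30) (.cov (nat_lit 25295097819870363910145)) (.alt (nat_lit 18) (.cov (nat_lit 185012846607)) .e))) .e)) (.alt (nat_lit 22) (.exp (.alt (nat_lit 30) (.cov (nat_lit 25295097819881805971458)) (.alt (nat_lit 6) (.cov (nat_lit 2329935939)) .e))) .e)))) .e)))) .e)) (.alt (nat_lit 19) (.cov (nat_lit 20755516563)) .e))))) .e))))) .e)) .e)) .e)) .e)) (.alt (nat_lit 1) (.cov (nat_lit 345214683885413677924355)) (.alt (nat_lit 1) (.exp (.alt (nat_lit 9) (.exp (.alt (nat_lit 17) (.cov (nat_lit 3062161363418332790804)) (.alt (nat_lit 17) (.cov (nat_lit 104593043779769408159755)) (.alt (nat_lit 17) (.cov (nat_lit 406898289796080391421954)) (.alt (nat_lit 17) (.cov (nat_lit 6530158384015379267585)) (.alt (nat_lit 17) (.exp (.alt (nat_lit 16) (.cov (nat_lit 571850368108696961058)) (.alt (nat_lit 19) (.cov (nat_lit 800132403851551571975)) (.alt (nat_lit 19) (.cov (nat_lit 10244867568757844738051)) (.alt (nat_lit 19) (.exp (.alt (nat_lit 27) (.exp (.alt (nat_lit 18) (.cov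 (nat_lit 2840798732496672915467)) (.alt (nat_lit 18) (.exp (.alt (nat_lit 22) (.exp (.alt (nat_lit 30) (.exp (.alt (nat_lit 6) (.exp (.alt (nat_lit 16) (.cov (nat_lit 3892263017147808088067)) (.alt (nat_lit 26) (.exp (.alt (nat_lit 10) (.exp (.alt (nat_lit 24) (.cov (nat_lit 365383883248798666850305)) (.alt (nat_lit 24) (.exp (.alt (nat_lit 28) (.cov (nat_lit 42990137074775256727552)) (.alt (nat_lit 25) (.cov (nat_lit 3553624072)) .e))) .e))) .e)) (.alt (nat_lit 16) (.cov (nat_lit 9823060560)) .e)))) .e)) .e)) .e)) (.alt (nat_lit 18) (.cov (nat_lit 406921339711553808629761)) (.alt (nat_lit 18) (.exp (.alt (nat_lit 22) (.exp (.alt (nat_lit 30) (.exp (.alt (nat_lit 26) (.exp (.alt (nat_lit 24) (.exp (.alt (nat_lit 10) (.exp (.alt (nat_lit 20) (.cov (nat_lit 102111951828815353741313)) (.alt (nat_lit 6) (.cov (nat_lit 166132187151)) .e))) .e)) .e)) .e)) .e)) (.alt (nat_lit 16) (.cov (nat_lit 47943088267768432164867)) (.alt (nat_lit 16) (.exp (.alt (nat_lit 20) (.exp (.alt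 (nat_lit 24) (.cov (nat_lit 25401166622483430768642)) (.alt (nat_lit 24) (.cov (nat_lit 405597785463625319710721)) (.alt (nat_lit 24) (.exp (.alt (nat_lit 26) (.cov (nat_lit 1913849724036930600963)) (.alt (nat_lit 28) (.exp (.alt (nat_lit 29) (.exp (.alt (nat_lit 30) (.cov (nat_lit 1581808313273073795073)) (.alt (nat_lit 30) (.exp (.alt (nat_lit 14) (.cov (nat_lit 22823234116192271597568)) (.alt (nat_lit 22) (.cov (nat_lit 106954760)) .e))) .e))) .e)) (.alt (nat_lit 26) (.cov (nat_lit 11507073616)) .e)))) .e)))) .e)) (.alt (nat_lit 16) (.cov (nat_lit 156585954450)) .e))))) .e))))) .e)) (.alt (nat_lit 19) (.cov (nat_lit 1806702693)) .e)))))) .e)))))) .e)) (.alt (nat_lit 1) (.cov (nat_lit 183921286686)) .e))))))) .e))))))) .e)) .e)) .e)) .e)) .e)) .e)),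
      .cov (nat_lit 440416091725629497264),
      .cov (nat_lit 1399646781359502925744)])]) (by decide +kernel)
  exact h _ List.mem_cons_self

theorem t31_20 : GF FULL [0, 31] [20, 4] := by
  have h := JT.chkW_ok (zs := [0, 31]) good (by decide) (by decide)
    (L := [([20, 4], [.cov (nat_lit 71481146479764054212),
      .rot (.exp (.alt (nat_lit 31) (.exp (.alt (nat_lit 15) (.exp (.alt (nat_lit 7) (.exp (.alt (nat_lit 11) (.exp (.alt (nat_lit 0) (.cov (nat_lit 45531183171622393610747)) (.alt (nat_lit 0) (.cov (nat_lit 25458823646825286729766)) (.alt (nat_lit 0) (.cov (nat_lit 47966160003967068667938)) (.alt (nat_lit 0) (.exp (.alt (nat_lit 1) (.exp (.alt (nat_lit 3) (.exp (.alt (nat_lit 2) (.exp (.alt (nat_lit 19) (.exp (.alt (nat_lit 4) (.cov (nat_lit 22961586532939485675539)) (.alt (nat_lit 4) (.cov (nat_lit 604135756845658669067)) (.alt (nat_lit 4) (.exp (.alt (nat_lit 5) (.exp (.alt (nat_lit 13) (.exp (.alt (nat_lit 21) (.exp (.alt (nat_lit 12) (.exp (.alt (nat_lit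 8) (.exp (.alt (nat_lit 24) (.exp (.alt (nat_lit 16) (.exp (.alt (nat_lit 25) (.exp (.alt (nat_lit 14) (.cov (nat_lit 142962277722735247361)) (.alt (nat_lit 14) (.exp (.alt (nat_lit 30) (.cov (nat_lit 25285874450032511418368)) (.alt (nat_lit 6) (.cov (nat_lit 123731976)) .e))) .e))) .e)) .e)) .e)) .e)) (.alt (nat_lit 12) (.cov (nat_lit 3016043076065666531331)) (.alt (nat_lit 12) (.exp (.alt (nat_lit 8) (.exp (.alt (nat_lit 28) (.exp (.alt (nat_lit 24) (.exp (.alt (nat_lit 16) (.exp (.alt (nat_lit 25) (.exp (.alt (nat_lit 30) (.cov (nat_lit 2854633656401684070400)) (.alt (nat_lit 20) (.cov (nat_lit 28779216904)) .e))) .e)) .e)) .e)) (.alt (nat_lit 14) (.cov (nat_lit 1618701937759917965313)) (.alt (nat_lit 14) (.exp (.alt (nat_lit 30) (.cov (nat_lit 133738912127308005379)) (.alt (nat_lit 30) (.exp (.alt (nat_lit 28) (.exp (.alt (nat_lit 26) (.cov (nat_lit 6401020202373930287105)) (.alt (nat_lit 22) (.cov (nat_lit 11494490127)) .e))) .e)) (.alt (nat_lit 10) (.cov (nat_lit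 11569987775)) .e)))) .e)))) .e)) (.alt (nat_lit 6) (.cov (nat_lit 156478999703)) .e))))) .e)) .e)) .e)) (.alt (nat_lit 4) (.cov (nat_lit 104676054930739978829825)) (.alt (nat_lit 4) (.exp (.alt (nat_lit 12) (.exp (.alt (nat_lit 8) (.cov (nat_lit 22371500655609535373911519578292225)) (.alt (nat_lit 8) (.cov (nat_lit 406925951314030511521803)) .e))) (.alt (nat_lit 5) (.cov (nat_lit 6541679913475123445767)) (.alt (nat_lit 5) (.cov (nat_lit 122216766940292055043)) (.alt (nat_lit 5) (.exp (.alt (nat_lit 13) (.exp (.alt (nat_lit 21) (.cov (nat_lit 344114787470352292249611)) (.alt (nat_lit 21) (.cov (nat_lit 6707699160982895984642)) (.alt (nat_lit 21) (.cov (nat_lit 7793754252973930708993)) (.alt (nat_lit 21) (.exp (.alt (nat_lit 29) (.exp (.alt (nat_lit 28) (.exp (.alt (nat_lit 30) (.exp (.alt (nat_lit 14) (.exp (.alt (nat_lit 22) (.exp (.alt (nat_lit 25) (.cov (nat_lit 25290486133851897724929)) (.alt (nat_lit 25) (.exp (.alt (nat_lit 24) (.cov (nat_lit 25272039391977210380288))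 (.alt (nat_lit 9) (.cov (nat_lit 19604176904)) .e))) .e))) .e)) .e)) .e)) .e)) (.alt (nat_lit 29) (.cov (nat_lit 25521070846000397025283)) (.alt (nat_lit 17) (.cov (nat_lit 4316541409583921364992)) (.alt (nat_lit 23) (.cov (nat_lit 37268491415)) .e))))) .e))))) .e)) (.alt (nat_lit 5) (.exp (.alt (nat_lit 13) (.cov (nat_lit 21907814577885419667476)) (.alt (nat_lit 13) (.cov (nat_lit 322821317627082702850)) (.alt (nat_lit 13) (.exp (.alt (nat_lit 29) (.cov (nat_lit 23005397004758934355975)) (.alt (nat_lit 9) (.cov (nat_lit 7618512376699884142592)) .e))) .e)))) .e)))))) .e)))))) .e)) .e)) .e)) .e)) (.alt (nat_lit 0) (.cov (nat_lit 9238340788157415427)) (.alt (nat_lit 0) (.exp (.alt (nat_lit 1) (.exp (.alt (nat_lit 2) (.cov (nat_lit 384296408718676561232089)) (.alt (nat_lit 2) (.cov (nat_lit 115301166467652780053)) (.alt (nat_lit 2) (.cov (nat_lit 26512595940355768057867)) (.alt (nat_lit 4) (.exp (.alt (nat_lit 5) (.exp (.alt (nat_lit 13) (.exp (.alt (nat_lit 21) (.exp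 (.alt (nat_lit 20) (.cov (nat_lit 3062159601999466725410)) (.alt (nat_lit 6) (.cov (nat_lit 3002210894333446455303)) (.alt (nat_lit 6) (.cov (nat_lit 41841834323847740915715)) (.alt (nat_lit 6) (.exp (.alt (nat_lit 2) (.exp (.alt (nat_lit 14) (.cov (nat_lit 2905362336746095771659)) (.alt (nat_lit 14) (.cov (nat_lit 2679391423897354108930)) (.alt (nat_lit 14) (.cov (nat_lit 3020657638405843189761)) (.alt (nat_lit 14) (.exp (.alt (nat_lit 10) (.exp (.alt (nat_lit 8) (.exp (.alt (nat_lit 24) (.exp (.alt (nat_lit 28) (.exp (.alt (nat_lit 25) (.exp (.alt (nat_lit 26) (.cov (nat_lit 41505182971735310337)) (.alt (nat_lit 26) (.exp (.alt (nat_lit 18) (.cov (nat_lit 1371976601477280956416)) (.alt (nat_lit 30) (.cov (nat_lit 627048456)) .e))) .e))) .e)) .e)) .e)) .e)) (.alt (nat_lit 10) (.cov (nat_lit 3970662447073655259139)) (.alt (nat_lit 10) (.exp (.alt (nat_lit 8) (.exp (.alt (nat_lit 26) (.cov (nat_lit 631801017521408049154)) (.alt (nat_lit 26) (.cov (nat_lit 25276651214344867020801))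 (.alt (nat_lit 26) (.exp (.alt (nat_lit 30) (.cov (nat_lit 21905508605122905636867)) (.alt (nat_lit 18) (.exp (.alt (nat_lit 22) (.exp (.alt (nat_lit 16) (.cov (nat_lit 25274345232797177741313)) (.alt (nat_lit 19) (.cov (nat_lit 219152399)) .e))) .e)) (.alt (nat_lit 18) (.exp (.alt (nat_lit 16) (.cov (nat_lit 25274345232798889017346)) (.alt (nat_lit 22) (.cov (nat_lit 9953083459)) .e))) .e)))) .e)))) .e)) (.alt (nat_lit 10) (.exp (.alt (nat_lit 26) (.cov (nat_lit 3979885293387598790658)) (.alt (nat_lit 8) (.cov (nat_lit 11500783784)) .e))) .e))))) .e))))) .e)) (.alt (nat_lit 6) (.cov (nat_lit 9867106773)) .e)))))) .e)) .e)) .e)) (.alt (nat_lit 4) (.cov (nat_lit 46132598593726447617)) (.alt (nat_lit 2) (.exp (.alt (nat_lit 6) (.cov (nat_lit 406819885411908779507750)) (.alt (nat_lit 6) (.cov (nat_lit 26743174297317885870114)) (.alt (nat_lit 6) (.exp (.alt (nat_lit 4) (.exp (.alt (nat_lit 5) (.exp (.alt (nat_lit 13) (.exp (.alt (nat_lit 21) (.exp (.alt (nat_lit 14) (.cov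 (nat_lit 2905362336746095771659)) (.alt (nat_lit 14) (.cov (nat_lit 2679391423897354108930)) (.alt (nat_lit 14) (.cov (nat_lit 3020657638405843189761)) (.alt (nat_lit 14) (.exp (.alt (nat_lit 10) (.exp (.alt (nat_lit 8) (.exp (.alt (nat_lit 24) (.exp (.alt (nat_lit 28) (.exp (.alt (nat_lit 25) (.exp (.alt (nat_lit 26) (.cov (nat_lit 41505182971735310337)) (.alt (nat_lit 26) (.exp (.alt (nat_lit 18) (.cov (nat_lit 1371976601477280956416)) (.alt (nat_lit 30) (.cov (nat_lit 627048456)) .e))) .e))) .e)) .e)) .e)) .e)) (.alt (nat_lit 10) (.cov (nat_lit 3970662447073655259139)) (.alt (nat_lit 10) (.exp (.alt (nat_lit 8) (.exp (.alt (nat_lit 26) (.cov (nat_lit 631801017521408049154)) (.alt (nat_lit 26) (.cov (nat_lit 25276651214344867020801)) (.alt (nat_lit 26) (.exp (.alt (nat_lit 30) (.cov (nat_lit 21905508605122905636867)) (.alt (nat_lit 18) (.exp (.alt (nat_lit 22) (.exp (.alt (nat_lit 16) (.cov (nat_lit 25274345232797177741313)) (.alt (nat_lit 19) (.cov (nat_lit 219152399))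 .e))) .e)) (.alt (nat_lit 18) (.exp (.alt (nat_lit 16) (.cov (nat_lit 25274345232798889017346)) (.alt (nat_lit 22) (.cov (nat_lit 9953083459)) .e))) .e)))) .e)))) .e)) (.alt (nat_lit 10) (.exp (.alt (nat_lit 26) (.cov (nat_lit 3979885293387598790658)) (.alt (nat_lit 8) (.cov (nat_lit 11500783784)) .e))) .e))))) .e))))) .e)) .e)) .e)) .e)) (.alt (nat_lit 6) (.cov (nat_lit 350202227253349311315971)) (.alt (nat_lit 6) (.exp (.alt (nat_lit 4) (.exp (.alt (nat_lit 14) (.cov (nat_lit 2679391423887791095827)) (.alt (nat_lit 14) (.cov (nat_lit 1503412938344495054859)) (.alt (nat_lit 14) (.cov (nat_lit 25451904153895305216002)) (.alt (nat_lit 14) (.cov (nat_lit 364334177377914454017)) (.alt (nat_lit 14) (.exp (.alt (nat_lit 30) (.cov (nat_lit 350183766543279341961250)) (.alt (nat_lit 10) (.cov (nat_lit 1494189566306998550535)) (.alt (nat_lit 10) (.cov (nat_lit 25295104876536118902787)) (.alt (nat_lit 10) (.exp (.alt (nat_lit 8) (.exp (.alt (nat_lit 26) (.cov (nat_lit 3972967764360662351883))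 (.alt (nat_lit 26) (.exp (.alt (nat_lit 18) (.exp (.alt (nat_lit 16) (.exp (.alt (nat_lit 22) (.exp (.alt (nat_lit 24) (.cov (nat_lit 7812196132819682983939)) (.alt (nat_lit 27) (.exp (.alt (nat_lit 19) (.exp (.alt (nat_lit 25) (.cov (nat_lit 6412549417419989319681)) (.alt (nat_lit 25) (.exp (.alt (nat_lit 29) (.cov (nat_lit 42992442917784469372928)) (.alt (nat_lit 9) (.cov (nat_lit 157048373256)) .e))) .e))) .e)) (.alt (nat_lit 24) (.cov (nat_lit 156557640273)) .e)))) .e)) .e)) .e)) (.alt (nat_lit 26) (.cov (nat_lit 1383510715947768872961)) (.alt (nat_lit 26) (.exp (.alt (nat_lit 30) (.cov (nat_lit 50728686987765612551)) (.alt (nat_lit 30) (.cov (nat_lit 104694496410352629055491)) (.alt (nat_lit 30) (.exp (.alt (nat_lit 22) (.exp (.alt (nat_lit 28) (.cov (nat_lit 415051774664480129026)) (.alt (nat_lit 28) (.cov (nat_lit 347898675844071638958081)) (.alt (nat_lit 28) (.exp (.alt (nat_lit 24) (.cov (nat_lit 347815665370395045789699)) (.alt (nat_lit 29) (.exp (.alt (nat_lit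 13) (.exp (.alt (nat_lit 25) (.cov (nat_lit 1588725842154117660673)) (.alt (nat_lit 25) (.exp (.alt (nat_lit 17) (.cov (nat_lit 191384980759869652992)) (.alt (nat_lit 24) (.cov (nat_lit 16777224)) .e))) .e))) .e)) (.alt (nat_lit 24) (.cov (nat_lit 21803041360)) .e)))) .e)))) .e)) (.alt (nat_lit 30) (.cov (nat_lit 18947771537)) .e))))) .e))))) .e)) (.alt (nat_lit 10) (.cov (nat_lit 3565164642)) .e)))))) .e)))))) .e)) (.alt (nat_lit 6) (.cov (nat_lit 4201111)) .e))))))) .e))))))) .e)) (.alt (nat_lit 0) (.exp (.alt (nat_lit 1) (.cov (nat_lit 104576901293204875247843)) (.alt (nat_lit 1) (.cov (nat_lit 10221814216054803529747)) (.alt (nat_lit 4) (.cov (nat_lit 46133185732935680002)) (.alt (nat_lit 1) (.cov (nat_lit 5250851)) .e))))) .e)))))))) .e)) .e)) .e)) .e)),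
      .cov (nat_lit 71481146479764054212),
      .rot (.exp (.alt (nat_lit 31) (.exp (.alt (nat_lit 15) (.exp (.alt (nat_lit 7) (.exp (.alt (nat_lit 11) (.exp (.alt (nat_lit 0) (.cov (nat_lit 534960917522406179323)) (.alt (nat_lit 0) (.cov (nat_lit 343849622449034690036682)) (.alt (nat_lit 0) (.exp (.alt (nat_lit 1) (.cov (nat_lit 20307792210549986659850653794306)) (.alt (nat_lit 1) (.cov (nat_lit 53241348067955071335625315861921793)) (.alt (nat_lit 1) (.cov (nat_lit 47876650751967720900799244553682944)) (.alt (nat_lit 1) (.cov (nat_lit 21771780098773761392733)) .e))))) (.alt (nat_lit 0) (.cov (nat_lit 4623936777000845350)) (.alt (nat_lit 0) (.cov (nat_lit 740188613180169125982)) (.alt (nat_lit 0) (.cov (nat_lit 2319619890530484258)) (.alt (nat_lit 0) (.cov (nat_lit 740190024953099190308)) (.alt (nat_lit 0) (.cov (nat_lit 2321361516344901647)) (.alt (nat_lit 0) (.cov (nat_lit 4628781225232826375)) (.alt (nat_lit 0) (.cov (nat_lit 2322474222112210950)) (.alt (nat_lit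 0) (.cov (nat_lit 9240363889552523267)) (.alt (nat_lit 0) (.cov (nat_lit 2323070157401882626)) (.alt (nat_lit 0) (.cov (nat_lit 29000605196032489291777)) (.alt (nat_lit 0) (.exp (.alt (nat_lit 1) (.exp (.alt (nat_lit 2) (.cov (nat_lit 22749452012932973986258)) (.alt (nat_lit 2) (.cov (nat_lit 365333159575631215722713)) (.alt (nat_lit 2) (.cov (nat_lit 45540406512825357303901)) (.alt (nat_lit 2) (.cov (nat_lit 344082516104784954523683)) (.alt (nat_lit 2) (.cov (nat_lit 13848129049699811344)) (.alt (nat_lit 2) (.cov (nat_lit 13844107035997634578)) (.alt (nat_lit 2) (.cov (nat_lit 2891538124272222339083)) (.alt (nat_lit 2) (.cov (nat_lit 10122665183264133611526)) (.alt (nat_lit 2) (.cov (nat_lit 13850578761438724099)) (.alt (nat_lit 2) (.cov (nat_lit 13850710702834057218)) (.alt (nat_lit 2) (.cov (nat_lit 13850798663764279297)) (.alt (nat_lit 2) (.cov (nat_lit 13852023519701893120)) (.alt (nat_lit 2) (.exp (.alt (nat_lit 6) (.exp (.alt (nat_lit 4) (.cov (nat_lit 1734152051240597855852548098883586))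 (.alt (nat_lit 4) (.cov (nat_lit 6399106303595834814418179237871617)) (.alt (nat_lit 4) (.cov (nat_lit 894606385655056853246307179808423936)) (.alt (nat_lit 4) (.cov (nat_lit 406819883962751579586653)) .e))))) (.alt (nat_lit 6) (.cov (nat_lit 9228363821010124838)) (.alt (nat_lit 6) (.cov (nat_lit 406819885411907907092574)) (.alt (nat_lit 6) (.cov (nat_lit 26743174297317885870114)) (.alt (nat_lit 6) (.cov (nat_lit 26743174297317281890340)) (.alt (nat_lit 6) (.cov (nat_lit 32292344246501900303)) (.alt (nat_lit 6) (.cov (nat_lit 9235624994457780231)) (.alt (nat_lit 6) (.cov (nat_lit 32294875322269040646)) (.alt (nat_lit 6) (.cov (nat_lit 32297646091571036163)) (.alt (nat_lit 6) (.cov (nat_lit 525741646507581374466)) (.alt (nat_lit 6) (.cov (nat_lit 1360462777394965512193)) (.alt (nat_lit 6) (.cov (nat_lit 10214900264828061876224)) (.alt (nat_lit 3) (.cov (nat_lit 19930417)) .e)))))))))))))) .e)))))))))))))) .e)) (.alt (nat_lit 0) (.cov (nat_lit 1056913)) .e))))))))))))))))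 .e)) .e)) .e)) .e)),
      .cov (nat_lit 71481146479764054212),
      .cov (nat_lit 71481148678787309782),
      .cov (nat_lit 71481146479764054212),
      .cov (nat_lit 71481148678787309783),
      .cov (nat_lit 71481146479764054212),
      .cov (nat_lit 71481148678787309784),
      .cov (nat_lit 71481146479764054212),
      .cov (nat_lit 71481148678787309785),
      .cov (nat_lit 71481146479764054212),
      .cov (nat_lit 71481148678787309746)])]) (by decide +kernel)
  exact h _ List.mem_cons_self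

end K2

end Pool.Agent.Work.MP_bf01b2_co.MR
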