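import Pool.Agent.Work.MP_bf01b2_co.MR.K2I

/-!
# Two roots in `Q_5`: certificates of the special vectors, part 4
-/

set_option autoImplicit false
set_option maxRecDepth 100000

namespace Pool.Agent.Work.MP_bf01b2_co.MR

namespace K2

open Tab Exc K4

theorem t31_21 : GF FULL [0, 31] [21, 3] := by
  have h := JT.chkW_ok (zs := [0, 31]) good (by decide) (by decide)
    (L := [([21, 3], [.cov (nat_lit 71481137683671031935),
      .rot (.exp (.alt (nat_lit 31) (.exp (.alt (nat_lit 15) (.exp (.alt (nat_lit 7) (.exp (.alt (nat_lit 0) (.cov (nat_lit 26646324079470925841415)) (.alt (nat_lit 0) (.cov (nat_lit 742495181867048763430)) (.alt (nat_lit 0) (.cov (nat_lit 9238340788425850887)) (.alt (nat_lit 0) (.exp (.alt (nat_lit 1) (.exp (.alt (nat_lit 2) (.cov (nat_lit 3850762773189246320867)) (.alt (nat_lit 2) (.cov (nat_lit 29113585990532667015186)) (.alt (nat_lit 8) (.cov (nat_lit 645651780989988372482)) (.alt (nat_lit 2) (.cov (nat_lit 6299215)) .e))))) .e)) .e))))) .e)) .e))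 .e)),
      .cov (nat_lit 71481137683671032069),
      .cov (nat_lit 71481139882694287622),
      .cov (nat_lit 71481137683671032071),
      .cov (nat_lit 71481139882694287624),
      .cov (nat_lit 71481137683671032073),
      .cov (nat_lit 71481139882694287626),
      .cov (nat_lit 71481137683671032075),
      .cov (nat_lit 71481139882694287628),
      .cov (nat_lit 440416019157862064397),
      .cov (nat_lit 71481139882694287630),
      .rot (.exp (.alt (nat_lit 31) (.exp (.alt (nat_lit 15) (.exp (.alt (nat_lit 23) (.exp (.alt (nat_lit 0) (.exp (.alt (nat_lit 1) (.cov (nat_lit 94516036959205333035921355163303943)) (.alt (nat_lit 1) (.cov (nat_lit 58291660757697677566136257558347779)) (.alt (nat_lit 1) (.cov (nat_lit 52916825133493764356877119405424641)) (.alt (nat_lit 1) (.exp (.alt (nat_lit 3) (.exp (.alt (nat_lit 5) (.cov (nat_lit 821449334871573385504787121831938)) (.alt (nat_lit 5) (.cov (nat_lit 81148081787309633343261554769921)) (.alt (nat_lit 5) (.cov (nat_lit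 105478689659800682429289939823755264)) (.alt (nat_lit 5) (.cov (nat_lit 45397444239669136982109)) .e))))) .e)) (.alt (nat_lit 1) (.cov (nat_lit 23178342346477360120315)) .e)))))) (.alt (nat_lit 0) (.cov (nat_lit 26639413303659777229772)) (.alt (nat_lit 0) (.cov (nat_lit 36902774622628348371)) (.alt (nat_lit 0) (.cov (nat_lit 2316565456388882659)) (.alt (nat_lit 0) (.cov (nat_lit 404431038022668186026201)) (.alt (nat_lit 0) (.cov (nat_lit 2320334572752994397)) (.alt (nat_lit 0) (.cov (nat_lit 756332425751610523683)) (.alt (nat_lit 0) (.cov (nat_lit 18459401651740475408)) (.alt (nat_lit 0) (.cov (nat_lit 2321497859330932756)) (.alt (nat_lit 0) (.cov (nat_lit 2322170757162991627)) (.alt (nat_lit 0) (.cov (nat_lit 350195312536872227438598)) (.alt (nat_lit 0) (.cov (nat_lit 9241151139878010883)) (.alt (nat_lit 0) (.exp (.alt (nat_lit 1) (.exp (.alt (nat_lit 3) (.exp (.alt (nat_lit 5) (.exp (.alt (nat_lit 2) (.exp (.alt (nat_lit 10) (.cov (nat_lit 9502315040654358617574236802252802))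 (.alt (nat_lit 6) (.cov (nat_lit 889069287838097204637200913816092673)) (.alt (nat_lit 6) (.cov (nat_lit 63818605880285285826742539402608640)) (.alt (nat_lit 6) (.exp (.alt (nat_lit 4) (.cov (nat_lit 102639139834243361493442042875871235)) (.alt (nat_lit 4) (.cov (nat_lit 91564944132616092586085390215020545)) (.alt (nat_lit 4) (.cov (nat_lit 889069287838096978664594806931456000)) (.alt (nat_lit 4) (.exp (.alt (nat_lit 12) (.cov (nat_lit 764981507884935906573853616192356353)) (.alt (nat_lit 12) (.cov (nat_lit 63258499859149733494795)) .e))) .e))))) .e))))) (.alt (nat_lit 2) (.cov (nat_lit 5335725708507032322086)) (.alt (nat_lit 2) (.cov (nat_lit 5178928317909266595934)) (.alt (nat_lit 2) (.cov (nat_lit 27757743490749765255202)) (.alt (nat_lit 2) (.cov (nat_lit 25276658132462277230628)) (.alt (nat_lit 2) (.cov (nat_lit 10224118379000352473103)) (.alt (nat_lit 2) (.cov (nat_lit 13846070764033277959)) (.alt (nat_lit 2) (.cov (nat_lit 235209154691061514246)) (.alt (nat_lit 2)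 (.cov (nat_lit 406801447811372881543171)) (.alt (nat_lit 2) (.cov (nat_lit 6590113031242741972994)) (.alt (nat_lit 2) (.cov (nat_lit 10205676591525023186945)) (.alt (nat_lit 2) (.cov (nat_lit 23075272411257503744)) (.alt (nat_lit 2) (.cov (nat_lit 156470615345)) .e)))))))))))))) .e)) .e)) .e)) (.alt (nat_lit 0) (.cov (nat_lit 2323824422376439809)) (.alt (nat_lit 0) (.cov (nat_lit 4629992887030906880)) (.alt (nat_lit 0) (.exp (.alt (nat_lit 1) (.cov (nat_lit 6924689047647420923)) (.alt (nat_lit 1) (.cov (nat_lit 6384886357987630777294)) (.alt (nat_lit 1) (.exp (.alt (nat_lit 3) (.cov (nat_lit 230007615363208542240123677267984386)) (.alt (nat_lit 3) (.cov (nat_lit 64016378348816028716254355686162433)) (.alt (nat_lit 3) (.cov (nat_lit 25375851039013978152710990462976)) (.alt (nat_lit 3) (.cov (nat_lit 611058783428753227869)) .e))))) (.alt (nat_lit 1) (.cov (nat_lit 4212786181755571798054)) (.alt (nat_lit 1) (.cov (nat_lit 6930604420204855390)) (.alt (nat_lit 1) (.cov (nat_lit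 6932240503002890274)) (.alt (nat_lit 1) (.cov (nat_lit 744801957262123860004)) (.alt (nat_lit 1) (.cov (nat_lit 6933051932811460623)) (.alt (nat_lit 1) (.cov (nat_lit 6934626433462435847)) (.alt (nat_lit 1) (.cov (nat_lit 365326253598072395268102)) (.alt (nat_lit 1) (.cov (nat_lit 365326253598072395268099)) (.alt (nat_lit 1) (.cov (nat_lit 41991724270137793052674)) (.alt (nat_lit 1) (.cov (nat_lit 104641479274676553252865)) (.alt (nat_lit 1) (.exp (.alt (nat_lit 3) (.exp (.alt (nat_lit 5) (.cov (nat_lit 378159375015880950224)) (.alt (nat_lit 5) (.cov (nat_lit 9226679370805936345)) (.alt (nat_lit 5) (.cov (nat_lit 6670810906522216824925)) (.alt (nat_lit 5) (.cov (nat_lit 3034499794908163866659)) (.alt (nat_lit 5) (.cov (nat_lit 378171322306267185168)) (.alt (nat_lit 5) (.cov (nat_lit 43100826568453499387924)) (.alt (nat_lit 5) (.cov (nat_lit 6650062244683868798987)) (.alt (nat_lit 5) (.cov (nat_lit 104639170133132634488838)) (.alt (nat_lit 5) (.cov (nat_lit 7777623874235702181891))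 (.alt (nat_lit 5) (.cov (nat_lit 9239519464801697794)) (.alt (nat_lit 5) (.cov (nat_lit 63117856431814915129345)) (.alt (nat_lit 5) (.cov (nat_lit 29993188466989465600)) (.alt (nat_lit 5) (.exp (.alt (nat_lit 4) (.exp (.alt (nat_lit 12) (.cov (nat_lit 139319877708826506231167144637235202)) (.alt (nat_lit 6) (.cov (nat_lit 99850306545605230935777445970706433)) (.alt (nat_lit 6) (.cov (nat_lit 769981119845823669142102013800087552)) (.alt (nat_lit 6) (.exp (.alt (nat_lit 2) (.cov (nat_lit 891878403536338982253603439945711619)) (.alt (nat_lit 2) (.cov (nat_lit 800485865804249844088818660110499841)) (.alt (nat_lit 2) (.cov (nat_lit 99850306545603745972888307836649472)) (.alt (nat_lit 2) (.exp (.alt (nat_lit 10) (.cov (nat_lit 58839276329001539252113544807710721)) (.alt (nat_lit 10) (.cov (nat_lit 4233530509300277968907)) .e))) .e))))) .e))))) (.alt (nat_lit 4) (.cov (nat_lit 82078792741166323335206)) (.alt (nat_lit 4) (.cov (nat_lit 81917383664543687770206)) (.alt (nat_lit 4)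 (.cov (nat_lit 348878664325876515078178)) (.alt (nat_lit 4) (.cov (nat_lit 2850029024850462375972)) (.alt (nat_lit 4) (.cov (nat_lit 104676059722412256657423)) (.alt (nat_lit 4) (.cov (nat_lit 382780952240910761991)) (.alt (nat_lit 4) (.cov (nat_lit 3924557969433141706758)) (.alt (nat_lit 4) (.cov (nat_lit 47901595113280015171587)) (.alt (nat_lit 4) (.cov (nat_lit 691766613674280615938)) (.alt (nat_lit 4) (.cov (nat_lit 104657617934936354848769)) (.alt (nat_lit 4) (.cov (nat_lit 396621839903875923968)) (.alt (nat_lit 7) (.cov (nat_lit 156470615345)) .e)))))))))))))) .e)))))))))))))) .e)) (.alt (nat_lit 1) (.cov (nat_lit 3154027)) .e)))))))))))))))) .e))))))))))))))))) .e)) .e)) .e)),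
      .cov (nat_lit 71481139882694287631),
      .rot (.exp (.alt (nat_lit 31) (.exp (.alt (nat_lit 15) (.exp (.alt (nat_lit 23) (.exp (.alt (nat_lit 0) (.cov (nat_lit 26639413303640181441023)) (.alt (nat_lit 0) (.cov (nat_lit 102204191225019459698905)) (.alt (nat_lit 0) (.exp (.alt (nat_lit 1) (.exp (.alt (nat_lit 3) (.exp (.alt (nat_lit 5) (.exp (.alt (nat_lit 4) (.exp (.alt (nat_lit 6) (.exp (.alt (nat_lit 12) (.exp (.alt (nat_lit 8) (.cov (nat_lit 22970809447570179358754)) (.alt (nat_lit 2) (.cov (nat_lit 404301904848045605912583)) (.alt (nat_lit 2) (.cov (nat_lit 25276658132462243676163)) (.alt (nat_lit 2) (.exp (.alt (nat_lit 10) (.exp (.alt (nat_lit 18) (.cov (nat_lit 45637245097842906759179)) (.alt (nat_lit 18) (.exp (.alt (nat_lit 16) (.exp (.alt (nat_lit 17) (.exp (.alt (nat_lit 20) (.exp (.alt (nat_lit 26) (.cov (nat_lit 102102728465574619250691)) (.alt (nat_lit 26) (.exp (.alt (nat_lit 27) (.exp (.alt (nat_lit 24) (.cov (nat_lit 433498496727299129345)) (.alt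 (nat_lit 30) (.cov (nat_lit 47575990287)) .e))) .e)) (.alt (nat_lit 19) (.cov (nat_lit 900727141)) .e)))) .e)) .e)) .e)) (.alt (nat_lit 18) (.cov (nat_lit 650248232174603993089)) (.alt (nat_lit 18) (.exp (.alt (nat_lit 16) (.exp (.alt (nat_lit 17) (.exp (.alt (nat_lit 25) (.exp (.alt (nat_lit 9) (.exp (.alt (nat_lit 27) (.exp (.alt (nat_lit 20) (.cov (nat_lit 1614090115255465148417)) (.alt (nat_lit 20) (.exp (.alt (nat_lit 28) (.cov (nat_lit 406842940556659307577344)) (.alt (nat_lit 21) (.cov (nat_lit 365953036)) .e))) .e))) .e)) .e)) .e)) .e)) (.alt (nat_lit 19) (.cov (nat_lit 1980719929966050934787)) (.alt (nat_lit 19) (.exp (.alt (nat_lit 17) (.exp (.alt (nat_lit 27) (.cov (nat_lit 25442671796669910089730)) (.alt (nat_lit 27) (.cov (nat_lit 6550900134311684472833)) (.alt (nat_lit 27) (.exp (.alt (nat_lit 26) (.cov (nat_lit 7655398808193157038083)) (.alt (nat_lit 25) (.exp (.alt (nat_lit 9) (.exp (.alt (nat_lit 29) (.cov (nat_lit 1614090115245700808705)) (.alt (nat_lit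 29) (.exp (.alt (nat_lit 28) (.cov (nat_lit 25281262764014081933312)) (.alt (nat_lit 21) (.cov (nat_lit 121634824)) .e))) .e))) .e)) (.alt (nat_lit 26) (.cov (nat_lit 185010750052)) .e)))) .e)))) .e)) (.alt (nat_lit 19) (.cov (nat_lit 17829682)) .e))))) .e))))) .e)) (.alt (nat_lit 2) (.cov (nat_lit 9976158299)) .e)))))) .e)) .e)) .e)) .e)) .e)) .e)) (.alt (nat_lit 0) (.cov (nat_lit 18459408248642469899)) (.alt (nat_lit 0) (.exp (.alt (nat_lit 1) (.exp (.alt (nat_lit 3) (.exp (.alt (nat_lit 5) (.exp (.alt (nat_lit 2) (.exp (.alt (nat_lit 10) (.cov (nat_lit 3985500736202119249064437590523906)) (.alt (nat_lit 6) (.cov (nat_lit 29021343410483380617236)) .e))) (.alt (nat_lit 2) (.cov (nat_lit 27757741740327253835810)) (.alt (nat_lit 2) (.exp (.alt (nat_lit 6) (.exp (.alt (nat_lit 4) (.exp (.alt (nat_lit 12) (.exp (.alt (nat_lit 20) (.exp (.alt (nat_lit 10) (.cov (nat_lit 345200839633242886766603)) (.alt (nat_lit 10) (.exp (.alt (nat_lit 11) (.exp (.alt (nat_lit 9) (.exp (.alt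 (nat_lit 27) (.exp (.alt (nat_lit 26) (.cov (nat_lit 1383505823120421289987)) (.alt (nat_lit 26) (.exp (.alt (nat_lit 18) (.exp (.alt (nat_lit 24) (.cov (nat_lit 433498496727307517953)) (.alt (nat_lit 30) (.cov (nat_lit 2982150159)) .e))) .e)) (.alt (nat_lit 26) (.exp (.alt (nat_lit 24) (.cov (nat_lit 433498496727307517954)) (.alt (nat_lit 18) (.cov (nat_lit 10385096771)) .e))) .e)))) .e)) .e)) .e)) (.alt (nat_lit 10) (.cov (nat_lit 1830844222351215689729)) (.alt (nat_lit 10) (.exp (.alt (nat_lit 8) (.exp (.alt (nat_lit 9) (.exp (.alt (nat_lit 25) (.exp (.alt (nat_lit 17) (.exp (.alt (nat_lit 29) (.exp (.alt (nat_lit 24) (.cov (nat_lit 502673787003751890945)) (.alt (nat_lit 24) (.exp (.alt (nat_lit 26) (.cov (nat_lit 3979885044897980350464)) (.alt (nat_lit 16) (.cov (nat_lit 656408584)) .e))) .e))) .e)) .e)) .e)) .e)) (.alt (nat_lit 8) (.cov (nat_lit 1826228083331332833283)) (.alt (nat_lit 11) (.exp (.alt (nat_lit 9) (.exp (.alt (nat_lit 27) (.cov (nat_lit 426580989689902137346))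 (.alt (nat_lit 27) (.cov (nat_lit 426581192000041648129)) (.alt (nat_lit 27) (.exp (.alt (nat_lit 19) (.cov (nat_lit 262866120643840049155)) (.alt (nat_lit 25) (.exp (.alt (nat_lit 17) (.exp (.alt (nat_lit 24) (.cov (nat_lit 6410243576609235795969)) (.alt (nat_lit 29) (.cov (nat_lit 11572084751)) .e))) .e)) (.alt (nat_lit 25) (.exp (.alt (nat_lit 24) (.cov (nat_lit 6410243576609202241538)) (.alt (nat_lit 17) (.cov (nat_lit 1795162179)) .e))) .e)))) .e)))) .e)) (.alt (nat_lit 14) (.cov (nat_lit 1407192211)) .e))))) .e))))) .e)) .e)) .e)) .e)) (.alt (nat_lit 2) (.cov (nat_lit 21937804100580564533251)) (.alt (nat_lit 2) (.exp (.alt (nat_lit 6) (.exp (.alt (nat_lit 10) (.cov (nat_lit 24234411878413733199891)) (.alt (nat_lit 10) (.cov (nat_lit 92234226146809479179)) (.alt (nat_lit 10) (.cov (nat_lit 406847561260872251736066)) (.alt (nat_lit 10) (.cov (nat_lit 29132032734606374469633)) (.alt (nat_lit 10) (.exp (.alt (nat_lit 8) (.cov (nat_lit 344096341968733608083490)) (.alt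 (nat_lit 11) (.cov (nat_lit 1496495409318528548871)) (.alt (nat_lit 11) (.cov (nat_lit 652560641467419197443)) (.alt (nat_lit 11) (.exp (.alt (nat_lit 9) (.exp (.alt (nat_lit 27) (.cov (nat_lit 104613791630151635697675)) (.alt (nat_lit 27) (.exp (.alt (nat_lit 25) (.exp (.alt (nat_lit 17) (.exp (.alt (nat_lit 29) (.exp (.alt (nat_lit 26) (.cov (nat_lit 3966049993458695798787)) (.alt (nat_lit 26) (.exp (.alt (nat_lit 24) (.exp (.alt (nat_lit 30) (.cov (nat_lit 1600255057190444859393)) (.alt (nat_lit 18) (.cov (nat_lit 12136218639)) .e))) .e)) (.alt (nat_lit 26) (.cov (nat_lit 158200758629)) .e)))) .e)) .e)) .e)) (.alt (nat_lit 27) (.cov (nat_lit 404557850629308758884353)) (.alt (nat_lit 27) (.exp (.alt (nat_lit 25) (.exp (.alt (nat_lit 29) (.exp (.alt (nat_lit 28) (.exp (.alt (nat_lit 30) (.exp (.alt (nat_lit 12) (.exp (.alt (nat_lit 17) (.cov (nat_lit 21877838482414664417281)) (.alt (nat_lit 17) (.exp (.alt (nat_lit 16) (.cov (nat_lit 1595643373371017658368)) (.alt (nat_lit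 19) (.cov (nat_lit 11561598984)) .e))) .e))) .e)) .e)) .e)) .e)) (.alt (nat_lit 25) (.cov (nat_lit 48016875243880697561091)) (.alt (nat_lit 25) (.exp (.alt (nat_lit 29) (.exp (.alt (nat_lit 24) (.exp (.alt (nat_lit 28) (.exp (.alt (nat_lit 30) (.exp (.alt (nat_lit 12) (.exp (.alt (nat_lit 16) (.cov (nat_lit 189079137750657007616)) (.alt (nat_lit 26) (.cov (nat_lit 52428808)) .e))) .e)) .e)) .e)) (.alt (nat_lit 17) (.cov (nat_lit 347868699887150279163905)) (.alt (nat_lit 17) (.exp (.alt (nat_lit 16) (.cov (nat_lit 21734876222606014414851)) (.alt (nat_lit 16) (.exp (.alt (nat_lit 18) (.exp (.alt (nat_lit 24) (.cov (nat_lit 365383883248798667898881)) (.alt (nat_lit 24) (.exp (.alt (nat_lit 28) (.cov (nat_lit 404306513246524234792960)) (.alt (nat_lit 26) (.cov (nat_lit 12144607240)) .e))) .e))) .e)) (.alt (nat_lit 21) (.cov (nat_lit 1967128767)) .e)))) .e)))) .e)) (.alt (nat_lit 19) (.cov (nat_lit 18877591)) .e))))) .e))))) .e)) (.alt (nat_lit 11) (.cov (nat_lit 11585722459))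 .e)))))) .e)))))) .e)) (.alt (nat_lit 2) (.cov (nat_lit 10493596)) .e))))))) .e)) .e)) .e)) (.alt (nat_lit 0) (.cov (nat_lit 2323824422376439809)) (.alt (nat_lit 0) (.exp (.alt (nat_lit 1) (.cov (nat_lit 27755434571310472102395)) (.alt (nat_lit 1) (.exp (.alt (nat_lit 3) (.exp (.alt (nat_lit 7) (.exp (.alt (nat_lit 5) (.exp (.alt (nat_lit 6) (.exp (.alt (nat_lit 2) (.exp (.alt (nat_lit 10) (.exp (.alt (nat_lit 18) (.exp (.alt (nat_lit 9) (.cov (nat_lit 3855369658741155692555)) (.alt (nat_lit 9) (.exp (.alt (nat_lit 13) (.exp (.alt (nat_lit 29) (.exp (.alt (nat_lit 12) (.exp (.alt (nat_lit 25) (.cov (nat_lit 3006819301618336399363)) (.alt (nat_lit 25) (.exp (.alt (nat_lit 27) (.exp (.alt (nat_lit 24) (.cov (nat_lit 405828378417766072321)) (.alt (nat_lit 17) (.cov (nat_lit 9881780239)) .e))) .e)) (.alt (nat_lit 25) (.exp (.alt (nat_lit 24) (.cov (nat_lit 405828378417898192898)) (.alt (nat_lit 27) (.cov (nat_lit 765460547)) .e))) .e)))) .e)) .e)) .e)) (.alt (nat_lit 9) (.cov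 (nat_lit 6550904862212251189249)) (.alt (nat_lit 9) (.exp (.alt (nat_lit 13) (.exp (.alt (nat_lit 29) (.exp (.alt (nat_lit 25) (.exp (.alt (nat_lit 27) (.exp (.alt (nat_lit 17) (.exp (.alt (nat_lit 12) (.cov (nat_lit 2868468712414306631681)) (.alt (nat_lit 12) (.exp (.alt (nat_lit 28) (.cov (nat_lit 3966049986842701332480)) (.alt (nat_lit 14) (.cov (nat_lit 11574181896)) .e))) .e))) .e)) .e)) .e)) .e)) (.alt (nat_lit 13) (.cov (nat_lit 1395035805791727648771)) (.alt (nat_lit 13) (.exp (.alt (nat_lit 12) (.exp (.alt (nat_lit 29) (.cov (nat_lit 57646108215880974338)) (.alt (nat_lit 29) (.cov (nat_lit 426581202995764002817)) (.alt (nat_lit 29) (.exp (.alt (nat_lit 21) (.cov (nat_lit 267477806662166773763)) (.alt (nat_lit 25) (.exp (.alt (nat_lit 27) (.exp (.alt (nat_lit 24) (.cov (nat_lit 405828378417766072321)) (.alt (nat_lit 17) (.cov (nat_lit 9881780239)) .e))) .e)) (.alt (nat_lit 25) (.exp (.alt (nat_lit 24) (.cov (nat_lit 405828378417898192898)) (.alt (nat_lit 27) (.cov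 (nat_lit 765460547)) .e))) .e)))) .e)))) .e)) (.alt (nat_lit 11) (.cov (nat_lit 867175571)) .e))))) .e))))) .e)) .e)) .e)) .e)) .e)) .e)) (.alt (nat_lit 3) (.exp (.alt (nat_lit 7) (.exp (.alt (nat_lit 5) (.exp (.alt (nat_lit 6) (.exp (.alt (nat_lit 2) (.exp (.alt (nat_lit 10) (.exp (.alt (nat_lit 18) (.exp (.alt (nat_lit 9) (.cov (nat_lit 3855369658741155692555)) (.alt (nat_lit 9) (.exp (.alt (nat_lit 13) (.exp (.alt (nat_lit 29) (.exp (.alt (nat_lit 12) (.exp (.alt (nat_lit 25) (.cov (nat_lit 3006819301618336399363)) (.alt (nat_lit 25) (.exp (.alt (nat_lit 27) (.exp (.alt (nat_lit 24) (.cov (nat_lit 405828378417766072321)) (.alt (nat_lit 17) (.cov (nat_lit 9881780239)) .e))) .e)) (.alt (nat_lit 25) (.exp (.alt (nat_lit 24) (.cov (nat_lit 405828378417898192898)) (.alt (nat_lit 27) (.cov (nat_lit 765460547)) .e))) .e)))) .e)) .e)) .e)) (.alt (nat_lit 9) (.cov (nat_lit 6550904862212251189249)) (.alt (nat_lit 9) (.exp (.alt (nat_lit 13) (.exp (.alt (nat_lit 29) (.exp (.alt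 (nat_lit 25) (.exp (.alt (nat_lit 27) (.exp (.alt (nat_lit 17) (.exp (.alt (nat_lit 12) (.cov (nat_lit 2868468712414306631681)) (.alt (nat_lit 12) (.exp (.alt (nat_lit 28) (.cov (nat_lit 3966049986842701332480)) (.alt (nat_lit 14) (.cov (nat_lit 11574181896)) .e))) .e))) .e)) .e)) .e)) .e)) (.alt (nat_lit 13) (.cov (nat_lit 1395035805791727648771)) (.alt (nat_lit 13) (.exp (.alt (nat_lit 12) (.exp (.alt (nat_lit 29) (.cov (nat_lit 57646108215880974338)) (.alt (nat_lit 29) (.cov (nat_lit 426581202995764002817)) (.alt (nat_lit 29) (.exp (.alt (nat_lit 21) (.cov (nat_lit 267477806662166773763)) (.alt (nat_lit 25) (.exp (.alt (nat_lit 27) (.exp (.alt (nat_lit 24) (.cov (nat_lit 405828378417766072321)) (.alt (nat_lit 17) (.cov (nat_lit 9881780239)) .e))) .e)) (.alt (nat_lit 25) (.exp (.alt (nat_lit 24) (.cov (nat_lit 405828378417898192898)) (.alt (nat_lit 27) (.cov (nat_lit 765460547)) .e))) .e)))) .e)))) .e)) (.alt (nat_lit 11) (.cov (nat_lit 867175571)) .e))))) .e))))) .e))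 .e)) .e)) .e)) .e)) .e)) .e))) (.alt (nat_lit 1) (.cov (nat_lit 611059592678805078050)) (.alt (nat_lit 1) (.exp (.alt (nat_lit 3) (.exp (.alt (nat_lit 7) (.exp (.alt (nat_lit 5) (.exp (.alt (nat_lit 6) (.exp (.alt (nat_lit 9) (.cov (nat_lit 5342640103926474473491)) (.alt (nat_lit 9) (.cov (nat_lit 1641768112667092844555)) (.alt (nat_lit 9) (.cov (nat_lit 10166470856813376962562)) (.alt (nat_lit 9) (.cov (nat_lit 10240260960118583066625)) (.alt (nat_lit 9) (.exp (.alt (nat_lit 8) (.cov (nat_lit 101458394236959326242)) (.alt (nat_lit 11) (.cov (nat_lit 318209631618920873991)) (.alt (nat_lit 11) (.cov (nat_lit 652560641467957116931)) (.alt (nat_lit 11) (.exp (.alt (nat_lit 27) (.exp (.alt (nat_lit 10) (.cov (nat_lit 1830839496834660958219)) (.alt (nat_lit 10) (.cov (nat_lit 23999215887076963647490)) (.alt (nat_lit 10) (.cov (nat_lit 2716287946841737134081)) (.alt (nat_lit 10) (.exp (.alt (nat_lit 8) (.exp (.alt (nat_lit 24) (.exp (.alt (nat_lit 16) (.exp (.alt (nat_lit 17)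 (.exp (.alt (nat_lit 18) (.exp (.alt (nat_lit 12) (.cov (nat_lit 25299709506045120348161)) (.alt (nat_lit 12) (.exp (.alt (nat_lit 28) (.cov (nat_lit 290536230156072124416)) (.alt (nat_lit 13) (.cov (nat_lit 2916089864)) .e))) .e))) .e)) .e)) .e)) .e)) (.alt (nat_lit 8) (.cov (nat_lit 1457293202020353703939)) (.alt (nat_lit 14) (.cov (nat_lit 25451898432036626497536)) (.alt (nat_lit 2) (.cov (nat_lit 18877591)) .e))))) .e))))) .e)) (.alt (nat_lit 11) (.cov (nat_lit 2996836443)) .e)))))) .e)))))) .e)) .e)) .e)) .e)) (.alt (nat_lit 1) (.cov (nat_lit 1348935391936246710275)) (.alt (nat_lit 1) (.exp (.alt (nat_lit 3) (.exp (.alt (nat_lit 5) (.cov (nat_lit 378159375015880949977)) (.alt (nat_lit 5) (.cov (nat_lit 405581653440027610316819)) (.alt (nat_lit 5) (.cov (nat_lit 104678367247673825689611)) (.alt (nat_lit 9) (.exp (.alt (nat_lit 13) (.exp (.alt (nat_lit 5) (.exp (.alt (nat_lit 29) (.exp (.alt (nat_lit 8) (.cov (nat_lit 29127409312412949544994)) (.alt (nat_lit 11) (.cov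 (nat_lit 652556867944688123911)) (.alt (nat_lit 11) (.cov (nat_lit 21790223502532330651651)) (.alt (nat_lit 11) (.exp (.alt (nat_lit 27) (.exp (.alt (nat_lit 10) (.cov (nat_lit 47892359561037597376523)) (.alt (nat_lit 10) (.exp (.alt (nat_lit 14) (.exp (.alt (nat_lit 30) (.exp (.alt (nat_lit 12) (.exp (.alt (nat_lit 26) (.cov (nat_lit 1457292799580783509507)) (.alt (nat_lit 2) (.exp (.alt (nat_lit 6) (.exp (.alt (nat_lit 18) (.cov (nat_lit 2840798596147417448449)) (.alt (nat_lit 18) (.exp (.alt (nat_lit 16) (.cov (nat_lit 415051752653606354944)) (.alt (nat_lit 19) (.cov (nat_lit 2970615816)) .e))) .e))) .e)) (.alt (nat_lit 26) (.cov (nat_lit 1293943377)) .e)))) .e)) .e)) .e)) (.alt (nat_lit 10) (.cov (nat_lit 404486373900666743554049)) (.alt (nat_lit 10) (.exp (.alt (nat_lit 8) (.cov (nat_lit 26664768699294434721799)) (.alt (nat_lit 8) (.cov (nat_lit 276701581130573283331)) (.alt (nat_lit 8) (.exp (.alt (nat_lit 12) (.exp (.alt (nat_lit 24) (.cov (nat_lit 26701662079679941574658))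 (.alt (nat_lit 24) (.cov (nat_lit 406824493944527025864705)) (.alt (nat_lit 24) (.exp (.alt (nat_lit 26) (.cov (nat_lit 115292168072430878723)) (.alt (nat_lit 16) (.exp (.alt (nat_lit 17) (.exp (.alt (nat_lit 18) (.cov (nat_lit 404329571674417958748161)) (.alt (nat_lit 18) (.exp (.alt (nat_lit 22) (.cov (nat_lit 404292678188468963115008)) (.alt (nat_lit 26) (.cov (nat_lit 1944059912)) .e))) .e))) .e)) (.alt (nat_lit 26) (.cov (nat_lit 11528045136)) .e)))) .e)))) .e)) (.alt (nat_lit 8) (.cov (nat_lit 46988790929)) .e))))) .e))))) .e)) (.alt (nat_lit 11) (.cov (nat_lit 11571042402)) .e)))))) .e)) .e)) .e)) (.alt (nat_lit 9) (.cov (nat_lit 756329166799033597953)) (.alt (nat_lit 5) (.exp (.alt (nat_lit 4) (.exp (.alt (nat_lit 12) (.cov (nat_lit 48130165238549979926785629846765570)) (.alt (nat_lit 6) (.cov (nat_lit 350146875931637682536468)) .e))) (.alt (nat_lit 4) (.cov (nat_lit 348878662575454003658786)) (.alt (nat_lit 4) (.exp (.alt (nat_lit 6) (.exp (.alt (nat_lit 2) (.exp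 (.alt (nat_lit 10) (.exp (.alt (nat_lit 18) (.exp (.alt (nat_lit 12) (.cov (nat_lit 24084530484125441720331)) (.alt (nat_lit 12) (.exp (.alt (nat_lit 13) (.exp (.alt (nat_lit 9) (.exp (.alt (nat_lit 29) (.exp (.alt (nat_lit 28) (.cov (nat_lit 129127226108341649411)) (.alt (nat_lit 28) (.exp (.alt (nat_lit 20) (.exp (.alt (nat_lit 24) (.cov (nat_lit 59951929234689097729)) (.alt (nat_lit 30) (.cov (nat_lit 295698447)) .e))) .e)) (.alt (nat_lit 28) (.exp (.alt (nat_lit 24) (.cov (nat_lit 59951929234856869890)) (.alt (nat_lit 20) (.cov (nat_lit 1191182403)) .e))) .e)))) .e)) .e)) .e)) (.alt (nat_lit 12) (.cov (nat_lit 21905513460565635235841)) (.alt (nat_lit 12) (.exp (.alt (nat_lit 8) (.exp (.alt (nat_lit 9) (.exp (.alt (nat_lit 25) (.exp (.alt (nat_lit 17) (.exp (.alt (nat_lit 27) (.exp (.alt (nat_lit 24) (.cov (nat_lit 6410243576609806221313)) (.alt (nat_lit 24) (.exp (.alt (nat_lit 28) (.cov (nat_lit 290536230156072124416)) (.alt (nat_lit 16) (.cov (nat_lit 9785311240))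 .e))) .e))) .e)) .e)) .e)) .e)) (.alt (nat_lit 8) (.cov (nat_lit 21896285635690533748739)) (.alt (nat_lit 13) (.exp (.alt (nat_lit 9) (.exp (.alt (nat_lit 29) (.cov (nat_lit 57646108215880974338)) (.alt (nat_lit 29) (.cov (nat_lit 57646310525852712961)) (.alt (nat_lit 29) (.exp (.alt (nat_lit 21) (.cov (nat_lit 267477806672467984387)) (.alt (nat_lit 25) (.exp (.alt (nat_lit 17) (.exp (.alt (nat_lit 24) (.cov (nat_lit 502673787004322316289)) (.alt (nat_lit 27) (.cov (nat_lit 11569987599)) .e))) .e)) (.alt (nat_lit 25) (.exp (.alt (nat_lit 24) (.cov (nat_lit 502673787003886108674)) (.alt (nat_lit 17) (.cov (nat_lit 117440579)) .e))) .e)))) .e)))) .e)) (.alt (nat_lit 14) (.cov (nat_lit 11607739539)) .e))))) .e))))) .e)) .e)) .e)) .e)) (.alt (nat_lit 4) (.cov (nat_lit 1872358234392799215619)) (.alt (nat_lit 4) (.exp (.alt (nat_lit 6) (.exp (.alt (nat_lit 12) (.cov (nat_lit 345355332713552294182931)) (.alt (nat_lit 12) (.cov (nat_lit 1346612823156376731659)) (.alt (nat_lit 12)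 (.cov (nat_lit 47952320248797475110914)) (.alt (nat_lit 12) (.cov (nat_lit 350257565255760676388865)) (.alt (nat_lit 12) (.exp (.alt (nat_lit 8) (.cov (nat_lit 22970809447570179358754)) (.alt (nat_lit 13) (.cov (nat_lit 21566552961511838449671)) (.alt (nat_lit 13) (.cov (nat_lit 6560130431072735330307)) (.alt (nat_lit 13) (.exp (.alt (nat_lit 9) (.exp (.alt (nat_lit 29) (.cov (nat_lit 10166461972758901293067)) (.alt (nat_lit 29) (.exp (.alt (nat_lit 25) (.exp (.alt (nat_lit 17) (.exp (.alt (nat_lit 27) (.exp (.alt (nat_lit 28) (.cov (nat_lit 276701178863384788995)) (.alt (nat_lit 28) (.exp (.alt (nat_lit 24) (.exp (.alt (nat_lit 30) (.cov (nat_lit 1600255057191015284737)) (.alt (nat_lit 20) (.cov (nat_lit 158165106703)) .e))) .e)) (.alt (nat_lit 28) (.cov (nat_lit 12171870565)) .e)))) .e)) .e)) .e)) (.alt (nat_lit 29) (.cov (nat_lit 45657997931215724740609)) (.alt (nat_lit 29) (.exp (.alt (nat_lit 25) (.exp (.alt (nat_lit 27) (.exp (.alt (nat_lit 26) (.exp (.alt (nat_lit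 30) (.exp (.alt (nat_lit 10) (.exp (.alt (nat_lit 17) (.cov (nat_lit 1807780930218674356225)) (.alt (nat_lit 17) (.exp (.alt (nat_lit 16) (.cov (nat_lit 189079137750664347648)) (.alt (nat_lit 21) (.cov (nat_lit 1363148808)) .e))) .e))) .e)) .e)) .e)) .e)) (.alt (nat_lit 25) (.cov (nat_lit 406916727941983934349315)) (.alt (nat_lit 25) (.exp (.alt (nat_lit 27) (.exp (.alt (nat_lit 24) (.exp (.alt (nat_lit 26) (.exp (.alt (nat_lit 30) (.exp (.alt (nat_lit 10) (.exp (.alt (nat_lit 16) (.cov (nat_lit 1595643373371010318336)) (.alt (nat_lit 28) (.cov (nat_lit 624951304)) .e))) .e)) .e)) .e)) (.alt (nat_lit 17) (.cov (nat_lit 26747779052014406729729)) (.alt (nat_lit 17) (.exp (.alt (nat_lit 16) (.cov (nat_lit 1669430356281850331139)) (.alt (nat_lit 16) (.exp (.alt (nat_lit 20) (.exp (.alt (nat_lit 24) (.cov (nat_lit 365379271562779672182785)) (.alt (nat_lit 24) (.exp (.alt (nat_lit 26) (.cov (nat_lit 45402048862412769067008)) (.alt (nat_lit 28) (.cov (nat_lit 158173495304)) .e)))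 .e))) .e)) (.alt (nat_lit 19) (.cov (nat_lit 1965031615)) .e)))) .e)))) .e)) (.alt (nat_lit 21) (.cov (nat_lit 188746903)) .e))))) .e))))) .e)) (.alt (nat_lit 13) (.cov (nat_lit 1385175131)) .e)))))) .e)))))) .e)) (.alt (nat_lit 4) (.cov (nat_lit 180362908)) .e))))))) .e))))))) .e)) (.alt (nat_lit 1) (.exp (.alt (nat_lit 3) (.cov (nat_lit 25370663483636449507)) (.alt (nat_lit 3) (.cov (nat_lit 22825547607407932211220)) (.alt (nat_lit 9) (.cov (nat_lit 756329166965113356290)) (.alt (nat_lit 3) (.cov (nat_lit 35659761)) .e))))) .e)))))))) .e)))))))) .e)) .e)) .e)),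
      .cov (nat_lit 71481139882694287605)])]) (by decide +kernel)
  exact h _ List.mem_cons_self

theorem t31_22 : GF FULL [0, 31] [22, 2] := by
  have h := JT.chkW_ok (zs := [0, 31]) good (by decide) (by decide)
    (L := [([22, 2], [.cov (nat_lit 71481135484647776548),
      .cov (nat_lit 71481135484647776549),
      .cov (nat_lit 71481135484647776550),
      .cov (nat_lit 71481135484647776551),
      .cov (nat_lit 71481135484647776552),
      .cov (nat_lit 71481135484647776553),
      .cov (nat_lit 71481135484647776554),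
      .rot (.exp (.alt (nat_lit 31) (.exp (.alt (nat_lit 15) (.exp (.alt (nat_lit 0) (.cov (nat_lit 25387344622228227490019)) (.alt (nat_lit 0) (.cov (nat_lit 36906154524932046868)) (.alt (nat_lit 0) (.cov (nat_lit 363993477433860460380162)) (.alt (nat_lit 0) (.exp (.alt (nat_lit 1) (.cov (nat_lit 102068147868306236244996)) (.alt (nat_lit 1) (.cov (nat_lit 11540410273513865254)) (.alt (nat_lit 1) (.cov (nat_lit 6932499977974317063)) (.alt (nat_lit 1) (.exp (.alt (nat_lit 3) (.exp (.alt (nat_lit 5) (.cov (nat_lit 347788000182295602397411)) (.alt (nat_lit 5) (.cov (nat_lit 29028269814584934662162)) (.alt (nat_lit 17) (.cov (nat_lit 36906147925596307458)) (.alt (nat_lit 5) (.cov (nat_lit 10338967331)) .e))))) .e)) .e))))) .e))))) .e)) .e))])]) (by decide +kernel)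
  exact h _ List.mem_cons_self

end K2

end Pool.Agent.Work.MP_bf01b2_co.MR
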