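import Pool.Agent.Work.MP_bf01b2_co.MR.K2J0
import Pool.Agent.Work.MP_bf01b2_co.MR.K2J1
import Pool.Agent.Work.MP_bf01b2_co.MR.K2J2
import Pool.Agent.Work.MP_bf01b2_co.MR.K2J3
import Pool.Agent.Work.MP_bf01b2_co.MR.K2J4

/-!
# Two roots in `Q_5`: all classes of positions
-/

set_option autoImplicit false
set_option maxRecDepth 100000

namespace Pool.Agent.Work.MP_bf01b2_co.MR

namespace K2

open Tab Exc K4

/-- the special vectors, positions 0 and 1 -/
def s1 : List (List ℕ) := [[13, 11], [11, 13], [14, 10], [10, 14], [15, 9], [9, 15], [16, 8], [8, 16], [17, 7], [7, 17], [18, 6], [6, 18], [20, 4], [4, 20], [21, 3], [3, 21], [23, 1], [1, 23]]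

theorem s1_ok : ∀ s ∈ s1, GF FULL [0, 1] s := by
  unfold s1
  refine List.forall_mem_cons.2 ⟨t1_13, ?_⟩
  refine List.forall_mem_cons.2 ⟨(GF_swap (by norm_num) t1_13), ?_⟩
  refine List.forall_mem_cons.2 ⟨t1_14, ?_⟩
  refine List.forall_mem_cons.2 ⟨(GF_swap (by norm_num) t1_14), ?_⟩
  refine List.forall_mem_cons.2 ⟨t1_15, ?_⟩
  refine List.forall_mem_cons.2 ⟨(GF_swap (by norm_num) t1_15), ?_⟩
  refine List.forall_mem_cons.2 ⟨t1_16, ?_⟩
  refine List.forall_mem_cons.2 ⟨(GF_swap (by norm_num) t1_16), ?_⟩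
  refine List.forall_mem_cons.2 ⟨t1_17, ?_⟩
  refine List.forall_mem_cons.2 ⟨(GF_swap (by norm_num) t1_17), ?_⟩
  refine List.forall_mem_cons.2 ⟨t1_18, ?_⟩
  refine List.forall_mem_cons.2 ⟨(GF_swap (by norm_num) t1_18), ?_⟩
  refine List.forall_mem_cons.2 ⟨t1_20, ?_⟩
  refine List.forall_mem_cons.2 ⟨(GF_swap (by norm_num) t1_20), ?_⟩
  refine List.forall_mem_cons.2 ⟨t1_21, ?_⟩
  refine List.forall_mem_cons.2 ⟨(GF_swap (by norm_num) t1_21), ?_⟩
  refine List.forall_mem_cons.2 ⟨t1_23, ?_⟩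
  refine List.forall_mem_cons.2 ⟨(GF_swap (by norm_num) t1_23), ?_⟩
  exact fun _ h => absurd h List.not_mem_nil

theorem d1 : Bm.cls itab 34 (fun l => JT.ro (exV [] l) (Bm.spV s1 l)) [0, 1] [0, 0] 5 24
    (nat_lit 0xd001c0019000e0002001f001d000300120012) = true := by decide +kernel

theorem f1 : CB B2 (maskL [0, 1]) 24 :=
  cb igood d1 rfl (by decide) (by decide) (by norm_num) (fun _ hk => hk)
    s1_ok (fun _ _ h => absurd h List.not_mem_nil)

/-- the special vectors, positions 0 and 3 -/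
def s3 : List (List ℕ) := [[13, 11], [11, 13], [14, 10], [10, 14], [15, 9], [9, 15], [16, 8], [8, 16], [17, 7], [7, 17], [18, 6], [6, 18], [20, 4], [4, 20], [21, 3], [3, 21], [23, 1], [1, 23]]

theorem s3_ok : ∀ s ∈ s3, GF FULL [0, 3] s := by
  unfold s3
  refine List.forall_mem_cons.2 ⟨t3_13, ?_⟩
  refine List.forall_mem_cons.2 ⟨(GF_swap (by norm_num) t3_13), ?_⟩
  refine List.forall_mem_cons.2 ⟨t3_14, ?_⟩
  refine List.forall_mem_cons.2 ⟨(GF_swap (by norm_num) t3_14), ?_⟩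
  refine List.forall_mem_cons.2 ⟨t3_15, ?_⟩
  refine List.forall_mem_cons.2 ⟨(GF_swap (by norm_num) t3_15), ?_⟩
  refine List.forall_mem_cons.2 ⟨t3_16, ?_⟩
  refine List.forall_mem_cons.2 ⟨(GF_swap (by norm_num) t3_16), ?_⟩
  refine List.forall_mem_cons.2 ⟨t3_17, ?_⟩
  refine List.forall_mem_cons.2 ⟨(GF_swap (by norm_num) t3_17), ?_⟩
  refine List.forall_mem_cons.2 ⟨t3_18, ?_⟩
  refine List.forall_mem_cons.2 ⟨(GF_swap (by norm_num) t3_18), ?_⟩
  refine List.forall_mem_cons.2 ⟨t3_20, ?_⟩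
  refine List.forall_mem_cons.2 ⟨(GF_swap (by norm_num) t3_20), ?_⟩
  refine List.forall_mem_cons.2 ⟨t3_21, ?_⟩
  refine List.forall_mem_cons.2 ⟨(GF_swap (by norm_num) t3_21), ?_⟩
  refine List.forall_mem_cons.2 ⟨t3_23, ?_⟩
  refine List.forall_mem_cons.2 ⟨(GF_swap (by norm_num) t3_23), ?_⟩
  exact fun _ h => absurd h List.not_mem_nil

theorem d3 : Bm.cls itab 34 (fun l => JT.ro (exV [] l) (Bm.spV s3 l)) [0, 3] [0, 0] 5 24
    (nat_lit 0xc00160016000c001f00010001001f00100011) = true := by decide +kernel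

theorem f3 : CB B2 (maskL [0, 3]) 24 :=
  cb igood d3 rfl (by decide) (by decide) (by norm_num) (fun _ hk => hk)
    s3_ok (fun _ _ h => absurd h List.not_mem_nil)

/-- the special vectors, positions 0 and 7 -/
def s7 : List (List ℕ) := [[13, 11], [11, 13], [14, 10], [10, 14], [15, 9], [9, 15], [16, 8], [8, 16], [17, 7], [7, 17], [18, 6], [6, 18], [20, 4], [4, 20], [21, 3], [3, 21], [23, 1], [1, 23]]

theorem s7_ok : ∀ s ∈ s7, GF FULL [0, 7] s := by
  unfold s7
  refine List.forall_mem_cons.2 ⟨t7_13, ?_⟩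
  refine List.forall_mem_cons.2 ⟨(GF_swap (by norm_num) t7_13), ?_⟩
  refine List.forall_mem_cons.2 ⟨t7_14, ?_⟩
  refine List.forall_mem_cons.2 ⟨(GF_swap (by norm_num) t7_14), ?_⟩
  refine List.forall_mem_cons.2 ⟨t7_15, ?_⟩
  refine List.forall_mem_cons.2 ⟨(GF_swap (by norm_num) t7_15), ?_⟩
  refine List.forall_mem_cons.2 ⟨t7_16, ?_⟩
  refine List.forall_mem_cons.2 ⟨(GF_swap (by norm_num) t7_16), ?_⟩
  refine List.forall_mem_cons.2 ⟨t7_17, ?_⟩
  refine List.forall_mem_cons.2 ⟨(GF_swap (by norm_num) t7_17), ?_⟩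
  refine List.forall_mem_cons.2 ⟨t7_18, ?_⟩
  refine List.forall_mem_cons.2 ⟨(GF_swap (by norm_num) t7_18), ?_⟩
  refine List.forall_mem_cons.2 ⟨t7_20, ?_⟩
  refine List.forall_mem_cons.2 ⟨(GF_swap (by norm_num) t7_20), ?_⟩
  refine List.forall_mem_cons.2 ⟨t7_21, ?_⟩
  refine List.forall_mem_cons.2 ⟨(GF_swap (by norm_num) t7_21), ?_⟩
  refine List.forall_mem_cons.2 ⟨t7_23, ?_⟩
  refine List.forall_mem_cons.2 ⟨(GF_swap (by norm_num) t7_23), ?_⟩
  exact fun _ h => absurd h List.not_mem_nil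

theorem d7 : Bm.cls itab 34 (fun l => JT.ro (exV [] l) (Bm.spV s7 l)) [0, 7] [0, 0] 5 24
    (nat_lit 0x1e000600000021000900150015000900130013) = true := by decide +kernel

theorem f7 : CB B2 (maskL [0, 7]) 24 :=
  cb igood d7 rfl (by decide) (by decide) (by norm_num) (fun _ hk => hk)
    s7_ok (fun _ _ h => absurd h List.not_mem_nil)

/-- the special vectors, positions 0 and 15 -/
def s15 : List (List ℕ) := [[13, 11], [11, 13], [14, 10], [10, 14], [15, 9], [9, 15], [16, 8], [8, 16], [17, 7], [7, 17], [18, 6], [6, 18], [20, 4], [4, 20], [21, 3], [3, 21], [23, 1], [1, 23]]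

theorem s15_ok : ∀ s ∈ s15, GF FULL [0, 15] s := by
  unfold s15
  refine List.forall_mem_cons.2 ⟨t15_13, ?_⟩
  refine List.forall_mem_cons.2 ⟨(GF_swap (by norm_num) t15_13), ?_⟩
  refine List.forall_mem_cons.2 ⟨t15_14, ?_⟩
  refine List.forall_mem_cons.2 ⟨(GF_swap (by norm_num) t15_14), ?_⟩
  refine List.forall_mem_cons.2 ⟨t15_15, ?_⟩
  refine List.forall_mem_cons.2 ⟨(GF_swap (by norm_num) t15_15), ?_⟩
  refine List.forall_mem_cons.2 ⟨t15_16, ?_⟩
  refine List.forall_mem_cons.2 ⟨(GF_swap (by norm_num) t15_16), ?_⟩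
  refine List.forall_mem_cons.2 ⟨t15_17, ?_⟩
  refine List.forall_mem_cons.2 ⟨(GF_swap (by norm_num) t15_17), ?_⟩
  refine List.forall_mem_cons.2 ⟨t15_18, ?_⟩
  refine List.forall_mem_cons.2 ⟨(GF_swap (by norm_num) t15_18), ?_⟩
  refine List.forall_mem_cons.2 ⟨t15_20, ?_⟩
  refine List.forall_mem_cons.2 ⟨(GF_swap (by norm_num) t15_20), ?_⟩
  refine List.forall_mem_cons.2 ⟨t15_21, ?_⟩
  refine List.forall_mem_cons.2 ⟨(GF_swap (by norm_num) t15_21), ?_⟩
  refine List.forall_mem_cons.2 ⟨t15_23, ?_⟩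
  refine List.forall_mem_cons.2 ⟨(GF_swap (by norm_num) t15_23), ?_⟩
  exact fun _ h => absurd h List.not_mem_nil

theorem d15 : Bm.cls itab 34 (fun l => JT.ro (exV [] l) (Bm.spV s15 l)) [0, 15] [0, 0] 5 24
    (nat_lit 0x400210017000b000f000f000a001b00200005) = true := by decide +kernel

theorem f15 : CB B2 (maskL [0, 15]) 24 :=
  cb igood d15 rfl (by decide) (by decide) (by norm_num) (fun _ hk => hk)
    s15_ok (fun _ _ h => absurd h List.not_mem_nil)

/-- the special vectors, positions 0 and 31 -/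
def s31 : List (List ℕ) := [[13, 11], [11, 13], [14, 10], [10, 14], [15, 9], [9, 15], [16, 8], [8, 16], [17, 7], [7, 17], [18, 6], [6, 18], [20, 4], [4, 20], [21, 3], [3, 21], [22, 2], [2, 22]]

theorem s31_ok : ∀ s ∈ s31, GF FULL [0, 31] s := by
  unfold s31
  refine List.forall_mem_cons.2 ⟨t31_13, ?_⟩
  refine List.forall_mem_cons.2 ⟨(GF_swap (by norm_num) t31_13), ?_⟩
  refine List.forall_mem_cons.2 ⟨t31_14, ?_⟩
  refine List.forall_mem_cons.2 ⟨(GF_swap (by norm_num) t31_14), ?_⟩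
  refine List.forall_mem_cons.2 ⟨t31_15, ?_⟩
  refine List.forall_mem_cons.2 ⟨(GF_swap (by norm_num) t31_15), ?_⟩
  refine List.forall_mem_cons.2 ⟨t31_16, ?_⟩
  refine List.forall_mem_cons.2 ⟨(GF_swap (by norm_num) t31_16), ?_⟩
  refine List.forall_mem_cons.2 ⟨t31_17, ?_⟩
  refine List.forall_mem_cons.2 ⟨(GF_swap (by norm_num) t31_17), ?_⟩
  refine List.forall_mem_cons.2 ⟨t31_18, ?_⟩
  refine List.forall_mem_cons.2 ⟨(GF_swap (by norm_num) t31_18), ?_⟩
  refine List.forall_mem_cons.2 ⟨t31_20, ?_⟩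
  refine List.forall_mem_cons.2 ⟨(GF_swap (by norm_num) t31_20), ?_⟩
  refine List.forall_mem_cons.2 ⟨t31_21, ?_⟩
  refine List.forall_mem_cons.2 ⟨(GF_swap (by norm_num) t31_21), ?_⟩
  refine List.forall_mem_cons.2 ⟨t31_22, ?_⟩
  refine List.forall_mem_cons.2 ⟨(GF_swap (by norm_num) t31_22), ?_⟩
  exact fun _ h => absurd h List.not_mem_nil

/-- the exceptions -/
def e31 : List (List ℕ) := [[23, 1], [1, 23]]

theorem x31 (k : ℕ → ℕ) : ∀ s ∈ e31, (k 0 + 1) :: ([31].map fun z => k z + 1).reverse = s →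
    B2a (maskL [0, 31]) k := by
  intro s hs h
  simp only [e31, List.mem_cons, List.not_mem_nil, or_false] at hs
  rcases hs with rfl | rfl
  · obtain ⟨h0, h1⟩ : k 0 + 1 = 23 ∧ k 31 + 1 = 1 := inj2 h
    exact Or.inr (szs2 (a := 0) (b := 31) (by decide) (by decide) h0 h1)
  · obtain ⟨h0, h1⟩ : k 0 + 1 = 1 ∧ k 31 + 1 = 23 := inj2 h
    refine Or.inr ?_
    rw [szs2 (a := 0) (b := 31) (by decide) (by decide) h0 h1]
    decide

theorem d31 : Bm.cls itab 34 (fun l => JT.ro (exV e31 l) (Bm.spV s31 l)) [0, 31] [0, 0] 3 24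
    (nat_lit 0x140014001a000700080018) = true := by decide +kernel

theorem f31 : CB B2a (maskL [0, 31]) 24 :=
  cb igood d31 rfl (by decide) (by decide) (by norm_num) (fun _ hk => Or.inl hk)
    s31_ok x31

/-- the masks of the four representatives -/
def repm : ℕ := nat_lit 0x8001000000810000000900000003

theorem rep_ok : ∀ i < 4, CB B2 (rep repm i) 24 := by
  intro i hi
  interval_cases i
  · have e : rep repm 0 = maskL [0, 1] := by decide +kernel
    rw [e]
    exact f1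
  · have e : rep repm 1 = maskL [0, 3] := by decide +kernel
    rw [e]
    exact f3
  · have e : rep repm 2 = maskL [0, 7] := by decide +kernel
    rw [e]
    exact f7
  · have e : rep repm 3 = maskL [0, 15] := by decide +kernel
    rw [e]
    exact f15

theorem cod_ok : rng repm 4 1 1 30 (nat_lit 0x1000000000800008000000a020000201000000100000c000000c0200003010000401000098040000c0400003020000001800010000000e020000401000048100009c040000e04000040200005018000dc04000d204000390200004818000dc080000e060000403) = true := by decide +kernel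

theorem all2 {b : ℕ} (h0 : 0 < b) (hb : b < 31) : CB B2 (maskL [0, b]) 24 := by
  have h1 := rng_ok B2_inv rep_ok cod_ok (b - 1) (by omega)
  have h2 : 1 + (b - 1) = b := by omega
  rw [h2] at h1
  have h3 : 1 ||| 2 ^ b = maskL [0, b] := by
    show 1 ||| 2 ^ b = 2 ^ 0 ||| (2 ^ b ||| 0)
    rw [Nat.or_zero, pow_zero]
  rwa [h3] at h1

end K2

end Pool.Agent.Work.MP_bf01b2_co.MR
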