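import Pool.Agent.Work.MP_bf01b2_co.MR.K4R4
import Pool.Agent.Work.MP_bf01b2_co.MR.K4R3
import Pool.Agent.Work.MP_bf01b2_co.MR.J24B

/-!
# Four roots and 22 vertices, three roots and 23 vertices in `Q_5`

All forests with four roots and at most 22 vertices (three roots and at most 23 vertices) embed in
`Q_5` with given positions of the roots, with the following exceptions.

* Four roots of the same parity with sizes `19, 1, 1, 1` or `7, 7, 7, 1` or `7, 7, 4, 4`.
* Four roots with sizes `7, 9, 3, 3` or `13, 3, 3, 3` such that the root with size `7` (`13`) is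
  adjacent to the three other roots.
* Three roots with sizes `9, 7, 7` or `12, 7, 4` or `15, 4, 4` or `15, 7, 1` or `19, 3, 1` or
  `21, 1, 1` such that a root with the first size is adjacent to a root with the second size.
-/

set_option autoImplicit false

namespace Pool.Agent.Work.MP_bf01b2_co.MR

namespace K4

open Tab Exc

/-- the parity of a vertex -/
def par (p : Fin 5 → Bool) : Bool := xor (p 0) (xor (p 1) (xor (p 2) (xor (p 3) (p 4))))

theorem Ev.par {a b : ℕ} (h : Ev a b) : par (decV 5 a) = par (decV 5 b) := by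
  refine h (fun v => K4.par (decV 5 v)) ?_
  intro x y hxy
  obtain ⟨i, hi, rfl⟩ := hxy
  show xor (x.testBit 0) (xor (x.testBit 1) (xor (x.testBit 2) (xor (x.testBit 3)
      (x.testBit 4)))) ≠
    xor ((x ^^^ 2 ^ i).testBit 0) (xor ((x ^^^ 2 ^ i).testBit 1) (xor ((x ^^^ 2 ^ i).testBit 2)
      (xor ((x ^^^ 2 ^ i).testBit 3) ((x ^^^ 2 ^ i).testBit 4))))
  simp only [Nat.testBit_xor, Nat.testBit_two_pow]
  generalize x.testBit 0 = a0
  generalize x.testBit 1 = a1
  generalize x.testBit 2 = a2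
  generalize x.testBit 3 = a3
  generalize x.testBit 4 = a4
  interval_cases i <;> revert a0 a1 a2 a3 a4 <;> decide

/-- the sizes of a list of marks -/
def szL (ms : List ((Fin 5 → Bool) × ℕ)) : Multiset ℕ := ((ms.map Prod.snd : List ℕ) : Multiset ℕ)

/-- the exceptions, four roots -/
def Ex4 (ms : List ((Fin 5 → Bool) × ℕ)) : Prop :=
  ((szL ms = {19, 1, 1, 1} ∨ szL ms = {7, 7, 7, 1} ∨ szL ms = {7, 7, 4, 4}) ∧
    ∀ a ∈ ms, ∀ b ∈ ms, par a.1 = par b.1) ∨
  (∃ c ∈ ms, (∀ z ∈ ms, z ≠ c → cadj 5 c.1 z.1) ∧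
    ((c.2 = 7 ∧ szL ms = {7, 9, 3, 3}) ∨ (c.2 = 13 ∧ szL ms = {13, 3, 3, 3})))

/-- the exceptions, three roots -/
def Ex3 (ms : List ((Fin 5 → Bool) × ℕ)) : Prop :=
  ∃ a ∈ ms, ∃ b ∈ ms, cadj 5 a.1 b.1 ∧
    ((szL ms = {9, 7, 7} ∧ a.2 = 9 ∧ b.2 = 7) ∨ (szL ms = {12, 7, 4} ∧ a.2 = 12 ∧ b.2 = 7) ∨
      (szL ms = {15, 4, 4} ∧ a.2 = 15 ∧ b.2 = 4) ∨ (szL ms = {15, 7, 1} ∧ a.2 = 15 ∧ b.2 = 7) ∨
      (szL ms = {19, 3, 1} ∧ a.2 = 19 ∧ b.2 = 3) ∨ (szL ms = {21, 1, 1} ∧ a.2 = 21 ∧ b.2 = 1))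

section lists

variable {ms : List ((Fin 5 → Bool) × ℕ)} {k : ℕ → ℕ}

theorem enc_nodup (hnd : (ms.map Prod.fst).Nodup) : (ms.map fun a => encV a.1).Nodup := by
  have hinj : Function.Injective (encV (m := 5)) := fun a b hab => by
    rw [← dec_enc a, hab, dec_enc]
  have : ms.map (fun a => encV a.1) = (ms.map Prod.fst).map encV := by
    rw [List.map_map]; rfl
  rw [this]
  exact hnd.map hinj

theorem enc_lt : ∀ z ∈ ms.map (fun a => encV a.1), z < 32 := by
  intro z hz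
  obtain ⟨a, _, rfl⟩ := List.mem_map.mp hz
  exact encV_lt a.1

theorem map_k (hk : ∀ a ∈ ms, k (encV a.1) + 1 = a.2) :
    (ms.map fun a => encV a.1).map (fun z => k z + 1) = ms.map Prod.snd := by
  rw [List.map_map]
  exact List.map_congr_left fun a ha => hk a ha

theorem szs_list (hnd : (ms.map Prod.fst).Nodup) (hk : ∀ a ∈ ms, k (encV a.1) + 1 = a.2) :
    szs (maskL (ms.map fun a => encV a.1)) k = szL ms := by
  rw [szs_maskL (enc_nodup hnd) enc_lt, map_k hk]
  rfl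

theorem mem_mask {z : ℕ} (h : (maskL (ms.map fun a => encV a.1)).testBit z = true) :
    ∃ a ∈ ms, encV a.1 = z := by
  rw [testBit_maskL] at h
  exact List.mem_map.1 h

theorem mask_mem {a : (Fin 5 → Bool) × ℕ} (ha : a ∈ ms) :
    (maskL (ms.map fun a => encV a.1)).testBit (encV a.1) = true :=
  testBit_maskL.2 (List.mem_map.2 ⟨a, ha, rfl⟩)

theorem adj_enc {a b : (Fin 5 → Bool) × ℕ} (h : ncadj 5 (encV a.1) (encV b.1)) :
    cadj 5 a.1 b.1 := by
  have h1 := cadj_dec h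
  rwa [dec_enc, dec_enc] at h1

theorem B4_list (hnd : (ms.map Prod.fst).Nodup) (hk : ∀ a ∈ ms, k (encV a.1) + 1 = a.2)
    (hN : (ms.map Prod.snd).sum = 22) (h : B4 (maskL (ms.map fun a => encV a.1)) k) :
    Ex4 ms := by
  unfold B4 at h
  rw [szs_list hnd hk, sum_maskL (enc_nodup hnd) enc_lt, map_k hk] at h
  rcases h with h | ⟨h, h'⟩ | ⟨c, h1, h2, h3⟩
  · omega
  · refine Or.inl ⟨h, fun a ha b hb => ?_⟩
    have h5 := (h' _ (mask_mem ha) _ (mask_mem hb)).par
    rwa [dec_enc, dec_enc] at h5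
  · right
    obtain ⟨c', hc', rfl⟩ := mem_mask h1
    refine ⟨c', hc', fun z hz hne => adj_enc (h2 _ (mask_mem hz) ?_), ?_⟩
    · intro h0
      apply hne
      have h6 : z.1 = c'.1 := by rw [← dec_enc z.1, h0, dec_enc]
      exact List.inj_on_of_nodup_map hnd hz hc' h6
    · rw [hk c' hc'] at h3
      exact h3

theorem B3_list (hnd : (ms.map Prod.fst).Nodup) (hk : ∀ a ∈ ms, k (encV a.1) + 1 = a.2)
    (hN : (ms.map Prod.snd).sum = 23) (h : B3 (maskL (ms.map fun a => encV a.1)) k) :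
    Ex3 ms := by
  unfold B3 at h
  rw [szs_list hnd hk, sum_maskL (enc_nodup hnd) enc_lt, map_k hk] at h
  rcases h with h | ⟨a, b, h1, h2, h3, h4⟩
  · omega
  · obtain ⟨a', ha', rfl⟩ := mem_mask h1
    obtain ⟨b', hb', rfl⟩ := mem_mask h2
    rw [hk a' ha', hk b' hb'] at h4
    exact ⟨a', ha', b', hb', adj_enc h3, h4⟩

end lists

end K4

open K4 Exc Tab

/-- **Four roots and 22 vertices in `Q_5`.** -/
theorem hf5_four (ms : List ((Fin 5 → Bool) × ℕ)) (hnd : (ms.map Prod.fst).Nodup)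
    (hlen : ms.length = 4) (hN : (ms.map Prod.snd).sum ≤ 22) (hb : ¬ Ex4 ms) :
    HF (cadj 5) Finset.univ ms := by
  rcases Nat.lt_or_eq_of_le hN with hN | hN
  · exact base5b ms hnd (Or.inr (Or.inr (Or.inr (Or.inr ⟨hlen, by omega⟩))))
  · have hCB : CB B4 (maskL (ms.map fun a => encV a.1)) 22 := by
      have h1 := enc_nodup hnd
      have h2 := enc_lt (ms := ms)
      match ms, hlen, h1, h2 with
      | [a, b, c, d], _, h1, h2 => exact quad_ok B4_inv (fun b c d => all4) h1 h2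
    exact CB.toHF hCB (maskL_lt enc_lt) ms hnd (fun _ => testBit_maskL.symm) hN.le
      (fun k hk h => hb (B4_list hnd hk hN h))

/-- **Three roots and 23 vertices in `Q_5`.** -/
theorem hf5_three (ms : List ((Fin 5 → Bool) × ℕ)) (hnd : (ms.map Prod.fst).Nodup)
    (hlen : ms.length = 3) (hN : (ms.map Prod.snd).sum ≤ 23) (hb : ¬ Ex3 ms) :
    HF (cadj 5) Finset.univ ms := by
  rcases Nat.lt_or_eq_of_le hN with hN | hN
  · exact base5b ms hnd (Or.inr (Or.inr (Or.inr (Or.inl ⟨hlen, by omega⟩))))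
  · have hCB : CB B3 (maskL (ms.map fun a => encV a.1)) 23 := by
      have h1 := enc_nodup hnd
      have h2 := enc_lt (ms := ms)
      match ms, hlen, h1, h2 with
      | [a, b, c], _, h1, h2 => exact trip_ok B3_inv (fun b c => all3) h1 h2
    exact CB.toHF hCB (maskL_lt enc_lt) ms hnd (fun _ => testBit_maskL.symm) hN.le
      (fun k hk h => hb (B3_list hnd hk hN h))

end Pool.Agent.Work.MP_bf01b2_co.MR
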