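import Pool.Agent.Work.MP_bf01b2_co.MR.K2D
import Pool.Agent.Work.MP_bf01b2_co.MR.K4F

/-!
# Two roots and 24 vertices in `Q_5`

All forests with two roots and at most 24 vertices embed in `Q_5` with given positions of the
roots, except for the sizes `23, 1` at antipodal positions.
-/

set_option autoImplicit false

namespace Pool.Agent.Work.MP_bf01b2_co.MR

namespace K2

open Tab Exc K4

variable {ms : List ((Fin 5 → Bool) × ℕ)} {k : ℕ → ℕ}

theorem B2_list (hnd : (ms.map Prod.fst).Nodup) (hk : ∀ a ∈ ms, k (encV a.1) + 1 = a.2)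
    (hN : (ms.map Prod.snd).sum = 24) : ¬ B2 (maskL (ms.map fun a => encV a.1)) k := by
  unfold B2
  rw [sum_maskL (enc_nodup hnd) enc_lt, map_k hk]
  omega

theorem B2a_list (hnd : (ms.map Prod.fst).Nodup) (hk : ∀ a ∈ ms, k (encV a.1) + 1 = a.2)
    (hN : (ms.map Prod.snd).sum = 24) (h : B2a (maskL (ms.map fun a => encV a.1)) k) :
    szL ms = {23, 1} := by
  unfold B2a at h
  rw [szs_list hnd hk, sum_maskL (enc_nodup hnd) enc_lt, map_k hk] at h
  rcases h with h | h
  · omega
  · exact h

/-- antipodal positions -/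
theorem anti_iff (p q : Fin 5 → Bool) (h : encV p ^^^ encV q = 31) : ∀ i, p i ≠ q i := by
  revert p q
  decide +kernel

end K2

open K2 K4 Exc Tab

/-- **Two roots and 24 vertices in `Q_5`.** -/
theorem hf5_two (ms : List ((Fin 5 → Bool) × ℕ)) (hnd : (ms.map Prod.fst).Nodup)
    (hlen : ms.length = 2) (hN : (ms.map Prod.snd).sum ≤ 24)
    (hb : ¬ (szL ms = {23, 1} ∧ ∀ a ∈ ms, ∀ b ∈ ms, a ≠ b → ∀ i, a.1 i ≠ b.1 i)) :
    HF (cadj 5) Finset.univ ms := by
  rcases Nat.lt_or_eq_of_le hN with hN | hN
  · exact base5b ms hnd (Or.inr (Or.inr (Or.inl ⟨hlen, by omega⟩)))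
  · have h1 := enc_nodup hnd
    have h2 := enc_lt (ms := ms)
    match ms, hlen, hnd, h1, h2, hN, hb with
    | [a, b], _, hnd, h1, h2, hN, hb =>
      have ha : encV a.1 < 32 := encV_lt a.1
      have hb' : encV b.1 < 32 := encV_lt b.1
      have hne : encV b.1 ≠ encV a.1 := by
        intro h0
        simp [h0] at h1
      have hpos : 0 < encV b.1 ^^^ encV a.1 := xor_pos hne
      have hlt : encV b.1 ^^^ encV a.1 < 32 := Nat.xor_lt_two_pow (n := 5) hb' ha
      by_cases h31 : encV b.1 ^^^ encV a.1 = 31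
      · have hCB : CB B2a (maskL ([a, b].map fun a => encV a.1)) 24 :=
          pair_ok B2a_inv ha hb' (by rw [h31]; exact f31)
        refine CB.toHF hCB (maskL_lt enc_lt) [a, b] hnd (fun _ => testBit_maskL.symm) hN.le
          (fun k hk h => hb ⟨B2a_list hnd hk hN h, ?_⟩)
        have h3 := anti_iff _ _ h31
        intro x hx y hy hxy i
        simp only [List.mem_cons, List.not_mem_nil, or_false] at hx hy
        rcases hx with rfl | rfl <;> rcases hy with rfl | rfl
        · exact absurd rfl hxy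
        · exact (h3 i).symm
        · exact h3 i
        · exact absurd rfl hxy
      · have h30 : encV b.1 ^^^ encV a.1 < 31 := by omega
        have hCB : CB B2 (maskL ([a, b].map fun a => encV a.1)) 24 :=
          pair_ok B2_inv ha hb' (all2 hpos h30)
        exact CB.toHF hCB (maskL_lt enc_lt) [a, b] hnd (fun _ => testBit_maskL.symm) hN.le
          (fun k hk => B2_list hnd hk hN)

end Pool.Agent.Work.MP_bf01b2_co.MR
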