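import Pool.Agent.Work.MP_bf01b2_co.MR.K2C0
import Pool.Agent.Work.MP_bf01b2_co.MR.K2C1
import Pool.Agent.Work.MP_bf01b2_co.MR.K2C2
import Pool.Agent.Work.MP_bf01b2_co.MR.K2C3
import Pool.Agent.Work.MP_bf01b2_co.MR.K2C4
import Pool.Agent.Work.MP_bf01b2_co.MR.K2C5
import Pool.Agent.Work.MP_bf01b2_co.MR.K2C6

/-!
# Two roots in `Q_5`: the table of images
-/

set_option autoImplicit false
set_option maxRecDepth 100000

namespace Pool.Agent.Work.MP_bf01b2_co.MR

namespace K2

open JT

theorem g0 : ∀ j < 1300, JGood tab j := by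
  intro j hj
  refine chkL_ok c0 0 (fun j hj => absurd hj (Nat.not_lt_zero j)) k0 j ?_
  rw [l0]
  omega

theorem g1 : ∀ j < 2600, JGood tab j := by
  intro j hj
  refine chkL_ok c1 1300 g0 k1 j ?_
  rw [l1]
  omega

theorem g2 : ∀ j < 3900, JGood tab j := by
  intro j hj
  refine chkL_ok c2 2600 g1 k2 j ?_
  rw [l2]
  omega

theorem g3 : ∀ j < 5200, JGood tab j := by
  intro j hj
  refine chkL_ok c3 3900 g2 k3 j ?_
  rw [l3]
  omega

theorem g4 : ∀ j < 6500, JGood tab j := by
  intro j hj
  refine chkL_ok c4 5200 g3 k4 j ?_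
  rw [l4]
  omega

theorem g5 : ∀ j < 7800, JGood tab j := by
  intro j hj
  refine chkL_ok c5 6500 g4 k5 j ?_
  rw [l5]
  omega

theorem g6 : ∀ j < 8512, JGood tab j := by
  intro j hj
  refine chkL_ok c6 7800 g5 k6 j ?_
  rw [l6]
  omega

/-- the whole table -/
theorem good : ∀ j < 8512, JGood tab j := g6

/-- the table of images -/
def itab : ℕ := nat_lit 0x2000000030200000005020000001102000001010200010001050000445505004500450500003033050000515105003100310505010501051101110105030300030c0000ffff0c333333330c555555550c555455d50c555d55450c00ff40fd13ffff5d5d13ffff77551377f777f7137f5f7f5f135dff5dff133f3fff3f1373ff73ff1333f3ffff16ffff7f7f16ffff5fff16ffff3fff16fffdfffd16ffffffdd16ffffff7716ffffff3f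

/-- the references -/
def iref : ℕ := nat_lit 0x2000200000100120000008091800000448d000000202b000000f01670000078094000003c049800001e04ce00000f0357000007801b800003c492000001e0000001381058a0009c08ac50004e0400000027040012001382003a0009c10000000818001580040c000000020610058001030802b000818456280040c2002c002061001700103080000008470016000423802b000211c000000108e80450008474000000423c002a00211e

theorem ichk : Im.imL tab 8512 itab iref (nat_lit 34) = true := by decide +kernel

theorem igood : ∀ i < 34, Tab.Good itab i := Im.imL_ok good ichk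

end K2

end Pool.Agent.Work.MP_bf01b2_co.MR
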