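import Pool.Agent.Work.MP_bf01b2_co.MR.K2I

/-!
# Two roots in `Q_5`: certificates of the special vectors, part 0
-/

set_option autoImplicit false
set_option maxRecDepth 100000

namespace Pool.Agent.Work.MP_bf01b2_co.MR

namespace K2

open Tab Exc K4

theorem t1_13 : GF FULL [0, 1] [13, 11] := by
  have h := JT.chkW_ok (zs := [0, 1]) good (by decide) (by decide)
    (L := [([13, 11], [.cov (nat_lit 2309574936697509983),
      .cov (nat_lit 2311404524046129247),
      .cov (nat_lit 2311406697299581026),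
      .rot (.exp (.alt (nat_lit 1) (.cov (nat_lit 63930185255171499593456433903960075)) (.alt (nat_lit 1) (.cov (nat_lit 14603365099089087595929920336822278)) (.alt (nat_lit 1) (.cov (nat_lit 14603365099089087596094847080988674)) (.alt (nat_lit 1) (.cov (nat_lit 31765734875393804539261878273)) (.alt (nat_lit 1) (.exp (.alt (nat_lit 3) (.cov (nat_lit 1770901856668691202275)) .e)) (.alt (nat_lit 1) (.exp (.alt (nat_lit 3) (.cov (nat_lit 22391810386892661815978393278087175)) (.alt (nat_lit 3) (.cov (nat_lit 757101815869569443087512098216869891)) (.alt (nat_lit 3) (.cov (nat_lit 1622622952752023136333678408368129)) (.alt (nat_lit 3) (.exp (.alt (nat_lit 2) (.exp (.alt (nat_lit 7) (.cov (nat_lit 1298105888490602779700881645371394)) (.alt (nat_lit 7) (.cov (nat_lit 31770571182802678471159971841)) (.alt (nat_lit 7) (.cov (nat_lit 4218771382019446173926982960545792)) (.alt (nat_lit 7) (.cov (nat_lit 737883489251558948957)) .e))))) .e)) (.alt (nat_lit 3) (.cov (nat_lit 1770901856668693299707))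 .e)))))) .e))))))),
      .cov (nat_lit 2309574936697509983),
      .cov (nat_lit 2311404524046129247),
      .cov (nat_lit 2311406697299581026),
      .cov (nat_lit 2311408737073500350),
      .cov (nat_lit 2309574936697509983),
      .cov (nat_lit 2311404524046129247),
      .cov (nat_lit 2311406697299581026),
      .cov (nat_lit 2311408737073500351),
      .cov (nat_lit 2309574936697509983),
      .cov (nat_lit 2311404524046129247),
      .cov (nat_lit 2311406697299581026),
      .cov (nat_lit 2311408737073500352),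
      .cov (nat_lit 2309574936697509983),
      .cov (nat_lit 2311404524046129247),
      .cov (nat_lit 2311406697299581026),
      .cov (nat_lit 2311408737073499602)])]) (by decide +kernel)
  exact h _ List.mem_cons_self

theorem t1_14 : GF FULL [0, 1] [14, 10] := by
  have h := JT.chkW_ok (zs := [0, 1]) good (by decide) (by decide)
    (L := [([14, 10], [.cov (nat_lit 2309574751678370838),
      .cov (nat_lit 2309429627686230874),
      .rot (.exp (.alt (nat_lit 1) (.cov (nat_lit 13954331666907094705702380430688262)) (.alt (nat_lit 1) (.exp (.alt (nat_lit 3) (.cov (nat_lit 48028779830055751753818781757997057)) .e)) (.alt (nat_lit 1) (.cov (nat_lit 47217483416895465266147174906855426)) (.alt (nat_lit 1) (.cov (nat_lit 33859594376519325517259735041)) (.alt (nat_lit 1) (.exp (.alt (nat_lit 3) (.cov (nat_lit 15894540712935641)) .e)) (.alt (nat_lit 1) (.exp (.alt (nat_lit 3) (.cov (nat_lit 47704261247383183754922649554255878)) (.alt (nat_lit 3) (.cov (nat_lit 47704261247384659494466138504429571))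 (.alt (nat_lit 3) (.cov (nat_lit 48028779830057084531113291645190145)) (.alt (nat_lit 3) (.cov (nat_lit 33859594381131013734709329920)) (.alt (nat_lit 3) (.exp (.alt (nat_lit 2) (.cov (nat_lit 14278850220565523738317550549729282)) (.alt (nat_lit 2) (.cov (nat_lit 3569737949837072819602922795958273)) (.alt (nat_lit 2) (.exp (.alt (nat_lit 6) (.cov (nat_lit 73802373855684067346)) .e)) (.alt (nat_lit 2) (.cov (nat_lit 15397560845860957)) .e))))) .e)))))) .e))))))),
      .rot (.exp (.alt (nat_lit 1) (.exp (.alt (nat_lit 3) (.exp (.alt (nat_lit 2) (.exp (.alt (nat_lit 7) (.exp (.alt (nat_lit 5) (.exp (.alt (nat_lit 13) (.exp (.alt (nat_lit 21) (.exp (.alt (nat_lit 23) (.exp (.alt (nat_lit 19) (.exp (.alt (nat_lit 31) (.exp (.alt (nat_lit 0) (.cov (nat_lit 5321886085435019493410)) (.alt (nat_lit 0) (.cov (nat_lit 5321888961605671059463)) (.alt (nat_lit 0) (.cov (nat_lit 103310997259068165324803)) (.alt (nat_lit 0) (.exp (.alt (nat_lit 4) (.exp (.alt (nat_lit 8) (.cov (nat_lit 29019034517254833176587))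 (.alt (nat_lit 8) (.cov (nat_lit 5114361641799362019330)) (.alt (nat_lit 8) (.cov (nat_lit 103329441810715691188225)) (.alt (nat_lit 8) (.exp (.alt (nat_lit 10) (.exp (.alt (nat_lit 14) (.exp (.alt (nat_lit 30) (.exp (.alt (nat_lit 22) (.exp (.alt (nat_lit 28) (.exp (.alt (nat_lit 26) (.cov (nat_lit 404341100889463448403969)) (.alt (nat_lit 11) (.cov (nat_lit 296747023)) .e))) .e)) .e)) .e)) .e)) (.alt (nat_lit 12) (.cov (nat_lit 3016043076065135951875)) (.alt (nat_lit 10) (.exp (.alt (nat_lit 11) (.exp (.alt (nat_lit 26) (.exp (.alt (nat_lit 24) (.exp (.alt (nat_lit 16) (.exp (.alt (nat_lit 25) (.exp (.alt (nat_lit 30) (.cov (nat_lit 1674042035684272766976)) (.alt (nat_lit 18) (.cov (nat_lit 1935671304)) .e))) .e)) .e)) .e)) (.alt (nat_lit 14) (.cov (nat_lit 1618701937759917965313)) (.alt (nat_lit 14) (.exp (.alt (nat_lit 30) (.cov (nat_lit 25433448409219257597955)) (.alt (nat_lit 30) (.exp (.alt (nat_lit 22) (.exp (.alt (nat_lit 26) (.cov (nat_lit 424275122491465138177)) (.alt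 (nat_lit 26) (.exp (.alt (nat_lit 24) (.cov (nat_lit 21529656188023406067712)) (.alt (nat_lit 18) (.cov (nat_lit 654311432)) .e))) .e))) .e)) (.alt (nat_lit 12) (.cov (nat_lit 1371537599)) .e)))) .e)))) .e)) (.alt (nat_lit 9) (.cov (nat_lit 9958329492)) .e))))) .e))))) .e)) (.alt (nat_lit 0) (.cov (nat_lit 138418579)) .e)))))) .e)) .e)) .e)) .e)) .e)) .e)) .e)) .e)) .e)) (.alt (nat_lit 1) (.exp (.alt (nat_lit 3) (.exp (.alt (nat_lit 2) (.exp (.alt (nat_lit 6) (.exp (.alt (nat_lit 7) (.exp (.alt (nat_lit 14) (.exp (.alt (nat_lit 11) (.exp (.alt (nat_lit 15) (.exp (.alt (nat_lit 13) (.exp (.alt (nat_lit 31) (.exp (.alt (nat_lit 0) (.cov (nat_lit 2969927097689625853986)) (.alt (nat_lit 0) (.exp (.alt (nat_lit 4) (.exp (.alt (nat_lit 12) (.exp (.alt (nat_lit 8) (.exp (.alt (nat_lit 28) (.exp (.alt (nat_lit 16) (.cov (nat_lit 6387185168507302051842)) (.alt (nat_lit 16) (.cov (nat_lit 631801131859164790785)) (.alt (nat_lit 16) (.exp (.alt (nat_lit 20) (.cov (nat_lit 2999901772580500013059))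 (.alt (nat_lit 18) (.exp (.alt (nat_lit 22) (.exp (.alt (nat_lit 19) (.cov (nat_lit 62257770044920430593)) (.alt (nat_lit 26) (.cov (nat_lit 766509071)) .e))) .e)) (.alt (nat_lit 18) (.exp (.alt (nat_lit 19) (.cov (nat_lit 62257770044886876162)) (.alt (nat_lit 22) (.cov (nat_lit 9889120323)) .e))) .e)))) .e)))) .e)) .e)) .e)) .e)) (.alt (nat_lit 0) (.exp (.alt (nat_lit 4) (.exp (.alt (nat_lit 5) (.exp (.alt (nat_lit 21) (.exp (.alt (nat_lit 16) (.cov (nat_lit 25428836965096265613314)) (.alt (nat_lit 8) (.cov (nat_lit 11500783784)) .e))) .e)) .e)) .e)) (.alt (nat_lit 0) (.exp (.alt (nat_lit 4) (.exp (.alt (nat_lit 16) (.cov (nat_lit 24109894763826032672779)) (.alt (nat_lit 16) (.exp (.alt (nat_lit 17) (.exp (.alt (nat_lit 19) (.exp (.alt (nat_lit 21) (.exp (.alt (nat_lit 18) (.cov (nat_lit 29058233619714655911939)) (.alt (nat_lit 18) (.exp (.alt (nat_lit 22) (.exp (.alt (nat_lit 26) (.cov (nat_lit 424275122491456749569)) (.alt (nat_lit 26) (.exp (.alt (nat_lit 24) (.cov (nat_lit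 1385811659532554731520)) (.alt (nat_lit 10) (.cov (nat_lit 10343153672)) .e))) .e))) .e)) (.alt (nat_lit 18) (.cov (nat_lit 21233664592)) .e)))) .e)) .e)) .e)) (.alt (nat_lit 8) (.cov (nat_lit 276704457597876436993)) (.alt (nat_lit 8) (.cov (nat_lit 9789509636)) .e))))) .e)) (.alt (nat_lit 0) (.cov (nat_lit 47584385125)) .e)))))) .e)) .e)) .e)) .e)) .e)) .e)) .e)) .e)) (.alt (nat_lit 3) (.exp (.alt (nat_lit 2) (.exp (.alt (nat_lit 7) (.exp (.alt (nat_lit 5) (.exp (.alt (nat_lit 13) (.exp (.alt (nat_lit 21) (.exp (.alt (nat_lit 15) (.exp (.alt (nat_lit 11) (.exp (.alt (nat_lit 31) (.exp (.alt (nat_lit 0) (.cov (nat_lit 41994013303823017181218)) (.alt (nat_lit 0) (.cov (nat_lit 41994016180135939538951)) (.alt (nat_lit 0) (.cov (nat_lit 7756862957252696342531)) (.alt (nat_lit 0) (.exp (.alt (nat_lit 4) (.exp (.alt (nat_lit 16) (.cov (nat_lit 1810087008681454469131)) (.alt (nat_lit 16) (.cov (nat_lit 63350732682328055742466)) (.alt (nat_lit 16) (.cov (nat_lit 7793754252973931757569))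 (.alt (nat_lit 16) (.exp (.alt (nat_lit 18) (.exp (.alt (nat_lit 22) (.exp (.alt (nat_lit 30) (.exp (.alt (nat_lit 14) (.exp (.alt (nat_lit 28) (.exp (.alt (nat_lit 26) (.cov (nat_lit 25297403662879573409793)) (.alt (nat_lit 19) (.cov (nat_lit 4625268751)) .e))) .e)) .e)) .e)) .e)) (.alt (nat_lit 20) (.cov (nat_lit 47952311639621612077059)) (.alt (nat_lit 18) (.exp (.alt (nat_lit 19) (.exp (.alt (nat_lit 26) (.exp (.alt (nat_lit 24) (.exp (.alt (nat_lit 8) (.exp (.alt (nat_lit 25) (.exp (.alt (nat_lit 30) (.cov (nat_lit 26521806302971047182336)) (.alt (nat_lit 10) (.cov (nat_lit 19610468360)) .e))) .e)) .e)) .e)) (.alt (nat_lit 22) (.cov (nat_lit 25599469233435735752705)) (.alt (nat_lit 22) (.exp (.alt (nat_lit 30) (.cov (nat_lit 406819882133164237258755)) (.alt (nat_lit 30) (.exp (.alt (nat_lit 14) (.exp (.alt (nat_lit 26) (.cov (nat_lit 424275122491456749569)) (.alt (nat_lit 26) (.exp (.alt (nat_lit 24) (.cov (nat_lit 343904955620171530108928)) (.alt (nat_lit 10) (.cov (nat_lit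 10343153672)) .e))) .e))) .e)) (.alt (nat_lit 20) (.cov (nat_lit 21806186687)) .e)))) .e)))) .e)) (.alt (nat_lit 17) (.cov (nat_lit 159241997460)) .e))))) .e))))) .e)) (.alt (nat_lit 0) (.cov (nat_lit 1950357907)) .e)))))) .e)) .e)) .e)) .e)) .e)) .e)) (.alt (nat_lit 7) (.exp (.alt (nat_lit 5) (.exp (.alt (nat_lit 13) (.exp (.alt (nat_lit 21) (.exp (.alt (nat_lit 23) (.exp (.alt (nat_lit 19) (.exp (.alt (nat_lit 31) (.exp (.alt (nat_lit 0) (.cov (nat_lit 5321886085435019493410)) (.alt (nat_lit 0) (.cov (nat_lit 5321888961605671059463)) (.alt (nat_lit 0) (.cov (nat_lit 103310997259068165324803)) (.alt (nat_lit 0) (.exp (.alt (nat_lit 4) (.exp (.alt (nat_lit 8) (.cov (nat_lit 29019034517254833176587)) (.alt (nat_lit 8) (.cov (nat_lit 5114361641799362019330)) (.alt (nat_lit 8) (.cov (nat_lit 103329441810715691188225)) (.alt (nat_lit 8) (.exp (.alt (nat_lit 10) (.exp (.alt (nat_lit 14) (.exp (.alt (nat_lit 30) (.exp (.alt (nat_lit 22) (.exp (.alt (nat_lit 28) (.exp (.alt (nat_lit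 26) (.cov (nat_lit 404341100889463448403969)) (.alt (nat_lit 11) (.cov (nat_lit 296747023)) .e))) .e)) .e)) .e)) .e)) (.alt (nat_lit 12) (.cov (nat_lit 3016043076065135951875)) (.alt (nat_lit 10) (.exp (.alt (nat_lit 11) (.exp (.alt (nat_lit 26) (.exp (.alt (nat_lit 24) (.exp (.alt (nat_lit 16) (.exp (.alt (nat_lit 25) (.exp (.alt (nat_lit 30) (.cov (nat_lit 1674042035684272766976)) (.alt (nat_lit 18) (.cov (nat_lit 1935671304)) .e))) .e)) .e)) .e)) (.alt (nat_lit 14) (.cov (nat_lit 1618701937759917965313)) (.alt (nat_lit 14) (.exp (.alt (nat_lit 30) (.cov (nat_lit 25433448409219257597955)) (.alt (nat_lit 30) (.exp (.alt (nat_lit 22) (.exp (.alt (nat_lit 26) (.cov (nat_lit 424275122491465138177)) (.alt (nat_lit 26) (.exp (.alt (nat_lit 24) (.cov (nat_lit 21529656188023406067712)) (.alt (nat_lit 18) (.cov (nat_lit 654311432)) .e))) .e))) .e)) (.alt (nat_lit 12) (.cov (nat_lit 1371537599)) .e)))) .e)))) .e)) (.alt (nat_lit 9) (.cov (nat_lit 9958329492)) .e))))) .e))))) .e)) (.alt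 (nat_lit 0) (.cov (nat_lit 138418579)) .e)))))) .e)) .e)) .e)) .e)) .e)) .e)) .e))) .e)) .e))) .e))),
      .cov (nat_lit 2309574751678372024),
      .cov (nat_lit 2309429627686230874),
      .cov (nat_lit 2309431815166761145),
      .cov (nat_lit 2308103605120407737),
      .cov (nat_lit 2309574751678371417),
      .cov (nat_lit 2309429627686230874),
      .cov (nat_lit 2309431815166761146),
      .cov (nat_lit 2308103605120407738),
      .cov (nat_lit 2309574751678372443),
      .cov (nat_lit 2309429627686230874),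
      .cov (nat_lit 2309431815166761147),
      .cov (nat_lit 2308103605120407739),
      .rot (.exp (.alt (nat_lit 1) (.exp (.alt (nat_lit 3) (.cov (nat_lit 973589520569730486479756349931522)) .e)) (.alt (nat_lit 1) (.exp (.alt (nat_lit 3) (.cov (nat_lit 3082960119350758589209064175042561)) .e)) (.alt (nat_lit 1) (.cov (nat_lit 3245219536414057309077189161910273)) (.alt (nat_lit 1) (.exp (.alt (nat_lit 3) (.exp (.alt (nat_lit 5) (.cov (nat_lit 34033680091148638388160036866)) (.alt (nat_lit 5) (.cov (nat_lit 3894256503495506463915106458664961)) (.alt (nat_lit 5) (.cov (nat_lit 811330243740452559490517422833664)) (.alt (nat_lit 5) (.cov (nat_lit 1549541897553428086877)) .e))))) .e)) (.alt (nat_lit 1) (.cov (nat_lit 15478924713656827)) .e)))))),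
      .cov (nat_lit 2309429627686230874),
      .cov (nat_lit 2309431815166760538),
      .cov (nat_lit 2308103605120407130)])]) (by decide +kernel)
  exact h _ List.mem_cons_self

theorem t1_15 : GF FULL [0, 1] [15, 9] := by
  have h := JT.chkW_ok (zs := [0, 1]) good (by decide) (by decide)
    (L := [([15, 9], [.cov (nat_lit 25385026187611835733623),
      .cov (nat_lit 2307971663725074040),
      .rot (.exp (.alt (nat_lit 1) (.cov (nat_lit 47217485936297242277852077511147526)) (.alt (nat_lit 1) (.cov (nat_lit 13954334186308502782589580518359043)) (.alt (nat_lit 1) (.cov (nat_lit 36499888366557506310029443074)) (.alt (nat_lit 1) (.cov (nat_lit 162295675168180008192292995203073)) (.alt (nat_lit 1) (.exp (.alt (nat_lit 3) (.cov (nat_lit 25530310055392957169757)) .e)) (.alt (nat_lit 1) (.cov (nat_lit 14926969876513231)) .e))))))),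
      .cov (nat_lit 406863694247653250440416),
      .cov (nat_lit 25385026187611835734661),
      .cov (nat_lit 2307971663725075077),
      .cov (nat_lit 2307973862748330994),
      .cov (nat_lit 76093934208876026866),
      .cov (nat_lit 25385026187611835734662),
      .cov (nat_lit 2307971663725075078),
      .cov (nat_lit 2307973862748330631),
      .cov (nat_lit 76093934208876026503),
      .cov (nat_lit 25385026187611835734664),
      .cov (nat_lit 2307971663725075080),
      .cov (nat_lit 2307973863016766088),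
      .cov (nat_lit 76093934209110907528),
      .cov (nat_lit 25385026187611835734233),
      .cov (nat_lit 2307971663725074649),
      .cov (nat_lit 2307973862748330201),
      .cov (nat_lit 76093934208842471641),
      .rot (.exp (.alt (nat_lit 1) (.exp (.alt (nat_lit 3) (.exp (.alt (nat_lit 2) (.exp (.alt (nat_lit 6) (.exp (.alt (nat_lit 10) (.exp (.alt (nat_lit 5) (.exp (.alt (nat_lit 7) (.exp (.alt (nat_lit 15) (.exp (.alt (nat_lit 23) (.exp (.alt (nat_lit 0) (.cov (nat_lit 41846440778389669281811)) (.alt (nat_lit 0) (.cov (nat_lit 6576269146308390944779)) (.alt (nat_lit 0) (.cov (nat_lit 21508912605940861108226)) (.alt (nat_lit 0) (.cov (nat_lit 344326937036063055544321)) (.alt (nat_lit 0) (.exp (.alt (nat_lit 8) (.cov (nat_lit 470393275701654454306)) (.alt (nat_lit 4) (.cov (nat_lit 22754062111257216942087)) (.alt (nat_lit 4) (.cov (nat_lit 2850029024850026168323)) (.alt (nat_lit 4) (.exp (.alt (nat_lit 12) (.exp (.alt (nat_lit 20) (.cov (nat_lit 23132217303727295430667))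 (.alt (nat_lit 20) (.exp (.alt (nat_lit 16) (.exp (.alt (nat_lit 17) (.exp (.alt (nat_lit 18) (.exp (.alt (nat_lit 28) (.cov (nat_lit 10164156002206180442115)) (.alt (nat_lit 28) (.exp (.alt (nat_lit 24) (.exp (.alt (nat_lit 29) (.cov (nat_lit 440416023712298434561)) (.alt (nat_lit 30) (.cov (nat_lit 185018089487)) .e))) .e)) (.alt (nat_lit 21) (.cov (nat_lit 10029629631)) .e)))) .e)) .e)) .e)) (.alt (nat_lit 20) (.cov (nat_lit 6557822428622692024321)) (.alt (nat_lit 20) (.exp (.alt (nat_lit 16) (.exp (.alt (nat_lit 17) (.exp (.alt (nat_lit 25) (.exp (.alt (nat_lit 9) (.exp (.alt (nat_lit 27) (.exp (.alt (nat_lit 24) (.cov (nat_lit 2863857026239530270721)) (.alt (nat_lit 18) (.cov (nat_lit 94371855)) .e))) .e)) .e)) .e)) .e)) (.alt (nat_lit 21) (.cov (nat_lit 22055388803142442287107)) (.alt (nat_lit 21) (.exp (.alt (nat_lit 17) (.exp (.alt (nat_lit 29) (.cov (nat_lit 6564735080263167508482)) (.alt (nat_lit 29) (.cov (nat_lit 10240248946854558957569)) (.alt (nat_lit 29) (.exp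 (.alt (nat_lit 28) (.cov (nat_lit 102102728465575860764675)) (.alt (nat_lit 25) (.exp (.alt (nat_lit 9) (.exp (.alt (nat_lit 24) (.cov (nat_lit 428886808509890428929)) (.alt (nat_lit 24) (.exp (.alt (nat_lit 26) (.cov (nat_lit 438110182745737003008)) (.alt (nat_lit 16) (.cov (nat_lit 656408584)) .e))) .e))) .e)) (.alt (nat_lit 28) (.cov (nat_lit 46498054736)) .e)))) .e)))) .e)) (.alt (nat_lit 21) (.cov (nat_lit 166145821842)) .e))))) .e))))) .e)) (.alt (nat_lit 4) (.cov (nat_lit 851449947)) .e)))))) .e)))))) .e)) .e)) .e)) .e)) .e)) .e)) .e)) .e)) (.alt (nat_lit 1) (.exp (.alt (nat_lit 3) (.exp (.alt (nat_lit 5) (.exp (.alt (nat_lit 7) (.exp (.alt (nat_lit 6) (.exp (.alt (nat_lit 15) (.exp (.alt (nat_lit 4) (.exp (.alt (nat_lit 12) (.exp (.alt (nat_lit 20) (.exp (.alt (nat_lit 0) (.cov (nat_lit 110682311621800362004)) (.alt (nat_lit 0) (.cov (nat_lit 343865759574355628523531)) (.alt (nat_lit 0) (.cov (nat_lit 627198316700504162306)) (.alt (nat_lit 0) (.cov (nat_lit 43128498626255078293505))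 (.alt (nat_lit 0) (.exp (.alt (nat_lit 16) (.cov (nat_lit 344345372969739088822306)) (.alt (nat_lit 2) (.cov (nat_lit 343870371260374058008583)) (.alt (nat_lit 2) (.cov (nat_lit 6387192200983696375811)) (.alt (nat_lit 2) (.exp (.alt (nat_lit 10) (.exp (.alt (nat_lit 18) (.cov (nat_lit 42028600764234219913227)) (.alt (nat_lit 18) (.exp (.alt (nat_lit 19) (.exp (.alt (nat_lit 17) (.exp (.alt (nat_lit 23) (.exp (.alt (nat_lit 26) (.cov (nat_lit 406849858092284724117507)) (.alt (nat_lit 26) (.exp (.alt (nat_lit 27) (.exp (.alt (nat_lit 24) (.cov (nat_lit 64563613210466320385)) (.alt (nat_lit 30) (.cov (nat_lit 47575990287)) .e))) .e)) (.alt (nat_lit 16) (.cov (nat_lit 360710335)) .e)))) .e)) .e)) .e)) (.alt (nat_lit 18) (.cov (nat_lit 1830844259734656122881)) (.alt (nat_lit 18) (.exp (.alt (nat_lit 19) (.exp (.alt (nat_lit 17) (.exp (.alt (nat_lit 25) (.exp (.alt (nat_lit 9) (.exp (.alt (nat_lit 29) (.exp (.alt (nat_lit 27) (.cov (nat_lit 6417161103437864108033)) (.alt (nat_lit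 23) (.cov (nat_lit 200278031)) .e))) .e)) .e)) .e)) .e)) (.alt (nat_lit 16) (.cov (nat_lit 793210415183674998787)) (.alt (nat_lit 16) (.exp (.alt (nat_lit 17) (.exp (.alt (nat_lit 24) (.cov (nat_lit 654859447785908862978)) (.alt (nat_lit 24) (.cov (nat_lit 406919033507904787316737)) (.alt (nat_lit 24) (.exp (.alt (nat_lit 26) (.cov (nat_lit 26551782268690789040131)) (.alt (nat_lit 25) (.exp (.alt (nat_lit 9) (.exp (.alt (nat_lit 27) (.cov (nat_lit 71481142082341437441)) (.alt (nat_lit 27) (.exp (.alt (nat_lit 31) (.cov (nat_lit 142962277566389420032)) (.alt (nat_lit 19) (.cov (nat_lit 9788456968)) .e))) .e))) .e)) (.alt (nat_lit 26) (.cov (nat_lit 12141462096)) .e)))) .e)))) .e)) (.alt (nat_lit 16) (.cov (nat_lit 156482145426)) .e))))) .e))))) .e)) (.alt (nat_lit 2) (.cov (nat_lit 1386223707)) .e)))))) .e)))))) .e)) .e)) .e)) .e)) .e)) .e)) (.alt (nat_lit 5) (.exp (.alt (nat_lit 7) (.exp (.alt (nat_lit 6) (.exp (.alt (nat_lit 15) (.exp (.alt (nat_lit 11) (.exp (.alt (nat_lit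 9) (.exp (.alt (nat_lit 10) (.exp (.alt (nat_lit 0) (.cov (nat_lit 364009602653690133479442)) (.alt (nat_lit 0) (.cov (nat_lit 756321391052758974475)) (.alt (nat_lit 0) (.cov (nat_lit 36902506362434486274)) (.alt (nat_lit 0) (.cov (nat_lit 36904467871146442753)) (.alt (nat_lit 0) (.exp (.alt (nat_lit 16) (.cov (nat_lit 22043859588096980942882)) (.alt (nat_lit 4) (.cov (nat_lit 1374285729983597903879)) (.alt (nat_lit 4) (.cov (nat_lit 1595650427884014665731)) (.alt (nat_lit 4) (.cov (nat_lit 46127839907401433088)) (.alt (nat_lit 2) (.cov (nat_lit 18880607)) .e)))))) .e)))))) .e)) .e)) .e)) .e)) .e)) .e)) .e))) .e)) .e))),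
      .rot (.exp (.alt (nat_lit 1) (.cov (nat_lit 30764744278305685714014044166)) (.alt (nat_lit 1) (.exp (.alt (nat_lit 3) (.cov (nat_lit 6490407577892604371625748118634497)) .e)) (.alt (nat_lit 1) (.cov (nat_lit 162295675169139238881926868631553)) (.alt (nat_lit 1) (.exp (.alt (nat_lit 3) (.cov (nat_lit 25530310055392957169758)) .e)) (.alt (nat_lit 1) (.exp (.alt (nat_lit 3) (.cov (nat_lit 324555058382501174412010945773570)) (.alt (nat_lit 3) (.cov (nat_lit 6490407577892608983302970453000193)) (.alt (nat_lit 3) (.cov (nat_lit 36398338602321567875824877568)) (.alt (nat_lit 3) (.cov (nat_lit 25530310055392959266909)) .e))))) .e)))))),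
      .cov (nat_lit 2307973862748330203),
      .cov (nat_lit 76093934211728152794)])]) (by decide +kernel)
  exact h _ List.mem_cons_self

theorem t1_16 : GF FULL [0, 1] [16, 8] := by
  have h := JT.chkW_ok (zs := [0, 1]) good (by decide) (by decide)
    (L := [([16, 8], [.cov (nat_lit 2306322396283411468),
      .cov (nat_lit 2306863357782662689),
      .rot (.exp (.alt (nat_lit 1) (.cov (nat_lit 47217486850245161906511733589016578)) (.alt (nat_lit 1) (.cov (nat_lit 37292943704224692053518319617)) (.alt (nat_lit 1) (.exp (.alt (nat_lit 3) (.cov (nat_lit 1770904387744449953810)) .e)) (.alt (nat_lit 1) (.cov (nat_lit 1770904387744449953885)) .e))))),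
      .cov (nat_lit 2306322396283412174),
      .cov (nat_lit 2306863357782662689),
      .cov (nat_lit 2306324595306667021),
      .cov (nat_lit 2306322396283412175),
      .cov (nat_lit 2306863357782662689),
      .cov (nat_lit 2306324595306667022),
      .cov (nat_lit 592602132754989063888),
      .cov (nat_lit 2306863357782662689),
      .cov (nat_lit 2306324595306667310),
      .cov (nat_lit 2306320197864136223),
      .cov (nat_lit 2306863357782662689),
      .cov (nat_lit 2306324595306667023),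
      .cov (nat_lit 2306320197864136223),
      .cov (nat_lit 2306863357782662689),
      .cov (nat_lit 2306324595306666644)])]) (by decide +kernel)
  exact h _ List.mem_cons_self

theorem t1_17 : GF FULL [0, 1] [17, 7] := by
  have h := JT.chkW_ok (zs := [0, 1]) good (by decide) (by decide)
    (L := [([17, 7], [.cov (nat_lit 2306051916422978872),
      .cov (nat_lit 25385025895141742747500),
      .rot (.exp (.alt (nat_lit 1) (.exp (.alt (nat_lit 3) (.exp (.alt (nat_lit 2) (.exp (.alt (nat_lit 7) (.exp (.alt (nat_lit 5) (.exp (.alt (nat_lit 4) (.exp (.alt (nat_lit 13) (.exp (.alt (nat_lit 0) (.cov (nat_lit 406806050353852618637350)) (.alt (nat_lit 0) (.cov (nat_lit 404297296928954583613474)) (.alt (nat_lit 0) (.cov (nat_lit 36904467870576017415)) (.alt (nat_lit 0) (.cov (nat_lit 36907207853518880771)) (.alt (nat_lit 0) (.exp (.alt (nat_lit 8) (.exp (.alt (nat_lit 16) (.cov (nat_lit 1973803463070034427924)) (.alt (nat_lit 16) (.cov (nat_lit 1973804912222803066891)) (.alt (nat_lit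 16) (.exp (.alt (nat_lit 17) (.exp (.alt (nat_lit 19) (.exp (.alt (nat_lit 21) (.exp (.alt (nat_lit 18) (.exp (.alt (nat_lit 22) (.exp (.alt (nat_lit 30) (.exp (.alt (nat_lit 14) (.exp (.alt (nat_lit 28) (.exp (.alt (nat_lit 26) (.cov (nat_lit 1611784272236475580417)) (.alt (nat_lit 26) (.exp (.alt (nat_lit 27) (.cov (nat_lit 25454200989705095348224)) (.alt (nat_lit 10) (.cov (nat_lit 1756364808)) .e))) .e))) .e)) .e)) .e)) .e)) (.alt (nat_lit 18) (.cov (nat_lit 104616097748050235097091)) (.alt (nat_lit 18) (.exp (.alt (nat_lit 22) (.exp (.alt (nat_lit 26) (.cov (nat_lit 424275146680846778370)) (.alt (nat_lit 26) (.cov (nat_lit 3154393383938901934081)) (.alt (nat_lit 26) (.exp (.alt (nat_lit 10) (.cov (nat_lit 343879591353686156115971)) (.alt (nat_lit 27) (.exp (.alt (nat_lit 11) (.exp (.alt (nat_lit 31) (.cov (nat_lit 404348018418491671445505)) (.alt (nat_lit 25) (.cov (nat_lit 4627365903)) .e))) .e)) (.alt (nat_lit 27) (.exp (.alt (nat_lit 31) (.cov (nat_lit 435804337537664679938))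 (.alt (nat_lit 11) (.cov (nat_lit 18940428355)) .e))) .e)))) .e)))) .e)) (.alt (nat_lit 18) (.exp (.alt (nat_lit 26) (.cov (nat_lit 7623117247945949315074)) (.alt (nat_lit 22) (.cov (nat_lit 3051358376)) .e))) .e))))) .e)) .e)) .e)) (.alt (nat_lit 16) (.cov (nat_lit 1973814636303637020673)) (.alt (nat_lit 16) (.exp (.alt (nat_lit 18) (.cov (nat_lit 23229063820630772678690)) (.alt (nat_lit 17) (.cov (nat_lit 1976110755232051363847)) (.alt (nat_lit 17) (.cov (nat_lit 24259781407180458033155)) (.alt (nat_lit 17) (.exp (.alt (nat_lit 19) (.exp (.alt (nat_lit 21) (.cov (nat_lit 41890250095719934328843)) (.alt (nat_lit 21) (.cov (nat_lit 23222146792970844635138)) (.alt (nat_lit 21) (.cov (nat_lit 1985334127268874682369)) (.alt (nat_lit 21) (.exp (.alt (nat_lit 23) (.exp (.alt (nat_lit 22) (.exp (.alt (nat_lit 30) (.exp (.alt (nat_lit 14) (.exp (.alt (nat_lit 28) (.exp (.alt (nat_lit 31) (.cov (nat_lit 62257770045482467329)) (.alt (nat_lit 31) (.exp (.alt (nat_lit 27) (.cov (nat_lit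 1830839360310800809984)) (.alt (nat_lit 15) (.cov (nat_lit 156375187464)) .e))) .e))) .e)) .e)) .e)) .e)) (.alt (nat_lit 23) (.cov (nat_lit 350190684072317854679043)) (.alt (nat_lit 23) (.exp (.alt (nat_lit 22) (.exp (.alt (nat_lit 31) (.cov (nat_lit 435804361726920491010)) (.alt (nat_lit 31) (.cov (nat_lit 804739357550757019649)) (.alt (nat_lit 31) (.exp (.alt (nat_lit 15) (.cov (nat_lit 3869204587071700729859)) (.alt (nat_lit 27) (.exp (.alt (nat_lit 11) (.exp (.alt (nat_lit 26) (.cov (nat_lit 404348018418491062222849)) (.alt (nat_lit 25) (.cov (nat_lit 185010749455)) .e))) .e)) (.alt (nat_lit 27) (.exp (.alt (nat_lit 26) (.cov (nat_lit 424275122491590967298)) (.alt (nat_lit 11) (.cov (nat_lit 1755316291)) .e))) .e)))) .e)))) .e)) (.alt (nat_lit 23) (.exp (.alt (nat_lit 31) (.cov (nat_lit 45413578325948474851330)) (.alt (nat_lit 22) (.cov (nat_lit 3051358376)) .e))) .e))))) .e))))) .e)) (.alt (nat_lit 17) (.cov (nat_lit 19929515)) .e)))))) .e)))))) .e)) (.alt (nat_lit 0) (.cov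 (nat_lit 2961186335)) .e))))))) .e)) .e)) .e)) .e)) .e)) .e)) (.alt (nat_lit 1) (.exp (.alt (nat_lit 3) (.exp (.alt (nat_lit 2) (.exp (.alt (nat_lit 7) (.exp (.alt (nat_lit 5) (.exp (.alt (nat_lit 4) (.exp (.alt (nat_lit 13) (.exp (.alt (nat_lit 0) (.cov (nat_lit 406806050353852618637350)) (.alt (nat_lit 0) (.cov (nat_lit 404297296928954583613474)) (.alt (nat_lit 0) (.cov (nat_lit 36904467870576017415)) (.alt (nat_lit 0) (.cov (nat_lit 36907207853518880771)) (.alt (nat_lit 0) (.exp (.alt (nat_lit 8) (.exp (.alt (nat_lit 16) (.cov (nat_lit 1973803463070034427924)) (.alt (nat_lit 16) (.cov (nat_lit 1973804912222803066891)) (.alt (nat_lit 16) (.exp (.alt (nat_lit 17) (.exp (.alt (nat_lit 19) (.exp (.alt (nat_lit 21) (.exp (.alt (nat_lit 18) (.exp (.alt (nat_lit 22) (.exp (.alt (nat_lit 30) (.exp (.alt (nat_lit 14) (.exp (.alt (nat_lit 28) (.exp (.alt (nat_lit 26) (.cov (nat_lit 1611784272236475580417)) (.alt (nat_lit 26) (.exp (.alt (nat_lit 27) (.cov (nat_lit 25454200989705095348224))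 (.alt (nat_lit 10) (.cov (nat_lit 1756364808)) .e))) .e))) .e)) .e)) .e)) .e)) (.alt (nat_lit 18) (.cov (nat_lit 104616097748050235097091)) (.alt (nat_lit 18) (.exp (.alt (nat_lit 22) (.exp (.alt (nat_lit 26) (.cov (nat_lit 424275146680846778370)) (.alt (nat_lit 26) (.cov (nat_lit 3154393383938901934081)) (.alt (nat_lit 26) (.exp (.alt (nat_lit 10) (.cov (nat_lit 343879591353686156115971)) (.alt (nat_lit 27) (.exp (.alt (nat_lit 11) (.exp (.alt (nat_lit 31) (.cov (nat_lit 404348018418491671445505)) (.alt (nat_lit 25) (.cov (nat_lit 4627365903)) .e))) .e)) (.alt (nat_lit 27) (.exp (.alt (nat_lit 31) (.cov (nat_lit 435804337537664679938)) (.alt (nat_lit 11) (.cov (nat_lit 18940428355)) .e))) .e)))) .e)))) .e)) (.alt (nat_lit 18) (.exp (.alt (nat_lit 26) (.cov (nat_lit 7623117247945949315074)) (.alt (nat_lit 22) (.cov (nat_lit 3051358376)) .e))) .e))))) .e)) .e)) .e)) (.alt (nat_lit 16) (.cov (nat_lit 1973814636303637020673)) (.alt (nat_lit 16) (.exp (.alt (nat_lit 18) (.cov (nat_lit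 23229063820630772678690)) (.alt (nat_lit 17) (.cov (nat_lit 1976110755232051363847)) (.alt (nat_lit 17) (.cov (nat_lit 24259781407180458033155)) (.alt (nat_lit 17) (.exp (.alt (nat_lit 19) (.exp (.alt (nat_lit 21) (.cov (nat_lit 41890250095719934328843)) (.alt (nat_lit 21) (.cov (nat_lit 23222146792970844635138)) (.alt (nat_lit 21) (.cov (nat_lit 1985334127268874682369)) (.alt (nat_lit 21) (.exp (.alt (nat_lit 23) (.exp (.alt (nat_lit 22) (.exp (.alt (nat_lit 30) (.exp (.alt (nat_lit 14) (.exp (.alt (nat_lit 28) (.exp (.alt (nat_lit 31) (.cov (nat_lit 62257770045482467329)) (.alt (nat_lit 31) (.exp (.alt (nat_lit 27) (.cov (nat_lit 1830839360310800809984)) (.alt (nat_lit 15) (.cov (nat_lit 156375187464)) .e))) .e))) .e)) .e)) .e)) .e)) (.alt (nat_lit 23) (.cov (nat_lit 350190684072317854679043)) (.alt (nat_lit 23) (.exp (.alt (nat_lit 22) (.exp (.alt (nat_lit 31) (.cov (nat_lit 435804361726920491010)) (.alt (nat_lit 31) (.cov (nat_lit 804739357550757019649)) (.alt (nat_lit 31)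 (.exp (.alt (nat_lit 15) (.cov (nat_lit 3869204587071700729859)) (.alt (nat_lit 27) (.exp (.alt (nat_lit 11) (.exp (.alt (nat_lit 26) (.cov (nat_lit 404348018418491062222849)) (.alt (nat_lit 25) (.cov (nat_lit 185010749455)) .e))) .e)) (.alt (nat_lit 27) (.exp (.alt (nat_lit 26) (.cov (nat_lit 424275122491590967298)) (.alt (nat_lit 11) (.cov (nat_lit 1755316291)) .e))) .e)))) .e)))) .e)) (.alt (nat_lit 23) (.exp (.alt (nat_lit 31) (.cov (nat_lit 45413578325948474851330)) (.alt (nat_lit 22) (.cov (nat_lit 3051358376)) .e))) .e))))) .e))))) .e)) (.alt (nat_lit 17) (.cov (nat_lit 19929515)) .e)))))) .e)))))) .e)) (.alt (nat_lit 0) (.cov (nat_lit 2961186335)) .e))))))) .e)) .e)) .e)) .e)) .e)) .e)) .e))),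
      .cov (nat_lit 2306051916422979340),
      .cov (nat_lit 25385025895141742747500),
      .rot (.exp (.alt (nat_lit 1) (.exp (.alt (nat_lit 3) (.exp (.alt (nat_lit 2) (.exp (.alt (nat_lit 7) (.exp (.alt (nat_lit 5) (.exp (.alt (nat_lit 4) (.exp (.alt (nat_lit 13) (.exp (.alt (nat_lit 0) (.exp (.alt (nat_lit 8) (.cov (nat_lit 3001800683331593121222980695752706)) (.alt (nat_lit 8) (.cov (nat_lit 105387406403231672277734401993867265)) (.alt (nat_lit 8) (.cov (nat_lit 105387406403231672277756392225374208)) (.alt (nat_lit 8) (.cov (nat_lit 25493403111469785022557)) .e))))) (.alt (nat_lit 0) (.cov (nat_lit 406806050353852618637350)) (.alt (nat_lit 0) (.cov (nat_lit 29016731724281001541726)) (.alt (nat_lit 0) (.cov (nat_lit 404297296928954583613474)) (.alt (nat_lit 0) (.cov (nat_lit 404297296928953979633700)) (.alt (nat_lit 0) (.cov (nat_lit 18455768865167114255)) (.alt (nat_lit 0) (.cov (nat_lit 18457730393911066631)) (.alt (nat_lit 0) (.cov (nat_lit 36904467870542462982)) (.alt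 (nat_lit 0) (.cov (nat_lit 36907207853518880771)) (.alt (nat_lit 0) (.cov (nat_lit 2988386910557930782722)) (.alt (nat_lit 0) (.cov (nat_lit 25419628746525768679425)) (.alt (nat_lit 0) (.cov (nat_lit 36910312874355720192)) (.alt (nat_lit 0) (.cov (nat_lit 2961186335)) .e)))))))))))))) .e)) .e)) .e)) .e)) .e)) .e)) (.alt (nat_lit 1) (.exp (.alt (nat_lit 3) (.exp (.alt (nat_lit 2) (.exp (.alt (nat_lit 7) (.exp (.alt (nat_lit 5) (.exp (.alt (nat_lit 4) (.exp (.alt (nat_lit 13) (.exp (.alt (nat_lit 0) (.exp (.alt (nat_lit 8) (.cov (nat_lit 3001800683331593121222980695752706)) (.alt (nat_lit 8) (.cov (nat_lit 105387406403231672277734401993867265)) (.alt (nat_lit 8) (.cov (nat_lit 105387406403231672277756392225374208)) (.alt (nat_lit 8) (.cov (nat_lit 25493403111469785022557)) .e))))) (.alt (nat_lit 0) (.cov (nat_lit 406806050353852618637350)) (.alt (nat_lit 0) (.cov (nat_lit 29016731724281001541726)) (.alt (nat_lit 0) (.cov (nat_lit 404297296928954583613474)) (.alt (nat_lit 0) (.cov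 (nat_lit 404297296928953979633700)) (.alt (nat_lit 0) (.cov (nat_lit 18455768865167114255)) (.alt (nat_lit 0) (.cov (nat_lit 18457730393911066631)) (.alt (nat_lit 0) (.cov (nat_lit 36904467870542462982)) (.alt (nat_lit 0) (.cov (nat_lit 36907207853518880771)) (.alt (nat_lit 0) (.cov (nat_lit 2988386910557930782722)) (.alt (nat_lit 0) (.cov (nat_lit 25419628746525768679425)) (.alt (nat_lit 0) (.cov (nat_lit 36910312874355720192)) (.alt (nat_lit 0) (.cov (nat_lit 2961186335)) .e)))))))))))))) .e)) .e)) .e)) .e)) .e)) .e)) .e))),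
      .cov (nat_lit 2306051916422979341),
      .cov (nat_lit 2306054115446234894),
      .cov (nat_lit 1551832428763699748622),
      .cov (nat_lit 2306056314469490244),
      .cov (nat_lit 2306054115446234895),
      .cov (nat_lit 1551832428763699748623),
      .cov (nat_lit 2306056314469490245),
      .cov (nat_lit 2306054115446234896),
      .cov (nat_lit 1551832428763699748624),
      .cov (nat_lit 25385025892942719491948),
      .cov (nat_lit 2306054115446234694),
      .cov (nat_lit 1551832428763699748422)])]) (by decide +kernel)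
  exact h _ List.mem_cons_self

theorem t1_18 : GF FULL [0, 1] [18, 6] := by
  have h := JT.chkW_ok (zs := [0, 1]) good (by decide) (by decide)
    (L := [([18, 6], [.cov (nat_lit 404502509935292726648395),
      .cov (nat_lit 76092896269865852492),
      .cov (nat_lit 2305917776004390476),
      .cov (nat_lit 404502509935292726648745),
      .cov (nat_lit 76092896269865852842),
      .cov (nat_lit 2305917776004390826),
      .cov (nat_lit 404502509935292726648747),
      .cov (nat_lit 76092896269865852844),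
      .cov (nat_lit 2305917776004390828),
      .cov (nat_lit 404502509935292726648822),
      .cov (nat_lit 76092896269865852919),
      .cov (nat_lit 2305917776004390903),
      .cov (nat_lit 404502509935292726648824),
      .cov (nat_lit 76092896269865852921),
      .cov (nat_lit 2305917776004390905),
      .rot (.exp (.alt (nat_lit 1) (.exp (.alt (nat_lit 3) (.exp (.alt (nat_lit 5) (.exp (.alt (nat_lit 7) (.exp (.alt (nat_lit 6) (.exp (.alt (nat_lit 15) (.exp (.alt (nat_lit 0) (.cov (nat_lit 347628896942092051284433)) (.alt (nat_lit 0) (.cov (nat_lit 102277977398514857017561)) (.alt (nat_lit 0) (.cov (nat_lit 343865763343481488539741)) (.alt (nat_lit 0) (.cov (nat_lit 343865765294015116214308)) (.alt (nat_lit 0) (.cov (nat_lit 9231020239913746448)) (.alt (nat_lit 0) (.cov (nat_lit 343865765294015116214290)) (.alt (nat_lit 0) (.cov (nat_lit 9234360556079546379)) (.alt (nat_lit 0) (.cov (nat_lit 10191839827027696812038)) (.alt (nat_lit 0) (.cov (nat_lit 25387346929003614175235))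 (.alt (nat_lit 0) (.cov (nat_lit 9237289655047553026)) (.alt (nat_lit 0) (.cov (nat_lit 4627417830805995521)) (.alt (nat_lit 0) (.cov (nat_lit 21850185314176312803328)) (.alt (nat_lit 0) (.exp (.alt (nat_lit 2) (.exp (.alt (nat_lit 10) (.cov (nat_lit 3011941888133414344748935896104962)) (.alt (nat_lit 10) (.cov (nat_lit 105397547608033502724632394044801025)) (.alt (nat_lit 10) (.cov (nat_lit 105397547608033502724654384280502272)) (.alt (nat_lit 10) (.cov (nat_lit 25498014797488210313309)) .e))))) (.alt (nat_lit 2) (.cov (nat_lit 406810662039871048122406)) (.alt (nat_lit 2) (.cov (nat_lit 29021343410299431026782)) (.alt (nat_lit 2) (.cov (nat_lit 404301908614973013098530)) (.alt (nat_lit 2) (.cov (nat_lit 404301908614972409118756)) (.alt (nat_lit 2) (.cov (nat_lit 23067454883596599311)) (.alt (nat_lit 2) (.cov (nat_lit 23069416412340551687)) (.alt (nat_lit 2) (.cov (nat_lit 41516153888971948038)) (.alt (nat_lit 2) (.cov (nat_lit 41518893871948365827)) (.alt (nat_lit 2) (.cov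 (nat_lit 2992998596576360267778)) (.alt (nat_lit 2) (.cov (nat_lit 25424240432544198164481)) (.alt (nat_lit 2) (.cov (nat_lit 41521998892785205248)) (.alt (nat_lit 2) (.cov (nat_lit 2963283487)) .e)))))))))))))) .e)))))))))))))) .e)) .e)) .e)) .e)) .e)) .e)),
      .cov (nat_lit 76092896269865852845),
      .cov (nat_lit 2305917776004390829),
      .rot (.exp (.alt (nat_lit 1) (.exp (.alt (nat_lit 3) (.exp (.alt (nat_lit 5) (.exp (.alt (nat_lit 7) (.exp (.alt (nat_lit 6) (.exp (.alt (nat_lit 15) (.exp (.alt (nat_lit 0) (.cov (nat_lit 102277977398514857017561)) (.alt (nat_lit 0) (.cov (nat_lit 343865765294015116214290)) (.alt (nat_lit 0) (.cov (nat_lit 21564255978367039307787)) (.alt (nat_lit 0) (.exp (.alt (nat_lit 2) (.exp (.alt (nat_lit 10) (.exp (.alt (nat_lit 18) (.exp (.alt (nat_lit 16) (.cov (nat_lit 23224452134612343193634)) (.alt (nat_lit 4) (.cov (nat_lit 22754062111256612962311)) (.alt (nat_lit 4) (.cov (nat_lit 6391803887002696286211)) (.alt (nat_lit 4) (.exp (.alt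 (nat_lit 12) (.exp (.alt (nat_lit 20) (.cov (nat_lit 365515316526823346536459)) (.alt (nat_lit 20) (.exp (.alt (nat_lit 21) (.exp (.alt (nat_lit 17) (.exp (.alt (nat_lit 23) (.exp (.alt (nat_lit 28) (.cov (nat_lit 47954617080209477730307)) (.alt (nat_lit 28) (.exp (.alt (nat_lit 29) (.exp (.alt (nat_lit 24) (.cov (nat_lit 428886808666229964801)) (.alt (nat_lit 30) (.cov (nat_lit 4624220175)) .e))) .e)) (.alt (nat_lit 16) (.cov (nat_lit 360710335)) .e)))) .e)) .e)) .e)) (.alt (nat_lit 20) (.cov (nat_lit 21905513497949648191489)) (.alt (nat_lit 20) (.exp (.alt (nat_lit 21) (.exp (.alt (nat_lit 17) (.exp (.alt (nat_lit 25) (.exp (.alt (nat_lit 9) (.exp (.alt (nat_lit 27) (.exp (.alt (nat_lit 29) (.cov (nat_lit 6417161103438436630529)) (.alt (nat_lit 23) (.cov (nat_lit 32505871)) .e))) .e)) .e)) .e)) .e)) (.alt (nat_lit 16) (.cov (nat_lit 793210415183037464579)) (.alt (nat_lit 16) (.exp (.alt (nat_lit 17) (.exp (.alt (nat_lit 24) (.cov (nat_lit 6553205865191329234946)) (.alt (nat_lit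 24) (.cov (nat_lit 406919033507905355644929)) (.alt (nat_lit 24) (.exp (.alt (nat_lit 28) (.cov (nat_lit 347677314789845090959363)) (.alt (nat_lit 25) (.exp (.alt (nat_lit 9) (.exp (.alt (nat_lit 29) (.cov (nat_lit 440416023555964141569)) (.alt (nat_lit 29) (.exp (.alt (nat_lit 31) (.cov (nat_lit 1397340874578638929920)) (.alt (nat_lit 21) (.cov (nat_lit 661651464)) .e))) .e))) .e)) (.alt (nat_lit 28) (.cov (nat_lit 158172447312)) .e)))) .e)))) .e)) (.alt (nat_lit 16) (.cov (nat_lit 156482145426)) .e))))) .e))))) .e)) (.alt (nat_lit 4) (.cov (nat_lit 11588868187)) .e)))))) .e)) .e)) .e)) (.alt (nat_lit 0) (.cov (nat_lit 36906139128216682497)) (.alt (nat_lit 0) (.exp (.alt (nat_lit 2) (.cov (nat_lit 406810662039871048122406)) (.alt (nat_lit 2) (.cov (nat_lit 404301908614973013098530)) (.alt (nat_lit 2) (.cov (nat_lit 41516153889005502471)) (.alt (nat_lit 2) (.cov (nat_lit 41518893871948365827)) (.alt (nat_lit 2) (.exp (.alt (nat_lit 10) (.exp (.alt (nat_lit 18) (.cov (nat_lit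 1978415149088463912980)) (.alt (nat_lit 18) (.cov (nat_lit 1978416598241232551947)) (.alt (nat_lit 18) (.exp (.alt (nat_lit 19) (.exp (.alt (nat_lit 17) (.exp (.alt (nat_lit 23) (.exp (.alt (nat_lit 16) (.exp (.alt (nat_lit 20) (.exp (.alt (nat_lit 28) (.exp (.alt (nat_lit 12) (.exp (.alt (nat_lit 30) (.exp (.alt (nat_lit 24) (.cov (nat_lit 1607172586218046095361)) (.alt (nat_lit 24) (.exp (.alt (nat_lit 25) (.cov (nat_lit 25449589303686665863168)) (.alt (nat_lit 8) (.cov (nat_lit 1754267656)) .e))) .e))) .e)) .e)) .e)) .e)) (.alt (nat_lit 16) (.cov (nat_lit 104611486062031805612035)) (.alt (nat_lit 16) (.exp (.alt (nat_lit 20) (.exp (.alt (nat_lit 24) (.cov (nat_lit 428886832699272069122)) (.alt (nat_lit 24) (.cov (nat_lit 3159005069957327224833)) (.alt (nat_lit 24) (.exp (.alt (nat_lit 8) (.cov (nat_lit 343874979667667726630915)) (.alt (nat_lit 25) (.exp (.alt (nat_lit 9) (.exp (.alt (nat_lit 29) (.cov (nat_lit 404343406732473246154753)) (.alt (nat_lit 27) (.cov (nat_lit 4629463055))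 .e))) .e)) (.alt (nat_lit 25) (.exp (.alt (nat_lit 29) (.cov (nat_lit 440416023556089970690)) (.alt (nat_lit 9) (.cov (nat_lit 18938331203)) .e))) .e)))) .e)))) .e)) (.alt (nat_lit 16) (.exp (.alt (nat_lit 24) (.cov (nat_lit 7618505561927519830018)) (.alt (nat_lit 20) (.cov (nat_lit 3049261224)) .e))) .e))))) .e)) .e)) .e)) (.alt (nat_lit 18) (.cov (nat_lit 1978426322322062311425)) (.alt (nat_lit 18) (.exp (.alt (nat_lit 16) (.cov (nat_lit 23224452134612343193634)) (.alt (nat_lit 19) (.cov (nat_lit 1980722441250480848903)) (.alt (nat_lit 19) (.cov (nat_lit 24264393093198887518211)) (.alt (nat_lit 19) (.exp (.alt (nat_lit 17) (.exp (.alt (nat_lit 23) (.cov (nat_lit 41885638409701509038091)) (.alt (nat_lit 23) (.cov (nat_lit 23217535106952419344386)) (.alt (nat_lit 23) (.cov (nat_lit 1989945813287299973121)) (.alt (nat_lit 23) (.exp (.alt (nat_lit 21) (.exp (.alt (nat_lit 20) (.exp (.alt (nat_lit 28) (.exp (.alt (nat_lit 12) (.exp (.alt (nat_lit 30) (.exp (.alt (nat_lit 29) (.cov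 (nat_lit 57646084027052982273)) (.alt (nat_lit 29) (.exp (.alt (nat_lit 25) (.cov (nat_lit 1826227674292371324928)) (.alt (nat_lit 13) (.cov (nat_lit 156373090312)) .e))) .e))) .e)) .e)) .e)) .e)) (.alt (nat_lit 21) (.cov (nat_lit 350186072386299425193987)) (.alt (nat_lit 21) (.exp (.alt (nat_lit 20) (.exp (.alt (nat_lit 29) (.cov (nat_lit 440416047745345781762)) (.alt (nat_lit 29) (.cov (nat_lit 809351043569182310401)) (.alt (nat_lit 29) (.exp (.alt (nat_lit 13) (.cov (nat_lit 3864592901053271244803)) (.alt (nat_lit 25) (.exp (.alt (nat_lit 9) (.exp (.alt (nat_lit 24) (.cov (nat_lit 404343406732472636932097)) (.alt (nat_lit 27) (.cov (nat_lit 185012846607)) .e))) .e)) (.alt (nat_lit 25) (.exp (.alt (nat_lit 24) (.cov (nat_lit 428886808510016258050)) (.alt (nat_lit 9) (.cov (nat_lit 1753219139)) .e))) .e)))) .e)))) .e)) (.alt (nat_lit 21) (.exp (.alt (nat_lit 29) (.cov (nat_lit 45408966639930045366274)) (.alt (nat_lit 20) (.cov (nat_lit 3049261224)) .e))) .e))))) .e))))) .e))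 (.alt (nat_lit 19) (.cov (nat_lit 17832363)) .e)))))) .e)))))) .e)) (.alt (nat_lit 2) (.cov (nat_lit 2963283487)) .e))))))) .e))))))) .e)) .e)) .e)) .e)) .e)) .e)),
      .cov (nat_lit 76092896269865852706),
      .cov (nat_lit 2305917776004390690)])]) (by decide +kernel)
  exact h _ List.mem_cons_self

theorem t1_20 : GF FULL [0, 1] [20, 4] := by
  have h := JT.chkW_ok (zs := [0, 1]) good (by decide) (by decide)
    (L := [([20, 4], [.cov (nat_lit 1551832358394955571394),
      .rot (.exp (.alt (nat_lit 1) (.exp (.alt (nat_lit 3) (.exp (.alt (nat_lit 2) (.exp (.alt (nat_lit 7) (.exp (.alt (nat_lit 0) (.cov (nat_lit 2813135552098559066619)) (.alt (nat_lit 0) (.cov (nat_lit 36904467871146442790)) (.alt (nat_lit 0) (.cov (nat_lit 36907201257053093922)) (.alt (nat_lit 0) (.exp (.alt (nat_lit 4) (.exp (.alt (nat_lit 5) (.exp (.alt (nat_lit 13) (.exp (.alt (nat_lit 21) (.exp (.alt (nat_lit 8) (.cov (nat_lit 404306515082708858699795)) (.alt (nat_lit 8) (.cov (nat_lit 23066320190488707083))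 (.alt (nat_lit 8) (.cov (nat_lit 129136224511492882434)) (.alt (nat_lit 8) (.cov (nat_lit 29127421048587949178881)) (.alt (nat_lit 8) (.exp (.alt (nat_lit 10) (.cov (nat_lit 475004961720083939362)) (.alt (nat_lit 9) (.cov (nat_lit 1501107095336953839623)) (.alt (nat_lit 9) (.cov (nat_lit 57653140692241743875)) (.alt (nat_lit 9) (.exp (.alt (nat_lit 11) (.exp (.alt (nat_lit 25) (.cov (nat_lit 25585634175370700783627)) (.alt (nat_lit 25) (.exp (.alt (nat_lit 24) (.exp (.alt (nat_lit 16) (.exp (.alt (nat_lit 26) (.exp (.alt (nat_lit 27) (.cov (nat_lit 10180296903270832537603)) (.alt (nat_lit 27) (.exp (.alt (nat_lit 19) (.exp (.alt (nat_lit 31) (.cov (nat_lit 365388494934816494452737)) (.alt (nat_lit 31) (.exp (.alt (nat_lit 30) (.cov (nat_lit 25285874450032498835456)) (.alt (nat_lit 29) (.cov (nat_lit 12142510088)) .e))) .e))) .e)) (.alt (nat_lit 27) (.cov (nat_lit 10467934800)) .e)))) .e)) .e)) .e)) (.alt (nat_lit 25) (.cov (nat_lit 498066974020826300417)) (.alt (nat_lit 25)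 (.exp (.alt (nat_lit 24) (.exp (.alt (nat_lit 16) (.exp (.alt (nat_lit 18) (.exp (.alt (nat_lit 19) (.exp (.alt (nat_lit 26) (.exp (.alt (nat_lit 28) (.cov (nat_lit 102116563514833797906433)) (.alt (nat_lit 28) (.exp (.alt (nat_lit 30) (.cov (nat_lit 21543491246078673551360)) (.alt (nat_lit 20) (.cov (nat_lit 10525605896)) .e))) .e))) .e)) .e)) .e)) .e)) (.alt (nat_lit 29) (.cov (nat_lit 104701413939380947517443)) (.alt (nat_lit 29) (.exp (.alt (nat_lit 28) (.exp (.alt (nat_lit 31) (.cov (nat_lit 421969303692122259458)) (.alt (nat_lit 31) (.cov (nat_lit 421969415821656588289)) (.alt (nat_lit 31) (.exp (.alt (nat_lit 23) (.cov (nat_lit 63286167248471283728387)) (.alt (nat_lit 30) (.exp (.alt (nat_lit 14) (.exp (.alt (nat_lit 22) (.cov (nat_lit 6387185144318650220545)) (.alt (nat_lit 22) (.exp (.alt (nat_lit 18) (.cov (nat_lit 6405631890590774853632)) (.alt (nat_lit 20) (.cov (nat_lit 822083592)) .e))) .e))) .e)) (.alt (nat_lit 23) (.cov (nat_lit 1935671888)) .e)))) .e)))) .e))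 (.alt (nat_lit 17) (.cov (nat_lit 185002364051)) .e))))) .e))))) .e)) (.alt (nat_lit 9) (.cov (nat_lit 11587819611)) .e)))))) .e)))))) .e)) .e)) .e)) .e)) (.alt (nat_lit 0) (.cov (nat_lit 9240328705186725891)) (.alt (nat_lit 0) (.exp (.alt (nat_lit 4) (.exp (.alt (nat_lit 8) (.cov (nat_lit 23059547196781232345)) (.alt (nat_lit 8) (.cov (nat_lit 645645060774452789268)) (.alt (nat_lit 8) (.cov (nat_lit 55351211944256208907)) (.alt (nat_lit 8) (.exp (.alt (nat_lit 9) (.exp (.alt (nat_lit 11) (.exp (.alt (nat_lit 13) (.exp (.alt (nat_lit 24) (.cov (nat_lit 22048471639153264558114)) (.alt (nat_lit 10) (.cov (nat_lit 21531965316529712529415)) (.alt (nat_lit 10) (.cov (nat_lit 25295104876582363201539)) (.alt (nat_lit 10) (.cov (nat_lit 59962897962685693952)) (.alt (nat_lit 10) (.cov (nat_lit 27269212)) .e)))))) .e)) .e)) .e)) (.alt (nat_lit 8) (.cov (nat_lit 498078345170073419777)) (.alt (nat_lit 8) (.exp (.alt (nat_lit 9) (.cov (nat_lit 21575776333561641041958)) (.alt (nat_lit 9)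 (.cov (nat_lit 102077372610344016412706)) (.alt (nat_lit 9) (.cov (nat_lit 57657054953504505863)) (.alt (nat_lit 9) (.cov (nat_lit 21529669890137295683587)) (.alt (nat_lit 9) (.exp (.alt (nat_lit 11) (.exp (.alt (nat_lit 13) (.cov (nat_lit 1510329018215809679378)) (.alt (nat_lit 13) (.cov (nat_lit 45634943879380173062155)) (.alt (nat_lit 13) (.cov (nat_lit 6560132379453751820290)) (.alt (nat_lit 13) (.cov (nat_lit 66880426990327824385)) (.alt (nat_lit 13) (.exp (.alt (nat_lit 29) (.cov (nat_lit 104701413939382625239074)) (.alt (nat_lit 12) (.cov (nat_lit 6557820814714371833863)) (.alt (nat_lit 12) (.cov (nat_lit 6410250631096439930883)) (.alt (nat_lit 12) (.cov (nat_lit 64574583981113081856)) (.alt (nat_lit 5) (.cov (nat_lit 626006111)) .e)))))) .e)))))) .e)) (.alt (nat_lit 9) (.cov (nat_lit 279977503)) .e))))))) .e))))))) .e)) (.alt (nat_lit 0) (.cov (nat_lit 10376716384)) .e)))))))) .e)) .e)) .e)) .e)),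
      .cov (nat_lit 1551832358394955571394),
      .rot (.exp (.alt (nat_lit 1) (.exp (.alt (nat_lit 3) (.exp (.alt (nat_lit 2) (.exp (.alt (nat_lit 7) (.exp (.alt (nat_lit 0) (.cov (nat_lit 18452083302190809595)) (.alt (nat_lit 0) (.cov (nat_lit 345341502911159694525386)) (.alt (nat_lit 0) (.exp (.alt (nat_lit 4) (.cov (nat_lit 40590177635341694182841565315074)) (.alt (nat_lit 4) (.cov (nat_lit 100316817735716056270562976981843969)) (.alt (nat_lit 4) (.cov (nat_lit 81149464798076031769947174600704)) (.alt (nat_lit 4) (.cov (nat_lit 36902504142779449437)) .e))))) (.alt (nat_lit 0) (.cov (nat_lit 18458968444003942438)) (.alt (nat_lit 0) (.cov (nat_lit 36904467870542463070)) (.alt (nat_lit 0) (.cov (nat_lit 36907201257053093922)) (.alt (nat_lit 0) (.cov (nat_lit 344299268490055095681060)) (.alt (nat_lit 0) (.cov (nat_lit 1632552261278278615055)) (.alt (nat_lit 0) (.cov (nat_lit 378172241497982763015)) (.alt (nat_lit 0) (.cov (nat_lit 102277988774061545619462)) (.alt (nat_lit 0)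 (.cov (nat_lit 9240328705186725891)) (.alt (nat_lit 0) (.cov (nat_lit 608759511100742959106)) (.alt (nat_lit 0) (.cov (nat_lit 18464424220688384001)) (.alt (nat_lit 0) (.exp (.alt (nat_lit 4) (.exp (.alt (nat_lit 8) (.cov (nat_lit 23058931472350052817)) (.alt (nat_lit 8) (.cov (nat_lit 20754722346005168345)) (.alt (nat_lit 8) (.cov (nat_lit 7620819552317458088029)) (.alt (nat_lit 8) (.cov (nat_lit 55349248216656773155)) (.alt (nat_lit 8) (.cov (nat_lit 55351211944423981072)) (.alt (nat_lit 8) (.cov (nat_lit 20761627267820421138)) (.alt (nat_lit 8) (.cov (nat_lit 55351211944256208907)) (.alt (nat_lit 8) (.cov (nat_lit 6661594179921535565830)) (.alt (nat_lit 8) (.cov (nat_lit 470407384634578960387)) (.alt (nat_lit 8) (.cov (nat_lit 6514020418646882385922)) (.alt (nat_lit 8) (.cov (nat_lit 21492778420693222031361)) (.alt (nat_lit 8) (.cov (nat_lit 613371197119175589888)) (.alt (nat_lit 8) (.exp (.alt (nat_lit 9) (.exp (.alt (nat_lit 11) (.cov (nat_lit 3209695381769061942399596644794370))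 (.alt (nat_lit 11) (.cov (nat_lit 764854742805570637148928135270498305)) (.alt (nat_lit 11) (.cov (nat_lit 47445630727333576497983824488038400)) (.alt (nat_lit 11) (.cov (nat_lit 21575774884392365719645)) .e))))) (.alt (nat_lit 9) (.cov (nat_lit 29980942107306623014)) (.alt (nat_lit 9) (.cov (nat_lit 21575776333548689031262)) (.alt (nat_lit 9) (.cov (nat_lit 102077372610344016412706)) (.alt (nat_lit 9) (.cov (nat_lit 365349302684515008774180)) (.alt (nat_lit 9) (.cov (nat_lit 57655091225737297935)) (.alt (nat_lit 9) (.cov (nat_lit 57657054953504505863)) (.alt (nat_lit 9) (.cov (nat_lit 57657054953470951430)) (.alt (nat_lit 9) (.cov (nat_lit 21529669890137295683587)) (.alt (nat_lit 9) (.cov (nat_lit 104581523400394170957826)) (.alt (nat_lit 9) (.cov (nat_lit 620287164840307326977)) (.alt (nat_lit 9) (.cov (nat_lit 2833895046310569967616)) (.alt (nat_lit 9) (.cov (nat_lit 279977503)) .e)))))))))))))) .e)))))))))))))) .e)) (.alt (nat_lit 0) (.cov (nat_lit 4202535)) .e))))))))))))))))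 .e)) .e)) .e)) .e)),
      .cov (nat_lit 1551832358394955571394),
      .cov (nat_lit 76092834697214697644),
      .cov (nat_lit 1551832358394955571394),
      .cov (nat_lit 76092834697214697645),
      .cov (nat_lit 1551832358394955571394),
      .cov (nat_lit 76092834697214697646),
      .cov (nat_lit 1551832358394955571394),
      .cov (nat_lit 76092834697214697647),
      .cov (nat_lit 1551832358394955571394),
      .cov (nat_lit 76092834697214697648)])]) (by decide +kernel)
  exact h _ List.mem_cons_self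

theorem t1_21 : GF FULL [0, 1] [21, 3] := by
  have h := JT.chkW_ok (zs := [0, 1]) good (by decide) (by decide)
    (L := [([21, 3], [.cov (nat_lit 1551832349598862549179),
      .cov (nat_lit 1551832351811106251003),
      .cov (nat_lit 1551832349598862549224),
      .cov (nat_lit 76092825901121675520),
      .cov (nat_lit 1551832349598862549225),
      .cov (nat_lit 76092825901121675521),
      .cov (nat_lit 1551832349598862549226),
      .cov (nat_lit 76092825901121675499),
      .cov (nat_lit 1551832349598862549228),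
      .cov (nat_lit 76092825901121675501),
      .cov (nat_lit 1551832349598862549230),
      .cov (nat_lit 76092825901121675503),
      .rot (.exp (.alt (nat_lit 1) (.exp (.alt (nat_lit 3) (.exp (.alt (nat_lit 5) (.exp (.alt (nat_lit 0) (.exp (.alt (nat_lit 2) (.cov (nat_lit 20303720548041342314190177566727)) (.alt (nat_lit 2) (.cov (nat_lit 227183288457397363636364740996890627)) (.alt (nat_lit 2) (.cov (nat_lit 48393844851427560824010023628701697)) (.alt (nat_lit 2) (.exp (.alt (nat_lit 6) (.exp (.alt (nat_lit 10) (.cov (nat_lit 770001413836532181739966402230484994)) (.alt (nat_lit 10) (.cov (nat_lit 20298130475069891004163950641153)) (.alt (nat_lit 10) (.cov (nat_lit 55512970665831235391452611071705088)) (.alt (nat_lit 10) (.cov (nat_lit 25244376350124746473565)) .e))))) .e)) (.alt (nat_lit 2) (.cov (nat_lit 3034497795996029813243)) .e)))))) (.alt (nat_lit 0) (.exp (.alt (nat_lit 2) (.cov (nat_lit 13974603273549274117496835152019462)) (.alt (nat_lit 2) (.cov (nat_lit 891797290832550911053698162417991683))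 (.alt (nat_lit 2) (.cov (nat_lit 81149464799399585692420208066561)) (.alt (nat_lit 2) (.cov (nat_lit 81149464798071420251054515683328)) (.alt (nat_lit 2) (.cov (nat_lit 26646330832851782598875)) .e)))))) (.alt (nat_lit 0) (.cov (nat_lit 43110053080649051406802)) (.alt (nat_lit 0) (.cov (nat_lit 4619158299466531043)) (.alt (nat_lit 0) (.cov (nat_lit 4623912588349014233)) (.alt (nat_lit 0) (.cov (nat_lit 742495175269978996829)) (.alt (nat_lit 0) (.cov (nat_lit 225988012463953543203)) (.alt (nat_lit 0) (.cov (nat_lit 373563165720327487504)) (.alt (nat_lit 0) (.cov (nat_lit 594921413995325816850)) (.alt (nat_lit 0) (.cov (nat_lit 594923228189511647243)) (.alt (nat_lit 0) (.cov (nat_lit 1406581194487708516358)) (.alt (nat_lit 0) (.cov (nat_lit 21476639505346723840003)) (.alt (nat_lit 0) (.exp (.alt (nat_lit 2) (.exp (.alt (nat_lit 6) (.exp (.alt (nat_lit 10) (.exp (.alt (nat_lit 4) (.exp (.alt (nat_lit 12) (.cov (nat_lit 263675386839805123139846996492290)) (.alt (nat_lit 12) (.cov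 (nat_lit 63869313944557081078167890264326145)) (.alt (nat_lit 12) (.cov (nat_lit 63869313944557081078189879887659008)) (.alt (nat_lit 12) (.cov (nat_lit 710202448578444525661)) .e))))) (.alt (nat_lit 4) (.cov (nat_lit 10136489164839883636774)) (.alt (nat_lit 4) (.cov (nat_lit 10136489164839279657054)) (.alt (nat_lit 4) (.cov (nat_lit 102075065397333578481698)) (.alt (nat_lit 4) (.cov (nat_lit 102075065397334148907044)) (.alt (nat_lit 4) (.cov (nat_lit 1355844714209717780495)) (.alt (nat_lit 4) (.cov (nat_lit 1355846675738461732871)) (.alt (nat_lit 4) (.cov (nat_lit 46127839907569205254)) (.alt (nat_lit 4) (.cov (nat_lit 1374296153198069547011)) (.alt (nat_lit 4) (.cov (nat_lit 1817018661877546221570)) (.alt (nat_lit 4) (.cov (nat_lit 636428083497594257409)) (.alt (nat_lit 4) (.cov (nat_lit 1374299258218302406656)) (.alt (nat_lit 4) (.cov (nat_lit 11555315231)) .e)))))))))))))) .e)) .e)) .e)) (.alt (nat_lit 0) (.cov (nat_lit 4629687222805725185)) (.alt (nat_lit 0) (.cov (nat_lit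 9241606337691910144)) (.alt (nat_lit 0) (.exp (.alt (nat_lit 2) (.cov (nat_lit 23063769320620294651)) (.alt (nat_lit 2) (.cov (nat_lit 345346114597178124010442)) (.alt (nat_lit 2) (.exp (.alt (nat_lit 6) (.cov (nat_lit 50731382437172141080833620443138)) (.alt (nat_lit 6) (.cov (nat_lit 100326958940517886717460969036972033)) (.alt (nat_lit 6) (.cov (nat_lit 91290669599906478667939229728768)) (.alt (nat_lit 6) (.cov (nat_lit 41514190161208934493)) .e))))) (.alt (nat_lit 2) (.cov (nat_lit 23070654462433427494)) (.alt (nat_lit 2) (.cov (nat_lit 41516153888971948126)) (.alt (nat_lit 2) (.cov (nat_lit 41518887275482578978)) (.alt (nat_lit 2) (.cov (nat_lit 344303880176073525166116)) (.alt (nat_lit 2) (.cov (nat_lit 1637163947296708100111)) (.alt (nat_lit 2) (.cov (nat_lit 382783927516412248071)) (.alt (nat_lit 2) (.cov (nat_lit 102282600460079975104518)) (.alt (nat_lit 2) (.cov (nat_lit 13852014723616210947)) (.alt (nat_lit 2) (.cov (nat_lit 613371197119172444162)) (.alt (nat_lit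 2) (.cov (nat_lit 23076110239117869057)) (.alt (nat_lit 2) (.exp (.alt (nat_lit 6) (.exp (.alt (nat_lit 10) (.cov (nat_lit 18447245453924762065)) (.alt (nat_lit 10) (.cov (nat_lit 25366408364434653401)) (.alt (nat_lit 10) (.cov (nat_lit 7625431238335887573085)) (.alt (nat_lit 10) (.cov (nat_lit 59960934235086258211)) (.alt (nat_lit 10) (.cov (nat_lit 59962897962853466128)) (.alt (nat_lit 10) (.cov (nat_lit 25373313286249906194)) (.alt (nat_lit 10) (.cov (nat_lit 59962897962685693963)) (.alt (nat_lit 10) (.cov (nat_lit 6666205865939965050886)) (.alt (nat_lit 10) (.cov (nat_lit 475019070653004251139)) (.alt (nat_lit 10) (.cov (nat_lit 6518632104665311870978)) (.alt (nat_lit 10) (.cov (nat_lit 21497390106711647322113)) (.alt (nat_lit 10) (.cov (nat_lit 608759511100750299136)) (.alt (nat_lit 10) (.exp (.alt (nat_lit 11) (.exp (.alt (nat_lit 9) (.cov (nat_lit 3219836586570883165925551840952322)) (.alt (nat_lit 9) (.cov (nat_lit 764864884010372458372454090466656257)) (.alt (nat_lit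 9) (.cov (nat_lit 47455771932135397721509779684196352)) (.alt (nat_lit 9) (.cov (nat_lit 21580386570410791010397)) .e))))) (.alt (nat_lit 11) (.cov (nat_lit 34592628125736108070)) (.alt (nat_lit 11) (.cov (nat_lit 21580388019567118516318)) (.alt (nat_lit 11) (.cov (nat_lit 102081984296362445897762)) (.alt (nat_lit 11) (.cov (nat_lit 365353914370533438259236)) (.alt (nat_lit 11) (.cov (nat_lit 62266777244166782991)) (.alt (nat_lit 11) (.cov (nat_lit 62268740971933990919)) (.alt (nat_lit 11) (.cov (nat_lit 62268740971900436486)) (.alt (nat_lit 11) (.cov (nat_lit 21534281576155725168643)) (.alt (nat_lit 11) (.cov (nat_lit 104576911714375745667074)) (.alt (nat_lit 11) (.cov (nat_lit 624898850858732617729)) (.alt (nat_lit 11) (.cov (nat_lit 2838506732328995258368)) (.alt (nat_lit 11) (.cov (nat_lit 277880351)) .e)))))))))))))) .e)))))))))))))) .e)) (.alt (nat_lit 2) (.cov (nat_lit 6299687)) .e)))))))))))))))) .e))))))))))))))))) .e)) .e)) .e)),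
      .cov (nat_lit 76092825901121675504),
      .rot (.exp (.alt (nat_lit 1) (.exp (.alt (nat_lit 3) (.exp (.alt (nat_lit 5) (.exp (.alt (nat_lit 0) (.cov (nat_lit 26646330832824400085219)) (.alt (nat_lit 0) (.cov (nat_lit 4619336420954210521)) (.alt (nat_lit 0) (.exp (.alt (nat_lit 2) (.exp (.alt (nat_lit 6) (.exp (.alt (nat_lit 10) (.exp (.alt (nat_lit 11) (.exp (.alt (nat_lit 9) (.exp (.alt (nat_lit 15) (.exp (.alt (nat_lit 16) (.cov (nat_lit 350248330512584509751330)) (.alt (nat_lit 8) (.cov (nat_lit 1826230959790153007111)) (.alt (nat_lit 8) (.cov (nat_lit 25290493190563933716483)) (.alt (nat_lit 8) (.cov (nat_lit 55351211944256208896)) (.alt (nat_lit 8) (.cov (nat_lit 25172060)) .e)))))) .e)) .e)) .e)) .e)) .e)) .e)) (.alt (nat_lit 0) (.cov (nat_lit 110696719622170738699)) (.alt (nat_lit 0) (.exp (.alt (nat_lit 2) (.exp (.alt (nat_lit 6) (.exp (.alt (nat_lit 10) (.exp (.alt (nat_lit 4) (.cov (nat_lit 10136489164839883636774)) (.alt (nat_lit 4) (.cov (nat_lit 102075065397333578481698))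 (.alt (nat_lit 4) (.cov (nat_lit 46127839907401433095)) (.alt (nat_lit 4) (.cov (nat_lit 1374296153198069547011)) (.alt (nat_lit 4) (.exp (.alt (nat_lit 12) (.exp (.alt (nat_lit 20) (.cov (nat_lit 6705393318019486187540)) (.alt (nat_lit 20) (.cov (nat_lit 802436663542416408587)) (.alt (nat_lit 20) (.exp (.alt (nat_lit 16) (.exp (.alt (nat_lit 17) (.exp (.alt (nat_lit 18) (.exp (.alt (nat_lit 21) (.exp (.alt (nat_lit 23) (.exp (.alt (nat_lit 31) (.exp (.alt (nat_lit 15) (.exp (.alt (nat_lit 30) (.exp (.alt (nat_lit 29) (.cov (nat_lit 57646084027052982273)) (.alt (nat_lit 29) (.exp (.alt (nat_lit 25) (.cov (nat_lit 652553582602601103360)) (.alt (nat_lit 13) (.cov (nat_lit 156373090312)) .e))) .e))) .e)) .e)) .e)) .e)) (.alt (nat_lit 21) (.cov (nat_lit 47954617482633544728579)) (.alt (nat_lit 21) (.exp (.alt (nat_lit 23) (.exp (.alt (nat_lit 29) (.cov (nat_lit 1614090139435652874242)) (.alt (nat_lit 29) (.cov (nat_lit 1983025135258952531969)) (.alt (nat_lit 29) (.exp (.alt (nat_lit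 13) (.cov (nat_lit 22760976361696932134915)) (.alt (nat_lit 25) (.exp (.alt (nat_lit 9) (.exp (.alt (nat_lit 27) (.cov (nat_lit 102118869357843017891841)) (.alt (nat_lit 24) (.cov (nat_lit 47573893135)) .e))) .e)) (.alt (nat_lit 25) (.exp (.alt (nat_lit 27) (.cov (nat_lit 1609478429227967578114)) (.alt (nat_lit 9) (.cov (nat_lit 10346299459)) .e))) .e)))) .e)))) .e)) (.alt (nat_lit 21) (.exp (.alt (nat_lit 29) (.cov (nat_lit 347640421543587339042818)) (.alt (nat_lit 23) (.cov (nat_lit 11642341544)) .e))) .e))))) .e)) .e)) .e)) (.alt (nat_lit 20) (.cov (nat_lit 6705404491210744135681)) (.alt (nat_lit 20) (.exp (.alt (nat_lit 21) (.cov (nat_lit 63376096454041272320034)) (.alt (nat_lit 16) (.cov (nat_lit 793213291505389666311)) (.alt (nat_lit 16) (.cov (nat_lit 5368009632693264318467)) (.alt (nat_lit 16) (.exp (.alt (nat_lit 17) (.exp (.alt (nat_lit 18) (.cov (nat_lit 22991560792205032423435)) (.alt (nat_lit 18) (.cov (nat_lit 63353038525326507900930)) (.alt (nat_lit 18) (.cov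 (nat_lit 797824977524422082561)) (.alt (nat_lit 18) (.exp (.alt (nat_lit 19) (.exp (.alt (nat_lit 23) (.exp (.alt (nat_lit 31) (.exp (.alt (nat_lit 15) (.exp (.alt (nat_lit 30) (.exp (.alt (nat_lit 27) (.cov (nat_lit 426580965500671492097)) (.alt (nat_lit 27) (.exp (.alt (nat_lit 25) (.cov (nat_lit 6560123372208085008384)) (.alt (nat_lit 11) (.cov (nat_lit 10344202248)) .e))) .e))) .e)) .e)) .e)) .e)) (.alt (nat_lit 19) (.cov (nat_lit 406849858494708153581571)) (.alt (nat_lit 19) (.exp (.alt (nat_lit 23) (.exp (.alt (nat_lit 27) (.cov (nat_lit 1609478453417223389186)) (.alt (nat_lit 27) (.cov (nat_lit 22048471001435944779777)) (.alt (nat_lit 27) (.exp (.alt (nat_lit 11) (.cov (nat_lit 343881897196832806666243)) (.alt (nat_lit 25) (.exp (.alt (nat_lit 9) (.exp (.alt (nat_lit 29) (.cov (nat_lit 102118869357843590414337)) (.alt (nat_lit 24) (.cov (nat_lit 4626317327)) .e))) .e)) (.alt (nat_lit 25) (.exp (.alt (nat_lit 29) (.cov (nat_lit 1614090115246397063170)) (.alt (nat_lit 9)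 (.cov (nat_lit 156377284675)) .e))) .e)))) .e)))) .e)) (.alt (nat_lit 19) (.exp (.alt (nat_lit 27) (.cov (nat_lit 26514889022433204895746)) (.alt (nat_lit 23) (.cov (nat_lit 11642341544)) .e))) .e))))) .e))))) .e)) (.alt (nat_lit 16) (.cov (nat_lit 621812139)) .e)))))) .e)))))) .e)) (.alt (nat_lit 4) (.cov (nat_lit 11555315231)) .e))))))) .e)) .e)) .e)) (.alt (nat_lit 0) (.cov (nat_lit 594924549802488233985)) (.alt (nat_lit 0) (.exp (.alt (nat_lit 2) (.cov (nat_lit 2817747238116988551675)) (.alt (nat_lit 2) (.cov (nat_lit 41516153889575927846)) (.alt (nat_lit 2) (.cov (nat_lit 41518887275482578978)) (.alt (nat_lit 2) (.exp (.alt (nat_lit 6) (.exp (.alt (nat_lit 7) (.exp (.alt (nat_lit 15) (.exp (.alt (nat_lit 23) (.exp (.alt (nat_lit 10) (.cov (nat_lit 404311126768727288184851)) (.alt (nat_lit 10) (.cov (nat_lit 18454634172063416331)) (.alt (nat_lit 10) (.cov (nat_lit 133747910529918173186)) (.alt (nat_lit 10) (.cov (nat_lit 29132032734606374469633)) (.alt (nat_lit 10) (.exp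 (.alt (nat_lit 8) (.cov (nat_lit 470393275701654454306)) (.alt (nat_lit 11) (.cov (nat_lit 1496495409318528548871)) (.alt (nat_lit 11) (.cov (nat_lit 62264826710667034627)) (.alt (nat_lit 11) (.exp (.alt (nat_lit 9) (.exp (.alt (nat_lit 27) (.cov (nat_lit 25590245861389130268683)) (.alt (nat_lit 27) (.exp (.alt (nat_lit 26) (.exp (.alt (nat_lit 18) (.exp (.alt (nat_lit 24) (.exp (.alt (nat_lit 25) (.cov (nat_lit 10175685217252403052547)) (.alt (nat_lit 25) (.exp (.alt (nat_lit 17) (.exp (.alt (nat_lit 29) (.cov (nat_lit 365383883248798069161985)) (.alt (nat_lit 29) (.exp (.alt (nat_lit 28) (.cov (nat_lit 25281262764014069350400)) (.alt (nat_lit 31) (.cov (nat_lit 12144607240)) .e))) .e))) .e)) (.alt (nat_lit 25) (.cov (nat_lit 10465837648)) .e)))) .e)) .e)) .e)) (.alt (nat_lit 27) (.cov (nat_lit 502678660039255785473)) (.alt (nat_lit 27) (.exp (.alt (nat_lit 26) (.exp (.alt (nat_lit 18) (.exp (.alt (nat_lit 16) (.exp (.alt (nat_lit 17) (.exp (.alt (nat_lit 24) (.exp (.alt (nat_lit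 30) (.cov (nat_lit 102111951828815372615681)) (.alt (nat_lit 30) (.exp (.alt (nat_lit 28) (.cov (nat_lit 21538879560060244066304)) (.alt (nat_lit 22) (.cov (nat_lit 10523508744)) .e))) .e))) .e)) .e)) .e)) .e)) (.alt (nat_lit 31) (.cov (nat_lit 104696802253362522226691)) (.alt (nat_lit 31) (.exp (.alt (nat_lit 30) (.exp (.alt (nat_lit 29) (.cov (nat_lit 417357617673692774402)) (.alt (nat_lit 29) (.cov (nat_lit 417357729803227103233)) (.alt (nat_lit 29) (.exp (.alt (nat_lit 21) (.cov (nat_lit 63281555562452854243331)) (.alt (nat_lit 28) (.exp (.alt (nat_lit 12) (.exp (.alt (nat_lit 20) (.cov (nat_lit 6382573458300224929793)) (.alt (nat_lit 20) (.exp (.alt (nat_lit 16) (.cov (nat_lit 6401020204572349562880)) (.alt (nat_lit 22) (.cov (nat_lit 824180744)) .e))) .e))) .e)) (.alt (nat_lit 21) (.cov (nat_lit 1933574736)) .e)))) .e)))) .e)) (.alt (nat_lit 19) (.cov (nat_lit 185004461203)) .e))))) .e))))) .e)) (.alt (nat_lit 11) (.cov (nat_lit 11585722459)) .e)))))) .e)))))) .e)) .e))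 .e)) .e)) (.alt (nat_lit 2) (.cov (nat_lit 13852014723616210947)) (.alt (nat_lit 2) (.exp (.alt (nat_lit 6) (.exp (.alt (nat_lit 10) (.cov (nat_lit 18447861178355941593)) (.alt (nat_lit 10) (.cov (nat_lit 650256746792882274324)) (.alt (nat_lit 10) (.cov (nat_lit 59962897962685693963)) (.alt (nat_lit 10) (.exp (.alt (nat_lit 11) (.exp (.alt (nat_lit 9) (.exp (.alt (nat_lit 15) (.exp (.alt (nat_lit 26) (.cov (nat_lit 22043859953134839267362)) (.alt (nat_lit 8) (.cov (nat_lit 21527353630511283044359)) (.alt (nat_lit 8) (.cov (nat_lit 25290493190563933716483)) (.alt (nat_lit 8) (.cov (nat_lit 55351211944256208896)) (.alt (nat_lit 8) (.cov (nat_lit 25172060)) .e)))))) .e)) .e)) .e)) (.alt (nat_lit 10) (.cov (nat_lit 502690031188498710529)) (.alt (nat_lit 10) (.exp (.alt (nat_lit 11) (.cov (nat_lit 21580388019580070527014)) (.alt (nat_lit 11) (.cov (nat_lit 102081984296362445897762)) (.alt (nat_lit 11) (.cov (nat_lit 62268740971933990919)) (.alt (nat_lit 11) (.cov (nat_lit 21534281576155725168643))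 (.alt (nat_lit 11) (.exp (.alt (nat_lit 9) (.exp (.alt (nat_lit 15) (.cov (nat_lit 1505717332197384388626)) (.alt (nat_lit 15) (.cov (nat_lit 45630332193361747771403)) (.alt (nat_lit 15) (.cov (nat_lit 6564744065472177111042)) (.alt (nat_lit 15) (.cov (nat_lit 71492113008753115137)) (.alt (nat_lit 15) (.exp (.alt (nat_lit 31) (.cov (nat_lit 104696802253364199948322)) (.alt (nat_lit 14) (.cov (nat_lit 6562432500732797124615)) (.alt (nat_lit 14) (.cov (nat_lit 6414862317114865221635)) (.alt (nat_lit 14) (.cov (nat_lit 69186269999538372608)) (.alt (nat_lit 7) (.cov (nat_lit 628103263)) .e)))))) .e)))))) .e)) (.alt (nat_lit 11) (.cov (nat_lit 277880351)) .e))))))) .e))))))) .e)) (.alt (nat_lit 2) (.cov (nat_lit 10378813536)) .e)))))))) .e)))))))) .e)) .e)) .e)),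
      .cov (nat_lit 76092825901121675505)])]) (by decide +kernel)
  exact h _ List.mem_cons_self

theorem t1_23 : GF FULL [0, 1] [23, 1] := by
  have h := JT.chkW_ok (zs := [0, 1]) good (by decide) (by decide)
    (L := [([23, 1], [.rot (.exp (.alt (nat_lit 1) (.exp (.alt (nat_lit 0) (.cov (nat_lit 36904467870542464004)) (.alt (nat_lit 0) (.cov (nat_lit 1775513503104698941947)) (.alt (nat_lit 0) (.exp (.alt (nat_lit 2) (.exp (.alt (nat_lit 3) (.exp (.alt (nat_lit 7) (.exp (.alt (nat_lit 11) (.exp (.alt (nat_lit 6) (.exp (.alt (nat_lit 4) (.exp (.alt (nat_lit 14) (.exp (.alt (nat_lit 8) (.cov (nat_lit 21573469041394356060178)) (.alt (nat_lit 8) (.cov (nat_lit 404527879048455763525643)) (.alt (nat_lit 8) (.cov (nat_lit 645645060820623687682)) (.alt (nat_lit 8) (.cov (nat_lit 55351211944256208897)) (.alt (nat_lit 8) (.exp (.alt (nat_lit 24) (.cov (nat_lit 10247166752959392383010)) (.alt (nat_lit 9) (.cov (nat_lit 647945181944517492743)) (.alt (nat_lit 9) (.cov (nat_lit 57653140858204061699))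 (.alt (nat_lit 9) (.cov (nat_lit 57657054953470951424)) (.alt (nat_lit 10) (.cov (nat_lit 9791608927)) .e)))))) .e)))))) .e)) .e)) .e)) .e)) .e)) .e)) (.alt (nat_lit 2) (.exp (.alt (nat_lit 3) (.exp (.alt (nat_lit 7) (.exp (.alt (nat_lit 11) (.exp (.alt (nat_lit 9) (.exp (.alt (nat_lit 8) (.exp (.alt (nat_lit 13) (.exp (.alt (nat_lit 4) (.cov (nat_lit 41643526593579036180498)) (.alt (nat_lit 4) (.cov (nat_lit 6668502866676842233867)) (.alt (nat_lit 4) (.cov (nat_lit 46125878562502213634)) (.alt (nat_lit 4) (.cov (nat_lit 46127839907434987521)) (.alt (nat_lit 4) (.exp (.alt (nat_lit 20) (.cov (nat_lit 1983025407937275232290)) (.alt (nat_lit 6) (.cov (nat_lit 124518818843748990983)) (.alt (nat_lit 6) (.cov (nat_lit 50735611685072011267)) (.alt (nat_lit 6) (.cov (nat_lit 50739525925830918144)) (.alt (nat_lit 5) (.cov (nat_lit 626006111)) .e)))))) .e)))))) .e)) .e)) .e)) .e)) .e)) .e)) .e))) (.alt (nat_lit 0) (.cov (nat_lit 594924453046068969506)) (.alt (nat_lit 0) (.exp (.alt (nat_lit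 2) (.exp (.alt (nat_lit 3) (.exp (.alt (nat_lit 7) (.exp (.alt (nat_lit 11) (.exp (.alt (nat_lit 4) (.cov (nat_lit 45614191290097646698713)) (.alt (nat_lit 4) (.cov (nat_lit 343874988666052142956562)) (.alt (nat_lit 4) (.cov (nat_lit 1503421798208073891851)) (.alt (nat_lit 4) (.exp (.alt (nat_lit 5) (.exp (.alt (nat_lit 13) (.exp (.alt (nat_lit 21) (.exp (.alt (nat_lit 20) (.cov (nat_lit 63373790611032057577506)) (.alt (nat_lit 6) (.cov (nat_lit 3869207865797065572359)) (.alt (nat_lit 6) (.cov (nat_lit 2854640710868992524291)) (.alt (nat_lit 6) (.exp (.alt (nat_lit 14) (.exp (.alt (nat_lit 22) (.cov (nat_lit 4247363058267144060939)) (.alt (nat_lit 22) (.exp (.alt (nat_lit 18) (.exp (.alt (nat_lit 16) (.exp (.alt (nat_lit 19) (.exp (.alt (nat_lit 30) (.cov (nat_lit 29058233619703223287811)) (.alt (nat_lit 30) (.exp (.alt (nat_lit 26) (.exp (.alt (nat_lit 28) (.cov (nat_lit 1616395958411281301505)) (.alt (nat_lit 31) (.cov (nat_lit 47577038863)) .e))) .e)) (.alt (nat_lit 20) (.cov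 (nat_lit 10028581055)) .e)))) .e)) .e)) .e)) (.alt (nat_lit 22) (.cov (nat_lit 25451900046119735918593)) (.alt (nat_lit 22) (.exp (.alt (nat_lit 18) (.exp (.alt (nat_lit 16) (.exp (.alt (nat_lit 24) (.exp (.alt (nat_lit 8) (.exp (.alt (nat_lit 25) (.exp (.alt (nat_lit 26) (.cov (nat_lit 2866162869248779616257)) (.alt (nat_lit 19) (.cov (nat_lit 632291343)) .e))) .e)) .e)) .e)) .e)) (.alt (nat_lit 20) (.cov (nat_lit 22053082960133261099011)) (.alt (nat_lit 20) (.exp (.alt (nat_lit 16) (.exp (.alt (nat_lit 28) (.cov (nat_lit 25449589325860758880258)) (.alt (nat_lit 28) (.cov (nat_lit 10237943103845376720897)) (.alt (nat_lit 28) (.exp (.alt (nat_lit 30) (.cov (nat_lit 404338795055251582877699)) (.alt (nat_lit 24) (.exp (.alt (nat_lit 8) (.exp (.alt (nat_lit 26) (.cov (nat_lit 1611784272236483969025)) (.alt (nat_lit 26) (.exp (.alt (nat_lit 27) (.cov (nat_lit 1621007646472363048960)) (.alt (nat_lit 18) (.cov (nat_lit 120586248)) .e))) .e))) .e)) (.alt (nat_lit 30) (.cov (nat_lit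 183939105360)) .e)))) .e)))) .e)) (.alt (nat_lit 20) (.cov (nat_lit 166144773266)) .e))))) .e))))) .e)) (.alt (nat_lit 6) (.cov (nat_lit 316676187)) .e)))))) .e)) .e)) .e)) (.alt (nat_lit 4) (.cov (nat_lit 1374295084472767348737)) (.alt (nat_lit 4) (.exp (.alt (nat_lit 5) (.cov (nat_lit 10138795007849098379302)) (.alt (nat_lit 5) (.cov (nat_lit 102077371240342793224226)) (.alt (nat_lit 5) (.cov (nat_lit 48433682916616175623)) (.alt (nat_lit 5) (.cov (nat_lit 1376601996207284289539)) (.alt (nat_lit 5) (.exp (.alt (nat_lit 13) (.exp (.alt (nat_lit 21) (.cov (nat_lit 6707699161028700930068)) (.alt (nat_lit 21) (.cov (nat_lit 804742506551631151115)) (.alt (nat_lit 21) (.exp (.alt (nat_lit 17) (.exp (.alt (nat_lit 16) (.exp (.alt (nat_lit 19) (.exp (.alt (nat_lit 20) (.exp (.alt (nat_lit 22) (.exp (.alt (nat_lit 30) (.exp (.alt (nat_lit 14) (.exp (.alt (nat_lit 31) (.exp (.alt (nat_lit 28) (.cov (nat_lit 55340241017838239745)) (.alt (nat_lit 28) (.exp (.alt (nat_lit 24) (.cov (nat_lit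 650247739593386360832)) (.alt (nat_lit 12) (.cov (nat_lit 156372041736)) .e))) .e))) .e)) .e)) .e)) .e)) (.alt (nat_lit 20) (.cov (nat_lit 47952311639624329986051)) (.alt (nat_lit 20) (.exp (.alt (nat_lit 22) (.exp (.alt (nat_lit 28) (.cov (nat_lit 1616395982444865519618)) (.alt (nat_lit 28) (.cov (nat_lit 1985330978268165177345)) (.alt (nat_lit 28) (.exp (.alt (nat_lit 12) (.cov (nat_lit 22758670518687717392387)) (.alt (nat_lit 24) (.exp (.alt (nat_lit 8) (.exp (.alt (nat_lit 26) (.cov (nat_lit 102116563514833805246465)) (.alt (nat_lit 25) (.cov (nat_lit 47574941711)) .e))) .e)) (.alt (nat_lit 24) (.exp (.alt (nat_lit 26) (.cov (nat_lit 1611784272237180223490)) (.alt (nat_lit 8) (.cov (nat_lit 10345250883)) .e))) .e)))) .e)))) .e)) (.alt (nat_lit 20) (.exp (.alt (nat_lit 28) (.cov (nat_lit 347638115700578124300290)) (.alt (nat_lit 22) (.cov (nat_lit 11641292968)) .e))) .e))))) .e)) .e)) .e)) (.alt (nat_lit 21) (.cov (nat_lit 6707710334219956781057)) (.alt (nat_lit 21) (.exp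 (.alt (nat_lit 20) (.cov (nat_lit 63373790611032057577506)) (.alt (nat_lit 17) (.cov (nat_lit 795519134514604408839)) (.alt (nat_lit 17) (.cov (nat_lit 5370315475702479060995)) (.alt (nat_lit 17) (.exp (.alt (nat_lit 16) (.exp (.alt (nat_lit 19) (.cov (nat_lit 22989254949195819778059)) (.alt (nat_lit 19) (.cov (nat_lit 63350732682317295255554)) (.alt (nat_lit 19) (.cov (nat_lit 800130820533634727937)) (.alt (nat_lit 19) (.exp (.alt (nat_lit 18) (.exp (.alt (nat_lit 22) (.exp (.alt (nat_lit 30) (.exp (.alt (nat_lit 14) (.exp (.alt (nat_lit 31) (.exp (.alt (nat_lit 26) (.cov (nat_lit 424275122491456749569)) (.alt (nat_lit 26) (.exp (.alt (nat_lit 24) (.cov (nat_lit 6557817529198870265856)) (.alt (nat_lit 10) (.cov (nat_lit 10343153672)) .e))) .e))) .e)) .e)) .e)) .e)) (.alt (nat_lit 18) (.cov (nat_lit 406847552651698938839043)) (.alt (nat_lit 18) (.exp (.alt (nat_lit 22) (.exp (.alt (nat_lit 26) (.cov (nat_lit 1611784296426436034562)) (.alt (nat_lit 26) (.cov (nat_lit 22050776844445157425153))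 (.alt (nat_lit 26) (.exp (.alt (nat_lit 10) (.cov (nat_lit 343879591353823591923715)) (.alt (nat_lit 24) (.exp (.alt (nat_lit 8) (.exp (.alt (nat_lit 28) (.cov (nat_lit 102116563514834377768961)) (.alt (nat_lit 25) (.cov (nat_lit 4627365903)) .e))) .e)) (.alt (nat_lit 24) (.exp (.alt (nat_lit 28) (.cov (nat_lit 1616395958255609708546)) (.alt (nat_lit 8) (.cov (nat_lit 156376236099)) .e))) .e)))) .e)))) .e)) (.alt (nat_lit 18) (.exp (.alt (nat_lit 26) (.cov (nat_lit 26512583179423990153218)) (.alt (nat_lit 22) (.cov (nat_lit 11641292968)) .e))) .e))))) .e))))) .e)) (.alt (nat_lit 17) (.cov (nat_lit 620763563)) .e)))))) .e)))))) .e)) (.alt (nat_lit 5) (.cov (nat_lit 11556363807)) .e))))))) .e))))))) .e)) .e)) .e)) .e)) (.alt (nat_lit 0) (.cov (nat_lit 2601009139897792987139)) (.alt (nat_lit 0) (.exp (.alt (nat_lit 2) (.exp (.alt (nat_lit 4) (.cov (nat_lit 102208806244611126198499)) (.alt (nat_lit 4) (.cov (nat_lit 1339702438755787866329)) (.alt (nat_lit 4) (.exp (.alt (nat_lit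 5) (.exp (.alt (nat_lit 7) (.exp (.alt (nat_lit 13) (.exp (.alt (nat_lit 9) (.exp (.alt (nat_lit 8) (.exp (.alt (nat_lit 11) (.exp (.alt (nat_lit 20) (.cov (nat_lit 406925951679058720849954)) (.alt (nat_lit 12) (.cov (nat_lit 6557820814714371833863)) (.alt (nat_lit 12) (.cov (nat_lit 6410250631096439930883)) (.alt (nat_lit 12) (.cov (nat_lit 64574583981113081856)) (.alt (nat_lit 12) (.cov (nat_lit 197138524)) .e)))))) .e)) .e)) .e)) .e)) .e)) .e)) (.alt (nat_lit 4) (.cov (nat_lit 415067996838550306827)) (.alt (nat_lit 4) (.exp (.alt (nat_lit 5) (.exp (.alt (nat_lit 7) (.exp (.alt (nat_lit 13) (.exp (.alt (nat_lit 6) (.cov (nat_lit 350151487617472869171238)) (.alt (nat_lit 6) (.cov (nat_lit 45411279288916231847970)) (.alt (nat_lit 6) (.cov (nat_lit 50739525926434897927)) (.alt (nat_lit 6) (.cov (nat_lit 124529242204350185475)) (.alt (nat_lit 6) (.exp (.alt (nat_lit 14) (.exp (.alt (nat_lit 22) (.cov (nat_lit 3168230142023119667220)) (.alt (nat_lit 22) (.cov (nat_lit 22057697522474785177611))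 (.alt (nat_lit 22) (.exp (.alt (nat_lit 20) (.exp (.alt (nat_lit 16) (.exp (.alt (nat_lit 21) (.exp (.alt (nat_lit 18) (.exp (.alt (nat_lit 19) (.exp (.alt (nat_lit 27) (.exp (.alt (nat_lit 11) (.exp (.alt (nat_lit 31) (.exp (.alt (nat_lit 26) (.cov (nat_lit 424275122491456749569)) (.alt (nat_lit 26) (.exp (.alt (nat_lit 24) (.cov (nat_lit 21898591069497576128512)) (.alt (nat_lit 10) (.cov (nat_lit 10343153672)) .e))) .e))) .e)) .e)) .e)) .e)) (.alt (nat_lit 18) (.cov (nat_lit 29058234022125707984899)) (.alt (nat_lit 18) (.exp (.alt (nat_lit 19) (.exp (.alt (nat_lit 26) (.cov (nat_lit 69175323261770137602)) (.alt (nat_lit 26) (.cov (nat_lit 6710003304146451562497)) (.alt (nat_lit 26) (.exp (.alt (nat_lit 10) (.cov (nat_lit 3862287058190655815683)) (.alt (nat_lit 24) (.exp (.alt (nat_lit 8) (.exp (.alt (nat_lit 25) (.cov (nat_lit 45441248191370390142977)) (.alt (nat_lit 28) (.cov (nat_lit 185015992335)) .e))) .e)) (.alt (nat_lit 24) (.exp (.alt (nat_lit 25) (.cov (nat_lit 66869456063299584002))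 (.alt (nat_lit 8) (.cov (nat_lit 28094496835)) .e))) .e)))) .e)))) .e)) (.alt (nat_lit 18) (.exp (.alt (nat_lit 26) (.cov (nat_lit 404301901808995607248898)) (.alt (nat_lit 19) (.cov (nat_lit 363858088)) .e))) .e))))) .e)) .e)) .e)) (.alt (nat_lit 22) (.cov (nat_lit 69188310693159370753)) (.alt (nat_lit 22) (.exp (.alt (nat_lit 18) (.cov (nat_lit 42118529752099686711330)) (.alt (nat_lit 20) (.cov (nat_lit 22053085836456255029255)) (.alt (nat_lit 20) (.cov (nat_lit 345387619771344678289411)) (.alt (nat_lit 20) (.exp (.alt (nat_lit 16) (.exp (.alt (nat_lit 21) (.cov (nat_lit 63127064210577887854603)) (.alt (nat_lit 21) (.cov (nat_lit 42097777666393975554050)) (.alt (nat_lit 21) (.cov (nat_lit 22055391679464894103553)) (.alt (nat_lit 21) (.exp (.alt (nat_lit 17) (.exp (.alt (nat_lit 19) (.exp (.alt (nat_lit 27) (.exp (.alt (nat_lit 11) (.exp (.alt (nat_lit 31) (.exp (.alt (nat_lit 25) (.cov (nat_lit 1604866743208833449985)) (.alt (nat_lit 25) (.exp (.alt (nat_lit 24) (.cov (nat_lit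 3011430981028208967680)) (.alt (nat_lit 9) (.cov (nat_lit 1753219080)) .e))) .e))) .e)) .e)) .e)) .e)) (.alt (nat_lit 17) (.cov (nat_lit 10166462247637913436163)) (.alt (nat_lit 17) (.exp (.alt (nat_lit 19) (.exp (.alt (nat_lit 25) (.cov (nat_lit 66869480252555395074)) (.alt (nat_lit 25) (.cov (nat_lit 25597163392615784120321)) (.alt (nat_lit 25) (.exp (.alt (nat_lit 9) (.cov (nat_lit 22751752989669236670467)) (.alt (nat_lit 24) (.exp (.alt (nat_lit 8) (.exp (.alt (nat_lit 26) (.cov (nat_lit 45441248191370424745985)) (.alt (nat_lit 28) (.cov (nat_lit 47578087439)) .e))) .e)) (.alt (nat_lit 24) (.exp (.alt (nat_lit 26) (.cov (nat_lit 69175299072514326530)) (.alt (nat_lit 8) (.cov (nat_lit 165534498883)) .e))) .e)))) .e)))) .e)) (.alt (nat_lit 17) (.exp (.alt (nat_lit 25) (.cov (nat_lit 102068141062329636749314)) (.alt (nat_lit 19) (.cov (nat_lit 363858088)) .e))) .e))))) .e))))) .e)) (.alt (nat_lit 20) (.cov (nat_lit 721426859)) .e)))))) .e)))))) .e)) (.alt (nat_lit 6) (.cov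 (nat_lit 283123231)) .e))))))) .e)) .e)) .e)) (.alt (nat_lit 4) (.cov (nat_lit 380481149946222870529)) (.alt (nat_lit 4) (.exp (.alt (nat_lit 5) (.cov (nat_lit 1639461460407183475195)) (.alt (nat_lit 5) (.cov (nat_lit 48433682917320818726)) (.alt (nat_lit 5) (.cov (nat_lit 417371297776747413538)) (.alt (nat_lit 5) (.exp (.alt (nat_lit 7) (.exp (.alt (nat_lit 3) (.exp (.alt (nat_lit 11) (.exp (.alt (nat_lit 19) (.exp (.alt (nat_lit 13) (.cov (nat_lit 7634648050695970750483)) (.alt (nat_lit 13) (.cov (nat_lit 1355843579514398441483)) (.alt (nat_lit 13) (.cov (nat_lit 66878463263262113794)) (.alt (nat_lit 13) (.cov (nat_lit 104696813989548947144705)) (.alt (nat_lit 13) (.exp (.alt (nat_lit 12) (.cov (nat_lit 21725654134643153174562)) (.alt (nat_lit 9) (.cov (nat_lit 313597945590290841607)) (.alt (nat_lit 9) (.cov (nat_lit 426588022166328967171)) (.alt (nat_lit 9) (.exp (.alt (nat_lit 8) (.exp (.alt (nat_lit 25) (.cov (nat_lit 804739355351299653643)) (.alt (nat_lit 25) (.exp (.alt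 (nat_lit 29) (.exp (.alt (nat_lit 21) (.exp (.alt (nat_lit 28) (.exp (.alt (nat_lit 24) (.cov (nat_lit 350179154454839115644931)) (.alt (nat_lit 24) (.exp (.alt (nat_lit 16) (.exp (.alt (nat_lit 26) (.cov (nat_lit 365388494934817096335361)) (.alt (nat_lit 26) (.exp (.alt (nat_lit 30) (.cov (nat_lit 6396408518553917980672)) (.alt (nat_lit 27) (.cov (nat_lit 3555721224)) .e))) .e))) .e)) (.alt (nat_lit 24) (.cov (nat_lit 28716302928)) .e)))) .e)) .e)) .e)) (.alt (nat_lit 25) (.cov (nat_lit 21760245361980902211585)) (.alt (nat_lit 25) (.exp (.alt (nat_lit 29) (.exp (.alt (nat_lit 21) (.exp (.alt (nat_lit 20) (.exp (.alt (nat_lit 16) (.exp (.alt (nat_lit 28) (.exp (.alt (nat_lit 31) (.cov (nat_lit 45448165720398024933377)) (.alt (nat_lit 31) (.exp (.alt (nat_lit 30) (.cov (nat_lit 22860127604339692797952)) (.alt (nat_lit 23) (.cov (nat_lit 28779216904)) .e))) .e))) .e)) .e)) .e)) .e)) (.alt (nat_lit 27) (.cov (nat_lit 48021486929909340176387)) (.alt (nat_lit 27) (.exp (.alt (nat_lit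 31) (.exp (.alt (nat_lit 26) (.cov (nat_lit 1591031709526673850370)) (.alt (nat_lit 26) (.cov (nat_lit 1591031821493598158849)) (.alt (nat_lit 26) (.exp (.alt (nat_lit 18) (.cov (nat_lit 4256586212600849629187)) (.alt (nat_lit 30) (.exp (.alt (nat_lit 14) (.exp (.alt (nat_lit 22) (.cov (nat_lit 2850021968184276418561)) (.alt (nat_lit 22) (.exp (.alt (nat_lit 20) (.cov (nat_lit 2868468714456973574144)) (.alt (nat_lit 23) (.cov (nat_lit 2974810120)) .e))) .e))) .e)) (.alt (nat_lit 18) (.cov (nat_lit 156554494544)) .e)))) .e)))) .e)) (.alt (nat_lit 17) (.cov (nat_lit 4618980499)) .e))))) .e))))) .e)) (.alt (nat_lit 9) (.cov (nat_lit 310384731)) .e)))))) .e)))))) .e)) .e)) .e)) .e)) (.alt (nat_lit 5) (.cov (nat_lit 385092739207628062723)) (.alt (nat_lit 5) (.exp (.alt (nat_lit 7) (.exp (.alt (nat_lit 13) (.cov (nat_lit 1355836806524449063129)) (.alt (nat_lit 13) (.cov (nat_lit 6560132379410265276436)) (.alt (nat_lit 13) (.cov (nat_lit 66880426990495596555)) (.alt (nat_lit 13) (.exp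 (.alt (nat_lit 9) (.exp (.alt (nat_lit 8) (.exp (.alt (nat_lit 11) (.exp (.alt (nat_lit 29) (.cov (nat_lit 25594858187323360673826)) (.alt (nat_lit 12) (.cov (nat_lit 1466519450206118871047)) (.alt (nat_lit 12) (.cov (nat_lit 6410250631096439930883)) (.alt (nat_lit 12) (.cov (nat_lit 64574583981113081856)) (.alt (nat_lit 12) (.cov (nat_lit 197138524)) .e)))))) .e)) .e)) .e)) (.alt (nat_lit 13) (.cov (nat_lit 6412565663803804483585)) (.alt (nat_lit 13) (.exp (.alt (nat_lit 9) (.cov (nat_lit 1501107095381581234214)) (.alt (nat_lit 9) (.cov (nat_lit 45404363129880719654946)) (.alt (nat_lit 9) (.cov (nat_lit 57657054953468854279)) (.alt (nat_lit 9) (.cov (nat_lit 2640203958659316711427)) (.alt (nat_lit 9) (.exp (.alt (nat_lit 8) (.exp (.alt (nat_lit 11) (.cov (nat_lit 5114361641616274358290)) (.alt (nat_lit 11) (.cov (nat_lit 26733948732854984769547)) (.alt (nat_lit 11) (.cov (nat_lit 25444986624888130240514)) (.alt (nat_lit 11) (.cov (nat_lit 62268740972499173377)) (.alt (nat_lit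 11) (.exp (.alt (nat_lit 27) (.cov (nat_lit 48021486929899206737954)) (.alt (nat_lit 15) (.cov (nat_lit 3022963481434623311879)) (.alt (nat_lit 15) (.cov (nat_lit 2875393298135055859715)) (.alt (nat_lit 15) (.cov (nat_lit 71492113008754163712)) (.alt (nat_lit 3) (.cov (nat_lit 53483615)) .e)))))) .e)))))) .e)) (.alt (nat_lit 9) (.cov (nat_lit 9940508191)) .e))))))) .e))))))) .e)) (.alt (nat_lit 5) (.cov (nat_lit 1188044896)) .e)))))))) .e)))))))) .e)) (.alt (nat_lit 0) (.cov (nat_lit 185021243677)) .e))))))))) .e)),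
      .rot (.exp (.alt (nat_lit 1) (.exp (.alt (nat_lit 0) (.exp (.alt (nat_lit 2) (.cov (nat_lit 50158421779185800066277242694533131)) (.alt (nat_lit 2) (.cov (nat_lit 81149464798071420083928748261382)) (.alt (nat_lit 2) (.cov (nat_lit 81149464798071420248855492427778)) (.alt (nat_lit 2) (.cov (nat_lit 61029793355758643250290375450951681)) (.alt (nat_lit 2) (.cov (nat_lit 3914527911874211170903598971224064)) (.alt (nat_lit 2) (.exp (.alt (nat_lit 3) (.cov (nat_lit 20305567786696019310578343346183)) (.alt (nat_lit 3) (.cov (nat_lit 81149464799401891535429422809091)) (.alt (nat_lit 3) (.cov (nat_lit 6855477256046672903218177242038273)) (.alt (nat_lit 3) (.exp (.alt (nat_lit 7) (.exp (.alt (nat_lit 11) (.cov (nat_lit 3265491099535647390289378545762306)) (.alt (nat_lit 11) (.cov (nat_lit 224911662900070096799301259202920449)) (.alt (nat_lit 11) (.cov (nat_lit 81149464798820819068520271708160)) (.alt (nat_lit 11) (.cov (nat_lit 378167273904736829533)) .e))))) .e)) (.alt (nat_lit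 3) (.cov (nat_lit 6354913761161238282747)) .e)))))) .e))))))) (.alt (nat_lit 0) (.cov (nat_lit 4620946105373295621)) (.alt (nat_lit 0) (.cov (nat_lit 36904467870542464608)) (.alt (nat_lit 0) (.cov (nat_lit 1775513503104698941947)) (.alt (nat_lit 0) (.cov (nat_lit 9237824017707041738)) (.alt (nat_lit 0) (.exp (.alt (nat_lit 2) (.cov (nat_lit 48109909473306064019789708395544578)) (.alt (nat_lit 2) (.cov (nat_lit 1318390483831737402544777903210497)) (.alt (nat_lit 2) (.cov (nat_lit 1318390478996034124101654364028928)) (.alt (nat_lit 2) (.cov (nat_lit 9238767398677381213)) .e))))) (.alt (nat_lit 0) (.cov (nat_lit 4628512944395649062)) (.alt (nat_lit 0) (.cov (nat_lit 6645455809932802654302)) (.alt (nat_lit 0) (.cov (nat_lit 594924453046068969506)) (.alt (nat_lit 0) (.cov (nat_lit 594924453045464989732)) (.alt (nat_lit 0) (.cov (nat_lit 4629377160526692367)) (.alt (nat_lit 0) (.exp (.alt (nat_lit 2) (.exp (.alt (nat_lit 3) (.exp (.alt (nat_lit 7) (.exp (.alt (nat_lit 11) (.exp (.alt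 (nat_lit 4) (.cov (nat_lit 404306518108565256798673)) (.alt (nat_lit 4) (.cov (nat_lit 45614191290097646698713)) (.alt (nat_lit 4) (.cov (nat_lit 343874986715518347509853)) (.alt (nat_lit 4) (.cov (nat_lit 343874988666052579164196)) (.alt (nat_lit 4) (.cov (nat_lit 13842706258177556496)) (.alt (nat_lit 4) (.cov (nat_lit 343874988666052142956562)) (.alt (nat_lit 4) (.cov (nat_lit 382780928048869933067)) (.alt (nat_lit 4) (.cov (nat_lit 10196451513046296166406)) (.alt (nat_lit 4) (.cov (nat_lit 601840422966226059267)) (.alt (nat_lit 4) (.cov (nat_lit 13848975673646907394)) (.alt (nat_lit 4) (.cov (nat_lit 1339710520166142967809)) (.alt (nat_lit 4) (.cov (nat_lit 1784739447998751178752)) (.alt (nat_lit 4) (.exp (.alt (nat_lit 5) (.exp (.alt (nat_lit 13) (.cov (nat_lit 268745989240715734902824596668418)) (.alt (nat_lit 13) (.cov (nat_lit 63874384546957996301616886289793025)) (.alt (nat_lit 13) (.cov (nat_lit 63874384546957996301638875915223040)) (.alt (nat_lit 13) (.cov (nat_lit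 712508291587657171037)) .e))))) (.alt (nat_lit 5) (.cov (nat_lit 10138795007849098379302)) (.alt (nat_lit 5) (.cov (nat_lit 10138795007848494399582)) (.alt (nat_lit 5) (.cov (nat_lit 102077371240342793224226)) (.alt (nat_lit 5) (.cov (nat_lit 102077371240343363649572)) (.alt (nat_lit 5) (.cov (nat_lit 1358150557218932523023)) (.alt (nat_lit 5) (.cov (nat_lit 1358152518747676475399)) (.alt (nat_lit 5) (.cov (nat_lit 48433682916783947782)) (.alt (nat_lit 5) (.cov (nat_lit 1376601996207284289539)) (.alt (nat_lit 5) (.cov (nat_lit 1819324504886760964098)) (.alt (nat_lit 5) (.cov (nat_lit 638733926506808999937)) (.alt (nat_lit 5) (.cov (nat_lit 1376605101227517149184)) (.alt (nat_lit 5) (.cov (nat_lit 11556363807)) .e)))))))))))))) .e)))))))))))))) .e)) .e)) .e)) .e)) (.alt (nat_lit 0) (.cov (nat_lit 4629652038429442054)) (.alt (nat_lit 0) (.cov (nat_lit 4629786178848030723)) (.alt (nat_lit 0) (.cov (nat_lit 1332795493626354335746)) (.alt (nat_lit 0) (.cov (nat_lit 1337407386352965648385))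 (.alt (nat_lit 0) (.exp (.alt (nat_lit 2) (.exp (.alt (nat_lit 4) (.exp (.alt (nat_lit 5) (.cov (nat_lit 2951111908277042801676903324319751)) (.alt (nat_lit 5) (.cov (nat_lit 102578305057362078925776818719948803)) (.alt (nat_lit 5) (.cov (nat_lit 4279603963486512735027087415443457)) (.alt (nat_lit 5) (.exp (.alt (nat_lit 7) (.exp (.alt (nat_lit 13) (.cov (nat_lit 894636820850972072347532763383988226)) (.alt (nat_lit 13) (.cov (nat_lit 2951106318203112119675044201758721)) (.alt (nat_lit 13) (.cov (nat_lit 1003994856023281002726987942330368)) (.alt (nat_lit 13) (.cov (nat_lit 456564001080223989853)) .e))))) .e)) (.alt (nat_lit 5) (.cov (nat_lit 1858517861297653023227)) .e)))))) (.alt (nat_lit 4) (.exp (.alt (nat_lit 5) (.cov (nat_lit 6196299190550193593015399183548422)) (.alt (nat_lit 5) (.cov (nat_lit 19501559803503030378889088070582275)) (.alt (nat_lit 5) (.cov (nat_lit 101431874401803795048383455952897)) (.alt (nat_lit 5) (.cov (nat_lit 101431874401730008204029409099776)) (.alt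 (nat_lit 5) (.cov (nat_lit 102208806244604147925211)) .e)))))) (.alt (nat_lit 4) (.cov (nat_lit 24229810521207933501906)) (.alt (nat_lit 4) (.cov (nat_lit 1339702260634803503331)) (.alt (nat_lit 4) (.cov (nat_lit 1339707014923182670041)) (.alt (nat_lit 4) (.cov (nat_lit 6652370807884680790109)) (.alt (nat_lit 4) (.cov (nat_lit 21483554714404834508835)) (.alt (nat_lit 4) (.cov (nat_lit 11545813273613959184)) (.alt (nat_lit 4) (.cov (nat_lit 6504797046610195382290)) (.alt (nat_lit 4) (.cov (nat_lit 21852489930130728157195)) (.alt (nat_lit 4) (.cov (nat_lit 21483556275711513722886)) (.alt (nat_lit 4) (.cov (nat_lit 1413499482178980937731)) (.alt (nat_lit 4) (.exp (.alt (nat_lit 5) (.exp (.alt (nat_lit 7) (.exp (.alt (nat_lit 13) (.exp (.alt (nat_lit 6) (.exp (.alt (nat_lit 14) (.cov (nat_lit 111557314810861150929023907397634)) (.alt (nat_lit 14) (.cov (nat_lit 230032954622474576229662481690132481)) (.alt (nat_lit 14) (.cov (nat_lit 230032954622474576229684471891230720)) (.alt (nat_lit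 14) (.cov (nat_lit 21965463307329883603037)) .e))))) (.alt (nat_lit 6) (.cov (nat_lit 350151487617472869171238)) (.alt (nat_lit 6) (.cov (nat_lit 350151487617472164528222)) (.alt (nat_lit 6) (.cov (nat_lit 45411279288916231847970)) (.alt (nat_lit 6) (.cov (nat_lit 45411279288916265402404)) (.alt (nat_lit 6) (.cov (nat_lit 1581817329112762548239)) (.alt (nat_lit 6) (.cov (nat_lit 1581819290640835411975)) (.alt (nat_lit 6) (.cov (nat_lit 50739525926535561222)) (.alt (nat_lit 6) (.cov (nat_lit 124529242204350185475)) (.alt (nat_lit 6) (.cov (nat_lit 6543996830766157791234)) (.alt (nat_lit 6) (.cov (nat_lit 21891688942428856778753)) (.alt (nat_lit 6) (.cov (nat_lit 1600271873121246511104)) (.alt (nat_lit 6) (.cov (nat_lit 283123231)) .e)))))))))))))) .e)) .e)) .e)) (.alt (nat_lit 4) (.cov (nat_lit 1339712789558142697473)) (.alt (nat_lit 4) (.cov (nat_lit 1342018865663210160128)) (.alt (nat_lit 4) (.exp (.alt (nat_lit 5) (.cov (nat_lit 1358146871655956218363)) (.alt (nat_lit 5) (.cov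 (nat_lit 24232111291070061478858)) (.alt (nat_lit 5) (.exp (.alt (nat_lit 7) (.cov (nat_lit 877239573786348951581167683895298)) (.alt (nat_lit 7) (.cov (nat_lit 58803795879442375682759442851430401)) (.alt (nat_lit 7) (.cov (nat_lit 106502476803016472210383068725248)) (.alt (nat_lit 7) (.cov (nat_lit 48431719188851064925)) .e))))) (.alt (nat_lit 5) (.cov (nat_lit 1358153756797769351206)) (.alt (nat_lit 5) (.cov (nat_lit 48433682916616175710)) (.alt (nat_lit 5) (.cov (nat_lit 417371297776747413538)) (.alt (nat_lit 5) (.cov (nat_lit 42074731115426052309028)) (.alt (nat_lit 5) (.cov (nat_lit 6361836273176174133263)) (.alt (nat_lit 5) (.cov (nat_lit 1565681391243644370951)) (.alt (nat_lit 5) (.cov (nat_lit 7837576645696455442438)) (.alt (nat_lit 5) (.cov (nat_lit 385092739207628062723)) (.alt (nat_lit 5) (.cov (nat_lit 620288726146982346754)) (.alt (nat_lit 5) (.cov (nat_lit 1358159212574451695617)) (.alt (nat_lit 5) (.exp (.alt (nat_lit 7) (.exp (.alt (nat_lit 13) (.cov (nat_lit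 1355836190796259787217)) (.alt (nat_lit 13) (.cov (nat_lit 1348920295641823838425)) (.alt (nat_lit 13) (.cov (nat_lit 347631206318934603071581)) (.alt (nat_lit 13) (.cov (nat_lit 66878463262560616483)) (.alt (nat_lit 13) (.cov (nat_lit 66880426990327824400)) (.alt (nat_lit 13) (.cov (nat_lit 1348927200577597734930)) (.alt (nat_lit 13) (.cov (nat_lit 66880426990495596555)) (.alt (nat_lit 13) (.cov (nat_lit 3119819317769472573446)) (.alt (nat_lit 13) (.cov (nat_lit 6380283017249882636291)) (.alt (nat_lit 13) (.cov (nat_lit 25403486350125634158594)) (.alt (nat_lit 13) (.cov (nat_lit 1422720868497835950081)) (.alt (nat_lit 13) (.cov (nat_lit 21868632056051006439424)) (.alt (nat_lit 13) (.exp (.alt (nat_lit 9) (.exp (.alt (nat_lit 8) (.cov (nat_lit 613546952502821802226038412935170)) (.alt (nat_lit 8) (.cov (nat_lit 889469867410407673907751737540739073)) (.alt (nat_lit 8) (.cov (nat_lit 3300966224991611860837191481556992)) (.alt (nat_lit 8) (.cov (nat_lit 1501105646180627382365))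 .e))))) (.alt (nat_lit 9) (.cov (nat_lit 1353534829398114435110)) (.alt (nat_lit 9) (.cov (nat_lit 1501107095336953839710)) (.alt (nat_lit 9) (.cov (nat_lit 45404363129880719654946)) (.alt (nat_lit 9) (.cov (nat_lit 4083655058978386214948)) (.alt (nat_lit 9) (.cov (nat_lit 57655091225869418511)) (.alt (nat_lit 9) (.cov (nat_lit 57657054953468854279)) (.alt (nat_lit 9) (.cov (nat_lit 57657054953636626438)) (.alt (nat_lit 9) (.cov (nat_lit 2640203958659316711427)) (.alt (nat_lit 9) (.cov (nat_lit 47906208076930952986626)) (.alt (nat_lit 9) (.cov (nat_lit 6518633582409537290241)) (.alt (nat_lit 9) (.cov (nat_lit 25260524153922954199040)) (.alt (nat_lit 9) (.cov (nat_lit 9940508191)) .e)))))))))))))) .e)))))))))))))) .e)) (.alt (nat_lit 5) (.cov (nat_lit 7348263)) .e)))))))))))))))) .e))))))))))))))))) .e)) (.alt (nat_lit 0) (.cov (nat_lit 185021243677)) .e))))))))))))))))))) .e)),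
      .cov (nat_lit 2305843009213702449),
      .cov (nat_lit 2305843009213702450),
      .cov (nat_lit 2305843009213702451),
      .cov (nat_lit 2305843009213702452),
      .cov (nat_lit 2305843009213702453),
      .cov (nat_lit 2305843009213702446)])]) (by decide +kernel)
  exact h _ List.mem_cons_self

theorem t3_13 : GF FULL [0, 3] [13, 11] := by
  have h := JT.chkW_ok (zs := [0, 3]) good (by decide) (by decide)
    (L := [([13, 11], [.cov (nat_lit 23987688556597153372258),
      .cov (nat_lit 384289495634034082977890),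
      .cov (nat_lit 1482662618612491098207),
      .cov (nat_lit 80710071050573975755),
      .cov (nat_lit 23987688556597153372258),
      .cov (nat_lit 384289495634034082977890),
      .cov (nat_lit 1482662618612491098207),
      .cov (nat_lit 80710071050372649150),
      .cov (nat_lit 23987688556597153372258),
      .cov (nat_lit 384289495634034082977890),
      .cov (nat_lit 1482662618612491098207),
      .cov (nat_lit 80710071050372649151),
      .cov (nat_lit 23987688556597153372258),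
      .cov (nat_lit 384289495634034082977890),
      .cov (nat_lit 1482662618612491098207),
      .rot (.exp (.alt (nat_lit 3) (.cov (nat_lit 27355579835730831685664636939)) (.alt (nat_lit 3) (.cov (nat_lit 14441105822362166040117478266241030)) (.alt (nat_lit 3) (.cov (nat_lit 30247324640865053994084466690)) (.alt (nat_lit 3) (.exp (.alt (nat_lit 1) (.exp (.alt (nat_lit 5) (.cov (nat_lit 14685077924479193)) .e)) .e)) (.alt (nat_lit 3) (.cov (nat_lit 324550213007834606208336566157312)) (.alt (nat_lit 3) (.exp (.alt (nat_lit 1) (.exp (.alt (nat_lit 5) (.cov (nat_lit 33690346108385423289794691074)) .e)) (.alt (nat_lit 1) (.cov (nat_lit 811326631471514726935366554615811)) (.alt (nat_lit 1) (.cov (nat_lit 24589551210160972133045370881)) (.alt (nat_lit 1) (.exp (.alt (nat_lit 5) (.exp (.alt (nat_lit 9) (.cov (nat_lit 30252159767682568892342861826)) (.alt (nat_lit 9) (.cov (nat_lit 32297662254470532451059892225)) (.alt (nat_lit 9) (.cov (nat_lit 33695188323364550821076271104)) (.alt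 (nat_lit 9) (.cov (nat_lit 26489536929721767428189)) .e))))) .e)) (.alt (nat_lit 1) (.cov (nat_lit 14454179876569595)) .e)))))) .e))))))),
      .cov (nat_lit 23987688556597153372258),
      .cov (nat_lit 384289495634034082977890),
      .cov (nat_lit 1482662618612491098207),
      .rot (.exp (.alt (nat_lit 3) (.cov (nat_lit 55979480656696315332382242496315403)) (.alt (nat_lit 3) (.cov (nat_lit 14441105822362166040117478266241030)) (.alt (nat_lit 3) (.cov (nat_lit 20740337898373713751251615746)) (.alt (nat_lit 3) (.exp (.alt (nat_lit 1) (.exp (.alt (nat_lit 5) (.cov (nat_lit 9433809954013401)) .e)) .e)) (.alt (nat_lit 3) (.cov (nat_lit 324550213007834606208336566157312)) (.alt (nat_lit 3) (.exp (.alt (nat_lit 1) (.exp (.alt (nat_lit 5) (.cov (nat_lit 24594412296159225496560730114)) .e)) (.alt (nat_lit 1) (.cov (nat_lit 162280017160835232304507212791811)) (.alt (nat_lit 1) (.cov (nat_lit 811326583113153776785688571674625)) (.alt (nat_lit 1) (.exp (.alt (nat_lit 5) (.exp (.alt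 (nat_lit 9) (.cov (nat_lit 764890262748319644951402584573214722)) (.alt (nat_lit 9) (.cov (nat_lit 31789915033545866684123840513)) (.alt (nat_lit 9) (.cov (nat_lit 24599248165458391671756554240)) (.alt (nat_lit 9) (.cov (nat_lit 25456520545834888069213)) .e))))) .e)) (.alt (nat_lit 1) (.cov (nat_lit 14454179876569595)) .e)))))) .e)))))))])]) (by decide +kernel)
  exact h _ List.mem_cons_self

theorem t3_14 : GF FULL [0, 3] [14, 10] := by
  have h := JT.chkW_ok (zs := [0, 3]) good (by decide) (by decide)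
    (L := [([14, 10], [.rot (.exp (.alt (nat_lit 3) (.exp (.alt (nat_lit 1) (.cov (nat_lit 8599775531542763177569941258764290)) .e)) (.alt (nat_lit 3) (.exp (.alt (nat_lit 1) (.cov (nat_lit 811330243741776113412990456299521)) .e)) (.alt (nat_lit 3) (.exp (.alt (nat_lit 1) (.exp (.alt (nat_lit 5) (.cov (nat_lit 15397560846909478)) .e)) .e)) (.alt (nat_lit 3) (.exp (.alt (nat_lit 1) (.exp (.alt (nat_lit 2) (.cov (nat_lit 14278850220565523738317550549729282)) (.alt (nat_lit 2) (.cov (nat_lit 3569737949837072819602922795958273)) (.alt (nat_lit 2) (.exp (.alt (nat_lit 6) (.cov (nat_lit 73802373855684067346)) .e)) (.alt (nat_lit 2) (.cov (nat_lit 15397560845860957)) .e))))) .e)) (.alt (nat_lit 3) (.cov (nat_lit 295159212556952797691)) .e)))))),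
      .cov (nat_lit 25389640961060692302688),
      .cov (nat_lit 6921120044160128022),
      .cov (nat_lit 104636852177903181370390),
      .cov (nat_lit 23987688556592522860729),
      .cov (nat_lit 25389640961060692302688),
      .cov (nat_lit 6921120044160129208),
      .cov (nat_lit 104636852177903181371576),
      .cov (nat_lit 23987688556592522860730),
      .cov (nat_lit 25389640961060692302688),
      .cov (nat_lit 6921120033322047065),
      .cov (nat_lit 104636852177903852459609),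
      .cov (nat_lit 23987688556592522860731),
      .cov (nat_lit 25389640961060692302688),
      .cov (nat_lit 6921120044160129627),
      .cov (nat_lit 104636852177903852460635),
      .cov (nat_lit 23987688556592522860122),
      .cov (nat_lit 25389640961060692302688),
      .rot (.exp (.alt (nat_lit 3) (.cov (nat_lit 973589515734326967603641338298374)) (.alt (nat_lit 3) (.exp (.alt (nat_lit 1) (.cov (nat_lit 811330243740447947804498996494337)) .e)) (.alt (nat_lit 3) (.cov (nat_lit 13954331695920950053310801420222466)) (.alt (nat_lit 3) (.exp (.alt (nat_lit 1) (.exp (.alt (nat_lit 5) (.cov (nat_lit 1549541897553425989725)) .e)) .e)) (.alt (nat_lit 3) (.cov (nat_lit 756128263907908517540647706802782208)) (.alt (nat_lit 3) (.exp (.alt (nat_lit 1) (.cov (nat_lit 14278850220565226284571561005416454)) (.alt (nat_lit 1) (.cov (nat_lit 50138150428837075004404890422214659)) (.alt (nat_lit 1) (.cov (nat_lit 811330243741771501726972028911617)) (.alt (nat_lit 1) (.exp (.alt (nat_lit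 5) (.cov (nat_lit 1549541897553423892574)) .e)) (.alt (nat_lit 1) (.exp (.alt (nat_lit 5) (.cov (nat_lit 34033680091148638388160036866)) (.alt (nat_lit 5) (.cov (nat_lit 3894256503495506463915106458664961)) (.alt (nat_lit 5) (.cov (nat_lit 811330243740452559490517422833664)) (.alt (nat_lit 5) (.cov (nat_lit 1549541897553428086877)) .e))))) .e)))))) .e))))))),
      .rot (.exp (.alt (nat_lit 3) (.exp (.alt (nat_lit 1) (.exp (.alt (nat_lit 5) (.exp (.alt (nat_lit 9) (.exp (.alt (nat_lit 7) (.exp (.alt (nat_lit 6) (.exp (.alt (nat_lit 15) (.exp (.alt (nat_lit 11) (.exp (.alt (nat_lit 10) (.exp (.alt (nat_lit 27) (.exp (.alt (nat_lit 0) (.cov (nat_lit 36893908162177925141)) (.alt (nat_lit 0) (.exp (.alt (nat_lit 4) (.exp (.alt (nat_lit 12) (.exp (.alt (nat_lit 20) (.exp (.alt (nat_lit 21) (.exp (.alt (nat_lit 23) (.exp (.alt (nat_lit 16) (.cov (nat_lit 1383505823120421289987)) (.alt (nat_lit 16) (.exp (.alt (nat_lit 17) (.exp (.alt (nat_lit 24) (.cov (nat_lit 2863857026239530270721))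 (.alt (nat_lit 18) (.cov (nat_lit 731906063)) .e))) .e)) (.alt (nat_lit 16) (.exp (.alt (nat_lit 24) (.cov (nat_lit 2863857026240802193410)) (.alt (nat_lit 17) (.cov (nat_lit 26214467)) .e))) .e)))) .e)) .e)) .e)) .e)) (.alt (nat_lit 2) (.cov (nat_lit 42953245422813049782279)) .e))) (.alt (nat_lit 0) (.cov (nat_lit 10191830984755194626054)) (.alt (nat_lit 0) (.exp (.alt (nat_lit 8) (.exp (.alt (nat_lit 12) (.exp (.alt (nat_lit 24) (.exp (.alt (nat_lit 16) (.cov (nat_lit 21518126994967559667719)) (.alt (nat_lit 16) (.cov (nat_lit 636412811280486760451)) (.alt (nat_lit 16) (.cov (nat_lit 636413090556440215553)) (.alt (nat_lit 16) (.exp (.alt (nat_lit 17) (.exp (.alt (nat_lit 20) (.cov (nat_lit 419663445269107703810)) (.alt (nat_lit 18) (.cov (nat_lit 25285874472023340613633)) (.alt (nat_lit 18) (.cov (nat_lit 641024497298897371136)) (.alt (nat_lit 18) (.cov (nat_lit 291504319)) .e))))) .e)) (.alt (nat_lit 2) (.cov (nat_lit 622855643)) .e)))))) .e)) .e)) .e)) (.alt (nat_lit 0)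 (.cov (nat_lit 1365068077450466951169)) (.alt (nat_lit 0) (.cov (nat_lit 22025424580209763418112)) (.alt (nat_lit 0) (.exp (.alt (nat_lit 4) (.exp (.alt (nat_lit 12) (.cov (nat_lit 101412357503332737073617383194625)) (.alt (nat_lit 12) (.exp (.alt (nat_lit 28) (.cov (nat_lit 101412357503337348761678486962176)) (.alt (nat_lit 8) (.cov (nat_lit 46117000922391379975)) .e))) .e))) (.alt (nat_lit 4) (.cov (nat_lit 1374282853661179641871)) (.alt (nat_lit 4) (.exp (.alt (nat_lit 12) (.exp (.alt (nat_lit 28) (.exp (.alt (nat_lit 24) (.exp (.alt (nat_lit 29) (.exp (.alt (nat_lit 20) (.cov (nat_lit 6396408525150989844482)) (.alt (nat_lit 20) (.cov (nat_lit 36893521142555344897)) (.alt (nat_lit 20) (.cov (nat_lit 122209925778947178496)) (.alt (nat_lit 20) (.exp (.alt (nat_lit 16) (.cov (nat_lit 2845410282166513827843)) (.alt (nat_lit 16) (.cov (nat_lit 2845410290961935761409)) (.alt (nat_lit 16) (.cov (nat_lit 21882450190423322263552)) (.alt (nat_lit 16) (.exp (.alt (nat_lit 18) (.cov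 (nat_lit 6396408516354933522433)) (.alt (nat_lit 17) (.cov (nat_lit 2972712975)) .e))) .e))))) .e))))) .e)) .e)) .e)) .e)) (.alt (nat_lit 4) (.exp (.alt (nat_lit 12) (.exp (.alt (nat_lit 8) (.exp (.alt (nat_lit 24) (.exp (.alt (nat_lit 20) (.cov (nat_lit 25283568629013519794178)) (.alt (nat_lit 20) (.cov (nat_lit 1819310281604179427329)) (.alt (nat_lit 20) (.exp (.alt (nat_lit 16) (.cov (nat_lit 21882450175031434543107)) (.alt (nat_lit 21) (.exp (.alt (nat_lit 17) (.exp (.alt (nat_lit 23) (.cov (nat_lit 71481142081737457665)) (.alt (nat_lit 29) (.cov (nat_lit 233832463)) .e))) .e)) (.alt (nat_lit 21) (.exp (.alt (nat_lit 23) (.cov (nat_lit 71481142081737457666)) (.alt (nat_lit 17) (.cov (nat_lit 1294991427)) .e))) .e)))) .e)))) .e)) .e)) .e)) (.alt (nat_lit 8) (.cov (nat_lit 2859252396886713171969)) (.alt (nat_lit 8) (.exp (.alt (nat_lit 12) (.exp (.alt (nat_lit 24) (.cov (nat_lit 2863857050431726288907)) (.alt (nat_lit 24) (.cov (nat_lit 654859555354194214918)) (.alt (nat_lit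 24) (.cov (nat_lit 654859834630147670018)) (.alt (nat_lit 24) (.cov (nat_lit 2863858864622959329281)) (.alt (nat_lit 24) (.cov (nat_lit 21536577004590801616896)) (.alt (nat_lit 24) (.exp (.alt (nat_lit 25) (.cov (nat_lit 1837756911328680738823)) (.alt (nat_lit 25) (.cov (nat_lit 657165398363408957443)) (.alt (nat_lit 16) (.cov (nat_lit 636413090556440215553)) (.alt (nat_lit 16) (.exp (.alt (nat_lit 17) (.exp (.alt (nat_lit 20) (.cov (nat_lit 419663445269107703810)) (.alt (nat_lit 18) (.cov (nat_lit 25285874472023340613633)) (.alt (nat_lit 18) (.cov (nat_lit 641024497298897371136)) (.alt (nat_lit 18) (.cov (nat_lit 291504319)) .e))))) .e)) (.alt (nat_lit 25) (.cov (nat_lit 621807067)) .e)))))) .e))))))) .e)) (.alt (nat_lit 2) (.exp (.alt (nat_lit 18) (.cov (nat_lit 347868699887161821888523)) (.alt (nat_lit 18) (.exp (.alt (nat_lit 16) (.exp (.alt (nat_lit 17) (.exp (.alt (nat_lit 20) (.exp (.alt (nat_lit 22) (.cov (nat_lit 406856775621323128832003)) (.alt (nat_lit 22) (.exp (.alt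 (nat_lit 23) (.exp (.alt (nat_lit 30) (.cov (nat_lit 102111951828815376809985)) (.alt (nat_lit 30) (.exp (.alt (nat_lit 28) (.cov (nat_lit 1395035031569413701632)) (.alt (nat_lit 26) (.cov (nat_lit 159240945672)) .e))) .e))) .e)) (.alt (nat_lit 22) (.cov (nat_lit 4057989712)) .e)))) .e)) .e)) .e)) (.alt (nat_lit 18) (.cov (nat_lit 627194182536828813313)) (.alt (nat_lit 18) (.exp (.alt (nat_lit 16) (.exp (.alt (nat_lit 17) (.exp (.alt (nat_lit 21) (.exp (.alt (nat_lit 23) (.exp (.alt (nat_lit 20) (.exp (.alt (nat_lit 24) (.cov (nat_lit 404343406732473239863297)) (.alt (nat_lit 24) (.exp (.alt (nat_lit 28) (.cov (nat_lit 69175301271539679232)) (.alt (nat_lit 25) (.cov (nat_lit 4627365896)) .e))) .e))) .e)) .e)) .e)) .e)) (.alt (nat_lit 26) (.cov (nat_lit 29141244370465895481347)) (.alt (nat_lit 26) (.exp (.alt (nat_lit 24) (.exp (.alt (nat_lit 30) (.cov (nat_lit 1694794644923571240962)) (.alt (nat_lit 30) (.cov (nat_lit 25306627171255874224129)) (.alt (nat_lit 30) (.exp (.alt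 (nat_lit 31) (.cov (nat_lit 7814501975817486073859)) (.alt (nat_lit 28) (.exp (.alt (nat_lit 12) (.exp (.alt (nat_lit 29) (.cov (nat_lit 48422711999371149313)) (.alt (nat_lit 29) (.exp (.alt (nat_lit 21) (.cov (nat_lit 119903847474246189056)) (.alt (nat_lit 25) (.cov (nat_lit 621805576)) .e))) .e))) .e)) (.alt (nat_lit 31) (.cov (nat_lit 47577039440)) .e)))) .e)))) .e)) (.alt (nat_lit 19) (.cov (nat_lit 159233608851)) .e))))) .e))))) .e)))))))) .e)))))))) .e)) .e)) .e)) .e)) .e)) .e)) .e)) .e)) .e)) (.alt (nat_lit 3) (.exp (.alt (nat_lit 1) (.exp (.alt (nat_lit 5) (.exp (.alt (nat_lit 7) (.exp (.alt (nat_lit 6) (.exp (.alt (nat_lit 15) (.exp (.alt (nat_lit 9) (.exp (.alt (nat_lit 11) (.exp (.alt (nat_lit 10) (.exp (.alt (nat_lit 27) (.exp (.alt (nat_lit 0) (.cov (nat_lit 36893908162177925141)) (.alt (nat_lit 0) (.exp (.alt (nat_lit 4) (.exp (.alt (nat_lit 12) (.exp (.alt (nat_lit 20) (.exp (.alt (nat_lit 21) (.exp (.alt (nat_lit 23) (.exp (.alt (nat_lit 16) (.cov (nat_lit 1383505823120421289987))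 (.alt (nat_lit 16) (.exp (.alt (nat_lit 17) (.exp (.alt (nat_lit 24) (.cov (nat_lit 2863857026239530270721)) (.alt (nat_lit 18) (.cov (nat_lit 731906063)) .e))) .e)) (.alt (nat_lit 16) (.exp (.alt (nat_lit 24) (.cov (nat_lit 2863857026240802193410)) (.alt (nat_lit 17) (.cov (nat_lit 26214467)) .e))) .e)))) .e)) .e)) .e)) .e)) (.alt (nat_lit 2) (.cov (nat_lit 42953245422813049782279)) .e))) (.alt (nat_lit 0) (.cov (nat_lit 10191830984755194626054)) (.alt (nat_lit 0) (.exp (.alt (nat_lit 8) (.exp (.alt (nat_lit 12) (.exp (.alt (nat_lit 24) (.exp (.alt (nat_lit 16) (.cov (nat_lit 21518126994967559667719)) (.alt (nat_lit 16) (.cov (nat_lit 636412811280486760451)) (.alt (nat_lit 16) (.cov (nat_lit 636413090556440215553)) (.alt (nat_lit 16) (.exp (.alt (nat_lit 17) (.exp (.alt (nat_lit 20) (.cov (nat_lit 419663445269107703810)) (.alt (nat_lit 18) (.cov (nat_lit 25285874472023340613633)) (.alt (nat_lit 18) (.cov (nat_lit 641024497298897371136)) (.alt (nat_lit 18) (.cov (nat_lit 291504319))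 .e))))) .e)) (.alt (nat_lit 2) (.cov (nat_lit 622855643)) .e)))))) .e)) .e)) .e)) (.alt (nat_lit 0) (.cov (nat_lit 1365068077450466951169)) (.alt (nat_lit 0) (.cov (nat_lit 22025424580209763418112)) (.alt (nat_lit 0) (.exp (.alt (nat_lit 4) (.exp (.alt (nat_lit 12) (.cov (nat_lit 101412357503332737073617383194625)) (.alt (nat_lit 12) (.exp (.alt (nat_lit 28) (.cov (nat_lit 101412357503337348761678486962176)) (.alt (nat_lit 8) (.cov (nat_lit 46117000922391379975)) .e))) .e))) (.alt (nat_lit 4) (.cov (nat_lit 1374282853661179641871)) (.alt (nat_lit 4) (.exp (.alt (nat_lit 12) (.exp (.alt (nat_lit 28) (.exp (.alt (nat_lit 24) (.exp (.alt (nat_lit 29) (.exp (.alt (nat_lit 20) (.cov (nat_lit 6396408525150989844482)) (.alt (nat_lit 20) (.cov (nat_lit 36893521142555344897)) (.alt (nat_lit 20) (.cov (nat_lit 122209925778947178496)) (.alt (nat_lit 20) (.exp (.alt (nat_lit 16) (.cov (nat_lit 2845410282166513827843)) (.alt (nat_lit 16) (.cov (nat_lit 2845410290961935761409)) (.alt (nat_lit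 16) (.cov (nat_lit 21882450190423322263552)) (.alt (nat_lit 16) (.exp (.alt (nat_lit 18) (.cov (nat_lit 6396408516354933522433)) (.alt (nat_lit 17) (.cov (nat_lit 2972712975)) .e))) .e))))) .e))))) .e)) .e)) .e)) .e)) (.alt (nat_lit 4) (.exp (.alt (nat_lit 12) (.exp (.alt (nat_lit 8) (.exp (.alt (nat_lit 24) (.exp (.alt (nat_lit 20) (.cov (nat_lit 25283568629013519794178)) (.alt (nat_lit 20) (.cov (nat_lit 1819310281604179427329)) (.alt (nat_lit 20) (.exp (.alt (nat_lit 16) (.cov (nat_lit 21882450175031434543107)) (.alt (nat_lit 21) (.exp (.alt (nat_lit 17) (.exp (.alt (nat_lit 23) (.cov (nat_lit 71481142081737457665)) (.alt (nat_lit 29) (.cov (nat_lit 233832463)) .e))) .e)) (.alt (nat_lit 21) (.exp (.alt (nat_lit 23) (.cov (nat_lit 71481142081737457666)) (.alt (nat_lit 17) (.cov (nat_lit 1294991427)) .e))) .e)))) .e)))) .e)) .e)) .e)) (.alt (nat_lit 8) (.cov (nat_lit 2859252396886713171969)) (.alt (nat_lit 8) (.exp (.alt (nat_lit 12) (.exp (.alt (nat_lit 24) (.cov (nat_lit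 2863857050431726288907)) (.alt (nat_lit 24) (.cov (nat_lit 654859555354194214918)) (.alt (nat_lit 24) (.cov (nat_lit 654859834630147670018)) (.alt (nat_lit 24) (.cov (nat_lit 2863858864622959329281)) (.alt (nat_lit 24) (.cov (nat_lit 21536577004590801616896)) (.alt (nat_lit 24) (.exp (.alt (nat_lit 25) (.cov (nat_lit 1837756911328680738823)) (.alt (nat_lit 25) (.cov (nat_lit 657165398363408957443)) (.alt (nat_lit 16) (.cov (nat_lit 636413090556440215553)) (.alt (nat_lit 16) (.exp (.alt (nat_lit 17) (.exp (.alt (nat_lit 20) (.cov (nat_lit 419663445269107703810)) (.alt (nat_lit 18) (.cov (nat_lit 25285874472023340613633)) (.alt (nat_lit 18) (.cov (nat_lit 641024497298897371136)) (.alt (nat_lit 18) (.cov (nat_lit 291504319)) .e))))) .e)) (.alt (nat_lit 25) (.cov (nat_lit 621807067)) .e)))))) .e))))))) .e)) (.alt (nat_lit 2) (.exp (.alt (nat_lit 18) (.cov (nat_lit 347868699887161821888523)) (.alt (nat_lit 18) (.exp (.alt (nat_lit 16) (.exp (.alt (nat_lit 17) (.exp (.alt (nat_lit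 20) (.exp (.alt (nat_lit 22) (.cov (nat_lit 406856775621323128832003)) (.alt (nat_lit 22) (.exp (.alt (nat_lit 23) (.exp (.alt (nat_lit 30) (.cov (nat_lit 102111951828815376809985)) (.alt (nat_lit 30) (.exp (.alt (nat_lit 28) (.cov (nat_lit 1395035031569413701632)) (.alt (nat_lit 26) (.cov (nat_lit 159240945672)) .e))) .e))) .e)) (.alt (nat_lit 22) (.cov (nat_lit 4057989712)) .e)))) .e)) .e)) .e)) (.alt (nat_lit 18) (.cov (nat_lit 627194182536828813313)) (.alt (nat_lit 18) (.exp (.alt (nat_lit 16) (.exp (.alt (nat_lit 17) (.exp (.alt (nat_lit 21) (.exp (.alt (nat_lit 23) (.exp (.alt (nat_lit 20) (.exp (.alt (nat_lit 24) (.cov (nat_lit 404343406732473239863297)) (.alt (nat_lit 24) (.exp (.alt (nat_lit 28) (.cov (nat_lit 69175301271539679232)) (.alt (nat_lit 25) (.cov (nat_lit 4627365896)) .e))) .e))) .e)) .e)) .e)) .e)) (.alt (nat_lit 26) (.cov (nat_lit 29141244370465895481347)) (.alt (nat_lit 26) (.exp (.alt (nat_lit 24) (.exp (.alt (nat_lit 30) (.cov (nat_lit 1694794644923571240962))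 (.alt (nat_lit 30) (.cov (nat_lit 25306627171255874224129)) (.alt (nat_lit 30) (.exp (.alt (nat_lit 31) (.cov (nat_lit 7814501975817486073859)) (.alt (nat_lit 28) (.exp (.alt (nat_lit 12) (.exp (.alt (nat_lit 29) (.cov (nat_lit 48422711999371149313)) (.alt (nat_lit 29) (.exp (.alt (nat_lit 21) (.cov (nat_lit 119903847474246189056)) (.alt (nat_lit 25) (.cov (nat_lit 621805576)) .e))) .e))) .e)) (.alt (nat_lit 31) (.cov (nat_lit 47577039440)) .e)))) .e)))) .e)) (.alt (nat_lit 19) (.cov (nat_lit 159233608851)) .e))))) .e))))) .e)))))))) .e)))))))) .e)) .e)) .e)) .e)) .e)) .e)) .e)) .e)) (.alt (nat_lit 1) (.exp (.alt (nat_lit 5) (.exp (.alt (nat_lit 9) (.exp (.alt (nat_lit 11) (.exp (.alt (nat_lit 10) (.exp (.alt (nat_lit 15) (.exp (.alt (nat_lit 13) (.exp (.alt (nat_lit 12) (.exp (.alt (nat_lit 29) (.exp (.alt (nat_lit 0) (.cov (nat_lit 627189718703415492629)) (.alt (nat_lit 0) (.exp (.alt (nat_lit 2) (.exp (.alt (nat_lit 6) (.exp (.alt (nat_lit 18) (.exp (.alt (nat_lit 19) (.exp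 (.alt (nat_lit 27) (.exp (.alt (nat_lit 16) (.cov (nat_lit 1817004308855487725571)) (.alt (nat_lit 16) (.exp (.alt (nat_lit 17) (.exp (.alt (nat_lit 20) (.cov (nat_lit 1614090115245701857281)) (.alt (nat_lit 24) (.cov (nat_lit 11504975887)) .e))) .e)) (.alt (nat_lit 16) (.exp (.alt (nat_lit 20) (.cov (nat_lit 1614090115246405451778)) (.alt (nat_lit 17) (.cov (nat_lit 2907701315)) .e))) .e)))) .e)) .e)) .e)) .e)) (.alt (nat_lit 8) (.cov (nat_lit 23985380829021041852423)) .e))) (.alt (nat_lit 0) (.cov (nat_lit 7826036057304830312454)) (.alt (nat_lit 0) (.exp (.alt (nat_lit 4) (.exp (.alt (nat_lit 6) (.exp (.alt (nat_lit 20) (.exp (.alt (nat_lit 16) (.cov (nat_lit 21882450190423598039047)) (.alt (nat_lit 16) (.cov (nat_lit 6534759228852007862275)) (.alt (nat_lit 16) (.cov (nat_lit 6534759508125075636225)) (.alt (nat_lit 16) (.exp (.alt (nat_lit 17) (.exp (.alt (nat_lit 18) (.cov (nat_lit 59951935834650836994)) (.alt (nat_lit 24) (.cov (nat_lit 2863857050428816490497)) (.alt (nat_lit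 24) (.cov (nat_lit 6553205972922814955520)) (.alt (nat_lit 24) (.cov (nat_lit 2980053183)) .e))))) .e)) (.alt (nat_lit 8) (.cov (nat_lit 830473691)) .e)))))) .e)) .e)) .e)) (.alt (nat_lit 0) (.cov (nat_lit 110689480437642821633)) (.alt (nat_lit 0) (.cov (nat_lit 29108974304514237530112)) (.alt (nat_lit 0) (.exp (.alt (nat_lit 2) (.exp (.alt (nat_lit 6) (.cov (nat_lit 1389345367341545653897568639254529)) (.alt (nat_lit 6) (.exp (.alt (nat_lit 22) (.cov (nat_lit 1389345367341564100643685025185792)) (.alt (nat_lit 4) (.cov (nat_lit 631801125262866776071)) .e))) .e))) (.alt (nat_lit 2) (.cov (nat_lit 1812393025412446289935)) (.alt (nat_lit 2) (.exp (.alt (nat_lit 6) (.exp (.alt (nat_lit 22) (.exp (.alt (nat_lit 20) (.exp (.alt (nat_lit 23) (.exp (.alt (nat_lit 18) (.cov (nat_lit 428886817308835577858)) (.alt (nat_lit 18) (.cov (nat_lit 6382573482489484935169)) (.alt (nat_lit 18) (.cov (nat_lit 21515821365263599665152)) (.alt (nat_lit 18) (.exp (.alt (nat_lit 16) (.cov (nat_lit 1604866743210016243715))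 (.alt (nat_lit 16) (.cov (nat_lit 1604866752014699200513)) (.alt (nat_lit 16) (.cov (nat_lit 129127241501333520384)) (.alt (nat_lit 16) (.exp (.alt (nat_lit 24) (.cov (nat_lit 428886808519630651393)) (.alt (nat_lit 17) (.cov (nat_lit 26214415)) .e))) .e))))) .e))))) .e)) .e)) .e)) .e)) (.alt (nat_lit 2) (.exp (.alt (nat_lit 6) (.exp (.alt (nat_lit 4) (.exp (.alt (nat_lit 20) (.exp (.alt (nat_lit 18) (.cov (nat_lit 2847716149367163322370)) (.alt (nat_lit 18) (.cov (nat_lit 1445763714111561007105)) (.alt (nat_lit 18) (.exp (.alt (nat_lit 16) (.cov (nat_lit 129127226108875374595)) (.alt (nat_lit 19) (.exp (.alt (nat_lit 17) (.exp (.alt (nat_lit 27) (.cov (nat_lit 6417161103437829505025)) (.alt (nat_lit 23) (.cov (nat_lit 200278031)) .e))) .e)) (.alt (nat_lit 19) (.exp (.alt (nat_lit 27) (.cov (nat_lit 6417161103440715186178)) (.alt (nat_lit 17) (.cov (nat_lit 730857539)) .e))) .e)))) .e)))) .e)) .e)) .e)) (.alt (nat_lit 4) (.cov (nat_lit 1595650427837602594817)) (.alt (nat_lit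 4) (.exp (.alt (nat_lit 6) (.exp (.alt (nat_lit 20) (.cov (nat_lit 1614090139434951376907)) (.alt (nat_lit 20) (.cov (nat_lit 6543982600888854249478)) (.alt (nat_lit 20) (.cov (nat_lit 6543982880164807704578)) (.alt (nat_lit 20) (.cov (nat_lit 1614091953629137207297)) (.alt (nat_lit 20) (.cov (nat_lit 21891676828009710485504)) (.alt (nat_lit 20) (.exp (.alt (nat_lit 21) (.cov (nat_lit 1454986971799475978247)) (.alt (nat_lit 21) (.cov (nat_lit 6546288443898068992003)) (.alt (nat_lit 16) (.cov (nat_lit 6534759508125075636225)) (.alt (nat_lit 16) (.exp (.alt (nat_lit 17) (.exp (.alt (nat_lit 18) (.cov (nat_lit 59951935834650836994)) (.alt (nat_lit 24) (.cov (nat_lit 2863857050428816490497)) (.alt (nat_lit 24) (.cov (nat_lit 6553205972922814955520)) (.alt (nat_lit 24) (.cov (nat_lit 2980053183)) .e))))) .e)) (.alt (nat_lit 21) (.cov (nat_lit 823133659)) .e)))))) .e))))))) .e)) (.alt (nat_lit 8) (.exp (.alt (nat_lit 24) (.cov (nat_lit 406898280923021588824075)) (.alt (nat_lit 24)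 (.exp (.alt (nat_lit 16) (.exp (.alt (nat_lit 17) (.exp (.alt (nat_lit 18) (.exp (.alt (nat_lit 26) (.cov (nat_lit 4275032956684771262467)) (.alt (nat_lit 26) (.exp (.alt (nat_lit 27) (.exp (.alt (nat_lit 30) (.cov (nat_lit 102098116770769827528705)) (.alt (nat_lit 30) (.exp (.alt (nat_lit 22) (.cov (nat_lit 126821376501875736576)) (.alt (nat_lit 28) (.cov (nat_lit 13207863304)) .e))) .e))) .e)) (.alt (nat_lit 26) (.cov (nat_lit 3487564368)) .e)))) .e)) .e)) .e)) (.alt (nat_lit 24) (.cov (nat_lit 479620229956889477121)) (.alt (nat_lit 24) (.exp (.alt (nat_lit 16) (.exp (.alt (nat_lit 17) (.exp (.alt (nat_lit 19) (.exp (.alt (nat_lit 27) (.exp (.alt (nat_lit 18) (.exp (.alt (nat_lit 20) (.cov (nat_lit 365370048190742810066945)) (.alt (nat_lit 20) (.exp (.alt (nat_lit 22) (.cov (nat_lit 6414855262627619143680)) (.alt (nat_lit 21) (.cov (nat_lit 3547332616)) .e))) .e))) .e)) .e)) .e)) .e)) (.alt (nat_lit 28) (.cov (nat_lit 23238286266869674409987)) (.alt (nat_lit 28) (.exp (.alt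 (nat_lit 20) (.exp (.alt (nat_lit 30) (.cov (nat_lit 21764852196974065090562)) (.alt (nat_lit 30) (.cov (nat_lit 2875386377634790244353)) (.alt (nat_lit 30) (.exp (.alt (nat_lit 31) (.cov (nat_lit 104609179816601343492099)) (.alt (nat_lit 22) (.exp (.alt (nat_lit 6) (.exp (.alt (nat_lit 23) (.cov (nat_lit 6389490987327864963073)) (.alt (nat_lit 23) (.exp (.alt (nat_lit 19) (.cov (nat_lit 21513515286958898675712)) (.alt (nat_lit 21) (.cov (nat_lit 823132168)) .e))) .e))) .e)) (.alt (nat_lit 31) (.cov (nat_lit 326107728)) .e)))) .e)))) .e)) (.alt (nat_lit 25) (.cov (nat_lit 856689811)) .e))))) .e))))) .e)))))))) .e)))))))) .e)) .e)) .e)) .e)) .e)) .e)) (.alt (nat_lit 9) (.exp (.alt (nat_lit 11) (.exp (.alt (nat_lit 10) (.exp (.alt (nat_lit 15) (.exp (.alt (nat_lit 13) (.exp (.alt (nat_lit 12) (.exp (.alt (nat_lit 29) (.exp (.alt (nat_lit 0) (.cov (nat_lit 627189718703415492629)) (.alt (nat_lit 0) (.exp (.alt (nat_lit 2) (.exp (.alt (nat_lit 6) (.exp (.alt (nat_lit 18) (.exp (.alt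 (nat_lit 19) (.exp (.alt (nat_lit 27) (.exp (.alt (nat_lit 16) (.cov (nat_lit 1817004308855487725571)) (.alt (nat_lit 16) (.exp (.alt (nat_lit 17) (.exp (.alt (nat_lit 20) (.cov (nat_lit 1614090115245701857281)) (.alt (nat_lit 24) (.cov (nat_lit 11504975887)) .e))) .e)) (.alt (nat_lit 16) (.exp (.alt (nat_lit 20) (.cov (nat_lit 1614090115246405451778)) (.alt (nat_lit 17) (.cov (nat_lit 2907701315)) .e))) .e)))) .e)) .e)) .e)) .e)) (.alt (nat_lit 8) (.cov (nat_lit 23985380829021041852423)) .e))) (.alt (nat_lit 0) (.cov (nat_lit 7826036057304830312454)) (.alt (nat_lit 0) (.exp (.alt (nat_lit 4) (.exp (.alt (nat_lit 6) (.exp (.alt (nat_lit 20) (.exp (.alt (nat_lit 16) (.cov (nat_lit 21882450190423598039047)) (.alt (nat_lit 16) (.cov (nat_lit 6534759228852007862275)) (.alt (nat_lit 16) (.cov (nat_lit 6534759508125075636225)) (.alt (nat_lit 16) (.exp (.alt (nat_lit 17) (.exp (.alt (nat_lit 18) (.cov (nat_lit 59951935834650836994)) (.alt (nat_lit 24) (.cov (nat_lit 2863857050428816490497))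 (.alt (nat_lit 24) (.cov (nat_lit 6553205972922814955520)) (.alt (nat_lit 24) (.cov (nat_lit 2980053183)) .e))))) .e)) (.alt (nat_lit 8) (.cov (nat_lit 830473691)) .e)))))) .e)) .e)) .e)) (.alt (nat_lit 0) (.cov (nat_lit 110689480437642821633)) (.alt (nat_lit 0) (.cov (nat_lit 29108974304514237530112)) (.alt (nat_lit 0) (.exp (.alt (nat_lit 2) (.exp (.alt (nat_lit 6) (.cov (nat_lit 1389345367341545653897568639254529)) (.alt (nat_lit 6) (.exp (.alt (nat_lit 22) (.cov (nat_lit 1389345367341564100643685025185792)) (.alt (nat_lit 4) (.cov (nat_lit 631801125262866776071)) .e))) .e))) (.alt (nat_lit 2) (.cov (nat_lit 1812393025412446289935)) (.alt (nat_lit 2) (.exp (.alt (nat_lit 6) (.exp (.alt (nat_lit 22) (.exp (.alt (nat_lit 20) (.exp (.alt (nat_lit 23) (.exp (.alt (nat_lit 18) (.cov (nat_lit 428886817308835577858)) (.alt (nat_lit 18) (.cov (nat_lit 6382573482489484935169)) (.alt (nat_lit 18) (.cov (nat_lit 21515821365263599665152)) (.alt (nat_lit 18) (.exp (.alt (nat_lit 16) (.cov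 (nat_lit 1604866743210016243715)) (.alt (nat_lit 16) (.cov (nat_lit 1604866752014699200513)) (.alt (nat_lit 16) (.cov (nat_lit 129127241501333520384)) (.alt (nat_lit 16) (.exp (.alt (nat_lit 24) (.cov (nat_lit 428886808519630651393)) (.alt (nat_lit 17) (.cov (nat_lit 26214415)) .e))) .e))))) .e))))) .e)) .e)) .e)) .e)) (.alt (nat_lit 2) (.exp (.alt (nat_lit 6) (.exp (.alt (nat_lit 4) (.exp (.alt (nat_lit 20) (.exp (.alt (nat_lit 18) (.cov (nat_lit 2847716149367163322370)) (.alt (nat_lit 18) (.cov (nat_lit 1445763714111561007105)) (.alt (nat_lit 18) (.exp (.alt (nat_lit 16) (.cov (nat_lit 129127226108875374595)) (.alt (nat_lit 19) (.exp (.alt (nat_lit 17) (.exp (.alt (nat_lit 27) (.cov (nat_lit 6417161103437829505025)) (.alt (nat_lit 23) (.cov (nat_lit 200278031)) .e))) .e)) (.alt (nat_lit 19) (.exp (.alt (nat_lit 27) (.cov (nat_lit 6417161103440715186178)) (.alt (nat_lit 17) (.cov (nat_lit 730857539)) .e))) .e)))) .e)))) .e)) .e)) .e)) (.alt (nat_lit 4) (.cov (nat_lit 1595650427837602594817))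 (.alt (nat_lit 4) (.exp (.alt (nat_lit 6) (.exp (.alt (nat_lit 20) (.cov (nat_lit 1614090139434951376907)) (.alt (nat_lit 20) (.cov (nat_lit 6543982600888854249478)) (.alt (nat_lit 20) (.cov (nat_lit 6543982880164807704578)) (.alt (nat_lit 20) (.cov (nat_lit 1614091953629137207297)) (.alt (nat_lit 20) (.cov (nat_lit 21891676828009710485504)) (.alt (nat_lit 20) (.exp (.alt (nat_lit 21) (.cov (nat_lit 1454986971799475978247)) (.alt (nat_lit 21) (.cov (nat_lit 6546288443898068992003)) (.alt (nat_lit 16) (.cov (nat_lit 6534759508125075636225)) (.alt (nat_lit 16) (.exp (.alt (nat_lit 17) (.exp (.alt (nat_lit 18) (.cov (nat_lit 59951935834650836994)) (.alt (nat_lit 24) (.cov (nat_lit 2863857050428816490497)) (.alt (nat_lit 24) (.cov (nat_lit 6553205972922814955520)) (.alt (nat_lit 24) (.cov (nat_lit 2980053183)) .e))))) .e)) (.alt (nat_lit 21) (.cov (nat_lit 823133659)) .e)))))) .e))))))) .e)) (.alt (nat_lit 8) (.exp (.alt (nat_lit 24) (.cov (nat_lit 406898280923021588824075)) (.alt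 (nat_lit 24) (.exp (.alt (nat_lit 16) (.exp (.alt (nat_lit 17) (.exp (.alt (nat_lit 18) (.exp (.alt (nat_lit 26) (.cov (nat_lit 4275032956684771262467)) (.alt (nat_lit 26) (.exp (.alt (nat_lit 27) (.exp (.alt (nat_lit 30) (.cov (nat_lit 102098116770769827528705)) (.alt (nat_lit 30) (.exp (.alt (nat_lit 22) (.cov (nat_lit 126821376501875736576)) (.alt (nat_lit 28) (.cov (nat_lit 13207863304)) .e))) .e))) .e)) (.alt (nat_lit 26) (.cov (nat_lit 3487564368)) .e)))) .e)) .e)) .e)) (.alt (nat_lit 24) (.cov (nat_lit 479620229956889477121)) (.alt (nat_lit 24) (.exp (.alt (nat_lit 16) (.exp (.alt (nat_lit 17) (.exp (.alt (nat_lit 19) (.exp (.alt (nat_lit 27) (.exp (.alt (nat_lit 18) (.exp (.alt (nat_lit 20) (.cov (nat_lit 365370048190742810066945)) (.alt (nat_lit 20) (.exp (.alt (nat_lit 22) (.cov (nat_lit 6414855262627619143680)) (.alt (nat_lit 21) (.cov (nat_lit 3547332616)) .e))) .e))) .e)) .e)) .e)) .e)) (.alt (nat_lit 28) (.cov (nat_lit 23238286266869674409987)) (.alt (nat_lit 28)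 (.exp (.alt (nat_lit 20) (.exp (.alt (nat_lit 30) (.cov (nat_lit 21764852196974065090562)) (.alt (nat_lit 30) (.cov (nat_lit 2875386377634790244353)) (.alt (nat_lit 30) (.exp (.alt (nat_lit 31) (.cov (nat_lit 104609179816601343492099)) (.alt (nat_lit 22) (.exp (.alt (nat_lit 6) (.exp (.alt (nat_lit 23) (.cov (nat_lit 6389490987327864963073)) (.alt (nat_lit 23) (.exp (.alt (nat_lit 19) (.cov (nat_lit 21513515286958898675712)) (.alt (nat_lit 21) (.cov (nat_lit 823132168)) .e))) .e))) .e)) (.alt (nat_lit 31) (.cov (nat_lit 326107728)) .e)))) .e)))) .e)) (.alt (nat_lit 25) (.cov (nat_lit 856689811)) .e))))) .e))))) .e)))))))) .e)))))))) .e)) .e)) .e)) .e)) .e)) .e)) .e))) .e)) .e))) .e)))])]) (by decide +kernel)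
  exact h _ List.mem_cons_self

theorem t3_15 : GF FULL [0, 3] [15, 9] := by
  have h := JT.chkW_ok (zs := [0, 3]) good (by decide) (by decide)
    (L := [([15, 9], [.cov (nat_lit 350199907523511034322144),
      .rot (.exp (.alt (nat_lit 3) (.cov (nat_lit 36504724074447631053948452870)) (.alt (nat_lit 3) (.exp (.alt (nat_lit 1) (.cov (nat_lit 36509559851513083457669431297)) .e)) (.alt (nat_lit 3) (.exp (.alt (nat_lit 1) (.exp (.alt (nat_lit 5) (.cov (nat_lit 16558645729820706)) .e)) .e)) (.alt (nat_lit 3) (.cov (nat_lit 56141745533262186741779755508432896)) (.alt (nat_lit 3) (.cov (nat_lit 1328178224288601473243)) .e)))))),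
      .cov (nat_lit 2810824761284084373112),
      .cov (nat_lit 21847863627204607874679),
      .cov (nat_lit 6500171942163224992754),
      .cov (nat_lit 6919666478279039986),
      .cov (nat_lit 2810824761284050819717),
      .cov (nat_lit 21847863627205245409925),
      .cov (nat_lit 6500171942163224992391),
      .cov (nat_lit 6919666478279039623),
      .cov (nat_lit 2810824761284050819718),
      .cov (nat_lit 21847863627205245409926),
      .cov (nat_lit 6500171942152386910856),
      .cov (nat_lit 6919666478513920648),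
      .cov (nat_lit 2810824761284050819720),
      .cov (nat_lit 21847863627205245409928),
      .cov (nat_lit 6500171942163224991961),
      .cov (nat_lit 6919666478245484761),
      .cov (nat_lit 2810824761284050819289),
      .cov (nat_lit 21847863627205245409497),
      .cov (nat_lit 6500171942152286247130),
      .cov (nat_lit 6919666478279039195),
      .rot (.exp (.alt (nat_lit 3) (.cov (nat_lit 17199519094251348462488993190117382)) (.alt (nat_lit 3) (.cov (nat_lit 1298110719357781354772474123780099)) (.alt (nat_lit 3) (.cov (nat_lit 50138147304971581140270603022893058)) (.alt (nat_lit 3) (.exp (.alt (nat_lit 1) (.exp (.alt (nat_lit 5) (.cov (nat_lit 16558645293613091)) .e)) .e)) (.alt (nat_lit 3) (.cov (nat_lit 56141745533262186741777556485177344)) (.alt (nat_lit 3) (.exp (.alt (nat_lit 1) (.cov (nat_lit 1298110724193848956415451467874307)) (.alt (nat_lit 1) (.cov (nat_lit 324549318402705032468870034620418)) (.alt (nat_lit 1) (.cov (nat_lit 324549318402705032486462220664833))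 (.alt (nat_lit 1) (.exp (.alt (nat_lit 5) (.cov (nat_lit 16558645123743780)) .e)) (.alt (nat_lit 1) (.cov (nat_lit 25530310055392957169758)) .e)))))) .e))))))),
      .rot (.exp (.alt (nat_lit 3) (.exp (.alt (nat_lit 1) (.exp (.alt (nat_lit 5) (.exp (.alt (nat_lit 9) (.exp (.alt (nat_lit 7) (.exp (.alt (nat_lit 6) (.exp (.alt (nat_lit 15) (.exp (.alt (nat_lit 11) (.exp (.alt (nat_lit 10) (.exp (.alt (nat_lit 0) (.cov (nat_lit 364009602653690133479442)) (.alt (nat_lit 0) (.cov (nat_lit 756321391052758974475)) (.alt (nat_lit 0) (.cov (nat_lit 36902506362434486274)) (.alt (nat_lit 0) (.cov (nat_lit 36904467871146442753)) (.alt (nat_lit 0) (.exp (.alt (nat_lit 16) (.cov (nat_lit 22043859588096980942882)) (.alt (nat_lit 4) (.cov (nat_lit 1374285729983597903879)) (.alt (nat_lit 4) (.cov (nat_lit 1595650427884014665731)) (.alt (nat_lit 4) (.cov (nat_lit 46127839907401433088)) (.alt (nat_lit 2) (.cov (nat_lit 18880607)) .e)))))) .e)))))) .e)) .e)) .e)) .e)) (.alt (nat_lit 7) (.exp (.alt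 (nat_lit 6) (.exp (.alt (nat_lit 14) (.exp (.alt (nat_lit 15) (.exp (.alt (nat_lit 10) (.exp (.alt (nat_lit 0) (.cov (nat_lit 364009602653690133479442)) (.alt (nat_lit 0) (.cov (nat_lit 756321391052758974475)) (.alt (nat_lit 0) (.cov (nat_lit 36902506362434486274)) (.alt (nat_lit 0) (.cov (nat_lit 36904467871146442753)) (.alt (nat_lit 0) (.exp (.alt (nat_lit 16) (.cov (nat_lit 22043859588096980942882)) (.alt (nat_lit 4) (.cov (nat_lit 1374285729983597903879)) (.alt (nat_lit 4) (.cov (nat_lit 1595650427884014665731)) (.alt (nat_lit 4) (.cov (nat_lit 46127839907401433088)) (.alt (nat_lit 2) (.cov (nat_lit 18880607)) .e)))))) .e)))))) .e)) .e)) .e)) .e)) .e))) .e)) .e)) .e)) (.alt (nat_lit 3) (.exp (.alt (nat_lit 1) (.exp (.alt (nat_lit 5) (.exp (.alt (nat_lit 7) (.exp (.alt (nat_lit 6) (.exp (.alt (nat_lit 15) (.exp (.alt (nat_lit 13) (.exp (.alt (nat_lit 9) (.exp (.alt (nat_lit 12) (.exp (.alt (nat_lit 0) (.cov (nat_lit 41634303221542177210386)) (.alt (nat_lit 0) (.cov (nat_lit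 6659279494639983263755)) (.alt (nat_lit 0) (.cov (nat_lit 36902506525643243522)) (.alt (nat_lit 0) (.cov (nat_lit 36904467870576017409)) (.alt (nat_lit 0) (.exp (.alt (nat_lit 16) (.cov (nat_lit 1973802035900416262178)) (.alt (nat_lit 2) (.cov (nat_lit 115295446806890020871)) (.alt (nat_lit 2) (.cov (nat_lit 1591038741865585180675)) (.alt (nat_lit 2) (.cov (nat_lit 41516153888971948032)) (.alt (nat_lit 4) (.cov (nat_lit 20977759)) .e)))))) .e)))))) .e)) .e)) .e)) .e)) .e)) .e)) .e)) .e)) (.alt (nat_lit 3) (.exp (.alt (nat_lit 1) (.exp (.alt (nat_lit 5) (.exp (.alt (nat_lit 7) (.exp (.alt (nat_lit 6) (.exp (.alt (nat_lit 9) (.exp (.alt (nat_lit 11) (.exp (.alt (nat_lit 15) (.exp (.alt (nat_lit 10) (.exp (.alt (nat_lit 0) (.cov (nat_lit 364009602653690133479442)) (.alt (nat_lit 0) (.cov (nat_lit 756321391052758974475)) (.alt (nat_lit 0) (.cov (nat_lit 36902506362434486274)) (.alt (nat_lit 0) (.cov (nat_lit 36904467871146442753)) (.alt (nat_lit 0) (.exp (.alt (nat_lit 16) (.cov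 (nat_lit 22043859588096980942882)) (.alt (nat_lit 4) (.cov (nat_lit 1374285729983597903879)) (.alt (nat_lit 4) (.cov (nat_lit 1595650427884014665731)) (.alt (nat_lit 4) (.cov (nat_lit 46127839907401433088)) (.alt (nat_lit 2) (.cov (nat_lit 18880607)) .e)))))) .e)))))) .e)) .e)) .e)) .e)) .e)) .e)) .e)) (.alt (nat_lit 1) (.exp (.alt (nat_lit 5) (.exp (.alt (nat_lit 9) (.exp (.alt (nat_lit 11) (.exp (.alt (nat_lit 10) (.exp (.alt (nat_lit 13) (.exp (.alt (nat_lit 15) (.exp (.alt (nat_lit 12) (.exp (.alt (nat_lit 0) (.cov (nat_lit 2665556365833467330578)) (.alt (nat_lit 0) (.cov (nat_lit 102277977400716161974283)) (.alt (nat_lit 0) (.cov (nat_lit 627198316884344700930)) (.alt (nat_lit 0) (.cov (nat_lit 36904467870571823105)) (.alt (nat_lit 0) (.exp (.alt (nat_lit 16) (.cov (nat_lit 29118185940364793217058)) (.alt (nat_lit 2) (.cov (nat_lit 1812395901734864551943)) (.alt (nat_lit 2) (.cov (nat_lit 25276658132508645261315)) (.alt (nat_lit 2) (.cov (nat_lit 41516153888967753728))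 (.alt (nat_lit 8) (.cov (nat_lit 25172063)) .e)))))) .e)))))) .e)) .e)) .e)) .e)) .e)) (.alt (nat_lit 9) (.exp (.alt (nat_lit 11) (.exp (.alt (nat_lit 10) (.exp (.alt (nat_lit 15) (.exp (.alt (nat_lit 13) (.exp (.alt (nat_lit 12) (.exp (.alt (nat_lit 0) (.cov (nat_lit 2665556365833467330578)) (.alt (nat_lit 0) (.cov (nat_lit 102277977400716161974283)) (.alt (nat_lit 0) (.cov (nat_lit 627198316884344700930)) (.alt (nat_lit 0) (.cov (nat_lit 36904467870571823105)) (.alt (nat_lit 0) (.exp (.alt (nat_lit 16) (.cov (nat_lit 29118185940364793217058)) (.alt (nat_lit 2) (.cov (nat_lit 1812395901734864551943)) (.alt (nat_lit 2) (.cov (nat_lit 25276658132508645261315)) (.alt (nat_lit 2) (.cov (nat_lit 41516153888967753728)) (.alt (nat_lit 8) (.cov (nat_lit 25172063)) .e)))))) .e)))))) .e)) .e)) .e)) .e)) (.alt (nat_lit 11) (.exp (.alt (nat_lit 10) (.exp (.alt (nat_lit 14) (.exp (.alt (nat_lit 15) (.exp (.alt (nat_lit 12) (.exp (.alt (nat_lit 0) (.cov (nat_lit 2665556365833467330578))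 (.alt (nat_lit 0) (.cov (nat_lit 102277977400716161974283)) (.alt (nat_lit 0) (.cov (nat_lit 627198316884344700930)) (.alt (nat_lit 0) (.cov (nat_lit 36904467870571823105)) (.alt (nat_lit 0) (.exp (.alt (nat_lit 16) (.cov (nat_lit 29118185940364793217058)) (.alt (nat_lit 2) (.cov (nat_lit 1812395901734864551943)) (.alt (nat_lit 2) (.cov (nat_lit 25276658132508645261315)) (.alt (nat_lit 2) (.cov (nat_lit 41516153888967753728)) (.alt (nat_lit 8) (.cov (nat_lit 25172063)) .e)))))) .e)))))) .e)) .e)) .e)) .e)) .e))) .e))) .e)) (.alt (nat_lit 1) (.exp (.alt (nat_lit 5) (.exp (.alt (nat_lit 7) (.exp (.alt (nat_lit 6) (.exp (.alt (nat_lit 15) (.exp (.alt (nat_lit 4) (.exp (.alt (nat_lit 12) (.exp (.alt (nat_lit 20) (.exp (.alt (nat_lit 0) (.cov (nat_lit 110682311621800362004)) (.alt (nat_lit 0) (.cov (nat_lit 343865759574355628523531)) (.alt (nat_lit 0) (.cov (nat_lit 627198316700504162306)) (.alt (nat_lit 0) (.cov (nat_lit 43128498626255078293505)) (.alt (nat_lit 0) (.exp (.alt (nat_lit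 16) (.cov (nat_lit 344345372969739088822306)) (.alt (nat_lit 2) (.cov (nat_lit 343870371260374058008583)) (.alt (nat_lit 2) (.cov (nat_lit 6387192200983696375811)) (.alt (nat_lit 2) (.exp (.alt (nat_lit 10) (.exp (.alt (nat_lit 18) (.cov (nat_lit 42028600764234219913227)) (.alt (nat_lit 18) (.exp (.alt (nat_lit 19) (.exp (.alt (nat_lit 17) (.exp (.alt (nat_lit 23) (.exp (.alt (nat_lit 26) (.cov (nat_lit 406849858092284724117507)) (.alt (nat_lit 26) (.exp (.alt (nat_lit 27) (.exp (.alt (nat_lit 24) (.cov (nat_lit 64563613210466320385)) (.alt (nat_lit 30) (.cov (nat_lit 47575990287)) .e))) .e)) (.alt (nat_lit 16) (.cov (nat_lit 360710335)) .e)))) .e)) .e)) .e)) (.alt (nat_lit 18) (.cov (nat_lit 1830844259734656122881)) (.alt (nat_lit 18) (.exp (.alt (nat_lit 19) (.exp (.alt (nat_lit 17) (.exp (.alt (nat_lit 25) (.exp (.alt (nat_lit 9) (.exp (.alt (nat_lit 29) (.exp (.alt (nat_lit 27) (.cov (nat_lit 6417161103437864108033)) (.alt (nat_lit 23) (.cov (nat_lit 200278031)) .e))) .e))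 .e)) .e)) .e)) (.alt (nat_lit 16) (.cov (nat_lit 793210415183674998787)) (.alt (nat_lit 16) (.exp (.alt (nat_lit 17) (.exp (.alt (nat_lit 24) (.cov (nat_lit 654859447785908862978)) (.alt (nat_lit 24) (.cov (nat_lit 406919033507904787316737)) (.alt (nat_lit 24) (.exp (.alt (nat_lit 26) (.cov (nat_lit 26551782268690789040131)) (.alt (nat_lit 25) (.exp (.alt (nat_lit 9) (.exp (.alt (nat_lit 27) (.cov (nat_lit 71481142082341437441)) (.alt (nat_lit 27) (.exp (.alt (nat_lit 31) (.cov (nat_lit 142962277566389420032)) (.alt (nat_lit 19) (.cov (nat_lit 9788456968)) .e))) .e))) .e)) (.alt (nat_lit 26) (.cov (nat_lit 12141462096)) .e)))) .e)))) .e)) (.alt (nat_lit 16) (.cov (nat_lit 156482145426)) .e))))) .e))))) .e)) (.alt (nat_lit 2) (.cov (nat_lit 1386223707)) .e)))))) .e)))))) .e)) .e)) .e)) .e)) .e)) .e)) (.alt (nat_lit 5) (.exp (.alt (nat_lit 7) (.exp (.alt (nat_lit 6) (.exp (.alt (nat_lit 15) (.exp (.alt (nat_lit 11) (.exp (.alt (nat_lit 9) (.exp (.alt (nat_lit 10) (.exp (.alt (nat_lit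 0) (.cov (nat_lit 364009602653690133479442)) (.alt (nat_lit 0) (.cov (nat_lit 756321391052758974475)) (.alt (nat_lit 0) (.cov (nat_lit 36902506362434486274)) (.alt (nat_lit 0) (.cov (nat_lit 36904467871146442753)) (.alt (nat_lit 0) (.exp (.alt (nat_lit 16) (.cov (nat_lit 22043859588096980942882)) (.alt (nat_lit 4) (.cov (nat_lit 1374285729983597903879)) (.alt (nat_lit 4) (.cov (nat_lit 1595650427884014665731)) (.alt (nat_lit 4) (.cov (nat_lit 46127839907401433088)) (.alt (nat_lit 2) (.cov (nat_lit 18880607)) .e)))))) .e)))))) .e)) .e)) .e)) .e)) .e)) .e)) .e))) .e)))) .e))))])]) (by decide +kernel)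
  exact h _ List.mem_cons_self

theorem t3_16 : GF FULL [0, 3] [16, 8] := by
  have h := JT.chkW_ok (zs := [0, 3]) good (by decide) (by decide)
    (L := [([16, 8], [.cov (nat_lit 1408870555820499148321),
      .cov (nat_lit 21847863537045191269919),
      .cov (nat_lit 22807093685719444495372),
      .cov (nat_lit 6918012812757310477),
      .cov (nat_lit 21847863537045191269919),
      .cov (nat_lit 22807093685718739852301),
      .cov (nat_lit 6918012812757310478),
      .cov (nat_lit 21847863537045191269919),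
      .cov (nat_lit 22807093685719444495374),
      .cov (nat_lit 6918012812757310766),
      .cov (nat_lit 21847863537045191269919),
      .cov (nat_lit 22807093685718739853009),
      .cov (nat_lit 6918012812757310479),
      .cov (nat_lit 21847863537045191269919),
      .rot (.exp (.alt (nat_lit 3) (.cov (nat_lit 36127539218727864552416870402)) (.alt (nat_lit 3) (.cov (nat_lit 55492708803130189007795227051687937)) (.alt (nat_lit 3) (.cov (nat_lit 3894259932009126279332820654489600)) (.alt (nat_lit 3) (.cov (nat_lit 590312767027040747613)) .e))))),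
      .cov (nat_lit 6918012812757310100),
      .cov (nat_lit 21847863537045191269919),
      .rot (.exp (.alt (nat_lit 3) (.cov (nat_lit 811333672254441309747924377272322)) (.alt (nat_lit 3) (.cov (nat_lit 47704264675897103329924964466819073)) (.alt (nat_lit 3) (.cov (nat_lit 3894259932009126279332820654489600)) (.alt (nat_lit 3) (.cov (nat_lit 590312767027040747613)) .e)))))])]) (by decide +kernel)
  exact h _ List.mem_cons_self

theorem t3_17 : GF FULL [0, 3] [17, 7] := by
  have h := JT.chkW_ok (zs := [0, 3]) good (by decide) (by decide)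
    (L := [([17, 7], [.cov (nat_lit 6500171647482599579500),
      .cov (nat_lit 22807093415238912974136),
      .cov (nat_lit 21847862595862667468088),
      .cov (nat_lit 6500171647482599579500),
      .cov (nat_lit 22807093415239584063244),
      .cov (nat_lit 21847862595862667468556),
      .cov (nat_lit 22807093413040560807694),
      .cov (nat_lit 22807093415239584063245),
      .cov (nat_lit 21847862595862667468557),
      .cov (nat_lit 22807093413040560807695),
      .cov (nat_lit 22807093415238879419972),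
      .cov (nat_lit 2810822711794376646212),
      .cov (nat_lit 22807093413040560807696),
      .cov (nat_lit 6500171649681622835052),
      .cov (nat_lit 1408870162192719158853),
      .cov (nat_lit 22807093413039856164422),
      .cov (nat_lit 6500171649681622835052),
      .rot (.exp (.alt (nat_lit 3) (.exp (.alt (nat_lit 1) (.exp (.alt (nat_lit 5) (.exp (.alt (nat_lit 9) (.exp (.alt (nat_lit 7) (.exp (.alt (nat_lit 6) (.exp (.alt (nat_lit 15) (.exp (.alt (nat_lit 0) (.cov (nat_lit 344077895682047566938329)) (.alt (nat_lit 0) (.cov (nat_lit 3855372807741173137501)) (.alt (nat_lit 0) (.exp (.alt (nat_lit 2) (.exp (.alt (nat_lit 10) (.exp (.alt (nat_lit 18) (.exp (.alt (nat_lit 19) (.exp (.alt (nat_lit 17) (.exp (.alt (nat_lit 23) (.exp (.alt (nat_lit 8) (.cov (nat_lit 43119264305281450901511)) (.alt (nat_lit 8) (.cov (nat_lit 55340373124757585923)) (.alt (nat_lit 8) (.cov (nat_lit 1383506225541670764545)) (.alt (nat_lit 8) (.exp (.alt (nat_lit 12) (.exp (.alt (nat_lit 24)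 (.cov (nat_lit 6410243583206450266114)) (.alt (nat_lit 24) (.cov (nat_lit 1607172610407914274817)) (.alt (nat_lit 24) (.cov (nat_lit 1385811795872004964352)) (.alt (nat_lit 24) (.exp (.alt (nat_lit 25) (.cov (nat_lit 6412549417419571986435)) (.alt (nat_lit 25) (.cov (nat_lit 657165275218117132289)) (.alt (nat_lit 25) (.cov (nat_lit 657165290611279921152)) (.alt (nat_lit 25) (.exp (.alt (nat_lit 29) (.cov (nat_lit 25299709505889379549185)) (.alt (nat_lit 27) (.cov (nat_lit 300941327)) .e))) .e))))) .e))))) .e)) (.alt (nat_lit 8) (.exp (.alt (nat_lit 24) (.cov (nat_lit 1607172610573450870786)) (.alt (nat_lit 12) (.cov (nat_lit 64563745151839633409)) (.alt (nat_lit 12) (.exp (.alt (nat_lit 28) (.cov (nat_lit 129127226111059558403)) (.alt (nat_lit 28) (.cov (nat_lit 55340375157661237248)) (.alt (nat_lit 13) (.cov (nat_lit 30408895)) .e)))) .e)))) .e)))))) .e)) .e)) .e)) .e)) .e)) .e)) (.alt (nat_lit 0) (.cov (nat_lit 36902504327760838667)) (.alt (nat_lit 0) (.cov (nat_lit 36904467871247106054))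 (.alt (nat_lit 0) (.exp (.alt (nat_lit 2) (.exp (.alt (nat_lit 10) (.exp (.alt (nat_lit 18) (.exp (.alt (nat_lit 16) (.exp (.alt (nat_lit 17) (.exp (.alt (nat_lit 19) (.exp (.alt (nat_lit 23) (.exp (.alt (nat_lit 25) (.exp (.alt (nat_lit 24) (.exp (.alt (nat_lit 27) (.exp (.alt (nat_lit 20) (.cov (nat_lit 404343406732482396028929)) (.alt (nat_lit 20) (.exp (.alt (nat_lit 28) (.cov (nat_lit 69175301271539679232)) (.alt (nat_lit 21) (.cov (nat_lit 4627365896)) .e))) .e))) .e)) .e)) .e)) .e)) .e)) (.alt (nat_lit 17) (.exp (.alt (nat_lit 19) (.exp (.alt (nat_lit 23) (.exp (.alt (nat_lit 27) (.exp (.alt (nat_lit 25) (.exp (.alt (nat_lit 24) (.exp (.alt (nat_lit 20) (.cov (nat_lit 404343406732482396028929)) (.alt (nat_lit 20) (.exp (.alt (nat_lit 28) (.cov (nat_lit 69175301271539679232)) (.alt (nat_lit 21) (.cov (nat_lit 4627365896)) .e))) .e))) .e)) .e)) .e)) .e)) (.alt (nat_lit 19) (.exp (.alt (nat_lit 23) (.exp (.alt (nat_lit 31) (.exp (.alt (nat_lit 27) (.exp (.alt (nat_lit 29)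 (.exp (.alt (nat_lit 20) (.cov (nat_lit 45443554034389360836609)) (.alt (nat_lit 20) (.exp (.alt (nat_lit 28) (.cov (nat_lit 45406660548431209037824)) (.alt (nat_lit 22) (.cov (nat_lit 185017040904)) .e))) .e))) .e)) .e)) .e)) .e)) .e))) .e))) (.alt (nat_lit 16) (.cov (nat_lit 22043859588096376963087)) (.alt (nat_lit 16) (.exp (.alt (nat_lit 17) (.exp (.alt (nat_lit 21) (.exp (.alt (nat_lit 20) (.exp (.alt (nat_lit 23) (.exp (.alt (nat_lit 24) (.cov (nat_lit 102111951837611604049922)) (.alt (nat_lit 24) (.cov (nat_lit 1607172610407905886209)) (.alt (nat_lit 24) (.cov (nat_lit 22046165158426694385664)) (.alt (nat_lit 24) (.exp (.alt (nat_lit 25) (.cov (nat_lit 102114257671824725770243)) (.alt (nat_lit 25) (.cov (nat_lit 10175685217252245766145)) (.alt (nat_lit 25) (.cov (nat_lit 10175685232645408555008)) (.alt (nat_lit 25) (.exp (.alt (nat_lit 29) (.cov (nat_lit 440416023555922198529)) (.alt (nat_lit 27) (.cov (nat_lit 4629463055)) .e))) .e))))) .e))))) .e)) .e)) .e)) .e)) (.alt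 (nat_lit 4) (.cov (nat_lit 6539374070649753436163)) (.alt (nat_lit 4) (.cov (nat_lit 6391803887002092306433)) (.alt (nat_lit 4) (.exp (.alt (nat_lit 12) (.exp (.alt (nat_lit 20) (.cov (nat_lit 6382573482489151488011)) (.alt (nat_lit 20) (.cov (nat_lit 627189445840712237062)) (.alt (nat_lit 20) (.cov (nat_lit 802433787220533968898)) (.alt (nat_lit 20) (.cov (nat_lit 2630968720692376240129)) (.alt (nat_lit 20) (.cov (nat_lit 269786928413879042048)) (.alt (nat_lit 20) (.exp (.alt (nat_lit 16) (.cov (nat_lit 2990678415935568609287)) (.alt (nat_lit 16) (.cov (nat_lit 55340372959339479043)) (.alt (nat_lit 21) (.cov (nat_lit 140656843575494967297)) (.alt (nat_lit 21) (.exp (.alt (nat_lit 17) (.exp (.alt (nat_lit 29) (.cov (nat_lit 6417161112233922527234)) (.alt (nat_lit 23) (.cov (nat_lit 71481166280757608449)) (.alt (nat_lit 23) (.cov (nat_lit 71481274023132790784)) (.alt (nat_lit 23) (.cov (nat_lit 32506047)) .e))))) .e)) (.alt (nat_lit 16) (.cov (nat_lit 118490587)) .e)))))) .e)))))))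 .e)) (.alt (nat_lit 4) (.exp (.alt (nat_lit 20) (.cov (nat_lit 344338454242246019514379)) (.alt (nat_lit 20) (.cov (nat_lit 6382575296866913615874)) (.alt (nat_lit 12) (.cov (nat_lit 654862711108921196545)) (.alt (nat_lit 12) (.cov (nat_lit 29364228)) .e))))) .e)))))))) .e)) .e)) .e)) (.alt (nat_lit 0) (.exp (.alt (nat_lit 2) (.exp (.alt (nat_lit 10) (.exp (.alt (nat_lit 16) (.cov (nat_lit 4325762270336310575138)) (.alt (nat_lit 4) (.cov (nat_lit 46120156521891364871)) (.alt (nat_lit 4) (.cov (nat_lit 415058807304042315779)) (.alt (nat_lit 4) (.cov (nat_lit 46127839907401433088)) (.alt (nat_lit 4) (.cov (nat_lit 289413212)) .e)))))) .e)) .e)) (.alt (nat_lit 0) (.cov (nat_lit 1807797174403443195904)) (.alt (nat_lit 0) (.exp (.alt (nat_lit 16) (.exp (.alt (nat_lit 17) (.exp (.alt (nat_lit 19) (.exp (.alt (nat_lit 18) (.exp (.alt (nat_lit 23) (.exp (.alt (nat_lit 21) (.exp (.alt (nat_lit 20) (.exp (.alt (nat_lit 29) (.exp (.alt (nat_lit 24) (.cov (nat_lit 1567973263857692966914))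 (.alt (nat_lit 24) (.cov (nat_lit 47906194392409081643009)) (.alt (nat_lit 24) (.cov (nat_lit 347670397478517843427328)) (.alt (nat_lit 24) (.exp (.alt (nat_lit 8) (.cov (nat_lit 404306513244371606831107)) (.alt (nat_lit 8) (.cov (nat_lit 22749447146494503157761)) (.alt (nat_lit 8) (.cov (nat_lit 22749447161887665946624)) (.alt (nat_lit 8) (.exp (.alt (nat_lit 10) (.cov (nat_lit 404311124930343645216769)) (.alt (nat_lit 12) (.cov (nat_lit 20650655759)) .e))) .e))))) .e))))) .e)) .e)) .e)) .e)) .e)) .e)) (.alt (nat_lit 17) (.exp (.alt (nat_lit 19) (.exp (.alt (nat_lit 18) (.exp (.alt (nat_lit 23) (.exp (.alt (nat_lit 21) (.exp (.alt (nat_lit 20) (.exp (.alt (nat_lit 29) (.exp (.alt (nat_lit 24) (.cov (nat_lit 1567973263857692966914)) (.alt (nat_lit 24) (.cov (nat_lit 47906194392409081643009)) (.alt (nat_lit 24) (.cov (nat_lit 347670397478517843427328)) (.alt (nat_lit 24) (.exp (.alt (nat_lit 8) (.cov (nat_lit 404306513244371606831107)) (.alt (nat_lit 8) (.cov (nat_lit 22749447146494503157761))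 (.alt (nat_lit 8) (.cov (nat_lit 22749447161887665946624)) (.alt (nat_lit 8) (.exp (.alt (nat_lit 10) (.cov (nat_lit 404311124930343645216769)) (.alt (nat_lit 12) (.cov (nat_lit 20650655759)) .e))) .e))))) .e))))) .e)) .e)) .e)) .e)) .e)) .e)) .e))) (.alt (nat_lit 2) (.cov (nat_lit 3859984493760206602274)) (.alt (nat_lit 2) (.cov (nat_lit 43114659664933528010767)) (.alt (nat_lit 2) (.exp (.alt (nat_lit 10) (.exp (.alt (nat_lit 8) (.exp (.alt (nat_lit 12) (.exp (.alt (nat_lit 24) (.exp (.alt (nat_lit 18) (.cov (nat_lit 428886832699118977035)) (.alt (nat_lit 18) (.cov (nat_lit 3954521007092112818182)) (.alt (nat_lit 18) (.cov (nat_lit 1821616397303755571202)) (.alt (nat_lit 18) (.cov (nat_lit 2847717963558463471617)) (.alt (nat_lit 18) (.cov (nat_lit 2995293365304465293312)) (.alt (nat_lit 18) (.exp (.alt (nat_lit 16) (.cov (nat_lit 1817004324245858156551)) (.alt (nat_lit 16) (.cov (nat_lit 636412811281660116995)) (.alt (nat_lit 19) (.cov (nat_lit 21525044911023292678145)) (.alt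 (nat_lit 19) (.exp (.alt (nat_lit 17) (.exp (.alt (nat_lit 23) (.cov (nat_lit 6394102682141959651330)) (.alt (nat_lit 23) (.cov (nat_lit 6394102697535558647809)) (.alt (nat_lit 23) (.cov (nat_lit 21522738894291245989888)) (.alt (nat_lit 23) (.exp (.alt (nat_lit 21) (.cov (nat_lit 25281262761815768563715)) (.alt (nat_lit 21) (.cov (nat_lit 140656441154275901441)) (.alt (nat_lit 21) (.cov (nat_lit 140656456547405135872)) (.alt (nat_lit 21) (.exp (.alt (nat_lit 29) (.cov (nat_lit 25299709505889379549185)) (.alt (nat_lit 20) (.cov (nat_lit 29360143)) .e))) .e))))) .e))))) .e)) (.alt (nat_lit 16) (.cov (nat_lit 1360004571)) .e)))))) .e))))))) .e)) .e)) .e)) .e)) (.alt (nat_lit 2) (.cov (nat_lit 41516153889676591107)) (.alt (nat_lit 2) (.cov (nat_lit 41518893871948365825)) (.alt (nat_lit 2) (.exp (.alt (nat_lit 10) (.exp (.alt (nat_lit 18) (.cov (nat_lit 25426531282624415006741)) (.alt (nat_lit 18) (.cov (nat_lit 405830216986157645835)) (.alt (nat_lit 18) (.cov (nat_lit 345212373477232199335942))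 (.alt (nat_lit 18) (.exp (.alt (nat_lit 16) (.exp (.alt (nat_lit 17) (.exp (.alt (nat_lit 20) (.exp (.alt (nat_lit 22) (.cov (nat_lit 406856775636704916668423)) (.alt (nat_lit 22) (.exp (.alt (nat_lit 23) (.exp (.alt (nat_lit 19) (.exp (.alt (nat_lit 27) (.exp (.alt (nat_lit 30) (.cov (nat_lit 102111951828815376809985)) (.alt (nat_lit 30) (.exp (.alt (nat_lit 28) (.cov (nat_lit 1395035031569413701632)) (.alt (nat_lit 26) (.cov (nat_lit 159240945672)) .e))) .e))) .e)) .e)) .e)) (.alt (nat_lit 22) (.cov (nat_lit 1987637093955703668737)) (.alt (nat_lit 22) (.exp (.alt (nat_lit 23) (.exp (.alt (nat_lit 30) (.cov (nat_lit 45443554043176403599362)) (.alt (nat_lit 30) (.cov (nat_lit 59951951224953110529)) (.alt (nat_lit 30) (.cov (nat_lit 25590245863588148281344)) (.alt (nat_lit 30) (.exp (.alt (nat_lit 26) (.cov (nat_lit 45434330662342814072835)) (.alt (nat_lit 26) (.cov (nat_lit 350174542768821236662273)) (.alt (nat_lit 26) (.cov (nat_lit 350174542784213795471360)) (.alt (nat_lit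 26) (.exp (.alt (nat_lit 24) (.cov (nat_lit 1607172586218650075137)) (.alt (nat_lit 27) (.cov (nat_lit 47572844559)) .e))) .e))))) .e))))) .e)) (.alt (nat_lit 19) (.exp (.alt (nat_lit 27) (.cov (nat_lit 104613791518004347928578)) (.alt (nat_lit 23) (.cov (nat_lit 809351043578351058945)) (.alt (nat_lit 23) (.exp (.alt (nat_lit 31) (.cov (nat_lit 102114257680620651020291)) (.alt (nat_lit 31) (.exp (.alt (nat_lit 27) (.exp (.alt (nat_lit 30) (.cov (nat_lit 102111951828815376809985)) (.alt (nat_lit 30) (.exp (.alt (nat_lit 28) (.cov (nat_lit 102075058342866945310720)) (.alt (nat_lit 26) (.cov (nat_lit 159240945672)) .e))) .e))) .e)) (.alt (nat_lit 21) (.cov (nat_lit 365953215)) .e)))) .e)))) .e)))))) .e)) .e)) .e)) (.alt (nat_lit 18) (.exp (.alt (nat_lit 16) (.exp (.alt (nat_lit 17) (.exp (.alt (nat_lit 22) (.exp (.alt (nat_lit 20) (.exp (.alt (nat_lit 28) (.exp (.alt (nat_lit 24) (.exp (.alt (nat_lit 12) (.exp (.alt (nat_lit 23) (.cov (nat_lit 440416025764716085249)) (.alt (nat_lit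 23) (.exp (.alt (nat_lit 31) (.cov (nat_lit 431192653718107455488)) (.alt (nat_lit 19) (.cov (nat_lit 632291336)) .e))) .e))) .e)) .e)) .e)) .e)) (.alt (nat_lit 22) (.cov (nat_lit 1987637093955666968579)) (.alt (nat_lit 22) (.exp (.alt (nat_lit 20) (.exp (.alt (nat_lit 30) (.exp (.alt (nat_lit 28) (.exp (.alt (nat_lit 24) (.exp (.alt (nat_lit 12) (.exp (.alt (nat_lit 31) (.cov (nat_lit 1611784274435512467456)) (.alt (nat_lit 26) (.cov (nat_lit 1370488840)) .e))) .e)) .e)) .e)) (.alt (nat_lit 23) (.cov (nat_lit 809351041379325706241)) (.alt (nat_lit 23) (.exp (.alt (nat_lit 31) (.cov (nat_lit 102114257680620651020291)) (.alt (nat_lit 31) (.exp (.alt (nat_lit 30) (.exp (.alt (nat_lit 29) (.cov (nat_lit 45443554034379633197057)) (.alt (nat_lit 27) (.cov (nat_lit 47572844559)) .e))) .e)) (.alt (nat_lit 21) (.cov (nat_lit 365953215)) .e)))) .e)))) .e)) (.alt (nat_lit 19) (.cov (nat_lit 1299188887)) .e))))) .e)) .e)) (.alt (nat_lit 18) (.cov (nat_lit 4330385334100960477184)) (.alt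 (nat_lit 18) (.exp (.alt (nat_lit 16) (.exp (.alt (nat_lit 17) (.exp (.alt (nat_lit 19) (.exp (.alt (nat_lit 23) (.exp (.alt (nat_lit 25) (.exp (.alt (nat_lit 24) (.exp (.alt (nat_lit 27) (.exp (.alt (nat_lit 20) (.cov (nat_lit 404343406732482396028929)) (.alt (nat_lit 20) (.exp (.alt (nat_lit 28) (.cov (nat_lit 69175301271539679232)) (.alt (nat_lit 21) (.cov (nat_lit 4627365896)) .e))) .e))) .e)) .e)) .e)) .e)) .e)) (.alt (nat_lit 17) (.exp (.alt (nat_lit 19) (.exp (.alt (nat_lit 23) (.exp (.alt (nat_lit 27) (.exp (.alt (nat_lit 25) (.exp (.alt (nat_lit 24) (.exp (.alt (nat_lit 20) (.cov (nat_lit 404343406732482396028929)) (.alt (nat_lit 20) (.exp (.alt (nat_lit 28) (.cov (nat_lit 69175301271539679232)) (.alt (nat_lit 21) (.cov (nat_lit 4627365896)) .e))) .e))) .e)) .e)) .e)) .e)) (.alt (nat_lit 19) (.exp (.alt (nat_lit 23) (.exp (.alt (nat_lit 31) (.exp (.alt (nat_lit 27) (.exp (.alt (nat_lit 29) (.exp (.alt (nat_lit 20) (.cov (nat_lit 45443554034389360836609)) (.alt (nat_lit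 20) (.exp (.alt (nat_lit 28) (.cov (nat_lit 45406660548431209037824)) (.alt (nat_lit 22) (.cov (nat_lit 185017040904)) .e))) .e))) .e)) .e)) .e)) .e)) .e))) .e))) (.alt (nat_lit 16) (.cov (nat_lit 22043859588096376963087)) (.alt (nat_lit 16) (.exp (.alt (nat_lit 17) (.exp (.alt (nat_lit 21) (.exp (.alt (nat_lit 20) (.exp (.alt (nat_lit 23) (.exp (.alt (nat_lit 24) (.cov (nat_lit 102111951837611604049922)) (.alt (nat_lit 24) (.cov (nat_lit 1607172610407905886209)) (.alt (nat_lit 24) (.cov (nat_lit 22046165158426694385664)) (.alt (nat_lit 24) (.exp (.alt (nat_lit 25) (.cov (nat_lit 102114257671824725770243)) (.alt (nat_lit 25) (.cov (nat_lit 10175685217252245766145)) (.alt (nat_lit 25) (.cov (nat_lit 10175685232645408555008)) (.alt (nat_lit 25) (.exp (.alt (nat_lit 29) (.cov (nat_lit 440416023555922198529)) (.alt (nat_lit 27) (.cov (nat_lit 4629463055)) .e))) .e))))) .e))))) .e)) .e)) .e)) .e)) (.alt (nat_lit 16) (.cov (nat_lit 25421922475136520290307)) (.alt (nat_lit 16) (.cov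 (nat_lit 39206469186141290497)) (.alt (nat_lit 16) (.exp (.alt (nat_lit 17) (.exp (.alt (nat_lit 20) (.exp (.alt (nat_lit 21) (.cov (nat_lit 3549421753518505680056329790554112)) (.alt (nat_lit 4) (.cov (nat_lit 493450436967426686983)) .e))) (.alt (nat_lit 20) (.cov (nat_lit 22053082775418166050822)) (.alt (nat_lit 20) (.exp (.alt (nat_lit 28) (.exp (.alt (nat_lit 24) (.exp (.alt (nat_lit 12) (.exp (.alt (nat_lit 21) (.cov (nat_lit 2856939499410947047427)) (.alt (nat_lit 21) (.cov (nat_lit 1616395967051009622017)) (.alt (nat_lit 21) (.cov (nat_lit 1616395982444172410880)) (.alt (nat_lit 21) (.exp (.alt (nat_lit 23) (.cov (nat_lit 440416025764716085249)) (.alt (nat_lit 23) (.exp (.alt (nat_lit 31) (.cov (nat_lit 1611784274435519807488)) (.alt (nat_lit 19) (.cov (nat_lit 632291336)) .e))) .e))) .e))))) .e)) .e)) .e)) (.alt (nat_lit 20) (.cov (nat_lit 2630968720702127996929)) (.alt (nat_lit 20) (.cov (nat_lit 5213515925663793545216)) (.alt (nat_lit 20) (.exp (.alt (nat_lit 21) (.cov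 (nat_lit 104623014890038946168839)) (.alt (nat_lit 21) (.exp (.alt (nat_lit 23) (.exp (.alt (nat_lit 19) (.exp (.alt (nat_lit 27) (.exp (.alt (nat_lit 29) (.cov (nat_lit 404343406732472635883521)) (.alt (nat_lit 29) (.exp (.alt (nat_lit 28) (.cov (nat_lit 216749253861216092160)) (.alt (nat_lit 25) (.cov (nat_lit 21801992200)) .e))) .e))) .e)) .e)) .e)) (.alt (nat_lit 21) (.cov (nat_lit 804739630229045116929)) (.alt (nat_lit 21) (.exp (.alt (nat_lit 23) (.exp (.alt (nat_lit 29) (.cov (nat_lit 45443554043175866728450)) (.alt (nat_lit 29) (.cov (nat_lit 57646108215704813569)) (.alt (nat_lit 29) (.cov (nat_lit 6698474089100352684032)) (.alt (nat_lit 29) (.exp (.alt (nat_lit 25) (.cov (nat_lit 45434330662343350943747)) (.alt (nat_lit 25) (.cov (nat_lit 47943087865163942985729)) (.alt (nat_lit 25) (.cov (nat_lit 47943087880556501794816)) (.alt (nat_lit 25) (.exp (.alt (nat_lit 24) (.cov (nat_lit 428886808510452465665)) (.alt (nat_lit 27) (.cov (nat_lit 185012846607)) .e))) .e)))))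 .e))))) .e)) (.alt (nat_lit 21) (.exp (.alt (nat_lit 29) (.exp (.alt (nat_lit 28) (.exp (.alt (nat_lit 24) (.exp (.alt (nat_lit 12) (.exp (.alt (nat_lit 31) (.cov (nat_lit 431192653718101164032)) (.alt (nat_lit 25) (.cov (nat_lit 9960423432)) .e))) .e)) .e)) .e)) (.alt (nat_lit 23) (.cov (nat_lit 809351041379325706241)) (.alt (nat_lit 23) (.exp (.alt (nat_lit 31) (.cov (nat_lit 404348018427287191945219)) (.alt (nat_lit 31) (.exp (.alt (nat_lit 29) (.exp (.alt (nat_lit 30) (.cov (nat_lit 45443554034379600691201)) (.alt (nat_lit 27) (.cov (nat_lit 185012846607)) .e))) .e)) (.alt (nat_lit 22) (.cov (nat_lit 903872703)) .e)))) .e)))) .e)))))) .e))))))) .e)) (.alt (nat_lit 16) (.exp (.alt (nat_lit 17) (.cov (nat_lit 7796055357088037077003)) (.alt (nat_lit 17) (.exp (.alt (nat_lit 21) (.exp (.alt (nat_lit 20) (.exp (.alt (nat_lit 23) (.exp (.alt (nat_lit 25) (.cov (nat_lit 10175685217252245766147)) (.alt (nat_lit 25) (.exp (.alt (nat_lit 24) (.exp (.alt (nat_lit 29) (.cov (nat_lit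 440416023555922198529)) (.alt (nat_lit 27) (.cov (nat_lit 4629463055)) .e))) .e)) (.alt (nat_lit 25) (.cov (nat_lit 1434452325)) .e)))) .e)) .e)) .e)) (.alt (nat_lit 17) (.cov (nat_lit 6550904899595056185345)) (.alt (nat_lit 17) (.exp (.alt (nat_lit 21) (.exp (.alt (nat_lit 20) (.exp (.alt (nat_lit 28) (.exp (.alt (nat_lit 24) (.exp (.alt (nat_lit 12) (.exp (.alt (nat_lit 23) (.cov (nat_lit 440416025764716085249)) (.alt (nat_lit 23) (.exp (.alt (nat_lit 31) (.cov (nat_lit 1611784274435519807488)) (.alt (nat_lit 19) (.cov (nat_lit 632291336)) .e))) .e))) .e)) .e)) .e)) .e)) (.alt (nat_lit 21) (.cov (nat_lit 804739630229075525635)) (.alt (nat_lit 21) (.exp (.alt (nat_lit 20) (.exp (.alt (nat_lit 29) (.exp (.alt (nat_lit 28) (.exp (.alt (nat_lit 24) (.exp (.alt (nat_lit 12) (.exp (.alt (nat_lit 31) (.cov (nat_lit 431192653718101164032)) (.alt (nat_lit 25) (.cov (nat_lit 9960423432)) .e))) .e)) .e)) .e)) (.alt (nat_lit 23) (.cov (nat_lit 809351041379325706241)) (.alt (nat_lit 23)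 (.exp (.alt (nat_lit 31) (.cov (nat_lit 404348018427287191945219)) (.alt (nat_lit 31) (.exp (.alt (nat_lit 29) (.exp (.alt (nat_lit 30) (.cov (nat_lit 45443554034379600691201)) (.alt (nat_lit 27) (.cov (nat_lit 185012846607)) .e))) .e)) (.alt (nat_lit 22) (.cov (nat_lit 903872703)) .e)))) .e)))) .e)) (.alt (nat_lit 19) (.cov (nat_lit 1299188887)) .e))))) .e))))) .e)))))))) .e)))))))) .e)) (.alt (nat_lit 2) (.exp (.alt (nat_lit 10) (.cov (nat_lit 2688614795925614755858)) (.alt (nat_lit 10) (.cov (nat_lit 102301035830808309399563)) (.alt (nat_lit 10) (.cov (nat_lit 650256746976492126210)) (.alt (nat_lit 10) (.cov (nat_lit 59962897962719248385)) (.alt (nat_lit 10) (.exp (.alt (nat_lit 26) (.cov (nat_lit 29141244370456936448034)) (.alt (nat_lit 8) (.cov (nat_lit 1826230959790153007111)) (.alt (nat_lit 8) (.cov (nat_lit 55347297848989319171)) (.alt (nat_lit 8) (.cov (nat_lit 55351211944256208896)) (.alt (nat_lit 11) (.cov (nat_lit 9792657503)) .e)))))) .e)))))) .e))))))))) .e))))))))))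 .e)) .e)) .e)) .e)) .e)) .e)) (.alt (nat_lit 3) (.exp (.alt (nat_lit 1) (.exp (.alt (nat_lit 5) (.exp (.alt (nat_lit 9) (.exp (.alt (nat_lit 11) (.exp (.alt (nat_lit 10) (.exp (.alt (nat_lit 15) (.exp (.alt (nat_lit 0) (.cov (nat_lit 348869437455193824297177)) (.alt (nat_lit 0) (.cov (nat_lit 43100820824558512635997)) (.alt (nat_lit 0) (.exp (.alt (nat_lit 8) (.exp (.alt (nat_lit 12) (.exp (.alt (nat_lit 24) (.exp (.alt (nat_lit 25) (.exp (.alt (nat_lit 17) (.exp (.alt (nat_lit 27) (.exp (.alt (nat_lit 4) (.cov (nat_lit 384296407634558299668487)) (.alt (nat_lit 4) (.cov (nat_lit 636412811301110153219)) (.alt (nat_lit 4) (.cov (nat_lit 1817004711273838936065)) (.alt (nat_lit 4) (.exp (.alt (nat_lit 6) (.exp (.alt (nat_lit 20) (.cov (nat_lit 419663445269107703810)) (.alt (nat_lit 20) (.cov (nat_lit 25283568629013553348609)) (.alt (nat_lit 20) (.cov (nat_lit 1819310281604179427328)) (.alt (nat_lit 20) (.exp (.alt (nat_lit 21) (.cov (nat_lit 421969279482229424131)) (.alt (nat_lit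 21) (.cov (nat_lit 6546288320749893582849)) (.alt (nat_lit 21) (.cov (nat_lit 6546288336143056371712)) (.alt (nat_lit 21) (.exp (.alt (nat_lit 23) (.cov (nat_lit 2854633654202712195073)) (.alt (nat_lit 29) (.cov (nat_lit 233832463)) .e))) .e))))) .e))))) .e)) (.alt (nat_lit 4) (.exp (.alt (nat_lit 20) (.cov (nat_lit 2630966906518832676866)) (.alt (nat_lit 6) (.cov (nat_lit 641024497455261024257)) (.alt (nat_lit 6) (.exp (.alt (nat_lit 22) (.cov (nat_lit 21518126979574564651011)) (.alt (nat_lit 22) (.cov (nat_lit 6391796964476890120192)) (.alt (nat_lit 7) (.cov (nat_lit 292552895)) .e)))) .e)))) .e)))))) .e)) .e)) .e)) .e)) .e)) .e)) (.alt (nat_lit 0) (.cov (nat_lit 36902504154884210699)) (.alt (nat_lit 0) (.cov (nat_lit 36904467882013884422)) (.alt (nat_lit 0) (.exp (.alt (nat_lit 8) (.exp (.alt (nat_lit 12) (.exp (.alt (nat_lit 24) (.exp (.alt (nat_lit 16) (.exp (.alt (nat_lit 17) (.exp (.alt (nat_lit 25) (.exp (.alt (nat_lit 27) (.exp (.alt (nat_lit 21) (.exp (.alt (nat_lit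 20) (.exp (.alt (nat_lit 29) (.exp (.alt (nat_lit 18) (.cov (nat_lit 365370048190743378395137)) (.alt (nat_lit 18) (.exp (.alt (nat_lit 22) (.cov (nat_lit 6414855262627619143680)) (.alt (nat_lit 19) (.cov (nat_lit 3547332616)) .e))) .e))) .e)) .e)) .e)) .e)) .e)) (.alt (nat_lit 17) (.exp (.alt (nat_lit 25) (.exp (.alt (nat_lit 27) (.exp (.alt (nat_lit 29) (.exp (.alt (nat_lit 21) (.exp (.alt (nat_lit 20) (.exp (.alt (nat_lit 18) (.cov (nat_lit 365370048190743378395137)) (.alt (nat_lit 18) (.exp (.alt (nat_lit 22) (.cov (nat_lit 6414855262627619143680)) (.alt (nat_lit 19) (.cov (nat_lit 3547332616)) .e))) .e))) .e)) .e)) .e)) .e)) (.alt (nat_lit 25) (.exp (.alt (nat_lit 27) (.exp (.alt (nat_lit 31) (.exp (.alt (nat_lit 29) (.exp (.alt (nat_lit 23) (.exp (.alt (nat_lit 18) (.cov (nat_lit 404329571674417958748161)) (.alt (nat_lit 18) (.exp (.alt (nat_lit 22) (.cov (nat_lit 404292678188468963115008)) (.alt (nat_lit 26) (.cov (nat_lit 1944059912)) .e))) .e))) .e)) .e)) .e)) .e))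 .e))) .e))) (.alt (nat_lit 16) (.cov (nat_lit 29118185940366873591823)) (.alt (nat_lit 16) (.exp (.alt (nat_lit 17) (.exp (.alt (nat_lit 19) (.exp (.alt (nat_lit 18) (.exp (.alt (nat_lit 27) (.exp (.alt (nat_lit 20) (.cov (nat_lit 102098116779556156211202)) (.alt (nat_lit 20) (.cov (nat_lit 25283568629013540765697)) (.alt (nat_lit 20) (.cov (nat_lit 29120491510694303236096)) (.alt (nat_lit 20) (.exp (.alt (nat_lit 21) (.cov (nat_lit 102100422613769277931523)) (.alt (nat_lit 21) (.cov (nat_lit 7800666917762143092737)) (.alt (nat_lit 21) (.cov (nat_lit 7800666933155305881600)) (.alt (nat_lit 21) (.exp (.alt (nat_lit 23) (.cov (nat_lit 71481142081724874753)) (.alt (nat_lit 29) (.cov (nat_lit 3555721231)) .e))) .e))))) .e))))) .e)) .e)) .e)) .e)) (.alt (nat_lit 2) (.cov (nat_lit 41508470667840847875)) (.alt (nat_lit 2) (.cov (nat_lit 410447121101763903489)) (.alt (nat_lit 2) (.exp (.alt (nat_lit 6) (.exp (.alt (nat_lit 18) (.cov (nat_lit 6530147435078754500619)) (.alt (nat_lit 18)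 (.cov (nat_lit 479615493253915213830)) (.alt (nat_lit 18) (.cov (nat_lit 10233331694915311108098)) (.alt (nat_lit 18) (.cov (nat_lit 2847717963558463471617)) (.alt (nat_lit 18) (.cov (nat_lit 2995293365304465293312)) (.alt (nat_lit 18) (.exp (.alt (nat_lit 16) (.cov (nat_lit 25421919209576109965319)) (.alt (nat_lit 16) (.cov (nat_lit 636412811281660116995)) (.alt (nat_lit 19) (.cov (nat_lit 21525044911023292678145)) (.alt (nat_lit 19) (.exp (.alt (nat_lit 17) (.exp (.alt (nat_lit 23) (.cov (nat_lit 440416032354909290498)) (.alt (nat_lit 27) (.cov (nat_lit 6417161127627689295873)) (.alt (nat_lit 27) (.cov (nat_lit 661777084381844733952)) (.alt (nat_lit 27) (.cov (nat_lit 300941503)) .e))))) .e)) (.alt (nat_lit 16) (.cov (nat_lit 1360004571)) .e)))))) .e))))))) .e)) (.alt (nat_lit 2) (.exp (.alt (nat_lit 18) (.cov (nat_lit 350236800659814715752459)) (.alt (nat_lit 18) (.cov (nat_lit 6530149249438866997250)) (.alt (nat_lit 6) (.cov (nat_lit 6543985756640691355649)) (.alt (nat_lit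 6) (.cov (nat_lit 23072772)) .e))))) .e)))))))) .e)) .e)) .e)) (.alt (nat_lit 0) (.exp (.alt (nat_lit 8) (.exp (.alt (nat_lit 12) (.exp (.alt (nat_lit 16) (.cov (nat_lit 347873312213085813997602)) (.alt (nat_lit 2) (.cov (nat_lit 631804280880014295047)) (.alt (nat_lit 2) (.cov (nat_lit 41512239793700864003)) (.alt (nat_lit 2) (.cov (nat_lit 41516153888967753728)) (.alt (nat_lit 2) (.cov (nat_lit 18880604)) .e)))))) .e)) .e)) (.alt (nat_lit 0) (.cov (nat_lit 110696719622170738688)) (.alt (nat_lit 0) (.exp (.alt (nat_lit 16) (.exp (.alt (nat_lit 17) (.exp (.alt (nat_lit 25) (.exp (.alt (nat_lit 24) (.exp (.alt (nat_lit 27) (.exp (.alt (nat_lit 19) (.exp (.alt (nat_lit 18) (.exp (.alt (nat_lit 23) (.exp (.alt (nat_lit 20) (.cov (nat_lit 25244369282463736791042)) (.alt (nat_lit 20) (.cov (nat_lit 26646321847458825502721)) (.alt (nat_lit 20) (.cov (nat_lit 405597785555984258695168)) (.alt (nat_lit 20) (.exp (.alt (nat_lit 4) (.cov (nat_lit 365333154702641753751555)) (.alt (nat_lit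 4) (.cov (nat_lit 343874979667648798785537)) (.alt (nat_lit 4) (.cov (nat_lit 343874979683041961574400)) (.alt (nat_lit 4) (.exp (.alt (nat_lit 12) (.cov (nat_lit 365351601446669074300929)) (.alt (nat_lit 6) (.cov (nat_lit 183859413007)) .e))) .e))))) .e))))) .e)) .e)) .e)) .e)) .e)) .e)) (.alt (nat_lit 17) (.exp (.alt (nat_lit 25) (.exp (.alt (nat_lit 24) (.exp (.alt (nat_lit 27) (.exp (.alt (nat_lit 19) (.exp (.alt (nat_lit 18) (.exp (.alt (nat_lit 23) (.exp (.alt (nat_lit 20) (.cov (nat_lit 25244369282463736791042)) (.alt (nat_lit 20) (.cov (nat_lit 26646321847458825502721)) (.alt (nat_lit 20) (.cov (nat_lit 405597785555984258695168)) (.alt (nat_lit 20) (.exp (.alt (nat_lit 4) (.cov (nat_lit 365333154702641753751555)) (.alt (nat_lit 4) (.cov (nat_lit 343874979667648798785537)) (.alt (nat_lit 4) (.cov (nat_lit 343874979683041961574400)) (.alt (nat_lit 4) (.exp (.alt (nat_lit 12) (.cov (nat_lit 365351601446669074300929)) (.alt (nat_lit 6) (.cov (nat_lit 183859413007)) .e)))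 .e))))) .e))))) .e)) .e)) .e)) .e)) .e)) .e)) .e))) (.alt (nat_lit 8) (.cov (nat_lit 43119267568632767447074)) (.alt (nat_lit 8) (.cov (nat_lit 24082231466886590103567)) (.alt (nat_lit 8) (.exp (.alt (nat_lit 12) (.exp (.alt (nat_lit 4) (.exp (.alt (nat_lit 6) (.exp (.alt (nat_lit 20) (.exp (.alt (nat_lit 24) (.cov (nat_lit 654859447604950859787)) (.alt (nat_lit 24) (.cov (nat_lit 3009125373317388173318)) (.alt (nat_lit 24) (.cov (nat_lit 21900897321526408249346)) (.alt (nat_lit 24) (.cov (nat_lit 1607174424601496125441)) (.alt (nat_lit 24) (.cov (nat_lit 25440369216990562222080)) (.alt (nat_lit 24) (.exp (.alt (nat_lit 16) (.cov (nat_lit 1443457756754481250311)) (.alt (nat_lit 16) (.cov (nat_lit 6534759228850389909507)) (.alt (nat_lit 25) (.cov (nat_lit 21903203164534338486273)) (.alt (nat_lit 25) (.exp (.alt (nat_lit 17) (.exp (.alt (nat_lit 27) (.cov (nat_lit 412745916241469767682)) (.alt (nat_lit 27) (.cov (nat_lit 6537064964106237247489)) (.alt (nat_lit 27) (.cov (nat_lit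 21900897147802289700864)) (.alt (nat_lit 27) (.exp (.alt (nat_lit 19) (.cov (nat_lit 2845410282166989881347)) (.alt (nat_lit 19) (.cov (nat_lit 21525044508611802300417)) (.alt (nat_lit 19) (.cov (nat_lit 21525044523995200749568)) (.alt (nat_lit 19) (.exp (.alt (nat_lit 23) (.cov (nat_lit 2854633654202712195073)) (.alt (nat_lit 18) (.cov (nat_lit 2908749839)) .e))) .e))))) .e))))) .e)) (.alt (nat_lit 16) (.cov (nat_lit 11560551899)) .e)))))) .e))))))) .e)) .e)) .e)) .e)) (.alt (nat_lit 8) (.cov (nat_lit 55351211945430614019)) (.alt (nat_lit 8) (.cov (nat_lit 55353951927232626689)) (.alt (nat_lit 8) (.exp (.alt (nat_lit 12) (.exp (.alt (nat_lit 24) (.cov (nat_lit 25440366340668894740501)) (.alt (nat_lit 24) (.cov (nat_lit 627191145697801928715)) (.alt (nat_lit 24) (.cov (nat_lit 384319470913499338637318)) (.alt (nat_lit 24) (.exp (.alt (nat_lit 16) (.exp (.alt (nat_lit 17) (.exp (.alt (nat_lit 18) (.exp (.alt (nat_lit 26) (.cov (nat_lit 4275032972068907909127)) (.alt (nat_lit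 26) (.exp (.alt (nat_lit 27) (.exp (.alt (nat_lit 25) (.exp (.alt (nat_lit 29) (.exp (.alt (nat_lit 30) (.cov (nat_lit 102098116770769827528705)) (.alt (nat_lit 30) (.exp (.alt (nat_lit 22) (.cov (nat_lit 126821376501875736576)) (.alt (nat_lit 28) (.cov (nat_lit 13207863304)) .e))) .e))) .e)) .e)) .e)) (.alt (nat_lit 26) (.cov (nat_lit 344359207102014716641281)) (.alt (nat_lit 26) (.exp (.alt (nat_lit 27) (.exp (.alt (nat_lit 30) (.cov (nat_lit 404329571683224928649218)) (.alt (nat_lit 30) (.cov (nat_lit 6410243598609197039617)) (.alt (nat_lit 30) (.cov (nat_lit 42123140239650333917184)) (.alt (nat_lit 30) (.exp (.alt (nat_lit 28) (.cov (nat_lit 404324959988410406141955)) (.alt (nat_lit 28) (.cov (nat_lit 29044398561647939026945)) (.alt (nat_lit 28) (.cov (nat_lit 29044398577041068261376)) (.alt (nat_lit 28) (.exp (.alt (nat_lit 20) (.cov (nat_lit 25283568604824284954625)) (.alt (nat_lit 29) (.cov (nat_lit 4618977295)) .e))) .e))))) .e))))) .e)) (.alt (nat_lit 25) (.exp (.alt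 (nat_lit 29) (.cov (nat_lit 10157238488571870969858)) (.alt (nat_lit 27) (.cov (nat_lit 102340230425266560696321)) (.alt (nat_lit 27) (.exp (.alt (nat_lit 31) (.cov (nat_lit 103354801219580506144771)) (.alt (nat_lit 31) (.exp (.alt (nat_lit 29) (.exp (.alt (nat_lit 30) (.cov (nat_lit 102098116770769827528705)) (.alt (nat_lit 30) (.exp (.alt (nat_lit 22) (.cov (nat_lit 102061223284811658952704)) (.alt (nat_lit 28) (.cov (nat_lit 13207863304)) .e))) .e))) .e)) (.alt (nat_lit 19) (.cov (nat_lit 4654629055)) .e)))) .e)))) .e)))))) .e)) .e)) .e)) (.alt (nat_lit 24) (.exp (.alt (nat_lit 16) (.exp (.alt (nat_lit 17) (.exp (.alt (nat_lit 26) (.exp (.alt (nat_lit 18) (.exp (.alt (nat_lit 22) (.exp (.alt (nat_lit 20) (.exp (.alt (nat_lit 6) (.exp (.alt (nat_lit 27) (.cov (nat_lit 661776954640076636161)) (.alt (nat_lit 27) (.exp (.alt (nat_lit 31) (.cov (nat_lit 66869458262337519616)) (.alt (nat_lit 25) (.cov (nat_lit 835715080)) .e))) .e))) .e)) .e)) .e)) .e)) (.alt (nat_lit 26) (.cov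 (nat_lit 344359207102007828545539)) (.alt (nat_lit 26) (.exp (.alt (nat_lit 18) (.exp (.alt (nat_lit 30) (.exp (.alt (nat_lit 22) (.exp (.alt (nat_lit 20) (.exp (.alt (nat_lit 6) (.exp (.alt (nat_lit 31) (.cov (nat_lit 2649413628581678940160)) (.alt (nat_lit 28) (.cov (nat_lit 11573133320)) .e))) .e)) .e)) .e)) (.alt (nat_lit 27) (.cov (nat_lit 102340230423067543732225)) (.alt (nat_lit 27) (.exp (.alt (nat_lit 31) (.cov (nat_lit 103354801219580506144771)) (.alt (nat_lit 31) (.exp (.alt (nat_lit 30) (.exp (.alt (nat_lit 23) (.cov (nat_lit 404329571674427113865217)) (.alt (nat_lit 29) (.cov (nat_lit 4618977295)) .e))) .e)) (.alt (nat_lit 19) (.cov (nat_lit 4654629055)) .e)))) .e)))) .e)) (.alt (nat_lit 25) (.cov (nat_lit 732957847)) .e))))) .e)) .e)) (.alt (nat_lit 24) (.cov (nat_lit 347891770334904504549376)) (.alt (nat_lit 24) (.exp (.alt (nat_lit 16) (.exp (.alt (nat_lit 17) (.exp (.alt (nat_lit 25) (.exp (.alt (nat_lit 27) (.exp (.alt (nat_lit 21) (.exp (.alt (nat_lit 20)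 (.exp (.alt (nat_lit 29) (.exp (.alt (nat_lit 18) (.cov (nat_lit 365370048190743378395137)) (.alt (nat_lit 18) (.exp (.alt (nat_lit 22) (.cov (nat_lit 6414855262627619143680)) (.alt (nat_lit 19) (.cov (nat_lit 3547332616)) .e))) .e))) .e)) .e)) .e)) .e)) .e)) (.alt (nat_lit 17) (.exp (.alt (nat_lit 25) (.exp (.alt (nat_lit 27) (.exp (.alt (nat_lit 29) (.exp (.alt (nat_lit 21) (.exp (.alt (nat_lit 20) (.exp (.alt (nat_lit 18) (.cov (nat_lit 365370048190743378395137)) (.alt (nat_lit 18) (.exp (.alt (nat_lit 22) (.cov (nat_lit 6414855262627619143680)) (.alt (nat_lit 19) (.cov (nat_lit 3547332616)) .e))) .e))) .e)) .e)) .e)) .e)) (.alt (nat_lit 25) (.exp (.alt (nat_lit 27) (.exp (.alt (nat_lit 31) (.exp (.alt (nat_lit 29) (.exp (.alt (nat_lit 23) (.exp (.alt (nat_lit 18) (.cov (nat_lit 404329571674417958748161)) (.alt (nat_lit 18) (.exp (.alt (nat_lit 22) (.cov (nat_lit 404292678188468963115008)) (.alt (nat_lit 26) (.cov (nat_lit 1944059912)) .e))) .e))) .e)) .e)) .e)) .e)) .e)))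 .e))) (.alt (nat_lit 16) (.cov (nat_lit 29118185940366873591823)) (.alt (nat_lit 16) (.exp (.alt (nat_lit 17) (.exp (.alt (nat_lit 19) (.exp (.alt (nat_lit 18) (.exp (.alt (nat_lit 27) (.exp (.alt (nat_lit 20) (.cov (nat_lit 102098116779556156211202)) (.alt (nat_lit 20) (.cov (nat_lit 25283568629013540765697)) (.alt (nat_lit 20) (.cov (nat_lit 29120491510694303236096)) (.alt (nat_lit 20) (.exp (.alt (nat_lit 21) (.cov (nat_lit 102100422613769277931523)) (.alt (nat_lit 21) (.cov (nat_lit 7800666917762143092737)) (.alt (nat_lit 21) (.cov (nat_lit 7800666933155305881600)) (.alt (nat_lit 21) (.exp (.alt (nat_lit 23) (.cov (nat_lit 71481142081724874753)) (.alt (nat_lit 29) (.cov (nat_lit 3555721231)) .e))) .e))))) .e))))) .e)) .e)) .e)) .e)) (.alt (nat_lit 16) (.cov (nat_lit 260563558759896449027)) (.alt (nat_lit 16) (.cov (nat_lit 6384886430542224949249)) (.alt (nat_lit 16) (.exp (.alt (nat_lit 17) (.exp (.alt (nat_lit 18) (.exp (.alt (nat_lit 19) (.cov (nat_lit 55604226001290503988058894938144768))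 (.alt (nat_lit 2) (.cov (nat_lit 428886832855465852935)) .e))) (.alt (nat_lit 18) (.cov (nat_lit 29122797441664637992966)) (.alt (nat_lit 18) (.exp (.alt (nat_lit 22) (.exp (.alt (nat_lit 20) (.exp (.alt (nat_lit 6) (.exp (.alt (nat_lit 19) (.cov (nat_lit 1611784274445276807171)) (.alt (nat_lit 19) (.cov (nat_lit 2635578577123466543105)) (.alt (nat_lit 19) (.cov (nat_lit 2635578592516629331968)) (.alt (nat_lit 19) (.exp (.alt (nat_lit 27) (.cov (nat_lit 661776954640076636161)) (.alt (nat_lit 27) (.exp (.alt (nat_lit 31) (.cov (nat_lit 2649413628581682085888)) (.alt (nat_lit 25) (.cov (nat_lit 835715080)) .e))) .e))) .e))))) .e)) .e)) .e)) (.alt (nat_lit 18) (.cov (nat_lit 2847717963559052771329)) (.alt (nat_lit 18) (.cov (nat_lit 5135117263350525853696)) (.alt (nat_lit 18) (.exp (.alt (nat_lit 19) (.cov (nat_lit 10161850174590730371079)) (.alt (nat_lit 19) (.exp (.alt (nat_lit 27) (.exp (.alt (nat_lit 25) (.exp (.alt (nat_lit 29) (.exp (.alt (nat_lit 23) (.cov (nat_lit 365370048190742776512513))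 (.alt (nat_lit 23) (.exp (.alt (nat_lit 22) (.cov (nat_lit 25304321194106199998464)) (.alt (nat_lit 21) (.cov (nat_lit 12134121480)) .e))) .e))) .e)) .e)) .e)) (.alt (nat_lit 19) (.cov (nat_lit 10235637537913057574913)) (.alt (nat_lit 19) (.exp (.alt (nat_lit 27) (.exp (.alt (nat_lit 23) (.cov (nat_lit 404329571683213453033474)) (.alt (nat_lit 23) (.cov (nat_lit 6394102697534929502209)) (.alt (nat_lit 23) (.cov (nat_lit 10231025579215725527040)) (.alt (nat_lit 23) (.exp (.alt (nat_lit 21) (.cov (nat_lit 404324959988398964080643)) (.alt (nat_lit 21) (.cov (nat_lit 26683215320213116420097)) (.alt (nat_lit 21) (.cov (nat_lit 26683215335606245654528)) (.alt (nat_lit 21) (.exp (.alt (nat_lit 20) (.cov (nat_lit 64563613054114201601)) (.alt (nat_lit 29) (.cov (nat_lit 12142510095)) .e))) .e))))) .e))))) .e)) (.alt (nat_lit 19) (.exp (.alt (nat_lit 23) (.exp (.alt (nat_lit 22) (.exp (.alt (nat_lit 20) (.exp (.alt (nat_lit 6) (.exp (.alt (nat_lit 31) (.cov (nat_lit 66869458262341713920))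 (.alt (nat_lit 21) (.cov (nat_lit 63963144)) .e))) .e)) .e)) .e)) (.alt (nat_lit 27) (.cov (nat_lit 102340230423067543732225)) (.alt (nat_lit 27) (.exp (.alt (nat_lit 31) (.cov (nat_lit 365388494943622351814659)) (.alt (nat_lit 31) (.exp (.alt (nat_lit 23) (.exp (.alt (nat_lit 30) (.cov (nat_lit 404329571674417356865537)) (.alt (nat_lit 29) (.cov (nat_lit 12142510095)) .e))) .e)) (.alt (nat_lit 26) (.cov (nat_lit 156596437183)) .e)))) .e)))) .e)))))) .e))))))) .e)) (.alt (nat_lit 16) (.exp (.alt (nat_lit 17) (.cov (nat_lit 6610852050355079872523)) (.alt (nat_lit 17) (.exp (.alt (nat_lit 19) (.exp (.alt (nat_lit 18) (.exp (.alt (nat_lit 27) (.exp (.alt (nat_lit 21) (.cov (nat_lit 7800666917765028773891)) (.alt (nat_lit 21) (.exp (.alt (nat_lit 20) (.exp (.alt (nat_lit 23) (.cov (nat_lit 71481142081724874753)) (.alt (nat_lit 29) (.cov (nat_lit 3555721231)) .e))) .e)) (.alt (nat_lit 21) (.cov (nat_lit 183966368101)) .e)))) .e)) .e)) .e)) (.alt (nat_lit 17) (.cov (nat_lit 48427613612437143553))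 (.alt (nat_lit 17) (.exp (.alt (nat_lit 19) (.exp (.alt (nat_lit 18) (.exp (.alt (nat_lit 22) (.exp (.alt (nat_lit 20) (.exp (.alt (nat_lit 6) (.exp (.alt (nat_lit 27) (.cov (nat_lit 661776954640076636161)) (.alt (nat_lit 27) (.exp (.alt (nat_lit 31) (.cov (nat_lit 2649413628581682085888)) (.alt (nat_lit 25) (.cov (nat_lit 835715080)) .e))) .e))) .e)) .e)) .e)) .e)) (.alt (nat_lit 19) (.cov (nat_lit 10235637537922812477443)) (.alt (nat_lit 19) (.exp (.alt (nat_lit 18) (.exp (.alt (nat_lit 23) (.exp (.alt (nat_lit 22) (.exp (.alt (nat_lit 20) (.exp (.alt (nat_lit 6) (.exp (.alt (nat_lit 31) (.cov (nat_lit 66869458262341713920)) (.alt (nat_lit 21) (.cov (nat_lit 63963144)) .e))) .e)) .e)) .e)) (.alt (nat_lit 27) (.cov (nat_lit 102340230423067543732225)) (.alt (nat_lit 27) (.exp (.alt (nat_lit 31) (.cov (nat_lit 365388494943622351814659)) (.alt (nat_lit 31) (.exp (.alt (nat_lit 23) (.exp (.alt (nat_lit 30) (.cov (nat_lit 404329571674417356865537)) (.alt (nat_lit 29) (.cov (nat_lit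 12142510095)) .e))) .e)) (.alt (nat_lit 26) (.cov (nat_lit 156596437183)) .e)))) .e)))) .e)) (.alt (nat_lit 25) (.cov (nat_lit 732957847)) .e))))) .e))))) .e)))))))) .e)))))))) .e)) (.alt (nat_lit 8) (.exp (.alt (nat_lit 12) (.cov (nat_lit 384167282240239211380754)) (.alt (nat_lit 12) (.cov (nat_lit 104662219072243201212427)) (.alt (nat_lit 12) (.cov (nat_lit 6557826536564259291138)) (.alt (nat_lit 12) (.cov (nat_lit 64574583990877421569)) (.alt (nat_lit 12) (.exp (.alt (nat_lit 28) (.cov (nat_lit 23238286266869707964450)) (.alt (nat_lit 4) (.cov (nat_lit 1448072706132400930823)) (.alt (nat_lit 4) (.cov (nat_lit 6391803887022721990659)) (.alt (nat_lit 4) (.cov (nat_lit 46127839907395141632)) (.alt (nat_lit 13) (.cov (nat_lit 634394719)) .e)))))) .e)))))) .e))))))))) .e)))))))))) .e)) .e)) .e)) .e)) .e)) .e)) .e)))])]) (by decide +kernel)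
  exact h _ List.mem_cons_self

theorem t3_18 : GF FULL [0, 3] [18, 6] := by
  have h := JT.chkW_ok (zs := [0, 3]) good (by decide) (by decide)
    (L := [([18, 6], [.cov (nat_lit 375852450084250721868),
      .cov (nat_lit 1335083181499566005836),
      .cov (nat_lit 21847862595862633913372),
      .cov (nat_lit 375852450084250722218),
      .cov (nat_lit 1335083181499566006186),
      .cov (nat_lit 21847862595862633914363),
      .cov (nat_lit 375852450084250722220),
      .cov (nat_lit 1335083181499566006188),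
      .cov (nat_lit 21847862595862633914364),
      .cov (nat_lit 375852450084250722295),
      .cov (nat_lit 1335083181499566006263),
      .cov (nat_lit 1408870162192450723837),
      .cov (nat_lit 375852450084250722297),
      .cov (nat_lit 1335083181499566006265),
      .cov (nat_lit 228278532678946398206),
      .cov (nat_lit 375852450084250722221),
      .cov (nat_lit 1335083181499566006189),
      .rot (.exp (.alt (nat_lit 3) (.exp (.alt (nat_lit 1) (.exp (.alt (nat_lit 5) (.exp (.alt (nat_lit 7) (.exp (.alt (nat_lit 6) (.exp (.alt (nat_lit 15) (.exp (.alt (nat_lit 0) (.cov (nat_lit 26507976106956344525265)) (.alt (nat_lit 0) (.cov (nat_lit 7826036055102954930393)) (.alt (nat_lit 0) (.cov (nat_lit 343865763343481488539741)) (.alt (nat_lit 0) (.cov (nat_lit 343865765294015116214308)) (.alt (nat_lit 0) (.cov (nat_lit 4619334221318586384)) (.alt (nat_lit 0) (.cov (nat_lit 343865765294015283986450)) (.alt (nat_lit 0) (.cov (nat_lit 373557556012010962955)) (.alt (nat_lit 0)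 (.cov (nat_lit 10187228141009437196294)) (.alt (nat_lit 0) (.cov (nat_lit 2960717821391394570243)) (.alt (nat_lit 0) (.cov (nat_lit 4625603636787937282)) (.alt (nat_lit 0) (.cov (nat_lit 378173985323424415745)) (.alt (nat_lit 0) (.cov (nat_lit 1775516075961895354368)) (.alt (nat_lit 0) (.exp (.alt (nat_lit 4) (.exp (.alt (nat_lit 12) (.cov (nat_lit 263675386838244067422609325686786)) (.alt (nat_lit 12) (.cov (nat_lit 894636811310129501643047302330318849)) (.alt (nat_lit 12) (.cov (nat_lit 894636811310129501643069292568117248)) (.alt (nat_lit 12) (.cov (nat_lit 3071385689832873263197)) .e))))) (.alt (nat_lit 4) (.cov (nat_lit 47915421027796609138726)) (.alt (nat_lit 4) (.cov (nat_lit 350146875931453735043166)) (.alt (nat_lit 4) (.cov (nat_lit 45406667602897835917346)) (.alt (nat_lit 4) (.cov (nat_lit 45406667602897802362916)) (.alt (nat_lit 4) (.cov (nat_lit 396614022376384888847)) (.alt (nat_lit 4) (.cov (nat_lit 396615983904961069063)) (.alt (nat_lit 4) (.cov (nat_lit 46127839907569205254))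 (.alt (nat_lit 4) (.cov (nat_lit 46130579890545623043)) (.alt (nat_lit 4) (.cov (nat_lit 25428851076225772290050)) (.alt (nat_lit 4) (.cov (nat_lit 2997611324931812884481)) (.alt (nat_lit 4) (.cov (nat_lit 415068566385405722624)) (.alt (nat_lit 4) (.cov (nat_lit 281026079)) .e)))))))))))))) .e)))))))))))))) .e)) .e)) .e)) .e)) .e)) (.alt (nat_lit 3) (.exp (.alt (nat_lit 1) (.exp (.alt (nat_lit 5) (.exp (.alt (nat_lit 9) (.exp (.alt (nat_lit 11) (.exp (.alt (nat_lit 10) (.exp (.alt (nat_lit 0) (.cov (nat_lit 2813133353072350724561)) (.alt (nat_lit 0) (.cov (nat_lit 26720113701187835920601)) (.alt (nat_lit 0) (.cov (nat_lit 103310998591676266578013)) (.alt (nat_lit 0) (.cov (nat_lit 9233905358433419299)) (.alt (nat_lit 0) (.cov (nat_lit 9229054313131671568)) (.alt (nat_lit 0) (.cov (nat_lit 599528222580180779026)) (.alt (nat_lit 0) (.cov (nat_lit 9234362755102801931)) (.alt (nat_lit 0) (.cov (nat_lit 9237830614776807430)) (.alt (nat_lit 0) (.cov (nat_lit 4627167142163251203))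 (.alt (nat_lit 0) (.cov (nat_lit 9239015888311549954)) (.alt (nat_lit 0) (.cov (nat_lit 21490472577684035600385)) (.alt (nat_lit 0) (.cov (nat_lit 83027305000018640896)) (.alt (nat_lit 0) (.exp (.alt (nat_lit 2) (.exp (.alt (nat_lit 6) (.cov (nat_lit 3985497549108339425274987930451970)) (.alt (nat_lit 6) (.cov (nat_lit 58666875881226390524447246319091713)) (.alt (nat_lit 6) (.cov (nat_lit 58666875881226390524469236544307200)) (.alt (nat_lit 6) (.cov (nat_lit 21956239935293033021533)) .e))))) (.alt (nat_lit 2) (.cov (nat_lit 4219696003199824560166)) (.alt (nat_lit 2) (.cov (nat_lit 23109161934675788169310)) (.alt (nat_lit 2) (.cov (nat_lit 365333161759261786636322)) (.alt (nat_lit 2) (.cov (nat_lit 365333161759261249765412)) (.alt (nat_lit 2) (.cov (nat_lit 6359524044205713260559)) (.alt (nat_lit 2) (.cov (nat_lit 6359526005731839967239)) (.alt (nat_lit 2) (.cov (nat_lit 41516153891853434886)) (.alt (nat_lit 2) (.cov (nat_lit 41518893874829852675)) (.alt (nat_lit 2) (.cov (nat_lit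 25424239390210056519682)) (.alt (nat_lit 2) (.cov (nat_lit 2992999638913379205121)) (.alt (nat_lit 2) (.cov (nat_lit 410456880366972043264)) (.alt (nat_lit 2) (.cov (nat_lit 6299167)) .e)))))))))))))) .e)))))))))))))) .e)) .e)) .e)) .e)) (.alt (nat_lit 1) (.exp (.alt (nat_lit 5) (.exp (.alt (nat_lit 7) (.exp (.alt (nat_lit 6) (.exp (.alt (nat_lit 15) (.exp (.alt (nat_lit 0) (.cov (nat_lit 347628896942092051284433)) (.alt (nat_lit 0) (.cov (nat_lit 102277977398514857017561)) (.alt (nat_lit 0) (.cov (nat_lit 343865763343481488539741)) (.alt (nat_lit 0) (.cov (nat_lit 343865765294015116214308)) (.alt (nat_lit 0) (.cov (nat_lit 9231020239913746448)) (.alt (nat_lit 0) (.cov (nat_lit 343865765294015116214290)) (.alt (nat_lit 0) (.cov (nat_lit 9234360556079546379)) (.alt (nat_lit 0) (.cov (nat_lit 10191839827027696812038)) (.alt (nat_lit 0) (.cov (nat_lit 25387346929003614175235)) (.alt (nat_lit 0) (.cov (nat_lit 9237289655047553026)) (.alt (nat_lit 0) (.cov (nat_lit 4627417830805995521))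 (.alt (nat_lit 0) (.cov (nat_lit 21850185314176312803328)) (.alt (nat_lit 0) (.exp (.alt (nat_lit 2) (.exp (.alt (nat_lit 10) (.cov (nat_lit 3011941888133414344748935896104962)) (.alt (nat_lit 10) (.cov (nat_lit 105397547608033502724632394044801025)) (.alt (nat_lit 10) (.cov (nat_lit 105397547608033502724654384280502272)) (.alt (nat_lit 10) (.cov (nat_lit 25498014797488210313309)) .e))))) (.alt (nat_lit 2) (.cov (nat_lit 406810662039871048122406)) (.alt (nat_lit 2) (.cov (nat_lit 29021343410299431026782)) (.alt (nat_lit 2) (.cov (nat_lit 404301908614973013098530)) (.alt (nat_lit 2) (.cov (nat_lit 404301908614972409118756)) (.alt (nat_lit 2) (.cov (nat_lit 23067454883596599311)) (.alt (nat_lit 2) (.cov (nat_lit 23069416412340551687)) (.alt (nat_lit 2) (.cov (nat_lit 41516153888971948038)) (.alt (nat_lit 2) (.cov (nat_lit 41518893871948365827)) (.alt (nat_lit 2) (.cov (nat_lit 2992998596576360267778)) (.alt (nat_lit 2) (.cov (nat_lit 25424240432544198164481)) (.alt (nat_lit 2)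 (.cov (nat_lit 41521998892785205248)) (.alt (nat_lit 2) (.cov (nat_lit 2963283487)) .e)))))))))))))) .e)))))))))))))) .e)) .e)) .e)) .e)) .e))) .e))),
      .cov (nat_lit 375852450084250722082),
      .cov (nat_lit 1335083181499566006050),
      .rot (.exp (.alt (nat_lit 3) (.exp (.alt (nat_lit 1) (.exp (.alt (nat_lit 5) (.exp (.alt (nat_lit 7) (.exp (.alt (nat_lit 6) (.exp (.alt (nat_lit 15) (.exp (.alt (nat_lit 0) (.cov (nat_lit 7826036055102954930393)) (.alt (nat_lit 0) (.cov (nat_lit 343865765294015283986450)) (.alt (nat_lit 0) (.cov (nat_lit 1494198426171214921739)) (.alt (nat_lit 0) (.exp (.alt (nat_lit 4) (.exp (.alt (nat_lit 12) (.exp (.alt (nat_lit 20) (.exp (.alt (nat_lit 16) (.cov (nat_lit 344345372969739088822306)) (.alt (nat_lit 2) (.cov (nat_lit 343870371260374058008583)) (.alt (nat_lit 2) (.cov (nat_lit 6387192200983696375811)) (.alt (nat_lit 2) (.exp (.alt (nat_lit 10) (.exp (.alt (nat_lit 18) (.cov (nat_lit 42028600764234219913227)) (.alt (nat_lit 18) (.exp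 (.alt (nat_lit 19) (.exp (.alt (nat_lit 17) (.exp (.alt (nat_lit 23) (.exp (.alt (nat_lit 26) (.cov (nat_lit 406849858092284724117507)) (.alt (nat_lit 26) (.exp (.alt (nat_lit 27) (.exp (.alt (nat_lit 24) (.cov (nat_lit 64563613210466320385)) (.alt (nat_lit 30) (.cov (nat_lit 47575990287)) .e))) .e)) (.alt (nat_lit 16) (.cov (nat_lit 360710335)) .e)))) .e)) .e)) .e)) (.alt (nat_lit 18) (.cov (nat_lit 1830844259734656122881)) (.alt (nat_lit 18) (.exp (.alt (nat_lit 19) (.exp (.alt (nat_lit 17) (.exp (.alt (nat_lit 25) (.exp (.alt (nat_lit 9) (.exp (.alt (nat_lit 29) (.exp (.alt (nat_lit 27) (.cov (nat_lit 6417161103437864108033)) (.alt (nat_lit 23) (.cov (nat_lit 200278031)) .e))) .e)) .e)) .e)) .e)) (.alt (nat_lit 16) (.cov (nat_lit 793210415183674998787)) (.alt (nat_lit 16) (.exp (.alt (nat_lit 17) (.exp (.alt (nat_lit 24) (.cov (nat_lit 654859447785908862978)) (.alt (nat_lit 24) (.cov (nat_lit 406919033507904787316737)) (.alt (nat_lit 24) (.exp (.alt (nat_lit 26) (.cov (nat_lit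 26551782268690789040131)) (.alt (nat_lit 25) (.exp (.alt (nat_lit 9) (.exp (.alt (nat_lit 27) (.cov (nat_lit 71481142082341437441)) (.alt (nat_lit 27) (.exp (.alt (nat_lit 31) (.cov (nat_lit 142962277566389420032)) (.alt (nat_lit 19) (.cov (nat_lit 9788456968)) .e))) .e))) .e)) (.alt (nat_lit 26) (.cov (nat_lit 12141462096)) .e)))) .e)))) .e)) (.alt (nat_lit 16) (.cov (nat_lit 156482145426)) .e))))) .e))))) .e)) (.alt (nat_lit 2) (.cov (nat_lit 1386223707)) .e)))))) .e)) .e)) .e)) (.alt (nat_lit 0) (.cov (nat_lit 36906139128216682497)) (.alt (nat_lit 0) (.exp (.alt (nat_lit 4) (.cov (nat_lit 47915421027796609138726)) (.alt (nat_lit 4) (.cov (nat_lit 45406667602897835917346)) (.alt (nat_lit 4) (.cov (nat_lit 46127839908005412871)) (.alt (nat_lit 4) (.cov (nat_lit 46130579890545623043)) (.alt (nat_lit 4) (.exp (.alt (nat_lit 12) (.exp (.alt (nat_lit 20) (.cov (nat_lit 22053084387345833132052)) (.alt (nat_lit 20) (.cov (nat_lit 22053085836455819870219)) (.alt (nat_lit 20) (.exp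 (.alt (nat_lit 21) (.exp (.alt (nat_lit 17) (.exp (.alt (nat_lit 23) (.exp (.alt (nat_lit 16) (.exp (.alt (nat_lit 18) (.exp (.alt (nat_lit 26) (.exp (.alt (nat_lit 10) (.exp (.alt (nat_lit 30) (.exp (.alt (nat_lit 24) (.cov (nat_lit 1607172586218046095361)) (.alt (nat_lit 24) (.exp (.alt (nat_lit 25) (.cov (nat_lit 3013736824037423710208)) (.alt (nat_lit 8) (.cov (nat_lit 1754267656)) .e))) .e))) .e)) .e)) .e)) .e)) (.alt (nat_lit 16) (.cov (nat_lit 10164156404628698693635)) (.alt (nat_lit 16) (.exp (.alt (nat_lit 18) (.exp (.alt (nat_lit 24) (.cov (nat_lit 64563637243340652546)) (.alt (nat_lit 24) (.cov (nat_lit 25594857549606569377793)) (.alt (nat_lit 24) (.exp (.alt (nat_lit 8) (.cov (nat_lit 22749447146660024025091)) (.alt (nat_lit 25) (.exp (.alt (nat_lit 9) (.exp (.alt (nat_lit 27) (.cov (nat_lit 45438942348361212100609)) (.alt (nat_lit 29) (.cov (nat_lit 47579136015)) .e))) .e)) (.alt (nat_lit 25) (.exp (.alt (nat_lit 27) (.cov (nat_lit 71481142081729069058)) (.alt (nat_lit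 9) (.cov (nat_lit 165535547459)) .e))) .e)))) .e)))) .e)) (.alt (nat_lit 16) (.exp (.alt (nat_lit 24) (.cov (nat_lit 102065835219320424103938)) (.alt (nat_lit 18) (.cov (nat_lit 362809512)) .e))) .e))))) .e)) .e)) .e)) (.alt (nat_lit 20) (.cov (nat_lit 138363600969534537729)) (.alt (nat_lit 20) (.exp (.alt (nat_lit 16) (.cov (nat_lit 344345372969739088822306)) (.alt (nat_lit 21) (.cov (nat_lit 22055391679465470820359)) (.alt (nat_lit 21) (.cov (nat_lit 345389925614353357209603)) (.alt (nat_lit 21) (.exp (.alt (nat_lit 17) (.exp (.alt (nat_lit 23) (.cov (nat_lit 365363130800253611016203)) (.alt (nat_lit 23) (.cov (nat_lit 344333844256069698715650)) (.alt (nat_lit 23) (.cov (nat_lit 22060003365483290034177)) (.alt (nat_lit 23) (.exp (.alt (nat_lit 19) (.exp (.alt (nat_lit 18) (.exp (.alt (nat_lit 26) (.exp (.alt (nat_lit 10) (.exp (.alt (nat_lit 30) (.exp (.alt (nat_lit 27) (.cov (nat_lit 426580965500671492097)) (.alt (nat_lit 27) (.exp (.alt (nat_lit 25) (.cov (nat_lit 21896285226488363483136))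 (.alt (nat_lit 11) (.cov (nat_lit 10344202248)) .e))) .e))) .e)) .e)) .e)) .e)) (.alt (nat_lit 19) (.cov (nat_lit 29060539865134920630275)) (.alt (nat_lit 19) (.exp (.alt (nat_lit 18) (.exp (.alt (nat_lit 27) (.cov (nat_lit 71481166270984880130)) (.alt (nat_lit 27) (.cov (nat_lit 6712309147155666305025)) (.alt (nat_lit 27) (.exp (.alt (nat_lit 11) (.cov (nat_lit 3859981215181443170307)) (.alt (nat_lit 25) (.exp (.alt (nat_lit 9) (.exp (.alt (nat_lit 24) (.cov (nat_lit 45438942348361175400449)) (.alt (nat_lit 29) (.cov (nat_lit 185014943759)) .e))) .e)) (.alt (nat_lit 25) (.exp (.alt (nat_lit 24) (.cov (nat_lit 64563613054084841474)) (.alt (nat_lit 9) (.cov (nat_lit 28093448259)) .e))) .e)))) .e)))) .e)) (.alt (nat_lit 19) (.exp (.alt (nat_lit 27) (.cov (nat_lit 404304207652004821991426)) (.alt (nat_lit 18) (.cov (nat_lit 362809512)) .e))) .e))))) .e))))) .e)) (.alt (nat_lit 21) (.cov (nat_lit 185604523)) .e)))))) .e)))))) .e)) (.alt (nat_lit 4) (.cov (nat_lit 281026079)) .e)))))))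 .e))))))) .e)) .e)) .e)) .e)) .e)) (.alt (nat_lit 3) (.exp (.alt (nat_lit 1) (.exp (.alt (nat_lit 5) (.exp (.alt (nat_lit 9) (.exp (.alt (nat_lit 11) (.exp (.alt (nat_lit 15) (.exp (.alt (nat_lit 0) (.cov (nat_lit 1641761339665155096793)) (.alt (nat_lit 0) (.cov (nat_lit 627198316712546009108)) (.alt (nat_lit 0) (.cov (nat_lit 36904467871276466187)) (.alt (nat_lit 0) (.exp (.alt (nat_lit 2) (.exp (.alt (nat_lit 10) (.exp (.alt (nat_lit 6) (.exp (.alt (nat_lit 16) (.cov (nat_lit 48016875608918625091618)) (.alt (nat_lit 8) (.cov (nat_lit 645639338935302750215)) (.alt (nat_lit 8) (.cov (nat_lit 6401027259222791815171)) (.alt (nat_lit 8) (.cov (nat_lit 55351211944256208896)) (.alt (nat_lit 8) (.cov (nat_lit 25172060)) .e)))))) .e)) .e)) .e)) (.alt (nat_lit 0) (.cov (nat_lit 110696719622204293121)) (.alt (nat_lit 0) (.exp (.alt (nat_lit 2) (.cov (nat_lit 43105432510595799711782)) (.alt (nat_lit 2) (.cov (nat_lit 27757746580367943401506)) (.alt (nat_lit 2) (.cov (nat_lit 41516153889068417031))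 (.alt (nat_lit 2) (.cov (nat_lit 631814697645055672323)) (.alt (nat_lit 2) (.exp (.alt (nat_lit 10) (.exp (.alt (nat_lit 6) (.cov (nat_lit 41648138279597465665554)) (.alt (nat_lit 6) (.cov (nat_lit 6673114552695271718923)) (.alt (nat_lit 6) (.cov (nat_lit 50737564580931698690)) (.alt (nat_lit 6) (.cov (nat_lit 50739525925864472577)) (.alt (nat_lit 6) (.exp (.alt (nat_lit 22) (.cov (nat_lit 1987637093955700523042)) (.alt (nat_lit 4) (.cov (nat_lit 119907132825319505927)) (.alt (nat_lit 4) (.cov (nat_lit 46123925666642526211)) (.alt (nat_lit 4) (.cov (nat_lit 46127839907401433088)) (.alt (nat_lit 7) (.cov (nat_lit 628103263)) .e)))))) .e)))))) .e)) (.alt (nat_lit 2) (.cov (nat_lit 11486109215)) .e))))))) .e))))))) .e)) .e)) .e)) .e)) (.alt (nat_lit 1) (.exp (.alt (nat_lit 5) (.exp (.alt (nat_lit 7) (.exp (.alt (nat_lit 6) (.exp (.alt (nat_lit 15) (.exp (.alt (nat_lit 0) (.cov (nat_lit 102277977398514857017561)) (.alt (nat_lit 0) (.cov (nat_lit 343865765294015116214290)) (.alt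 (nat_lit 0) (.cov (nat_lit 21564255978367039307787)) (.alt (nat_lit 0) (.exp (.alt (nat_lit 2) (.exp (.alt (nat_lit 10) (.exp (.alt (nat_lit 18) (.exp (.alt (nat_lit 16) (.cov (nat_lit 23224452134612343193634)) (.alt (nat_lit 4) (.cov (nat_lit 22754062111256612962311)) (.alt (nat_lit 4) (.cov (nat_lit 6391803887002696286211)) (.alt (nat_lit 4) (.exp (.alt (nat_lit 12) (.exp (.alt (nat_lit 20) (.cov (nat_lit 365515316526823346536459)) (.alt (nat_lit 20) (.exp (.alt (nat_lit 21) (.exp (.alt (nat_lit 17) (.exp (.alt (nat_lit 23) (.exp (.alt (nat_lit 28) (.cov (nat_lit 47954617080209477730307)) (.alt (nat_lit 28) (.exp (.alt (nat_lit 29) (.exp (.alt (nat_lit 24) (.cov (nat_lit 428886808666229964801)) (.alt (nat_lit 30) (.cov (nat_lit 4624220175)) .e))) .e)) (.alt (nat_lit 16) (.cov (nat_lit 360710335)) .e)))) .e)) .e)) .e)) (.alt (nat_lit 20) (.cov (nat_lit 21905513497949648191489)) (.alt (nat_lit 20) (.exp (.alt (nat_lit 21) (.exp (.alt (nat_lit 17) (.exp (.alt (nat_lit 25) (.exp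 (.alt (nat_lit 9) (.exp (.alt (nat_lit 27) (.exp (.alt (nat_lit 29) (.cov (nat_lit 6417161103438436630529)) (.alt (nat_lit 23) (.cov (nat_lit 32505871)) .e))) .e)) .e)) .e)) .e)) (.alt (nat_lit 16) (.cov (nat_lit 793210415183037464579)) (.alt (nat_lit 16) (.exp (.alt (nat_lit 17) (.exp (.alt (nat_lit 24) (.cov (nat_lit 6553205865191329234946)) (.alt (nat_lit 24) (.cov (nat_lit 406919033507905355644929)) (.alt (nat_lit 24) (.exp (.alt (nat_lit 28) (.cov (nat_lit 347677314789845090959363)) (.alt (nat_lit 25) (.exp (.alt (nat_lit 9) (.exp (.alt (nat_lit 29) (.cov (nat_lit 440416023555964141569)) (.alt (nat_lit 29) (.exp (.alt (nat_lit 31) (.cov (nat_lit 1397340874578638929920)) (.alt (nat_lit 21) (.cov (nat_lit 661651464)) .e))) .e))) .e)) (.alt (nat_lit 28) (.cov (nat_lit 158172447312)) .e)))) .e)))) .e)) (.alt (nat_lit 16) (.cov (nat_lit 156482145426)) .e))))) .e))))) .e)) (.alt (nat_lit 4) (.cov (nat_lit 11588868187)) .e)))))) .e)) .e)) .e)) (.alt (nat_lit 0) (.cov (nat_lit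 36906139128216682497)) (.alt (nat_lit 0) (.exp (.alt (nat_lit 2) (.cov (nat_lit 406810662039871048122406)) (.alt (nat_lit 2) (.cov (nat_lit 404301908614973013098530)) (.alt (nat_lit 2) (.cov (nat_lit 41516153889005502471)) (.alt (nat_lit 2) (.cov (nat_lit 41518893871948365827)) (.alt (nat_lit 2) (.exp (.alt (nat_lit 10) (.exp (.alt (nat_lit 18) (.cov (nat_lit 1978415149088463912980)) (.alt (nat_lit 18) (.cov (nat_lit 1978416598241232551947)) (.alt (nat_lit 18) (.exp (.alt (nat_lit 19) (.exp (.alt (nat_lit 17) (.exp (.alt (nat_lit 23) (.exp (.alt (nat_lit 16) (.exp (.alt (nat_lit 20) (.exp (.alt (nat_lit 28) (.exp (.alt (nat_lit 12) (.exp (.alt (nat_lit 30) (.exp (.alt (nat_lit 24) (.cov (nat_lit 1607172586218046095361)) (.alt (nat_lit 24) (.exp (.alt (nat_lit 25) (.cov (nat_lit 25449589303686665863168)) (.alt (nat_lit 8) (.cov (nat_lit 1754267656)) .e))) .e))) .e)) .e)) .e)) .e)) (.alt (nat_lit 16) (.cov (nat_lit 104611486062031805612035)) (.alt (nat_lit 16) (.exp (.alt (nat_lit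 20) (.exp (.alt (nat_lit 24) (.cov (nat_lit 428886832699272069122)) (.alt (nat_lit 24) (.cov (nat_lit 3159005069957327224833)) (.alt (nat_lit 24) (.exp (.alt (nat_lit 8) (.cov (nat_lit 343874979667667726630915)) (.alt (nat_lit 25) (.exp (.alt (nat_lit 9) (.exp (.alt (nat_lit 29) (.cov (nat_lit 404343406732473246154753)) (.alt (nat_lit 27) (.cov (nat_lit 4629463055)) .e))) .e)) (.alt (nat_lit 25) (.exp (.alt (nat_lit 29) (.cov (nat_lit 440416023556089970690)) (.alt (nat_lit 9) (.cov (nat_lit 18938331203)) .e))) .e)))) .e)))) .e)) (.alt (nat_lit 16) (.exp (.alt (nat_lit 24) (.cov (nat_lit 7618505561927519830018)) (.alt (nat_lit 20) (.cov (nat_lit 3049261224)) .e))) .e))))) .e)) .e)) .e)) (.alt (nat_lit 18) (.cov (nat_lit 1978426322322062311425)) (.alt (nat_lit 18) (.exp (.alt (nat_lit 16) (.cov (nat_lit 23224452134612343193634)) (.alt (nat_lit 19) (.cov (nat_lit 1980722441250480848903)) (.alt (nat_lit 19) (.cov (nat_lit 24264393093198887518211)) (.alt (nat_lit 19) (.exp (.alt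 (nat_lit 17) (.exp (.alt (nat_lit 23) (.cov (nat_lit 41885638409701509038091)) (.alt (nat_lit 23) (.cov (nat_lit 23217535106952419344386)) (.alt (nat_lit 23) (.cov (nat_lit 1989945813287299973121)) (.alt (nat_lit 23) (.exp (.alt (nat_lit 21) (.exp (.alt (nat_lit 20) (.exp (.alt (nat_lit 28) (.exp (.alt (nat_lit 12) (.exp (.alt (nat_lit 30) (.exp (.alt (nat_lit 29) (.cov (nat_lit 57646084027052982273)) (.alt (nat_lit 29) (.exp (.alt (nat_lit 25) (.cov (nat_lit 1826227674292371324928)) (.alt (nat_lit 13) (.cov (nat_lit 156373090312)) .e))) .e))) .e)) .e)) .e)) .e)) (.alt (nat_lit 21) (.cov (nat_lit 350186072386299425193987)) (.alt (nat_lit 21) (.exp (.alt (nat_lit 20) (.exp (.alt (nat_lit 29) (.cov (nat_lit 440416047745345781762)) (.alt (nat_lit 29) (.cov (nat_lit 809351043569182310401)) (.alt (nat_lit 29) (.exp (.alt (nat_lit 13) (.cov (nat_lit 3864592901053271244803)) (.alt (nat_lit 25) (.exp (.alt (nat_lit 9) (.exp (.alt (nat_lit 24) (.cov (nat_lit 404343406732472636932097))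 (.alt (nat_lit 27) (.cov (nat_lit 185012846607)) .e))) .e)) (.alt (nat_lit 25) (.exp (.alt (nat_lit 24) (.cov (nat_lit 428886808510016258050)) (.alt (nat_lit 9) (.cov (nat_lit 1753219139)) .e))) .e)))) .e)))) .e)) (.alt (nat_lit 21) (.exp (.alt (nat_lit 29) (.cov (nat_lit 45408966639930045366274)) (.alt (nat_lit 20) (.cov (nat_lit 3049261224)) .e))) .e))))) .e))))) .e)) (.alt (nat_lit 19) (.cov (nat_lit 17832363)) .e)))))) .e)))))) .e)) (.alt (nat_lit 2) (.cov (nat_lit 2963283487)) .e))))))) .e))))))) .e)) .e)) .e)) .e)) .e))) .e)))])]) (by decide +kernel)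
  exact h _ List.mem_cons_self

theorem t3_20 : GF FULL [0, 3] [20, 4] := by
  have h := JT.chkW_ok (zs := [0, 3]) good (by decide) (by decide)
    (L := [([20, 4], [.cov (nat_lit 375852423696005210306),
      .cov (nat_lit 1335083117727891595388),
      .cov (nat_lit 375852423696005210306),
      .cov (nat_lit 1335083117727891595467),
      .cov (nat_lit 375852423696005210306),
      .cov (nat_lit 1335083117727891595468),
      .cov (nat_lit 375852423696005210306),
      .cov (nat_lit 25389637389845146902733),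
      .cov (nat_lit 375852423696005210306),
      .cov (nat_lit 26644015986857396412622),
      .cov (nat_lit 375852423696005210306),
      .rot (.exp (.alt (nat_lit 3) (.exp (.alt (nat_lit 1) (.exp (.alt (nat_lit 5) (.exp (.alt (nat_lit 9) (.exp (.alt (nat_lit 0) (.exp (.alt (nat_lit 2) (.cov (nat_lit 47400010025606838537662376896888838)) (.alt (nat_lit 2) (.cov (nat_lit 17057524963566039597485362530746371)) (.alt (nat_lit 2) (.cov (nat_lit 894575973525447985633570891673632769)) (.alt (nat_lit 2) (.cov (nat_lit 894575973525446657468129525981249536)) (.alt (nat_lit 2) (.exp (.alt (nat_lit 6) (.cov (nat_lit 40586134987405514548899777347586)) (.alt (nat_lit 6) (.cov (nat_lit 40572720746511070634572353896449)) (.alt (nat_lit 6) (.cov (nat_lit 894575973525446666691334437066506240)) (.alt (nat_lit 6) (.cov (nat_lit 406806054127376531456093)) .e))))) .e)))))) (.alt (nat_lit 0) (.cov (nat_lit 406806056075722739417553)) (.alt (nat_lit 0) (.cov (nat_lit 4298102351096480530526)) (.alt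 (nat_lit 0) (.cov (nat_lit 4618837242071220451)) (.alt (nat_lit 0) (.cov (nat_lit 4619160499093766361)) (.alt (nat_lit 0) (.cov (nat_lit 668705461191196016733)) (.alt (nat_lit 0) (.cov (nat_lit 2956104455319208329251)) (.alt (nat_lit 0) (.cov (nat_lit 4627169341354278928)) (.alt (nat_lit 0) (.cov (nat_lit 4628290843046838279)) (.alt (nat_lit 0) (.cov (nat_lit 4625445306954154002)) (.alt (nat_lit 0) (.cov (nat_lit 4626525027372630027)) (.alt (nat_lit 0) (.cov (nat_lit 9239653605055660038)) (.alt (nat_lit 0) (.cov (nat_lit 4628655880907259907)) (.alt (nat_lit 0) (.cov (nat_lit 9240942232683413506)) (.alt (nat_lit 0) (.exp (.alt (nat_lit 2) (.exp (.alt (nat_lit 6) (.exp (.alt (nat_lit 4) (.exp (.alt (nat_lit 12) (.cov (nat_lit 101416110009413473970561325465602)) (.alt (nat_lit 12) (.cov (nat_lit 22330939076279640641544637042917377)) (.alt (nat_lit 12) (.cov (nat_lit 22330939076279640641566626665201664)) (.alt (nat_lit 12) (.cov (nat_lit 1890794069158417924189)) .e))))) (.alt (nat_lit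 4) (.cov (nat_lit 29025955096317927620646)) (.alt (nat_lit 4) (.cov (nat_lit 29025955096317860511838)) (.alt (nat_lit 4) (.cov (nat_lit 404306520300990838603810)) (.alt (nat_lit 4) (.cov (nat_lit 404306520300991442583588)) (.alt (nat_lit 4) (.cov (nat_lit 175253093491769606159)) (.alt (nat_lit 4) (.cov (nat_lit 175255055021050429447)) (.alt (nat_lit 4) (.cov (nat_lit 46127839908106076166)) (.alt (nat_lit 4) (.cov (nat_lit 1374296153197532676099)) (.alt (nat_lit 4) (.cov (nat_lit 636427041160671789058)) (.alt (nat_lit 4) (.cov (nat_lit 1817019704215005560833)) (.alt (nat_lit 4) (.cov (nat_lit 193707637500891103232)) (.alt (nat_lit 4) (.cov (nat_lit 2965380639)) .e)))))))))))))) .e)) .e)) (.alt (nat_lit 0) (.cov (nat_lit 378176254715417853952)) (.alt (nat_lit 0) (.exp (.alt (nat_lit 2) (.exp (.alt (nat_lit 6) (.cov (nat_lit 47308727649236786401732892018343942)) (.alt (nat_lit 6) (.cov (nat_lit 50513351853155814097318092690423811)) (.alt (nat_lit 6) (.cov (nat_lit 5770347983940513142664545406287874))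 (.alt (nat_lit 6) (.cov (nat_lit 8488199149553849700495846908362753)) (.alt (nat_lit 6) (.cov (nat_lit 769970981827345803607164770351841280)) (.alt (nat_lit 6) (.cov (nat_lit 406810662042070243344849)) .e))))))) (.alt (nat_lit 2) (.exp (.alt (nat_lit 6) (.cov (nat_lit 1389360696514592687442787567665154)) (.alt (nat_lit 6) (.cov (nat_lit 50026578964756924591747424858406913)) (.alt (nat_lit 6) (.cov (nat_lit 99840176811090032077680282903248896)) (.alt (nat_lit 6) (.cov (nat_lit 45402055916879377072221)) .e))))) (.alt (nat_lit 2) (.cov (nat_lit 23065906771224690726)) (.alt (nat_lit 2) (.cov (nat_lit 350142268078332839985618)) (.alt (nat_lit 2) (.cov (nat_lit 6368747411841635844190)) (.alt (nat_lit 2) (.cov (nat_lit 539579488526904852514)) (.alt (nat_lit 2) (.cov (nat_lit 13848115855392505892)) (.alt (nat_lit 2) (.cov (nat_lit 604144579324005056527)) (.alt (nat_lit 2) (.cov (nat_lit 13849899263252758535)) (.alt (nat_lit 2) (.cov (nat_lit 604144579324005056523)) (.alt (nat_lit 2)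 (.cov (nat_lit 530359324864375947270)) (.alt (nat_lit 2) (.cov (nat_lit 677934671634796380163)) (.alt (nat_lit 2) (.cov (nat_lit 6663902554006510108674)) (.alt (nat_lit 2) (.cov (nat_lit 613371197119172444161)) (.alt (nat_lit 2) (.cov (nat_lit 6368755431679436259328)) (.alt (nat_lit 2) (.exp (.alt (nat_lit 6) (.cov (nat_lit 404311129794583686283729)) (.alt (nat_lit 6) (.cov (nat_lit 45609579604079221407961)) (.alt (nat_lit 6) (.cov (nat_lit 343879598401536776994909)) (.alt (nat_lit 6) (.cov (nat_lit 343879600352071008649252)) (.alt (nat_lit 6) (.cov (nat_lit 9231020239752265744)) (.alt (nat_lit 6) (.cov (nat_lit 343879600352070572441618)) (.alt (nat_lit 6) (.cov (nat_lit 378169242030444642315)) (.alt (nat_lit 6) (.cov (nat_lit 10191839827027870875654)) (.alt (nat_lit 6) (.cov (nat_lit 606452108984655544323)) (.alt (nat_lit 6) (.cov (nat_lit 9237289655221616642)) (.alt (nat_lit 6) (.cov (nat_lit 1344322206184572452865)) (.alt (nat_lit 6) (.cov (nat_lit 1780127761980325888000))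 (.alt (nat_lit 6) (.exp (.alt (nat_lit 7) (.exp (.alt (nat_lit 15) (.cov (nat_lit 278887194042546181800816651796482)) (.alt (nat_lit 15) (.cov (nat_lit 63884525751759826748514878344921089)) (.alt (nat_lit 15) (.cov (nat_lit 63884525751759826748536867970351104)) (.alt (nat_lit 15) (.cov (nat_lit 717119977606086656093)) .e))))) (.alt (nat_lit 7) (.cov (nat_lit 10143406693867527864358)) (.alt (nat_lit 7) (.cov (nat_lit 10143406693866923884638)) (.alt (nat_lit 7) (.cov (nat_lit 102081982926361222709282)) (.alt (nat_lit 7) (.cov (nat_lit 102081982926361793134628)) (.alt (nat_lit 7) (.cov (nat_lit 1362762243237362008079)) (.alt (nat_lit 7) (.cov (nat_lit 1362764204766105960455)) (.alt (nat_lit 7) (.cov (nat_lit 53045368935213432838)) (.alt (nat_lit 7) (.cov (nat_lit 1381213682225713774595)) (.alt (nat_lit 7) (.cov (nat_lit 1823936190905190449154)) (.alt (nat_lit 7) (.cov (nat_lit 643345612525238484993)) (.alt (nat_lit 7) (.cov (nat_lit 1381216787245946634240)) (.alt (nat_lit 7) (.cov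 (nat_lit 11558460959)) .e)))))))))))))) .e)))))))))))))) .e))))))))))))))))) .e)))))))))))))))))) .e)) .e)) .e)) .e)),
      .cov (nat_lit 375852423696005210306),
      .rot (.exp (.alt (nat_lit 3) (.exp (.alt (nat_lit 7) (.exp (.alt (nat_lit 5) (.exp (.alt (nat_lit 15) (.exp (.alt (nat_lit 0) (.exp (.alt (nat_lit 1) (.exp (.alt (nat_lit 9) (.exp (.alt (nat_lit 11) (.exp (.alt (nat_lit 10) (.exp (.alt (nat_lit 27) (.exp (.alt (nat_lit 17) (.exp (.alt (nat_lit 19) (.exp (.alt (nat_lit 23) (.exp (.alt (nat_lit 18) (.exp (.alt (nat_lit 8) (.cov (nat_lit 21896285248490712334343)) (.alt (nat_lit 8) (.cov (nat_lit 26664768699284838154243)) (.alt (nat_lit 8) (.cov (nat_lit 43119264692309577433089)) (.alt (nat_lit 8) (.exp (.alt (nat_lit 24) (.exp (.alt (nat_lit 12) (.cov (nat_lit 64563622034018402306)) (.alt (nat_lit 12) (.cov (nat_lit 63120146567357384359937)) (.alt (nat_lit 12) (.cov (nat_lit 43123876105649076043776)) (.alt (nat_lit 12) (.exp (.alt (nat_lit 14) (.cov (nat_lit 69175299256354865155))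 (.alt (nat_lit 14) (.cov (nat_lit 1840062738944753664001)) (.alt (nat_lit 14) (.cov (nat_lit 1840062754337882898432)) (.alt (nat_lit 14) (.exp (.alt (nat_lit 30) (.cov (nat_lit 6410243574566548930561)) (.alt (nat_lit 6) (.cov (nat_lit 11498684431)) .e))) .e))))) .e))))) .e)) (.alt (nat_lit 8) (.exp (.alt (nat_lit 12) (.cov (nat_lit 63120146567201204207618)) (.alt (nat_lit 24) (.cov (nat_lit 26701662187432694513665)) (.alt (nat_lit 24) (.exp (.alt (nat_lit 28) (.cov (nat_lit 4233527782508592103427)) (.alt (nat_lit 28) (.cov (nat_lit 26664768701483698880512)) (.alt (nat_lit 26) (.cov (nat_lit 12144607423)) .e)))) .e)))) .e)))))) .e)) .e)) .e)) .e)) .e)) .e)) .e)) .e)) (.alt (nat_lit 1) (.exp (.alt (nat_lit 9) (.exp (.alt (nat_lit 17) (.exp (.alt (nat_lit 16) (.exp (.alt (nat_lit 18) (.exp (.alt (nat_lit 20) (.exp (.alt (nat_lit 19) (.exp (.alt (nat_lit 23) (.exp (.alt (nat_lit 27) (.exp (.alt (nat_lit 4) (.cov (nat_lit 22754058847934843191303)) (.alt (nat_lit 4) (.exp (.alt (nat_lit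 6) (.exp (.alt (nat_lit 2) (.exp (.alt (nat_lit 10) (.exp (.alt (nat_lit 12) (.cov (nat_lit 64563613210448494593)) (.alt (nat_lit 12) (.exp (.alt (nat_lit 28) (.cov (nat_lit 216749253861233917952)) (.alt (nat_lit 8) (.cov (nat_lit 629145608)) .e))) .e))) .e)) .e)) .e)) (.alt (nat_lit 4) (.cov (nat_lit 3864593303611962818561)) (.alt (nat_lit 4) (.exp (.alt (nat_lit 6) (.exp (.alt (nat_lit 12) (.cov (nat_lit 433498503345011163138)) (.alt (nat_lit 12) (.cov (nat_lit 26507971267062351790081)) (.alt (nat_lit 12) (.cov (nat_lit 61778146050187860115456)) (.alt (nat_lit 12) (.exp (.alt (nat_lit 8) (.cov (nat_lit 424275122512059170819)) (.alt (nat_lit 8) (.cov (nat_lit 1383505823121016881153)) (.alt (nat_lit 8) (.cov (nat_lit 1383505838513575690240)) (.alt (nat_lit 8) (.exp (.alt (nat_lit 24) (.cov (nat_lit 45438942348361776234497)) (.alt (nat_lit 10) (.cov (nat_lit 731906063)) .e))) .e))))) .e))))) .e)) (.alt (nat_lit 2) (.exp (.alt (nat_lit 10) (.cov (nat_lit 1609478453427997507586))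 (.alt (nat_lit 6) (.cov (nat_lit 26521806439320253366273)) (.alt (nat_lit 6) (.exp (.alt (nat_lit 14) (.cov (nat_lit 29067456991923867222019)) (.alt (nat_lit 14) (.exp (.alt (nat_lit 10) (.exp (.alt (nat_lit 12) (.cov (nat_lit 64563613210448494593)) (.alt (nat_lit 12) (.exp (.alt (nat_lit 28) (.cov (nat_lit 140656434557176774656)) (.alt (nat_lit 8) (.cov (nat_lit 629145608)) .e))) .e))) .e)) (.alt (nat_lit 22) (.cov (nat_lit 185017041087)) .e)))) .e)))) .e)))))) .e)) .e)) .e)) .e)) .e)) .e)) (.alt (nat_lit 17) (.exp (.alt (nat_lit 16) (.exp (.alt (nat_lit 18) (.exp (.alt (nat_lit 20) (.exp (.alt (nat_lit 21) (.exp (.alt (nat_lit 23) (.exp (.alt (nat_lit 29) (.exp (.alt (nat_lit 2) (.cov (nat_lit 343870367997025446789127)) (.alt (nat_lit 2) (.exp (.alt (nat_lit 6) (.exp (.alt (nat_lit 4) (.exp (.alt (nat_lit 12) (.exp (.alt (nat_lit 10) (.cov (nat_lit 428886808666212139009)) (.alt (nat_lit 10) (.exp (.alt (nat_lit 26) (.cov (nat_lit 1618701803463157743616)) (.alt (nat_lit 8)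 (.cov (nat_lit 58720264)) .e))) .e))) .e)) .e)) .e)) (.alt (nat_lit 2) (.cov (nat_lit 3859981617593535430657)) (.alt (nat_lit 2) (.exp (.alt (nat_lit 6) (.exp (.alt (nat_lit 10) (.cov (nat_lit 59951936015601500162)) (.alt (nat_lit 10) (.cov (nat_lit 347628892102198224224257)) (.alt (nat_lit 10) (.cov (nat_lit 3855369658739865944064)) (.alt (nat_lit 10) (.exp (.alt (nat_lit 8) (.cov (nat_lit 55340241201078992899)) (.alt (nat_lit 8) (.cov (nat_lit 129127226108199043073)) (.alt (nat_lit 8) (.cov (nat_lit 129127241501328277504)) (.alt (nat_lit 8) (.exp (.alt (nat_lit 24) (.cov (nat_lit 404343406732472669437953)) (.alt (nat_lit 12) (.cov (nat_lit 734003215)) .e))) .e))))) .e))))) .e)) (.alt (nat_lit 4) (.exp (.alt (nat_lit 12) (.cov (nat_lit 1614090139436224348162)) (.alt (nat_lit 6) (.cov (nat_lit 347642727274456127897601)) (.alt (nat_lit 6) (.exp (.alt (nat_lit 14) (.cov (nat_lit 350188377826896535093251)) (.alt (nat_lit 14) (.exp (.alt (nat_lit 12) (.exp (.alt (nat_lit 10) (.cov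 (nat_lit 428886808666212139009)) (.alt (nat_lit 10) (.exp (.alt (nat_lit 26) (.cov (nat_lit 1390423345550998896640)) (.alt (nat_lit 8) (.cov (nat_lit 58720264)) .e))) .e))) .e)) (.alt (nat_lit 22) (.cov (nat_lit 21808283839)) .e)))) .e)))) .e)))))) .e)) .e)) .e)) .e)) .e)) .e)) .e))) .e)) .e))) (.alt (nat_lit 0) (.cov (nat_lit 343865765294061509411033)) (.alt (nat_lit 0) (.cov (nat_lit 1715559383642864091229)) (.alt (nat_lit 0) (.exp (.alt (nat_lit 1) (.exp (.alt (nat_lit 9) (.exp (.alt (nat_lit 17) (.exp (.alt (nat_lit 19) (.exp (.alt (nat_lit 23) (.exp (.alt (nat_lit 18) (.exp (.alt (nat_lit 16) (.exp (.alt (nat_lit 20) (.exp (.alt (nat_lit 21) (.exp (.alt (nat_lit 29) (.exp (.alt (nat_lit 4) (.exp (.alt (nat_lit 6) (.exp (.alt (nat_lit 12) (.exp (.alt (nat_lit 24) (.cov (nat_lit 45438942348361205809153)) (.alt (nat_lit 24) (.exp (.alt (nat_lit 26) (.cov (nat_lit 438110182745728614400)) (.alt (nat_lit 25) (.cov (nat_lit 47574941704)) .e))) .e))) .e)) .e)) .e)) .e)) .e)) (.alt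 (nat_lit 20) (.cov (nat_lit 55340372959359401995)) .e))) (.alt (nat_lit 16) (.cov (nat_lit 4251974929016705515535)) (.alt (nat_lit 16) (.exp (.alt (nat_lit 20) (.exp (.alt (nat_lit 4) (.exp (.alt (nat_lit 6) (.exp (.alt (nat_lit 12) (.exp (.alt (nat_lit 24) (.cov (nat_lit 102107340151593010987010)) (.alt (nat_lit 24) (.cov (nat_lit 1607172610407335460865)) (.alt (nat_lit 24) (.cov (nat_lit 1976107606230702227456)) (.alt (nat_lit 24) (.exp (.alt (nat_lit 25) (.cov (nat_lit 102109645985806132707331)) (.alt (nat_lit 25) (.cov (nat_lit 104618403188626724749313)) (.alt (nat_lit 25) (.cov (nat_lit 104618403204019887538176)) (.alt (nat_lit 25) (.exp (.alt (nat_lit 27) (.cov (nat_lit 71481142081729069057)) (.alt (nat_lit 29) (.cov (nat_lit 47579136015)) .e))) .e))))) .e))))) .e)) .e)) .e)) .e)) (.alt (nat_lit 2) (.cov (nat_lit 3859984493943434772483)) (.alt (nat_lit 2) (.cov (nat_lit 43114659664933548982273)) (.alt (nat_lit 2) (.exp (.alt (nat_lit 6) (.exp (.alt (nat_lit 10) (.cov (nat_lit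 405565503551545150537739)) (.alt (nat_lit 10) (.cov (nat_lit 25341214816394058661894)) (.alt (nat_lit 10) (.exp (.alt (nat_lit 8) (.exp (.alt (nat_lit 12) (.exp (.alt (nat_lit 24) (.exp (.alt (nat_lit 26) (.cov (nat_lit 25304321191907903406083)) (.alt (nat_lit 26) (.cov (nat_lit 1840062738944775684097)) (.alt (nat_lit 26) (.cov (nat_lit 1840062754337904918528)) (.alt (nat_lit 26) (.exp (.alt (nat_lit 30) (.cov (nat_lit 6410243574410798694401)) (.alt (nat_lit 27) (.cov (nat_lit 300941327)) .e))) .e))))) .e)) .e)) .e)) (.alt (nat_lit 10) (.exp (.alt (nat_lit 8) (.exp (.alt (nat_lit 24) (.exp (.alt (nat_lit 26) (.cov (nat_lit 26706273750305922351107)) (.alt (nat_lit 26) (.exp (.alt (nat_lit 27) (.exp (.alt (nat_lit 30) (.cov (nat_lit 6410243574410210443265)) (.alt (nat_lit 30) (.exp (.alt (nat_lit 28) (.cov (nat_lit 343914178992208376496128)) (.alt (nat_lit 14) (.cov (nat_lit 157047324680)) .e))) .e))) .e)) (.alt (nat_lit 26) (.cov (nat_lit 3588227664)) .e)))) .e)) .e)) (.alt (nat_lit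 10) (.cov (nat_lit 6673114552695089266688)) (.alt (nat_lit 10) (.exp (.alt (nat_lit 8) (.cov (nat_lit 43119264305281450901511)) (.alt (nat_lit 8) (.cov (nat_lit 55340373124757585923)) (.alt (nat_lit 8) (.cov (nat_lit 1383506225541670764545)) (.alt (nat_lit 8) (.exp (.alt (nat_lit 12) (.exp (.alt (nat_lit 24) (.cov (nat_lit 6410243583206450266114)) (.alt (nat_lit 24) (.cov (nat_lit 1607172610407914274817)) (.alt (nat_lit 24) (.cov (nat_lit 1385811795872004964352)) (.alt (nat_lit 24) (.exp (.alt (nat_lit 25) (.cov (nat_lit 6412549417419571986435)) (.alt (nat_lit 25) (.cov (nat_lit 657165275218117132289)) (.alt (nat_lit 25) (.cov (nat_lit 657165290611279921152)) (.alt (nat_lit 25) (.exp (.alt (nat_lit 29) (.cov (nat_lit 25299709505889379549185)) (.alt (nat_lit 27) (.cov (nat_lit 300941327)) .e))) .e))))) .e))))) .e)) (.alt (nat_lit 8) (.exp (.alt (nat_lit 24) (.cov (nat_lit 1607172610573450870786)) (.alt (nat_lit 12) (.cov (nat_lit 64563745151839633409)) (.alt (nat_lit 12) (.exp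 (.alt (nat_lit 28) (.cov (nat_lit 129127226111059558403)) (.alt (nat_lit 28) (.cov (nat_lit 55340375157661237248)) (.alt (nat_lit 13) (.cov (nat_lit 30408895)) .e)))) .e)))) .e)))))) .e))))))) .e)) (.alt (nat_lit 2) (.exp (.alt (nat_lit 6) (.cov (nat_lit 21522738795520177733643)) (.alt (nat_lit 6) (.cov (nat_lit 2633274563702292480002)) (.alt (nat_lit 6) (.cov (nat_lit 3869207865796495147009)) (.alt (nat_lit 6) (.exp (.alt (nat_lit 22) (.exp (.alt (nat_lit 20) (.exp (.alt (nat_lit 28) (.exp (.alt (nat_lit 29) (.exp (.alt (nat_lit 12) (.exp (.alt (nat_lit 30) (.cov (nat_lit 404338795046454818766849)) (.alt (nat_lit 30) (.exp (.alt (nat_lit 26) (.cov (nat_lit 41671194873505021689856)) (.alt (nat_lit 31) (.cov (nat_lit 4625268744)) .e))) .e))) .e)) .e)) .e)) .e)) (.alt (nat_lit 22) (.cov (nat_lit 22057694646171187806211)) (.alt (nat_lit 22) (.exp (.alt (nat_lit 20) (.exp (.alt (nat_lit 30) (.cov (nat_lit 406819882148558109933570)) (.alt (nat_lit 30) (.cov (nat_lit 26521806439311102443521))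 (.alt (nat_lit 30) (.exp (.alt (nat_lit 31) (.cov (nat_lit 104623014874691555819523)) (.alt (nat_lit 26) (.exp (.alt (nat_lit 27) (.exp (.alt (nat_lit 24) (.cov (nat_lit 102111951828815357935617)) (.alt (nat_lit 10) (.cov (nat_lit 20644364303)) .e))) .e)) (.alt (nat_lit 26) (.exp (.alt (nat_lit 24) (.cov (nat_lit 1567973255062135767042)) (.alt (nat_lit 27) (.cov (nat_lit 3482320963)) .e))) .e)))) .e)))) .e)) (.alt (nat_lit 22) (.exp (.alt (nat_lit 30) (.cov (nat_lit 1399646966261328379906)) (.alt (nat_lit 20) (.cov (nat_lit 11639195816)) .e))) .e))))) .e))))) .e)))))))) .e)) .e)) .e)) .e)) .e)) .e)) (.alt (nat_lit 0) (.exp (.alt (nat_lit 1) (.exp (.alt (nat_lit 9) (.exp (.alt (nat_lit 17) (.exp (.alt (nat_lit 19) (.exp (.alt (nat_lit 23) (.exp (.alt (nat_lit 16) (.cov (nat_lit 276702506909809246242)) (.alt (nat_lit 2) (.cov (nat_lit 3859984493761334870023)) (.alt (nat_lit 2) (.cov (nat_lit 613361347877855559683)) (.alt (nat_lit 2) (.exp (.alt (nat_lit 18) (.exp (.alt (nat_lit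 6) (.cov (nat_lit 21522738795520177733643)) (.alt (nat_lit 6) (.cov (nat_lit 2633274563702292480002)) (.alt (nat_lit 6) (.cov (nat_lit 3869207865796495147009)) (.alt (nat_lit 6) (.exp (.alt (nat_lit 22) (.exp (.alt (nat_lit 20) (.exp (.alt (nat_lit 28) (.exp (.alt (nat_lit 29) (.exp (.alt (nat_lit 12) (.exp (.alt (nat_lit 30) (.cov (nat_lit 404338795046454818766849)) (.alt (nat_lit 30) (.exp (.alt (nat_lit 26) (.cov (nat_lit 41671194873505021689856)) (.alt (nat_lit 31) (.cov (nat_lit 4625268744)) .e))) .e))) .e)) .e)) .e)) .e)) (.alt (nat_lit 22) (.cov (nat_lit 22057694646171187806211)) (.alt (nat_lit 22) (.exp (.alt (nat_lit 20) (.exp (.alt (nat_lit 30) (.cov (nat_lit 406819882148558109933570)) (.alt (nat_lit 30) (.cov (nat_lit 26521806439311102443521)) (.alt (nat_lit 30) (.exp (.alt (nat_lit 31) (.cov (nat_lit 104623014874691555819523)) (.alt (nat_lit 26) (.exp (.alt (nat_lit 27) (.exp (.alt (nat_lit 24) (.cov (nat_lit 102111951828815357935617)) (.alt (nat_lit 10) (.cov (nat_lit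 20644364303)) .e))) .e)) (.alt (nat_lit 26) (.exp (.alt (nat_lit 24) (.cov (nat_lit 1567973255062135767042)) (.alt (nat_lit 27) (.cov (nat_lit 3482320963)) .e))) .e)))) .e)))) .e)) (.alt (nat_lit 22) (.exp (.alt (nat_lit 30) (.cov (nat_lit 1399646966261328379906)) (.alt (nat_lit 20) (.cov (nat_lit 11639195816)) .e))) .e))))) .e))))) .e)) (.alt (nat_lit 2) (.cov (nat_lit 790632875)) .e)))))) .e)) .e)) .e)) .e)) (.alt (nat_lit 1) (.exp (.alt (nat_lit 9) (.exp (.alt (nat_lit 11) (.exp (.alt (nat_lit 10) (.exp (.alt (nat_lit 27) (.exp (.alt (nat_lit 4) (.cov (nat_lit 1798558849008503095330)) (.alt (nat_lit 2) (.cov (nat_lit 43105432510577478991879)) (.alt (nat_lit 2) (.cov (nat_lit 1591038741830650822659)) (.alt (nat_lit 2) (.exp (.alt (nat_lit 6) (.exp (.alt (nat_lit 18) (.cov (nat_lit 347868699887161821888523)) (.alt (nat_lit 18) (.exp (.alt (nat_lit 16) (.exp (.alt (nat_lit 17) (.exp (.alt (nat_lit 20) (.exp (.alt (nat_lit 22) (.cov (nat_lit 406856775621323128832003)) (.alt (nat_lit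 22) (.exp (.alt (nat_lit 23) (.exp (.alt (nat_lit 30) (.cov (nat_lit 102111951828815376809985)) (.alt (nat_lit 30) (.exp (.alt (nat_lit 28) (.cov (nat_lit 1395035031569413701632)) (.alt (nat_lit 26) (.cov (nat_lit 159240945672)) .e))) .e))) .e)) (.alt (nat_lit 22) (.cov (nat_lit 4057989712)) .e)))) .e)) .e)) .e)) (.alt (nat_lit 18) (.cov (nat_lit 627194182536828813313)) (.alt (nat_lit 18) (.exp (.alt (nat_lit 16) (.exp (.alt (nat_lit 17) (.exp (.alt (nat_lit 21) (.exp (.alt (nat_lit 23) (.exp (.alt (nat_lit 20) (.exp (.alt (nat_lit 24) (.cov (nat_lit 404343406732473239863297)) (.alt (nat_lit 24) (.exp (.alt (nat_lit 28) (.cov (nat_lit 69175301271539679232)) (.alt (nat_lit 25) (.cov (nat_lit 4627365896)) .e))) .e))) .e)) .e)) .e)) .e)) (.alt (nat_lit 26) (.cov (nat_lit 29141244370465895481347)) (.alt (nat_lit 26) (.exp (.alt (nat_lit 24) (.exp (.alt (nat_lit 30) (.cov (nat_lit 1694794644923571240962)) (.alt (nat_lit 30) (.cov (nat_lit 25306627171255874224129)) (.alt (nat_lit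 30) (.exp (.alt (nat_lit 31) (.cov (nat_lit 7814501975817486073859)) (.alt (nat_lit 28) (.exp (.alt (nat_lit 12) (.exp (.alt (nat_lit 29) (.cov (nat_lit 48422711999371149313)) (.alt (nat_lit 29) (.exp (.alt (nat_lit 21) (.cov (nat_lit 119903847474246189056)) (.alt (nat_lit 25) (.cov (nat_lit 621805576)) .e))) .e))) .e)) (.alt (nat_lit 31) (.cov (nat_lit 47577039440)) .e)))) .e)))) .e)) (.alt (nat_lit 19) (.cov (nat_lit 159233608851)) .e))))) .e))))) .e)) (.alt (nat_lit 2) (.cov (nat_lit 46479186011)) .e)))))) .e)) .e)) .e)) .e)) .e))) (.alt (nat_lit 0) (.cov (nat_lit 110696719622170738694)) (.alt (nat_lit 0) (.exp (.alt (nat_lit 1) (.exp (.alt (nat_lit 9) (.exp (.alt (nat_lit 17) (.exp (.alt (nat_lit 16) (.exp (.alt (nat_lit 18) (.exp (.alt (nat_lit 2) (.exp (.alt (nat_lit 6) (.exp (.alt (nat_lit 10) (.exp (.alt (nat_lit 22) (.exp (.alt (nat_lit 20) (.exp (.alt (nat_lit 23) (.exp (.alt (nat_lit 24) (.cov (nat_lit 404343406741269433548802)) (.alt (nat_lit 24) (.cov (nat_lit 428886832699708276737))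 (.alt (nat_lit 24) (.cov (nat_lit 3159005069957327224832)) (.alt (nat_lit 24) (.exp (.alt (nat_lit 26) (.cov (nat_lit 404348018418491770011651)) (.alt (nat_lit 26) (.cov (nat_lit 29067456991740073869313)) (.alt (nat_lit 26) (.cov (nat_lit 29067457007133203103744)) (.alt (nat_lit 26) (.exp (.alt (nat_lit 30) (.cov (nat_lit 1621007644273368104961)) (.alt (nat_lit 27) (.cov (nat_lit 4629463055)) .e))) .e))))) .e))))) .e)) .e)) .e)) .e)) .e)) .e)) (.alt (nat_lit 18) (.exp (.alt (nat_lit 2) (.exp (.alt (nat_lit 6) (.exp (.alt (nat_lit 10) (.exp (.alt (nat_lit 26) (.exp (.alt (nat_lit 24) (.exp (.alt (nat_lit 27) (.exp (.alt (nat_lit 20) (.cov (nat_lit 102111951837614317764610)) (.alt (nat_lit 20) (.cov (nat_lit 25283568629023271550977)) (.alt (nat_lit 20) (.cov (nat_lit 344338454242243121250304)) (.alt (nat_lit 20) (.exp (.alt (nat_lit 21) (.cov (nat_lit 102114257671827439484931)) (.alt (nat_lit 21) (.cov (nat_lit 10175685217252241571841)) (.alt (nat_lit 21) (.cov (nat_lit 10175685232645404360704))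 (.alt (nat_lit 21) (.exp (.alt (nat_lit 29) (.cov (nat_lit 6417161103437816922113)) (.alt (nat_lit 23) (.cov (nat_lit 4629463055)) .e))) .e))))) .e))))) .e)) .e)) .e)) .e)) .e)) .e)) .e))) (.alt (nat_lit 2) (.exp (.alt (nat_lit 6) (.cov (nat_lit 578059404131229314839770017300481)) (.alt (nat_lit 6) (.cov (nat_lit 21882453453958815940619)) .e))) (.alt (nat_lit 2) (.cov (nat_lit 1720167320327246839823)) (.alt (nat_lit 2) (.exp (.alt (nat_lit 6) (.exp (.alt (nat_lit 4) (.exp (.alt (nat_lit 12) (.exp (.alt (nat_lit 20) (.exp (.alt (nat_lit 18) (.exp (.alt (nat_lit 19) (.cov (nat_lit 3539280548716675233158337737523200)) (.alt (nat_lit 16) (.cov (nat_lit 6396408540557347913735)) .e))) (.alt (nat_lit 18) (.cov (nat_lit 1978413537203746504710)) (.alt (nat_lit 18) (.exp (.alt (nat_lit 26) (.exp (.alt (nat_lit 10) (.exp (.alt (nat_lit 24) (.exp (.alt (nat_lit 19) (.cov (nat_lit 25288180293042330140675)) (.alt (nat_lit 19) (.cov (nat_lit 209831731430656311297)) (.alt (nat_lit 19) (.cov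 (nat_lit 209831746823819100160)) (.alt (nat_lit 19) (.exp (.alt (nat_lit 23) (.cov (nat_lit 71481144290527150081)) (.alt (nat_lit 23) (.exp (.alt (nat_lit 31) (.cov (nat_lit 214443410852021272576)) (.alt (nat_lit 21) (.cov (nat_lit 63963144)) .e))) .e))) .e))))) .e)) .e)) .e)) (.alt (nat_lit 10) (.exp (.alt (nat_lit 8) (.exp (.alt (nat_lit 24) (.exp (.alt (nat_lit 26) (.cov (nat_lit 69175307868783509507)) (.alt (nat_lit 26) (.exp (.alt (nat_lit 18) (.exp (.alt (nat_lit 27) (.cov (nat_lit 71481142082341437441)) (.alt (nat_lit 27) (.exp (.alt (nat_lit 31) (.cov (nat_lit 66869458262337519616)) (.alt (nat_lit 19) (.cov (nat_lit 9788456968)) .e))) .e))) .e)) (.alt (nat_lit 14) (.cov (nat_lit 2984247487)) .e)))) .e)) .e)) (.alt (nat_lit 10) (.cov (nat_lit 428891672749289766912)) (.alt (nat_lit 10) (.exp (.alt (nat_lit 26) (.cov (nat_lit 21882450190423329603591)) (.alt (nat_lit 26) (.cov (nat_lit 424275256632017944579)) (.alt (nat_lit 26) (.cov (nat_lit 209832498889767256065)) (.alt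 (nat_lit 26) (.exp (.alt (nat_lit 18) (.exp (.alt (nat_lit 27) (.cov (nat_lit 6417161112234090299394)) (.alt (nat_lit 24) (.cov (nat_lit 654859447602097684481)) (.alt (nat_lit 24) (.cov (nat_lit 25440366065790228627456)) (.alt (nat_lit 24) (.exp (.alt (nat_lit 25) (.cov (nat_lit 2866162869248745013251)) (.alt (nat_lit 25) (.cov (nat_lit 2866162878044838035457)) (.alt (nat_lit 25) (.cov (nat_lit 1837756911328691224576)) (.alt (nat_lit 25) (.exp (.alt (nat_lit 27) (.cov (nat_lit 71481142082341437441)) (.alt (nat_lit 27) (.exp (.alt (nat_lit 31) (.cov (nat_lit 6398714361563147403264)) (.alt (nat_lit 19) (.cov (nat_lit 9788456968)) .e))) .e))) .e))))) .e))))) .e)) (.alt (nat_lit 8) (.cov (nat_lit 58721755)) .e)))))) .e))))))) .e)) .e)) .e)) .e)) (.alt (nat_lit 2) (.exp (.alt (nat_lit 6) (.exp (.alt (nat_lit 4) (.exp (.alt (nat_lit 12) (.exp (.alt (nat_lit 18) (.cov (nat_lit 365591409258167026057227)) (.alt (nat_lit 18) (.cov (nat_lit 2840800434577238654978)) (.alt (nat_lit 10) (.cov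 (nat_lit 21900900198003897270273)) (.alt (nat_lit 10) (.cov (nat_lit 631246852)) .e))))) .e)) .e)) .e)) (.alt (nat_lit 2) (.cov (nat_lit 10122664521358125301761)) (.alt (nat_lit 2) (.exp (.alt (nat_lit 6) (.exp (.alt (nat_lit 10) (.cov (nat_lit 6553206252219404386325)) (.alt (nat_lit 10) (.exp (.alt (nat_lit 14) (.exp (.alt (nat_lit 12) (.exp (.alt (nat_lit 30) (.exp (.alt (nat_lit 22) (.exp (.alt (nat_lit 23) (.exp (.alt (nat_lit 26) (.cov (nat_lit 21896285233095216463875)) (.alt (nat_lit 26) (.exp (.alt (nat_lit 18) (.exp (.alt (nat_lit 24) (.cov (nat_lit 1607172586227831406593)) (.alt (nat_lit 27) (.cov (nat_lit 2979004431)) .e))) .e)) (.alt (nat_lit 26) (.exp (.alt (nat_lit 24) (.cov (nat_lit 1607172586218759127042)) (.alt (nat_lit 18) (.cov (nat_lit 654311491)) .e))) .e)))) .e)) .e)) .e)) .e)) (.alt (nat_lit 11) (.cov (nat_lit 2688614795922998558727)) .e))) (.alt (nat_lit 10) (.cov (nat_lit 102301035830808309399558)) (.alt (nat_lit 10) (.exp (.alt (nat_lit 8) (.exp (.alt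 (nat_lit 12) (.exp (.alt (nat_lit 24) (.exp (.alt (nat_lit 26) (.cov (nat_lit 1840062754338542452743)) (.alt (nat_lit 26) (.cov (nat_lit 659471241382397476867)) (.alt (nat_lit 26) (.cov (nat_lit 21541185812097563361281)) (.alt (nat_lit 26) (.exp (.alt (nat_lit 18) (.exp (.alt (nat_lit 30) (.cov (nat_lit 21764852181563158298626)) (.alt (nat_lit 27) (.cov (nat_lit 661776976630302900225)) (.alt (nat_lit 27) (.cov (nat_lit 661777084381830053888)) (.alt (nat_lit 27) (.cov (nat_lit 4663017663)) .e))))) .e)) (.alt (nat_lit 11) (.cov (nat_lit 9960424923)) .e)))))) .e)) .e)) .e)) (.alt (nat_lit 10) (.cov (nat_lit 1388126507542603890689)) (.alt (nat_lit 10) (.cov (nat_lit 350252953569742252146688)) (.alt (nat_lit 10) (.exp (.alt (nat_lit 14) (.exp (.alt (nat_lit 12) (.cov (nat_lit 14430934742489583571553706502520833)) (.alt (nat_lit 12) (.exp (.alt (nat_lit 28) (.cov (nat_lit 14430934742504712207539200224919552)) (.alt (nat_lit 8) (.cov (nat_lit 6562429344969618620423)) .e))) .e))) (.alt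 (nat_lit 14) (.cov (nat_lit 21910120693581503004687)) (.alt (nat_lit 14) (.exp (.alt (nat_lit 12) (.exp (.alt (nat_lit 28) (.exp (.alt (nat_lit 24) (.exp (.alt (nat_lit 20) (.exp (.alt (nat_lit 30) (.cov (nat_lit 1694794629367164043266)) (.alt (nat_lit 30) (.cov (nat_lit 1461904500826896859137)) (.alt (nat_lit 30) (.cov (nat_lit 493450650262362390528)) (.alt (nat_lit 30) (.exp (.alt (nat_lit 26) (.cov (nat_lit 1611784272236651741187)) (.alt (nat_lit 26) (.cov (nat_lit 3013736830634502914049)) (.alt (nat_lit 26) (.cov (nat_lit 3013736846027665702912)) (.alt (nat_lit 26) (.exp (.alt (nat_lit 27) (.cov (nat_lit 25306627034916404068353)) (.alt (nat_lit 18) (.cov (nat_lit 9884925967)) .e))) .e))))) .e))))) .e)) .e)) .e)) .e)) (.alt (nat_lit 14) (.exp (.alt (nat_lit 12) (.exp (.alt (nat_lit 8) (.exp (.alt (nat_lit 24) (.exp (.alt (nat_lit 30) (.cov (nat_lit 641024389549668696066)) (.alt (nat_lit 30) (.cov (nat_lit 6396408654903136747521)) (.alt (nat_lit 30) (.exp (.alt (nat_lit 26)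 (.cov (nat_lit 3013736830634570022915)) (.alt (nat_lit 22) (.exp (.alt (nat_lit 18) (.exp (.alt (nat_lit 23) (.cov (nat_lit 6394102673355450613761)) (.alt (nat_lit 20) (.cov (nat_lit 760217615)) .e))) .e)) (.alt (nat_lit 22) (.exp (.alt (nat_lit 23) (.cov (nat_lit 6394102673348571955202)) (.alt (nat_lit 18) (.cov (nat_lit 1362100291)) .e))) .e)))) .e)))) .e)) .e)) .e)) (.alt (nat_lit 8) (.cov (nat_lit 1604873799884228001793)) (.alt (nat_lit 8) (.exp (.alt (nat_lit 12) (.exp (.alt (nat_lit 24) (.cov (nat_lit 25440365953649926471691)) (.alt (nat_lit 24) (.cov (nat_lit 654859555357090381830)) (.alt (nat_lit 24) (.cov (nat_lit 654859834633043836930)) (.alt (nat_lit 24) (.cov (nat_lit 3009126974213196873729)) (.alt (nat_lit 24) (.cov (nat_lit 1835454333869010976768)) (.alt (nat_lit 24) (.exp (.alt (nat_lit 16) (.cov (nat_lit 636412703528984772615)) (.alt (nat_lit 16) (.cov (nat_lit 636412811290251100163)) (.alt (nat_lit 26) (.cov (nat_lit 21541185812097563361281)) (.alt (nat_lit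 26) (.exp (.alt (nat_lit 18) (.exp (.alt (nat_lit 30) (.cov (nat_lit 21764852181563158298626)) (.alt (nat_lit 27) (.cov (nat_lit 661776976630302900225)) (.alt (nat_lit 27) (.cov (nat_lit 661777084381830053888)) (.alt (nat_lit 27) (.cov (nat_lit 4663017663)) .e))))) .e)) (.alt (nat_lit 16) (.cov (nat_lit 9950987739)) .e)))))) .e))))))) .e)) (.alt (nat_lit 11) (.exp (.alt (nat_lit 27) (.cov (nat_lit 25590245861389298040843)) (.alt (nat_lit 27) (.exp (.alt (nat_lit 26) (.exp (.alt (nat_lit 18) (.exp (.alt (nat_lit 30) (.exp (.alt (nat_lit 31) (.cov (nat_lit 104623014874645145845763)) (.alt (nat_lit 31) (.exp (.alt (nat_lit 23) (.exp (.alt (nat_lit 29) (.cov (nat_lit 365383883248798062870529)) (.alt (nat_lit 29) (.exp (.alt (nat_lit 28) (.cov (nat_lit 2850021970383254585344)) (.alt (nat_lit 25) (.cov (nat_lit 158167203848)) .e))) .e))) .e)) (.alt (nat_lit 31) (.cov (nat_lit 156494725712)) .e)))) .e)) .e)) .e)) (.alt (nat_lit 27) (.cov (nat_lit 6405636763626312302593)) (.alt (nat_lit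 27) (.exp (.alt (nat_lit 26) (.exp (.alt (nat_lit 18) (.exp (.alt (nat_lit 22) (.exp (.alt (nat_lit 23) (.exp (.alt (nat_lit 30) (.exp (.alt (nat_lit 24) (.cov (nat_lit 102111951828815936749569)) (.alt (nat_lit 24) (.exp (.alt (nat_lit 28) (.cov (nat_lit 21538879560060244066304)) (.alt (nat_lit 16) (.cov (nat_lit 10523508744)) .e))) .e))) .e)) .e)) .e)) .e)) (.alt (nat_lit 25) (.cov (nat_lit 10249472595979812208643)) (.alt (nat_lit 25) (.exp (.alt (nat_lit 24) (.exp (.alt (nat_lit 29) (.cov (nat_lit 48422736362710499330)) (.alt (nat_lit 29) (.cov (nat_lit 48422848329036070913)) (.alt (nat_lit 29) (.exp (.alt (nat_lit 21) (.cov (nat_lit 4251974526582865788931)) (.alt (nat_lit 28) (.exp (.alt (nat_lit 12) (.exp (.alt (nat_lit 20) (.cov (nat_lit 6396408516354930376705)) (.alt (nat_lit 20) (.exp (.alt (nat_lit 22) (.cov (nat_lit 511897159040575209472)) (.alt (nat_lit 16) (.cov (nat_lit 9950986248)) .e))) .e))) .e)) (.alt (nat_lit 21) (.cov (nat_lit 28777120336)) .e)))) .e)))) .e))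 (.alt (nat_lit 19) (.cov (nat_lit 21795703955)) .e))))) .e))))) .e)))))))) .e)))))))) .e)) (.alt (nat_lit 2) (.exp (.alt (nat_lit 6) (.cov (nat_lit 22956974846911698698259)) (.alt (nat_lit 6) (.cov (nat_lit 25465735077789662445579)) (.alt (nat_lit 6) (.cov (nat_lit 21522747663996686434306)) (.alt (nat_lit 6) (.cov (nat_lit 23219851258983073447937)) (.alt (nat_lit 6) (.exp (.alt (nat_lit 14) (.cov (nat_lit 21721042448624727883810)) (.alt (nat_lit 4) (.cov (nat_lit 3864596179778065661959)) (.alt (nat_lit 4) (.cov (nat_lit 25281269818480740270083)) (.alt (nat_lit 4) (.exp (.alt (nat_lit 12) (.exp (.alt (nat_lit 20) (.cov (nat_lit 63286167466174729682955)) (.alt (nat_lit 20) (.exp (.alt (nat_lit 22) (.exp (.alt (nat_lit 18) (.exp (.alt (nat_lit 23) (.exp (.alt (nat_lit 28) (.cov (nat_lit 350188377826876520923139)) (.alt (nat_lit 28) (.exp (.alt (nat_lit 30) (.exp (.alt (nat_lit 24) (.cov (nat_lit 1607172586374428622849)) (.alt (nat_lit 29) (.cov (nat_lit 4623171599)) .e))) .e))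 (.alt (nat_lit 16) (.cov (nat_lit 897581247)) .e)))) .e)) .e)) .e)) (.alt (nat_lit 20) (.cov (nat_lit 3016047566471068385281)) (.alt (nat_lit 20) (.exp (.alt (nat_lit 22) (.exp (.alt (nat_lit 18) (.exp (.alt (nat_lit 26) (.exp (.alt (nat_lit 10) (.exp (.alt (nat_lit 27) (.exp (.alt (nat_lit 30) (.cov (nat_lit 25306627034917017485313)) (.alt (nat_lit 23) (.cov (nat_lit 66060303)) .e))) .e)) .e)) .e)) .e)) (.alt (nat_lit 16) (.cov (nat_lit 1973802035900986687491)) (.alt (nat_lit 16) (.exp (.alt (nat_lit 18) (.exp (.alt (nat_lit 24) (.cov (nat_lit 25440365953660697444354)) (.alt (nat_lit 24) (.cov (nat_lit 104689884447257274613761)) (.alt (nat_lit 24) (.exp (.alt (nat_lit 28) (.cov (nat_lit 45448165729205599862787)) (.alt (nat_lit 26) (.exp (.alt (nat_lit 10) (.exp (.alt (nat_lit 30) (.cov (nat_lit 1621007644273342939137)) (.alt (nat_lit 30) (.exp (.alt (nat_lit 31) (.cov (nat_lit 214443410852013932544)) (.alt (nat_lit 22) (.cov (nat_lit 124780552)) .e))) .e))) .e)) (.alt (nat_lit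 28) (.cov (nat_lit 20734542416)) .e)))) .e)))) .e)) (.alt (nat_lit 16) (.cov (nat_lit 19044240530)) .e))))) .e))))) .e)) (.alt (nat_lit 4) (.cov (nat_lit 2998933595)) .e)))))) .e)))))) .e))))))))) .e)) .e)) .e)) (.alt (nat_lit 0) (.exp (.alt (nat_lit 1) (.exp (.alt (nat_lit 9) (.exp (.alt (nat_lit 2) (.cov (nat_lit 3859984493761011908646)) (.alt (nat_lit 2) (.cov (nat_lit 1720167320326642860066)) (.alt (nat_lit 2) (.cov (nat_lit 41516153890314125319)) (.alt (nat_lit 2) (.cov (nat_lit 41518887275583242243)) (.alt (nat_lit 2) (.exp (.alt (nat_lit 6) (.exp (.alt (nat_lit 10) (.cov (nat_lit 2688614795925614755858)) (.alt (nat_lit 10) (.cov (nat_lit 102301035830808309399563)) (.alt (nat_lit 10) (.cov (nat_lit 650256746976492126210)) (.alt (nat_lit 10) (.cov (nat_lit 59962897962719248385)) (.alt (nat_lit 10) (.exp (.alt (nat_lit 26) (.cov (nat_lit 29141244370456936448034)) (.alt (nat_lit 8) (.cov (nat_lit 1826230959790153007111)) (.alt (nat_lit 8) (.cov (nat_lit 55347297848989319171))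 (.alt (nat_lit 8) (.cov (nat_lit 55351211944256208896)) (.alt (nat_lit 11) (.cov (nat_lit 9792657503)) .e)))))) .e)))))) .e)) (.alt (nat_lit 2) (.cov (nat_lit 710942239)) .e))))))) .e)) .e)) (.alt (nat_lit 0) (.cov (nat_lit 25387349495263746064384)) (.alt (nat_lit 0) (.exp (.alt (nat_lit 1) (.exp (.alt (nat_lit 9) (.cov (nat_lit 3006874472485975716280398875983874)) (.alt (nat_lit 9) (.cov (nat_lit 3980430133457430503095173590810625)) (.alt (nat_lit 9) (.exp (.alt (nat_lit 11) (.cov (nat_lit 3006874472463549087163990397681667)) (.alt (nat_lit 11) (.exp (.alt (nat_lit 27) (.exp (.alt (nat_lit 10) (.cov (nat_lit 48114953431027273174637140420591617)) (.alt (nat_lit 10) (.exp (.alt (nat_lit 2) (.cov (nat_lit 48114953431007138553482885438898176)) (.alt (nat_lit 2) (.exp (.alt (nat_lit 6) (.exp (.alt (nat_lit 14) (.exp (.alt (nat_lit 12) (.exp (.alt (nat_lit 30) (.exp (.alt (nat_lit 17) (.cov (nat_lit 2840798620336807477250)) (.alt (nat_lit 17) (.cov (nat_lit 1450375488090952171521))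 (.alt (nat_lit 17) (.exp (.alt (nat_lit 19) (.cov (nat_lit 1823921837891712450563)) (.alt (nat_lit 16) (.exp (.alt (nat_lit 18) (.exp (.alt (nat_lit 20) (.cov (nat_lit 433498494528323059713)) (.alt (nat_lit 24) (.cov (nat_lit 2915041295)) .e))) .e)) (.alt (nat_lit 16) (.exp (.alt (nat_lit 20) (.cov (nat_lit 433498494528458326018)) (.alt (nat_lit 18) (.cov (nat_lit 11498684483)) .e))) .e)))) .e)))) .e)) .e)) .e)) .e)) .e))) .e))) .e)) (.alt (nat_lit 11) (.exp (.alt (nat_lit 10) (.cov (nat_lit 3006874472485841977366073273483266)) (.alt (nat_lit 10) (.cov (nat_lit 260563556414322114579)) .e))) .e)))) .e)))) (.alt (nat_lit 1) (.exp (.alt (nat_lit 9) (.cov (nat_lit 6738846156943688829581187234136066)) (.alt (nat_lit 9) (.cov (nat_lit 86208147190437525075998006050817)) (.alt (nat_lit 9) (.cov (nat_lit 86208147190437525097988235460608)) (.alt (nat_lit 9) (.cov (nat_lit 39201596335579988061)) .e))))) (.alt (nat_lit 1) (.exp (.alt (nat_lit 9) (.exp (.alt (nat_lit 11) (.exp (.alt (nat_lit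 10) (.exp (.alt (nat_lit 27) (.exp (.alt (nat_lit 8) (.exp (.alt (nat_lit 12) (.exp (.alt (nat_lit 24) (.exp (.alt (nat_lit 17) (.cov (nat_lit 104599956459949055279115)) (.alt (nat_lit 17) (.cov (nat_lit 104673743548394079518726)) (.alt (nat_lit 17) (.exp (.alt (nat_lit 16) (.exp (.alt (nat_lit 18) (.exp (.alt (nat_lit 20) (.exp (.alt (nat_lit 21) (.cov (nat_lit 7653092958575396913155)) (.alt (nat_lit 21) (.cov (nat_lit 7800666917762143092737)) (.alt (nat_lit 21) (.cov (nat_lit 7800666933155305881600)) (.alt (nat_lit 21) (.exp (.alt (nat_lit 23) (.cov (nat_lit 365370048190742820552705)) (.alt (nat_lit 29) (.cov (nat_lit 3555721231)) .e))) .e))))) .e)) .e)) .e)) (.alt (nat_lit 17) (.exp (.alt (nat_lit 16) (.exp (.alt (nat_lit 18) (.exp (.alt (nat_lit 21) (.cov (nat_lit 404324959997195023548419)) (.alt (nat_lit 21) (.exp (.alt (nat_lit 20) (.exp (.alt (nat_lit 23) (.cov (nat_lit 365370048190742820552705)) (.alt (nat_lit 29) (.cov (nat_lit 3555721231)) .e))) .e)) (.alt (nat_lit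 19) (.cov (nat_lit 4654629055)) .e)))) .e)) .e)) (.alt (nat_lit 17) (.cov (nat_lit 25278961794040394153984)) (.alt (nat_lit 17) (.exp (.alt (nat_lit 16) (.cov (nat_lit 347799524484723951796231)) (.alt (nat_lit 16) (.cov (nat_lit 102314866147787194499075)) (.alt (nat_lit 16) (.cov (nat_lit 29118185940363987910657)) (.alt (nat_lit 16) (.exp (.alt (nat_lit 18) (.exp (.alt (nat_lit 20) (.cov (nat_lit 365370048199550345150466)) (.alt (nat_lit 20) (.cov (nat_lit 25283568629013540765697)) (.alt (nat_lit 20) (.cov (nat_lit 29120491510694303236096)) (.alt (nat_lit 20) (.exp (.alt (nat_lit 21) (.cov (nat_lit 7653092958575396913155)) (.alt (nat_lit 21) (.cov (nat_lit 7800666917762143092737)) (.alt (nat_lit 21) (.cov (nat_lit 7800666933155305881600)) (.alt (nat_lit 21) (.exp (.alt (nat_lit 23) (.cov (nat_lit 365370048190742820552705)) (.alt (nat_lit 29) (.cov (nat_lit 3555721231)) .e))) .e))))) .e))))) .e)) (.alt (nat_lit 16) (.exp (.alt (nat_lit 20) (.cov (nat_lit 2630966906518832676866))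 (.alt (nat_lit 18) (.cov (nat_lit 641024497299501350913)) (.alt (nat_lit 18) (.exp (.alt (nat_lit 22) (.cov (nat_lit 2635578577307289255939)) (.alt (nat_lit 22) (.cov (nat_lit 102314866147766545940480)) (.alt (nat_lit 19) (.cov (nat_lit 4654629055)) .e)))) .e)))) .e)))))) .e))))))) .e)) .e)) .e)) .e)) .e)) .e)) (.alt (nat_lit 9) (.exp (.alt (nat_lit 11) (.exp (.alt (nat_lit 27) (.exp (.alt (nat_lit 10) (.exp (.alt (nat_lit 2) (.exp (.alt (nat_lit 6) (.exp (.alt (nat_lit 18) (.exp (.alt (nat_lit 17) (.cov (nat_lit 104613791518001720197131)) (.alt (nat_lit 17) (.cov (nat_lit 6698474086901337817094)) (.alt (nat_lit 17) (.exp (.alt (nat_lit 16) (.exp (.alt (nat_lit 24) (.exp (.alt (nat_lit 20) (.exp (.alt (nat_lit 21) (.cov (nat_lit 102114257671827439484931)) (.alt (nat_lit 21) (.cov (nat_lit 10175685217252241571841)) (.alt (nat_lit 21) (.cov (nat_lit 10175685232645404360704)) (.alt (nat_lit 21) (.exp (.alt (nat_lit 29) (.cov (nat_lit 404343406732482406514689)) (.alt (nat_lit 23)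 (.cov (nat_lit 4629463055)) .e))) .e))))) .e)) .e)) .e)) (.alt (nat_lit 17) (.exp (.alt (nat_lit 16) (.exp (.alt (nat_lit 20) (.exp (.alt (nat_lit 21) (.cov (nat_lit 104623014874648031526915)) (.alt (nat_lit 21) (.exp (.alt (nat_lit 23) (.exp (.alt (nat_lit 29) (.cov (nat_lit 404343406732472635883521)) (.alt (nat_lit 29) (.exp (.alt (nat_lit 28) (.cov (nat_lit 216749253861216092160)) (.alt (nat_lit 25) (.cov (nat_lit 21801992200)) .e))) .e))) .e)) (.alt (nat_lit 21) (.cov (nat_lit 12646875728)) .e)))) .e)) .e)) (.alt (nat_lit 17) (.cov (nat_lit 25292796852095676317696)) (.alt (nat_lit 17) (.exp (.alt (nat_lit 16) (.cov (nat_lit 350174542784214593437703)) (.alt (nat_lit 16) (.cov (nat_lit 636412811446017064963)) (.alt (nat_lit 16) (.cov (nat_lit 344336148671912845770753)) (.alt (nat_lit 16) (.exp (.alt (nat_lit 24) (.exp (.alt (nat_lit 20) (.cov (nat_lit 404343406741280200327170)) (.alt (nat_lit 20) (.cov (nat_lit 6396408540553904390145)) (.alt (nat_lit 20) (.cov (nat_lit 42109305181595041267712))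 (.alt (nat_lit 20) (.exp (.alt (nat_lit 22) (.cov (nat_lit 404348018418502536790019)) (.alt (nat_lit 22) (.cov (nat_lit 29067456991740069675009)) (.alt (nat_lit 22) (.cov (nat_lit 29067457007133198909440)) (.alt (nat_lit 22) (.exp (.alt (nat_lit 30) (.cov (nat_lit 102111951828825112838145)) (.alt (nat_lit 23) (.cov (nat_lit 4629463055)) .e))) .e))))) .e))))) .e)) (.alt (nat_lit 16) (.exp (.alt (nat_lit 20) (.cov (nat_lit 6396408540564801191938)) (.alt (nat_lit 24) (.cov (nat_lit 654859555354789806081)) (.alt (nat_lit 24) (.exp (.alt (nat_lit 28) (.cov (nat_lit 636412688319022891011)) (.alt (nat_lit 28) (.cov (nat_lit 10228719731808470564864)) (.alt (nat_lit 26) (.cov (nat_lit 13251903679)) .e)))) .e)))) .e)))))) .e))))))) .e)) .e)) .e)) .e)) .e)) .e)) .e))) (.alt (nat_lit 1) (.exp (.alt (nat_lit 9) (.exp (.alt (nat_lit 11) (.exp (.alt (nat_lit 10) (.exp (.alt (nat_lit 8) (.exp (.alt (nat_lit 12) (.exp (.alt (nat_lit 24) (.exp (.alt (nat_lit 17) (.cov (nat_lit 25567187431297704263691))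 (.alt (nat_lit 17) (.exp (.alt (nat_lit 19) (.exp (.alt (nat_lit 23) (.exp (.alt (nat_lit 27) (.exp (.alt (nat_lit 16) (.cov (nat_lit 21518126979739920891907)) (.alt (nat_lit 21) (.exp (.alt (nat_lit 29) (.exp (.alt (nat_lit 20) (.cov (nat_lit 2854633654202683883521)) (.alt (nat_lit 20) (.exp (.alt (nat_lit 22) (.cov (nat_lit 3952214928787394002944)) (.alt (nat_lit 4) (.cov (nat_lit 174757773320)) .e))) .e))) .e)) (.alt (nat_lit 16) (.cov (nat_lit 19046335056)) .e)))) .e)) .e)) .e)) (.alt (nat_lit 17) (.cov (nat_lit 48423206769833017345)) (.alt (nat_lit 17) (.exp (.alt (nat_lit 19) (.exp (.alt (nat_lit 23) (.exp (.alt (nat_lit 21) (.exp (.alt (nat_lit 20) (.exp (.alt (nat_lit 29) (.exp (.alt (nat_lit 18) (.cov (nat_lit 365370048190742781755393)) (.alt (nat_lit 27) (.cov (nat_lit 158169301007)) .e))) .e)) .e)) .e)) .e)) (.alt (nat_lit 16) (.cov (nat_lit 29118185940366873591811)) (.alt (nat_lit 16) (.exp (.alt (nat_lit 18) (.exp (.alt (nat_lit 20) (.cov (nat_lit 64563637289761112066))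 (.alt (nat_lit 20) (.cov (nat_lit 7872148176392092123137)) (.alt (nat_lit 20) (.exp (.alt (nat_lit 21) (.cov (nat_lit 102247996583951845031939)) (.alt (nat_lit 22) (.exp (.alt (nat_lit 6) (.exp (.alt (nat_lit 23) (.cov (nat_lit 71481142091501797377)) (.alt (nat_lit 23) (.exp (.alt (nat_lit 31) (.cov (nat_lit 214443410852021272576)) (.alt (nat_lit 19) (.cov (nat_lit 632291336)) .e))) .e))) .e)) (.alt (nat_lit 21) (.cov (nat_lit 47570747984)) .e)))) .e)))) .e)) (.alt (nat_lit 16) (.cov (nat_lit 1327500434)) .e))))) .e))))) .e)) .e)) .e)) .e)) .e)) (.alt (nat_lit 9) (.cov (nat_lit 39210310891298881547)) .e))) (.alt (nat_lit 1) (.cov (nat_lit 1662526531548197421071)) (.alt (nat_lit 1) (.exp (.alt (nat_lit 9) (.exp (.alt (nat_lit 11) (.exp (.alt (nat_lit 10) (.exp (.alt (nat_lit 27) (.exp (.alt (nat_lit 17) (.exp (.alt (nat_lit 19) (.exp (.alt (nat_lit 23) (.exp (.alt (nat_lit 18) (.exp (.alt (nat_lit 26) (.exp (.alt (nat_lit 24) (.exp (.alt (nat_lit 30) (.exp (.alt (nat_lit 21)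 (.cov (nat_lit 102114257671843475357699)) (.alt (nat_lit 21) (.cov (nat_lit 43137711034118366560257)) (.alt (nat_lit 21) (.cov (nat_lit 43137711049355165696000)) (.alt (nat_lit 21) (.exp (.alt (nat_lit 20) (.cov (nat_lit 102111951828815353741313)) (.alt (nat_lit 29) (.cov (nat_lit 28718399503)) .e))) .e))))) .e)) .e)) .e)) .e)) .e)) .e)) (.alt (nat_lit 17) (.exp (.alt (nat_lit 19) (.cov (nat_lit 764971364673342443795037200186343424)) (.alt (nat_lit 19) (.exp (.alt (nat_lit 23) (.exp (.alt (nat_lit 31) (.exp (.alt (nat_lit 29) (.exp (.alt (nat_lit 30) (.exp (.alt (nat_lit 16) (.cov (nat_lit 43137711033973473280003)) (.alt (nat_lit 16) (.exp (.alt (nat_lit 18) (.exp (.alt (nat_lit 20) (.cov (nat_lit 45443554034379611176961)) (.alt (nat_lit 24) (.cov (nat_lit 28718399503)) .e))) .e)) (.alt (nat_lit 16) (.exp (.alt (nat_lit 20) (.cov (nat_lit 45443554034400232472578)) (.alt (nat_lit 18) (.cov (nat_lit 183934910531)) .e))) .e)))) .e)) .e)) .e)) .e)) .e))) (.alt (nat_lit 17) (.cov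 (nat_lit 36899871912117665798)) (.alt (nat_lit 17) (.exp (.alt (nat_lit 19) (.exp (.alt (nat_lit 23) (.exp (.alt (nat_lit 18) (.exp (.alt (nat_lit 16) (.cov (nat_lit 350174542784225901281287)) (.alt (nat_lit 16) (.cov (nat_lit 26683215443358547705859)) (.alt (nat_lit 16) (.cov (nat_lit 4251974929003552178177)) (.alt (nat_lit 16) (.exp (.alt (nat_lit 24) (.exp (.alt (nat_lit 20) (.cov (nat_lit 64563621861649285122)) (.alt (nat_lit 20) (.cov (nat_lit 63138593311284502986753)) (.alt (nat_lit 20) (.cov (nat_lit 4256586342343059177472)) (.alt (nat_lit 20) (.exp (.alt (nat_lit 22) (.cov (nat_lit 69175299083985747971)) (.alt (nat_lit 22) (.cov (nat_lit 29067456991740051849217)) (.alt (nat_lit 22) (.cov (nat_lit 29067457007133181083648)) (.alt (nat_lit 22) (.exp (.alt (nat_lit 30) (.cov (nat_lit 102111951828825095012353)) (.alt (nat_lit 6) (.cov (nat_lit 183859413007)) .e))) .e))))) .e))))) .e)) (.alt (nat_lit 16) (.exp (.alt (nat_lit 20) (.cov (nat_lit 345226203686441377071106)) (.alt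 (nat_lit 24) (.cov (nat_lit 26701662187432694513665)) (.alt (nat_lit 24) (.exp (.alt (nat_lit 28) (.cov (nat_lit 43137711033962036461571)) (.alt (nat_lit 28) (.cov (nat_lit 405579338719551598624768)) (.alt (nat_lit 26) (.cov (nat_lit 12144607423)) .e)))) .e)))) .e)))))) .e)) .e)) .e)) (.alt (nat_lit 17) (.exp (.alt (nat_lit 19) (.exp (.alt (nat_lit 23) (.exp (.alt (nat_lit 21) (.exp (.alt (nat_lit 29) (.exp (.alt (nat_lit 28) (.exp (.alt (nat_lit 12) (.exp (.alt (nat_lit 24) (.exp (.alt (nat_lit 20) (.cov (nat_lit 2854633654202683883521)) (.alt (nat_lit 20) (.exp (.alt (nat_lit 22) (.cov (nat_lit 2873080400475385233408)) (.alt (nat_lit 4) (.cov (nat_lit 174757773320)) .e))) .e))) .e)) .e)) .e)) .e)) (.alt (nat_lit 21) (.cov (nat_lit 404472534352206559707139)) (.alt (nat_lit 21) (.exp (.alt (nat_lit 29) (.exp (.alt (nat_lit 20) (.cov (nat_lit 1660206999630688288770)) (.alt (nat_lit 20) (.cov (nat_lit 63346119296453196120065)) (.alt (nat_lit 20) (.exp (.alt (nat_lit 4) (.cov (nat_lit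 3864592901199867412483)) (.alt (nat_lit 22) (.exp (.alt (nat_lit 6) (.exp (.alt (nat_lit 30) (.cov (nat_lit 45443554034389365030913)) (.alt (nat_lit 18) (.cov (nat_lit 185012846607)) .e))) .e)) (.alt (nat_lit 22) (.exp (.alt (nat_lit 30) (.cov (nat_lit 25295097819881805971458)) (.alt (nat_lit 6) (.cov (nat_lit 2329935939)) .e))) .e)))) .e)))) .e)) (.alt (nat_lit 21) (.exp (.alt (nat_lit 20) (.cov (nat_lit 405542445347953679794178)) (.alt (nat_lit 29) (.cov (nat_lit 12176066728)) .e))) .e))))) .e)) .e)) (.alt (nat_lit 17) (.exp (.alt (nat_lit 19) (.exp (.alt (nat_lit 16) (.cov (nat_lit 46116945946809991175)) (.alt (nat_lit 25) (.cov (nat_lit 21612673612811931222016)) .e))) .e)) (.alt (nat_lit 17) (.exp (.alt (nat_lit 16) (.exp (.alt (nat_lit 18) (.exp (.alt (nat_lit 2) (.exp (.alt (nat_lit 6) (.exp (.alt (nat_lit 22) (.exp (.alt (nat_lit 23) (.exp (.alt (nat_lit 20) (.exp (.alt (nat_lit 24) (.cov (nat_lit 102111951828815947235329)) (.alt (nat_lit 24) (.exp (.alt (nat_lit 28)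 (.cov (nat_lit 140656434557164191744)) (.alt (nat_lit 26) (.cov (nat_lit 13218349064)) .e))) .e))) .e)) .e)) .e)) .e)) .e)) (.alt (nat_lit 18) (.exp (.alt (nat_lit 22) (.exp (.alt (nat_lit 6) (.exp (.alt (nat_lit 20) (.exp (.alt (nat_lit 21) (.exp (.alt (nat_lit 23) (.exp (.alt (nat_lit 24) (.cov (nat_lit 102111951828815947235329)) (.alt (nat_lit 24) (.exp (.alt (nat_lit 28) (.cov (nat_lit 343914178992208386981888)) (.alt (nat_lit 26) (.cov (nat_lit 13218349064)) .e))) .e))) .e)) .e)) .e)) .e)) (.alt (nat_lit 2) (.exp (.alt (nat_lit 6) (.exp (.alt (nat_lit 14) (.exp (.alt (nat_lit 12) (.exp (.alt (nat_lit 30) (.exp (.alt (nat_lit 20) (.cov (nat_lit 433498494528323059713)) (.alt (nat_lit 24) (.cov (nat_lit 2915041295)) .e))) .e)) .e)) .e)) .e)) .e))) .e))) (.alt (nat_lit 16) (.cov (nat_lit 24248246386713602031631)) (.alt (nat_lit 16) (.exp (.alt (nat_lit 20) (.exp (.alt (nat_lit 22) (.exp (.alt (nat_lit 6) (.exp (.alt (nat_lit 23) (.exp (.alt (nat_lit 24) (.cov (nat_lit 102111951837612711346178))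 (.alt (nat_lit 24) (.exp (.alt (nat_lit 26) (.exp (.alt (nat_lit 18) (.exp (.alt (nat_lit 28) (.cov (nat_lit 140656434557164191744)) (.alt (nat_lit 8) (.cov (nat_lit 156376236040)) .e))) .e)) .e)) (.alt (nat_lit 18) (.cov (nat_lit 25590245861389112442880)) (.alt (nat_lit 18) (.exp (.alt (nat_lit 26) (.cov (nat_lit 45434330662342750109699)) (.alt (nat_lit 26) (.cov (nat_lit 29067456991740037169153)) (.alt (nat_lit 26) (.cov (nat_lit 29067457007133199958016)) (.alt (nat_lit 26) (.exp (.alt (nat_lit 24) (.cov (nat_lit 64563613054688821249)) (.alt (nat_lit 24) (.exp (.alt (nat_lit 28) (.cov (nat_lit 140656434557164191744)) (.alt (nat_lit 8) (.cov (nat_lit 156376236040)) .e))) .e))) .e))))) .e))))) .e)) .e)) .e)) .e)) (.alt (nat_lit 19) (.cov (nat_lit 10235640414246942015491)) (.alt (nat_lit 19) (.cov (nat_lit 790911230816209076225)) (.alt (nat_lit 19) (.exp (.alt (nat_lit 23) (.exp (.alt (nat_lit 18) (.cov (nat_lit 1609478453600945438731)) (.alt (nat_lit 18) (.cov (nat_lit 25590245861572978147334))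 (.alt (nat_lit 18) (.exp (.alt (nat_lit 16) (.exp (.alt (nat_lit 24) (.exp (.alt (nat_lit 20) (.exp (.alt (nat_lit 22) (.cov (nat_lit 69175299083985747971)) (.alt (nat_lit 22) (.cov (nat_lit 29067456991740051849217)) (.alt (nat_lit 22) (.cov (nat_lit 29067457007133181083648)) (.alt (nat_lit 22) (.exp (.alt (nat_lit 30) (.cov (nat_lit 102111951828825095012353)) (.alt (nat_lit 6) (.cov (nat_lit 183859413007)) .e))) .e))))) .e)) .e)) .e)) (.alt (nat_lit 18) (.exp (.alt (nat_lit 16) (.exp (.alt (nat_lit 20) (.exp (.alt (nat_lit 22) (.cov (nat_lit 142962284174916976643)) (.alt (nat_lit 22) (.exp (.alt (nat_lit 6) (.exp (.alt (nat_lit 30) (.cov (nat_lit 102111951828815376809985)) (.alt (nat_lit 30) (.exp (.alt (nat_lit 28) (.cov (nat_lit 45406660548431207989248)) (.alt (nat_lit 26) (.cov (nat_lit 159240945672)) .e))) .e))) .e)) (.alt (nat_lit 22) (.cov (nat_lit 11037311568)) .e)))) .e)) .e)) (.alt (nat_lit 18) (.cov (nat_lit 344128627265100780142592)) (.alt (nat_lit 18) (.exp (.alt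 (nat_lit 16) (.cov (nat_lit 1383505838533181964295)) (.alt (nat_lit 16) (.cov (nat_lit 26683215443358547705859)) (.alt (nat_lit 16) (.cov (nat_lit 4251974929159882276865)) (.alt (nat_lit 16) (.exp (.alt (nat_lit 24) (.exp (.alt (nat_lit 20) (.cov (nat_lit 102111951837777560076290)) (.alt (nat_lit 20) (.cov (nat_lit 26646321847468582502401)) (.alt (nat_lit 20) (.cov (nat_lit 63097088251458101444608)) (.alt (nat_lit 20) (.exp (.alt (nat_lit 4) (.cov (nat_lit 102075058340687431860227)) (.alt (nat_lit 4) (.cov (nat_lit 343874979667805162438657)) (.alt (nat_lit 4) (.cov (nat_lit 343874979683041961574400)) (.alt (nat_lit 4) (.exp (.alt (nat_lit 12) (.cov (nat_lit 64563613063855472641)) (.alt (nat_lit 6) (.cov (nat_lit 183859413007)) .e))) .e))))) .e))))) .e)) (.alt (nat_lit 16) (.exp (.alt (nat_lit 20) (.cov (nat_lit 26646321847458993274882)) (.alt (nat_lit 24) (.cov (nat_lit 26701662187432694513665)) (.alt (nat_lit 24) (.exp (.alt (nat_lit 28) (.cov (nat_lit 405579338594363636711427))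 (.alt (nat_lit 28) (.cov (nat_lit 405579338719551598624768)) (.alt (nat_lit 8) (.cov (nat_lit 19608371391)) .e)))) .e)))) .e)))))) .e))))))) .e)) (.alt (nat_lit 19) (.exp (.alt (nat_lit 23) (.cov (nat_lit 5363391074726572982283)) (.alt (nat_lit 23) (.exp (.alt (nat_lit 21) (.exp (.alt (nat_lit 20) (.exp (.alt (nat_lit 29) (.exp (.alt (nat_lit 22) (.cov (nat_lit 262866120643727851523)) (.alt (nat_lit 22) (.exp (.alt (nat_lit 6) (.exp (.alt (nat_lit 30) (.cov (nat_lit 45443554034389365030913)) (.alt (nat_lit 18) (.cov (nat_lit 185012846607)) .e))) .e)) (.alt (nat_lit 22) (.exp (.alt (nat_lit 30) (.cov (nat_lit 25295097819881805971458)) (.alt (nat_lit 6) (.cov (nat_lit 2329935939)) .e))) .e)))) .e)) .e)) .e)) (.alt (nat_lit 23) (.cov (nat_lit 26761618837969732370433)) (.alt (nat_lit 23) (.exp (.alt (nat_lit 21) (.exp (.alt (nat_lit 29) (.exp (.alt (nat_lit 28) (.exp (.alt (nat_lit 12) (.exp (.alt (nat_lit 24) (.exp (.alt (nat_lit 20) (.cov (nat_lit 2854633654202683883521)) (.alt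 (nat_lit 20) (.exp (.alt (nat_lit 22) (.cov (nat_lit 2873080400475385233408)) (.alt (nat_lit 4) (.cov (nat_lit 174757773320)) .e))) .e))) .e)) .e)) .e)) .e)) (.alt (nat_lit 21) (.cov (nat_lit 404472534352206559707139)) (.alt (nat_lit 21) (.exp (.alt (nat_lit 29) (.exp (.alt (nat_lit 20) (.cov (nat_lit 1660206999630688288770)) (.alt (nat_lit 20) (.cov (nat_lit 63346119296453196120065)) (.alt (nat_lit 20) (.exp (.alt (nat_lit 4) (.cov (nat_lit 3864592901199867412483)) (.alt (nat_lit 22) (.exp (.alt (nat_lit 6) (.exp (.alt (nat_lit 30) (.cov (nat_lit 45443554034389365030913)) (.alt (nat_lit 18) (.cov (nat_lit 185012846607)) .e))) .e)) (.alt (nat_lit 22) (.exp (.alt (nat_lit 30) (.cov (nat_lit 25295097819881805971458)) (.alt (nat_lit 6) (.cov (nat_lit 2329935939)) .e))) .e)))) .e)))) .e)) (.alt (nat_lit 21) (.exp (.alt (nat_lit 20) (.cov (nat_lit 405542445347953679794178)) (.alt (nat_lit 29) (.cov (nat_lit 12176066728)) .e))) .e))))) .e))))) .e)))))))) .e)))))))) .e)) .e)) .e))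 .e)) (.alt (nat_lit 1) (.exp (.alt (nat_lit 9) (.exp (.alt (nat_lit 11) (.exp (.alt (nat_lit 10) (.exp (.alt (nat_lit 17) (.cov (nat_lit 47998429926985034629140)) (.alt (nat_lit 17) (.cov (nat_lit 47998431376139682316299)) (.alt (nat_lit 17) (.exp (.alt (nat_lit 19) (.exp (.alt (nat_lit 23) (.exp (.alt (nat_lit 27) (.exp (.alt (nat_lit 21) (.exp (.alt (nat_lit 29) (.exp (.alt (nat_lit 28) (.exp (.alt (nat_lit 12) (.exp (.alt (nat_lit 24) (.exp (.alt (nat_lit 20) (.cov (nat_lit 2854633654202683883521)) (.alt (nat_lit 20) (.exp (.alt (nat_lit 22) (.cov (nat_lit 2873080400475385233408)) (.alt (nat_lit 4) (.cov (nat_lit 174757773320)) .e))) .e))) .e)) .e)) .e)) .e)) (.alt (nat_lit 21) (.cov (nat_lit 404472534352206559707139)) (.alt (nat_lit 21) (.exp (.alt (nat_lit 29) (.exp (.alt (nat_lit 20) (.cov (nat_lit 1660206999630688288770)) (.alt (nat_lit 20) (.cov (nat_lit 63346119296453196120065)) (.alt (nat_lit 20) (.exp (.alt (nat_lit 4) (.cov (nat_lit 3864592901199867412483)) (.alt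 (nat_lit 22) (.exp (.alt (nat_lit 6) (.exp (.alt (nat_lit 30) (.cov (nat_lit 45443554034389365030913)) (.alt (nat_lit 18) (.cov (nat_lit 185012846607)) .e))) .e)) (.alt (nat_lit 22) (.exp (.alt (nat_lit 30) (.cov (nat_lit 25295097819881805971458)) (.alt (nat_lit 6) (.cov (nat_lit 2329935939)) .e))) .e)))) .e)))) .e)) (.alt (nat_lit 21) (.exp (.alt (nat_lit 20) (.cov (nat_lit 405542445347953679794178)) (.alt (nat_lit 29) (.cov (nat_lit 12176066728)) .e))) .e))))) .e)) .e)) .e)) (.alt (nat_lit 17) (.cov (nat_lit 47998441100209005002753)) (.alt (nat_lit 17) (.exp (.alt (nat_lit 21) (.cov (nat_lit 10228720934674209177634)) (.alt (nat_lit 19) (.cov (nat_lit 48003043062147911254023)) (.alt (nat_lit 19) (.cov (nat_lit 2697843428023916822531)) (.alt (nat_lit 19) (.exp (.alt (nat_lit 23) (.exp (.alt (nat_lit 27) (.cov (nat_lit 6490948218271872057355)) (.alt (nat_lit 27) (.cov (nat_lit 10254085709164334546946)) (.alt (nat_lit 27) (.cov (nat_lit 48021489806220316377089)) (.alt (nat_lit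 27) (.exp (.alt (nat_lit 31) (.exp (.alt (nat_lit 29) (.exp (.alt (nat_lit 28) (.exp (.alt (nat_lit 12) (.exp (.alt (nat_lit 24) (.exp (.alt (nat_lit 30) (.cov (nat_lit 1600255057200175644673)) (.alt (nat_lit 30) (.exp (.alt (nat_lit 22) (.cov (nat_lit 193690823769072861184)) (.alt (nat_lit 14) (.cov (nat_lit 1751121928)) .e))) .e))) .e)) .e)) .e)) .e)) (.alt (nat_lit 31) (.cov (nat_lit 42053965222053426495491)) (.alt (nat_lit 31) (.exp (.alt (nat_lit 29) (.exp (.alt (nat_lit 30) (.cov (nat_lit 1683265429722835714050)) (.alt (nat_lit 30) (.cov (nat_lit 406921339355321763627009)) (.alt (nat_lit 30) (.exp (.alt (nat_lit 14) (.cov (nat_lit 384310242677385659940867)) (.alt (nat_lit 22) (.exp (.alt (nat_lit 6) (.exp (.alt (nat_lit 20) (.cov (nat_lit 45443554034379623759873)) (.alt (nat_lit 18) (.cov (nat_lit 158158815247)) .e))) .e)) (.alt (nat_lit 22) (.exp (.alt (nat_lit 20) (.cov (nat_lit 25272039389789658546178)) (.alt (nat_lit 6) (.cov (nat_lit 37316722755)) .e))) .e)))) .e))))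 .e)) (.alt (nat_lit 31) (.exp (.alt (nat_lit 30) (.cov (nat_lit 63120146793701130108930)) (.alt (nat_lit 29) (.cov (nat_lit 12176066728)) .e))) .e))))) .e))))) .e)) (.alt (nat_lit 19) (.cov (nat_lit 11566848427)) .e)))))) .e)))))) .e)) .e)) .e)) (.alt (nat_lit 1) (.cov (nat_lit 39213376318175444993)) (.alt (nat_lit 1) (.exp (.alt (nat_lit 9) (.exp (.alt (nat_lit 17) (.exp (.alt (nat_lit 16) (.cov (nat_lit 17295828851854890401941667148988419)) (.alt (nat_lit 16) (.exp (.alt (nat_lit 18) (.exp (.alt (nat_lit 20) (.cov (nat_lit 22356290052553609025174763458265089)) (.alt (nat_lit 20) (.cov (nat_lit 22843988539460343037963)) .e))) .e)) (.alt (nat_lit 16) (.exp (.alt (nat_lit 18) (.cov (nat_lit 14730104037047109122215738835206146)) (.alt (nat_lit 18) (.cov (nat_lit 10231027279060956872724)) .e))) .e)))) (.alt (nat_lit 17) (.exp (.alt (nat_lit 16) (.cov (nat_lit 1749365077079591478984070395854851)) (.alt (nat_lit 16) (.cov (nat_lit 1749365077063215381941430832332801)) (.alt (nat_lit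 16) (.cov (nat_lit 22498270101598883449029097938747392)) (.alt (nat_lit 16) (.cov (nat_lit 4323456759381259976738)) .e))))) (.alt (nat_lit 17) (.exp (.alt (nat_lit 16) (.exp (.alt (nat_lit 18) (.exp (.alt (nat_lit 20) (.exp (.alt (nat_lit 4) (.exp (.alt (nat_lit 6) (.exp (.alt (nat_lit 12) (.exp (.alt (nat_lit 19) (.cov (nat_lit 10171073546636741312519)) (.alt (nat_lit 19) (.exp (.alt (nat_lit 23) (.exp (.alt (nat_lit 21) (.exp (.alt (nat_lit 29) (.exp (.alt (nat_lit 27) (.cov (nat_lit 45438942348361172254721)) (.alt (nat_lit 27) (.exp (.alt (nat_lit 26) (.cov (nat_lit 1618701803463139917824)) (.alt (nat_lit 25) (.cov (nat_lit 185010749448)) .e))) .e))) .e)) .e)) .e)) (.alt (nat_lit 19) (.cov (nat_lit 800127944210617729025)) (.alt (nat_lit 19) (.exp (.alt (nat_lit 23) (.exp (.alt (nat_lit 27) (.cov (nat_lit 404338795055250307809282)) (.alt (nat_lit 27) (.cov (nat_lit 426580989689893748737)) (.alt (nat_lit 27) (.cov (nat_lit 795515985513294069760)) (.alt (nat_lit 27) (.exp (.alt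 (nat_lit 25) (.cov (nat_lit 404334183360435818856451)) (.alt (nat_lit 25) (.cov (nat_lit 406842940563256410898433)) (.alt (nat_lit 25) (.cov (nat_lit 406842940578649540132864)) (.alt (nat_lit 25) (.exp (.alt (nat_lit 24) (.cov (nat_lit 64563613054118395905)) (.alt (nat_lit 29) (.cov (nat_lit 185014943759)) .e))) .e))))) .e))))) .e)) (.alt (nat_lit 21) (.exp (.alt (nat_lit 29) (.cov (nat_lit 406852163950687672074242)) (.alt (nat_lit 23) (.cov (nat_lit 22060000216491755569153)) (.alt (nat_lit 23) (.exp (.alt (nat_lit 31) (.cov (nat_lit 45448165729194728226819)) (.alt (nat_lit 31) (.exp (.alt (nat_lit 29) (.exp (.alt (nat_lit 27) (.cov (nat_lit 45438942348361172254721)) (.alt (nat_lit 27) (.exp (.alt (nat_lit 26) (.cov (nat_lit 45402048862412775358464)) (.alt (nat_lit 25) (.cov (nat_lit 185010749448)) .e))) .e))) .e)) (.alt (nat_lit 22) (.cov (nat_lit 10030678207)) .e)))) .e)))) .e)))))) .e)) .e)) .e)) .e)) .e)) .e)) (.alt (nat_lit 17) (.cov (nat_lit 406898289796091229503499))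 (.alt (nat_lit 17) (.cov (nat_lit 36901140748370444294)) (.alt (nat_lit 17) (.exp (.alt (nat_lit 19) (.exp (.alt (nat_lit 23) (.exp (.alt (nat_lit 18) (.exp (.alt (nat_lit 16) (.exp (.alt (nat_lit 20) (.exp (.alt (nat_lit 21) (.exp (.alt (nat_lit 29) (.exp (.alt (nat_lit 4) (.exp (.alt (nat_lit 6) (.exp (.alt (nat_lit 12) (.exp (.alt (nat_lit 24) (.cov (nat_lit 45438942348361205809153)) (.alt (nat_lit 24) (.exp (.alt (nat_lit 26) (.cov (nat_lit 438110182745728614400)) (.alt (nat_lit 25) (.cov (nat_lit 47574941704)) .e))) .e))) .e)) .e)) .e)) .e)) .e)) (.alt (nat_lit 20) (.cov (nat_lit 55340372959359401995)) .e))) (.alt (nat_lit 16) (.cov (nat_lit 4251974929016705515535)) (.alt (nat_lit 16) (.exp (.alt (nat_lit 20) (.exp (.alt (nat_lit 4) (.exp (.alt (nat_lit 6) (.exp (.alt (nat_lit 12) (.exp (.alt (nat_lit 24) (.cov (nat_lit 102107340151593010987010)) (.alt (nat_lit 24) (.cov (nat_lit 1607172610407335460865)) (.alt (nat_lit 24) (.cov (nat_lit 1976107606230702227456)) (.alt (nat_lit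 24) (.exp (.alt (nat_lit 25) (.cov (nat_lit 102109645985806132707331)) (.alt (nat_lit 25) (.cov (nat_lit 104618403188626724749313)) (.alt (nat_lit 25) (.cov (nat_lit 104618403204019887538176)) (.alt (nat_lit 25) (.exp (.alt (nat_lit 27) (.cov (nat_lit 71481142081729069057)) (.alt (nat_lit 29) (.cov (nat_lit 47579136015)) .e))) .e))))) .e))))) .e)) .e)) .e)) .e)) (.alt (nat_lit 16) (.exp (.alt (nat_lit 20) (.exp (.alt (nat_lit 21) (.exp (.alt (nat_lit 29) (.exp (.alt (nat_lit 24) (.cov (nat_lit 25401166622483596443650)) (.alt (nat_lit 24) (.cov (nat_lit 46693321079514426507265)) (.alt (nat_lit 24) (.exp (.alt (nat_lit 28) (.cov (nat_lit 350188377826887374733315)) (.alt (nat_lit 26) (.exp (.alt (nat_lit 27) (.exp (.alt (nat_lit 30) (.cov (nat_lit 1581808313273073795073)) (.alt (nat_lit 30) (.exp (.alt (nat_lit 14) (.cov (nat_lit 175244079695363309568)) (.alt (nat_lit 22) (.cov (nat_lit 106954760)) .e))) .e))) .e)) (.alt (nat_lit 28) (.cov (nat_lit 1306526288)) .e)))) .e)))) .e))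 .e)) .e)) (.alt (nat_lit 16) (.cov (nat_lit 3892265264546689581057)) (.alt (nat_lit 21) (.exp (.alt (nat_lit 20) (.exp (.alt (nat_lit 29) (.cov (nat_lit 405597785353678738161675)) (.alt (nat_lit 29) (.cov (nat_lit 27808466836252710141958)) (.alt (nat_lit 29) (.exp (.alt (nat_lit 25) (.exp (.alt (nat_lit 27) (.exp (.alt (nat_lit 24) (.exp (.alt (nat_lit 28) (.cov (nat_lit 45448165722608512270339)) (.alt (nat_lit 28) (.cov (nat_lit 25410389979127124852737)) (.alt (nat_lit 28) (.cov (nat_lit 25410389994520287641600)) (.alt (nat_lit 13) (.exp (.alt (nat_lit 12) (.cov (nat_lit 45411272232250619461633)) (.alt (nat_lit 12) (.exp (.alt (nat_lit 14) (.cov (nat_lit 22823234116192290471936)) (.alt (nat_lit 4) (.cov (nat_lit 28762439688)) .e))) .e))) .e))))) .e)) .e)) .e)) (.alt (nat_lit 29) (.exp (.alt (nat_lit 25) (.exp (.alt (nat_lit 27) (.exp (.alt (nat_lit 28) (.cov (nat_lit 25410389979127823204355)) (.alt (nat_lit 28) (.exp (.alt (nat_lit 24) (.exp (.alt (nat_lit 30) (.cov (nat_lit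 1581808313273073795073)) (.alt (nat_lit 30) (.exp (.alt (nat_lit 14) (.cov (nat_lit 1572584943278861844480)) (.alt (nat_lit 22) (.cov (nat_lit 106954760)) .e))) .e))) .e)) (.alt (nat_lit 13) (.cov (nat_lit 11588862143)) .e)))) .e)) .e)) (.alt (nat_lit 29) (.cov (nat_lit 48026103106321760911360)) (.alt (nat_lit 29) (.exp (.alt (nat_lit 31) (.cov (nat_lit 43160769479451897495559)) (.alt (nat_lit 31) (.exp (.alt (nat_lit 27) (.exp (.alt (nat_lit 25) (.exp (.alt (nat_lit 24) (.exp (.alt (nat_lit 30) (.cov (nat_lit 1581808313273073795073)) (.alt (nat_lit 30) (.exp (.alt (nat_lit 14) (.cov (nat_lit 2610214297425028317184)) (.alt (nat_lit 22) (.cov (nat_lit 106954760)) .e))) .e))) .e)) .e)) .e)) (.alt (nat_lit 31) (.cov (nat_lit 364323980507094188033)) (.alt (nat_lit 31) (.exp (.alt (nat_lit 27) (.exp (.alt (nat_lit 30) (.cov (nat_lit 404338795055261765599234)) (.alt (nat_lit 30) (.cov (nat_lit 26549476441081600016385)) (.alt (nat_lit 30) (.cov (nat_lit 25488788859143688552448)) (.alt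 (nat_lit 30) (.exp (.alt (nat_lit 26) (.cov (nat_lit 45434330662353097457667)) (.alt (nat_lit 26) (.cov (nat_lit 2974537499487640748033)) (.alt (nat_lit 26) (.cov (nat_lit 2974537514871039197184)) (.alt (nat_lit 26) (.exp (.alt (nat_lit 10) (.cov (nat_lit 45397437174205078568961)) (.alt (nat_lit 24) (.cov (nat_lit 11551113231)) .e))) .e))))) .e))))) .e)) (.alt (nat_lit 13) (.exp (.alt (nat_lit 12) (.cov (nat_lit 1614090139436224348162)) (.alt (nat_lit 12) (.cov (nat_lit 2909974020564826718209)) (.alt (nat_lit 12) (.exp (.alt (nat_lit 8) (.cov (nat_lit 347781077725256848769027)) (.alt (nat_lit 14) (.exp (.alt (nat_lit 6) (.exp (.alt (nat_lit 10) (.cov (nat_lit 1609478429383626588161)) (.alt (nat_lit 10) (.exp (.alt (nat_lit 26) (.cov (nat_lit 202914195805949657088)) (.alt (nat_lit 11) (.cov (nat_lit 28311560)) .e))) .e))) .e)) (.alt (nat_lit 8) (.cov (nat_lit 9942598224)) .e)))) .e)))) .e)))))) .e))))))) .e)) (.alt (nat_lit 16) (.exp (.alt (nat_lit 24) (.cov (nat_lit 1976107705215458738187))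 (.alt (nat_lit 24) (.cov (nat_lit 21827111772397092470786)) (.alt (nat_lit 24) (.cov (nat_lit 6511705539851126308865)) (.alt (nat_lit 24) (.exp (.alt (nat_lit 26) (.exp (.alt (nat_lit 10) (.exp (.alt (nat_lit 14) (.exp (.alt (nat_lit 6) (.exp (.alt (nat_lit 12) (.exp (.alt (nat_lit 30) (.cov (nat_lit 1621007644273376493569)) (.alt (nat_lit 27) (.cov (nat_lit 300941327)) .e))) .e)) .e)) .e)) .e)) (.alt (nat_lit 8) (.cov (nat_lit 43119264692355934978051)) (.alt (nat_lit 26) (.exp (.alt (nat_lit 27) (.exp (.alt (nat_lit 30) (.exp (.alt (nat_lit 28) (.exp (.alt (nat_lit 20) (.exp (.alt (nat_lit 29) (.exp (.alt (nat_lit 14) (.cov (nat_lit 1637148547536849469440)) (.alt (nat_lit 22) (.cov (nat_lit 106954760)) .e))) .e)) .e)) .e)) (.alt (nat_lit 10) (.cov (nat_lit 25341214816394637475841)) (.alt (nat_lit 10) (.exp (.alt (nat_lit 14) (.cov (nat_lit 405547056792078282391555)) (.alt (nat_lit 14) (.exp (.alt (nat_lit 6) (.exp (.alt (nat_lit 30) (.cov (nat_lit 102111951828815372615681))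 (.alt (nat_lit 30) (.exp (.alt (nat_lit 28) (.cov (nat_lit 21538879560060244066304)) (.alt (nat_lit 22) (.cov (nat_lit 10523508744)) .e))) .e))) .e)) (.alt (nat_lit 8) (.cov (nat_lit 19608371391)) .e)))) .e)))) .e)) (.alt (nat_lit 25) (.cov (nat_lit 157065153684)) .e))))) .e))))) .e)))))))) .e)) .e)) .e)) (.alt (nat_lit 17) (.exp (.alt (nat_lit 19) (.exp (.alt (nat_lit 23) (.exp (.alt (nat_lit 16) (.cov (nat_lit 276702506909809246242)) (.alt (nat_lit 21) (.cov (nat_lit 804742506736445816839)) (.alt (nat_lit 21) (.cov (nat_lit 26757009344377522225155)) (.alt (nat_lit 21) (.exp (.alt (nat_lit 29) (.exp (.alt (nat_lit 20) (.cov (nat_lit 365591409346284768722955)) (.alt (nat_lit 20) (.exp (.alt (nat_lit 22) (.exp (.alt (nat_lit 18) (.exp (.alt (nat_lit 6) (.exp (.alt (nat_lit 28) (.cov (nat_lit 350188377826896535093251)) (.alt (nat_lit 28) (.exp (.alt (nat_lit 30) (.exp (.alt (nat_lit 24) (.cov (nat_lit 1567973255061432172545)) (.alt (nat_lit 12) (.cov (nat_lit 183853121551)) .e)))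 .e)) (.alt (nat_lit 16) (.cov (nat_lit 185010749631)) .e)))) .e)) .e)) .e)) (.alt (nat_lit 20) (.cov (nat_lit 48026103106322374328321)) (.alt (nat_lit 20) (.exp (.alt (nat_lit 22) (.exp (.alt (nat_lit 18) (.exp (.alt (nat_lit 26) (.exp (.alt (nat_lit 27) (.exp (.alt (nat_lit 10) (.exp (.alt (nat_lit 30) (.cov (nat_lit 25267427703760384688129)) (.alt (nat_lit 6) (.cov (nat_lit 12060721167)) .e))) .e)) .e)) .e)) .e)) (.alt (nat_lit 16) (.cov (nat_lit 406842940965698257551363)) (.alt (nat_lit 16) (.exp (.alt (nat_lit 18) (.exp (.alt (nat_lit 24) (.cov (nat_lit 25401166622483596443650)) (.alt (nat_lit 24) (.cov (nat_lit 46693321079514426507265)) (.alt (nat_lit 24) (.exp (.alt (nat_lit 28) (.cov (nat_lit 350188377826887374733315)) (.alt (nat_lit 26) (.exp (.alt (nat_lit 27) (.exp (.alt (nat_lit 30) (.cov (nat_lit 1581808313273073795073)) (.alt (nat_lit 30) (.exp (.alt (nat_lit 14) (.cov (nat_lit 175244079695363309568)) (.alt (nat_lit 22) (.cov (nat_lit 106954760)) .e))) .e))) .e))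 (.alt (nat_lit 28) (.cov (nat_lit 1306526288)) .e)))) .e)))) .e)) (.alt (nat_lit 16) (.cov (nat_lit 10554969234)) .e))))) .e))))) .e)) (.alt (nat_lit 21) (.cov (nat_lit 166259071067)) .e)))))) .e)) .e)) (.alt (nat_lit 17) (.cov (nat_lit 36906141327251472384)) (.alt (nat_lit 17) (.exp (.alt (nat_lit 16) (.exp (.alt (nat_lit 18) (.exp (.alt (nat_lit 19) (.exp (.alt (nat_lit 23) (.exp (.alt (nat_lit 27) (.exp (.alt (nat_lit 22) (.exp (.alt (nat_lit 20) (.exp (.alt (nat_lit 6) (.exp (.alt (nat_lit 24) (.cov (nat_lit 64563621850882506754)) (.alt (nat_lit 24) (.cov (nat_lit 347670397276208325722113)) (.alt (nat_lit 24) (.cov (nat_lit 47947699680924136374272)) (.alt (nat_lit 24) (.exp (.alt (nat_lit 26) (.cov (nat_lit 69175299073218969603)) (.alt (nat_lit 26) (.cov (nat_lit 29067456991740056043521)) (.alt (nat_lit 26) (.cov (nat_lit 29067457007133185277952)) (.alt (nat_lit 26) (.exp (.alt (nat_lit 30) (.cov (nat_lit 1581808313116753133569)) (.alt (nat_lit 10) (.cov (nat_lit 183859413007))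 .e))) .e))))) .e))))) .e)) .e)) .e)) .e)) .e)) .e)) (.alt (nat_lit 18) (.exp (.alt (nat_lit 19) (.exp (.alt (nat_lit 23) (.exp (.alt (nat_lit 27) (.exp (.alt (nat_lit 26) (.exp (.alt (nat_lit 24) (.exp (.alt (nat_lit 10) (.exp (.alt (nat_lit 20) (.cov (nat_lit 102111951837777560076290)) (.alt (nat_lit 20) (.cov (nat_lit 26646321847468582502401)) (.alt (nat_lit 20) (.cov (nat_lit 63097088251458101444608)) (.alt (nat_lit 20) (.exp (.alt (nat_lit 4) (.cov (nat_lit 102075058340687431860227)) (.alt (nat_lit 4) (.cov (nat_lit 343874979667805162438657)) (.alt (nat_lit 4) (.cov (nat_lit 343874979683041961574400)) (.alt (nat_lit 4) (.exp (.alt (nat_lit 12) (.cov (nat_lit 365351601446825422225409)) (.alt (nat_lit 6) (.cov (nat_lit 183859413007)) .e))) .e))))) .e))))) .e)) .e)) .e)) .e)) .e)) .e)) .e))) (.alt (nat_lit 19) (.exp (.alt (nat_lit 23) (.cov (nat_lit 9502319629738003500707873579597825)) (.alt (nat_lit 23) (.cov (nat_lit 45568072844417617100811)) .e))) (.alt (nat_lit 19) (.cov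 (nat_lit 136053173154910044175)) (.alt (nat_lit 19) (.exp (.alt (nat_lit 23) (.exp (.alt (nat_lit 21) (.exp (.alt (nat_lit 29) (.exp (.alt (nat_lit 20) (.exp (.alt (nat_lit 18) (.exp (.alt (nat_lit 2) (.cov (nat_lit 894667228894514627859055428786716672)) (.alt (nat_lit 16) (.cov (nat_lit 63138593311287928684551)) .e))) (.alt (nat_lit 18) (.cov (nat_lit 26549476643548111568902)) (.alt (nat_lit 18) (.exp (.alt (nat_lit 26) (.exp (.alt (nat_lit 27) (.exp (.alt (nat_lit 24) (.exp (.alt (nat_lit 2) (.cov (nat_lit 26650933511507637436419)) (.alt (nat_lit 2) (.cov (nat_lit 47910806063190688923649)) (.alt (nat_lit 2) (.cov (nat_lit 47910806078427488059392)) (.alt (nat_lit 2) (.exp (.alt (nat_lit 6) (.cov (nat_lit 350151484332141166198785)) (.alt (nat_lit 6) (.exp (.alt (nat_lit 14) (.cov (nat_lit 175244079695388475392)) (.alt (nat_lit 4) (.cov (nat_lit 184998166536)) .e))) .e))) .e))))) .e)) .e)) .e)) (.alt (nat_lit 27) (.exp (.alt (nat_lit 25) (.exp (.alt (nat_lit 24) (.exp (.alt (nat_lit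 26) (.cov (nat_lit 3906098075365726486531)) (.alt (nat_lit 26) (.exp (.alt (nat_lit 18) (.exp (.alt (nat_lit 10) (.cov (nat_lit 404311124930344224030721)) (.alt (nat_lit 10) (.exp (.alt (nat_lit 14) (.cov (nat_lit 41643524757394435342336)) (.alt (nat_lit 2) (.cov (nat_lit 1918894088)) .e))) .e))) .e)) (.alt (nat_lit 31) (.cov (nat_lit 37343985855)) .e)))) .e)) .e)) (.alt (nat_lit 27) (.cov (nat_lit 21827114798252387467264)) (.alt (nat_lit 27) (.exp (.alt (nat_lit 26) (.cov (nat_lit 46674874225490711805959)) (.alt (nat_lit 26) (.cov (nat_lit 347665785700305973805059)) (.alt (nat_lit 26) (.cov (nat_lit 3048325243388188164097)) (.alt (nat_lit 26) (.exp (.alt (nat_lit 18) (.exp (.alt (nat_lit 10) (.cov (nat_lit 63120146551828488650754)) (.alt (nat_lit 24) (.cov (nat_lit 405597785353674156933121)) (.alt (nat_lit 24) (.cov (nat_lit 406879834178947141074944)) (.alt (nat_lit 24) (.exp (.alt (nat_lit 8) (.cov (nat_lit 2826963538111019089923)) (.alt (nat_lit 8) (.cov (nat_lit 347781077725413166284801))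 (.alt (nat_lit 8) (.cov (nat_lit 26664768591532516179968)) (.alt (nat_lit 8) (.exp (.alt (nat_lit 10) (.cov (nat_lit 404311124930344224030721)) (.alt (nat_lit 10) (.exp (.alt (nat_lit 14) (.cov (nat_lit 345189310176303540862976)) (.alt (nat_lit 2) (.cov (nat_lit 1918894088)) .e))) .e))) .e))))) .e))))) .e)) (.alt (nat_lit 25) (.cov (nat_lit 11601446363)) .e)))))) .e))))))) .e)) .e)) .e)) .e)) (.alt (nat_lit 19) (.exp (.alt (nat_lit 23) (.exp (.alt (nat_lit 21) (.exp (.alt (nat_lit 29) (.exp (.alt (nat_lit 18) (.cov (nat_lit 63286167378371761143819)) (.alt (nat_lit 18) (.cov (nat_lit 45563459709288560197634)) (.alt (nat_lit 27) (.cov (nat_lit 45586519588490615717889)) (.alt (nat_lit 27) (.cov (nat_lit 21837647876)) .e))))) .e)) .e)) .e)) (.alt (nat_lit 19) (.cov (nat_lit 3152101104661509963777)) (.alt (nat_lit 19) (.exp (.alt (nat_lit 23) (.exp (.alt (nat_lit 27) (.cov (nat_lit 347817971615828443922453)) (.alt (nat_lit 27) (.exp (.alt (nat_lit 31) (.exp (.alt (nat_lit 29) (.exp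 (.alt (nat_lit 30) (.exp (.alt (nat_lit 22) (.exp (.alt (nat_lit 6) (.exp (.alt (nat_lit 26) (.cov (nat_lit 347813359527551920242691)) (.alt (nat_lit 26) (.exp (.alt (nat_lit 18) (.exp (.alt (nat_lit 24) (.cov (nat_lit 1567973255071198609409)) (.alt (nat_lit 10) (.cov (nat_lit 21214789647)) .e))) .e)) (.alt (nat_lit 26) (.exp (.alt (nat_lit 24) (.cov (nat_lit 1567973255062126329858)) (.alt (nat_lit 18) (.cov (nat_lit 10452205635)) .e))) .e)))) .e)) .e)) .e)) .e)) (.alt (nat_lit 11) (.cov (nat_lit 10254085709172437942279)) .e))) (.alt (nat_lit 27) (.cov (nat_lit 63159350749569096876038)) (.alt (nat_lit 27) (.exp (.alt (nat_lit 25) (.exp (.alt (nat_lit 29) (.exp (.alt (nat_lit 24) (.exp (.alt (nat_lit 26) (.cov (nat_lit 26706273765727118819335)) (.alt (nat_lit 26) (.cov (nat_lit 26706273873616630185987)) (.alt (nat_lit 26) (.cov (nat_lit 42053965222062566932481)) (.alt (nat_lit 26) (.exp (.alt (nat_lit 18) (.exp (.alt (nat_lit 30) (.cov (nat_lit 2836186919091186958338)) (.alt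 (nat_lit 10) (.cov (nat_lit 405565503551545729351681)) (.alt (nat_lit 10) (.cov (nat_lit 26669380385303084138496)) (.alt (nat_lit 10) (.cov (nat_lit 12127830207)) .e))))) .e)) (.alt (nat_lit 11) (.cov (nat_lit 20713571803)) .e)))))) .e)) .e)) .e)) (.alt (nat_lit 27) (.cov (nat_lit 48021495525880368201729)) (.alt (nat_lit 27) (.cov (nat_lit 347817983352012591333376)) (.alt (nat_lit 27) (.exp (.alt (nat_lit 31) (.exp (.alt (nat_lit 29) (.cov (nat_lit 764880090077960362897276235613732865)) (.alt (nat_lit 29) (.exp (.alt (nat_lit 28) (.cov (nat_lit 764880090077960326003790287216836608)) (.alt (nat_lit 25) (.cov (nat_lit 347827194708744533442567)) .e))) .e))) (.alt (nat_lit 31) (.cov (nat_lit 45595740084208579641359)) (.alt (nat_lit 31) (.exp (.alt (nat_lit 29) (.exp (.alt (nat_lit 28) (.exp (.alt (nat_lit 24) (.exp (.alt (nat_lit 20) (.exp (.alt (nat_lit 30) (.cov (nat_lit 25267427712721999626242)) (.alt (nat_lit 30) (.cov (nat_lit 4118235647441054466049)) (.alt (nat_lit 30) (.cov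 (nat_lit 5215817133132007604224)) (.alt (nat_lit 30) (.exp (.alt (nat_lit 26) (.cov (nat_lit 1572584941245375184899)) (.alt (nat_lit 26) (.cov (nat_lit 2974537499634233769985)) (.alt (nat_lit 26) (.cov (nat_lit 2974537514871032905728)) (.alt (nat_lit 26) (.exp (.alt (nat_lit 10) (.cov (nat_lit 25267427703916117098497)) (.alt (nat_lit 18) (.cov (nat_lit 9867100175)) .e))) .e))))) .e))))) .e)) .e)) .e)) .e)) (.alt (nat_lit 31) (.exp (.alt (nat_lit 29) (.exp (.alt (nat_lit 25) (.exp (.alt (nat_lit 24) (.exp (.alt (nat_lit 30) (.cov (nat_lit 405583950295784988082178)) (.alt (nat_lit 30) (.cov (nat_lit 81954272380817460166657)) (.alt (nat_lit 30) (.exp (.alt (nat_lit 26) (.cov (nat_lit 2974537499477937225731)) (.alt (nat_lit 22) (.exp (.alt (nat_lit 18) (.exp (.alt (nat_lit 6) (.cov (nat_lit 365328543016586674438145)) (.alt (nat_lit 20) (.cov (nat_lit 742391823)) .e))) .e)) (.alt (nat_lit 22) (.exp (.alt (nat_lit 6) (.cov (nat_lit 365328543016743038091266)) (.alt (nat_lit 18) (.cov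 (nat_lit 21812478019)) .e))) .e)))) .e)))) .e)) .e)) .e)) (.alt (nat_lit 25) (.cov (nat_lit 406916734587430513934337)) (.alt (nat_lit 25) (.exp (.alt (nat_lit 29) (.exp (.alt (nat_lit 24) (.cov (nat_lit 25401166622493293674507)) (.alt (nat_lit 24) (.cov (nat_lit 26701662187598219575302)) (.alt (nat_lit 24) (.cov (nat_lit 26701662466874173030402)) (.alt (nat_lit 24) (.cov (nat_lit 47979983182907870019585)) (.alt (nat_lit 24) (.cov (nat_lit 404490983974801103650816)) (.alt (nat_lit 24) (.exp (.alt (nat_lit 16) (.cov (nat_lit 43137711049383910309895)) (.alt (nat_lit 16) (.cov (nat_lit 26683215443524501635075)) (.alt (nat_lit 26) (.cov (nat_lit 42053965222062566932481)) (.alt (nat_lit 26) (.exp (.alt (nat_lit 18) (.exp (.alt (nat_lit 30) (.cov (nat_lit 2836186919091186958338)) (.alt (nat_lit 10) (.cov (nat_lit 405565503551545729351681)) (.alt (nat_lit 10) (.cov (nat_lit 26669380385303084138496)) (.alt (nat_lit 10) (.cov (nat_lit 12127830207)) .e))))) .e)) (.alt (nat_lit 16) (.cov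 (nat_lit 20721960411)) .e)))))) .e))))))) .e)) (.alt (nat_lit 11) (.exp (.alt (nat_lit 10) (.cov (nat_lit 25590245861547187372043)) (.alt (nat_lit 10) (.exp (.alt (nat_lit 26) (.exp (.alt (nat_lit 18) (.exp (.alt (nat_lit 30) (.exp (.alt (nat_lit 14) (.cov (nat_lit 22754058832531848953859)) (.alt (nat_lit 14) (.exp (.alt (nat_lit 6) (.exp (.alt (nat_lit 12) (.cov (nat_lit 6410243574566534250497)) (.alt (nat_lit 12) (.exp (.alt (nat_lit 28) (.cov (nat_lit 2850021970383272411136)) (.alt (nat_lit 8) (.cov (nat_lit 9957277704)) .e))) .e))) .e)) (.alt (nat_lit 14) (.cov (nat_lit 9776923216)) .e)))) .e)) .e)) .e)) (.alt (nat_lit 10) (.cov (nat_lit 344128627265257129115649)) (.alt (nat_lit 10) (.exp (.alt (nat_lit 26) (.exp (.alt (nat_lit 18) (.exp (.alt (nat_lit 22) (.exp (.alt (nat_lit 6) (.exp (.alt (nat_lit 30) (.exp (.alt (nat_lit 24) (.cov (nat_lit 102111951828815936749569)) (.alt (nat_lit 24) (.exp (.alt (nat_lit 28) (.cov (nat_lit 365346989762849671217152)) (.alt (nat_lit 16)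 (.cov (nat_lit 10523508744)) .e))) .e))) .e)) .e)) .e)) .e)) (.alt (nat_lit 8) (.cov (nat_lit 43119264692321019494403)) (.alt (nat_lit 8) (.exp (.alt (nat_lit 24) (.exp (.alt (nat_lit 12) (.cov (nat_lit 26498747894869149089794)) (.alt (nat_lit 12) (.cov (nat_lit 1706323972110045675521)) (.alt (nat_lit 12) (.exp (.alt (nat_lit 4) (.cov (nat_lit 21518126979595020271619)) (.alt (nat_lit 28) (.exp (.alt (nat_lit 29) (.exp (.alt (nat_lit 20) (.cov (nat_lit 365370048190742804824065)) (.alt (nat_lit 20) (.exp (.alt (nat_lit 22) (.cov (nat_lit 43013195504867382132736)) (.alt (nat_lit 16) (.cov (nat_lit 158160912392)) .e))) .e))) .e)) (.alt (nat_lit 4) (.cov (nat_lit 166249628240)) .e)))) .e)))) .e)) (.alt (nat_lit 2) (.cov (nat_lit 1428163731)) .e))))) .e))))) .e)))))))) .e)))))))) .e)) (.alt (nat_lit 19) (.exp (.alt (nat_lit 23) (.cov (nat_lit 1450377099984869785619)) (.alt (nat_lit 23) (.cov (nat_lit 1597954089436969959435)) (.alt (nat_lit 23) (.cov (nat_lit 4330382187299402153986))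 (.alt (nat_lit 23) (.cov (nat_lit 63286179387080237383681)) (.alt (nat_lit 23) (.exp (.alt (nat_lit 31) (.cov (nat_lit 347898677003114443178018)) (.alt (nat_lit 21) (.cov (nat_lit 804742506736445816839)) (.alt (nat_lit 21) (.cov (nat_lit 26757009344377522225155)) (.alt (nat_lit 21) (.exp (.alt (nat_lit 29) (.exp (.alt (nat_lit 20) (.cov (nat_lit 365591409346284768722955)) (.alt (nat_lit 20) (.exp (.alt (nat_lit 22) (.exp (.alt (nat_lit 18) (.exp (.alt (nat_lit 6) (.exp (.alt (nat_lit 28) (.cov (nat_lit 350188377826896535093251)) (.alt (nat_lit 28) (.exp (.alt (nat_lit 30) (.exp (.alt (nat_lit 24) (.cov (nat_lit 1567973255061432172545)) (.alt (nat_lit 12) (.cov (nat_lit 183853121551)) .e))) .e)) (.alt (nat_lit 16) (.cov (nat_lit 185010749631)) .e)))) .e)) .e)) .e)) (.alt (nat_lit 20) (.cov (nat_lit 48026103106322374328321)) (.alt (nat_lit 20) (.exp (.alt (nat_lit 22) (.exp (.alt (nat_lit 18) (.exp (.alt (nat_lit 26) (.exp (.alt (nat_lit 27) (.exp (.alt (nat_lit 10) (.exp (.alt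 (nat_lit 30) (.cov (nat_lit 25267427703760384688129)) (.alt (nat_lit 6) (.cov (nat_lit 12060721167)) .e))) .e)) .e)) .e)) .e)) (.alt (nat_lit 16) (.cov (nat_lit 406842940965698257551363)) (.alt (nat_lit 16) (.exp (.alt (nat_lit 18) (.exp (.alt (nat_lit 24) (.cov (nat_lit 25401166622483596443650)) (.alt (nat_lit 24) (.cov (nat_lit 46693321079514426507265)) (.alt (nat_lit 24) (.exp (.alt (nat_lit 28) (.cov (nat_lit 350188377826887374733315)) (.alt (nat_lit 26) (.exp (.alt (nat_lit 27) (.exp (.alt (nat_lit 30) (.cov (nat_lit 1581808313273073795073)) (.alt (nat_lit 30) (.exp (.alt (nat_lit 14) (.cov (nat_lit 175244079695363309568)) (.alt (nat_lit 22) (.cov (nat_lit 106954760)) .e))) .e))) .e)) (.alt (nat_lit 28) (.cov (nat_lit 1306526288)) .e)))) .e)))) .e)) (.alt (nat_lit 16) (.cov (nat_lit 10554969234)) .e))))) .e))))) .e)) (.alt (nat_lit 21) (.cov (nat_lit 166259071067)) .e)))))) .e)))))) .e))))))))) .e)))))))))) .e)) (.alt (nat_lit 1) (.exp (.alt (nat_lit 9) (.cov (nat_lit 25548745452509570531545))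 (.alt (nat_lit 9) (.cov (nat_lit 25474962583988026212370)) (.alt (nat_lit 9) (.cov (nat_lit 47917731224883181912075)) (.alt (nat_lit 17) (.exp (.alt (nat_lit 19) (.exp (.alt (nat_lit 23) (.exp (.alt (nat_lit 18) (.exp (.alt (nat_lit 16) (.cov (nat_lit 4251974929159882276898)) (.alt (nat_lit 16) (.exp (.alt (nat_lit 20) (.exp (.alt (nat_lit 22) (.exp (.alt (nat_lit 6) (.exp (.alt (nat_lit 30) (.exp (.alt (nat_lit 24) (.cov (nat_lit 45436636529587621199874)) (.alt (nat_lit 24) (.cov (nat_lit 22784034921375095324673)) (.alt (nat_lit 24) (.exp (.alt (nat_lit 26) (.cov (nat_lit 96845423979894145027)) (.alt (nat_lit 25) (.exp (.alt (nat_lit 27) (.exp (.alt (nat_lit 9) (.cov (nat_lit 102077364183677122117633)) (.alt (nat_lit 29) (.cov (nat_lit 181403663)) .e))) .e)) (.alt (nat_lit 25) (.exp (.alt (nat_lit 9) (.cov (nat_lit 102077364183723527897090)) (.alt (nat_lit 27) (.cov (nat_lit 11621367875)) .e))) .e)))) .e)))) .e)) .e)) .e)) .e)) (.alt (nat_lit 16) (.cov (nat_lit 43137714611772834447363))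 (.alt (nat_lit 21) (.exp (.alt (nat_lit 20) (.exp (.alt (nat_lit 29) (.cov (nat_lit 29976106454362357771)) (.alt (nat_lit 29) (.exp (.alt (nat_lit 25) (.exp (.alt (nat_lit 9) (.exp (.alt (nat_lit 27) (.exp (.alt (nat_lit 28) (.cov (nat_lit 25410389979127823204355)) (.alt (nat_lit 28) (.exp (.alt (nat_lit 24) (.exp (.alt (nat_lit 30) (.cov (nat_lit 1581808313273073795073)) (.alt (nat_lit 30) (.exp (.alt (nat_lit 14) (.cov (nat_lit 1572584943278861844480)) (.alt (nat_lit 22) (.cov (nat_lit 106954760)) .e))) .e))) .e)) (.alt (nat_lit 13) (.cov (nat_lit 11588862143)) .e)))) .e)) .e)) .e)) (.alt (nat_lit 29) (.cov (nat_lit 61789680021721276481537)) (.alt (nat_lit 29) (.exp (.alt (nat_lit 13) (.cov (nat_lit 10129568480225371619335)) (.alt (nat_lit 13) (.cov (nat_lit 25484177358027041538051)) (.alt (nat_lit 13) (.exp (.alt (nat_lit 9) (.exp (.alt (nat_lit 12) (.cov (nat_lit 1614090139436224348162)) (.alt (nat_lit 12) (.cov (nat_lit 2909974020564826718209)) (.alt (nat_lit 12) (.exp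 (.alt (nat_lit 8) (.cov (nat_lit 347781077725256848769027)) (.alt (nat_lit 14) (.exp (.alt (nat_lit 6) (.exp (.alt (nat_lit 10) (.cov (nat_lit 1609478429383626588161)) (.alt (nat_lit 10) (.exp (.alt (nat_lit 26) (.cov (nat_lit 202914195805949657088)) (.alt (nat_lit 11) (.cov (nat_lit 28311560)) .e))) .e))) .e)) (.alt (nat_lit 8) (.cov (nat_lit 9942598224)) .e)))) .e)))) .e)) (.alt (nat_lit 13) (.cov (nat_lit 156574420113)) .e))))) .e))))) .e)) (.alt (nat_lit 16) (.cov (nat_lit 11597256802)) .e)))))) .e)) .e)) .e)) (.alt (nat_lit 17) (.cov (nat_lit 25493416567245584203777)) (.alt (nat_lit 9) (.exp (.alt (nat_lit 11) (.cov (nat_lit 3048327754518170173478)) (.alt (nat_lit 11) (.cov (nat_lit 21790223502542698971170)) (.alt (nat_lit 11) (.cov (nat_lit 62268740973237370887)) (.alt (nat_lit 11) (.cov (nat_lit 21534281582763158011907)) (.alt (nat_lit 11) (.exp (.alt (nat_lit 10) (.exp (.alt (nat_lit 27) (.cov (nat_lit 347891760019296421412884)) (.alt (nat_lit 27) (.cov (nat_lit 48021489806230141534219))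 (.alt (nat_lit 27) (.exp (.alt (nat_lit 19) (.exp (.alt (nat_lit 23) (.exp (.alt (nat_lit 17) (.exp (.alt (nat_lit 31) (.exp (.alt (nat_lit 29) (.exp (.alt (nat_lit 28) (.exp (.alt (nat_lit 12) (.exp (.alt (nat_lit 24) (.exp (.alt (nat_lit 30) (.cov (nat_lit 1600255057200175644673)) (.alt (nat_lit 30) (.exp (.alt (nat_lit 22) (.cov (nat_lit 193690823769072861184)) (.alt (nat_lit 14) (.cov (nat_lit 1751121928)) .e))) .e))) .e)) .e)) .e)) .e)) (.alt (nat_lit 31) (.cov (nat_lit 42053965222053426495491)) (.alt (nat_lit 31) (.exp (.alt (nat_lit 29) (.exp (.alt (nat_lit 30) (.cov (nat_lit 1683265429722835714050)) (.alt (nat_lit 30) (.cov (nat_lit 406921339355321763627009)) (.alt (nat_lit 30) (.exp (.alt (nat_lit 14) (.cov (nat_lit 384310242677385659940867)) (.alt (nat_lit 22) (.exp (.alt (nat_lit 6) (.exp (.alt (nat_lit 20) (.cov (nat_lit 45443554034379623759873)) (.alt (nat_lit 18) (.cov (nat_lit 158158815247)) .e))) .e)) (.alt (nat_lit 22) (.exp (.alt (nat_lit 20) (.cov (nat_lit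 25272039389789658546178)) (.alt (nat_lit 6) (.cov (nat_lit 37316722755)) .e))) .e)))) .e)))) .e)) (.alt (nat_lit 31) (.exp (.alt (nat_lit 30) (.cov (nat_lit 63120146793701130108930)) (.alt (nat_lit 29) (.cov (nat_lit 12176066728)) .e))) .e))))) .e)) .e)) .e)) (.alt (nat_lit 27) (.cov (nat_lit 1683278417152489553921)) (.alt (nat_lit 27) (.exp (.alt (nat_lit 31) (.cov (nat_lit 102337925780727380574242)) (.alt (nat_lit 19) (.cov (nat_lit 48003043062147900768263)) (.alt (nat_lit 19) (.cov (nat_lit 2697843428033570013187)) (.alt (nat_lit 19) (.exp (.alt (nat_lit 23) (.exp (.alt (nat_lit 17) (.cov (nat_lit 103350189663302289719307)) (.alt (nat_lit 17) (.cov (nat_lit 102317173695030268788738)) (.alt (nat_lit 17) (.cov (nat_lit 47998431376137899737089)) (.alt (nat_lit 17) (.exp (.alt (nat_lit 21) (.exp (.alt (nat_lit 29) (.exp (.alt (nat_lit 28) (.exp (.alt (nat_lit 12) (.exp (.alt (nat_lit 24) (.exp (.alt (nat_lit 20) (.cov (nat_lit 2854633654202683883521)) (.alt (nat_lit 20) (.exp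 (.alt (nat_lit 22) (.cov (nat_lit 2873080400475385233408)) (.alt (nat_lit 4) (.cov (nat_lit 174757773320)) .e))) .e))) .e)) .e)) .e)) .e)) (.alt (nat_lit 21) (.cov (nat_lit 404472534352206559707139)) (.alt (nat_lit 21) (.exp (.alt (nat_lit 29) (.exp (.alt (nat_lit 20) (.cov (nat_lit 1660206999630688288770)) (.alt (nat_lit 20) (.cov (nat_lit 63346119296453196120065)) (.alt (nat_lit 20) (.exp (.alt (nat_lit 4) (.cov (nat_lit 3864592901199867412483)) (.alt (nat_lit 22) (.exp (.alt (nat_lit 6) (.exp (.alt (nat_lit 30) (.cov (nat_lit 45443554034389365030913)) (.alt (nat_lit 18) (.cov (nat_lit 185012846607)) .e))) .e)) (.alt (nat_lit 22) (.exp (.alt (nat_lit 30) (.cov (nat_lit 25295097819881805971458)) (.alt (nat_lit 6) (.cov (nat_lit 2329935939)) .e))) .e)))) .e)))) .e)) (.alt (nat_lit 21) (.exp (.alt (nat_lit 20) (.cov (nat_lit 405542445347953679794178)) (.alt (nat_lit 29) (.cov (nat_lit 12176066728)) .e))) .e))))) .e))))) .e)) (.alt (nat_lit 19) (.cov (nat_lit 1802508715)) .e))))))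 .e)))))) .e)) (.alt (nat_lit 11) (.cov (nat_lit 11486109215)) .e))))))) .e))))))) .e))))))))))) .e))))))))))) .e)) .e)) .e)) .e))])]) (by decide +kernel)
  exact h _ List.mem_cons_self

theorem t3_21 : GF FULL [0, 3] [21, 3] := by
  have h := JT.chkW_ok (zs := [0, 3]) good (by decide) (by decide)
    (L := [([21, 3], [.cov (nat_lit 375852414904509145339),
      .cov (nat_lit 375852417098935443643),
      .cov (nat_lit 6917533425687601408),
      .cov (nat_lit 375852417098935443688),
      .cov (nat_lit 6917533425687601409),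
      .cov (nat_lit 375852417098935443689),
      .cov (nat_lit 6917533425687601387),
      .cov (nat_lit 375852417098935443690),
      .cov (nat_lit 6917533425687601389),
      .cov (nat_lit 375852417098935443692),
      .cov (nat_lit 6917533425687601391),
      .cov (nat_lit 375852417098935443694),
      .cov (nat_lit 6917533425687601392),
      .rot (.exp (.alt (nat_lit 3) (.exp (.alt (nat_lit 1) (.exp (.alt (nat_lit 5) (.exp (.alt (nat_lit 0) (.exp (.alt (nat_lit 2) (.cov (nat_lit 20303720548041342314190177566727)) (.alt (nat_lit 2) (.cov (nat_lit 227183288457397363636364740996890627)) (.alt (nat_lit 2) (.cov (nat_lit 48393844851427560824010023628701697)) (.alt (nat_lit 2) (.exp (.alt (nat_lit 6) (.exp (.alt (nat_lit 10) (.cov (nat_lit 770001413836532181739966402230484994)) (.alt (nat_lit 10) (.cov (nat_lit 20298130475069891004163950641153)) (.alt (nat_lit 10) (.cov (nat_lit 55512970665831235391452611071705088)) (.alt (nat_lit 10) (.cov (nat_lit 25244376350124746473565))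 .e))))) .e)) (.alt (nat_lit 2) (.cov (nat_lit 3034497795996029813243)) .e)))))) (.alt (nat_lit 0) (.exp (.alt (nat_lit 2) (.cov (nat_lit 13974603273549274117496835152019462)) (.alt (nat_lit 2) (.cov (nat_lit 891797290832550911053698162417991683)) (.alt (nat_lit 2) (.cov (nat_lit 81149464799399585692420208066561)) (.alt (nat_lit 2) (.cov (nat_lit 81149464798071420251054515683328)) (.alt (nat_lit 2) (.cov (nat_lit 26646330832851782598875)) .e)))))) (.alt (nat_lit 0) (.cov (nat_lit 43110053080649051406802)) (.alt (nat_lit 0) (.cov (nat_lit 4619158299466531043)) (.alt (nat_lit 0) (.cov (nat_lit 4623912588349014233)) (.alt (nat_lit 0) (.cov (nat_lit 742495175269978996829)) (.alt (nat_lit 0) (.cov (nat_lit 225988012463953543203)) (.alt (nat_lit 0) (.cov (nat_lit 373563165720327487504)) (.alt (nat_lit 0) (.cov (nat_lit 594921413995325816850)) (.alt (nat_lit 0) (.cov (nat_lit 594923228189511647243)) (.alt (nat_lit 0) (.cov (nat_lit 1406581194487708516358)) (.alt (nat_lit 0) (.cov (nat_lit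 21476639505346723840003)) (.alt (nat_lit 0) (.exp (.alt (nat_lit 2) (.exp (.alt (nat_lit 6) (.exp (.alt (nat_lit 10) (.exp (.alt (nat_lit 4) (.exp (.alt (nat_lit 12) (.cov (nat_lit 263675386839805123139846996492290)) (.alt (nat_lit 12) (.cov (nat_lit 63869313944557081078167890264326145)) (.alt (nat_lit 12) (.cov (nat_lit 63869313944557081078189879887659008)) (.alt (nat_lit 12) (.cov (nat_lit 710202448578444525661)) .e))))) (.alt (nat_lit 4) (.cov (nat_lit 10136489164839883636774)) (.alt (nat_lit 4) (.cov (nat_lit 10136489164839279657054)) (.alt (nat_lit 4) (.cov (nat_lit 102075065397333578481698)) (.alt (nat_lit 4) (.cov (nat_lit 102075065397334148907044)) (.alt (nat_lit 4) (.cov (nat_lit 1355844714209717780495)) (.alt (nat_lit 4) (.cov (nat_lit 1355846675738461732871)) (.alt (nat_lit 4) (.cov (nat_lit 46127839907569205254)) (.alt (nat_lit 4) (.cov (nat_lit 1374296153198069547011)) (.alt (nat_lit 4) (.cov (nat_lit 1817018661877546221570)) (.alt (nat_lit 4) (.cov (nat_lit 636428083497594257409))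 (.alt (nat_lit 4) (.cov (nat_lit 1374299258218302406656)) (.alt (nat_lit 4) (.cov (nat_lit 11555315231)) .e)))))))))))))) .e)) .e)) .e)) (.alt (nat_lit 0) (.cov (nat_lit 4629687222805725185)) (.alt (nat_lit 0) (.cov (nat_lit 9241606337691910144)) (.alt (nat_lit 0) (.exp (.alt (nat_lit 2) (.cov (nat_lit 23063769320620294651)) (.alt (nat_lit 2) (.cov (nat_lit 345346114597178124010442)) (.alt (nat_lit 2) (.exp (.alt (nat_lit 6) (.cov (nat_lit 50731382437172141080833620443138)) (.alt (nat_lit 6) (.cov (nat_lit 100326958940517886717460969036972033)) (.alt (nat_lit 6) (.cov (nat_lit 91290669599906478667939229728768)) (.alt (nat_lit 6) (.cov (nat_lit 41514190161208934493)) .e))))) (.alt (nat_lit 2) (.cov (nat_lit 23070654462433427494)) (.alt (nat_lit 2) (.cov (nat_lit 41516153888971948126)) (.alt (nat_lit 2) (.cov (nat_lit 41518887275482578978)) (.alt (nat_lit 2) (.cov (nat_lit 344303880176073525166116)) (.alt (nat_lit 2) (.cov (nat_lit 1637163947296708100111)) (.alt (nat_lit 2) (.cov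 (nat_lit 382783927516412248071)) (.alt (nat_lit 2) (.cov (nat_lit 102282600460079975104518)) (.alt (nat_lit 2) (.cov (nat_lit 13852014723616210947)) (.alt (nat_lit 2) (.cov (nat_lit 613371197119172444162)) (.alt (nat_lit 2) (.cov (nat_lit 23076110239117869057)) (.alt (nat_lit 2) (.exp (.alt (nat_lit 6) (.exp (.alt (nat_lit 10) (.cov (nat_lit 18447245453924762065)) (.alt (nat_lit 10) (.cov (nat_lit 25366408364434653401)) (.alt (nat_lit 10) (.cov (nat_lit 7625431238335887573085)) (.alt (nat_lit 10) (.cov (nat_lit 59960934235086258211)) (.alt (nat_lit 10) (.cov (nat_lit 59962897962853466128)) (.alt (nat_lit 10) (.cov (nat_lit 25373313286249906194)) (.alt (nat_lit 10) (.cov (nat_lit 59962897962685693963)) (.alt (nat_lit 10) (.cov (nat_lit 6666205865939965050886)) (.alt (nat_lit 10) (.cov (nat_lit 475019070653004251139)) (.alt (nat_lit 10) (.cov (nat_lit 6518632104665311870978)) (.alt (nat_lit 10) (.cov (nat_lit 21497390106711647322113)) (.alt (nat_lit 10) (.cov (nat_lit 608759511100750299136))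 (.alt (nat_lit 10) (.exp (.alt (nat_lit 11) (.exp (.alt (nat_lit 9) (.cov (nat_lit 3219836586570883165925551840952322)) (.alt (nat_lit 9) (.cov (nat_lit 764864884010372458372454090466656257)) (.alt (nat_lit 9) (.cov (nat_lit 47455771932135397721509779684196352)) (.alt (nat_lit 9) (.cov (nat_lit 21580386570410791010397)) .e))))) (.alt (nat_lit 11) (.cov (nat_lit 34592628125736108070)) (.alt (nat_lit 11) (.cov (nat_lit 21580388019567118516318)) (.alt (nat_lit 11) (.cov (nat_lit 102081984296362445897762)) (.alt (nat_lit 11) (.cov (nat_lit 365353914370533438259236)) (.alt (nat_lit 11) (.cov (nat_lit 62266777244166782991)) (.alt (nat_lit 11) (.cov (nat_lit 62268740971933990919)) (.alt (nat_lit 11) (.cov (nat_lit 62268740971900436486)) (.alt (nat_lit 11) (.cov (nat_lit 21534281576155725168643)) (.alt (nat_lit 11) (.cov (nat_lit 104576911714375745667074)) (.alt (nat_lit 11) (.cov (nat_lit 624898850858732617729)) (.alt (nat_lit 11) (.cov (nat_lit 2838506732328995258368)) (.alt (nat_lit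 11) (.cov (nat_lit 277880351)) .e)))))))))))))) .e)))))))))))))) .e)) (.alt (nat_lit 2) (.cov (nat_lit 6299687)) .e)))))))))))))))) .e))))))))))))))))) .e)) .e)) .e)),
      .cov (nat_lit 6917533425687601393),
      .rot (.exp (.alt (nat_lit 3) (.exp (.alt (nat_lit 1) (.exp (.alt (nat_lit 5) (.exp (.alt (nat_lit 0) (.cov (nat_lit 26646330832824400085219)) (.alt (nat_lit 0) (.cov (nat_lit 4619336420954210521)) (.alt (nat_lit 0) (.exp (.alt (nat_lit 2) (.exp (.alt (nat_lit 6) (.exp (.alt (nat_lit 10) (.exp (.alt (nat_lit 11) (.exp (.alt (nat_lit 9) (.exp (.alt (nat_lit 15) (.exp (.alt (nat_lit 16) (.cov (nat_lit 350248330512584509751330)) (.alt (nat_lit 8) (.cov (nat_lit 1826230959790153007111)) (.alt (nat_lit 8) (.cov (nat_lit 25290493190563933716483)) (.alt (nat_lit 8) (.cov (nat_lit 55351211944256208896)) (.alt (nat_lit 8) (.cov (nat_lit 25172060)) .e)))))) .e)) .e)) .e)) .e)) .e)) .e)) (.alt (nat_lit 0) (.cov (nat_lit 110696719622170738699)) (.alt (nat_lit 0) (.exp (.alt (nat_lit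 2) (.exp (.alt (nat_lit 6) (.exp (.alt (nat_lit 10) (.exp (.alt (nat_lit 4) (.cov (nat_lit 10136489164839883636774)) (.alt (nat_lit 4) (.cov (nat_lit 102075065397333578481698)) (.alt (nat_lit 4) (.cov (nat_lit 46127839907401433095)) (.alt (nat_lit 4) (.cov (nat_lit 1374296153198069547011)) (.alt (nat_lit 4) (.exp (.alt (nat_lit 12) (.exp (.alt (nat_lit 20) (.cov (nat_lit 6705393318019486187540)) (.alt (nat_lit 20) (.cov (nat_lit 802436663542416408587)) (.alt (nat_lit 20) (.exp (.alt (nat_lit 16) (.exp (.alt (nat_lit 17) (.exp (.alt (nat_lit 18) (.exp (.alt (nat_lit 21) (.exp (.alt (nat_lit 23) (.exp (.alt (nat_lit 31) (.exp (.alt (nat_lit 15) (.exp (.alt (nat_lit 30) (.exp (.alt (nat_lit 29) (.cov (nat_lit 57646084027052982273)) (.alt (nat_lit 29) (.exp (.alt (nat_lit 25) (.cov (nat_lit 652553582602601103360)) (.alt (nat_lit 13) (.cov (nat_lit 156373090312)) .e))) .e))) .e)) .e)) .e)) .e)) (.alt (nat_lit 21) (.cov (nat_lit 47954617482633544728579)) (.alt (nat_lit 21) (.exp (.alt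 (nat_lit 23) (.exp (.alt (nat_lit 29) (.cov (nat_lit 1614090139435652874242)) (.alt (nat_lit 29) (.cov (nat_lit 1983025135258952531969)) (.alt (nat_lit 29) (.exp (.alt (nat_lit 13) (.cov (nat_lit 22760976361696932134915)) (.alt (nat_lit 25) (.exp (.alt (nat_lit 9) (.exp (.alt (nat_lit 27) (.cov (nat_lit 102118869357843017891841)) (.alt (nat_lit 24) (.cov (nat_lit 47573893135)) .e))) .e)) (.alt (nat_lit 25) (.exp (.alt (nat_lit 27) (.cov (nat_lit 1609478429227967578114)) (.alt (nat_lit 9) (.cov (nat_lit 10346299459)) .e))) .e)))) .e)))) .e)) (.alt (nat_lit 21) (.exp (.alt (nat_lit 29) (.cov (nat_lit 347640421543587339042818)) (.alt (nat_lit 23) (.cov (nat_lit 11642341544)) .e))) .e))))) .e)) .e)) .e)) (.alt (nat_lit 20) (.cov (nat_lit 6705404491210744135681)) (.alt (nat_lit 20) (.exp (.alt (nat_lit 21) (.cov (nat_lit 63376096454041272320034)) (.alt (nat_lit 16) (.cov (nat_lit 793213291505389666311)) (.alt (nat_lit 16) (.cov (nat_lit 5368009632693264318467)) (.alt (nat_lit 16)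 (.exp (.alt (nat_lit 17) (.exp (.alt (nat_lit 18) (.cov (nat_lit 22991560792205032423435)) (.alt (nat_lit 18) (.cov (nat_lit 63353038525326507900930)) (.alt (nat_lit 18) (.cov (nat_lit 797824977524422082561)) (.alt (nat_lit 18) (.exp (.alt (nat_lit 19) (.exp (.alt (nat_lit 23) (.exp (.alt (nat_lit 31) (.exp (.alt (nat_lit 15) (.exp (.alt (nat_lit 30) (.exp (.alt (nat_lit 27) (.cov (nat_lit 426580965500671492097)) (.alt (nat_lit 27) (.exp (.alt (nat_lit 25) (.cov (nat_lit 6560123372208085008384)) (.alt (nat_lit 11) (.cov (nat_lit 10344202248)) .e))) .e))) .e)) .e)) .e)) .e)) (.alt (nat_lit 19) (.cov (nat_lit 406849858494708153581571)) (.alt (nat_lit 19) (.exp (.alt (nat_lit 23) (.exp (.alt (nat_lit 27) (.cov (nat_lit 1609478453417223389186)) (.alt (nat_lit 27) (.cov (nat_lit 22048471001435944779777)) (.alt (nat_lit 27) (.exp (.alt (nat_lit 11) (.cov (nat_lit 343881897196832806666243)) (.alt (nat_lit 25) (.exp (.alt (nat_lit 9) (.exp (.alt (nat_lit 29) (.cov (nat_lit 102118869357843590414337))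 (.alt (nat_lit 24) (.cov (nat_lit 4626317327)) .e))) .e)) (.alt (nat_lit 25) (.exp (.alt (nat_lit 29) (.cov (nat_lit 1614090115246397063170)) (.alt (nat_lit 9) (.cov (nat_lit 156377284675)) .e))) .e)))) .e)))) .e)) (.alt (nat_lit 19) (.exp (.alt (nat_lit 27) (.cov (nat_lit 26514889022433204895746)) (.alt (nat_lit 23) (.cov (nat_lit 11642341544)) .e))) .e))))) .e))))) .e)) (.alt (nat_lit 16) (.cov (nat_lit 621812139)) .e)))))) .e)))))) .e)) (.alt (nat_lit 4) (.cov (nat_lit 11555315231)) .e))))))) .e)) .e)) .e)) (.alt (nat_lit 0) (.cov (nat_lit 594924549802488233985)) (.alt (nat_lit 0) (.exp (.alt (nat_lit 2) (.cov (nat_lit 2817747238116988551675)) (.alt (nat_lit 2) (.cov (nat_lit 41516153889575927846)) (.alt (nat_lit 2) (.cov (nat_lit 41518887275482578978)) (.alt (nat_lit 2) (.exp (.alt (nat_lit 6) (.exp (.alt (nat_lit 7) (.exp (.alt (nat_lit 15) (.exp (.alt (nat_lit 23) (.exp (.alt (nat_lit 10) (.cov (nat_lit 404311126768727288184851)) (.alt (nat_lit 10) (.cov (nat_lit 18454634172063416331))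 (.alt (nat_lit 10) (.cov (nat_lit 133747910529918173186)) (.alt (nat_lit 10) (.cov (nat_lit 29132032734606374469633)) (.alt (nat_lit 10) (.exp (.alt (nat_lit 8) (.cov (nat_lit 470393275701654454306)) (.alt (nat_lit 11) (.cov (nat_lit 1496495409318528548871)) (.alt (nat_lit 11) (.cov (nat_lit 62264826710667034627)) (.alt (nat_lit 11) (.exp (.alt (nat_lit 9) (.exp (.alt (nat_lit 27) (.cov (nat_lit 25590245861389130268683)) (.alt (nat_lit 27) (.exp (.alt (nat_lit 26) (.exp (.alt (nat_lit 18) (.exp (.alt (nat_lit 24) (.exp (.alt (nat_lit 25) (.cov (nat_lit 10175685217252403052547)) (.alt (nat_lit 25) (.exp (.alt (nat_lit 17) (.exp (.alt (nat_lit 29) (.cov (nat_lit 365383883248798069161985)) (.alt (nat_lit 29) (.exp (.alt (nat_lit 28) (.cov (nat_lit 25281262764014069350400)) (.alt (nat_lit 31) (.cov (nat_lit 12144607240)) .e))) .e))) .e)) (.alt (nat_lit 25) (.cov (nat_lit 10465837648)) .e)))) .e)) .e)) .e)) (.alt (nat_lit 27) (.cov (nat_lit 502678660039255785473)) (.alt (nat_lit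 27) (.exp (.alt (nat_lit 26) (.exp (.alt (nat_lit 18) (.exp (.alt (nat_lit 16) (.exp (.alt (nat_lit 17) (.exp (.alt (nat_lit 24) (.exp (.alt (nat_lit 30) (.cov (nat_lit 102111951828815372615681)) (.alt (nat_lit 30) (.exp (.alt (nat_lit 28) (.cov (nat_lit 21538879560060244066304)) (.alt (nat_lit 22) (.cov (nat_lit 10523508744)) .e))) .e))) .e)) .e)) .e)) .e)) (.alt (nat_lit 31) (.cov (nat_lit 104696802253362522226691)) (.alt (nat_lit 31) (.exp (.alt (nat_lit 30) (.exp (.alt (nat_lit 29) (.cov (nat_lit 417357617673692774402)) (.alt (nat_lit 29) (.cov (nat_lit 417357729803227103233)) (.alt (nat_lit 29) (.exp (.alt (nat_lit 21) (.cov (nat_lit 63281555562452854243331)) (.alt (nat_lit 28) (.exp (.alt (nat_lit 12) (.exp (.alt (nat_lit 20) (.cov (nat_lit 6382573458300224929793)) (.alt (nat_lit 20) (.exp (.alt (nat_lit 16) (.cov (nat_lit 6401020204572349562880)) (.alt (nat_lit 22) (.cov (nat_lit 824180744)) .e))) .e))) .e)) (.alt (nat_lit 21) (.cov (nat_lit 1933574736)) .e)))) .e))))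 .e)) (.alt (nat_lit 19) (.cov (nat_lit 185004461203)) .e))))) .e))))) .e)) (.alt (nat_lit 11) (.cov (nat_lit 11585722459)) .e)))))) .e)))))) .e)) .e)) .e)) .e)) (.alt (nat_lit 2) (.cov (nat_lit 13852014723616210947)) (.alt (nat_lit 2) (.exp (.alt (nat_lit 6) (.exp (.alt (nat_lit 10) (.cov (nat_lit 18447861178355941593)) (.alt (nat_lit 10) (.cov (nat_lit 650256746792882274324)) (.alt (nat_lit 10) (.cov (nat_lit 59962897962685693963)) (.alt (nat_lit 10) (.exp (.alt (nat_lit 11) (.exp (.alt (nat_lit 9) (.exp (.alt (nat_lit 15) (.exp (.alt (nat_lit 26) (.cov (nat_lit 22043859953134839267362)) (.alt (nat_lit 8) (.cov (nat_lit 21527353630511283044359)) (.alt (nat_lit 8) (.cov (nat_lit 25290493190563933716483)) (.alt (nat_lit 8) (.cov (nat_lit 55351211944256208896)) (.alt (nat_lit 8) (.cov (nat_lit 25172060)) .e)))))) .e)) .e)) .e)) (.alt (nat_lit 10) (.cov (nat_lit 502690031188498710529)) (.alt (nat_lit 10) (.exp (.alt (nat_lit 11) (.cov (nat_lit 21580388019580070527014)) (.alt (nat_lit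 11) (.cov (nat_lit 102081984296362445897762)) (.alt (nat_lit 11) (.cov (nat_lit 62268740971933990919)) (.alt (nat_lit 11) (.cov (nat_lit 21534281576155725168643)) (.alt (nat_lit 11) (.exp (.alt (nat_lit 9) (.exp (.alt (nat_lit 15) (.cov (nat_lit 1505717332197384388626)) (.alt (nat_lit 15) (.cov (nat_lit 45630332193361747771403)) (.alt (nat_lit 15) (.cov (nat_lit 6564744065472177111042)) (.alt (nat_lit 15) (.cov (nat_lit 71492113008753115137)) (.alt (nat_lit 15) (.exp (.alt (nat_lit 31) (.cov (nat_lit 104696802253364199948322)) (.alt (nat_lit 14) (.cov (nat_lit 6562432500732797124615)) (.alt (nat_lit 14) (.cov (nat_lit 6414862317114865221635)) (.alt (nat_lit 14) (.cov (nat_lit 69186269999538372608)) (.alt (nat_lit 7) (.cov (nat_lit 628103263)) .e)))))) .e)))))) .e)) (.alt (nat_lit 11) (.cov (nat_lit 277880351)) .e))))))) .e))))))) .e)) (.alt (nat_lit 2) (.cov (nat_lit 10378813536)) .e)))))))) .e)))))))) .e)) .e)) .e))])]) (by decide +kernel)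
  exact h _ List.mem_cons_self

end K2

end Pool.Agent.Work.MP_bf01b2_co.MR
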