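import Pool.Agent.Work.MP_bf01b2_co.MR.K4S

/-!
# Two roots in `Q_5`: tools
-/

set_option autoImplicit false

namespace Pool.Agent.Work.MP_bf01b2_co.MR

namespace K2

open Tab Exc K4

/-- translation by `b` -/
def xorE (b : ℕ) : ℕ ≃ ℕ where
  toFun x := x ^^^ b
  invFun x := x ^^^ b
  left_inv x := by
    show (x ^^^ b) ^^^ b = x
    rw [Nat.xor_assoc, Nat.xor_self, Nat.xor_zero]
  right_inv x := by
    show (x ^^^ b) ^^^ b = x
    rw [Nat.xor_assoc, Nat.xor_self, Nat.xor_zero]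

theorem ncadj_xor {b x y : ℕ} (h : ncadj 5 x y) : ncadj 5 (xorE b x) (xorE b y) := by
  obtain ⟨i, hi, rfl⟩ := h
  refine ⟨i, hi, ?_⟩
  show (x ^^^ 2 ^ i) ^^^ b = (x ^^^ b) ^^^ 2 ^ i
  rw [Nat.xor_assoc, Nat.xor_comm (2 ^ i) b, Nat.xor_assoc]

/-- the translation which exchanges the two roots -/
theorem GF_swap {b m n : ℕ} (hb : b < 32) (h : GF FULL [0, b] [m, n]) :
    GF FULL [0, b] [n, m] := by
  intro k hk
  obtain ⟨h1, h2, _⟩ := hk
  have h3 := h (fun z => k (z ^^^ b)) ⟨by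
    show k (0 ^^^ b) + 1 ≤ m
    rw [Nat.zero_xor]
    exact h2, by
    show k (b ^^^ b) + 1 ≤ n
    rw [Nat.xor_self]
    exact h1, trivial⟩
  have h4 := SF.map (adj' := ncadj 5) (xorE b) (fun _ _ hab => ncadj_xor hab) h3
  rw [image_msk (Y := FULL) (xorE b), image_msk (Y := 0) (xorE b)] at h4
  · refine NF.congr ?_ h4
    intro x
    rw [mem_mkL (m := x), List.mem_map]
    refine Iff.symm ?_
    constructor
    · rintro ⟨h5, h6⟩
      refine ⟨⟨x.p ^^^ b, k x.p, 0⟩, ?_, ?_⟩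
      · rw [mem_mkL]
        refine ⟨?_, ?_⟩
        · show x.p ^^^ b ∈ [0, b]
          simp only [List.mem_cons, List.not_mem_nil, or_false] at h5 ⊢
          rcases h5 with h5 | h5
          · right
            rw [h5, Nat.zero_xor]
          · left
            rw [h5, Nat.xor_self]
        · show (⟨x.p ^^^ b, k x.p, 0⟩ : Mk ℕ) = ⟨x.p ^^^ b, k ((x.p ^^^ b) ^^^ b), 0⟩
          rw [Nat.xor_assoc, Nat.xor_self, Nat.xor_zero]
      · rw [h6]
        show (⟨(x.p ^^^ b) ^^^ b, k x.p, 0⟩ : Mk ℕ) = ⟨x.p, k x.p, 0⟩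
        rw [Nat.xor_assoc, Nat.xor_self, Nat.xor_zero]
    · rintro ⟨y, hy, rfl⟩
      rw [mem_mkL] at hy
      obtain ⟨h5, h6⟩ := hy
      refine ⟨?_, ?_⟩
      · show y.p ^^^ b ∈ [0, b]
        simp only [List.mem_cons, List.not_mem_nil, or_false] at h5 ⊢
        rcases h5 with h5 | h5
        · right
          rw [h5, Nat.zero_xor]
        · left
          rw [h5, Nat.xor_self]
      · rw [h6]
        rfl
  · intro v
    show Nat.testBit 0 (v ^^^ b) = Nat.testBit 0 v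
    rw [Nat.zero_testBit, Nat.zero_testBit]
  · intro v
    show Nat.testBit FULL (v ^^^ b) = Nat.testBit FULL v
    have e : FULL = 2 ^ 32 - 1 := by norm_num [FULL]
    rw [e, Nat.testBit_two_pow_sub_one, Nat.testBit_two_pow_sub_one]
    congr 1
    rw [eq_iff_iff]
    constructor
    · intro h
      have h5 : (v ^^^ b) ^^^ b < 2 ^ 5 := Nat.xor_lt_two_pow (by simpa using h) (by simpa using hb)
      rw [Nat.xor_assoc, Nat.xor_self, Nat.xor_zero] at h5
      simpa using h5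
    · intro h
      have h5 : v ^^^ b < 2 ^ 5 := Nat.xor_lt_two_pow (by simpa using h) (by simpa using hb)
      simpa using h5

/-- the exceptions for two roots which are not antipodal: none -/
def B2 (S : ℕ) (k : ℕ → ℕ) : Prop := (∑ z ∈ pos32 S, (k z + 1)) < 24

theorem B2_inv : AInv B2 := by
  intro e he S S' k hS hS' hSe h
  unfold B2 at h ⊢
  rw [sum_map hS hS' hSe]
  exact h

/-- the exceptions for two antipodal roots -/
def B2a (S : ℕ) (k : ℕ → ℕ) : Prop :=
  (∑ z ∈ pos32 S, (k z + 1)) < 24 ∨ szs S k = {23, 1}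

theorem B2a_inv : AInv B2a := by
  intro e he S S' k hS hS' hSe h
  unfold B2a at h ⊢
  rw [szs_map hS hS' hSe, sum_map hS hS' hSe]
  exact h

theorem inj2 {a b a' b' : ℕ} (h : [a, b] = [a', b']) : a = a' ∧ b = b' := by
  cases h
  exact ⟨rfl, rfl⟩

theorem szs2 {a b : ℕ} (hnd : [a, b].Nodup) (hz : ∀ z ∈ [a, b], z < 32)
    {k : ℕ → ℕ} {n0 n1 : ℕ} (h0 : k a + 1 = n0) (h1 : k b + 1 = n1) :
    szs (maskL [a, b]) k = (([n0, n1] : List ℕ) : Multiset ℕ) := by
  rw [szs_maskL hnd hz]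
  simp only [List.map_cons, List.map_nil, h0, h1]

/-- all pairs of positions -/
theorem pair_ok {B : ℕ → (ℕ → ℕ) → Prop} (hB : AInv B) {N p q : ℕ} (hp : p < 32) (hq : q < 32)
    (h : CB B (maskL [0, q ^^^ p]) N) : CB B (maskL [p, q]) N :=
  CB.shift hB (qs := [q]) hp (by
    intro a ha
    rw [List.mem_singleton.1 ha]
    exact hq) h

end K2

end Pool.Agent.Work.MP_bf01b2_co.MR
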