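import Pool.Agent.Work.MP_bf01b2_co.MR.K4T

/-!
# Three and four roots in `Q_5`: certificates of the entries 0 to 2199
-/

set_option autoImplicit false
set_option maxRecDepth 100000

namespace Pool.Agent.Work.MP_bf01b2_co.MR

namespace K4

open JT

/-- certificates of the entries 0 to 2199 -/
def c0 : List Rc :=
  [.nil,
   .one (nat_lit 1048576) .nil,
   .two (nat_lit 1048576) (nat_lit 2097152) .nil,
   .one (nat_lit 34603009) .nil,
   .two (nat_lit 1048576) (nat_lit 2097153) .nil,
   .two (nat_lit 4194304) (nat_lit 34603009) .nil,
   .two (nat_lit 1048576) (nat_lit 4194305) (.one (nat_lit 605028355) .nil),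
   .one (nat_lit 705691650) .nil,
   .two (nat_lit 1048576) (nat_lit 2097153) (.one (nat_lit 34603013) .nil),
   .two (nat_lit 8388608) (nat_lit 606076929) (.one (nat_lit 1277165571) .nil),
   .two (nat_lit 8388608) (nat_lit 620756993) (.one (nat_lit 83886083) .nil),
   .two (nat_lit 1048576) (nat_lit 4194307) (.one (nat_lit 605028359) .nil),
   .two (nat_lit 8388608) (nat_lit 705691652) .nil,
   .two (nat_lit 4194304) (nat_lit 11543773189) .nil,
   .two (nat_lit 1048576) (nat_lit 12117344261) .nil,
   .two (nat_lit 2097153) (nat_lit 605028353) (.two (nat_lit 2097152) (nat_lit 705691652) (.one (nat_lit 705691656) .nil)),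
   .two (nat_lit 2097153) (nat_lit 605028353) (.two (nat_lit 1048576) (nat_lit 169869314) (.one (nat_lit 1175453705) .nil)),
   .two (nat_lit 2097153) (nat_lit 156364701697) (.two (nat_lit 1048576) (nat_lit 2887778306) (.one (nat_lit 20737687562) .nil)),
   .two (nat_lit 8388608) (nat_lit 605028359) .nil,
   .two (nat_lit 4194304) (nat_lit 34603015) .nil,
   .two (nat_lit 1048576) (nat_lit 2954887175) .nil,
   .two (nat_lit 4194304) (nat_lit 47548727303) .nil,
   .two (nat_lit 16777216) (nat_lit 9934209031) .nil,
   .two (nat_lit 2097153) (nat_lit 9765388289) (.two (nat_lit 1048576) (nat_lit 2954887173) (.one (nat_lit 806354957) .nil)),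
   .two (nat_lit 2097153) (nat_lit 9765388289) (.two (nat_lit 2097152) (nat_lit 11543773189) (.one (nat_lit 11543773197) .nil)),
   .two (nat_lit 4194305) (nat_lit 156364701697) (.two (nat_lit 4194304) (nat_lit 158143086597) (.one (nat_lit 2349858830) .nil)),
   .two (nat_lit 16777217) (nat_lit 9765388289) (.two (nat_lit 1048576) (nat_lit 184549381) (.one (nat_lit 10503585806) .nil)),
   .two (nat_lit 16777217) (nat_lit 156365750273) (.two (nat_lit 2097152) (nat_lit 2902458373) (.one (nat_lit 9948889097) .nil)),
   .two (nat_lit 605028353) (nat_lit 606076929) (.two (nat_lit 1048576) (nat_lit 9934209029) (.one (nat_lit 1210056714) .nil)),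
   .two (nat_lit 41943041) (nat_lit 156367847425) (.two (nat_lit 4194304) (nat_lit 183853121540) (.one (nat_lit 13195280390) .nil)),
   .two (nat_lit 606076929) (nat_lit 9768534017) (.two (nat_lit 2097152) (nat_lit 9768534021) (.one (nat_lit 165528207370) .nil)),
   .two (nat_lit 8388609) (nat_lit 9781116929) (.two (nat_lit 16777216) (nat_lit 176160772) (.one (nat_lit 8388614) .nil)),
   .two (nat_lit 605028353) (nat_lit 9766436865) (.two (nat_lit 1048576) (nat_lit 166130089988) (.one (nat_lit 10504634374) .nil)),
   .two (nat_lit 2097153) (nat_lit 156364701697) (.two (nat_lit 2097152) (nat_lit 28086108165) (.one (nat_lit 202375178) .nil)),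
   .two (nat_lit 605028353) (nat_lit 169869316) (.one (nat_lit 705691663) .nil),
   .two (nat_lit 2097153) (nat_lit 605028355) (.two (nat_lit 2097152) (nat_lit 68157448) (.one (nat_lit 705691664) .nil)),
   .two (nat_lit 605028353) (nat_lit 169869316) (.two (nat_lit 1048576) (nat_lit 2097158) (.one (nat_lit 705691663) .nil)),
   .two (nat_lit 4194305) (nat_lit 606076931) (.two (nat_lit 2097152) (nat_lit 272629768) (.one (nat_lit 4601151505) .nil)),
   .two (nat_lit 46414168066) (nat_lit 183845781506) (.one (nat_lit 156539813909) .nil),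
   .two (nat_lit 721420290) (nat_lit 46414168066) (.one (nat_lit 12624855062) .nil),
   .two (nat_lit 37748737) (nat_lit 739246088) .nil,
   .two (nat_lit 34603009) (nat_lit 612368385) (.two (nat_lit 8388608) (nat_lit 11543773192) .nil),
   .two (nat_lit 605028353) (nat_lit 10940841992) .nil,
   .two (nat_lit 50331649) (nat_lit 156367847425) (.two (nat_lit 4194304) (nat_lit 50331661) .nil),
   .two (nat_lit 9766436865) (nat_lit 156367847425) (.two (nat_lit 4194304) (nat_lit 166197198862) .nil),
   .two (nat_lit 4194305) (nat_lit 9781116929) (.two (nat_lit 16777216) (nat_lit 2889875464) .nil),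
   .two (nat_lit 4194305) (nat_lit 612368385) (.two (nat_lit 8388608) (nat_lit 19029557262) .nil),
   .two (nat_lit 2097153) (nat_lit 37748737) (.two (nat_lit 4194304) (nat_lit 46978301960) .nil),
   .two (nat_lit 16777217) (nat_lit 612368385) (.two (nat_lit 8388608) (nat_lit 285212680) .nil),
   .two (nat_lit 4194305) (nat_lit 156372041729) (.two (nat_lit 8388608) (nat_lit 156367847432) .nil),
   .two (nat_lit 8388609) (nat_lit 9766436865) (.two (nat_lit 2097152) (nat_lit 47555018764) .nil),
   .two (nat_lit 16777217) (nat_lit 37748737) (.two (nat_lit 16777216) (nat_lit 809500677) (.one (nat_lit 1312817162) .nil)),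
   .two (nat_lit 2097153) (nat_lit 4194305) (.two (nat_lit 2097152) (nat_lit 166132187141) (.one (nat_lit 184989777930) .nil)),
   .two (nat_lit 9765388289) (nat_lit 9768534017) (.two (nat_lit 1048576) (nat_lit 19599982597) (.one (nat_lit 608174090) .nil)),
   .two (nat_lit 34603009) (nat_lit 50331649) (.two (nat_lit 1048576) (nat_lit 9881780229) (.one (nat_lit 2969567241) .nil)),
   .two (nat_lit 34603009) (nat_lit 156367847425) (.two (nat_lit 4194304) (nat_lit 156968681477) (.one (nat_lit 2953838602) .nil)),
   .two (nat_lit 16777217) (nat_lit 37748737) (.two (nat_lit 4194304) (nat_lit 11492392965) (.one (nat_lit 21223178250) .nil)),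
   .two (nat_lit 41943041) (nat_lit 50331649) (.two (nat_lit 16777216) (nat_lit 158083317765) (.one (nat_lit 10510925834) .nil)),
   .two (nat_lit 4194305) (nat_lit 50331649) (.two (nat_lit 16777216) (nat_lit 1178599429) (.one (nat_lit 28089253898) .nil)),
   .two (nat_lit 8388609) (nat_lit 50331649) (.two (nat_lit 16777216) (nat_lit 75497477) (.one (nat_lit 1786773513) .nil)),
   .two (nat_lit 2097153) (nat_lit 612368385) (.two (nat_lit 8388608) (nat_lit 20638072837) (.one (nat_lit 184987680777) .nil)),
   .two (nat_lit 606076929) (nat_lit 9765388289) (.two (nat_lit 1048576) (nat_lit 9934209029) (.one (nat_lit 706740233) .nil)),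
   .two (nat_lit 16777217) (nat_lit 606076929) (.two (nat_lit 2097152) (nat_lit 1191182341) (.one (nat_lit 28101836810) .nil)),
   .two (nat_lit 4194305) (nat_lit 41943041) (.two (nat_lit 4194304) (nat_lit 28093448197) (.one (nat_lit 3464495113) .nil)),
   .two (nat_lit 2097153) (nat_lit 4194312) (.one (nat_lit 705691663) .nil),
   .two (nat_lit 605028353) (nat_lit 169869316) (.two (nat_lit 8388608) (nat_lit 705691663) .nil),
   .two (nat_lit 605028353) (nat_lit 2954887176) (.one (nat_lit 705691663) .nil),
   .two (nat_lit 37748737) (nat_lit 11543773192) (.one (nat_lit 68157455) .nil),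
   .two (nat_lit 605028353) (nat_lit 2954887173) (.one (nat_lit 739246091) .nil),
   .two (nat_lit 620756993) (nat_lit 165532401667) (.two (nat_lit 8388608) (nat_lit 9948889094) (.one (nat_lit 166245433368) .nil)),
   .two (nat_lit 605028353) (nat_lit 46407876612) (.two (nat_lit 1048576) (nat_lit 3458203656) (.one (nat_lit 3524263967) .nil)),
   .two (nat_lit 4194305) (nat_lit 174752530437) (.one (nat_lit 158143086603) .nil),
   .two (nat_lit 16777217) (nat_lit 166130089988) (.one (nat_lit 28758245387) .nil),
   .two (nat_lit 156367847425) (nat_lit 183853121540) (.one (nat_lit 184993972235) .nil),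
   .two (nat_lit 612368385) (nat_lit 28757196805) (.two (nat_lit 1048576) (nat_lit 8388614) (.one (nat_lit 156968681504) .nil)),
   .two (nat_lit 9768534017) (nat_lit 28093448197) (.one (nat_lit 159224168459) .nil),
   .two (nat_lit 16777217) (nat_lit 8388612) (.one (nat_lit 176160779) .nil),
   .two (nat_lit 9768534017) (nat_lit 165532401667) (.two (nat_lit 4194304) (nat_lit 20644364296) (.one (nat_lit 20644364303) .nil)),
   .two (nat_lit 156365750273) (nat_lit 1276116996) (.one (nat_lit 1343225867) .nil),
   .two (nat_lit 2097153) (nat_lit 46409973764) (.one (nat_lit 47550824459) .nil),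
   .two (nat_lit 620756993) (nat_lit 8388612) (.one (nat_lit 176160779) .nil),
   .two (nat_lit 41943041) (nat_lit 1916796933) (.two (nat_lit 4194304) (nat_lit 41943046) (.one (nat_lit 2990538781) .nil)),
   .two (nat_lit 4194305) (nat_lit 176160773) (.one (nat_lit 10007609365) .nil),
   .two (nat_lit 34603009) (nat_lit 20638072835) (.two (nat_lit 1048576) (nat_lit 13188988937) (.one (nat_lit 159217877020) .nil)),
   .two (nat_lit 9766436865) (nat_lit 176160772) (.one (nat_lit 3464495115) .nil),
   .two (nat_lit 612368385) (nat_lit 156367847427) (.two (nat_lit 8388608) (nat_lit 9802088460) (.one (nat_lit 1849688096) .nil)),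
   .two (nat_lit 2097153) (nat_lit 46422556677) (.two (nat_lit 1048576) (nat_lit 18926796813) (.one (nat_lit 46407876636) .nil)),
   .two (nat_lit 4194305) (nat_lit 713031684) (.two (nat_lit 1048576) (nat_lit 104857612) (.one (nat_lit 1212153885) .nil)),
   .two (nat_lit 606076929) (nat_lit 166132187140) (.one (nat_lit 28760342539) .nil),
   .two (nat_lit 605028353) (nat_lit 156367847427) (.two (nat_lit 1048576) (nat_lit 4601151494) (.one (nat_lit 306184217) .nil)),
   .two (nat_lit 156365750273) (nat_lit 18928893957) (.one (nat_lit 9902751766) .nil),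
   .two (nat_lit 50331649) (nat_lit 169869316) (.one (nat_lit 3458203659) .nil),
   .two (nat_lit 9781116929) (nat_lit 169869316) (.one (nat_lit 2097163) .nil),
   .two (nat_lit 156364701697) (nat_lit 20638072836) (.two (nat_lit 1048576) (nat_lit 165526110216) (.one (nat_lit 184987680798) .nil)),
   .two (nat_lit 8388612) (nat_lit 34603011) (.two (nat_lit 2097153) (nat_lit 276824072) (.two (nat_lit 1048576) (nat_lit 9766436879) (.one (nat_lit 11476664354) .nil))),
   .two (nat_lit 2097155) (nat_lit 8388611) (.two (nat_lit 2097153) (nat_lit 9765388295) (.two (nat_lit 2097152) (nat_lit 12114198545) (.one (nat_lit 11577327654) .nil))),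
   .two (nat_lit 46414168066) (nat_lit 156968681477) (.two (nat_lit 8388609) (nat_lit 9933160458) (.two (nat_lit 1048576) (nat_lit 3531603979) (.one (nat_lit 166136381477) .nil))),
   .two (nat_lit 8388612) (nat_lit 34603011) (.two (nat_lit 2097153) (nat_lit 276824072) (.two (nat_lit 1048576) (nat_lit 9766436879) (.one (nat_lit 11476664356) .nil))),
   .two (nat_lit 8388611) (nat_lit 705691651) (.two (nat_lit 8388609) (nat_lit 11543773191) (.two (nat_lit 8388608) (nat_lit 739246096) (.one (nat_lit 10503585830) .nil))),
   .two (nat_lit 620756995) (nat_lit 18925748227) (.two (nat_lit 620756993) (nat_lit 1745879047) (.two (nat_lit 1048576) (nat_lit 3003121681) (.one (nat_lit 19109249063) .nil))),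
   .two (nat_lit 4194305) (nat_lit 9781116929) (.two (nat_lit 16777216) (nat_lit 1178599438) .nil),
   .two (nat_lit 8388609) (nat_lit 12117344268) .nil,
   .two (nat_lit 8388609) (nat_lit 156367847425) (.two (nat_lit 4194304) (nat_lit 184993972236) .nil),
   .two (nat_lit 8388609) (nat_lit 620756993) (.two (nat_lit 16777216) (nat_lit 3464495117) .nil),
   .two (nat_lit 41943041) (nat_lit 156364701697) (.two (nat_lit 1048576) (nat_lit 184993972237) .nil),
   .two (nat_lit 2097153) (nat_lit 9768534017) (.two (nat_lit 4194304) (nat_lit 46474985485) .nil),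
   .two (nat_lit 2097153) (nat_lit 612368385) (.two (nat_lit 8388608) (nat_lit 174686470157) .nil),
   .two (nat_lit 2097153) (nat_lit 9768534017) (.two (nat_lit 4194304) (nat_lit 3525312526) .nil),
   .two (nat_lit 8388609) (nat_lit 705691656) (.one (nat_lit 270532648) .nil),
   .two (nat_lit 2097153) (nat_lit 1343225869) (.one (nat_lit 11543773207) .nil),
   .two (nat_lit 37748737) (nat_lit 11543773197) (.one (nat_lit 2954887191) .nil),
   .two (nat_lit 8388609) (nat_lit 169869320) (.one (nat_lit 705691689) .nil),
   .two (nat_lit 2097153) (nat_lit 1343225861) (.two (nat_lit 2097152) (nat_lit 11543773199) .nil),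
   .two (nat_lit 4194305) (nat_lit 739246095) .nil,
   .two (nat_lit 606076929) (nat_lit 739246095) .nil,
   .two (nat_lit 37748737) (nat_lit 739246095) .nil,
   .two (nat_lit 34603009) (nat_lit 272629765) (.two (nat_lit 4194304) (nat_lit 11543773199) .nil),
   .two (nat_lit 612368385) (nat_lit 11543773199) .nil,
   .two (nat_lit 8388609) (nat_lit 166132187144) (.one (nat_lit 20707278895) .nil),
   .two (nat_lit 8388609) (nat_lit 654311436) (.one (nat_lit 10343153679) .nil),
   .two (nat_lit 37748737) (nat_lit 10336862216) (.one (nat_lit 9934209050) .nil),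
   .two (nat_lit 156367847425) (nat_lit 10504634383) .nil,
   .two (nat_lit 156365750273) (nat_lit 16777228) (.one (nat_lit 16777231) .nil),
   .two (nat_lit 8388609) (nat_lit 1277165572) (.two (nat_lit 16777216) (nat_lit 1780482056) (.one (nat_lit 807403566) .nil)),
   .two (nat_lit 4194305) (nat_lit 11551113224) (.one (nat_lit 11584667671) .nil),
   .two (nat_lit 9766436865) (nat_lit 159224168463) .nil,
   .two (nat_lit 606076929) (nat_lit 165532401679) .nil,
   .two (nat_lit 8388609) (nat_lit 1291845640) (.one (nat_lit 158091706394) .nil),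
   .two (nat_lit 16777217) (nat_lit 10343153669) (.two (nat_lit 8388608) (nat_lit 2902458376) (.one (nat_lit 3472883738) .nil)),
   .two (nat_lit 606076929) (nat_lit 21207449615) .nil,
   .two (nat_lit 605028353) (nat_lit 157038936078) (.one (nat_lit 2889875479) .nil),
   .two (nat_lit 37748737) (nat_lit 1358954501) (.two (nat_lit 8388608) (nat_lit 1749024776) (.one (nat_lit 889192493) .nil)),
   .two (nat_lit 50331649) (nat_lit 21207449615) .nil,
   .two (nat_lit 2097153) (nat_lit 11492392968) (.one (nat_lit 19027460143) .nil),
   .two (nat_lit 156365750273) (nat_lit 1191182349) (.one (nat_lit 11626610714) .nil),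
   .two (nat_lit 605028353) (nat_lit 13191086085) (.two (nat_lit 1048576) (nat_lit 272629775) .nil),
   .two (nat_lit 156364701697) (nat_lit 18928893960) (.one (nat_lit 3527409710) .nil),
   .two (nat_lit 156372041729) (nat_lit 11543773199) .nil,
   .two (nat_lit 4194305) (nat_lit 158144135173) (.two (nat_lit 16777216) (nat_lit 1377828877) (.one (nat_lit 2988441644) .nil)),
   .two (nat_lit 4194305) (nat_lit 12062818309) (.two (nat_lit 2097152) (nat_lit 10338959368) (.one (nat_lit 218103857) .nil)),
   .two (nat_lit 620756993) (nat_lit 28757196805) (.one (nat_lit 20704133141) .nil),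
   .two (nat_lit 50331649) (nat_lit 18925748227) (.two (nat_lit 1048576) (nat_lit 285212680) (.one (nat_lit 352321569) .nil)),
   .two (nat_lit 156365750273) (nat_lit 1779433477) (.one (nat_lit 9866051605) .nil),
   .two (nat_lit 8388609) (nat_lit 166132187139) (.two (nat_lit 4194304) (nat_lit 1920991242) (.one (nat_lit 780140595) .nil)),
   .two (nat_lit 9781116929) (nat_lit 158144135173) (.one (nat_lit 2954887190) .nil),
   .two (nat_lit 606076929) (nat_lit 166132187141) (.one (nat_lit 19532873749) .nil),
   .two (nat_lit 156364701697) (nat_lit 165526110213) (.one (nat_lit 1310720021) .nil),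
   .two (nat_lit 41943041) (nat_lit 165526110211) (.two (nat_lit 8388608) (nat_lit 874512394) (.one (nat_lit 1914699831) .nil)),
   .two (nat_lit 37748737) (nat_lit 9766436867) (.two (nat_lit 4194304) (nat_lit 11511267338) (.one (nat_lit 13222543416) .nil)),
   .two (nat_lit 16777217) (nat_lit 20637024259) (.two (nat_lit 16777216) (nat_lit 28086108168) (.one (nat_lit 166196150302) .nil)),
   .two (nat_lit 606076929) (nat_lit 2889875458) (.one (nat_lit 18928893973) .nil),
   .two (nat_lit 37748737) (nat_lit 165532401669) (.one (nat_lit 1317011477) .nil),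
   .two (nat_lit 2097153) (nat_lit 46980399109) (.one (nat_lit 157038936085) .nil),
   .two (nat_lit 605028353) (nat_lit 156971827205) (.one (nat_lit 166132187157) .nil),
   .two (nat_lit 4194305) (nat_lit 1291845635) (.two (nat_lit 1048576) (nat_lit 3527409678) (.one (nat_lit 9969860660) .nil)),
   .two (nat_lit 4194305) (nat_lit 18925748227) (.two (nat_lit 4194304) (nat_lit 4631560202) (.one (nat_lit 1048634) .nil)),
   .two (nat_lit 34603009) (nat_lit 69206019) (.two (nat_lit 4194304) (nat_lit 1310720014) (.one (nat_lit 1277165621) .nil)),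
   .two (nat_lit 4194305) (nat_lit 606076931) (.two (nat_lit 2097152) (nat_lit 809500680) (.one (nat_lit 10540285979) .nil)),
   .two (nat_lit 2097153) (nat_lit 605028355) (.two (nat_lit 4194304) (nat_lit 158176641038) (.one (nat_lit 159250382902) .nil)),
   .two (nat_lit 50331649) (nat_lit 75497477) (.one (nat_lit 713031701) .nil),
   .two (nat_lit 156365750273) (nat_lit 218103813) (.one (nat_lit 156581756949) .nil),
   .two (nat_lit 8388609) (nat_lit 18925748227) (.two (nat_lit 8388608) (nat_lit 336592906) (.one (nat_lit 1048635) .nil)),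
   .two (nat_lit 156364701697) (nat_lit 184419352581) (.one (nat_lit 4601151510) .nil),
   .two (nat_lit 612368385) (nat_lit 3458203653) (.two (nat_lit 8388608) (nat_lit 203423758) (.one (nat_lit 673185844) .nil)),
   .two (nat_lit 34603009) (nat_lit 165526110211) (.two (nat_lit 1048576) (nat_lit 3525312526) (.one (nat_lit 183913938995) .nil)),
   .two (nat_lit 2097153) (nat_lit 156367847429) (.one (nat_lit 46409973781) .nil),
   .two (nat_lit 37748737) (nat_lit 1795162117) (.one (nat_lit 158192369685) .nil),
   .two (nat_lit 9765388289) (nat_lit 166132187141) (.one (nat_lit 183916036118) .nil),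
   .two (nat_lit 50331649) (nat_lit 1779433477) (.one (nat_lit 9866051605) .nil),
   .two (nat_lit 606076929) (nat_lit 9866051589) (.one (nat_lit 1779433493) .nil),
   .two (nat_lit 9781116929) (nat_lit 156367847427) (.two (nat_lit 4194304) (nat_lit 1291845640) (.one (nat_lit 46422556703) .nil)),
   .two (nat_lit 2097153) (nat_lit 10369368067) (.two (nat_lit 2097152) (nat_lit 235929610) (.one (nat_lit 1048636) .nil)),
   .two (nat_lit 606076929) (nat_lit 28690087941) (.one (nat_lit 46473936918) .nil),
   .two (nat_lit 8388609) (nat_lit 10370416643) (.two (nat_lit 1048576) (nat_lit 713031693) (.one (nat_lit 8388669) .nil)),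
   .two (nat_lit 2097153) (nat_lit 184419352581) (.two (nat_lit 1048576) (nat_lit 2097166) (.one (nat_lit 28087156796) .nil)),
   .two (nat_lit 2097153) (nat_lit 183848927237) (.one (nat_lit 165526110229) .nil),
   .two (nat_lit 2097153) (nat_lit 156364701699) (.two (nat_lit 2097152) (nat_lit 156968681485) (.one (nat_lit 159250382905) .nil)),
   .two (nat_lit 605028353) (nat_lit 11479810051) (.two (nat_lit 1048576) (nat_lit 46409973774) (.one (nat_lit 166199296059) .nil)),
   .two (nat_lit 41943041) (nat_lit 156367847429) (.one (nat_lit 2923429909) .nil),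
   .two (nat_lit 8388609) (nat_lit 156367847429) (.one (nat_lit 2923429909) .nil),
   .two (nat_lit 16777217) (nat_lit 705691651) (.two (nat_lit 16777216) (nat_lit 46977253385) (.one (nat_lit 1048638) .nil)),
   .two (nat_lit 34603009) (nat_lit 9881780229) (.one (nat_lit 47596961814) .nil),
   .two (nat_lit 8388609) (nat_lit 183848927236) (.two (nat_lit 8388608) (nat_lit 184419352584) (.one (nat_lit 12050235409) .nil)),
   .two (nat_lit 8388609) (nat_lit 20638072836) (.two (nat_lit 8388608) (nat_lit 20638072840) (.one (nat_lit 20638072848) .nil)),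
   .two (nat_lit 620756993) (nat_lit 9933160453) (.two (nat_lit 16777216) (nat_lit 10537140238) (.one (nat_lit 12047089722) .nil)),
   .two (nat_lit 4194305) (nat_lit 1175453699) (.two (nat_lit 4194304) (nat_lit 10436476941) (.one (nat_lit 1048639) .nil)),
   .two (nat_lit 605028353) (nat_lit 19530776581) (.one (nat_lit 19027460117) .nil),
   .two (nat_lit 37748737) (nat_lit 2902458372) (.two (nat_lit 4194304) (nat_lit 218103816) (.one (nat_lit 218103824) .nil)),
   .two (nat_lit 9765388289) (nat_lit 11479810052) (.two (nat_lit 1048576) (nat_lit 12117344264) (.one (nat_lit 12117344272) .nil)),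
   .two (nat_lit 37748737) (nat_lit 20644364291) (.two (nat_lit 8388608) (nat_lit 3527409673) (.one (nat_lit 171966527) .nil)),
   .two (nat_lit 50331649) (nat_lit 713031684) (.two (nat_lit 16777216) (nat_lit 713031688) (.one (nat_lit 185027526673) .nil)),
   .two (nat_lit 156367847425) (nat_lit 28758245381) (.two (nat_lit 4194304) (nat_lit 166197198862) (.one (nat_lit 2954887224) .nil)),
   .two (nat_lit 9768534017) (nat_lit 166130089989) (.one (nat_lit 19530776597) .nil),
   .two (nat_lit 605028353) (nat_lit 3525312517) (.one (nat_lit 101711893) .nil),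
   .two (nat_lit 8388609) (nat_lit 68157443) (.two (nat_lit 8388608) (nat_lit 19093520396) (.one (nat_lit 235929629) .nil)),
   .two (nat_lit 4194308) (nat_lit 806354949) (.two (nat_lit 2097153) (nat_lit 605028364) (.two (nat_lit 1048576) (nat_lit 606076943) (.one (nat_lit 705691713) .nil))),
   .two (nat_lit 1291845635) (nat_lit 18933088259) (.two (nat_lit 620756993) (nat_lit 1753219079) (.two (nat_lit 8388608) (nat_lit 1795162127) (.one (nat_lit 251658315) .nil))),
   .two (nat_lit 20644364292) (nat_lit 166129041411) (.two (nat_lit 9765388289) (nat_lit 165532401672) (.two (nat_lit 1048576) (nat_lit 10343153679) (.one (nat_lit 10343153699) .nil))),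
   .two (nat_lit 10343153669) (nat_lit 19532873731) (.two (nat_lit 156367847425) (nat_lit 165532401672) (.two (nat_lit 4194304) (nat_lit 165532401679) (.one (nat_lit 306184269) .nil))),
   .two (nat_lit 1291845636) (nat_lit 46414168067) (.two (nat_lit 8388609) (nat_lit 10385096712) (.two (nat_lit 8388608) (nat_lit 10385096719) (.one (nat_lit 9974054949) .nil))),
   .two (nat_lit 4605345797) (nat_lit 183845781507) (.two (nat_lit 156372041729) (nat_lit 12114198536) (.two (nat_lit 8388608) (nat_lit 12114198543) (.one (nat_lit 158646403153) .nil))),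
   .two (nat_lit 822083589) (nat_lit 19529728003) (.two (nat_lit 156364701697) (nat_lit 83886089) (.two (nat_lit 1048576) (nat_lit 285212687) (.one (nat_lit 285212707) .nil))),
   .two (nat_lit 165532401667) (nat_lit 166129041411) (.two (nat_lit 9765388289) (nat_lit 10343153671) (.two (nat_lit 1048576) (nat_lit 10343153679) (.one (nat_lit 156472705096) .nil))),
   .two (nat_lit 1291845636) (nat_lit 166129041411) (.two (nat_lit 9765388289) (nat_lit 10385096712) (.two (nat_lit 1048576) (nat_lit 10385096719) (.one (nat_lit 47596961829) .nil))),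
   .two (nat_lit 4194308) (nat_lit 1175453699) (.two (nat_lit 37748737) (nat_lit 168820745) (.two (nat_lit 1048576) (nat_lit 2889875467) (.one (nat_lit 876609619) .nil))),
   .two (nat_lit 176160772) (nat_lit 20637024259) (.two (nat_lit 605028353) (nat_lit 159224168456) (.two (nat_lit 1048576) (nat_lit 159257722904) (.one (nat_lit 166229704772) .nil))),
   .two (nat_lit 822083589) (nat_lit 705691650) (.one (nat_lit 135266325) .nil),
   .two (nat_lit 1795162117) (nat_lit 11479810050) (.one (nat_lit 156971827221) .nil),
   .two (nat_lit 606076931) (nat_lit 1178599427) (.two (nat_lit 9768534017) (nat_lit 9934209031) (.two (nat_lit 2097152) (nat_lit 11479810063) (.one (nat_lit 12620660807) .nil))),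
   .two (nat_lit 9866051589) (nat_lit 166132187139) (.two (nat_lit 34603009) (nat_lit 10506731528) (.two (nat_lit 1048576) (nat_lit 10506731535) (.one (nat_lit 306184266) .nil))),
   .two (nat_lit 169869316) (nat_lit 19529728003) (.two (nat_lit 156364701697) (nat_lit 606076936) (.two (nat_lit 4194304) (nat_lit 19596836896) (.one (nat_lit 1048668) .nil))),
   .two (nat_lit 11476664324) (nat_lit 183853121539) (.two (nat_lit 34603009) (nat_lit 13195280392) (.two (nat_lit 1048576) (nat_lit 2894069771) (.one (nat_lit 185020186713) .nil))),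
   .two (nat_lit 9781116931) (nat_lit 19532873731) (.two (nat_lit 156367847425) (nat_lit 9781116935) (.two (nat_lit 4194304) (nat_lit 2936012831) (.one (nat_lit 156380430375) .nil))),
   .two (nat_lit 8388612) (nat_lit 46407876611) (.two (nat_lit 8388609) (nat_lit 3525312520) (.two (nat_lit 2097152) (nat_lit 2894069771) (.one (nat_lit 69206097) .nil))),
   .two (nat_lit 184549380) (nat_lit 9765388291) (.two (nat_lit 8388609) (nat_lit 47563407368) (.two (nat_lit 8388608) (nat_lit 2969567249) (.one (nat_lit 3020947532) .nil))),
   .two (nat_lit 705691651) (nat_lit 1277165571) (.two (nat_lit 34603009) (nat_lit 9934209031) (.two (nat_lit 1048576) (nat_lit 9934209039) (.one (nat_lit 9934209092) .nil))),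
   .two (nat_lit 2097157) (nat_lit 721420293) (.two (nat_lit 34603009) (nat_lit 28087156744) (.two (nat_lit 1048576) (nat_lit 1224736789) (.one (nat_lit 16777309) .nil))),
   .two (nat_lit 721420292) (nat_lit 1178599427) (.two (nat_lit 9768534017) (nat_lit 185002360840) (.two (nat_lit 2097152) (nat_lit 47584378909) (.one (nat_lit 12117344335) .nil))),
   .two (nat_lit 16777220) (nat_lit 2887778307) (.two (nat_lit 2097153) (nat_lit 16777224) (.two (nat_lit 2097152) (nat_lit 46523219993) (.one (nat_lit 10437525576) .nil))),
   .two (nat_lit 1916796933) (nat_lit 166130089986) (.one (nat_lit 203423766) .nil),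
   .two (nat_lit 169869315) (nat_lit 1276116995) (.two (nat_lit 2097153) (nat_lit 1343225863) (.two (nat_lit 2097152) (nat_lit 21777874959) (.one (nat_lit 3524263975) .nil))),
   .two (nat_lit 705691652) (nat_lit 10372513795) (.two (nat_lit 612368385) (nat_lit 11543773192) (.two (nat_lit 8388608) (nat_lit 184986632209) (.one (nat_lit 19599982665) .nil))),
   .two (nat_lit 9766436867) (nat_lit 638582791) (.two (nat_lit 4194304) (nat_lit 47555018790) (.one (nat_lit 47555018790) .nil)),
   .two (nat_lit 183853121538) (nat_lit 10503585798) (.two (nat_lit 41943041) (nat_lit 10503585803) (.two (nat_lit 1048576) (nat_lit 3531603986) (.one (nat_lit 156566028386) .nil))),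
   .two (nat_lit 2097155) (nat_lit 8388615) (.two (nat_lit 2097152) (nat_lit 10503585830) (.one (nat_lit 839909414) .nil)),
   .two (nat_lit 2889875459) (nat_lit 11543773191) (.two (nat_lit 4194304) (nat_lit 11543773218) (.one (nat_lit 159216828454) .nil)),
   .two (nat_lit 46407876611) (nat_lit 1913651207) (.two (nat_lit 16777216) (nat_lit 34603046) (.one (nat_lit 34603046) .nil)),
   .two (nat_lit 721420290) (nat_lit 13195280390) (.two (nat_lit 41943041) (nat_lit 822083595) (.two (nat_lit 8388608) (nat_lit 822083602) (.one (nat_lit 813695075) .nil))),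
   .two (nat_lit 705691651) (nat_lit 10504634375) (.two (nat_lit 16777216) (nat_lit 136314919) (.one (nat_lit 136314919) .nil)),
   .two (nat_lit 9768534019) (nat_lit 102760455) (.two (nat_lit 16777216) (nat_lit 159224168486) (.one (nat_lit 159224168486) .nil)),
   .two (nat_lit 184549379) (nat_lit 1343225863) (.two (nat_lit 2097152) (nat_lit 4631560231) (.one (nat_lit 4631560231) .nil)),
   .two (nat_lit 176160771) (nat_lit 639631367) (.two (nat_lit 16777216) (nat_lit 12121538598) (.one (nat_lit 12121538598) .nil)),
   .two (nat_lit 4599054343) (nat_lit 13191086087) (.two (nat_lit 1048576) (nat_lit 1344274470) .nil),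
   .two (nat_lit 9781116935) (nat_lit 159224168455) (.two (nat_lit 16777216) (nat_lit 2424307750) .nil),
   .two (nat_lit 809500679) (nat_lit 13187940359) (.two (nat_lit 1048576) (nat_lit 19597885479) .nil),
   .two (nat_lit 9781116935) (nat_lit 157038936071) (.two (nat_lit 4194304) (nat_lit 19109249062) .nil),
   .two (nat_lit 4194311) (nat_lit 158144135175) (.two (nat_lit 2097152) (nat_lit 158146232359) .nil),
   .two (nat_lit 37748737) (nat_lit 1343225861) (.two (nat_lit 2097152) (nat_lit 605028393) .nil),
   .two (nat_lit 8388609) (nat_lit 705691671) .nil,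
   .two (nat_lit 8388609) (nat_lit 169869336) .nil,
   .two (nat_lit 41943041) (nat_lit 705691671) .nil,
   .two (nat_lit 41943041) (nat_lit 169869336) .nil,
   .two (nat_lit 41943041) (nat_lit 4194328) .nil,
   .two (nat_lit 2097153) (nat_lit 809500677) (.two (nat_lit 4194304) (nat_lit 2954887176) (.one (nat_lit 708837417) .nil)),
   .two (nat_lit 8388609) (nat_lit 809500696) .nil,
   .two (nat_lit 612368385) (nat_lit 272629784) .nil,
   .two (nat_lit 156364701697) (nat_lit 754974743) .nil,
   .two (nat_lit 34603009) (nat_lit 12054429720) .nil,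
   .two (nat_lit 16777217) (nat_lit 12117344261) (.two (nat_lit 4194304) (nat_lit 2969567240) (.one (nat_lit 184419352618) .nil)),
   .two (nat_lit 50331649) (nat_lit 156465365017) .nil,
   .two (nat_lit 37748737) (nat_lit 880803852) (.one (nat_lit 46514831409) .nil),
   .two (nat_lit 606076929) (nat_lit 21811429388) (.one (nat_lit 34603053) .nil),
   .two (nat_lit 8388609) (nat_lit 306184204) (.one (nat_lit 138412080) .nil),
   .two (nat_lit 37748737) (nat_lit 174753579013) (.two (nat_lit 1048576) (nat_lit 158144135193) .nil),
   .two (nat_lit 9768534017) (nat_lit 158143086597) (.two (nat_lit 2097152) (nat_lit 336592945) .nil),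
   .two (nat_lit 2097153) (nat_lit 13195280389) (.two (nat_lit 1048576) (nat_lit 10544480304) .nil),
   .two (nat_lit 2097153) (nat_lit 218103831) .nil,
   .two (nat_lit 8388609) (nat_lit 166130089988) (.two (nat_lit 2097152) (nat_lit 46414168077) (.one (nat_lit 166130090008) .nil)),
   .two (nat_lit 41943041) (nat_lit 1746927629) (.one (nat_lit 16777323) .nil),
   .two (nat_lit 8388609) (nat_lit 13187940366) (.one (nat_lit 620757034) .nil),
   .two (nat_lit 606076929) (nat_lit 641728538) .nil,
   .two (nat_lit 16777217) (nat_lit 2894069765) (.two (nat_lit 16777216) (nat_lit 13187940395) .nil),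
   .two (nat_lit 156372041729) (nat_lit 50331672) .nil,
   .two (nat_lit 16777217) (nat_lit 157038936077) (.one (nat_lit 9948889112) .nil),
   .two (nat_lit 4194305) (nat_lit 184549389) (.one (nat_lit 9814671404) .nil),
   .two (nat_lit 9768534017) (nat_lit 50331672) .nil,
   .two (nat_lit 34603009) (nat_lit 159217876997) (.two (nat_lit 8388608) (nat_lit 2954887192) .nil),
   .two (nat_lit 156367847425) (nat_lit 10907287565) (.one (nat_lit 166130090091) .nil),
   .two (nat_lit 8388609) (nat_lit 184986632197) (.two (nat_lit 8388608) (nat_lit 739246088) (.one (nat_lit 166136381485) .nil)),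
   .two (nat_lit 605028353) (nat_lit 166197198873) .nil,
   .two (nat_lit 9765388289) (nat_lit 10552868889) .nil,
   .two (nat_lit 9768534017) (nat_lit 13195280409) .nil,
   .two (nat_lit 612368385) (nat_lit 4634705944) .nil,
   .two (nat_lit 9781116929) (nat_lit 1948254233) .nil,
   .two (nat_lit 9765388289) (nat_lit 1358954508) (.one (nat_lit 1929379888) .nil),
   .two (nat_lit 2097153) (nat_lit 159224168473) .nil,
   .two (nat_lit 16777217) (nat_lit 739246085) (.two (nat_lit 16777216) (nat_lit 184416206856) (.one (nat_lit 46422556713) .nil)),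
   .two (nat_lit 612368385) (nat_lit 12117344261) (.two (nat_lit 8388608) (nat_lit 19130220568) .nil),
   .two (nat_lit 612368385) (nat_lit 11577327628) (.one (nat_lit 19127074858) .nil),
   .two (nat_lit 2097153) (nat_lit 20737687575) .nil,
   .two (nat_lit 9766436865) (nat_lit 20711473177) .nil,
   .two (nat_lit 37748737) (nat_lit 3558866967) .nil,
   .two (nat_lit 156372041729) (nat_lit 843055116) (.one (nat_lit 239075376) .nil),
   .two (nat_lit 4194305) (nat_lit 11484004378) .nil,
   .two (nat_lit 156364701697) (nat_lit 183953784858) .nil,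
   .two (nat_lit 4194305) (nat_lit 174759870472) (.one (nat_lit 21814575149) .nil),
   .two (nat_lit 156365750273) (nat_lit 3531603993) .nil,
   .two (nat_lit 9765388289) (nat_lit 13195280389) (.two (nat_lit 4194304) (nat_lit 3028287513) .nil),
   .two (nat_lit 8388609) (nat_lit 873463821) (.one (nat_lit 183947493476) .nil),
   .two (nat_lit 156364701697) (nat_lit 788529177) .nil,
   .two (nat_lit 9765388289) (nat_lit 10343153689) .nil,
   .two (nat_lit 34603009) (nat_lit 159232557082) .nil,
   .two (nat_lit 9768534017) (nat_lit 10538188812) (.one (nat_lit 156969730090) .nil),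
   .two (nat_lit 156365750273) (nat_lit 159224168460) (.one (nat_lit 185027526698) .nil),
   .two (nat_lit 9765388289) (nat_lit 142606361) .nil,
   .two (nat_lit 41943041) (nat_lit 1291845640) (.one (nat_lit 10376708144) .nil),
   .two (nat_lit 34603009) (nat_lit 272629765) (.two (nat_lit 4194304) (nat_lit 11543773192) (.one (nat_lit 156566028331) .nil)),
   .two (nat_lit 606076929) (nat_lit 1216348185) .nil,
   .two (nat_lit 8388609) (nat_lit 3024093209) .nil,
   .two (nat_lit 620756993) (nat_lit 21811429388) (.one (nat_lit 165525061674) .nil),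
   .two (nat_lit 9768534017) (nat_lit 47596961817) .nil,
   .two (nat_lit 620756993) (nat_lit 3525312536) .nil,
   .two (nat_lit 156365750273) (nat_lit 3573547032) .nil,
   .two (nat_lit 16777217) (nat_lit 20644364292) (.two (nat_lit 2097152) (nat_lit 2432696365) .nil),
   .two (nat_lit 41943041) (nat_lit 158144135173) (.two (nat_lit 8388608) (nat_lit 102760473) .nil),
   .two (nat_lit 156372041729) (nat_lit 742391834) .nil,
   .two (nat_lit 37748737) (nat_lit 46984593431) .nil,
   .two (nat_lit 606076929) (nat_lit 11492392964) (.two (nat_lit 1048576) (nat_lit 20638072874) .nil),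
   .two (nat_lit 2097153) (nat_lit 2889875461) (.two (nat_lit 8388608) (nat_lit 21210595376) .nil),
   .two (nat_lit 2097153) (nat_lit 166229704728) .nil,
   .two (nat_lit 8388609) (nat_lit 11559501829) (.two (nat_lit 4194304) (nat_lit 3472883760) .nil),
   .two (nat_lit 37748737) (nat_lit 13228834840) .nil,
   .two (nat_lit 9781116929) (nat_lit 2927624217) .nil,
   .two (nat_lit 605028353) (nat_lit 2350907417) .nil,
   .two (nat_lit 37748737) (nat_lit 21207449605) (.two (nat_lit 2097152) (nat_lit 28790751274) .nil),
   .two (nat_lit 41943041) (nat_lit 10940841989) (.two (nat_lit 1048576) (nat_lit 183920230441) .nil),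
   .two (nat_lit 9766436865) (nat_lit 184549399) .nil,
   .two (nat_lit 606076929) (nat_lit 21207449625) .nil,
   .two (nat_lit 9765388289) (nat_lit 184419352599) .nil,
   .two (nat_lit 2097153) (nat_lit 21214789656) .nil,
   .two (nat_lit 8388609) (nat_lit 10504634373) (.two (nat_lit 2097152) (nat_lit 4605345800) (.one (nat_lit 874512432) .nil)),
   .two (nat_lit 9781116929) (nat_lit 10000269337) .nil,
   .two (nat_lit 16777217) (nat_lit 3464495117) (.one (nat_lit 19537068132) .nil),
   .two (nat_lit 156372041729) (nat_lit 37748760) .nil,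
   .two (nat_lit 9768534017) (nat_lit 37246468120) .nil,
   .two (nat_lit 34603009) (nat_lit 13228834842) .nil,
   .two (nat_lit 9781116929) (nat_lit 19093520408) .nil,
   .two (nat_lit 2097153) (nat_lit 10007609368) .nil,
   .two (nat_lit 50331649) (nat_lit 158176641049) .nil,
   .two (nat_lit 16777217) (nat_lit 713031684) (.two (nat_lit 8388608) (nat_lit 2902458376) (.one (nat_lit 9814671410) .nil)),
   .two (nat_lit 612368385) (nat_lit 318767127) .nil,
   .two (nat_lit 605028353) (nat_lit 183920230425) .nil,
   .two (nat_lit 9768534017) (nat_lit 4647288856) .nil,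
   .two (nat_lit 9781116929) (nat_lit 2887778327) .nil,
   .two (nat_lit 156364701697) (nat_lit 158653743128) .nil,
   .two (nat_lit 16777217) (nat_lit 11484004377) .nil,
   .two (nat_lit 156367847425) (nat_lit 11559501829) (.two (nat_lit 4194304) (nat_lit 9915334681) .nil),
   .two (nat_lit 34603009) (nat_lit 9768534024) (.one (nat_lit 11577327658) .nil),
   .two (nat_lit 606076929) (nat_lit 19093520409) .nil,
   .two (nat_lit 156372041729) (nat_lit 21208498199) .nil,
   .two (nat_lit 156365750273) (nat_lit 9768534042) .nil,
   .two (nat_lit 50331649) (nat_lit 28757196805) (.two (nat_lit 1048576) (nat_lit 16777224) (.one (nat_lit 1048624) .nil)),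
   .two (nat_lit 2097153) (nat_lit 12054429704) (.one (nat_lit 1746927664) .nil),
   .two (nat_lit 156365750273) (nat_lit 19029557272) .nil,
   .two (nat_lit 8388609) (nat_lit 156971827208) (.one (nat_lit 47550824491) .nil),
   .two (nat_lit 9781116929) (nat_lit 47548727319) .nil,
   .two (nat_lit 9766436865) (nat_lit 18933088261) (.two (nat_lit 4194304) (nat_lit 11517558808) .nil),
   .two (nat_lit 37748737) (nat_lit 156372041752) .nil,
   .two (nat_lit 156364701697) (nat_lit 183916036119) .nil,
   .two (nat_lit 9768534017) (nat_lit 183845781508) (.two (nat_lit 4194304) (nat_lit 12047089672) (.one (nat_lit 184416206881) .nil)),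
   .two (nat_lit 612368385) (nat_lit 16777220) (.two (nat_lit 8388608) (nat_lit 50331656) (.one (nat_lit 13237223457) .nil)),
   .two (nat_lit 156367847425) (nat_lit 21785214981) (.two (nat_lit 4194304) (nat_lit 156573368330) (.one (nat_lit 4194361) .nil)),
   .two (nat_lit 606076929) (nat_lit 46414168068) (.two (nat_lit 2097152) (nat_lit 10343153672) (.one (nat_lit 9940500507) .nil)),
   .two (nat_lit 50331649) (nat_lit 41943045) (.two (nat_lit 16777216) (nat_lit 159224168460) (.one (nat_lit 156472705053) .nil)),
   .two (nat_lit 34603009) (nat_lit 9948889093) (.two (nat_lit 1048576) (nat_lit 9781116940) (.one (nat_lit 150994973) .nil)),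
   .two (nat_lit 4194305) (nat_lit 1358954501) (.two (nat_lit 4194304) (nat_lit 18941476874) (.one (nat_lit 3527409717) .nil)),
   .two (nat_lit 612368385) (nat_lit 169869316) (.two (nat_lit 8388608) (nat_lit 159217877000) (.one (nat_lit 9799991323) .nil)),
   .two (nat_lit 169869316) (nat_lit 1779433480) (.two (nat_lit 1048576) (nat_lit 169869336) (.one (nat_lit 705691756) .nil)),
   .two (nat_lit 4194308) (nat_lit 2887778308) (.two (nat_lit 2097153) (nat_lit 272629768) (.two (nat_lit 2097152) (nat_lit 4194328) (.one (nat_lit 169869423) .nil))),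
   .two (nat_lit 184549380) (nat_lit 28093448200) (.two (nat_lit 8388608) (nat_lit 21793603610) (.one (nat_lit 10376708218) .nil)),
   .two (nat_lit 654311429) (nat_lit 1916796936) (.two (nat_lit 4194304) (nat_lit 1962934297) (.one (nat_lit 47550824579) .nil)),
   .two (nat_lit 176160773) (nat_lit 9781116936) (.two (nat_lit 8388608) (nat_lit 166245433369) (.one (nat_lit 11492393080) .nil)),
   .two (nat_lit 8388613) (nat_lit 218103816) (.two (nat_lit 8388608) (nat_lit 4647288857) (.one (nat_lit 21793603711) .nil)),
   .two (nat_lit 46409973764) (nat_lit 156968681477) (.two (nat_lit 4194305) (nat_lit 184986632206) (.two (nat_lit 1048576) (nat_lit 675282968) (.one (nat_lit 21814575232) .nil))),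
   .two (nat_lit 184986632197) (nat_lit 157036838917) (.two (nat_lit 34603009) (nat_lit 10504634382) (.two (nat_lit 1048576) (nat_lit 46407876631) (.one (nat_lit 21207449734) .nil))),
   .two (nat_lit 1291845634) (nat_lit 20644364291) (.two (nat_lit 612368385) (nat_lit 9948889094) (.two (nat_lit 8388608) (nat_lit 9948889099) (.one (nat_lit 8388778) .nil))),
   .two (nat_lit 10343153669) (nat_lit 1175453699) (.two (nat_lit 9765388289) (nat_lit 156372041740) (.two (nat_lit 1048576) (nat_lit 46414168079) (.one (nat_lit 46414168129) .nil))),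
   .two (nat_lit 169869316) (nat_lit 612368389) (.two (nat_lit 2097153) (nat_lit 1782579213) (.two (nat_lit 8388608) (nat_lit 708837417) (.one (nat_lit 807403602) .nil))),
   .two (nat_lit 21777874949) (nat_lit 176160771) (.two (nat_lit 8388609) (nat_lit 21811429388) (.two (nat_lit 8388608) (nat_lit 9866051599) (.one (nat_lit 168820859) .nil))),
   .two (nat_lit 8388613) (nat_lit 1291845635) (.two (nat_lit 620756993) (nat_lit 176160776) (.two (nat_lit 16777216) (nat_lit 176160783) (.one (nat_lit 9873391690) .nil))),
   .two (nat_lit 705691652) (nat_lit 8388611) (.two (nat_lit 8388609) (nat_lit 11543773192) (.two (nat_lit 8388608) (nat_lit 1913651215) (.one (nat_lit 174752530571) .nil))),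
   .two (nat_lit 21777874949) (nat_lit 46407876611) (.two (nat_lit 2097153) (nat_lit 158075977736) (.two (nat_lit 2097152) (nat_lit 185020186647) (.one (nat_lit 168820874) .nil))),
   .two (nat_lit 620756995) (nat_lit 156365750275) (.two (nat_lit 620756993) (nat_lit 157036838919) (.two (nat_lit 2097152) (nat_lit 2365587485) (.one (nat_lit 2365587529) .nil))),
   .two (nat_lit 1276116994) (nat_lit 41943043) (.two (nat_lit 41943041) (nat_lit 2886729737) (.two (nat_lit 1048576) (nat_lit 176160779) (.one (nat_lit 8388779) .nil))),
   .two (nat_lit 713031683) (nat_lit 156365750275) (.two (nat_lit 41943041) (nat_lit 10336862215) (.two (nat_lit 8388608) (nat_lit 13222543389) (.one (nat_lit 13222543433) .nil))),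
   .two (nat_lit 606076931) (nat_lit 2889875459) (.two (nat_lit 606076929) (nat_lit 272629767) (.two (nat_lit 2097152) (nat_lit 1212153886) (.one (nat_lit 4194476) .nil))),
   .two (nat_lit 2887778306) (nat_lit 75497475) (.two (nat_lit 2097153) (nat_lit 41943046) (.two (nat_lit 2097152) (nat_lit 12054429707) (.one (nat_lit 645922959) .nil))),
   .two (nat_lit 41943045) (nat_lit 1191182339) (.two (nat_lit 9781116929) (nat_lit 13195280396) (.two (nat_lit 16777216) (nat_lit 183853121551) (.one (nat_lit 46414168101) .nil))),
   .two (nat_lit 705691652) (nat_lit 166130089988) (.two (nat_lit 34603009) (nat_lit 10504634374) (.two (nat_lit 1048576) (nat_lit 28758245387) (.one (nat_lit 156465365077) .nil))),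
   .two (nat_lit 176160772) (nat_lit 3472883717) (.one (nat_lit 202375190) .nil),
   .two (nat_lit 41943045) (nat_lit 18928893955) (.two (nat_lit 156367847425) (nat_lit 713031688) (.two (nat_lit 4194304) (nat_lit 713031695) (.one (nat_lit 28693233793) .nil))),
   .two (nat_lit 605028357) (nat_lit 3464495109) (.two (nat_lit 4194305) (nat_lit 28690087949) (.two (nat_lit 4194304) (nat_lit 10544480277) (.one (nat_lit 11014242467) .nil))),
   .two (nat_lit 8388612) (nat_lit 1916796933) (.two (nat_lit 9768534017) (nat_lit 41943048) (.two (nat_lit 4194304) (nat_lit 12054429707) (.one (nat_lit 8388782) .nil))),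
   .two (nat_lit 4194308) (nat_lit 16777218) (.one (nat_lit 4634705940) .nil),
   .two (nat_lit 721420292) (nat_lit 2889875460) (.two (nat_lit 4194305) (nat_lit 50331654) (.two (nat_lit 16777216) (nat_lit 46980399115) (.one (nat_lit 218103893) .nil))),
   .two (nat_lit 9934209029) (nat_lit 184549378) (.one (nat_lit 2954887189) .nil),
   .two (nat_lit 4194308) (nat_lit 2894069765) (.one (nat_lit 185020186645) .nil),
   .two (nat_lit 11479810052) (nat_lit 46414168068) (.two (nat_lit 37748737) (nat_lit 157043130376) (.two (nat_lit 16777216) (nat_lit 71303218) (.one (nat_lit 46980399189) .nil))),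
   .two (nat_lit 2902458372) (nat_lit 20638072836) (.two (nat_lit 16777217) (nat_lit 159217876998) (.two (nat_lit 2097152) (nat_lit 83886101) (.one (nat_lit 46474985557) .nil))),
   .two (nat_lit 4194308) (nat_lit 166129041411) (.two (nat_lit 9765388289) (nat_lit 809500680) (.two (nat_lit 1048576) (nat_lit 809500687) (.one (nat_lit 68157577) .nil))),
   .two (nat_lit 654311429) (nat_lit 1175453699) (.two (nat_lit 9765388289) (nat_lit 158158815240) (.two (nat_lit 1048576) (nat_lit 9881780241) (.one (nat_lit 183962173584) .nil))),
   .two (nat_lit 713031684) (nat_lit 822083589) (.two (nat_lit 50331649) (nat_lit 11551113224) (.two (nat_lit 16777216) (nat_lit 11611930672) (.one (nat_lit 158083317850) .nil))),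
   .two (nat_lit 41943045) (nat_lit 46407876611) (.two (nat_lit 612368385) (nat_lit 3525312520) (.two (nat_lit 8388608) (nat_lit 270532633) (.one (nat_lit 3531604044) .nil))),
   .two (nat_lit 2097155) (nat_lit 4194307) (.two (nat_lit 2097153) (nat_lit 605028359) (.two (nat_lit 2097152) (nat_lit 21777874968) (.one (nat_lit 1048751) .nil))),
   .two (nat_lit 75497477) (nat_lit 18928893955) (.two (nat_lit 8388609) (nat_lit 46510637065) (.two (nat_lit 4194304) (nat_lit 713031701) (.one (nat_lit 158179786915) .nil))),
   .two (nat_lit 16777219) (nat_lit 20637024259) (.two (nat_lit 605028353) (nat_lit 16777223) (.two (nat_lit 16777216) (nat_lit 166196150302) (.one (nat_lit 47547678865) .nil))),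
   .two (nat_lit 184549381) (nat_lit 34603011) (.two (nat_lit 2097153) (nat_lit 3036676109) (.two (nat_lit 2097152) (nat_lit 12047089692) (.one (nat_lit 184987680850) .nil))),
   .two (nat_lit 4194306) (nat_lit 705691651) (.two (nat_lit 34603009) (nat_lit 171966470) (.two (nat_lit 1048576) (nat_lit 171966475) (.one (nat_lit 20737687701) .nil))),
   .two (nat_lit 20638072834) (nat_lit 16777219) (.two (nat_lit 16777217) (nat_lit 183846830089) (.two (nat_lit 2097152) (nat_lit 184549387) (.one (nat_lit 117440659) .nil))),
   .two (nat_lit 156968681477) (nat_lit 620756995) (.two (nat_lit 34603009) (nat_lit 2969567240) (.two (nat_lit 1048576) (nat_lit 2969567247) (.one (nat_lit 10385096741) .nil))),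
   .two (nat_lit 705691652) (nat_lit 1291845634) (.one (nat_lit 11543773203) .nil),
   .two (nat_lit 8388612) (nat_lit 1178599427) (.two (nat_lit 9768534017) (nat_lit 4605345800) (.two (nat_lit 4194304) (nat_lit 4605345807) (.one (nat_lit 158083317847) .nil))),
   .two (nat_lit 169869316) (nat_lit 174755676165) (.two (nat_lit 620756993) (nat_lit 606076936) (.two (nat_lit 2097152) (nat_lit 174768259093) (.one (nat_lit 2097329) .nil))),
   .two (nat_lit 169869315) (nat_lit 183853121539) (.two (nat_lit 41943041) (nat_lit 47548727303) (.two (nat_lit 8388608) (nat_lit 11544821789) (.one (nat_lit 28087156812) .nil))),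
   .two (nat_lit 1358954501) (nat_lit 605028355) (.two (nat_lit 605028353) (nat_lit 1749024775) (.two (nat_lit 1048576) (nat_lit 4194358) (.one (nat_lit 16777394) .nil))),
   .two (nat_lit 1358954501) (nat_lit 605028355) (.two (nat_lit 605028353) (nat_lit 1749024775) (.two (nat_lit 1048576) (nat_lit 3527409717) (.one (nat_lit 16777395) .nil))),
   .two (nat_lit 16777220) (nat_lit 1176502275) (.two (nat_lit 41943041) (nat_lit 50331656) (.two (nat_lit 8388608) (nat_lit 1847590944) (.one (nat_lit 10015998097) .nil))),
   .two (nat_lit 2887778308) (nat_lit 165525061635) (.two (nat_lit 156364701697) (nat_lit 639631368) (.two (nat_lit 1048576) (nat_lit 639631375) (.one (nat_lit 303038585) .nil))),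
   .two (nat_lit 169869314) (nat_lit 68157443) (.two (nat_lit 605028353) (nat_lit 2097158) (.two (nat_lit 1048576) (nat_lit 2097163) (.one (nat_lit 3020947613) .nil))),
   .two (nat_lit 705691650) (nat_lit 156365750275) (.two (nat_lit 605028353) (nat_lit 4599054342) (.two (nat_lit 1048576) (nat_lit 3525312523) (.one (nat_lit 2097332) .nil))),
   .two (nat_lit 10370416643) (nat_lit 20644364291) (.two (nat_lit 9766436865) (nat_lit 21785214983) (.two (nat_lit 2097152) (nat_lit 19604176923) (.one (nat_lit 1417674894) .nil))),
   .two (nat_lit 8388611) (nat_lit 1178599427) (.two (nat_lit 8388609) (nat_lit 1916796935) (.two (nat_lit 4194304) (nat_lit 3028287516) (.one (nat_lit 11484004434) .nil))),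
   .two (nat_lit 37748739) (nat_lit 20637024259) (.two (nat_lit 37748737) (nat_lit 21777874951) (.two (nat_lit 1048576) (nat_lit 138412059) (.one (nat_lit 138412192) .nil))),
   .two (nat_lit 46409973764) (nat_lit 166129041411) (.two (nat_lit 9765388289) (nat_lit 157038936072) (.two (nat_lit 2097152) (nat_lit 806354973) (.one (nat_lit 806355017) .nil))),
   .two (nat_lit 4605345797) (nat_lit 156367847427) (.two (nat_lit 8388609) (nat_lit 157038936071) (.two (nat_lit 4194304) (nat_lit 3531604021) (.one (nat_lit 8388789) .nil))),
   .two (nat_lit 2889875460) (nat_lit 1914699781) (.one (nat_lit 3028287509) .nil),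
   .two (nat_lit 639631365) (nat_lit 19599982597) (.two (nat_lit 606076929) (nat_lit 608174090) (.two (nat_lit 2097152) (nat_lit 13191086091) (.one (nat_lit 2097334) .nil))),
   .two (nat_lit 739246085) (nat_lit 157038936069) (.two (nat_lit 34603009) (nat_lit 4601151494) (.two (nat_lit 1048576) (nat_lit 4601151499) (.one (nat_lit 10436477110) .nil))),
   .two (nat_lit 1795162117) (nat_lit 4194306) (.one (nat_lit 158192369685) .nil),
   .two (nat_lit 2902458373) (nat_lit 156367847427) (.two (nat_lit 156367847425) (nat_lit 2969567244) (.two (nat_lit 4194304) (nat_lit 2969567247) (.one (nat_lit 166245433381) .nil))),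
   .two (nat_lit 46414168068) (nat_lit 46407876611) (.two (nat_lit 2097153) (nat_lit 156372041736) (.two (nat_lit 2097152) (nat_lit 156372041743) (.one (nat_lit 1786773573) .nil))),
   .two (nat_lit 184549380) (nat_lit 156372041731) (.two (nat_lit 156372041729) (nat_lit 2969567240) (.two (nat_lit 8388608) (nat_lit 184549399) (.one (nat_lit 156581757014) .nil))),
   .two (nat_lit 169869316) (nat_lit 11492392964) (.two (nat_lit 2097153) (nat_lit 1929379848) (.two (nat_lit 8388608) (nat_lit 19545456690) (.one (nat_lit 184549461) .nil))),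
   .two (nat_lit 46980399109) (nat_lit 46407876610) (.one (nat_lit 157038936085) .nil),
   .two (nat_lit 46409973762) (nat_lit 721420291) (.two (nat_lit 4194305) (nat_lit 50331654) (.two (nat_lit 4194304) (nat_lit 754974731) (.one (nat_lit 620757147) .nil))),
   .two (nat_lit 9934209029) (nat_lit 1276116996) (.two (nat_lit 606076929) (nat_lit 9866051592) (.two (nat_lit 1048576) (nat_lit 11611930646) (.one (nat_lit 28757196964) .nil))),
   .two (nat_lit 28757196805) (nat_lit 20644364292) (.two (nat_lit 9765388289) (nat_lit 20644364296) (.two (nat_lit 1048576) (nat_lit 8388619) (.one (nat_lit 8388792) .nil))),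
   .two (nat_lit 2902458372) (nat_lit 20638072836) (.two (nat_lit 16777217) (nat_lit 159217876998) (.two (nat_lit 2097152) (nat_lit 46992982027) (.one (nat_lit 46474985557) .nil))),
   .two (nat_lit 68157443) (nat_lit 183848927235) (.two (nat_lit 605028353) (nat_lit 13191086087) (.two (nat_lit 1048576) (nat_lit 675282971) (.one (nat_lit 4194490) .nil))),
   .two (nat_lit 156372041731) (nat_lit 166130089987) (.two (nat_lit 9766436865) (nat_lit 156372041735) (.two (nat_lit 2097152) (nat_lit 8388635) (.one (nat_lit 19100860581) .nil))),
   .two (nat_lit 4194308) (nat_lit 166130089987) (.two (nat_lit 9766436865) (nat_lit 4601151496) (.two (nat_lit 16777216) (nat_lit 28758245408) (.one (nat_lit 4599054416) .nil))),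
   .two (nat_lit 1916796933) (nat_lit 156365750275) (.two (nat_lit 156365750273) (nat_lit 28693233672) (.two (nat_lit 2097152) (nat_lit 28693233680) (.one (nat_lit 10506731687) .nil))),
   .two (nat_lit 2097157) (nat_lit 2902458372) (.one (nat_lit 4027580438) .nil),
   .two (nat_lit 654311429) (nat_lit 21777874949) (.two (nat_lit 605028353) (nat_lit 285212678) (.two (nat_lit 1048576) (nat_lit 2969567243) (.one (nat_lit 1048763) .nil))),
   .two (nat_lit 16777218) (nat_lit 20638072835) (.two (nat_lit 16777217) (nat_lit 159217876998) (.two (nat_lit 2097152) (nat_lit 1962934294) (.one (nat_lit 11007951009) .nil))),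
   .two (nat_lit 10369368067) (nat_lit 18933088259) (.two (nat_lit 9765388289) (nat_lit 1753219079) (.two (nat_lit 1048576) (nat_lit 19134414877) (.one (nat_lit 9974054991) .nil))),
   .two (nat_lit 102760453) (nat_lit 46409973764) (.two (nat_lit 41943041) (nat_lit 12050235400) (.two (nat_lit 8388608) (nat_lit 3021996054) (.one (nat_lit 9867100289) .nil))),
   .two (nat_lit 176160772) (nat_lit 156364701701) (.two (nat_lit 16777217) (nat_lit 638582796) (.two (nat_lit 8388608) (nat_lit 855638038) (.one (nat_lit 10007609508) .nil))),
   .two (nat_lit 16777220) (nat_lit 176160771) (.two (nat_lit 8388609) (nat_lit 285212680) (.two (nat_lit 8388608) (nat_lit 117440562) (.one (nat_lit 20652752981) .nil))),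
   .two (nat_lit 209715205) (nat_lit 12117344261) (.two (nat_lit 9765388289) (nat_lit 104857608) (.two (nat_lit 1048576) (nat_lit 184419352587) (.one (nat_lit 8388796) .nil))),
   .two (nat_lit 713031683) (nat_lit 1175453699) (.two (nat_lit 9765388289) (nat_lit 41943047) (.two (nat_lit 1048576) (nat_lit 813695009) (.one (nat_lit 28764536871) .nil))),
   .two (nat_lit 75497477) (nat_lit 184549378) (.one (nat_lit 11618222101) .nil),
   .two (nat_lit 75497477) (nat_lit 16777218) (.one (nat_lit 713031701) .nil),
   .two (nat_lit 4194306) (nat_lit 10370416643) (.two (nat_lit 4194305) (nat_lit 9934209030) (.two (nat_lit 2097152) (nat_lit 21814575126) (.one (nat_lit 2097341) .nil))),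
   .two (nat_lit 75497477) (nat_lit 19597885445) (.two (nat_lit 50331649) (nat_lit 11551113224) (.two (nat_lit 2097152) (nat_lit 12054429707) (.one (nat_lit 2097342) .nil))),
   .two (nat_lit 10506731525) (nat_lit 1175453699) (.two (nat_lit 9765388289) (nat_lit 9768534023) (.two (nat_lit 1048576) (nat_lit 18928894006) (.one (nat_lit 21814575282) .nil))),
   .two (nat_lit 184419352581) (nat_lit 166129041410) (.one (nat_lit 4601151510) .nil),
   .two (nat_lit 158144135173) (nat_lit 18925748227) (.two (nat_lit 156364701697) (nat_lit 21208498184) (.two (nat_lit 1048576) (nat_lit 158077026321) (.one (nat_lit 174753579180) .nil))),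
   .two (nat_lit 2902458372) (nat_lit 4194306) (.one (nat_lit 2902458388) .nil),
   .two (nat_lit 46414168069) (nat_lit 183848927234) (.one (nat_lit 156372041749) .nil),
   .two (nat_lit 9933160453) (nat_lit 183853121539) (.two (nat_lit 4194305) (nat_lit 10503585799) (.two (nat_lit 4194304) (nat_lit 11618222133) (.one (nat_lit 12624855221) .nil))),
   .two (nat_lit 68157443) (nat_lit 183848927235) (.two (nat_lit 605028353) (nat_lit 13191086087) (.two (nat_lit 1048576) (nat_lit 13224640536) (.one (nat_lit 4194497) .nil))),
   .two (nat_lit 705691650) (nat_lit 9768534019) (.two (nat_lit 34603009) (nat_lit 272629766) (.two (nat_lit 1048576) (nat_lit 272629771) (.one (nat_lit 4194498) .nil))),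
   .two (nat_lit 50331653) (nat_lit 1178599427) (.two (nat_lit 50331649) (nat_lit 28693233672) (.two (nat_lit 1048576) (nat_lit 19029557265) (.one (nat_lit 21827158094) .nil))),
   .two (nat_lit 713031684) (nat_lit 101711879) (.two (nat_lit 1175453699) (nat_lit 75497480) (.two (nat_lit 9765388289) (nat_lit 713031695) (.two (nat_lit 1048576) (nat_lit 8388672) (.one (nat_lit 8388803) .nil)))),
   .two (nat_lit 11484004357) (nat_lit 3539992584) (.two (nat_lit 41943041) (nat_lit 19529728015) (.two (nat_lit 2097152) (nat_lit 10503585859) (.one (nat_lit 3557818581) .nil))),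
   .two (nat_lit 8388612) (nat_lit 34603015) (.two (nat_lit 8388611) (nat_lit 2954887181) (.two (nat_lit 2097153) (nat_lit 8388632) (.two (nat_lit 1048576) (nat_lit 3558867014) (.one (nat_lit 11577327712) .nil)))),
   .two (nat_lit 4194308) (nat_lit 806354951) (.two (nat_lit 171966467) (nat_lit 2954887176) (.two (nat_lit 605028353) (nat_lit 47548727313) (.two (nat_lit 8388608) (nat_lit 705691684) (.one (nat_lit 183912890464) .nil)))),
   .two (nat_lit 41943045) (nat_lit 272629767) (.two (nat_lit 41943043) (nat_lit 2889875464) (.two (nat_lit 41943041) (nat_lit 2889875471) (.two (nat_lit 8388608) (nat_lit 9902751813) (.one (nat_lit 1178599628) .nil)))),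
   .two (nat_lit 176160772) (nat_lit 2887778312) (.two (nat_lit 612368385) (nat_lit 11476664335) (.two (nat_lit 1048576) (nat_lit 807403557) (.one (nat_lit 166196150368) .nil))),
   .two (nat_lit 8388612) (nat_lit 9781116936) (.two (nat_lit 41943041) (nat_lit 10519314456) (.two (nat_lit 8388608) (nat_lit 2902458451) (.one (nat_lit 12624855256) .nil))),
   .two (nat_lit 166132187139) (nat_lit 156372041735) (.two (nat_lit 4194304) (nat_lit 1954545739) (.one (nat_lit 9772728359) .nil)),
   .two (nat_lit 19529728003) (nat_lit 117440519) (.two (nat_lit 1048576) (nat_lit 166144770119) (.one (nat_lit 1761607719) .nil)),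
   .two (nat_lit 10343153669) (nat_lit 157038936071) (.two (nat_lit 156367847427) (nat_lit 165532401672) (.two (nat_lit 156367847425) (nat_lit 165532401679) (.two (nat_lit 4194304) (nat_lit 1954545741) (.one (nat_lit 339738823) .nil)))),
   .two (nat_lit 184549380) (nat_lit 184986632199) (.two (nat_lit 620756995) (nat_lit 12047089672) (.two (nat_lit 34603009) (nat_lit 184549391) (.two (nat_lit 16777216) (nat_lit 28086108227) (.one (nat_lit 157035790432) .nil)))),
   .two (nat_lit 19529728003) (nat_lit 158083317768) (.two (nat_lit 1048576) (nat_lit 11014242342) (.one (nat_lit 11014242342) .nil)),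
   .two (nat_lit 46992982021) (nat_lit 46978301960) (.two (nat_lit 9781116929) (nat_lit 183845781519) (.two (nat_lit 1048576) (nat_lit 840957989) (.one (nat_lit 12147753056) .nil))),
   .two (nat_lit 16777221) (nat_lit 19026411530) (.two (nat_lit 605028353) (nat_lit 156365750287) (.two (nat_lit 1048576) (nat_lit 11511267349) (.one (nat_lit 46508540109) .nil))),
   .two (nat_lit 101711877) (nat_lit 612368391) (.two (nat_lit 75497475) (nat_lit 1779433480) (.two (nat_lit 605028353) (nat_lit 176160783) (.two (nat_lit 1048576) (nat_lit 176160834) (.one (nat_lit 159216828617) .nil)))),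
   .two (nat_lit 1291845636) (nat_lit 10503585798) (.two (nat_lit 620756993) (nat_lit 10503585803) (.two (nat_lit 1048576) (nat_lit 4043309074) (.one (nat_lit 19026411735) .nil))),
   .two (nat_lit 713031685) (nat_lit 285212678) (.two (nat_lit 41943041) (nat_lit 46992982027) (.two (nat_lit 16777216) (nat_lit 3531603986) (.one (nat_lit 11626610900) .nil))),
   .two (nat_lit 4194308) (nat_lit 156573368330) (.two (nat_lit 612368385) (nat_lit 809500687) (.two (nat_lit 4194304) (nat_lit 176160790) (.one (nat_lit 19130220754) .nil))),
   .two (nat_lit 183848927237) (nat_lit 28758245383) (.two (nat_lit 166130089987) (nat_lit 12117344268) (.two (nat_lit 4194305) (nat_lit 158144135183) (.two (nat_lit 4194304) (nat_lit 158144135204) (.one (nat_lit 69206112) .nil)))),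
   .two (nat_lit 10385096709) (nat_lit 46407876616) (.two (nat_lit 9781116929) (nat_lit 183845781519) (.two (nat_lit 1048576) (nat_lit 840957989) (.one (nat_lit 873464019) .nil))),
   .two (nat_lit 21778923525) (nat_lit 11543773192) (.two (nat_lit 156365750273) (nat_lit 68157455) (.two (nat_lit 1048576) (nat_lit 10003415077) (.one (nat_lit 183912890464) .nil))),
   .two (nat_lit 4194308) (nat_lit 13187940358) (.two (nat_lit 9765388289) (nat_lit 171966475) (.two (nat_lit 4194304) (nat_lit 34603026) (.one (nat_lit 4194524) .nil))),
   .two (nat_lit 46409973764) (nat_lit 13187940358) (.two (nat_lit 4194305) (nat_lit 12114198539) (.two (nat_lit 4194304) (nat_lit 183912890386) (.one (nat_lit 156971827402) .nil))),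
   .two (nat_lit 10369368067) (nat_lit 156372041735) (.two (nat_lit 1048576) (nat_lit 156372041796) (.one (nat_lit 185027526695) .nil)),
   .two (nat_lit 272629765) (nat_lit 806354950) (.two (nat_lit 4194305) (nat_lit 739246095) (.two (nat_lit 1048576) (nat_lit 13224640533) (.one (nat_lit 10939793625) .nil))),
   .two (nat_lit 184993972229) (nat_lit 156364701703) (.two (nat_lit 1048576) (nat_lit 1216348238) (.one (nat_lit 16777254) .nil)),
   .two (nat_lit 18933088259) (nat_lit 50331655) (.two (nat_lit 8388608) (nat_lit 218103892) (.one (nat_lit 687865895) .nil)),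
   .two (nat_lit 169869315) (nat_lit 158143086599) (.two (nat_lit 2097152) (nat_lit 1048664) (.one (nat_lit 3524263975) .nil)),
   .two (nat_lit 10369368067) (nat_lit 1753219079) (.two (nat_lit 1048576) (nat_lit 1417674834) (.one (nat_lit 2323644622) .nil)),
   .two (nat_lit 75497477) (nat_lit 159250382858) (.two (nat_lit 612368385) (nat_lit 806354955) (.two (nat_lit 1048576) (nat_lit 2894069778) (.one (nat_lit 12624855254) .nil))),
   .two (nat_lit 721420291) (nat_lit 1178599432) (.two (nat_lit 16777216) (nat_lit 641728550) (.one (nat_lit 641728550) .nil)),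
   .two (nat_lit 713031685) (nat_lit 806354951) (.two (nat_lit 2097155) (nat_lit 41943048) (.two (nat_lit 2097153) (nat_lit 4605345809) (.two (nat_lit 2097152) (nat_lit 12617515097) (.one (nat_lit 28758245472) .nil)))),
   .two (nat_lit 721420291) (nat_lit 1344274439) (.two (nat_lit 4194304) (nat_lit 158647451716) (.one (nat_lit 20738736166) .nil)),
   .two (nat_lit 75497475) (nat_lit 1749024775) (.two (nat_lit 8388608) (nat_lit 185023332434) (.one (nat_lit 2956984527) .nil)),
   .two (nat_lit 746586117) (nat_lit 822083590) (.two (nat_lit 16777217) (nat_lit 28691136527) (.two (nat_lit 2097152) (nat_lit 183920230418) (.one (nat_lit 11477713114) .nil))),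
   .two (nat_lit 708837379) (nat_lit 184993972231) (.two (nat_lit 4194304) (nat_lit 2097227) (.one (nat_lit 19027460134) .nil)),
   .two (nat_lit 1916796933) (nat_lit 9766436871) (.two (nat_lit 2097152) (nat_lit 708837452) (.one (nat_lit 13195280422) .nil)),
   .two (nat_lit 169869315) (nat_lit 13195280391) (.two (nat_lit 8388608) (nat_lit 156365750344) (.one (nat_lit 21778923559) .nil)),
   .two (nat_lit 184549381) (nat_lit 102760455) (.two (nat_lit 8388608) (nat_lit 10452205648) (.one (nat_lit 166230753318) .nil)),
   .two (nat_lit 46407876611) (nat_lit 159216828423) (.two (nat_lit 2097152) (nat_lit 1048666) (.one (nat_lit 1947205851) .nil)),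
   .two (nat_lit 2889875459) (nat_lit 19596836871) (.two (nat_lit 4194304) (nat_lit 184986632282) (.one (nat_lit 1276117198) .nil)),
   .two (nat_lit 1277165573) (nat_lit 1343225863) (.two (nat_lit 1276116995) (nat_lit 9934209032) (.two (nat_lit 605028353) (nat_lit 10504634395) (.two (nat_lit 1048576) (nat_lit 47582281811) (.one (nat_lit 605028556) .nil)))),
   .two (nat_lit 620756995) (nat_lit 12117344263) (.two (nat_lit 16777216) (nat_lit 1849688136) (.one (nat_lit 641728551) .nil)),
   .two (nat_lit 1191182339) (nat_lit 41943047) (.two (nat_lit 16777216) (nat_lit 8388699) (.one (nat_lit 10544480295) .nil)),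
   .two (nat_lit 11492392963) (nat_lit 713031688) (.two (nat_lit 16777216) (nat_lit 813695014) (.one (nat_lit 813695014) .nil)),
   .two (nat_lit 176160771) (nat_lit 158075977736) (.two (nat_lit 8388608) (nat_lit 20737687590) (.one (nat_lit 20737687590) .nil)),
   .two (nat_lit 705691652) (nat_lit 9934209030) (.two (nat_lit 9765388289) (nat_lit 2097163) (.two (nat_lit 1048576) (nat_lit 2097170) (.one (nat_lit 2097373) .nil))),
   .two (nat_lit 10385096707) (nat_lit 157036838919) (.two (nat_lit 2097152) (nat_lit 11492393028) (.one (nat_lit 9982443559) .nil)),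
   .two (nat_lit 605028357) (nat_lit 612368391) (.two (nat_lit 8388608) (nat_lit 156364701769) (.one (nat_lit 1916796966) .nil)),
   .two (nat_lit 19529728008) (nat_lit 2954887175) (.two (nat_lit 16777216) (nat_lit 672137255) .nil),
   .two (nat_lit 4194308) (nat_lit 11543773195) (.two (nat_lit 4194305) (nat_lit 21811429397) (.one (nat_lit 171966689) .nil)),
   .two (nat_lit 13203669000) (nat_lit 159216828423) (.two (nat_lit 2097152) (nat_lit 2416967718) .nil),
   .two (nat_lit 9940500488) (nat_lit 19596836871) (.two (nat_lit 4194304) (nat_lit 873463847) .nil),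
   .two (nat_lit 176160776) (nat_lit 1344274439) (.two (nat_lit 2097152) (nat_lit 158150426662) .nil),
   .two (nat_lit 176160770) (nat_lit 269484054) (.two (nat_lit 8388609) (nat_lit 269484054) (.one (nat_lit 1048807) .nil)),
   .two (nat_lit 20638072834) (nat_lit 806354955) (.two (nat_lit 606076929) (nat_lit 13221494802) (.one (nat_lit 183845781734) .nil)),
   .two (nat_lit 176160770) (nat_lit 9948889099) (.two (nat_lit 8388609) (nat_lit 21223178258) (.one (nat_lit 2323644642) .nil)),
   .two (nat_lit 4194306) (nat_lit 3557818390) (.two (nat_lit 4194305) (nat_lit 3557818390) (.one (nat_lit 28757197028) .nil)),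
   .two (nat_lit 4194306) (nat_lit 158192369684) (.one (nat_lit 13237223659) .nil),
   .two (nat_lit 183848927234) (nat_lit 20644364308) (.one (nat_lit 813695209) .nil),
   .two (nat_lit 4194305) (nat_lit 1358954537) .nil,
   .two (nat_lit 9766436865) (nat_lit 28693233677) (.one (nat_lit 2923429990) .nil),
   .two (nat_lit 50331649) (nat_lit 746586158) .nil,
   .two (nat_lit 4194305) (nat_lit 9881780229) (.two (nat_lit 1048576) (nat_lit 174688567309) (.one (nat_lit 158146232421) .nil)),
   .two (nat_lit 156372041729) (nat_lit 9902751788) .nil,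
   .two (nat_lit 50331649) (nat_lit 28693233704) .nil,
   .two (nat_lit 620756993) (nat_lit 135266344) .nil,
   .two (nat_lit 156372041729) (nat_lit 1962934316) .nil,
   .two (nat_lit 2097153) (nat_lit 46409973765) (.two (nat_lit 16777216) (nat_lit 20707278951) .nil),
   .two (nat_lit 37748737) (nat_lit 10552868877) (.one (nat_lit 185035915308) .nil),
   .two (nat_lit 2097153) (nat_lit 176160781) (.one (nat_lit 9900654695) .nil),
   .two (nat_lit 8388609) (nat_lit 47596961805) (.one (nat_lit 2987393125) .nil),
   .two (nat_lit 8388609) (nat_lit 1358954509) (.one (nat_lit 3573547052) .nil),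
   .two (nat_lit 8388609) (nat_lit 46978301965) (.one (nat_lit 28086108260) .nil),
   .two (nat_lit 8388609) (nat_lit 1212153870) (.one (nat_lit 10939793452) .nil),
   .two (nat_lit 156365750273) (nat_lit 9948889102) (.one (nat_lit 21827158060) .nil),
   .two (nat_lit 41943041) (nat_lit 11010048013) (.one (nat_lit 9969860709) .nil),
   .two (nat_lit 16777217) (nat_lit 184989777925) (.two (nat_lit 2097152) (nat_lit 11626610732) .nil),
   .two (nat_lit 4194305) (nat_lit 11007950860) (.one (nat_lit 1411383337) .nil),
   .two (nat_lit 16777217) (nat_lit 10504634381) (.one (nat_lit 13222543461) .nil),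
   .two (nat_lit 156364701697) (nat_lit 10538188840) .nil,
   .two (nat_lit 156364701697) (nat_lit 159251431465) .nil,
   .two (nat_lit 41943041) (nat_lit 159266111501) (.one (nat_lit 4613734503) .nil),
   .two (nat_lit 2097153) (nat_lit 184993972229) (.two (nat_lit 1048576) (nat_lit 10370416653) (.one (nat_lit 9900654695) .nil)),
   .two (nat_lit 2097153) (nat_lit 10385096744) .nil,
   .two (nat_lit 9781116929) (nat_lit 1283457070) .nil,
   .two (nat_lit 8388609) (nat_lit 620757004) (.one (nat_lit 1291845674) .nil),
   .two (nat_lit 612368385) (nat_lit 28791799856) .nil,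
   .two (nat_lit 605028353) (nat_lit 9869197356) .nil,
   .two (nat_lit 156367847425) (nat_lit 1384120364) .nil,
   .two (nat_lit 4194305) (nat_lit 19100860460) .nil,
   .two (nat_lit 156364701697) (nat_lit 4601151493) (.two (nat_lit 8388608) (nat_lit 156535619628) .nil),
   .two (nat_lit 8388609) (nat_lit 3560964144) .nil,
   .two (nat_lit 156365750273) (nat_lit 19093520425) .nil,
   .two (nat_lit 4194305) (nat_lit 1847590953) .nil,
   .two (nat_lit 620756993) (nat_lit 2889875469) (.one (nat_lit 104857703) .nil),
   .two (nat_lit 612368385) (nat_lit 10504634373) (.two (nat_lit 2097152) (nat_lit 20644364296) (.one (nat_lit 304087142) .nil)),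
   .two (nat_lit 34603009) (nat_lit 174755676205) .nil,
   .two (nat_lit 4194305) (nat_lit 3464495109) (.two (nat_lit 2097152) (nat_lit 166237044841) .nil),
   .two (nat_lit 4194305) (nat_lit 3558866957) (.one (nat_lit 639631465) .nil),
   .two (nat_lit 34603009) (nat_lit 183853121549) (.one (nat_lit 1350565994) .nil),
   .two (nat_lit 156364701697) (nat_lit 1853882411) .nil,
   .two (nat_lit 41943041) (nat_lit 21811429389) (.one (nat_lit 2416967782) .nil),
   .two (nat_lit 8388609) (nat_lit 46508539954) .nil,
   .two (nat_lit 156364701697) (nat_lit 1920991276) .nil,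
   .two (nat_lit 37748737) (nat_lit 16777229) (.one (nat_lit 889192553) .nil),
   .two (nat_lit 50331649) (nat_lit 166203490348) .nil,
   .two (nat_lit 9766436865) (nat_lit 12114198533) (.two (nat_lit 1048576) (nat_lit 606076978) .nil),
   .two (nat_lit 156365750273) (nat_lit 1795162162) .nil,
   .two (nat_lit 9765388289) (nat_lit 184993972237) (.one (nat_lit 10913579051) .nil),
   .two (nat_lit 606076929) (nat_lit 21223178245) (.two (nat_lit 16777216) (nat_lit 13191086093) (.one (nat_lit 157038936168) .nil)),
   .two (nat_lit 4194305) (nat_lit 159224168453) (.two (nat_lit 8388608) (nat_lit 12620660779) .nil),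
   .two (nat_lit 620756993) (nat_lit 11618222120) .nil,
   .two (nat_lit 156372041729) (nat_lit 159251431437) (.one (nat_lit 11007950950) .nil),
   .two (nat_lit 612368385) (nat_lit 9814671403) .nil,
   .two (nat_lit 16777217) (nat_lit 1947205645) (.one (nat_lit 11510218802) .nil),
   .two (nat_lit 620756993) (nat_lit 2961178674) .nil,
   .two (nat_lit 37748737) (nat_lit 19026411562) .nil,
   .two (nat_lit 605028353) (nat_lit 47548727301) (.two (nat_lit 2097152) (nat_lit 46507491371) .nil),
   .two (nat_lit 8388609) (nat_lit 11577327629) (.one (nat_lit 47581233195) .nil),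
   .two (nat_lit 34603009) (nat_lit 183916036140) .nil,
   .two (nat_lit 37748737) (nat_lit 9866051598) (.one (nat_lit 9933160489) .nil),
   .two (nat_lit 41943041) (nat_lit 101711886) (.one (nat_lit 20704133162) .nil),
   .two (nat_lit 9781116929) (nat_lit 639631407) .nil,
   .two (nat_lit 4194305) (nat_lit 20705181710) (.one (nat_lit 1411383337) .nil),
   .two (nat_lit 156364701697) (nat_lit 19612565547) .nil,
   .two (nat_lit 9766436865) (nat_lit 9899606029) (.one (nat_lit 28086108265) .nil),
   .two (nat_lit 34603009) (nat_lit 243269676) .nil,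
   .two (nat_lit 37748737) (nat_lit 20705181739) .nil,
   .two (nat_lit 612368385) (nat_lit 185035915277) (.one (nat_lit 10385096808) .nil),
   .two (nat_lit 9781116929) (nat_lit 11577327629) (.one (nat_lit 19127074922) .nil),
   .two (nat_lit 8388609) (nat_lit 117440517) (.two (nat_lit 1048576) (nat_lit 1216348173) (.one (nat_lit 11584667748) .nil)),
   .two (nat_lit 34603009) (nat_lit 12062818309) (.two (nat_lit 16777216) (nat_lit 47548727309) (.one (nat_lit 1277165668) .nil)),
   .two (nat_lit 605028353) (nat_lit 109051947) .nil,
   .two (nat_lit 50331649) (nat_lit 9934209029) (.two (nat_lit 1048576) (nat_lit 10452205672) .nil),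
   .two (nat_lit 156365750273) (nat_lit 12047089707) .nil,
   .two (nat_lit 16777217) (nat_lit 843055117) (.one (nat_lit 1950351466) .nil),
   .two (nat_lit 9768534017) (nat_lit 9915334705) .nil,
   .two (nat_lit 2097153) (nat_lit 11580473393) .nil,
   .two (nat_lit 9768534017) (nat_lit 117440562) .nil,
   .two (nat_lit 34603013) (nat_lit 1283457029) (.two (nat_lit 2097153) (nat_lit 9933160461) (.two (nat_lit 2097152) (nat_lit 2956984360) (.one (nat_lit 35651823) .nil))),
   .two (nat_lit 8388613) (nat_lit 705691656) (.two (nat_lit 2097152) (nat_lit 2956984435) .nil),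
   .two (nat_lit 8388613) (nat_lit 705691663) (.one (nat_lit 807403761) .nil),
   .two (nat_lit 4194308) (nat_lit 1175453704) (.two (nat_lit 8388608) (nat_lit 68157455) (.one (nat_lit 2956984435) .nil)),
   .two (nat_lit 4194308) (nat_lit 8388613) (.two (nat_lit 8388609) (nat_lit 606076943) (.one (nat_lit 608174324) .nil)),
   .two (nat_lit 272629765) (nat_lit 639631365) (.two (nat_lit 605028353) (nat_lit 1344274445) (.two (nat_lit 1048576) (nat_lit 69206057) (.one (nat_lit 1048818) .nil))),
   .two (nat_lit 270532613) (nat_lit 809500677) (.two (nat_lit 34603009) (nat_lit 1344274445) (.two (nat_lit 1048576) (nat_lit 708837493) .nil)),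
   .two (nat_lit 705691652) (nat_lit 639631365) (.two (nat_lit 605028353) (nat_lit 2954887176) (.two (nat_lit 1048576) (nat_lit 169869336) (.one (nat_lit 1048819) .nil))),
   .two (nat_lit 41943045) (nat_lit 606076936) (.two (nat_lit 4194304) (nat_lit 11484004469) .nil),
   .two (nat_lit 41943045) (nat_lit 169869316) (.two (nat_lit 41943041) (nat_lit 169869336) (.one (nat_lit 11484004469) .nil)),
   .two (nat_lit 605028357) (nat_lit 11484004357) (.two (nat_lit 8388609) (nat_lit 11543773207) (.one (nat_lit 2097392) .nil)),
   .two (nat_lit 4194308) (nat_lit 2894069765) (.two (nat_lit 8388609) (nat_lit 272629783) (.one (nat_lit 34603250) .nil)),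
   .two (nat_lit 169869316) (nat_lit 101711885) (.two (nat_lit 1048576) (nat_lit 2954887183) (.one (nat_lit 270532846) .nil)),
   .two (nat_lit 9933160453) (nat_lit 9934209029) (.two (nat_lit 605028353) (nat_lit 9934209037) (.two (nat_lit 1048576) (nat_lit 9934209064) (.one (nat_lit 705691887) .nil))),
   .two (nat_lit 705691652) (nat_lit 1782579205) (.two (nat_lit 37748737) (nat_lit 11543773199) (.one (nat_lit 4194421) .nil)),
   .two (nat_lit 272629765) (nat_lit 11476664328) (.two (nat_lit 2097152) (nat_lit 11543773199) (.one (nat_lit 9866051821) .nil)),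
   .two (nat_lit 809500677) (nat_lit 11476664328) (.two (nat_lit 1048576) (nat_lit 2954887183) (.one (nat_lit 68157681) .nil)),
   .two (nat_lit 809500677) (nat_lit 101711877) (.two (nat_lit 605028353) (nat_lit 809500685) (.two (nat_lit 1048576) (nat_lit 809500696) (.one (nat_lit 68157680) .nil))),
   .two (nat_lit 8388613) (nat_lit 68157448) (.two (nat_lit 4194304) (nat_lit 11543773199) (.one (nat_lit 2956984435) .nil)),
   .two (nat_lit 809500677) (nat_lit 1175453704) (.two (nat_lit 4194304) (nat_lit 739246095) (.one (nat_lit 276824181) .nil)),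
   .two (nat_lit 705691652) (nat_lit 639631365) (.two (nat_lit 606076929) (nat_lit 739246147) .nil),
   .two (nat_lit 9934209029) (nat_lit 1779433487) (.one (nat_lit 1343225923) .nil),
   .two (nat_lit 809500677) (nat_lit 2887778308) (.two (nat_lit 37748737) (nat_lit 203423759) (.one (nat_lit 9934209134) .nil)),
   .two (nat_lit 11492392964) (nat_lit 157038936072) (.two (nat_lit 2097152) (nat_lit 10540286077) .nil),
   .two (nat_lit 2889875460) (nat_lit 754974725) (.two (nat_lit 50331649) (nat_lit 10506731528) (.two (nat_lit 2097152) (nat_lit 285212798) .nil)),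
   .two (nat_lit 2889875460) (nat_lit 12054429704) (.two (nat_lit 2097152) (nat_lit 37748861) .nil),
   .two (nat_lit 2969567237) (nat_lit 12117344261) (.two (nat_lit 37748737) (nat_lit 2969567240) (.two (nat_lit 8388608) (nat_lit 46409973881) .nil)),
   .two (nat_lit 18928893957) (nat_lit 1847590917) (.two (nat_lit 606076929) (nat_lit 306184206) (.two (nat_lit 2097152) (nat_lit 2420113432) (.one (nat_lit 2097457) .nil))),
   .two (nat_lit 75497477) (nat_lit 21223178245) (.two (nat_lit 9768534017) (nat_lit 157043130376) (.two (nat_lit 2097152) (nat_lit 9948889224) .nil)),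
   .two (nat_lit 4194308) (nat_lit 1358954501) (.two (nat_lit 620756993) (nat_lit 13191086095) (.one (nat_lit 46489665662) .nil)),
   .two (nat_lit 46414168068) (nat_lit 21208498181) (.two (nat_lit 606076929) (nat_lit 156372041743) (.one (nat_lit 2988441726) .nil)),
   .two (nat_lit 1358954501) (nat_lit 2927624205) (.two (nat_lit 1048576) (nat_lit 9881780266) (.one (nat_lit 16777522) .nil)),
   .two (nat_lit 605028357) (nat_lit 166130089992) (.two (nat_lit 8388608) (nat_lit 11610882177) .nil),
   .two (nat_lit 11559501829) (nat_lit 1780482056) (.two (nat_lit 1048576) (nat_lit 183920230515) .nil),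
   .two (nat_lit 176160772) (nat_lit 19596836872) (.two (nat_lit 1048576) (nat_lit 47555018767) (.one (nat_lit 1343225995) .nil)),
   .two (nat_lit 47550824453) (nat_lit 21208498181) (.two (nat_lit 605028353) (nat_lit 1377828876) (.two (nat_lit 1048576) (nat_lit 46474985598) .nil)),
   .two (nat_lit 612368389) (nat_lit 159217876997) (.two (nat_lit 37748737) (nat_lit 28691136520) (.two (nat_lit 4194304) (nat_lit 19033751600) (.one (nat_lit 158083317896) .nil))),
   .two (nat_lit 1358954501) (nat_lit 10940841989) (.two (nat_lit 606076929) (nat_lit 1191182351) (.one (nat_lit 185021235325) .nil)),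
   .two (nat_lit 156367847429) (nat_lit 19529728008) (.two (nat_lit 1048576) (nat_lit 2969567247) (.one (nat_lit 19127075110) .nil)),
   .two (nat_lit 9781116933) (nat_lit 166132187140) (.two (nat_lit 9768534017) (nat_lit 12129927176) (.two (nat_lit 2097152) (nat_lit 3003121787) .nil)),
   .two (nat_lit 2969567237) (nat_lit 46414168069) (.two (nat_lit 8388609) (nat_lit 218103816) (.two (nat_lit 8388608) (nat_lit 4613734426) (.one (nat_lit 185027526946) .nil))),
   .two (nat_lit 11479810052) (nat_lit 9866051589) (.two (nat_lit 34603009) (nat_lit 9768534031) (.one (nat_lit 71303292) .nil)),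
   .two (nat_lit 11476664324) (nat_lit 21214789640) (.two (nat_lit 4194304) (nat_lit 1048626) (.one (nat_lit 68157733) .nil)),
   .two (nat_lit 612368389) (nat_lit 47550824453) (.two (nat_lit 4194305) (nat_lit 75497480) (.two (nat_lit 1048576) (nat_lit 3028287535) (.one (nat_lit 75497751) .nil))),
   .two (nat_lit 1191182341) (nat_lit 28690087941) (.two (nat_lit 34603009) (nat_lit 9781116943) (.one (nat_lit 10351542405) .nil)),
   .two (nat_lit 20638072837) (nat_lit 19532873733) (.two (nat_lit 2097153) (nat_lit 19599982607) (.one (nat_lit 4194611) .nil)),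
   .two (nat_lit 272629765) (nat_lit 156465365006) (.two (nat_lit 2097152) (nat_lit 184986632207) (.one (nat_lit 1048884) .nil)),
   .two (nat_lit 809500677) (nat_lit 20637024260) (.two (nat_lit 37748737) (nat_lit 158075977743) (.one (nat_lit 10436477188) .nil)),
   .two (nat_lit 21785214981) (nat_lit 19532873733) (.two (nat_lit 4194305) (nat_lit 9906946114) .nil),
   .two (nat_lit 184549380) (nat_lit 18933088264) (.two (nat_lit 8388608) (nat_lit 2969567247) (.one (nat_lit 4638900349) .nil)),
   .two (nat_lit 639631365) (nat_lit 754974725) (.two (nat_lit 50331649) (nat_lit 156533522444) (.two (nat_lit 16777216) (nat_lit 166130089999) (.one (nat_lit 2097462) .nil))),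
   .two (nat_lit 1343225861) (nat_lit 1849688072) (.two (nat_lit 1048576) (nat_lit 158150426665) (.one (nat_lit 3464495240) .nil)),
   .two (nat_lit 1344274437) (nat_lit 10503585805) (.two (nat_lit 1048576) (nat_lit 4028629041) (.one (nat_lit 2097463) .nil)),
   .two (nat_lit 822083589) (nat_lit 1175453704) (.two (nat_lit 16777216) (nat_lit 873463834) (.one (nat_lit 12054429982) .nil)),
   .two (nat_lit 605028357) (nat_lit 10940841992) (.two (nat_lit 4194304) (nat_lit 672137259) (.one (nat_lit 2886729980) .nil)),
   .two (nat_lit 739246085) (nat_lit 28758245381) (.two (nat_lit 34603009) (nat_lit 10538188812) (.two (nat_lit 1048576) (nat_lit 639631375) (.one (nat_lit 4028629246) .nil))),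
   .two (nat_lit 2889875461) (nat_lit 11476664324) (.two (nat_lit 4194305) (nat_lit 101711887) (.one (nat_lit 156532474117) .nil)),
   .two (nat_lit 10503585797) (nat_lit 166130089992) (.two (nat_lit 1048576) (nat_lit 46474985519) (.one (nat_lit 2097464) .nil)),
   .two (nat_lit 4194308) (nat_lit 10538188812) (.two (nat_lit 4194304) (nat_lit 20738736193) .nil),
   .two (nat_lit 11543773189) (nat_lit 158077026312) (.two (nat_lit 1048576) (nat_lit 159217877007) (.one (nat_lit 174753579263) .nil)),
   .two (nat_lit 9948889093) (nat_lit 183845781512) (.two (nat_lit 2097152) (nat_lit 1410334845) .nil),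
   .two (nat_lit 8388613) (nat_lit 184986632197) (.two (nat_lit 8388609) (nat_lit 183912890381) (.two (nat_lit 1048576) (nat_lit 1954545707) (.one (nat_lit 41943321) .nil))),
   .two (nat_lit 9934209029) (nat_lit 156364701701) (.two (nat_lit 16777217) (nat_lit 3525312538) (.one (nat_lit 11510218881) .nil)),
   .two (nat_lit 2889875461) (nat_lit 10343153679) (.one (nat_lit 2994733123) .nil),
   .two (nat_lit 713031685) (nat_lit 19596836872) (.two (nat_lit 4194304) (nat_lit 3531604105) .nil),
   .two (nat_lit 2097157) (nat_lit 285212677) (.two (nat_lit 2097153) (nat_lit 4647288845) (.two (nat_lit 1048576) (nat_lit 174686470190) (.one (nat_lit 3021996341) .nil))),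
   .two (nat_lit 171966469) (nat_lit 1795162126) (.two (nat_lit 1048576) (nat_lit 20638072855) (.one (nat_lit 4194617) .nil)),
   .two (nat_lit 9934209029) (nat_lit 46414168068) (.two (nat_lit 8388609) (nat_lit 1277165583) (.one (nat_lit 19100860537) .nil)),
   .two (nat_lit 809500677) (nat_lit 174753579020) (.two (nat_lit 4194304) (nat_lit 174753579023) (.one (nat_lit 12618563707) .nil)),
   .two (nat_lit 1344274437) (nat_lit 754974725) (.two (nat_lit 50331649) (nat_lit 20638072858) (.one (nat_lit 11580473459) .nil)),
   .two (nat_lit 2902458373) (nat_lit 28758245384) (.two (nat_lit 16777216) (nat_lit 1914699801) (.one (nat_lit 9948889214) .nil)),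
   .two (nat_lit 9933160453) (nat_lit 9934209029) (.two (nat_lit 605028353) (nat_lit 10538188814) (.two (nat_lit 1048576) (nat_lit 773849137) (.one (nat_lit 166129041678) .nil))),
   .two (nat_lit 41943045) (nat_lit 159216828421) (.two (nat_lit 4194305) (nat_lit 713031695) (.one (nat_lit 104857717) .nil)),
   .two (nat_lit 713031684) (nat_lit 1779433477) (.two (nat_lit 34603009) (nat_lit 159224168463) (.one (nat_lit 8388922) .nil)),
   .two (nat_lit 176160772) (nat_lit 12047089669) (.two (nat_lit 34603009) (nat_lit 159224168463) (.one (nat_lit 2886729849) .nil)),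
   .two (nat_lit 11559501829) (nat_lit 12054429701) (.two (nat_lit 41943041) (nat_lit 754974735) (.one (nat_lit 183920230535) .nil)),
   .two (nat_lit 2889875460) (nat_lit 158144135173) (.two (nat_lit 606076929) (nat_lit 9768534024) (.two (nat_lit 2097152) (nat_lit 1916796943) (.one (nat_lit 9969860911) .nil))),
   .two (nat_lit 2889875460) (nat_lit 174752530437) (.two (nat_lit 9765388289) (nat_lit 9768534031) (.one (nat_lit 4027580541) .nil)),
   .two (nat_lit 46407876612) (nat_lit 1846542341) (.two (nat_lit 605028353) (nat_lit 157036838927) (.one (nat_lit 184416206963) .nil)),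
   .two (nat_lit 156372041733) (nat_lit 21207449605) (.two (nat_lit 605028353) (nat_lit 156372041736) (.two (nat_lit 16777216) (nat_lit 11577327742) .nil)),
   .two (nat_lit 9948889093) (nat_lit 12047089679) (.one (nat_lit 28086108227) .nil),
   .two (nat_lit 169869316) (nat_lit 1916796933) (.two (nat_lit 2097153) (nat_lit 11479810063) (.one (nat_lit 11611930744) .nil)),
   .two (nat_lit 50331653) (nat_lit 174752530437) (.two (nat_lit 50331649) (nat_lit 37313576973) (.two (nat_lit 1048576) (nat_lit 2969567255) (.one (nat_lit 10921967754) .nil))),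
   .two (nat_lit 620756997) (nat_lit 2956984325) (.two (nat_lit 50331649) (nat_lit 3460300808) (.two (nat_lit 1048576) (nat_lit 11559501866) (.one (nat_lit 12129927459) .nil))),
   .two (nat_lit 176160772) (nat_lit 270532613) (.two (nat_lit 2097153) (nat_lit 2927624218) (.one (nat_lit 4598006016) .nil)),
   .two (nat_lit 708837381) (nat_lit 21785214981) (.two (nat_lit 606076929) (nat_lit 4634705934) (.two (nat_lit 2097152) (nat_lit 12117344271) (.one (nat_lit 4194619) .nil))),
   .two (nat_lit 16777221) (nat_lit 34603013) (.two (nat_lit 4194305) (nat_lit 184416206871) (.one (nat_lit 1191182641) .nil)),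
   .two (nat_lit 47555018757) (nat_lit 46474985486) (.two (nat_lit 2097152) (nat_lit 243269674) (.one (nat_lit 10544480553) .nil)),
   .two (nat_lit 9768534021) (nat_lit 156365750280) (.two (nat_lit 16777216) (nat_lit 2420113529) .nil),
   .two (nat_lit 2887778308) (nat_lit 11492392964) (.two (nat_lit 50331649) (nat_lit 10504634383) (.one (nat_lit 2988441718) .nil)),
   .two (nat_lit 1916796933) (nat_lit 158143086597) (.two (nat_lit 605028353) (nat_lit 166132187151) (.one (nat_lit 71303453) .nil)),
   .two (nat_lit 809500677) (nat_lit 2887778308) (.two (nat_lit 37748737) (nat_lit 203423752) (.two (nat_lit 16777216) (nat_lit 708837493) .nil)),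
   .two (nat_lit 8388613) (nat_lit 174753579013) (.two (nat_lit 9765388289) (nat_lit 2418016270) (.two (nat_lit 1048576) (nat_lit 10940842026) (.one (nat_lit 236978473) .nil))),
   .two (nat_lit 11543773189) (nat_lit 19530776584) (.two (nat_lit 1048576) (nat_lit 3458203663) (.one (nat_lit 1277165707) .nil)),
   .two (nat_lit 1343225861) (nat_lit 9802088460) (.two (nat_lit 1048576) (nat_lit 2923429953) .nil),
   .two (nat_lit 34603013) (nat_lit 822083589) (.two (nat_lit 34603009) (nat_lit 19597885453) (.two (nat_lit 16777216) (nat_lit 1048623) (.one (nat_lit 184986632501) .nil))),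
   .two (nat_lit 183848927236) (nat_lit 20637024260) (.two (nat_lit 605028353) (nat_lit 19599982607) (.one (nat_lit 10540286075) .nil)),
   .two (nat_lit 270532613) (nat_lit 18928893960) (.two (nat_lit 1048576) (nat_lit 20640170034) (.one (nat_lit 11614028054) .nil)),
   .two (nat_lit 16777220) (nat_lit 1847590917) (.two (nat_lit 16777217) (nat_lit 19530776584) (.two (nat_lit 2097152) (nat_lit 16777231) (.one (nat_lit 183947493501) .nil))),
   .two (nat_lit 176160772) (nat_lit 1277165572) (.two (nat_lit 606076929) (nat_lit 21785214991) (.one (nat_lit 156372041846) .nil)),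
   .two (nat_lit 13195280389) (nat_lit 47548727301) (.two (nat_lit 2097153) (nat_lit 183853121551) (.one (nat_lit 679477494) .nil)),
   .two (nat_lit 184989777925) (nat_lit 18933088271) (.one (nat_lit 169869438) .nil),
   .two (nat_lit 176160773) (nat_lit 47550824453) (.two (nat_lit 4194305) (nat_lit 176160781) (.two (nat_lit 4194304) (nat_lit 1779433496) (.one (nat_lit 8388925) .nil))),
   .two (nat_lit 2956984325) (nat_lit 9948889093) (.two (nat_lit 605028353) (nat_lit 174755676173) (.two (nat_lit 1048576) (nat_lit 28806479914) (.one (nat_lit 19142803747) .nil))),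
   .two (nat_lit 806354949) (nat_lit 10338959368) (.two (nat_lit 2097152) (nat_lit 158079123506) (.one (nat_lit 205521195) .nil)),
   .two (nat_lit 203423749) (nat_lit 19596836869) (.two (nat_lit 606076929) (nat_lit 12114198543) (.one (nat_lit 12114198637) .nil)),
   .two (nat_lit 822083589) (nat_lit 10939793413) (.two (nat_lit 50331649) (nat_lit 2416967692) (.two (nat_lit 1048576) (nat_lit 285212687) (.one (nat_lit 721420418) .nil))),
   .two (nat_lit 184549380) (nat_lit 9866051589) (.two (nat_lit 16777217) (nat_lit 20704133132) (.two (nat_lit 16777216) (nat_lit 21207449615) (.one (nat_lit 2920284293) .nil))),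
   .two (nat_lit 41943045) (nat_lit 285212677) (.two (nat_lit 16777217) (nat_lit 183853121551) (.one (nat_lit 19142803571) .nil)),
   .two (nat_lit 183853121540) (nat_lit 166129041412) (.two (nat_lit 9765388289) (nat_lit 18933088271) (.one (nat_lit 19134414972) .nil)),
   .two (nat_lit 8388613) (nat_lit 1277165572) (.two (nat_lit 8388609) (nat_lit 10370416655) (.one (nat_lit 12148801656) .nil)),
   .two (nat_lit 34603013) (nat_lit 184549381) (.two (nat_lit 2097153) (nat_lit 20637024264) (.two (nat_lit 4194304) (nat_lit 721420424) .nil)),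
   .two (nat_lit 2956984325) (nat_lit 9948889093) (.two (nat_lit 605028353) (nat_lit 174755676173) (.two (nat_lit 1048576) (nat_lit 171966490) (.one (nat_lit 37748994) .nil))),
   .two (nat_lit 809500677) (nat_lit 28757196808) (.two (nat_lit 1048576) (nat_lit 4030726169) (.one (nat_lit 19096666414) .nil)),
   .two (nat_lit 2887778308) (nat_lit 12117344261) (.two (nat_lit 37748737) (nat_lit 639631375) (.one (nat_lit 28691136771) .nil)),
   .two (nat_lit 822083589) (nat_lit 19029557261) (.two (nat_lit 4194304) (nat_lit 183962173482) (.one (nat_lit 16777535) .nil)),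
   .two (nat_lit 9781116933) (nat_lit 28757196805) (.two (nat_lit 50331649) (nat_lit 1846542344) (.two (nat_lit 2097152) (nat_lit 19529728015) (.one (nat_lit 251658489) .nil))),
   .two (nat_lit 176160773) (nat_lit 183916036109) (.two (nat_lit 4194304) (nat_lit 28697428017) (.one (nat_lit 10376708407) .nil)),
   .two (nat_lit 13191086085) (nat_lit 46992982021) (.two (nat_lit 16777217) (nat_lit 183848927247) (.one (nat_lit 21793603701) .nil)),
   .two (nat_lit 12114198533) (nat_lit 10336862213) (.two (nat_lit 606076929) (nat_lit 11510218775) (.one (nat_lit 20737687847) .nil)),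
   .two (nat_lit 2097157) (nat_lit 721420293) (.two (nat_lit 16777217) (nat_lit 202375218) (.one (nat_lit 21777875236) .nil)),
   .two (nat_lit 184549381) (nat_lit 46978301957) (.two (nat_lit 2097153) (nat_lit 16777224) (.two (nat_lit 2097152) (nat_lit 4613734423) (.one (nat_lit 788529428) .nil))),
   .two (nat_lit 176160773) (nat_lit 1178599429) (.two (nat_lit 4194305) (nat_lit 1948254220) (.two (nat_lit 2097152) (nat_lit 641728527) (.one (nat_lit 2923430182) .nil))),
   .two (nat_lit 270532613) (nat_lit 272629765) (.two (nat_lit 2097153) (nat_lit 672137230) (.two (nat_lit 2097152) (nat_lit 20640170029) (.one (nat_lit 12618563884) .nil))),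
   .two (nat_lit 75497477) (nat_lit 21208498181) (.two (nat_lit 8388609) (nat_lit 158144135183) (.one (nat_lit 183947493509) .nil)),
   .two (nat_lit 11492392964) (nat_lit 1745879045) (.two (nat_lit 605028353) (nat_lit 822083599) (.one (nat_lit 4647288942) .nil)),
   .two (nat_lit 183848927236) (nat_lit 21207449605) (.two (nat_lit 605028353) (nat_lit 18928893967) (.one (nat_lit 1413480572) .nil)),
   .two (nat_lit 2954887173) (nat_lit 2889875461) (.two (nat_lit 2097153) (nat_lit 272629768) (.two (nat_lit 2097152) (nat_lit 239075354) (.one (nat_lit 169869578) .nil))),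
   .two (nat_lit 46980399109) (nat_lit 18925748232) (.two (nat_lit 16777216) (nat_lit 1343225882) (.one (nat_lit 165525061920) .nil)),
   .two (nat_lit 638582789) (nat_lit 10370416648) (.two (nat_lit 1048576) (nat_lit 12148801583) (.one (nat_lit 840958264) .nil)),
   .two (nat_lit 8388612) (nat_lit 183912890382) (.two (nat_lit 1048576) (nat_lit 165532401710) (.one (nat_lit 75497732) .nil)),
   .two (nat_lit 83886085) (nat_lit 4599054341) (.two (nat_lit 2097153) (nat_lit 138412044) (.two (nat_lit 4194304) (nat_lit 18926796840) (.one (nat_lit 156365750589) .nil))),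
   .two (nat_lit 11484004357) (nat_lit 1745879055) (.one (nat_lit 9867100286) .nil),
   .two (nat_lit 9933160453) (nat_lit 9934209029) (.two (nat_lit 605028353) (nat_lit 9934209037) (.two (nat_lit 2097152) (nat_lit 839909424) (.one (nat_lit 1048899) .nil))),
   .two (nat_lit 270532613) (nat_lit 1753219086) (.two (nat_lit 1048576) (nat_lit 713031703) (.one (nat_lit 2097477) .nil)),
   .two (nat_lit 822083589) (nat_lit 1913651205) (.two (nat_lit 9765388289) (nat_lit 13203669000) (.two (nat_lit 2097152) (nat_lit 9798942761) (.one (nat_lit 19127075141) .nil))),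
   .two (nat_lit 4194308) (nat_lit 184431935493) (.two (nat_lit 50331649) (nat_lit 272629775) (.one (nat_lit 156466413694) .nil)),
   .two (nat_lit 612368389) (nat_lit 1277165573) (.two (nat_lit 2097153) (nat_lit 75497487) (.one (nat_lit 46414168182) .nil)),
   .two (nat_lit 705691652) (nat_lit 1746927621) (.two (nat_lit 50331649) (nat_lit 705691663) (.one (nat_lit 2097480) .nil)),
   .two (nat_lit 9781116933) (nat_lit 1277165573) (.two (nat_lit 2097153) (nat_lit 1191182351) (.one (nat_lit 174753579137) .nil)),
   .two (nat_lit 1176502277) (nat_lit 1916796933) (.two (nat_lit 2097153) (nat_lit 1950351372) (.two (nat_lit 4194304) (nat_lit 21778923568) (.one (nat_lit 46474985741) .nil))),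
   .two (nat_lit 16777220) (nat_lit 47555018757) (.two (nat_lit 8388609) (nat_lit 4613734408) (.two (nat_lit 1048576) (nat_lit 156976021641) .nil)),
   .two (nat_lit 16777221) (nat_lit 47548727301) (.two (nat_lit 2097153) (nat_lit 50331656) (.two (nat_lit 2097152) (nat_lit 13203669016) (.one (nat_lit 13222543680) .nil))),
   .two (nat_lit 176160772) (nat_lit 28758245381) (.two (nat_lit 50331649) (nat_lit 11551113224) (.two (nat_lit 16777216) (nat_lit 20705181817) .nil)),
   .two (nat_lit 1795162117) (nat_lit 10506731533) (.two (nat_lit 16777216) (nat_lit 166132187151) (.one (nat_lit 306184310) .nil)),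
   .two (nat_lit 285212677) (nat_lit 28758245381) (.two (nat_lit 9766436865) (nat_lit 4613734408) (.two (nat_lit 1048576) (nat_lit 2097200) (.one (nat_lit 2097482) .nil))),
   .two (nat_lit 69206021) (nat_lit 28690087944) (.two (nat_lit 16777216) (nat_lit 3021996161) .nil),
   .two (nat_lit 10385096709) (nat_lit 4601151493) (.two (nat_lit 8388609) (nat_lit 9869197360) (.one (nat_lit 28760342851) .nil)),
   .two (nat_lit 9768534021) (nat_lit 12047089669) (.two (nat_lit 34603009) (nat_lit 9768534024) (.two (nat_lit 8388608) (nat_lit 9933160585) .nil)),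
   .two (nat_lit 721420292) (nat_lit 47584378894) (.two (nat_lit 8388608) (nat_lit 2319450153) (.one (nat_lit 11559502091) .nil)),
   .two (nat_lit 721420292) (nat_lit 20644364292) (.two (nat_lit 8388609) (nat_lit 1358954504) (.two (nat_lit 1048576) (nat_lit 174759870479) (.one (nat_lit 157043130497) .nil))),
   .two (nat_lit 1358954501) (nat_lit 158144135173) (.two (nat_lit 620756993) (nat_lit 21208498191) (.one (nat_lit 11593056393) .nil)),
   .two (nat_lit 176160772) (nat_lit 46978301957) (.two (nat_lit 2097153) (nat_lit 612368399) (.one (nat_lit 102760585) .nil)),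
   .two (nat_lit 639631365) (nat_lit 156968681477) (.two (nat_lit 34603009) (nat_lit 639631373) (.two (nat_lit 8388608) (nat_lit 168820781) (.one (nat_lit 1048909) .nil))),
   .two (nat_lit 10504634373) (nat_lit 156968681477) (.two (nat_lit 34603009) (nat_lit 10538188812) (.two (nat_lit 1048576) (nat_lit 639631375) (.one (nat_lit 12617515137) .nil))),
   .two (nat_lit 9873391621) (nat_lit 1795162117) (.two (nat_lit 4194305) (nat_lit 174759870472) (.two (nat_lit 16777216) (nat_lit 21814575149) (.one (nat_lit 4194638) .nil))),
   .two (nat_lit 46407876612) (nat_lit 174752530440) (.two (nat_lit 8388608) (nat_lit 19127074939) .nil),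
   .two (nat_lit 9934209029) (nat_lit 19537068045) (.two (nat_lit 16777216) (nat_lit 20738736170) (.one (nat_lit 169869631) .nil)),
   .two (nat_lit 2954887173) (nat_lit 21207449605) (.two (nat_lit 2097153) (nat_lit 1376780300) (.two (nat_lit 2097152) (nat_lit 21777874959) (.one (nat_lit 807403641) .nil))),
   .two (nat_lit 41943045) (nat_lit 46992982021) (.two (nat_lit 16777217) (nat_lit 183853121551) (.one (nat_lit 1929379957) .nil)),
   .two (nat_lit 159224168453) (nat_lit 28758245381) (.two (nat_lit 9766436865) (nat_lit 21785214989) (.two (nat_lit 2097152) (nat_lit 158183981081) (.one (nat_lit 20638073088) .nil))),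
   .two (nat_lit 4194308) (nat_lit 2894069765) (.two (nat_lit 8388609) (nat_lit 4601151511) (.one (nat_lit 184416207148) .nil)),
   .two (nat_lit 639631365) (nat_lit 47555018757) (.two (nat_lit 606076929) (nat_lit 8388623) (.one (nat_lit 9766437001) .nil)),
   .two (nat_lit 171966469) (nat_lit 2969567237) (.two (nat_lit 4194305) (nat_lit 11006902285) (.two (nat_lit 4194304) (nat_lit 2332033072) (.one (nat_lit 156581757197) .nil))),
   .two (nat_lit 1358954501) (nat_lit 3525312517) (.two (nat_lit 2097153) (nat_lit 1358954511) (.one (nat_lit 183846830201) .nil)),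
   .two (nat_lit 1178599429) (nat_lit 1291845636) (.two (nat_lit 50331649) (nat_lit 28693233672) (.two (nat_lit 2097152) (nat_lit 10942939151) (.one (nat_lit 16777556) .nil))),
   .two (nat_lit 21778923525) (nat_lit 19596836872) (.two (nat_lit 4194304) (nat_lit 183845781519) (.one (nat_lit 166230753623) .nil)),
   .two (nat_lit 612368389) (nat_lit 157035790341) (.two (nat_lit 16777217) (nat_lit 2927624218) (.one (nat_lit 12147753299) .nil)),
   .two (nat_lit 171966469) (nat_lit 47555018757) (.two (nat_lit 4194305) (nat_lit 2994733069) (.two (nat_lit 2097152) (nat_lit 158143086615) (.one (nat_lit 184419352910) .nil))),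
   .two (nat_lit 9768534021) (nat_lit 21207449605) (.two (nat_lit 37748737) (nat_lit 1410334746) (.one (nat_lit 101712209) .nil)),
   .two (nat_lit 83886085) (nat_lit 47548727301) (.two (nat_lit 2097153) (nat_lit 138412044) (.two (nat_lit 4194304) (nat_lit 1746927657) (.one (nat_lit 236978489) .nil))),
   .two (nat_lit 272629765) (nat_lit 166129041423) (.one (nat_lit 20644364424) .nil),
   .two (nat_lit 34603013) (nat_lit 37316722702) (.two (nat_lit 1048576) (nat_lit 3464495153) (.one (nat_lit 184416207118) .nil)),
   .two (nat_lit 176160772) (nat_lit 13187940357) (.two (nat_lit 2097153) (nat_lit 159224168463) (.one (nat_lit 1209008254) .nil)),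
   .two (nat_lit 1358954501) (nat_lit 166129041411) (.two (nat_lit 9765388289) (nat_lit 9881780232) (.two (nat_lit 1048576) (nat_lit 10385096719) (.one (nat_lit 46422556800) .nil))),
   .two (nat_lit 721420290) (nat_lit 9766436867) (.two (nat_lit 620756993) (nat_lit 10538188812) (.two (nat_lit 16777216) (nat_lit 3525312533) (.one (nat_lit 10538188937) .nil))),
   .two (nat_lit 159217876997) (nat_lit 75497475) (.two (nat_lit 612368385) (nat_lit 20638072840) (.two (nat_lit 8388608) (nat_lit 20638072847) (.one (nat_lit 236978213) .nil))),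
   .two (nat_lit 1916796933) (nat_lit 183845781507) (.two (nat_lit 34603009) (nat_lit 9802088460) (.two (nat_lit 1048576) (nat_lit 159253528605) (.one (nat_lit 876609612) .nil))),
   .two (nat_lit 9768534021) (nat_lit 156372041731) (.two (nat_lit 37748737) (nat_lit 10007609356) (.two (nat_lit 4194304) (nat_lit 746586157) (.one (nat_lit 1413480608) .nil))),
   .two (nat_lit 11492392964) (nat_lit 19529728003) (.two (nat_lit 156364701697) (nat_lit 1191182344) (.two (nat_lit 1048576) (nat_lit 117440536) (.one (nat_lit 16777389) .nil))),
   .two (nat_lit 159217876997) (nat_lit 165525061635) (.two (nat_lit 156364701697) (nat_lit 20638072840) (.two (nat_lit 1048576) (nat_lit 20638072847) (.one (nat_lit 183913939019) .nil))),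
   .two (nat_lit 21785214981) (nat_lit 2887778307) (.two (nat_lit 2097153) (nat_lit 158083317768) (.two (nat_lit 2097152) (nat_lit 158083317775) (.one (nat_lit 12054429733) .nil))),
   .two (nat_lit 11492392962) (nat_lit 41943043) (.two (nat_lit 50331649) (nat_lit 880803852) (.two (nat_lit 16777216) (nat_lit 8388630) (.one (nat_lit 4605345913) .nil))),
   .two (nat_lit 169869316) (nat_lit 19537068035) (.two (nat_lit 9781116929) (nat_lit 47548727304) (.two (nat_lit 8388608) (nat_lit 47548727311) (.one (nat_lit 47548727332) .nil))),
   .two (nat_lit 2097157) (nat_lit 620756995) (.two (nat_lit 620756993) (nat_lit 3458203661) (.two (nat_lit 16777216) (nat_lit 159217877020) (.one (nat_lit 1746927698) .nil))),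
   .two (nat_lit 1276116996) (nat_lit 156372041731) (.two (nat_lit 605028353) (nat_lit 3464495112) (.two (nat_lit 1048576) (nat_lit 166203490347) (.one (nat_lit 20745027856) .nil))),
   .two (nat_lit 2097157) (nat_lit 2889875459) (.two (nat_lit 4194305) (nat_lit 1310720014) (.two (nat_lit 4194304) (nat_lit 28690087987) (.one (nat_lit 10907287642) .nil))),
   .two (nat_lit 2902458373) (nat_lit 9766436867) (.two (nat_lit 16777217) (nat_lit 10538188812) (.two (nat_lit 16777216) (nat_lit 3525312533) (.one (nat_lit 10504634717) .nil))),
   .two (nat_lit 183853121540) (nat_lit 166129041411) (.two (nat_lit 9765388289) (nat_lit 18933088264) (.two (nat_lit 1048576) (nat_lit 37253808153) (.one (nat_lit 11517558940) .nil))),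
   .two (nat_lit 2889875460) (nat_lit 10385096707) (.two (nat_lit 9781116929) (nat_lit 10506731528) (.two (nat_lit 16777216) (nat_lit 10372513817) (.one (nat_lit 10909384847) .nil))),
   .two (nat_lit 46409973764) (nat_lit 606076931) (.two (nat_lit 606076929) (nat_lit 46409973768) (.two (nat_lit 2097152) (nat_lit 46980399128) (.one (nat_lit 4194480) .nil))),
   .two (nat_lit 713031684) (nat_lit 165525061635) (.two (nat_lit 156364701697) (nat_lit 21785214984) (.two (nat_lit 1048576) (nat_lit 18933088306) (.one (nat_lit 209715285) .nil))),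
   .two (nat_lit 46409973765) (nat_lit 19529728003) (.two (nat_lit 37748737) (nat_lit 174752530440) (.two (nat_lit 4194304) (nat_lit 165525061665) (.one (nat_lit 174755676236) .nil))),
   .two (nat_lit 2954887173) (nat_lit 165532401667) (.two (nat_lit 156372041729) (nat_lit 203423752) (.two (nat_lit 2097152) (nat_lit 4605345813) (.one (nat_lit 166203490651) .nil))),
   .two (nat_lit 184993972229) (nat_lit 1175453699) (.two (nat_lit 9765388289) (nat_lit 13195280397) (.two (nat_lit 1048576) (nat_lit 13195280408) (.one (nat_lit 8388691) .nil))),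
   .two (nat_lit 2097155) (nat_lit 183848927235) (.two (nat_lit 34603009) (nat_lit 21778923527) (.two (nat_lit 4194304) (nat_lit 2097207) (.one (nat_lit 4632608936) .nil))),
   .two (nat_lit 46409973764) (nat_lit 156372041731) (.two (nat_lit 156372041729) (nat_lit 156367847432) (.two (nat_lit 8388608) (nat_lit 10909384729) (.one (nat_lit 166132187284) .nil))),
   .two (nat_lit 705691650) (nat_lit 183853121540) (.two (nat_lit 34603009) (nat_lit 12054429704) (.two (nat_lit 1048576) (nat_lit 12054429711) (.one (nat_lit 158083317797) .nil))),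
   .two (nat_lit 8388612) (nat_lit 184419352581) (.two (nat_lit 37748737) (nat_lit 8388616) (.two (nat_lit 4194304) (nat_lit 4638900241) (.one (nat_lit 10372513929) .nil))),
   .two (nat_lit 1916796933) (nat_lit 165525061635) (.two (nat_lit 156364701697) (nat_lit 9802088460) (.two (nat_lit 1048576) (nat_lit 19599982632) (.one (nat_lit 19029557341) .nil))),
   .two (nat_lit 41943045) (nat_lit 83886083) (.two (nat_lit 620756993) (nat_lit 713031688) (.two (nat_lit 16777216) (nat_lit 713031695) (.one (nat_lit 159257723021) .nil))),
   .two (nat_lit 183853121538) (nat_lit 4194308) (.two (nat_lit 41943041) (nat_lit 4601151496) (.two (nat_lit 8388608) (nat_lit 4601151503) (.one (nat_lit 1212153893) .nil))),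
   .two (nat_lit 1358954501) (nat_lit 34603011) (.two (nat_lit 2097153) (nat_lit 9881780232) (.two (nat_lit 1048576) (nat_lit 9881780239) (.one (nat_lit 754974757) .nil))),
   .two (nat_lit 184986632197) (nat_lit 156372041731) (.two (nat_lit 156372041729) (nat_lit 183912890381) (.two (nat_lit 8388608) (nat_lit 2416967708) (.one (nat_lit 158075977818) .nil))),
   .two (nat_lit 46414168066) (nat_lit 705691651) (.two (nat_lit 156372041729) (nat_lit 11577327628) (.two (nat_lit 8388608) (nat_lit 336592918) (.one (nat_lit 1048759) .nil))),
   .two (nat_lit 620756997) (nat_lit 183845781507) (.two (nat_lit 34603009) (nat_lit 9948889100) (.two (nat_lit 1048576) (nat_lit 37262196765) (.one (nat_lit 46489665612) .nil))),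
   .two (nat_lit 2954887173) (nat_lit 18933088259) (.two (nat_lit 2097153) (nat_lit 1753219080) (.two (nat_lit 8388608) (nat_lit 11544821789) (.one (nat_lit 136314956) .nil))),
   .two (nat_lit 1358954501) (nat_lit 37748739) (.two (nat_lit 9781116929) (nat_lit 183848927240) (.two (nat_lit 16777216) (nat_lit 12620660769) (.one (nat_lit 183861510224) .nil))),
   .two (nat_lit 176160772) (nat_lit 28086108165) (.two (nat_lit 8388609) (nat_lit 3457155081) (.two (nat_lit 8388608) (nat_lit 9899606037) (.one (nat_lit 8388793) .nil))),
   .two (nat_lit 9866051589) (nat_lit 166132187139) (.two (nat_lit 34603009) (nat_lit 10506731528) (.two (nat_lit 1048576) (nat_lit 9802088498) (.one (nat_lit 11546918997) .nil))),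
   .two (nat_lit 184549380) (nat_lit 75497475) (.two (nat_lit 612368385) (nat_lit 620757000) (.two (nat_lit 8388608) (nat_lit 620757007) (.one (nat_lit 889192485) .nil))),
   .two (nat_lit 8388613) (nat_lit 37748739) (.two (nat_lit 8388609) (nat_lit 9768534030) (.two (nat_lit 8388608) (nat_lit 28793897013) (.one (nat_lit 2424307871) .nil))),
   .two (nat_lit 4194308) (nat_lit 16777219) (.two (nat_lit 16777217) (nat_lit 809500680) (.two (nat_lit 16777216) (nat_lit 809500687) (.one (nat_lit 9768534053) .nil))),
   .two (nat_lit 166132187138) (nat_lit 8388612) (.two (nat_lit 9768534017) (nat_lit 4605345800) (.two (nat_lit 4194304) (nat_lit 4605345807) (.one (nat_lit 1216348197) .nil))),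
   .two (nat_lit 9934209029) (nat_lit 46414168068) (.two (nat_lit 606076929) (nat_lit 156372041736) (.two (nat_lit 2097152) (nat_lit 47555018763) (.one (nat_lit 2350907513) .nil))),
   .two (nat_lit 46407876612) (nat_lit 19532873731) (.two (nat_lit 156367847425) (nat_lit 157036838920) (.two (nat_lit 4194304) (nat_lit 156567076914) (.one (nat_lit 184987680853) .nil))),
   .two (nat_lit 46409973765) (nat_lit 166129041412) (.two (nat_lit 4194305) (nat_lit 10939793416) (.two (nat_lit 4194304) (nat_lit 10503585803) (.one (nat_lit 1916797054) .nil))),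
   .two (nat_lit 2889875458) (nat_lit 8388611) (.two (nat_lit 4194305) (nat_lit 4605345804) (.two (nat_lit 4194304) (nat_lit 41943061) (.one (nat_lit 4605345929) .nil))),
   .two (nat_lit 4194308) (nat_lit 50331651) (.two (nat_lit 50331649) (nat_lit 809500680) (.two (nat_lit 16777216) (nat_lit 809500687) (.one (nat_lit 9768534053) .nil))),
   .two (nat_lit 169869316) (nat_lit 1191182339) (.two (nat_lit 9781116929) (nat_lit 9934209032) (.two (nat_lit 16777216) (nat_lit 9934209039) (.one (nat_lit 10538188837) .nil))),
   .two (nat_lit 12114198533) (nat_lit 2889875459) (.two (nat_lit 4194305) (nat_lit 184416206856) (.two (nat_lit 4194304) (nat_lit 184416206863) (.one (nat_lit 156465365029) .nil))),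
   .two (nat_lit 13191086085) (nat_lit 41943043) (.two (nat_lit 41943041) (nat_lit 183848927240) (.two (nat_lit 8388608) (nat_lit 183848927247) (.one (nat_lit 183848927268) .nil))),
   .two (nat_lit 28758245381) (nat_lit 20644364291) (.two (nat_lit 156365750273) (nat_lit 21785214984) (.two (nat_lit 2097152) (nat_lit 18933088306) (.one (nat_lit 209715285) .nil))),
   .two (nat_lit 156367847429) (nat_lit 8388611) (.two (nat_lit 8388609) (nat_lit 18928893960) (.two (nat_lit 8388608) (nat_lit 18928893967) (.one (nat_lit 4601151525) .nil))),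
   .two (nat_lit 2954887173) (nat_lit 156367847429) (.two (nat_lit 37748737) (nat_lit 203423752) (.two (nat_lit 4194304) (nat_lit 46508539921) (.one (nat_lit 166132187262) .nil))),
   .two (nat_lit 705691650) (nat_lit 1291845636) (.two (nat_lit 34603009) (nat_lit 9881780232) (.two (nat_lit 1048576) (nat_lit 9881780239) (.one (nat_lit 9881780260) .nil))),
   .two (nat_lit 16777220) (nat_lit 75497475) (.two (nat_lit 612368385) (nat_lit 50331656) (.two (nat_lit 8388608) (nat_lit 12163481625) (.one (nat_lit 11626610846) .nil))),
   .two (nat_lit 4194308) (nat_lit 166130089987) (.two (nat_lit 9766436865) (nat_lit 4601151496) (.two (nat_lit 2097152) (nat_lit 4634705944) (.one (nat_lit 4599054416) .nil))),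
   .two (nat_lit 721420292) (nat_lit 272629765) (.two (nat_lit 4194305) (nat_lit 185002360840) (.two (nat_lit 2097152) (nat_lit 2936012843) (.one (nat_lit 158192369849) .nil))),
   .two (nat_lit 739246085) (nat_lit 612368387) (.two (nat_lit 612368385) (nat_lit 20704133132) (.two (nat_lit 8388608) (nat_lit 10335813681) (.one (nat_lit 1343225985) .nil))),
   .two (nat_lit 705691652) (nat_lit 19530776579) (.two (nat_lit 156365750273) (nat_lit 1343225864) (.two (nat_lit 2097152) (nat_lit 19127074843) (.one (nat_lit 11544821840) .nil))),
   .two (nat_lit 9934209029) (nat_lit 156367847427) (.two (nat_lit 9766436865) (nat_lit 157038936076) (.two (nat_lit 2097152) (nat_lit 9802088488) (.one (nat_lit 12620660829) .nil))),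
   .two (nat_lit 9768534021) (nat_lit 183845781507) (.two (nat_lit 34603009) (nat_lit 1178599432) (.two (nat_lit 1048576) (nat_lit 1178599439) (.one (nat_lit 4634705957) .nil))),
   .two (nat_lit 285212677) (nat_lit 2889875459) (.two (nat_lit 4194305) (nat_lit 2902458376) (.two (nat_lit 4194304) (nat_lit 2902458383) (.one (nat_lit 2902458404) .nil))),
   .two (nat_lit 20644364290) (nat_lit 46409973764) (.two (nat_lit 612368385) (nat_lit 46409973768) (.two (nat_lit 8388608) (nat_lit 46409973775) (.one (nat_lit 183848927269) .nil))),
   .two (nat_lit 9933160453) (nat_lit 11492392963) (.two (nat_lit 50331649) (nat_lit 19093520396) (.two (nat_lit 16777216) (nat_lit 1276117024) (.one (nat_lit 11510218832) .nil))),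
   .two (nat_lit 620756997) (nat_lit 2887778307) (.two (nat_lit 2097153) (nat_lit 83886088) (.two (nat_lit 2097152) (nat_lit 1392508961) (.one (nat_lit 156365750350) .nil))),
   .two (nat_lit 46409973765) (nat_lit 18933088259) (.two (nat_lit 156372041729) (nat_lit 156367847432) (.two (nat_lit 8388608) (nat_lit 37249613849) (.one (nat_lit 46477082778) .nil))),
   .two (nat_lit 4194308) (nat_lit 165532401667) (.two (nat_lit 156372041729) (nat_lit 272629768) (.two (nat_lit 8388608) (nat_lit 272629775) (.one (nat_lit 272629796) .nil))),
   .two (nat_lit 41943045) (nat_lit 18925748227) (.two (nat_lit 156364701697) (nat_lit 713031688) (.two (nat_lit 1048576) (nat_lit 713031695) (.one (nat_lit 713031716) .nil))),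
   .two (nat_lit 176160772) (nat_lit 165525061635) (.two (nat_lit 156364701697) (nat_lit 612368392) (.two (nat_lit 1048576) (nat_lit 9974054945) (.one (nat_lit 605028428) .nil))),
   .two (nat_lit 41943045) (nat_lit 183848927235) (.two (nat_lit 37748737) (nat_lit 9906946062) (.two (nat_lit 4194304) (nat_lit 9873391669) (.one (nat_lit 2923430039) .nil))),
   .two (nat_lit 4194308) (nat_lit 166129041411) (.two (nat_lit 9765388289) (nat_lit 809500680) (.two (nat_lit 1048576) (nat_lit 46409973771) (.one (nat_lit 4631560457) .nil))),
   .two (nat_lit 739246085) (nat_lit 50331651) (.two (nat_lit 50331649) (nat_lit 12147752973) (.two (nat_lit 16777216) (nat_lit 1048620) (.one (nat_lit 1048767) .nil))),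
   .two (nat_lit 184549378) (nat_lit 176160772) (.two (nat_lit 16777217) (nat_lit 176160776) (.two (nat_lit 16777216) (nat_lit 176160783) (.one (nat_lit 176160804) .nil))),
   .two (nat_lit 176160772) (nat_lit 18925748227) (.two (nat_lit 156364701697) (nat_lit 612368392) (.two (nat_lit 1048576) (nat_lit 159257722913) (.one (nat_lit 168820816) .nil))),
   .two (nat_lit 101711877) (nat_lit 156367847427) (.two (nat_lit 9765388289) (nat_lit 157038936072) (.two (nat_lit 4194304) (nat_lit 1048605) (.one (nat_lit 806355017) .nil))),
   .two (nat_lit 21777874949) (nat_lit 46407876611) (.two (nat_lit 2097153) (nat_lit 2886729738) (.two (nat_lit 2097152) (nat_lit 12617515032) (.one (nat_lit 158646403245) .nil))),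
   .two (nat_lit 8388610) (nat_lit 4194308) (.two (nat_lit 8388609) (nat_lit 4601151496) (.two (nat_lit 8388608) (nat_lit 4601151503) (.one (nat_lit 1212153893) .nil))),
   .two (nat_lit 8388613) (nat_lit 18928893955) (.two (nat_lit 156367847425) (nat_lit 343932941) (.two (nat_lit 4194304) (nat_lit 10007609372) (.one (nat_lit 1178599592) .nil))),
   .two (nat_lit 184549380) (nat_lit 10369368067) (.two (nat_lit 9765388289) (nat_lit 9948889096) (.two (nat_lit 1048576) (nat_lit 16777227) (.one (nat_lit 156364702022) .nil))),
   .two (nat_lit 46409973765) (nat_lit 19529728003) (.two (nat_lit 37748737) (nat_lit 174752530440) (.two (nat_lit 1048576) (nat_lit 9802088469) (.one (nat_lit 1048931) .nil))),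
   .two (nat_lit 16777218) (nat_lit 8388612) (.two (nat_lit 16777217) (nat_lit 41943048) (.two (nat_lit 16777216) (nat_lit 41943055) (.one (nat_lit 612368421) .nil))),
   .two (nat_lit 184549381) (nat_lit 166132187139) (.two (nat_lit 9768534017) (nat_lit 2969567244) (.two (nat_lit 4194304) (nat_lit 28101836829) (.one (nat_lit 19142803535) .nil))),
   .two (nat_lit 16777221) (nat_lit 605028355) (.two (nat_lit 4194305) (nat_lit 83886094) (.two (nat_lit 4194304) (nat_lit 1048632) (.one (nat_lit 21781020754) .nil))),
   .two (nat_lit 4194308) (nat_lit 10503585797) (.two (nat_lit 8388609) (nat_lit 10000269324) (.two (nat_lit 8388608) (nat_lit 2319450155) (.one (nat_lit 2889875641) .nil))),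
   .two (nat_lit 28086108165) (nat_lit 166130089987) (.two (nat_lit 9766436865) (nat_lit 37313576972) (.two (nat_lit 2097152) (nat_lit 4027580438) (.one (nat_lit 1276117342) .nil))),
   .two (nat_lit 2889875460) (nat_lit 18925748227) (.two (nat_lit 156364701697) (nat_lit 10506731528) (.two (nat_lit 1048576) (nat_lit 9768534049) (.one (nat_lit 1309671502) .nil))),
   .two (nat_lit 4194308) (nat_lit 19530776579) (.two (nat_lit 156365750273) (nat_lit 4601151496) (.two (nat_lit 2097152) (nat_lit 138412059) (.one (nat_lit 20638072910) .nil))),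
   .two (nat_lit 9866051589) (nat_lit 166130089987) (.two (nat_lit 9766436865) (nat_lit 20704133132) (.two (nat_lit 2097152) (nat_lit 2886729757) (.one (nat_lit 3458203816) .nil))),
   .two (nat_lit 4194308) (nat_lit 166129041411) (.two (nat_lit 9765388289) (nat_lit 809500680) (.two (nat_lit 1048576) (nat_lit 9802088478) (.one (nat_lit 1276117070) .nil))),
   .two (nat_lit 809500677) (nat_lit 19530776581) (.two (nat_lit 612368385) (nat_lit 606076936) (.two (nat_lit 8388608) (nat_lit 339738646) (.one (nat_lit 4194660) .nil))),
   .two (nat_lit 20638072834) (nat_lit 9781116931) (.two (nat_lit 606076929) (nat_lit 654311436) (.two (nat_lit 2097152) (nat_lit 3573547030) (.one (nat_lit 2902458489) .nil))),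
   .two (nat_lit 9781116933) (nat_lit 37748739) (.two (nat_lit 37748737) (nat_lit 1191182344) (.two (nat_lit 4194304) (nat_lit 1191182351) (.one (nat_lit 4647288869) .nil))),
   .two (nat_lit 41943045) (nat_lit 4194307) (.two (nat_lit 4194305) (nat_lit 713031688) (.two (nat_lit 4194304) (nat_lit 11584667681) (.one (nat_lit 10909384777) .nil))),
   .two (nat_lit 37748739) (nat_lit 20644364291) (.two (nat_lit 612368385) (nat_lit 13191086087) (.two (nat_lit 8388608) (nat_lit 28793897013) (.one (nat_lit 165528207519) .nil))),
   .two (nat_lit 1276116996) (nat_lit 606076931) (.two (nat_lit 606076929) (nat_lit 9866051592) (.two (nat_lit 2097152) (nat_lit 21207449625) (.one (nat_lit 2953838740) .nil))),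
   .two (nat_lit 3527409669) (nat_lit 9766436867) (.two (nat_lit 9766436865) (nat_lit 46980399112) (.two (nat_lit 2097152) (nat_lit 46980399120) (.one (nat_lit 1749024806) .nil))),
   .two (nat_lit 4194308) (nat_lit 9781116931) (.two (nat_lit 9781116929) (nat_lit 13191086088) (.two (nat_lit 16777216) (nat_lit 13191086095) (.one (nat_lit 9802088485) .nil))),
   .two (nat_lit 809500677) (nat_lit 156372041731) (.two (nat_lit 612368385) (nat_lit 13191086087) (.two (nat_lit 1048576) (nat_lit 876609590) (.one (nat_lit 612368552) .nil))),
   .two (nat_lit 2902458372) (nat_lit 46407876611) (.two (nat_lit 2097153) (nat_lit 2902458376) (.two (nat_lit 2097152) (nat_lit 218103832) (.one (nat_lit 1224736957) .nil))),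
   .two (nat_lit 1343225861) (nat_lit 165526110213) (.two (nat_lit 2097153) (nat_lit 9866051592) (.two (nat_lit 2097152) (nat_lit 21207449611) (.one (nat_lit 1847591038) .nil))),
   .two (nat_lit 169869316) (nat_lit 1779433487) (.two (nat_lit 2097152) (nat_lit 11543773248) (.one (nat_lit 11543773379) .nil)),
   .two (nat_lit 639631365) (nat_lit 1343225871) (.two (nat_lit 2097152) (nat_lit 11543773250) (.one (nat_lit 11543773541) .nil)),
   .two (nat_lit 2902458372) (nat_lit 157038936076) (.two (nat_lit 37748737) (nat_lit 2969567296) (.one (nat_lit 159266111683) .nil)),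
   .two (nat_lit 166129041410) (nat_lit 156372041735) (.two (nat_lit 18933088259) (nat_lit 10503585798) (.two (nat_lit 156364701697) (nat_lit 156372041743) (.two (nat_lit 1048576) (nat_lit 13195280421) (.one (nat_lit 3531604177) .nil)))),
   .two (nat_lit 1753219077) (nat_lit 174752530439) (.two (nat_lit 165525061635) (nat_lit 165532401672) (.two (nat_lit 156364701697) (nat_lit 165532401679) (.two (nat_lit 1048576) (nat_lit 2961178746) (.one (nat_lit 8389027) .nil)))),
   .two (nat_lit 20637024260) (nat_lit 165532401672) (.two (nat_lit 605028353) (nat_lit 165532401679) (.two (nat_lit 1048576) (nat_lit 3464495125) (.one (nat_lit 21207449815) .nil))),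
   .two (nat_lit 4599054341) (nat_lit 156372041736) (.two (nat_lit 2097153) (nat_lit 156372041743) (.two (nat_lit 1048576) (nat_lit 847249445) (.one (nat_lit 1048996) .nil))),
   .two (nat_lit 11476664324) (nat_lit 654311431) (.two (nat_lit 9781116931) (nat_lit 12114198536) (.two (nat_lit 9781116929) (nat_lit 12114198543) (.two (nat_lit 16777216) (nat_lit 28690088003) (.one (nat_lit 772800723) .nil)))),
   .two (nat_lit 285212677) (nat_lit 19532873736) (.two (nat_lit 16777217) (nat_lit 19532873743) (.two (nat_lit 4194304) (nat_lit 9948889123) (.one (nat_lit 4194725) .nil))),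
   .two (nat_lit 713031684) (nat_lit 46978301960) (.two (nat_lit 2097153) (nat_lit 713031695) (.two (nat_lit 2097152) (nat_lit 343932949) (.one (nat_lit 337641686) .nil))),
   .two (nat_lit 169869316) (nat_lit 156971827208) (.two (nat_lit 2097153) (nat_lit 19599982607) (.two (nat_lit 2097152) (nat_lit 19599982627) (.one (nat_lit 4194726) .nil))),
   .two (nat_lit 1191182341) (nat_lit 19532873736) (.two (nat_lit 16777217) (nat_lit 2420113433) (.two (nat_lit 4194304) (nat_lit 16777303) (.one (nat_lit 10909385074) .nil))),
   .two (nat_lit 4194307) (nat_lit 10503585799) (.two (nat_lit 4194304) (nat_lit 1048727) (.one (nat_lit 873464226) .nil)),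
   .two (nat_lit 50331653) (nat_lit 158143086599) (.two (nat_lit 2097152) (nat_lit 16777368) (.one (nat_lit 16777639) .nil)),
   .two (nat_lit 46409973762) (nat_lit 117440519) (.two (nat_lit 1191182339) (nat_lit 1346371594) (.two (nat_lit 4194305) (nat_lit 1795162127) (.two (nat_lit 4194304) (nat_lit 11559501861) (.one (nat_lit 158662131921) .nil)))),
   .two (nat_lit 156365750275) (nat_lit 9948889096) (.two (nat_lit 2097152) (nat_lit 2969567343) (.one (nat_lit 117440927) .nil)),
   .two (nat_lit 713031682) (nat_lit 1779433480) (.two (nat_lit 41943045) (nat_lit 9933160454) (.two (nat_lit 41943041) (nat_lit 1779433487) (.two (nat_lit 1048576) (nat_lit 8388643) (.one (nat_lit 28790751603) .nil)))),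
   .two (nat_lit 2887778308) (nat_lit 21785214988) (.two (nat_lit 2097153) (nat_lit 21785214991) (.two (nat_lit 2097152) (nat_lit 183920230474) (.one (nat_lit 69206417) .nil))),
   .two (nat_lit 11476664323) (nat_lit 10336862215) (.two (nat_lit 1048576) (nat_lit 807403664) (.one (nat_lit 21812477991) .nil)),
   .two (nat_lit 20644364292) (nat_lit 157035790343) (.two (nat_lit 46422556675) (nat_lit 165532401672) (.two (nat_lit 16777217) (nat_lit 165532401679) (.two (nat_lit 1048576) (nat_lit 10443817080) (.one (nat_lit 16777642) .nil)))),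
   .two (nat_lit 4194308) (nat_lit 9765388295) (.two (nat_lit 8388611) (nat_lit 4194312) (.two (nat_lit 8388609) (nat_lit 272629784) (.two (nat_lit 8388608) (nat_lit 10537140360) (.one (nat_lit 9866052009) .nil)))),
   .two (nat_lit 2902458372) (nat_lit 184986632199) (.two (nat_lit 705691651) (nat_lit 2902458376) (.two (nat_lit 9781116929) (nat_lit 12047089679) (.two (nat_lit 8388608) (nat_lit 156984410237) (.one (nat_lit 1049003) .nil)))),
   .two (nat_lit 28757196805) (nat_lit 4601151495) (.two (nat_lit 4194307) (nat_lit 135266316) (.two (nat_lit 4194305) (nat_lit 4631560221) (.two (nat_lit 4194304) (nat_lit 9899606081) (.one (nat_lit 159250382944) .nil)))),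
   .two (nat_lit 2097155) (nat_lit 13191086087) (.two (nat_lit 1048576) (nat_lit 2097305) (.one (nat_lit 21208498214) .nil)),
   .two (nat_lit 2887778308) (nat_lit 809500679) (.two (nat_lit 37748739) (nat_lit 3525312520) (.two (nat_lit 37748737) (nat_lit 3525312527) (.two (nat_lit 4194304) (nat_lit 46474985580) (.one (nat_lit 159217877208) .nil)))),
   .two (nat_lit 9781116933) (nat_lit 806354950) (.two (nat_lit 50331649) (nat_lit 1913651215) (.two (nat_lit 1048576) (nat_lit 2902458389) (.one (nat_lit 1049005) .nil))),
   .two (nat_lit 159224168453) (nat_lit 874512394) (.two (nat_lit 156365750273) (nat_lit 75497487) (.two (nat_lit 2097152) (nat_lit 880803858) (.one (nat_lit 8389038) .nil))),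
   .two (nat_lit 9766436867) (nat_lit 104857607) (.two (nat_lit 2097152) (nat_lit 184993972366) (.one (nat_lit 13195280422) .nil)),
   .two (nat_lit 169869316) (nat_lit 165525061640) (.two (nat_lit 16777216) (nat_lit 156566028419) (.one (nat_lit 1276117371) .nil)),
   .two (nat_lit 41943045) (nat_lit 9781116935) (.two (nat_lit 9781116931) (nat_lit 13195280396) (.two (nat_lit 9768534017) (nat_lit 183853121551) (.two (nat_lit 4194304) (nat_lit 183853121601) (.one (nat_lit 2357198944) .nil)))),
   .two (nat_lit 69206021) (nat_lit 2969567241) (.two (nat_lit 2097153) (nat_lit 1916796939) (.two (nat_lit 2097152) (nat_lit 28693233683) (.one (nat_lit 16777647) .nil))),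
   .two (nat_lit 606076931) (nat_lit 157038936072) (.two (nat_lit 2097152) (nat_lit 20707278979) (.one (nat_lit 4194736) .nil)),
   .two (nat_lit 605028357) (nat_lit 9948889095) (.two (nat_lit 1291845635) (nat_lit 772800526) (.two (nat_lit 34603009) (nat_lit 157038936079) (.two (nat_lit 16777216) (nat_lit 4634705994) (.one (nat_lit 4194737) .nil)))),
   .two (nat_lit 10343153669) (nat_lit 19599982600) (.two (nat_lit 37748737) (nat_lit 165532401679) (.two (nat_lit 4194304) (nat_lit 612368525) (.one (nat_lit 679477457) .nil))),
   .two (nat_lit 183861510149) (nat_lit 101711880) (.two (nat_lit 16777217) (nat_lit 101711887) (.two (nat_lit 16777216) (nat_lit 772800586) (.one (nat_lit 1780482417) .nil))),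
   .two (nat_lit 16777221) (nat_lit 3527409672) (.two (nat_lit 9768534017) (nat_lit 3573547033) (.two (nat_lit 16777216) (nat_lit 2990538770) (.one (nat_lit 47596962199) .nil))),
   .two (nat_lit 156372041733) (nat_lit 159216828422) (.two (nat_lit 41943041) (nat_lit 174752530447) (.two (nat_lit 1048576) (nat_lit 1317011478) (.one (nat_lit 1343225955) .nil))),
   .two (nat_lit 713031684) (nat_lit 285212678) (.two (nat_lit 16777217) (nat_lit 12054429707) (.two (nat_lit 16777216) (nat_lit 184993972243) (.one (nat_lit 16777651) .nil))),
   .two (nat_lit 11492392964) (nat_lit 156367847432) (.two (nat_lit 4194305) (nat_lit 855638042) (.two (nat_lit 16777216) (nat_lit 46477082778) (.one (nat_lit 16777652) .nil))),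
   .two (nat_lit 28758245381) (nat_lit 12114198535) (.two (nat_lit 183845781507) (nat_lit 10538188812) (.two (nat_lit 34603009) (nat_lit 840957981) (.two (nat_lit 1048576) (nat_lit 10907287639) (.one (nat_lit 2097589) .nil)))),
   .two (nat_lit 19596836869) (nat_lit 174759870472) (.two (nat_lit 9765388289) (nat_lit 166237044786) (.two (nat_lit 1048576) (nat_lit 4605345877) (.one (nat_lit 1049014) .nil))),
   .two (nat_lit 11492392964) (nat_lit 159216828422) (.two (nat_lit 50331649) (nat_lit 158143086603) (.two (nat_lit 1048576) (nat_lit 11559501842) (.one (nat_lit 12617515382) .nil))),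
   .two (nat_lit 8388613) (nat_lit 158176641037) (.two (nat_lit 8388609) (nat_lit 3020947500) (.two (nat_lit 1048576) (nat_lit 713031717) (.one (nat_lit 47588573555) .nil))),
   .two (nat_lit 2887778308) (nat_lit 13191086086) (.two (nat_lit 2097153) (nat_lit 13191086091) (.two (nat_lit 4194304) (nat_lit 270532626) (.one (nat_lit 21814575507) .nil))),
   .two (nat_lit 176160772) (nat_lit 3525312520) (.two (nat_lit 612368385) (nat_lit 2954887193) (.two (nat_lit 2097152) (nat_lit 1317011610) (.one (nat_lit 46978302161) .nil))),
   .two (nat_lit 2902458372) (nat_lit 19599982599) (.two (nat_lit 18928893955) (nat_lit 654311432) (.two (nat_lit 156367847425) (nat_lit 822083614) (.two (nat_lit 4194304) (nat_lit 1761607811) (.one (nat_lit 16777655) .nil)))),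
   .two (nat_lit 176160773) (nat_lit 2954887176) (.two (nat_lit 606076929) (nat_lit 276824088) (.two (nat_lit 8388608) (nat_lit 270532626) (.one (nat_lit 2894070149) .nil))),
   .two (nat_lit 8388612) (nat_lit 20637024265) (.two (nat_lit 16777217) (nat_lit 1175453711) (.two (nat_lit 8388608) (nat_lit 13221494802) (.one (nat_lit 1753219501) .nil))),
   .two (nat_lit 184549380) (nat_lit 20644364297) (.two (nat_lit 41943041) (nat_lit 16777227) (.two (nat_lit 8388608) (nat_lit 16777234) (.one (nat_lit 1426063764) .nil))),
   .two (nat_lit 10504634373) (nat_lit 184549384) (.two (nat_lit 9766436865) (nat_lit 2936012825) (.two (nat_lit 2097152) (nat_lit 16777374) (.one (nat_lit 11611930993) .nil))),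
   .two (nat_lit 606076931) (nat_lit 104857607) (.two (nat_lit 8388608) (nat_lit 9869197457) (.one (nat_lit 843055142) .nil)),
   .two (nat_lit 2902458372) (nat_lit 46474985481) (.two (nat_lit 606076929) (nat_lit 9781116943) (.two (nat_lit 2097152) (nat_lit 11492392981) (.one (nat_lit 16777656) .nil))),
   .two (nat_lit 16777219) (nat_lit 638582791) (.two (nat_lit 16777216) (nat_lit 1048735) (.one (nat_lit 1049018) .nil)),
   .two (nat_lit 612368389) (nat_lit 158144135175) (.two (nat_lit 612368387) (nat_lit 158144135176) (.two (nat_lit 620756993) (nat_lit 1780482063) (.two (nat_lit 16777216) (nat_lit 2097233) (.one (nat_lit 8389051) .nil)))),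
   .two (nat_lit 1176502277) (nat_lit 117440519) (.two (nat_lit 10385096707) (nat_lit 4028629006) (.two (nat_lit 2097153) (nat_lit 1753219087) (.two (nat_lit 16777216) (nat_lit 880803914) (.one (nat_lit 310378912) .nil)))),
   .two (nat_lit 1276116994) (nat_lit 809500679) (.two (nat_lit 11479810051) (nat_lit 168820745) (.two (nat_lit 9765388289) (nat_lit 809500687) (.two (nat_lit 1048576) (nat_lit 156569174053) (.one (nat_lit 171966673) .nil)))),
   .two (nat_lit 2097155) (nat_lit 20644364296) (.two (nat_lit 1048576) (nat_lit 159257722918) (.one (nat_lit 159257722918) .nil)),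
   .two (nat_lit 721420292) (nat_lit 3527409672) (.two (nat_lit 4194305) (nat_lit 83886095) (.two (nat_lit 4194304) (nat_lit 352321573) (.one (nat_lit 9969861044) .nil))),
   .two (nat_lit 2889875461) (nat_lit 3458203656) (.two (nat_lit 9768534017) (nat_lit 203423769) (.two (nat_lit 2097152) (nat_lit 272629918) (.one (nat_lit 3458203857) .nil))),
   .two (nat_lit 183845781508) (nat_lit 8388615) (.two (nat_lit 176160771) (nat_lit 184416206856) (.two (nat_lit 8388609) (nat_lit 19026411547) (.two (nat_lit 8388608) (nat_lit 12147753071) (.one (nat_lit 1049020) .nil)))),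
   .two (nat_lit 169869316) (nat_lit 41943047) (.two (nat_lit 41943043) (nat_lit 9934209032) (.two (nat_lit 41943041) (nat_lit 2954887184) (.two (nat_lit 8388608) (nat_lit 47548727382) (.one (nat_lit 1176502653) .nil)))),
   .two (nat_lit 1277165570) (nat_lit 4601151495) (.two (nat_lit 46409973763) (nat_lit 11511267338) (.two (nat_lit 9766436865) (nat_lit 4601151503) (.two (nat_lit 2097152) (nat_lit 18928893989) (.one (nat_lit 46980399304) .nil)))),
   .two (nat_lit 9881780229) (nat_lit 13187940358) (.two (nat_lit 34603009) (nat_lit 1795162133) (.two (nat_lit 1048576) (nat_lit 46422556690) (.one (nat_lit 19127075226) .nil))),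
   .two (nat_lit 1276116996) (nat_lit 159217877000) (.two (nat_lit 9765388289) (nat_lit 1277165593) (.two (nat_lit 16777216) (nat_lit 9798942851) (.one (nat_lit 20638073041) .nil))),
   .two (nat_lit 1358954501) (nat_lit 157036838919) (.two (nat_lit 156365750275) (nat_lit 9881780232) (.two (nat_lit 156365750273) (nat_lit 9881780240) (.two (nat_lit 2097152) (nat_lit 721420396) (.one (nat_lit 19142803672) .nil)))),
   .two (nat_lit 713031683) (nat_lit 1913651207) (.two (nat_lit 1048576) (nat_lit 183920230540) (.one (nat_lit 20711473191) .nil)),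
   .two (nat_lit 171966469) (nat_lit 1920991242) (.two (nat_lit 8388609) (nat_lit 3020947477) (.two (nat_lit 1048576) (nat_lit 166237044757) (.one (nat_lit 8389053) .nil))),
   .two (nat_lit 166130089987) (nat_lit 10343153671) (.two (nat_lit 2097152) (nat_lit 8388768) (.one (nat_lit 645922855) .nil)),
   .two (nat_lit 169869316) (nat_lit 11559501832) (.two (nat_lit 2097153) (nat_lit 889192473) (.two (nat_lit 16777216) (nat_lit 159217877027) (.one (nat_lit 9948889454) .nil))),
   .two (nat_lit 705691652) (nat_lit 157036838919) (.two (nat_lit 68157443) (nat_lit 157036838920) (.two (nat_lit 156365750273) (nat_lit 1343225871) (.two (nat_lit 1048576) (nat_lit 183947493461) (.one (nat_lit 1343226234) .nil)))),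
   .two (nat_lit 46407876611) (nat_lit 158083317768) (.two (nat_lit 2097152) (nat_lit 11014242342) (.one (nat_lit 11014242342) .nil)),
   .two (nat_lit 28757196805) (nat_lit 3531603978) (.two (nat_lit 156364701697) (nat_lit 159224168463) (.two (nat_lit 1048576) (nat_lit 3464495122) (.one (nat_lit 8389021) .nil))),
   .two (nat_lit 1178599427) (nat_lit 10503585799) (.two (nat_lit 1048576) (nat_lit 8388770) (.one (nat_lit 8389054) .nil)),
   .two (nat_lit 20637024260) (nat_lit 822083591) (.two (nat_lit 11492392963) (nat_lit 28086108168) (.two (nat_lit 605028353) (nat_lit 822083599) (.two (nat_lit 1048576) (nat_lit 46992982090) (.one (nat_lit 2432696708) .nil)))),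
   .two (nat_lit 2887778308) (nat_lit 1916796936) (.two (nat_lit 2097153) (nat_lit 9768534041) (.two (nat_lit 2097152) (nat_lit 641728673) (.one (nat_lit 156468510929) .nil))),
   .two (nat_lit 2097157) (nat_lit 10955522058) (.two (nat_lit 2097153) (nat_lit 1962934294) (.two (nat_lit 1048576) (nat_lit 158144135186) (.one (nat_lit 16777663) .nil))),
   .two (nat_lit 2889875459) (nat_lit 159217876999) (.two (nat_lit 2097152) (nat_lit 159253528720) (.one (nat_lit 28760342567) .nil)),
   .two (nat_lit 18933088261) (nat_lit 2988441609) (.two (nat_lit 8388609) (nat_lit 37314625557) (.two (nat_lit 2097152) (nat_lit 184993972242) (.one (nat_lit 9867100607) .nil))),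
   .two (nat_lit 721420292) (nat_lit 9867100169) (.two (nat_lit 8388609) (nat_lit 28087156751) (.two (nat_lit 8388608) (nat_lit 21778923538) (.one (nat_lit 20652753336) .nil))),
   .two (nat_lit 176160771) (nat_lit 10335813639) (.two (nat_lit 8388608) (nat_lit 158143086744) (.one (nat_lit 336593337) .nil)),
   .two (nat_lit 28758245381) (nat_lit 19599982599) (.two (nat_lit 18928893955) (nat_lit 1847590920) (.two (nat_lit 156367847425) (nat_lit 1847590927) (.two (nat_lit 4194304) (nat_lit 37314625603) (.one (nat_lit 13222543558) .nil)))),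
   .two (nat_lit 171966469) (nat_lit 4605345798) (.two (nat_lit 4194305) (nat_lit 166129041423) (.two (nat_lit 1048576) (nat_lit 1279262741) (.one (nat_lit 21777875334) .nil))),
   .two (nat_lit 11479810053) (nat_lit 1753219080) (.two (nat_lit 4194305) (nat_lit 12054429711) (.two (nat_lit 4194304) (nat_lit 11584667715) (.one (nat_lit 1417674965) .nil))),
   .two (nat_lit 165526110211) (nat_lit 47555018760) (.two (nat_lit 2097152) (nat_lit 1350565926) (.one (nat_lit 1350565926) .nil)),
   .two (nat_lit 16777220) (nat_lit 156367847431) (.two (nat_lit 156367847427) (nat_lit 50331656) (.two (nat_lit 156367847425) (nat_lit 16777232) (.two (nat_lit 4194304) (nat_lit 11559501932) (.one (nat_lit 4647289048) .nil)))),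
   .two (nat_lit 37748739) (nat_lit 157036838919) (.two (nat_lit 4194304) (nat_lit 12148801609) (.one (nat_lit 2097600) .nil)),
   .two (nat_lit 9766436867) (nat_lit 21785214983) (.two (nat_lit 2097152) (nat_lit 8388773) (.one (nat_lit 11014242343) .nil)),
   .two (nat_lit 4194307) (nat_lit 19596836871) (.two (nat_lit 4194304) (nat_lit 1048742) (.one (nat_lit 1048994) .nil)),
   .two (nat_lit 9881780229) (nat_lit 13187940358) (.two (nat_lit 34603009) (nat_lit 166245433365) (.two (nat_lit 1048576) (nat_lit 46422556690) (.one (nat_lit 839909804) .nil))),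
   .two (nat_lit 176160772) (nat_lit 158144135176) (.two (nat_lit 8388609) (nat_lit 9934209049) (.two (nat_lit 2097152) (nat_lit 746586130) (.one (nat_lit 2097532) .nil))),
   .two (nat_lit 11476664323) (nat_lit 9934209031) (.two (nat_lit 1048576) (nat_lit 2097319) (.one (nat_lit 4599054374) .nil)),
   .two (nat_lit 4194308) (nat_lit 174752530439) (.two (nat_lit 37748739) (nat_lit 174752530440) (.two (nat_lit 37748737) (nat_lit 174752530447) (.two (nat_lit 1048576) (nat_lit 1279262805) (.one (nat_lit 184416207236) .nil)))),
   .two (nat_lit 1343225861) (nat_lit 19604176903) (.two (nat_lit 16777216) (nat_lit 8388776) (.one (nat_lit 1049025) .nil)),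
   .two (nat_lit 169869316) (nat_lit 1417674761) (.two (nat_lit 41943041) (nat_lit 2097163) (.two (nat_lit 2097152) (nat_lit 4605345813) (.one (nat_lit 2097602) .nil))),
   .two (nat_lit 809500677) (nat_lit 9948889094) (.two (nat_lit 37748737) (nat_lit 21223178251) (.two (nat_lit 16777216) (nat_lit 166199296018) (.one (nat_lit 2365587831) .nil))),
   .two (nat_lit 2889875460) (nat_lit 1753219079) (.two (nat_lit 2889875459) (nat_lit 28093448200) (.two (nat_lit 4194305) (nat_lit 28093448207) (.two (nat_lit 4194304) (nat_lit 158183981130) (.one (nat_lit 8388992) .nil)))),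
   .two (nat_lit 169869316) (nat_lit 13224640521) (.two (nat_lit 2097153) (nat_lit 10506731541) (.two (nat_lit 2097152) (nat_lit 3024093202) (.one (nat_lit 2097603) .nil))),
   .two (nat_lit 721420293) (nat_lit 184417255434) (.two (nat_lit 16777217) (nat_lit 21208498191) (.two (nat_lit 2097152) (nat_lit 1962934294) (.one (nat_lit 2097605) .nil))),
   .two (nat_lit 184549379) (nat_lit 10336862215) (.two (nat_lit 2097152) (nat_lit 16777385) (.one (nat_lit 184431935526) .nil)),
   .two (nat_lit 4194307) (nat_lit 9948889095) (.two (nat_lit 16777216) (nat_lit 3460300942) (.one (nat_lit 11546918951) .nil)),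
   .two (nat_lit 4194312) (nat_lit 9867100169) (.two (nat_lit 2894069765) (nat_lit 606076943) (.two (nat_lit 8388609) (nat_lit 34603075) (.two (nat_lit 8388608) (nat_lit 3460301005) (.one (nat_lit 4194799) .nil)))),
   .two (nat_lit 4194312) (nat_lit 270532614) (.two (nat_lit 4194308) (nat_lit 11476664335) (.two (nat_lit 4194305) (nat_lit 2886729765) (.two (nat_lit 1048576) (nat_lit 4194519) (.one (nat_lit 166132187599) .nil)))),
   .two (nat_lit 8388616) (nat_lit 705691656) (.two (nat_lit 8388612) (nat_lit 11577327633) (.two (nat_lit 2097153) (nat_lit 156532473894) (.two (nat_lit 1048576) (nat_lit 270532812) (.one (nat_lit 28758245599) .nil)))),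
   .two (nat_lit 156365750280) (nat_lit 18928893960) (.two (nat_lit 69206021) (nat_lit 721420304) (.two (nat_lit 2097153) (nat_lit 156971827271) (.two (nat_lit 16777216) (nat_lit 185023332552) (.one (nat_lit 159251431647) .nil)))),
   .two (nat_lit 46409973768) (nat_lit 840957962) (.two (nat_lit 9934209029) (nat_lit 156367847439) (.two (nat_lit 9766436865) (nat_lit 4601151552) (.two (nat_lit 2097152) (nat_lit 339738718) (.one (nat_lit 4030726617) .nil)))),
   .two (nat_lit 156365750280) (nat_lit 20637024264) (.two (nat_lit 605028357) (nat_lit 4647288849) (.two (nat_lit 2097153) (nat_lit 2416967718) (.two (nat_lit 4194304) (nat_lit 37313577056) (.one (nat_lit 12163482069) .nil)))),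
   .two (nat_lit 9866051592) (nat_lit 11477712905) (.two (nat_lit 9934209029) (nat_lit 1779433487) (.two (nat_lit 606076929) (nat_lit 101711939) (.two (nat_lit 2097152) (nat_lit 9899606221) (.one (nat_lit 9866052079) .nil)))),
   .two (nat_lit 156372041733) (nat_lit 1343225867) (.two (nat_lit 41943041) (nat_lit 158176641044) (.one (nat_lit 8388838) .nil)),
   .two (nat_lit 1277165576) (nat_lit 638582791) (.two (nat_lit 1048576) (nat_lit 840957991) .nil),
   .two (nat_lit 620757000) (nat_lit 21785214983) (.two (nat_lit 8388608) (nat_lit 19612565543) .nil),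
   .two (nat_lit 10504634376) (nat_lit 10503585799) (.two (nat_lit 2097155) (nat_lit 4605345807) (.two (nat_lit 2097153) (nat_lit 4605345826) (.two (nat_lit 1048576) (nat_lit 337641673) (.one (nat_lit 772800735) .nil)))),
   .two (nat_lit 1753219077) (nat_lit 50331659) (.two (nat_lit 612368385) (nat_lit 50331666) (.one (nat_lit 2969567722) .nil)),
   .two (nat_lit 176160776) (nat_lit 809500679) (.two (nat_lit 8388611) (nat_lit 11479810063) (.two (nat_lit 8388609) (nat_lit 11479810082) (.two (nat_lit 4194304) (nat_lit 19033751750) (.one (nat_lit 11580473567) .nil)))),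
   .two (nat_lit 4605345798) (nat_lit 10504634375) (.two (nat_lit 9766436867) (nat_lit 156372041743) (.two (nat_lit 9766436865) (nat_lit 46414168098) (.two (nat_lit 2097152) (nat_lit 343933025) (.one (nat_lit 159257723107) .nil)))),
   .two (nat_lit 2954887176) (nat_lit 272629766) (.two (nat_lit 203423749) (nat_lit 2889875471) (.two (nat_lit 2097153) (nat_lit 272629795) (.two (nat_lit 2097152) (nat_lit 4194399) (.one (nat_lit 21812478416) .nil)))),
   .two (nat_lit 1749024776) (nat_lit 28758245383) (.two (nat_lit 83886083) (nat_lit 28758245391) (.two (nat_lit 620756993) (nat_lit 158144135202) (.two (nat_lit 2097152) (nat_lit 183949590728) (.one (nat_lit 156567077333) .nil)))),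
   .two (nat_lit 28758245381) (nat_lit 8388619) (.two (nat_lit 8388609) (nat_lit 203423766) (.one (nat_lit 28764537324) .nil)),
   .two (nat_lit 157038936069) (nat_lit 159217877003) (.two (nat_lit 606076929) (nat_lit 46409973782) (.one (nat_lit 2097648) .nil)),
   .two (nat_lit 176160776) (nat_lit 9934209030) (.two (nat_lit 176160772) (nat_lit 10370416655) (.two (nat_lit 606076929) (nat_lit 8388672) (.two (nat_lit 2097152) (nat_lit 276824158) (.one (nat_lit 606077382) .nil)))),
   .two (nat_lit 21785214984) (nat_lit 101711879) (.two (nat_lit 1175453699) (nat_lit 75497487) (.two (nat_lit 9765388289) (nat_lit 713031714) (.two (nat_lit 1048576) (nat_lit 10007609539) (.one (nat_lit 19100860904) .nil)))),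
   .two (nat_lit 9881780232) (nat_lit 612368391) (.two (nat_lit 1048576) (nat_lit 156573368359) .nil),
   .two (nat_lit 176160772) (nat_lit 1914699787) (.two (nat_lit 9766436865) (nat_lit 47555018771) (.one (nat_lit 2097649) .nil)),
   .two (nat_lit 641728520) (nat_lit 2969567239) (.two (nat_lit 16777216) (nat_lit 1782579238) .nil),
   .two (nat_lit 8388615) (nat_lit 117440519) (.two (nat_lit 16777216) (nat_lit 1182793935) .nil),
   .two (nat_lit 18928893960) (nat_lit 28758245383) (.two (nat_lit 10370416643) (nat_lit 2319450137) (.two (nat_lit 9766436865) (nat_lit 4194376) (.two (nat_lit 2097152) (nat_lit 9802088657) (.one (nat_lit 1344274908) .nil)))),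
   .two (nat_lit 4194308) (nat_lit 46978301963) (.two (nat_lit 4194305) (nat_lit 236978194) (.one (nat_lit 3527410141) .nil)),
   .two (nat_lit 2887778312) (nat_lit 9768534023) (.two (nat_lit 4194304) (nat_lit 184987680807) .nil),
   .two (nat_lit 37748744) (nat_lit 806354950) (.two (nat_lit 708837381) (nat_lit 739246095) (.two (nat_lit 2097153) (nat_lit 876609619) (.two (nat_lit 1048576) (nat_lit 2887778402) (.one (nat_lit 12115247564) .nil)))),
   .two (nat_lit 813694984) (nat_lit 272629767) (.two (nat_lit 4194304) (nat_lit 158150426663) .nil),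
   .two (nat_lit 2887778312) (nat_lit 117440519) (.two (nat_lit 16777216) (nat_lit 136314919) .nil),
   .two (nat_lit 176160772) (nat_lit 47550824459) (.two (nat_lit 8388609) (nat_lit 4634705938) (.one (nat_lit 28764537323) .nil)),
   .two (nat_lit 620756997) (nat_lit 157036838933) (.two (nat_lit 2097153) (nat_lit 352321557) (.one (nat_lit 20719862225) .nil)),
   .two (nat_lit 176160772) (nat_lit 4601151509) (.two (nat_lit 8388609) (nat_lit 272629781) (.one (nat_lit 46414168546) .nil)),
   .two (nat_lit 9881780232) (nat_lit 8388614) (.two (nat_lit 1358954501) (nat_lit 159224168463) (.two (nat_lit 620756993) (nat_lit 159224168483) (.two (nat_lit 16777216) (nat_lit 21214789727) (.one (nat_lit 12163482072) .nil)))),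
   .two (nat_lit 11546918917) (nat_lit 28806479893) (.two (nat_lit 37748737) (nat_lit 1795162133) (.one (nat_lit 251658724) .nil)),
   .two (nat_lit 184549381) (nat_lit 19029557269) (.two (nat_lit 4194305) (nat_lit 218103826) (.one (nat_lit 3003121892) .nil)),
   .two (nat_lit 713031685) (nat_lit 11559501835) (.two (nat_lit 8388609) (nat_lit 12163481620) (.one (nat_lit 2424307940) .nil)),
   .two (nat_lit 620756999) (nat_lit 104857607) (.two (nat_lit 16777216) (nat_lit 18928894158) .nil),
   .two (nat_lit 16777224) (nat_lit 2887778312) (.two (nat_lit 19597885445) (nat_lit 183845781521) (.two (nat_lit 34603009) (nat_lit 337641548) (.two (nat_lit 1048576) (nat_lit 3036676305) (.one (nat_lit 157035790819) .nil)))),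
   .two (nat_lit 184431935493) (nat_lit 12054429707) (.two (nat_lit 8388609) (nat_lit 158144135189) (.one (nat_lit 2097650) .nil)),
   .two (nat_lit 16777220) (nat_lit 21208498187) (.two (nat_lit 16777217) (nat_lit 21208498194) (.one (nat_lit 13203669473) .nil)),
   .two (nat_lit 184416206856) (nat_lit 1749024775) (.two (nat_lit 4194304) (nat_lit 10335813670) .nil),
   .two (nat_lit 166130089992) (nat_lit 1916796935) (.two (nat_lit 4194304) (nat_lit 156567076902) .nil),
   .two (nat_lit 37748744) (nat_lit 612368391) (.two (nat_lit 606076931) (nat_lit 9768534031) (.two (nat_lit 606076929) (nat_lit 2889875490) (.two (nat_lit 2097152) (nat_lit 9768534211) (.one (nat_lit 876610003) .nil)))),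
   .two (nat_lit 4605345797) (nat_lit 34603019) (.two (nat_lit 8388609) (nat_lit 705691668) (.one (nat_lit 9966715359) .nil)),
   .two (nat_lit 20644364296) (nat_lit 158144135175) (.two (nat_lit 2097152) (nat_lit 21818769446) .nil),
   .two (nat_lit 13195280392) (nat_lit 9934209031) (.two (nat_lit 8388611) (nat_lit 1277165583) (.two (nat_lit 8388609) (nat_lit 1277165602) (.two (nat_lit 8388608) (nat_lit 156466413664) (.one (nat_lit 10538189275) .nil)))),
   .two (nat_lit 705691652) (nat_lit 11546918923) (.two (nat_lit 34603009) (nat_lit 11546918930) (.one (nat_lit 156465365453) .nil)),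
   .two (nat_lit 10343153672) (nat_lit 11559501831) (.two (nat_lit 46414168067) (nat_lit 754974735) (.two (nat_lit 8388609) (nat_lit 754974754) (.two (nat_lit 8388608) (nat_lit 10519314528) (.one (nat_lit 9982443990) .nil)))),
   .two (nat_lit 272629768) (nat_lit 41943047) (.two (nat_lit 8388608) (nat_lit 3460300838) .nil),
   .two (nat_lit 75497480) (nat_lit 13187940359) (.two (nat_lit 1048576) (nat_lit 10510925863) .nil),
   .two (nat_lit 166132187144) (nat_lit 1745879047) (.two (nat_lit 1048576) (nat_lit 138412070) .nil),
   .two (nat_lit 2902458372) (nat_lit 28086108181) (.two (nat_lit 16777217) (nat_lit 28086108181) (.one (nat_lit 16777715) .nil)),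
   .two (nat_lit 37748744) (nat_lit 2969567239) (.two (nat_lit 16777216) (nat_lit 11546918950) .nil),
   .two (nat_lit 176160776) (nat_lit 1749024775) (.two (nat_lit 16777216) (nat_lit 158150426662) .nil),
   .two (nat_lit 10370416648) (nat_lit 638582791) (.two (nat_lit 176160771) (nat_lit 10370416655) (.two (nat_lit 606076929) (nat_lit 8388642) (.two (nat_lit 1048576) (nat_lit 9900654789) (.one (nat_lit 8389108) .nil)))),
   .two (nat_lit 721420296) (nat_lit 1916796935) (.two (nat_lit 1048576) (nat_lit 10909384742) .nil),
   .two (nat_lit 11543773192) (nat_lit 9768534023) (.two (nat_lit 16777216) (nat_lit 159216828454) .nil),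
   .two (nat_lit 46409973768) (nat_lit 8388615) (.two (nat_lit 8388608) (nat_lit 3560964134) .nil),
   .two (nat_lit 4599054343) (nat_lit 12117344263) (.two (nat_lit 4194304) (nat_lit 2921332942) .nil),
   .two (nat_lit 11543773189) (nat_lit 9934209035) (.two (nat_lit 34603009) (nat_lit 1277165588) (.one (nat_lit 2097654) .nil)),
   .two (nat_lit 822083589) (nat_lit 4601151499) (.two (nat_lit 4194305) (nat_lit 16777237) (.one (nat_lit 19532874222) .nil)),
   .two (nat_lit 166132187144) (nat_lit 10336862215) (.two (nat_lit 2097152) (nat_lit 10540285990) .nil),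
   .two (nat_lit 1191182344) (nat_lit 159217876999) (.two (nat_lit 1048576) (nat_lit 270532647) .nil),
   .two (nat_lit 169869316) (nat_lit 28760342539) (.two (nat_lit 2097153) (nat_lit 28760342546) (.one (nat_lit 1914700256) .nil)),
   .two (nat_lit 21207449608) (nat_lit 1916796935) (.two (nat_lit 1178599427) (nat_lit 21207449615) (.two (nat_lit 156364701697) (nat_lit 3527409698) (.two (nat_lit 1048576) (nat_lit 104857696) (.one (nat_lit 1849688547) .nil)))),
   .two (nat_lit 16777220) (nat_lit 2987393046) (.one (nat_lit 174752530935) .nil),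
   .two (nat_lit 41943045) (nat_lit 11543773203) (.one (nat_lit 168821243) .nil),
   .two (nat_lit 169869316) (nat_lit 772800533) (.one (nat_lit 1376780520) .nil),
   .two (nat_lit 4194308) (nat_lit 46407876628) (.one (nat_lit 9967763688) .nil),
   .two (nat_lit 20644364292) (nat_lit 184549396) (.one (nat_lit 47596962026) .nil),
   .two (nat_lit 705691652) (nat_lit 3028287506) (.one (nat_lit 10436477434) .nil),
   .two (nat_lit 2887778308) (nat_lit 11517558805) (.one (nat_lit 11611930859) .nil),
   .two (nat_lit 16777217) (nat_lit 1753219173) .nil,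
   .two (nat_lit 50331649) (nat_lit 1947205644) (.one (nat_lit 9966714981) .nil),
   .two (nat_lit 41943041) (nat_lit 11577327628) (.one (nat_lit 34603112) .nil),
   .two (nat_lit 156365750273) (nat_lit 183853121638) .nil,
   .two (nat_lit 9768534017) (nat_lit 672137319) .nil,
   .two (nat_lit 620756993) (nat_lit 135266405) .nil,
   .two (nat_lit 620756993) (nat_lit 10336862222) (.one (nat_lit 183947493479) .nil),
   .two (nat_lit 16777217) (nat_lit 9934209129) .nil,
   .two (nat_lit 9766436865) (nat_lit 721420390) .nil,
   .two (nat_lit 9781116929) (nat_lit 641728616) .nil,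
   .two (nat_lit 9766436865) (nat_lit 183916036196) .nil,
   .two (nat_lit 41943041) (nat_lit 1358954501) (.two (nat_lit 1048576) (nat_lit 687865958) .nil),
   .two (nat_lit 37748737) (nat_lit 1947205736) .nil,
   .two (nat_lit 16777217) (nat_lit 675283050) .nil,
   .two (nat_lit 9766436865) (nat_lit 1929379943) .nil,
   .two (nat_lit 620756993) (nat_lit 2416967785) .nil,
   .two (nat_lit 156365750273) (nat_lit 1216348260) .nil,
   .two (nat_lit 156365750273) (nat_lit 183853121637) .nil,
   .two (nat_lit 1916796933) (nat_lit 673185804) (.two (nat_lit 2097152) (nat_lit 37249613953) .nil),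
   .two (nat_lit 16777220) (nat_lit 3464495109) (.two (nat_lit 8388609) (nat_lit 16777224) (.two (nat_lit 8388608) (nat_lit 166144770094) (.one (nat_lit 16777525) .nil))),
   .two (nat_lit 1276116996) (nat_lit 184419352584) (.two (nat_lit 4194304) (nat_lit 638582809) (.one (nat_lit 34603290) .nil)),
   .two (nat_lit 9934209029) (nat_lit 9781116943) (.one (nat_lit 706740350) .nil),
   .two (nat_lit 721420292) (nat_lit 156569174029) (.two (nat_lit 4194304) (nat_lit 11593056279) (.one (nat_lit 166144770310) .nil)),
   .two (nat_lit 739246085) (nat_lit 10942939160) (.one (nat_lit 28086108281) .nil),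
   .two (nat_lit 1343225861) (nat_lit 1310720024) (.one (nat_lit 28691136646) .nil),
   .two (nat_lit 16777221) (nat_lit 2887778308) (.two (nat_lit 16777217) (nat_lit 3525312527) (.one (nat_lit 3036676225) .nil)),
   .two (nat_lit 171966469) (nat_lit 158150426649) (.one (nat_lit 1182794267) .nil),
   .two (nat_lit 822083589) (nat_lit 1916796943) (.one (nat_lit 10552868996) .nil),
   .two (nat_lit 8388613) (nat_lit 10338959368) (.two (nat_lit 16777216) (nat_lit 746586213) (.one (nat_lit 8389159) .nil)),
   .two (nat_lit 605028357) (nat_lit 47555018757) (.two (nat_lit 4194305) (nat_lit 1779433485) (.two (nat_lit 4194304) (nat_lit 10000269338) (.one (nat_lit 1049128) .nil))),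
   .two (nat_lit 11479810053) (nat_lit 2416967694) (.two (nat_lit 8388608) (nat_lit 13224640554) (.one (nat_lit 10942939652) .nil)),
   .two (nat_lit 2902458372) (nat_lit 47548727301) (.two (nat_lit 2097153) (nat_lit 654311448) (.one (nat_lit 19597885577) .nil)),
   .two (nat_lit 16777221) (nat_lit 3531603973) (.two (nat_lit 8388609) (nat_lit 352321549) (.two (nat_lit 4194304) (nat_lit 158646403116) (.one (nat_lit 1376780806) .nil))),
   .two (nat_lit 4194308) (nat_lit 41943055) (.one (nat_lit 10540286074) .nil),
   .two (nat_lit 739246085) (nat_lit 3464495109) (.two (nat_lit 34603009) (nat_lit 4605345804) (.two (nat_lit 8388608) (nat_lit 1913651215) (.one (nat_lit 772800799) .nil))),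
   .two (nat_lit 28758245381) (nat_lit 135266316) (.two (nat_lit 1048576) (nat_lit 12148801662) .nil),
   .two (nat_lit 41943045) (nat_lit 184986632197) (.two (nat_lit 34603009) (nat_lit 713031688) (.two (nat_lit 1048576) (nat_lit 10544480299) (.one (nat_lit 8389161) .nil))),
   .two (nat_lit 13187940357) (nat_lit 13224640524) (.two (nat_lit 1048576) (nat_lit 9934209039) (.one (nat_lit 19597885735) .nil)),
   .two (nat_lit 822083589) (nat_lit 157038936072) (.two (nat_lit 4194304) (nat_lit 2332033068) (.one (nat_lit 10540286077) .nil)),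
   .two (nat_lit 1178599429) (nat_lit 20638072837) (.two (nat_lit 2097153) (nat_lit 12117344271) (.one (nat_lit 174688567418) .nil)),
   .two (nat_lit 41943045) (nat_lit 9781116933) (.two (nat_lit 50331649) (nat_lit 11618222145) .nil),
   .two (nat_lit 9948889093) (nat_lit 12114198533) (.two (nat_lit 34603009) (nat_lit 620757000) (.two (nat_lit 8388608) (nat_lit 184416206890) (.one (nat_lit 1048892) .nil))),
   .two (nat_lit 270532613) (nat_lit 679477261) (.two (nat_lit 1048576) (nat_lit 18926796843) (.one (nat_lit 2097706) .nil)),
   .two (nat_lit 713031684) (nat_lit 654311429) (.two (nat_lit 2097153) (nat_lit 10947133453) (.two (nat_lit 16777216) (nat_lit 46474985514) (.one (nat_lit 2097707) .nil))),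
   .two (nat_lit 46407876612) (nat_lit 18928893957) (.two (nat_lit 4194305) (nat_lit 9766436998) .nil),
   .two (nat_lit 4599054341) (nat_lit 1753219084) (.two (nat_lit 1048576) (nat_lit 28758245422) (.one (nat_lit 156969730326) .nil)),
   .two (nat_lit 9933160453) (nat_lit 9881780229) (.two (nat_lit 50331649) (nat_lit 165528207496) .nil),
   .two (nat_lit 272629765) (nat_lit 9766436872) (.two (nat_lit 2097152) (nat_lit 21814575147) (.one (nat_lit 2097708) .nil)),
   .two (nat_lit 50331653) (nat_lit 1175453704) (.two (nat_lit 1048576) (nat_lit 2969567282) (.one (nat_lit 1049133) .nil)),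
   .two (nat_lit 8388613) (nat_lit 4647288845) (.two (nat_lit 1048576) (nat_lit 2332033127) (.one (nat_lit 4598006024) .nil)),
   .two (nat_lit 708837381) (nat_lit 28757196805) (.two (nat_lit 606076929) (nat_lit 9866051608) (.one (nat_lit 11614027912) .nil)),
   .two (nat_lit 203423749) (nat_lit 1212153869) (.two (nat_lit 2097152) (nat_lit 11513364503) (.one (nat_lit 2097470) .nil)),
   .two (nat_lit 272629765) (nat_lit 165526110216) (.two (nat_lit 2097152) (nat_lit 1312817195) (.one (nat_lit 46407876733) .nil)),
   .two (nat_lit 41943045) (nat_lit 2889875461) (.two (nat_lit 4194305) (nat_lit 639631373) (.two (nat_lit 2097152) (nat_lit 12155093128) .nil)),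
   .two (nat_lit 1283457029) (nat_lit 46978301957) (.two (nat_lit 2097153) (nat_lit 9906946061) (.two (nat_lit 4194304) (nat_lit 2097256) (.one (nat_lit 2097710) .nil))),
   .two (nat_lit 9934209029) (nat_lit 158143086597) (.two (nat_lit 41943041) (nat_lit 21811429388) (.two (nat_lit 1048576) (nat_lit 9934209140) .nil)),
   .two (nat_lit 203423749) (nat_lit 1795162137) (.one (nat_lit 4599054472) .nil),
   .two (nat_lit 2969567237) (nat_lit 13191086085) (.two (nat_lit 16777217) (nat_lit 9802088461) (.two (nat_lit 4194304) (nat_lit 620757016) (.one (nat_lit 11580473480) .nil))),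
   .two (nat_lit 159217876997) (nat_lit 183853121540) (.two (nat_lit 41943041) (nat_lit 20638072847) (.one (nat_lit 10907287663) .nil)),
   .two (nat_lit 721420292) (nat_lit 1745879045) (.two (nat_lit 605028353) (nat_lit 11559501889) .nil),
   .two (nat_lit 46407876612) (nat_lit 165532401689) (.one (nat_lit 12633243784) .nil),
   .two (nat_lit 1277165573) (nat_lit 28093448216) (.one (nat_lit 183953784960) .nil),
   .two (nat_lit 11479810052) (nat_lit 10343153672) (.two (nat_lit 4194304) (nat_lit 310378539) (.one (nat_lit 138412157) .nil)),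
   .two (nat_lit 13195280389) (nat_lit 10940841989) (.two (nat_lit 606076929) (nat_lit 183853121551) (.one (nat_lit 11007950983) .nil)),
   .two (nat_lit 654311429) (nat_lit 158083317765) (.two (nat_lit 41943041) (nat_lit 10385096719) (.one (nat_lit 176160890) .nil)),
   .two (nat_lit 41943045) (nat_lit 11577327628) (.two (nat_lit 8388608) (nat_lit 1343225903) (.one (nat_lit 9765388584) .nil)),
   .two (nat_lit 176160772) (nat_lit 3460300824) (.one (nat_lit 742391931) .nil),
   .two (nat_lit 83886085) (nat_lit 1178599439) (.one (nat_lit 4030726283) .nil),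
   .two (nat_lit 13195280389) (nat_lit 166132187141) (.two (nat_lit 4194305) (nat_lit 18933088367) .nil),
   .two (nat_lit 2954887173) (nat_lit 9781116940) (.two (nat_lit 16777216) (nat_lit 166197198980) .nil),
   .two (nat_lit 9768534021) (nat_lit 28690087944) (.two (nat_lit 4194304) (nat_lit 772800637) .nil),
   .two (nat_lit 721420292) (nat_lit 1178599439) (.one (nat_lit 4030726283) .nil),
   .two (nat_lit 159216828421) (nat_lit 46978301960) (.two (nat_lit 4194304) (nat_lit 183845781519) (.one (nat_lit 19530777118) .nil)),
   .two (nat_lit 21778923525) (nat_lit 2416967693) (.two (nat_lit 1048576) (nat_lit 35651627) (.one (nat_lit 2097711) .nil)),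
   .two (nat_lit 171966469) (nat_lit 3525312517) (.two (nat_lit 4194305) (nat_lit 203423757) (.two (nat_lit 1048576) (nat_lit 165526110252) (.one (nat_lit 3557818632) .nil))),
   .two (nat_lit 9948889093) (nat_lit 1343225861) (.two (nat_lit 8388609) (nat_lit 620757004) (.two (nat_lit 1048576) (nat_lit 11559501945) .nil)),
   .two (nat_lit 16777221) (nat_lit 10940841992) (.two (nat_lit 2097152) (nat_lit 2969567255) (.one (nat_lit 46508540029) .nil)),
   .two (nat_lit 4194308) (nat_lit 218103823) (.one (nat_lit 3460301078) .nil),
   .two (nat_lit 28760342533) (nat_lit 156968681480) (.two (nat_lit 4194304) (nat_lit 101711898) (.one (nat_lit 8388932) .nil)),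
   .two (nat_lit 75497477) (nat_lit 1749024776) (.two (nat_lit 8388608) (nat_lit 21781020810) .nil),
   .two (nat_lit 2894069765) (nat_lit 174755676185) (.one (nat_lit 4194864) .nil),
   .two (nat_lit 16777220) (nat_lit 18928893957) (.two (nat_lit 4194305) (nat_lit 174701150339) .nil),
   .two (nat_lit 4194308) (nat_lit 12054429704) (.two (nat_lit 4194304) (nat_lit 20644364338) (.one (nat_lit 4194865) .nil)),
   .two (nat_lit 83886085) (nat_lit 272629765) (.two (nat_lit 605028353) (nat_lit 2420113421) (.two (nat_lit 8388608) (nat_lit 37262197058) .nil)),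
   .two (nat_lit 83886085) (nat_lit 166132187141) (.two (nat_lit 16777217) (nat_lit 156971827215) (.one (nat_lit 1916797063) .nil)),
   .two (nat_lit 639631365) (nat_lit 18925748232) (.two (nat_lit 16777216) (nat_lit 46507491600) .nil),
   .two (nat_lit 272629765) (nat_lit 46978301957) (.two (nat_lit 2097153) (nat_lit 2889875464) (.two (nat_lit 2097152) (nat_lit 742391858) (.one (nat_lit 46409974059) .nil))),
   .two (nat_lit 16777220) (nat_lit 639631375) (.one (nat_lit 185021235331) .nil),
   .two (nat_lit 605028357) (nat_lit 4605345797) (.two (nat_lit 4194305) (nat_lit 12114198536) (.two (nat_lit 4194304) (nat_lit 11618222129) (.one (nat_lit 8388934) .nil))),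
   .two (nat_lit 176160772) (nat_lit 4599054341) (.two (nat_lit 2097153) (nat_lit 310378522) (.one (nat_lit 1048903) .nil)),
   .two (nat_lit 9948889093) (nat_lit 1178599439) (.one (nat_lit 1753219208) .nil),
   .two (nat_lit 159217876997) (nat_lit 156372041733) (.two (nat_lit 41943041) (nat_lit 20638072847) (.one (nat_lit 1310720065) .nil)),
   .two (nat_lit 16777221) (nat_lit 11543773189) (.two (nat_lit 8388609) (nat_lit 12047089672) (.two (nat_lit 8388608) (nat_lit 18941477136) .nil)),
   .two (nat_lit 16777221) (nat_lit 183853121540) (.two (nat_lit 34603009) (nat_lit 2894069803) (.one (nat_lit 1049138) .nil)),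
   .two (nat_lit 8388613) (nat_lit 166130089989) (.two (nat_lit 2097153) (nat_lit 13195280392) (.two (nat_lit 4194304) (nat_lit 9766436879) (.one (nat_lit 2097715) .nil))),
   .two (nat_lit 159224168453) (nat_lit 166129041412) (.two (nat_lit 612368385) (nat_lit 1846542344) (.two (nat_lit 2097152) (nat_lit 10000269574) .nil)),
   .two (nat_lit 1779433477) (nat_lit 165532401672) (.two (nat_lit 1048576) (nat_lit 158083317783) (.one (nat_lit 9866051705) .nil)),
   .two (nat_lit 8388612) (nat_lit 171966469) (.two (nat_lit 4194305) (nat_lit 276824072) (.two (nat_lit 1048576) (nat_lit 158083317806) (.one (nat_lit 156968681745) .nil))),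
   .two (nat_lit 822083589) (nat_lit 19532873733) (.two (nat_lit 4194305) (nat_lit 1224736891) .nil),
   .two (nat_lit 9781116933) (nat_lit 159216828421) (.two (nat_lit 4194305) (nat_lit 117440527) (.one (nat_lit 165525061761) .nil)),
   .two (nat_lit 654311429) (nat_lit 159217876997) (.two (nat_lit 606076929) (nat_lit 10385096719) (.one (nat_lit 2418016393) .nil)),
   .two (nat_lit 4599054341) (nat_lit 12117344261) (.two (nat_lit 34603009) (nat_lit 1377828877) (.two (nat_lit 1048576) (nat_lit 21781020777) (.one (nat_lit 47550824992) .nil))),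
   .two (nat_lit 176160773) (nat_lit 47548727309) (.two (nat_lit 1048576) (nat_lit 10443817063) (.one (nat_lit 3457155394) .nil)),
   .two (nat_lit 822083589) (nat_lit 156968681477) (.two (nat_lit 34603009) (nat_lit 285212680) (.two (nat_lit 8388608) (nat_lit 638583046) .nil)),
   .two (nat_lit 34603013) (nat_lit 2902458373) (.two (nat_lit 2097153) (nat_lit 159216828430) (.two (nat_lit 4194304) (nat_lit 183913939208) .nil)),
   .two (nat_lit 11479810052) (nat_lit 156372041743) (.one (nat_lit 876609810) .nil),
   .two (nat_lit 822083589) (nat_lit 639631365) (.two (nat_lit 41943041) (nat_lit 10336862221) (.two (nat_lit 8388608) (nat_lit 16777322) (.one (nat_lit 165540790594) .nil))),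
   .two (nat_lit 705691652) (nat_lit 183853121551) (.one (nat_lit 2953838885) .nil),
   .two (nat_lit 605028357) (nat_lit 28758245389) (.two (nat_lit 4194304) (nat_lit 10369368391) .nil),
   .two (nat_lit 822083589) (nat_lit 2954887173) (.two (nat_lit 2097153) (nat_lit 156976021517) (.two (nat_lit 8388608) (nat_lit 11559502148) .nil)),
   .two (nat_lit 4605345797) (nat_lit 10506731525) (.two (nat_lit 9768534017) (nat_lit 4605345805) (.two (nat_lit 2097152) (nat_lit 1916797252) .nil)),
   .two (nat_lit 1276116996) (nat_lit 2420113421) (.two (nat_lit 16777216) (nat_lit 1276117007) (.one (nat_lit 1049141) .nil)),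
   .two (nat_lit 9781116933) (nat_lit 1947205644) (.two (nat_lit 4194304) (nat_lit 19529728015) (.one (nat_lit 1048905) .nil)),
   .two (nat_lit 713031685) (nat_lit 183845781512) (.two (nat_lit 8388608) (nat_lit 773849136) (.one (nat_lit 102760695) .nil)),
   .two (nat_lit 1191182341) (nat_lit 159217876997) (.two (nat_lit 606076929) (nat_lit 117440520) (.two (nat_lit 1048576) (nat_lit 102760713) .nil)),
   .two (nat_lit 9948889093) (nat_lit 10336862216) (.two (nat_lit 2097152) (nat_lit 1291845647) (.one (nat_lit 10001318013) .nil)),
   .two (nat_lit 169869316) (nat_lit 28757196805) (.two (nat_lit 16777217) (nat_lit 156566028424) .nil),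
   .two (nat_lit 9781116933) (nat_lit 18928893957) (.two (nat_lit 4194305) (nat_lit 11022631043) .nil),
   .two (nat_lit 2889875460) (nat_lit 159217876997) (.two (nat_lit 606076929) (nat_lit 3527409679) (.one (nat_lit 3527409729) .nil)),
   .two (nat_lit 620756997) (nat_lit 46414168072) (.two (nat_lit 8388608) (nat_lit 83886095) (.one (nat_lit 158150426906) .nil)),
   .two (nat_lit 8388613) (nat_lit 117440520) (.two (nat_lit 16777216) (nat_lit 176160783) (.one (nat_lit 1392509053) .nil)),
   .two (nat_lit 50331653) (nat_lit 46980399109) (.two (nat_lit 4194305) (nat_lit 11559501847) (.one (nat_lit 184989778192) .nil)),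
   .two (nat_lit 809500677) (nat_lit 1913651208) (.two (nat_lit 1048576) (nat_lit 159253528619) (.one (nat_lit 1049143) .nil)),
   .two (nat_lit 41943045) (nat_lit 11559501829) (.two (nat_lit 50331649) (nat_lit 713031695) (.one (nat_lit 10452205685) .nil)),
   .two (nat_lit 1291845637) (nat_lit 183848927237) (.two (nat_lit 16777217) (nat_lit 19599982607) (.one (nat_lit 46409974013) .nil)),
   .two (nat_lit 8388613) (nat_lit 10940841992) (.two (nat_lit 2097152) (nat_lit 13195280399) (.one (nat_lit 1853882630) .nil)),
   .two (nat_lit 721420293) (nat_lit 28760342533) (.two (nat_lit 34603009) (nat_lit 843055153) (.one (nat_lit 4194872) .nil)),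
   .two (nat_lit 1753219077) (nat_lit 21208498181) (.two (nat_lit 606076929) (nat_lit 156976021529) (.one (nat_lit 19094569077) .nil)),
   .two (nat_lit 2954887173) (nat_lit 158143086597) (.two (nat_lit 2097153) (nat_lit 20704133133) (.two (nat_lit 2097152) (nat_lit 46507491371) (.one (nat_lit 12115247390) .nil))),
   .two (nat_lit 4601151493) (nat_lit 184993972229) (.two (nat_lit 41943041) (nat_lit 166199296045) (.one (nat_lit 47584379214) .nil)),
   .two (nat_lit 16777221) (nat_lit 28758245381) (.two (nat_lit 9766436865) (nat_lit 3573547033) (.one (nat_lit 46978302073) .nil)),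
   .two (nat_lit 176160772) (nat_lit 2969567237) (.two (nat_lit 16777217) (nat_lit 10007609368) (.one (nat_lit 1862271093) .nil)),
   .two (nat_lit 10370416645) (nat_lit 1913651214) (.two (nat_lit 4194304) (nat_lit 1344274715) .nil),
   .two (nat_lit 184549380) (nat_lit 165526110213) (.two (nat_lit 2097153) (nat_lit 11022631035) .nil),
   .two (nat_lit 16777220) (nat_lit 9933160453) (.two (nat_lit 4194305) (nat_lit 47547678765) (.one (nat_lit 1376780424) .nil)),
   .two (nat_lit 4194308) (nat_lit 16777224) (.two (nat_lit 4194304) (nat_lit 2332033067) (.one (nat_lit 19130221059) .nil)),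
   .two (nat_lit 8388613) (nat_lit 3458203656) (.two (nat_lit 2097152) (nat_lit 1954545707) (.one (nat_lit 2097721) .nil)),
   .two (nat_lit 75497477) (nat_lit 174753579013) (.two (nat_lit 9765388289) (nat_lit 1948254220) (.two (nat_lit 1048576) (nat_lit 807403565) (.one (nat_lit 2097722) .nil))),
   .two (nat_lit 11492392965) (nat_lit 158083317768) (.two (nat_lit 8388608) (nat_lit 28101836843) (.one (nat_lit 47588573734) .nil)),
   .two (nat_lit 41943045) (nat_lit 10336862216) (.two (nat_lit 8388608) (nat_lit 169869338) (.one (nat_lit 2961178749) .nil)),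
   .two (nat_lit 8388612) (nat_lit 184419352584) (.two (nat_lit 4194304) (nat_lit 41943055) (.one (nat_lit 809500971) .nil)),
   .two (nat_lit 822083589) (nat_lit 11543773189) (.two (nat_lit 34603009) (nat_lit 11492392968) (.two (nat_lit 1048576) (nat_lit 218103858) (.one (nat_lit 3457155642) .nil))),
   .two (nat_lit 13191086085) (nat_lit 10343153676) (.two (nat_lit 8388608) (nat_lit 19130220594) (.one (nat_lit 21814575397) .nil)),
   .two (nat_lit 4605345797) (nat_lit 157036838917) (.two (nat_lit 4194305) (nat_lit 19128123433) (.one (nat_lit 2097487) .nil)),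
   .two (nat_lit 3525312517) (nat_lit 10939793416) (.two (nat_lit 2097152) (nat_lit 10369368090) (.one (nat_lit 4632608905) .nil)),
   .two (nat_lit 605028357) (nat_lit 4605345797) (.two (nat_lit 4194305) (nat_lit 12114198536) (.two (nat_lit 4194304) (nat_lit 1853882654) .nil)),
   .two (nat_lit 8388612) (nat_lit 171966469) (.two (nat_lit 4194305) (nat_lit 276824072) (.two (nat_lit 16777216) (nat_lit 156968681745) .nil)),
   .two (nat_lit 101711877) (nat_lit 157036838920) (.two (nat_lit 1048576) (nat_lit 2921332759) (.one (nat_lit 28691136637) .nil)),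
   .two (nat_lit 8388612) (nat_lit 9948889093) (.two (nat_lit 620756993) (nat_lit 47588573210) (.one (nat_lit 721420414) .nil)),
   .two (nat_lit 41943045) (nat_lit 3458203653) (.two (nat_lit 2097153) (nat_lit 11551113239) (.one (nat_lit 20745027873) .nil)),
   .two (nat_lit 11492392965) (nat_lit 166132187144) (.two (nat_lit 16777216) (nat_lit 166199296025) (.one (nat_lit 11492393207) .nil)),
   .two (nat_lit 8388612) (nat_lit 46510637069) (.two (nat_lit 4194304) (nat_lit 8388623) (.one (nat_lit 8389180) .nil)),
   .two (nat_lit 2889875460) (nat_lit 1913651214) (.two (nat_lit 2097152) (nat_lit 166199296289) .nil),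
   .two (nat_lit 713031684) (nat_lit 9866051589) (.two (nat_lit 34603009) (nat_lit 3531604096) .nil),
   .two (nat_lit 11546918917) (nat_lit 1913651208) (.two (nat_lit 4194304) (nat_lit 12047089690) (.one (nat_lit 12115247439) .nil)),
   .two (nat_lit 272629765) (nat_lit 46978301957) (.two (nat_lit 2097153) (nat_lit 2889875471) (.one (nat_lit 4194877) .nil)),
   .two (nat_lit 21777874949) (nat_lit 10504634373) (.two (nat_lit 9766436865) (nat_lit 156532473905) (.one (nat_lit 1947205943) .nil)),
   .two (nat_lit 270532613) (nat_lit 1916796936) (.two (nat_lit 1048576) (nat_lit 9867100175) (.one (nat_lit 1178599985) .nil)),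
   .two (nat_lit 46409973764) (nat_lit 10343153672) (.two (nat_lit 4194304) (nat_lit 10376708139) (.one (nat_lit 9768534578) .nil)),
   .two (nat_lit 9866051589) (nat_lit 9766436890) (.one (nat_lit 1745879161) .nil),
   .two (nat_lit 4194308) (nat_lit 117440517) (.two (nat_lit 620756993) (nat_lit 272629775) (.one (nat_lit 4634705985) .nil)),
   .two (nat_lit 285212677) (nat_lit 183848927236) (.two (nat_lit 37748737) (nat_lit 19529728015) (.one (nat_lit 28086108729) .nil)),
   .two (nat_lit 11559501829) (nat_lit 1846542344) (.two (nat_lit 4194304) (nat_lit 19529728015) (.one (nat_lit 16777554) .nil)),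
   .two (nat_lit 2954887173) (nat_lit 20637024260) (.two (nat_lit 2097153) (nat_lit 158143086617) (.one (nat_lit 9867100285) .nil)),
   .two (nat_lit 721420293) (nat_lit 166132187144) (.two (nat_lit 4194304) (nat_lit 1358954511) (.one (nat_lit 809500920) .nil)),
   .two (nat_lit 8388613) (nat_lit 19597885445) (.two (nat_lit 50331649) (nat_lit 4605345800) (.two (nat_lit 16777216) (nat_lit 4599054601) .nil)),
   .two (nat_lit 11559501829) (nat_lit 3527409669) (.two (nat_lit 4194305) (nat_lit 1191182351) (.one (nat_lit 183848927353) .nil)),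
   .two (nat_lit 8388613) (nat_lit 12047089669) (.two (nat_lit 8388609) (nat_lit 12147752973) (.two (nat_lit 8388608) (nat_lit 12147752984) (.one (nat_lit 1417675070) .nil))),
   .two (nat_lit 721420293) (nat_lit 11543773189) (.two (nat_lit 34603009) (nat_lit 21793603592) (.two (nat_lit 4194304) (nat_lit 156566028390) (.one (nat_lit 2316304955) .nil))),
   .two (nat_lit 50331653) (nat_lit 1913651205) (.two (nat_lit 9765388289) (nat_lit 788529177) (.one (nat_lit 158176641150) .nil)),
   .two (nat_lit 41943045) (nat_lit 21207449605) (.two (nat_lit 605028353) (nat_lit 13195280392) (.two (nat_lit 16777216) (nat_lit 159250383166) .nil)),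
   .two (nat_lit 11559501829) (nat_lit 209715205) (.two (nat_lit 9765388289) (nat_lit 184431935624) .nil),
   .two (nat_lit 11479810052) (nat_lit 156365750296) (.one (nat_lit 2353004669) .nil),
   .two (nat_lit 9934209029) (nat_lit 156968681477) (.two (nat_lit 41943041) (nat_lit 47581233200) (.one (nat_lit 1049153) .nil)),
   .two (nat_lit 2889875460) (nat_lit 13195280389) (.two (nat_lit 41943041) (nat_lit 2956984345) (.one (nat_lit 209715498) .nil)),
   .two (nat_lit 34603013) (nat_lit 28693233688) (.one (nat_lit 1410334849) .nil),
   .two (nat_lit 9948889093) (nat_lit 1310720013) (.two (nat_lit 2097152) (nat_lit 28772925482) (.one (nat_lit 1191182891) .nil)),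
   .two (nat_lit 101711877) (nat_lit 19096666126) (.two (nat_lit 2097152) (nat_lit 9765388619) .nil),
   .two (nat_lit 184549380) (nat_lit 2889875470) (.two (nat_lit 4194304) (nat_lit 318767130) (.one (nat_lit 2936013089) .nil)),
   .two (nat_lit 1176502277) (nat_lit 18928893960) (.two (nat_lit 8388608) (nat_lit 809500698) (.one (nat_lit 183846830415) .nil)),
   .two (nat_lit 2889875460) (nat_lit 10538188812) (.two (nat_lit 4194304) (nat_lit 46474985593) .nil),
   .two (nat_lit 806354949) (nat_lit 46980399112) (.two (nat_lit 2097152) (nat_lit 12050235672) .nil),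
   .two (nat_lit 822083589) (nat_lit 1916796933) (.two (nat_lit 9768534017) (nat_lit 11492393025) .nil),
   .two (nat_lit 721420292) (nat_lit 3531603973) (.two (nat_lit 8388609) (nat_lit 1392508952) (.one (nat_lit 157043130497) .nil)),
   .two (nat_lit 1344274437) (nat_lit 276824090) (.one (nat_lit 1780482177) .nil),
   .two (nat_lit 16777221) (nat_lit 203423749) (.two (nat_lit 2097153) (nat_lit 184549384) (.two (nat_lit 2097152) (nat_lit 1795162237) .nil)),
   .two (nat_lit 8388612) (nat_lit 809500677) (.two (nat_lit 8388609) (nat_lit 1344274445) (.two (nat_lit 4194304) (nat_lit 304087375) .nil)),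
   .two (nat_lit 822083589) (nat_lit 157038936072) (.two (nat_lit 2097152) (nat_lit 708837419) (.one (nat_lit 4194883) .nil)),
   .two (nat_lit 822083589) (nat_lit 12054429701) (.two (nat_lit 41943041) (nat_lit 4647288879) (.one (nat_lit 165540790601) .nil)),
   .two (nat_lit 285212677) (nat_lit 183848927236) (.two (nat_lit 37748737) (nat_lit 2902458433) .nil),
   .two (nat_lit 4194308) (nat_lit 157035790349) (.two (nat_lit 16777216) (nat_lit 2319450155) (.one (nat_lit 4194884) .nil)),
   .two (nat_lit 41943045) (nat_lit 839909390) (.two (nat_lit 1048576) (nat_lit 19109249345) .nil),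
   .two (nat_lit 1343225861) (nat_lit 142606361) (.one (nat_lit 156532473993) .nil),
   .two (nat_lit 285212677) (nat_lit 4601151493) (.two (nat_lit 4194305) (nat_lit 2902458383) (.one (nat_lit 174755676297) .nil)),
   .two (nat_lit 713031684) (nat_lit 10336862213) (.two (nat_lit 606076929) (nat_lit 21785214984) (.two (nat_lit 1048576) (nat_lit 236978451) .nil)),
   .two (nat_lit 809500677) (nat_lit 46407876612) (.two (nat_lit 37748737) (nat_lit 3525312537) (.one (nat_lit 12150898817) .nil)),
   .two (nat_lit 620756997) (nat_lit 3464495109) (.two (nat_lit 8388609) (nat_lit 185002360874) (.one (nat_lit 2432696639) .nil)),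
   .two (nat_lit 34603013) (nat_lit 37316722701) (.two (nat_lit 2097152) (nat_lit 9798942763) (.one (nat_lit 3020948009) .nil)),
   .two (nat_lit 11476664324) (nat_lit 3527409669) (.two (nat_lit 4194305) (nat_lit 1913651215) (.one (nat_lit 184419352702) .nil)),
   .two (nat_lit 4194308) (nat_lit 166130089989) (.two (nat_lit 2097153) (nat_lit 272629768) (.two (nat_lit 16777216) (nat_lit 47548727597) .nil)),
   .two (nat_lit 8388612) (nat_lit 11546918917) (.two (nat_lit 37748737) (nat_lit 4605345800) (.two (nat_lit 16777216) (nat_lit 1377829111) .nil)),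
   .two (nat_lit 705691652) (nat_lit 166197198861) (.two (nat_lit 8388608) (nat_lit 10537140267) (.one (nat_lit 1049158) .nil)),
   .two (nat_lit 10506731525) (nat_lit 28086108168) (.two (nat_lit 1048576) (nat_lit 4601151513) (.one (nat_lit 156566028550) .nil)),
   .two (nat_lit 2954887173) (nat_lit 156971827205) (.two (nat_lit 37748737) (nat_lit 166130089998) (.two (nat_lit 8388608) (nat_lit 37749057) .nil)),
   .two (nat_lit 612368389) (nat_lit 159217877006) (.two (nat_lit 4194304) (nat_lit 1283457355) .nil),
   .two (nat_lit 9933160453) (nat_lit 157036838920) (.two (nat_lit 4194304) (nat_lit 1377828907) (.one (nat_lit 2097736) .nil)),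
   .two (nat_lit 9933160453) (nat_lit 2902458373) (.two (nat_lit 4194305) (nat_lit 638582810) (.one (nat_lit 159232557395) .nil)),
   .two (nat_lit 169869316) (nat_lit 21223178245) (.two (nat_lit 620756993) (nat_lit 304087066) (.one (nat_lit 9936306511) .nil)),
   .two (nat_lit 156372041733) (nat_lit 21207449605) (.two (nat_lit 605028353) (nat_lit 19604176920) (.one (nat_lit 11577327742) .nil)),
   .two (nat_lit 2097157) (nat_lit 11492392968) (.two (nat_lit 1048576) (nat_lit 9814671632) .nil),
   .two (nat_lit 41943045) (nat_lit 2969567237) (.two (nat_lit 16777217) (nat_lit 102760461) (.two (nat_lit 2097152) (nat_lit 2432696365) (.one (nat_lit 16777803) .nil))),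
   .two (nat_lit 713031685) (nat_lit 1191182341) (.two (nat_lit 16777217) (nat_lit 12054429704) (.two (nat_lit 2097152) (nat_lit 11484004378) (.one (nat_lit 8389196) .nil))),
   .two (nat_lit 3531603973) (nat_lit 21208498181) (.two (nat_lit 606076929) (nat_lit 1753219080) (.two (nat_lit 1048576) (nat_lit 2317353287) .nil)),
   .two (nat_lit 101711877) (nat_lit 28758245381) (.two (nat_lit 605028353) (nat_lit 156533522445) (.two (nat_lit 2097152) (nat_lit 13221494829) (.one (nat_lit 9966715467) .nil))),
   .two (nat_lit 176160773) (nat_lit 1745879053) (.two (nat_lit 16777216) (nat_lit 13195280426) (.one (nat_lit 8389197) .nil)),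
   .two (nat_lit 11546918917) (nat_lit 19596836872) (.two (nat_lit 4194304) (nat_lit 739246106) (.one (nat_lit 203424068) .nil)),
   .two (nat_lit 4194308) (nat_lit 16777221) (.two (nat_lit 16777217) (nat_lit 809500687) (.one (nat_lit 158091706485) .nil)),
   .two (nat_lit 169869316) (nat_lit 11559501829) (.two (nat_lit 50331649) (nat_lit 159217877000) (.two (nat_lit 16777216) (nat_lit 21208498200) (.one (nat_lit 21827158137) .nil))),
   .two (nat_lit 2956984325) (nat_lit 165526110216) (.two (nat_lit 1048576) (nat_lit 304087083) (.one (nat_lit 2097742) .nil)),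
   .two (nat_lit 605028357) (nat_lit 713031684) (.two (nat_lit 34603009) (nat_lit 46514831403) (.one (nat_lit 10369368631) .nil)),
   .two (nat_lit 8388612) (nat_lit 9948889093) (.two (nat_lit 620756993) (nat_lit 11484004377) (.one (nat_lit 12163481721) .nil)),
   .two (nat_lit 50331653) (nat_lit 203423759) (.one (nat_lit 352321657) .nil),
   .two (nat_lit 46407876612) (nat_lit 9802088460) (.two (nat_lit 4194304) (nat_lit 606077050) .nil),
   .two (nat_lit 705691652) (nat_lit 9948889101) (.two (nat_lit 16777216) (nat_lit 2920284203) (.one (nat_lit 1376780868) .nil)),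
   .two (nat_lit 2894069765) (nat_lit 47548727310) (.two (nat_lit 4194304) (nat_lit 28697428266) .nil),
   .two (nat_lit 11543773189) (nat_lit 28093448216) (.one (nat_lit 156968681593) .nil),
   .two (nat_lit 806354949) (nat_lit 157038936072) (.two (nat_lit 2097152) (nat_lit 2889875482) (.one (nat_lit 9866051908) .nil)),
   .two (nat_lit 47548727301) (nat_lit 20637024260) (.two (nat_lit 2097153) (nat_lit 158075977736) (.two (nat_lit 2097152) (nat_lit 605028377) (.one (nat_lit 337641609) .nil))),
   .two (nat_lit 2954887173) (nat_lit 19093520409) (.one (nat_lit 183853121672) .nil),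
   .two (nat_lit 41943045) (nat_lit 46407876612) (.two (nat_lit 41943041) (nat_lit 47548727321) (.one (nat_lit 165532401790) .nil)),
   .two (nat_lit 176160772) (nat_lit 285212677) (.two (nat_lit 16777217) (nat_lit 158083317784) (.one (nat_lit 1862271113) .nil)),
   .two (nat_lit 1276116996) (nat_lit 12117344270) (.two (nat_lit 16777216) (nat_lit 165528207496) .nil),
   .two (nat_lit 8388612) (nat_lit 1746927629) (.two (nat_lit 16777216) (nat_lit 174692761643) (.one (nat_lit 19033752111) .nil)),
   .two (nat_lit 83886085) (nat_lit 10504634373) (.two (nat_lit 9766436865) (nat_lit 1358954504) (.two (nat_lit 4194304) (nat_lit 1344274697) .nil)),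
   .two (nat_lit 47548727301) (nat_lit 1178599427) (.two (nat_lit 9768534017) (nat_lit 46474985486) (.two (nat_lit 4194304) (nat_lit 20705181747) (.one (nat_lit 3525312674) .nil))),
   .two (nat_lit 2887778308) (nat_lit 620756995) (.two (nat_lit 620756993) (nat_lit 3525312520) (.two (nat_lit 16777216) (nat_lit 639631375) (.one (nat_lit 706740305) .nil))),
   .two (nat_lit 2889875460) (nat_lit 9781116931) (.two (nat_lit 9781116929) (nat_lit 9768534024) (.two (nat_lit 16777216) (nat_lit 9768534031) (.one (nat_lit 4030726233) .nil))),
   .two (nat_lit 41943045) (nat_lit 721420291) (.two (nat_lit 50331649) (nat_lit 159224168460) (.two (nat_lit 16777216) (nat_lit 10007609384) (.one (nat_lit 11584667741) .nil))),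
   .two (nat_lit 46414168068) (nat_lit 37748739) (.two (nat_lit 37748737) (nat_lit 10343153672) (.two (nat_lit 4194304) (nat_lit 156372041752) (.one (nat_lit 243269715) .nil))),
   .two (nat_lit 184549380) (nat_lit 10370416643) (.two (nat_lit 9766436865) (nat_lit 2969567240) (.two (nat_lit 2097152) (nat_lit 2969567247) (.one (nat_lit 47596961862) .nil))),
   .two (nat_lit 8388612) (nat_lit 46980399109) (.two (nat_lit 4194305) (nat_lit 41943048) (.two (nat_lit 8388608) (nat_lit 13191086102) (.one (nat_lit 1782579337) .nil))),
   .two (nat_lit 169869316) (nat_lit 18933088259) (.two (nat_lit 156372041729) (nat_lit 9934209032) (.two (nat_lit 8388608) (nat_lit 9934209039) (.one (nat_lit 19597885509) .nil))),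
   .two (nat_lit 169869316) (nat_lit 18933088259) (.two (nat_lit 156372041729) (nat_lit 47548727304) (.two (nat_lit 8388608) (nat_lit 47548727311) (.one (nat_lit 69206105) .nil))),
   .two (nat_lit 16777221) (nat_lit 612368387) (.two (nat_lit 612368385) (nat_lit 184549384) (.two (nat_lit 8388608) (nat_lit 184549391) (.one (nat_lit 1325400153) .nil))),
   .two (nat_lit 2887778308) (nat_lit 620756995) (.two (nat_lit 620756993) (nat_lit 639631368) (.two (nat_lit 16777216) (nat_lit 639631375) (.one (nat_lit 1746927685) .nil))),
   .two (nat_lit 2889875460) (nat_lit 9781116931) (.two (nat_lit 9781116929) (nat_lit 9768534024) (.two (nat_lit 16777216) (nat_lit 9768534031) (.one (nat_lit 47584378969) .nil))),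
   .two (nat_lit 176160772) (nat_lit 83886083) (.two (nat_lit 620756993) (nat_lit 612368392) (.two (nat_lit 16777216) (nat_lit 612368399) (.one (nat_lit 243269721) .nil))),
   .two (nat_lit 9934209029) (nat_lit 184549379) (.two (nat_lit 16777217) (nat_lit 10538188814) (.two (nat_lit 16777216) (nat_lit 10336862259) (.one (nat_lit 183846830239) .nil))),
   .two (nat_lit 612368389) (nat_lit 16777219) (.two (nat_lit 16777217) (nat_lit 75497480) (.two (nat_lit 16777216) (nat_lit 75497487) (.one (nat_lit 12155093081) .nil))),
   .two (nat_lit 169869314) (nat_lit 9768534019) (.two (nat_lit 2097153) (nat_lit 10506731532) (.two (nat_lit 2097152) (nat_lit 46477082646) (.one (nat_lit 4194656) .nil))),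
   .two (nat_lit 41943045) (nat_lit 18925748227) (.two (nat_lit 156364701697) (nat_lit 713031688) (.two (nat_lit 1048576) (nat_lit 713031695) (.one (nat_lit 158183981145) .nil))),
   .two (nat_lit 184549380) (nat_lit 176160771) (.two (nat_lit 8388609) (nat_lit 620757000) (.two (nat_lit 8388608) (nat_lit 620757007) (.one (nat_lit 3573547097) .nil))),
   .two (nat_lit 1916796933) (nat_lit 46414168068) (.two (nat_lit 8388609) (nat_lit 10003415050) (.two (nat_lit 4194304) (nat_lit 4605345803) (.one (nat_lit 4194657) .nil))),
   .two (nat_lit 612368389) (nat_lit 184549379) (.two (nat_lit 16777217) (nat_lit 75497480) (.two (nat_lit 16777216) (nat_lit 75497487) (.one (nat_lit 12155093081) .nil))),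
   .two (nat_lit 4605345797) (nat_lit 19599982597) (.two (nat_lit 9768534017) (nat_lit 46414168072) (.two (nat_lit 4194304) (nat_lit 46414168079) (.one (nat_lit 3028287566) .nil))),
   .two (nat_lit 705691650) (nat_lit 165526110211) (.two (nat_lit 605028353) (nat_lit 10907287565) (.two (nat_lit 1048576) (nat_lit 19027460117) (.one (nat_lit 2097506) .nil))),
   .two (nat_lit 4194308) (nat_lit 10343153669) (.two (nat_lit 612368385) (nat_lit 13191086088) (.two (nat_lit 8388608) (nat_lit 13191086095) (.one (nat_lit 183949590606) .nil))),
   .two (nat_lit 46414168068) (nat_lit 4194307) (.two (nat_lit 4194305) (nat_lit 10343153672) (.two (nat_lit 4194304) (nat_lit 156372041752) (.one (nat_lit 243269715) .nil))),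
   .two (nat_lit 11492392964) (nat_lit 68157443) (.two (nat_lit 605028353) (nat_lit 117440520) (.two (nat_lit 1048576) (nat_lit 117440527) (.one (nat_lit 2936012877) .nil))),
   .two (nat_lit 2889875460) (nat_lit 50331651) (.two (nat_lit 50331649) (nat_lit 10506731528) (.two (nat_lit 16777216) (nat_lit 10506731535) (.one (nat_lit 2956984409) .nil))),
   .two (nat_lit 158143086597) (nat_lit 19530776579) (.two (nat_lit 156365750273) (nat_lit 21207449608) (.two (nat_lit 2097152) (nat_lit 21207449615) (.one (nat_lit 1745879129) .nil))),
   .two (nat_lit 176160772) (nat_lit 721420291) (.two (nat_lit 50331649) (nat_lit 612368392) (.two (nat_lit 16777216) (nat_lit 612368399) (.one (nat_lit 243269721) .nil))),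
   .two (nat_lit 8388612) (nat_lit 183848927235) (.two (nat_lit 37748737) (nat_lit 4605345800) (.two (nat_lit 4194304) (nat_lit 4605345808) (.one (nat_lit 13195280553) .nil))),
   .two (nat_lit 183853121538) (nat_lit 183848927236) (.two (nat_lit 41943041) (nat_lit 183848927240) (.two (nat_lit 8388608) (nat_lit 183848927247) (.one (nat_lit 166199296077) .nil))),
   .two (nat_lit 46414168066) (nat_lit 4194308) (.two (nat_lit 8388609) (nat_lit 809500680) (.two (nat_lit 8388608) (nat_lit 809500687) (.one (nat_lit 165528207437) .nil))),
   .two (nat_lit 1277165570) (nat_lit 156367847427) (.two (nat_lit 9766436865) (nat_lit 157038936076) (.two (nat_lit 2097152) (nat_lit 46409973781) (.one (nat_lit 28793897307) .nil))),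
   .two (nat_lit 159217876997) (nat_lit 18925748227) (.two (nat_lit 156364701697) (nat_lit 159251431436) (.two (nat_lit 1048576) (nat_lit 158144135208) (.one (nat_lit 165526110301) .nil))),
   .two (nat_lit 34603013) (nat_lit 1191182339) (.two (nat_lit 9781116929) (nat_lit 158176641038) (.two (nat_lit 16777216) (nat_lit 873463863) (.one (nat_lit 1048768) .nil))),
   .two (nat_lit 46407876612) (nat_lit 20644364291) (.two (nat_lit 612368385) (nat_lit 157036838920) (.two (nat_lit 8388608) (nat_lit 157036838927) (.one (nat_lit 47548727385) .nil))),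
   .two (nat_lit 1745879045) (nat_lit 606076931) (.two (nat_lit 606076929) (nat_lit 2349858829) (.two (nat_lit 2097152) (nat_lit 1048742) (.one (nat_lit 1048742) .nil))),
   .two (nat_lit 4194308) (nat_lit 11476664328) (.two (nat_lit 8388609) (nat_lit 605028419) (.one (nat_lit 168821334) .nil)),
   .two (nat_lit 4194308) (nat_lit 11476664335) (.two (nat_lit 1048576) (nat_lit 169869423) (.one (nat_lit 34603605) .nil)),
   .two (nat_lit 4194308) (nat_lit 2887778312) (.two (nat_lit 34603009) (nat_lit 69206133) (.one (nat_lit 1048934) .nil)),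
   .two (nat_lit 41943045) (nat_lit 705691663) (.two (nat_lit 1048576) (nat_lit 11484004469) (.one (nat_lit 269484635) .nil)),
   .two (nat_lit 4194308) (nat_lit 9766436872) (.two (nat_lit 2097153) (nat_lit 1283457141) (.one (nat_lit 1344275045) .nil)),
   .two (nat_lit 4194308) (nat_lit 739246103) (.two (nat_lit 8388608) (nat_lit 169869669) .nil),
   .two (nat_lit 272629765) (nat_lit 203423757) (.two (nat_lit 2097153) (nat_lit 272629784) (.two (nat_lit 1048576) (nat_lit 37748853) (.one (nat_lit 68158041) .nil))),
   .two (nat_lit 8388613) (nat_lit 11543773207) (.two (nat_lit 2097152) (nat_lit 2956984435) (.one (nat_lit 9866052183) .nil)),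
   .two (nat_lit 8388613) (nat_lit 2954887191) (.two (nat_lit 1048576) (nat_lit 37748853) (.one (nat_lit 68158043) .nil)),
   .two (nat_lit 4194308) (nat_lit 639631384) (.two (nat_lit 4194304) (nat_lit 639631470) (.one (nat_lit 9934209634) .nil)),
   .two (nat_lit 9934209029) (nat_lit 1779433487) (.two (nat_lit 2097152) (nat_lit 11543773542) .nil),
   .two (nat_lit 4194308) (nat_lit 8388623) (.two (nat_lit 4194304) (nat_lit 739246438) .nil),
   .two (nat_lit 809500677) (nat_lit 203423768) (.two (nat_lit 1048576) (nat_lit 9934209134) (.one (nat_lit 1277166179) .nil)),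
   .two (nat_lit 41943045) (nat_lit 9934209048) (.two (nat_lit 4194304) (nat_lit 639631470) (.one (nat_lit 1277166175) .nil)),
   .two (nat_lit 184549381) (nat_lit 1849688079) (.two (nat_lit 4194304) (nat_lit 12054429816) (.one (nat_lit 3560964789) .nil)),
   .two (nat_lit 184549380) (nat_lit 104857608) (.two (nat_lit 16777217) (nat_lit 184993972344) (.one (nat_lit 37749480) .nil)),
   .two (nat_lit 166132187140) (nat_lit 12054429720) (.two (nat_lit 4194304) (nat_lit 12054429806) (.one (nat_lit 174759871123) .nil)),
   .two (nat_lit 16777220) (nat_lit 184993972232) (.two (nat_lit 16777217) (nat_lit 847249433) (.two (nat_lit 1048576) (nat_lit 3028287614) (.one (nat_lit 83886775) .nil))),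
   .two (nat_lit 184549380) (nat_lit 46984593416) (.two (nat_lit 620756993) (nat_lit 166129041423) (.two (nat_lit 4194304) (nat_lit 68157799) .nil)),
   .two (nat_lit 41943045) (nat_lit 11626610714) (.two (nat_lit 2097152) (nat_lit 28798091382) (.one (nat_lit 35651945) .nil)),
   .two (nat_lit 50331653) (nat_lit 184423546888) (.two (nat_lit 612368385) (nat_lit 740294778) (.one (nat_lit 11007951211) .nil)),
   .two (nat_lit 2902458373) (nat_lit 1753219087) (.two (nat_lit 8388608) (nat_lit 620757110) (.one (nat_lit 2961178983) .nil)),
   .two (nat_lit 176160772) (nat_lit 3539992584) (.two (nat_lit 16777217) (nat_lit 10376708234) (.one (nat_lit 184550079) .nil)),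
   .two (nat_lit 721420292) (nat_lit 183853121544) (.two (nat_lit 620756993) (nat_lit 28691136527) (.two (nat_lit 2097152) (nat_lit 11014242436) (.one (nat_lit 13228835484) .nil))),
   .two (nat_lit 75497477) (nat_lit 9881780239) (.two (nat_lit 4194304) (nat_lit 158653743218) (.one (nat_lit 71303529) .nil)),
   .two (nat_lit 16777220) (nat_lit 1849688079) (.two (nat_lit 4194304) (nat_lit 185027526781) (.one (nat_lit 21785215666) .nil)),
   .two (nat_lit 2902458373) (nat_lit 1849688079) (.two (nat_lit 8388608) (nat_lit 174755676276) (.one (nat_lit 3560964827) .nil)),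
   .two (nat_lit 1291845637) (nat_lit 46984593416) (.two (nat_lit 8388609) (nat_lit 3036676122) (.two (nat_lit 2097152) (nat_lit 1350566247) .nil)),
   .two (nat_lit 16777220) (nat_lit 156372041736) (.two (nat_lit 8388609) (nat_lit 16777324) (.one (nat_lit 10552869578) .nil)),
   .two (nat_lit 8388613) (nat_lit 3539992584) (.two (nat_lit 612368385) (nat_lit 19529728015) (.two (nat_lit 1048576) (nat_lit 1291845752) (.one (nat_lit 1175454397) .nil))),
   .two (nat_lit 209715205) (nat_lit 218103816) (.two (nat_lit 612368385) (nat_lit 19529728015) (.two (nat_lit 16777216) (nat_lit 156532473972) (.one (nat_lit 28086108798) .nil))),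
   .two (nat_lit 16777220) (nat_lit 12114198554) (.two (nat_lit 16777216) (nat_lit 2418016502) (.one (nat_lit 47547679436) .nil)),
   .two (nat_lit 176160773) (nat_lit 754974735) (.two (nat_lit 2097152) (nat_lit 166136381561) (.one (nat_lit 11611931258) .nil)),
   .two (nat_lit 11559501829) (nat_lit 11517558797) (.two (nat_lit 8388609) (nat_lit 156969730063) (.two (nat_lit 16777216) (nat_lit 874512512) (.one (nat_lit 11492393324) .nil))),
   .two (nat_lit 721420292) (nat_lit 28758245388) (.two (nat_lit 2097153) (nat_lit 11559501839) (.two (nat_lit 16777216) (nat_lit 1847590977) (.one (nat_lit 158647452006) .nil))),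
   .two (nat_lit 50331653) (nat_lit 156364701710) (.two (nat_lit 37748737) (nat_lit 156364701763) (.one (nat_lit 183912890731) .nil)),
   .two (nat_lit 1176502277) (nat_lit 158158815240) (.two (nat_lit 2097153) (nat_lit 19604176911) (.two (nat_lit 4194304) (nat_lit 2994733416) .nil)),
   .two (nat_lit 21208498181) (nat_lit 2923429912) (.two (nat_lit 2097152) (nat_lit 2923429998) (.one (nat_lit 166232851141) .nil)),
   .two (nat_lit 183848927236) (nat_lit 28758245388) (.two (nat_lit 2097153) (nat_lit 184419352591) (.two (nat_lit 4194304) (nat_lit 158144135233) (.one (nat_lit 840958311) .nil))),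
   .two (nat_lit 117440517) (nat_lit 166129041416) (.two (nat_lit 8388609) (nat_lit 9781116943) (.two (nat_lit 4194304) (nat_lit 1954546025) .nil)),
   .two (nat_lit 184549380) (nat_lit 1753219087) (.two (nat_lit 8388608) (nat_lit 9881780335) (.one (nat_lit 158192370320) .nil)),
   .two (nat_lit 184549381) (nat_lit 166132187151) (.two (nat_lit 16777216) (nat_lit 166132187202) (.one (nat_lit 71303527) .nil)),
   .two (nat_lit 1344274437) (nat_lit 11559501832) (.two (nat_lit 9766436865) (nat_lit 1749024783) (.two (nat_lit 4194304) (nat_lit 47582281999) (.one (nat_lit 4195049) .nil))),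
   .two (nat_lit 8388612) (nat_lit 183845781512) (.two (nat_lit 2097153) (nat_lit 2953838637) (.two (nat_lit 2097152) (nat_lit 1276117115) (.one (nat_lit 20638073192) .nil))),
   .two (nat_lit 50331653) (nat_lit 20638072845) (.two (nat_lit 2097153) (nat_lit 174768259205) (.one (nat_lit 2418016980) .nil)),
   .two (nat_lit 176160772) (nat_lit 13221494796) (.two (nat_lit 612368385) (nat_lit 773849216) (.one (nat_lit 37314625896) .nil)),
   .two (nat_lit 9948889093) (nat_lit 2956984334) (.two (nat_lit 4194305) (nat_lit 174759870479) (.two (nat_lit 2097152) (nat_lit 889192808) .nil)),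
   .two (nat_lit 10504634373) (nat_lit 1745879055) (.two (nat_lit 1048576) (nat_lit 158177689719) (.one (nat_lit 12147753588) .nil)),
   .two (nat_lit 2097157) (nat_lit 285212680) (.two (nat_lit 16777217) (nat_lit 3020947501) (.two (nat_lit 1048576) (nat_lit 12633243924) (.one (nat_lit 20753416552) .nil))),
   .two (nat_lit 158143086597) (nat_lit 18928893960) (.two (nat_lit 37748737) (nat_lit 21207449666) (.one (nat_lit 184416207479) .nil)),
   .two (nat_lit 1276116996) (nat_lit 18928893960) (.two (nat_lit 37748737) (nat_lit 21207449667) (.one (nat_lit 1279263343) .nil)),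
   .two (nat_lit 4194308) (nat_lit 174686470158) (.two (nat_lit 2097153) (nat_lit 272629784) (.two (nat_lit 1048576) (nat_lit 11578376325) (.one (nat_lit 3524264297) .nil))),
   .two (nat_lit 176160772) (nat_lit 174686470158) (.two (nat_lit 2097153) (nat_lit 176160783) (.two (nat_lit 1048576) (nat_lit 8388675) (.one (nat_lit 1049322) .nil))),
   .two (nat_lit 9934209029) (nat_lit 1358954504) (.two (nat_lit 41943041) (nat_lit 9799991428) (.one (nat_lit 183861510791) .nil)),
   .two (nat_lit 8388612) (nat_lit 11492392975) (.two (nat_lit 16777216) (nat_lit 20644364412) (.one (nat_lit 10913579640) .nil)),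
   .two (nat_lit 169869316) (nat_lit 1350565896) (.two (nat_lit 2097153) (nat_lit 104857615) (.two (nat_lit 4194304) (nat_lit 746586249) (.one (nat_lit 28791800540) .nil))),
   .two (nat_lit 2097157) (nat_lit 8388616) (.two (nat_lit 606076929) (nat_lit 1175453711) (.two (nat_lit 1048576) (nat_lit 19604177019) (.one (nat_lit 2886730086) .nil))),
   .two (nat_lit 20637024260) (nat_lit 1916796953) (.two (nat_lit 1048576) (nat_lit 159253528700) (.one (nat_lit 156569174667) .nil)),
   .two (nat_lit 16777220) (nat_lit 12050235400) (.two (nat_lit 16777217) (nat_lit 158077026319) (.two (nat_lit 2097152) (nat_lit 12620660857) (.one (nat_lit 10504634728) .nil))),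
   .two (nat_lit 708837381) (nat_lit 1358954504) (.two (nat_lit 4194305) (nat_lit 28087156751) (.two (nat_lit 2097152) (nat_lit 19142803590) (.one (nat_lit 10907287916) .nil))),
   .two (nat_lit 620756997) (nat_lit 10343153679) (.two (nat_lit 8388608) (nat_lit 1291845697) (.one (nat_lit 183861510888) .nil)),
   .two (nat_lit 218103813) (nat_lit 185020186649) (.two (nat_lit 2097152) (nat_lit 303038588) (.one (nat_lit 336593577) .nil)),
   .two (nat_lit 809500677) (nat_lit 1847590927) (.two (nat_lit 2097152) (nat_lit 675283063) (.one (nat_lit 2420114060) .nil)),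
   .two (nat_lit 285212677) (nat_lit 47548727309) (.two (nat_lit 2097153) (nat_lit 352321560) (.two (nat_lit 1048576) (nat_lit 20719861886) (.one (nat_lit 28086108867) .nil))),
   .two (nat_lit 1291845636) (nat_lit 21785215000) (.two (nat_lit 16777216) (nat_lit 21785215085) (.one (nat_lit 12155093629) .nil)),
   .two (nat_lit 713031685) (nat_lit 9781116943) (.two (nat_lit 16777216) (nat_lit 183853121646) (.one (nat_lit 37253808850) .nil)),
   .two (nat_lit 9934209029) (nat_lit 2424307724) (.two (nat_lit 50331649) (nat_lit 183846830128) (.two (nat_lit 16777216) (nat_lit 2097435) (.one (nat_lit 9781117291) .nil))),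
   .two (nat_lit 166129041412) (nat_lit 11626610714) (.two (nat_lit 2097152) (nat_lit 721420406) (.one (nat_lit 855638739) .nil)),
   .two (nat_lit 620756997) (nat_lit 12620660749) (.two (nat_lit 37748737) (nat_lit 1358954511) (.two (nat_lit 4194304) (nat_lit 9781117046) (.one (nat_lit 1392509285) .nil))),
   .two (nat_lit 21207449605) (nat_lit 156971827225) (.two (nat_lit 1048576) (nat_lit 3527409794) (.one (nat_lit 183916036793) .nil)),
   .two (nat_lit 1191182341) (nat_lit 11584667672) (.two (nat_lit 2097152) (nat_lit 142606446) (.one (nat_lit 1317012195) .nil)),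
   .two (nat_lit 16777220) (nat_lit 183853121544) (.two (nat_lit 16777217) (nat_lit 28691136527) (.two (nat_lit 2097152) (nat_lit 156976021620) (.one (nat_lit 169869671) .nil))),
   .two (nat_lit 69206021) (nat_lit 75497480) (.two (nat_lit 2097153) (nat_lit 104857615) (.two (nat_lit 4194304) (nat_lit 2097436) (.one (nat_lit 1312817514) .nil))),
   .two (nat_lit 11546918917) (nat_lit 1795162120) (.two (nat_lit 16777217) (nat_lit 1849688079) (.two (nat_lit 2097152) (nat_lit 156573368682) .nil)),
   .two (nat_lit 174752530437) (nat_lit 10506731544) (.two (nat_lit 1048576) (nat_lit 2319450240) (.one (nat_lit 166199296676) .nil)),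
   .two (nat_lit 46980399109) (nat_lit 10436476952) (.two (nat_lit 4194304) (nat_lit 10436477038) (.one (nat_lit 4027581127) .nil)),
   .two (nat_lit 41943045) (nat_lit 10940841998) (.two (nat_lit 37748737) (nat_lit 713031695) (.two (nat_lit 1048576) (nat_lit 10510926185) .nil)),
   .two (nat_lit 2894069765) (nat_lit 742391816) (.two (nat_lit 8388609) (nat_lit 9867100175) (.two (nat_lit 1048576) (nat_lit 840958314) .nil)),
   .two (nat_lit 169869316) (nat_lit 1276117000) (.two (nat_lit 4194305) (nat_lit 34603049) (.two (nat_lit 1048576) (nat_lit 169869578) (.one (nat_lit 608174438) .nil))),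
   .two (nat_lit 19596836869) (nat_lit 11492392984) (.two (nat_lit 1048576) (nat_lit 822083693) (.one (nat_lit 16777963) .nil)),
   .two (nat_lit 16777221) (nat_lit 1376780300) (.two (nat_lit 620756993) (nat_lit 9899606081) (.one (nat_lit 11022631606) .nil)),
   .two (nat_lit 612368389) (nat_lit 46980399128) (.two (nat_lit 8388608) (nat_lit 3527409773) (.one (nat_lit 1749025393) .nil)),
   .two (nat_lit 28086108165) (nat_lit 9881780249) (.two (nat_lit 1048576) (nat_lit 218103938) (.one (nat_lit 4647289561) .nil)),
   .two (nat_lit 9866051589) (nat_lit 10372513818) (.two (nat_lit 16777216) (nat_lit 1950351619) (.one (nat_lit 9802089134) .nil)),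
   .two (nat_lit 21785214981) (nat_lit 2969567247) (.two (nat_lit 4194304) (nat_lit 11014242441) (.one (nat_lit 21814575761) .nil)),
   .two (nat_lit 21785214981) (nat_lit 754974734) (.two (nat_lit 50331649) (nat_lit 1849688079) (.two (nat_lit 2097152) (nat_lit 1849688130) (.one (nat_lit 20707279569) .nil))),
   .two (nat_lit 157038936069) (nat_lit 352321559) (.two (nat_lit 2097152) (nat_lit 822083839) (.one (nat_lit 2365588197) .nil)),
   .two (nat_lit 2097157) (nat_lit 156367847439) (.two (nat_lit 1048576) (nat_lit 10003415164) (.one (nat_lit 4601152153) .nil)),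
   .two (nat_lit 8388612) (nat_lit 742391816) (.two (nat_lit 8388609) (nat_lit 9867100175) (.two (nat_lit 2097152) (nat_lit 1782579313) (.one (nat_lit 3525313195) .nil))),
   .two (nat_lit 8388613) (nat_lit 10385096712) (.two (nat_lit 8388609) (nat_lit 28772925464) (.two (nat_lit 16777216) (nat_lit 46414168172) (.one (nat_lit 46984594122) .nil))),
   .two (nat_lit 8388612) (nat_lit 46407876616) (.two (nat_lit 34603009) (nat_lit 19128123433) (.two (nat_lit 1048576) (nat_lit 12618563723) (.one (nat_lit 4631560550) .nil))),
   .two (nat_lit 10504634373) (nat_lit 156968681487) (.two (nat_lit 2097152) (nat_lit 28757197163) .nil),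
   .two (nat_lit 41943045) (nat_lit 20705181709) (.two (nat_lit 606076929) (nat_lit 12121538586) (.two (nat_lit 1048576) (nat_lit 21785215340) .nil)),
   .two (nat_lit 11559501829) (nat_lit 19596836872) (.two (nat_lit 34603009) (nat_lit 158192369802) (.one (nat_lit 9915335399) .nil)),
   .two (nat_lit 612368389) (nat_lit 183916036109) (.two (nat_lit 37748737) (nat_lit 184993972239) (.two (nat_lit 2097152) (nat_lit 185023332487) (.one (nat_lit 184993972588) .nil))),
   .two (nat_lit 605028357) (nat_lit 1277165576) (.two (nat_lit 2097153) (nat_lit 4601151503) (.two (nat_lit 1048576) (nat_lit 11477713021) (.one (nat_lit 9866052255) .nil))),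
   .two (nat_lit 16777220) (nat_lit 183848927247) (.two (nat_lit 16777216) (nat_lit 156367847559) (.one (nat_lit 10909385378) .nil)),
   .two (nat_lit 16777221) (nat_lit 46984593416) (.two (nat_lit 612368385) (nat_lit 19529728015) (.two (nat_lit 2097152) (nat_lit 2416968043) .nil)),
   .two (nat_lit 12054429701) (nat_lit 46978301976) (.two (nat_lit 1048576) (nat_lit 166130090094) (.one (nat_lit 10504635095) .nil)),
   .two (nat_lit 16777220) (nat_lit 158075977741) (.two (nat_lit 4194305) (nat_lit 18925748239) (.two (nat_lit 4194304) (nat_lit 235929720) (.one (nat_lit 12114199234) .nil))),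
   .two (nat_lit 605028357) (nat_lit 159251431436) (.two (nat_lit 2097153) (nat_lit 809500687) (.two (nat_lit 2097152) (nat_lit 34603143) (.one (nat_lit 20707279209) .nil))),
   .two (nat_lit 1358954501) (nat_lit 21207449615) (.two (nat_lit 1048576) (nat_lit 3539992698) (.one (nat_lit 218104449) .nil)),
   .two (nat_lit 721420292) (nat_lit 1916796940) (.two (nat_lit 4194305) (nat_lit 1358954511) (.two (nat_lit 16777216) (nat_lit 28693233729) (.one (nat_lit 47550824808) .nil))),
   .two (nat_lit 654311429) (nat_lit 19530776591) (.two (nat_lit 2097152) (nat_lit 11492393025) (.one (nat_lit 3472884073) .nil)),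
   .two (nat_lit 13191086085) (nat_lit 1176502297) (.two (nat_lit 4194304) (nat_lit 174753579132) (.one (nat_lit 11544822494) .nil)),
   .two (nat_lit 184989777925) (nat_lit 16777231) (.two (nat_lit 2097152) (nat_lit 10955522333) (.one (nat_lit 352322253) .nil)),
   .two (nat_lit 184419352581) (nat_lit 158075977743) (.two (nat_lit 1048576) (nat_lit 306184257) (.one (nat_lit 4195054) .nil)),
   .two (nat_lit 158143086597) (nat_lit 10385096719) (.two (nat_lit 1048576) (nat_lit 50331772) (.one (nat_lit 1862271672) .nil)),
   .two (nat_lit 171966469) (nat_lit 11517558810) (.two (nat_lit 1048576) (nat_lit 11618222444) .nil),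
   .two (nat_lit 2097157) (nat_lit 46409973775) (.two (nat_lit 1048576) (nat_lit 840958074) (.one (nat_lit 1410335077) .nil)),
   .two (nat_lit 20638072837) (nat_lit 117440527) (.two (nat_lit 2097152) (nat_lit 185035915331) (.one (nat_lit 21827158374) .nil)),
   .two (nat_lit 8388613) (nat_lit 809500687) (.two (nat_lit 8388608) (nat_lit 171966594) (.one (nat_lit 37249614445) .nil)),
   .two (nat_lit 9934209029) (nat_lit 47550824473) (.two (nat_lit 2097152) (nat_lit 11614027906) (.one (nat_lit 10909385381) .nil)),
   .two (nat_lit 16777220) (nat_lit 28790751246) (.two (nat_lit 2097153) (nat_lit 16777231) (.two (nat_lit 1048576) (nat_lit 46407876722) (.one (nat_lit 11544822121) .nil))),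
   .two (nat_lit 11492392964) (nat_lit 183848927240) (.two (nat_lit 9781116929) (nat_lit 158077026319) (.two (nat_lit 2097152) (nat_lit 675283076) (.one (nat_lit 3460301518) .nil))),
   .two (nat_lit 83886085) (nat_lit 1847590927) (.two (nat_lit 16777216) (nat_lit 28758245443) (.one (nat_lit 4599054696) .nil)),
   .two (nat_lit 721420293) (nat_lit 46414168079) (.two (nat_lit 1048576) (nat_lit 10519314569) (.one (nat_lit 46406828768) .nil)),
   .two (nat_lit 184549381) (nat_lit 10503585804) (.two (nat_lit 34603009) (nat_lit 612368518) (.one (nat_lit 165532402027) .nil)),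
   .two (nat_lit 16777221) (nat_lit 34603022) (.two (nat_lit 16777217) (nat_lit 19093520510) (.one (nat_lit 12163481960) .nil)),
   .two (nat_lit 721420293) (nat_lit 19094568972) (.two (nat_lit 16777217) (nat_lit 11544821899) (.one (nat_lit 10376708458) .nil)),
   .two (nat_lit 612368389) (nat_lit 158158815240) (.two (nat_lit 16777217) (nat_lit 46409973894) (.one (nat_lit 71303530) .nil)),
   .two (nat_lit 34603013) (nat_lit 11479810056) (.two (nat_lit 606076929) (nat_lit 171966505) (.two (nat_lit 16777216) (nat_lit 706740582) .nil)),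
   .two (nat_lit 11492392965) (nat_lit 3464495112) (.two (nat_lit 50331649) (nat_lit 166129041423) (.two (nat_lit 8388608) (nat_lit 68157567) (.one (nat_lit 184986632930) .nil))),
   .two (nat_lit 184549381) (nat_lit 46978301965) (.two (nat_lit 2097153) (nat_lit 822083599) (.two (nat_lit 2097152) (nat_lit 839909511) (.one (nat_lit 20704133762) .nil))),
   .two (nat_lit 183853121538) (nat_lit 16777224) (.two (nat_lit 41943041) (nat_lit 16777231) (.two (nat_lit 8388608) (nat_lit 16777280) (.one (nat_lit 285212766) .nil))),
   .two (nat_lit 46978301957) (nat_lit 4598005770) (.two (nat_lit 2097153) (nat_lit 3524263958) (.two (nat_lit 1048576) (nat_lit 174686470165) (.one (nat_lit 2097949) .nil))),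
   .two (nat_lit 156968681477) (nat_lit 117440519) (.two (nat_lit 1191182339) (nat_lit 46977253385) (.two (nat_lit 34603009) (nat_lit 9781116943) (.two (nat_lit 1048576) (nat_lit 9781117040) (.one (nat_lit 4613734601) .nil)))),
   .two (nat_lit 184419352581) (nat_lit 2954887175) (.two (nat_lit 2887778307) (nat_lit 843055116) (.two (nat_lit 9768534017) (nat_lit 2954887183) (.two (nat_lit 4194304) (nat_lit 2988441714) (.one (nat_lit 1914699975) .nil)))),
   .two (nat_lit 46407876612) (nat_lit 184993972231) (.two (nat_lit 713031683) (nat_lit 157036838920) (.two (nat_lit 41943041) (nat_lit 157036838927) (.two (nat_lit 8388608) (nat_lit 19027460206) (.one (nat_lit 9799991496) .nil)))),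
   .two (nat_lit 28693233669) (nat_lit 10336862215) (.two (nat_lit 166132187139) (nat_lit 165526110216) (.two (nat_lit 9768534017) (nat_lit 174753579032) (.two (nat_lit 4194304) (nat_lit 20638072915) (.one (nat_lit 3558867338) .nil)))),
   .two (nat_lit 9881780229) (nat_lit 159217876999) (.two (nat_lit 606076931) (nat_lit 1358954504) (.two (nat_lit 606076929) (nat_lit 1929379867) (.two (nat_lit 2097152) (nat_lit 9781117071) (.one (nat_lit 2097576) .nil)))),
   .two (nat_lit 2902458372) (nat_lit 47548727303) (.two (nat_lit 169869315) (nat_lit 2902458376) (.two (nat_lit 2097153) (nat_lit 3573547025) (.two (nat_lit 2097152) (nat_lit 9881780517) (.one (nat_lit 16778014) .nil)))),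
   .two (nat_lit 165532401669) (nat_lit 19597885447) (.two (nat_lit 183861510147) (nat_lit 1753219084) (.two (nat_lit 8388609) (nat_lit 117440527) (.two (nat_lit 2097152) (nat_lit 1426063482) (.one (nat_lit 12633243857) .nil)))),
   .two (nat_lit 16777220) (nat_lit 4605345799) (.two (nat_lit 8388611) (nat_lit 16777224) (.two (nat_lit 8388609) (nat_lit 16777231) (.two (nat_lit 8388608) (nat_lit 16777252) (.one (nat_lit 3539992672) .nil)))),
   .two (nat_lit 20638072836) (nat_lit 1913651208) (.two (nat_lit 606076929) (nat_lit 1913651215) (.two (nat_lit 1048576) (nat_lit 156533522453) (.one (nat_lit 1049376) .nil))),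
   .two (nat_lit 184989777925) (nat_lit 1753219080) (.two (nat_lit 37748737) (nat_lit 1417674802) (.two (nat_lit 2097152) (nat_lit 3531604053) (.one (nat_lit 13224641297) .nil))),
   .two (nat_lit 156968681477) (nat_lit 159217876999) (.two (nat_lit 19529728003) (nat_lit 159217877000) (.two (nat_lit 156364701697) (nat_lit 159217877007) (.two (nat_lit 1048576) (nat_lit 2097241) (.one (nat_lit 13188989304) .nil)))),
   .two (nat_lit 10506731525) (nat_lit 184993972231) (.two (nat_lit 183853121539) (nat_lit 156569174028) (.two (nat_lit 156367847425) (nat_lit 75497487) (.two (nat_lit 4194304) (nat_lit 19537068101) (.one (nat_lit 880804044) .nil)))),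
   .two (nat_lit 28757196805) (nat_lit 620756999) (.two (nat_lit 10369368067) (nat_lit 620757000) (.two (nat_lit 9765388289) (nat_lit 620757007) (.two (nat_lit 1048576) (nat_lit 3573547097) (.one (nat_lit 1049380) .nil)))),
   .two (nat_lit 9934209029) (nat_lit 10369368072) (.two (nat_lit 41943041) (nat_lit 772800558) (.two (nat_lit 1048576) (nat_lit 11611930646) (.one (nat_lit 1049381) .nil))),
   .two (nat_lit 10370416643) (nat_lit 10343153671) (.two (nat_lit 2097152) (nat_lit 156573368393) (.one (nat_lit 8388993) .nil)),
   .two (nat_lit 159224168453) (nat_lit 9934209031) (.two (nat_lit 606076931) (nat_lit 10007609356) (.two (nat_lit 606076929) (nat_lit 19100860445) (.two (nat_lit 2097152) (nat_lit 19033751678) (.one (nat_lit 8389414) .nil)))),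
   .two (nat_lit 21785214981) (nat_lit 47548727304) (.two (nat_lit 612368385) (nat_lit 9934209039) (.two (nat_lit 2097152) (nat_lit 176160790) (.one (nat_lit 20638073618) .nil))),
   .two (nat_lit 2887778306) (nat_lit 612368391) (.two (nat_lit 612368387) (nat_lit 12048138250) (.two (nat_lit 2097153) (nat_lit 21785215000) (.two (nat_lit 2097152) (nat_lit 713031763) (.one (nat_lit 10443817354) .nil)))),
   .two (nat_lit 117440517) (nat_lit 1913651207) (.two (nat_lit 1175453699) (nat_lit 158158815240) (.two (nat_lit 9765388289) (nat_lit 1291845649) (.two (nat_lit 1048576) (nat_lit 754974841) (.one (nat_lit 16778023) .nil)))),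
   .two (nat_lit 2889875460) (nat_lit 654311436) (.two (nat_lit 50331649) (nat_lit 10506731535) (.two (nat_lit 4194304) (nat_lit 46523219989) (.one (nat_lit 4194506) .nil))),
   .two (nat_lit 1277165573) (nat_lit 10506731527) (.two (nat_lit 9768534019) (nat_lit 184417255434) (.two (nat_lit 2097153) (nat_lit 1916796943) (.two (nat_lit 2097152) (nat_lit 19599982629) (.one (nat_lit 4195112) .nil)))),
   .two (nat_lit 50331653) (nat_lit 102760460) (.two (nat_lit 612368385) (nat_lit 2902458417) (.two (nat_lit 4194304) (nat_lit 46414168149) (.one (nat_lit 16778025) .nil))),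
   .two (nat_lit 176160772) (nat_lit 157035790343) (.two (nat_lit 612368387) (nat_lit 19529728008) (.two (nat_lit 16777217) (nat_lit 47555018767) (.two (nat_lit 16777216) (nat_lit 3020947718) (.one (nat_lit 8389418) .nil)))),
   .two (nat_lit 9933160453) (nat_lit 12054429704) (.two (nat_lit 4194305) (nat_lit 12054429711) (.two (nat_lit 4194304) (nat_lit 12617515093) (.one (nat_lit 1049387) .nil))),
   .two (nat_lit 41943045) (nat_lit 184419352584) (.two (nat_lit 41943041) (nat_lit 18928893967) (.two (nat_lit 8388608) (nat_lit 11614027850) (.one (nat_lit 41943249) .nil))),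
   .two (nat_lit 159224168453) (nat_lit 9934209031) (.two (nat_lit 606076931) (nat_lit 10007609356) (.two (nat_lit 606076929) (nat_lit 156539813917) (.two (nat_lit 2097152) (nat_lit 9906946177) (.one (nat_lit 8389420) .nil)))),
   .two (nat_lit 184549380) (nat_lit 202375177) (.two (nat_lit 16777217) (nat_lit 158176641045) (.two (nat_lit 16777216) (nat_lit 158176641045) (.one (nat_lit 16778169) .nil))),
   .two (nat_lit 169869316) (nat_lit 1846542344) (.two (nat_lit 9765388289) (nat_lit 2097177) (.two (nat_lit 1048576) (nat_lit 2097307) (.one (nat_lit 2097966) .nil))),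
   .two (nat_lit 117440517) (nat_lit 13191086088) (.two (nat_lit 620756993) (nat_lit 13191086095) (.two (nat_lit 16777216) (nat_lit 13191086115) (.one (nat_lit 16778031) .nil))),
   .two (nat_lit 1913651205) (nat_lit 620756999) (.two (nat_lit 1175453699) (nat_lit 620757000) (.two (nat_lit 9765388289) (nat_lit 620757007) (.two (nat_lit 1048576) (nat_lit 3573547097) (.one (nat_lit 855638414) .nil)))),
   .two (nat_lit 183853121540) (nat_lit 28086108168) (.two (nat_lit 41943041) (nat_lit 28086108175) (.two (nat_lit 8388608) (nat_lit 12047089685) (.one (nat_lit 11577327991) .nil))),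
   .two (nat_lit 183848927236) (nat_lit 2954887175) (.two (nat_lit 2887778307) (nat_lit 183848927240) (.two (nat_lit 2097153) (nat_lit 183848927247) (.two (nat_lit 2097152) (nat_lit 46409973797) (.one (nat_lit 174755676933) .nil)))),
   .two (nat_lit 156968681477) (nat_lit 4601151495) (.two (nat_lit 4194307) (nat_lit 37313576972) (.two (nat_lit 4194305) (nat_lit 2349858857) (.two (nat_lit 4194304) (nat_lit 158646403183) (.one (nat_lit 12114199240) .nil)))),
   .two (nat_lit 1358954501) (nat_lit 4194312) (.two (nat_lit 605028353) (nat_lit 12620660753) (.two (nat_lit 1048576) (nat_lit 185035915385) (.one (nat_lit 16778033) .nil))),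
   .two (nat_lit 721420292) (nat_lit 713031688) (.two (nat_lit 50331649) (nat_lit 713031695) (.two (nat_lit 16777216) (nat_lit 11618222100) (.one (nat_lit 11517559179) .nil))),
   .two (nat_lit 3525312517) (nat_lit 21785214984) (.two (nat_lit 2097153) (nat_lit 713031695) (.two (nat_lit 2097152) (nat_lit 343932949) (.one (nat_lit 8389426) .nil))),
   .two (nat_lit 721420292) (nat_lit 158143086600) (.two (nat_lit 50331649) (nat_lit 174685421618) (.two (nat_lit 1048576) (nat_lit 352321573) (.one (nat_lit 754975523) .nil))),
   .two (nat_lit 4601151493) (nat_lit 117440520) (.two (nat_lit 4194305) (nat_lit 117440527) (.two (nat_lit 1048576) (nat_lit 1312817273) (.one (nat_lit 4195123) .nil))),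
   .two (nat_lit 612368389) (nat_lit 158144135175) (.two (nat_lit 612368387) (nat_lit 158144135176) (.two (nat_lit 606076929) (nat_lit 75497487) (.two (nat_lit 2097152) (nat_lit 8388765) (.one (nat_lit 4638900658) .nil)))),
   .two (nat_lit 746586117) (nat_lit 83886088) (.two (nat_lit 41943041) (nat_lit 83886095) (.two (nat_lit 4194304) (nat_lit 46508540030) (.one (nat_lit 4195124) .nil))),
   .two (nat_lit 739246085) (nat_lit 12117344269) (.two (nat_lit 156367847425) (nat_lit 705691672) (.two (nat_lit 1048576) (nat_lit 3024093202) (.one (nat_lit 1049397) .nil))),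
   .two (nat_lit 10504634373) (nat_lit 9768534023) (.two (nat_lit 4194304) (nat_lit 11511267454) (.one (nat_lit 2097593) .nil)),
   .two (nat_lit 184549381) (nat_lit 809500680) (.two (nat_lit 16777217) (nat_lit 809500687) (.two (nat_lit 16777216) (nat_lit 272629779) (.one (nat_lit 272629970) .nil))),
   .two (nat_lit 183853121540) (nat_lit 10506731527) (.two (nat_lit 9768534019) (nat_lit 1753219080) (.two (nat_lit 9768534017) (nat_lit 1753219087) (.two (nat_lit 4194304) (nat_lit 1753219107) (.one (nat_lit 8389430) .nil)))),
   .two (nat_lit 272629765) (nat_lit 166129041416) (.two (nat_lit 4194305) (nat_lit 166129041423) (.two (nat_lit 4194304) (nat_lit 4027580453) (.one (nat_lit 4195127) .nil))),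
   .two (nat_lit 28690087941) (nat_lit 13191086088) (.two (nat_lit 9765388289) (nat_lit 171966475) (.two (nat_lit 4194304) (nat_lit 34603026) (.one (nat_lit 4195128) .nil))),
   .two (nat_lit 11479810050) (nat_lit 28086108168) (.two (nat_lit 37748737) (nat_lit 28086108175) (.two (nat_lit 1048576) (nat_lit 9802088469) (.one (nat_lit 1947206012) .nil))),
   .two (nat_lit 75497477) (nat_lit 13191086087) (.two (nat_lit 37748739) (nat_lit 1786773513) (.two (nat_lit 8388609) (nat_lit 11479810063) (.two (nat_lit 8388608) (nat_lit 46510637093) (.one (nat_lit 185023333162) .nil)))),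
   .two (nat_lit 1846542341) (nat_lit 13191086087) (.two (nat_lit 166129041411) (nat_lit 13191086088) (.two (nat_lit 9765388289) (nat_lit 13191086095) (.two (nat_lit 1048576) (nat_lit 171966553) (.one (nat_lit 159219974520) .nil)))),
   .two (nat_lit 12054429701) (nat_lit 2954887175) (.two (nat_lit 169869315) (nat_lit 13195280396) (.two (nat_lit 612368385) (nat_lit 10504634383) (.two (nat_lit 8388608) (nat_lit 19027460212) (.one (nat_lit 28691136712) .nil)))),
   .two (nat_lit 3525312517) (nat_lit 159216828422) (.two (nat_lit 2097153) (nat_lit 159216828427) (.two (nat_lit 2097152) (nat_lit 159216828434) (.one (nat_lit 10907288323) .nil))),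
   .two (nat_lit 13187940357) (nat_lit 1178599432) (.two (nat_lit 2097153) (nat_lit 1178599439) (.two (nat_lit 1048576) (nat_lit 9802088529) (.one (nat_lit 2097978) .nil))),
   .two (nat_lit 2956984325) (nat_lit 9781116936) (.two (nat_lit 4194305) (nat_lit 9781116943) (.two (nat_lit 1048576) (nat_lit 9781116963) (.one (nat_lit 1049403) .nil))),
   .two (nat_lit 169869316) (nat_lit 1753219080) (.two (nat_lit 2097153) (nat_lit 1753219087) (.two (nat_lit 2097152) (nat_lit 1753219107) (.one (nat_lit 12115247881) .nil))),
   .two (nat_lit 16777220) (nat_lit 157038936071) (.two (nat_lit 156367847427) (nat_lit 822083592) (.two (nat_lit 156367847425) (nat_lit 318767121) (.two (nat_lit 4194304) (nat_lit 9948889123) (.one (nat_lit 16777982) .nil)))),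
   .two (nat_lit 1277165572) (nat_lit 21777874951) (.two (nat_lit 68157443) (nat_lit 158144135176) (.two (nat_lit 605028353) (nat_lit 158144135184) (.two (nat_lit 1048576) (nat_lit 174686470269) (.one (nat_lit 2097980) .nil)))),
   .two (nat_lit 9781116933) (nat_lit 2954887176) (.two (nat_lit 50331649) (nat_lit 1780482098) (.two (nat_lit 2097152) (nat_lit 2902458389) (.one (nat_lit 2097981) .nil))),
   .two (nat_lit 157038936069) (nat_lit 183845781512) (.two (nat_lit 9766436865) (nat_lit 1745879055) (.two (nat_lit 1048576) (nat_lit 13188988950) (.one (nat_lit 1049406) .nil))),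
   .two (nat_lit 156372041733) (nat_lit 165525061640) (.two (nat_lit 34603009) (nat_lit 218103823) (.two (nat_lit 1048576) (nat_lit 1317011478) (.one (nat_lit 21223179032) .nil))),
   .two (nat_lit 9934209029) (nat_lit 117440526) (.two (nat_lit 9766436865) (nat_lit 183848927247) (.two (nat_lit 2097152) (nat_lit 9881780353) (.one (nat_lit 2097983) .nil))),
   .two (nat_lit 1795162117) (nat_lit 19596836871) (.two (nat_lit 18925748227) (nat_lit 654311436) (.two (nat_lit 156364701697) (nat_lit 21223178285) (.two (nat_lit 1048576) (nat_lit 1224736894) (.one (nat_lit 16777983) .nil)))),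
   .two (nat_lit 183848927236) (nat_lit 2969567239) (.two (nat_lit 2902458371) (nat_lit 18928893960) (.two (nat_lit 16777217) (nat_lit 18928893967) (.two (nat_lit 4194304) (nat_lit 889192485) (.one (nat_lit 185023333134) .nil)))),
   .two (nat_lit 1846542341) (nat_lit 11479810056) (.two (nat_lit 605028353) (nat_lit 11479810063) (.two (nat_lit 1048576) (nat_lit 809500707) (.one (nat_lit 1049408) .nil))),
   .two (nat_lit 183853121540) (nat_lit 47548727303) (.two (nat_lit 18933088259) (nat_lit 2988441612) (.two (nat_lit 156372041729) (nat_lit 4028629032) (.two (nat_lit 8388608) (nat_lit 4028629107) (.one (nat_lit 1948254411) .nil)))),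
   .two (nat_lit 46978301957) (nat_lit 612368392) (.two (nat_lit 2097153) (nat_lit 612368399) (.two (nat_lit 2097152) (nat_lit 612368419) (.one (nat_lit 2097985) .nil))),
   .two (nat_lit 721420292) (nat_lit 158143086600) (.two (nat_lit 50331649) (nat_lit 174685421618) (.two (nat_lit 1048576) (nat_lit 184549397) (.one (nat_lit 2316304787) .nil))),
   .two (nat_lit 4194308) (nat_lit 12054429704) (.two (nat_lit 4194305) (nat_lit 12054429711) (.two (nat_lit 4194304) (nat_lit 21785214997) (.one (nat_lit 104858003) .nil))),
   .two (nat_lit 612368389) (nat_lit 3525312519) (.two (nat_lit 612368387) (nat_lit 3525312520) (.two (nat_lit 612368385) (nat_lit 270532633) (.two (nat_lit 8388608) (nat_lit 2097313) (.one (nat_lit 28697428751) .nil)))),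
   .two (nat_lit 183853121541) (nat_lit 3527409672) (.two (nat_lit 41943041) (nat_lit 2956984331) (.two (nat_lit 4194304) (nat_lit 209715218) (.one (nat_lit 4195138) .nil))),
   .two (nat_lit 713031684) (nat_lit 13191086087) (.two (nat_lit 713031683) (nat_lit 843055116) (.two (nat_lit 41943041) (nat_lit 11479810063) (.two (nat_lit 8388608) (nat_lit 46510637093) (.one (nat_lit 3560964523) .nil)))),
   .two (nat_lit 21208498181) (nat_lit 1795162120) (.two (nat_lit 606076929) (nat_lit 1291845655) (.two (nat_lit 2097152) (nat_lit 46523219990) (.one (nat_lit 16778051) .nil))),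
   .two (nat_lit 285212677) (nat_lit 159217877000) (.two (nat_lit 16777217) (nat_lit 47548727311) (.two (nat_lit 16777216) (nat_lit 3458203715) (.one (nat_lit 157036839130) .nil))),
   .two (nat_lit 11492392964) (nat_lit 34603015) (.two (nat_lit 2097155) (nat_lit 117440520) (.two (nat_lit 2097153) (nat_lit 117440527) (.two (nat_lit 1048576) (nat_lit 11511267449) (.one (nat_lit 1914700571) .nil)))),
   .two (nat_lit 12054429701) (nat_lit 47548727303) (.two (nat_lit 169869315) (nat_lit 156539813898) (.two (nat_lit 612368385) (nat_lit 4028629032) (.two (nat_lit 8388608) (nat_lit 4028629107) (.one (nat_lit 1948254411) .nil)))),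
   .two (nat_lit 166129041410) (nat_lit 612368391) (.two (nat_lit 75497475) (nat_lit 336592906) (.two (nat_lit 156364701697) (nat_lit 612368399) (.two (nat_lit 1048576) (nat_lit 41943077) (.one (nat_lit 8389444) .nil)))),
   .two (nat_lit 705691652) (nat_lit 21208498184) (.two (nat_lit 34603009) (nat_lit 21208498191) (.two (nat_lit 1048576) (nat_lit 10437525541) (.one (nat_lit 1176502659) .nil))),
   .two (nat_lit 157035790341) (nat_lit 75497480) (.two (nat_lit 16777217) (nat_lit 612368399) (.two (nat_lit 16777216) (nat_lit 772800638) (.one (nat_lit 1049414) .nil))),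
   .two (nat_lit 1916796933) (nat_lit 3525312520) (.two (nat_lit 9768534017) (nat_lit 639631375) (.two (nat_lit 2097152) (nat_lit 2889875478) (.one (nat_lit 2097991) .nil))),
   .two (nat_lit 705691650) (nat_lit 9934209031) (.two (nat_lit 68157443) (nat_lit 11544821769) (.two (nat_lit 605028353) (nat_lit 9934209039) (.two (nat_lit 1048576) (nat_lit 19597885509) (.one (nat_lit 3021996441) .nil)))),
   .two (nat_lit 47555018757) (nat_lit 158075977736) (.two (nat_lit 8388609) (nat_lit 158075977743) (.two (nat_lit 8388608) (nat_lit 9899606081) (.one (nat_lit 20737687648) .nil))),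
   .two (nat_lit 183845781508) (nat_lit 159224168456) (.two (nat_lit 34603009) (nat_lit 159224168463) (.two (nat_lit 1048576) (nat_lit 165532401685) (.one (nat_lit 8389448) .nil))),
   .two (nat_lit 713031684) (nat_lit 620757000) (.two (nat_lit 41943041) (nat_lit 620757007) (.two (nat_lit 8388608) (nat_lit 721420309) (.one (nat_lit 889192823) .nil))),
   .two (nat_lit 2889875461) (nat_lit 28690087950) (.two (nat_lit 9765388289) (nat_lit 46409973785) (.two (nat_lit 1048576) (nat_lit 272629918) (.one (nat_lit 1947206261) .nil))),
   .two (nat_lit 169869316) (nat_lit 3527409671) (.two (nat_lit 169869315) (nat_lit 3527409676) (.two (nat_lit 2097153) (nat_lit 9768534063) (.two (nat_lit 2097152) (nat_lit 19599982717) (.one (nat_lit 37749114) .nil)))),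
   .two (nat_lit 184549381) (nat_lit 12114198535) (.two (nat_lit 11476664323) (nat_lit 16777224) (.two (nat_lit 34603009) (nat_lit 16777231) (.two (nat_lit 1048576) (nat_lit 1426063517) (.one (nat_lit 16778057) .nil)))),
   .two (nat_lit 169869316) (nat_lit 1358954503) (.two (nat_lit 83886083) (nat_lit 9934209032) (.two (nat_lit 620756993) (nat_lit 9934209039) (.two (nat_lit 16777216) (nat_lit 156533522557) (.one (nat_lit 174686470545) .nil)))),
   .two (nat_lit 1343225861) (nat_lit 19599982600) (.two (nat_lit 8388609) (nat_lit 4634705937) (.two (nat_lit 8388608) (nat_lit 37246468222) (.one (nat_lit 1049418) .nil))),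
   .two (nat_lit 184993972229) (nat_lit 158143086600) (.two (nat_lit 41943041) (nat_lit 9933160473) (.two (nat_lit 1048576) (nat_lit 10007609365) (.one (nat_lit 1049419) .nil))),
   .two (nat_lit 1916796933) (nat_lit 4605345800) (.two (nat_lit 9768534017) (nat_lit 4605345807) (.two (nat_lit 4194304) (nat_lit 46414168082) (.one (nat_lit 183920230614) .nil))),
   .two (nat_lit 1276116994) (nat_lit 10343153671) (.two (nat_lit 165532401667) (nat_lit 46473936905) (.two (nat_lit 605028353) (nat_lit 10343153679) (.two (nat_lit 1048576) (nat_lit 9974054949) (.one (nat_lit 8389452) .nil)))),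
   .two (nat_lit 12062818309) (nat_lit 8388616) (.two (nat_lit 50331649) (nat_lit 8388623) (.two (nat_lit 2097152) (nat_lit 8388643) (.one (nat_lit 21812478767) .nil))),
   .two (nat_lit 166132187141) (nat_lit 1745879048) (.two (nat_lit 4194305) (nat_lit 1745879055) (.two (nat_lit 4194304) (nat_lit 1745879075) (.one (nat_lit 2420114235) .nil))),
   .two (nat_lit 21777874949) (nat_lit 10385096712) (.two (nat_lit 605028353) (nat_lit 654311439) (.two (nat_lit 1048576) (nat_lit 654311459) (.one (nat_lit 20737688385) .nil))),
   .two (nat_lit 50331653) (nat_lit 739246088) (.two (nat_lit 50331649) (nat_lit 739246095) (.two (nat_lit 16777216) (nat_lit 739246116) (.one (nat_lit 11510218848) .nil))),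
   .two (nat_lit 2902458373) (nat_lit 612368392) (.two (nat_lit 16777217) (nat_lit 47555018767) (.two (nat_lit 16777216) (nat_lit 37253808256) (.one (nat_lit 8389453) .nil))),
   .two (nat_lit 16777221) (nat_lit 638582796) (.two (nat_lit 612368385) (nat_lit 9948889130) (.two (nat_lit 8388608) (nat_lit 12633243998) (.one (nat_lit 21793604369) .nil))),
   .two (nat_lit 21207449605) (nat_lit 12050235400) (.two (nat_lit 605028353) (nat_lit 184419352593) (.two (nat_lit 2097152) (nat_lit 183912890494) (.one (nat_lit 10335814438) .nil))),
   .two (nat_lit 8388612) (nat_lit 156364701703) (.two (nat_lit 16777219) (nat_lit 276824072) (.two (nat_lit 16777217) (nat_lit 41943055) (.two (nat_lit 16777216) (nat_lit 156465365121) (.one (nat_lit 1049422) .nil)))),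
   .two (nat_lit 184549381) (nat_lit 3525312519) (.two (nat_lit 184549379) (nat_lit 46978301960) (.two (nat_lit 16777217) (nat_lit 3458203681) (.two (nat_lit 8388608) (nat_lit 3021996106) (.one (nat_lit 159232557432) .nil)))),
   .two (nat_lit 50331653) (nat_lit 12117344263) (.two (nat_lit 50331651) (nat_lit 184419352584) (.two (nat_lit 37748737) (nat_lit 185035915297) (.two (nat_lit 4194304) (nat_lit 12163481755) (.one (nat_lit 1950351736) .nil)))),
   .two (nat_lit 4194308) (nat_lit 310378509) (.two (nat_lit 8388609) (nat_lit 272629784) (.two (nat_lit 1048576) (nat_lit 847249429) (.one (nat_lit 235930014) .nil))),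
   .two (nat_lit 1291845636) (nat_lit 47581233161) (.two (nat_lit 605028353) (nat_lit 9948889099) (.two (nat_lit 1048576) (nat_lit 1291845651) (.one (nat_lit 1049423) .nil))),
   .two (nat_lit 705691650) (nat_lit 12054429704) (.two (nat_lit 34603009) (nat_lit 12054429711) (.two (nat_lit 1048576) (nat_lit 780140564) (.one (nat_lit 10947133539) .nil))),
   .two (nat_lit 1358954501) (nat_lit 2316304397) (.two (nat_lit 34603009) (nat_lit 620757007) (.two (nat_lit 1048576) (nat_lit 1191182423) (.one (nat_lit 16778065) .nil))),
   .two (nat_lit 18928893957) (nat_lit 47555018760) (.two (nat_lit 156367847425) (nat_lit 209715211) (.two (nat_lit 8388608) (nat_lit 47584378898) (.one (nat_lit 8389459) .nil))),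
   .two (nat_lit 2889875460) (nat_lit 12129927176) (.two (nat_lit 4194305) (nat_lit 117440527) (.two (nat_lit 2097152) (nat_lit 11546918997) (.one (nat_lit 16778032) .nil))),
   .two (nat_lit 156971827205) (nat_lit 184986632200) (.two (nat_lit 156367847425) (nat_lit 34603019) (.two (nat_lit 1048576) (nat_lit 3024093202) (.one (nat_lit 1049428) .nil))),
   .two (nat_lit 183848927236) (nat_lit 822083591) (.two (nat_lit 183848927235) (nat_lit 822083596) (.two (nat_lit 37748737) (nat_lit 46992982047) (.two (nat_lit 1048576) (nat_lit 843055193) (.one (nat_lit 21793603962) .nil)))),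
   .two (nat_lit 184549381) (nat_lit 176160776) (.two (nat_lit 16777217) (nat_lit 159224168463) (.two (nat_lit 16777216) (nat_lit 1920991301) (.one (nat_lit 11618222523) .nil))),
   .two (nat_lit 4194306) (nat_lit 4605345801) (.two (nat_lit 4194305) (nat_lit 142606357) (.two (nat_lit 4194304) (nat_lit 142606357) (.one (nat_lit 880804285) .nil))),
   .two (nat_lit 46414168069) (nat_lit 16777224) (.two (nat_lit 8388609) (nat_lit 16777231) (.two (nat_lit 8388608) (nat_lit 16777252) (.one (nat_lit 3539992672) .nil))),
   .two (nat_lit 1343225861) (nat_lit 19599982600) (.two (nat_lit 8388609) (nat_lit 4634705937) (.two (nat_lit 8388608) (nat_lit 11543773305) (.one (nat_lit 156532474647) .nil))),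
   .two (nat_lit 166129041412) (nat_lit 809500680) (.two (nat_lit 9765388289) (nat_lit 46409973771) (.two (nat_lit 4194304) (nat_lit 11577327637) (.one (nat_lit 4195157) .nil))),
   .two (nat_lit 169869316) (nat_lit 1916796935) (.two (nat_lit 169869315) (nat_lit 1916796936) (.two (nat_lit 2097153) (nat_lit 11479810063) (.two (nat_lit 2097152) (nat_lit 2889875493) (.one (nat_lit 20707279656) .nil)))),
   .two (nat_lit 721420290) (nat_lit 28757196808) (.two (nat_lit 50331649) (nat_lit 28757196815) (.two (nat_lit 16777216) (nat_lit 158176641044) (.one (nat_lit 156465365090) .nil))),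
   .two (nat_lit 1291845636) (nat_lit 673185804) (.two (nat_lit 9766436865) (nat_lit 721420303) (.two (nat_lit 2097152) (nat_lit 654311511) (.one (nat_lit 16778071) .nil))),
   .two (nat_lit 169869316) (nat_lit 11492392968) (.two (nat_lit 2097153) (nat_lit 183928619025) (.two (nat_lit 4194304) (nat_lit 4647288953) (.one (nat_lit 157051519783) .nil))),
   .two (nat_lit 20652752901) (nat_lit 46978301960) (.two (nat_lit 9768534017) (nat_lit 156365750287) (.two (nat_lit 2097152) (nat_lit 3460300822) (.one (nat_lit 3021996871) .nil))),
   .two (nat_lit 708837381) (nat_lit 1191182344) (.two (nat_lit 4194305) (nat_lit 1191182351) (.two (nat_lit 4194304) (nat_lit 721420362) (.one (nat_lit 2098009) .nil))),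
   .two (nat_lit 3464495109) (nat_lit 1277165576) (.two (nat_lit 8388609) (nat_lit 1344274443) (.two (nat_lit 2097152) (nat_lit 746586130) (.one (nat_lit 2098010) .nil))),
   .two (nat_lit 46980399109) (nat_lit 12633243658) (.two (nat_lit 4194305) (nat_lit 1795162162) (.two (nat_lit 4194304) (nat_lit 13237223446) (.one (nat_lit 16778056) .nil))),
   .two (nat_lit 9934209029) (nat_lit 9933160454) (.two (nat_lit 606076929) (nat_lit 21207449611) (.two (nat_lit 1048576) (nat_lit 2988441621) (.one (nat_lit 1049435) .nil))),
   .two (nat_lit 713031685) (nat_lit 19532873742) (.two (nat_lit 41943041) (nat_lit 9866051608) (.two (nat_lit 4194304) (nat_lit 20737687635) (.one (nat_lit 8389468) .nil))),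
   .two (nat_lit 159217876997) (nat_lit 18933088264) (.two (nat_lit 606076929) (nat_lit 12121538571) (.two (nat_lit 8388608) (nat_lit 19094568978) (.one (nat_lit 9873392417) .nil))),
   .two (nat_lit 183853121541) (nat_lit 251658250) (.two (nat_lit 8388609) (nat_lit 1291845682) (.two (nat_lit 8388608) (nat_lit 352321558) (.one (nat_lit 83886880) .nil))),
   .two (nat_lit 739246085) (nat_lit 11513364489) (.two (nat_lit 34603009) (nat_lit 4601151499) (.two (nat_lit 1048576) (nat_lit 306184210) (.one (nat_lit 1049437) .nil))),
   .two (nat_lit 158075977733) (nat_lit 41943048) (.two (nat_lit 605028353) (nat_lit 2894069771) (.two (nat_lit 8388608) (nat_lit 806354962) (.one (nat_lit 11484005206) .nil))),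
   .two (nat_lit 11479810053) (nat_lit 12115247113) (.two (nat_lit 2097153) (nat_lit 19130220565) (.two (nat_lit 2097152) (nat_lit 19130220565) (.one (nat_lit 2098015) .nil))),
   .two (nat_lit 10336862213) (nat_lit 2969567239) (.two (nat_lit 184549379) (nat_lit 183846830089) (.two (nat_lit 606076929) (nat_lit 16777231) (.two (nat_lit 2097152) (nat_lit 83886117) (.one (nat_lit 16778081) .nil)))),
   .two (nat_lit 11492392965) (nat_lit 184986632199) (.two (nat_lit 705691651) (nat_lit 822083592) (.two (nat_lit 34603009) (nat_lit 889192481) (.two (nat_lit 1048576) (nat_lit 10385096847) (.one (nat_lit 1410335096) .nil)))),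
   .two (nat_lit 37748744) (nat_lit 101711887) (.two (nat_lit 2097153) (nat_lit 1343225923) (.two (nat_lit 2097152) (nat_lit 1343226051) (.one (nat_lit 169870178) .nil))),
   .two (nat_lit 272629768) (nat_lit 2887778312) (.two (nat_lit 4194308) (nat_lit 203423768) (.two (nat_lit 4194305) (nat_lit 2954887277) (.two (nat_lit 4194304) (nat_lit 11543773541) (.one (nat_lit 37749603) .nil)))),
   .two (nat_lit 159217876998) (nat_lit 272629767) (.two (nat_lit 2889875459) (nat_lit 20638072847) (.two (nat_lit 156365750273) (nat_lit 306184306) (.two (nat_lit 2097152) (nat_lit 28760342727) (.one (nat_lit 19599983467) .nil)))),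
   .two (nat_lit 1358954504) (nat_lit 183845781512) (.two (nat_lit 13187940357) (nat_lit 1358954511) (.two (nat_lit 34603009) (nat_lit 37329305723) (.two (nat_lit 2097152) (nat_lit 12147753162) (.one (nat_lit 185020187493) .nil)))),
   .two (nat_lit 11479810056) (nat_lit 12047089677) (.two (nat_lit 2956984325) (nat_lit 47548727311) (.two (nat_lit 605028353) (nat_lit 1279262845) (.two (nat_lit 1048576) (nat_lit 2921332835) (.one (nat_lit 1210057608) .nil)))),
   .two (nat_lit 2889875464) (nat_lit 158144135175) (.two (nat_lit 606076931) (nat_lit 9768534031) (.two (nat_lit 606076929) (nat_lit 4634705987) (.two (nat_lit 2097152) (nat_lit 13224640707) (.one (nat_lit 809501147) .nil)))),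
   .two (nat_lit 1343225861) (nat_lit 9934209035) (.two (nat_lit 605028353) (nat_lit 20738736148) (.one (nat_lit 19597885675) .nil)),
   .two (nat_lit 21777874952) (nat_lit 11626610701) (.two (nat_lit 184549381) (nat_lit 184986632216) (.two (nat_lit 2097153) (nat_lit 3036676211) (.two (nat_lit 2097152) (nat_lit 1745879244) (.one (nat_lit 46407877580) .nil)))),
   .two (nat_lit 11476664328) (nat_lit 1753219079) (.two (nat_lit 2097152) (nat_lit 142606542) .nil),
   .two (nat_lit 3525312520) (nat_lit 3557818377) (.two (nat_lit 2887778306) (nat_lit 28790751273) (.two (nat_lit 2887778308) (nat_lit 158143086613) (.two (nat_lit 9765388289) (nat_lit 19597885583) (.two (nat_lit 1048576) (nat_lit 183913939316) (.one (nat_lit 2098077) .nil))))),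
   .two (nat_lit 75497480) (nat_lit 159217876999) (.two (nat_lit 606076931) (nat_lit 75497487) (.two (nat_lit 612368385) (nat_lit 37314625656) (.two (nat_lit 8388608) (nat_lit 9967763826) (.one (nat_lit 169870187) .nil)))),
   .two (nat_lit 11479810056) (nat_lit 21778923530) (.two (nat_lit 166130089989) (nat_lit 11479810063) (.two (nat_lit 2097153) (nat_lit 156535619725) (.two (nat_lit 2097152) (nat_lit 37748834) (.one (nat_lit 4195230) .nil)))),
   .two (nat_lit 9781116936) (nat_lit 156367847431) (.two (nat_lit 4194304) (nat_lit 16777602) .nil),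
   .two (nat_lit 9866051592) (nat_lit 10519314440) (.two (nat_lit 2902458372) (nat_lit 9866051599) (.two (nat_lit 16777217) (nat_lit 1853882493) (.two (nat_lit 16777216) (nat_lit 1048963) (.one (nat_lit 47555019228) .nil)))),
   .two (nat_lit 11543773192) (nat_lit 1749024776) (.two (nat_lit 705691652) (nat_lit 1749024783) (.two (nat_lit 50331649) (nat_lit 20737687684) (.two (nat_lit 1048576) (nat_lit 185002361047) (.one (nat_lit 1049503) .nil)))),
   .two (nat_lit 11476664322) (nat_lit 158083317775) (.two (nat_lit 34603009) (nat_lit 21785214994) (.one (nat_lit 37320917220) .nil)),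
   .two (nat_lit 740294666) (nat_lit 117440519) (.two (nat_lit 2097155) (nat_lit 754974735) (.two (nat_lit 2097153) (nat_lit 754974754) (.two (nat_lit 1048576) (nat_lit 11525947488) (.one (nat_lit 3003121891) .nil)))),
   .two (nat_lit 46414168072) (nat_lit 19599982599) (.two (nat_lit 18928893955) (nat_lit 46414168079) (.two (nat_lit 156367847425) (nat_lit 46414168098) (.two (nat_lit 4194304) (nat_lit 174759870560) (.one (nat_lit 8389536) .nil)))),
   .two (nat_lit 1779433480) (nat_lit 343932937) (.two (nat_lit 184993972229) (nat_lit 1779433487) (.two (nat_lit 605028353) (nat_lit 343932993) (.two (nat_lit 8388608) (nat_lit 1309671626) (.one (nat_lit 8389537) .nil)))),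
   .two (nat_lit 13195280390) (nat_lit 2969567241) (.two (nat_lit 721420290) (nat_lit 1753219087) (.two (nat_lit 9881780229) (nat_lit 13195280395) (.two (nat_lit 41943041) (nat_lit 117440547) (.two (nat_lit 8388608) (nat_lit 1191182431) (.one (nat_lit 8389538) .nil))))),
   .two (nat_lit 2887778308) (nat_lit 10913579029) (.two (nat_lit 2097153) (nat_lit 46414168082) (.one (nat_lit 2098083) .nil)),
   .two (nat_lit 9781116936) (nat_lit 13187940364) (.two (nat_lit 34603013) (nat_lit 285212688) (.two (nat_lit 9781116931) (nat_lit 183845781519) (.two (nat_lit 605028353) (nat_lit 1210056817) (.two (nat_lit 2097152) (nat_lit 11593056470) (.one (nat_lit 28791800807) .nil))))),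
   .two (nat_lit 18928893960) (nat_lit 9933160454) (.two (nat_lit 1276116996) (nat_lit 18928893967) (.two (nat_lit 605028353) (nat_lit 4601151525) (.two (nat_lit 1048576) (nat_lit 10338959455) (.one (nat_lit 806355839) .nil)))),
   .two (nat_lit 2887778312) (nat_lit 809500679) (.two (nat_lit 705691651) (nat_lit 20705181720) (.two (nat_lit 34603009) (nat_lit 1377828902) (.two (nat_lit 1048576) (nat_lit 69206397) (.one (nat_lit 2098084) .nil)))),
   .two (nat_lit 713031688) (nat_lit 673185806) (.two (nat_lit 159217876997) (nat_lit 713031695) (.two (nat_lit 612368385) (nat_lit 20738736193) (.two (nat_lit 4194304) (nat_lit 159257722979) (.one (nat_lit 37749644) .nil)))),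
   .two (nat_lit 12047089672) (nat_lit 157043130375) (.two (nat_lit 9781116931) (nat_lit 12047089679) (.two (nat_lit 9781116929) (nat_lit 1175453768) (.two (nat_lit 8388608) (nat_lit 1048964) (.one (nat_lit 2920285069) .nil)))),
   .two (nat_lit 10385096709) (nat_lit 28758245391) (.two (nat_lit 16777217) (nat_lit 158177689620) (.one (nat_lit 10437525729) .nil)),
   .two (nat_lit 4194312) (nat_lit 50331656) (.two (nat_lit 4194308) (nat_lit 50331663) (.two (nat_lit 4194305) (nat_lit 11626610804) (.two (nat_lit 1048576) (nat_lit 4601151703) (.one (nat_lit 28089254346) .nil)))),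
   .two (nat_lit 9781116933) (nat_lit 184416206859) (.two (nat_lit 34603009) (nat_lit 2902458389) (.one (nat_lit 1049509) .nil)),
   .two (nat_lit 809500680) (nat_lit 183845781512) (.two (nat_lit 272629765) (nat_lit 9934209056) (.two (nat_lit 1178599427) (nat_lit 705691663) (.two (nat_lit 2097153) (nat_lit 156465365118) (.two (nat_lit 2097152) (nat_lit 183946445014) (.one (nat_lit 35652508) .nil))))),
   .two (nat_lit 721420296) (nat_lit 606076936) (.two (nat_lit 169869316) (nat_lit 184431935514) (.two (nat_lit 620756993) (nat_lit 773849226) (.two (nat_lit 4194304) (nat_lit 158158815331) (.one (nat_lit 4195238) .nil)))),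
   .two (nat_lit 4194312) (nat_lit 41943048) (.two (nat_lit 9933160453) (nat_lit 11551113240) (.two (nat_lit 37748737) (nat_lit 9765388405) (.two (nat_lit 1048576) (nat_lit 166199296200) (.one (nat_lit 9899606887) .nil)))),
   .two (nat_lit 2365587466) (nat_lit 11578376202) (.two (nat_lit 2887778306) (nat_lit 16777231) (.two (nat_lit 46978301957) (nat_lit 10015997973) (.two (nat_lit 2097153) (nat_lit 83886117) (.two (nat_lit 2097152) (nat_lit 788529251) (.one (nat_lit 16778151) .nil))))),
   .two (nat_lit 46978301960) (nat_lit 1846542344) (.two (nat_lit 3525312517) (nat_lit 166129041425) (.two (nat_lit 10369368067) (nat_lit 2921332760) (.two (nat_lit 156365750273) (nat_lit 1947205740) (.two (nat_lit 2097152) (nat_lit 1048967) (.one (nat_lit 672138122) .nil))))),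
   .two (nat_lit 47548727304) (nat_lit 269484042) (.two (nat_lit 10939793413) (nat_lit 47548727311) (.two (nat_lit 605028353) (nat_lit 165526110245) (.two (nat_lit 1048576) (nat_lit 46407876706) (.one (nat_lit 10336863098) .nil)))),
   .two (nat_lit 16777224) (nat_lit 1413480457) (.two (nat_lit 13191086085) (nat_lit 16777231) (.two (nat_lit 37748737) (nat_lit 16777251) (.two (nat_lit 4194304) (nat_lit 16777609) (.one (nat_lit 174755677033) .nil)))),
   .two (nat_lit 809500677) (nat_lit 9906946069) (.two (nat_lit 37748737) (nat_lit 159224168466) (.one (nat_lit 4195240) .nil)),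
   .two (nat_lit 184549384) (nat_lit 1276117000) (.two (nat_lit 9933160453) (nat_lit 184549391) (.two (nat_lit 620756993) (nat_lit 46406828155) (.two (nat_lit 4194304) (nat_lit 1392509027) (.one (nat_lit 12163482477) .nil)))),
   .two (nat_lit 9781116936) (nat_lit 10506731527) (.two (nat_lit 9768534019) (nat_lit 654311439) (.two (nat_lit 9768534017) (nat_lit 10552868932) (.two (nat_lit 4194304) (nat_lit 1795162312) (.one (nat_lit 16778153) .nil)))),
   .two (nat_lit 2902458376) (nat_lit 874512393) (.two (nat_lit 2902458372) (nat_lit 3458203663) (.two (nat_lit 9781116929) (nat_lit 2097301) (.two (nat_lit 16777216) (nat_lit 2097547) (.one (nat_lit 2098091) .nil)))),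
   .two (nat_lit 9933160454) (nat_lit 809500679) (.two (nat_lit 11479810051) (nat_lit 9866051599) (.two (nat_lit 9765388289) (nat_lit 183949590595) (.two (nat_lit 1048576) (nat_lit 165528207558) (.one (nat_lit 2353004771) .nil)))),
   .two (nat_lit 12054429704) (nat_lit 1913651207) (.two (nat_lit 1175453699) (nat_lit 12054429711) (.two (nat_lit 9765388289) (nat_lit 276824136) (.two (nat_lit 1048576) (nat_lit 8388824) (.one (nat_lit 8389549) .nil)))),
   .two (nat_lit 705691652) (nat_lit 46477082646) (.two (nat_lit 34603009) (nat_lit 2923429906) (.one (nat_lit 1049518) .nil)),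
   .two (nat_lit 20637024258) (nat_lit 754974735) (.two (nat_lit 605028353) (nat_lit 11559501842) (.one (nat_lit 889192678) .nil)),
   .two (nat_lit 135266316) (nat_lit 2954887175) (.two (nat_lit 8388611) (nat_lit 12047089679) (.two (nat_lit 2097153) (nat_lit 12114198607) (.two (nat_lit 2097152) (nat_lit 183946444896) (.one (nat_lit 1049520) .nil)))),
   .two (nat_lit 47563407368) (nat_lit 4599054342) (.two (nat_lit 620756997) (nat_lit 28690087966) (.two (nat_lit 620756995) (nat_lit 183845781519) (.two (nat_lit 34603009) (nat_lit 37247516801) (.two (nat_lit 8388608) (nat_lit 28757197160) (.one (nat_lit 336593806) .nil))))),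
   .two (nat_lit 2887778312) (nat_lit 156367847431) (.two (nat_lit 4194304) (nat_lit 1377828903) .nil),
   .two (nat_lit 4194308) (nat_lit 41943055) (.two (nat_lit 4194305) (nat_lit 75497493) (.one (nat_lit 20640170445) .nil)),
   .two (nat_lit 742391816) (nat_lit 285212681) (.two (nat_lit 754974725) (nat_lit 9867100175) (.two (nat_lit 37748737) (nat_lit 158647451685) (.two (nat_lit 4194304) (nat_lit 28791799903) (.one (nat_lit 16778162) .nil)))),
   .two (nat_lit 4613734408) (nat_lit 4605345798) (.two (nat_lit 822083589) (nat_lit 612368416) (.two (nat_lit 50331651) (nat_lit 166129041423) (.two (nat_lit 9765388289) (nat_lit 243269753) (.two (nat_lit 1048576) (nat_lit 47563407574) (.one (nat_lit 184416207788) .nil))))),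
   .two (nat_lit 50331656) (nat_lit 34603015) (.two (nat_lit 169869315) (nat_lit 285212689) (.two (nat_lit 16777217) (nat_lit 4632608806) (.two (nat_lit 2097152) (nat_lit 1048974) (.one (nat_lit 37313577183) .nil)))),
   .two (nat_lit 3525312520) (nat_lit 809500679) (.two (nat_lit 37748739) (nat_lit 3525312527) (.two (nat_lit 37748737) (nat_lit 3525312546) (.two (nat_lit 4194304) (nat_lit 169869408) (.one (nat_lit 2098099) .nil)))),
   .two (nat_lit 28086108168) (nat_lit 184417255433) (.two (nat_lit 20637024260) (nat_lit 157036838927) (.two (nat_lit 605028353) (nat_lit 156533522469) (.two (nat_lit 1048576) (nat_lit 270532707) (.one (nat_lit 46407877543) .nil)))),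
   .two (nat_lit 183845781508) (nat_lit 28806479893) (.two (nat_lit 34603009) (nat_lit 218103826) (.one (nat_lit 1049457) .nil)),
   .two (nat_lit 1279262730) (nat_lit 654311431) (.two (nat_lit 708837379) (nat_lit 1291845647) (.two (nat_lit 37748737) (nat_lit 1291845666) (.two (nat_lit 2097152) (nat_lit 9915334752) (.one (nat_lit 156481093855) .nil)))),
   .two (nat_lit 184549384) (nat_lit 104857607) (.two (nat_lit 75497475) (nat_lit 184549391) (.two (nat_lit 16777217) (nat_lit 876609612) (.two (nat_lit 8388608) (nat_lit 21223178336) (.one (nat_lit 318768032) .nil)))),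
   .two (nat_lit 156968681477) (nat_lit 4601151503) (.two (nat_lit 4194305) (nat_lit 1376780309) (.one (nat_lit 4598006250) .nil)),
   .two (nat_lit 2969567240) (nat_lit 605028359) (.two (nat_lit 4194307) (nat_lit 2969567247) (.two (nat_lit 4194305) (nat_lit 12062818379) (.two (nat_lit 1048576) (nat_lit 4194703) (.one (nat_lit 28793897187) .nil)))),
   .two (nat_lit 184423546888) (nat_lit 3527409673) (.two (nat_lit 809500677) (nat_lit 1753219087) (.two (nat_lit 9766436865) (nat_lit 10439622793) (.two (nat_lit 2097152) (nat_lit 8388825) (.one (nat_lit 2098100) .nil)))),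
   .two (nat_lit 184416206853) (nat_lit 2994733077) (.two (nat_lit 34603009) (nat_lit 343932946) (.one (nat_lit 1049525) .nil)),
   .two (nat_lit 159216828422) (nat_lit 1191182345) (.two (nat_lit 721420290) (nat_lit 28086108175) (.two (nat_lit 50331653) (nat_lit 21777874955) (.two (nat_lit 50331649) (nat_lit 11577327653) (.two (nat_lit 1048576) (nat_lit 285212767) (.one (nat_lit 1049526) .nil))))),
   .two (nat_lit 101711879) (nat_lit 174759870471) (.two (nat_lit 4194304) (nat_lit 8389008) .nil),
   .two (nat_lit 11479810056) (nat_lit 285212679) (.two (nat_lit 16777216) (nat_lit 843055142) .nil),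
   .two (nat_lit 606076936) (nat_lit 21207449608) (.two (nat_lit 169869316) (nat_lit 21207449616) (.two (nat_lit 2097153) (nat_lit 10000269350) (.two (nat_lit 4194304) (nat_lit 1048978) (.one (nat_lit 166229705648) .nil)))),
   .two (nat_lit 28690087944) (nat_lit 4601151495) (.two (nat_lit 4194304) (nat_lit 156364702075) .nil),
   .two (nat_lit 69206021) (nat_lit 1795162133) (.two (nat_lit 2097153) (nat_lit 28693233683) (.one (nat_lit 742392687) .nil)),
   .two (nat_lit 16777224) (nat_lit 1276117000) (.two (nat_lit 16777220) (nat_lit 4598005791) (.two (nat_lit 50331651) (nat_lit 20637024271) (.two (nat_lit 50331649) (nat_lit 10506731640) (.two (nat_lit 1048576) (nat_lit 11614028156) (.one (nat_lit 183949591427) .nil))))),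
   .two (nat_lit 1913651208) (nat_lit 272629767) (.two (nat_lit 4194307) (nat_lit 1913651215) (.two (nat_lit 4194305) (nat_lit 19093520452) (.two (nat_lit 4194304) (nat_lit 158143086808) (.one (nat_lit 47581234048) .nil)))),
   .two (nat_lit 117440520) (nat_lit 174752530439) (.two (nat_lit 165525061635) (nat_lit 251658271) (.two (nat_lit 156364701697) (nat_lit 16777300) (.two (nat_lit 1048576) (nat_lit 1929379936) (.one (nat_lit 28705816799) .nil)))),
   .two (nat_lit 11479810052) (nat_lit 46414168085) (.two (nat_lit 37748737) (nat_lit 880803858) (.one (nat_lit 4195256) .nil)),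
   .two (nat_lit 83886088) (nat_lit 101711879) (.two (nat_lit 1048576) (nat_lit 159232557094) .nil),
   .two (nat_lit 10504634376) (nat_lit 12155093002) (.two (nat_lit 2887778306) (nat_lit 1283457069) (.two (nat_lit 2887778308) (nat_lit 41943062) (.two (nat_lit 2097153) (nat_lit 75497509) (.two (nat_lit 2097152) (nat_lit 2961178722) (.one (nat_lit 165526111119) .nil))))),
   .two (nat_lit 11492392968) (nat_lit 157038936071) (.two (nat_lit 4194304) (nat_lit 9781117314) .nil),
   .two (nat_lit 272629768) (nat_lit 11611930634) (.two (nat_lit 10504634373) (nat_lit 272629775) (.two (nat_lit 9766436865) (nat_lit 1178599461) (.two (nat_lit 2097152) (nat_lit 809500887) (.one (nat_lit 10372514250) .nil)))),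
   .two (nat_lit 10336862216) (nat_lit 41943047) (.two (nat_lit 8388608) (nat_lit 337641851) .nil),
   .two (nat_lit 46407876612) (nat_lit 713031695) (.two (nat_lit 612368385) (nat_lit 47582281746) (.one (nat_lit 47588574065) .nil)),
   .two (nat_lit 184549380) (nat_lit 158176641045) (.two (nat_lit 16777217) (nat_lit 158176641045) (.one (nat_lit 16778169) .nil)),
   .two (nat_lit 8388614) (nat_lit 11543773191) (.two (nat_lit 612368387) (nat_lit 739246095) (.two (nat_lit 612368385) (nat_lit 185020186691) (.two (nat_lit 8388608) (nat_lit 68157653) (.one (nat_lit 1049531) .nil)))),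
   .two (nat_lit 183853121544) (nat_lit 12117344263) (.two (nat_lit 11479810051) (nat_lit 1753219087) (.two (nat_lit 37748737) (nat_lit 12054429730) (.two (nat_lit 4194304) (nat_lit 13228834912) (.one (nat_lit 166237044963) .nil)))),
   .two (nat_lit 46980399112) (nat_lit 9781116935) (.two (nat_lit 2097152) (nat_lit 159232557262) .nil),
   .two (nat_lit 47548727304) (nat_lit 4631560202) (.two (nat_lit 158143086597) (nat_lit 47548727311) (.two (nat_lit 605028353) (nat_lit 165526110245) (.two (nat_lit 1048576) (nat_lit 46407876706) (.one (nat_lit 28791800738) .nil)))),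
   .two (nat_lit 20638072834) (nat_lit 19532873743) (.two (nat_lit 606076929) (nat_lit 19029557268) (.one (nat_lit 3560964327) .nil)),
   .two (nat_lit 4194308) (nat_lit 183913938966) (.two (nat_lit 4194305) (nat_lit 2954887187) (.one (nat_lit 4195260) .nil)),
   .two (nat_lit 11492392964) (nat_lit 158143086603) (.two (nat_lit 605028353) (nat_lit 11559501842) (.one (nat_lit 10436477879) .nil)),
   .two (nat_lit 11476664322) (nat_lit 21785214991) (.two (nat_lit 34603009) (nat_lit 746586130) (.one (nat_lit 185027526884) .nil)),
   .two (nat_lit 9768534024) (nat_lit 18926796810) (.two (nat_lit 1277165570) (nat_lit 641728536) (.two (nat_lit 2889875460) (nat_lit 21208498187) (.two (nat_lit 4194305) (nat_lit 20738736211) (.two (nat_lit 4194304) (nat_lit 2097563) (.one (nat_lit 35652042) .nil))))),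
   .two (nat_lit 11476664328) (nat_lit 11559501831) (.two (nat_lit 721420291) (nat_lit 1913651215) (.two (nat_lit 50331649) (nat_lit 1913651268) (.two (nat_lit 16777216) (nat_lit 184416207052) (.one (nat_lit 2098043) .nil)))),
   .two (nat_lit 11492392968) (nat_lit 639631367) (.two (nat_lit 9766436867) (nat_lit 11492392975) (.two (nat_lit 9781116929) (nat_lit 156533522499) (.two (nat_lit 16777216) (nat_lit 1411383655) (.one (nat_lit 673186275) .nil)))),
   .two (nat_lit 166132187140) (nat_lit 159217877007) (.two (nat_lit 2097153) (nat_lit 843055122) (.one (nat_lit 673186689) .nil)),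
   .two (nat_lit 158083317768) (nat_lit 47548727303) (.two (nat_lit 2097152) (nat_lit 11014242342) .nil),
   .two (nat_lit 8388612) (nat_lit 2920284181) (.two (nat_lit 8388609) (nat_lit 2920284181) (.one (nat_lit 1753220005) .nil)),
   .two (nat_lit 620757000) (nat_lit 9933160454) (.two (nat_lit 1276116996) (nat_lit 620757007) (.two (nat_lit 16777217) (nat_lit 1048661) (.two (nat_lit 1048576) (nat_lit 16777628) (.one (nat_lit 16778173) .nil)))),
   .two (nat_lit 9866051589) (nat_lit 1916796939) (.two (nat_lit 34603009) (nat_lit 4634705938) (.one (nat_lit 4195262) .nil)),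
   .two (nat_lit 2902458372) (nat_lit 28758245391) (.two (nat_lit 16777217) (nat_lit 10940842005) (.one (nat_lit 46407877088) .nil)),
   .two (nat_lit 183845781512) (nat_lit 1916796935) (.two (nat_lit 4194304) (nat_lit 10537140263) .nil),
   .two (nat_lit 1277165576) (nat_lit 174752530439) (.two (nat_lit 1048576) (nat_lit 840957991) .nil),
   .two (nat_lit 37748744) (nat_lit 174692761610) (.two (nat_lit 41943045) (nat_lit 606076943) (.two (nat_lit 41943041) (nat_lit 35651621) (.two (nat_lit 8388608) (nat_lit 12150898918) (.one (nat_lit 20644365158) .nil)))),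
   .two (nat_lit 9768534024) (nat_lit 12114198536) (.two (nat_lit 16777216) (nat_lit 1048991) .nil),
   .two (nat_lit 606076936) (nat_lit 1913651207) (.two (nat_lit 1344274437) (nat_lit 183946444817) (.two (nat_lit 37748737) (nat_lit 183946444868) (.two (nat_lit 4194304) (nat_lit 9933160830) (.one (nat_lit 1049535) .nil)))),
   .two (nat_lit 21207449608) (nat_lit 159217876999) (.two (nat_lit 606076931) (nat_lit 21207449615) (.two (nat_lit 606076929) (nat_lit 21207449634) (.two (nat_lit 2097152) (nat_lit 1410334816) (.one (nat_lit 1049536) .nil)))),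
   .two (nat_lit 3464495112) (nat_lit 158144135175) (.two (nat_lit 2097152) (nat_lit 156976021542) .nil),
   .two (nat_lit 2902458376) (nat_lit 809500679) (.two (nat_lit 4194304) (nat_lit 1392508967) .nil),
   .two (nat_lit 183949590537) (nat_lit 4598005770) (.two (nat_lit 166132187138) (nat_lit 28757196815) (.two (nat_lit 10506731525) (nat_lit 10939793429) (.two (nat_lit 9768534017) (nat_lit 37313576997) (.two (nat_lit 4194304) (nat_lit 159216828515) (.one (nat_lit 1049537) .nil))))),
   .two (nat_lit 2432696330) (nat_lit 3524263946) (.two (nat_lit 705691650) (nat_lit 2969567247) (.two (nat_lit 158075977733) (nat_lit 10552868885) (.two (nat_lit 34603009) (nat_lit 10385096741) (.two (nat_lit 1048576) (nat_lit 158662131811) (.one (nat_lit 620757897) .nil))))),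
   .two (nat_lit 169869320) (nat_lit 28760342535) (.two (nat_lit 1782579205) (nat_lit 185020186641) (.two (nat_lit 606076929) (nat_lit 1745879185) (.two (nat_lit 8388608) (nat_lit 158646403168) (.one (nat_lit 1049538) .nil)))),
   .two (nat_lit 183853121544) (nat_lit 809500679) (.two (nat_lit 37748739) (nat_lit 12054429711) (.two (nat_lit 37748737) (nat_lit 12054429730) (.two (nat_lit 4194304) (nat_lit 13228834912) (.one (nat_lit 9906947010) .nil)))),
   .two (nat_lit 11479810050) (nat_lit 3525312527) (.two (nat_lit 37748737) (nat_lit 3558866964) (.one (nat_lit 46508540130) .nil)),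
   .two (nat_lit 809500679) (nat_lit 157036838919) (.two (nat_lit 4194304) (nat_lit 3525312895) .nil),
   .two (nat_lit 9881780229) (nat_lit 184986632203) (.two (nat_lit 34603009) (nat_lit 16777235) (.one (nat_lit 1049540) .nil)),
   .two (nat_lit 1343225861) (nat_lit 159217877003) (.two (nat_lit 605028353) (nat_lit 1310720020) (.one (nat_lit 2098117) .nil)),
   .two (nat_lit 37748744) (nat_lit 47555018769) (.two (nat_lit 176160772) (nat_lit 12117344294) (.two (nat_lit 8388609) (nat_lit 47550824486) (.two (nat_lit 2097152) (nat_lit 19093520607) (.one (nat_lit 9933160952) .nil)))),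
   .two (nat_lit 9866051592) (nat_lit 104857615) (.two (nat_lit 8388610) (nat_lit 47550824486) (.two (nat_lit 37748739) (nat_lit 2953838629) (.two (nat_lit 37748737) (nat_lit 156532474056) (.two (nat_lit 4194304) (nat_lit 269484490) (.one (nat_lit 202376148) .nil))))),
   .two (nat_lit 184993972232) (nat_lit 12117344267) (.two (nat_lit 183848927236) (nat_lit 184993972259) (.two (nat_lit 184993972229) (nat_lit 184419352595) (.two (nat_lit 156367847425) (nat_lit 185027526751) (.two (nat_lit 4194304) (nat_lit 8389094) (.one (nat_lit 2889876437) .nil))))),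
   .two (nat_lit 2954887176) (nat_lit 1343225867) (.two (nat_lit 169869316) (nat_lit 11543773221) (.two (nat_lit 169869316) (nat_lit 12147752981) (.two (nat_lit 2097153) (nat_lit 9899606221) (.two (nat_lit 1048576) (nat_lit 169869536) (.one (nat_lit 705692616) .nil))))),
   .two (nat_lit 203423752) (nat_lit 9933160459) (.two (nat_lit 2887778306) (nat_lit 9866051650) (.two (nat_lit 2954887173) (nat_lit 1276117012) (.two (nat_lit 2097153) (nat_lit 1175453794) (.two (nat_lit 1048576) (nat_lit 2954887393) (.one (nat_lit 336593865) .nil))))),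
   .two (nat_lit 2902458373) (nat_lit 9906946069) (.one (nat_lit 19109249527) .nil),
   .two (nat_lit 8388615) (nat_lit 19596836879) (.two (nat_lit 176160771) (nat_lit 184416206882) (.two (nat_lit 8388609) (nat_lit 10335813670) (.two (nat_lit 8388608) (nat_lit 1049064) (.one (nat_lit 2349859325) .nil)))),
   .two (nat_lit 1277165572) (nat_lit 13191086101) (.one (nat_lit 184989778426) .nil),
   .two (nat_lit 270532615) (nat_lit 75497487) (.two (nat_lit 2097155) (nat_lit 713031714) (.two (nat_lit 2097153) (nat_lit 158653743142) (.two (nat_lit 1048576) (nat_lit 9940500963) (.one (nat_lit 28087157713) .nil)))),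
   .two (nat_lit 19596836869) (nat_lit 21778923538) (.one (nat_lit 2098159) .nil),
   .two (nat_lit 9765388293) (nat_lit 184431935506) (.one (nat_lit 11517559776) .nil),
   .two (nat_lit 2954887176) (nat_lit 3527409681) (.two (nat_lit 203423749) (nat_lit 2990538790) (.two (nat_lit 2097153) (nat_lit 47550824486) (.two (nat_lit 1048576) (nat_lit 69206494) (.one (nat_lit 605028856) .nil)))),
   .two (nat_lit 2954887175) (nat_lit 16777231) (.two (nat_lit 169869315) (nat_lit 16777250) (.two (nat_lit 16777217) (nat_lit 46508539942) (.two (nat_lit 16777216) (nat_lit 185021235427) (.one (nat_lit 3021996540) .nil)))),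
   .two (nat_lit 28757196807) (nat_lit 165532401688) (.two (nat_lit 10369368067) (nat_lit 2357198919) (.two (nat_lit 9765388289) (nat_lit 2424307750) (.two (nat_lit 1048576) (nat_lit 4638900447) (.one (nat_lit 3028287996) .nil)))),
   .two (nat_lit 272629767) (nat_lit 10370416655) (.two (nat_lit 4194307) (nat_lit 773849163) (.two (nat_lit 4194305) (nat_lit 156466413606) (.two (nat_lit 4194304) (nat_lit 13188989155) (.one (nat_lit 9934209528) .nil)))),
   .two (nat_lit 654311431) (nat_lit 68157467) (.two (nat_lit 183845781507) (nat_lit 218103842) (.two (nat_lit 34603009) (nat_lit 318767142) (.two (nat_lit 1048576) (nat_lit 1929380063) (.one (nat_lit 18941477376) .nil)))),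
   .two (nat_lit 158144135176) (nat_lit 176160783) (.two (nat_lit 21208498181) (nat_lit 176160802) (.two (nat_lit 21208498181) (nat_lit 176160804) (.two (nat_lit 606076929) (nat_lit 276824161) (.two (nat_lit 2097152) (nat_lit 276824549) (.one (nat_lit 47582282698) .nil))))),
   .two (nat_lit 1358954501) (nat_lit 20738736148) (.one (nat_lit 4632609003) .nil),
   .two (nat_lit 69206021) (nat_lit 1753219093) (.one (nat_lit 8389616) .nil),
   .two (nat_lit 2954887176) (nat_lit 272629771) (.two (nat_lit 2889875460) (nat_lit 10370416677) (.two (nat_lit 169869316) (nat_lit 2889875476) (.two (nat_lit 2097153) (nat_lit 205520991) (.two (nat_lit 2097152) (nat_lit 4194528) (.one (nat_lit 11477713874) .nil))))),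
   .two (nat_lit 9766436872) (nat_lit 4634705937) (.two (nat_lit 183848927237) (nat_lit 2988441638) (.two (nat_lit 4194305) (nat_lit 2988441638) (.two (nat_lit 8388608) (nat_lit 11006902499) (.one (nat_lit 46406829028) .nil)))),
   .two (nat_lit 713031688) (nat_lit 203423755) (.two (nat_lit 169869316) (nat_lit 3028287525) (.two (nat_lit 169869316) (nat_lit 8388629) (.two (nat_lit 2097153) (nat_lit 20745027683) (.two (nat_lit 2097152) (nat_lit 41943265) (.one (nat_lit 1283458009) .nil))))),
   .two (nat_lit 11559501832) (nat_lit 1384120341) (.two (nat_lit 721420292) (nat_lit 158083317797) (.two (nat_lit 721420292) (nat_lit 1384120341) (.two (nat_lit 620756993) (nat_lit 10947133539) (.two (nat_lit 8388608) (nat_lit 16777705) (.one (nat_lit 2927625182) .nil))))),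
   .two (nat_lit 176160776) (nat_lit 1277165583) (.two (nat_lit 176160772) (nat_lit 1277165602) (.two (nat_lit 176160772) (nat_lit 1277165604) (.two (nat_lit 606076929) (nat_lit 276824161) (.two (nat_lit 2097152) (nat_lit 11551113672) (.one (nat_lit 706741208) .nil))))),
   .two (nat_lit 270532615) (nat_lit 285212687) (.two (nat_lit 2097155) (nat_lit 285212706) (.two (nat_lit 2097153) (nat_lit 3472883750) (.two (nat_lit 1048576) (nat_lit 337641695) (.one (nat_lit 2953839102) .nil)))),
   .two (nat_lit 2097159) (nat_lit 10372513817) (.two (nat_lit 2097155) (nat_lit 10338959432) (.two (nat_lit 2097153) (nat_lit 138412071) (.two (nat_lit 2097152) (nat_lit 10000269788) (.one (nat_lit 4195314) .nil)))),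
   .two (nat_lit 203423752) (nat_lit 809500683) (.two (nat_lit 11479810050) (nat_lit 3558867010) (.two (nat_lit 809500677) (nat_lit 3558866964) (.two (nat_lit 2097153) (nat_lit 10909384900) (.two (nat_lit 2097152) (nat_lit 809500897) (.one (nat_lit 166197199852) .nil))))),
   .two (nat_lit 1344274437) (nat_lit 20644364307) (.one (nat_lit 4195315) .nil),
   .two (nat_lit 18928893960) (nat_lit 183846830102) (.two (nat_lit 157036838917) (nat_lit 4601151525) (.two (nat_lit 156367847429) (nat_lit 183846830102) (.two (nat_lit 9766436865) (nat_lit 10338959458) (.two (nat_lit 2097152) (nat_lit 156367847649) (.one (nat_lit 28693234654) .nil))))),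
   .two (nat_lit 4194308) (nat_lit 46507491349) (.one (nat_lit 3457156060) .nil),
   .two (nat_lit 1178599432) (nat_lit 2954887179) (.two (nat_lit 9768534021) (nat_lit 159251431461) (.two (nat_lit 2887778308) (nat_lit 183949590548) (.two (nat_lit 9768534017) (nat_lit 28758245471) (.two (nat_lit 4194304) (nat_lit 2954887404) (.one (nat_lit 4195316) .nil))))),
   .two (nat_lit 46407876612) (nat_lit 10552868885) (.one (nat_lit 318767607) .nil),
   .two (nat_lit 705691656) (nat_lit 11479810065) (.two (nat_lit 34603013) (nat_lit 9969860647) (.two (nat_lit 2097153) (nat_lit 9969860647) (.two (nat_lit 8388608) (nat_lit 1411383771) (.one (nat_lit 2098165) .nil)))),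
   .two (nat_lit 166130089992) (nat_lit 1358954507) (.two (nat_lit 10504634373) (nat_lit 11559501861) (.two (nat_lit 1291845636) (nat_lit 19027460116) (.two (nat_lit 9766436865) (nat_lit 1191182431) (.two (nat_lit 2097152) (nat_lit 1358954732) (.one (nat_lit 2098166) .nil))))),
   .two (nat_lit 185002360840) (nat_lit 1753219087) (.two (nat_lit 12121538565) (nat_lit 11559501858) (.two (nat_lit 12121538565) (nat_lit 11559501860) (.two (nat_lit 41943041) (nat_lit 185035915459) (.two (nat_lit 2097152) (nat_lit 185027527110) (.one (nat_lit 158177690584) .nil))))),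
   .two (nat_lit 205520904) (nat_lit 169869329) (.two (nat_lit 2889875460) (nat_lit 19094568999) (.two (nat_lit 2097153) (nat_lit 47550824486) (.two (nat_lit 1048576) (nat_lit 102760919) (.one (nat_lit 605028856) .nil)))),
   .two (nat_lit 1291845636) (nat_lit 28086108181) (.one (nat_lit 184431935723) .nil),
   .two (nat_lit 171966469) (nat_lit 10385096725) (.one (nat_lit 16778233) .nil),
   .two (nat_lit 612368389) (nat_lit 1376780306) (.one (nat_lit 1049596) .nil),
   .two (nat_lit 37748743) (nat_lit 9933160473) (.two (nat_lit 708837379) (nat_lit 4027580491) (.two (nat_lit 9765388289) (nat_lit 3460300838) (.two (nat_lit 2097152) (nat_lit 46510637531) (.one (nat_lit 843055613) .nil)))),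
   .two (nat_lit 721420293) (nat_lit 185021235222) (.one (nat_lit 2098174) .nil),
   .two (nat_lit 1191182341) (nat_lit 11513364500) (.one (nat_lit 159253529565) .nil),
   .two (nat_lit 705691652) (nat_lit 2954887190) (.one (nat_lit 2098175) .nil),
   .two (nat_lit 3525312519) (nat_lit 306184209) (.two (nat_lit 171966467) (nat_lit 46407876646) (.two (nat_lit 4194305) (nat_lit 4599054374) (.two (nat_lit 16777216) (nat_lit 20704133343) (.one (nat_lit 156968681984) .nil)))),
   .two (nat_lit 28693233669) (nat_lit 218103829) (.one (nat_lit 1761607915) .nil),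
   .two (nat_lit 2894069765) (nat_lit 306184210) (.one (nat_lit 1049600) .nil),
   .two (nat_lit 183861510149) (nat_lit 4605345813) (.one (nat_lit 46514832375) .nil),
   .two (nat_lit 3464495109) (nat_lit 158075977749) (.one (nat_lit 11543774206) .nil),
   .two (nat_lit 2097159) (nat_lit 156367847439) (.two (nat_lit 2097155) (nat_lit 46409973794) (.two (nat_lit 2097153) (nat_lit 47584378918) (.two (nat_lit 2097152) (nat_lit 1950351587) (.one (nat_lit 183949591524) .nil)))),
   .two (nat_lit 9766436872) (nat_lit 272629776) (.two (nat_lit 2889875461) (nat_lit 1914699814) (.two (nat_lit 4194305) (nat_lit 1914699814) (.two (nat_lit 8388608) (nat_lit 708837854) (.one (nat_lit 4195330) .nil)))),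
   .two (nat_lit 9781116935) (nat_lit 19532873743) (.two (nat_lit 166132187139) (nat_lit 16777298) (.two (nat_lit 9768534017) (nat_lit 19109249062) (.two (nat_lit 4194304) (nat_lit 1392509151) (.one (nat_lit 620757500) .nil)))),
   .two (nat_lit 203423749) (nat_lit 183845781526) (.one (nat_lit 166229705679) .nil),
   .two (nat_lit 69206021) (nat_lit 1795162133) (.one (nat_lit 16778244) .nil),
   .two (nat_lit 12114198535) (nat_lit 1914699801) (.two (nat_lit 11476664323) (nat_lit 158077026376) (.two (nat_lit 34603009) (nat_lit 28791799846) (.two (nat_lit 1048576) (nat_lit 874512611) (.one (nat_lit 28691137020) .nil)))),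
   .two (nat_lit 713031685) (nat_lit 11559501842) (.one (nat_lit 8389637) .nil),
   .two (nat_lit 11546918919) (nat_lit 9866051599) (.two (nat_lit 20638072835) (nat_lit 21207449671) (.two (nat_lit 9765388289) (nat_lit 184989777958) (.two (nat_lit 2097152) (nat_lit 742392291) (.one (nat_lit 306184701) .nil)))),
   .two (nat_lit 21214789640) (nat_lit 166129041425) (.two (nat_lit 19596836869) (nat_lit 158183981094) (.two (nat_lit 9765388289) (nat_lit 158183981094) (.two (nat_lit 4194304) (nat_lit 159250383319) (.one (nat_lit 10537141234) .nil)))),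
   .two (nat_lit 158150426631) (nat_lit 721420303) (.two (nat_lit 50331651) (nat_lit 608174119) (.two (nat_lit 50331649) (nat_lit 608174119) (.two (nat_lit 8388608) (nat_lit 46489666006) (.one (nat_lit 16778246) .nil)))),
   .two (nat_lit 9781116935) (nat_lit 19599982607) (.two (nat_lit 183848927235) (nat_lit 1862271047) (.two (nat_lit 37748737) (nat_lit 156548202534) (.two (nat_lit 4194304) (nat_lit 9982443743) (.one (nat_lit 83886588) .nil)))),
   .two (nat_lit 47555018760) (nat_lit 3527409675) (.two (nat_lit 4194306) (nat_lit 19100860485) (.two (nat_lit 176160772) (nat_lit 3527409682) (.two (nat_lit 37748737) (nat_lit 166237044944) (.two (nat_lit 8388608) (nat_lit 21210595557) (.one (nat_lit 8389639) .nil))))),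
   .two (nat_lit 158150426631) (nat_lit 9966714911) (.two (nat_lit 11476664323) (nat_lit 47555018786) (.two (nat_lit 34603009) (nat_lit 276824102) (.two (nat_lit 4194304) (nat_lit 19604177366) (.one (nat_lit 10007609853) .nil)))),
   .two (nat_lit 209715205) (nat_lit 1291845651) (.one (nat_lit 166203491323) .nil),
   .two (nat_lit 8388612) (nat_lit 303038485) (.one (nat_lit 165525062618) .nil),
   .two (nat_lit 2961178631) (nat_lit 11479810063) (.two (nat_lit 37748739) (nat_lit 1920991271) (.two (nat_lit 8388609) (nat_lit 10439622694) (.two (nat_lit 1048576) (nat_lit 156569174491) (.one (nat_lit 809501685) .nil)))),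
   .two (nat_lit 2097157) (nat_lit 3560964116) (.one (nat_lit 28757197795) .nil),
   .two (nat_lit 1343225861) (nat_lit 310378517) (.one (nat_lit 2316305395) .nil),
   .two (nat_lit 156367847431) (nat_lit 654311439) (.two (nat_lit 18928893955) (nat_lit 218103842) (.two (nat_lit 156367847425) (nat_lit 318767142) (.two (nat_lit 4194304) (nat_lit 46523220435) (.one (nat_lit 3003122173) .nil)))),
   .two (nat_lit 612368392) (nat_lit 2954887179) (.two (nat_lit 47555018757) (nat_lit 9934209061) (.two (nat_lit 2887778308) (nat_lit 343932946) (.two (nat_lit 2097153) (nat_lit 276824158) (.two (nat_lit 2097152) (nat_lit 10376708325) (.one (nat_lit 169870297) .nil))))),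
   .two (nat_lit 4194308) (nat_lit 185035915285) (.one (nat_lit 306184426) .nil),
   .two (nat_lit 9934209029) (nat_lit 158646403090) (.one (nat_lit 10369369080) .nil),
   .two (nat_lit 9768534023) (nat_lit 11476664354) (.two (nat_lit 270532613) (nat_lit 158150426662) (.two (nat_lit 4194304) (nat_lit 9765388792) (.one (nat_lit 46507492363) .nil))),
   .two (nat_lit 2956984327) (nat_lit 203423778) (.two (nat_lit 2889875459) (nat_lit 304087078) (.two (nat_lit 4194304) (nat_lit 739246584) (.one (nat_lit 11476665353) .nil))),
   .two (nat_lit 16777221) (nat_lit 20638072837) (.two (nat_lit 2097153) (nat_lit 285212684) (.two (nat_lit 2097152) (nat_lit 157051519249) .nil)),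
   .two (nat_lit 176160772) (nat_lit 12047089672) (.two (nat_lit 1048576) (nat_lit 159224168472) (.one (nat_lit 158653743378) .nil)),
   .two (nat_lit 2969567237) (nat_lit 10907287592) (.one (nat_lit 3525312648) .nil),
   .two (nat_lit 176160772) (nat_lit 20738736141) (.two (nat_lit 2097152) (nat_lit 612368399) (.one (nat_lit 236978727) .nil)),
   .two (nat_lit 156372041733) (nat_lit 157038936069) (.two (nat_lit 9768534017) (nat_lit 18933088271) (.one (nat_lit 156372041865) .nil)),
   .two (nat_lit 184993972229) (nat_lit 28757196805) (.two (nat_lit 9765388289) (nat_lit 28093448206) (.two (nat_lit 2097152) (nat_lit 343933179) .nil)),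
   .two (nat_lit 1178599429) (nat_lit 28690087951) (.one (nat_lit 1048859) .nil),
   .two (nat_lit 639631365) (nat_lit 19532873743) (.one (nat_lit 19532873865) .nil),
   .two (nat_lit 705691652) (nat_lit 46414168069) (.two (nat_lit 8388609) (nat_lit 184986632207) (.one (nat_lit 11577327733) .nil)),
   .two (nat_lit 1277165573) (nat_lit 159224168453) (.two (nat_lit 2097153) (nat_lit 21785215091) .nil),
   .two (nat_lit 1176502277) (nat_lit 1191182341) (.two (nat_lit 2097153) (nat_lit 142606360) (.one (nat_lit 1786774018) .nil)),
   .two (nat_lit 8388612) (nat_lit 68157448) (.two (nat_lit 8388608) (nat_lit 183845781765) .nil),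
   .two (nat_lit 10504634373) (nat_lit 165532401679) (.one (nat_lit 19530777110) .nil),
   .two (nat_lit 16777220) (nat_lit 156971827205) (.two (nat_lit 37748737) (nat_lit 218103923) .nil),
   .two (nat_lit 41943045) (nat_lit 183861510149) (.two (nat_lit 16777217) (nat_lit 10007609479) .nil),
   .two (nat_lit 9948889093) (nat_lit 159217877005) (.two (nat_lit 2097152) (nat_lit 156569174266) .nil),
   .two (nat_lit 47548727301) (nat_lit 159216828421) (.two (nat_lit 2097153) (nat_lit 21777874957) (.two (nat_lit 2097152) (nat_lit 1343225880) (.one (nat_lit 3557818882) .nil))),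
   .two (nat_lit 721420293) (nat_lit 1178599439) (.one (nat_lit 4194624) .nil),
   .two (nat_lit 11476664324) (nat_lit 21208498181) (.two (nat_lit 34603009) (nat_lit 9934209160) .nil),
   .two (nat_lit 4605345797) (nat_lit 3527409669) (.two (nat_lit 4194305) (nat_lit 343932940) (.two (nat_lit 4194304) (nat_lit 157043130410) (.one (nat_lit 8388929) .nil))),
   .two (nat_lit 10504634373) (nat_lit 1916796933) (.two (nat_lit 9768534017) (nat_lit 183913938988) (.one (nat_lit 2097474) .nil)),
   .two (nat_lit 11543773189) (nat_lit 12054429701) (.two (nat_lit 41943041) (nat_lit 1779433608) .nil),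
   .two (nat_lit 2097157) (nat_lit 117440524) (.two (nat_lit 2097152) (nat_lit 1795162249) .nil),
   .two (nat_lit 2902458373) (nat_lit 10506731528) (.two (nat_lit 2097152) (nat_lit 20640170027) (.one (nat_lit 16778258) .nil)),
   .two (nat_lit 41943045) (nat_lit 20638072847) (.one (nat_lit 10437525640) .nil),
   .two (nat_lit 1178599429) (nat_lit 174752530437) (.two (nat_lit 9765388289) (nat_lit 9969860734) .nil),
   .two (nat_lit 41943045) (nat_lit 12047089669) (.two (nat_lit 4194305) (nat_lit 880803853) (.two (nat_lit 1048576) (nat_lit 8388713) (.one (nat_lit 202375712) .nil))),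
   .two (nat_lit 69206021) (nat_lit 20644364303) (.one (nat_lit 4194601) .nil),
   .two (nat_lit 8388612) (nat_lit 2902458373) (.two (nat_lit 16777217) (nat_lit 176160835) .nil),
   .two (nat_lit 21785214981) (nat_lit 10939793413) (.two (nat_lit 605028353) (nat_lit 9806283028) .nil),
   .two (nat_lit 47548727301) (nat_lit 1846542351) (.one (nat_lit 184416206984) .nil),
   .two (nat_lit 9781116933) (nat_lit 3458203653) (.two (nat_lit 2097153) (nat_lit 10385096821) .nil),
   .two (nat_lit 41943045) (nat_lit 165526110223) (.one (nat_lit 2988441844) .nil),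
   .two (nat_lit 612368389) (nat_lit 18926796805) (.two (nat_lit 2097153) (nat_lit 159224168460) (.two (nat_lit 16777216) (nat_lit 159224168585) .nil)),
   .two (nat_lit 705691652) (nat_lit 47555018757) (.two (nat_lit 8388609) (nat_lit 21777874959) (.one (nat_lit 269484303) .nil)),
   .two (nat_lit 156367847429) (nat_lit 13195280398) (.two (nat_lit 8388608) (nat_lit 4613734722) .nil),
   .two (nat_lit 13195280389) (nat_lit 156971827205) (.two (nat_lit 37748737) (nat_lit 183853121602) .nil),
   .two (nat_lit 713031684) (nat_lit 1291845636) (.two (nat_lit 620756993) (nat_lit 1417674776) (.one (nat_lit 8389172) .nil)),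
   .two (nat_lit 9934209029) (nat_lit 117440517) (.two (nat_lit 620756993) (nat_lit 2317353217) .nil),
   .two (nat_lit 13191086085) (nat_lit 847249421) (.two (nat_lit 4194304) (nat_lit 166230753531) .nil),
   .two (nat_lit 721420292) (nat_lit 1745879045) (.two (nat_lit 605028353) (nat_lit 165540790543) .nil),
   .two (nat_lit 8388613) (nat_lit 1745879053) (.two (nat_lit 16777216) (nat_lit 10343153708) (.one (nat_lit 8389651) .nil)),
   .two (nat_lit 1276116996) (nat_lit 159217876997) (.two (nat_lit 606076929) (nat_lit 28757196815) (.one (nat_lit 11476664577) .nil)),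
   .two (nat_lit 159224168453) (nat_lit 10504634373) (.two (nat_lit 9766436865) (nat_lit 20711473177) (.one (nat_lit 2097718) .nil)),
   .two (nat_lit 16777220) (nat_lit 2889875460) (.two (nat_lit 4194305) (nat_lit 11492393027) .nil),
   .two (nat_lit 272629765) (nat_lit 3525312517) (.two (nat_lit 2097153) (nat_lit 2889875464) (.two (nat_lit 2097152) (nat_lit 21814575147) (.one (nat_lit 2098196) .nil))),
   .two (nat_lit 16777220) (nat_lit 46980399109) (.two (nat_lit 4194305) (nat_lit 11492393027) .nil),
   .two (nat_lit 1343225861) (nat_lit 654311429) (.two (nat_lit 620756993) (nat_lit 9866051650) .nil),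
   .two (nat_lit 11479810052) (nat_lit 9866051589) (.two (nat_lit 34603009) (nat_lit 184419352821) .nil),
   .two (nat_lit 4194308) (nat_lit 11559501829) (.two (nat_lit 50331649) (nat_lit 11479810115) .nil),
   .two (nat_lit 75497477) (nat_lit 10907287619) .nil,
   .two (nat_lit 16777221) (nat_lit 18933088261) (.two (nat_lit 8388609) (nat_lit 285212787) .nil),
   .two (nat_lit 285212677) (nat_lit 166130089989) (.two (nat_lit 2097153) (nat_lit 285212685) (.two (nat_lit 2097152) (nat_lit 185035915528) .nil)),
   .two (nat_lit 46409973765) (nat_lit 19596836879) (.one (nat_lit 159250383138) .nil),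
   .two (nat_lit 8388612) (nat_lit 1191182341) (.two (nat_lit 16777217) (nat_lit 20644364413) .nil),
   .two (nat_lit 34603013) (nat_lit 176160773) (.two (nat_lit 8388609) (nat_lit 101711916) (.one (nat_lit 1344274682) .nil)),
   .two (nat_lit 809500677) (nat_lit 10385096709) (.two (nat_lit 16777217) (nat_lit 156569174083) .nil),
   .two (nat_lit 8388612) (nat_lit 28089253893) (.two (nat_lit 37748737) (nat_lit 4605345858) .nil),
   .two (nat_lit 184986632197) (nat_lit 19597885465) (.one (nat_lit 1745879574) .nil),
   .two (nat_lit 13195280389) (nat_lit 165528207365) (.two (nat_lit 4194305) (nat_lit 18933088507) .nil),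
   .two (nat_lit 705691652) (nat_lit 654311429) (.two (nat_lit 620756993) (nat_lit 183912890656) .nil),
   .two (nat_lit 2956984325) (nat_lit 19530776581) (.two (nat_lit 2097153) (nat_lit 12050235440) (.one (nat_lit 4194635) .nil)),
   .two (nat_lit 159224168453) (nat_lit 20638072837) (.two (nat_lit 2097153) (nat_lit 9974054979) .nil),
   .two (nat_lit 11479810052) (nat_lit 156372041743) (.one (nat_lit 8388940) .nil),
   .two (nat_lit 16777220) (nat_lit 176160772) (.two (nat_lit 8388609) (nat_lit 16777282) .nil),
   .two (nat_lit 16777221) (nat_lit 11543773199) (.one (nat_lit 1309671726) .nil),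
   .two (nat_lit 8388612) (nat_lit 184549380) (.two (nat_lit 16777217) (nat_lit 3028287555) .nil),
   .two (nat_lit 47548727301) (nat_lit 10343153669) (.two (nat_lit 612368385) (nat_lit 2988441667) .nil),
   .two (nat_lit 13191086085) (nat_lit 12121538565) (.two (nat_lit 41943041) (nat_lit 19096666156) (.one (nat_lit 156533522990) .nil)),
   .two (nat_lit 11476664324) (nat_lit 13191086085) (.two (nat_lit 37748737) (nat_lit 12114198594) .nil),
   .two (nat_lit 11543773189) (nat_lit 754974725) (.two (nat_lit 50331649) (nat_lit 1410334853) .nil),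
   .two (nat_lit 612368389) (nat_lit 9948889093) (.two (nat_lit 620756993) (nat_lit 75497487) (.one (nat_lit 156472705299) .nil)),
   .two (nat_lit 1343225861) (nat_lit 654311429) (.two (nat_lit 620756993) (nat_lit 21207449736) .nil),
   .two (nat_lit 620756997) (nat_lit 156372041733) (.two (nat_lit 41943041) (nat_lit 159232557305) .nil),
   .two (nat_lit 41943045) (nat_lit 21223178245) (.two (nat_lit 9768534017) (nat_lit 18933088507) .nil),
   .two (nat_lit 272629765) (nat_lit 10370416645) (.two (nat_lit 2097153) (nat_lit 10506731535) (.one (nat_lit 21781020967) .nil)),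
   .two (nat_lit 169869316) (nat_lit 157038936077) (.two (nat_lit 2097152) (nat_lit 11479810063) (.one (nat_lit 12048138512) .nil)),
   .two (nat_lit 272629765) (nat_lit 165526110213) (.two (nat_lit 2097153) (nat_lit 10540286207) .nil),
   .two (nat_lit 10385096709) (nat_lit 10506731525) (.two (nat_lit 16777217) (nat_lit 47584378926) (.one (nat_lit 11513364773) .nil)),
   .two (nat_lit 721420292) (nat_lit 166129041412) (.two (nat_lit 9765388289) (nat_lit 721420311) (.one (nat_lit 855638139) .nil)),
   .two (nat_lit 8388613) (nat_lit 158075977743) (.one (nat_lit 772800756) .nil),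
   .two (nat_lit 46409973764) (nat_lit 165526110213) (.two (nat_lit 2097153) (nat_lit 641728634) .nil),
   .two (nat_lit 9765388293) (nat_lit 46409973765) (.two (nat_lit 4194305) (nat_lit 235929723) .nil),
   .two (nat_lit 10370416645) (nat_lit 159224168453) (.two (nat_lit 2097153) (nat_lit 12121538585) (.one (nat_lit 28791800129) .nil)),
   .two (nat_lit 41943045) (nat_lit 184549380) (.two (nat_lit 16777217) (nat_lit 41943107) .nil),
   .two (nat_lit 13191086085) (nat_lit 1745879048) (.two (nat_lit 4194304) (nat_lit 183845781527) (.one (nat_lit 1049621) .nil)),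
   .two (nat_lit 620756997) (nat_lit 46414168068) (.two (nat_lit 8388609) (nat_lit 20753416321) .nil),
   .two (nat_lit 4194308) (nat_lit 12054429701) (.two (nat_lit 41943041) (nat_lit 2923429989) (.one (nat_lit 1283457161) .nil)),
   .two (nat_lit 4601151493) (nat_lit 183861510149) (.two (nat_lit 16777217) (nat_lit 4634705932) (.two (nat_lit 2097152) (nat_lit 4634706057) .nil)),
   .two (nat_lit 2887778308) (nat_lit 46409973765) (.two (nat_lit 4194305) (nat_lit 10907287598) (.one (nat_lit 2097723) .nil)),
   .two (nat_lit 809500677) (nat_lit 1191182341) (.two (nat_lit 16777217) (nat_lit 183949590594) .nil),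
   .two (nat_lit 13195280389) (nat_lit 28089253893) (.two (nat_lit 37748737) (nat_lit 18933088507) .nil),
   .two (nat_lit 721420292) (nat_lit 20644364293) (.two (nat_lit 8388609) (nat_lit 28087156751) (.one (nat_lit 2097488) .nil)),
   .two (nat_lit 184549380) (nat_lit 46978301957) (.two (nat_lit 2097153) (nat_lit 9948889103) (.one (nat_lit 16777553) .nil)),
   .two (nat_lit 705691652) (nat_lit 1291845637) (.two (nat_lit 16777217) (nat_lit 46507491371) (.one (nat_lit 3557818914) .nil)),
   .two (nat_lit 10370416645) (nat_lit 1216348185) (.one (nat_lit 1377829430) .nil),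
   .two (nat_lit 169869316) (nat_lit 11010048013) (.two (nat_lit 2097152) (nat_lit 156481093736) (.one (nat_lit 4613735439) .nil)),
   .two (nat_lit 203423749) (nat_lit 47555018757) (.two (nat_lit 2097153) (nat_lit 343932940) (.two (nat_lit 8388608) (nat_lit 35651876) .nil)),
   .two (nat_lit 21777874949) (nat_lit 158144135173) (.two (nat_lit 605028353) (nat_lit 159251431541) .nil),
   .two (nat_lit 16777220) (nat_lit 166132187140) (.two (nat_lit 37748737) (nat_lit 46422556697) (.one (nat_lit 47550824994) .nil)),
   .two (nat_lit 4601151493) (nat_lit 165526110213) (.two (nat_lit 2097153) (nat_lit 306184307) .nil),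
   .two (nat_lit 809500677) (nat_lit 12114198533) (.two (nat_lit 34603009) (nat_lit 11479810056) (.two (nat_lit 1048576) (nat_lit 159253528619) (.one (nat_lit 4195350) .nil))),
   .two (nat_lit 11479810053) (nat_lit 10376708139) (.one (nat_lit 4195351) .nil),
   .two (nat_lit 4194308) (nat_lit 12054429701) (.two (nat_lit 41943041) (nat_lit 13191086095) (.one (nat_lit 19599982713) .nil)),
   .two (nat_lit 620756997) (nat_lit 10343153669) (.two (nat_lit 612368385) (nat_lit 83886095) (.one (nat_lit 9781117212) .nil)),
   .two (nat_lit 16777220) (nat_lit 708837381) (.two (nat_lit 4194305) (nat_lit 822083599) (.one (nat_lit 639631625) .nil)),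
   .two (nat_lit 1779433477) (nat_lit 158144135183) (.one (nat_lit 807403795) .nil),
   .two (nat_lit 16777220) (nat_lit 20644364292) (.two (nat_lit 612368385) (nat_lit 37329305723) .nil),
   .two (nat_lit 169869316) (nat_lit 156535619598) (.two (nat_lit 2097152) (nat_lit 11479810063) (.one (nat_lit 9766437144) .nil)),
   .two (nat_lit 2902458372) (nat_lit 3527409669) (.two (nat_lit 4194305) (nat_lit 9781116943) (.one (nat_lit 9781117065) .nil)),
   .two (nat_lit 11476664324) (nat_lit 46409973764) (.two (nat_lit 4194305) (nat_lit 12114198543) (.one (nat_lit 3457155355) .nil)),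
   .two (nat_lit 10504634373) (nat_lit 28086108165) (.two (nat_lit 34603009) (nat_lit 12115247148) (.one (nat_lit 10335813963) .nil)),
   .two (nat_lit 713031684) (nat_lit 1291845636) (.two (nat_lit 620756993) (nat_lit 1417674776) (.one (nat_lit 343933210) .nil)),
   .two (nat_lit 8388612) (nat_lit 721420293) (.two (nat_lit 16777217) (nat_lit 11618222147) .nil),
   .two (nat_lit 639631365) (nat_lit 46409973764) (.two (nat_lit 4194305) (nat_lit 28758245400) (.one (nat_lit 185023332673) .nil)),
   .two (nat_lit 46414168068) (nat_lit 19599982597) (.two (nat_lit 9768534017) (nat_lit 156372041743) (.one (nat_lit 156372041865) .nil)),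
   .two (nat_lit 8388613) (nat_lit 83886085) (.two (nat_lit 16777217) (nat_lit 343932995) .nil),
   .two (nat_lit 8388612) (nat_lit 12117344261) (.two (nat_lit 37748737) (nat_lit 880803948) .nil),
   .two (nat_lit 50331653) (nat_lit 20644364293) (.two (nat_lit 8388609) (nat_lit 157051519271) .nil),
   .two (nat_lit 21785214981) (nat_lit 37246468120) (.one (nat_lit 10443817225) .nil),
   .two (nat_lit 1343225861) (nat_lit 158144135173) (.two (nat_lit 606076929) (nat_lit 1276117016) (.one (nat_lit 12148802054) .nil)),
   .two (nat_lit 9781116933) (nat_lit 166132187141) (.two (nat_lit 4194305) (nat_lit 21793603718) .nil),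
   .two (nat_lit 822083589) (nat_lit 11543773189) (.two (nat_lit 50331649) (nat_lit 10000269357) (.one (nat_lit 1048915) .nil)),
   .two (nat_lit 9768534021) (nat_lit 28086108165) (.two (nat_lit 34603009) (nat_lit 19130220853) .nil),
   .two (nat_lit 809500677) (nat_lit 156968681477) (.two (nat_lit 34603009) (nat_lit 71303294) .nil),
   .two (nat_lit 169869316) (nat_lit 9948889093) (.two (nat_lit 620756993) (nat_lit 11511267459) .nil),
   .two (nat_lit 285212677) (nat_lit 19530776581) (.two (nat_lit 2097153) (nat_lit 11559501925) (.one (nat_lit 102760710) .nil)),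
   .two (nat_lit 16777220) (nat_lit 46980399109) (.two (nat_lit 4194305) (nat_lit 19109249146) .nil),
   .two (nat_lit 47555018757) (nat_lit 156367847439) (.one (nat_lit 4194645) .nil),
   .two (nat_lit 1779433477) (nat_lit 20738736152) (.one (nat_lit 2097726) .nil),
   .two (nat_lit 11543773189) (nat_lit 1916796943) (.one (nat_lit 4194646) .nil),
   .two (nat_lit 8388613) (nat_lit 1277165573) (.two (nat_lit 2097153) (nat_lit 19537068077) (.one (nat_lit 157043130701) .nil)),
   .two (nat_lit 176160772) (nat_lit 3525312517) (.two (nat_lit 2097153) (nat_lit 641728527) (.one (nat_lit 8389183) .nil)),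
   .two (nat_lit 10504634373) (nat_lit 157038936069) (.two (nat_lit 9768534017) (nat_lit 166130090050) .nil),
   .two (nat_lit 184993972229) (nat_lit 1913651205) (.two (nat_lit 9765388289) (nat_lit 21214789754) .nil),
   .two (nat_lit 21777874949) (nat_lit 20638072837) (.two (nat_lit 605028353) (nat_lit 166130090027) (.one (nat_lit 1847591194) .nil)),
   .two (nat_lit 612368389) (nat_lit 184416206853) (.two (nat_lit 34603009) (nat_lit 9806282777) (.one (nat_lit 9866051705) .nil)),
   .two (nat_lit 159217876997) (nat_lit 158143086597) (.two (nat_lit 605028353) (nat_lit 9967763469) (.two (nat_lit 2097152) (nat_lit 18925748328) (.one (nat_lit 1049624) .nil))),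
   .two (nat_lit 8388612) (nat_lit 4601151493) (.two (nat_lit 4194305) (nat_lit 9766436879) (.one (nat_lit 2097728) .nil)),
   .two (nat_lit 34603013) (nat_lit 176160773) (.two (nat_lit 2097153) (nat_lit 174685421618) (.one (nat_lit 12121538807) .nil)),
   .two (nat_lit 50331653) (nat_lit 183853121540) (.two (nat_lit 41943041) (nat_lit 1761607972) .nil),
   .two (nat_lit 10504634373) (nat_lit 1745879045) (.two (nat_lit 605028353) (nat_lit 28087157077) .nil),
   .two (nat_lit 8388613) (nat_lit 12047089669) (.two (nat_lit 8388609) (nat_lit 772800525) (.two (nat_lit 1048576) (nat_lit 47555018776) (.one (nat_lit 183920230662) .nil))),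
   .two (nat_lit 41943045) (nat_lit 822083589) (.two (nat_lit 50331649) (nat_lit 713031695) (.one (nat_lit 183928619543) .nil)),
   .two (nat_lit 272629765) (nat_lit 10370416645) (.two (nat_lit 2097153) (nat_lit 2923430005) .nil),
   .two (nat_lit 620756997) (nat_lit 158143086597) (.two (nat_lit 50331649) (nat_lit 10537140270) (.one (nat_lit 9915334988) .nil)),
   .two (nat_lit 176160773) (nat_lit 18928893967) (.one (nat_lit 2357199394) .nil),
   .two (nat_lit 272629765) (nat_lit 28690087951) (.one (nat_lit 12147753081) .nil),
   .two (nat_lit 2969567237) (nat_lit 166130089989) (.two (nat_lit 2097153) (nat_lit 19612565809) .nil),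
   .two (nat_lit 13195280389) (nat_lit 166129041412) (.two (nat_lit 41943041) (nat_lit 28690087944) (.two (nat_lit 1048576) (nat_lit 10913579051) (.one (nat_lit 873464070) .nil))),
   .two (nat_lit 822083589) (nat_lit 158143086607) (.one (nat_lit 1048919) .nil),
   .two (nat_lit 184549380) (nat_lit 21208498181) (.two (nat_lit 606076929) (nat_lit 1862271094) .nil),
   .two (nat_lit 9948889093) (nat_lit 10939793413) (.two (nat_lit 605028353) (nat_lit 184549400) (.one (nat_lit 9933160737) .nil)),
   .two (nat_lit 8388613) (nat_lit 156367847439) (.one (nat_lit 3460301101) .nil),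
   .two (nat_lit 713031685) (nat_lit 174752530440) (.two (nat_lit 1048576) (nat_lit 9873391665) (.one (nat_lit 9806282873) .nil)),
   .two (nat_lit 2889875461) (nat_lit 19596836869) (.two (nat_lit 605028353) (nat_lit 13191086105) (.one (nat_lit 873464354) .nil)),
   .two (nat_lit 83886085) (nat_lit 101711887) (.one (nat_lit 183912890489) .nil),
   .two (nat_lit 2956984325) (nat_lit 19530776581) (.two (nat_lit 2097153) (nat_lit 183949590649) .nil),
   .two (nat_lit 203423749) (nat_lit 156372041741) (.two (nat_lit 2097152) (nat_lit 156472705068) (.one (nat_lit 37253808264) .nil)),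
   .two (nat_lit 11476664324) (nat_lit 158653743128) (.one (nat_lit 9933160730) .nil),
   .two (nat_lit 4605345797) (nat_lit 10336862223) (.one (nat_lit 236978286) .nil),
   .two (nat_lit 8388612) (nat_lit 10385096709) (.two (nat_lit 16777217) (nat_lit 847249675) .nil),
   .two (nat_lit 41943045) (nat_lit 9948889093) (.two (nat_lit 620756993) (nat_lit 713031695) (.one (nat_lit 3036676634) .nil)),
   .two (nat_lit 176160772) (nat_lit 21208498181) (.two (nat_lit 606076929) (nat_lit 158083317784) (.one (nat_lit 8389657) .nil)),
   .two (nat_lit 1276116996) (nat_lit 46407876612) (.two (nat_lit 2097153) (nat_lit 158143086607) (.one (nat_lit 20704133237) .nil)),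
   .two (nat_lit 8388613) (nat_lit 46407876612) (.two (nat_lit 8388609) (nat_lit 46978301960) (.two (nat_lit 8388608) (nat_lit 10336862475) .nil)),
   .two (nat_lit 1343225861) (nat_lit 156976021509) (.two (nat_lit 41943041) (nat_lit 1376780300) (.two (nat_lit 16777216) (nat_lit 37313577081) .nil)),
   .two (nat_lit 612368389) (nat_lit 754974725) (.two (nat_lit 50331649) (nat_lit 75497487) (.one (nat_lit 8389186) .nil)),
   .two (nat_lit 176160773) (nat_lit 12114198553) (.one (nat_lit 8389155) .nil),
   .two (nat_lit 11476664324) (nat_lit 13191086085) (.two (nat_lit 37748737) (nat_lit 28757196932) .nil),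
   .two (nat_lit 184549381) (nat_lit 2894069765) (.two (nat_lit 8388609) (nat_lit 3036676109) (.two (nat_lit 1048576) (nat_lit 183953784936) (.one (nat_lit 336593218) .nil))),
   .two (nat_lit 620756997) (nat_lit 183853121541) (.two (nat_lit 8388609) (nat_lit 83886095) (.one (nat_lit 352322114) .nil)),
   .two (nat_lit 809500677) (nat_lit 1795162117) (.two (nat_lit 50331649) (nat_lit 183848927364) .nil),
   .two (nat_lit 754974725) (nat_lit 101711887) (.one (nat_lit 3524264240) .nil),
   .two (nat_lit 11479810053) (nat_lit 156968681487) (.one (nat_lit 37246468233) .nil),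
   .two (nat_lit 9934209029) (nat_lit 165532401679) (.one (nat_lit 880804124) .nil),
   .two (nat_lit 2887778308) (nat_lit 157038936069) (.two (nat_lit 9768534017) (nat_lit 3525312578) .nil),
   .two (nat_lit 620756997) (nat_lit 156372041733) (.two (nat_lit 41943041) (nat_lit 20753416321) .nil),
   .two (nat_lit 176160773) (nat_lit 46980399109) (.two (nat_lit 8388609) (nat_lit 156971827250) (.one (nat_lit 46514831692) .nil)),
   .two (nat_lit 4194308) (nat_lit 117440517) (.two (nat_lit 620756993) (nat_lit 809500687) (.one (nat_lit 19532874012) .nil)),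
   .two (nat_lit 721420292) (nat_lit 2889875471) (.one (nat_lit 183949590772) .nil),
   .two (nat_lit 9948889093) (nat_lit 183853121541) (.two (nat_lit 8388609) (nat_lit 37262196862) .nil),
   .two (nat_lit 1343225861) (nat_lit 1291845637) (.two (nat_lit 16777217) (nat_lit 9866051599) (.one (nat_lit 1913651532) .nil)),
   .two (nat_lit 9765388293) (nat_lit 12117344323) .nil,
   .two (nat_lit 28086108165) (nat_lit 10940841999) (.one (nat_lit 19027460217) .nil),
   .two (nat_lit 75497477) (nat_lit 21777874952) (.two (nat_lit 8388608) (nat_lit 605028377) (.one (nat_lit 9772728861) .nil)),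
   .two (nat_lit 184549381) (nat_lit 1276116996) (.two (nat_lit 16777217) (nat_lit 20737687576) (.one (nat_lit 19596837138) .nil)),
   .two (nat_lit 1178599429) (nat_lit 9881780229) (.two (nat_lit 50331649) (nat_lit 166132187160) (.one (nat_lit 4195354) .nil)),
   .two (nat_lit 713031684) (nat_lit 21207449605) (.two (nat_lit 605028353) (nat_lit 21785214991) (.one (nat_lit 11517559116) .nil)),
   .two (nat_lit 50331653) (nat_lit 11510218778) (.one (nat_lit 11577327904) .nil),
   .two (nat_lit 75497477) (nat_lit 28757196843) (.one (nat_lit 68157981) .nil),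
   .two (nat_lit 203423749) (nat_lit 4601151493) (.two (nat_lit 4194305) (nat_lit 1176502318) (.one (nat_lit 174753579301) .nil)),
   .two (nat_lit 21777874949) (nat_lit 20644364293) (.two (nat_lit 8388609) (nat_lit 158075977743) (.one (nat_lit 165525061933) .nil)),
   .two (nat_lit 156367847429) (nat_lit 10343153669) (.two (nat_lit 612368385) (nat_lit 9768534059) (.one (nat_lit 239075869) .nil)),
   .two (nat_lit 1178599429) (nat_lit 10504634373) (.two (nat_lit 4194305) (nat_lit 2097474) .nil),
   .two (nat_lit 11559501829) (nat_lit 639631375) (.one (nat_lit 46474985593) .nil),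
   .two (nat_lit 158143086597) (nat_lit 184419352581) (.two (nat_lit 605028353) (nat_lit 9869197356) (.one (nat_lit 158179787044) .nil)),
   .two (nat_lit 47548727301) (nat_lit 19596836889) (.one (nat_lit 10336862742) .nil),
   .two (nat_lit 169869316) (nat_lit 1795162117) (.two (nat_lit 50331649) (nat_lit 183947493419) (.one (nat_lit 12148802082) .nil)),
   .two (nat_lit 16777220) (nat_lit 28693233669) (.two (nat_lit 37748737) (nat_lit 184431935782) .nil),
   .two (nat_lit 176160773) (nat_lit 12047089679) (.one (nat_lit 8389155) .nil),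
   .two (nat_lit 16777220) (nat_lit 12117344261) (.two (nat_lit 37748737) (nat_lit 12633243673) (.one (nat_lit 165528207497) .nil)),
   .two (nat_lit 809500677) (nat_lit 46414168079) (.one (nat_lit 10343153785) .nil),
   .two (nat_lit 2887778308) (nat_lit 156367847429) (.two (nat_lit 37748737) (nat_lit 2921332760) (.one (nat_lit 2098203) .nil)),
   .two (nat_lit 158143086597) (nat_lit 28093448207) (.one (nat_lit 1753219188) .nil),
   .two (nat_lit 620756997) (nat_lit 13195280389) (.two (nat_lit 41943041) (nat_lit 2902458418) (.one (nat_lit 183953785163) .nil)),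
   .two (nat_lit 184993972229) (nat_lit 174752530437) (.two (nat_lit 9765388289) (nat_lit 12054429711) (.one (nat_lit 10913579340) .nil)),
   .two (nat_lit 28758245381) (nat_lit 28690087941) (.two (nat_lit 34603009) (nat_lit 156466413592) (.one (nat_lit 2097733) .nil)),
   .two (nat_lit 708837381) (nat_lit 28757196805) (.two (nat_lit 16777217) (nat_lit 13221494827) (.one (nat_lit 1049628) .nil)),
   .two (nat_lit 4194308) (nat_lit 183853121541) (.two (nat_lit 8388609) (nat_lit 183848927299) .nil),
   .two (nat_lit 1277165572) (nat_lit 12047089669) (.two (nat_lit 34603009) (nat_lit 158144135183) (.one (nat_lit 183846830363) .nil)),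
   .two (nat_lit 713031684) (nat_lit 21777874949) (.two (nat_lit 605028353) (nat_lit 11007950966) .nil),
   .two (nat_lit 11546918917) (nat_lit 166129041416) (.two (nat_lit 1048576) (nat_lit 3558866988) (.one (nat_lit 156567077908) .nil)),
   .two (nat_lit 10504634373) (nat_lit 1745879045) (.two (nat_lit 605028353) (nat_lit 874512679) .nil),
   .two (nat_lit 75497477) (nat_lit 47582281741) (.two (nat_lit 16777216) (nat_lit 4632608904) .nil),
   .two (nat_lit 705691652) (nat_lit 1916796933) (.two (nat_lit 9768534017) (nat_lit 3557818411) (.one (nat_lit 21207449874) .nil)),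
   .two (nat_lit 169869316) (nat_lit 46409973764) (.two (nat_lit 2097153) (nat_lit 46980399128) (.one (nat_lit 10372514322) .nil)),
   .two (nat_lit 184986632197) (nat_lit 10343153669) (.two (nat_lit 612368385) (nat_lit 183912890483) .nil),
   .two (nat_lit 218103813) (nat_lit 101711887) (.one (nat_lit 183912890489) .nil),
   .two (nat_lit 176160772) (nat_lit 165526110213) (.two (nat_lit 2097153) (nat_lit 310378785) .nil),
   .two (nat_lit 41943045) (nat_lit 1376780355) .nil,
   .two (nat_lit 8388613) (nat_lit 1358954501) (.two (nat_lit 620756993) (nat_lit 176160783) (.one (nat_lit 13195280505) .nil)),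
   .two (nat_lit 2889875460) (nat_lit 28758245389) (.two (nat_lit 2097152) (nat_lit 641728536) (.one (nat_lit 11578376736) .nil)),
   .two (nat_lit 11484004357) (nat_lit 13191086085) (.two (nat_lit 8388609) (nat_lit 205521218) .nil),
   .two (nat_lit 83886085) (nat_lit 10370416648) (.two (nat_lit 8388608) (nat_lit 158144135183) (.one (nat_lit 2097496) .nil)),
   .two (nat_lit 3527409669) (nat_lit 1913651205) (.two (nat_lit 4194305) (nat_lit 1209008232) (.one (nat_lit 28793897222) .nil)),
   .two (nat_lit 8388612) (nat_lit 156367847429) (.two (nat_lit 37748737) (nat_lit 2927624259) .nil),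
   .two (nat_lit 21777874949) (nat_lit 28758245381) (.two (nat_lit 50331649) (nat_lit 21811429388) (.two (nat_lit 2097152) (nat_lit 174685421899) .nil)),
   .two (nat_lit 809500677) (nat_lit 46407876612) (.two (nat_lit 2097153) (nat_lit 174755676205) (.one (nat_lit 272629881) .nil)),
   .two (nat_lit 184549381) (nat_lit 2954887183) (.one (nat_lit 1761608221) .nil),
   .two (nat_lit 11479810052) (nat_lit 10939793413) (.two (nat_lit 605028353) (nat_lit 1916796943) (.one (nat_lit 641728850) .nil)),
   .two (nat_lit 2902458372) (nat_lit 18928893957) (.two (nat_lit 4194305) (nat_lit 2332033150) .nil),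
   .two (nat_lit 11479810053) (nat_lit 13195280389) (.two (nat_lit 4194305) (nat_lit 11517559035) .nil),
   .two (nat_lit 101711877) (nat_lit 19532873736) (.two (nat_lit 4194304) (nat_lit 13221494829) (.one (nat_lit 9966714997) .nil)),
   .two (nat_lit 41943045) (nat_lit 1291845637) (.two (nat_lit 16777217) (nat_lit 41943107) .nil),
   .two (nat_lit 21785214981) (nat_lit 183848927236) (.two (nat_lit 37748737) (nat_lit 156372041769) (.one (nat_lit 158183981173) .nil)),
   .two (nat_lit 41943045) (nat_lit 1358954501) (.two (nat_lit 620756993) (nat_lit 11551113240) (.one (nat_lit 19537068613) .nil)),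
   .two (nat_lit 183848927236) (nat_lit 20644364293) (.two (nat_lit 8388609) (nat_lit 138412056) (.one (nat_lit 4194887) .nil)),
   .two (nat_lit 169869316) (nat_lit 612368389) (.two (nat_lit 41943041) (nat_lit 159217877007) (.one (nat_lit 1310720137) .nil)),
   .two (nat_lit 16777220) (nat_lit 2956984325) (.two (nat_lit 4194305) (nat_lit 1962934394) .nil),
   .two (nat_lit 4194308) (nat_lit 10503585832) (.one (nat_lit 780141591) .nil),
   .two (nat_lit 4605345797) (nat_lit 13191086085) (.two (nat_lit 37748737) (nat_lit 1216348227) .nil),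
   .two (nat_lit 169869316) (nat_lit 3472883717) (.two (nat_lit 16777217) (nat_lit 2954887183) (.one (nat_lit 166129041705) .nil)),
   .two (nat_lit 10343153669) (nat_lit 12047089669) (.two (nat_lit 34603009) (nat_lit 3028287613) .nil),
   .two (nat_lit 184549380) (nat_lit 46414168069) (.two (nat_lit 8388609) (nat_lit 156367847464) (.one (nat_lit 47550824746) .nil)),
   .two (nat_lit 822083589) (nat_lit 156367847432) (.two (nat_lit 4194304) (nat_lit 2432696364) (.one (nat_lit 21781020944) .nil)),
   .two (nat_lit 75497477) (nat_lit 21777874959) (.one (nat_lit 156465365276) .nil),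
   .two (nat_lit 158144135173) (nat_lit 28757196805) (.two (nat_lit 9765388289) (nat_lit 158144135235) .nil),
   .two (nat_lit 2887778308) (nat_lit 46409973765) (.two (nat_lit 4194305) (nat_lit 10504634383) (.one (nat_lit 1780482386) .nil)),
   .two (nat_lit 10503585797) (nat_lit 174753579020) (.two (nat_lit 8388608) (nat_lit 19027460217) .nil),
   .two (nat_lit 1276116996) (nat_lit 183853121560) (.one (nat_lit 109052420) .nil),
   .two (nat_lit 1276116996) (nat_lit 20638072837) (.two (nat_lit 2097153) (nat_lit 28757196815) (.one (nat_lit 2920284443) .nil)),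
   .two (nat_lit 11479810052) (nat_lit 101711877) (.two (nat_lit 605028353) (nat_lit 12117344271) (.one (nat_lit 37749074) .nil)),
   .two (nat_lit 2097157) (nat_lit 21785214981) (.two (nat_lit 612368385) (nat_lit 605028487) .nil),
   .two (nat_lit 4194308) (nat_lit 1358954501) (.two (nat_lit 620756993) (nat_lit 876609560) (.one (nat_lit 4194890) .nil)),
   .two (nat_lit 809500677) (nat_lit 12114198536) (.two (nat_lit 4194304) (nat_lit 20637024568) .nil),
   .two (nat_lit 1343225861) (nat_lit 12054429704) (.two (nat_lit 1048576) (nat_lit 28093448293) (.one (nat_lit 10939793529) .nil)),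
   .two (nat_lit 1343225861) (nat_lit 746586117) (.two (nat_lit 41943041) (nat_lit 1376780300) (.two (nat_lit 2097152) (nat_lit 9899606153) .nil)),
   .two (nat_lit 4194308) (nat_lit 50331653) (.two (nat_lit 50331649) (nat_lit 306184216) (.one (nat_lit 4195358) .nil)),
   .two (nat_lit 16777221) (nat_lit 158083317765) (.two (nat_lit 41943041) (nat_lit 4613734537) .nil),
   .two (nat_lit 11479810052) (nat_lit 9881780229) (.two (nat_lit 50331649) (nat_lit 166132187160) (.one (nat_lit 11546919429) .nil)),
   .two (nat_lit 171966469) (nat_lit 19530776591) (.one (nat_lit 11007950985) .nil),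
   .two (nat_lit 809500677) (nat_lit 9798942766) (.one (nat_lit 12147753239) .nil),
   .two (nat_lit 620756997) (nat_lit 13195280389) (.two (nat_lit 41943041) (nat_lit 83886095) (.one (nat_lit 11559501945) .nil)),
   .two (nat_lit 41943045) (nat_lit 1358954501) (.two (nat_lit 620756993) (nat_lit 713031695) (.one (nat_lit 10343153948) .nil)),
   .two (nat_lit 1277165572) (nat_lit 184416206853) (.two (nat_lit 34603009) (nat_lit 28758245391) (.one (nat_lit 156466413817) .nil)),
   .two (nat_lit 8388613) (nat_lit 183848927247) (.one (nat_lit 11513364617) .nil),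
   .two (nat_lit 8388612) (nat_lit 11559501829) (.two (nat_lit 50331649) (nat_lit 41943055) (.one (nat_lit 8388953) .nil)),
   .two (nat_lit 218103813) (nat_lit 10504634373) (.two (nat_lit 9766436865) (nat_lit 156548202520) (.one (nat_lit 16778271) .nil)),
   .two (nat_lit 9768534021) (nat_lit 183912890380) (.two (nat_lit 4194304) (nat_lit 11543773313) .nil),
   .two (nat_lit 20637024260) (nat_lit 10947133445) (.two (nat_lit 612368385) (nat_lit 28086108184) (.one (nat_lit 185002361402) .nil)),
   .two (nat_lit 158144135173) (nat_lit 28690087941) (.two (nat_lit 34603009) (nat_lit 21208498191) (.one (nat_lit 10001318226) .nil)),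
   .two (nat_lit 2887778308) (nat_lit 166132187203) .nil,
   .two (nat_lit 176160773) (nat_lit 1291845636) (.two (nat_lit 34603009) (nat_lit 3472883755) (.one (nat_lit 1049632) .nil)),
   .two (nat_lit 11543773189) (nat_lit 1291845637) (.two (nat_lit 16777217) (nat_lit 739246095) (.one (nat_lit 1376780409) .nil)),
   .two (nat_lit 169869316) (nat_lit 46422556677) (.two (nat_lit 16777217) (nat_lit 183947493419) (.one (nat_lit 157035790583) .nil)),
   .two (nat_lit 1343225861) (nat_lit 13195280389) (.two (nat_lit 41943041) (nat_lit 9866051713) .nil),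
   .two (nat_lit 8388612) (nat_lit 158091706373) (.two (nat_lit 50331649) (nat_lit 8388674) .nil),
   .two (nat_lit 11479810052) (nat_lit 1291845637) (.two (nat_lit 16777217) (nat_lit 19130220568) (.one (nat_lit 4634706202) .nil)),
   .two (nat_lit 184549381) (nat_lit 1916796940) (.two (nat_lit 16777216) (nat_lit 1916797045) .nil),
   .two (nat_lit 184549380) (nat_lit 2954887173) (.two (nat_lit 2097153) (nat_lit 21814575223) .nil),
   .two (nat_lit 4194308) (nat_lit 1358954501) (.two (nat_lit 620756993) (nat_lit 876609560) (.one (nat_lit 1346372117) .nil)),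
   .two (nat_lit 8388612) (nat_lit 19532873736) (.two (nat_lit 4194304) (nat_lit 713031705) (.one (nat_lit 185023332634) .nil)),
   .two (nat_lit 184549380) (nat_lit 11476664324) (.two (nat_lit 34603009) (nat_lit 9948889096) (.two (nat_lit 4194304) (nat_lit 2953838857) .nil)),
   .two (nat_lit 169869316) (nat_lit 83886085) (.two (nat_lit 16777217) (nat_lit 203423811) .nil),
   .two (nat_lit 11479810052) (nat_lit 13187940357) (.two (nat_lit 34603009) (nat_lit 183916036120) (.one (nat_lit 37247517242) .nil)),
   .two (nat_lit 203423749) (nat_lit 10343153679) (.one (nat_lit 21214789887) .nil),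
   .two (nat_lit 8388613) (nat_lit 754974725) (.two (nat_lit 50331649) (nat_lit 176160783) (.one (nat_lit 158150426918) .nil)),
   .two (nat_lit 620756997) (nat_lit 272629765) (.two (nat_lit 4194305) (nat_lit 83886088) (.two (nat_lit 16777216) (nat_lit 12050235442) (.one (nat_lit 10351542544) .nil))),
   .two (nat_lit 176160773) (nat_lit 673185805) (.two (nat_lit 2097152) (nat_lit 19134414892) (.one (nat_lit 174692761865) .nil)),
   .two (nat_lit 4605345797) (nat_lit 159216828421) (.two (nat_lit 4194305) (nat_lit 1376780538) .nil),
   .two (nat_lit 721420293) (nat_lit 639631375) (.one (nat_lit 158662132278) .nil),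
   .two (nat_lit 9934209029) (nat_lit 117440517) (.two (nat_lit 620756993) (nat_lit 10538188867) .nil),
   .two (nat_lit 41943045) (nat_lit 1745879055) (.one (nat_lit 19127075158) .nil),
   .two (nat_lit 8388612) (nat_lit 9948889093) (.two (nat_lit 620756993) (nat_lit 41943055) (.one (nat_lit 2994733388) .nil)),
   .two (nat_lit 285212677) (nat_lit 10907287565) (.two (nat_lit 2097152) (nat_lit 50331663) (.one (nat_lit 270532897) .nil)),
   .two (nat_lit 1358954501) (nat_lit 28690087941) (.two (nat_lit 34603009) (nat_lit 21814575229) .nil),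
   .two (nat_lit 159224168453) (nat_lit 10504634373) (.two (nat_lit 9766436865) (nat_lit 3565158446) (.one (nat_lit 1786773796) .nil)),
   .two (nat_lit 713031684) (nat_lit 3458203663) (.one (nat_lit 159251431545) .nil),
   .two (nat_lit 705691652) (nat_lit 9906946114) .nil,
   .two (nat_lit 809500677) (nat_lit 1191182341) (.two (nat_lit 16777217) (nat_lit 809500739) .nil),
   .two (nat_lit 16777220) (nat_lit 12054429701) (.two (nat_lit 41943041) (nat_lit 285212680) (.two (nat_lit 8388608) (nat_lit 1191182889) .nil)),
   .two (nat_lit 184549380) (nat_lit 46414168069) (.two (nat_lit 8388609) (nat_lit 184431935616) .nil),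
   .two (nat_lit 176160773) (nat_lit 46409973765) (.two (nat_lit 8388609) (nat_lit 608174124) (.one (nat_lit 4601151739) .nil)),
   .two (nat_lit 8388612) (nat_lit 83886121) (.one (nat_lit 3573547129) .nil),
   .two (nat_lit 158143086597) (nat_lit 165526110223) (.one (nat_lit 1049167) .nil),
   .two (nat_lit 34603013) (nat_lit 620757004) (.two (nat_lit 16777216) (nat_lit 156465365094) (.one (nat_lit 1049168) .nil)),
   .two (nat_lit 1277165572) (nat_lit 1913651205) (.two (nat_lit 9765388289) (nat_lit 21208498292) .nil),
   .two (nat_lit 41943045) (nat_lit 10909384729) (.one (nat_lit 2357199130) .nil),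
   .two (nat_lit 9765388293) (nat_lit 754974725) (.two (nat_lit 50331649) (nat_lit 1913651215) (.one (nat_lit 1048922) .nil)),
   .two (nat_lit 4605345797) (nat_lit 19599982597) (.two (nat_lit 9768534017) (nat_lit 46414168079) (.one (nat_lit 4605345929) .nil)),
   .two (nat_lit 4194308) (nat_lit 10343153669) (.two (nat_lit 612368385) (nat_lit 13191086095) (.one (nat_lit 339738925) .nil)),
   .two (nat_lit 721420292) (nat_lit 3464495109) (.two (nat_lit 8388609) (nat_lit 46523220011) (.one (nat_lit 21827158596) .nil)),
   .two (nat_lit 176160773) (nat_lit 158075977743) (.one (nat_lit 185020186745) .nil),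
   .two (nat_lit 11479810052) (nat_lit 184986632197) (.two (nat_lit 34603009) (nat_lit 71303291) .nil),
   .two (nat_lit 721420292) (nat_lit 1913651205) (.two (nat_lit 9765388289) (nat_lit 1358954511) (.one (nat_lit 16777564) .nil)),
   .two (nat_lit 166132187140) (nat_lit 183853121551) (.two (nat_lit 4194304) (nat_lit 18933088367) (.one (nat_lit 159224169114) .nil)),
   .two (nat_lit 16777220) (nat_lit 20740833326) (.two (nat_lit 2097152) (nat_lit 1962934905) .nil),
   .two (nat_lit 721420293) (nat_lit 158653743127) (.two (nat_lit 1048576) (nat_lit 9974055596) .nil),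
   .two (nat_lit 708837381) (nat_lit 11559501832) (.two (nat_lit 4194305) (nat_lit 19042140422) (.one (nat_lit 46523220328) .nil)),
   .two (nat_lit 8388612) (nat_lit 606076936) (.two (nat_lit 37748737) (nat_lit 9766436879) (.two (nat_lit 4194304) (nat_lit 2418016387) (.one (nat_lit 8389356) .nil))),
   .two (nat_lit 50331653) (nat_lit 21207449608) (.two (nat_lit 50331649) (nat_lit 1309671448) (.two (nat_lit 2097152) (nat_lit 28690088600) .nil)),
   .two (nat_lit 285212677) (nat_lit 165526110222) (.two (nat_lit 9781116929) (nat_lit 2921332759) (.two (nat_lit 2097152) (nat_lit 16777743) (.one (nat_lit 10538189424) .nil))),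
   .two (nat_lit 754974725) (nat_lit 2416967693) (.two (nat_lit 9765388289) (nat_lit 285212783) (.one (nat_lit 158192370376) .nil)),
   .two (nat_lit 2097157) (nat_lit 721420296) (.two (nat_lit 2097153) (nat_lit 12163481625) (.two (nat_lit 1048576) (nat_lit 12115247243) (.one (nat_lit 2098317) .nil))),
   .two (nat_lit 21778923525) (nat_lit 158083317775) (.two (nat_lit 2097152) (nat_lit 9869197432) (.one (nat_lit 4195470) .nil)),
   .two (nat_lit 4194308) (nat_lit 156566028301) (.two (nat_lit 8388609) (nat_lit 68157455) (.two (nat_lit 8388608) (nat_lit 705691914) (.one (nat_lit 4195471) .nil))),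
   .two (nat_lit 3527409669) (nat_lit 10436476951) (.two (nat_lit 2097152) (nat_lit 1048861) (.one (nat_lit 1049325) .nil)),
   .two (nat_lit 13191086085) (nat_lit 1745879064) (.two (nat_lit 1048576) (nat_lit 9936306878) .nil),
   .two (nat_lit 203423749) (nat_lit 158143086607) (.two (nat_lit 2097152) (nat_lit 166196150383) (.one (nat_lit 12617515674) .nil)),
   .two (nat_lit 1277165572) (nat_lit 10506731535) (.two (nat_lit 2097152) (nat_lit 166132187249) (.one (nat_lit 10003415657) .nil)),
   .two (nat_lit 13191086085) (nat_lit 1753219087) (.two (nat_lit 8388608) (nat_lit 1312817796) .nil),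
   .two (nat_lit 3458203653) (nat_lit 1376780300) (.two (nat_lit 606076929) (nat_lit 11577327681) (.one (nat_lit 12147753631) .nil)),
   .two (nat_lit 2097157) (nat_lit 9768534024) (.two (nat_lit 34603009) (nat_lit 13191086106) (.two (nat_lit 1048576) (nat_lit 1344274569) (.one (nat_lit 11610883111) .nil))),
   .two (nat_lit 620756997) (nat_lit 184416206856) (.two (nat_lit 620756993) (nat_lit 705691674) (.two (nat_lit 4194304) (nat_lit 2886729976) (.one (nat_lit 1049745) .nil))),
   .two (nat_lit 10336862213) (nat_lit 2969567298) (.one (nat_lit 12129927841) .nil),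
   .two (nat_lit 270532613) (nat_lit 9768534031) (.two (nat_lit 4194304) (nat_lit 3525313184) .nil),
   .two (nat_lit 176160772) (nat_lit 3573547021) (.two (nat_lit 16777217) (nat_lit 47555018767) (.two (nat_lit 16777216) (nat_lit 3020947718) (.one (nat_lit 1049746) .nil))),
   .two (nat_lit 9948889093) (nat_lit 11577327641) (.two (nat_lit 2097152) (nat_lit 2920284280) (.one (nat_lit 184416207535) .nil)),
   .two (nat_lit 2097157) (nat_lit 28693233679) (.two (nat_lit 1048576) (nat_lit 10540286211) (.one (nat_lit 4195055) .nil)),
   .two (nat_lit 1847590917) (nat_lit 2902458383) (.two (nat_lit 2097152) (nat_lit 165540790632) .nil),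
   .two (nat_lit 10504634373) (nat_lit 28757196813) (.two (nat_lit 156364701697) (nat_lit 3565158532) (.one (nat_lit 8389360) .nil)),
   .two (nat_lit 2889875461) (nat_lit 10343153679) (.two (nat_lit 4194304) (nat_lit 243269698) (.one (nat_lit 158653743819) .nil)),
   .two (nat_lit 209715205) (nat_lit 156533522444) (.two (nat_lit 606076929) (nat_lit 4605345857) (.one (nat_lit 8389779) .nil)),
   .two (nat_lit 20638072837) (nat_lit 1916796940) (.two (nat_lit 2097153) (nat_lit 12117344321) (.one (nat_lit 46477083369) .nil)),
   .two (nat_lit 75497477) (nat_lit 157038936072) (.two (nat_lit 8388609) (nat_lit 156971827311) (.one (nat_lit 4195057) .nil)),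
   .two (nat_lit 34603013) (nat_lit 184549391) (.two (nat_lit 2097152) (nat_lit 2953838714) (.one (nat_lit 1049748) .nil)),
   .two (nat_lit 176160772) (nat_lit 9948889103) (.two (nat_lit 8388608) (nat_lit 174752530547) (.one (nat_lit 2987394096) .nil)),
   .two (nat_lit 4601151493) (nat_lit 11007950860) (.two (nat_lit 4194305) (nat_lit 20705181832) (.one (nat_lit 46474986129) .nil)),
   .two (nat_lit 9933160453) (nat_lit 20638072847) (.two (nat_lit 1048576) (nat_lit 11578376312) (.one (nat_lit 47550825115) .nil)),
   .two (nat_lit 809500677) (nat_lit 9881780239) (.two (nat_lit 4194304) (nat_lit 2902458493) (.one (nat_lit 46510637675) .nil)),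
   .two (nat_lit 2969567237) (nat_lit 4634705932) (.two (nat_lit 9781116929) (nat_lit 239075351) (.two (nat_lit 4194304) (nat_lit 318767629) (.one (nat_lit 1849688725) .nil))),
   .two (nat_lit 620756997) (nat_lit 12117344268) (.two (nat_lit 4194305) (nat_lit 1358954520) (.two (nat_lit 16777216) (nat_lit 19599982703) (.one (nat_lit 19029557940) .nil))),
   .two (nat_lit 1795162117) (nat_lit 2416967692) (.two (nat_lit 605028353) (nat_lit 9781117038) (.one (nat_lit 174701150829) .nil)),
   .two (nat_lit 1779433477) (nat_lit 165532401672) (.two (nat_lit 34603009) (nat_lit 156372041836) (.one (nat_lit 8389781) .nil)),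
   .two (nat_lit 20637024260) (nat_lit 117440527) (.two (nat_lit 1048576) (nat_lit 10385096819) (.one (nat_lit 166211879999) .nil)),
   .two (nat_lit 4194308) (nat_lit 10336862216) (.two (nat_lit 2097153) (nat_lit 12050235415) (.two (nat_lit 2097152) (nat_lit 1178599562) (.one (nat_lit 1411383908) .nil))),
   .two (nat_lit 2887778308) (nat_lit 1753219084) (.two (nat_lit 2097153) (nat_lit 209715327) (.one (nat_lit 310379187) .nil)),
   .two (nat_lit 1291845637) (nat_lit 174753579021) (.two (nat_lit 16777217) (nat_lit 184417255468) (.two (nat_lit 2097152) (nat_lit 10955522179) (.one (nat_lit 185035916419) .nil))),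
   .two (nat_lit 8388612) (nat_lit 9934209032) (.two (nat_lit 8388609) (nat_lit 2988441623) (.two (nat_lit 8388608) (nat_lit 157036839050) (.one (nat_lit 176161403) .nil))),
   .two (nat_lit 4605345797) (nat_lit 2316304397) (.two (nat_lit 8388609) (nat_lit 1779433736) (.one (nat_lit 4027581037) .nil)),
   .two (nat_lit 13191086085) (nat_lit 21207449608) (.two (nat_lit 37748737) (nat_lit 158075977743) (.two (nat_lit 1048576) (nat_lit 11513364717) (.one (nat_lit 11546919585) .nil))),
   .two (nat_lit 612368389) (nat_lit 12129927176) (.two (nat_lit 50331649) (nat_lit 10376708219) (.one (nat_lit 10001318247) .nil)),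
   .two (nat_lit 8388612) (nat_lit 2902458376) (.two (nat_lit 16777217) (nat_lit 4638900247) (.two (nat_lit 16777216) (nat_lit 19604177420) (.one (nat_lit 19545457256) .nil))),
   .two (nat_lit 4605345797) (nat_lit 1209008152) (.two (nat_lit 8388608) (nat_lit 21207449738) (.one (nat_lit 10510926440) .nil)),
   .two (nat_lit 2097157) (nat_lit 11492392975) (.two (nat_lit 1048576) (nat_lit 13222543485) (.one (nat_lit 16778394) .nil)),
   .two (nat_lit 176160772) (nat_lit 158075977736) (.two (nat_lit 8388609) (nat_lit 12617515133) (.one (nat_lit 166203490996) .nil)),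
   .two (nat_lit 10336862213) (nat_lit 9802088460) (.two (nat_lit 9768534017) (nat_lit 10437525624) (.one (nat_lit 37247517300) .nil)),
   .two (nat_lit 2887778308) (nat_lit 12117344271) (.two (nat_lit 2097152) (nat_lit 10338959479) (.one (nat_lit 19599983254) .nil)),
   .two (nat_lit 46414168069) (nat_lit 28086108173) (.two (nat_lit 41943041) (nat_lit 9866051706) (.one (nat_lit 10939794160) .nil)),
   .two (nat_lit 1191182341) (nat_lit 157038936072) (.two (nat_lit 4194305) (nat_lit 9881780335) (.one (nat_lit 2902459029) .nil)),
   .two (nat_lit 4605345797) (nat_lit 2988441612) (.two (nat_lit 8388609) (nat_lit 4028629105) (.one (nat_lit 9867100784) .nil)),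
   .two (nat_lit 16777220) (nat_lit 46978301966) (.two (nat_lit 2097153) (nat_lit 185035915289) (.two (nat_lit 1048576) (nat_lit 285212792) (.one (nat_lit 11511267686) .nil))),
   .two (nat_lit 28693233669) (nat_lit 721420303) (.two (nat_lit 4194304) (nat_lit 19109249281) (.one (nat_lit 46523221045) .nil)),
   .two (nat_lit 9948889093) (nat_lit 1916796940) (.two (nat_lit 4194305) (nat_lit 9881780247) (.two (nat_lit 4194304) (nat_lit 4647289346) (.one (nat_lit 1795162799) .nil))),
   .two (nat_lit 9948889093) (nat_lit 1916796940) (.two (nat_lit 4194305) (nat_lit 9881780248) (.two (nat_lit 16777216) (nat_lit 156971827311) (.one (nat_lit 2990539817) .nil))),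
   .two (nat_lit 2889875461) (nat_lit 203423752) (.two (nat_lit 4194305) (nat_lit 2988441711) (.one (nat_lit 1212154518) .nil)),
   .two (nat_lit 1277165573) (nat_lit 117440527) (.two (nat_lit 2097152) (nat_lit 18941476998) (.one (nat_lit 16777970) .nil)),
   .two (nat_lit 50331653) (nat_lit 2954887183) (.two (nat_lit 16777216) (nat_lit 47582281836) (.one (nat_lit 10015998587) .nil)),
   .two (nat_lit 8388612) (nat_lit 11513364526) (.two (nat_lit 2097152) (nat_lit 10372513908) (.one (nat_lit 19100861515) .nil)),
   .two (nat_lit 11492392965) (nat_lit 185020186649) (.two (nat_lit 1048576) (nat_lit 20738736378) (.one (nat_lit 166130091109) .nil)),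
   .two (nat_lit 2097157) (nat_lit 19532873741) (.two (nat_lit 2097153) (nat_lit 4030726170) (.two (nat_lit 1048576) (nat_lit 19597885702) (.one (nat_lit 156969730407) .nil))),
   .two (nat_lit 169869316) (nat_lit 10436476951) (.two (nat_lit 2097152) (nat_lit 158075977866) (.one (nat_lit 20637024993) .nil)),
   .two (nat_lit 1358954501) (nat_lit 28693233677) (.two (nat_lit 37748737) (nat_lit 9881780239) (.two (nat_lit 16777216) (nat_lit 28693233774) (.one (nat_lit 21210595990) .nil))),
   .two (nat_lit 166130089988) (nat_lit 654311491) (.one (nat_lit 28101837417) .nil),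
   .two (nat_lit 176160772) (nat_lit 1795162127) (.two (nat_lit 16777216) (nat_lit 158083317871) (.one (nat_lit 1853883030) .nil)),
   .two (nat_lit 11479810052) (nat_lit 3464495119) (.two (nat_lit 4194304) (nat_lit 159224168558) (.one (nat_lit 75498170) .nil)),
   .two (nat_lit 47548727301) (nat_lit 135266317) (.two (nat_lit 2097153) (nat_lit 235929644) (.two (nat_lit 2097152) (nat_lit 135266414) (.one (nat_lit 9866052261) .nil))),
   .two (nat_lit 8388612) (nat_lit 2316304397) (.two (nat_lit 2097153) (nat_lit 47547678968) (.one (nat_lit 47547679340) .nil)),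
   .two (nat_lit 184419352581) (nat_lit 9781116940) (.two (nat_lit 37748737) (nat_lit 117440627) (.one (nat_lit 16778395) .nil)),
   .two (nat_lit 2969567237) (nat_lit 19599982604) (.two (nat_lit 4194305) (nat_lit 9881780289) (.one (nat_lit 47596962483) .nil)),
   .two (nat_lit 2889875460) (nat_lit 159217877007) (.two (nat_lit 2097152) (nat_lit 306184302) (.one (nat_lit 10506732248) .nil)),
   .two (nat_lit 2902458372) (nat_lit 8388623) (.two (nat_lit 16777216) (nat_lit 9806282872) (.one (nat_lit 19100861033) .nil)),
   .two (nat_lit 1277165572) (nat_lit 12047089679) (.two (nat_lit 1048576) (nat_lit 174686470268) (.one (nat_lit 20705182350) .nil)),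
   .two (nat_lit 9781116933) (nat_lit 12047089679) (.two (nat_lit 16777216) (nat_lit 11577327732) (.one (nat_lit 1947206293) .nil)),
   .two (nat_lit 12047089669) (nat_lit 3464495171) (.one (nat_lit 156976021865) .nil),
   .two (nat_lit 11492392964) (nat_lit 101711885) (.two (nat_lit 50331649) (nat_lit 46414168315) (.one (nat_lit 8389788) .nil)),
   .two (nat_lit 18928893957) (nat_lit 10437525517) (.two (nat_lit 4194305) (nat_lit 203423788) (.two (nat_lit 8388608) (nat_lit 102760584) (.one (nat_lit 2098333) .nil))),
   .two (nat_lit 620756997) (nat_lit 1753219084) (.two (nat_lit 8388609) (nat_lit 9881780334) (.one (nat_lit 2432696999) .nil)),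
   .two (nat_lit 19596836869) (nat_lit 639631375) (.two (nat_lit 1048576) (nat_lit 21778923648) (.one (nat_lit 183947494467) .nil)),
   .two (nat_lit 2889875461) (nat_lit 46978301977) (.two (nat_lit 4194304) (nat_lit 2097680) (.one (nat_lit 166199296702) .nil)),
   .two (nat_lit 184549381) (nat_lit 183912890380) (.two (nat_lit 16777217) (nat_lit 772800627) (.one (nat_lit 184986632833) .nil)),
   .two (nat_lit 3464495109) (nat_lit 28086108175) (.two (nat_lit 8388608) (nat_lit 21207449720) (.one (nat_lit 806355564) .nil)),
   .two (nat_lit 605028357) (nat_lit 4605345800) (.two (nat_lit 4194305) (nat_lit 156532474132) (.one (nat_lit 1049758) .nil)),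
   .two (nat_lit 721420293) (nat_lit 156465365006) (.two (nat_lit 2097153) (nat_lit 788529284) (.one (nat_lit 9766437495) .nil)),
   .two (nat_lit 46980399109) (nat_lit 19596836879) (.two (nat_lit 4194304) (nat_lit 37246468209) (.one (nat_lit 11610882672) .nil)),
   .two (nat_lit 10385096709) (nat_lit 75497487) (.two (nat_lit 4194304) (nat_lit 2994733738) .nil),
   .two (nat_lit 4194308) (nat_lit 620757000) (.two (nat_lit 2097153) (nat_lit 10338959468) (.one (nat_lit 12117344901) .nil)),
   .two (nat_lit 809500677) (nat_lit 158143086600) (.two (nat_lit 37748737) (nat_lit 1276117016) (.two (nat_lit 1048576) (nat_lit 9936306806) .nil)),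
   .two (nat_lit 2954887173) (nat_lit 28690087944) (.two (nat_lit 9766436865) (nat_lit 158075977866) (.one (nat_lit 21777875607) .nil)),
   .two (nat_lit 8388612) (nat_lit 183912890382) (.two (nat_lit 16777217) (nat_lit 1175453711) (.two (nat_lit 16777216) (nat_lit 1376780559) (.one (nat_lit 8389791) .nil))),
   .two (nat_lit 1276116996) (nat_lit 156372041740) (.two (nat_lit 605028353) (nat_lit 183953784950) (.one (nat_lit 184993972843) .nil)),
   .two (nat_lit 1745879045) (nat_lit 754974787) (.one (nat_lit 19042140780) .nil),
   .two (nat_lit 721420293) (nat_lit 166132187151) (.two (nat_lit 16777216) (nat_lit 28693233778) (.one (nat_lit 10909385332) .nil)),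
   .two (nat_lit 11479810052) (nat_lit 183845781519) (.two (nat_lit 1048576) (nat_lit 12618564321) .nil),
   .two (nat_lit 9881780229) (nat_lit 10007609356) (.two (nat_lit 50331649) (nat_lit 159224168561) (.one (nat_lit 46514832003) .nil)),
   .two (nat_lit 11543773189) (nat_lit 158647451662) (.two (nat_lit 16777217) (nat_lit 21811429496) (.one (nat_lit 2098336) .nil)),
   .two (nat_lit 9948889093) (nat_lit 10506731528) (.two (nat_lit 4194305) (nat_lit 1795162127) (.two (nat_lit 16777216) (nat_lit 1916797180) (.one (nat_lit 1224737411) .nil))),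
   .two (nat_lit 8388612) (nat_lit 606076936) (.two (nat_lit 8388609) (nat_lit 708837513) (.one (nat_lit 21781021736) .nil)),
   .two (nat_lit 176160772) (nat_lit 158144135183) (.two (nat_lit 2097152) (nat_lit 176160888) (.one (nat_lit 156573368937) .nil)),
   .two (nat_lit 169869316) (nat_lit 9768534024) (.two (nat_lit 2097153) (nat_lit 12117344364) (.one (nat_lit 19599983222) .nil)),
   .two (nat_lit 2902458373) (nat_lit 19130220569) (.two (nat_lit 4194304) (nat_lit 20711473288) (.one (nat_lit 679478409) .nil)),
   .two (nat_lit 8388612) (nat_lit 606076936) (.two (nat_lit 37748737) (nat_lit 18933088376) (.one (nat_lit 2098337) .nil)),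
   .two (nat_lit 184549380) (nat_lit 1779433480) (.two (nat_lit 9765388289) (nat_lit 9982443544) (.two (nat_lit 16777216) (nat_lit 1049106) (.one (nat_lit 156548203157) .nil))),
   .two (nat_lit 19599982597) (nat_lit 19530776589) (.two (nat_lit 2097153) (nat_lit 184431935620) (.one (nat_lit 83886828) .nil)),
   .two (nat_lit 4601151493) (nat_lit 713031695) (.two (nat_lit 4194304) (nat_lit 142606456) (.one (nat_lit 1920991896) .nil)),
   .two (nat_lit 50331653) (nat_lit 166199296012) (.two (nat_lit 37748737) (nat_lit 174759870479) (.two (nat_lit 8388608) (nat_lit 46523220585) .nil)),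
   .two (nat_lit 1795162117) (nat_lit 2416967692) (.two (nat_lit 605028353) (nat_lit 1358954620) (.one (nat_lit 721420925) .nil)),
   .two (nat_lit 1291845636) (nat_lit 165526110223) (.two (nat_lit 8388608) (nat_lit 236978838) .nil),
   .two (nat_lit 285212677) (nat_lit 806354958) (.two (nat_lit 8388609) (nat_lit 156984410237) (.one (nat_lit 1426063720) .nil)),
   .two (nat_lit 165526110213) (nat_lit 9948889103) (.two (nat_lit 2097152) (nat_lit 1291845745) (.one (nat_lit 28705817196) .nil)),
   .two (nat_lit 184993972229) (nat_lit 19532873736) (.two (nat_lit 41943041) (nat_lit 10439622679) (.two (nat_lit 4194304) (nat_lit 8389139) (.one (nat_lit 2889876120) .nil))),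
   .two (nat_lit 83886085) (nat_lit 2954887232) (.one (nat_lit 159251431619) .nil),
   .two (nat_lit 739246085) (nat_lit 46414168077) (.two (nat_lit 34603009) (nat_lit 11517558851) (.one (nat_lit 8389794) .nil)),
   .two (nat_lit 184549380) (nat_lit 1753219080) (.two (nat_lit 16777217) (nat_lit 1786773547) (.two (nat_lit 8388608) (nat_lit 117441254) .nil)),
   .two (nat_lit 1277165572) (nat_lit 19532873741) (.two (nat_lit 4194305) (nat_lit 9900654616) (.two (nat_lit 1048576) (nat_lit 183949591186) .nil)),
   .two (nat_lit 184549380) (nat_lit 1916796943) (.two (nat_lit 2097152) (nat_lit 104858254) .nil),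
   .two (nat_lit 176160772) (nat_lit 165525061647) (.two (nat_lit 8388608) (nat_lit 183845781627) (.one (nat_lit 156566029420) .nil)),
   .two (nat_lit 4599054341) (nat_lit 46414168079) (.two (nat_lit 2097152) (nat_lit 2886729848) (.one (nat_lit 739246767) .nil)),
   .two (nat_lit 16777221) (nat_lit 156372041740) (.two (nat_lit 612368385) (nat_lit 2902458433) (.one (nat_lit 12633244268) .nil)),
   .two (nat_lit 713031684) (nat_lit 157036838927) (.two (nat_lit 8388608) (nat_lit 19027460206) (.one (nat_lit 19530777224) .nil)),
   .two (nat_lit 11476664324) (nat_lit 1847590920) (.two (nat_lit 34603009) (nat_lit 236978301) (.one (nat_lit 11477713548) .nil)),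
   .two (nat_lit 8388612) (nat_lit 606076936) (.two (nat_lit 8388609) (nat_lit 304087066) (.two (nat_lit 4194304) (nat_lit 156372042367) .nil)),
   .two (nat_lit 50331653) (nat_lit 174752530440) (.two (nat_lit 34603009) (nat_lit 285212737) (.one (nat_lit 28806480489) .nil)),
   .two (nat_lit 16777221) (nat_lit 705691656) (.two (nat_lit 2097153) (nat_lit 4631560311) (.one (nat_lit 37262197379) .nil)),
   .two (nat_lit 169869316) (nat_lit 3527409672) (.two (nat_lit 9768534017) (nat_lit 3021996056) (.two (nat_lit 2097152) (nat_lit 18928894090) (.one (nat_lit 639632030) .nil))),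
   .two (nat_lit 8388613) (nat_lit 10940841992) (.two (nat_lit 8388609) (nat_lit 166130089999) (.two (nat_lit 1048576) (nat_lit 1853882630) (.one (nat_lit 2098339) .nil))),
   .two (nat_lit 203423749) (nat_lit 28757196813) (.two (nat_lit 606076929) (nat_lit 4598005894) (.one (nat_lit 135267058) .nil)),
   .two (nat_lit 3464495109) (nat_lit 285212712) (.two (nat_lit 8388608) (nat_lit 9915335015) .nil),
   .two (nat_lit 176160773) (nat_lit 37313576972) (.two (nat_lit 41943041) (nat_lit 10436476993) (.one (nat_lit 10503586155) .nil)),
   .two (nat_lit 16777220) (nat_lit 9933160460) (.two (nat_lit 16777217) (nat_lit 1779433593) (.one (nat_lit 303039580) .nil)),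
   .two (nat_lit 41943045) (nat_lit 2902458383) (.two (nat_lit 16777216) (nat_lit 2323644552) (.one (nat_lit 176161884) .nil)),
   .two (nat_lit 41943045) (nat_lit 10537140238) (.two (nat_lit 4194305) (nat_lit 2994733082) (.two (nat_lit 1048576) (nat_lit 1782579317) (.one (nat_lit 1049766) .nil)))]

theorem k0 : chkL tab c0 (nat_lit 0) = true := by decide +kernel

theorem l0 : c0.length = 2200 := by decide +kernel

end K4

end Pool.Agent.Work.MP_bf01b2_co.MR
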