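import Pool.Agent.Work.MP_bf01b2_co.MR.K4T

/-!
# Three and four roots in `Q_5`: certificates of the entries 2200 to 4399
-/

set_option autoImplicit false
set_option maxRecDepth 100000

namespace Pool.Agent.Work.MP_bf01b2_co.MR

namespace K4

open JT

/-- certificates of the entries 2200 to 4399 -/
def c1 : List Rc :=
  [.two (nat_lit 34603013) (nat_lit 2969567297) (.one (nat_lit 16778407) .nil),
   .two (nat_lit 1358954501) (nat_lit 1178599432) (.two (nat_lit 37748737) (nat_lit 1291845655) (.two (nat_lit 4194304) (nat_lit 158091706888) (.one (nat_lit 21827158666) .nil))),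
   .two (nat_lit 1291845636) (nat_lit 1847590935) (.two (nat_lit 4194304) (nat_lit 28758246064) .nil),
   .two (nat_lit 713031684) (nat_lit 739246088) (.two (nat_lit 612368385) (nat_lit 11476664344) (.two (nat_lit 4194304) (nat_lit 9765388404) (.one (nat_lit 1049332) .nil))),
   .two (nat_lit 9781116933) (nat_lit 310378522) (.two (nat_lit 1048576) (nat_lit 1392509054) (.one (nat_lit 8389365) .nil)),
   .two (nat_lit 11476664324) (nat_lit 156533522446) (.two (nat_lit 50331649) (nat_lit 46977253494) (.one (nat_lit 1049754) .nil)),
   .two (nat_lit 83886085) (nat_lit 1753219087) (.two (nat_lit 8388608) (nat_lit 9881780289) (.one (nat_lit 8389366) .nil)),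
   .two (nat_lit 101711877) (nat_lit 19532873736) (.two (nat_lit 9765388289) (nat_lit 675282968) (.two (nat_lit 4194304) (nat_lit 1049112) (.one (nat_lit 156532474522) .nil))),
   .two (nat_lit 28690087941) (nat_lit 50331663) (.two (nat_lit 1048576) (nat_lit 1325400327) (.one (nat_lit 1795163213) .nil)),
   .two (nat_lit 4194308) (nat_lit 41943048) (.two (nat_lit 4194305) (nat_lit 185027526679) (.two (nat_lit 8388608) (nat_lit 4194841) (.one (nat_lit 2990539505) .nil))),
   .two (nat_lit 117440517) (nat_lit 2416967692) (.two (nat_lit 605028353) (nat_lit 2902458433) (.one (nat_lit 2936013468) .nil)),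
   .two (nat_lit 176160772) (nat_lit 1191182351) (.two (nat_lit 1048576) (nat_lit 166203490922) .nil),
   .two (nat_lit 13191086085) (nat_lit 28086108168) (.two (nat_lit 37748737) (nat_lit 20637024279) (.two (nat_lit 8388608) (nat_lit 21777875594) .nil)),
   .two (nat_lit 8388612) (nat_lit 2902458376) (.two (nat_lit 41943041) (nat_lit 3539992599) (.two (nat_lit 16777216) (nat_lit 1317011594) (.one (nat_lit 318767771) .nil))),
   .two (nat_lit 21785214981) (nat_lit 19597885465) (.two (nat_lit 1048576) (nat_lit 174686470831) .nil),
   .two (nat_lit 270532613) (nat_lit 10007609356) (.two (nat_lit 2097153) (nat_lit 75497487) (.two (nat_lit 1048576) (nat_lit 10370416755) (.one (nat_lit 2098344) .nil))),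
   .two (nat_lit 176160773) (nat_lit 2954887176) (.two (nat_lit 2097153) (nat_lit 13195280399) (.two (nat_lit 16777216) (nat_lit 18933088918) .nil)),
   .two (nat_lit 75497477) (nat_lit 156968681486) (.two (nat_lit 16777217) (nat_lit 9765388404) (.one (nat_lit 8389801) .nil)),
   .two (nat_lit 4194308) (nat_lit 721420296) (.two (nat_lit 4194305) (nat_lit 185002360855) (.two (nat_lit 16777216) (nat_lit 19096666250) (.one (nat_lit 4613735146) .nil))),
   .two (nat_lit 605028357) (nat_lit 3539992600) (.two (nat_lit 4194304) (nat_lit 13237224132) .nil),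
   .two (nat_lit 159224168453) (nat_lit 158077026319) (.two (nat_lit 2097152) (nat_lit 11484005054) .nil),
   .two (nat_lit 2097157) (nat_lit 9768534024) (.two (nat_lit 605028353) (nat_lit 773849133) (.two (nat_lit 1048576) (nat_lit 1344274549) (.one (nat_lit 1049770) .nil))),
   .two (nat_lit 2097157) (nat_lit 3003121687) (.two (nat_lit 2097152) (nat_lit 13237224068) .nil),
   .two (nat_lit 2902458372) (nat_lit 1779433480) (.two (nat_lit 16777217) (nat_lit 11577327741) (.one (nat_lit 46977254051) .nil)),
   .two (nat_lit 2902458373) (nat_lit 47582281753) (.two (nat_lit 2097152) (nat_lit 13187940488) (.one (nat_lit 9765389462) .nil)),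
   .two (nat_lit 12117344261) (nat_lit 10007609384) (.two (nat_lit 4194304) (nat_lit 19537068391) .nil),
   .two (nat_lit 183845781508) (nat_lit 158192369731) (.one (nat_lit 16778412) .nil),
   .two (nat_lit 46409973764) (nat_lit 4605345817) (.two (nat_lit 4194304) (nat_lit 9933160584) (.one (nat_lit 1049773) .nil)),
   .two (nat_lit 16777220) (nat_lit 4028629006) (.two (nat_lit 2097153) (nat_lit 1795162158) (.two (nat_lit 8388608) (nat_lit 10921967864) (.one (nat_lit 16778414) .nil))),
   .two (nat_lit 11476664324) (nat_lit 19530776584) (.two (nat_lit 9765388289) (nat_lit 3558866967) (.two (nat_lit 4194304) (nat_lit 2987393667) .nil)),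
   .two (nat_lit 19599982597) (nat_lit 2954887183) (.two (nat_lit 4194304) (nat_lit 3558867060) (.one (nat_lit 11007951509) .nil)),
   .two (nat_lit 8388612) (nat_lit 754974728) (.two (nat_lit 8388609) (nat_lit 1929379864) (.two (nat_lit 1048576) (nat_lit 12062819023) .nil)),
   .two (nat_lit 184986632197) (nat_lit 1916796940) (.two (nat_lit 34603009) (nat_lit 19130220659) (.one (nat_lit 4195450) .nil)),
   .two (nat_lit 1178599429) (nat_lit 165526110223) (.two (nat_lit 4194304) (nat_lit 1176502399) (.one (nat_lit 1746928675) .nil)),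
   .two (nat_lit 183848927236) (nat_lit 46978302018) (.one (nat_lit 2098352) .nil),
   .two (nat_lit 10343153669) (nat_lit 135266316) (.two (nat_lit 612368385) (nat_lit 12147753085) (.one (nat_lit 13221495928) .nil)),
   .two (nat_lit 50331653) (nat_lit 21207449608) (.two (nat_lit 50331649) (nat_lit 165525061656) (.two (nat_lit 2097152) (nat_lit 12047090372) .nil)),
   .two (nat_lit 11559501829) (nat_lit 12047089672) (.two (nat_lit 9781116929) (nat_lit 183845781527) (.two (nat_lit 1048576) (nat_lit 16777504) (.one (nat_lit 21207450264) .nil))),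
   .two (nat_lit 11479810053) (nat_lit 10336862223) (.two (nat_lit 8388608) (nat_lit 10907288200) .nil),
   .two (nat_lit 209715205) (nat_lit 1191182351) (.two (nat_lit 16777216) (nat_lit 19604177164) (.one (nat_lit 11517559469) .nil)),
   .two (nat_lit 9781116933) (nat_lit 9866051599) (.two (nat_lit 16777216) (nat_lit 20704133186) (.one (nat_lit 1947206339) .nil)),
   .two (nat_lit 4194308) (nat_lit 343932941) (.two (nat_lit 8388609) (nat_lit 157038936188) (.one (nat_lit 183853122193) .nil)),
   .two (nat_lit 203423749) (nat_lit 822083596) (.two (nat_lit 620756993) (nat_lit 4028629057) (.one (nat_lit 2098353) .nil)),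
   .two (nat_lit 2956984325) (nat_lit 21208498191) (.two (nat_lit 1048576) (nat_lit 10003415658) .nil),
   .two (nat_lit 8388612) (nat_lit 2889875464) (.two (nat_lit 41943041) (nat_lit 205520920) (.two (nat_lit 2097152) (nat_lit 10372513908) (.one (nat_lit 158083318877) .nil))),
   .two (nat_lit 2954887173) (nat_lit 3527409676) (.two (nat_lit 9766436865) (nat_lit 339738647) (.two (nat_lit 4194304) (nat_lit 166130090501) (.one (nat_lit 104858261) .nil))),
   .two (nat_lit 157036838917) (nat_lit 654311439) (.two (nat_lit 2097152) (nat_lit 1224736894) (.one (nat_lit 159266112218) .nil)),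
   .two (nat_lit 1753219077) (nat_lit 183845781519) (.two (nat_lit 1048576) (nat_lit 46978302018) (.one (nat_lit 157036839513) .nil)),
   .two (nat_lit 176160772) (nat_lit 1277165576) (.two (nat_lit 8388609) (nat_lit 9867100184) (.two (nat_lit 1048576) (nat_lit 37314626206) .nil)),
   .two (nat_lit 754974725) (nat_lit 9768534031) (.two (nat_lit 16777216) (nat_lit 46477082744) (.one (nat_lit 4030726773) .nil)),
   .two (nat_lit 4194308) (nat_lit 10940841999) (.two (nat_lit 4194304) (nat_lit 156466413823) (.one (nat_lit 174753579656) .nil)),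
   .two (nat_lit 9934209029) (nat_lit 18925748248) (.two (nat_lit 1048576) (nat_lit 166130090122) (.one (nat_lit 28690088606) .nil)),
   .two (nat_lit 28757196805) (nat_lit 28806479919) (.two (nat_lit 1048576) (nat_lit 10519314554) (.one (nat_lit 37262197438) .nil)),
   .two (nat_lit 159216828421) (nat_lit 10336862223) (.two (nat_lit 4194304) (nat_lit 202375287) (.one (nat_lit 1780483225) .nil)),
   .two (nat_lit 4194308) (nat_lit 839909390) (.two (nat_lit 16777217) (nat_lit 34603143) (.one (nat_lit 4195506) .nil)),
   .two (nat_lit 12121538565) (nat_lit 19532873743) (.two (nat_lit 2097152) (nat_lit 19029557362) (.one (nat_lit 809501875) .nil)),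
   .two (nat_lit 2889875461) (nat_lit 1745879048) (.two (nat_lit 37748737) (nat_lit 158646403137) (.one (nat_lit 1049335) .nil)),
   .two (nat_lit 13191086085) (nat_lit 158083317775) (.two (nat_lit 1048576) (nat_lit 708838049) .nil),
   .two (nat_lit 34603013) (nat_lit 183853121544) (.two (nat_lit 34603009) (nat_lit 28691136527) (.two (nat_lit 8388608) (nat_lit 37313577086) (.one (nat_lit 11544822827) .nil))),
   .two (nat_lit 41943045) (nat_lit 166196150284) (.two (nat_lit 34603009) (nat_lit 47555018860) (.one (nat_lit 1853882990) .nil)),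
   .two (nat_lit 2954887173) (nat_lit 1779433480) (.two (nat_lit 2097153) (nat_lit 1276117015) (.two (nat_lit 2097152) (nat_lit 156968681610) (.one (nat_lit 28086108778) .nil))),
   .two (nat_lit 21785214981) (nat_lit 3558866968) (.two (nat_lit 8388608) (nat_lit 21778923648) (.one (nat_lit 37247517336) .nil)),
   .two (nat_lit 171966469) (nat_lit 620757000) (.two (nat_lit 4194305) (nat_lit 158192369689) (.two (nat_lit 1048576) (nat_lit 184549496) (.one (nat_lit 742392167) .nil))),
   .two (nat_lit 169869316) (nat_lit 9933160462) (.two (nat_lit 8388609) (nat_lit 47581233274) (.one (nat_lit 1344275568) .nil)),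
   .two (nat_lit 16777220) (nat_lit 28758245388) (.two (nat_lit 16777217) (nat_lit 11544821891) (.one (nat_lit 159251432043) .nil)),
   .two (nat_lit 4599054341) (nat_lit 843055117) (.two (nat_lit 37748737) (nat_lit 183845781519) (.two (nat_lit 1048576) (nat_lit 270532869) (.one (nat_lit 10336862808) .nil))),
   .two (nat_lit 174753579013) (nat_lit 9948889103) (.two (nat_lit 4194304) (nat_lit 352322165) .nil),
   .two (nat_lit 822083589) (nat_lit 3525312538) (.two (nat_lit 1048576) (nat_lit 4647288953) (.one (nat_lit 203424501) .nil)),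
   .two (nat_lit 2894069765) (nat_lit 822083599) (.two (nat_lit 8388608) (nat_lit 12129927436) (.one (nat_lit 754975904) .nil)),
   .two (nat_lit 713031685) (nat_lit 21811429388) (.two (nat_lit 41943041) (nat_lit 9866051599) (.two (nat_lit 1048576) (nat_lit 2927624328) (.one (nat_lit 10376709217) .nil))),
   .two (nat_lit 4194308) (nat_lit 37253808176) (.two (nat_lit 1048576) (nat_lit 9873391753) (.one (nat_lit 11484005531) .nil)),
   .two (nat_lit 16777220) (nat_lit 46409973768) (.two (nat_lit 4194305) (nat_lit 4043309082) (.two (nat_lit 2097152) (nat_lit 46409974409) .nil)),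
   .two (nat_lit 8388612) (nat_lit 19530776589) (.two (nat_lit 2097153) (nat_lit 13195280399) (.two (nat_lit 16777216) (nat_lit 4034921124) .nil)),
   .two (nat_lit 822083589) (nat_lit 185020186636) (.two (nat_lit 9781116929) (nat_lit 11510218776) (.two (nat_lit 4194304) (nat_lit 166129042069) .nil)),
   .two (nat_lit 174752530437) (nat_lit 1291845655) (.two (nat_lit 1048576) (nat_lit 654311661) (.one (nat_lit 18941477613) .nil)),
   .two (nat_lit 169869316) (nat_lit 20704133186) (.one (nat_lit 2886730347) .nil),
   .two (nat_lit 47550824453) (nat_lit 20638072847) (.two (nat_lit 1048576) (nat_lit 2956984993) .nil),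
   .two (nat_lit 4605345797) (nat_lit 135266344) (.two (nat_lit 8388608) (nat_lit 156465365057) (.one (nat_lit 157035791043) .nil)),
   .two (nat_lit 50331653) (nat_lit 184986632218) (.two (nat_lit 16777216) (nat_lit 12148801798) (.one (nat_lit 773850158) .nil)),
   .two (nat_lit 285212677) (nat_lit 1343225871) (.two (nat_lit 16777216) (nat_lit 185020186735) (.one (nat_lit 37246468762) .nil)),
   .two (nat_lit 16777221) (nat_lit 68157448) (.two (nat_lit 34603009) (nat_lit 46409973802) (.two (nat_lit 4194304) (nat_lit 13237223545) (.one (nat_lit 174755677306) .nil))),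
   .two (nat_lit 1913651205) (nat_lit 28093448207) (.two (nat_lit 1048576) (nat_lit 156472705282) (.one (nat_lit 8389815) .nil)),
   .two (nat_lit 47550824453) (nat_lit 3464495119) (.two (nat_lit 4194304) (nat_lit 202375288) (.one (nat_lit 9966715547) .nil)),
   .two (nat_lit 169869316) (nat_lit 10506731535) (.two (nat_lit 2097152) (nat_lit 10506731628) (.one (nat_lit 3558867664) .nil)),
   .two (nat_lit 158143086597) (nat_lit 19096666125) (.two (nat_lit 156364701697) (nat_lit 159219974278) (.one (nat_lit 4195513) .nil)),
   .two (nat_lit 8388612) (nat_lit 11479810056) (.two (nat_lit 8388609) (nat_lit 742391832) (.two (nat_lit 1048576) (nat_lit 205521557) .nil)),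
   .two (nat_lit 754974725) (nat_lit 639631368) (.two (nat_lit 620756993) (nat_lit 1847590927) (.two (nat_lit 16777216) (nat_lit 2097442) (.one (nat_lit 2098362) .nil))),
   .two (nat_lit 2097157) (nat_lit 612368399) (.two (nat_lit 2097152) (nat_lit 1350566156) (.one (nat_lit 612369551) .nil)),
   .two (nat_lit 9781116933) (nat_lit 28693233679) (.two (nat_lit 2097152) (nat_lit 2319450767) .nil),
   .two (nat_lit 605028357) (nat_lit 75497487) (.two (nat_lit 1048576) (nat_lit 12620660875) (.one (nat_lit 11479810733) .nil)),
   .two (nat_lit 50331653) (nat_lit 1343225871) (.two (nat_lit 16777216) (nat_lit 10335813750) (.one (nat_lit 1049787) .nil)),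
   .two (nat_lit 2954887173) (nat_lit 183845781552) (.two (nat_lit 4194304) (nat_lit 2953838710) (.one (nat_lit 1913651889) .nil)),
   .two (nat_lit 4605345797) (nat_lit 2416967692) (.two (nat_lit 605028353) (nat_lit 46414168079) (.two (nat_lit 8388608) (nat_lit 156465365057) (.one (nat_lit 34603642) .nil))),
   .two (nat_lit 4194308) (nat_lit 156365750287) (.two (nat_lit 16777216) (nat_lit 4634706592) .nil),
   .two (nat_lit 705691652) (nat_lit 21208498191) (.two (nat_lit 1048576) (nat_lit 19597885799) .nil),
   .two (nat_lit 713031684) (nat_lit 839909389) (.two (nat_lit 16777217) (nat_lit 28093448452) (.one (nat_lit 1914700434) .nil)),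
   .two (nat_lit 272629765) (nat_lit 158144135180) (.two (nat_lit 2097153) (nat_lit 12117344271) (.two (nat_lit 2097152) (nat_lit 1379926274) (.one (nat_lit 4195516) .nil))),
   .two (nat_lit 203423749) (nat_lit 21811429388) (.two (nat_lit 606076929) (nat_lit 185020186689) (.one (nat_lit 20637025390) .nil)),
   .two (nat_lit 101711877) (nat_lit 2420113422) (.two (nat_lit 620756993) (nat_lit 1276117007) (.two (nat_lit 16777216) (nat_lit 1209008255) (.one (nat_lit 1049789) .nil))),
   .two (nat_lit 739246085) (nat_lit 10940841999) (.two (nat_lit 1048576) (nat_lit 13222543486) (.one (nat_lit 20705182426) .nil)),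
   .two (nat_lit 2902458373) (nat_lit 9802088460) (.two (nat_lit 9768534017) (nat_lit 620757007) (.two (nat_lit 2097152) (nat_lit 19042140445) (.one (nat_lit 19042140909) .nil))),
   .two (nat_lit 2969567237) (nat_lit 1276117007) (.two (nat_lit 16777216) (nat_lit 4027580541) (.one (nat_lit 157038937275) .nil)),
   .two (nat_lit 50331653) (nat_lit 183848927258) (.two (nat_lit 2097152) (nat_lit 156984410377) (.one (nat_lit 46407877708) .nil)),
   .two (nat_lit 16777220) (nat_lit 606076936) (.two (nat_lit 2097153) (nat_lit 285212687) (.two (nat_lit 4194304) (nat_lit 687866548) .nil)),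
   .two (nat_lit 28760342533) (nat_lit 673185859) (.one (nat_lit 2098369) .nil),
   .two (nat_lit 270532613) (nat_lit 843055116) (.two (nat_lit 37748737) (nat_lit 11476664335) (.two (nat_lit 1048576) (nat_lit 2350907531) (.one (nat_lit 21812479159) .nil))),
   .two (nat_lit 13191086085) (nat_lit 183845781519) (.two (nat_lit 4194304) (nat_lit 46473937144) (.one (nat_lit 37246469158) .nil)),
   .two (nat_lit 1779433477) (nat_lit 10538188812) (.two (nat_lit 34603009) (nat_lit 773849214) (.one (nat_lit 1376781452) .nil)),
   .two (nat_lit 10504634373) (nat_lit 184419352584) (.two (nat_lit 37748737) (nat_lit 10538188841) (.two (nat_lit 8388608) (nat_lit 37314626227) .nil)),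
   .two (nat_lit 2969567237) (nat_lit 673185805) (.two (nat_lit 606076929) (nat_lit 156984410238) (.one (nat_lit 13237224096) .nil)),
   .two (nat_lit 1358954501) (nat_lit 2350907406) (.two (nat_lit 606076929) (nat_lit 20719861784) (.two (nat_lit 1048576) (nat_lit 1310720672) .nil)),
   .two (nat_lit 713031684) (nat_lit 28790751245) (.two (nat_lit 34603009) (nat_lit 18933088380) (.one (nat_lit 2994733728) .nil)),
   .two (nat_lit 184549381) (nat_lit 18933088271) (.two (nat_lit 1048576) (nat_lit 218104434) .nil),
   .two (nat_lit 16777220) (nat_lit 606076936) (.two (nat_lit 16777217) (nat_lit 4632608794) (.two (nat_lit 4194304) (nat_lit 156567077601) .nil)),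
   .two (nat_lit 638582789) (nat_lit 18928893967) (.two (nat_lit 8388608) (nat_lit 19029557930) .nil),
   .two (nat_lit 2889875460) (nat_lit 184416206856) (.two (nat_lit 4194305) (nat_lit 156566028334) (.two (nat_lit 4194304) (nat_lit 1048868) (.one (nat_lit 1049795) .nil))),
   .two (nat_lit 4194308) (nat_lit 12147752983) (.two (nat_lit 4194304) (nat_lit 12147753068) (.one (nat_lit 1410335409) .nil)),
   .two (nat_lit 9934209029) (nat_lit 12114198536) (.two (nat_lit 34603009) (nat_lit 1746927661) (.two (nat_lit 1048576) (nat_lit 2988441665) (.one (nat_lit 21208498812) .nil))),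
   .two (nat_lit 809500677) (nat_lit 21207449615) (.two (nat_lit 1048576) (nat_lit 3527409772) (.one (nat_lit 156569174642) .nil)),
   .two (nat_lit 2097157) (nat_lit 721420303) (.two (nat_lit 16777216) (nat_lit 28087157004) (.one (nat_lit 20638073432) .nil)),
   .two (nat_lit 101711877) (nat_lit 159224168460) (.two (nat_lit 16777217) (nat_lit 12147753080) (.one (nat_lit 8389828) .nil)),
   .two (nat_lit 721420293) (nat_lit 3527409679) (.two (nat_lit 16777216) (nat_lit 157038936174) (.one (nat_lit 205521550) .nil)),
   .two (nat_lit 16777220) (nat_lit 166199296012) (.two (nat_lit 37748737) (nat_lit 185027526781) (.one (nat_lit 8389829) .nil)),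
   .two (nat_lit 721420292) (nat_lit 10506731528) (.two (nat_lit 4194305) (nat_lit 159266111513) (.two (nat_lit 2097152) (nat_lit 159219974283) (.one (nat_lit 4195526) .nil))),
   .two (nat_lit 166130089989) (nat_lit 9881780239) (.two (nat_lit 2097152) (nat_lit 9881780289) (.one (nat_lit 166245434104) .nil)),
   .two (nat_lit 721420292) (nat_lit 8388634) (.two (nat_lit 1048576) (nat_lit 109052026) (.one (nat_lit 16778439) .nil)),
   .two (nat_lit 2889875460) (nat_lit 1753219087) (.two (nat_lit 2097152) (nat_lit 9974055610) .nil),
   .two (nat_lit 1914699781) (nat_lit 183912890380) (.two (nat_lit 41943041) (nat_lit 174686470279) (.one (nat_lit 46978302592) .nil)),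
   .two (nat_lit 639631365) (nat_lit 28086108185) (.two (nat_lit 8388608) (nat_lit 19529728667) .nil),
   .two (nat_lit 1178599429) (nat_lit 166196150284) (.two (nat_lit 34603009) (nat_lit 10338959482) (.one (nat_lit 20740833932) .nil)),
   .two (nat_lit 12047089669) (nat_lit 11559501836) (.two (nat_lit 34603009) (nat_lit 9948889213) (.one (nat_lit 174768260230) .nil)),
   .two (nat_lit 4194308) (nat_lit 158083317775) (.two (nat_lit 2097152) (nat_lit 1379926753) .nil),
   .two (nat_lit 176160773) (nat_lit 19596836879) (.two (nat_lit 2097152) (nat_lit 37246468744) .nil),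
   .two (nat_lit 218103813) (nat_lit 10336862223) (.two (nat_lit 4194304) (nat_lit 1310720120) (.one (nat_lit 9948889734) .nil)),
   .two (nat_lit 2889875460) (nat_lit 185020186670) (.two (nat_lit 2097152) (nat_lit 772800630) (.one (nat_lit 10436478148) .nil)),
   .two (nat_lit 184549380) (nat_lit 13221494797) (.two (nat_lit 2097153) (nat_lit 184549391) (.two (nat_lit 2097152) (nat_lit 2920284280) (.one (nat_lit 157035790994) .nil))),
   .two (nat_lit 28086108165) (nat_lit 11525947418) (.two (nat_lit 1048576) (nat_lit 3573547147) (.one (nat_lit 285213318) .nil)),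
   .two (nat_lit 612368389) (nat_lit 4634705943) (.two (nat_lit 8388608) (nat_lit 4634706028) (.one (nat_lit 2420114133) .nil)),
   .two (nat_lit 28758245381) (nat_lit 183912890380) (.two (nat_lit 34603009) (nat_lit 156533522547) (.one (nat_lit 166130090625) .nil)),
   .two (nat_lit 184549380) (nat_lit 46984593416) (.two (nat_lit 612368385) (nat_lit 605028614) (.one (nat_lit 4027580774) .nil)),
   .two (nat_lit 9866051589) (nat_lit 1178599450) (.two (nat_lit 1048576) (nat_lit 272629899) (.one (nat_lit 2923430534) .nil)),
   .two (nat_lit 4194308) (nat_lit 46984593416) (.two (nat_lit 41943041) (nat_lit 605028489) (.one (nat_lit 101712981) .nil)),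
   .two (nat_lit 9781116933) (nat_lit 166132187144) (.two (nat_lit 50331649) (nat_lit 1849688088) (.two (nat_lit 4194304) (nat_lit 165540790801) (.one (nat_lit 166132187808) .nil))),
   .two (nat_lit 1753219077) (nat_lit 11559501847) (.two (nat_lit 2097152) (nat_lit 157051519725) .nil),
   .two (nat_lit 184549381) (nat_lit 12054429704) (.two (nat_lit 16777217) (nat_lit 28691136527) (.two (nat_lit 1048576) (nat_lit 19597885507) (.one (nat_lit 2098379) .nil))),
   .two (nat_lit 50331653) (nat_lit 12114198554) (.two (nat_lit 16777216) (nat_lit 156968681611) (.one (nat_lit 156532475078) .nil)),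
   .two (nat_lit 10385096709) (nat_lit 11007950860) (.two (nat_lit 606076929) (nat_lit 822083599) (.two (nat_lit 1048576) (nat_lit 46992982134) (.one (nat_lit 1962934961) .nil))),
   .two (nat_lit 12047089669) (nat_lit 174753579023) (.two (nat_lit 8388608) (nat_lit 1176502892) .nil),
   .two (nat_lit 16777221) (nat_lit 10343153706) (.two (nat_lit 8388608) (nat_lit 889192569) (.one (nat_lit 10544481431) .nil)),
   .two (nat_lit 1277165572) (nat_lit 11517558827) (.two (nat_lit 2097152) (nat_lit 4638900358) (.one (nat_lit 158653743759) .nil)),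
   .two (nat_lit 34603013) (nat_lit 83886095) (.two (nat_lit 1048576) (nat_lit 165526110323) (.one (nat_lit 1176503338) .nil)),
   .two (nat_lit 9768534021) (nat_lit 1947205645) (.two (nat_lit 37748737) (nat_lit 165525061766) (.one (nat_lit 1175454351) .nil)),
   .two (nat_lit 639631365) (nat_lit 18925748232) (.two (nat_lit 16777217) (nat_lit 10939793542) (.one (nat_lit 236978834) .nil)),
   .two (nat_lit 8388613) (nat_lit 11492392975) (.two (nat_lit 8388608) (nat_lit 46489665658) (.one (nat_lit 10351542974) .nil)),
   .two (nat_lit 721420292) (nat_lit 156968681480) (.two (nat_lit 620756993) (nat_lit 1343225899) (.two (nat_lit 1048576) (nat_lit 16777326) (.one (nat_lit 117441173) .nil))),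
   .two (nat_lit 171966469) (nat_lit 218103823) (.two (nat_lit 4194304) (nat_lit 166229704829) (.one (nat_lit 1049808) .nil)),
   .two (nat_lit 10385096709) (nat_lit 174753579020) (.two (nat_lit 2097153) (nat_lit 754974785) (.one (nat_lit 16778449) .nil)),
   .two (nat_lit 101711877) (nat_lit 46978301966) (.two (nat_lit 605028353) (nat_lit 156567076888) (.two (nat_lit 2097152) (nat_lit 1049119) (.one (nat_lit 20638074021) .nil))),
   .two (nat_lit 2887778308) (nat_lit 156372041736) (.two (nat_lit 2097153) (nat_lit 46984593431) (.two (nat_lit 4194304) (nat_lit 28093448837) .nil)),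
   .two (nat_lit 708837381) (nat_lit 1745879048) (.two (nat_lit 2097153) (nat_lit 20637024271) (.two (nat_lit 2097152) (nat_lit 47550824585) (.one (nat_lit 37313578044) .nil))),
   .two (nat_lit 9934209029) (nat_lit 46980399112) (.two (nat_lit 606076929) (nat_lit 46409973775) (.two (nat_lit 2097152) (nat_lit 11513364717) (.one (nat_lit 4601152136) .nil))),
   .two (nat_lit 620756997) (nat_lit 28757196815) (.two (nat_lit 16777216) (nat_lit 10369368428) .nil),
   .two (nat_lit 184549381) (nat_lit 46508539928) (.two (nat_lit 16777216) (nat_lit 11578376715) (.one (nat_lit 1962934916) .nil)),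
   .two (nat_lit 16777220) (nat_lit 639631375) (.two (nat_lit 16777216) (nat_lit 11511267454) (.one (nat_lit 9934209754) .nil)),
   .two (nat_lit 184993972229) (nat_lit 28690087944) (.two (nat_lit 37748737) (nat_lit 2920284285) (.one (nat_lit 184993972860) .nil)),
   .two (nat_lit 705691652) (nat_lit 1377828878) (.two (nat_lit 50331649) (nat_lit 46507491467) (.one (nat_lit 1049810) .nil)),
   .two (nat_lit 4194308) (nat_lit 157036838926) (.two (nat_lit 4194305) (nat_lit 9867100183) (.two (nat_lit 16777216) (nat_lit 11544822445) .nil)),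
   .two (nat_lit 11476664324) (nat_lit 673185804) (.two (nat_lit 34603009) (nat_lit 1377828913) (.two (nat_lit 1048576) (nat_lit 236978287) (.one (nat_lit 20705182313) .nil))),
   .two (nat_lit 708837381) (nat_lit 47555018760) (.two (nat_lit 37748737) (nat_lit 4638900250) (.two (nat_lit 2097152) (nat_lit 813695713) .nil)),
   .two (nat_lit 822083589) (nat_lit 10939793416) (.two (nat_lit 9765388289) (nat_lit 16777504) (.one (nat_lit 1191182965) .nil)),
   .two (nat_lit 2902458372) (nat_lit 19532873752) (.two (nat_lit 4194304) (nat_lit 1291845742) (.one (nat_lit 3036676788) .nil)),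
   .two (nat_lit 272629765) (nat_lit 1962934339) (.one (nat_lit 352322597) .nil),
   .two (nat_lit 21785214981) (nat_lit 184419352599) (.two (nat_lit 8388608) (nat_lit 1950351615) (.one (nat_lit 9936306925) .nil)),
   .two (nat_lit 2889875460) (nat_lit 20638072840) (.two (nat_lit 606076929) (nat_lit 2889875471) (.two (nat_lit 2097152) (nat_lit 156971827324) (.one (nat_lit 9936306837) .nil))),
   .two (nat_lit 9934209029) (nat_lit 20637024271) (.two (nat_lit 1048576) (nat_lit 2954887289) (.one (nat_lit 11614028518) .nil)),
   .two (nat_lit 16777220) (nat_lit 739246094) (.two (nat_lit 2097153) (nat_lit 21207449642) (.two (nat_lit 2097152) (nat_lit 788529441) (.one (nat_lit 20719862119) .nil))),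
   .two (nat_lit 2954887173) (nat_lit 2416967693) (.two (nat_lit 9766436865) (nat_lit 19127075071) (.one (nat_lit 4598006442) .nil)),
   .two (nat_lit 47555018757) (nat_lit 1745879048) (.two (nat_lit 8388609) (nat_lit 159216828462) (.two (nat_lit 8388608) (nat_lit 4027580708) (.one (nat_lit 1049811) .nil))),
   .two (nat_lit 9765388293) (nat_lit 11559501839) (.two (nat_lit 8388608) (nat_lit 3472884348) .nil),
   .two (nat_lit 8388612) (nat_lit 20704133132) (.two (nat_lit 8388609) (nat_lit 158176641064) (.two (nat_lit 16777216) (nat_lit 135266923) .nil)),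
   .two (nat_lit 19596836869) (nat_lit 754974728) (.two (nat_lit 9765388289) (nat_lit 9982443642) (.one (nat_lit 159232557812) .nil)),
   .two (nat_lit 1291845637) (nat_lit 10336862216) (.two (nat_lit 2097153) (nat_lit 11559501935) (.one (nat_lit 1291846268) .nil)),
   .two (nat_lit 4194308) (nat_lit 28086108173) (.two (nat_lit 16777217) (nat_lit 68157455) (.two (nat_lit 4194304) (nat_lit 754974846) (.one (nat_lit 10335814374) .nil))),
   .two (nat_lit 8388612) (nat_lit 1746927630) (.two (nat_lit 8388609) (nat_lit 742391945) (.one (nat_lit 203424429) .nil)),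
   .two (nat_lit 11559501829) (nat_lit 37249613838) (.two (nat_lit 37748737) (nat_lit 183928619032) (.two (nat_lit 4194304) (nat_lit 12633244176) (.one (nat_lit 11513365152) .nil))),
   .two (nat_lit 2887778308) (nat_lit 20644364311) (.two (nat_lit 2097152) (nat_lit 11618222188) (.one (nat_lit 28697428586) .nil)),
   .two (nat_lit 184419352581) (nat_lit 11492393025) (.one (nat_lit 117441203) .nil),
   .two (nat_lit 169869316) (nat_lit 3527409672) (.two (nat_lit 2097153) (nat_lit 12117344279) (.two (nat_lit 2097152) (nat_lit 159253528834) (.one (nat_lit 158649549422) .nil))),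
   .two (nat_lit 21785214981) (nat_lit 28757196808) (.two (nat_lit 156364701697) (nat_lit 4638900250) (.two (nat_lit 2097152) (nat_lit 1954546284) .nil)),
   .two (nat_lit 11476664324) (nat_lit 9967763468) (.two (nat_lit 34603009) (nat_lit 11477713022) (.one (nat_lit 21208498812) .nil)),
   .two (nat_lit 11479810052) (nat_lit 10504634383) (.two (nat_lit 16777216) (nat_lit 35652203) .nil),
   .two (nat_lit 19599982597) (nat_lit 11492392975) (.two (nat_lit 2097152) (nat_lit 251658860) .nil),
   .two (nat_lit 159224168453) (nat_lit 10538188812) (.two (nat_lit 605028353) (nat_lit 11618222145) (.one (nat_lit 8389846) .nil)),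
   .two (nat_lit 47555018757) (nat_lit 10504634376) (.two (nat_lit 4194305) (nat_lit 174686470264) (.one (nat_lit 156372042357) .nil)),
   .two (nat_lit 184549381) (nat_lit 806354956) (.two (nat_lit 16777217) (nat_lit 101711993) (.one (nat_lit 28705817697) .nil)),
   .two (nat_lit 183848927237) (nat_lit 822083599) (.two (nat_lit 8388608) (nat_lit 16777907) .nil),
   .two (nat_lit 2887778308) (nat_lit 183848927240) (.two (nat_lit 37748737) (nat_lit 203423759) (.two (nat_lit 2097152) (nat_lit 1346371876) (.one (nat_lit 47582282376) .nil))),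
   .two (nat_lit 47548727301) (nat_lit 75497487) (.two (nat_lit 2097152) (nat_lit 1317011588) (.one (nat_lit 10376708757) .nil)),
   .two (nat_lit 2887778308) (nat_lit 158176641047) (.two (nat_lit 2097152) (nat_lit 11476664575) (.one (nat_lit 183946445489) .nil)),
   .two (nat_lit 159217876997) (nat_lit 28693233679) (.two (nat_lit 2097152) (nat_lit 2923430012) (.one (nat_lit 1413481543) .nil)),
   .two (nat_lit 218103813) (nat_lit 11007950860) (.two (nat_lit 606076929) (nat_lit 285212737) (.one (nat_lit 166211879274) .nil)),
   .two (nat_lit 183848927237) (nat_lit 3464495171) (.one (nat_lit 8389849) .nil),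
   .two (nat_lit 721420292) (nat_lit 159250382861) (.two (nat_lit 4194305) (nat_lit 83886095) (.two (nat_lit 16777216) (nat_lit 20704133249) (.one (nat_lit 174755676818) .nil))),
   .two (nat_lit 809500677) (nat_lit 10336862216) (.two (nat_lit 2097153) (nat_lit 11479810063) (.two (nat_lit 4194304) (nat_lit 159251431532) (.one (nat_lit 807404257) .nil))),
   .two (nat_lit 203423749) (nat_lit 158646403085) (.two (nat_lit 50331649) (nat_lit 10538188920) (.one (nat_lit 1049818) .nil)),
   .two (nat_lit 176160772) (nat_lit 20637024271) (.two (nat_lit 1048576) (nat_lit 742391931) (.one (nat_lit 12620661369) .nil)),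
   .two (nat_lit 1276116996) (nat_lit 184993972288) (.one (nat_lit 21785215171) .nil),
   .two (nat_lit 8388612) (nat_lit 12117344264) (.two (nat_lit 8388609) (nat_lit 12150898711) (.two (nat_lit 1048576) (nat_lit 775946907) .nil)),
   .two (nat_lit 11543773189) (nat_lit 10338959368) (.two (nat_lit 620756993) (nat_lit 705691759) (.one (nat_lit 11610882704) .nil)),
   .two (nat_lit 721420293) (nat_lit 3525312520) (.two (nat_lit 37748737) (nat_lit 2921332847) (.one (nat_lit 10015998622) .nil)),
   .two (nat_lit 16777220) (nat_lit 46409973768) (.two (nat_lit 50331649) (nat_lit 3460300823) (.two (nat_lit 8388608) (nat_lit 4613735078) .nil)),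
   .two (nat_lit 270532613) (nat_lit 1291845655) (.two (nat_lit 1048576) (nat_lit 2418016369) (.one (nat_lit 16778459) .nil)),
   .two (nat_lit 705691652) (nat_lit 19530776584) (.two (nat_lit 605028353) (nat_lit 46407876631) (.two (nat_lit 1048576) (nat_lit 673186080) (.one (nat_lit 13188989613) .nil))),
   .two (nat_lit 713031684) (nat_lit 1779433480) (.two (nat_lit 16777217) (nat_lit 638582897) (.one (nat_lit 1786774729) .nil)),
   .two (nat_lit 713031685) (nat_lit 11543773192) (.two (nat_lit 605028353) (nat_lit 813695000) (.two (nat_lit 16777216) (nat_lit 9873392282) .nil)),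
   .two (nat_lit 75497477) (nat_lit 117440524) (.two (nat_lit 16777217) (nat_lit 156468510833) (.one (nat_lit 20745028242) .nil)),
   .two (nat_lit 2889875461) (nat_lit 101711898) (.two (nat_lit 4194304) (nat_lit 9765388547) (.one (nat_lit 2920284911) .nil)),
   .two (nat_lit 1344274437) (nat_lit 12047089679) (.two (nat_lit 8388608) (nat_lit 10336862893) .nil),
   .two (nat_lit 8388612) (nat_lit 156968681485) (.two (nat_lit 8388609) (nat_lit 4598005804) (.two (nat_lit 16777216) (nat_lit 10537140483) (.one (nat_lit 1049327) .nil))),
   .two (nat_lit 28758245381) (nat_lit 2889875471) (.two (nat_lit 2097152) (nat_lit 775946601) .nil),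
   .two (nat_lit 34603013) (nat_lit 20753416259) (.one (nat_lit 11022632100) .nil),
   .two (nat_lit 713031684) (nat_lit 1846542344) (.two (nat_lit 9766436865) (nat_lit 235929725) (.one (nat_lit 612369032) .nil)),
   .two (nat_lit 9934209029) (nat_lit 12047089678) (.two (nat_lit 9766436865) (nat_lit 11610882071) (.two (nat_lit 1048576) (nat_lit 2097697) (.one (nat_lit 10369368818) .nil))),
   .two (nat_lit 184549380) (nat_lit 2988441613) (.two (nat_lit 2097153) (nat_lit 620757007) (.two (nat_lit 8388608) (nat_lit 20738736785) .nil)),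
   .two (nat_lit 713031684) (nat_lit 46978301967) (.two (nat_lit 8388608) (nat_lit 21208498300) (.one (nat_lit 3525313160) .nil)),
   .two (nat_lit 705691652) (nat_lit 10506731534) (.two (nat_lit 34603009) (nat_lit 46409973775) (.two (nat_lit 16777216) (nat_lit 10939793547) (.one (nat_lit 269485255) .nil))),
   .two (nat_lit 9781116933) (nat_lit 2994733082) (.two (nat_lit 16777216) (nat_lit 9873391901) (.one (nat_lit 9873392365) .nil)),
   .two (nat_lit 1277165572) (nat_lit 184986632200) (.two (nat_lit 9766436865) (nat_lit 11610882071) (.two (nat_lit 16777216) (nat_lit 1913651844) .nil)),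
   .two (nat_lit 822083589) (nat_lit 2350907435) (.two (nat_lit 16777216) (nat_lit 9900654726) (.one (nat_lit 2098397) .nil)),
   .two (nat_lit 2097157) (nat_lit 10942939144) (.two (nat_lit 605028353) (nat_lit 21778923798) (.one (nat_lit 159216829520) .nil)),
   .two (nat_lit 8388613) (nat_lit 46980399112) (.two (nat_lit 156367847425) (nat_lit 2961178647) (.two (nat_lit 2097152) (nat_lit 1749024895) (.one (nat_lit 4195065) .nil))),
   .two (nat_lit 203423749) (nat_lit 174688567310) (.two (nat_lit 620756993) (nat_lit 606076943) (.two (nat_lit 16777216) (nat_lit 156365751026) .nil)),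
   .two (nat_lit 11543773189) (nat_lit 183853121544) (.two (nat_lit 156372041729) (nat_lit 11476664344) (.two (nat_lit 1048576) (nat_lit 612368522) (.one (nat_lit 135266928) .nil))),
   .two (nat_lit 8388612) (nat_lit 47548727304) (.two (nat_lit 606076929) (nat_lit 276824088) (.two (nat_lit 16777216) (nat_lit 2887778415) (.one (nat_lit 11007952066) .nil))),
   .two (nat_lit 9934209029) (nat_lit 20644364296) (.two (nat_lit 156372041729) (nat_lit 9867100184) (.two (nat_lit 2097152) (nat_lit 19134415369) (.one (nat_lit 165526110941) .nil))),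
   .two (nat_lit 176160772) (nat_lit 47550824488) (.two (nat_lit 16777216) (nat_lit 46510637806) .nil),
   .two (nat_lit 169869316) (nat_lit 174752530440) (.two (nat_lit 41943041) (nat_lit 1410334831) (.one (nat_lit 1049822) .nil)),
   .two (nat_lit 2969567237) (nat_lit 19128123405) (.two (nat_lit 2097153) (nat_lit 157043130383) (.two (nat_lit 2097152) (nat_lit 8388910) (.one (nat_lit 16778463) .nil))),
   .two (nat_lit 285212677) (nat_lit 157038936072) (.two (nat_lit 4194305) (nat_lit 184549391) (.two (nat_lit 2097152) (nat_lit 183962174057) .nil)),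
   .two (nat_lit 4194308) (nat_lit 1291845640) (.two (nat_lit 50331649) (nat_lit 2956984579) (.one (nat_lit 2923430536) .nil)),
   .two (nat_lit 4194308) (nat_lit 3525312527) (.two (nat_lit 4194304) (nat_lit 46474985537) (.one (nat_lit 1344275068) .nil)),
   .two (nat_lit 2954887173) (nat_lit 37313576973) (.two (nat_lit 8388609) (nat_lit 166229704999) (.one (nat_lit 37246469312) .nil)),
   .two (nat_lit 2097157) (nat_lit 83886088) (.two (nat_lit 2097153) (nat_lit 21793603608) (.two (nat_lit 1048576) (nat_lit 47596962525) .nil)),
   .two (nat_lit 157038936069) (nat_lit 285212736) (.one (nat_lit 285212867) .nil),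
   .two (nat_lit 754974725) (nat_lit 639631375) (.two (nat_lit 16777216) (nat_lit 19530776696) (.one (nat_lit 46978302581) .nil)),
   .two (nat_lit 1277165573) (nat_lit 28086108175) (.two (nat_lit 16777216) (nat_lit 4599054473) (.one (nat_lit 1049340) .nil)),
   .two (nat_lit 285212677) (nat_lit 184419352590) (.two (nat_lit 16777217) (nat_lit 165532401679) (.two (nat_lit 4194304) (nat_lit 9940500769) (.one (nat_lit 159232558225) .nil))),
   .two (nat_lit 9948889093) (nat_lit 10336862216) (.two (nat_lit 2097153) (nat_lit 1291845647) (.two (nat_lit 2097152) (nat_lit 83886368) (.one (nat_lit 12633244284) .nil))),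
   .two (nat_lit 16777221) (nat_lit 174692761625) (.two (nat_lit 8388608) (nat_lit 9982443775) (.one (nat_lit 47563408014) .nil)),
   .two (nat_lit 28093448197) (nat_lit 165525061647) (.two (nat_lit 1048576) (nat_lit 156380430639) (.one (nat_lit 2902459544) .nil)),
   .two (nat_lit 50331653) (nat_lit 159217877000) (.two (nat_lit 2097153) (nat_lit 1358954511) (.two (nat_lit 16777216) (nat_lit 21778923772) (.one (nat_lit 174701150851) .nil))),
   .two (nat_lit 176160772) (nat_lit 158075977736) (.two (nat_lit 156364701697) (nat_lit 9940500504) (.two (nat_lit 1048576) (nat_lit 8389157) (.one (nat_lit 157035791048) .nil))),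
   .two (nat_lit 8388612) (nat_lit 157036838920) (.two (nat_lit 612368385) (nat_lit 46508539927) (.two (nat_lit 2097152) (nat_lit 4605346080) (.one (nat_lit 2921333414) .nil))),
   .two (nat_lit 47548727301) (nat_lit 9768534031) (.two (nat_lit 2097152) (nat_lit 46510637122) (.one (nat_lit 11479810769) .nil)),
   .two (nat_lit 1745879045) (nat_lit 174686470157) (.two (nat_lit 605028353) (nat_lit 606077062) (.one (nat_lit 156969730703) .nil)),
   .two (nat_lit 1191182341) (nat_lit 20638072840) (.two (nat_lit 16777217) (nat_lit 174753579023) (.two (nat_lit 8388608) (nat_lit 639631608) (.one (nat_lit 20638074030) .nil))),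
   .two (nat_lit 47548727301) (nat_lit 158143086606) (.two (nat_lit 605028353) (nat_lit 9799991320) (.two (nat_lit 8388608) (nat_lit 639632024) .nil)),
   .two (nat_lit 705691652) (nat_lit 1780482063) (.two (nat_lit 1048576) (nat_lit 37247516795) (.one (nat_lit 2098410) .nil)),
   .two (nat_lit 183853121541) (nat_lit 9881780239) (.two (nat_lit 8388608) (nat_lit 117440579) (.one (nat_lit 2332033717) .nil)),
   .two (nat_lit 8388613) (nat_lit 1277165576) (.two (nat_lit 8388609) (nat_lit 9867100183) (.two (nat_lit 1048576) (nat_lit 165532401935) (.one (nat_lit 1310721231) .nil))),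
   .two (nat_lit 158144135173) (nat_lit 176160783) (.two (nat_lit 2097152) (nat_lit 184423547242) .nil),
   .two (nat_lit 4194308) (nat_lit 1358954538) (.two (nat_lit 4194304) (nat_lit 183861510281) (.one (nat_lit 16778477) .nil)),
   .two (nat_lit 10370416645) (nat_lit 158083317783) (.two (nat_lit 2097152) (nat_lit 158083317868) (.one (nat_lit 2927624917) .nil)),
   .two (nat_lit 1344274437) (nat_lit 285212680) (.two (nat_lit 16777217) (nat_lit 156969730072) (.two (nat_lit 4194304) (nat_lit 19597885553) (.one (nat_lit 16778479) .nil))),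
   .two (nat_lit 11479810053) (nat_lit 10504634383) (.two (nat_lit 4194304) (nat_lit 1277165688) (.one (nat_lit 1746928236) .nil)),
   .two (nat_lit 4194308) (nat_lit 9766436879) (.two (nat_lit 4194304) (nat_lit 37314626154) .nil),
   .two (nat_lit 47548727301) (nat_lit 28086108168) (.two (nat_lit 605028353) (nat_lit 46407876632) (.two (nat_lit 8388608) (nat_lit 21208498800) .nil)),
   .two (nat_lit 721420292) (nat_lit 135266317) (.two (nat_lit 605028353) (nat_lit 16777326) (.one (nat_lit 156548203229) .nil)),
   .two (nat_lit 157036838917) (nat_lit 2349858841) (.two (nat_lit 1048576) (nat_lit 2365587583) (.one (nat_lit 16778482) .nil)),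
   .two (nat_lit 16777221) (nat_lit 21777874952) (.two (nat_lit 16777217) (nat_lit 185020186647) (.two (nat_lit 8388608) (nat_lit 156465365622) .nil)),
   .two (nat_lit 270532613) (nat_lit 159224168463) (.two (nat_lit 1048576) (nat_lit 156976022124) .nil),
   .two (nat_lit 176160772) (nat_lit 11492392974) (.two (nat_lit 16777217) (nat_lit 47555018767) (.two (nat_lit 8388608) (nat_lit 336593023) (.one (nat_lit 1049845) .nil))),
   .two (nat_lit 41943045) (nat_lit 236978242) (.one (nat_lit 9934209706) .nil),
   .two (nat_lit 9866051589) (nat_lit 19532873736) (.two (nat_lit 34603009) (nat_lit 9802088556) (.one (nat_lit 71303911) .nil)),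
   .two (nat_lit 169869316) (nat_lit 754974735) (.two (nat_lit 8388608) (nat_lit 9934209678) .nil),
   .two (nat_lit 101711877) (nat_lit 184993972239) (.two (nat_lit 16777216) (nat_lit 46984594081) .nil),
   .two (nat_lit 9768534021) (nat_lit 157043130376) (.two (nat_lit 8388609) (nat_lit 1178599439) (.two (nat_lit 16777216) (nat_lit 47555019378) .nil)),
   .two (nat_lit 16777220) (nat_lit 2954887176) (.two (nat_lit 606076929) (nat_lit 4613734424) (.two (nat_lit 8388608) (nat_lit 1377829576) .nil)),
   .two (nat_lit 1913651205) (nat_lit 18928893967) (.two (nat_lit 4194304) (nat_lit 4027580537) (.one (nat_lit 21223178898) .nil)),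
   .two (nat_lit 8388612) (nat_lit 16777224) (.two (nat_lit 8388609) (nat_lit 16777231) (.two (nat_lit 8388608) (nat_lit 16777280) (.one (nat_lit 285212769) .nil))),
   .two (nat_lit 746586117) (nat_lit 9781116935) (.two (nat_lit 9781116931) (nat_lit 158083317774) (.two (nat_lit 9766436865) (nat_lit 165532401679) (.two (nat_lit 2097152) (nat_lit 156372041841) (.one (nat_lit 12155093189) .nil)))),
   .two (nat_lit 2969567237) (nat_lit 174753579015) (.two (nat_lit 165526110211) (nat_lit 218103816) (.two (nat_lit 156365750273) (nat_lit 218103823) (.two (nat_lit 2097152) (nat_lit 183962173576) (.one (nat_lit 16777641) .nil)))),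
   .two (nat_lit 806354949) (nat_lit 117440521) (.two (nat_lit 2097153) (nat_lit 1426063381) (.two (nat_lit 1048576) (nat_lit 20638072853) (.one (nat_lit 2097951) .nil))),
   .two (nat_lit 184986632197) (nat_lit 158083317768) (.two (nat_lit 16777217) (nat_lit 158083317775) (.two (nat_lit 1048576) (nat_lit 11584667669) (.one (nat_lit 8389409) .nil))),
   .two (nat_lit 654311429) (nat_lit 21777874951) (.two (nat_lit 68157443) (nat_lit 1291845640) (.two (nat_lit 605028353) (nat_lit 1795162127) (.two (nat_lit 1048576) (nat_lit 11593056576) (.one (nat_lit 16778495) .nil)))),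
   .two (nat_lit 184549380) (nat_lit 20738736141) (.two (nat_lit 2097153) (nat_lit 620757007) (.two (nat_lit 2097152) (nat_lit 721420309) (.one (nat_lit 16777644) .nil))),
   .two (nat_lit 28690087941) (nat_lit 9934209031) (.two (nat_lit 166129041411) (nat_lit 9934209032) (.two (nat_lit 9765388289) (nat_lit 9934209039) (.two (nat_lit 1048576) (nat_lit 10538188837) (.one (nat_lit 1049856) .nil)))),
   .two (nat_lit 2097157) (nat_lit 117440519) (.two (nat_lit 1191182339) (nat_lit 169869320) (.two (nat_lit 9781116929) (nat_lit 9934209039) (.two (nat_lit 16777216) (nat_lit 2988442161) (.one (nat_lit 2097955) .nil)))),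
   .two (nat_lit 8388613) (nat_lit 184549384) (.two (nat_lit 8388609) (nat_lit 184549391) (.two (nat_lit 4194304) (nat_lit 721420325) (.one (nat_lit 4195586) .nil))),
   .two (nat_lit 156364701701) (nat_lit 809500679) (.two (nat_lit 37748739) (nat_lit 18925748232) (.two (nat_lit 37748737) (nat_lit 12047089679) (.two (nat_lit 4194304) (nat_lit 3557818495) (.one (nat_lit 1049010) .nil)))),
   .two (nat_lit 11559501829) (nat_lit 41943048) (.two (nat_lit 50331649) (nat_lit 41943055) (.two (nat_lit 16777216) (nat_lit 612368421) (.one (nat_lit 8389421) .nil))),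
   .two (nat_lit 28086108165) (nat_lit 639631367) (.two (nat_lit 165525061635) (nat_lit 639631368) (.two (nat_lit 156364701697) (nat_lit 639631375) (.two (nat_lit 1048576) (nat_lit 159251431461) (.one (nat_lit 1049859) .nil)))),
   .two (nat_lit 10939793413) (nat_lit 9768534023) (.two (nat_lit 19529728003) (nat_lit 9768534024) (.two (nat_lit 156364701697) (nat_lit 9768534031) (.two (nat_lit 1048576) (nat_lit 13224640549) (.one (nat_lit 1049860) .nil)))),
   .two (nat_lit 174752530437) (nat_lit 612368391) (.two (nat_lit 165525061635) (nat_lit 612368392) (.two (nat_lit 156364701697) (nat_lit 612368399) (.two (nat_lit 1048576) (nat_lit 41943077) (.one (nat_lit 1049861) .nil)))),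
   .two (nat_lit 1916796933) (nat_lit 3457155081) (.two (nat_lit 34603009) (nat_lit 19599982632) (.two (nat_lit 1048576) (nat_lit 184419352597) (.one (nat_lit 166232850897) .nil))),
   .two (nat_lit 28758245381) (nat_lit 183853121545) (.two (nat_lit 156365750273) (nat_lit 41943051) (.two (nat_lit 2097152) (nat_lit 880803858) (.one (nat_lit 8389894) .nil))),
   .two (nat_lit 8388613) (nat_lit 183848927240) (.two (nat_lit 8388609) (nat_lit 183848927247) (.two (nat_lit 8388608) (nat_lit 11513364545) (.one (nat_lit 10338959571) .nil))),
   .two (nat_lit 157038936069) (nat_lit 41943048) (.two (nat_lit 9768534017) (nat_lit 183953784857) (.two (nat_lit 4194304) (nat_lit 8388764) (.one (nat_lit 4195591) .nil))),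
   .two (nat_lit 11476664324) (nat_lit 9948889095) (.two (nat_lit 620756995) (nat_lit 12114198536) (.two (nat_lit 620756993) (nat_lit 101711887) (.two (nat_lit 16777216) (nat_lit 19529728557) (.one (nat_lit 1049392) .nil)))),
   .two (nat_lit 705691650) (nat_lit 809500679) (.two (nat_lit 705691651) (nat_lit 1346371593) (.two (nat_lit 34603009) (nat_lit 809500687) (.two (nat_lit 1048576) (nat_lit 156569174053) (.one (nat_lit 171967267) .nil)))),
   .two (nat_lit 169869316) (nat_lit 157043130375) (.two (nat_lit 9781116931) (nat_lit 47548727304) (.two (nat_lit 9781116929) (nat_lit 47548727311) (.two (nat_lit 4194304) (nat_lit 47548727332) (.one (nat_lit 1344274528) .nil)))),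
   .two (nat_lit 1277165572) (nat_lit 9781116935) (.two (nat_lit 9781116931) (nat_lit 158144135176) (.two (nat_lit 9781116929) (nat_lit 158144135184) (.two (nat_lit 16777216) (nat_lit 11007951100) (.one (nat_lit 136315691) .nil)))),
   .two (nat_lit 41943045) (nat_lit 10338959368) (.two (nat_lit 41943041) (nat_lit 10955522093) (.two (nat_lit 16777216) (nat_lit 3464495189) (.one (nat_lit 8389896) .nil))),
   .two (nat_lit 46980399109) (nat_lit 41943047) (.two (nat_lit 46409973763) (nat_lit 713031688) (.two (nat_lit 4194305) (nat_lit 713031695) (.two (nat_lit 4194304) (nat_lit 3028287525) (.one (nat_lit 4195593) .nil)))),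
   .two (nat_lit 75497477) (nat_lit 47563407368) (.two (nat_lit 8388609) (nat_lit 620757007) (.two (nat_lit 1048576) (nat_lit 889192485) (.one (nat_lit 1049866) .nil))),
   .two (nat_lit 9948889093) (nat_lit 11543773191) (.two (nat_lit 705691651) (nat_lit 1291845640) (.two (nat_lit 34603009) (nat_lit 1291845647) (.two (nat_lit 1048576) (nat_lit 654311491) (.one (nat_lit 9982443731) .nil)))),
   .two (nat_lit 1277165570) (nat_lit 21785214983) (.two (nat_lit 1277165571) (nat_lit 3531603978) (.two (nat_lit 606076929) (nat_lit 1417674776) (.two (nat_lit 2097152) (nat_lit 11584667731) (.one (nat_lit 8389433) .nil)))),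
   .two (nat_lit 1276116996) (nat_lit 156372041735) (.two (nat_lit 1276116995) (nat_lit 156372041736) (.two (nat_lit 156372041729) (nat_lit 158176641047) (.two (nat_lit 8388608) (nat_lit 1048927) (.one (nat_lit 1049867) .nil)))),
   .two (nat_lit 13191086085) (nat_lit 4605345799) (.two (nat_lit 8388611) (nat_lit 183848927240) (.two (nat_lit 8388609) (nat_lit 183848927247) (.two (nat_lit 8388608) (nat_lit 9802088515) (.one (nat_lit 876609747) .nil)))),
   .two (nat_lit 705691650) (nat_lit 12054429704) (.two (nat_lit 34603009) (nat_lit 12054429711) (.two (nat_lit 1048576) (nat_lit 1384120341) (.one (nat_lit 1753219287) .nil))),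
   .two (nat_lit 8388610) (nat_lit 50331656) (.two (nat_lit 8388609) (nat_lit 50331663) (.two (nat_lit 8388608) (nat_lit 83886101) (.one (nat_lit 352321751) .nil))),
   .two (nat_lit 41943045) (nat_lit 183848927240) (.two (nat_lit 41943041) (nat_lit 183848927247) (.two (nat_lit 8388608) (nat_lit 11513364545) (.one (nat_lit 10338959571) .nil))),
   .two (nat_lit 157038936069) (nat_lit 41943048) (.two (nat_lit 9768534017) (nat_lit 183953784857) (.two (nat_lit 4194304) (nat_lit 880803998) (.one (nat_lit 4195596) .nil))),
   .two (nat_lit 2887778306) (nat_lit 9948889096) (.two (nat_lit 2097153) (nat_lit 9948889103) (.two (nat_lit 2097152) (nat_lit 166245433365) (.one (nat_lit 46422556874) .nil))),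
   .two (nat_lit 620756997) (nat_lit 739246088) (.two (nat_lit 50331649) (nat_lit 739246095) (.two (nat_lit 16777216) (nat_lit 28790751299) (.one (nat_lit 1276117205) .nil))),
   .two (nat_lit 1276116996) (nat_lit 18933088264) (.two (nat_lit 605028353) (nat_lit 184993972235) (.two (nat_lit 1048576) (nat_lit 184993972242) (.one (nat_lit 1049869) .nil))),
   .two (nat_lit 184549381) (nat_lit 11543773197) (.two (nat_lit 16777217) (nat_lit 19596836908) (.two (nat_lit 16777216) (nat_lit 1048739) (.one (nat_lit 2097989) .nil))),
   .two (nat_lit 1277165572) (nat_lit 46409973768) (.two (nat_lit 606076929) (nat_lit 3527409675) (.two (nat_lit 2097152) (nat_lit 3527409682) (.one (nat_lit 2098447) .nil))),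
   .two (nat_lit 183853121540) (nat_lit 4601151496) (.two (nat_lit 41943041) (nat_lit 4601151503) (.two (nat_lit 8388608) (nat_lit 11513364547) (.one (nat_lit 3460301011) .nil))),
   .two (nat_lit 3531603973) (nat_lit 9934209032) (.two (nat_lit 8388609) (nat_lit 9934209039) (.two (nat_lit 8388608) (nat_lit 21812478084) (.one (nat_lit 174686470524) .nil))),
   .two (nat_lit 169869316) (nat_lit 18933088264) (.two (nat_lit 41943041) (nat_lit 47548727311) (.two (nat_lit 8388608) (nat_lit 165526110245) (.one (nat_lit 8389389) .nil))),
   .two (nat_lit 2889875460) (nat_lit 46978301960) (.two (nat_lit 4194305) (nat_lit 46978301967) (.two (nat_lit 4194304) (nat_lit 46978301988) (.one (nat_lit 1746927712) .nil))),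
   .two (nat_lit 171966469) (nat_lit 156372041736) (.two (nat_lit 4194305) (nat_lit 10343153688) (.two (nat_lit 1048576) (nat_lit 2927624275) (.one (nat_lit 1049872) .nil))),
   .two (nat_lit 10503585797) (nat_lit 1277165576) (.two (nat_lit 8388609) (nat_lit 1277165583) (.two (nat_lit 1048576) (nat_lit 2954887189) (.one (nat_lit 21812478738) .nil))),
   .two (nat_lit 3525312517) (nat_lit 9940500488) (.two (nat_lit 2097153) (nat_lit 159224168463) (.two (nat_lit 2097152) (nat_lit 46481277002) (.one (nat_lit 8389025) .nil))),
   .two (nat_lit 16777218) (nat_lit 809500680) (.two (nat_lit 16777217) (nat_lit 809500687) (.two (nat_lit 16777216) (nat_lit 19130220565) (.one (nat_lit 3460301002) .nil))),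
   .two (nat_lit 10939793413) (nat_lit 9768534023) (.two (nat_lit 19529728003) (nat_lit 9768534024) (.two (nat_lit 156364701697) (nat_lit 9768534031) (.two (nat_lit 1048576) (nat_lit 809500709) (.one (nat_lit 1049851) .nil)))),
   .two (nat_lit 2889875458) (nat_lit 2988441609) (.two (nat_lit 4194305) (nat_lit 37314625557) (.two (nat_lit 2097152) (nat_lit 18928893973) (.one (nat_lit 639632131) .nil))),
   .two (nat_lit 1745879045) (nat_lit 10506731527) (.two (nat_lit 18925748227) (nat_lit 10506731528) (.two (nat_lit 156364701697) (nat_lit 10506731535) (.two (nat_lit 1048576) (nat_lit 157038936101) (.one (nat_lit 1049874) .nil)))),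
   .two (nat_lit 2097157) (nat_lit 654311432) (.two (nat_lit 2097153) (nat_lit 654311439) (.two (nat_lit 2097152) (nat_lit 10452205700) (.one (nat_lit 2902458775) .nil))),
   .two (nat_lit 16777218) (nat_lit 159217876999) (.two (nat_lit 606076931) (nat_lit 10955522058) (.two (nat_lit 16777217) (nat_lit 21208498200) (.two (nat_lit 16777216) (nat_lit 165526110291) (.one (nat_lit 10437526329) .nil)))),
   .two (nat_lit 2956984325) (nat_lit 157036838920) (.two (nat_lit 4194305) (nat_lit 157036838927) (.two (nat_lit 1048576) (nat_lit 166130090005) (.one (nat_lit 47582282567) .nil))),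
   .two (nat_lit 183848927237) (nat_lit 10939793416) (.two (nat_lit 4194305) (nat_lit 19596836889) (.two (nat_lit 4194304) (nat_lit 10436477084) (.one (nat_lit 4195603) .nil))),
   .two (nat_lit 12047089669) (nat_lit 117440520) (.two (nat_lit 34603009) (nat_lit 117440527) (.two (nat_lit 1048576) (nat_lit 1795162228) (.one (nat_lit 11559502213) .nil))),
   .two (nat_lit 19596836869) (nat_lit 612368391) (.two (nat_lit 18925748227) (nat_lit 612368392) (.two (nat_lit 156364701697) (nat_lit 612368399) (.two (nat_lit 1048576) (nat_lit 41943077) (.one (nat_lit 1049876) .nil)))),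
   .two (nat_lit 183845781508) (nat_lit 11559501831) (.two (nat_lit 721420291) (nat_lit 19596836872) (.two (nat_lit 34603009) (nat_lit 285212688) (.two (nat_lit 16777216) (nat_lit 28790751375) (.one (nat_lit 9982443947) .nil)))),
   .two (nat_lit 1343225861) (nat_lit 1417674761) (.two (nat_lit 605028353) (nat_lit 46414168075) (.two (nat_lit 1048576) (nat_lit 4605345811) (.one (nat_lit 1049877) .nil))),
   .two (nat_lit 184549381) (nat_lit 809500680) (.two (nat_lit 16777217) (nat_lit 809500687) (.two (nat_lit 16777216) (nat_lit 12620660868) (.one (nat_lit 2923430097) .nil))),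
   .two (nat_lit 102760453) (nat_lit 156367847432) (.two (nat_lit 41943041) (nat_lit 157038936079) (.two (nat_lit 8388608) (nat_lit 46474985598) (.one (nat_lit 2098454) .nil))),
   .two (nat_lit 4194308) (nat_lit 10503585799) (.two (nat_lit 2894069763) (nat_lit 809500680) (.two (nat_lit 8388609) (nat_lit 809500687) (.two (nat_lit 8388608) (nat_lit 68157577) (.one (nat_lit 1049879) .nil)))),
   .two (nat_lit 218103813) (nat_lit 12117344264) (.two (nat_lit 16777217) (nat_lit 809500697) (.two (nat_lit 16777216) (nat_lit 183916036254) (.one (nat_lit 183928620308) .nil))),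
   .two (nat_lit 1779433477) (nat_lit 165532401672) (.two (nat_lit 34603009) (nat_lit 3028287511) (.two (nat_lit 1048576) (nat_lit 343932946) (.one (nat_lit 8389456) .nil))),
   .two (nat_lit 620756997) (nat_lit 3525312520) (.two (nat_lit 50331649) (nat_lit 2954887193) (.two (nat_lit 16777216) (nat_lit 165526110362) (.one (nat_lit 46489666826) .nil))),
   .two (nat_lit 705691652) (nat_lit 9881780232) (.two (nat_lit 34603009) (nat_lit 9881780239) (.two (nat_lit 1048576) (nat_lit 9881780260) (.one (nat_lit 156548202592) .nil))),
   .two (nat_lit 9768534021) (nat_lit 13195280392) (.two (nat_lit 37748737) (nat_lit 46414168165) (.two (nat_lit 4194304) (nat_lit 9873391701) (.one (nat_lit 138412807) .nil))),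
   .two (nat_lit 183845781506) (nat_lit 37314625549) (.two (nat_lit 721420293) (nat_lit 12048138250) (.two (nat_lit 34603009) (nat_lit 46978301996) (.two (nat_lit 1048576) (nat_lit 10940842235) (.one (nat_lit 16778521) .nil)))),
   .two (nat_lit 46422556677) (nat_lit 272629766) (.two (nat_lit 16777217) (nat_lit 4634705945) (.two (nat_lit 1048576) (nat_lit 46510637076) (.one (nat_lit 2353004916) .nil))),
   .two (nat_lit 721420293) (nat_lit 176160776) (.two (nat_lit 16777217) (nat_lit 176160783) (.two (nat_lit 16777216) (nat_lit 75497539) (.one (nat_lit 4605346003) .nil))),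
   .two (nat_lit 83886085) (nat_lit 2961178632) (.two (nat_lit 16777217) (nat_lit 612368399) (.two (nat_lit 1048576) (nat_lit 11618222101) (.one (nat_lit 8389462) .nil))),
   .two (nat_lit 721420293) (nat_lit 612368392) (.two (nat_lit 16777217) (nat_lit 612368399) (.two (nat_lit 8388608) (nat_lit 1426063381) (.one (nat_lit 9772728730) .nil))),
   .two (nat_lit 1343225861) (nat_lit 46980399113) (.two (nat_lit 9765388289) (nat_lit 2889875467) (.two (nat_lit 1048576) (nat_lit 46510637074) (.one (nat_lit 4195610) .nil))),
   .two (nat_lit 184986632197) (nat_lit 10506731527) (.two (nat_lit 9768534019) (nat_lit 12047089672) (.two (nat_lit 9768534017) (nat_lit 10503585838) (.two (nat_lit 4194304) (nat_lit 2349859094) (.one (nat_lit 1049432) .nil)))),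
   .two (nat_lit 184549381) (nat_lit 202375177) (.two (nat_lit 16777217) (nat_lit 158176641045) (.two (nat_lit 16777216) (nat_lit 158176641045) (.one (nat_lit 16778524) .nil))),
   .two (nat_lit 159217876997) (nat_lit 157038936072) (.two (nat_lit 606076929) (nat_lit 157038936079) (.two (nat_lit 2097152) (nat_lit 183949590615) (.one (nat_lit 2098014) .nil))),
   .two (nat_lit 654311429) (nat_lit 13191086087) (.two (nat_lit 9781116931) (nat_lit 183848927240) (.two (nat_lit 9781116929) (nat_lit 183848927247) (.two (nat_lit 16777216) (nat_lit 2923429925) (.one (nat_lit 46422557959) .nil)))),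
   .two (nat_lit 46407876612) (nat_lit 41943047) (.two (nat_lit 41943043) (nat_lit 10336862216) (.two (nat_lit 41943041) (nat_lit 10336862223) (.two (nat_lit 8388608) (nat_lit 183947493502) (.one (nat_lit 13222544055) .nil)))),
   .two (nat_lit 183853121538) (nat_lit 4601151496) (.two (nat_lit 41943041) (nat_lit 4601151503) (.two (nat_lit 8388608) (nat_lit 156367847445) (.one (nat_lit 4601151708) .nil))),
   .two (nat_lit 272629765) (nat_lit 157036838920) (.two (nat_lit 4194305) (nat_lit 157036838927) (.two (nat_lit 4194304) (nat_lit 166130090005) (.one (nat_lit 304087891) .nil))),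
   .two (nat_lit 37748744) (nat_lit 101711880) (.two (nat_lit 4194308) (nat_lit 11476664335) (.two (nat_lit 2097153) (nat_lit 2953838835) (.two (nat_lit 2097152) (nat_lit 168821338) (.one (nat_lit 1049889) .nil)))),
   .two (nat_lit 37748744) (nat_lit 1175453704) (.two (nat_lit 4194308) (nat_lit 739246103) (.two (nat_lit 4194305) (nat_lit 1343226099) (.two (nat_lit 4194304) (nat_lit 1343226456) (.one (nat_lit 68158752) .nil)))),
   .two (nat_lit 4194312) (nat_lit 8388623) (.two (nat_lit 4194305) (nat_lit 739246146) (.two (nat_lit 4194304) (nat_lit 101712067) (.one (nat_lit 11543774495) .nil))),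
   .two (nat_lit 1343225864) (nat_lit 639631373) (.two (nat_lit 41943045) (nat_lit 705691663) (.two (nat_lit 41943041) (nat_lit 11543773250) (.two (nat_lit 8388608) (nat_lit 11543773541) (.one (nat_lit 9934210345) .nil)))),
   .two (nat_lit 2954887176) (nat_lit 1779433496) (.two (nat_lit 2097153) (nat_lit 1343225923) (.two (nat_lit 8388608) (nat_lit 2954888034) .nil)),
   .two (nat_lit 11559501832) (nat_lit 165532401672) (.two (nat_lit 721420292) (nat_lit 28093448207) (.two (nat_lit 50331649) (nat_lit 243269752) (.two (nat_lit 8388608) (nat_lit 117440707) (.one (nat_lit 46422557995) .nil)))),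
   .two (nat_lit 2969567240) (nat_lit 20644364303) (.two (nat_lit 16777217) (nat_lit 1317011522) (.two (nat_lit 8388608) (nat_lit 654311619) (.one (nat_lit 10913579874) .nil))),
   .two (nat_lit 21793603592) (nat_lit 10343153672) (.two (nat_lit 11559501829) (nat_lit 1954545709) (.two (nat_lit 8388609) (nat_lit 184419352696) (.two (nat_lit 4194304) (nat_lit 4647289450) (.one (nat_lit 11525948718) .nil)))),
   .two (nat_lit 2902458376) (nat_lit 159224168463) (.two (nat_lit 8388609) (nat_lit 166245433411) (.two (nat_lit 8388608) (nat_lit 11525948034) (.one (nat_lit 10552869730) .nil))),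
   .two (nat_lit 46414168072) (nat_lit 166132187151) (.two (nat_lit 9768534017) (nat_lit 3464495170) (.two (nat_lit 4194304) (nat_lit 47555018947) (.one (nat_lit 8390035) .nil))),
   .two (nat_lit 16777224) (nat_lit 10504634383) (.two (nat_lit 2097153) (nat_lit 185035915396) (.two (nat_lit 4194304) (nat_lit 166245434212) .nil)),
   .two (nat_lit 11492392968) (nat_lit 156971827215) (.two (nat_lit 9768534017) (nat_lit 11559502019) (.one (nat_lit 251659564) .nil)),
   .two (nat_lit 11559501832) (nat_lit 11479810061) (.two (nat_lit 708837381) (nat_lit 11559501839) (.two (nat_lit 4194305) (nat_lit 158647451714) (.two (nat_lit 16777216) (nat_lit 1176502633) (.one (nat_lit 889193831) .nil)))),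
   .two (nat_lit 184549384) (nat_lit 10343153679) (.two (nat_lit 8388609) (nat_lit 2969567427) (.one (nat_lit 3003123018) .nil)),
   .two (nat_lit 117440520) (nat_lit 184419352591) (.two (nat_lit 37748737) (nat_lit 11559501888) (.two (nat_lit 1048576) (nat_lit 2420114274) .nil)),
   .two (nat_lit 21785214984) (nat_lit 1846542351) (.two (nat_lit 156364701697) (nat_lit 47555018817) (.two (nat_lit 1048576) (nat_lit 1954546024) (.one (nat_lit 184423548206) .nil))),
   .two (nat_lit 9881780232) (nat_lit 37313576972) (.two (nat_lit 28086108165) (nat_lit 9881780239) (.two (nat_lit 34603009) (nat_lit 9948889283) (.one (nat_lit 183962174807) .nil))),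
   .two (nat_lit 156372041736) (nat_lit 721420302) (.two (nat_lit 184549381) (nat_lit 8388634) (.two (nat_lit 41943041) (nat_lit 2886729850) (.two (nat_lit 1048576) (nat_lit 1426063977) (.one (nat_lit 156465366348) .nil)))),
   .two (nat_lit 9768534024) (nat_lit 47563407368) (.two (nat_lit 184549380) (nat_lit 4601151514) (.two (nat_lit 620756993) (nat_lit 19026411645) (.two (nat_lit 16777216) (nat_lit 156569174642) (.one (nat_lit 46507492665) .nil)))),
   .two (nat_lit 2902458376) (nat_lit 174753579016) (.two (nat_lit 2902458372) (nat_lit 157036838927) (.two (nat_lit 2097153) (nat_lit 822083779) (.one (nat_lit 21223179574) .nil))),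
   .two (nat_lit 713031688) (nat_lit 47548727304) (.two (nat_lit 41943045) (nat_lit 9934209039) (.two (nat_lit 41943041) (nat_lit 47582281793) (.two (nat_lit 8388608) (nat_lit 47582281923) (.one (nat_lit 184417256779) .nil)))),
   .two (nat_lit 2889875464) (nat_lit 10370416653) (.two (nat_lit 2954887173) (nat_lit 9768534031) (.two (nat_lit 2097153) (nat_lit 46510637121) (.two (nat_lit 2097152) (nat_lit 11479810406) (.one (nat_lit 184423548296) .nil)))),
   .two (nat_lit 184416206856) (nat_lit 10940841992) (.two (nat_lit 10504634373) (nat_lit 9798942745) (.two (nat_lit 34603009) (nat_lit 157036838979) (.two (nat_lit 1048576) (nat_lit 11007951043) (.one (nat_lit 2987393892) .nil)))),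
   .two (nat_lit 46980399112) (nat_lit 20644364311) (.two (nat_lit 4194305) (nat_lit 276824183) (.two (nat_lit 4194304) (nat_lit 2357199536) (.one (nat_lit 310379364) .nil))),
   .two (nat_lit 8388616) (nat_lit 742391816) (.two (nat_lit 11546918917) (nat_lit 4605345815) (.two (nat_lit 37748737) (nat_lit 156573368458) (.two (nat_lit 2097152) (nat_lit 165532402294) (.one (nat_lit 673187117) .nil)))),
   .two (nat_lit 169869320) (nat_lit 880803852) (.two (nat_lit 13195280389) (nat_lit 9934209039) (.two (nat_lit 34603009) (nat_lit 159251431491) (.two (nat_lit 1048576) (nat_lit 639631555) (.one (nat_lit 156969731423) .nil)))),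
   .two (nat_lit 183853121544) (nat_lit 1916796940) (.two (nat_lit 1178599429) (nat_lit 1753219087) (.two (nat_lit 4194305) (nat_lit 184993972419) (.one (nat_lit 166203491685) .nil))),
   .two (nat_lit 18933088264) (nat_lit 28693233679) (.two (nat_lit 9768534017) (nat_lit 159257723241) (.one (nat_lit 10510927148) .nil)),
   .two (nat_lit 41943048) (nat_lit 205520904) (.two (nat_lit 171966469) (nat_lit 4605345815) (.two (nat_lit 4194305) (nat_lit 19134414986) (.two (nat_lit 4194304) (nat_lit 183853122181) (.one (nat_lit 839910739) .nil)))),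
   .two (nat_lit 809500680) (nat_lit 10940841999) (.two (nat_lit 4194305) (nat_lit 158144135363) (.one (nat_lit 13222544694) .nil)),
   .two (nat_lit 276824072) (nat_lit 19530776589) (.two (nat_lit 2097157) (nat_lit 13195280399) (.two (nat_lit 50331649) (nat_lit 10443817321) (.one (nat_lit 3565159802) .nil))),
   .two (nat_lit 169869320) (nat_lit 156367847432) (.two (nat_lit 34603013) (nat_lit 12050235415) (.two (nat_lit 34603009) (nat_lit 21778923633) (.two (nat_lit 1048576) (nat_lit 104858227) (.one (nat_lit 183946446210) .nil)))),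
   .two (nat_lit 183848927240) (nat_lit 3036676109) (.two (nat_lit 184549381) (nat_lit 183848927247) (.two (nat_lit 16777217) (nat_lit 183848927298) (.two (nat_lit 1048576) (nat_lit 18928894309) (.one (nat_lit 2936014191) .nil)))),
   .two (nat_lit 16777224) (nat_lit 18933088271) (.two (nat_lit 41943041) (nat_lit 285212867) (.one (nat_lit 18941478231) .nil)),
   .two (nat_lit 4613734408) (nat_lit 18933088271) (.two (nat_lit 41943041) (nat_lit 4647289027) (.one (nat_lit 156984411476) .nil)),
   .two (nat_lit 21208498184) (nat_lit 19532873736) (.two (nat_lit 158144135173) (nat_lit 156971827215) (.two (nat_lit 606076929) (nat_lit 11614028138) (.one (nat_lit 4195732) .nil))),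
   .two (nat_lit 742391816) (nat_lit 9881780239) (.two (nat_lit 606076929) (nat_lit 156468510786) (.two (nat_lit 2097152) (nat_lit 2420113603) (.one (nat_lit 2420114795) .nil))),
   .two (nat_lit 28086108168) (nat_lit 19029557272) (.two (nat_lit 605028353) (nat_lit 11010048116) (.two (nat_lit 8388608) (nat_lit 9933161122) (.one (nat_lit 184416208267) .nil))),
   .two (nat_lit 75497480) (nat_lit 19599982607) (.two (nat_lit 41943041) (nat_lit 1916797123) (.one (nat_lit 159219975479) .nil)),
   .two (nat_lit 218103816) (nat_lit 1779433480) (.two (nat_lit 2969567237) (nat_lit 28757196815) (.two (nat_lit 16777217) (nat_lit 1276117356) (.one (nat_lit 1050005) .nil))),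
   .two (nat_lit 20638072840) (nat_lit 1745879053) (.two (nat_lit 21777874949) (nat_lit 165526110223) (.two (nat_lit 16777217) (nat_lit 1310720066) (.two (nat_lit 1048576) (nat_lit 3458204006) (.one (nat_lit 28101838220) .nil)))),
   .two (nat_lit 10338959368) (nat_lit 166196150284) (.two (nat_lit 1779433477) (nat_lit 11010048024) (.two (nat_lit 34603009) (nat_lit 46477082740) (.two (nat_lit 16777216) (nat_lit 873464168) (.one (nat_lit 4601152872) .nil)))),
   .two (nat_lit 2902458376) (nat_lit 19532873743) (.two (nat_lit 9768534017) (nat_lit 2969567427) (.one (nat_lit 10015999309) .nil)),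
   .two (nat_lit 185002360840) (nat_lit 28093448207) (.two (nat_lit 612368385) (nat_lit 185035915459) (.one (nat_lit 1291847031) .nil)),
   .two (nat_lit 721420296) (nat_lit 21207449608) (.two (nat_lit 50331653) (nat_lit 159216828441) (.two (nat_lit 50331649) (nat_lit 183946444919) (.two (nat_lit 1048576) (nat_lit 50331843) (.one (nat_lit 202376036) .nil)))),
   .two (nat_lit 612368392) (nat_lit 218103823) (.two (nat_lit 16777217) (nat_lit 159224168643) (.one (nat_lit 10552869730) .nil)),
   .two (nat_lit 41943048) (nat_lit 3527409672) (.two (nat_lit 8388612) (nat_lit 9768534031) (.two (nat_lit 4194305) (nat_lit 41943235) (.one (nat_lit 183848928100) .nil))),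
   .two (nat_lit 276824072) (nat_lit 1178599439) (.two (nat_lit 37748737) (nat_lit 8388803) (.one (nat_lit 8390038) .nil)),
   .two (nat_lit 28690087944) (nat_lit 13237223437) (.two (nat_lit 822083589) (nat_lit 28690087951) (.two (nat_lit 50331649) (nat_lit 28690088002) (.two (nat_lit 2097152) (nat_lit 156968681829) (.one (nat_lit 101713274) .nil)))),
   .two (nat_lit 205520904) (nat_lit 10343153672) (.two (nat_lit 2956984325) (nat_lit 46414168087) (.two (nat_lit 4194305) (nat_lit 166136381578) (.two (nat_lit 4194304) (nat_lit 1920991854) (.one (nat_lit 775947613) .nil)))),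
   .two (nat_lit 739246088) (nat_lit 9867100168) (.two (nat_lit 11543773189) (nat_lit 10370416655) (.two (nat_lit 34603009) (nat_lit 639631427) (.two (nat_lit 1048576) (nat_lit 9934209219) (.one (nat_lit 1780483413) .nil)))),
   .two (nat_lit 272629768) (nat_lit 9766436872) (.two (nat_lit 4194308) (nat_lit 639631384) (.two (nat_lit 4194305) (nat_lit 639631470) (.two (nat_lit 8388608) (nat_lit 1178600076) (.one (nat_lit 2420114751) .nil)))),
   .two (nat_lit 46409973768) (nat_lit 156364701721) (.two (nat_lit 4194305) (nat_lit 28086108227) (.two (nat_lit 4194304) (nat_lit 135266499) (.one (nat_lit 46409974626) .nil))),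
   .two (nat_lit 754974728) (nat_lit 3525312527) (.two (nat_lit 2097153) (nat_lit 156581757063) (.two (nat_lit 16777216) (nat_lit 11007951043) (.one (nat_lit 2098583) .nil))),
   .two (nat_lit 203423752) (nat_lit 184419352584) (.two (nat_lit 2954887173) (nat_lit 18928893967) (.two (nat_lit 9766436865) (nat_lit 13191086147) (.two (nat_lit 4194304) (nat_lit 606077654) (.one (nat_lit 10001318788) .nil)))),
   .two (nat_lit 11492392968) (nat_lit 9934209032) (.two (nat_lit 169869316) (nat_lit 11492392975) (.two (nat_lit 606076929) (nat_lit 13237223491) (.two (nat_lit 16777216) (nat_lit 874513079) (.one (nat_lit 2098639) .nil)))),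
   .two (nat_lit 184549382) (nat_lit 3460300808) (.two (nat_lit 16777220) (nat_lit 3527409689) (.two (nat_lit 4194305) (nat_lit 185035915386) (.two (nat_lit 1048576) (nat_lit 20652753105) (.one (nat_lit 183946446198) .nil)))),
   .two (nat_lit 606076936) (nat_lit 158083317768) (.two (nat_lit 169869316) (nat_lit 158083317775) (.two (nat_lit 2097153) (nat_lit 156468510833) (.two (nat_lit 2097152) (nat_lit 4601152246) (.one (nat_lit 4195792) .nil)))),
   .two (nat_lit 165526110216) (nat_lit 28101836810) (.two (nat_lit 285212677) (nat_lit 174753579023) (.two (nat_lit 16777217) (nat_lit 10907287664) (.two (nat_lit 16777216) (nat_lit 9934209123) (.one (nat_lit 2098641) .nil)))),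
   .two (nat_lit 713031688) (nat_lit 21814575114) (.two (nat_lit 3527409669) (nat_lit 713031695) (.two (nat_lit 4194305) (nat_lit 880803907) (.two (nat_lit 4194304) (nat_lit 28697428328) (.one (nat_lit 8389532) .nil)))),
   .two (nat_lit 13187940358) (nat_lit 10504634374) (.two (nat_lit 183845781506) (nat_lit 19530776591) (.two (nat_lit 183845781508) (nat_lit 10504634379) (.two (nat_lit 34603009) (nat_lit 3525312549) (.two (nat_lit 1048576) (nat_lit 9799991391) (.one (nat_lit 874513304) .nil))))),
   .two (nat_lit 28758245384) (nat_lit 9869197322) (.two (nat_lit 18928893957) (nat_lit 28758245391) (.two (nat_lit 4194305) (nat_lit 158647451715) (.two (nat_lit 2097152) (nat_lit 10338959562) (.one (nat_lit 2098051) .nil)))),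
   .two (nat_lit 9934209030) (nat_lit 10506731528) (.two (nat_lit 1277165572) (nat_lit 10506731535) (.two (nat_lit 606076929) (nat_lit 166132187249) (.two (nat_lit 2097152) (nat_lit 171966661) (.one (nat_lit 46980399575) .nil)))),
   .two (nat_lit 620757000) (nat_lit 3558866953) (.two (nat_lit 28758245381) (nat_lit 620757007) (.two (nat_lit 9766436865) (nat_lit 620757027) (.two (nat_lit 2097152) (nat_lit 1358954591) (.one (nat_lit 13222544942) .nil)))),
   .two (nat_lit 9866051592) (nat_lit 156372041735) (.two (nat_lit 68157443) (nat_lit 156372041743) (.two (nat_lit 605028353) (nat_lit 156372041796) (.two (nat_lit 1048576) (nat_lit 4605345996) (.one (nat_lit 10000270219) .nil)))),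
   .two (nat_lit 169869320) (nat_lit 18933088264) (.two (nat_lit 2097157) (nat_lit 8388635) (.two (nat_lit 156364701697) (nat_lit 174759870738) (.two (nat_lit 1048576) (nat_lit 8389389) (.one (nat_lit 1050067) .nil)))),
   .two (nat_lit 1344274442) (nat_lit 183848927240) (.two (nat_lit 47548727301) (nat_lit 19599982607) (.two (nat_lit 2097153) (nat_lit 10540286071) (.two (nat_lit 2097152) (nat_lit 843055313) (.one (nat_lit 9802089807) .nil)))),
   .two (nat_lit 46473936906) (nat_lit 9934209031) (.two (nat_lit 1277165571) (nat_lit 185020186648) (.two (nat_lit 605028353) (nat_lit 159251431492) (.two (nat_lit 1048576) (nat_lit 3558867148) (.one (nat_lit 19027461094) .nil)))),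
   .two (nat_lit 176160776) (nat_lit 13191086087) (.two (nat_lit 8388611) (nat_lit 13224640552) (.two (nat_lit 8388609) (nat_lit 13224640627) (.two (nat_lit 8388608) (nat_lit 28760342731) (.one (nat_lit 21781021589) .nil)))),
   .two (nat_lit 28691136520) (nat_lit 184986632199) (.two (nat_lit 705691651) (nat_lit 19530776591) (.two (nat_lit 34603009) (nat_lit 18926796932) (.two (nat_lit 1048576) (nat_lit 270533240) (.one (nat_lit 2098645) .nil)))),
   .two (nat_lit 11551113224) (nat_lit 218103817) (.two (nat_lit 1795162117) (nat_lit 880803865) (.two (nat_lit 50331649) (nat_lit 174692761719) (.two (nat_lit 2097152) (nat_lit 1417674847) (.one (nat_lit 8390102) .nil)))),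
   .two (nat_lit 156367847432) (nat_lit 10343153672) (.two (nat_lit 46409973764) (nat_lit 10343153679) (.two (nat_lit 8388609) (nat_lit 641728634) (.two (nat_lit 4194304) (nat_lit 4638900426) (.one (nat_lit 4195799) .nil)))),
   .two (nat_lit 11544821770) (nat_lit 654311431) (.two (nat_lit 2097155) (nat_lit 117440527) (.two (nat_lit 2097153) (nat_lit 1795162225) (.two (nat_lit 1048576) (nat_lit 1761608438) (.one (nat_lit 2969567703) .nil)))),
   .two (nat_lit 705691652) (nat_lit 12117344267) (.two (nat_lit 34603009) (nat_lit 12117344274) (.one (nat_lit 185023333270) .nil)),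
   .two (nat_lit 158083317768) (nat_lit 2953838602) (.two (nat_lit 156968681477) (nat_lit 158083317775) (.two (nat_lit 34603009) (nat_lit 20644364402) (.two (nat_lit 1048576) (nat_lit 75497571) (.one (nat_lit 8390104) .nil)))),
   .two (nat_lit 880803849) (nat_lit 19597885447) (.two (nat_lit 176160771) (nat_lit 117440527) (.two (nat_lit 8388609) (nat_lit 1862271108) (.two (nat_lit 2097152) (nat_lit 2894069963) (.one (nat_lit 16778108) .nil)))),
   .two (nat_lit 11479810056) (nat_lit 37313576974) (.two (nat_lit 10503585797) (nat_lit 11479810063) (.two (nat_lit 37748737) (nat_lit 10436477057) (.two (nat_lit 4194304) (nat_lit 8388997) (.one (nat_lit 8390105) .nil)))),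
   .two (nat_lit 19599982604) (nat_lit 9781116935) (.two (nat_lit 171966467) (nat_lit 9881780239) (.two (nat_lit 4194305) (nat_lit 117440579) (.two (nat_lit 1048576) (nat_lit 1325400160) (.one (nat_lit 83886563) .nil)))),
   .two (nat_lit 1913651208) (nat_lit 174753579016) (.two (nat_lit 11476664324) (nat_lit 174753579023) (.two (nat_lit 9765388289) (nat_lit 47548727432) (.two (nat_lit 1048576) (nat_lit 2097542) (.one (nat_lit 1050074) .nil)))),
   .two (nat_lit 612368392) (nat_lit 174686470158) (.two (nat_lit 4599054341) (nat_lit 176160783) (.two (nat_lit 50331649) (nat_lit 1779433585) (.two (nat_lit 16777216) (nat_lit 1049322) (.one (nat_lit 1050075) .nil)))),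
   .two (nat_lit 1276117000) (nat_lit 1753219079) (.two (nat_lit 171966467) (nat_lit 165532401704) (.two (nat_lit 4194305) (nat_lit 165532401779) (.two (nat_lit 1048576) (nat_lit 2894069963) (.one (nat_lit 8390108) .nil)))),
   .two (nat_lit 13191086088) (nat_lit 1913651207) (.two (nat_lit 1175453699) (nat_lit 13224640536) (.two (nat_lit 37748737) (nat_lit 1947205747) (.two (nat_lit 4194304) (nat_lit 159216828619) (.one (nat_lit 1050077) .nil)))),
   .two (nat_lit 117440520) (nat_lit 46473936906) (.two (nat_lit 12047089669) (nat_lit 1191182360) (.two (nat_lit 605028353) (nat_lit 251658368) (.two (nat_lit 1048576) (nat_lit 16777608) (.one (nat_lit 16778718) .nil)))),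
   .two (nat_lit 272629766) (nat_lit 9765388295) (.two (nat_lit 28760342533) (nat_lit 37313576990) (.two (nat_lit 605028353) (nat_lit 608174156) (.two (nat_lit 16777216) (nat_lit 19093520480) (.one (nat_lit 1050079) .nil)))),
   .two (nat_lit 9948889096) (nat_lit 12114198535) (.two (nat_lit 11476664323) (nat_lit 9948889103) (.two (nat_lit 34603009) (nat_lit 11593056328) (.two (nat_lit 1048576) (nat_lit 822083960) (.one (nat_lit 21827158923) .nil)))),
   .two (nat_lit 11551113224) (nat_lit 46980399112) (.two (nat_lit 3527409669) (nat_lit 1780482063) (.two (nat_lit 606076929) (nat_lit 276824189) (.two (nat_lit 2097152) (nat_lit 2927624404) (.one (nat_lit 2098656) .nil)))),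
   .two (nat_lit 10385096712) (nat_lit 20705181709) (.two (nat_lit 21778923525) (nat_lit 1795162136) (.two (nat_lit 156365750273) (nat_lit 184989778056) (.two (nat_lit 2097152) (nat_lit 16777610) (.one (nat_lit 4195809) .nil)))),
   .two (nat_lit 2887778308) (nat_lit 46477082646) (.two (nat_lit 2097153) (nat_lit 46477082646) (.one (nat_lit 2098090) .nil)),
   .two (nat_lit 1343225864) (nat_lit 11611930634) (.two (nat_lit 10504634373) (nat_lit 1343225871) (.two (nat_lit 9766436865) (nat_lit 158176641091) (.two (nat_lit 1048576) (nat_lit 28691136714) (.one (nat_lit 1049516) .nil)))),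
   .two (nat_lit 101711880) (nat_lit 174753579016) (.two (nat_lit 11476664324) (nat_lit 174753579023) (.two (nat_lit 34603009) (nat_lit 28758245413) (.two (nat_lit 1048576) (nat_lit 2097542) (.one (nat_lit 1050084) .nil)))),
   .two (nat_lit 3525312520) (nat_lit 156569174028) (.two (nat_lit 10506731525) (nat_lit 639631375) (.two (nat_lit 156367847425) (nat_lit 10437525636) (.two (nat_lit 4194304) (nat_lit 2921332938) (.one (nat_lit 2098661) .nil)))),
   .two (nat_lit 4605345798) (nat_lit 11543773191) (.two (nat_lit 705691651) (nat_lit 46414168079) (.two (nat_lit 156372041729) (nat_lit 19093520452) (.two (nat_lit 8388608) (nat_lit 12617515212) (.one (nat_lit 1049519) .nil)))),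
   .two (nat_lit 184549384) (nat_lit 159224168456) (.two (nat_lit 16777221) (nat_lit 159224168463) (.two (nat_lit 8388609) (nat_lit 11492393084) (.two (nat_lit 8388608) (nat_lit 16777425) (.one (nat_lit 9982444881) .nil)))),
   .two (nat_lit 4194312) (nat_lit 28691136520) (.two (nat_lit 1914699781) (nat_lit 68157455) (.two (nat_lit 34603009) (nat_lit 10338959485) (.two (nat_lit 8388608) (nat_lit 2923430578) (.one (nat_lit 4195814) .nil)))),
   .two (nat_lit 1277165576) (nat_lit 47555018760) (.two (nat_lit 176160772) (nat_lit 1277165583) (.two (nat_lit 606076929) (nat_lit 3028287598) (.two (nat_lit 2097152) (nat_lit 3464495313) (.one (nat_lit 156539814805) .nil)))),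
   .two (nat_lit 11492392968) (nat_lit 19033751562) (.two (nat_lit 41943045) (nat_lit 11492392975) (.two (nat_lit 50331649) (nat_lit 183853121601) (.two (nat_lit 4194304) (nat_lit 2365588150) (.one (nat_lit 28101837674) .nil)))),
   .two (nat_lit 75497480) (nat_lit 46978301960) (.two (nat_lit 3525312517) (nat_lit 75497487) (.two (nat_lit 612368385) (nat_lit 185021235331) (.two (nat_lit 8388608) (nat_lit 706740604) (.one (nat_lit 2098663) .nil)))),
   .two (nat_lit 10504634373) (nat_lit 2316304405) (.two (nat_lit 605028353) (nat_lit 47582281746) (.one (nat_lit 2098097) .nil)),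
   .two (nat_lit 10504634373) (nat_lit 235929622) (.two (nat_lit 9766436865) (nat_lit 235929622) (.one (nat_lit 3021996950) .nil)),
   .two (nat_lit 3020947466) (nat_lit 612368391) (.two (nat_lit 165525061635) (nat_lit 176160783) (.two (nat_lit 612368385) (nat_lit 68157516) (.two (nat_lit 1048576) (nat_lit 8389005) (.one (nat_lit 158150426847) .nil)))),
   .two (nat_lit 639631368) (nat_lit 158143086599) (.two (nat_lit 9866051589) (nat_lit 156969730080) (.two (nat_lit 50331649) (nat_lit 739246195) (.two (nat_lit 16777216) (nat_lit 1309671627) (.one (nat_lit 1050088) .nil)))),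
   .two (nat_lit 4605345797) (nat_lit 21208498187) (.two (nat_lit 606076929) (nat_lit 4605345811) (.one (nat_lit 1377829346) .nil)),
   .two (nat_lit 21777874952) (nat_lit 10519314440) (.two (nat_lit 705691652) (nat_lit 218103823) (.two (nat_lit 156372041729) (nat_lit 10537140342) (.two (nat_lit 8388608) (nat_lit 1343226510) (.one (nat_lit 16778730) .nil)))),
   .two (nat_lit 10503585798) (nat_lit 612368391) (.two (nat_lit 19529728003) (nat_lit 612368399) (.two (nat_lit 156364701697) (nat_lit 1417674868) (.two (nat_lit 1048576) (nat_lit 1350566088) (.one (nat_lit 9940501923) .nil)))),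
   .two (nat_lit 2902458376) (nat_lit 10506731527) (.two (nat_lit 9768534019) (nat_lit 156465365039) (.two (nat_lit 34603009) (nat_lit 1962934404) (.two (nat_lit 4194304) (nat_lit 10955522709) (.one (nat_lit 16778731) .nil)))),
   .two (nat_lit 158649548810) (nat_lit 1913651207) (.two (nat_lit 11479810051) (nat_lit 28757196815) (.two (nat_lit 37748737) (nat_lit 10436477041) (.two (nat_lit 4194304) (nat_lit 605028549) (.one (nat_lit 12617515479) .nil)))),
   .two (nat_lit 713031688) (nat_lit 28087156744) (.two (nat_lit 1746927621) (nat_lit 713031695) (.two (nat_lit 41943041) (nat_lit 4028629285) (.two (nat_lit 16777216) (nat_lit 10913579639) (.one (nat_lit 2961179507) .nil)))),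
   .two (nat_lit 1191182344) (nat_lit 159216828422) (.two (nat_lit 11492392964) (nat_lit 174752530447) (.two (nat_lit 605028353) (nat_lit 654311535) (.two (nat_lit 1048576) (nat_lit 10452205782) (.one (nat_lit 20719862675) .nil)))),
   .two (nat_lit 3539992584) (nat_lit 159217876998) (.two (nat_lit 20638072837) (nat_lit 19529728015) (.two (nat_lit 2097153) (nat_lit 3524263973) (.two (nat_lit 2097152) (nat_lit 3524264311) (.one (nat_lit 1050016) .nil)))),
   .two (nat_lit 809500680) (nat_lit 37246468110) (.two (nat_lit 13187940357) (nat_lit 809500687) (.two (nat_lit 2097153) (nat_lit 19026411646) (.two (nat_lit 16777216) (nat_lit 12115247465) (.one (nat_lit 2098669) .nil)))),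
   .two (nat_lit 169869320) (nat_lit 1849688072) (.two (nat_lit 2097157) (nat_lit 1849688079) (.two (nat_lit 612368385) (nat_lit 10000269379) (.two (nat_lit 1048576) (nat_lit 166130090196) (.one (nat_lit 1050094) .nil)))),
   .two (nat_lit 16777224) (nat_lit 202375177) (.two (nat_lit 806354949) (nat_lit 16777231) (.two (nat_lit 9765388289) (nat_lit 20738736205) (.two (nat_lit 2097152) (nat_lit 11593056355) (.one (nat_lit 2098671) .nil)))),
   .two (nat_lit 1277165576) (nat_lit 10343153671) (.two (nat_lit 4194304) (nat_lit 8388993) .nil),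
   .two (nat_lit 46409973768) (nat_lit 1761607690) (.two (nat_lit 285212677) (nat_lit 46409973775) (.two (nat_lit 4194305) (nat_lit 1224736899) (.two (nat_lit 16777216) (nat_lit 1413481220) (.one (nat_lit 1379926939) .nil)))),
   .two (nat_lit 612368392) (nat_lit 2902458376) (.two (nat_lit 285212677) (nat_lit 612368399) (.two (nat_lit 16777217) (nat_lit 41943077) (.two (nat_lit 16777216) (nat_lit 46514831574) (.one (nat_lit 11626611568) .nil)))),
   .two (nat_lit 2969567240) (nat_lit 171966470) (.two (nat_lit 1291845634) (nat_lit 4194337) (.two (nat_lit 4194308) (nat_lit 285212683) (.two (nat_lit 37748737) (nat_lit 117440655) (.two (nat_lit 4194304) (nat_lit 4613735318) (.one (nat_lit 809502179) .nil))))),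
   .two (nat_lit 4194308) (nat_lit 3525312523) (.two (nat_lit 4194305) (nat_lit 46474985490) (.one (nat_lit 337642350) .nil)),
   .two (nat_lit 606076936) (nat_lit 822083590) (.two (nat_lit 13191086085) (nat_lit 156969730063) (.two (nat_lit 37748737) (nat_lit 183913938981) (.two (nat_lit 4194304) (nat_lit 1780482262) (.one (nat_lit 4195824) .nil)))),
   .two (nat_lit 713031684) (nat_lit 822083599) (.two (nat_lit 16777217) (nat_lit 310378518) (.one (nat_lit 8389559) .nil)),
   .two (nat_lit 2969567240) (nat_lit 9969860618) (.two (nat_lit 2902458372) (nat_lit 18928893967) (.two (nat_lit 37748737) (nat_lit 18941476945) (.two (nat_lit 4194304) (nat_lit 2936013014) (.one (nat_lit 16778737) .nil)))),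
   .two (nat_lit 176160774) (nat_lit 18941476874) (.two (nat_lit 1291845634) (nat_lit 4605345807) (.two (nat_lit 654311429) (nat_lit 176160779) (.two (nat_lit 620756993) (nat_lit 4605345827) (.two (nat_lit 16777216) (nat_lit 343933023) (.one (nat_lit 1853883288) .nil))))),
   .two (nat_lit 1795162120) (nat_lit 1913651207) (.two (nat_lit 1175453699) (nat_lit 1795162127) (.two (nat_lit 9765388289) (nat_lit 318767184) (.two (nat_lit 1048576) (nat_lit 16777617) (.one (nat_lit 16778739) .nil)))),
   .two (nat_lit 205520904) (nat_lit 654311436) (.two (nat_lit 9781116933) (nat_lit 10506731535) (.two (nat_lit 50331649) (nat_lit 19029557364) (.two (nat_lit 1048576) (nat_lit 4194506) (.one (nat_lit 4195828) .nil)))),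
   .two (nat_lit 176160776) (nat_lit 184419352584) (.two (nat_lit 12117344261) (nat_lit 176160783) (.two (nat_lit 8388609) (nat_lit 159253528707) (.two (nat_lit 8388608) (nat_lit 272630490) (.one (nat_lit 4195829) .nil)))),
   .two (nat_lit 9948889096) (nat_lit 184986632200) (.two (nat_lit 705691652) (nat_lit 3003121681) (.two (nat_lit 705691651) (nat_lit 3539992602) (.two (nat_lit 612368385) (nat_lit 165525061740) (.two (nat_lit 8388608) (nat_lit 11559502448) (.one (nat_lit 16778742) .nil))))),
   .two (nat_lit 174752530440) (nat_lit 4599054342) (.two (nat_lit 46407876612) (nat_lit 174752530447) (.two (nat_lit 2097153) (nat_lit 2349858929) (.two (nat_lit 2097152) (nat_lit 806355043) (.one (nat_lit 4598006636) .nil)))),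
   .two (nat_lit 10385096712) (nat_lit 772800526) (.two (nat_lit 605028357) (nat_lit 1291845647) (.two (nat_lit 34603009) (nat_lit 174688567409) (.two (nat_lit 16777216) (nat_lit 46477083013) (.one (nat_lit 4195831) .nil)))),
   .two (nat_lit 21777874952) (nat_lit 174753579016) (.two (nat_lit 705691652) (nat_lit 10336862233) (.two (nat_lit 34603009) (nat_lit 10907287635) (.two (nat_lit 1048576) (nat_lit 2097556) (.one (nat_lit 46406828490) .nil)))),
   .two (nat_lit 2954887176) (nat_lit 158083317768) (.two (nat_lit 169869316) (nat_lit 158083317775) (.two (nat_lit 612368385) (nat_lit 20738736195) (.two (nat_lit 2097152) (nat_lit 3531604180) (.one (nat_lit 639632878) .nil)))),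
   .two (nat_lit 1779433480) (nat_lit 18926796813) (.two (nat_lit 721420293) (nat_lit 101711887) (.two (nat_lit 16777217) (nat_lit 840958073) (.two (nat_lit 16777216) (nat_lit 12147753170) (.one (nat_lit 2098680) .nil)))),
   .two (nat_lit 2961178632) (nat_lit 1761607690) (.two (nat_lit 285212677) (nat_lit 2927624218) (.two (nat_lit 9765388289) (nat_lit 165540790537) (.two (nat_lit 1048576) (nat_lit 8389013) (.one (nat_lit 1050105) .nil)))),
   .two (nat_lit 713031688) (nat_lit 18928893960) (.two (nat_lit 41943045) (nat_lit 18928893967) (.two (nat_lit 612368385) (nat_lit 11614027850) (.two (nat_lit 8388608) (nat_lit 4194710) (.one (nat_lit 2927625072) .nil)))),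
   .two (nat_lit 1178599432) (nat_lit 156969730056) (.two (nat_lit 9768534021) (nat_lit 1176502298) (.two (nat_lit 16777217) (nat_lit 337641603) (.two (nat_lit 16777216) (nat_lit 10506731722) (.one (nat_lit 10439624165) .nil)))),
   .two (nat_lit 809500680) (nat_lit 135266316) (.two (nat_lit 19596836869) (nat_lit 4601151503) (.two (nat_lit 37748737) (nat_lit 9899606081) (.two (nat_lit 1048576) (nat_lit 183916036195) (.one (nat_lit 1178600300) .nil)))),
   .two (nat_lit 47548727304) (nat_lit 1916796935) (.two (nat_lit 169869315) (nat_lit 19130220568) (.two (nat_lit 2097153) (nat_lit 183949590596) (.two (nat_lit 2097152) (nat_lit 4195091) (.one (nat_lit 28691137426) .nil)))),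
   .two (nat_lit 4601151496) (nat_lit 9781116935) (.two (nat_lit 9948889093) (nat_lit 13191086095) (.two (nat_lit 4194305) (nat_lit 174701150334) (.two (nat_lit 16777216) (nat_lit 339738721) (.one (nat_lit 4195258) .nil)))),
   .two (nat_lit 28086108165) (nat_lit 184419352597) (.two (nat_lit 34603009) (nat_lit 184419352597) (.one (nat_lit 166232850897) .nil)),
   .two (nat_lit 874512394) (nat_lit 8388615) (.two (nat_lit 165526110211) (nat_lit 8388623) (.two (nat_lit 8388609) (nat_lit 840958025) (.two (nat_lit 2097152) (nat_lit 8389016) (.one (nat_lit 174759870691) .nil)))),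
   .two (nat_lit 75497480) (nat_lit 174768259082) (.two (nat_lit 11492392965) (nat_lit 21785214991) (.two (nat_lit 16777217) (nat_lit 780140611) (.two (nat_lit 16777216) (nat_lit 10544480616) (.one (nat_lit 18933089166) .nil)))),
   .two (nat_lit 183845781506) (nat_lit 158083317775) (.two (nat_lit 34603009) (nat_lit 20644364308) (.one (nat_lit 21785215201) .nil)),
   .two (nat_lit 184416206856) (nat_lit 3558866953) (.two (nat_lit 183845781508) (nat_lit 28758245416) (.two (nat_lit 9766436865) (nat_lit 166196150415) (.two (nat_lit 2097152) (nat_lit 1410335094) (.one (nat_lit 2098682) .nil)))),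
   .two (nat_lit 809500680) (nat_lit 3525312520) (.two (nat_lit 4194308) (nat_lit 3525312527) (.two (nat_lit 4194305) (nat_lit 46474985537) (.two (nat_lit 4194304) (nat_lit 2097917) (.one (nat_lit 156466414474) .nil)))),
   .two (nat_lit 183853121540) (nat_lit 1745879055) (.two (nat_lit 41943041) (nat_lit 183912890386) (.one (nat_lit 19093521300) .nil)),
   .two (nat_lit 8388616) (nat_lit 285212685) (.two (nat_lit 285212677) (nat_lit 13195280399) (.two (nat_lit 16777217) (nat_lit 20644364412) (.two (nat_lit 16777216) (nat_lit 8389017) (.one (nat_lit 183928620514) .nil)))),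
   .two (nat_lit 21785214984) (nat_lit 3557818377) (.two (nat_lit 28757196805) (nat_lit 21785214991) (.two (nat_lit 16777217) (nat_lit 10343153701) (.two (nat_lit 16777216) (nat_lit 41943669) (.one (nat_lit 8390139) .nil)))),
   .two (nat_lit 10000269322) (nat_lit 21785214983) (.two (nat_lit 1913651205) (nat_lit 184993972239) (.two (nat_lit 156364701697) (nat_lit 184993972289) (.two (nat_lit 1048576) (nat_lit 813695072) (.one (nat_lit 19033751779) .nil)))),
   .two (nat_lit 8388616) (nat_lit 4599054342) (.two (nat_lit 713031682) (nat_lit 46407876641) (.two (nat_lit 8388612) (nat_lit 4599054347) (.two (nat_lit 612368385) (nat_lit 13222543508) (.two (nat_lit 2097152) (nat_lit 4034921393) (.one (nat_lit 2098684) .nil))))),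
   .two (nat_lit 185002360840) (nat_lit 10338959370) (.two (nat_lit 1283457029) (nat_lit 28087156751) (.two (nat_lit 8388609) (nat_lit 1377828931) (.two (nat_lit 8388608) (nat_lit 706740442) (.one (nat_lit 2098686) .nil)))),
   .two (nat_lit 272629768) (nat_lit 10504634376) (.two (nat_lit 4194308) (nat_lit 156567076888) (.two (nat_lit 37748737) (nat_lit 1210057098) (.two (nat_lit 4194304) (nat_lit 1210057098) (.one (nat_lit 2098687) .nil)))),
   .two (nat_lit 721420292) (nat_lit 713031695) (.two (nat_lit 50331649) (nat_lit 11618222100) (.one (nat_lit 21818770292) .nil)),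
   .two (nat_lit 184986632200) (nat_lit 10506731527) (.two (nat_lit 705691651) (nat_lit 10506731535) (.two (nat_lit 34603009) (nat_lit 19096666244) (.two (nat_lit 1048576) (nat_lit 4634706129) (.one (nat_lit 19096667019) .nil)))),
   .two (nat_lit 165540790282) (nat_lit 159224168455) (.two (nat_lit 50331651) (nat_lit 20644364303) (.two (nat_lit 50331649) (nat_lit 159224168515) (.two (nat_lit 16777216) (nat_lit 183920230598) (.one (nat_lit 813695203) .nil)))),
   .two (nat_lit 10385096712) (nat_lit 10436476942) (.two (nat_lit 9933160453) (nat_lit 1291845648) (.two (nat_lit 605028353) (nat_lit 9915334694) (.two (nat_lit 16777216) (nat_lit 1049366) (.one (nat_lit 4195840) .nil)))),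
   .two (nat_lit 165532401669) (nat_lit 13191086091) (.two (nat_lit 8388609) (nat_lit 11513364500) (.one (nat_lit 4194805) .nil)),
   .two (nat_lit 12054429704) (nat_lit 16777223) (.two (nat_lit 16777219) (nat_lit 12054429711) (.two (nat_lit 16777217) (nat_lit 3531604043) (.two (nat_lit 2097152) (nat_lit 16778007) (.one (nat_lit 16778753) .nil)))),
   .two (nat_lit 1279262730) (nat_lit 654311431) (.two (nat_lit 708837379) (nat_lit 1291845647) (.two (nat_lit 37748737) (nat_lit 10552868931) (.two (nat_lit 2097152) (nat_lit 9915334752) (.one (nat_lit 16778755) .nil)))),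
   .two (nat_lit 19596836872) (nat_lit 272629766) (.two (nat_lit 2889875460) (nat_lit 19596836879) (.two (nat_lit 9768534017) (nat_lit 2349858931) (.two (nat_lit 4194304) (nat_lit 605028742) (.one (nat_lit 1050116) .nil)))),
   .two (nat_lit 608174090) (nat_lit 16777223) (.two (nat_lit 1178599427) (nat_lit 184549391) (.two (nat_lit 9768534017) (nat_lit 352321603) (.two (nat_lit 4194304) (nat_lit 1358954707) (.one (nat_lit 16778757) .nil)))),
   .two (nat_lit 12050235400) (nat_lit 285212678) (.two (nat_lit 2902458372) (nat_lit 158077026319) (.two (nat_lit 2097153) (nat_lit 21781020709) (.two (nat_lit 2097152) (nat_lit 2889875668) (.one (nat_lit 2098694) .nil)))),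
   .two (nat_lit 159224168460) (nat_lit 156532473870) (.two (nat_lit 16777221) (nat_lit 159224168463) (.two (nat_lit 620756993) (nat_lit 166229704841) (.two (nat_lit 16777216) (nat_lit 8389021) (.one (nat_lit 1050119) .nil)))),
   .two (nat_lit 1277165576) (nat_lit 10343153671) (.two (nat_lit 1048576) (nat_lit 8388993) .nil),
   .two (nat_lit 1277165576) (nat_lit 10343153671) (.two (nat_lit 156372041731) (nat_lit 158144135192) (.two (nat_lit 37748737) (nat_lit 10007609426) (.two (nat_lit 4194304) (nat_lit 4028629386) (.one (nat_lit 2098696) .nil)))),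
   .two (nat_lit 184549384) (nat_lit 10504634381) (.two (nat_lit 10504634373) (nat_lit 184549391) (.two (nat_lit 41943041) (nat_lit 16777251) (.two (nat_lit 2097152) (nat_lit 285212767) (.one (nat_lit 2098697) .nil)))),
   .two (nat_lit 12148801546) (nat_lit 101711879) (.two (nat_lit 183861510147) (nat_lit 739246095) (.two (nat_lit 50331649) (nat_lit 28790751299) (.two (nat_lit 2097152) (nat_lit 1276117205) (.one (nat_lit 9933161951) .nil)))),
   .two (nat_lit 807403530) (nat_lit 46414168072) (.two (nat_lit 10940841989) (nat_lit 46414168079) (.two (nat_lit 606076929) (nat_lit 4605345859) (.two (nat_lit 2097152) (nat_lit 10376708456) (.one (nat_lit 158083318715) .nil)))),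
   .two (nat_lit 2969567240) (nat_lit 9969860618) (.two (nat_lit 2902458372) (nat_lit 18928893967) (.two (nat_lit 37748737) (nat_lit 46422556746) (.two (nat_lit 4194304) (nat_lit 2936013014) (.one (nat_lit 16778762) .nil)))),
   .two (nat_lit 645922825) (nat_lit 2954887175) (.two (nat_lit 169869315) (nat_lit 8388623) (.two (nat_lit 2097153) (nat_lit 243269764) (.two (nat_lit 2097152) (nat_lit 183853121745) (.one (nat_lit 156365751696) .nil)))),
   .two (nat_lit 10503585798) (nat_lit 612368391) (.two (nat_lit 19529728003) (nat_lit 612368399) (.two (nat_lit 156364701697) (nat_lit 12121538688) (.two (nat_lit 1048576) (nat_lit 11551114003) (.one (nat_lit 8390155) .nil)))),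
   .two (nat_lit 3525312520) (nat_lit 158143086600) (.two (nat_lit 2887778308) (nat_lit 28086108175) (.two (nat_lit 605028353) (nat_lit 706740309) (.two (nat_lit 2097152) (nat_lit 12047089874) (.one (nat_lit 336594352) .nil)))),
   .two (nat_lit 20644364297) (nat_lit 16777224) (.two (nat_lit 156372041733) (nat_lit 16777231) (.two (nat_lit 41943041) (nat_lit 285212781) (.two (nat_lit 8388608) (nat_lit 1862271173) (.one (nat_lit 83886551) .nil)))),
   .two (nat_lit 809500680) (nat_lit 4034920457) (.two (nat_lit 28705816581) (nat_lit 809500687) (.two (nat_lit 50331649) (nat_lit 809500707) (.two (nat_lit 16777216) (nat_lit 19130220754) (.one (nat_lit 19134416290) .nil)))),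
   .two (nat_lit 8388616) (nat_lit 754974728) (.two (nat_lit 11559501829) (nat_lit 8388623) (.two (nat_lit 50331649) (nat_lit 1317011595) (.two (nat_lit 1048576) (nat_lit 721420490) (.one (nat_lit 10015998832) .nil)))),
   .two (nat_lit 1343225864) (nat_lit 13222543370) (.two (nat_lit 158144135173) (nat_lit 1343225871) (.two (nat_lit 606076929) (nat_lit 1947205669) (.two (nat_lit 1048576) (nat_lit 19597885636) (.one (nat_lit 1050124) .nil)))),
   .two (nat_lit 645922825) (nat_lit 12114198535) (.two (nat_lit 713031683) (nat_lit 101711887) (.two (nat_lit 34603009) (nat_lit 8388642) (.two (nat_lit 1048576) (nat_lit 3028287885) (.one (nat_lit 158143087589) .nil)))),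
   .two (nat_lit 184549381) (nat_lit 809500687) (.two (nat_lit 16777217) (nat_lit 11546918930) (.one (nat_lit 138412524) .nil)),
   .two (nat_lit 12147752973) (nat_lit 620756999) (.two (nat_lit 16777216) (nat_lit 1048795) .nil),
   .two (nat_lit 28772925448) (nat_lit 12115247113) (.two (nat_lit 1176502277) (nat_lit 1795162127) (.two (nat_lit 2097153) (nat_lit 28697428088) (.two (nat_lit 2097152) (nat_lit 41943139) (.one (nat_lit 8390158) .nil)))),
   .two (nat_lit 4601151496) (nat_lit 10940841992) (.two (nat_lit 4194308) (nat_lit 156969730081) (.two (nat_lit 4194308) (nat_lit 1914699787) (.two (nat_lit 9766436865) (nat_lit 4194390) (.two (nat_lit 4194304) (nat_lit 1914700180) (.one (nat_lit 156365751783) .nil))))),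
   .two (nat_lit 2889875464) (nat_lit 1753219080) (.two (nat_lit 272629765) (nat_lit 1753219087) (.two (nat_lit 4194305) (nat_lit 1753219107) (.two (nat_lit 4194304) (nat_lit 9906946258) (.one (nat_lit 156372043186) .nil)))),
   .two (nat_lit 713031688) (nat_lit 822083590) (.two (nat_lit 754974725) (nat_lit 713031695) (.two (nat_lit 50331649) (nat_lit 3028287525) (.two (nat_lit 16777216) (nat_lit 174692761699) (.one (nat_lit 8390159) .nil)))),
   .two (nat_lit 2954887176) (nat_lit 184549382) (.two (nat_lit 16777220) (nat_lit 2954887183) (.two (nat_lit 16777217) (nat_lit 2988441709) (.two (nat_lit 16777216) (nat_lit 47582281823) (.one (nat_lit 11511268204) .nil)))),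
   .two (nat_lit 1954545674) (nat_lit 11543773191) (.two (nat_lit 37748739) (nat_lit 101711887) (.two (nat_lit 37748737) (nat_lit 159224168569) (.two (nat_lit 4194304) (nat_lit 10503585888) (.one (nat_lit 1050130) .nil)))),
   .two (nat_lit 654311432) (nat_lit 184986632199) (.two (nat_lit 9781116931) (nat_lit 12047089679) (.two (nat_lit 9781116929) (nat_lit 772800580) (.two (nat_lit 4194304) (nat_lit 12047090042) (.one (nat_lit 34603915) .nil)))),
   .two (nat_lit 20644364296) (nat_lit 19596836872) (.two (nat_lit 183845781508) (nat_lit 20644364303) (.two (nat_lit 34603009) (nat_lit 679477315) (.two (nat_lit 1048576) (nat_lit 158183981152) (.one (nat_lit 8390163) .nil)))),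
   .two (nat_lit 10369368072) (nat_lit 28758245383) (.two (nat_lit 713031683) (nat_lit 158176641048) (.two (nat_lit 605028353) (nat_lit 20644364370) (.two (nat_lit 2097152) (nat_lit 2416968074) (.one (nat_lit 8390164) .nil)))),
   .two (nat_lit 9781116936) (nat_lit 11513364489) (.two (nat_lit 157038936069) (nat_lit 654311448) (.two (nat_lit 9768534017) (nat_lit 654311534) (.two (nat_lit 4194304) (nat_lit 37329305817) (.one (nat_lit 16778773) .nil)))),
   .two (nat_lit 203423752) (nat_lit 158143086599) (.two (nat_lit 9766436867) (nat_lit 21777874959) (.two (nat_lit 605028353) (nat_lit 874512528) (.two (nat_lit 2097152) (nat_lit 1048992) (.one (nat_lit 158143087499) .nil)))),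
   .two (nat_lit 12115247114) (nat_lit 1916796935) (.two (nat_lit 2097155) (nat_lit 12117344271) (.two (nat_lit 2097153) (nat_lit 28693233731) (.two (nat_lit 1048576) (nat_lit 708837472) (.one (nat_lit 4195862) .nil)))),
   .two (nat_lit 10336862216) (nat_lit 166132187144) (.two (nat_lit 46407876612) (nat_lit 28693233679) (.two (nat_lit 2097153) (nat_lit 2420113475) (.two (nat_lit 2097152) (nat_lit 10540286048) (.one (nat_lit 4195863) .nil)))),
   .two (nat_lit 218103816) (nat_lit 21210595338) (.two (nat_lit 11479810053) (nat_lit 218103823) (.two (nat_lit 4194305) (nat_lit 10385096771) (.two (nat_lit 4194304) (nat_lit 10015998170) (.one (nat_lit 11626612222) .nil)))),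
   .two (nat_lit 12117344264) (nat_lit 183845781513) (.two (nat_lit 3472883717) (nat_lit 12117344271) (.two (nat_lit 16777217) (nat_lit 12117344291) (.two (nat_lit 1048576) (nat_lit 19599982802) (.one (nat_lit 11492394542) .nil)))),
   .two (nat_lit 184549380) (nat_lit 1277165583) (.two (nat_lit 16777217) (nat_lit 1277165588) (.one (nat_lit 3558867886) .nil)),
   .two (nat_lit 46507491338) (nat_lit 9768534023) (.two (nat_lit 19529728003) (nat_lit 2889875471) (.two (nat_lit 156364701697) (nat_lit 1178599491) (.two (nat_lit 1048576) (nat_lit 306184403) (.one (nat_lit 4195865) .nil)))),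
   .two (nat_lit 37748744) (nat_lit 19596836871) (.two (nat_lit 2097152) (nat_lit 1048994) .nil),
   .two (nat_lit 9768534024) (nat_lit 1745879048) (.two (nat_lit 2889875461) (nat_lit 1745879055) (.two (nat_lit 34603009) (nat_lit 708837461) (.two (nat_lit 4194304) (nat_lit 158075977938) (.one (nat_lit 156364703154) .nil)))),
   .two (nat_lit 612368392) (nat_lit 136314892) (.two (nat_lit 176160773) (nat_lit 721420305) (.two (nat_lit 620756993) (nat_lit 236978302) (.two (nat_lit 16777216) (nat_lit 2097946) (.one (nat_lit 2098621) .nil)))),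
   .two (nat_lit 11511267338) (nat_lit 156367847431) (.two (nat_lit 9766436867) (nat_lit 183848927247) (.two (nat_lit 9766436865) (nat_lit 183848927266) (.two (nat_lit 2097152) (nat_lit 1212154264) (.one (nat_lit 37316722911) .nil)))),
   .two (nat_lit 37748744) (nat_lit 11492392968) (.two (nat_lit 4194308) (nat_lit 11492392977) (.two (nat_lit 4194305) (nat_lit 2418016393) (.two (nat_lit 2097152) (nat_lit 4195100) (.one (nat_lit 1178600341) .nil)))),
   .two (nat_lit 21785214984) (nat_lit 158077026319) (.two (nat_lit 713031684) (nat_lit 156567076933) (.two (nat_lit 184993972229) (nat_lit 184987680789) (.two (nat_lit 41943041) (nat_lit 1379926383) (.two (nat_lit 4194304) (nat_lit 2097639) (.one (nat_lit 2319451708) .nil))))),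
   .two (nat_lit 28693233672) (nat_lit 705691663) (.two (nat_lit 705691652) (nat_lit 12148801573) (.two (nat_lit 34603013) (nat_lit 185023332370) (.two (nat_lit 9766436865) (nat_lit 28690088148) (.two (nat_lit 2097152) (nat_lit 156465365453) (.one (nat_lit 10369369639) .nil))))),
   .two (nat_lit 2954887175) (nat_lit 184549401) (.two (nat_lit 46422556675) (nat_lit 46474985585) (.two (nat_lit 156364701697) (nat_lit 185021235239) (.two (nat_lit 1048576) (nat_lit 20738736599) (.one (nat_lit 1049582) .nil)))),
   .two (nat_lit 9948889096) (nat_lit 1343225871) (.two (nat_lit 184549380) (nat_lit 1947205669) (.two (nat_lit 184549380) (nat_lit 1779433493) (.two (nat_lit 34603009) (nat_lit 184431935684) (.two (nat_lit 16777216) (nat_lit 10906239204) (.one (nat_lit 165540791839) .nil))))),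
   .two (nat_lit 184993972229) (nat_lit 158143086613) (.one (nat_lit 158083318754) .nil),
   .two (nat_lit 50331656) (nat_lit 174752530453) (.two (nat_lit 1745879045) (nat_lit 16777253) (.two (nat_lit 16777220) (nat_lit 174752530453) (.two (nat_lit 605028353) (nat_lit 285212766) (.two (nat_lit 1048576) (nat_lit 50331884) (.one (nat_lit 16778844) .nil))))),
   .two (nat_lit 156968681477) (nat_lit 3028287508) (.one (nat_lit 8390237) .nil),
   .two (nat_lit 11546918919) (nat_lit 4598005789) (.two (nat_lit 708837379) (nat_lit 4598005833) (.two (nat_lit 156364701697) (nat_lit 184989777958) (.two (nat_lit 1048576) (nat_lit 10942939363) (.one (nat_lit 171966975) .nil)))),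
   .two (nat_lit 47548727303) (nat_lit 21207449615) (.two (nat_lit 16777219) (nat_lit 21811429454) (.two (nat_lit 2097153) (nat_lit 20737687590) (.two (nat_lit 16777216) (nat_lit 1049472) (.one (nat_lit 1050206) .nil)))),
   .two (nat_lit 101711879) (nat_lit 1317011473) (.two (nat_lit 1175453699) (nat_lit 20644364366) (.two (nat_lit 9765388289) (nat_lit 156573368359) (.two (nat_lit 1048576) (nat_lit 4034920671) (.one (nat_lit 4605346300) .nil)))),
   .two (nat_lit 50331656) (nat_lit 2954887183) (.two (nat_lit 16777218) (nat_lit 2988441666) (.two (nat_lit 16777220) (nat_lit 2954887238) (.two (nat_lit 16777217) (nat_lit 2988441795) (.two (nat_lit 16777216) (nat_lit 21208498635) (.one (nat_lit 2098783) .nil))))),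
   .two (nat_lit 176160776) (nat_lit 184986632203) (.two (nat_lit 1745879045) (nat_lit 713031717) (.two (nat_lit 8388613) (nat_lit 12047089683) (.two (nat_lit 156364701697) (nat_lit 276824162) (.two (nat_lit 8388608) (nat_lit 1048805) (.one (nat_lit 8390240) .nil))))),
   .two (nat_lit 9781116935) (nat_lit 9866051599) (.two (nat_lit 9781116931) (nat_lit 9866051618) (.two (nat_lit 9781116929) (nat_lit 19026411558) (.two (nat_lit 16777216) (nat_lit 4598005987) (.one (nat_lit 1050210) .nil)))),
   .two (nat_lit 705691650) (nat_lit 20644364309) (.one (nat_lit 8390243) .nil),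
   .two (nat_lit 9781116935) (nat_lit 3460300832) (.two (nat_lit 171966467) (nat_lit 9881780258) (.two (nat_lit 4194305) (nat_lit 156548202534) (.two (nat_lit 1048576) (nat_lit 1291846141) (.one (nat_lit 1291846141) .nil)))),
   .two (nat_lit 285212679) (nat_lit 20638072847) (.two (nat_lit 2902458371) (nat_lit 9967763523) (.two (nat_lit 16777217) (nat_lit 158177689638) (.two (nat_lit 16777216) (nat_lit 2098053) (.one (nat_lit 10351543254) .nil)))),
   .two (nat_lit 9940500487) (nat_lit 166130089999) (.two (nat_lit 612368387) (nat_lit 166130090018) (.two (nat_lit 9768534017) (nat_lit 1948254246) (.two (nat_lit 4194304) (nat_lit 10001318115) (.one (nat_lit 9967765090) .nil)))),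
   .two (nat_lit 11551113224) (nat_lit 1913651215) (.two (nat_lit 28690087941) (nat_lit 13195280422) (.two (nat_lit 1178599427) (nat_lit 183946444866) (.two (nat_lit 9768534017) (nat_lit 10436477024) (.two (nat_lit 4194304) (nat_lit 28086109037) (.one (nat_lit 1050212) .nil))))),
   .two (nat_lit 68157448) (nat_lit 41943055) (.two (nat_lit 8388610) (nat_lit 272629875) (.two (nat_lit 605028357) (nat_lit 41943075) (.two (nat_lit 4194305) (nat_lit 235929799) (.two (nat_lit 1048576) (nat_lit 2894070218) (.one (nat_lit 10369369036) .nil))))),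
   .two (nat_lit 1753219077) (nat_lit 352321557) (.one (nat_lit 8390245) .nil),
   .two (nat_lit 754974728) (nat_lit 8388623) (.two (nat_lit 11559501829) (nat_lit 158150426663) (.two (nat_lit 721420291) (nat_lit 645922939) (.two (nat_lit 9781116929) (nat_lit 8388986) (.two (nat_lit 2097152) (nat_lit 10015998832) (.one (nat_lit 18941478461) .nil))))),
   .two (nat_lit 705691656) (nat_lit 75497487) (.two (nat_lit 34603013) (nat_lit 174759870536) (.two (nat_lit 2097155) (nat_lit 1317011588) (.two (nat_lit 2097153) (nat_lit 12054429905) (.two (nat_lit 1048576) (nat_lit 209715658) (.one (nat_lit 8390246) .nil))))),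
   .two (nat_lit 11476664324) (nat_lit 20705181717) (.one (nat_lit 2887779299) .nil),
   .two (nat_lit 11476664324) (nat_lit 3458203670) (.one (nat_lit 1050215) .nil),
   .two (nat_lit 158143086600) (nat_lit 639631375) (.two (nat_lit 2887778306) (nat_lit 1048657) (.two (nat_lit 9766436867) (nat_lit 9866051603) (.two (nat_lit 2097153) (nat_lit 1048956) (.two (nat_lit 2097152) (nat_lit 1049066) (.one (nat_lit 2098794) .nil))))),
   .two (nat_lit 184423546888) (nat_lit 1916796939) (.two (nat_lit 11546918917) (nat_lit 1384120357) (.two (nat_lit 11546918917) (nat_lit 184993972242) (.two (nat_lit 37748737) (nat_lit 37320917087) (.two (nat_lit 2097152) (nat_lit 166199296225) (.one (nat_lit 2098795) .nil))))),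
   .two (nat_lit 169869320) (nat_lit 4613734417) (.two (nat_lit 184986632199) (nat_lit 11611930674) (.two (nat_lit 169869316) (nat_lit 20719861799) (.two (nat_lit 606076931) (nat_lit 156465365112) (.two (nat_lit 9781116929) (nat_lit 2349859013) (.two (nat_lit 1048576) (nat_lit 157036839812) (.one (nat_lit 1276117991) .nil)))))),
   .two (nat_lit 46978301960) (nat_lit 183848927247) (.two (nat_lit 183848927234) (nat_lit 2988441667) (.two (nat_lit 13191086085) (nat_lit 11611930705) (.two (nat_lit 37748737) (nat_lit 11477713256) (.two (nat_lit 4194304) (nat_lit 21208498635) (.one (nat_lit 20705183327) .nil))))),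
   .two (nat_lit 3539992584) (nat_lit 157038936079) (.two (nat_lit 47550824453) (nat_lit 2969567299) (.two (nat_lit 4194305) (nat_lit 47596961987) (.two (nat_lit 1048576) (nat_lit 10909384929) (.one (nat_lit 4027581428) .nil)))),
   .two (nat_lit 46407876612) (nat_lit 1291845653) (.one (nat_lit 16778232) .nil),
   .two (nat_lit 184549381) (nat_lit 159224168466) (.one (nat_lit 8390252) .nil),
   .two (nat_lit 3525312517) (nat_lit 20737687572) (.one (nat_lit 166229705207) .nil),
   .two (nat_lit 4194311) (nat_lit 713031695) (.two (nat_lit 171966467) (nat_lit 19604176968) (.two (nat_lit 41943041) (nat_lit 339738830) (.two (nat_lit 1048576) (nat_lit 209716198) (.one (nat_lit 209716198) .nil)))),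
   .two (nat_lit 2902458372) (nat_lit 11618222100) (.one (nat_lit 8389627) .nil),
   .two (nat_lit 184993972231) (nat_lit 19532873743) (.two (nat_lit 620756995) (nat_lit 1283457062) (.two (nat_lit 41943041) (nat_lit 37748775) (.two (nat_lit 16777216) (nat_lit 4195207) (.one (nat_lit 8390254) .nil)))),
   .two (nat_lit 16777221) (nat_lit 12147752980) (.one (nat_lit 9899606523) .nil),
   .two (nat_lit 184993972231) (nat_lit 721420303) (.two (nat_lit 713031683) (nat_lit 721420322) (.two (nat_lit 41943041) (nat_lit 183928619046) (.two (nat_lit 8388608) (nat_lit 20719861983) (.one (nat_lit 16778863) .nil)))),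
   .two (nat_lit 654311431) (nat_lit 46407876640) (.two (nat_lit 2097155) (nat_lit 754974754) (.two (nat_lit 2097153) (nat_lit 10519314470) (.two (nat_lit 1048576) (nat_lit 855638239) (.one (nat_lit 721420796) .nil)))),
   .two (nat_lit 11559501831) (nat_lit 3464495119) (.two (nat_lit 176160771) (nat_lit 3003121703) (.two (nat_lit 8388609) (nat_lit 3003121703) (.two (nat_lit 2097152) (nat_lit 8389515) (.one (nat_lit 8390256) .nil)))),
   .two (nat_lit 2969567240) (nat_lit 46409973771) (.two (nat_lit 2902458372) (nat_lit 4601151523) (.two (nat_lit 4194308) (nat_lit 16777234) (.two (nat_lit 9781116929) (nat_lit 3460300895) (.two (nat_lit 16777216) (nat_lit 158079124349) (.one (nat_lit 1224738388) .nil))))),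
   .two (nat_lit 8388614) (nat_lit 3457155124) (.two (nat_lit 4194311) (nat_lit 176160783) (.two (nat_lit 10335813637) (nat_lit 176160836) (.two (nat_lit 1283457027) (nat_lit 158176641089) (.two (nat_lit 16777217) (nat_lit 9966714976) (.two (nat_lit 16777216) (nat_lit 4195212) (.one (nat_lit 809502248) .nil)))))),
   .two (nat_lit 270532615) (nat_lit 21785214991) (.two (nat_lit 2097155) (nat_lit 21785215044) (.two (nat_lit 2097153) (nat_lit 3531604007) (.two (nat_lit 4194304) (nat_lit 8389517) (.one (nat_lit 2098801) .nil)))),
   .two (nat_lit 169869320) (nat_lit 4605345807) (.two (nat_lit 169869316) (nat_lit 20711473191) (.two (nat_lit 705691651) (nat_lit 706740349) (.two (nat_lit 8388609) (nat_lit 2097533) (.two (nat_lit 1048576) (nat_lit 156372042604) (.one (nat_lit 28790752819) .nil))))),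
   .two (nat_lit 8388612) (nat_lit 184986632213) (.one (nat_lit 184993973797) .nil),
   .two (nat_lit 742391816) (nat_lit 12147752988) (.two (nat_lit 806354949) (nat_lit 11479810082) (.two (nat_lit 34603009) (nat_lit 11580473382) (.two (nat_lit 1048576) (nat_lit 4195216) (.one (nat_lit 18925749815) .nil)))),
   .two (nat_lit 739246088) (nat_lit 159217877003) (.two (nat_lit 11476664324) (nat_lit 236978213) (.two (nat_lit 11543773189) (nat_lit 9967763474) (.two (nat_lit 606076929) (nat_lit 10537140323) (.two (nat_lit 1048576) (nat_lit 4028629214) (.one (nat_lit 269485648) .nil))))),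
   .two (nat_lit 156372041736) (nat_lit 37314625557) (.two (nat_lit 21208498181) (nat_lit 13195280421) (.two (nat_lit 46414168068) (nat_lit 37314625557) (.two (nat_lit 606076929) (nat_lit 1753219167) (.two (nat_lit 2097152) (nat_lit 1417675645) (.one (nat_lit 35653166) .nil))))),
   .two (nat_lit 20637024260) (nat_lit 185035915285) (.one (nat_lit 1050153) .nil),
   .two (nat_lit 34603014) (nat_lit 713031708) (.two (nat_lit 11543773191) (nat_lit 166132187161) (.two (nat_lit 41943045) (nat_lit 156364701771) (.two (nat_lit 9873391621) (nat_lit 11543773220) (.two (nat_lit 34603009) (nat_lit 1178599628) (.two (nat_lit 1048576) (nat_lit 708837834) (.one (nat_lit 1050226) .nil)))))),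
   .two (nat_lit 4601151496) (nat_lit 2954887179) (.two (nat_lit 46409973764) (nat_lit 2954887203) (.two (nat_lit 4194308) (nat_lit 3558866964) (.two (nat_lit 4194305) (nat_lit 46474985567) (.two (nat_lit 4194304) (nat_lit 159251431658) (.one (nat_lit 11010049581) .nil))))),
   .two (nat_lit 75497477) (nat_lit 285212690) (.one (nat_lit 243271243) .nil),
   .two (nat_lit 47548727304) (nat_lit 19604176911) (.two (nat_lit 169869316) (nat_lit 3028287565) (.two (nat_lit 169869316) (nat_lit 11517558804) (.two (nat_lit 606076929) (nat_lit 310378704) (.two (nat_lit 8388608) (nat_lit 13222543589) (.one (nat_lit 8390260) .nil))))),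
   .two (nat_lit 16777222) (nat_lit 10343153679) (.two (nat_lit 9948889096) (nat_lit 47555018763) (.two (nat_lit 46414168066) (nat_lit 2969567298) (.two (nat_lit 46414168068) (nat_lit 183861510221) (.two (nat_lit 8388609) (nat_lit 184431935686) (.two (nat_lit 8388608) (nat_lit 184549832) (.one (nat_lit 159266113057) .nil)))))),
   .two (nat_lit 176160772) (nat_lit 183848927252) (.one (nat_lit 1749025763) .nil),
   .two (nat_lit 46980399112) (nat_lit 159217877007) (.two (nat_lit 169869314) (nat_lit 18928894019) (.two (nat_lit 169869316) (nat_lit 13191086117) (.two (nat_lit 2097153) (nat_lit 306184387) (.two (nat_lit 2097152) (nat_lit 13191086554) (.one (nat_lit 4030727730) .nil))))),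
   .two (nat_lit 41943048) (nat_lit 68157455) (.two (nat_lit 4194306) (nat_lit 9765388404) (.two (nat_lit 4194308) (nat_lit 269484069) (.two (nat_lit 4194305) (nat_lit 10503585992) (.two (nat_lit 1048576) (nat_lit 9936306634) (.one (nat_lit 873465400) .nil))))),
   .two (nat_lit 47548727303) (nat_lit 21207449615) (.two (nat_lit 169869315) (nat_lit 158646403140) (.two (nat_lit 2097153) (nat_lit 20737687590) (.two (nat_lit 2097152) (nat_lit 1049576) (.one (nat_lit 1049576) .nil)))),
   .two (nat_lit 28757196805) (nat_lit 11618222100) (.one (nat_lit 11484004858) .nil),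
   .two (nat_lit 20637024260) (nat_lit 3036676118) (.one (nat_lit 135267933) .nil),
   .two (nat_lit 11543773192) (nat_lit 4605345803) (.two (nat_lit 705691652) (nat_lit 4605345827) (.two (nat_lit 705691652) (nat_lit 3028287506) (.two (nat_lit 34603009) (nat_lit 343933023) (.two (nat_lit 1048576) (nat_lit 46414168545) (.one (nat_lit 343934537) .nil))))),
   .two (nat_lit 3525312520) (nat_lit 612368399) (.two (nat_lit 46407876612) (nat_lit 8388672) (.two (nat_lit 2097153) (nat_lit 276824158) (.two (nat_lit 8388608) (nat_lit 10370416865) (.one (nat_lit 184423548458) .nil)))),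
   .two (nat_lit 159250382858) (nat_lit 2889875471) (.two (nat_lit 2889875464) (nat_lit 269484054) (.two (nat_lit 12114198533) (nat_lit 1178599491) (.two (nat_lit 34603009) (nat_lit 1312817350) (.two (nat_lit 1048576) (nat_lit 1312817615) (.one (nat_lit 101712852) .nil))))),
   .two (nat_lit 880803852) (nat_lit 47548727311) (.two (nat_lit 183853121538) (nat_lit 47582281794) (.two (nat_lit 13195280389) (nat_lit 47548727366) (.two (nat_lit 156372041729) (nat_lit 47582281923) (.two (nat_lit 8388608) (nat_lit 158144135627) (.one (nat_lit 9900656206) .nil))))),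
   .two (nat_lit 21793603591) (nat_lit 47581233181) (.two (nat_lit 83886083) (nat_lit 12114198607) (.two (nat_lit 9765388289) (nat_lit 21223178278) (.two (nat_lit 1048576) (nat_lit 4043309279) (.one (nat_lit 156984410622) .nil)))),
   .two (nat_lit 809500677) (nat_lit 9906946069) (.one (nat_lit 4195958) .nil),
   .two (nat_lit 620756999) (nat_lit 2889875471) (.two (nat_lit 620756995) (nat_lit 2889875490) (.two (nat_lit 620756993) (nat_lit 2990538790) (.two (nat_lit 1048576) (nat_lit 4195217) (.one (nat_lit 4195959) .nil)))),
   .two (nat_lit 16777223) (nat_lit 166132187160) (.two (nat_lit 16777219) (nat_lit 19532873796) (.two (nat_lit 9768534017) (nat_lit 19109249063) (.two (nat_lit 1048576) (nat_lit 4195218) (.one (nat_lit 16778873) .nil)))),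
   .two (nat_lit 176160776) (nat_lit 9934209039) (.two (nat_lit 169869316) (nat_lit 176160802) (.two (nat_lit 169869316) (nat_lit 176160804) (.two (nat_lit 2097153) (nat_lit 4034920544) (.two (nat_lit 2097152) (nat_lit 19033752015) (.one (nat_lit 10544481959) .nil))))),
   .two (nat_lit 158144135176) (nat_lit 739246095) (.two (nat_lit 11476664322) (nat_lit 1277165602) (.two (nat_lit 11543773189) (nat_lit 69206090) (.two (nat_lit 9765388289) (nat_lit 159251431619) (.two (nat_lit 1048576) (nat_lit 46508540377) (.one (nat_lit 19094570574) .nil))))),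
   .two (nat_lit 2097159) (nat_lit 10343153679) (.two (nat_lit 2097155) (nat_lit 10343153732) (.two (nat_lit 2097153) (nat_lit 21818769447) (.two (nat_lit 2097152) (nat_lit 2357199755) (.one (nat_lit 2357200496) .nil)))),
   .two (nat_lit 1343225864) (nat_lit 21778923531) (.two (nat_lit 165526110213) (nat_lit 739246117) (.two (nat_lit 1343225861) (nat_lit 21778923538) (.two (nat_lit 2097153) (nat_lit 739246455) (.two (nat_lit 2097152) (nat_lit 1049492) (.one (nat_lit 839910966) .nil))))),
   .two (nat_lit 705691650) (nat_lit 9948889106) (.one (nat_lit 11559502060) .nil),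
   .two (nat_lit 1291845637) (nat_lit 4598005782) (.one (nat_lit 16778875) .nil),
   .two (nat_lit 184549378) (nat_lit 209715218) (.one (nat_lit 41943274) .nil),
   .two (nat_lit 1276116994) (nat_lit 11559501842) (.one (nat_lit 16778876) .nil),
   .two (nat_lit 171966469) (nat_lit 13195280405) (.one (nat_lit 8390270) .nil),
   .two (nat_lit 713031688) (nat_lit 13188988949) (.two (nat_lit 4599054341) (nat_lit 41943075) (.two (nat_lit 8388613) (nat_lit 4598005781) (.two (nat_lit 2097153) (nat_lit 343933138) (.two (nat_lit 2097152) (nat_lit 9765388513) (.one (nat_lit 8390271) .nil))))),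
   .two (nat_lit 639631365) (nat_lit 19596836885) (.one (nat_lit 156567077859) .nil),
   .two (nat_lit 1753219080) (nat_lit 28757196815) (.two (nat_lit 1276116994) (nat_lit 20644364353) (.two (nat_lit 12054429701) (nat_lit 174752530469) (.two (nat_lit 605028353) (nat_lit 10343153859) (.two (nat_lit 1048576) (nat_lit 4638900679) (.one (nat_lit 158653744714) .nil))))),
   .two (nat_lit 166130089986) (nat_lit 185020186644) (.one (nat_lit 9798942955) .nil),
   .two (nat_lit 11543773189) (nat_lit 3464495125) (.one (nat_lit 1050241) .nil),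
   .two (nat_lit 809500680) (nat_lit 183913938966) (.two (nat_lit 166130089989) (nat_lit 156569174053) (.two (nat_lit 4194308) (nat_lit 1277165589) (.two (nat_lit 2097153) (nat_lit 1312817364) (.two (nat_lit 2097152) (nat_lit 158146232800) (.one (nat_lit 3527411270) .nil))))),
   .two (nat_lit 75497477) (nat_lit 285212690) (.one (nat_lit 8390274) .nil),
   .two (nat_lit 41943048) (nat_lit 21777874959) (.two (nat_lit 713031685) (nat_lit 11543773254) (.two (nat_lit 8388612) (nat_lit 185020186644) (.two (nat_lit 8388609) (nat_lit 21207449699) (.two (nat_lit 8388608) (nat_lit 1343226090) (.one (nat_lit 11484005957) .nil))))),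
   .two (nat_lit 9940500488) (nat_lit 28086108175) (.two (nat_lit 19596836869) (nat_lit 1782579238) (.two (nat_lit 176160771) (nat_lit 3527409793) (.two (nat_lit 8388609) (nat_lit 1048960) (.two (nat_lit 4194304) (nat_lit 20745028505) (.one (nat_lit 8390275) .nil))))),
   .two (nat_lit 9768534023) (nat_lit 47548727311) (.two (nat_lit 9768534019) (nat_lit 2988441666) (.two (nat_lit 2097153) (nat_lit 775946278) (.two (nat_lit 2097152) (nat_lit 12620661212) (.one (nat_lit 2317353966) .nil)))),
   .two (nat_lit 2097159) (nat_lit 19599982607) (.two (nat_lit 2097155) (nat_lit 184419352690) (.two (nat_lit 34603009) (nat_lit 10540285991) (.two (nat_lit 1048576) (nat_lit 4634706795) (.one (nat_lit 156468512373) .nil)))),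
   .two (nat_lit 159224168453) (nat_lit 4598005782) (.one (nat_lit 873465443) .nil),
   .two (nat_lit 46407876610) (nat_lit 4634705938) (.one (nat_lit 46477082856) .nil),
   .two (nat_lit 19599982599) (nat_lit 46414168079) (.two (nat_lit 18928893955) (nat_lit 46414168098) (.two (nat_lit 156367847425) (nat_lit 174759870502) (.two (nat_lit 4194304) (nat_lit 47588573407) (.one (nat_lit 8390281) .nil)))),
   .two (nat_lit 2969567239) (nat_lit 20638072847) (.two (nat_lit 2902458371) (nat_lit 183913939019) (.two (nat_lit 156364701697) (nat_lit 13222543399) (.two (nat_lit 1048576) (nat_lit 12129928070) (.one (nat_lit 16778890) .nil)))),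
   .two (nat_lit 276824079) (nat_lit 352321553) (.two (nat_lit 285212680) (nat_lit 11476664354) (.two (nat_lit 285212680) (nat_lit 11476664356) (.two (nat_lit 8388612) (nat_lit 2349858854) (.two (nat_lit 8388612) (nat_lit 2349858912) (.two (nat_lit 8388609) (nat_lit 10940842207) (.two (nat_lit 8388608) (nat_lit 1224737748) (.one (nat_lit 19134416542) .nil))))))),
   .two (nat_lit 4605345807) (nat_lit 183845781519) (.two (nat_lit 9766436872) (nat_lit 12114198565) (.two (nat_lit 276824072) (nat_lit 2921332756) (.two (nat_lit 1914699781) (nat_lit 183946444897) (.two (nat_lit 1914699781) (nat_lit 183946444894) (.two (nat_lit 8388609) (nat_lit 638583244) (.two (nat_lit 1048576) (nat_lit 166136382418) (.one (nat_lit 9798944396) .nil))))))),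
   .two (nat_lit 654311431) (nat_lit 1283457099) (.two (nat_lit 10385096707) (nat_lit 746586150) (.two (nat_lit 2097152) (nat_lit 28764537344) (.one (nat_lit 28764537344) .nil))),
   .two (nat_lit 10343153679) (nat_lit 47563407376) (.two (nat_lit 4605345798) (nat_lit 9881780262) (.two (nat_lit 157038936071) (nat_lit 19026411586) (.two (nat_lit 3531603973) (nat_lit 158091706406) (.two (nat_lit 3531603973) (nat_lit 158091706464) (.two (nat_lit 8388609) (nat_lit 3539993043) (.two (nat_lit 4194304) (nat_lit 20737688536) (.one (nat_lit 10939795087) .nil))))))),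
   .two (nat_lit 2889875471) (nat_lit 46474985489) (.two (nat_lit 2887778312) (nat_lit 2889875490) (.two (nat_lit 2887778312) (nat_lit 2889875492) (.two (nat_lit 2887778308) (nat_lit 2990538790) (.two (nat_lit 2887778308) (nat_lit 2990538848) (.two (nat_lit 2097153) (nat_lit 28760342751) (.two (nat_lit 2097152) (nat_lit 101712852) (.one (nat_lit 37246469773) .nil))))))),
   .two (nat_lit 2887778319) (nat_lit 2889875467) (.two (nat_lit 4194312) (nat_lit 2887778324) (.two (nat_lit 272629765) (nat_lit 34603106) (.two (nat_lit 9765388289) (nat_lit 159217877218) (.two (nat_lit 1048576) (nat_lit 159251431656) (.one (nat_lit 1050300) .nil))))),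
   .two (nat_lit 21214789647) (nat_lit 10015997973) (.two (nat_lit 21214789640) (nat_lit 218103826) (.two (nat_lit 16777218) (nat_lit 13228835012) (.two (nat_lit 50331649) (nat_lit 1346371819) (.two (nat_lit 4194304) (nat_lit 8388843) (.one (nat_lit 8390333) .nil))))),
   .two (nat_lit 4601151499) (nat_lit 47582281745) (.two (nat_lit 34603014) (nat_lit 183949590602) (.two (nat_lit 68157448) (nat_lit 47548727318) (.two (nat_lit 270532613) (nat_lit 339738721) (.two (nat_lit 270532613) (nat_lit 339738718) (.two (nat_lit 34603009) (nat_lit 4030726617) (.two (nat_lit 4194304) (nat_lit 28790752222) (.one (nat_lit 18925749915) .nil))))))),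
   .two (nat_lit 117440519) (nat_lit 235929672) (.two (nat_lit 2097155) (nat_lit 28772925478) (.two (nat_lit 2097152) (nat_lit 16777724) (.one (nat_lit 156548204180) .nil))),
   .two (nat_lit 620756999) (nat_lit 272629794) (.two (nat_lit 606076931) (nat_lit 104857639) (.two (nat_lit 16777216) (nat_lit 4194813) (.one (nat_lit 4196030) .nil))),
   .two (nat_lit 19599982599) (nat_lit 16777294) (.two (nat_lit 165526110211) (nat_lit 158091706406) (.two (nat_lit 2097152) (nat_lit 150995456) (.one (nat_lit 150995456) .nil))),
   .two (nat_lit 809500679) (nat_lit 184549410) (.two (nat_lit 16777219) (nat_lit 12150898726) (.two (nat_lit 8388608) (nat_lit 156367847928) (.one (nat_lit 10338960397) .nil))),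
   .two (nat_lit 13195280399) (nat_lit 4599054347) (.two (nat_lit 13195280392) (nat_lit 4599054354) (.two (nat_lit 20638072834) (nat_lit 156573368528) (.two (nat_lit 606076929) (nat_lit 11517559009) (.two (nat_lit 8388608) (nat_lit 156533522664) (.one (nat_lit 8390336) .nil))))),
   .two (nat_lit 9768534031) (nat_lit 336592918) (.two (nat_lit 809500680) (nat_lit 158176641045) (.two (nat_lit 11479810052) (nat_lit 1376780383) (.two (nat_lit 34603009) (nat_lit 809500906) (.two (nat_lit 1048576) (nat_lit 13224640744) (.one (nat_lit 159216830097) .nil))))),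
   .two (nat_lit 203423759) (nat_lit 209715211) (.two (nat_lit 8388616) (nat_lit 35651606) (.two (nat_lit 47548727301) (nat_lit 2961178719) (.two (nat_lit 612368385) (nat_lit 2954887393) (.two (nat_lit 2097152) (nat_lit 880804072) (.one (nat_lit 176162468) .nil))))),
   .two (nat_lit 4599054347) (nat_lit 183848927247) (.two (nat_lit 3458203656) (nat_lit 4601151525) (.two (nat_lit 3458203656) (nat_lit 2923429909) (.two (nat_lit 46407876610) (nat_lit 158179786950) (.two (nat_lit 37748739) (nat_lit 28087156834) (.two (nat_lit 2097153) (nat_lit 11614028244) (.two (nat_lit 4194304) (nat_lit 47582282704) (.one (nat_lit 20640171682) .nil))))))),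
   .two (nat_lit 184993972239) (nat_lit 13191086091) (.two (nat_lit 184993972232) (nat_lit 11513364500) (.two (nat_lit 183853121540) (nat_lit 11513364575) (.two (nat_lit 156372041729) (nat_lit 1916797162) (.two (nat_lit 8388608) (nat_lit 1916797162) (.one (nat_lit 12054431419) .nil))))),
   .two (nat_lit 620757007) (nat_lit 21208498187) (.two (nat_lit 620757000) (nat_lit 158144135187) (.two (nat_lit 184549380) (nat_lit 1310720095) (.two (nat_lit 50331649) (nat_lit 2921333216) (.two (nat_lit 2097152) (nat_lit 16777452) (.one (nat_lit 2098884) .nil))))),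
   .two (nat_lit 158083317775) (nat_lit 50331659) (.two (nat_lit 158083317768) (nat_lit 754974738) (.two (nat_lit 16777218) (nat_lit 46514831556) (.two (nat_lit 612368385) (nat_lit 11492393182) (.two (nat_lit 8388608) (nat_lit 185035915498) (.one (nat_lit 8390341) .nil))))),
   .two (nat_lit 620757007) (nat_lit 706740246) (.two (nat_lit 620757000) (nat_lit 47548727317) (.two (nat_lit 20638072834) (nat_lit 28705816772) (.two (nat_lit 16777217) (nat_lit 159217877217) (.two (nat_lit 2097152) (nat_lit 184549608) (.one (nat_lit 184987682457) .nil))))),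
   .two (nat_lit 203423759) (nat_lit 47555018769) (.two (nat_lit 2961178632) (nat_lit 203423778) (.two (nat_lit 2961178632) (nat_lit 203423780) (.two (nat_lit 176160772) (nat_lit 304087078) (.two (nat_lit 176160772) (nat_lit 304087136) (.two (nat_lit 2097153) (nat_lit 12121538783) (.two (nat_lit 1048576) (nat_lit 35652568) (.one (nat_lit 1175455374) .nil))))))),
   .two (nat_lit 276824071) (nat_lit 2902458402) (.two (nat_lit 8388611) (nat_lit 251658278) (.two (nat_lit 4194304) (nat_lit 19026412554) (.one (nat_lit 19026412554) .nil))),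
   .two (nat_lit 47548727311) (nat_lit 158143086603) (.two (nat_lit 47548727304) (nat_lit 9899606036) (.two (nat_lit 169869316) (nat_lit 2416967778) (.two (nat_lit 605028353) (nat_lit 158177690062) (.two (nat_lit 1048576) (nat_lit 12148801771) (.one (nat_lit 9867101848) .nil))))),
   .two (nat_lit 75497487) (nat_lit 2097163) (.two (nat_lit 75497480) (nat_lit 337641490) (.two (nat_lit 47548727301) (nat_lit 9940500578) (.two (nat_lit 2097153) (nat_lit 612368609) (.two (nat_lit 8388608) (nat_lit 47582281960) (.one (nat_lit 8390297) .nil))))),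
   .two (nat_lit 9934209035) (nat_lit 184416206859) (.two (nat_lit 806354950) (nat_lit 20738736148) (.two (nat_lit 11476664322) (nat_lit 156533522530) (.two (nat_lit 34603009) (nat_lit 10538189025) (.two (nat_lit 1048576) (nat_lit 203423976) (.one (nat_lit 2098887) .nil))))),
   .two (nat_lit 2887778319) (nat_lit 2902458379) (.two (nat_lit 2887778312) (nat_lit 2902458386) (.two (nat_lit 16777221) (nat_lit 839909474) (.two (nat_lit 620756993) (nat_lit 183946445024) (.two (nat_lit 1048576) (nat_lit 156533522664) (.one (nat_lit 37313578691) .nil))))),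
   .two (nat_lit 12114198535) (nat_lit 1847590946) (.two (nat_lit 11476664323) (nat_lit 9799991334) (.two (nat_lit 1048576) (nat_lit 2097662) (.one (nat_lit 2098888) .nil))),
   .two (nat_lit 10336862215) (nat_lit 1761607719) (.two (nat_lit 156365750275) (nat_lit 1761607719) (.two (nat_lit 1048576) (nat_lit 1929380349) (.one (nat_lit 16778953) .nil))),
   .two (nat_lit 272629771) (nat_lit 21208498187) (.two (nat_lit 9768534024) (nat_lit 203423763) (.two (nat_lit 2887778308) (nat_lit 1916797023) (.two (nat_lit 2097153) (nat_lit 272629996) (.two (nat_lit 2097152) (nat_lit 272629996) (.one (nat_lit 2098890) .nil))))),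
   .two (nat_lit 10336862215) (nat_lit 2969567266) (.two (nat_lit 156365750275) (nat_lit 21793603622) (.two (nat_lit 2097152) (nat_lit 16777727) (.one (nat_lit 16778955) .nil))),
   .two (nat_lit 272629767) (nat_lit 166230753351) (.two (nat_lit 4194307) (nat_lit 2961178662) (.two (nat_lit 4194304) (nat_lit 12148802533) (.one (nat_lit 2098892) .nil))),
   .two (nat_lit 16777231) (nat_lit 34603019) (.two (nat_lit 16777224) (nat_lit 11610882068) (.two (nat_lit 16777220) (nat_lit 839909475) (.two (nat_lit 34603009) (nat_lit 156984410573) (.two (nat_lit 1048576) (nat_lit 37262196971) (.one (nat_lit 822085312) .nil))))),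
   .two (nat_lit 10385096719) (nat_lit 21777874955) (.two (nat_lit 10385096712) (nat_lit 9899606036) (.two (nat_lit 9881780229) (nat_lit 1343225955) (.two (nat_lit 50331649) (nat_lit 10939793633) (.two (nat_lit 1048576) (nat_lit 654311660) (.one (nat_lit 1050317) .nil))))),
   .two (nat_lit 184993972231) (nat_lit 12114198562) (.two (nat_lit 183845781507) (nat_lit 11551113254) (.two (nat_lit 4194304) (nat_lit 135267342) (.one (nat_lit 135267342) .nil))),
   .two (nat_lit 184989777927) (nat_lit 9899606084) (.two (nat_lit 20638072835) (nat_lit 156566028327) (.two (nat_lit 2097152) (nat_lit 156367848415) (.one (nat_lit 1050319) .nil))),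
   .two (nat_lit 285212679) (nat_lit 9798942795) (.two (nat_lit 176160771) (nat_lit 10335813670) (.two (nat_lit 16777216) (nat_lit 1049581) (.one (nat_lit 11006903984) .nil))),
   .two (nat_lit 12121538567) (nat_lit 19529728072) (.two (nat_lit 10370416643) (nat_lit 156364701735) (.two (nat_lit 2097152) (nat_lit 168821718) (.one (nat_lit 8390352) .nil))),
   .two (nat_lit 2097159) (nat_lit 12117344290) (.two (nat_lit 2097155) (nat_lit 37748774) (.two (nat_lit 1048576) (nat_lit 10003415552) (.one (nat_lit 10003415552) .nil))),
   .two (nat_lit 47550824455) (nat_lit 11559501858) (.two (nat_lit 171966467) (nat_lit 159232557094) (.two (nat_lit 1048576) (nat_lit 251658752) (.one (nat_lit 251658752) .nil))),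
   .two (nat_lit 2961178632) (nat_lit 9900654630) (.two (nat_lit 176160772) (nat_lit 9900654630) (.two (nat_lit 1048576) (nat_lit 9806283752) (.one (nat_lit 19100862137) .nil))),
   .two (nat_lit 21777874951) (nat_lit 4194384) (.two (nat_lit 620756995) (nat_lit 2990538790) (.two (nat_lit 16777216) (nat_lit 165528207872) (.one (nat_lit 165528207872) .nil))),
   .two (nat_lit 1191182344) (nat_lit 840957991) (.two (nat_lit 9934209029) (nat_lit 159232557095) (.two (nat_lit 8388608) (nat_lit 20719862742) (.one (nat_lit 166197200587) .nil))),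
   .two (nat_lit 75497487) (nat_lit 159217877003) (.two (nat_lit 75497480) (nat_lit 1310720020) (.two (nat_lit 612368389) (nat_lit 20738736226) (.two (nat_lit 41943041) (nat_lit 304087275) (.two (nat_lit 8388608) (nat_lit 166197199080) (.one (nat_lit 9974056602) .nil))))),
   .two (nat_lit 1178599439) (nat_lit 806354962) (.two (nat_lit 4194306) (nat_lit 1779433697) (.two (nat_lit 34603009) (nat_lit 46510637288) (.one (nat_lit 1779435218) .nil))),
   .two (nat_lit 813694983) (nat_lit 3472883750) (.two (nat_lit 1048576) (nat_lit 9799992329) .nil),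
   .two (nat_lit 4194312) (nat_lit 183920230438) (.two (nat_lit 1048576) (nat_lit 69207049) .nil),
   .two (nat_lit 68157448) (nat_lit 158150426663) (.two (nat_lit 4194304) (nat_lit 2098189) .nil),
   .two (nat_lit 4599054343) (nat_lit 10942939174) (.two (nat_lit 2097152) (nat_lit 3524264972) .nil),
   .two (nat_lit 46407876616) (nat_lit 1929379879) (.two (nat_lit 4194304) (nat_lit 28757197312) .nil),
   .two (nat_lit 47548727303) (nat_lit 209715238) (.two (nat_lit 1048576) (nat_lit 10343154702) .nil),
   .two (nat_lit 4601151495) (nat_lit 3531604006) (.two (nat_lit 4194304) (nat_lit 1175454733) .nil),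
   .two (nat_lit 822083592) (nat_lit 28758245414) (.two (nat_lit 8388608) (nat_lit 166229705740) .nil),
   .two (nat_lit 9866051592) (nat_lit 1417674790) (.two (nat_lit 16777216) (nat_lit 135266817) .nil),
   .two (nat_lit 50331653) (nat_lit 1410334744) (.one (nat_lit 839909896) .nil),
   .two (nat_lit 620756997) (nat_lit 705691652) (.two (nat_lit 50331649) (nat_lit 269484575) .nil),
   .two (nat_lit 203423749) (nat_lit 2316304408) (.one (nat_lit 639631908) .nil),
   .two (nat_lit 46407876612) (nat_lit 166132187141) (.two (nat_lit 4194305) (nat_lit 2988441735) .nil),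
   .two (nat_lit 8388613) (nat_lit 158646403096) (.one (nat_lit 1216348679) .nil),
   .two (nat_lit 2887778308) (nat_lit 46409973765) (.two (nat_lit 4194305) (nat_lit 3558866967) (.one (nat_lit 156468511239) .nil)),
   .two (nat_lit 705691652) (nat_lit 10343153777) .nil,
   .two (nat_lit 13187940357) (nat_lit 156971827205) (.two (nat_lit 37748737) (nat_lit 20704133402) .nil),
   .two (nat_lit 4194308) (nat_lit 4638900247) (.one (nat_lit 343933455) .nil),
   .two (nat_lit 2097157) (nat_lit 2902458373) (.two (nat_lit 2097153) (nat_lit 46523219981) (.two (nat_lit 2097152) (nat_lit 46507491430) (.one (nat_lit 2920284708) .nil))),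
   .two (nat_lit 2889875460) (nat_lit 183845781508) (.two (nat_lit 34603009) (nat_lit 843055229) .nil),
   .two (nat_lit 705691652) (nat_lit 12048138283) (.one (nat_lit 156365750395) .nil),
   .two (nat_lit 13187940357) (nat_lit 3527409669) (.two (nat_lit 2097153) (nat_lit 46473936998) (.one (nat_lit 185020187159) .nil)),
   .two (nat_lit 3527409669) (nat_lit 174753579013) (.two (nat_lit 9766436865) (nat_lit 10003415590) .nil),
   .two (nat_lit 705691652) (nat_lit 218103813) (.two (nat_lit 16777217) (nat_lit 705691671) (.one (nat_lit 183962173959) .nil)),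
   .two (nat_lit 705691652) (nat_lit 10343153780) .nil,
   .two (nat_lit 41943045) (nat_lit 1745879055) (.one (nat_lit 166129041965) .nil),
   .two (nat_lit 4194308) (nat_lit 13203669114) .nil,
   .two (nat_lit 4194308) (nat_lit 46414168068) (.two (nat_lit 8388609) (nat_lit 2990538884) .nil),
   .two (nat_lit 50331653) (nat_lit 1913651205) (.two (nat_lit 9765388289) (nat_lit 10385096728) (.one (nat_lit 9798942837) .nil)),
   .two (nat_lit 9768534021) (nat_lit 3525312517) (.two (nat_lit 2097153) (nat_lit 10506731532) (.two (nat_lit 8388608) (nat_lit 10506731657) .nil)),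
   .two (nat_lit 50331653) (nat_lit 46980399109) (.two (nat_lit 4194305) (nat_lit 46422556924) .nil),
   .two (nat_lit 4194308) (nat_lit 654311429) (.two (nat_lit 620756993) (nat_lit 37748760) (.one (nat_lit 37316723269) .nil)),
   .two (nat_lit 4194308) (nat_lit 159266111627) .nil,
   .two (nat_lit 11492392964) (nat_lit 1846542465) .nil,
   .two (nat_lit 50331653) (nat_lit 46980399109) (.two (nat_lit 4194305) (nat_lit 11525947691) .nil),
   .two (nat_lit 16777220) (nat_lit 11479810052) (.two (nat_lit 37748737) (nat_lit 28772925568) .nil),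
   .two (nat_lit 4194308) (nat_lit 165532401669) (.two (nat_lit 8388609) (nat_lit 10372513910) .nil),
   .two (nat_lit 809500677) (nat_lit 46422556677) (.two (nat_lit 16777217) (nat_lit 156569174131) .nil),
   .two (nat_lit 16777221) (nat_lit 46407876634) (.one (nat_lit 13188989186) .nil),
   .two (nat_lit 2887778308) (nat_lit 166132187141) (.two (nat_lit 4194305) (nat_lit 28691136536) (.one (nat_lit 2097737) .nil)),
   .two (nat_lit 156372041733) (nat_lit 9802088460) (.two (nat_lit 1048576) (nat_lit 1212153993) .nil),
   .two (nat_lit 176160772) (nat_lit 10940841989) (.two (nat_lit 606076929) (nat_lit 157035790472) .nil),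
   .two (nat_lit 4194308) (nat_lit 645922950) .nil,
   .two (nat_lit 605028357) (nat_lit 21785214981) (.two (nat_lit 34603009) (nat_lit 19100860518) (.one (nat_lit 46510637591) .nil)),
   .two (nat_lit 16777220) (nat_lit 847249530) .nil,
   .two (nat_lit 2889875461) (nat_lit 8388730) .nil,
   .two (nat_lit 203423749) (nat_lit 157038936072) (.two (nat_lit 4194304) (nat_lit 3558866984) (.one (nat_lit 10370417188) .nil)),
   .two (nat_lit 13195280389) (nat_lit 21777874949) (.two (nat_lit 605028353) (nat_lit 276824197) .nil),
   .two (nat_lit 156364701701) (nat_lit 1847590917) (.two (nat_lit 606076929) (nat_lit 37313576972) (.two (nat_lit 16777216) (nat_lit 37313577097) .nil)),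
   .two (nat_lit 2969567237) (nat_lit 21208498181) (.two (nat_lit 606076929) (nat_lit 28086108184) (.one (nat_lit 1962934851) .nil)),
   .two (nat_lit 8388612) (nat_lit 184549380) (.two (nat_lit 16777217) (nat_lit 11511267446) .nil),
   .two (nat_lit 2902458372) (nat_lit 4601151535) (.one (nat_lit 37749010) .nil),
   .two (nat_lit 1291845636) (nat_lit 47582281740) (.two (nat_lit 1048576) (nat_lit 47582281865) .nil),
   .two (nat_lit 171966469) (nat_lit 11559501829) (.two (nat_lit 50331649) (nat_lit 742392363) .nil),
   .two (nat_lit 4194308) (nat_lit 1426063482) .nil,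
   .two (nat_lit 4194308) (nat_lit 18933088261) (.two (nat_lit 8388609) (nat_lit 2990538884) .nil),
   .two (nat_lit 4605345797) (nat_lit 156971827205) (.two (nat_lit 37748737) (nat_lit 10913579144) .nil),
   .two (nat_lit 620756997) (nat_lit 739246085) (.two (nat_lit 34603009) (nat_lit 1191182360) (.one (nat_lit 18941477447) .nil)),
   .two (nat_lit 4194308) (nat_lit 2902458373) (.two (nat_lit 16777217) (nat_lit 1279263002) .nil),
   .two (nat_lit 158144135173) (nat_lit 19596836879) (.two (nat_lit 1048576) (nat_lit 166230753405) (.one (nat_lit 2921333425) .nil)),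
   .two (nat_lit 2097157) (nat_lit 10506731535) (.two (nat_lit 2097152) (nat_lit 21811429505) (.one (nat_lit 1050398) .nil)),
   .two (nat_lit 2889875461) (nat_lit 11559501938) (.one (nat_lit 16779039) .nil),
   .two (nat_lit 809500677) (nat_lit 1962934285) (.two (nat_lit 620756993) (nat_lit 18933088503) (.one (nat_lit 16778384) .nil)),
   .two (nat_lit 83886085) (nat_lit 184993972239) (.two (nat_lit 16777216) (nat_lit 183953785470) .nil),
   .two (nat_lit 50331653) (nat_lit 2353004592) (.two (nat_lit 2097152) (nat_lit 46980399169) (.one (nat_lit 16779040) .nil)),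
   .two (nat_lit 612368389) (nat_lit 174752530447) (.two (nat_lit 8388608) (nat_lit 158143086659) (.one (nat_lit 1050401) .nil)),
   .two (nat_lit 822083589) (nat_lit 19532873795) (.one (nat_lit 4196130) .nil),
   .two (nat_lit 739246085) (nat_lit 780140610) (.one (nat_lit 3565158759) .nil),
   .two (nat_lit 2889875460) (nat_lit 2416967704) (.two (nat_lit 8388608) (nat_lit 10942939261) (.one (nat_lit 4196131) .nil)),
   .two (nat_lit 3458203653) (nat_lit 1291845742) (.one (nat_lit 2969567959) .nil),
   .two (nat_lit 612368389) (nat_lit 11559501836) (.two (nat_lit 16777217) (nat_lit 156573369058) .nil),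
   .two (nat_lit 41943045) (nat_lit 9948889103) (.two (nat_lit 16777216) (nat_lit 1182793854) (.one (nat_lit 8390436) .nil)),
   .two (nat_lit 4194308) (nat_lit 352321559) (.two (nat_lit 1048576) (nat_lit 9967763592) (.one (nat_lit 1049750) .nil)),
   .two (nat_lit 9934209029) (nat_lit 12114198543) (.two (nat_lit 1048576) (nat_lit 236978289) (.one (nat_lit 2098981) .nil)),
   .two (nat_lit 4194308) (nat_lit 10504634383) (.two (nat_lit 4194304) (nat_lit 46474985583) (.one (nat_lit 272630409) .nil)),
   .two (nat_lit 809500677) (nat_lit 1779433485) (.two (nat_lit 8388609) (nat_lit 13224640627) (.one (nat_lit 4195479) .nil)),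
   .two (nat_lit 2894069765) (nat_lit 1916796943) (.two (nat_lit 1048576) (nat_lit 176161021) (.one (nat_lit 4196134) .nil)),
   .two (nat_lit 8388612) (nat_lit 11559501839) (.two (nat_lit 16777216) (nat_lit 176161458) .nil),
   .two (nat_lit 612368389) (nat_lit 46409973774) (.two (nat_lit 4194305) (nat_lit 9906946073) (.two (nat_lit 16777216) (nat_lit 9969860731) (.one (nat_lit 4195480) .nil))),
   .two (nat_lit 1178599429) (nat_lit 156969730063) (.two (nat_lit 4194304) (nat_lit 13222543478) (.one (nat_lit 2098329) .nil)),
   .two (nat_lit 3531603973) (nat_lit 174686470260) (.one (nat_lit 606077661) .nil),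
   .two (nat_lit 176160772) (nat_lit 673185804) (.two (nat_lit 9765388289) (nat_lit 183913939065) (.one (nat_lit 2098983) .nil)),
   .two (nat_lit 806354949) (nat_lit 12117344322) (.one (nat_lit 1178599788) .nil),
   .two (nat_lit 158075977733) (nat_lit 18933088369) (.one (nat_lit 159257723504) .nil),
   .two (nat_lit 708837381) (nat_lit 1745879064) (.two (nat_lit 4194304) (nat_lit 46407876848) (.one (nat_lit 2098984) .nil)),
   .two (nat_lit 1846542341) (nat_lit 12054429711) (.two (nat_lit 1048576) (nat_lit 1753219183) (.one (nat_lit 183920231485) .nil)),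
   .two (nat_lit 8388612) (nat_lit 1343225864) (.two (nat_lit 8388609) (nat_lit 10939793451) (.two (nat_lit 8388608) (nat_lit 11577328140) (.one (nat_lit 12147754073) .nil))),
   .two (nat_lit 176160773) (nat_lit 1795162127) (.two (nat_lit 16777216) (nat_lit 183853122136) .nil),
   .two (nat_lit 3464495109) (nat_lit 18925748248) (.two (nat_lit 8388608) (nat_lit 1049105) (.one (nat_lit 185020187743) .nil)),
   .two (nat_lit 3531603973) (nat_lit 18928893967) (.two (nat_lit 4194304) (nat_lit 12617515129) (.one (nat_lit 1050409) .nil)),
   .two (nat_lit 809500677) (nat_lit 1779433480) (.two (nat_lit 37748737) (nat_lit 1276117015) (.two (nat_lit 4194304) (nat_lit 202375683) (.one (nat_lit 1050410) .nil))),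
   .two (nat_lit 176160772) (nat_lit 28758245388) (.two (nat_lit 2097153) (nat_lit 184993972289) (.one (nat_lit 9873392685) .nil)),
   .two (nat_lit 9781116933) (nat_lit 158146232363) (.two (nat_lit 4194304) (nat_lit 10015998469) (.one (nat_lit 10015999037) .nil)),
   .two (nat_lit 2969567237) (nat_lit 9766436912) (.two (nat_lit 4194304) (nat_lit 218104531) .nil),
   .two (nat_lit 11479810053) (nat_lit 18925748232) (.two (nat_lit 16777217) (nat_lit 10335813733) (.two (nat_lit 16777216) (nat_lit 19529728274) (.one (nat_lit 1050411) .nil))),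
   .two (nat_lit 16777221) (nat_lit 11580473463) (.one (nat_lit 34604772) .nil),
   .two (nat_lit 2887778308) (nat_lit 159224168461) (.two (nat_lit 612368385) (nat_lit 156533522456) (.two (nat_lit 2097152) (nat_lit 1786774019) (.one (nat_lit 8390444) .nil))),
   .two (nat_lit 10385096709) (nat_lit 166197198861) (.two (nat_lit 16777217) (nat_lit 47555019002) (.one (nat_lit 310379553) .nil)),
   .two (nat_lit 4194308) (nat_lit 620757000) (.two (nat_lit 16777217) (nat_lit 13224641116) .nil),
   .two (nat_lit 2097157) (nat_lit 75497485) (.two (nat_lit 2097153) (nat_lit 1178599448) (.two (nat_lit 1048576) (nat_lit 1780482287) (.one (nat_lit 772802889) .nil))),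
   .two (nat_lit 16777220) (nat_lit 142606361) (.two (nat_lit 8388608) (nat_lit 184549981) .nil),
   .two (nat_lit 721420292) (nat_lit 10504634383) (.two (nat_lit 2097152) (nat_lit 156481093884) (.one (nat_lit 4613735530) .nil)),
   .two (nat_lit 10504634373) (nat_lit 28086108175) (.two (nat_lit 1048576) (nat_lit 157036838979) (.one (nat_lit 9799992400) .nil)),
   .two (nat_lit 176160772) (nat_lit 10504634376) (.two (nat_lit 2097153) (nat_lit 13195280508) (.one (nat_lit 184423547561) .nil)),
   .two (nat_lit 176160772) (nat_lit 3460300824) (.two (nat_lit 8388608) (nat_lit 12117345389) .nil),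
   .two (nat_lit 4194308) (nat_lit 20711473166) (.two (nat_lit 50331649) (nat_lit 12050235651) (.one (nat_lit 8390445) .nil)),
   .two (nat_lit 46414168069) (nat_lit 158077026312) (.two (nat_lit 8388609) (nat_lit 4599054866) (.one (nat_lit 2098990) .nil)),
   .two (nat_lit 1277165573) (nat_lit 10007609357) (.two (nat_lit 2097153) (nat_lit 1417674864) (.one (nat_lit 1350566587) .nil)),
   .two (nat_lit 16777220) (nat_lit 75497487) (.two (nat_lit 16777216) (nat_lit 8389140) (.one (nat_lit 158183982828) .nil)),
   .two (nat_lit 184416206853) (nat_lit 754974786) (.one (nat_lit 16778404) .nil),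
   .two (nat_lit 272629765) (nat_lit 156465365005) (.two (nat_lit 4194305) (nat_lit 1779433608) (.one (nat_lit 1779434163) .nil)),
   .two (nat_lit 209715205) (nat_lit 156533522444) (.two (nat_lit 606076929) (nat_lit 183920230532) (.one (nat_lit 21818770052) .nil)),
   .two (nat_lit 605028357) (nat_lit 1795162127) (.two (nat_lit 1048576) (nat_lit 157038936193) (.one (nat_lit 12117345437) .nil)),
   .two (nat_lit 2889875461) (nat_lit 46414168072) (.two (nat_lit 37748737) (nat_lit 166203490347) (.two (nat_lit 8388608) (nat_lit 19130220796) (.one (nat_lit 8390449) .nil))),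
   .two (nat_lit 8388613) (nat_lit 184419352584) (.two (nat_lit 8388609) (nat_lit 183949590552) (.two (nat_lit 8388608) (nat_lit 4194837) (.one (nat_lit 2990540558) .nil))),
   .two (nat_lit 184549380) (nat_lit 1384120334) (.two (nat_lit 612368385) (nat_lit 9781117052) (.one (nat_lit 16777971) .nil)),
   .two (nat_lit 806354949) (nat_lit 822083598) (.two (nat_lit 2097153) (nat_lit 243269655) (.two (nat_lit 1048576) (nat_lit 16777502) (.one (nat_lit 1050418) .nil))),
   .two (nat_lit 2969567237) (nat_lit 713031695) (.two (nat_lit 4194304) (nat_lit 50331774) (.one (nat_lit 8390451) .nil)),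
   .two (nat_lit 822083589) (nat_lit 158144135183) (.two (nat_lit 16777216) (nat_lit 46474985596) (.one (nat_lit 2098341) .nil)),
   .two (nat_lit 713031685) (nat_lit 46407876616) (.two (nat_lit 34603009) (nat_lit 19530776618) (.two (nat_lit 1048576) (nat_lit 8389142) (.one (nat_lit 1050420) .nil))),
   .two (nat_lit 171966469) (nat_lit 3525312527) (.two (nat_lit 1048576) (nat_lit 4194839) (.one (nat_lit 4196149) .nil)),
   .two (nat_lit 16777220) (nat_lit 12117344268) (.two (nat_lit 4194305) (nat_lit 10351542397) (.one (nat_lit 2098998) .nil)),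
   .two (nat_lit 1277165573) (nat_lit 3527409679) (.two (nat_lit 2097152) (nat_lit 10506731631) (.one (nat_lit 46510638196) .nil)),
   .two (nat_lit 34603013) (nat_lit 12117344271) (.two (nat_lit 1048576) (nat_lit 203423880) (.one (nat_lit 1050423) .nil)),
   .two (nat_lit 34603013) (nat_lit 12117344264) (.two (nat_lit 9765388289) (nat_lit 12115247152) (.two (nat_lit 2097152) (nat_lit 1846542855) (.one (nat_lit 2099000) .nil))),
   .two (nat_lit 8388612) (nat_lit 4030726157) (.two (nat_lit 4194305) (nat_lit 243269656) (.two (nat_lit 1048576) (nat_lit 1782579337) (.one (nat_lit 21781021730) .nil))),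
   .two (nat_lit 8388612) (nat_lit 9881780239) (.two (nat_lit 2097152) (nat_lit 16778360) .nil),
   .two (nat_lit 184549381) (nat_lit 12114198552) (.two (nat_lit 2097152) (nat_lit 889192982) (.one (nat_lit 16778411) .nil)),
   .two (nat_lit 50331653) (nat_lit 21777874952) (.two (nat_lit 50331649) (nat_lit 2349859068) (.one (nat_lit 654313258) .nil)),
   .two (nat_lit 4601151493) (nat_lit 243269656) (.two (nat_lit 4194304) (nat_lit 9933160584) (.one (nat_lit 1050425) .nil)),
   .two (nat_lit 9933160453) (nat_lit 20638072847) (.two (nat_lit 1048576) (nat_lit 174688567544) (.one (nat_lit 1050426) .nil)),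
   .two (nat_lit 713031685) (nat_lit 156367847439) (.two (nat_lit 8388608) (nat_lit 809501841) .nil),
   .two (nat_lit 809500677) (nat_lit 174752530440) (.two (nat_lit 605028353) (nat_lit 11479810063) (.two (nat_lit 1048576) (nat_lit 19532873852) (.one (nat_lit 1049775) .nil))),
   .two (nat_lit 16777220) (nat_lit 1178599450) (.two (nat_lit 1048576) (nat_lit 12150898813) (.one (nat_lit 4196155) .nil)),
   .two (nat_lit 16777220) (nat_lit 68157448) (.two (nat_lit 4194305) (nat_lit 47581233271) (.one (nat_lit 1050428) .nil)),
   .two (nat_lit 638582789) (nat_lit 158144135183) (.two (nat_lit 1048576) (nat_lit 645922941) (.one (nat_lit 8390461) .nil)),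
   .two (nat_lit 16777220) (nat_lit 166196150284) (.two (nat_lit 34603009) (nat_lit 184549489) (.one (nat_lit 1050430) .nil)),
   .two (nat_lit 171966469) (nat_lit 11559501938) (.one (nat_lit 16779071) .nil),
   .two (nat_lit 2956984325) (nat_lit 9781116943) (.two (nat_lit 4194304) (nat_lit 47581233277) (.one (nat_lit 1050432) .nil)),
   .two (nat_lit 169869316) (nat_lit 10369368090) (.two (nat_lit 2097152) (nat_lit 11577327894) (.one (nat_lit 2099009) .nil)),
   .two (nat_lit 8388612) (nat_lit 236978190) (.two (nat_lit 37748737) (nat_lit 9766436879) (.two (nat_lit 4194304) (nat_lit 2097439) (.one (nat_lit 8390466) .nil))),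
   .two (nat_lit 41943045) (nat_lit 158158815240) (.two (nat_lit 2097153) (nat_lit 166199296067) (.one (nat_lit 4196163) .nil)),
   .two (nat_lit 41943045) (nat_lit 19093520398) (.two (nat_lit 16777217) (nat_lit 10376708220) (.one (nat_lit 1050436) .nil)),
   .two (nat_lit 9934209029) (nat_lit 46414168079) (.two (nat_lit 1048576) (nat_lit 203423865) (.one (nat_lit 639633176) .nil)),
   .two (nat_lit 159224168453) (nat_lit 9798942852) (.one (nat_lit 156465365653) .nil),
   .two (nat_lit 9781116933) (nat_lit 12117344264) (.two (nat_lit 37748737) (nat_lit 11492393071) (.one (nat_lit 156481094298) .nil)),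
   .two (nat_lit 2097157) (nat_lit 75497480) (.two (nat_lit 2097153) (nat_lit 21818769432) (.two (nat_lit 1048576) (nat_lit 4034920575) (.one (nat_lit 8390469) .nil))),
   .two (nat_lit 8388612) (nat_lit 37316722700) (.two (nat_lit 37748737) (nat_lit 3003121789) (.one (nat_lit 16779078) .nil)),
   .two (nat_lit 612368389) (nat_lit 166196150286) (.two (nat_lit 16777217) (nat_lit 612368399) (.two (nat_lit 16777216) (nat_lit 772800638) (.one (nat_lit 1050439) .nil))),
   .two (nat_lit 1343225861) (nat_lit 13195280424) (.two (nat_lit 1048576) (nat_lit 28798091395) (.one (nat_lit 1050440) .nil)),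
   .two (nat_lit 83886085) (nat_lit 28758245389) (.two (nat_lit 9766436865) (nat_lit 1358954511) (.two (nat_lit 1048576) (nat_lit 37314625651) (.one (nat_lit 2099017) .nil))),
   .two (nat_lit 1343225861) (nat_lit 654311432) (.two (nat_lit 605028353) (nat_lit 157043130383) (.two (nat_lit 8388608) (nat_lit 185020186899) (.one (nat_lit 16779082) .nil))),
   .two (nat_lit 822083589) (nat_lit 135266429) (.one (nat_lit 202376298) .nil),
   .two (nat_lit 171966469) (nat_lit 11618222093) (.two (nat_lit 4194305) (nat_lit 1317011720) (.one (nat_lit 8390475) .nil)),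
   .two (nat_lit 822083589) (nat_lit 10506731535) (.two (nat_lit 4194304) (nat_lit 1795162179) (.one (nat_lit 11626613018) .nil)),
   .two (nat_lit 46980399109) (nat_lit 11007951043) .nil,
   .two (nat_lit 184549381) (nat_lit 158176641038) (.two (nat_lit 2097153) (nat_lit 21207449623) (.two (nat_lit 4194304) (nat_lit 21778923770) (.one (nat_lit 2099021) .nil))),
   .two (nat_lit 1358954501) (nat_lit 2416967693) (.two (nat_lit 9765388289) (nat_lit 10385097304) .nil),
   .two (nat_lit 16777221) (nat_lit 159224168463) (.two (nat_lit 16777216) (nat_lit 166229704841) (.one (nat_lit 16779087) .nil)),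
   .two (nat_lit 16777221) (nat_lit 606076936) (.two (nat_lit 16777217) (nat_lit 13188989051) (.one (nat_lit 4196176) .nil)),
   .two (nat_lit 13191086085) (nat_lit 10343153672) (.two (nat_lit 8388609) (nat_lit 11513364546) (.one (nat_lit 4196177) .nil)),
   .two (nat_lit 159224168453) (nat_lit 1376780423) (.one (nat_lit 1049779) .nil),
   .two (nat_lit 9948889093) (nat_lit 2416967692) (.two (nat_lit 605028353) (nat_lit 2902458433) (.one (nat_lit 183946445962) .nil)),
   .two (nat_lit 69206021) (nat_lit 21785214988) (.two (nat_lit 8388609) (nat_lit 1178599788) .nil),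
   .two (nat_lit 9881780229) (nat_lit 28693233689) (.two (nat_lit 8388608) (nat_lit 47550824971) (.one (nat_lit 12117345396) .nil)),
   .two (nat_lit 2097157) (nat_lit 1279262763) (.two (nat_lit 1048576) (nat_lit 4195457) .nil),
   .two (nat_lit 705691652) (nat_lit 19530776591) (.two (nat_lit 16777216) (nat_lit 1175454826) .nil),
   .two (nat_lit 159224168453) (nat_lit 19596836879) (.two (nat_lit 1048576) (nat_lit 12054429817) (.one (nat_lit 8390482) .nil)),
   .two (nat_lit 4194308) (nat_lit 679477261) (.two (nat_lit 612368385) (nat_lit 3460301088) (.one (nat_lit 16779091) .nil)),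
   .two (nat_lit 809500677) (nat_lit 28690087951) (.two (nat_lit 1048576) (nat_lit 4605346938) .nil),
   .two (nat_lit 169869316) (nat_lit 156372041743) (.two (nat_lit 8388608) (nat_lit 874513079) .nil),
   .two (nat_lit 8388613) (nat_lit 12050235400) (.two (nat_lit 8388609) (nat_lit 11479810072) (.two (nat_lit 1048576) (nat_lit 12150898976) (.one (nat_lit 8390485) .nil))),
   .two (nat_lit 270532613) (nat_lit 1216348173) (.two (nat_lit 34603009) (nat_lit 11517558807) (.two (nat_lit 16777216) (nat_lit 9798942970) (.one (nat_lit 1050454) .nil))),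
   .two (nat_lit 34603013) (nat_lit 9974055044) (.one (nat_lit 166203490965) .nil),
   .two (nat_lit 721420292) (nat_lit 1178599439) (.two (nat_lit 16777216) (nat_lit 4030726283) (.one (nat_lit 4195508) .nil)),
   .two (nat_lit 34603013) (nat_lit 9940500488) (.two (nat_lit 2097153) (nat_lit 1276117058) (.one (nat_lit 1050455) .nil)),
   .two (nat_lit 9873391621) (nat_lit 157036838927) (.two (nat_lit 4194304) (nat_lit 236978431) (.one (nat_lit 8390488) .nil)),
   .two (nat_lit 8388612) (nat_lit 10000269325) (.two (nat_lit 4194305) (nat_lit 806355011) (.one (nat_lit 4634706994) .nil)),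
   .two (nat_lit 2889875460) (nat_lit 1847590927) (.two (nat_lit 2097152) (nat_lit 9802088573) (.one (nat_lit 4196185) .nil)),
   .two (nat_lit 620756997) (nat_lit 28690087960) (.two (nat_lit 8388608) (nat_lit 20737687677) (.one (nat_lit 1050374) .nil)),
   .two (nat_lit 713031685) (nat_lit 2889875464) (.two (nat_lit 41943041) (nat_lit 205520919) (.two (nat_lit 2097152) (nat_lit 13191087150) .nil)),
   .two (nat_lit 50331653) (nat_lit 20644364296) (.two (nat_lit 50331649) (nat_lit 21214789655) (.two (nat_lit 8388608) (nat_lit 83886191) (.one (nat_lit 47555019391) .nil))),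
   .two (nat_lit 2097157) (nat_lit 822083596) (.two (nat_lit 620756993) (nat_lit 2418016388) (.one (nat_lit 13188989567) .nil)),
   .two (nat_lit 9934209029) (nat_lit 156372041743) (.two (nat_lit 2097152) (nat_lit 10376708346) (.one (nat_lit 1216348808) .nil)),
   .two (nat_lit 16777220) (nat_lit 12117344264) (.two (nat_lit 16777217) (nat_lit 2319450158) (.two (nat_lit 1048576) (nat_lit 11626610755) (.one (nat_lit 16779098) .nil))),
   .two (nat_lit 270532613) (nat_lit 285212686) (.two (nat_lit 2097153) (nat_lit 158150426872) (.one (nat_lit 2099035) .nil)),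
   .two (nat_lit 809500677) (nat_lit 1291845640) (.two (nat_lit 37748737) (nat_lit 158158815255) (.two (nat_lit 16777216) (nat_lit 10003415171) (.one (nat_lit 218104447) .nil))),
   .two (nat_lit 159216828421) (nat_lit 156372041740) (.two (nat_lit 605028353) (nat_lit 12054429817) (.one (nat_lit 1049781) .nil)),
   .two (nat_lit 13191086085) (nat_lit 10007609356) (.two (nat_lit 612368385) (nat_lit 184419352591) (.two (nat_lit 8388608) (nat_lit 183949591124) .nil)),
   .two (nat_lit 159224168453) (nat_lit 21777874957) (.two (nat_lit 156364701697) (nat_lit 775946368) (.one (nat_lit 4195510) .nil)),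
   .two (nat_lit 8388612) (nat_lit 10000269325) (.two (nat_lit 4194305) (nat_lit 183946444866) (.one (nat_lit 1050461) .nil)),
   .two (nat_lit 4194308) (nat_lit 218103916) (.one (nat_lit 16779102) .nil),
   .two (nat_lit 169869316) (nat_lit 4647288845) (.two (nat_lit 16777217) (nat_lit 11477712940) (.two (nat_lit 16777216) (nat_lit 20637024381) (.one (nat_lit 19127076587) .nil))),
   .two (nat_lit 1913651205) (nat_lit 28087156760) (.two (nat_lit 2097152) (nat_lit 19596836931) (.one (nat_lit 1050463) .nil)),
   .two (nat_lit 8388612) (nat_lit 285212684) (.two (nat_lit 16777217) (nat_lit 612368504) (.one (nat_lit 184993972891) .nil)),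
   .two (nat_lit 184549381) (nat_lit 28087156784) (.two (nat_lit 1048576) (nat_lit 1224736889) (.one (nat_lit 16779104) .nil)),
   .two (nat_lit 174752530437) (nat_lit 203423759) (.two (nat_lit 1048576) (nat_lit 203423810) (.one (nat_lit 2099041) .nil)),
   .two (nat_lit 272629765) (nat_lit 46414168079) (.two (nat_lit 4194304) (nat_lit 46414168129) (.one (nat_lit 13224641151) .nil)),
   .two (nat_lit 176160773) (nat_lit 183962173453) (.two (nat_lit 16777217) (nat_lit 9900654717) (.one (nat_lit 2099042) .nil)),
   .two (nat_lit 50331653) (nat_lit 12054429710) (.two (nat_lit 41943041) (nat_lit 46510637181) (.one (nat_lit 9936307381) .nil)),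
   .two (nat_lit 46978301957) (nat_lit 2902458391) (.two (nat_lit 2097152) (nat_lit 166144770732) .nil),
   .two (nat_lit 8388613) (nat_lit 135266318) (.two (nat_lit 4194305) (nat_lit 159250383366) (.one (nat_lit 20707280647) .nil)),
   .two (nat_lit 2097157) (nat_lit 19599982604) (.two (nat_lit 2097153) (nat_lit 19599982607) (.two (nat_lit 1048576) (nat_lit 11611930745) (.one (nat_lit 1050467) .nil))),
   .two (nat_lit 2097157) (nat_lit 156372041743) (.two (nat_lit 1048576) (nat_lit 8388897) (.one (nat_lit 8389816) .nil)),
   .two (nat_lit 184549380) (nat_lit 101711885) (.two (nat_lit 8388609) (nat_lit 20637024271) (.two (nat_lit 4194304) (nat_lit 156364701945) (.one (nat_lit 4196196) .nil))),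
   .two (nat_lit 13195280389) (nat_lit 18928893967) (.two (nat_lit 8388608) (nat_lit 185021235321) (.one (nat_lit 2099045) .nil)),
   .two (nat_lit 8388612) (nat_lit 184549399) (.two (nat_lit 8388608) (nat_lit 174768259197) (.one (nat_lit 16779110) .nil)),
   .two (nat_lit 13195280389) (nat_lit 13237223450) (.two (nat_lit 2097152) (nat_lit 8389146) (.one (nat_lit 8390503) .nil)),
   .two (nat_lit 2887778308) (nat_lit 1317011469) (.two (nat_lit 2097153) (nat_lit 13195280399) (.two (nat_lit 2097152) (nat_lit 1753219193) (.one (nat_lit 2099048) .nil))),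
   .two (nat_lit 16777220) (nat_lit 1276117000) (.two (nat_lit 4194305) (nat_lit 19093520520) (.one (nat_lit 37253809308) .nil)),
   .two (nat_lit 9948889093) (nat_lit 10369368072) (.two (nat_lit 620756993) (nat_lit 47588573321) (.one (nat_lit 8390505) .nil)),
   .two (nat_lit 4605345797) (nat_lit 1962934372) (.two (nat_lit 1048576) (nat_lit 8388899) (.one (nat_lit 2323646223) .nil)),
   .two (nat_lit 16777221) (nat_lit 1746927630) (.two (nat_lit 4194305) (nat_lit 18926796937) (.one (nat_lit 4196202) .nil)),
   .two (nat_lit 2956984325) (nat_lit 10385096817) (.one (nat_lit 855638640) .nil),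
   .two (nat_lit 4194308) (nat_lit 243269645) (.two (nat_lit 41943041) (nat_lit 303038512) (.two (nat_lit 1048576) (nat_lit 10538188936) (.one (nat_lit 1276118859) .nil))),
   .two (nat_lit 183861510149) (nat_lit 3464495119) (.two (nat_lit 2097152) (nat_lit 243269698) (.one (nat_lit 8390507) .nil)),
   .two (nat_lit 176160773) (nat_lit 156367847439) (.two (nat_lit 8388608) (nat_lit 46473937021) (.one (nat_lit 1050476) .nil)),
   .two (nat_lit 8388613) (nat_lit 158075977743) (.two (nat_lit 8388608) (nat_lit 21811429491) (.one (nat_lit 806355601) .nil)),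
   .two (nat_lit 184549380) (nat_lit 19597885465) (.two (nat_lit 2097152) (nat_lit 654312022) .nil),
   .two (nat_lit 809500677) (nat_lit 165526110221) (.two (nat_lit 2097153) (nat_lit 13224640579) (.one (nat_lit 12115248241) .nil)),
   .two (nat_lit 8388613) (nat_lit 136315012) (.one (nat_lit 1847591573) .nil),
   .two (nat_lit 21207449605) (nat_lit 11559501870) (.two (nat_lit 2097152) (nat_lit 1410335010) (.one (nat_lit 16779117) .nil)),
   .two (nat_lit 2097157) (nat_lit 2969567247) (.two (nat_lit 1048576) (nat_lit 1413480573) (.one (nat_lit 16779118) .nil)),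
   .two (nat_lit 13195280389) (nat_lit 673185859) (.one (nat_lit 236978774) .nil),
   .two (nat_lit 4599054341) (nat_lit 4634705932) (.two (nat_lit 156365750273) (nat_lit 303038598) (.one (nat_lit 336593986) .nil)),
   .two (nat_lit 4194308) (nat_lit 1175453704) (.two (nat_lit 8388609) (nat_lit 68157455) (.two (nat_lit 4194304) (nat_lit 847249529) (.one (nat_lit 8390511) .nil))),
   .two (nat_lit 16777220) (nat_lit 21785214991) (.two (nat_lit 8388608) (nat_lit 46978302073) (.one (nat_lit 16779120) .nil)),
   .two (nat_lit 8388613) (nat_lit 11492392975) (.two (nat_lit 1048576) (nat_lit 1216348275) (.one (nat_lit 16779121) .nil)),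
   .two (nat_lit 272629765) (nat_lit 37253808141) (.two (nat_lit 50331649) (nat_lit 19033751677) (.one (nat_lit 4196210) .nil)),
   .two (nat_lit 11543773189) (nat_lit 606076976) (.two (nat_lit 1048576) (nat_lit 236978241) (.one (nat_lit 1050483) .nil)),
   .two (nat_lit 41943045) (nat_lit 10939793432) (.two (nat_lit 16777216) (nat_lit 1049115) (.one (nat_lit 1050484) .nil)),
   .two (nat_lit 50331653) (nat_lit 1846542351) (.two (nat_lit 1048576) (nat_lit 19545456922) (.one (nat_lit 68158598) .nil)),
   .two (nat_lit 8388612) (nat_lit 9768534024) (.two (nat_lit 41943041) (nat_lit 641728536) (.two (nat_lit 4194304) (nat_lit 679477386) (.one (nat_lit 8389822) .nil))),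
   .two (nat_lit 1178599429) (nat_lit 2927624259) (.one (nat_lit 8389368) .nil),
   .two (nat_lit 41943045) (nat_lit 20753416205) (.two (nat_lit 16777217) (nat_lit 9902751869) (.one (nat_lit 4196213) .nil)),
   .two (nat_lit 11546918917) (nat_lit 18933088269) (.two (nat_lit 37748737) (nat_lit 183920230500) (.two (nat_lit 2097152) (nat_lit 158649549072) (.one (nat_lit 4196214) .nil))),
   .two (nat_lit 3531603973) (nat_lit 37748858) (.one (nat_lit 876610292) .nil),
   .two (nat_lit 2902458372) (nat_lit 10506731532) (.two (nat_lit 37748737) (nat_lit 183962174102) .nil),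
   .two (nat_lit 176160773) (nat_lit 46407876616) (.two (nat_lit 34603009) (nat_lit 1216348204) (.two (nat_lit 1048576) (nat_lit 1411383560) (.one (nat_lit 1050488) .nil))),
   .two (nat_lit 184549380) (nat_lit 11543773197) (.two (nat_lit 2097153) (nat_lit 3557818493) (.one (nat_lit 1049791) .nil)),
   .two (nat_lit 34603013) (nat_lit 166132187144) (.two (nat_lit 2097153) (nat_lit 159250382985) (.one (nat_lit 4196217) .nil)),
   .two (nat_lit 639631365) (nat_lit 13224640613) (.two (nat_lit 2097152) (nat_lit 9936306458) (.one (nat_lit 47548727960) .nil)),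
   .two (nat_lit 612368389) (nat_lit 185035915277) (.two (nat_lit 50331649) (nat_lit 75497487) (.two (nat_lit 16777216) (nat_lit 1847591041) (.one (nat_lit 2099066) .nil))),
   .two (nat_lit 285212677) (nat_lit 203423767) (.two (nat_lit 1048576) (nat_lit 3464495390) (.one (nat_lit 2099067) .nil)),
   .two (nat_lit 270532613) (nat_lit 159224168463) (.two (nat_lit 4194304) (nat_lit 1209008254) (.one (nat_lit 8389824) .nil)),
   .two (nat_lit 8388612) (nat_lit 16777256) (.two (nat_lit 4194304) (nat_lit 28101836926) (.one (nat_lit 16779132) .nil)),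
   .two (nat_lit 41943045) (nat_lit 10336862232) (.two (nat_lit 8388608) (nat_lit 13188989066) (.one (nat_lit 2099069) .nil)),
   .two (nat_lit 47555018757) (nat_lit 135266371) (.one (nat_lit 28086108892) .nil),
   .two (nat_lit 13195280389) (nat_lit 83886095) (.two (nat_lit 8388608) (nat_lit 12618563705) (.one (nat_lit 2099070) .nil)),
   .two (nat_lit 639631365) (nat_lit 157043130376) (.two (nat_lit 8388609) (nat_lit 158144135183) (.two (nat_lit 16777216) (nat_lit 156365751430) .nil)),
   .two (nat_lit 9934209029) (nat_lit 2349858829) (.two (nat_lit 605028353) (nat_lit 1277165583) (.two (nat_lit 2097152) (nat_lit 4027580542) (.one (nat_lit 1050495) .nil))),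
   .two (nat_lit 1343225861) (nat_lit 165526110330) (.one (nat_lit 10907288308) .nil),
   .two (nat_lit 9948889093) (nat_lit 11577327640) (.two (nat_lit 2097152) (nat_lit 11577327727) (.one (nat_lit 1049794) .nil)),
   .two (nat_lit 69206021) (nat_lit 11484004479) (.one (nat_lit 4196226) .nil),
   .two (nat_lit 4194308) (nat_lit 13187940366) (.two (nat_lit 2097153) (nat_lit 135266440) (.one (nat_lit 50332705) .nil)),
   .two (nat_lit 41943045) (nat_lit 46407876616) (.two (nat_lit 41943041) (nat_lit 46978301967) (.two (nat_lit 1048576) (nat_lit 8388729) (.one (nat_lit 8390531) .nil))),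
   .two (nat_lit 1913651205) (nat_lit 18928893967) (.two (nat_lit 4194304) (nat_lit 12147753085) (.one (nat_lit 1050500) .nil)),
   .two (nat_lit 8388613) (nat_lit 1749024780) (.two (nat_lit 8388609) (nat_lit 2365587502) (.two (nat_lit 1048576) (nat_lit 1782579449) (.one (nat_lit 1050501) .nil))),
   .two (nat_lit 272629765) (nat_lit 174753579016) (.two (nat_lit 606076929) (nat_lit 47550824474) (.two (nat_lit 2097152) (nat_lit 2994733177) (.one (nat_lit 2099078) .nil))),
   .two (nat_lit 13187940357) (nat_lit 156569174129) (.one (nat_lit 138412656) .nil),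
   .two (nat_lit 9768534021) (nat_lit 28086108175) (.two (nat_lit 1048576) (nat_lit 166199296274) (.one (nat_lit 1050503) .nil)),
   .two (nat_lit 10503585797) (nat_lit 18928893967) (.two (nat_lit 4194304) (nat_lit 1049116) (.one (nat_lit 1050504) .nil)),
   .two (nat_lit 9948889093) (nat_lit 1175453720) (.two (nat_lit 16777216) (nat_lit 1849688189) (.one (nat_lit 4196233) .nil)),
   .two (nat_lit 713031684) (nat_lit 166196150284) (.two (nat_lit 34603009) (nat_lit 3028287598) (.one (nat_lit 11618222755) .nil)),
   .two (nat_lit 2097157) (nat_lit 156971827215) (.two (nat_lit 1048576) (nat_lit 11611930745) (.one (nat_lit 2099082) .nil)),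
   .two (nat_lit 169869316) (nat_lit 13195280397) (.two (nat_lit 50331649) (nat_lit 13222543498) (.one (nat_lit 156472706848) .nil)),
   .two (nat_lit 806354949) (nat_lit 166132187151) (.two (nat_lit 2097152) (nat_lit 1048869) (.one (nat_lit 638584697) .nil)),
   .two (nat_lit 11543773189) (nat_lit 4601151513) (.two (nat_lit 4194304) (nat_lit 183912890962) .nil),
   .two (nat_lit 184549381) (nat_lit 46978301966) (.two (nat_lit 34603009) (nat_lit 156969730063) (.two (nat_lit 1048576) (nat_lit 20652753179) (.one (nat_lit 1049800) .nil))),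
   .two (nat_lit 47548727301) (nat_lit 3527409679) (.two (nat_lit 2097152) (nat_lit 11580474085) .nil),
   .two (nat_lit 2097157) (nat_lit 11618222093) (.two (nat_lit 2097153) (nat_lit 19134414892) (.two (nat_lit 8388608) (nat_lit 1049117) (.one (nat_lit 9772729445) .nil))),
   .two (nat_lit 28690087941) (nat_lit 721420311) (.two (nat_lit 1048576) (nat_lit 1191182444) (.one (nat_lit 16778441) .nil)),
   .two (nat_lit 4194308) (nat_lit 754974735) (.two (nat_lit 4194304) (nat_lit 889192577) (.one (nat_lit 4196235) .nil)),
   .two (nat_lit 34603013) (nat_lit 713031688) (.two (nat_lit 605028353) (nat_lit 10504634392) (.two (nat_lit 1048576) (nat_lit 9799991576) (.one (nat_lit 46474987277) .nil))),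
   .two (nat_lit 184419352581) (nat_lit 1358954620) (.one (nat_lit 1392509609) .nil),
   .two (nat_lit 4194308) (nat_lit 4613734423) (.two (nat_lit 16777216) (nat_lit 19532873980) (.one (nat_lit 3539994953) .nil)),
   .two (nat_lit 12114198533) (nat_lit 157038936079) (.two (nat_lit 4194304) (nat_lit 1947205757) (.one (nat_lit 1049802) .nil)),
   .two (nat_lit 41943045) (nat_lit 68157448) (.two (nat_lit 41943041) (nat_lit 269484157) (.one (nat_lit 4196236) .nil)),
   .two (nat_lit 4194308) (nat_lit 3464495119) (.two (nat_lit 4194304) (nat_lit 1745879288) (.one (nat_lit 8390541) .nil)),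
   .two (nat_lit 721420293) (nat_lit 46980399234) (.one (nat_lit 4030726821) .nil),
   .two (nat_lit 12117344261) (nat_lit 183853121602) (.one (nat_lit 21818770102) .nil),
   .two (nat_lit 272629765) (nat_lit 19026411544) (.two (nat_lit 4194304) (nat_lit 10939794548) .nil),
   .two (nat_lit 2956984325) (nat_lit 12624855064) (.two (nat_lit 1048576) (nat_lit 37748861) (.one (nat_lit 4196239) .nil)),
   .two (nat_lit 1343225861) (nat_lit 20644364296) (.two (nat_lit 156364701697) (nat_lit 75497497) (.two (nat_lit 2097152) (nat_lit 21214790760) .nil)),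
   .two (nat_lit 169869316) (nat_lit 83886088) (.two (nat_lit 2097153) (nat_lit 21793603608) (.two (nat_lit 16777216) (nat_lit 165526111348) .nil)),
   .two (nat_lit 218103813) (nat_lit 19532873849) (.one (nat_lit 12163483519) .nil),
   .two (nat_lit 183848927236) (nat_lit 157036838927) (.two (nat_lit 4194304) (nat_lit 9766436986) (.one (nat_lit 2098380) .nil)),
   .two (nat_lit 654311429) (nat_lit 612368399) (.two (nat_lit 16777216) (nat_lit 1786773627) (.one (nat_lit 8389837) .nil)),
   .two (nat_lit 184549381) (nat_lit 1916797039) (.one (nat_lit 183949591721) .nil),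
   .two (nat_lit 605028357) (nat_lit 11626610701) (.two (nat_lit 4194305) (nat_lit 304087080) (.two (nat_lit 16777216) (nat_lit 3021996272) (.one (nat_lit 2099088) .nil))),
   .two (nat_lit 21777874949) (nat_lit 28693233679) (.two (nat_lit 1048576) (nat_lit 809500811) (.one (nat_lit 4195534) .nil)),
   .two (nat_lit 270532613) (nat_lit 9768534024) (.two (nat_lit 2097153) (nat_lit 156566028336) (.two (nat_lit 2097152) (nat_lit 10906239249) (.one (nat_lit 2099089) .nil))),
   .two (nat_lit 605028357) (nat_lit 75497487) (.two (nat_lit 8388608) (nat_lit 19599983736) .nil),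
   .two (nat_lit 8388612) (nat_lit 13224640524) (.two (nat_lit 8388609) (nat_lit 12620660865) (.one (nat_lit 10510926519) .nil)),
   .two (nat_lit 612368389) (nat_lit 184416206856) (.two (nat_lit 34603009) (nat_lit 713031695) (.two (nat_lit 1048576) (nat_lit 41943107) (.one (nat_lit 8390546) .nil))),
   .two (nat_lit 9933160453) (nat_lit 20738736152) (.two (nat_lit 1048576) (nat_lit 3024093320) (.one (nat_lit 1312818922) .nil)),
   .two (nat_lit 2889875460) (nat_lit 2416967704) (.two (nat_lit 8388608) (nat_lit 10942939261) (.one (nat_lit 4196243) .nil)),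
   .two (nat_lit 171966469) (nat_lit 174759870476) (.two (nat_lit 8388609) (nat_lit 46992982059) (.two (nat_lit 16777216) (nat_lit 1048828) (.one (nat_lit 16779156) .nil))),
   .two (nat_lit 4601151493) (nat_lit 10504634383) (.two (nat_lit 4194304) (nat_lit 2097446) (.one (nat_lit 2098383) .nil)),
   .two (nat_lit 41943045) (nat_lit 158176641037) (.two (nat_lit 41943041) (nat_lit 3020947500) (.two (nat_lit 8388608) (nat_lit 1276118067) .nil)),
   .two (nat_lit 8388612) (nat_lit 775946263) (.two (nat_lit 8388608) (nat_lit 46980399229) (.one (nat_lit 4196246) .nil)),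
   .two (nat_lit 713031684) (nat_lit 183949590658) (.one (nat_lit 174688567973) .nil),
   .two (nat_lit 184549380) (nat_lit 21818769432) (.two (nat_lit 1048576) (nat_lit 16777758) (.one (nat_lit 16779159) .nil)),
   .two (nat_lit 16777220) (nat_lit 9933160462) (.two (nat_lit 8388609) (nat_lit 1745879080) (.two (nat_lit 1048576) (nat_lit 3558867230) (.one (nat_lit 16779160) .nil))),
   .two (nat_lit 12047089669) (nat_lit 754974786) (.one (nat_lit 16778404) .nil),
   .two (nat_lit 11479810053) (nat_lit 183853121544) (.two (nat_lit 4194305) (nat_lit 19604176938) (.two (nat_lit 8388608) (nat_lit 11010048274) (.one (nat_lit 8390553) .nil))),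
   .two (nat_lit 50331653) (nat_lit 183912890391) (.two (nat_lit 16777216) (nat_lit 3524264690) .nil),
   .two (nat_lit 16777221) (nat_lit 41943055) (.two (nat_lit 2097152) (nat_lit 1309671550) (.one (nat_lit 20704135000) .nil)),
   .two (nat_lit 2887778308) (nat_lit 28086108168) (.two (nat_lit 605028353) (nat_lit 3558866968) (.two (nat_lit 8388608) (nat_lit 156969730173) (.one (nat_lit 2099099) .nil))),
   .two (nat_lit 16777220) (nat_lit 28693233678) (.two (nat_lit 16777217) (nat_lit 12117344385) (.one (nat_lit 2099100) .nil)),
   .two (nat_lit 9934209029) (nat_lit 10369368072) (.two (nat_lit 605028353) (nat_lit 2350907513) (.one (nat_lit 1050525) .nil)),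
   .two (nat_lit 2889875460) (nat_lit 156372041743) (.two (nat_lit 4194304) (nat_lit 11014243456) .nil),
   .two (nat_lit 50331653) (nat_lit 705691656) (.two (nat_lit 605028353) (nat_lit 10385096830) (.one (nat_lit 1050526) .nil)),
   .two (nat_lit 41943045) (nat_lit 47596961805) (.two (nat_lit 16777217) (nat_lit 713031695) (.two (nat_lit 1048576) (nat_lit 50331774) (.one (nat_lit 16779167) .nil))),
   .two (nat_lit 1914699781) (nat_lit 2416967692) (.two (nat_lit 605028353) (nat_lit 158144135838) .nil),
   .two (nat_lit 1913651205) (nat_lit 18928893960) (.two (nat_lit 37748737) (nat_lit 10939793423) (.two (nat_lit 4194304) (nat_lit 1048871) (.one (nat_lit 1050528) .nil))),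
   .two (nat_lit 2956984325) (nat_lit 10538188812) (.two (nat_lit 9766436865) (nat_lit 4027580541) (.one (nat_lit 9869197973) .nil)),
   .two (nat_lit 4194308) (nat_lit 19604176911) (.two (nat_lit 16777216) (nat_lit 2994733177) (.one (nat_lit 272631664) .nil)),
   .two (nat_lit 1913651205) (nat_lit 165532401679) (.two (nat_lit 1048576) (nat_lit 3464495214) (.one (nat_lit 20644364963) .nil)),
   .two (nat_lit 184549381) (nat_lit 9802088573) (.one (nat_lit 4196257) .nil),
   .two (nat_lit 16777220) (nat_lit 780140557) (.two (nat_lit 8388609) (nat_lit 2350907416) (.two (nat_lit 16777216) (nat_lit 21818769681) (.one (nat_lit 16779170) .nil))),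
   .two (nat_lit 13195280389) (nat_lit 21777874959) (.two (nat_lit 8388608) (nat_lit 183845782190) .nil),
   .two (nat_lit 4194308) (nat_lit 174753579020) (.two (nat_lit 2097153) (nat_lit 184419352854) (.one (nat_lit 2353005703) .nil)),
   .two (nat_lit 16777220) (nat_lit 11543773199) (.two (nat_lit 16777216) (nat_lit 10436477053) (.one (nat_lit 47547679339) .nil)),
   .two (nat_lit 2902458372) (nat_lit 9802088461) (.two (nat_lit 16777217) (nat_lit 9768534280) (.one (nat_lit 2969568345) .nil)),
   .two (nat_lit 1277165573) (nat_lit 1916796942) (.two (nat_lit 2097153) (nat_lit 1178599439) (.two (nat_lit 16777216) (nat_lit 1279262843) (.one (nat_lit 809501901) .nil))),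
   .two (nat_lit 11492392965) (nat_lit 10370416655) (.two (nat_lit 16777216) (nat_lit 3021996154) (.one (nat_lit 3525313194) .nil)),
   .two (nat_lit 83886085) (nat_lit 20738736194) (.one (nat_lit 20738736485) .nil),
   .two (nat_lit 713031684) (nat_lit 28757196808) (.two (nat_lit 41943041) (nat_lit 166229704728) (.two (nat_lit 1048576) (nat_lit 41943178) (.one (nat_lit 8390563) .nil))),
   .two (nat_lit 612368389) (nat_lit 11593056298) (.two (nat_lit 8388608) (nat_lit 3573548207) .nil),
   .two (nat_lit 9934209029) (nat_lit 3472883757) (.two (nat_lit 2097152) (nat_lit 174701150334) (.one (nat_lit 16779172) .nil)),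
   .two (nat_lit 4194308) (nat_lit 9766436890) (.two (nat_lit 1048576) (nat_lit 641728637) (.one (nat_lit 4196261) .nil)),
   .two (nat_lit 2887778308) (nat_lit 165532401679) (.two (nat_lit 2097152) (nat_lit 10510925955) (.one (nat_lit 28697428586) .nil)),
   .two (nat_lit 4605345797) (nat_lit 3458203714) (.one (nat_lit 1948254567) .nil),
   .two (nat_lit 166129041412) (nat_lit 183928619031) (.two (nat_lit 1048576) (nat_lit 4647288970) (.one (nat_lit 16779175) .nil)),
   .two (nat_lit 184549381) (nat_lit 28087156784) (.two (nat_lit 1048576) (nat_lit 1224736889) (.one (nat_lit 16779176) .nil)),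
   .two (nat_lit 10385096709) (nat_lit 8388623) (.two (nat_lit 16777216) (nat_lit 9772728443) (.one (nat_lit 8389844) .nil)),
   .two (nat_lit 9948889093) (nat_lit 21811429492) (.one (nat_lit 37246468842) .nil),
   .two (nat_lit 203423749) (nat_lit 37313576974) (.two (nat_lit 606076929) (nat_lit 11577327903) (.one (nat_lit 1050537) .nil)),
   .two (nat_lit 176160772) (nat_lit 46978301960) (.two (nat_lit 2097153) (nat_lit 176160783) (.two (nat_lit 2097152) (nat_lit 8388904) (.one (nat_lit 8390570) .nil))),
   .two (nat_lit 12047089669) (nat_lit 11492392983) (.two (nat_lit 1048576) (nat_lit 10385097382) .nil),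
   .two (nat_lit 159224168453) (nat_lit 12114198543) (.two (nat_lit 8388608) (nat_lit 672137344) (.one (nat_lit 185020187683) .nil)),
   .two (nat_lit 2097157) (nat_lit 46409973768) (.two (nat_lit 2097153) (nat_lit 3527409765) (.two (nat_lit 2097152) (nat_lit 157035790598) (.one (nat_lit 1050539) .nil))),
   .two (nat_lit 158143086597) (nat_lit 158083317826) (.one (nat_lit 158083318117) .nil),
   .two (nat_lit 3525312517) (nat_lit 2969567247) (.two (nat_lit 2097152) (nat_lit 11626610824) (.one (nat_lit 889193560) .nil)),
   .two (nat_lit 8388613) (nat_lit 183845781512) (.two (nat_lit 2097153) (nat_lit 20737687818) (.one (nat_lit 8389845) .nil)),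
   .two (nat_lit 4194308) (nat_lit 156481093673) (.two (nat_lit 8388608) (nat_lit 2902458494) (.one (nat_lit 50332845) .nil)),
   .two (nat_lit 75497477) (nat_lit 46409973775) (.two (nat_lit 8388608) (nat_lit 4634706035) (.one (nat_lit 876610600) .nil)),
   .two (nat_lit 10370416645) (nat_lit 28757196815) (.two (nat_lit 2097152) (nat_lit 11543773320) (.one (nat_lit 2099116) .nil)),
   .two (nat_lit 2097157) (nat_lit 11559501832) (.two (nat_lit 2097153) (nat_lit 889192473) (.two (nat_lit 16777216) (nat_lit 1780482734) .nil)),
   .two (nat_lit 2902458373) (nat_lit 8388674) (.one (nat_lit 13228835180) .nil),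
   .two (nat_lit 176160773) (nat_lit 306184204) (.two (nat_lit 8388609) (nat_lit 1279262980) (.one (nat_lit 37749914) .nil)),
   .two (nat_lit 8388612) (nat_lit 68157448) (.two (nat_lit 4194305) (nat_lit 1384120454) (.one (nat_lit 1049815) .nil)),
   .two (nat_lit 705691652) (nat_lit 158177689623) (.two (nat_lit 1048576) (nat_lit 158144135456) (.one (nat_lit 874514227) .nil)),
   .two (nat_lit 705691652) (nat_lit 12150898712) (.two (nat_lit 1048576) (nat_lit 19532873853) (.one (nat_lit 4195544) .nil)),
   .two (nat_lit 11492392965) (nat_lit 639631375) (.two (nat_lit 16777216) (nat_lit 10001318010) (.one (nat_lit 9934210223) .nil)),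
   .two (nat_lit 4194308) (nat_lit 166129041423) (.two (nat_lit 4194304) (nat_lit 847249529) (.one (nat_lit 8390573) .nil)),
   .two (nat_lit 117440517) (nat_lit 166230753415) (.one (nat_lit 185021236403) .nil),
   .two (nat_lit 1178599429) (nat_lit 1745879055) (.two (nat_lit 8388608) (nat_lit 159253528697) (.one (nat_lit 4196271) .nil)),
   .two (nat_lit 4605345797) (nat_lit 11559501839) (.two (nat_lit 8388608) (nat_lit 20753416481) (.one (nat_lit 3539993327) .nil)),
   .two (nat_lit 50331653) (nat_lit 1846542351) (.two (nat_lit 1048576) (nat_lit 19545456922) (.one (nat_lit 1376782181) .nil)),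
   .two (nat_lit 612368389) (nat_lit 10939793416) (.two (nat_lit 37748737) (nat_lit 1309671549) (.one (nat_lit 1050544) .nil)),
   .two (nat_lit 117440517) (nat_lit 2954887183) (.two (nat_lit 16777216) (nat_lit 19027460838) .nil),
   .two (nat_lit 184549380) (nat_lit 156372041743) (.two (nat_lit 8388608) (nat_lit 2902458479) (.one (nat_lit 10385097793) .nil)),
   .two (nat_lit 176160773) (nat_lit 1795162127) (.two (nat_lit 16777216) (nat_lit 47555019494) .nil),
   .two (nat_lit 41943045) (nat_lit 9866051597) (.two (nat_lit 4194305) (nat_lit 158143086635) (.two (nat_lit 1048576) (nat_lit 12155093128) (.one (nat_lit 1050545) .nil))),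
   .two (nat_lit 16777221) (nat_lit 1847590927) (.two (nat_lit 2097152) (nat_lit 4043309330) (.one (nat_lit 47582282872) .nil)),
   .two (nat_lit 8388612) (nat_lit 184986632206) (.two (nat_lit 37748737) (nat_lit 183920230689) (.one (nat_lit 183920231608) .nil)),
   .two (nat_lit 11476664324) (nat_lit 47550824473) (.two (nat_lit 4194304) (nat_lit 11510219399) .nil),
   .two (nat_lit 10506731525) (nat_lit 2416967789) (.one (nat_lit 11476665059) .nil),
   .two (nat_lit 41943045) (nat_lit 158176641037) (.two (nat_lit 41943041) (nat_lit 12147753075) (.one (nat_lit 28790752426) .nil)),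
   .two (nat_lit 713031685) (nat_lit 4030726168) (.two (nat_lit 8388608) (nat_lit 638582920) (.one (nat_lit 3557819493) .nil)),
   .two (nat_lit 8388613) (nat_lit 2988441666) (.one (nat_lit 2099124) .nil),
   .two (nat_lit 218103813) (nat_lit 1779433487) (.two (nat_lit 16777216) (nat_lit 11610882170) (.one (nat_lit 1209008801) .nil)),
   .two (nat_lit 9933160453) (nat_lit 28806480001) (.one (nat_lit 16779189) .nil),
   .two (nat_lit 9934209029) (nat_lit 166203490347) (.two (nat_lit 2097152) (nat_lit 166237045018) (.one (nat_lit 8390582) .nil)),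
   .two (nat_lit 4194308) (nat_lit 166129041416) (.two (nat_lit 8388609) (nat_lit 1410334857) (.one (nat_lit 28693234808) .nil)),
   .two (nat_lit 822083589) (nat_lit 185020186691) (.one (nat_lit 46406828392) .nil),
   .two (nat_lit 713031685) (nat_lit 306184258) (.one (nat_lit 37249615041) .nil),
   .two (nat_lit 176160772) (nat_lit 21777874959) (.two (nat_lit 8388608) (nat_lit 269484303) (.one (nat_lit 9765388924) .nil)),
   .two (nat_lit 285212677) (nat_lit 101711887) (.two (nat_lit 16777216) (nat_lit 12147753071) (.one (nat_lit 9765389373) .nil)),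
   .two (nat_lit 41943045) (nat_lit 10338959368) (.two (nat_lit 4194305) (nat_lit 713031695) (.two (nat_lit 16777216) (nat_lit 20707278969) (.one (nat_lit 8390583) .nil))),
   .two (nat_lit 41943045) (nat_lit 10336862216) (.two (nat_lit 41943041) (nat_lit 169869338) (.two (nat_lit 4194304) (nat_lit 2961178749) (.one (nat_lit 780142297) .nil))),
   .two (nat_lit 2097157) (nat_lit 285212684) (.two (nat_lit 620756993) (nat_lit 21777875065) (.one (nat_lit 1050552) .nil)),
   .two (nat_lit 270532613) (nat_lit 1417674793) (.two (nat_lit 1048576) (nat_lit 10370416755) (.one (nat_lit 2921334512) .nil)),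
   .two (nat_lit 101711877) (nat_lit 19532873736) (.two (nat_lit 4194305) (nat_lit 28690087951) (.two (nat_lit 4194304) (nat_lit 269484163) (.one (nat_lit 156532474522) .nil))),
   .two (nat_lit 16777220) (nat_lit 158083317783) (.two (nat_lit 1048576) (nat_lit 47588573309) (.one (nat_lit 8390586) .nil)),
   .two (nat_lit 809500677) (nat_lit 28690087960) (.two (nat_lit 4194304) (nat_lit 2097696) (.one (nat_lit 2099131) .nil)),
   .two (nat_lit 16777220) (nat_lit 4028629038) (.two (nat_lit 1048576) (nat_lit 28705816858) (.one (nat_lit 12062820072) .nil)),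
   .two (nat_lit 176160773) (nat_lit 218103816) (.two (nat_lit 16777217) (nat_lit 1417675004) (.one (nat_lit 855638770) .nil)),
   .two (nat_lit 8388612) (nat_lit 11479810056) (.two (nat_lit 8388609) (nat_lit 742391832) (.two (nat_lit 4194304) (nat_lit 4605345857) (.one (nat_lit 11479810697) .nil))),
   .two (nat_lit 176160772) (nat_lit 183845781512) (.two (nat_lit 2097153) (nat_lit 166229704841) (.one (nat_lit 8390588) .nil)),
   .two (nat_lit 8388612) (nat_lit 174755676173) (.two (nat_lit 620756993) (nat_lit 75497582) (.one (nat_lit 4196285) .nil)),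
   .two (nat_lit 822083589) (nat_lit 1913651208) (.two (nat_lit 50331649) (nat_lit 12147752983) (.two (nat_lit 16777216) (nat_lit 2316304636) (.one (nat_lit 2332034964) .nil))),
   .two (nat_lit 83886085) (nat_lit 1411383342) (.two (nat_lit 16777216) (nat_lit 2097451) (.one (nat_lit 46474987452) .nil)),
   .two (nat_lit 8388612) (nat_lit 19599982607) (.two (nat_lit 4194304) (nat_lit 19033751673) (.one (nat_lit 16779198) .nil)),
   .two (nat_lit 2954887173) (nat_lit 28693233672) (.two (nat_lit 2097153) (nat_lit 809500717) (.two (nat_lit 4194304) (nat_lit 1310720286) (.one (nat_lit 4196287) .nil))),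
   .two (nat_lit 83886085) (nat_lit 159217877018) (.two (nat_lit 1048576) (nat_lit 2317353201) (.one (nat_lit 2099136) .nil)),
   .two (nat_lit 75497477) (nat_lit 157036838927) (.two (nat_lit 8388608) (nat_lit 205521021) (.one (nat_lit 4196289) .nil)),
   .two (nat_lit 16777220) (nat_lit 9934209032) (.two (nat_lit 16777217) (nat_lit 156567077397) (.one (nat_lit 2099138) .nil)),
   .two (nat_lit 10504634373) (nat_lit 135266371) (.one (nat_lit 13187941457) .nil),
   .two (nat_lit 4194308) (nat_lit 46992982056) (.two (nat_lit 4194304) (nat_lit 13237223545) (.one (nat_lit 2432698194) .nil)),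
   .two (nat_lit 2097157) (nat_lit 10338959368) (.two (nat_lit 2097153) (nat_lit 28790751274) (.two (nat_lit 1048576) (nat_lit 156380430634) (.one (nat_lit 840959788) .nil))),
   .two (nat_lit 4194308) (nat_lit 156567076972) (.one (nat_lit 2099139) .nil),
   .two (nat_lit 1913651205) (nat_lit 21208498184) (.two (nat_lit 9765388289) (nat_lit 304087085) (.two (nat_lit 1048576) (nat_lit 2097452) (.one (nat_lit 13222545343) .nil))),
   .two (nat_lit 270532613) (nat_lit 12117344264) (.two (nat_lit 2097153) (nat_lit 12150898711) (.two (nat_lit 1048576) (nat_lit 1176502559) (.one (nat_lit 239077280) .nil))),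
   .two (nat_lit 12062818309) (nat_lit 10343153780) (.one (nat_lit 10443817622) .nil),
   .two (nat_lit 169869316) (nat_lit 10338959368) (.two (nat_lit 2097153) (nat_lit 171966489) (.two (nat_lit 16777216) (nat_lit 158177689732) (.one (nat_lit 4196293) .nil))),
   .two (nat_lit 16777220) (nat_lit 639631375) (.two (nat_lit 16777216) (nat_lit 3558867055) (.one (nat_lit 13188989658) .nil)),
   .two (nat_lit 8388612) (nat_lit 19142803470) (.two (nat_lit 2097153) (nat_lit 1862271017) (.two (nat_lit 16777216) (nat_lit 8388909) (.one (nat_lit 16779206) .nil))),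
   .two (nat_lit 708837381) (nat_lit 2902458435) (.one (nat_lit 184431936156) .nil),
   .two (nat_lit 46409973765) (nat_lit 11007950888) (.two (nat_lit 4194304) (nat_lit 13222543643) (.one (nat_lit 2099143) .nil)),
   .two (nat_lit 218103813) (nat_lit 20638072847) (.two (nat_lit 1048576) (nat_lit 12148801654) (.one (nat_lit 2099144) .nil)),
   .two (nat_lit 41943045) (nat_lit 158077026312) (.two (nat_lit 4194305) (nat_lit 2894069861) (.two (nat_lit 8388608) (nat_lit 2097698) (.one (nat_lit 46508541119) .nil))),
   .two (nat_lit 612368389) (nat_lit 806354970) (.two (nat_lit 8388608) (nat_lit 742391933) (.one (nat_lit 4196297) .nil)),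
   .two (nat_lit 156971827205) (nat_lit 166136381564) (.one (nat_lit 20644365022) .nil),
   .two (nat_lit 4601151493) (nat_lit 10504634383) (.two (nat_lit 4194304) (nat_lit 2953838717) (.one (nat_lit 1050571) .nil)),
   .two (nat_lit 117440517) (nat_lit 47582281838) (.one (nat_lit 10538189527) .nil),
   .two (nat_lit 4194308) (nat_lit 166130090096) (.one (nat_lit 243271505) .nil),
   .two (nat_lit 3458203653) (nat_lit 2969567244) (.two (nat_lit 2097153) (nat_lit 184431935782) (.one (nat_lit 352322738) .nil)),
   .two (nat_lit 184549381) (nat_lit 806354956) (.two (nat_lit 16777217) (nat_lit 10537140489) (.one (nat_lit 12633244828) .nil)),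
   .two (nat_lit 165526110213) (nat_lit 10552868974) (.one (nat_lit 16777978) .nil),
   .two (nat_lit 4194308) (nat_lit 1048624) (.two (nat_lit 4194304) (nat_lit 1846542605) (.one (nat_lit 3560965937) .nil)),
   .two (nat_lit 50331653) (nat_lit 1276117007) (.two (nat_lit 1048576) (nat_lit 20640170105) (.one (nat_lit 3539994504) .nil)),
   .two (nat_lit 2954887173) (nat_lit 10343153677) (.two (nat_lit 612368385) (nat_lit 203423759) (.two (nat_lit 2097152) (nat_lit 109052196) (.one (nat_lit 2099149) .nil))),
   .two (nat_lit 34603013) (nat_lit 9906946115) (.one (nat_lit 2994733801) .nil),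
   .two (nat_lit 176160772) (nat_lit 1358954511) (.two (nat_lit 1048576) (nat_lit 13195280509) (.one (nat_lit 21818771311) .nil)),
   .two (nat_lit 69206021) (nat_lit 156472705068) (.two (nat_lit 4194304) (nat_lit 109053012) .nil),
   .two (nat_lit 4601151493) (nat_lit 166130090100) (.one (nat_lit 12115247765) .nil),
   .two (nat_lit 159217876997) (nat_lit 4598005887) (.one (nat_lit 4196302) .nil),
   .two (nat_lit 8388612) (nat_lit 13224640524) (.two (nat_lit 37748737) (nat_lit 880803948) (.one (nat_lit 13228835542) .nil)),
   .two (nat_lit 50331653) (nat_lit 21785214988) (.two (nat_lit 8388609) (nat_lit 1358955248) .nil),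
   .two (nat_lit 20644364293) (nat_lit 11525947438) (.two (nat_lit 8388608) (nat_lit 16777494) (.one (nat_lit 19545458615) .nil)),
   .two (nat_lit 158075977733) (nat_lit 1358954563) (.one (nat_lit 11559502182) .nil),
   .two (nat_lit 28758245381) (nat_lit 679477315) (.one (nat_lit 19604177606) .nil),
   .two (nat_lit 708837381) (nat_lit 50331759) (.one (nat_lit 1224737986) .nil),
   .two (nat_lit 11492392964) (nat_lit 813695000) (.two (nat_lit 4194304) (nat_lit 47555018870) (.one (nat_lit 8389856) .nil)),
   .two (nat_lit 9765388293) (nat_lit 12117344271) (.two (nat_lit 1048576) (nat_lit 9772728445) (.one (nat_lit 8390607) .nil)),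
   .two (nat_lit 9934209029) (nat_lit 9866051610) (.two (nat_lit 1048576) (nat_lit 20738736257) (.one (nat_lit 1050577) .nil)),
   .two (nat_lit 183861510149) (nat_lit 3028287555) (.one (nat_lit 183953785195) .nil),
   .two (nat_lit 184549380) (nat_lit 3464495112) (.two (nat_lit 8388609) (nat_lit 150995075) (.one (nat_lit 243270281) .nil)),
   .two (nat_lit 117440517) (nat_lit 28690087981) (.two (nat_lit 4194304) (nat_lit 2953838717) (.one (nat_lit 20704135073) .nil)),
   .two (nat_lit 270532613) (nat_lit 10506731535) (.two (nat_lit 2097152) (nat_lit 21811429505) (.one (nat_lit 4196307) .nil)),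
   .two (nat_lit 612368389) (nat_lit 46407876616) (.two (nat_lit 2097153) (nat_lit 75497487) (.two (nat_lit 1048576) (nat_lit 183913939065) (.one (nat_lit 20711475053) .nil))),
   .two (nat_lit 218103813) (nat_lit 11476664343) (.two (nat_lit 4194304) (nat_lit 1048879) (.one (nat_lit 1049825) .nil)),
   .two (nat_lit 4601151493) (nat_lit 10504634383) (.two (nat_lit 2097152) (nat_lit 21207449874) (.one (nat_lit 28086109914) .nil)),
   .two (nat_lit 166132187141) (nat_lit 822083651) (.one (nat_lit 251658602) .nil),
   .two (nat_lit 2969567237) (nat_lit 1377828877) (.two (nat_lit 37748737) (nat_lit 2969567247) (.two (nat_lit 2097152) (nat_lit 46409973881) (.one (nat_lit 156535621387) .nil))),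
   .two (nat_lit 8388613) (nat_lit 156968681485) (.two (nat_lit 16777217) (nat_lit 1913651215) (.two (nat_lit 8388608) (nat_lit 156968681582) (.one (nat_lit 1049826) .nil))),
   .two (nat_lit 746586117) (nat_lit 68157562) (.one (nat_lit 1410335476) .nil),
   .two (nat_lit 2889875460) (nat_lit 158144135181) (.two (nat_lit 606076929) (nat_lit 20640170027) (.two (nat_lit 2097152) (nat_lit 1916797036) (.one (nat_lit 4195555) .nil))),
   .two (nat_lit 176160773) (nat_lit 183845781512) (.two (nat_lit 8388609) (nat_lit 156532473899) (.two (nat_lit 2097152) (nat_lit 8389155) (.one (nat_lit 8389860) .nil))),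
   .two (nat_lit 13195280389) (nat_lit 46407876632) (.two (nat_lit 8388608) (nat_lit 3558867009) (.one (nat_lit 2098405) .nil)),
   .two (nat_lit 2889875461) (nat_lit 19596836879) (.two (nat_lit 8388608) (nat_lit 28757196921) (.one (nat_lit 4196308) .nil)),
   .two (nat_lit 809500677) (nat_lit 28086108168) (.two (nat_lit 612368385) (nat_lit 1312817195) (.two (nat_lit 8388608) (nat_lit 336593168) (.one (nat_lit 1050581) .nil))),
   .two (nat_lit 1176502277) (nat_lit 28086108168) (.two (nat_lit 41943041) (nat_lit 18925748335) (.one (nat_lit 2099158) .nil)),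
   .two (nat_lit 270532613) (nat_lit 205520922) (.two (nat_lit 2097152) (nat_lit 2319450401) (.one (nat_lit 205522829) .nil)),
   .two (nat_lit 1178599429) (nat_lit 19530776591) (.two (nat_lit 4194304) (nat_lit 158077026996) .nil),
   .two (nat_lit 285212677) (nat_lit 156968681515) (.two (nat_lit 16777216) (nat_lit 13221495058) (.one (nat_lit 772802320) .nil)),
   .two (nat_lit 2097157) (nat_lit 2969567240) (.two (nat_lit 34603009) (nat_lit 1948254310) (.two (nat_lit 1048576) (nat_lit 46978302486) (.one (nat_lit 20704134969) .nil))),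
   .two (nat_lit 8388612) (nat_lit 165526110216) (.two (nat_lit 8388609) (nat_lit 28691136535) (.two (nat_lit 8388608) (nat_lit 174686470432) (.one (nat_lit 10336863346) .nil))),
   .two (nat_lit 1916796933) (nat_lit 4605345807) (.two (nat_lit 4194304) (nat_lit 13195280495) (.one (nat_lit 8389862) .nil)),
   .two (nat_lit 8388612) (nat_lit 46980399119) (.two (nat_lit 2097152) (nat_lit 1753219197) (.one (nat_lit 4034922413) .nil)),
   .two (nat_lit 708837381) (nat_lit 28086108173) (.two (nat_lit 2097153) (nat_lit 12150898979) (.one (nat_lit 2099161) .nil)),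
   .two (nat_lit 1753219077) (nat_lit 16777231) (.two (nat_lit 8388608) (nat_lit 10351542395) (.one (nat_lit 11626611917) .nil)),
   .two (nat_lit 16777220) (nat_lit 28693233672) (.two (nat_lit 34603009) (nat_lit 12150898813) (.one (nat_lit 4196314) .nil)),
   .two (nat_lit 721420292) (nat_lit 158143086606) (.two (nat_lit 605028353) (nat_lit 754975324) .nil),
   .two (nat_lit 9881780229) (nat_lit 4034920576) (.one (nat_lit 4196315) .nil),
   .two (nat_lit 705691652) (nat_lit 19029557271) (.two (nat_lit 8388608) (nat_lit 19127076051) .nil),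
   .two (nat_lit 654311429) (nat_lit 1343225923) (.one (nat_lit 156465365660) .nil),
   .two (nat_lit 8388612) (nat_lit 159217877017) (.two (nat_lit 1048576) (nat_lit 9940500605) (.one (nat_lit 8390620) .nil)),
   .two (nat_lit 272629765) (nat_lit 11484004378) (.two (nat_lit 16777216) (nat_lit 37748861) (.one (nat_lit 2319452123) .nil)),
   .two (nat_lit 4194308) (nat_lit 10343153677) (.two (nat_lit 2097153) (nat_lit 2994733177) (.one (nat_lit 9974056828) .nil)),
   .two (nat_lit 272629765) (nat_lit 165526110216) (.two (nat_lit 4194305) (nat_lit 158077026327) (.two (nat_lit 8388608) (nat_lit 184987681011) (.one (nat_lit 2098407) .nil))),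
   .two (nat_lit 8388613) (nat_lit 1847590920) (.two (nat_lit 50331649) (nat_lit 47555018775) (.two (nat_lit 16777216) (nat_lit 2921332861) (.one (nat_lit 2099166) .nil))),
   .two (nat_lit 41943045) (nat_lit 28690087983) (.two (nat_lit 1048576) (nat_lit 18933088385) (.one (nat_lit 1050591) .nil)),
   .two (nat_lit 176160773) (nat_lit 306184204) (.two (nat_lit 8388609) (nat_lit 843055345) (.one (nat_lit 11010049211) .nil)),
   .two (nat_lit 721420293) (nat_lit 4634705986) (.one (nat_lit 10439623017) .nil),
   .two (nat_lit 11559501829) (nat_lit 2889875523) (.one (nat_lit 183848927595) .nil),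
   .two (nat_lit 41943045) (nat_lit 158077026312) (.two (nat_lit 4194305) (nat_lit 2894069861) (.two (nat_lit 4194304) (nat_lit 8389156) (.one (nat_lit 2921333971) .nil))),
   .two (nat_lit 822083589) (nat_lit 12047089796) (.one (nat_lit 12147753712) .nil),
   .two (nat_lit 176160772) (nat_lit 46978301967) (.two (nat_lit 2097152) (nat_lit 10544480788) (.one (nat_lit 8390624) .nil)),
   .two (nat_lit 16777221) (nat_lit 21777874952) (.two (nat_lit 41943041) (nat_lit 165525061740) (.one (nat_lit 18925750110) .nil)),
   .two (nat_lit 28760342533) (nat_lit 28086108168) (.two (nat_lit 612368385) (nat_lit 20637024271) (.two (nat_lit 8388608) (nat_lit 68157572) (.one (nat_lit 4196321) .nil))),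
   .two (nat_lit 46409973765) (nat_lit 166130089998) (.two (nat_lit 2097153) (nat_lit 19532873980) (.one (nat_lit 641729266) .nil)),
   .two (nat_lit 41943045) (nat_lit 46980399119) (.two (nat_lit 2097152) (nat_lit 18933088382) (.one (nat_lit 8390627) .nil)),
   .two (nat_lit 12114198533) (nat_lit 10940841999) (.two (nat_lit 1048576) (nat_lit 773849211) (.one (nat_lit 2099172) .nil)),
   .two (nat_lit 69206021) (nat_lit 184549492) (.one (nat_lit 21827158708) .nil),
   .two (nat_lit 8388613) (nat_lit 13187940364) (.two (nat_lit 2097153) (nat_lit 10369368079) (.two (nat_lit 2097152) (nat_lit 158183981345) (.one (nat_lit 2099173) .nil))),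
   .two (nat_lit 270532613) (nat_lit 156367847439) (.two (nat_lit 2097152) (nat_lit 158075977843) (.one (nat_lit 4598007510) .nil)),
   .two (nat_lit 9934209029) (nat_lit 135266328) (.two (nat_lit 2097152) (nat_lit 159250382976) (.one (nat_lit 1049832) .nil)),
   .two (nat_lit 101711877) (nat_lit 20638072840) (.two (nat_lit 606076929) (nat_lit 9866051599) (.two (nat_lit 2097152) (nat_lit 1343225923) (.one (nat_lit 772802437) .nil))),
   .two (nat_lit 8388612) (nat_lit 183949590541) (.two (nat_lit 4194305) (nat_lit 880803948) (.one (nat_lit 8390630) .nil)),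
   .two (nat_lit 20638072837) (nat_lit 9982443544) (.two (nat_lit 8388608) (nat_lit 19109249147) (.one (nat_lit 16778473) .nil)),
   .two (nat_lit 1745879045) (nat_lit 166130090027) (.two (nat_lit 1048576) (nat_lit 1746927868) (.one (nat_lit 1176504254) .nil)),
   .two (nat_lit 158075977733) (nat_lit 754974787) (.one (nat_lit 1795162470) .nil),
   .two (nat_lit 806354949) (nat_lit 10506731561) (.two (nat_lit 4194304) (nat_lit 2887778441) (.one (nat_lit 11580475334) .nil)),
   .two (nat_lit 8388613) (nat_lit 156969730056) (.two (nat_lit 2097153) (nat_lit 11484004377) (.two (nat_lit 16777216) (nat_lit 1948255339) .nil)),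
   .two (nat_lit 620756997) (nat_lit 21811429388) (.two (nat_lit 50331649) (nat_lit 19596837153) (.one (nat_lit 19596838072) .nil)),
   .two (nat_lit 159217876997) (nat_lit 19029557315) (.one (nat_lit 1950352070) .nil),
   .two (nat_lit 8388612) (nat_lit 46409973775) (.two (nat_lit 4194304) (nat_lit 136315420) (.one (nat_lit 2099175) .nil)),
   .two (nat_lit 8388612) (nat_lit 28086108168) (.two (nat_lit 605028353) (nat_lit 41943055) (.two (nat_lit 2097152) (nat_lit 3524264057) (.one (nat_lit 1050600) .nil))),
   .two (nat_lit 46978301957) (nat_lit 158143086600) (.two (nat_lit 2097153) (nat_lit 672137262) (.two (nat_lit 2097152) (nat_lit 3020947748) (.one (nat_lit 303039679) .nil))),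
   .two (nat_lit 10385096709) (nat_lit 809500739) (.one (nat_lit 21210595688) .nil),
   .two (nat_lit 169869316) (nat_lit 1849688079) (.two (nat_lit 2097152) (nat_lit 183953785094) (.one (nat_lit 8390633) .nil)),
   .two (nat_lit 209715205) (nat_lit 21793603608) (.two (nat_lit 1048576) (nat_lit 9881781468) .nil),
   .two (nat_lit 9934209029) (nat_lit 9866051610) (.two (nat_lit 1048576) (nat_lit 11544821881) (.one (nat_lit 1050604) .nil)),
   .two (nat_lit 638582789) (nat_lit 158144135183) (.two (nat_lit 1048576) (nat_lit 645922941) (.one (nat_lit 2099181) .nil)),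
   .two (nat_lit 3527409669) (nat_lit 12114198543) (.two (nat_lit 4194304) (nat_lit 303038587) (.one (nat_lit 184416208084) .nil)),
   .two (nat_lit 11476664324) (nat_lit 165526110223) (.two (nat_lit 1048576) (nat_lit 166230753404) (.one (nat_lit 2099182) .nil)),
   .two (nat_lit 620756997) (nat_lit 9934209134) (.one (nat_lit 4196335) .nil),
   .two (nat_lit 166144770053) (nat_lit 809500739) (.one (nat_lit 239075690) .nil),
   .two (nat_lit 270532613) (nat_lit 3464495170) (.one (nat_lit 1050609) .nil),
   .two (nat_lit 11559501829) (nat_lit 1178599439) (.two (nat_lit 16777216) (nat_lit 104858783) .nil),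
   .two (nat_lit 10385096709) (nat_lit 41943055) (.two (nat_lit 16777216) (nat_lit 184993972339) (.one (nat_lit 4034921508) .nil)),
   .two (nat_lit 34603013) (nat_lit 83886095) (.two (nat_lit 1048576) (nat_lit 183846830201) (.one (nat_lit 2418018176) .nil)),
   .two (nat_lit 2889875460) (nat_lit 156968681487) (.two (nat_lit 4194304) (nat_lit 156465365103) (.one (nat_lit 157035791421) .nil)),
   .two (nat_lit 41943045) (nat_lit 3458203663) (.two (nat_lit 8388608) (nat_lit 158144135293) (.one (nat_lit 9934209706) .nil)),
   .two (nat_lit 2097157) (nat_lit 2902458383) (.two (nat_lit 1048576) (nat_lit 184987681061) (.one (nat_lit 46978303973) .nil)),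
   .two (nat_lit 12114198533) (nat_lit 28693233679) (.two (nat_lit 1048576) (nat_lit 184989778168) (.one (nat_lit 4195563) .nil)),
   .two (nat_lit 2889875460) (nat_lit 12047089679) (.two (nat_lit 1048576) (nat_lit 3024093483) (.one (nat_lit 37316723909) .nil)),
   .two (nat_lit 639631365) (nat_lit 1745879048) (.two (nat_lit 41943041) (nat_lit 9967763709) (.one (nat_lit 1049836) .nil)),
   .two (nat_lit 2954887173) (nat_lit 1749024776) (.two (nat_lit 620756993) (nat_lit 169869578) (.one (nat_lit 157038937315) .nil)),
   .two (nat_lit 721420292) (nat_lit 4631560235) (.two (nat_lit 1048576) (nat_lit 46474985590) (.one (nat_lit 2099187) .nil)),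
   .two (nat_lit 16777220) (nat_lit 205520904) (.two (nat_lit 4194305) (nat_lit 19545456764) (.one (nat_lit 1050367) .nil)),
   .two (nat_lit 12114198533) (nat_lit 9948889102) (.two (nat_lit 34603009) (nat_lit 20652753413) (.one (nat_lit 16779253) .nil)),
   .two (nat_lit 285212677) (nat_lit 639631375) (.two (nat_lit 1048576) (nat_lit 156969730305) (.one (nat_lit 1050614) .nil)),
   .two (nat_lit 9933160453) (nat_lit 11511267372) (.two (nat_lit 2097152) (nat_lit 10909384840) (.one (nat_lit 2098414) .nil)),
   .two (nat_lit 705691652) (nat_lit 2902458376) (.two (nat_lit 16777217) (nat_lit 184986632207) (.two (nat_lit 1048576) (nat_lit 721420540) (.one (nat_lit 9982444650) .nil))),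
   .two (nat_lit 270532613) (nat_lit 10343153679) (.two (nat_lit 1048576) (nat_lit 46414168185) (.one (nat_lit 156566030204) .nil)),
   .two (nat_lit 2969567237) (nat_lit 183916036109) (.two (nat_lit 37748737) (nat_lit 2969567247) (.two (nat_lit 2097152) (nat_lit 46409973881) (.one (nat_lit 158649550597) .nil))),
   .two (nat_lit 169869316) (nat_lit 37253808141) (.two (nat_lit 41943041) (nat_lit 4647288953) (.one (nat_lit 8390647) .nil)),
   .two (nat_lit 713031685) (nat_lit 1745879055) (.two (nat_lit 8388608) (nat_lit 638583079) (.one (nat_lit 2099192) .nil)),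
   .two (nat_lit 2894069765) (nat_lit 159217877007) (.two (nat_lit 8388608) (nat_lit 269484153) (.one (nat_lit 47581234945) .nil)),
   .two (nat_lit 158091706373) (nat_lit 183853121602) (.one (nat_lit 8390650) .nil),
   .two (nat_lit 183848927236) (nat_lit 3525312525) (.two (nat_lit 34603009) (nat_lit 19597885572) (.one (nat_lit 2099195) .nil)),
   .two (nat_lit 2097157) (nat_lit 721420296) (.two (nat_lit 50331649) (nat_lit 2887778441) (.one (nat_lit 1050621) .nil)),
   .two (nat_lit 13191086085) (nat_lit 2921332760) (.two (nat_lit 4194304) (nat_lit 19530777125) (.one (nat_lit 337642541) .nil)),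
   .two (nat_lit 713031684) (nat_lit 16777228) (.two (nat_lit 16777217) (nat_lit 21785214991) (.two (nat_lit 4194304) (nat_lit 20753416313) (.one (nat_lit 16779262) .nil))),
   .two (nat_lit 4194308) (nat_lit 20711473166) (.two (nat_lit 50331649) (nat_lit 1178599534) (.one (nat_lit 8390655) .nil)),
   .two (nat_lit 8388613) (nat_lit 19530776584) (.two (nat_lit 8388609) (nat_lit 28691136535) (.two (nat_lit 4194304) (nat_lit 20638073971) .nil)),
   .two (nat_lit 16777220) (nat_lit 11543773199) (.two (nat_lit 16777216) (nat_lit 1309671726) (.one (nat_lit 1376780979) .nil)),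
   .two (nat_lit 1913651205) (nat_lit 159224168460) (.two (nat_lit 9765388289) (nat_lit 10947133485) (.two (nat_lit 1048576) (nat_lit 47555018863) (.one (nat_lit 8389873) .nil))),
   .two (nat_lit 1358954501) (nat_lit 1846542351) (.two (nat_lit 1048576) (nat_lit 754975268) (.one (nat_lit 9933161608) .nil)),
   .two (nat_lit 4605345797) (nat_lit 12129927296) (.one (nat_lit 1050625) .nil),
   .two (nat_lit 4194308) (nat_lit 10947133453) (.two (nat_lit 612368385) (nat_lit 4634706175) (.one (nat_lit 158662133528) .nil)),
   .two (nat_lit 13191086085) (nat_lit 28690088003) (.one (nat_lit 11577328284) .nil),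
   .two (nat_lit 75497477) (nat_lit 83886095) (.two (nat_lit 4194304) (nat_lit 156472705565) (.one (nat_lit 306185373) .nil)),
   .two (nat_lit 184549381) (nat_lit 34603020) (.two (nat_lit 8388609) (nat_lit 13187940467) (.one (nat_lit 16779268) .nil)),
   .two (nat_lit 9933160453) (nat_lit 117440527) (.two (nat_lit 1048576) (nat_lit 1312817273) (.one (nat_lit 28693235478) .nil)),
   .two (nat_lit 171966469) (nat_lit 9881780239) (.two (nat_lit 1048576) (nat_lit 775946513) (.one (nat_lit 19042142163) .nil)),
   .two (nat_lit 4194308) (nat_lit 11577327665) (.two (nat_lit 8388608) (nat_lit 1376780424) (.one (nat_lit 4196357) .nil)),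
   .two (nat_lit 2894069765) (nat_lit 158144135180) (.two (nat_lit 8388609) (nat_lit 21208498313) (.one (nat_lit 8390662) .nil)),
   .two (nat_lit 2887778308) (nat_lit 4634705932) (.two (nat_lit 4194305) (nat_lit 203423759) (.two (nat_lit 4194304) (nat_lit 3458204349) .nil)),
   .two (nat_lit 638582789) (nat_lit 10336862223) (.two (nat_lit 2097152) (nat_lit 28757197074) (.one (nat_lit 18926798702) .nil)),
   .two (nat_lit 75497477) (nat_lit 9967763468) (.two (nat_lit 8388609) (nat_lit 183913939224) (.one (nat_lit 2099207) .nil)),
   .two (nat_lit 11476664324) (nat_lit 37320917004) (.two (nat_lit 34603009) (nat_lit 46514831385) (.two (nat_lit 16777216) (nat_lit 168820854) (.one (nat_lit 4027582451) .nil))),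
   .two (nat_lit 12047089669) (nat_lit 1191182360) (.two (nat_lit 1048576) (nat_lit 10921967743) (.one (nat_lit 184550589) .nil)),
   .two (nat_lit 102760453) (nat_lit 2316304497) (.one (nat_lit 19127075440) .nil),
   .two (nat_lit 13187940357) (nat_lit 9802088460) (.two (nat_lit 9768534017) (nat_lit 269484765) .nil),
   .two (nat_lit 1277165572) (nat_lit 159224168463) (.two (nat_lit 2097152) (nat_lit 157043130490) (.one (nat_lit 9772728939) .nil)),
   .two (nat_lit 285212677) (nat_lit 20738736195) (.one (nat_lit 185021235945) .nil),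
   .two (nat_lit 9866051589) (nat_lit 2350907521) (.one (nat_lit 4631561300) .nil),
   .two (nat_lit 50331653) (nat_lit 4605345805) (.two (nat_lit 8388609) (nat_lit 11492392975) (.two (nat_lit 8388608) (nat_lit 2902458666) (.one (nat_lit 10007610444) .nil))),
   .two (nat_lit 1276116996) (nat_lit 158653743128) (.two (nat_lit 1048576) (nat_lit 28697428497) (.one (nat_lit 8389878) .nil)),
   .two (nat_lit 159217876997) (nat_lit 4638900272) (.two (nat_lit 2097152) (nat_lit 47555018873) (.one (nat_lit 203425670) .nil)),
   .two (nat_lit 9934209029) (nat_lit 19093520396) (.two (nat_lit 605028353) (nat_lit 10907287677) (.one (nat_lit 337642704) .nil)),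
   .two (nat_lit 612368389) (nat_lit 184986632205) (.two (nat_lit 2097153) (nat_lit 75497487) (.two (nat_lit 1048576) (nat_lit 10370416755) (.one (nat_lit 46508541956) .nil))),
   .two (nat_lit 285212677) (nat_lit 156971827215) (.two (nat_lit 1048576) (nat_lit 11479810170) (.one (nat_lit 16779277) .nil)),
   .two (nat_lit 1277165573) (nat_lit 1916796942) (.two (nat_lit 2097153) (nat_lit 1178599439) (.two (nat_lit 16777216) (nat_lit 1279262843) (.one (nat_lit 4195575) .nil))),
   .two (nat_lit 46414168068) (nat_lit 50331663) (.two (nat_lit 8388608) (nat_lit 16777327) (.one (nat_lit 13237224678) .nil)),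
   .two (nat_lit 176160773) (nat_lit 158075977743) (.two (nat_lit 8388608) (nat_lit 11510218874) (.one (nat_lit 1745880239) .nil)),
   .two (nat_lit 10370416645) (nat_lit 21811429388) (.two (nat_lit 605028353) (nat_lit 706740474) (.one (nat_lit 159217878056) .nil)),
   .two (nat_lit 4194308) (nat_lit 2432696451) (.one (nat_lit 10351543002) .nil),
   .two (nat_lit 101711877) (nat_lit 20738736141) (.two (nat_lit 2097153) (nat_lit 1779433487) (.two (nat_lit 1048576) (nat_lit 11477713146) (.one (nat_lit 1847591569) .nil))),
   .two (nat_lit 612368389) (nat_lit 19093520398) (.two (nat_lit 16777217) (nat_lit 1182793852) (.one (nat_lit 2349860810) .nil)),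
   .two (nat_lit 270532613) (nat_lit 28093448207) (.two (nat_lit 1048576) (nat_lit 11014242563) (.one (nat_lit 8389880) .nil)),
   .two (nat_lit 11479810052) (nat_lit 185020186636) (.two (nat_lit 34603009) (nat_lit 71303291) (.one (nat_lit 166132187903) .nil)),
   .two (nat_lit 11543773189) (nat_lit 158144135183) (.two (nat_lit 1048576) (nat_lit 11007950973) (.one (nat_lit 46407877281) .nil)),
   .two (nat_lit 270532613) (nat_lit 620756999) (.two (nat_lit 620756995) (nat_lit 2887778312) (.two (nat_lit 620756993) (nat_lit 639631375) (.two (nat_lit 1048576) (nat_lit 706740305) (.one (nat_lit 2097954) .nil)))),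
   .two (nat_lit 28690087941) (nat_lit 20638072840) (.two (nat_lit 34603009) (nat_lit 1377828889) (.two (nat_lit 1048576) (nat_lit 2097306) (.one (nat_lit 1049857) .nil))),
   .two (nat_lit 2956984325) (nat_lit 117440519) (.two (nat_lit 1191182339) (nat_lit 205520904) (.two (nat_lit 9781116929) (nat_lit 9768534031) (.two (nat_lit 1048576) (nat_lit 47584378969) (.one (nat_lit 158179787186) .nil)))),
   .two (nat_lit 16777221) (nat_lit 809500680) (.two (nat_lit 16777217) (nat_lit 809500687) (.two (nat_lit 16777216) (nat_lit 9768534053) (.one (nat_lit 4195578) .nil))),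
   .two (nat_lit 158150426629) (nat_lit 184986632199) (.two (nat_lit 705691651) (nat_lit 21214789640) (.two (nat_lit 34603009) (nat_lit 165532401679) (.two (nat_lit 1048576) (nat_lit 19537068164) (.one (nat_lit 158150426833) .nil)))),
   .two (nat_lit 1745879045) (nat_lit 13191086087) (.two (nat_lit 18925748227) (nat_lit 13191086088) (.two (nat_lit 156364701697) (nat_lit 1312817195) (.two (nat_lit 1048576) (nat_lit 4194468) (.one (nat_lit 4195598) .nil)))),
   .two (nat_lit 2887778308) (nat_lit 620756999) (.two (nat_lit 620756995) (nat_lit 3525312520) (.two (nat_lit 620756993) (nat_lit 639631375) (.two (nat_lit 16777216) (nat_lit 1746927685) (.one (nat_lit 47582281932) .nil)))),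
   .two (nat_lit 34603013) (nat_lit 19599982599) (.two (nat_lit 2097155) (nat_lit 19599982604) (.two (nat_lit 2097153) (nat_lit 3460300842) (.two (nat_lit 2097152) (nat_lit 11513364601) (.one (nat_lit 4195601) .nil)))),
   .two (nat_lit 16777221) (nat_lit 612368391) (.two (nat_lit 612368387) (nat_lit 184549384) (.two (nat_lit 612368385) (nat_lit 184549391) (.two (nat_lit 8388608) (nat_lit 184549412) (.one (nat_lit 16777613) .nil)))),
   .two (nat_lit 1916796933) (nat_lit 12114198535) (.two (nat_lit 11476664323) (nat_lit 9802088460) (.two (nat_lit 34603009) (nat_lit 2990538801) (.two (nat_lit 1048576) (nat_lit 37249613953) (.one (nat_lit 47550825723) .nil)))),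
   .two (nat_lit 270532613) (nat_lit 620756999) (.two (nat_lit 620756995) (nat_lit 2887778312) (.two (nat_lit 620756993) (nat_lit 639631375) (.two (nat_lit 1048576) (nat_lit 1746927685) (.one (nat_lit 46508540313) .nil)))),
   .two (nat_lit 721420292) (nat_lit 2961178632) (.two (nat_lit 50331649) (nat_lit 612368399) (.two (nat_lit 1048576) (nat_lit 243269721) (.one (nat_lit 276824437) .nil))),
   .two (nat_lit 612368389) (nat_lit 16777223) (.two (nat_lit 16777219) (nat_lit 184993972232) (.two (nat_lit 16777217) (nat_lit 75497487) (.two (nat_lit 16777216) (nat_lit 12155093081) (.one (nat_lit 13195280757) .nil)))),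
   .two (nat_lit 3525312517) (nat_lit 10506731527) (.two (nat_lit 9768534019) (nat_lit 46978301960) (.two (nat_lit 9768534017) (nat_lit 46978301967) (.two (nat_lit 4194304) (nat_lit 18926796889) (.one (nat_lit 184417255800) .nil)))),
   .two (nat_lit 157036838917) (nat_lit 21785214983) (.two (nat_lit 156365750275) (nat_lit 21785214984) (.two (nat_lit 156365750273) (nat_lit 2927624235) (.two (nat_lit 2097152) (nat_lit 209715285) (.one (nat_lit 8389912) .nil)))),
   .two (nat_lit 1277165572) (nat_lit 4601151495) (.two (nat_lit 10370416643) (nat_lit 4601151496) (.two (nat_lit 4194305) (nat_lit 21812477977) (.two (nat_lit 2097152) (nat_lit 46980399382) (.one (nat_lit 4195154) .nil)))),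
   .two (nat_lit 41943045) (nat_lit 1745879047) (.two (nat_lit 18925748227) (nat_lit 713031688) (.two (nat_lit 156364701697) (nat_lit 713031695) (.two (nat_lit 1048576) (nat_lit 713031716) (.one (nat_lit 713032088) .nil)))),
   .two (nat_lit 19599982597) (nat_lit 46414168072) (.two (nat_lit 9768534017) (nat_lit 46414168079) (.two (nat_lit 4194304) (nat_lit 183853121573) (.one (nat_lit 19537069330) .nil))),
   .two (nat_lit 10343153669) (nat_lit 13191086088) (.two (nat_lit 612368385) (nat_lit 13191086095) (.two (nat_lit 8388608) (nat_lit 9802088485) (.one (nat_lit 4195611) .nil))),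
   .two (nat_lit 3531603973) (nat_lit 809500679) (.two (nat_lit 37748739) (nat_lit 46984593416) (.two (nat_lit 37748737) (nat_lit 10343153679) (.two (nat_lit 4194304) (nat_lit 2357198980) (.one (nat_lit 46481277137) .nil)))),
   .two (nat_lit 9934209029) (nat_lit 157038936071) (.two (nat_lit 166130089987) (nat_lit 157038936076) (.two (nat_lit 9766436865) (nat_lit 9802088488) (.two (nat_lit 2097152) (nat_lit 876609783) (.one (nat_lit 4195168) .nil)))),
   .two (nat_lit 157036838917) (nat_lit 9948889096) (.two (nat_lit 9766436865) (nat_lit 9948889103) (.two (nat_lit 2097152) (nat_lit 2969567343) (.one (nat_lit 16777668) .nil))),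
   .two (nat_lit 1916796933) (nat_lit 46414168072) (.two (nat_lit 9768534017) (nat_lit 46414168079) (.two (nat_lit 4194304) (nat_lit 183853121573) (.one (nat_lit 4195580) .nil))),
   .two (nat_lit 713031688) (nat_lit 12050235400) (.two (nat_lit 41943045) (nat_lit 184419352591) (.two (nat_lit 37748737) (nat_lit 11618222146) (.two (nat_lit 2097152) (nat_lit 1216348791) (.one (nat_lit 183953787022) .nil)))),
   .two (nat_lit 16777224) (nat_lit 3525312535) (.two (nat_lit 41943041) (nat_lit 740295017) (.one (nat_lit 721421646) .nil)),
   .two (nat_lit 46984593416) (nat_lit 10909384717) (.two (nat_lit 16777221) (nat_lit 19596836909) (.two (nat_lit 4194305) (nat_lit 336593257) (.one (nat_lit 156581759091) .nil))),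
   .two (nat_lit 1343225864) (nat_lit 21208498184) (.two (nat_lit 9866051589) (nat_lit 102760493) (.two (nat_lit 34603009) (nat_lit 4028629117) (.two (nat_lit 1048576) (nat_lit 337642160) (.one (nat_lit 9899607375) .nil)))),
   .two (nat_lit 10343153676) (nat_lit 156535619598) (.two (nat_lit 12121538565) (nat_lit 205521018) (.two (nat_lit 2097152) (nat_lit 21210595980) (.one (nat_lit 708839582) .nil))),
   .two (nat_lit 205520904) (nat_lit 159217877007) (.two (nat_lit 2097153) (nat_lit 306184303) (.two (nat_lit 1048576) (nat_lit 4601152144) (.one (nat_lit 12147754318) .nil))),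
   .two (nat_lit 183845781512) (nat_lit 18928893967) (.two (nat_lit 2097153) (nat_lit 4194426) (.two (nat_lit 1048576) (nat_lit 156468511382) (.one (nat_lit 4196613) .nil))),
   .two (nat_lit 12129927176) (nat_lit 156367847439) (.two (nat_lit 4194305) (nat_lit 1847591032) (.two (nat_lit 2097152) (nat_lit 10955522666) (.one (nat_lit 158144136526) .nil))),
   .two (nat_lit 9948889096) (nat_lit 174753579023) (.two (nat_lit 606076929) (nat_lit 11559501889) (.two (nat_lit 2097152) (nat_lit 46992982375) (.one (nat_lit 687868039) .nil))),
   .two (nat_lit 12050235400) (nat_lit 37253808141) (.two (nat_lit 1176502277) (nat_lit 1749024783) (.two (nat_lit 2097153) (nat_lit 158649549041) (.two (nat_lit 8388608) (nat_lit 9902752102) (.one (nat_lit 4196614) .nil)))),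
   .two (nat_lit 3458203656) (nat_lit 18928893960) (.two (nat_lit 2954887173) (nat_lit 1749024792) (.two (nat_lit 41943041) (nat_lit 21781021288) (.one (nat_lit 3024094604) .nil))),
   .two (nat_lit 50331656) (nat_lit 46409973768) (.two (nat_lit 822083589) (nat_lit 3460300823) (.two (nat_lit 2097153) (nat_lit 46477083308) (.one (nat_lit 21778924940) .nil))),
   .two (nat_lit 41943048) (nat_lit 2889875464) (.two (nat_lit 8388612) (nat_lit 3527409687) (.two (nat_lit 2097153) (nat_lit 1178600074) (.one (nat_lit 4196615) .nil))),
   .two (nat_lit 16777224) (nat_lit 2988441623) (.two (nat_lit 16777217) (nat_lit 1847591036) (.two (nat_lit 16777216) (nat_lit 236978816) (.one (nat_lit 3021997393) .nil))),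
   .two (nat_lit 169869320) (nat_lit 184549389) (.two (nat_lit 184549381) (nat_lit 159217877007) (.two (nat_lit 16777217) (nat_lit 47548727406) (.two (nat_lit 1048576) (nat_lit 1291846289) (.one (nat_lit 12617516408) .nil)))),
   .two (nat_lit 2902458376) (nat_lit 156367847439) (.two (nat_lit 4194305) (nat_lit 721420886) (.one (nat_lit 47563409523) .nil)),
   .two (nat_lit 83886088) (nat_lit 203423752) (.two (nat_lit 620756997) (nat_lit 69206062) (.two (nat_lit 2097153) (nat_lit 20753416324) (.two (nat_lit 16777216) (nat_lit 2098266) (.one (nat_lit 46992984214) .nil)))),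
   .two (nat_lit 276824072) (nat_lit 156365750287) (.two (nat_lit 8388609) (nat_lit 158192370024) (.one (nat_lit 174692763005) .nil)),
   .two (nat_lit 166132187144) (nat_lit 10939793423) (.two (nat_lit 9768534017) (nat_lit 166129041772) (.one (nat_lit 10335815021) .nil)),
   .two (nat_lit 13224640524) (nat_lit 612368398) (.two (nat_lit 13191086085) (nat_lit 41943107) (.two (nat_lit 4194304) (nat_lit 21818769772) (.one (nat_lit 11479810915) .nil))),
   .two (nat_lit 46984593416) (nat_lit 1847590979) (.two (nat_lit 1048576) (nat_lit 1344275122) (.one (nat_lit 158077028530) .nil)),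
   .two (nat_lit 176160776) (nat_lit 4601151496) (.two (nat_lit 4194308) (nat_lit 176160783) (.two (nat_lit 8388609) (nat_lit 4601152168) (.one (nat_lit 10913580355) .nil))),
   .two (nat_lit 620757000) (nat_lit 1916796940) (.two (nat_lit 83886085) (nat_lit 166132187251) (.two (nat_lit 16777216) (nat_lit 156971827806) (.one (nat_lit 4196616) .nil))),
   .two (nat_lit 46978301960) (nat_lit 46992982061) (.two (nat_lit 2097153) (nat_lit 11492393025) (.two (nat_lit 2097152) (nat_lit 185035915627) (.one (nat_lit 12148802899) .nil))),
   .two (nat_lit 713031688) (nat_lit 1191182351) (.two (nat_lit 50331649) (nat_lit 183853121601) (.two (nat_lit 16777216) (nat_lit 20745027943) (.one (nat_lit 8390921) .nil))),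
   .two (nat_lit 183853121549) (nat_lit 236978189) (.two (nat_lit 1277165573) (nat_lit 13195280399) (.two (nat_lit 8388609) (nat_lit 174686470502) (.one (nat_lit 9967765704) .nil))),
   .two (nat_lit 285212680) (nat_lit 847249421) (.two (nat_lit 16777220) (nat_lit 156372041768) (.two (nat_lit 16777217) (nat_lit 11584667784) (.two (nat_lit 8388608) (nat_lit 3573547667) (.one (nat_lit 1753220472) .nil)))),
   .two (nat_lit 183848927240) (nat_lit 1745879055) (.two (nat_lit 16777217) (nat_lit 13191086147) (.two (nat_lit 1048576) (nat_lit 608175485) .nil)),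
   .two (nat_lit 203423752) (nat_lit 18928893967) (.two (nat_lit 2097153) (nat_lit 11513364546) (.two (nat_lit 2097152) (nat_lit 3560964730) (.one (nat_lit 2099466) .nil))),
   .two (nat_lit 169869320) (nat_lit 612368399) (.two (nat_lit 8388609) (nat_lit 11544822421) (.one (nat_lit 2099467) .nil)),
   .two (nat_lit 739246088) (nat_lit 46510637069) (.two (nat_lit 4194308) (nat_lit 101711887) (.two (nat_lit 4194305) (nat_lit 11543773251) (.two (nat_lit 4194304) (nat_lit 3557819745) .nil))),
   .two (nat_lit 184549384) (nat_lit 46414168079) (.two (nat_lit 8388609) (nat_lit 2902458433) (.two (nat_lit 8388608) (nat_lit 9915335015) (.one (nat_lit 12155094366) .nil))),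
   .two (nat_lit 754974728) (nat_lit 9967763480) (.two (nat_lit 50331649) (nat_lit 1310720113) (.two (nat_lit 16777216) (nat_lit 21208498782) (.one (nat_lit 9934211117) .nil))),
   .two (nat_lit 612368392) (nat_lit 183912890408) (.two (nat_lit 34603009) (nat_lit 343932995) (.two (nat_lit 1048576) (nat_lit 28093448885) (.one (nat_lit 8390924) .nil))),
   .two (nat_lit 156372041741) (nat_lit 166196150285) (.two (nat_lit 13195280389) (nat_lit 183845781637) (.two (nat_lit 1048576) (nat_lit 47588573908) (.one (nat_lit 1209010387) .nil))),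
   .two (nat_lit 272629768) (nat_lit 156365750280) (.two (nat_lit 2889875461) (nat_lit 3458203663) (.two (nat_lit 2097153) (nat_lit 4634705986) (.two (nat_lit 16777216) (nat_lit 11010048631) (.one (nat_lit 4196621) .nil)))),
   .two (nat_lit 620757000) (nat_lit 20705181709) (.two (nat_lit 184549381) (nat_lit 184419352591) (.two (nat_lit 16777217) (nat_lit 1746927751) (.two (nat_lit 2097152) (nat_lit 4195419) (.one (nat_lit 19599984721) .nil)))),
   .two (nat_lit 612368392) (nat_lit 19142803523) (.two (nat_lit 16777216) (nat_lit 1954546359) (.one (nat_lit 2332034422) .nil)),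
   .two (nat_lit 612368392) (nat_lit 3460300808) (.two (nat_lit 47550824453) (nat_lit 612368399) (.two (nat_lit 4194305) (nat_lit 1786773627) (.two (nat_lit 1048576) (nat_lit 183949591190) (.one (nat_lit 4196624) .nil)))),
   .two (nat_lit 184549384) (nat_lit 205520904) (.two (nat_lit 2956984325) (nat_lit 184549391) (.two (nat_lit 16777217) (nat_lit 20640170122) (.two (nat_lit 1048576) (nat_lit 19612566147) (.one (nat_lit 1050897) .nil)))),
   .two (nat_lit 4601151496) (nat_lit 243269645) (.two (nat_lit 1343225861) (nat_lit 19532873743) (.two (nat_lit 8388609) (nat_lit 4030726254) (.two (nat_lit 1048576) (nat_lit 10909385400) (.one (nat_lit 9866052984) .nil)))),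
   .two (nat_lit 754974728) (nat_lit 46984593449) (.two (nat_lit 8388609) (nat_lit 11477713018) (.two (nat_lit 1048576) (nat_lit 156365751661) .nil)),
   .two (nat_lit 2887778312) (nat_lit 2902458383) (.two (nat_lit 2097153) (nat_lit 19142803523) (.two (nat_lit 2097152) (nat_lit 1761609043) .nil)),
   .two (nat_lit 8388616) (nat_lit 10940841998) (.two (nat_lit 21778923525) (nat_lit 343932994) (.two (nat_lit 4194304) (nat_lit 1853882727) (.one (nat_lit 159217878380) .nil))),
   .two (nat_lit 285212680) (nat_lit 28758245391) (.two (nat_lit 37748737) (nat_lit 706740867) (.one (nat_lit 2099474) .nil)),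
   .two (nat_lit 159217877000) (nat_lit 3036676109) (.two (nat_lit 184549381) (nat_lit 159217877007) (.two (nat_lit 16777217) (nat_lit 47548727406) (.two (nat_lit 8388608) (nat_lit 822084984) .nil))),
   .two (nat_lit 166132187144) (nat_lit 47596961805) (.two (nat_lit 184549381) (nat_lit 166132187151) (.two (nat_lit 16777217) (nat_lit 19029557314) (.two (nat_lit 1048576) (nat_lit 1413481846) .nil))),
   .two (nat_lit 3527409672) (nat_lit 772800535) (.two (nat_lit 9768534017) (nat_lit 37313577556) (.one (nat_lit 1050899) .nil)),
   .two (nat_lit 9768534024) (nat_lit 1358954511) (.two (nat_lit 50331649) (nat_lit 1950352084) (.one (nat_lit 4196629) .nil)),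
   .two (nat_lit 9948889096) (nat_lit 47584378894) (.two (nat_lit 184549380) (nat_lit 20644364311) (.two (nat_lit 4194305) (nat_lit 159224169136) (.one (nat_lit 9940501869) .nil))),
   .two (nat_lit 158083317768) (nat_lit 174753579021) (.two (nat_lit 28758245381) (nat_lit 9906946072) (.two (nat_lit 156365750273) (nat_lit 1384120429) (.two (nat_lit 4194304) (nat_lit 9967764113) (.one (nat_lit 9967765545) .nil)))),
   .two (nat_lit 75497480) (nat_lit 218103823) (.two (nat_lit 16777217) (nat_lit 142606472) (.two (nat_lit 1048576) (nat_lit 8389724) (.one (nat_lit 11626612824) .nil))),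
   .two (nat_lit 639631368) (nat_lit 158143086600) (.two (nat_lit 2887778308) (nat_lit 9933160473) (.two (nat_lit 2097153) (nat_lit 28690088068) (.two (nat_lit 2097152) (nat_lit 165525062313) (.one (nat_lit 165526111619) .nil)))),
   .two (nat_lit 11492392968) (nat_lit 1846542351) (.two (nat_lit 50331649) (nat_lit 68157559) (.two (nat_lit 1048576) (nat_lit 174701150871) (.one (nat_lit 705692997) .nil))),
   .two (nat_lit 1191182344) (nat_lit 21785214984) (.two (nat_lit 620756997) (nat_lit 165532401772) (.two (nat_lit 8388608) (nat_lit 28806480983) (.one (nat_lit 16779542) .nil))),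
   .two (nat_lit 285212685) (nat_lit 47582281740) (.two (nat_lit 285212677) (nat_lit 46474985512) (.two (nat_lit 16777217) (nat_lit 706740584) (.one (nat_lit 16779543) .nil))),
   .two (nat_lit 21208498184) (nat_lit 306184204) (.two (nat_lit 272629765) (nat_lit 21778923545) (.two (nat_lit 4194305) (nat_lit 166197198968) (.two (nat_lit 2097152) (nat_lit 2353004905) (.one (nat_lit 4196632) .nil)))),
   .two (nat_lit 184549384) (nat_lit 20644364355) (.two (nat_lit 8388608) (nat_lit 28705816938) (.one (nat_lit 16779545) .nil)),
   .two (nat_lit 10385096712) (nat_lit 10538188846) (.two (nat_lit 606076929) (nat_lit 2357198964) (.two (nat_lit 2097152) (nat_lit 183953785534) (.one (nat_lit 156380432504) .nil))),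
   .two (nat_lit 11492392968) (nat_lit 1916796943) (.two (nat_lit 37748737) (nat_lit 184431936176) (.one (nat_lit 285214763) .nil)),
   .two (nat_lit 9934209032) (nat_lit 159224168460) (.two (nat_lit 169869316) (nat_lit 75497487) (.two (nat_lit 2097153) (nat_lit 2323644536) (.two (nat_lit 16777216) (nat_lit 780141903) .nil))),
   .two (nat_lit 169869320) (nat_lit 176160783) (.two (nat_lit 2097153) (nat_lit 9768534131) (.two (nat_lit 1048576) (nat_lit 608175152) (.one (nat_lit 1344276743) .nil))),
   .two (nat_lit 721420296) (nat_lit 158083317775) (.two (nat_lit 612368385) (nat_lit 159232557780) (.one (nat_lit 16779547) .nil)),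
   .two (nat_lit 612368392) (nat_lit 4601151503) (.two (nat_lit 8388609) (nat_lit 2923430500) (.one (nat_lit 4196636) .nil)),
   .two (nat_lit 654311432) (nat_lit 13195280396) (.two (nat_lit 41943045) (nat_lit 1191182449) (.two (nat_lit 16777216) (nat_lit 18933088862) (.one (nat_lit 8390941) .nil))),
   .two (nat_lit 3539992584) (nat_lit 28758245401) (.two (nat_lit 8388609) (nat_lit 16777867) (.one (nat_lit 156539816042) .nil)),
   .two (nat_lit 9766436872) (nat_lit 9768534031) (.two (nat_lit 2097153) (nat_lit 166136381799) (.one (nat_lit 9772730529) .nil)),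
   .two (nat_lit 705691656) (nat_lit 47555018760) (.two (nat_lit 270532613) (nat_lit 641728527) (.two (nat_lit 2097153) (nat_lit 158079123818) (.one (nat_lit 8390942) .nil))),
   .two (nat_lit 184549384) (nat_lit 306184215) (.two (nat_lit 16777217) (nat_lit 28693233788) (.two (nat_lit 16777216) (nat_lit 1178600063) (.one (nat_lit 4196639) .nil))),
   .two (nat_lit 117440520) (nat_lit 3464495117) (.two (nat_lit 8388613) (nat_lit 1795162225) (.two (nat_lit 16777216) (nat_lit 165532402273) (.one (nat_lit 8390944) .nil))),
   .two (nat_lit 8388616) (nat_lit 68157448) (.two (nat_lit 8388612) (nat_lit 46507491371) (.two (nat_lit 4194305) (nat_lit 9765388401) (.two (nat_lit 1048576) (nat_lit 1279263336) (.one (nat_lit 11010049371) .nil)))),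
   .two (nat_lit 183848927240) (nat_lit 28806479885) (.two (nat_lit 1795162117) (nat_lit 184419352600) (.two (nat_lit 37748737) (nat_lit 183861510263) (.two (nat_lit 8388608) (nat_lit 158079124118) (.one (nat_lit 876611637) .nil)))),
   .two (nat_lit 46984593416) (nat_lit 156533522444) (.two (nat_lit 639631365) (nat_lit 156372041743) (.two (nat_lit 606076929) (nat_lit 310378691) (.one (nat_lit 3565159826) .nil))),
   .two (nat_lit 46407876616) (nat_lit 1426063373) (.two (nat_lit 83886085) (nat_lit 46474985497) (.two (nat_lit 2097153) (nat_lit 46992982135) (.two (nat_lit 4194304) (nat_lit 158177690998) .nil))),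
   .two (nat_lit 2889875464) (nat_lit 3525312527) (.two (nat_lit 4194305) (nat_lit 270533279) (.one (nat_lit 156567078220) .nil)),
   .two (nat_lit 721420296) (nat_lit 46409973773) (.two (nat_lit 50331653) (nat_lit 11513364520) (.two (nat_lit 4194305) (nat_lit 721420354) (.two (nat_lit 1048576) (nat_lit 3527410301) (.one (nat_lit 12062820459) .nil)))),
   .two (nat_lit 713031688) (nat_lit 46407876616) (.two (nat_lit 713031684) (nat_lit 46978301967) (.two (nat_lit 34603009) (nat_lit 158177689665) (.two (nat_lit 1048576) (nat_lit 10370417338) (.one (nat_lit 343935162) .nil)))),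
   .two (nat_lit 11479810056) (nat_lit 158143086600) (.two (nat_lit 9768534021) (nat_lit 10335813677) (.two (nat_lit 9765388289) (nat_lit 306184300) (.two (nat_lit 1048576) (nat_lit 46477083329) (.one (nat_lit 1050913) .nil)))),
   .two (nat_lit 169869320) (nat_lit 13195280399) (.two (nat_lit 8388609) (nat_lit 156533522540) (.two (nat_lit 2097152) (nat_lit 158083318825) (.one (nat_lit 19596838235) .nil))),
   .two (nat_lit 165526110216) (nat_lit 117440524) (.two (nat_lit 285212677) (nat_lit 174753579023) (.two (nat_lit 16777217) (nat_lit 10907287664) (.two (nat_lit 2097152) (nat_lit 156548203872) .nil))),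
   .two (nat_lit 101711880) (nat_lit 174753579021) (.two (nat_lit 1779433477) (nat_lit 28758245416) (.two (nat_lit 34603009) (nat_lit 773849214) (.two (nat_lit 1048576) (nat_lit 1780482695) (.one (nat_lit 10906240325) .nil)))),
   .two (nat_lit 8388616) (nat_lit 47548727311) (.two (nat_lit 8388609) (nat_lit 46474985537) (.two (nat_lit 8388608) (nat_lit 1377829223) (.one (nat_lit 8390946) .nil))),
   .two (nat_lit 2961178632) (nat_lit 12117344268) (.two (nat_lit 176160772) (nat_lit 184419352713) (.two (nat_lit 1048576) (nat_lit 306184853) (.one (nat_lit 18933090319) .nil))),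
   .two (nat_lit 9948889096) (nat_lit 641728520) (.two (nat_lit 184549381) (nat_lit 10506731535) (.two (nat_lit 16777217) (nat_lit 156535619779) (.one (nat_lit 4196643) .nil))),
   .two (nat_lit 721420296) (nat_lit 2954887183) (.two (nat_lit 50331649) (nat_lit 3558867057) (.two (nat_lit 16777216) (nat_lit 1948255601) .nil)),
   .two (nat_lit 4194312) (nat_lit 176160776) (.two (nat_lit 4194308) (nat_lit 21207449645) (.two (nat_lit 2097153) (nat_lit 11510219111) (.one (nat_lit 679478619) .nil))),
   .two (nat_lit 739246088) (nat_lit 165526110223) (.two (nat_lit 34603009) (nat_lit 1310720066) (.two (nat_lit 1048576) (nat_lit 158177691025) .nil)),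
   .two (nat_lit 713031688) (nat_lit 158077026319) (.two (nat_lit 41943041) (nat_lit 28758245496) (.two (nat_lit 8388608) (nat_lit 2098270) (.one (nat_lit 184423548269) .nil))),
   .two (nat_lit 9768534024) (nat_lit 9881780232) (.two (nat_lit 1358954501) (nat_lit 9768534031) (.two (nat_lit 9781116929) (nat_lit 19130220652) (.two (nat_lit 16777216) (nat_lit 19029557953) (.one (nat_lit 166144771436) .nil)))),
   .two (nat_lit 21207449608) (nat_lit 28089253913) (.two (nat_lit 37748737) (nat_lit 183946444919) (.two (nat_lit 1048576) (nat_lit 4195033) (.one (nat_lit 28757198147) .nil))),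
   .two (nat_lit 12114198536) (nat_lit 1847590927) (.two (nat_lit 9765388289) (nat_lit 1847591020) (.two (nat_lit 1048576) (nat_lit 183947494006) (.one (nat_lit 19128125662) .nil))),
   .two (nat_lit 184419352584) (nat_lit 2954887181) (.two (nat_lit 270532613) (nat_lit 12117344369) (.two (nat_lit 4194304) (nat_lit 2954887821) (.one (nat_lit 2099492) .nil))),
   .two (nat_lit 9781116936) (nat_lit 10376708143) (.two (nat_lit 8388609) (nat_lit 174755676276) (.two (nat_lit 8388608) (nat_lit 16778335) (.one (nat_lit 11551114578) .nil))),
   .two (nat_lit 9781116936) (nat_lit 12054429710) (.two (nat_lit 9873391621) (nat_lit 9781117040) (.two (nat_lit 16777216) (nat_lit 158150428016) .nil)),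
   .two (nat_lit 9934209032) (nat_lit 46980399112) (.two (nat_lit 3527409669) (nat_lit 9934209039) (.two (nat_lit 2097153) (nat_lit 183949591136) (.one (nat_lit 2956986640) .nil))),
   .two (nat_lit 606076936) (nat_lit 1417674776) (.two (nat_lit 2097153) (nat_lit 9902751862) (.two (nat_lit 8388608) (nat_lit 1749025432) (.one (nat_lit 158653745246) .nil))),
   .two (nat_lit 713031688) (nat_lit 13191086088) (.two (nat_lit 4194308) (nat_lit 713031695) (.two (nat_lit 4194305) (nat_lit 46984593527) (.two (nat_lit 8388608) (nat_lit 13224641152) (.one (nat_lit 2323645763) .nil)))),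
   .two (nat_lit 285212680) (nat_lit 28690087961) (.two (nat_lit 50331649) (nat_lit 1343225994) (.two (nat_lit 16777216) (nat_lit 34604096) (.one (nat_lit 2920285482) .nil))),
   .two (nat_lit 4601151496) (nat_lit 166129041416) (.two (nat_lit 809500677) (nat_lit 10906239000) (.two (nat_lit 8388609) (nat_lit 12047090334) (.one (nat_lit 9798944988) .nil))),
   .two (nat_lit 205520904) (nat_lit 159217877007) (.two (nat_lit 2097153) (nat_lit 11479810689) (.one (nat_lit 10504635780) .nil)),
   .two (nat_lit 9940500488) (nat_lit 158075977743) (.two (nat_lit 4194305) (nat_lit 157035790472) (.two (nat_lit 1048576) (nat_lit 2319450755) (.one (nat_lit 1749026166) .nil))),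
   .two (nat_lit 20644364296) (nat_lit 19596836879) (.two (nat_lit 34603009) (nat_lit 11618222205) (.two (nat_lit 1048576) (nat_lit 8389728) (.one (nat_lit 11551115462) .nil))),
   .two (nat_lit 4194312) (nat_lit 19128123405) (.two (nat_lit 4194308) (nat_lit 185020186760) (.two (nat_lit 1048576) (nat_lit 1780483142) (.one (nat_lit 269486158) .nil))),
   .two (nat_lit 4194312) (nat_lit 3003121690) (.two (nat_lit 4194305) (nat_lit 159266112152) (.one (nat_lit 183928621260) .nil)),
   .two (nat_lit 16777224) (nat_lit 705691663) (.two (nat_lit 16777217) (nat_lit 873463921) (.two (nat_lit 1048576) (nat_lit 3021996710) (.one (nat_lit 19026412882) .nil))),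
   .two (nat_lit 620757000) (nat_lit 156372041736) (.two (nat_lit 46414168068) (nat_lit 620757007) (.two (nat_lit 8388609) (nat_lit 1358955093) (.one (nat_lit 16779557) .nil))),
   .two (nat_lit 21208498184) (nat_lit 142606349) (.two (nat_lit 21785214981) (nat_lit 174753579023) (.two (nat_lit 612368385) (nat_lit 304087400) (.one (nat_lit 2099494) .nil))),
   .two (nat_lit 11559501832) (nat_lit 156468510733) (.two (nat_lit 721420293) (nat_lit 156468510744) (.two (nat_lit 16777217) (nat_lit 156468510830) (.two (nat_lit 8388608) (nat_lit 21827158373) (.one (nat_lit 4196647) .nil)))),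
   .two (nat_lit 620757000) (nat_lit 1916796943) (.two (nat_lit 16777217) (nat_lit 19599982787) (.one (nat_lit 4196648) .nil)),
   .two (nat_lit 9934209032) (nat_lit 20637024271) (.two (nat_lit 2097153) (nat_lit 11546919585) (.one (nat_lit 9900655981) .nil)),
   .two (nat_lit 169869320) (nat_lit 19029557273) (.two (nat_lit 2097153) (nat_lit 9933160561) (.two (nat_lit 2097152) (nat_lit 11010048663) (.one (nat_lit 165526111579) .nil))),
   .two (nat_lit 276824072) (nat_lit 1344274444) (.two (nat_lit 8388612) (nat_lit 69206056) (.two (nat_lit 2097153) (nat_lit 638582899) (.two (nat_lit 1048576) (nat_lit 740295014) (.one (nat_lit 11007953068) .nil)))),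
   .two (nat_lit 822083592) (nat_lit 20740833326) (.two (nat_lit 4194305) (nat_lit 185021235562) (.one (nat_lit 19530778905) .nil)),
   .two (nat_lit 1779433480) (nat_lit 18933088280) (.two (nat_lit 605028353) (nat_lit 4605346402) (.one (nat_lit 8390953) .nil)),
   .two (nat_lit 809500680) (nat_lit 2988441625) (.two (nat_lit 4194305) (nat_lit 47582281839) (.two (nat_lit 4194304) (nat_lit 18926797865) (.one (nat_lit 156468512842) .nil))),
   .two (nat_lit 183853121544) (nat_lit 1846542344) (.two (nat_lit 1913651205) (nat_lit 19604176920) (.two (nat_lit 156364701697) (nat_lit 343933036) (.two (nat_lit 1048576) (nat_lit 10510926454) (.one (nat_lit 28086109576) .nil)))),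
   .two (nat_lit 721420296) (nat_lit 9934209032) (.two (nat_lit 721420292) (nat_lit 46508539930) (.two (nat_lit 620756993) (nat_lit 639631498) (.two (nat_lit 16777216) (nat_lit 2098274) (.one (nat_lit 2332034445) .nil)))),
   .two (nat_lit 11492392968) (nat_lit 21207449615) (.two (nat_lit 605028353) (nat_lit 4647288968) (.two (nat_lit 1048576) (nat_lit 12129928252) (.one (nat_lit 1343227958) .nil))),
   .two (nat_lit 174753579016) (nat_lit 19130220558) (.two (nat_lit 272629765) (nat_lit 174753579023) (.two (nat_lit 4194305) (nat_lit 21208498290) (.two (nat_lit 1048576) (nat_lit 21812478580) (.one (nat_lit 4196651) .nil)))),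
   .two (nat_lit 41943048) (nat_lit 20704133161) (.two (nat_lit 8388609) (nat_lit 12047089800) (.two (nat_lit 8388608) (nat_lit 705692299) (.one (nat_lit 20711474489) .nil))),
   .two (nat_lit 37748744) (nat_lit 28086108173) (.two (nat_lit 169869316) (nat_lit 158075977751) (.two (nat_lit 16777217) (nat_lit 19026411879) (.one (nat_lit 28690090259) .nil))),
   .two (nat_lit 159224168456) (nat_lit 28758245388) (.two (nat_lit 10370416645) (nat_lit 159224168463) (.two (nat_lit 2097153) (nat_lit 28093448550) (.one (nat_lit 156372043972) .nil))),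
   .two (nat_lit 739246088) (nat_lit 10940841999) (.two (nat_lit 9765388289) (nat_lit 10940842092) (.two (nat_lit 1048576) (nat_lit 11511267958) (.one (nat_lit 2099500) .nil))),
   .two (nat_lit 1178599432) (nat_lit 19597885486) (.two (nat_lit 2097153) (nat_lit 10338959479) (.two (nat_lit 4194304) (nat_lit 9867100524) (.one (nat_lit 19029559422) .nil))),
   .two (nat_lit 813694984) (nat_lit 19130220568) (.two (nat_lit 2097153) (nat_lit 1413480570) (.two (nat_lit 4194304) (nat_lit 20745028260) (.one (nat_lit 10540287341) .nil))),
   .two (nat_lit 4194312) (nat_lit 10538188824) (.two (nat_lit 4194305) (nat_lit 183947493997) (.one (nat_lit 156533524690) .nil)),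
   .two (nat_lit 2889875464) (nat_lit 13195280392) (.two (nat_lit 8388612) (nat_lit 2889875471) (.two (nat_lit 4194305) (nat_lit 11551113867) (.one (nat_lit 2420114819) .nil))),
   .two (nat_lit 4194312) (nat_lit 50331656) (.two (nat_lit 4194308) (nat_lit 18925748239) (.two (nat_lit 4194305) (nat_lit 156364701812) (.two (nat_lit 1048576) (nat_lit 47584379582) (.one (nat_lit 4196654) .nil)))),
   .two (nat_lit 16777224) (nat_lit 13191086093) (.two (nat_lit 13191086085) (nat_lit 16777231) (.two (nat_lit 37748737) (nat_lit 46523220690) (.one (nat_lit 19599983992) .nil))),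
   .two (nat_lit 705691656) (nat_lit 612368392) (.two (nat_lit 176160772) (nat_lit 184986632215) (.two (nat_lit 2097153) (nat_lit 20737687617) (.two (nat_lit 2097152) (nat_lit 1384120958) (.one (nat_lit 8390959) .nil)))),
   .two (nat_lit 11551113224) (nat_lit 4634705944) (.two (nat_lit 4194305) (nat_lit 4599054455) (.two (nat_lit 2097152) (nat_lit 12150899347) (.one (nat_lit 740296823) .nil))),
   .two (nat_lit 9866051592) (nat_lit 639631373) (.two (nat_lit 9934209029) (nat_lit 1779433487) (.two (nat_lit 41943041) (nat_lit 1343225923) (.two (nat_lit 2097152) (nat_lit 739246438) (.one (nat_lit 10376710337) .nil)))),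
   .two (nat_lit 16777224) (nat_lit 606076943) (.two (nat_lit 4194305) (nat_lit 10907288193) (.one (nat_lit 337642792) .nil)),
   .two (nat_lit 639631368) (nat_lit 46984593416) (.two (nat_lit 270532613) (nat_lit 46414168079) (.two (nat_lit 34603009) (nat_lit 156567077001) (.two (nat_lit 1048576) (nat_lit 8389732) (.one (nat_lit 8390960) .nil)))),
   .two (nat_lit 12050235400) (nat_lit 135266316) (.two (nat_lit 19596836869) (nat_lit 1746927751) (.two (nat_lit 1048576) (nat_lit 9799991970) (.one (nat_lit 1780483467) .nil))),
   .two (nat_lit 166129041416) (nat_lit 19530776591) (.two (nat_lit 41943041) (nat_lit 605028479) (.two (nat_lit 2097152) (nat_lit 1846543008) (.one (nat_lit 1050929) .nil))),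
   .two (nat_lit 4194312) (nat_lit 174686470169) (.two (nat_lit 4194305) (nat_lit 47548727936) (.one (nat_lit 158075979883) .nil)),
   .two (nat_lit 169869320) (nat_lit 157038936072) (.two (nat_lit 2097157) (nat_lit 46409973775) (.two (nat_lit 2097153) (nat_lit 306184909) (.one (nat_lit 21208500453) .nil))),
   .two (nat_lit 218103816) (nat_lit 28790751257) (.two (nat_lit 8388609) (nat_lit 13187940488) (.two (nat_lit 8388608) (nat_lit 12047090356) (.one (nat_lit 11551114614) .nil))),
   .two (nat_lit 1291845640) (nat_lit 183912890393) (.two (nat_lit 2097153) (nat_lit 2969567342) (.two (nat_lit 2097152) (nat_lit 4043309684) (.one (nat_lit 705693807) .nil))),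
   .two (nat_lit 606076936) (nat_lit 11492392975) (.two (nat_lit 37748737) (nat_lit 1746928244) (.one (nat_lit 2099507) .nil)),
   .two (nat_lit 183848927240) (nat_lit 1753219084) (.two (nat_lit 18933088261) (nat_lit 19599982607) (.two (nat_lit 8388609) (nat_lit 184989778608) (.one (nat_lit 4196660) .nil))),
   .two (nat_lit 620757000) (nat_lit 809500687) (.two (nat_lit 4194305) (nat_lit 3573547525) (.two (nat_lit 16777216) (nat_lit 21781021302) (.one (nat_lit 159266112858) .nil))),
   .two (nat_lit 276824072) (nat_lit 1210056717) (.two (nat_lit 9765388293) (nat_lit 102760474) (.two (nat_lit 16777217) (nat_lit 174759870823) (.one (nat_lit 19128125465) .nil))),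
   .two (nat_lit 12050235400) (nat_lit 1753219080) (.two (nat_lit 184989777925) (nat_lit 2424307736) (.two (nat_lit 37748737) (nat_lit 1417675009) (.two (nat_lit 8388608) (nat_lit 1950352021) (.one (nat_lit 673188019) .nil)))),
   .two (nat_lit 2887778312) (nat_lit 165532401689) (.two (nat_lit 2097153) (nat_lit 1920991356) (.two (nat_lit 1048576) (nat_lit 1753219723) (.one (nat_lit 1050934) .nil))),
   .two (nat_lit 606076936) (nat_lit 21785214991) (.two (nat_lit 2097153) (nat_lit 12117344370) (.two (nat_lit 8388608) (nat_lit 11580473972) (.one (nat_lit 209717425) .nil))),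
   .two (nat_lit 822083592) (nat_lit 4605345804) (.two (nat_lit 8388613) (nat_lit 9799991408) (.two (nat_lit 8388608) (nat_lit 46978302819) .nil)),
   .two (nat_lit 101711880) (nat_lit 2969567244) (.two (nat_lit 184549381) (nat_lit 28757196815) (.two (nat_lit 16777217) (nat_lit 20704133185) (.two (nat_lit 16777216) (nat_lit 166196150467) (.one (nat_lit 269485414) .nil)))),
   .two (nat_lit 10370416648) (nat_lit 3464495171) (.two (nat_lit 2097152) (nat_lit 3464495701) (.one (nat_lit 8390967) .nil)),
   .two (nat_lit 11479810056) (nat_lit 10335813645) (.two (nat_lit 16777221) (nat_lit 272629955) (.one (nat_lit 705693827) .nil)),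
   .two (nat_lit 8388616) (nat_lit 4632608794) (.two (nat_lit 8388609) (nat_lit 3458204370) (.one (nat_lit 21778925759) .nil)),
   .two (nat_lit 713031688) (nat_lit 68157448) (.two (nat_lit 41943045) (nat_lit 1343225880) (.two (nat_lit 4194305) (nat_lit 142606456) (.two (nat_lit 1048576) (nat_lit 1920991896) (.one (nat_lit 1317013708) .nil)))),
   .two (nat_lit 184549384) (nat_lit 159224168463) (.two (nat_lit 8388609) (nat_lit 71303527) (.one (nat_lit 654312845) .nil)),
   .two (nat_lit 159217877000) (nat_lit 880803852) (.two (nat_lit 13195280389) (nat_lit 9934209039) (.two (nat_lit 41943041) (nat_lit 166230753638) (.one (nat_lit 1210058133) .nil))),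
   .two (nat_lit 10370416648) (nat_lit 28690087949) (.two (nat_lit 2097157) (nat_lit 4605345807) (.two (nat_lit 2097153) (nat_lit 9940500737) (.two (nat_lit 1048576) (nat_lit 10913580085) (.one (nat_lit 159250384968) .nil)))),
   .two (nat_lit 20637024264) (nat_lit 165532401677) (.two (nat_lit 47555018757) (nat_lit 21207449624) (.two (nat_lit 4194305) (nat_lit 159216828680) (.two (nat_lit 4194304) (nat_lit 21785215633) (.one (nat_lit 8390969) .nil)))),
   .two (nat_lit 9766436872) (nat_lit 4613734408) (.two (nat_lit 13195280389) (nat_lit 183845781570) (.two (nat_lit 8388608) (nat_lit 303038822) (.one (nat_lit 1050938) .nil))),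
   .two (nat_lit 620757000) (nat_lit 46978301960) (.two (nat_lit 3525312517) (nat_lit 47563407383) (.two (nat_lit 2097153) (nat_lit 1358954604) (.two (nat_lit 2097152) (nat_lit 165540790902) (.one (nat_lit 183846831493) .nil)))),
   .two (nat_lit 1277165576) (nat_lit 159224168515) (.two (nat_lit 2097152) (nat_lit 645923926) (.one (nat_lit 2323646577) .nil)),
   .two (nat_lit 41943048) (nat_lit 843055171) (.two (nat_lit 8388608) (nat_lit 4195430) (.one (nat_lit 4196667) .nil)),
   .two (nat_lit 9940500488) (nat_lit 46474985537) (.two (nat_lit 4194304) (nat_lit 159217877623) (.one (nat_lit 2099516) .nil)),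
   .two (nat_lit 1779433480) (nat_lit 11484004378) (.two (nat_lit 605028353) (nat_lit 20644365004) (.one (nat_lit 8390973) .nil)),
   .two (nat_lit 813694984) (nat_lit 9866051597) (.two (nat_lit 34603013) (nat_lit 8388623) (.two (nat_lit 2097153) (nat_lit 168820861) (.two (nat_lit 4194304) (nat_lit 174753579650) (.one (nat_lit 1914701956) .nil)))),
   .two (nat_lit 1178599432) (nat_lit 1914699788) (.two (nat_lit 2097157) (nat_lit 75497487) (.two (nat_lit 2097153) (nat_lit 21781020794) (.two (nat_lit 1048576) (nat_lit 156365750631) (.one (nat_lit 8390974) .nil)))),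
   .two (nat_lit 276824072) (nat_lit 10506731528) (.two (nat_lit 2956984325) (nat_lit 46481276954) (.two (nat_lit 9766436865) (nat_lit 10537140291) (.two (nat_lit 2097152) (nat_lit 705692341) (.one (nat_lit 675285293) .nil)))),
   .two (nat_lit 169869320) (nat_lit 285212687) (.two (nat_lit 16777217) (nat_lit 184417255547) (.two (nat_lit 1048576) (nat_lit 159266112119) (.one (nat_lit 16779583) .nil))),
   .two (nat_lit 68157448) (nat_lit 47555018760) (.two (nat_lit 605028357) (nat_lit 209715225) (.two (nat_lit 34603009) (nat_lit 1950351492) (.two (nat_lit 4194304) (nat_lit 1410335374) (.one (nat_lit 1050944) .nil)))),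
   .two (nat_lit 169869320) (nat_lit 13195280451) (.two (nat_lit 1048576) (nat_lit 12618564207) (.one (nat_lit 11477715134) .nil)),
   .two (nat_lit 4194312) (nat_lit 10940841999) (.two (nat_lit 34603009) (nat_lit 159219974269) (.two (nat_lit 1048576) (nat_lit 159217877690) (.one (nat_lit 269486150) .nil))),
   .two (nat_lit 16777224) (nat_lit 705691656) (.two (nat_lit 705691652) (nat_lit 9799991337) (.two (nat_lit 41943041) (nat_lit 158177689959) (.one (nat_lit 873465958) .nil))),
   .two (nat_lit 12054429704) (nat_lit 272629773) (.two (nat_lit 272629765) (nat_lit 184993972291) (.two (nat_lit 1048576) (nat_lit 1384120515) (.one (nat_lit 158179788931) .nil))),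
   .two (nat_lit 184416206856) (nat_lit 9881780238) (.two (nat_lit 754974725) (nat_lit 184416206863) (.two (nat_lit 16777217) (nat_lit 4028629058) (.two (nat_lit 4194304) (nat_lit 12148801897) (.one (nat_lit 2099521) .nil)))),
   .two (nat_lit 12117344264) (nat_lit 10343153679) (.two (nat_lit 8388609) (nat_lit 28693233731) (.two (nat_lit 4194304) (nat_lit 2357199519) (.one (nat_lit 19096668387) .nil))),
   .two (nat_lit 184549384) (nat_lit 612368410) (.two (nat_lit 16777217) (nat_lit 1920991495) (.two (nat_lit 8388608) (nat_lit 47563408074) (.one (nat_lit 8390978) .nil))),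
   .two (nat_lit 1358954504) (nat_lit 10343153678) (.two (nat_lit 159224168453) (nat_lit 1358954511) (.two (nat_lit 50331649) (nat_lit 9969860726) (.two (nat_lit 2097152) (nat_lit 2353004901) (.one (nat_lit 8390979) .nil)))),
   .two (nat_lit 75497480) (nat_lit 183848927245) (.two (nat_lit 708837381) (nat_lit 21785214991) (.two (nat_lit 4194305) (nat_lit 1954546339) (.one (nat_lit 109054042) .nil))),
   .two (nat_lit 28772925448) (nat_lit 10942939184) (.two (nat_lit 4194305) (nat_lit 21827158132) (.two (nat_lit 1048576) (nat_lit 9936306535) (.one (nat_lit 16779588) .nil))),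
   .two (nat_lit 641728520) (nat_lit 1947205656) (.two (nat_lit 4194305) (nat_lit 28790751345) (.two (nat_lit 1048576) (nat_lit 276824719) (.one (nat_lit 9873393875) .nil))),
   .two (nat_lit 169869320) (nat_lit 11618222093) (.two (nat_lit 34603013) (nat_lit 19134414892) (.two (nat_lit 8388609) (nat_lit 46978302584) (.one (nat_lit 739247399) .nil))),
   .two (nat_lit 46407876616) (nat_lit 1426063373) (.two (nat_lit 83886085) (nat_lit 101711914) (.two (nat_lit 2097153) (nat_lit 46977253497) (.two (nat_lit 4194304) (nat_lit 156365750629) (.one (nat_lit 16779522) .nil)))),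
   .two (nat_lit 9948889096) (nat_lit 46474985497) (.two (nat_lit 2097153) (nat_lit 1426064001) (.one (nat_lit 20737688950) .nil)),
   .two (nat_lit 68157448) (nat_lit 184993972239) (.two (nat_lit 4194305) (nat_lit 19604177029) (.two (nat_lit 1048576) (nat_lit 11479810406) (.one (nat_lit 8390981) .nil))),
   .two (nat_lit 620757000) (nat_lit 20644364355) (.two (nat_lit 8388608) (nat_lit 150995304) (.one (nat_lit 3003123852) .nil)),
   .two (nat_lit 2961178632) (nat_lit 9781116943) (.two (nat_lit 16777217) (nat_lit 28697428091) (.two (nat_lit 1048576) (nat_lit 46984594064) (.one (nat_lit 37313578318) .nil))),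
   .two (nat_lit 83886088) (nat_lit 2889875464) (.two (nat_lit 272629765) (nat_lit 11559501839) (.two (nat_lit 4194305) (nat_lit 1929379973) (.two (nat_lit 16777216) (nat_lit 2353005254) (.one (nat_lit 4196682) .nil)))),
   .two (nat_lit 46978301960) (nat_lit 10338959375) (.two (nat_lit 4194305) (nat_lit 46508540571) (.one (nat_lit 2099532) .nil)),
   .two (nat_lit 612368392) (nat_lit 1276117018) (.two (nat_lit 8388609) (nat_lit 12617515133) (.two (nat_lit 8388608) (nat_lit 1049705) (.one (nat_lit 159257725020) .nil))),
   .two (nat_lit 159217877000) (nat_lit 166132187150) (.two (nat_lit 2956984325) (nat_lit 159217877007) (.two (nat_lit 2097153) (nat_lit 306184257) (.two (nat_lit 1048576) (nat_lit 37316723049) (.one (nat_lit 1846544466) .nil)))),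
   .two (nat_lit 158143086600) (nat_lit 9873391661) (.two (nat_lit 605028353) (nat_lit 343932993) (.two (nat_lit 1048576) (nat_lit 2927624555) (.one (nat_lit 739247493) .nil))),
   .two (nat_lit 1343225864) (nat_lit 9802088460) (.two (nat_lit 705691652) (nat_lit 1212153897) (.two (nat_lit 34603009) (nat_lit 2923429953) (.two (nat_lit 1048576) (nat_lit 11546919274) (.one (nat_lit 9765389613) .nil)))),
   .two (nat_lit 75497480) (nat_lit 739246088) (.two (nat_lit 11543773189) (nat_lit 184993972247) (.two (nat_lit 34603009) (nat_lit 10544480394) (.two (nat_lit 4194304) (nat_lit 156465366376) .nil))),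
   .two (nat_lit 705691656) (nat_lit 20644364296) (.two (nat_lit 41943045) (nat_lit 1343225871) (.two (nat_lit 41943041) (nat_lit 9866051651) (.two (nat_lit 8388608) (nat_lit 101712230) (.one (nat_lit 20738738223) .nil)))),
   .two (nat_lit 822083592) (nat_lit 2954887181) (.two (nat_lit 16777220) (nat_lit 11544821862) (.two (nat_lit 16777217) (nat_lit 673185903) (.two (nat_lit 1048576) (nat_lit 158647452340) (.one (nat_lit 166211881044) .nil)))),
   .two (nat_lit 1846542344) (nat_lit 11492393001) (.two (nat_lit 620756993) (nat_lit 158143087231) (.one (nat_lit 46473938242) .nil)),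
   .two (nat_lit 809500680) (nat_lit 11577327641) (.two (nat_lit 4194305) (nat_lit 11611931294) (.one (nat_lit 156969731446) .nil)),
   .two (nat_lit 11525947405) (nat_lit 1376780300) (.two (nat_lit 184549381) (nat_lit 184986632215) (.two (nat_lit 2097153) (nat_lit 47563407497) (.two (nat_lit 4194304) (nat_lit 12115247761) (.one (nat_lit 2887780665) .nil)))),
   .two (nat_lit 185002360840) (nat_lit 135266328) (.two (nat_lit 2097153) (nat_lit 16777326) (.two (nat_lit 1048576) (nat_lit 9814671981) (.one (nat_lit 1343227268) .nil))),
   .two (nat_lit 176160776) (nat_lit 19532873741) (.two (nat_lit 3527409669) (nat_lit 3464495144) (.two (nat_lit 4194305) (nat_lit 19134415208) (.one (nat_lit 37316724066) .nil))),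
   .two (nat_lit 50331656) (nat_lit 12617515022) (.two (nat_lit 806354949) (nat_lit 50331663) (.two (nat_lit 2097153) (nat_lit 46507491453) (.two (nat_lit 8388608) (nat_lit 19530777247) (.one (nat_lit 157036841058) .nil)))),
   .two (nat_lit 721420296) (nat_lit 166199296012) (.two (nat_lit 809500677) (nat_lit 721420303) (.two (nat_lit 37748737) (nat_lit 9814671491) (.two (nat_lit 8388608) (nat_lit 2889876073) (.one (nat_lit 28693235825) .nil)))),
   .two (nat_lit 205520904) (nat_lit 183853121551) (.two (nat_lit 605028353) (nat_lit 8388747) (.two (nat_lit 1048576) (nat_lit 109052522) (.one (nat_lit 10540288028) .nil))),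
   .two (nat_lit 47548727304) (nat_lit 165525061640) (.two (nat_lit 3458203653) (nat_lit 9933160474) (.two (nat_lit 16777217) (nat_lit 183913939072) (.two (nat_lit 16777216) (nat_lit 21812479340) .nil))),
   .two (nat_lit 9948889096) (nat_lit 9866051599) (.two (nat_lit 8388609) (nat_lit 1410335348) (.one (nat_lit 10537142513) .nil)),
   .two (nat_lit 83886088) (nat_lit 28758245388) (.two (nat_lit 10370416645) (nat_lit 11559501839) (.two (nat_lit 2097153) (nat_lit 285213390) (.one (nat_lit 3472885037) .nil))),
   .two (nat_lit 612368392) (nat_lit 10000269325) (.two (nat_lit 9866051589) (nat_lit 104857615) (.two (nat_lit 34603009) (nat_lit 20640170604) (.one (nat_lit 71305412) .nil))),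
   .two (nat_lit 41943048) (nat_lit 13221494810) (.two (nat_lit 4194305) (nat_lit 11476664434) (.two (nat_lit 4194304) (nat_lit 28790751873) (.one (nat_lit 1050959) .nil))),
   .two (nat_lit 158083317768) (nat_lit 2350907405) (.two (nat_lit 11492392965) (nat_lit 158083317775) (.two (nat_lit 16777217) (nat_lit 21785215043) (.two (nat_lit 2097152) (nat_lit 780140902) (.one (nat_lit 8390992) .nil)))),
   .two (nat_lit 169869320) (nat_lit 2994733123) (.two (nat_lit 2097152) (nat_lit 46977253999) (.one (nat_lit 612370747) .nil)),
   .two (nat_lit 50331656) (nat_lit 806354956) (.two (nat_lit 34603013) (nat_lit 50331663) (.two (nat_lit 2097153) (nat_lit 18925748361) (.two (nat_lit 16777216) (nat_lit 2098283) (.one (nat_lit 19027462278) .nil)))),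
   .two (nat_lit 9948889096) (nat_lit 19130220558) (.two (nat_lit 272629765) (nat_lit 46523219994) (.two (nat_lit 16777217) (nat_lit 11479810187) (.two (nat_lit 1048576) (nat_lit 4195436) (.one (nat_lit 34605107) .nil)))),
   .two (nat_lit 822083592) (nat_lit 158083317775) (.two (nat_lit 16777217) (nat_lit 1753219139) (.two (nat_lit 4194304) (nat_lit 158150427314) (.one (nat_lit 8390994) .nil))),
   .two (nat_lit 75497480) (nat_lit 47582281751) (.two (nat_lit 2097153) (nat_lit 41943175) (.two (nat_lit 8388608) (nat_lit 20738736768) (.one (nat_lit 2927625542) .nil))),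
   .two (nat_lit 169869320) (nat_lit 46510637080) (.two (nat_lit 2097153) (nat_lit 4634706029) (.two (nat_lit 1048576) (nat_lit 10372514429) (.one (nat_lit 1050963) .nil))),
   .two (nat_lit 159224168456) (nat_lit 11513364494) (.two (nat_lit 171966469) (nat_lit 159224168463) (.two (nat_lit 8388609) (nat_lit 3527409729) (.two (nat_lit 1048576) (nat_lit 4195438) (.one (nat_lit 4196692) .nil)))),
   .two (nat_lit 822083592) (nat_lit 20738736142) (.two (nat_lit 2097157) (nat_lit 822083599) (.two (nat_lit 2097153) (nat_lit 28772925568) (.two (nat_lit 1048576) (nat_lit 1948254569) (.one (nat_lit 12617517142) .nil)))),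
   .two (nat_lit 272629768) (nat_lit 156365750287) (.two (nat_lit 16777217) (nat_lit 11010048631) (.one (nat_lit 4196693) .nil)),
   .two (nat_lit 639631368) (nat_lit 21811429388) (.two (nat_lit 21777874949) (nat_lit 639631375) (.two (nat_lit 605028353) (nat_lit 3558867010) (.two (nat_lit 1048576) (nat_lit 1176502943) (.one (nat_lit 1050966) .nil)))),
   .two (nat_lit 11492392968) (nat_lit 9906946061) (.two (nat_lit 9873391621) (nat_lit 754974834) (.two (nat_lit 4194304) (nat_lit 166144770676) (.one (nat_lit 8390999) .nil))),
   .two (nat_lit 276824072) (nat_lit 183949590551) (.two (nat_lit 605028353) (nat_lit 13224641200) (.one (nat_lit 4196696) .nil)),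
   .two (nat_lit 1343225864) (nat_lit 156971827208) (.two (nat_lit 19599982597) (nat_lit 1343225871) (.two (nat_lit 34603009) (nat_lit 306184805) (.one (nat_lit 1950353628) .nil))),
   .two (nat_lit 101711880) (nat_lit 156567076912) (.two (nat_lit 50331649) (nat_lit 10503586495) (.one (nat_lit 157035791661) .nil)),
   .two (nat_lit 4605345800) (nat_lit 9899606030) (.two (nat_lit 34603013) (nat_lit 4605345807) (.two (nat_lit 4194305) (nat_lit 235929961) (.one (nat_lit 1050969) .nil))),
   .two (nat_lit 4194312) (nat_lit 184549399) (.two (nat_lit 37748737) (nat_lit 3557818486) (.two (nat_lit 1048576) (nat_lit 16777904) (.one (nat_lit 159232559353) .nil))),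
   .two (nat_lit 184419352584) (nat_lit 158075977736) (.two (nat_lit 21777874949) (nat_lit 47584379007) (.two (nat_lit 1048576) (nat_lit 1379926679) (.one (nat_lit 4196698) .nil))),
   .two (nat_lit 16777224) (nat_lit 1947205646) (.two (nat_lit 9933160453) (nat_lit 19109249157) (.two (nat_lit 4194304) (nat_lit 9966715570) (.one (nat_lit 1050971) .nil))),
   .two (nat_lit 654311432) (nat_lit 46407876616) (.two (nat_lit 654311429) (nat_lit 183845781519) (.two (nat_lit 2097153) (nat_lit 10955522171) (.two (nat_lit 2097152) (nat_lit 4647289530) (.one (nat_lit 28791801970) .nil)))),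
   .two (nat_lit 203423752) (nat_lit 1916796940) (.two (nat_lit 272629765) (nat_lit 639631375) (.two (nat_lit 4194305) (nat_lit 4632609458) (.one (nat_lit 8391004) .nil))),
   .two (nat_lit 176160776) (nat_lit 165525061647) (.two (nat_lit 8388609) (nat_lit 156465365249) (.two (nat_lit 16777216) (nat_lit 880804502) (.one (nat_lit 166203492613) .nil))),
   .two (nat_lit 11476664328) (nat_lit 1178599439) (.two (nat_lit 37748737) (nat_lit 1410335412) (.one (nat_lit 1050973) .nil)),
   .two (nat_lit 809500680) (nat_lit 1410334768) (.two (nat_lit 16777217) (nat_lit 2920284519) (.one (nat_lit 4196702) .nil)),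
   .two (nat_lit 28693233672) (nat_lit 37314625549) (.two (nat_lit 10504634373) (nat_lit 19599982659) (.two (nat_lit 2097152) (nat_lit 12620661094) (.one (nat_lit 16779615) .nil))),
   .two (nat_lit 41943048) (nat_lit 37246468109) (.two (nat_lit 28086108165) (nat_lit 4605345858) (.two (nat_lit 1048576) (nat_lit 37320917626) (.one (nat_lit 605030505) .nil))),
   .two (nat_lit 9866051592) (nat_lit 1753219087) (.two (nat_lit 605028353) (nat_lit 166237044867) (.two (nat_lit 1048576) (nat_lit 1920991927) (.one (nat_lit 672139279) .nil))),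
   .two (nat_lit 101711880) (nat_lit 159251431470) (.two (nat_lit 34603009) (nat_lit 236978301) (.two (nat_lit 4194304) (nat_lit 11477713548) (.one (nat_lit 37247518015) .nil))),
   .two (nat_lit 272629768) (nat_lit 41943053) (.two (nat_lit 41943045) (nat_lit 272629775) (.two (nat_lit 41943041) (nat_lit 809500782) (.two (nat_lit 2097152) (nat_lit 174688567917) (.one (nat_lit 20705183096) .nil)))),
   .two (nat_lit 3458203656) (nat_lit 166129041416) (.two (nat_lit 47548727301) (nat_lit 101711898) (.two (nat_lit 8388609) (nat_lit 183845781616) (.two (nat_lit 8388608) (nat_lit 10437526135) (.one (nat_lit 9900656973) .nil)))),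
   .two (nat_lit 11479810056) (nat_lit 12147752983) (.two (nat_lit 37748737) (nat_lit 19596836984) (.two (nat_lit 4194304) (nat_lit 4598006404) (.one (nat_lit 166229707084) .nil))),
   .two (nat_lit 2887778312) (nat_lit 166245433369) (.two (nat_lit 2097153) (nat_lit 10436477600) (.one (nat_lit 28791801902) .nil)),
   .two (nat_lit 205520904) (nat_lit 1291845640) (.two (nat_lit 9933160453) (nat_lit 158158815256) (.two (nat_lit 9765388289) (nat_lit 10942939244) (.two (nat_lit 16777216) (nat_lit 47581234565) .nil))),
   .two (nat_lit 12047089672) (nat_lit 1795162137) (.two (nat_lit 34603009) (nat_lit 285212782) (.two (nat_lit 8388608) (nat_lit 183912891056) (.one (nat_lit 1050976) .nil))),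
   .two (nat_lit 169869320) (nat_lit 83886088) (.two (nat_lit 34603013) (nat_lit 21793603608) (.two (nat_lit 34603009) (nat_lit 4028629249) (.two (nat_lit 16777216) (nat_lit 21811430048) (.one (nat_lit 165525064029) .nil)))),
   .two (nat_lit 2889875464) (nat_lit 165532401677) (.two (nat_lit 9933160453) (nat_lit 20644364303) (.two (nat_lit 9765388289) (nat_lit 156573368582) (.two (nat_lit 1048576) (nat_lit 4195439) (.one (nat_lit 1050977) .nil)))),
   .two (nat_lit 276824072) (nat_lit 174753579020) (.two (nat_lit 8388612) (nat_lit 1780482096) (.two (nat_lit 34603009) (nat_lit 304087158) (.two (nat_lit 1048576) (nat_lit 9967764075) (.one (nat_lit 2424309837) .nil)))),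
   .two (nat_lit 46414168072) (nat_lit 21811429388) (.two (nat_lit 4605345797) (nat_lit 1745879176) (.two (nat_lit 1048576) (nat_lit 12155093351) (.one (nat_lit 158183982393) .nil))),
   .two (nat_lit 3539992584) (nat_lit 158083317801) (.two (nat_lit 612368385) (nat_lit 336593015) (.two (nat_lit 1048576) (nat_lit 880804459) (.one (nat_lit 166129043487) .nil))),
   .two (nat_lit 9781116936) (nat_lit 20638072840) (.two (nat_lit 721420293) (nat_lit 18926796848) (.two (nat_lit 16777217) (nat_lit 270532739) (.two (nat_lit 8388608) (nat_lit 2098289) (.one (nat_lit 13195281742) .nil)))),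
   .two (nat_lit 1178599432) (nat_lit 117440537) (.two (nat_lit 37748737) (nat_lit 46514832003) (.one (nat_lit 1379928342) .nil)),
   .two (nat_lit 1343225864) (nat_lit 10336862221) (.two (nat_lit 9866051589) (nat_lit 9967763496) (.two (nat_lit 34603009) (nat_lit 28758245497) (.two (nat_lit 16777216) (nat_lit 12617515636) (.one (nat_lit 1050979) .nil)))),
   .two (nat_lit 2954887176) (nat_lit 18928893965) (.two (nat_lit 18928893957) (nat_lit 2954887183) (.two (nat_lit 4194305) (nat_lit 20738736835) (.one (nat_lit 10001320148) .nil))),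
   .two (nat_lit 101711880) (nat_lit 12054429704) (.two (nat_lit 184993972229) (nat_lit 101711887) (.two (nat_lit 34603009) (nat_lit 343932993) (.two (nat_lit 1048576) (nat_lit 8389340) (.one (nat_lit 8391012) .nil)))),
   .two (nat_lit 11543773192) (nat_lit 158144135176) (.two (nat_lit 705691652) (nat_lit 10370416655) (.two (nat_lit 34603009) (nat_lit 9934209091) (.two (nat_lit 1048576) (nat_lit 47582281923) (.one (nat_lit 2099557) .nil)))),
   .two (nat_lit 205520904) (nat_lit 12054429761) (.two (nat_lit 1048576) (nat_lit 21785215171) (.one (nat_lit 4196710) .nil)),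
   .two (nat_lit 639631368) (nat_lit 1212153870) (.two (nat_lit 4601151493) (nat_lit 639631375) (.two (nat_lit 4194305) (nat_lit 3558867010) (.two (nat_lit 4194304) (nat_lit 773849447) (.one (nat_lit 158143087980) .nil)))),
   .two (nat_lit 1358954508) (nat_lit 156372041740) (.two (nat_lit 83886085) (nat_lit 28093448207) (.two (nat_lit 16777217) (nat_lit 243269752) (.two (nat_lit 8388608) (nat_lit 46422557031) (.one (nat_lit 16779623) .nil)))),
   .two (nat_lit 41943048) (nat_lit 11492392975) (.two (nat_lit 8388609) (nat_lit 47563407479) (.two (nat_lit 16777216) (nat_lit 2894070457) (.one (nat_lit 158192371011) .nil))),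
   .two (nat_lit 2961178632) (nat_lit 11559501832) (.two (nat_lit 721420292) (nat_lit 20704133240) (.two (nat_lit 1048576) (nat_lit 8389746) (.one (nat_lit 2894072138) .nil))),
   .two (nat_lit 50331656) (nat_lit 46984593416) (.two (nat_lit 3531603973) (nat_lit 12163481732) (.two (nat_lit 1048576) (nat_lit 10015998682) (.one (nat_lit 3457157435) .nil))),
   .two (nat_lit 4194312) (nat_lit 9766436879) (.two (nat_lit 8388609) (nat_lit 19029557608) (.one (nat_lit 46407878792) .nil)),
   .two (nat_lit 11492392968) (nat_lit 10370416648) (.two (nat_lit 822083589) (nat_lit 10907287677) (.two (nat_lit 16777216) (nat_lit 37247517036) (.one (nat_lit 166130090851) .nil))),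
   .two (nat_lit 10538188812) (nat_lit 11543773198) (.two (nat_lit 1779433477) (nat_lit 1344274477) (.two (nat_lit 34603009) (nat_lit 11511267454) (.two (nat_lit 2097152) (nat_lit 13221495472) (.one (nat_lit 156465366351) .nil)))),
   .two (nat_lit 156367847432) (nat_lit 158083317775) (.two (nat_lit 612368385) (nat_lit 9802088727) (.two (nat_lit 2097152) (nat_lit 1849688428) (.one (nat_lit 158649551166) .nil))),
   .two (nat_lit 1191182344) (nat_lit 184419352584) (.two (nat_lit 12117344261) (nat_lit 183928619031) (.two (nat_lit 37748737) (nat_lit 10385096812) (.two (nat_lit 4194304) (nat_lit 37262197366) (.one (nat_lit 809502088) .nil)))),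
   .two (nat_lit 16777224) (nat_lit 18933088271) (.two (nat_lit 16777217) (nat_lit 166237044862) (.two (nat_lit 8388608) (nat_lit 285212867) (.one (nat_lit 20753418258) .nil))),
   .two (nat_lit 101711880) (nat_lit 158083317768) (.two (nat_lit 11476664324) (nat_lit 20644364303) (.two (nat_lit 34603009) (nat_lit 12624855401) (.one (nat_lit 8391016) .nil))),
   .two (nat_lit 705691656) (nat_lit 285212680) (.two (nat_lit 34603013) (nat_lit 46422556697) (.two (nat_lit 50331649) (nat_lit 806355203) (.two (nat_lit 2097152) (nat_lit 772801160) (.one (nat_lit 1277167732) .nil)))),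
   .two (nat_lit 639631368) (nat_lit 156372041740) (.two (nat_lit 2887778308) (nat_lit 1753219112) (.two (nat_lit 2097153) (nat_lit 183853121601) (.two (nat_lit 2097152) (nat_lit 2961178985) (.one (nat_lit 8391017) .nil)))),
   .two (nat_lit 1291845640) (nat_lit 158144135193) (.two (nat_lit 4194305) (nat_lit 2902458486) (.two (nat_lit 4194304) (nat_lit 159232557711) (.one (nat_lit 239077399) .nil))),
   .two (nat_lit 50331656) (nat_lit 1277165576) (.two (nat_lit 16777220) (nat_lit 2954887215) (.two (nat_lit 16777217) (nat_lit 2317353324) (.one (nat_lit 2099562) .nil))),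
   .two (nat_lit 184549384) (nat_lit 1950351402) (.two (nat_lit 16777217) (nat_lit 11513364545) (.two (nat_lit 8388608) (nat_lit 2432697683) .nil)),
   .two (nat_lit 809500680) (nat_lit 3525312527) (.two (nat_lit 4194305) (nat_lit 46474985580) (.two (nat_lit 4194304) (nat_lit 47548728001) (.one (nat_lit 158079124846) .nil))),
   .two (nat_lit 809500680) (nat_lit 1358954511) (.two (nat_lit 4194305) (nat_lit 285212796) (.two (nat_lit 16777216) (nat_lit 675283654) (.one (nat_lit 4196715) .nil))),
   .two (nat_lit 4605345800) (nat_lit 20638072840) (.two (nat_lit 9934209029) (nat_lit 1216348227) (.two (nat_lit 8388608) (nat_lit 773849783) (.one (nat_lit 47548728164) .nil))),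
   .two (nat_lit 1745879048) (nat_lit 156969730056) (.two (nat_lit 2097157) (nat_lit 16777231) (.two (nat_lit 37748737) (nat_lit 156968682143) (.one (nat_lit 16779628) .nil))),
   .two (nat_lit 41943048) (nat_lit 3458203656) (.two (nat_lit 75497477) (nat_lit 203423759) (.two (nat_lit 2097153) (nat_lit 75497582) (.two (nat_lit 4194304) (nat_lit 639631717) (.one (nat_lit 2099565) .nil)))),
   .two (nat_lit 117440520) (nat_lit 184416206863) (.two (nat_lit 34603009) (nat_lit 2902459033) (.one (nat_lit 158143088003) .nil)),
   .two (nat_lit 16777224) (nat_lit 20638072845) (.two (nat_lit 69206021) (nat_lit 16777281) (.two (nat_lit 2097152) (nat_lit 318767468) (.one (nat_lit 69208352) .nil))),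
   .two (nat_lit 183853121544) (nat_lit 1358954508) (.two (nat_lit 83886085) (nat_lit 11584667715) (.two (nat_lit 16777216) (nat_lit 847249771) (.one (nat_lit 166237046099) .nil))),
   .two (nat_lit 50331656) (nat_lit 9934209039) (.two (nat_lit 16777217) (nat_lit 159251431532) (.two (nat_lit 16777216) (nat_lit 184987681398) (.one (nat_lit 1210058984) .nil))),
   .two (nat_lit 68157448) (nat_lit 75497487) (.two (nat_lit 34603009) (nat_lit 46510637121) (.two (nat_lit 1048576) (nat_lit 11479810406) (.one (nat_lit 4196718) .nil))),
   .two (nat_lit 9768534024) (nat_lit 1779433486) (.two (nat_lit 705691652) (nat_lit 876609562) (.two (nat_lit 34603009) (nat_lit 37249613962) (.two (nat_lit 1048576) (nat_lit 4195445) (.one (nat_lit 166196151679) .nil)))),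
   .two (nat_lit 1916796936) (nat_lit 28691136535) (.two (nat_lit 37748737) (nat_lit 19597886128) (.one (nat_lit 2099567) .nil)),
   .two (nat_lit 1291845640) (nat_lit 13191086088) (.two (nat_lit 4194308) (nat_lit 1291845744) (.two (nat_lit 16777216) (nat_lit 9768535430) .nil)),
   .two (nat_lit 1779433480) (nat_lit 156971827215) (.two (nat_lit 9765388289) (nat_lit 9802088556) (.two (nat_lit 1048576) (nat_lit 4195039) (.one (nat_lit 2349860162) .nil))),
   .two (nat_lit 183845781512) (nat_lit 11513364493) (.two (nat_lit 708837381) (nat_lit 1745879055) (.two (nat_lit 2097153) (nat_lit 46409973875) (.two (nat_lit 2097152) (nat_lit 156971827857) (.one (nat_lit 2954888568) .nil)))),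
   .two (nat_lit 2887778312) (nat_lit 183949590551) (.two (nat_lit 34603009) (nat_lit 12618563702) (.two (nat_lit 1048576) (nat_lit 4601152132) (.one (nat_lit 37249615915) .nil))),
   .two (nat_lit 16777224) (nat_lit 2887778312) (.two (nat_lit 184549380) (nat_lit 236978200) (.two (nat_lit 2097153) (nat_lit 11492393090) (.two (nat_lit 2097152) (nat_lit 34603684) (.one (nat_lit 13237225629) .nil)))),
   .two (nat_lit 620757000) (nat_lit 11476664362) (.two (nat_lit 2097153) (nat_lit 10939793765) (.one (nat_lit 16779632) .nil)),
   .two (nat_lit 11543773192) (nat_lit 156372041743) (.two (nat_lit 8388609) (nat_lit 166196150397) (.two (nat_lit 8388608) (nat_lit 11543773547) (.one (nat_lit 109053267) .nil))),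
   .two (nat_lit 11559501832) (nat_lit 12047089679) (.two (nat_lit 34603009) (nat_lit 1426063470) (.two (nat_lit 1048576) (nat_lit 9781117607) (.one (nat_lit 16779633) .nil))),
   .two (nat_lit 8388616) (nat_lit 2902458376) (.two (nat_lit 41943045) (nat_lit 3539992599) (.two (nat_lit 16777217) (nat_lit 75497610) (.two (nat_lit 16777216) (nat_lit 8389751) (.one (nat_lit 184431936908) .nil)))),
   .two (nat_lit 11479810056) (nat_lit 47555018764) (.two (nat_lit 176160773) (nat_lit 11479810063) (.two (nat_lit 8388609) (nat_lit 11479810114) (.two (nat_lit 8388608) (nat_lit 19096666825) (.one (nat_lit 47550825785) .nil)))),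
   .two (nat_lit 11543773192) (nat_lit 174753579023) (.two (nat_lit 34603009) (nat_lit 1277165700) (.two (nat_lit 1048576) (nat_lit 46407877259) (.one (nat_lit 28690089347) .nil))),
   .two (nat_lit 4194312) (nat_lit 165526110233) (.two (nat_lit 4194305) (nat_lit 165525062299) (.one (nat_lit 2319451517) .nil)),
   .two (nat_lit 176160776) (nat_lit 18925748239) (.two (nat_lit 16777217) (nat_lit 158075977976) (.two (nat_lit 16777216) (nat_lit 1049313) (.one (nat_lit 159224170747) .nil))),
   .two (nat_lit 11559501837) (nat_lit 157038936076) (.two (nat_lit 822083589) (nat_lit 156971827267) (.two (nat_lit 4194304) (nat_lit 185002361519) (.one (nat_lit 19096668499) .nil))),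
   .two (nat_lit 606076936) (nat_lit 276824072) (.two (nat_lit 809500677) (nat_lit 183946444866) (.two (nat_lit 4194304) (nat_lit 269484390) (.one (nat_lit 269486179) .nil))),
   .two (nat_lit 654311432) (nat_lit 12114198536) (.two (nat_lit 605028357) (nat_lit 3539992600) (.two (nat_lit 4194305) (nat_lit 21207450263) (.one (nat_lit 166245434736) .nil))),
   .two (nat_lit 1749024776) (nat_lit 1753219087) (.two (nat_lit 4194305) (nat_lit 12163481958) (.one (nat_lit 159266113695) .nil)),
   .two (nat_lit 620757000) (nat_lit 13221494797) (.two (nat_lit 2097157) (nat_lit 184549391) (.two (nat_lit 2097153) (nat_lit 1426063427) (.two (nat_lit 2097152) (nat_lit 889192806) (.one (nat_lit 1050999) .nil)))),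
   .two (nat_lit 50331656) (nat_lit 183845781530) (.two (nat_lit 50331649) (nat_lit 9866051722) (.two (nat_lit 16777216) (nat_lit 1049721) (.one (nat_lit 9814672773) .nil))),
   .two (nat_lit 276824072) (nat_lit 754974728) (.two (nat_lit 8388613) (nat_lit 13203669018) (.two (nat_lit 34603009) (nat_lit 46523220676) (.one (nat_lit 2432697741) .nil))),
   .two (nat_lit 4634705933) (nat_lit 19596836878) (.two (nat_lit 272629765) (nat_lit 235929726) (.two (nat_lit 1048576) (nat_lit 10909385346) (.one (nat_lit 1779434339) .nil))),
   .two (nat_lit 101711880) (nat_lit 21785215001) (.two (nat_lit 34603009) (nat_lit 243270273) (.one (nat_lit 8391033) .nil)),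
   .two (nat_lit 285212680) (nat_lit 11476664328) (.two (nat_lit 2097157) (nat_lit 3539992600) (.two (nat_lit 34603009) (nat_lit 3458203769) (.two (nat_lit 16777216) (nat_lit 1049724) (.one (nat_lit 68158802) .nil)))),
   .two (nat_lit 4605345800) (nat_lit 19530776589) (.two (nat_lit 8388613) (nat_lit 19530776600) (.two (nat_lit 2097153) (nat_lit 4605345857) (.two (nat_lit 16777216) (nat_lit 847249765) (.one (nat_lit 2099578) .nil)))),
   .two (nat_lit 721420296) (nat_lit 21207449608) (.two (nat_lit 822083589) (nat_lit 21777874969) (.two (nat_lit 605028353) (nat_lit 2332033162) (.two (nat_lit 2097152) (nat_lit 46473938286) .nil))),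
   .two (nat_lit 68157448) (nat_lit 1780482056) (.two (nat_lit 1176502277) (nat_lit 46477082650) (.two (nat_lit 41943041) (nat_lit 20738736491) (.one (nat_lit 4196731) .nil))),
   .two (nat_lit 12047089672) (nat_lit 28691136520) (.two (nat_lit 9934209029) (nat_lit 1209008152) (.two (nat_lit 41943041) (nat_lit 1376780408) (.two (nat_lit 8388608) (nat_lit 19596837513) (.one (nat_lit 1051004) .nil)))),
   .two (nat_lit 8388616) (nat_lit 28693233672) (.two (nat_lit 4605345797) (nat_lit 183916036143) (.two (nat_lit 8388609) (nat_lit 2923430013) (.two (nat_lit 4194304) (nat_lit 10007609539) (.one (nat_lit 8391037) .nil)))),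
   .two (nat_lit 9934209032) (nat_lit 166132187144) (.two (nat_lit 169869316) (nat_lit 46477082671) (.two (nat_lit 2097153) (nat_lit 2990539114) (.one (nat_lit 4196737) .nil))),
   .two (nat_lit 11543773192) (nat_lit 158144135176) (.two (nat_lit 705691652) (nat_lit 10370416655) (.two (nat_lit 34603009) (nat_lit 20738736193) (.two (nat_lit 1048576) (nat_lit 47582281923) (.one (nat_lit 2099587) .nil)))),
   .two (nat_lit 272629768) (nat_lit 166230753293) (.two (nat_lit 10370416645) (nat_lit 272629775) (.two (nat_lit 2097153) (nat_lit 2889875523) (.two (nat_lit 16777216) (nat_lit 156365751651) .nil))),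
   .two (nat_lit 2969567240) (nat_lit 183848927245) (.two (nat_lit 171966469) (nat_lit 620757007) (.two (nat_lit 4194305) (nat_lit 3557818493) (.two (nat_lit 2097152) (nat_lit 19093521026) (.one (nat_lit 19529730420) .nil)))),
   .two (nat_lit 12117344264) (nat_lit 11014242346) (.two (nat_lit 37748737) (nat_lit 3028287553) (.two (nat_lit 16777216) (nat_lit 2889876869) .nil)),
   .two (nat_lit 754974728) (nat_lit 4605345800) (.two (nat_lit 8388613) (nat_lit 13203669018) (.two (nat_lit 9768534017) (nat_lit 12062819023) (.one (nat_lit 2432697741) .nil))),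
   .two (nat_lit 9948889096) (nat_lit 183949590542) (.two (nat_lit 171966469) (nat_lit 9948889103) (.two (nat_lit 4194305) (nat_lit 1929379968) (.two (nat_lit 1048576) (nat_lit 28793897321) (.one (nat_lit 158176643131) .nil)))),
   .two (nat_lit 183845781512) (nat_lit 654311464) (.two (nat_lit 2097153) (nat_lit 2902458433) (.two (nat_lit 1048576) (nat_lit 185002361193) (.one (nat_lit 10503588129) .nil))),
   .two (nat_lit 754974728) (nat_lit 28086108175) (.two (nat_lit 605028353) (nat_lit 16777281) (.two (nat_lit 1048576) (nat_lit 183962173803) (.one (nat_lit 16779652) .nil))),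
   .two (nat_lit 37748744) (nat_lit 37313576972) (.two (nat_lit 4194308) (nat_lit 1276117040) (.two (nat_lit 2097153) (nat_lit 13187940470) (.two (nat_lit 2097152) (nat_lit 19093521003) (.one (nat_lit 1413482731) .nil)))),
   .two (nat_lit 46414168072) (nat_lit 236978242) (.two (nat_lit 8388608) (nat_lit 773849719) (.one (nat_lit 11007953237) .nil)),
   .two (nat_lit 83886088) (nat_lit 9768534031) (.two (nat_lit 50331649) (nat_lit 1279262843) (.two (nat_lit 16777216) (nat_lit 12620661434) (.one (nat_lit 46978304083) .nil))),
   .two (nat_lit 1178599432) (nat_lit 3558866967) (.two (nat_lit 37748737) (nat_lit 156567077590) (.one (nat_lit 2887780599) .nil)),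
   .two (nat_lit 184993972232) (nat_lit 47582281740) (.two (nat_lit 713031685) (nat_lit 47582281769) (.two (nat_lit 8388609) (nat_lit 1377829226) (.one (nat_lit 19094571179) .nil))),
   .two (nat_lit 16777224) (nat_lit 2887778312) (.two (nat_lit 184549380) (nat_lit 183846830218) (.two (nat_lit 1048576) (nat_lit 2988442288) (.one (nat_lit 2887780504) .nil))),
   .two (nat_lit 37748744) (nat_lit 11559501832) (.two (nat_lit 4194308) (nat_lit 83886122) (.two (nat_lit 2097153) (nat_lit 285213296) (.one (nat_lit 2936014205) .nil))),
   .two (nat_lit 41943048) (nat_lit 12114198542) (.two (nat_lit 713031684) (nat_lit 10369368090) (.two (nat_lit 2097153) (nat_lit 12114198649) (.two (nat_lit 2097152) (nat_lit 8389348) (.one (nat_lit 10437527727) .nil)))),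
   .two (nat_lit 2954887176) (nat_lit 28086108168) (.two (nat_lit 9934209029) (nat_lit 18925748248) (.two (nat_lit 605028353) (nat_lit 166130090122) (.two (nat_lit 1048576) (nat_lit 2954888311) (.one (nat_lit 2987394438) .nil)))),
   .two (nat_lit 620757000) (nat_lit 12147752974) (.two (nat_lit 605028357) (nat_lit 19545456771) (.two (nat_lit 1048576) (nat_lit 19599983220) (.one (nat_lit 1051014) .nil))),
   .two (nat_lit 612368392) (nat_lit 10385096728) (.two (nat_lit 620756993) (nat_lit 159224169057) (.one (nat_lit 8391047) .nil)),
   .two (nat_lit 276824072) (nat_lit 1795162127) (.two (nat_lit 34603009) (nat_lit 9974055051) (.two (nat_lit 1048576) (nat_lit 1954546401) (.one (nat_lit 11626612934) .nil))),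
   .two (nat_lit 50331656) (nat_lit 705691656) (.two (nat_lit 16777221) (nat_lit 672137259) (.two (nat_lit 2097153) (nat_lit 156364701813) (.two (nat_lit 1048576) (nat_lit 174753579666) (.one (nat_lit 1746930030) .nil)))),
   .two (nat_lit 11492392968) (nat_lit 1309671447) (.two (nat_lit 50331649) (nat_lit 185020186749) (.two (nat_lit 1048576) (nat_lit 285212867) (.one (nat_lit 1051019) .nil))),
   .two (nat_lit 3539992584) (nat_lit 10336862216) (.two (nat_lit 1358954501) (nat_lit 183845781519) (.two (nat_lit 34603009) (nat_lit 3021996157) (.two (nat_lit 1048576) (nat_lit 13237224164) (.one (nat_lit 165525063745) .nil)))),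
   .two (nat_lit 10506731528) (nat_lit 166129041416) (.two (nat_lit 2889875461) (nat_lit 159216828459) (.two (nat_lit 4194305) (nat_lit 11510219032) (.two (nat_lit 1048576) (nat_lit 166237045421) (.one (nat_lit 166196152525) .nil)))),
   .two (nat_lit 11559501832) (nat_lit 19596836879) (.two (nat_lit 34603009) (nat_lit 285212737) (.two (nat_lit 1048576) (nat_lit 4613734764) (.one (nat_lit 10016000134) .nil))),
   .two (nat_lit 1779433480) (nat_lit 10343153676) (.two (nat_lit 1276116996) (nat_lit 158150426669) (.two (nat_lit 41943041) (nat_lit 165525061754) (.two (nat_lit 1048576) (nat_lit 310378859) (.one (nat_lit 12155095057) .nil)))),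
   .two (nat_lit 9866051592) (nat_lit 654311439) (.two (nat_lit 16777217) (nat_lit 1913651332) (.two (nat_lit 2097152) (nat_lit 1745879672) (.one (nat_lit 1051022) .nil))),
   .two (nat_lit 158144135176) (nat_lit 1291845673) (.two (nat_lit 606076929) (nat_lit 3036676216) (.two (nat_lit 2097152) (nat_lit 185002361519) (.one (nat_lit 889193807) .nil))),
   .two (nat_lit 9866051592) (nat_lit 46978301960) (.two (nat_lit 47548727301) (nat_lit 1779433487) (.two (nat_lit 2097153) (nat_lit 9866051650) (.two (nat_lit 2097152) (nat_lit 165525062973) .nil))),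
   .two (nat_lit 101711880) (nat_lit 156372041741) (.two (nat_lit 156372041733) (nat_lit 12114198543) (.two (nat_lit 41943041) (nat_lit 1779433835) (.one (nat_lit 1350567267) .nil))),
   .two (nat_lit 41943048) (nat_lit 47548727311) (.two (nat_lit 8388609) (nat_lit 2988441665) (.two (nat_lit 8388608) (nat_lit 807404150) (.one (nat_lit 46978304149) .nil))),
   .two (nat_lit 50331656) (nat_lit 46414168079) (.two (nat_lit 8388609) (nat_lit 1358954620) (.two (nat_lit 8388608) (nat_lit 1761608375) (.one (nat_lit 11551114585) .nil))),
   .two (nat_lit 9881780232) (nat_lit 159217877005) (.two (nat_lit 2902458373) (nat_lit 183848927247) (.two (nat_lit 156365750273) (nat_lit 156468510841) (.two (nat_lit 2097152) (nat_lit 4195458) (.one (nat_lit 4196751) .nil)))),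
   .two (nat_lit 46414168072) (nat_lit 10940841999) (.two (nat_lit 9765388289) (nat_lit 840958070) (.two (nat_lit 1048576) (nat_lit 11611931267) (.one (nat_lit 184417257797) .nil))),
   .two (nat_lit 2969567240) (nat_lit 310378509) (.two (nat_lit 184549381) (nat_lit 46414168079) (.two (nat_lit 8388609) (nat_lit 19545456778) (.two (nat_lit 1048576) (nat_lit 109052547) (.one (nat_lit 1051024) .nil)))),
   .two (nat_lit 37748744) (nat_lit 11559501832) (.two (nat_lit 721420292) (nat_lit 9867100175) (.two (nat_lit 4194305) (nat_lit 2317353068) (.two (nat_lit 4194304) (nat_lit 2097895) (.one (nat_lit 1862272381) .nil)))),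
   .two (nat_lit 117440520) (nat_lit 20637024271) (.two (nat_lit 605028353) (nat_lit 46477083294) (.one (nat_lit 4196753) .nil)),
   .two (nat_lit 606076936) (nat_lit 11559501832) (.two (nat_lit 169869316) (nat_lit 11525947418) (.two (nat_lit 2097153) (nat_lit 675283076) (.two (nat_lit 4194304) (nat_lit 20638073480) (.one (nat_lit 4196754) .nil)))),
   .two (nat_lit 1191182344) (nat_lit 1780482056) (.two (nat_lit 176160773) (nat_lit 174753579137) (.two (nat_lit 2097152) (nat_lit 4638900910) (.one (nat_lit 12624857405) .nil))),
   .two (nat_lit 21777874952) (nat_lit 174753579016) (.two (nat_lit 705691652) (nat_lit 1746927641) (.two (nat_lit 34603009) (nat_lit 1277165700) (.two (nat_lit 8388608) (nat_lit 158077027665) .nil))),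
   .two (nat_lit 46980399112) (nat_lit 12047089672) (.two (nat_lit 3527409669) (nat_lit 12617515031) (.two (nat_lit 156367847425) (nat_lit 21811429484) (.two (nat_lit 4194304) (nat_lit 10335814277) (.one (nat_lit 3527411048) .nil)))),
   .two (nat_lit 4194312) (nat_lit 166230753293) (.two (nat_lit 605028357) (nat_lit 1277165583) (.two (nat_lit 2097153) (nat_lit 46406828157) (.two (nat_lit 1048576) (nat_lit 46980400239) (.one (nat_lit 1947207936) .nil)))),
   .two (nat_lit 18933088264) (nat_lit 28086108175) (.two (nat_lit 41943041) (nat_lit 772800633) (.two (nat_lit 8388608) (nat_lit 1049732) (.one (nat_lit 20637026555) .nil))),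
   .two (nat_lit 8388616) (nat_lit 19530776589) (.two (nat_lit 169869316) (nat_lit 13195280399) (.two (nat_lit 50331649) (nat_lit 18933088918) (.one (nat_lit 47555020853) .nil))),
   .two (nat_lit 16777224) (nat_lit 203423767) (.two (nat_lit 41943041) (nat_lit 13187940419) (.two (nat_lit 8388608) (nat_lit 21793604302) (.one (nat_lit 16779670) .nil))),
   .two (nat_lit 184986632200) (nat_lit 19532873743) (.two (nat_lit 34603009) (nat_lit 71303299) (.two (nat_lit 1048576) (nat_lit 21210596023) (.one (nat_lit 21814577426) .nil))),
   .two (nat_lit 19532873736) (nat_lit 174753579023) (.two (nat_lit 2097153) (nat_lit 742391930) (.two (nat_lit 1048576) (nat_lit 12117344897) (.one (nat_lit 4196759) .nil))),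
   .two (nat_lit 18928893960) (nat_lit 135266317) (.two (nat_lit 183848927236) (nat_lit 28086108175) (.two (nat_lit 37748737) (nat_lit 21777875079) (.two (nat_lit 8388608) (nat_lit 739247430) .nil))),
   .two (nat_lit 9781116936) (nat_lit 46978301960) (.two (nat_lit 3525312517) (nat_lit 654311439) (.two (nat_lit 2097153) (nat_lit 654311532) (.two (nat_lit 2097152) (nat_lit 47563408095) (.one (nat_lit 10907288936) .nil)))),
   .two (nat_lit 739246088) (nat_lit 18933088264) (.two (nat_lit 11543773189) (nat_lit 12054429719) (.two (nat_lit 34603009) (nat_lit 1317011594) (.two (nat_lit 1048576) (nat_lit 10544481401) (.one (nat_lit 1846543706) .nil)))),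
   .two (nat_lit 2969567240) (nat_lit 28790751257) (.two (nat_lit 8388609) (nat_lit 13187940488) (.two (nat_lit 8388608) (nat_lit 1175454350) (.one (nat_lit 34605333) .nil))),
   .two (nat_lit 713031688) (nat_lit 1749024776) (.two (nat_lit 41943045) (nat_lit 11513364503) (.two (nat_lit 41943041) (nat_lit 21781020810) (.two (nat_lit 16777216) (nat_lit 1753220418) .nil))),
   .two (nat_lit 2887778312) (nat_lit 2902458383) (.two (nat_lit 9766436865) (nat_lit 9966715240) (.one (nat_lit 185020189075) .nil)),
   .two (nat_lit 713031688) (nat_lit 9881780239) (.two (nat_lit 41943041) (nat_lit 1962934407) (.two (nat_lit 1048576) (nat_lit 46523221392) .nil)),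
   .two (nat_lit 176160776) (nat_lit 9881780239) (.two (nat_lit 8388609) (nat_lit 251658517) (.two (nat_lit 16777216) (nat_lit 4195463) (.one (nat_lit 166144772189) .nil))),
   .two (nat_lit 4194312) (nat_lit 8388623) (.two (nat_lit 37748737) (nat_lit 158176641089) (.two (nat_lit 4194304) (nat_lit 612369797) .nil)),
   .two (nat_lit 46978301960) (nat_lit 843055116) (.two (nat_lit 809500677) (nat_lit 10336862223) (.two (nat_lit 37748737) (nat_lit 10907287619) (.two (nat_lit 4194304) (nat_lit 2988441795) (.one (nat_lit 156533523813) .nil)))),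
   .two (nat_lit 742391816) (nat_lit 21777874952) (.two (nat_lit 705691652) (nat_lit 9867100175) (.two (nat_lit 34603009) (nat_lit 304087302) (.two (nat_lit 1048576) (nat_lit 1312817772) (.one (nat_lit 11543775491) .nil)))),
   .two (nat_lit 8388616) (nat_lit 606076943) (.two (nat_lit 2097153) (nat_lit 1212154371) (.two (nat_lit 4194304) (nat_lit 11544822852) (.one (nat_lit 47548729520) .nil))),
   .two (nat_lit 620757000) (nat_lit 11543773192) (.two (nat_lit 184549380) (nat_lit 873463833) (.two (nat_lit 16777217) (nat_lit 158143086724) (.two (nat_lit 16777216) (nat_lit 166129042089) (.one (nat_lit 19142804867) .nil)))),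
   .two (nat_lit 21777874952) (nat_lit 673185805) (.two (nat_lit 10336862213) (nat_lit 21777874959) (.two (nat_lit 605028353) (nat_lit 28758245500) (.two (nat_lit 8388608) (nat_lit 1210058082) .nil))),
   .two (nat_lit 11479810056) (nat_lit 1753219080) (.two (nat_lit 176160773) (nat_lit 158079123499) (.two (nat_lit 37748737) (nat_lit 20644364396) (.two (nat_lit 4194304) (nat_lit 75498177) (.one (nat_lit 4196766) .nil)))),
   .two (nat_lit 16777224) (nat_lit 606076943) (.two (nat_lit 4194305) (nat_lit 46407876719) (.two (nat_lit 16777216) (nat_lit 4634706592) (.one (nat_lit 174755678513) .nil))),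
   .two (nat_lit 11543773192) (nat_lit 9802088460) (.two (nat_lit 157038936069) (nat_lit 873463833) (.two (nat_lit 34603009) (nat_lit 2923429953) (.two (nat_lit 16777216) (nat_lit 1049922) .nil))),
   .two (nat_lit 8388616) (nat_lit 12117344264) (.two (nat_lit 184419352581) (nat_lit 4605345815) (.two (nat_lit 37748737) (nat_lit 159224168556) (.two (nat_lit 4194304) (nat_lit 746586757) (.one (nat_lit 4634707266) .nil)))),
   .two (nat_lit 16777224) (nat_lit 11543773192) (.two (nat_lit 705691652) (nat_lit 11525947522) (.two (nat_lit 16777216) (nat_lit 183845781868) (.one (nat_lit 1051039) .nil))),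
   .two (nat_lit 2961178632) (nat_lit 9867100168) (.two (nat_lit 176160773) (nat_lit 9902751790) (.two (nat_lit 2097153) (nat_lit 2420113668) (.two (nat_lit 1048576) (nat_lit 9869197670) (.one (nat_lit 28089256272) .nil)))),
   .two (nat_lit 721420296) (nat_lit 18933088271) (.two (nat_lit 41943041) (nat_lit 721420353) (.two (nat_lit 8388608) (nat_lit 1325400423) (.one (nat_lit 16779681) .nil))),
   .two (nat_lit 169869320) (nat_lit 50331672) (.two (nat_lit 16777217) (nat_lit 1847591640) (.one (nat_lit 159266112900) .nil)),
   .two (nat_lit 46978301960) (nat_lit 18933088264) (.two (nat_lit 13195280389) (nat_lit 10336862223) (.two (nat_lit 156372041729) (nat_lit 673185900) (.two (nat_lit 8388608) (nat_lit 1914700421) (.one (nat_lit 184993973608) .nil)))),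
   .two (nat_lit 1191182344) (nat_lit 184416206856) (.two (nat_lit 654311429) (nat_lit 11510218776) (.two (nat_lit 156367847425) (nat_lit 12114199163) (.one (nat_lit 34604396) .nil))),
   .two (nat_lit 639631368) (nat_lit 21811429389) (.two (nat_lit 705691652) (nat_lit 21812478001) (.two (nat_lit 605028353) (nat_lit 3558867009) (.two (nat_lit 1048576) (nat_lit 156567077228) (.one (nat_lit 9899608356) .nil)))),
   .two (nat_lit 37748744) (nat_lit 1358954504) (.two (nat_lit 721420292) (nat_lit 606076943) (.two (nat_lit 2097153) (nat_lit 9969860747) (.two (nat_lit 16777216) (nat_lit 9934209764) (.one (nat_lit 16779330) .nil)))),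
   .two (nat_lit 11543773192) (nat_lit 1291845657) (.two (nat_lit 4194305) (nat_lit 839909512) (.two (nat_lit 4194304) (nat_lit 1309672083) (.one (nat_lit 4196773) .nil))),
   .two (nat_lit 2954887176) (nat_lit 184993972232) (.two (nat_lit 183853121541) (nat_lit 169869335) (.two (nat_lit 8388609) (nat_lit 37314625674) (.two (nat_lit 8388608) (nat_lit 9867101301) (.one (nat_lit 4605347199) .nil)))),
   .two (nat_lit 46407876616) (nat_lit 10338959375) (.two (nat_lit 2097153) (nat_lit 3457155430) (.one (nat_lit 2920286453) .nil)),
   .two (nat_lit 713031688) (nat_lit 19532873742) (.two (nat_lit 47550824453) (nat_lit 11618222146) (.two (nat_lit 1048576) (nat_lit 166136381799) (.one (nat_lit 4196779) .nil))),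
   .two (nat_lit 606076936) (nat_lit 620757007) (.two (nat_lit 2097153) (nat_lit 28760342888) (.one (nat_lit 4196781) .nil)),
   .two (nat_lit 46978301960) (nat_lit 18928893967) (.two (nat_lit 37748737) (nat_lit 673186544) (.one (nat_lit 2099630) .nil)),
   .two (nat_lit 9934209030) (nat_lit 47555018760) (.two (nat_lit 1277165572) (nat_lit 47555018767) (.two (nat_lit 606076929) (nat_lit 3028287598) (.two (nat_lit 2097152) (nat_lit 183920230599) (.one (nat_lit 21785216337) .nil)))),
   .two (nat_lit 1913651208) (nat_lit 3464495113) (.two (nat_lit 28093448197) (nat_lit 1947205656) (.two (nat_lit 34603009) (nat_lit 3464495215) (.two (nat_lit 1048576) (nat_lit 3464495319) (.one (nat_lit 21785215434) .nil)))),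
   .two (nat_lit 46407876616) (nat_lit 9802088460) (.two (nat_lit 10506731525) (nat_lit 10336862223) (.two (nat_lit 2097153) (nat_lit 20740833406) (.two (nat_lit 4194304) (nat_lit 174753579208) (.one (nat_lit 4196814) .nil)))),
   .two (nat_lit 183846830090) (nat_lit 1317011469) (.two (nat_lit 11546918917) (nat_lit 4605345807) (.two (nat_lit 37748737) (nat_lit 3464495219) (.two (nat_lit 2097152) (nat_lit 158183981259) (.one (nat_lit 8390100) .nil)))),
   .two (nat_lit 47548727304) (nat_lit 10007609356) (.two (nat_lit 159224168453) (nat_lit 9934209039) (.two (nat_lit 2097153) (nat_lit 19033751678) (.two (nat_lit 8388608) (nat_lit 11477713276) (.one (nat_lit 270535101) .nil)))),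
   .two (nat_lit 1795162120) (nat_lit 13191086088) (.two (nat_lit 117440517) (nat_lit 13191086095) (.two (nat_lit 4194305) (nat_lit 788529404) (.two (nat_lit 16777216) (nat_lit 18928894162) (.one (nat_lit 16779727) .nil)))),
   .two (nat_lit 10385096712) (nat_lit 4027580426) (.two (nat_lit 605028357) (nat_lit 1795162127) (.two (nat_lit 4194305) (nat_lit 1426063649) (.two (nat_lit 1048576) (nat_lit 318768363) (.one (nat_lit 16779728) .nil)))),
   .two (nat_lit 9948889096) (nat_lit 806354951) (.two (nat_lit 2097155) (nat_lit 9948889103) (.two (nat_lit 2097153) (nat_lit 158662131844) (.two (nat_lit 2097152) (nat_lit 251658449) (.one (nat_lit 1051089) .nil)))),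
   .two (nat_lit 1779433480) (nat_lit 165526110221) (.two (nat_lit 18926796805) (nat_lit 1779433487) (.two (nat_lit 50331649) (nat_lit 168820860) (.two (nat_lit 16777216) (nat_lit 12147753170) (.one (nat_lit 2099666) .nil)))),
   .two (nat_lit 9781116936) (nat_lit 10907287566) (.two (nat_lit 4599054341) (nat_lit 9781116943) (.two (nat_lit 2097153) (nat_lit 1224736892) (.two (nat_lit 1048576) (nat_lit 1224737144) (.one (nat_lit 168823483) .nil)))),
   .two (nat_lit 10385096712) (nat_lit 21777874951) (.two (nat_lit 68157443) (nat_lit 1795162127) (.two (nat_lit 605028353) (nat_lit 117440625) (.two (nat_lit 1048576) (nat_lit 184550122) (.one (nat_lit 117440990) .nil)))),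
   .two (nat_lit 202375178) (nat_lit 174755676167) (.two (nat_lit 2097155) (nat_lit 9948889103) (.two (nat_lit 2097153) (nat_lit 156581757050) (.two (nat_lit 2097152) (nat_lit 159266112240) (.one (nat_lit 822084476) .nil)))),
   .two (nat_lit 3539992584) (nat_lit 159217877000) (.two (nat_lit 721420293) (nat_lit 3558866969) (.two (nat_lit 16777217) (nat_lit 183846830204) (.two (nat_lit 1048576) (nat_lit 1392509705) (.one (nat_lit 1050082) .nil)))),
   .two (nat_lit 19599982600) (nat_lit 34603014) (.two (nat_lit 705691652) (nat_lit 19599982607) (.two (nat_lit 34603009) (nat_lit 10003415166) (.two (nat_lit 1048576) (nat_lit 876609738) (.one (nat_lit 4195811) .nil)))),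
   .two (nat_lit 620757000) (nat_lit 34603015) (.two (nat_lit 2097155) (nat_lit 620757007) (.two (nat_lit 2097153) (nat_lit 10015998020) (.two (nat_lit 2097152) (nat_lit 11476664523) (.one (nat_lit 1051061) .nil)))),
   .two (nat_lit 183853121544) (nat_lit 168820745) (.two (nat_lit 1343225861) (nat_lit 183853121552) (.two (nat_lit 68157443) (nat_lit 343932951) (.two (nat_lit 605028353) (nat_lit 1753219596) (.two (nat_lit 1048576) (nat_lit 8389004) (.one (nat_lit 8391124) .nil))))),
   .two (nat_lit 28790751245) (nat_lit 158144135181) (.two (nat_lit 1779433477) (nat_lit 158144135208) (.two (nat_lit 34603009) (nat_lit 10538189098) (.two (nat_lit 1048576) (nat_lit 2097935) (.one (nat_lit 1050027) .nil)))),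
   .two (nat_lit 20644364296) (nat_lit 34603015) (.two (nat_lit 2097155) (nat_lit 158083317775) (.two (nat_lit 2097153) (nat_lit 21785215043) (.two (nat_lit 1048576) (nat_lit 159257722976) (.one (nat_lit 9974055388) .nil)))),
   .two (nat_lit 620757000) (nat_lit 9765388295) (.two (nat_lit 8388611) (nat_lit 620757007) (.two (nat_lit 8388609) (nat_lit 10015998020) (.two (nat_lit 8388608) (nat_lit 855638414) (.one (nat_lit 1050092) .nil)))),
   .two (nat_lit 739246088) (nat_lit 28087156744) (.two (nat_lit 11559501829) (nat_lit 1913651215) (.two (nat_lit 50331649) (nat_lit 10335813961) (.two (nat_lit 16777216) (nat_lit 158646404216) (.one (nat_lit 1051096) .nil)))),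
   .two (nat_lit 612368392) (nat_lit 13187940359) (.two (nat_lit 270532613) (nat_lit 159224168463) (.two (nat_lit 9765388289) (nat_lit 11477713017) (.two (nat_lit 1048576) (nat_lit 156976022124) (.one (nat_lit 10436477830) .nil)))),
   .two (nat_lit 205520904) (nat_lit 157036838920) (.two (nat_lit 605028357) (nat_lit 19530776591) (.two (nat_lit 9768534017) (nat_lit 336593017) (.two (nat_lit 1048576) (nat_lit 9799991391) (.one (nat_lit 1051097) .nil)))),
   .two (nat_lit 9934209032) (nat_lit 46984593416) (.two (nat_lit 713031685) (nat_lit 46978301978) (.two (nat_lit 34603009) (nat_lit 156365750812) (.two (nat_lit 1048576) (nat_lit 21818770185) (.one (nat_lit 772801414) .nil)))),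
   .two (nat_lit 336592905) (nat_lit 754974728) (.two (nat_lit 184986632197) (nat_lit 754974735) (.two (nat_lit 34603009) (nat_lit 117440623) (.two (nat_lit 1048576) (nat_lit 11593056456) (.one (nat_lit 16779739) .nil)))),
   .two (nat_lit 159224168456) (nat_lit 605028366) (.two (nat_lit 34603013) (nat_lit 159224168463) (.two (nat_lit 9766436865) (nat_lit 2886729849) (.two (nat_lit 1048576) (nat_lit 3531604067) (.one (nat_lit 1051100) .nil)))),
   .two (nat_lit 157035790346) (nat_lit 1847590920) (.two (nat_lit 9866051589) (nat_lit 1847590927) (.two (nat_lit 34603009) (nat_lit 639631492) (.two (nat_lit 1048576) (nat_lit 11007951057) (.one (nat_lit 2099635) .nil)))),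
   .two (nat_lit 47548727304) (nat_lit 10007609356) (.two (nat_lit 159224168453) (nat_lit 9934209039) (.two (nat_lit 2097153) (nat_lit 19033751678) (.two (nat_lit 8388608) (nat_lit 236978385) (.one (nat_lit 8391133) .nil)))),
   .two (nat_lit 47548727304) (nat_lit 10007609356) (.two (nat_lit 159224168453) (nat_lit 9934209039) (.two (nat_lit 2097153) (nat_lit 9906946177) (.two (nat_lit 8388608) (nat_lit 11477713276) (.one (nat_lit 2099678) .nil)))),
   .two (nat_lit 11578376202) (nat_lit 9768534023) (.two (nat_lit 46407876611) (nat_lit 21785215000) (.two (nat_lit 2097153) (nat_lit 8388758) (.two (nat_lit 4194304) (nat_lit 2097937) (.one (nat_lit 8391135) .nil)))),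
   .two (nat_lit 176160776) (nat_lit 1745879048) (.two (nat_lit 8388613) (nat_lit 1745879055) (.two (nat_lit 8388609) (nat_lit 1376780325) (.two (nat_lit 1048576) (nat_lit 9906946147) (.one (nat_lit 1051329) .nil)))),
   .two (nat_lit 16777224) (nat_lit 9766436872) (.two (nat_lit 16777220) (nat_lit 639631384) (.two (nat_lit 41943041) (nat_lit 3021996106) (.two (nat_lit 8388608) (nat_lit 2969567434) (.one (nat_lit 46422558155) .nil)))),
   .two (nat_lit 9934209032) (nat_lit 1761607690) (.two (nat_lit 285212677) (nat_lit 9934209039) (.two (nat_lit 16777217) (nat_lit 20738736244) (.two (nat_lit 16777216) (nat_lit 3558867333) (.one (nat_lit 2099680) .nil)))),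
   .two (nat_lit 156367847432) (nat_lit 1913651207) (.two (nat_lit 1175453699) (nat_lit 156367847439) (.two (nat_lit 156367847425) (nat_lit 1048649) (.two (nat_lit 2097152) (nat_lit 68158905) (.one (nat_lit 68158905) .nil)))),
   .two (nat_lit 11479810056) (nat_lit 18925748232) (.two (nat_lit 809500677) (nat_lit 37246468121) (.two (nat_lit 9768534017) (nat_lit 3557818495) (.two (nat_lit 1048576) (nat_lit 4194707) (.one (nat_lit 1051106) .nil)))),
   .two (nat_lit 2990538762) (nat_lit 8388616) (.two (nat_lit 9768534021) (nat_lit 13195280399) (.two (nat_lit 37748737) (nat_lit 10376708222) (.two (nat_lit 4194304) (nat_lit 3028287697) (.one (nat_lit 8391139) .nil)))),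
   .two (nat_lit 612368392) (nat_lit 11492392974) (.two (nat_lit 721420293) (nat_lit 47555018767) (.two (nat_lit 50331649) (nat_lit 3020947718) (.two (nat_lit 1048576) (nat_lit 8389394) (.one (nat_lit 8391140) .nil)))),
   .two (nat_lit 117440520) (nat_lit 34603015) (.two (nat_lit 13187940357) (nat_lit 117440527) (.two (nat_lit 2097153) (nat_lit 1795162249) (.two (nat_lit 1048576) (nat_lit 12633243857) (.one (nat_lit 2099685) .nil)))),
   .two (nat_lit 3525312520) (nat_lit 156569174028) (.two (nat_lit 10506731525) (nat_lit 3525312527) (.two (nat_lit 9768534017) (nat_lit 185021235331) (.two (nat_lit 4194304) (nat_lit 3558867039) (.one (nat_lit 28791800695) .nil)))),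
   .two (nat_lit 809500680) (nat_lit 21223178250) (.two (nat_lit 184549381) (nat_lit 809500687) (.two (nat_lit 16777217) (nat_lit 12620660868) (.two (nat_lit 16777216) (nat_lit 4194711) (.one (nat_lit 4196795) .nil)))),
   .two (nat_lit 41943048) (nat_lit 50331654) (.two (nat_lit 721420292) (nat_lit 41943055) (.two (nat_lit 50331649) (nat_lit 612368421) (.two (nat_lit 16777216) (nat_lit 612368759) (.one (nat_lit 8391095) .nil)))),
   .two (nat_lit 3525312520) (nat_lit 156569174028) (.two (nat_lit 10506731525) (nat_lit 639631375) (.two (nat_lit 2097153) (nat_lit 1312817278) (.two (nat_lit 4194304) (nat_lit 2887778711) (.one (nat_lit 2099686) .nil)))),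
   .two (nat_lit 46407876616) (nat_lit 9948889094) (.two (nat_lit 1291845637) (nat_lit 2988441625) (.two (nat_lit 620756993) (nat_lit 136315021) (.two (nat_lit 1048576) (nat_lit 19597885538) (.one (nat_lit 2099687) .nil)))),
   .two (nat_lit 9934209032) (nat_lit 10343153677) (.two (nat_lit 169869316) (nat_lit 159224168488) (.two (nat_lit 2097153) (nat_lit 19033751678) (.two (nat_lit 8388608) (nat_lit 46407876810) (.one (nat_lit 8391145) .nil)))),
   .two (nat_lit 47548727304) (nat_lit 1846542344) (.two (nat_lit 28757196805) (nat_lit 47548727311) (.two (nat_lit 606076929) (nat_lit 9899606053) (.two (nat_lit 1048576) (nat_lit 20705181795) (.one (nat_lit 185021237681) .nil)))),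
   .two (nat_lit 11559501832) (nat_lit 3527409672) (.two (nat_lit 2889875460) (nat_lit 855638042) (.two (nat_lit 9768534017) (nat_lit 28705816980) (.two (nat_lit 4194304) (nat_lit 28705816980) (.one (nat_lit 16779754) .nil)))),
   .two (nat_lit 165532401672) (nat_lit 3558866958) (.two (nat_lit 2097157) (nat_lit 158083317775) (.two (nat_lit 2097153) (nat_lit 12050235681) (.two (nat_lit 1048576) (nat_lit 184423548049) (.one (nat_lit 8391148) .nil)))),
   .two (nat_lit 721420292) (nat_lit 11543773205) (.two (nat_lit 50331649) (nat_lit 11543773205) (.one (nat_lit 183861511062) .nil)),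
   .two (nat_lit 183848927240) (nat_lit 9772728329) (.two (nat_lit 8388613) (nat_lit 183848927247) (.two (nat_lit 8388609) (nat_lit 11513364545) (.two (nat_lit 8388608) (nat_lit 4194522) (.one (nat_lit 4195837) .nil)))),
   .two (nat_lit 2887778306) (nat_lit 9948889103) (.two (nat_lit 2097153) (nat_lit 47596961812) (.one (nat_lit 4613734877) .nil)),
   .two (nat_lit 50331654) (nat_lit 9768534023) (.two (nat_lit 10369368067) (nat_lit 2420113448) (.two (nat_lit 50331649) (nat_lit 1916797043) (.two (nat_lit 1048576) (nat_lit 4634707041) (.one (nat_lit 3527411176) .nil)))),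
   .two (nat_lit 9866051589) (nat_lit 1191182351) (.two (nat_lit 34603009) (nat_lit 16777341) (.one (nat_lit 4647289729) .nil)),
   .two (nat_lit 9934209032) (nat_lit 3527409672) (.two (nat_lit 169869316) (nat_lit 3527409679) (.two (nat_lit 2097153) (nat_lit 3527409772) (.two (nat_lit 2097152) (nat_lit 4195571) (.one (nat_lit 10439623562) .nil)))),
   .two (nat_lit 47581233162) (nat_lit 28758245383) (.two (nat_lit 19529728003) (nat_lit 639631375) (.two (nat_lit 156364701697) (nat_lit 1277165688) (.two (nat_lit 1048576) (nat_lit 639631731) (.one (nat_lit 2099693) .nil)))),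
   .two (nat_lit 174753579016) (nat_lit 303038473) (.two (nat_lit 184416206853) (nat_lit 10336862233) (.two (nat_lit 34603009) (nat_lit 10437525624) (.two (nat_lit 1048576) (nat_lit 11007950943) (.one (nat_lit 2098690) .nil)))),
   .two (nat_lit 1753219080) (nat_lit 158176641038) (.two (nat_lit 34603013) (nat_lit 183853121551) (.two (nat_lit 605028353) (nat_lit 12048138502) (.two (nat_lit 2097152) (nat_lit 11584668434) (.one (nat_lit 8391150) .nil)))),
   .two (nat_lit 9768534024) (nat_lit 19545456650) (.two (nat_lit 620756997) (nat_lit 9768534031) (.two (nat_lit 50331649) (nat_lit 1312817278) (.two (nat_lit 16777216) (nat_lit 46510637151) (.one (nat_lit 1950352247) .nil)))),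
   .two (nat_lit 68157448) (nat_lit 117440520) (.two (nat_lit 605028357) (nat_lit 117440527) (.two (nat_lit 34603009) (nat_lit 1312817273) (.two (nat_lit 1048576) (nat_lit 10385096799) (.one (nat_lit 4196847) .nil)))),
   .two (nat_lit 9881780232) (nat_lit 28758245384) (.two (nat_lit 1277165572) (nat_lit 10385096719) (.two (nat_lit 620756993) (nat_lit 11007951100) (.two (nat_lit 2097152) (nat_lit 16778008) (.one (nat_lit 16779760) .nil)))),
   .two (nat_lit 156566028298) (nat_lit 11559501831) (.two (nat_lit 68157443) (nat_lit 11492393000) (.two (nat_lit 605028353) (nat_lit 11492393075) (.two (nat_lit 1048576) (nat_lit 251658443) (.one (nat_lit 1358955947) .nil)))),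
   .two (nat_lit 156539813898) (nat_lit 47548727303) (.two (nat_lit 1283457027) (nat_lit 4028629032) (.two (nat_lit 612368385) (nat_lit 4028629107) (.two (nat_lit 4194304) (nat_lit 1948254411) (.one (nat_lit 158177690517) .nil)))),
   .two (nat_lit 46414168072) (nat_lit 2988441609) (.two (nat_lit 639631365) (nat_lit 813695003) (.two (nat_lit 4605345797) (nat_lit 37314625557) (.two (nat_lit 606076929) (nat_lit 746586637) (.two (nat_lit 8388608) (nat_lit 2097566) (.one (nat_lit 8391153) .nil))))),
   .two (nat_lit 75497480) (nat_lit 19093520398) (.two (nat_lit 157035790341) (nat_lit 75497487) (.two (nat_lit 16777217) (nat_lit 176160878) (.two (nat_lit 16777216) (nat_lit 3028287698) (.one (nat_lit 1051123) .nil)))),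
   .two (nat_lit 3525312520) (nat_lit 156569174028) (.two (nat_lit 3525312517) (nat_lit 47584378929) (.two (nat_lit 2097153) (nat_lit 156468510849) (.two (nat_lit 4194304) (nat_lit 840958647) (.one (nat_lit 2099700) .nil)))),
   .two (nat_lit 612368392) (nat_lit 156364701703) (.two (nat_lit 16777219) (nat_lit 612368399) (.two (nat_lit 16777217) (nat_lit 166203490376) (.two (nat_lit 16777216) (nat_lit 9772728696) (.one (nat_lit 1051125) .nil)))),
   .two (nat_lit 639631368) (nat_lit 156367847431) (.two (nat_lit 4194304) (nat_lit 2097531) .nil),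
   .two (nat_lit 3458203661) (nat_lit 620756999) (.two (nat_lit 620756995) (nat_lit 2988441628) (.two (nat_lit 620756993) (nat_lit 1746927698) (.two (nat_lit 16777216) (nat_lit 2097945) (.one (nat_lit 2099646) .nil)))),
   .two (nat_lit 9866051592) (nat_lit 1753219079) (.two (nat_lit 47555018757) (nat_lit 158075977743) (.two (nat_lit 156372041729) (nat_lit 9899606081) (.two (nat_lit 8388608) (nat_lit 20737687648) (.one (nat_lit 8390157) .nil)))),
   .two (nat_lit 18925748232) (nat_lit 159224168456) (.two (nat_lit 16777221) (nat_lit 159224168463) (.two (nat_lit 16777217) (nat_lit 2886729849) (.two (nat_lit 16777216) (nat_lit 13195280758) (.one (nat_lit 16779767) .nil)))),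
   .two (nat_lit 10506731526) (nat_lit 183853121544) (.two (nat_lit 166132187140) (nat_lit 183853121551) (.two (nat_lit 9768534017) (nat_lit 847249475) (.two (nat_lit 4194304) (nat_lit 11551113926) (.one (nat_lit 8390160) .nil)))),
   .two (nat_lit 19596836872) (nat_lit 171966470) (.two (nat_lit 4194308) (nat_lit 19596836879) (.two (nat_lit 4194305) (nat_lit 174752530564) (.two (nat_lit 4194304) (nat_lit 806355158) (.one (nat_lit 1050129) .nil)))),
   .two (nat_lit 184416206856) (nat_lit 1847590920) (.two (nat_lit 12114198533) (nat_lit 1847590927) (.two (nat_lit 34603009) (nat_lit 158077026426) (.two (nat_lit 1048576) (nat_lit 28691137238) (.one (nat_lit 156466414468) .nil)))),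
   .two (nat_lit 272629766) (nat_lit 46978301960) (.two (nat_lit 2889875460) (nat_lit 46978301967) (.two (nat_lit 4194305) (nat_lit 46978301986) (.two (nat_lit 4194304) (nat_lit 1746927712) (.one (nat_lit 337641695) .nil)))),
   .two (nat_lit 19599982600) (nat_lit 34603014) (.two (nat_lit 705691652) (nat_lit 19599982607) (.two (nat_lit 34603009) (nat_lit 184419352687) (.two (nat_lit 1048576) (nat_lit 11614027978) (.one (nat_lit 306185678) .nil)))),
   .two (nat_lit 11479810056) (nat_lit 1048586) (.two (nat_lit 10503585797) (nat_lit 11479810063) (.two (nat_lit 8388609) (nat_lit 166199296294) (.two (nat_lit 1048576) (nat_lit 4195572) (.one (nat_lit 339741166) .nil)))),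
   .two (nat_lit 184549384) (nat_lit 185021235210) (.two (nat_lit 3525312517) (nat_lit 251658265) (.two (nat_lit 620756993) (nat_lit 28758245519) (.two (nat_lit 8388608) (nat_lit 3558867146) (.one (nat_lit 304088523) .nil)))),
   .two (nat_lit 3527409672) (nat_lit 136314892) (.two (nat_lit 2889875460) (nat_lit 166130090026) (.two (nat_lit 4194305) (nat_lit 12618563705) (.two (nat_lit 2097152) (nat_lit 171966678) (.one (nat_lit 16779769) .nil)))),
   .two (nat_lit 158083317768) (nat_lit 3557818378) (.two (nat_lit 184986632197) (nat_lit 158083317775) (.two (nat_lit 34603009) (nat_lit 9873391748) (.two (nat_lit 1048576) (nat_lit 165532402071) (.one (nat_lit 8391162) .nil)))),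
   .two (nat_lit 50331656) (nat_lit 11479810056) (.two (nat_lit 16777220) (nat_lit 11479810063) (.two (nat_lit 16777217) (nat_lit 3527409789) (.two (nat_lit 4194304) (nat_lit 3539992778) (.one (nat_lit 4196859) .nil)))),
   .two (nat_lit 20637024264) (nat_lit 2954887175) (.two (nat_lit 4194307) (nat_lit 19093520489) (.two (nat_lit 2097153) (nat_lit 3457155217) (.two (nat_lit 4194304) (nat_lit 9933161209) (.one (nat_lit 1050138) .nil)))),
   .two (nat_lit 47547678730) (nat_lit 174759870471) (.two (nat_lit 183845781507) (nat_lit 10343153679) (.two (nat_lit 34603009) (nat_lit 612368506) (.two (nat_lit 1048576) (nat_lit 185027527033) (.one (nat_lit 880804732) .nil)))),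
   .two (nat_lit 3020947465) (nat_lit 1358954503) (.two (nat_lit 68157443) (nat_lit 1291845672) (.two (nat_lit 605028353) (nat_lit 1291845747) (.two (nat_lit 1048576) (nat_lit 2936013003) (.one (nat_lit 28806481378) .nil)))),
   .two (nat_lit 4194312) (nat_lit 1358954503) (.two (nat_lit 1343225861) (nat_lit 19599982607) (.two (nat_lit 9765388289) (nat_lit 156535619723) (.two (nat_lit 16777216) (nat_lit 1049371) (.one (nat_lit 1051132) .nil)))),
   .two (nat_lit 2332033034) (nat_lit 34603015) (.two (nat_lit 10385096707) (nat_lit 12047089679) (.two (nat_lit 9781116929) (nat_lit 21207449722) (.two (nat_lit 2097152) (nat_lit 156364701905) (.one (nat_lit 1049539) .nil)))),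
   .two (nat_lit 12054429704) (nat_lit 174752530440) (.two (nat_lit 184993972229) (nat_lit 174752530447) (.two (nat_lit 605028353) (nat_lit 156372041844) (.two (nat_lit 1048576) (nat_lit 9873391828) (.one (nat_lit 8390171) .nil)))),
   .two (nat_lit 16777224) (nat_lit 9867100168) (.two (nat_lit 1344274437) (nat_lit 2969567247) (.two (nat_lit 37748737) (nat_lit 46978302073) (.two (nat_lit 2097152) (nat_lit 4195582) (.one (nat_lit 174686471046) .nil)))),
   .two (nat_lit 157036838920) (nat_lit 183949590542) (.two (nat_lit 171966469) (nat_lit 157036838927) (.two (nat_lit 37748737) (nat_lit 336593017) (.two (nat_lit 4194304) (nat_lit 13222543736) (.one (nat_lit 1051133) .nil)))),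
   .two (nat_lit 10506731528) (nat_lit 19596836871) (.two (nat_lit 18925748227) (nat_lit 10506731535) (.two (nat_lit 9768534017) (nat_lit 174752530683) (.two (nat_lit 4194304) (nat_lit 159216829209) (.one (nat_lit 1050030) .nil)))),
   .two (nat_lit 705691650) (nat_lit 12054429711) (.two (nat_lit 34603009) (nat_lit 780140564) (.one (nat_lit 1417675243) .nil)),
   .two (nat_lit 8388616) (nat_lit 705691714) (.two (nat_lit 4194305) (nat_lit 813695843) (.one (nat_lit 11543775742) .nil)),
   .two (nat_lit 4194312) (nat_lit 639631384) (.two (nat_lit 2097157) (nat_lit 612368499) (.two (nat_lit 2097153) (nat_lit 1178600035) (.two (nat_lit 1048576) (nat_lit 1277166887) (.one (nat_lit 606079489) .nil)))),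
   .two (nat_lit 4194312) (nat_lit 639631375) (.two (nat_lit 4194308) (nat_lit 739246194) (.two (nat_lit 4194305) (nat_lit 739246946) (.one (nat_lit 11543774749) .nil))),
   .two (nat_lit 4194312) (nat_lit 8388674) (.two (nat_lit 4194305) (nat_lit 739246947) (.one (nat_lit 11543774750) .nil)),
   .two (nat_lit 1291845640) (nat_lit 10940841999) (.two (nat_lit 174753579013) (nat_lit 1291845698) (.two (nat_lit 9766436865) (nat_lit 1358954691) (.two (nat_lit 2097152) (nat_lit 18941478193) (.one (nat_lit 10351544837) .nil)))),
   .two (nat_lit 9940500488) (nat_lit 10385096719) (.two (nat_lit 176160772) (nat_lit 166144770180) (.two (nat_lit 620756993) (nat_lit 9974055107) (.two (nat_lit 4194304) (nat_lit 13228836144) (.one (nat_lit 2894072335) .nil)))),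
   .two (nat_lit 1291845640) (nat_lit 156535619608) (.two (nat_lit 2889875461) (nat_lit 10913579120) (.two (nat_lit 37748737) (nat_lit 1317012323) (.one (nat_lit 19134417419) .nil))),
   .two (nat_lit 75497480) (nat_lit 9881780290) (.two (nat_lit 620756993) (nat_lit 21785215171) (.two (nat_lit 16777216) (nat_lit 4638901554) (.one (nat_lit 46422559235) .nil))),
   .two (nat_lit 11559501832) (nat_lit 159224168473) (.two (nat_lit 721420293) (nat_lit 10376708229) (.two (nat_lit 612368385) (nat_lit 21827158211) (.two (nat_lit 4194304) (nat_lit 13203670328) (.one (nat_lit 3527412257) .nil)))),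
   .two (nat_lit 183848927240) (nat_lit 21785215043) (.two (nat_lit 612368385) (nat_lit 608174440) (.two (nat_lit 8388608) (nat_lit 19599983996) (.one (nat_lit 46481279513) .nil))),
   .two (nat_lit 9881780232) (nat_lit 184993972239) (.two (nat_lit 713031685) (nat_lit 158192369730) (.two (nat_lit 8388609) (nat_lit 158158815596) (.two (nat_lit 16777216) (nat_lit 11484005700) (.one (nat_lit 37262199314) .nil)))),
   .two (nat_lit 721420296) (nat_lit 28093448207) (.two (nat_lit 50331653) (nat_lit 156468510835) (.two (nat_lit 37748737) (nat_lit 11559502019) (.two (nat_lit 4194304) (nat_lit 19142804813) (.one (nat_lit 4601154082) .nil)))),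
   .two (nat_lit 218103816) (nat_lit 166132187151) (.two (nat_lit 2902458373) (nat_lit 19029557314) (.two (nat_lit 9768534017) (nat_lit 654311619) (.two (nat_lit 4194304) (nat_lit 46422558020) (.one (nat_lit 11546921481) .nil)))),
   .two (nat_lit 285212680) (nat_lit 183853121551) (.two (nat_lit 16777221) (nat_lit 11517558850) (.two (nat_lit 156367847425) (nat_lit 1216349026) (.one (nat_lit 645925407) .nil))),
   .two (nat_lit 612368392) (nat_lit 654311439) (.two (nat_lit 75497477) (nat_lit 12062818431) (.two (nat_lit 16777217) (nat_lit 159224168643) (.two (nat_lit 16777216) (nat_lit 28697429300) (.one (nat_lit 352324110) .nil)))),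
   .two (nat_lit 11492392968) (nat_lit 2357198896) (.two (nat_lit 713031685) (nat_lit 4647289027) (.two (nat_lit 1048576) (nat_lit 176161636) (.one (nat_lit 746588704) .nil))),
   .two (nat_lit 9781116936) (nat_lit 21785214991) (.two (nat_lit 713031684) (nat_lit 1191182449) (.two (nat_lit 16777217) (nat_lit 1753219267) (.two (nat_lit 16777216) (nat_lit 1216349500) (.one (nat_lit 12121541136) .nil)))),
   .two (nat_lit 9881780232) (nat_lit 3527409679) (.two (nat_lit 1358954501) (nat_lit 46477082690) (.two (nat_lit 4194305) (nat_lit 788529794) (.two (nat_lit 4194304) (nat_lit 20652754285) (.one (nat_lit 19029558814) .nil)))),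
   .two (nat_lit 46980399112) (nat_lit 10336862223) (.two (nat_lit 708837381) (nat_lit 889192515) (.two (nat_lit 2097153) (nat_lit 2923430541) (.two (nat_lit 2097152) (nat_lit 1950352739) (.one (nat_lit 2099742) .nil)))),
   .two (nat_lit 1291845640) (nat_lit 166197198915) (.two (nat_lit 9766436865) (nat_lit 1358954691) (.two (nat_lit 2097152) (nat_lit 4043310389) (.one (nat_lit 1962935838) .nil))),
   .two (nat_lit 1191182344) (nat_lit 158144135183) (.two (nat_lit 9781116933) (nat_lit 158647451715) (.two (nat_lit 606076929) (nat_lit 117440707) (.two (nat_lit 2097152) (nat_lit 2936014133) (.one (nat_lit 37314627101) .nil)))),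
   .two (nat_lit 620757000) (nat_lit 10506731535) (.two (nat_lit 83886085) (nat_lit 166132187203) (.two (nat_lit 4194305) (nat_lit 50332318) (.two (nat_lit 1048576) (nat_lit 11546920235) (.one (nat_lit 28772928018) .nil)))),
   .two (nat_lit 11559501832) (nat_lit 612368410) (.two (nat_lit 9781116933) (nat_lit 9906946163) (.two (nat_lit 41943041) (nat_lit 21827158211) (.two (nat_lit 4194304) (nat_lit 150996341) (.one (nat_lit 12155095597) .nil)))),
   .two (nat_lit 10385096712) (nat_lit 21207449615) (.two (nat_lit 9881780229) (nat_lit 10939793475) (.two (nat_lit 605028353) (nat_lit 10552869059) (.two (nat_lit 8388608) (nat_lit 174752531298) (.one (nat_lit 1051176) .nil)))),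
   .two (nat_lit 203423752) (nat_lit 11492392975) (.two (nat_lit 28705816581) (nat_lit 19027460163) (.two (nat_lit 9781116929) (nat_lit 46474985667) (.two (nat_lit 8388608) (nat_lit 10940843336) (.one (nat_lit 8391219) .nil)))),
   .two (nat_lit 47548727304) (nat_lit 156367847439) (.two (nat_lit 169869316) (nat_lit 12150898807) (.two (nat_lit 2097153) (nat_lit 306184387) (.two (nat_lit 2097152) (nat_lit 4195726) (.one (nat_lit 4601153054) .nil)))),
   .two (nat_lit 1291845640) (nat_lit 1846542351) (.two (nat_lit 117440517) (nat_lit 37313577027) (.two (nat_lit 9765388289) (nat_lit 654311619) (.two (nat_lit 1048576) (nat_lit 20753417601) (.one (nat_lit 12114201121) .nil)))),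
   .two (nat_lit 2969567240) (nat_lit 20644364303) (.two (nat_lit 184549380) (nat_lit 10343153731) (.two (nat_lit 612368385) (nat_lit 47596961987) (.two (nat_lit 1048576) (nat_lit 10913579874) (.one (nat_lit 19604179493) .nil)))),
   .two (nat_lit 12129927176) (nat_lit 156968681487) (.two (nat_lit 28757196805) (nat_lit 822083651) (.two (nat_lit 9765388289) (nat_lit 13237223619) (.two (nat_lit 2097152) (nat_lit 2953839460) (.one (nat_lit 21811431960) .nil)))),
   .two (nat_lit 4194312) (nat_lit 612368399) (.two (nat_lit 708837381) (nat_lit 184423547008) (.two (nat_lit 8388609) (nat_lit 272629955) (.two (nat_lit 1048576) (nat_lit 3527411063) (.one (nat_lit 11517561384) .nil)))),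
   .two (nat_lit 50331656) (nat_lit 20738736153) (.two (nat_lit 16777220) (nat_lit 706740344) (.two (nat_lit 16777217) (nat_lit 159217877187) (.two (nat_lit 16777216) (nat_lit 184417256804) (.one (nat_lit 156548205097) .nil)))),
   .two (nat_lit 2889875464) (nat_lit 739246104) (.two (nat_lit 272629765) (nat_lit 20637024384) (.two (nat_lit 9768534017) (nat_lit 11543773379) (.two (nat_lit 2097152) (nat_lit 1745880417) (.one (nat_lit 1212156452) .nil)))),
   .two (nat_lit 169869320) (nat_lit 41943055) (.two (nat_lit 169869316) (nat_lit 20711473271) (.two (nat_lit 8388609) (nat_lit 2954887363) (.two (nat_lit 1048576) (nat_lit 184987682098) (.one (nat_lit 10906241539) .nil)))),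
   .two (nat_lit 3527409672) (nat_lit 10343153679) (.two (nat_lit 46414168069) (nat_lit 19029557315) (.two (nat_lit 4194305) (nat_lit 10343153859) (.two (nat_lit 4194304) (nat_lit 2961179996) (.one (nat_lit 71305735) .nil)))),
   .two (nat_lit 1191182344) (nat_lit 19599982607) (.two (nat_lit 9781116933) (nat_lit 641728640) (.two (nat_lit 37748737) (nat_lit 185035915459) (.two (nat_lit 2097152) (nat_lit 3472885036) (.one (nat_lit 156569176583) .nil)))),
   .two (nat_lit 11559501832) (nat_lit 20705181720) (.two (nat_lit 721420292) (nat_lit 156365750400) (.two (nat_lit 37748737) (nat_lit 35651943) (.two (nat_lit 2097152) (nat_lit 12620661603) (.one (nat_lit 156548205067) .nil)))),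
   .two (nat_lit 46984593416) (nat_lit 166130089999) (.two (nat_lit 209715205) (nat_lit 169869431) (.two (nat_lit 156365750273) (nat_lit 310378691) (.two (nat_lit 1048576) (nat_lit 47548728164) (.one (nat_lit 1377831448) .nil)))),
   .two (nat_lit 4194312) (nat_lit 10336862223) (.two (nat_lit 171966469) (nat_lit 2988441667) (.two (nat_lit 2097153) (nat_lit 675283636) (.two (nat_lit 1048576) (nat_lit 20740834148) (.one (nat_lit 47581235729) .nil)))),
   .two (nat_lit 169869320) (nat_lit 156367847439) (.two (nat_lit 2097157) (nat_lit 1212153923) (.two (nat_lit 2097153) (nat_lit 4601151683) (.two (nat_lit 2097152) (nat_lit 1950352692) (.one (nat_lit 19597888031) .nil)))),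
   .two (nat_lit 2969567240) (nat_lit 10510925868) (.two (nat_lit 184549380) (nat_lit 2994733123) (.two (nat_lit 16777217) (nat_lit 310378859) (.two (nat_lit 16777216) (nat_lit 209716589) (.one (nat_lit 3573548574) .nil)))),
   .two (nat_lit 276824072) (nat_lit 9768534031) (.two (nat_lit 2956984325) (nat_lit 343932993) (.two (nat_lit 4194305) (nat_lit 8388803) (.two (nat_lit 1048576) (nat_lit 10443818315) (.one (nat_lit 135268889) .nil)))),
   .two (nat_lit 16777224) (nat_lit 11479810074) (.two (nat_lit 69206021) (nat_lit 620757187) (.two (nat_lit 2097152) (nat_lit 19545457975) (.one (nat_lit 20638075440) .nil))),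
   .two (nat_lit 176160776) (nat_lit 11543773207) (.two (nat_lit 1283457029) (nat_lit 185020186689) (.two (nat_lit 2097153) (nat_lit 21781021033) (.two (nat_lit 2097152) (nat_lit 205521762) (.one (nat_lit 46409976357) .nil)))),
   .two (nat_lit 705691656) (nat_lit 1749024783) (.two (nat_lit 721420292) (nat_lit 705691714) (.two (nat_lit 50331649) (nat_lit 46473937257) (.two (nat_lit 16777216) (nat_lit 11577328972) (.one (nat_lit 28790753856) .nil)))),
   .two (nat_lit 1411383306) (nat_lit 1178599439) (.two (nat_lit 1178599432) (nat_lit 11477712918) (.two (nat_lit 11479810050) (nat_lit 773849214) (.two (nat_lit 10504634373) (nat_lit 272629797) (.two (nat_lit 9766436865) (nat_lit 184419352785) (.two (nat_lit 2097152) (nat_lit 156971827672) (.one (nat_lit 2099833) .nil)))))),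
   .two (nat_lit 11479810056) (nat_lit 101711887) (.two (nat_lit 11543773189) (nat_lit 1749024901) (.two (nat_lit 34603009) (nat_lit 11546919583) (.two (nat_lit 1048576) (nat_lit 1950352716) (.one (nat_lit 2420116032) .nil)))),
   .two (nat_lit 9781116936) (nat_lit 336592939) (.two (nat_lit 2902458370) (nat_lit 2316304509) (.two (nat_lit 101711877) (nat_lit 13237223461) (.two (nat_lit 9781116929) (nat_lit 1048953) (.two (nat_lit 16777216) (nat_lit 1049471) (.one (nat_lit 1209009711) .nil))))),
   .two (nat_lit 4194312) (nat_lit 2969567247) (.two (nat_lit 705691650) (nat_lit 19130220670) (.two (nat_lit 4194308) (nat_lit 2969567267) (.two (nat_lit 620756993) (nat_lit 37246468732) (.two (nat_lit 1048576) (nat_lit 183848927704) (.one (nat_lit 10540288616) .nil))))),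
   .two (nat_lit 16777222) (nat_lit 183848927277) (.two (nat_lit 68157448) (nat_lit 10443816981) (.two (nat_lit 183845781506) (nat_lit 183928619134) (.two (nat_lit 158150426629) (nat_lit 21777874979) (.two (nat_lit 612368385) (nat_lit 3460301157) (.two (nat_lit 8388608) (nat_lit 1346372044) (.one (nat_lit 4196986) .nil)))))),
   .two (nat_lit 50331656) (nat_lit 18933088271) (.two (nat_lit 83886085) (nat_lit 847249543) (.two (nat_lit 41943041) (nat_lit 822083779) (.two (nat_lit 8388608) (nat_lit 47563407815) (.one (nat_lit 11492393926) .nil)))),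
   .two (nat_lit 21814575114) (nat_lit 184993972239) (.two (nat_lit 3527409669) (nat_lit 28093448229) (.two (nat_lit 3527409669) (nat_lit 11618222100) (.two (nat_lit 4194305) (nat_lit 183853121634) (.two (nat_lit 4194304) (nat_lit 12054429921) (.one (nat_lit 1954546654) .nil))))),
   .two (nat_lit 10385096712) (nat_lit 157036838927) (.two (nat_lit 46407876612) (nat_lit 654311537) (.two (nat_lit 2097153) (nat_lit 788529349) (.two (nat_lit 2097152) (nat_lit 1325401063) (.one (nat_lit 1325401063) .nil)))),
   .two (nat_lit 9869197321) (nat_lit 183853121551) (.two (nat_lit 183853121544) (nat_lit 11479810069) (.two (nat_lit 2889875458) (nat_lit 183853121648) (.two (nat_lit 1178599429) (nat_lit 46414168101) (.two (nat_lit 4194305) (nat_lit 1283457221) (.two (nat_lit 4194304) (nat_lit 159224168902) (.one (nat_lit 176161738) .nil)))))),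
   .two (nat_lit 28086108168) (nat_lit 166130090005) (.two (nat_lit 20637024260) (nat_lit 156533522469) (.two (nat_lit 1745879045) (nat_lit 166130090005) (.two (nat_lit 2097153) (nat_lit 4027580790) (.two (nat_lit 1048576) (nat_lit 3021996509) (.one (nat_lit 3021998654) .nil))))),
   .two (nat_lit 16777224) (nat_lit 101711887) (.two (nat_lit 184549381) (nat_lit 9966714919) (.two (nat_lit 16777220) (nat_lit 101711907) (.two (nat_lit 605028353) (nat_lit 159232557432) (.two (nat_lit 16777216) (nat_lit 1050032) (.one (nat_lit 16779899) .nil))))),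
   .two (nat_lit 176160776) (nat_lit 9948889103) (.two (nat_lit 184549378) (nat_lit 183853121660) (.two (nat_lit 8388613) (nat_lit 9948889123) (.two (nat_lit 16777217) (nat_lit 343933137) (.two (nat_lit 16777216) (nat_lit 8389506) (.one (nat_lit 8391292) .nil))))),
   .two (nat_lit 9869197322) (nat_lit 28087156763) (.two (nat_lit 21793603591) (nat_lit 28758245391) (.two (nat_lit 165528207365) (nat_lit 1847590979) (.two (nat_lit 620756993) (nat_lit 1377829532) (.two (nat_lit 16777216) (nat_lit 2098051) (.one (nat_lit 19530778180) .nil))))),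
   .two (nat_lit 9799991306) (nat_lit 16777231) (.two (nat_lit 184989777927) (nat_lit 16777231) (.two (nat_lit 1344274437) (nat_lit 3036676163) (.two (nat_lit 41943041) (nat_lit 3458204264) (.two (nat_lit 8388608) (nat_lit 4599054794) (.one (nat_lit 16779901) .nil))))),
   .two (nat_lit 1291845640) (nat_lit 20638072853) (.two (nat_lit 165526110213) (nat_lit 218103845) (.two (nat_lit 9948889093) (nat_lit 20638072853) (.two (nat_lit 2097153) (nat_lit 83886175) (.two (nat_lit 2097152) (nat_lit 83886304) (.one (nat_lit 16778225) .nil))))),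
   .two (nat_lit 156367847432) (nat_lit 10343153679) (.two (nat_lit 46409973764) (nat_lit 159224168485) (.two (nat_lit 46409973764) (nat_lit 243269652) (.two (nat_lit 4194305) (nat_lit 174759870562) (.two (nat_lit 4194304) (nat_lit 10913579233) (.one (nat_lit 4195937) .nil))))),
   .two (nat_lit 183853121544) (nat_lit 2990538800) (.two (nat_lit 183853121540) (nat_lit 37748873) (.two (nat_lit 2097153) (nat_lit 4195079) (.two (nat_lit 4194304) (nat_lit 2098610) (.one (nat_lit 4196990) .nil)))),
   .two (nat_lit 1779433480) (nat_lit 12050235415) (.two (nat_lit 156367847429) (nat_lit 9866051618) (.two (nat_lit 156367847429) (nat_lit 9866051620) (.two (nat_lit 37748737) (nat_lit 1309671520) (.two (nat_lit 1048576) (nat_lit 4195204) (.one (nat_lit 4196991) .nil))))),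
   .two (nat_lit 1779433480) (nat_lit 12054429711) (.two (nat_lit 101711877) (nat_lit 184993972291) (.two (nat_lit 605028353) (nat_lit 13228834912) (.two (nat_lit 1048576) (nat_lit 176162347) (.one (nat_lit 176162347) .nil)))),
   .two (nat_lit 37748744) (nat_lit 9881780239) (.two (nat_lit 4194308) (nat_lit 117440579) (.two (nat_lit 4194305) (nat_lit 1191182547) (.two (nat_lit 2097152) (nat_lit 16778675) (.one (nat_lit 16779905) .nil)))),
   .two (nat_lit 2954887176) (nat_lit 156971827250) (.two (nat_lit 203423749) (nat_lit 12117344381) (.two (nat_lit 9768534017) (nat_lit 1344274798) (.two (nat_lit 2097152) (nat_lit 21210596223) (.one (nat_lit 2099843) .nil)))),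
   .two (nat_lit 46473936905) (nat_lit 620757007) (.two (nat_lit 620756999) (nat_lit 28757196811) (.two (nat_lit 1276116994) (nat_lit 184549490) (.two (nat_lit 1846542341) (nat_lit 50331685) (.two (nat_lit 605028353) (nat_lit 12633243847) (.two (nat_lit 1048576) (nat_lit 21827158480) (.one (nat_lit 10552871476) .nil)))))),
   .two (nat_lit 184993972237) (nat_lit 9866051599) (.two (nat_lit 184993972229) (nat_lit 9866051618) (.two (nat_lit 184993972229) (nat_lit 9866051620) (.two (nat_lit 605028353) (nat_lit 12121538656) (.two (nat_lit 2097152) (nat_lit 672138541) (.one (nat_lit 1853883367) .nil))))),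
   .two (nat_lit 46414168072) (nat_lit 157036838927) (.two (nat_lit 47548727301) (nat_lit 4605345859) (.two (nat_lit 8388609) (nat_lit 706740584) (.two (nat_lit 2097152) (nat_lit 28764537293) (.one (nat_lit 156573369895) .nil)))),
   .two (nat_lit 1343225864) (nat_lit 166197198869) (.two (nat_lit 158144135173) (nat_lit 1947205669) (.two (nat_lit 705691652) (nat_lit 166197198869) (.two (nat_lit 156365750273) (nat_lit 157035790532) (.two (nat_lit 1048576) (nat_lit 169869540) (.one (nat_lit 1051268) .nil))))),
   .two (nat_lit 10336862215) (nat_lit 101711887) (.two (nat_lit 184416206853) (nat_lit 606077004) (.two (nat_lit 9765388289) (nat_lit 2097531) (.two (nat_lit 4194304) (nat_lit 1049451) (.one (nat_lit 1050216) .nil)))),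
   .two (nat_lit 174753579016) (nat_lit 46409973775) (.two (nat_lit 46409973764) (nat_lit 18926796874) (.two (nat_lit 4601151493) (nat_lit 46978301974) (.two (nat_lit 4194305) (nat_lit 874513156) (.two (nat_lit 2097152) (nat_lit 2923430777) (.one (nat_lit 2099845) .nil))))),
   .two (nat_lit 203423752) (nat_lit 156372041743) (.two (nat_lit 2954887173) (nat_lit 4605345859) (.two (nat_lit 2097153) (nat_lit 4605345987) (.two (nat_lit 2097152) (nat_lit 2994733532) (.one (nat_lit 20738738715) .nil)))),
   .two (nat_lit 1358954501) (nat_lit 28086108181) (.one (nat_lit 16778231) .nil),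
   .two (nat_lit 11476664328) (nat_lit 4601151503) (.two (nat_lit 69206021) (nat_lit 739246159) (.two (nat_lit 708837381) (nat_lit 158176641061) (.two (nat_lit 37748737) (nat_lit 806355040) (.two (nat_lit 2097152) (nat_lit 46510637944) (.one (nat_lit 4195949) .nil))))),
   .two (nat_lit 184986632199) (nat_lit 28758245401) (.two (nat_lit 705691651) (nat_lit 18926796932) (.two (nat_lit 41943041) (nat_lit 1948254247) (.two (nat_lit 1048576) (nat_lit 2098054) (.one (nat_lit 2098170) .nil)))),
   .two (nat_lit 12114198536) (nat_lit 41943051) (.two (nat_lit 713031682) (nat_lit 1048723) (.two (nat_lit 11476664324) (nat_lit 11618222100) (.two (nat_lit 34603009) (nat_lit 184993972319) (.two (nat_lit 1048576) (nat_lit 343933162) (.one (nat_lit 1051271) .nil))))),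
   .two (nat_lit 28758245384) (nat_lit 104857648) (.two (nat_lit 1277165572) (nat_lit 12150898768) (.two (nat_lit 47550824453) (nat_lit 158144135204) (.two (nat_lit 605028353) (nat_lit 1176502975) (.two (nat_lit 1048576) (nat_lit 270533933) (.one (nat_lit 9936307175) .nil))))),
   .two (nat_lit 4613734407) (nat_lit 158083317775) (.two (nat_lit 16777219) (nat_lit 21785215089) (.two (nat_lit 156364701697) (nat_lit 156573368359) (.two (nat_lit 1048576) (nat_lit 343933399) (.one (nat_lit 16779913) .nil)))),
   .two (nat_lit 13187940358) (nat_lit 3458203692) (.two (nat_lit 18925748232) (nat_lit 10437525525) (.two (nat_lit 1277165573) (nat_lit 12633243780) (.two (nat_lit 2097153) (nat_lit 2936013009) (.two (nat_lit 1048576) (nat_lit 16778121) (.one (nat_lit 16779914) .nil))))),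
   .two (nat_lit 336592905) (nat_lit 174753579023) (.two (nat_lit 174753579015) (nat_lit 1376780309) (.two (nat_lit 183845781506) (nat_lit 21208498290) (.two (nat_lit 184986632197) (nat_lit 28758245413) (.two (nat_lit 34603009) (nat_lit 270532807) (.two (nat_lit 1048576) (nat_lit 19530777040) (.one (nat_lit 46474988106) .nil)))))),
   .two (nat_lit 754974728) (nat_lit 1846542357) (.two (nat_lit 10939793413) (nat_lit 251658309) (.two (nat_lit 11559501829) (nat_lit 1846542357) (.two (nat_lit 605028353) (nat_lit 654311519) (.two (nat_lit 1048576) (nat_lit 654311648) (.one (nat_lit 16778237) .nil))))),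
   .two (nat_lit 1779433480) (nat_lit 10336862223) (.two (nat_lit 1276116996) (nat_lit 2350907524) (.two (nat_lit 605028353) (nat_lit 46474985681) (.two (nat_lit 1048576) (nat_lit 2098616) (.one (nat_lit 11007953484) .nil)))),
   .two (nat_lit 4194312) (nat_lit 10504634383) (.two (nat_lit 4194306) (nat_lit 1344274550) (.two (nat_lit 4194308) (nat_lit 10504634403) (.two (nat_lit 37748737) (nat_lit 10437526158) (.two (nat_lit 4194304) (nat_lit 1049466) (.one (nat_lit 1051275) .nil))))),
   .two (nat_lit 184416206856) (nat_lit 1847590927) (.two (nat_lit 16777220) (nat_lit 9900654672) (.two (nat_lit 2887778307) (nat_lit 9948889381) (.two (nat_lit 9766436865) (nat_lit 13221495157) (.two (nat_lit 1048576) (nat_lit 2098058) (.one (nat_lit 135268922) .nil))))),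
   .two (nat_lit 176160776) (nat_lit 20637024271) (.two (nat_lit 8388613) (nat_lit 1048715) (.two (nat_lit 8388609) (nat_lit 11546919289) (.two (nat_lit 1048576) (nat_lit 46984594855) (.one (nat_lit 4638902983) .nil)))),
   .two (nat_lit 19532873733) (nat_lit 11492392980) (.one (nat_lit 2902461038) .nil),
   .two (nat_lit 184417255434) (nat_lit 165532401679) (.two (nat_lit 1277165573) (nat_lit 47555018789) (.two (nat_lit 1277165573) (nat_lit 20644364308) (.two (nat_lit 2097153) (nat_lit 156372041826) (.two (nat_lit 2097152) (nat_lit 10343153889) (.one (nat_lit 1853883358) .nil))))),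
   .two (nat_lit 184423546888) (nat_lit 12047089679) (.two (nat_lit 12121538565) (nat_lit 12047089698) (.two (nat_lit 41943041) (nat_lit 13221494822) (.two (nat_lit 1048576) (nat_lit 2098617) (.one (nat_lit 2099852) .nil)))),
   .two (nat_lit 46978301960) (nat_lit 21785214991) (.two (nat_lit 46407876612) (nat_lit 184993972338) (.two (nat_lit 2097153) (nat_lit 3531604167) (.two (nat_lit 2097152) (nat_lit 8390074) (.one (nat_lit 2099854) .nil)))),
   .two (nat_lit 1277165576) (nat_lit 1779433487) (.two (nat_lit 102760453) (nat_lit 158176641089) (.two (nat_lit 156364701697) (nat_lit 203424102) (.two (nat_lit 2097152) (nat_lit 28764538195) (.one (nat_lit 10443819610) .nil)))),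
   .two (nat_lit 184549384) (nat_lit 1779433487) (.two (nat_lit 16777221) (nat_lit 839909415) (.two (nat_lit 16777221) (nat_lit 1048657) (.two (nat_lit 9765388289) (nat_lit 13203669368) (.two (nat_lit 4194304) (nat_lit 16778683) (.one (nat_lit 47596963366) .nil))))),
   .two (nat_lit 272629768) (nat_lit 1847590927) (.two (nat_lit 4194308) (nat_lit 28758245443) (.two (nat_lit 4194305) (nat_lit 158144135363) (.two (nat_lit 2097152) (nat_lit 47550824913) (.one (nat_lit 69207594) .nil)))),
   .two (nat_lit 9866051592) (nat_lit 156548202538) (.two (nat_lit 1779433477) (nat_lit 822083705) (.two (nat_lit 8388609) (nat_lit 1376780483) (.two (nat_lit 8388608) (nat_lit 11476664775) (.one (nat_lit 1051281) .nil)))),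
   .two (nat_lit 157036838920) (nat_lit 19599982607) (.two (nat_lit 11479810050) (nat_lit 10538188925) (.two (nat_lit 3458203653) (nat_lit 183916036133) (.two (nat_lit 9768534017) (nat_lit 174686470514) (.two (nat_lit 4194304) (nat_lit 2098063) (.one (nat_lit 183913941625) .nil))))),
   .two (nat_lit 304087053) (nat_lit 75497487) (.two (nat_lit 4599054341) (nat_lit 612368451) (.two (nat_lit 156364701697) (nat_lit 8388966) (.two (nat_lit 8388608) (nat_lit 158647453292) (.one (nat_lit 8391314) .nil)))),
   .two (nat_lit 218103816) (nat_lit 3458203663) (.two (nat_lit 2969567237) (nat_lit 3458203682) (.two (nat_lit 2969567237) (nat_lit 3458203684) (.two (nat_lit 2097153) (nat_lit 3539992672) (.two (nat_lit 8388608) (nat_lit 11477713770) (.one (nat_lit 673187391) .nil))))),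
   .two (nat_lit 16777224) (nat_lit 4030726170) (.two (nat_lit 16777220) (nat_lit 71303306) (.two (nat_lit 37748737) (nat_lit 11610882794) (.two (nat_lit 1048576) (nat_lit 1279264113) (.one (nat_lit 183946447450) .nil)))),
   .two (nat_lit 1343225864) (nat_lit 157043130383) (.two (nat_lit 705691652) (nat_lit 10510925861) (.two (nat_lit 705691652) (nat_lit 19033751573) (.two (nat_lit 50331649) (nat_lit 1846543034) (.two (nat_lit 8388608) (nat_lit 1962934734) (.one (nat_lit 21785216558) .nil))))),
   .two (nat_lit 809500678) (nat_lit 4605345807) (.two (nat_lit 4605345800) (nat_lit 809500683) (.two (nat_lit 11479810050) (nat_lit 343933042) (.two (nat_lit 11479810052) (nat_lit 18933088293) (.two (nat_lit 37748737) (nat_lit 20711473351) (.two (nat_lit 4194304) (nat_lit 243270096) (.one (nat_lit 1786776119) .nil)))))),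
   .two (nat_lit 612368392) (nat_lit 721420305) (.two (nat_lit 176160772) (nat_lit 4632608841) (.two (nat_lit 50331649) (nat_lit 10510925863) (.two (nat_lit 1048576) (nat_lit 2098621) (.one (nat_lit 2099859) .nil)))),
   .two (nat_lit 176160776) (nat_lit 10338959375) (.two (nat_lit 8388613) (nat_lit 339738698) (.two (nat_lit 184549380) (nat_lit 2889875476) (.two (nat_lit 8388609) (nat_lit 285212874) (.two (nat_lit 4194304) (nat_lit 9974055796) (.one (nat_lit 8391316) .nil))))),
   .two (nat_lit 11479810052) (nat_lit 9806282773) (.one (nat_lit 8389633) .nil),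
   .two (nat_lit 156971827208) (nat_lit 46414168079) (.two (nat_lit 4605345797) (nat_lit 1312817299) (.two (nat_lit 19599982597) (nat_lit 46414168084) (.two (nat_lit 8388609) (nat_lit 2889875828) (.two (nat_lit 4194304) (nat_lit 243269866) (.one (nat_lit 4197013) .nil))))),
   .two (nat_lit 272629768) (nat_lit 754974731) (.two (nat_lit 721420292) (nat_lit 19130220581) (.two (nat_lit 721420292) (nat_lit 9768534037) (.two (nat_lit 50331649) (nat_lit 166132187594) (.two (nat_lit 16777216) (nat_lit 9869197799) (.one (nat_lit 4195955) .nil))))),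
   .two (nat_lit 9781116936) (nat_lit 75497493) (.two (nat_lit 2902458370) (nat_lit 184993972341) (.two (nat_lit 2902458372) (nat_lit 75497493) (.two (nat_lit 8388609) (nat_lit 10955522422) (.two (nat_lit 8388608) (nat_lit 251658722) (.one (nat_lit 12624856691) .nil))))),
   .two (nat_lit 2961178632) (nat_lit 9948889099) (.two (nat_lit 1291845636) (nat_lit 13195280531) (.two (nat_lit 176160772) (nat_lit 1291845651) (.two (nat_lit 16777217) (nat_lit 21214789727) (.two (nat_lit 1048576) (nat_lit 2323644642) (.one (nat_lit 8391318) .nil))))),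
   .two (nat_lit 9948889097) (nat_lit 11543773195) (.two (nat_lit 16777218) (nat_lit 605028429) (.two (nat_lit 2902458373) (nat_lit 12147752980) (.two (nat_lit 16777217) (nat_lit 47547678916) (.two (nat_lit 16777216) (nat_lit 3524264425) (.one (nat_lit 1051288) .nil))))),
   .two (nat_lit 10506731532) (nat_lit 639631375) (.two (nat_lit 2887778306) (nat_lit 37249613944) (.two (nat_lit 2887778308) (nat_lit 4634705957) (.two (nat_lit 2097153) (nat_lit 10506731890) (.two (nat_lit 2097152) (nat_lit 28089254799) (.one (nat_lit 46510639668) .nil))))),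
   .two (nat_lit 13191086088) (nat_lit 639631375) (.two (nat_lit 183848927237) (nat_lit 3558867009) (.two (nat_lit 4194305) (nat_lit 159251431619) (.two (nat_lit 2097152) (nat_lit 20707279743) (.one (nat_lit 166230755931) .nil)))),
   .two (nat_lit 11007950860) (nat_lit 156367847439) (.two (nat_lit 46409973762) (nat_lit 10437525624) (.two (nat_lit 46409973764) (nat_lit 2988441637) (.two (nat_lit 4194305) (nat_lit 11007951218) (.two (nat_lit 4194304) (nat_lit 102761359) (.one (nat_lit 46978304565) .nil))))),
   .two (nat_lit 10336862215) (nat_lit 20637024271) (.two (nat_lit 156365750275) (nat_lit 2886729847) (.two (nat_lit 156365750273) (nat_lit 174685422196) (.two (nat_lit 2097152) (nat_lit 2886731097) (.one (nat_lit 1049603) .nil)))),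
   .two (nat_lit 159217877000) (nat_lit 158143086607) (.two (nat_lit 169869316) (nat_lit 158646403139) (.two (nat_lit 2097153) (nat_lit 68157478) (.two (nat_lit 2097152) (nat_lit 1343226332) (.one (nat_lit 1050229) .nil)))),
   .two (nat_lit 47563407368) (nat_lit 159224168459) (.two (nat_lit 713031684) (nat_lit 9948889123) (.two (nat_lit 184549380) (nat_lit 159224168466) (.two (nat_lit 34603009) (nat_lit 174692761698) (.two (nat_lit 1048576) (nat_lit 10947133665) (.one (nat_lit 8391321) .nil))))),
   .two (nat_lit 184549384) (nat_lit 101711887) (.two (nat_lit 11476664324) (nat_lit 11593056328) (.two (nat_lit 16777221) (nat_lit 21811429413) (.two (nat_lit 34603009) (nat_lit 822083960) (.two (nat_lit 16777216) (nat_lit 303039908) (.one (nat_lit 16779930) .nil))))),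
   .two (nat_lit 21208498184) (nat_lit 3457155094) (.two (nat_lit 174752530437) (nat_lit 1411383370) (.two (nat_lit 158144135173) (nat_lit 3457155094) (.two (nat_lit 9765388289) (nat_lit 156365750370) (.two (nat_lit 1048576) (nat_lit 10336862433) (.one (nat_lit 2099867) .nil))))),
   .two (nat_lit 2902458376) (nat_lit 21777874959) (.two (nat_lit 34603013) (nat_lit 185002360912) (.two (nat_lit 2902458372) (nat_lit 184986632228) (.two (nat_lit 9781116929) (nat_lit 184986632387) (.two (nat_lit 2097152) (nat_lit 705692121) (.one (nat_lit 1051292) .nil))))),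
   .two (nat_lit 809500680) (nat_lit 10940841999) (.two (nat_lit 4194308) (nat_lit 1847590977) (.two (nat_lit 4194305) (nat_lit 158144135363) (.two (nat_lit 4194304) (nat_lit 10001318343) (.one (nat_lit 21208499142) .nil)))),
   .two (nat_lit 272629768) (nat_lit 1913651215) (.two (nat_lit 4194308) (nat_lit 156465365105) (.two (nat_lit 4194305) (nat_lit 1376781034) (.two (nat_lit 4194304) (nat_lit 156364703089) (.one (nat_lit 1050199) .nil)))),
   .two (nat_lit 159217877000) (nat_lit 117440527) (.two (nat_lit 169869316) (nat_lit 1795162179) (.two (nat_lit 2097153) (nat_lit 2936012998) (.two (nat_lit 2097152) (nat_lit 16778689) (.one (nat_lit 889194104) .nil)))),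
   .two (nat_lit 203423749) (nat_lit 19532873749) (.one (nat_lit 4197022) .nil),
   .two (nat_lit 285212680) (nat_lit 20644364303) (.two (nat_lit 16777220) (nat_lit 159224168515) (.two (nat_lit 156365750273) (nat_lit 12121538920) (.two (nat_lit 2097152) (nat_lit 13195281843) (.one (nat_lit 4638902896) .nil)))),
   .two (nat_lit 813694984) (nat_lit 46523219989) (.two (nat_lit 11559501829) (nat_lit 46481277060) (.two (nat_lit 50331649) (nat_lit 3464495199) (.two (nat_lit 16777216) (nat_lit 158083318250) (.one (nat_lit 16779938) .nil)))),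
   .two (nat_lit 11479810056) (nat_lit 101711887) (.two (nat_lit 11476664324) (nat_lit 183949590594) (.two (nat_lit 34603009) (nat_lit 183848927331) (.two (nat_lit 1048576) (nat_lit 4194795) (.one (nat_lit 4197028) .nil)))),
   .two (nat_lit 101711880) (nat_lit 184549391) (.two (nat_lit 11476664324) (nat_lit 3036676162) (.two (nat_lit 620756993) (nat_lit 11577328371) (.two (nat_lit 16777216) (nat_lit 1050050) (.one (nat_lit 47596963390) .nil)))),
   .two (nat_lit 41943046) (nat_lit 18928893967) (.two (nat_lit 713031684) (nat_lit 4601151525) (.two (nat_lit 713031684) (nat_lit 183848927252) (.two (nat_lit 41943041) (nat_lit 10338959458) (.two (nat_lit 8388608) (nat_lit 156367847649) (.one (nat_lit 171968084) .nil))))),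
   .two (nat_lit 156569174028) (nat_lit 3525312527) (.two (nat_lit 10506731525) (nat_lit 3525312582) (.two (nat_lit 2887778308) (nat_lit 46477082645) (.two (nat_lit 156367847425) (nat_lit 2921332938) (.two (nat_lit 4194304) (nat_lit 304087517) (.one (nat_lit 2099877) .nil))))),
   .two (nat_lit 8388616) (nat_lit 9948889103) (.two (nat_lit 184549378) (nat_lit 183853121660) (.two (nat_lit 8388612) (nat_lit 9948889123) (.two (nat_lit 16777217) (nat_lit 343933137) (.two (nat_lit 16777216) (nat_lit 8389506) (.one (nat_lit 159257725517) .nil))))),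
   .two (nat_lit 135266316) (nat_lit 272629775) (.two (nat_lit 28757196805) (nat_lit 1950351493) (.two (nat_lit 9765388289) (nat_lit 21814575735) (.two (nat_lit 1048576) (nat_lit 1916797811) (.one (nat_lit 4197030) .nil)))),
   .two (nat_lit 1846542344) (nat_lit 809500687) (.two (nat_lit 4194308) (nat_lit 1209008166) (.two (nat_lit 19596836869) (nat_lit 272629796) (.two (nat_lit 9765388289) (nat_lit 3460300896) (.two (nat_lit 4194304) (nat_lit 1276117892) (.one (nat_lit 1051304) .nil))))),
   .two (nat_lit 159224168456) (nat_lit 203423759) (.two (nat_lit 20644364293) (nat_lit 3458203780) (.two (nat_lit 2097153) (nat_lit 183853121745) (.two (nat_lit 2097152) (nat_lit 156372042200) (.one (nat_lit 2098735) .nil)))),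
   .two (nat_lit 1291845640) (nat_lit 10336862223) (.two (nat_lit 1291845636) (nat_lit 183947493451) (.two (nat_lit 10385096707) (nat_lit 606077050) (.two (nat_lit 2097153) (nat_lit 50332245) (.two (nat_lit 16777216) (nat_lit 46407877513) (.one (nat_lit 16778877) .nil))))),
   .two (nat_lit 18933088264) (nat_lit 673185817) (.two (nat_lit 102760453) (nat_lit 11492393074) (.two (nat_lit 41943041) (nat_lit 11525948020) (.two (nat_lit 8388608) (nat_lit 83886955) (.one (nat_lit 11544822761) .nil)))),
   .two (nat_lit 12114198535) (nat_lit 612368399) (.two (nat_lit 183845781507) (nat_lit 75497539) (.two (nat_lit 34603009) (nat_lit 21214789670) (.two (nat_lit 1048576) (nat_lit 8390083) (.one (nat_lit 1049558) .nil)))),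
   .two (nat_lit 9934209031) (nat_lit 1954545693) (.two (nat_lit 606076931) (nat_lit 10544480329) (.two (nat_lit 606076929) (nat_lit 8388991) (.two (nat_lit 2097152) (nat_lit 1182795197) (.one (nat_lit 1182796435) .nil)))),
   .two (nat_lit 2961178632) (nat_lit 2954887179) (.two (nat_lit 746586117) (nat_lit 21811429413) (.two (nat_lit 41943045) (nat_lit 9866051605) (.two (nat_lit 2097153) (nat_lit 9798943185) (.two (nat_lit 1048576) (nat_lit 1176502497) (.one (nat_lit 2099883) .nil))))),
   .two (nat_lit 37748743) (nat_lit 159224168488) (.two (nat_lit 156372041731) (nat_lit 156569174083) (.two (nat_lit 156372041729) (nat_lit 11580473382) (.two (nat_lit 2097152) (nat_lit 8390085) (.one (nat_lit 8391340) .nil)))),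
   .two (nat_lit 612368392) (nat_lit 11577327656) (.two (nat_lit 176160772) (nat_lit 1276117068) (.two (nat_lit 184986632197) (nat_lit 176160804) (.two (nat_lit 612368385) (nat_lit 68157653) (.two (nat_lit 8388608) (nat_lit 1049495) (.one (nat_lit 235930599) .nil))))),
   .two (nat_lit 47548727301) (nat_lit 202375190) (.one (nat_lit 2099885) .nil),
   .two (nat_lit 37748744) (nat_lit 10939793423) (.two (nat_lit 169869316) (nat_lit 174752530467) (.two (nat_lit 4194308) (nat_lit 166196150290) (.two (nat_lit 156365750273) (nat_lit 21777875642) (.two (nat_lit 2097152) (nat_lit 4194785) (.one (nat_lit 4195968) .nil))))),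
   .two (nat_lit 9948889096) (nat_lit 157036838927) (.two (nat_lit 9881780229) (nat_lit 1746927692) (.two (nat_lit 184549380) (nat_lit 157036838947) (.two (nat_lit 620756993) (nat_lit 28086108369) (.two (nat_lit 2097152) (nat_lit 9866052495) (.one (nat_lit 174685423224) .nil))))),
   .two (nat_lit 10370416648) (nat_lit 46980399119) (.two (nat_lit 639631365) (nat_lit 166132187173) (.two (nat_lit 639631365) (nat_lit 10506731541) (.two (nat_lit 4194305) (nat_lit 9900654794) (.two (nat_lit 2097152) (nat_lit 12150899168) (.one (nat_lit 2099778) .nil))))),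
   .two (nat_lit 10336862215) (nat_lit 8388623) (.two (nat_lit 8388611) (nat_lit 13222543433) (.two (nat_lit 8388609) (nat_lit 2954887551) (.two (nat_lit 8388608) (nat_lit 35653053) (.one (nat_lit 28791802508) .nil)))),
   .two (nat_lit 11479810056) (nat_lit 1795162127) (.two (nat_lit 117440517) (nat_lit 1916796996) (.two (nat_lit 809500677) (nat_lit 11559501861) (.two (nat_lit 620756993) (nat_lit 13224640721) (.two (nat_lit 16777216) (nat_lit 4195224) (.one (nat_lit 4197038) .nil))))),
   .two (nat_lit 19093520396) (nat_lit 339738651) (.two (nat_lit 1178599432) (nat_lit 10939793429) (.two (nat_lit 11479810052) (nat_lit 10436477041) (.two (nat_lit 37748737) (nat_lit 605028549) (.two (nat_lit 4194304) (nat_lit 1050054) (.one (nat_lit 1051312) .nil))))),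
   .two (nat_lit 1277165576) (nat_lit 18925748239) (.two (nat_lit 16777220) (nat_lit 12115247143) (.two (nat_lit 9934209029) (nat_lit 12129927242) (.two (nat_lit 9766436865) (nat_lit 13187940556) (.two (nat_lit 1048576) (nat_lit 270533514) (.one (nat_lit 1051314) .nil))))),
   .two (nat_lit 272629768) (nat_lit 3525312527) (.two (nat_lit 4194308) (nat_lit 3525312546) (.two (nat_lit 4194308) (nat_lit 3525312548) (.two (nat_lit 4194305) (nat_lit 169869408) (.two (nat_lit 4194304) (nat_lit 2098631) (.one (nat_lit 28791802474) .nil))))),
   .two (nat_lit 2887778312) (nat_lit 156569174037) (.two (nat_lit 708837381) (nat_lit 184986632333) (.two (nat_lit 171966469) (nat_lit 4632608786) (.two (nat_lit 4194305) (nat_lit 34603106) (.two (nat_lit 4194304) (nat_lit 12114198754) (.one (nat_lit 2099891) .nil))))),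
   .two (nat_lit 285212679) (nat_lit 18928893967) (.two (nat_lit 2902458371) (nat_lit 1849688136) (.two (nat_lit 37748737) (nat_lit 46489665574) (.two (nat_lit 4194304) (nat_lit 16778696) (.one (nat_lit 1413481430) .nil)))),
   .two (nat_lit 235929610) (nat_lit 174753579023) (.two (nat_lit 11543773189) (nat_lit 28758245413) (.two (nat_lit 11543773189) (nat_lit 1310720020) (.two (nat_lit 34603009) (nat_lit 174686470242) (.two (nat_lit 1048576) (nat_lit 10940842209) (.one (nat_lit 773850069) .nil))))),
   .two (nat_lit 1745879048) (nat_lit 10437525525) (.two (nat_lit 20637024260) (nat_lit 156533522469) (.two (nat_lit 10336862213) (nat_lit 20704133138) (.two (nat_lit 2097153) (nat_lit 4027580790) (.two (nat_lit 1048576) (nat_lit 2921332964) (.one (nat_lit 2099892) .nil))))),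
   .two (nat_lit 620757000) (nat_lit 11543773199) (.two (nat_lit 83886085) (nat_lit 10503585831) (.two (nat_lit 4194305) (nat_lit 19612565543) (.two (nat_lit 4194304) (nat_lit 16778697) (.one (nat_lit 1947206145) .nil)))),
   .two (nat_lit 18925748232) (nat_lit 159224168463) (.two (nat_lit 16777221) (nat_lit 159224168483) (.two (nat_lit 16777221) (nat_lit 3557818390) (.two (nat_lit 16777217) (nat_lit 21214789727) (.two (nat_lit 1048576) (nat_lit 2323644642) (.one (nat_lit 16779957) .nil))))),
   .two (nat_lit 21214789640) (nat_lit 184549416) (.two (nat_lit 721420293) (nat_lit 10913579076) (.two (nat_lit 721420291) (nat_lit 679477364) (.two (nat_lit 50331649) (nat_lit 156372041928) (.two (nat_lit 4194304) (nat_lit 9982444430) (.one (nat_lit 8391351) .nil))))),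
   .two (nat_lit 68157448) (nat_lit 2969567247) (.two (nat_lit 705691652) (nat_lit 46992982148) (.two (nat_lit 620756993) (nat_lit 12114199240) (.two (nat_lit 4194304) (nat_lit 620757897) (.one (nat_lit 4195972) .nil)))),
   .two (nat_lit 16777224) (nat_lit 158150426635) (.two (nat_lit 20644364292) (nat_lit 16777280) (.two (nat_lit 612368385) (nat_lit 620757187) (.two (nat_lit 8388608) (nat_lit 18941477093) (.one (nat_lit 16778885) .nil)))),
   .two (nat_lit 185021235210) (nat_lit 10544480278) (.two (nat_lit 46407876610) (nat_lit 75497509) (.two (nat_lit 3525312517) (nat_lit 612368405) (.two (nat_lit 2097153) (nat_lit 156976021965) (.two (nat_lit 2097152) (nat_lit 156976021965) (.one (nat_lit 8391352) .nil))))),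
   .two (nat_lit 3525312520) (nat_lit 10369368079) (.two (nat_lit 705691650) (nat_lit 1310720126) (.two (nat_lit 34603013) (nat_lit 8388643) (.two (nat_lit 612368385) (nat_lit 166229705358) (.two (nat_lit 1048576) (nat_lit 19530777048) (.one (nat_lit 21778926173) .nil))))),
   .two (nat_lit 37748744) (nat_lit 1753219087) (.two (nat_lit 4194308) (nat_lit 1753219107) (.two (nat_lit 4194308) (nat_lit 184993972242) (.two (nat_lit 606076929) (nat_lit 158083317970) (.two (nat_lit 2097152) (nat_lit 4195226) (.one (nat_lit 2098822) .nil))))),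
   .two (nat_lit 41943048) (nat_lit 12117344267) (.two (nat_lit 8388612) (nat_lit 12117344291) (.two (nat_lit 8388612) (nat_lit 12117344275) (.two (nat_lit 8388609) (nat_lit 12150898783) (.two (nat_lit 8388608) (nat_lit 4194796) (.one (nat_lit 8391353) .nil))))),
   .two (nat_lit 156365750280) (nat_lit 1916796943) (.two (nat_lit 50331653) (nat_lit 19599982629) (.two (nat_lit 50331653) (nat_lit 185021235222) (.two (nat_lit 2097153) (nat_lit 166132187231) (.two (nat_lit 16777216) (nat_lit 2923430378) (.one (nat_lit 16779962) .nil))))),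
   .two (nat_lit 9768534024) (nat_lit 1753219087) (.two (nat_lit 2889875460) (nat_lit 28093448259) (.two (nat_lit 4194305) (nat_lit 21785215171) (.two (nat_lit 4194304) (nat_lit 18933088715) (.one (nat_lit 11517560352) .nil)))),
   .two (nat_lit 20640169993) (nat_lit 822083599) (.two (nat_lit 156367847429) (nat_lit 9781116965) (.two (nat_lit 156367847429) (nat_lit 16777236) (.two (nat_lit 37748737) (nat_lit 285212767) (.two (nat_lit 4194304) (nat_lit 11492393185) (.one (nat_lit 1224737749) .nil))))),
   .two (nat_lit 3464495112) (nat_lit 12117344271) (.two (nat_lit 11479810052) (nat_lit 46514831398) (.two (nat_lit 47555018757) (nat_lit 12117344292) (.two (nat_lit 8388609) (nat_lit 641728608) (.two (nat_lit 1048576) (nat_lit 158653744004) (.one (nat_lit 8391356) .nil))))),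
   .two (nat_lit 9881780232) (nat_lit 183845781519) (.two (nat_lit 1358954501) (nat_lit 165525061706) (.two (nat_lit 50331653) (nat_lit 4027580438) (.two (nat_lit 156365750273) (nat_lit 218104018) (.two (nat_lit 1048576) (nat_lit 2954887630) (.one (nat_lit 159217879612) .nil))))),
   .two (nat_lit 10343153671) (nat_lit 1277165583) (.two (nat_lit 37748739) (nat_lit 156573368393) (.two (nat_lit 37748737) (nat_lit 8388993) (.two (nat_lit 4194304) (nat_lit 13228836281) (.one (nat_lit 8391357) .nil)))),
   .two (nat_lit 9915334666) (nat_lit 46409973775) (.two (nat_lit 46409973768) (nat_lit 10015997974) (.two (nat_lit 1191182341) (nat_lit 2889875588) (.two (nat_lit 4194305) (nat_lit 174768259767) (.two (nat_lit 4194304) (nat_lit 654311896) (.one (nat_lit 158079126110) .nil))))),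
   .two (nat_lit 9934209032) (nat_lit 713031702) (.two (nat_lit 159224168453) (nat_lit 11477712977) (.two (nat_lit 169869316) (nat_lit 713031702) (.two (nat_lit 156372041729) (nat_lit 9867100258) (.two (nat_lit 8388608) (nat_lit 1277165793) (.one (nat_lit 2099902) .nil))))),
   .two (nat_lit 184549381) (nat_lit 158176641045) (.one (nat_lit 16779967) .nil),
   .two (nat_lit 1350565895) (nat_lit 3525312527) (.two (nat_lit 75497475) (nat_lit 4028629105) (.two (nat_lit 612368385) (nat_lit 2921332774) (.two (nat_lit 4194304) (nat_lit 1310720471) (.one (nat_lit 8390279) .nil)))),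
   .two (nat_lit 11479810056) (nat_lit 1745879055) (.two (nat_lit 11546918917) (nat_lit 11577327683) (.two (nat_lit 9768534017) (nat_lit 9798943410) (.two (nat_lit 4194304) (nat_lit 10370417516) (.one (nat_lit 2099904) .nil)))),
   .two (nat_lit 176160776) (nat_lit 1745879055) (.two (nat_lit 8388613) (nat_lit 1376780325) (.two (nat_lit 8388613) (nat_lit 158075977749) (.two (nat_lit 156364701697) (nat_lit 9906946147) (.two (nat_lit 8388608) (nat_lit 2349859790) (.one (nat_lit 1051329) .nil))))),
   .two (nat_lit 11559501832) (nat_lit 171966475) (.two (nat_lit 4194306) (nat_lit 16777364) (.two (nat_lit 721420292) (nat_lit 339738644) (.two (nat_lit 50331649) (nat_lit 876609631) (.two (nat_lit 16777216) (nat_lit 876609760) (.one (nat_lit 16779970) .nil))))),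
   .two (nat_lit 16777220) (nat_lit 713031700) (.one (nat_lit 8390280) .nil),
   .two (nat_lit 4601151496) (nat_lit 19596836879) (.two (nat_lit 4194308) (nat_lit 19093520421) (.two (nat_lit 4194308) (nat_lit 11510218772) (.two (nat_lit 4194305) (nat_lit 806355043) (.two (nat_lit 1048576) (nat_lit 742392290) (.one (nat_lit 1051331) .nil))))),
   .two (nat_lit 11559501832) (nat_lit 1913651215) (.two (nat_lit 721420292) (nat_lit 1913651268) (.two (nat_lit 620756993) (nat_lit 2887778510) (.two (nat_lit 16777216) (nat_lit 773850005) (.one (nat_lit 2098745) .nil)))),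
   .two (nat_lit 9881780239) (nat_lit 10939793423) (.two (nat_lit 620757000) (nat_lit 159224168485) (.two (nat_lit 620757000) (nat_lit 1317011477) (.two (nat_lit 3531603973) (nat_lit 21793603680) (.two (nat_lit 2894069763) (nat_lit 9948889283) (.two (nat_lit 8388609) (nat_lit 9781117387) (.two (nat_lit 1048576) (nat_lit 3565159385) (.one (nat_lit 1051384) .nil))))))),
   .two (nat_lit 10370416648) (nat_lit 104857639) (.two (nat_lit 639631365) (nat_lit 104857639) (.two (nat_lit 16777216) (nat_lit 2098150) (.one (nat_lit 2099961) .nil))),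
   .two (nat_lit 47548727311) (nat_lit 46980399121) (.two (nat_lit 3460300808) (nat_lit 47548727332) (.two (nat_lit 169869320) (nat_lit 306184210) (.two (nat_lit 2956984325) (nat_lit 11477713094) (.two (nat_lit 46407876611) (nat_lit 4601151683) (.two (nat_lit 9768534017) (nat_lit 21777875811) (.two (nat_lit 1048576) (nat_lit 46407877593) (.one (nat_lit 1051386) .nil))))))),
   .two (nat_lit 1178599439) (nat_lit 4605345807) (.two (nat_lit 809500678) (nat_lit 166203490343) (.two (nat_lit 9940500488) (nat_lit 47582281765) (.two (nat_lit 11546918917) (nat_lit 46984593446) (.two (nat_lit 11546918917) (nat_lit 46984593504) (.two (nat_lit 606076929) (nat_lit 21785215459) (.two (nat_lit 2097152) (nat_lit 8390202) (.one (nat_lit 203425445) .nil))))))),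
   .two (nat_lit 16777231) (nat_lit 705691663) (.two (nat_lit 184549382) (nat_lit 4631560325) (.two (nat_lit 169869320) (nat_lit 1426063397) (.two (nat_lit 20638072834) (nat_lit 1745879235) (.two (nat_lit 1746927621) (nat_lit 11610882145) (.two (nat_lit 2097153) (nat_lit 1175453923) (.two (nat_lit 16777216) (nat_lit 1050171) (.one (nat_lit 10001319584) .nil))))))),
   .two (nat_lit 169869327) (nat_lit 11584667665) (.two (nat_lit 41943048) (nat_lit 605028419) (.two (nat_lit 4194308) (nat_lit 9899606214) (.two (nat_lit 37748739) (nat_lit 11477713254) (.two (nat_lit 2097153) (nat_lit 843055976) (.two (nat_lit 1048576) (nat_lit 2098748) (.one (nat_lit 2099963) .nil)))))),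
   .two (nat_lit 16777231) (nat_lit 1779433493) (.two (nat_lit 16777224) (nat_lit 1779433493) (.two (nat_lit 16777218) (nat_lit 235930084) (.two (nat_lit 16777217) (nat_lit 235930084) (.two (nat_lit 1048576) (nat_lit 37262196971) (.one (nat_lit 16780028) .nil))))),
   .two (nat_lit 11543773191) (nat_lit 3527409730) (.two (nat_lit 11476664323) (nat_lit 4194342) (.two (nat_lit 1048576) (nat_lit 10942940174) (.one (nat_lit 235930112) .nil))),
   .two (nat_lit 28758245383) (nat_lit 10452205700) (.two (nat_lit 10370416643) (nat_lit 1761607719) (.two (nat_lit 2097152) (nat_lit 50332630) (.one (nat_lit 16780029) .nil))),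
   .two (nat_lit 16777223) (nat_lit 1376780430) (.two (nat_lit 16777219) (nat_lit 3524263975) (.two (nat_lit 16777216) (nat_lit 1049576) (.one (nat_lit 1050303) .nil))),
   .two (nat_lit 654311431) (nat_lit 2316304451) (.two (nat_lit 705691651) (nat_lit 318767142) (.two (nat_lit 1048576) (nat_lit 2969567736) (.one (nat_lit 46473937408) .nil))),
   .two (nat_lit 13203669000) (nat_lit 9902751816) (.two (nat_lit 19532873733) (nat_lit 2969567270) (.two (nat_lit 2097152) (nat_lit 1049577) (.one (nat_lit 4197118) .nil))),
   .two (nat_lit 4613734407) (nat_lit 343933043) (.two (nat_lit 75497475) (nat_lit 672137254) (.two (nat_lit 16777216) (nat_lit 1049578) (.one (nat_lit 1050305) .nil))),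
   .two (nat_lit 75497487) (nat_lit 47547678751) (.two (nat_lit 46407876616) (nat_lit 8388672) (.two (nat_lit 46407876612) (nat_lit 8388803) (.two (nat_lit 156365750273) (nat_lit 46406828900) (.two (nat_lit 1048576) (nat_lit 13222544330) (.one (nat_lit 1051392) .nil))))),
   .two (nat_lit 12117344267) (nat_lit 10015997973) (.two (nat_lit 2969567244) (nat_lit 11513364500) (.two (nat_lit 2902458373) (nat_lit 157038936162) (.two (nat_lit 16777217) (nat_lit 9802088673) (.two (nat_lit 4194304) (nat_lit 3036676328) (.one (nat_lit 16778946) .nil))))),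
   .two (nat_lit 176160783) (nat_lit 606076943) (.two (nat_lit 37748744) (nat_lit 713031717) (.two (nat_lit 176160776) (nat_lit 169869332) (.two (nat_lit 3464495109) (nat_lit 12618563783) (.two (nat_lit 8388611) (nat_lit 1344274530) (.two (nat_lit 2097153) (nat_lit 158183981520) (.two (nat_lit 2097152) (nat_lit 746587090) (.one (nat_lit 8391425) .nil))))))),
   .two (nat_lit 9881780239) (nat_lit 28693233689) (.two (nat_lit 1749024776) (nat_lit 12054429733) (.two (nat_lit 9881780232) (nat_lit 183949590548) (.two (nat_lit 183848927236) (nat_lit 2357199057) (.two (nat_lit 1283457027) (nat_lit 156548202698) (.two (nat_lit 9781116929) (nat_lit 183949590984) (.two (nat_lit 8388608) (nat_lit 11492393939) (.one (nat_lit 184993975007) .nil))))))),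
   .two (nat_lit 184416206863) (nat_lit 28758245391) (.two (nat_lit 184416206856) (nat_lit 20738736148) (.two (nat_lit 12114198533) (nat_lit 19027460194) (.two (nat_lit 606076929) (nat_lit 10906239438) (.two (nat_lit 1048576) (nat_lit 203423976) (.one (nat_lit 2098883) .nil))))),
   .two (nat_lit 21785214987) (nat_lit 156968681493) (.two (nat_lit 159224168454) (nat_lit 156968681493) (.two (nat_lit 11476664322) (nat_lit 156372041826) (.two (nat_lit 34603009) (nat_lit 156372041952) (.two (nat_lit 1048576) (nat_lit 243269864) (.one (nat_lit 8391427) .nil))))),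
   .two (nat_lit 47550824455) (nat_lit 639631431) (.two (nat_lit 20637024259) (nat_lit 19027460134) (.two (nat_lit 1048576) (nat_lit 2098753) (.one (nat_lit 2099972) .nil))),
   .two (nat_lit 16777231) (nat_lit 2954887183) (.two (nat_lit 2954887176) (nat_lit 16777250) (.two (nat_lit 16777224) (nat_lit 2954887238) (.two (nat_lit 184549381) (nat_lit 2887778342) (.two (nat_lit 184549381) (nat_lit 2887778400) (.two (nat_lit 16777217) (nat_lit 185021235427) (.two (nat_lit 16777216) (nat_lit 2098754) (.one (nat_lit 1761609376) .nil))))))),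
   .two (nat_lit 46409973771) (nat_lit 75497487) (.two (nat_lit 12054429704) (nat_lit 272629795) (.two (nat_lit 75497480) (nat_lit 4634705940) (.two (nat_lit 183853121540) (nat_lit 4194401) (.two (nat_lit 159224168453) (nat_lit 4030726243) (.two (nat_lit 156372041729) (nat_lit 4194789) (.two (nat_lit 4194304) (nat_lit 19604178477) (.one (nat_lit 1379928792) .nil))))))),
   .two (nat_lit 19532873743) (nat_lit 4605345803) (.two (nat_lit 10343153672) (nat_lit 46409973781) (.two (nat_lit 156367847429) (nat_lit 156372041823) (.two (nat_lit 8388609) (nat_lit 1849688292) (.two (nat_lit 4194304) (nat_lit 243269866) (.one (nat_lit 8391430) .nil))))),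
   .two (nat_lit 10504634383) (nat_lit 9948889099) (.two (nat_lit 117440520) (nat_lit 3558866964) (.two (nat_lit 9881780229) (nat_lit 47548727395) (.two (nat_lit 620756993) (nat_lit 3525312746) (.two (nat_lit 16777216) (nat_lit 3525312746) (.one (nat_lit 16779988) .nil))))),
   .two (nat_lit 9934209035) (nat_lit 4027580461) (.two (nat_lit 169869320) (nat_lit 612368419) (.two (nat_lit 169869320) (nat_lit 343932946) (.two (nat_lit 8388610) (nat_lit 158144135368) (.two (nat_lit 11543773189) (nat_lit 10001317987) (.two (nat_lit 34603009) (nat_lit 19128123856) (.two (nat_lit 1048576) (nat_lit 2350908373) (.one (nat_lit 1051399) .nil))))))),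
   .two (nat_lit 2954887179) (nat_lit 272629776) (.two (nat_lit 270532614) (nat_lit 272629796) (.two (nat_lit 272629768) (nat_lit 47582281746) (.two (nat_lit 18926796805) (nat_lit 20640170182) (.two (nat_lit 2889875459) (nat_lit 169869406) (.two (nat_lit 50331649) (nat_lit 809501538) (.two (nat_lit 16777216) (nat_lit 205521881) (.one (nat_lit 4197128) .nil))))))),
   .two (nat_lit 1343225871) (nat_lit 47555018763) (.two (nat_lit 3464495112) (nat_lit 185020186644) (.two (nat_lit 705691652) (nat_lit 156976021706) (.two (nat_lit 8388609) (nat_lit 158176641249) (.two (nat_lit 8388608) (nat_lit 11543773416) (.one (nat_lit 21811431076) .nil))))),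
   .two (nat_lit 4194311) (nat_lit 9881780258) (.two (nat_lit 4194307) (nat_lit 156548202534) (.two (nat_lit 1048576) (nat_lit 1291846141) (.one (nat_lit 4197131) .nil))),
   .two (nat_lit 19599982599) (nat_lit 46414168098) (.two (nat_lit 18928893955) (nat_lit 3565158438) (.two (nat_lit 4194304) (nat_lit 343933436) (.one (nat_lit 8391436) .nil))),
   .two (nat_lit 276824071) (nat_lit 1379926089) (.two (nat_lit 620756995) (nat_lit 4605345830) (.two (nat_lit 1048576) (nat_lit 8390215) (.one (nat_lit 4197133) .nil))),
   .two (nat_lit 156367847431) (nat_lit 1847591025) (.two (nat_lit 156367847427) (nat_lit 9766436902) (.two (nat_lit 4194304) (nat_lit 1847591416) (.one (nat_lit 19027461133) .nil))),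
   .two (nat_lit 2961178631) (nat_lit 754974788) (.two (nat_lit 721420291) (nat_lit 185027526695) (.two (nat_lit 1048576) (nat_lit 8390216) (.one (nat_lit 8391438) .nil))),
   .two (nat_lit 41943055) (nat_lit 705691670) (.two (nat_lit 4194312) (nat_lit 8388627) (.two (nat_lit 4194308) (nat_lit 343933138) (.two (nat_lit 4194305) (nat_lit 158150427103) (.two (nat_lit 1048576) (nat_lit 608174587) (.one (nat_lit 272632560) .nil))))),
   .two (nat_lit 620757007) (nat_lit 809500687) (.two (nat_lit 809500680) (nat_lit 620757027) (.two (nat_lit 620757000) (nat_lit 4634705940) (.two (nat_lit 16777218) (nat_lit 843055299) (.two (nat_lit 184549381) (nat_lit 13224640607) (.two (nat_lit 16777217) (nat_lit 46980399563) (.two (nat_lit 16777216) (nat_lit 4195308) (.one (nat_lit 239078110) .nil))))))),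
   .two (nat_lit 159232557071) (nat_lit 165526110223) (.two (nat_lit 16777222) (nat_lit 807403559) (.two (nat_lit 822083592) (nat_lit 156367847459) (.two (nat_lit 708837381) (nat_lit 50331843) (.two (nat_lit 4194305) (nat_lit 721420763) (.two (nat_lit 2097152) (nat_lit 13237225010) (.one (nat_lit 183913940678) .nil)))))),
   .two (nat_lit 754974735) (nat_lit 165528207385) (.two (nat_lit 822083590) (nat_lit 19029557368) (.two (nat_lit 11492392968) (nat_lit 843055141) (.two (nat_lit 46409973764) (nat_lit 855638054) (.two (nat_lit 46409973764) (nat_lit 855638112) (.two (nat_lit 4194305) (nat_lit 183962173907) (.two (nat_lit 4194304) (nat_lit 11559502791) (.one (nat_lit 117443269) .nil))))))),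
   .two (nat_lit 620757007) (nat_lit 306184209) (.two (nat_lit 809500678) (nat_lit 20637024370) (.two (nat_lit 11479810056) (nat_lit 12147753037) (.two (nat_lit 184549380) (nat_lit 158146232359) (.two (nat_lit 1178599429) (nat_lit 1358954696) (.two (nat_lit 605028353) (nat_lit 876610019) (.two (nat_lit 1048576) (nat_lit 4195914) (.one (nat_lit 184986633893) .nil))))))),
   .two (nat_lit 169869327) (nat_lit 75497487) (.two (nat_lit 169869320) (nat_lit 8388645) (.two (nat_lit 169869320) (nat_lit 3028287509) (.two (nat_lit 2097157) (nat_lit 12054429905) (.two (nat_lit 2097155) (nat_lit 9940500578) (.two (nat_lit 2097153) (nat_lit 28093448664) (.two (nat_lit 1048576) (nat_lit 2894070738) (.one (nat_lit 746588929) .nil))))))),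
   .two (nat_lit 12114198543) (nat_lit 203423766) (.two (nat_lit 101711880) (nat_lit 203423766) (.two (nat_lit 28758245381) (nat_lit 12047089763) (.two (nat_lit 34603009) (nat_lit 136315345) (.two (nat_lit 1048576) (nat_lit 773849321) (.one (nat_lit 11611932356) .nil))))),
   .two (nat_lit 174753579015) (nat_lit 2923429956) (.two (nat_lit 19530776579) (nat_lit 10942939174) (.two (nat_lit 2097152) (nat_lit 1212154360) (.one (nat_lit 1782580236) .nil))),
   .two (nat_lit 11559501831) (nat_lit 3557818441) (.two (nat_lit 68157443) (nat_lit 185002360870) (.two (nat_lit 1048576) (nat_lit 11492393464) (.one (nat_lit 754975757) .nil))),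
   .two (nat_lit 185002360847) (nat_lit 1745879055) (.two (nat_lit 50331654) (nat_lit 46407876745) (.two (nat_lit 47563407368) (nat_lit 10336862243) (.two (nat_lit 1277165573) (nat_lit 352321731) (.two (nat_lit 34603009) (nat_lit 203424612) (.two (nat_lit 1048576) (nat_lit 2988442570) (.one (nat_lit 638584481) .nil)))))),
   .two (nat_lit 13191086087) (nat_lit 4647288898) (.two (nat_lit 37748739) (nat_lit 185002360870) (.two (nat_lit 4194304) (nat_lit 166245434345) (.one (nat_lit 16780049) .nil))),
   .two (nat_lit 620756999) (nat_lit 1343225923) (.two (nat_lit 83886083) (nat_lit 1309671462) (.two (nat_lit 16777216) (nat_lit 18925749226) (.one (nat_lit 10369370842) .nil))),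
   .two (nat_lit 47548727311) (nat_lit 157038936079) (.two (nat_lit 157038936072) (nat_lit 47548727332) (.two (nat_lit 47548727304) (nat_lit 2923429908) (.two (nat_lit 3458203653) (nat_lit 10942939232) (.two (nat_lit 46407876611) (nat_lit 9802088643) (.two (nat_lit 2097153) (nat_lit 4634706379) (.two (nat_lit 2097152) (nat_lit 239076332) (.one (nat_lit 156969732856) .nil))))))),
   .two (nat_lit 822083599) (nat_lit 46474985489) (.two (nat_lit 184549382) (nat_lit 184987680807) (.two (nat_lit 270532615) (nat_lit 156581756965) (.two (nat_lit 16777220) (nat_lit 184987680807) (.two (nat_lit 46422556677) (nat_lit 1780482144) (.two (nat_lit 34603009) (nat_lit 156567077347) (.two (nat_lit 1048576) (nat_lit 2098766) (.one (nat_lit 1913652901) .nil))))))),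
   .two (nat_lit 8388623) (nat_lit 12150898705) (.two (nat_lit 171966470) (nat_lit 8388672) (.two (nat_lit 8388616) (nat_lit 809500707) (.two (nat_lit 4194308) (nat_lit 10007609539) (.two (nat_lit 4194305) (nat_lit 10510926051) (.two (nat_lit 4194304) (nat_lit 10376709685) (.one (nat_lit 4196046) .nil)))))),
   .two (nat_lit 270532615) (nat_lit 10015998019) (.two (nat_lit 739246085) (nat_lit 12633243686) (.two (nat_lit 16777216) (nat_lit 1411384294) (.one (nat_lit 3021998831) .nil))),
   .two (nat_lit 158143086599) (nat_lit 3458203682) (.two (nat_lit 165526110211) (nat_lit 1276117030) (.two (nat_lit 2097152) (nat_lit 10335814628) (.one (nat_lit 11543774868) .nil))),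
   .two (nat_lit 4601151495) (nat_lit 2097227) (.two (nat_lit 46409973763) (nat_lit 4599054375) (.two (nat_lit 8388608) (nat_lit 673186790) (.one (nat_lit 156971830009) .nil))),
   .two (nat_lit 9768534023) (nat_lit 166130090018) (.two (nat_lit 9768534019) (nat_lit 156567076902) (.two (nat_lit 4194304) (nat_lit 28758245887) (.one (nat_lit 2099990) .nil))),
   .two (nat_lit 9781116936) (nat_lit 46409973794) (.two (nat_lit 4601151493) (nat_lit 21793603623) (.two (nat_lit 8388608) (nat_lit 4195922) (.one (nat_lit 809503457) .nil))),
   .two (nat_lit 742391823) (nat_lit 11543773200) (.two (nat_lit 34603014) (nat_lit 9867100228) (.two (nat_lit 11543773191) (nat_lit 740294693) (.two (nat_lit 2889875461) (nat_lit 304087078) (.two (nat_lit 705691651) (nat_lit 1377829064) (.two (nat_lit 34603009) (nat_lit 1344274910) (.two (nat_lit 16777216) (nat_lit 1049556) (.one (nat_lit 156364703373) .nil))))))),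
   .two (nat_lit 21223178251) (nat_lit 174752530447) (.two (nat_lit 21777874952) (nat_lit 654311459) (.two (nat_lit 654311432) (nat_lit 2987393046) (.two (nat_lit 705691652) (nat_lit 184549473) (.two (nat_lit 705691652) (nat_lit 184549470) (.two (nat_lit 34603009) (nat_lit 156548202981) (.two (nat_lit 16777216) (nat_lit 1050195) (.one (nat_lit 16780056) .nil))))))),
   .two (nat_lit 1343225871) (nat_lit 159217877003) (.two (nat_lit 1343225864) (nat_lit 2954887190) (.two (nat_lit 158144135173) (nat_lit 184416206947) (.two (nat_lit 34603009) (nat_lit 20638073313) (.two (nat_lit 1048576) (nat_lit 12618563817) (.one (nat_lit 1051417) .nil))))),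
   .two (nat_lit 50331663) (nat_lit 11479810063) (.two (nat_lit 50331656) (nat_lit 13224640530) (.two (nat_lit 1916796933) (nat_lit 3539992778) (.two (nat_lit 16777217) (nat_lit 1749024996) (.two (nat_lit 16777216) (nat_lit 12050235895) (.one (nat_lit 16780058) .nil))))),
   .two (nat_lit 10370416655) (nat_lit 11543773201) (.two (nat_lit 171966470) (nat_lit 1377828903) (.two (nat_lit 4194311) (nat_lit 639631395) (.two (nat_lit 4194308) (nat_lit 1377828903) (.two (nat_lit 171966469) (nat_lit 2921332832) (.two (nat_lit 37748737) (nat_lit 47582282203) (.two (nat_lit 16777216) (nat_lit 10369369048) (.one (nat_lit 2953840334) .nil))))))),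
   .two (nat_lit 713031695) (nat_lit 2954887185) (.two (nat_lit 3458203656) (nat_lit 2923429965) (.two (nat_lit 713031688) (nat_lit 3558866962) (.two (nat_lit 9873391621) (nat_lit 46407876704) (.two (nat_lit 1283457027) (nat_lit 47582281923) (.two (nat_lit 612368385) (nat_lit 158077026759) (.two (nat_lit 4194304) (nat_lit 9940501465) (.one (nat_lit 1413483214) .nil))))))),
   .two (nat_lit 21793603591) (nat_lit 9899606081) (.two (nat_lit 1343225861) (nat_lit 21223178278) (.two (nat_lit 4194304) (nat_lit 16778837) (.one (nat_lit 1309672458) .nil))),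
   .two (nat_lit 47548727303) (nat_lit 19142803527) (.two (nat_lit 169869315) (nat_lit 185002360871) (.two (nat_lit 2097152) (nat_lit 16778840) (.one (nat_lit 16780059) .nil))),
   .two (nat_lit 2954887183) (nat_lit 11580473375) (.two (nat_lit 10506731528) (nat_lit 20738736195) (.two (nat_lit 203423749) (nat_lit 1849688160) (.two (nat_lit 2887778307) (nat_lit 156569174211) (.two (nat_lit 2097153) (nat_lit 843055563) (.two (nat_lit 2097152) (nat_lit 12150899692) (.one (nat_lit 28791802574) .nil)))))),
   .two (nat_lit 101711887) (nat_lit 4599054367) (.two (nat_lit 158144135176) (nat_lit 185020186691) (.two (nat_lit 1779433477) (nat_lit 9900654630) (.two (nat_lit 1779433477) (nat_lit 9900654688) (.two (nat_lit 34603009) (nat_lit 840958179) (.two (nat_lit 1048576) (nat_lit 10538190369) (.one (nat_lit 269485733) .nil)))))),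
   .two (nat_lit 2954887175) (nat_lit 184993972340) (.two (nat_lit 169869315) (nat_lit 185027526694) (.two (nat_lit 2097152) (nat_lit 166237045713) (.one (nat_lit 12618564096) .nil))),
   .two (nat_lit 1913651207) (nat_lit 21223178311) (.two (nat_lit 1175453699) (nat_lit 1392508966) (.two (nat_lit 1048576) (nat_lit 11022632513) (.one (nat_lit 11022633732) .nil))),
   .two (nat_lit 822083591) (nat_lit 9802088526) (.two (nat_lit 171966467) (nat_lit 13203669030) (.two (nat_lit 1048576) (nat_lit 754975224) (.one (nat_lit 11492393997) .nil))),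
   .two (nat_lit 4599054343) (nat_lit 3527409698) (.two (nat_lit 2097155) (nat_lit 104857638) (.two (nat_lit 2097152) (nat_lit 2923430396) (.one (nat_lit 1051420) .nil))),
   .two (nat_lit 1343225871) (nat_lit 19033751573) (.two (nat_lit 1343225864) (nat_lit 19033751573) (.two (nat_lit 166144770053) (nat_lit 68157535) (.two (nat_lit 16777217) (nat_lit 839909855) (.two (nat_lit 8388608) (nat_lit 1050203) (.one (nat_lit 8391376) .nil))))),
   .two (nat_lit 1358954503) (nat_lit 11618222146) (.two (nat_lit 83886083) (nat_lit 158653743142) (.two (nat_lit 16777216) (nat_lit 276825102) (.one (nat_lit 276825102) .nil))),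
   .two (nat_lit 18933088271) (nat_lit 174752530453) (.two (nat_lit 18933088264) (nat_lit 174752530453) (.two (nat_lit 21207449605) (nat_lit 10343153762) (.two (nat_lit 605028353) (nat_lit 10343153888) (.two (nat_lit 1048576) (nat_lit 2927624424) (.one (nat_lit 1051421) .nil))))),
   .two (nat_lit 2954887183) (nat_lit 47550824459) (.two (nat_lit 203423752) (nat_lit 47550824466) (.two (nat_lit 46409973764) (nat_lit 46474985567) (.two (nat_lit 156367847425) (nat_lit 159251431658) (.two (nat_lit 4194304) (nat_lit 159251431658) (.one (nat_lit 183913941738) .nil))))),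
   .two (nat_lit 1745879047) (nat_lit 156548202534) (.two (nat_lit 1048576) (nat_lit 16778920) .nil),
   .two (nat_lit 2969567239) (nat_lit 10540285990) (.two (nat_lit 16777216) (nat_lit 1178600456) .nil),
   .two (nat_lit 20644364303) (nat_lit 2902458406) (.two (nat_lit 47563407368) (nat_lit 158183981094) (.two (nat_lit 47563407368) (nat_lit 158183981152) (.two (nat_lit 158150426629) (nat_lit 158091706591) (.two (nat_lit 156364701697) (nat_lit 166132188170) (.two (nat_lit 1048576) (nat_lit 174688568974) (.one (nat_lit 20753419044) .nil)))))),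
   .two (nat_lit 28772925455) (nat_lit 1846542370) (.two (nat_lit 28772925455) (nat_lit 1846542372) (.two (nat_lit 2961178632) (nat_lit 184549473) (.two (nat_lit 2961178632) (nat_lit 184549470) (.two (nat_lit 176160770) (nat_lit 158091706591) (.two (nat_lit 176160771) (nat_lit 158192370130) (.two (nat_lit 612368385) (nat_lit 3557819352) (.two (nat_lit 8388608) (nat_lit 3557820066) (.one (nat_lit 156372044576) .nil)))))))),
   .two (nat_lit 285212687) (nat_lit 184993972242) (.two (nat_lit 50331653) (nat_lit 46414168298) (.two (nat_lit 41943041) (nat_lit 2902458602) (.one (nat_lit 8391482) .nil))),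
   .two (nat_lit 46407876616) (nat_lit 855638055) (.two (nat_lit 4194304) (nat_lit 1050282) .nil),
   .two (nat_lit 2887778319) (nat_lit 9768534051) (.two (nat_lit 2887778319) (nat_lit 2889875475) (.two (nat_lit 2887778312) (nat_lit 641728607) (.two (nat_lit 4194306) (nat_lit 166229705168) (.two (nat_lit 2097157) (nat_lit 1178599649) (.two (nat_lit 2097153) (nat_lit 269485010) (.two (nat_lit 1048576) (nat_lit 10370418386) (.one (nat_lit 101714723) .nil))))))),
   .two (nat_lit 174753579015) (nat_lit 10906239014) (.two (nat_lit 2097152) (nat_lit 739247786) .nil),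
   .two (nat_lit 157036838919) (nat_lit 19127074854) (.two (nat_lit 2097152) (nat_lit 1779434504) .nil),
   .two (nat_lit 606076936) (nat_lit 209715238) (.two (nat_lit 4194304) (nat_lit 10503586829) .nil),
   .two (nat_lit 2887778319) (nat_lit 2961178646) (.two (nat_lit 171966469) (nat_lit 165526110443) (.two (nat_lit 4194305) (nat_lit 28086108395) (.one (nat_lit 1051453) .nil))),
   .two (nat_lit 50331663) (nat_lit 156468510740) (.two (nat_lit 2902458370) (nat_lit 4194784) (.two (nat_lit 16777217) (nat_lit 9936306411) (.one (nat_lit 742394684) .nil))),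
   .two (nat_lit 41943047) (nat_lit 11546918950) (.two (nat_lit 8388608) (nat_lit 12048138752) .nil),
   .two (nat_lit 11492392968) (nat_lit 20711473191) (.two (nat_lit 1048576) (nat_lit 16778254) .nil),
   .two (nat_lit 47555018759) (nat_lit 9900654630) (.two (nat_lit 16777216) (nat_lit 183846831116) .nil),
   .two (nat_lit 620756999) (nat_lit 1849688102) (.two (nat_lit 2097152) (nat_lit 4195989) .nil),
   .two (nat_lit 50331655) (nat_lit 158144135206) (.two (nat_lit 16777216) (nat_lit 2098864) .nil),
   .two (nat_lit 28691136520) (nat_lit 157035790374) (.two (nat_lit 8388608) (nat_lit 705692680) .nil),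
   .two (nat_lit 3539992583) (nat_lit 21214789670) (.two (nat_lit 16777216) (nat_lit 19134415360) .nil),
   .two (nat_lit 47548727303) (nat_lit 10372513830) (.two (nat_lit 8388608) (nat_lit 1948254720) .nil),
   .two (nat_lit 4194311) (nat_lit 1929379878) (.two (nat_lit 4194304) (nat_lit 16778929) .nil),
   .two (nat_lit 10336862215) (nat_lit 158091706406) (.two (nat_lit 2097152) (nat_lit 150995456) .nil),
   .two (nat_lit 2097159) (nat_lit 318767142) (.two (nat_lit 2097152) (nat_lit 46473937408) .nil),
   .two (nat_lit 4194319) (nat_lit 183920230438) (.two (nat_lit 4194312) (nat_lit 183920230438) (.two (nat_lit 713031688) (nat_lit 20704133216) (.two (nat_lit 41943045) (nat_lit 183912890591) (.two (nat_lit 34603009) (nat_lit 1344274936) (.two (nat_lit 1048576) (nat_lit 37253809805) (.one (nat_lit 739248970) .nil)))))),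
   .two (nat_lit 2887778319) (nat_lit 11517558806) (.two (nat_lit 203423749) (nat_lit 184986632427) (.two (nat_lit 2097153) (nat_lit 184986632427) (.one (nat_lit 2100032) .nil))),
   .two (nat_lit 639631375) (nat_lit 159250382866) (.two (nat_lit 46407876610) (nat_lit 101712097) (.two (nat_lit 156365750273) (nat_lit 12147753192) (.one (nat_lit 1411386154) .nil))),
   .two (nat_lit 4605345807) (nat_lit 1948254247) (.two (nat_lit 4605345800) (nat_lit 1948254247) (.two (nat_lit 3458203656) (nat_lit 209715296) (.two (nat_lit 11543773189) (nat_lit 136315103) (.two (nat_lit 8388609) (nat_lit 69206528) (.two (nat_lit 1048576) (nat_lit 1920992928) (.one (nat_lit 46514834220) .nil)))))),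
   .two (nat_lit 9781116935) (nat_lit 11014242343) (.two (nat_lit 2097152) (nat_lit 10510926336) .nil),
   .two (nat_lit 101711887) (nat_lit 4028629013) (.two (nat_lit 157036838917) (nat_lit 1175453922) (.two (nat_lit 9765388289) (nat_lit 10504634602) (.one (nat_lit 2100034) .nil))),
   .two (nat_lit 1779433487) (nat_lit 12150898708) (.two (nat_lit 20637024258) (nat_lit 9768534241) (.two (nat_lit 605028353) (nat_lit 1312817385) (.one (nat_lit 4197187) .nil))),
   .two (nat_lit 184416206863) (nat_lit 645922855) (.two (nat_lit 183845781512) (nat_lit 37320917030) (.two (nat_lit 183845781512) (nat_lit 37320917088) (.two (nat_lit 13187940357) (nat_lit 645923043) (.two (nat_lit 2097153) (nat_lit 19100861399) (.two (nat_lit 2097152) (nat_lit 156472706727) (.one (nat_lit 4027583282) .nil)))))),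
   .two (nat_lit 41943055) (nat_lit 843055122) (.two (nat_lit 8388612) (nat_lit 183949590752) (.two (nat_lit 8388609) (nat_lit 19096666344) (.one (nat_lit 8391492) .nil))),
   .two (nat_lit 9881780239) (nat_lit 47548727315) (.two (nat_lit 169869316) (nat_lit 185035915498) (.two (nat_lit 2097153) (nat_lit 11559502056) (.one (nat_lit 2100037) .nil))),
   .two (nat_lit 620757007) (nat_lit 185020186645) (.two (nat_lit 166129041410) (nat_lit 10015998177) (.two (nat_lit 50331649) (nat_lit 3524264171) (.one (nat_lit 1051434) .nil))),
   .two (nat_lit 612368399) (nat_lit 71303189) (.two (nat_lit 46407876610) (nat_lit 641728736) (.two (nat_lit 2097153) (nat_lit 46510637288) (.one (nat_lit 4197190) .nil))),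
   .two (nat_lit 176160776) (nat_lit 159253528615) (.two (nat_lit 16777216) (nat_lit 641729549) .nil),
   .two (nat_lit 713031688) (nat_lit 2956984359) (.two (nat_lit 16777216) (nat_lit 109053586) .nil),
   .two (nat_lit 184549391) (nat_lit 158146232359) (.two (nat_lit 184549384) (nat_lit 158146232359) (.two (nat_lit 809500680) (nat_lit 4043309152) (.two (nat_lit 11479810053) (nat_lit 21223178463) (.two (nat_lit 605028353) (nat_lit 156367847928) (.two (nat_lit 1048576) (nat_lit 165540791973) (.one (nat_lit 4030729016) .nil)))))),
   .two (nat_lit 1343225864) (nat_lit 4632608807) (.two (nat_lit 4194304) (nat_lit 168822418) .nil),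
   .two (nat_lit 12117344263) (nat_lit 37320917030) (.two (nat_lit 1048576) (nat_lit 8390323) .nil),
   .two (nat_lit 157036838919) (nat_lit 46422556710) (.two (nat_lit 2097152) (nat_lit 1224737280) .nil),
   .two (nat_lit 37748751) (nat_lit 16777250) (.two (nat_lit 37748751) (nat_lit 16777252) (.two (nat_lit 171966470) (nat_lit 270532809) (.two (nat_lit 16777223) (nat_lit 10001317983) (.two (nat_lit 4194306) (nat_lit 4632608991) (.two (nat_lit 4194307) (nat_lit 158662132172) (.two (nat_lit 4194305) (nat_lit 10336863201) (.two (nat_lit 4194304) (nat_lit 10351543970) (.one (nat_lit 71306030) .nil)))))))),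
   .two (nat_lit 809500679) (nat_lit 37320917031) (.two (nat_lit 16777216) (nat_lit 8390325) .nil),
   .two (nat_lit 34603019) (nat_lit 8388672) (.two (nat_lit 713031695) (nat_lit 34603026) (.two (nat_lit 41943048) (nat_lit 1276117090) (.two (nat_lit 8388610) (nat_lit 806355412) (.two (nat_lit 8388612) (nat_lit 9866051809) (.two (nat_lit 34603009) (nat_lit 4605346768) (.two (nat_lit 1048576) (nat_lit 310380195) (.one (nat_lit 705694515) .nil))))))),
   .two (nat_lit 9781116936) (nat_lit 10942939174) (.two (nat_lit 2097152) (nat_lit 16778936) .nil),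
   .two (nat_lit 3527409671) (nat_lit 11484004390) (.two (nat_lit 2097152) (nat_lit 21814575616) .nil),
   .two (nat_lit 19529728008) (nat_lit 1780482086) (.two (nat_lit 4194304) (nat_lit 1050297) .nil),
   .two (nat_lit 1343225871) (nat_lit 3464495123) (.two (nat_lit 46414168068) (nat_lit 9798942955) (.two (nat_lit 8388609) (nat_lit 9798942955) (.one (nat_lit 10443819817) .nil))),
   .two (nat_lit 16777223) (nat_lit 184989777959) (.two (nat_lit 16777216) (nat_lit 4196026) .nil),
   .two (nat_lit 2097159) (nat_lit 641728550) (.two (nat_lit 1048576) (nat_lit 10003415552) .nil),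
   .two (nat_lit 806354962) (nat_lit 13224640530) (.two (nat_lit 1916796933) (nat_lit 21811429608) (.one (nat_lit 12147755854) .nil)),
   .two (nat_lit 9948889093) (nat_lit 183912890381) (.two (nat_lit 16777216) (nat_lit 158176641125) (.one (nat_lit 4631560478) .nil)),
   .two (nat_lit 721420293) (nat_lit 1753219173) (.one (nat_lit 165532402212) .nil),
   .two (nat_lit 9934209029) (nat_lit 11014242328) (.one (nat_lit 8389661) .nil),
   .two (nat_lit 184986632197) (nat_lit 158083317765) (.two (nat_lit 41943041) (nat_lit 11577327953) .nil),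
   .two (nat_lit 4194308) (nat_lit 10436476952) (.one (nat_lit 20737688085) .nil),
   .two (nat_lit 184549381) (nat_lit 159224168461) (.two (nat_lit 2097152) (nat_lit 28093448726) .nil),
   .two (nat_lit 16777221) (nat_lit 171966469) (.two (nat_lit 4194305) (nat_lit 10552868908) (.one (nat_lit 46507492367) .nil)),
   .two (nat_lit 16777221) (nat_lit 159251431436) (.two (nat_lit 8388608) (nat_lit 18926796841) (.one (nat_lit 2097745) .nil)),
   .two (nat_lit 8388613) (nat_lit 135266318) (.two (nat_lit 4194305) (nat_lit 679477292) (.two (nat_lit 1048576) (nat_lit 11614028040) (.one (nat_lit 184986633991) .nil))),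
   .two (nat_lit 46992982021) (nat_lit 11513364592) (.one (nat_lit 12050236091) .nil),
   .two (nat_lit 8388612) (nat_lit 1746927629) (.two (nat_lit 8388609) (nat_lit 10370416655) (.two (nat_lit 2097152) (nat_lit 713031747) (.one (nat_lit 8391519) .nil))),
   .two (nat_lit 183845781508) (nat_lit 50331662) (.two (nat_lit 34603009) (nat_lit 11525947909) (.one (nat_lit 16780128) .nil)),
   .two (nat_lit 739246085) (nat_lit 159253528678) (.two (nat_lit 16777216) (nat_lit 1376780539) (.one (nat_lit 1051489) .nil)),
   .two (nat_lit 176160772) (nat_lit 772800578) (.one (nat_lit 1050415) .nil),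
   .two (nat_lit 10504634373) (nat_lit 165532401679) (.two (nat_lit 2097152) (nat_lit 19134414974) (.one (nat_lit 8390448) .nil)),
   .two (nat_lit 11476664324) (nat_lit 46980399112) (.two (nat_lit 4194305) (nat_lit 1913651215) (.two (nat_lit 4194304) (nat_lit 1048847) (.one (nat_lit 11513366234) .nil))),
   .two (nat_lit 16777221) (nat_lit 1753219080) (.two (nat_lit 16777217) (nat_lit 156976021529) (.two (nat_lit 8388608) (nat_lit 19596838641) .nil)),
   .two (nat_lit 176160773) (nat_lit 11479810056) (.two (nat_lit 8388609) (nat_lit 742391831) (.two (nat_lit 1048576) (nat_lit 809502467) .nil)),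
   .two (nat_lit 159216828421) (nat_lit 2961178880) (.one (nat_lit 1050444) .nil),
   .two (nat_lit 11479810052) (nat_lit 19027460110) (.two (nat_lit 34603009) (nat_lit 1210056823) (.one (nat_lit 2099022) .nil)),
   .two (nat_lit 708837381) (nat_lit 772800536) (.two (nat_lit 1048576) (nat_lit 10001319083) .nil),
   .two (nat_lit 9933160453) (nat_lit 4028629015) (.two (nat_lit 4194304) (nat_lit 156364701968) (.one (nat_lit 2100066) .nil)),
   .two (nat_lit 159224168453) (nat_lit 2954887183) (.two (nat_lit 8388608) (nat_lit 2887778951) .nil),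
   .two (nat_lit 9768534021) (nat_lit 156372041743) (.two (nat_lit 4194304) (nat_lit 156372041836) (.one (nat_lit 156367849280) .nil)),
   .two (nat_lit 12114198533) (nat_lit 158083318117) .nil,
   .two (nat_lit 11476664324) (nat_lit 19604176904) (.two (nat_lit 34603009) (nat_lit 8388623) (.two (nat_lit 16777216) (nat_lit 813696100) .nil)),
   .two (nat_lit 4194308) (nat_lit 183913938988) (.two (nat_lit 4194304) (nat_lit 20705181963) (.one (nat_lit 4196180) .nil)),
   .two (nat_lit 184416206853) (nat_lit 1795162227) (.one (nat_lit 156380431402) .nil),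
   .two (nat_lit 13191086085) (nat_lit 20644364296) (.two (nat_lit 37748737) (nat_lit 37320917016) (.two (nat_lit 8388608) (nat_lit 156468510856) (.one (nat_lit 2323645065) .nil))),
   .two (nat_lit 28757196805) (nat_lit 185035915277) (.two (nat_lit 9765388289) (nat_lit 19142803500) (.two (nat_lit 2097152) (nat_lit 839909894) (.one (nat_lit 16779100) .nil))),
   .two (nat_lit 809500677) (nat_lit 174752530447) (.two (nat_lit 1048576) (nat_lit 19532873980) (.one (nat_lit 28690089714) .nil)),
   .two (nat_lit 50331653) (nat_lit 739246215) (.one (nat_lit 1209009877) .nil),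
   .two (nat_lit 3527409669) (nat_lit 19596836879) (.two (nat_lit 4194304) (nat_lit 19529728249) (.one (nat_lit 166132187775) .nil)),
   .two (nat_lit 272629765) (nat_lit 18933088270) (.two (nat_lit 605028353) (nat_lit 9906946072) (.two (nat_lit 1048576) (nat_lit 1379926532) (.one (nat_lit 3020949203) .nil))),
   .two (nat_lit 13191086085) (nat_lit 37246468109) (.two (nat_lit 37748737) (nat_lit 183912890483) (.one (nat_lit 37313578152) .nil)),
   .two (nat_lit 2097157) (nat_lit 75497487) (.two (nat_lit 1048576) (nat_lit 1780482185) (.one (nat_lit 183947496279) .nil)),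
   .two (nat_lit 10503585797) (nat_lit 183949590640) (.one (nat_lit 742392507) .nil),
   .two (nat_lit 4194308) (nat_lit 28690087951) (.two (nat_lit 8388608) (nat_lit 2953838713) (.one (nat_lit 4196215) .nil)),
   .two (nat_lit 41943045) (nat_lit 9967763470) (.two (nat_lit 50331649) (nat_lit 10343153914) (.one (nat_lit 12048140135) .nil)),
   .two (nat_lit 2889875460) (nat_lit 184416206863) (.two (nat_lit 2097152) (nat_lit 37249615602) .nil),
   .two (nat_lit 620756997) (nat_lit 705691672) (.two (nat_lit 16777216) (nat_lit 1050391) .nil),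
   .two (nat_lit 184549380) (nat_lit 101711887) (.two (nat_lit 16777216) (nat_lit 10369368313) (.one (nat_lit 16779137) .nil)),
   .two (nat_lit 713031685) (nat_lit 1745879055) (.two (nat_lit 2097152) (nat_lit 46507491603) (.one (nat_lit 2100068) .nil)),
   .two (nat_lit 721420293) (nat_lit 4634705932) (.two (nat_lit 16777217) (nat_lit 46510637173) (.one (nat_lit 2956986217) .nil)),
   .two (nat_lit 8388612) (nat_lit 4030726157) (.two (nat_lit 4194305) (nat_lit 310378520) (.two (nat_lit 4194304) (nat_lit 2920284676) (.one (nat_lit 9933162318) .nil))),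
   .two (nat_lit 13191086085) (nat_lit 20644364296) (.two (nat_lit 37748737) (nat_lit 21214789656) (.two (nat_lit 8388608) (nat_lit 18928894203) (.one (nat_lit 8390542) .nil))),
   .two (nat_lit 41943045) (nat_lit 9866051597) (.two (nat_lit 4194305) (nat_lit 156472705542) (.one (nat_lit 1050517) .nil)),
   .two (nat_lit 11543773189) (nat_lit 1929379864) (.two (nat_lit 16777216) (nat_lit 19127076593) .nil),
   .two (nat_lit 50331653) (nat_lit 20704133133) (.two (nat_lit 605028353) (nat_lit 21223178265) (.two (nat_lit 2097152) (nat_lit 156364701813) (.one (nat_lit 1050522) .nil))),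
   .two (nat_lit 4194308) (nat_lit 156372041743) (.two (nat_lit 4194304) (nat_lit 11611930750) (.one (nat_lit 2100069) .nil)),
   .two (nat_lit 809500677) (nat_lit 166130090050) (.one (nat_lit 3558868829) .nil),
   .two (nat_lit 620756997) (nat_lit 3464495112) (.two (nat_lit 8388609) (nat_lit 20753416321) (.one (nat_lit 16780134) .nil)),
   .two (nat_lit 620756997) (nat_lit 156372041743) (.two (nat_lit 1048576) (nat_lit 28764537104) (.one (nat_lit 8391527) .nil)),
   .two (nat_lit 174752530437) (nat_lit 11559501891) (.one (nat_lit 16779174) .nil),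
   .two (nat_lit 1913651205) (nat_lit 9969860734) (.one (nat_lit 18928895743) .nil),
   .two (nat_lit 10370416645) (nat_lit 159250382873) (.two (nat_lit 2097152) (nat_lit 202375450) (.one (nat_lit 1051496) .nil)),
   .two (nat_lit 83886085) (nat_lit 9967763469) (.two (nat_lit 16777217) (nat_lit 20638072847) (.two (nat_lit 1048576) (nat_lit 46474985590) (.one (nat_lit 2100073) .nil))),
   .two (nat_lit 9934209029) (nat_lit 20637024264) (.two (nat_lit 9766436865) (nat_lit 174752530474) (.two (nat_lit 1048576) (nat_lit 2097450) (.one (nat_lit 1051498) .nil))),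
   .two (nat_lit 1277165573) (nat_lit 10385096821) (.one (nat_lit 16779182) .nil),
   .two (nat_lit 183853121541) (nat_lit 721420646) .nil,
   .two (nat_lit 3525312517) (nat_lit 1346371944) .nil,
   .two (nat_lit 4194308) (nat_lit 4027580536) (.one (nat_lit 1051499) .nil),
   .two (nat_lit 8388612) (nat_lit 239075351) (.two (nat_lit 8388608) (nat_lit 4195344) (.one (nat_lit 4197228) .nil)),
   .two (nat_lit 8388612) (nat_lit 165526110223) (.two (nat_lit 8388608) (nat_lit 2988441844) (.one (nat_lit 2098965) .nil)),
   .two (nat_lit 16777220) (nat_lit 75497487) (.two (nat_lit 4194304) (nat_lit 9982445300) .nil),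
   .two (nat_lit 8388612) (nat_lit 1410334744) (.two (nat_lit 8388608) (nat_lit 235930123) (.one (nat_lit 1050546) .nil)),
   .two (nat_lit 2887778308) (nat_lit 174752530445) (.two (nat_lit 16777217) (nat_lit 136314999) (.one (nat_lit 46977255342) .nil)),
   .two (nat_lit 169869316) (nat_lit 157038936088) (.two (nat_lit 2097152) (nat_lit 2956984845) (.one (nat_lit 4197213) .nil)),
   .two (nat_lit 83886085) (nat_lit 9967763469) (.two (nat_lit 16777217) (nat_lit 20638072847) (.two (nat_lit 1048576) (nat_lit 46474985590) (.one (nat_lit 2100077) .nil))),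
   .two (nat_lit 10506731525) (nat_lit 158144135176) (.two (nat_lit 606076929) (nat_lit 174688567831) (.one (nat_lit 13224641581) .nil)),
   .two (nat_lit 2969567237) (nat_lit 739246095) (.two (nat_lit 16777216) (nat_lit 11577327731) (.one (nat_lit 1050547) .nil)),
   .two (nat_lit 1277165573) (nat_lit 83886205) (.one (nat_lit 1795163349) .nil),
   .two (nat_lit 1913651205) (nat_lit 1962934407) (.one (nat_lit 16779193) .nil),
   .two (nat_lit 822083589) (nat_lit 46978301977) (.two (nat_lit 16777216) (nat_lit 184417255695) (.one (nat_lit 304088109) .nil)),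
   .two (nat_lit 11479810052) (nat_lit 156372041743) (.two (nat_lit 4194304) (nat_lit 2323644545) (.one (nat_lit 8391534) .nil)),
   .two (nat_lit 708837381) (nat_lit 9781116943) (.two (nat_lit 4194304) (nat_lit 11578376318) (.one (nat_lit 2099140) .nil)),
   .two (nat_lit 10343153669) (nat_lit 83886095) (.two (nat_lit 8388608) (nat_lit 83886197) (.one (nat_lit 16780143) .nil)),
   .two (nat_lit 11479810052) (nat_lit 10336862232) (.two (nat_lit 4194304) (nat_lit 158177690681) .nil),
   .two (nat_lit 2889875461) (nat_lit 156365750280) (.two (nat_lit 50331649) (nat_lit 169869846) (.one (nat_lit 2100080) .nil)),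
   .two (nat_lit 4194308) (nat_lit 10504634383) (.two (nat_lit 4194304) (nat_lit 2317353079) (.one (nat_lit 706741998) .nil)),
   .two (nat_lit 1343225861) (nat_lit 184993972239) (.two (nat_lit 1048576) (nat_lit 10510925950) (.one (nat_lit 8390602) .nil)),
   .two (nat_lit 4194308) (nat_lit 754974735) (.two (nat_lit 16777216) (nat_lit 28089254140) (.one (nat_lit 4196300) .nil)),
   .two (nat_lit 620756997) (nat_lit 1920991355) (.one (nat_lit 8389852) .nil),
   .two (nat_lit 8388612) (nat_lit 159217877059) (.one (nat_lit 1317013312) .nil),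
   .two (nat_lit 270532613) (nat_lit 46510637069) (.two (nat_lit 4194305) (nat_lit 203423768) (.two (nat_lit 4194304) (nat_lit 156532474914) .nil)),
   .two (nat_lit 184549381) (nat_lit 3525312535) (.two (nat_lit 16777216) (nat_lit 10906239267) (.one (nat_lit 1051505) .nil)),
   .two (nat_lit 41943045) (nat_lit 1210056717) (.two (nat_lit 2097153) (nat_lit 156976021604) (.two (nat_lit 4194304) (nat_lit 9867100418) (.one (nat_lit 8391538) .nil))),
   .two (nat_lit 165532401669) (nat_lit 352321602) (.one (nat_lit 16779216) .nil),
   .two (nat_lit 209715205) (nat_lit 12620661100) .nil,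
   .two (nat_lit 8388613) (nat_lit 306184206) (.two (nat_lit 620756993) (nat_lit 11614028040) (.one (nat_lit 3527411431) .nil)),
   .two (nat_lit 12114198533) (nat_lit 75497485) (.two (nat_lit 9768534017) (nat_lit 101711896) (.two (nat_lit 4194304) (nat_lit 3028287739) (.one (nat_lit 8390610) .nil))),
   .two (nat_lit 9881780229) (nat_lit 28086108168) (.two (nat_lit 50331649) (nat_lit 10939793433) (.two (nat_lit 1048576) (nat_lit 46992982290) (.one (nat_lit 9814673138) .nil))),
   .two (nat_lit 4194308) (nat_lit 174759870476) (.two (nat_lit 8388609) (nat_lit 10519314706) (.one (nat_lit 16780147) .nil)),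
   .two (nat_lit 705691652) (nat_lit 46414168072) (.two (nat_lit 8388609) (nat_lit 12047089689) (.two (nat_lit 16777216) (nat_lit 847251403) .nil)),
   .two (nat_lit 13191086085) (nat_lit 158083317768) (.two (nat_lit 37748737) (nat_lit 158653743127) (.two (nat_lit 8388608) (nat_lit 18928894203) (.one (nat_lit 8390615) .nil))),
   .two (nat_lit 184549381) (nat_lit 203423759) (.two (nat_lit 16777216) (nat_lit 11611930755) (.one (nat_lit 16779224) .nil)),
   .two (nat_lit 218103813) (nat_lit 47582281794) (.one (nat_lit 2097915) .nil),
   .two (nat_lit 639631365) (nat_lit 157038936079) (.two (nat_lit 16777216) (nat_lit 37314625657) (.one (nat_lit 2099165) .nil)),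
   .two (nat_lit 8388612) (nat_lit 166132187144) (.two (nat_lit 9768534017) (nat_lit 13195280399) (.two (nat_lit 4194304) (nat_lit 156472705155) (.one (nat_lit 10942940989) .nil))),
   .two (nat_lit 41943045) (nat_lit 2416967693) (.two (nat_lit 612368385) (nat_lit 46473936940) (.two (nat_lit 2097152) (nat_lit 11006902408) (.one (nat_lit 638584591) .nil))),
   .two (nat_lit 1913651205) (nat_lit 12054429711) (.two (nat_lit 1048576) (nat_lit 21214789754) (.one (nat_lit 8390626) .nil)),
   .two (nat_lit 75497477) (nat_lit 102760807) .nil,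
   .two (nat_lit 18933088261) (nat_lit 184549391) (.two (nat_lit 8388608) (nat_lit 285212787) (.one (nat_lit 158192371562) .nil)),
   .two (nat_lit 176160772) (nat_lit 2923429902) (.two (nat_lit 4194305) (nat_lit 10443817003) (.two (nat_lit 2097152) (nat_lit 1920991360) (.one (nat_lit 4197236) .nil))),
   .two (nat_lit 721420293) (nat_lit 21207449614) (.two (nat_lit 50331649) (nat_lit 166129041432) (.two (nat_lit 1048576) (nat_lit 117440623) (.one (nat_lit 2902459622) .nil))),
   .two (nat_lit 159217876997) (nat_lit 156569174028) (.two (nat_lit 9768534017) (nat_lit 2350907528) (.one (nat_lit 675284831) .nil)),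
   .two (nat_lit 1277165572) (nat_lit 46477082648) (.two (nat_lit 1048576) (nat_lit 28693234192) (.one (nat_lit 156971828986) .nil)),
   .two (nat_lit 4194308) (nat_lit 166130089999) (.two (nat_lit 4194304) (nat_lit 706740350) (.one (nat_lit 2100085) .nil)),
   .two (nat_lit 16777221) (nat_lit 156367847468) (.two (nat_lit 16777216) (nat_lit 4634706171) (.one (nat_lit 1050602) .nil)),
   .two (nat_lit 2887778308) (nat_lit 159224168515) (.one (nat_lit 8390635) .nil),
   .two (nat_lit 50331653) (nat_lit 18933088264) (.two (nat_lit 41943041) (nat_lit 1761607972) (.one (nat_lit 1795163884) .nil)),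
   .two (nat_lit 83886085) (nat_lit 47548727309) (.two (nat_lit 34603009) (nat_lit 11626610712) (.two (nat_lit 1048576) (nat_lit 166230753530) (.one (nat_lit 10001319766) .nil))),
   .two (nat_lit 1745879045) (nat_lit 46407876742) (.one (nat_lit 46978303042) .nil),
   .two (nat_lit 11543773189) (nat_lit 28791799832) (.two (nat_lit 1048576) (nat_lit 3458204165) (.one (nat_lit 2100086) .nil)),
   .two (nat_lit 1913651205) (nat_lit 1358954511) (.two (nat_lit 1048576) (nat_lit 10955522179) (.one (nat_lit 16779248) .nil)),
   .two (nat_lit 8388613) (nat_lit 16777230) (.two (nat_lit 16777217) (nat_lit 158146232441) (.one (nat_lit 4196338) .nil)),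
   .two (nat_lit 16777220) (nat_lit 10370416655) (.two (nat_lit 16777216) (nat_lit 11511267454) (.one (nat_lit 2100087) .nil)),
   .two (nat_lit 272629765) (nat_lit 28690087951) (.two (nat_lit 4194304) (nat_lit 168820862) (.one (nat_lit 1051512) .nil)),
   .two (nat_lit 176160772) (nat_lit 1745879055) (.two (nat_lit 8388608) (nat_lit 3557818494) (.one (nat_lit 9866053424) .nil)),
   .two (nat_lit 183845781508) (nat_lit 165532401779) (.one (nat_lit 813696036) .nil),
   .two (nat_lit 46980399109) (nat_lit 11559501848) (.two (nat_lit 4194304) (nat_lit 46422556924) (.one (nat_lit 16780153) .nil)),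
   .two (nat_lit 620756997) (nat_lit 1913651215) (.two (nat_lit 1048576) (nat_lit 165540790530) (.one (nat_lit 20719863756) .nil)),
   .two (nat_lit 218103813) (nat_lit 639631427) (.one (nat_lit 158647452338) .nil),
   .two (nat_lit 47548727301) (nat_lit 28757196815) (.two (nat_lit 2097152) (nat_lit 1209008247) (.one (nat_lit 1050350) .nil)),
   .two (nat_lit 21785214981) (nat_lit 739246095) (.two (nat_lit 8388608) (nat_lit 1048880) (.one (nat_lit 1050612) .nil)),
   .two (nat_lit 13187940357) (nat_lit 165532401779) (.one (nat_lit 813696036) .nil),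
   .two (nat_lit 10504634373) (nat_lit 135266316) (.two (nat_lit 9765388289) (nat_lit 158144135411) (.one (nat_lit 19597887420) .nil)),
   .two (nat_lit 13195280389) (nat_lit 135266371) (.one (nat_lit 10503587617) .nil),
   .two (nat_lit 8388613) (nat_lit 156969730056) (.two (nat_lit 50331649) (nat_lit 2961178648) (.two (nat_lit 16777216) (nat_lit 3525312633) (.one (nat_lit 2099193) .nil))),
   .two (nat_lit 654311429) (nat_lit 705691672) (.two (nat_lit 16777216) (nat_lit 2349859909) .nil),
   .two (nat_lit 9768534021) (nat_lit 183946444823) (.two (nat_lit 4194304) (nat_lit 1049126) (.one (nat_lit 1050620) .nil)),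
   .two (nat_lit 169869316) (nat_lit 157038936079) (.two (nat_lit 2097152) (nat_lit 20707278979) (.one (nat_lit 843057136) .nil)),
   .two (nat_lit 41943045) (nat_lit 13221495146) .nil]

theorem k1 : chkL tab c1 (nat_lit 2200) = true := by decide +kernel

theorem l1 : c1.length = 2200 := by decide +kernel

end K4

end Pool.Agent.Work.MP_bf01b2_co.MR
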