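import Pool.Agent.Work.MP_bf01b2_co.MR.K4T

/-!
# Three and four roots in `Q_5`: certificates of the entries 4400 to 6599
-/

set_option autoImplicit false
set_option maxRecDepth 100000

namespace Pool.Agent.Work.MP_bf01b2_co.MR

namespace K4

open JT

/-- certificates of the entries 4400 to 6599 -/
def c2 : List Rc :=
  [.two (nat_lit 9934209029) (nat_lit 157038936079) (.two (nat_lit 2097152) (nat_lit 46980399215) (.one (nat_lit 236980076) .nil)),
   .two (nat_lit 4194308) (nat_lit 157036838927) (.two (nat_lit 4194304) (nat_lit 183913939075) (.one (nat_lit 19027461870) .nil)),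
   .two (nat_lit 16777220) (nat_lit 713031688) (.two (nat_lit 41943041) (nat_lit 16777281) (.one (nat_lit 75499241) .nil)),
   .two (nat_lit 28758245381) (nat_lit 3464495128) (.two (nat_lit 2097152) (nat_lit 183920230674) (.one (nat_lit 8391547) .nil)),
   .two (nat_lit 2902458372) (nat_lit 3028287502) (.two (nat_lit 16777217) (nat_lit 20644364532) (.one (nat_lit 8391548) .nil)),
   .two (nat_lit 16777220) (nat_lit 158083317775) (.two (nat_lit 8388608) (nat_lit 83886324) (.one (nat_lit 713033458) .nil)),
   .two (nat_lit 822083589) (nat_lit 19093520397) (.two (nat_lit 9765388289) (nat_lit 13237223448) (.two (nat_lit 2097152) (nat_lit 156532473992) (.one (nat_lit 1050624) .nil))),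
   .two (nat_lit 176160772) (nat_lit 16777282) (.one (nat_lit 46422557435) .nil),
   .two (nat_lit 3531603973) (nat_lit 156367847439) (.two (nat_lit 8388608) (nat_lit 20704133249) (.one (nat_lit 202376996) .nil)),
   .two (nat_lit 8388612) (nat_lit 10907287565) (.two (nat_lit 8388609) (nat_lit 11578376474) (.one (nat_lit 136315553) .nil)),
   .two (nat_lit 101711877) (nat_lit 28093448205) (.two (nat_lit 605028353) (nat_lit 28764537114) (.one (nat_lit 10544482036) .nil)),
   .two (nat_lit 10343153669) (nat_lit 1948254567) .nil,
   .two (nat_lit 12114198533) (nat_lit 2323644429) (.two (nat_lit 16777217) (nat_lit 184993972339) (.one (nat_lit 10544482121) .nil)),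
   .two (nat_lit 13195280389) (nat_lit 19096666156) (.two (nat_lit 8388608) (nat_lit 136315398) (.one (nat_lit 2099202) .nil)),
   .two (nat_lit 184549380) (nat_lit 183949590594) (.one (nat_lit 4197245) .nil),
   .two (nat_lit 2956984325) (nat_lit 10437525551) (.two (nat_lit 1048576) (nat_lit 1377829160) (.one (nat_lit 2100094) .nil)),
   .two (nat_lit 169869316) (nat_lit 1279262763) (.two (nat_lit 2097152) (nat_lit 158146232602) (.one (nat_lit 4196073) .nil)),
   .two (nat_lit 16777220) (nat_lit 158177689624) (.two (nat_lit 16777216) (nat_lit 12148801818) (.one (nat_lit 12115247722) .nil)),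
   .two (nat_lit 4194308) (nat_lit 9881780232) (.two (nat_lit 620756993) (nat_lit 876609560) (.two (nat_lit 16777216) (nat_lit 10003415322) (.one (nat_lit 4197247) .nil))),
   .two (nat_lit 8388613) (nat_lit 11544821803) (.two (nat_lit 8388608) (nat_lit 11578376474) (.one (nat_lit 2099203) .nil)),
   .two (nat_lit 9948889093) (nat_lit 10369368079) (.two (nat_lit 1048576) (nat_lit 158192370198) (.one (nat_lit 8391552) .nil)),
   .two (nat_lit 754974725) (nat_lit 1309671785) .nil,
   .two (nat_lit 4194308) (nat_lit 156968681487) (.two (nat_lit 4194304) (nat_lit 37246468213) (.one (nat_lit 1051521) .nil)),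
   .two (nat_lit 9948889093) (nat_lit 21207449736) (.one (nat_lit 1410335900) .nil),
   .two (nat_lit 2902458372) (nat_lit 11543773199) (.two (nat_lit 16777216) (nat_lit 46977253502) (.one (nat_lit 166229706515) .nil)),
   .two (nat_lit 721420293) (nat_lit 10370416655) (.two (nat_lit 16777216) (nat_lit 20738736239) (.one (nat_lit 706741985) .nil)),
   .two (nat_lit 156372041733) (nat_lit 83886095) (.two (nat_lit 8388608) (nat_lit 20753416321) (.one (nat_lit 16780162) .nil)),
   .two (nat_lit 19599982597) (nat_lit 9906946092) (.two (nat_lit 4194304) (nat_lit 18933088507) (.one (nat_lit 16780163) .nil)),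
   .two (nat_lit 721420292) (nat_lit 19130220679) (.one (nat_lit 4196360) .nil),
   .two (nat_lit 806354949) (nat_lit 754974735) (.two (nat_lit 1048576) (nat_lit 11477713161) (.one (nat_lit 2100100) .nil)),
   .two (nat_lit 16777220) (nat_lit 166132187144) (.two (nat_lit 612368385) (nat_lit 183962173465) (.two (nat_lit 8388608) (nat_lit 1849690082) .nil)),
   .two (nat_lit 4194308) (nat_lit 620757006) (.two (nat_lit 50331649) (nat_lit 809500696) (.two (nat_lit 16777216) (nat_lit 19128123960) (.one (nat_lit 2100101) .nil))),
   .two (nat_lit 16777220) (nat_lit 612368399) (.two (nat_lit 8388608) (nat_lit 156567077193) (.one (nat_lit 673188702) .nil)),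
   .two (nat_lit 11559501829) (nat_lit 3460300808) (.two (nat_lit 4194305) (nat_lit 183928619031) (.two (nat_lit 1048576) (nat_lit 183848927353) (.one (nat_lit 4196366) .nil))),
   .two (nat_lit 11476664328) (nat_lit 10506731535) (.two (nat_lit 2097153) (nat_lit 13187941701) .nil),
   .two (nat_lit 739246088) (nat_lit 174753579016) (.two (nat_lit 8388613) (nat_lit 159217877007) (.two (nat_lit 8388609) (nat_lit 102760566) (.two (nat_lit 8388608) (nat_lit 158647452302) (.one (nat_lit 2100305) .nil)))),
   .two (nat_lit 4605345800) (nat_lit 159251431448) (.two (nat_lit 8388609) (nat_lit 20738736735) (.one (nat_lit 12054431892) .nil)),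
   .two (nat_lit 10370416648) (nat_lit 1753219084) (.two (nat_lit 4605345797) (nat_lit 158144135234) (.two (nat_lit 2097152) (nat_lit 12155095176) .nil)),
   .two (nat_lit 4605345800) (nat_lit 158176641037) (.two (nat_lit 176160773) (nat_lit 183912890485) (.two (nat_lit 8388608) (nat_lit 19093520980) (.one (nat_lit 1309673663) .nil))),
   .two (nat_lit 46510637069) (nat_lit 20644364301) (.two (nat_lit 11479810053) (nat_lit 47555018818) (.two (nat_lit 4194304) (nat_lit 11551113910) (.one (nat_lit 8390926) .nil))),
   .two (nat_lit 47555018760) (nat_lit 185020186648) (.two (nat_lit 8388609) (nat_lit 158176641140) (.two (nat_lit 8388608) (nat_lit 28790751842) (.one (nat_lit 142608473) .nil))),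
   .two (nat_lit 9934209032) (nat_lit 135266317) (.two (nat_lit 1277165573) (nat_lit 1376780403) (.two (nat_lit 2097152) (nat_lit 1376780898) (.one (nat_lit 19529730239) .nil))),
   .two (nat_lit 8388616) (nat_lit 117440527) (.two (nat_lit 50331649) (nat_lit 12054430292) (.one (nat_lit 8390927) .nil)),
   .two (nat_lit 41943048) (nat_lit 47584378905) (.two (nat_lit 4194305) (nat_lit 156573368983) (.one (nat_lit 4197458) .nil)),
   .two (nat_lit 117440520) (nat_lit 12117344269) (.two (nat_lit 184549381) (nat_lit 21781020716) (.two (nat_lit 50331649) (nat_lit 12050236466) (.one (nat_lit 4196628) .nil))),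
   .two (nat_lit 50331656) (nat_lit 1916796936) (.two (nat_lit 16777220) (nat_lit 166132187159) (.two (nat_lit 9768534017) (nat_lit 19612565762) (.two (nat_lit 4194304) (nat_lit 156481094699) (.one (nat_lit 16780371) .nil)))),
   .two (nat_lit 11479810056) (nat_lit 11007950872) (.two (nat_lit 9768534017) (nat_lit 159251432028) (.one (nat_lit 1948257267) .nil)),
   .two (nat_lit 9934209032) (nat_lit 19532873752) (.two (nat_lit 2097153) (nat_lit 183949590636) (.two (nat_lit 2097152) (nat_lit 166132187814) (.one (nat_lit 4197460) .nil))),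
   .two (nat_lit 285212680) (nat_lit 166132187151) (.two (nat_lit 34603009) (nat_lit 19142804572) (.one (nat_lit 16780373) .nil)),
   .two (nat_lit 2954887176) (nat_lit 156968681480) (.two (nat_lit 1343225861) (nat_lit 35651628) (.two (nat_lit 605028353) (nat_lit 156969730409) (.one (nat_lit 2100310) .nil))),
   .two (nat_lit 46414168072) (nat_lit 174753579023) (.two (nat_lit 606076929) (nat_lit 679477961) (.one (nat_lit 8390938) .nil)),
   .two (nat_lit 620757000) (nat_lit 1782579246) (.two (nat_lit 4194305) (nat_lit 9781117053) (.two (nat_lit 16777216) (nat_lit 1413481078) (.one (nat_lit 4197463) .nil))),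
   .two (nat_lit 620757000) (nat_lit 28757196808) (.two (nat_lit 721420293) (nat_lit 184416206891) (.two (nat_lit 16777217) (nat_lit 672137468) (.two (nat_lit 1048576) (nat_lit 16777943) (.one (nat_lit 37246470292) .nil)))),
   .two (nat_lit 822083592) (nat_lit 158144135180) (.two (nat_lit 11492392965) (nat_lit 158144135285) (.two (nat_lit 16777216) (nat_lit 1847592230) .nil)),
   .two (nat_lit 10370416648) (nat_lit 2416967704) (.two (nat_lit 606076929) (nat_lit 10537140352) (.two (nat_lit 1048576) (nat_lit 2098269) (.one (nat_lit 11476666599) .nil))),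
   .two (nat_lit 28086108168) (nat_lit 9881780238) (.two (nat_lit 754974725) (nat_lit 28086108175) (.two (nat_lit 605028353) (nat_lit 50332258) (.one (nat_lit 1291847921) .nil))),
   .two (nat_lit 46980399112) (nat_lit 10336862221) (.two (nat_lit 50331653) (nat_lit 2353004592) (.two (nat_lit 4194305) (nat_lit 318767360) (.two (nat_lit 2097152) (nat_lit 46409974124) (.one (nat_lit 16780376) .nil)))),
   .two (nat_lit 754974728) (nat_lit 19596836872) (.two (nat_lit 183845781508) (nat_lit 754974735) (.two (nat_lit 34603009) (nat_lit 754974828) (.two (nat_lit 1048576) (nat_lit 2936013445) (.one (nat_lit 16780377) .nil)))),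
   .two (nat_lit 46980399112) (nat_lit 9967763469) (.two (nat_lit 159217876997) (nat_lit 46980399170) (.two (nat_lit 2097152) (nat_lit 157038937376) .nil)),
   .two (nat_lit 4613734408) (nat_lit 20711473197) (.two (nat_lit 8388609) (nat_lit 754974830) (.two (nat_lit 1048576) (nat_lit 16777944) (.one (nat_lit 8391770) .nil))),
   .two (nat_lit 822083592) (nat_lit 19599982604) (.two (nat_lit 18928893957) (nat_lit 822083599) (.two (nat_lit 4194305) (nat_lit 11559502690) .nil)),
   .two (nat_lit 4194312) (nat_lit 285212684) (.two (nat_lit 16777221) (nat_lit 46510637081) (.two (nat_lit 37748737) (nat_lit 135266419) (.two (nat_lit 16777216) (nat_lit 11510219816) (.one (nat_lit 1051739) .nil)))),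
   .two (nat_lit 18933088264) (nat_lit 183916036109) (.two (nat_lit 184989777925) (nat_lit 183853121650) (.two (nat_lit 4194304) (nat_lit 156976022863) .nil)),
   .two (nat_lit 4194312) (nat_lit 1417674776) (.two (nat_lit 8388609) (nat_lit 11513365176) (.one (nat_lit 4197468) .nil)),
   .two (nat_lit 285212680) (nat_lit 183916036109) (.two (nat_lit 218103813) (nat_lit 10940842024) (.two (nat_lit 37748737) (nat_lit 166211879274) (.one (nat_lit 2100317) .nil))),
   .two (nat_lit 4194312) (nat_lit 13203669000) (.two (nat_lit 4194308) (nat_lit 352321559) (.two (nat_lit 4194305) (nat_lit 156365750512) (.two (nat_lit 1048576) (nat_lit 1279263778) (.one (nat_lit 1051742) .nil)))),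
   .two (nat_lit 159217877000) (nat_lit 19596836877) (.two (nat_lit 157035790341) (nat_lit 236978243) (.two (nat_lit 16777216) (nat_lit 19128123752) (.one (nat_lit 2100319) .nil))),
   .two (nat_lit 156365750280) (nat_lit 156372041743) (.two (nat_lit 2097153) (nat_lit 165540790631) (.one (nat_lit 4647290955) .nil)),
   .two (nat_lit 46978301960) (nat_lit 19093520409) (.two (nat_lit 156365750273) (nat_lit 705692736) (.one (nat_lit 28690090951) .nil)),
   .two (nat_lit 1780482056) (nat_lit 185020186648) (.two (nat_lit 8388609) (nat_lit 10504635060) (.one (nat_lit 2100320) .nil)),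
   .two (nat_lit 13191086088) (nat_lit 10504634383) (.two (nat_lit 4194305) (nat_lit 10538189410) (.one (nat_lit 2100321) .nil)),
   .two (nat_lit 2889875464) (nat_lit 19093520398) (.two (nat_lit 157035790341) (nat_lit 4634705987) (.two (nat_lit 16777216) (nat_lit 184989778281) (.one (nat_lit 1051746) .nil))),
   .two (nat_lit 156372041736) (nat_lit 21812477965) (.two (nat_lit 11546918917) (nat_lit 156372041743) (.two (nat_lit 9766436865) (nat_lit 780141226) (.one (nat_lit 2100323) .nil))),
   .two (nat_lit 9940500488) (nat_lit 672137229) (.two (nat_lit 176160772) (nat_lit 50331692) (.two (nat_lit 16777217) (nat_lit 1920991594) (.one (nat_lit 8391780) .nil))),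
   .two (nat_lit 156367847432) (nat_lit 156372041753) (.two (nat_lit 4194305) (nat_lit 1358954611) (.two (nat_lit 4194304) (nat_lit 16778337) (.one (nat_lit 184431938570) .nil))),
   .two (nat_lit 809500680) (nat_lit 101711898) (.two (nat_lit 4194305) (nat_lit 679477369) (.two (nat_lit 8388608) (nat_lit 1049306) (.one (nat_lit 21785218570) .nil))),
   .two (nat_lit 9934209032) (nat_lit 19604176904) (.two (nat_lit 117440517) (nat_lit 9934209039) (.two (nat_lit 620756993) (nat_lit 10001318542) (.one (nat_lit 2100325) .nil))),
   .two (nat_lit 159224168456) (nat_lit 10000269325) (.two (nat_lit 1779433477) (nat_lit 1346371633) (.two (nat_lit 34603009) (nat_lit 28693234322) (.one (nat_lit 4197478) .nil))),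
   .two (nat_lit 169869320) (nat_lit 21793603592) (.two (nat_lit 721420293) (nat_lit 2954887191) (.two (nat_lit 16777217) (nat_lit 156468510980) (.two (nat_lit 1048576) (nat_lit 21781021030) (.one (nat_lit 4197479) .nil)))),
   .two (nat_lit 47548727304) (nat_lit 158083317775) (.two (nat_lit 612368385) (nat_lit 21208498284) (.two (nat_lit 8388608) (nat_lit 706740868) (.one (nat_lit 2100328) .nil))),
   .two (nat_lit 184986632200) (nat_lit 47555018764) (.two (nat_lit 176160773) (nat_lit 184986632207) (.two (nat_lit 8388609) (nat_lit 185020186738) (.two (nat_lit 8388608) (nat_lit 9899607336) .nil))),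
   .two (nat_lit 620757000) (nat_lit 9768534031) (.two (nat_lit 16777217) (nat_lit 166132188455) .nil),
   .two (nat_lit 713031688) (nat_lit 11492393027) (.two (nat_lit 16777216) (nat_lit 612369074) (.one (nat_lit 8391785) .nil)),
   .two (nat_lit 2902458376) (nat_lit 713031705) (.two (nat_lit 8388609) (nat_lit 721420540) (.two (nat_lit 8388608) (nat_lit 16778984) (.one (nat_lit 679479375) .nil))),
   .two (nat_lit 2889875464) (nat_lit 352321549) (.two (nat_lit 16777221) (nat_lit 183916036218) (.two (nat_lit 4194304) (nat_lit 46406829132) (.one (nat_lit 1051755) .nil))),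
   .two (nat_lit 713031688) (nat_lit 12163481613) (.two (nat_lit 754974725) (nat_lit 10007609479) (.two (nat_lit 8388608) (nat_lit 158647453069) .nil)),
   .two (nat_lit 101711880) (nat_lit 1753219096) (.two (nat_lit 34603009) (nat_lit 343933532) (.one (nat_lit 8391788) .nil)),
   .two (nat_lit 47563407368) (nat_lit 1916796940) (.two (nat_lit 184549380) (nat_lit 205520938) (.two (nat_lit 16777217) (nat_lit 156971827311) (.two (nat_lit 1048576) (nat_lit 809501289) (.one (nat_lit 16780397) .nil)))),
   .two (nat_lit 813694984) (nat_lit 3527409672) (.two (nat_lit 708837381) (nat_lit 4605345807) (.two (nat_lit 2097153) (nat_lit 880804531) (.one (nat_lit 8391790) .nil))),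
   .two (nat_lit 721420296) (nat_lit 156372041743) (.two (nat_lit 8388609) (nat_lit 12163482711) (.one (nat_lit 8390954) .nil)),
   .two (nat_lit 2954887176) (nat_lit 1384120333) (.two (nat_lit 21785214981) (nat_lit 1914699895) (.two (nat_lit 8388608) (nat_lit 184417255783) (.one (nat_lit 1847593907) .nil))),
   .two (nat_lit 822083592) (nat_lit 183916036109) (.two (nat_lit 184989777925) (nat_lit 822083599) (.two (nat_lit 16777217) (nat_lit 1948254865) (.one (nat_lit 706742548) .nil))),
   .two (nat_lit 9934209032) (nat_lit 4194330) (.two (nat_lit 2097153) (nat_lit 159219974774) (.one (nat_lit 156367849645) .nil)),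
   .two (nat_lit 1795162120) (nat_lit 37313576984) (.two (nat_lit 34603009) (nat_lit 10385097314) (.one (nat_lit 16780399) .nil)),
   .two (nat_lit 754974728) (nat_lit 1916796940) (.two (nat_lit 1178599429) (nat_lit 1795162179) (.two (nat_lit 4194304) (nat_lit 16777909) (.one (nat_lit 16779565) .nil))),
   .two (nat_lit 4605345800) (nat_lit 28086108173) (.two (nat_lit 46414168069) (nat_lit 3020947558) (.two (nat_lit 8388609) (nat_lit 37313577077) (.two (nat_lit 16777216) (nat_lit 310380572) .nil))),
   .two (nat_lit 156372041736) (nat_lit 2420113421) (.two (nat_lit 1283457029) (nat_lit 117440627) (.two (nat_lit 8388608) (nat_lit 12129928232) (.one (nat_lit 16780400) .nil))),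
   .two (nat_lit 9881780232) (nat_lit 158144135181) (.two (nat_lit 1291845636) (nat_lit 21208498191) (.two (nat_lit 606076929) (nat_lit 11559501934) (.two (nat_lit 16777216) (nat_lit 2098275) (.one (nat_lit 21778924935) .nil)))),
   .two (nat_lit 612368392) (nat_lit 9966714894) (.two (nat_lit 285212677) (nat_lit 18933088374) (.two (nat_lit 16777216) (nat_lit 19033752171) (.one (nat_lit 1962936512) .nil))),
   .two (nat_lit 12054429704) (nat_lit 11007950872) (.two (nat_lit 41943041) (nat_lit 174686470257) (.two (nat_lit 8388608) (nat_lit 165526111616) .nil)),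
   .two (nat_lit 612368392) (nat_lit 183845781512) (.two (nat_lit 270532613) (nat_lit 612368399) (.two (nat_lit 16777217) (nat_lit 2920284817) (.one (nat_lit 2100337) .nil))),
   .two (nat_lit 4613734408) (nat_lit 19599982607) (.two (nat_lit 37748737) (nat_lit 822084945) .nil),
   .two (nat_lit 2961178632) (nat_lit 21812477977) (.two (nat_lit 605028353) (nat_lit 102760564) (.two (nat_lit 1048576) (nat_lit 3464496169) (.one (nat_lit 8391794) .nil))),
   .two (nat_lit 159217877000) (nat_lit 159224168473) (.two (nat_lit 2097153) (nat_lit 37316723345) (.one (nat_lit 20740835604) .nil)),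
   .two (nat_lit 16777224) (nat_lit 1343225871) (.two (nat_lit 16777217) (nat_lit 10369368319) (.two (nat_lit 16777216) (nat_lit 21811429970) (.one (nat_lit 12633245036) .nil))),
   .two (nat_lit 822083592) (nat_lit 1916796943) (.two (nat_lit 16777217) (nat_lit 11584668006) (.one (nat_lit 8391644) .nil)),
   .two (nat_lit 9881780232) (nat_lit 1846542351) (.two (nat_lit 9765388289) (nat_lit 1291845742) (.two (nat_lit 4194304) (nat_lit 352322168) (.one (nat_lit 1795164297) .nil))),
   .two (nat_lit 11492392968) (nat_lit 10506731535) (.two (nat_lit 4194305) (nat_lit 1795162179) (.two (nat_lit 4194304) (nat_lit 16777947) (.one (nat_lit 11626613018) .nil))),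
   .two (nat_lit 612368392) (nat_lit 183845781519) (.two (nat_lit 2097153) (nat_lit 158143086713) (.two (nat_lit 1048576) (nat_lit 174686470792) (.one (nat_lit 1947208625) .nil))),
   .two (nat_lit 183848927240) (nat_lit 1176502297) (.two (nat_lit 37748737) (nat_lit 11611930755) (.two (nat_lit 4194304) (nat_lit 20738736793) (.one (nat_lit 2100340) .nil))),
   .two (nat_lit 11559501832) (nat_lit 158143086606) (.two (nat_lit 1745879045) (nat_lit 117440707) (.one (nat_lit 1426064704) .nil)),
   .two (nat_lit 721420296) (nat_lit 3527409679) (.two (nat_lit 4194305) (nat_lit 16777574) (.one (nat_lit 4196658) .nil)),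
   .two (nat_lit 37748744) (nat_lit 679477292) (.two (nat_lit 8388609) (nat_lit 809500781) (.two (nat_lit 1048576) (nat_lit 9768534627) (.one (nat_lit 4197494) .nil))),
   .two (nat_lit 620757000) (nat_lit 3464495112) (.two (nat_lit 620756997) (nat_lit 276824090) (.two (nat_lit 8388609) (nat_lit 9781117052) (.two (nat_lit 8388608) (nat_lit 1929380521) (.one (nat_lit 18933090408) .nil)))),
   .two (nat_lit 9781116940) (nat_lit 12620660749) (.two (nat_lit 11546918917) (nat_lit 117440627) (.two (nat_lit 2097152) (nat_lit 12129928232) (.one (nat_lit 16780407) .nil))),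
   .two (nat_lit 46409973768) (nat_lit 117440524) (.two (nat_lit 2969567237) (nat_lit 1212153896) (.two (nat_lit 16777217) (nat_lit 11513364838) (.one (nat_lit 16780408) .nil))),
   .two (nat_lit 1350565896) (nat_lit 10336862223) (.two (nat_lit 2097153) (nat_lit 174755676296) (.two (nat_lit 4194304) (nat_lit 28087157823) (.one (nat_lit 2100345) .nil))),
   .two (nat_lit 12117344264) (nat_lit 9899606056) (.two (nat_lit 34603009) (nat_lit 10338960007) (.one (nat_lit 4197498) .nil)),
   .two (nat_lit 75497480) (nat_lit 285212697) (.two (nat_lit 16777217) (nat_lit 159224168563) (.two (nat_lit 1048576) (nat_lit 46481277585) (.one (nat_lit 20745030540) .nil))),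
   .two (nat_lit 50331660) (nat_lit 13195280396) (.two (nat_lit 41943045) (nat_lit 285213030) (.one (nat_lit 158150428754) .nil)),
   .two (nat_lit 754974728) (nat_lit 183853121550) (.two (nat_lit 2894069765) (nat_lit 11559501940) (.two (nat_lit 1048576) (nat_lit 16777877) (.one (nat_lit 1962937302) .nil))),
   .two (nat_lit 68157448) (nat_lit 20644364303) (.two (nat_lit 34603009) (nat_lit 184989779289) .nil),
   .two (nat_lit 46407876616) (nat_lit 13195280396) (.two (nat_lit 41943045) (nat_lit 157036838927) (.two (nat_lit 34603009) (nat_lit 1176502973) (.one (nat_lit 46474986832) .nil))),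
   .two (nat_lit 16777224) (nat_lit 46414168077) (.two (nat_lit 176160773) (nat_lit 11492393027) (.two (nat_lit 8388608) (nat_lit 1862271338) (.one (nat_lit 16779573) .nil))),
   .two (nat_lit 713031688) (nat_lit 171966490) (.two (nat_lit 4194305) (nat_lit 713031746) (.two (nat_lit 8388608) (nat_lit 809501402) (.one (nat_lit 4197502) .nil))),
   .two (nat_lit 158075977736) (nat_lit 1782579225) (.two (nat_lit 605028353) (nat_lit 10909384831) (.two (nat_lit 1048576) (nat_lit 641729163) (.one (nat_lit 4197503) .nil))),
   .two (nat_lit 1277165576) (nat_lit 19093520451) (.two (nat_lit 1048576) (nat_lit 10001320218) .nil),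
   .two (nat_lit 606076936) (nat_lit 2969567247) (.two (nat_lit 2097153) (nat_lit 1413480573) (.two (nat_lit 4194304) (nat_lit 3472884378) (.one (nat_lit 156971829407) .nil))),
   .two (nat_lit 1846542344) (nat_lit 13195280396) (.two (nat_lit 41943045) (nat_lit 156465365016) (.two (nat_lit 612368385) (nat_lit 183845781626) (.two (nat_lit 1048576) (nat_lit 8390861) .nil))),
   .two (nat_lit 2887778312) (nat_lit 166132187161) (.two (nat_lit 2097153) (nat_lit 9940500720) (.two (nat_lit 1048576) (nat_lit 8389733) (.one (nat_lit 10537143390) .nil))),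
   .two (nat_lit 28086108168) (nat_lit 1849688072) (.two (nat_lit 209715205) (nat_lit 675282968) (.two (nat_lit 8388609) (nat_lit 166229705365) (.one (nat_lit 183946447817) .nil))),
   .two (nat_lit 1191182344) (nat_lit 10007609369) (.two (nat_lit 50331649) (nat_lit 10947134072) (.one (nat_lit 8391808) .nil)),
   .two (nat_lit 11543773192) (nat_lit 18928893960) (.two (nat_lit 156367847429) (nat_lit 11543773199) (.two (nat_lit 620756993) (nat_lit 9933161103) (.one (nat_lit 1050936) .nil))),
   .two (nat_lit 46980399112) (nat_lit 12054429709) (.two (nat_lit 41943045) (nat_lit 19599982607) (.two (nat_lit 41943041) (nat_lit 18928894632) (.one (nat_lit 159257725120) .nil))),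
   .two (nat_lit 176160776) (nat_lit 183845781519) (.two (nat_lit 16777217) (nat_lit 158075977976) (.two (nat_lit 8388608) (nat_lit 166196150908) (.one (nat_lit 12617518139) .nil))),
   .two (nat_lit 169869320) (nat_lit 612368392) (.two (nat_lit 176160773) (nat_lit 47548727311) (.two (nat_lit 34603009) (nat_lit 102760564) (.two (nat_lit 1048576) (nat_lit 2097818) (.one (nat_lit 1376783349) .nil)))),
   .two (nat_lit 218103816) (nat_lit 28691136520) (.two (nat_lit 721420293) (nat_lit 174692761625) (.two (nat_lit 8388609) (nat_lit 11477713018) (.two (nat_lit 2097152) (nat_lit 1426063977) (.one (nat_lit 16780417) .nil)))),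
   .two (nat_lit 184549384) (nat_lit 2961178632) (.two (nat_lit 176160772) (nat_lit 184549391) (.two (nat_lit 620756993) (nat_lit 2987393142) (.two (nat_lit 1048576) (nat_lit 37329306217) (.one (nat_lit 1283460052) .nil)))),
   .two (nat_lit 183853121544) (nat_lit 20638072847) (.two (nat_lit 41943041) (nat_lit 9967763572) (.two (nat_lit 8388608) (nat_lit 10940844067) .nil)),
   .two (nat_lit 205520904) (nat_lit 156372041743) (.two (nat_lit 4194305) (nat_lit 158150426742) (.two (nat_lit 4194304) (nat_lit 184993972843) (.one (nat_lit 1051778) .nil))),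
   .two (nat_lit 10504634376) (nat_lit 10913579021) (.two (nat_lit 47555018757) (nat_lit 10504634383) (.two (nat_lit 2097153) (nat_lit 185027526917) (.two (nat_lit 16777216) (nat_lit 2357199521) (.one (nat_lit 8391811) .nil)))),
   .two (nat_lit 203423752) (nat_lit 9798942732) (.two (nat_lit 16777220) (nat_lit 739246146) (.two (nat_lit 16777216) (nat_lit 21207450217) (.one (nat_lit 19128126584) .nil))),
   .two (nat_lit 2954887176) (nat_lit 11006902285) (.two (nat_lit 184549381) (nat_lit 21811429496) (.two (nat_lit 16777216) (nat_lit 2098279) (.one (nat_lit 16780421) .nil))),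
   .two (nat_lit 2954887176) (nat_lit 185002360858) (.two (nat_lit 50331649) (nat_lit 47582281837) (.two (nat_lit 16777216) (nat_lit 3558867548) (.one (nat_lit 2332034414) .nil))),
   .two (nat_lit 20644364301) (nat_lit 37246468109) (.two (nat_lit 75497477) (nat_lit 10369368112) (.two (nat_lit 2097153) (nat_lit 1343226119) (.two (nat_lit 2097152) (nat_lit 19033752673) (.one (nat_lit 8391814) .nil)))),
   .two (nat_lit 10504634376) (nat_lit 19026411543) (.two (nat_lit 9766436865) (nat_lit 11543773701) (.two (nat_lit 2097152) (nat_lit 1209009880) (.one (nat_lit 672139359) .nil))),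
   .two (nat_lit 272629768) (nat_lit 2416967747) (.two (nat_lit 4194304) (nat_lit 12617515606) (.one (nat_lit 1051784) .nil)),
   .two (nat_lit 2887778312) (nat_lit 3531603982) (.two (nat_lit 2894069765) (nat_lit 28791799856) (.two (nat_lit 50331649) (nat_lit 47547679354) (.one (nat_lit 156532476093) .nil))),
   .two (nat_lit 169869320) (nat_lit 11559501941) (.two (nat_lit 16777216) (nat_lit 1210057336) (.one (nat_lit 159266113575) .nil)),
   .two (nat_lit 4634705932) (nat_lit 47596961805) (.two (nat_lit 46992982021) (nat_lit 3527409777) (.two (nat_lit 1048576) (nat_lit 12050236016) (.one (nat_lit 156532475989) .nil))),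
   .two (nat_lit 285212685) (nat_lit 20705181709) (.two (nat_lit 2969567237) (nat_lit 159217877128) (.two (nat_lit 4194304) (nat_lit 218104531) (.one (nat_lit 69209178) .nil))),
   .two (nat_lit 176160776) (nat_lit 3036676122) (.two (nat_lit 16777217) (nat_lit 645923479) (.one (nat_lit 16780425) .nil)),
   .two (nat_lit 47555018760) (nat_lit 1847590920) (.two (nat_lit 28758245381) (nat_lit 47555018818) (.two (nat_lit 2097152) (nat_lit 159224169044) (.one (nat_lit 8390982) .nil))),
   .two (nat_lit 158075977736) (nat_lit 1212153880) (.two (nat_lit 8388609) (nat_lit 4601151683) (.one (nat_lit 4196679) .nil)),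
   .two (nat_lit 721420301) (nat_lit 183912890380) (.two (nat_lit 605028357) (nat_lit 285212738) (.two (nat_lit 4194304) (nat_lit 3472884367) (.one (nat_lit 16779592) .nil))),
   .two (nat_lit 2902458376) (nat_lit 46477082647) (.two (nat_lit 4194305) (nat_lit 20711473288) (.two (nat_lit 8388608) (nat_lit 1050346) (.one (nat_lit 16779593) .nil))),
   .two (nat_lit 10370416648) (nat_lit 159224168462) (.two (nat_lit 10343153669) (nat_lit 10370416655) (.two (nat_lit 606076929) (nat_lit 3531604625) (.one (nat_lit 1853884692) .nil))),
   .two (nat_lit 2889875464) (nat_lit 28690087944) (.two (nat_lit 4601151493) (nat_lit 772800637) (.two (nat_lit 2097152) (nat_lit 2987393718) (.one (nat_lit 4196683) .nil))),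
   .two (nat_lit 4613734408) (nat_lit 4605345805) (.two (nat_lit 16777220) (nat_lit 19093520408) (.two (nat_lit 8388609) (nat_lit 235929733) (.two (nat_lit 8388608) (nat_lit 183845782163) (.one (nat_lit 1051787) .nil)))),
   .two (nat_lit 158075977736) (nat_lit 1216348173) (.two (nat_lit 285212677) (nat_lit 10369368106) (.two (nat_lit 8388609) (nat_lit 13221495145) (.one (nat_lit 16780428) .nil))),
   .two (nat_lit 11479810056) (nat_lit 12047089677) (.two (nat_lit 272629765) (nat_lit 12048138342) (.two (nat_lit 4194305) (nat_lit 159251432073) (.one (nat_lit 1051789) .nil))),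
   .two (nat_lit 16777224) (nat_lit 272629773) (.two (nat_lit 272629765) (nat_lit 21827158138) (.two (nat_lit 4194304) (nat_lit 9966716238) .nil)),
   .two (nat_lit 705691656) (nat_lit 3464495112) (.two (nat_lit 2954887173) (nat_lit 9806282794) (.two (nat_lit 2097153) (nat_lit 10939793529) (.two (nat_lit 2097152) (nat_lit 158176641672) (.one (nat_lit 37314628581) .nil)))),
   .two (nat_lit 2887778312) (nat_lit 306184259) (.two (nat_lit 2097152) (nat_lit 3524264295) (.one (nat_lit 4197518) .nil)),
   .two (nat_lit 12114198536) (nat_lit 158083317875) (.two (nat_lit 1048576) (nat_lit 158083318373) (.one (nat_lit 10537142503) .nil)),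
   .two (nat_lit 203423752) (nat_lit 47588573208) (.two (nat_lit 2097153) (nat_lit 4605345857) (.two (nat_lit 2097152) (nat_lit 8389719) (.one (nat_lit 156365752377) .nil))),
   .two (nat_lit 4194312) (nat_lit 184993972334) (.two (nat_lit 1048576) (nat_lit 12150899344) (.one (nat_lit 8391824) .nil)),
   .two (nat_lit 183853121544) (nat_lit 19599982604) (.two (nat_lit 18928893957) (nat_lit 183853121602) (.two (nat_lit 4194304) (nat_lit 1182794359) (.one (nat_lit 8390989) .nil))),
   .two (nat_lit 713031688) (nat_lit 12617515032) (.two (nat_lit 41943041) (nat_lit 183912890481) (.two (nat_lit 8388608) (nat_lit 1376780996) (.one (nat_lit 1051793) .nil))),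
   .two (nat_lit 9866051592) (nat_lit 21778923545) (.two (nat_lit 605028353) (nat_lit 166197198968) (.two (nat_lit 2097152) (nat_lit 183845783643) .nil)),
   .two (nat_lit 9867100168) (nat_lit 10015997966) (.two (nat_lit 50331653) (nat_lit 639631375) (.two (nat_lit 37748737) (nat_lit 10538188908) (.two (nat_lit 16777216) (nat_lit 10336862933) (.one (nat_lit 4197522) .nil)))),
   .two (nat_lit 203423752) (nat_lit 19096666125) (.two (nat_lit 1916796933) (nat_lit 1210056822) (.two (nat_lit 2097152) (nat_lit 142606998) (.one (nat_lit 2100371) .nil))),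
   .two (nat_lit 46414168072) (nat_lit 156569174153) (.two (nat_lit 4194304) (nat_lit 3028288094) (.one (nat_lit 8390990) .nil)),
   .two (nat_lit 156569174028) (nat_lit 9899606057) (.two (nat_lit 605028353) (nat_lit 46510637295) (.two (nat_lit 1048576) (nat_lit 46510637413) (.one (nat_lit 1846544654) .nil))),
   .two (nat_lit 8388616) (nat_lit 37748744) (.two (nat_lit 8388612) (nat_lit 9936306299) (.two (nat_lit 4194304) (nat_lit 184987681828) (.one (nat_lit 11578379253) .nil))),
   .two (nat_lit 9766436872) (nat_lit 13224640525) (.two (nat_lit 41943045) (nat_lit 159251431448) (.two (nat_lit 37748737) (nat_lit 21778923639) (.two (nat_lit 4194304) (nat_lit 35652295) (.one (nat_lit 2994735143) .nil)))),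
   .two (nat_lit 101711880) (nat_lit 19532873743) (.two (nat_lit 34603009) (nat_lit 156535619651) (.two (nat_lit 4194304) (nat_lit 11510219836) (.one (nat_lit 1051796) .nil))),
   .two (nat_lit 8388616) (nat_lit 28086108173) (.two (nat_lit 176160773) (nat_lit 11577327656) (.two (nat_lit 16777217) (nat_lit 806355651) (.one (nat_lit 11584669748) .nil))),
   .two (nat_lit 46409973768) (nat_lit 18933088270) (.two (nat_lit 4605345797) (nat_lit 12620660858) (.two (nat_lit 4194304) (nat_lit 806355601) (.one (nat_lit 3524266260) .nil))),
   .two (nat_lit 9948889096) (nat_lit 174753579021) (.two (nat_lit 157036838917) (nat_lit 1291845745) (.two (nat_lit 2097152) (nat_lit 352322932) .nil)),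
   .two (nat_lit 4613734408) (nat_lit 337641486) (.two (nat_lit 4599054341) (nat_lit 46409973804) (.two (nat_lit 34603009) (nat_lit 9967763592) (.two (nat_lit 1048576) (nat_lit 306185249) (.one (nat_lit 4197525) .nil)))),
   .two (nat_lit 612368392) (nat_lit 174753579033) (.two (nat_lit 50331649) (nat_lit 11611930746) (.two (nat_lit 16777216) (nat_lit 75498120) (.one (nat_lit 8391830) .nil))),
   .two (nat_lit 1358954504) (nat_lit 3458203661) (.two (nat_lit 2097157) (nat_lit 721420303) (.two (nat_lit 2097153) (nat_lit 251658503) (.two (nat_lit 1048576) (nat_lit 1929380504) (.one (nat_lit 19094572015) .nil)))),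
   .two (nat_lit 21208498184) (nat_lit 156566028301) (.two (nat_lit 713031685) (nat_lit 10336862223) (.two (nat_lit 8388609) (nat_lit 47582282374) (.one (nat_lit 1051800) .nil))),
   .two (nat_lit 11476664328) (nat_lit 11614027802) (.two (nat_lit 8388609) (nat_lit 2353004669) (.two (nat_lit 1048576) (nat_lit 4196075) (.one (nat_lit 772802889) .nil))),
   .two (nat_lit 46978301960) (nat_lit 3573547052) (.two (nat_lit 612368385) (nat_lit 19530776643) (.two (nat_lit 2097152) (nat_lit 21827158678) (.one (nat_lit 2100377) .nil))),
   .two (nat_lit 809500680) (nat_lit 9948889101) (.two (nat_lit 9948889093) (nat_lit 183949590641) (.two (nat_lit 16777216) (nat_lit 19130221866) .nil)),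
   .two (nat_lit 8388616) (nat_lit 10940841997) (.two (nat_lit 158144135173) (nat_lit 8388623) (.two (nat_lit 8388609) (nat_lit 1344275138) (.one (nat_lit 2100379) .nil))),
   .two (nat_lit 10385096712) (nat_lit 165526110223) (.two (nat_lit 606076929) (nat_lit 4647288971) (.two (nat_lit 8388608) (nat_lit 69208086) .nil)),
   .two (nat_lit 11479810056) (nat_lit 28093448205) (.two (nat_lit 809500677) (nat_lit 184993972264) (.two (nat_lit 37748737) (nat_lit 156573368451) (.two (nat_lit 1048576) (nat_lit 166132187764) (.one (nat_lit 4196689) .nil)))),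
   .two (nat_lit 10369368072) (nat_lit 159217877007) (.two (nat_lit 8388609) (nat_lit 28790752579) .nil),
   .two (nat_lit 705691656) (nat_lit 612368392) (.two (nat_lit 176160772) (nat_lit 10537140267) (.two (nat_lit 2097153) (nat_lit 638582900) (.two (nat_lit 2097152) (nat_lit 34603674) (.one (nat_lit 1051806) .nil)))),
   .two (nat_lit 9948889096) (nat_lit 174753579020) (.two (nat_lit 165526110213) (nat_lit 9948889103) (.two (nat_lit 2097153) (nat_lit 12062819670) .nil)),
   .two (nat_lit 639631368) (nat_lit 2416967705) (.two (nat_lit 2097153) (nat_lit 28086108434) (.two (nat_lit 16777216) (nat_lit 183913939636) (.one (nat_lit 2100384) .nil))),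
   .two (nat_lit 8388616) (nat_lit 156984410155) (.two (nat_lit 50331649) (nat_lit 10007609539) (.one (nat_lit 8391841) .nil)),
   .two (nat_lit 183853121544) (nat_lit 159250382861) (.two (nat_lit 2956984325) (nat_lit 1753219180) (.two (nat_lit 1048576) (nat_lit 8389333) (.one (nat_lit 4197538) .nil))),
   .two (nat_lit 9948889096) (nat_lit 46978301965) (.two (nat_lit 9948889093) (nat_lit 1176502408) (.two (nat_lit 1048576) (nat_lit 16778989) (.one (nat_lit 1051811) .nil))),
   .two (nat_lit 9940500488) (nat_lit 28086108175) (.two (nat_lit 8388609) (nat_lit 46473937014) (.two (nat_lit 8388608) (nat_lit 12114199145) (.one (nat_lit 159250385964) .nil))),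
   .two (nat_lit 612368392) (nat_lit 37314625549) (.two (nat_lit 28758245381) (nat_lit 159224168463) (.two (nat_lit 50331649) (nat_lit 847250084) (.one (nat_lit 2988444771) .nil))),
   .two (nat_lit 46407876616) (nat_lit 13224640553) (.two (nat_lit 37748737) (nat_lit 169869588) (.two (nat_lit 1048576) (nat_lit 19029559572) .nil)),
   .two (nat_lit 37748744) (nat_lit 10007609356) (.two (nat_lit 159224168453) (nat_lit 809500687) (.two (nat_lit 612368385) (nat_lit 9936306894) (.one (nat_lit 46510638416) .nil))),
   .two (nat_lit 809500680) (nat_lit 174759870488) (.two (nat_lit 612368385) (nat_lit 156535619722) (.two (nat_lit 8388608) (nat_lit 2956985391) (.one (nat_lit 41945289) .nil))),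
   .two (nat_lit 46980399112) (nat_lit 159266111532) (.two (nat_lit 4194305) (nat_lit 285212787) (.two (nat_lit 4194304) (nat_lit 235930262) (.one (nat_lit 1358956860) .nil))),
   .two (nat_lit 1745879048) (nat_lit 654311436) (.two (nat_lit 1795162117) (nat_lit 19596836879) (.two (nat_lit 34603009) (nat_lit 1191183043) (.one (nat_lit 16780452) .nil))),
   .two (nat_lit 11492392968) (nat_lit 780140558) (.two (nat_lit 41943045) (nat_lit 11492393025) (.two (nat_lit 8388608) (nat_lit 16778349) (.one (nat_lit 21827160259) .nil))),
   .two (nat_lit 809500680) (nat_lit 19127074840) (.two (nat_lit 4194305) (nat_lit 20637024375) (.two (nat_lit 4194304) (nat_lit 1343226932) (.one (nat_lit 1209009552) .nil))),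
   .two (nat_lit 1913651208) (nat_lit 880803854) (.two (nat_lit 612368389) (nat_lit 1913651215) (.two (nat_lit 34603009) (nat_lit 4638901594) .nil)),
   .two (nat_lit 272629768) (nat_lit 28690087951) (.two (nat_lit 37748737) (nat_lit 159250383493) (.one (nat_lit 1051813) .nil)),
   .two (nat_lit 10369368072) (nat_lit 12117344372) (.two (nat_lit 1048576) (nat_lit 183949591141) (.one (nat_lit 1051814) .nil)),
   .two (nat_lit 2954887176) (nat_lit 21827158040) (.two (nat_lit 2097153) (nat_lit 9969861225) (.one (nat_lit 4197544) .nil)),
   .two (nat_lit 75497480) (nat_lit 11006902285) (.two (nat_lit 2969567237) (nat_lit 9806282891) (.two (nat_lit 1048576) (nat_lit 165532402310) (.one (nat_lit 251661198) .nil))),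
   .two (nat_lit 176160776) (nat_lit 157036838925) (.two (nat_lit 10504634373) (nat_lit 176160792) (.two (nat_lit 50331649) (nat_lit 8388717) (.two (nat_lit 1048576) (nat_lit 2098927) (.one (nat_lit 2100393) .nil)))),
   .two (nat_lit 46978301960) (nat_lit 1291845646) (.two (nat_lit 50331653) (nat_lit 21777874988) (.two (nat_lit 2097153) (nat_lit 10015998205) (.two (nat_lit 2097152) (nat_lit 157035791004) (.one (nat_lit 1745881407) .nil)))),
   .two (nat_lit 166132187144) (nat_lit 880803852) (.two (nat_lit 13195280389) (nat_lit 10506731587) (.two (nat_lit 4194304) (nat_lit 3028287846) (.one (nat_lit 1413483439) .nil))),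
   .two (nat_lit 166130089992) (nat_lit 20644364302) (.two (nat_lit 209715205) (nat_lit 166130089999) (.two (nat_lit 9765388289) (nat_lit 11007950983) (.two (nat_lit 1048576) (nat_lit 11618224414) .nil))),
   .two (nat_lit 21785214989) (nat_lit 4028629005) (.two (nat_lit 159224168453) (nat_lit 19027460211) (.two (nat_lit 8388608) (nat_lit 2098928) (.one (nat_lit 3021999194) .nil))),
   .two (nat_lit 713031688) (nat_lit 183845781519) (.two (nat_lit 34603009) (nat_lit 183913939065) (.two (nat_lit 8388608) (nat_lit 1745881339) .nil)),
   .two (nat_lit 176160776) (nat_lit 708837402) (.two (nat_lit 605028353) (nat_lit 813695101) (.two (nat_lit 16777216) (nat_lit 11476665051) (.one (nat_lit 1051818) .nil))),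
   .two (nat_lit 16777224) (nat_lit 606076936) (.two (nat_lit 169869316) (nat_lit 285212780) (.two (nat_lit 4194304) (nat_lit 11559504156) .nil)),
   .two (nat_lit 156367847432) (nat_lit 236978189) (.two (nat_lit 203423749) (nat_lit 156367847439) (.two (nat_lit 2097153) (nat_lit 156569174140) (.two (nat_lit 8388608) (nat_lit 156567079188) .nil))),
   .two (nat_lit 8388616) (nat_lit 12163481624) (.two (nat_lit 8388609) (nat_lit 3458204763) (.one (nat_lit 156533525590) .nil)),
   .two (nat_lit 83886088) (nat_lit 20644364303) (.two (nat_lit 50331649) (nat_lit 1317011522) (.two (nat_lit 8388608) (nat_lit 158192370775) (.one (nat_lit 2927626456) .nil))),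
   .two (nat_lit 2969567240) (nat_lit 4028629058) (.two (nat_lit 2097152) (nat_lit 285213278) (.one (nat_lit 1377830961) .nil)),
   .two (nat_lit 184549384) (nat_lit 1916796943) (.two (nat_lit 606076929) (nat_lit 159253528694) (.two (nat_lit 2097152) (nat_lit 104858254) (.one (nat_lit 157038939251) .nil))),
   .two (nat_lit 166132187144) (nat_lit 13195280397) (.two (nat_lit 13195280389) (nat_lit 166132187248) (.two (nat_lit 4194304) (nat_lit 28093449513) .nil)),
   .two (nat_lit 46414168072) (nat_lit 10907287566) (.two (nat_lit 4599054341) (nat_lit 46414168079) (.two (nat_lit 2097153) (nat_lit 780140666) (.two (nat_lit 2097152) (nat_lit 47547680069) .nil))),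
   .two (nat_lit 1277165576) (nat_lit 21207449608) (.two (nat_lit 639631365) (nat_lit 158075977743) (.two (nat_lit 41943041) (nat_lit 156465365117) (.two (nat_lit 1048576) (nat_lit 11477713627) (.one (nat_lit 9900656827) .nil)))),
   .two (nat_lit 184549384) (nat_lit 156372041740) (.two (nat_lit 10343153669) (nat_lit 184549391) (.two (nat_lit 612368385) (nat_lit 2902458725) (.one (nat_lit 16780459) .nil))),
   .two (nat_lit 169869320) (nat_lit 47550824462) (.two (nat_lit 2097157) (nat_lit 4634705961) (.two (nat_lit 50331649) (nat_lit 46473937257) (.one (nat_lit 839911613) .nil))),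
   .two (nat_lit 8388616) (nat_lit 1377828877) (.two (nat_lit 8388612) (nat_lit 9768534116) (.two (nat_lit 8388609) (nat_lit 3460300926) (.two (nat_lit 16777216) (nat_lit 102761098) (.one (nat_lit 8391852) .nil)))),
   .two (nat_lit 47582281740) (nat_lit 47555018764) (.two (nat_lit 47548727301) (nat_lit 3028287555) (.two (nat_lit 2097152) (nat_lit 2357199207) (.one (nat_lit 19027461479) .nil))),
   .two (nat_lit 176160776) (nat_lit 20705181709) (.two (nat_lit 21778923525) (nat_lit 343932995) (.two (nat_lit 2097152) (nat_lit 2357199208) (.one (nat_lit 8391853) .nil))),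
   .two (nat_lit 158075977736) (nat_lit 1916796941) (.two (nat_lit 21777874949) (nat_lit 19599982632) (.two (nat_lit 9768534017) (nat_lit 11476664439) (.two (nat_lit 1048576) (nat_lit 11513365078) (.one (nat_lit 19596838964) .nil)))),
   .two (nat_lit 713031688) (nat_lit 184416206871) (.two (nat_lit 16777217) (nat_lit 158077026947) (.one (nat_lit 1051822) .nil)),
   .two (nat_lit 203423752) (nat_lit 21781020798) (.two (nat_lit 2097152) (nat_lit 4196081) (.one (nat_lit 673187936) .nil)),
   .two (nat_lit 343932941) (nat_lit 1376780301) (.two (nat_lit 8388613) (nat_lit 21811429417) (.two (nat_lit 16777217) (nat_lit 713032355) (.one (nat_lit 2424309061) .nil))),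
   .two (nat_lit 9768534024) (nat_lit 11559501838) (.two (nat_lit 1795162117) (nat_lit 4634706055) (.two (nat_lit 4194304) (nat_lit 3565159790) .nil)),
   .two (nat_lit 184549384) (nat_lit 46984593416) (.two (nat_lit 184549380) (nat_lit 2927624216) (.two (nat_lit 8388609) (nat_lit 184549441) (.two (nat_lit 1048576) (nat_lit 37329306217) (.one (nat_lit 16780463) .nil)))),
   .two (nat_lit 2902458376) (nat_lit 21778923533) (.two (nat_lit 13191086085) (nat_lit 285212781) (.two (nat_lit 4194304) (nat_lit 28772926065) (.one (nat_lit 1344277432) .nil))),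
   .two (nat_lit 16777224) (nat_lit 156567076888) (.two (nat_lit 2097153) (nat_lit 1358954621) (.two (nat_lit 2097152) (nat_lit 157051520747) (.one (nat_lit 10336864335) .nil))),
   .two (nat_lit 205520904) (nat_lit 158144135209) (.two (nat_lit 2097153) (nat_lit 9802089164) (.one (nat_lit 158647453888) .nil)),
   .two (nat_lit 176160776) (nat_lit 3460300824) (.two (nat_lit 8388609) (nat_lit 46510637121) (.two (nat_lit 8388608) (nat_lit 12117345389) (.one (nat_lit 11584669912) .nil))),
   .two (nat_lit 1343225864) (nat_lit 1746927629) (.two (nat_lit 50331653) (nat_lit 11543773298) (.two (nat_lit 16777216) (nat_lit 174685422917) .nil)),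
   .two (nat_lit 174752530440) (nat_lit 1753219084) (.two (nat_lit 34603013) (nat_lit 156372041743) (.two (nat_lit 2097153) (nat_lit 159257723541) (.one (nat_lit 8391859) .nil))),
   .two (nat_lit 1350565896) (nat_lit 46474985484) (.two (nat_lit 69206021) (nat_lit 713031695) (.two (nat_lit 37748737) (nat_lit 69206134) (.two (nat_lit 4194304) (nat_lit 10907288171) (.one (nat_lit 2100404) .nil)))),
   .two (nat_lit 9802088460) (nat_lit 28757196813) (.two (nat_lit 10503585797) (nat_lit 157038936179) (.two (nat_lit 1048576) (nat_lit 47584379537) (.one (nat_lit 2353007628) .nil))),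
   .two (nat_lit 639631368) (nat_lit 721420302) (.two (nat_lit 184549381) (nat_lit 10504634383) (.two (nat_lit 34603009) (nat_lit 1224736889) (.two (nat_lit 16777216) (nat_lit 169869985) (.one (nat_lit 185035917504) .nil)))),
   .two (nat_lit 46414168072) (nat_lit 721420403) (.two (nat_lit 8388608) (nat_lit 721420901) (.one (nat_lit 9806284828) .nil)),
   .two (nat_lit 47555018760) (nat_lit 166230753293) (.two (nat_lit 10370416645) (nat_lit 47555018767) (.two (nat_lit 2097153) (nat_lit 343934247) .nil)),
   .two (nat_lit 620757000) (nat_lit 156372041743) (.two (nat_lit 8388609) (nat_lit 156984410235) (.two (nat_lit 1048576) (nat_lit 16778352) (.one (nat_lit 1051830) .nil))),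
   .two (nat_lit 12114198536) (nat_lit 1746927641) (.two (nat_lit 606076929) (nat_lit 2316304636) (.two (nat_lit 1048576) (nat_lit 37314626216) (.one (nat_lit 46473938978) .nil))),
   .two (nat_lit 1795162120) (nat_lit 2416967704) (.two (nat_lit 34603009) (nat_lit 218104415) (.one (nat_lit 16780472) .nil)),
   .two (nat_lit 18933088264) (nat_lit 158077026312) (.two (nat_lit 21778923525) (nat_lit 18933088271) (.two (nat_lit 37748737) (nat_lit 158183982157) (.one (nat_lit 8391865) .nil))),
   .two (nat_lit 176160776) (nat_lit 218103831) (.two (nat_lit 16777217) (nat_lit 3028288084) (.one (nat_lit 3036678306) .nil)),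
   .two (nat_lit 2902458376) (nat_lit 101711887) (.two (nat_lit 16777217) (nat_lit 1410334842) (.two (nat_lit 16777216) (nat_lit 157035790981) (.one (nat_lit 156364704699) .nil))),
   .two (nat_lit 11492392968) (nat_lit 9934209039) (.two (nat_lit 50331649) (nat_lit 20738736244) (.two (nat_lit 16777216) (nat_lit 4028631279) .nil)),
   .two (nat_lit 276824072) (nat_lit 20638072845) (.two (nat_lit 8388612) (nat_lit 639631404) (.two (nat_lit 37748737) (nat_lit 183946444866) (.two (nat_lit 4194304) (nat_lit 3457155433) (.one (nat_lit 2100410) .nil)))),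
   .two (nat_lit 19532873736) (nat_lit 847249421) (.two (nat_lit 13195280389) (nat_lit 19532873743) (.two (nat_lit 41943041) (nat_lit 156535619719) (.two (nat_lit 2097152) (nat_lit 20740835541) .nil))),
   .two (nat_lit 46414168072) (nat_lit 10506731532) (.two (nat_lit 9768534021) (nat_lit 10343153679) (.two (nat_lit 37748737) (nat_lit 847250761) .nil)),
   .two (nat_lit 75497480) (nat_lit 165526110223) (.two (nat_lit 41943041) (nat_lit 157036839186) (.two (nat_lit 16777216) (nat_lit 1954547894) .nil)),
   .two (nat_lit 47555018760) (nat_lit 158144135180) (.two (nat_lit 1277165573) (nat_lit 47555018818) (.two (nat_lit 2097152) (nat_lit 159224168805) (.one (nat_lit 174692764802) .nil))),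
   .two (nat_lit 1343225864) (nat_lit 28691136520) (.two (nat_lit 176160773) (nat_lit 3021996169) (.two (nat_lit 2097152) (nat_lit 19026412193) (.one (nat_lit 3458205888) .nil))),
   .two (nat_lit 157036838920) (nat_lit 184989777934) (.two (nat_lit 69206021) (nat_lit 285212737) (.two (nat_lit 4194304) (nat_lit 2936013507) (.one (nat_lit 754977978) .nil))),
   .two (nat_lit 285212680) (nat_lit 1212153869) (.two (nat_lit 4601151493) (nat_lit 285212738) (.two (nat_lit 4194304) (nat_lit 822084180) (.one (nat_lit 21793605842) .nil))),
   .two (nat_lit 1846542344) (nat_lit 10370416653) (.two (nat_lit 2954887173) (nat_lit 1846542351) (.two (nat_lit 2097153) (nat_lit 11517558920) (.two (nat_lit 8388608) (nat_lit 12114199640) (.one (nat_lit 2100413) .nil)))),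
   .two (nat_lit 713031688) (nat_lit 159217877007) (.two (nat_lit 612368385) (nat_lit 10940843076) (.one (nat_lit 2100414) .nil)),
   .two (nat_lit 47548727304) (nat_lit 11559501838) (.two (nat_lit 169869316) (nat_lit 50331689) (.two (nat_lit 2097153) (nat_lit 285212793) (.two (nat_lit 8388608) (nat_lit 10336862403) (.one (nat_lit 21827161062) .nil)))),
   .two (nat_lit 176160776) (nat_lit 11492392975) (.two (nat_lit 50331649) (nat_lit 10913579144) (.two (nat_lit 1048576) (nat_lit 13237225656) .nil)),
   .two (nat_lit 11559501832) (nat_lit 9974054925) (.two (nat_lit 159224168453) (nat_lit 11559501839) (.two (nat_lit 156367847425) (nat_lit 2424307849) (.two (nat_lit 2097152) (nat_lit 159253529233) (.one (nat_lit 10544482345) .nil)))),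
   .two (nat_lit 3458203656) (nat_lit 9768534029) (.two (nat_lit 9768534021) (nat_lit 3458203663) (.two (nat_lit 37748737) (nat_lit 28791800070) (.two (nat_lit 8388608) (nat_lit 1948255304) (.one (nat_lit 4197567) .nil)))),
   .two (nat_lit 176160776) (nat_lit 4028629015) (.two (nat_lit 8388609) (nat_lit 46474985585) (.two (nat_lit 8388608) (nat_lit 1210057388) (.one (nat_lit 2100416) .nil))),
   .two (nat_lit 2961178632) (nat_lit 156365750287) (.two (nat_lit 2097153) (nat_lit 156532473971) (.two (nat_lit 2097152) (nat_lit 4598006876) (.one (nat_lit 8391873) .nil))),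
   .two (nat_lit 184993972232) (nat_lit 10336862223) (.two (nat_lit 41943041) (nat_lit 673185904) (.two (nat_lit 8388608) (nat_lit 10370418031) .nil)),
   .two (nat_lit 20644364301) (nat_lit 156968681485) (.two (nat_lit 156364701701) (nat_lit 20644364403) (.two (nat_lit 16777216) (nat_lit 13228835876) (.one (nat_lit 8391755) .nil))),
   .two (nat_lit 46978301960) (nat_lit 21811429388) (.two (nat_lit 3525312517) (nat_lit 46406828158) (.two (nat_lit 2097152) (nat_lit 12617515676) (.one (nat_lit 157036841211) .nil))),
   .two (nat_lit 2954887176) (nat_lit 10338959368) (.two (nat_lit 4194308) (nat_lit 3525312527) (.two (nat_lit 620756993) (nat_lit 740295275) (.one (nat_lit 2100419) .nil))),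
   .two (nat_lit 1779433480) (nat_lit 1210056717) (.two (nat_lit 184549381) (nat_lit 739246190) (.two (nat_lit 16777216) (nat_lit 1049310) (.one (nat_lit 2100420) .nil))),
   .two (nat_lit 46409973768) (nat_lit 102760461) (.two (nat_lit 41943045) (nat_lit 13191086190) (.two (nat_lit 8388608) (nat_lit 10909385381) (.one (nat_lit 2100421) .nil))),
   .two (nat_lit 68157448) (nat_lit 159224168456) (.two (nat_lit 176160772) (nat_lit 839909401) (.two (nat_lit 8388609) (nat_lit 809500793) (.two (nat_lit 8388608) (nat_lit 4196085) (.one (nat_lit 4197574) .nil)))),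
   .two (nat_lit 11476664328) (nat_lit 9768534029) (.two (nat_lit 2097157) (nat_lit 12121538679) (.two (nat_lit 2097152) (nat_lit 9873392283) (.one (nat_lit 1051558) .nil))),
   .two (nat_lit 12047089672) (nat_lit 20705181709) (.two (nat_lit 184986632197) (nat_lit 183913939046) (.two (nat_lit 34603009) (nat_lit 9967763571) (.two (nat_lit 4194304) (nat_lit 69207375) .nil))),
   .two (nat_lit 612368392) (nat_lit 19599982600) (.two (nat_lit 176160772) (nat_lit 11513364503) (.two (nat_lit 4194305) (nat_lit 780140682) (.two (nat_lit 8388608) (nat_lit 165528208431) (.one (nat_lit 10544481646) .nil)))),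
   .two (nat_lit 50331656) (nat_lit 166132187144) (.two (nat_lit 16777220) (nat_lit 183848927247) (.two (nat_lit 16777217) (nat_lit 158649549495) (.one (nat_lit 754976079) .nil))),
   .two (nat_lit 101711880) (nat_lit 156533522446) (.two (nat_lit 101711877) (nat_lit 10336862232) (.two (nat_lit 50331649) (nat_lit 46977253494) (.two (nat_lit 16777216) (nat_lit 101712520) (.one (nat_lit 1051849) .nil)))),
   .two (nat_lit 159232557064) (nat_lit 19530776591) (.two (nat_lit 9766436865) (nat_lit 4647289491) (.one (nat_lit 157051522065) .nil)),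
   .two (nat_lit 9934209032) (nat_lit 1212153881) (.two (nat_lit 2097153) (nat_lit 1916797662) (.one (nat_lit 4197578) .nil)),
   .two (nat_lit 46409973768) (nat_lit 28757196825) (.two (nat_lit 9768534017) (nat_lit 1049099) (.two (nat_lit 4194304) (nat_lit 1050358) (.one (nat_lit 1849690279) .nil))),
   .two (nat_lit 165526110216) (nat_lit 20704133134) (.two (nat_lit 10335813637) (nat_lit 165526110223) (.two (nat_lit 605028353) (nat_lit 1862272345) .nil)),
   .two (nat_lit 809500680) (nat_lit 13195280392) (.two (nat_lit 11479810053) (nat_lit 713031705) (.two (nat_lit 4194305) (nat_lit 1920991490) (.two (nat_lit 4194304) (nat_lit 8389748) (.one (nat_lit 4197579) .nil)))),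
   .two (nat_lit 9940500488) (nat_lit 19596836872) (.two (nat_lit 9765388293) (nat_lit 166132187151) (.two (nat_lit 34603009) (nat_lit 10913579366) (.one (nat_lit 8391884) .nil))),
   .two (nat_lit 46409973768) (nat_lit 28093448200) (.two (nat_lit 4601151493) (nat_lit 10947133465) (.two (nat_lit 8388609) (nat_lit 2923429953) (.two (nat_lit 8388608) (nat_lit 4195446) (.one (nat_lit 4197581) .nil)))),
   .two (nat_lit 11559501832) (nat_lit 28757196825) (.two (nat_lit 9765388289) (nat_lit 10955522306) (.two (nat_lit 1048576) (nat_lit 183861511215) (.one (nat_lit 16780494) .nil))),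
   .two (nat_lit 620757000) (nat_lit 10000269326) (.two (nat_lit 34603013) (nat_lit 620757007) (.two (nat_lit 2097153) (nat_lit 168820858) (.two (nat_lit 2097152) (nat_lit 159266112612) (.one (nat_lit 1948257169) .nil)))),
   .two (nat_lit 46980399112) (nat_lit 20738736152) (.two (nat_lit 9766436865) (nat_lit 306184799) (.one (nat_lit 4197583) .nil)),
   .two (nat_lit 104857608) (nat_lit 19529728015) (.two (nat_lit 37748737) (nat_lit 19093520747) (.one (nat_lit 1051856) .nil)),
   .two (nat_lit 10506731528) (nat_lit 166129041416) (.two (nat_lit 34603013) (nat_lit 159219974187) (.two (nat_lit 2097153) (nat_lit 159250383456) (.one (nat_lit 10947135649) .nil))),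
   .two (nat_lit 742391816) (nat_lit 4605345807) (.two (nat_lit 4194305) (nat_lit 310379144) (.one (nat_lit 2100433) .nil)),
   .two (nat_lit 285212680) (nat_lit 166132187151) (.two (nat_lit 34603009) (nat_lit 1426063992) (.one (nat_lit 16780498) .nil)),
   .two (nat_lit 742391816) (nat_lit 20704133132) (.two (nat_lit 2097157) (nat_lit 46510637170) (.two (nat_lit 1048576) (nat_lit 1916798289) .nil)),
   .two (nat_lit 8388616) (nat_lit 174752530440) (.two (nat_lit 8388612) (nat_lit 1309671447) (.two (nat_lit 41943041) (nat_lit 28790751340) (.two (nat_lit 1048576) (nat_lit 2927624555) (.one (nat_lit 1051859) .nil)))),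
   .two (nat_lit 1276117000) (nat_lit 157036838927) (.two (nat_lit 4194305) (nat_lit 4632609423) (.one (nat_lit 158177691781) .nil)),
   .two (nat_lit 1178599432) (nat_lit 12147752973) (.two (nat_lit 739246085) (nat_lit 1178599439) (.two (nat_lit 34603009) (nat_lit 47584379586) (.one (nat_lit 1050995) .nil))),
   .two (nat_lit 16777224) (nat_lit 9867100201) (.two (nat_lit 34603009) (nat_lit 156365750389) (.two (nat_lit 4194304) (nat_lit 1049312) (.one (nat_lit 1051861) .nil))),
   .two (nat_lit 813694984) (nat_lit 19599982607) (.two (nat_lit 8388609) (nat_lit 9934209656) (.one (nat_lit 2100438) .nil)),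
   .two (nat_lit 158143086600) (nat_lit 3558866957) (.two (nat_lit 203423749) (nat_lit 158143086607) (.two (nat_lit 2097153) (nat_lit 4631560323) (.two (nat_lit 2097152) (nat_lit 10369368711) (.one (nat_lit 1051863) .nil)))),
   .two (nat_lit 184549384) (nat_lit 1753219084) (.two (nat_lit 18933088261) (nat_lit 16777332) (.two (nat_lit 8388608) (nat_lit 285213285) (.one (nat_lit 3036678446) .nil))),
   .two (nat_lit 8388616) (nat_lit 157038936076) (.two (nat_lit 156367847429) (nat_lit 3464495169) (.two (nat_lit 4194304) (nat_lit 183953785474) (.one (nat_lit 8391028) .nil))),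
   .two (nat_lit 12054429704) (nat_lit 19093520396) (.two (nat_lit 101711877) (nat_lit 158653743361) (.two (nat_lit 1048576) (nat_lit 41944380) .nil)),
   .two (nat_lit 158144135176) (nat_lit 10343153672) (.two (nat_lit 1277165573) (nat_lit 2323644440) (.two (nat_lit 2097153) (nat_lit 2323644526) (.two (nat_lit 16777216) (nat_lit 847250040) (.one (nat_lit 8391896) .nil)))),
   .two (nat_lit 47548727304) (nat_lit 11618222103) (.two (nat_lit 16777217) (nat_lit 10007610032) (.one (nat_lit 1920993474) .nil)),
   .two (nat_lit 754974728) (nat_lit 10436476952) (.two (nat_lit 9765388289) (nat_lit 754974785) (.two (nat_lit 1048576) (nat_lit 10385098462) (.one (nat_lit 16779637) .nil))),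
   .two (nat_lit 1343225864) (nat_lit 11007950860) (.two (nat_lit 1343225861) (nat_lit 157036838927) (.two (nat_lit 8388609) (nat_lit 3457155190) (.two (nat_lit 8388608) (nat_lit 1343226504) (.one (nat_lit 1051865) .nil)))),
   .two (nat_lit 169869320) (nat_lit 117440527) (.two (nat_lit 34603009) (nat_lit 37247516809) (.two (nat_lit 1048576) (nat_lit 156567077601) (.one (nat_lit 1051866) .nil))),
   .two (nat_lit 11543773192) (nat_lit 183962173453) (.two (nat_lit 184549381) (nat_lit 12114198552) (.two (nat_lit 2097153) (nat_lit 47563407497) (.two (nat_lit 16777216) (nat_lit 165525062713) (.one (nat_lit 16780507) .nil)))),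
   .two (nat_lit 1358954504) (nat_lit 135266316) (.two (nat_lit 19596836869) (nat_lit 620757105) (.two (nat_lit 1048576) (nat_lit 620758306) .nil)),
   .two (nat_lit 50331656) (nat_lit 3527409676) (.two (nat_lit 16777220) (nat_lit 2923429928) (.two (nat_lit 4194305) (nat_lit 158662132074) (.one (nat_lit 16779638) .nil))),
   .two (nat_lit 4194312) (nat_lit 2921332759) (.two (nat_lit 4194305) (nat_lit 839909489) (.two (nat_lit 4194304) (nat_lit 183913939564) (.one (nat_lit 2100444) .nil))),
   .two (nat_lit 101711880) (nat_lit 183853121559) (.two (nat_lit 34603009) (nat_lit 13195280978) (.one (nat_lit 8391901) .nil)),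
   .two (nat_lit 721420296) (nat_lit 21777874952) (.two (nat_lit 50331653) (nat_lit 1410334744) (.two (nat_lit 34603009) (nat_lit 46422557739) (.one (nat_lit 183928621385) .nil))),
   .two (nat_lit 10336862216) (nat_lit 184431935533) (.two (nat_lit 2097153) (nat_lit 1325400423) (.one (nat_lit 16780510) .nil)),
   .two (nat_lit 1913651208) (nat_lit 9967763468) (.two (nat_lit 9934209029) (nat_lit 1913651215) (.two (nat_lit 34603009) (nat_lit 706740350) (.two (nat_lit 1048576) (nat_lit 35652279) (.one (nat_lit 28790752591) .nil)))),
   .two (nat_lit 165532401672) (nat_lit 1749024776) (.two (nat_lit 9873391621) (nat_lit 654311540) (.two (nat_lit 4194304) (nat_lit 2365588118) (.one (nat_lit 4197601) .nil))),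
   .two (nat_lit 75497480) (nat_lit 185020186636) (.two (nat_lit 184986632197) (nat_lit 11618222145) (.two (nat_lit 1048576) (nat_lit 1853882728) (.one (nat_lit 8391906) .nil))),
   .two (nat_lit 101711880) (nat_lit 19530776584) (.two (nat_lit 1779433477) (nat_lit 28691136535) (.two (nat_lit 34603009) (nat_lit 4632609020) (.two (nat_lit 4194304) (nat_lit 2987393667) (.one (nat_lit 1051000) .nil)))),
   .two (nat_lit 742391816) (nat_lit 156372041736) (.two (nat_lit 10370416645) (nat_lit 306184318) (.two (nat_lit 2097152) (nat_lit 809501356) (.one (nat_lit 2350909782) .nil))),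
   .two (nat_lit 12117344264) (nat_lit 1376780301) (.two (nat_lit 21777874949) (nat_lit 10909385066) (.one (nat_lit 158146233682) .nil)),
   .two (nat_lit 16777224) (nat_lit 639631375) (.two (nat_lit 16777217) (nat_lit 740294779) (.two (nat_lit 1048576) (nat_lit 13188989658) (.one (nat_lit 1051875) .nil))),
   .two (nat_lit 809500680) (nat_lit 1753219085) (.two (nat_lit 21785214981) (nat_lit 184419352599) (.two (nat_lit 612368385) (nat_lit 184419352684) (.two (nat_lit 8388608) (nat_lit 11479810728) (.one (nat_lit 166136383527) .nil)))),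
   .two (nat_lit 20644364296) (nat_lit 843055144) (.two (nat_lit 156372041729) (nat_lit 4634706518) (.one (nat_lit 4197604) .nil)),
   .two (nat_lit 68157448) (nat_lit 822083599) (.two (nat_lit 4194305) (nat_lit 47581233271) (.two (nat_lit 4194304) (nat_lit 18941477594) (.one (nat_lit 1051877) .nil))),
   .two (nat_lit 50331656) (nat_lit 705691656) (.two (nat_lit 34603013) (nat_lit 822083599) (.two (nat_lit 2097153) (nat_lit 156364701813) (.two (nat_lit 2097152) (nat_lit 150995636) (.one (nat_lit 840960144) .nil)))),
   .two (nat_lit 28758245384) (nat_lit 20644364302) (.two (nat_lit 209715205) (nat_lit 28758245391) (.two (nat_lit 606076929) (nat_lit 183853121651) (.two (nat_lit 2097152) (nat_lit 10510926924) (.one (nat_lit 11584670791) .nil)))),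
   .two (nat_lit 2889875464) (nat_lit 183946444823) (.two (nat_lit 9768534017) (nat_lit 11577327724) (.two (nat_lit 4194304) (nat_lit 269484662) (.one (nat_lit 1051880) .nil))),
   .two (nat_lit 8388616) (nat_lit 21778923532) (.two (nat_lit 8388613) (nat_lit 874512429) (.two (nat_lit 2097153) (nat_lit 46477082745) (.two (nat_lit 4194304) (nat_lit 8389755) (.one (nat_lit 37253811324) .nil)))),
   .two (nat_lit 183853121544) (nat_lit 158646403085) (.two (nat_lit 1343225861) (nat_lit 156372041795) (.two (nat_lit 8388608) (nat_lit 1050359) (.one (nat_lit 12114200707) .nil))),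
   .two (nat_lit 9934209032) (nat_lit 21777874958) (.two (nat_lit 102760453) (nat_lit 34603033) (.two (nat_lit 41943041) (nat_lit 9765389394) (.one (nat_lit 2100457) .nil))),
   .two (nat_lit 4605345800) (nat_lit 236978190) (.two (nat_lit 69206021) (nat_lit 3464495127) (.two (nat_lit 37748737) (nat_lit 21785215606) (.one (nat_lit 2100458) .nil))),
   .two (nat_lit 8388616) (nat_lit 156365750280) (.two (nat_lit 8388613) (nat_lit 1358954538) (.two (nat_lit 8388609) (nat_lit 352321657) (.two (nat_lit 16777216) (nat_lit 156573369050) (.one (nat_lit 8391915) .nil)))),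
   .two (nat_lit 809500680) (nat_lit 19127074840) (.two (nat_lit 37748737) (nat_lit 158075978245) (.two (nat_lit 4194304) (nat_lit 1050362) (.one (nat_lit 10503587935) .nil))),
   .two (nat_lit 1358954504) (nat_lit 183845781512) (.two (nat_lit 1358954501) (nat_lit 183845781519) (.two (nat_lit 156364701697) (nat_lit 10001318013) (.two (nat_lit 1048576) (nat_lit 2098939) (.one (nat_lit 1051886) .nil)))),
   .two (nat_lit 9781116936) (nat_lit 156367847439) (.two (nat_lit 4194305) (nat_lit 16778536) .nil),
   .two (nat_lit 47555018760) (nat_lit 159216828428) (.two (nat_lit 612368389) (nat_lit 166199296043) (.two (nat_lit 34603009) (nat_lit 3560964207) (.two (nat_lit 4194304) (nat_lit 1049725) (.one (nat_lit 1051006) .nil)))),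
   .two (nat_lit 713031688) (nat_lit 158176641037) (.two (nat_lit 739246085) (nat_lit 75497487) (.two (nat_lit 34603009) (nat_lit 185027527020) (.one (nat_lit 8391039) .nil))),
   .two (nat_lit 2954887176) (nat_lit 18933088271) (.two (nat_lit 2097153) (nat_lit 11517558850) (.two (nat_lit 2097152) (nat_lit 2424308076) (.one (nat_lit 2894072749) .nil))),
   .two (nat_lit 9768534024) (nat_lit 47582281741) (.two (nat_lit 2954887173) (nat_lit 9768534031) (.two (nat_lit 2097153) (nat_lit 156569174373) (.one (nat_lit 4196736) .nil))),
   .two (nat_lit 713031688) (nat_lit 156365750287) (.two (nat_lit 2097153) (nat_lit 19537068149) (.two (nat_lit 8388608) (nat_lit 19128124058) (.one (nat_lit 10001321005) .nil))),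
   .two (nat_lit 4605345800) (nat_lit 183949590551) (.two (nat_lit 8388609) (nat_lit 28760343048) (.two (nat_lit 4194304) (nat_lit 880804434) (.one (nat_lit 159219976330) .nil))),
   .two (nat_lit 1291845640) (nat_lit 19597885465) (.two (nat_lit 9766436865) (nat_lit 165540791634) .nil),
   .two (nat_lit 276824072) (nat_lit 10336862216) (.two (nat_lit 10336862213) (nat_lit 1175453711) (.two (nat_lit 34603009) (nat_lit 47588573458) (.two (nat_lit 8388608) (nat_lit 772801170) (.one (nat_lit 11006904667) .nil)))),
   .two (nat_lit 739246088) (nat_lit 10506731532) (.two (nat_lit 809500677) (nat_lit 101711887) (.two (nat_lit 37748737) (nat_lit 158176641382) (.one (nat_lit 1051010) .nil))),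
   .two (nat_lit 184419352584) (nat_lit 158075977736) (.two (nat_lit 21777874949) (nat_lit 775946264) (.two (nat_lit 156364701697) (nat_lit 13224640620) (.two (nat_lit 1048576) (nat_lit 21781021302) (.one (nat_lit 4197615) .nil)))),
   .two (nat_lit 2969567240) (nat_lit 156465365006) (.two (nat_lit 806354949) (nat_lit 184549484) (.two (nat_lit 1048576) (nat_lit 11022631542) (.one (nat_lit 1051888) .nil))),
   .two (nat_lit 184993972232) (nat_lit 2416967726) (.two (nat_lit 605028353) (nat_lit 156372042445) (.one (nat_lit 8391921) .nil)),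
   .two (nat_lit 11492392968) (nat_lit 28757196815) (.two (nat_lit 605028353) (nat_lit 3472884346) (.one (nat_lit 166211881147) .nil)),
   .two (nat_lit 1847590920) (nat_lit 16777228) (.two (nat_lit 285212677) (nat_lit 174753579075) (.two (nat_lit 2097152) (nat_lit 37262197096) (.one (nat_lit 20738739122) .nil))),
   .two (nat_lit 639631368) (nat_lit 20644364303) (.two (nat_lit 2097153) (nat_lit 28093449513) .nil),
   .two (nat_lit 9866051592) (nat_lit 654311436) (.two (nat_lit 9781116933) (nat_lit 1846542471) (.two (nat_lit 16777216) (nat_lit 34603650) (.one (nat_lit 9899608196) .nil))),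
   .two (nat_lit 16777224) (nat_lit 1916796943) (.two (nat_lit 37748737) (nat_lit 1224737463) (.one (nat_lit 16780532) .nil)),
   .two (nat_lit 2887778312) (nat_lit 1358954511) (.two (nat_lit 34603009) (nat_lit 19094570069) (.one (nat_lit 2100469) .nil)),
   .two (nat_lit 1178599432) (nat_lit 12114198536) (.two (nat_lit 9768534021) (nat_lit 806354969) (.two (nat_lit 37748737) (nat_lit 10369368711) (.one (nat_lit 13221497911) .nil))),
   .two (nat_lit 2954887176) (nat_lit 1178599450) (.two (nat_lit 2097153) (nat_lit 20711473289) (.two (nat_lit 8388608) (nat_lit 46978303090) (.one (nat_lit 142609405) .nil))),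
   .two (nat_lit 176160776) (nat_lit 157036838927) (.two (nat_lit 8388609) (nat_lit 4028629057) (.two (nat_lit 8388608) (nat_lit 2098303) (.one (nat_lit 3021998267) .nil))),
   .two (nat_lit 75497480) (nat_lit 174752530447) (.two (nat_lit 41943041) (nat_lit 158143086659) (.two (nat_lit 8388608) (nat_lit 1049314) (.one (nat_lit 156968683802) .nil))),
   .two (nat_lit 101711880) (nat_lit 165532401672) (.two (nat_lit 11476664324) (nat_lit 158083317783) (.two (nat_lit 34603009) (nat_lit 880804442) (.one (nat_lit 20644366509) .nil))),
   .two (nat_lit 721420296) (nat_lit 1913651224) (.two (nat_lit 8388609) (nat_lit 46489665658) (.two (nat_lit 1048576) (nat_lit 10351542974) (.one (nat_lit 16780534) .nil))),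
   .two (nat_lit 8388616) (nat_lit 156365750287) (.two (nat_lit 16777217) (nat_lit 156573369050) (.one (nat_lit 8391927) .nil)),
   .two (nat_lit 612368392) (nat_lit 165525061640) (.two (nat_lit 713031685) (nat_lit 605028378) (.two (nat_lit 16777217) (nat_lit 2920284279) (.two (nat_lit 16777216) (nat_lit 166237045466) (.one (nat_lit 8391928) .nil)))),
   .two (nat_lit 880803852) (nat_lit 101711886) (.two (nat_lit 1343225861) (nat_lit 13195280424) (.two (nat_lit 41943041) (nat_lit 21207449736) (.two (nat_lit 8388608) (nat_lit 20737688626) (.one (nat_lit 1051897) .nil)))),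
   .two (nat_lit 83886093) (nat_lit 28758245389) (.two (nat_lit 1291845637) (nat_lit 12115247148) (.two (nat_lit 9766436865) (nat_lit 721420409) (.two (nat_lit 1048576) (nat_lit 183846831188) (.one (nat_lit 2100474) .nil)))),
   .two (nat_lit 47555018760) (nat_lit 46474985485) (.two (nat_lit 47548727301) (nat_lit 46414168129) (.two (nat_lit 2097152) (nat_lit 11551113577) (.one (nat_lit 2323646484) .nil))),
   .two (nat_lit 2961178632) (nat_lit 9948889100) (.two (nat_lit 620756997) (nat_lit 20644364355) (.two (nat_lit 16777216) (nat_lit 46514831998) (.one (nat_lit 20745029935) .nil))),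
   .two (nat_lit 28086108168) (nat_lit 166130089999) (.two (nat_lit 605028353) (nat_lit 169869946) (.one (nat_lit 2100475) .nil)),
   .two (nat_lit 11492392968) (nat_lit 159216828429) (.two (nat_lit 4601151493) (nat_lit 754974831) (.two (nat_lit 1048576) (nat_lit 46523220628) (.one (nat_lit 4197628) .nil))),
   .two (nat_lit 101711880) (nat_lit 21223178285) (.two (nat_lit 50331649) (nat_lit 184986633290) (.one (nat_lit 1051901) .nil)),
   .two (nat_lit 11559501832) (nat_lit 2416967692) (.two (nat_lit 171966469) (nat_lit 285212737) (.two (nat_lit 1048576) (nat_lit 687866473) (.one (nat_lit 159232560257) .nil))),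
   .two (nat_lit 75497480) (nat_lit 1191182351) (.two (nat_lit 50331649) (nat_lit 10343154277) (.one (nat_lit 8391934) .nil)),
   .two (nat_lit 813694984) (nat_lit 2416967692) (.two (nat_lit 639631365) (nat_lit 156968681487) (.two (nat_lit 41943041) (nat_lit 156465365057) (.two (nat_lit 1048576) (nat_lit 158653743773) (.one (nat_lit 1051903) .nil)))),
   .two (nat_lit 2902458376) (nat_lit 158144135180) (.two (nat_lit 2902458372) (nat_lit 159217877121) (.two (nat_lit 2097152) (nat_lit 174701150903) (.one (nat_lit 16780544) .nil))),
   .two (nat_lit 272629768) (nat_lit 166130089999) (.two (nat_lit 156365750273) (nat_lit 4194828) (.two (nat_lit 4194304) (nat_lit 270533675) (.one (nat_lit 46508542327) .nil))),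
   .two (nat_lit 11479810056) (nat_lit 28790751245) (.two (nat_lit 11543773189) (nat_lit 1178599439) (.two (nat_lit 37748737) (nat_lit 158176642149) (.one (nat_lit 183845784547) .nil))),
   .two (nat_lit 47555018760) (nat_lit 166230753293) (.two (nat_lit 10370416645) (nat_lit 47555018767) (.two (nat_lit 2097153) (nat_lit 3028288098) (.one (nat_lit 8391937) .nil))),
   .two (nat_lit 1343225864) (nat_lit 13203669000) (.two (nat_lit 16777220) (nat_lit 12114198554) (.two (nat_lit 16777217) (nat_lit 185021235462) (.two (nat_lit 16777216) (nat_lit 9933161121) (.one (nat_lit 672139297) .nil)))),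
   .two (nat_lit 41943048) (nat_lit 18925748232) (.two (nat_lit 75497477) (nat_lit 158143086635) (.two (nat_lit 16777217) (nat_lit 13228835475) (.one (nat_lit 1051906) .nil))),
   .two (nat_lit 620757000) (nat_lit 46984593416) (.two (nat_lit 1358954501) (nat_lit 1779433498) (.two (nat_lit 8388609) (nat_lit 28101836923) (.two (nat_lit 8388608) (nat_lit 1358955132) (.one (nat_lit 1051907) .nil)))),
   .two (nat_lit 8388616) (nat_lit 156365750280) (.two (nat_lit 8388613) (nat_lit 687865904) (.two (nat_lit 2097153) (nat_lit 158192369785) (.two (nat_lit 16777216) (nat_lit 156573369050) (.one (nat_lit 8391940) .nil)))),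
   .two (nat_lit 1291845640) (nat_lit 11510218776) (.two (nat_lit 34603009) (nat_lit 11559502429) (.one (nat_lit 2316306536) .nil)),
   .two (nat_lit 46407876616) (nat_lit 28093448200) (.two (nat_lit 13187940357) (nat_lit 183920230446) (.two (nat_lit 612368385) (nat_lit 156466414304) (.one (nat_lit 156466416853) .nil))),
   .two (nat_lit 8388616) (nat_lit 21778923532) (.two (nat_lit 176160773) (nat_lit 21778923657) (.two (nat_lit 2097152) (nat_lit 9936306906) (.one (nat_lit 8391941) .nil))),
   .two (nat_lit 11492392968) (nat_lit 166132187203) (.two (nat_lit 4194304) (nat_lit 166144772283) .nil),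
   .two (nat_lit 9934209032) (nat_lit 21777874958) (.two (nat_lit 1277165573) (nat_lit 638582829) (.two (nat_lit 2097153) (nat_lit 46406828158) (.two (nat_lit 2097152) (nat_lit 4598006455) (.one (nat_lit 9899607375) .nil)))),
   .two (nat_lit 12047089672) (nat_lit 343932940) (.two (nat_lit 4605345797) (nat_lit 12047089679) (.two (nat_lit 8388609) (nat_lit 11577327729) (.two (nat_lit 8388608) (nat_lit 19026412896) .nil))),
   .two (nat_lit 8388616) (nat_lit 156365750280) (.two (nat_lit 176160772) (nat_lit 3558866967) (.two (nat_lit 2097153) (nat_lit 9940500735) (.two (nat_lit 16777216) (nat_lit 18933090494) .nil))),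
   .two (nat_lit 1175453704) (nat_lit 165526110216) (.two (nat_lit 638582789) (nat_lit 11007950959) (.two (nat_lit 8388608) (nat_lit 157036839568) (.one (nat_lit 2100487) .nil))),
   .two (nat_lit 2887778312) (nat_lit 1417674765) (.two (nat_lit 75497477) (nat_lit 1745879082) (.two (nat_lit 2097153) (nat_lit 3524264057) (.two (nat_lit 1048576) (nat_lit 1954546346) (.one (nat_lit 3565160481) .nil)))),
   .two (nat_lit 41943053) (nat_lit 156364701709) (.two (nat_lit 184549381) (nat_lit 10504634383) (.two (nat_lit 34603009) (nat_lit 9766437140) (.two (nat_lit 8388608) (nat_lit 47547679377) (.one (nat_lit 47547680809) .nil)))),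
   .two (nat_lit 9781116936) (nat_lit 46409973775) (.two (nat_lit 4194305) (nat_lit 9781117036) (.two (nat_lit 8388608) (nat_lit 2956986674) .nil)),
   .two (nat_lit 8388616) (nat_lit 11007950872) (.two (nat_lit 8388609) (nat_lit 19027460701) (.one (nat_lit 1853884554) .nil)),
   .two (nat_lit 742391816) (nat_lit 9948889096) (.two (nat_lit 184549381) (nat_lit 183916036206) (.two (nat_lit 2097152) (nat_lit 28693234312) (.one (nat_lit 37316725944) .nil))),
   .two (nat_lit 739246088) (nat_lit 10940841992) (.two (nat_lit 11543773189) (nat_lit 1780482074) (.two (nat_lit 9765388289) (nat_lit 2988442213) (.one (nat_lit 9934212074) .nil))),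
   .two (nat_lit 218103816) (nat_lit 185027526679) (.two (nat_lit 16777217) (nat_lit 156472705654) (.one (nat_lit 8391946) .nil)),
   .two (nat_lit 620757000) (nat_lit 75497515) (.two (nat_lit 8388609) (nat_lit 721421605) .nil),
   .two (nat_lit 612368392) (nat_lit 1291845647) (.two (nat_lit 8388609) (nat_lit 18941476990) (.two (nat_lit 1048576) (nat_lit 46414170257) .nil)),
   .two (nat_lit 156533522445) (nat_lit 11543773198) (.two (nat_lit 10504634373) (nat_lit 2886729772) (.two (nat_lit 34603009) (nat_lit 166130090235) (.two (nat_lit 2097152) (nat_lit 1779433835) (.one (nat_lit 2100491) .nil)))),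
   .two (nat_lit 4194312) (nat_lit 822083592) (.two (nat_lit 4194308) (nat_lit 18925748239) (.two (nat_lit 4194305) (nat_lit 10906239108) (.two (nat_lit 4194304) (nat_lit 18941477594) (.one (nat_lit 16780556) .nil)))),
   .two (nat_lit 11551113224) (nat_lit 4601151503) (.two (nat_lit 41943041) (nat_lit 159219974267) (.two (nat_lit 8388608) (nat_lit 4601152136) (.one (nat_lit 12618566672) .nil))),
   .two (nat_lit 713031688) (nat_lit 158176641037) (.two (nat_lit 612368389) (nat_lit 1048620) (.two (nat_lit 34603009) (nat_lit 612368451) (.two (nat_lit 8388608) (nat_lit 336593953) (.one (nat_lit 47581236373) .nil)))),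
   .two (nat_lit 75497480) (nat_lit 46978301967) (.two (nat_lit 2097153) (nat_lit 46481277290) (.one (nat_lit 8391048) .nil)),
   .two (nat_lit 75497480) (nat_lit 1749024776) (.two (nat_lit 83886085) (nat_lit 9768534031) (.two (nat_lit 16777217) (nat_lit 3028288150) (.one (nat_lit 8391949) .nil))),
   .two (nat_lit 9934209032) (nat_lit 3560964120) (.two (nat_lit 2097153) (nat_lit 10372514437) (.one (nat_lit 4197646) .nil)),
   .two (nat_lit 1913651208) (nat_lit 1746927629) (.two (nat_lit 50331653) (nat_lit 3457155191) (.two (nat_lit 16777216) (nat_lit 166129042075) (.one (nat_lit 1051919) .nil))),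
   .two (nat_lit 184986632200) (nat_lit 156569174029) (.two (nat_lit 9768534021) (nat_lit 184986632207) (.two (nat_lit 34603009) (nat_lit 9936306871) (.one (nat_lit 12147754319) .nil))),
   .two (nat_lit 41943048) (nat_lit 4030726157) (.two (nat_lit 713031684) (nat_lit 10436476968) (.two (nat_lit 4194305) (nat_lit 13228835940) (.one (nat_lit 28086110484) .nil))),
   .two (nat_lit 620757000) (nat_lit 12114198536) (.two (nat_lit 11476664324) (nat_lit 9948889103) (.two (nat_lit 9765388289) (nat_lit 28772925695) (.two (nat_lit 1048576) (nat_lit 16777958) (.one (nat_lit 16780560) .nil)))),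
   .two (nat_lit 184416206856) (nat_lit 1310720024) (.two (nat_lit 34603009) (nat_lit 270532736) (.two (nat_lit 1048576) (nat_lit 9967764183) (.one (nat_lit 12147755156) .nil))),
   .two (nat_lit 272629768) (nat_lit 1291845656) (.two (nat_lit 620756993) (nat_lit 156569174626) (.one (nat_lit 3527410981) .nil)),
   .two (nat_lit 9781116936) (nat_lit 11006902320) (.two (nat_lit 2097153) (nat_lit 12047089785) (.two (nat_lit 2097152) (nat_lit 16778368) (.one (nat_lit 16779657) .nil))),
   .two (nat_lit 9934209032) (nat_lit 10909384717) (.two (nat_lit 16777221) (nat_lit 606076943) (.two (nat_lit 16777217) (nat_lit 1377829995) (.one (nat_lit 2100497) .nil))),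
   .two (nat_lit 12129927176) (nat_lit 1745879048) (.two (nat_lit 2097157) (nat_lit 12633243673) (.two (nat_lit 2097153) (nat_lit 11610882173) (.two (nat_lit 2097152) (nat_lit 21793604321) (.one (nat_lit 16780562) .nil)))),
   .two (nat_lit 47555018760) (nat_lit 10504634376) (.two (nat_lit 2887778308) (nat_lit 47555018818) (.two (nat_lit 2097152) (nat_lit 47555019348) (.one (nat_lit 8391955) .nil))),
   .two (nat_lit 13191086088) (nat_lit 20644364303) (.two (nat_lit 612368385) (nat_lit 1849688183) (.two (nat_lit 8388608) (nat_lit 742392459) (.one (nat_lit 46477085898) .nil))),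
   .two (nat_lit 9766436872) (nat_lit 47563407368) (.two (nat_lit 184549381) (nat_lit 10504634383) (.two (nat_lit 34603009) (nat_lit 9766437140) (.two (nat_lit 8388608) (nat_lit 47547679377) (.one (nat_lit 47547680809) .nil)))),
   .two (nat_lit 620757000) (nat_lit 3458203656) (.two (nat_lit 2969567237) (nat_lit 21778923566) (.two (nat_lit 2097153) (nat_lit 150995082) (.two (nat_lit 4194304) (nat_lit 1914702148) .nil))),
   .two (nat_lit 19596836872) (nat_lit 46510637096) (.two (nat_lit 4194305) (nat_lit 158646403313) (.two (nat_lit 4194304) (nat_lit 21207450332) (.one (nat_lit 10906241328) .nil))),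
   .two (nat_lit 822083592) (nat_lit 9967763480) (.two (nat_lit 16777217) (nat_lit 1310720607) (.one (nat_lit 2921335819) .nil)),
   .two (nat_lit 165526110216) (nat_lit 28690087951) (.two (nat_lit 606076929) (nat_lit 174752530795) (.one (nat_lit 11610885328) .nil)),
   .two (nat_lit 165526110216) (nat_lit 28760342541) (.two (nat_lit 612368389) (nat_lit 158077026319) (.two (nat_lit 37748737) (nat_lit 47582281846) (.two (nat_lit 8388608) (nat_lit 1847591603) (.one (nat_lit 8391956) .nil)))),
   .two (nat_lit 37748744) (nat_lit 9948889112) (.two (nat_lit 16777217) (nat_lit 1916797558) (.one (nat_lit 4197654) .nil)),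
   .two (nat_lit 612368392) (nat_lit 158647451672) (.two (nat_lit 8388609) (nat_lit 9969860967) (.one (nat_lit 4197655) .nil)),
   .two (nat_lit 822083592) (nat_lit 19599982605) (.two (nat_lit 157038936069) (nat_lit 11492393073) (.two (nat_lit 4194304) (nat_lit 10552870278) .nil)),
   .two (nat_lit 1779433480) (nat_lit 183861510192) (.two (nat_lit 620756993) (nat_lit 672138323) (.one (nat_lit 1051928) .nil)),
   .two (nat_lit 41943048) (nat_lit 159216828428) (.two (nat_lit 8388612) (nat_lit 641728538) (.two (nat_lit 8388609) (nat_lit 28086108281) (.two (nat_lit 1048576) (nat_lit 18928895090) (.one (nat_lit 1051929) .nil)))),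
   .two (nat_lit 184419352584) (nat_lit 183962173454) (.two (nat_lit 184549381) (nat_lit 184419352591) (.two (nat_lit 16777217) (nat_lit 641728631) (.two (nat_lit 4194304) (nat_lit 165540790967) (.one (nat_lit 843056463) .nil)))),
   .two (nat_lit 713031688) (nat_lit 166196150284) (.two (nat_lit 612368389) (nat_lit 158075977771) (.two (nat_lit 34603009) (nat_lit 47555019356) (.one (nat_lit 8391962) .nil))),
   .two (nat_lit 184549384) (nat_lit 1277165583) (.two (nat_lit 16777217) (nat_lit 4030726798) (.one (nat_lit 11614030959) .nil)),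
   .two (nat_lit 169869320) (nat_lit 3028287528) (.two (nat_lit 2097153) (nat_lit 11517558920) (.two (nat_lit 1048576) (nat_lit 20644364945) (.one (nat_lit 1176505238) .nil))),
   .two (nat_lit 37748744) (nat_lit 2424307736) (.two (nat_lit 4194305) (nat_lit 2927624862) (.one (nat_lit 8391052) .nil)),
   .two (nat_lit 50331656) (nat_lit 9766436888) (.two (nat_lit 9781116929) (nat_lit 185021235723) (.two (nat_lit 16777216) (nat_lit 185021236982) (.one (nat_lit 10519316647) .nil))),
   .two (nat_lit 50331656) (nat_lit 156465365005) (.two (nat_lit 50331653) (nat_lit 156465365016) (.two (nat_lit 34603009) (nat_lit 822083695) (.two (nat_lit 4194304) (nat_lit 11006902994) (.one (nat_lit 1051931) .nil)))),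
   .two (nat_lit 4613734408) (nat_lit 158144135180) (.two (nat_lit 16777220) (nat_lit 169869354) (.two (nat_lit 34603009) (nat_lit 874512502) (.two (nat_lit 1048576) (nat_lit 639631977) (.one (nat_lit 2100508) .nil)))),
   .two (nat_lit 10939793416) (nat_lit 880803852) (.two (nat_lit 174752530437) (nat_lit 166136381566) (.two (nat_lit 4194304) (nat_lit 10939795707) .nil)),
   .two (nat_lit 9881780232) (nat_lit 157036838927) (.two (nat_lit 2097153) (nat_lit 11492393068) (.two (nat_lit 2097152) (nat_lit 4613735548) (.one (nat_lit 2100509) .nil))),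
   .two (nat_lit 612368392) (nat_lit 28087156744) (.two (nat_lit 176160773) (nat_lit 21208498191) (.two (nat_lit 50331649) (nat_lit 28691136644) (.two (nat_lit 16777216) (nat_lit 28798091994) (.one (nat_lit 2100510) .nil)))),
   .two (nat_lit 276824072) (nat_lit 10907287576) (.two (nat_lit 8388609) (nat_lit 174686470255) (.two (nat_lit 1048576) (nat_lit 11544822378) (.one (nat_lit 156573371333) .nil))),
   .two (nat_lit 4194312) (nat_lit 50331656) (.two (nat_lit 4194308) (nat_lit 184416206969) (.two (nat_lit 1048576) (nat_lit 3024093850) (.one (nat_lit 876611823) .nil))),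
   .two (nat_lit 184986632200) (nat_lit 158144135183) (.two (nat_lit 34603009) (nat_lit 10940842595) (.one (nat_lit 2100511) .nil)),
   .two (nat_lit 9768534024) (nat_lit 28087156744) (.two (nat_lit 721420293) (nat_lit 608174204) (.two (nat_lit 16777216) (nat_lit 10540286606) (.one (nat_lit 4197665) .nil))),
   .two (nat_lit 184993972232) (nat_lit 10336862223) (.two (nat_lit 41943041) (nat_lit 673185904) (.two (nat_lit 8388608) (nat_lit 2350909837) .nil)),
   .two (nat_lit 16777224) (nat_lit 10506731535) (.two (nat_lit 16777217) (nat_lit 205521609) (.one (nat_lit 4196539) .nil)),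
   .two (nat_lit 1277165576) (nat_lit 1384120334) (.two (nat_lit 156372041733) (nat_lit 2097197) (.two (nat_lit 605028353) (nat_lit 3458204265) (.one (nat_lit 2100514) .nil))),
   .two (nat_lit 47563407368) (nat_lit 12117344264) (.two (nat_lit 171966469) (nat_lit 9948889112) (.two (nat_lit 605028353) (nat_lit 158146232459) (.two (nat_lit 1048576) (nat_lit 2420114148) (.one (nat_lit 2902460649) .nil)))),
   .two (nat_lit 9934209032) (nat_lit 156372041743) (.two (nat_lit 8388609) (nat_lit 874513079) (.one (nat_lit 159251434488) .nil)),
   .two (nat_lit 169869320) (nat_lit 10540285976) (.two (nat_lit 2097153) (nat_lit 28086108824) (.one (nat_lit 1051939) .nil)),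
   .two (nat_lit 3527409672) (nat_lit 11577327628) (.two (nat_lit 9768534021) (nat_lit 11577327681) (.two (nat_lit 4194304) (nat_lit 10906239691) (.one (nat_lit 1051940) .nil))),
   .two (nat_lit 184993972232) (nat_lit 46510637069) (.two (nat_lit 2889875461) (nat_lit 184993972290) (.two (nat_lit 4194304) (nat_lit 41945148) .nil)),
   .two (nat_lit 612368392) (nat_lit 1749024776) (.two (nat_lit 176160773) (nat_lit 12117344271) (.two (nat_lit 620756993) (nat_lit 339739739) (.one (nat_lit 4197669) .nil))),
   .two (nat_lit 46407876616) (nat_lit 183853121549) (.two (nat_lit 713031685) (nat_lit 1948254327) (.two (nat_lit 1048576) (nat_lit 9867100893) (.one (nat_lit 2100518) .nil))),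
   .two (nat_lit 176160776) (nat_lit 11513364504) (.two (nat_lit 605028353) (nat_lit 813695101) (.two (nat_lit 1048576) (nat_lit 8390403) (.one (nat_lit 1051943) .nil))),
   .two (nat_lit 46407876616) (nat_lit 10942939151) (.two (nat_lit 9768534017) (nat_lit 202375802) (.one (nat_lit 806357274) .nil)),
   .two (nat_lit 8388616) (nat_lit 11492392968) (.two (nat_lit 8388613) (nat_lit 12129927191) (.two (nat_lit 50331649) (nat_lit 47555019346) (.one (nat_lit 18941478946) .nil))),
   .two (nat_lit 11479810056) (nat_lit 135266317) (.two (nat_lit 21777874949) (nat_lit 1178599448) (.two (nat_lit 605028353) (nat_lit 239075456) (.two (nat_lit 8388608) (nat_lit 1050372) (.one (nat_lit 1051945) .nil)))),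
   .two (nat_lit 1291845640) (nat_lit 174753579016) (.two (nat_lit 20638072837) (nat_lit 10385096815) (.two (nat_lit 2097152) (nat_lit 788529797) (.one (nat_lit 16780586) .nil))),
   .two (nat_lit 169869320) (nat_lit 28693233672) (.two (nat_lit 809500677) (nat_lit 183845781519) (.two (nat_lit 34603009) (nat_lit 21812478089) (.two (nat_lit 1048576) (nat_lit 2988442248) (.one (nat_lit 2100137) .nil)))),
   .two (nat_lit 156968681480) (nat_lit 13195280396) (.two (nat_lit 41943045) (nat_lit 21207449720) (.two (nat_lit 8388608) (nat_lit 12617515366) (.one (nat_lit 28798093634) .nil))),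
   .two (nat_lit 2961178632) (nat_lit 157036838920) (.two (nat_lit 176160772) (nat_lit 705691777) (.two (nat_lit 4194304) (nat_lit 47581234268) (.one (nat_lit 1051948) .nil))),
   .two (nat_lit 46978301960) (nat_lit 1191182349) (.two (nat_lit 2969567237) (nat_lit 3525312579) (.two (nat_lit 2097152) (nat_lit 2902459033) (.one (nat_lit 159232558435) .nil))),
   .two (nat_lit 9940500488) (nat_lit 1745879048) (.two (nat_lit 176160773) (nat_lit 12117344382) (.two (nat_lit 4194304) (nat_lit 672137882) (.one (nat_lit 4196755) .nil))),
   .two (nat_lit 184986632200) (nat_lit 28691136527) (.two (nat_lit 41943041) (nat_lit 3458204005) (.one (nat_lit 2100525) .nil)),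
   .two (nat_lit 2902458376) (nat_lit 159217877007) (.two (nat_lit 16777217) (nat_lit 2988441665) (.two (nat_lit 16777216) (nat_lit 12148801896) (.one (nat_lit 2100526) .nil))),
   .two (nat_lit 169869320) (nat_lit 174755676172) (.two (nat_lit 2097157) (nat_lit 2923429930) (.two (nat_lit 50331649) (nat_lit 21811430089) (.one (nat_lit 1051951) .nil))),
   .two (nat_lit 8388616) (nat_lit 46407876616) (.two (nat_lit 41943045) (nat_lit 672137264) (.two (nat_lit 34603009) (nat_lit 1310720126) (.two (nat_lit 1048576) (nat_lit 874513076) (.one (nat_lit 1051028) .nil)))),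
   .two (nat_lit 50331656) (nat_lit 183853121549) (.two (nat_lit 713031685) (nat_lit 10385096822) (.two (nat_lit 8388608) (nat_lit 183928620139) (.one (nat_lit 2902461713) .nil))),
   .two (nat_lit 2887778312) (nat_lit 3560964119) (.two (nat_lit 2097153) (nat_lit 37246468720) (.one (nat_lit 1051952) .nil)),
   .two (nat_lit 41943048) (nat_lit 20637024264) (.two (nat_lit 2956984325) (nat_lit 41943055) (.two (nat_lit 4194305) (nat_lit 1216348842) (.one (nat_lit 156468512960) .nil))),
   .two (nat_lit 4613734408) (nat_lit 3458203691) (.two (nat_lit 16777217) (nat_lit 19027460207) (.two (nat_lit 1048576) (nat_lit 166130090640) (.one (nat_lit 16780593) .nil))),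
   .two (nat_lit 272629768) (nat_lit 159251431549) (.two (nat_lit 4194304) (nat_lit 28087157462) (.one (nat_lit 272632059) .nil)),
   .two (nat_lit 50331656) (nat_lit 705691656) (.two (nat_lit 34603013) (nat_lit 1358954511) (.two (nat_lit 2097153) (nat_lit 156364701813) (.two (nat_lit 2097152) (nat_lit 158091707034) (.one (nat_lit 1051954) .nil)))),
   .two (nat_lit 705691656) (nat_lit 183853121551) (.two (nat_lit 41943041) (nat_lit 12147753027) (.two (nat_lit 2097152) (nat_lit 158143088922) .nil)),
   .two (nat_lit 2961178632) (nat_lit 13191086095) (.two (nat_lit 8388609) (nat_lit 1782579318) (.two (nat_lit 8388608) (nat_lit 156971827819) (.one (nat_lit 4197683) .nil))),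
   .two (nat_lit 101711880) (nat_lit 13224640524) (.two (nat_lit 13191086085) (nat_lit 11543773319) (.two (nat_lit 4194304) (nat_lit 157035790978) (.one (nat_lit 11006904643) .nil))),
   .two (nat_lit 50331656) (nat_lit 21214789655) (.two (nat_lit 612368385) (nat_lit 184549981) (.one (nat_lit 2961180801) .nil)),
   .two (nat_lit 721420301) (nat_lit 185020186637) (.two (nat_lit 721420293) (nat_lit 1309671472) (.two (nat_lit 8388609) (nat_lit 156380431011) (.one (nat_lit 16780597) .nil))),
   .two (nat_lit 1343225864) (nat_lit 184993972236) (.two (nat_lit 713031685) (nat_lit 1343225871) (.two (nat_lit 16777217) (nat_lit 158083318417) (.one (nat_lit 8391990) .nil))),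
   .two (nat_lit 276824072) (nat_lit 159217877007) (.two (nat_lit 8388609) (nat_lit 184987680891) (.two (nat_lit 8388608) (nat_lit 639632051) (.one (nat_lit 269486997) .nil))),
   .two (nat_lit 1343225869) (nat_lit 13195280397) (.two (nat_lit 9933160453) (nat_lit 157043130615) (.two (nat_lit 4194304) (nat_lit 8389763) (.one (nat_lit 1051959) .nil))),
   .two (nat_lit 205520904) (nat_lit 20738736141) (.two (nat_lit 2097157) (nat_lit 9768534031) (.two (nat_lit 2097153) (nat_lit 3560964785) (.one (nat_lit 1051029) .nil))),
   .two (nat_lit 184549384) (nat_lit 28790751246) (.two (nat_lit 806354949) (nat_lit 184549391) (.two (nat_lit 620756993) (nat_lit 772800577) (.two (nat_lit 2097152) (nat_lit 20704134225) (.one (nat_lit 1051960) .nil)))),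
   .two (nat_lit 16777224) (nat_lit 12117344264) (.two (nat_lit 11479810052) (nat_lit 18925748336) (.two (nat_lit 4194304) (nat_lit 1392509664) (.one (nat_lit 16780601) .nil))),
   .two (nat_lit 9881780232) (nat_lit 47548727309) (.two (nat_lit 4599054341) (nat_lit 1358954612) (.two (nat_lit 1048576) (nat_lit 4043309765) (.one (nat_lit 2100538) .nil))),
   .two (nat_lit 809500680) (nat_lit 158158815255) (.two (nat_lit 620756993) (nat_lit 675283625) (.one (nat_lit 3539994753) .nil)),
   .two (nat_lit 41943048) (nat_lit 168820783) (.two (nat_lit 4194305) (nat_lit 9765388404) (.two (nat_lit 4194304) (nat_lit 605029018) (.one (nat_lit 8391995) .nil))),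
   .two (nat_lit 176160776) (nat_lit 46409973775) (.two (nat_lit 8388609) (nat_lit 11010048120) (.two (nat_lit 16777216) (nat_lit 9902753113) .nil)),
   .two (nat_lit 183848927240) (nat_lit 10007609356) (.two (nat_lit 159224168453) (nat_lit 166132187261) (.two (nat_lit 8388608) (nat_lit 3460301161) (.one (nat_lit 4197692) .nil))),
   .two (nat_lit 11492392968) (nat_lit 185020186636) (.two (nat_lit 11492392964) (nat_lit 158646403197) (.two (nat_lit 4194304) (nat_lit 202377366) .nil)),
   .two (nat_lit 3527409672) (nat_lit 19596836879) (.two (nat_lit 34603009) (nat_lit 4194829) (.two (nat_lit 4194304) (nat_lit 156532474923) (.one (nat_lit 18928896938) .nil))),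
   .two (nat_lit 620757000) (nat_lit 11543773209) (.two (nat_lit 4194305) (nat_lit 185002360957) (.two (nat_lit 4194304) (nat_lit 16779016) (.one (nat_lit 4197693) .nil))),
   .two (nat_lit 83886088) (nat_lit 185027526698) (.two (nat_lit 41943041) (nat_lit 184549497) (.two (nat_lit 8388608) (nat_lit 16778373) (.one (nat_lit 16780606) .nil))),
   .two (nat_lit 12114198536) (nat_lit 10940841992) (.two (nat_lit 11476664324) (nat_lit 3558867069) (.two (nat_lit 1048576) (nat_lit 9799992022) (.one (nat_lit 3557820614) .nil))),
   .two (nat_lit 203423752) (nat_lit 28693233679) (.two (nat_lit 2097153) (nat_lit 2923430013) (.two (nat_lit 2097152) (nat_lit 4196105) (.one (nat_lit 205524142) .nil))),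
   .two (nat_lit 276824072) (nat_lit 21778923532) (.two (nat_lit 8388612) (nat_lit 10000269427) (.two (nat_lit 8388608) (nat_lit 46507492444) (.one (nat_lit 1051967) .nil))),
   .two (nat_lit 117440520) (nat_lit 174752530440) (.two (nat_lit 158075977733) (nat_lit 9781117037) (.two (nat_lit 1048576) (nat_lit 1191182945) (.one (nat_lit 16780608) .nil))),
   .two (nat_lit 205520904) (nat_lit 10940841997) (.two (nat_lit 158144135173) (nat_lit 46980399129) (.two (nat_lit 605028353) (nat_lit 11578376313) (.two (nat_lit 1048576) (nat_lit 2098955) (.one (nat_lit 2100546) .nil)))),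
   .two (nat_lit 21777874952) (nat_lit 2889875500) (.two (nat_lit 34603009) (nat_lit 306184257) (.two (nat_lit 8388608) (nat_lit 174755676521) (.one (nat_lit 4196760) .nil))),
   .two (nat_lit 4194312) (nat_lit 11007950915) (.two (nat_lit 1048576) (nat_lit 4028629590) (.one (nat_lit 12050238500) .nil)),
   .two (nat_lit 754974728) (nat_lit 135266316) (.two (nat_lit 19596836869) (nat_lit 11559501891) (.two (nat_lit 1048576) (nat_lit 11022631545) (.one (nat_lit 16779673) .nil))),
   .two (nat_lit 159217877000) (nat_lit 20704133186) (.two (nat_lit 2097152) (nat_lit 166129042550) (.one (nat_lit 1051971) .nil)),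
   .two (nat_lit 1745879048) (nat_lit 1795162137) (.two (nat_lit 34603009) (nat_lit 9948889822) (.one (nat_lit 16780415) .nil)),
   .two (nat_lit 11559501832) (nat_lit 639631368) (.two (nat_lit 2887778308) (nat_lit 11559501839) (.two (nat_lit 2097153) (nat_lit 12163481716) (.two (nat_lit 4194304) (nat_lit 2097896) (.one (nat_lit 2100548) .nil)))),
   .two (nat_lit 11479810056) (nat_lit 1779433480) (.two (nat_lit 1343225861) (nat_lit 11513364504) (.two (nat_lit 9765388289) (nat_lit 843055708) (.one (nat_lit 46507493410) .nil))),
   .two (nat_lit 9881780232) (nat_lit 166130089992) (.two (nat_lit 83886085) (nat_lit 28691136536) (.two (nat_lit 16777217) (nat_lit 2097678) (.two (nat_lit 2097152) (nat_lit 183861511215) (.one (nat_lit 2100402) .nil)))),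
   .two (nat_lit 1745879048) (nat_lit 11513364493) (.two (nat_lit 2889875461) (nat_lit 184986632327) (.two (nat_lit 4194304) (nat_lit 135266944) (.one (nat_lit 165525064861) .nil))),
   .two (nat_lit 20638072840) (nat_lit 11618222093) (.two (nat_lit 713031685) (nat_lit 236978534) (.one (nat_lit 2988442913) .nil)),
   .two (nat_lit 117440520) (nat_lit 1916796941) (.two (nat_lit 11492392964) (nat_lit 28693233679) (.two (nat_lit 50331649) (nat_lit 2420113543) (.two (nat_lit 1048576) (nat_lit 28089254562) (.one (nat_lit 4196762) .nil)))),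
   .two (nat_lit 11551113224) (nat_lit 46510637069) (.two (nat_lit 708837381) (nat_lit 75497487) (.two (nat_lit 2097153) (nat_lit 2990539425) (.one (nat_lit 4196763) .nil))),
   .two (nat_lit 1276117000) (nat_lit 20638072847) (.two (nat_lit 606076929) (nat_lit 3560964233) (.two (nat_lit 1048576) (nat_lit 2956984993) (.one (nat_lit 3024096528) .nil))),
   .two (nat_lit 47555018760) (nat_lit 1847590920) (.two (nat_lit 28758245381) (nat_lit 47555018767) (.two (nat_lit 9766436865) (nat_lit 3028287602) (.two (nat_lit 2097152) (nat_lit 3028288098) (.one (nat_lit 8392005) .nil)))),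
   .two (nat_lit 1779433480) (nat_lit 10336862223) (.two (nat_lit 156365750273) (nat_lit 158176641624) (.one (nat_lit 28690090921) .nil)),
   .two (nat_lit 205520904) (nat_lit 28758245384) (.two (nat_lit 171966469) (nat_lit 184987680811) (.two (nat_lit 605028353) (nat_lit 158146233012) (.one (nat_lit 4197702) .nil))),
   .two (nat_lit 184416206856) (nat_lit 159266111501) (.two (nat_lit 9948889093) (nat_lit 37246468163) (.two (nat_lit 1048576) (nat_lit 352322258) (.one (nat_lit 16780615) .nil))),
   .two (nat_lit 1343225864) (nat_lit 218103821) (.two (nat_lit 16777221) (nat_lit 28790751342) (.two (nat_lit 16777216) (nat_lit 20704134437) .nil)),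
   .two (nat_lit 203423752) (nat_lit 20644364311) (.two (nat_lit 2097153) (nat_lit 11618222188) (.two (nat_lit 2097152) (nat_lit 1920991876) (.one (nat_lit 8392009) .nil))),
   .two (nat_lit 75497480) (nat_lit 185020186637) (.two (nat_lit 11543773189) (nat_lit 75497487) (.two (nat_lit 34603009) (nat_lit 2323644536) (.two (nat_lit 16777216) (nat_lit 269486451) .nil))),
   .two (nat_lit 205520904) (nat_lit 166230753304) (.two (nat_lit 4194305) (nat_lit 1746927890) (.two (nat_lit 1048576) (nat_lit 740295386) (.one (nat_lit 2100554) .nil))),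
   .two (nat_lit 46409973768) (nat_lit 1847590925) (.two (nat_lit 9934209029) (nat_lit 156367847439) (.two (nat_lit 4194305) (nat_lit 11477713022) (.two (nat_lit 1048576) (nat_lit 47548729475) .nil))),
   .two (nat_lit 176160776) (nat_lit 10940842008) (.two (nat_lit 9766436865) (nat_lit 20644364404) (.two (nat_lit 2097152) (nat_lit 158083318373) (.one (nat_lit 2100557) .nil))),
   .two (nat_lit 272629768) (nat_lit 47563407368) (.two (nat_lit 184549381) (nat_lit 272629775) (.two (nat_lit 37748737) (nat_lit 754974995) (.two (nat_lit 1048576) (nat_lit 28089254524) (.one (nat_lit 1276119162) .nil)))),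
   .two (nat_lit 12047089672) (nat_lit 20705181709) (.two (nat_lit 184986632197) (nat_lit 183913939046) (.two (nat_lit 34603009) (nat_lit 20738736245) (.two (nat_lit 4194304) (nat_lit 34605287) .nil))),
   .two (nat_lit 4194312) (nat_lit 50331656) (.two (nat_lit 16777220) (nat_lit 4030726170) (.two (nat_lit 37748737) (nat_lit 156364701813) (.two (nat_lit 1048576) (nat_lit 251658952) (.one (nat_lit 4197710) .nil)))),
   .two (nat_lit 2889875464) (nat_lit 156968681487) (.two (nat_lit 4194305) (nat_lit 28764536957) (.two (nat_lit 4194304) (nat_lit 158143087283) (.one (nat_lit 8392015) .nil))),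
   .two (nat_lit 101711880) (nat_lit 19530776584) (.two (nat_lit 1779433477) (nat_lit 28691136535) (.two (nat_lit 156367847425) (nat_lit 135267711) .nil)),
   .two (nat_lit 721420296) (nat_lit 1309671551) (.two (nat_lit 16777216) (nat_lit 19596837572) (.one (nat_lit 1051984) .nil)),
   .two (nat_lit 2954887176) (nat_lit 9881780239) (.two (nat_lit 620756993) (nat_lit 159217877724) (.one (nat_lit 46978304282) .nil)),
   .two (nat_lit 9934209032) (nat_lit 28757196815) (.two (nat_lit 2097153) (nat_lit 1048858) (.two (nat_lit 16777216) (nat_lit 35653814) .nil)),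
   .two (nat_lit 12047089672) (nat_lit 47555018764) (.two (nat_lit 176160773) (nat_lit 12047089679) (.two (nat_lit 41943041) (nat_lit 68158539) (.one (nat_lit 10000271480) .nil))),
   .two (nat_lit 41943048) (nat_lit 2902458383) (.two (nat_lit 16777217) (nat_lit 158083317884) (.two (nat_lit 4194304) (nat_lit 2323645048) (.one (nat_lit 8392017) .nil))),
   .two (nat_lit 16777224) (nat_lit 28693233679) (.two (nat_lit 156365750273) (nat_lit 71303811) (.one (nat_lit 4196485) .nil)),
   .two (nat_lit 4194312) (nat_lit 10343153679) (.two (nat_lit 37748737) (nat_lit 156532473993) (.two (nat_lit 2097152) (nat_lit 1049233) (.one (nat_lit 28790754316) .nil))),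
   .two (nat_lit 3527409672) (nat_lit 9967763469) (.two (nat_lit 159217876997) (nat_lit 10506731715) (.one (nat_lit 46980400413) .nil)),
   .two (nat_lit 2887778312) (nat_lit 28693233679) (.two (nat_lit 9768534017) (nat_lit 166230753347) (.two (nat_lit 4194304) (nat_lit 2418016994) (.one (nat_lit 28691138747) .nil))),
   .two (nat_lit 9934209032) (nat_lit 28086108168) (.two (nat_lit 1277165573) (nat_lit 20637024279) (.two (nat_lit 612368385) (nat_lit 183913939587) (.one (nat_lit 2100563) .nil))),
   .two (nat_lit 754974728) (nat_lit 183845781512) (.two (nat_lit 34603013) (nat_lit 822083599) (.two (nat_lit 2097153) (nat_lit 1426064042) (.one (nat_lit 16780628) .nil))),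
   .two (nat_lit 184993972232) (nat_lit 2416967692) (.two (nat_lit 1745879045) (nat_lit 18933088364) (.two (nat_lit 1048576) (nat_lit 28697428631) (.one (nat_lit 1384123376) .nil))),
   .two (nat_lit 101711880) (nat_lit 19094568974) (.two (nat_lit 50331653) (nat_lit 739246194) (.two (nat_lit 16777216) (nat_lit 156465366351) .nil)),
   .two (nat_lit 2902458376) (nat_lit 19597885454) (.two (nat_lit 713031685) (nat_lit 16777231) (.two (nat_lit 8388609) (nat_lit 9915335276) (.one (nat_lit 243272880) .nil))),
   .two (nat_lit 639631368) (nat_lit 1350565914) (.two (nat_lit 2097153) (nat_lit 880804437) (.one (nat_lit 8391069) .nil)),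
   .two (nat_lit 20644364296) (nat_lit 10538188812) (.two (nat_lit 10504634373) (nat_lit 158083317775) (.two (nat_lit 605028353) (nat_lit 11618222145) (.two (nat_lit 1048576) (nat_lit 4034920809) (.one (nat_lit 8392021) .nil)))),
   .two (nat_lit 12050235400) (nat_lit 772800525) (.two (nat_lit 171966469) (nat_lit 10336862223) (.two (nat_lit 34603009) (nat_lit 3558867062) (.two (nat_lit 1048576) (nat_lit 9900655281) (.one (nat_lit 9900657795) .nil)))),
   .two (nat_lit 721420296) (nat_lit 171966504) (.two (nat_lit 4194305) (nat_lit 19596836985) (.two (nat_lit 1048576) (nat_lit 9900655324) (.one (nat_lit 4197718) .nil))),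
   .two (nat_lit 9934209032) (nat_lit 165525061640) (.two (nat_lit 184549381) (nat_lit 705691663) (.two (nat_lit 16777217) (nat_lit 174685421695) (.two (nat_lit 16777216) (nat_lit 11611931354) (.one (nat_lit 158091710021) .nil)))),
   .two (nat_lit 50331656) (nat_lit 21207449645) (.two (nat_lit 2097153) (nat_lit 46977253497) (.two (nat_lit 8388608) (nat_lit 185021235834) (.one (nat_lit 2365590779) .nil))),
   .two (nat_lit 16777224) (nat_lit 9765388328) (.two (nat_lit 8388609) (nat_lit 183845781570) (.two (nat_lit 8388608) (nat_lit 174768259433) (.one (nat_lit 19142806588) .nil))),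
   .two (nat_lit 218103816) (nat_lit 183848927247) (.two (nat_lit 16777217) (nat_lit 9802088515) (.two (nat_lit 16777216) (nat_lit 157038937168) (.one (nat_lit 46409976200) .nil))),
   .two (nat_lit 822083592) (nat_lit 101711887) (.two (nat_lit 2097153) (nat_lit 9798942837) (.two (nat_lit 2097152) (nat_lit 156566028954) (.one (nat_lit 1377831900) .nil))),
   .two (nat_lit 16777224) (nat_lit 9934209037) (.two (nat_lit 16777220) (nat_lit 19096666156) (.two (nat_lit 16777217) (nat_lit 304087304) (.two (nat_lit 2097152) (nat_lit 166245433965) (.one (nat_lit 16780634) .nil)))),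
   .two (nat_lit 272629768) (nat_lit 654311439) (.two (nat_lit 16777217) (nat_lit 641729238) (.one (nat_lit 4197724) .nil)),
   .two (nat_lit 1350565896) (nat_lit 183845781519) (.two (nat_lit 34603009) (nat_lit 156539814250) (.one (nat_lit 28760344858) .nil)),
   .two (nat_lit 2954887176) (nat_lit 156968681480) (.two (nat_lit 169869316) (nat_lit 10436476951) (.two (nat_lit 606076929) (nat_lit 9798943365) (.one (nat_lit 1051998) .nil))),
   .two (nat_lit 50331656) (nat_lit 742391816) (.two (nat_lit 16777221) (nat_lit 28758245423) (.two (nat_lit 606076929) (nat_lit 46510637182) (.two (nat_lit 2097152) (nat_lit 150995674) (.one (nat_lit 606079098) .nil)))),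
   .two (nat_lit 2902458376) (nat_lit 20638072847) (.two (nat_lit 16777217) (nat_lit 9967763523) (.two (nat_lit 2097152) (nat_lit 156581757567) (.one (nat_lit 16780640) .nil))),
   .two (nat_lit 156372041736) (nat_lit 28087156744) (.two (nat_lit 11484004357) (nat_lit 1191182351) (.two (nat_lit 8388609) (nat_lit 185021235325) (.two (nat_lit 16777216) (nat_lit 156573368939) (.one (nat_lit 2100577) .nil)))),
   .two (nat_lit 9781116936) (nat_lit 184986632200) (.two (nat_lit 705691652) (nat_lit 157043130383) (.two (nat_lit 8388609) (nat_lit 12129927293) (.two (nat_lit 8388608) (nat_lit 158192370803) (.one (nat_lit 166211881082) .nil)))),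
   .two (nat_lit 8388616) (nat_lit 20738736141) (.two (nat_lit 1277165573) (nat_lit 8388623) (.two (nat_lit 8388609) (nat_lit 47582282393) (.one (nat_lit 21812479330) .nil))),
   .two (nat_lit 50331656) (nat_lit 10370416655) (.two (nat_lit 16777217) (nat_lit 37314626227) (.one (nat_lit 16780642) .nil)),
   .two (nat_lit 10504634376) (nat_lit 1212153870) (.two (nat_lit 4601151493) (nat_lit 136314999) (.two (nat_lit 4194304) (nat_lit 304087668) (.one (nat_lit 1051040) .nil))),
   .two (nat_lit 47548727304) (nat_lit 3531603982) (.two (nat_lit 169869316) (nat_lit 50331689) (.two (nat_lit 8388609) (nat_lit 10336862403) (.one (nat_lit 2432699366) .nil))),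
   .two (nat_lit 11543773192) (nat_lit 12054429761) (.two (nat_lit 1048576) (nat_lit 174759871606) (.one (nat_lit 8392035) .nil)),
   .two (nat_lit 83886088) (nat_lit 183953784880) (.two (nat_lit 50331649) (nat_lit 21818769545) (.two (nat_lit 8388608) (nat_lit 183848928356) (.one (nat_lit 46510640182) .nil))),
   .two (nat_lit 21777874952) (nat_lit 1746927629) (.two (nat_lit 50331653) (nat_lit 11510218884) (.two (nat_lit 16777216) (nat_lit 20637024923) (.one (nat_lit 1052004) .nil))),
   .two (nat_lit 21777874952) (nat_lit 156468510733) (.two (nat_lit 1782579205) (nat_lit 21777874959) (.two (nat_lit 34603009) (nat_lit 306184257) (.two (nat_lit 8388608) (nat_lit 4601151845) (.one (nat_lit 4196770) .nil)))),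
   .two (nat_lit 272629768) (nat_lit 1176502298) (.two (nat_lit 50331649) (nat_lit 2954887876) (.one (nat_lit 2100148) .nil)),
   .two (nat_lit 654311432) (nat_lit 19530776584) (.two (nat_lit 9934209029) (nat_lit 654311532) (.two (nat_lit 2097152) (nat_lit 184431936133) (.one (nat_lit 1962937583) .nil))),
   .two (nat_lit 41943048) (nat_lit 672137229) (.two (nat_lit 75497477) (nat_lit 2418016299) (.two (nat_lit 16777217) (nat_lit 11477713254) (.one (nat_lit 158653746500) .nil))),
   .two (nat_lit 20644364296) (nat_lit 19027460162) (.two (nat_lit 2097152) (nat_lit 13228835463) (.one (nat_lit 47548729433) .nil)),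
   .two (nat_lit 47548727304) (nat_lit 11618222093) (.two (nat_lit 176160773) (nat_lit 47548727311) (.two (nat_lit 8388609) (nat_lit 9766437515) (.one (nat_lit 2317356171) .nil))),
   .two (nat_lit 50331656) (nat_lit 1916796936) (.two (nat_lit 16777220) (nat_lit 11513364503) (.two (nat_lit 16777217) (nat_lit 843055356) (.two (nat_lit 4194304) (nat_lit 156481094699) (.one (nat_lit 1795164350) .nil)))),
   .two (nat_lit 721420296) (nat_lit 21207449613) (.two (nat_lit 9933160453) (nat_lit 16777574) (.one (nat_lit 4196771) .nil)),
   .two (nat_lit 813694984) (nat_lit 21777874952) (.two (nat_lit 8388612) (nat_lit 705691663) (.two (nat_lit 8388609) (nat_lit 235929848) (.two (nat_lit 8388608) (nat_lit 235930220) (.one (nat_lit 185021237471) .nil)))),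
   .two (nat_lit 272629768) (nat_lit 1176502298) (.two (nat_lit 50331649) (nat_lit 1914700495) (.one (nat_lit 2100582) .nil)),
   .two (nat_lit 641728520) (nat_lit 47548727311) (.two (nat_lit 2097153) (nat_lit 13224640633) (.two (nat_lit 8388608) (nat_lit 166232851843) .nil)),
   .two (nat_lit 10385096712) (nat_lit 28691136520) (.two (nat_lit 2954887173) (nat_lit 1191182351) (.two (nat_lit 41943041) (nat_lit 21827158645) (.one (nat_lit 16780647) .nil))),
   .two (nat_lit 41943048) (nat_lit 1795162156) (.two (nat_lit 8388609) (nat_lit 10940842120) (.two (nat_lit 16777216) (nat_lit 46407876967) (.one (nat_lit 28798093695) .nil))),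
   .two (nat_lit 13191086088) (nat_lit 1745879048) (.two (nat_lit 4194308) (nat_lit 18925748248) (.two (nat_lit 41943041) (nat_lit 183916037512) .nil)),
   .two (nat_lit 50331656) (nat_lit 1276117016) (.two (nat_lit 2097153) (nat_lit 183928619282) (.two (nat_lit 16777216) (nat_lit 2098964) (.one (nat_lit 2100584) .nil))),
   .two (nat_lit 174753579016) (nat_lit 19130220558) (.two (nat_lit 272629765) (nat_lit 174753579023) (.two (nat_lit 4194305) (nat_lit 157036839044) (.two (nat_lit 1048576) (nat_lit 12618564245) (.one (nat_lit 21208501206) .nil)))),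
   .two (nat_lit 9781116936) (nat_lit 10506731532) (.two (nat_lit 9768534021) (nat_lit 9781116943) (.two (nat_lit 37748737) (nat_lit 46489666185) (.one (nat_lit 16780649) .nil))),
   .two (nat_lit 10343153672) (nat_lit 3472883753) (.two (nat_lit 8388609) (nat_lit 46473937168) (.two (nat_lit 8388608) (nat_lit 184550034) (.one (nat_lit 8392042) .nil))),
   .two (nat_lit 176160776) (nat_lit 157036838925) (.two (nat_lit 10504634373) (nat_lit 3028287512) (.two (nat_lit 50331649) (nat_lit 343933037) (.two (nat_lit 16777216) (nat_lit 21214790257) (.one (nat_lit 10907290786) .nil)))),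
   .two (nat_lit 184549384) (nat_lit 11476664335) (.two (nat_lit 2097153) (nat_lit 1309671489) (.two (nat_lit 2097152) (nat_lit 809501355) (.one (nat_lit 171969678) .nil))),
   .two (nat_lit 9948889096) (nat_lit 10940841999) (.two (nat_lit 9766436865) (nat_lit 11559501889) (.two (nat_lit 2097152) (nat_lit 10015998315) (.one (nat_lit 185002364178) .nil))),
   .two (nat_lit 343932940) (nat_lit 166132187149) (.two (nat_lit 1178599429) (nat_lit 47555018867) (.two (nat_lit 4194304) (nat_lit 3028288355) .nil)),
   .two (nat_lit 272629768) (nat_lit 10939793416) (.two (nat_lit 4194308) (nat_lit 19026411543) (.two (nat_lit 37748737) (nat_lit 1343226536) (.one (nat_lit 1052012) .nil))),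
   .two (nat_lit 4194312) (nat_lit 19597885452) (.two (nat_lit 4194308) (nat_lit 1210056744) (.two (nat_lit 16777217) (nat_lit 46473937530) (.one (nat_lit 21207452712) .nil))),
   .two (nat_lit 184419352584) (nat_lit 28086108175) (.two (nat_lit 605028353) (nat_lit 174688567428) (.two (nat_lit 8388608) (nat_lit 2889876088) (.one (nat_lit 4196772) .nil))),
   .two (nat_lit 75497480) (nat_lit 46474985484) (.two (nat_lit 612368389) (nat_lit 11544821886) (.two (nat_lit 8388608) (nat_lit 28758246044) (.one (nat_lit 28764539078) .nil))),
   .two (nat_lit 276824072) (nat_lit 10338959375) (.two (nat_lit 8388609) (nat_lit 158179787386) (.one (nat_lit 4634708155) .nil)),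
   .two (nat_lit 21785214984) (nat_lit 1947205645) (.two (nat_lit 1343225861) (nat_lit 713031695) (.two (nat_lit 605028353) (nat_lit 8389684) (.one (nat_lit 11014244428) .nil))),
   .two (nat_lit 16777224) (nat_lit 606076936) (.two (nat_lit 169869316) (nat_lit 285212781) (.two (nat_lit 4194304) (nat_lit 28772926065) (.one (nat_lit 159217879965) .nil))),
   .two (nat_lit 165526110216) (nat_lit 37316722702) (.two (nat_lit 612368389) (nat_lit 3558867062) (.two (nat_lit 4194304) (nat_lit 156567077537) (.one (nat_lit 13191088320) .nil))),
   .two (nat_lit 183853121544) (nat_lit 174752530440) (.two (nat_lit 739246085) (nat_lit 18933088271) (.two (nat_lit 34603009) (nat_lit 47588573545) (.one (nat_lit 1920994364) .nil))),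
   .two (nat_lit 83886088) (nat_lit 272629775) (.two (nat_lit 50331649) (nat_lit 46477083304) (.one (nat_lit 2365588846) .nil)),
   .two (nat_lit 3464495112) (nat_lit 28086108175) (.two (nat_lit 8388609) (nat_lit 183946444919) (.two (nat_lit 8388608) (nat_lit 156532474501) (.one (nat_lit 1052014) .nil))),
   .two (nat_lit 2954887176) (nat_lit 10007609357) (.two (nat_lit 41943045) (nat_lit 2988441666) (.two (nat_lit 8388608) (nat_lit 46407877332) (.one (nat_lit 9766439122) .nil))),
   .two (nat_lit 3527409672) (nat_lit 159217877000) (.two (nat_lit 169869316) (nat_lit 239075352) (.two (nat_lit 2097153) (nat_lit 19029557386) (.two (nat_lit 2097152) (nat_lit 708838498) (.one (nat_lit 4197743) .nil)))),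
   .two (nat_lit 3460300808) (nat_lit 156466413591) (.two (nat_lit 605028353) (nat_lit 166132187760) (.one (nat_lit 639634536) .nil)),
   .two (nat_lit 2961178632) (nat_lit 721420311) (.two (nat_lit 9765388289) (nat_lit 21785215696) (.one (nat_lit 8392048) .nil)),
   .two (nat_lit 169869320) (nat_lit 174688567320) (.two (nat_lit 2097153) (nat_lit 4631561250) (.one (nat_lit 158192372707) .nil)),
   .two (nat_lit 28790751245) (nat_lit 28758245389) (.two (nat_lit 1779433477) (nat_lit 28758245416) (.two (nat_lit 34603009) (nat_lit 773849214) (.two (nat_lit 4194304) (nat_lit 1050837) .nil))),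
   .two (nat_lit 612368392) (nat_lit 9881780239) (.two (nat_lit 8388609) (nat_lit 721420409) (.two (nat_lit 16777216) (nat_lit 165532402355) (.one (nat_lit 8392049) .nil))),
   .two (nat_lit 37748744) (nat_lit 183962173465) (.two (nat_lit 4194305) (nat_lit 12148802158) (.one (nat_lit 2100594) .nil)),
   .two (nat_lit 705691656) (nat_lit 9940500602) (.two (nat_lit 2097152) (nat_lit 10947135709) .nil),
   .two (nat_lit 2887778312) (nat_lit 1417674765) (.two (nat_lit 75497477) (nat_lit 1745879082) (.two (nat_lit 2097153) (nat_lit 2357199557) (.one (nat_lit 3565160481) .nil))),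
   .two (nat_lit 218103816) (nat_lit 47548727304) (.two (nat_lit 169869316) (nat_lit 285212687) (.two (nat_lit 41943041) (nat_lit 687866548) (.one (nat_lit 16780661) .nil))),
   .two (nat_lit 1779433480) (nat_lit 10506731534) (.two (nat_lit 101711877) (nat_lit 10942939178) (.two (nat_lit 620756993) (nat_lit 19127075490) (.one (nat_lit 10436478287) .nil))),
   .two (nat_lit 713031688) (nat_lit 159266111501) (.two (nat_lit 9948889093) (nat_lit 713031695) (.two (nat_lit 9768534017) (nat_lit 19109249161) (.two (nat_lit 4194304) (nat_lit 157043131041) (.one (nat_lit 9768536256) .nil)))),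
   .two (nat_lit 203423752) (nat_lit 9798942732) (.two (nat_lit 16777220) (nat_lit 11476664335) (.two (nat_lit 9765388289) (nat_lit 183913939561) (.one (nat_lit 166129043656) .nil))),
   .two (nat_lit 184549384) (nat_lit 47582281753) (.two (nat_lit 2097153) (nat_lit 16777332) (.two (nat_lit 2097152) (nat_lit 157051521420) .nil)),
   .two (nat_lit 158176641037) (nat_lit 21778923565) (.two (nat_lit 34603009) (nat_lit 183947493502) (.two (nat_lit 2097152) (nat_lit 1049633) (.one (nat_lit 3457158256) .nil))),
   .two (nat_lit 166132187144) (nat_lit 673185804) (.two (nat_lit 157036838917) (nat_lit 157038936131) (.two (nat_lit 2097152) (nat_lit 9902752841) (.one (nat_lit 4197765) .nil))),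
   .two (nat_lit 203423752) (nat_lit 156367847439) (.two (nat_lit 2097153) (nat_lit 306184259) (.two (nat_lit 4194304) (nat_lit 2099212) (.one (nat_lit 2100614) .nil))),
   .two (nat_lit 158075977736) (nat_lit 10370416653) (.two (nat_lit 2954887173) (nat_lit 159216828441) (.two (nat_lit 2097153) (nat_lit 28757196920) (.two (nat_lit 8388608) (nat_lit 672137893) (.one (nat_lit 11611933992) .nil)))),
   .two (nat_lit 343932940) (nat_lit 11492392974) (.two (nat_lit 46422556677) (nat_lit 47555018865) (.two (nat_lit 1048576) (nat_lit 158183981699) (.one (nat_lit 9966717013) .nil))),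
   .two (nat_lit 218103816) (nat_lit 10000269337) (.two (nat_lit 34603009) (nat_lit 184549654) (.two (nat_lit 16777216) (nat_lit 1343226536) (.one (nat_lit 9814673832) .nil))),
   .two (nat_lit 713031688) (nat_lit 21207449608) (.two (nat_lit 612368389) (nat_lit 705691674) (.two (nat_lit 34603009) (nat_lit 612368451) (.two (nat_lit 8388608) (nat_lit 1410335794) (.one (nat_lit 9966718145) .nil)))),
   .two (nat_lit 46414168072) (nat_lit 21811429388) (.two (nat_lit 4605345797) (nat_lit 21207449729) (.two (nat_lit 1048576) (nat_lit 37253808487) (.one (nat_lit 1051052) .nil))),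
   .two (nat_lit 8388616) (nat_lit 12148801585) (.two (nat_lit 4194305) (nat_lit 639631475) (.two (nat_lit 4194304) (nat_lit 28764537534) (.one (nat_lit 8392071) .nil))),
   .two (nat_lit 8388616) (nat_lit 174752530440) (.two (nat_lit 8388612) (nat_lit 1309671447) (.two (nat_lit 41943041) (nat_lit 202375831) (.one (nat_lit 37313579040) .nil))),
   .two (nat_lit 285212680) (nat_lit 20644364303) (.two (nat_lit 16777217) (nat_lit 159224168515) (.two (nat_lit 16777216) (nat_lit 109052264) (.one (nat_lit 8392072) .nil))),
   .two (nat_lit 101711880) (nat_lit 2350907521) (.two (nat_lit 1048576) (nat_lit 13222544055) (.one (nat_lit 101714171) .nil)),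
   .two (nat_lit 612368392) (nat_lit 1291845640) (.two (nat_lit 176160773) (nat_lit 166211878936) (.two (nat_lit 9781116929) (nat_lit 10510926345) (.two (nat_lit 16777216) (nat_lit 19537069103) (.one (nat_lit 183962175726) .nil)))),
   .two (nat_lit 4194312) (nat_lit 19027460225) (.two (nat_lit 2097152) (nat_lit 11543773542) (.one (nat_lit 4197769) .nil)),
   .two (nat_lit 169869320) (nat_lit 754974735) (.two (nat_lit 34603009) (nat_lit 1426064620) (.one (nat_lit 158192373054) .nil)),
   .two (nat_lit 809500680) (nat_lit 28093448207) (.two (nat_lit 4194305) (nat_lit 20711473915) (.one (nat_lit 4197771) .nil)),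
   .two (nat_lit 156971827208) (nat_lit 4647288845) (.two (nat_lit 285212677) (nat_lit 156971827215) (.two (nat_lit 9768534017) (nat_lit 184550470) (.one (nat_lit 16780684) .nil))),
   .two (nat_lit 41943048) (nat_lit 183848927240) (.two (nat_lit 8388612) (nat_lit 184419352591) (.two (nat_lit 8388609) (nat_lit 20738736194) (.two (nat_lit 1048576) (nat_lit 183846830439) (.one (nat_lit 8392077) .nil)))),
   .two (nat_lit 184549382) (nat_lit 639631368) (.two (nat_lit 16777220) (nat_lit 639631375) (.two (nat_lit 16777217) (nat_lit 156533522542) (.two (nat_lit 16777216) (nat_lit 1377829063) (.one (nat_lit 2099623) .nil)))),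
   .two (nat_lit 645922825) (nat_lit 47582281737) (.two (nat_lit 721420290) (nat_lit 10370416664) (.two (nat_lit 176160773) (nat_lit 166197198869) (.two (nat_lit 50331649) (nat_lit 46514831496) (.two (nat_lit 16777216) (nat_lit 3021996404) (.one (nat_lit 8390098) .nil))))),
   .two (nat_lit 34603014) (nat_lit 1916796936) (.two (nat_lit 705691652) (nat_lit 1916796943) (.two (nat_lit 34603009) (nat_lit 19130220654) (.two (nat_lit 1048576) (nat_lit 47550824647) (.one (nat_lit 1950353638) .nil)))),
   .two (nat_lit 28758245384) (nat_lit 46977253385) (.two (nat_lit 156968681477) (nat_lit 28758245391) (.two (nat_lit 34603009) (nat_lit 174753579045) (.two (nat_lit 1048576) (nat_lit 69206218) (.one (nat_lit 2100626) .nil)))),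
   .two (nat_lit 605028362) (nat_lit 9768534024) (.two (nat_lit 19596836869) (nat_lit 10506731535) (.two (nat_lit 9765388289) (nat_lit 46409974049) (.two (nat_lit 1048576) (nat_lit 4195086) (.one (nat_lit 4196819) .nil)))),
   .two (nat_lit 2887778312) (nat_lit 620756999) (.two (nat_lit 620756995) (nat_lit 639631375) (.two (nat_lit 620756993) (nat_lit 639631428) (.two (nat_lit 16777216) (nat_lit 337642933) (.one (nat_lit 337642933) .nil)))),
   .two (nat_lit 47563407368) (nat_lit 20738736141) (.two (nat_lit 2097157) (nat_lit 620757007) (.two (nat_lit 2097153) (nat_lit 889192485) (.two (nat_lit 16777216) (nat_lit 2097923) (.one (nat_lit 16780691) .nil)))),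
   .two (nat_lit 10538188812) (nat_lit 3457155081) (.two (nat_lit 28086108165) (nat_lit 28758245416) (.two (nat_lit 156364701697) (nat_lit 159251431461) (.two (nat_lit 1048576) (nat_lit 18926797190) (.one (nat_lit 1052052) .nil)))),
   .two (nat_lit 8388616) (nat_lit 9781116937) (.two (nat_lit 16777221) (nat_lit 8388623) (.two (nat_lit 16777217) (nat_lit 713031747) (.two (nat_lit 16777216) (nat_lit 46984593610) (.one (nat_lit 8390121) .nil)))),
   .two (nat_lit 13222543370) (nat_lit 159224168460) (.two (nat_lit 10336862213) (nat_lit 75497487) (.two (nat_lit 606076929) (nat_lit 157043130630) (.two (nat_lit 2097152) (nat_lit 8389392) (.one (nat_lit 8391125) .nil)))),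
   .two (nat_lit 183848927240) (nat_lit 19093520396) (.two (nat_lit 1343225861) (nat_lit 156971827225) (.two (nat_lit 620756993) (nat_lit 2953838713) (.two (nat_lit 16777216) (nat_lit 13187942165) (.one (nat_lit 1051094) .nil)))),
   .two (nat_lit 4605345798) (nat_lit 50331656) (.two (nat_lit 46414168068) (nat_lit 50331663) (.two (nat_lit 8388609) (nat_lit 16777327) (.two (nat_lit 8388608) (nat_lit 185002361032) (.one (nat_lit 16779735) .nil)))),
   .two (nat_lit 10504634376) (nat_lit 171966470) (.two (nat_lit 4194308) (nat_lit 10504634383) (.two (nat_lit 4194305) (nat_lit 46474985583) (.two (nat_lit 4194304) (nat_lit 4599054550) (.one (nat_lit 2099674) .nil)))),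
   .two (nat_lit 16777224) (nat_lit 104857608) (.two (nat_lit 16777220) (nat_lit 104857615) (.two (nat_lit 16777217) (nat_lit 20707278969) (.two (nat_lit 16777216) (nat_lit 13228834915) (.one (nat_lit 16780693) .nil)))),
   .two (nat_lit 166132187149) (nat_lit 19596836878) (.two (nat_lit 1913651205) (nat_lit 10506731535) (.two (nat_lit 4194305) (nat_lit 183845782042) (.two (nat_lit 4194304) (nat_lit 1049852) (.one (nat_lit 4195826) .nil)))),
   .two (nat_lit 16777224) (nat_lit 339738634) (.two (nat_lit 8388612) (nat_lit 16777231) (.two (nat_lit 8388609) (nat_lit 16777251) (.two (nat_lit 4194304) (nat_lit 285212767) (.one (nat_lit 4197782) .nil)))),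
   .two (nat_lit 2097158) (nat_lit 157038936072) (.two (nat_lit 169869316) (nat_lit 157038936079) (.two (nat_lit 2097153) (nat_lit 1413480574) (.two (nat_lit 2097152) (nat_lit 306184401) (.one (nat_lit 4196833) .nil)))),
   .two (nat_lit 46984593416) (nat_lit 13191086088) (.two (nat_lit 3531603973) (nat_lit 13191086095) (.two (nat_lit 8388609) (nat_lit 37316722807) (.two (nat_lit 1048576) (nat_lit 184419352674) (.one (nat_lit 1413480920) .nil)))),
   .two (nat_lit 673185804) (nat_lit 739246094) (.two (nat_lit 9866051589) (nat_lit 304087089) (.two (nat_lit 34603009) (nat_lit 2350907521) (.two (nat_lit 2097152) (nat_lit 4598007210) (.one (nat_lit 4598007211) .nil)))),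
   .two (nat_lit 47563407368) (nat_lit 1310720013) (.two (nat_lit 2097157) (nat_lit 620757007) (.two (nat_lit 2097153) (nat_lit 2349858945) (.two (nat_lit 16777216) (nat_lit 2097923) (.one (nat_lit 2100631) .nil)))),
   .two (nat_lit 2953838601) (nat_lit 1916796935) (.two (nat_lit 183845781507) (nat_lit 9768534031) (.two (nat_lit 34603009) (nat_lit 10338959494) (.two (nat_lit 1048576) (nat_lit 4195092) (.one (nat_lit 4196840) .nil)))),
   .two (nat_lit 809500680) (nat_lit 184549382) (.two (nat_lit 16777220) (nat_lit 809500687) (.two (nat_lit 16777217) (nat_lit 9768534053) (.two (nat_lit 16777216) (nat_lit 3460301002) (.one (nat_lit 4197784) .nil)))),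
   .two (nat_lit 83886088) (nat_lit 639631368) (.two (nat_lit 620756997) (nat_lit 639631375) (.two (nat_lit 620756993) (nat_lit 10437525633) (.two (nat_lit 16777216) (nat_lit 203423959) (.one (nat_lit 2100633) .nil)))),
   .two (nat_lit 620757000) (nat_lit 4605345798) (.two (nat_lit 46414168068) (nat_lit 620757007) (.two (nat_lit 8388609) (nat_lit 184549487) (.two (nat_lit 8388608) (nat_lit 166144770260) (.one (nat_lit 16779755) .nil)))),
   .two (nat_lit 41943048) (nat_lit 708837386) (.two (nat_lit 157038936069) (nat_lit 183953784857) (.two (nat_lit 9768534017) (nat_lit 1920991379) (.two (nat_lit 4194304) (nat_lit 8389397) (.one (nat_lit 4197786) .nil)))),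
   .two (nat_lit 157036838920) (nat_lit 47581233161) (.two (nat_lit 9866051589) (nat_lit 2418016281) (.two (nat_lit 34603009) (nat_lit 4632608911) (.two (nat_lit 1048576) (nat_lit 136315798) (.one (nat_lit 1052059) .nil)))),
   .two (nat_lit 101711880) (nat_lit 9948889100) (.two (nat_lit 50331653) (nat_lit 101711887) (.two (nat_lit 34603009) (nat_lit 158091706692) (.two (nat_lit 16777216) (nat_lit 1048986) (.one (nat_lit 1052060) .nil)))),
   .two (nat_lit 1343225864) (nat_lit 165526110216) (.two (nat_lit 1914699781) (nat_lit 11610882071) (.two (nat_lit 41943041) (nat_lit 873463921) (.two (nat_lit 8388608) (nat_lit 18925748885) (.one (nat_lit 166196151760) .nil)))),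
   .two (nat_lit 11559501832) (nat_lit 158143086600) (.two (nat_lit 721420292) (nat_lit 1343225881) (.two (nat_lit 605028353) (nat_lit 3003121797) (.two (nat_lit 1048576) (nat_lit 183962173539) (.one (nat_lit 16780701) .nil)))),
   .two (nat_lit 41943048) (nat_lit 11580473354) (.two (nat_lit 46980399109) (nat_lit 41943055) (.two (nat_lit 4194305) (nat_lit 41943075) (.two (nat_lit 4194304) (nat_lit 13195280479) (.one (nat_lit 4197790) .nil)))),
   .two (nat_lit 285212680) (nat_lit 9934209032) (.two (nat_lit 16777220) (nat_lit 9934209039) (.two (nat_lit 16777217) (nat_lit 47582281839) (.two (nat_lit 16777216) (nat_lit 11007951224) (.one (nat_lit 2099698) .nil)))),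
   .two (nat_lit 809500680) (nat_lit 184549382) (.two (nat_lit 16777220) (nat_lit 809500687) (.two (nat_lit 16777217) (nat_lit 9768534053) (.two (nat_lit 16777216) (nat_lit 4030726243) (.one (nat_lit 4197774) .nil)))),
   .two (nat_lit 612368392) (nat_lit 1358954503) (.two (nat_lit 83886083) (nat_lit 612368399) (.two (nat_lit 620756993) (nat_lit 612368452) (.two (nat_lit 16777216) (nat_lit 276824437) (.one (nat_lit 8391158) .nil)))),
   .two (nat_lit 10504634376) (nat_lit 3527409673) (.two (nat_lit 166132187141) (nat_lit 10504634383) (.two (nat_lit 4194305) (nat_lit 11007950885) (.two (nat_lit 4194304) (nat_lit 2097354) (.one (nat_lit 2100641) .nil)))),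
   .two (nat_lit 809500680) (nat_lit 46984593416) (.two (nat_lit 3531603973) (nat_lit 809500687) (.two (nat_lit 8388609) (nat_lit 183949590641) (.two (nat_lit 8388608) (nat_lit 10338959984) (.one (nat_lit 37249615287) .nil)))),
   .two (nat_lit 4194312) (nat_lit 46414168072) (.two (nat_lit 4194308) (nat_lit 3464495127) (.two (nat_lit 37748737) (nat_lit 1048923) (.two (nat_lit 4194304) (nat_lit 1049853) (.one (nat_lit 8391160) .nil)))),
   .two (nat_lit 21812477962) (nat_lit 641728519) (.two (nat_lit 3525312517) (nat_lit 159224168463) (.two (nat_lit 2097153) (nat_lit 159224168516) (.two (nat_lit 16777216) (nat_lit 8389025) (.one (nat_lit 8390168) .nil)))),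
   .two (nat_lit 272629768) (nat_lit 184549382) (.two (nat_lit 16777220) (nat_lit 272629775) (.two (nat_lit 16777217) (nat_lit 11479810115) (.two (nat_lit 16777216) (nat_lit 3460301002) (.one (nat_lit 272631273) .nil)))),
   .two (nat_lit 218103816) (nat_lit 184419352584) (.two (nat_lit 2902458372) (nat_lit 18928893967) (.two (nat_lit 37748737) (nat_lit 46422556746) (.two (nat_lit 4194304) (nat_lit 2936013014) (.one (nat_lit 4197795) .nil)))),
   .two (nat_lit 336592906) (nat_lit 1916796940) (.two (nat_lit 19596836869) (nat_lit 9768534031) (.two (nat_lit 9765388289) (nat_lit 4601151777) (.two (nat_lit 1048576) (nat_lit 239076110) (.one (nat_lit 809503189) .nil)))),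
   .two (nat_lit 46409973768) (nat_lit 183853121544) (.two (nat_lit 4601151493) (nat_lit 183920230425) (.two (nat_lit 41943041) (nat_lit 4601151555) (.two (nat_lit 8388608) (nat_lit 843055479) (.one (nat_lit 4195868) .nil)))),
   .two (nat_lit 156372041736) (nat_lit 166132187151) (.two (nat_lit 10506731525) (nat_lit 156372041840) (.two (nat_lit 9768534017) (nat_lit 10343154530) (.one (nat_lit 10343155229) .nil))),
   .two (nat_lit 12129927176) (nat_lit 3024093303) (.two (nat_lit 612368385) (nat_lit 158091707000) (.two (nat_lit 2097152) (nat_lit 11479811460) (.one (nat_lit 4198051) .nil))),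
   .two (nat_lit 822083592) (nat_lit 46414168079) (.two (nat_lit 16777220) (nat_lit 46414168129) (.two (nat_lit 8388609) (nat_lit 13237223619) (.two (nat_lit 2097152) (nat_lit 47596964368) .nil))),
   .two (nat_lit 11492392968) (nat_lit 37246468120) (.two (nat_lit 11492392964) (nat_lit 2416967793) (.two (nat_lit 9765388289) (nat_lit 822085150) .nil)),
   .two (nat_lit 16777224) (nat_lit 9974055107) (.two (nat_lit 4194304) (nat_lit 157043131708) (.one (nat_lit 158083321496) .nil)),
   .two (nat_lit 8388616) (nat_lit 654311619) (.two (nat_lit 16777216) (nat_lit 8390808) (.one (nat_lit 4647291408) .nil)),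
   .two (nat_lit 813694984) (nat_lit 754974735) (.two (nat_lit 8388613) (nat_lit 11477713018) (.two (nat_lit 8388609) (nat_lit 21208498838) (.two (nat_lit 2097152) (nat_lit 185035916656) (.one (nat_lit 2100900) .nil)))),
   .two (nat_lit 46414168072) (nat_lit 1847590927) (.two (nat_lit 28758245381) (nat_lit 4605345859) (.two (nat_lit 156365750273) (nat_lit 13195281949) .nil)),
   .two (nat_lit 3527409672) (nat_lit 21208498191) (.two (nat_lit 20638072836) (nat_lit 19130220660) (.two (nat_lit 156365750273) (nat_lit 13224641831) (.one (nat_lit 9802091027) .nil))),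
   .two (nat_lit 184549384) (nat_lit 19130220586) (.two (nat_lit 184549380) (nat_lit 2420113529) (.two (nat_lit 2097153) (nat_lit 11580473967) (.two (nat_lit 2097152) (nat_lit 184419353983) (.one (nat_lit 158144137763) .nil)))),
   .two (nat_lit 9802088460) (nat_lit 285212687) (.two (nat_lit 157038936069) (nat_lit 16777330) (.two (nat_lit 9768534017) (nat_lit 16778781) .nil)),
   .two (nat_lit 721420296) (nat_lit 639631375) (.two (nat_lit 721420292) (nat_lit 2317353321) (.two (nat_lit 16777216) (nat_lit 20738737492) (.one (nat_lit 2100901) .nil))),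
   .two (nat_lit 16777224) (nat_lit 10504634383) (.two (nat_lit 184549380) (nat_lit 3525312576) (.two (nat_lit 4194305) (nat_lit 166245434212) (.one (nat_lit 2100902) .nil))),
   .two (nat_lit 184549384) (nat_lit 21208498191) (.two (nat_lit 184549380) (nat_lit 2921332869) (.two (nat_lit 606076929) (nat_lit 12633244979) (.one (nat_lit 1847593499) .nil))),
   .two (nat_lit 12117344264) (nat_lit 10940842008) (.two (nat_lit 11479810052) (nat_lit 174753579121) (.two (nat_lit 37748737) (nat_lit 2954888573) (.one (nat_lit 21208499742) .nil))),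
   .two (nat_lit 822083592) (nat_lit 156971827215) (.two (nat_lit 166132187140) (nat_lit 50331760) (.two (nat_lit 9768534017) (nat_lit 11559502690) (.one (nat_lit 654314028) .nil))),
   .two (nat_lit 184419352584) (nat_lit 28093448207) (.two (nat_lit 1753219077) (nat_lit 184419352642) (.two (nat_lit 612368385) (nat_lit 10540286313) (.two (nat_lit 8388608) (nat_lit 20740834608) (.one (nat_lit 1346375084) .nil)))),
   .two (nat_lit 184549384) (nat_lit 10506731535) (.two (nat_lit 16777221) (nat_lit 157038936422) (.two (nat_lit 16777216) (nat_lit 1782580539) (.one (nat_lit 721422875) .nil))),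
   .two (nat_lit 11559501832) (nat_lit 28086108175) (.two (nat_lit 721420292) (nat_lit 185020186749) (.two (nat_lit 605028353) (nat_lit 16777411) (.two (nat_lit 1048576) (nat_lit 37329306929) (.one (nat_lit 16780967) .nil)))),
   .two (nat_lit 1780482056) (nat_lit 18925748239) (.two (nat_lit 2097157) (nat_lit 166237044855) (.two (nat_lit 34603009) (nat_lit 28093449550) (.one (nat_lit 8392360) .nil))),
   .two (nat_lit 158083317768) (nat_lit 19530776591) (.two (nat_lit 21785214981) (nat_lit 46978302072) (.two (nat_lit 612368385) (nat_lit 10940842341) (.two (nat_lit 8388608) (nat_lit 10504635726) (.one (nat_lit 20638075409) .nil)))),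
   .two (nat_lit 742391816) (nat_lit 1753219087) (.two (nat_lit 11546918917) (nat_lit 12054429762) (.two (nat_lit 37748737) (nat_lit 11584667843) (.two (nat_lit 1048576) (nat_lit 840960555) .nil))),
   .two (nat_lit 4194312) (nat_lit 9766436879) (.two (nat_lit 4194308) (nat_lit 183946444865) (.two (nat_lit 4194305) (nat_lit 1309671783) (.two (nat_lit 4194304) (nat_lit 343934284) (.one (nat_lit 8392361) .nil)))),
   .two (nat_lit 285212680) (nat_lit 19093520408) (.two (nat_lit 16777220) (nat_lit 156465365105) (.two (nat_lit 16777217) (nat_lit 47581233512) (.two (nat_lit 16777216) (nat_lit 156465366306) (.one (nat_lit 174685425062) .nil)))),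
   .two (nat_lit 75497480) (nat_lit 37314625560) (.two (nat_lit 612368389) (nat_lit 185035915379) (.two (nat_lit 50331649) (nat_lit 156472705643) (.two (nat_lit 16777216) (nat_lit 41944399) (.one (nat_lit 156969732646) .nil)))),
   .two (nat_lit 612368392) (nat_lit 20637024271) (.two (nat_lit 75497477) (nat_lit 9933160724) (.two (nat_lit 37748737) (nat_lit 156372043135) (.one (nat_lit 1417677347) .nil))),
   .two (nat_lit 68157448) (nat_lit 184549391) (.two (nat_lit 605028357) (nat_lit 1224736899) (.two (nat_lit 4194305) (nat_lit 1224737391) (.two (nat_lit 1048576) (nat_lit 3527411023) (.one (nat_lit 157038938644) .nil)))),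
   .two (nat_lit 1191182344) (nat_lit 46407876649) (.two (nat_lit 2097157) (nat_lit 285212736) (.two (nat_lit 2097153) (nat_lit 4647289027) (.two (nat_lit 4194304) (nat_lit 166196152853) .nil))),
   .two (nat_lit 1291845640) (nat_lit 12155093032) (.two (nat_lit 620756997) (nat_lit 1948254323) (.two (nat_lit 37748737) (nat_lit 2424308069) (.two (nat_lit 2097152) (nat_lit 1749026157) (.one (nat_lit 1954549169) .nil)))),
   .two (nat_lit 742391816) (nat_lit 158091706394) (.two (nat_lit 620756997) (nat_lit 3464495364) (.two (nat_lit 50331649) (nat_lit 11513365126) (.two (nat_lit 2097152) (nat_lit 8390809) (.one (nat_lit 16780970) .nil)))),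
   .two (nat_lit 10385096712) (nat_lit 174688567341) (.two (nat_lit 171966469) (nat_lit 2969567296) (.two (nat_lit 4194305) (nat_lit 47596961987) (.two (nat_lit 2097152) (nat_lit 9899608596) .nil))),
   .two (nat_lit 8388616) (nat_lit 37316722734) (.two (nat_lit 8388612) (nat_lit 1346371844) (.two (nat_lit 37748737) (nat_lit 10007609539) (.two (nat_lit 4194304) (nat_lit 183920231738) (.one (nat_lit 46414171722) .nil)))),
   .two (nat_lit 12050235400) (nat_lit 9781116953) (.two (nat_lit 11546918917) (nat_lit 20652753015) (.two (nat_lit 612368385) (nat_lit 156567078262) (.one (nat_lit 2100907) .nil))),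
   .two (nat_lit 13203669000) (nat_lit 18933088271) (.two (nat_lit 184993972229) (nat_lit 285212738) (.two (nat_lit 16777217) (nat_lit 2927624867) (.two (nat_lit 2097152) (nat_lit 176161636) (.one (nat_lit 2100908) .nil)))),
   .two (nat_lit 713031688) (nat_lit 687865902) (.two (nat_lit 203423749) (nat_lit 1849688129) (.two (nat_lit 2097153) (nat_lit 310379129) (.two (nat_lit 16777216) (nat_lit 19537069358) (.one (nat_lit 673189289) .nil)))),
   .two (nat_lit 742391816) (nat_lit 19604176911) (.two (nat_lit 713031685) (nat_lit 136314995) (.two (nat_lit 8388609) (nat_lit 1377829477) (.two (nat_lit 2097152) (nat_lit 20707280166) (.one (nat_lit 740298281) .nil)))),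
   .two (nat_lit 2889875464) (nat_lit 3565158426) (.two (nat_lit 12121538565) (nat_lit 12050235511) (.two (nat_lit 4194305) (nat_lit 310379176) (.two (nat_lit 2097152) (nat_lit 174688568643) (.one (nat_lit 4198061) .nil)))),
   .two (nat_lit 8388616) (nat_lit 9781116943) (.two (nat_lit 2902458372) (nat_lit 4605345906) (.two (nat_lit 16777217) (nat_lit 4605345987) (.two (nat_lit 16777216) (nat_lit 13228836215) (.one (nat_lit 8392366) .nil)))),
   .two (nat_lit 1753219080) (nat_lit 1913651215) (.two (nat_lit 11476664324) (nat_lit 1350566022) (.two (nat_lit 34603009) (nat_lit 21785216393) (.one (nat_lit 4034924111) .nil))),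
   .two (nat_lit 4634705933) (nat_lit 10436476952) (.two (nat_lit 272629765) (nat_lit 37313577076) (.two (nat_lit 9768534017) (nat_lit 20704134439) (.one (nat_lit 12147755539) .nil))),
   .two (nat_lit 16777224) (nat_lit 4605345859) (.two (nat_lit 8388609) (nat_lit 285212867) (.two (nat_lit 8388608) (nat_lit 10955523376) (.one (nat_lit 11492396458) .nil))),
   .two (nat_lit 41943048) (nat_lit 11492392975) (.two (nat_lit 8388612) (nat_lit 4613734533) (.two (nat_lit 50331649) (nat_lit 780141203) (.two (nat_lit 1048576) (nat_lit 158192371011) (.one (nat_lit 16780975) .nil)))),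
   .two (nat_lit 75497480) (nat_lit 1795162127) (.two (nat_lit 117440517) (nat_lit 158083317873) (.two (nat_lit 620756993) (nat_lit 176162121) (.one (nat_lit 8392368) .nil))),
   .two (nat_lit 822083592) (nat_lit 18928893967) (.two (nat_lit 156367847429) (nat_lit 721420401) (.two (nat_lit 37748737) (nat_lit 83887646) .nil)),
   .two (nat_lit 46409973768) (nat_lit 10336862223) (.two (nat_lit 4601151493) (nat_lit 166130090104) (.two (nat_lit 4194305) (nat_lit 673186149) (.two (nat_lit 4194304) (nat_lit 2921334092) (.one (nat_lit 3458207144) .nil)))),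
   .two (nat_lit 3525312520) (nat_lit 174752530447) (.two (nat_lit 2887778308) (nat_lit 2349858929) (.two (nat_lit 9766436865) (nat_lit 9933160807) (.two (nat_lit 2097152) (nat_lit 1050778) (.one (nat_lit 235933137) .nil)))),
   .two (nat_lit 822083592) (nat_lit 11476664335) (.two (nat_lit 739246085) (nat_lit 4028629112) (.two (nat_lit 605028353) (nat_lit 16778623) (.one (nat_lit 184551971) .nil))),
   .two (nat_lit 205520904) (nat_lit 10343153679) (.two (nat_lit 605028357) (nat_lit 47555018947) (.two (nat_lit 4194304) (nat_lit 75500048) .nil)),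
   .two (nat_lit 9867100168) (nat_lit 889192515) (.two (nat_lit 34603009) (nat_lit 10540286311) (.two (nat_lit 1048576) (nat_lit 12050236259) (.one (nat_lit 4198065) .nil))),
   .two (nat_lit 4194312) (nat_lit 2097178) (.two (nat_lit 50331653) (nat_lit 156466413927) (.two (nat_lit 16777216) (nat_lit 19026413585) (.one (nat_lit 135269807) .nil))),
   .two (nat_lit 41943048) (nat_lit 28790751276) (.two (nat_lit 8388612) (nat_lit 3558867080) (.two (nat_lit 2097153) (nat_lit 12114199636) (.two (nat_lit 4194304) (nat_lit 2099355) (.one (nat_lit 21811433003) .nil)))),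
   .two (nat_lit 41943048) (nat_lit 754974735) (.two (nat_lit 8388612) (nat_lit 46489665669) (.two (nat_lit 50331649) (nat_lit 209716538) (.one (nat_lit 9881782811) .nil))),
   .two (nat_lit 176160776) (nat_lit 157038936079) (.two (nat_lit 8388613) (nat_lit 3527409731) (.two (nat_lit 8388609) (nat_lit 3527409859) (.two (nat_lit 2097152) (nat_lit 11618224667) .nil))),
   .two (nat_lit 742391816) (nat_lit 754974785) (.two (nat_lit 16777217) (nat_lit 12115248509) (.one (nat_lit 28691140018) .nil)),
   .two (nat_lit 28691136520) (nat_lit 10015997978) (.two (nat_lit 20652752901) (nat_lit 10007609462) (.two (nat_lit 41943041) (nat_lit 83886766) (.two (nat_lit 4194304) (nat_lit 19100862608) (.one (nat_lit 21214793241) .nil)))),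
   .two (nat_lit 9867100168) (nat_lit 28086108175) (.two (nat_lit 171966469) (nat_lit 12148801662) (.two (nat_lit 605028353) (nat_lit 156971828559) (.one (nat_lit 2100914) .nil))),
   .two (nat_lit 2902458376) (nat_lit 10940842025) (.two (nat_lit 2969567237) (nat_lit 20638072952) (.two (nat_lit 2097153) (nat_lit 285212867) (.two (nat_lit 2097152) (nat_lit 1929381239) (.one (nat_lit 2317356601) .nil)))),
   .two (nat_lit 2969567240) (nat_lit 641728527) (.two (nat_lit 218103813) (nat_lit 159257723017) (.two (nat_lit 8388609) (nat_lit 46489666897) (.one (nat_lit 166199299520) .nil))),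
   .two (nat_lit 37748744) (nat_lit 754974787) (.two (nat_lit 4194305) (nat_lit 165526110907) (.two (nat_lit 2097152) (nat_lit 11022632310) (.one (nat_lit 2100916) .nil))),
   .two (nat_lit 739246088) (nat_lit 18933088271) (.two (nat_lit 13195280389) (nat_lit 1779433608) (.two (nat_lit 41943041) (nat_lit 3020947816) (.two (nat_lit 8388608) (nat_lit 1779434830) (.one (nat_lit 1052341) .nil)))),
   .two (nat_lit 41943048) (nat_lit 673185816) (.two (nat_lit 46407876612) (nat_lit 11618222193) (.two (nat_lit 8388609) (nat_lit 20738737450) (.one (nat_lit 4632612301) .nil))),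
   .two (nat_lit 10369368072) (nat_lit 174755676185) (.two (nat_lit 171966469) (nat_lit 47555018817) (.two (nat_lit 41943041) (nat_lit 4601152120) (.two (nat_lit 1048576) (nat_lit 4196508) (.one (nat_lit 3020951004) .nil)))),
   .two (nat_lit 8388616) (nat_lit 606076943) (.two (nat_lit 4194308) (nat_lit 1176502385) (.two (nat_lit 2097153) (nat_lit 156573369734) (.one (nat_lit 21208500771) .nil))),
   .two (nat_lit 46414168072) (nat_lit 19027460120) (.two (nat_lit 10504634373) (nat_lit 156372041845) (.two (nat_lit 156365750273) (nat_lit 46414169379) (.one (nat_lit 8392374) .nil))),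
   .two (nat_lit 3458203656) (nat_lit 183853121551) (.two (nat_lit 183853121540) (nat_lit 46474985585) (.two (nat_lit 41943041) (nat_lit 21812478311) (.two (nat_lit 8388608) (nat_lit 9867101502) (.one (nat_lit 2317356637) .nil)))),
   .two (nat_lit 2988441612) (nat_lit 754974735) (.two (nat_lit 2954887173) (nat_lit 11492393072) (.two (nat_lit 9781116929) (nat_lit 673186658) (.one (nat_lit 1847593490) .nil))),
   .two (nat_lit 46409973768) (nat_lit 10336862223) (.two (nat_lit 47548727301) (nat_lit 4601151623) (.two (nat_lit 2097153) (nat_lit 185023332714) (.two (nat_lit 2097152) (nat_lit 2319451501) (.one (nat_lit 21781024184) .nil)))),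
   .two (nat_lit 10385096712) (nat_lit 157036838927) (.two (nat_lit 46407876612) (nat_lit 117440625) (.two (nat_lit 2097153) (nat_lit 11492393827) (.one (nat_lit 16780983) .nil))),
   .two (nat_lit 16777224) (nat_lit 10504634383) (.two (nat_lit 184549381) (nat_lit 166130090051) (.two (nat_lit 2097153) (nat_lit 11492393600) (.two (nat_lit 16777216) (nat_lit 159217878360) (.one (nat_lit 47582284335) .nil)))),
   .two (nat_lit 184549384) (nat_lit 101711887) (.two (nat_lit 184549380) (nat_lit 12147753074) (.two (nat_lit 620756993) (nat_lit 156465366311) (.one (nat_lit 1947209317) .nil))),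
   .two (nat_lit 713031688) (nat_lit 1191182351) (.two (nat_lit 9781116933) (nat_lit 12054429809) (.two (nat_lit 50331649) (nat_lit 18933089123) (.one (nat_lit 8392377) .nil))),
   .two (nat_lit 16777224) (nat_lit 606076943) (.two (nat_lit 4194308) (nat_lit 18926796913) (.two (nat_lit 4194305) (nat_lit 2988442996) (.one (nat_lit 12050239064) .nil))),
   .two (nat_lit 4194312) (nat_lit 9766436879) (.two (nat_lit 4194308) (nat_lit 235929961) (.two (nat_lit 4194304) (nat_lit 37247518847) (.one (nat_lit 2921336457) .nil))),
   .two (nat_lit 218103816) (nat_lit 10336862223) (.two (nat_lit 165526110213) (nat_lit 2969567345) (.two (nat_lit 2097153) (nat_lit 620758310) (.one (nat_lit 620759601) .nil))),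
   .two (nat_lit 742391816) (nat_lit 1779433487) (.two (nat_lit 171966469) (nat_lit 343932995) (.two (nat_lit 4194305) (nat_lit 184423547242) (.two (nat_lit 1048576) (nat_lit 11614029167) (.one (nat_lit 8392381) .nil)))),
   .two (nat_lit 10343153676) (nat_lit 16777231) (.two (nat_lit 156372041733) (nat_lit 620757102) (.two (nat_lit 41943041) (nat_lit 2969568546) (.one (nat_lit 28806483545) .nil))),
   .two (nat_lit 11559501832) (nat_lit 9867100225) (.two (nat_lit 2097153) (nat_lit 20740834379) (.two (nat_lit 8388608) (nat_lit 9802089814) (.one (nat_lit 8392382) .nil))),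
   .two (nat_lit 285212680) (nat_lit 11476664335) (.two (nat_lit 2887778308) (nat_lit 12617515128) (.two (nat_lit 2097153) (nat_lit 46977254061) (.two (nat_lit 2097152) (nat_lit 166245434736) (.one (nat_lit 46992985715) .nil)))),
   .two (nat_lit 169869320) (nat_lit 12121538586) (.two (nat_lit 806354949) (nat_lit 166136381568) (.two (nat_lit 34603009) (nat_lit 46407876967) (.two (nat_lit 1048576) (nat_lit 28087158098) (.one (nat_lit 8392386) .nil)))),
   .two (nat_lit 2902458376) (nat_lit 21777874959) (.two (nat_lit 705691652) (nat_lit 285212739) (.two (nat_lit 605028353) (nat_lit 166245434034) (.two (nat_lit 16777216) (nat_lit 1049999) (.one (nat_lit 705695367) .nil)))),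
   .two (nat_lit 10343153672) (nat_lit 10504634383) (.two (nat_lit 2887778308) (nat_lit 156372041840) (.two (nat_lit 2097153) (nat_lit 9906947401) (.one (nat_lit 8392387) .nil))),
   .two (nat_lit 13191086088) (nat_lit 183912890393) (.two (nat_lit 4601151493) (nat_lit 69206152) (.two (nat_lit 4194305) (nat_lit 10336862566) (.two (nat_lit 1048576) (nat_lit 2099364) (.one (nat_lit 21207452206) .nil)))),
   .two (nat_lit 276824072) (nat_lit 47596961859) (.two (nat_lit 8388609) (nat_lit 183861510504) (.two (nat_lit 16777216) (nat_lit 11610883397) (.one (nat_lit 8392388) .nil))),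
   .two (nat_lit 705691656) (nat_lit 9781116943) (.two (nat_lit 2954887173) (nat_lit 166129041522) (.two (nat_lit 16777217) (nat_lit 166230754639) (.one (nat_lit 2100933) .nil))),
   .two (nat_lit 18933088264) (nat_lit 28693233679) (.two (nat_lit 1178599429) (nat_lit 18933088368) (.two (nat_lit 4194305) (nat_lit 11584669066) (.one (nat_lit 156372045388) .nil))),
   .two (nat_lit 1191182344) (nat_lit 19599982607) (.two (nat_lit 809500677) (nat_lit 117440707) (.two (nat_lit 4194304) (nat_lit 18941478196) (.one (nat_lit 10439625239) .nil))),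
   .two (nat_lit 343932941) (nat_lit 117440527) (.two (nat_lit 8388613) (nat_lit 1191182448) (.two (nat_lit 50331649) (nat_lit 183853122854) (.one (nat_lit 8392390) .nil))),
   .two (nat_lit 12054429704) (nat_lit 37313576985) (.two (nat_lit 713031685) (nat_lit 156481093764) (.two (nat_lit 16777217) (nat_lit 10343155025) (.one (nat_lit 183928622585) .nil))),
   .two (nat_lit 3539992584) (nat_lit 46481276954) (.two (nat_lit 612368389) (nat_lit 3539992693) (.two (nat_lit 9766436865) (nat_lit 1410335079) (.two (nat_lit 2097152) (nat_lit 1050789) (.one (nat_lit 1052359) .nil)))),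
   .two (nat_lit 612368392) (nat_lit 68157455) (.two (nat_lit 4194308) (nat_lit 638582921) (.two (nat_lit 8388609) (nat_lit 168822149) (.one (nat_lit 2953841201) .nil))),
   .two (nat_lit 184993972232) (nat_lit 843055129) (.two (nat_lit 21785214981) (nat_lit 102760584) (.two (nat_lit 612368385) (nat_lit 37314625894) (.two (nat_lit 4194304) (nat_lit 4632610969) (.one (nat_lit 19029559854) .nil)))),
   .two (nat_lit 1417674765) (nat_lit 1847590936) (.two (nat_lit 20644364293) (nat_lit 28758245489) (.two (nat_lit 156365750273) (nat_lit 21785215843) (.one (nat_lit 3565161939) .nil))),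
   .two (nat_lit 46409973768) (nat_lit 156365750287) (.two (nat_lit 16777220) (nat_lit 10439622790) (.two (nat_lit 2097153) (nat_lit 2319450786) (.two (nat_lit 2097152) (nat_lit 10506732867) (.one (nat_lit 1761611239) .nil)))),
   .two (nat_lit 4194312) (nat_lit 276824087) (.two (nat_lit 4194308) (nat_lit 9765388401) (.two (nat_lit 4194305) (nat_lit 12047091080) (.one (nat_lit 2953841201) .nil))),
   .two (nat_lit 21785214984) (nat_lit 9967763481) (.two (nat_lit 1914699781) (nat_lit 12117344321) (.two (nat_lit 41943041) (nat_lit 3024093544) (.two (nat_lit 2097152) (nat_lit 4196518) (.one (nat_lit 20711476764) .nil)))),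
   .two (nat_lit 2889875464) (nat_lit 3525312527) (.two (nat_lit 272629765) (nat_lit 1746927743) (.two (nat_lit 4194305) (nat_lit 270533279) (.two (nat_lit 4194304) (nat_lit 156567078220) (.one (nat_lit 9766440617) .nil)))),
   .two (nat_lit 41943048) (nat_lit 873463848) (.two (nat_lit 8388612) (nat_lit 9899606152) (.two (nat_lit 4194305) (nat_lit 158075978088) (.two (nat_lit 4194304) (nat_lit 2099369) (.one (nat_lit 101715599) .nil)))),
   .two (nat_lit 742391816) (nat_lit 2424307736) (.two (nat_lit 11479810052) (nat_lit 10544480384) (.two (nat_lit 2097153) (nat_lit 158179787368) (.two (nat_lit 4194304) (nat_lit 874513777) (.one (nat_lit 21781024178) .nil)))),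
   .two (nat_lit 41943048) (nat_lit 168820783) (.two (nat_lit 713031685) (nat_lit 158079123581) (.two (nat_lit 8388609) (nat_lit 269484693) (.two (nat_lit 4194304) (nat_lit 705693009) (.one (nat_lit 1175457381) .nil)))),
   .two (nat_lit 272629768) (nat_lit 11476664335) (.two (nat_lit 2887778308) (nat_lit 2886729853) (.two (nat_lit 37748737) (nat_lit 9899606661) (.two (nat_lit 2097152) (nat_lit 10506732927) (.one (nat_lit 35654193) .nil)))),
   .two (nat_lit 176160776) (nat_lit 11610882113) (.two (nat_lit 2097153) (nat_lit 11510219111) (.two (nat_lit 2097152) (nat_lit 19096667488) (.one (nat_lit 11484007941) .nil))),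
   .two (nat_lit 176160776) (nat_lit 1914699801) (.two (nat_lit 176160772) (nat_lit 20705181816) (.two (nat_lit 9766436865) (nat_lit 3028287845) (.two (nat_lit 2097152) (nat_lit 343934238) (.one (nat_lit 8392394) .nil)))),
   .two (nat_lit 1212153869) (nat_lit 822083599) (.two (nat_lit 19532873733) (nat_lit 50331760) (.two (nat_lit 4194305) (nat_lit 11559502690) (.one (nat_lit 28705820152) .nil))),
   .two (nat_lit 721420296) (nat_lit 2316304408) (.two (nat_lit 721420292) (nat_lit 135266417) (.two (nat_lit 605028353) (nat_lit 16778530) (.one (nat_lit 159232559644) .nil))),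
   .two (nat_lit 101711880) (nat_lit 1847590937) (.two (nat_lit 2097157) (nat_lit 343932994) (.two (nat_lit 2097153) (nat_lit 21214789994) (.two (nat_lit 1048576) (nat_lit 46514832718) (.one (nat_lit 10436480665) .nil)))),
   .two (nat_lit 4613734408) (nat_lit 639631375) (.two (nat_lit 16777220) (nat_lit 739246194) (.two (nat_lit 16777217) (nat_lit 10906240325) (.one (nat_lit 2100939) .nil))),
   .two (nat_lit 639631368) (nat_lit 47555018767) (.two (nat_lit 2887778308) (nat_lit 159224168558) (.two (nat_lit 2097153) (nat_lit 3028288802) (.one (nat_lit 8392221) .nil))),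
   .two (nat_lit 169869320) (nat_lit 822083599) (.two (nat_lit 169869316) (nat_lit 19596836979) (.two (nat_lit 16777217) (nat_lit 69206376) (.two (nat_lit 16777216) (nat_lit 2099371) (.one (nat_lit 2100942) .nil)))),
   .two (nat_lit 705691656) (nat_lit 19134414892) (.two (nat_lit 176160773) (nat_lit 840958085) (.two (nat_lit 8388609) (nat_lit 46978302584) (.two (nat_lit 8388608) (nat_lit 9867101521) (.one (nat_lit 1209011727) .nil)))),
   .two (nat_lit 3527409672) (nat_lit 12617515048) (.two (nat_lit 272629765) (nat_lit 2349859055) (.two (nat_lit 9768534017) (nat_lit 2316304742) (.two (nat_lit 4194304) (nat_lit 1050796) (.one (nat_lit 158075981324) .nil)))),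
   .two (nat_lit 16777224) (nat_lit 10000269379) (.two (nat_lit 2097153) (nat_lit 47547679078) (.two (nat_lit 2097152) (nat_lit 159219976753) .nil)),
   .two (nat_lit 50331656) (nat_lit 2988441624) (.two (nat_lit 16777220) (nat_lit 1310720116) (.two (nat_lit 16777217) (nat_lit 2988441795) (.two (nat_lit 16777216) (nat_lit 11611932027) (.one (nat_lit 46978305654) .nil)))),
   .two (nat_lit 183848927240) (nat_lit 10007609462) (.two (nat_lit 37748737) (nat_lit 156472705676) (.two (nat_lit 4194304) (nat_lit 8390032) (.one (nat_lit 2100943) .nil))),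
   .two (nat_lit 880803852) (nat_lit 1846542351) (.two (nat_lit 184993972229) (nat_lit 12114198648) (.two (nat_lit 156364701697) (nat_lit 1182794088) (.two (nat_lit 1048576) (nat_lit 8390830) (.one (nat_lit 9906949727) .nil)))),
   .two (nat_lit 612368392) (nat_lit 3525312527) (.two (nat_lit 1276116996) (nat_lit 10376708221) (.two (nat_lit 2097153) (nat_lit 156372042358) (.two (nat_lit 1048576) (nat_lit 11477714309) (.one (nat_lit 639634905) .nil)))),
   .two (nat_lit 9948889096) (nat_lit 2988441625) (.two (nat_lit 9881780229) (nat_lit 159250382967) (.two (nat_lit 2097153) (nat_lit 1426064001) (.two (nat_lit 2097152) (nat_lit 156481095001) (.one (nat_lit 202378766) .nil)))),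
   .two (nat_lit 612368392) (nat_lit 654311439) (.two (nat_lit 2902458372) (nat_lit 10007609456) (.two (nat_lit 16777217) (nat_lit 47555020318) .nil)),
   .two (nat_lit 9948889096) (nat_lit 10336862223) (.two (nat_lit 10385096709) (nat_lit 2350907524) (.two (nat_lit 2097153) (nat_lit 620757187) (.two (nat_lit 8388608) (nat_lit 2887780878) .nil))),
   .two (nat_lit 705691656) (nat_lit 19134414892) (.two (nat_lit 176160773) (nat_lit 19027460214) (.two (nat_lit 8388609) (nat_lit 46978302584) (.two (nat_lit 8388608) (nat_lit 9867101521) (.one (nat_lit 19127077414) .nil)))),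
   .two (nat_lit 4194312) (nat_lit 47555018767) (.two (nat_lit 2097157) (nat_lit 1379926135) (.two (nat_lit 2097153) (nat_lit 1276117349) (.two (nat_lit 2097152) (nat_lit 10007610700) (.one (nat_lit 8392403) .nil)))),
   .two (nat_lit 620757000) (nat_lit 713031724) (.two (nat_lit 83886085) (nat_lit 165528207624) (.two (nat_lit 4194305) (nat_lit 150995304) (.two (nat_lit 8388608) (nat_lit 156481095845) (.one (nat_lit 156481097415) .nil)))),
   .two (nat_lit 46414168072) (nat_lit 157036838927) (.two (nat_lit 3525312517) (nat_lit 310378631) (.two (nat_lit 2097153) (nat_lit 185027527017) (.two (nat_lit 2097152) (nat_lit 4034921804) (.one (nat_lit 19537071827) .nil)))),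
   .two (nat_lit 169869320) (nat_lit 176160783) (.two (nat_lit 11546918917) (nat_lit 185020186691) (.two (nat_lit 37748737) (nat_lit 11006902632) (.two (nat_lit 1048576) (nat_lit 2319452190) (.one (nat_lit 174755679712) .nil)))),
   .two (nat_lit 159251431437) (nat_lit 46980399170) (.two (nat_lit 606076929) (nat_lit 2923430245) (.two (nat_lit 2097152) (nat_lit 2923431198) (.one (nat_lit 4198101) .nil))),
   .two (nat_lit 10007609356) (nat_lit 184419352600) (.two (nat_lit 159224168453) (nat_lit 12117344369) (.two (nat_lit 156372041729) (nat_lit 19130221411) (.one (nat_lit 4198102) .nil))),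
   .two (nat_lit 654311432) (nat_lit 13188988975) (.two (nat_lit 1795162117) (nat_lit 2886729866) (.two (nat_lit 2097153) (nat_lit 135266962) (.two (nat_lit 2097152) (nat_lit 352322906) (.one (nat_lit 11477716457) .nil)))),
   .two (nat_lit 1175453704) (nat_lit 10940841999) (.two (nat_lit 2894069765) (nat_lit 47548727432) (.two (nat_lit 8388609) (nat_lit 10437526163) (.two (nat_lit 1048576) (nat_lit 10947134777) (.one (nat_lit 19100864187) .nil)))),
   .two (nat_lit 9948889096) (nat_lit 18925748272) (.two (nat_lit 9933160453) (nat_lit 2969567298) (.two (nat_lit 4194305) (nat_lit 68158083) (.two (nat_lit 4194304) (nat_lit 156481094969) (.one (nat_lit 10016001567) .nil)))),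
   .two (nat_lit 620757000) (nat_lit 20644364353) (.two (nat_lit 41943041) (nat_lit 9948889283) (.two (nat_lit 16777216) (nat_lit 1786774916) (.one (nat_lit 21827160592) .nil))),
   .two (nat_lit 9948889096) (nat_lit 3458203663) (.two (nat_lit 9881780229) (nat_lit 2316304451) (.two (nat_lit 2097153) (nat_lit 11492393597) (.two (nat_lit 2097152) (nat_lit 9933161785) (.one (nat_lit 12617518591) .nil)))),
   .two (nat_lit 713031688) (nat_lit 20704133186) (.two (nat_lit 605028353) (nat_lit 343933123) (.two (nat_lit 1048576) (nat_lit 21785216341) (.one (nat_lit 1052378) .nil))),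
   .two (nat_lit 3539992584) (nat_lit 166130089999) (.two (nat_lit 1913651205) (nat_lit 11611930743) (.two (nat_lit 9765388289) (nat_lit 37314626895) (.one (nat_lit 10538192581) .nil))),
   .two (nat_lit 1358954504) (nat_lit 12054429711) (.two (nat_lit 713031685) (nat_lit 117440707) (.two (nat_lit 8388608) (nat_lit 12163482960) (.one (nat_lit 1317014024) .nil))),
   .two (nat_lit 4194312) (nat_lit 713031695) (.two (nat_lit 47550824453) (nat_lit 46984593527) (.two (nat_lit 41943041) (nat_lit 2420114068) (.two (nat_lit 1048576) (nat_lit 46984594777) (.one (nat_lit 8392411) .nil)))),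
   .two (nat_lit 2969567240) (nat_lit 20638072847) (.two (nat_lit 2902458372) (nat_lit 2887778423) (.two (nat_lit 156364701697) (nat_lit 174686470772) (.two (nat_lit 1048576) (nat_lit 158177692173) .nil))),
   .two (nat_lit 8388616) (nat_lit 9934209039) (.two (nat_lit 176160773) (nat_lit 3558867011) (.two (nat_lit 2097153) (nat_lit 880804197) (.two (nat_lit 8388608) (nat_lit 840959280) (.one (nat_lit 8392412) .nil)))),
   .two (nat_lit 705691656) (nat_lit 1178599448) (.two (nat_lit 2956984325) (nat_lit 3558867011) (.two (nat_lit 4194305) (nat_lit 28691136874) (.two (nat_lit 1048576) (nat_lit 166232851823) (.one (nat_lit 1052381) .nil)))),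
   .two (nat_lit 21785214984) (nat_lit 1846542351) (.two (nat_lit 28757196805) (nat_lit 28093448302) (.two (nat_lit 9765388289) (nat_lit 20644364894) (.two (nat_lit 1048576) (nat_lit 20644365602) (.one (nat_lit 8392414) .nil)))),
   .two (nat_lit 11551113224) (nat_lit 9866051599) (.two (nat_lit 11484004357) (nat_lit 21207449729) (.two (nat_lit 605028353) (nat_lit 156472705733) (.two (nat_lit 2097152) (nat_lit 2424309061) (.one (nat_lit 1052383) .nil)))),
   .two (nat_lit 813694984) (nat_lit 2416967721) (.two (nat_lit 12121538565) (nat_lit 156465365057) (.two (nat_lit 605028353) (nat_lit 13228835465) (.two (nat_lit 2097152) (nat_lit 638585003) (.one (nat_lit 1052384) .nil)))),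
   .two (nat_lit 50331656) (nat_lit 10369368106) (.two (nat_lit 16777220) (nat_lit 185020186745) (.two (nat_lit 8388609) (nat_lit 28086109026) (.one (nat_lit 184416209416) .nil))),
   .two (nat_lit 654311432) (nat_lit 174753579023) (.two (nat_lit 20638072836) (nat_lit 10385096817) (.two (nat_lit 606076929) (nat_lit 9881781542) (.one (nat_lit 184431938083) .nil))),
   .two (nat_lit 1291845640) (nat_lit 13191086095) (.two (nat_lit 4194308) (nat_lit 1291845989) (.two (nat_lit 4194304) (nat_lit 318768441) (.one (nat_lit 3024095791) .nil))),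
   .two (nat_lit 2889875464) (nat_lit 183861510263) (.two (nat_lit 620756993) (nat_lit 159253529246) (.two (nat_lit 16777216) (nat_lit 4196543) (.one (nat_lit 2332036542) .nil))),
   .two (nat_lit 184549384) (nat_lit 10506731535) (.two (nat_lit 16777221) (nat_lit 19029557315) (.two (nat_lit 16777217) (nat_lit 46477082819) (.two (nat_lit 1048576) (nat_lit 339739955) (.one (nat_lit 150998520) .nil)))),
   .two (nat_lit 46978301960) (nat_lit 10015997976) (.two (nat_lit 117440517) (nat_lit 165526110343) (.two (nat_lit 156367847425) (nat_lit 10940842612) (.two (nat_lit 4194304) (nat_lit 9867101529) (.one (nat_lit 2100963) .nil)))),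
   .two (nat_lit 822083592) (nat_lit 101711887) (.two (nat_lit 11492392965) (nat_lit 157035790454) (.two (nat_lit 16777217) (nat_lit 10906239619) (.two (nat_lit 16777216) (nat_lit 9765389666) (.one (nat_lit 11477716531) .nil)))),
   .two (nat_lit 2889875464) (nat_lit 1745879055) (.two (nat_lit 2889875460) (nat_lit 11577327683) (.two (nat_lit 9768534017) (nat_lit 11006903610) (.one (nat_lit 1052390) .nil))),
   .two (nat_lit 16777224) (nat_lit 46414168079) (.two (nat_lit 2969567237) (nat_lit 2954887300) (.two (nat_lit 8388609) (nat_lit 20638074179) (.one (nat_lit 166144773820) .nil))),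
   .two (nat_lit 12054429704) (nat_lit 19532873743) (.two (nat_lit 12121538565) (nat_lit 166132187250) (.two (nat_lit 156367847425) (nat_lit 11584667843) (.two (nat_lit 2097152) (nat_lit 46477085211) .nil))),
   .two (nat_lit 16777224) (nat_lit 2889875471) (.two (nat_lit 16777220) (nat_lit 2923429953) (.two (nat_lit 16777217) (nat_lit 1279263080) (.two (nat_lit 16777216) (nat_lit 174688568654) (.one (nat_lit 12620663304) .nil)))),
   .two (nat_lit 1343225864) (nat_lit 156533522472) (.two (nat_lit 705691652) (nat_lit 11511267454) (.two (nat_lit 605028353) (nat_lit 270533279) (.two (nat_lit 1048576) (nat_lit 156567078220) (.one (nat_lit 1052391) .nil)))),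
   .two (nat_lit 1175453704) (nat_lit 1344274457) (.two (nat_lit 2097157) (nat_lit 343932994) (.two (nat_lit 8388609) (nat_lit 606077579) (.two (nat_lit 1048576) (nat_lit 612370551) (.one (nat_lit 1052392) .nil)))),
   .two (nat_lit 809500680) (nat_lit 1291845647) (.two (nat_lit 4194308) (nat_lit 47596961912) (.two (nat_lit 620756993) (nat_lit 1212154214) (.two (nat_lit 16777216) (nat_lit 1212155166) (.one (nat_lit 4601154077) .nil)))),
   .two (nat_lit 16777224) (nat_lit 12114198552) (.two (nat_lit 806354949) (nat_lit 1291845756) (.two (nat_lit 16777217) (nat_lit 10504634726) (.two (nat_lit 2097152) (nat_lit 10015999299) (.one (nat_lit 9915338256) .nil)))),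
   .two (nat_lit 10343153672) (nat_lit 10504634383) (.two (nat_lit 2887778308) (nat_lit 156372041840) (.two (nat_lit 2097153) (nat_lit 310379914) (.one (nat_lit 8392425) .nil))),
   .two (nat_lit 2961178632) (nat_lit 20705181720) (.two (nat_lit 176160773) (nat_lit 156365750398) (.two (nat_lit 34603009) (nat_lit 3460301159) (.two (nat_lit 1048576) (nat_lit 4196552) (.one (nat_lit 166232854028) .nil)))),
   .two (nat_lit 2416967693) (nat_lit 721420312) (.two (nat_lit 19596836869) (nat_lit 620757108) (.two (nat_lit 9765388289) (nat_lit 16778782) .nil)),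
   .two (nat_lit 183848927240) (nat_lit 28086108175) (.two (nat_lit 13191086085) (nat_lit 1846542456) (.two (nat_lit 37748737) (nat_lit 772800870) (.two (nat_lit 4194304) (nat_lit 158143087950) (.one (nat_lit 174752533012) .nil)))),
   .two (nat_lit 176160776) (nat_lit 1277165583) (.two (nat_lit 8388613) (nat_lit 37314625656) (.two (nat_lit 8388609) (nat_lit 1210057063) (.two (nat_lit 8388608) (nat_lit 10437526862) (.one (nat_lit 11618225768) .nil)))),
   .two (nat_lit 8388616) (nat_lit 605028419) (.two (nat_lit 2097153) (nat_lit 2953838950) (.two (nat_lit 2097152) (nat_lit 166132189731) .nil)),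
   .two (nat_lit 20644364296) (nat_lit 1847590927) (.two (nat_lit 159224168453) (nat_lit 3525312632) (.two (nat_lit 9766436865) (nat_lit 158083318117) (.two (nat_lit 2097152) (nat_lit 21785216286) (.one (nat_lit 8392426) .nil)))),
   .two (nat_lit 75497480) (nat_lit 165528207406) (.two (nat_lit 713031684) (nat_lit 71303428) (.two (nat_lit 41943041) (nat_lit 4634706115) (.two (nat_lit 8388608) (nat_lit 21781022001) (.one (nat_lit 4198123) .nil)))),
   .two (nat_lit 68157448) (nat_lit 21778923545) (.two (nat_lit 605028357) (nat_lit 166197198968) (.two (nat_lit 2097153) (nat_lit 156367847782) (.two (nat_lit 1048576) (nat_lit 4196555) (.one (nat_lit 4198124) .nil)))),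
   .two (nat_lit 169869320) (nat_lit 721420303) (.two (nat_lit 50331653) (nat_lit 2418016375) (.two (nat_lit 34603009) (nat_lit 158647453004) (.one (nat_lit 2100973) .nil))),
   .two (nat_lit 276824072) (nat_lit 174753579023) (.two (nat_lit 8388612) (nat_lit 1310720121) (.two (nat_lit 34603009) (nat_lit 10538189428) (.two (nat_lit 1048576) (nat_lit 159257724249) (.one (nat_lit 2100975) .nil)))),
   .two (nat_lit 183953784845) (nat_lit 285212687) (.two (nat_lit 169869316) (nat_lit 46523220035) (.two (nat_lit 8388609) (nat_lit 37329306998) (.one (nat_lit 20753419947) .nil))),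
   .two (nat_lit 1276117000) (nat_lit 639631375) (.two (nat_lit 171966469) (nat_lit 2954887303) (.two (nat_lit 4194305) (nat_lit 158075979078) (.one (nat_lit 1410337318) .nil))),
   .two (nat_lit 169869320) (nat_lit 641728527) (.two (nat_lit 169869316) (nat_lit 1276117058) (.two (nat_lit 2097153) (nat_lit 1276117349) (.two (nat_lit 8388608) (nat_lit 46508541293) (.one (nat_lit 1176505784) .nil)))),
   .two (nat_lit 9934209032) (nat_lit 174685421610) (.two (nat_lit 169869316) (nat_lit 20704133241) (.two (nat_lit 16777217) (nat_lit 739246946) (.one (nat_lit 166130092560) .nil))),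
   .two (nat_lit 158176641037) (nat_lit 10506731545) (.two (nat_lit 9866051589) (nat_lit 3024093303) (.two (nat_lit 34603009) (nat_lit 9768535438) (.one (nat_lit 174755679867) .nil))),
   .two (nat_lit 101711880) (nat_lit 157038936079) (.two (nat_lit 11476664324) (nat_lit 46980399170) (.two (nat_lit 156367847425) (nat_lit 9798943082) (.two (nat_lit 4194304) (nat_lit 1050831) (.one (nat_lit 157038939849) .nil)))),
   .two (nat_lit 739246088) (nat_lit 10506731535) (.two (nat_lit 4194308) (nat_lit 135266429) (.two (nat_lit 4194305) (nat_lit 4027580776) (.two (nat_lit 4194304) (nat_lit 3020948879) (.one (nat_lit 157038938651) .nil)))),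
   .two (nat_lit 41943048) (nat_lit 9781116943) (.two (nat_lit 713031685) (nat_lit 20753416312) (.two (nat_lit 16777217) (nat_lit 13195280579) (.two (nat_lit 2097152) (nat_lit 9873392939) (.one (nat_lit 8392434) .nil)))),
   .two (nat_lit 185020186636) (nat_lit 28758245391) (.two (nat_lit 184986632197) (nat_lit 166230753392) (.two (nat_lit 34603009) (nat_lit 20738736995) (.one (nat_lit 20738737694) .nil))),
   .two (nat_lit 8388616) (nat_lit 11492393027) (.two (nat_lit 50331649) (nat_lit 10947133802) (.two (nat_lit 16777216) (nat_lit 1786775759) (.one (nat_lit 1786777001) .nil))),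
   .two (nat_lit 620757000) (nat_lit 165532401679) (.two (nat_lit 21785214981) (nat_lit 10906239088) (.two (nat_lit 605028353) (nat_lit 8389476) (.one (nat_lit 166211882736) .nil))),
   .two (nat_lit 9881780232) (nat_lit 4605345858) (.two (nat_lit 8388609) (nat_lit 159266112178) (.two (nat_lit 16777216) (nat_lit 3565159739) (.one (nat_lit 2927627854) .nil))),
   .two (nat_lit 1178599432) (nat_lit 21777874959) (.two (nat_lit 11479810052) (nat_lit 1779433592) (.two (nat_lit 34603009) (nat_lit 9802089761) (.one (nat_lit 708840967) .nil))),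
   .two (nat_lit 2954887176) (nat_lit 10000269338) (.two (nat_lit 638582789) (nat_lit 156567076997) (.two (nat_lit 2097153) (nat_lit 1846543026) (.two (nat_lit 8388608) (nat_lit 673188379) .nil))),
   .two (nat_lit 169869320) (nat_lit 165528207385) (.two (nat_lit 2097157) (nat_lit 71303299) (.two (nat_lit 606076929) (nat_lit 71303791) (.two (nat_lit 1048576) (nat_lit 2887780877) .nil))),
   .two (nat_lit 50331656) (nat_lit 157038936079) (.two (nat_lit 16777220) (nat_lit 4194550) (.two (nat_lit 4194305) (nat_lit 83887390) (.one (nat_lit 352324125) .nil))),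
   .two (nat_lit 2969567240) (nat_lit 9806282794) (.two (nat_lit 184549380) (nat_lit 10906239101) (.two (nat_lit 41943041) (nat_lit 3036677466) (.one (nat_lit 8392438) .nil))),
   .two (nat_lit 4194312) (nat_lit 8388623) (.two (nat_lit 4194308) (nat_lit 13221494919) (.two (nat_lit 4194305) (nat_lit 4605346491) (.two (nat_lit 4194304) (nat_lit 1309672763) (.one (nat_lit 8392440) .nil)))),
   .two (nat_lit 9766436872) (nat_lit 156968681496) (.two (nat_lit 1176502277) (nat_lit 11610882176) (.two (nat_lit 2097153) (nat_lit 1745880428) (.one (nat_lit 2100985) .nil))),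
   .two (nat_lit 606076936) (nat_lit 713031695) (.two (nat_lit 11546918917) (nat_lit 20644364413) (.two (nat_lit 612368385) (nat_lit 9934209219) (.two (nat_lit 4194304) (nat_lit 18926798134) (.one (nat_lit 21781023240) .nil)))),
   .two (nat_lit 50331656) (nat_lit 1753219087) (.two (nat_lit 183853121540) (nat_lit 11559501935) (.two (nat_lit 41943041) (nat_lit 9881781539) (.one (nat_lit 16780873) .nil))),
   .two (nat_lit 754974728) (nat_lit 156968681487) (.two (nat_lit 157035790341) (nat_lit 47582281853) (.two (nat_lit 606076929) (nat_lit 1325401388) (.one (nat_lit 28772929189) .nil))),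
   .two (nat_lit 9781116936) (nat_lit 159224168463) (.two (nat_lit 176160772) (nat_lit 9881780289) (.two (nat_lit 8388609) (nat_lit 19109249748) (.two (nat_lit 16777216) (nat_lit 46514832698) (.one (nat_lit 1417677359) .nil)))),
   .two (nat_lit 606076936) (nat_lit 75497487) (.two (nat_lit 612368389) (nat_lit 1176502390) (.two (nat_lit 2097153) (nat_lit 2990539386) (.two (nat_lit 8388608) (nat_lit 2990540089) (.one (nat_lit 4198138) .nil)))),
   .two (nat_lit 2902458376) (nat_lit 10940841999) (.two (nat_lit 218103813) (nat_lit 174686470256) (.two (nat_lit 9766436865) (nat_lit 11492394274) (.one (nat_lit 318769692) .nil))),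
   .two (nat_lit 166130089992) (nat_lit 166144770093) (.two (nat_lit 16777221) (nat_lit 10370416772) (.two (nat_lit 16777217) (nat_lit 10907288220) (.two (nat_lit 16777216) (nat_lit 156466414924) (.one (nat_lit 2100987) .nil)))),
   .two (nat_lit 2902458376) (nat_lit 21777874959) (.two (nat_lit 2902458372) (nat_lit 184986632258) (.two (nat_lit 9781116929) (nat_lit 772801916) (.one (nat_lit 1052412) .nil))),
   .two (nat_lit 620757000) (nat_lit 10506731535) (.two (nat_lit 83886085) (nat_lit 157038936422) (.two (nat_lit 16777216) (nat_lit 157038937374) (.one (nat_lit 156535622173) .nil))),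
   .two (nat_lit 9781116936) (nat_lit 158083317809) (.two (nat_lit 2894069765) (nat_lit 47582281854) (.two (nat_lit 8388609) (nat_lit 1291846327) (.two (nat_lit 1048576) (nat_lit 9766438253) (.one (nat_lit 16781053) .nil)))),
   .two (nat_lit 809500680) (nat_lit 10336862232) (.two (nat_lit 50331653) (nat_lit 166230753400) (.two (nat_lit 2097153) (nat_lit 3024093880) (.two (nat_lit 16777216) (nat_lit 156969731417) (.one (nat_lit 12048140819) .nil)))),
   .two (nat_lit 12117344264) (nat_lit 10343153679) (.two (nat_lit 11479810052) (nat_lit 10007609469) (.two (nat_lit 37748737) (nat_lit 13228835177) (.two (nat_lit 4194304) (nat_lit 21214790988) (.one (nat_lit 47550828003) .nil)))),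
   .two (nat_lit 620757000) (nat_lit 10506731535) (.two (nat_lit 83886085) (nat_lit 3527409730) (.two (nat_lit 16777217) (nat_lit 9969862011) (.one (nat_lit 4198142) .nil))),
   .two (nat_lit 272629768) (nat_lit 184416206863) (.two (nat_lit 2889875461) (nat_lit 772800869) (.two (nat_lit 4194304) (nat_lit 11577328926) (.one (nat_lit 1052415) .nil))),
   .two (nat_lit 1291845640) (nat_lit 135266344) (.two (nat_lit 654311429) (nat_lit 9899606082) (.two (nat_lit 605028353) (nat_lit 158091707699) (.one (nat_lit 21223180847) .nil))),
   .two (nat_lit 16777224) (nat_lit 10343153679) (.two (nat_lit 16777220) (nat_lit 11517558904) (.two (nat_lit 8388609) (nat_lit 10385098013) (.one (nat_lit 117444072) .nil))),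
   .two (nat_lit 713031688) (nat_lit 117440527) (.two (nat_lit 822083589) (nat_lit 184993972290) (.two (nat_lit 50331649) (nat_lit 184993972419) (.two (nat_lit 16777216) (nat_lit 9906947466) (.one (nat_lit 8392449) .nil)))),
   .two (nat_lit 158144135176) (nat_lit 166132187151) (.two (nat_lit 1277165572) (nat_lit 28693233778) (.two (nat_lit 606076929) (nat_lit 37749097) (.two (nat_lit 2097152) (nat_lit 19029558588) (.one (nat_lit 4198146) .nil)))),
   .two (nat_lit 4194312) (nat_lit 620757007) (.two (nat_lit 4194308) (nat_lit 3557818493) (.two (nat_lit 4194305) (nat_lit 28101837461) (.two (nat_lit 1048576) (nat_lit 3560965427) (.one (nat_lit 10503588364) .nil)))),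
   .two (nat_lit 639631368) (nat_lit 4634705943) (.two (nat_lit 3525312517) (nat_lit 28760342656) (.two (nat_lit 4194305) (nat_lit 159251431619) (.two (nat_lit 4194304) (nat_lit 10940843401) (.one (nat_lit 12620664377) .nil)))),
   .two (nat_lit 4194312) (nat_lit 83886190) (.two (nat_lit 37748737) (nat_lit 12062819000) (.two (nat_lit 1048576) (nat_lit 11580474759) (.one (nat_lit 159219976723) .nil))),
   .two (nat_lit 705691656) (nat_lit 41943055) (.two (nat_lit 34603013) (nat_lit 165532401788) (.two (nat_lit 2097153) (nat_lit 880804488) (.two (nat_lit 2097152) (nat_lit 158653744473) (.one (nat_lit 645926583) .nil)))),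
   .two (nat_lit 2954887176) (nat_lit 641728646) (.two (nat_lit 2097153) (nat_lit 9802088643) (.two (nat_lit 2097152) (nat_lit 10540287294) (.one (nat_lit 28087159319) .nil))),
   .two (nat_lit 4194312) (nat_lit 156365750296) (.two (nat_lit 272629765) (nat_lit 13187940468) (.two (nat_lit 4194305) (nat_lit 28086108795) (.two (nat_lit 1048576) (nat_lit 46477084040) (.one (nat_lit 4198147) .nil)))),
   .two (nat_lit 2889875464) (nat_lit 639631375) (.two (nat_lit 2954887173) (nat_lit 174688567416) (.two (nat_lit 2097153) (nat_lit 28089254247) (.two (nat_lit 2097152) (nat_lit 4030727502) (.one (nat_lit 20707282600) .nil)))),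
   .two (nat_lit 272629768) (nat_lit 10939793423) (.two (nat_lit 4194308) (nat_lit 10436476994) (.two (nat_lit 37748737) (nat_lit 3557819771) (.one (nat_lit 12114202364) .nil))),
   .two (nat_lit 184986632200) (nat_lit 18928893967) (.two (nat_lit 9765388293) (nat_lit 4601151552) (.two (nat_lit 8388609) (nat_lit 13191087646) .nil)),
   .two (nat_lit 11559501832) (nat_lit 28086108175) (.two (nat_lit 1745879045) (nat_lit 721420402) (.two (nat_lit 605028353) (nat_lit 185035916604) (.one (nat_lit 16781061) .nil))),
   .two (nat_lit 11479810056) (nat_lit 10906239000) (.two (nat_lit 11479810052) (nat_lit 11476664439) (.two (nat_lit 605028353) (nat_lit 10942939846) (.two (nat_lit 1048576) (nat_lit 4030727488) (.one (nat_lit 19529730574) .nil)))),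
   .two (nat_lit 46978301960) (nat_lit 18933088271) (.two (nat_lit 41943045) (nat_lit 9766436986) (.two (nat_lit 41943041) (nat_lit 37314626237) (.two (nat_lit 8388608) (nat_lit 166130091344) (.one (nat_lit 8391176) .nil)))),
   .two (nat_lit 1916796941) (nat_lit 159251431448) (.two (nat_lit 169869316) (nat_lit 1916797043) (.two (nat_lit 2097153) (nat_lit 183949591134) (.two (nat_lit 2097152) (nat_lit 4196576) (.one (nat_lit 4198151) .nil)))),
   .two (nat_lit 713031688) (nat_lit 9781116943) (.two (nat_lit 713031684) (nat_lit 183962173550) (.two (nat_lit 16777217) (nat_lit 20745027943) (.two (nat_lit 2097152) (nat_lit 159257724206) (.one (nat_lit 35655114) .nil)))),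
   .two (nat_lit 8388616) (nat_lit 654311439) (.two (nat_lit 10385096709) (nat_lit 343933040) (.two (nat_lit 16777217) (nat_lit 3464495970) (.one (nat_lit 158653745681) .nil))),
   .two (nat_lit 2902458376) (nat_lit 183912890392) (.two (nat_lit 285212677) (nat_lit 1276117249) (.two (nat_lit 16777217) (nat_lit 3020947816) (.two (nat_lit 16777216) (nat_lit 12047091004) (.one (nat_lit 1052315) .nil)))),
   .two (nat_lit 50331656) (nat_lit 9867100175) (.two (nat_lit 16777220) (nat_lit 21812478065) (.two (nat_lit 16777217) (nat_lit 10336863600) (.one (nat_lit 16781066) .nil))),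
   .two (nat_lit 75497480) (nat_lit 739246095) (.two (nat_lit 713031684) (nat_lit 12147753025) (.two (nat_lit 34603009) (nat_lit 612368579) (.two (nat_lit 4194304) (nat_lit 158143089160) .nil))),
   .two (nat_lit 184419352584) (nat_lit 21207449615) (.two (nat_lit 158143086597) (nat_lit 9802088564) (.two (nat_lit 156364701697) (nat_lit 306185511) (.one (nat_lit 19130223123) .nil))),
   .two (nat_lit 2889875464) (nat_lit 639631375) (.two (nat_lit 2887778308) (nat_lit 46510637121) (.two (nat_lit 156367847425) (nat_lit 11578377555) (.one (nat_lit 11618225923) .nil))),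
   .two (nat_lit 21214789640) (nat_lit 721420303) (.two (nat_lit 9881780229) (nat_lit 19599982713) (.two (nat_lit 612368385) (nat_lit 12117345615) (.one (nat_lit 2353008245) .nil))),
   .two (nat_lit 654311436) (nat_lit 1317011481) (.two (nat_lit 9781116933) (nat_lit 713031800) (.two (nat_lit 50331649) (nat_lit 9772729648) (.one (nat_lit 37320920694) .nil))),
   .two (nat_lit 9948889096) (nat_lit 10336862223) (.two (nat_lit 46407876612) (nat_lit 620757104) (.two (nat_lit 2097153) (nat_lit 620758557) .nil)),
   .two (nat_lit 169869320) (nat_lit 156367847448) (.two (nat_lit 270532613) (nat_lit 156367847534) (.two (nat_lit 620756993) (nat_lit 46977253737) (.two (nat_lit 16777216) (nat_lit 10001318755) (.one (nat_lit 873467581) .nil)))),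
   .two (nat_lit 8388616) (nat_lit 4030726168) (.two (nat_lit 8388612) (nat_lit 46477082733) (.two (nat_lit 41943041) (nat_lit 158143086949) (.two (nat_lit 1048576) (nat_lit 75498831) (.one (nat_lit 184989781631) .nil)))),
   .two (nat_lit 612368392) (nat_lit 654311439) (.two (nat_lit 713031685) (nat_lit 1962934404) (.two (nat_lit 16777217) (nat_lit 159224168643) (.two (nat_lit 16777216) (nat_lit 156573369652) (.one (nat_lit 4613736974) .nil)))),
   .two (nat_lit 2889875464) (nat_lit 9948889103) (.two (nat_lit 184549380) (nat_lit 3527409778) (.two (nat_lit 16777217) (nat_lit 13191087433) (.one (nat_lit 4198158) .nil))),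
   .two (nat_lit 9934209032) (nat_lit 3527409679) (.two (nat_lit 169869316) (nat_lit 46510637170) (.two (nat_lit 2097153) (nat_lit 156569175582) .nil)),
   .two (nat_lit 16777224) (nat_lit 1343225871) (.two (nat_lit 184549381) (nat_lit 166229704837) (.two (nat_lit 16777217) (nat_lit 10000269983) (.two (nat_lit 16777216) (nat_lit 2316305788) (.one (nat_lit 158075981573) .nil)))),
   .two (nat_lit 11543773192) (nat_lit 1178599439) (.two (nat_lit 2889875460) (nat_lit 12047089793) (.two (nat_lit 34603009) (nat_lit 4634706115) (.two (nat_lit 1048576) (nat_lit 2353005874) (.one (nat_lit 183848929808) .nil)))),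
   .two (nat_lit 2902458376) (nat_lit 9766436879) (.two (nat_lit 285212677) (nat_lit 11578376311) (.two (nat_lit 2097153) (nat_lit 156481094306) (.two (nat_lit 2097152) (nat_lit 20652754307) (.one (nat_lit 8392464) .nil)))),
   .two (nat_lit 46978301960) (nat_lit 183848927247) (.two (nat_lit 183848927236) (nat_lit 2988441713) (.two (nat_lit 37748737) (nat_lit 11477713256) (.two (nat_lit 4194304) (nat_lit 10504635721) (.one (nat_lit 10336865706) .nil)))),
   .two (nat_lit 606076936) (nat_lit 10335813657) (.two (nat_lit 69206021) (nat_lit 1048707) (.two (nat_lit 2097153) (nat_lit 1049199) (.two (nat_lit 2097152) (nat_lit 672138594) (.one (nat_lit 740298347) .nil)))),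
   .two (nat_lit 612368392) (nat_lit 47582281751) (.two (nat_lit 3458203653) (nat_lit 209715330) (.two (nat_lit 8388609) (nat_lit 20738736768) (.two (nat_lit 8388608) (nat_lit 2099436) (.one (nat_lit 10376711632) .nil)))),
   .two (nat_lit 612368392) (nat_lit 10504634383) (.two (nat_lit 176160772) (nat_lit 10538188912) (.two (nat_lit 2097153) (nat_lit 343934494) .nil)),
   .two (nat_lit 41943048) (nat_lit 10000269352) (.two (nat_lit 8388612) (nat_lit 772800648) (.two (nat_lit 2097153) (nat_lit 1343226965) (.two (nat_lit 1048576) (nat_lit 2099437) (.one (nat_lit 10940845621) .nil)))),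
   .two (nat_lit 21811429388) (nat_lit 10504634383) (.two (nat_lit 21777874949) (nat_lit 10001318010) (.two (nat_lit 605028353) (nat_lit 9900654953) (.two (nat_lit 1048576) (nat_lit 46508541260) (.one (nat_lit 2887781849) .nil)))),
   .two (nat_lit 11543773192) (nat_lit 158144135183) (.two (nat_lit 705691652) (nat_lit 28087156869) (.two (nat_lit 34603009) (nat_lit 46407876969) (.two (nat_lit 1048576) (nat_lit 13188990256) (.one (nat_lit 9799995035) .nil)))),
   .two (nat_lit 272629768) (nat_lit 639631375) (.two (nat_lit 2889875461) (nat_lit 3558867010) (.two (nat_lit 2097153) (nat_lit 12620661437) (.two (nat_lit 4194304) (nat_lit 10370418049) (.one (nat_lit 3458206224) .nil)))),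
   .two (nat_lit 10336862216) (nat_lit 10369368106) (.two (nat_lit 638582789) (nat_lit 236978242) (.two (nat_lit 8388609) (nat_lit 158143088002) (.one (nat_lit 2101015) .nil))),
   .two (nat_lit 37748744) (nat_lit 156364701721) (.two (nat_lit 2956984325) (nat_lit 3458203715) (.two (nat_lit 2097153) (nat_lit 156465366092) (.two (nat_lit 4194304) (nat_lit 9798944098) (.one (nat_lit 4198168) .nil)))),
   .two (nat_lit 68157448) (nat_lit 166237044780) (.two (nat_lit 8388613) (nat_lit 4027580535) (.two (nat_lit 8388609) (nat_lit 174752531856) (.one (nat_lit 174685425268) .nil))),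
   .two (nat_lit 721420296) (nat_lit 158075977743) (.two (nat_lit 721420292) (nat_lit 21777875011) (.two (nat_lit 41943041) (nat_lit 10015999518) .nil)),
   .two (nat_lit 705691656) (nat_lit 285212738) (.two (nat_lit 2097153) (nat_lit 37329305959) (.two (nat_lit 2097152) (nat_lit 174768260470) (.one (nat_lit 2101021) .nil))),
   .two (nat_lit 46414168072) (nat_lit 19027460120) (.two (nat_lit 28758245381) (nat_lit 4605345859) (.two (nat_lit 156365750273) (nat_lit 1384121673) (.one (nat_lit 8392480) .nil))),
   .two (nat_lit 13195280392) (nat_lit 2889875471) (.two (nat_lit 183853121540) (nat_lit 12050235511) (.two (nat_lit 9781116929) (nat_lit 2420114819) (.one (nat_lit 239077901) .nil))),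
   .two (nat_lit 11492392968) (nat_lit 156465365016) (.two (nat_lit 117440517) (nat_lit 34603136) (.two (nat_lit 9765388289) (nat_lit 9781117123) (.two (nat_lit 1048576) (nat_lit 1358955913) (.one (nat_lit 11510222399) .nil)))),
   .two (nat_lit 184549384) (nat_lit 165532401679) (.two (nat_lit 10343153669) (nat_lit 9966715015) (.two (nat_lit 605028353) (nat_lit 2969567427) (.two (nat_lit 1048576) (nat_lit 156581758285) (.one (nat_lit 1191186163) .nil)))),
   .two (nat_lit 203423752) (nat_lit 37313576984) (.two (nat_lit 20637024260) (nat_lit 3558867056) (.two (nat_lit 9766436865) (nat_lit 1947206954) (.one (nat_lit 28790754960) .nil))),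
   .two (nat_lit 8388616) (nat_lit 174685421609) (.two (nat_lit 9781116933) (nat_lit 8388887) (.two (nat_lit 4194305) (nat_lit 3524264294) (.two (nat_lit 4194304) (nat_lit 176162987) (.one (nat_lit 9873395424) .nil)))),
   .two (nat_lit 9866051592) (nat_lit 639631375) (.two (nat_lit 1343225861) (nat_lit 19530776696) (.two (nat_lit 605028353) (nat_lit 1746927975) (.two (nat_lit 1048576) (nat_lit 46978303310) (.one (nat_lit 1948256810) .nil)))),
   .two (nat_lit 639631368) (nat_lit 28093448207) (.two (nat_lit 2887778308) (nat_lit 46514831719) (.two (nat_lit 2097152) (nat_lit 166136382769) (.one (nat_lit 8392484) .nil))),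
   .two (nat_lit 16777224) (nat_lit 156535619628) (.two (nat_lit 16777220) (nat_lit 2923429953) (.two (nat_lit 4194305) (nat_lit 352321731) (.two (nat_lit 1048576) (nat_lit 12620663304) .nil))),
   .two (nat_lit 1343225864) (nat_lit 165526110223) (.two (nat_lit 1343225861) (nat_lit 4599054466) (.two (nat_lit 605028353) (nat_lit 673185987) (.two (nat_lit 2097152) (nat_lit 1050880) (.one (nat_lit 236981988) .nil)))),
   .two (nat_lit 169869320) (nat_lit 75497487) (.two (nat_lit 270532613) (nat_lit 183949590594) (.two (nat_lit 34603009) (nat_lit 9969860969) (.two (nat_lit 1048576) (nat_lit 12117346412) (.one (nat_lit 4198182) .nil)))),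
   .two (nat_lit 11543773192) (nat_lit 28758245391) (.two (nat_lit 158075977733) (nat_lit 20738736194) (.two (nat_lit 34603009) (nat_lit 2921333370) (.two (nat_lit 1048576) (nat_lit 184987682100) (.one (nat_lit 1410338299) .nil)))),
   .two (nat_lit 739246088) (nat_lit 166130090007) (.two (nat_lit 11543773189) (nat_lit 3021996160) (.two (nat_lit 2097153) (nat_lit 9806283473) (.two (nat_lit 1048576) (nat_lit 46514833515) (.one (nat_lit 166196154101) .nil)))),
   .two (nat_lit 169869320) (nat_lit 620757007) (.two (nat_lit 169869316) (nat_lit 46507491447) (.two (nat_lit 2097153) (nat_lit 638584195) (.one (nat_lit 1052457) .nil))),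
   .two (nat_lit 21777874952) (nat_lit 28691136554) (.two (nat_lit 705691652) (nat_lit 4028629113) (.two (nat_lit 41943041) (nat_lit 158143088002) (.one (nat_lit 1052458) .nil))),
   .two (nat_lit 1277165576) (nat_lit 3464495119) (.two (nat_lit 9934209029) (nat_lit 47555018819) (.two (nat_lit 156372041729) (nat_lit 9900654794) (.two (nat_lit 2097152) (nat_lit 8389502) (.one (nat_lit 706744107) .nil)))),
   .two (nat_lit 873463818) (nat_lit 1358954511) (.two (nat_lit 721420296) (nat_lit 20704133141) (.two (nat_lit 28757196805) (nat_lit 46992982143) (.two (nat_lit 9765388289) (nat_lit 50331857) (.two (nat_lit 1048576) (nat_lit 16778671) (.one (nat_lit 2936016689) .nil))))),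
   .two (nat_lit 9881780232) (nat_lit 10504634383) (.two (nat_lit 2887778308) (nat_lit 3003121984) (.two (nat_lit 2097153) (nat_lit 12062819536) (.two (nat_lit 2097152) (nat_lit 47596962689) (.one (nat_lit 16781133) .nil)))),
   .two (nat_lit 174701150218) (nat_lit 639631375) (.two (nat_lit 639631367) (nat_lit 19142803478) (.two (nat_lit 9881780229) (nat_lit 3558867058) (.two (nat_lit 50331649) (nat_lit 1377829063) (.two (nat_lit 16777216) (nat_lit 2098609) (.one (nat_lit 2101070) .nil))))),
   .two (nat_lit 806354950) (nat_lit 28093448232) (.two (nat_lit 1913651208) (nat_lit 1384120341) (.two (nat_lit 11476664324) (nat_lit 28093448307) (.two (nat_lit 34603009) (nat_lit 184993972837) (.two (nat_lit 1048576) (nat_lit 4605347875) (.one (nat_lit 343936450) .nil))))),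
   .two (nat_lit 184416206856) (nat_lit 1847590927) (.two (nat_lit 12114198533) (nat_lit 337641599) (.two (nat_lit 156364701697) (nat_lit 11477713559) (.two (nat_lit 1048576) (nat_lit 807405822) (.one (nat_lit 2099840) .nil)))),
   .two (nat_lit 713031688) (nat_lit 620757016) (.two (nat_lit 184549380) (nat_lit 184993972338) (.two (nat_lit 16777217) (nat_lit 10510926020) (.two (nat_lit 8388608) (nat_lit 46422557154) (.one (nat_lit 158653745753) .nil)))),
   .two (nat_lit 1276117000) (nat_lit 174753579023) (.two (nat_lit 9933160453) (nat_lit 174753579076) (.two (nat_lit 9933160453) (nat_lit 270532677) (.two (nat_lit 156365750273) (nat_lit 675283608) (.two (nat_lit 1048576) (nat_lit 4196951) (.one (nat_lit 4196951) .nil))))),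
   .two (nat_lit 2889875464) (nat_lit 184416206863) (.two (nat_lit 272629765) (nat_lit 166229704832) (.two (nat_lit 16777217) (nat_lit 2920284520) (.two (nat_lit 16777216) (nat_lit 174685422894) (.one (nat_lit 1051266) .nil)))),
   .two (nat_lit 809500680) (nat_lit 10504634383) (.two (nat_lit 4194308) (nat_lit 19027460209) (.two (nat_lit 4194305) (nat_lit 19027460708) (.two (nat_lit 4194304) (nat_lit 18926798193) (.one (nat_lit 3525316407) .nil)))),
   .two (nat_lit 174701150218) (nat_lit 1753219087) (.two (nat_lit 183853121544) (nat_lit 28806479893) (.two (nat_lit 50331653) (nat_lit 12054429810) (.two (nat_lit 41943041) (nat_lit 3472883911) (.two (nat_lit 8388608) (nat_lit 166245433808) (.one (nat_lit 8392709) .nil))))),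
   .two (nat_lit 169869320) (nat_lit 10506731535) (.two (nat_lit 2097157) (nat_lit 166132187249) (.two (nat_lit 2097153) (nat_lit 166132187748) (.two (nat_lit 1048576) (nat_lit 165528208753) (.one (nat_lit 1175457579) .nil)))),
   .two (nat_lit 813694984) (nat_lit 37249613845) (.two (nat_lit 28693233669) (nat_lit 3565158541) (.two (nat_lit 8388612) (nat_lit 37249613845) (.two (nat_lit 2097153) (nat_lit 8389379) (.two (nat_lit 4194304) (nat_lit 3525312740) (.one (nat_lit 4198408) .nil))))),
   .two (nat_lit 156465365005) (nat_lit 337641521) (.two (nat_lit 28690087941) (nat_lit 158647451777) (.two (nat_lit 34603009) (nat_lit 2098427) (.two (nat_lit 2097152) (nat_lit 1050036) (.one (nat_lit 1052486) .nil)))),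
   .two (nat_lit 1358954504) (nat_lit 639631375) (.two (nat_lit 18926796805) (nat_lit 2923430013) (.two (nat_lit 50331649) (nat_lit 4195080) (.two (nat_lit 16777216) (nat_lit 4196794) (.one (nat_lit 4198226) .nil)))),
   .two (nat_lit 166144770058) (nat_lit 639631375) (.two (nat_lit 158143086599) (nat_lit 639631375) (.two (nat_lit 620756997) (nat_lit 739246195) (.two (nat_lit 50331649) (nat_lit 2987394084) (.two (nat_lit 16777216) (nat_lit 1344274890) (.one (nat_lit 1052499) .nil))))),
   .two (nat_lit 156367847431) (nat_lit 1310720030) (.two (nat_lit 156367847427) (nat_lit 807403664) (.two (nat_lit 156367847425) (nat_lit 21812477991) (.two (nat_lit 4194304) (nat_lit 2098613) (.one (nat_lit 2098793) .nil)))),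
   .two (nat_lit 1291845640) (nat_lit 13191086095) (.two (nat_lit 4194308) (nat_lit 11022630985) (.two (nat_lit 117440517) (nat_lit 4601151524) (.two (nat_lit 9781116929) (nat_lit 9802088643) (.two (nat_lit 16777216) (nat_lit 4194777) (.one (nat_lit 4198228) .nil))))),
   .two (nat_lit 4605345799) (nat_lit 19096666140) (.two (nat_lit 20638072835) (nat_lit 2927624398) (.two (nat_lit 606076929) (nat_lit 2927624398) (.two (nat_lit 2097152) (nat_lit 8391102) (.one (nat_lit 8391302) .nil)))),
   .two (nat_lit 9768534023) (nat_lit 3558866968) (.two (nat_lit 9768534019) (nat_lit 10538188868) (.two (nat_lit 9768534017) (nat_lit 1377828903) (.two (nat_lit 4194304) (nat_lit 1310720998) (.one (nat_lit 1310720998) .nil)))),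
   .two (nat_lit 41943048) (nat_lit 101711923) (.two (nat_lit 4194311) (nat_lit 4605345807) (.two (nat_lit 159216828421) (nat_lit 343933042) (.two (nat_lit 4194305) (nat_lit 209715828) (.two (nat_lit 4194304) (nat_lit 8390070) (.one (nat_lit 8392534) .nil))))),
   .two (nat_lit 9768534024) (nat_lit 117440527) (.two (nat_lit 2889875460) (nat_lit 159232557184) (.two (nat_lit 4194305) (nat_lit 9772728679) (.two (nat_lit 4194304) (nat_lit 8389512) (.one (nat_lit 8392535) .nil)))),
   .two (nat_lit 218103817) (nat_lit 75497487) (.two (nat_lit 20644364296) (nat_lit 20705181717) (.two (nat_lit 822083589) (nat_lit 1417674864) (.two (nat_lit 9766436865) (nat_lit 4034921072) (.two (nat_lit 2097152) (nat_lit 8390071) (.one (nat_lit 2099848) .nil))))),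
   .two (nat_lit 639631368) (nat_lit 166132187151) (.two (nat_lit 2887778308) (nat_lit 10506731587) (.two (nat_lit 2097153) (nat_lit 1950351456) (.two (nat_lit 4194304) (nat_lit 18926797680) (.one (nat_lit 11010051896) .nil)))),
   .two (nat_lit 2961178632) (nat_lit 185035915289) (.two (nat_lit 713031684) (nat_lit 9798942857) (.two (nat_lit 9765388289) (nat_lit 1920991962) (.two (nat_lit 1048576) (nat_lit 3036676976) (.one (nat_lit 13221498437) .nil)))),
   .two (nat_lit 336592906) (nat_lit 28693233679) (.two (nat_lit 28757196805) (nat_lit 1916797044) (.two (nat_lit 9765388289) (nat_lit 12117344872) (.two (nat_lit 1048576) (nat_lit 165528208776) (.one (nat_lit 4197005) .nil)))),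
   .two (nat_lit 4194312) (nat_lit 158083317775) (.two (nat_lit 2097157) (nat_lit 20740833401) (.two (nat_lit 2097153) (nat_lit 21210595951) (.two (nat_lit 2097152) (nat_lit 713034043) (.one (nat_lit 1746931711) .nil)))),
   .two (nat_lit 50331656) (nat_lit 158083317775) (.two (nat_lit 16777220) (nat_lit 11618222201) (.two (nat_lit 8388609) (nat_lit 1962935002) (.two (nat_lit 1048576) (nat_lit 156976021968) (.one (nat_lit 16781144) .nil)))),
   .two (nat_lit 654311432) (nat_lit 28758245391) (.two (nat_lit 2902458372) (nat_lit 174753579045) (.two (nat_lit 2902458372) (nat_lit 158177689620) (.two (nat_lit 606076929) (nat_lit 822084741) (.two (nat_lit 1048576) (nat_lit 10437525729) (.one (nat_lit 16779919) .nil))))),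
   .two (nat_lit 2961178631) (nat_lit 117440527) (.two (nat_lit 176160771) (nat_lit 174701150280) (.two (nat_lit 9765388289) (nat_lit 10385096742) (.two (nat_lit 1048576) (nat_lit 16779711) (.one (nat_lit 8392537) .nil)))),
   .two (nat_lit 1048586) (nat_lit 11479810063) (.two (nat_lit 2961178631) (nat_lit 11479810063) (.two (nat_lit 10503585797) (nat_lit 13224640579) (.two (nat_lit 156364701697) (nat_lit 158079123816) (.two (nat_lit 1048576) (nat_lit 4195214) (.one (nat_lit 4197008) .nil))))),
   .two (nat_lit 9881780232) (nat_lit 46510637081) (.two (nat_lit 654311429) (nat_lit 21814575176) (.two (nat_lit 1291845636) (nat_lit 159219974520) (.two (nat_lit 605028353) (nat_lit 20640170360) (.two (nat_lit 1048576) (nat_lit 16779712) (.one (nat_lit 16781146) .nil))))),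
   .two (nat_lit 270532615) (nat_lit 9948889103) (.two (nat_lit 2097155) (nat_lit 156581757050) (.two (nat_lit 2097153) (nat_lit 9881780262) (.two (nat_lit 2097152) (nat_lit 822084476) (.one (nat_lit 1052507) .nil)))),
   .two (nat_lit 4194312) (nat_lit 28093448207) (.two (nat_lit 4194308) (nat_lit 11014242642) (.two (nat_lit 605028353) (nat_lit 158649549921) (.two (nat_lit 1048576) (nat_lit 156372042210) (.one (nat_lit 8392540) .nil)))),
   .two (nat_lit 4613734408) (nat_lit 612368399) (.two (nat_lit 822083589) (nat_lit 183953785080) (.two (nat_lit 50331649) (nat_lit 183953785452) (.two (nat_lit 1048576) (nat_lit 8390076) (.one (nat_lit 135268936) .nil)))),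
   .two (nat_lit 169869320) (nat_lit 1753219087) (.two (nat_lit 11543773189) (nat_lit 10437525619) (.two (nat_lit 2097153) (nat_lit 109051943) (.two (nat_lit 1048576) (nat_lit 9766437766) (.one (nat_lit 10335816308) .nil)))),
   .two (nat_lit 183848927240) (nat_lit 713031695) (.two (nat_lit 1358954501) (nat_lit 742391922) (.two (nat_lit 620756993) (nat_lit 3527410828) (.two (nat_lit 16777216) (nat_lit 4195774) (.one (nat_lit 16779927) .nil)))),
   .two (nat_lit 176160776) (nat_lit 1749024783) (.two (nat_lit 721420292) (nat_lit 9768534083) (.two (nat_lit 50331649) (nat_lit 159253529199) (.two (nat_lit 4194304) (nat_lit 8391107) (.one (nat_lit 183916040000) .nil)))),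
   .two (nat_lit 169869320) (nat_lit 19096666137) (.two (nat_lit 169869314) (nat_lit 183848927371) (.two (nat_lit 2097157) (nat_lit 1782579274) (.two (nat_lit 606076929) (nat_lit 9869198049) (.two (nat_lit 2097152) (nat_lit 168821626) (.one (nat_lit 1052510) .nil))))),
   .two (nat_lit 37748744) (nat_lit 318767128) (.two (nat_lit 4194308) (nat_lit 2921332847) (.two (nat_lit 4194305) (nat_lit 10015998622) (.two (nat_lit 4194304) (nat_lit 9814672781) (.one (nat_lit 16781152) .nil)))),
   .two (nat_lit 168820745) (nat_lit 1916796943) (.two (nat_lit 1916796935) (nat_lit 185020186645) (.two (nat_lit 1846542341) (nat_lit 12117344370) (.two (nat_lit 605028353) (nat_lit 47550824647) (.two (nat_lit 1048576) (nat_lit 11580474801) (.one (nat_lit 4198241) .nil))))),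
   .two (nat_lit 169869320) (nat_lit 754974735) (.two (nat_lit 34603013) (nat_lit 185035915331) (.two (nat_lit 34603009) (nat_lit 2954887926) (.two (nat_lit 1048576) (nat_lit 2098624) (.one (nat_lit 2101091) .nil)))),
   .two (nat_lit 9867100168) (nat_lit 10385096719) (.two (nat_lit 9781116933) (nat_lit 28089254024) (.two (nat_lit 37748737) (nat_lit 150995719) (.two (nat_lit 16777216) (nat_lit 4196805) (.one (nat_lit 4198244) .nil)))),
   .two (nat_lit 16777224) (nat_lit 1779433487) (.two (nat_lit 16777220) (nat_lit 13187940681) (.two (nat_lit 50331649) (nat_lit 19093521020) (.two (nat_lit 16777216) (nat_lit 1051078) (.one (nat_lit 4195960) .nil)))),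
   .two (nat_lit 174686470157) (nat_lit 306184217) (.two (nat_lit 46409973764) (nat_lit 10940842121) (.two (nat_lit 2097153) (nat_lit 21210595702) (.two (nat_lit 1048576) (nat_lit 47584379362) (.one (nat_lit 4198245) .nil)))),
   .two (nat_lit 184416206856) (nat_lit 3525312556) (.two (nat_lit 183845781508) (nat_lit 28758245491) (.two (nat_lit 156364701697) (nat_lit 28758245989) (.two (nat_lit 1048576) (nat_lit 2921333608) (.one (nat_lit 2099869) .nil)))),
   .two (nat_lit 4194312) (nat_lit 12054429711) (.two (nat_lit 4194308) (nat_lit 13228835154) (.two (nat_lit 8388609) (nat_lit 1312818308) (.two (nat_lit 1048576) (nat_lit 156367848321) (.one (nat_lit 4198212) .nil)))),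
   .two (nat_lit 1913651208) (nat_lit 2889875467) (.two (nat_lit 4194308) (nat_lit 34603490) (.two (nat_lit 4194308) (nat_lit 46473936918) (.two (nat_lit 4194305) (nat_lit 34603490) (.two (nat_lit 4194304) (nat_lit 34603490) (.one (nat_lit 1051295) .nil))))),
   .two (nat_lit 1276117000) (nat_lit 158144135208) (.two (nat_lit 9933160453) (nat_lit 158144135283) (.two (nat_lit 156365750273) (nat_lit 10909385064) (.two (nat_lit 2097152) (nat_lit 165528208259) (.one (nat_lit 339740241) .nil)))),
   .two (nat_lit 184549384) (nat_lit 183949590552) (.two (nat_lit 184549380) (nat_lit 183949590670) (.two (nat_lit 11479810052) (nat_lit 184549412) (.two (nat_lit 612368385) (nat_lit 21814575728) (.two (nat_lit 8388608) (nat_lit 4195219) (.one (nat_lit 4197024) .nil))))),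
   .two (nat_lit 12633243658) (nat_lit 272629775) (.two (nat_lit 218103813) (nat_lit 1849688183) (.two (nat_lit 16777217) (nat_lit 205520994) (.two (nat_lit 16777216) (nat_lit 2889875681) (.one (nat_lit 4197025) .nil)))),
   .two (nat_lit 3460300808) (nat_lit 28758245391) (.two (nat_lit 1277165572) (nat_lit 37316722820) (.two (nat_lit 605028353) (nat_lit 742392014) (.two (nat_lit 1048576) (nat_lit 4195221) (.one (nat_lit 4195962) .nil)))),
   .two (nat_lit 654311432) (nat_lit 156569174041) (.two (nat_lit 2902458372) (nat_lit 18928894074) (.two (nat_lit 16777217) (nat_lit 20745028212) (.two (nat_lit 4194304) (nat_lit 174701152672) (.one (nat_lit 8391331) .nil)))),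
   .two (nat_lit 28690087944) (nat_lit 12054429711) (.two (nat_lit 1913651205) (nat_lit 41943172) (.two (nat_lit 9765388289) (nat_lit 12054430448) (.two (nat_lit 1048576) (nat_lit 12624855940) (.one (nat_lit 1051254) .nil)))),
   .two (nat_lit 101711880) (nat_lit 174753579023) (.two (nat_lit 739246085) (nat_lit 28758245413) (.two (nat_lit 739246085) (nat_lit 1847590933) (.two (nat_lit 605028353) (nat_lit 1344275407) (.two (nat_lit 1048576) (nat_lit 1344275407) (.one (nat_lit 1052518) .nil))))),
   .two (nat_lit 721420296) (nat_lit 166129041432) (.two (nat_lit 1913651205) (nat_lit 11559501859) (.two (nat_lit 1913651205) (nat_lit 11559501843) (.two (nat_lit 9765388289) (nat_lit 3573547733) (.two (nat_lit 4194304) (nat_lit 638584172) (.one (nat_lit 1051303) .nil))))),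
   .two (nat_lit 176160776) (nat_lit 156969730063) (.two (nat_lit 721420290) (nat_lit 174686470264) (.two (nat_lit 8388613) (nat_lit 183913938981) (.two (nat_lit 620756993) (nat_lit 1317012073) (.two (nat_lit 16777216) (nat_lit 1377829759) (.one (nat_lit 2099881) .nil))))),
   .two (nat_lit 75497480) (nat_lit 47548727321) (.two (nat_lit 46407876612) (nat_lit 612368451) (.two (nat_lit 2097153) (nat_lit 13195280595) (.two (nat_lit 8388608) (nat_lit 337642936) (.one (nat_lit 2101096) .nil)))),
   .two (nat_lit 9899606029) (nat_lit 1344274477) (.two (nat_lit 157036838917) (nat_lit 2886729978) (.two (nat_lit 156365750273) (nat_lit 336593953) (.two (nat_lit 2097152) (nat_lit 1050052) (.one (nat_lit 1052521) .nil)))),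
   .two (nat_lit 739246085) (nat_lit 203423766) (.one (nat_lit 1052523) .nil),
   .two (nat_lit 101711877) (nat_lit 21785214997) (.one (nat_lit 46984594981) .nil),
   .two (nat_lit 41943048) (nat_lit 28693233685) (.two (nat_lit 183848927234) (nat_lit 8388691) (.two (nat_lit 8388612) (nat_lit 28693233685) (.two (nat_lit 156367847425) (nat_lit 8389386) (.two (nat_lit 4194304) (nat_lit 679478127) (.one (nat_lit 8392556) .nil))))),
   .two (nat_lit 10519314440) (nat_lit 21777874959) (.two (nat_lit 705691652) (nat_lit 1291845669) (.two (nat_lit 705691652) (nat_lit 3464495125) (.two (nat_lit 41943041) (nat_lit 1343226510) (.two (nat_lit 1048576) (nat_lit 218104289) (.one (nat_lit 16781165) .nil))))),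
   .two (nat_lit 654311431) (nat_lit 12047089679) (.two (nat_lit 705691651) (nat_lit 285212788) (.two (nat_lit 9768534017) (nat_lit 10335814260) (.two (nat_lit 4194304) (nat_lit 10436477803) (.one (nat_lit 10436478568) .nil)))),
   .two (nat_lit 174768259082) (nat_lit 75497487) (.two (nat_lit 612368391) (nat_lit 2350907416) (.two (nat_lit 183861510149) (nat_lit 184993972290) (.two (nat_lit 16777217) (nat_lit 21785215333) (.two (nat_lit 2097152) (nat_lit 11014242764) (.one (nat_lit 8391343) .nil))))),
   .two (nat_lit 1745879048) (nat_lit 28758245416) (.two (nat_lit 183845781508) (nat_lit 28758245491) (.two (nat_lit 156364701697) (nat_lit 28758245989) (.two (nat_lit 1048576) (nat_lit 2921333608) (.one (nat_lit 2101102) .nil)))),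
   .two (nat_lit 1358954508) (nat_lit 713031695) (.two (nat_lit 83886085) (nat_lit 184993972338) (.two (nat_lit 16777217) (nat_lit 174755676850) (.two (nat_lit 16777216) (nat_lit 8389484) (.one (nat_lit 4197041) .nil)))),
   .two (nat_lit 46984593416) (nat_lit 158144135183) (.two (nat_lit 638582789) (nat_lit 1847590979) (.two (nat_lit 605028353) (nat_lit 1344275122) (.two (nat_lit 1048576) (nat_lit 606077393) (.one (nat_lit 2101103) .nil)))),
   .two (nat_lit 184986632199) (nat_lit 165532401679) (.two (nat_lit 705691651) (nat_lit 10343153777) (.two (nat_lit 34603009) (nat_lit 9772728359) (.two (nat_lit 1048576) (nat_lit 13195280855) (.one (nat_lit 11618223062) .nil)))),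
   .two (nat_lit 176160776) (nat_lit 285212687) (.two (nat_lit 16777220) (nat_lit 343932995) (.two (nat_lit 8388609) (nat_lit 12129927541) (.two (nat_lit 2097152) (nat_lit 13228837179) (.one (nat_lit 8392560) .nil)))),
   .two (nat_lit 18925748232) (nat_lit 1847590927) (.two (nat_lit 16777220) (nat_lit 174686470265) (.two (nat_lit 16777217) (nat_lit 158647452378) (.two (nat_lit 1048576) (nat_lit 1780482935) (.one (nat_lit 16781169) .nil)))),
   .two (nat_lit 8388616) (nat_lit 10336862223) (.two (nat_lit 8388612) (nat_lit 159217877029) (.two (nat_lit 8388612) (nat_lit 1310720021) (.two (nat_lit 612368385) (nat_lit 2097366) (.two (nat_lit 2097152) (nat_lit 46984594326) (.one (nat_lit 47588577074) .nil))))),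
   .two (nat_lit 12117344264) (nat_lit 184549391) (.two (nat_lit 11479810052) (nat_lit 16777283) (.two (nat_lit 9768534017) (nat_lit 19545457000) (.two (nat_lit 16777216) (nat_lit 1782580080) (.one (nat_lit 47584381558) .nil)))),
   .two (nat_lit 1191182344) (nat_lit 158143086603) (.two (nat_lit 11492392964) (nat_lit 806355013) (.two (nat_lit 20637024260) (nat_lit 12163481620) (.two (nat_lit 605028353) (nat_lit 251658722) (.two (nat_lit 1048576) (nat_lit 251658722) (.one (nat_lit 16779958) .nil))))),
   .two (nat_lit 205520904) (nat_lit 157036838927) (.two (nat_lit 605028357) (nat_lit 3525312549) (.two (nat_lit 605028357) (nat_lit 166130090004) (.two (nat_lit 4194305) (nat_lit 13221494882) (.two (nat_lit 1048576) (nat_lit 9799991520) (.one (nat_lit 1052530) .nil))))),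
   .two (nat_lit 19093520396) (nat_lit 9881780239) (.two (nat_lit 101711877) (nat_lit 21827158083) (.two (nat_lit 605028353) (nat_lit 157051519336) (.two (nat_lit 1048576) (nat_lit 2432697779) (.one (nat_lit 11525950064) .nil)))),
   .two (nat_lit 2889875464) (nat_lit 174753579023) (.two (nat_lit 20638072836) (nat_lit 184989778047) (.two (nat_lit 156365750273) (nat_lit 1849688711) (.two (nat_lit 2097152) (nat_lit 1916798376) (.one (nat_lit 1948255206) .nil)))),
   .two (nat_lit 620757000) (nat_lit 101711887) (.two (nat_lit 184549380) (nat_lit 101711907) (.two (nat_lit 184549380) (nat_lit 806354962) (.two (nat_lit 16777217) (nat_lit 1175453791) (.two (nat_lit 16777216) (nat_lit 168820965) (.one (nat_lit 158158817893) .nil))))),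
   .two (nat_lit 156566028298) (nat_lit 9881780239) (.two (nat_lit 9881780232) (nat_lit 11577327637) (.two (nat_lit 21777874949) (nat_lit 1358954612) (.two (nat_lit 605028353) (nat_lit 1392509128) (.two (nat_lit 1048576) (nat_lit 16778698) (.one (nat_lit 16781172) .nil))))),
   .two (nat_lit 71303177) (nat_lit 620757007) (.two (nat_lit 620757000) (nat_lit 272629781) (.two (nat_lit 11479810050) (nat_lit 166211878984) (.two (nat_lit 809500677) (nat_lit 46422556746) (.two (nat_lit 16777217) (nat_lit 10338959571) (.two (nat_lit 4194304) (nat_lit 16778699) (.one (nat_lit 4198261) .nil)))))),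
   .two (nat_lit 184423546888) (nat_lit 10506731535) (.two (nat_lit 2889875460) (nat_lit 10947133572) (.two (nat_lit 2097153) (nat_lit 158183981684) (.two (nat_lit 2097152) (nat_lit 8389531) (.one (nat_lit 8392566) .nil)))),
   .two (nat_lit 68157448) (nat_lit 654311439) (.two (nat_lit 705691652) (nat_lit 687865980) (.two (nat_lit 4194305) (nat_lit 687866232) (.two (nat_lit 1048576) (nat_lit 4196809) (.one (nat_lit 1051323) .nil)))),
   .two (nat_lit 157035790346) (nat_lit 1847590927) (.two (nat_lit 1847590920) (nat_lit 47581233174) (.two (nat_lit 9866051589) (nat_lit 639631492) (.two (nat_lit 34603009) (nat_lit 11007951057) (.two (nat_lit 1048576) (nat_lit 4599055216) (.one (nat_lit 2101111) .nil))))),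
   .two (nat_lit 2954887175) (nat_lit 20745027629) (.two (nat_lit 169869315) (nat_lit 158183981356) (.two (nat_lit 2097153) (nat_lit 2961178662) (.two (nat_lit 2097152) (nat_lit 8390093) (.one (nat_lit 12148802533) .nil)))),
   .two (nat_lit 159216828422) (nat_lit 352321557) (.two (nat_lit 721420290) (nat_lit 11577327653) (.two (nat_lit 620756997) (nat_lit 12047089685) (.two (nat_lit 50331649) (nat_lit 159250383050) (.two (nat_lit 1048576) (nat_lit 9814671846) (.one (nat_lit 16781177) .nil))))),
   .two (nat_lit 4631560201) (nat_lit 28758245387) (.two (nat_lit 183845781506) (nat_lit 1377828941) (.two (nat_lit 12114198533) (nat_lit 19027460116) (.two (nat_lit 34603009) (nat_lit 11611930820) (.two (nat_lit 1048576) (nat_lit 1310720893) (.one (nat_lit 2101114) .nil))))),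
   .two (nat_lit 11492392968) (nat_lit 4030726168) (.two (nat_lit 605028357) (nat_lit 11492393025) (.two (nat_lit 4194305) (nat_lit 19545457559) (.two (nat_lit 1048576) (nat_lit 4634706402) (.one (nat_lit 4198267) .nil)))),
   .two (nat_lit 202375177) (nat_lit 158083317775) (.two (nat_lit 1779433477) (nat_lit 12054429733) (.two (nat_lit 1779433477) (nat_lit 9906946068) (.two (nat_lit 34603009) (nat_lit 156976021603) (.two (nat_lit 1048576) (nat_lit 37320917220) (.one (nat_lit 8392572) .nil))))),
   .two (nat_lit 18941476874) (nat_lit 176160779) (.two (nat_lit 1291845634) (nat_lit 9873391693) (.two (nat_lit 654311429) (nat_lit 343932948) (.two (nat_lit 620756993) (nat_lit 343933023) (.two (nat_lit 16777216) (nat_lit 9806283641) (.one (nat_lit 8392573) .nil))))),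
   .two (nat_lit 16777224) (nat_lit 11543773199) (.two (nat_lit 9881780229) (nat_lit 185020186732) (.two (nat_lit 9781116929) (nat_lit 4598006390) (.two (nat_lit 1048576) (nat_lit 16777709) (.one (nat_lit 1052543) .nil)))),
   .two (nat_lit 9766436872) (nat_lit 28693233679) (.two (nat_lit 2887778308) (nat_lit 1916797044) (.two (nat_lit 2097153) (nat_lit 158649549470) (.two (nat_lit 2097152) (nat_lit 1279265164) (.one (nat_lit 9806285429) .nil)))),
   .two (nat_lit 620757000) (nat_lit 270532633) (.two (nat_lit 620756997) (nat_lit 19597885583) (.two (nat_lit 16777221) (nat_lit 47582281746) (.two (nat_lit 9766436865) (nat_lit 16777996) (.two (nat_lit 2097152) (nat_lit 3539993494) (.one (nat_lit 16781184) .nil))))),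
   .two (nat_lit 9934209032) (nat_lit 183962173461) (.two (nat_lit 1191182341) (nat_lit 20738736244) (.two (nat_lit 16777217) (nat_lit 1847591370) (.two (nat_lit 16777216) (nat_lit 2097646) (.one (nat_lit 2101121) .nil)))),
   .two (nat_lit 16777223) (nat_lit 12054429711) (.two (nat_lit 16777219) (nat_lit 1317011578) (.two (nat_lit 9766436865) (nat_lit 158192370049) (.two (nat_lit 2097152) (nat_lit 16779725) (.one (nat_lit 16781186) .nil)))),
   .two (nat_lit 8388623) (nat_lit 605028419) (.two (nat_lit 4194308) (nat_lit 1175454053) (.two (nat_lit 2097153) (nat_lit 641729379) (.two (nat_lit 2097152) (nat_lit 205523458) (.one (nat_lit 2101126) .nil)))),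
   .two (nat_lit 272629775) (nat_lit 11476664335) (.two (nat_lit 2887778312) (nat_lit 272629824) (.two (nat_lit 2887778308) (nat_lit 272629955) (.two (nat_lit 2097153) (nat_lit 9768535582) (.one (nat_lit 11543777157) .nil)))),
   .two (nat_lit 4601151503) (nat_lit 2954887194) (.two (nat_lit 46407876616) (nat_lit 4601151552) (.two (nat_lit 46407876612) (nat_lit 4601151683) (.two (nat_lit 4194305) (nat_lit 166230754683) (.two (nat_lit 1048576) (nat_lit 159217878557) (.one (nat_lit 166229708695) .nil))))),
   .two (nat_lit 1929379855) (nat_lit 28693233729) (.two (nat_lit 713031684) (nat_lit 21827158211) (.two (nat_lit 4194305) (nat_lit 142607901) (.one (nat_lit 11484008338) .nil))),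
   .two (nat_lit 159232557071) (nat_lit 20644364354) (.two (nat_lit 184549380) (nat_lit 19134415207) (.two (nat_lit 4194305) (nat_lit 10913579874) (.two (nat_lit 4194304) (nat_lit 1182796292) (.one (nat_lit 708841369) .nil)))),
   .two (nat_lit 1929379855) (nat_lit 28693233679) (.two (nat_lit 1350565896) (nat_lit 11559501888) (.two (nat_lit 721420293) (nat_lit 1384120515) (.two (nat_lit 16777217) (nat_lit 2323645982) (.one (nat_lit 2889879447) .nil)))),
   .two (nat_lit 12054429711) (nat_lit 1749024783) (.two (nat_lit 21793603592) (nat_lit 11584667715) (.two (nat_lit 11479810053) (nat_lit 1962934467) (.two (nat_lit 4194305) (nat_lit 12163483166) (.one (nat_lit 10955526037) .nil)))),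
   .two (nat_lit 3539992591) (nat_lit 19530776591) (.two (nat_lit 19530776584) (nat_lit 166129041474) (.two (nat_lit 2894069765) (nat_lit 13237223619) (.two (nat_lit 8388609) (nat_lit 10519315797) (.two (nat_lit 1048576) (nat_lit 169871876) (.one (nat_lit 47548731284) .nil))))),
   .two (nat_lit 3539992591) (nat_lit 19532873743) (.two (nat_lit 19532873736) (nat_lit 19026411586) (.two (nat_lit 2894069765) (nat_lit 159266111683) (.two (nat_lit 41943041) (nat_lit 10552870175) (.two (nat_lit 1048576) (nat_lit 1413483014) (.one (nat_lit 1052586) .nil))))),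
   .two (nat_lit 276824079) (nat_lit 1178599439) (.two (nat_lit 1178599432) (nat_lit 11476664386) (.two (nat_lit 2097157) (nat_lit 612368579) (.two (nat_lit 2097153) (nat_lit 184993973623) (.two (nat_lit 1048576) (nat_lit 1312819755) (.one (nat_lit 1745883030) .nil))))),
   .two (nat_lit 4194319) (nat_lit 184549391) (.two (nat_lit 184549384) (nat_lit 705691713) (.two (nat_lit 16777221) (nat_lit 21210595689) (.two (nat_lit 2097153) (nat_lit 159232557923) (.two (nat_lit 2097152) (nat_lit 16779826) (.one (nat_lit 706744220) .nil))))),
   .two (nat_lit 159217877007) (nat_lit 28693233679) (.two (nat_lit 2097158) (nat_lit 19599982659) (.two (nat_lit 9934209032) (nat_lit 12117344293) (.two (nat_lit 46407876610) (nat_lit 12117344451) (.two (nat_lit 169869316) (nat_lit 47584379078) (.two (nat_lit 2097153) (nat_lit 9869198689) (.two (nat_lit 2097152) (nat_lit 184419353569) (.one (nat_lit 4197111) .nil))))))),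
   .two (nat_lit 10370416655) (nat_lit 156971827215) (.two (nat_lit 10506731526) (nat_lit 166130090116) (.two (nat_lit 10370416648) (nat_lit 28793897034) (.two (nat_lit 639631365) (nat_lit 10540285990) (.two (nat_lit 639631365) (nat_lit 10540286048) (.two (nat_lit 606076929) (nat_lit 156535620060) (.two (nat_lit 2097152) (nat_lit 18928895520) (.one (nat_lit 2954891230) .nil))))))),
   .two (nat_lit 16777231) (nat_lit 19532873752) (.two (nat_lit 50331656) (nat_lit 165528207492) (.two (nat_lit 16777220) (nat_lit 608174119) (.two (nat_lit 16777220) (nat_lit 28793897157) (.two (nat_lit 16777217) (nat_lit 843055575) (.two (nat_lit 8388608) (nat_lit 251660816) (.one (nat_lit 166211881719) .nil)))))),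
   .two (nat_lit 16777231) (nat_lit 19532873752) (.two (nat_lit 13203669000) (nat_lit 157038936177) (.two (nat_lit 166132187140) (nat_lit 184431935526) (.two (nat_lit 16777220) (nat_lit 28793897157) (.two (nat_lit 9768534017) (nat_lit 46489665759) (.two (nat_lit 2097152) (nat_lit 251660816) (.one (nat_lit 166211881719) .nil)))))),
   .two (nat_lit 16777231) (nat_lit 166132187151) (.two (nat_lit 50331656) (nat_lit 157038936131) (.two (nat_lit 16777220) (nat_lit 28793897157) (.two (nat_lit 50331651) (nat_lit 12050236075) (.two (nat_lit 9768534017) (nat_lit 2969567688) (.two (nat_lit 4194304) (nat_lit 21223179818) (.one (nat_lit 184553429) .nil)))))),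
   .two (nat_lit 742391823) (nat_lit 21777874959) (.two (nat_lit 169869320) (nat_lit 306184210) (.two (nat_lit 270532613) (nat_lit 843055299) (.two (nat_lit 34603009) (nat_lit 9867100641) (.two (nat_lit 1048576) (nat_lit 159217877495) (.one (nat_lit 269488074) .nil))))),
   .two (nat_lit 639631375) (nat_lit 4601151503) (.two (nat_lit 2887778312) (nat_lit 1950351493) (.two (nat_lit 171966469) (nat_lit 2921332832) (.two (nat_lit 171966467) (nat_lit 47582281923) (.two (nat_lit 4194305) (nat_lit 158144135627) (.two (nat_lit 1048576) (nat_lit 1212156443) (.one (nat_lit 1052655) .nil)))))),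
   .two (nat_lit 37748751) (nat_lit 156465365034) (.two (nat_lit 2954887176) (nat_lit 1309671489) (.two (nat_lit 184549381) (nat_lit 19530776936) (.two (nat_lit 50331649) (nat_lit 10940842445) (.two (nat_lit 2097152) (nat_lit 13191087072) (.one (nat_lit 16781297) .nil))))),
   .two (nat_lit 47563407367) (nat_lit 2988441715) (.two (nat_lit 165525061635) (nat_lit 2954887374) (.two (nat_lit 2097152) (nat_lit 672138927) (.one (nat_lit 672138927) .nil))),
   .two (nat_lit 10955522077) (nat_lit 156971827230) (.two (nat_lit 11479810056) (nat_lit 16777283) (.two (nat_lit 809500677) (nat_lit 46489665574) (.two (nat_lit 809500677) (nat_lit 46489665632) (.two (nat_lit 16777217) (nat_lit 159253528803) (.two (nat_lit 16777216) (nat_lit 4195901) (.one (nat_lit 11626613493) .nil)))))),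
   .two (nat_lit 2097183) (nat_lit 855638043) (.two (nat_lit 620757000) (nat_lit 28758245489) (.two (nat_lit 184549380) (nat_lit 156567076902) (.two (nat_lit 184549380) (nat_lit 1210056901) (.two (nat_lit 16777217) (nat_lit 9799991519) (.two (nat_lit 16777216) (nat_lit 2098151) (.one (nat_lit 9934211819) .nil)))))),
   .two (nat_lit 4605345807) (nat_lit 11577327633) (.two (nat_lit 705691656) (nat_lit 2927624259) (.two (nat_lit 34603013) (nat_lit 2961178662) (.two (nat_lit 34603013) (nat_lit 2961178720) (.two (nat_lit 2097153) (nat_lit 174759870934) (.two (nat_lit 2097152) (nat_lit 8390206) (.one (nat_lit 2099967) .nil)))))),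
   .two (nat_lit 41943047) (nat_lit 83886147) (.two (nat_lit 41943043) (nat_lit 158158815270) (.two (nat_lit 8388608) (nat_lit 83886584) (.one (nat_lit 28705817612) .nil))),
   .two (nat_lit 50331663) (nat_lit 9866051599) (.two (nat_lit 50331656) (nat_lit 739246117) (.two (nat_lit 50331656) (nat_lit 11543773205) (.two (nat_lit 157035790341) (nat_lit 46510637265) (.two (nat_lit 16777220) (nat_lit 46977253588) (.two (nat_lit 4194305) (nat_lit 16778661) (.two (nat_lit 4194304) (nat_lit 20652755522) (.one (nat_lit 4198356) .nil))))))),
   .two (nat_lit 806354955) (nat_lit 270532639) (.two (nat_lit 28690087944) (nat_lit 9934209059) (.two (nat_lit 739246088) (nat_lit 159251431442) (.two (nat_lit 166129041412) (nat_lit 159251431619) (.two (nat_lit 9765388289) (nat_lit 46407877063) (.two (nat_lit 1048576) (nat_lit 2099793) (.one (nat_lit 1051394) .nil)))))),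
   .two (nat_lit 10336862223) (nat_lit 184993972239) (.two (nat_lit 184993972232) (nat_lit 136315012) (.two (nat_lit 713031684) (nat_lit 11544821799) (.two (nat_lit 713031684) (nat_lit 4632608965) (.two (nat_lit 34603009) (nat_lit 156567077087) (.two (nat_lit 1048576) (nat_lit 337642471) (.one (nat_lit 2101235) .nil)))))),
   .two (nat_lit 46414168079) (nat_lit 18925748274) (.two (nat_lit 11543773192) (nat_lit 9974054949) (.two (nat_lit 11543773192) (nat_lit 46414168084) (.two (nat_lit 705691652) (nat_lit 4605346001) (.two (nat_lit 705691651) (nat_lit 8388707) (.two (nat_lit 156372041729) (nat_lit 1050020) (.two (nat_lit 1048576) (nat_lit 8391250) (.one (nat_lit 8392692) .nil))))))),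
   .two (nat_lit 843055132) (nat_lit 159251431453) (.two (nat_lit 9799991306) (nat_lit 16777250) (.two (nat_lit 3527409671) (nat_lit 47548727333) (.two (nat_lit 2889875461) (nat_lit 184431935526) (.two (nat_lit 1344274437) (nat_lit 11559502035) (.two (nat_lit 41943041) (nat_lit 10336862686) (.two (nat_lit 8388608) (nat_lit 2098752) (.one (nat_lit 4198389) .nil))))))),
   .two (nat_lit 176160783) (nat_lit 4631560219) (.two (nat_lit 156367847432) (nat_lit 1779433539) (.two (nat_lit 28760342533) (nat_lit 21811429571) (.two (nat_lit 8388609) (nat_lit 156532474326) (.two (nat_lit 8388608) (nat_lit 1051219) (.one (nat_lit 739248837) .nil))))),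
   .two (nat_lit 184986632207) (nat_lit 19532873743) (.two (nat_lit 184986632200) (nat_lit 3527409701) (.two (nat_lit 184986632200) (nat_lit 10506731538) (.two (nat_lit 28693233669) (nat_lit 11610882145) (.two (nat_lit 4194308) (nat_lit 2886729940) (.two (nat_lit 156364701697) (nat_lit 4195191) (.two (nat_lit 1048576) (nat_lit 1379927748) (.one (nat_lit 4198390) .nil))))))),
   .two (nat_lit 9934209039) (nat_lit 50331659) (.two (nat_lit 50331654) (nat_lit 169869332) (.two (nat_lit 721420292) (nat_lit 9867100258) (.two (nat_lit 50331649) (nat_lit 1277165793) (.two (nat_lit 16777216) (nat_lit 2988441832) (.one (nat_lit 2099973) .nil))))),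
   .two (nat_lit 46978301967) (nat_lit 46510637081) (.two (nat_lit 4194312) (nat_lit 19027460133) (.two (nat_lit 4194312) (nat_lit 236978196) (.two (nat_lit 4194308) (nat_lit 28087157102) (.two (nat_lit 4194308) (nat_lit 3558867042) (.two (nat_lit 605028353) (nat_lit 1948255076) (.two (nat_lit 1048576) (nat_lit 10940842969) (.one (nat_lit 1052663) .nil))))))),
   .two (nat_lit 1913651215) (nat_lit 11513364505) (.two (nat_lit 37748744) (nat_lit 2416967717) (.two (nat_lit 37748744) (nat_lit 12147752980) (.two (nat_lit 4194308) (nat_lit 13221494993) (.two (nat_lit 4194308) (nat_lit 10436477026) (.two (nat_lit 4194305) (nat_lit 156566029647) (.two (nat_lit 2097152) (nat_lit 46507492309) (.one (nat_lit 2101240) .nil))))))),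
   .two (nat_lit 19027460117) (nat_lit 19599982607) (.two (nat_lit 184417255433) (nat_lit 19096666149) (.two (nat_lit 183848927240) (nat_lit 166130090005) (.two (nat_lit 46407876610) (nat_lit 843055313) (.two (nat_lit 47548727301) (nat_lit 876609738) (.two (nat_lit 2097153) (nat_lit 2923430360) (.two (nat_lit 4194304) (nat_lit 2099787) (.one (nat_lit 4198393) .nil))))))),
   .two (nat_lit 2969567247) (nat_lit 12054429711) (.two (nat_lit 2969567240) (nat_lit 3565158469) (.two (nat_lit 2969567240) (nat_lit 183853121556) (.two (nat_lit 184549380) (nat_lit 3565158599) (.two (nat_lit 184549380) (nat_lit 10343153762) (.two (nat_lit 16777217) (nat_lit 679477712) (.two (nat_lit 8388608) (nat_lit 19545457621) (.one (nat_lit 880807873) .nil))))))),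
   .two (nat_lit 10504634375) (nat_lit 1048721) (.two (nat_lit 2889875459) (nat_lit 136314919) (.two (nat_lit 4194304) (nat_lit 1051221) (.one (nat_lit 1052666) .nil))),
   .two (nat_lit 185002360847) (nat_lit 46477082641) (.two (nat_lit 641728520) (nat_lit 28087156844) (.two (nat_lit 721420292) (nat_lit 3458203857) (.two (nat_lit 612368387) (nat_lit 21778924117) (.two (nat_lit 612368385) (nat_lit 10351542730) (.two (nat_lit 8388608) (nat_lit 47563408935) (.one (nat_lit 184553456) .nil)))))),
   .two (nat_lit 183853121551) (nat_lit 10939793423) (.two (nat_lit 183853121544) (nat_lit 13221494861) (.two (nat_lit 183853121544) (nat_lit 156465365012) (.two (nat_lit 183853121540) (nat_lit 34603207) (.two (nat_lit 13195280389) (nat_lit 1048772) (.two (nat_lit 9765388289) (nat_lit 11618222548) (.two (nat_lit 1048576) (nat_lit 4638901200) (.one (nat_lit 68161427) .nil))))))),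
   .two (nat_lit 10506731535) (nat_lit 203423755) (.two (nat_lit 2097158) (nat_lit 46510637076) (.two (nat_lit 169869316) (nat_lit 4194506) (.two (nat_lit 2097153) (nat_lit 171966941) (.two (nat_lit 2097152) (nat_lit 13224640746) (.one (nat_lit 4197129) .nil))))),
   .two (nat_lit 3458203663) (nat_lit 306184222) (.two (nat_lit 157038936076) (nat_lit 3458203682) (.two (nat_lit 3458203656) (nat_lit 306184229) (.two (nat_lit 46407876612) (nat_lit 2353004582) (.two (nat_lit 46407876612) (nat_lit 2353004640) (.two (nat_lit 2097153) (nat_lit 11546919381) (.two (nat_lit 2097152) (nat_lit 4195908) (.one (nat_lit 3460303616) .nil))))))),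
   .two (nat_lit 46978301963) (nat_lit 285212688) (.two (nat_lit 10504634376) (nat_lit 1191182373) (.two (nat_lit 3525312520) (nat_lit 156581756949) (.two (nat_lit 218103813) (nat_lit 46508540001) (.two (nat_lit 218103813) (nat_lit 46508539998) (.two (nat_lit 156367847425) (nat_lit 12618564937) (.two (nat_lit 4194304) (nat_lit 1962936840) (.one (nat_lit 157051520667) .nil))))))),
   .two (nat_lit 9866051599) (nat_lit 12054429711) (.two (nat_lit 9866051592) (nat_lit 184993972291) (.two (nat_lit 1343225861) (nat_lit 13228834854) (.two (nat_lit 1343225861) (nat_lit 13228834912) (.two (nat_lit 605028353) (nat_lit 46481277397) (.two (nat_lit 1048576) (nat_lit 176162347) (.one (nat_lit 8391434) .nil)))))),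
   .two (nat_lit 612368399) (nat_lit 3525312527) (.two (nat_lit 639631368) (nat_lit 165532401701) (.two (nat_lit 612368392) (nat_lit 3558866964) (.two (nat_lit 46978301957) (nat_lit 3028287845) (.two (nat_lit 2097153) (nat_lit 12121539891) (.two (nat_lit 2097152) (nat_lit 4605346760) (.one (nat_lit 136318867) .nil)))))),
   .two (nat_lit 16777231) (nat_lit 9866051599) (.two (nat_lit 16777224) (nat_lit 12147752997) (.two (nat_lit 16777224) (nat_lit 11543773205) (.two (nat_lit 28757196805) (nat_lit 18928894156) (.two (nat_lit 20652752899) (nat_lit 202375528) (.two (nat_lit 9765388289) (nat_lit 174688568655) (.two (nat_lit 1048576) (nat_lit 19029558238) (.one (nat_lit 4198398) .nil))))))),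
   .two (nat_lit 18928893967) (nat_lit 156969730063) (.two (nat_lit 184549382) (nat_lit 158144135297) (.two (nat_lit 822083592) (nat_lit 183949590602) (.two (nat_lit 1344274437) (nat_lit 50331843) (.two (nat_lit 37748737) (nat_lit 3539993046) (.two (nat_lit 4194304) (nat_lit 16779867) (.one (nat_lit 1178601132) .nil)))))),
   .two (nat_lit 2954887183) (nat_lit 156971827250) (.two (nat_lit 3527409672) (nat_lit 165526110245) (.two (nat_lit 2954887176) (nat_lit 13191086102) (.two (nat_lit 2889875460) (nat_lit 4599054704) (.two (nat_lit 2889875460) (nat_lit 20705181795) (.two (nat_lit 9768534017) (nat_lit 2098040) (.two (nat_lit 2097152) (nat_lit 4195913) (.one (nat_lit 2101250) .nil))))))),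
   .two (nat_lit 101711887) (nat_lit 184989777946) (.two (nat_lit 1175453704) (nat_lit 183949590594) (.two (nat_lit 11476664324) (nat_lit 166199296096) (.two (nat_lit 4605345797) (nat_lit 19029557347) (.two (nat_lit 37748737) (nat_lit 9798944045) (.two (nat_lit 4194304) (nat_lit 1051228) (.one (nat_lit 4198404) .nil)))))),
   .two (nat_lit 28806479893) (nat_lit 183853121551) (.two (nat_lit 174701150218) (nat_lit 28093448308) (.two (nat_lit 183853121544) (nat_lit 28806479893) (.two (nat_lit 50331653) (nat_lit 209715399) (.two (nat_lit 50331653) (nat_lit 165532401762) (.two (nat_lit 41943041) (nat_lit 166245433808) (.two (nat_lit 8388608) (nat_lit 11559503538) (.one (nat_lit 8392709) .nil))))))),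
   .two (nat_lit 9881780239) (nat_lit 157036838927) (.two (nat_lit 10336862216) (nat_lit 11626610810) (.two (nat_lit 46407876612) (nat_lit 19042140198) (.two (nat_lit 1291845636) (nat_lit 337641669) (.two (nat_lit 2097153) (nat_lit 159232557279) (.two (nat_lit 8388608) (nat_lit 28705819152) (.one (nat_lit 4613737207) .nil)))))),
   .two (nat_lit 10343153671) (nat_lit 184549442) (.two (nat_lit 156372041731) (nat_lit 13237224160) (.two (nat_lit 8388608) (nat_lit 117443098) (.one (nat_lit 16780047) .nil))),
   .two (nat_lit 9781116943) (nat_lit 158083317809) (.two (nat_lit 28758245384) (nat_lit 166129041474) (.two (nat_lit 1277165572) (nat_lit 157043130725) (.two (nat_lit 606076929) (nat_lit 1191182812) (.two (nat_lit 1048576) (nat_lit 2099805) (.one (nat_lit 46474987175) .nil))))),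
   .two (nat_lit 174753579023) (nat_lit 166132187160) (.two (nat_lit 21208498184) (nat_lit 166132187156) (.two (nat_lit 1916796933) (nat_lit 1411383498) (.two (nat_lit 606076929) (nat_lit 166232850909) (.two (nat_lit 2097152) (nat_lit 184419352810) (.one (nat_lit 4198406) .nil))))),
   .two (nat_lit 2887778319) (nat_lit 183916036117) (.two (nat_lit 2887778312) (nat_lit 183916036117) (.two (nat_lit 10506731525) (nat_lit 10906239172) (.two (nat_lit 156364701697) (nat_lit 10370416865) (.two (nat_lit 1048576) (nat_lit 183846830315) (.one (nat_lit 2101255) .nil))))),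
   .two (nat_lit 813694991) (nat_lit 37249613845) (.two (nat_lit 813694984) (nat_lit 37249613845) (.two (nat_lit 2887778306) (nat_lit 8389379) (.two (nat_lit 9768534017) (nat_lit 343933812) (.two (nat_lit 4194304) (nat_lit 8390219) (.one (nat_lit 4198408) .nil))))),
   .two (nat_lit 606076936) (nat_lit 4605345856) (.two (nat_lit 37748739) (nat_lit 847249603) (.two (nat_lit 4194304) (nat_lit 310379487) (.one (nat_lit 343935707) .nil))),
   .two (nat_lit 754974735) (nat_lit 1846542357) (.two (nat_lit 754974728) (nat_lit 1846542357) (.two (nat_lit 10939793413) (nat_lit 10385096802) (.two (nat_lit 605028353) (nat_lit 654311648) (.two (nat_lit 1048576) (nat_lit 46523220200) (.one (nat_lit 11525949123) .nil))))),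
   .two (nat_lit 1846542357) (nat_lit 754974735) (.two (nat_lit 2416967692) (nat_lit 1795162179) (.two (nat_lit 1745879045) (nat_lit 117440869) (.two (nat_lit 605028353) (nat_lit 1191183646) (.two (nat_lit 1048576) (nat_lit 654312392) (.one (nat_lit 2969568908) .nil))))),
   .two (nat_lit 1191182360) (nat_lit 158646403100) (.two (nat_lit 117440520) (nat_lit 2349858931) (.two (nat_lit 158143086597) (nat_lit 166211878950) (.two (nat_lit 11492392964) (nat_lit 605028555) (.two (nat_lit 605028353) (nat_lit 3003121887) (.two (nat_lit 1048576) (nat_lit 9781117921) (.one (nat_lit 16781321) .nil)))))),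
   .two (nat_lit 620756999) (nat_lit 183853121650) (.two (nat_lit 713031683) (nat_lit 10351542479) (.two (nat_lit 8388608) (nat_lit 16778828) (.one (nat_lit 176162484) .nil))),
   .two (nat_lit 11584667669) (nat_lit 10504634383) (.two (nat_lit 156573368330) (nat_lit 19027460212) (.two (nat_lit 203423752) (nat_lit 11584667669) (.two (nat_lit 21785214981) (nat_lit 21778923719) (.two (nat_lit 21785214981) (nat_lit 1847591010) (.two (nat_lit 612368385) (nat_lit 10538189666) (.two (nat_lit 2097152) (nat_lit 20644365273) (.one (nat_lit 2099986) .nil))))))),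
   .two (nat_lit 50331663) (nat_lit 158143086608) (.two (nat_lit 185002360840) (nat_lit 2316304492) (.two (nat_lit 1276116996) (nat_lit 16777411) (.two (nat_lit 156365750273) (nat_lit 12129927638) (.two (nat_lit 2097152) (nat_lit 2987393994) (.one (nat_lit 16781325) .nil))))),
   .two (nat_lit 620757007) (nat_lit 10540285979) (.two (nat_lit 809500680) (nat_lit 50331685) (.two (nat_lit 809500680) (nat_lit 16777234) (.two (nat_lit 184549380) (nat_lit 2956984517) (.two (nat_lit 2969567237) (nat_lit 184419352671) (.two (nat_lit 9781116929) (nat_lit 4195736) (.two (nat_lit 16777216) (nat_lit 138413036) (.one (nat_lit 4198414) .nil))))))),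
   .two (nat_lit 713031695) (nat_lit 46473936927) (.two (nat_lit 3460300808) (nat_lit 11517558916) (.two (nat_lit 41943045) (nat_lit 1950351399) (.two (nat_lit 47550824453) (nat_lit 158083317969) (.two (nat_lit 34603009) (nat_lit 209716198) (.two (nat_lit 1048576) (nat_lit 184993974860) (.one (nat_lit 1052687) .nil)))))),
   .two (nat_lit 16777231) (nat_lit 12620660760) (.two (nat_lit 184549384) (nat_lit 166197198885) (.two (nat_lit 16777224) (nat_lit 11513364500) (.two (nat_lit 1191182341) (nat_lit 46508540103) (.two (nat_lit 16777221) (nat_lit 9934209123) (.two (nat_lit 37748737) (nat_lit 3539993031) (.two (nat_lit 2097152) (nat_lit 21781022242) (.one (nat_lit 270536628) .nil))))))),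
   .two (nat_lit 713031695) (nat_lit 4598005782) (.two (nat_lit 713031688) (nat_lit 4598005782) (.two (nat_lit 713031682) (nat_lit 1048950) (.two (nat_lit 34603009) (nat_lit 8389497) (.two (nat_lit 1048576) (nat_lit 343933162) (.one (nat_lit 1052688) .nil))))),
   .two (nat_lit 46978301967) (nat_lit 11510218779) (.two (nat_lit 21207449608) (nat_lit 46474985585) (.two (nat_lit 3525312517) (nat_lit 20737687590) (.two (nat_lit 158143086597) (nat_lit 1746927813) (.two (nat_lit 156365750273) (nat_lit 183845781727) (.two (nat_lit 2097152) (nat_lit 1050189) (.one (nat_lit 3457157853) .nil)))))),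
   .two (nat_lit 19532873749) (nat_lit 21208498191) (.two (nat_lit 166132187149) (nat_lit 166197198885) (.two (nat_lit 21208498184) (nat_lit 19532873749) (.two (nat_lit 166132187141) (nat_lit 20738736339) (.two (nat_lit 1178599429) (nat_lit 10001318090) (.two (nat_lit 4194305) (nat_lit 874512847) (.two (nat_lit 2097152) (nat_lit 20707280423) (.one (nat_lit 2101265) .nil))))))),
   .two (nat_lit 9940500495) (nat_lit 1745879055) (.two (nat_lit 612368392) (nat_lit 1745879075) (.two (nat_lit 612368392) (nat_lit 12047089683) (.two (nat_lit 4194306) (nat_lit 9806283521) (.two (nat_lit 176160771) (nat_lit 9899606226) (.two (nat_lit 37748737) (nat_lit 780141424) (.two (nat_lit 4194304) (nat_lit 8391271) (.one (nat_lit 8392722) .nil))))))),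
   .two (nat_lit 272629767) (nat_lit 46414168199) (.two (nat_lit 4194307) (nat_lit 158150426663) (.two (nat_lit 4194304) (nat_lit 209716173) (.one (nat_lit 8391443) .nil))),
   .two (nat_lit 4601151503) (nat_lit 1847590928) (.two (nat_lit 28758245384) (nat_lit 4601151555) (.two (nat_lit 166130089989) (nat_lit 843055299) (.two (nat_lit 2097153) (nat_lit 239075801) (.two (nat_lit 2097152) (nat_lit 4195919) (.one (nat_lit 4198419) .nil))))),
   .two (nat_lit 184993972239) (nat_lit 28690087951) (.two (nat_lit 184993972232) (nat_lit 12617515045) (.two (nat_lit 184993972232) (nat_lit 12114198549) (.two (nat_lit 166129041412) (nat_lit 1283457221) (.two (nat_lit 713031684) (nat_lit 672137418) (.two (nat_lit 156364701697) (nat_lit 13195281250) (.two (nat_lit 1048576) (nat_lit 165532404268) (.one (nat_lit 159224170139) .nil))))))),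
   .two (nat_lit 754974735) (nat_lit 1846542357) (.two (nat_lit 754974728) (nat_lit 1846542357) (.two (nat_lit 10939793413) (nat_lit 2902458576) (.two (nat_lit 605028353) (nat_lit 654311648) (.two (nat_lit 1048576) (nat_lit 46523220200) (.one (nat_lit 9781118628) .nil))))),
   .two (nat_lit 4194319) (nat_lit 166130089999) (.two (nat_lit 4194312) (nat_lit 10504634403) (.two (nat_lit 4194312) (nat_lit 47582281746) (.two (nat_lit 11479810050) (nat_lit 10437526158) (.two (nat_lit 4194308) (nat_lit 10538188895) (.two (nat_lit 9768534017) (nat_lit 1049466) (.two (nat_lit 4194304) (nat_lit 1050192) (.one (nat_lit 1052692) .nil))))))),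
   .two (nat_lit 2969567247) (nat_lit 19530776591) (.two (nat_lit 19530776584) (nat_lit 218103924) (.two (nat_lit 166130089988) (nat_lit 46489665574) (.two (nat_lit 157036838917) (nat_lit 46489665736) (.two (nat_lit 9766436865) (nat_lit 47563407583) (.two (nat_lit 2097152) (nat_lit 21223179239) (.one (nat_lit 16781333) .nil)))))),
   .two (nat_lit 4601151495) (nat_lit 8388687) (.two (nat_lit 41943043) (nat_lit 4194342) (.two (nat_lit 8388608) (nat_lit 156971828785) (.one (nat_lit 4197140) .nil))),
   .two (nat_lit 721420303) (nat_lit 184993972239) (.two (nat_lit 184993972232) (nat_lit 721420354) (.two (nat_lit 713031684) (nat_lit 183928619046) (.two (nat_lit 713031684) (nat_lit 183928619104) (.two (nat_lit 41943041) (nat_lit 20719861983) (.two (nat_lit 8388608) (nat_lit 11626612287) (.one (nat_lit 16780053) .nil)))))),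
   .two (nat_lit 158083317775) (nat_lit 28690087957) (.two (nat_lit 158083317768) (nat_lit 28690087957) (.two (nat_lit 156968681477) (nat_lit 3464495312) (.two (nat_lit 34603009) (nat_lit 10343153889) (.two (nat_lit 1048576) (nat_lit 746586347) (.one (nat_lit 8392726) .nil))))),
   .two (nat_lit 50331663) (nat_lit 1277165583) (.two (nat_lit 50331656) (nat_lit 159251431491) (.two (nat_lit 16777220) (nat_lit 9900654630) (.two (nat_lit 16777220) (nat_lit 9900654688) (.two (nat_lit 16777217) (nat_lit 1914700245) (.two (nat_lit 16777216) (nat_lit 10336863787) (.one (nat_lit 16781335) .nil)))))),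
   .two (nat_lit 8388623) (nat_lit 12047089679) (.two (nat_lit 12047089672) (nat_lit 8388672) (.two (nat_lit 713031684) (nat_lit 11510218790) (.two (nat_lit 713031684) (nat_lit 11510218848) (.two (nat_lit 41943041) (nat_lit 2987393251) (.two (nat_lit 8388608) (nat_lit 1051240) (.one (nat_lit 68160256) .nil)))))),
   .two (nat_lit 1847590927) (nat_lit 19026411547) (.two (nat_lit 184416206856) (nat_lit 28758245443) (.two (nat_lit 12114198533) (nat_lit 9799991334) (.two (nat_lit 12114198533) (nat_lit 9799991392) (.two (nat_lit 34603009) (nat_lit 156567077087) (.two (nat_lit 1048576) (nat_lit 183913940557) (.one (nat_lit 2101274) .nil)))))),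
   .two (nat_lit 2889875471) (nat_lit 12047089681) (.two (nat_lit 184416206856) (nat_lit 1178599491) (.two (nat_lit 2889875460) (nat_lit 47581233191) (.two (nat_lit 156364701701) (nat_lit 1312817350) (.two (nat_lit 16777217) (nat_lit 13187940575) (.two (nat_lit 16777216) (nat_lit 101712852) (.one (nat_lit 4197143) .nil)))))),
   .two (nat_lit 21208498187) (nat_lit 50331688) (.two (nat_lit 9934209030) (nat_lit 50331763) (.two (nat_lit 28758245384) (nat_lit 352321557) (.two (nat_lit 1277165572) (nat_lit 21223178443) (.two (nat_lit 620756995) (nat_lit 19027460191) (.two (nat_lit 620756993) (nat_lit 10336862672) (.two (nat_lit 16777216) (nat_lit 184417256405) (.one (nat_lit 2101275) .nil))))))),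
   .two (nat_lit 46980399119) (nat_lit 20638072848) (.two (nat_lit 37748744) (nat_lit 46489665612) (.two (nat_lit 20638072840) (nat_lit 46980399140) (.two (nat_lit 4194308) (nat_lit 12633243686) (.two (nat_lit 159217876997) (nat_lit 1749024864) (.two (nat_lit 606076929) (nat_lit 1950351830) (.two (nat_lit 16777216) (nat_lit 4196970) (.one (nat_lit 165526113079) .nil))))))),
   .two (nat_lit 75497487) (nat_lit 183946444817) (.two (nat_lit 41943046) (nat_lit 11543773251) (.two (nat_lit 75497480) (nat_lit 9866051621) (.two (nat_lit 184993972229) (nat_lit 28690088299) (.two (nat_lit 34603009) (nat_lit 185027528028) (.two (nat_lit 1048576) (nat_lit 8391275) (.one (nat_lit 9899610020) .nil)))))),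
   .two (nat_lit 159217877003) (nat_lit 10906239003) (.two (nat_lit 34603014) (nat_lit 2988441637) (.two (nat_lit 20638072840) (nat_lit 1745879061) (.two (nat_lit 705691650) (nat_lit 1948254406) (.two (nat_lit 705691652) (nat_lit 21812478154) (.two (nat_lit 34603009) (nat_lit 158177690469) (.two (nat_lit 1048576) (nat_lit 2098774) (.one (nat_lit 2101276) .nil))))))),
   .two (nat_lit 16777231) (nat_lit 1849688079) (.two (nat_lit 21214789640) (nat_lit 16777280) (.two (nat_lit 158150426629) (nat_lit 352321731) (.two (nat_lit 612368385) (nat_lit 318767571) (.two (nat_lit 1048576) (nat_lit 16779884) (.one (nat_lit 4198429) .nil))))),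
   .two (nat_lit 2887778321) (nat_lit 8388661) (.two (nat_lit 11476664328) (nat_lit 2894069835) (.two (nat_lit 4599054343) (nat_lit 184993972335) (.two (nat_lit 806354949) (nat_lit 3531604007) (.two (nat_lit 1178599427) (nat_lit 772800608) (.two (nat_lit 9765388289) (nat_lit 236979756) (.two (nat_lit 4194304) (nat_lit 336594493) (.one (nat_lit 1052702) .nil))))))),
   .two (nat_lit 218103823) (nat_lit 157036838927) (.two (nat_lit 157036838920) (nat_lit 218103874) (.two (nat_lit 46407876612) (nat_lit 1929379936) (.two (nat_lit 46407876611) (nat_lit 654312030) (.two (nat_lit 2097153) (nat_lit 218104264) (.two (nat_lit 2097152) (nat_lit 46489666540) (.one (nat_lit 16781343) .nil)))))),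
   .two (nat_lit 1913651215) (nat_lit 1950351387) (.two (nat_lit 272629768) (nat_lit 1745879162) (.two (nat_lit 2889875461) (nat_lit 159216828455) (.two (nat_lit 4194308) (nat_lit 34603205) (.two (nat_lit 4194305) (nat_lit 156465365470) (.two (nat_lit 8388608) (nat_lit 1050199) (.one (nat_lit 1052704) .nil)))))),
   .two (nat_lit 2936012831) (nat_lit 4194336) (.two (nat_lit 10385096712) (nat_lit 10439622736) (.two (nat_lit 9781116935) (nat_lit 184419352641) (.two (nat_lit 171966469) (nat_lit 156548202534) (.two (nat_lit 171966469) (nat_lit 156548202592) (.two (nat_lit 4194305) (nat_lit 18941477091) (.two (nat_lit 1048576) (nat_lit 156380431335) (.one (nat_lit 16781345) .nil))))))),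
   .two (nat_lit 21207449615) (nat_lit 9900654619) (.two (nat_lit 4599054342) (nat_lit 20704133233) (.two (nat_lit 3458203656) (nat_lit 10436476965) (.two (nat_lit 46407876610) (nat_lit 20737687590) (.two (nat_lit 47548727301) (nat_lit 20737687752) (.two (nat_lit 2097153) (nat_lit 20704133598) (.two (nat_lit 2097152) (nat_lit 4598007383) (.one (nat_lit 1052706) .nil))))))),
   .two (nat_lit 10506731531) (nat_lit 1779433487) (.two (nat_lit 19093520396) (nat_lit 46980399141) (.two (nat_lit 166132187144) (nat_lit 739246101) (.two (nat_lit 166132187140) (nat_lit 605028549) (.two (nat_lit 101711877) (nat_lit 2319450314) (.two (nat_lit 9768534017) (nat_lit 1376780742) (.two (nat_lit 4194304) (nat_lit 37313578530) (.one (nat_lit 1052707) .nil))))))),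
   .two (nat_lit 218103823) (nat_lit 165526110223) (.two (nat_lit 158077026312) (nat_lit 2969567299) (.two (nat_lit 21778923525) (nat_lit 318767142) (.two (nat_lit 10385096709) (nat_lit 10001318261) (.two (nat_lit 37748737) (nat_lit 12633244117) (.two (nat_lit 2097152) (nat_lit 11626612267) (.one (nat_lit 2101284) .nil)))))),
   .two (nat_lit 10504634383) (nat_lit 1916796943) (.two (nat_lit 10504634376) (nat_lit 1916796963) (.two (nat_lit 639631368) (nat_lit 28693233683) (.two (nat_lit 183848927234) (nat_lit 20738737018) (.two (nat_lit 203423749) (nat_lit 675283146) (.two (nat_lit 37748737) (nat_lit 20738737018) (.two (nat_lit 4194304) (nat_lit 3558868532) (.one (nat_lit 2101285) .nil))))))),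
   .two (nat_lit 184549391) (nat_lit 339738641) (.two (nat_lit 272629768) (nat_lit 184549410) (.two (nat_lit 184549384) (nat_lit 47550824522) (.two (nat_lit 16777221) (nat_lit 205520934) (.two (nat_lit 16777221) (nat_lit 205520992) (.two (nat_lit 16777217) (nat_lit 21814575331) (.two (nat_lit 16777216) (nat_lit 4196973) (.one (nat_lit 28101838496) .nil))))))),
   .two (nat_lit 1291845647) (nat_lit 13191086095) (.two (nat_lit 10385096712) (nat_lit 2923429955) (.two (nat_lit 9781116933) (nat_lit 9802088643) (.two (nat_lit 9781116929) (nat_lit 185023333690) (.two (nat_lit 16777216) (nat_lit 809502240) (.one (nat_lit 4198438) .nil))))),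
   .two (nat_lit 158075977743) (nat_lit 174753579023) (.two (nat_lit 28086108168) (nat_lit 169869445) (.two (nat_lit 20637024260) (nat_lit 37247516710) (.two (nat_lit 20637024260) (nat_lit 37247516768) (.two (nat_lit 605028353) (nat_lit 807403747) (.two (nat_lit 1048576) (nat_lit 2099823) (.one (nat_lit 773850791) .nil)))))),
   .two (nat_lit 10504634375) (nat_lit 272629794) (.two (nat_lit 2889875459) (nat_lit 156466413606) (.two (nat_lit 4194304) (nat_lit 2988443185) (.one (nat_lit 606077965) .nil))),
   .two (nat_lit 1795162127) (nat_lit 4605345807) (.two (nat_lit 1291845640) (nat_lit 183853121603) (.two (nat_lit 8388612) (nat_lit 19109249062) (.two (nat_lit 8388612) (nat_lit 1325400261) (.two (nat_lit 8388609) (nat_lit 117440990) (.two (nat_lit 16777216) (nat_lit 18933089249) (.one (nat_lit 165532404431) .nil)))))),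
   .two (nat_lit 13203668999) (nat_lit 28693233731) (.two (nat_lit 50331651) (nat_lit 708837414) (.two (nat_lit 2097152) (nat_lit 46510639701) (.one (nat_lit 304091096) .nil))),
   .two (nat_lit 620756999) (nat_lit 11511267473) (.two (nat_lit 620756995) (nat_lit 21812477991) (.two (nat_lit 1048576) (nat_lit 16779890) (.one (nat_lit 2101290) .nil))),
   .two (nat_lit 46978301967) (nat_lit 1786773533) (.two (nat_lit 47555018764) (nat_lit 46978301986) (.two (nat_lit 157036838920) (nat_lit 18933088293) (.two (nat_lit 46407876612) (nat_lit 2961178662) (.two (nat_lit 46407876612) (nat_lit 2961178720) (.two (nat_lit 2097153) (nat_lit 10443817187) (.two (nat_lit 4194304) (nat_lit 10504635361) (.one (nat_lit 157043133184) .nil))))))),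
   .two (nat_lit 101711887) (nat_lit 174753579023) (.two (nat_lit 101711880) (nat_lit 21208498195) (.two (nat_lit 9866051589) (nat_lit 10437525714) (.two (nat_lit 606076929) (nat_lit 1049469) (.two (nat_lit 1048576) (nat_lit 2098778) (.one (nat_lit 1052715) .nil))))),
   .two (nat_lit 11479810063) (nat_lit 4605345807) (.two (nat_lit 11479810056) (nat_lit 18933088293) (.two (nat_lit 11479810056) (nat_lit 343932948) (.two (nat_lit 809500677) (nat_lit 20711473351) (.two (nat_lit 809500677) (nat_lit 3464495202) (.two (nat_lit 37748737) (nat_lit 243270096) (.two (nat_lit 4194304) (nat_lit 156573369301) (.one (nat_lit 8392748) .nil))))))),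
   .two (nat_lit 158646403089) (nat_lit 807403549) (.two (nat_lit 20637024264) (nat_lit 2350907471) (.two (nat_lit 184989777927) (nat_lit 135266371) (.two (nat_lit 21208498181) (nat_lit 159250382886) (.two (nat_lit 1344274437) (nat_lit 1410334931) (.two (nat_lit 606076929) (nat_lit 11006902495) (.two (nat_lit 2097152) (nat_lit 2886730727) (.one (nat_lit 1052718) .nil))))))),
   .two (nat_lit 3525312527) (nat_lit 1309671441) (.two (nat_lit 37748744) (nat_lit 12114198595) (.two (nat_lit 4194308) (nat_lit 873463846) (.two (nat_lit 4194308) (nat_lit 873463904) (.two (nat_lit 4194305) (nat_lit 638583254) (.two (nat_lit 4194304) (nat_lit 1051251) (.one (nat_lit 19096667820) .nil)))))),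
   .two (nat_lit 813694983) (nat_lit 19599982707) (.two (nat_lit 9766436867) (nat_lit 18928894158) (.two (nat_lit 2097152) (nat_lit 4196980) (.one (nat_lit 4198447) .nil))),
   .two (nat_lit 184549391) (nat_lit 183912890385) (.two (nat_lit 11476664328) (nat_lit 3036676162) (.two (nat_lit 184549380) (nat_lit 9966714919) (.two (nat_lit 101711877) (nat_lit 822083797) (.two (nat_lit 2097153) (nat_lit 28772926332) (.two (nat_lit 2097152) (nat_lit 47596963390) (.one (nat_lit 16781360) .nil)))))),
   .two (nat_lit 272629775) (nat_lit 754974731) (.two (nat_lit 50331654) (nat_lit 9768534037) (.two (nat_lit 721420292) (nat_lit 184989778122) (.two (nat_lit 620756993) (nat_lit 2956984802) (.two (nat_lit 16777216) (nat_lit 9869198315) (.one (nat_lit 4198449) .nil))))),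
   .two (nat_lit 654311448) (nat_lit 75497493) (.two (nat_lit 9781116936) (nat_lit 75497493) (.two (nat_lit 2902458370) (nat_lit 8389382) (.two (nat_lit 8388609) (nat_lit 251658722) (.two (nat_lit 8388608) (nat_lit 788530141) (.one (nat_lit 8391454) .nil))))),
   .two (nat_lit 203423778) (nat_lit 4634705945) (.two (nat_lit 270532614) (nat_lit 2990538790) (.two (nat_lit 639631367) (nat_lit 4194674) (.two (nat_lit 2887778308) (nat_lit 138412259) (.two (nat_lit 2097153) (nat_lit 10909385217) (.two (nat_lit 4194304) (nat_lit 1050281) (.one (nat_lit 1051451) .nil)))))),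
   .two (nat_lit 174753579015) (nat_lit 1209008166) (.two (nat_lit 2097152) (nat_lit 1051351) .nil),
   .two (nat_lit 10504634383) (nat_lit 157035790407) (.two (nat_lit 12115247113) (nat_lit 10906239014) (.two (nat_lit 10504634376) (nat_lit 1175453897) (.two (nat_lit 166130089989) (nat_lit 166229704927) (.two (nat_lit 2097153) (nat_lit 2987393537) (.two (nat_lit 2097152) (nat_lit 1050284) (.one (nat_lit 4027583280) .nil)))))),
   .two (nat_lit 47548727307) (nat_lit 10436477042) (.two (nat_lit 46978301967) (nat_lit 20704133157) (.two (nat_lit 4599054342) (nat_lit 34603207) (.two (nat_lit 46978301960) (nat_lit 2316304482) (.two (nat_lit 46407876610) (nat_lit 37246468962) (.two (nat_lit 3525312517) (nat_lit 1947206086) (.two (nat_lit 156365750273) (nat_lit 2416969245) (.two (nat_lit 2097152) (nat_lit 1050285) (.one (nat_lit 1913654054) .nil)))))))),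
   .two (nat_lit 10370416648) (nat_lit 4194343) (.two (nat_lit 16777216) (nat_lit 740296338) .nil),
   .two (nat_lit 1178599439) (nat_lit 159224168485) (.two (nat_lit 1178599439) (nat_lit 1317011477) (.two (nat_lit 3464495112) (nat_lit 166132187234) (.two (nat_lit 11479810052) (nat_lit 183953785295) (.two (nat_lit 47555018757) (nat_lit 28693233889) (.two (nat_lit 37748737) (nat_lit 159224170013) (.two (nat_lit 4194304) (nat_lit 46414169747) (.one (nat_lit 8392790) .nil))))))),
   .two (nat_lit 12054429707) (nat_lit 705691713) (.two (nat_lit 4605345809) (nat_lit 35651621) (.two (nat_lit 34603014) (nat_lit 46407876967) (.two (nat_lit 37748744) (nat_lit 772800714) (.two (nat_lit 4194306) (nat_lit 166196150495) (.two (nat_lit 4194307) (nat_lit 9899606479) (.two (nat_lit 4194305) (nat_lit 2886730708) (.two (nat_lit 2097152) (nat_lit 4197081) (.one (nat_lit 4198487) .nil)))))))),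
   .two (nat_lit 739246088) (nat_lit 337641679) (.two (nat_lit 4194304) (nat_lit 8391386) .nil),
   .two (nat_lit 18928893967) (nat_lit 10939793429) (.two (nat_lit 1846542341) (nat_lit 9802088673) (.two (nat_lit 9765388289) (nat_lit 46409973992) (.one (nat_lit 10942943294) .nil))),
   .two (nat_lit 19599982616) (nat_lit 1745879061) (.two (nat_lit 12047089669) (nat_lit 9802088673) (.two (nat_lit 34603009) (nat_lit 46409973992) (.one (nat_lit 1052761) .nil))),
   .two (nat_lit 9766436872) (nat_lit 205520934) (.two (nat_lit 8388608) (nat_lit 35653266) .nil),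
   .two (nat_lit 4194319) (nat_lit 11022630984) (.two (nat_lit 171966470) (nat_lit 37313576998) (.two (nat_lit 37748743) (nat_lit 16777587) (.two (nat_lit 708837381) (nat_lit 10369368291) (.two (nat_lit 4194305) (nat_lit 34604040) (.two (nat_lit 4194304) (nat_lit 10001319584) (.one (nat_lit 2100030) .nil)))))),
   .two (nat_lit 11551113231) (nat_lit 20652752934) (.two (nat_lit 11559501840) (nat_lit 1948254275) (.two (nat_lit 11551113224) (nat_lit 13224640709) (.two (nat_lit 11559501831) (nat_lit 606077133) (.two (nat_lit 713031684) (nat_lit 20738736351) (.two (nat_lit 713031683) (nat_lit 12148801994) (.two (nat_lit 37748737) (nat_lit 183913939924) (.two (nat_lit 2097152) (nat_lit 28793899734) (.one (nat_lit 20705185918) .nil)))))))),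
   .two (nat_lit 184986632203) (nat_lit 9881780337) (.two (nat_lit 1358954511) (nat_lit 1376780325) (.two (nat_lit 13187940358) (nat_lit 183861510341) (.two (nat_lit 1358954504) (nat_lit 13221494986) (.two (nat_lit 183845781506) (nat_lit 83886946) (.two (nat_lit 183845781508) (nat_lit 822084038) (.two (nat_lit 34603009) (nat_lit 620758557) (.two (nat_lit 1048576) (nat_lit 9781118619) (.one (nat_lit 889195302) .nil)))))))),
   .two (nat_lit 9948889103) (nat_lit 9967763493) (.two (nat_lit 9948889103) (nat_lit 20638072853) (.two (nat_lit 9948889096) (nat_lit 4632608970) (.two (nat_lit 46407876612) (nat_lit 285213126) (.two (nat_lit 46407876612) (nat_lit 83886305) (.two (nat_lit 2097153) (nat_lit 620758557) (.two (nat_lit 2097152) (nat_lit 16778926) (.one (nat_lit 285216831) .nil))))))),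
   .two (nat_lit 2889875471) (nat_lit 1310720021) (.two (nat_lit 10506731525) (nat_lit 19597885905) (.two (nat_lit 156365750273) (nat_lit 158649549035) (.one (nat_lit 2101341) .nil))),
   .two (nat_lit 157038936071) (nat_lit 37314625742) (.two (nat_lit 4194304) (nat_lit 2098863) .nil),
   .two (nat_lit 37748751) (nat_lit 721420353) (.two (nat_lit 156365750280) (nat_lit 339738718) (.two (nat_lit 822083589) (nat_lit 4599054790) (.two (nat_lit 822083589) (nat_lit 1411383521) (.two (nat_lit 9781116929) (nat_lit 159217878557) (.two (nat_lit 2097152) (nat_lit 13191087780) (.one (nat_lit 2921336923) .nil)))))),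
   .two (nat_lit 742391823) (nat_lit 159216828434) (.two (nat_lit 10370416645) (nat_lit 19596837326) (.two (nat_lit 34603009) (nat_lit 157036839147) (.one (nat_lit 19596841018) .nil))),
   .two (nat_lit 218103823) (nat_lit 11513364500) (.two (nat_lit 2902458372) (nat_lit 9802088673) (.two (nat_lit 37748737) (nat_lit 159266111720) (.one (nat_lit 2969568978) .nil))),
   .two (nat_lit 156372041735) (nat_lit 185023332390) (.two (nat_lit 2097152) (nat_lit 4197089) .nil),
   .two (nat_lit 47555018759) (nat_lit 184419352614) (.two (nat_lit 2097152) (nat_lit 4197091) .nil),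
   .two (nat_lit 10506731527) (nat_lit 337641511) (.two (nat_lit 4194304) (nat_lit 2099941) .nil),
   .two (nat_lit 28758245383) (nat_lit 2936012838) (.two (nat_lit 1048576) (nat_lit 12062819340) .nil),
   .two (nat_lit 2894069771) (nat_lit 236978297) (.two (nat_lit 4638900248) (nat_lit 46978301974) (.two (nat_lit 4599054342) (nat_lit 343933022) (.two (nat_lit 69206021) (nat_lit 184423547336) (.two (nat_lit 708837379) (nat_lit 13228835040) (.two (nat_lit 37748737) (nat_lit 10504635933) (.two (nat_lit 4194304) (nat_lit 46984595091) (.one (nat_lit 8392799) .nil))))))),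
   .two (nat_lit 1350565903) (nat_lit 158176641090) (.two (nat_lit 4194312) (nat_lit 276824158) (.two (nat_lit 4194308) (nat_lit 10007609818) (.two (nat_lit 4194307) (nat_lit 176161002) (.two (nat_lit 605028353) (nat_lit 708838361) (.two (nat_lit 1048576) (nat_lit 28760344209) (.one (nat_lit 1052768) .nil)))))),
   .two (nat_lit 1846542351) (nat_lit 11618222100) (.two (nat_lit 166129041412) (nat_lit 10007609569) (.two (nat_lit 156364701697) (nat_lit 176161000) (.one (nat_lit 8391489) .nil))),
   .two (nat_lit 639631367) (nat_lit 158158815270) (.two (nat_lit 2097152) (nat_lit 28705817612) .nil),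
   .two (nat_lit 4605345799) (nat_lit 21814575143) (.two (nat_lit 8388608) (nat_lit 4197095) .nil),
   .two (nat_lit 3525312519) (nat_lit 4194342) (.two (nat_lit 2097152) (nat_lit 10942940174) .nil),
   .two (nat_lit 50331663) (nat_lit 185020186645) (.two (nat_lit 1343225861) (nat_lit 28089254113) (.two (nat_lit 16777217) (nat_lit 4601151722) (.one (nat_lit 4198497) .nil))),
   .two (nat_lit 47548727311) (nat_lit 10552868886) (.two (nat_lit 169869314) (nat_lit 16777697) (.two (nat_lit 606076929) (nat_lit 37262196971) (.one (nat_lit 16781410) .nil))),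
   .two (nat_lit 157036838927) (nat_lit 28798091285) (.two (nat_lit 10372513797) (nat_lit 10538189022) (.two (nat_lit 4194305) (nat_lit 4028629226) (.one (nat_lit 8392804) .nil))),
   .two (nat_lit 620757007) (nat_lit 3524263958) (.two (nat_lit 1276116994) (nat_lit 4195185) (.two (nat_lit 37748737) (nat_lit 28086108663) (.one (nat_lit 1052773) .nil))),
   .two (nat_lit 813694991) (nat_lit 9768534051) (.two (nat_lit 8388623) (nat_lit 11611930645) (.two (nat_lit 742391816) (nat_lit 2961178722) (.two (nat_lit 4194306) (nat_lit 2097606) (.two (nat_lit 2889875461) (nat_lit 20638073067) (.two (nat_lit 2097153) (nat_lit 4195289) (.two (nat_lit 2097152) (nat_lit 8390294) (.one (nat_lit 8392806) .nil))))))),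
   .two (nat_lit 101711879) (nat_lit 675282982) (.two (nat_lit 1048576) (nat_lit 156569175049) .nil),
   .two (nat_lit 822083591) (nat_lit 166129041446) (.two (nat_lit 16777216) (nat_lit 11577328649) .nil),
   .two (nat_lit 158083317768) (nat_lit 20719861799) (.two (nat_lit 1048576) (nat_lit 8390324) .nil),
   .two (nat_lit 1913651207) (nat_lit 606076966) (.two (nat_lit 1048576) (nat_lit 1310721033) .nil),
   .two (nat_lit 276824079) (nat_lit 21812477990) (.two (nat_lit 276824072) (nat_lit 1344274470) (.two (nat_lit 276824072) (nat_lit 3527409861) (.two (nat_lit 4194308) (nat_lit 12617515484) (.two (nat_lit 8388609) (nat_lit 873464312) (.two (nat_lit 8388608) (nat_lit 156535621292) (.one (nat_lit 4198504) .nil)))))),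
   .two (nat_lit 47563407368) (nat_lit 9969860647) (.two (nat_lit 8388608) (nat_lit 183946445836) .nil),
   .two (nat_lit 46414168075) (nat_lit 639631397) (.two (nat_lit 612368399) (nat_lit 4028629010) (.two (nat_lit 612368392) (nat_lit 46474985567) (.two (nat_lit 169869316) (nat_lit 343933385) (.two (nat_lit 169869316) (nat_lit 47555018974) (.two (nat_lit 156372041729) (nat_lit 2988442576) (.two (nat_lit 2097152) (nat_lit 8390326) (.one (nat_lit 8392810) .nil))))))),
   .two (nat_lit 34603019) (nat_lit 166130090113) (.two (nat_lit 169869329) (nat_lit 11543773221) (.two (nat_lit 9933160454) (nat_lit 47582281923) (.two (nat_lit 1277165576) (nat_lit 739246290) (.two (nat_lit 1276116994) (nat_lit 11578376419) (.two (nat_lit 1276116996) (nat_lit 158077026759) (.two (nat_lit 156365750273) (nat_lit 1050165) (.two (nat_lit 1048576) (nat_lit 2099948) (.one (nat_lit 1052779) .nil)))))))),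
   .two (nat_lit 13191086087) (nat_lit 10906239014) (.two (nat_lit 4194304) (nat_lit 184416207883) .nil),
   .two (nat_lit 158083317784) (nat_lit 156968681493) (.two (nat_lit 1779433477) (nat_lit 10343153889) (.two (nat_lit 34603009) (nat_lit 2994733288) (.one (nat_lit 8392812) .nil))),
   .two (nat_lit 1913651207) (nat_lit 1411383334) (.two (nat_lit 1048576) (nat_lit 2098871) .nil),
   .two (nat_lit 809500679) (nat_lit 165525061670) (.two (nat_lit 4194304) (nat_lit 12047090698) .nil),
   .two (nat_lit 9934209031) (nat_lit 1929379878) (.two (nat_lit 2097152) (nat_lit 12062819340) .nil),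
   .two (nat_lit 2097159) (nat_lit 10376708303) (.two (nat_lit 2097152) (nat_lit 839912136) .nil),
   .two (nat_lit 156372041735) (nat_lit 3560964134) (.two (nat_lit 8388608) (nat_lit 12050236430) .nil),
   .two (nat_lit 174752530439) (nat_lit 37748774) (.two (nat_lit 1048576) (nat_lit 2420114443) .nil),
   .two (nat_lit 270532615) (nat_lit 19109249062) (.two (nat_lit 1048576) (nat_lit 183861511180) .nil),
   .two (nat_lit 11546918923) (nat_lit 159250382980) (.two (nat_lit 742391823) (nat_lit 1947205669) (.two (nat_lit 34603014) (nat_lit 11546919121) (.two (nat_lit 2097159) (nat_lit 10506731615) (.two (nat_lit 169869314) (nat_lit 138412259) (.two (nat_lit 270532613) (nat_lit 3527410120) (.two (nat_lit 34603009) (nat_lit 2889877025) (.two (nat_lit 1048576) (nat_lit 4197102) (.one (nat_lit 1052782) .nil)))))))),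
   .two (nat_lit 1343225863) (nat_lit 158158815271) (.two (nat_lit 2097152) (nat_lit 1862273765) .nil),
   .two (nat_lit 12114198535) (nat_lit 3560964134) (.two (nat_lit 4194304) (nat_lit 183912891401) .nil),
   .two (nat_lit 117440519) (nat_lit 11580473382) (.two (nat_lit 16777216) (nat_lit 10506732557) .nil),
   .two (nat_lit 2887778312) (nat_lit 1749024807) (.two (nat_lit 2097152) (nat_lit 4197103) .nil),
   .two (nat_lit 272629775) (nat_lit 102760487) (.two (nat_lit 272629768) (nat_lit 102760487) (.two (nat_lit 46978301960) (nat_lit 12050235488) (.two (nat_lit 46407876612) (nat_lit 158146232547) (.two (nat_lit 50331649) (nat_lit 136315392) (.two (nat_lit 16777216) (nat_lit 4197105) (.one (nat_lit 10909388931) .nil)))))),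
   .two (nat_lit 11543773191) (nat_lit 19537068070) (.two (nat_lit 1048576) (nat_lit 37320918029) .nil),
   .two (nat_lit 3531603975) (nat_lit 742391846) (.two (nat_lit 8388608) (nat_lit 184419353613) .nil),
   .two (nat_lit 10370416655) (nat_lit 37246468117) (.two (nat_lit 28690087941) (nat_lit 10538189025) (.two (nat_lit 34603009) (nat_lit 1746927851) (.one (nat_lit 1052784) .nil))),
   .two (nat_lit 721420309) (nat_lit 1317011477) (.two (nat_lit 9765388293) (nat_lit 20719861986) (.two (nat_lit 8388609) (nat_lit 46992982251) (.one (nat_lit 8392817) .nil))),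
   .two (nat_lit 46414168079) (nat_lit 21777874965) (.two (nat_lit 4605345797) (nat_lit 156532474091) (.two (nat_lit 8388609) (nat_lit 156532474091) (.one (nat_lit 1051464) .nil))),
   .two (nat_lit 654311439) (nat_lit 21778923538) (.two (nat_lit 169869316) (nat_lit 620757214) (.two (nat_lit 2097153) (nat_lit 11559502058) (.one (nat_lit 2101362) .nil))),
   .two (nat_lit 157038936071) (nat_lit 156969730086) (.two (nat_lit 4194304) (nat_lit 2099955) .nil),
   .two (nat_lit 158077026312) (nat_lit 2961178662) (.two (nat_lit 4194304) (nat_lit 184993973937) .nil),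
   .two (nat_lit 612368399) (nat_lit 21208498197) (.two (nat_lit 28758245381) (nat_lit 183953785067) (.two (nat_lit 9766436865) (nat_lit 183953785067) (.one (nat_lit 2101365) .nil))),
   .two (nat_lit 639631367) (nat_lit 11006902310) (.two (nat_lit 2097152) (nat_lit 10503587511) .nil),
   .two (nat_lit 11610882065) (nat_lit 3527409737) (.two (nat_lit 639631368) (nat_lit 4634705958) (.two (nat_lit 159232557063) (nat_lit 158646403269) (.two (nat_lit 620756995) (nat_lit 20704133343) (.two (nat_lit 620756993) (nat_lit 34603512) (.two (nat_lit 16777216) (nat_lit 1051381) (.one (nat_lit 1052791) .nil)))))),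
   .two (nat_lit 822083595) (nat_lit 236978214) (.two (nat_lit 2887778320) (nat_lit 166144770122) (.two (nat_lit 174759870472) (nat_lit 3525312707) (.two (nat_lit 20644364292) (nat_lit 2887778771) (.two (nat_lit 10385096707) (nat_lit 3458204121) (.two (nat_lit 612368385) (nat_lit 2902459338) (.two (nat_lit 1048576) (nat_lit 3539994267) (.one (nat_lit 28772929639) .nil))))))),
   .two (nat_lit 620756999) (nat_lit 20711473190) (.two (nat_lit 16777216) (nat_lit 19537070807) .nil),
   .two (nat_lit 9768534023) (nat_lit 2317352998) (.two (nat_lit 4194304) (nat_lit 2099958) .nil),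
   .two (nat_lit 2889875475) (nat_lit 4605345811) (.two (nat_lit 2889875461) (nat_lit 2994733561) (.one (nat_lit 13195284609) .nil)),
   .two (nat_lit 218103826) (nat_lit 165526110229) (.two (nat_lit 3458203653) (nat_lit 3036676328) (.one (nat_lit 16781470) .nil)),
   .two (nat_lit 171966482) (nat_lit 20705181717) (.two (nat_lit 10504634373) (nat_lit 4634706154) (.one (nat_lit 2100051) .nil)),
   .two (nat_lit 21814575125) (nat_lit 11517558805) (.two (nat_lit 69206021) (nat_lit 780140778) (.one (nat_lit 2101407) .nil)),
   .two (nat_lit 285212690) (nat_lit 156367847445) (.two (nat_lit 2902458372) (nat_lit 46409973992) (.one (nat_lit 4198560) .nil)),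
   .two (nat_lit 16777235) (nat_lit 705691682) (.two (nat_lit 50331683) (nat_lit 705691684) (.two (nat_lit 184549387) (nat_lit 37246468294) (.two (nat_lit 4194320) (nat_lit 13203669087) (.two (nat_lit 171966470) (nat_lit 11610882516) (.two (nat_lit 37748744) (nat_lit 156364701921) (.two (nat_lit 169869314) (nat_lit 165525062604) (.two (nat_lit 171966467) (nat_lit 156365751240) (.two (nat_lit 4194305) (nat_lit 21778925196) (.two (nat_lit 2097152) (nat_lit 184986635043) (.one (nat_lit 1052833) .nil)))))))))),
   .two (nat_lit 8388627) (nat_lit 71303189) (.two (nat_lit 2889875461) (nat_lit 20638073067) (.one (nat_lit 2101410) .nil)),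
   .two (nat_lit 41943075) (nat_lit 20704133158) (.two (nat_lit 41943055) (nat_lit 20704133158) (.two (nat_lit 2887778319) (nat_lit 28760342624) (.two (nat_lit 176160774) (nat_lit 10439623125) (.two (nat_lit 2097159) (nat_lit 4194758) (.two (nat_lit 806354949) (nat_lit 1178599928) (.two (nat_lit 4194307) (nat_lit 8389575) (.two (nat_lit 2097153) (nat_lit 10369369742) (.two (nat_lit 1048576) (nat_lit 183947496238) (.one (nat_lit 2101411) .nil))))))))),
   .two (nat_lit 272629794) (nat_lit 3464495142) (.two (nat_lit 8388623) (nat_lit 12117344294) (.two (nat_lit 37748743) (nat_lit 3028287963) (.two (nat_lit 708837381) (nat_lit 174692762112) (.two (nat_lit 4194305) (nat_lit 3558867979) (.two (nat_lit 1048576) (nat_lit 11007953711) (.one (nat_lit 9933163338) .nil)))))),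
   .two (nat_lit 16777235) (nat_lit 71303205) (.two (nat_lit 171966475) (nat_lit 16777426) (.two (nat_lit 721420296) (nat_lit 37249614059) (.two (nat_lit 11476664322) (nat_lit 156468511701) (.two (nat_lit 4194308) (nat_lit 218104314) (.two (nat_lit 37748737) (nat_lit 21793605267) (.two (nat_lit 1048576) (nat_lit 183848928978) (.one (nat_lit 19599986838) .nil))))))),
   .two (nat_lit 159217877059) (nat_lit 183946444820) (.two (nat_lit 1343225861) (nat_lit 2954887673) (.one (nat_lit 37314629757) .nil)),
   .two (nat_lit 21811429394) (nat_lit 10907287573) (.two (nat_lit 28757196805) (nat_lit 183913939177) (.one (nat_lit 19530780793) .nil)),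
   .two (nat_lit 285212690) (nat_lit 28086108181) (.two (nat_lit 171966469) (nat_lit 159266111720) (.one (nat_lit 1052836) .nil)),
   .two (nat_lit 16777235) (nat_lit 2954887187) (.two (nat_lit 28089253893) (nat_lit 46407877111) (.one (nat_lit 184419356800) .nil)),
   .two (nat_lit 739246099) (nat_lit 166132187156) (.two (nat_lit 739246085) (nat_lit 184989778155) (.one (nat_lit 1052837) .nil)),
   .two (nat_lit 47584378898) (nat_lit 2927624213) (.two (nat_lit 156372041733) (nat_lit 10506731754) (.one (nat_lit 4601155724) .nil)),
   .two (nat_lit 285212691) (nat_lit 2923429908) (.two (nat_lit 46409973764) (nat_lit 13237223656) (.one (nat_lit 21827160911) .nil)),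
   .two (nat_lit 889192469) (nat_lit 11543773203) (.two (nat_lit 16777221) (nat_lit 1343226088) (.one (nat_lit 185020189517) .nil)),
   .two (nat_lit 8388627) (nat_lit 9899606087) (.two (nat_lit 8388644) (nat_lit 1048613) (.two (nat_lit 4194319) (nat_lit 276824161) (.two (nat_lit 4194319) (nat_lit 276824158) (.two (nat_lit 171966470) (nat_lit 34603462) (.two (nat_lit 8388616) (nat_lit 605028577) (.two (nat_lit 4194306) (nat_lit 1049560) (.two (nat_lit 4194307) (nat_lit 10544481225) (.two (nat_lit 4194305) (nat_lit 1050274) (.two (nat_lit 1048576) (nat_lit 4197171) (.one (nat_lit 183845785723) .nil)))))))))),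
   .two (nat_lit 2961178658) (nat_lit 28691136550) (.two (nat_lit 2887778319) (nat_lit 28760342566) (.two (nat_lit 9768534024) (nat_lit 672137443) (.two (nat_lit 272629765) (nat_lit 37313577473) (.two (nat_lit 2097153) (nat_lit 9765389321) (.two (nat_lit 2097152) (nat_lit 174755679023) (.one (nat_lit 2954890058) .nil)))))),
   .two (nat_lit 4631560213) (nat_lit 11517558806) (.two (nat_lit 203423749) (nat_lit 184986632427) (.one (nat_lit 8392870) .nil)),
   .two (nat_lit 4599054354) (nat_lit 4605345856) (.two (nat_lit 4599054347) (nat_lit 343933022) (.two (nat_lit 176160774) (nat_lit 19530776801) (.two (nat_lit 169869314) (nat_lit 343933904) (.two (nat_lit 203423749) (nat_lit 46414168296) (.two (nat_lit 606076929) (nat_lit 8390307) (.two (nat_lit 8388608) (nat_lit 2100020) (.one (nat_lit 2894074013) .nil))))))),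
   .two (nat_lit 16777250) (nat_lit 13187940390) (.two (nat_lit 16777231) (nat_lit 13187940390) (.two (nat_lit 2954887175) (nat_lit 4598006231) (.two (nat_lit 2887778307) (nat_lit 1745879544) (.two (nat_lit 2097153) (nat_lit 2365588492) (.two (nat_lit 2097152) (nat_lit 16780085) (.one (nat_lit 37313581200) .nil)))))),
   .two (nat_lit 4632608786) (nat_lit 272629781) (.two (nat_lit 10506731525) (nat_lit 9934209258) (.one (nat_lit 157038940319) .nil)),
   .two (nat_lit 2887778324) (nat_lit 2920284182) (.two (nat_lit 1276116996) (nat_lit 10504634602) (.one (nat_lit 12618567821) .nil)),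
   .two (nat_lit 28093448230) (nat_lit 3525312546) (.two (nat_lit 3525312527) (nat_lit 1753219110) (.two (nat_lit 654311431) (nat_lit 10436477151) (.two (nat_lit 270532613) (nat_lit 20711473664) (.two (nat_lit 2097153) (nat_lit 158150427136) (.two (nat_lit 16777216) (nat_lit 8391480) (.one (nat_lit 166136385690) .nil)))))),
   .two (nat_lit 8388627) (nat_lit 12117344274) (.two (nat_lit 8388612) (nat_lit 19096666344) (.one (nat_lit 8392873) .nil)),
   .two (nat_lit 8388613) (nat_lit 16777228) (.two (nat_lit 16777217) (nat_lit 9772728443) (.one (nat_lit 16780131) .nil)),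
   .two (nat_lit 47548727301) (nat_lit 10338959375) (.two (nat_lit 2097152) (nat_lit 28089254156) (.one (nat_lit 4198571) .nil)),
   .two (nat_lit 4601151493) (nat_lit 3028287625) (.one (nat_lit 4196224) .nil),
   .two (nat_lit 50331653) (nat_lit 1413480491) (.two (nat_lit 16777216) (nat_lit 2098191) (.one (nat_lit 2101420) .nil)),
   .two (nat_lit 2097157) (nat_lit 20644364303) (.two (nat_lit 1048576) (nat_lit 4194601) (.one (nat_lit 4198573) .nil)),
   .two (nat_lit 8388612) (nat_lit 83886197) (.one (nat_lit 159257724660) .nil),
   .two (nat_lit 4194308) (nat_lit 11492393612) .nil,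
   .two (nat_lit 21785214981) (nat_lit 46409973775) (.two (nat_lit 2097152) (nat_lit 2923430005) (.one (nat_lit 4198574) .nil)),
   .two (nat_lit 8388613) (nat_lit 2316304397) (.two (nat_lit 8388609) (nat_lit 166196150373) (.two (nat_lit 1048576) (nat_lit 8388675) (.one (nat_lit 8392879) .nil))),
   .two (nat_lit 16777220) (nat_lit 1417674869) (.one (nat_lit 352323305) .nil),
   .two (nat_lit 705691652) (nat_lit 1753219722) .nil,
   .two (nat_lit 2894069765) (nat_lit 18928893960) (.two (nat_lit 37748737) (nat_lit 13228835089) (.one (nat_lit 4198576) .nil)),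
   .two (nat_lit 46407876612) (nat_lit 158083317868) (.one (nat_lit 8392881) .nil),
   .two (nat_lit 4599054341) (nat_lit 1916797045) (.one (nat_lit 4197242) .nil),
   .two (nat_lit 75497477) (nat_lit 2902458376) (.two (nat_lit 612368385) (nat_lit 3539992599) (.two (nat_lit 8388608) (nat_lit 16778257) (.one (nat_lit 16778480) .nil))),
   .two (nat_lit 16777220) (nat_lit 20644364303) (.two (nat_lit 8388608) (nat_lit 2365587582) (.one (nat_lit 176162546) .nil)),
   .two (nat_lit 46980399109) (nat_lit 46422556718) (.two (nat_lit 4194304) (nat_lit 11525947691) (.one (nat_lit 184431938412) .nil)),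
   .two (nat_lit 50331653) (nat_lit 9899606141) (.one (nat_lit 1309672554) .nil),
   .two (nat_lit 203423749) (nat_lit 9802088460) (.two (nat_lit 2097153) (nat_lit 156468510973) (.one (nat_lit 4198578) .nil)),
   .two (nat_lit 8388616) (nat_lit 9967763480) (.two (nat_lit 2097153) (nat_lit 165532401936) (.two (nat_lit 2097152) (nat_lit 8391510) (.one (nat_lit 2101463) .nil))),
   .two (nat_lit 83886088) (nat_lit 28757196815) (.two (nat_lit 50331649) (nat_lit 156364702058) (.one (nat_lit 1052888) .nil)),
   .two (nat_lit 10504634376) (nat_lit 156569174028) (.two (nat_lit 3525312517) (nat_lit 47584378929) (.two (nat_lit 2097153) (nat_lit 156468510849) (.two (nat_lit 4194304) (nat_lit 270533305) (.one (nat_lit 2100330) .nil)))),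
   .two (nat_lit 822083592) (nat_lit 28693233688) (.two (nat_lit 9768534017) (nat_lit 19042140792) (.one (nat_lit 19109251302) .nil)),
   .two (nat_lit 1277165576) (nat_lit 18925748232) (.two (nat_lit 1277165572) (nat_lit 12047089679) (.two (nat_lit 16777217) (nat_lit 1746927734) (.two (nat_lit 16777216) (nat_lit 20705182350) (.one (nat_lit 2100339) .nil)))),
   .two (nat_lit 9766436872) (nat_lit 46409973773) (.two (nat_lit 171966469) (nat_lit 4028629127) (.two (nat_lit 4194304) (nat_lit 28691137585) (.one (nat_lit 1051765) .nil))),
   .two (nat_lit 1175453704) (nat_lit 183962173453) (.two (nat_lit 11492392965) (nat_lit 739246103) (.two (nat_lit 8388609) (nat_lit 159217878049) (.one (nat_lit 2100195) .nil))),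
   .two (nat_lit 184549384) (nat_lit 19027460109) (.two (nat_lit 184549380) (nat_lit 11477712940) (.two (nat_lit 2097153) (nat_lit 218104415) (.one (nat_lit 16781529) .nil))),
   .two (nat_lit 9768534024) (nat_lit 3458203656) (.two (nat_lit 47548727301) (nat_lit 46510637170) (.two (nat_lit 2097152) (nat_lit 156569174883) .nil)),
   .two (nat_lit 3460300808) (nat_lit 18933088369) (.two (nat_lit 4194304) (nat_lit 9974056258) .nil),
   .two (nat_lit 721420296) (nat_lit 4605345805) (.two (nat_lit 4605345797) (nat_lit 117440755) (.two (nat_lit 8388608) (nat_lit 117441112) (.one (nat_lit 8391803) .nil))),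
   .two (nat_lit 11476664328) (nat_lit 9781116953) (.two (nat_lit 2097153) (nat_lit 679478322) (.one (nat_lit 2101466) .nil)),
   .two (nat_lit 46409973768) (nat_lit 28690087951) (.two (nat_lit 4194305) (nat_lit 1947205910) (.two (nat_lit 4194304) (nat_lit 10906240060) (.one (nat_lit 1051772) .nil))),
   .two (nat_lit 739246093) (nat_lit 18933088269) (.two (nat_lit 4605345797) (nat_lit 101711916) (.two (nat_lit 8388609) (nat_lit 10906239232) (.two (nat_lit 2097152) (nat_lit 156372042791) (.one (nat_lit 8391805) .nil)))),
   .two (nat_lit 1291845640) (nat_lit 3028287501) (.two (nat_lit 176160773) (nat_lit 1795162127) (.two (nat_lit 620756993) (nat_lit 183853122136) (.one (nat_lit 8392923) .nil))),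
   .two (nat_lit 10336862216) (nat_lit 1846542351) (.two (nat_lit 2097153) (nat_lit 166196152504) .nil),
   .two (nat_lit 41943048) (nat_lit 83886095) (.two (nat_lit 2097153) (nat_lit 3573547129) (.two (nat_lit 2097152) (nat_lit 8390377) (.one (nat_lit 16781532) .nil))),
   .two (nat_lit 2902458376) (nat_lit 739246088) (.two (nat_lit 11543773189) (nat_lit 10385096820) (.two (nat_lit 16777216) (nat_lit 183845783631) .nil)),
   .two (nat_lit 183848927240) (nat_lit 10504634383) (.two (nat_lit 37748737) (nat_lit 46474985586) (.two (nat_lit 4194304) (nat_lit 2099434) .nil)),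
   .two (nat_lit 713031688) (nat_lit 675282968) (.two (nat_lit 41943041) (nat_lit 158079123714) (.two (nat_lit 8388608) (nat_lit 183949591621) (.one (nat_lit 4197508) .nil))),
   .two (nat_lit 11559501832) (nat_lit 166230753305) (.two (nat_lit 2097153) (nat_lit 156481093884) (.two (nat_lit 8388608) (nat_lit 166130090632) (.one (nat_lit 16781533) .nil))),
   .two (nat_lit 104857608) (nat_lit 12147753085) (.two (nat_lit 1048576) (nat_lit 4601152218) (.one (nat_lit 1052894) .nil)),
   .two (nat_lit 37748744) (nat_lit 47555018767) (.two (nat_lit 2097153) (nat_lit 1379926135) (.two (nat_lit 2097152) (nat_lit 4195432) (.one (nat_lit 8391815) .nil))),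
   .two (nat_lit 2889875464) (nat_lit 9881780341) (.two (nat_lit 16777216) (nat_lit 19532874338) (.one (nat_lit 4198623) .nil)),
   .two (nat_lit 176160776) (nat_lit 2316304409) (.two (nat_lit 16777217) (nat_lit 10906241174) .nil),
   .two (nat_lit 20644364296) (nat_lit 9967763496) (.two (nat_lit 50331649) (nat_lit 46414168189) (.two (nat_lit 8388608) (nat_lit 35653348) (.one (nat_lit 2100362) .nil))),
   .two (nat_lit 9948889096) (nat_lit 11007950861) (.two (nat_lit 10504634373) (nat_lit 9948889103) (.two (nat_lit 9766436865) (nat_lit 9982445647) .nil)),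
   .two (nat_lit 158075977736) (nat_lit 654311437) (.two (nat_lit 1358954501) (nat_lit 174752530447) (.two (nat_lit 605028353) (nat_lit 1291846239) (.one (nat_lit 1051791) .nil))),
   .two (nat_lit 183853121544) (nat_lit 2416967693) (.two (nat_lit 184993972229) (nat_lit 4027580460) (.two (nat_lit 9765388289) (nat_lit 880804913) (.one (nat_lit 13228837010) .nil))),
   .two (nat_lit 2902458376) (nat_lit 46477082637) (.two (nat_lit 117440517) (nat_lit 2349858931) (.two (nat_lit 4194304) (nat_lit 2936014942) .nil)),
   .two (nat_lit 2988441613) (nat_lit 2420113421) (.two (nat_lit 19599982597) (nat_lit 20638072876) (.two (nat_lit 2097153) (nat_lit 166144770167) (.two (nat_lit 4194304) (nat_lit 156365751672) .nil))),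
   .two (nat_lit 16777224) (nat_lit 183949590641) (.two (nat_lit 16777216) (nat_lit 2990540168) .nil),
   .two (nat_lit 13191086088) (nat_lit 4027580459) (.two (nat_lit 4194305) (nat_lit 20704133245) (.two (nat_lit 4194304) (nat_lit 1049706) (.one (nat_lit 156566029699) .nil))),
   .two (nat_lit 2887778312) (nat_lit 159224168461) (.two (nat_lit 159224168453) (nat_lit 3525312536) (.two (nat_lit 34603009) (nat_lit 8389130) (.two (nat_lit 1048576) (nat_lit 183920232777) .nil))),
   .two (nat_lit 9866051592) (nat_lit 2420113421) (.two (nat_lit 1343225861) (nat_lit 21814575206) (.two (nat_lit 620756993) (nat_lit 269484150) (.two (nat_lit 16777216) (nat_lit 174685424555) .nil))),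
   .two (nat_lit 11492392968) (nat_lit 19532873736) (.two (nat_lit 822083589) (nat_lit 37316722713) (.two (nat_lit 2097153) (nat_lit 9869197434) (.two (nat_lit 4194304) (nat_lit 158177690679) (.one (nat_lit 2101472) .nil)))),
   .two (nat_lit 50331656) (nat_lit 75497487) (.two (nat_lit 16777217) (nat_lit 183913939065) (.two (nat_lit 2097152) (nat_lit 352323305) (.one (nat_lit 2100151) .nil))),
   .two (nat_lit 11479810056) (nat_lit 20711473201) (.two (nat_lit 37748737) (nat_lit 156573368451) (.two (nat_lit 1048576) (nat_lit 166132187764) (.one (nat_lit 4197527) .nil))),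
   .two (nat_lit 713031688) (nat_lit 9948889096) (.two (nat_lit 184549380) (nat_lit 184993973090) .nil),
   .two (nat_lit 184419352584) (nat_lit 158075977736) (.two (nat_lit 21777874949) (nat_lit 166232850560) (.two (nat_lit 1048576) (nat_lit 71303812) (.one (nat_lit 4197530) .nil))),
   .two (nat_lit 2969567240) (nat_lit 12054429763) (.two (nat_lit 8388608) (nat_lit 16778988) (.one (nat_lit 16781537) .nil)),
   .two (nat_lit 1175453704) (nat_lit 10909384717) (.two (nat_lit 16777221) (nat_lit 158143086615) (.two (nat_lit 4194305) (nat_lit 705691909) (.two (nat_lit 4194304) (nat_lit 1209009209) (.one (nat_lit 4197532) .nil)))),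
   .two (nat_lit 3539992584) (nat_lit 11007950861) (.two (nat_lit 28758245381) (nat_lit 1191182471) (.two (nat_lit 1048576) (nat_lit 13203669664) (.one (nat_lit 16780445) .nil))),
   .two (nat_lit 1358954504) (nat_lit 1947205646) (.two (nat_lit 9933160453) (nat_lit 1358954511) (.two (nat_lit 50331649) (nat_lit 10003416140) (.one (nat_lit 4197535) .nil))),
   .two (nat_lit 37748744) (nat_lit 117440527) (.two (nat_lit 4194305) (nat_lit 37247516809) (.two (nat_lit 16777216) (nat_lit 4197398) .nil)),
   .two (nat_lit 1191182344) (nat_lit 135266318) (.two (nat_lit 159216828421) (nat_lit 1795162225) (.two (nat_lit 4194304) (nat_lit 19109250394) .nil)),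
   .two (nat_lit 9781116936) (nat_lit 772800525) (.two (nat_lit 739246085) (nat_lit 1291846248) (.one (nat_lit 37313580068) .nil)),
   .two (nat_lit 203423752) (nat_lit 47555018887) (.two (nat_lit 2097152) (nat_lit 880806101) .nil),
   .two (nat_lit 8388616) (nat_lit 3460300808) (.two (nat_lit 171966469) (nat_lit 8388623) (.two (nat_lit 4194305) (nat_lit 9766437001) (.two (nat_lit 4194304) (nat_lit 21207450662) (.one (nat_lit 8392930) .nil)))),
   .two (nat_lit 272629768) (nat_lit 10955522092) (.two (nat_lit 620756993) (nat_lit 46409974450) (.one (nat_lit 4196590) .nil)),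
   .two (nat_lit 12054429704) (nat_lit 10939793416) (.two (nat_lit 174752530437) (nat_lit 3464495835) (.one (nat_lit 8392931) .nil)),
   .two (nat_lit 612368392) (nat_lit 4613734408) (.two (nat_lit 16777220) (nat_lit 1417674865) (.two (nat_lit 1048576) (nat_lit 46414171036) .nil)),
   .two (nat_lit 9781116941) (nat_lit 158143086605) (.two (nat_lit 1795162117) (nat_lit 2349858931) (.two (nat_lit 4194304) (nat_lit 12633244998) .nil)),
   .two (nat_lit 4194312) (nat_lit 47555018764) (.two (nat_lit 176160773) (nat_lit 843055128) (.two (nat_lit 41943041) (nat_lit 157038937835) (.one (nat_lit 4197543) .nil))),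
   .two (nat_lit 3458203656) (nat_lit 28093448200) (.two (nat_lit 1753219077) (nat_lit 3458203714) (.two (nat_lit 8388608) (nat_lit 28791800169) (.one (nat_lit 2887780673) .nil))),
   .two (nat_lit 9802088460) (nat_lit 11007950860) (.two (nat_lit 28760342533) (nat_lit 673185905) (.two (nat_lit 8388608) (nat_lit 1310722140) .nil)),
   .two (nat_lit 10506731532) (nat_lit 18933088270) (.two (nat_lit 4605345797) (nat_lit 28693233779) (.two (nat_lit 1048576) (nat_lit 1954547075) .nil)),
   .two (nat_lit 1795162125) (nat_lit 2920284286) (.two (nat_lit 16777216) (nat_lit 21777876704) (.one (nat_lit 18925750326) .nil)),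
   .two (nat_lit 169869320) (nat_lit 2994733192) (.two (nat_lit 2097152) (nat_lit 2920287165) .nil),
   .two (nat_lit 20638072840) (nat_lit 10343153677) (.two (nat_lit 10343153669) (nat_lit 166230753984) (.one (nat_lit 46508541278) .nil)),
   .two (nat_lit 47555018760) (nat_lit 166230753293) (.two (nat_lit 2954887173) (nat_lit 47555018767) (.two (nat_lit 2097153) (nat_lit 813695627) (.one (nat_lit 8392932) .nil))),
   .two (nat_lit 11543773192) (nat_lit 37249613837) (.two (nat_lit 739246085) (nat_lit 12117344371) (.two (nat_lit 1048576) (nat_lit 158649549900) (.one (nat_lit 4197552) .nil))),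
   .two (nat_lit 205520904) (nat_lit 1191182451) (.two (nat_lit 4194304) (nat_lit 159232559143) .nil),
   .two (nat_lit 183848927240) (nat_lit 18933088271) (.two (nat_lit 41943041) (nat_lit 809500946) (.two (nat_lit 8388608) (nat_lit 4196082) (.one (nat_lit 4198629) .nil))),
   .two (nat_lit 184549384) (nat_lit 705691656) (.two (nat_lit 34603013) (nat_lit 9881780248) (.two (nat_lit 2097153) (nat_lit 11577328255) (.one (nat_lit 16780465) .nil))),
   .two (nat_lit 654311432) (nat_lit 47548727309) (.two (nat_lit 4599054341) (nat_lit 654311439) (.two (nat_lit 2097153) (nat_lit 1795162227) (.two (nat_lit 1048576) (nat_lit 4613735460) (.one (nat_lit 270536902) .nil)))),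
   .two (nat_lit 166132187144) (nat_lit 11559501836) (.two (nat_lit 721420293) (nat_lit 28693233688) (.two (nat_lit 16777217) (nat_lit 1849688736) (.one (nat_lit 4197554) .nil))),
   .two (nat_lit 83886088) (nat_lit 1913651213) (.two (nat_lit 10503585797) (nat_lit 620757108) (.two (nat_lit 8388608) (nat_lit 1291846328) (.one (nat_lit 1052902) .nil))),
   .two (nat_lit 218103816) (nat_lit 2927624328) (.two (nat_lit 2097152) (nat_lit 16780192) .nil),
   .two (nat_lit 20644364296) (nat_lit 37313576973) (.two (nat_lit 28757196805) (nat_lit 183953784951) (.two (nat_lit 1048576) (nat_lit 343933565) (.one (nat_lit 8391010) .nil))),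
   .two (nat_lit 721420296) (nat_lit 12147753026) (.two (nat_lit 16777216) (nat_lit 1947206499) .nil),
   .two (nat_lit 13195280397) (nat_lit 10907287566) (.two (nat_lit 1795162117) (nat_lit 3558867010) (.two (nat_lit 1048576) (nat_lit 9873393380) (.one (nat_lit 8391861) .nil))),
   .two (nat_lit 205520904) (nat_lit 620757006) (.two (nat_lit 50331653) (nat_lit 166199296132) (.two (nat_lit 2097152) (nat_lit 10003415721) (.one (nat_lit 16781543) .nil))),
   .two (nat_lit 10385096717) (nat_lit 1916796941) (.two (nat_lit 1191182341) (nat_lit 166132187248) (.two (nat_lit 1048576) (nat_lit 10540286607) (.one (nat_lit 4197559) .nil))),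
   .two (nat_lit 37748744) (nat_lit 285212687) (.two (nat_lit 4194305) (nat_lit 11511268003) (.one (nat_lit 2101480) .nil)),
   .two (nat_lit 41943048) (nat_lit 46409973783) (.two (nat_lit 605028353) (nat_lit 183916036217) (.two (nat_lit 16777216) (nat_lit 19033753318) (.one (nat_lit 1052905) .nil))),
   .two (nat_lit 713031688) (nat_lit 202375294) (.two (nat_lit 8388608) (nat_lit 1050355) (.one (nat_lit 1052906) .nil)),
   .two (nat_lit 75497480) (nat_lit 822083599) (.two (nat_lit 16777217) (nat_lit 20705182387) (.one (nat_lit 2101483) .nil)),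
   .two (nat_lit 176160776) (nat_lit 2988441625) (.two (nat_lit 2097153) (nat_lit 159250382983) (.two (nat_lit 2097152) (nat_lit 772801148) (.one (nat_lit 8391867) .nil))),
   .two (nat_lit 2902458376) (nat_lit 1178599468) (.two (nat_lit 4194305) (nat_lit 822083942) (.one (nat_lit 16781548) .nil)),
   .two (nat_lit 276824072) (nat_lit 3458203663) (.two (nat_lit 34603009) (nat_lit 19128123509) (.two (nat_lit 1048576) (nat_lit 156969730709) (.one (nat_lit 8392941) .nil))),
   .two (nat_lit 169869320) (nat_lit 1279262763) (.two (nat_lit 2097153) (nat_lit 2956984579) (.two (nat_lit 2097152) (nat_lit 174755676833) (.one (nat_lit 1052910) .nil))),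
   .two (nat_lit 12054429704) (nat_lit 156968681480) (.two (nat_lit 19596836869) (nat_lit 3464495835) (.one (nat_lit 8392943) .nil)),
   .two (nat_lit 11479810056) (nat_lit 157036838936) (.two (nat_lit 50331649) (nat_lit 156533523093) (.one (nat_lit 174753581096) .nil)),
   .two (nat_lit 4601151496) (nat_lit 12114198536) (.two (nat_lit 11476664324) (nat_lit 11513364547) (.two (nat_lit 4194304) (nat_lit 269485134) (.one (nat_lit 11010050264) .nil))),
   .two (nat_lit 28690087944) (nat_lit 19029557261) (.two (nat_lit 8388613) (nat_lit 135266344) (.two (nat_lit 4194305) (nat_lit 739246795) (.one (nat_lit 8391868) .nil))),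
   .two (nat_lit 11543773192) (nat_lit 20711473177) (.two (nat_lit 612368385) (nat_lit 185020186690) (.two (nat_lit 8388608) (nat_lit 19026411881) (.one (nat_lit 1052912) .nil))),
   .two (nat_lit 176160776) (nat_lit 9881780239) (.two (nat_lit 620756993) (nat_lit 47555018862) (.two (nat_lit 1048576) (nat_lit 166136383611) .nil)),
   .two (nat_lit 11476664328) (nat_lit 822083598) (.two (nat_lit 9781116933) (nat_lit 18925748868) (.one (nat_lit 8392945) .nil)),
   .two (nat_lit 183845781512) (nat_lit 165532401679) (.two (nat_lit 2097153) (nat_lit 11618222205) (.two (nat_lit 8388608) (nat_lit 1049309) (.one (nat_lit 1052914) .nil))),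
   .two (nat_lit 713031693) (nat_lit 1376780301) (.two (nat_lit 713031685) (nat_lit 21811429513) (.two (nat_lit 16777216) (nat_lit 1384123411) .nil)),
   .two (nat_lit 1291845640) (nat_lit 174753579021) (.two (nat_lit 28758245381) (nat_lit 687866133) (.two (nat_lit 2097152) (nat_lit 687868911) .nil)),
   .two (nat_lit 11476664328) (nat_lit 1916796943) (.two (nat_lit 37748737) (nat_lit 12047089938) (.two (nat_lit 4194304) (nat_lit 1050356) (.one (nat_lit 4197570) .nil))),
   .two (nat_lit 184549384) (nat_lit 46984593655) (.two (nat_lit 8388608) (nat_lit 150997927) .nil),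
   .two (nat_lit 157036838920) (nat_lit 19596837000) (.two (nat_lit 2097152) (nat_lit 183946445884) (.one (nat_lit 2100423) .nil)),
   .two (nat_lit 612368392) (nat_lit 20638072847) (.two (nat_lit 9765388289) (nat_lit 174753579699) (.one (nat_lit 2100424) .nil)),
   .two (nat_lit 654311436) (nat_lit 159251431438) (.two (nat_lit 639631365) (nat_lit 9781117043) (.two (nat_lit 8388608) (nat_lit 20652755858) .nil)),
   .two (nat_lit 9948889096) (nat_lit 12054429704) (.two (nat_lit 184549380) (nat_lit 12624855063) (.two (nat_lit 4194305) (nat_lit 21818769533) (.two (nat_lit 4194304) (nat_lit 8389747) (.one (nat_lit 4198643) .nil)))),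
   .two (nat_lit 46407876616) (nat_lit 28093448205) (.two (nat_lit 639631365) (nat_lit 28086108185) (.two (nat_lit 41943041) (nat_lit 156465365631) (.one (nat_lit 1052916) .nil))),
   .two (nat_lit 158075977736) (nat_lit 654311437) (.two (nat_lit 1358954501) (nat_lit 174752530447) (.two (nat_lit 605028353) (nat_lit 1291846239) (.one (nat_lit 101715087) .nil))),
   .two (nat_lit 9768534024) (nat_lit 3458203656) (.two (nat_lit 47548727301) (nat_lit 10506731630) (.two (nat_lit 2097152) (nat_lit 46510637662) (.one (nat_lit 4196722) .nil))),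
   .two (nat_lit 739246088) (nat_lit 9781116953) (.two (nat_lit 16777217) (nat_lit 174692761736) (.two (nat_lit 4194304) (nat_lit 11517559909) (.one (nat_lit 8391892) .nil))),
   .two (nat_lit 813694984) (nat_lit 9881780239) (.two (nat_lit 2097153) (nat_lit 19033751673) (.two (nat_lit 2097152) (nat_lit 16778360) (.one (nat_lit 16781557) .nil))),
   .two (nat_lit 46409973768) (nat_lit 21785214988) (.two (nat_lit 75497477) (nat_lit 19532873844) (.two (nat_lit 8388608) (nat_lit 10909386986) .nil)),
   .two (nat_lit 10336862216) (nat_lit 166129041432) (.two (nat_lit 2097153) (nat_lit 839909628) (.two (nat_lit 1048576) (nat_lit 10504635458) (.one (nat_lit 840960348) .nil))),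
   .two (nat_lit 159251431436) (nat_lit 156465365005) (.two (nat_lit 1779433477) (nat_lit 20738736245) (.two (nat_lit 2097152) (nat_lit 11577330877) .nil)),
   .two (nat_lit 11559501832) (nat_lit 184416206856) (.two (nat_lit 12114198533) (nat_lit 1426064073) (.one (nat_lit 16780512) .nil)),
   .two (nat_lit 75497480) (nat_lit 9798942787) (.two (nat_lit 1048576) (nat_lit 1746928703) (.one (nat_lit 8392950) .nil)),
   .two (nat_lit 50331656) (nat_lit 1849688072) (.two (nat_lit 16777220) (nat_lit 1178599450) (.two (nat_lit 34603009) (nat_lit 2319451867) (.one (nat_lit 4198647) .nil))),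
   .two (nat_lit 46414168072) (nat_lit 673185816) (.two (nat_lit 2097153) (nat_lit 18933088891) (.one (nat_lit 3531605352) .nil)),
   .two (nat_lit 83886088) (nat_lit 169869335) (.two (nat_lit 620756993) (nat_lit 185021235458) (.two (nat_lit 16777216) (nat_lit 19027461189) (.one (nat_lit 16780518) .nil))),
   .two (nat_lit 46978301960) (nat_lit 21811429388) (.two (nat_lit 21777874949) (nat_lit 46474985588) (.two (nat_lit 1048576) (nat_lit 2988442250) (.one (nat_lit 1052920) .nil))),
   .two (nat_lit 46407876616) (nat_lit 19130220659) (.two (nat_lit 2097152) (nat_lit 4195450) (.one (nat_lit 1052921) .nil)),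
   .two (nat_lit 12054429704) (nat_lit 156968681480) (.two (nat_lit 19596836869) (nat_lit 166237045405) (.one (nat_lit 8391911) .nil)),
   .two (nat_lit 46978301960) (nat_lit 18928893960) (.two (nat_lit 156367847429) (nat_lit 46407876972) (.one (nat_lit 35652996) .nil)),
   .two (nat_lit 721420296) (nat_lit 2987393150) (.two (nat_lit 1048576) (nat_lit 156984410472) (.one (nat_lit 16781562) .nil)),
   .two (nat_lit 713031688) (nat_lit 174755676172) (.two (nat_lit 272629765) (nat_lit 13228834857) (.two (nat_lit 2097153) (nat_lit 1849688129) (.two (nat_lit 2097152) (nat_lit 4196088) (.one (nat_lit 2101499) .nil)))),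
   .two (nat_lit 159251431436) (nat_lit 37246468109) (.two (nat_lit 12114198533) (nat_lit 158144135208) (.two (nat_lit 34603009) (nat_lit 166230753519) (.two (nat_lit 2097152) (nat_lit 1050361) (.one (nat_lit 1051884) .nil)))),
   .two (nat_lit 612368392) (nat_lit 165528207373) (.two (nat_lit 83886085) (nat_lit 166237045398) (.one (nat_lit 4198653) .nil)),
   .two (nat_lit 4601151496) (nat_lit 12114198594) (.two (nat_lit 4194304) (nat_lit 605028994) (.one (nat_lit 1051885) .nil)),
   .two (nat_lit 1178599432) (nat_lit 10336862223) (.two (nat_lit 34603009) (nat_lit 11578376313) (.two (nat_lit 1048576) (nat_lit 165526110856) (.one (nat_lit 4198654) .nil))),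
   .two (nat_lit 203423752) (nat_lit 1178599432) (.two (nat_lit 809500677) (nat_lit 9766436888) (.two (nat_lit 9768534017) (nat_lit 19530776714) (.two (nat_lit 4194304) (nat_lit 2098940) (.one (nat_lit 171967884) .nil)))),
   .two (nat_lit 176160776) (nat_lit 1210056753) (.two (nat_lit 8388609) (nat_lit 1310720272) (.two (nat_lit 8388608) (nat_lit 2100056) (.one (nat_lit 8392959) .nil))),
   .two (nat_lit 9768534024) (nat_lit 10336862223) (.two (nat_lit 612368385) (nat_lit 37314626660) (.one (nat_lit 11477715934) .nil)),
   .two (nat_lit 2954887176) (nat_lit 1358954504) (.two (nat_lit 721420293) (nat_lit 3558867011) (.two (nat_lit 16777216) (nat_lit 2098302) (.one (nat_lit 2100466) .nil))),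
   .two (nat_lit 809500680) (nat_lit 343932941) (.two (nat_lit 4194308) (nat_lit 1417674792) (.two (nat_lit 4194305) (nat_lit 10544481313) (.one (nat_lit 4197619) .nil))),
   .two (nat_lit 9934209032) (nat_lit 156367847432) (.two (nat_lit 1178599429) (nat_lit 159251431448) (.two (nat_lit 2097153) (nat_lit 13224641116) (.one (nat_lit 4198656) .nil))),
   .two (nat_lit 159224168460) (nat_lit 19027460198) (.two (nat_lit 2097153) (nat_lit 4605345917) (.two (nat_lit 1048576) (nat_lit 13228836918) .nil)),
   .two (nat_lit 166132187144) (nat_lit 28086108174) (.two (nat_lit 184986632197) (nat_lit 166132187201) (.two (nat_lit 1048576) (nat_lit 166132187732) (.one (nat_lit 4196741) .nil))),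
   .two (nat_lit 3525312520) (nat_lit 158143086600) (.two (nat_lit 1276116996) (nat_lit 3525312527) (.two (nat_lit 2097153) (nat_lit 158143086859) (.two (nat_lit 2097152) (nat_lit 156465365597) (.one (nat_lit 1052929) .nil)))),
   .two (nat_lit 721420296) (nat_lit 19093520409) (.two (nat_lit 8388609) (nat_lit 9814671981) (.one (nat_lit 1052930) .nil)),
   .two (nat_lit 639631368) (nat_lit 9802088557) (.two (nat_lit 2097152) (nat_lit 4195043) (.one (nat_lit 2101507) .nil)),
   .two (nat_lit 20637024264) (nat_lit 19134414892) (.two (nat_lit 37748737) (nat_lit 13221495307) (.two (nat_lit 4194304) (nat_lit 8390397) (.one (nat_lit 1052932) .nil))),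
   .two (nat_lit 37748744) (nat_lit 9948889103) (.two (nat_lit 16777217) (nat_lit 205521157) (.two (nat_lit 2097152) (nat_lit 1413483574) .nil)),
   .two (nat_lit 10370416648) (nat_lit 159250382893) (.two (nat_lit 606076929) (nat_lit 1048856) (.two (nat_lit 2097152) (nat_lit 1050366) (.one (nat_lit 2101509) .nil))),
   .two (nat_lit 10385096717) (nat_lit 9899606030) (.two (nat_lit 34603013) (nat_lit 1191182451) (.two (nat_lit 2097152) (nat_lit 11525948049) (.one (nat_lit 16780401) .nil))),
   .two (nat_lit 3464495112) (nat_lit 183848927247) (.two (nat_lit 8388609) (nat_lit 19532874006) (.two (nat_lit 4194304) (nat_lit 21818769769) (.one (nat_lit 8392966) .nil))),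
   .two (nat_lit 10336862216) (nat_lit 117440524) (.two (nat_lit 165526110213) (nat_lit 1795162229) (.two (nat_lit 2097152) (nat_lit 1795162720) (.one (nat_lit 16780550) .nil))),
   .two (nat_lit 8388616) (nat_lit 156365750280) (.two (nat_lit 3458203653) (nat_lit 8388623) (.two (nat_lit 50331649) (nat_lit 2961179752) (.one (nat_lit 8391944) .nil))),
   .two (nat_lit 2954887176) (nat_lit 18933088280) (.two (nat_lit 2097153) (nat_lit 46414168671) (.one (nat_lit 1283460032) .nil)),
   .two (nat_lit 272629768) (nat_lit 10940841999) (.two (nat_lit 9768534017) (nat_lit 156466413823) (.two (nat_lit 4194304) (nat_lit 2097893) (.one (nat_lit 2101511) .nil))),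
   .two (nat_lit 156372041740) (nat_lit 158143086605) (.two (nat_lit 159216828421) (nat_lit 166237044862) (.two (nat_lit 1048576) (nat_lit 8390399) (.one (nat_lit 1051913) .nil))),
   .two (nat_lit 1358954504) (nat_lit 1745879048) (.two (nat_lit 1779433477) (nat_lit 285213350) (.one (nat_lit 13237226465) .nil)),
   .two (nat_lit 2889875464) (nat_lit 3036676110) (.two (nat_lit 184549381) (nat_lit 13224640707) (.one (nat_lit 21781022047) .nil)),
   .two (nat_lit 639631368) (nat_lit 1753219084) (.two (nat_lit 10370416645) (nat_lit 28093448233) (.two (nat_lit 2097153) (nat_lit 21785215334) (.one (nat_lit 8391050) .nil))),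
   .two (nat_lit 705691656) (nat_lit 166132187151) (.two (nat_lit 2097153) (nat_lit 11546919030) (.two (nat_lit 2097152) (nat_lit 20640170602) (.one (nat_lit 4198664) .nil))),
   .two (nat_lit 1780482056) (nat_lit 21811429388) (.two (nat_lit 159217876997) (nat_lit 12054429711) (.two (nat_lit 41943041) (nat_lit 12618563710) (.two (nat_lit 1048576) (nat_lit 236978795) (.one (nat_lit 10538192067) .nil)))),
   .two (nat_lit 4194312) (nat_lit 10343153672) (.two (nat_lit 4194308) (nat_lit 176160794) (.two (nat_lit 8388609) (nat_lit 9969861290) (.one (nat_lit 4197653) .nil))),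
   .two (nat_lit 83886088) (nat_lit 9866051599) (.two (nat_lit 50331649) (nat_lit 18925748585) (.one (nat_lit 1052937) .nil)),
   .two (nat_lit 184549384) (nat_lit 47548727322) (.two (nat_lit 16777217) (nat_lit 165526110347) (.two (nat_lit 16777216) (nat_lit 166196151416) (.one (nat_lit 1052938) .nil))),
   .two (nat_lit 21785214984) (nat_lit 605028397) (.two (nat_lit 34603009) (nat_lit 1417674863) (.two (nat_lit 1048576) (nat_lit 166203490999) (.one (nat_lit 8392971) .nil))),
   .two (nat_lit 47555018760) (nat_lit 772800525) (.two (nat_lit 739246085) (nat_lit 20644364355) (.two (nat_lit 1048576) (nat_lit 4638900862) (.one (nat_lit 2927626400) .nil))),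
   .two (nat_lit 46414168072) (nat_lit 2889875470) (.two (nat_lit 2889875461) (nat_lit 13195280494) (.two (nat_lit 4194304) (nat_lit 46414168673) (.one (nat_lit 8391053) .nil))),
   .two (nat_lit 183848927240) (nat_lit 135266316) (.two (nat_lit 19596836869) (nat_lit 11513364837) (.one (nat_lit 239077397) .nil)),
   .two (nat_lit 19596836872) (nat_lit 9974054925) (.two (nat_lit 159224168453) (nat_lit 19596836879) (.two (nat_lit 34603009) (nat_lit 3464495225) (.two (nat_lit 1048576) (nat_lit 8390401) (.one (nat_lit 109055241) .nil)))),
   .two (nat_lit 4194312) (nat_lit 41943048) (.two (nat_lit 8388612) (nat_lit 157035790582) (.two (nat_lit 8388608) (nat_lit 608174762) (.one (nat_lit 1346374850) .nil))),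
   .two (nat_lit 2889875464) (nat_lit 174686470157) (.two (nat_lit 2889875460) (nat_lit 46474985512) (.two (nat_lit 2097153) (nat_lit 2889875522) (.two (nat_lit 4194304) (nat_lit 2098946) (.one (nat_lit 2100512) .nil)))),
   .two (nat_lit 713031688) (nat_lit 135266328) (.two (nat_lit 34603009) (nat_lit 142606589) (.two (nat_lit 1048576) (nat_lit 37247517336) (.one (nat_lit 20637028537) .nil))),
   .two (nat_lit 157038936072) (nat_lit 185020186636) (.two (nat_lit 184986632197) (nat_lit 157038936079) (.two (nat_lit 41943041) (nat_lit 156465365611) (.one (nat_lit 1052940) .nil))),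
   .two (nat_lit 205520904) (nat_lit 1753219087) (.two (nat_lit 4194305) (nat_lit 9866051705) (.two (nat_lit 1048576) (nat_lit 9974055610) (.one (nat_lit 1950353530) .nil))),
   .two (nat_lit 809500680) (nat_lit 11559501836) (.two (nat_lit 184549381) (nat_lit 13224640621) (.two (nat_lit 16777216) (nat_lit 13191088525) .nil)),
   .two (nat_lit 158143086600) (nat_lit 13195280396) (.two (nat_lit 41943045) (nat_lit 158143086607) (.two (nat_lit 50331649) (nat_lit 1048694) (.two (nat_lit 16777216) (nat_lit 12054430332) (.one (nat_lit 1052941) .nil)))),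
   .two (nat_lit 2923429901) (nat_lit 1417674765) (.two (nat_lit 11479810053) (nat_lit 10007609368) (.two (nat_lit 8388609) (nat_lit 4634706531) (.one (nat_lit 4198670) .nil))),
   .two (nat_lit 9934209032) (nat_lit 1753219085) (.two (nat_lit 169869316) (nat_lit 21785215091) (.two (nat_lit 2097152) (nat_lit 156539815671) (.one (nat_lit 8391976) .nil))),
   .two (nat_lit 739246088) (nat_lit 19142803469) (.two (nat_lit 1191182341) (nat_lit 10906239645) (.one (nat_lit 8391979) .nil)),
   .two (nat_lit 1276117000) (nat_lit 28758245384) (.two (nat_lit 605028357) (nat_lit 102760473) (.two (nat_lit 4194305) (nat_lit 3020947708) (.two (nat_lit 16777216) (nat_lit 11580476628) .nil))),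
   .two (nat_lit 9768534024) (nat_lit 2350907416) (.two (nat_lit 4194305) (nat_lit 166197198964) (.two (nat_lit 2097152) (nat_lit 159219975283) (.one (nat_lit 4198671) .nil))),
   .two (nat_lit 169869320) (nat_lit 1795162125) (.two (nat_lit 822083589) (nat_lit 21812477977) (.two (nat_lit 50331649) (nat_lit 19530776715) (.two (nat_lit 1048576) (nat_lit 16779013) (.one (nat_lit 16781584) .nil)))),
   .two (nat_lit 83886088) (nat_lit 28690087960) (.two (nat_lit 8388609) (nat_lit 2923430008) (.two (nat_lit 4194304) (nat_lit 1050374) (.one (nat_lit 1052945) .nil))),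
   .two (nat_lit 721420296) (nat_lit 1846542351) (.two (nat_lit 8388609) (nat_lit 318767776) (.one (nat_lit 638584886) .nil)),
   .two (nat_lit 218103816) (nat_lit 843055117) (.two (nat_lit 13191086085) (nat_lit 2902458391) (.two (nat_lit 16777217) (nat_lit 9768534280) (.two (nat_lit 16777216) (nat_lit 4196103) (.one (nat_lit 272632720) .nil)))),
   .two (nat_lit 176160776) (nat_lit 157036838925) (.two (nat_lit 10504634373) (nat_lit 159224168463) (.two (nat_lit 50331649) (nat_lit 183853122202) (.one (nat_lit 8391988) .nil))),
   .two (nat_lit 184416206856) (nat_lit 165532401779) (.two (nat_lit 1048576) (nat_lit 19100861482) (.one (nat_lit 13228837877) .nil)),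
   .two (nat_lit 18928893960) (nat_lit 166130090050) (.two (nat_lit 4194304) (nat_lit 3558870043) .nil),
   .two (nat_lit 713031688) (nat_lit 46477082637) (.two (nat_lit 47550824453) (nat_lit 1753219430) (.one (nat_lit 156468512999) .nil)),
   .two (nat_lit 83886088) (nat_lit 10436476941) (.two (nat_lit 721420292) (nat_lit 202375212) (.two (nat_lit 605028353) (nat_lit 1929380550) (.one (nat_lit 16781586) .nil))),
   .two (nat_lit 754974728) (nat_lit 166129041416) (.two (nat_lit 9765388293) (nat_lit 754974735) (.two (nat_lit 34603009) (nat_lit 1417675859) (.one (nat_lit 8392979) .nil))),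
   .two (nat_lit 20644364296) (nat_lit 10538188812) (.two (nat_lit 10504634373) (nat_lit 183953785191) (.one (nat_lit 75499694) .nil)),
   .two (nat_lit 721420296) (nat_lit 19127074938) (.two (nat_lit 16777216) (nat_lit 873464496) (.one (nat_lit 1052948) .nil)),
   .two (nat_lit 612368392) (nat_lit 102760462) (.two (nat_lit 713031685) (nat_lit 608174124) (.two (nat_lit 4194305) (nat_lit 28691136644) (.two (nat_lit 2097152) (nat_lit 20640170604) (.one (nat_lit 8392981) .nil)))),
   .two (nat_lit 10336862216) (nat_lit 9806282765) (.two (nat_lit 1176502277) (nat_lit 822083699) (.two (nat_lit 2097152) (nat_lit 183861512505) .nil)),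
   .two (nat_lit 285212680) (nat_lit 2889875481) (.two (nat_lit 4194305) (nat_lit 218103916) (.two (nat_lit 4194304) (nat_lit 16779018) (.one (nat_lit 16780609) .nil))),
   .two (nat_lit 83886088) (nat_lit 13195280399) (.two (nat_lit 8388609) (nat_lit 12618563705) (.two (nat_lit 1048576) (nat_lit 2098310) (.one (nat_lit 16781590) .nil))),
   .two (nat_lit 3458203656) (nat_lit 10506731637) (.two (nat_lit 2097152) (nat_lit 1212155606) (.one (nat_lit 2101527) .nil)),
   .two (nat_lit 156569174029) (nat_lit 19093520396) (.two (nat_lit 28693233669) (nat_lit 1410334966) (.two (nat_lit 16777216) (nat_lit 2987395409) .nil)),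
   .two (nat_lit 11479810056) (nat_lit 21818769527) (.two (nat_lit 4194304) (nat_lit 47555019417) (.one (nat_lit 4198680) .nil)),
   .two (nat_lit 12050235400) (nat_lit 19026411884) (.one (nat_lit 1052953) .nil),
   .two (nat_lit 721420296) (nat_lit 4601151496) (.two (nat_lit 4194308) (nat_lit 3573547051) (.two (nat_lit 4194305) (nat_lit 16777497) (.two (nat_lit 4194304) (nat_lit 16780121) (.one (nat_lit 4198682) .nil)))),
   .two (nat_lit 3525312520) (nat_lit 156367847432) (.two (nat_lit 46409973764) (nat_lit 11007951043) (.one (nat_lit 10001319229) .nil)),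
   .two (nat_lit 1947205644) (nat_lit 159266111501) (.two (nat_lit 21223178245) (nat_lit 166196150387) (.two (nat_lit 4194304) (nat_lit 9966715537) (.one (nat_lit 2316307569) .nil))),
   .two (nat_lit 41943048) (nat_lit 3460300808) (.two (nat_lit 8388612) (nat_lit 19094569062) (.two (nat_lit 8388609) (nat_lit 69206294) (.two (nat_lit 1048576) (nat_lit 19094569618) (.one (nat_lit 8392988) .nil)))),
   .two (nat_lit 218103816) (nat_lit 156971827214) (.two (nat_lit 184989777925) (nat_lit 3573547074) (.two (nat_lit 2097152) (nat_lit 2936014225) .nil)),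
   .two (nat_lit 50331656) (nat_lit 9934209032) (.two (nat_lit 169869316) (nat_lit 285212687) (.two (nat_lit 16777217) (nat_lit 639631498) (.two (nat_lit 8388608) (nat_lit 10955522691) (.one (nat_lit 16780616) .nil)))),
   .two (nat_lit 813694984) (nat_lit 10506731532) (.two (nat_lit 8388612) (nat_lit 10506731657) (.two (nat_lit 4194304) (nat_lit 713033776) .nil)),
   .two (nat_lit 169869320) (nat_lit 880803965) (.two (nat_lit 2097152) (nat_lit 1182794884) (.one (nat_lit 8392989) .nil)),
   .two (nat_lit 9934209032) (nat_lit 10506731535) (.two (nat_lit 2097153) (nat_lit 306184870) (.one (nat_lit 4197707) .nil)),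
   .two (nat_lit 4194312) (nat_lit 142606349) (.two (nat_lit 9948889093) (nat_lit 19096666136) (.two (nat_lit 605028353) (nat_lit 11517559040) (.two (nat_lit 1048576) (nat_lit 9814672418) (.one (nat_lit 8392012) .nil)))),
   .two (nat_lit 612368392) (nat_lit 2349858841) (.two (nat_lit 16777217) (nat_lit 4598005888) (.two (nat_lit 16777216) (nat_lit 2894070396) (.one (nat_lit 1052958) .nil))),
   .two (nat_lit 41943048) (nat_lit 18928893967) (.two (nat_lit 8388609) (nat_lit 185021235321) (.two (nat_lit 8388608) (nat_lit 304088198) (.one (nat_lit 4198687) .nil))),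
   .two (nat_lit 41943048) (nat_lit 184549399) (.two (nat_lit 16777217) (nat_lit 10913579147) (.two (nat_lit 1048576) (nat_lit 8391515) (.one (nat_lit 16781600) .nil))),
   .two (nat_lit 184549384) (nat_lit 639631375) (.two (nat_lit 2097153) (nat_lit 10552869117) (.two (nat_lit 2097152) (nat_lit 19026412184) (.one (nat_lit 2101537) .nil))),
   .two (nat_lit 75497480) (nat_lit 9866051627) (.two (nat_lit 16777217) (nat_lit 159224168563) (.two (nat_lit 1048576) (nat_lit 9940501567) (.one (nat_lit 16781602) .nil))),
   .two (nat_lit 176160776) (nat_lit 1745879064) (.two (nat_lit 8388609) (nat_lit 185035915520) (.two (nat_lit 8388608) (nat_lit 19142805220) (.one (nat_lit 183962176650) .nil))),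
   .two (nat_lit 41943048) (nat_lit 158075977736) (.two (nat_lit 41943045) (nat_lit 2332033072) (.two (nat_lit 16777217) (nat_lit 9765388405) (.two (nat_lit 16777216) (nat_lit 1050380) (.one (nat_lit 184416209267) .nil)))),
   .two (nat_lit 20638072840) (nat_lit 10939793432) (.two (nat_lit 9765388289) (nat_lit 46474985590) (.two (nat_lit 1048576) (nat_lit 2098312) (.one (nat_lit 2101539) .nil))),
   .two (nat_lit 612368392) (nat_lit 136314905) (.two (nat_lit 8388609) (nat_lit 10437526234) (.one (nat_lit 2100562) .nil)),
   .two (nat_lit 1175453704) (nat_lit 1795162127) (.two (nat_lit 8388609) (nat_lit 705691922) (.two (nat_lit 4194304) (nat_lit 10947134586) (.one (nat_lit 8392996) .nil))),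
   .two (nat_lit 12054429704) (nat_lit 12147753001) (.two (nat_lit 16777217) (nat_lit 3464495229) (.two (nat_lit 1048576) (nat_lit 46414169221) (.one (nat_lit 1052965) .nil))),
   .two (nat_lit 16777224) (nat_lit 156971827321) (.two (nat_lit 4194304) (nat_lit 2332034180) (.one (nat_lit 16781606) .nil)),
   .two (nat_lit 639631368) (nat_lit 28757196808) (.two (nat_lit 218103813) (nat_lit 156533523104) (.one (nat_lit 2101543) .nil)),
   .two (nat_lit 285212680) (nat_lit 9934209039) (.two (nat_lit 2097153) (nat_lit 11022631050) (.two (nat_lit 8388608) (nat_lit 19094569583) (.one (nat_lit 2100567) .nil))),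
   .two (nat_lit 1291845645) (nat_lit 4634705933) (.two (nat_lit 272629765) (nat_lit 9948889103) (.two (nat_lit 16777217) (nat_lit 3527410275) (.one (nat_lit 4197720) .nil))),
   .two (nat_lit 809500680) (nat_lit 18925748248) (.two (nat_lit 34603009) (nat_lit 21814575377) (.two (nat_lit 1048576) (nat_lit 4196109) (.one (nat_lit 10003416453) .nil))),
   .two (nat_lit 2954887176) (nat_lit 46414168088) (.two (nat_lit 2097153) (nat_lit 4605345901) (.two (nat_lit 2097152) (nat_lit 3028288556) (.one (nat_lit 8392025) .nil))),
   .two (nat_lit 156533522444) (nat_lit 1916796941) (.two (nat_lit 10506731525) (nat_lit 10940842600) (.one (nat_lit 10940844380) .nil)),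
   .two (nat_lit 3458203656) (nat_lit 20637024264) (.two (nat_lit 9933160453) (nat_lit 157036838927) (.two (nat_lit 4194305) (nat_lit 873464881) (.one (nat_lit 2100571) .nil))),
   .two (nat_lit 75497480) (nat_lit 218103832) (.two (nat_lit 16777217) (nat_lit 159224168563) (.two (nat_lit 1048576) (nat_lit 9940501567) (.one (nat_lit 16781608) .nil))),
   .two (nat_lit 46980399117) (nat_lit 158144135180) (.two (nat_lit 3458203653) (nat_lit 11513364581) (.two (nat_lit 2097153) (nat_lit 19532873980) (.two (nat_lit 2097152) (nat_lit 28089254955) (.one (nat_lit 1746930621) .nil)))),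
   .two (nat_lit 159217877000) (nat_lit 612368428) (.two (nat_lit 34603009) (nat_lit 21778924037) (.two (nat_lit 1048576) (nat_lit 2098958) (.one (nat_lit 8393001) .nil))),
   .two (nat_lit 654311432) (nat_lit 21811429400) (.two (nat_lit 34603009) (nat_lit 37329305738) (.two (nat_lit 8388608) (nat_lit 10503586415) (.one (nat_lit 1051997) .nil))),
   .two (nat_lit 75497480) (nat_lit 4601151503) (.two (nat_lit 41943041) (nat_lit 2923430528) (.one (nat_lit 4197727) .nil)),
   .two (nat_lit 2961178632) (nat_lit 184419352591) (.two (nat_lit 34603009) (nat_lit 183848927886) (.one (nat_lit 4198699) .nil)),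
   .two (nat_lit 13224640524) (nat_lit 37246468109) (.two (nat_lit 12117344261) (nat_lit 183912890483) (.two (nat_lit 4194304) (nat_lit 47547680503) (.one (nat_lit 158176644293) .nil))),
   .two (nat_lit 28690087944) (nat_lit 159251431437) (.two (nat_lit 9934209029) (nat_lit 28690088002) (.two (nat_lit 1048576) (nat_lit 1914701570) (.one (nat_lit 2921335977) .nil))),
   .two (nat_lit 184419352584) (nat_lit 185020186748) (.two (nat_lit 1048576) (nat_lit 37249615624) (.one (nat_lit 158075980006) .nil)),
   .two (nat_lit 2954887181) (nat_lit 174688567309) (.two (nat_lit 270532613) (nat_lit 46510637296) (.two (nat_lit 2097152) (nat_lit 4196111) (.one (nat_lit 4198700) .nil))),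
   .two (nat_lit 11476664328) (nat_lit 28693233689) (.two (nat_lit 2097153) (nat_lit 3028287739) (.two (nat_lit 2097152) (nat_lit 8389769) (.one (nat_lit 2101549) .nil))),
   .two (nat_lit 713031688) (nat_lit 159216828462) (.two (nat_lit 34603009) (nat_lit 47588574310) (.one (nat_lit 8393006) .nil)),
   .two (nat_lit 184416206856) (nat_lit 1178599437) (.two (nat_lit 1178599429) (nat_lit 638582911) (.two (nat_lit 8388608) (nat_lit 10436477639) (.one (nat_lit 4198703) .nil))),
   .two (nat_lit 713031688) (nat_lit 21811429388) (.two (nat_lit 21777874949) (nat_lit 880803907) (.two (nat_lit 1048576) (nat_lit 28697428328) (.one (nat_lit 8393009) .nil))),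
   .two (nat_lit 276824072) (nat_lit 9881780239) (.two (nat_lit 34603009) (nat_lit 19033751673) (.two (nat_lit 1048576) (nat_lit 16779026) (.one (nat_lit 1052979) .nil))),
   .two (nat_lit 10007609357) (nat_lit 1310720013) (.two (nat_lit 2097157) (nat_lit 10007609457) (.two (nat_lit 1048576) (nat_lit 37320919179) .nil)),
   .two (nat_lit 1175453704) (nat_lit 11626610731) (.two (nat_lit 16777217) (nat_lit 1209008253) (.two (nat_lit 1048576) (nat_lit 18933089325) (.one (nat_lit 1052980) .nil))),
   .two (nat_lit 11479810056) (nat_lit 3525312527) (.two (nat_lit 37748737) (nat_lit 1277166207) (.one (nat_lit 19128126378) .nil)),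
   .two (nat_lit 713031688) (nat_lit 673185805) (.two (nat_lit 41943045) (nat_lit 156533522533) (.two (nat_lit 612368385) (nat_lit 1344275129) (.one (nat_lit 2100581) .nil))),
   .two (nat_lit 2961178632) (nat_lit 18928893967) (.two (nat_lit 8388609) (nat_lit 20740833406) (.two (nat_lit 1048576) (nat_lit 4196115) (.one (nat_lit 4198711) .nil))),
   .two (nat_lit 16777224) (nat_lit 9768534024) (.two (nat_lit 184549380) (nat_lit 9766436890) (.two (nat_lit 4194305) (nat_lit 46978302073) (.two (nat_lit 2097152) (nat_lit 19096669522) .nil))),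
   .two (nat_lit 3464495112) (nat_lit 19599982659) (.two (nat_lit 4194304) (nat_lit 8389771) (.one (nat_lit 174755679183) .nil)),
   .two (nat_lit 620757000) (nat_lit 46474985583) (.two (nat_lit 16777216) (nat_lit 807404215) (.one (nat_lit 2101560) .nil)),
   .two (nat_lit 1291845640) (nat_lit 183912890481) (.two (nat_lit 16777216) (nat_lit 2316305019) (.one (nat_lit 10436481258) .nil)),
   .two (nat_lit 2902458376) (nat_lit 1283457049) (.two (nat_lit 8388609) (nat_lit 4647288899) (.two (nat_lit 8388608) (nat_lit 3573547721) (.one (nat_lit 1224738901) .nil))),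
   .two (nat_lit 184419352584) (nat_lit 21207449608) (.two (nat_lit 158143086597) (nat_lit 12117344372) (.two (nat_lit 1048576) (nat_lit 4030729550) .nil)),
   .two (nat_lit 75497480) (nat_lit 285212680) (.two (nat_lit 16777220) (nat_lit 75497487) (.two (nat_lit 16777217) (nat_lit 183913939065) (.two (nat_lit 4194304) (nat_lit 2100151) .nil))),
   .two (nat_lit 2887778312) (nat_lit 10506731535) (.two (nat_lit 2097153) (nat_lit 20737687689) (.two (nat_lit 2097152) (nat_lit 37249615602) (.one (nat_lit 46407879957) .nil))),
   .two (nat_lit 37748744) (nat_lit 183962173506) (.two (nat_lit 4194304) (nat_lit 150995638) (.one (nat_lit 16781625) .nil)),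
   .two (nat_lit 205520904) (nat_lit 822083592) (.two (nat_lit 16777220) (nat_lit 9768534031) (.two (nat_lit 4194305) (nat_lit 13203670761) (.one (nat_lit 4198714) .nil))),
   .two (nat_lit 12114198536) (nat_lit 11544821803) (.two (nat_lit 34603009) (nat_lit 3558867069) (.two (nat_lit 1048576) (nat_lit 12618564228) (.one (nat_lit 2100587) .nil))),
   .two (nat_lit 158144135176) (nat_lit 184416206862) (.two (nat_lit 270532613) (nat_lit 158091706413) (.two (nat_lit 34603009) (nat_lit 3525312651) (.two (nat_lit 16777216) (nat_lit 1050390) (.one (nat_lit 1052987) .nil)))),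
   .two (nat_lit 2961178632) (nat_lit 2418016281) (.two (nat_lit 34603009) (nat_lit 21812478234) (.two (nat_lit 4194304) (nat_lit 638583930) (.one (nat_lit 2101564) .nil))),
   .two (nat_lit 83886088) (nat_lit 705691672) (.two (nat_lit 50331649) (nat_lit 235930123) (.two (nat_lit 16777216) (nat_lit 1050391) (.one (nat_lit 1052989) .nil))),
   .two (nat_lit 205520904) (nat_lit 165526110223) (.two (nat_lit 4194305) (nat_lit 12148801818) (.two (nat_lit 1048576) (nat_lit 1178600072) (.one (nat_lit 2101566) .nil))),
   .two (nat_lit 4605345800) (nat_lit 1426063373) (.two (nat_lit 8388612) (nat_lit 16777256) (.two (nat_lit 8388609) (nat_lit 654311545) (.two (nat_lit 8388608) (nat_lit 16779032) (.one (nat_lit 16780653) .nil)))),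
   .two (nat_lit 10506731528) (nat_lit 184993972236) (.two (nat_lit 166132187141) (nat_lit 12054429737) (.two (nat_lit 4194305) (nat_lit 13228835526) (.one (nat_lit 8393023) .nil))),
   .two (nat_lit 37748744) (nat_lit 183853121650) (.two (nat_lit 4194304) (nat_lit 185021235870) (.one (nat_lit 8393025) .nil)),
   .two (nat_lit 4194312) (nat_lit 1847590920) (.two (nat_lit 9934209029) (nat_lit 174752530447) (.two (nat_lit 606076929) (nat_lit 13187940470) (.two (nat_lit 1048576) (nat_lit 166132188280) (.one (nat_lit 1052994) .nil)))),
   .two (nat_lit 9768534024) (nat_lit 10336862216) (.two (nat_lit 46407876612) (nat_lit 10506731715) (.one (nat_lit 9902753119) .nil)),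
   .two (nat_lit 12117344264) (nat_lit 158075977736) (.two (nat_lit 11479810052) (nat_lit 20637024280) (.two (nat_lit 605028353) (nat_lit 12117344896) (.one (nat_lit 4197390) .nil))),
   .two (nat_lit 1779433480) (nat_lit 1916796942) (.two (nat_lit 19599982597) (nat_lit 10436477041) (.two (nat_lit 16777216) (nat_lit 705692272) (.one (nat_lit 1846545747) .nil))),
   .two (nat_lit 8388616) (nat_lit 83886095) (.two (nat_lit 8388609) (nat_lit 12618563705) (.two (nat_lit 2097152) (nat_lit 159257724660) (.one (nat_lit 337644471) .nil))),
   .two (nat_lit 50331656) (nat_lit 13224640647) (.two (nat_lit 16777216) (nat_lit 4195468) (.one (nat_lit 4198723) .nil)),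
   .two (nat_lit 1343225864) (nat_lit 156372041742) (.two (nat_lit 13195280389) (nat_lit 1779434134) (.one (nat_lit 46407879872) .nil)),
   .two (nat_lit 1350565896) (nat_lit 2953838636) (.two (nat_lit 41943041) (nat_lit 638582920) (.two (nat_lit 4194304) (nat_lit 1309672499) (.one (nat_lit 1051580) .nil))),
   .two (nat_lit 612368392) (nat_lit 1745879055) (.two (nat_lit 8388609) (nat_lit 157035790595) (.two (nat_lit 16777216) (nat_lit 158083320734) .nil)),
   .two (nat_lit 8388616) (nat_lit 156367847439) (.two (nat_lit 8388609) (nat_lit 10942939397) (.two (nat_lit 8388608) (nat_lit 2416968824) (.one (nat_lit 9798947122) .nil))),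
   .two (nat_lit 2889875464) (nat_lit 10907287565) (.two (nat_lit 2889875460) (nat_lit 12115247354) (.two (nat_lit 4194304) (nat_lit 2098971) (.one (nat_lit 2101575) .nil))),
   .two (nat_lit 8388616) (nat_lit 9948889101) (.two (nat_lit 9948889093) (nat_lit 343932994) (.two (nat_lit 16777216) (nat_lit 8389340) (.one (nat_lit 10343156123) .nil))),
   .two (nat_lit 739246088) (nat_lit 18933088264) (.two (nat_lit 41943045) (nat_lit 11577327733) (.two (nat_lit 8388608) (nat_lit 12617515658) (.one (nat_lit 158176643274) .nil))),
   .two (nat_lit 705691656) (nat_lit 9940500488) (.two (nat_lit 176160772) (nat_lit 47547678845) (.two (nat_lit 2097152) (nat_lit 775946599) (.one (nat_lit 2101576) .nil))),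
   .two (nat_lit 1779433480) (nat_lit 218103821) (.two (nat_lit 16777221) (nat_lit 11610882170) (.two (nat_lit 16777216) (nat_lit 174685424945) .nil)),
   .two (nat_lit 41943048) (nat_lit 158077026319) (.two (nat_lit 8388609) (nat_lit 37314626227) (.one (nat_lit 4198729) .nil)),
   .two (nat_lit 11479810056) (nat_lit 3539992584) (.two (nat_lit 2902458373) (nat_lit 183949590593) (.two (nat_lit 1048576) (nat_lit 11546922226) .nil)),
   .two (nat_lit 754974728) (nat_lit 156968681480) (.two (nat_lit 19596836869) (nat_lit 889192580) (.two (nat_lit 1048576) (nat_lit 46523220607) (.one (nat_lit 16780659) .nil))),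
   .two (nat_lit 2887778312) (nat_lit 1916796936) (.two (nat_lit 2097157) (nat_lit 19599982693) (.two (nat_lit 4194305) (nat_lit 740294779) (.two (nat_lit 1048576) (nat_lit 9766437992) (.one (nat_lit 1052020) .nil)))),
   .two (nat_lit 12117344264) (nat_lit 166129041431) (.two (nat_lit 37748737) (nat_lit 12147753085) (.two (nat_lit 4194304) (nat_lit 1050396) (.one (nat_lit 1053002) .nil))),
   .two (nat_lit 46409973768) (nat_lit 117440524) (.two (nat_lit 285212677) (nat_lit 843055347) (.two (nat_lit 16777216) (nat_lit 675283631) (.one (nat_lit 21827162344) .nil))),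
   .two (nat_lit 75497480) (nat_lit 10907287577) (.two (nat_lit 2097153) (nat_lit 157038936341) (.two (nat_lit 16777216) (nat_lit 9969861242) (.one (nat_lit 4197750) .nil))),
   .two (nat_lit 176160776) (nat_lit 1749024783) (.two (nat_lit 50331649) (nat_lit 9933160515) (.two (nat_lit 1048576) (nat_lit 8391518) (.one (nat_lit 1376782523) .nil))),
   .two (nat_lit 2889875464) (nat_lit 1795162120) (.two (nat_lit 117440517) (nat_lit 1379926685) (.one (nat_lit 4197751) .nil)),
   .two (nat_lit 21208498184) (nat_lit 612368428) (.two (nat_lit 8388609) (nat_lit 1176502797) (.two (nat_lit 1048576) (nat_lit 2098973) (.one (nat_lit 2101579) .nil))),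
   .two (nat_lit 2889875464) (nat_lit 1753219084) (.two (nat_lit 47555018757) (nat_lit 11513364722) (.two (nat_lit 8388608) (nat_lit 843055707) (.one (nat_lit 8393036) .nil))),
   .two (nat_lit 1178599432) (nat_lit 46978301965) (.two (nat_lit 270532613) (nat_lit 1178599439) (.two (nat_lit 37748737) (nat_lit 10001319975) .nil)),
   .two (nat_lit 1276117000) (nat_lit 654311439) (.two (nat_lit 16777217) (nat_lit 13221496134) .nil),
   .two (nat_lit 4605345800) (nat_lit 46510637070) (.two (nat_lit 708837381) (nat_lit 46414168180) (.two (nat_lit 4194304) (nat_lit 11618224395) .nil)),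
   .two (nat_lit 9881780232) (nat_lit 10436476942) (.two (nat_lit 9933160453) (nat_lit 11559502182) (.one (nat_lit 2420115687) .nil)),
   .two (nat_lit 4613734408) (nat_lit 158144135183) (.two (nat_lit 606076929) (nat_lit 184416206969) (.two (nat_lit 1048576) (nat_lit 9867100814) (.one (nat_lit 2101582) .nil))),
   .two (nat_lit 1913651208) (nat_lit 19096666125) (.two (nat_lit 12114198533) (nat_lit 1182793830) (.two (nat_lit 34603009) (nat_lit 37320918052) (.one (nat_lit 1753222393) .nil))),
   .two (nat_lit 809500680) (nat_lit 156968681497) (.two (nat_lit 41943041) (nat_lit 185023333071) (.one (nat_lit 1053007) .nil)),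
   .two (nat_lit 75497480) (nat_lit 47548727321) (.two (nat_lit 2097153) (nat_lit 10007609411) (.two (nat_lit 2097152) (nat_lit 4034920810) (.one (nat_lit 2100618) .nil))),
   .two (nat_lit 1358954504) (nat_lit 183845781512) (.two (nat_lit 34603013) (nat_lit 1358954511) (.two (nat_lit 2097153) (nat_lit 184416206969) (.two (nat_lit 1048576) (nat_lit 352322227) (.one (nat_lit 37247518842) .nil)))),
   .two (nat_lit 612368392) (nat_lit 34603140) (.two (nat_lit 16777216) (nat_lit 11610883135) (.one (nat_lit 1053008) .nil)),
   .two (nat_lit 159217877000) (nat_lit 1929379848) (.two (nat_lit 169869316) (nat_lit 11559501839) (.two (nat_lit 156372041729) (nat_lit 12148801654) (.two (nat_lit 8388608) (nat_lit 840958570) (.one (nat_lit 2101585) .nil)))),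
   .two (nat_lit 18928893960) (nat_lit 19093520396) (.two (nat_lit 184419352581) (nat_lit 10436477043) (.two (nat_lit 16777216) (nat_lit 183845784503) .nil)),
   .two (nat_lit 12054429704) (nat_lit 158143086600) (.two (nat_lit 1276116996) (nat_lit 12054429711) (.two (nat_lit 605028353) (nat_lit 1954545787) (.two (nat_lit 16777216) (nat_lit 1050633) (.one (nat_lit 1052063) .nil)))),
   .two (nat_lit 1277165576) (nat_lit 3460300808) (.two (nat_lit 9934209029) (nat_lit 157038936079) (.two (nat_lit 9766436865) (nat_lit 46980399215) (.two (nat_lit 1048576) (nat_lit 2099210) (.one (nat_lit 2100640) .nil)))),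
   .two (nat_lit 21785214984) (nat_lit 1176502282) (.two (nat_lit 10336862213) (nat_lit 1417674776) (.two (nat_lit 606076929) (nat_lit 11584667731) (.two (nat_lit 2097152) (nat_lit 165532402067) (.one (nat_lit 8392098) .nil)))),
   .two (nat_lit 1276117000) (nat_lit 12054429704) (.two (nat_lit 184993972229) (nat_lit 158176641047) (.two (nat_lit 41943041) (nat_lit 1048927) (.two (nat_lit 4194304) (nat_lit 839911285) (.one (nat_lit 1052068) .nil)))),
   .two (nat_lit 46414168072) (nat_lit 10940841999) (.two (nat_lit 10504634373) (nat_lit 880803965) (.two (nat_lit 9766436865) (nat_lit 2994733746) (.two (nat_lit 2097152) (nat_lit 2894071897) (.one (nat_lit 158144137755) .nil)))),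
   .two (nat_lit 4194312) (nat_lit 3525312576) (.two (nat_lit 4194305) (nat_lit 3525312707) (.two (nat_lit 4194304) (nat_lit 11578377526) (.one (nat_lit 1052339) .nil))),
   .two (nat_lit 2889875464) (nat_lit 243269656) (.two (nat_lit 272629765) (nat_lit 156472705158) (.two (nat_lit 612368385) (nat_lit 20704133477) (.two (nat_lit 1048576) (nat_lit 1178600783) (.one (nat_lit 1053257) .nil)))),
   .two (nat_lit 20638072840) (nat_lit 873463926) (.two (nat_lit 50331649) (nat_lit 11476664681) (.two (nat_lit 1048576) (nat_lit 10921969021) (.one (nat_lit 1053258) .nil))),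
   .two (nat_lit 9866051592) (nat_lit 184989777945) (.two (nat_lit 101711877) (nat_lit 19096666232) (.two (nat_lit 9765388289) (nat_lit 742392532) (.two (nat_lit 1048576) (nat_lit 4196509) (.one (nat_lit 4198987) .nil)))),
   .two (nat_lit 9781116936) (nat_lit 46474985497) (.two (nat_lit 806354949) (nat_lit 117440620) (.two (nat_lit 2097153) (nat_lit 620757622) (.two (nat_lit 1048576) (nat_lit 16780226) (.one (nat_lit 2100920) .nil)))),
   .two (nat_lit 83886088) (nat_lit 184416206863) (.two (nat_lit 83886085) (nat_lit 184986632321) (.two (nat_lit 34603009) (nat_lit 1761608310) (.two (nat_lit 1048576) (nat_lit 16780227) (.one (nat_lit 1053260) .nil)))),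
   .two (nat_lit 10370416648) (nat_lit 20644364303) (.two (nat_lit 639631365) (nat_lit 159224168561) (.two (nat_lit 606076929) (nat_lit 12155094358) (.one (nat_lit 8393293) .nil))),
   .two (nat_lit 1291845640) (nat_lit 1847590927) (.two (nat_lit 28758245381) (nat_lit 166199296135) (.two (nat_lit 9766436865) (nat_lit 12620661388) (.two (nat_lit 2097152) (nat_lit 4196510) (.one (nat_lit 4198074) .nil)))),
   .two (nat_lit 2420113421) (nat_lit 28086108175) (.two (nat_lit 2956984325) (nat_lit 184549442) (.two (nat_lit 4194305) (nat_lit 46523221357) (.one (nat_lit 3524267451) .nil))),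
   .two (nat_lit 809500680) (nat_lit 183853121602) (.two (nat_lit 4194305) (nat_lit 159257724217) (.one (nat_lit 8392379) .nil)),
   .two (nat_lit 184423546888) (nat_lit 28690087951) (.two (nat_lit 1913651205) (nat_lit 3565158519) (.two (nat_lit 9765388289) (nat_lit 28798091906) (.two (nat_lit 1048576) (nat_lit 156472707594) .nil))),
   .two (nat_lit 2969567240) (nat_lit 11618222124) (.two (nat_lit 638582789) (nat_lit 2990539024) (.two (nat_lit 8388609) (nat_lit 13221495453) (.two (nat_lit 8388608) (nat_lit 16779423) (.one (nat_lit 16781902) .nil)))),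
   .two (nat_lit 50331656) (nat_lit 46409973775) (.two (nat_lit 16777220) (nat_lit 2923429954) (.two (nat_lit 16777217) (nat_lit 47550825119) (.two (nat_lit 16777216) (nat_lit 4196512) (.one (nat_lit 809503249) .nil)))),
   .two (nat_lit 1745879048) (nat_lit 1358954511) (.two (nat_lit 183845781508) (nat_lit 9881780337) (.two (nat_lit 34603009) (nat_lit 156581758342) (.one (nat_lit 9948893749) .nil))),
   .two (nat_lit 184549384) (nat_lit 1753219087) (.two (nat_lit 183853121540) (nat_lit 721420940) (.two (nat_lit 4194304) (nat_lit 83887400) (.one (nat_lit 16780988) .nil))),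
   .two (nat_lit 11479810056) (nat_lit 3464495119) (.two (nat_lit 46414168068) (nat_lit 12050236030) (.two (nat_lit 8388608) (nat_lit 205523014) (.one (nat_lit 1920994936) .nil))),
   .two (nat_lit 3460300808) (nat_lit 673185905) (.two (nat_lit 605028353) (nat_lit 1176503621) (.one (nat_lit 4198991) .nil)),
   .two (nat_lit 1291845640) (nat_lit 28690087951) (.two (nat_lit 1913651205) (nat_lit 11559502182) (.two (nat_lit 1048576) (nat_lit 11559503137) (.one (nat_lit 156566031894) .nil))),
   .two (nat_lit 46978301960) (nat_lit 10385096819) (.two (nat_lit 2097153) (nat_lit 2969567845) (.two (nat_lit 2097152) (nat_lit 822085667) (.one (nat_lit 50335170) .nil))),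
   .two (nat_lit 4194312) (nat_lit 184993972248) (.two (nat_lit 1343225861) (nat_lit 158144135532) (.two (nat_lit 1048576) (nat_lit 2099361) (.one (nat_lit 2101840) .nil))),
   .two (nat_lit 10370416648) (nat_lit 2316304409) (.two (nat_lit 1277165572) (nat_lit 806355076) (.two (nat_lit 16777217) (nat_lit 19027461416) (.one (nat_lit 2101841) .nil))),
   .two (nat_lit 4194312) (nat_lit 10504634383) (.two (nat_lit 2097157) (nat_lit 156569174145) (.two (nat_lit 2097153) (nat_lit 2961179285) (.two (nat_lit 2097152) (nat_lit 4638903733) .nil))),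
   .two (nat_lit 1779433480) (nat_lit 19599982702) (.two (nat_lit 605028353) (nat_lit 1916797538) (.two (nat_lit 1048576) (nat_lit 183949591845) (.one (nat_lit 19026414093) .nil))),
   .two (nat_lit 183853121544) (nat_lit 10939793423) (.two (nat_lit 1913651205) (nat_lit 28093448305) (.two (nat_lit 9765388289) (nat_lit 156976022888) (.one (nat_lit 9906949681) .nil))),
   .two (nat_lit 11559501837) (nat_lit 3527409731) (.two (nat_lit 4194305) (nat_lit 1862271682) (.two (nat_lit 4194304) (nat_lit 16780229) (.one (nat_lit 4198995) .nil))),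
   .two (nat_lit 4194312) (nat_lit 2969567255) (.two (nat_lit 4194308) (nat_lit 10921967754) (.two (nat_lit 37748737) (nat_lit 1745879690) (.two (nat_lit 1048576) (nat_lit 1279264113) (.one (nat_lit 4198996) .nil)))),
   .two (nat_lit 12047089672) (nat_lit 10506731535) (.two (nat_lit 12114198533) (nat_lit 3527409778) (.two (nat_lit 9768534017) (nat_lit 158176641632) (.two (nat_lit 4194304) (nat_lit 10369370182) (.one (nat_lit 1916800654) .nil)))),
   .two (nat_lit 11543773192) (nat_lit 19599982632) (.two (nat_lit 739246085) (nat_lit 11513364719) (.two (nat_lit 34603009) (nat_lit 10909385067) (.two (nat_lit 16777216) (nat_lit 1049922) (.one (nat_lit 1053269) .nil)))),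
   .two (nat_lit 2961178632) (nat_lit 156367847439) (.two (nat_lit 2956984325) (nat_lit 21785215228) (.two (nat_lit 605028353) (nat_lit 1413481091) (.two (nat_lit 1048576) (nat_lit 1413481841) (.one (nat_lit 46510641564) .nil)))),
   .two (nat_lit 46978301960) (nat_lit 12150898712) (.two (nat_lit 11479810052) (nat_lit 11007951043) (.two (nat_lit 4194304) (nat_lit 203425088) (.one (nat_lit 2101846) .nil))),
   .two (nat_lit 285212680) (nat_lit 19532873743) (.two (nat_lit 1795162117) (nat_lit 11476664454) (.two (nat_lit 9765388289) (nat_lit 318768440) (.one (nat_lit 16781911) .nil))),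
   .two (nat_lit 83886088) (nat_lit 18933088323) (.two (nat_lit 8388609) (nat_lit 1358954691) (.two (nat_lit 8388608) (nat_lit 1224738877) (.one (nat_lit 16781912) .nil))),
   .two (nat_lit 16777224) (nat_lit 184419352641) (.two (nat_lit 37748737) (nat_lit 165540790902) (.two (nat_lit 4194304) (nat_lit 16780230) (.one (nat_lit 12117347789) .nil))),
   .two (nat_lit 713031688) (nat_lit 165525061680) (.two (nat_lit 2097157) (nat_lit 3464495701) (.two (nat_lit 8388608) (nat_lit 183845785114) .nil)),
   .two (nat_lit 9866051592) (nat_lit 1753219087) (.two (nat_lit 1343225861) (nat_lit 1753219789) (.two (nat_lit 16777216) (nat_lit 46507494905) .nil)),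
   .two (nat_lit 4194312) (nat_lit 9948889198) (.two (nat_lit 4194305) (nat_lit 165540790893) (.two (nat_lit 16777216) (nat_lit 185020188811) (.one (nat_lit 10016002635) .nil))),
   .two (nat_lit 12047089672) (nat_lit 740294699) (.two (nat_lit 184986632197) (nat_lit 47582281853) (.two (nat_lit 156364701697) (nat_lit 159217877631) (.two (nat_lit 1048576) (nat_lit 2099362) (.one (nat_lit 2886734239) .nil)))),
   .two (nat_lit 822083592) (nat_lit 158144135305) (.two (nat_lit 2097153) (nat_lit 10015999298) (.one (nat_lit 2101849) .nil)),
   .two (nat_lit 135266317) (nat_lit 19532873845) (.two (nat_lit 37748737) (nat_lit 28790751936) (.two (nat_lit 4194304) (nat_lit 10335815015) (.one (nat_lit 1052351) .nil))),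
   .two (nat_lit 176160776) (nat_lit 156971827337) (.two (nat_lit 4194305) (nat_lit 184993972885) (.two (nat_lit 1048576) (nat_lit 4196515) (.one (nat_lit 8392384) .nil))),
   .two (nat_lit 285212680) (nat_lit 1410334744) (.two (nat_lit 705691652) (nat_lit 1358954604) (.two (nat_lit 50331649) (nat_lit 1050338) (.two (nat_lit 1048576) (nat_lit 16780231) (.one (nat_lit 16780993) .nil)))),
   .two (nat_lit 673185805) (nat_lit 28790751347) (.two (nat_lit 606076929) (nat_lit 4027581482) (.two (nat_lit 2097152) (nat_lit 2920286238) (.one (nat_lit 1053055) .nil))),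
   .two (nat_lit 8388616) (nat_lit 843055215) (.two (nat_lit 8388609) (nat_lit 2319451505) (.one (nat_lit 8393306) .nil)),
   .two (nat_lit 156372041741) (nat_lit 2969567255) (.two (nat_lit 156372041733) (nat_lit 9948889196) (.two (nat_lit 41943041) (nat_lit 218106367) .nil)),
   .two (nat_lit 21207449613) (nat_lit 9781116943) (.two (nat_lit 9933160453) (nat_lit 2902458482) (.two (nat_lit 4194305) (nat_lit 10351543691) (.one (nat_lit 16781915) .nil))),
   .two (nat_lit 11492392968) (nat_lit 1846542351) (.two (nat_lit 28757196805) (nat_lit 1358955112) (.two (nat_lit 1048576) (nat_lit 83887402) (.one (nat_lit 10335818775) .nil))),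
   .two (nat_lit 10370416653) (nat_lit 3527409688) (.two (nat_lit 2954887173) (nat_lit 13191086202) (.two (nat_lit 2097153) (nat_lit 47584380238) (.one (nat_lit 28089258509) .nil))),
   .two (nat_lit 880803853) (nat_lit 28757196815) (.two (nat_lit 12054429701) (nat_lit 19093520622) (.two (nat_lit 605028353) (nat_lit 2994735247) (.one (nat_lit 8393308) .nil))),
   .two (nat_lit 205520904) (nat_lit 166197198872) (.two (nat_lit 2097157) (nat_lit 19130220657) (.two (nat_lit 2097153) (nat_lit 1178600064) (.two (nat_lit 1048576) (nat_lit 41946610) .nil))),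
   .two (nat_lit 4194312) (nat_lit 47588573210) (.two (nat_lit 4194308) (nat_lit 336593018) (.two (nat_lit 4194305) (nat_lit 9966715582) (.two (nat_lit 1048576) (nat_lit 4196519) (.one (nat_lit 1782582845) .nil)))),
   .two (nat_lit 11543773197) (nat_lit 1916796952) (.two (nat_lit 806354949) (nat_lit 183949590593) (.two (nat_lit 9765388289) (nat_lit 1312817511) (.two (nat_lit 1048576) (nat_lit 4196520) (.one (nat_lit 2101853) .nil)))),
   .two (nat_lit 218103816) (nat_lit 2988441667) (.two (nat_lit 2097153) (nat_lit 11525948758) (.one (nat_lit 159266115121) .nil)),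
   .two (nat_lit 11479810056) (nat_lit 174752530447) (.two (nat_lit 11479810052) (nat_lit 158646403186) (.two (nat_lit 605028353) (nat_lit 9802089061) (.two (nat_lit 1048576) (nat_lit 46980400421) (.one (nat_lit 18925750797) .nil)))),
   .two (nat_lit 11479810056) (nat_lit 4605345856) (.two (nat_lit 37748737) (nat_lit 46414169379) (.one (nat_lit 8393310) .nil)),
   .two (nat_lit 37748744) (nat_lit 184993972289) (.two (nat_lit 8388609) (nat_lit 2921334085) (.one (nat_lit 2101718) .nil)),
   .two (nat_lit 4601151496) (nat_lit 2988441646) (.two (nat_lit 1344274437) (nat_lit 158075977794) (.two (nat_lit 9766436865) (nat_lit 158075978085) (.two (nat_lit 2097152) (nat_lit 1050794) (.one (nat_lit 806359427) .nil)))),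
   .two (nat_lit 50331656) (nat_lit 12054429719) (.two (nat_lit 13195280389) (nat_lit 83886696) (.two (nat_lit 8388608) (nat_lit 83887402) (.one (nat_lit 28093453305) .nil))),
   .two (nat_lit 11559501832) (nat_lit 174752530457) (.two (nat_lit 19596836869) (nat_lit 117440707) (.two (nat_lit 1048576) (nat_lit 11559504383) .nil)),
   .two (nat_lit 169869320) (nat_lit 645923087) (.two (nat_lit 8388609) (nat_lit 1344275077) (.two (nat_lit 1048576) (nat_lit 2100168) (.one (nat_lit 2953842211) .nil))),
   .two (nat_lit 641728520) (nat_lit 10538188913) (.two (nat_lit 4194305) (nat_lit 174692761959) (.two (nat_lit 8388608) (nat_lit 158647453007) (.one (nat_lit 2100936) .nil))),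
   .two (nat_lit 41943048) (nat_lit 772800579) (.two (nat_lit 8388609) (nat_lit 166129042771) (.one (nat_lit 1053279) .nil)),
   .two (nat_lit 4194312) (nat_lit 9799991320) (.two (nat_lit 159216828421) (nat_lit 174753579116) (.two (nat_lit 4194305) (nat_lit 9899607362) (.one (nat_lit 4198089) .nil))),
   .two (nat_lit 20704133132) (nat_lit 285212687) (.two (nat_lit 9866051589) (nat_lit 9781117544) (.two (nat_lit 1048576) (nat_lit 788530568) (.one (nat_lit 16781920) .nil))),
   .two (nat_lit 1291845640) (nat_lit 157036838927) (.two (nat_lit 46407876612) (nat_lit 9881780338) (.two (nat_lit 2097153) (nat_lit 9781118248) (.one (nat_lit 4043312702) .nil))),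
   .two (nat_lit 83886088) (nat_lit 28690087960) (.two (nat_lit 721420292) (nat_lit 10000269431) (.two (nat_lit 8388609) (nat_lit 2902458981) (.two (nat_lit 1048576) (nat_lit 183962175515) (.one (nat_lit 1053281) .nil)))),
   .two (nat_lit 37748744) (nat_lit 12617515124) (.two (nat_lit 37748737) (nat_lit 672138609) (.one (nat_lit 1377832632) .nil)),
   .two (nat_lit 16777224) (nat_lit 705691663) (.two (nat_lit 169869316) (nat_lit 13187940624) (.two (nat_lit 16777217) (nat_lit 12147754344) (.one (nat_lit 165540793891) .nil))),
   .two (nat_lit 2961178632) (nat_lit 9781116969) (.two (nat_lit 2956984325) (nat_lit 183953784950) (.two (nat_lit 605028353) (nat_lit 1379926673) (.two (nat_lit 16777216) (nat_lit 19529730125) (.one (nat_lit 16781922) .nil)))),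
   .two (nat_lit 28087156744) (nat_lit 156468510744) (.two (nat_lit 11546918917) (nat_lit 11559501889) (.two (nat_lit 16777217) (nat_lit 12620661346) (.two (nat_lit 8388608) (nat_lit 9900655459) (.one (nat_lit 2100940) .nil)))),
   .two (nat_lit 117440520) (nat_lit 672137348) (.two (nat_lit 2097153) (nat_lit 2969567845) (.two (nat_lit 1048576) (nat_lit 50335170) .nil)),
   .two (nat_lit 285212680) (nat_lit 2353004568) (.two (nat_lit 19599982597) (nat_lit 9781117123) (.two (nat_lit 4194304) (nat_lit 822084893) (.one (nat_lit 16781005) .nil))),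
   .two (nat_lit 169869320) (nat_lit 1358954511) (.two (nat_lit 34603013) (nat_lit 156548202615) (.two (nat_lit 34603009) (nat_lit 352322883) (.one (nat_lit 46523223509) .nil))),
   .two (nat_lit 4601151496) (nat_lit 12054429711) (.two (nat_lit 184993972229) (nat_lit 4601151552) (.two (nat_lit 41943041) (nat_lit 843055299) (.two (nat_lit 8388608) (nat_lit 12620662076) (.one (nat_lit 10942942886) .nil)))),
   .two (nat_lit 203423752) (nat_lit 47555018767) (.two (nat_lit 176160772) (nat_lit 166197198980) (.two (nat_lit 2097153) (nat_lit 4605345987) (.two (nat_lit 4194304) (nat_lit 11611931492) (.one (nat_lit 2101859) .nil)))),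
   .two (nat_lit 169869320) (nat_lit 10338959375) (.two (nat_lit 2097157) (nat_lit 158649548933) (.two (nat_lit 2097153) (nat_lit 20637024613) (.two (nat_lit 16777216) (nat_lit 2921334125) (.one (nat_lit 10939797140) .nil)))),
   .two (nat_lit 673185805) (nat_lit 158176641091) (.two (nat_lit 605028353) (nat_lit 69206722) (.two (nat_lit 1048576) (nat_lit 46508542020) (.one (nat_lit 9765392969) .nil))),
   .two (nat_lit 2954887176) (nat_lit 10552868908) (.two (nat_lit 16777221) (nat_lit 102760566) (.two (nat_lit 16777217) (nat_lit 2988441957) (.two (nat_lit 16777216) (nat_lit 10907289744) (.one (nat_lit 156566032821) .nil)))),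
   .two (nat_lit 8388616) (nat_lit 1916796943) (.two (nat_lit 8388613) (nat_lit 13224640641) (.two (nat_lit 2097153) (nat_lit 9806283369) (.two (nat_lit 2097152) (nat_lit 8390829) (.one (nat_lit 740297265) .nil)))),
   .two (nat_lit 11479810056) (nat_lit 28691136527) (.two (nat_lit 13191086085) (nat_lit 19094569073) (.two (nat_lit 156367847425) (nat_lit 166130091354) (.one (nat_lit 4199012) .nil))),
   .two (nat_lit 809500680) (nat_lit 10940841999) (.two (nat_lit 4194308) (nat_lit 1847590977) (.two (nat_lit 4194305) (nat_lit 11511268673) (.one (nat_lit 2990543262) .nil))),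
   .two (nat_lit 9934209032) (nat_lit 11610882096) (.two (nat_lit 158144135173) (nat_lit 12147753025) (.two (nat_lit 16777217) (nat_lit 19597886813) (.one (nat_lit 1053285) .nil))),
   .two (nat_lit 2954887176) (nat_lit 1276117007) (.two (nat_lit 34603013) (nat_lit 11513364597) (.two (nat_lit 2097153) (nat_lit 9866053660) (.one (nat_lit 4199015) .nil))),
   .two (nat_lit 176160776) (nat_lit 157036838927) (.two (nat_lit 176160772) (nat_lit 19530776643) (.two (nat_lit 2097153) (nat_lit 1182795901) (.one (nat_lit 1182797421) .nil))),
   .two (nat_lit 12114198536) (nat_lit 1847590927) (.two (nat_lit 11476664324) (nat_lit 28758245492) (.two (nat_lit 9765388289) (nat_lit 1411384689) (.one (nat_lit 1847595474) .nil))),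
   .two (nat_lit 41943048) (nat_lit 1191182351) (.two (nat_lit 713031685) (nat_lit 11022631043) (.two (nat_lit 50331649) (nat_lit 13195280579) (.two (nat_lit 16777216) (nat_lit 2357200186) (.one (nat_lit 8393320) .nil)))),
   .two (nat_lit 1343225864) (nat_lit 19599982616) (.two (nat_lit 156367847429) (nat_lit 185020186735) (.two (nat_lit 34603009) (nat_lit 165528208005) (.two (nat_lit 1048576) (nat_lit 4197322) (.one (nat_lit 4199017) .nil)))),
   .two (nat_lit 50331656) (nat_lit 2923429911) (.two (nat_lit 2902458372) (nat_lit 156535620223) (.two (nat_lit 4194304) (nat_lit 16778525) (.one (nat_lit 4199018) .nil))),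
   .two (nat_lit 41943048) (nat_lit 654311439) (.two (nat_lit 8388612) (nat_lit 11492393081) (.two (nat_lit 16777217) (nat_lit 28093449501) (.one (nat_lit 183845785005) .nil))),
   .two (nat_lit 9768534024) (nat_lit 13195280399) (.two (nat_lit 2889875460) (nat_lit 75497592) (.two (nat_lit 4194305) (nat_lit 10343156246) .nil)),
   .two (nat_lit 176160776) (nat_lit 19027460119) (.two (nat_lit 176160772) (nat_lit 270533314) (.two (nat_lit 2097152) (nat_lit 11551115351) (.one (nat_lit 8393324) .nil))),
   .two (nat_lit 3464495112) (nat_lit 19130220659) (.two (nat_lit 4194305) (nat_lit 1417676068) (.one (nat_lit 4199021) .nil)),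
   .two (nat_lit 50331656) (nat_lit 165532401780) (.two (nat_lit 8388609) (nat_lit 11559502437) (.two (nat_lit 8388608) (nat_lit 2902460451) (.one (nat_lit 9948893662) .nil))),
   .two (nat_lit 705691656) (nat_lit 754974855) (.two (nat_lit 156364701697) (nat_lit 1224738517) (.two (nat_lit 4194304) (nat_lit 2100171) (.one (nat_lit 4199022) .nil))),
   .two (nat_lit 4194312) (nat_lit 251658266) (.two (nat_lit 2902458372) (nat_lit 10001318128) (.two (nat_lit 605028353) (nat_lit 1279263778) (.two (nat_lit 1048576) (nat_lit 606079947) (.one (nat_lit 605033070) .nil)))),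
   .two (nat_lit 13203669000) (nat_lit 12054429810) (.two (nat_lit 16777217) (nat_lit 46978303030) (.two (nat_lit 2097152) (nat_lit 11584669063) (.one (nat_lit 8393327) .nil))),
   .two (nat_lit 41943048) (nat_lit 183845781519) (.two (nat_lit 16777220) (nat_lit 156365750903) (.two (nat_lit 8388608) (nat_lit 20704135183) (.one (nat_lit 8393328) .nil))),
   .two (nat_lit 2961178632) (nat_lit 1847591047) (.two (nat_lit 2097153) (nat_lit 166199296628) (.two (nat_lit 1048576) (nat_lit 2099377) (.one (nat_lit 843058712) .nil))),
   .two (nat_lit 184419352584) (nat_lit 166130090008) (.two (nat_lit 12117344261) (nat_lit 1411383415) (.two (nat_lit 41943041) (nat_lit 19530778717) (.one (nat_lit 2101873) .nil))),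
   .two (nat_lit 176160776) (nat_lit 236978217) (.two (nat_lit 272629765) (nat_lit 706740342) (.two (nat_lit 2097153) (nat_lit 272630395) (.two (nat_lit 2097152) (nat_lit 159253530671) (.one (nat_lit 10001321397) .nil)))),
   .two (nat_lit 16777224) (nat_lit 156372041752) (.two (nat_lit 46414168068) (nat_lit 16777282) (.two (nat_lit 8388609) (nat_lit 50334209) .nil)),
   .two (nat_lit 809500680) (nat_lit 46523219994) (.two (nat_lit 11479810052) (nat_lit 11543773317) (.two (nat_lit 16777217) (nat_lit 19599983315) (.two (nat_lit 8388608) (nat_lit 10519317933) .nil))),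
   .two (nat_lit 9781116936) (nat_lit 20638072847) (.two (nat_lit 2902458372) (nat_lit 21208498290) (.two (nat_lit 606076929) (nat_lit 654312785) (.one (nat_lit 21812480525) .nil))),
   .two (nat_lit 4601151496) (nat_lit 10504634383) (.two (nat_lit 2887778308) (nat_lit 2923429955) (.two (nat_lit 4194305) (nat_lit 2317354059) (.two (nat_lit 4194304) (nat_lit 2099379) (.one (nat_lit 773853562) .nil)))),
   .two (nat_lit 11584667661) (nat_lit 28690087951) (.two (nat_lit 1913651205) (nat_lit 158183981713) (.two (nat_lit 1048576) (nat_lit 18933089575) (.one (nat_lit 8392400) .nil))),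
   .two (nat_lit 2961178632) (nat_lit 28758245493) (.two (nat_lit 2097153) (nat_lit 183953785464) (.two (nat_lit 2097152) (nat_lit 8391629) (.one (nat_lit 2101874) .nil))),
   .two (nat_lit 1175453704) (nat_lit 721420313) (.two (nat_lit 638582789) (nat_lit 773849221) (.two (nat_lit 8388609) (nat_lit 202375802) (.two (nat_lit 8388608) (nat_lit 1050804) (.one (nat_lit 2100945) .nil)))),
   .two (nat_lit 218103821) (nat_lit 28758245401) (.two (nat_lit 218103813) (nat_lit 13222543484) (.two (nat_lit 41943041) (nat_lit 721420959) (.two (nat_lit 8388608) (nat_lit 16779445) (.one (nat_lit 16781939) .nil)))),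
   .two (nat_lit 2969567240) (nat_lit 46414168190) (.two (nat_lit 16777217) (nat_lit 8390372) (.two (nat_lit 8388608) (nat_lit 16780238) (.one (nat_lit 156372045322) .nil))),
   .two (nat_lit 705691656) (nat_lit 46414168079) (.two (nat_lit 34603013) (nat_lit 2424307958) (.two (nat_lit 2097153) (nat_lit 28790751589) (.two (nat_lit 2097152) (nat_lit 46406829366) (.one (nat_lit 1053300) .nil)))),
   .two (nat_lit 11479810056) (nat_lit 101711887) (.two (nat_lit 9765388293) (nat_lit 13224640579) (.two (nat_lit 8388609) (nat_lit 19532874421) (.two (nat_lit 4194304) (nat_lit 202378721) .nil))),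
   .two (nat_lit 9768534024) (nat_lit 1753219096) (.two (nat_lit 156372041733) (nat_lit 46980399220) (.two (nat_lit 4194305) (nat_lit 158083318367) (.two (nat_lit 4194304) (nat_lit 10343156630) (.one (nat_lit 166203494820) .nil)))),
   .two (nat_lit 169869320) (nat_lit 19029557273) (.two (nat_lit 1276116996) (nat_lit 1279262845) (.two (nat_lit 606076929) (nat_lit 1779434163) (.two (nat_lit 1048576) (nat_lit 2100175) (.one (nat_lit 9934212597) .nil)))),
   .two (nat_lit 612368392) (nat_lit 9802088473) (.two (nat_lit 176160772) (nat_lit 11546919044) (.two (nat_lit 8388609) (nat_lit 28760343160) (.two (nat_lit 16777216) (nat_lit 239077539) (.one (nat_lit 8393333) .nil)))),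
   .two (nat_lit 612368392) (nat_lit 156971827241) (.two (nat_lit 176160772) (nat_lit 1916797170) (.two (nat_lit 8388609) (nat_lit 156569174373) (.two (nat_lit 8388608) (nat_lit 4196535) (.one (nat_lit 4198098) .nil)))),
   .two (nat_lit 713031688) (nat_lit 19532873795) (.two (nat_lit 4194305) (nat_lit 1753219430) (.two (nat_lit 8388608) (nat_lit 4634709495) .nil)),
   .two (nat_lit 620757000) (nat_lit 809500687) (.two (nat_lit 184549380) (nat_lit 10540286074) (.two (nat_lit 16777217) (nat_lit 843055299) (.two (nat_lit 16777216) (nat_lit 9969862031) (.one (nat_lit 4199030) .nil)))),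
   .two (nat_lit 754974728) (nat_lit 4634706037) (.two (nat_lit 50331649) (nat_lit 1279263786) (.two (nat_lit 16777216) (nat_lit 158146234398) (.one (nat_lit 1916800581) .nil))),
   .two (nat_lit 176160776) (nat_lit 11492393025) (.two (nat_lit 612368385) (nat_lit 28772926150) (.two (nat_lit 16777216) (nat_lit 8391633) (.one (nat_lit 8393337) .nil))),
   .two (nat_lit 9867100168) (nat_lit 101711887) (.two (nat_lit 11476664324) (nat_lit 1210056823) (.two (nat_lit 37748737) (nat_lit 1746928965) (.one (nat_lit 2100948) .nil))),
   .two (nat_lit 3527409672) (nat_lit 880803977) (.two (nat_lit 9781116929) (nat_lit 158079124805) (.one (nat_lit 306187798) .nil)),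
   .two (nat_lit 4194312) (nat_lit 83886192) (.two (nat_lit 34603009) (nat_lit 9936307506) (.one (nat_lit 4199034) .nil)),
   .two (nat_lit 641728520) (nat_lit 28758245391) (.two (nat_lit 708837381) (nat_lit 12054429812) (.two (nat_lit 4194305) (nat_lit 109052566) (.two (nat_lit 2097152) (nat_lit 8390841) (.one (nat_lit 4199035) .nil)))),
   .two (nat_lit 1779433480) (nat_lit 1753219087) (.two (nat_lit 1276116996) (nat_lit 12054429810) (.two (nat_lit 605028353) (nat_lit 11618223400) (.one (nat_lit 166237048527) .nil))),
   .two (nat_lit 272629768) (nat_lit 46474985497) (.two (nat_lit 605028357) (nat_lit 9967763571) (.two (nat_lit 4194305) (nat_lit 136316230) (.one (nat_lit 2920287935) .nil))),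
   .two (nat_lit 11476664328) (nat_lit 156569174040) (.two (nat_lit 34603013) (nat_lit 343933044) (.two (nat_lit 2097153) (nat_lit 165525062263) (.two (nat_lit 2097152) (nat_lit 184423548278) (.one (nat_lit 8393340) .nil)))),
   .two (nat_lit 10343153676) (nat_lit 1377828909) (.two (nat_lit 3525312517) (nat_lit 2927624312) (.two (nat_lit 2097153) (nat_lit 1283459210) (.one (nat_lit 880806413) .nil))),
   .two (nat_lit 1745879053) (nat_lit 183949590594) (.two (nat_lit 16777217) (nat_lit 1413483018) .nil),
   .two (nat_lit 13191086088) (nat_lit 19027460162) (.two (nat_lit 4194305) (nat_lit 47548729450) (.one (nat_lit 21778927252) .nil)),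
   .two (nat_lit 1191182344) (nat_lit 47548727311) (.two (nat_lit 169869316) (nat_lit 11492393026) (.two (nat_lit 606076929) (nat_lit 3003122298) (.two (nat_lit 16777216) (nat_lit 2100181) (.one (nat_lit 11559506370) .nil)))),
   .two (nat_lit 272629768) (nat_lit 150995221) (.two (nat_lit 620756993) (nat_lit 156569174374) (.two (nat_lit 16777216) (nat_lit 675286675) .nil)),
   .two (nat_lit 4194312) (nat_lit 83886188) (.two (nat_lit 34603009) (nat_lit 10372515126) (.one (nat_lit 2923433550) .nil)),
   .two (nat_lit 18928893960) (nat_lit 20652753255) (.two (nat_lit 4194304) (nat_lit 822085657) (.one (nat_lit 16781949) .nil)),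
   .two (nat_lit 705691656) (nat_lit 809500697) (.two (nat_lit 270532613) (nat_lit 306184257) (.two (nat_lit 34603009) (nat_lit 1178600115) (.two (nat_lit 4194304) (nat_lit 68159580) (.one (nat_lit 4199039) .nil)))),
   .two (nat_lit 16777224) (nat_lit 606076943) (.two (nat_lit 16777220) (nat_lit 28693233782) (.two (nat_lit 16777217) (nat_lit 1749025429) (.two (nat_lit 16777216) (nat_lit 4197334) (.one (nat_lit 675286453) .nil)))),
   .two (nat_lit 721420296) (nat_lit 156372041743) (.two (nat_lit 176160773) (nat_lit 11492393025) (.two (nat_lit 41943041) (nat_lit 28772926150) (.two (nat_lit 8388608) (nat_lit 16780247) (.one (nat_lit 16781952) .nil)))),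
   .two (nat_lit 9766436872) (nat_lit 46510637170) (.two (nat_lit 2097153) (nat_lit 1279264067) (.one (nat_lit 158649552341) .nil)),
   .two (nat_lit 880803853) (nat_lit 9781117043) (.two (nat_lit 41943041) (nat_lit 2332034349) (.one (nat_lit 46414170673) .nil)),
   .two (nat_lit 2969567240) (nat_lit 1310720023) (.two (nat_lit 2902458372) (nat_lit 673186480) (.two (nat_lit 4194304) (nat_lit 11007952997) (.one (nat_lit 807407044) .nil))),
   .two (nat_lit 8388616) (nat_lit 183845781519) (.two (nat_lit 176160772) (nat_lit 2987393272) (.two (nat_lit 612368385) (nat_lit 47581233772) (.two (nat_lit 1048576) (nat_lit 2100185) (.one (nat_lit 1053313) .nil)))),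
   .two (nat_lit 2887778312) (nat_lit 754974831) (.two (nat_lit 34603009) (nat_lit 1847591599) (.two (nat_lit 1048576) (nat_lit 16778623) (.one (nat_lit 28691141047) .nil))),
   .two (nat_lit 184416206861) (nat_lit 156535619608) (.two (nat_lit 34603013) (nat_lit 156976021623) (.two (nat_lit 2097153) (nat_lit 1954547801) (.one (nat_lit 183853126264) .nil))),
   .two (nat_lit 20637024264) (nat_lit 721420311) (.two (nat_lit 638582789) (nat_lit 2923430008) (.two (nat_lit 8388609) (nat_lit 10338959717) (.two (nat_lit 8388608) (nat_lit 4196540) (.one (nat_lit 4198103) .nil)))),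
   .two (nat_lit 8388616) (nat_lit 3458203663) (.two (nat_lit 176160772) (nat_lit 3558867052) (.two (nat_lit 2097153) (nat_lit 37320917673) (.two (nat_lit 2097152) (nat_lit 11551115304) (.one (nat_lit 47588576816) .nil)))),
   .two (nat_lit 37748744) (nat_lit 184416206863) (.two (nat_lit 4194308) (nat_lit 1846542458) (.two (nat_lit 605028353) (nat_lit 1948255076) (.one (nat_lit 20638076402) .nil))),
   .two (nat_lit 10385096712) (nat_lit 1310720114) (.two (nat_lit 606076929) (nat_lit 620758312) (.one (nat_lit 2954890740) .nil)),
   .two (nat_lit 8388616) (nat_lit 1291845647) (.two (nat_lit 8388612) (nat_lit 1426063492) (.two (nat_lit 605028353) (nat_lit 1426065462) (.one (nat_lit 3524267445) .nil))),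
   .two (nat_lit 12054429704) (nat_lit 11007950872) (.two (nat_lit 184993972229) (nat_lit 174686470257) (.two (nat_lit 156372041729) (nat_lit 165526111616) (.one (nat_lit 4028632576) .nil))),
   .two (nat_lit 135266316) (nat_lit 11559501839) (.two (nat_lit 19596836869) (nat_lit 46422556790) (.two (nat_lit 9765388289) (nat_lit 21223179567) (.one (nat_lit 16781016) .nil))),
   .two (nat_lit 218103816) (nat_lit 742391856) (.two (nat_lit 2902458372) (nat_lit 104857862) (.two (nat_lit 4194305) (nat_lit 11559503137) (.one (nat_lit 1053316) .nil))),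
   .two (nat_lit 612368392) (nat_lit 47582281753) (.two (nat_lit 270532613) (nat_lit 165532402280) (.two (nat_lit 1048576) (nat_lit 165532402986) (.one (nat_lit 4027584897) .nil))),
   .two (nat_lit 1175453704) (nat_lit 28758245391) (.two (nat_lit 2097157) (nat_lit 880804197) (.two (nat_lit 8388608) (nat_lit 159216831973) .nil)),
   .two (nat_lit 713031688) (nat_lit 10000269412) (.two (nat_lit 713031684) (nat_lit 183912890434) (.two (nat_lit 34603009) (nat_lit 1317012088) (.two (nat_lit 8388608) (nat_lit 37246470187) (.one (nat_lit 46473940412) .nil)))),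
   .two (nat_lit 9867100168) (nat_lit 46414168079) (.two (nat_lit 4605345797) (nat_lit 1847591047) (.two (nat_lit 8388609) (nat_lit 12115248528) (.one (nat_lit 69208589) .nil))),
   .two (nat_lit 9948889096) (nat_lit 157036838927) (.two (nat_lit 184549380) (nat_lit 156969730326) (.two (nat_lit 2097153) (nat_lit 83886803) (.two (nat_lit 8388608) (nat_lit 68160941) .nil))),
   .two (nat_lit 705691656) (nat_lit 12117344271) (.two (nat_lit 2097157) (nat_lit 1212154098) (.two (nat_lit 2097153) (nat_lit 1212154214) (.two (nat_lit 4194304) (nat_lit 1914701125) (.one (nat_lit 4198105) .nil)))),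
   .two (nat_lit 2887778312) (nat_lit 3464495119) (.two (nat_lit 270532613) (nat_lit 159224168691) (.two (nat_lit 2097153) (nat_lit 10007609946) (.two (nat_lit 1048576) (nat_lit 2100758) .nil))),
   .two (nat_lit 880803852) (nat_lit 159217877007) (.two (nat_lit 184993972229) (nat_lit 46474986127) (.two (nat_lit 1048576) (nat_lit 11578377534) (.one (nat_lit 2101893) .nil))),
   .two (nat_lit 158083317768) (nat_lit 19530776591) (.two (nat_lit 157036838917) (nat_lit 3464495347) (.two (nat_lit 156365750273) (nat_lit 46414168666) (.two (nat_lit 1048576) (nat_lit 1210060310) .nil))),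
   .two (nat_lit 4599054349) (nat_lit 156367847439) (.two (nat_lit 4599054341) (nat_lit 46409973826) (.two (nat_lit 2097153) (nat_lit 21207450299) (.two (nat_lit 1048576) (nat_lit 4196541) (.one (nat_lit 174755679768) .nil)))),
   .two (nat_lit 37748744) (nat_lit 184993972239) (.two (nat_lit 4194308) (nat_lit 10913579130) (.two (nat_lit 4194305) (nat_lit 3558867596) (.two (nat_lit 2097152) (nat_lit 20740835451) (.one (nat_lit 10544484771) .nil)))),
   .two (nat_lit 2961178632) (nat_lit 166230753320) (.two (nat_lit 270532613) (nat_lit 10510925958) (.two (nat_lit 2097153) (nat_lit 3464495741) (.two (nat_lit 4194304) (nat_lit 156533523832) (.one (nat_lit 2101894) .nil)))),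
   .two (nat_lit 2954887176) (nat_lit 156372041743) (.two (nat_lit 169869316) (nat_lit 9806282947) (.two (nat_lit 16777216) (nat_lit 156976025079) .nil)),
   .two (nat_lit 47582281741) (nat_lit 28693233731) (.two (nat_lit 2097153) (nat_lit 1916797795) (.one (nat_lit 4199047) .nil)),
   .two (nat_lit 203423757) (nat_lit 10506731535) (.two (nat_lit 2097157) (nat_lit 156569174128) (.two (nat_lit 34603009) (nat_lit 239075953) (.two (nat_lit 1048576) (nat_lit 4197338) (.one (nat_lit 1053320) .nil)))),
   .two (nat_lit 285212680) (nat_lit 739246194) (.two (nat_lit 16777217) (nat_lit 772801140) (.two (nat_lit 16777216) (nat_lit 673187199) (.one (nat_lit 1053321) .nil))),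
   .two (nat_lit 10007609356) (nat_lit 1913651215) (.two (nat_lit 159224168453) (nat_lit 183912890482) (.two (nat_lit 34603009) (nat_lit 20745028950) (.one (nat_lit 1309674954) .nil))),
   .two (nat_lit 9866051592) (nat_lit 13195280424) (.two (nat_lit 1343225861) (nat_lit 343933167) (.two (nat_lit 41943041) (nat_lit 28790751589) (.two (nat_lit 8388608) (nat_lit 46977255577) (.one (nat_lit 1053322) .nil)))),
   .two (nat_lit 47548727304) (nat_lit 2349858841) (.two (nat_lit 169869316) (nat_lit 11543773306) (.two (nat_lit 16777217) (nat_lit 2920286259) (.one (nat_lit 19596840550) .nil))),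
   .two (nat_lit 620757000) (nat_lit 156372041743) (.two (nat_lit 721420292) (nat_lit 168820855) (.two (nat_lit 8388609) (nat_lit 285213318) (.two (nat_lit 4194304) (nat_lit 1920994788) .nil))),
   .two (nat_lit 654311432) (nat_lit 184419352591) (.two (nat_lit 2902458373) (nat_lit 156971827267) (.two (nat_lit 37748737) (nat_lit 20652753528) (.two (nat_lit 1048576) (nat_lit 10372515129) (.one (nat_lit 4199051) .nil)))),
   .two (nat_lit 10370416648) (nat_lit 1753219113) (.two (nat_lit 639631365) (nat_lit 184993972466) (.two (nat_lit 8388609) (nat_lit 28758245733) (.two (nat_lit 2097152) (nat_lit 21214790969) (.one (nat_lit 1310724717) .nil)))),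
   .two (nat_lit 19529728008) (nat_lit 156567077111) (.two (nat_lit 50331649) (nat_lit 37246468453) (.two (nat_lit 2097152) (nat_lit 12617518771) .nil)),
   .two (nat_lit 41943048) (nat_lit 158075977743) (.two (nat_lit 272629765) (nat_lit 3524264057) (.two (nat_lit 605028353) (nat_lit 10443817669) (.two (nat_lit 4194304) (nat_lit 780142646) (.one (nat_lit 46980403680) .nil)))),
   .two (nat_lit 205520904) (nat_lit 20638072847) (.two (nat_lit 2956984325) (nat_lit 156567077126) (.two (nat_lit 605028353) (nat_lit 4634706278) (.two (nat_lit 1048576) (nat_lit 21210596662) (.one (nat_lit 4199052) .nil)))),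
   .two (nat_lit 47555018760) (nat_lit 10336862344) (.two (nat_lit 606076929) (nat_lit 159224168805) (.two (nat_lit 2097152) (nat_lit 183920231798) (.one (nat_lit 8393358) .nil))),
   .two (nat_lit 272629768) (nat_lit 184549391) (.two (nat_lit 4194308) (nat_lit 10015998611) (.two (nat_lit 8388608) (nat_lit 166245434691) (.one (nat_lit 4199055) .nil))),
   .two (nat_lit 75497480) (nat_lit 165526110344) (.two (nat_lit 2097153) (nat_lit 20745027943) (.two (nat_lit 2097152) (nat_lit 11484006536) (.one (nat_lit 2101904) .nil))),
   .two (nat_lit 16777224) (nat_lit 4027580462) (.two (nat_lit 176160773) (nat_lit 3020947581) (.two (nat_lit 8388609) (nat_lit 18941477546) (.two (nat_lit 2097152) (nat_lit 3464498097) (.one (nat_lit 8393361) .nil)))),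
   .two (nat_lit 165526110216) (nat_lit 19599982617) (.two (nat_lit 11546918917) (nat_lit 16777832) (.two (nat_lit 16777216) (nat_lit 156466415755) (.one (nat_lit 339743180) .nil))),
   .two (nat_lit 4194312) (nat_lit 2969567247) (.two (nat_lit 4194308) (nat_lit 2969567949) (.two (nat_lit 16777216) (nat_lit 11543776176) (.one (nat_lit 608178742) .nil))),
   .two (nat_lit 612368392) (nat_lit 1377828889) (.two (nat_lit 176160772) (nat_lit 47548727416) (.two (nat_lit 606076929) (nat_lit 159224168805) (.two (nat_lit 2097152) (nat_lit 8392325) .nil))),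
   .two (nat_lit 184416206856) (nat_lit 9881780249) (.two (nat_lit 721420292) (nat_lit 12617515074) (.two (nat_lit 34603009) (nat_lit 10016000048) (.one (nat_lit 1053330) .nil))),
   .two (nat_lit 2961178632) (nat_lit 2954887288) (.two (nat_lit 605028353) (nat_lit 606077556) (.two (nat_lit 2097152) (nat_lit 46984595510) (.one (nat_lit 3021999541) .nil))),
   .two (nat_lit 11543773192) (nat_lit 171966726) (.two (nat_lit 34603009) (nat_lit 1224737388) (.two (nat_lit 1048576) (nat_lit 184419355573) (.one (nat_lit 158662136441) .nil))),
   .two (nat_lit 156468510733) (nat_lit 2988441667) (.two (nat_lit 2097153) (nat_lit 37316723345) (.two (nat_lit 8388608) (nat_lit 28691137924) (.one (nat_lit 2100961) .nil))),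
   .two (nat_lit 159232557064) (nat_lit 156539814009) (.two (nat_lit 8388609) (nat_lit 2316305097) (.two (nat_lit 4194304) (nat_lit 8390848) (.one (nat_lit 8393364) .nil))),
   .two (nat_lit 713031688) (nat_lit 9967763523) (.two (nat_lit 41943041) (nat_lit 2988441958) (.two (nat_lit 8388608) (nat_lit 69209737) .nil)),
   .two (nat_lit 822083592) (nat_lit 1916796943) (.two (nat_lit 16777220) (nat_lit 156468510833) (.two (nat_lit 16777217) (nat_lit 10370417704) (.two (nat_lit 2097152) (nat_lit 8391644) (.one (nat_lit 2101909) .nil)))),
   .two (nat_lit 606076936) (nat_lit 156573368446) (.two (nat_lit 8388609) (nat_lit 10372515990) (.one (nat_lit 8393366) .nil)),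
   .two (nat_lit 11476664328) (nat_lit 1178599439) (.two (nat_lit 69206021) (nat_lit 2920284286) (.two (nat_lit 156364701697) (nat_lit 166197199912) (.two (nat_lit 1048576) (nat_lit 184417258386) (.one (nat_lit 2101911) .nil)))),
   .two (nat_lit 606076936) (nat_lit 839909503) (.two (nat_lit 37748737) (nat_lit 9798943340) (.two (nat_lit 1048576) (nat_lit 339741654) (.one (nat_lit 1053336) .nil))),
   .two (nat_lit 4194312) (nat_lit 28093448303) (.two (nat_lit 4194305) (nat_lit 4605346458) (.two (nat_lit 1048576) (nat_lit 171970158) .nil)),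
   .two (nat_lit 11479810056) (nat_lit 156372041843) (.two (nat_lit 37748737) (nat_lit 1753220391) (.one (nat_lit 21210599914) .nil)),
   .two (nat_lit 16777224) (nat_lit 4605345807) (.two (nat_lit 8388612) (nat_lit 218103873) (.two (nat_lit 8388609) (nat_lit 3003122388) (.two (nat_lit 4194304) (nat_lit 1317012803) (.one (nat_lit 8392418) .nil)))),
   .two (nat_lit 2889875464) (nat_lit 1358954511) (.two (nat_lit 721420292) (nat_lit 10540286624) (.two (nat_lit 8388608) (nat_lit 4601153563) (.one (nat_lit 4199068) .nil))),
   .two (nat_lit 11559501832) (nat_lit 47582281752) (.two (nat_lit 169869316) (nat_lit 11559502019) (.two (nat_lit 16777216) (nat_lit 10504637323) (.one (nat_lit 20705185339) .nil))),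
   .two (nat_lit 8388616) (nat_lit 20637024271) (.two (nat_lit 8388612) (nat_lit 156566028550) (.two (nat_lit 41943041) (nat_lit 21814575724) (.two (nat_lit 1048576) (nat_lit 4197343) (.one (nat_lit 4199070) .nil)))),
   .two (nat_lit 272629768) (nat_lit 20638072954) (.two (nat_lit 4194305) (nat_lit 158647452289) (.two (nat_lit 4194304) (nat_lit 37314629147) .nil)),
   .two (nat_lit 8388616) (nat_lit 1212153881) (.two (nat_lit 8388612) (nat_lit 10506731630) (.two (nat_lit 620756993) (nat_lit 12117346443) (.one (nat_lit 156573372784) .nil))),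
   .two (nat_lit 2889875464) (nat_lit 156567076976) (.two (nat_lit 4194305) (nat_lit 174686470806) (.two (nat_lit 4194304) (nat_lit 2100192) (.one (nat_lit 2101919) .nil))),
   .two (nat_lit 4605345804) (nat_lit 1277165583) (.two (nat_lit 9934209029) (nat_lit 343933043) (.two (nat_lit 606076929) (nat_lit 11584669733) (.one (nat_lit 21778927066) .nil))),
   .two (nat_lit 1277165576) (nat_lit 37249613946) (.two (nat_lit 606076929) (nat_lit 46980399713) (.two (nat_lit 2097152) (nat_lit 4601155177) .nil)),
   .two (nat_lit 721420296) (nat_lit 10007609390) (.two (nat_lit 11479810053) (nat_lit 3539992699) (.two (nat_lit 4194305) (nat_lit 156581758013) (.two (nat_lit 8388608) (nat_lit 4197345) (.one (nat_lit 4199072) .nil)))),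
   .two (nat_lit 11543773192) (nat_lit 19530776591) (.two (nat_lit 705691652) (nat_lit 19027460162) (.two (nat_lit 605028353) (nat_lit 46474985667) (.two (nat_lit 1048576) (nat_lit 2100194) (.one (nat_lit 10437529223) .nil)))),
   .two (nat_lit 10538188812) (nat_lit 47555018767) (.two (nat_lit 10504634373) (nat_lit 3028287602) (.two (nat_lit 9766436865) (nat_lit 28798091895) (.two (nat_lit 2097152) (nat_lit 2994734396) (.one (nat_lit 8392420) .nil)))),
   .two (nat_lit 20637024264) (nat_lit 10504634383) (.two (nat_lit 184549381) (nat_lit 165525061758) (.two (nat_lit 4194305) (nat_lit 185035917504) (.one (nat_lit 16781987) .nil))),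
   .two (nat_lit 75497480) (nat_lit 12114198543) (.two (nat_lit 713031684) (nat_lit 12147753074) (.two (nat_lit 50331649) (nat_lit 156968684059) .nil)),
   .two (nat_lit 4194312) (nat_lit 47555018767) (.two (nat_lit 2097157) (nat_lit 1379926135) (.two (nat_lit 2097153) (nat_lit 11510219111) (.two (nat_lit 2097152) (nat_lit 612371957) .nil))),
   .two (nat_lit 101711880) (nat_lit 10940842094) (.two (nat_lit 34603009) (nat_lit 28758245985) (.two (nat_lit 1048576) (nat_lit 166230754596) (.one (nat_lit 18925751749) .nil))),
   .two (nat_lit 713031688) (nat_lit 10436477065) (.two (nat_lit 2097153) (nat_lit 46414169380) (.one (nat_lit 839914093) .nil)),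
   .two (nat_lit 705691656) (nat_lit 11492392975) (.two (nat_lit 34603013) (nat_lit 158192369800) (.two (nat_lit 2097153) (nat_lit 19109250108) (.two (nat_lit 1048576) (nat_lit 203427354) .nil))),
   .two (nat_lit 606076936) (nat_lit 285212687) (.two (nat_lit 2902458372) (nat_lit 9802089168) (.two (nat_lit 2097152) (nat_lit 156971829352) (.one (nat_lit 2101926) .nil))),
   .two (nat_lit 11551113224) (nat_lit 1191182351) (.two (nat_lit 713031684) (nat_lit 19042140292) (.two (nat_lit 50331649) (nat_lit 12624855712) (.two (nat_lit 2097152) (nat_lit 1417676967) (.one (nat_lit 2101927) .nil)))),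
   .two (nat_lit 28691136520) (nat_lit 218103923) (.two (nat_lit 41943041) (nat_lit 183861510507) (.two (nat_lit 8388608) (nat_lit 16780943) .nil)),
   .two (nat_lit 41943048) (nat_lit 28760342663) (.two (nat_lit 41943041) (nat_lit 2319451185) (.two (nat_lit 16777216) (nat_lit 12050237569) (.one (nat_lit 12050238893) .nil))),
   .two (nat_lit 847249421) (nat_lit 2349858840) (.two (nat_lit 12121538565) (nat_lit 156465365058) (.two (nat_lit 9766436865) (nat_lit 10939794764) (.one (nat_lit 28790754912) .nil))),
   .two (nat_lit 75497480) (nat_lit 873463848) (.two (nat_lit 2097157) (nat_lit 2927624440) (.two (nat_lit 34603009) (nat_lit 11007951490) (.two (nat_lit 1048576) (nat_lit 28697430066) (.one (nat_lit 8393386) .nil)))),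
   .two (nat_lit 641728520) (nat_lit 28758245391) (.two (nat_lit 708837381) (nat_lit 12054429812) (.two (nat_lit 4194305) (nat_lit 109052566) (.two (nat_lit 2097152) (nat_lit 2994736565) .nil))),
   .two (nat_lit 3460300808) (nat_lit 10343153679) (.two (nat_lit 638582789) (nat_lit 4634706045) (.two (nat_lit 8388609) (nat_lit 183848927894) (.two (nat_lit 1048576) (nat_lit 4196550) (.one (nat_lit 2316308197) .nil)))),
   .two (nat_lit 184986632200) (nat_lit 18928893967) (.two (nat_lit 11543773189) (nat_lit 47550824578) (.two (nat_lit 34603009) (nat_lit 9802088643) (.two (nat_lit 1048576) (nat_lit 10540287293) (.one (nat_lit 4199085) .nil)))),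
   .two (nat_lit 176160776) (nat_lit 183848927247) (.two (nat_lit 4605345797) (nat_lit 13224641109) (.two (nat_lit 8388608) (nat_lit 20740834642) (.one (nat_lit 4199088) .nil))),
   .two (nat_lit 620757000) (nat_lit 809500687) (.two (nat_lit 21777874949) (nat_lit 47584379007) (.two (nat_lit 16777217) (nat_lit 19532875927) (.one (nat_lit 165540794742) .nil))),
   .two (nat_lit 1191182349) (nat_lit 306184259) (.two (nat_lit 4194305) (nat_lit 11559502182) (.two (nat_lit 16777216) (nat_lit 11513367445) (.one (nat_lit 4199089) .nil))),
   .two (nat_lit 4601151496) (nat_lit 2323644440) (.two (nat_lit 20644364292) (nat_lit 306184258) (.two (nat_lit 9781116929) (nat_lit 37316723345) (.two (nat_lit 16777216) (nat_lit 4196551) (.one (nat_lit 4199090) .nil)))),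
   .two (nat_lit 3527409672) (nat_lit 21207449644) (.two (nat_lit 1913651205) (nat_lit 46980399171) (.two (nat_lit 16777217) (nat_lit 28089254249) (.two (nat_lit 16777216) (nat_lit 2319451449) (.one (nat_lit 156468515177) .nil)))),
   .two (nat_lit 156533522444) (nat_lit 721420303) (.two (nat_lit 50331653) (nat_lit 9934209160) (.two (nat_lit 606076929) (nat_lit 156548203833) (.one (nat_lit 9814674941) .nil))),
   .two (nat_lit 1277165576) (nat_lit 19532873863) (.two (nat_lit 9766436865) (nat_lit 9802089769) (.one (nat_lit 21781024215) .nil)),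
   .two (nat_lit 1291845640) (nat_lit 12047089679) (.two (nat_lit 1291845636) (nat_lit 3457155790) (.two (nat_lit 2097152) (nat_lit 2432700024) .nil)),
   .two (nat_lit 713031688) (nat_lit 156968681496) (.two (nat_lit 713031684) (nat_lit 11610882176) (.two (nat_lit 16777217) (nat_lit 4605347104) (.one (nat_lit 12617519466) .nil))),
   .two (nat_lit 169869320) (nat_lit 10338959375) (.two (nat_lit 2097157) (nat_lit 158649548933) (.two (nat_lit 2097153) (nat_lit 9936308404) (.one (nat_lit 10939797140) .nil))),
   .two (nat_lit 11492392968) (nat_lit 157038936079) (.two (nat_lit 46409973765) (nat_lit 9781117525) (.two (nat_lit 4194304) (nat_lit 165540791634) (.one (nat_lit 16782003) .nil))),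
   .two (nat_lit 174752530445) (nat_lit 10336862223) (.two (nat_lit 806354949) (nat_lit 184549443) (.two (nat_lit 2097153) (nat_lit 2936013163) (.two (nat_lit 1048576) (nat_lit 4647290188) (.one (nat_lit 16782005) .nil)))),
   .two (nat_lit 1276117000) (nat_lit 3558866967) (.two (nat_lit 46978301957) (nat_lit 11006902390) (.two (nat_lit 2097153) (nat_lit 174685422254) (.two (nat_lit 4194304) (nat_lit 37247518849) (.one (nat_lit 2101942) .nil)))),
   .two (nat_lit 205520904) (nat_lit 20638072847) (.two (nat_lit 20638072836) (nat_lit 183916036218) (.two (nat_lit 156365750273) (nat_lit 166132187773) (.two (nat_lit 1048576) (nat_lit 158146233669) (.one (nat_lit 4199096) .nil)))),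
   .two (nat_lit 11492392968) (nat_lit 1916796943) (.two (nat_lit 822083589) (nat_lit 1413480582) (.two (nat_lit 37748737) (nat_lit 813696313) (.one (nat_lit 12054433459) .nil))),
   .two (nat_lit 166129041416) (nat_lit 1277165634) (.two (nat_lit 605028353) (nat_lit 10370416997) (.two (nat_lit 1048576) (nat_lit 37320918371) (.one (nat_lit 12054433345) .nil))),
   .two (nat_lit 11476664328) (nat_lit 1291845747) (.two (nat_lit 2097153) (nat_lit 16778325) (.two (nat_lit 2097152) (nat_lit 11492396613) .nil)),
   .two (nat_lit 2416967692) (nat_lit 117440527) (.two (nat_lit 2956984325) (nat_lit 9781117123) (.two (nat_lit 1048576) (nat_lit 1962935612) (.one (nat_lit 16782009) .nil))),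
   .two (nat_lit 2889875464) (nat_lit 28690087951) (.two (nat_lit 272629765) (nat_lit 18925748470) (.two (nat_lit 9768534017) (nat_lit 28790751589) (.two (nat_lit 2097152) (nat_lit 183848930747) .nil))),
   .two (nat_lit 4194312) (nat_lit 184549399) (.two (nat_lit 4194308) (nat_lit 165540790410) (.two (nat_lit 16777217) (nat_lit 11479810725) (.two (nat_lit 1048576) (nat_lit 28693235851) (.one (nat_lit 10540290533) .nil)))),
   .two (nat_lit 4613734408) (nat_lit 159224168563) (.two (nat_lit 156364701697) (nat_lit 184423547940) (.two (nat_lit 1048576) (nat_lit 13195284037) .nil)),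
   .two (nat_lit 612368392) (nat_lit 10940841999) (.two (nat_lit 176160772) (nat_lit 28758245443) (.two (nat_lit 156365750273) (nat_lit 1317012864) (.one (nat_lit 236981828) .nil))),
   .two (nat_lit 50331656) (nat_lit 2954887232) (.two (nat_lit 16777217) (nat_lit 3558869503) .nil),
   .two (nat_lit 4194312) (nat_lit 3525312527) (.two (nat_lit 171966469) (nat_lit 9900654854) (.two (nat_lit 37748737) (nat_lit 135266662) (.two (nat_lit 1048576) (nat_lit 19094570309) (.one (nat_lit 4198745) .nil)))),
   .two (nat_lit 50331656) (nat_lit 28693233679) (.two (nat_lit 16777220) (nat_lit 28693233730) (.two (nat_lit 9768534017) (nat_lit 1191182694) (.two (nat_lit 4194304) (nat_lit 21827161750) .nil))),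
   .two (nat_lit 606076936) (nat_lit 158083317775) (.two (nat_lit 169869316) (nat_lit 11517558906) (.two (nat_lit 2097153) (nat_lit 47550825817) (.one (nat_lit 11010051678) .nil))),
   .two (nat_lit 620757000) (nat_lit 156372041844) (.two (nat_lit 41943041) (nat_lit 16778536) (.one (nat_lit 1761612185) .nil)),
   .two (nat_lit 184549384) (nat_lit 1343225871) (.two (nat_lit 16777221) (nat_lit 158176641137) (.two (nat_lit 16777217) (nat_lit 839910792) (.one (nat_lit 1053373) .nil))),
   .two (nat_lit 739246088) (nat_lit 10437525527) (.two (nat_lit 2894069765) (nat_lit 47582281845) (.two (nat_lit 8388609) (nat_lit 174753579674) (.two (nat_lit 16777216) (nat_lit 158075979850) (.one (nat_lit 8393406) .nil)))),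
   .two (nat_lit 184423546888) (nat_lit 18928893967) (.two (nat_lit 21778923525) (nat_lit 343933053) (.two (nat_lit 37748737) (nat_lit 813697078) (.one (nat_lit 1849691573) .nil))),
   .two (nat_lit 218103816) (nat_lit 10504634383) (.two (nat_lit 2887778308) (nat_lit 654312290) (.one (nat_lit 18941479433) .nil)),
   .two (nat_lit 10385096712) (nat_lit 1947205872) (.two (nat_lit 620756993) (nat_lit 37313579115) (.one (nat_lit 1053375) .nil)),
   .two (nat_lit 16777224) (nat_lit 205521029) (.two (nat_lit 16777217) (nat_lit 2956986437) (.one (nat_lit 4199104) .nil)),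
   .two (nat_lit 721420301) (nat_lit 639631375) (.two (nat_lit 721420293) (nat_lit 166230753393) (.two (nat_lit 16777217) (nat_lit 158144136486) (.one (nat_lit 2101953) .nil))),
   .two (nat_lit 176160776) (nat_lit 1191182351) (.two (nat_lit 9781116933) (nat_lit 343932995) (.two (nat_lit 620756993) (nat_lit 10376708456) (.two (nat_lit 1048576) (nat_lit 21818770734) (.one (nat_lit 8393411) .nil)))),
   .two (nat_lit 754974728) (nat_lit 46409973775) (.two (nat_lit 11492392964) (nat_lit 1212153923) (.two (nat_lit 4194305) (nat_lit 1358954691) (.two (nat_lit 4194304) (nat_lit 18941478973) (.one (nat_lit 16782020) .nil)))),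
   .two (nat_lit 612368392) (nat_lit 1913651244) (.two (nat_lit 2954887173) (nat_lit 11510218878) (.two (nat_lit 16777217) (nat_lit 1175454311) (.two (nat_lit 16777216) (nat_lit 9873394660) (.one (nat_lit 2101957) .nil)))),
   .two (nat_lit 16777224) (nat_lit 156468510786) (.two (nat_lit 16777217) (nat_lit 171966823) (.two (nat_lit 4194304) (nat_lit 184431936815) (.one (nat_lit 10385100273) .nil))),
   .two (nat_lit 8388616) (nat_lit 10942939151) (.two (nat_lit 8388612) (nat_lit 1346371847) (.two (nat_lit 9766436865) (nat_lit 339738983) (.two (nat_lit 2097152) (nat_lit 37750109) (.one (nat_lit 4198126) .nil)))),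
   .two (nat_lit 276824072) (nat_lit 13224640625) (.two (nat_lit 9765388289) (nat_lit 775946868) (.two (nat_lit 1048576) (nat_lit 156468512079) (.one (nat_lit 4199110) .nil))),
   .two (nat_lit 306184204) (nat_lit 11610882096) (.two (nat_lit 1178599429) (nat_lit 185020186866) (.two (nat_lit 16777217) (nat_lit 183949592666) (.one (nat_lit 1053383) .nil))),
   .two (nat_lit 4194312) (nat_lit 41943055) (.two (nat_lit 8388612) (nat_lit 809501036) (.two (nat_lit 4194304) (nat_lit 156532477450) .nil)),
   .two (nat_lit 176160781) (nat_lit 1916796943) (.two (nat_lit 176160773) (nat_lit 339738757) (.two (nat_lit 8388609) (nat_lit 184419353283) (.two (nat_lit 1048576) (nat_lit 11546922482) .nil))),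
   .two (nat_lit 11559501832) (nat_lit 12047089679) (.two (nat_lit 721420292) (nat_lit 21777875064) (.two (nat_lit 34603009) (nat_lit 12163482322) (.two (nat_lit 4194304) (nat_lit 2365591042) .nil))),
   .two (nat_lit 176160776) (nat_lit 37247517033) (.two (nat_lit 8388608) (nat_lit 3021997388) (.one (nat_lit 9934213813) .nil)),
   .two (nat_lit 10370416648) (nat_lit 306184232) (.two (nat_lit 639631365) (nat_lit 4634706160) (.two (nat_lit 620756993) (nat_lit 18926798173) (.one (nat_lit 4199113) .nil))),
   .two (nat_lit 169869320) (nat_lit 10338959375) (.two (nat_lit 184549380) (nat_lit 1175454400) (.two (nat_lit 16777216) (nat_lit 336595034) (.one (nat_lit 2101962) .nil))),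
   .two (nat_lit 3464495112) (nat_lit 10538188840) (.two (nat_lit 9934209029) (nat_lit 13195280742) (.two (nat_lit 2097152) (nat_lit 13195281695) (.one (nat_lit 8392432) .nil))),
   .two (nat_lit 4601151496) (nat_lit 169869360) (.two (nat_lit 1914699781) (nat_lit 306184258) (.two (nat_lit 41943041) (nat_lit 1176503645) (.one (nat_lit 4199117) .nil))),
   .two (nat_lit 4634705932) (nat_lit 21208498191) (.two (nat_lit 4601151493) (nat_lit 158144135235) (.two (nat_lit 4194305) (nat_lit 4632609127) (.two (nat_lit 2097152) (nat_lit 19130221862) (.one (nat_lit 2101966) .nil)))),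
   .two (nat_lit 156365750280) (nat_lit 1846542351) (.two (nat_lit 806354949) (nat_lit 721420404) (.two (nat_lit 2097153) (nat_lit 638584886) (.one (nat_lit 788532762) .nil))),
   .two (nat_lit 1277165576) (nat_lit 166132187151) (.two (nat_lit 41943045) (nat_lit 19130220783) (.two (nat_lit 37748737) (nat_lit 1417675109) (.two (nat_lit 8388608) (nat_lit 3458207163) .nil))),
   .two (nat_lit 1376780300) (nat_lit 19599982607) (.two (nat_lit 1343225861) (nat_lit 46409973880) (.two (nat_lit 605028353) (nat_lit 1212154213) (.two (nat_lit 1048576) (nat_lit 185023333683) (.one (nat_lit 4199119) .nil)))),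
   .two (nat_lit 8388616) (nat_lit 809500687) (.two (nat_lit 4194308) (nat_lit 880804446) (.two (nat_lit 4194304) (nat_lit 8392349) .nil)),
   .two (nat_lit 12054429709) (nat_lit 156465365016) (.two (nat_lit 166129041412) (nat_lit 183853121653) (.two (nat_lit 156364701697) (nat_lit 183853122144) (.two (nat_lit 1048576) (nat_lit 8390861) (.one (nat_lit 2961183267) .nil)))),
   .two (nat_lit 159217877000) (nat_lit 11543773228) (.two (nat_lit 69206021) (nat_lit 158646403187) (.two (nat_lit 2097153) (nat_lit 171966827) (.two (nat_lit 2097152) (nat_lit 13224644085) .nil))),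
   .two (nat_lit 606076936) (nat_lit 19545456689) (.two (nat_lit 184549381) (nat_lit 705691714) (.two (nat_lit 16777217) (nat_lit 3524264297) (.two (nat_lit 4194304) (nat_lit 1051626) (.one (nat_lit 1053392) .nil)))),
   .two (nat_lit 3460300808) (nat_lit 639631496) (.two (nat_lit 605028353) (nat_lit 3560964457) (.two (nat_lit 1048576) (nat_lit 47584380218) (.one (nat_lit 4199121) .nil))),
   .two (nat_lit 11479810056) (nat_lit 3464495119) (.two (nat_lit 809500677) (nat_lit 10007609585) (.two (nat_lit 37748737) (nat_lit 12054430412) (.two (nat_lit 4194304) (nat_lit 8390862) (.one (nat_lit 4199122) .nil)))),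
   .two (nat_lit 11479810056) (nat_lit 28757196815) (.two (nat_lit 9934209029) (nat_lit 158143086706) (.two (nat_lit 9765388289) (nat_lit 1212154486) (.two (nat_lit 2097152) (nat_lit 2953840005) (.one (nat_lit 1053395) .nil)))),
   .two (nat_lit 9948889096) (nat_lit 203423770) (.two (nat_lit 1291845636) (nat_lit 21207449733) (.two (nat_lit 2097153) (nat_lit 1358955142) (.two (nat_lit 4194304) (nat_lit 47547682276) .nil))),
   .two (nat_lit 2902458376) (nat_lit 158077026352) (.two (nat_lit 270532613) (nat_lit 1191182403) (.two (nat_lit 2097153) (nat_lit 47596962482) (.two (nat_lit 16777216) (nat_lit 2100746) .nil))),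
   .two (nat_lit 9768534024) (nat_lit 10336862223) (.two (nat_lit 2889875460) (nat_lit 1310720110) (.two (nat_lit 2097153) (nat_lit 46409974472) (.two (nat_lit 8388608) (nat_lit 4599058030) .nil))),
   .two (nat_lit 4601151496) (nat_lit 4605345817) (.two (nat_lit 638582789) (nat_lit 9802088515) (.two (nat_lit 8388609) (nat_lit 4601151683) (.two (nat_lit 4194304) (nat_lit 1051627) (.one (nat_lit 13187944946) .nil)))),
   .two (nat_lit 1847590920) (nat_lit 11577327683) (.two (nat_lit 156364701697) (nat_lit 47582282341) (.two (nat_lit 1048576) (nat_lit 2100204) (.one (nat_lit 2416971253) .nil))),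
   .two (nat_lit 47582281740) (nat_lit 1916796943) (.two (nat_lit 47548727301) (nat_lit 184419352711) (.two (nat_lit 2097153) (nat_lit 4634706595) (.two (nat_lit 8388608) (nat_lit 10506735126) .nil))),
   .two (nat_lit 620757000) (nat_lit 166130089999) (.two (nat_lit 184549380) (nat_lit 1847591026) (.two (nat_lit 9766436865) (nat_lit 2902458981) (.two (nat_lit 2097152) (nat_lit 218107453) .nil))),
   .two (nat_lit 620757000) (nat_lit 809500687) (.two (nat_lit 184549380) (nat_lit 13224640621) (.two (nat_lit 16777217) (nat_lit 183949591844) (.one (nat_lit 4199124) .nil))),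
   .two (nat_lit 8388616) (nat_lit 156535619609) (.two (nat_lit 10506731525) (nat_lit 1283457142) (.two (nat_lit 9766436865) (nat_lit 343933525) (.two (nat_lit 2097152) (nat_lit 343934237) (.one (nat_lit 28798094766) .nil)))),
   .two (nat_lit 276824072) (nat_lit 3527409679) (.two (nat_lit 41943045) (nat_lit 10436476995) (.two (nat_lit 37748737) (nat_lit 13187940711) (.two (nat_lit 1048576) (nat_lit 4034924235) .nil))),
   .two (nat_lit 713031688) (nat_lit 156968681487) (.two (nat_lit 612368389) (nat_lit 28690088002) (.two (nat_lit 41943041) (nat_lit 10000269671) (.two (nat_lit 4194304) (nat_lit 10343157233) .nil))),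
   .two (nat_lit 9781116936) (nat_lit 236978242) (.two (nat_lit 2097153) (nat_lit 822083779) (.two (nat_lit 16777216) (nat_lit 2100205) (.one (nat_lit 2100977) .nil))),
   .two (nat_lit 18928893960) (nat_lit 4028629032) (.two (nat_lit 2954887173) (nat_lit 159219974421) (.two (nat_lit 9766436865) (nat_lit 9969862728) (.one (nat_lit 4199127) .nil))),
   .two (nat_lit 16777224) (nat_lit 183949590553) (.two (nat_lit 822083589) (nat_lit 20707278975) (.two (nat_lit 37748737) (nat_lit 788530232) (.two (nat_lit 4194304) (nat_lit 1962937313) (.one (nat_lit 1962939040) .nil)))),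
   .two (nat_lit 13195280397) (nat_lit 47582281751) (.two (nat_lit 13195280389) (nat_lit 166230753523) (.two (nat_lit 37748737) (nat_lit 10538189401) (.two (nat_lit 4194304) (nat_lit 10538190111) (.one (nat_lit 2100979) .nil)))),
   .two (nat_lit 176160776) (nat_lit 12047089679) (.two (nat_lit 75497477) (nat_lit 21811429617) (.two (nat_lit 16777217) (nat_lit 21811429734) (.two (nat_lit 16777216) (nat_lit 10906240302) (.one (nat_lit 41947510) .nil)))),
   .two (nat_lit 46414168072) (nat_lit 159217877128) (.two (nat_lit 606076929) (nat_lit 9873391975) (.two (nat_lit 2097152) (nat_lit 12121541555) (.one (nat_lit 8392436) .nil))),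
   .two (nat_lit 4194312) (nat_lit 620757016) (.two (nat_lit 2097157) (nat_lit 20740833398) (.two (nat_lit 2097153) (nat_lit 13237224836) (.one (nat_lit 1053402) .nil))),
   .two (nat_lit 4194312) (nat_lit 1417674792) (.two (nat_lit 171966469) (nat_lit 243269768) (.two (nat_lit 8388609) (nat_lit 183916036755) (.two (nat_lit 8388608) (nat_lit 4196562) (.one (nat_lit 13195285153) .nil)))),
   .two (nat_lit 2889875464) (nat_lit 12054429711) (.two (nat_lit 159216828421) (nat_lit 184993972332) (.two (nat_lit 156364701697) (nat_lit 10003417122) (.one (nat_lit 184419357266) .nil))),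
   .two (nat_lit 4194312) (nat_lit 10504634383) (.two (nat_lit 171966469) (nat_lit 174686470387) (.two (nat_lit 4194305) (nat_lit 174686470746) (.two (nat_lit 1048576) (nat_lit 156569175362) (.one (nat_lit 1309675917) .nil)))),
   .two (nat_lit 185020186636) (nat_lit 166132187249) (.two (nat_lit 34603009) (nat_lit 156569174882) (.one (nat_lit 675286709) .nil)),
   .two (nat_lit 16777224) (nat_lit 12147753027) (.two (nat_lit 16777217) (nat_lit 1947205990) (.two (nat_lit 16777216) (nat_lit 1947206945) (.one (nat_lit 12617519599) .nil))),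
   .two (nat_lit 654311436) (nat_lit 638582919) (.two (nat_lit 50331649) (nat_lit 28757197667) (.one (nat_lit 4198133) .nil)),
   .two (nat_lit 2902458376) (nat_lit 9900654616) (.two (nat_lit 158144135173) (nat_lit 654312141) (.two (nat_lit 8388608) (nat_lit 69208086) (.one (nat_lit 2101980) .nil))),
   .two (nat_lit 1779433480) (nat_lit 876609664) (.two (nat_lit 16777217) (nat_lit 157038938307) (.one (nat_lit 4199133) .nil)),
   .two (nat_lit 169869320) (nat_lit 184993972239) (.two (nat_lit 8388612) (nat_lit 874512644) (.two (nat_lit 8388609) (nat_lit 21208498773) (.two (nat_lit 2097152) (nat_lit 4034922550) (.one (nat_lit 2101982) .nil)))),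
   .two (nat_lit 158158815240) (nat_lit 165526110223) (.two (nat_lit 1291845636) (nat_lit 205521022) (.two (nat_lit 606076929) (nat_lit 2923430985) (.two (nat_lit 8388608) (nat_lit 21208499532) (.one (nat_lit 2101983) .nil)))),
   .two (nat_lit 47563407368) (nat_lit 20638072961) (.two (nat_lit 50331649) (nat_lit 156566028647) (.two (nat_lit 2097152) (nat_lit 739248178) (.one (nat_lit 47547683498) .nil))),
   .two (nat_lit 620757000) (nat_lit 157036838927) (.two (nat_lit 9948889093) (nat_lit 166230753398) (.two (nat_lit 2097153) (nat_lit 822084178) (.two (nat_lit 16777216) (nat_lit 13222546347) (.one (nat_lit 12115250660) .nil)))),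
   .two (nat_lit 713031693) (nat_lit 10506731535) (.two (nat_lit 713031685) (nat_lit 876609669) (.two (nat_lit 4194305) (nat_lit 9974055571) (.two (nat_lit 2097152) (nat_lit 4196563) (.one (nat_lit 4199136) .nil)))),
   .two (nat_lit 285212680) (nat_lit 184419352599) (.two (nat_lit 2902458372) (nat_lit 158146232583) (.two (nat_lit 156367847425) (nat_lit 156567077943) (.two (nat_lit 2097152) (nat_lit 11546920300) (.one (nat_lit 3560967918) .nil)))),
   .two (nat_lit 28758245384) (nat_lit 1947205747) (.two (nat_lit 605028353) (nat_lit 773851673) .nil),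
   .two (nat_lit 1277165576) (nat_lit 159224168515) (.two (nat_lit 606076929) (nat_lit 47555020070) (.one (nat_lit 8393441) .nil)),
   .two (nat_lit 3458203656) (nat_lit 19130220656) (.two (nat_lit 2097153) (nat_lit 19130221410) (.one (nat_lit 10506735246) .nil)),
   .two (nat_lit 272629768) (nat_lit 166130090009) (.two (nat_lit 169869316) (nat_lit 1749024887) (.two (nat_lit 606076929) (nat_lit 12150900437) (.two (nat_lit 2097152) (nat_lit 183949593542) (.one (nat_lit 4199138) .nil)))),
   .two (nat_lit 4194312) (nat_lit 3525312527) (.two (nat_lit 4194308) (nat_lit 10335813993) (.two (nat_lit 4194304) (nat_lit 20704135368) (.one (nat_lit 1053411) .nil))),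
   .two (nat_lit 183853121544) (nat_lit 20638072847) (.two (nat_lit 13195280389) (nat_lit 9967763572) (.two (nat_lit 156372041729) (nat_lit 159251432037) (.two (nat_lit 8388608) (nat_lit 28791803436) .nil))),
   .two (nat_lit 16777224) (nat_lit 47582281794) (.two (nat_lit 16777217) (nat_lit 9900657198) .nil),
   .two (nat_lit 721420296) (nat_lit 21777874988) (.two (nat_lit 2097157) (nat_lit 158662131839) (.two (nat_lit 34603009) (nat_lit 1426064051) (.two (nat_lit 1048576) (nat_lit 9867101509) (.one (nat_lit 2101989) .nil)))),
   .two (nat_lit 16777224) (nat_lit 28757196815) (.two (nat_lit 16777220) (nat_lit 9933160811) (.two (nat_lit 2097152) (nat_lit 1049910) (.one (nat_lit 11593060766) .nil))),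
   .two (nat_lit 12117344268) (nat_lit 156372041923) (.two (nat_lit 4194304) (nat_lit 28764539005) (.one (nat_lit 8393446) .nil)),
   .two (nat_lit 2887778312) (nat_lit 166245433369) (.two (nat_lit 2902458373) (nat_lit 739246194) (.two (nat_lit 2097153) (nat_lit 1050774) (.one (nat_lit 19127078338) .nil))),
   .two (nat_lit 11476664328) (nat_lit 183853121559) (.two (nat_lit 270532613) (nat_lit 343933168) (.two (nat_lit 2097153) (nat_lit 343934240) (.one (nat_lit 2101638) .nil))),
   .two (nat_lit 4194312) (nat_lit 2969567247) (.two (nat_lit 2097157) (nat_lit 21814575223) (.two (nat_lit 2097153) (nat_lit 183946445159) (.two (nat_lit 2097152) (nat_lit 101714055) (.one (nat_lit 11525952074) .nil)))),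
   .two (nat_lit 205520904) (nat_lit 46414168079) (.two (nat_lit 2956984325) (nat_lit 46414168176) (.two (nat_lit 605028353) (nat_lit 75498850) (.one (nat_lit 9866056234) .nil))),
   .two (nat_lit 46980399112) (nat_lit 19596836879) (.two (nat_lit 3527409669) (nat_lit 2416967789) (.two (nat_lit 4194305) (nat_lit 2416968289) (.two (nat_lit 4194304) (nat_lit 135267620) (.one (nat_lit 11614032974) .nil)))),
   .two (nat_lit 3527409672) (nat_lit 11618222217) (.two (nat_lit 9781116929) (nat_lit 1279264067) (.one (nat_lit 166232853972) .nil)),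
   .two (nat_lit 3458203661) (nat_lit 2902458408) (.two (nat_lit 2097157) (nat_lit 285213029) (.two (nat_lit 1048576) (nat_lit 16779476) (.one (nat_lit 1053416) .nil))),
   .two (nat_lit 169869320) (nat_lit 159224168463) (.two (nat_lit 169869316) (nat_lit 18933088374) (.two (nat_lit 8388609) (nat_lit 10907289696) (.one (nat_lit 1779437194) .nil))),
   .two (nat_lit 612368392) (nat_lit 184416206863) (.two (nat_lit 176160772) (nat_lit 20737687814) (.two (nat_lit 34603009) (nat_lit 20745027947) (.two (nat_lit 8388608) (nat_lit 11476666466) (.one (nat_lit 19033756242) .nil)))),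
   .two (nat_lit 176160776) (nat_lit 12047089679) (.two (nat_lit 176160772) (nat_lit 11577327729) (.two (nat_lit 9768534017) (nat_lit 159250383468) (.two (nat_lit 4194304) (nat_lit 10906240302) (.one (nat_lit 1053417) .nil)))),
   .two (nat_lit 16777224) (nat_lit 2350907437) (.two (nat_lit 2097157) (nat_lit 2969567340) (.two (nat_lit 2097153) (nat_lit 3003122378) (.two (nat_lit 1048576) (nat_lit 775950025) .nil))),
   .two (nat_lit 9768534024) (nat_lit 174753579032) (.two (nat_lit 2889875460) (nat_lit 158144135284) (.two (nat_lit 156365750273) (nat_lit 19029558656) (.one (nat_lit 4199146) .nil))),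
   .two (nat_lit 28093448200) (nat_lit 638582809) (.two (nat_lit 1276116996) (nat_lit 12054430054) (.two (nat_lit 1048576) (nat_lit 184993973537) (.one (nat_lit 8393451) .nil))),
   .two (nat_lit 4194312) (nat_lit 19027460119) (.two (nat_lit 605028357) (nat_lit 1310720108) (.two (nat_lit 4194305) (nat_lit 1310720604) (.two (nat_lit 1048576) (nat_lit 2100211) (.one (nat_lit 4199148) .nil)))),
   .two (nat_lit 2887778312) (nat_lit 19029557273) (.two (nat_lit 171966469) (nat_lit 28087156855) (.two (nat_lit 2097153) (nat_lit 705692309) (.two (nat_lit 1048576) (nat_lit 2100212) (.one (nat_lit 1175457218) .nil)))),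
   .two (nat_lit 183848927240) (nat_lit 2418016391) (.two (nat_lit 37748737) (nat_lit 28087157410) (.two (nat_lit 4194304) (nat_lit 28093451875) .nil)),
   .two (nat_lit 620757000) (nat_lit 166130089999) (.two (nat_lit 10504634373) (nat_lit 620757104) (.two (nat_lit 9766436865) (nat_lit 184550697) (.one (nat_lit 46992985560) .nil))),
   .two (nat_lit 2889875464) (nat_lit 34603034) (.two (nat_lit 2889875460) (nat_lit 166229704966) (.two (nat_lit 16777217) (nat_lit 46977253735) (.two (nat_lit 4194304) (nat_lit 739248334) (.one (nat_lit 1053421) .nil)))),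
   .two (nat_lit 9781116940) (nat_lit 41943055) (.two (nat_lit 1358954501) (nat_lit 1350566582) (.two (nat_lit 16777216) (nat_lit 41944380) (.one (nat_lit 41947821) .nil))),
   .two (nat_lit 75497480) (nat_lit 47582281751) (.two (nat_lit 612368389) (nat_lit 159251431532) (.two (nat_lit 41943041) (nat_lit 10336862847) (.two (nat_lit 8388608) (nat_lit 158077028420) (.one (nat_lit 3028291009) .nil)))),
   .two (nat_lit 50331656) (nat_lit 28758245391) (.two (nat_lit 16777220) (nat_lit 158144135234) (.two (nat_lit 16777217) (nat_lit 174753579203) (.two (nat_lit 1048576) (nat_lit 10370420359) .nil))),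
   .two (nat_lit 721420296) (nat_lit 306184460) (.two (nat_lit 50331649) (nat_lit 843056190) (.two (nat_lit 1048576) (nat_lit 183962175542) (.one (nat_lit 28772930095) .nil))),
   .two (nat_lit 156372041736) (nat_lit 1176502399) (.two (nat_lit 8388609) (nat_lit 9766438201) (.one (nat_lit 9799995950) .nil)),
   .two (nat_lit 606076936) (nat_lit 117440527) (.two (nat_lit 1795162117) (nat_lit 166230753517) (.two (nat_lit 37748737) (nat_lit 10921968259) (.two (nat_lit 4194304) (nat_lit 2332034414) (.one (nat_lit 16782062) .nil)))),
   .two (nat_lit 9781116936) (nat_lit 158077026319) (.two (nat_lit 2902458373) (nat_lit 3021996305) (.two (nat_lit 16777217) (nat_lit 1379926632) (.two (nat_lit 2097152) (nat_lit 166199297420) (.one (nat_lit 4198135) .nil)))),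
   .two (nat_lit 1178599432) (nat_lit 11517558904) (.two (nat_lit 37748737) (nat_lit 159224168643) (.two (nat_lit 4194304) (nat_lit 8390870) (.one (nat_lit 8393457) .nil))),
   .two (nat_lit 2954887176) (nat_lit 2927624312) (.two (nat_lit 2097153) (nat_lit 184423547567) (.two (nat_lit 8388608) (nat_lit 28791801896) (.one (nat_lit 157043132941) .nil))),
   .two (nat_lit 4194312) (nat_lit 236978200) (.two (nat_lit 171966469) (nat_lit 2988441713) (.two (nat_lit 37748737) (nat_lit 21811430243) (.one (nat_lit 673189376) .nil))),
   .two (nat_lit 754974728) (nat_lit 772800577) (.two (nat_lit 34603009) (nat_lit 721420885) (.two (nat_lit 1048576) (nat_lit 16779479) (.one (nat_lit 4027584049) .nil))),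
   .two (nat_lit 721420296) (nat_lit 645922860) (.two (nat_lit 8388613) (nat_lit 16777411) (.two (nat_lit 8388608) (nat_lit 4613736535) (.one (nat_lit 16782067) .nil))),
   .two (nat_lit 83886088) (nat_lit 1753219096) (.two (nat_lit 156372041733) (nat_lit 1795162764) (.two (nat_lit 8388608) (nat_lit 218106387) .nil)),
   .two (nat_lit 2954887176) (nat_lit 158075977751) (.two (nat_lit 184549381) (nat_lit 705691714) (.two (nat_lit 16777217) (nat_lit 3524264297) (.two (nat_lit 16777216) (nat_lit 21812480142) (.one (nat_lit 2102004) .nil)))),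
   .two (nat_lit 1277165576) (nat_lit 20644364303) (.two (nat_lit 1344274437) (nat_lit 157043130614) (.two (nat_lit 37748737) (nat_lit 11517559460) (.two (nat_lit 2097152) (nat_lit 183916038347) (.one (nat_lit 2102005) .nil)))),
   .two (nat_lit 9948889096) (nat_lit 174753579048) (.two (nat_lit 184549380) (nat_lit 10504634504) (.two (nat_lit 9766436865) (nat_lit 183861512751) .nil)),
   .two (nat_lit 50331656) (nat_lit 3527409679) (.two (nat_lit 708837381) (nat_lit 16777282) (.two (nat_lit 4194305) (nat_lit 10955522407) (.two (nat_lit 4194304) (nat_lit 1426065605) (.one (nat_lit 1426067994) .nil)))),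
   .two (nat_lit 2969567240) (nat_lit 46978301967) (.two (nat_lit 3525312517) (nat_lit 21793604287) (.two (nat_lit 2097152) (nat_lit 1761609005) (.one (nat_lit 10552872497) .nil))),
   .two (nat_lit 713031688) (nat_lit 158077026319) (.two (nat_lit 184989777925) (nat_lit 880803907) (.two (nat_lit 41943041) (nat_lit 104858314) (.two (nat_lit 8388608) (nat_lit 675284293) (.one (nat_lit 2102006) .nil)))),
   .two (nat_lit 285212680) (nat_lit 203423759) (.two (nat_lit 2902458372) (nat_lit 3558867052) (.two (nat_lit 34603009) (nat_lit 157036839562) (.two (nat_lit 1048576) (nat_lit 706741617) (.one (nat_lit 16782071) .nil)))),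
   .two (nat_lit 75497480) (nat_lit 158647451671) (.two (nat_lit 612368389) (nat_lit 12048138879) (.two (nat_lit 2097152) (nat_lit 20640172190) (.one (nat_lit 47550829247) .nil))),
   .two (nat_lit 37313576973) (nat_lit 11559501888) (.two (nat_lit 9765388289) (nat_lit 9881782783) .nil),
   .two (nat_lit 612368392) (nat_lit 9881780361) (.two (nat_lit 16777217) (nat_lit 3531606542) .nil),
   .two (nat_lit 68157448) (nat_lit 184993972419) (.two (nat_lit 4194304) (nat_lit 159257726630) .nil),
   .two (nat_lit 10385096712) (nat_lit 1753219193) (.two (nat_lit 620756993) (nat_lit 276825436) (.one (nat_lit 8393465) .nil)),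
   .two (nat_lit 41943048) (nat_lit 11559501849) (.two (nat_lit 75497477) (nat_lit 1176502404) (.two (nat_lit 8388609) (nat_lit 9900655216) (.two (nat_lit 2097152) (nat_lit 2994734451) (.one (nat_lit 2102010) .nil)))),
   .two (nat_lit 169869320) (nat_lit 4647288952) (.two (nat_lit 34603009) (nat_lit 10437525862) (.two (nat_lit 1048576) (nat_lit 11477714230) (.one (nat_lit 2100992) .nil))),
   .two (nat_lit 46414168072) (nat_lit 159266111512) (.two (nat_lit 184549380) (nat_lit 46414168176) (.two (nat_lit 156367847425) (nat_lit 10510928411) .nil)),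
   .two (nat_lit 654311432) (nat_lit 158077026319) (.two (nat_lit 2902458373) (nat_lit 9936306303) (.two (nat_lit 37748737) (nat_lit 47596962452) (.two (nat_lit 2097152) (nat_lit 16780278) (.one (nat_lit 4199164) .nil)))),
   .two (nat_lit 4634705933) (nat_lit 2927624217) (.two (nat_lit 46980399109) (nat_lit 159224168569) (.two (nat_lit 9781116929) (nat_lit 165528208771) (.one (nat_lit 10338963057) .nil))),
   .two (nat_lit 50331656) (nat_lit 3527409774) (.two (nat_lit 16777217) (nat_lit 28793899044) (.one (nat_lit 47584382574) .nil)),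
   .two (nat_lit 9948889096) (nat_lit 46474985497) (.two (nat_lit 9881780229) (nat_lit 672137348) (.two (nat_lit 2097153) (nat_lit 855640128) (.one (nat_lit 11577331333) .nil))),
   .two (nat_lit 16777224) (nat_lit 156468510836) (.two (nat_lit 16777217) (nat_lit 136315989) (.two (nat_lit 2097152) (nat_lit 16780280) (.one (nat_lit 4028633471) .nil))),
   .two (nat_lit 612368392) (nat_lit 1376780355) (.two (nat_lit 156372041729) (nat_lit 1049686) (.two (nat_lit 8388608) (nat_lit 1051641) (.one (nat_lit 68161227) .nil))),
   .two (nat_lit 16777224) (nat_lit 1846542381) (.two (nat_lit 16777220) (nat_lit 158646403209) (.two (nat_lit 2097153) (nat_lit 10000269940) (.two (nat_lit 4194304) (nat_lit 721424005) .nil))),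
   .two (nat_lit 4605345800) (nat_lit 19130220568) (.two (nat_lit 11479810052) (nat_lit 4605345858) (.two (nat_lit 37748737) (nat_lit 13195280980) (.two (nat_lit 4194304) (nat_lit 8390873) (.one (nat_lit 8393469) .nil)))),
   .two (nat_lit 639631368) (nat_lit 4034920472) (.two (nat_lit 10370416645) (nat_lit 1216348295) (.two (nat_lit 2097153) (nat_lit 2961180740) (.one (nat_lit 2102014) .nil))),
   .two (nat_lit 157036838920) (nat_lit 183962173484) (.two (nat_lit 46407876612) (nat_lit 10385096819) (.two (nat_lit 2097153) (nat_lit 2969567845) (.two (nat_lit 8388608) (nat_lit 50335170) .nil))),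
   .two (nat_lit 2969567240) (nat_lit 37314625561) (.two (nat_lit 46978301957) (nat_lit 654311619) (.two (nat_lit 2097152) (nat_lit 16780282) (.one (nat_lit 16782079) .nil))),
   .two (nat_lit 176160776) (nat_lit 2316304409) (.two (nat_lit 176160772) (nat_lit 638582903) (.two (nat_lit 16777217) (nat_lit 10906241174) (.one (nat_lit 672140760) .nil))),
   .two (nat_lit 18925748232) (nat_lit 166130090008) (.two (nat_lit 270532613) (nat_lit 285212737) (.two (nat_lit 2097153) (nat_lit 28772925802) (.two (nat_lit 1048576) (nat_lit 37314626920) (.one (nat_lit 1053440) .nil)))),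
   .two (nat_lit 184549384) (nat_lit 165532401679) (.two (nat_lit 156364701701) (nat_lit 9974055047) (.two (nat_lit 34603009) (nat_lit 18941478199) (.one (nat_lit 16782081) .nil))),
   .two (nat_lit 2954887176) (nat_lit 183853121646) (.two (nat_lit 2097153) (nat_lit 13195280579) (.two (nat_lit 2097152) (nat_lit 158653744446) (.one (nat_lit 18933091918) .nil))),
   .two (nat_lit 41943048) (nat_lit 46978301976) (.two (nat_lit 713031685) (nat_lit 11007951114) (.two (nat_lit 8388609) (nat_lit 11477713517) (.two (nat_lit 1048576) (nat_lit 174759871833) (.one (nat_lit 19033755060) .nil)))),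
   .two (nat_lit 184416206856) (nat_lit 3527409799) (.two (nat_lit 4194305) (nat_lit 4598006430) (.two (nat_lit 4194304) (nat_lit 1050842) (.one (nat_lit 16781060) .nil))),
   .two (nat_lit 1175453704) (nat_lit 46409973827) (.two (nat_lit 8388609) (nat_lit 37316724025) (.one (nat_lit 21781024314) .nil)),
   .two (nat_lit 184986632200) (nat_lit 184419352643) (.two (nat_lit 34603009) (nat_lit 184989780104) (.one (nat_lit 4199170) .nil)),
   .two (nat_lit 2887778312) (nat_lit 165532401679) (.two (nat_lit 746586117) (nat_lit 184416206914) (.two (nat_lit 34603009) (nat_lit 2961179682) (.two (nat_lit 8388608) (nat_lit 28757198898) (.one (nat_lit 101716511) .nil)))),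
   .two (nat_lit 2889875464) (nat_lit 13237223556) (.two (nat_lit 50331649) (nat_lit 11513365078) (.two (nat_lit 16777216) (nat_lit 174755678395) (.one (nat_lit 13237227034) .nil))),
   .two (nat_lit 822083592) (nat_lit 10537140249) (.two (nat_lit 1276116996) (nat_lit 46978302018) (.two (nat_lit 16777217) (nat_lit 3020948074) (.two (nat_lit 16777216) (nat_lit 1051643) (.one (nat_lit 10336865791) .nil)))),
   .two (nat_lit 169869320) (nat_lit 75497487) (.two (nat_lit 612368389) (nat_lit 19027460214) (.two (nat_lit 41943041) (nat_lit 184417256793) (.one (nat_lit 9766440546) .nil))),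
   .two (nat_lit 11476664328) (nat_lit 156367847533) (.two (nat_lit 9765388289) (nat_lit 174686472233) (.one (nat_lit 159251436248) .nil)),
   .two (nat_lit 2902458376) (nat_lit 775946264) (.two (nat_lit 2902458372) (nat_lit 46477083141) (.two (nat_lit 4194305) (nat_lit 285212867) (.two (nat_lit 4194304) (nat_lit 16780284) (.one (nat_lit 46489670207) .nil)))),
   .two (nat_lit 10370416648) (nat_lit 10385096729) (.two (nat_lit 2902458372) (nat_lit 10940842636) (.two (nat_lit 2097152) (nat_lit 21214791719) (.one (nat_lit 8393475) .nil))),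
   .two (nat_lit 2889875464) (nat_lit 185020186670) (.two (nat_lit 272629765) (nat_lit 9899606141) (.two (nat_lit 9766436865) (nat_lit 2987393718) (.two (nat_lit 2097152) (nat_lit 166129045188) .nil))),
   .two (nat_lit 8388616) (nat_lit 166211878936) (.two (nat_lit 117440517) (nat_lit 10007609539) (.two (nat_lit 16777216) (nat_lit 310379840) (.one (nat_lit 8393476) .nil))),
   .two (nat_lit 612368392) (nat_lit 13191086095) (.two (nat_lit 176160772) (nat_lit 13224640624) (.two (nat_lit 8388609) (nat_lit 3527411029) (.one (nat_lit 4199173) .nil))),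
   .two (nat_lit 50331656) (nat_lit 18926796843) (.two (nat_lit 41943045) (nat_lit 19127075509) (.two (nat_lit 1048576) (nat_lit 2099420) (.one (nat_lit 2102022) .nil))),
   .two (nat_lit 10538188813) (nat_lit 12047089679) (.two (nat_lit 1847590917) (nat_lit 11577327729) (.two (nat_lit 156364701697) (nat_lit 159251432745) (.one (nat_lit 740298199) .nil))),
   .two (nat_lit 183853121544) (nat_lit 20638072847) (.two (nat_lit 13195280389) (nat_lit 21208498290) (.two (nat_lit 156372041729) (nat_lit 673187112) (.one (nat_lit 807407311) .nil))),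
   .two (nat_lit 169869320) (nat_lit 13195280399) (.two (nat_lit 169869316) (nat_lit 1913651315) (.two (nat_lit 606076929) (nat_lit 2349861009) (.one (nat_lit 3458207438) .nil))),
   .two (nat_lit 285212680) (nat_lit 157038936079) (.two (nat_lit 16777220) (nat_lit 183949590652) (.two (nat_lit 4194305) (nat_lit 1224737128) (.two (nat_lit 4194304) (nat_lit 4647291054) (.one (nat_lit 16782087) .nil)))),
   .two (nat_lit 10942939144) (nat_lit 1376780403) (.two (nat_lit 16777217) (nat_lit 2956986919) .nil),
   .two (nat_lit 4194312) (nat_lit 243269698) (.two (nat_lit 37748737) (nat_lit 11510220131) (.one (nat_lit 18925751768) .nil)),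
   .two (nat_lit 174752530440) (nat_lit 1795162127) (.two (nat_lit 20637024260) (nat_lit 117440625) (.two (nat_lit 605028353) (nat_lit 889193862) (.one (nat_lit 16782088) .nil))),
   .two (nat_lit 158144135176) (nat_lit 9802088472) (.two (nat_lit 1277165572) (nat_lit 1212153969) (.two (nat_lit 9766436865) (nat_lit 174688568704) (.one (nat_lit 4199177) .nil))),
   .two (nat_lit 4194312) (nat_lit 721420399) (.two (nat_lit 34603009) (nat_lit 1950353469) (.one (nat_lit 4199179) .nil)),
   .two (nat_lit 620757004) (nat_lit 1948254257) (.two (nat_lit 9948889093) (nat_lit 159217877059) (.two (nat_lit 620756993) (nat_lit 19027460789) (.two (nat_lit 8388608) (nat_lit 639635124) .nil))),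
   .two (nat_lit 9967763468) (nat_lit 2969567296) (.two (nat_lit 606076929) (nat_lit 9948889283) (.two (nat_lit 2097152) (nat_lit 10015999292) (.one (nat_lit 16782093) .nil))),
   .two (nat_lit 641728520) (nat_lit 12114198552) (.two (nat_lit 34603013) (nat_lit 641728649) (.two (nat_lit 2097153) (nat_lit 157035791397) (.two (nat_lit 2097152) (nat_lit 1051647) (.one (nat_lit 2102030) .nil)))),
   .two (nat_lit 50331660) (nat_lit 28757196867) (.two (nat_lit 50331649) (nat_lit 34603367) (.two (nat_lit 16777216) (nat_lit 1051648) (.one (nat_lit 1053455) .nil))),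
   .two (nat_lit 203423752) (nat_lit 343932974) (.two (nat_lit 41943045) (nat_lit 12048138365) (.two (nat_lit 156365750273) (nat_lit 12047090027) (.two (nat_lit 1048576) (nat_lit 2099421) (.one (nat_lit 2102033) .nil)))),
   .two (nat_lit 9768534024) (nat_lit 47582281752) (.two (nat_lit 2889875460) (nat_lit 47582281839) (.two (nat_lit 2097153) (nat_lit 9768534211) (.two (nat_lit 8388608) (nat_lit 11511268196) (.one (nat_lit 4199186) .nil)))),
   .two (nat_lit 183853121549) (nat_lit 1209008170) (.two (nat_lit 713031685) (nat_lit 28086108296) (.two (nat_lit 16777217) (nat_lit 11610882722) (.two (nat_lit 16777216) (nat_lit 183853122895) (.one (nat_lit 21214794431) .nil)))),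
   .two (nat_lit 2887778312) (nat_lit 28693233777) (.two (nat_lit 34603009) (nat_lit 165528208003) (.two (nat_lit 1048576) (nat_lit 4197378) (.one (nat_lit 3560967605) .nil))),
   .two (nat_lit 16777224) (nat_lit 1847590961) (.two (nat_lit 2097157) (nat_lit 4030726265) (.two (nat_lit 34603009) (nat_lit 12148802193) (.two (nat_lit 1048576) (nat_lit 2100227) (.one (nat_lit 2102038) .nil)))),
   .two (nat_lit 9802088460) (nat_lit 10370416655) (.two (nat_lit 157038936069) (nat_lit 166130090116) (.two (nat_lit 9765388289) (nat_lit 1310720628) (.two (nat_lit 1048576) (nat_lit 1176505998) .nil))),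
   .two (nat_lit 18925748232) (nat_lit 166132187202) (.two (nat_lit 34603009) (nat_lit 10921968963) (.one (nat_lit 876613053) .nil)),
   .two (nat_lit 1277165576) (nat_lit 37316722713) (.two (nat_lit 9934209029) (nat_lit 3024093311) (.two (nat_lit 4194305) (nat_lit 19027461169) (.two (nat_lit 2097152) (nat_lit 4197380) (.one (nat_lit 9766439437) .nil)))),
   .two (nat_lit 2889875464) (nat_lit 185020186670) (.two (nat_lit 272629765) (nat_lit 9899606141) (.two (nat_lit 9766436865) (nat_lit 165528209457) (.one (nat_lit 1309675253) .nil))),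
   .two (nat_lit 13224640524) (nat_lit 10939793475) (.two (nat_lit 37748737) (nat_lit 13221495143) (.two (nat_lit 4194304) (nat_lit 1051653) (.one (nat_lit 1053464) .nil))),
   .two (nat_lit 4194312) (nat_lit 136315008) (.two (nat_lit 4194305) (nat_lit 10504635024) (.two (nat_lit 1048576) (nat_lit 2099422) (.one (nat_lit 2101627) .nil))),
   .two (nat_lit 9781116936) (nat_lit 165528207385) (.two (nat_lit 46409973764) (nat_lit 11492393318) (.two (nat_lit 4194304) (nat_lit 822084897) (.one (nat_lit 16782105) .nil))),
   .two (nat_lit 4194312) (nat_lit 156466413591) (.two (nat_lit 2956984325) (nat_lit 20738736236) (.two (nat_lit 605028353) (nat_lit 174688567927) (.two (nat_lit 1048576) (nat_lit 102764091) .nil))),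
   .two (nat_lit 1277165576) (nat_lit 1779433487) (.two (nat_lit 1343225861) (nat_lit 13222543491) (.two (nat_lit 605028353) (nat_lit 12048138600) (.two (nat_lit 1048576) (nat_lit 174686472310) (.one (nat_lit 2102042) .nil)))),
   .two (nat_lit 2316304397) (nat_lit 809500687) (.two (nat_lit 11479810053) (nat_lit 772801127) (.two (nat_lit 4194304) (nat_lit 19596839462) .nil)),
   .two (nat_lit 822083596) (nat_lit 20644364353) (.two (nat_lit 41943041) (nat_lit 2365588553) (.two (nat_lit 16777216) (nat_lit 8390879) (.one (nat_lit 158653746905) .nil))),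
   .two (nat_lit 9934209032) (nat_lit 18933088271) (.two (nat_lit 169869316) (nat_lit 10913579140) (.two (nat_lit 156372041729) (nat_lit 46407877255) (.two (nat_lit 8388608) (nat_lit 2100230) (.one (nat_lit 2100998) .nil)))),
   .two (nat_lit 612368392) (nat_lit 185023332471) (.two (nat_lit 8388609) (nat_lit 2923431205) (.one (nat_lit 174685425210) .nil)),
   .two (nat_lit 158083317768) (nat_lit 174752530447) (.two (nat_lit 21207449605) (nat_lit 4034921142) (.two (nat_lit 1048576) (nat_lit 158183983214) (.one (nat_lit 158083321421) .nil))),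
   .two (nat_lit 156569174028) (nat_lit 9899606057) (.two (nat_lit 1343225861) (nat_lit 1312817278) (.two (nat_lit 9765388289) (nat_lit 46409975951) (.one (nat_lit 13187943882) .nil))),
   .two (nat_lit 9934209032) (nat_lit 158176641047) (.two (nat_lit 46978301957) (nat_lit 183946444922) (.two (nat_lit 2097153) (nat_lit 47547679364) (.two (nat_lit 1048576) (nat_lit 2100232) (.one (nat_lit 12047092263) .nil)))),
   .two (nat_lit 8388616) (nat_lit 705691663) (.two (nat_lit 8388612) (nat_lit 183946444932) (.two (nat_lit 8388609) (nat_lit 1276117659) (.two (nat_lit 1048576) (nat_lit 1283459196) (.one (nat_lit 9940504033) .nil)))),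
   .two (nat_lit 11559501832) (nat_lit 21207449615) (.two (nat_lit 158143086597) (nat_lit 3003122347) (.two (nat_lit 1048576) (nat_lit 855639392) (.one (nat_lit 46489669191) .nil))),
   .two (nat_lit 822083592) (nat_lit 18928893967) (.two (nat_lit 28693233669) (nat_lit 50331843) (.two (nat_lit 4194304) (nat_lit 37329306975) (.one (nat_lit 11559506572) .nil))),
   .two (nat_lit 2969567240) (nat_lit 28691136527) (.two (nat_lit 184549380) (nat_lit 3028287606) (.two (nat_lit 2097153) (nat_lit 1761609014) (.one (nat_lit 9974058493) .nil))),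
   .two (nat_lit 2961178632) (nat_lit 156365750287) (.two (nat_lit 2097157) (nat_lit 780140665) (.two (nat_lit 8388609) (nat_lit 20705182056) (.two (nat_lit 8388608) (nat_lit 2099425) (.one (nat_lit 2102044) .nil)))),
   .two (nat_lit 156367847437) (nat_lit 1846542379) (.two (nat_lit 50331653) (nat_lit 166132187413) (.two (nat_lit 50331649) (nat_lit 21777875301) (.two (nat_lit 16777216) (nat_lit 3557820532) (.one (nat_lit 46510640705) .nil)))),
   .two (nat_lit 2954887176) (nat_lit 156367847439) (.two (nat_lit 203423749) (nat_lit 2923429953) (.two (nat_lit 2097153) (nat_lit 9969862031) (.one (nat_lit 4198152) .nil))),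
   .two (nat_lit 9866051592) (nat_lit 11618222104) (.two (nat_lit 713031684) (nat_lit 20704133234) (.two (nat_lit 605028353) (nat_lit 1350568073) (.one (nat_lit 159216832103) .nil))),
   .two (nat_lit 158144135180) (nat_lit 158075977743) (.two (nat_lit 20637024260) (nat_lit 1310720113) (.two (nat_lit 612368385) (nat_lit 203425103) (.one (nat_lit 2101001) .nil))),
   .two (nat_lit 9781116936) (nat_lit 158143086616) (.two (nat_lit 9933160453) (nat_lit 183962173560) (.two (nat_lit 4194305) (nat_lit 1929380468) (.two (nat_lit 4194304) (nat_lit 3003125390) .nil))),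
   .two (nat_lit 620757000) (nat_lit 166132187177) (.two (nat_lit 83886085) (nat_lit 157038936306) (.two (nat_lit 16777217) (nat_lit 10540288183) (.one (nat_lit 19029560857) .nil))),
   .two (nat_lit 880803852) (nat_lit 21811429401) (.two (nat_lit 605028357) (nat_lit 343932993) (.two (nat_lit 4194305) (nat_lit 847250764) (.one (nat_lit 3464498784) .nil))),
   .two (nat_lit 156533522445) (nat_lit 165532401731) (.two (nat_lit 9766436865) (nat_lit 10343154531) (.one (nat_lit 10343156225) .nil)),
   .two (nat_lit 50331660) (nat_lit 10939793423) (.two (nat_lit 11559501829) (nat_lit 2316304497) (.two (nat_lit 34603009) (nat_lit 620758310) (.one (nat_lit 620759601) .nil))),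
   .two (nat_lit 41943048) (nat_lit 4601151552) (.two (nat_lit 8388609) (nat_lit 37316724026) (.one (nat_lit 3560967846) .nil)),
   .two (nat_lit 184549384) (nat_lit 159217877007) (.two (nat_lit 16777221) (nat_lit 13222543494) (.two (nat_lit 16777217) (nat_lit 166199297325) (.one (nat_lit 2101003) .nil))),
   .two (nat_lit 739246088) (nat_lit 165526110223) (.two (nat_lit 8388613) (nat_lit 47548727491) (.two (nat_lit 8388608) (nat_lit 1948255542) (.one (nat_lit 2102046) .nil))),
   .two (nat_lit 37748744) (nat_lit 1913651215) (.two (nat_lit 708837381) (nat_lit 12617515245) (.two (nat_lit 4194305) (nat_lit 1913651848) (.two (nat_lit 8388608) (nat_lit 1849691886) .nil))),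
   .two (nat_lit 101711880) (nat_lit 183949590653) (.two (nat_lit 34603009) (nat_lit 21781021032) (.two (nat_lit 4194304) (nat_lit 9798945798) (.one (nat_lit 1053471) .nil))),
   .two (nat_lit 9967763468) (nat_lit 1913651215) (.two (nat_lit 21208498181) (nat_lit 156465365108) (.two (nat_lit 9765388289) (nat_lit 270534835) (.one (nat_lit 156532477466) .nil))),
   .two (nat_lit 37748744) (nat_lit 4647288898) (.two (nat_lit 4194305) (nat_lit 37329306998) (.one (nat_lit 16782112) .nil)),
   .two (nat_lit 183848927245) (nat_lit 1417674819) (.two (nat_lit 8388609) (nat_lit 156468512135) (.one (nat_lit 205524557) .nil)),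
   .two (nat_lit 47555018760) (nat_lit 203423759) (.two (nat_lit 3464495109) (nat_lit 158177689722) (.two (nat_lit 9781116929) (nat_lit 158647452998) (.one (nat_lit 203427454) .nil))),
   .two (nat_lit 2902458376) (nat_lit 37249613849) (.two (nat_lit 46409973765) (nat_lit 822083779) (.two (nat_lit 4194304) (nat_lit 16780297) (.one (nat_lit 16782114) .nil))),
   .two (nat_lit 620757000) (nat_lit 1847590927) (.two (nat_lit 184549380) (nat_lit 1847590978) (.two (nat_lit 9766436865) (nat_lit 11492394277) (.one (nat_lit 606080526) .nil))),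
   .two (nat_lit 169869320) (nat_lit 9802088472) (.two (nat_lit 34603013) (nat_lit 156535619848) (.two (nat_lit 2097153) (nat_lit 11513365087) (.two (nat_lit 1048576) (nat_lit 4197387) (.one (nat_lit 2102053) .nil)))),
   .two (nat_lit 654311432) (nat_lit 2988441625) (.two (nat_lit 270532613) (nat_lit 9781117038) (.two (nat_lit 2097153) (nat_lit 19142804097) (.two (nat_lit 1048576) (nat_lit 183962176461) (.one (nat_lit 1052428) .nil)))),
   .two (nat_lit 9948889096) (nat_lit 236978199) (.two (nat_lit 3525312517) (nat_lit 156380430459) (.two (nat_lit 156367847425) (nat_lit 236978863) (.two (nat_lit 4194304) (nat_lit 270534767) (.one (nat_lit 2102055) .nil)))),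
   .two (nat_lit 1291845640) (nat_lit 10504634383) (.two (nat_lit 2887778308) (nat_lit 10385097570) (.one (nat_lit 788531719) .nil)),
   .two (nat_lit 158075977736) (nat_lit 156971827215) (.two (nat_lit 21777874949) (nat_lit 19599982705) (.two (nat_lit 156364701697) (nat_lit 2990540118) (.one (nat_lit 4199209) .nil))),
   .two (nat_lit 2887778312) (nat_lit 2889875471) (.two (nat_lit 270532613) (nat_lit 775946368) (.two (nat_lit 41943041) (nat_lit 46977253735) (.two (nat_lit 2097152) (nat_lit 1779435619) (.one (nat_lit 28757201636) .nil)))),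
   .two (nat_lit 1753219080) (nat_lit 1947205656) (.two (nat_lit 11476664324) (nat_lit 28093448305) (.two (nat_lit 34603009) (nat_lit 20644365610) (.one (nat_lit 780144051) .nil))),
   .two (nat_lit 3527409672) (nat_lit 28758245391) (.two (nat_lit 1847590917) (nat_lit 46980399739) (.two (nat_lit 2097152) (nat_lit 339740012) (.one (nat_lit 46510640640) .nil))),
   .two (nat_lit 3525312520) (nat_lit 158075977752) (.two (nat_lit 2887778308) (nat_lit 11476664448) (.two (nat_lit 4194305) (nat_lit 159250384217) (.one (nat_lit 1053482) .nil))),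
   .two (nat_lit 10369368072) (nat_lit 1916796943) (.two (nat_lit 171966469) (nat_lit 1417674865) (.two (nat_lit 4194305) (nat_lit 746587502) (.one (nat_lit 8393515) .nil))),
   .two (nat_lit 156365750280) (nat_lit 21207449615) (.two (nat_lit 16777220) (nat_lit 158646403209) (.two (nat_lit 2097153) (nat_lit 11006902900) (.two (nat_lit 2097152) (nat_lit 11610884241) (.one (nat_lit 721424005) .nil)))),
   .two (nat_lit 1745879048) (nat_lit 9906946092) (.two (nat_lit 13195280389) (nat_lit 28690088056) (.two (nat_lit 34603009) (nat_lit 10351542936) (.two (nat_lit 1048576) (nat_lit 1862273077) (.one (nat_lit 1053484) .nil)))),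
   .two (nat_lit 169869320) (nat_lit 2969567255) (.two (nat_lit 16777221) (nat_lit 183913939072) (.two (nat_lit 2097153) (nat_lit 721421378) (.two (nat_lit 2097152) (nat_lit 183861511564) (.one (nat_lit 16782125) .nil)))),
   .two (nat_lit 1178599432) (nat_lit 236978287) (.two (nat_lit 37748737) (nat_lit 174753579621) (.two (nat_lit 4194304) (nat_lit 1310721317) (.one (nat_lit 4199214) .nil))),
   .two (nat_lit 705691656) (nat_lit 9902751870) (.two (nat_lit 2097153) (nat_lit 2987393718) (.two (nat_lit 2097152) (nat_lit 20737688892) (.one (nat_lit 1053488) .nil))),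
   .two (nat_lit 813694984) (nat_lit 1191182351) (.two (nat_lit 620756997) (nat_lit 847249603) (.two (nat_lit 2097152) (nat_lit 4605347920) (.one (nat_lit 740297224) .nil))),
   .two (nat_lit 272629768) (nat_lit 754974735) (.two (nat_lit 11559501829) (nat_lit 272629824) (.two (nat_lit 50331649) (nat_lit 20740834703) (.one (nat_lit 1849691814) .nil))),
   .two (nat_lit 41943048) (nat_lit 2316304408) (.two (nat_lit 20637024260) (nat_lit 159224169152) (.two (nat_lit 1048576) (nat_lit 183953786215) (.one (nat_lit 2920288758) .nil))),
   .two (nat_lit 184993972232) (nat_lit 158176641048) (.two (nat_lit 1276116996) (nat_lit 184993972290) (.two (nat_lit 605028353) (nat_lit 21785215582) (.two (nat_lit 1048576) (nat_lit 8390884) (.one (nat_lit 8393521) .nil)))),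
   .two (nat_lit 156968681480) (nat_lit 840958054) (.two (nat_lit 746586117) (nat_lit 19093520451) (.two (nat_lit 9766436865) (nat_lit 705692010) (.two (nat_lit 1048576) (nat_lit 2100237) (.one (nat_lit 21812481586) .nil)))),
   .two (nat_lit 20637024264) (nat_lit 157036838927) (.two (nat_lit 46407876612) (nat_lit 157035790468) (.two (nat_lit 2097153) (nat_lit 184986633538) (.one (nat_lit 1846545969) .nil))),
   .two (nat_lit 101711880) (nat_lit 158083317775) (.two (nat_lit 184416206853) (nat_lit 11618222321) (.two (nat_lit 34603009) (nat_lit 11618222438) (.two (nat_lit 16777216) (nat_lit 4631561538) (.one (nat_lit 1053490) .nil)))),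
   .two (nat_lit 620757000) (nat_lit 809500687) (.two (nat_lit 184549380) (nat_lit 183949590641) (.two (nat_lit 16777217) (nat_lit 19130221866) (.one (nat_lit 2420116915) .nil))),
   .two (nat_lit 11476664328) (nat_lit 156976021529) (.two (nat_lit 34603013) (nat_lit 159224168572) (.two (nat_lit 605028353) (nat_lit 10504634725) (.two (nat_lit 2097152) (nat_lit 8390886) (.one (nat_lit 2101005) .nil)))),
   .two (nat_lit 1277165576) (nat_lit 46414168129) (.two (nat_lit 8388609) (nat_lit 18926797159) (.two (nat_lit 8388608) (nat_lit 2100240) (.one (nat_lit 19597889021) .nil))),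
   .two (nat_lit 9948889096) (nat_lit 10940841999) (.two (nat_lit 166130089989) (nat_lit 1291845745) (.two (nat_lit 2097153) (nat_lit 855639392) (.one (nat_lit 16782132) .nil))),
   .two (nat_lit 21811429388) (nat_lit 46978301967) (.two (nat_lit 21777874949) (nat_lit 46474985588) (.two (nat_lit 605028353) (nat_lit 10907288187) (.two (nat_lit 1048576) (nat_lit 4599055720) (.one (nat_lit 2102070) .nil)))),
   .two (nat_lit 654311436) (nat_lit 775946359) (.two (nat_lit 50331649) (nat_lit 10003416452) (.one (nat_lit 184989781667) .nil)),
   .two (nat_lit 68157448) (nat_lit 174753579023) (.two (nat_lit 159216828421) (nat_lit 174753579116) (.two (nat_lit 4194305) (nat_lit 10538189430) (.two (nat_lit 4194304) (nat_lit 2099432) (.one (nat_lit 4198089) .nil)))),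
   .two (nat_lit 16777224) (nat_lit 10537140249) (.two (nat_lit 16777220) (nat_lit 839909503) (.two (nat_lit 50331649) (nat_lit 19026412171) (.two (nat_lit 16777216) (nat_lit 1051666) (.one (nat_lit 10436479515) .nil)))),
   .two (nat_lit 28093448205) (nat_lit 11479810063) (.two (nat_lit 156372041733) (nat_lit 183848927364) (.two (nat_lit 34603009) (nat_lit 166132187764) (.two (nat_lit 1048576) (nat_lit 184419353935) (.one (nat_lit 4199223) .nil)))),
   .two (nat_lit 46978301960) (nat_lit 174752530447) (.two (nat_lit 3525312517) (nat_lit 21777875079) (.two (nat_lit 156365750273) (nat_lit 2316305024) (.two (nat_lit 2097152) (nat_lit 21811431466) (.one (nat_lit 12147755533) .nil)))),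
   .two (nat_lit 19093520397) (nat_lit 10504634497) (.two (nat_lit 9765388289) (nat_lit 185021235560) (.two (nat_lit 1048576) (nat_lit 2099433) (.one (nat_lit 20638077277) .nil))),
   .two (nat_lit 809500680) (nat_lit 174759870479) (.two (nat_lit 4194308) (nat_lit 9873391748) (.two (nat_lit 620756993) (nat_lit 159219975493) (.one (nat_lit 12624858682) .nil))),
   .two (nat_lit 9948889096) (nat_lit 10940841999) (.two (nat_lit 166130089989) (nat_lit 1291845745) (.two (nat_lit 2097153) (nat_lit 12062819670) (.one (nat_lit 16782137) .nil))),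
   .two (nat_lit 4605345800) (nat_lit 159251431448) (.two (nat_lit 169869316) (nat_lit 4605345858) (.two (nat_lit 8388609) (nat_lit 10538189410) (.two (nat_lit 8388608) (nat_lit 2099434) (.one (nat_lit 1283461637) .nil)))),
   .two (nat_lit 721420296) (nat_lit 2887778328) (.two (nat_lit 2887778308) (nat_lit 3539992695) (.two (nat_lit 50331649) (nat_lit 158177690310) (.two (nat_lit 16777216) (nat_lit 2100247) (.one (nat_lit 158158817806) .nil)))),
   .two (nat_lit 12054429704) (nat_lit 159217877007) (.two (nat_lit 183853121540) (nat_lit 159251431536) (.two (nat_lit 156372041729) (nat_lit 47582283049) (.one (nat_lit 69209665) .nil))),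
   .two (nat_lit 9934209032) (nat_lit 20704133236) (.two (nat_lit 606076929) (nat_lit 156566029681) (.one (nat_lit 840961585) .nil)),
   .two (nat_lit 16777224) (nat_lit 1913651322) (.two (nat_lit 16777217) (nat_lit 28790751848) (.two (nat_lit 16777216) (nat_lit 21777878721) .nil)),
   .two (nat_lit 754974733) (nat_lit 37246468136) (.two (nat_lit 50331653) (nat_lit 184986632328) (.two (nat_lit 34603009) (nat_lit 9781117286) (.two (nat_lit 1048576) (nat_lit 11626612046) (.one (nat_lit 10537143754) .nil)))),
   .two (nat_lit 3464495112) (nat_lit 1847590936) (.two (nat_lit 2887778308) (nat_lit 165532401731) (.two (nat_lit 2097153) (nat_lit 165532402261) (.two (nat_lit 2097152) (nat_lit 1283458417) (.one (nat_lit 46984597916) .nil)))),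
   .two (nat_lit 21785214984) (nat_lit 2921332778) (.two (nat_lit 713031685) (nat_lit 19027460217) (.two (nat_lit 34603009) (nat_lit 706741587) (.one (nat_lit 2101009) .nil))),
   .two (nat_lit 11559501832) (nat_lit 10370416655) (.two (nat_lit 721420292) (nat_lit 3021996154) (.two (nat_lit 50331649) (nat_lit 184987681399) (.two (nat_lit 16777216) (nat_lit 169870653) (.one (nat_lit 2101010) .nil)))),
   .two (nat_lit 1191182344) (nat_lit 8388743) (.two (nat_lit 50331649) (nat_lit 46414169429) (.one (nat_lit 8393532) .nil)),
   .two (nat_lit 11007950861) (nat_lit 19130220656) (.two (nat_lit 9766436865) (nat_lit 28793898343) (.one (nat_lit 46510641503) .nil)),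
   .two (nat_lit 612368392) (nat_lit 1191182351) (.two (nat_lit 176160772) (nat_lit 37329305877) (.two (nat_lit 50331649) (nat_lit 184993973537) (.one (nat_lit 8393534) .nil))),
   .two (nat_lit 10504634376) (nat_lit 739246124) (.two (nat_lit 34603013) (nat_lit 4605345858) (.two (nat_lit 2097153) (nat_lit 2961180901) (.one (nat_lit 873468411) .nil))),
   .two (nat_lit 8388616) (nat_lit 47548727311) (.two (nat_lit 4194308) (nat_lit 773849207) (.two (nat_lit 4194305) (nat_lit 11544822379) (.two (nat_lit 4194304) (nat_lit 773850457) (.one (nat_lit 2101011) .nil)))),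
   .two (nat_lit 721420296) (nat_lit 9934209039) (.two (nat_lit 1277165573) (nat_lit 19042140287) (.two (nat_lit 50331649) (nat_lit 37247517033) (.two (nat_lit 16777216) (nat_lit 11578377543) (.one (nat_lit 16781076) .nil)))),
   .two (nat_lit 10385096712) (nat_lit 10376708222) (.two (nat_lit 41943041) (nat_lit 10385097372) (.two (nat_lit 8388608) (nat_lit 16780315) (.one (nat_lit 157051523500) .nil))),
   .two (nat_lit 1175453704) (nat_lit 19530776600) (.two (nat_lit 34603013) (nat_lit 4605345857) (.two (nat_lit 50331649) (nat_lit 235929961) (.two (nat_lit 16777216) (nat_lit 183946445667) (.one (nat_lit 8393536) .nil)))),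
   .two (nat_lit 10385096717) (nat_lit 9866051599) (.two (nat_lit 1191182341) (nat_lit 13187940471) (.two (nat_lit 16777217) (nat_lit 4605346901) (.two (nat_lit 16777216) (nat_lit 19604180490) .nil))),
   .two (nat_lit 1343225864) (nat_lit 4605345858) (.two (nat_lit 41943041) (nat_lit 336594319) (.one (nat_lit 11584671473) .nil)),
   .two (nat_lit 272629768) (nat_lit 185035915288) (.two (nat_lit 721420292) (nat_lit 10439623018) (.two (nat_lit 16777216) (nat_lit 4030728380) (.one (nat_lit 4199233) .nil))),
   .two (nat_lit 9766436872) (nat_lit 9881780239) (.two (nat_lit 1358954501) (nat_lit 159217877114) (.two (nat_lit 2097153) (nat_lit 20711473809) (.two (nat_lit 2097152) (nat_lit 156539816933) (.one (nat_lit 8393538) .nil)))),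
   .two (nat_lit 276824072) (nat_lit 28087156751) (.two (nat_lit 8388612) (nat_lit 2988441736) (.two (nat_lit 8388609) (nat_lit 135267378) (.two (nat_lit 16777216) (nat_lit 156573370565) (.one (nat_lit 156573372954) .nil)))),
   .two (nat_lit 809500680) (nat_lit 19127074840) (.two (nat_lit 46409973765) (nat_lit 20637024375) (.two (nat_lit 37748737) (nat_lit 10369370152) (.one (nat_lit 11010051697) .nil))),
   .two (nat_lit 218103816) (nat_lit 339738871) (.two (nat_lit 4194305) (nat_lit 11559503137) (.one (nat_lit 11546923712) .nil)),
   .two (nat_lit 9766436872) (nat_lit 37313576984) (.two (nat_lit 20637024260) (nat_lit 1746927735) (.two (nat_lit 41943041) (nat_lit 1276117694) (.two (nat_lit 8388608) (nat_lit 1050862) (.one (nat_lit 2102084) .nil)))),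
   .two (nat_lit 101711880) (nat_lit 1216348184) (.two (nat_lit 9866051589) (nat_lit 1216348270) (.two (nat_lit 34603009) (nat_lit 166203491013) (.two (nat_lit 16777216) (nat_lit 28093451886) .nil))),
   .two (nat_lit 41943048) (nat_lit 1846542457) (.two (nat_lit 50331649) (nat_lit 813695690) (.two (nat_lit 1048576) (nat_lit 174692763880) (.one (nat_lit 1053509) .nil))),
   .two (nat_lit 158176641037) (nat_lit 218103832) (.two (nat_lit 50331653) (nat_lit 158646403137) (.two (nat_lit 50331649) (nat_lit 20704133728) (.two (nat_lit 16777216) (nat_lit 1050864) (.one (nat_lit 1053510) .nil)))),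
   .two (nat_lit 9934209032) (nat_lit 754974834) (.two (nat_lit 9781116929) (nat_lit 10940842597) (.two (nat_lit 16777216) (nat_lit 2100256) (.one (nat_lit 654315150) .nil))),
   .two (nat_lit 1350565896) (nat_lit 101711887) (.two (nat_lit 11476664324) (nat_lit 11584667768) (.two (nat_lit 34603009) (nat_lit 612368579) (.two (nat_lit 1048576) (nat_lit 47588577032) .nil))),
   .two (nat_lit 276824072) (nat_lit 19599982607) (.two (nat_lit 183848927236) (nat_lit 310378691) (.two (nat_lit 1048576) (nat_lit 11551116966) .nil)),
   .two (nat_lit 83886088) (nat_lit 847249546) (.two (nat_lit 8388609) (nat_lit 620757586) (.two (nat_lit 8388608) (nat_lit 16780321) (.one (nat_lit 16782151) .nil))),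
   .two (nat_lit 47555018760) (nat_lit 156468510767) (.two (nat_lit 176160772) (nat_lit 4634706045) (.two (nat_lit 156372041729) (nat_lit 183949591246) (.two (nat_lit 8388608) (nat_lit 4197410) (.one (nat_lit 4605349527) .nil)))),
   .two (nat_lit 9948889096) (nat_lit 10336862223) (.two (nat_lit 1291845637) (nat_lit 166130090104) (.two (nat_lit 2097153) (nat_lit 157051520305) (.one (nat_lit 16781077) .nil))),
   .two (nat_lit 880803852) (nat_lit 184419352616) (.two (nat_lit 809500677) (nat_lit 9806282888) (.two (nat_lit 41943041) (nat_lit 12117344613) (.two (nat_lit 8388608) (nat_lit 156971829367) (.one (nat_lit 2323648000) .nil)))),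
   .two (nat_lit 1343225864) (nat_lit 19532873743) (.two (nat_lit 705691652) (nat_lit 166132187201) (.two (nat_lit 34603009) (nat_lit 3527410973) (.one (nat_lit 1053512) .nil))),
   .two (nat_lit 20637024264) (nat_lit 11559501939) (.two (nat_lit 4194305) (nat_lit 2902459039) (.two (nat_lit 4194304) (nat_lit 822085813) (.one (nat_lit 16782154) .nil))),
   .two (nat_lit 1795162120) (nat_lit 37313576984) (.two (nat_lit 605028357) (nat_lit 10385097314) (.two (nat_lit 1048576) (nat_lit 16779505) (.one (nat_lit 4601155264) .nil))),
   .two (nat_lit 11543773192) (nat_lit 18933088280) (.two (nat_lit 705691652) (nat_lit 4605346402) (.two (nat_lit 1048576) (nat_lit 8390898) (.one (nat_lit 9806285339) .nil))),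
   .two (nat_lit 1376780300) (nat_lit 19599982607) (.two (nat_lit 1343225861) (nat_lit 1212153968) (.two (nat_lit 9765388289) (nat_lit 9969861985) (.one (nat_lit 4199243) .nil))),
   .two (nat_lit 8388616) (nat_lit 809500687) (.two (nat_lit 8388612) (nat_lit 166132187852) (.two (nat_lit 8388608) (nat_lit 339739980) (.one (nat_lit 4199245) .nil))),
   .two (nat_lit 50331656) (nat_lit 679477290) (.two (nat_lit 721420292) (nat_lit 166129041516) (.two (nat_lit 8388609) (nat_lit 183946445467) (.two (nat_lit 1048576) (nat_lit 1384122569) (.one (nat_lit 1053518) .nil)))),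
   .two (nat_lit 2954887176) (nat_lit 18933088271) (.two (nat_lit 169869316) (nat_lit 11517558850) (.two (nat_lit 50331649) (nat_lit 185021235818) (.two (nat_lit 16777216) (nat_lit 2894072749) (.one (nat_lit 142609919) .nil)))),
   .two (nat_lit 2323644429) (nat_lit 11479810063) (.two (nat_lit 8388612) (nat_lit 12117344370) (.two (nat_lit 37748737) (nat_lit 12121539192) (.two (nat_lit 16777216) (nat_lit 3460302169) (.one (nat_lit 4199247) .nil)))),
   .two (nat_lit 16777224) (nat_lit 21781020719) (.two (nat_lit 184549381) (nat_lit 10003415312) (.two (nat_lit 16777217) (nat_lit 174755677548) (.one (nat_lit 16782161) .nil))),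
   .two (nat_lit 104857608) (nat_lit 2350907524) (.two (nat_lit 4194305) (nat_lit 9766437545) (.two (nat_lit 8388608) (nat_lit 183916038695) .nil)),
   .two (nat_lit 1277165576) (nat_lit 20644364303) (.two (nat_lit 9934209029) (nat_lit 159224168561) (.two (nat_lit 606076929) (nat_lit 184423548256) (.one (nat_lit 813698631) .nil))),
   .two (nat_lit 1779433480) (nat_lit 11584667843) (.two (nat_lit 1048576) (nat_lit 12054431005) (.one (nat_lit 8393554) .nil)),
   .two (nat_lit 612368392) (nat_lit 1291845697) (.two (nat_lit 8388609) (nat_lit 158192370775) (.two (nat_lit 8388608) (nat_lit 83888222) (.one (nat_lit 788532816) .nil))),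
   .two (nat_lit 2969567240) (nat_lit 4028629058) (.two (nat_lit 2097153) (nat_lit 285213278) (.two (nat_lit 2097152) (nat_lit 16779507) (.one (nat_lit 28087160473) .nil))),
   .two (nat_lit 11559501832) (nat_lit 176160794) (.two (nat_lit 721420292) (nat_lit 11484004600) (.two (nat_lit 8388609) (nat_lit 117440707) (.two (nat_lit 1048576) (nat_lit 10351543606) (.one (nat_lit 10552873758) .nil)))),
   .two (nat_lit 83886088) (nat_lit 772800633) (.two (nat_lit 4194305) (nat_lit 285212867) (.two (nat_lit 1048576) (nat_lit 3573549205) (.one (nat_lit 1175457251) .nil))),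
   .two (nat_lit 2969567240) (nat_lit 21208498191) (.two (nat_lit 2969567237) (nat_lit 3558867221) (.two (nat_lit 606076929) (nat_lit 156548203577) (.two (nat_lit 2097152) (nat_lit 4197413) (.one (nat_lit 37249618370) .nil)))),
   .two (nat_lit 11492392968) (nat_lit 135266429) (.two (nat_lit 34603009) (nat_lit 1761609811) (.one (nat_lit 303042116) .nil)),
   .two (nat_lit 10370416648) (nat_lit 3464495119) (.two (nat_lit 47555018757) (nat_lit 166230753388) (.two (nat_lit 606076929) (nat_lit 3028288085) (.two (nat_lit 2097152) (nat_lit 1954547026) (.one (nat_lit 8393555) .nil)))),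
   .two (nat_lit 47555018760) (nat_lit 4601151552) (.two (nat_lit 8388609) (nat_lit 775947612) (.one (nat_lit 4199252) .nil)),
   .two (nat_lit 37748744) (nat_lit 184993972333) (.two (nat_lit 4194305) (nat_lit 1176502900) (.two (nat_lit 2097152) (nat_lit 8391718) (.one (nat_lit 2101017) .nil))),
   .two (nat_lit 2954887176) (nat_lit 272629803) (.two (nat_lit 809500677) (nat_lit 236978290) (.two (nat_lit 37748737) (nat_lit 9867100794) (.two (nat_lit 4194304) (nat_lit 12618564916) (.one (nat_lit 183913942802) .nil)))),
   .two (nat_lit 612368392) (nat_lit 4601151552) (.two (nat_lit 8388609) (nat_lit 11010049344) (.one (nat_lit 4199253) .nil)),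
   .two (nat_lit 2969567240) (nat_lit 10335813763) (.two (nat_lit 16777217) (nat_lit 10335814255) (.two (nat_lit 1048576) (nat_lit 4647290248) (.one (nat_lit 1749029266) .nil))),
   .two (nat_lit 1343225864) (nat_lit 1847591027) (.two (nat_lit 34603009) (nat_lit 166230753895) (.two (nat_lit 1048576) (nat_lit 10940845704) .nil)),
   .two (nat_lit 639631368) (nat_lit 10343153704) (.two (nat_lit 10370416645) (nat_lit 46414168303) (.two (nat_lit 2097153) (nat_lit 343933286) (.two (nat_lit 2097152) (nat_lit 8390901) (.one (nat_lit 8392474) .nil)))),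
   .two (nat_lit 276824072) (nat_lit 1191182351) (.two (nat_lit 705691652) (nat_lit 9806282947) (.two (nat_lit 1048576) (nat_lit 1317012807) (.one (nat_lit 8393559) .nil))),
   .two (nat_lit 606076936) (nat_lit 117440527) (.two (nat_lit 9768534021) (nat_lit 11511267449) (.two (nat_lit 2097153) (nat_lit 1413481079) (.two (nat_lit 4194304) (nat_lit 1411387142) .nil))),
   .two (nat_lit 713031688) (nat_lit 10939793423) (.two (nat_lit 713031684) (nat_lit 1410334839) (.two (nat_lit 9765388289) (nat_lit 12624855691) (.two (nat_lit 1048576) (nat_lit 8391721) (.one (nat_lit 1209010701) .nil)))),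
   .two (nat_lit 11543773192) (nat_lit 184419352591) (.two (nat_lit 9866051589) (nat_lit 46980399229) (.two (nat_lit 41943041) (nat_lit 156532475230) (.one (nat_lit 21814578865) .nil))),
   .two (nat_lit 101711880) (nat_lit 9906946072) (.two (nat_lit 11476664324) (nat_lit 2927624314) (.two (nat_lit 34603009) (nat_lit 1954547075) (.one (nat_lit 8392475) .nil))),
   .two (nat_lit 75497480) (nat_lit 46473937022) (.two (nat_lit 41943041) (nat_lit 839911562) (.one (nat_lit 156465367565) .nil)),
   .two (nat_lit 75497480) (nat_lit 19128123519) (.two (nat_lit 41943041) (nat_lit 157036841071) (.one (nat_lit 19027462669) .nil)),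
   .two (nat_lit 739246088) (nat_lit 12054429711) (.two (nat_lit 11543773189) (nat_lit 310378616) (.two (nat_lit 34603009) (nat_lit 19033752185) (.two (nat_lit 1048576) (nat_lit 8390902) (.one (nat_lit 3464497677) .nil)))),
   .two (nat_lit 37748744) (nat_lit 713031695) (.two (nat_lit 41943045) (nat_lit 13224640620) (.two (nat_lit 41943041) (nat_lit 166199296625) (.two (nat_lit 2097152) (nat_lit 4196599) (.one (nat_lit 3021999803) .nil)))),
   .two (nat_lit 272629773) (nat_lit 10940842099) (.two (nat_lit 4194305) (nat_lit 3558868016) (.two (nat_lit 1048576) (nat_lit 874514462) (.one (nat_lit 2102105) .nil))),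
   .two (nat_lit 47582281740) (nat_lit 20745027629) (.two (nat_lit 713031685) (nat_lit 184417255550) (.two (nat_lit 2097153) (nat_lit 12054430363) (.two (nat_lit 2097152) (nat_lit 8390905) (.one (nat_lit 10913582772) .nil)))),
   .two (nat_lit 20705181709) (nat_lit 176160783) (.two (nat_lit 8388613) (nat_lit 13224640763) (.two (nat_lit 606076929) (nat_lit 2994734412) (.one (nat_lit 158083321440) .nil))),
   .two (nat_lit 184549384) (nat_lit 1310720121) (.two (nat_lit 2097153) (nat_lit 166245434688) (.one (nat_lit 16782170) .nil)),
   .two (nat_lit 9866051592) (nat_lit 46508540023) (.two (nat_lit 605028353) (nat_lit 19128123751) (.two (nat_lit 1048576) (nat_lit 807407037) .nil)),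
   .two (nat_lit 183853121549) (nat_lit 605028397) (.two (nat_lit 713031685) (nat_lit 28086108296) (.two (nat_lit 34603009) (nat_lit 156539814519) (.two (nat_lit 8388608) (nat_lit 47581236242) (.one (nat_lit 8393563) .nil)))),
   .two (nat_lit 11479810056) (nat_lit 18933088271) (.two (nat_lit 809500677) (nat_lit 12054429762) (.two (nat_lit 16777217) (nat_lit 10003415908) (.one (nat_lit 8393564) .nil))),
   .two (nat_lit 41943048) (nat_lit 843055129) (.two (nat_lit 8388612) (nat_lit 19029557370) (.two (nat_lit 8388609) (nat_lit 69206644) (.two (nat_lit 4194304) (nat_lit 10544482522) (.one (nat_lit 2101020) .nil)))),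
   .two (nat_lit 46523219981) (nat_lit 12054429711) (.two (nat_lit 46422556677) (nat_lit 183853121650) (.two (nat_lit 156364701697) (nat_lit 1182795152) (.one (nat_lit 8393565) .nil))),
   .two (nat_lit 1191182344) (nat_lit 159216828462) (.two (nat_lit 754974725) (nat_lit 21811429501) (.two (nat_lit 34603009) (nat_lit 10385098013) (.one (nat_lit 20719865410) .nil))),
   .two (nat_lit 21208498184) (nat_lit 166132187151) (.two (nat_lit 158144135173) (nat_lit 28693233778) (.two (nat_lit 156365750273) (nat_lit 1346372961) (.one (nat_lit 4199262) .nil))),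
   .two (nat_lit 705691656) (nat_lit 2961178743) (.two (nat_lit 34603009) (nat_lit 12054430395) (.two (nat_lit 1048576) (nat_lit 169870651) (.one (nat_lit 2102111) .nil))),
   .two (nat_lit 721420296) (nat_lit 1846542351) (.two (nat_lit 28757196805) (nat_lit 620757127) (.two (nat_lit 9765388289) (nat_lit 9814671981) (.two (nat_lit 2097152) (nat_lit 21223181784) .nil))),
   .two (nat_lit 41943048) (nat_lit 10504634412) (.two (nat_lit 209715205) (nat_lit 3558867009) (.two (nat_lit 8388609) (nat_lit 158077026666) (.two (nat_lit 1048576) (nat_lit 28798092610) (.one (nat_lit 1053536) .nil)))),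
   .two (nat_lit 16777224) (nat_lit 13191086095) (.two (nat_lit 4194308) (nat_lit 150995575) (.two (nat_lit 4194304) (nat_lit 855639372) (.one (nat_lit 822088304) .nil))),
   .two (nat_lit 16777224) (nat_lit 11543773199) (.two (nat_lit 16777220) (nat_lit 184416206980) (.two (nat_lit 16777217) (nat_lit 19529728361) (.two (nat_lit 16777216) (nat_lit 157035791674) (.one (nat_lit 1053537) .nil)))),
   .two (nat_lit 9881780232) (nat_lit 9799991320) (.two (nat_lit 218103813) (nat_lit 159251431549) (.two (nat_lit 2097153) (nat_lit 1795163421) (.one (nat_lit 16781086) .nil))),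
   .two (nat_lit 8388616) (nat_lit 3458203663) (.two (nat_lit 46407876612) (nat_lit 1753219196) (.two (nat_lit 50331649) (nat_lit 166130091343) (.one (nat_lit 8393570) .nil))),
   .two (nat_lit 11479810056) (nat_lit 10385096719) (.two (nat_lit 654311429) (nat_lit 1212154549) (.two (nat_lit 16777216) (nat_lit 21781022803) (.one (nat_lit 1212156429) .nil))),
   .two (nat_lit 159217877000) (nat_lit 101711898) (.two (nat_lit 169869316) (nat_lit 1779433746) (.two (nat_lit 8388609) (nat_lit 46473937764) (.one (nat_lit 1053539) .nil))),
   .two (nat_lit 705691656) (nat_lit 1753219180) (.two (nat_lit 605028353) (nat_lit 19530777284) (.two (nat_lit 2097152) (nat_lit 2953839982) (.one (nat_lit 2102116) .nil))),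
   .two (nat_lit 705691656) (nat_lit 1358954734) (.two (nat_lit 2097153) (nat_lit 158158815860) (.two (nat_lit 2097152) (nat_lit 3573548367) (.one (nat_lit 158091711067) .nil))),
   .two (nat_lit 28758245384) (nat_lit 47555018792) (.two (nat_lit 165532401669) (nat_lit 2350907512) (.two (nat_lit 606076929) (nat_lit 343934240) (.one (nat_lit 8393574) .nil))),
   .two (nat_lit 50331656) (nat_lit 28693233679) (.two (nat_lit 16777220) (nat_lit 28693233730) (.two (nat_lit 9768534017) (nat_lit 822084945) (.one (nat_lit 4198175) .nil))),
   .two (nat_lit 169869320) (nat_lit 165528207385) (.two (nat_lit 270532613) (nat_lit 11513365145) (.two (nat_lit 1048576) (nat_lit 10437526915) (.one (nat_lit 2102119) .nil))),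
   .two (nat_lit 101711880) (nat_lit 1753219087) (.two (nat_lit 739246085) (nat_lit 3464495169) (.two (nat_lit 34603009) (nat_lit 645924178) (.one (nat_lit 47555023227) .nil))),
   .two (nat_lit 9934209032) (nat_lit 1753219087) (.two (nat_lit 169869316) (nat_lit 2323644483) (.two (nat_lit 156372041729) (nat_lit 13222543993) (.two (nat_lit 8388608) (nat_lit 46474987638) (.one (nat_lit 183913942497) .nil)))),
   .two (nat_lit 8388616) (nat_lit 3460300824) (.two (nat_lit 8388612) (nat_lit 46510637121) (.two (nat_lit 8388609) (nat_lit 2923430556) (.two (nat_lit 8388608) (nat_lit 12117347355) (.one (nat_lit 46414172603) .nil)))),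
   .two (nat_lit 272629768) (nat_lit 159250382975) (.two (nat_lit 37748737) (nat_lit 47581234514) (.one (nat_lit 1053544) .nil)),
   .two (nat_lit 176160776) (nat_lit 174686470168) (.two (nat_lit 176160772) (nat_lit 174686470255) (.two (nat_lit 606076929) (nat_lit 1350568081) (.one (nat_lit 1283460718) .nil))),
   .two (nat_lit 1376780300) (nat_lit 21778923648) (.two (nat_lit 605028353) (nat_lit 136315239) (.two (nat_lit 2097152) (nat_lit 159216830574) (.one (nat_lit 18926800381) .nil))),
   .two (nat_lit 185020186636) (nat_lit 11611930758) (.two (nat_lit 34603009) (nat_lit 166230753637) (.two (nat_lit 1048576) (nat_lit 69208623) .nil)),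
   .two (nat_lit 11492392968) (nat_lit 159257722922) (.two (nat_lit 8388613) (nat_lit 13237223491) (.two (nat_lit 9768534017) (nat_lit 1182795133) (.one (nat_lit 28697431521) .nil))),
   .two (nat_lit 272629768) (nat_lit 10336862223) (.two (nat_lit 2889875460) (nat_lit 9967763651) (.two (nat_lit 2097152) (nat_lit 4197424) (.one (nat_lit 46409977403) .nil))),
   .two (nat_lit 705691656) (nat_lit 2969567427) (.two (nat_lit 2097152) (nat_lit 158143090235) .nil),
   .two (nat_lit 4194312) (nat_lit 75497487) (.two (nat_lit 612368389) (nat_lit 1346371707) (.two (nat_lit 41943041) (nat_lit 272629955) (.two (nat_lit 1048576) (nat_lit 37316724012) (.one (nat_lit 4199274) .nil)))),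
   .two (nat_lit 41943048) (nat_lit 2988441625) (.two (nat_lit 713031685) (nat_lit 11007951114) (.two (nat_lit 8388609) (nat_lit 11477713517) (.two (nat_lit 1048576) (nat_lit 2100273) (.one (nat_lit 19033755060) .nil)))),
   .two (nat_lit 739246088) (nat_lit 10538188846) (.two (nat_lit 209715205) (nat_lit 10538189398) (.two (nat_lit 1048576) (nat_lit 2099450) (.one (nat_lit 1053548) .nil))),
   .two (nat_lit 16777224) (nat_lit 12117344271) (.two (nat_lit 285212677) (nat_lit 28758245496) (.two (nat_lit 16777217) (nat_lit 156969730724) (.two (nat_lit 2097152) (nat_lit 205523077) (.one (nat_lit 2102125) .nil)))),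
   .two (nat_lit 83886088) (nat_lit 1753219096) (.two (nat_lit 156372041733) (nat_lit 721420402) (.two (nat_lit 41943041) (nat_lit 166245435942) .nil)),
   .two (nat_lit 41943048) (nat_lit 184419352599) (.two (nat_lit 1283457029) (nat_lit 20738736194) (.two (nat_lit 9768534017) (nat_lit 183846830439) (.two (nat_lit 4194304) (nat_lit 2100275) (.one (nat_lit 236982857) .nil)))),
   .two (nat_lit 41943048) (nat_lit 117440552) (.two (nat_lit 8388612) (nat_lit 159266111624) (.two (nat_lit 620756993) (nat_lit 159224171030) .nil)),
   .two (nat_lit 612368392) (nat_lit 174753579032) (.two (nat_lit 176160773) (nat_lit 184987680888) (.two (nat_lit 8388609) (nat_lit 21778924242) (.two (nat_lit 4194304) (nat_lit 2100277) (.one (nat_lit 9906950519) .nil)))),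
   .two (nat_lit 169869320) (nat_lit 9768534031) (.two (nat_lit 169869316) (nat_lit 158646403201) (.two (nat_lit 2097153) (nat_lit 272629955) (.two (nat_lit 2097152) (nat_lit 19130222672) (.one (nat_lit 4199279) .nil)))),
   .two (nat_lit 4194312) (nat_lit 47555018767) (.two (nat_lit 1343225861) (nat_lit 37748997) (.two (nat_lit 605028353) (nat_lit 183916036744) (.two (nat_lit 1048576) (nat_lit 184423549061) (.one (nat_lit 183845785326) .nil)))),
   .two (nat_lit 169869320) (nat_lit 721420396) (.two (nat_lit 34603009) (nat_lit 874514517) (.one (nat_lit 10016001595) .nil)),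
   .two (nat_lit 612368392) (nat_lit 1291845647) (.two (nat_lit 75497477) (nat_lit 1795162233) (.two (nat_lit 156365750273) (nat_lit 746587523) (.one (nat_lit 2357202715) .nil))),
   .two (nat_lit 272629768) (nat_lit 184416206863) (.two (nat_lit 2889875461) (nat_lit 21777875064) (.two (nat_lit 37748737) (nat_lit 2920284520) (.two (nat_lit 4194304) (nat_lit 19093522451) (.one (nat_lit 1053552) .nil)))),
   .two (nat_lit 8388616) (nat_lit 809500687) (.two (nat_lit 8388612) (nat_lit 4634705986) (.two (nat_lit 8388609) (nat_lit 10439623017) (.two (nat_lit 8388608) (nat_lit 339739980) (.one (nat_lit 174688572127) .nil)))),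
   .two (nat_lit 46474985484) (nat_lit 10939793423) (.two (nat_lit 203423749) (nat_lit 1913651335) (.two (nat_lit 606076929) (nat_lit 68158770) (.one (nat_lit 1053554) .nil))),
   .two (nat_lit 8388616) (nat_lit 185020186647) (.two (nat_lit 8388612) (nat_lit 21811429484) (.two (nat_lit 8388609) (nat_lit 158646403750) (.two (nat_lit 8388608) (nat_lit 1913652544) (.one (nat_lit 1053555) .nil)))),
   .two (nat_lit 2902458376) (nat_lit 20638072847) (.two (nat_lit 218103813) (nat_lit 673185859) (.two (nat_lit 606076929) (nat_lit 16778533) (.one (nat_lit 11611934266) .nil))),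
   .two (nat_lit 41943048) (nat_lit 12047089679) (.two (nat_lit 46414168069) (nat_lit 10436477053) (.two (nat_lit 8388609) (nat_lit 174752531530) (.two (nat_lit 4194304) (nat_lit 235930969) (.one (nat_lit 166229708515) .nil)))),
   .two (nat_lit 184549384) (nat_lit 203423787) (.two (nat_lit 184549380) (nat_lit 156533522704) (.two (nat_lit 606076929) (nat_lit 822084178) (.two (nat_lit 2097152) (nat_lit 46523222931) (.one (nat_lit 3573551473) .nil)))),
   .two (nat_lit 3525312520) (nat_lit 21214789674) (.two (nat_lit 2887778308) (nat_lit 3464495225) (.two (nat_lit 9768534017) (nat_lit 158077027636) (.one (nat_lit 2988445335) .nil))),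
   .two (nat_lit 19130220557) (nat_lit 4605345807) (.two (nat_lit 1178599429) (nat_lit 10947133559) (.two (nat_lit 4194305) (nat_lit 183853122856) (.one (nat_lit 46414171836) .nil))),
   .two (nat_lit 754974728) (nat_lit 9940500522) (.two (nat_lit 721420293) (nat_lit 46414168129) (.two (nat_lit 16777217) (nat_lit 10913579371) (.two (nat_lit 4194304) (nat_lit 9873393681) (.one (nat_lit 8392482) .nil)))),
   .two (nat_lit 9768534024) (nat_lit 47548727311) (.two (nat_lit 2889875460) (nat_lit 3525312644) (.two (nat_lit 2097153) (nat_lit 4195030) (.two (nat_lit 2097152) (nat_lit 37751856) (.one (nat_lit 236982025) .nil)))),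
   .two (nat_lit 183845781512) (nat_lit 3472883757) (.two (nat_lit 2097157) (nat_lit 184549441) (.two (nat_lit 2097153) (nat_lit 174752531131) (.two (nat_lit 2097152) (nat_lit 1050876) (.one (nat_lit 16782196) .nil)))),
   .two (nat_lit 2887778312) (nat_lit 183949590570) (.two (nat_lit 809500677) (nat_lit 166230753643) (.two (nat_lit 4194304) (nat_lit 68160993) .nil)),
   .two (nat_lit 1276117000) (nat_lit 183853121602) (.two (nat_lit 4194305) (nat_lit 20711474487) (.one (nat_lit 8393589) .nil)),
   .two (nat_lit 620757000) (nat_lit 11014242431) (.two (nat_lit 41943041) (nat_lit 3525313862) (.one (nat_lit 16782198) .nil)),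
   .two (nat_lit 83886088) (nat_lit 184416206863) (.two (nat_lit 721420292) (nat_lit 183912890484) (.two (nat_lit 34603009) (nat_lit 9982445647) (.one (nat_lit 806358554) .nil))),
   .two (nat_lit 169869320) (nat_lit 184549391) (.two (nat_lit 2097157) (nat_lit 12129927287) (.two (nat_lit 2097153) (nat_lit 1779434103) (.two (nat_lit 2097152) (nat_lit 183946446139) (.one (nat_lit 1053103) .nil)))),
   .two (nat_lit 10336862221) (nat_lit 1343225871) (.two (nat_lit 12047089669) (nat_lit 2988441721) (.two (nat_lit 50331649) (nat_lit 10906240400) (.one (nat_lit 47581238109) .nil))),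
   .two (nat_lit 272629768) (nat_lit 236978199) (.two (nat_lit 203423749) (nat_lit 4634705987) (.two (nat_lit 4194305) (nat_lit 47582282324) (.two (nat_lit 4194304) (nat_lit 2099453) (.one (nat_lit 10504636945) .nil)))),
   .two (nat_lit 4194312) (nat_lit 10504634383) (.two (nat_lit 4194308) (nat_lit 136314999) (.two (nat_lit 4194305) (nat_lit 10370417281) (.two (nat_lit 4194304) (nat_lit 773850437) (.one (nat_lit 2987396876) .nil)))),
   .two (nat_lit 158075977736) (nat_lit 166132187151) (.two (nat_lit 21777874949) (nat_lit 19029557314) (.two (nat_lit 605028353) (nat_lit 10439623020) (.two (nat_lit 1048576) (nat_lit 4195730) (.one (nat_lit 4199288) .nil)))),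
   .two (nat_lit 8388616) (nat_lit 13191086095) (.two (nat_lit 4194308) (nat_lit 9806282890) (.two (nat_lit 4194305) (nat_lit 8389721) (.two (nat_lit 8388608) (nat_lit 4197433) (.one (nat_lit 12150902195) .nil)))),
   .two (nat_lit 9934209032) (nat_lit 13221494911) (.two (nat_lit 606076929) (nat_lit 168821399) (.two (nat_lit 2097152) (nat_lit 1050878) (.one (nat_lit 840961585) .nil))),
   .two (nat_lit 11513364493) (nat_lit 18925748266) (.two (nat_lit 2889875461) (nat_lit 1376780409) (.two (nat_lit 16777217) (nat_lit 11543774051) (.one (nat_lit 4198179) .nil))),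
   .two (nat_lit 10369368072) (nat_lit 2988441666) (.two (nat_lit 8388609) (nat_lit 21777875811) (.one (nat_lit 2887782041) .nil)),
   .two (nat_lit 37748744) (nat_lit 12624855064) (.two (nat_lit 4194308) (nat_lit 183913939187) (.two (nat_lit 4194305) (nat_lit 37314627757) (.one (nat_lit 10007611939) .nil))),
   .two (nat_lit 16777224) (nat_lit 184417255552) (.two (nat_lit 2097153) (nat_lit 608174772) (.two (nat_lit 2097152) (nat_lit 4197434) (.one (nat_lit 3460304322) .nil))),
   .two (nat_lit 176160776) (nat_lit 839909401) (.two (nat_lit 176160772) (nat_lit 21777875064) (.two (nat_lit 612368385) (nat_lit 705692372) (.two (nat_lit 8388608) (nat_lit 3020949576) (.one (nat_lit 1053157) .nil)))),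
   .two (nat_lit 739246088) (nat_lit 184993972239) (.two (nat_lit 713031684) (nat_lit 185020186740) (.two (nat_lit 34603009) (nat_lit 243271023) (.one (nat_lit 209718996) .nil))),
   .two (nat_lit 2887778312) (nat_lit 47555018816) (.two (nat_lit 2097153) (nat_lit 184993973621) (.one (nat_lit 8393594) .nil)),
   .two (nat_lit 272629768) (nat_lit 165532401679) (.two (nat_lit 4194308) (nat_lit 1317011522) (.two (nat_lit 612368385) (nat_lit 205521543) (.two (nat_lit 8388608) (nat_lit 18928897065) (.one (nat_lit 19033755194) .nil)))),
   .two (nat_lit 184419352584) (nat_lit 4605345928) (.two (nat_lit 8388609) (nat_lit 641729881) (.one (nat_lit 4199291) .nil)),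
   .two (nat_lit 8388616) (nat_lit 218103831) (.two (nat_lit 285212677) (nat_lit 343933123) (.two (nat_lit 16777216) (nat_lit 3028288797) (.one (nat_lit 183861514604) .nil))),
   .two (nat_lit 620757000) (nat_lit 11479810063) (.two (nat_lit 184549380) (nat_lit 4634706163) (.two (nat_lit 16777217) (nat_lit 306185505) (.one (nat_lit 20719866678) .nil)))]

theorem k2 : chkL tab c2 (nat_lit 4400) = true := by decide +kernel

theorem l2 : c2.length = 2200 := by decide +kernel

end K4

end Pool.Agent.Work.MP_bf01b2_co.MR
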