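import Pool.Agent.Work.MP_bf01b2_co.MR.K4T

/-!
# Three and four roots in `Q_5`: certificates of the entries 6600 to 8799
-/

set_option autoImplicit false
set_option maxRecDepth 100000

namespace Pool.Agent.Work.MP_bf01b2_co.MR

namespace K4

open JT

/-- certificates of the entries 6600 to 8799 -/
def c3 : List Rc :=
  [.two (nat_lit 3539992584) (nat_lit 12054429813) (.two (nat_lit 16777217) (nat_lit 183853122146) (.two (nat_lit 1048576) (nat_lit 47555021041) (.one (nat_lit 285216389) .nil))),
   .two (nat_lit 205520904) (nat_lit 158083318002) (.two (nat_lit 4194305) (nat_lit 159224168805) (.two (nat_lit 4194304) (nat_lit 10007611604) (.one (nat_lit 1053564) .nil))),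
   .two (nat_lit 612368392) (nat_lit 1291845647) (.two (nat_lit 50331653) (nat_lit 3464495745) (.two (nat_lit 1048576) (nat_lit 46414170257) (.one (nat_lit 20745031443) .nil))),
   .two (nat_lit 18925748232) (nat_lit 21208498191) (.two (nat_lit 16777220) (nat_lit 21208498313) (.two (nat_lit 16777217) (nat_lit 69206648) (.two (nat_lit 8388608) (nat_lit 184553093) .nil))),
   .two (nat_lit 10939793421) (nat_lit 1417674819) (.two (nat_lit 16777217) (nat_lit 10007610211) (.one (nat_lit 8393597) .nil)),
   .two (nat_lit 176160776) (nat_lit 28806479897) (.two (nat_lit 9781116933) (nat_lit 880804035) (.two (nat_lit 16777216) (nat_lit 157043131709) (.one (nat_lit 8393598) .nil))),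
   .two (nat_lit 156569174029) (nat_lit 3464495128) (.two (nat_lit 9768534021) (nat_lit 184423547137) (.two (nat_lit 37748737) (nat_lit 1920992557) (.one (nat_lit 8392485) .nil))),
   .two (nat_lit 276824072) (nat_lit 47548727360) (.two (nat_lit 8388609) (nat_lit 1310721315) (.one (nat_lit 2102145) .nil)),
   .two (nat_lit 2889875464) (nat_lit 9766436879) (.two (nat_lit 2887778308) (nat_lit 847249542) (.two (nat_lit 2097153) (nat_lit 166132188520) (.one (nat_lit 2102146) .nil))),
   .two (nat_lit 739246088) (nat_lit 156367847439) (.two (nat_lit 11476664324) (nat_lit 1782579559) (.two (nat_lit 4194304) (nat_lit 18925750312) (.one (nat_lit 19532877504) .nil))),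
   .two (nat_lit 41943053) (nat_lit 19596836879) (.two (nat_lit 41943045) (nat_lit 47547678838) (.two (nat_lit 41943041) (nat_lit 19093520742) (.two (nat_lit 8388608) (nat_lit 28690090128) (.one (nat_lit 269487641) .nil)))),
   .two (nat_lit 50331656) (nat_lit 11476664335) (.two (nat_lit 83886085) (nat_lit 156532474532) (.two (nat_lit 16777216) (nat_lit 1051713) (.one (nat_lit 1411387151) .nil))),
   .two (nat_lit 713031688) (nat_lit 2902458434) (.two (nat_lit 16777217) (nat_lit 4605346150) (.two (nat_lit 16777216) (nat_lit 8390911) (.one (nat_lit 8393603) .nil))),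
   .two (nat_lit 10370416648) (nat_lit 185020186647) (.two (nat_lit 1277165572) (nat_lit 185020186732) (.two (nat_lit 34603009) (nat_lit 20705182409) (.two (nat_lit 1048576) (nat_lit 840959327) (.one (nat_lit 10538192462) .nil)))),
   .two (nat_lit 2954887176) (nat_lit 1846542351) (.two (nat_lit 169869316) (nat_lit 12114198648) (.two (nat_lit 606076929) (nat_lit 1947205989) (.two (nat_lit 2097152) (nat_lit 2953842447) .nil))),
   .two (nat_lit 4194312) (nat_lit 10504634383) (.two (nat_lit 4194308) (nat_lit 136314999) (.two (nat_lit 4194305) (nat_lit 10538189410) (.two (nat_lit 4194304) (nat_lit 1310722289) (.one (nat_lit 2987396876) .nil)))),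
   .two (nat_lit 606076936) (nat_lit 19529728015) (.two (nat_lit 806354949) (nat_lit 37329305721) (.two (nat_lit 34603009) (nat_lit 807404154) (.two (nat_lit 1048576) (nat_lit 158146234418) (.one (nat_lit 1346376223) .nil)))),
   .two (nat_lit 184549384) (nat_lit 28693233801) (.two (nat_lit 16777217) (nat_lit 10372514424) (.two (nat_lit 1048576) (nat_lit 339740835) (.one (nat_lit 156548206138) .nil))),
   .two (nat_lit 612368392) (nat_lit 158647451672) (.two (nat_lit 176160773) (nat_lit 20705181809) (.two (nat_lit 4194305) (nat_lit 310379920) (.one (nat_lit 1780485789) .nil))),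
   .two (nat_lit 606076936) (nat_lit 183928619031) (.two (nat_lit 169869316) (nat_lit 10955522186) (.two (nat_lit 2097153) (nat_lit 9902753157) (.one (nat_lit 16782212) .nil))),
   .two (nat_lit 50331656) (nat_lit 166132187151) (.two (nat_lit 16777220) (nat_lit 4194423) (.two (nat_lit 9768534017) (nat_lit 9781118237) (.one (nat_lit 1950353933) .nil))),
   .two (nat_lit 8388616) (nat_lit 157038936079) (.two (nat_lit 8388612) (nat_lit 3527409728) (.two (nat_lit 4194305) (nat_lit 183853122202) (.two (nat_lit 2097152) (nat_lit 2420117111) .nil))),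
   .two (nat_lit 1277165576) (nat_lit 2953838730) (.two (nat_lit 41943041) (nat_lit 20737688278) (.two (nat_lit 1048576) (nat_lit 8391749) (.one (nat_lit 10510930674) .nil))),
   .two (nat_lit 620757000) (nat_lit 28758245391) (.two (nat_lit 184549381) (nat_lit 158647451715) (.two (nat_lit 16777217) (nat_lit 9969861476) (.one (nat_lit 673190389) .nil))),
   .two (nat_lit 117440520) (nat_lit 142606380) (.two (nat_lit 612368389) (nat_lit 21223178757) (.two (nat_lit 50331649) (nat_lit 880804453) (.two (nat_lit 2097152) (nat_lit 166237047753) (.one (nat_lit 2350910965) .nil)))),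
   .two (nat_lit 50331656) (nat_lit 174755676295) (.two (nat_lit 50331649) (nat_lit 28793898033) (.two (nat_lit 8388608) (nat_lit 608176266) (.one (nat_lit 3024096701) .nil))),
   .two (nat_lit 713031688) (nat_lit 2332033072) (.two (nat_lit 285212677) (nat_lit 202375289) (.two (nat_lit 16777217) (nat_lit 37253808805) (.two (nat_lit 1048576) (nat_lit 166211881152) (.one (nat_lit 16782213) .nil)))),
   .two (nat_lit 169869320) (nat_lit 19029557273) (.two (nat_lit 169869316) (nat_lit 873463939) (.two (nat_lit 2097153) (nat_lit 873464431) (.two (nat_lit 4194304) (nat_lit 102762620) (.one (nat_lit 2317356791) .nil)))),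
   .two (nat_lit 3527409672) (nat_lit 10370416655) (.two (nat_lit 46409973765) (nat_lit 46474985593) (.two (nat_lit 50331649) (nat_lit 10336863619) (.one (nat_lit 1780485762) .nil))),
   .two (nat_lit 285212680) (nat_lit 13191086095) (.two (nat_lit 4194308) (nat_lit 822084180) (.two (nat_lit 4194304) (nat_lit 16779521) (.one (nat_lit 37249616423) .nil))),
   .two (nat_lit 16777224) (nat_lit 10506731535) (.two (nat_lit 16777220) (nat_lit 3527409728) (.two (nat_lit 9768534017) (nat_lit 11022632673) (.two (nat_lit 2097152) (nat_lit 1413484306) .nil))),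
   .two (nat_lit 16777224) (nat_lit 4598005879) (.two (nat_lit 16777217) (nat_lit 28089254249) (.two (nat_lit 16777216) (nat_lit 2319451449) (.one (nat_lit 4199303) .nil))),
   .two (nat_lit 2889875464) (nat_lit 47555018798) (.two (nat_lit 612368389) (nat_lit 4598005878) (.two (nat_lit 41943041) (nat_lit 21207449957) (.two (nat_lit 1048576) (nat_lit 2990541021) (.one (nat_lit 12117347799) .nil)))),
   .two (nat_lit 880803852) (nat_lit 11610882072) (.two (nat_lit 13195280389) (nat_lit 19026411639) (.two (nat_lit 41943041) (nat_lit 11006902631) (.two (nat_lit 8388608) (nat_lit 2987394436) (.one (nat_lit 158143090420) .nil)))),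
   .two (nat_lit 11479810056) (nat_lit 166230753326) (.two (nat_lit 8388613) (nat_lit 1176502390) (.two (nat_lit 8388609) (nat_lit 184417255783) (.two (nat_lit 4194304) (nat_lit 158647453716) (.one (nat_lit 4199304) .nil)))),
   .two (nat_lit 713031688) (nat_lit 2902458383) (.two (nat_lit 713031684) (nat_lit 183928619130) (.two (nat_lit 2097153) (nat_lit 4647291064) (.one (nat_lit 183913942453) .nil))),
   .two (nat_lit 169869320) (nat_lit 156367847448) (.two (nat_lit 169869316) (nat_lit 37748994) (.two (nat_lit 2097153) (nat_lit 708838053) (.two (nat_lit 16777216) (nat_lit 10001318755) (.one (nat_lit 1053577) .nil)))),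
   .two (nat_lit 176160776) (nat_lit 47548727311) (.two (nat_lit 1782579205) (nat_lit 21208498301) (.two (nat_lit 612368385) (nat_lit 10336862870) (.two (nat_lit 8388608) (nat_lit 37314627641) (.one (nat_lit 306188005) .nil)))),
   .two (nat_lit 16777224) (nat_lit 20644364406) (.two (nat_lit 8388609) (nat_lit 9798944952) (.one (nat_lit 2424311221) .nil)),
   .two (nat_lit 612368392) (nat_lit 2350907416) (.two (nat_lit 176160772) (nat_lit 2350907502) (.two (nat_lit 50331649) (nat_lit 3531604327) (.two (nat_lit 2097152) (nat_lit 165532403731) (.one (nat_lit 8393610) .nil)))),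
   .two (nat_lit 176160776) (nat_lit 1358954511) (.two (nat_lit 50331653) (nat_lit 19532873848) (.two (nat_lit 50331649) (nat_lit 13191086697) (.two (nat_lit 4194304) (nat_lit 16780360) (.one (nat_lit 4199307) .nil)))),
   .two (nat_lit 8388616) (nat_lit 10942939160) (.two (nat_lit 184993972229) (nat_lit 4634706172) (.two (nat_lit 9768534017) (nat_lit 20745028651) (.two (nat_lit 4194304) (nat_lit 8391753) (.one (nat_lit 8393612) .nil)))),
   .two (nat_lit 11559501832) (nat_lit 19596836879) (.two (nat_lit 183845781508) (nat_lit 1191182444) (.two (nat_lit 34603009) (nat_lit 822084893) (.one (nat_lit 174701153710) .nil))),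
   .two (nat_lit 46414168072) (nat_lit 605028487) (.two (nat_lit 605028353) (nat_lit 3458204011) (.two (nat_lit 8388608) (nat_lit 165525063011) (.one (nat_lit 2349862359) .nil))),
   .two (nat_lit 1277165576) (nat_lit 1947205657) (.two (nat_lit 713031685) (nat_lit 158176641161) (.two (nat_lit 16777217) (nat_lit 10376709168) (.two (nat_lit 16777216) (nat_lit 176164498) .nil))),
   .two (nat_lit 4194312) (nat_lit 156365750287) (.two (nat_lit 4194308) (nat_lit 166229705063) (.two (nat_lit 4194304) (nat_lit 68159511) (.one (nat_lit 1053583) .nil))),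
   .two (nat_lit 2416967692) (nat_lit 117440527) (.two (nat_lit 1745879045) (nat_lit 1191182448) (.two (nat_lit 605028353) (nat_lit 10921968941) (.one (nat_lit 16782225) .nil))),
   .two (nat_lit 8388616) (nat_lit 158075977743) (.two (nat_lit 713031685) (nat_lit 185020186865) (.two (nat_lit 41943041) (nat_lit 185020186982) (.two (nat_lit 1048576) (nat_lit 47588575325) (.one (nat_lit 739250755) .nil)))),
   .two (nat_lit 9934209032) (nat_lit 157038936177) (.two (nat_lit 2097153) (nat_lit 742393184) (.one (nat_lit 4199314) .nil)),
   .two (nat_lit 11543773192) (nat_lit 158177689624) (.two (nat_lit 12047089669) (nat_lit 1210057063) (.two (nat_lit 1048576) (nat_lit 12115248433) (.one (nat_lit 10538192661) .nil))),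
   .two (nat_lit 169869320) (nat_lit 10540285976) (.two (nat_lit 1276116996) (nat_lit 1346371705) (.two (nat_lit 606076929) (nat_lit 1779434163) (.two (nat_lit 2097152) (nat_lit 1051725) (.one (nat_lit 9934212597) .nil)))),
   .two (nat_lit 11007950860) (nat_lit 75497487) (.two (nat_lit 10336862213) (nat_lit 10007609460) (.two (nat_lit 50331649) (nat_lit 185027527328) (.two (nat_lit 16777216) (nat_lit 20745031194) .nil))),
   .two (nat_lit 11476664328) (nat_lit 339738870) (.two (nat_lit 2097153) (nat_lit 1849688692) (.two (nat_lit 2097152) (nat_lit 4030727503) (.one (nat_lit 174685426053) .nil))),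
   .two (nat_lit 9766436872) (nat_lit 157035790361) (.two (nat_lit 34603013) (nat_lit 2927624259) (.two (nat_lit 2097153) (nat_lit 269484655) (.two (nat_lit 8388608) (nat_lit 159217878416) (.one (nat_lit 11014246075) .nil)))),
   .two (nat_lit 11559501832) (nat_lit 46414168079) (.two (nat_lit 721420292) (nat_lit 18933088323) (.two (nat_lit 8388609) (nat_lit 1862271608) (.two (nat_lit 4194304) (nat_lit 10351545976) .nil))),
   .two (nat_lit 176160776) (nat_lit 166197198968) (.two (nat_lit 8388609) (nat_lit 156466413929) (.two (nat_lit 8388608) (nat_lit 3021997388) (.one (nat_lit 2102163) .nil))),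
   .two (nat_lit 8388616) (nat_lit 822083599) (.two (nat_lit 16777220) (nat_lit 880804197) (.two (nat_lit 16777216) (nat_lit 2357200246) (.one (nat_lit 75502346) .nil))),
   .two (nat_lit 169869320) (nat_lit 10506731535) (.two (nat_lit 2097157) (nat_lit 3527409778) (.two (nat_lit 2097153) (nat_lit 1178600065) (.two (nat_lit 2097152) (nat_lit 9902753093) (.one (nat_lit 12147756677) .nil)))),
   .two (nat_lit 184549384) (nat_lit 1377828983) (.two (nat_lit 16777217) (nat_lit 11611932035) (.one (nat_lit 157035792909) .nil)),
   .two (nat_lit 12117344264) (nat_lit 12047089679) (.two (nat_lit 184986632197) (nat_lit 12117344320) (.two (nat_lit 34603009) (nat_lit 165528208691) (.one (nat_lit 675286694) .nil))),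
   .two (nat_lit 843055116) (nat_lit 41943055) (.two (nat_lit 8388612) (nat_lit 3527409789) (.two (nat_lit 50331649) (nat_lit 156468512079) (.one (nat_lit 641732238) .nil))),
   .two (nat_lit 620757000) (nat_lit 11479810063) (.two (nat_lit 184549381) (nat_lit 2420113528) (.two (nat_lit 16777217) (nat_lit 166232850791) (.two (nat_lit 16777216) (nat_lit 4634708109) (.one (nat_lit 10372518795) .nil)))),
   .two (nat_lit 1779433480) (nat_lit 1191182361) (.two (nat_lit 2902458373) (nat_lit 21811429511) (.two (nat_lit 605028353) (nat_lit 158183981699) (.two (nat_lit 1048576) (nat_lit 1317012877) (.one (nat_lit 8393628) .nil)))),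
   .two (nat_lit 50331656) (nat_lit 10370416664) (.two (nat_lit 16777220) (nat_lit 9974055168) (.two (nat_lit 8388609) (nat_lit 184550066) (.two (nat_lit 16777216) (nat_lit 8392065) (.one (nat_lit 11584672421) .nil)))),
   .two (nat_lit 612368392) (nat_lit 12047089679) (.two (nat_lit 2954887173) (nat_lit 46473937017) (.two (nat_lit 2097153) (nat_lit 9966716853) (.two (nat_lit 16777216) (nat_lit 11484007318) (.one (nat_lit 2102173) .nil)))),
   .two (nat_lit 2416967693) (nat_lit 183846830182) (.two (nat_lit 69206021) (nat_lit 2416967795) (.two (nat_lit 37748737) (nat_lit 156968682113) (.two (nat_lit 1048576) (nat_lit 156969733133) (.one (nat_lit 9867105100) .nil)))),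
   .two (nat_lit 13237223437) (nat_lit 21777874959) (.two (nat_lit 822083589) (nat_lit 11006902391) (.two (nat_lit 50331649) (nat_lit 12114199917) (.one (nat_lit 37246472737) .nil))),
   .two (nat_lit 174752530445) (nat_lit 9768534031) (.two (nat_lit 1178599429) (nat_lit 166196150387) (.two (nat_lit 16777217) (nat_lit 46977254726) (.one (nat_lit 4199328) .nil))),
   .two (nat_lit 2961178632) (nat_lit 158192369688) (.two (nat_lit 176160773) (nat_lit 13203669118) (.two (nat_lit 34603009) (nat_lit 158649550992) (.one (nat_lit 4199331) .nil))),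
   .two (nat_lit 158176641037) (nat_lit 184419352691) (.two (nat_lit 34603009) (nat_lit 843057665) .nil),
   .two (nat_lit 185020186636) (nat_lit 3464495119) (.two (nat_lit 47555018757) (nat_lit 185020186741) (.two (nat_lit 156372041729) (nat_lit 13221497379) .nil)),
   .two (nat_lit 10907287565) (nat_lit 2969567247) (.two (nat_lit 165526110213) (nat_lit 654311534) (.two (nat_lit 2097153) (nat_lit 184550693) (.one (nat_lit 16782244) .nil))),
   .two (nat_lit 1277165576) (nat_lit 11584667691) (.two (nat_lit 9934209029) (nat_lit 343933484) (.two (nat_lit 606076929) (nat_lit 11618222693) (.two (nat_lit 2097152) (nat_lit 10343155951) (.one (nat_lit 20638076442) .nil)))),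
   .two (nat_lit 272629768) (nat_lit 13188988971) (.two (nat_lit 4194308) (nat_lit 13222543642) (.two (nat_lit 4194305) (nat_lit 2317354044) (.two (nat_lit 4194304) (nat_lit 706743680) (.one (nat_lit 4030729754) .nil)))),
   .two (nat_lit 16777224) (nat_lit 13195280399) (.two (nat_lit 8388612) (nat_lit 50331843) (.two (nat_lit 8388608) (nat_lit 159232559160) (.one (nat_lit 46489669286) .nil))),
   .two (nat_lit 272629768) (nat_lit 10939793432) (.two (nat_lit 4194308) (nat_lit 605028471) (.two (nat_lit 16777217) (nat_lit 13221496134) (.one (nat_lit 1053606) .nil))),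
   .two (nat_lit 2416967692) (nat_lit 166230753347) (.two (nat_lit 605028353) (nat_lit 10538189667) (.one (nat_lit 158077029834) .nil)),
   .two (nat_lit 41943048) (nat_lit 165526110223) (.two (nat_lit 8388612) (nat_lit 10336862321) (.two (nat_lit 8388609) (nat_lit 840958575) (.two (nat_lit 16777216) (nat_lit 2099640) (.one (nat_lit 2102200) .nil)))),
   .two (nat_lit 169869320) (nat_lit 157038936079) (.two (nat_lit 2097157) (nat_lit 2420113540) (.two (nat_lit 34603009) (nat_lit 156535620314) (.two (nat_lit 2097152) (nat_lit 1049473) (.one (nat_lit 1053625) .nil)))),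
   .two (nat_lit 4605345798) (nat_lit 620757007) (.two (nat_lit 620756999) (nat_lit 3531603979) (.two (nat_lit 46414168066) (nat_lit 184431935616) (.two (nat_lit 46414168068) (nat_lit 889192485) (.two (nat_lit 8388609) (nat_lit 218104017) (.two (nat_lit 8388608) (nat_lit 166144770928) (.one (nat_lit 16782266) .nil)))))),
   .two (nat_lit 46414168072) (nat_lit 183949590552) (.two (nat_lit 183848927236) (nat_lit 343933043) (.two (nat_lit 37748737) (nat_lit 20711473355) (.two (nat_lit 4194304) (nat_lit 8391097) (.one (nat_lit 8392524) .nil)))),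
   .two (nat_lit 10385096712) (nat_lit 339738647) (.two (nat_lit 4194308) (nat_lit 117440579) (.two (nat_lit 4194305) (nat_lit 157051519336) (.two (nat_lit 16777216) (nat_lit 46980402547) (.one (nat_lit 4198223) .nil)))),
   .two (nat_lit 46978301960) (nat_lit 37249613848) (.two (nat_lit 174755676165) (nat_lit 174686470211) (.two (nat_lit 2097153) (nat_lit 620758101) (.two (nat_lit 4194304) (nat_lit 3021996901) (.one (nat_lit 16781136) .nil)))),
   .two (nat_lit 158649548810) (nat_lit 13195280399) (.two (nat_lit 708837381) (nat_lit 183853121652) (.two (nat_lit 4194305) (nat_lit 158653743806) (.two (nat_lit 4194304) (nat_lit 8392061) (.one (nat_lit 8393659) .nil)))),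
   .two (nat_lit 10343153677) (nat_lit 9934209039) (.two (nat_lit 10343153669) (nat_lit 37247516919) (.two (nat_lit 2097153) (nat_lit 11484004721) (.two (nat_lit 8388608) (nat_lit 2100624) (.one (nat_lit 8392529) .nil)))),
   .two (nat_lit 1209008138) (nat_lit 28093448232) (.two (nat_lit 46414168072) (nat_lit 21814575126) (.two (nat_lit 171966469) (nat_lit 3464495215) (.two (nat_lit 4194305) (nat_lit 28093448805) (.two (nat_lit 1048576) (nat_lit 4638901096) (.one (nat_lit 8393660) .nil))))),
   .two (nat_lit 169869320) (nat_lit 159224168488) (.two (nat_lit 2097157) (nat_lit 46984593664) (.two (nat_lit 2097153) (nat_lit 645923300) (.two (nat_lit 1048576) (nat_lit 2921333198) (.one (nat_lit 2102205) .nil)))),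
   .two (nat_lit 2954887176) (nat_lit 713031724) (.two (nat_lit 46414168069) (nat_lit 1914699815) (.two (nat_lit 809500677) (nat_lit 2961178698) (.two (nat_lit 9768534017) (nat_lit 2927624401) (.two (nat_lit 4194304) (nat_lit 8391099) (.one (nat_lit 4198229) .nil))))),
   .two (nat_lit 20644364296) (nat_lit 9934209039) (.two (nat_lit 169869316) (nat_lit 4638900300) (.two (nat_lit 159224168453) (nat_lit 11477712977) (.two (nat_lit 156372041729) (nat_lit 236978385) (.two (nat_lit 8388608) (nat_lit 2099644) (.one (nat_lit 8393662) .nil))))),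
   .two (nat_lit 183845781512) (nat_lit 11546918957) (.two (nat_lit 13187940357) (nat_lit 1312817278) (.two (nat_lit 9768534017) (nat_lit 159250384006) (.two (nat_lit 1048576) (nat_lit 2099645) (.one (nat_lit 1053631) .nil)))),
   .two (nat_lit 28758245384) (nat_lit 28690087957) (.two (nat_lit 156968681477) (nat_lit 174753579045) (.two (nat_lit 1277165573) (nat_lit 1846542357) (.two (nat_lit 34603009) (nat_lit 69206218) (.two (nat_lit 1048576) (nat_lit 1411383758) (.one (nat_lit 2102556) .nil))))),
   .two (nat_lit 166130089992) (nat_lit 19532873743) (.two (nat_lit 10504634373) (nat_lit 37748998) (.two (nat_lit 9768534017) (nat_lit 773850185) (.two (nat_lit 4194304) (nat_lit 185021237263) (.one (nat_lit 2102208) .nil)))),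
   .two (nat_lit 158083317768) (nat_lit 19596836879) (.two (nat_lit 183845781508) (nat_lit 20644364402) (.two (nat_lit 34603009) (nat_lit 9806283426) (.two (nat_lit 1048576) (nat_lit 28697429392) (.one (nat_lit 880806457) .nil)))),
   .two (nat_lit 156365750280) (nat_lit 166132187151) (.two (nat_lit 10506731525) (nat_lit 639631482) (.two (nat_lit 2097153) (nat_lit 620758101) (.two (nat_lit 2097152) (nat_lit 16779864) (.one (nat_lit 16779864) .nil)))),
   .two (nat_lit 68157448) (nat_lit 1795162127) (.two (nat_lit 605028357) (nat_lit 3573547128) (.two (nat_lit 34603009) (nat_lit 16777598) (.two (nat_lit 1048576) (nat_lit 16779713) (.one (nat_lit 16782273) .nil)))),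
   .two (nat_lit 46984593416) (nat_lit 4601151503) (.two (nat_lit 3531603973) (nat_lit 11513364547) (.two (nat_lit 8388609) (nat_lit 2956984416) (.two (nat_lit 8388608) (nat_lit 166132189633) (.one (nat_lit 4199362) .nil)))),
   .two (nat_lit 11626610701) (nat_lit 101711887) (.two (nat_lit 721420293) (nat_lit 46473936968) (.two (nat_lit 721420293) (nat_lit 10335813701) (.two (nat_lit 16777217) (nat_lit 1048952) (.two (nat_lit 16777216) (nat_lit 2099650) (.one (nat_lit 2102211) .nil))))),
   .two (nat_lit 101711880) (nat_lit 174753579023) (.two (nat_lit 20638072836) (nat_lit 18925748346) (.two (nat_lit 606076929) (nat_lit 235929977) (.two (nat_lit 1048576) (nat_lit 2098605) (.one (nat_lit 1746931462) .nil)))),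
   .two (nat_lit 46984593416) (nat_lit 1212153896) (.two (nat_lit 4601151493) (nat_lit 2357198980) (.two (nat_lit 8388609) (nat_lit 11614028433) (.two (nat_lit 8388608) (nat_lit 641730599) (.one (nat_lit 4198237) .nil)))),
   .two (nat_lit 50331656) (nat_lit 9766436879) (.two (nat_lit 8388612) (nat_lit 156365750380) (.two (nat_lit 8388609) (nat_lit 69207138) (.two (nat_lit 8388608) (nat_lit 9814672781) (.one (nat_lit 8392543) .nil)))),
   .two (nat_lit 1753219084) (nat_lit 174688567347) (.two (nat_lit 2994733069) (nat_lit 1379926038) (.two (nat_lit 171966469) (nat_lit 165532401779) (.two (nat_lit 37748737) (nat_lit 184993973345) (.two (nat_lit 4194304) (nat_lit 8390079) (.one (nat_lit 8393669) .nil))))),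
   .two (nat_lit 612368392) (nat_lit 20638072847) (.two (nat_lit 176160772) (nat_lit 9967763569) (.two (nat_lit 8388609) (nat_lit 2418016453) (.two (nat_lit 2097152) (nat_lit 19537068912) (.one (nat_lit 2101090) .nil)))),
   .two (nat_lit 336592906) (nat_lit 156971827215) (.two (nat_lit 28757196805) (nat_lit 11479810170) (.two (nat_lit 9765388289) (nat_lit 339739326) (.two (nat_lit 1048576) (nat_lit 4197758) (.one (nat_lit 28693237563) .nil)))),
   .two (nat_lit 713031688) (nat_lit 10336862232) (.two (nat_lit 50331653) (nat_lit 10370416753) (.two (nat_lit 50331649) (nat_lit 840958576) (.two (nat_lit 16777216) (nat_lit 185021236663) (.one (nat_lit 8393653) .nil)))),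
   .two (nat_lit 157036838920) (nat_lit 183848927276) (.two (nat_lit 3527409669) (nat_lit 639631482) (.two (nat_lit 2097153) (nat_lit 3003122724) (.two (nat_lit 2097152) (nat_lit 16779864) (.one (nat_lit 16779864) .nil)))),
   .two (nat_lit 11543773192) (nat_lit 1795162127) (.two (nat_lit 705691652) (nat_lit 117440625) (.two (nat_lit 34603009) (nat_lit 184550122) (.two (nat_lit 1048576) (nat_lit 16779719) (.one (nat_lit 16782278) .nil)))),
   .two (nat_lit 46507491338) (nat_lit 1916796943) (.two (nat_lit 1916796935) (nat_lit 168820758) (.two (nat_lit 20637024258) (nat_lit 12117344370) (.two (nat_lit 21777874949) (nat_lit 2420113445) (.two (nat_lit 605028353) (nat_lit 47550824647) (.two (nat_lit 1048576) (nat_lit 2990539637) (.one (nat_lit 2990541384) .nil)))))),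
   .two (nat_lit 34603014) (nat_lit 4605345807) (.two (nat_lit 11543773192) (nat_lit 4605345803) (.two (nat_lit 183853121538) (nat_lit 183912890479) (.two (nat_lit 705691652) (nat_lit 4605345827) (.two (nat_lit 41943041) (nat_lit 12617515212) (.two (nat_lit 8388608) (nat_lit 12617515894) (.one (nat_lit 1052519) .nil)))))),
   .two (nat_lit 203423752) (nat_lit 18928893967) (.two (nat_lit 2887778308) (nat_lit 9802088515) (.two (nat_lit 37748737) (nat_lit 2350907764) (.two (nat_lit 4194304) (nat_lit 184987682217) (.one (nat_lit 4199367) .nil)))),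
   .two (nat_lit 809500680) (nat_lit 10343153679) (.two (nat_lit 4194308) (nat_lit 3464495215) (.two (nat_lit 4194305) (nat_lit 28093448805) (.two (nat_lit 4194304) (nat_lit 4638901096) (.one (nat_lit 8393647) .nil)))),
   .two (nat_lit 50331654) (nat_lit 739246095) (.two (nat_lit 176160776) (nat_lit 50331659) (.two (nat_lit 721420292) (nat_lit 185020186691) (.two (nat_lit 50331649) (nat_lit 11006902632) (.two (nat_lit 8388608) (nat_lit 1050049) (.one (nat_lit 235930599) .nil))))),
   .two (nat_lit 4605345800) (nat_lit 2889875467) (.two (nat_lit 4194308) (nat_lit 3464495215) (.two (nat_lit 4194305) (nat_lit 21785215434) (.two (nat_lit 4194304) (nat_lit 10376708583) (.one (nat_lit 8392505) .nil)))),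
   .two (nat_lit 75497480) (nat_lit 4599054361) (.two (nat_lit 46407876612) (nat_lit 612368451) (.two (nat_lit 156365750273) (nat_lit 183853121741) (.two (nat_lit 8388608) (nat_lit 337645373) (.one (nat_lit 337645373) .nil)))),
   .two (nat_lit 3525312520) (nat_lit 10506731560) (.two (nat_lit 46407876612) (nat_lit 1312817278) (.two (nat_lit 156367847425) (nat_lit 2921332938) (.two (nat_lit 4194304) (nat_lit 2098070) (.one (nat_lit 2101098) .nil)))),
   .two (nat_lit 713031688) (nat_lit 10336862223) (.two (nat_lit 612368389) (nat_lit 2350907524) (.two (nat_lit 612368385) (nat_lit 13222544055) (.two (nat_lit 8388608) (nat_lit 2099656) (.one (nat_lit 8393674) .nil)))),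
   .two (nat_lit 4605345798) (nat_lit 620757007) (.two (nat_lit 620756999) (nat_lit 3531603979) (.two (nat_lit 46414168066) (nat_lit 83886196) (.two (nat_lit 46414168068) (nat_lit 50331685) (.two (nat_lit 8388609) (nat_lit 21793603784) (.two (nat_lit 8388608) (nat_lit 16778137) (.one (nat_lit 16782283) .nil)))))),
   .two (nat_lit 184549384) (nat_lit 1178599439) (.two (nat_lit 16777221) (nat_lit 156468510791) (.two (nat_lit 16777221) (nat_lit 608174161) (.two (nat_lit 612368385) (nat_lit 21814575728) (.two (nat_lit 8388608) (nat_lit 19042142223) (.one (nat_lit 16781171) .nil))))),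
   .two (nat_lit 171966470) (nat_lit 10504634383) (.two (nat_lit 4194308) (nat_lit 157036838949) (.two (nat_lit 4194308) (nat_lit 46508539924) (.two (nat_lit 4194305) (nat_lit 28691136610) (.two (nat_lit 4194304) (nat_lit 1210057724) (.one (nat_lit 2102220) .nil))))),
   .two (nat_lit 2954887176) (nat_lit 1291845647) (.two (nat_lit 169869316) (nat_lit 654311491) (.two (nat_lit 606076929) (nat_lit 3539993702) (.two (nat_lit 2097152) (nat_lit 47596962689) (.one (nat_lit 47596966841) .nil)))),
   .two (nat_lit 83886088) (nat_lit 9866051599) (.two (nat_lit 11492392964) (nat_lit 183912890493) (.two (nat_lit 9765388289) (nat_lit 183928619210) (.two (nat_lit 1048576) (nat_lit 183861511062) (.one (nat_lit 183962177330) .nil)))),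
   .two (nat_lit 183845781512) (nat_lit 159224168463) (.two (nat_lit 34603013) (nat_lit 10343153701) (.two (nat_lit 34603013) (nat_lit 3464495122) (.two (nat_lit 2097153) (nat_lit 183845781700) (.two (nat_lit 1048576) (nat_lit 47588573412) (.one (nat_lit 1053645) .nil))))),
   .two (nat_lit 606076936) (nat_lit 1753219112) (.two (nat_lit 169869316) (nat_lit 1753219187) (.two (nat_lit 2097153) (nat_lit 159224169557) (.two (nat_lit 2097152) (nat_lit 4195788) (.one (nat_lit 8392568) .nil)))),
   .two (nat_lit 47548727304) (nat_lit 209715245) (.two (nat_lit 3458203653) (nat_lit 156472705150) (.two (nat_lit 606076929) (nat_lit 746587387) (.two (nat_lit 8388608) (nat_lit 10907288024) (.one (nat_lit 8393678) .nil)))),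
   .two (nat_lit 18925748232) (nat_lit 158083317775) (.two (nat_lit 156364701701) (nat_lit 20644364402) (.two (nat_lit 34603009) (nat_lit 37253808756) (.two (nat_lit 1048576) (nat_lit 37262199180) (.one (nat_lit 8393679) .nil)))),
   .two (nat_lit 2988441612) (nat_lit 276824112) (.two (nat_lit 2954887173) (nat_lit 156372041865) (.two (nat_lit 612368385) (nat_lit 1948254411) (.two (nat_lit 4194304) (nat_lit 4599055807) (.one (nat_lit 2101118) .nil)))),
   .two (nat_lit 183845781512) (nat_lit 1358954511) (.two (nat_lit 4599054341) (nat_lit 9881780341) (.two (nat_lit 2097153) (nat_lit 2902459034) (.two (nat_lit 2097152) (nat_lit 16778702) (.one (nat_lit 740299712) .nil)))),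
   .two (nat_lit 2954887176) (nat_lit 12163481622) (.two (nat_lit 285212677) (nat_lit 1277165635) (.two (nat_lit 16777217) (nat_lit 773849826) (.two (nat_lit 16777216) (nat_lit 12115247584) (.one (nat_lit 2102224) .nil)))),
   .two (nat_lit 12050235400) (nat_lit 13221494829) (.two (nat_lit 639631365) (nat_lit 20704133249) (.two (nat_lit 9766436865) (nat_lit 156364703509) (.two (nat_lit 1048576) (nat_lit 2099660) (.one (nat_lit 1053649) .nil)))),
   .two (nat_lit 10385096719) (nat_lit 1847591026) (.two (nat_lit 10504634373) (nat_lit 1795162978) (.two (nat_lit 2097152) (nat_lit 21223182232) .nil)),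
   .two (nat_lit 2969567247) (nat_lit 157036838927) (.two (nat_lit 157036838920) (nat_lit 218103875) (.two (nat_lit 19530776581) (nat_lit 654311782) (.two (nat_lit 2097153) (nat_lit 9781118246) (.two (nat_lit 2097152) (nat_lit 9781119537) (.one (nat_lit 1426068489) .nil))))),
   .two (nat_lit 721420303) (nat_lit 1753219087) (.two (nat_lit 1753219080) (nat_lit 46992982135) (.two (nat_lit 183853121540) (nat_lit 13237224098) (.two (nat_lit 41943041) (nat_lit 11559503389) (.one (nat_lit 16782475) .nil)))),
   .two (nat_lit 10385096719) (nat_lit 13195280399) (.two (nat_lit 8388616) (nat_lit 16777334) (.two (nat_lit 8388612) (nat_lit 19109249652) (.two (nat_lit 41943041) (nat_lit 83888653) (.one (nat_lit 306189266) .nil)))),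
   .two (nat_lit 2969567247) (nat_lit 1753219139) (.two (nat_lit 184549380) (nat_lit 28093449058) (.two (nat_lit 8388608) (nat_lit 46992986008) .nil)),
   .two (nat_lit 20644364303) (nat_lit 19532873753) (.two (nat_lit 641728520) (nat_lit 9948889204) (.two (nat_lit 612368389) (nat_lit 10955522718) (.two (nat_lit 41943041) (nat_lit 876610864) (.two (nat_lit 4194304) (nat_lit 2365590977) (.one (nat_lit 18941480849) .nil))))),
   .two (nat_lit 754974735) (nat_lit 47555018767) (.two (nat_lit 612368392) (nat_lit 11022631272) (.two (nat_lit 8388609) (nat_lit 16779382) (.two (nat_lit 8388608) (nat_lit 150998596) (.one (nat_lit 4034925687) .nil)))),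
   .two (nat_lit 1795162127) (nat_lit 3531604100) (.two (nat_lit 176160772) (nat_lit 3472884580) (.two (nat_lit 4194304) (nat_lit 10343155229) (.one (nat_lit 2923434969) .nil))),
   .two (nat_lit 9881780239) (nat_lit 183953784858) (.two (nat_lit 156372041736) (nat_lit 1916796995) (.two (nat_lit 1283457029) (nat_lit 156581757629) (.two (nat_lit 8388609) (nat_lit 156468511587) (.two (nat_lit 4194304) (nat_lit 37262199314) (.one (nat_lit 83891192) .nil))))),
   .two (nat_lit 11479810063) (nat_lit 11559501888) (.two (nat_lit 11492392964) (nat_lit 12117344451) (.two (nat_lit 50331649) (nat_lit 19599983996) (.two (nat_lit 16777216) (nat_lit 158179790245) (.one (nat_lit 184419356584) .nil)))),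
   .two (nat_lit 156367847439) (nat_lit 20644364400) (.two (nat_lit 21785214981) (nat_lit 157038936930) (.two (nat_lit 8388608) (nat_lit 71307161) .nil)),
   .two (nat_lit 166132187151) (nat_lit 2902458392) (.two (nat_lit 2969567240) (nat_lit 2927624314) (.two (nat_lit 184549380) (nat_lit 20711473515) (.two (nat_lit 16777217) (nat_lit 641730660) (.two (nat_lit 4194304) (nat_lit 9906948628) (.one (nat_lit 10947138686) .nil))))),
   .two (nat_lit 2902458383) (nat_lit 9802088563) (.two (nat_lit 13191086085) (nat_lit 218104674) (.two (nat_lit 4194304) (nat_lit 166245437353) .nil)),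
   .two (nat_lit 41943055) (nat_lit 37249613936) (.two (nat_lit 8388612) (nat_lit 37262197440) (.two (nat_lit 8388609) (nat_lit 156468511587) (.two (nat_lit 16777216) (nat_lit 3460304775) .nil))),
   .two (nat_lit 285212687) (nat_lit 9869197445) (.two (nat_lit 28760342533) (nat_lit 218104414) (.two (nat_lit 612368385) (nat_lit 218105122) (.two (nat_lit 4194304) (nat_lit 10519317926) (.one (nat_lit 713035655) .nil)))),
   .two (nat_lit 822083599) (nat_lit 156468510786) (.two (nat_lit 1916796933) (nat_lit 754975326) (.two (nat_lit 9768534017) (nat_lit 754976034) (.two (nat_lit 4194304) (nat_lit 721423944) (.one (nat_lit 876614726) .nil)))),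
   .two (nat_lit 721420303) (nat_lit 183953784951) (.two (nat_lit 158150426629) (nat_lit 1358955363) (.two (nat_lit 4194304) (nat_lit 1358956062) (.one (nat_lit 46510642291) .nil))),
   .two (nat_lit 183853121551) (nat_lit 28693233679) (.two (nat_lit 28693233672) (nat_lit 243269754) (.two (nat_lit 1916796933) (nat_lit 21785215628) (.two (nat_lit 9766436865) (nat_lit 10913580364) (.two (nat_lit 2097152) (nat_lit 184993973789) (.one (nat_lit 847254508) .nil))))),
   .two (nat_lit 184423546895) (nat_lit 9881780341) (.two (nat_lit 12121538565) (nat_lit 9881780832) (.two (nat_lit 16777217) (nat_lit 4028630339) (.two (nat_lit 2097152) (nat_lit 16780873) (.one (nat_lit 2102412) .nil)))),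
   .two (nat_lit 1291845647) (nat_lit 772800637) (.two (nat_lit 1291845636) (nat_lit 19596837554) (.two (nat_lit 9781116929) (nat_lit 772802678) (.two (nat_lit 16777216) (nat_lit 10000272836) (.one (nat_lit 9933165672) .nil)))),
   .two (nat_lit 2969567247) (nat_lit 11517558906) (.two (nat_lit 184549380) (nat_lit 47555019404) (.two (nat_lit 16777217) (nat_lit 2420114823) (.two (nat_lit 4194304) (nat_lit 780143131) (.one (nat_lit 157038941285) .nil)))),
   .two (nat_lit 285212687) (nat_lit 12054429711) (.two (nat_lit 285212680) (nat_lit 12054429833) (.two (nat_lit 16777220) (nat_lit 11484004984) (.two (nat_lit 41943041) (nat_lit 20719863092) (.two (nat_lit 1048576) (nat_lit 9906948635) (.one (nat_lit 8393869) .nil))))),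
   .two (nat_lit 9781116943) (nat_lit 19532873743) (.two (nat_lit 159232557064) (nat_lit 28764537092) (.two (nat_lit 166132187140) (nat_lit 11559502461) (.two (nat_lit 50331649) (nat_lit 1182795097) (.two (nat_lit 4194304) (nat_lit 16780874) (.one (nat_lit 876614652) .nil))))),
   .two (nat_lit 41943055) (nat_lit 285212736) (.two (nat_lit 16777220) (nat_lit 13195280579) (.two (nat_lit 16777217) (nat_lit 10443818288) (.two (nat_lit 16777216) (nat_lit 8392267) (.one (nat_lit 10921971592) .nil)))),
   .two (nat_lit 10343153679) (nat_lit 218103833) (.two (nat_lit 47563407368) (nat_lit 3464495214) (.two (nat_lit 8388613) (nat_lit 47596961987) (.two (nat_lit 8388609) (nat_lit 654312833) (.two (nat_lit 1048576) (nat_lit 21827161548) (.one (nat_lit 11577331596) .nil))))),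
   .two (nat_lit 184549391) (nat_lit 10343153679) (.two (nat_lit 10385096712) (nat_lit 2316304521) (.two (nat_lit 2894069765) (nat_lit 2969567427) (.two (nat_lit 41943041) (nat_lit 788530475) (.two (nat_lit 1048576) (nat_lit 16780876) (.one (nat_lit 336596881) .nil))))),
   .two (nat_lit 2969567247) (nat_lit 1753219087) (.two (nat_lit 18933088264) (nat_lit 156581757050) (.two (nat_lit 183853121540) (nat_lit 20652753259) (.two (nat_lit 41943041) (nat_lit 654312989) (.one (nat_lit 16781227) .nil)))),
   .two (nat_lit 50331663) (nat_lit 166136381564) (.two (nat_lit 1913651205) (nat_lit 251658883) (.two (nat_lit 156364701697) (nat_lit 28806481231) (.two (nat_lit 1048576) (nat_lit 16780877) (.one (nat_lit 4027585534) .nil)))),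
   .two (nat_lit 3539992600) (nat_lit 174686470168) (.two (nat_lit 2902458376) (nat_lit 337641600) (.two (nat_lit 2902458372) (nat_lit 184987681128) (.two (nat_lit 16777217) (nat_lit 166197200206) (.two (nat_lit 2097152) (nat_lit 9814674853) (.one (nat_lit 1411387274) .nil))))),
   .two (nat_lit 117440527) (nat_lit 156535619699) (.two (nat_lit 620756997) (nat_lit 9974055107) (.two (nat_lit 8388609) (nat_lit 184989780017) (.two (nat_lit 4194304) (nat_lit 1384122896) (.one (nat_lit 4199566) .nil)))),
   .two (nat_lit 41943055) (nat_lit 2902458482) (.two (nat_lit 2969567237) (nat_lit 4605346659) (.two (nat_lit 16777216) (nat_lit 4605347358) (.one (nat_lit 1392512915) .nil))),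
   .two (nat_lit 10385096719) (nat_lit 12054429809) (.two (nat_lit 654311429) (nat_lit 1753219430) (.two (nat_lit 620756993) (nat_lit 1753220637) (.one (nat_lit 8392620) .nil))),
   .two (nat_lit 9881780239) (nat_lit 3458203663) (.two (nat_lit 1795162120) (nat_lit 10907287619) (.two (nat_lit 1291845636) (nat_lit 46508540607) (.two (nat_lit 2097153) (nat_lit 1358956062) (.one (nat_lit 16782479) .nil)))),
   .two (nat_lit 156367847439) (nat_lit 10519314557) (.two (nat_lit 708837381) (nat_lit 50331843) (.two (nat_lit 4194305) (nat_lit 203424612) (.two (nat_lit 4194304) (nat_lit 16780878) (.one (nat_lit 270536592) .nil)))),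
   .two (nat_lit 285212687) (nat_lit 156367847439) (.two (nat_lit 156367847432) (nat_lit 13237223619) (.two (nat_lit 4194305) (nat_lit 185035917328) (.two (nat_lit 2097152) (nat_lit 37262199301) (.one (nat_lit 28101841908) .nil)))),
   .two (nat_lit 18933088271) (nat_lit 1916796995) (.two (nat_lit 19599982597) (nat_lit 12054430563) (.two (nat_lit 4194304) (nat_lit 12054431262) (.one (nat_lit 21781025789) .nil))),
   .two (nat_lit 276824079) (nat_lit 156380430474) (.two (nat_lit 8388612) (nat_lit 10369368423) (.two (nat_lit 2097153) (nat_lit 873465171) (.two (nat_lit 8388608) (nat_lit 303041073) (.one (nat_lit 2953843723) .nil)))),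
   .two (nat_lit 20644364303) (nat_lit 10940841999) (.two (nat_lit 10940841992) (nat_lit 20644364354) (.two (nat_lit 174753579013) (nat_lit 165532402530) (.two (nat_lit 2097152) (nat_lit 109054473) (.one (nat_lit 1350571149) .nil)))),
   .two (nat_lit 50331663) (nat_lit 18933088271) (.two (nat_lit 285212680) (nat_lit 612368647) (.two (nat_lit 2902458372) (nat_lit 639632036) (.two (nat_lit 41943041) (nat_lit 46523222557) (.one (nat_lit 8393872) .nil)))),
   .two (nat_lit 2902458383) (nat_lit 156971827313) (.two (nat_lit 183848927236) (nat_lit 654312291) (.two (nat_lit 4194304) (nat_lit 889196437) .nil)),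
   .two (nat_lit 159232557071) (nat_lit 165526110223) (.two (nat_lit 1929379848) (nat_lit 183848927342) (.two (nat_lit 708837381) (nat_lit 50331843) (.two (nat_lit 606076929) (nat_lit 2365588811) (.two (nat_lit 8388608) (nat_lit 203427727) .nil)))),
   .two (nat_lit 46407876623) (nat_lit 18933088271) (.two (nat_lit 183845781512) (nat_lit 11584667783) (.two (nat_lit 28093448197) (nat_lit 28087157364) (.two (nat_lit 41943041) (nat_lit 47582284301) (.one (nat_lit 8393873) .nil)))),
   .two (nat_lit 12617515031) (nat_lit 28691136536) (.two (nat_lit 203423752) (nat_lit 185020186749) (.two (nat_lit 20637024260) (nat_lit 46474985667) (.two (nat_lit 605028353) (nat_lit 20638075402) (.one (nat_lit 3557822352) .nil)))),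
   .two (nat_lit 46407876623) (nat_lit 37748869) (.two (nat_lit 19532873733) (nat_lit 638583143) (.two (nat_lit 156365750273) (nat_lit 10506734107) (.one (nat_lit 4199570) .nil))),
   .two (nat_lit 46980399119) (nat_lit 28093448216) (.two (nat_lit 156367847432) (nat_lit 20644364354) (.two (nat_lit 10343153669) (nat_lit 166132187494) (.two (nat_lit 612368385) (nat_lit 2956985730) (.two (nat_lit 8388608) (nat_lit 166132188702) (.one (nat_lit 8393875) .nil))))),
   .two (nat_lit 9781116943) (nat_lit 159224168463) (.two (nat_lit 612368392) (nat_lit 9781117040) (.two (nat_lit 1191182341) (nat_lit 3464495712) (.two (nat_lit 16777217) (nat_lit 10343156223) (.one (nat_lit 4638905386) .nil)))),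
   .two (nat_lit 28086108175) (nat_lit 156971827215) (.two (nat_lit 28086108168) (nat_lit 19599982708) (.two (nat_lit 1745879045) (nat_lit 184419353192) (.two (nat_lit 605028353) (nat_lit 10372515208) (.two (nat_lit 1048576) (nat_lit 742395327) (.one (nat_lit 1846547418) .nil))))),
   .two (nat_lit 1350565903) (nat_lit 166196150467) (.two (nat_lit 37748737) (nat_lit 13187941686) (.two (nat_lit 1048576) (nat_lit 843058617) (.one (nat_lit 37246473335) .nil))),
   .two (nat_lit 47563407375) (nat_lit 20705181891) (.two (nat_lit 4194305) (nat_lit 10552869732) (.two (nat_lit 1048576) (nat_lit 71305736) (.one (nat_lit 71308254) .nil))),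
   .two (nat_lit 3527409679) (nat_lit 158144135183) (.two (nat_lit 158144135176) (nat_lit 3527409728) (.two (nat_lit 1277165572) (nat_lit 157038936259) (.two (nat_lit 606076929) (nat_lit 156468512060) (.two (nat_lit 2097152) (nat_lit 339742158) (.one (nat_lit 4199572) .nil))))),
   .two (nat_lit 16777231) (nat_lit 10504634383) (.two (nat_lit 2887778312) (nat_lit 50332005) (.two (nat_lit 2097153) (nat_lit 10452206966) (.two (nat_lit 16777216) (nat_lit 9933164435) .nil))),
   .two (nat_lit 184549391) (nat_lit 10940841999) (.two (nat_lit 2969567240) (nat_lit 46978302072) (.two (nat_lit 157036838917) (nat_lit 9948889445) (.two (nat_lit 9766436865) (nat_lit 620759550) (.one (nat_lit 156581762011) .nil)))),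
   .two (nat_lit 183848927247) (nat_lit 157036838927) (.two (nat_lit 19599982600) (nat_lit 1344274559) (.two (nat_lit 156971827205) (nat_lit 673186149) (.two (nat_lit 37748737) (nat_lit 9867101497) (.two (nat_lit 4194304) (nat_lit 10538191382) (.one (nat_lit 10372517779) .nil))))),
   .two (nat_lit 47548727311) (nat_lit 3527409679) (.two (nat_lit 9768534024) (nat_lit 20638072899) (.two (nat_lit 2889875460) (nat_lit 20705182397) (.two (nat_lit 2097153) (nat_lit 2923431197) (.two (nat_lit 2097152) (nat_lit 185023335847) (.one (nat_lit 158647456745) .nil))))),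
   .two (nat_lit 612368399) (nat_lit 9802088515) (.two (nat_lit 176160772) (nat_lit 306184550) (.two (nat_lit 8388609) (nat_lit 3527411790) (.two (nat_lit 8388608) (nat_lit 21814578741) (.one (nat_lit 1384125463) .nil)))),
   .two (nat_lit 3460300815) (nat_lit 159217877007) (.two (nat_lit 705691656) (nat_lit 11513364591) (.two (nat_lit 13187940357) (nat_lit 843055299) (.two (nat_lit 2097153) (nat_lit 12150900024) (.two (nat_lit 2097152) (nat_lit 4197967) (.one (nat_lit 19530780559) .nil))))),
   .two (nat_lit 20644364303) (nat_lit 157035790361) (.two (nat_lit 158083317768) (nat_lit 10436476994) (.two (nat_lit 28757196805) (nat_lit 28093448549) (.two (nat_lit 9765388289) (nat_lit 46514832758) (.two (nat_lit 1048576) (nat_lit 276826639) (.one (nat_lit 156364706773) .nil))))),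
   .two (nat_lit 183853121551) (nat_lit 28757196815) (.two (nat_lit 1779433480) (nat_lit 8388730) (.two (nat_lit 1276116996) (nat_lit 780140908) (.two (nat_lit 605028353) (nat_lit 156372043294) (.one (nat_lit 183953789967) .nil)))),
   .two (nat_lit 16777231) (nat_lit 183853121601) (.two (nat_lit 41943045) (nat_lit 285212867) (.two (nat_lit 612368385) (nat_lit 21812480537) (.one (nat_lit 1344279591) .nil))),
   .two (nat_lit 46508539928) (nat_lit 8388651) (.two (nat_lit 3525312520) (nat_lit 9940500614) (.two (nat_lit 46407876612) (nat_lit 156372041923) (.two (nat_lit 2097153) (nat_lit 209716548) (.two (nat_lit 2097152) (nat_lit 8392273) (.one (nat_lit 740298651) .nil))))),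
   .two (nat_lit 272629775) (nat_lit 183845781519) (.two (nat_lit 46407876616) (nat_lit 4634706028) (.two (nat_lit 183845781508) (nat_lit 4195018) (.two (nat_lit 2097153) (nat_lit 156968682888) (.two (nat_lit 1048576) (nat_lit 184417258943) (.one (nat_lit 1053845) .nil))))),
   .two (nat_lit 12117344271) (nat_lit 639631384) (.two (nat_lit 3527409672) (nat_lit 2097270) (.two (nat_lit 1176502277) (nat_lit 4194955) (.two (nat_lit 2097153) (nat_lit 8390775) (.two (nat_lit 8388608) (nat_lit 158647454247) (.one (nat_lit 9967768669) .nil))))),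
   .two (nat_lit 28757196815) (nat_lit 159224168473) (.two (nat_lit 21214789640) (nat_lit 1048851) (.two (nat_lit 34603013) (nat_lit 9974055107) (.two (nat_lit 2097153) (nat_lit 183848929801) (.one (nat_lit 1379930001) .nil)))),
   .two (nat_lit 4194319) (nat_lit 184549391) (.two (nat_lit 184549384) (nat_lit 605028465) (.two (nat_lit 184549380) (nat_lit 46977254019) (.two (nat_lit 16777217) (nat_lit 46473938294) (.two (nat_lit 16777216) (nat_lit 183912892975) (.one (nat_lit 1795167206) .nil))))),
   .two (nat_lit 3527409679) (nat_lit 1913651215) (.two (nat_lit 3527409672) (nat_lit 156465365108) (.two (nat_lit 46980399109) (nat_lit 37246468712) (.two (nat_lit 4194305) (nat_lit 873465224) (.two (nat_lit 4194304) (nat_lit 37313579569) (.one (nat_lit 10939798677) .nil))))),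
   .two (nat_lit 8388623) (nat_lit 12117344271) (.two (nat_lit 4605345800) (nat_lit 37316722806) (.two (nat_lit 156372041733) (nat_lit 339739316) (.two (nat_lit 37748737) (nat_lit 19033752934) (.two (nat_lit 2097152) (nat_lit 12050237966) (.one (nat_lit 3525317597) .nil))))),
   .two (nat_lit 158143086607) (nat_lit 1849688079) (.two (nat_lit 1916796936) (nat_lit 47588573321) (.two (nat_lit 1276116996) (nat_lit 165532402351) (.two (nat_lit 8388609) (nat_lit 11513365866) (.two (nat_lit 1048576) (nat_lit 1212156463) (.one (nat_lit 183845785482) .nil))))),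
   .two (nat_lit 742391823) (nat_lit 1795162127) (.two (nat_lit 10370416648) (nat_lit 28705816708) (.two (nat_lit 1291845636) (nat_lit 18926797443) (.two (nat_lit 620756993) (nat_lit 3558868291) (.two (nat_lit 16777216) (nat_lit 2100818) (.one (nat_lit 2102422) .nil))))),
   .two (nat_lit 165526110223) (nat_lit 1753219267) (.two (nat_lit 41943041) (nat_lit 158077027660) (.two (nat_lit 2097152) (nat_lit 310381066) (.one (nat_lit 645926792) .nil))),
   .two (nat_lit 21793603599) (nat_lit 158083317775) (.two (nat_lit 1291845640) (nat_lit 11014242430) (.two (nat_lit 209715205) (nat_lit 2420113765) (.two (nat_lit 8388609) (nat_lit 21814576501) (.two (nat_lit 1048576) (nat_lit 11492396967) .nil)))),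
   .two (nat_lit 12054429711) (nat_lit 28690087951) (.two (nat_lit 28690087944) (nat_lit 12054429762) (.two (nat_lit 166129041412) (nat_lit 12054430053) (.two (nat_lit 156364701697) (nat_lit 47555021338) (.one (nat_lit 746591368) .nil)))),
   .two (nat_lit 28693233679) (nat_lit 158646403138) (.two (nat_lit 218103813) (nat_lit 19532874086) (.two (nat_lit 16777217) (nat_lit 9869198654) (.two (nat_lit 1048576) (nat_lit 183861512729) (.one (nat_lit 1053847) .nil)))),
   .two (nat_lit 47563407375) (nat_lit 3464495119) (.two (nat_lit 620757000) (nat_lit 202375288) (.two (nat_lit 721420293) (nat_lit 10939793766) (.two (nat_lit 8388609) (nat_lit 4631561590) (.two (nat_lit 8388608) (nat_lit 1052243) (.one (nat_lit 165532406896) .nil))))),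
   .two (nat_lit 158144135183) (nat_lit 20753416215) (.two (nat_lit 184431935501) (nat_lit 156971827267) (.two (nat_lit 822083589) (nat_lit 1948254843) (.two (nat_lit 37748737) (nat_lit 18933089656) (.two (nat_lit 4194304) (nat_lit 183913941523) (.one (nat_lit 1920996372) .nil))))),
   .two (nat_lit 47555018767) (nat_lit 1745879055) (.two (nat_lit 612368392) (nat_lit 135266413) (.two (nat_lit 75497477) (nat_lit 37313577566) (.two (nat_lit 612368385) (nat_lit 37313578274) (.two (nat_lit 8388608) (nat_lit 1052244) (.one (nat_lit 9974060160) .nil))))),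
   .two (nat_lit 184986632207) (nat_lit 9948889112) (.two (nat_lit 620757000) (nat_lit 772800625) (.two (nat_lit 83886085) (nat_lit 135266662) (.two (nat_lit 16777217) (nat_lit 1846543741) (.two (nat_lit 16777216) (nat_lit 135267870) (.one (nat_lit 16782488) .nil))))),
   .two (nat_lit 3464495119) (nat_lit 19027460163) (.two (nat_lit 184416206853) (nat_lit 8389323) (.two (nat_lit 2097153) (nat_lit 158183982391) (.two (nat_lit 1048576) (nat_lit 9934211617) (.one (nat_lit 34608120) .nil)))),
   .two (nat_lit 205520911) (nat_lit 654311491) (.two (nat_lit 1358954501) (nat_lit 158146233024) (.two (nat_lit 605028353) (nat_lit 19029558115) (.two (nat_lit 1048576) (nat_lit 19029558814) (.one (nat_lit 1209012138) .nil)))),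
   .two (nat_lit 11559501839) (nat_lit 158150426649) (.two (nat_lit 83886088) (nat_lit 158083317826) (.two (nat_lit 21785214981) (nat_lit 46992982375) (.two (nat_lit 612368385) (nat_lit 18941478192) (.two (nat_lit 8388608) (nat_lit 16780885) (.one (nat_lit 166245438525) .nil))))),
   .two (nat_lit 9768534031) (nat_lit 3525312527) (.two (nat_lit 185023332365) (nat_lit 158075977864) (.two (nat_lit 2956984325) (nat_lit 606077579) (.two (nat_lit 605028353) (nat_lit 156367848835) (.two (nat_lit 1048576) (nat_lit 12620663335) (.one (nat_lit 10503591041) .nil))))),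
   .two (nat_lit 203423759) (nat_lit 156372041743) (.two (nat_lit 156372041736) (nat_lit 3558867010) (.two (nat_lit 46414168068) (nat_lit 673186496) (.two (nat_lit 2097153) (nat_lit 4605347358) (.one (nat_lit 9900658579) .nil)))),
   .two (nat_lit 46407876623) (nat_lit 13195280399) (.two (nat_lit 41943048) (nat_lit 2953838711) (.two (nat_lit 713031685) (nat_lit 672137916) (.two (nat_lit 8388609) (nat_lit 2987393892) (.two (nat_lit 8388608) (nat_lit 19127077399) (.one (nat_lit 10376712100) .nil))))),
   .two (nat_lit 1410334744) (nat_lit 1847590954) (.two (nat_lit 16777224) (nat_lit 156365750395) (.two (nat_lit 83886085) (nat_lit 20637024923) (.two (nat_lit 16777217) (nat_lit 156364703116) (.two (nat_lit 1048576) (nat_lit 687869477) (.one (nat_lit 166129046506) .nil))))),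
   .two (nat_lit 50331663) (nat_lit 1847591028) (.two (nat_lit 16777220) (nat_lit 174753579366) (.two (nat_lit 16777217) (nat_lit 174753580573) (.one (nat_lit 35655566) .nil))),
   .two (nat_lit 46414168087) (nat_lit 855638040) (.two (nat_lit 822083592) (nat_lit 8388884) (.two (nat_lit 16777220) (nat_lit 166203490664) (.two (nat_lit 8388609) (nat_lit 2902459772) (.two (nat_lit 8388608) (nat_lit 159266114058) (.one (nat_lit 10376712079) .nil))))),
   .two (nat_lit 2902458383) (nat_lit 21777875076) (.two (nat_lit 16777221) (nat_lit 11577328309) (.two (nat_lit 605028353) (nat_lit 11593057586) (.two (nat_lit 16777216) (nat_lit 68160015) (.one (nat_lit 1426067352) .nil)))),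
   .two (nat_lit 9948889103) (nat_lit 46414168088) (.two (nat_lit 184549384) (nat_lit 3464495170) (.two (nat_lit 47555018757) (nat_lit 21793604287) (.two (nat_lit 8388609) (nat_lit 889193801) (.two (nat_lit 8388608) (nat_lit 16780887) (.one (nat_lit 8393881) .nil))))),
   .two (nat_lit 18933088271) (nat_lit 46523219993) (.two (nat_lit 16777224) (nat_lit 847249475) (.two (nat_lit 13195280389) (nat_lit 158662132071) (.two (nat_lit 41943041) (nat_lit 1761609008) (.two (nat_lit 8388608) (nat_lit 19545460133) (.one (nat_lit 20745031562) .nil))))),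
   .two (nat_lit 1846542351) (nat_lit 19130220659) (.two (nat_lit 166129041412) (nat_lit 156569174882) (.two (nat_lit 1048576) (nat_lit 158079126019) (.one (nat_lit 19029562469) .nil))),
   .two (nat_lit 218103823) (nat_lit 171966591) (.two (nat_lit 2902458372) (nat_lit 19532874085) (.two (nat_lit 9768534017) (nat_lit 1291846942) (.two (nat_lit 4194304) (nat_lit 184552947) (.one (nat_lit 4199578) .nil)))),
   .two (nat_lit 1178599439) (nat_lit 9881780291) (.two (nat_lit 754974725) (nat_lit 1916797285) (.two (nat_lit 50331649) (nat_lit 10909386035) (.two (nat_lit 16777216) (nat_lit 11546922444) (.one (nat_lit 16782492) .nil)))),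
   .two (nat_lit 158083317775) (nat_lit 1846542351) (.two (nat_lit 1846542344) (nat_lit 158083317826) (.two (nat_lit 28757196805) (nat_lit 158083318627) (.two (nat_lit 1048576) (nat_lit 159224170013) (.one (nat_lit 8393885) .nil)))),
   .two (nat_lit 156367847439) (nat_lit 159224168564) (.two (nat_lit 1753219077) (nat_lit 46980399971) (.two (nat_lit 8388608) (nat_lit 46980400670) (.one (nat_lit 157043135599) .nil))),
   .two (nat_lit 16777231) (nat_lit 1753219096) (.two (nat_lit 18933088264) (nat_lit 184549443) (.two (nat_lit 156372041733) (nat_lit 83886438) (.two (nat_lit 41943041) (nat_lit 620758305) (.two (nat_lit 8388608) (nat_lit 16780888) (.one (nat_lit 11559506996) .nil))))),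
   .two (nat_lit 156367847439) (nat_lit 654311448) (.two (nat_lit 9781116936) (nat_lit 185023332471) (.two (nat_lit 159216828421) (nat_lit 1291846247) (.two (nat_lit 4194305) (nat_lit 1291846951) (.two (nat_lit 1048576) (nat_lit 754977299) (.one (nat_lit 46406833166) .nil))))),
   .two (nat_lit 10370416655) (nat_lit 37313577004) (.two (nat_lit 11551113224) (nat_lit 37246468222) (.two (nat_lit 1343225861) (nat_lit 9799991655) (.two (nat_lit 605028353) (nat_lit 104858467) (.two (nat_lit 2097152) (nat_lit 2953842159) (.one (nat_lit 183912895563) .nil))))),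
   .two (nat_lit 4194319) (nat_lit 822083599) (.two (nat_lit 37748744) (nat_lit 10385096822) (.two (nat_lit 4194308) (nat_lit 9867100519) (.two (nat_lit 4194305) (nat_lit 1913652571) (.two (nat_lit 2097152) (nat_lit 13203672514) (.one (nat_lit 13237228581) .nil))))),
   .two (nat_lit 117440527) (nat_lit 20637024271) (.two (nat_lit 12129927176) (nat_lit 21207449714) (.two (nat_lit 159216828421) (nat_lit 16777932) (.two (nat_lit 4194305) (nat_lit 156380431681) (.two (nat_lit 2097152) (nat_lit 809504647) .nil)))),
   .two (nat_lit 2954887183) (nat_lit 21785214991) (.two (nat_lit 159217877000) (nat_lit 184993972338) (.two (nat_lit 158083317765) (nat_lit 46407877311) (.two (nat_lit 41943041) (nat_lit 12618564957) (.two (nat_lit 8388608) (nat_lit 1344278025) (.one (nat_lit 46514836576) .nil))))),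
   .two (nat_lit 9940500495) (nat_lit 47548727322) (.two (nat_lit 9768534024) (nat_lit 183946444866) (.two (nat_lit 2889875461) (nat_lit 158077026663) (.two (nat_lit 2097153) (nat_lit 839910739) (.two (nat_lit 1048576) (nat_lit 184419355171) (.one (nat_lit 10003420206) .nil))))),
   .two (nat_lit 2887778319) (nat_lit 19130220611) (.two (nat_lit 2887778308) (nat_lit 46980399775) (.two (nat_lit 2097153) (nat_lit 1779434339) (.two (nat_lit 2097152) (nat_lit 1779435038) (.one (nat_lit 9900658602) .nil)))),
   .two (nat_lit 117440527) (nat_lit 2416967793) (.two (nat_lit 174752530437) (nat_lit 11492393827) (.two (nat_lit 1048576) (nat_lit 822085150) (.one (nat_lit 16782496) .nil))),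
   .two (nat_lit 654311439) (nat_lit 174686470260) (.two (nat_lit 47548727301) (nat_lit 9781117794) (.two (nat_lit 2097152) (nat_lit 9781118493) (.one (nat_lit 1176507356) .nil))),
   .two (nat_lit 205520911) (nat_lit 46422556698) (.two (nat_lit 2969567240) (nat_lit 1276117057) (.two (nat_lit 2969567237) (nat_lit 1920991594) (.two (nat_lit 34603009) (nat_lit 243271715) (.two (nat_lit 4194304) (nat_lit 156539816497) (.one (nat_lit 156472710246) .nil))))),
   .two (nat_lit 2887778319) (nat_lit 1178599439) (.two (nat_lit 1178599432) (nat_lit 13221494897) (.two (nat_lit 11479810052) (nat_lit 2987393667) (.two (nat_lit 37748737) (nat_lit 156465366351) (.two (nat_lit 4194304) (nat_lit 37313580626) (.one (nat_lit 37313582230) .nil))))),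
   .two (nat_lit 41943055) (nat_lit 47548727311) (.two (nat_lit 41943048) (nat_lit 2988441666) (.two (nat_lit 2894069765) (nat_lit 156466413929) (.two (nat_lit 8388609) (nat_lit 12115248433) (.two (nat_lit 1048576) (nat_lit 11511269893) (.one (nat_lit 46977257380) .nil))))),
   .two (nat_lit 3460300815) (nat_lit 159224168463) (.two (nat_lit 2961178632) (nat_lit 19532873841) (.two (nat_lit 176160772) (nat_lit 1782579843) (.two (nat_lit 8388609) (nat_lit 1379927340) (.two (nat_lit 1048576) (nat_lit 4197981) (.one (nat_lit 165525066870) .nil))))),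
   .two (nat_lit 639631375) (nat_lit 46477082647) (.two (nat_lit 2887778312) (nat_lit 4601151610) (.two (nat_lit 2097157) (nat_lit 1182794421) (.two (nat_lit 2097153) (nat_lit 847250810) (.two (nat_lit 1048576) (nat_lit 159217879598) (.one (nat_lit 1053859) .nil))))),
   .two (nat_lit 620757007) (nat_lit 1779433487) (.two (nat_lit 1779433480) (nat_lit 183861510262) (.two (nat_lit 83886085) (nat_lit 1779433836) (.two (nat_lit 620756993) (nat_lit 3524265287) (.two (nat_lit 4194304) (nat_lit 9948892667) (.one (nat_lit 16782500) .nil))))),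
   .two (nat_lit 4194319) (nat_lit 620757007) (.two (nat_lit 37748744) (nat_lit 165525061769) (.two (nat_lit 184549380) (nat_lit 19026411879) (.two (nat_lit 2097153) (nat_lit 20637025122) (.two (nat_lit 2097152) (nat_lit 13221497376) (.one (nat_lit 2102437) .nil))))),
   .two (nat_lit 4194319) (nat_lit 721420354) (.two (nat_lit 4194308) (nat_lit 3539992937) (.two (nat_lit 34603009) (nat_lit 4647291409) (.one (nat_lit 10955526036) .nil))),
   .two (nat_lit 184993972239) (nat_lit 158077026319) (.two (nat_lit 11479810056) (nat_lit 20638072965) (.two (nat_lit 809500677) (nat_lit 183853122235) (.two (nat_lit 612368385) (nat_lit 13222544695) (.two (nat_lit 4194304) (nat_lit 21818771991) (.one (nat_lit 10540289946) .nil))))),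
   .two (nat_lit 2889875471) (nat_lit 1310720024) (.two (nat_lit 3527409672) (nat_lit 9967763569) (.two (nat_lit 20638072836) (nat_lit 46510637922) (.two (nat_lit 2097152) (nat_lit 10439626642) .nil))),
   .two (nat_lit 169869327) (nat_lit 50331760) (.two (nat_lit 11492392965) (nat_lit 19597885801) (.two (nat_lit 16777217) (nat_lit 1176503596) (.two (nat_lit 2097152) (nat_lit 185002364358) (.one (nat_lit 166211882893) .nil)))),
   .two (nat_lit 713031695) (nat_lit 1795162127) (.two (nat_lit 1350565896) (nat_lit 4613734662) (.two (nat_lit 654311429) (nat_lit 184993972581) (.two (nat_lit 41943041) (nat_lit 46422558021) (.two (nat_lit 8388608) (nat_lit 620759565) (.one (nat_lit 608179270) .nil))))),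
   .two (nat_lit 37748751) (nat_lit 47555018775) (.two (nat_lit 8388616) (nat_lit 166230753400) (.two (nat_lit 8388612) (nat_lit 13191086794) (.two (nat_lit 4194305) (nat_lit 47582283124) (.two (nat_lit 2097152) (nat_lit 1920994751) (.one (nat_lit 10372518964) .nil))))),
   .two (nat_lit 9948889103) (nat_lit 3458203663) (.two (nat_lit 1291845640) (nat_lit 3458203714) (.two (nat_lit 47548727301) (nat_lit 11492393676) (.two (nat_lit 2097153) (nat_lit 46992983343) (.two (nat_lit 8388608) (nat_lit 183947495943) (.one (nat_lit 2102438) .nil))))),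
   .two (nat_lit 2954887183) (nat_lit 20637024271) (.two (nat_lit 3460300808) (nat_lit 47582281794) (.two (nat_lit 34603013) (nat_lit 9869197672) (.two (nat_lit 2097153) (nat_lit 166232851756) (.two (nat_lit 2097152) (nat_lit 28790753819) (.one (nat_lit 156466417549) .nil))))),
   .two (nat_lit 101711887) (nat_lit 13191086095) (.two (nat_lit 1175453704) (nat_lit 306184306) (.two (nat_lit 183848927237) (nat_lit 1049294) (.two (nat_lit 4194305) (nat_lit 10335815794) (.two (nat_lit 8388608) (nat_lit 156367850011) (.one (nat_lit 3560969249) .nil))))),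
   .two (nat_lit 184549391) (nat_lit 809500687) (.two (nat_lit 1916796936) (nat_lit 158075977794) (.two (nat_lit 11479810052) (nat_lit 21827158716) (.two (nat_lit 605028353) (nat_lit 46523222070) (.two (nat_lit 1048576) (nat_lit 46489668109) (.one (nat_lit 9948894207) .nil))))),
   .two (nat_lit 639631375) (nat_lit 10506731535) (.two (nat_lit 1780482056) (nat_lit 21811429505) (.two (nat_lit 34603013) (nat_lit 19537068391) (.two (nat_lit 2097153) (nat_lit 847250810) (.two (nat_lit 8388608) (nat_lit 1779437039) (.one (nat_lit 4598010955) .nil))))),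
   .two (nat_lit 218103823) (nat_lit 272629803) (.two (nat_lit 9781116936) (nat_lit 157038936177) (.two (nat_lit 19599982597) (nat_lit 2969567840) (.two (nat_lit 9768534017) (nat_lit 9948891647) (.one (nat_lit 1761612783) .nil)))),
   .two (nat_lit 813694991) (nat_lit 11492392975) (.two (nat_lit 117440520) (nat_lit 10336862341) (.two (nat_lit 47555018757) (nat_lit 157036839107) (.two (nat_lit 2097153) (nat_lit 159266112899) (.two (nat_lit 16777216) (nat_lit 840960534) (.one (nat_lit 16782504) .nil))))),
   .two (nat_lit 272629775) (nat_lit 12114198551) (.two (nat_lit 37748744) (nat_lit 21777875066) (.two (nat_lit 4194308) (nat_lit 184416207536) (.two (nat_lit 2097153) (nat_lit 10537141582) (.two (nat_lit 8388608) (nat_lit 10503588367) (.one (nat_lit 156533527570) .nil))))),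
   .two (nat_lit 713031695) (nat_lit 13191086095) (.two (nat_lit 4194312) (nat_lit 4638900357) (.two (nat_lit 158083317765) (nat_lit 4030726820) (.two (nat_lit 612368385) (nat_lit 47550826549) (.two (nat_lit 1048576) (nat_lit 46481280485) (.one (nat_lit 8393897) .nil))))),
   .two (nat_lit 620757007) (nat_lit 46978301967) (.two (nat_lit 9948889096) (nat_lit 9900654725) (.two (nat_lit 3525312517) (nat_lit 184549733) (.two (nat_lit 2097153) (nat_lit 754977306) (.one (nat_lit 1948258195) .nil)))),
   .two (nat_lit 4613734415) (nat_lit 13195280451) (.two (nat_lit 184986632197) (nat_lit 1224737472) (.two (nat_lit 34603009) (nat_lit 1216349026) (.two (nat_lit 1048576) (nat_lit 47588575750) (.one (nat_lit 10369372074) .nil)))),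
   .two (nat_lit 11479810063) (nat_lit 4605345816) (.two (nat_lit 8388616) (nat_lit 2420113661) (.two (nat_lit 176160772) (nat_lit 69206684) (.two (nat_lit 606076929) (nat_lit 156539815229) (.two (nat_lit 2097152) (nat_lit 156573371849) (.one (nat_lit 11511271313) .nil))))),
   .two (nat_lit 46978301967) (nat_lit 174752530447) (.two (nat_lit 20637024264) (nat_lit 3525312579) (.two (nat_lit 19530776581) (nat_lit 185020187340) (.two (nat_lit 4194305) (nat_lit 2987394348) (.two (nat_lit 4194304) (nat_lit 1377831433) (.one (nat_lit 2102444) .nil))))),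
   .two (nat_lit 16777231) (nat_lit 158176641091) (.two (nat_lit 16777220) (nat_lit 21811429733) (.two (nat_lit 50331649) (nat_lit 1745881629) (.one (nat_lit 1053869) .nil))),
   .two (nat_lit 16777231) (nat_lit 11614027895) (.two (nat_lit 16777220) (nat_lit 2956985188) (.two (nat_lit 8388608) (nat_lit 2902462379) .nil)),
   .two (nat_lit 612368399) (nat_lit 10504634383) (.two (nat_lit 612368392) (nat_lit 136314999) (.two (nat_lit 176160772) (nat_lit 3021996732) (.two (nat_lit 2097153) (nat_lit 343934494) (.one (nat_lit 3020952711) .nil)))),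
   .two (nat_lit 2961178639) (nat_lit 639631375) (.two (nat_lit 3525312520) (nat_lit 2920284279) (.two (nat_lit 3458203653) (nat_lit 3457155940) (.two (nat_lit 2097152) (nat_lit 109054486) (.one (nat_lit 2102446) .nil)))),
   .two (nat_lit 272629775) (nat_lit 9948889112) (.two (nat_lit 620757000) (nat_lit 19096666234) (.two (nat_lit 184549380) (nat_lit 10942939838) (.two (nat_lit 16777217) (nat_lit 156569175338) (.two (nat_lit 16777216) (nat_lit 165528210893) (.one (nat_lit 16782511) .nil))))),
   .two (nat_lit 11559501848) (nat_lit 4601151511) (.two (nat_lit 4194312) (nat_lit 159266111610) (.two (nat_lit 4194308) (nat_lit 11626611328) (.two (nat_lit 605028353) (nat_lit 1749025635) (.two (nat_lit 1048576) (nat_lit 11010050606) (.one (nat_lit 9869202506) .nil))))),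
   .two (nat_lit 50331663) (nat_lit 46980399119) (.two (nat_lit 50331656) (nat_lit 19532873863) (.two (nat_lit 16777220) (nat_lit 2420114082) (.two (nat_lit 4194305) (nat_lit 10921970186) (.one (nat_lit 19127078803) .nil)))),
   .two (nat_lit 20638072847) (nat_lit 37313577155) (.two (nat_lit 606076929) (nat_lit 1050749) (.two (nat_lit 2097152) (nat_lit 1052269) (.one (nat_lit 1053873) .nil))),
   .two (nat_lit 9948889103) (nat_lit 136315012) (.two (nat_lit 4599054341) (nat_lit 620757858) (.two (nat_lit 1048576) (nat_lit 620758557) (.one (nat_lit 1053875) .nil))),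
   .two (nat_lit 272629775) (nat_lit 159216828459) (.two (nat_lit 4194312) (nat_lit 11551113471) (.two (nat_lit 171966469) (nat_lit 12155093689) (.two (nat_lit 8388609) (nat_lit 608175461) (.two (nat_lit 1048576) (nat_lit 2923432495) (.one (nat_lit 13195284391) .nil))))),
   .two (nat_lit 169869327) (nat_lit 11618222146) (.two (nat_lit 41943045) (nat_lit 158077026932) (.two (nat_lit 34603009) (nat_lit 1277166435) (.two (nat_lit 1048576) (nat_lit 1277167134) (.one (nat_lit 28697431956) .nil)))),
   .two (nat_lit 4605345807) (nat_lit 183845781519) (.two (nat_lit 41943048) (nat_lit 1846542469) (.two (nat_lit 75497477) (nat_lit 184416207205) (.two (nat_lit 41943041) (nat_lit 11578377060) (.two (nat_lit 8388608) (nat_lit 3524266518) (.one (nat_lit 12624860254) .nil))))),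
   .two (nat_lit 169869327) (nat_lit 28693233679) (.two (nat_lit 166132187144) (nat_lit 605028487) (.two (nat_lit 166132187140) (nat_lit 1779434147) (.two (nat_lit 2097153) (nat_lit 159219975489) (.two (nat_lit 1048576) (nat_lit 2921335310) (.one (nat_lit 37246473254) .nil))))),
   .two (nat_lit 721420303) (nat_lit 705691767) (.two (nat_lit 721420292) (nat_lit 605028711) (.two (nat_lit 9765388289) (nat_lit 251659567) (.two (nat_lit 1048576) (nat_lit 166211881487) (.one (nat_lit 1276120967) .nil)))),
   .two (nat_lit 4194319) (nat_lit 721420402) (.two (nat_lit 754974725) (nat_lit 46510637727) (.two (nat_lit 34603009) (nat_lit 28806482459) (.one (nat_lit 1325405330) .nil))),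
   .two (nat_lit 46409973775) (nat_lit 159224168515) (.two (nat_lit 10343153669) (nat_lit 46980399461) (.two (nat_lit 156372041729) (nat_lit 28089255219) (.two (nat_lit 8388608) (nat_lit 10372517324) (.one (nat_lit 8393911) .nil)))),
   .two (nat_lit 713031695) (nat_lit 2923429955) (.two (nat_lit 41943045) (nat_lit 4634706277) (.two (nat_lit 41943041) (nat_lit 4634707230) (.two (nat_lit 8388608) (nat_lit 1849690639) (.one (nat_lit 8393912) .nil)))),
   .two (nat_lit 2902458383) (nat_lit 157038936079) (.two (nat_lit 2902458376) (nat_lit 742392070) (.two (nat_lit 46409973764) (nat_lit 9781117285) (.two (nat_lit 4194305) (nat_lit 654313982) (.one (nat_lit 1862276075) .nil)))),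
   .two (nat_lit 16777231) (nat_lit 1343225871) (.two (nat_lit 184549384) (nat_lit 13188989049) (.two (nat_lit 11492392965) (nat_lit 174685421929) (.two (nat_lit 2097153) (nat_lit 11525948770) (.two (nat_lit 2097152) (nat_lit 159232559639) (.one (nat_lit 2102457) .nil))))),
   .two (nat_lit 203423759) (nat_lit 166129041423) (.two (nat_lit 2887778312) (nat_lit 1954545795) (.two (nat_lit 13187940357) (nat_lit 343933123) (.two (nat_lit 156364701697) (nat_lit 18926799369) (.one (nat_lit 10370421886) .nil)))),
   .two (nat_lit 1913651215) (nat_lit 13195280409) (.two (nat_lit 2887778312) (nat_lit 18933088372) (.two (nat_lit 34603013) (nat_lit 4605345987) (.two (nat_lit 2097153) (nat_lit 109053245) (.two (nat_lit 1048576) (nat_lit 8392310) (.one (nat_lit 11578380177) .nil))))),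
   .two (nat_lit 9768534031) (nat_lit 47548727311) (.two (nat_lit 205520904) (nat_lit 28791799941) (.two (nat_lit 2097157) (nat_lit 2319450471) (.two (nat_lit 2097153) (nat_lit 158649550123) (.two (nat_lit 1048576) (nat_lit 10907290139) (.one (nat_lit 2102458) .nil))))),
   .two (nat_lit 612368399) (nat_lit 839909402) (.two (nat_lit 68157448) (nat_lit 3028287554) (.two (nat_lit 75497477) (nat_lit 184986632556) (.two (nat_lit 4194305) (nat_lit 672138589) (.two (nat_lit 4194304) (nat_lit 19033754133) (.one (nat_lit 847254550) .nil))))),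
   .two (nat_lit 13191086095) (nat_lit 46978301967) (.two (nat_lit 4194312) (nat_lit 236978290) (.two (nat_lit 739246085) (nat_lit 158144135839) (.two (nat_lit 4194305) (nat_lit 9967764865) (.two (nat_lit 2097152) (nat_lit 638586450) (.one (nat_lit 156465368972) .nil))))),
   .two (nat_lit 176160783) (nat_lit 3525312538) (.two (nat_lit 169869320) (nat_lit 3028287554) (.two (nat_lit 159217876997) (nat_lit 156472705383) (.two (nat_lit 156365750273) (nat_lit 3020948861) (.two (nat_lit 8388608) (nat_lit 1052281) (.one (nat_lit 1053886) .nil))))),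
   .two (nat_lit 612368399) (nat_lit 10504634383) (.two (nat_lit 2961178632) (nat_lit 3021996278) (.two (nat_lit 270532613) (nat_lit 11618222438) (.two (nat_lit 2097153) (nat_lit 11618223390) (.two (nat_lit 1048576) (nat_lit 176163357) (.one (nat_lit 1053887) .nil))))),
   .two (nat_lit 285212687) (nat_lit 13224640637) (.two (nat_lit 46409973764) (nat_lit 822083779) (.two (nat_lit 4194305) (nat_lit 11492394269) (.two (nat_lit 4194304) (nat_lit 822087179) (.one (nat_lit 16782528) .nil)))),
   .two (nat_lit 272629775) (nat_lit 12114198543) (.two (nat_lit 37748744) (nat_lit 12147753074) (.two (nat_lit 4194308) (nat_lit 28757197474) (.two (nat_lit 2097153) (nat_lit 10537141582) (.two (nat_lit 1048576) (nat_lit 157036842437) (.one (nat_lit 304092137) .nil))))),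
   .two (nat_lit 50331663) (nat_lit 157038936079) (.two (nat_lit 50331656) (nat_lit 28793897079) (.two (nat_lit 16777220) (nat_lit 10338960059) (.two (nat_lit 4194305) (nat_lit 28806481225) (.two (nat_lit 1048576) (nat_lit 16780922) (.one (nat_lit 11614032881) .nil))))),
   .two (nat_lit 20644364303) (nat_lit 318767130) (.two (nat_lit 620757000) (nat_lit 20644364353) (.two (nat_lit 612368389) (nat_lit 9948889283) (.two (nat_lit 41943041) (nat_lit 788530485) (.two (nat_lit 8388608) (nat_lit 16780923) (.one (nat_lit 9772732304) .nil))))),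
   .two (nat_lit 11492392975) (nat_lit 47588573210) (.two (nat_lit 41943048) (nat_lit 13237223491) (.two (nat_lit 8388613) (nat_lit 19109249388) (.two (nat_lit 8388609) (nat_lit 10955523460) (.two (nat_lit 16777216) (nat_lit 8392316) (.one (nat_lit 158662135692) .nil))))),
   .two (nat_lit 721420303) (nat_lit 184993972288) (.two (nat_lit 713031684) (nat_lit 11559502019) (.two (nat_lit 41943041) (nat_lit 117441916) (.two (nat_lit 1048576) (nat_lit 10544484232) .nil))),
   .two (nat_lit 754974735) (nat_lit 104857615) (.two (nat_lit 11479810056) (nat_lit 142606448) (.two (nat_lit 809500677) (nat_lit 19545457334) (.two (nat_lit 8388609) (nat_lit 184989779309) (.two (nat_lit 4194304) (nat_lit 780142110) (.one (nat_lit 339742614) .nil))))),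
   .two (nat_lit 713031695) (nat_lit 236978312) (.two (nat_lit 34603013) (nat_lit 1216348791) (.two (nat_lit 2097153) (nat_lit 19033752950) (.two (nat_lit 8388608) (nat_lit 166129045084) (.one (nat_lit 101717155) .nil)))),
   .two (nat_lit 620757007) (nat_lit 10506731535) (.two (nat_lit 10506731528) (nat_lit 184549490) (.two (nat_lit 2889875460) (nat_lit 822084288) (.two (nat_lit 16777217) (nat_lit 46980400670) (.one (nat_lit 9814676624) .nil)))),
   .two (nat_lit 2954887183) (nat_lit 158143086607) (.two (nat_lit 1779433480) (nat_lit 28791799941) (.two (nat_lit 1277165573) (nat_lit 158176641381) (.two (nat_lit 2097153) (nat_lit 19127076218) (.two (nat_lit 2097152) (nat_lit 166196153843) (.one (nat_lit 21812483129) .nil))))),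
   .two (nat_lit 169869327) (nat_lit 41943055) (.two (nat_lit 184993972232) (nat_lit 1377829110) (.two (nat_lit 34603013) (nat_lit 11618222720) (.two (nat_lit 8388609) (nat_lit 3525313869) (.two (nat_lit 1048576) (nat_lit 236980783) (.one (nat_lit 11543777186) .nil))))),
   .two (nat_lit 16777231) (nat_lit 10504634383) (.two (nat_lit 218103816) (nat_lit 3525312576) (.two (nat_lit 2887778308) (nat_lit 285212867) (.two (nat_lit 2097153) (nat_lit 9781118332) (.two (nat_lit 4194304) (nat_lit 166197202840) .nil)))),
   .two (nat_lit 620757007) (nat_lit 1913651332) (.two (nat_lit 83886085) (nat_lit 336593256) (.two (nat_lit 16777217) (nat_lit 183912892534) (.two (nat_lit 1048576) (nat_lit 889195018) (.one (nat_lit 1913655192) .nil)))),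
   .two (nat_lit 2887778319) (nat_lit 11584667769) (.two (nat_lit 4194308) (nat_lit 1209008821) (.two (nat_lit 4194305) (nat_lit 159250384253) (.two (nat_lit 1048576) (nat_lit 28693236259) (.one (nat_lit 46477087829) .nil)))),
   .two (nat_lit 8388623) (nat_lit 606076943) (.two (nat_lit 272629768) (nat_lit 46508540015) (.two (nat_lit 4194308) (nat_lit 156539814580) (.two (nat_lit 4194305) (nat_lit 9906947398) (.two (nat_lit 4194304) (nat_lit 8392318) (.one (nat_lit 8393921) .nil))))),
   .two (nat_lit 2961178639) (nat_lit 639631375) (.two (nat_lit 1779433480) (nat_lit 10913579142) (.two (nat_lit 2097157) (nat_lit 880804035) (.two (nat_lit 2097153) (nat_lit 9806284103) (.two (nat_lit 1048576) (nat_lit 20644366895) (.one (nat_lit 1779437474) .nil))))),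
   .two (nat_lit 272629775) (nat_lit 2927624235) (.two (nat_lit 37748744) (nat_lit 10007609457) (.two (nat_lit 102760453) (nat_lit 156569174622) (.two (nat_lit 41943041) (nat_lit 156569175330) (.two (nat_lit 2097152) (nat_lit 742394396) (.one (nat_lit 4632613885) .nil))))),
   .two (nat_lit 169869327) (nat_lit 41943055) (.two (nat_lit 13195280392) (nat_lit 19027460214) (.two (nat_lit 638582789) (nat_lit 159251431619) (.two (nat_lit 8388609) (nat_lit 185021236567) (.two (nat_lit 2097152) (nat_lit 8392322) (.one (nat_lit 158150430608) .nil))))),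
   .two (nat_lit 2887778319) (nat_lit 809500687) (.two (nat_lit 739246088) (nat_lit 1178599545) (.two (nat_lit 9933160453) (nat_lit 10538188995) (.two (nat_lit 34603009) (nat_lit 1178600837) (.two (nat_lit 1048576) (nat_lit 239077902) (.one (nat_lit 4199618) .nil))))),
   .two (nat_lit 46414168079) (nat_lit 46489665562) (.two (nat_lit 16777224) (nat_lit 310378563) (.two (nat_lit 16777221) (nat_lit 10913579371) (.two (nat_lit 8388609) (nat_lit 889193792) (.two (nat_lit 8388608) (nat_lit 16780931) (.one (nat_lit 158150430604) .nil))))),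
   .two (nat_lit 639631375) (nat_lit 4601151503) (.two (nat_lit 21777874952) (nat_lit 236978294) (.two (nat_lit 171966469) (nat_lit 1377829226) (.two (nat_lit 34603009) (nat_lit 304088377) (.two (nat_lit 1048576) (nat_lit 104860183) (.one (nat_lit 1053891) .nil))))),
   .two (nat_lit 612368399) (nat_lit 218103918) (.two (nat_lit 16777221) (nat_lit 159224168643) (.two (nat_lit 16777217) (nat_lit 243271050) (.two (nat_lit 16777216) (nat_lit 8392324) (.one (nat_lit 285217916) .nil)))),
   .two (nat_lit 16777231) (nat_lit 606076943) (.two (nat_lit 285212680) (nat_lit 183913939063) (.two (nat_lit 2902458372) (nat_lit 1310720641) (.two (nat_lit 4194305) (nat_lit 9934211136) (.two (nat_lit 4194304) (nat_lit 2100870) (.one (nat_lit 16782532) .nil))))),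
   .two (nat_lit 12047089679) (nat_lit 1392508952) (.two (nat_lit 1358954504) (nat_lit 772800577) (.two (nat_lit 11543773189) (nat_lit 620757187) (.two (nat_lit 9765388289) (nat_lit 1962936842) (.one (nat_lit 16782533) .nil)))),
   .two (nat_lit 176160783) (nat_lit 606076943) (.two (nat_lit 176160776) (nat_lit 10940842261) (.two (nat_lit 8388613) (nat_lit 11513365151) (.two (nat_lit 2097153) (nat_lit 21781022002) (.two (nat_lit 2097152) (nat_lit 2889877022) (.one (nat_lit 183949595765) .nil))))),
   .two (nat_lit 2889875471) (nat_lit 2317353085) (.two (nat_lit 46414168069) (nat_lit 809500867) (.two (nat_lit 4194305) (nat_lit 9900657165) (.one (nat_lit 13222548584) .nil))),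
   .two (nat_lit 2954887183) (nat_lit 1276117007) (.two (nat_lit 37748744) (nat_lit 159216828544) (.two (nat_lit 11546918917) (nat_lit 185020186819) (.two (nat_lit 606076929) (nat_lit 46507492695) (.two (nat_lit 1048576) (nat_lit 2100875) (.one (nat_lit 19094572944) .nil))))),
   .two (nat_lit 612368399) (nat_lit 3525312527) (.two (nat_lit 3525312520) (nat_lit 1417674865) (.two (nat_lit 46978301957) (nat_lit 11618222438) (.two (nat_lit 2097153) (nat_lit 11618223646) (.one (nat_lit 606082103) .nil)))),
   .two (nat_lit 4194319) (nat_lit 176160783) (.two (nat_lit 47555018760) (nat_lit 46406828150) (.two (nat_lit 1782579205) (nat_lit 21811429571) (.two (nat_lit 34603009) (nat_lit 13191088192) (.two (nat_lit 1048576) (nat_lit 3024096902) (.one (nat_lit 12117348263) .nil))))),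
   .two (nat_lit 184416206863) (nat_lit 20738736170) (.two (nat_lit 169869320) (nat_lit 1216348270) (.two (nat_lit 169869316) (nat_lit 166129042023) (.two (nat_lit 8388609) (nat_lit 10906240392) (.two (nat_lit 2097152) (nat_lit 11014244902) (.one (nat_lit 336598136) .nil))))),
   .two (nat_lit 721420303) (nat_lit 156569174058) (.two (nat_lit 185002360840) (nat_lit 159253528697) (.two (nat_lit 34603013) (nat_lit 10015998147) (.two (nat_lit 2097153) (nat_lit 165525062498) (.two (nat_lit 2097152) (nat_lit 336595500) (.one (nat_lit 4199623) .nil))))),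
   .two (nat_lit 10369368088) (nat_lit 9969860651) (.two (nat_lit 13191086088) (nat_lit 1846542468) (.two (nat_lit 11476664324) (nat_lit 13224640707) (.two (nat_lit 34603009) (nat_lit 3560965468) (.two (nat_lit 1048576) (nat_lit 156367849994) (.one (nat_lit 156968685477) .nil))))),
   .two (nat_lit 184986632207) (nat_lit 19599982616) (.two (nat_lit 183848927240) (nat_lit 9899606131) (.two (nat_lit 183848927236) (nat_lit 11476665023) (.two (nat_lit 34603009) (nat_lit 9802090014) (.one (nat_lit 4199624) .nil)))),
   .two (nat_lit 1277165583) (nat_lit 3527409679) (.two (nat_lit 10370416648) (nat_lit 13191086200) (.two (nat_lit 639631365) (nat_lit 4195028) (.two (nat_lit 9766436865) (nat_lit 166199297327) (.two (nat_lit 2097152) (nat_lit 339742316) (.one (nat_lit 46474990626) .nil))))),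
   .two (nat_lit 285212687) (nat_lit 9802088515) (.two (nat_lit 13191086085) (nat_lit 16777573) (.two (nat_lit 37748737) (nat_lit 184550686) (.two (nat_lit 4194304) (nat_lit 12129929743) (.one (nat_lit 339743804) .nil)))),
   .two (nat_lit 2887778319) (nat_lit 1178599439) (.two (nat_lit 742391816) (nat_lit 28790751348) (.two (nat_lit 11479810052) (nat_lit 21777875636) (.two (nat_lit 37748737) (nat_lit 4027581766) (.two (nat_lit 4194304) (nat_lit 11476668030) (.one (nat_lit 11476669633) .nil))))),
   .two (nat_lit 75497487) (nat_lit 12114198543) (.two (nat_lit 184993972232) (nat_lit 12147753074) (.two (nat_lit 184416206853) (nat_lit 343933286) (.two (nat_lit 34603009) (nat_lit 343934494) (.one (nat_lit 47581238379) .nil)))),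
   .two (nat_lit 183853121551) (nat_lit 3458203663) (.two (nat_lit 203423752) (nat_lit 4043309304) (.two (nat_lit 10947133445) (nat_lit 46474985667) (.two (nat_lit 612368385) (nat_lit 11544823083) (.two (nat_lit 2097152) (nat_lit 10385099277) (.one (nat_lit 165540795574) .nil))))),
   .two (nat_lit 50331663) (nat_lit 4030726168) (.two (nat_lit 721420296) (nat_lit 10003415161) (.two (nat_lit 171966469) (nat_lit 16777411) (.two (nat_lit 4194305) (nat_lit 37329306932) (.two (nat_lit 1048576) (nat_lit 11479812622) (.one (nat_lit 19127078797) .nil))))),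
   .two (nat_lit 8388623) (nat_lit 705691663) (.two (nat_lit 4605345800) (nat_lit 183946444932) (.two (nat_lit 102760453) (nat_lit 1947205827) (.two (nat_lit 8388609) (nat_lit 46977254774) (.two (nat_lit 8388608) (nat_lit 9766439447) (.one (nat_lit 8393935) .nil))))),
   .two (nat_lit 713031695) (nat_lit 28757196815) (.two (nat_lit 713031688) (nat_lit 11610882181) (.two (nat_lit 1343225861) (nat_lit 19537068391) (.two (nat_lit 605028353) (nat_lit 184423549455) (.one (nat_lit 9798946701) .nil)))),
   .two (nat_lit 4194319) (nat_lit 620757007) (.two (nat_lit 1175453704) (nat_lit 156367847619) (.two (nat_lit 8388609) (nat_lit 13221497376) (.one (nat_lit 4043314189) .nil))),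
   .two (nat_lit 16777231) (nat_lit 18933088271) (.two (nat_lit 18933088264) (nat_lit 16777282) (.two (nat_lit 156372041733) (nat_lit 50332514) (.two (nat_lit 8388608) (nat_lit 159266115500) .nil))),
   .two (nat_lit 11492392975) (nat_lit 1216348282) (.two (nat_lit 822083589) (nat_lit 9873391979) (.two (nat_lit 50331649) (nat_lit 156539815221) (.two (nat_lit 4194304) (nat_lit 46523222555) (.one (nat_lit 16782544) .nil)))),
   .two (nat_lit 75497487) (nat_lit 183912890392) (.two (nat_lit 739246088) (nat_lit 11618222194) (.two (nat_lit 11543773189) (nat_lit 11618222946) (.two (nat_lit 1048576) (nat_lit 880805405) (.one (nat_lit 303043545) .nil)))),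
   .two (nat_lit 184549399) (nat_lit 11610882072) (.two (nat_lit 9948889096) (nat_lit 3524264062) (.two (nat_lit 11543773189) (nat_lit 3003122028) (.two (nat_lit 620756993) (nat_lit 705693020) (.two (nat_lit 16777216) (nat_lit 28757199370) (.one (nat_lit 754978724) .nil))))),
   .two (nat_lit 11543773199) (nat_lit 158144135183) (.two (nat_lit 184986632200) (nat_lit 18926796927) (.two (nat_lit 9866051589) (nat_lit 166230753881) (.two (nat_lit 605028353) (nat_lit 10538190111) (.two (nat_lit 1048576) (nat_lit 1176505803) (.one (nat_lit 174685426828) .nil))))),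
   .two (nat_lit 2889875471) (nat_lit 12114198543) (.two (nat_lit 9768534024) (nat_lit 12147753072) (.two (nat_lit 1178599429) (nat_lit 1947206499) (.two (nat_lit 4194304) (nat_lit 1947207198) (.one (nat_lit 742397119) .nil)))),
   .two (nat_lit 809500687) (nat_lit 2994733080) (.two (nat_lit 2961178632) (nat_lit 183916036372) (.two (nat_lit 2894069765) (nat_lit 4634706115) (.two (nat_lit 8388609) (nat_lit 4634707307) (.two (nat_lit 4194304) (nat_lit 10537143907) (.one (nat_lit 18925752205) .nil))))),
   .two (nat_lit 742391823) (nat_lit 1358954511) (.two (nat_lit 620757000) (nat_lit 13188989047) (.two (nat_lit 184549381) (nat_lit 13222544228) (.two (nat_lit 16777216) (nat_lit 2317355543) (.one (nat_lit 166144774032) .nil)))),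
   .two (nat_lit 11543773199) (nat_lit 28693233777) (.two (nat_lit 739246085) (nat_lit 19130221410) (.two (nat_lit 1048576) (nat_lit 2889879464) .nil)),
   .two (nat_lit 37748751) (nat_lit 2994733082) (.two (nat_lit 41943048) (nat_lit 605028419) (.two (nat_lit 4194308) (nat_lit 158077026663) (.two (nat_lit 4194305) (nat_lit 19596838235) (.two (nat_lit 1048576) (nat_lit 158083320355) (.one (nat_lit 2416972866) .nil))))),
   .two (nat_lit 721420303) (nat_lit 158083317775) (.two (nat_lit 158083317768) (nat_lit 165526110320) (.two (nat_lit 10336862213) (nat_lit 9982444148) (.two (nat_lit 606076929) (nat_lit 16779547) (.two (nat_lit 8388608) (nat_lit 2418019782) (.one (nat_lit 158647456873) .nil))))),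
   .two (nat_lit 272629775) (nat_lit 20644364402) (.two (nat_lit 4194308) (nat_lit 20644365154) (.two (nat_lit 4194304) (nat_lit 28697431943) .nil)),
   .two (nat_lit 2954887183) (nat_lit 4638900250) (.two (nat_lit 47555018760) (nat_lit 2954887232) (.two (nat_lit 169869316) (nat_lit 343933123) (.two (nat_lit 2097153) (nat_lit 10947134773) (.two (nat_lit 16777216) (nat_lit 2350911398) .nil)))),
   .two (nat_lit 16777231) (nat_lit 606076943) (.two (nat_lit 822083592) (nat_lit 183913939063) (.two (nat_lit 4194308) (nat_lit 236978863) (.two (nat_lit 4194305) (nat_lit 1210059129) (.two (nat_lit 4194304) (nat_lit 11626614411) (.one (nat_lit 16782551) .nil))))),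
   .two (nat_lit 285212687) (nat_lit 183848927247) (.two (nat_lit 2902458376) (nat_lit 183848927298) (.two (nat_lit 13191086085) (nat_lit 285212867) (.two (nat_lit 37748737) (nat_lit 4043310383) (.two (nat_lit 4194304) (nat_lit 158158817807) (.one (nat_lit 4199603) .nil))))),
   .two (nat_lit 9768534031) (nat_lit 28087156751) (.two (nat_lit 9768534024) (nat_lit 2332033061) (.two (nat_lit 9768534024) (nat_lit 1377828882) (.two (nat_lit 721420292) (nat_lit 2921332935) (.two (nat_lit 721420292) (nat_lit 69206114) (.two (nat_lit 50331649) (nat_lit 1847592271) (.two (nat_lit 16777216) (nat_lit 2098130) (.one (nat_lit 2102525) .nil))))))),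
   .two (nat_lit 8388623) (nat_lit 606076943) (.two (nat_lit 176160774) (nat_lit 10907287672) (.two (nat_lit 8388616) (nat_lit 35651621) (.two (nat_lit 176160772) (nat_lit 46508540558) (.two (nat_lit 2097153) (nat_lit 4195665) (.two (nat_lit 2097152) (nat_lit 4196941) (.one (nat_lit 9867104220) .nil)))))),
   .two (nat_lit 9934209039) (nat_lit 159224168463) (.two (nat_lit 9934209030) (nat_lit 1947205761) (.two (nat_lit 169869320) (nat_lit 612368419) (.two (nat_lit 169869316) (nat_lit 1920991271) (.two (nat_lit 2097157) (nat_lit 612368755) (.two (nat_lit 9765388289) (nat_lit 780141903) (.two (nat_lit 1048576) (nat_lit 3028290100) (.one (nat_lit 11543777200) .nil))))))),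
   .two (nat_lit 4194319) (nat_lit 1210056745) (.two (nat_lit 4194312) (nat_lit 840957989) (.two (nat_lit 4194312) (nat_lit 304087058) (.two (nat_lit 4194308) (nat_lit 303038822) (.two (nat_lit 4194305) (nat_lit 46406830224) (.two (nat_lit 4194304) (nat_lit 150996631) (.one (nat_lit 1053951) .nil)))))),
   .two (nat_lit 4194319) (nat_lit 117440562) (.two (nat_lit 37748744) (nat_lit 3557818491) (.two (nat_lit 2889875461) (nat_lit 169870013) (.two (nat_lit 37748737) (nat_lit 20638074909) (.two (nat_lit 4194304) (nat_lit 21793607236) (.one (nat_lit 4198386) .nil))))),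
   .two (nat_lit 639631375) (nat_lit 1358954511) (.two (nat_lit 1358954504) (nat_lit 1277165589) (.two (nat_lit 721420292) (nat_lit 2921332938) (.two (nat_lit 2097153) (nat_lit 156380430797) (.two (nat_lit 16777216) (nat_lit 337642447) (.one (nat_lit 46407880762) .nil))))),
   .two (nat_lit 1191182351) (nat_lit 157038936092) (.two (nat_lit 3527409677) (nat_lit 156481093703) (.two (nat_lit 272629767) (nat_lit 9781117041) (.two (nat_lit 4601151493) (nat_lit 10351542311) (.two (nat_lit 4601151493) (nat_lit 788529349) (.two (nat_lit 4194305) (nat_lit 9948889559) (.two (nat_lit 2097152) (nat_lit 339741256) (.one (nat_lit 339744131) .nil))))))),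
   .two (nat_lit 19027460117) (nat_lit 19599982607) (.two (nat_lit 705691656) (nat_lit 19096666149) (.two (nat_lit 4194312) (nat_lit 166130090005) (.two (nat_lit 34603013) (nat_lit 843055313) (.two (nat_lit 34603013) (nat_lit 2956984516) (.two (nat_lit 34603009) (nat_lit 673187151) (.two (nat_lit 1048576) (nat_lit 236979166) (.one (nat_lit 4199681) .nil))))))),
   .two (nat_lit 28758245391) (nat_lit 3036676124) (.two (nat_lit 9781116937) (nat_lit 1847590979) (.two (nat_lit 1426063373) (nat_lit 174753579045) (.two (nat_lit 16777221) (nat_lit 1344274795) (.two (nat_lit 16777217) (nat_lit 166230755468) (.two (nat_lit 16777216) (nat_lit 10001321905) (.one (nat_lit 2954888871) .nil)))))),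
   .two (nat_lit 8388623) (nat_lit 11593056283) (.two (nat_lit 184549384) (nat_lit 343932994) (.two (nat_lit 16777221) (nat_lit 46984593446) (.two (nat_lit 16777221) (nat_lit 46984593504) (.two (nat_lit 16777217) (nat_lit 184423547103) (.two (nat_lit 16777216) (nat_lit 8390207) (.one (nat_lit 2994737208) .nil)))))),
   .two (nat_lit 28757196815) (nat_lit 47582281752) (.two (nat_lit 37748744) (nat_lit 156465365107) (.two (nat_lit 4194308) (nat_lit 9798943377) (.two (nat_lit 2097153) (nat_lit 10537141583) (.two (nat_lit 2097152) (nat_lit 1947206604) (.one (nat_lit 11577331681) .nil))))),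
   .two (nat_lit 50331663) (nat_lit 2954887183) (.two (nat_lit 50331656) (nat_lit 10370416677) (.two (nat_lit 50331656) (nat_lit 47582281748) (.two (nat_lit 16777220) (nat_lit 1310720209) (.two (nat_lit 16777220) (nat_lit 158647451747) (.two (nat_lit 8388609) (nat_lit 11477714220) (.two (nat_lit 8388608) (nat_lit 270534186) (.one (nat_lit 2102531) .nil))))))),
   .two (nat_lit 10370416655) (nat_lit 1358954511) (.two (nat_lit 1358954504) (nat_lit 2954887205) (.two (nat_lit 1358954504) (nat_lit 20738736148) (.two (nat_lit 9881780229) (nat_lit 21208498385) (.two (nat_lit 721420292) (nat_lit 9900654794) (.two (nat_lit 50331649) (nat_lit 1377831486) (.two (nat_lit 16777216) (nat_lit 1377831486) (.one (nat_lit 2350912735) .nil))))))),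
   .two (nat_lit 1277165583) (nat_lit 9881780249) (.two (nat_lit 183848927240) (nat_lit 10538188937) (.two (nat_lit 721420292) (nat_lit 21812478315) (.two (nat_lit 50331649) (nat_lit 156365751635) (.two (nat_lit 4194304) (nat_lit 3558867924) (.one (nat_lit 2098886) .nil))))),
   .two (nat_lit 11559501835) (nat_lit 11577327641) (.two (nat_lit 13187940358) (nat_lit 21778923656) (.two (nat_lit 822083592) (nat_lit 10370416661) (.two (nat_lit 1277165573) (nat_lit 2936013009) (.two (nat_lit 2097157) (nat_lit 754974815) (.two (nat_lit 2097153) (nat_lit 10921968496) (.two (nat_lit 1048576) (nat_lit 2098755) (.one (nat_lit 16782597) .nil))))))),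
   .two (nat_lit 174753579023) (nat_lit 158176641049) (.two (nat_lit 171966470) (nat_lit 174753579145) (.two (nat_lit 68157448) (nat_lit 28758245413) (.two (nat_lit 4194306) (nat_lit 1411383953) (.two (nat_lit 171966469) (nat_lit 270532811) (.two (nat_lit 4194305) (nat_lit 159251432785) (.two (nat_lit 1048576) (nat_lit 35655618) (.one (nat_lit 1413485793) .nil))))))),
   .two (nat_lit 183848927247) (nat_lit 47588573208) (.two (nat_lit 612368392) (nat_lit 4601151552) (.two (nat_lit 176160772) (nat_lit 13191086275) (.two (nat_lit 8388609) (nat_lit 205521351) (.two (nat_lit 2097152) (nat_lit 174692765623) (.one (nat_lit 174692765623) .nil))))),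
   .two (nat_lit 176160783) (nat_lit 12047089692) (.two (nat_lit 612368392) (nat_lit 156968681608) (.two (nat_lit 176160772) (nat_lit 10906239182) (.two (nat_lit 184549379) (nat_lit 11006902632) (.two (nat_lit 16777217) (nat_lit 839909599) (.two (nat_lit 16777216) (nat_lit 235930599) (.one (nat_lit 8393991) .nil)))))),
   .two (nat_lit 18928893967) (nat_lit 10343153679) (.two (nat_lit 4605345800) (nat_lit 306184229) (.two (nat_lit 4605345800) (nat_lit 843055122) (.two (nat_lit 8388612) (nat_lit 9802088818) (.two (nat_lit 8388612) (nat_lit 10372513891) (.two (nat_lit 37748737) (nat_lit 11484005232) (.two (nat_lit 4194304) (nat_lit 8392502) (.one (nat_lit 4198395) .nil))))))),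
   .two (nat_lit 20705181717) (nat_lit 2969567247) (.two (nat_lit 874512394) (nat_lit 184549490) (.two (nat_lit 620757000) (nat_lit 20705181717) (.two (nat_lit 28758245381) (nat_lit 12633243847) (.two (nat_lit 28758245381) (nat_lit 2432696516) (.two (nat_lit 9766436865) (nat_lit 21827158480) (.two (nat_lit 2097152) (nat_lit 16778821) (.one (nat_lit 16782600) .nil))))))),
   .two (nat_lit 165526110223) (nat_lit 19532873756) (.two (nat_lit 10506731533) (nat_lit 47548727333) (.two (nat_lit 1178599432) (nat_lit 3458203670) (.two (nat_lit 1277165572) (nat_lit 11614028145) (.two (nat_lit 1277165572) (nat_lit 28793897425) (.two (nat_lit 9766436865) (nat_lit 28693234136) (.two (nat_lit 4194304) (nat_lit 1780483629) (.one (nat_lit 2102537) .nil))))))),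
   .two (nat_lit 739246095) (nat_lit 28093448232) (.two (nat_lit 739246088) (nat_lit 28093448307) (.two (nat_lit 11543773189) (nat_lit 9772728527) (.two (nat_lit 11543773189) (nat_lit 11484004555) (.two (nat_lit 34603009) (nat_lit 3565160494) (.two (nat_lit 1048576) (nat_lit 13195284106) (.one (nat_lit 176166222) .nil)))))),
   .two (nat_lit 9866051599) (nat_lit 1786773555) (.two (nat_lit 9933160454) (nat_lit 4605345913) (.two (nat_lit 9866051592) (nat_lit 47588573534) (.two (nat_lit 1358954501) (nat_lit 739246438) (.two (nat_lit 620756993) (nat_lit 303039827) (.two (nat_lit 16777216) (nat_lit 11543774164) (.one (nat_lit 18925749921) .nil)))))),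
   .two (nat_lit 9866051599) (nat_lit 158077026319) (.two (nat_lit 12050235400) (nat_lit 1947205699) (.two (nat_lit 101711877) (nat_lit 21812477990) (.two (nat_lit 10336862213) (nat_lit 9966714976) (.two (nat_lit 156365750273) (nat_lit 159250383324) (.two (nat_lit 2097152) (nat_lit 4198195) (.one (nat_lit 2102538) .nil)))))),
   .two (nat_lit 41943055) (nat_lit 218103825) (.two (nat_lit 9781116936) (nat_lit 12155093124) (.two (nat_lit 2902458372) (nat_lit 2927624912) (.two (nat_lit 16777217) (nat_lit 12624856410) (.two (nat_lit 1048576) (nat_lit 8392503) (.one (nat_lit 839913445) .nil))))),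
   .two (nat_lit 1178599439) (nat_lit 1929379867) (.two (nat_lit 50331654) (nat_lit 156569174129) (.two (nat_lit 1358954504) (nat_lit 4634705957) (.two (nat_lit 721420290) (nat_lit 184419353211) (.two (nat_lit 721420292) (nat_lit 11580473541) (.two (nat_lit 50331649) (nat_lit 12620662132) (.two (nat_lit 16777216) (nat_lit 1312819780) (.one (nat_lit 4198396) .nil))))))),
   .two (nat_lit 1277165589) (nat_lit 165532401679) (.two (nat_lit 840957961) (nat_lit 20644364402) (.two (nat_lit 165532401672) (nat_lit 1277165589) (.two (nat_lit 46978301957) (nat_lit 46514831559) (.two (nat_lit 10370416645) (nat_lit 156372041826) (.two (nat_lit 2097153) (nat_lit 4605346250) (.two (nat_lit 2097152) (nat_lit 343933906) (.one (nat_lit 142611871) .nil))))))),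
   .two (nat_lit 159224168463) (nat_lit 159217877017) (.two (nat_lit 612368392) (nat_lit 9967763474) (.two (nat_lit 176160773) (nat_lit 184417255796) (.two (nat_lit 8388609) (nat_lit 9766437346) (.two (nat_lit 8388608) (nat_lit 2098155) (.one (nat_lit 8393995) .nil))))),
   .two (nat_lit 157036838927) (nat_lit 1916796943) (.two (nat_lit 1916796936) (nat_lit 157036838947) (.two (nat_lit 1916796936) (nat_lit 28758245394) (.two (nat_lit 28693233669) (nat_lit 337641671) (.two (nat_lit 11479810052) (nat_lit 10940842079) (.two (nat_lit 37748737) (nat_lit 2098037) (.two (nat_lit 4194304) (nat_lit 158647453215) (.one (nat_lit 2102540) .nil))))))),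
   .two (nat_lit 809500687) (nat_lit 2886729775) (.two (nat_lit 739246088) (nat_lit 184423547196) (.two (nat_lit 46414168068) (nat_lit 46510637697) (.two (nat_lit 605028353) (nat_lit 708839645) (.two (nat_lit 8388608) (nat_lit 4196950) (.one (nat_lit 8392701) .nil))))),
   .two (nat_lit 285212683) (nat_lit 4638900266) (.two (nat_lit 19529728008) (nat_lit 9906946085) (.two (nat_lit 9781116936) (nat_lit 1954545686) (.two (nat_lit 46992982021) (nat_lit 20711473521) (.two (nat_lit 638582789) (nat_lit 20652753108) (.two (nat_lit 16777217) (nat_lit 11551114103) (.two (nat_lit 1048576) (nat_lit 16778822) (.one (nat_lit 16782605) .nil))))))),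
   .two (nat_lit 4194319) (nat_lit 9881780239) (.two (nat_lit 705691656) (nat_lit 37249613937) (.two (nat_lit 4194308) (nat_lit 156548202534) (.two (nat_lit 4194308) (nat_lit 156548202592) (.two (nat_lit 2097153) (nat_lit 20707279319) (.two (nat_lit 16777216) (nat_lit 2101048) (.one (nat_lit 16781311) .nil)))))),
   .two (nat_lit 9866051599) (nat_lit 174753579023) (.two (nat_lit 1276117000) (nat_lit 174753579076) (.two (nat_lit 1276117000) (nat_lit 270532677) (.two (nat_lit 1276116996) (nat_lit 156567076903) (.two (nat_lit 9933160453) (nat_lit 158144135372) (.two (nat_lit 605028353) (nat_lit 10538189798) (.two (nat_lit 1048576) (nat_lit 4196951) (.one (nat_lit 4199694) .nil))))))),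
   .two (nat_lit 2889875471) (nat_lit 184416206863) (.two (nat_lit 2889875464) (nat_lit 166229704832) (.two (nat_lit 2889875460) (nat_lit 47581233191) (.two (nat_lit 16777219) (nat_lit 672137576) (.two (nat_lit 16777217) (nat_lit 13187940575) (.two (nat_lit 16777216) (nat_lit 4027581415) (.one (nat_lit 10537143019) .nil)))))),
   .two (nat_lit 1358954504) (nat_lit 47584379012) (.two (nat_lit 9881780229) (nat_lit 28760342567) (.two (nat_lit 2097152) (nat_lit 4195897) (.one (nat_lit 4599058408) .nil))),
   .two (nat_lit 50331659) (nat_lit 174752530447) (.two (nat_lit 50331654) (nat_lit 174752530467) (.two (nat_lit 83886088) (nat_lit 166196150290) (.two (nat_lit 705691650) (nat_lit 12633243847) (.two (nat_lit 721420292) (nat_lit 2316304479) (.two (nat_lit 34603009) (nat_lit 21827158480) (.two (nat_lit 1048576) (nat_lit 165540791262) (.one (nat_lit 16781315) .nil))))))),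
   .two (nat_lit 156971827240) (nat_lit 10436476953) (.two (nat_lit 10369368072) (nat_lit 156971827315) (.two (nat_lit 12117344261) (nat_lit 303038660) (.two (nat_lit 37748737) (nat_lit 9765388765) (.two (nat_lit 8388608) (nat_lit 9802092175) (.one (nat_lit 1343230969) .nil))))),
   .two (nat_lit 176160783) (nat_lit 184419352591) (.two (nat_lit 176160776) (nat_lit 12117344323) (.two (nat_lit 8388613) (nat_lit 876609632) (.two (nat_lit 8388611) (nat_lit 12117344451) (.two (nat_lit 8388609) (nat_lit 11513364939) (.two (nat_lit 8388608) (nat_lit 10372515370) (.one (nat_lit 4199696) .nil)))))),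
   .two (nat_lit 158176641045) (nat_lit 3525312564) (.two (nat_lit 46407876616) (nat_lit 3527409785) (.two (nat_lit 158091706373) (nat_lit 166229705378) (.two (nat_lit 50331649) (nat_lit 18925749643) (.two (nat_lit 4194304) (nat_lit 37246469086) (.one (nat_lit 1053969) .nil))))),
   .two (nat_lit 606076936) (nat_lit 13195280452) (.two (nat_lit 37748739) (nat_lit 158150426663) (.two (nat_lit 4194304) (nat_lit 8391263) (.one (nat_lit 8394003) .nil))),
   .two (nat_lit 1317011469) (nat_lit 158177689672) (.two (nat_lit 2954887173) (nat_lit 158653743310) (.two (nat_lit 4194304) (nat_lit 8391264) (.one (nat_lit 2102548) .nil))),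
   .two (nat_lit 156367847439) (nat_lit 2317352987) (.two (nat_lit 156367847432) (nat_lit 10907287589) (.two (nat_lit 46409973768) (nat_lit 10336862229) (.two (nat_lit 46409973764) (nat_lit 102760646) (.two (nat_lit 46407876611) (nat_lit 339738718) (.two (nat_lit 156372041729) (nat_lit 159217877858) (.two (nat_lit 8388608) (nat_lit 10370417630) (.one (nat_lit 13188990619) .nil))))))),
   .two (nat_lit 117440527) (nat_lit 3557818397) (.two (nat_lit 117440520) (nat_lit 3557818441) (.two (nat_lit 117440519) (nat_lit 19529728326) (.two (nat_lit 21777874949) (nat_lit 788529190) (.two (nat_lit 21777874949) (nat_lit 788529248) (.two (nat_lit 605028353) (nat_lit 3003121887) (.two (nat_lit 1048576) (nat_lit 1191183329) (.one (nat_lit 16780048) .nil))))))),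
   .two (nat_lit 754974735) (nat_lit 3557818397) (.two (nat_lit 754974728) (nat_lit 3557818441) (.two (nat_lit 2416967692) (nat_lit 754974756) (.two (nat_lit 21777874949) (nat_lit 855638054) (.two (nat_lit 21777874949) (nat_lit 855638112) (.two (nat_lit 605028353) (nat_lit 47563407583) (.two (nat_lit 1048576) (nat_lit 11492393927) (.one (nat_lit 183928621880) .nil))))))),
   .two (nat_lit 9934209039) (nat_lit 166229704728) (.two (nat_lit 9934209032) (nat_lit 1276117012) (.two (nat_lit 169869314) (nat_lit 1049348) (.two (nat_lit 2097153) (nat_lit 1343226081) (.two (nat_lit 2097152) (nat_lit 185020186856) (.one (nat_lit 1052682) .nil))))),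
   .two (nat_lit 639631375) (nat_lit 12147752990) (.two (nat_lit 158143086600) (nat_lit 9934209061) (.two (nat_lit 639631368) (nat_lit 1276117012) (.two (nat_lit 21207449605) (nat_lit 4028629201) (.two (nat_lit 1276116995) (nat_lit 1780482146) (.two (nat_lit 2097153) (nat_lit 2349859288) (.two (nat_lit 1048576) (nat_lit 2099809) (.one (nat_lit 2101259) .nil))))))),
   .two (nat_lit 37748751) (nat_lit 4638900241) (.two (nat_lit 272629768) (nat_lit 1746927878) (.two (nat_lit 183853121541) (nat_lit 270532981) (.two (nat_lit 2889875459) (nat_lit 2954888382) (.two (nat_lit 37748737) (nat_lit 174686471582) (.two (nat_lit 4194304) (nat_lit 8391266) (.one (nat_lit 8393959) .nil)))))),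
   .two (nat_lit 4194311) (nat_lit 8388754) (.two (nat_lit 4194307) (nat_lit 209715238) (.two (nat_lit 4194304) (nat_lit 1051235) (.one (nat_lit 8392716) .nil))),
   .two (nat_lit 184986632207) (nat_lit 19027460120) (.two (nat_lit 21777874952) (nat_lit 11007950964) (.two (nat_lit 705691652) (nat_lit 337641511) (.two (nat_lit 705691652) (nat_lit 9799991496) (.two (nat_lit 41943041) (nat_lit 19026411747) (.two (nat_lit 8388608) (nat_lit 2099812) (.one (nat_lit 2102550) .nil)))))),
   .two (nat_lit 157036838927) (nat_lit 174752530447) (.two (nat_lit 1745879048) (nat_lit 10437525525) (.two (nat_lit 1277165573) (nat_lit 4027580790) (.two (nat_lit 2097153) (nat_lit 1779434353) (.two (nat_lit 2097152) (nat_lit 1209008631) (.one (nat_lit 2102551) .nil))))),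
   .two (nat_lit 10370416661) (nat_lit 822083599) (.two (nat_lit 11544821769) (nat_lit 12633243780) (.two (nat_lit 822083592) (nat_lit 10370416661) (.two (nat_lit 1277165573) (nat_lit 2936013009) (.two (nat_lit 2097157) (nat_lit 3472883914) (.two (nat_lit 2097153) (nat_lit 10921968496) (.two (nat_lit 16777216) (nat_lit 2099814) (.one (nat_lit 16782617) .nil))))))),
   .two (nat_lit 37246468117) (nat_lit 1277165583) (.two (nat_lit 159216828426) (nat_lit 158144135282) (.two (nat_lit 1277165576) (nat_lit 37246468117) (.two (nat_lit 28690087941) (nat_lit 4599054535) (.two (nat_lit 11543773189) (nat_lit 19027460194) (.two (nat_lit 34603009) (nat_lit 166130090448) (.two (nat_lit 1048576) (nat_lit 12148802517) (.one (nat_lit 4028634358) .nil))))))),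
   .two (nat_lit 10506731535) (nat_lit 28758245391) (.two (nat_lit 28758245384) (nat_lit 166199296132) (.two (nat_lit 1847590917) (nat_lit 21781020711) (.two (nat_lit 1277165572) (nat_lit 47584379089) (.two (nat_lit 605028353) (nat_lit 809502031) (.two (nat_lit 1048576) (nat_lit 4197817) (.one (nat_lit 4199707) .nil)))))),
   .two (nat_lit 612368399) (nat_lit 18925748239) (.two (nat_lit 612368392) (nat_lit 303038501) (.two (nat_lit 612368392) (nat_lit 46406828053) (.two (nat_lit 1779433477) (nat_lit 11584667857) (.two (nat_lit 285212677) (nat_lit 713031890) (.two (nat_lit 34603009) (nat_lit 3036676976) (.two (nat_lit 1048576) (nat_lit 352324166) (.one (nat_lit 1053981) .nil))))))),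
   .two (nat_lit 4601151503) (nat_lit 12054429711) (.two (nat_lit 12054429704) (nat_lit 4601151552) (.two (nat_lit 183853121540) (nat_lit 843055299) (.two (nat_lit 156372041729) (nat_lit 12620662076) (.two (nat_lit 8388608) (nat_lit 185023333930) (.one (nat_lit 4199710) .nil))))),
   .two (nat_lit 158075977743) (nat_lit 166197198876) (.two (nat_lit 20637024264) (nat_lit 21208498291) (.two (nat_lit 21208498181) (nat_lit 156566028327) (.two (nat_lit 159216828421) (nat_lit 19128123595) (.two (nat_lit 9766436865) (nat_lit 336593367) (.two (nat_lit 2097152) (nat_lit 4195921) (.one (nat_lit 4198424) .nil)))))),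
   .two (nat_lit 176160783) (nat_lit 10385096719) (.two (nat_lit 176160776) (nat_lit 1291845652) (.two (nat_lit 654311429) (nat_lit 158083317858) (.two (nat_lit 620756993) (nat_lit 156976022843) (.two (nat_lit 8388608) (nat_lit 1224737001) (.one (nat_lit 8392729) .nil))))),
   .two (nat_lit 37748751) (nat_lit 1929379867) (.two (nat_lit 1358954504) (nat_lit 47584379012) (.two (nat_lit 9881780229) (nat_lit 19096666804) (.two (nat_lit 606076929) (nat_lit 4195195) (.two (nat_lit 16777216) (nat_lit 4198206) (.one (nat_lit 2101226) .nil))))),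
   .two (nat_lit 117440527) (nat_lit 1376780318) (.two (nat_lit 19596836872) (nat_lit 1358954533) (.two (nat_lit 19596836872) (nat_lit 9881780245) (.two (nat_lit 156968681477) (nat_lit 822083793) (.two (nat_lit 183845781508) (nat_lit 46422556884) (.two (nat_lit 34603009) (nat_lit 16779686) (.two (nat_lit 1048576) (nat_lit 16781119) (.one (nat_lit 788534522) .nil))))))),
   .two (nat_lit 3464495119) (nat_lit 16777244) (.two (nat_lit 11626610701) (nat_lit 813695048) (.two (nat_lit 185002360839) (nat_lit 1350566007) (.two (nat_lit 47555018757) (nat_lit 11593056462) (.two (nat_lit 165526110211) (nat_lit 9974055587) (.two (nat_lit 8388609) (nat_lit 16778664) (.two (nat_lit 2097152) (nat_lit 8391273) (.one (nat_lit 8394017) .nil))))))),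
   .two (nat_lit 9940500495) (nat_lit 166130089999) (.two (nat_lit 641728520) (nat_lit 10504634435) (.two (nat_lit 176160772) (nat_lit 136314918) (.two (nat_lit 176160772) (nat_lit 136314976) (.two (nat_lit 4194305) (nat_lit 1948254431) (.two (nat_lit 16777216) (nat_lit 8392512) (.one (nat_lit 8394018) .nil)))))),
   .two (nat_lit 50331663) (nat_lit 3464495121) (.two (nat_lit 46984593416) (nat_lit 721420401) (.two (nat_lit 3531603973) (nat_lit 46422557356) (.two (nat_lit 8388609) (nat_lit 46422558064) (.two (nat_lit 1048576) (nat_lit 16781121) (.one (nat_lit 13221498853) .nil))))),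
   .two (nat_lit 156372041743) (nat_lit 83886120) (.two (nat_lit 156372041736) (nat_lit 83886195) (.two (nat_lit 16777221) (nat_lit 3565158602) (.two (nat_lit 8388609) (nat_lit 11492394278) (.two (nat_lit 8388608) (nat_lit 11492395569) (.one (nat_lit 10519319589) .nil))))),
   .two (nat_lit 83886095) (nat_lit 1344274443) (.two (nat_lit 158144135176) (nat_lit 3036676117) (.two (nat_lit 1277165570) (nat_lit 16777591) (.two (nat_lit 50331649) (nat_lit 9766437346) (.two (nat_lit 16777216) (nat_lit 2098155) (.one (nat_lit 16782628) .nil))))),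
   .two (nat_lit 157036838927) (nat_lit 157038936079) (.two (nat_lit 46409973768) (nat_lit 9867100422) (.two (nat_lit 46407876610) (nat_lit 4195077) (.two (nat_lit 156365750275) (nat_lit 37749806) (.two (nat_lit 2097153) (nat_lit 9802090524) (.two (nat_lit 2097152) (nat_lit 4198210) (.one (nat_lit 2102566) .nil)))))),
   .two (nat_lit 176160783) (nat_lit 1358954511) (.two (nat_lit 1358954504) (nat_lit 1417674819) (.two (nat_lit 721420292) (nat_lit 158150426662) (.two (nat_lit 721420292) (nat_lit 46481277125) (.two (nat_lit 8388609) (nat_lit 675283167) (.two (nat_lit 8388608) (nat_lit 171967463) (.one (nat_lit 12117347061) .nil)))))),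
   .two (nat_lit 10506731535) (nat_lit 1913651215) (.two (nat_lit 10506731528) (nat_lit 156532473988) (.two (nat_lit 166132187141) (nat_lit 11543773904) (.two (nat_lit 2097153) (nat_lit 13187941701) (.two (nat_lit 2097152) (nat_lit 156968685105) (.one (nat_lit 1053992) .nil))))),
   .two (nat_lit 174753579023) (nat_lit 705691665) (.two (nat_lit 1343225864) (nat_lit 10940842097) (.two (nat_lit 9866051589) (nat_lit 9967764091) (.two (nat_lit 605028353) (nat_lit 47548728692) (.two (nat_lit 1048576) (nat_lit 169873204) (.one (nat_lit 2102569) .nil))))),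
   .two (nat_lit 809500687) (nat_lit 1209008178) (.two (nat_lit 809500680) (nat_lit 46473936918) (.two (nat_lit 4194308) (nat_lit 202375542) (.two (nat_lit 4194305) (nat_lit 1050025) (.two (nat_lit 4194304) (nat_lit 1051246) (.one (nat_lit 1052711) .nil))))),
   .two (nat_lit 158075977743) (nat_lit 174753579023) (.two (nat_lit 158075977736) (nat_lit 166197198885) (.two (nat_lit 158075977736) (nat_lit 1310720020) (.two (nat_lit 20637024260) (nat_lit 37247516768) (.two (nat_lit 21777874949) (nat_lit 9934209123) (.two (nat_lit 156372041729) (nat_lit 9900655948) (.two (nat_lit 8388608) (nat_lit 10437528128) (.one (nat_lit 2101288) .nil))))))),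
   .two (nat_lit 11479810063) (nat_lit 46473936918) (.two (nat_lit 11479810056) (nat_lit 9866051605) (.two (nat_lit 11543773189) (nat_lit 10506731618) (.two (nat_lit 34603009) (nat_lit 1178599905) (.two (nat_lit 1048576) (nat_lit 28089254123) (.one (nat_lit 4199723) .nil))))),
   .two (nat_lit 1178599439) (nat_lit 156364701747) (.two (nat_lit 184417255433) (nat_lit 9768534083) (.two (nat_lit 2097159) (nat_lit 272629797) (.two (nat_lit 28690087941) (nat_lit 11580473382) (.two (nat_lit 4599054341) (nat_lit 843055315) (.two (nat_lit 9768534017) (nat_lit 1050027) (.two (nat_lit 4194304) (nat_lit 1052486) (.one (nat_lit 1052713) .nil))))))),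
   .two (nat_lit 20644364303) (nat_lit 352321553) (.two (nat_lit 13203669000) (nat_lit 159224168515) (.two (nat_lit 16777220) (nat_lit 21818769446) (.two (nat_lit 16777220) (nat_lit 21818769504) (.two (nat_lit 16777217) (nat_lit 1384120796) (.two (nat_lit 2097152) (nat_lit 8391281) (.one (nat_lit 46414173471) .nil)))))),
   .two (nat_lit 184549391) (nat_lit 1178599439) (.two (nat_lit 184549384) (nat_lit 19130220612) (.two (nat_lit 184549384) (nat_lit 165528207429) (.two (nat_lit 16777221) (nat_lit 10338959399) (.two (nat_lit 16777221) (nat_lit 13224640716) (.two (nat_lit 612368385) (nat_lit 159219974615) (.two (nat_lit 8388608) (nat_lit 150999018) (.one (nat_lit 150999018) .nil))))))),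
   .two (nat_lit 8388623) (nat_lit 156971827230) (.two (nat_lit 8388616) (nat_lit 46510637093) (.two (nat_lit 8388616) (nat_lit 272629781) (.two (nat_lit 8388610) (nat_lit 4194517) (.two (nat_lit 184549379) (nat_lit 1178599781) (.two (nat_lit 16777217) (nat_lit 1178600290) (.two (nat_lit 16777216) (nat_lit 37249614814) (.one (nat_lit 71304859) .nil))))))),
   .two (nat_lit 10343153679) (nat_lit 47582281745) (.two (nat_lit 169869320) (nat_lit 2927624312) (.two (nat_lit 11543773189) (nat_lit 19033752216) (.two (nat_lit 34603009) (nat_lit 606079560) (.two (nat_lit 1048576) (nat_lit 606079560) (.one (nat_lit 1309676766) .nil))))),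
   .two (nat_lit 654311439) (nat_lit 156569174041) (.two (nat_lit 2902458376) (nat_lit 18928894074) (.two (nat_lit 11479810052) (nat_lit 16777254) (.two (nat_lit 11479810052) (nat_lit 28772925640) (.two (nat_lit 16777217) (nat_lit 11618222955) (.two (nat_lit 1048576) (nat_lit 8391285) (.one (nat_lit 16782639) .nil)))))),
   .two (nat_lit 12054429711) (nat_lit 19026411537) (.two (nat_lit 10939793416) (nat_lit 21214789754) (.two (nat_lit 174752530437) (nat_lit 185027526694) (.two (nat_lit 1913651205) (nat_lit 156372041937) (.two (nat_lit 37748737) (nat_lit 13221495255) (.two (nat_lit 4194304) (nat_lit 1051254) (.one (nat_lit 1054000) .nil)))))),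
   .two (nat_lit 20638072847) (nat_lit 156968681493) (.two (nat_lit 20638072840) (nat_lit 156968681493) (.two (nat_lit 11543773189) (nat_lit 807403716) (.two (nat_lit 34603009) (nat_lit 10940842209) (.two (nat_lit 1048576) (nat_lit 10538189307) (.one (nat_lit 159217878715) .nil))))),
   .two (nat_lit 620757007) (nat_lit 11543773199) (.two (nat_lit 9881780232) (nat_lit 156364701814) (.two (nat_lit 10385096709) (nat_lit 19529728643) (.two (nat_lit 9781116929) (nat_lit 185023333689) (.two (nat_lit 4194304) (nat_lit 10552871483) (.one (nat_lit 4199729) .nil))))),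
   .two (nat_lit 639631375) (nat_lit 158143086607) (.two (nat_lit 639631368) (nat_lit 10939793445) (.two (nat_lit 639631368) (nat_lit 158176641044) (.two (nat_lit 10370416645) (nat_lit 839909575) (.two (nat_lit 2887778308) (nat_lit 303038660) (.two (nat_lit 2097153) (nat_lit 11543774751) (.two (nat_lit 2097152) (nat_lit 11543774751) (.one (nat_lit 1054002) .nil))))))),
   .two (nat_lit 9934209039) (nat_lit 13237223452) (.two (nat_lit 156968681485) (nat_lit 158144135283) (.two (nat_lit 156968681477) (nat_lit 1277165774) (.two (nat_lit 2902458373) (nat_lit 2097361) (.two (nat_lit 34603009) (nat_lit 2098606) (.two (nat_lit 1048576) (nat_lit 2099832) (.one (nat_lit 1054004) .nil)))))),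
   .two (nat_lit 4194319) (nat_lit 41943235) (.two (nat_lit 4194308) (nat_lit 1175454562) (.two (nat_lit 2097153) (nat_lit 9768535581) (.two (nat_lit 1048576) (nat_lit 1277169541) (.one (nat_lit 11543778615) .nil)))),
   .two (nat_lit 9940500495) (nat_lit 654311619) (.two (nat_lit 1191182341) (nat_lit 9974055778) (.two (nat_lit 4194305) (nat_lit 679478813) (.two (nat_lit 4194304) (nat_lit 1920995209) (.one (nat_lit 11484009787) .nil)))),
   .two (nat_lit 12050235407) (nat_lit 184993972288) (.two (nat_lit 21214789640) (nat_lit 174753579203) (.two (nat_lit 10336862213) (nat_lit 156468511586) (.two (nat_lit 37748737) (nat_lit 142607902) (.two (nat_lit 4194304) (nat_lit 8392614) (.one (nat_lit 4599059769) .nil))))),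
   .two (nat_lit 620757007) (nat_lit 47555018816) (.two (nat_lit 620757000) (nat_lit 2994733251) (.two (nat_lit 176160772) (nat_lit 2902458827) (.two (nat_lit 176160771) (nat_lit 2332034452) (.two (nat_lit 612368385) (nat_lit 13221497369) (.two (nat_lit 1048576) (nat_lit 19134418824) (.one (nat_lit 20637028422) .nil)))))),
   .two (nat_lit 11559501839) (nat_lit 4605345827) (.two (nat_lit 285212687) (nat_lit 184993972242) (.two (nat_lit 50331656) (nat_lit 343933022) (.two (nat_lit 8388612) (nat_lit 47563407815) (.two (nat_lit 8388612) (nat_lit 50331870) (.two (nat_lit 8388609) (nat_lit 889193419) (.two (nat_lit 8388608) (nat_lit 46992984915) (.one (nat_lit 19134418997) .nil))))))),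
   .two (nat_lit 37246468120) (nat_lit 1358954563) (.two (nat_lit 10503585798) (nat_lit 11559502182) (.two (nat_lit 10939793416) (nat_lit 251658438) (.two (nat_lit 174752530437) (nat_lit 9982443743) (.two (nat_lit 9765388289) (nat_lit 1358955000) (.two (nat_lit 1048576) (nat_lit 150996621) (.one (nat_lit 16781394) .nil)))))),
   .two (nat_lit 184549391) (nat_lit 18933088369) (.two (nat_lit 184549384) (nat_lit 3565158597) (.two (nat_lit 184549384) (nat_lit 3565158602) (.two (nat_lit 46414168066) (nat_lit 16777694) (.two (nat_lit 46414168068) (nat_lit 11492393418) (.two (nat_lit 8388609) (nat_lit 822084564) (.two (nat_lit 8388608) (nat_lit 16779990) (.one (nat_lit 620761162) .nil))))))),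
   .two (nat_lit 46980399112) (nat_lit 28772925479) (.two (nat_lit 2097152) (nat_lit 9969862290) .nil),
   .two (nat_lit 1191182351) (nat_lit 158150426756) (.two (nat_lit 41943046) (nat_lit 46422557540) (.two (nat_lit 11551113224) (nat_lit 11525947589) (.two (nat_lit 713031684) (nat_lit 46422557540) (.two (nat_lit 50331649) (nat_lit 1753220637) (.two (nat_lit 16777216) (nat_lit 8390311) (.one (nat_lit 1384125766) .nil)))))),
   .two (nat_lit 1191182351) (nat_lit 158150426756) (.two (nat_lit 11551113224) (nat_lit 11525947589) (.two (nat_lit 11551113224) (nat_lit 654311522) (.two (nat_lit 713031684) (nat_lit 46422557540) (.two (nat_lit 50331649) (nat_lit 1753220637) (.two (nat_lit 16777216) (nat_lit 1384123174) (.one (nat_lit 1384123174) .nil)))))),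
   .two (nat_lit 1191182351) (nat_lit 158150426756) (.two (nat_lit 11551113224) (nat_lit 654311522) (.two (nat_lit 713031684) (nat_lit 46422557540) (.two (nat_lit 50331649) (nat_lit 1753220637) (.two (nat_lit 2097152) (nat_lit 157043132049) (.one (nat_lit 8394083) .nil))))),
   .two (nat_lit 46409973775) (nat_lit 11510218818) (.two (nat_lit 705691656) (nat_lit 10015998147) (.two (nat_lit 605028357) (nat_lit 16777690) (.two (nat_lit 2097155) (nat_lit 156367848290) (.two (nat_lit 2097153) (nat_lit 11476666891) (.two (nat_lit 1048576) (nat_lit 183913942932) (.one (nat_lit 1052756) .nil)))))),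
   .two (nat_lit 4613734415) (nat_lit 10942939174) (.two (nat_lit 50331656) (nat_lit 158646403110) (.two (nat_lit 46409973768) (nat_lit 174753579104) (.two (nat_lit 4601151493) (nat_lit 185020186847) (.two (nat_lit 2097153) (nat_lit 10335814136) (.two (nat_lit 2097152) (nat_lit 166232852109) (.one (nat_lit 12048141101) .nil)))))),
   .two (nat_lit 101711887) (nat_lit 840958080) (.two (nat_lit 1916796936) (nat_lit 166130090193) (.two (nat_lit 2887778312) (nat_lit 641728607) (.two (nat_lit 4194306) (nat_lit 2418017667) (.two (nat_lit 11476664324) (nat_lit 37314626008) (.two (nat_lit 2097153) (nat_lit 4195887) (.two (nat_lit 2097152) (nat_lit 4198341) (.one (nat_lit 2102629) .nil))))))),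
   .two (nat_lit 157036838927) (nat_lit 20704133157) (.two (nat_lit 157036838927) (nat_lit 21207449621) (.two (nat_lit 157036838920) (nat_lit 1048772) (.two (nat_lit 19530776581) (nat_lit 1947206086) (.two (nat_lit 46407876612) (nat_lit 37313577185) (.two (nat_lit 2097153) (nat_lit 183946445779) (.two (nat_lit 2097152) (nat_lit 165525063313) (.one (nat_lit 1054055) .nil))))))),
   .two (nat_lit 11551113231) (nat_lit 19532873795) (.two (nat_lit 1780482056) (nat_lit 157038936259) (.two (nat_lit 746586117) (nat_lit 171966933) (.two (nat_lit 102760453) (nat_lit 156569174475) (.two (nat_lit 4194305) (nat_lit 13195282957) (.two (nat_lit 4194304) (nat_lit 12624859073) (.one (nat_lit 20738741672) .nil)))))),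
   .two (nat_lit 47555018767) (nat_lit 3558867058) (.two (nat_lit 840957961) (nat_lit 4034920486) (.two (nat_lit 47555018760) (nat_lit 1377829063) (.two (nat_lit 46978301957) (nat_lit 3028288354) (.two (nat_lit 2097153) (nat_lit 343934493) (.two (nat_lit 2097152) (nat_lit 20745031576) (.one (nat_lit 11511272874) .nil)))))),
   .two (nat_lit 18933088271) (nat_lit 9881780337) (.two (nat_lit 20644364297) (nat_lit 159232557094) (.two (nat_lit 83886088) (nat_lit 183953785029) (.two (nat_lit 156372041733) (nat_lit 13203669215) (.two (nat_lit 41943041) (nat_lit 117442077) (.two (nat_lit 8388608) (nat_lit 3036680108) (.one (nat_lit 20719864619) .nil)))))),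
   .two (nat_lit 9948889103) (nat_lit 136315012) (.two (nat_lit 4599054342) (nat_lit 11525948260) (.two (nat_lit 9948889096) (nat_lit 4599054545) (.two (nat_lit 4599054341) (nat_lit 620757858) (.two (nat_lit 2097153) (nat_lit 620758557) (.two (nat_lit 1048576) (nat_lit 19142805159) (.one (nat_lit 1209010997) .nil)))))),
   .two (nat_lit 19532873743) (nat_lit 721420404) (.two (nat_lit 10506731526) (nat_lit 620757350) (.two (nat_lit 285212680) (nat_lit 166232850629) (.two (nat_lit 166132187140) (nat_lit 12129927391) (.two (nat_lit 9768534017) (nat_lit 620758557) (.two (nat_lit 4194304) (nat_lit 19545460622) (.one (nat_lit 47563410219) .nil)))))),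
   .two (nat_lit 19532873743) (nat_lit 721420404) (.two (nat_lit 285212680) (nat_lit 166232850629) (.two (nat_lit 16777224) (nat_lit 1212153954) (.two (nat_lit 166132187140) (nat_lit 12129927391) (.two (nat_lit 16777220) (nat_lit 156569174470) (.two (nat_lit 9768534017) (nat_lit 620758557) (.two (nat_lit 4194304) (nat_lit 19545460622) (.one (nat_lit 159232559904) .nil))))))),
   .two (nat_lit 41943055) (nat_lit 1191182448) (.two (nat_lit 218103817) (nat_lit 11551113254) (.two (nat_lit 41943048) (nat_lit 13203669193) (.two (nat_lit 1795162117) (nat_lit 13195281250) (.two (nat_lit 50331649) (nat_lit 13195281949) (.two (nat_lit 16777216) (nat_lit 166237048729) (.one (nat_lit 158083320630) .nil)))))),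
   .two (nat_lit 156367847439) (nat_lit 166130090005) (.two (nat_lit 4599054341) (nat_lit 1212154081) (.two (nat_lit 2097153) (nat_lit 10372514027) (.one (nat_lit 4198490) .nil))),
   .two (nat_lit 739246095) (nat_lit 28693233777) (.two (nat_lit 11479810056) (nat_lit 839909578) (.two (nat_lit 11476664324) (nat_lit 19130221410) (.two (nat_lit 34603009) (nat_lit 11513365465) (.two (nat_lit 1048576) (nat_lit 4198346) (.one (nat_lit 1346377026) .nil))))),
   .two (nat_lit 184549391) (nat_lit 1310720121) (.two (nat_lit 183845781512) (nat_lit 1358954691) (.two (nat_lit 1291845636) (nat_lit 158077027179) (.two (nat_lit 9781116929) (nat_lit 3558869517) (.two (nat_lit 1048576) (nat_lit 1795164869) (.one (nat_lit 12047092535) .nil))))),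
   .two (nat_lit 184549391) (nat_lit 1310720121) (.two (nat_lit 183845781512) (nat_lit 1358954691) (.two (nat_lit 13187940357) (nat_lit 11492393419) (.two (nat_lit 10385096707) (nat_lit 740296025) (.two (nat_lit 9781116929) (nat_lit 3558869517) (.two (nat_lit 1048576) (nat_lit 83887775) (.one (nat_lit 2416973224) .nil)))))),
   .two (nat_lit 4605345807) (nat_lit 3524263975) (.two (nat_lit 203423752) (nat_lit 9765388326) (.two (nat_lit 705691656) (nat_lit 746586309) (.two (nat_lit 705691652) (nat_lit 20644364759) (.two (nat_lit 2097153) (nat_lit 10436477432) (.two (nat_lit 2097152) (nat_lit 1051357) (.one (nat_lit 639634231) .nil)))))),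
   .two (nat_lit 10343153671) (nat_lit 169869518) (.two (nat_lit 8388608) (nat_lit 2101195) .nil),
   .two (nat_lit 159217877003) (nat_lit 4598005885) (.two (nat_lit 159217877007) (nat_lit 10506731557) (.two (nat_lit 28791799818) (nat_lit 1212154213) (.two (nat_lit 169869320) (nat_lit 19599982690) (.two (nat_lit 46407876610) (nat_lit 4634707274) (.two (nat_lit 2097157) (nat_lit 12150899148) (.two (nat_lit 2097153) (nat_lit 4195890) (.two (nat_lit 1048576) (nat_lit 4197086) (.one (nat_lit 1052766) .nil)))))))),
   .two (nat_lit 822083599) (nat_lit 166132187156) (.two (nat_lit 16777220) (nat_lit 10909385181) (.two (nat_lit 9768534017) (nat_lit 16778208) (.one (nat_lit 4199793) .nil))),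
   .two (nat_lit 47548727311) (nat_lit 754974836) (.two (nat_lit 2097158) (nat_lit 721420645) (.two (nat_lit 47548727304) (nat_lit 4043309255) (.two (nat_lit 169869316) (nat_lit 721421154) (.two (nat_lit 620756993) (nat_lit 673187357) (.two (nat_lit 16777216) (nat_lit 2099936) (.one (nat_lit 2100031) .nil)))))),
   .two (nat_lit 1753219087) (nat_lit 28757196835) (.two (nat_lit 18933088271) (nat_lit 158143086611) (.two (nat_lit 1753219080) (nat_lit 156465365087) (.two (nat_lit 1276116996) (nat_lit 880804294) (.two (nat_lit 1276116996) (nat_lit 156372041953) (.two (nat_lit 156364701697) (nat_lit 1417677356) (.two (nat_lit 1048576) (nat_lit 174759872145) (.one (nat_lit 8394099) .nil))))))),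
   .two (nat_lit 184986632199) (nat_lit 2887778948) (.two (nat_lit 1048576) (nat_lit 2099938) .nil),
   .two (nat_lit 2961178639) (nat_lit 673185829) (.two (nat_lit 169869327) (nat_lit 12054429714) (.two (nat_lit 612368392) (nat_lit 19026411716) (.two (nat_lit 176160770) (nat_lit 1050012) (.two (nat_lit 176160772) (nat_lit 20704133597) (.two (nat_lit 2097153) (nat_lit 1051202) (.two (nat_lit 1048576) (nat_lit 2099940) (.one (nat_lit 2102645) .nil))))))),
   .two (nat_lit 83886095) (nat_lit 12617515119) (.two (nat_lit 721420296) (nat_lit 135266508) (.two (nat_lit 83886088) (nat_lit 12617515103) (.two (nat_lit 705691652) (nat_lit 12129927391) (.two (nat_lit 705691652) (nat_lit 285213128) (.two (nat_lit 34603009) (nat_lit 16778209) (.two (nat_lit 1048576) (nat_lit 16781260) (.one (nat_lit 1054070) .nil))))))),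
   .two (nat_lit 83886095) (nat_lit 2886729750) (.two (nat_lit 1913651205) (nat_lit 620757217) (.two (nat_lit 9765388289) (nat_lit 3036676328) (.one (nat_lit 1054029) .nil))),
   .two (nat_lit 169869329) (nat_lit 1191182449) (.two (nat_lit 9934209032) (nat_lit 28772925478) (.two (nat_lit 9934209032) (nat_lit 251658437) (.two (nat_lit 169869316) (nat_lit 3003121887) (.two (nat_lit 2097153) (nat_lit 1191182840) (.two (nat_lit 2097152) (nat_lit 16781262) (.one (nat_lit 16782711) .nil)))))),
   .two (nat_lit 2954887175) (nat_lit 185035915470) (.two (nat_lit 2097152) (nat_lit 672138927) .nil),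
   .two (nat_lit 21777874955) (nat_lit 270532740) (.two (nat_lit 16777231) (nat_lit 101711893) (.two (nat_lit 165525061640) (nat_lit 185021235396) (.two (nat_lit 739246085) (nat_lit 156380430808) (.two (nat_lit 34603013) (nat_lit 184549601) (.two (nat_lit 50331649) (nat_lit 158176642002) (.two (nat_lit 1048576) (nat_lit 136316570) (.one (nat_lit 16782712) .nil))))))),
   .two (nat_lit 754974731) (nat_lit 2424307835) (.two (nat_lit 1358954511) (nat_lit 11544821797) (.two (nat_lit 159224168456) (nat_lit 10015998161) (.two (nat_lit 612368392) (nat_lit 12633243746) (.two (nat_lit 8388610) (nat_lit 251659651) (.two (nat_lit 176160773) (nat_lit 9867100624) (.two (nat_lit 8388609) (nat_lit 183928620591) (.two (nat_lit 16777216) (nat_lit 8392655) (.one (nat_lit 16782713) .nil)))))))),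
   .two (nat_lit 4601151503) (nat_lit 156465365059) (.two (nat_lit 159219974153) (nat_lit 705691686) (.two (nat_lit 4601151496) (nat_lit 605028550) (.two (nat_lit 46409973765) (nat_lit 10369368287) (.two (nat_lit 4194305) (nat_lit 12617515512) (.two (nat_lit 4194304) (nat_lit 2316306078) (.one (nat_lit 37313579821) .nil)))))),
   .two (nat_lit 156367847439) (nat_lit 1847591025) (.two (nat_lit 4601151494) (nat_lit 10940842342) (.two (nat_lit 156367847432) (nat_lit 69206213) (.two (nat_lit 46409973764) (nat_lit 606077151) (.two (nat_lit 4194305) (nat_lit 1847591416) (.two (nat_lit 4194304) (nat_lit 183846831777) (.one (nat_lit 185023336524) .nil)))))),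
   .two (nat_lit 174752530447) (nat_lit 3036676133) (.two (nat_lit 50331663) (nat_lit 2987393046) (.two (nat_lit 721420296) (nat_lit 269484228) (.two (nat_lit 12047089669) (nat_lit 21827158480) (.two (nat_lit 12047089669) (nat_lit 9948889312) (.two (nat_lit 34603009) (nat_lit 620758558) (.two (nat_lit 1048576) (nat_lit 16778930) (.one (nat_lit 4613739852) .nil))))))),
   .two (nat_lit 11479810063) (nat_lit 12115247229) (.two (nat_lit 1745879048) (nat_lit 4599054697) (.two (nat_lit 11546918917) (nat_lit 12114199004) (.two (nat_lit 165525061635) (nat_lit 136316204) (.two (nat_lit 9768534017) (nat_lit 166197200416) (.two (nat_lit 1048576) (nat_lit 28087159512) (.one (nat_lit 2102650) .nil)))))),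
   .two (nat_lit 2954887183) (nat_lit 156367847492) (.two (nat_lit 156367847439) (nat_lit 166230753317) (.two (nat_lit 3460300808) (nat_lit 2988441957) (.two (nat_lit 203423749) (nat_lit 174755676383) (.two (nat_lit 47550824453) (nat_lit 156969730508) (.two (nat_lit 605028353) (nat_lit 2098739) (.two (nat_lit 1048576) (nat_lit 13188990619) (.one (nat_lit 1054076) .nil))))))),
   .two (nat_lit 10385096719) (nat_lit 11007950916) (.two (nat_lit 3458203656) (nat_lit 156380430375) (.two (nat_lit 3458203656) (nat_lit 9915334853) (.two (nat_lit 47548727301) (nat_lit 822084055) (.two (nat_lit 2097153) (nat_lit 9781117432) (.two (nat_lit 4194304) (nat_lit 2101203) (.one (nat_lit 2102654) .nil)))))),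
   .two (nat_lit 156581756949) (nat_lit 11513364594) (.two (nat_lit 18928893967) (nat_lit 156581756949) (.two (nat_lit 2902458381) (nat_lit 2923430096) (.two (nat_lit 2902458373) (nat_lit 11010048464) (.two (nat_lit 2902458373) (nat_lit 9802088673) (.two (nat_lit 37748737) (nat_lit 11492393938) (.two (nat_lit 4194304) (nat_lit 10385098393) (.one (nat_lit 4199808) .nil))))))),
   .two (nat_lit 21208498187) (nat_lit 11543773205) (.two (nat_lit 638582789) (nat_lit 159251431649) (.two (nat_lit 8388609) (nat_lit 19597885675) (.one (nat_lit 2102657) .nil))),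
   .two (nat_lit 50331663) (nat_lit 28093448229) (.two (nat_lit 50331663) (nat_lit 12117344277) (.two (nat_lit 1350565896) (nat_lit 822083679) (.two (nat_lit 16777218) (nat_lit 8390046) (.two (nat_lit 16777221) (nat_lit 159257723342) (.two (nat_lit 41943041) (nat_lit 16778804) (.two (nat_lit 8388608) (nat_lit 4197096) (.one (nat_lit 4199810) .nil))))))),
   .two (nat_lit 41943055) (nat_lit 184986632305) (.two (nat_lit 41943048) (nat_lit 183913939303) (.two (nat_lit 713031685) (nat_lit 236978651) (.two (nat_lit 10503585797) (nat_lit 46474985931) (.two (nat_lit 156364701697) (nat_lit 773851653) (.two (nat_lit 8388608) (nat_lit 2101207) (.one (nat_lit 47555024220) .nil)))))),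
   .two (nat_lit 37748743) (nat_lit 10519314470) (.two (nat_lit 1048576) (nat_lit 2101208) .nil),
   .two (nat_lit 166132187157) (nat_lit 28758245413) (.two (nat_lit 174753579023) (nat_lit 166132187157) (.two (nat_lit 184419352585) (nat_lit 2097364) (.two (nat_lit 46409973762) (nat_lit 2098032) (.two (nat_lit 4601151493) (nat_lit 606077390) (.two (nat_lit 156365750273) (nat_lit 4196934) (.two (nat_lit 2097152) (nat_lit 4197097) (.one (nat_lit 2921338187) .nil))))))),
   .two (nat_lit 83886095) (nat_lit 1384120341) (.two (nat_lit 184993972229) (nat_lit 12633244125) (.two (nat_lit 41943041) (nat_lit 158662132218) (.one (nat_lit 16781411) .nil))),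
   .two (nat_lit 176160783) (nat_lit 157036839033) (.two (nat_lit 1745879048) (nat_lit 41943235) (.two (nat_lit 20637024260) (nat_lit 183846830948) (.two (nat_lit 612368385) (nat_lit 28691139085) (.two (nat_lit 8388608) (nat_lit 9934210713) (.one (nat_lit 2102661) .nil))))),
   .two (nat_lit 4613734415) (nat_lit 174753579045) (.two (nat_lit 822083599) (nat_lit 21208498194) (.two (nat_lit 4613734408) (nat_lit 19027460194) (.two (nat_lit 156364701701) (nat_lit 10370417104) (.two (nat_lit 16777220) (nat_lit 1847591137) (.two (nat_lit 16777217) (nat_lit 183913939925) (.two (nat_lit 1048576) (nat_lit 28758247076) (.one (nat_lit 16782726) .nil))))))),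
   .two (nat_lit 2902458379) (nat_lit 9866051605) (.two (nat_lit 16777220) (nat_lit 28790751457) (.two (nat_lit 16777217) (nat_lit 156364701931) (.one (nat_lit 183845784359) .nil))),
   .two (nat_lit 158075977743) (nat_lit 8388672) (.two (nat_lit 1913651205) (nat_lit 183920230877) (.two (nat_lit 41943041) (nat_lit 1276117495) (.one (nat_lit 11577333101) .nil))),
   .two (nat_lit 612368399) (nat_lit 654311492) (.two (nat_lit 612368392) (nat_lit 1392508967) (.two (nat_lit 2902458376) (nat_lit 4638900425) (.two (nat_lit 285212677) (nat_lit 276824287) (.two (nat_lit 16777217) (nat_lit 159224168952) (.two (nat_lit 1048576) (nat_lit 8391403) (.one (nat_lit 166129044277) .nil)))))),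
   .two (nat_lit 37748751) (nat_lit 11618222117) (.two (nat_lit 37748751) (nat_lit 343932946) (.two (nat_lit 606076936) (nat_lit 2961179127) (.two (nat_lit 46414168068) (nat_lit 21812478416) (.two (nat_lit 169869316) (nat_lit 2923430365) (.two (nat_lit 2097153) (nat_lit 159253530143) (.two (nat_lit 2097152) (nat_lit 272631460) (.one (nat_lit 8394119) .nil))))))),
   .two (nat_lit 176160776) (nat_lit 4632608807) (.two (nat_lit 2097152) (nat_lit 4634707602) .nil),
   .two (nat_lit 1795162127) (nat_lit 4605345860) (.two (nat_lit 10385096712) (nat_lit 28764536871) (.two (nat_lit 41943048) (nat_lit 1325400261) (.two (nat_lit 654311429) (nat_lit 158083318231) (.two (nat_lit 620756993) (nat_lit 183853122040) (.two (nat_lit 1048576) (nat_lit 4605348549) (.one (nat_lit 12624857912) .nil)))))),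
   .two (nat_lit 184986632207) (nat_lit 1847590978) (.two (nat_lit 184986632200) (nat_lit 4632608966) (.two (nat_lit 184986632200) (nat_lit 10907287650) (.two (nat_lit 705691652) (nat_lit 10940842850) (.two (nat_lit 605028353) (nat_lit 10907290112) (.two (nat_lit 1048576) (nat_lit 10538190491) (.one (nat_lit 2101351) .nil)))))),
   .two (nat_lit 889192469) (nat_lit 158144135202) (.two (nat_lit 3036676124) (nat_lit 174753579045) (.two (nat_lit 9781116937) (nat_lit 69206112) (.two (nat_lit 28758245383) (nat_lit 4194676) (.two (nat_lit 16777221) (nat_lit 2921332963) (.two (nat_lit 16777221) (nat_lit 2097615) (.two (nat_lit 16777217) (nat_lit 2954888871) (.two (nat_lit 16777216) (nat_lit 10001321905) (.one (nat_lit 4199816) .nil)))))))),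
   .two (nat_lit 174752530447) (nat_lit 843055217) (.two (nat_lit 4027580425) (nat_lit 12150898726) (.two (nat_lit 184419352584) (nat_lit 806355143) (.two (nat_lit 10939793413) (nat_lit 2353004767) (.two (nat_lit 156364701697) (nat_lit 306185758) (.two (nat_lit 1048576) (nat_lit 159253530273) (.one (nat_lit 165525065795) .nil)))))),
   .two (nat_lit 721420303) (nat_lit 156465365117) (.two (nat_lit 50331654) (nat_lit 10939794098) (.two (nat_lit 1343225863) (nat_lit 285212769) (.two (nat_lit 721420292) (nat_lit 158143087068) (.two (nat_lit 50331649) (nat_lit 11577328607) (.two (nat_lit 16777216) (nat_lit 9866054343) (.one (nat_lit 1052777) .nil)))))),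
   .two (nat_lit 184986632207) (nat_lit 46477082661) (.two (nat_lit 184986632207) (nat_lit 10506731538) (.two (nat_lit 12047089672) (nat_lit 9802088543) (.two (nat_lit 20637024258) (nat_lit 4195744) (.two (nat_lit 4194308) (nat_lit 2953839072) (.two (nat_lit 156364701697) (nat_lit 4195894) (.two (nat_lit 1048576) (nat_lit 19096668997) (.one (nat_lit 1054089) .nil))))))),
   .two (nat_lit 158144135176) (nat_lit 1350565927) (.two (nat_lit 16777216) (nat_lit 69208776) .nil),
   .two (nat_lit 50331659) (nat_lit 169869332) (.two (nat_lit 721420292) (nat_lit 1277165793) (.two (nat_lit 50331649) (nat_lit 183913939177) (.one (nat_lit 2100039) .nil))),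
   .two (nat_lit 16777231) (nat_lit 46978302084) (.two (nat_lit 16777224) (nat_lit 1310720209) (.two (nat_lit 16777223) (nat_lit 159251431519) (.two (nat_lit 16777218) (nat_lit 12618563811) (.two (nat_lit 184549379) (nat_lit 21208498635) (.two (nat_lit 16777217) (nat_lit 37314627104) (.two (nat_lit 16777216) (nat_lit 2101213) (.one (nat_lit 16782731) .nil))))))),
   .two (nat_lit 16777231) (nat_lit 158144135233) (.two (nat_lit 184549384) (nat_lit 20738736222) (.two (nat_lit 16777221) (nat_lit 21208498633) (.two (nat_lit 16777221) (nat_lit 20738736350) (.two (nat_lit 2097153) (nat_lit 12633245226) (.two (nat_lit 16777216) (nat_lit 28758247083) (.one (nat_lit 2102668) .nil)))))),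
   .two (nat_lit 9948889099) (nat_lit 184416206962) (.two (nat_lit 654311439) (nat_lit 156533522469) (.two (nat_lit 9948889094) (nat_lit 2953838791) (.two (nat_lit 10385096712) (nat_lit 20737687748) (.two (nat_lit 46407876610) (nat_lit 16777699) (.two (nat_lit 4599054341) (nat_lit 11593056716) (.two (nat_lit 2097153) (nat_lit 4613735986) (.two (nat_lit 1048576) (nat_lit 3573549790) (.one (nat_lit 1054094) .nil)))))))),
   .two (nat_lit 2889875467) (nat_lit 156532473988) (.two (nat_lit 2954887183) (nat_lit 10939793429) (.two (nat_lit 37748744) (nat_lit 10436477026) (.two (nat_lit 4194308) (nat_lit 46507491800) (.two (nat_lit 4194308) (nat_lit 156465365217) (.two (nat_lit 4194305) (nat_lit 46507492318) (.two (nat_lit 4194304) (nat_lit 304089922) (.one (nat_lit 2102671) .nil))))))),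
   .two (nat_lit 10343153679) (nat_lit 306184213) (.two (nat_lit 809500677) (nat_lit 46514831837) (.two (nat_lit 37748737) (nat_lit 243269866) (.one (nat_lit 4198509) .nil))),
   .two (nat_lit 28760342539) (nat_lit 28758245413) (.two (nat_lit 19599982607) (nat_lit 19027460117) (.two (nat_lit 2097158) (nat_lit 171966660) (.two (nat_lit 46407876610) (nat_lit 171967344) (.two (nat_lit 169869316) (nat_lit 2420113633) (.two (nat_lit 9768534017) (nat_lit 2099787) (.two (nat_lit 2097152) (nat_lit 183916038859) (.one (nat_lit 2102672) .nil))))))),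
   .two (nat_lit 184549387) (nat_lit 20704133257) (.two (nat_lit 16777231) (nat_lit 1779433493) (.two (nat_lit 156365750280) (nat_lit 158176641122) (.two (nat_lit 46407876612) (nat_lit 2987393496) (.two (nat_lit 46407876612) (nat_lit 20704133345) (.two (nat_lit 2097153) (nat_lit 2987394014) (.two (nat_lit 2097152) (nat_lit 12617516691) (.one (nat_lit 16782737) .nil))))))),
   .two (nat_lit 9940500495) (nat_lit 28086108227) (.two (nat_lit 159224168456) (nat_lit 21777875139) (.two (nat_lit 176160772) (nat_lit 183916036964) (.two (nat_lit 8388609) (nat_lit 11510220320) (.two (nat_lit 8388608) (nat_lit 4198367) (.one (nat_lit 8394130) .nil))))),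
   .two (nat_lit 2969567247) (nat_lit 184993972259) (.two (nat_lit 2969567247) (nat_lit 13195280402) (.two (nat_lit 2969567240) (nat_lit 183853121631) (.two (nat_lit 184549380) (nat_lit 679477712) (.two (nat_lit 184549380) (nat_lit 156372041953) (.two (nat_lit 16777217) (nat_lit 28697428949) (.two (nat_lit 8388608) (nat_lit 620758675) (.one (nat_lit 8394131) .nil))))))),
   .two (nat_lit 158075977743) (nat_lit 150994981) (.two (nat_lit 620757007) (nat_lit 28798091285) (.two (nat_lit 157043130378) (nat_lit 21793603679) (.two (nat_lit 9873391621) (nat_lit 4598006218) (.two (nat_lit 809500677) (nat_lit 10335813857) (.two (nat_lit 41943041) (nat_lit 1376782898) (.two (nat_lit 8388608) (nat_lit 168822423) (.one (nat_lit 1054101) .nil))))))),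
   .two (nat_lit 1344274443) (nat_lit 28086108270) (.two (nat_lit 21777874959) (nat_lit 21812477970) (.two (nat_lit 1746927626) (nat_lit 873464266) (.two (nat_lit 10370416645) (nat_lit 873464266) (.two (nat_lit 184549379) (nat_lit 873464033) (.two (nat_lit 50331649) (nat_lit 13221496374) (.two (nat_lit 16777216) (nat_lit 165525063315) (.one (nat_lit 16782743) .nil))))))),
   .two (nat_lit 713031695) (nat_lit 47548727360) (.two (nat_lit 75497480) (nat_lit 2988441795) (.two (nat_lit 41943045) (nat_lit 20705182172) (.two (nat_lit 41943041) (nat_lit 46978302984) (.two (nat_lit 8388608) (nat_lit 639635374) (.one (nat_lit 11618224949) .nil))))),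
   .two (nat_lit 2894069771) (nat_lit 28758245497) (.two (nat_lit 46978301969) (nat_lit 176160835) (.two (nat_lit 156365750280) (nat_lit 166136381638) (.two (nat_lit 3458203656) (nat_lit 3464495309) (.two (nat_lit 8388610) (nat_lit 183913939171) (.two (nat_lit 46407876612) (nat_lit 166136381903) (.two (nat_lit 50331649) (nat_lit 203425310) (.two (nat_lit 16777216) (nat_lit 156976025484) (.one (nat_lit 612372590) .nil)))))))),
   .two (nat_lit 171966475) (nat_lit 158144135289) (.two (nat_lit 272629775) (nat_lit 4632608786) (.two (nat_lit 46978301960) (nat_lit 46980399309) (.two (nat_lit 46407876612) (nat_lit 20640170447) (.two (nat_lit 28758245381) (nat_lit 2889875681) (.two (nat_lit 50331649) (nat_lit 2954888734) (.two (nat_lit 16777216) (nat_lit 28089257868) (.one (nat_lit 4198511) .nil))))))),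
   .two (nat_lit 75497487) (nat_lit 337641490) (.two (nat_lit 183861510149) (nat_lit 612368609) (.two (nat_lit 16777217) (nat_lit 47582281960) (.one (nat_lit 8394136) .nil))),
   .two (nat_lit 183853121551) (nat_lit 158143086629) (.two (nat_lit 183853121551) (nat_lit 158646403093) (.two (nat_lit 183853121544) (nat_lit 1048772) (.two (nat_lit 174752530437) (nat_lit 11618222548) (.two (nat_lit 1913651205) (nat_lit 156372041953) (.two (nat_lit 156364701697) (nat_lit 4638901200) (.two (nat_lit 8388608) (nat_lit 165525063322) (.one (nat_lit 1054105) .nil))))))),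
   .two (nat_lit 21208498204) (nat_lit 158179786824) (.two (nat_lit 10940841997) (nat_lit 21781020711) (.two (nat_lit 157036838919) (nat_lit 171966661) (.two (nat_lit 10336862213) (nat_lit 184419353047) (.two (nat_lit 605028353) (nat_lit 157036840623) (.two (nat_lit 1048576) (nat_lit 4197106) (.one (nat_lit 156365755779) .nil)))))),
   .two (nat_lit 3527409679) (nat_lit 46422556690) (.two (nat_lit 16777220) (nat_lit 156569174240) (.two (nat_lit 16777217) (nat_lit 46477082856) (.one (nat_lit 16781427) .nil))),
   .two (nat_lit 50331663) (nat_lit 46510637074) (.two (nat_lit 184549378) (nat_lit 4195188) (.two (nat_lit 16777217) (nat_lit 4601151722) (.one (nat_lit 4199835) .nil))),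
   .two (nat_lit 9866051599) (nat_lit 1753219187) (.two (nat_lit 9866051592) (nat_lit 1283457227) (.two (nat_lit 156372041735) (nat_lit 9798942916) (.two (nat_lit 1343225861) (nat_lit 20745028455) (.two (nat_lit 68157443) (nat_lit 184993972682) (.two (nat_lit 605028353) (nat_lit 8390200) (.two (nat_lit 1048576) (nat_lit 156372044505) (.one (nat_lit 8394062) .nil))))))),
   .two (nat_lit 270532619) (nat_lit 11492393025) (.two (nat_lit 3525312527) (nat_lit 218103829) (.two (nat_lit 3525312520) (nat_lit 158091706580) (.two (nat_lit 721420290) (nat_lit 304087508) (.two (nat_lit 50331653) (nat_lit 166130090209) (.two (nat_lit 620756993) (nat_lit 236979152) (.two (nat_lit 2097152) (nat_lit 46489667223) (.one (nat_lit 16782748) .nil))))))),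
   .two (nat_lit 9866051599) (nat_lit 21208498210) (.two (nat_lit 1276117000) (nat_lit 10001317926) (.two (nat_lit 1276117000) (nat_lit 10001317984) (.two (nat_lit 9933160453) (nat_lit 1210057173) (.two (nat_lit 9765388289) (nat_lit 46407877595) (.two (nat_lit 2097152) (nat_lit 166232853227) (.one (nat_lit 4199837) .nil)))))),
   .two (nat_lit 1343225871) (nat_lit 166130090018) (.two (nat_lit 68157448) (nat_lit 136314918) (.two (nat_lit 68157448) (nat_lit 136314976) (.two (nat_lit 19597885445) (nat_lit 12047090140) (.two (nat_lit 4194305) (nat_lit 19128125112) (.two (nat_lit 4194304) (nat_lit 2101220) (.one (nat_lit 2101364) .nil)))))),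
   .two (nat_lit 20705181717) (nat_lit 165532401701) (.two (nat_lit 47555018767) (nat_lit 20705181717) (.two (nat_lit 11511267337) (nat_lit 21785215074) (.two (nat_lit 157036838917) (nat_lit 12054430154) (.two (nat_lit 28758245381) (nat_lit 3464495329) (.two (nat_lit 9766436865) (nat_lit 183853122514) (.two (nat_lit 2097152) (nat_lit 10007611090) (.one (nat_lit 8394143) .nil))))))),
   .two (nat_lit 612368399) (nat_lit 19530776613) (.two (nat_lit 176160783) (nat_lit 11007950869) (.two (nat_lit 612368392) (nat_lit 1780482250) (.two (nat_lit 46978301957) (nat_lit 184423547340) (.two (nat_lit 176160772) (nat_lit 102760925) (.two (nat_lit 2097153) (nat_lit 4605346760) (.two (nat_lit 2097152) (nat_lit 1216351016) (.one (nat_lit 8394144) .nil))))))),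
   .two (nat_lit 809500687) (nat_lit 822083602) (.two (nat_lit 11492392962) (nat_lit 4194532) (.two (nat_lit 50331649) (nat_lit 4195299) (.one (nat_lit 16782753) .nil))),
   .two (nat_lit 16777231) (nat_lit 739246117) (.two (nat_lit 16777231) (nat_lit 185020186645) (.two (nat_lit 4613734408) (nat_lit 4634706015) (.two (nat_lit 1276116996) (nat_lit 174755677033) (.two (nat_lit 13191086085) (nat_lit 1392509809) (.two (nat_lit 9765388289) (nat_lit 19029558229) (.two (nat_lit 1048576) (nat_lit 16778939) (.one (nat_lit 4199842) .nil))))))),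
   .two (nat_lit 117440527) (nat_lit 12115247143) (.two (nat_lit 117440520) (nat_lit 12115247143) (.two (nat_lit 169869320) (nat_lit 2936012998) (.two (nat_lit 705691651) (nat_lit 1411383519) (.two (nat_lit 34603009) (nat_lit 2350907896) (.two (nat_lit 1048576) (nat_lit 46489667244) (.one (nat_lit 16780105) .nil)))))),
   .two (nat_lit 101711879) (nat_lit 156548202534) (.two (nat_lit 1048576) (nat_lit 16781288) .nil),
   .two (nat_lit 20644364303) (nat_lit 166130090018) (.two (nat_lit 183947493385) (nat_lit 13228834855) (.two (nat_lit 10506731527) (nat_lit 1948254304) (.two (nat_lit 9768534019) (nat_lit 10001318115) (.two (nat_lit 9768534017) (nat_lit 8389605) (.two (nat_lit 4194304) (nat_lit 2101227) (.one (nat_lit 2102692) .nil)))))),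
   .two (nat_lit 12114198539) (nat_lit 156466413588) (.two (nat_lit 183845781508) (nat_lit 166197199073) (.two (nat_lit 34603009) (nat_lit 35651817) (.one (nat_lit 4028631876) .nil))),
   .two (nat_lit 1291845666) (nat_lit 19597885511) (.two (nat_lit 10940842008) (nat_lit 1392508966) (.two (nat_lit 19530776584) (nat_lit 19109249247) (.two (nat_lit 157036838917) (nat_lit 20753417226) (.two (nat_lit 9766436865) (nat_lit 1291846665) (.two (nat_lit 2097152) (nat_lit 9881783076) (.one (nat_lit 16781466) .nil)))))),
   .two (nat_lit 158647451669) (nat_lit 654311537) (.two (nat_lit 10385096719) (nat_lit 10907287650) (.two (nat_lit 10385096712) (nat_lit 174753579233) (.two (nat_lit 166130089986) (nat_lit 16778194) (.two (nat_lit 9781116931) (nat_lit 270532843) (.two (nat_lit 9766436865) (nat_lit 11559503510) (.two (nat_lit 2097152) (nat_lit 754976466) (.one (nat_lit 183928623250) .nil))))))),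
   .two (nat_lit 11479810114) (nat_lit 1376780306) (.two (nat_lit 176160773) (nat_lit 2956984826) (.one (nat_lit 1052827) .nil)),
   .two (nat_lit 713031747) (nat_lit 9899606036) (.two (nat_lit 8388612) (nat_lit 10503586027) (.one (nat_lit 1052828) .nil)),
   .two (nat_lit 46414168084) (nat_lit 19130220656) (.two (nat_lit 1178599439) (nat_lit 28093448290) (.two (nat_lit 1178599432) (nat_lit 165532401889) (.two (nat_lit 46414168066) (nat_lit 4195283) (.two (nat_lit 176160771) (nat_lit 3024093419) (.two (nat_lit 8388609) (nat_lit 708839064) (.two (nat_lit 4194304) (nat_lit 47555020498) (.one (nat_lit 8392861) .nil))))))),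
   .two (nat_lit 34603026) (nat_lit 166132187156) (.two (nat_lit 11543773189) (nat_lit 4030726376) (.one (nat_lit 8394184) .nil)),
   .two (nat_lit 9948889109) (nat_lit 12147752980) (.two (nat_lit 184549381) (nat_lit 739246312) (.one (nat_lit 2102729) .nil)),
   .two (nat_lit 2889875475) (nat_lit 1291845652) (.two (nat_lit 2889875461) (nat_lit 2936013033) (.one (nat_lit 46477086856) .nil)),
   .two (nat_lit 1847590946) (nat_lit 1048648) (.two (nat_lit 184416206863) (nat_lit 1210056742) (.two (nat_lit 50331656) (nat_lit 21208498647) (.two (nat_lit 721420293) (nat_lit 19027460600) (.two (nat_lit 16777217) (nat_lit 166130091018) (.two (nat_lit 2097152) (nat_lit 16781379) (.one (nat_lit 156567081104) .nil)))))),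
   .two (nat_lit 166245433365) (nat_lit 46978301971) (.two (nat_lit 1291845637) (nat_lit 19128123898) (.one (nat_lit 2102730) .nil)),
   .two (nat_lit 176160787) (nat_lit 2969567250) (.two (nat_lit 2902458373) (nat_lit 3458203883) (.one (nat_lit 20638078396) .nil)),
   .two (nat_lit 1417674773) (nat_lit 20638072853) (.two (nat_lit 9765388293) (nat_lit 166197199080) (.one (nat_lit 8394187) .nil)),
   .two (nat_lit 673185813) (nat_lit 166132187157) (.two (nat_lit 169869316) (nat_lit 21814575337) (.one (nat_lit 4198542) .nil)),
   .two (nat_lit 285212690) (nat_lit 4599054466) (.two (nat_lit 9781116943) (nat_lit 28087156831) (.two (nat_lit 218103816) (nat_lit 3458203882) (.two (nat_lit 20638072837) (nat_lit 3573547979) (.two (nat_lit 2969567237) (nat_lit 3458203882) (.two (nat_lit 2097153) (nat_lit 16778911) (.two (nat_lit 2097152) (nat_lit 158091709267) (.one (nat_lit 16782796) .nil))))))),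
   .two (nat_lit 2954887203) (nat_lit 183920230439) (.two (nat_lit 612368399) (nat_lit 136314919) (.two (nat_lit 11551113231) (nat_lit 166129041504) (.two (nat_lit 169869320) (nat_lit 2994733523) (.two (nat_lit 2097159) (nat_lit 75497946) (.two (nat_lit 12054429701) (nat_lit 11543773688) (.two (nat_lit 612368387) (nat_lit 46507492298) (.two (nat_lit 612368385) (nat_lit 1050272) (.two (nat_lit 1048576) (nat_lit 10007612198) (.one (nat_lit 1054158) .nil))))))))),
   .two (nat_lit 158144135202) (nat_lit 28697428040) (.two (nat_lit 165532401679) (nat_lit 69206054) (.two (nat_lit 12117344264) (nat_lit 47555019223) (.two (nat_lit 11546918917) (nat_lit 28093448696) (.two (nat_lit 37748737) (nat_lit 2894070273) (.two (nat_lit 4194304) (nat_lit 8391472) (.one (nat_lit 184987686382) .nil)))))),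
   .two (nat_lit 3558866965) (nat_lit 754974738) (.two (nat_lit 721420293) (nat_lit 1746927851) (.one (nat_lit 16782802) .nil)),
   .two (nat_lit 889192469) (nat_lit 11543773203) (.two (nat_lit 16777221) (nat_lit 1343226088) (.one (nat_lit 16782803) .nil)),
   .two (nat_lit 184993972290) (nat_lit 12633243686) (.two (nat_lit 184993972239) (nat_lit 12633243686) (.two (nat_lit 620756999) (nat_lit 185021235671) (.two (nat_lit 620756995) (nat_lit 166197199352) (.two (nat_lit 41943041) (nat_lit 2936013312) (.two (nat_lit 8388608) (nat_lit 2100017) (.one (nat_lit 11593060497) .nil)))))),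
   .two (nat_lit 34603026) (nat_lit 158146232341) (.two (nat_lit 713031685) (nat_lit 156968681707) (.one (nat_lit 135271865) .nil)),
   .two (nat_lit 10007609365) (nat_lit 46409973781) (.two (nat_lit 176160773) (nat_lit 13191086312) (.one (nat_lit 16782806) .nil)),
   .two (nat_lit 46980399123) (nat_lit 10336862229) (.two (nat_lit 1277165573) (nat_lit 4030726376) (.one (nat_lit 2102743) .nil)),
   .two (nat_lit 2902458388) (nat_lit 46510637074) (.two (nat_lit 4194308) (nat_lit 3573547240) (.one (nat_lit 4199896) .nil)),
   .two (nat_lit 1291845652) (nat_lit 47582281746) (.two (nat_lit 3525312517) (nat_lit 9814671593) (.one (nat_lit 16782779) .nil)),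
   .two (nat_lit 46409973794) (nat_lit 2097227) (.two (nat_lit 46409973775) (nat_lit 1176502310) (.two (nat_lit 46409973768) (nat_lit 46407876835) (.two (nat_lit 46409973764) (nat_lit 21208498680) (.two (nat_lit 4194305) (nat_lit 304088076) (.two (nat_lit 8388608) (nat_lit 28760345381) (.one (nat_lit 158146236547) .nil)))))),
   .two (nat_lit 46409973779) (nat_lit 28690087955) (.two (nat_lit 28690087941) (nat_lit 2923430122) (.one (nat_lit 4199898) .nil)),
   .two (nat_lit 156367847445) (nat_lit 156581756950) (.two (nat_lit 4194306) (nat_lit 10452205803) (.one (nat_lit 16782811) .nil)),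
   .two (nat_lit 272629779) (nat_lit 28697427989) (.two (nat_lit 620756997) (nat_lit 272629994) (.one (nat_lit 8394204) .nil)),
   .two (nat_lit 169869377) (nat_lit 21214789670) (.two (nat_lit 4194319) (nat_lit 12121538598) (.two (nat_lit 2954887184) (nat_lit 28693233760) (.two (nat_lit 2954887176) (nat_lit 166232850907) (.two (nat_lit 8388615) (nat_lit 156465365455) (.two (nat_lit 4194308) (nat_lit 9765388792) (.two (nat_lit 4194307) (nat_lit 269485012) (.two (nat_lit 2097153) (nat_lit 672138893) (.two (nat_lit 1048576) (nat_lit 4198474) (.one (nat_lit 11543777406) .nil))))))))),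
   .two (nat_lit 4605345827) (nat_lit 20738736203) (.two (nat_lit 813694991) (nat_lit 285212867) (.two (nat_lit 4599054342) (nat_lit 11626611556) (.two (nat_lit 16777224) (nat_lit 304087494) (.two (nat_lit 184549381) (nat_lit 166130090488) (.two (nat_lit 184549381) (nat_lit 840958936) (.two (nat_lit 2097153) (nat_lit 28697429664) (.two (nat_lit 2097152) (nat_lit 822086438) (.one (nat_lit 2432701878) .nil)))))))),
   .two (nat_lit 11618222147) (nat_lit 35651621) (.two (nat_lit 37748751) (nat_lit 276824158) (.two (nat_lit 8388616) (nat_lit 11511267563) (.two (nat_lit 4194306) (nat_lit 2098137) (.two (nat_lit 4194308) (nat_lit 183846830315) (.two (nat_lit 2097153) (nat_lit 166199297681) (.two (nat_lit 2097152) (nat_lit 2889877202) (.one (nat_lit 158144139410) .nil))))))),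
   .two (nat_lit 156367847459) (nat_lit 9933160487) (.two (nat_lit 4194319) (nat_lit 46489665574) (.two (nat_lit 4194319) (nat_lit 46489665632) (.two (nat_lit 285212678) (nat_lit 21777875810) (.two (nat_lit 2902458376) (nat_lit 13187940806) (.two (nat_lit 2902458372) (nat_lit 158075978232) (.two (nat_lit 2902458372) (nat_lit 4598006744) (.two (nat_lit 9781116929) (nat_lit 772803366) (.two (nat_lit 16777216) (nat_lit 772803366) (.one (nat_lit 822089149) .nil))))))))),
   .two (nat_lit 19094568998) (nat_lit 9765388361) (.two (nat_lit 2887778320) (nat_lit 742391846) (.two (nat_lit 41943047) (nat_lit 12617515231) (.two (nat_lit 41943043) (nat_lit 10000269816) (.two (nat_lit 41943041) (nat_lit 159216829449) (.two (nat_lit 8388608) (nat_lit 166229707568) (.one (nat_lit 10906243224) .nil)))))),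
   .two (nat_lit 13222543381) (nat_lit 9906946068) (.two (nat_lit 34603013) (nat_lit 12054429928) (.one (nat_lit 2102751) .nil)),
   .two (nat_lit 2097170) (nat_lit 4030726165) (.two (nat_lit 2887778308) (nat_lit 2889875961) (.one (nat_lit 2102752) .nil)),
   .two (nat_lit 47548727330) (nat_lit 1048652) (.two (nat_lit 12047089679) (nat_lit 156365750311) (.two (nat_lit 41943048) (nat_lit 158177690069) (.two (nat_lit 8388612) (nat_lit 166229705681) (.two (nat_lit 16777217) (nat_lit 28086108672) (.two (nat_lit 16777216) (nat_lit 8391479) (.one (nat_lit 8394209) .nil)))))),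
   .two (nat_lit 4605345826) (nat_lit 18926796875) (.two (nat_lit 11551113254) (nat_lit 1310720025) (.two (nat_lit 606076936) (nat_lit 2961178847) (.two (nat_lit 37748739) (nat_lit 28798091776) (.two (nat_lit 8388609) (nat_lit 18926797836) (.two (nat_lit 4194304) (nat_lit 18926799653) (.one (nat_lit 166237048963) .nil)))))),
   .two (nat_lit 2316304405) (nat_lit 46978301974) (.two (nat_lit 705691650) (nat_lit 2098729) (.one (nat_lit 1054181) .nil)),
   .two (nat_lit 806354962) (nat_lit 780140565) (.two (nat_lit 1753219077) (nat_lit 183946445303) (.one (nat_lit 1054182) .nil)),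
   .two (nat_lit 159251431442) (nat_lit 12047089685) (.two (nat_lit 20637024258) (nat_lit 2098140) (.one (nat_lit 2101416) .nil)),
   .two (nat_lit 2923429908) (nat_lit 1913651221) (.two (nat_lit 46409973764) (nat_lit 9966715115) (.one (nat_lit 28086111054) .nil)),
   .two (nat_lit 19130220565) (nat_lit 772800532) (.two (nat_lit 11479810053) (nat_lit 9966715115) (.one (nat_lit 4199912) .nil)),
   .two (nat_lit 11584667669) (nat_lit 1212153966) (.two (nat_lit 13191086115) (nat_lit 12054429733) (.two (nat_lit 21785214987) (nat_lit 37316722885) (.two (nat_lit 158083317775) (nat_lit 13224640607) (.two (nat_lit 159224168454) (nat_lit 3527410118) (.two (nat_lit 13191086088) (nat_lit 11014242781) (.two (nat_lit 20644364290) (nat_lit 46980400088) (.two (nat_lit 75497475) (nat_lit 21781021662) (.two (nat_lit 612368385) (nat_lit 46980400795) (.two (nat_lit 8388608) (nat_lit 166232853282) (.one (nat_lit 4199914) .nil)))))))))),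
   .two (nat_lit 28798091285) (nat_lit 2921332756) (.two (nat_lit 10372513797) (nat_lit 4028629226) (.one (nat_lit 8394220) .nil)),
   .two (nat_lit 11525947430) (nat_lit 10537140262) (.two (nat_lit 10336862215) (nat_lit 21811429889) (.two (nat_lit 3531603973) (nat_lit 9915335168) (.two (nat_lit 2097152) (nat_lit 16781456) (.one (nat_lit 16782849) .nil)))),
   .two (nat_lit 11543773203) (nat_lit 10338959458) (.two (nat_lit 2889875467) (nat_lit 28086108385) (.two (nat_lit 156367847432) (nat_lit 46473937131) (.two (nat_lit 1276116994) (nat_lit 4195991) (.two (nat_lit 9765388289) (nat_lit 4634708816) (.two (nat_lit 1048576) (nat_lit 4634708816) (.one (nat_lit 4199939) .nil)))))),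
   .two (nat_lit 176160802) (nat_lit 4028629030) (.two (nat_lit 4599054343) (nat_lit 9768534520) (.two (nat_lit 2097157) (nat_lit 2357199360) (.two (nat_lit 1048576) (nat_lit 2101397) (.one (nat_lit 1779437738) .nil)))),
   .two (nat_lit 50331656) (nat_lit 20644364303) (.two (nat_lit 605028353) (nat_lit 156573368439) (.two (nat_lit 1048576) (nat_lit 16778990) (.one (nat_lit 16782860) .nil))),
   .two (nat_lit 2902458376) (nat_lit 183949591394) .nil,
   .two (nat_lit 183853121544) (nat_lit 10506731534) (.two (nat_lit 9948889093) (nat_lit 183853121653) (.two (nat_lit 16777216) (nat_lit 8391511) (.one (nat_lit 157051522186) .nil))),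
   .two (nat_lit 83886088) (nat_lit 13195280399) (.two (nat_lit 8388609) (nat_lit 12618563705) (.two (nat_lit 2097152) (nat_lit 9915336428) (.one (nat_lit 2102797) .nil))),
   .two (nat_lit 4194312) (nat_lit 218103922) (.two (nat_lit 4194304) (nat_lit 37262198160) .nil),
   .two (nat_lit 2961178632) (nat_lit 157036838925) (.two (nat_lit 157036838917) (nat_lit 612368748) (.one (nat_lit 276826356) .nil)),
   .two (nat_lit 2954887176) (nat_lit 2969567257) (.two (nat_lit 50331649) (nat_lit 156364701832) (.two (nat_lit 2097152) (nat_lit 183946445875) (.one (nat_lit 16780511) .nil))),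
   .two (nat_lit 4194312) (nat_lit 10385096817) (.two (nat_lit 4194304) (nat_lit 18941477481) (.one (nat_lit 1054222) .nil)),
   .two (nat_lit 4194312) (nat_lit 285212684) (.two (nat_lit 16777221) (nat_lit 306184216) (.two (nat_lit 37748737) (nat_lit 135266419) (.two (nat_lit 16777216) (nat_lit 1410335866) (.one (nat_lit 1052924) .nil)))),
   .two (nat_lit 12050235400) (nat_lit 158176641047) (.two (nat_lit 2097153) (nat_lit 174685421693) (.two (nat_lit 1048576) (nat_lit 4195457) (.one (nat_lit 1054223) .nil))),
   .two (nat_lit 4194312) (nat_lit 218103922) (.two (nat_lit 4194304) (nat_lit 28806480546) (.one (nat_lit 16782864) .nil)),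
   .two (nat_lit 641728520) (nat_lit 11510218776) (.two (nat_lit 4194305) (nat_lit 243269896) (.two (nat_lit 1048576) (nat_lit 8390400) (.one (nat_lit 8394531) .nil))),
   .two (nat_lit 654311436) (nat_lit 11577327628) (.two (nat_lit 11543773189) (nat_lit 2969568304) (.one (nat_lit 157051521054) .nil)),
   .two (nat_lit 159251431437) (nat_lit 4598005886) (.two (nat_lit 2097152) (nat_lit 2953841706) .nil),
   .two (nat_lit 75497480) (nat_lit 822083599) (.two (nat_lit 16777217) (nat_lit 645923960) (.one (nat_lit 2102801) .nil)),
   .two (nat_lit 165525061640) (nat_lit 183846830214) (.two (nat_lit 1048576) (nat_lit 184417256514) (.one (nat_lit 16781595) .nil)),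
   .two (nat_lit 8388616) (nat_lit 16777228) (.two (nat_lit 285212677) (nat_lit 4034920709) (.two (nat_lit 4194304) (nat_lit 16780122) (.one (nat_lit 16782866) .nil))),
   .two (nat_lit 37748744) (nat_lit 117440525) (.two (nat_lit 272629765) (nat_lit 10370416655) (.two (nat_lit 4194305) (nat_lit 1277165634) (.two (nat_lit 16777216) (nat_lit 270535731) .nil))),
   .two (nat_lit 2902458376) (nat_lit 809500680) (.two (nat_lit 4194308) (nat_lit 2432697731) .nil),
   .two (nat_lit 654311432) (nat_lit 156533522445) (.two (nat_lit 10504634373) (nat_lit 654311439) (.two (nat_lit 9766436865) (nat_lit 1795162227) (.two (nat_lit 4194304) (nat_lit 9915335313) (.one (nat_lit 16779676) .nil)))),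
   .two (nat_lit 9766436872) (nat_lit 184419352591) (.two (nat_lit 37748737) (nat_lit 1377828991) (.two (nat_lit 4194304) (nat_lit 2921333383) (.one (nat_lit 2102803) .nil))),
   .two (nat_lit 46414168072) (nat_lit 156365750280) (.two (nat_lit 8388613) (nat_lit 10385096745) (.two (nat_lit 2097153) (nat_lit 10343154381) (.one (nat_lit 16782868) .nil))),
   .two (nat_lit 2902458376) (nat_lit 19128123405) (.two (nat_lit 2954887173) (nat_lit 157043130383) (.two (nat_lit 2097153) (nat_lit 150996102) (.one (nat_lit 2101546) .nil))),
   .two (nat_lit 16777224) (nat_lit 174692761719) (.two (nat_lit 8388608) (nat_lit 16779024) (.one (nat_lit 16782869) .nil)),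
   .two (nat_lit 75497480) (nat_lit 3458203661) (.two (nat_lit 2097157) (nat_lit 4605345917) (.two (nat_lit 1048576) (nat_lit 156472706131) (.one (nat_lit 8393008) .nil))),
   .two (nat_lit 159224168456) (nat_lit 165526110216) (.two (nat_lit 176160772) (nat_lit 788529193) (.two (nat_lit 50331649) (nat_lit 28093448313) (.two (nat_lit 2097152) (nat_lit 16779025) (.one (nat_lit 10552872224) .nil)))),
   .two (nat_lit 721420296) (nat_lit 9899606141) (.two (nat_lit 16777216) (nat_lit 1049738) (.one (nat_lit 1052978) .nil)),
   .two (nat_lit 21207449608) (nat_lit 166130090050) (.two (nat_lit 1048576) (nat_lit 169869946) (.one (nat_lit 2102806) .nil)),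
   .two (nat_lit 50331656) (nat_lit 20644364423) (.two (nat_lit 8388608) (nat_lit 12147753621) (.one (nat_lit 1052981) .nil)),
   .two (nat_lit 620757004) (nat_lit 28764536935) (.two (nat_lit 8388609) (nat_lit 20652753166) (.two (nat_lit 1048576) (nat_lit 16780124) (.one (nat_lit 8393014) .nil))),
   .two (nat_lit 1175453704) (nat_lit 10506731532) (.two (nat_lit 9768534021) (nat_lit 28790751257) (.two (nat_lit 34603009) (nat_lit 645923437) (.one (nat_lit 8392887) .nil))),
   .two (nat_lit 184549384) (nat_lit 1847590927) (.two (nat_lit 16777217) (nat_lit 28758245492) (.two (nat_lit 1048576) (nat_lit 3558867605) (.one (nat_lit 2102807) .nil))),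
   .two (nat_lit 8388616) (nat_lit 11544821893) (.two (nat_lit 4194304) (nat_lit 2098965) (.one (nat_lit 13224643664) .nil)),
   .two (nat_lit 169869320) (nat_lit 157038936088) (.two (nat_lit 2097153) (nat_lit 1312817290) (.two (nat_lit 1048576) (nat_lit 4197213) (.one (nat_lit 1052992) .nil))),
   .two (nat_lit 1358954504) (nat_lit 28690087951) (.two (nat_lit 606076929) (nat_lit 9966715162) (.two (nat_lit 1048576) (nat_lit 2098312) (.one (nat_lit 2102808) .nil))),
   .two (nat_lit 203423752) (nat_lit 754974728) (.two (nat_lit 11559501829) (nat_lit 1377829226) (.one (nat_lit 2101572) .nil)),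
   .two (nat_lit 343932940) (nat_lit 306184206) (.two (nat_lit 4601151493) (nat_lit 3028287625) (.two (nat_lit 8388608) (nat_lit 4196121) (.one (nat_lit 4198725) .nil))),
   .two (nat_lit 620757000) (nat_lit 1410334842) (.two (nat_lit 16777216) (nat_lit 1050394) (.one (nat_lit 16781638) .nil)),
   .two (nat_lit 9866051592) (nat_lit 156372041740) (.two (nat_lit 1343225861) (nat_lit 159257723127) (.two (nat_lit 16777216) (nat_lit 1052866) .nil)),
   .two (nat_lit 169869320) (nat_lit 18933088369) (.two (nat_lit 2097152) (nat_lit 159257723504) (.one (nat_lit 8394265) .nil)),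
   .two (nat_lit 1178599432) (nat_lit 183912890393) (.two (nat_lit 2097153) (nat_lit 156569174129) (.two (nat_lit 1048576) (nat_lit 46510638469) .nil)),
   .two (nat_lit 2954887176) (nat_lit 3472883986) (.two (nat_lit 16777216) (nat_lit 11007951579) (.one (nat_lit 158647455037) .nil)),
   .two (nat_lit 1343225864) (nat_lit 880803965) (.two (nat_lit 8388608) (nat_lit 185035919680) .nil),
   .two (nat_lit 203423752) (nat_lit 159216828441) (.two (nat_lit 2097153) (nat_lit 1745879175) (.two (nat_lit 2097152) (nat_lit 101712511) (.one (nat_lit 1054234) .nil))),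
   .two (nat_lit 184549384) (nat_lit 183845781552) (.two (nat_lit 2956984325) (nat_lit 11559501949) (.two (nat_lit 4194305) (nat_lit 19026412233) (.two (nat_lit 1048576) (nat_lit 16781498) (.one (nat_lit 1054332) .nil)))),
   .two (nat_lit 1178599432) (nat_lit 18933088271) (.two (nat_lit 9768534021) (nat_lit 1283457151) (.two (nat_lit 37748737) (nat_lit 157043131015) (.two (nat_lit 4194304) (nat_lit 8391620) (.one (nat_lit 9768536615) .nil)))),
   .two (nat_lit 1277165576) (nat_lit 1358954611) (.two (nat_lit 620756993) (nat_lit 874512744) (.two (nat_lit 16777216) (nat_lit 19530778658) (.one (nat_lit 2101842) .nil))),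
   .two (nat_lit 20638072840) (nat_lit 1279262764) (.two (nat_lit 1178599429) (nat_lit 19128123519) (.two (nat_lit 9768534017) (nat_lit 10437526143) (.two (nat_lit 2097152) (nat_lit 306185504) (.one (nat_lit 4200061) .nil)))),
   .two (nat_lit 218103816) (nat_lit 4028629107) (.two (nat_lit 2097153) (nat_lit 9915335015) (.two (nat_lit 2097152) (nat_lit 12062822957) .nil)),
   .two (nat_lit 3460300808) (nat_lit 1426063404) (.two (nat_lit 34603013) (nat_lit 20652753259) (.two (nat_lit 2097152) (nat_lit 46507492702) (.one (nat_lit 4200062) .nil))),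
   .two (nat_lit 46980399112) (nat_lit 174686470169) (.two (nat_lit 46407876612) (nat_lit 2420114797) (.one (nat_lit 16782975) .nil)),
   .two (nat_lit 2887778312) (nat_lit 46523220015) (.two (nat_lit 822083589) (nat_lit 2987393152) (.two (nat_lit 34603009) (nat_lit 13237224483) (.two (nat_lit 1048576) (nat_lit 2936014220) (.one (nat_lit 2102912) .nil)))),
   .two (nat_lit 272629768) (nat_lit 1847590927) (.two (nat_lit 9934209029) (nat_lit 46980399170) (.two (nat_lit 606076929) (nat_lit 157038936665) (.two (nat_lit 2097152) (nat_lit 157038937376) (.one (nat_lit 156365754790) .nil)))),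
   .two (nat_lit 203423752) (nat_lit 10335813764) (.two (nat_lit 2097153) (nat_lit 772801173) (.two (nat_lit 2097152) (nat_lit 1051593) (.one (nat_lit 1054337) .nil))),
   .two (nat_lit 83886088) (nat_lit 183912890621) (.two (nat_lit 34603009) (nat_lit 18933090408) (.one (nat_lit 8393318) .nil)),
   .two (nat_lit 4613734408) (nat_lit 19096666156) (.two (nat_lit 285212677) (nat_lit 10506731770) (.two (nat_lit 37748737) (nat_lit 16778979) (.two (nat_lit 1048576) (nat_lit 37314626936) (.one (nat_lit 2101867) .nil)))),
   .two (nat_lit 157038936076) (nat_lit 10436476953) (.two (nat_lit 156971827205) (nat_lit 156364701815) (.two (nat_lit 8388609) (nat_lit 47550824811) (.two (nat_lit 8388608) (nat_lit 4196527) (.one (nat_lit 1054338) .nil)))),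
   .two (nat_lit 2936012813) (nat_lit 13195280399) (.two (nat_lit 2902458373) (nat_lit 183920230532) (.two (nat_lit 16777217) (nat_lit 343935074) (.one (nat_lit 8394371) .nil))),
   .two (nat_lit 184419352584) (nat_lit 10343153679) (.two (nat_lit 46414168068) (nat_lit 28693234982) (.one (nat_lit 174755679856) .nil)),
   .two (nat_lit 272629768) (nat_lit 10504634383) (.two (nat_lit 2889875461) (nat_lit 18926797063) (.two (nat_lit 4194305) (nat_lit 2317354059) (.two (nat_lit 4194304) (nat_lit 2100172) (.one (nat_lit 4200068) .nil)))),
   .two (nat_lit 9881780232) (nat_lit 183845781519) (.two (nat_lit 806354949) (nat_lit 21827158125) (.two (nat_lit 9765388289) (nat_lit 19042140785) (.two (nat_lit 4194304) (nat_lit 2099378) (.one (nat_lit 2102917) .nil)))),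
   .two (nat_lit 4601151496) (nat_lit 28697428011) (.two (nat_lit 4194308) (nat_lit 10343153916) (.two (nat_lit 8388609) (nat_lit 9802089757) (.one (nat_lit 4200070) .nil))),
   .two (nat_lit 8388616) (nat_lit 9967763480) (.two (nat_lit 169869316) (nat_lit 12624856428) (.one (nat_lit 874516875) .nil)),
   .two (nat_lit 68157448) (nat_lit 28758245391) (.two (nat_lit 705691652) (nat_lit 12150898825) (.two (nat_lit 2097153) (nat_lit 11546919585) (.two (nat_lit 4194304) (nat_lit 1050806) (.one (nat_lit 34607540) .nil)))),
   .two (nat_lit 285212680) (nat_lit 158144135183) (.two (nat_lit 270532613) (nat_lit 251658514) (.two (nat_lit 34603009) (nat_lit 21208498824) (.two (nat_lit 1048576) (nat_lit 2100176) (.one (nat_lit 2102919) .nil)))),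
   .two (nat_lit 11543773192) (nat_lit 1291845657) (.two (nat_lit 11476664324) (nat_lit 158649548933) (.two (nat_lit 16777217) (nat_lit 1050720) (.one (nat_lit 876614201) .nil))),
   .two (nat_lit 156367847437) (nat_lit 10906239233) (.two (nat_lit 37748737) (nat_lit 10503587208) (.one (nat_lit 1053303) .nil)),
   .two (nat_lit 83886088) (nat_lit 183845781623) (.two (nat_lit 50331649) (nat_lit 157035792473) (.one (nat_lit 1053304) .nil)),
   .two (nat_lit 46407876616) (nat_lit 4605345916) (.two (nat_lit 34603009) (nat_lit 183846832167) (.one (nat_lit 1054344) .nil)),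
   .two (nat_lit 272629768) (nat_lit 654311439) (.two (nat_lit 2902458372) (nat_lit 2923431208) (.one (nat_lit 11513368155) .nil)),
   .two (nat_lit 218103816) (nat_lit 272629824) (.two (nat_lit 16777217) (nat_lit 13224642078) .nil),
   .two (nat_lit 169869320) (nat_lit 3036676349) (.two (nat_lit 16777217) (nat_lit 156535620661) (.two (nat_lit 1048576) (nat_lit 251660360) (.one (nat_lit 4200073) .nil))),
   .two (nat_lit 2969567240) (nat_lit 10506731645) (.two (nat_lit 4194305) (nat_lit 183928619655) (.two (nat_lit 4194304) (nat_lit 16780242) (.one (nat_lit 876612109) .nil))),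
   .two (nat_lit 16777224) (nat_lit 11477712997) (.two (nat_lit 184549381) (nat_lit 46474985609) (.two (nat_lit 37748737) (nat_lit 1309672055) (.two (nat_lit 4194304) (nat_lit 2100179) (.one (nat_lit 16782986) .nil)))),
   .two (nat_lit 9948889096) (nat_lit 46474985497) (.two (nat_lit 4599054341) (nat_lit 156548202753) (.two (nat_lit 2097153) (nat_lit 10921968237) (.two (nat_lit 2097152) (nat_lit 16779448) (.one (nat_lit 16782987) .nil)))),
   .two (nat_lit 612368392) (nat_lit 9881780289) (.two (nat_lit 16777217) (nat_lit 1753219680) (.two (nat_lit 16777216) (nat_lit 8391636) (.one (nat_lit 16781805) .nil))),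
   .two (nat_lit 2902458376) (nat_lit 203423788) (.two (nat_lit 2969567237) (nat_lit 270533126) (.two (nat_lit 8388609) (nat_lit 822083942) (.two (nat_lit 2097152) (nat_lit 822085731) (.one (nat_lit 8394309) .nil)))),
   .two (nat_lit 11551113224) (nat_lit 19529728015) (.two (nat_lit 806354949) (nat_lit 343933589) (.two (nat_lit 2097152) (nat_lit 83888143) (.one (nat_lit 16782988) .nil))),
   .two (nat_lit 713031688) (nat_lit 4647288898) (.two (nat_lit 16777217) (nat_lit 1753219430) (.two (nat_lit 16777216) (nat_lit 8390842) (.one (nat_lit 8394381) .nil))),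
   .two (nat_lit 16777224) (nat_lit 75497487) (.two (nat_lit 16777220) (nat_lit 4605345917) (.two (nat_lit 41943041) (nat_lit 754978295) .nil)),
   .two (nat_lit 46407876616) (nat_lit 165532401779) (.two (nat_lit 2097153) (nat_lit 813697063) (.one (nat_lit 8394382) .nil)),
   .two (nat_lit 156968681485) (nat_lit 156569174128) (.two (nat_lit 16777217) (nat_lit 11614028644) (.one (nat_lit 4199038) .nil)),
   .two (nat_lit 68157448) (nat_lit 620757016) (.two (nat_lit 705691652) (nat_lit 809501749) (.two (nat_lit 1048576) (nat_lit 4198587) (.one (nat_lit 620760721) .nil))),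
   .two (nat_lit 20637024264) (nat_lit 156567076888) (.two (nat_lit 708837381) (nat_lit 10436476993) (.two (nat_lit 2097153) (nat_lit 158143086787) (.two (nat_lit 4194304) (nat_lit 1051608) (.one (nat_lit 1054351) .nil)))),
   .two (nat_lit 2969567240) (nat_lit 203423787) (.two (nat_lit 708837381) (nat_lit 2902459685) (.one (nat_lit 3021999684) .nil)),
   .two (nat_lit 639631368) (nat_lit 18928893967) (.two (nat_lit 203423749) (nat_lit 158179786878) (.two (nat_lit 37748737) (nat_lit 236979280) (.two (nat_lit 4194304) (nat_lit 2099387) (.one (nat_lit 2102832) .nil)))),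
   .two (nat_lit 1745879053) (nat_lit 2097255) (.two (nat_lit 101711877) (nat_lit 174753579123) (.two (nat_lit 16777217) (nat_lit 174686470759) (.two (nat_lit 1048576) (nat_lit 156969731448) (.one (nat_lit 16782992) .nil)))),
   .two (nat_lit 184549384) (nat_lit 46984593655) (.two (nat_lit 8388609) (nat_lit 50333795) (.one (nat_lit 16781954) .nil)),
   .two (nat_lit 612368392) (nat_lit 158075977751) (.two (nat_lit 2969567237) (nat_lit 10338959991) (.two (nat_lit 8388608) (nat_lit 2889878486) (.one (nat_lit 1054353) .nil))),
   .two (nat_lit 1191182349) (nat_lit 713031746) (.two (nat_lit 16777217) (nat_lit 343935537) .nil),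
   .two (nat_lit 184549384) (nat_lit 310378562) (.two (nat_lit 8388609) (nat_lit 156481093991) (.two (nat_lit 8388608) (nat_lit 10552871098) (.one (nat_lit 16782994) .nil))),
   .two (nat_lit 8388616) (nat_lit 1795162127) (.two (nat_lit 176160773) (nat_lit 47563408430) (.two (nat_lit 8388608) (nat_lit 10385098780) (.one (nat_lit 8393347) .nil))),
   .two (nat_lit 4194312) (nat_lit 183853121649) (.two (nat_lit 4194305) (nat_lit 10538189450) (.two (nat_lit 1048576) (nat_lit 3024096212) (.one (nat_lit 8394387) .nil))),
   .two (nat_lit 104857608) (nat_lit 165526110471) (.two (nat_lit 34603009) (nat_lit 19597886501) (.two (nat_lit 1048576) (nat_lit 2101436) (.one (nat_lit 8394388) .nil))),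
   .two (nat_lit 75497480) (nat_lit 12617515048) (.two (nat_lit 2894069765) (nat_lit 809500739) (.two (nat_lit 34603009) (nat_lit 3565159778) (.one (nat_lit 4200085) .nil))),
   .two (nat_lit 1947205644) (nat_lit 46980399144) (.two (nat_lit 272629765) (nat_lit 19596837000) (.two (nat_lit 9765388289) (nat_lit 46510637413) (.two (nat_lit 1048576) (nat_lit 205523052) (.one (nat_lit 166232854002) .nil)))),
   .two (nat_lit 606076936) (nat_lit 1795162712) (.two (nat_lit 4194304) (nat_lit 16779454) (.one (nat_lit 16782998) .nil)),
   .two (nat_lit 1175453704) (nat_lit 205520922) (.two (nat_lit 75497477) (nat_lit 21811429487) (.two (nat_lit 612368385) (nat_lit 158075978426) (.two (nat_lit 4194304) (nat_lit 166203492391) (.one (nat_lit 8393357) .nil)))),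
   .two (nat_lit 11479810056) (nat_lit 156372041837) (.two (nat_lit 37748737) (nat_lit 18933088860) (.two (nat_lit 16777216) (nat_lit 9936307566) (.one (nat_lit 4199059) .nil))),
   .two (nat_lit 1277165576) (nat_lit 1745879055) (.two (nat_lit 1277165572) (nat_lit 9899606374) (.two (nat_lit 1048576) (nat_lit 2100187) (.one (nat_lit 1054359) .nil))),
   .two (nat_lit 37748744) (nat_lit 847249452) (.two (nat_lit 713031685) (nat_lit 19096666234) (.two (nat_lit 8388609) (nat_lit 2319450472) (.two (nat_lit 2097152) (nat_lit 1050817) (.one (nat_lit 1054360) .nil)))),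
   .two (nat_lit 169869320) (nat_lit 171966490) (.two (nat_lit 2097157) (nat_lit 13224640753) (.two (nat_lit 2097153) (nat_lit 809501361) (.two (nat_lit 16777216) (nat_lit 336595034) (.one (nat_lit 1054361) .nil)))),
   .two (nat_lit 9881780232) (nat_lit 1846542351) (.two (nat_lit 28757196805) (nat_lit 218104483) (.two (nat_lit 4194304) (nat_lit 4043313577) .nil)),
   .two (nat_lit 50331656) (nat_lit 10506731535) (.two (nat_lit 4194308) (nat_lit 156548203206) (.two (nat_lit 4194304) (nat_lit 16780253) (.one (nat_lit 16783002) .nil))),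
   .two (nat_lit 612368392) (nat_lit 37246468784) (.two (nat_lit 8388608) (nat_lit 1050818) (.one (nat_lit 1053337) .nil)),
   .two (nat_lit 41943048) (nat_lit 13187940470) (.two (nat_lit 9768534017) (nat_lit 165525062286) (.two (nat_lit 4194304) (nat_lit 1051614) (.one (nat_lit 4199066) .nil))),
   .two (nat_lit 1175453704) (nat_lit 1847590927) (.two (nat_lit 9765388293) (nat_lit 3525312632) (.two (nat_lit 2097153) (nat_lit 4034921850) (.one (nat_lit 2101915) .nil))),
   .two (nat_lit 176160776) (nat_lit 843055171) (.two (nat_lit 9765388289) (nat_lit 47584379500) (.two (nat_lit 1048576) (nat_lit 675284270) (.one (nat_lit 4199069) .nil))),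
   .two (nat_lit 612368392) (nat_lit 18941476966) (.two (nat_lit 83886085) (nat_lit 47555019401) (.two (nat_lit 8388608) (nat_lit 3460302887) (.one (nat_lit 1212158578) .nil))),
   .two (nat_lit 28790751245) (nat_lit 2889875500) (.two (nat_lit 11543773189) (nat_lit 28693233779) (.two (nat_lit 8388609) (nat_lit 19130221159) (.two (nat_lit 1048576) (nat_lit 104859000) (.one (nat_lit 4199073) .nil)))),
   .two (nat_lit 12047089672) (nat_lit 10506731637) (.two (nat_lit 34603009) (nat_lit 21210596394) (.two (nat_lit 1048576) (nat_lit 9902753822) (.one (nat_lit 4198117) .nil))),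
   .two (nat_lit 2961178632) (nat_lit 1191182444) (.two (nat_lit 8388609) (nat_lit 158662132357) (.two (nat_lit 1048576) (nat_lit 184993973570) (.one (nat_lit 8393380) .nil))),
   .two (nat_lit 12047089677) (nat_lit 12117344322) (.two (nat_lit 4194305) (nat_lit 21812480192) (.one (nat_lit 2102939) .nil)),
   .two (nat_lit 183962173453) (nat_lit 101711887) (.two (nat_lit 11492392965) (nat_lit 9966714999) (.two (nat_lit 8388609) (nat_lit 159217878049) (.two (nat_lit 8388608) (nat_lit 2100195) (.one (nat_lit 2101925) .nil)))),
   .two (nat_lit 10369368072) (nat_lit 843055219) (.two (nat_lit 8388609) (nat_lit 20707280197) (.one (nat_lit 4200092) .nil)),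
   .two (nat_lit 2961178632) (nat_lit 159219974270) (.two (nat_lit 34603009) (nat_lit 156367848041) (.two (nat_lit 1048576) (nat_lit 8390851) (.one (nat_lit 157043134956) .nil))),
   .two (nat_lit 742391816) (nat_lit 158176641139) (.two (nat_lit 2097153) (nat_lit 37316724038) (.one (nat_lit 4199080) .nil)),
   .two (nat_lit 1191182344) (nat_lit 9802088488) (.two (nat_lit 9934209029) (nat_lit 218104166) (.two (nat_lit 2097152) (nat_lit 16779460) (.one (nat_lit 4199081) .nil))),
   .two (nat_lit 721420296) (nat_lit 3527409679) (.two (nat_lit 50331653) (nat_lit 12050235639) (.two (nat_lit 4194305) (nat_lit 16777574) (.two (nat_lit 4194304) (nat_lit 16779461) (.one (nat_lit 4200093) .nil)))),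
   .two (nat_lit 2887778312) (nat_lit 2923429954) (.two (nat_lit 2097153) (nat_lit 2990539115) (.two (nat_lit 2097152) (nat_lit 156532475229) (.one (nat_lit 1054366) .nil))),
   .two (nat_lit 37748744) (nat_lit 156465365243) (.two (nat_lit 8388609) (nat_lit 156468511417) (.two (nat_lit 2097152) (nat_lit 11546921956) (.one (nat_lit 8393387) .nil))),
   .two (nat_lit 276824072) (nat_lit 12117344279) (.two (nat_lit 809500677) (nat_lit 156372041971) (.two (nat_lit 37748737) (nat_lit 156372042330) (.two (nat_lit 1048576) (nat_lit 28693235048) (.one (nat_lit 4199084) .nil)))),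
   .two (nat_lit 37748744) (nat_lit 3028287528) (.two (nat_lit 708837381) (nat_lit 11517558920) (.two (nat_lit 8388609) (nat_lit 21210595687) (.two (nat_lit 8388608) (nat_lit 1178601669) (.one (nat_lit 4200097) .nil)))),
   .two (nat_lit 713031688) (nat_lit 46409973775) (.two (nat_lit 713031684) (nat_lit 1950351622) (.two (nat_lit 156372041729) (nat_lit 20640170344) (.two (nat_lit 1048576) (nat_lit 10909386029) (.one (nat_lit 4199086) .nil)))),
   .two (nat_lit 3525312520) (nat_lit 2990538801) (.two (nat_lit 2887778308) (nat_lit 37249613953) (.two (nat_lit 9768534017) (nat_lit 874514493) (.one (nat_lit 2101935) .nil))),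
   .two (nat_lit 135266317) (nat_lit 166132187151) (.two (nat_lit 166132187140) (nat_lit 2349858931) (.two (nat_lit 156365750273) (nat_lit 10537140881) (.two (nat_lit 2097152) (nat_lit 1051621) (.one (nat_lit 1053364) .nil)))),
   .two (nat_lit 8388616) (nat_lit 183845781519) (.two (nat_lit 176160772) (nat_lit 672137462) (.two (nat_lit 8388609) (nat_lit 807404202) (.two (nat_lit 1048576) (nat_lit 20738738366) (.one (nat_lit 1053367) .nil)))),
   .two (nat_lit 183848927240) (nat_lit 156372041743) (.two (nat_lit 13191086085) (nat_lit 10007609469) (.two (nat_lit 8388609) (nat_lit 171968581) (.one (nat_lit 4200100) .nil))),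
   .two (nat_lit 8388616) (nat_lit 183845781519) (.two (nat_lit 713031684) (nat_lit 1948254470) (.two (nat_lit 612368385) (nat_lit 47581233772) (.two (nat_lit 1048576) (nat_lit 2927627178) (.one (nat_lit 1054373) .nil)))),
   .two (nat_lit 612368392) (nat_lit 158647451770) (.two (nat_lit 9765388289) (nat_lit 3021997119) (.two (nat_lit 1048576) (nat_lit 11578379160) (.one (nat_lit 184416211424) .nil))),
   .two (nat_lit 713031688) (nat_lit 4634705943) (.two (nat_lit 41943045) (nat_lit 166232851825) (.one (nat_lit 4199098) .nil)),
   .two (nat_lit 21208498184) (nat_lit 772800627) (.two (nat_lit 605028353) (nat_lit 1914703422) .nil),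
   .two (nat_lit 4601151496) (nat_lit 158647451768) (.two (nat_lit 4194305) (nat_lit 10907287909) (.two (nat_lit 4194304) (nat_lit 19530778767) (.one (nat_lit 2101947) .nil))),
   .two (nat_lit 276824072) (nat_lit 3458203663) (.two (nat_lit 8388612) (nat_lit 47582281996) (.two (nat_lit 8388609) (nat_lit 159251432026) (.two (nat_lit 1048576) (nat_lit 11618223464) (.one (nat_lit 1053372) .nil)))),
   .two (nat_lit 50331660) (nat_lit 4605346031) (.two (nat_lit 41943041) (nat_lit 285213030) (.two (nat_lit 8388608) (nat_lit 285214795) (.one (nat_lit 16783014) .nil))),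
   .two (nat_lit 243269645) (nat_lit 754974735) (.two (nat_lit 713031685) (nat_lit 11559501940) (.two (nat_lit 50331649) (nat_lit 183920231485) (.two (nat_lit 1048576) (nat_lit 174768262750) .nil))),
   .two (nat_lit 37748744) (nat_lit 37320917016) (.two (nat_lit 159217876997) (nat_lit 47555018872) (.two (nat_lit 606076929) (nat_lit 713032344) (.two (nat_lit 2097152) (nat_lit 8390857) (.one (nat_lit 2102860) .nil)))),
   .two (nat_lit 1780482056) (nat_lit 184549619) (.two (nat_lit 41943041) (nat_lit 183861510799) (.two (nat_lit 8388608) (nat_lit 16779466) (.one (nat_lit 16783015) .nil))),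
   .two (nat_lit 9867100168) (nat_lit 37329305726) (.two (nat_lit 4194305) (nat_lit 156533522627) (.two (nat_lit 4194304) (nat_lit 16780262) (.one (nat_lit 10519319026) .nil))),
   .two (nat_lit 176160776) (nat_lit 156969730072) (.two (nat_lit 176160772) (nat_lit 20705181834) (.two (nat_lit 2097153) (nat_lit 176161448) (.two (nat_lit 2097152) (nat_lit 8391655) (.one (nat_lit 46984597908) .nil)))),
   .two (nat_lit 185002360840) (nat_lit 772800536) (.two (nat_lit 12114198533) (nat_lit 620757127) (.two (nat_lit 16777217) (nat_lit 2921333408) (.two (nat_lit 1048576) (nat_lit 2099404) (.one (nat_lit 2102953) .nil)))),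
   .two (nat_lit 822083592) (nat_lit 3464495144) (.two (nat_lit 16777220) (nat_lit 156372041967) (.two (nat_lit 8388609) (nat_lit 1746929723) (.one (nat_lit 16782018) .nil))),
   .two (nat_lit 721420296) (nat_lit 101712008) (.two (nat_lit 605028353) (nat_lit 83886437) (.two (nat_lit 1048576) (nat_lit 855639418) (.one (nat_lit 16782024) .nil))),
   .two (nat_lit 8388616) (nat_lit 159217877007) (.two (nat_lit 8388613) (nat_lit 236978421) (.two (nat_lit 8388609) (nat_lit 102761093) (.two (nat_lit 2097152) (nat_lit 8392895) (.one (nat_lit 2101963) .nil)))),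
   .two (nat_lit 28690087944) (nat_lit 10907287665) (.two (nat_lit 9765388289) (nat_lit 174686470794) (.two (nat_lit 1048576) (nat_lit 2100200) (.one (nat_lit 2101964) .nil))),
   .two (nat_lit 1178599432) (nat_lit 1846542380) (.two (nat_lit 16777221) (nat_lit 272629955) (.two (nat_lit 8388608) (nat_lit 168822915) (.one (nat_lit 1054378) .nil))),
   .two (nat_lit 16777224) (nat_lit 639631375) (.two (nat_lit 16777221) (nat_lit 28758245491) (.two (nat_lit 16777217) (nat_lit 28758245989) (.two (nat_lit 16777216) (nat_lit 2100201) (.one (nat_lit 47596967516) .nil)))),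
   .two (nat_lit 713031688) (nat_lit 3458203663) (.two (nat_lit 612368389) (nat_lit 10504634488) (.two (nat_lit 9768534017) (nat_lit 21812478572) (.two (nat_lit 4194304) (nat_lit 2101918) .nil))),
   .two (nat_lit 19027460109) (nat_lit 28790751369) (.two (nat_lit 16777217) (nat_lit 2316306609) (.one (nat_lit 12048141802) .nil)),
   .two (nat_lit 11492392968) (nat_lit 157038936079) (.two (nat_lit 46409973764) (nat_lit 721420955) (.two (nat_lit 4194304) (nat_lit 16781704) .nil)),
   .two (nat_lit 639631368) (nat_lit 739246124) (.two (nat_lit 34603013) (nat_lit 343933042) (.two (nat_lit 2097153) (nat_lit 10544481599) (.one (nat_lit 1054379) .nil))),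
   .two (nat_lit 184549384) (nat_lit 20704133144) (.two (nat_lit 16777221) (nat_lit 2886729999) (.two (nat_lit 2097153) (nat_lit 10537140861) (.two (nat_lit 2097152) (nat_lit 16779472) (.one (nat_lit 16782038) .nil)))),
   .two (nat_lit 16777224) (nat_lit 166132187151) (.two (nat_lit 16777220) (nat_lit 157038936131) (.two (nat_lit 9766436865) (nat_lit 742393939) (.one (nat_lit 16783020) .nil))),
   .two (nat_lit 11626610701) (nat_lit 46510637171) (.two (nat_lit 16777217) (nat_lit 4634706535) (.two (nat_lit 2097152) (nat_lit 339740024) (.one (nat_lit 4199128) .nil))),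
   .two (nat_lit 2889875464) (nat_lit 184416206915) (.two (nat_lit 4194305) (nat_lit 166196150939) (.two (nat_lit 4194304) (nat_lit 839911560) (.one (nat_lit 1053401) .nil))),
   .two (nat_lit 2887778312) (nat_lit 12117344321) (.two (nat_lit 34603009) (nat_lit 706740918) (.two (nat_lit 1048576) (nat_lit 2099409) (.one (nat_lit 4200109) .nil))),
   .two (nat_lit 4194312) (nat_lit 10504634383) (.two (nat_lit 4194308) (nat_lit 28087156864) (.two (nat_lit 4194305) (nat_lit 158077026951) (.two (nat_lit 1048576) (nat_lit 174688569413) (.one (nat_lit 2102958) .nil)))),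
   .two (nat_lit 343932941) (nat_lit 2923429955) (.two (nat_lit 8388609) (nat_lit 19029559838) .nil),
   .two (nat_lit 9881780232) (nat_lit 1176502375) (.two (nat_lit 654311429) (nat_lit 3458204287) (.two (nat_lit 2097152) (nat_lit 16780270) (.one (nat_lit 16782043) .nil))),
   .two (nat_lit 158075977736) (nat_lit 158083317999) (.two (nat_lit 156372041729) (nat_lit 638583490) (.two (nat_lit 8388608) (nat_lit 1051631) (.one (nat_lit 8394415) .nil))),
   .two (nat_lit 9867100168) (nat_lit 3464495218) (.two (nat_lit 2097153) (nat_lit 156372042338) (.two (nat_lit 4194304) (nat_lit 158647453059) (.one (nat_lit 8394416) .nil))),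
   .two (nat_lit 9802088461) (nat_lit 4605345856) (.two (nat_lit 37748737) (nat_lit 183853125154) .nil),
   .two (nat_lit 612368392) (nat_lit 10370416776) (.two (nat_lit 9765388289) (nat_lit 75498121) (.two (nat_lit 8388608) (nat_lit 1052865) (.one (nat_lit 11543777943) .nil))),
   .two (nat_lit 12129927176) (nat_lit 19093520499) (.two (nat_lit 9765388289) (nat_lit 639633501) (.one (nat_lit 1053058) .nil)),
   .two (nat_lit 2961178632) (nat_lit 19027460136) (.two (nat_lit 34603013) (nat_lit 19100860539) (.two (nat_lit 2097153) (nat_lit 12050235751) (.two (nat_lit 2097152) (nat_lit 1279265685) (.one (nat_lit 2102961) .nil)))),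
   .two (nat_lit 2889875464) (nat_lit 713031943) (.two (nat_lit 9768534017) (nat_lit 1920992333) (.two (nat_lit 4194304) (nat_lit 1052866) (.one (nat_lit 4200114) .nil))),
   .two (nat_lit 1343225864) (nat_lit 10372513911) (.two (nat_lit 16777217) (nat_lit 11513365089) (.two (nat_lit 16777216) (nat_lit 4197361) (.one (nat_lit 16783028) .nil))),
   .two (nat_lit 9866051592) (nat_lit 28693233679) (.two (nat_lit 1343225861) (nat_lit 1916797041) (.two (nat_lit 156364701697) (nat_lit 28089254247) (.two (nat_lit 1048576) (nat_lit 4198596) (.one (nat_lit 156569178727) .nil)))),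
   .two (nat_lit 2902458376) (nat_lit 166230753304) (.two (nat_lit 2097157) (nat_lit 2902458433) (.two (nat_lit 606076929) (nat_lit 13237223782) (.two (nat_lit 16777216) (nat_lit 2100210) (.one (nat_lit 2102965) .nil)))),
   .two (nat_lit 9940500488) (nat_lit 46474985537) (.two (nat_lit 4194305) (nat_lit 243271732) (.one (nat_lit 2101991) .nil)),
   .two (nat_lit 37748744) (nat_lit 13228834840) (.two (nat_lit 8388612) (nat_lit 11544822454) (.two (nat_lit 8388608) (nat_lit 157038938168) (.one (nat_lit 2102966) .nil))),
   .two (nat_lit 184549384) (nat_lit 19130220584) (.two (nat_lit 21777874949) (nat_lit 19130220812) (.two (nat_lit 16777217) (nat_lit 339739271) (.two (nat_lit 1048576) (nat_lit 1929381189) (.one (nat_lit 1212159670) .nil)))),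
   .two (nat_lit 8388616) (nat_lit 9781116943) (.two (nat_lit 2902458372) (nat_lit 19537068150) (.two (nat_lit 16777217) (nat_lit 10947134779) (.one (nat_lit 156976025981) .nil))),
   .two (nat_lit 75497480) (nat_lit 19530776676) (.two (nat_lit 2097157) (nat_lit 21781020934) (.two (nat_lit 34603009) (nat_lit 11007951490) (.two (nat_lit 4194304) (nat_lit 8392901) (.one (nat_lit 1054391) .nil)))),
   .two (nat_lit 117440520) (nat_lit 12617515032) (.two (nat_lit 16777220) (nat_lit 1753219209) (.two (nat_lit 8388609) (nat_lit 19042140792) (.two (nat_lit 1048576) (nat_lit 16779477) (.one (nat_lit 16783032) .nil)))),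
   .two (nat_lit 1947205644) (nat_lit 1426063482) (.two (nat_lit 16777217) (nat_lit 1182794794) (.two (nat_lit 1048576) (nat_lit 1182798485) .nil)),
   .two (nat_lit 2889875464) (nat_lit 285212787) (.two (nat_lit 620756993) (nat_lit 156465365653) (.two (nat_lit 1048576) (nat_lit 158079125717) (.one (nat_lit 16783033) .nil))),
   .two (nat_lit 183848927240) (nat_lit 19612565605) (.two (nat_lit 1191182341) (nat_lit 11513364546) (.two (nat_lit 37748737) (nat_lit 1795163206) (.two (nat_lit 8388608) (nat_lit 184419357374) .nil))),
   .two (nat_lit 16777224) (nat_lit 4599054455) (.two (nat_lit 41943041) (nat_lit 4599054993) (.two (nat_lit 8388608) (nat_lit 2317355953) (.one (nat_lit 2101999) .nil))),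
   .two (nat_lit 1753219080) (nat_lit 19142803500) (.two (nat_lit 184549381) (nat_lit 156573368595) (.two (nat_lit 8388609) (nat_lit 20652753257) (.two (nat_lit 1048576) (nat_lit 165532403771) (.one (nat_lit 16782064) .nil)))),
   .two (nat_lit 2988441612) (nat_lit 28693233779) (.two (nat_lit 34603009) (nat_lit 10942940200) (.two (nat_lit 1048576) (nat_lit 4197365) (.one (nat_lit 4199154) .nil))),
   .two (nat_lit 169869320) (nat_lit 184993972291) (.two (nat_lit 2097153) (nat_lit 9806283442) (.two (nat_lit 1048576) (nat_lit 183846831414) (.one (nat_lit 2102970) .nil))),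
   .two (nat_lit 183853121544) (nat_lit 183947493504) (.two (nat_lit 37748737) (nat_lit 12148802230) (.two (nat_lit 4194304) (nat_lit 8390872) (.one (nat_lit 11007956654) .nil))),
   .two (nat_lit 13224640524) (nat_lit 336592998) (.two (nat_lit 16777221) (nat_lit 20640170626) (.two (nat_lit 16777216) (nat_lit 2956986462) (.one (nat_lit 1054395) .nil))),
   .two (nat_lit 157043130376) (nat_lit 3558867009) (.two (nat_lit 50331649) (nat_lit 10336862839) (.two (nat_lit 16777216) (nat_lit 2994735156) (.one (nat_lit 2102972) .nil))),
   .two (nat_lit 4613734408) (nat_lit 159224168557) (.two (nat_lit 16777217) (nat_lit 183953785700) (.one (nat_lit 705697345) .nil)),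
   .two (nat_lit 9866051592) (nat_lit 46477082668) (.two (nat_lit 1343225861) (nat_lit 11010048136) (.two (nat_lit 8388609) (nat_lit 10540286665) (.two (nat_lit 16777216) (nat_lit 1376782395) (.one (nat_lit 1054397) .nil)))),
   .two (nat_lit 218103816) (nat_lit 19599982607) (.two (nat_lit 2902458372) (nat_lit 28693233907) (.two (nat_lit 37748737) (nat_lit 165540791623) (.one (nat_lit 16782072) .nil))),
   .two (nat_lit 169869320) (nat_lit 13195280399) (.two (nat_lit 809500677) (nat_lit 183946444866) (.two (nat_lit 34603009) (nat_lit 4196060) (.two (nat_lit 1048576) (nat_lit 239078290) (.one (nat_lit 4200126) .nil)))),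
   .two (nat_lit 713031688) (nat_lit 158077026319) (.two (nat_lit 41943045) (nat_lit 183913939062) (.two (nat_lit 156367847425) (nat_lit 243271749) (.one (nat_lit 3560968684) .nil))),
   .two (nat_lit 612368392) (nat_lit 174753579265) (.two (nat_lit 2097153) (nat_lit 13224641141) (.two (nat_lit 8388608) (nat_lit 28758246783) (.one (nat_lit 2102011) .nil))),
   .two (nat_lit 272629768) (nat_lit 2357198893) (.two (nat_lit 4601151493) (nat_lit 166203490577) (.two (nat_lit 8388609) (nat_lit 1916797532) (.two (nat_lit 8388608) (nat_lit 4197367) (.one (nat_lit 10947138167) .nil)))),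
   .two (nat_lit 3527409677) (nat_lit 4605345856) (.two (nat_lit 4194305) (nat_lit 156372043294) .nil),
   .two (nat_lit 205520904) (nat_lit 46508539927) (.two (nat_lit 605028357) (nat_lit 47582281980) (.two (nat_lit 4194305) (nat_lit 4631560808) (.two (nat_lit 4194304) (nat_lit 2416969918) (.one (nat_lit 2102975) .nil)))),
   .two (nat_lit 612368392) (nat_lit 46978301976) (.two (nat_lit 69206021) (nat_lit 21214789893) (.two (nat_lit 2097153) (nat_lit 46481277601) (.two (nat_lit 1048576) (nat_lit 158079125554) (.one (nat_lit 71308949) .nil)))),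
   .two (nat_lit 75497480) (nat_lit 157035790381) (.two (nat_lit 9934209029) (nat_lit 2349858936) (.two (nat_lit 605028353) (nat_lit 10437527578) (.one (nat_lit 8394432) .nil))),
   .two (nat_lit 9768534024) (nat_lit 806355076) (.two (nat_lit 16777217) (nat_lit 10906240036) (.two (nat_lit 16777216) (nat_lit 1051645) (.one (nat_lit 1054401) .nil))),
   .two (nat_lit 19142803469) (nat_lit 4599054464) (.two (nat_lit 16777217) (nat_lit 11544822430) (.two (nat_lit 2097152) (nat_lit 8390875) (.one (nat_lit 8394434) .nil))),
   .two (nat_lit 739246088) (nat_lit 157038936079) (.two (nat_lit 11476664324) (nat_lit 10372514055) (.two (nat_lit 9765388289) (nat_lit 20707280984) (.one (nat_lit 156532477400) .nil))),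
   .two (nat_lit 1358954504) (nat_lit 3525312527) (.two (nat_lit 69206021) (nat_lit 28806480008) (.two (nat_lit 37748737) (nat_lit 4028629640) (.two (nat_lit 4194304) (nat_lit 2100222) (.one (nat_lit 2102979) .nil)))),
   .two (nat_lit 809500680) (nat_lit 46978301976) (.two (nat_lit 2956984325) (nat_lit 9967763566) (.two (nat_lit 4194305) (nat_lit 159251432073) (.two (nat_lit 1048576) (nat_lit 673188022) (.one (nat_lit 1053450) .nil)))),
   .two (nat_lit 176160776) (nat_lit 218103923) (.two (nat_lit 16777217) (nat_lit 184423548243) (.one (nat_lit 19100863971) .nil)),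
   .two (nat_lit 16777224) (nat_lit 183853121551) (.two (nat_lit 13195280389) (nat_lit 285212786) (.two (nat_lit 4194305) (nat_lit 754976081) (.one (nat_lit 16782092) .nil))),
   .two (nat_lit 620757000) (nat_lit 3525312527) (.two (nat_lit 184549380) (nat_lit 11007950958) (.two (nat_lit 2097153) (nat_lit 9982445647) (.one (nat_lit 2102980) .nil))),
   .two (nat_lit 654311437) (nat_lit 303038507) (.two (nat_lit 1358954501) (nat_lit 183845781761) (.two (nat_lit 605028353) (nat_lit 285215716) (.one (nat_lit 1054405) .nil))),
   .two (nat_lit 2902458376) (nat_lit 4632608813) (.two (nat_lit 16777221) (nat_lit 11578376318) (.two (nat_lit 606076929) (nat_lit 28690088803) (.one (nat_lit 739250944) .nil))),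
   .two (nat_lit 12114198536) (nat_lit 158083317875) (.two (nat_lit 34603009) (nat_lit 158083318373) (.two (nat_lit 1048576) (nat_lit 46481279977) (.one (nat_lit 1054406) .nil))),
   .two (nat_lit 11543773192) (nat_lit 20740833406) (.two (nat_lit 9768534017) (nat_lit 739246443) (.two (nat_lit 1048576) (nat_lit 158146234575) (.one (nat_lit 4199184) .nil))),
   .two (nat_lit 2954887176) (nat_lit 47588573208) (.two (nat_lit 169869316) (nat_lit 4605345857) (.two (nat_lit 606076929) (nat_lit 8389719) (.two (nat_lit 16777216) (nat_lit 156365752377) (.one (nat_lit 2102035) .nil)))),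
   .two (nat_lit 1745879048) (nat_lit 1358954511) (.two (nat_lit 183845781508) (nat_lit 9881780337) (.two (nat_lit 34603009) (nat_lit 318768480) (.one (nat_lit 16782100) .nil))),
   .two (nat_lit 21214789640) (nat_lit 10436477043) (.two (nat_lit 4194305) (nat_lit 1216349575) (.one (nat_lit 8393493) .nil)),
   .two (nat_lit 1191182344) (nat_lit 876609560) (.two (nat_lit 4194308) (nat_lit 18941478226) (.one (nat_lit 4199191) .nil)),
   .two (nat_lit 75497480) (nat_lit 46473937022) (.two (nat_lit 41943041) (nat_lit 37313577318) (.two (nat_lit 8388608) (nat_lit 1052871) (.one (nat_lit 166129045018) .nil))),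
   .two (nat_lit 2887778312) (nat_lit 11479810063) (.two (nat_lit 806354949) (nat_lit 20640170110) (.two (nat_lit 34603009) (nat_lit 10336863269) (.two (nat_lit 4194304) (nat_lit 158177694339) .nil))),
   .two (nat_lit 822083592) (nat_lit 9799991422) (.two (nat_lit 16777217) (nat_lit 21214791858) (.one (nat_lit 8394440) .nil)),
   .two (nat_lit 8388616) (nat_lit 21814575230) (.two (nat_lit 37748737) (nat_lit 9974058621) .nil),
   .two (nat_lit 612368392) (nat_lit 157036839034) (.two (nat_lit 2097153) (nat_lit 2923431308) (.one (nat_lit 9902756471) .nil)),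
   .two (nat_lit 1277165576) (nat_lit 20737687575) (.two (nat_lit 9934209029) (nat_lit 19596837378) (.two (nat_lit 606076929) (nat_lit 158646403722) (.two (nat_lit 2097152) (nat_lit 1051655) (.one (nat_lit 1053467) .nil)))),
   .two (nat_lit 46980399112) (nat_lit 1209008152) (.two (nat_lit 2889875461) (nat_lit 1049097) (.two (nat_lit 34603009) (nat_lit 156569175109) (.two (nat_lit 1048576) (nat_lit 4198600) (.one (nat_lit 159219978813) .nil)))),
   .two (nat_lit 809500680) (nat_lit 11577327641) (.two (nat_lit 2956984325) (nat_lit 236978292) (.two (nat_lit 4194305) (nat_lit 11611931294) (.two (nat_lit 1048576) (nat_lit 2101449) (.one (nat_lit 19128127837) .nil)))),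
   .two (nat_lit 2420113421) (nat_lit 166197199112) (.two (nat_lit 620756993) (nat_lit 673186407) (.two (nat_lit 4194304) (nat_lit 156365751672) (.one (nat_lit 2102986) .nil))),
   .two (nat_lit 2887778312) (nat_lit 11492392975) (.two (nat_lit 620756997) (nat_lit 46474985538) (.two (nat_lit 34603009) (nat_lit 1277166199) (.two (nat_lit 1048576) (nat_lit 9867101492) (.one (nat_lit 2102987) .nil)))),
   .two (nat_lit 16777224) (nat_lit 1916796943) (.two (nat_lit 11479810052) (nat_lit 2969567845) (.two (nat_lit 4194304) (nat_lit 4647292331) .nil)),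
   .two (nat_lit 272629768) (nat_lit 12054429935) (.two (nat_lit 4194305) (nat_lit 8391508) (.two (nat_lit 4194304) (nat_lit 8392906) (.one (nat_lit 8394445) .nil))),
   .two (nat_lit 754974728) (nat_lit 10335813678) (.two (nat_lit 705691652) (nat_lit 1224738097) (.one (nat_lit 16783054) .nil)),
   .two (nat_lit 19532873741) (nat_lit 184993972349) (.two (nat_lit 4194305) (nat_lit 19134415208) (.two (nat_lit 4194304) (nat_lit 8392907) (.one (nat_lit 8393501) .nil))),
   .two (nat_lit 10336862216) (nat_lit 166129041432) (.two (nat_lit 1913651205) (nat_lit 10907287665) (.two (nat_lit 9765388289) (nat_lit 174686470794) (.two (nat_lit 1048576) (nat_lit 2099426) (.one (nat_lit 1054415) .nil)))),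
   .two (nat_lit 2954887176) (nat_lit 19532873752) (.two (nat_lit 41943045) (nat_lit 19597885702) (.two (nat_lit 4194305) (nat_lit 35652295) (.two (nat_lit 8388608) (nat_lit 1310722959) (.one (nat_lit 8393505) .nil)))),
   .two (nat_lit 169869320) (nat_lit 1191182693) (.two (nat_lit 1048576) (nat_lit 28758246766) (.one (nat_lit 2102051) .nil)),
   .two (nat_lit 4194312) (nat_lit 285212687) (.two (nat_lit 4194308) (nat_lit 754975366) (.two (nat_lit 2097152) (nat_lit 1051658) (.one (nat_lit 1054416) .nil))),
   .two (nat_lit 83886088) (nat_lit 166129041423) (.two (nat_lit 721420292) (nat_lit 185027526783) (.two (nat_lit 8388609) (nat_lit 285213318) (.two (nat_lit 4194304) (nat_lit 8393318) .nil))),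
   .two (nat_lit 10336862216) (nat_lit 9948889103) (.two (nat_lit 10370416645) (nat_lit 352322932) (.one (nat_lit 16782116) .nil)),
   .two (nat_lit 9948889096) (nat_lit 1277165611) (.two (nat_lit 2097157) (nat_lit 9881781541) (.one (nat_lit 11543777894) .nil)),
   .two (nat_lit 612368392) (nat_lit 2988441730) (.two (nat_lit 8388609) (nat_lit 183913939565) (.two (nat_lit 16777216) (nat_lit 21214792702) (.one (nat_lit 8393510) .nil))),
   .two (nat_lit 16777224) (nat_lit 47555018767) (.two (nat_lit 176160772) (nat_lit 174701150568) (.two (nat_lit 8388608) (nat_lit 16779491) (.one (nat_lit 16782120) .nil))),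
   .two (nat_lit 50331656) (nat_lit 13191086202) (.two (nat_lit 16777217) (nat_lit 4196497) (.one (nat_lit 4200145) .nil)),
   .two (nat_lit 3458203661) (nat_lit 46523220011) (.two (nat_lit 2097157) (nat_lit 19109249281) (.two (nat_lit 34603009) (nat_lit 50333880) (.one (nat_lit 16783058) .nil))),
   .two (nat_lit 2961178632) (nat_lit 1358954612) (.two (nat_lit 605028353) (nat_lit 184552450) (.one (nat_lit 16783060) .nil)),
   .two (nat_lit 3525312520) (nat_lit 21207449615) (.two (nat_lit 2887778308) (nat_lit 20704133236) (.two (nat_lit 9766436865) (nat_lit 12047093163) .nil)),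
   .two (nat_lit 2316304397) (nat_lit 19532873839) (.two (nat_lit 34603009) (nat_lit 104858976) (.one (nat_lit 9768537844) .nil)),
   .two (nat_lit 1191182344) (nat_lit 10907287673) (.two (nat_lit 2097153) (nat_lit 11022631272) (.two (nat_lit 1048576) (nat_lit 740296061) (.one (nat_lit 2102063) .nil))),
   .two (nat_lit 184993972232) (nat_lit 19596836879) (.two (nat_lit 713031685) (nat_lit 1048710) (.two (nat_lit 16777217) (nat_lit 8389720) (.two (nat_lit 16777216) (nat_lit 8391692) (.one (nat_lit 8394453) .nil)))),
   .two (nat_lit 3460300808) (nat_lit 11007951088) (.two (nat_lit 605028353) (nat_lit 2887779362) (.two (nat_lit 2097152) (nat_lit 184416208917) (.one (nat_lit 1054422) .nil))),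
   .two (nat_lit 184993972236) (nat_lit 4647288954) (.two (nat_lit 8388609) (nat_lit 20753419910) .nil),
   .two (nat_lit 343932941) (nat_lit 807403564) (.two (nat_lit 8388613) (nat_lit 184417255674) (.two (nat_lit 8388609) (nat_lit 28087157097) (.two (nat_lit 8388608) (nat_lit 2099429) (.one (nat_lit 10437529191) .nil)))),
   .two (nat_lit 236978189) (nat_lit 1291845747) (.two (nat_lit 2097153) (nat_lit 159232558456) (.one (nat_lit 50335215) .nil)),
   .two (nat_lit 3525312520) (nat_lit 157051519024) (.two (nat_lit 50331653) (nat_lit 10940842105) (.two (nat_lit 4194305) (nat_lit 157036839107) (.two (nat_lit 4194304) (nat_lit 2098577) (.one (nat_lit 16783063) .nil)))),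
   .two (nat_lit 41943048) (nat_lit 183962173483) (.two (nat_lit 184549380) (nat_lit 184993973090) (.one (nat_lit 10343156268) .nil)),
   .two (nat_lit 606076936) (nat_lit 2902458481) (.two (nat_lit 37748737) (nat_lit 158662133893) (.one (nat_lit 16782131) .nil)),
   .two (nat_lit 9781116936) (nat_lit 1178599467) (.two (nat_lit 46409973764) (nat_lit 11492393070) (.two (nat_lit 2097153) (nat_lit 11492394277) (.one (nat_lit 16783065) .nil))),
   .two (nat_lit 654311432) (nat_lit 605028377) (.two (nat_lit 705691652) (nat_lit 8389476) (.one (nat_lit 1054426) .nil)),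
   .two (nat_lit 21208498184) (nat_lit 19596836879) (.two (nat_lit 28690087941) (nat_lit 156533523852) (.one (nat_lit 2102069) .nil)),
   .two (nat_lit 4605345800) (nat_lit 9802088472) (.two (nat_lit 46409973764) (nat_lit 1317012809) (.one (nat_lit 183853125154) .nil)),
   .two (nat_lit 37748744) (nat_lit 1913651215) (.two (nat_lit 9934209029) (nat_lit 138412306) (.two (nat_lit 37748737) (nat_lit 158646403708) (.two (nat_lit 2097152) (nat_lit 4196583) (.one (nat_lit 2988445329) .nil)))),
   .two (nat_lit 169869320) (nat_lit 9802088585) (.two (nat_lit 41943041) (nat_lit 1277166952) (.one (nat_lit 4200155) .nil)),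
   .two (nat_lit 612368392) (nat_lit 158077026319) (.two (nat_lit 176160773) (nat_lit 184987680888) (.two (nat_lit 8388609) (nat_lit 28760343204) (.two (nat_lit 2097152) (nat_lit 4197393) (.one (nat_lit 2101007) .nil)))),
   .two (nat_lit 843055116) (nat_lit 12163481644) (.two (nat_lit 809500677) (nat_lit 4043309713) (.two (nat_lit 4194304) (nat_lit 158091708608) (.one (nat_lit 19545461417) .nil))),
   .two (nat_lit 713031688) (nat_lit 183845781519) (.two (nat_lit 34603013) (nat_lit 11618222146) (.two (nat_lit 605028353) (nat_lit 185021235823) (.two (nat_lit 1048576) (nat_lit 159251432845) (.one (nat_lit 2102072) .nil)))),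
   .two (nat_lit 272629768) (nat_lit 46508539928) (.two (nat_lit 272629765) (nat_lit 158647452165) (.two (nat_lit 4194305) (nat_lit 185021236962) (.two (nat_lit 4194304) (nat_lit 2100244) (.one (nat_lit 339742131) .nil)))),
   .two (nat_lit 713031688) (nat_lit 159250382873) (.two (nat_lit 705691652) (nat_lit 28798091927) (.two (nat_lit 1048576) (nat_lit 8391701) (.one (nat_lit 1054428) .nil))),
   .two (nat_lit 37748744) (nat_lit 117440527) (.two (nat_lit 4194308) (nat_lit 10351542399) (.two (nat_lit 50331649) (nat_lit 11513365146) (.two (nat_lit 16777216) (nat_lit 4197398) (.one (nat_lit 4200157) .nil)))),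
   .two (nat_lit 272629768) (nat_lit 156372041752) (.two (nat_lit 47555018757) (nat_lit 843055221) (.two (nat_lit 8388609) (nat_lit 1279264792) (.one (nat_lit 8393092) .nil))),
   .two (nat_lit 8388616) (nat_lit 46523220011) (.two (nat_lit 721420293) (nat_lit 9974056252) (.one (nat_lit 8394348) .nil)),
   .two (nat_lit 2969567240) (nat_lit 13224640536) (.two (nat_lit 4194308) (nat_lit 1291846239) (.two (nat_lit 4194304) (nat_lit 285215716) (.one (nat_lit 19599987256) .nil))),
   .two (nat_lit 13195280392) (nat_lit 11577327682) (.two (nat_lit 8388609) (nat_lit 2316306667) (.one (nat_lit 11577331317) .nil)),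
   .two (nat_lit 809500680) (nat_lit 37247516696) (.two (nat_lit 1178599429) (nat_lit 10907287662) (.two (nat_lit 4194305) (nat_lit 156466416631) (.one (nat_lit 2103007) .nil))),
   .two (nat_lit 612368392) (nat_lit 20637024271) (.two (nat_lit 713031685) (nat_lit 303038712) (.two (nat_lit 41943041) (nat_lit 303039084) (.two (nat_lit 4194304) (nat_lit 21811432398) (.one (nat_lit 4200160) .nil)))),
   .two (nat_lit 16777224) (nat_lit 46414168088) (.two (nat_lit 47555018757) (nat_lit 10552870217) (.one (nat_lit 50335266) .nil)),
   .two (nat_lit 41943048) (nat_lit 21777874959) (.two (nat_lit 713031685) (nat_lit 158143086724) (.two (nat_lit 41943041) (nat_lit 10369368715) (.two (nat_lit 8388608) (nat_lit 1051672) (.one (nat_lit 1054433) .nil)))),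
   .two (nat_lit 184549384) (nat_lit 20740833400) (.two (nat_lit 16777217) (nat_lit 28760343156) (.two (nat_lit 8388608) (nat_lit 4197401) (.one (nat_lit 4200162) .nil))),
   .two (nat_lit 37314625549) (nat_lit 10007609456) (.two (nat_lit 50331649) (nat_lit 46514832228) (.one (nat_lit 8393530) .nil)),
   .two (nat_lit 159224168460) (nat_lit 12114198543) (.two (nat_lit 184416206853) (nat_lit 20644364405) (.two (nat_lit 50331649) (nat_lit 13187942454) (.one (nat_lit 1053499) .nil))),
   .two (nat_lit 11492392968) (nat_lit 19532873752) (.two (nat_lit 19599982597) (nat_lit 20652753255) (.two (nat_lit 4194304) (nat_lit 620760704) .nil)),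
   .two (nat_lit 184993972232) (nat_lit 28690087951) (.two (nat_lit 166129041412) (nat_lit 142606456) (.two (nat_lit 156364701697) (nat_lit 184423548996) (.one (nat_lit 8393533) .nil))),
   .two (nat_lit 2954887176) (nat_lit 11517559037) (.two (nat_lit 2097153) (nat_lit 13195281059) (.two (nat_lit 2097152) (nat_lit 880806101) (.one (nat_lit 8394467) .nil))),
   .two (nat_lit 4605345800) (nat_lit 1745879055) (.two (nat_lit 8388612) (nat_lit 1175453830) (.two (nat_lit 41943041) (nat_lit 12147753638) (.two (nat_lit 8388608) (nat_lit 1051674) (.one (nat_lit 11517563684) .nil)))),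
   .two (nat_lit 75497480) (nat_lit 35651717) (.two (nat_lit 34603009) (nat_lit 18926798902) (.one (nat_lit 2103012) .nil)),
   .two (nat_lit 184549384) (nat_lit 2954887232) (.two (nat_lit 16777217) (nat_lit 21778924858) (.one (nat_lit 2102079) .nil)),
   .two (nat_lit 156372041740) (nat_lit 20704133143) (.two (nat_lit 1343225861) (nat_lit 10343153779) (.two (nat_lit 605028353) (nat_lit 8390016) (.one (nat_lit 269488565) .nil))),
   .two (nat_lit 739246088) (nat_lit 184417255468) (.two (nat_lit 157036838917) (nat_lit 705691897) (.two (nat_lit 9765388289) (nat_lit 20738736726) (.two (nat_lit 1048576) (nat_lit 47582283801) (.one (nat_lit 2103013) .nil)))),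
   .two (nat_lit 169869320) (nat_lit 174701150251) (.two (nat_lit 16777220) (nat_lit 2988441868) (.two (nat_lit 16777217) (nat_lit 47582282323) (.two (nat_lit 1048576) (nat_lit 2100252) (.one (nat_lit 10452210010) .nil)))),
   .two (nat_lit 75497480) (nat_lit 20637024271) (.two (nat_lit 605028357) (nat_lit 1417674864) (.two (nat_lit 34603009) (nat_lit 11614029169) (.one (nat_lit 4200166) .nil))),
   .two (nat_lit 158143086600) (nat_lit 11618222217) (.two (nat_lit 16777217) (nat_lit 47581234498) (.one (nat_lit 8393539) .nil)),
   .two (nat_lit 10939793416) (nat_lit 184993972291) (.two (nat_lit 9765388289) (nat_lit 20745027946) (.two (nat_lit 1048576) (nat_lit 1216350413) (.one (nat_lit 8394471) .nil))),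
   .two (nat_lit 2902458376) (nat_lit 21208498191) (.two (nat_lit 2902458373) (nat_lit 13188989054) (.two (nat_lit 2097153) (nat_lit 1795162725) (.two (nat_lit 2097152) (nat_lit 16779503) (.one (nat_lit 16783080) .nil)))),
   .two (nat_lit 12114198536) (nat_lit 174753579023) (.two (nat_lit 11476664324) (nat_lit 174753579117) (.two (nat_lit 34603009) (nat_lit 21778924217) (.two (nat_lit 1048576) (nat_lit 2100254) (.one (nat_lit 2103017) .nil)))),
   .two (nat_lit 75497480) (nat_lit 218103873) (.two (nat_lit 16777217) (nat_lit 10343154261) (.two (nat_lit 16777216) (nat_lit 8391711) (.one (nat_lit 1853886938) .nil))),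
   .two (nat_lit 4613734408) (nat_lit 10007609453) (.two (nat_lit 16777217) (nat_lit 11517560179) (.one (nat_lit 9765394017) .nil)),
   .two (nat_lit 203423752) (nat_lit 156971827311) (.two (nat_lit 2097153) (nat_lit 19130221157) (.two (nat_lit 2097152) (nat_lit 9802090735) (.one (nat_lit 4200170) .nil))),
   .two (nat_lit 41943048) (nat_lit 157038936079) (.two (nat_lit 8388612) (nat_lit 13224640636) (.two (nat_lit 4194305) (nat_lit 209717435) (.one (nat_lit 4197848) .nil))),
   .two (nat_lit 50331656) (nat_lit 10436476974) (.two (nat_lit 705691652) (nat_lit 276824191) (.two (nat_lit 612368385) (nat_lit 10000269978) (.two (nat_lit 8388608) (nat_lit 185020189718) (.one (nat_lit 1054443) .nil)))),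
   .two (nat_lit 203423752) (nat_lit 18928893967) (.two (nat_lit 8388612) (nat_lit 20638072945) (.two (nat_lit 8388609) (nat_lit 773849711) (.two (nat_lit 4194304) (nat_lit 2100259) (.one (nat_lit 8393545) .nil)))),
   .two (nat_lit 21785214989) (nat_lit 807403564) (.two (nat_lit 2954887173) (nat_lit 1753219187) (.two (nat_lit 2097153) (nat_lit 1216350450) (.one (nat_lit 2102092) .nil))),
   .two (nat_lit 11492392968) (nat_lit 19096666248) (.two (nat_lit 9768534017) (nat_lit 83887392) (.one (nat_lit 16781078) .nil)),
   .two (nat_lit 276824072) (nat_lit 183949590551) (.two (nat_lit 171966469) (nat_lit 880804434) (.two (nat_lit 1048576) (nat_lit 159219976330) (.one (nat_lit 4199248) .nil))),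
   .two (nat_lit 176160776) (nat_lit 203423873) (.two (nat_lit 8388609) (nat_lit 184417257175) (.two (nat_lit 8388608) (nat_lit 2100260) (.one (nat_lit 46514835821) .nil))),
   .two (nat_lit 1780482056) (nat_lit 174688567406) (.two (nat_lit 4194305) (nat_lit 28697429045) (.two (nat_lit 16777216) (nat_lit 10907292051) .nil)),
   .two (nat_lit 10369368072) (nat_lit 183949590569) (.two (nat_lit 176160773) (nat_lit 1346371707) (.two (nat_lit 8388609) (nat_lit 156569174374) (.two (nat_lit 16777216) (nat_lit 21207450984) (.one (nat_lit 4200172) .nil)))),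
   .two (nat_lit 9948889096) (nat_lit 11577327657) (.two (nat_lit 806354949) (nat_lit 184549484) (.two (nat_lit 2097153) (nat_lit 11022631542) (.two (nat_lit 2097152) (nat_lit 10452210340) .nil))),
   .two (nat_lit 158075977736) (nat_lit 184419352591) (.two (nat_lit 21777874949) (nat_lit 47584379007) (.two (nat_lit 605028353) (nat_lit 4030728321) (.one (nat_lit 37316728398) .nil))),
   .two (nat_lit 343932941) (nat_lit 807403564) (.two (nat_lit 8388613) (nat_lit 184417255674) (.two (nat_lit 8388609) (nat_lit 28087157097) (.two (nat_lit 8388608) (nat_lit 2099444) (.one (nat_lit 10437529191) .nil)))),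
   .two (nat_lit 169869320) (nat_lit 285212687) (.two (nat_lit 16777220) (nat_lit 705691785) (.two (nat_lit 50331649) (nat_lit 19596837512) (.two (nat_lit 1048576) (nat_lit 16780327) (.one (nat_lit 1054445) .nil)))),
   .two (nat_lit 21207449608) (nat_lit 46409973804) (.two (nat_lit 11479810053) (nat_lit 1929379968) (.two (nat_lit 16777217) (nat_lit 10338960073) (.two (nat_lit 16777216) (nat_lit 4197416) (.one (nat_lit 1054446) .nil)))),
   .two (nat_lit 3527409672) (nat_lit 754975078) (.two (nat_lit 16777216) (nat_lit 157038938140) (.one (nat_lit 4198763) .nil)),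
   .two (nat_lit 11007950860) (nat_lit 156367847439) (.two (nat_lit 10372513797) (nat_lit 673185905) (.two (nat_lit 612368385) (nat_lit 20705183055) (.one (nat_lit 2102102) .nil))),
   .two (nat_lit 184549384) (nat_lit 28691136560) (.two (nat_lit 2097157) (nat_lit 3036676162) (.two (nat_lit 2097153) (nat_lit 174752531131) (.two (nat_lit 2097152) (nat_lit 12163483698) (.one (nat_lit 16783087) .nil)))),
   .two (nat_lit 10007609357) (nat_lit 19027460198) (.two (nat_lit 2097157) (nat_lit 4605345917) (.two (nat_lit 34603009) (nat_lit 13228836918) (.one (nat_lit 4605350715) .nil))),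
   .two (nat_lit 9934209032) (nat_lit 166132187151) (.two (nat_lit 169869316) (nat_lit 10506731633) (.two (nat_lit 2097153) (nat_lit 185023333718) (.one (nat_lit 4200176) .nil))),
   .two (nat_lit 721420296) (nat_lit 3524263980) (.two (nat_lit 721420292) (nat_lit 1913651336) (.two (nat_lit 9765388289) (nat_lit 4043310387) (.one (nat_lit 202381532) .nil))),
   .two (nat_lit 166230753293) (nat_lit 165532401679) (.two (nat_lit 2954887173) (nat_lit 13195281804) (.one (nat_lit 8393560) .nil)),
   .two (nat_lit 135266317) (nat_lit 10519314794) (.two (nat_lit 1048576) (nat_lit 3539996370) .nil),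
   .two (nat_lit 1350565896) (nat_lit 10336862223) (.two (nat_lit 713031684) (nat_lit 874512508) (.two (nat_lit 41943041) (nat_lit 165526110856) (.two (nat_lit 8388608) (nat_lit 4197418) (.one (nat_lit 8394481) .nil)))),
   .two (nat_lit 822083596) (nat_lit 8388623) (.two (nat_lit 50331653) (nat_lit 4605346149) (.two (nat_lit 1048576) (nat_lit 2994735247) (.one (nat_lit 8394482) .nil))),
   .two (nat_lit 75497480) (nat_lit 158144135445) (.two (nat_lit 16777217) (nat_lit 18926798902) (.one (nat_lit 2103027) .nil)),
   .two (nat_lit 169869320) (nat_lit 1379926061) (.two (nat_lit 2097157) (nat_lit 4634706037) (.two (nat_lit 50331649) (nat_lit 46473937257) (.two (nat_lit 16777216) (nat_lit 1050872) (.one (nat_lit 1054452) .nil)))),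
   .two (nat_lit 2889875464) (nat_lit 21208498191) (.two (nat_lit 2889875460) (nat_lit 10940842229) (.two (nat_lit 2097153) (nat_lit 12150900815) (.one (nat_lit 4200181) .nil))),
   .two (nat_lit 166129041416) (nat_lit 10907287668) (.two (nat_lit 8388609) (nat_lit 28690089014) (.two (nat_lit 8388608) (nat_lit 639634869) .nil)),
   .two (nat_lit 68157448) (nat_lit 9948889103) (.two (nat_lit 705691652) (nat_lit 46980399224) (.two (nat_lit 34603009) (nat_lit 19612566124) (.two (nat_lit 4194304) (nat_lit 83889187) (.one (nat_lit 4200182) .nil)))),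
   .two (nat_lit 2889875464) (nat_lit 1753219087) (.two (nat_lit 183853121540) (nat_lit 157038936422) (.two (nat_lit 8388608) (nat_lit 1782581435) (.one (nat_lit 157043136196) .nil))),
   .two (nat_lit 11551113224) (nat_lit 306184258) (.two (nat_lit 41943041) (nat_lit 185023332990) (.two (nat_lit 2097152) (nat_lit 183848929486) (.one (nat_lit 2103031) .nil))),
   .two (nat_lit 2902458376) (nat_lit 185023333020) (.two (nat_lit 2097152) (nat_lit 4196435) (.one (nat_lit 16783096) .nil)),
   .two (nat_lit 11543773192) (nat_lit 9900654616) (.two (nat_lit 705691652) (nat_lit 20738736406) (.two (nat_lit 34603009) (nat_lit 807404599) (.two (nat_lit 1048576) (nat_lit 10504639030) .nil))),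
   .two (nat_lit 276824072) (nat_lit 158662131815) (.two (nat_lit 721420293) (nat_lit 19127074928) (.two (nat_lit 41943041) (nat_lit 1795162769) (.two (nat_lit 8388608) (nat_lit 37329308562) (.one (nat_lit 16783098) .nil)))),
   .two (nat_lit 37313576972) (nat_lit 11517558827) (.two (nat_lit 28086108165) (nat_lit 185027527339) (.two (nat_lit 1048576) (nat_lit 176163718) (.one (nat_lit 8394491) .nil))),
   .two (nat_lit 2416967692) (nat_lit 1358954511) (.two (nat_lit 1745879045) (nat_lit 1795162222) (.two (nat_lit 605028353) (nat_lit 183861512371) (.one (nat_lit 16783101) .nil))),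
   .two (nat_lit 620757000) (nat_lit 2927624216) (.two (nat_lit 75497477) (nat_lit 19545457000) (.two (nat_lit 1048576) (nat_lit 16780332) (.one (nat_lit 1053089) .nil))),
   .two (nat_lit 205520904) (nat_lit 1191182451) (.two (nat_lit 4194305) (nat_lit 159232559143) (.one (nat_lit 16783102) .nil)),
   .two (nat_lit 16777224) (nat_lit 156567076888) (.two (nat_lit 2887778308) (nat_lit 185035916362) (.two (nat_lit 2097152) (nat_lit 10351545386) (.one (nat_lit 11593059866) .nil))),
   .two (nat_lit 3464495112) (nat_lit 158075977794) (.two (nat_lit 8388609) (nat_lit 156566028647) (.two (nat_lit 8388608) (nat_lit 13221496177) (.one (nat_lit 1053541) .nil))),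
   .two (nat_lit 11479810056) (nat_lit 183946444823) (.two (nat_lit 809500677) (nat_lit 11006902786) (.two (nat_lit 37748737) (nat_lit 12617515658) (.two (nat_lit 4194304) (nat_lit 184416209104) (.one (nat_lit 168825627) .nil)))),
   .two (nat_lit 2887778312) (nat_lit 156548202520) (.two (nat_lit 218103813) (nat_lit 235929728) (.two (nat_lit 2097153) (nat_lit 10436477600) (.two (nat_lit 1048576) (nat_lit 2100270) (.one (nat_lit 183912893867) .nil)))),
   .two (nat_lit 8388616) (nat_lit 20638072947) (.two (nat_lit 8388609) (nat_lit 13222545447) (.one (nat_lit 2100805) .nil)),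
   .two (nat_lit 11479810056) (nat_lit 4605345858) (.two (nat_lit 37748737) (nat_lit 184423547604) (.two (nat_lit 4194304) (nat_lit 184423551375) .nil)),
   .two (nat_lit 9768534024) (nat_lit 4027580554) (.two (nat_lit 37748737) (nat_lit 37246468722) (.two (nat_lit 8388608) (nat_lit 1051695) (.one (nat_lit 10544484019) .nil))),
   .two (nat_lit 2887778312) (nat_lit 10385096819) (.two (nat_lit 2097153) (nat_lit 13203671079) (.one (nat_lit 16783104) .nil)),
   .two (nat_lit 12047089672) (nat_lit 654311465) (.two (nat_lit 11559501829) (nat_lit 37246468163) (.two (nat_lit 37748737) (nat_lit 638584121) (.one (nat_lit 1053545) .nil))),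
   .two (nat_lit 1753219084) (nat_lit 183949590552) (.two (nat_lit 4605345797) (nat_lit 12117344322) (.two (nat_lit 9765388289) (nat_lit 11546920270) (.one (nat_lit 4199275) .nil))),
   .two (nat_lit 8388616) (nat_lit 19027460217) (.two (nat_lit 34603009) (nat_lit 773849749) (.two (nat_lit 1048576) (nat_lit 8390907) (.one (nat_lit 2103041) .nil))),
   .two (nat_lit 37748744) (nat_lit 158083317884) (.two (nat_lit 4194305) (nat_lit 1411384394) (.two (nat_lit 4194304) (nat_lit 2100276) (.one (nat_lit 4200194) .nil))),
   .two (nat_lit 101711880) (nat_lit 46407876741) (.two (nat_lit 34603009) (nat_lit 169869673) (.two (nat_lit 1048576) (nat_lit 2098490) (.one (nat_lit 2103043) .nil))),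
   .two (nat_lit 104857608) (nat_lit 3525312527) (.two (nat_lit 713031684) (nat_lit 10538188921) (.two (nat_lit 37748737) (nat_lit 3021999154) (.one (nat_lit 8394500) .nil))),
   .two (nat_lit 28757196813) (nat_lit 19599982707) (.two (nat_lit 8388609) (nat_lit 10942940536) (.one (nat_lit 4198827) .nil)),
   .two (nat_lit 721420296) (nat_lit 739246146) (.two (nat_lit 50331649) (nat_lit 1947206499) (.one (nat_lit 1054469) .nil)),
   .two (nat_lit 2887778312) (nat_lit 10506731629) (.two (nat_lit 605028353) (nat_lit 11580473980) (.two (nat_lit 1048576) (nat_lit 2101455) (.one (nat_lit 47547682533) .nil))),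
   .two (nat_lit 4194312) (nat_lit 47555018767) (.two (nat_lit 4194308) (nat_lit 11543773320) (.two (nat_lit 612368385) (nat_lit 2416968299) (.two (nat_lit 4194304) (nat_lit 1051702) (.one (nat_lit 612371957) .nil)))),
   .two (nat_lit 101711880) (nat_lit 673185833) (.two (nat_lit 1779433477) (nat_lit 166197198984) (.two (nat_lit 9765388289) (nat_lit 28691137163) (.two (nat_lit 1048576) (nat_lit 19128126472) (.one (nat_lit 1052449) .nil)))),
   .two (nat_lit 166196150285) (nat_lit 10439622770) (.two (nat_lit 156364701697) (nat_lit 4197282) (.one (nat_lit 4199977) .nil)),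
   .two (nat_lit 21811429388) (nat_lit 10343153679) (.two (nat_lit 4605345797) (nat_lit 1745879176) (.two (nat_lit 605028353) (nat_lit 12155093351) (.two (nat_lit 8388608) (nat_lit 1175455853) (.one (nat_lit 11484007933) .nil)))),
   .two (nat_lit 721420296) (nat_lit 101712008) (.two (nat_lit 34603009) (nat_lit 20652755080) (.one (nat_lit 16782193) .nil)),
   .two (nat_lit 184549384) (nat_lit 156466413829) (.two (nat_lit 2097153) (nat_lit 21814575728) (.two (nat_lit 2097152) (nat_lit 306185613) (.one (nat_lit 2103046) .nil))),
   .two (nat_lit 16777224) (nat_lit 9866051624) (.two (nat_lit 50331653) (nat_lit 1312817424) (.two (nat_lit 4194305) (nat_lit 839910083) (.two (nat_lit 4194304) (nat_lit 37246470169) (.one (nat_lit 1054471) .nil)))),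
   .two (nat_lit 679477261) (nat_lit 158176641048) (.two (nat_lit 11559501829) (nat_lit 269484674) (.two (nat_lit 16777216) (nat_lit 9933161806) (.one (nat_lit 1054472) .nil))),
   .two (nat_lit 8388616) (nat_lit 4634705943) (.two (nat_lit 8388612) (nat_lit 4634706524) (.two (nat_lit 8388608) (nat_lit 675286030) (.one (nat_lit 608178709) .nil))),
   .two (nat_lit 169869320) (nat_lit 620757007) (.two (nat_lit 184549380) (nat_lit 184987680891) (.two (nat_lit 16777217) (nat_lit 158077026951) (.two (nat_lit 1048576) (nat_lit 2100279) (.one (nat_lit 1054473) .nil)))),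
   .two (nat_lit 4194312) (nat_lit 3525312527) (.two (nat_lit 4194308) (nat_lit 12114198594) (.two (nat_lit 37748737) (nat_lit 183912890964) (.two (nat_lit 1048576) (nat_lit 2101456) (.one (nat_lit 21777879873) .nil)))),
   .two (nat_lit 166130089992) (nat_lit 13187940401) (.two (nat_lit 10504634373) (nat_lit 174752530561) (.two (nat_lit 605028353) (nat_lit 37314626894) (.one (nat_lit 2103051) .nil))),
   .two (nat_lit 1291845640) (nat_lit 184416206872) (.two (nat_lit 34603013) (nat_lit 218104415) (.two (nat_lit 2097152) (nat_lit 20719866356) .nil)),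
   .two (nat_lit 606076936) (nat_lit 20644364303) (.two (nat_lit 169869316) (nat_lit 156569174284) (.two (nat_lit 2097153) (nat_lit 876610183) (.two (nat_lit 8388608) (nat_lit 1176504335) (.one (nat_lit 2103052) .nil)))),
   .two (nat_lit 205520904) (nat_lit 2927624259) (.two (nat_lit 37748737) (nat_lit 10544480941) (.two (nat_lit 1048576) (nat_lit 8391739) (.one (nat_lit 10369372995) .nil))),
   .two (nat_lit 2887778312) (nat_lit 10510925867) (.two (nat_lit 612368389) (nat_lit 638582902) (.two (nat_lit 41943041) (nat_lit 19026411881) (.two (nat_lit 2097152) (nat_lit 1051708) (.one (nat_lit 739250818) .nil)))),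
   .two (nat_lit 184986632200) (nat_lit 159224168563) (.two (nat_lit 612368385) (nat_lit 158143088667) (.one (nat_lit 1745882539) .nil)),
   .two (nat_lit 16777224) (nat_lit 2889875522) (.two (nat_lit 16777217) (nat_lit 9936307547) (.one (nat_lit 9768537801) .nil)),
   .two (nat_lit 285212680) (nat_lit 101711887) (.two (nat_lit 16777220) (nat_lit 1410334842) (.two (nat_lit 50331649) (nat_lit 157035790981) (.two (nat_lit 16777216) (nat_lit 1051709) (.one (nat_lit 1054271) .nil)))),
   .two (nat_lit 285212680) (nat_lit 101711887) (.two (nat_lit 16777220) (nat_lit 1947205741) (.two (nat_lit 16777217) (nat_lit 28790751872) (.two (nat_lit 16777216) (nat_lit 174685424654) (.one (nat_lit 1054477) .nil)))),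
   .two (nat_lit 809500680) (nat_lit 46523219994) (.two (nat_lit 184549380) (nat_lit 272629870) (.two (nat_lit 16777217) (nat_lit 37749383) (.two (nat_lit 16777216) (nat_lit 4197438) (.one (nat_lit 28690092683) .nil)))),
   .two (nat_lit 9766436872) (nat_lit 3560964120) (.two (nat_lit 612368389) (nat_lit 673185913) (.two (nat_lit 2097153) (nat_lit 9873392252) (.two (nat_lit 2097152) (nat_lit 8392914) (.one (nat_lit 8394510) .nil)))),
   .two (nat_lit 272629768) (nat_lit 184416206914) (.two (nat_lit 4194305) (nat_lit 806356333) (.one (nat_lit 1054479) .nil)),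
   .two (nat_lit 822083592) (nat_lit 9934209039) (.two (nat_lit 285212677) (nat_lit 158144135283) (.two (nat_lit 16777217) (nat_lit 4028631279) (.one (nat_lit 2103056) .nil))),
   .two (nat_lit 16777224) (nat_lit 606076943) (.two (nat_lit 4194308) (nat_lit 13237223781) (.two (nat_lit 4194304) (nat_lit 37329306998) (.one (nat_lit 16783121) .nil))),
   .two (nat_lit 10370416648) (nat_lit 1920991333) (.two (nat_lit 638582789) (nat_lit 1847591025) (.two (nat_lit 16777217) (nat_lit 142608603) (.one (nat_lit 8394514) .nil))),
   .two (nat_lit 1847590920) (nat_lit 721420412) (.two (nat_lit 2097153) (nat_lit 10385097344) (.two (nat_lit 2097152) (nat_lit 16780351) (.one (nat_lit 16783123) .nil))),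
   .two (nat_lit 203423757) (nat_lit 165532401704) (.two (nat_lit 2097157) (nat_lit 10007609583) (.two (nat_lit 2097153) (nat_lit 8391509) (.two (nat_lit 2097152) (nat_lit 8392915) (.one (nat_lit 8394516) .nil)))),
   .two (nat_lit 2969567240) (nat_lit 21208498200) (.two (nat_lit 169869316) (nat_lit 318768480) (.one (nat_lit 16783125) .nil)),
   .two (nat_lit 2902458376) (nat_lit 9866051599) (.two (nat_lit 285212677) (nat_lit 9798942847) (.two (nat_lit 9781116929) (nat_lit 68158087) (.two (nat_lit 16777216) (nat_lit 12114201540) (.one (nat_lit 20737693368) .nil)))),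
   .two (nat_lit 47548727304) (nat_lit 10439622698) (.two (nat_lit 169869316) (nat_lit 184419352697) (.two (nat_lit 41943041) (nat_lit 12618564947) (.one (nat_lit 2102143) .nil))),
   .two (nat_lit 754974728) (nat_lit 12114198543) (.two (nat_lit 11476664324) (nat_lit 754974786) (.two (nat_lit 9765388289) (nat_lit 10955522679) (.two (nat_lit 4194304) (nat_lit 9881782315) (.one (nat_lit 16782208) .nil)))),
   .two (nat_lit 176160776) (nat_lit 13191086147) (.two (nat_lit 8388609) (nat_lit 708839560) (.one (nat_lit 4199069) .nil)),
   .two (nat_lit 276824072) (nat_lit 28087156760) (.two (nat_lit 639631365) (nat_lit 185020186742) (.two (nat_lit 41943041) (nat_lit 19026411884) (.two (nat_lit 1048576) (nat_lit 2100288) (.one (nat_lit 2103062) .nil)))),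
   .two (nat_lit 1277165576) (nat_lit 10443817007) (.two (nat_lit 9934209029) (nat_lit 687865981) (.two (nat_lit 16777217) (nat_lit 3458205785) (.one (nat_lit 2103063) .nil))),
   .two (nat_lit 16777224) (nat_lit 9866051698) (.two (nat_lit 16777217) (nat_lit 9899606644) (.two (nat_lit 16777216) (nat_lit 174688569539) (.one (nat_lit 1379930811) .nil))),
   .two (nat_lit 4601151496) (nat_lit 1913651215) (.two (nat_lit 46409973765) (nat_lit 183912890482) (.two (nat_lit 37748737) (nat_lit 34605290) (.one (nat_lit 1054488) .nil))),
   .two (nat_lit 11559501832) (nat_lit 12114198595) (.two (nat_lit 34603009) (nat_lit 16778981) (.two (nat_lit 1048576) (nat_lit 12062820581) (.one (nat_lit 2902463335) .nil))),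
   .two (nat_lit 47555018760) (nat_lit 166230753304) (.two (nat_lit 158144135173) (nat_lit 47555018869) (.two (nat_lit 606076929) (nat_lit 2994735346) (.one (nat_lit 8394521) .nil))),
   .two (nat_lit 3527409672) (nat_lit 11022630960) (.two (nat_lit 50331653) (nat_lit 3527409729) (.two (nat_lit 2097153) (nat_lit 11513365881) (.one (nat_lit 16783130) .nil))),
   .two (nat_lit 612368392) (nat_lit 158647451672) (.two (nat_lit 176160772) (nat_lit 11511267462) (.two (nat_lit 8388609) (nat_lit 1916797285) (.two (nat_lit 2097152) (nat_lit 46477084749) (.one (nat_lit 8394523) .nil)))),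
   .two (nat_lit 9940500488) (nat_lit 1745879055) (.two (nat_lit 176160772) (nat_lit 336593020) (.two (nat_lit 156372041729) (nat_lit 158143087290) (.two (nat_lit 8388608) (nat_lit 4197442) (.one (nat_lit 8394524) .nil)))),
   .two (nat_lit 4605345800) (nat_lit 1745879055) (.two (nat_lit 8388612) (nat_lit 68157562) (.two (nat_lit 41943041) (nat_lit 12147753638) (.two (nat_lit 8388608) (nat_lit 1051715) (.one (nat_lit 1054493) .nil)))),
   .two (nat_lit 16777224) (nat_lit 2416967806) (.two (nat_lit 4194305) (nat_lit 687866538) (.two (nat_lit 16777216) (nat_lit 2420115618) (.one (nat_lit 2365592251) .nil))),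
   .two (nat_lit 822083592) (nat_lit 158079124073) (.two (nat_lit 16777216) (nat_lit 4197444) (.one (nat_lit 2103070) .nil)),
   .two (nat_lit 822083592) (nat_lit 4601151503) (.two (nat_lit 4194308) (nat_lit 754976081) (.one (nat_lit 16783135) .nil)),
   .two (nat_lit 2969567240) (nat_lit 19027460211) (.two (nat_lit 2097153) (nat_lit 19042142755) .nil),
   .two (nat_lit 41943048) (nat_lit 754974735) (.two (nat_lit 8388612) (nat_lit 11593056903) (.two (nat_lit 8388608) (nat_lit 16780358) (.one (nat_lit 174701153841) .nil))),
   .two (nat_lit 184549384) (nat_lit 1277165583) (.two (nat_lit 16777221) (nat_lit 11477713021) (.two (nat_lit 16777217) (nat_lit 4030726798) (.two (nat_lit 2097152) (nat_lit 28806481296) (.one (nat_lit 1212159769) .nil)))),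
   .two (nat_lit 41943048) (nat_lit 673185927) (.two (nat_lit 8388609) (nat_lit 21208498785) (.two (nat_lit 4194304) (nat_lit 11544824010) (.one (nat_lit 12117348956) .nil))),
   .two (nat_lit 169869320) (nat_lit 109052030) (.two (nat_lit 2097153) (nat_lit 10503586155) (.two (nat_lit 8388608) (nat_lit 12114201612) (.one (nat_lit 19027464741) .nil))),
   .two (nat_lit 713031688) (nat_lit 159217877007) (.two (nat_lit 713031684) (nat_lit 1210056967) (.two (nat_lit 612368385) (nat_lit 3021998256) (.one (nat_lit 2103072) .nil))),
   .two (nat_lit 10538188812) (nat_lit 12047089679) (.two (nat_lit 10504634373) (nat_lit 11577327683) (.two (nat_lit 9768534017) (nat_lit 3557821359) (.one (nat_lit 2103073) .nil))),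
   .two (nat_lit 8388616) (nat_lit 20638072945) (.two (nat_lit 8388609) (nat_lit 773849711) (.two (nat_lit 4194304) (nat_lit 35654680) (.one (nat_lit 2103074) .nil))),
   .two (nat_lit 12114198536) (nat_lit 12048138283) (.two (nat_lit 1277165572) (nat_lit 183912890433) (.two (nat_lit 605028353) (nat_lit 102762740) (.one (nat_lit 19093524248) .nil))),
   .two (nat_lit 205520904) (nat_lit 3525312578) (.two (nat_lit 4194305) (nat_lit 10335814257) (.two (nat_lit 4194304) (nat_lit 184987682166) (.one (nat_lit 156466419369) .nil))),
   .two (nat_lit 1358954504) (nat_lit 10537140269) (.two (nat_lit 721420292) (nat_lit 4598005886) (.two (nat_lit 34603009) (nat_lit 19142805538) (.one (nat_lit 10385101704) .nil))),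
   .two (nat_lit 713031688) (nat_lit 157035790361) (.two (nat_lit 713031684) (nat_lit 10000269439) (.two (nat_lit 156364701697) (nat_lit 13195280980) (.two (nat_lit 1048576) (nat_lit 8390914) (.one (nat_lit 1054500) .nil)))),
   .two (nat_lit 169869320) (nat_lit 174755676201) (.two (nat_lit 16777221) (nat_lit 705691714) (.two (nat_lit 16777217) (nat_lit 46473937257) (.two (nat_lit 2097152) (nat_lit 4197447) (.one (nat_lit 337646210) .nil)))),
   .two (nat_lit 41943048) (nat_lit 21207449615) (.two (nat_lit 34603013) (nat_lit 46414168301) (.two (nat_lit 2097153) (nat_lit 158143087240) (.two (nat_lit 8388608) (nat_lit 28758248350) (.one (nat_lit 2103077) .nil)))),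
   .two (nat_lit 1291845640) (nat_lit 2921332760) (.two (nat_lit 2887778308) (nat_lit 9915335983) (.one (nat_lit 16783142) .nil)),
   .two (nat_lit 176160776) (nat_lit 46407876631) (.two (nat_lit 176160772) (nat_lit 156533523048) (.two (nat_lit 8388608) (nat_lit 20738737548) (.one (nat_lit 2103079) .nil))),
   .two (nat_lit 183916036109) (nat_lit 2902458435) (.two (nat_lit 37748737) (nat_lit 166211879274) (.two (nat_lit 4194304) (nat_lit 16779523) (.one (nat_lit 16782221) .nil))),
   .two (nat_lit 721420296) (nat_lit 46978302642) (.two (nat_lit 16777216) (nat_lit 12048139602) (.one (nat_lit 2102158) .nil)),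
   .two (nat_lit 4194312) (nat_lit 183962173560) (.two (nat_lit 4194305) (nat_lit 822084254) (.two (nat_lit 4194304) (nat_lit 1862273245) (.one (nat_lit 4199312) .nil))),
   .two (nat_lit 9781116936) (nat_lit 157038936088) (.two (nat_lit 46409973765) (nat_lit 11492393070) (.two (nat_lit 4194305) (nat_lit 2902459685) (.one (nat_lit 16782923) .nil))),
   .two (nat_lit 41943048) (nat_lit 11577327682) (.two (nat_lit 8388609) (nat_lit 2987393655) (.two (nat_lit 8388608) (nat_lit 1050884) (.one (nat_lit 1054504) .nil))),
   .two (nat_lit 809500680) (nat_lit 157043130383) (.two (nat_lit 4194308) (nat_lit 109052524) (.two (nat_lit 8388608) (nat_lit 1191185310) (.one (nat_lit 8394537) .nil))),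
   .two (nat_lit 1795162120) (nat_lit 46978301967) (.two (nat_lit 2889875460) (nat_lit 157036839269) (.two (nat_lit 4194304) (nat_lit 16780362) (.one (nat_lit 2103082) .nil))),
   .two (nat_lit 16777224) (nat_lit 19127074945) (.two (nat_lit 2097153) (nat_lit 156532474469) (.two (nat_lit 2097152) (nat_lit 21214791919) (.one (nat_lit 156976027370) .nil))),
   .two (nat_lit 620757000) (nat_lit 157036838927) (.two (nat_lit 184549380) (nat_lit 174686470257) (.two (nat_lit 2097153) (nat_lit 174768260434) (.one (nat_lit 16783147) .nil))),
   .two (nat_lit 19532873736) (nat_lit 46523220034) (.two (nat_lit 9768534017) (nat_lit 754978374) .nil),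
   .two (nat_lit 9934209032) (nat_lit 46507491454) (.two (nat_lit 606076929) (nat_lit 10436477646) (.two (nat_lit 1048576) (nat_lit 10001320195) (.one (nat_lit 156532478767) .nil))),
   .two (nat_lit 104857608) (nat_lit 10939793432) (.two (nat_lit 156364701701) (nat_lit 18928894074) (.two (nat_lit 16777217) (nat_lit 13228835876) (.two (nat_lit 4194304) (nat_lit 8391755) (.one (nat_lit 8394540) .nil)))),
   .two (nat_lit 1291845640) (nat_lit 158144135183) (.two (nat_lit 9948889093) (nat_lit 46474985596) (.two (nat_lit 606076929) (nat_lit 687868911) (.one (nat_lit 2102877) .nil))),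
   .two (nat_lit 12117344264) (nat_lit 1779433594) (.two (nat_lit 37748737) (nat_lit 10351542934) (.two (nat_lit 1048576) (nat_lit 10909386983) (.one (nat_lit 1054509) .nil))),
   .two (nat_lit 9866051592) (nat_lit 2921332759) (.two (nat_lit 47548727301) (nat_lit 2920284286) (.two (nat_lit 156365750273) (nat_lit 20737688924) (.one (nat_lit 1054510) .nil))),
   .two (nat_lit 203423752) (nat_lit 1749024783) (.two (nat_lit 721420292) (nat_lit 9934209219) (.two (nat_lit 4194304) (nat_lit 2100300) (.one (nat_lit 2103087) .nil))),
   .two (nat_lit 4194312) (nat_lit 174759870479) (.two (nat_lit 9881780229) (nat_lit 272630400) (.two (nat_lit 1048576) (nat_lit 13195282447) (.one (nat_lit 8394544) .nil))),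
   .two (nat_lit 20638072840) (nat_lit 269484158) (.two (nat_lit 606076929) (nat_lit 46406830095) (.one (nat_lit 183946448410) .nil)),
   .two (nat_lit 9768534024) (nat_lit 673185817) (.two (nat_lit 2889875460) (nat_lit 183913939068) (.two (nat_lit 50331649) (nat_lit 9869199456) (.one (nat_lit 4200241) .nil))),
   .two (nat_lit 285212680) (nat_lit 10007609456) (.two (nat_lit 16777217) (nat_lit 159224169314) (.one (nat_lit 310381098) .nil)),
   .two (nat_lit 16777224) (nat_lit 9867100175) (.two (nat_lit 184549380) (nat_lit 158177689737) (.two (nat_lit 606076929) (nat_lit 4196485) (.one (nat_lit 2317357586) .nil))),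
   .two (nat_lit 612368392) (nat_lit 10907287576) (.two (nat_lit 1277165572) (nat_lit 165532401774) (.two (nat_lit 606076929) (nat_lit 20644364892) (.two (nat_lit 2097152) (nat_lit 12624858103) (.one (nat_lit 2102164) .nil)))),
   .two (nat_lit 2961178632) (nat_lit 11513364504) (.two (nat_lit 171966469) (nat_lit 3464495220) (.two (nat_lit 4194305) (nat_lit 10007609993) (.two (nat_lit 1048576) (nat_lit 8391759) (.one (nat_lit 1054514) .nil)))),
   .two (nat_lit 2887778312) (nat_lit 156367847439) (.two (nat_lit 708837381) (nat_lit 12114198594) (.two (nat_lit 4194305) (nat_lit 10335813993) (.two (nat_lit 1048576) (nat_lit 2100304) (.one (nat_lit 183949595173) .nil)))),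
   .two (nat_lit 68157448) (nat_lit 12054429807) (.two (nat_lit 4194305) (nat_lit 47555021812) (.one (nat_lit 1054517) .nil)),
   .two (nat_lit 1277165576) (nat_lit 2936012919) (.two (nat_lit 9766436865) (nat_lit 3527413317) .nil),
   .two (nat_lit 612368392) (nat_lit 12047089679) (.two (nat_lit 184416206853) (nat_lit 41943175) (.two (nat_lit 34603009) (nat_lit 679477887) (.two (nat_lit 8388608) (nat_lit 1052032) (.one (nat_lit 184423550424) .nil)))),
   .two (nat_lit 276824072) (nat_lit 3527409730) (.two (nat_lit 4194305) (nat_lit 37253809497) (.one (nat_lit 4199326) .nil)),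
   .two (nat_lit 4194312) (nat_lit 11517558809) (.two (nat_lit 8388612) (nat_lit 11543773932) (.two (nat_lit 1048576) (nat_lit 4197762) (.one (nat_lit 1053599) .nil))),
   .two (nat_lit 158158815240) (nat_lit 166196150387) (.two (nat_lit 156365750273) (nat_lit 21811430033) (.two (nat_lit 2097152) (nat_lit 46507495778) .nil)),
   .two (nat_lit 41943048) (nat_lit 772800578) (.two (nat_lit 8388609) (nat_lit 20737688889) (.one (nat_lit 772804213) .nil)),
   .two (nat_lit 4194312) (nat_lit 13228834840) (.two (nat_lit 8388612) (nat_lit 184986633059) (.one (nat_lit 9899610983) .nil)),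
   .two (nat_lit 50331656) (nat_lit 19033751676) (.two (nat_lit 8388609) (nat_lit 2902459034) (.two (nat_lit 8388608) (nat_lit 13203672086) (.one (nat_lit 8394550) .nil))),
   .two (nat_lit 4613734408) (nat_lit 28758245391) (.two (nat_lit 1277165572) (nat_lit 12633243780) (.two (nat_lit 156364701697) (nat_lit 11477714320) (.one (nat_lit 2102177) .nil))),
   .two (nat_lit 1277165576) (nat_lit 11484004600) (.two (nat_lit 8388609) (nat_lit 9967764124) (.two (nat_lit 1048576) (nat_lit 166197201123) (.one (nat_lit 8394551) .nil))),
   .two (nat_lit 157036838920) (nat_lit 10385096771) (.two (nat_lit 2097153) (nat_lit 16779686) (.one (nat_lit 21793608526) .nil)),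
   .two (nat_lit 158158815240) (nat_lit 19093520451) (.two (nat_lit 9765388289) (nat_lit 1392511071) (.one (nat_lit 16783160) .nil)),
   .two (nat_lit 50331656) (nat_lit 4634705986) (.two (nat_lit 16777217) (nat_lit 339739980) (.one (nat_lit 4199330) .nil)),
   .two (nat_lit 4194312) (nat_lit 9948889128) (.two (nat_lit 171966469) (nat_lit 3539992832) (.two (nat_lit 37748737) (nat_lit 754976542) (.two (nat_lit 1048576) (nat_lit 3036678275) (.one (nat_lit 352327338) .nil)))),
   .two (nat_lit 3458203656) (nat_lit 1846542351) (.two (nat_lit 47548727301) (nat_lit 11610882167) (.two (nat_lit 156365750273) (nat_lit 47547681810) (.one (nat_lit 46977257029) .nil))),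
   .two (nat_lit 176160776) (nat_lit 20707278894) (.two (nat_lit 83886085) (nat_lit 10913579637) (.two (nat_lit 1048576) (nat_lit 46523223216) (.one (nat_lit 156532478594) .nil))),
   .two (nat_lit 4605345800) (nat_lit 47548727360) (.two (nat_lit 8388609) (nat_lit 19597886771) (.one (nat_lit 2921336523) .nil)),
   .two (nat_lit 184549384) (nat_lit 606077225) (.two (nat_lit 2097153) (nat_lit 3539995688) (.one (nat_lit 16783161) .nil)),
   .two (nat_lit 612368392) (nat_lit 21208498291) (.two (nat_lit 8388609) (nat_lit 185021236571) (.one (nat_lit 46978306634) .nil)),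
   .two (nat_lit 184549384) (nat_lit 101711887) (.two (nat_lit 184549380) (nat_lit 28790751348) (.two (nat_lit 620756993) (nat_lit 19093524106) .nil)),
   .two (nat_lit 1795162120) (nat_lit 1343225898) (.two (nat_lit 34603013) (nat_lit 754974830) (.two (nat_lit 34603009) (nat_lit 174701151632) (.one (nat_lit 16783162) .nil))),
   .two (nat_lit 101711880) (nat_lit 639631492) (.two (nat_lit 34603009) (nat_lit 46978302591) (.two (nat_lit 1048576) (nat_lit 3558870387) (.one (nat_lit 156968686372) .nil))),
   .two (nat_lit 272629768) (nat_lit 10538188925) (.two (nat_lit 2097153) (nat_lit 2353005191) (.two (nat_lit 2097152) (nat_lit 4198733) (.one (nat_lit 4199333) .nil))),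
   .two (nat_lit 1779433480) (nat_lit 1350566010) (.two (nat_lit 41943041) (nat_lit 1050327) (.two (nat_lit 1048576) (nat_lit 158083319124) (.one (nat_lit 8394555) .nil))),
   .two (nat_lit 8388616) (nat_lit 2923429953) (.two (nat_lit 8388609) (nat_lit 2889876157) (.two (nat_lit 8388608) (nat_lit 156535623010) (.one (nat_lit 4200252) .nil))),
   .two (nat_lit 21208498184) (nat_lit 1947205757) (.two (nat_lit 34603009) (nat_lit 13222544463) (.two (nat_lit 1048576) (nat_lit 2100611) (.one (nat_lit 2102183) .nil))),
   .two (nat_lit 9781116936) (nat_lit 184419352591) (.two (nat_lit 12117344261) (nat_lit 654312785) (.one (nat_lit 16782248) .nil)),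
   .two (nat_lit 184549384) (nat_lit 46510637098) (.two (nat_lit 4194308) (nat_lit 20719862419) (.two (nat_lit 8388608) (nat_lit 16779689) (.one (nat_lit 11580477199) .nil))),
   .two (nat_lit 705691656) (nat_lit 75497487) (.two (nat_lit 612368389) (nat_lit 184986632302) (.two (nat_lit 34603009) (nat_lit 11551113865) (.two (nat_lit 8388608) (nat_lit 1052036) (.one (nat_lit 9967767269) .nil)))),
   .two (nat_lit 606076936) (nat_lit 158192369731) (.two (nat_lit 2097153) (nat_lit 21827158373) (.two (nat_lit 16777216) (nat_lit 4196778) (.one (nat_lit 4200253) .nil))),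
   .two (nat_lit 612368392) (nat_lit 1745879055) (.two (nat_lit 21785214981) (nat_lit 1913651336) (.two (nat_lit 9768534017) (nat_lit 1050635) (.two (nat_lit 4194304) (nat_lit 1317013688) (.one (nat_lit 8394558) .nil)))),
   .two (nat_lit 34603014) (nat_lit 19599982639) (.two (nat_lit 37748744) (nat_lit 10503585803) (.two (nat_lit 1178599429) (nat_lit 269484153) (.two (nat_lit 4194305) (nat_lit 1049353) (.two (nat_lit 4194304) (nat_lit 1051076) (.one (nat_lit 4199364) .nil))))),
   .two (nat_lit 9933160454) (nat_lit 28693233679) (.two (nat_lit 28693233672) (nat_lit 21207449611) (.two (nat_lit 1745879045) (nat_lit 12050235514) (.two (nat_lit 605028353) (nat_lit 28793897328) (.two (nat_lit 1048576) (nat_lit 2353005449) (.one (nat_lit 4200255) .nil))))),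
   .two (nat_lit 16777224) (nat_lit 8388623) (.two (nat_lit 16777220) (nat_lit 176160835) (.two (nat_lit 16777217) (nat_lit 11517559147) (.two (nat_lit 16777216) (nat_lit 166136381903) (.one (nat_lit 8391338) .nil)))),
   .two (nat_lit 20644364296) (nat_lit 9934209039) (.two (nat_lit 2097157) (nat_lit 10544480329) (.two (nat_lit 159224168453) (nat_lit 19597885509) (.two (nat_lit 2097153) (nat_lit 1182795197) (.two (nat_lit 1048576) (nat_lit 8392081) (.one (nat_lit 8393672) .nil))))),
   .two (nat_lit 713031688) (nat_lit 773849110) (.two (nat_lit 165526110213) (nat_lit 11618222146) (.two (nat_lit 2097153) (nat_lit 11517558883) (.two (nat_lit 2097152) (nat_lit 185027527540) (.one (nat_lit 2102217) .nil)))),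
   .two (nat_lit 9934209030) (nat_lit 159224168463) (.two (nat_lit 159224168456) (nat_lit 9934209035) (.two (nat_lit 10336862213) (nat_lit 157043130490) (.two (nat_lit 606076929) (nat_lit 158150426992) (.two (nat_lit 2097152) (nat_lit 47588574089) (.one (nat_lit 8394560) .nil))))),
   .two (nat_lit 739246088) (nat_lit 1291845673) (.two (nat_lit 50331653) (nat_lit 28790751299) (.two (nat_lit 50331649) (nat_lit 739247962) (.two (nat_lit 16777216) (nat_lit 1051082) (.one (nat_lit 1054529) .nil)))),
   .two (nat_lit 2097158) (nat_lit 183853121551) (.two (nat_lit 2954887176) (nat_lit 13195280395) (.two (nat_lit 169869314) (nat_lit 9906946184) (.two (nat_lit 169869316) (nat_lit 46414168101) (.two (nat_lit 156372041729) (nat_lit 2097931) (.two (nat_lit 8388608) (nat_lit 2099659) (.one (nat_lit 2103106) .nil)))))),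
   .two (nat_lit 20644364303) (nat_lit 135266417) (.two (nat_lit 1753219077) (nat_lit 37313577826) (.two (nat_lit 8388608) (nat_lit 11543778271) .nil)),
   .two (nat_lit 169869327) (nat_lit 21785215171) (.two (nat_lit 34603009) (nat_lit 874513252) (.two (nat_lit 1048576) (nat_lit 2100816) (.one (nat_lit 2103471) .nil))),
   .two (nat_lit 184549391) (nat_lit 10940841999) (.two (nat_lit 2969567240) (nat_lit 46978302072) (.two (nat_lit 157036838917) (nat_lit 11559503137) (.two (nat_lit 2097152) (nat_lit 50334206) (.one (nat_lit 10351547381) .nil)))),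
   .two (nat_lit 4605345807) (nat_lit 2350907459) (.two (nat_lit 1277165572) (nat_lit 746586746) (.two (nat_lit 606076929) (nat_lit 158653744436) (.two (nat_lit 1048576) (nat_lit 37253811771) (.one (nat_lit 2103472) .nil)))),
   .two (nat_lit 2969567247) (nat_lit 184993972288) (.two (nat_lit 184549380) (nat_lit 1753219267) (.two (nat_lit 16777217) (nat_lit 1920992609) (.two (nat_lit 1048576) (nat_lit 158150429200) (.one (nat_lit 1291851588) .nil)))),
   .two (nat_lit 8388623) (nat_lit 19596836879) (.two (nat_lit 18925748232) (nat_lit 880804197) (.two (nat_lit 8388609) (nat_lit 1947207750) (.two (nat_lit 1048576) (nat_lit 166203493851) (.one (nat_lit 1054897) .nil)))),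
   .two (nat_lit 50331663) (nat_lit 174688567363) (.two (nat_lit 16777220) (nat_lit 1950351721) (.two (nat_lit 4194305) (nat_lit 2936014127) (.two (nat_lit 1048576) (nat_lit 2956989412) .nil))),
   .two (nat_lit 13191086095) (nat_lit 10437525528) (.two (nat_lit 28691136520) (nat_lit 10506731644) (.two (nat_lit 4194308) (nat_lit 46474986142) (.two (nat_lit 41943041) (nat_lit 1916799515) (.one (nat_lit 4200626) .nil)))),
   .two (nat_lit 184419352599) (nat_lit 47555018878) (.two (nat_lit 169869316) (nat_lit 1413481150) (.two (nat_lit 41943041) (nat_lit 47548728643) (.two (nat_lit 8388608) (nat_lit 2100822) (.one (nat_lit 1753224190) .nil)))),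
   .two (nat_lit 1779433487) (nat_lit 742391941) (.two (nat_lit 101711877) (nat_lit 166132187493) (.two (nat_lit 605028353) (nat_lit 339739961) (.two (nat_lit 1048576) (nat_lit 11614031443) (.one (nat_lit 13187944339) .nil)))),
   .two (nat_lit 1846542351) (nat_lit 156533522547) (.two (nat_lit 28758245381) (nat_lit 156465365858) (.two (nat_lit 2097152) (nat_lit 174685424148) (.one (nat_lit 1053851) .nil))),
   .two (nat_lit 1795162127) (nat_lit 9806282873) (.two (nat_lit 184549380) (nat_lit 1753219267) (.two (nat_lit 605028353) (nat_lit 2894071094) (.two (nat_lit 1048576) (nat_lit 158662135355) (.one (nat_lit 1054899) .nil)))),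
   .two (nat_lit 41943055) (nat_lit 117440623) (.two (nat_lit 721420293) (nat_lit 2927625588) (.two (nat_lit 16777216) (nat_lit 8393156) (.one (nat_lit 3028293635) .nil))),
   .two (nat_lit 218103823) (nat_lit 184986632207) (.two (nat_lit 9781116936) (nat_lit 184986632258) (.two (nat_lit 705691652) (nat_lit 9948889704) (.two (nat_lit 34603009) (nat_lit 721421708) (.two (nat_lit 16777216) (nat_lit 9899609634) (.one (nat_lit 1054900) .nil))))),
   .two (nat_lit 12047089679) (nat_lit 117440627) (.two (nat_lit 1358954501) (nat_lit 1947206336) (.two (nat_lit 34603009) (nat_lit 50332966) (.two (nat_lit 1048576) (nat_lit 889196073) (.one (nat_lit 303043546) .nil)))),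
   .two (nat_lit 11492392975) (nat_lit 605028480) (.two (nat_lit 11492392964) (nat_lit 1309672118) (.two (nat_lit 9765388289) (nat_lit 2902459682) (.two (nat_lit 2097152) (nat_lit 2920286738) (.one (nat_lit 151000072) .nil)))),
   .two (nat_lit 742391823) (nat_lit 101711992) (.two (nat_lit 171966469) (nat_lit 673186395) (.two (nat_lit 4194305) (nat_lit 673187105) (.two (nat_lit 1048576) (nat_lit 2100743) (.one (nat_lit 9899612024) .nil)))),
   .two (nat_lit 2954887183) (nat_lit 158083317827) (.two (nat_lit 169869316) (nat_lit 1417675109) (.two (nat_lit 606076929) (nat_lit 156976023625) (.two (nat_lit 2097152) (nat_lit 19033755099) (.one (nat_lit 8393886) .nil)))),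
   .two (nat_lit 8388623) (nat_lit 2097252) (.two (nat_lit 276824072) (nat_lit 12618563710) (.two (nat_lit 158144135173) (nat_lit 19134416194) (.two (nat_lit 8388608) (nat_lit 773852585) (.one (nat_lit 2103477) .nil)))),
   .two (nat_lit 20644364303) (nat_lit 183949590645) (.two (nat_lit 13191086085) (nat_lit 158083318626) (.two (nat_lit 4194304) (nat_lit 156573370883) (.one (nat_lit 142611588) .nil))),
   .two (nat_lit 46409973775) (nat_lit 11510218776) (.two (nat_lit 46980399112) (nat_lit 28086108295) (.two (nat_lit 12114198533) (nat_lit 742392442) (.two (nat_lit 156364701697) (nat_lit 675284300) (.two (nat_lit 4194304) (nat_lit 28690090506) (.one (nat_lit 1782583181) .nil))))),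
   .two (nat_lit 1343225871) (nat_lit 165526110223) (.two (nat_lit 174753579016) (nat_lit 185020186738) (.two (nat_lit 9866051589) (nat_lit 156969730686) (.two (nat_lit 34603009) (nat_lit 3021998150) (.two (nat_lit 1048576) (nat_lit 2101701) (.one (nat_lit 46977258627) .nil))))),
   .two (nat_lit 4605345807) (nat_lit 157038936079) (.two (nat_lit 157038936072) (nat_lit 4605345856) (.two (nat_lit 46409973764) (nat_lit 9906947401) (.two (nat_lit 4194304) (nat_lit 8392282) (.one (nat_lit 8394935) .nil)))),
   .two (nat_lit 37748751) (nat_lit 2969567255) (.two (nat_lit 184549384) (nat_lit 1212153976) (.two (nat_lit 4194308) (nat_lit 9967764802) (.two (nat_lit 4194304) (nat_lit 318770611) (.one (nat_lit 2102431) .nil)))),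
   .two (nat_lit 184549391) (nat_lit 184993972288) (.two (nat_lit 713031684) (nat_lit 83887400) (.two (nat_lit 8388608) (nat_lit 16780891) (.one (nat_lit 184423552873) .nil))),
   .two (nat_lit 1795162127) (nat_lit 2923430003) (.two (nat_lit 2889875461) (nat_lit 9881781090) (.two (nat_lit 4194304) (nat_lit 687869836) .nil)),
   .two (nat_lit 11559501839) (nat_lit 158075977743) (.two (nat_lit 158075977736) (nat_lit 11559501888) (.two (nat_lit 21777874949) (nat_lit 11559503390) (.one (nat_lit 166211884112) .nil))),
   .two (nat_lit 285212687) (nat_lit 20644364303) (.two (nat_lit 4613734408) (nat_lit 159224168515) (.two (nat_lit 183845781508) (nat_lit 2357199211) (.two (nat_lit 34603009) (nat_lit 11618225732) (.one (nat_lit 19545462878) .nil)))),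
   .two (nat_lit 11492392975) (nat_lit 104857615) (.two (nat_lit 1350565896) (nat_lit 11492393025) (.two (nat_lit 11479810052) (nat_lit 251658601) (.two (nat_lit 37748737) (nat_lit 8391592) (.two (nat_lit 4194304) (nat_lit 8393158) (.one (nat_lit 8394936) .nil))))),
   .two (nat_lit 4605345807) (nat_lit 9966715012) (.two (nat_lit 2887778308) (nat_lit 165525062696) (.two (nat_lit 612368385) (nat_lit 183912893890) (.one (nat_lit 11578382239) .nil))),
   .two (nat_lit 654311439) (nat_lit 21777874959) (.two (nat_lit 21777874952) (nat_lit 10443817080) (.two (nat_lit 705691652) (nat_lit 12633244008) (.two (nat_lit 34603009) (nat_lit 117442625) (.two (nat_lit 8388608) (nat_lit 1343229488) (.one (nat_lit 16783545) .nil))))),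
   .two (nat_lit 101711887) (nat_lit 9867100293) (.two (nat_lit 9866051589) (nat_lit 19027460453) (.two (nat_lit 34603009) (nat_lit 3021997369) (.two (nat_lit 1048576) (nat_lit 2101703) (.one (nat_lit 159216832403) .nil)))),
   .two (nat_lit 9881780239) (nat_lit 156533522547) (.two (nat_lit 1291845636) (nat_lit 19027460711) (.two (nat_lit 9781116929) (nat_lit 37247518072) (.two (nat_lit 16777216) (nat_lit 2100828) (.one (nat_lit 3003127833) .nil)))),
   .two (nat_lit 4605345807) (nat_lit 3527409679) (.two (nat_lit 3527409672) (nat_lit 4605345856) (.two (nat_lit 46980399109) (nat_lit 612369737) (.two (nat_lit 4194304) (nat_lit 780144110) (.one (nat_lit 8394938) .nil)))),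
   .two (nat_lit 742391823) (nat_lit 46414168079) (.two (nat_lit 46414168072) (nat_lit 2097429) (.two (nat_lit 11546918917) (nat_lit 156372042328) (.two (nat_lit 9766436865) (nat_lit 8391593) (.two (nat_lit 2097152) (nat_lit 4198856) (.one (nat_lit 2103483) .nil))))),
   .two (nat_lit 2902458383) (nat_lit 1212153880) (.two (nat_lit 21214789640) (nat_lit 16777331) (.two (nat_lit 1782579205) (nat_lit 2969568551) (.two (nat_lit 8388608) (nat_lit 11626614197) (.one (nat_lit 612374385) .nil)))),
   .two (nat_lit 1913651215) (nat_lit 12062818330) (.two (nat_lit 11543773192) (nat_lit 165540790631) (.two (nat_lit 50331649) (nat_lit 9966716253) (.two (nat_lit 8388608) (nat_lit 2953842089) (.one (nat_lit 16783548) .nil)))),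
   .two (nat_lit 83886095) (nat_lit 10506731535) (.two (nat_lit 11559501832) (nat_lit 3527409729) (.two (nat_lit 2889875461) (nat_lit 9915336040) (.two (nat_lit 16777216) (nat_lit 46980400670) (.one (nat_lit 11525953709) .nil)))),
   .two (nat_lit 47548727311) (nat_lit 272629786) (.two (nat_lit 2954887176) (nat_lit 742391936) (.two (nat_lit 9934209029) (nat_lit 11577328679) (.two (nat_lit 2097153) (nat_lit 1346372926) (.two (nat_lit 1048576) (nat_lit 2101705) (.one (nat_lit 1053857) .nil))))),
   .two (nat_lit 9781116943) (nat_lit 1212153966) (.two (nat_lit 4194308) (nat_lit 754976038) (.two (nat_lit 4194304) (nat_lit 21223180835) (.one (nat_lit 775952216) .nil))),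
   .two (nat_lit 184416206863) (nat_lit 75497515) (.two (nat_lit 12114198536) (nat_lit 18933088373) (.two (nat_lit 183845781508) (nat_lit 18933088864) (.two (nat_lit 612368385) (nat_lit 9966716213) (.two (nat_lit 1048576) (nat_lit 8393162) (.one (nat_lit 1954549648) .nil))))),
   .two (nat_lit 158144135183) (nat_lit 183912890483) (.two (nat_lit 156968681477) (nat_lit 166230754147) (.two (nat_lit 1048576) (nat_lit 166230754846) (.one (nat_lit 3558872154) .nil))),
   .two (nat_lit 1358954511) (nat_lit 46507491452) (.two (nat_lit 806354949) (nat_lit 218104421) (.two (nat_lit 2097153) (nat_lit 20753418267) (.two (nat_lit 1048576) (nat_lit 822087106) (.one (nat_lit 1054909) .nil)))),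
   .two (nat_lit 2969567247) (nat_lit 46978301967) (.two (nat_lit 1291845640) (nat_lit 184416206914) (.two (nat_lit 9948889093) (nat_lit 638583418) (.two (nat_lit 2097153) (nat_lit 285216294) (.one (nat_lit 1054910) .nil)))),
   .two (nat_lit 37748751) (nat_lit 2969567255) (.two (nat_lit 184549384) (nat_lit 1212153976) (.two (nat_lit 16777220) (nat_lit 740296046) (.two (nat_lit 4194304) (nat_lit 318770611) (.one (nat_lit 185002366024) .nil)))),
   .two (nat_lit 165532401679) (nat_lit 50331763) (.two (nat_lit 10343153669) (nat_lit 9781118000) (.two (nat_lit 612368385) (nat_lit 12633246243) (.one (nat_lit 28772930597) .nil))),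
   .two (nat_lit 10504634383) (nat_lit 20740833418) (.two (nat_lit 705691652) (nat_lit 2098253) (.two (nat_lit 9766436865) (nat_lit 9899607400) (.two (nat_lit 1048576) (nat_lit 339743172) (.one (nat_lit 205526956) .nil)))),
   .two (nat_lit 620757007) (nat_lit 166130089999) (.two (nat_lit 2969567240) (nat_lit 4599054599) (.two (nat_lit 10504634373) (nat_lit 16778536) (.two (nat_lit 2097152) (nat_lit 2902461922) (.one (nat_lit 1277170783) .nil)))),
   .two (nat_lit 4605345807) (nat_lit 11010048136) (.two (nat_lit 10506731525) (nat_lit 13195280741) (.two (nat_lit 156367847425) (nat_lit 20644366874) (.one (nat_lit 8393890) .nil))),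
   .two (nat_lit 12117344280) (nat_lit 9948889128) (.two (nat_lit 809500680) (nat_lit 9948889203) (.two (nat_lit 654311429) (nat_lit 1212155174) (.two (nat_lit 16777216) (nat_lit 1212155422) (.one (nat_lit 4200640) .nil)))),
   .two (nat_lit 12047089679) (nat_lit 1847590978) (.two (nat_lit 184986632197) (nat_lit 10940842850) (.two (nat_lit 1048576) (nat_lit 10907290112) (.one (nat_lit 2103489) .nil))),
   .two (nat_lit 754974735) (nat_lit 4605345807) (.two (nat_lit 276824072) (nat_lit 11492393317) (.two (nat_lit 41943041) (nat_lit 12129929314) (.two (nat_lit 1048576) (nat_lit 28093451785) (.one (nat_lit 16783554) .nil)))),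
   .two (nat_lit 20738736151) (nat_lit 3527409688) (.two (nat_lit 9768534024) (nat_lit 9967763573) (.two (nat_lit 2889875460) (nat_lit 47582282344) (.two (nat_lit 9766436865) (nat_lit 4634707486) (.one (nat_lit 4200643) .nil)))),
   .two (nat_lit 41943055) (nat_lit 11559501839) (.two (nat_lit 11559501832) (nat_lit 343933042) (.two (nat_lit 721420292) (nat_lit 13195281250) (.two (nat_lit 16777216) (nat_lit 10376710681) (.one (nat_lit 156573373596) .nil)))),
   .two (nat_lit 9866051599) (nat_lit 606077185) (.two (nat_lit 1276116996) (nat_lit 10538189667) (.two (nat_lit 1048576) (nat_lit 28691140039) (.one (nat_lit 1746931597) .nil))),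
   .two (nat_lit 12047089679) (nat_lit 9967763481) (.two (nat_lit 158077026312) (nat_lit 772800577) (.two (nat_lit 174752530437) (nat_lit 10907288912) (.two (nat_lit 4194304) (nat_lit 1343228424) (.one (nat_lit 2103492) .nil)))),
   .two (nat_lit 2887778319) (nat_lit 4601151503) (.two (nat_lit 4601151496) (nat_lit 10939793530) (.two (nat_lit 9934209029) (nat_lit 11510219839) (.two (nat_lit 606076929) (nat_lit 19026412846) (.two (nat_lit 1048576) (nat_lit 1780485561) (.one (nat_lit 2103493) .nil))))),
   .two (nat_lit 169869327) (nat_lit 11022631037) (.two (nat_lit 34603013) (nat_lit 156468511368) (.two (nat_lit 2097153) (nat_lit 336596452) (.one (nat_lit 2103494) .nil))),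
   .two (nat_lit 9781116943) (nat_lit 158083317877) (.two (nat_lit 1191182341) (nat_lit 1954546730) (.two (nat_lit 16777217) (nat_lit 18933090816) (.one (nat_lit 159257726887) .nil))),
   .two (nat_lit 285212687) (nat_lit 158083317826) (.two (nat_lit 16777220) (nat_lit 28093448549) (.two (nat_lit 16777217) (nat_lit 813696313) (.two (nat_lit 2097152) (nat_lit 11525949999) (.one (nat_lit 10443822945) .nil)))),
   .two (nat_lit 822083599) (nat_lit 11477713020) (.two (nat_lit 16777220) (nat_lit 1310720696) (.two (nat_lit 34603009) (nat_lit 2099320) (.two (nat_lit 16777216) (nat_lit 2101707) (.one (nat_lit 183928625211) .nil)))),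
   .two (nat_lit 809500687) (nat_lit 165532401679) (.two (nat_lit 158083317768) (nat_lit 306184258) (.two (nat_lit 10343153669) (nat_lit 306185059) (.two (nat_lit 8388608) (nat_lit 306186753) (.one (nat_lit 4200647) .nil)))),
   .two (nat_lit 20638072847) (nat_lit 174759870479) (.two (nat_lit 158083317768) (nat_lit 158077026418) (.two (nat_lit 21785214981) (nat_lit 185002361481) (.two (nat_lit 612368385) (nat_lit 183947494745) (.two (nat_lit 8388608) (nat_lit 2100830) (.one (nat_lit 2103496) .nil))))),
   .two (nat_lit 9866051599) (nat_lit 18928893967) (.two (nat_lit 18928893960) (nat_lit 21811429492) (.two (nat_lit 183848927236) (nat_lit 10436477563) (.two (nat_lit 37748737) (nat_lit 159250384232) (.two (nat_lit 1048576) (nat_lit 843056670) (.one (nat_lit 4200649) .nil))))),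
   .two (nat_lit 4194319) (nat_lit 21778923563) (.two (nat_lit 37748744) (nat_lit 157043130491) (.two (nat_lit 8388613) (nat_lit 46510637746) (.two (nat_lit 4194305) (nat_lit 19026412930) (.two (nat_lit 1048576) (nat_lit 71306812) (.one (nat_lit 4200650) .nil))))),
   .two (nat_lit 184549391) (nat_lit 1753219429) (.two (nat_lit 16777217) (nat_lit 9940501817) (.two (nat_lit 8388608) (nat_lit 83888666) (.one (nat_lit 813700989) .nil))),
   .two (nat_lit 21785214991) (nat_lit 19093520408) (.two (nat_lit 101711880) (nat_lit 1216348282) (.two (nat_lit 1779433477) (nat_lit 109052525) (.two (nat_lit 34603009) (nat_lit 20644365604) (.two (nat_lit 1048576) (nat_lit 156539817431) (.one (nat_lit 8394955) .nil))))),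
   .two (nat_lit 285212687) (nat_lit 46409973775) (.two (nat_lit 11492392968) (nat_lit 21811429644) (.two (nat_lit 9781116933) (nat_lit 806355305) (.two (nat_lit 156367847425) (nat_lit 37329306934) (.two (nat_lit 4194304) (nat_lit 9948892657) (.one (nat_lit 1054924) .nil))))),
   .two (nat_lit 4194319) (nat_lit 3028287511) (.two (nat_lit 169869320) (nat_lit 156367847558) (.two (nat_lit 2097157) (nat_lit 1782579855) (.two (nat_lit 2097153) (nat_lit 20644365646) (.two (nat_lit 2097152) (nat_lit 8393165) (.one (nat_lit 8394958) .nil))))),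
   .two (nat_lit 176160783) (nat_lit 10437525570) (.two (nat_lit 176160772) (nat_lit 337641831) (.two (nat_lit 9765388289) (nat_lit 1411384633) (.two (nat_lit 1048576) (nat_lit 18933091825) (.one (nat_lit 2103503) .nil)))),
   .two (nat_lit 612368399) (nat_lit 13191086095) (.two (nat_lit 183848927245) (nat_lit 184423547008) (.two (nat_lit 209715205) (nat_lit 13224640869) (.two (nat_lit 8388609) (nat_lit 10909386039) (.two (nat_lit 2097152) (nat_lit 12617517575) (.one (nat_lit 1054928) .nil))))),
   .two (nat_lit 8388623) (nat_lit 1795162127) (.two (nat_lit 9866051592) (nat_lit 183953785505) (.two (nat_lit 620756993) (nat_lit 46507494905) (.one (nat_lit 1410340689) .nil))),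
   .two (nat_lit 11559501839) (nat_lit 2349858929) (.two (nat_lit 10939793413) (nat_lit 117441128) (.two (nat_lit 605028353) (nat_lit 9781118241) (.two (nat_lit 1048576) (nat_lit 822088766) .nil))),
   .two (nat_lit 83886095) (nat_lit 775946501) (.two (nat_lit 620756997) (nat_lit 4634706520) (.two (nat_lit 50331649) (nat_lit 843056413) (.two (nat_lit 8388608) (nat_lit 19532877288) (.one (nat_lit 4200657) .nil)))),
   .two (nat_lit 11559501839) (nat_lit 156465365102) (.two (nat_lit 1779433477) (nat_lit 1191183654) (.two (nat_lit 1048576) (nat_lit 46422559267) (.one (nat_lit 168826706) .nil))),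
   .two (nat_lit 1191182351) (nat_lit 11551113258) (.two (nat_lit 9766436872) (nat_lit 12163481720) (.two (nat_lit 41943045) (nat_lit 21827158645) (.two (nat_lit 50331649) (nat_lit 9940501806) (.two (nat_lit 2097152) (nat_lit 8392287) (.one (nat_lit 855644006) .nil))))),
   .two (nat_lit 156367847439) (nat_lit 2887778328) (.two (nat_lit 2954887176) (nat_lit 2923430002) (.two (nat_lit 203423749) (nat_lit 10540286646) (.two (nat_lit 2097153) (nat_lit 4030727484) (.two (nat_lit 2097152) (nat_lit 18928897582) (.one (nat_lit 10907293692) .nil))))),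
   .two (nat_lit 75497487) (nat_lit 218103823) (.two (nat_lit 218103816) (nat_lit 20740833400) (.two (nat_lit 2902458372) (nat_lit 28089255257) (.two (nat_lit 16777216) (nat_lit 12620664414) (.one (nat_lit 12620667080) .nil)))),
   .two (nat_lit 9967763480) (nat_lit 3024093210) (.two (nat_lit 10007609356) (nat_lit 21814575237) (.two (nat_lit 169869316) (nat_lit 138412734) (.two (nat_lit 2097153) (nat_lit 13224642078) (.one (nat_lit 4200660) .nil)))),
   .two (nat_lit 822083599) (nat_lit 46980399169) (.two (nat_lit 171966469) (nat_lit 218104473) (.two (nat_lit 37748737) (nat_lit 1410337293) (.one (nat_lit 1054933) .nil))),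
   .two (nat_lit 11492392975) (nat_lit 11479810074) (.two (nat_lit 10385096712) (nat_lit 2097772) (.two (nat_lit 37748737) (nat_lit 16779385) (.two (nat_lit 16777216) (nat_lit 606080538) (.one (nat_lit 1780487256) .nil)))),
   .two (nat_lit 3525312527) (nat_lit 13224640536) (.two (nat_lit 13191086088) (nat_lit 46474985538) (.two (nat_lit 183848927237) (nat_lit 156533523299) (.two (nat_lit 4194304) (nat_lit 156533524993) (.one (nat_lit 2103511) .nil)))),
   .two (nat_lit 50331663) (nat_lit 10913579075) (.two (nat_lit 47555018757) (nat_lit 46992982689) (.two (nat_lit 606076929) (nat_lit 10443820537) (.one (nat_lit 8394968) .nil))),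
   .two (nat_lit 176160783) (nat_lit 117440527) (.two (nat_lit 117440520) (nat_lit 3028287554) (.two (nat_lit 11492392964) (nat_lit 10007610210) (.two (nat_lit 16777216) (nat_lit 1417677312) (.one (nat_lit 8394970) .nil)))),
   .two (nat_lit 83886095) (nat_lit 28093448307) (.two (nat_lit 713031685) (nat_lit 1291846498) (.two (nat_lit 8388608) (nat_lit 1929383839) .nil)),
   .two (nat_lit 10343153679) (nat_lit 158075977751) (.two (nat_lit 20637024264) (nat_lit 612368506) (.two (nat_lit 171966469) (nat_lit 46523221324) (.two (nat_lit 8388608) (nat_lit 16780896) (.one (nat_lit 166211884873) .nil)))),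
   .two (nat_lit 176160783) (nat_lit 1191182351) (.two (nat_lit 1191182344) (nat_lit 3028287554) (.two (nat_lit 11492392964) (nat_lit 3028288354) (.two (nat_lit 16777216) (nat_lit 343936902) .nil))),
   .two (nat_lit 8388623) (nat_lit 4030726188) (.two (nat_lit 2420113421) (nat_lit 3028287555) (.two (nat_lit 8388612) (nat_lit 11580474001) (.two (nat_lit 620756993) (nat_lit 3028288848) (.two (nat_lit 16777216) (nat_lit 8392289) (.one (nat_lit 1379932293) .nil))))),
   .two (nat_lit 218103823) (nat_lit 3458203663) (.two (nat_lit 1191182344) (nat_lit 772800577) (.two (nat_lit 270532613) (nat_lit 156380430999) (.two (nat_lit 2097153) (nat_lit 1191184416) (.two (nat_lit 1048576) (nat_lit 12618567217) (.one (nat_lit 1175458904) .nil))))),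
   .two (nat_lit 16777231) (nat_lit 4605345817) (.two (nat_lit 46984593416) (nat_lit 352321602) (.two (nat_lit 11559501829) (nat_lit 18925749594) (.two (nat_lit 8388608) (nat_lit 1962939480) .nil))),
   .two (nat_lit 184993972239) (nat_lit 157038936201) (.two (nat_lit 156367847429) (nat_lit 46514831720) (.two (nat_lit 37748737) (nat_lit 46481279090) (.two (nat_lit 2097152) (nat_lit 12150902349) (.one (nat_lit 2357204846) .nil)))),
   .two (nat_lit 16777231) (nat_lit 606076943) (.two (nat_lit 37748744) (nat_lit 50331758) (.two (nat_lit 169869316) (nat_lit 788529784) (.two (nat_lit 2097153) (nat_lit 4613735761) (.two (nat_lit 2097152) (nat_lit 16781779) (.one (nat_lit 807408785) .nil))))),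
   .two (nat_lit 156372041743) (nat_lit 21207449623) (.two (nat_lit 20637024264) (nat_lit 41943162) (.two (nat_lit 9933160453) (nat_lit 2365588799) (.two (nat_lit 1048576) (nat_lit 16780898) (.one (nat_lit 8394974) .nil)))),
   .two (nat_lit 16777231) (nat_lit 165532401688) (.two (nat_lit 28093448200) (nat_lit 21223178359) (.two (nat_lit 20644364292) (nat_lit 47596962466) (.two (nat_lit 2097153) (nat_lit 2902459687) (.two (nat_lit 2097152) (nat_lit 16780901) (.one (nat_lit 16783583) .nil))))),
   .two (nat_lit 16777231) (nat_lit 183949590641) (.two (nat_lit 16777220) (nat_lit 843055970) (.two (nat_lit 16777216) (nat_lit 2319455203) .nil)),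
   .two (nat_lit 713031695) (nat_lit 11007950872) (.two (nat_lit 21785214984) (nat_lit 11007950959) (.two (nat_lit 158083317765) (nat_lit 3558867557) (.two (nat_lit 41943041) (nat_lit 3458207147) (.one (nat_lit 46514837445) .nil)))),
   .two (nat_lit 166230753320) (nat_lit 19130220569) (.two (nat_lit 641728520) (nat_lit 166230753395) (.two (nat_lit 166130089989) (nat_lit 46477082988) (.two (nat_lit 2097153) (nat_lit 10003418541) (.one (nat_lit 880809799) .nil)))),
   .two (nat_lit 1291845647) (nat_lit 12117344279) (.two (nat_lit 11479810056) (nat_lit 1291845698) (.two (nat_lit 9948889093) (nat_lit 156971827816) (.two (nat_lit 620756993) (nat_lit 46980400524) (.two (nat_lit 16777216) (nat_lit 19532876289) (.one (nat_lit 21223183423) .nil))))),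
   .two (nat_lit 203423759) (nat_lit 10506731630) (.two (nat_lit 2887778308) (nat_lit 156569174883) (.two (nat_lit 2097152) (nat_lit 18928897520) (.one (nat_lit 4200673) .nil))),
   .two (nat_lit 276824079) (nat_lit 20640170107) (.two (nat_lit 8388613) (nat_lit 1212154504) (.two (nat_lit 2097153) (nat_lit 34606661) (.one (nat_lit 8394978) .nil))),
   .two (nat_lit 4605345807) (nat_lit 46409973803) (.two (nat_lit 1916796936) (nat_lit 4605345856) (.two (nat_lit 11479810053) (nat_lit 156372043042) (.two (nat_lit 4194304) (nat_lit 156372044287) (.one (nat_lit 8394979) .nil)))),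
   .two (nat_lit 176160783) (nat_lit 9781117123) (.two (nat_lit 16777217) (nat_lit 156472706386) (.two (nat_lit 16777216) (nat_lit 12054433350) (.one (nat_lit 813700167) .nil))),
   .two (nat_lit 2416967704) (nat_lit 1795162152) (.two (nat_lit 1745879048) (nat_lit 1795162227) (.two (nat_lit 158075977733) (nat_lit 1191183655) (.two (nat_lit 1048576) (nat_lit 654313985) (.one (nat_lit 159232562296) .nil)))),
   .two (nat_lit 75497487) (nat_lit 158146232568) (.two (nat_lit 1176502277) (nat_lit 156569174613) (.two (nat_lit 2097153) (nat_lit 3527411833) (.two (nat_lit 4194304) (nat_lit 3028291009) (.one (nat_lit 8394982) .nil)))),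
   .two (nat_lit 46409973775) (nat_lit 1948254253) (.two (nat_lit 2954887176) (nat_lit 1950351607) (.two (nat_lit 1178599429) (nat_lit 673186150) (.two (nat_lit 2097153) (nat_lit 174755677487) (.two (nat_lit 2097152) (nat_lit 4197990) (.one (nat_lit 2102439) .nil))))),
   .two (nat_lit 8388623) (nat_lit 166132187160) (.two (nat_lit 1178599432) (nat_lit 3464495215) (.two (nat_lit 11479810052) (nat_lit 1182794088) (.two (nat_lit 37748737) (nat_lit 184423550414) (.one (nat_lit 185027531749) .nil)))),
   .two (nat_lit 612368399) (nat_lit 158176641049) (.two (nat_lit 68157448) (nat_lit 11618222190) (.two (nat_lit 705691652) (nat_lit 41943681) (.two (nat_lit 8388609) (nat_lit 2923432001) (.two (nat_lit 1048576) (nat_lit 47550827994) (.one (nat_lit 11476670476) .nil))))),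
   .two (nat_lit 276824079) (nat_lit 11479810063) (.two (nat_lit 11479810056) (nat_lit 10335813751) (.two (nat_lit 11479810052) (nat_lit 11476665019) (.two (nat_lit 9768534017) (nat_lit 2416969027) (.two (nat_lit 4194304) (nat_lit 705695174) (.one (nat_lit 1175458921) .nil))))),
   .two (nat_lit 13191086095) (nat_lit 19094569092) (.two (nat_lit 183848927237) (nat_lit 2887778976) (.two (nat_lit 605028353) (nat_lit 19597887608) (.two (nat_lit 4194304) (nat_lit 2988445122) (.one (nat_lit 2416973953) .nil)))),
   .two (nat_lit 169869327) (nat_lit 46514831386) (.two (nat_lit 169869320) (nat_lit 21781020800) (.two (nat_lit 176160773) (nat_lit 185020186988) (.two (nat_lit 2097153) (nat_lit 1209010193) (.two (nat_lit 8388608) (nat_lit 174688570877) (.one (nat_lit 8394983) .nil))))),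
   .two (nat_lit 1191182351) (nat_lit 10007609459) (.two (nat_lit 41943045) (nat_lit 11559502459) (.two (nat_lit 41943041) (nat_lit 156481095016) (.two (nat_lit 8388608) (nat_lit 10385101184) (.one (nat_lit 19604182053) .nil)))),
   .two (nat_lit 639631375) (nat_lit 28089253933) (.two (nat_lit 165526110221) (nat_lit 11479810114) (.two (nat_lit 2887778308) (nat_lit 4634706278) (.two (nat_lit 50331649) (nat_lit 19096668692) (.one (nat_lit 28793902247) .nil)))),
   .two (nat_lit 620757007) (nat_lit 158143086615) (.two (nat_lit 10369368072) (nat_lit 13237223546) (.two (nat_lit 83886085) (nat_lit 202375807) (.two (nat_lit 8388609) (nat_lit 20707280259) (.two (nat_lit 1048576) (nat_lit 4197991) (.one (nat_lit 16783592) .nil))))),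
   .two (nat_lit 4605345807) (nat_lit 184419352591) (.two (nat_lit 184419352584) (nat_lit 4605345856) (.two (nat_lit 183848927236) (nat_lit 13195281949) (.one (nat_lit 156539817893) .nil))),
   .two (nat_lit 3539992591) (nat_lit 19027460206) (.two (nat_lit 270532613) (nat_lit 9781117123) (.two (nat_lit 2097153) (nat_lit 10015999303) (.two (nat_lit 1048576) (nat_lit 3558870509) (.one (nat_lit 10369372062) .nil)))),
   .two (nat_lit 612368399) (nat_lit 3525312527) (.two (nat_lit 75497480) (nat_lit 673185913) (.two (nat_lit 69206021) (nat_lit 343933123) (.two (nat_lit 2097153) (nat_lit 19604178228) (.two (nat_lit 4194304) (nat_lit 174686472731) (.one (nat_lit 8394985) .nil))))),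
   .two (nat_lit 620757007) (nat_lit 10437525528) (.two (nat_lit 9948889096) (nat_lit 185021235324) (.two (nat_lit 102760453) (nat_lit 1358955362) (.two (nat_lit 2097152) (nat_lit 3472886293) (.one (nat_lit 16783595) .nil)))),
   .two (nat_lit 169869327) (nat_lit 11618222195) (.two (nat_lit 9866051589) (nat_lit 47582282403) (.two (nat_lit 34603009) (nat_lit 12048140400) (.two (nat_lit 2097152) (nat_lit 8393177) (.one (nat_lit 8394988) .nil)))),
   .two (nat_lit 9781116943) (nat_lit 708837624) (.two (nat_lit 9933160453) (nat_lit 11559503137) (.two (nat_lit 16777216) (nat_lit 4197914) (.one (nat_lit 46477088602) .nil))),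
   .two (nat_lit 205520911) (nat_lit 47548727311) (.two (nat_lit 37748744) (nat_lit 2349859055) (.two (nat_lit 169869316) (nat_lit 156364702057) (.two (nat_lit 606076929) (nat_lit 158075981324) (.one (nat_lit 2103533) .nil)))),
   .two (nat_lit 9781116943) (nat_lit 3525312556) (.two (nat_lit 10519314440) (nat_lit 1847590978) (.two (nat_lit 721420293) (nat_lit 1182795071) (.two (nat_lit 2097152) (nat_lit 1325403650) (.one (nat_lit 2103534) .nil)))),
   .two (nat_lit 276824079) (nat_lit 754974735) (.two (nat_lit 276824072) (nat_lit 1291845757) (.two (nat_lit 705691652) (nat_lit 3539993237) (.two (nat_lit 605028353) (nat_lit 28772929050) (.one (nat_lit 16783599) .nil)))),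
   .two (nat_lit 2954887183) (nat_lit 9802088565) (.two (nat_lit 2887778308) (nat_lit 306185510) (.two (nat_lit 2097152) (nat_lit 20740836835) (.one (nat_lit 2103536) .nil))),
   .two (nat_lit 10504634383) (nat_lit 11614027912) (.two (nat_lit 9866051589) (nat_lit 10940842692) (.two (nat_lit 2097153) (nat_lit 1050748) (.two (nat_lit 4194304) (nat_lit 1053147) (.one (nat_lit 19127080848) .nil)))),
   .two (nat_lit 75497487) (nat_lit 12147753231) (.two (nat_lit 713031684) (nat_lit 166245433979) (.two (nat_lit 16777217) (nat_lit 10000270700) (.two (nat_lit 16777216) (nat_lit 1053148) (.one (nat_lit 16783601) .nil)))),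
   .two (nat_lit 75497487) (nat_lit 10921967749) (.two (nat_lit 721420292) (nat_lit 28093448844) (.two (nat_lit 41943041) (nat_lit 11513365841) (.two (nat_lit 16777216) (nat_lit 4605350229) (.one (nat_lit 19134420113) .nil)))),
   .two (nat_lit 4194319) (nat_lit 159224168463) (.two (nat_lit 169869320) (nat_lit 3527409730) (.two (nat_lit 806354949) (nat_lit 3527410270) (.two (nat_lit 2097153) (nat_lit 847250820) (.two (nat_lit 2097152) (nat_lit 8393181) (.one (nat_lit 8394994) .nil))))),
   .two (nat_lit 1358954511) (nat_lit 739246106) (.two (nat_lit 285212680) (nat_lit 166230753401) (.two (nat_lit 2097157) (nat_lit 1392509575) (.two (nat_lit 34603009) (nat_lit 10001320461) (.one (nat_lit 1054583) .nil)))),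
   .two (nat_lit 101711887) (nat_lit 28691136527) (.two (nat_lit 2887778312) (nat_lit 10343153774) (.two (nat_lit 270532613) (nat_lit 47555019361) (.two (nat_lit 2097153) (nat_lit 3028288804) (.two (nat_lit 2097152) (nat_lit 8392297) (.one (nat_lit 1377834008) .nil))))),
   .two (nat_lit 13195280399) (nat_lit 2316304408) (.two (nat_lit 1753219080) (nat_lit 37246468207) (.two (nat_lit 21207449605) (nat_lit 47588573545) (.two (nat_lit 605028353) (nat_lit 1317012809) (.two (nat_lit 1048576) (nat_lit 8392298) (.one (nat_lit 46473943036) .nil))))),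
   .two (nat_lit 46980399128) (nat_lit 11559501864) (.two (nat_lit 46409973768) (nat_lit 11559501939) (.two (nat_lit 822083589) (nat_lit 9802089314) (.two (nat_lit 16777216) (nat_lit 158179790730) .nil))),
   .two (nat_lit 16777231) (nat_lit 156372041743) (.two (nat_lit 156372041736) (nat_lit 10955522407) (.two (nat_lit 8388609) (nat_lit 285213982) (.two (nat_lit 2097152) (nat_lit 2332035589) (.one (nat_lit 16783604) .nil)))),
   .two (nat_lit 1191182351) (nat_lit 10000269561) (.two (nat_lit 47550824453) (nat_lit 620757611) (.two (nat_lit 4194305) (nat_lit 1276120493) (.one (nat_lit 4200693) .nil))),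
   .two (nat_lit 272629775) (nat_lit 11559501839) (.two (nat_lit 11559501832) (nat_lit 46510637169) (.two (nat_lit 754974725) (nat_lit 156569174632) (.two (nat_lit 50331649) (nat_lit 156569175338) (.two (nat_lit 8388608) (nat_lit 21223183383) .nil)))),
   .two (nat_lit 16777231) (nat_lit 10336862252) (.two (nat_lit 3036676109) (nat_lit 3558867059) (.two (nat_lit 158144135173) (nat_lit 156465365644) (.two (nat_lit 50331649) (nat_lit 168822147) (.two (nat_lit 16777216) (nat_lit 28086111843) (.one (nat_lit 251664258) .nil))))),
   .two (nat_lit 721420303) (nat_lit 21207449615) (.two (nat_lit 185002360840) (nat_lit 9899606082) (.two (nat_lit 21777874949) (nat_lit 788529515) (.two (nat_lit 605028353) (nat_lit 37329306942) (.two (nat_lit 2097152) (nat_lit 11543775761) (.one (nat_lit 1054966) .nil))))),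
   .two (nat_lit 2902458383) (nat_lit 101711887) (.two (nat_lit 9781116936) (nat_lit 1309671543) (.two (nat_lit 1779433477) (nat_lit 28806480573) (.two (nat_lit 16777217) (nat_lit 2349862334) (.one (nat_lit 1053866) .nil)))),
   .two (nat_lit 2969567247) (nat_lit 12114198543) (.two (nat_lit 184549384) (nat_lit 28690088052) (.two (nat_lit 806354949) (nat_lit 2969567427) (.two (nat_lit 2097153) (nat_lit 12617517595) (.one (nat_lit 1054967) .nil)))),
   .two (nat_lit 2961178639) (nat_lit 11513364546) (.two (nat_lit 176160772) (nat_lit 4601151683) (.two (nat_lit 8388609) (nat_lit 608177582) (.one (nat_lit 4200696) .nil))),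
   .two (nat_lit 654311439) (nat_lit 184993972239) (.two (nat_lit 713031688) (nat_lit 83886198) (.two (nat_lit 1913651205) (nat_lit 11584667843) (.two (nat_lit 16777217) (nat_lit 28093449501) (.two (nat_lit 2097152) (nat_lit 183845785005) (.one (nat_lit 1053867) .nil))))),
   .two (nat_lit 1358954511) (nat_lit 3527409679) (.two (nat_lit 37748744) (nat_lit 285212797) (.two (nat_lit 159217876997) (nat_lit 156535619779) (.two (nat_lit 50331649) (nat_lit 19532875037) (.two (nat_lit 8388608) (nat_lit 807408811) .nil)))),
   .two (nat_lit 4194319) (nat_lit 184549416) (.two (nat_lit 158077026312) (nat_lit 10537140342) (.two (nat_lit 2902458373) (nat_lit 37313577654) (.two (nat_lit 16777217) (nat_lit 11610882915) (.two (nat_lit 16777216) (nat_lit 9798945310) (.one (nat_lit 2103545) .nil))))),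
   .two (nat_lit 8388623) (nat_lit 157036838927) (.two (nat_lit 176160776) (nat_lit 156533522669) (.two (nat_lit 176160772) (nat_lit 156533522627) (.two (nat_lit 2097153) (nat_lit 11551115351) (.two (nat_lit 2097152) (nat_lit 13228839357) (.one (nat_lit 3525318468) .nil))))),
   .two (nat_lit 276824079) (nat_lit 158091706496) (.two (nat_lit 8388612) (nat_lit 10955522709) (.two (nat_lit 34603009) (nat_lit 158158818879) (.one (nat_lit 2432701411) .nil))),
   .two (nat_lit 183912890392) (nat_lit 159224168488) (.two (nat_lit 739246088) (nat_lit 159224168563) (.two (nat_lit 21785214981) (nat_lit 1947206498) (.two (nat_lit 1048576) (nat_lit 28697431946) .nil))),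
   .two (nat_lit 9866051599) (nat_lit 28093448302) (.two (nat_lit 9933160453) (nat_lit 21785215585) (.two (nat_lit 4194305) (nat_lit 1417676068) (.two (nat_lit 4194304) (nat_lit 184986637333) .nil))),
   .two (nat_lit 1358954511) (nat_lit 4601151503) (.two (nat_lit 4194312) (nat_lit 721421155) (.two (nat_lit 1048576) (nat_lit 165528211031) (.one (nat_lit 16783610) .nil))),
   .two (nat_lit 28758245391) (nat_lit 3028287511) (.two (nat_lit 47555018760) (nat_lit 158144135282) (.two (nat_lit 9934209029) (nat_lit 184993972827) (.two (nat_lit 606076929) (nat_lit 184993974785) (.one (nat_lit 10947138634) .nil)))),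
   .two (nat_lit 2954887183) (nat_lit 28093448207) (.two (nat_lit 28093448200) (nat_lit 3558867057) (.two (nat_lit 20644364292) (nat_lit 156533523750) (.two (nat_lit 8388608) (nat_lit 18926799395) (.one (nat_lit 2103549) .nil)))),
   .two (nat_lit 117440527) (nat_lit 772800626) (.two (nat_lit 2969567237) (nat_lit 11611931266) (.two (nat_lit 2097153) (nat_lit 721421608) (.two (nat_lit 1048576) (nat_lit 3525317764) .nil))),
   .two (nat_lit 21208498191) (nat_lit 46409973784) (.two (nat_lit 3460300808) (nat_lit 1310720114) (.two (nat_lit 158144135173) (nat_lit 4195023) (.two (nat_lit 605028353) (nat_lit 11578377539) (.two (nat_lit 1048576) (nat_lit 37751342) (.one (nat_lit 2103550) .nil))))),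
   .two (nat_lit 2954887183) (nat_lit 159224168463) (.two (nat_lit 169869320) (nat_lit 10007609954) (.two (nat_lit 606076929) (nat_lit 159216829753) (.two (nat_lit 1048576) (nat_lit 166130092583) (.one (nat_lit 2103551) .nil)))),
   .two (nat_lit 1916796943) (nat_lit 159216828548) (.two (nat_lit 46409973765) (nat_lit 8389328) (.two (nat_lit 4194305) (nat_lit 41944386) (.two (nat_lit 8388608) (nat_lit 306189404) .nil))),
   .two (nat_lit 9948889103) (nat_lit 4028629058) (.two (nat_lit 754974725) (nat_lit 174752531106) (.two (nat_lit 2097153) (nat_lit 2902459688) (.two (nat_lit 1048576) (nat_lit 156466418021) (.one (nat_lit 2103553) .nil)))),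
   .two (nat_lit 9781116943) (nat_lit 706740267) (.two (nat_lit 2969567240) (nat_lit 159251431549) (.two (nat_lit 46407876612) (nat_lit 117441109) (.two (nat_lit 2097153) (nat_lit 16780820) (.one (nat_lit 16782386) .nil)))),
   .two (nat_lit 10385096719) (nat_lit 10336862223) (.two (nat_lit 9881780232) (nat_lit 1780482176) (.two (nat_lit 1291845636) (nat_lit 2954887844) (.two (nat_lit 2097153) (nat_lit 754976030) (.two (nat_lit 1048576) (nat_lit 158192372253) (.one (nat_lit 2954893485) .nil))))),
   .two (nat_lit 41943055) (nat_lit 4601151683) (.two (nat_lit 8388609) (nat_lit 9936308285) (.two (nat_lit 4194304) (nat_lit 1052229) (.one (nat_lit 1054978) .nil))),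
   .two (nat_lit 169869327) (nat_lit 721420398) (.two (nat_lit 169869316) (nat_lit 9982444179) (.two (nat_lit 16777217) (nat_lit 3557819718) (.two (nat_lit 1048576) (nat_lit 12163484199) (.one (nat_lit 1054979) .nil)))),
   .two (nat_lit 721420303) (nat_lit 3527409679) (.two (nat_lit 721420296) (nat_lit 809500792) (.two (nat_lit 272629765) (nat_lit 16777937) (.two (nat_lit 50331649) (nat_lit 37316724015) (.two (nat_lit 16777216) (nat_lit 4197996) (.one (nat_lit 1929383815) .nil))))),
   .two (nat_lit 285212687) (nat_lit 159217877007) (.two (nat_lit 606076936) (nat_lit 28705816694) (.two (nat_lit 2902458372) (nat_lit 47548727491) (.two (nat_lit 37748737) (nat_lit 135268433) (.two (nat_lit 4194304) (nat_lit 4027582993) (.one (nat_lit 16783620) .nil))))),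
   .two (nat_lit 11492392975) (nat_lit 157038936079) (.two (nat_lit 157038936072) (nat_lit 3472883831) (.two (nat_lit 46409973764) (nat_lit 2902459020) (.two (nat_lit 4194305) (nat_lit 1929383375) (.one (nat_lit 16782512) .nil)))),
   .two (nat_lit 218103823) (nat_lit 166230753410) (.two (nat_lit 270532613) (nat_lit 218104414) (.two (nat_lit 9766436865) (nat_lit 638584121) (.two (nat_lit 1048576) (nat_lit 654315085) (.one (nat_lit 10940848155) .nil)))),
   .two (nat_lit 721420303) (nat_lit 28690087951) (.two (nat_lit 83886088) (nat_lit 28690088002) (.two (nat_lit 721420292) (nat_lit 37246468453) (.two (nat_lit 620756993) (nat_lit 705692985) (.two (nat_lit 1048576) (nat_lit 156481097299) (.one (nat_lit 16783621) .nil))))),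
   .two (nat_lit 75497487) (nat_lit 673185902) (.two (nat_lit 612368389) (nat_lit 9967764066) (.two (nat_lit 34603009) (nat_lit 11014243653) (.two (nat_lit 1048576) (nat_lit 10913584223) .nil))),
   .two (nat_lit 41943055) (nat_lit 269484165) (.two (nat_lit 28758245381) (nat_lit 156364702781) (.two (nat_lit 8388609) (nat_lit 672139318) (.two (nat_lit 8388608) (nat_lit 1948257818) (.one (nat_lit 8395015) .nil)))),
   .two (nat_lit 176160783) (nat_lit 171966564) (.two (nat_lit 2961178632) (nat_lit 158649548926) (.two (nat_lit 9765388293) (nat_lit 46510637414) (.two (nat_lit 34603009) (nat_lit 174692762925) (.two (nat_lit 8388608) (nat_lit 9902755241) (.one (nat_lit 4200714) .nil))))),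
   .two (nat_lit 285212687) (nat_lit 46409973775) (.two (nat_lit 11492392968) (nat_lit 166232850709) (.two (nat_lit 9781116933) (nat_lit 806355578) (.two (nat_lit 156367847425) (nat_lit 37329306934) (.two (nat_lit 4194304) (nat_lit 9948892657) (.one (nat_lit 1054987) .nil))))),
   .two (nat_lit 203423759) (nat_lit 46409973784) (.two (nat_lit 639631368) (nat_lit 12620660858) (.two (nat_lit 4601151493) (nat_lit 11611932035) (.two (nat_lit 2097152) (nat_lit 157035794321) .nil))),
   .two (nat_lit 612368399) (nat_lit 1291845742) (.two (nat_lit 83886085) (nat_lit 11584669001) (.two (nat_lit 16777216) (nat_lit 9806286442) (.one (nat_lit 3531609959) .nil))),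
   .two (nat_lit 772800536) (nat_lit 1191182377) (.two (nat_lit 184416206856) (nat_lit 1191182453) (.two (nat_lit 117440517) (nat_lit 12617515875) (.two (nat_lit 1048576) (nat_lit 50335292) (.one (nat_lit 1054988) .nil)))),
   .two (nat_lit 822083599) (nat_lit 20644364400) (.two (nat_lit 16777220) (nat_lit 158083318626) (.two (nat_lit 16777216) (nat_lit 11484006918) (.one (nat_lit 847254632) .nil))),
   .two (nat_lit 739246095) (nat_lit 4601151513) (.two (nat_lit 46409973768) (nat_lit 2920284286) (.two (nat_lit 4601151493) (nat_lit 303039159) (.two (nat_lit 156367847425) (nat_lit 28757198144) (.two (nat_lit 1048576) (nat_lit 4198881) (.one (nat_lit 12150903879) .nil))))),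
   .two (nat_lit 46984593423) (nat_lit 166132187151) (.two (nat_lit 21214789640) (nat_lit 166196150385) (.two (nat_lit 1913651205) (nat_lit 2894070121) (.two (nat_lit 156364701697) (nat_lit 12155094316) (.two (nat_lit 1048576) (nat_lit 2424311389) (.one (nat_lit 1053874) .nil))))),
   .two (nat_lit 11559501839) (nat_lit 9869197438) (.two (nat_lit 272629765) (nat_lit 50331843) (.two (nat_lit 9768534017) (nat_lit 285216320) (.one (nat_lit 16783629) .nil))),
   .two (nat_lit 184549391) (nat_lit 847249603) (.two (nat_lit 606076929) (nat_lit 276827738) (.one (nat_lit 8395022) .nil)),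
   .two (nat_lit 8388623) (nat_lit 166132187160) (.two (nat_lit 813694984) (nat_lit 10506731633) (.two (nat_lit 166132187140) (nat_lit 28697428610) (.two (nat_lit 9766436865) (nat_lit 3028288355) (.two (nat_lit 2097152) (nat_lit 3028289054) (.one (nat_lit 8393908) .nil))))),
   .two (nat_lit 16777231) (nat_lit 46414168087) (.two (nat_lit 3464495112) (nat_lit 620757102) (.two (nat_lit 47555018757) (nat_lit 16777825) (.two (nat_lit 8388609) (nat_lit 16778532) (.two (nat_lit 2097152) (nat_lit 12121543758) .nil)))),
   .two (nat_lit 8388623) (nat_lit 218103831) (.two (nat_lit 2902458376) (nat_lit 41943235) (.two (nat_lit 16777217) (nat_lit 3028288797) (.two (nat_lit 2097152) (nat_lit 183861515320) .nil))),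
   .two (nat_lit 2954887183) (nat_lit 1782579319) (.two (nat_lit 203423749) (nat_lit 11580474212) (.two (nat_lit 16777216) (nat_lit 158146236307) .nil)),
   .two (nat_lit 8388623) (nat_lit 4601151552) (.two (nat_lit 8388612) (nat_lit 843056670) (.one (nat_lit 10338964560) .nil)),
   .two (nat_lit 165526110223) (nat_lit 3527409687) (.two (nat_lit 75497480) (nat_lit 20638073189) (.two (nat_lit 41943041) (nat_lit 2100141) (.two (nat_lit 8388608) (nat_lit 4198887) (.one (nat_lit 8395028) .nil)))),
   .two (nat_lit 203423759) (nat_lit 1916796943) (.two (nat_lit 2887778312) (nat_lit 19130220901) (.two (nat_lit 37748737) (nat_lit 158144137286) (.two (nat_lit 1048576) (nat_lit 21208501769) (.one (nat_lit 2103574) .nil)))),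
   .two (nat_lit 4601151503) (nat_lit 156968681487) (.two (nat_lit 183848927240) (nat_lit 158143087221) (.two (nat_lit 8388609) (nat_lit 158075978594) (.two (nat_lit 8388608) (nat_lit 11543775752) (.one (nat_lit 4200727) .nil)))),
   .two (nat_lit 9781116943) (nat_lit 46477082691) (.two (nat_lit 3527409669) (nat_lit 10351542903) (.two (nat_lit 4194305) (nat_lit 185002362162) (.two (nat_lit 4194304) (nat_lit 13237225994) (.one (nat_lit 16782517) .nil)))),
   .two (nat_lit 285212687) (nat_lit 9936306303) (.two (nat_lit 69206021) (nat_lit 11492393565) (.two (nat_lit 37748737) (nat_lit 16780206) (.two (nat_lit 4194304) (nat_lit 16781800) (.one (nat_lit 843061878) .nil)))),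
   .two (nat_lit 713031695) (nat_lit 10552868986) (.two (nat_lit 16777220) (nat_lit 11618222946) (.two (nat_lit 2097152) (nat_lit 2357201415) (.one (nat_lit 2102454) .nil))),
   .two (nat_lit 169869327) (nat_lit 2936012826) (.two (nat_lit 169869320) (nat_lit 1346371712) (.two (nat_lit 184549381) (nat_lit 11577327980) (.two (nat_lit 156365750273) (nat_lit 318768493) (.two (nat_lit 16777216) (nat_lit 4197999) (.one (nat_lit 4200729) .nil))))),
   .two (nat_lit 2954887183) (nat_lit 166132187151) (.two (nat_lit 169869320) (nat_lit 10506731633) (.two (nat_lit 10506731525) (nat_lit 2954887363) (.two (nat_lit 34603009) (nat_lit 4599055710) (.two (nat_lit 1048576) (nat_lit 156567082053) .nil)))),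
   .two (nat_lit 1343225871) (nat_lit 10907287669) (.two (nat_lit 174753579013) (nat_lit 34604391) (.two (nat_lit 1048576) (nat_lit 2100848) (.one (nat_lit 1055002) .nil))),
   .two (nat_lit 183848927247) (nat_lit 202375211) (.two (nat_lit 19599982600) (nat_lit 166229704961) (.two (nat_lit 10939793413) (nat_lit 3560965470) (.two (nat_lit 1048576) (nat_lit 11513368098) (.one (nat_lit 13191092493) .nil)))),
   .two (nat_lit 285212687) (nat_lit 157038936201) (.two (nat_lit 21778923525) (nat_lit 2969568098) (.two (nat_lit 2097152) (nat_lit 2969569794) (.one (nat_lit 16783643) .nil))),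
   .two (nat_lit 176160783) (nat_lit 11577327641) (.two (nat_lit 9940500488) (nat_lit 1846542458) (.two (nat_lit 10372513797) (nat_lit 2886730349) (.two (nat_lit 2097153) (nat_lit 10443819097) (.two (nat_lit 2097152) (nat_lit 156472708622) (.one (nat_lit 2357204935) .nil))))),
   .two (nat_lit 11479810063) (nat_lit 2416967797) (.two (nat_lit 1745879045) (nat_lit 71303886) (.two (nat_lit 156364701697) (nat_lit 156535621735) (.two (nat_lit 8388608) (nat_lit 1947209285) (.one (nat_lit 1055005) .nil)))),
   .two (nat_lit 11559501839) (nat_lit 10369368186) (.two (nat_lit 721420292) (nat_lit 184986632831) (.two (nat_lit 605028353) (nat_lit 1291846941) (.two (nat_lit 1048576) (nat_lit 16780914) (.one (nat_lit 202380252) .nil)))),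
   .two (nat_lit 9781116943) (nat_lit 46980399127) (.two (nat_lit 11559501832) (nat_lit 2349858932) (.two (nat_lit 11559501829) (nat_lit 1779434164) (.two (nat_lit 4194305) (nat_lit 2902459685) (.two (nat_lit 1048576) (nat_lit 876613150) (.one (nat_lit 9936311323) .nil))))),
   .two (nat_lit 2887778319) (nat_lit 3573547033) (.two (nat_lit 16777224) (nat_lit 739246190) (.two (nat_lit 16777220) (nat_lit 12047090296) (.two (nat_lit 16777217) (nat_lit 165526111619) (.two (nat_lit 16777216) (nat_lit 28691139085) (.one (nat_lit 16783649) .nil))))),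
   .two (nat_lit 1343225871) (nat_lit 158083317826) (.two (nat_lit 705691652) (nat_lit 158083318626) (.two (nat_lit 1048576) (nat_lit 46481279495) (.one (nat_lit 9806288038) .nil))),
   .two (nat_lit 1916796943) (nat_lit 203423767) (.two (nat_lit 2887778312) (nat_lit 19130220656) (.two (nat_lit 2097157) (nat_lit 1417675618) (.two (nat_lit 1048576) (nat_lit 158179789339) (.one (nat_lit 4200741) .nil)))),
   .two (nat_lit 8388623) (nat_lit 285212697) (.two (nat_lit 3539992584) (nat_lit 343932994) (.two (nat_lit 2902458372) (nat_lit 243271021) (.two (nat_lit 16777216) (nat_lit 12155096986) .nil))),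
   .two (nat_lit 9781116943) (nat_lit 184419352591) (.two (nat_lit 218103816) (nat_lit 37249613959) (.two (nat_lit 13191086085) (nat_lit 16777939) (.two (nat_lit 156372041729) (nat_lit 205522245) (.two (nat_lit 8388608) (nat_lit 876612109) (.one (nat_lit 4200742) .nil))))),
   .two (nat_lit 2887778319) (nat_lit 10343153731) (.two (nat_lit 713031684) (nat_lit 158176641732) (.two (nat_lit 2097153) (nat_lit 3464497663) (.one (nat_lit 136320024) .nil))),
   .two (nat_lit 12047089679) (nat_lit 4043309101) (.two (nat_lit 10939793416) (nat_lit 2365587582) (.two (nat_lit 11559501829) (nat_lit 9899606374) (.two (nat_lit 9781116929) (nat_lit 1050751) (.two (nat_lit 16777216) (nat_lit 1053164) (.one (nat_lit 1054836) .nil))))),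
   .two (nat_lit 809500687) (nat_lit 135266421) (.two (nat_lit 12117344261) (nat_lit 11577328934) (.two (nat_lit 1048576) (nat_lit 12620665191) (.one (nat_lit 183912895478) .nil))),
   .two (nat_lit 10506731535) (nat_lit 21208498191) (.two (nat_lit 21208498184) (nat_lit 2319450231) (.two (nat_lit 20638072836) (nat_lit 11614028644) (.two (nat_lit 1048576) (nat_lit 876613535) .nil))),
   .two (nat_lit 3458203663) (nat_lit 156535619779) (.two (nat_lit 50331649) (nat_lit 4196480) (.two (nat_lit 4194304) (nat_lit 10351545925) (.one (nat_lit 10552875293) .nil))),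
   .two (nat_lit 176160783) (nat_lit 1847590927) (.two (nat_lit 9940500488) (nat_lit 3525312632) (.two (nat_lit 10504634373) (nat_lit 21785215573) (.two (nat_lit 9766436865) (nat_lit 28697429330) (.two (nat_lit 4194304) (nat_lit 18933093426) .nil)))),
   .two (nat_lit 184549391) (nat_lit 1176502317) (.two (nat_lit 184549384) (nat_lit 2988441715) (.two (nat_lit 184549380) (nat_lit 1780483411) (.two (nat_lit 16777216) (nat_lit 158144138787) (.one (nat_lit 2103594) .nil)))),
   .two (nat_lit 4601151503) (nat_lit 28690087951) (.two (nat_lit 37748744) (nat_lit 2416967747) (.two (nat_lit 101711877) (nat_lit 11546919550) (.two (nat_lit 606076929) (nat_lit 1846544497) (.two (nat_lit 2097152) (nat_lit 11543778270) .nil)))),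
   .two (nat_lit 10385096719) (nat_lit 19530776591) (.two (nat_lit 19530776584) (nat_lit 166144770180) (.two (nat_lit 157036838917) (nat_lit 159232557775) (.two (nat_lit 9766436865) (nat_lit 2902459686) (.two (nat_lit 4194304) (nat_lit 721425500) .nil)))),
   .two (nat_lit 2961178639) (nat_lit 156365750400) (.two (nat_lit 2097157) (nat_lit 176161459) (.two (nat_lit 34603009) (nat_lit 20738737484) (.two (nat_lit 1048576) (nat_lit 2101741) (.one (nat_lit 2103595) .nil)))),
   .two (nat_lit 11559501839) (nat_lit 156968681487) (.two (nat_lit 156968681480) (nat_lit 166144770167) (.two (nat_lit 166129041412) (nat_lit 251659108) (.two (nat_lit 4194304) (nat_lit 10452210646) .nil))),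
   .two (nat_lit 16777231) (nat_lit 4030726170) (.two (nat_lit 4194312) (nat_lit 16777281) (.two (nat_lit 16777220) (nat_lit 809501036) (.two (nat_lit 37748737) (nat_lit 1862272349) (.two (nat_lit 1048576) (nat_lit 16781806) (.one (nat_lit 4200748) .nil))))),
   .two (nat_lit 169869327) (nat_lit 612368399) (.two (nat_lit 705691656) (nat_lit 156372041853) (.two (nat_lit 20638072837) (nat_lit 202375843) (.two (nat_lit 2097153) (nat_lit 46414170637) (.one (nat_lit 1310725245) .nil)))),
   .two (nat_lit 16777231) (nat_lit 47555018767) (.two (nat_lit 50331656) (nat_lit 2994733165) (.two (nat_lit 176160772) (nat_lit 620757350) (.two (nat_lit 612368385) (nat_lit 1051567) (.two (nat_lit 1048576) (nat_lit 16780917) (.one (nat_lit 8394608) .nil))))),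
   .two (nat_lit 285212687) (nat_lit 184993972239) (.two (nat_lit 713031688) (nat_lit 1862271337) (.two (nat_lit 612368385) (nat_lit 1962937820) (.one (nat_lit 16783661) .nil))),
   .two (nat_lit 9768534031) (nat_lit 337641591) (.two (nat_lit 2889875460) (nat_lit 174686470793) (.two (nat_lit 4194305) (nat_lit 136317453) (.one (nat_lit 157043136441) .nil))),
   .two (nat_lit 620757007) (nat_lit 1753219087) (.two (nat_lit 2969567240) (nat_lit 159257722999) (.two (nat_lit 184549381) (nat_lit 310379135) (.two (nat_lit 41943041) (nat_lit 1358955805) (.two (nat_lit 1048576) (nat_lit 645927965) .nil)))),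
   .two (nat_lit 272629775) (nat_lit 10939793423) (.two (nat_lit 809500680) (nat_lit 166196150339) (.two (nat_lit 166129041412) (nat_lit 156569174374) (.two (nat_lit 37748737) (nat_lit 184986633545) (.two (nat_lit 1048576) (nat_lit 158649552355) (.one (nat_lit 1055022) .nil))))),
   .two (nat_lit 2969567247) (nat_lit 606077047) (.two (nat_lit 28758245381) (nat_lit 2969567427) (.two (nat_lit 9766436865) (nat_lit 46489669172) (.one (nat_lit 270537697) .nil))),
   .two (nat_lit 13195280399) (nat_lit 3525312538) (.two (nat_lit 169869320) (nat_lit 12054429761) (.two (nat_lit 169869316) (nat_lit 159224169164) (.two (nat_lit 9765388289) (nat_lit 3565161391) (.two (nat_lit 1048576) (nat_lit 2101747) (.one (nat_lit 1055024) .nil))))),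
   .two (nat_lit 11559501839) (nat_lit 11006902404) (.two (nat_lit 34603013) (nat_lit 1191183654) (.two (nat_lit 1048576) (nat_lit 1191184945) (.one (nat_lit 20638079258) .nil))),
   .two (nat_lit 50331663) (nat_lit 20704133257) (.two (nat_lit 721420293) (nat_lit 156364702353) (.two (nat_lit 2097153) (nat_lit 2886731077) (.two (nat_lit 2097152) (nat_lit 183845785165) (.one (nat_lit 16783667) .nil)))),
   .two (nat_lit 46414168079) (nat_lit 156365750296) (.two (nat_lit 46978301960) (nat_lit 2994733191) (.two (nat_lit 165532401669) (nat_lit 185021236303) (.two (nat_lit 2097153) (nat_lit 12054433214) (.one (nat_lit 8395061) .nil)))),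
   .two (nat_lit 9934209039) (nat_lit 157038936131) (.two (nat_lit 169869316) (nat_lit 13191087485) (.two (nat_lit 2097152) (nat_lit 185023334947) (.one (nat_lit 4199611) .nil))),
   .two (nat_lit 184986632207) (nat_lit 158144135183) (.two (nat_lit 21777874952) (nat_lit 46474985596) (.two (nat_lit 158075977733) (nat_lit 11511267959) (.two (nat_lit 605028353) (nat_lit 19597886767) (.two (nat_lit 1048576) (nat_lit 2100855) (.one (nat_lit 1053884) .nil))))),
   .two (nat_lit 2887778319) (nat_lit 165532401679) (.two (nat_lit 3525312520) (nat_lit 158183981175) (.two (nat_lit 46978301957) (nat_lit 2323645090) (.two (nat_lit 34603009) (nat_lit 343934289) (.two (nat_lit 2097152) (nat_lit 157035793892) (.one (nat_lit 1055030) .nil))))),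
   .two (nat_lit 2887778319) (nat_lit 9768534031) (.two (nat_lit 1178599432) (nat_lit 2350907526) (.two (nat_lit 708837381) (nat_lit 13221495472) (.two (nat_lit 2097153) (nat_lit 12047091014) (.two (nat_lit 2097152) (nat_lit 9869200848) (.one (nat_lit 168826032) .nil))))),
   .two (nat_lit 11479810063) (nat_lit 18933088366) (.two (nat_lit 809500677) (nat_lit 13195280993) (.two (nat_lit 37748737) (nat_lit 880805156) (.two (nat_lit 4194304) (nat_lit 8393207) (.one (nat_lit 4601156629) .nil)))),
   .two (nat_lit 742391823) (nat_lit 117440620) (.two (nat_lit 16777220) (nat_lit 28691137186) (.two (nat_lit 16777217) (nat_lit 46409975171) (.two (nat_lit 4194304) (nat_lit 2100856) (.one (nat_lit 16783671) .nil)))),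
   .two (nat_lit 205520911) (nat_lit 9934209039) (.two (nat_lit 9934209032) (nat_lit 4631560455) (.two (nat_lit 2097157) (nat_lit 28089254247) (.two (nat_lit 2097153) (nat_lit 46977254244) (.two (nat_lit 2097152) (nat_lit 1053176) (.one (nat_lit 239080584) .nil))))),
   .two (nat_lit 713031695) (nat_lit 1846542351) (.two (nat_lit 11551113224) (nat_lit 166196150385) (.two (nat_lit 166129041412) (nat_lit 156472705666) (.two (nat_lit 9766436865) (nat_lit 10007610211) (.two (nat_lit 1048576) (nat_lit 10007610910) (.one (nat_lit 8393917) .nil))))),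
   .two (nat_lit 713031695) (nat_lit 772800578) (.two (nat_lit 713031684) (nat_lit 772801378) (.two (nat_lit 8388608) (nat_lit 10503588359) (.one (nat_lit 1055032) .nil))),
   .two (nat_lit 1178599439) (nat_lit 1048695) (.two (nat_lit 11479810052) (nat_lit 28790751887) (.two (nat_lit 37748737) (nat_lit 1745881614) (.one (nat_lit 1055033) .nil))),
   .two (nat_lit 13191086095) (nat_lit 184993972239) (.two (nat_lit 184993972232) (nat_lit 13191086189) (.two (nat_lit 272629765) (nat_lit 9799991658) (.two (nat_lit 4194305) (nat_lit 2099330) (.two (nat_lit 8388608) (nat_lit 2101753) (.one (nat_lit 8395066) .nil))))),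
   .two (nat_lit 28086108175) (nat_lit 19599982607) (.two (nat_lit 19599982600) (nat_lit 185020187328) (.two (nat_lit 156364701697) (nat_lit 1346374185) (.one (nat_lit 168825875) .nil))),
   .two (nat_lit 218103823) (nat_lit 174753579117) (.two (nat_lit 21208498181) (nat_lit 620758314) (.two (nat_lit 2097152) (nat_lit 16782408) .nil)),
   .two (nat_lit 4194319) (nat_lit 10940842026) (.two (nat_lit 4194312) (nat_lit 20738736248) (.two (nat_lit 4194308) (nat_lit 2987393386) (.two (nat_lit 4194305) (nat_lit 19026412930) (.two (nat_lit 1048576) (nat_lit 1182797372) (.one (nat_lit 1055037) .nil))))),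
   .two (nat_lit 9781116943) (nat_lit 3525312556) (.two (nat_lit 3539992584) (nat_lit 19530776940) (.two (nat_lit 156364701697) (nat_lit 47563408709) (.two (nat_lit 1048576) (nat_lit 2101756) (.one (nat_lit 2103615) .nil)))),
   .two (nat_lit 639631375) (nat_lit 117440649) (.two (nat_lit 10385096709) (nat_lit 1411384164) (.two (nat_lit 16777216) (nat_lit 4599056910) (.one (nat_lit 9900660888) .nil))),
   .two (nat_lit 3525312527) (nat_lit 158646403187) (.two (nat_lit 46978301957) (nat_lit 12617516080) (.two (nat_lit 2097153) (nat_lit 336596448) (.one (nat_lit 183946449957) .nil))),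
   .two (nat_lit 739246095) (nat_lit 10506731544) (.two (nat_lit 11476664328) (nat_lit 46510637122) (.two (nat_lit 1178599429) (nat_lit 202375886) (.two (nat_lit 2097153) (nat_lit 4196484) (.two (nat_lit 2097152) (nat_lit 605032023) (.one (nat_lit 4200770) .nil))))),
   .two (nat_lit 809500687) (nat_lit 1745879055) (.two (nat_lit 104857608) (nat_lit 184986632256) (.two (nat_lit 183845781508) (nat_lit 843055710) (.two (nat_lit 612368385) (nat_lit 2420115985) (.one (nat_lit 1055043) .nil)))),
   .two (nat_lit 11479810063) (nat_lit 1376780413) (.two (nat_lit 11476664324) (nat_lit 19130220901) (.two (nat_lit 34603009) (nat_lit 3460302137) (.two (nat_lit 1048576) (nat_lit 12050238938) (.one (nat_lit 12047096053) .nil)))),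
   .two (nat_lit 2889875471) (nat_lit 28087156751) (.two (nat_lit 83886088) (nat_lit 809500867) (.two (nat_lit 50331649) (nat_lit 10540289602) (.one (nat_lit 4200773) .nil))),
   .two (nat_lit 9781116943) (nat_lit 185023332471) (.two (nat_lit 171966469) (nat_lit 16778536) (.two (nat_lit 4194304) (nat_lit 9881783906) (.one (nat_lit 1055047) .nil))),
   .two (nat_lit 612368399) (nat_lit 158075977743) (.two (nat_lit 612368392) (nat_lit 184416206970) (.two (nat_lit 3531603973) (nat_lit 1749026131) (.two (nat_lit 1048576) (nat_lit 3527413209) (.one (nat_lit 1054644) .nil)))),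
   .two (nat_lit 9866051599) (nat_lit 28693233679) (.two (nat_lit 28693233672) (nat_lit 28790751343) (.two (nat_lit 166129041412) (nat_lit 183949591846) (.two (nat_lit 1048576) (nat_lit 183949593137) (.one (nat_lit 4200777) .nil)))),
   .two (nat_lit 2954887183) (nat_lit 28757196815) (.two (nat_lit 9934209032) (nat_lit 21207449735) (.two (nat_lit 1846542341) (nat_lit 158647452349) (.two (nat_lit 606076929) (nat_lit 18925749554) (.two (nat_lit 2097152) (nat_lit 174752533002) (.one (nat_lit 9899611317) .nil))))),
   .two (nat_lit 4194319) (nat_lit 184549391) (.two (nat_lit 10338959368) (nat_lit 68157573) (.two (nat_lit 171966469) (nat_lit 9881780891) (.two (nat_lit 16777217) (nat_lit 10909386082) (.two (nat_lit 16777216) (nat_lit 1413485048) (.one (nat_lit 10955526052) .nil))))),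
   .two (nat_lit 28693233679) (nat_lit 158176641064) (.two (nat_lit 156971827208) (nat_lit 12047089800) (.two (nat_lit 739246085) (nat_lit 166132187493) (.two (nat_lit 34603009) (nat_lit 306186778) (.one (nat_lit 4200778) .nil)))),
   .two (nat_lit 809500687) (nat_lit 37246468231) (.two (nat_lit 47550824453) (nat_lit 47582282594) (.two (nat_lit 1048576) (nat_lit 28791802385) (.one (nat_lit 1054611) .nil))),
   .two (nat_lit 10385096719) (nat_lit 1310720066) (.two (nat_lit 654311429) (nat_lit 19027460800) (.two (nat_lit 606076929) (nat_lit 2902461927) (.one (nat_lit 183947498536) .nil))),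
   .two (nat_lit 620757007) (nat_lit 156465365033) (.two (nat_lit 28690087944) (nat_lit 2923429954) (.two (nat_lit 1343225861) (nat_lit 47563408073) (.two (nat_lit 4194305) (nat_lit 1050757) (.two (nat_lit 4194304) (nat_lit 16781823) (.one (nat_lit 4200779) .nil))))),
   .two (nat_lit 203423759) (nat_lit 158083317775) (.two (nat_lit 158083317768) (nat_lit 3558867056) (.two (nat_lit 20644364292) (nat_lit 10538189667) (.two (nat_lit 8388608) (nat_lit 158177693148) (.one (nat_lit 1411389653) .nil)))),
   .two (nat_lit 101711887) (nat_lit 11517558807) (.two (nat_lit 12054429704) (nat_lit 9966714999) (.two (nat_lit 270532613) (nat_lit 12121539217) (.two (nat_lit 2097153) (nat_lit 343933795) (.two (nat_lit 8388608) (nat_lit 136318442) (.one (nat_lit 11577332803) .nil))))),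
   .two (nat_lit 176160783) (nat_lit 28758245391) (.two (nat_lit 176160776) (nat_lit 28758245513) (.two (nat_lit 2097157) (nat_lit 1216349513) (.two (nat_lit 1048576) (nat_lit 10007613050) (.one (nat_lit 2103629) .nil)))),
   .two (nat_lit 11479810063) (nat_lit 1753219087) (.two (nat_lit 183853121544) (nat_lit 3460301161) (.two (nat_lit 37748737) (nat_lit 10376710205) (.two (nat_lit 4194304) (nat_lit 8393217) (.one (nat_lit 9902756849) .nil)))),
   .two (nat_lit 813694991) (nat_lit 19599982607) (.two (nat_lit 4605345800) (nat_lit 37249613940) (.two (nat_lit 69206021) (nat_lit 156372041923) (.two (nat_lit 37748737) (nat_lit 9873392940) (.two (nat_lit 8388608) (nat_lit 12618567237) (.one (nat_lit 2103630) .nil))))),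
   .two (nat_lit 9781116943) (nat_lit 28764536955) (.two (nat_lit 8388612) (nat_lit 183962174102) (.two (nat_lit 16777217) (nat_lit 176164373) (.one (nat_lit 705695626) .nil))),
   .two (nat_lit 184549391) (nat_lit 47555018767) (.two (nat_lit 2961178632) (nat_lit 184549733) (.two (nat_lit 612368385) (nat_lit 605029689) (.two (nat_lit 8388608) (nat_lit 13187943933) (.one (nat_lit 1055055) .nil)))),
   .two (nat_lit 9940500495) (nat_lit 10385096719) (.two (nat_lit 176160776) (nat_lit 21814575229) (.two (nat_lit 2889875461) (nat_lit 166136382122) (.two (nat_lit 4194305) (nat_lit 10376709463) (.two (nat_lit 16777216) (nat_lit 3560966679) (.one (nat_lit 16783696) .nil))))),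
   .two (nat_lit 16777231) (nat_lit 11580473369) (.two (nat_lit 822083592) (nat_lit 11513364546) (.two (nat_lit 13191086085) (nat_lit 1325400684) (.two (nat_lit 37748737) (nat_lit 21223179567) (.two (nat_lit 1048576) (nat_lit 10372516355) (.one (nat_lit 4200785) .nil))))),
   .two (nat_lit 9940500495) (nat_lit 28758245391) (.two (nat_lit 46980399112) (nat_lit 28791799920) (.two (nat_lit 176160773) (nat_lit 608174789) (.two (nat_lit 4194305) (nat_lit 8390790) (.two (nat_lit 2097152) (nat_lit 4198914) (.one (nat_lit 2103634) .nil))))),
   .two (nat_lit 272629775) (nat_lit 183853121601) (.two (nat_lit 4194308) (nat_lit 343933286) (.two (nat_lit 4194305) (nat_lit 166237046911) (.two (nat_lit 4194304) (nat_lit 8392317) (.one (nat_lit 2990543913) .nil)))),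
   .two (nat_lit 8388623) (nat_lit 2987393144) (.two (nat_lit 176160773) (nat_lit 12047090305) (.two (nat_lit 41943041) (nat_lit 10369370652) (.one (nat_lit 3524269064) .nil))),
   .two (nat_lit 16777231) (nat_lit 3464495170) (.two (nat_lit 47555018757) (nat_lit 2969567589) (.two (nat_lit 8388609) (nat_lit 9915335983) (.two (nat_lit 4194304) (nat_lit 746588675) (.one (nat_lit 28697433106) .nil)))),
   .two (nat_lit 1343225871) (nat_lit 156971827335) (.two (nat_lit 13187940357) (nat_lit 13224641378) (.two (nat_lit 1048576) (nat_lit 19532876333) (.one (nat_lit 2103635) .nil))),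
   .two (nat_lit 1753219087) (nat_lit 10436476993) (.two (nat_lit 1779433477) (nat_lit 780141206) (.two (nat_lit 34603009) (nat_lit 9873392943) (.two (nat_lit 4194304) (nat_lit 13187942921) (.one (nat_lit 46507496466) .nil)))),
   .two (nat_lit 9948889103) (nat_lit 47548727311) (.two (nat_lit 12163481613) (nat_lit 184986632259) (.two (nat_lit 2097157) (nat_lit 185002361483) (.two (nat_lit 606076929) (nat_lit 9933161785) (.two (nat_lit 1048576) (nat_lit 19530779175) (.one (nat_lit 2103636) .nil))))),
   .two (nat_lit 2902458383) (nat_lit 713031705) (.two (nat_lit 13195280392) (nat_lit 16777494) (.two (nat_lit 8388612) (nat_lit 16778320) (.two (nat_lit 8388609) (nat_lit 11022633026) (.two (nat_lit 16777216) (nat_lit 8393220) (.one (nat_lit 16782349) .nil))))),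
   .two (nat_lit 713031695) (nat_lit 21207449667) (.two (nat_lit 713031684) (nat_lit 10537140895) (.two (nat_lit 605028353) (nat_lit 185027528775) (.two (nat_lit 8388608) (nat_lit 1053189) (.one (nat_lit 839914627) .nil)))),
   .two (nat_lit 9934209039) (nat_lit 1413480550) (.two (nat_lit 1310720013) (nat_lit 46510637193) (.two (nat_lit 1277165573) (nat_lit 184989778577) (.two (nat_lit 2097153) (nat_lit 13224643074) (.one (nat_lit 158649552781) .nil)))),
   .two (nat_lit 3539992591) (nat_lit 166130089999) (.two (nat_lit 28690087944) (nat_lit 1310720257) (.two (nat_lit 28758245381) (nat_lit 157051519651) (.two (nat_lit 9765388289) (nat_lit 47548728646) (.two (nat_lit 1048576) (nat_lit 16781830) (.one (nat_lit 28758250621) .nil))))),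
   .two (nat_lit 2969567247) (nat_lit 11007950872) (.two (nat_lit 10336862216) (nat_lit 2969567296) (.two (nat_lit 3458203653) (nat_lit 218105123) (.two (nat_lit 2097152) (nat_lit 218106367) (.one (nat_lit 183928625141) .nil)))),
   .two (nat_lit 203423759) (nat_lit 46406828294) (.two (nat_lit 34603013) (nat_lit 10007609946) (.two (nat_lit 2097153) (nat_lit 156364704687) (.two (nat_lit 1048576) (nat_lit 2100758) (.one (nat_lit 2103638) .nil)))),
   .two (nat_lit 37748751) (nat_lit 1291845647) (.two (nat_lit 9881780232) (nat_lit 183913939063) (.two (nat_lit 203423749) (nat_lit 9802088805) (.two (nat_lit 2097153) (nat_lit 1279264054) (.two (nat_lit 16777216) (nat_lit 3525315086) (.one (nat_lit 2103639) .nil))))),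
   .two (nat_lit 272629775) (nat_lit 156581756972) (.two (nat_lit 3036676109) (nat_lit 46510637172) (.two (nat_lit 184549381) (nat_lit 9802089100) (.two (nat_lit 16777217) (nat_lit 174755678726) (.one (nat_lit 28793900943) .nil)))),
   .two (nat_lit 272629775) (nat_lit 169869573) (.two (nat_lit 4194308) (nat_lit 28758246031) (.two (nat_lit 4194305) (nat_lit 19094570287) (.two (nat_lit 8388608) (nat_lit 1914703453) (.one (nat_lit 21781025810) .nil)))),
   .two (nat_lit 28086108175) (nat_lit 1795162227) (.two (nat_lit 21207449605) (nat_lit 11559502437) (.two (nat_lit 605028353) (nat_lit 9948891697) (.one (nat_lit 1358959606) .nil))),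
   .two (nat_lit 176160783) (nat_lit 218103823) (.two (nat_lit 612368392) (nat_lit 158091706495) (.two (nat_lit 2969567237) (nat_lit 3028287845) (.two (nat_lit 16777217) (nat_lit 10007610656) (.two (nat_lit 16777216) (nat_lit 174759874072) (.one (nat_lit 855643181) .nil))))),
   .two (nat_lit 41943055) (nat_lit 21777875057) (.two (nat_lit 8388612) (nat_lit 20707279207) (.two (nat_lit 605028353) (nat_lit 156468512079) (.two (nat_lit 1048576) (nat_lit 4198920) (.one (nat_lit 1055064) .nil)))),
   .two (nat_lit 83886095) (nat_lit 2353004677) (.two (nat_lit 721420292) (nat_lit 3527410021) (.two (nat_lit 50331649) (nat_lit 1916799514) (.one (nat_lit 4200793) .nil))),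
   .two (nat_lit 10336862223) (nat_lit 166132187248) (.two (nat_lit 46407876612) (nat_lit 28693234530) (.two (nat_lit 2097152) (nat_lit 708839942) (.one (nat_lit 138417165) .nil))),
   .two (nat_lit 713031695) (nat_lit 9948889103) (.two (nat_lit 9948889096) (nat_lit 11618222145) (.two (nat_lit 184549380) (nat_lit 1417675618) (.two (nat_lit 16777216) (nat_lit 37253810695) (.one (nat_lit 612373537) .nil)))),
   .two (nat_lit 9934209039) (nat_lit 156971827215) (.two (nat_lit 47548727304) (nat_lit 28693233730) (.two (nat_lit 46978301957) (nat_lit 1916798494) (.one (nat_lit 4200794) .nil))),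
   .two (nat_lit 184549391) (nat_lit 21208498191) (.two (nat_lit 184549384) (nat_lit 1310720112) (.two (nat_lit 184549380) (nat_lit 2887778665) (.two (nat_lit 16777217) (nat_lit 9934211172) (.two (nat_lit 16777216) (nat_lit 3558871383) (.one (nat_lit 156567080851) .nil))))),
   .two (nat_lit 169869327) (nat_lit 620757007) (.two (nat_lit 11543773192) (nat_lit 1847591032) (.two (nat_lit 203423749) (nat_lit 46523220600) (.two (nat_lit 16777217) (nat_lit 28690089347) (.two (nat_lit 1048576) (nat_lit 12163484199) (.one (nat_lit 13187946417) .nil))))),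
   .two (nat_lit 285212687) (nat_lit 166196150296) (.two (nat_lit 822083592) (nat_lit 10436477041) (.two (nat_lit 11492392964) (nat_lit 101713280) (.two (nat_lit 16777216) (nat_lit 1052287) (.one (nat_lit 1410338707) .nil)))),
   .two (nat_lit 20704133160) (nat_lit 10913579051) (.two (nat_lit 41943048) (nat_lit 20704133235) (.two (nat_lit 21777874949) (nat_lit 2323645821) (.two (nat_lit 1048576) (nat_lit 10343157369) (.one (nat_lit 1055067) .nil)))),
   .two (nat_lit 41943055) (nat_lit 46978302086) (.two (nat_lit 75497477) (nat_lit 20638073530) (.two (nat_lit 8388609) (nat_lit 1210058038) (.two (nat_lit 8388608) (nat_lit 2101769) (.one (nat_lit 4030730127) .nil)))),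
   .two (nat_lit 37748751) (nat_lit 754974957) (.two (nat_lit 4194308) (nat_lit 21827158664) (.two (nat_lit 620756993) (nat_lit 183949591912) (.two (nat_lit 2097152) (nat_lit 16781835) (.one (nat_lit 16783709) .nil)))),
   .two (nat_lit 276824079) (nat_lit 183848927258) (.two (nat_lit 2887778312) (nat_lit 138412157) (.two (nat_lit 69206021) (nat_lit 1753219795) (.two (nat_lit 34603009) (nat_lit 1749028269) (.one (nat_lit 4200798) .nil)))),
   .two (nat_lit 2954887183) (nat_lit 46414168178) (.two (nat_lit 169869316) (nat_lit 46414168930) (.two (nat_lit 2097152) (nat_lit 166237049826) .nil)),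
   .two (nat_lit 822083599) (nat_lit 13191086147) (.two (nat_lit 13191086085) (nat_lit 687866487) (.two (nat_lit 37748737) (nat_lit 28772926770) (.two (nat_lit 4194304) (nat_lit 9915338359) (.one (nat_lit 3539997763) .nil)))),
   .two (nat_lit 9768534031) (nat_lit 1753219087) (.two (nat_lit 205520904) (nat_lit 12054429761) (.two (nat_lit 171966469) (nat_lit 21785216290) (.two (nat_lit 1048576) (nat_lit 746588688) (.one (nat_lit 4200799) .nil)))),
   .two (nat_lit 10370416655) (nat_lit 156971827215) (.two (nat_lit 10370416648) (nat_lit 239075585) (.two (nat_lit 10506731525) (nat_lit 2887778998) (.two (nat_lit 606076929) (nat_lit 20640172115) (.two (nat_lit 2097152) (nat_lit 4198924) (.one (nat_lit 12048143456) .nil))))),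
   .two (nat_lit 41943055) (nat_lit 159266111846) (.two (nat_lit 605028353) (nat_lit 2365591033) (.one (nat_lit 174768265070) .nil)),
   .two (nat_lit 10370416655) (nat_lit 679477377) (.two (nat_lit 47555018757) (nat_lit 28758245733) (.two (nat_lit 8388609) (nat_lit 9867101516) (.two (nat_lit 2097152) (nat_lit 12155096672) (.one (nat_lit 8394635) .nil)))),
   .two (nat_lit 165532401679) (nat_lit 9765388558) (.two (nat_lit 20644364292) (nat_lit 158646403430) (.two (nat_lit 612368385) (nat_lit 12617517123) (.two (nat_lit 8388608) (nat_lit 1053197) (.one (nat_lit 1055072) .nil)))),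
   .two (nat_lit 183853121551) (nat_lit 135266328) (.two (nat_lit 184416206856) (nat_lit 156372041841) (.two (nat_lit 183845781508) (nat_lit 1283457383) (.two (nat_lit 34603009) (nat_lit 166237046109) (.two (nat_lit 1048576) (nat_lit 8393230) (.one (nat_lit 8395105) .nil))))),
   .two (nat_lit 713031695) (nat_lit 9881780339) (.two (nat_lit 620756997) (nat_lit 184993973090) (.two (nat_lit 16777216) (nat_lit 19537070598) (.one (nat_lit 158653748237) .nil))),
   .two (nat_lit 2954887183) (nat_lit 12054429761) (.two (nat_lit 169869316) (nat_lit 880804197) (.two (nat_lit 8388609) (nat_lit 1746931283) (.one (nat_lit 159217883257) .nil))),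
   .two (nat_lit 184549391) (nat_lit 10940842100) (.two (nat_lit 184549380) (nat_lit 10907288418) (.two (nat_lit 2097152) (nat_lit 285216675) .nil)),
   .two (nat_lit 11559501839) (nat_lit 21781020799) (.two (nat_lit 822083589) (nat_lit 165528207992) (.two (nat_lit 605028353) (nat_lit 4030728731) (.one (nat_lit 4200802) .nil))),
   .two (nat_lit 285212687) (nat_lit 158083317825) (.two (nat_lit 16777220) (nat_lit 165532402974) (.two (nat_lit 8388608) (nat_lit 620759574) (.one (nat_lit 8395107) .nil))),
   .two (nat_lit 2954887183) (nat_lit 18933088271) (.two (nat_lit 75497480) (nat_lit 165526110344) (.two (nat_lit 169869316) (nat_lit 20745027943) (.two (nat_lit 612368385) (nat_lit 4599055663) (.two (nat_lit 8388608) (nat_lit 21812481655) (.one (nat_lit 4599060460) .nil))))),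
   .two (nat_lit 218103823) (nat_lit 11584667714) (.two (nat_lit 713031684) (nat_lit 1291845990) (.two (nat_lit 16777217) (nat_lit 183853125184) (.one (nat_lit 8395108) .nil))),
   .two (nat_lit 11479810063) (nat_lit 183853121602) (.two (nat_lit 809500677) (nat_lit 183853122402) (.two (nat_lit 4194304) (nat_lit 20711475719) (.one (nat_lit 10510929811) .nil))),
   .two (nat_lit 3464495119) (nat_lit 1212153971) (.two (nat_lit 46414168068) (nat_lit 2923430503) (.two (nat_lit 8388609) (nat_lit 11546922588) (.one (nat_lit 4200805) .nil))),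
   .two (nat_lit 754974735) (nat_lit 3464495241) (.two (nat_lit 176160773) (nat_lit 28705817935) (.two (nat_lit 2097152) (nat_lit 46514833933) (.one (nat_lit 16783718) .nil))),
   .two (nat_lit 37748751) (nat_lit 1761608040) (.two (nat_lit 2097153) (nat_lit 9869198646) (.two (nat_lit 2097152) (nat_lit 4198023) (.one (nat_lit 16783719) .nil))),
   .two (nat_lit 11492392975) (nat_lit 156971827311) (.two (nat_lit 1178599429) (nat_lit 11559503143) (.two (nat_lit 4194304) (nat_lit 16780936) (.one (nat_lit 183962179606) .nil))),
   .two (nat_lit 272629775) (nat_lit 1913651215) (.two (nat_lit 809500680) (nat_lit 1947205744) (.two (nat_lit 11479810053) (nat_lit 135267008) (.two (nat_lit 4194305) (nat_lit 9765389671) (.two (nat_lit 4194304) (nat_lit 37246471735) (.one (nat_lit 1055080) .nil))))),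
   .two (nat_lit 1343225871) (nat_lit 19537068077) (.two (nat_lit 612368392) (nat_lit 28086108296) (.two (nat_lit 705691652) (nat_lit 166136381800) (.two (nat_lit 34603009) (nat_lit 1317012814) (.two (nat_lit 8388608) (nat_lit 12114202187) (.one (nat_lit 10443820943) .nil))))),
   .two (nat_lit 4194319) (nat_lit 1291845989) (.two (nat_lit 34603009) (nat_lit 3024095791) (.one (nat_lit 16783722) .nil)),
   .two (nat_lit 739246095) (nat_lit 2921332869) (.two (nat_lit 11476664324) (nat_lit 1310720357) (.two (nat_lit 34603009) (nat_lit 2887780414) (.two (nat_lit 1048576) (nat_lit 174686472730) (.one (nat_lit 2103659) .nil)))),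
   .two (nat_lit 8388623) (nat_lit 47548727363) (.two (nat_lit 176160773) (nat_lit 9967763814) (.two (nat_lit 8388609) (nat_lit 2099336) (.two (nat_lit 8388608) (nat_lit 2100873) (.one (nat_lit 8395116) .nil)))),
   .two (nat_lit 1916796943) (nat_lit 8388632) (.two (nat_lit 276824072) (nat_lit 12117344370) (.two (nat_lit 809500677) (nat_lit 4638900896) (.two (nat_lit 37748737) (nat_lit 159224172072) (.one (nat_lit 4200813) .nil)))),
   .two (nat_lit 9881780239) (nat_lit 135266416) (.two (nat_lit 183845781508) (nat_lit 11559502440) (.two (nat_lit 34603009) (nat_lit 184553048) (.one (nat_lit 16782534) .nil))),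
   .two (nat_lit 612368399) (nat_lit 3525312536) (.two (nat_lit 2887778312) (nat_lit 10007609452) (.two (nat_lit 270532613) (nat_lit 343933525) (.two (nat_lit 2097153) (nat_lit 343934237) (.two (nat_lit 8388608) (nat_lit 184986635879) (.one (nat_lit 3020953498) .nil))))),
   .two (nat_lit 1343225871) (nat_lit 28693233730) (.two (nat_lit 705691652) (nat_lit 28693234530) (.two (nat_lit 1048576) (nat_lit 19130223104) (.one (nat_lit 4200814) .nil))),
   .two (nat_lit 203423759) (nat_lit 239075461) (.two (nat_lit 2887778308) (nat_lit 11513364837) (.two (nat_lit 2097153) (nat_lit 10372515190) (.two (nat_lit 2097152) (nat_lit 166132190778) (.one (nat_lit 10001323087) .nil)))),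
   .two (nat_lit 9934209039) (nat_lit 2349858931) (.two (nat_lit 1277165573) (nat_lit 12147754032) (.two (nat_lit 2097153) (nat_lit 336594974) (.two (nat_lit 2097152) (nat_lit 1745882539) (.one (nat_lit 1055087) .nil)))),
   .two (nat_lit 9781116943) (nat_lit 10369368079) (.two (nat_lit 612368392) (nat_lit 183861510392) (.two (nat_lit 1276116996) (nat_lit 10510926184) (.two (nat_lit 16777217) (nat_lit 1786774866) (.two (nat_lit 8388608) (nat_lit 4613738010) (.one (nat_lit 16783728) .nil))))),
   .two (nat_lit 1358954511) (nat_lit 12617515073) (.two (nat_lit 739246085) (nat_lit 218104421) (.two (nat_lit 34603009) (nat_lit 12633245742) (.two (nat_lit 1048576) (nat_lit 16780938) (.one (nat_lit 151001272) .nil)))),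
   .two (nat_lit 721420303) (nat_lit 10939793423) (.two (nat_lit 721420296) (nat_lit 10335813764) (.two (nat_lit 721420292) (nat_lit 18925749594) (.two (nat_lit 8388608) (nat_lit 1426068614) .nil))),
   .two (nat_lit 721420303) (nat_lit 156372041743) (.two (nat_lit 156372041736) (nat_lit 50331715) (.two (nat_lit 46414168068) (nat_lit 1325401474) (.two (nat_lit 8388608) (nat_lit 156481096227) (.one (nat_lit 352328441) .nil)))),
   .two (nat_lit 169869327) (nat_lit 156971827242) (.two (nat_lit 705691656) (nat_lit 11014242429) (.two (nat_lit 176160773) (nat_lit 156969730407) (.two (nat_lit 2097153) (nat_lit 303039801) (.two (nat_lit 2097152) (nat_lit 1920994756) (.one (nat_lit 2103665) .nil))))),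
   .two (nat_lit 41943055) (nat_lit 337641587) (.two (nat_lit 9933160453) (nat_lit 183947494058) (.two (nat_lit 4194305) (nat_lit 11610883437) (.two (nat_lit 8388608) (nat_lit 4198930) (.one (nat_lit 645928870) .nil)))),
   .two (nat_lit 1291845647) (nat_lit 184416206863) (.two (nat_lit 184549384) (nat_lit 21811429505) (.two (nat_lit 285212677) (nat_lit 46477082819) (.two (nat_lit 34603009) (nat_lit 339739955) (.two (nat_lit 4194304) (nat_lit 117444206) (.one (nat_lit 156380436453) .nil))))),
   .two (nat_lit 285212687) (nat_lit 159257723017) (.two (nat_lit 16777220) (nat_lit 4605346449) (.two (nat_lit 620756993) (nat_lit 156539817541) (.one (nat_lit 3028293526) .nil))),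
   .two (nat_lit 1745879055) (nat_lit 19027460119) (.two (nat_lit 1847590920) (nat_lit 135266416) (.two (nat_lit 28086108165) (nat_lit 174753579658) (.two (nat_lit 34603009) (nat_lit 2099338) (.two (nat_lit 1048576) (nat_lit 2101779) (.one (nat_lit 183946450922) .nil))))),
   .two (nat_lit 28690087951) (nat_lit 12624855063) (.two (nat_lit 12054429704) (nat_lit 19596836931) (.two (nat_lit 1913651205) (nat_lit 21785216054) (.two (nat_lit 9765388289) (nat_lit 109053316) (.two (nat_lit 1048576) (nat_lit 9906948618) (.one (nat_lit 11006907504) .nil))))),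
   .two (nat_lit 612368399) (nat_lit 10538188921) (.two (nat_lit 69206021) (nat_lit 343933123) (.two (nat_lit 2097153) (nat_lit 19604178228) (.two (nat_lit 4194304) (nat_lit 174686472731) (.one (nat_lit 1948259361) .nil)))),
   .two (nat_lit 2889875471) (nat_lit 11559501889) (.two (nat_lit 11492392965) (nat_lit 306184805) (.two (nat_lit 16777217) (nat_lit 46477086123) (.one (nat_lit 28760348702) .nil))),
   .two (nat_lit 713031695) (nat_lit 46409973775) (.two (nat_lit 11551113224) (nat_lit 28693233789) (.two (nat_lit 2889875460) (nat_lit 46508540617) (.two (nat_lit 2097153) (nat_lit 138413358) (.two (nat_lit 8388608) (nat_lit 46510641646) (.one (nat_lit 2103667) .nil))))),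
   .two (nat_lit 47563407375) (nat_lit 20638072847) (.two (nat_lit 47563407368) (nat_lit 28691136646) (.two (nat_lit 158143086597) (nat_lit 12048138915) (.two (nat_lit 156365750273) (nat_lit 772804061) (.one (nat_lit 165525066857) .nil)))),
   .two (nat_lit 11479810063) (nat_lit 12114198543) (.two (nat_lit 1178599432) (nat_lit 166229704950) (.two (nat_lit 11479810052) (nat_lit 12147753317) (.two (nat_lit 9765388289) (nat_lit 156971829277) (.two (nat_lit 4194304) (nat_lit 19026415066) (.one (nat_lit 1055092) .nil))))),
   .two (nat_lit 2889875471) (nat_lit 1847590927) (.two (nat_lit 2889875464) (nat_lit 3525312632) (.two (nat_lit 2887778308) (nat_lit 28089254247) (.two (nat_lit 2097153) (nat_lit 1379929533) (.one (nat_lit 4200821) .nil)))),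
   .two (nat_lit 184549391) (nat_lit 156372041743) (.two (nat_lit 620757000) (nat_lit 1920991509) (.two (nat_lit 46414168068) (nat_lit 184549977) (.two (nat_lit 8388609) (nat_lit 2969569790) (.one (nat_lit 10519319552) .nil)))),
   .two (nat_lit 41943055) (nat_lit 3458203663) (.two (nat_lit 41943048) (nat_lit 158647451770) (.two (nat_lit 209715205) (nat_lit 159251432742) (.two (nat_lit 8388608) (nat_lit 20705186915) .nil))),
   .two (nat_lit 754974735) (nat_lit 9802088472) (.two (nat_lit 117440520) (nat_lit 1413480572) (.two (nat_lit 171966469) (nat_lit 11559503390) (.one (nat_lit 16783734) .nil))),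
   .two (nat_lit 1291845647) (nat_lit 183853121649) (.two (nat_lit 620756997) (nat_lit 1753219939) (.two (nat_lit 16777216) (nat_lit 2994735646) (.one (nat_lit 157043135581) .nil))),
   .two (nat_lit 620757007) (nat_lit 336592940) (.two (nat_lit 620757000) (nat_lit 1846542600) (.two (nat_lit 83886085) (nat_lit 21811429991) (.two (nat_lit 16777217) (nat_lit 1410336120) (.two (nat_lit 16777216) (nat_lit 1052300) (.one (nat_lit 822088718) .nil))))),
   .two (nat_lit 612368399) (nat_lit 20638072847) (.two (nat_lit 47555018760) (nat_lit 47548727416) (.two (nat_lit 159217876997) (nat_lit 159224168805) (.two (nat_lit 156365750273) (nat_lit 11584671225) (.one (nat_lit 3531610328) .nil)))),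
   .two (nat_lit 1343225871) (nat_lit 184993972239) (.two (nat_lit 68157448) (nat_lit 11618222190) (.two (nat_lit 705691652) (nat_lit 41943681) (.two (nat_lit 34603009) (nat_lit 184989779257) (.two (nat_lit 4194304) (nat_lit 1053207) (.one (nat_lit 1055097) .nil))))),
   .two (nat_lit 9934209039) (nat_lit 156367847439) (.two (nat_lit 28693233672) (nat_lit 47548727362) (.two (nat_lit 3458203653) (nat_lit 843055702) (.two (nat_lit 2097153) (nat_lit 843056413) (.two (nat_lit 4194304) (nat_lit 2101784) (.one (nat_lit 37247521974) .nil))))),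
   .two (nat_lit 11559501839) (nat_lit 4601151503) (.two (nat_lit 117440520) (nat_lit 4601151552) (.two (nat_lit 4194308) (nat_lit 19545457985) (.two (nat_lit 8388608) (nat_lit 183949593135) (.one (nat_lit 4200826) .nil)))),
   .two (nat_lit 37748751) (nat_lit 184549491) (.two (nat_lit 4194308) (nat_lit 9982444584) (.two (nat_lit 4194305) (nat_lit 37329308568) (.two (nat_lit 4194304) (nat_lit 889197017) (.one (nat_lit 16783739) .nil)))),
   .two (nat_lit 203423759) (nat_lit 2319450240) (.two (nat_lit 2887778308) (nat_lit 156569174883) (.two (nat_lit 2097152) (nat_lit 4198029) (.one (nat_lit 4200828) .nil))),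
   .two (nat_lit 11479810063) (nat_lit 3464495119) (.two (nat_lit 11479810056) (nat_lit 847249528) (.two (nat_lit 13191086085) (nat_lit 343933123) (.two (nat_lit 37748737) (nat_lit 20711474479) (.two (nat_lit 4194304) (nat_lit 4638903916) (.one (nat_lit 1749028743) .nil))))),
   .two (nat_lit 11479810063) (nat_lit 159216828441) (.two (nat_lit 184419352584) (nat_lit 3457155332) (.two (nat_lit 20637024260) (nat_lit 10909385063) (.two (nat_lit 156364701697) (nat_lit 1849690639) (.one (nat_lit 306189288) .nil)))),
   .two (nat_lit 9781116943) (nat_lit 158176641090) (.two (nat_lit 1191182341) (nat_lit 28790752098) (.two (nat_lit 16777216) (nat_lit 672139783) (.one (nat_lit 1055101) .nil))),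
   .two (nat_lit 2961178639) (nat_lit 809500804) (.two (nat_lit 713031684) (nat_lit 71303786) (.two (nat_lit 605028353) (nat_lit 243271043) (.two (nat_lit 1048576) (nat_lit 813697549) (.one (nat_lit 156465370971) .nil)))),
   .two (nat_lit 50331663) (nat_lit 28693233688) (.two (nat_lit 822083592) (nat_lit 28693233774) (.two (nat_lit 9768534021) (nat_lit 11559503138) (.two (nat_lit 4194304) (nat_lit 687869524) (.one (nat_lit 12117349453) .nil)))),
   .two (nat_lit 1191182351) (nat_lit 12117344323) (.two (nat_lit 12117344261) (nat_lit 9982444894) (.two (nat_lit 4194304) (nat_lit 3036679625) (.one (nat_lit 16783742) .nil))),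
   .two (nat_lit 75497487) (nat_lit 47548727360) (.two (nat_lit 612368389) (nat_lit 9967763651) (.two (nat_lit 41943041) (nat_lit 10940845559) (.one (nat_lit 176167038) .nil))),
   .two (nat_lit 41943055) (nat_lit 183949590658) (.two (nat_lit 8388612) (nat_lit 183848927873) (.two (nat_lit 8388609) (nat_lit 675285056) (.two (nat_lit 1048576) (nat_lit 4198937) (.one (nat_lit 4598011009) .nil)))),
   .two (nat_lit 156367847439) (nat_lit 218103831) (.two (nat_lit 156367847432) (nat_lit 156380430474) (.two (nat_lit 18928893957) (nat_lit 184549988) (.two (nat_lit 4194305) (nat_lit 184551935) (.one (nat_lit 10016003075) .nil)))),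
   .two (nat_lit 11492392975) (nat_lit 185027526698) (.two (nat_lit 156365750280) (nat_lit 1920991592) (.two (nat_lit 2097153) (nat_lit 16780210) (.two (nat_lit 16777216) (nat_lit 165532405365) (.one (nat_lit 2103679) .nil)))),
   .two (nat_lit 218103823) (nat_lit 1212153896) (.two (nat_lit 218103816) (nat_lit 37748992) (.two (nat_lit 2902458372) (nat_lit 9802088805) (.two (nat_lit 4194305) (nat_lit 285215258) (.one (nat_lit 4200832) .nil)))),
   .two (nat_lit 620757007) (nat_lit 1950351472) (.two (nat_lit 184549380) (nat_lit 174692762974) (.two (nat_lit 16777216) (nat_lit 9772730887) (.one (nat_lit 8395137) .nil))),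
   .two (nat_lit 620757007) (nat_lit 156569174128) (.two (nat_lit 83886085) (nat_lit 3527410531) (.two (nat_lit 16777216) (nat_lit 12620664725) .nil)),
   .two (nat_lit 16777231) (nat_lit 183949590593) (.two (nat_lit 16777220) (nat_lit 158146232953) (.two (nat_lit 16777217) (nat_lit 11614029960) (.two (nat_lit 16777216) (nat_lit 4601155197) (.one (nat_lit 4030731230) .nil)))),
   .two (nat_lit 21777874959) (nat_lit 12117344322) (.two (nat_lit 158075977733) (nat_lit 12117345122) (.two (nat_lit 1048576) (nat_lit 11513367040) (.one (nat_lit 4200834) .nil))),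
   .two (nat_lit 11479810063) (nat_lit 10336862223) (.two (nat_lit 1178599432) (nat_lit 3458203714) (.two (nat_lit 47548727301) (nat_lit 21814575799) (.two (nat_lit 2097153) (nat_lit 4601155197) (.one (nat_lit 673191046) .nil)))),
   .two (nat_lit 117440527) (nat_lit 772800622) (.two (nat_lit 739246085) (nat_lit 721421608) (.two (nat_lit 1048576) (nat_lit 9915338302) (.one (nat_lit 3557823528) .nil))),
   .two (nat_lit 184416206863) (nat_lit 9948889205) (.two (nat_lit 12114198533) (nat_lit 10955523114) (.two (nat_lit 34603009) (nat_lit 1291849307) (.one (nat_lit 168826944) .nil))),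
   .two (nat_lit 218103848) (nat_lit 156533522457) (.two (nat_lit 28691136520) (nat_lit 218103923) (.two (nat_lit 158083317765) (nat_lit 183861510507) (.two (nat_lit 612368385) (nat_lit 16779404) (.two (nat_lit 8388608) (nat_lit 16780943) (.one (nat_lit 37314630649) .nil))))),
   .two (nat_lit 203423759) (nat_lit 1343225881) (.two (nat_lit 3525312520) (nat_lit 101712007) (.two (nat_lit 10370416645) (nat_lit 185020187345) (.two (nat_lit 9765388289) (nat_lit 156567078220) (.two (nat_lit 1048576) (nat_lit 2101787) (.one (nat_lit 1746931597) .nil))))),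
   .two (nat_lit 2969567247) (nat_lit 46978301967) (.two (nat_lit 46978301960) (nat_lit 2969567298) (.two (nat_lit 3525312517) (nat_lit 2969568098) (.two (nat_lit 2097152) (nat_lit 2969569794) (.one (nat_lit 47596967058) .nil)))),
   .two (nat_lit 809500687) (nat_lit 28093448216) (.two (nat_lit 13191086088) (nat_lit 28093448303) (.two (nat_lit 46414168068) (nat_lit 12117345122) (.two (nat_lit 8388608) (nat_lit 157038938668) (.one (nat_lit 2353010661) .nil)))),
   .two (nat_lit 673185832) (nat_lit 11626610731) (.two (nat_lit 654311432) (nat_lit 673185907) (.two (nat_lit 159217876997) (nat_lit 1392510291) (.two (nat_lit 2097152) (nat_lit 11492394526) (.one (nat_lit 16783748) .nil)))),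
   .two (nat_lit 19596836879) (nat_lit 21785215091) (.two (nat_lit 183845781508) (nat_lit 20644364903) (.two (nat_lit 34603009) (nat_lit 3464498671) (.one (nat_lit 8395141) .nil))),
   .two (nat_lit 156367847439) (nat_lit 158646403197) (.two (nat_lit 18928893957) (nat_lit 4631561289) (.two (nat_lit 156367847425) (nat_lit 2953840701) (.two (nat_lit 4194304) (nat_lit 2416971328) (.one (nat_lit 4200838) .nil)))),
   .two (nat_lit 272629775) (nat_lit 183853121649) (.two (nat_lit 4194308) (nat_lit 880804706) (.two (nat_lit 4194304) (nat_lit 10443820938) .nil)),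
   .two (nat_lit 75497487) (nat_lit 19596836996) (.two (nat_lit 713031684) (nat_lit 1048936) (.two (nat_lit 41943041) (nat_lit 4027584068) (.one (nat_lit 1055113) .nil))),
   .two (nat_lit 218103823) (nat_lit 183848927247) (.two (nat_lit 9781116936) (nat_lit 183848927298) (.two (nat_lit 13191086085) (nat_lit 184549989) (.two (nat_lit 37748737) (nat_lit 166245435942) (.one (nat_lit 28089259071) .nil)))),
   .two (nat_lit 9948889103) (nat_lit 4028629058) (.two (nat_lit 3525312517) (nat_lit 218105127) (.two (nat_lit 2097152) (nat_lit 158192373163) (.one (nat_lit 1847596046) .nil))),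
   .two (nat_lit 47548727311) (nat_lit 3527409679) (.two (nat_lit 3527409672) (nat_lit 47548727360) (.two (nat_lit 46407876612) (nat_lit 9802088806) (.two (nat_lit 156365750273) (nat_lit 1379928191) (.two (nat_lit 2097152) (nat_lit 4198033) (.one (nat_lit 4200842) .nil))))),
   .two (nat_lit 4194319) (nat_lit 158083318117) (.two (nat_lit 4194305) (nat_lit 13228836153) (.two (nat_lit 1048576) (nat_lit 708839983) (.one (nat_lit 4200843) .nil))),
   .two (nat_lit 4194319) (nat_lit 754974743) (.two (nat_lit 4194312) (nat_lit 11022631170) (.two (nat_lit 46409973765) (nat_lit 47547680110) (.two (nat_lit 4194304) (nat_lit 1053214) (.one (nat_lit 4200844) .nil)))),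
   .two (nat_lit 3464495119) (nat_lit 46978302018) (.two (nat_lit 46407876612) (nat_lit 1350566249) (.two (nat_lit 2097153) (nat_lit 8390798) (.two (nat_lit 2097152) (nat_lit 109056508) (.one (nat_lit 109058367) .nil)))),
   .two (nat_lit 16777231) (nat_lit 18933088271) (.two (nat_lit 47563407368) (nat_lit 166130090098) (.two (nat_lit 102760453) (nat_lit 285212867) (.two (nat_lit 606076929) (nat_lit 1392510254) (.two (nat_lit 1048576) (nat_lit 1277169543) .nil)))),
   .two (nat_lit 10343153679) (nat_lit 174686470254) (.two (nat_lit 165526110213) (nat_lit 679478588) (.two (nat_lit 2097152) (nat_lit 310382126) (.one (nat_lit 2894075895) .nil))),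
   .two (nat_lit 21777874959) (nat_lit 174753579023) (.two (nat_lit 158075977736) (nat_lit 174686470259) (.two (nat_lit 20637024260) (nat_lit 673187111) (.two (nat_lit 1048576) (nat_lit 19027463816) (.one (nat_lit 47581239321) .nil)))),
   .two (nat_lit 9948889103) (nat_lit 174753579119) (.two (nat_lit 1277165573) (nat_lit 156581758342) (.two (nat_lit 2097152) (nat_lit 16781856) (.one (nat_lit 2103694) .nil))),
   .two (nat_lit 11559501839) (nat_lit 9869197438) (.two (nat_lit 272629765) (nat_lit 46992983354) (.two (nat_lit 4194304) (nat_lit 21827161675) (.one (nat_lit 16783759) .nil))),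
   .two (nat_lit 203423759) (nat_lit 1753219209) (.two (nat_lit 2954887173) (nat_lit 12624856104) (.two (nat_lit 34603009) (nat_lit 1786774915) (.two (nat_lit 1048576) (nat_lit 304089613) (.one (nat_lit 2103696) .nil)))),
   .two (nat_lit 176160783) (nat_lit 1745879055) (.two (nat_lit 159224168456) (nat_lit 772800622) (.two (nat_lit 20644364293) (nat_lit 1376781607) (.two (nat_lit 8388608) (nat_lit 11543775782) (.one (nat_lit 28697433128) .nil)))),
   .two (nat_lit 742391823) (nat_lit 117440527) (.two (nat_lit 606076936) (nat_lit 9982443639) (.two (nat_lit 16777220) (nat_lit 156569175375) (.two (nat_lit 4194304) (nat_lit 10519317005) (.one (nat_lit 4200849) .nil)))),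
   .two (nat_lit 11543773199) (nat_lit 21208498242) (.two (nat_lit 739246085) (nat_lit 21208498533) (.two (nat_lit 34603009) (nat_lit 270534006) (.two (nat_lit 1048576) (nat_lit 2100884) (.one (nat_lit 10369373229) .nil)))),
   .two (nat_lit 16777231) (nat_lit 47555018767) (.two (nat_lit 47555018760) (nat_lit 16777282) (.two (nat_lit 176160772) (nat_lit 16778082) (.two (nat_lit 8388608) (nat_lit 2432700295) .nil))),
   .two (nat_lit 169869327) (nat_lit 46414168079) (.two (nat_lit 169869320) (nat_lit 166136381700) (.two (nat_lit 47555018757) (nat_lit 1914700137) (.two (nat_lit 606076929) (nat_lit 13187941679) (.two (nat_lit 8388608) (nat_lit 2317356935) .nil)))),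
   .two (nat_lit 176160783) (nat_lit 2097198) (.two (nat_lit 9967763468) (nat_lit 176160834) (.two (nat_lit 176160772) (nat_lit 2098257) (.two (nat_lit 8388609) (nat_lit 2100147) (.two (nat_lit 8388608) (nat_lit 2101793) (.one (nat_lit 2103698) .nil))))),
   .two (nat_lit 176160783) (nat_lit 13191086095) (.two (nat_lit 37748744) (nat_lit 1417674819) (.two (nat_lit 8388613) (nat_lit 13224640869) (.two (nat_lit 8388609) (nat_lit 2990540079) (.two (nat_lit 2097152) (nat_lit 157043134343) .nil)))),
   .two (nat_lit 37748751) (nat_lit 1175453722) (.two (nat_lit 183845781512) (nat_lit 4634705986) (.two (nat_lit 69206021) (nat_lit 68158087) (.two (nat_lit 2097153) (nat_lit 1051572) (.two (nat_lit 2097152) (nat_lit 10439626254) (.one (nat_lit 2103699) .nil))))),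
   .two (nat_lit 18933088271) (nat_lit 806354969) (.two (nat_lit 12114198536) (nat_lit 3565158527) (.two (nat_lit 184416206853) (nat_lit 1283458422) (.two (nat_lit 1048576) (nat_lit 158150430291) (.one (nat_lit 1053897) .nil)))),
   .two (nat_lit 2887778319) (nat_lit 183853121662) (.two (nat_lit 4194308) (nat_lit 46507491686) (.two (nat_lit 37748737) (nat_lit 18925749586) (.two (nat_lit 1048576) (nat_lit 159251434923) (.one (nat_lit 21781025979) .nil)))),
   .two (nat_lit 21777874959) (nat_lit 156971827215) (.two (nat_lit 11543773192) (nat_lit 19599982705) (.two (nat_lit 12114198533) (nat_lit 2990540118) (.two (nat_lit 1048576) (nat_lit 4198037) (.one (nat_lit 184989784074) .nil)))),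
   .two (nat_lit 176160783) (nat_lit 21208498191) (.two (nat_lit 176160776) (nat_lit 166130090106) (.two (nat_lit 20638072836) (nat_lit 2994734412) (.two (nat_lit 2097152) (nat_lit 3531607514) (.one (nat_lit 4200852) .nil)))),
   .two (nat_lit 19596836879) (nat_lit 158144135283) (.two (nat_lit 156968681477) (nat_lit 840959018) (.two (nat_lit 605028353) (nat_lit 673189514) (.one (nat_lit 19597891541) .nil))),
   .two (nat_lit 9781116943) (nat_lit 47582281752) (.two (nat_lit 654311432) (nat_lit 4028629103) (.two (nat_lit 169869316) (nat_lit 158192371017) (.two (nat_lit 2097152) (nat_lit 1291849220) (.one (nat_lit 3525318594) .nil)))),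
   .two (nat_lit 176160783) (nat_lit 2923429955) (.two (nat_lit 8388613) (nat_lit 306184549) (.two (nat_lit 8388609) (nat_lit 11614031508) (.one (nat_lit 11014247469) .nil))),
   .two (nat_lit 809500687) (nat_lit 20638072875) (.two (nat_lit 4601151496) (nat_lit 166230753393) (.two (nat_lit 46409973765) (nat_lit 37247517355) (.two (nat_lit 4194305) (nat_lit 166197200188) (.two (nat_lit 4194304) (nat_lit 2100887) (.one (nat_lit 4200854) .nil))))),
   .two (nat_lit 75497487) (nat_lit 336593137) (.two (nat_lit 184986632197) (nat_lit 9969861242) (.two (nat_lit 156364701697) (nat_lit 1920994780) (.one (nat_lit 1384126765) .nil))),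
   .two (nat_lit 272629775) (nat_lit 9966714925) (.two (nat_lit 46980399112) (nat_lit 46977253502) (.two (nat_lit 12114198533) (nat_lit 1312817512) (.two (nat_lit 156364701697) (nat_lit 339742353) (.one (nat_lit 11546924902) .nil)))),
   .two (nat_lit 46984593423) (nat_lit 19530776591) (.two (nat_lit 10369368072) (nat_lit 3021996151) (.two (nat_lit 1276116996) (nat_lit 28093449551) (.two (nat_lit 1048576) (nat_lit 156969733762) (.one (nat_lit 1055127) .nil)))),
   .two (nat_lit 174686470184) (nat_lit 3472883738) (.two (nat_lit 10336862216) (nat_lit 10351542406) (.two (nat_lit 2902458372) (nat_lit 19027460454) (.two (nat_lit 2097153) (nat_lit 11022632280) (.two (nat_lit 8388608) (nat_lit 3458206228) (.one (nat_lit 2102475) .nil))))),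
   .two (nat_lit 8388623) (nat_lit 2969567296) (.two (nat_lit 184549380) (nat_lit 3464495461) (.two (nat_lit 16777217) (nat_lit 8390799) (.two (nat_lit 16777216) (nat_lit 46984597137) (.one (nat_lit 8395161) .nil)))),
   .two (nat_lit 12047089679) (nat_lit 1847590978) (.two (nat_lit 184986632197) (nat_lit 10940842850) (.two (nat_lit 1048576) (nat_lit 10907290112) (.one (nat_lit 2102476) .nil))),
   .two (nat_lit 37748751) (nat_lit 75497487) (.two (nat_lit 75497480) (nat_lit 11578376312) (.two (nat_lit 713031684) (nat_lit 11546919540) (.two (nat_lit 2097153) (nat_lit 158079124780) (.two (nat_lit 4194304) (nat_lit 9766440519) (.one (nat_lit 2103706) .nil))))),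
   .two (nat_lit 184549391) (nat_lit 19027460119) (.two (nat_lit 620757000) (nat_lit 19027460206) (.two (nat_lit 184549380) (nat_lit 4028630313) (.two (nat_lit 2097152) (nat_lit 16780834) (.one (nat_lit 1426069651) .nil)))),
   .two (nat_lit 2889875471) (nat_lit 3458203691) (.two (nat_lit 9768534024) (nat_lit 9967763573) (.two (nat_lit 2889875460) (nat_lit 47582282344) (.two (nat_lit 9766436865) (nat_lit 2420114761) (.two (nat_lit 2097152) (nat_lit 156535623274) (.one (nat_lit 4200859) .nil))))),
   .two (nat_lit 2889875471) (nat_lit 9948889103) (.two (nat_lit 620757000) (nat_lit 269484157) (.two (nat_lit 184549381) (nat_lit 156468511374) (.two (nat_lit 16777217) (nat_lit 1379927350) (.two (nat_lit 4194304) (nat_lit 638586462) (.one (nat_lit 46977258567) .nil))))),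
   .two (nat_lit 1358954511) (nat_lit 37246468211) (.two (nat_lit 739246085) (nat_lit 10385098022) (.two (nat_lit 1048576) (nat_lit 10385099313) (.one (nat_lit 285217884) .nil))),
   .two (nat_lit 16777231) (nat_lit 1343225871) (.two (nat_lit 285212680) (nat_lit 21811429488) (.two (nat_lit 50331653) (nat_lit 1376780897) (.two (nat_lit 50331649) (nat_lit 183845785130) (.one (nat_lit 1055133) .nil)))),
   .two (nat_lit 158176641048) (nat_lit 8388655) (.two (nat_lit 184993972232) (nat_lit 158176641134) (.two (nat_lit 158075977733) (nat_lit 142607689) (.two (nat_lit 1048576) (nat_lit 18933091844) (.one (nat_lit 3020953767) .nil)))),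
   .two (nat_lit 272629775) (nat_lit 11476664335) (.two (nat_lit 2887778312) (nat_lit 13224640623) (.two (nat_lit 2887778308) (nat_lit 809501328) (.two (nat_lit 37748737) (nat_lit 158176643152) (.two (nat_lit 4194304) (nat_lit 235933267) (.one (nat_lit 20705185695) .nil))))),
   .two (nat_lit 176160783) (nat_lit 2902458433) (.two (nat_lit 16777221) (nat_lit 46414168930) (.two (nat_lit 16777216) (nat_lit 10343156272) (.one (nat_lit 2365592595) .nil))),
   .two (nat_lit 285212687) (nat_lit 28693233730) (.two (nat_lit 1916796933) (nat_lit 1191182694) (.two (nat_lit 156367847425) (nat_lit 1191184483) (.two (nat_lit 4194304) (nat_lit 21827161750) (.one (nat_lit 4200862) .nil)))),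
   .two (nat_lit 8388623) (nat_lit 21777874959) (.two (nat_lit 41943048) (nat_lit 21811429488) (.two (nat_lit 713031685) (nat_lit 165525062326) (.two (nat_lit 41943041) (nat_lit 19529729330) (.two (nat_lit 8388608) (nat_lit 156968685001) (.one (nat_lit 1055135) .nil))))),
   .two (nat_lit 612368399) (nat_lit 183846830123) (.two (nat_lit 639631368) (nat_lit 46481277573) (.two (nat_lit 2097153) (nat_lit 880807435) (.one (nat_lit 4605350962) .nil))),
   .two (nat_lit 28690087951) (nat_lit 2994733099) (.two (nat_lit 12054429704) (nat_lit 19093520500) (.two (nat_lit 174752530437) (nat_lit 166203491629) (.two (nat_lit 1048576) (nat_lit 1417678340) (.one (nat_lit 1055136) .nil)))),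
   .two (nat_lit 809500687) (nat_lit 1779433736) (.two (nat_lit 11479810053) (nat_lit 772801127) (.two (nat_lit 4194305) (nat_lit 183845782904) (.two (nat_lit 4194304) (nat_lit 19596839462) (.one (nat_lit 4199629) .nil)))),
   .two (nat_lit 101711887) (nat_lit 18933088271) (.two (nat_lit 101711880) (nat_lit 183853121802) (.two (nat_lit 739246085) (nat_lit 156539814509) (.two (nat_lit 34603009) (nat_lit 4605347106) (.two (nat_lit 16777216) (nat_lit 11484006928) (.one (nat_lit 10443822088) .nil))))),
   .two (nat_lit 2889875471) (nat_lit 9766436879) (.two (nat_lit 203423752) (nat_lit 46980399239) (.two (nat_lit 2954887173) (nat_lit 310379170) (.two (nat_lit 2097153) (nat_lit 156367850996) (.one (nat_lit 159219979409) .nil)))),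
   .two (nat_lit 272629775) (nat_lit 12617515129) (.two (nat_lit 10503585797) (nat_lit 9802089852) (.two (nat_lit 8388608) (nat_lit 3524267919) .nil)),
   .two (nat_lit 46409973775) (nat_lit 19093520451) (.two (nat_lit 4601151493) (nat_lit 12617515366) (.two (nat_lit 156367847425) (nat_lit 185020188750) (.two (nat_lit 4194304) (nat_lit 2886733279) (.one (nat_lit 1054734) .nil)))),
   .two (nat_lit 101711887) (nat_lit 21785214991) (.two (nat_lit 12114198536) (nat_lit 19100861035) (.two (nat_lit 620756993) (nat_lit 183845784078) (.one (nat_lit 1054736) .nil))),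
   .two (nat_lit 1277165583) (nat_lit 2923429912) (.two (nat_lit 3527409672) (nat_lit 166230753391) (.two (nat_lit 10940841989) (nat_lit 20640170344) (.two (nat_lit 9766436865) (nat_lit 4634707234) (.two (nat_lit 2097152) (nat_lit 9902755412) (.one (nat_lit 3558872141) .nil))))),
   .two (nat_lit 218103823) (nat_lit 10504634383) (.two (nat_lit 10504634376) (nat_lit 218103874) (.two (nat_lit 2887778308) (nat_lit 654312290) (.two (nat_lit 2097152) (nat_lit 1761610243) (.one (nat_lit 11559507060) .nil)))),
   .two (nat_lit 176160783) (nat_lit 184986632207) (.two (nat_lit 159224168456) (nat_lit 185020186736) (.two (nat_lit 20644364293) (nat_lit 166129042782) (.two (nat_lit 8388608) (nat_lit 135269892) (.one (nat_lit 1055137) .nil)))),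
   .two (nat_lit 184549391) (nat_lit 158143086615) (.two (nat_lit 10369368072) (nat_lit 184431935607) (.two (nat_lit 16777221) (nat_lit 11610882692) (.two (nat_lit 8388609) (nat_lit 12620662148) (.two (nat_lit 8388608) (nat_lit 20640173571) (.one (nat_lit 1358959683) .nil))))),
   .two (nat_lit 1350565903) (nat_lit 3458203663) (.two (nat_lit 47548727304) (nat_lit 12054429831) (.two (nat_lit 46978301957) (nat_lit 13191086754) (.two (nat_lit 41943041) (nat_lit 270535181) (.one (nat_lit 174755682346) .nil)))),
   .two (nat_lit 1277165583) (nat_lit 46414168129) (.two (nat_lit 46414168068) (nat_lit 18926797159) (.two (nat_lit 606076929) (nat_lit 12624858732) (.one (nat_lit 270539114) .nil))),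
   .two (nat_lit 13195280399) (nat_lit 47582281752) (.two (nat_lit 822083596) (nat_lit 11544821884) (.two (nat_lit 754974725) (nat_lit 69206653) (.two (nat_lit 8388609) (nat_lit 2350911065) (.one (nat_lit 2102478) .nil)))),
   .two (nat_lit 41943055) (nat_lit 9881780334) (.two (nat_lit 620756997) (nat_lit 12054430562) (.two (nat_lit 16777216) (nat_lit 46514833941) (.one (nat_lit 8395172) .nil))),
   .two (nat_lit 46414168079) (nat_lit 21208498291) (.two (nat_lit 9934209029) (nat_lit 37253808829) (.two (nat_lit 606076929) (nat_lit 183853122896) (.two (nat_lit 16777216) (nat_lit 4028632645) (.one (nat_lit 4028635394) .nil)))),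
   .two (nat_lit 3028287511) (nat_lit 20704133166) (.two (nat_lit 9940500488) (nat_lit 1947205757) (.two (nat_lit 1782579205) (nat_lit 10000269674) (.two (nat_lit 34603009) (nat_lit 18928895362) (.two (nat_lit 8388608) (nat_lit 4631563689) (.one (nat_lit 1055141) .nil))))),
   .two (nat_lit 16777231) (nat_lit 156372041743) (.two (nat_lit 184549384) (nat_lit 746586240) (.two (nat_lit 47555018757) (nat_lit 3573548416) (.two (nat_lit 8388608) (nat_lit 1962937962) (.one (nat_lit 2894074991) .nil)))),
   .two (nat_lit 37748751) (nat_lit 1175453722) (.two (nat_lit 272629768) (nat_lit 304087177) (.two (nat_lit 1344274437) (nat_lit 1209008809) (.two (nat_lit 9766436865) (nat_lit 11614031493) (.one (nat_lit 2103718) .nil)))),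
   .two (nat_lit 20704133144) (nat_lit 13195280424) (.two (nat_lit 9866051592) (nat_lit 13195280499) (.two (nat_lit 184993972229) (nat_lit 28790752098) (.two (nat_lit 1048576) (nat_lit 343938181) .nil))),
   .two (nat_lit 9781116943) (nat_lit 47548727363) (.two (nat_lit 2902458372) (nat_lit 18926797471) (.two (nat_lit 2097153) (nat_lit 2332035197) (.two (nat_lit 8388608) (nat_lit 1310722587) (.one (nat_lit 2418021409) .nil)))),
   .two (nat_lit 169869327) (nat_lit 4605345807) (.two (nat_lit 276824072) (nat_lit 12062818441) (.two (nat_lit 8388612) (nat_lit 2432697384) (.two (nat_lit 16777217) (nat_lit 158176643206) (.two (nat_lit 8388608) (nat_lit 318771673) (.one (nat_lit 13203675515) .nil))))),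
   .two (nat_lit 16777231) (nat_lit 1847591027) (.two (nat_lit 639631365) (nat_lit 50332514) (.two (nat_lit 2097152) (nat_lit 158662135697) .nil)),
   .two (nat_lit 713031695) (nat_lit 9781116943) (.two (nat_lit 75497480) (nat_lit 183962173550) (.two (nat_lit 2902458373) (nat_lit 343933286) (.two (nat_lit 16777217) (nat_lit 41946636) (.one (nat_lit 50337707) .nil)))),
   .two (nat_lit 276824079) (nat_lit 285212687) (.two (nat_lit 2961178632) (nat_lit 28772925559) (.two (nat_lit 41943045) (nat_lit 10436477554) (.two (nat_lit 41943041) (nat_lit 11593058830) (.one (nat_lit 16783784) .nil)))),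
   .two (nat_lit 2969567247) (nat_lit 3531604086) (.two (nat_lit 8388612) (nat_lit 654311619) (.two (nat_lit 8388609) (nat_lit 2936014131) (.two (nat_lit 2097152) (nat_lit 46514833967) (.one (nat_lit 10016004474) .nil)))),
   .two (nat_lit 184993972239) (nat_lit 46978301967) (.two (nat_lit 3525312520) (nat_lit 158083317825) (.two (nat_lit 46407876612) (nat_lit 12054431010) (.two (nat_lit 8388608) (nat_lit 2100890) (.one (nat_lit 2103195) .nil)))),
   .two (nat_lit 75497487) (nat_lit 13224640637) (.two (nat_lit 713031684) (nat_lit 166132187494) (.two (nat_lit 4194305) (nat_lit 19033752880) (.two (nat_lit 4194304) (nat_lit 3531607635) (.one (nat_lit 813701019) .nil)))),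
   .two (nat_lit 8388623) (nat_lit 2902458383) (.two (nat_lit 713031688) (nat_lit 9948889341) (.two (nat_lit 16777221) (nat_lit 8388803) (.two (nat_lit 620756993) (nat_lit 10343157233) (.one (nat_lit 13187946700) .nil)))),
   .two (nat_lit 2902458383) (nat_lit 174752530475) (.two (nat_lit 739246088) (nat_lit 46422556804) (.two (nat_lit 8388613) (nat_lit 10335814260) (.two (nat_lit 612368385) (nat_lit 9966716204) (.two (nat_lit 8388608) (nat_lit 1052315) (.one (nat_lit 28101840785) .nil))))),
   .two (nat_lit 612368399) (nat_lit 806355071) (.two (nat_lit 75497477) (nat_lit 166196150630) (.two (nat_lit 8388609) (nat_lit 772802589) (.two (nat_lit 8388608) (nat_lit 1052316) (.one (nat_lit 2323649546) .nil)))),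
   .two (nat_lit 9934209039) (nat_lit 28086108175) (.two (nat_lit 165525061640) (nat_lit 158647451780) (.two (nat_lit 3458203653) (nat_lit 1049682) (.two (nat_lit 16777217) (nat_lit 270536134) (.one (nat_lit 304092193) .nil)))),
   .two (nat_lit 9768534031) (nat_lit 3464495128) (.two (nat_lit 104857608) (nat_lit 28790751344) (.two (nat_lit 171966469) (nat_lit 10007610211) (.two (nat_lit 8388608) (nat_lit 9798946282) (.one (nat_lit 1054622) .nil)))),
   .two (nat_lit 739246095) (nat_lit 1212153902) (.two (nat_lit 28086108173) (nat_lit 2889875522) (.two (nat_lit 12114198533) (nat_lit 2319450471) (.two (nat_lit 16777217) (nat_lit 46977254699) (.two (nat_lit 16777216) (nat_lit 608176658) (.one (nat_lit 4200873) .nil))))),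
   .two (nat_lit 9948889103) (nat_lit 2418016388) (.two (nat_lit 806354949) (nat_lit 754975333) (.two (nat_lit 9765388289) (nat_lit 16779299) (.two (nat_lit 2097152) (nat_lit 285216194) (.one (nat_lit 35657558) .nil)))),
   .two (nat_lit 754974735) (nat_lit 46473937256) (.two (nat_lit 34603009) (nat_lit 620758305) (.two (nat_lit 1048576) (nat_lit 1358958150) (.one (nat_lit 1055146) .nil))),
   .two (nat_lit 813694991) (nat_lit 2316304426) (.two (nat_lit 8388616) (nat_lit 337641587) (.two (nat_lit 708837381) (nat_lit 183845782158) (.two (nat_lit 37748737) (nat_lit 10437529050) (.one (nat_lit 2103723) .nil)))),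
   .two (nat_lit 18928893967) (nat_lit 9781116952) (.two (nat_lit 218103816) (nat_lit 166232850551) (.two (nat_lit 2902458373) (nat_lit 37749436) (.two (nat_lit 16777217) (nat_lit 37750836) (.two (nat_lit 2097152) (nat_lit 50335376) (.one (nat_lit 4200876) .nil))))),
   .two (nat_lit 21777874959) (nat_lit 20705181812) (.two (nat_lit 158075977733) (nat_lit 47548727958) (.two (nat_lit 50331649) (nat_lit 46407880334) (.one (nat_lit 1325406597) .nil))),
   .two (nat_lit 184549391) (nat_lit 166130089999) (.two (nat_lit 9948889096) (nat_lit 166130090050) (.two (nat_lit 10504634373) (nat_lit 218105127) (.two (nat_lit 2097152) (nat_lit 285216226) (.one (nat_lit 35658405) .nil)))),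
   .two (nat_lit 184549391) (nat_lit 156372041923) (.two (nat_lit 8388609) (nat_lit 822084897) (.two (nat_lit 8388608) (nat_lit 754978374) (.one (nat_lit 47555025136) .nil))),
   .two (nat_lit 813694991) (nat_lit 11492392975) (.two (nat_lit 203423752) (nat_lit 1224736891) (.two (nat_lit 9881780229) (nat_lit 10504634725) (.two (nat_lit 8388609) (nat_lit 11477714263) (.two (nat_lit 16777216) (nat_lit 4638902807) (.one (nat_lit 16783789) .nil))))),
   .two (nat_lit 101711887) (nat_lit 12054429711) (.two (nat_lit 1276117000) (nat_lit 184993972337) (.two (nat_lit 605028357) (nat_lit 1417676070) (.two (nat_lit 1048576) (nat_lit 46514833955) (.one (nat_lit 1055150) .nil)))),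
   .two (nat_lit 2902458383) (nat_lit 847249450) (.two (nat_lit 10369368072) (nat_lit 2902458434) (.two (nat_lit 176160773) (nat_lit 10552869228) (.two (nat_lit 605028353) (nat_lit 41944428) (.two (nat_lit 2097152) (nat_lit 1392512475) (.one (nat_lit 1055151) .nil))))),
   .two (nat_lit 50331663) (nat_lit 28093448207) (.two (nat_lit 4613734408) (nat_lit 243269752) (.two (nat_lit 10343153669) (nat_lit 11559502181) (.two (nat_lit 612368385) (nat_lit 822084893) (.two (nat_lit 1048576) (nat_lit 1929383350) (.one (nat_lit 16783794) .nil))))),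
   .two (nat_lit 2954887183) (nat_lit 156372041743) (.two (nat_lit 606076936) (nat_lit 4605345987) (.two (nat_lit 37748737) (nat_lit 20738738715) (.one (nat_lit 2103731) .nil))),
   .two (nat_lit 184549391) (nat_lit 11543773251) (.two (nat_lit 184549380) (nat_lit 21811429734) (.two (nat_lit 620756993) (nat_lit 873465992) (.two (nat_lit 16777216) (nat_lit 1745882774) (.one (nat_lit 1055156) .nil)))),
   .two (nat_lit 1277165583) (nat_lit 772800536) (.two (nat_lit 12114198536) (nat_lit 159251431537) (.two (nat_lit 1913651205) (nat_lit 9967764062) (.two (nat_lit 9765388289) (nat_lit 706743804) (.one (nat_lit 2350913485) .nil)))),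
   .two (nat_lit 721420303) (nat_lit 303038739) (.two (nat_lit 721420292) (nat_lit 156532474941) (.two (nat_lit 2097153) (nat_lit 21223181784) (.one (nat_lit 2103733) .nil))),
   .two (nat_lit 101711887) (nat_lit 184993972239) (.two (nat_lit 12114198536) (nat_lit 21785215086) (.two (nat_lit 184416206853) (nat_lit 11618222686) (.two (nat_lit 34603009) (nat_lit 11618223394) (.two (nat_lit 1048576) (nat_lit 612372014) (.one (nat_lit 873469039) .nil))))),
   .two (nat_lit 9881780239) (nat_lit 19596836879) (.two (nat_lit 19596836872) (nat_lit 158192369730) (.two (nat_lit 183845781508) (nat_lit 2365588827) (.two (nat_lit 1048576) (nat_lit 10955527234) .nil))),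
   .two (nat_lit 8388623) (nat_lit 10385096719) (.two (nat_lit 10385096712) (nat_lit 8388674) (.two (nat_lit 1291845636) (nat_lit 343933794) (.two (nat_lit 16777216) (nat_lit 3028290048) (.one (nat_lit 8395190) .nil)))),
   .two (nat_lit 272629775) (nat_lit 13195280493) (.two (nat_lit 4194308) (nat_lit 880804446) (.two (nat_lit 156367847425) (nat_lit 4638901580) (.two (nat_lit 4194304) (nat_lit 8392349) (.one (nat_lit 8395191) .nil)))),
   .two (nat_lit 739246095) (nat_lit 21208498191) (.two (nat_lit 101711880) (nat_lit 28758245619) (.two (nat_lit 1779433477) (nat_lit 166230753883) (.two (nat_lit 9765388289) (nat_lit 10538190113) (.two (nat_lit 2097152) (nat_lit 1175457269) (.one (nat_lit 9765394266) .nil))))),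
   .two (nat_lit 721420303) (nat_lit 157035790361) (.two (nat_lit 822083592) (nat_lit 158143086721) (.two (nat_lit 721420292) (nat_lit 772800870) (.two (nat_lit 50331649) (nat_lit 168822911) (.two (nat_lit 1048576) (nat_lit 20719864335) (.one (nat_lit 185020192653) .nil))))),
   .two (nat_lit 272629775) (nat_lit 2954887194) (.two (nat_lit 205520904) (nat_lit 159251431532) (.two (nat_lit 270532613) (nat_lit 13224640707) (.two (nat_lit 34603009) (nat_lit 10909386038) (.two (nat_lit 1048576) (nat_lit 203427387) (.one (nat_lit 1055160) .nil))))),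
   .two (nat_lit 8388623) (nat_lit 3458203663) (.two (nat_lit 612368392) (nat_lit 10504634488) (.two (nat_lit 47548727301) (nat_lit 612368579) (.two (nat_lit 9768534017) (nat_lit 20711474526) (.two (nat_lit 4194304) (nat_lit 20705184264) (.one (nat_lit 8395193) .nil))))),
   .two (nat_lit 159217877007) (nat_lit 638582920) (.two (nat_lit 28690087941) (nat_lit 20707280181) (.two (nat_lit 2097152) (nat_lit 1312819722) (.one (nat_lit 21207454892) .nil))),
   .two (nat_lit 11479810063) (nat_lit 156372041841) (.two (nat_lit 809500677) (nat_lit 46414168680) (.two (nat_lit 37748737) (nat_lit 46414169386) (.two (nat_lit 16777216) (nat_lit 166232855575) .nil))),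
   .two (nat_lit 1745879055) (nat_lit 166130089999) (.two (nat_lit 166130089992) (nat_lit 28690088056) (.two (nat_lit 174753579013) (nat_lit 2416968037) (.two (nat_lit 34603009) (nat_lit 158144137245) (.two (nat_lit 1048576) (nat_lit 184987684508) (.one (nat_lit 13187945573) .nil))))),
   .two (nat_lit 11479810063) (nat_lit 20704133162) (.two (nat_lit 813694984) (nat_lit 1346371707) (.two (nat_lit 1343225861) (nat_lit 840958313) (.two (nat_lit 37748737) (nat_lit 772802601) (.two (nat_lit 1048576) (nat_lit 337645107) (.one (nat_lit 2103739) .nil))))),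
   .two (nat_lit 50331663) (nat_lit 156968681737) (.two (nat_lit 721420293) (nat_lit 4598006860) (.two (nat_lit 2097153) (nat_lit 2886731077) (.two (nat_lit 2097152) (nat_lit 12633247194) (.one (nat_lit 16783804) .nil)))),
   .two (nat_lit 50331663) (nat_lit 158083317783) (.two (nat_lit 20644364296) (nat_lit 28101837479) (.two (nat_lit 612368385) (nat_lit 11559503141) (.two (nat_lit 2097152) (nat_lit 47588576798) (.one (nat_lit 2927630401) .nil)))),
   .two (nat_lit 2961178639) (nat_lit 11614027893) (.two (nat_lit 169869316) (nat_lit 1209008487) (.two (nat_lit 8388609) (nat_lit 1050768) (.two (nat_lit 8388608) (nat_lit 304091594) (.one (nat_lit 2103741) .nil)))),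
   .two (nat_lit 218103823) (nat_lit 13191086095) (.two (nat_lit 285212680) (nat_lit 4601151554) (.two (nat_lit 4194308) (nat_lit 10452205927) (.two (nat_lit 4194305) (nat_lit 10016001480) (.one (nat_lit 16783806) .nil)))),
   .two (nat_lit 639631375) (nat_lit 20704133144) (.two (nat_lit 9866051592) (nat_lit 10538188912) (.two (nat_lit 1276116996) (nat_lit 673186496) (.two (nat_lit 9765388289) (nat_lit 1176503655) (.two (nat_lit 16777216) (nat_lit 28087160723) .nil)))),
   .two (nat_lit 10370416655) (nat_lit 46414168087) (.two (nat_lit 47555018760) (nat_lit 10538188916) (.two (nat_lit 1277165572) (nat_lit 343933540) (.two (nat_lit 606076929) (nat_lit 343935487) (.one (nat_lit 47582286925) .nil)))),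
   .two (nat_lit 272629775) (nat_lit 12114198594) (.two (nat_lit 4194308) (nat_lit 183912890969) (.two (nat_lit 4194305) (nat_lit 166229706106) (.two (nat_lit 4194304) (nat_lit 185020189182) (.one (nat_lit 1055167) .nil)))),
   .two (nat_lit 159224168463) (nat_lit 2416967817) (.two (nat_lit 1745879045) (nat_lit 156539814606) (.two (nat_lit 4194305) (nat_lit 157035791695) (.two (nat_lit 4194304) (nat_lit 20737691213) (.one (nat_lit 10007615383) .nil)))),
   .two (nat_lit 21785214991) (nat_lit 1846542403) (.two (nat_lit 9781116933) (nat_lit 19134415465) (.two (nat_lit 50331649) (nat_lit 873466377) (.one (nat_lit 2886734866) .nil))),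
   .two (nat_lit 183853121551) (nat_lit 3036676121) (.two (nat_lit 1753219080) (nat_lit 654311545) (.two (nat_lit 16777221) (nat_lit 780141257) (.two (nat_lit 41943041) (nat_lit 4613735772) (.two (nat_lit 4194304) (nat_lit 3028291492) .nil)))),
   .two (nat_lit 101711887) (nat_lit 158647451673) (.two (nat_lit 47548727304) (nat_lit 183912890489) (.two (nat_lit 1277165572) (nat_lit 19026412230) (.two (nat_lit 16777217) (nat_lit 639632926) (.one (nat_lit 2987397008) .nil)))),
   .two (nat_lit 713031695) (nat_lit 1358954511) (.two (nat_lit 1358954504) (nat_lit 11618222146) (.two (nat_lit 721420292) (nat_lit 1417675618) (.two (nat_lit 16777216) (nat_lit 10443820940) .nil))),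
   .two (nat_lit 2887778319) (nat_lit 46984593530) (.two (nat_lit 34603013) (nat_lit 9906946728) (.two (nat_lit 2097153) (nat_lit 1947209172) (.one (nat_lit 2103746) .nil))),
   .two (nat_lit 272629775) (nat_lit 3464495214) (.two (nat_lit 4194308) (nat_lit 47555018947) (.two (nat_lit 4194305) (nat_lit 612369724) (.two (nat_lit 8388608) (nat_lit 675287564) (.one (nat_lit 4200899) .nil)))),
   .two (nat_lit 158143086607) (nat_lit 12050235418) (.two (nat_lit 11479810056) (nat_lit 158646403139) (.two (nat_lit 11479810052) (nat_lit 336593256) (.two (nat_lit 37748737) (nat_lit 101713230) (.two (nat_lit 1048576) (nat_lit 156971830854) (.one (nat_lit 1055172) .nil))))),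
   .two (nat_lit 10336862223) (nat_lit 10942939151) (.two (nat_lit 11492392968) (nat_lit 165526110329) (.two (nat_lit 69206021) (nat_lit 2432696950) (.two (nat_lit 37748737) (nat_lit 12618564997) (.two (nat_lit 4194304) (nat_lit 9948893683) (.one (nat_lit 2103749) .nil))))),
   .two (nat_lit 176160783) (nat_lit 2097280) (.two (nat_lit 176160772) (nat_lit 1411383655) (.two (nat_lit 156365750273) (nat_lit 880805154) (.two (nat_lit 8388608) (nat_lit 2101805) (.one (nat_lit 2103750) .nil)))),
   .two (nat_lit 11492392975) (nat_lit 10939793423) (.two (nat_lit 117440520) (nat_lit 37246468208) (.two (nat_lit 174752530437) (nat_lit 20652753255) (.two (nat_lit 9765388289) (nat_lit 21793607118) (.one (nat_lit 1191187578) .nil)))),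
   .two (nat_lit 16777231) (nat_lit 18933088271) (.two (nat_lit 1191182344) (nat_lit 1376780355) (.two (nat_lit 11492392964) (nat_lit 772800870) (.two (nat_lit 41943041) (nat_lit 37329306934) (.two (nat_lit 8388608) (nat_lit 183928622727) (.one (nat_lit 13187946855) .nil))))),
   .two (nat_lit 2902458383) (nat_lit 19599982705) (.two (nat_lit 19599982597) (nat_lit 83887500) (.two (nat_lit 4194304) (nat_lit 16782534) .nil)),
   .two (nat_lit 9768534031) (nat_lit 1291845699) (.two (nat_lit 16777221) (nat_lit 10506731877) (.two (nat_lit 4194305) (nat_lit 2432698482) (.two (nat_lit 2097152) (nat_lit 183861515302) .nil))),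
   .two (nat_lit 165532401679) (nat_lit 3525312576) (.two (nat_lit 46407876612) (nat_lit 46414168422) (.two (nat_lit 2097153) (nat_lit 1182795903) (.two (nat_lit 4194304) (nat_lit 1948257839) (.one (nat_lit 2103752) .nil)))),
   .two (nat_lit 2954887183) (nat_lit 21785215085) (.two (nat_lit 169869316) (nat_lit 11618222947) (.two (nat_lit 2097152) (nat_lit 8392350) (.one (nat_lit 2103753) .nil))),
   .two (nat_lit 2969567247) (nat_lit 174686470254) (.two (nat_lit 2887778308) (nat_lit 2902458981) (.two (nat_lit 2097153) (nat_lit 218107453) (.one (nat_lit 102766468) .nil))),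
   .two (nat_lit 46409973775) (nat_lit 9967763498) (.two (nat_lit 2954887176) (nat_lit 183949590646) (.two (nat_lit 2097157) (nat_lit 239075692) (.two (nat_lit 2097153) (nat_lit 10003416421) (.two (nat_lit 1048576) (nat_lit 28087159319) (.one (nat_lit 183913944022) .nil))))),
   .two (nat_lit 4601151503) (nat_lit 19530776591) (.two (nat_lit 4601151496) (nat_lit 270532856) (.two (nat_lit 272629765) (nat_lit 13188990034) (.two (nat_lit 41943041) (nat_lit 1210059306) (.one (nat_lit 4200907) .nil)))),
   .two (nat_lit 8388623) (nat_lit 4030726168) (.two (nat_lit 205520904) (nat_lit 4605345858) (.two (nat_lit 41943045) (nat_lit 303038823) (.two (nat_lit 41943041) (nat_lit 10369370193) (.two (nat_lit 1048576) (nat_lit 4605349493) (.one (nat_lit 4200908) .nil))))),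
   .two (nat_lit 47548727311) (nat_lit 1745879065) (.two (nat_lit 2954887176) (nat_lit 21777875079) (.two (nat_lit 9934209029) (nat_lit 2316305024) (.two (nat_lit 41943041) (nat_lit 21777876510) (.one (nat_lit 12618567568) .nil)))),
   .two (nat_lit 713031695) (nat_lit 156968681487) (.two (nat_lit 75497480) (nat_lit 28690088002) (.two (nat_lit 713031684) (nat_lit 10000269671) (.two (nat_lit 37748737) (nat_lit 10343157233) (.one (nat_lit 1055181) .nil)))),
   .two (nat_lit 21785214991) (nat_lit 28757196815) (.two (nat_lit 11551113224) (nat_lit 1913651332) (.two (nat_lit 1343225861) (nat_lit 1317012115) (.two (nat_lit 9766436865) (nat_lit 336593764) (.two (nat_lit 2097152) (nat_lit 1053234) (.one (nat_lit 1055182) .nil))))),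
   .two (nat_lit 203423759) (nat_lit 156566028416) (.two (nat_lit 2887778308) (nat_lit 12147754380) (.two (nat_lit 2097152) (nat_lit 11577332857) .nil)),
   .two (nat_lit 50331663) (nat_lit 9934209039) (.two (nat_lit 2902458376) (nat_lit 2988442200) (.two (nat_lit 2097153) (nat_lit 1795165687) (.one (nat_lit 16783823) .nil))),
   .two (nat_lit 1277165583) (nat_lit 184416206863) (.two (nat_lit 12047089672) (nat_lit 3558867187) (.two (nat_lit 184986632197) (nat_lit 46474986075) (.two (nat_lit 156364701697) (nat_lit 47582284286) (.one (nat_lit 46508545055) .nil)))),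
   .two (nat_lit 9781116943) (nat_lit 1410334746) (.two (nat_lit 218103816) (nat_lit 21208498302) (.two (nat_lit 11492392964) (nat_lit 1779434177) (.two (nat_lit 2097153) (nat_lit 156548204636) (.two (nat_lit 2097152) (nat_lit 1426066901) (.one (nat_lit 156533527550) .nil))))),
   .two (nat_lit 8388623) (nat_lit 28790751276) (.two (nat_lit 3527409672) (nat_lit 343933292) (.two (nat_lit 4194305) (nat_lit 159217878404) (.two (nat_lit 2097152) (nat_lit 605032036) (.one (nat_lit 1055184) .nil)))),
   .two (nat_lit 285212687) (nat_lit 101711887) (.two (nat_lit 50331656) (nat_lit 11610882294) (.two (nat_lit 721420293) (nat_lit 19093520741) (.two (nat_lit 2097153) (nat_lit 10385098094) (.two (nat_lit 2097152) (nat_lit 185035917838) (.one (nat_lit 12048143394) .nil))))),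
   .two (nat_lit 16777231) (nat_lit 708837401) (.two (nat_lit 822083592) (nat_lit 4601151552) (.two (nat_lit 4194308) (nat_lit 50331843) (.two (nat_lit 4194305) (nat_lit 1426064720) (.two (nat_lit 8388608) (nat_lit 1346376691) .nil)))),
   .two (nat_lit 4601151503) (nat_lit 184993972239) (.two (nat_lit 184993972232) (nat_lit 2923430001) (.two (nat_lit 12054429701) (nat_lit 9802089064) (.two (nat_lit 41943041) (nat_lit 9802089770) (.two (nat_lit 8388608) (nat_lit 13191089587) (.one (nat_lit 158150431767) .nil))))),
   .two (nat_lit 156372041743) (nat_lit 156569174131) (.two (nat_lit 809500677) (nat_lit 10343154530) (.two (nat_lit 4194304) (nat_lit 10343155229) (.one (nat_lit 8393937) .nil))),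
   .two (nat_lit 83886095) (nat_lit 2889875523) (.two (nat_lit 620756997) (nat_lit 708838759) (.two (nat_lit 16777216) (nat_lit 1413484028) (.one (nat_lit 4200915) .nil))),
   .two (nat_lit 10506731535) (nat_lit 9967763571) (.two (nat_lit 10336862213) (nat_lit 46510637923) (.two (nat_lit 2097152) (nat_lit 46510638622) (.one (nat_lit 9768539333) .nil))),
   .two (nat_lit 1178599439) (nat_lit 10343153679) (.two (nat_lit 3464495112) (nat_lit 12117344322) (.two (nat_lit 46414168068) (nat_lit 1916797285) (.two (nat_lit 8388609) (nat_lit 10338960697) (.two (nat_lit 4194304) (nat_lit 209718732) (.one (nat_lit 343939491) .nil))))),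
   .two (nat_lit 11559501839) (nat_lit 183912890393) (.two (nat_lit 1795162120) (nat_lit 136315012) (.two (nat_lit 1291845637) (nat_lit 10504635714) (.two (nat_lit 1048576) (nat_lit 1358956062) (.one (nat_lit 2954893181) .nil)))),
   .two (nat_lit 2954887183) (nat_lit 3464495145) (.two (nat_lit 606076936) (nat_lit 343933285) (.two (nat_lit 41943041) (nat_lit 156533524550) (.two (nat_lit 4194304) (nat_lit 19027463689) (.one (nat_lit 8395221) .nil)))),
   .two (nat_lit 8388623) (nat_lit 3458203663) (.two (nat_lit 9940500488) (nat_lit 159251431782) (.two (nat_lit 612368385) (nat_lit 12148803711) (.two (nat_lit 4194304) (nat_lit 20705184264) (.one (nat_lit 8395223) .nil)))),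
   .two (nat_lit 10343153679) (nat_lit 3525312527) (.two (nat_lit 46407876616) (nat_lit 166203490435) (.two (nat_lit 4599054341) (nat_lit 184423547531) (.two (nat_lit 156365750273) (nat_lit 10335814969) (.two (nat_lit 1048576) (nat_lit 10370419239) (.one (nat_lit 874518446) .nil))))),
   .two (nat_lit 41943055) (nat_lit 3539992618) (.two (nat_lit 41943048) (nat_lit 11626610953) (.two (nat_lit 2902458372) (nat_lit 184993972830) (.two (nat_lit 16777217) (nat_lit 184993974783) (.one (nat_lit 8395224) .nil)))),
   .two (nat_lit 739246095) (nat_lit 166132187249) (.two (nat_lit 11476664324) (nat_lit 156569174882) (.two (nat_lit 1048576) (nat_lit 174755678741) (.one (nat_lit 1782584404) .nil))),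
   .two (nat_lit 3458203663) (nat_lit 28693233731) (.two (nat_lit 46407876612) (nat_lit 19599982950) (.two (nat_lit 2097153) (nat_lit 28760343938) (.two (nat_lit 2097152) (nat_lit 9969864163) (.one (nat_lit 2103769) .nil)))),
   .two (nat_lit 184993972239) (nat_lit 1913651215) (.two (nat_lit 1913651208) (nat_lit 19537068151) (.two (nat_lit 28690087941) (nat_lit 3565159268) (.two (nat_lit 4194304) (nat_lit 174759875540) .nil))),
   .two (nat_lit 46407876623) (nat_lit 13191086095) (.two (nat_lit 272629768) (nat_lit 1276117118) (.two (nat_lit 9765388293) (nat_lit 47548727654) (.two (nat_lit 8388609) (nat_lit 20707281451) (.one (nat_lit 4199634) .nil)))),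
   .two (nat_lit 1291845647) (nat_lit 21208498241) (.two (nat_lit 1277165573) (nat_lit 1358954691) (.two (nat_lit 2097153) (nat_lit 855640591) (.one (nat_lit 16783834) .nil))),
   .two (nat_lit 2954887183) (nat_lit 12047089784) (.two (nat_lit 203423749) (nat_lit 2316304741) (.two (nat_lit 606076929) (nat_lit 158176643610) (.one (nat_lit 1055195) .nil))),
   .two (nat_lit 612368399) (nat_lit 158179786854) (.two (nat_lit 159224168456) (nat_lit 183949590665) (.two (nat_lit 176160772) (nat_lit 4195412) (.two (nat_lit 8388609) (nat_lit 10338961952) (.one (nat_lit 138416039) .nil)))),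
   .two (nat_lit 2902458383) (nat_lit 158647451714) (.two (nat_lit 218103813) (nat_lit 1344275842) (.two (nat_lit 2097152) (nat_lit 3573550574) (.one (nat_lit 2103772) .nil))),
   .two (nat_lit 9768534031) (nat_lit 1291845697) (.two (nat_lit 9781116933) (nat_lit 10506731715) (.two (nat_lit 4194305) (nat_lit 11525949524) (.two (nat_lit 16777216) (nat_lit 2353008230) (.one (nat_lit 16783837) .nil)))),
   .two (nat_lit 184549391) (nat_lit 11543773199) (.two (nat_lit 11543773192) (nat_lit 16777353) (.two (nat_lit 166144770053) (nat_lit 11577328482) (.two (nat_lit 8388608) (nat_lit 11577329181) (.one (nat_lit 1055199) .nil)))),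
   .two (nat_lit 9881780239) (nat_lit 3565158536) (.two (nat_lit 8388613) (nat_lit 2990539112) (.two (nat_lit 8388609) (nat_lit 205522228) (.two (nat_lit 16777216) (nat_lit 11479813734) (.one (nat_lit 4200928) .nil)))),
   .two (nat_lit 16777231) (nat_lit 28757196815) (.two (nat_lit 13203669000) (nat_lit 20704133186) (.two (nat_lit 1795162117) (nat_lit 37313577155) (.two (nat_lit 50331649) (nat_lit 46507492656) (.two (nat_lit 2097152) (nat_lit 1913653776) (.one (nat_lit 1055201) .nil))))),
   .two (nat_lit 75497487) (nat_lit 20637024271) (.two (nat_lit 3460300808) (nat_lit 1417674864) (.two (nat_lit 158143086597) (nat_lit 205521560) (.two (nat_lit 41943041) (nat_lit 183949591850) (.two (nat_lit 1048576) (nat_lit 13224644240) (.one (nat_lit 4200930) .nil))))),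
   .two (nat_lit 721420303) (nat_lit 10939793423) (.two (nat_lit 156968681480) (nat_lit 28806479992) (.two (nat_lit 166129041412) (nat_lit 83886437) (.two (nat_lit 9765388289) (nat_lit 12129929743) (.one (nat_lit 16783843) .nil)))),
   .two (nat_lit 83886095) (nat_lit 1276117007) (.two (nat_lit 205520904) (nat_lit 46489665655) (.two (nat_lit 620756997) (nat_lit 156971827819) (.two (nat_lit 50331649) (nat_lit 20707280182) (.two (nat_lit 1048576) (nat_lit 12129929742) (.one (nat_lit 50338135) .nil))))),
   .two (nat_lit 1358954511) (nat_lit 20704133187) (.two (nat_lit 158143086597) (nat_lit 10015999360) (.two (nat_lit 1048576) (nat_lit 1224741843) .nil)),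
   .two (nat_lit 713031695) (nat_lit 806355205) (.two (nat_lit 12114198533) (nat_lit 37316723048) (.two (nat_lit 34603009) (nat_lit 37253809453) (.two (nat_lit 1048576) (nat_lit 9869200865) (.one (nat_lit 1055204) .nil)))),
   .two (nat_lit 11559501839) (nat_lit 4601151503) (.two (nat_lit 4601151496) (nat_lit 11559502181) (.two (nat_lit 37748737) (nat_lit 4043310454) (.two (nat_lit 4194304) (nat_lit 19545460187) (.one (nat_lit 13224646677) .nil)))),
   .two (nat_lit 285212687) (nat_lit 9902751882) (.two (nat_lit 2902458372) (nat_lit 159217877642) (.two (nat_lit 4194305) (nat_lit 706742306) (.two (nat_lit 4194304) (nat_lit 2101815) (.one (nat_lit 2103781) .nil)))),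
   .two (nat_lit 8388623) (nat_lit 606076943) (.two (nat_lit 9940500488) (nat_lit 47582281837) (.two (nat_lit 176160772) (nat_lit 1176502909) (.two (nat_lit 37748737) (nat_lit 270536331) (.one (nat_lit 1346376753) .nil)))),
   .two (nat_lit 4613734415) (nat_lit 10506731715) (.two (nat_lit 16777217) (nat_lit 183848928599) (.two (nat_lit 1048576) (nat_lit 4647291406) (.one (nat_lit 1055206) .nil))),
   .two (nat_lit 11479810063) (nat_lit 1753219087) (.two (nat_lit 19604176904) (nat_lit 10909384831) (.two (nat_lit 28693233669) (nat_lit 10510926931) (.two (nat_lit 37748737) (nat_lit 13228836992) (.two (nat_lit 16777216) (nat_lit 46510639643) (.one (nat_lit 28760347681) .nil))))),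
   .two (nat_lit 8388623) (nat_lit 28791800065) (.two (nat_lit 47555018757) (nat_lit 159251432037) (.two (nat_lit 8388609) (nat_lit 28791803436) (.one (nat_lit 28798097414) .nil))),
   .two (nat_lit 11559501839) (nat_lit 12114198592) (.two (nat_lit 739246085) (nat_lit 2332033384) (.two (nat_lit 605028353) (nat_lit 19142807165) (.one (nat_lit 10537145385) .nil))),
   .two (nat_lit 16777231) (nat_lit 203423811) (.two (nat_lit 184549381) (nat_lit 159251432291) (.two (nat_lit 16777216) (nat_lit 9900657198) (.one (nat_lit 2103783) .nil))),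
   .two (nat_lit 47548727311) (nat_lit 183853121560) (.two (nat_lit 12054429704) (nat_lit 47548727362) (.two (nat_lit 183853121540) (nat_lit 2988442467) (.two (nat_lit 8388608) (nat_lit 2988444161) (.one (nat_lit 2103784) .nil)))),
   .two (nat_lit 1191182351) (nat_lit 641728527) (.two (nat_lit 176160776) (nat_lit 3573547690) (.two (nat_lit 50331649) (nat_lit 8390805) (.two (nat_lit 8388608) (nat_lit 21793607194) (.one (nat_lit 687871178) .nil)))),
   .two (nat_lit 11559501839) (nat_lit 19026411543) (.two (nat_lit 1846542344) (nat_lit 1358954691) (.two (nat_lit 9765388289) (nat_lit 117443071) (.one (nat_lit 9933165624) .nil))),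
   .two (nat_lit 9881780239) (nat_lit 3458203663) (.two (nat_lit 10385096712) (nat_lit 236978242) (.two (nat_lit 47548727301) (nat_lit 28772926112) (.two (nat_lit 2097153) (nat_lit 19142806054) (.one (nat_lit 16783850) .nil)))),
   .two (nat_lit 639631375) (nat_lit 68157567) (.two (nat_lit 10370416645) (nat_lit 11510219413) (.two (nat_lit 2097153) (nat_lit 1050774) (.two (nat_lit 1048576) (nat_lit 2101819) (.one (nat_lit 1055211) .nil)))),
   .two (nat_lit 41943055) (nat_lit 10506731535) (.two (nat_lit 10506731528) (nat_lit 880803977) (.two (nat_lit 1178599429) (nat_lit 158150427281) (.two (nat_lit 4194305) (nat_lit 3028289054) (.one (nat_lit 8395244) .nil)))),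
   .two (nat_lit 183848927247) (nat_lit 174752530447) (.two (nat_lit 183848927240) (nat_lit 68157686) (.two (nat_lit 184989777925) (nat_lit 2316304741) (.two (nat_lit 605028353) (nat_lit 46980401222) (.two (nat_lit 1048576) (nat_lit 46477087173) (.one (nat_lit 156971833481) .nil))))),
   .two (nat_lit 47555018767) (nat_lit 1847590927) (.two (nat_lit 1847590920) (nat_lit 3464495171) (.two (nat_lit 166130089988) (nat_lit 165532402022) (.two (nat_lit 156365750273) (nat_lit 165532402982) (.two (nat_lit 2097152) (nat_lit 9806287918) .nil)))),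
   .two (nat_lit 1779433487) (nat_lit 159217877007) (.two (nat_lit 10369368072) (nat_lit 20705181828) (.two (nat_lit 4605345797) (nat_lit 3020948108) (.two (nat_lit 606076929) (nat_lit 19596838231) (.two (nat_lit 8388608) (nat_lit 673188379) (.one (nat_lit 4632613921) .nil))))),
   .two (nat_lit 713031695) (nat_lit 285212736) (.two (nat_lit 16777220) (nat_lit 37253809494) (.two (nat_lit 16777216) (nat_lit 310382024) (.one (nat_lit 13203674181) .nil))),
   .two (nat_lit 2889875471) (nat_lit 270532654) (.two (nat_lit 9768534024) (nat_lit 2988441839) (.two (nat_lit 2889875460) (nat_lit 47582282086) (.two (nat_lit 4194305) (nat_lit 10437526862) (.two (nat_lit 2097152) (nat_lit 272633367) (.one (nat_lit 184417259407) .nil))))),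
   .two (nat_lit 4601151503) (nat_lit 1846542351) (.two (nat_lit 37748744) (nat_lit 10436476994) (.two (nat_lit 166129041412) (nat_lit 11479810768) (.two (nat_lit 37748737) (nat_lit 37313578526) (.one (nat_lit 158143091901) .nil)))),
   .two (nat_lit 176160783) (nat_lit 12617515032) (.two (nat_lit 12047089672) (nat_lit 47555018862) (.two (nat_lit 20644364292) (nat_lit 1947206499) (.two (nat_lit 8388608) (nat_lit 174752533022) (.one (nat_lit 1055215) .nil)))),
   .two (nat_lit 721420303) (nat_lit 174752530447) (.two (nat_lit 1358954504) (nat_lit 37313577069) (.two (nat_lit 1745879045) (nat_lit 1761608040) (.two (nat_lit 605028353) (nat_lit 183928622542) (.one (nat_lit 855643109) .nil)))),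
   .two (nat_lit 1277165583) (nat_lit 11559501889) (.two (nat_lit 721420293) (nat_lit 2921333097) (.two (nat_lit 16777217) (nat_lit 9799993871) (.one (nat_lit 2103792) .nil))),
   .two (nat_lit 272629775) (nat_lit 1913651215) (.two (nat_lit 809500680) (nat_lit 184416206983) (.two (nat_lit 28690087941) (nat_lit 19599983310) (.two (nat_lit 37748737) (nat_lit 165525062962) (.two (nat_lit 4194304) (nat_lit 19596839434) (.one (nat_lit 772805813) .nil))))),
   .two (nat_lit 19530776591) (nat_lit 158083317877) (.two (nat_lit 20644364293) (nat_lit 174686471011) (.two (nat_lit 2097152) (nat_lit 12121542256) (.one (nat_lit 20638079402) .nil))),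
   .two (nat_lit 50331663) (nat_lit 157038936079) (.two (nat_lit 285212680) (nat_lit 4194550) (.two (nat_lit 46409973764) (nat_lit 1358955099) (.two (nat_lit 4194305) (nat_lit 620759550) (.one (nat_lit 9982448671) .nil)))),
   .two (nat_lit 176160783) (nat_lit 21208498243) (.two (nat_lit 176160772) (nat_lit 28758245733) (.two (nat_lit 8388609) (nat_lit 606080536) (.one (nat_lit 2103793) .nil))),
   .two (nat_lit 11559501848) (nat_lit 46980399144) (.two (nat_lit 721420296) (nat_lit 46980399219) (.two (nat_lit 272629765) (nat_lit 83886946) (.two (nat_lit 4194304) (nat_lit 11559504432) (.one (nat_lit 4200946) .nil)))),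
   .two (nat_lit 16777231) (nat_lit 156372041752) (.two (nat_lit 10343153672) (nat_lit 16777282) (.two (nat_lit 165532401669) (nat_lit 50332515) (.two (nat_lit 8388608) (nat_lit 50334209) (.one (nat_lit 16783859) .nil)))),
   .two (nat_lit 612368399) (nat_lit 10504634383) (.two (nat_lit 639631368) (nat_lit 46414168175) (.two (nat_lit 2887778308) (nat_lit 185027527755) (.two (nat_lit 2097153) (nat_lit 21214793190) (.one (nat_lit 8395253) .nil)))),
   .two (nat_lit 654311439) (nat_lit 157036838927) (.two (nat_lit 3458203656) (nat_lit 183962173560) (.two (nat_lit 47548727301) (nat_lit 9781117285) (.two (nat_lit 2097153) (nat_lit 620759574) (.one (nat_lit 2103798) .nil)))),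
   .two (nat_lit 721420303) (nat_lit 272629775) (.two (nat_lit 721420296) (nat_lit 306184460) (.two (nat_lit 50331653) (nat_lit 4634706637) (.two (nat_lit 605028353) (nat_lit 10519315781) (.two (nat_lit 1048576) (nat_lit 183928621581) (.one (nat_lit 16783864) .nil))))),
   .two (nat_lit 276824079) (nat_lit 673185859) (.two (nat_lit 8388612) (nat_lit 28758246757) (.two (nat_lit 2097152) (nat_lit 19026415130) (.one (nat_lit 21207456220) .nil))),
   .two (nat_lit 9934209039) (nat_lit 4605345816) (.two (nat_lit 8388616) (nat_lit 10504634490) (.two (nat_lit 176160773) (nat_lit 1411383659) (.two (nat_lit 8388609) (nat_lit 12618564917) (.two (nat_lit 4194304) (nat_lit 8392352) (.one (nat_lit 8395257) .nil))))),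
   .two (nat_lit 41943055) (nat_lit 11492393025) (.two (nat_lit 50331653) (nat_lit 13195280579) (.two (nat_lit 50331649) (nat_lit 3565159727) (.two (nat_lit 2097152) (nat_lit 21214793371) (.one (nat_lit 11007956135) .nil)))),
   .two (nat_lit 1178599439) (nat_lit 184986632207) (.two (nat_lit 104857608) (nat_lit 185020186690) (.two (nat_lit 739246085) (nat_lit 46510637414) (.two (nat_lit 34603009) (nat_lit 28089255223) (.two (nat_lit 8388608) (nat_lit 2987398109) .nil)))),
   .two (nat_lit 41943055) (nat_lit 183848927247) (.two (nat_lit 276824072) (nat_lit 19096666232) (.two (nat_lit 11476664324) (nat_lit 21210595945) (.two (nat_lit 34603009) (nat_lit 156468512079) (.two (nat_lit 1048576) (nat_lit 166132189709) (.one (nat_lit 135272849) .nil))))),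
   .two (nat_lit 276824079) (nat_lit 12050235415) (.two (nat_lit 8388616) (nat_lit 10000269425) (.two (nat_lit 41943045) (nat_lit 19029557866) (.two (nat_lit 8388609) (nat_lit 1049997) (.two (nat_lit 8388608) (nat_lit 1053253) (.one (nat_lit 8395260) .nil))))),
   .two (nat_lit 2887778319) (nat_lit 1753219112) (.two (nat_lit 612368392) (nat_lit 12114198643) (.two (nat_lit 176160772) (nat_lit 12148802200) (.two (nat_lit 2097153) (nat_lit 183853122845) (.two (nat_lit 1048576) (nat_lit 184993975784) (.one (nat_lit 9900658570) .nil))))),
   .two (nat_lit 721420303) (nat_lit 156532473902) (.two (nat_lit 83886088) (nat_lit 12617515247) (.two (nat_lit 721420292) (nat_lit 772800870) (.two (nat_lit 605028353) (nat_lit 12633244975) (.two (nat_lit 1048576) (nat_lit 889196055) (.one (nat_lit 9966720167) .nil))))),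
   .two (nat_lit 11479810063) (nat_lit 21207449615) (.two (nat_lit 11479810056) (nat_lit 9933160580) (.two (nat_lit 11479810052) (nat_lit 1745879760) (.two (nat_lit 16777217) (nat_lit 156569175582) (.one (nat_lit 4200957) .nil)))),
   .two (nat_lit 41943055) (nat_lit 1191182351) (.two (nat_lit 754974728) (nat_lit 780140676) (.two (nat_lit 11559501829) (nat_lit 156539814519) (.two (nat_lit 50331649) (nat_lit 28093451767) (.one (nat_lit 158091712440) .nil)))),
   .two (nat_lit 8388623) (nat_lit 183913939062) (.two (nat_lit 10504634373) (nat_lit 21210595946) (.two (nat_lit 9768534017) (nat_lit 19537070095) (.two (nat_lit 4194304) (nat_lit 2894073335) (.one (nat_lit 1384125499) .nil)))),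
   .two (nat_lit 16777231) (nat_lit 156569174127) (.two (nat_lit 16777220) (nat_lit 306184789) (.two (nat_lit 16777217) (nat_lit 9902753106) (.two (nat_lit 16777216) (nat_lit 13191089608) (.one (nat_lit 318772293) .nil)))),
   .two (nat_lit 16777231) (nat_lit 46510637121) (.two (nat_lit 272629765) (nat_lit 352321731) (.two (nat_lit 9768534017) (nat_lit 28086109026) (.two (nat_lit 1048576) (nat_lit 12620665822) .nil))),
   .two (nat_lit 276824079) (nat_lit 158077026433) (.two (nat_lit 2889875461) (nat_lit 37314625896) (.two (nat_lit 16777217) (nat_lit 12617517603) (.one (nat_lit 9969865915) .nil))),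
   .two (nat_lit 4194319) (nat_lit 37247516801) (.two (nat_lit 4194308) (nat_lit 28757197160) (.two (nat_lit 8388609) (nat_lit 11543776915) (.one (nat_lit 4199638) .nil))),
   .two (nat_lit 165526110223) (nat_lit 10506731635) (.two (nat_lit 10336862213) (nat_lit 13224641584) (.two (nat_lit 156365750273) (nat_lit 11010050075) (.two (nat_lit 2097152) (nat_lit 19599986314) (.one (nat_lit 3460307435) .nil)))),
   .two (nat_lit 183853121551) (nat_lit 158646403139) (.two (nat_lit 13195280389) (nat_lit 37313577318) (.two (nat_lit 41943041) (nat_lit 184416208253) (.two (nat_lit 1048576) (nat_lit 11551118377) .nil))),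
   .two (nat_lit 4601151503) (nat_lit 10544480377) (.two (nat_lit 4194308) (nat_lit 21207450282) (.two (nat_lit 4194305) (nat_lit 11543775265) (.two (nat_lit 8388608) (nat_lit 12150901262) (.one (nat_lit 12620666929) .nil)))),
   .two (nat_lit 50331663) (nat_lit 9933160563) (.two (nat_lit 75497477) (nat_lit 156367848743) (.two (nat_lit 8388608) (nat_lit 47547682287) (.one (nat_lit 873470375) .nil))),
   .two (nat_lit 8388623) (nat_lit 158192369780) (.two (nat_lit 721420292) (nat_lit 13195281738) (.two (nat_lit 2097152) (nat_lit 184423550630) (.one (nat_lit 47582287756) .nil))),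
   .two (nat_lit 713031695) (nat_lit 174753579023) (.two (nat_lit 46407876616) (nat_lit 184993972290) (.two (nat_lit 2097157) (nat_lit 157043130729) (.two (nat_lit 34603009) (nat_lit 19134417459) (.one (nat_lit 2103820) .nil)))),
   .two (nat_lit 9934209039) (nat_lit 46980399170) (.two (nat_lit 2097157) (nat_lit 46980399461) (.two (nat_lit 2097153) (nat_lit 19096669616) (.one (nat_lit 2103821) .nil))),
   .two (nat_lit 11479810063) (nat_lit 1913651395) (.two (nat_lit 8388609) (nat_lit 1175456059) (.two (nat_lit 1048576) (nat_lit 1182797381) (.one (nat_lit 1417681411) .nil))),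
   .two (nat_lit 46409973775) (nat_lit 1847591027) (.two (nat_lit 639631365) (nat_lit 3560964799) (.two (nat_lit 9766436865) (nat_lit 19029558601) (.two (nat_lit 4194304) (nat_lit 21208501906) (.one (nat_lit 10437532163) .nil)))),
   .two (nat_lit 16777231) (nat_lit 183949590593) (.two (nat_lit 16777220) (nat_lit 13224641109) (.two (nat_lit 50331649) (nat_lit 1312818514) (.two (nat_lit 16777216) (nat_lit 46980402758) (.one (nat_lit 4030731230) .nil)))),
   .two (nat_lit 11479810063) (nat_lit 46414168130) (.two (nat_lit 809500677) (nat_lit 46414168421) (.two (nat_lit 37748737) (nat_lit 12054433201) (.one (nat_lit 47550830503) .nil))),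
   .two (nat_lit 4194319) (nat_lit 11525947417) (.two (nat_lit 50331656) (nat_lit 705691762) (.two (nat_lit 16777220) (nat_lit 608174755) (.two (nat_lit 4194305) (nat_lit 174685425178) (.one (nat_lit 1276123093) .nil)))),
   .two (nat_lit 16777231) (nat_lit 183949590593) (.two (nat_lit 16777220) (nat_lit 183949590885) (.two (nat_lit 50331649) (nat_lit 10439626493) (.one (nat_lit 4030731230) .nil))),
   .two (nat_lit 3525312527) (nat_lit 10436477063) (.two (nat_lit 46978301957) (nat_lit 3524265360) (.two (nat_lit 2097152) (nat_lit 3457158863) (.one (nat_lit 2103822) .nil))),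
   .two (nat_lit 9881780239) (nat_lit 1745879055) (.two (nat_lit 1291845640) (nat_lit 1779433735) (.two (nat_lit 13187940357) (nat_lit 11559502182) (.two (nat_lit 2097153) (nat_lit 50332961) (.two (nat_lit 1048576) (nat_lit 47563411091) (.one (nat_lit 1055247) .nil))))),
   .two (nat_lit 713031695) (nat_lit 10338959375) (.two (nat_lit 620757000) (nat_lit 11546919047) (.two (nat_lit 41943045) (nat_lit 46409974451) (.two (nat_lit 16777217) (nat_lit 13228837390) (.one (nat_lit 11014248761) .nil)))),
   .two (nat_lit 10385096719) (nat_lit 21777875011) (.two (nat_lit 1358954501) (nat_lit 20704133827) (.two (nat_lit 606076929) (nat_lit 772803099) (.one (nat_lit 3020953893) .nil))),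
   .two (nat_lit 8388623) (nat_lit 150995077) (.two (nat_lit 46407876612) (nat_lit 157043131062) (.two (nat_lit 2097153) (nat_lit 159257725144) (.two (nat_lit 16777216) (nat_lit 46984596934) (.one (nat_lit 13228840041) .nil)))),
   .two (nat_lit 11479810063) (nat_lit 2886729848) (.two (nat_lit 11479810052) (nat_lit 47547680069) (.two (nat_lit 4194304) (nat_lit 185020190337) (.one (nat_lit 1055248) .nil))),
   .two (nat_lit 11559501839) (nat_lit 9899606081) (.two (nat_lit 1343225861) (nat_lit 50331843) (.two (nat_lit 9765388289) (nat_lit 285216320) (.one (nat_lit 654317985) .nil))),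
   .two (nat_lit 37748751) (nat_lit 50331763) (.two (nat_lit 169869316) (nat_lit 855639103) (.two (nat_lit 606076929) (nat_lit 218107161) (.two (nat_lit 2097152) (nat_lit 16782233) (.one (nat_lit 606083094) .nil)))),
   .two (nat_lit 654311439) (nat_lit 4605345816) (.two (nat_lit 8388616) (nat_lit 1795162227) (.two (nat_lit 721420293) (nat_lit 10343154531) (.two (nat_lit 16777216) (nat_lit 11584670238) (.one (nat_lit 19604182109) .nil)))),
   .two (nat_lit 713031695) (nat_lit 9899606117) (.two (nat_lit 713031688) (nat_lit 21811429924) (.two (nat_lit 713031684) (nat_lit 3557818999) (.two (nat_lit 34603009) (nat_lit 10510927933) (.two (nat_lit 8388608) (nat_lit 46977257989) (.one (nat_lit 156566033509) .nil))))),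
   .two (nat_lit 285212687) (nat_lit 1753219087) (.two (nat_lit 28691136520) (nat_lit 11626610827) (.two (nat_lit 1914699781) (nat_lit 183861510764) (.two (nat_lit 41943041) (nat_lit 10351543617) (.two (nat_lit 1048576) (nat_lit 28691140256) (.one (nat_lit 28691143161) .nil))))),
   .two (nat_lit 16777231) (nat_lit 46978302200) (.two (nat_lit 4194308) (nat_lit 1344275637) (.two (nat_lit 4194305) (nat_lit 3573549110) (.two (nat_lit 16777216) (nat_lit 46477086234) (.one (nat_lit 1346377967) .nil)))),
   .two (nat_lit 8388623) (nat_lit 3458203715) (.two (nat_lit 176160773) (nat_lit 37247518009) (.two (nat_lit 8388608) (nat_lit 28758249018) (.one (nat_lit 8395284) .nil))),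
   .two (nat_lit 176160783) (nat_lit 1344274551) (.two (nat_lit 176160772) (nat_lit 1377829732) (.two (nat_lit 8388608) (nat_lit 2418018830) (.one (nat_lit 1847597072) .nil))),
   .two (nat_lit 1779433487) (nat_lit 19532873743) (.two (nat_lit 166132187144) (nat_lit 165525061888) (.two (nat_lit 19599982597) (nat_lit 166196150629) (.two (nat_lit 605028353) (nat_lit 71305330) (.two (nat_lit 1048576) (nat_lit 4199323) (.one (nat_lit 4200966) .nil))))),
   .two (nat_lit 620757007) (nat_lit 9768534031) (.two (nat_lit 16777222) (nat_lit 183949590638) (.two (nat_lit 620757000) (nat_lit 9768534051) (.two (nat_lit 184549378) (nat_lit 4634706527) (.two (nat_lit 184549380) (nat_lit 2990538951) (.two (nat_lit 16777217) (nat_lit 46510638373) (.two (nat_lit 16777216) (nat_lit 4634706892) (.one (nat_lit 19532877788) .nil))))))),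
   .two (nat_lit 16777231) (nat_lit 166132187159) (.two (nat_lit 16777224) (nat_lit 2357199120) (.two (nat_lit 16777220) (nat_lit 11513365141) (.two (nat_lit 41943041) (nat_lit 2889877538) (.two (nat_lit 8388608) (nat_lit 251660816) (.one (nat_lit 16782590) .nil))))),
   .two (nat_lit 169869327) (nat_lit 306184221) (.two (nat_lit 169869320) (nat_lit 2357199130) (.two (nat_lit 34603013) (nat_lit 41943249) (.two (nat_lit 41943043) (nat_lit 174752531115) (.two (nat_lit 605028353) (nat_lit 10913580716) (.two (nat_lit 1048576) (nat_lit 2961180199) (.one (nat_lit 8392686) .nil)))))),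
   .two (nat_lit 276824079) (nat_lit 10336862248) (.two (nat_lit 159217877005) (nat_lit 3531604083) (.two (nat_lit 8388612) (nat_lit 183845781861) (.two (nat_lit 8388609) (nat_lit 11006903674) (.two (nat_lit 4194304) (nat_lit 806358540) (.one (nat_lit 1055275) .nil))))),
   .two (nat_lit 4194319) (nat_lit 47582281757) (.two (nat_lit 4194312) (nat_lit 47563407485) (.two (nat_lit 50331653) (nat_lit 183912890464) (.two (nat_lit 41943043) (nat_lit 336593254) (.two (nat_lit 41943041) (nat_lit 46406828490) (.two (nat_lit 1048576) (nat_lit 4613735975) (.one (nat_lit 16781296) .nil)))))),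
   .two (nat_lit 16777231) (nat_lit 1277165585) (.two (nat_lit 8388616) (nat_lit 10336862321) (.two (nat_lit 8388612) (nat_lit 9766436903) (.two (nat_lit 8388612) (nat_lit 158177689797) (.two (nat_lit 8388609) (nat_lit 13188989399) (.two (nat_lit 16777216) (nat_lit 8393644) (.one (nat_lit 8395298) .nil)))))),
   .two (nat_lit 21785214987) (nat_lit 1048628) (.two (nat_lit 46977253386) (nat_lit 1753219185) (.two (nat_lit 2956984327) (nat_lit 165532401776) (.two (nat_lit 34603013) (nat_lit 165532402021) (.two (nat_lit 2097153) (nat_lit 46409975148) (.two (nat_lit 1048576) (nat_lit 10443817950) (.one (nat_lit 11618223771) .nil)))))),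
   .two (nat_lit 2954887183) (nat_lit 1795162127) (.two (nat_lit 2954887176) (nat_lit 11525947511) (.two (nat_lit 1291845636) (nat_lit 236978872) (.two (nat_lit 606076929) (nat_lit 16778662) (.two (nat_lit 4194304) (nat_lit 2099790) (.one (nat_lit 2103852) .nil))))),
   .two (nat_lit 612368399) (nat_lit 12047089679) (.two (nat_lit 612368392) (nat_lit 158075977765) (.two (nat_lit 612368392) (nat_lit 21777874965) (.two (nat_lit 20644364290) (nat_lit 1049346) (.two (nat_lit 176160772) (nat_lit 19529728202) (.two (nat_lit 156372041729) (nat_lit 174685425722) (.two (nat_lit 8388608) (nat_lit 174685425722) (.one (nat_lit 1055277) .nil))))))),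
   .two (nat_lit 620757007) (nat_lit 46414168079) (.two (nat_lit 620757000) (nat_lit 183853121573) (.two (nat_lit 620757000) (nat_lit 847249429) (.two (nat_lit 4605345797) (nat_lit 16777420) (.two (nat_lit 184549380) (nat_lit 10947133642) (.two (nat_lit 8388609) (nat_lit 16778102) (.two (nat_lit 8388608) (nat_lit 16779855) (.one (nat_lit 2365594149) .nil))))))),
   .two (nat_lit 156971827215) (nat_lit 9866051626) (.two (nat_lit 46984593416) (nat_lit 1212153971) (.two (nat_lit 3464495109) (nat_lit 10003416140) (.two (nat_lit 8388609) (nat_lit 4197752) (.two (nat_lit 8388608) (nat_lit 4196944) (.one (nat_lit 8395310) .nil))))),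
   .two (nat_lit 41943055) (nat_lit 183848927247) (.two (nat_lit 41943048) (nat_lit 3560964224) (.two (nat_lit 8388612) (nat_lit 156468511349) (.two (nat_lit 16777217) (nat_lit 156468512079) (.two (nat_lit 16777216) (nat_lit 37249614814) (.one (nat_lit 4201007) .nil))))),
   .two (nat_lit 218103823) (nat_lit 11543773199) (.two (nat_lit 11543773192) (nat_lit 10385096771) (.two (nat_lit 705691652) (nat_lit 4613735038) (.two (nat_lit 9781116929) (nat_lit 705693775) (.two (nat_lit 16777216) (nat_lit 1051220) (.one (nat_lit 1053954) .nil))))),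
   .two (nat_lit 612368399) (nat_lit 1426063411) (.two (nat_lit 352321549) (nat_lit 1417674865) (.two (nat_lit 16777221) (nat_lit 243270352) (.two (nat_lit 16777217) (nat_lit 679478594) (.two (nat_lit 1048576) (nat_lit 8393975) (.one (nat_lit 11510222809) .nil))))),
   .two (nat_lit 157036838927) (nat_lit 21207449624) (.two (nat_lit 157036838920) (nat_lit 10372513928) (.two (nat_lit 46980399109) (nat_lit 304087249) (.two (nat_lit 2956984325) (nat_lit 337641674) (.two (nat_lit 4194305) (nat_lit 706741104) (.two (nat_lit 4194304) (nat_lit 3021998654) (.one (nat_lit 1055280) .nil)))))),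
   .two (nat_lit 11010048021) (nat_lit 20705181713) (.two (nat_lit 11551113224) (nat_lit 18928893989) (.two (nat_lit 11551113224) (nat_lit 156367847445) (.two (nat_lit 713031684) (nat_lit 46980399304) (.two (nat_lit 713031684) (nat_lit 742392010) (.two (nat_lit 41943041) (nat_lit 4197753) (.two (nat_lit 2097152) (nat_lit 1950353990) (.one (nat_lit 11511274007) .nil))))))),
   .two (nat_lit 37748751) (nat_lit 183853121551) (.two (nat_lit 2954887176) (nat_lit 843055230) (.two (nat_lit 4194308) (nat_lit 166136382177) (.two (nat_lit 606076929) (nat_lit 4196787) (.two (nat_lit 2097152) (nat_lit 847253297) (.one (nat_lit 2102534) .nil))))),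
   .two (nat_lit 2349858837) (nat_lit 10907287592) (.two (nat_lit 13187940362) (nat_lit 3021996279) (.two (nat_lit 10907287565) (nat_lit 10939793429) (.two (nat_lit 1846542341) (nat_lit 1948254577) (.two (nat_lit 1846542341) (nat_lit 11578376676) (.two (nat_lit 9765388289) (nat_lit 2099636) (.two (nat_lit 1048576) (nat_lit 2101045) (.one (nat_lit 2103857) .nil))))))),
   .two (nat_lit 4601151503) (nat_lit 12054429711) (.two (nat_lit 4601151496) (nat_lit 183853121650) (.two (nat_lit 156372041733) (nat_lit 205521599) (.two (nat_lit 156372041729) (nat_lit 1279264045) (.two (nat_lit 8388608) (nat_lit 4196922) (.one (nat_lit 9802093917) .nil))))),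
   .two (nat_lit 713031695) (nat_lit 620757007) (.two (nat_lit 713031688) (nat_lit 83886193) (.two (nat_lit 41943045) (nat_lit 3573547728) (.two (nat_lit 41943041) (nat_lit 10552870210) (.two (nat_lit 1048576) (nat_lit 142607903) (.one (nat_lit 16783922) .nil))))),
   .two (nat_lit 46978301967) (nat_lit 166132187151) (.two (nat_lit 46978301960) (nat_lit 171966583) (.two (nat_lit 10506731525) (nat_lit 2418016957) (.two (nat_lit 9768534017) (nat_lit 9867100387) (.two (nat_lit 2097152) (nat_lit 16779864) (.one (nat_lit 16781312) .nil))))),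
   .two (nat_lit 41943055) (nat_lit 50331663) (.two (nat_lit 41943048) (nat_lit 721420401) (.two (nat_lit 8388612) (nat_lit 46992982213) (.two (nat_lit 8388612) (nat_lit 46992982218) (.two (nat_lit 8388609) (nat_lit 3021997395) (.two (nat_lit 8388608) (nat_lit 2099802) (.one (nat_lit 2101249) .nil)))))),
   .two (nat_lit 713031695) (nat_lit 12617515025) (.two (nat_lit 183845781512) (nat_lit 184993972338) (.two (nat_lit 183845781508) (nat_lit 1317012130) (.two (nat_lit 34603009) (nat_lit 166237046160) (.two (nat_lit 1048576) (nat_lit 21785217622) (.one (nat_lit 8395316) .nil))))),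
   .two (nat_lit 11559501839) (nat_lit 166129041423) (.two (nat_lit 46984593416) (nat_lit 11559501889) (.two (nat_lit 721420293) (nat_lit 9974055541) (.two (nat_lit 34603009) (nat_lit 46422557995) (.two (nat_lit 1048576) (nat_lit 754977371) (.one (nat_lit 8393999) .nil))))),
   .two (nat_lit 10343153679) (nat_lit 272629784) (.two (nat_lit 4194312) (nat_lit 3464495215) (.two (nat_lit 4194308) (nat_lit 46984594080) (.two (nat_lit 4194305) (nat_lit 21785215434) (.two (nat_lit 1048576) (nat_lit 8392505) (.one (nat_lit 1055285) .nil))))),
   .two (nat_lit 1779433487) (nat_lit 1862271019) (.two (nat_lit 83886088) (nat_lit 739246190) (.two (nat_lit 721420292) (nat_lit 12047090296) (.two (nat_lit 620756993) (nat_lit 12114200806) (.two (nat_lit 16777216) (nat_lit 37246469086) (.one (nat_lit 2103862) .nil))))),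
   .two (nat_lit 10343153679) (nat_lit 20740833323) (.two (nat_lit 4194312) (nat_lit 3464495215) (.two (nat_lit 4194308) (nat_lit 28093448805) (.two (nat_lit 9765388289) (nat_lit 8391093) (.two (nat_lit 1048576) (nat_lit 8393647) (.one (nat_lit 1055287) .nil))))),
   .two (nat_lit 46474985496) (nat_lit 713031724) (.two (nat_lit 606076936) (nat_lit 3464495219) (.two (nat_lit 169869316) (nat_lit 159224169542) (.two (nat_lit 606076929) (nat_lit 8392058) (.two (nat_lit 2097152) (nat_lit 13195284271) (.one (nat_lit 35658267) .nil))))),
   .two (nat_lit 2887778319) (nat_lit 47584378909) (.two (nat_lit 721420296) (nat_lit 739246194) (.two (nat_lit 721420292) (nat_lit 166229705378) (.two (nat_lit 50331649) (nat_lit 18925749643) (.two (nat_lit 4194304) (nat_lit 1051230) (.one (nat_lit 1055288) .nil))))),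
   .two (nat_lit 21811429404) (nat_lit 10955522099) (.two (nat_lit 166144770058) (nat_lit 10370416756) (.two (nat_lit 9948889095) (nat_lit 739246195) (.two (nat_lit 620756997) (nat_lit 3525313184) (.two (nat_lit 50331649) (nat_lit 69207014) (.two (nat_lit 16777216) (nat_lit 1051224) (.one (nat_lit 1055289) .nil)))))),
   .two (nat_lit 11543773191) (nat_lit 654311537) (.two (nat_lit 705691651) (nat_lit 218104424) (.two (nat_lit 1048576) (nat_lit 156380431313) (.one (nat_lit 620759791) .nil))),
   .two (nat_lit 37748751) (nat_lit 1753219087) (.two (nat_lit 37748744) (nat_lit 1753219107) (.two (nat_lit 37748744) (nat_lit 2894069778) (.two (nat_lit 4194308) (nat_lit 165532402300) (.two (nat_lit 612368385) (nat_lit 4196791) (.two (nat_lit 2097152) (nat_lit 4198204) (.one (nat_lit 8393958) .nil)))))),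
   .two (nat_lit 2902458379) (nat_lit 101711887) (.two (nat_lit 184549382) (nat_lit 1343225893) (.two (nat_lit 101711879) (nat_lit 4647288852) (.two (nat_lit 16777218) (nat_lit 9966715079) (.two (nat_lit 16777220) (nat_lit 166196150370) (.two (nat_lit 16777217) (nat_lit 28757197264) (.two (nat_lit 16777216) (nat_lit 2886730709) (.one (nat_lit 1053976) .nil))))))),
   .two (nat_lit 612368399) (nat_lit 37246468121) (.two (nat_lit 18925748232) (nat_lit 1417674865) (.two (nat_lit 285212677) (nat_lit 11014242928) (.two (nat_lit 16777217) (nat_lit 158653744474) (.two (nat_lit 16777216) (nat_lit 8393651) (.one (nat_lit 11510222809) .nil))))),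
   .two (nat_lit 639631375) (nat_lit 166132187151) (.two (nat_lit 639631368) (nat_lit 10506731587) (.two (nat_lit 46407876612) (nat_lit 158179787849) (.two (nat_lit 156367847425) (nat_lit 18926797680) (.two (nat_lit 4194304) (nat_lit 2099813) (.one (nat_lit 3024099863) .nil))))),
   .two (nat_lit 16777227) (nat_lit 1779433487) (.two (nat_lit 16777222) (nat_lit 11543773221) (.two (nat_lit 1779433480) (nat_lit 184549396) (.two (nat_lit 184549378) (nat_lit 839909575) (.two (nat_lit 184549380) (nat_lit 46406828228) (.two (nat_lit 16777217) (nat_lit 158075978192) (.two (nat_lit 16777216) (nat_lit 11543774751) (.one (nat_lit 1053978) .nil))))))),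
   .two (nat_lit 28758245391) (nat_lit 28690087957) (.two (nat_lit 28758245384) (nat_lit 28690087957) (.two (nat_lit 156968681477) (nat_lit 69206218) (.two (nat_lit 34603009) (nat_lit 1411383758) (.two (nat_lit 1048576) (nat_lit 874512619) (.one (nat_lit 2102556) .nil))))),
   .two (nat_lit 1779433487) (nat_lit 10336862223) (.two (nat_lit 1779433480) (nat_lit 159217877029) (.two (nat_lit 101711880) (nat_lit 3458203670) (.two (nat_lit 1276116996) (nat_lit 46474985681) (.two (nat_lit 46407876612) (nat_lit 1175453794) (.two (nat_lit 9765388289) (nat_lit 2098599) (.two (nat_lit 1048576) (nat_lit 2101053) (.one (nat_lit 1055290) .nil))))))),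
   .two (nat_lit 10940842005) (nat_lit 157038936079) (.two (nat_lit 21778923530) (nat_lit 1950351479) (.two (nat_lit 4601151496) (nat_lit 183913938966) (.two (nat_lit 166130089989) (nat_lit 306184401) (.two (nat_lit 169869316) (nat_lit 10942939234) (.two (nat_lit 2097153) (nat_lit 11513364952) (.two (nat_lit 2097152) (nat_lit 708840011) (.one (nat_lit 3527416359) .nil))))))),
   .two (nat_lit 166130089999) (nat_lit 166132187151) (.two (nat_lit 166130089992) (nat_lit 157038936131) (.two (nat_lit 10504634373) (nat_lit 138412128) (.two (nat_lit 9766436867) (nat_lit 9902752841) (.two (nat_lit 9766436865) (nat_lit 21814577167) (.two (nat_lit 2097152) (nat_lit 4199348) (.one (nat_lit 2103867) .nil)))))),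
   .two (nat_lit 50331663) (nat_lit 11479810063) (.two (nat_lit 50331656) (nat_lit 13224640579) (.two (nat_lit 16777220) (nat_lit 158079123816) (.two (nat_lit 8388609) (nat_lit 339740987) (.two (nat_lit 8388608) (nat_lit 9768537912) (.one (nat_lit 4199711) .nil))))),
   .two (nat_lit 158083317775) (nat_lit 19596836879) (.two (nat_lit 19596836872) (nat_lit 9869197432) (.two (nat_lit 183845781508) (nat_lit 20745028212) (.two (nat_lit 34603009) (nat_lit 10947134799) (.two (nat_lit 1048576) (nat_lit 1853883358) (.one (nat_lit 8394016) .nil))))),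
   .two (nat_lit 1846542351) (nat_lit 156466413595) (.two (nat_lit 46978301960) (nat_lit 21207449637) (.two (nat_lit 46978301960) (nat_lit 158143086613) (.two (nat_lit 3525312517) (nat_lit 166229704904) (.two (nat_lit 3525312517) (nat_lit 9798942922) (.two (nat_lit 2097153) (nat_lit 165525063020) (.two (nat_lit 2097152) (nat_lit 235934958) (.one (nat_lit 235934958) .nil))))))),
   .two (nat_lit 165526110223) (nat_lit 11546918957) (.two (nat_lit 156569174028) (nat_lit 47548727333) (.two (nat_lit 1178599432) (nat_lit 3458203670) (.two (nat_lit 10506731525) (nat_lit 158144135377) (.two (nat_lit 9768534019) (nat_lit 156365750370) (.two (nat_lit 9766436865) (nat_lit 28693234136) (.two (nat_lit 4194304) (nat_lit 2098772) (.one (nat_lit 2103868) .nil))))))),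
   .two (nat_lit 713031695) (nat_lit 3458203671) (.two (nat_lit 75497480) (nat_lit 9948889335) (.two (nat_lit 620756997) (nat_lit 840958576) (.two (nat_lit 50331649) (nat_lit 11544822231) (.two (nat_lit 1048576) (nat_lit 8393653) (.one (nat_lit 8395325) .nil))))),
   .two (nat_lit 1358954511) (nat_lit 183912890410) (.two (nat_lit 2961178632) (nat_lit 2902458492) (.two (nat_lit 1779433477) (nat_lit 156581757560) (.two (nat_lit 34603009) (nat_lit 2927625616) (.two (nat_lit 1048576) (nat_lit 8391243) (.one (nat_lit 8394019) .nil))))),
   .two (nat_lit 9866051599) (nat_lit 47596961809) (.two (nat_lit 16777224) (nat_lit 101711939) (.two (nat_lit 16777220) (nat_lit 2886730389) (.two (nat_lit 16777217) (nat_lit 156532474079) (.two (nat_lit 4194304) (nat_lit 1053622) (.one (nat_lit 4199717) .nil))))),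
   .two (nat_lit 9866051599) (nat_lit 117440527) (.two (nat_lit 9866051592) (nat_lit 1426063482) (.two (nat_lit 1343225861) (nat_lit 19612566143) (.two (nat_lit 605028353) (nat_lit 16778108) (.two (nat_lit 2097152) (nat_lit 183853124184) (.one (nat_lit 8395327) .nil))))),
   .two (nat_lit 158083317775) (nat_lit 1779433523) (.two (nat_lit 3557818378) (nat_lit 20644364402) (.two (nat_lit 2097159) (nat_lit 20644364402) (.two (nat_lit 13187940357) (nat_lit 47555019404) (.two (nat_lit 2097153) (nat_lit 645924227) (.two (nat_lit 1048576) (nat_lit 166203491294) (.one (nat_lit 8394023) .nil)))))),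
   .two (nat_lit 46978301967) (nat_lit 183848927276) (.two (nat_lit 174688567309) (nat_lit 174686470211) (.two (nat_lit 3527409669) (nat_lit 2418016957) (.two (nat_lit 4194305) (nat_lit 9867100387) (.two (nat_lit 2097152) (nat_lit 16779864) (.one (nat_lit 16781312) .nil))))),
   .two (nat_lit 41943055) (nat_lit 11559501839) (.two (nat_lit 721420296) (nat_lit 20745027832) (.two (nat_lit 10503585797) (nat_lit 1392509577) (.two (nat_lit 50331649) (nat_lit 8392079) (.two (nat_lit 4194304) (nat_lit 2994738393) (.one (nat_lit 2994738393) .nil))))),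
   .two (nat_lit 2432696350) (nat_lit 1376780318) (.two (nat_lit 1745879048) (nat_lit 16777341) (.two (nat_lit 28086108165) (nat_lit 166211878950) (.two (nat_lit 9768534019) (nat_lit 156548203210) (.two (nat_lit 34603009) (nat_lit 28101837027) (.two (nat_lit 4194304) (nat_lit 16781123) (.one (nat_lit 16783936) .nil)))))),
   .two (nat_lit 13191086095) (nat_lit 12054429711) (.two (nat_lit 4194312) (nat_lit 1954545787) (.two (nat_lit 171966469) (nat_lit 37320917365) (.two (nat_lit 9933160453) (nat_lit 157043130570) (.two (nat_lit 4194305) (nat_lit 46481277808) (.two (nat_lit 16777216) (nat_lit 4198212) (.one (nat_lit 4199722) .nil)))))),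
   .two (nat_lit 9934209039) (nat_lit 12047089707) (.two (nat_lit 9934209032) (nat_lit 2886730102) (.two (nat_lit 9934209032) (nat_lit 3524263958) (.two (nat_lit 1277165573) (nat_lit 1947205836) (.two (nat_lit 169869316) (nat_lit 2886730102) (.two (nat_lit 2097153) (nat_lit 1947208271) (.two (nat_lit 2097152) (nat_lit 605030990) (.one (nat_lit 1055297) .nil))))))),
   .two (nat_lit 11479810063) (nat_lit 9899606118) (.two (nat_lit 159216828426) (nat_lit 21208498305) (.two (nat_lit 11479810056) (nat_lit 37246468117) (.two (nat_lit 4599054341) (nat_lit 843055315) (.two (nat_lit 37748739) (nat_lit 806355715) (.two (nat_lit 156365750273) (nat_lit 1050026) (.two (nat_lit 4194304) (nat_lit 1052485) (.one (nat_lit 1055298) .nil))))))),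
   .two (nat_lit 166130089999) (nat_lit 10942939168) (.two (nat_lit 156569174028) (nat_lit 157036838979) (.two (nat_lit 10506731525) (nat_lit 11544822120) (.two (nat_lit 16777217) (nat_lit 166197199324) (.two (nat_lit 1048576) (nat_lit 2099824) (.one (nat_lit 16782637) .nil))))),
   .two (nat_lit 16777231) (nat_lit 176160783) (.two (nat_lit 16777224) (nat_lit 343932995) (.two (nat_lit 16777220) (nat_lit 21214790335) (.two (nat_lit 50331649) (nat_lit 1853883693) (.two (nat_lit 16777216) (nat_lit 28093452075) (.one (nat_lit 1753223141) .nil))))),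
   .two (nat_lit 9781116943) (nat_lit 159217877007) (.two (nat_lit 169869320) (nat_lit 11492393070) (.two (nat_lit 169869316) (nat_lit 10385097400) (.two (nat_lit 34603009) (nat_lit 46508542102) (.two (nat_lit 1048576) (nat_lit 4632612312) (.one (nat_lit 2102574) .nil))))),
   .two (nat_lit 12114198539) (nat_lit 1847590927) (.two (nat_lit 13187940358) (nat_lit 158647451685) (.two (nat_lit 1916796935) (nat_lit 183947493500) (.two (nat_lit 183845781506) (nat_lit 337641671) (.two (nat_lit 183845781508) (nat_lit 874512580) (.two (nat_lit 9768534017) (nat_lit 3525314608) (.two (nat_lit 1048576) (nat_lit 158647453215) (.one (nat_lit 2103875) .nil))))))),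
   .two (nat_lit 16777231) (nat_lit 2889875471) (.two (nat_lit 16777224) (nat_lit 205521010) (.two (nat_lit 16777220) (nat_lit 239075956) (.two (nat_lit 16777217) (nat_lit 37749611) (.two (nat_lit 16777216) (nat_lit 4198216) (.one (nat_lit 4198445) .nil))))),
   .two (nat_lit 1913651215) (nat_lit 174753579023) (.two (nat_lit 28757196808) (nat_lit 157036839041) (.two (nat_lit 1276116996) (nat_lit 184417256194) (.two (nat_lit 739246085) (nat_lit 2097364) (.two (nat_lit 605028353) (nat_lit 2098605) (.two (nat_lit 1048576) (nat_lit 2099831) (.one (nat_lit 1055300) .nil)))))),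
   .two (nat_lit 1191182351) (nat_lit 4601151503) (.two (nat_lit 1191182344) (nat_lit 4601151552) (.two (nat_lit 9781116933) (nat_lit 339738721) (.two (nat_lit 9781116933) (nat_lit 339738718) (.two (nat_lit 9781116929) (nat_lit 339739109) (.two (nat_lit 4194304) (nat_lit 2936014420) (.one (nat_lit 4201029) .nil)))))),
   .two (nat_lit 620757007) (nat_lit 11479810063) (.two (nat_lit 2969567240) (nat_lit 2420113528) (.two (nat_lit 2902458373) (nat_lit 12150898726) (.two (nat_lit 2902458373) (nat_lit 12150898784) (.two (nat_lit 16777217) (nat_lit 183916036572) (.two (nat_lit 16777216) (nat_lit 4198217) (.one (nat_lit 4199731) .nil)))))),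
   .two (nat_lit 159224168463) (nat_lit 183912890393) (.two (nat_lit 183845781512) (nat_lit 20644364401) (.two (nat_lit 46978301957) (nat_lit 813695600) (.two (nat_lit 2097153) (nat_lit 21818770778) (.two (nat_lit 2097152) (nat_lit 8392523) (.one (nat_lit 8395335) .nil))))),
   .two (nat_lit 713031695) (nat_lit 183848927247) (.two (nat_lit 713031688) (nat_lit 37329305721) (.two (nat_lit 654311429) (nat_lit 775946868) (.two (nat_lit 620756993) (nat_lit 10909386053) (.two (nat_lit 4194304) (nat_lit 8392522) (.one (nat_lit 185035919360) .nil))))),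
   .two (nat_lit 1913651215) (nat_lit 183916036117) (.two (nat_lit 1913651208) (nat_lit 183916036117) (.two (nat_lit 1916796933) (nat_lit 1947205727) (.two (nat_lit 50331649) (nat_lit 156968682361) (.two (nat_lit 4194304) (nat_lit 158176643694) (.one (nat_lit 1054005) .nil))))),
   .two (nat_lit 50331663) (nat_lit 310378691) (.two (nat_lit 721420292) (nat_lit 28690088802) (.two (nat_lit 41943041) (nat_lit 1276120967) (.one (nat_lit 47555025586) .nil))),
   .two (nat_lit 16777231) (nat_lit 1317011813) (.two (nat_lit 16777220) (nat_lit 1317012322) (.two (nat_lit 4194305) (nat_lit 1954548231) (.two (nat_lit 8388608) (nat_lit 742395783) (.one (nat_lit 239082161) .nil)))),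
   .two (nat_lit 158158815247) (nat_lit 1920991358) (.two (nat_lit 156372041736) (nat_lit 11010048195) (.two (nat_lit 46414168069) (nat_lit 4647289700) (.two (nat_lit 4194305) (nat_lit 174701152786) (.two (nat_lit 4194304) (nat_lit 16781220) (.one (nat_lit 184556163) .nil))))),
   .two (nat_lit 11559501839) (nat_lit 156566028526) (.two (nat_lit 185002360840) (nat_lit 310378691) (.two (nat_lit 83886085) (nat_lit 157043131733) (.two (nat_lit 156364701697) (nat_lit 12048140817) (.two (nat_lit 1048576) (nat_lit 11611935703) (.one (nat_lit 10940848754) .nil))))),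
   .two (nat_lit 1191182351) (nat_lit 1916796995) (.two (nat_lit 1350565896) (nat_lit 117440707) (.two (nat_lit 721420292) (nat_lit 174759871821) (.two (nat_lit 41943041) (nat_lit 11559505322) (.two (nat_lit 4194304) (nat_lit 46422560651) (.one (nat_lit 1358961279) .nil))))),
   .two (nat_lit 158083317775) (nat_lit 183912890628) (.two (nat_lit 28693233672) (nat_lit 3020947817) (.two (nat_lit 75497477) (nat_lit 1929381246) (.two (nat_lit 8388609) (nat_lit 185023334936) (.two (nat_lit 1048576) (nat_lit 4199506) (.one (nat_lit 4201190) .nil))))),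
   .two (nat_lit 184549391) (nat_lit 2994733251) (.two (nat_lit 176160772) (nat_lit 12633244983) (.two (nat_lit 156364701697) (nat_lit 2432698901) (.two (nat_lit 1048576) (nat_lit 1954549640) (.one (nat_lit 46507498115) .nil)))),
   .two (nat_lit 166130089999) (nat_lit 156532473923) (.two (nat_lit 28690087944) (nat_lit 183913939302) (.two (nat_lit 12062818309) (nat_lit 10376709451) (.two (nat_lit 156364701697) (nat_lit 10940844564) (.two (nat_lit 1048576) (nat_lit 47548731279) (.one (nat_lit 2104039) .nil))))),
   .two (nat_lit 158083317775) (nat_lit 158177689725) (.two (nat_lit 620757000) (nat_lit 11584667843) (.two (nat_lit 184549380) (nat_lit 10437526370) (.two (nat_lit 2097153) (nat_lit 142607901) (.two (nat_lit 2097152) (nat_lit 8392613) (.one (nat_lit 2104040) .nil))))),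
   .two (nat_lit 12129927183) (nat_lit 28693233729) (.two (nat_lit 11551113224) (nat_lit 21827158211) (.two (nat_lit 1178599429) (nat_lit 37247517538) (.two (nat_lit 4194305) (nat_lit 46407880599) (.one (nat_lit 21818776268) .nil)))),
   .two (nat_lit 822083599) (nat_lit 12617515144) (.two (nat_lit 46407876616) (nat_lit 10007609963) (.two (nat_lit 713031685) (nat_lit 1209008994) (.two (nat_lit 2097153) (nat_lit 746588703) (.two (nat_lit 1048576) (nat_lit 35656660) (.one (nat_lit 19596843692) .nil))))),
   .two (nat_lit 9781116943) (nat_lit 11476664449) (.two (nat_lit 156372041736) (nat_lit 9867100519) (.two (nat_lit 2097157) (nat_lit 37329306955) (.two (nat_lit 2097153) (nat_lit 21811431961) (.two (nat_lit 2097152) (nat_lit 21785220066) (.one (nat_lit 37246474867) .nil))))),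
   .two (nat_lit 285212687) (nat_lit 4028629128) (.two (nat_lit 10369368072) (nat_lit 13237223619) (.two (nat_lit 34603013) (nat_lit 713032548) (.two (nat_lit 2097153) (nat_lit 9933163020) (.two (nat_lit 2097152) (nat_lit 28798096342) (.one (nat_lit 9933165884) .nil))))),
   .two (nat_lit 117440527) (nat_lit 1344274499) (.two (nat_lit 10370416648) (nat_lit 37320917349) (.two (nat_lit 708837381) (nat_lit 185027528010) (.two (nat_lit 4194305) (nat_lit 156365754266) (.one (nat_lit 2104041) .nil)))),
   .two (nat_lit 37748751) (nat_lit 721420353) (.two (nat_lit 606076936) (nat_lit 4043309418) (.two (nat_lit 1795162117) (nat_lit 159217877858) (.two (nat_lit 2097153) (nat_lit 183916038672) (.two (nat_lit 2097152) (nat_lit 157051522960) (.one (nat_lit 742398608) .nil))))),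
   .two (nat_lit 285212687) (nat_lit 10443817083) (.two (nat_lit 813694984) (nat_lit 9781117123) (.two (nat_lit 11484004357) (nat_lit 12062819631) (.two (nat_lit 8388609) (nat_lit 69208579) (.two (nat_lit 8388608) (nat_lit 1377832844) (.one (nat_lit 165526117021) .nil))))),
   .two (nat_lit 612368399) (nat_lit 10939793524) (.two (nat_lit 20637024264) (nat_lit 159224168643) (.two (nat_lit 171966469) (nat_lit 165532403068) (.two (nat_lit 4194305) (nat_lit 839911961) (.two (nat_lit 1048576) (nat_lit 11580477325) (.one (nat_lit 209721991) .nil))))),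
   .two (nat_lit 4194319) (nat_lit 11618222146) (.two (nat_lit 4194312) (nat_lit 19033751911) (.two (nat_lit 4194308) (nat_lit 47548728684) (.two (nat_lit 2097153) (nat_lit 10343156260) (.two (nat_lit 1048576) (nat_lit 1210060697) (.one (nat_lit 4201197) .nil))))),
   .two (nat_lit 46407876623) (nat_lit 28806480001) (.two (nat_lit 2887778312) (nat_lit 822083779) (.two (nat_lit 34603013) (nat_lit 251659588) (.two (nat_lit 34603009) (nat_lit 11511269906) (.two (nat_lit 2097152) (nat_lit 159216832396) (.one (nat_lit 1055470) .nil))))),
   .two (nat_lit 50331663) (nat_lit 68157569) (.two (nat_lit 13203669000) (nat_lit 156535620213) (.two (nat_lit 34603013) (nat_lit 19545457974) (.two (nat_lit 2097153) (nat_lit 12050237970) (.two (nat_lit 2097152) (nat_lit 11546922896) (.one (nat_lit 839916247) .nil))))),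
   .two (nat_lit 2887778319) (nat_lit 19130220901) (.two (nat_lit 28693233669) (nat_lit 12617516391) (.two (nat_lit 9765388289) (nat_lit 21208501769) (.two (nat_lit 1048576) (nat_lit 239080407) (.one (nat_lit 19096672882) .nil)))),
   .two (nat_lit 2961178639) (nat_lit 20738736193) (.two (nat_lit 4194312) (nat_lit 41943235) (.two (nat_lit 159217876997) (nat_lit 10369368930) (.two (nat_lit 4194305) (nat_lit 11007953444) (.two (nat_lit 1048576) (nat_lit 47550828434) (.one (nat_lit 4201202) .nil))))),
   .two (nat_lit 8388623) (nat_lit 605028419) (.two (nat_lit 176160776) (nat_lit 21811429740) (.two (nat_lit 1344274437) (nat_lit 780141412) (.two (nat_lit 4194305) (nat_lit 21812480542) (.two (nat_lit 4194304) (nat_lit 156466417562) (.one (nat_lit 37316728124) .nil))))),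
   .two (nat_lit 11543773199) (nat_lit 9802088566) (.two (nat_lit 2887778312) (nat_lit 156569174211) (.two (nat_lit 4599054341) (nat_lit 10338960690) (.two (nat_lit 34603009) (nat_lit 1210059267) (.two (nat_lit 1048576) (nat_lit 3458207640) (.one (nat_lit 4201204) .nil))))),
   .two (nat_lit 9948889103) (nat_lit 47548727491) (.two (nat_lit 806354949) (nat_lit 2432697648) (.two (nat_lit 50331649) (nat_lit 336596449) (.two (nat_lit 1048576) (nat_lit 183947497352) (.one (nat_lit 10369374952) .nil)))),
   .two (nat_lit 4194319) (nat_lit 9772728444) (.two (nat_lit 612368392) (nat_lit 21811429740) (.two (nat_lit 176160772) (nat_lit 28757198212) (.two (nat_lit 2097153) (nat_lit 19604179497) (.two (nat_lit 1048576) (nat_lit 2921336734) (.one (nat_lit 9798948156) .nil))))),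
   .two (nat_lit 612368399) (nat_lit 34603075) (.two (nat_lit 37748744) (nat_lit 4034921121) (.two (nat_lit 270532613) (nat_lit 20640171307) (.two (nat_lit 2097153) (nat_lit 13224643101) (.two (nat_lit 1048576) (nat_lit 9934213026) (.one (nat_lit 1055483) .nil))))),
   .two (nat_lit 276824079) (nat_lit 4634705987) (.two (nat_lit 68157448) (nat_lit 880804035) (.two (nat_lit 183853121541) (nat_lit 28089255261) (.two (nat_lit 4194305) (nat_lit 10335816195) (.two (nat_lit 4194304) (nat_lit 21207453592) (.one (nat_lit 8395517) .nil))))),
   .two (nat_lit 169869327) (nat_lit 343932994) (.two (nat_lit 10369368072) (nat_lit 159251431619) (.two (nat_lit 638582789) (nat_lit 156969731428) (.two (nat_lit 8388609) (nat_lit 28086110753) (.two (nat_lit 8388608) (nat_lit 46977257352) (.one (nat_lit 69212882) .nil))))),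
   .two (nat_lit 4194319) (nat_lit 11618222438) (.two (nat_lit 20644364293) (nat_lit 9899607399) (.two (nat_lit 34603009) (nat_lit 2994735636) (.two (nat_lit 1048576) (nat_lit 166136385423) (.one (nat_lit 8395522) .nil)))),
   .two (nat_lit 721420303) (nat_lit 772800641) (.two (nat_lit 9934209032) (nat_lit 352321731) (.two (nat_lit 184549380) (nat_lit 4028630346) (.two (nat_lit 34603009) (nat_lit 2954889745) (.two (nat_lit 1048576) (nat_lit 19545460616) (.one (nat_lit 1779440209) .nil))))),
   .two (nat_lit 285212687) (nat_lit 28086108520) (.two (nat_lit 169869316) (nat_lit 157043131235) (.two (nat_lit 41943041) (nat_lit 1948258192) (.one (nat_lit 1175460506) .nil))),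
   .two (nat_lit 612368399) (nat_lit 34603075) (.two (nat_lit 612368392) (nat_lit 21811429740) (.two (nat_lit 2894069765) (nat_lit 11511268196) (.two (nat_lit 2097153) (nat_lit 142608930) (.two (nat_lit 1048576) (nat_lit 28691140506) (.one (nat_lit 9798948156) .nil))))),
   .two (nat_lit 4194319) (nat_lit 184549441) (.two (nat_lit 4194312) (nat_lit 2365588089) (.two (nat_lit 705691652) (nat_lit 19109250350) (.two (nat_lit 34603009) (nat_lit 185035917832) (.two (nat_lit 4194304) (nat_lit 2365591439) (.one (nat_lit 336599804) .nil))))),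
   .two (nat_lit 11492392975) (nat_lit 1350566014) (.two (nat_lit 46984593416) (nat_lit 2332033642) (.two (nat_lit 2894069765) (nat_lit 150996289) (.two (nat_lit 620756993) (nat_lit 202378684) (.two (nat_lit 1048576) (nat_lit 75501447) (.one (nat_lit 1055478) .nil))))),
   .two (nat_lit 11479810063) (nat_lit 10504634489) (.two (nat_lit 11476664328) (nat_lit 13224640707) (.two (nat_lit 3525312517) (nat_lit 3527411016) (.two (nat_lit 9765388289) (nat_lit 46409976336) (.two (nat_lit 1048576) (nat_lit 12115251088) (.one (nat_lit 4201226) .nil))))),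
   .two (nat_lit 9768534031) (nat_lit 156566028355) (.two (nat_lit 9768534024) (nat_lit 165525061991) (.two (nat_lit 605028357) (nat_lit 19100861761) (.two (nat_lit 4194305) (nat_lit 1276119570) (.two (nat_lit 2097152) (nat_lit 138416010) (.one (nat_lit 4201227) .nil))))),
   .two (nat_lit 4194319) (nat_lit 183947493502) (.two (nat_lit 4601151496) (nat_lit 174753579644) (.two (nat_lit 9933160453) (nat_lit 9900655964) (.two (nat_lit 605028353) (nat_lit 20707281415) (.two (nat_lit 1048576) (nat_lit 19029561253) (.one (nat_lit 2104076) .nil))))),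
   .two (nat_lit 721420303) (nat_lit 183845781629) (.two (nat_lit 809500680) (nat_lit 352321731) (.two (nat_lit 11479810052) (nat_lit 28086109026) (.two (nat_lit 50331649) (nat_lit 46473939463) (.two (nat_lit 1048576) (nat_lit 156581760933) (.one (nat_lit 806361695) .nil))))),
   .two (nat_lit 46409973775) (nat_lit 9798942787) (.two (nat_lit 3527409677) (nat_lit 47581233513) (.two (nat_lit 3527409669) (nat_lit 3525313895) (.two (nat_lit 156365750273) (nat_lit 183949593109) (.two (nat_lit 2097152) (nat_lit 104861581) (.one (nat_lit 4201232) .nil))))),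
   .two (nat_lit 10370416655) (nat_lit 165532401784) (.two (nat_lit 37748744) (nat_lit 10007609539) (.two (nat_lit 8388612) (nat_lit 21781022017) (.two (nat_lit 8388609) (nat_lit 19597888009) (.two (nat_lit 8388608) (nat_lit 136318860) (.one (nat_lit 10003421808) .nil))))),
   .two (nat_lit 46407876623) (nat_lit 4605345857) (.two (nat_lit 12047089672) (nat_lit 158183981416) (.two (nat_lit 209715205) (nat_lit 157036840272) (.two (nat_lit 612368385) (nat_lit 21812481931) (.one (nat_lit 1055426) .nil)))),
   .two (nat_lit 2961178639) (nat_lit 20738736194) (.two (nat_lit 4194312) (nat_lit 41943235) (.two (nat_lit 4194308) (nat_lit 157043131743) (.two (nat_lit 4194305) (nat_lit 11007953444) (.two (nat_lit 1048576) (nat_lit 165528211353) (.one (nat_lit 156971834039) .nil))))),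
   .two (nat_lit 11479810063) (nat_lit 183946444865) (.two (nat_lit 169869320) (nat_lit 612368579) (.two (nat_lit 13187940357) (nat_lit 1178600290) (.two (nat_lit 2097153) (nat_lit 158079126056) (.two (nat_lit 1048576) (nat_lit 1746931598) (.one (nat_lit 1055513) .nil))))),
   .two (nat_lit 37748751) (nat_lit 721420354) (.two (nat_lit 272629768) (nat_lit 174701150567) (.two (nat_lit 3527409669) (nat_lit 13222544702) (.two (nat_lit 2097153) (nat_lit 174768261683) (.two (nat_lit 16777216) (nat_lit 2350911384) (.one (nat_lit 184989784831) .nil))))),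
   .two (nat_lit 813694991) (nat_lit 9781116995) (.two (nat_lit 41943048) (nat_lit 158091706728) (.two (nat_lit 1277165573) (nat_lit 13195281802) (.two (nat_lit 8388609) (nat_lit 47563411345) (.one (nat_lit 1216355061) .nil)))),
   .two (nat_lit 285212687) (nat_lit 156573368446) (.two (nat_lit 50331656) (nat_lit 156372041923) (.two (nat_lit 50331653) (nat_lit 3565159738) (.two (nat_lit 41943041) (nat_lit 47563409935) (.two (nat_lit 8388608) (nat_lit 4647292846) (.one (nat_lit 166237051467) .nil))))),
   .two (nat_lit 285212687) (nat_lit 156573368446) (.two (nat_lit 50331656) (nat_lit 156372041923) (.two (nat_lit 50331653) (nat_lit 3565159738) (.two (nat_lit 41943041) (nat_lit 47563409935) (.two (nat_lit 8388608) (nat_lit 16779989) (.one (nat_lit 166237051467) .nil))))),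
   .two (nat_lit 184549391) (nat_lit 18933088369) (.two (nat_lit 156372041736) (nat_lit 721420646) (.two (nat_lit 46414168068) (nat_lit 11492393418) (.two (nat_lit 46414168067) (nat_lit 721421606) (.two (nat_lit 8388609) (nat_lit 3036677668) (.two (nat_lit 8388608) (nat_lit 12062823435) (.one (nat_lit 822090525) .nil)))))),
   .two (nat_lit 10504634392) (nat_lit 46510637122) (.two (nat_lit 270532614) (nat_lit 2319451215) (.two (nat_lit 2889875464) (nat_lit 12048138436) (.two (nat_lit 2887778308) (nat_lit 1749024995) (.two (nat_lit 4194307) (nat_lit 21785217164) (.two (nat_lit 2097153) (nat_lit 2323646119) (.two (nat_lit 2097152) (nat_lit 8392643) (.one (nat_lit 8394084) .nil))))))),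
   .two (nat_lit 184549391) (nat_lit 2350907459) (.two (nat_lit 184549384) (nat_lit 1377829535) (.two (nat_lit 184549378) (nat_lit 2098029) (.two (nat_lit 16777219) (nat_lit 12148803761) (.two (nat_lit 606076929) (nat_lit 13237224395) (.two (nat_lit 2097152) (nat_lit 16778923) (.one (nat_lit 2101333) .nil)))))),
   .two (nat_lit 166130089999) (nat_lit 21811429501) (.two (nat_lit 10504634374) (nat_lit 1309672107) (.two (nat_lit 166130089992) (nat_lit 873464005) (.two (nat_lit 166130089988) (nat_lit 11610882271) (.two (nat_lit 9766436865) (nat_lit 37246468600) (.two (nat_lit 2097152) (nat_lit 174752533191) (.one (nat_lit 772804675) .nil)))))),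
   .two (nat_lit 10939793423) (nat_lit 19027460162) (.two (nat_lit 166130089992) (nat_lit 1175453897) (.two (nat_lit 166130089992) (nat_lit 1048772) (.two (nat_lit 166130089988) (nat_lit 166229704927) (.two (nat_lit 166130089987) (nat_lit 47547680850) (.two (nat_lit 156365750273) (nat_lit 1050160) (.two (nat_lit 2097152) (nat_lit 1053922) (.one (nat_lit 1054054) .nil))))))),
   .two (nat_lit 10940841999) (nat_lit 2416967793) (.two (nat_lit 19596836869) (nat_lit 174753579233) (.two (nat_lit 9765388289) (nat_lit 270532843) (.one (nat_lit 2102632) .nil))),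
   .two (nat_lit 3527409679) (nat_lit 156969730170) (.two (nat_lit 1277165576) (nat_lit 157038936259) (.two (nat_lit 9934209029) (nat_lit 28693234120) (.two (nat_lit 606076931) (nat_lit 156468512060) (.two (nat_lit 9766436865) (nat_lit 166132189695) (.two (nat_lit 2097152) (nat_lit 10003420142) (.one (nat_lit 4199785) .nil)))))),
   .two (nat_lit 203423759) (nat_lit 28693233779) (.two (nat_lit 270532614) (nat_lit 183949591143) (.two (nat_lit 203423752) (nat_lit 11614027979) (.two (nat_lit 2887778308) (nat_lit 708838247) (.two (nat_lit 9766436865) (nat_lit 10909388380) (.two (nat_lit 2097152) (nat_lit 4198342) (.one (nat_lit 2104128) .nil)))))),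
   .two (nat_lit 1178599439) (nat_lit 4605345856) (.two (nat_lit 1178599432) (nat_lit 156372041923) (.two (nat_lit 9768534021) (nat_lit 4605347103) (.two (nat_lit 37748737) (nat_lit 343935486) (.two (nat_lit 4194304) (nat_lit 1182796484) (.one (nat_lit 13195287280) .nil))))),
   .two (nat_lit 4194319) (nat_lit 21785215084) (.two (nat_lit 4194312) (nat_lit 21818770122) (.two (nat_lit 4194308) (nat_lit 11577328485) (.two (nat_lit 37748739) (nat_lit 12617516374) (.two (nat_lit 612368385) (nat_lit 10439626682) (.two (nat_lit 1048576) (nat_lit 21814580373) (.one (nat_lit 1346378525) .nil)))))),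
   .two (nat_lit 1317011469) (nat_lit 136314919) (.two (nat_lit 4194304) (nat_lit 8391387) .nil),
   .two (nat_lit 158143086616) (nat_lit 21778923559) (.two (nat_lit 68157448) (nat_lit 158150426663) (.two (nat_lit 272629767) (nat_lit 1847591008) (.two (nat_lit 4194307) (nat_lit 10335813859) (.two (nat_lit 4194305) (nat_lit 1050161) (.two (nat_lit 4194304) (nat_lit 1053924) (.one (nat_lit 1054060) .nil)))))),
   .two (nat_lit 4194319) (nat_lit 10443817083) (.two (nat_lit 4194312) (nat_lit 159257722919) (.two (nat_lit 272629768) (nat_lit 2316304582) (.two (nat_lit 4194308) (nat_lit 10335813859) (.two (nat_lit 4194305) (nat_lit 183947494367) (.two (nat_lit 8388608) (nat_lit 37316724385) (.one (nat_lit 1950354226) .nil)))))),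
   .two (nat_lit 183853121551) (nat_lit 158646403090) (.two (nat_lit 169869314) (nat_lit 8389487) (.two (nat_lit 606076929) (nat_lit 47555019258) (.one (nat_lit 1055556) .nil))),
   .two (nat_lit 157038936079) (nat_lit 236978243) (.two (nat_lit 47548727304) (nat_lit 4195004) (.two (nat_lit 2097157) (nat_lit 3560964319) (.two (nat_lit 2097157) (nat_lit 1346373168) (.two (nat_lit 2097153) (nat_lit 1346373168) (.two (nat_lit 2097152) (nat_lit 303043551) (.one (nat_lit 18925753697) .nil)))))),
   .two (nat_lit 2349858837) (nat_lit 1212153968) (.two (nat_lit 18928893967) (nat_lit 10939793429) (.two (nat_lit 303038474) (nat_lit 11614027978) (.two (nat_lit 1846542341) (nat_lit 13224640966) (.two (nat_lit 21207449605) (nat_lit 156971827425) (.two (nat_lit 605028353) (nat_lit 339739603) (.two (nat_lit 1048576) (nat_lit 3024094872) (.one (nat_lit 4199792) .nil))))))),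
   .two (nat_lit 28086108181) (nat_lit 19096666149) (.two (nat_lit 19599982607) (nat_lit 28086108181) (.two (nat_lit 47547678729) (nat_lit 876609738) (.two (nat_lit 705691650) (nat_lit 13224640966) (.two (nat_lit 158075977733) (nat_lit 156971827425) (.two (nat_lit 34603009) (nat_lit 339739603) (.two (nat_lit 1048576) (nat_lit 3024094872) (.one (nat_lit 4201286) .nil))))))),
   .two (nat_lit 276824079) (nat_lit 3527409728) (.two (nat_lit 11476664322) (nat_lit 4194783) (.two (nat_lit 34603009) (nat_lit 46409977479) (.one (nat_lit 9772733805) .nil))),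
   .two (nat_lit 775946264) (nat_lit 11007950969) (.two (nat_lit 184419352584) (nat_lit 20638073562) (.two (nat_lit 1176502277) (nat_lit 12050235848) (.two (nat_lit 713031683) (nat_lit 159217877858) (.two (nat_lit 41943041) (nat_lit 159217878557) (.two (nat_lit 8388608) (nat_lit 3525317616) (.one (nat_lit 20640174133) .nil)))))),
   .two (nat_lit 50331663) (nat_lit 2887778429) (.two (nat_lit 272629768) (nat_lit 889192643) (.two (nat_lit 9934209029) (nat_lit 11479810916) (.two (nat_lit 16777217) (nat_lit 37249616400) (.two (nat_lit 2097152) (nat_lit 16781225) (.one (nat_lit 4198491) .nil))))),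
   .two (nat_lit 809500687) (nat_lit 12054429811) (.two (nat_lit 809500680) (nat_lit 20745027787) (.two (nat_lit 13195280391) (nat_lit 37748831) (.two (nat_lit 4194308) (nat_lit 184993973090) (.two (nat_lit 4194305) (nat_lit 156539816451) (.two (nat_lit 4194304) (nat_lit 8391391) (.one (nat_lit 4199794) .nil)))))),
   .two (nat_lit 12117344271) (nat_lit 184986632227) (.two (nat_lit 184986632207) (nat_lit 12150898708) (.two (nat_lit 184986632200) (nat_lit 10372513994) (.two (nat_lit 183845781506) (nat_lit 4195741) (.two (nat_lit 705691652) (nat_lit 641728989) (.two (nat_lit 156364701697) (nat_lit 4196931) (.two (nat_lit 1048576) (nat_lit 4198349) (.one (nat_lit 4201292) .nil))))))),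
   .two (nat_lit 1779433487) (nat_lit 10385096814) (.two (nat_lit 9948889096) (nat_lit 19093520482) (.two (nat_lit 1191182341) (nat_lit 1913651664) (.two (nat_lit 184549380) (nat_lit 1947205857) (.two (nat_lit 16777217) (nat_lit 202376158) (.two (nat_lit 16777216) (nat_lit 1051366) (.one (nat_lit 889199396) .nil)))))),
   .two (nat_lit 174752530447) (nat_lit 21208498291) (.two (nat_lit 840957962) (nat_lit 156566028327) (.two (nat_lit 20637024264) (nat_lit 19128123595) (.two (nat_lit 166130089987) (nat_lit 46507492677) (.two (nat_lit 9766436865) (nat_lit 772802194) (.two (nat_lit 2097152) (nat_lit 2990541511) (.one (nat_lit 4201293) .nil)))))),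
   .two (nat_lit 46409973775) (nat_lit 1847591027) (.two (nat_lit 46409973768) (nat_lit 1411383499) (.two (nat_lit 47550824455) (nat_lit 236979248) (.two (nat_lit 639631365) (nat_lit 1950351587) (.two (nat_lit 639631365) (nat_lit 3560964965) (.two (nat_lit 605028353) (nat_lit 2099781) (.two (nat_lit 1048576) (nat_lit 4198353) (.one (nat_lit 4201294) .nil))))))),
   .two (nat_lit 41943055) (nat_lit 10336862275) (.two (nat_lit 41943048) (nat_lit 1914700136) (.two (nat_lit 8388612) (nat_lit 9867100629) (.two (nat_lit 8388611) (nat_lit 156567078190) (.two (nat_lit 8388609) (nat_lit 10336863787) (.two (nat_lit 8388608) (nat_lit 16781266) (.one (nat_lit 8395599) .nil)))))),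
   .two (nat_lit 1191182351) (nat_lit 2923429908) (.two (nat_lit 46409973764) (nat_lit 11593056733) (.two (nat_lit 4194305) (nat_lit 16778210) (.one (nat_lit 16782715) .nil))),
   .two (nat_lit 9948889103) (nat_lit 28758245443) (.two (nat_lit 620757000) (nat_lit 9799991498) (.two (nat_lit 184549380) (nat_lit 1210057573) (.two (nat_lit 184549380) (nat_lit 156365750734) (.two (nat_lit 16777217) (nat_lit 12148803111) (.two (nat_lit 2097152) (nat_lit 318771258) (.one (nat_lit 16784208) .nil)))))),
   .two (nat_lit 46980399119) (nat_lit 11618222192) (.two (nat_lit 46980399112) (nat_lit 1283457221) (.two (nat_lit 713031688) (nat_lit 28089254090) (.two (nat_lit 46409973764) (nat_lit 11618222946) (.two (nat_lit 156367847425) (nat_lit 3531606534) (.two (nat_lit 4194304) (nat_lit 165532403355) (.one (nat_lit 4199805) .nil)))))),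
   .two (nat_lit 713031695) (nat_lit 9798942787) (.two (nat_lit 75497480) (nat_lit 1309672169) (.two (nat_lit 16777220) (nat_lit 10370417118) (.two (nat_lit 159224168453) (nat_lit 218104677) (.two (nat_lit 612368385) (nat_lit 2920285140) (.two (nat_lit 1048576) (nat_lit 2102512) (.one (nat_lit 2104145) .nil)))))),
   .two (nat_lit 4601151503) (nat_lit 159257723008) (.two (nat_lit 12054429704) (nat_lit 156367847619) (.two (nat_lit 183853121540) (nat_lit 157038937418) (.two (nat_lit 41943041) (nat_lit 675284530) (.two (nat_lit 16777216) (nat_lit 4198358) (.one (nat_lit 16784210) .nil))))),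
   .two (nat_lit 158083317775) (nat_lit 873463884) (.two (nat_lit 50331656) (nat_lit 46481276966) (.two (nat_lit 50331656) (nat_lit 46481277024) (.two (nat_lit 16777220) (nat_lit 1317011932) (.two (nat_lit 156364701697) (nat_lit 8391239) (.two (nat_lit 1048576) (nat_lit 16781273) (.one (nat_lit 16782723) .nil)))))),
   .two (nat_lit 13187940363) (nat_lit 4605345913) (.two (nat_lit 50331663) (nat_lit 8388630) (.two (nat_lit 880803852) (nat_lit 11610882146) (.two (nat_lit 184993972229) (nat_lit 3557819737) (.two (nat_lit 41943041) (nat_lit 2349861389) (.two (nat_lit 8388608) (nat_lit 1051347) (.one (nat_lit 1054084) .nil)))))),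
   .two (nat_lit 158647451669) (nat_lit 3028287602) (.two (nat_lit 612368399) (nat_lit 158647451669) (.two (nat_lit 35651594) (nat_lit 21785215074) (.two (nat_lit 174753579013) (nat_lit 1384120784) (.two (nat_lit 174753579013) (nat_lit 1417674977) (.two (nat_lit 9766436865) (nat_lit 10376709086) (.two (nat_lit 2097152) (nat_lit 1417676452) (.one (nat_lit 8395603) .nil))))))),
   .two (nat_lit 1779433487) (nat_lit 1847590978) (.two (nat_lit 9933160454) (nat_lit 1847591269) (.two (nat_lit 1779433480) (nat_lit 304087238) (.two (nat_lit 1276116996) (nat_lit 1847591778) (.two (nat_lit 605028353) (nat_lit 304089607) (.two (nat_lit 1048576) (nat_lit 46474987173) (.one (nat_lit 2104148) .nil)))))),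
   .two (nat_lit 184549391) (nat_lit 1377828983) (.two (nat_lit 184549384) (nat_lit 28758245474) (.two (nat_lit 16777221) (nat_lit 11477713368) (.two (nat_lit 16777221) (nat_lit 166230753505) (.two (nat_lit 620756993) (nat_lit 157035792909) (.two (nat_lit 1048576) (nat_lit 159251433113) (.one (nat_lit 1054027) .nil)))))),
   .two (nat_lit 158075977743) (nat_lit 706740345) (.two (nat_lit 1916796936) (nat_lit 184986632387) (.two (nat_lit 2889875458) (nat_lit 1050015) (.two (nat_lit 1178599427) (nat_lit 166229706036) (.two (nat_lit 606076929) (nat_lit 1346373166) (.two (nat_lit 2097152) (nat_lit 4198362) (.one (nat_lit 1055573) .nil)))))),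
   .two (nat_lit 3525312523) (nat_lit 11492393081) (.two (nat_lit 21827158053) (nat_lit 11577327641) (.two (nat_lit 13187940358) (nat_lit 10385096904) (.two (nat_lit 183845781512) (nat_lit 10351542468) (.two (nat_lit 183845781506) (nat_lit 11022633072) (.two (nat_lit 13187940357) (nat_lit 21827159583) (.two (nat_lit 34603009) (nat_lit 46523223579) (.two (nat_lit 1048576) (nat_lit 16781275) (.one (nat_lit 2104150) .nil)))))))),
   .two (nat_lit 19596836879) (nat_lit 813695045) (.two (nat_lit 19596836879) (nat_lit 158150426642) (.two (nat_lit 9881780232) (nat_lit 135266399) (.two (nat_lit 176160770) (nat_lit 1051057) (.two (nat_lit 209715205) (nat_lit 156481094607) (.two (nat_lit 620756993) (nat_lit 9906947629) (.two (nat_lit 16777216) (nat_lit 1051370) (.one (nat_lit 1055575) .nil))))))),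
   .two (nat_lit 165526110223) (nat_lit 19604177028) (.two (nat_lit 158083317768) (nat_lit 889192643) (.two (nat_lit 20644364292) (nat_lit 203424612) (.two (nat_lit 612368385) (nat_lit 1847593499) (.two (nat_lit 8388608) (nat_lit 102764629) (.one (nat_lit 46508546638) .nil))))),
   .two (nat_lit 205520911) (nat_lit 2927624229) (.two (nat_lit 205520911) (nat_lit 11517558804) (.two (nat_lit 205520904) (nat_lit 13228834911) (.two (nat_lit 2956984325) (nat_lit 1417675224) (.two (nat_lit 176160772) (nat_lit 12114198753) (.two (nat_lit 4194305) (nat_lit 2920285138) (.two (nat_lit 4194304) (nat_lit 1209009811) (.one (nat_lit 1055576) .nil))))))),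
   .two (nat_lit 754974735) (nat_lit 10000269431) (.two (nat_lit 4605345798) (nat_lit 20652753553) (.two (nat_lit 754974728) (nat_lit 156532474065) (.two (nat_lit 3531603973) (nat_lit 3472884583) (.two (nat_lit 8388609) (nat_lit 83888659) (.two (nat_lit 8388608) (nat_lit 16781276) (.one (nat_lit 1055578) .nil)))))),
   .two (nat_lit 16777231) (nat_lit 11584667758) (.two (nat_lit 11551113224) (nat_lit 620757187) (.two (nat_lit 746586117) (nat_lit 20753416668) (.two (nat_lit 16777221) (nat_lit 1176503145) (.two (nat_lit 9781116929) (nat_lit 11578379845) (.two (nat_lit 2097152) (nat_lit 16782578) (.one (nat_lit 156969736912) .nil)))))),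
   .two (nat_lit 157038936079) (nat_lit 740294776) (.two (nat_lit 3460300808) (nat_lit 2894070120) (.two (nat_lit 171966469) (nat_lit 47588573411) (.two (nat_lit 605028353) (nat_lit 4195895) (.two (nat_lit 1048576) (nat_lit 4199668) (.one (nat_lit 8395611) .nil))))),
   .two (nat_lit 75497487) (nat_lit 639631608) (.two (nat_lit 75497480) (nat_lit 270532647) (.two (nat_lit 754974728) (nat_lit 46407876807) (.two (nat_lit 156976021509) (nat_lit 159217877468) (.two (nat_lit 9766436865) (nat_lit 1954549317) (.two (nat_lit 16777216) (nat_lit 8392670) (.one (nat_lit 2902463850) .nil)))))),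
   .two (nat_lit 19596836879) (nat_lit 117440547) (.two (nat_lit 1795162127) (nat_lit 11510218772) (.two (nat_lit 19596836872) (nat_lit 1191182431) (.two (nat_lit 183845781506) (nat_lit 16778099) (.two (nat_lit 183845781508) (nat_lit 11525947869) (.two (nat_lit 34603009) (nat_lit 10552869835) (.two (nat_lit 1048576) (nat_lit 16780013) (.one (nat_lit 16782733) .nil))))))),
   .two (nat_lit 10370416655) (nat_lit 117440549) (.two (nat_lit 10370416655) (nat_lit 1795162133) (.two (nat_lit 1358954504) (nat_lit 18926796996) (.two (nat_lit 9881780229) (nat_lit 10940842456) (.two (nat_lit 721420292) (nat_lit 639631585) (.two (nat_lit 50331649) (nat_lit 1377831486) (.two (nat_lit 16777216) (nat_lit 10437528267) (.one (nat_lit 2104157) .nil))))))),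
   .two (nat_lit 276824079) (nat_lit 12150898807) (.two (nat_lit 156367847432) (nat_lit 68158177) (.two (nat_lit 41943045) (nat_lit 12150900057) (.two (nat_lit 41943041) (nat_lit 10942941709) (.two (nat_lit 8388608) (nat_lit 47550829792) (.one (nat_lit 8395614) .nil))))),
   .two (nat_lit 46409973771) (nat_lit 10940842121) (.two (nat_lit 28758245413) (nat_lit 158176641049) (.two (nat_lit 3524263945) (nat_lit 21812478580) (.two (nat_lit 68157448) (nat_lit 174686470242) (.two (nat_lit 28690087941) (nat_lit 136316239) (.two (nat_lit 9765388289) (nat_lit 35655618) (.two (nat_lit 1048576) (nat_lit 35655618) (.one (nat_lit 4201311) .nil))))))),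
   .two (nat_lit 11551113231) (nat_lit 185002360974) (.two (nat_lit 3525312529) (nat_lit 138412140) (.two (nat_lit 713031688) (nat_lit 159251431520) (.two (nat_lit 41943047) (nat_lit 21208498902) (.two (nat_lit 41943045) (nat_lit 174686470367) (.two (nat_lit 41943043) (nat_lit 4647290540) (.two (nat_lit 41943041) (nat_lit 1929382461) (.two (nat_lit 8388608) (nat_lit 16781280) (.one (nat_lit 8394132) .nil)))))))),
   .two (nat_lit 183848927247) (nat_lit 10369368186) (.two (nat_lit 13191086086) (nat_lit 168821367) (.two (nat_lit 183848927236) (nat_lit 185020187507) (.two (nat_lit 156372041731) (nat_lit 158075978594) (.two (nat_lit 156372041729) (nat_lit 156566030851) (.two (nat_lit 8388608) (nat_lit 9966720101) (.one (nat_lit 1054102) .nil)))))),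
   .two (nat_lit 176160783) (nat_lit 156566028361) (.two (nat_lit 620757000) (nat_lit 9866051942) (.two (nat_lit 184549380) (nat_lit 839909599) (.two (nat_lit 16777217) (nat_lit 1779433976) (.two (nat_lit 16777216) (nat_lit 165525063329) (.one (nat_lit 8395616) .nil))))),
   .two (nat_lit 2889875471) (nat_lit 840957974) (.two (nat_lit 169869316) (nat_lit 171966941) (.two (nat_lit 2097153) (nat_lit 1782579706) (.one (nat_lit 12050239569) .nil))),
   .two (nat_lit 47548727311) (nat_lit 11010048067) (.two (nat_lit 3458203656) (nat_lit 1346372217) (.two (nat_lit 169869316) (nat_lit 2420113884) (.two (nat_lit 9768534021) (nat_lit 4632609637) (.two (nat_lit 156365750273) (nat_lit 13191087659) (.two (nat_lit 2097152) (nat_lit 4198370) (.one (nat_lit 20638078295) .nil)))))),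
   .two (nat_lit 18928893967) (nat_lit 10343153699) (.two (nat_lit 18928893967) (nat_lit 47555018770) (.two (nat_lit 4605345800) (nat_lit 10942939639) (.two (nat_lit 11479810050) (nat_lit 11484005232) (.two (nat_lit 8388612) (nat_lit 10942939639) (.two (nat_lit 9768534017) (nat_lit 8392498) (.two (nat_lit 4194304) (nat_lit 8393976) (.one (nat_lit 4201316) .nil))))))),
   .two (nat_lit 3458203663) (nat_lit 28757196821) (.two (nat_lit 46407876610) (nat_lit 1049060) (.two (nat_lit 156365750273) (nat_lit 9798942955) (.one (nat_lit 1054106) .nil))),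
   .two (nat_lit 8388623) (nat_lit 159253528697) (.two (nat_lit 41943048) (nat_lit 28086108808) (.two (nat_lit 183845781508) (nat_lit 183848928100) (.two (nat_lit 4194305) (nat_lit 1283460599) (.two (nat_lit 4194304) (nat_lit 713037027) (.one (nat_lit 11614031977) .nil))))),
   .two (nat_lit 10506731560) (nat_lit 47548727333) (.two (nat_lit 1178599439) (nat_lit 3458203670) (.two (nat_lit 156569174028) (nat_lit 158177689802) (.two (nat_lit 1277165570) (nat_lit 4195746) (.two (nat_lit 1277165572) (nat_lit 28793897425) (.two (nat_lit 9766436865) (nat_lit 138416090) (.two (nat_lit 2097152) (nat_lit 138416090) (.one (nat_lit 2104165) .nil))))))),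
   .two (nat_lit 9866051599) (nat_lit 158083317826) (.two (nat_lit 9866051592) (nat_lit 28093448549) (.two (nat_lit 1846542341) (nat_lit 9974055388) (.two (nat_lit 605028353) (nat_lit 4605348378) (.two (nat_lit 1048576) (nat_lit 8392675) (.one (nat_lit 1745885807) .nil))))),
   .two (nat_lit 746586123) (nat_lit 158176641089) (.two (nat_lit 41943075) (nat_lit 1048627) (.two (nat_lit 28705816586) (nat_lit 1779433829) (.two (nat_lit 41943047) (nat_lit 68157538) (.two (nat_lit 83886085) (nat_lit 1779434338) (.two (nat_lit 16777217) (nat_lit 612369950) (.two (nat_lit 16777216) (nat_lit 168822434) (.one (nat_lit 1055590) .nil))))))),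
   .two (nat_lit 9866051599) (nat_lit 11584667715) (.two (nat_lit 9866051592) (nat_lit 13228834912) (.two (nat_lit 1779433480) (nat_lit 46481277140) (.two (nat_lit 1343225861) (nat_lit 174692762069) (.two (nat_lit 68157443) (nat_lit 1753221529) (.two (nat_lit 9781116929) (nat_lit 11543774164) (.two (nat_lit 16777216) (nat_lit 1052645) (.one (nat_lit 1054110) .nil))))))),
   .two (nat_lit 28758245391) (nat_lit 10503585831) (.two (nat_lit 3460300808) (nat_lit 1780482774) (.two (nat_lit 705691651) (nat_lit 19094571229) (.two (nat_lit 156367847425) (nat_lit 10369369046) (.two (nat_lit 1048576) (nat_lit 2102521) (.one (nat_lit 1913655369) .nil))))),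
   .two (nat_lit 157036838927) (nat_lit 19599982629) (.two (nat_lit 157036838927) (nat_lit 12150898708) (.two (nat_lit 1916796936) (nat_lit 9799991391) (.two (nat_lit 11479810050) (nat_lit 2098037) (.two (nat_lit 11479810052) (nat_lit 3021996509) (.two (nat_lit 37748737) (nat_lit 158647453215) (.two (nat_lit 4194304) (nat_lit 236980973) (.one (nat_lit 2104168) .nil))))))),
   .two (nat_lit 285212683) (nat_lit 18933088377) (.two (nat_lit 9781116943) (nat_lit 1954545686) (.two (nat_lit 10503585798) (nat_lit 158183981514) (.two (nat_lit 10335813637) (nat_lit 11551114806) (.two (nat_lit 83886085) (nat_lit 183953785338) (.two (nat_lit 16777217) (nat_lit 11551114806) (.two (nat_lit 1048576) (nat_lit 9940503274) (.one (nat_lit 16784233) .nil))))))),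
   .two (nat_lit 50331663) (nat_lit 639631427) (.two (nat_lit 285212680) (nat_lit 12048138600) (.two (nat_lit 16777220) (nat_lit 840958179) (.two (nat_lit 50331649) (nat_lit 2098148) (.two (nat_lit 16777216) (nat_lit 2101223) (.one (nat_lit 16784234) .nil))))),
   .two (nat_lit 46474985496) (nat_lit 9772728359) (.two (nat_lit 203423752) (nat_lit 9772728359) (.two (nat_lit 21214789640) (nat_lit 4028629196) (.two (nat_lit 169869315) (nat_lit 185027526879) (.two (nat_lit 9768534017) (nat_lit 840958934) (.two (nat_lit 4194304) (nat_lit 35654386) (.one (nat_lit 2101366) .nil)))))),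
   .two (nat_lit 176160783) (nat_lit 788529229) (.two (nat_lit 176160783) (nat_lit 1291845652) (.two (nat_lit 176160776) (nat_lit 18941477060) (.two (nat_lit 654311429) (nat_lit 9906946512) (.two (nat_lit 654311429) (nat_lit 20644364513) (.two (nat_lit 620756993) (nat_lit 159224170014) (.two (nat_lit 16777216) (nat_lit 20644365988) (.one (nat_lit 8395627) .nil))))))),
   .two (nat_lit 157038936079) (nat_lit 10940842121) (.two (nat_lit 184417255433) (nat_lit 1346371623) (.two (nat_lit 174686470157) (nat_lit 2990538961) (.two (nat_lit 19530776581) (nat_lit 12117344727) (.two (nat_lit 2097153) (nat_lit 13224641494) (.two (nat_lit 2097152) (nat_lit 4198355) (.one (nat_lit 4199806) .nil)))))),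
   .two (nat_lit 37748763) (nat_lit 10907287677) (.two (nat_lit 4601151494) (nat_lit 9766436902) (.two (nat_lit 156367847432) (nat_lit 69206213) (.two (nat_lit 46409973764) (nat_lit 606077151) (.two (nat_lit 4194305) (nat_lit 1847591416) (.two (nat_lit 4194304) (nat_lit 2101225) (.one (nat_lit 46508544073) .nil)))))),
   .two (nat_lit 272629775) (nat_lit 1913651316) (.two (nat_lit 809500680) (nat_lit 158646403742) (.two (nat_lit 4194306) (nat_lit 9798944300) (.two (nat_lit 157035790341) (nat_lit 47550825317) (.two (nat_lit 16777217) (nat_lit 739247060) (.two (nat_lit 16777216) (nat_lit 10939797472) (.one (nat_lit 4201324) .nil)))))),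
   .two (nat_lit 16777246) (nat_lit 9969860680) (.two (nat_lit 159217876998) (nat_lit 2889875662) (.two (nat_lit 1358954504) (nat_lit 708837585) (.two (nat_lit 1291845635) (nat_lit 4195747) (.two (nat_lit 606076929) (nat_lit 4195897) (.two (nat_lit 8388608) (nat_lit 2101226) (.one (nat_lit 2102691) .nil)))))),
   .two (nat_lit 183845781521) (nat_lit 28758245443) (.two (nat_lit 1745879048) (nat_lit 9799991999) (.two (nat_lit 12114198533) (nat_lit 156567077087) (.two (nat_lit 34603009) (nat_lit 28758245880) (.two (nat_lit 1048576) (nat_lit 2101228) (.one (nat_lit 37313581124) .nil))))),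
   .two (nat_lit 4605345829) (nat_lit 1358954564) (.two (nat_lit 18933088271) (nat_lit 20719861798) (.two (nat_lit 18933088271) (nat_lit 183861510341) (.two (nat_lit 20644364297) (nat_lit 13203669215) (.two (nat_lit 721420296) (nat_lit 880804294) (.two (nat_lit 156372041733) (nat_lit 754975224) (.two (nat_lit 156372041733) (nat_lit 37262198413) (.two (nat_lit 41943041) (nat_lit 37262198413) (.two (nat_lit 8388608) (nat_lit 19109251872) (.one (nat_lit 16782791) .nil))))))))),
   .two (nat_lit 352321557) (nat_lit 28093448305) (.two (nat_lit 11559501938) (nat_lit 4605345829) (.two (nat_lit 721420303) (nat_lit 183953785029) (.two (nat_lit 721420303) (nat_lit 10343153762) (.two (nat_lit 721420296) (nat_lit 880804294) (.two (nat_lit 721420296) (nat_lit 156372041953) (.two (nat_lit 183853121538) (nat_lit 721421967) (.two (nat_lit 156372041731) (nat_lit 889195058) (.two (nat_lit 41943041) (nat_lit 754978693) (.two (nat_lit 8388608) (nat_lit 1358957347) (.one (nat_lit 20652757115) .nil)))))))))),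
   .two (nat_lit 2954887235) (nat_lit 780140565) (.two (nat_lit 34603013) (nat_lit 1384120552) (.one (nat_lit 1786779049) .nil)),
   .two (nat_lit 50331715) (nat_lit 10343153732) (.two (nat_lit 46414168079) (nat_lit 20719861798) (.two (nat_lit 721420303) (nat_lit 746586311) (.two (nat_lit 46414168072) (nat_lit 183928619231) (.two (nat_lit 46414168072) (nat_lit 2902458826) (.two (nat_lit 4605345797) (nat_lit 620757496) (.two (nat_lit 156372041731) (nat_lit 16778196) (.two (nat_lit 8388609) (nat_lit 16778910) (.two (nat_lit 8388608) (nat_lit 16781377) (.one (nat_lit 16784296) .nil))))))))),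
   .two (nat_lit 158075977762) (nat_lit 12163481668) (.two (nat_lit 158075977743) (nat_lit 687865895) (.two (nat_lit 158075977736) (nat_lit 184549847) (.two (nat_lit 68157443) (nat_lit 721420792) (.two (nat_lit 605028353) (nat_lit 156984410625) (.two (nat_lit 8388608) (nat_lit 28101841047) (.one (nat_lit 28101841047) .nil)))))),
   .two (nat_lit 1291845743) (nat_lit 10370416661) (.two (nat_lit 169869314) (nat_lit 16777723) (.one (nat_lit 16784297) .nil)),
   .two (nat_lit 12163481621) (nat_lit 156569174128) (.two (nat_lit 9768534031) (nat_lit 1191182434) (.two (nat_lit 9768534024) (nat_lit 117440737) (.two (nat_lit 117440517) (nat_lit 37749715) (.two (nat_lit 2889875460) (nat_lit 3472883947) (.two (nat_lit 620756993) (nat_lit 171968152) (.two (nat_lit 16777216) (nat_lit 37751585) (.one (nat_lit 4201386) .nil))))))),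
   .two (nat_lit 2902458389) (nat_lit 2923429908) (.two (nat_lit 46409973764) (nat_lit 28101837035) (.one (nat_lit 2432701881) .nil)),
   .two (nat_lit 13237223445) (nat_lit 9966715008) (.two (nat_lit 285212677) (nat_lit 11006902507) (.one (nat_lit 156532478092) .nil)),
   .two (nat_lit 306184258) (nat_lit 156532473927) (.two (nat_lit 13191086095) (nat_lit 19127074854) (.two (nat_lit 28690087944) (nat_lit 742392031) (.two (nat_lit 183848927235) (nat_lit 21811429880) (.two (nat_lit 37748737) (nat_lit 1376781321) (.two (nat_lit 4194304) (nat_lit 1051439) (.one (nat_lit 184986637818) .nil)))))),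
   .two (nat_lit 11543773248) (nat_lit 174753579045) (.two (nat_lit 10504634383) (nat_lit 19026411722) (.two (nat_lit 11543773192) (nat_lit 1847591137) (.two (nat_lit 1276116996) (nat_lit 10538190365) (.two (nat_lit 9765388289) (nat_lit 203427752) (.two (nat_lit 1048576) (nat_lit 1277169822) (.one (nat_lit 165525068662) .nil)))))),
   .two (nat_lit 4601151507) (nat_lit 739246194) (.two (nat_lit 270532724) (nat_lit 2923429925) (.two (nat_lit 2887778319) (nat_lit 12050235488) (.two (nat_lit 2887778319) (nat_lit 13224640607) (.two (nat_lit 1276117000) (nat_lit 46474985931) (.two (nat_lit 2887778312) (nat_lit 47550824954) (.two (nat_lit 47550824453) (nat_lit 10538190369) (.two (nat_lit 18928893955) (nat_lit 11543774749) (.two (nat_lit 156367847425) (nat_lit 28690091928) (.two (nat_lit 4194304) (nat_lit 2102611) (.one (nat_lit 4199887) .nil)))))))))),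
   .two (nat_lit 673185813) (nat_lit 10506731541) (.two (nat_lit 203423749) (nat_lit 1346371817) (.one (nat_lit 2102736) .nil)),
   .two (nat_lit 176160802) (nat_lit 654311492) (.two (nat_lit 218103832) (nat_lit 21214789670) (.two (nat_lit 2902458376) (nat_lit 4034920671) (.two (nat_lit 285212677) (nat_lit 176161802) (.two (nat_lit 16777217) (nat_lit 176161802) (.two (nat_lit 2097152) (nat_lit 16781380) (.one (nat_lit 16782801) .nil)))))),
   .two (nat_lit 3573547029) (nat_lit 1048598) (.two (nat_lit 2097157) (nat_lit 3573547240) (.one (nat_lit 1054164) .nil)),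
   .two (nat_lit 880803877) (nat_lit 9915334775) (.two (nat_lit 285212683) (nat_lit 183953785700) (.two (nat_lit 612368399) (nat_lit 4043309265) (.two (nat_lit 285212678) (nat_lit 183953785700) (.two (nat_lit 612368392) (nat_lit 174701150680) (.two (nat_lit 46992982021) (nat_lit 20644364792) (.two (nat_lit 2902458372) (nat_lit 41944010) (.two (nat_lit 16777217) (nat_lit 679480102) (.two (nat_lit 1048576) (nat_lit 243272486) (.one (nat_lit 3457160627) .nil))))))))),
   .two (nat_lit 183912890478) (nat_lit 11584667669) (.two (nat_lit 21785214981) (nat_lit 158646403579) (.one (nat_lit 1055664) .nil)),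
   .two (nat_lit 11543773248) (nat_lit 156971827221) (.two (nat_lit 11476664322) (nat_lit 4195877) (.one (nat_lit 4199893) .nil)),
   .two (nat_lit 11577327683) (nat_lit 11513364518) (.two (nat_lit 1178599439) (nat_lit 13221494822) (.two (nat_lit 1178599432) (nat_lit 157035790559) (.two (nat_lit 612368387) (nat_lit 184986632696) (.two (nat_lit 612368385) (nat_lit 1376781323) (.two (nat_lit 8388608) (nat_lit 1054037) (.one (nat_lit 1055665) .nil)))))),
   .two (nat_lit 101711893) (nat_lit 12054429764) (.two (nat_lit 28790751269) (nat_lit 3565158469) (.two (nat_lit 11543773199) (nat_lit 3565158599) (.two (nat_lit 11543773199) (nat_lit 10343153762) (.two (nat_lit 11543773192) (nat_lit 47555019210) (.two (nat_lit 11543773192) (nat_lit 184993972449) (.two (nat_lit 705691652) (nat_lit 46414169044) (.two (nat_lit 705691652) (nat_lit 3028288466) (.two (nat_lit 605028353) (nat_lit 8391374) (.two (nat_lit 1048576) (nat_lit 8392774) (.one (nat_lit 8395698) .nil)))))))))),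
   .two (nat_lit 19027460133) (nat_lit 10015998020) (.two (nat_lit 16777227) (nat_lit 4632608806) (.two (nat_lit 620757007) (nat_lit 1746927813) (.two (nat_lit 47563407368) (nat_lit 236979042) (.two (nat_lit 184549380) (nat_lit 2988442104) (.two (nat_lit 184549379) (nat_lit 1847592603) (.two (nat_lit 156364701697) (nat_lit 2350910153) (.two (nat_lit 1048576) (nat_lit 16782678) (.one (nat_lit 1055667) .nil)))))))),
   .two (nat_lit 4605345859) (nat_lit 158179786789) (.two (nat_lit 1178599439) (nat_lit 847249603) (.two (nat_lit 742391816) (nat_lit 310378730) (.two (nat_lit 21778923525) (nat_lit 2994734027) (.two (nat_lit 176160772) (nat_lit 28691137015) (.two (nat_lit 37748737) (nat_lit 4605347487) (.two (nat_lit 4194304) (nat_lit 2994737277) (.one (nat_lit 71310206) .nil))))))),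
   .two (nat_lit 46510637123) (nat_lit 156976021575) (.two (nat_lit 272629775) (nat_lit 157043130406) (.two (nat_lit 272629768) (nat_lit 13228835039) (.two (nat_lit 4194308) (nat_lit 28093448696) (.two (nat_lit 4194305) (nat_lit 9906947083) (.two (nat_lit 4194304) (nat_lit 8391474) (.one (nat_lit 1317017028) .nil)))))),
   .two (nat_lit 2923429955) (nat_lit 1862271047) (.two (nat_lit 10385096816) (nat_lit 4601151524) (.two (nat_lit 10385096719) (nat_lit 10372513990) (.two (nat_lit 4601151504) (nat_lit 2969567440) (.two (nat_lit 4601151496) (nat_lit 9881781091) (.two (nat_lit 4194308) (nat_lit 1291846604) (.two (nat_lit 4194307) (nat_lit 11525949963) (.two (nat_lit 4194305) (nat_lit 11626613454) (.two (nat_lit 16777216) (nat_lit 156569178165) (.one (nat_lit 4201396) .nil))))))))),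
   .two (nat_lit 8388672) (nat_lit 12047089698) (.two (nat_lit 12047089679) (nat_lit 41943235) (.two (nat_lit 612368392) (nat_lit 9933160918) (.two (nat_lit 1745879047) (nat_lit 639632226) (.two (nat_lit 19596836869) (nat_lit 10370417144) (.two (nat_lit 18925748227) (nat_lit 35653275) (.two (nat_lit 612368385) (nat_lit 2099919) (.two (nat_lit 2097152) (nat_lit 8394071) (.one (nat_lit 8395701) .nil)))))))),
   .two (nat_lit 10436476995) (nat_lit 1920991304) (.two (nat_lit 713031695) (nat_lit 605028390) (.two (nat_lit 1350565896) (nat_lit 166196151138) (.two (nat_lit 713031684) (nat_lit 10436477432) (.two (nat_lit 4194305) (nat_lit 166136381952) (.two (nat_lit 1048576) (nat_lit 11513370026) (.one (nat_lit 20737693175) .nil)))))),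
   .two (nat_lit 11479810116) (nat_lit 9881780292) (.two (nat_lit 11479810063) (nat_lit 13203669031) (.two (nat_lit 165532401672) (nat_lit 46510637527) (.two (nat_lit 1358954501) (nat_lit 708838349) (.two (nat_lit 37748737) (nat_lit 9781119690) (.two (nat_lit 8388608) (nat_lit 4198473) (.one (nat_lit 156367852998) .nil)))))),
   .two (nat_lit 218103875) (nat_lit 19134414920) (.two (nat_lit 2969567247) (nat_lit 1283457062) (.two (nat_lit 2969567247) (nat_lit 1283457120) (.two (nat_lit 2969567240) (nat_lit 46984593635) (.two (nat_lit 2969567240) (nat_lit 2894070223) (.two (nat_lit 184549378) (nat_lit 8389591) (.two (nat_lit 2902458371) (nat_lit 158150429383) (.two (nat_lit 16777217) (nat_lit 158150429383) (.two (nat_lit 8388608) (nat_lit 4199769) (.one (nat_lit 4201402) .nil))))))))),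
   .two (nat_lit 10370416661) (nat_lit 21781020799) (.two (nat_lit 10538188837) (nat_lit 21781020799) (.two (nat_lit 9934209039) (nat_lit 47584379089) (.two (nat_lit 2988441617) (nat_lit 28693233762) (.two (nat_lit 169869320) (nat_lit 306184646) (.two (nat_lit 169869320) (nat_lit 19130220769) (.two (nat_lit 169869316) (nat_lit 809501642) (.two (nat_lit 2097155) (nat_lit 156569175581) (.two (nat_lit 2097153) (nat_lit 809503526) (.two (nat_lit 1048576) (nat_lit 306188351) (.one (nat_lit 13221500338) .nil)))))))))),
   .two (nat_lit 889192515) (nat_lit 9967763494) (.two (nat_lit 721420303) (nat_lit 9967763494) (.two (nat_lit 20705181713) (nat_lit 3036676454) (.two (nat_lit 1780482056) (nat_lit 47584379103) (.two (nat_lit 9867100168) (nat_lit 37262197199) (.two (nat_lit 11479810053) (nat_lit 165526110712) (.two (nat_lit 1176502277) (nat_lit 18941477848) (.two (nat_lit 2097153) (nat_lit 165540791968) (.two (nat_lit 8388608) (nat_lit 21208501024) (.one (nat_lit 2104251) .nil))))))))),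
   .two (nat_lit 2969567342) (nat_lit 166130090005) (.two (nat_lit 46407876612) (nat_lit 2969567466) (.one (nat_lit 16782813) .nil)),
   .two (nat_lit 183846830117) (nat_lit 12150898726) (.two (nat_lit 46407876623) (nat_lit 742391846) (.two (nat_lit 20705181713) (nat_lit 10335813836) (.two (nat_lit 2097162) (nat_lit 165528207831) (.two (nat_lit 1277165576) (nat_lit 1413480906) (.two (nat_lit 1176502277) (nat_lit 156566029265) (.two (nat_lit 713031683) (nat_lit 336593876) (.two (nat_lit 41943041) (nat_lit 9765389965) (.two (nat_lit 8388608) (nat_lit 156365754442) (.one (nat_lit 4201404) .nil))))))))),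
   .two (nat_lit 2902458386) (nat_lit 840958077) (.two (nat_lit 183853121602) (nat_lit 13188988965) (.two (nat_lit 117440527) (nat_lit 236978376) (.two (nat_lit 1795162127) (nat_lit 2921332831) (.two (nat_lit 9766436872) (nat_lit 3003122119) (.two (nat_lit 9766436872) (nat_lit 50331870) (.two (nat_lit 218103813) (nat_lit 46414169034) (.two (nat_lit 2887778308) (nat_lit 10552869835) (.two (nat_lit 41943041) (nat_lit 606080903) (.two (nat_lit 8388608) (nat_lit 183947497525) (.one (nat_lit 11517564367) .nil)))))))))),
   .two (nat_lit 183912890434) (nat_lit 20644364356) (.two (nat_lit 12114198543) (nat_lit 2424307750) (.two (nat_lit 28093448200) (nat_lit 19093521250) (.two (nat_lit 11476664324) (nat_lit 10343154168) (.two (nat_lit 34603009) (nat_lit 176161800) (.two (nat_lit 1048576) (nat_lit 18933091116) (.one (nat_lit 28086113789) .nil)))))),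
   .two (nat_lit 2097170) (nat_lit 11618222319) (.two (nat_lit 2954887183) (nat_lit 183853121631) (.two (nat_lit 2954887176) (nat_lit 11618222304) (.two (nat_lit 159224168453) (nat_lit 156533523400) (.two (nat_lit 169869316) (nat_lit 1384120552) (.two (nat_lit 606076929) (nat_lit 9772732572) (.two (nat_lit 2097152) (nat_lit 176163624) (.one (nat_lit 8394206) .nil))))))),
   .two (nat_lit 28790751269) (nat_lit 10940842104) (.two (nat_lit 169869327) (nat_lit 12624855078) (.two (nat_lit 169869327) (nat_lit 12624855136) (.two (nat_lit 13195280390) (nat_lit 1343226723) (.two (nat_lit 183853121544) (nat_lit 20737688016) (.two (nat_lit 1753219077) (nat_lit 739246584) (.two (nat_lit 1753219077) (nat_lit 2953839576) (.two (nat_lit 612368385) (nat_lit 1050277) (.two (nat_lit 1048576) (nat_lit 8392779) (.one (nat_lit 8395711) .nil))))))))),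
   .two (nat_lit 9768534083) (nat_lit 12147752998) (.two (nat_lit 11479810063) (nat_lit 12147752998) (.two (nat_lit 18925748232) (nat_lit 166199296223) (.two (nat_lit 157035790341) (nat_lit 1277166072) (.two (nat_lit 16777217) (nat_lit 156364702208) (.two (nat_lit 16777216) (nat_lit 1051446) (.one (nat_lit 1055680) .nil)))))),
   .two (nat_lit 3464495171) (nat_lit 46473936935) (.two (nat_lit 4194319) (nat_lit 276824102) (.two (nat_lit 4194312) (nat_lit 8389084) (.two (nat_lit 4194308) (nat_lit 1049563) (.two (nat_lit 37748737) (nat_lit 1050278) (.two (nat_lit 8388608) (nat_lit 4198476) (.one (nat_lit 4198567) .nil)))))),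
   .two (nat_lit 205520961) (nat_lit 174701150283) (.two (nat_lit 620757007) (nat_lit 1376780326) (.two (nat_lit 159224168456) (nat_lit 20637025122) (.two (nat_lit 176160772) (nat_lit 159216828920) (.two (nat_lit 8388609) (nat_lit 739246592) (.two (nat_lit 16777216) (nat_lit 2994735927) (.one (nat_lit 159232562680) .nil)))))),
   .two (nat_lit 46980399171) (nat_lit 4632608839) (.two (nat_lit 3558866968) (nat_lit 4194342) (.two (nat_lit 3525312520) (nat_lit 3527410530) (.two (nat_lit 2887778308) (nat_lit 46980399608) (.two (nat_lit 2097153) (nat_lit 11580474380) (.two (nat_lit 2097152) (nat_lit 46477085493) (.one (nat_lit 4199907) .nil)))))),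
   .two (nat_lit 218103842) (nat_lit 1310720135) (.two (nat_lit 47548727311) (nat_lit 2936012838) (.two (nat_lit 169869320) (nat_lit 1929380063) (.two (nat_lit 2097157) (nat_lit 2969567736) (.two (nat_lit 2097153) (nat_lit 18941477376) (.two (nat_lit 2097152) (nat_lit 202378033) (.one (nat_lit 1054180) .nil)))))),
   .two (nat_lit 10506731629) (nat_lit 2969567270) (.two (nat_lit 10506731535) (nat_lit 2969567270) (.two (nat_lit 4613734408) (nat_lit 4194527) (.two (nat_lit 12062818309) (nat_lit 4027581398) (.two (nat_lit 156365750273) (nat_lit 19127075852) (.two (nat_lit 2097152) (nat_lit 20637027125) (.one (nat_lit 1055683) .nil)))))),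
   .two (nat_lit 16777250) (nat_lit 775946380) (.two (nat_lit 16777231) (nat_lit 158146232359) (.two (nat_lit 41943047) (nat_lit 159250383071) (.two (nat_lit 41943043) (nat_lit 21777875448) (.two (nat_lit 41943041) (nat_lit 1410335753) (.two (nat_lit 8388608) (nat_lit 1947208495) (.one (nat_lit 1055684) .nil)))))),
   .two (nat_lit 12618563621) (nat_lit 184416206882) (.two (nat_lit 46407876623) (nat_lit 37320917030) (.two (nat_lit 46407876623) (nat_lit 37320917088) (.two (nat_lit 165532401672) (nat_lit 2987393892) (.two (nat_lit 20644364292) (nat_lit 12114199032) (.two (nat_lit 10343153669) (nat_lit 46406829002) (.two (nat_lit 612368385) (nat_lit 20737689249) (.two (nat_lit 1048576) (nat_lit 8394079) (.one (nat_lit 1055686) .nil)))))))),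
   .two (nat_lit 158144135187) (nat_lit 184549490) (.two (nat_lit 2969567247) (nat_lit 1310720095) (.two (nat_lit 158144135176) (nat_lit 218104033) (.two (nat_lit 1277165572) (nat_lit 11492393938) (.two (nat_lit 1277165572) (nat_lit 3036676328) (.two (nat_lit 606076929) (nat_lit 620758738) (.two (nat_lit 2097152) (nat_lit 620758738) (.one (nat_lit 16784327) .nil))))))),
   .two (nat_lit 176160787) (nat_lit 19530776643) (.two (nat_lit 176160783) (nat_lit 156969730143) (.two (nat_lit 3458203656) (nat_lit 3464495326) (.two (nat_lit 176160770) (nat_lit 2098730) (.two (nat_lit 176160772) (nat_lit 3525312746) (.two (nat_lit 41943041) (nat_lit 2099920) (.two (nat_lit 8388608) (nat_lit 159251435659) (.one (nat_lit 8395720) .nil))))))),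
   .two (nat_lit 1847591025) (nat_lit 46409973794) (.two (nat_lit 46409973775) (nat_lit 9766436902) (.two (nat_lit 46409973775) (nat_lit 69206213) (.two (nat_lit 46409973768) (nat_lit 606077151) (.two (nat_lit 10370416648) (nat_lit 3560964965) (.two (nat_lit 4601151493) (nat_lit 1847591416) (.two (nat_lit 4601151493) (nat_lit 174753579988) (.two (nat_lit 4194305) (nat_lit 773850765) (.two (nat_lit 2097152) (nat_lit 11513369943) (.one (nat_lit 4201380) .nil))))))))),
   .two (nat_lit 8388672) (nat_lit 12148801612) (.two (nat_lit 2887778319) (nat_lit 159257722918) (.two (nat_lit 612368399) (nat_lit 28806480081) (.two (nat_lit 117440520) (nat_lit 1175454562) (.two (nat_lit 11476664324) (nat_lit 19094569464) (.two (nat_lit 11492392964) (nat_lit 68158424) (.two (nat_lit 34603009) (nat_lit 12163484471) (.two (nat_lit 16777216) (nat_lit 1054049) (.one (nat_lit 1055690) .nil)))))))),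
   .two (nat_lit 166130090003) (nat_lit 19096666149) (.two (nat_lit 171966475) (nat_lit 2317353058) (.two (nat_lit 171966470) (nat_lit 37314625761) (.two (nat_lit 2887778306) (nat_lit 4195885) (.two (nat_lit 4194308) (nat_lit 874512617) (.two (nat_lit 4194305) (nat_lit 2099922) (.two (nat_lit 4194304) (nat_lit 2101325) (.one (nat_lit 4201421) .nil))))))),
   .two (nat_lit 3036676206) (nat_lit 10007609365) (.two (nat_lit 176160773) (nat_lit 3524264171) (.one (nat_lit 336597147) .nil)),
   .two (nat_lit 47582281746) (nat_lit 1954545782) (.two (nat_lit 20644364303) (nat_lit 10538188895) (.two (nat_lit 1795162120) (nat_lit 158653743569) (.two (nat_lit 46407876610) (nat_lit 158653745727) (.two (nat_lit 754974725) (nat_lit 773850077) (.two (nat_lit 612368385) (nat_lit 16779988) (.two (nat_lit 8388608) (nat_lit 2101329) (.one (nat_lit 16784335) .nil))))))),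
   .two (nat_lit 2902458386) (nat_lit 9866051605) (.two (nat_lit 16777220) (nat_lit 156364701931) (.one (nat_lit 13187944588) .nil)),
   .two (nat_lit 8388672) (nat_lit 20637024276) (.two (nat_lit 41943045) (nat_lit 20637024759) (.one (nat_lit 1054187) .nil)),
   .two (nat_lit 159224168515) (nat_lit 839909394) (.two (nat_lit 183845781508) (nat_lit 2994733288) (.one (nat_lit 37313582560) .nil)),
   .two (nat_lit 780140611) (nat_lit 12147752998) (.two (nat_lit 4613734415) (nat_lit 813695014) (.two (nat_lit 75497480) (nat_lit 2349859039) (.two (nat_lit 12114198533) (nat_lit 3021997009) (.two (nat_lit 612368385) (nat_lit 166229705740) (.two (nat_lit 8388608) (nat_lit 9814676829) (.one (nat_lit 16784336) .nil)))))),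
   .two (nat_lit 4638900290) (nat_lit 11593056294) (.two (nat_lit 276824098) (nat_lit 11593056352) (.two (nat_lit 12114198543) (nat_lit 2097379) (.two (nat_lit 721420296) (nat_lit 156566028792) (.two (nat_lit 721420296) (nat_lit 310379463) (.two (nat_lit 721420292) (nat_lit 10503586825) (.two (nat_lit 721420292) (nat_lit 19127076494) (.two (nat_lit 8388609) (nat_lit 16780075) (.two (nat_lit 1048576) (nat_lit 16782781) (.one (nat_lit 16782850) .nil))))))))),
   .two (nat_lit 46422556690) (nat_lit 310378691) (.two (nat_lit 4613734465) (nat_lit 343933025) (.two (nat_lit 4613734465) (nat_lit 343933022) (.two (nat_lit 2894069771) (nat_lit 46489666003) (.two (nat_lit 46407876623) (nat_lit 8389081) (.two (nat_lit 176160774) (nat_lit 4647289799) (.two (nat_lit 270532615) (nat_lit 10519315400) (.two (nat_lit 8388610) (nat_lit 1209009806) (.two (nat_lit 16777221) (nat_lit 156976023180) (.two (nat_lit 2097153) (nat_lit 10343156512) (.two (nat_lit 1048576) (nat_lit 169873531) (.one (nat_lit 13221500415) .nil))))))))))),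
   .two (nat_lit 4647288852) (nat_lit 4601151683) (.two (nat_lit 318767170) (nat_lit 339738721) (.two (nat_lit 318767170) (nat_lit 339738718) (.two (nat_lit 2902458379) (nat_lit 1410335586) (.two (nat_lit 4194319) (nat_lit 16777690) (.two (nat_lit 171966470) (nat_lit 352322503) (.two (nat_lit 2097159) (nat_lit 159232558024) (.two (nat_lit 4194306) (nat_lit 18925749902) (.two (nat_lit 4194307) (nat_lit 158091708044) (.two (nat_lit 2097153) (nat_lit 157038938912) (.two (nat_lit 1048576) (nat_lit 2887782523) (.one (nat_lit 873469439) .nil))))))))))),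
   .two (nat_lit 184993972290) (nat_lit 183912890406) (.two (nat_lit 68157448) (nat_lit 156573368832) (.two (nat_lit 605028357) (nat_lit 156573368832) (.two (nat_lit 4194304) (nat_lit 10544484483) (.one (nat_lit 8394244) .nil)))),
   .two (nat_lit 843055217) (nat_lit 1175453734) (.two (nat_lit 1779433480) (nat_lit 843055608) (.two (nat_lit 101711877) (nat_lit 4601152523) (.two (nat_lit 1048576) (nat_lit 4198548) (.one (nat_lit 4199941) .nil)))),
   .two (nat_lit 339738644) (nat_lit 8388803) (.two (nat_lit 4194374) (nat_lit 276824158) (.two (nat_lit 276824079) (nat_lit 3527410123) (.two (nat_lit 13191086095) (nat_lit 9765388513) (.two (nat_lit 176160774) (nat_lit 1050146) (.two (nat_lit 8388616) (nat_lit 19026411753) (.two (nat_lit 4194306) (nat_lit 1050267) (.two (nat_lit 41943043) (nat_lit 159216830097) (.two (nat_lit 34603009) (nat_lit 4198463) (.two (nat_lit 8388608) (nat_lit 11577331858) (.one (nat_lit 47584386032) .nil)))))))))),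
   .two (nat_lit 184993972242) (nat_lit 1914700137) (.two (nat_lit 169869327) (nat_lit 880804064) (.two (nat_lit 169869320) (nat_lit 310378728) (.two (nat_lit 18933088261) (nat_lit 20637025944) (.two (nat_lit 605028353) (nat_lit 612371240) (.two (nat_lit 2097152) (nat_lit 269488260) (.one (nat_lit 1055733) .nil)))))),
   .two (nat_lit 1291845652) (nat_lit 4194398) (.two (nat_lit 9948889099) (nat_lit 843055328) (.two (nat_lit 9948889094) (nat_lit 272629992) (.two (nat_lit 1291845634) (nat_lit 4634707606) (.two (nat_lit 620756993) (nat_lit 46510638802) (.two (nat_lit 16777216) (nat_lit 3560966987) (.one (nat_lit 4199942) .nil)))))),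
   .two (nat_lit 306184259) (nat_lit 3531604006) (.two (nat_lit 41943048) (nat_lit 306184696) (.two (nat_lit 8388612) (nat_lit 1279263232) (.two (nat_lit 4194304) (nat_lit 1052823) (.one (nat_lit 1054215) .nil)))),
   .two (nat_lit 47548727330) (nat_lit 156566028326) (.two (nat_lit 159217877000) (nat_lit 37313577464) (.two (nat_lit 169869316) (nat_lit 34604044) (.two (nat_lit 8388608) (nat_lit 1052824) (.one (nat_lit 2104313) .nil)))),
   .two (nat_lit 4634705986) (nat_lit 46992982054) (.two (nat_lit 50331656) (nat_lit 1312817664) (.two (nat_lit 16777220) (nat_lit 272630794) (.two (nat_lit 4194304) (nat_lit 336597143) (.one (nat_lit 336598535) .nil)))),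
   .two (nat_lit 780140611) (nat_lit 4043309094) (.two (nat_lit 184549384) (nat_lit 166197199352) (.two (nat_lit 184549380) (nat_lit 156539814924) (.two (nat_lit 1048576) (nat_lit 11593060497) (.one (nat_lit 47563414514) .nil)))),
   .two (nat_lit 28760342566) (nat_lit 19612565543) (.two (nat_lit 104857608) (nat_lit 174685422541) (.two (nat_lit 612368387) (nat_lit 1947206145) (.two (nat_lit 8388608) (nat_lit 303044093) (.one (nat_lit 303044093) .nil)))),
   .two (nat_lit 46481276966) (nat_lit 159251431462) (.two (nat_lit 28087156744) (nat_lit 171967497) (.two (nat_lit 16777216) (nat_lit 2101418) .nil)),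
   .two (nat_lit 47563407398) (nat_lit 1914699815) (.two (nat_lit 606076936) (nat_lit 47596962824) (.two (nat_lit 4194304) (nat_lit 16782839) .nil)),
   .two (nat_lit 46481276966) (nat_lit 318767142) (.two (nat_lit 176160776) (nat_lit 18941477376) (.two (nat_lit 1048576) (nat_lit 8394233) .nil)),
   .two (nat_lit 239075366) (nat_lit 21818769447) (.two (nat_lit 46984593416) (nat_lit 46409974792) (.two (nat_lit 1048576) (nat_lit 3527415287) .nil)),
   .two (nat_lit 21778923558) (nat_lit 46992982054) (.two (nat_lit 16777224) (nat_lit 37246468609) (.two (nat_lit 4194304) (nat_lit 1054202) .nil)),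
   .two (nat_lit 12062818342) (nat_lit 1346371623) (.two (nat_lit 10336862215) (nat_lit 1175454732) (.two (nat_lit 2097152) (nat_lit 1054205) .nil)),
   .two (nat_lit 46508539942) (nat_lit 9765388326) (.two (nat_lit 4605345799) (nat_lit 12148802572) (.two (nat_lit 8388608) (nat_lit 2102782) .nil)),
   .two (nat_lit 4043309094) (nat_lit 47550824487) (.two (nat_lit 21785214983) (nat_lit 10000270345) (.two (nat_lit 8388608) (nat_lit 18941482477) .nil)),
   .two (nat_lit 9934209032) (nat_lit 157038936079) (.two (nat_lit 47548727301) (nat_lit 10506731764) (.two (nat_lit 2097153) (nat_lit 184989778565) (.two (nat_lit 2097152) (nat_lit 4196528) (.one (nat_lit 4201478) .nil)))),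
   .two (nat_lit 612368392) (nat_lit 28101836923) (.two (nat_lit 612368385) (nat_lit 638584943) (.one (nat_lit 8395783) .nil)),
   .two (nat_lit 9768534024) (nat_lit 156372041752) (.two (nat_lit 1178599429) (nat_lit 8389128) (.two (nat_lit 4194305) (nat_lit 9940502607) (.one (nat_lit 8395784) .nil))),
   .two (nat_lit 2902458376) (nat_lit 184993972361) (.two (nat_lit 16777217) (nat_lit 47555019418) (.two (nat_lit 1048576) (nat_lit 156581759004) (.one (nat_lit 16782925) .nil))),
   .two (nat_lit 3036676109) (nat_lit 639631375) (.two (nat_lit 184549381) (nat_lit 1377828983) (.two (nat_lit 34603009) (nat_lit 46407877668) (.two (nat_lit 1048576) (nat_lit 35654538) (.one (nat_lit 2101922) .nil)))),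
   .two (nat_lit 158075977736) (nat_lit 889192712) (.two (nat_lit 605028353) (nat_lit 1291846239) (.two (nat_lit 1048576) (nat_lit 16780260) (.one (nat_lit 16783007) .nil))),
   .two (nat_lit 13224640525) (nat_lit 184416206892) (.two (nat_lit 28757196805) (nat_lit 184419352691) (.two (nat_lit 16777217) (nat_lit 28793900471) .nil)),
   .two (nat_lit 4194312) (nat_lit 9948889103) (.two (nat_lit 4194308) (nat_lit 19127074942) (.two (nat_lit 2097153) (nat_lit 1962936394) (.one (nat_lit 1054368) .nil))),
   .two (nat_lit 4194312) (nat_lit 18933088369) (.two (nat_lit 4194305) (nat_lit 9974056258) (.one (nat_lit 4200098) .nil)),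
   .two (nat_lit 3458203656) (nat_lit 1753219209) (.two (nat_lit 8388609) (nat_lit 19027462326) (.one (nat_lit 2102857) .nil)),
   .two (nat_lit 165532401672) (nat_lit 9866051713) (.two (nat_lit 605028353) (nat_lit 19604177620) (.two (nat_lit 1048576) (nat_lit 8392886) (.one (nat_lit 1054371) .nil))),
   .two (nat_lit 2961178632) (nat_lit 754974835) (.two (nat_lit 50331649) (nat_lit 10007613097) .nil),
   .two (nat_lit 2902458376) (nat_lit 183949591394) (.one (nat_lit 158649551385) .nil),
   .two (nat_lit 2902458376) (nat_lit 166230753390) (.two (nat_lit 16777217) (nat_lit 3558867551) (.two (nat_lit 16777216) (nat_lit 2101437) (.one (nat_lit 2102952) .nil))),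
   .two (nat_lit 50331656) (nat_lit 166230753395) (.two (nat_lit 2097153) (nat_lit 13237224125) (.two (nat_lit 2097152) (nat_lit 16781502) (.one (nat_lit 2104320) .nil))),
   .two (nat_lit 2969567240) (nat_lit 236978200) (.two (nat_lit 2097157) (nat_lit 16777325) (.two (nat_lit 50331649) (nat_lit 11577328227) (.two (nat_lit 1048576) (nat_lit 16781504) (.one (nat_lit 1053397) .nil)))),
   .two (nat_lit 8388616) (nat_lit 721420409) (.two (nat_lit 16777217) (nat_lit 1343226491) (.two (nat_lit 1048576) (nat_lit 8391664) (.one (nat_lit 8395785) .nil))),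
   .two (nat_lit 184549384) (nat_lit 1786773627) (.two (nat_lit 9765388289) (nat_lit 12633244268) (.two (nat_lit 1048576) (nat_lit 174701152438) (.one (nat_lit 8395786) .nil))),
   .two (nat_lit 8388616) (nat_lit 306184550) (.two (nat_lit 8388608) (nat_lit 306186339) (.one (nat_lit 4199140) .nil)),
   .two (nat_lit 276824072) (nat_lit 306184233) (.two (nat_lit 272629765) (nat_lit 1753219180) (.two (nat_lit 605028353) (nat_lit 8389333) (.two (nat_lit 1048576) (nat_lit 4198595) (.one (nat_lit 1054387) .nil)))),
   .two (nat_lit 9948889096) (nat_lit 165526110472) (.two (nat_lit 2097153) (nat_lit 83889124) (.one (nat_lit 16784395) .nil)),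
   .two (nat_lit 620757000) (nat_lit 9974054956) (.two (nat_lit 4605345797) (nat_lit 687866495) (.two (nat_lit 4194304) (nat_lit 8392902) (.one (nat_lit 8395788) .nil))),
   .two (nat_lit 276824072) (nat_lit 12117344279) (.two (nat_lit 11476664324) (nat_lit 310378630) (.two (nat_lit 37748737) (nat_lit 156465366376) (.one (nat_lit 4200023) .nil))),
   .two (nat_lit 12054429704) (nat_lit 46507491454) (.two (nat_lit 9765388289) (nat_lit 880804913) (.two (nat_lit 1048576) (nat_lit 8391681) (.one (nat_lit 303042117) .nil))),
   .two (nat_lit 75497480) (nat_lit 46406828152) (.two (nat_lit 34603009) (nat_lit 1182796682) (.one (nat_lit 16783047) .nil)),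
   .two (nat_lit 9934209032) (nat_lit 28093448216) (.two (nat_lit 169869316) (nat_lit 8389320) (.two (nat_lit 16777216) (nat_lit 3525313936) (.one (nat_lit 2102985) .nil))),
   .two (nat_lit 1753219085) (nat_lit 13224640620) (.two (nat_lit 612368385) (nat_lit 166232851825) (.one (nat_lit 138416826) .nil)),
   .two (nat_lit 16777224) (nat_lit 157038936308) (.two (nat_lit 4194305) (nat_lit 158662132074) (.two (nat_lit 4194304) (nat_lit 46992984251) (.one (nat_lit 16784397) .nil))),
   .two (nat_lit 4599054349) (nat_lit 1916797043) (.two (nat_lit 2097153) (nat_lit 9936309728) .nil),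
   .two (nat_lit 101711880) (nat_lit 21223178285) (.two (nat_lit 822083589) (nat_lit 156968681592) (.two (nat_lit 50331649) (nat_lit 184986634351) (.one (nat_lit 1054412) .nil))),
   .two (nat_lit 16777224) (nat_lit 101711887) (.two (nat_lit 184549381) (nat_lit 10335813759) (.two (nat_lit 50331649) (nat_lit 13187943381) (.one (nat_lit 1055758) .nil))),
   .two (nat_lit 606076936) (nat_lit 4605345905) (.two (nat_lit 8388609) (nat_lit 1411383659) (.two (nat_lit 8388608) (nat_lit 10336864322) (.one (nat_lit 2102995) .nil))),
   .two (nat_lit 158075977736) (nat_lit 12117344271) (.two (nat_lit 21777874949) (nat_lit 19599982702) (.two (nat_lit 605028353) (nat_lit 12117344896) (.two (nat_lit 1048576) (nat_lit 4197390) (.one (nat_lit 4201487) .nil)))),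
   .two (nat_lit 8388616) (nat_lit 156533522533) (.two (nat_lit 10336862213) (nat_lit 11618222147) (.two (nat_lit 8388609) (nat_lit 158144135768) (.two (nat_lit 8388608) (nat_lit 2102792) (.one (nat_lit 2104336) .nil)))),
   .two (nat_lit 272629768) (nat_lit 46406828076) (.two (nat_lit 2889875461) (nat_lit 183912890483) (.two (nat_lit 34603009) (nat_lit 46980399772) (.two (nat_lit 1048576) (nat_lit 4197391) (.one (nat_lit 1055761) .nil)))),
   .two (nat_lit 46414168072) (nat_lit 673185901) (.two (nat_lit 2097153) (nat_lit 18933088891) (.two (nat_lit 2097152) (nat_lit 3531605352) (.one (nat_lit 2103000) .nil))),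
   .two (nat_lit 2988441612) (nat_lit 2990538797) (.two (nat_lit 2954887173) (nat_lit 157038936181) (.two (nat_lit 2097153) (nat_lit 156468511803) (.two (nat_lit 2097152) (nat_lit 4197395) (.one (nat_lit 3460305470) .nil)))),
   .two (nat_lit 4194312) (nat_lit 10385096817) (.two (nat_lit 4194305) (nat_lit 19109250394) (.one (nat_lit 1055762) .nil)),
   .two (nat_lit 12147752973) (nat_lit 10385096817) (.two (nat_lit 34603009) (nat_lit 166144771432) (.one (nat_lit 1055763) .nil)),
   .two (nat_lit 721420296) (nat_lit 47555018818) (.two (nat_lit 8388609) (nat_lit 83886437) (.two (nat_lit 8388608) (nat_lit 16779499) (.one (nat_lit 16783070) .nil))),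
   .two (nat_lit 11543773192) (nat_lit 157036838937) (.two (nat_lit 2887778308) (nat_lit 1376780405) (.two (nat_lit 2097153) (nat_lit 37246469846) (.two (nat_lit 1048576) (nat_lit 2100253) (.one (nat_lit 1055764) .nil)))),
   .two (nat_lit 809500680) (nat_lit 10370416665) (.two (nat_lit 3527409669) (nat_lit 270533253) (.two (nat_lit 4194304) (nat_lit 2101452) (.one (nat_lit 641734231) .nil))),
   .two (nat_lit 2902458376) (nat_lit 183949591394) (.one (nat_lit 1749027379) .nil),
   .two (nat_lit 183848927240) (nat_lit 47555019350) (.two (nat_lit 4194304) (nat_lit 8394249) (.one (nat_lit 4201493) .nil)),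
   .two (nat_lit 11479810056) (nat_lit 37313577238) (.two (nat_lit 34603009) (nat_lit 19532875040) (.one (nat_lit 4201494) .nil)),
   .two (nat_lit 9934209032) (nat_lit 645922860) (.two (nat_lit 8388613) (nat_lit 37247517306) (.two (nat_lit 2097152) (nat_lit 8392909) (.one (nat_lit 8394489) .nil))),
   .two (nat_lit 20644364296) (nat_lit 12148801580) (.two (nat_lit 9934209029) (nat_lit 10007609455) (.two (nat_lit 606076929) (nat_lit 11618222685) (.two (nat_lit 2097152) (nat_lit 8391723) (.one (nat_lit 8394492) .nil)))),
   .two (nat_lit 16777224) (nat_lit 101711887) (.two (nat_lit 50331653) (nat_lit 166196150387) (.two (nat_lit 50331649) (nat_lit 166196150885) (.two (nat_lit 4194304) (nat_lit 1051693) (.one (nat_lit 1055767) .nil)))),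
   .two (nat_lit 169869320) (nat_lit 9982443544) (.two (nat_lit 169869316) (nat_lit 21207450249) (.two (nat_lit 2097152) (nat_lit 10351543685) (.one (nat_lit 16783103) .nil))),
   .two (nat_lit 11559501832) (nat_lit 3028287511) (.two (nat_lit 176160772) (nat_lit 11559501889) (.two (nat_lit 8388609) (nat_lit 20740833904) (.two (nat_lit 8388608) (nat_lit 4199973) .nil))),
   .two (nat_lit 50331656) (nat_lit 166132187252) (.two (nat_lit 4194305) (nat_lit 1795162720) (.two (nat_lit 4194304) (nat_lit 16781518) (.one (nat_lit 16784408) .nil))),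
   .two (nat_lit 176160776) (nat_lit 12047089679) (.two (nat_lit 184986632197) (nat_lit 156535619697) (.two (nat_lit 34603009) (nat_lit 10913579366) (.two (nat_lit 4194304) (nat_lit 746588175) (.one (nat_lit 1055769) .nil)))),
   .two (nat_lit 183845781512) (nat_lit 47555018867) (.two (nat_lit 2097153) (nat_lit 158653744168) (.two (nat_lit 2097152) (nat_lit 19100865173) .nil)),
   .two (nat_lit 169869320) (nat_lit 18933088369) (.two (nat_lit 2097153) (nat_lit 11510220513) (.two (nat_lit 2097152) (nat_lit 8391730) (.one (nat_lit 8395802) .nil))),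
   .two (nat_lit 21214789640) (nat_lit 47547679239) (.two (nat_lit 9765388289) (nat_lit 166136382864) (.one (nat_lit 8393582) .nil)),
   .two (nat_lit 9766436872) (nat_lit 174752530456) (.two (nat_lit 184549381) (nat_lit 18926797048) (.two (nat_lit 16777217) (nat_lit 1277166250) (.two (nat_lit 8388608) (nat_lit 185035917504) (.one (nat_lit 16784411) .nil)))),
   .two (nat_lit 176160776) (nat_lit 1346371846) (.two (nat_lit 8388609) (nat_lit 10909387663) (.one (nat_lit 4201500) .nil)),
   .two (nat_lit 183853121544) (nat_lit 3020947706) (.two (nat_lit 34603009) (nat_lit 156976024485) (.one (nat_lit 2104349) .nil)),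
   .two (nat_lit 9867100168) (nat_lit 1947205656) (.two (nat_lit 11476664324) (nat_lit 1210056823) (.two (nat_lit 34603009) (nat_lit 158077028404) (.one (nat_lit 2104350) .nil))),
   .two (nat_lit 2889875469) (nat_lit 157036838927) (.two (nat_lit 605028357) (nat_lit 10940842099) (.two (nat_lit 34603009) (nat_lit 169870372) (.two (nat_lit 1048576) (nat_lit 2100280) (.one (nat_lit 2102135) .nil)))),
   .two (nat_lit 1276117000) (nat_lit 1780482310) (.two (nat_lit 4194305) (nat_lit 840960182) (.one (nat_lit 2103050) .nil)),
   .two (nat_lit 3464495112) (nat_lit 20638072847) (.two (nat_lit 176160773) (nat_lit 9934209298) (.two (nat_lit 37748737) (nat_lit 156573368939) (.two (nat_lit 4194304) (nat_lit 19100862646) (.one (nat_lit 8395807) .nil)))),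
   .two (nat_lit 8388616) (nat_lit 12114198553) (.two (nat_lit 11543773189) (nat_lit 184993972333) (.two (nat_lit 34603009) (nat_lit 184993972828) (.two (nat_lit 8388608) (nat_lit 1052881) (.one (nat_lit 1053561) .nil)))),
   .two (nat_lit 8388616) (nat_lit 12047089731) (.two (nat_lit 8388609) (nat_lit 1779434111) (.two (nat_lit 8388608) (nat_lit 1779436565) (.one (nat_lit 1055776) .nil))),
   .two (nat_lit 16777224) (nat_lit 10007609539) (.two (nat_lit 16777216) (nat_lit 46481278259) (.one (nat_lit 8395809) .nil)),
   .two (nat_lit 19596836872) (nat_lit 12054429761) (.two (nat_lit 34603009) (nat_lit 1216350413) (.one (nat_lit 8395810) .nil)),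
   .two (nat_lit 606076936) (nat_lit 19604176911) (.two (nat_lit 169869316) (nat_lit 166144770297) (.two (nat_lit 37748737) (nat_lit 270533693) (.two (nat_lit 4194304) (nat_lit 166203493392) (.one (nat_lit 8395811) .nil)))),
   .two (nat_lit 9866051592) (nat_lit 2317352984) (.two (nat_lit 21208498181) (nat_lit 158176641090) (.two (nat_lit 605028353) (nat_lit 2098918) (.two (nat_lit 1048576) (nat_lit 2102794) (.one (nat_lit 2104356) .nil)))),
   .two (nat_lit 4194312) (nat_lit 165532401780) (.two (nat_lit 4194305) (nat_lit 12054430357) (.two (nat_lit 4194304) (nat_lit 8392916) (.one (nat_lit 8395813) .nil))),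
   .two (nat_lit 1175453704) (nat_lit 10506731535) (.two (nat_lit 605028357) (nat_lit 4638900862) (.two (nat_lit 4194304) (nat_lit 2927626400) (.one (nat_lit 4201510) .nil))),
   .two (nat_lit 11479810056) (nat_lit 28086108175) (.two (nat_lit 9768534021) (nat_lit 158075977794) (.two (nat_lit 37748737) (nat_lit 11577328337) (.two (nat_lit 1048576) (nat_lit 4198613) (.one (nat_lit 1053574) .nil)))),
   .two (nat_lit 641728520) (nat_lit 11510218776) (.two (nat_lit 159216828421) (nat_lit 243269896) (.two (nat_lit 9768534017) (nat_lit 1050343) (.two (nat_lit 8388608) (nat_lit 1054219) (.one (nat_lit 8394531) .nil)))),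
   .two (nat_lit 2889875464) (nat_lit 1753219087) (.two (nat_lit 176160773) (nat_lit 11513364722) (.two (nat_lit 4194305) (nat_lit 1216348840) (.two (nat_lit 4194304) (nat_lit 8392918) (.one (nat_lit 339743436) .nil)))),
   .two (nat_lit 184993972232) (nat_lit 10336862223) (.two (nat_lit 713031684) (nat_lit 673185904) (.two (nat_lit 612368385) (nat_lit 4028630313) (.one (nat_lit 19128129120) .nil))),
   .two (nat_lit 169869320) (nat_lit 166132187203) (.two (nat_lit 2097153) (nat_lit 10942941254) (.one (nat_lit 4201511) .nil)),
   .two (nat_lit 41943048) (nat_lit 21781020796) (.two (nat_lit 8388609) (nat_lit 9768534676) (.two (nat_lit 16777216) (nat_lit 8391758) (.one (nat_lit 8395816) .nil))),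
   .two (nat_lit 606076936) (nat_lit 183853121551) (.two (nat_lit 169869316) (nat_lit 1954545957) (.two (nat_lit 37748737) (nat_lit 46407877816) (.two (nat_lit 8388608) (nat_lit 4197756) (.one (nat_lit 4201513) .nil)))),
   .two (nat_lit 68157448) (nat_lit 117440527) (.two (nat_lit 705691652) (nat_lit 171966583) (.two (nat_lit 50331649) (nat_lit 28793900082) (.one (nat_lit 4201514) .nil))),
   .two (nat_lit 4194312) (nat_lit 46489665562) (.two (nat_lit 4194308) (nat_lit 156465365245) (.two (nat_lit 4194305) (nat_lit 20753418126) (.two (nat_lit 4194304) (nat_lit 19545458030) (.one (nat_lit 4201515) .nil)))),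
   .two (nat_lit 10385096719) (nat_lit 1048620) (.two (nat_lit 772800525) (nat_lit 1358954691) (.two (nat_lit 34603009) (nat_lit 1358957054) (.one (nat_lit 16784574) .nil))),
   .two (nat_lit 158075977743) (nat_lit 37314625672) (.two (nat_lit 10504634373) (nat_lit 772800870) (.two (nat_lit 50331649) (nat_lit 1051559) (.two (nat_lit 2097152) (nat_lit 165525066177) (.one (nat_lit 165526117443) .nil)))),
   .two (nat_lit 2994733080) (nat_lit 11513364505) (.two (nat_lit 809500685) (nat_lit 9772728441) (.two (nat_lit 9934209029) (nat_lit 239076401) (.two (nat_lit 8388609) (nat_lit 158146233699) (.two (nat_lit 2097152) (nat_lit 101715442) (.one (nat_lit 1055935) .nil))))),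
   .two (nat_lit 28093448207) (nat_lit 20737687594) (.two (nat_lit 21214789640) (nat_lit 2987393150) (.two (nat_lit 171966469) (nat_lit 18933089570) (.two (nat_lit 4194304) (nat_lit 8392281) (.one (nat_lit 1055936) .nil)))),
   .two (nat_lit 9881780265) (nat_lit 2097197) (.two (nat_lit 1291845645) (nat_lit 158144135283) (.two (nat_lit 16777221) (nat_lit 13188990253) (.two (nat_lit 16777216) (nat_lit 2102834) (.one (nat_lit 2103478) .nil)))),
   .two (nat_lit 2969567247) (nat_lit 13222543484) (.two (nat_lit 11484004357) (nat_lit 158662132071) (.two (nat_lit 8388609) (nat_lit 687869393) (.one (nat_lit 16784577) .nil))),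
   .two (nat_lit 1291845647) (nat_lit 184419352828) (.two (nat_lit 9948889093) (nat_lit 156569176092) (.two (nat_lit 16777216) (nat_lit 4634709495) (.one (nat_lit 16783286) .nil))),
   .two (nat_lit 169869327) (nat_lit 13195280408) (.two (nat_lit 41943048) (nat_lit 157035790697) (.two (nat_lit 8388609) (nat_lit 1053085) (.one (nat_lit 20737692760) .nil))),
   .two (nat_lit 184986632207) (nat_lit 166230753304) (.two (nat_lit 28758245384) (nat_lit 185020186738) (.two (nat_lit 9866051589) (nat_lit 9967764069) (.two (nat_lit 605028353) (nat_lit 47582283045) (.two (nat_lit 1048576) (nat_lit 807408005) (.one (nat_lit 672143424) .nil))))),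
   .two (nat_lit 639631375) (nat_lit 10939793423) (.two (nat_lit 16777224) (nat_lit 3457155191) (.two (nat_lit 184549381) (nat_lit 156968682550) (.two (nat_lit 2097153) (nat_lit 47547680856) (.two (nat_lit 16777216) (nat_lit 2102835) (.one (nat_lit 2103487) .nil))))),
   .two (nat_lit 654311439) (nat_lit 10370416683) (.two (nat_lit 2902458376) (nat_lit 13222543486) (.two (nat_lit 2902458372) (nat_lit 840959706) (.two (nat_lit 2097153) (nat_lit 1795164671) (.one (nat_lit 16784578) .nil)))),
   .two (nat_lit 612368399) (nat_lit 19130220588) (.two (nat_lit 1276117000) (nat_lit 874512647) (.two (nat_lit 34603013) (nat_lit 28693234314) (.two (nat_lit 2097153) (nat_lit 775948341) (.two (nat_lit 2097152) (nat_lit 272633330) (.one (nat_lit 4201667) .nil))))),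
   .two (nat_lit 739246095) (nat_lit 1426063403) (.two (nat_lit 9781116936) (nat_lit 739246146) (.two (nat_lit 1191182341) (nat_lit 19026412158) (.two (nat_lit 16777217) (nat_lit 174752533384) (.two (nat_lit 16777216) (nat_lit 1053132) (.one (nat_lit 1054925) .nil))))),
   .two (nat_lit 9934209039) (nat_lit 10000269440) (.two (nat_lit 158144135173) (nat_lit 28790751845) (.two (nat_lit 9765388289) (nat_lit 2100138) (.two (nat_lit 2097152) (nat_lit 1054260) (.one (nat_lit 2104516) .nil)))),
   .two (nat_lit 183853121576) (nat_lit 11577327656) (.two (nat_lit 28086108173) (nat_lit 13195280741) (.two (nat_lit 16777217) (nat_lit 10947134789) (.two (nat_lit 16777216) (nat_lit 156968685056) (.one (nat_lit 1055941) .nil)))),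
   .two (nat_lit 41943055) (nat_lit 304087176) (.two (nat_lit 713031685) (nat_lit 21778924177) (.two (nat_lit 41943041) (nat_lit 156466415655) (.two (nat_lit 16777216) (nat_lit 10443820522) (.one (nat_lit 8394962) .nil)))),
   .two (nat_lit 822083599) (nat_lit 12117344322) (.two (nat_lit 16777220) (nat_lit 4195406) (.two (nat_lit 16777217) (nat_lit 21778926115) (.one (nat_lit 4200659) .nil))),
   .two (nat_lit 184549391) (nat_lit 2889875480) (.two (nat_lit 205520904) (nat_lit 16777329) (.two (nat_lit 28089253893) (nat_lit 12617515611) (.two (nat_lit 37748737) (nat_lit 202379612) (.one (nat_lit 16784582) .nil)))),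
   .two (nat_lit 11479810063) (nat_lit 11006902313) (.two (nat_lit 3539992584) (nat_lit 183949591842) (.two (nat_lit 16777216) (nat_lit 46477086297) (.one (nat_lit 1055814) .nil))),
   .two (nat_lit 2889875471) (nat_lit 156372041752) (.two (nat_lit 47555018760) (nat_lit 2353005182) (.two (nat_lit 8388609) (nat_lit 10909386070) (.two (nat_lit 8388608) (nat_lit 4198862) (.one (nat_lit 8394966) .nil)))),
   .two (nat_lit 3458203663) (nat_lit 174752530447) (.two (nat_lit 203423752) (nat_lit 705691770) (.two (nat_lit 2887778308) (nat_lit 183946445161) (.two (nat_lit 9766436865) (nat_lit 4631561520) (.two (nat_lit 1048576) (nat_lit 2101711) (.one (nat_lit 1055943) .nil))))),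
   .two (nat_lit 4605345807) (nat_lit 1950351617) (.two (nat_lit 13191086085) (nat_lit 9906947401) (.two (nat_lit 4194304) (nat_lit 46414171682) (.one (nat_lit 8395850) .nil))),
   .two (nat_lit 10370416655) (nat_lit 2416967704) (.two (nat_lit 2887778312) (nat_lit 12117344373) (.two (nat_lit 11479810053) (nat_lit 135266953) (.two (nat_lit 4194305) (nat_lit 773853593) (.one (nat_lit 1916804714) .nil)))),
   .two (nat_lit 809500687) (nat_lit 11559501839) (.two (nat_lit 83886088) (nat_lit 1178599534) (.two (nat_lit 8388613) (nat_lit 3539993925) (.two (nat_lit 8388608) (nat_lit 3003125189) (.one (nat_lit 16783577) .nil)))),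
   .two (nat_lit 184549391) (nat_lit 12048138366) (.two (nat_lit 184549380) (nat_lit 9967763814) (.two (nat_lit 16777217) (nat_lit 2099322) (.two (nat_lit 2097152) (nat_lit 16781776) (.one (nat_lit 16784584) .nil)))),
   .two (nat_lit 156372041743) (nat_lit 12620660780) (.two (nat_lit 9940500488) (nat_lit 654311539) (.two (nat_lit 157038936069) (nat_lit 176161442) (.two (nat_lit 620756993) (nat_lit 1350568031) (.two (nat_lit 16777216) (nat_lit 8393169) (.one (nat_lit 4201673) .nil))))),
   .two (nat_lit 16777231) (nat_lit 2350907513) (.two (nat_lit 9934209029) (nat_lit 184549988) (.two (nat_lit 8388609) (nat_lit 9915336049) (.two (nat_lit 2097152) (nat_lit 16781778) (.one (nat_lit 2104522) .nil)))),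
   .two (nat_lit 18928893967) (nat_lit 11476664346) (.two (nat_lit 184419352584) (nat_lit 772800577) (.two (nat_lit 9765388293) (nat_lit 37249615182) (.two (nat_lit 8388608) (nat_lit 46507494825) (.one (nat_lit 1054939) .nil)))),
   .two (nat_lit 2969567247) (nat_lit 12054429947) (.two (nat_lit 184549380) (nat_lit 276825124) (.two (nat_lit 2097153) (nat_lit 37329308170) (.one (nat_lit 8394972) .nil))),
   .two (nat_lit 184549391) (nat_lit 1847590927) (.two (nat_lit 2887778312) (nat_lit 889192584) (.two (nat_lit 2887778308) (nat_lit 16777933) (.two (nat_lit 34603009) (nat_lit 639633462) (.two (nat_lit 2097152) (nat_lit 1054261) (.one (nat_lit 1055947) .nil))))),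
   .two (nat_lit 285212695) (nat_lit 158150426669) (.two (nat_lit 16777224) (nat_lit 156372041843) (.two (nat_lit 13195280389) (nat_lit 156481095025) (.two (nat_lit 8388608) (nat_lit 218106367) (.one (nat_lit 16783581) .nil)))),
   .two (nat_lit 3460300815) (nat_lit 20638072876) (.two (nat_lit 3460300808) (nat_lit 1176502536) (.two (nat_lit 34603013) (nat_lit 20652753259) (.two (nat_lit 2097153) (nat_lit 46507492702) (.two (nat_lit 2097152) (nat_lit 4199990) (.one (nat_lit 4201676) .nil))))),
   .two (nat_lit 620757032) (nat_lit 18928893996) (.two (nat_lit 11479810061) (nat_lit 620757107) (.two (nat_lit 50331653) (nat_lit 1782579857) (.two (nat_lit 50331649) (nat_lit 641732152) (.one (nat_lit 4201677) .nil)))),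
   .two (nat_lit 3558866968) (nat_lit 1384120420) (.two (nat_lit 11476664328) (nat_lit 1753219323) (.two (nat_lit 285212677) (nat_lit 183846832197) (.two (nat_lit 16777216) (nat_lit 2101716) (.one (nat_lit 2104526) .nil)))),
   .two (nat_lit 184549391) (nat_lit 606076943) (.two (nat_lit 9934209032) (nat_lit 47550824583) (.two (nat_lit 1277165573) (nat_lit 13191086755) (.two (nat_lit 2097153) (nat_lit 1962935683) (.two (nat_lit 2097152) (nat_lit 16780899) (.one (nat_lit 16784591) .nil))))),
   .two (nat_lit 9948889103) (nat_lit 10336862223) (.two (nat_lit 9766436872) (nat_lit 12633244979) (.two (nat_lit 8388608) (nat_lit 270538801) .nil)),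
   .two (nat_lit 1291845647) (nat_lit 10907287689) (.two (nat_lit 1176502277) (nat_lit 83886946) (.two (nat_lit 2097152) (nat_lit 10519317024) (.one (nat_lit 16783584) .nil))),
   .two (nat_lit 12054429711) (nat_lit 28757196815) (.two (nat_lit 28757196808) (nat_lit 1317011578) (.two (nat_lit 1276116996) (nat_lit 158150427974) (.two (nat_lit 2097152) (nat_lit 46481282173) .nil))),
   .two (nat_lit 13191086095) (nat_lit 1846542351) (.two (nat_lit 809500680) (nat_lit 46489665673) (.two (nat_lit 218103813) (nat_lit 1212154472) (.two (nat_lit 16777217) (nat_lit 174755679704) (.one (nat_lit 1054755) .nil)))),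
   .two (nat_lit 9934209039) (nat_lit 2994733079) (.two (nat_lit 169869320) (nat_lit 847249530) (.two (nat_lit 169869316) (nat_lit 243270320) (.two (nat_lit 8388609) (nat_lit 20638074216) (.two (nat_lit 2097152) (nat_lit 4198869) (.one (nat_lit 4201680) .nil))))),
   .two (nat_lit 1358954511) (nat_lit 11577327641) (.two (nat_lit 183845781512) (nat_lit 19142803578) (.two (nat_lit 13187940357) (nat_lit 2332034371) (.two (nat_lit 4194304) (nat_lit 9900658169) (.one (nat_lit 2104529) .nil)))),
   .two (nat_lit 4605345807) (nat_lit 9967763480) (.two (nat_lit 2954887176) (nat_lit 46414168179) (.two (nat_lit 169869316) (nat_lit 156372042086) (.two (nat_lit 2097153) (nat_lit 10376709421) (.two (nat_lit 8388608) (nat_lit 28087160255) (.one (nat_lit 2104530) .nil))))),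
   .two (nat_lit 4194319) (nat_lit 184993972289) (.two (nat_lit 4194308) (nat_lit 183920231068) (.two (nat_lit 2097153) (nat_lit 1413483432) (.two (nat_lit 1048576) (nat_lit 2101718) (.one (nat_lit 8394980) .nil)))),
   .two (nat_lit 158075977743) (nat_lit 236978297) (.two (nat_lit 159217876997) (nat_lit 12047090326) (.two (nat_lit 37748737) (nat_lit 28790754874) (.one (nat_lit 1055955) .nil))),
   .two (nat_lit 4605345807) (nat_lit 185023332471) (.two (nat_lit 46409973764) (nat_lit 156372043088) (.two (nat_lit 8388608) (nat_lit 1053143) (.one (nat_lit 13187947599) .nil))),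
   .two (nat_lit 4605345807) (nat_lit 1916797043) (.two (nat_lit 19599982597) (nat_lit 880804707) (.two (nat_lit 4194304) (nat_lit 880805406) (.one (nat_lit 612374615) .nil))),
   .two (nat_lit 10370416655) (nat_lit 156535619608) (.two (nat_lit 641728520) (nat_lit 10538188913) (.two (nat_lit 708837381) (nat_lit 343933286) (.two (nat_lit 4194305) (nat_lit 1384121676) (.two (nat_lit 8388608) (nat_lit 2103123) .nil)))),
   .two (nat_lit 1745879055) (nat_lit 166130090106) (.two (nat_lit 28086108165) (nat_lit 11578377539) (.two (nat_lit 4194304) (nat_lit 28758249866) (.one (nat_lit 2103525) .nil))),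
   .two (nat_lit 713031695) (nat_lit 46409973775) (.two (nat_lit 9766436872) (nat_lit 4634706035) (.two (nat_lit 46980399109) (nat_lit 184417256066) (.two (nat_lit 4194305) (nat_lit 4632610126) (.two (nat_lit 2097152) (nat_lit 4198872) (.one (nat_lit 2104532) .nil))))),
   .two (nat_lit 184549391) (nat_lit 11479810063) (.two (nat_lit 184549384) (nat_lit 4634706163) (.two (nat_lit 16777221) (nat_lit 306184795) (.two (nat_lit 16777217) (nat_lit 306185505) (.two (nat_lit 4194304) (nat_lit 117444087) (.one (nat_lit 183962180692) .nil))))),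
   .two (nat_lit 285212687) (nat_lit 19599982729) (.two (nat_lit 605028357) (nat_lit 11492395520) (.one (nat_lit 16784597) .nil)),
   .two (nat_lit 2961178639) (nat_lit 218103929) (.two (nat_lit 2956984325) (nat_lit 4605345987) (.two (nat_lit 620756993) (nat_lit 46406829369) (.two (nat_lit 1048576) (nat_lit 788535429) .nil))),
   .two (nat_lit 20638072847) (nat_lit 11618222205) (.two (nat_lit 10343153669) (nat_lit 10907287909) (.two (nat_lit 612368385) (nat_lit 166230756922) (.one (nat_lit 2103530) .nil))),
   .two (nat_lit 4601151503) (nat_lit 1753219182) (.two (nat_lit 156372041733) (nat_lit 11513365794) (.two (nat_lit 8388608) (nat_lit 165528211899) (.one (nat_lit 4201686) .nil))),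
   .two (nat_lit 203423759) (nat_lit 2994733123) (.two (nat_lit 166130089989) (nat_lit 1216348850) (.two (nat_lit 4194305) (nat_lit 28087158085) (.two (nat_lit 4194304) (nat_lit 706746195) .nil))),
   .two (nat_lit 1178599439) (nat_lit 1947205882) (.two (nat_lit 16777221) (nat_lit 158079124789) (.two (nat_lit 16777216) (nat_lit 1413483018) (.one (nat_lit 28690094300) .nil))),
   .two (nat_lit 2961178639) (nat_lit 788529809) (.two (nat_lit 4194305) (nat_lit 19537070631) (.one (nat_lit 16784599) .nil)),
   .two (nat_lit 169869327) (nat_lit 10007609368) (.two (nat_lit 2961178632) (nat_lit 47548727362) (.two (nat_lit 176160772) (nat_lit 19597886074) (.two (nat_lit 612368385) (nat_lit 2350911907) (.one (nat_lit 1055960) .nil)))),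
   .two (nat_lit 1277165583) (nat_lit 158143086615) (.two (nat_lit 37748744) (nat_lit 343933179) (.two (nat_lit 713031685) (nat_lit 183848927920) (.two (nat_lit 8388609) (nat_lit 3024094542) (.two (nat_lit 2097152) (nat_lit 608177696) (.one (nat_lit 8395993) .nil))))),
   .two (nat_lit 2954887183) (nat_lit 10552868908) (.two (nat_lit 183848927240) (nat_lit 11476664596) (.two (nat_lit 184989777925) (nat_lit 10939794084) (.two (nat_lit 156364701697) (nat_lit 2317355029) (.two (nat_lit 4194304) (nat_lit 156566032821) (.one (nat_lit 2104538) .nil))))),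
   .two (nat_lit 1178599439) (nat_lit 4605345807) (.two (nat_lit 4605345800) (nat_lit 13224640757) (.two (nat_lit 12117344261) (nat_lit 9906947439) (.two (nat_lit 4194304) (nat_lit 8392296) (.one (nat_lit 8395995) .nil)))),
   .two (nat_lit 8388623) (nat_lit 1310720112) (.two (nat_lit 159217876997) (nat_lit 10007609702) (.two (nat_lit 8388609) (nat_lit 28758247984) (.one (nat_lit 12618568807) .nil))),
   .two (nat_lit 83886095) (nat_lit 156372041845) (.two (nat_lit 9781116933) (nat_lit 156569174682) (.two (nat_lit 612368385) (nat_lit 37750806) (.two (nat_lit 8388608) (nat_lit 16781790) (.one (nat_lit 8395998) .nil)))),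
   .two (nat_lit 2887778319) (nat_lit 306184215) (.two (nat_lit 809500680) (nat_lit 2317353087) (.two (nat_lit 159216828421) (nat_lit 270533253) (.two (nat_lit 4194305) (nat_lit 12617516392) (.two (nat_lit 4194304) (nat_lit 1053151) (.one (nat_lit 4200691) .nil))))),
   .two (nat_lit 276824079) (nat_lit 166232850457) (.two (nat_lit 75497480) (nat_lit 183912890433) (.two (nat_lit 34603013) (nat_lit 156372042330) (.two (nat_lit 4194305) (nat_lit 304090646) (.one (nat_lit 4200699) .nil)))),
   .two (nat_lit 75497487) (nat_lit 639631404) (.two (nat_lit 3458203661) (nat_lit 11618222194) (.two (nat_lit 612368389) (nat_lit 18926797457) (.two (nat_lit 34603009) (nat_lit 166203495469) .nil))),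
   .two (nat_lit 822083599) (nat_lit 12050235434) (.two (nat_lit 50331656) (nat_lit 2889875721) (.two (nat_lit 69206021) (nat_lit 822084178) (.two (nat_lit 2097153) (nat_lit 46523224433) (.one (nat_lit 3573553057) .nil)))),
   .two (nat_lit 809500687) (nat_lit 41943084) (.two (nat_lit 11479810056) (nat_lit 4605346043) (.two (nat_lit 46414168069) (nat_lit 11513365176) (.two (nat_lit 605028353) (nat_lit 4197291) (.two (nat_lit 1048576) (nat_lit 4199996) (.one (nat_lit 1055967) .nil))))),
   .two (nat_lit 158075977743) (nat_lit 4632608895) (.two (nat_lit 2969567237) (nat_lit 1310720357) (.two (nat_lit 605028353) (nat_lit 10452206941) (.two (nat_lit 1048576) (nat_lit 28087160281) (.one (nat_lit 16783612) .nil)))),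
   .two (nat_lit 11559501839) (nat_lit 184986632215) (.two (nat_lit 705691656) (nat_lit 156380431669) (.two (nat_lit 1048576) (nat_lit 1761610250) (.one (nat_lit 2104544) .nil))),
   .two (nat_lit 2961178639) (nat_lit 185002360858) (.two (nat_lit 205520904) (nat_lit 46414168317) (.two (nat_lit 822083589) (nat_lit 46406828666) (.two (nat_lit 50331649) (nat_lit 166229705571) (.two (nat_lit 16777216) (nat_lit 1052267) (.one (nat_lit 1055969) .nil))))),
   .two (nat_lit 165532401679) (nat_lit 183946444824) (.two (nat_lit 12114198536) (nat_lit 174759871163) (.two (nat_lit 34603009) (nat_lit 165532402980) (.two (nat_lit 4194304) (nat_lit 269488490) (.one (nat_lit 1054976) .nil)))),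
   .two (nat_lit 276824079) (nat_lit 11492393075) (.two (nat_lit 8388612) (nat_lit 166144770705) (.two (nat_lit 16777217) (nat_lit 780142685) (.two (nat_lit 8388608) (nat_lit 2365591938) (.one (nat_lit 8396002) .nil)))),
   .two (nat_lit 285212687) (nat_lit 4194976) (.two (nat_lit 4194305) (nat_lit 156481094982) (.two (nat_lit 4194304) (nat_lit 156581763176) .nil)),
   .two (nat_lit 612368399) (nat_lit 10921967975) (.two (nat_lit 2097153) (nat_lit 9974058411) (.one (nat_lit 3472889759) .nil)),
   .two (nat_lit 41943055) (nat_lit 174752530447) (.two (nat_lit 11551113224) (nat_lit 185020186748) (.two (nat_lit 101711877) (nat_lit 1350566601) (.two (nat_lit 605028353) (nat_lit 21785216288) (.two (nat_lit 2097152) (nat_lit 13221500963) .nil)))),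
   .two (nat_lit 20738736168) (nat_lit 166129041450) (.two (nat_lit 20738736141) (nat_lit 11543773449) (.two (nat_lit 10503585797) (nat_lit 10001319288) (.two (nat_lit 8388608) (nat_lit 2101728) (.one (nat_lit 2103558) .nil)))),
   .two (nat_lit 809500687) (nat_lit 1913651215) (.two (nat_lit 809500680) (nat_lit 12617515143) (.two (nat_lit 11479810053) (nat_lit 184986632866) (.two (nat_lit 8388609) (nat_lit 20707282835) .nil))),
   .two (nat_lit 2954887183) (nat_lit 157038936079) (.two (nat_lit 156367847432) (nat_lit 47582281793) (.two (nat_lit 3525312517) (nat_lit 1916798020) (.two (nat_lit 2097153) (nat_lit 675285071) (.two (nat_lit 4194304) (nat_lit 2102845) (.one (nat_lit 1344280767) .nil))))),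
   .two (nat_lit 166130089999) (nat_lit 1417674793) (.two (nat_lit 19530776584) (nat_lit 880804082) (.two (nat_lit 159224168453) (nat_lit 19027460453) (.two (nat_lit 612368385) (nat_lit 37314626894) (.two (nat_lit 1048576) (nat_lit 2100682) (.one (nat_lit 8395016) .nil))))),
   .two (nat_lit 2887778319) (nat_lit 157038936667) (.two (nat_lit 4194305) (nat_lit 12617516392) (.two (nat_lit 4194304) (nat_lit 156567081412) (.one (nat_lit 1055971) .nil))),
   .two (nat_lit 612368399) (nat_lit 21777874968) (.two (nat_lit 68157448) (nat_lit 10007609453) (.two (nat_lit 713031685) (nat_lit 10338960024) (.two (nat_lit 4194305) (nat_lit 243271010) (.two (nat_lit 1048576) (nat_lit 46510640552) (.one (nat_lit 1054985) .nil))))),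
   .two (nat_lit 612368399) (nat_lit 2902458433) (.two (nat_lit 16777221) (nat_lit 10007609938) (.two (nat_lit 9766436865) (nat_lit 9974056992) (.two (nat_lit 2097152) (nat_lit 37262200313) (.one (nat_lit 8396005) .nil)))),
   .two (nat_lit 721420303) (nat_lit 10504634383) (.two (nat_lit 83886088) (nat_lit 28087157098) (.two (nat_lit 34603009) (nat_lit 285214841) (.two (nat_lit 1048576) (nat_lit 21208501745) (.one (nat_lit 2104550) .nil)))),
   .two (nat_lit 4601151503) (nat_lit 10504634383) (.two (nat_lit 203423752) (nat_lit 2923430003) (.two (nat_lit 2887778308) (nat_lit 9869198637) (.two (nat_lit 4194304) (nat_lit 2101730) (.one (nat_lit 158079129522) .nil)))),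
   .two (nat_lit 9948889103) (nat_lit 236978200) (.two (nat_lit 46978301960) (nat_lit 156481093751) (.two (nat_lit 9881780229) (nat_lit 11510219424) (.two (nat_lit 34603009) (nat_lit 285214033) (.two (nat_lit 2097152) (nat_lit 1053155) (.one (nat_lit 1055975) .nil))))),
   .two (nat_lit 9781116943) (nat_lit 13191086275) (.two (nat_lit 16777217) (nat_lit 3527413239) (.one (nat_lit 4201704) .nil)),
   .two (nat_lit 4605345807) (nat_lit 1212153964) (.two (nat_lit 11479810052) (nat_lit 156372041923) (.two (nat_lit 8388609) (nat_lit 4197292) (.two (nat_lit 4194304) (nat_lit 8393188) (.one (nat_lit 37756089) .nil)))),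
   .two (nat_lit 16777231) (nat_lit 9934209064) (.two (nat_lit 4194312) (nat_lit 46508540029) (.two (nat_lit 708837381) (nat_lit 21223178865) (.two (nat_lit 37748737) (nat_lit 11525948770) (.two (nat_lit 1048576) (nat_lit 159232560741) (.one (nat_lit 184989785182) .nil))))),
   .two (nat_lit 176160783) (nat_lit 9798942855) (.two (nat_lit 176160772) (nat_lit 156533522790) (.two (nat_lit 8388609) (nat_lit 156533524579) (.two (nat_lit 2097152) (nat_lit 1053157) (.one (nat_lit 1055977) .nil)))),
   .two (nat_lit 4605345807) (nat_lit 19596836986) (.two (nat_lit 713031685) (nat_lit 185020187273) (.two (nat_lit 4194305) (nat_lit 12624857110) (.two (nat_lit 4194304) (nat_lit 1947211777) .nil))),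
   .two (nat_lit 285212687) (nat_lit 705691690) (.two (nat_lit 721420296) (nat_lit 158646403137) (.two (nat_lit 34603013) (nat_lit 2902458980) (.two (nat_lit 9766436865) (nat_lit 2332036008) (.two (nat_lit 16777216) (nat_lit 1054270) (.one (nat_lit 1054991) .nil))))),
   .two (nat_lit 50331663) (nat_lit 1849688079) (.two (nat_lit 2961178632) (nat_lit 1426063470) (.two (nat_lit 176160772) (nat_lit 185035915923) (.two (nat_lit 9765388289) (nat_lit 71304505) (.two (nat_lit 4194304) (nat_lit 9966718533) (.one (nat_lit 1055978) .nil))))),
   .two (nat_lit 184419352591) (nat_lit 166130090008) (.two (nat_lit 18928893960) (nat_lit 174753579143) (.two (nat_lit 156367847429) (nat_lit 2098255) (.two (nat_lit 41943041) (nat_lit 203425864) (.two (nat_lit 8388608) (nat_lit 12148807709) .nil)))),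
   .two (nat_lit 9781116943) (nat_lit 12117344371) (.two (nat_lit 13191086085) (nat_lit 183861511012) (.two (nat_lit 1048576) (nat_lit 3527413317) (.one (nat_lit 4200720) .nil))),
   .two (nat_lit 16777231) (nat_lit 46980399775) (.two (nat_lit 16777217) (nat_lit 156535620940) (.two (nat_lit 16777216) (nat_lit 10506735093) (.one (nat_lit 1055979) .nil))),
   .two (nat_lit 2961178639) (nat_lit 19027460211) (.two (nat_lit 2097157) (nat_lit 4605346453) (.two (nat_lit 2097153) (nat_lit 1212155919) (.two (nat_lit 1048576) (nat_lit 2102848) (.one (nat_lit 2954893540) .nil)))),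
   .two (nat_lit 46409973775) (nat_lit 12054430302) (.two (nat_lit 4194305) (nat_lit 183920231783) (.two (nat_lit 4194304) (nat_lit 8393190) (.one (nat_lit 8396012) .nil))),
   .two (nat_lit 809500687) (nat_lit 46523219994) (.two (nat_lit 9948889096) (nat_lit 272629870) (.two (nat_lit 1291845637) (nat_lit 13191086739) (.two (nat_lit 612368385) (nat_lit 9982445599) (.two (nat_lit 8388608) (nat_lit 10519317933) (.one (nat_lit 16783633) .nil))))),
   .two (nat_lit 822083599) (nat_lit 9802088563) (.two (nat_lit 13191086085) (nat_lit 2902459687) (.two (nat_lit 4194304) (nat_lit 156581759526) (.one (nat_lit 16783634) .nil))),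
   .two (nat_lit 4601151503) (nat_lit 10504634383) (.two (nat_lit 9766436872) (nat_lit 4601151552) (.two (nat_lit 46409973764) (nat_lit 1746929784) (.two (nat_lit 8388608) (nat_lit 2103391) .nil))),
   .two (nat_lit 2954887183) (nat_lit 46992982143) (.two (nat_lit 50331653) (nat_lit 166230753638) (.two (nat_lit 34603009) (nat_lit 4632610117) (.two (nat_lit 1048576) (nat_lit 174701156410) .nil))),
   .two (nat_lit 612368399) (nat_lit 19142803523) (.two (nat_lit 285212677) (nat_lit 343933535) (.two (nat_lit 606076929) (nat_lit 37262200313) (.one (nat_lit 16783635) .nil))),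
   .two (nat_lit 11492392975) (nat_lit 159257723237) (.two (nat_lit 605028353) (nat_lit 11546921032) (.two (nat_lit 1048576) (nat_lit 171970984) (.one (nat_lit 4201709) .nil))),
   .two (nat_lit 47555018767) (nat_lit 4028629105) (.two (nat_lit 612368389) (nat_lit 2416968038) (.two (nat_lit 34603009) (nat_lit 47588574554) (.two (nat_lit 1048576) (nat_lit 679480881) (.one (nat_lit 8395029) .nil)))),
   .two (nat_lit 75497487) (nat_lit 721420959) (.two (nat_lit 16777217) (nat_lit 18926798902) (.two (nat_lit 8388608) (nat_lit 2103348) .nil)),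
   .two (nat_lit 176160783) (nat_lit 10385096841) (.two (nat_lit 9781116933) (nat_lit 10007610210) (.two (nat_lit 2097152) (nat_lit 19134418830) .nil)),
   .two (nat_lit 50331663) (nat_lit 165532401679) (.two (nat_lit 165532401672) (nat_lit 159266111610) (.two (nat_lit 20644364292) (nat_lit 18941478211) (.two (nat_lit 8388608) (nat_lit 11022636039) .nil))),
   .two (nat_lit 156367847439) (nat_lit 10343153679) (.two (nat_lit 46414168072) (nat_lit 10338960059) (.two (nat_lit 8388609) (nat_lit 4196478) (.two (nat_lit 8388608) (nat_lit 46473943026) .nil))),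
   .two (nat_lit 1745879055) (nat_lit 2894069896) (.two (nat_lit 176160773) (nat_lit 165525062287) (.two (nat_lit 8388609) (nat_lit 168823693) (.two (nat_lit 8388608) (nat_lit 1053161) (.one (nat_lit 2103576) .nil)))),
   .two (nat_lit 2902458383) (nat_lit 843055347) (.two (nat_lit 654311429) (nat_lit 11577327974) (.two (nat_lit 9781116929) (nat_lit 166232852524) (.two (nat_lit 1048576) (nat_lit 19096672438) .nil))),
   .two (nat_lit 809500687) (nat_lit 1417675029) (.two (nat_lit 4194308) (nat_lit 46473937558) (.two (nat_lit 8388609) (nat_lit 20707280197) (.two (nat_lit 4194304) (nat_lit 166229708332) (.one (nat_lit 4201710) .nil)))),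
   .two (nat_lit 9948889103) (nat_lit 1048677) (.two (nat_lit 1291845645) (nat_lit 1376780425) (.two (nat_lit 10503585797) (nat_lit 9802089314) (.two (nat_lit 1048576) (nat_lit 158179790733) .nil))),
   .two (nat_lit 272629775) (nat_lit 10452205668) (.two (nat_lit 2961178632) (nat_lit 158091706485) (.two (nat_lit 16777221) (nat_lit 1276117349) (.two (nat_lit 16777217) (nat_lit 303039801) (.two (nat_lit 16777216) (nat_lit 28764540406) (.one (nat_lit 16784623) .nil))))),
   .two (nat_lit 12050235407) (nat_lit 1753219087) (.two (nat_lit 37748744) (nat_lit 880804507) (.two (nat_lit 4194305) (nat_lit 28791801896) (.two (nat_lit 4194304) (nat_lit 8392305) (.one (nat_lit 4201712) .nil)))),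
   .two (nat_lit 46407876623) (nat_lit 12054430303) (.two (nat_lit 612368385) (nat_lit 158077027683) (.two (nat_lit 1048576) (nat_lit 2317356504) (.one (nat_lit 2104561) .nil))),
   .two (nat_lit 1178599439) (nat_lit 9881780361) (.two (nat_lit 83886085) (nat_lit 3024094052) (.two (nat_lit 1048576) (nat_lit 1916798493) (.one (nat_lit 4200732) .nil))),
   .two (nat_lit 620757007) (nat_lit 3557818411) (.two (nat_lit 68157448) (nat_lit 12618563705) (.two (nat_lit 721420292) (nat_lit 21777875592) (.two (nat_lit 2097153) (nat_lit 165525062499) (.two (nat_lit 2097152) (nat_lit 11525949982) (.one (nat_lit 16784626) .nil))))),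
   .two (nat_lit 47555018767) (nat_lit 3525312527) (.two (nat_lit 203423752) (nat_lit 9974055022) (.two (nat_lit 2954887173) (nat_lit 8389330) (.two (nat_lit 9768534017) (nat_lit 1377830213) (.two (nat_lit 4194304) (nat_lit 11007954369) (.one (nat_lit 2103582) .nil))))),
   .two (nat_lit 203423759) (nat_lit 20644364303) (.two (nat_lit 3525312520) (nat_lit 157043130614) (.two (nat_lit 159224168453) (nat_lit 159251431782) (.two (nat_lit 156372041729) (nat_lit 773851250) (.two (nat_lit 2097152) (nat_lit 41947572) (.one (nat_lit 2103583) .nil))))),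
   .two (nat_lit 83886120) (nat_lit 1048678) (.two (nat_lit 101711885) (nat_lit 721420646) (.two (nat_lit 8388609) (nat_lit 159266112844) (.two (nat_lit 8388608) (nat_lit 9948892661) (.one (nat_lit 1055987) .nil)))),
   .two (nat_lit 1916796952) (nat_lit 11577327656) (.two (nat_lit 1178599432) (nat_lit 11577327731) (.two (nat_lit 12114198533) (nat_lit 19029558637) (.two (nat_lit 1048576) (nat_lit 157038939576) (.one (nat_lit 4201716) .nil)))),
   .two (nat_lit 3527409679) (nat_lit 1310720024) (.two (nat_lit 21208498184) (nat_lit 28089254007) (.two (nat_lit 20638072836) (nat_lit 46409974434) (.two (nat_lit 606076929) (nat_lit 158179788171) (.two (nat_lit 8388608) (nat_lit 306187816) (.one (nat_lit 4200736) .nil))))),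
   .two (nat_lit 10940841999) (nat_lit 135266555) (.two (nat_lit 2954887173) (nat_lit 16778310) (.two (nat_lit 2097153) (nat_lit 4647292459) (.one (nat_lit 1055989) .nil))),
   .two (nat_lit 46407876623) (nat_lit 183853121644) (.two (nat_lit 159224168453) (nat_lit 3525312707) (.two (nat_lit 34603009) (nat_lit 47548729413) (.two (nat_lit 1048576) (nat_lit 4632612343) (.one (nat_lit 8396022) .nil)))),
   .two (nat_lit 8388623) (nat_lit 16777241) (.two (nat_lit 47563407368) (nat_lit 880804706) (.two (nat_lit 8388608) (nat_lit 1054273) (.one (nat_lit 1055991) .nil))),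
   .two (nat_lit 8388623) (nat_lit 10942939151) (.two (nat_lit 2889875464) (nat_lit 11593056381) (.two (nat_lit 8388612) (nat_lit 19599983258) (.two (nat_lit 620756993) (nat_lit 239077901) (.one (nat_lit 4200738) .nil)))),
   .two (nat_lit 809500687) (nat_lit 184549399) (.two (nat_lit 2969567240) (nat_lit 166199296119) (.two (nat_lit 218103813) (nat_lit 9969862027) (.two (nat_lit 16777216) (nat_lit 1053162) (.one (nat_lit 1055011) .nil)))),
   .two (nat_lit 1916796943) (nat_lit 21811429513) (.two (nat_lit 10385096709) (nat_lit 158079124789) (.two (nat_lit 1048576) (nat_lit 183949592094) (.one (nat_lit 4200740) .nil))),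
   .two (nat_lit 285212687) (nat_lit 20644364303) (.two (nat_lit 50331656) (nat_lit 1317011522) (.two (nat_lit 159224168453) (nat_lit 218104421) (.two (nat_lit 612368385) (nat_lit 218105125) (.two (nat_lit 1048576) (nat_lit 1350571861) .nil)))),
   .two (nat_lit 713031695) (nat_lit 157036838927) (.two (nat_lit 75497480) (nat_lit 1780482410) (.two (nat_lit 612368385) (nat_lit 136316218) (.two (nat_lit 1048576) (nat_lit 19530780238) (.one (nat_lit 337648694) .nil)))),
   .two (nat_lit 2902458383) (nat_lit 20637024297) (.two (nat_lit 9781116936) (nat_lit 34603144) (.two (nat_lit 34603013) (nat_lit 822084902) (.two (nat_lit 1048576) (nat_lit 16780915) (.one (nat_lit 1055993) .nil)))),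
   .two (nat_lit 1846542351) (nat_lit 4028629016) (.two (nat_lit 3458203656) (nat_lit 605028471) (.two (nat_lit 16777220) (nat_lit 605029009) (.two (nat_lit 2097153) (nat_lit 168822085) (.two (nat_lit 2097152) (nat_lit 1052276) (.one (nat_lit 174701156643) .nil))))),
   .two (nat_lit 184986632207) (nat_lit 1847590978) (.two (nat_lit 705691652) (nat_lit 10940842850) (.two (nat_lit 1048576) (nat_lit 10907290112) (.one (nat_lit 2104570) .nil))),
   .two (nat_lit 2887778319) (nat_lit 166245433387) (.two (nat_lit 50331656) (nat_lit 10537140900) (.two (nat_lit 9765388289) (nat_lit 620758338) (.two (nat_lit 16777216) (nat_lit 2102852) (.one (nat_lit 16784635) .nil)))),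
   .two (nat_lit 16777231) (nat_lit 11477712997) (.two (nat_lit 3036676109) (nat_lit 46474985609) (.two (nat_lit 21778923525) (nat_lit 4027581759) (.two (nat_lit 2097152) (nat_lit 1175457212) (.one (nat_lit 16783655) .nil)))),
   .two (nat_lit 713031695) (nat_lit 3457155116) (.two (nat_lit 713031688) (nat_lit 10503586056) (.two (nat_lit 13195280389) (nat_lit 19093521041) (.two (nat_lit 4194305) (nat_lit 3028289555) (.two (nat_lit 1048576) (nat_lit 2927627871) (.one (nat_lit 1055016) .nil))))),
   .two (nat_lit 4605345807) (nat_lit 157038936088) (.two (nat_lit 3460300808) (nat_lit 4605345856) (.two (nat_lit 46409973764) (nat_lit 28764538165) (.two (nat_lit 4194304) (nat_lit 19033754122) (.one (nat_lit 1055996) .nil)))),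
   .two (nat_lit 285212687) (nat_lit 2923429953) (.two (nat_lit 272629765) (nat_lit 37262198909) (.two (nat_lit 4194304) (nat_lit 20719864335) (.one (nat_lit 16784637) .nil))),
   .two (nat_lit 8388623) (nat_lit 11559501839) (.two (nat_lit 11559501832) (nat_lit 2424309092) (.two (nat_lit 16777216) (nat_lit 20644366874) (.one (nat_lit 8395049) .nil))),
   .two (nat_lit 50331663) (nat_lit 272629775) (.two (nat_lit 37748744) (nat_lit 721420396) (.two (nat_lit 16777220) (nat_lit 3460301486) (.two (nat_lit 4194305) (nat_lit 183947494774) (.two (nat_lit 2097152) (nat_lit 158192372263) (.one (nat_lit 16784638) .nil))))),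
   .two (nat_lit 10385096719) (nat_lit 158144135235) (.two (nat_lit 708837381) (nat_lit 117440707) (.two (nat_lit 4194305) (nat_lit 37314626402) (.two (nat_lit 2097152) (nat_lit 19029559816) (.one (nat_lit 16784639) .nil)))),
   .two (nat_lit 9768534031) (nat_lit 9948889112) (.two (nat_lit 620757000) (nat_lit 9866051698) (.two (nat_lit 83886085) (nat_lit 37316724038) (.two (nat_lit 1048576) (nat_lit 37249616422) (.one (nat_lit 135274485) .nil)))),
   .two (nat_lit 2969567247) (nat_lit 337641591) (.two (nat_lit 11484004357) (nat_lit 9781118246) (.two (nat_lit 2097152) (nat_lit 183861512739) (.one (nat_lit 156466420867) .nil))),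
   .two (nat_lit 156367847439) (nat_lit 19027460120) (.two (nat_lit 28758245384) (nat_lit 9802088560) (.two (nat_lit 166130089988) (nat_lit 11479811439) (.two (nat_lit 2097152) (nat_lit 4200005) (.one (nat_lit 2104576) .nil)))),
   .two (nat_lit 218103823) (nat_lit 203423770) (.two (nat_lit 11492392968) (nat_lit 183845781773) (.two (nat_lit 4599054341) (nat_lit 9948889446) (.two (nat_lit 2097153) (nat_lit 9948890401) (.two (nat_lit 1048576) (nat_lit 16781807) (.one (nat_lit 21208504531) .nil))))),
   .two (nat_lit 41943055) (nat_lit 306184257) (.two (nat_lit 1343225861) (nat_lit 2357199949) (.two (nat_lit 4194305) (nat_lit 2994735126) (.two (nat_lit 1048576) (nat_lit 1182797264) (.one (nat_lit 4201729) .nil)))),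
   .two (nat_lit 83886095) (nat_lit 11510218999) (.two (nat_lit 1779433477) (nat_lit 721420645) (.two (nat_lit 34603009) (nat_lit 3539994686) (.two (nat_lit 1048576) (nat_lit 12129930758) (.one (nat_lit 16784642) .nil)))),
   .two (nat_lit 203423759) (nat_lit 11618222201) (.two (nat_lit 705691652) (nat_lit 4638902336) (.two (nat_lit 1048576) (nat_lit 69210459) (.one (nat_lit 2104579) .nil))),
   .two (nat_lit 10506731535) (nat_lit 184987680893) (.two (nat_lit 11546918917) (nat_lit 2349859429) (.two (nat_lit 606076929) (nat_lit 19096668214) (.two (nat_lit 2097152) (nat_lit 1054279) (.one (nat_lit 1056004) .nil)))),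
   .two (nat_lit 165532401705) (nat_lit 11511267372) (.two (nat_lit 2988441613) (nat_lit 2927624312) (.two (nat_lit 47548727301) (nat_lit 310379135) (.two (nat_lit 2097153) (nat_lit 8390785) (.two (nat_lit 2097152) (nat_lit 8393200) (.one (nat_lit 8395055) .nil))))),
   .two (nat_lit 1277165583) (nat_lit 46980399119) (.two (nat_lit 10370416648) (nat_lit 13191086200) (.two (nat_lit 3527409669) (nat_lit 166230753637) (.two (nat_lit 156367847425) (nat_lit 10001320029) (.two (nat_lit 2097152) (nat_lit 4198897) (.one (nat_lit 2104581) .nil))))),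
   .two (nat_lit 713031695) (nat_lit 1913651336) (.two (nat_lit 157035790341) (nat_lit 1417675109) (.two (nat_lit 16777217) (nat_lit 46481278259) (.two (nat_lit 16777216) (nat_lit 1053170) (.one (nat_lit 1056006) .nil)))),
   .two (nat_lit 12047089679) (nat_lit 2894069861) (.two (nat_lit 746586125) (nat_lit 12047089730) (.two (nat_lit 41943045) (nat_lit 12047090530) (.two (nat_lit 8388608) (nat_lit 336595474) (.one (nat_lit 1055025) .nil)))),
   .two (nat_lit 13191086095) (nat_lit 19042140201) (.two (nat_lit 104857608) (nat_lit 158143086721) (.two (nat_lit 75497477) (nat_lit 4601151683) (.two (nat_lit 8388609) (nat_lit 159253529921) (.two (nat_lit 1048576) (nat_lit 13203673586) (.one (nat_lit 10519321824) .nil))))),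
   .two (nat_lit 2969567247) (nat_lit 10336862223) (.two (nat_lit 10336862216) (nat_lit 2332034366) (.two (nat_lit 2097152) (nat_lit 822088736) .nil)),
   .two (nat_lit 11479810063) (nat_lit 1913651215) (.two (nat_lit 11476664328) (nat_lit 272629880) (.two (nat_lit 184419352581) (nat_lit 11577328271) (.two (nat_lit 9765388289) (nat_lit 46508541306) (.two (nat_lit 1048576) (nat_lit 37314629145) (.one (nat_lit 1055026) .nil))))),
   .two (nat_lit 4601151503) (nat_lit 9781116952) (.two (nat_lit 809500680) (nat_lit 21793604672) (.two (nat_lit 4194305) (nat_lit 285216947) (.two (nat_lit 1048576) (nat_lit 4198900) (.one (nat_lit 1056007) .nil)))),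
   .two (nat_lit 169869327) (nat_lit 16777240) (.two (nat_lit 285212680) (nat_lit 156532473975) (.two (nat_lit 2902458373) (nat_lit 158143087266) (.two (nat_lit 2097153) (nat_lit 20637025656) (.two (nat_lit 16777216) (nat_lit 183946449323) (.one (nat_lit 2103604) .nil))))),
   .two (nat_lit 2889875471) (nat_lit 772800536) (.two (nat_lit 9768534024) (nat_lit 156968682192) (.two (nat_lit 16777217) (nat_lit 46977254725) (.two (nat_lit 16777216) (nat_lit 184416210480) (.one (nat_lit 4201736) .nil)))),
   .two (nat_lit 1178599439) (nat_lit 10437525527) (.two (nat_lit 166130089992) (nat_lit 13224640647) (.two (nat_lit 9768534021) (nat_lit 2921333360) (.two (nat_lit 37748737) (nat_lit 156567079013) (.two (nat_lit 16777216) (nat_lit 9906949618) (.one (nat_lit 8396041) .nil))))),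
   .two (nat_lit 184549391) (nat_lit 1411383423) (.two (nat_lit 184549380) (nat_lit 4028629350) (.two (nat_lit 620756993) (nat_lit 158144137245) (.two (nat_lit 2097152) (nat_lit 117443094) (.one (nat_lit 2104587) .nil)))),
   .two (nat_lit 2902458383) (nat_lit 4601151503) (.two (nat_lit 4601151496) (nat_lit 3573548364) (.two (nat_lit 4194304) (nat_lit 218107353) (.one (nat_lit 16784652) .nil))),
   .two (nat_lit 9768534031) (nat_lit 9933160713) (.two (nat_lit 184549381) (nat_lit 1745881200) (.two (nat_lit 16777216) (nat_lit 47547682353) (.one (nat_lit 1056013) .nil))),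
   .two (nat_lit 176160783) (nat_lit 183912890393) (.two (nat_lit 183845781512) (nat_lit 10007610210) (.two (nat_lit 2097152) (nat_lit 1053174) (.one (nat_lit 1056014) .nil))),
   .two (nat_lit 12117344271) (nat_lit 21811429417) (.two (nat_lit 19599982600) (nat_lit 21207449729) (.two (nat_lit 21777874949) (nat_lit 10909386043) (.two (nat_lit 1048576) (nat_lit 184419356154) (.one (nat_lit 1212159008) .nil)))),
   .two (nat_lit 639631375) (nat_lit 1846542359) (.two (nat_lit 166129041416) (nat_lit 166230753417) (.two (nat_lit 2902458373) (nat_lit 183846832197) (.two (nat_lit 2097152) (nat_lit 679480757) (.one (nat_lit 2104591) .nil)))),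
   .two (nat_lit 16777231) (nat_lit 1849688079) (.two (nat_lit 13203669000) (nat_lit 608174199) (.two (nat_lit 158150426629) (nat_lit 12129927815) (.two (nat_lit 156365750273) (nat_lit 12121540659) (.two (nat_lit 2097152) (nat_lit 205524397) (.one (nat_lit 8396048) .nil))))),
   .two (nat_lit 639631375) (nat_lit 3527409679) (.two (nat_lit 9766436872) (nat_lit 46510637170) (.two (nat_lit 2887778308) (nat_lit 19532874380) (.two (nat_lit 2097153) (nat_lit 1279264067) (.two (nat_lit 2097152) (nat_lit 158649552341) (.one (nat_lit 4201745) .nil))))),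
   .two (nat_lit 46409973775) (nat_lit 156533522473) (.two (nat_lit 156367847432) (nat_lit 158647451784) (.two (nat_lit 639631365) (nat_lit 2923430245) (.two (nat_lit 9766436865) (nat_lit 12117346842) (.one (nat_lit 337648710) .nil)))),
   .two (nat_lit 1178599439) (nat_lit 28690088050) (.two (nat_lit 11479810052) (nat_lit 174752531847) (.two (nat_lit 4194304) (nat_lit 672139789) (.one (nat_lit 1055035) .nil))),
   .two (nat_lit 13195280399) (nat_lit 1276117120) (.two (nat_lit 174752530437) (nat_lit 1176502635) (.two (nat_lit 8388609) (nat_lit 1051568) (.two (nat_lit 8388608) (nat_lit 1054255) (.one (nat_lit 2104595) .nil)))),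
   .two (nat_lit 9781116943) (nat_lit 158077026319) (.two (nat_lit 12050235400) (nat_lit 2902458478) (.two (nat_lit 708837381) (nat_lit 2902459685) (.two (nat_lit 2097152) (nat_lit 16782923) (.one (nat_lit 3022002301) .nil)))),
   .two (nat_lit 612368399) (nat_lit 46978302072) (.two (nat_lit 176160772) (nat_lit 21208498534) (.two (nat_lit 8388609) (nat_lit 35653746) (.two (nat_lit 1048576) (nat_lit 136321311) .nil))),
   .two (nat_lit 20704133160) (nat_lit 13224640537) (.two (nat_lit 742391816) (nat_lit 20704133235) (.two (nat_lit 10939793413) (nat_lit 9902752386) (.two (nat_lit 606076929) (nat_lit 171968606) (.two (nat_lit 2097152) (nat_lit 20740835850) (.one (nat_lit 4200764) .nil))))),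
   .two (nat_lit 46414168079) (nat_lit 166132187273) (.two (nat_lit 69206021) (nat_lit 10343155229) (.one (nat_lit 1350569874) .nil)),
   .two (nat_lit 117440527) (nat_lit 158143086635) (.two (nat_lit 2887778312) (nat_lit 754974831) (.two (nat_lit 2887778308) (nat_lit 184550042) (.two (nat_lit 16777217) (nat_lit 773852076) (.two (nat_lit 1048576) (nat_lit 11611935120) (.one (nat_lit 16784660) .nil))))),
   .two (nat_lit 20638072847) (nat_lit 2886729771) (.two (nat_lit 21208498184) (nat_lit 9899606374) (.two (nat_lit 156364701697) (nat_lit 166230754644) (.two (nat_lit 1048576) (nat_lit 2101754) (.one (nat_lit 1055038) .nil)))),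
   .two (nat_lit 203423759) (nat_lit 184419352618) (.two (nat_lit 47563407368) (nat_lit 9934209219) (.two (nat_lit 156364701697) (nat_lit 4196483) (.two (nat_lit 1048576) (nat_lit 641733106) (.one (nat_lit 1056021) .nil)))),
   .two (nat_lit 156569174040) (nat_lit 9866051628) (.two (nat_lit 184416206861) (nat_lit 156367847546) (.two (nat_lit 34603013) (nat_lit 1384121709) (.two (nat_lit 2097152) (nat_lit 4631563707) (.one (nat_lit 4201750) .nil)))),
   .two (nat_lit 135266328) (nat_lit 3458203692) (.two (nat_lit 708837389) (nat_lit 165540790914) (.two (nat_lit 4194305) (nat_lit 28086109543) (.two (nat_lit 4194304) (nat_lit 2101755) (.one (nat_lit 16784663) .nil)))),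
   .two (nat_lit 2954887183) (nat_lit 156367847439) (.two (nat_lit 46409973768) (nat_lit 158144135408) (.two (nat_lit 46409973764) (nat_lit 159251431781) (.two (nat_lit 2097153) (nat_lit 10506734102) (.one (nat_lit 4201752) .nil)))),
   .two (nat_lit 184419352600) (nat_lit 37320917034) (.two (nat_lit 4194312) (nat_lit 10007609481) (.two (nat_lit 1358954501) (nat_lit 21210596661) (.two (nat_lit 1048576) (nat_lit 19130222110) (.one (nat_lit 4200768) .nil)))),
   .two (nat_lit 11543773199) (nat_lit 10940842008) (.two (nat_lit 166130089992) (nat_lit 158176641140) (.two (nat_lit 166130089988) (nat_lit 11510219390) (.two (nat_lit 605028353) (nat_lit 10370421101) (.one (nat_lit 2103617) .nil)))),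
   .two (nat_lit 166132187151) (nat_lit 158144135233) (.two (nat_lit 203423749) (nat_lit 4194665) (.two (nat_lit 2097153) (nat_lit 876612111) (.one (nat_lit 1948260290) .nil))),
   .two (nat_lit 1795162127) (nat_lit 37313576984) (.two (nat_lit 184549384) (nat_lit 183949590649) (.two (nat_lit 16777221) (nat_lit 10909385361) (.two (nat_lit 4194305) (nat_lit 3573549104) (.two (nat_lit 1048576) (nat_lit 183861513730) (.one (nat_lit 16784665) .nil))))),
   .two (nat_lit 46407876623) (nat_lit 28093448207) (.two (nat_lit 28093448200) (nat_lit 12047089778) (.two (nat_lit 20644364292) (nat_lit 102761797) (.two (nat_lit 8388608) (nat_lit 3022002110) .nil))),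
   .two (nat_lit 813694991) (nat_lit 183949590551) (.two (nat_lit 1350565896) (nat_lit 236978291) (.two (nat_lit 713031685) (nat_lit 1746928273) (.two (nat_lit 8388609) (nat_lit 47582283047) (.two (nat_lit 4194304) (nat_lit 156573372906) (.one (nat_lit 183953791284) .nil))))),
   .two (nat_lit 612368399) (nat_lit 183913939070) (.two (nat_lit 209715205) (nat_lit 19530778753) (.two (nat_lit 1048576) (nat_lit 19027462669) (.one (nat_lit 19530783014) .nil))),
   .two (nat_lit 41943055) (nat_lit 37313577097) (.two (nat_lit 10370416645) (nat_lit 166129042080) (.two (nat_lit 2097153) (nat_lit 10335815734) (.two (nat_lit 2097152) (nat_lit 12155096602) (.one (nat_lit 1055044) .nil)))),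
   .two (nat_lit 8388623) (nat_lit 3458203663) (.two (nat_lit 9940500488) (nat_lit 3558867052) (.two (nat_lit 1283457029) (nat_lit 807404183) (.two (nat_lit 9768534017) (nat_lit 136316229) (.two (nat_lit 4194304) (nat_lit 47588576816) (.one (nat_lit 2104602) .nil))))),
   .two (nat_lit 101711887) (nat_lit 2969567333) (.two (nat_lit 285212680) (nat_lit 1779433588) (.two (nat_lit 16777220) (nat_lit 11476664969) (.two (nat_lit 2097153) (nat_lit 18925750326) (.two (nat_lit 2097152) (nat_lit 352327728) .nil)))),
   .two (nat_lit 184549391) (nat_lit 183853121651) (.two (nat_lit 713031685) (nat_lit 10351543643) (.two (nat_lit 8388608) (nat_lit 16781821) (.one (nat_lit 16783686) .nil))),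
   .two (nat_lit 809500687) (nat_lit 2902458392) (.two (nat_lit 218103816) (nat_lit 272629870) (.two (nat_lit 2902458372) (nat_lit 183916038181) (.two (nat_lit 16777216) (nat_lit 1054284) (.one (nat_lit 4200776) .nil)))),
   .two (nat_lit 184993972239) (nat_lit 19529728015) (.two (nat_lit 3539992584) (nat_lit 19537068151) (.two (nat_lit 2956984325) (nat_lit 343933589) (.two (nat_lit 4194305) (nat_lit 83888143) (.two (nat_lit 4194304) (nat_lit 16782925) (.one (nat_lit 16784667) .nil))))),
   .two (nat_lit 8388623) (nat_lit 159217877007) (.two (nat_lit 606076936) (nat_lit 3028287555) (.two (nat_lit 713031685) (nat_lit 11477713997) (.two (nat_lit 8388609) (nat_lit 184417256758) (.two (nat_lit 4194304) (nat_lit 10538192488) (.one (nat_lit 10538196187) .nil))))),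
   .two (nat_lit 713031695) (nat_lit 157036838927) (.two (nat_lit 46978301960) (nat_lit 2357199100) (.two (nat_lit 46407876612) (nat_lit 176162863) (.two (nat_lit 8388608) (nat_lit 46474989090) (.one (nat_lit 10370423873) .nil)))),
   .two (nat_lit 165532401679) (nat_lit 136315008) (.two (nat_lit 20644364292) (nat_lit 1277166207) (.two (nat_lit 2097153) (nat_lit 1753220391) (.two (nat_lit 2097152) (nat_lit 1350572125) .nil)))]

theorem k3 : chkL tab c3 (nat_lit 6600) = true := by decide +kernel

theorem l3 : c3.length = 2200 := by decide +kernel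

end K4

end Pool.Agent.Work.MP_bf01b2_co.MR
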