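import Pool.Agent.Work.MP_bf01b2_co.MR.K4T

/-!
# Three and four roots in `Q_5`: certificates of the entries 8800 to 10999
-/

set_option autoImplicit false
set_option maxRecDepth 100000

namespace Pool.Agent.Work.MP_bf01b2_co.MR

namespace K4

open JT

/-- certificates of the entries 8800 to 10999 -/
def c4 : List Rc :=
  [.two (nat_lit 183848927247) (nat_lit 3028287606) (.two (nat_lit 13191086085) (nat_lit 158183982157) (.two (nat_lit 37748737) (nat_lit 813697078) (.two (nat_lit 4194304) (nat_lit 813698586) (.one (nat_lit 4201756) .nil)))),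
   .two (nat_lit 50331663) (nat_lit 10436477041) (.two (nat_lit 101711877) (nat_lit 1191182988) (.two (nat_lit 50331649) (nat_lit 21777877534) (.one (nat_lit 174685426687) .nil))),
   .two (nat_lit 276824079) (nat_lit 10921967750) (.two (nat_lit 721420292) (nat_lit 1209008832) (.two (nat_lit 620756993) (nat_lit 343936511) (.one (nat_lit 8396061) .nil))),
   .two (nat_lit 159224168463) (nat_lit 672137352) (.two (nat_lit 16777221) (nat_lit 142608458) (.two (nat_lit 16777216) (nat_lit 46977256884) (.one (nat_lit 9781123180) .nil))),
   .two (nat_lit 10385096719) (nat_lit 174752530568) (.two (nat_lit 117440517) (nat_lit 605029750) (.two (nat_lit 1048576) (nat_lit 16781822) (.one (nat_lit 1056030) .nil))),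
   .two (nat_lit 713031695) (nat_lit 156365750287) (.two (nat_lit 822083592) (nat_lit 1417675109) (.two (nat_lit 16777217) (nat_lit 159251432814) (.two (nat_lit 8388608) (nat_lit 2102862) (.one (nat_lit 2104607) .nil)))),
   .two (nat_lit 2954887183) (nat_lit 166132187151) (.two (nat_lit 2954887176) (nat_lit 11614027903) (.two (nat_lit 2887778308) (nat_lit 10540286599) (.two (nat_lit 41943041) (nat_lit 46978304054) (.two (nat_lit 8388608) (nat_lit 2101760) (.one (nat_lit 8396064) .nil))))),
   .two (nat_lit 285212687) (nat_lit 236978201) (.two (nat_lit 169869320) (nat_lit 2902458435) (.two (nat_lit 169869316) (nat_lit 46422557035) (.two (nat_lit 606076929) (nat_lit 11476666390) (.two (nat_lit 1048576) (nat_lit 2102863) (.one (nat_lit 1055052) .nil))))),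
   .two (nat_lit 8388623) (nat_lit 9869197574) (.two (nat_lit 8388612) (nat_lit 11580473704) (.two (nat_lit 4194305) (nat_lit 1426065462) (.two (nat_lit 4194304) (nat_lit 3524267445) (.one (nat_lit 1056033) .nil)))),
   .two (nat_lit 16777231) (nat_lit 156569174625) (.two (nat_lit 16777217) (nat_lit 3527412225) (.one (nat_lit 4601157752) .nil)),
   .two (nat_lit 28693233679) (nat_lit 20704133237) (.two (nat_lit 9866051589) (nat_lit 28693234531) (.two (nat_lit 1048576) (nat_lit 21781024654) .nil)),
   .two (nat_lit 176160783) (nat_lit 11513364504) (.two (nat_lit 1175453704) (nat_lit 183949590638) (.two (nat_lit 11479810053) (nat_lit 174685422232) (.two (nat_lit 8388609) (nat_lit 303040551) (.two (nat_lit 1048576) (nat_lit 4198915) (.one (nat_lit 303045708) .nil))))),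
   .two (nat_lit 159217877007) (nat_lit 109052029) (.two (nat_lit 8388612) (nat_lit 3524265305) (.two (nat_lit 8388608) (nat_lit 166196153785) (.one (nat_lit 1056035) .nil))),
   .two (nat_lit 12047089679) (nat_lit 2350907508) (.two (nat_lit 184986632197) (nat_lit 9900655241) (.two (nat_lit 37748737) (nat_lit 2101645) (.one (nat_lit 2103637) .nil))),
   .two (nat_lit 41943055) (nat_lit 117440527) (.two (nat_lit 276824072) (nat_lit 3472883839) (.two (nat_lit 11476664324) (nat_lit 20745027945) (.two (nat_lit 34603009) (nat_lit 3472885857) (.two (nat_lit 1048576) (nat_lit 16781831) (.one (nat_lit 16784676) .nil))))),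
   .two (nat_lit 822083599) (nat_lit 2956984456) (.two (nat_lit 10372513797) (nat_lit 117443073) (.one (nat_lit 8396069) .nil)),
   .two (nat_lit 156372041743) (nat_lit 183962173483) (.two (nat_lit 620757000) (nat_lit 156372041837) (.two (nat_lit 46414168069) (nat_lit 117441120) (.two (nat_lit 8388609) (nat_lit 28101838162) (.two (nat_lit 8388608) (nat_lit 16780928) (.one (nat_lit 16784678) .nil))))),
   .two (nat_lit 10370416655) (nat_lit 11618222205) (.two (nat_lit 639631365) (nat_lit 2927626317) (.two (nat_lit 2097152) (nat_lit 8393226) (.one (nat_lit 8395100) .nil))),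
   .two (nat_lit 176160783) (nat_lit 606076943) (.two (nat_lit 37748744) (nat_lit 183920230528) (.two (nat_lit 169869316) (nat_lit 11517559861) (.two (nat_lit 2097153) (nat_lit 19604178245) (.two (nat_lit 2097152) (nat_lit 8392321) (.one (nat_lit 1317016701) .nil))))),
   .two (nat_lit 612368399) (nat_lit 12047089679) (.two (nat_lit 11479810056) (nat_lit 672137477) (.two (nat_lit 184986632197) (nat_lit 46481277601) (.two (nat_lit 34603009) (nat_lit 3565159778) (.two (nat_lit 4194304) (nat_lit 184423550424) (.one (nat_lit 4201767) .nil))))),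
   .two (nat_lit 739246095) (nat_lit 2319450474) (.two (nat_lit 34603009) (nat_lit 205523052) (.two (nat_lit 4194304) (nat_lit 156532478407) (.one (nat_lit 1056040) .nil))),
   .two (nat_lit 272629775) (nat_lit 21785215018) (.two (nat_lit 9766436872) (nat_lit 13224641122) (.two (nat_lit 4194305) (nat_lit 28764538919) (.two (nat_lit 8388608) (nat_lit 20638075431) (.one (nat_lit 2104617) .nil)))),
   .two (nat_lit 169869327) (nat_lit 46489665785) (.two (nat_lit 169869316) (nat_lit 11006902940) (.two (nat_lit 606076929) (nat_lit 1050759) (.two (nat_lit 2097152) (nat_lit 1053199) (.one (nat_lit 10452212979) .nil)))),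
   .two (nat_lit 184549391) (nat_lit 847249537) (.two (nat_lit 713031685) (nat_lit 620758558) (.one (nat_lit 156581760917) .nil)),
   .two (nat_lit 218103823) (nat_lit 673186407) (.two (nat_lit 2097153) (nat_lit 3036679616) (.one (nat_lit 21827164419) .nil)),
   .two (nat_lit 184549391) (nat_lit 4194328) (.two (nat_lit 28772925448) (nat_lit 9768534136) (.two (nat_lit 4194308) (nat_lit 10015998611) (.two (nat_lit 9781116929) (nat_lit 184419354666) (.two (nat_lit 8388608) (nat_lit 2420117095) (.one (nat_lit 4201770) .nil))))),
   .two (nat_lit 612368399) (nat_lit 21208498199) (.two (nat_lit 9934209032) (nat_lit 47555018818) (.two (nat_lit 169869316) (nat_lit 159224168805) (.two (nat_lit 2097153) (nat_lit 183920231798) (.two (nat_lit 2097152) (nat_lit 8392325) (.one (nat_lit 8396075) .nil))))),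
   .two (nat_lit 1913651215) (nat_lit 185002360858) (.two (nat_lit 1191182344) (nat_lit 12617515145) (.two (nat_lit 605028357) (nat_lit 251658602) (.two (nat_lit 4194305) (nat_lit 157051522488) (.one (nat_lit 16784684) .nil)))),
   .two (nat_lit 184986632207) (nat_lit 174753579023) (.two (nat_lit 1343225864) (nat_lit 169869574) (.two (nat_lit 21208498181) (nat_lit 3557818728) (.two (nat_lit 34603009) (nat_lit 606079069) (.two (nat_lit 1048576) (nat_lit 2988446160) (.one (nat_lit 1055081) .nil))))),
   .two (nat_lit 159217877007) (nat_lit 174688567363) (.two (nat_lit 169869316) (nat_lit 1950351721) (.two (nat_lit 2097153) (nat_lit 11010049340) (.two (nat_lit 2097152) (nat_lit 159219977724) (.one (nat_lit 4201773) .nil)))),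
   .two (nat_lit 47548727311) (nat_lit 9906946072) (.two (nat_lit 3458203656) (nat_lit 11546919048) (.two (nat_lit 46407876612) (nat_lit 37316723345) (.two (nat_lit 612368385) (nat_lit 35652952) (.two (nat_lit 2097152) (nat_lit 4200017) (.one (nat_lit 2104622) .nil))))),
   .two (nat_lit 1358954511) (nat_lit 3527409688) (.two (nat_lit 50331656) (nat_lit 159253529246) (.two (nat_lit 16777217) (nat_lit 28793899044) (.two (nat_lit 8388608) (nat_lit 47584382574) (.one (nat_lit 8396079) .nil)))),
   .two (nat_lit 158143086607) (nat_lit 10538188824) (.two (nat_lit 10504634376) (nat_lit 158143086658) (.two (nat_lit 166130089989) (nat_lit 11577328320) (.two (nat_lit 2097153) (nat_lit 1209009502) (.two (nat_lit 2097152) (nat_lit 1053200) (.one (nat_lit 1343232038) .nil))))),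
   .two (nat_lit 183853121551) (nat_lit 10506731635) (.two (nat_lit 10506731525) (nat_lit 183853122402) (.two (nat_lit 4194304) (nat_lit 880807814) .nil)),
   .two (nat_lit 156367847439) (nat_lit 9899606117) (.two (nat_lit 11577327628) (nat_lit 19599982870) (.two (nat_lit 184416206853) (nat_lit 19599983696) (.two (nat_lit 34603009) (nat_lit 158179788914) (.two (nat_lit 4194304) (nat_lit 1054290) (.one (nat_lit 1056048) .nil))))),
   .two (nat_lit 50331663) (nat_lit 9806283426) (.two (nat_lit 612368385) (nat_lit 185035918784) (.one (nat_lit 1786778719) .nil)),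
   .two (nat_lit 2969567247) (nat_lit 2954887212) (.two (nat_lit 158647451661) (nat_lit 184549488) (.two (nat_lit 1344274437) (nat_lit 184550242) (.two (nat_lit 2097152) (nat_lit 12633247658) .nil))),
   .two (nat_lit 16777231) (nat_lit 3457155117) (.two (nat_lit 4194312) (nat_lit 46508540029) (.two (nat_lit 708837381) (nat_lit 21223178865) (.two (nat_lit 606076929) (nat_lit 10338960227) (.two (nat_lit 1048576) (nat_lit 159232560741) (.one (nat_lit 4201777) .nil))))),
   .two (nat_lit 713031695) (nat_lit 4601151597) (.two (nat_lit 41943045) (nat_lit 19532874365) (.two (nat_lit 605028353) (nat_lit 157043131717) (.two (nat_lit 1048576) (nat_lit 12624857613) (.one (nat_lit 8396083) .nil)))),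
   .two (nat_lit 8388623) (nat_lit 13188989046) (.two (nat_lit 176160773) (nat_lit 165526110899) (.two (nat_lit 156367847425) (nat_lit 46984595981) (.one (nat_lit 1317018773) .nil))),
   .two (nat_lit 272629775) (nat_lit 10504634383) (.two (nat_lit 2889875464) (nat_lit 156533522549) (.two (nat_lit 2887778308) (nat_lit 156569174626) (.two (nat_lit 2097153) (nat_lit 4196489) (.two (nat_lit 2097152) (nat_lit 4198929) (.one (nat_lit 706746465) .nil))))),
   .two (nat_lit 620757007) (nat_lit 20705181739) (.two (nat_lit 9948889096) (nat_lit 10907287668) (.two (nat_lit 3525312517) (nat_lit 46489666239) (.two (nat_lit 2097153) (nat_lit 166245434697) (.two (nat_lit 2097152) (nat_lit 1795165700) (.one (nat_lit 2104628) .nil))))),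
   .two (nat_lit 12117344280) (nat_lit 156372041768) (.two (nat_lit 11479810056) (nat_lit 156372041843) (.two (nat_lit 809500677) (nat_lit 18933088871) (.two (nat_lit 37748737) (nat_lit 11517561382) (.one (nat_lit 4201781) .nil)))),
   .two (nat_lit 1178599439) (nat_lit 2969567347) (.two (nat_lit 285212677) (nat_lit 1916797794) (.two (nat_lit 16777216) (nat_lit 2420117404) .nil)),
   .two (nat_lit 754974735) (nat_lit 46409973784) (.two (nat_lit 11492392968) (nat_lit 185023332471) (.two (nat_lit 171966469) (nat_lit 83886947) (.two (nat_lit 8388608) (nat_lit 742396435) (.one (nat_lit 4201782) .nil)))),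
   .two (nat_lit 101711887) (nat_lit 183916036211) (.two (nat_lit 1779433477) (nat_lit 10001318588) (.two (nat_lit 34603009) (nat_lit 183846832225) (.two (nat_lit 1048576) (nat_lit 2102867) (.one (nat_lit 2103666) .nil)))),
   .two (nat_lit 11559501839) (nat_lit 47582281752) (.two (nat_lit 1291845640) (nat_lit 174753579116) (.two (nat_lit 169869316) (nat_lit 11559502019) (.two (nat_lit 2097153) (nat_lit 3539993918) (.two (nat_lit 16777216) (nat_lit 10504638824) (.one (nat_lit 16784695) .nil))))),
   .two (nat_lit 185020186664) (nat_lit 1920991276) (.two (nat_lit 880803852) (nat_lit 739246209) (.two (nat_lit 184993972229) (nat_lit 28690088626) (.two (nat_lit 41943041) (nat_lit 37246470173) (.two (nat_lit 8388608) (nat_lit 156566034705) .nil)))),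
   .two (nat_lit 13191086095) (nat_lit 158083318365) (.two (nat_lit 4194305) (nat_lit 158653745192) (.two (nat_lit 4194304) (nat_lit 9873396194) (.one (nat_lit 775952674) .nil))),
   .two (nat_lit 822083599) (nat_lit 1779433588) (.two (nat_lit 11492392965) (nat_lit 1410335412) (.two (nat_lit 16777217) (nat_lit 1050763) (.two (nat_lit 1048576) (nat_lit 2102868) (.one (nat_lit 1056057) .nil)))),
   .two (nat_lit 16777231) (nat_lit 20738736195) (.two (nat_lit 184549381) (nat_lit 159251432291) (.two (nat_lit 16777216) (nat_lit 174753585164) .nil)),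
   .two (nat_lit 183853121551) (nat_lit 166130090027) (.two (nat_lit 2954887176) (nat_lit 18933088368) (.two (nat_lit 169869316) (nat_lit 1786776073) (.one (nat_lit 304093358) .nil))),
   .two (nat_lit 8388623) (nat_lit 166211878936) (.two (nat_lit 1795162120) (nat_lit 8388672) (.two (nat_lit 117440517) (nat_lit 176162128) (.two (nat_lit 16777216) (nat_lit 8393236) (.one (nat_lit 8396090) .nil)))),
   .two (nat_lit 11559501839) (nat_lit 158176641049) (.two (nat_lit 68157448) (nat_lit 11559501888) (.two (nat_lit 705691652) (nat_lit 156380431669) (.two (nat_lit 1048576) (nat_lit 1761610250) (.one (nat_lit 9768540380) .nil)))),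
   .two (nat_lit 620757007) (nat_lit 1948254340) (.two (nat_lit 2887778308) (nat_lit 3573548386) (.two (nat_lit 1048576) (nat_lit 2988445253) (.one (nat_lit 16783735) .nil))),
   .two (nat_lit 41943055) (nat_lit 183845781527) (.two (nat_lit 41943048) (nat_lit 1048714) (.two (nat_lit 75497477) (nat_lit 158646403750) (.two (nat_lit 4194305) (nat_lit 1052853) (.two (nat_lit 4194304) (nat_lit 1053205) (.one (nat_lit 9936311345) .nil))))),
   .two (nat_lit 11479810063) (nat_lit 183946444823) (.two (nat_lit 12117344264) (nat_lit 10335813991) (.two (nat_lit 9768534017) (nat_lit 184416208206) (.two (nat_lit 1048576) (nat_lit 4198934) (.one (nat_lit 4200824) .nil)))),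
   .two (nat_lit 47548727311) (nat_lit 156569174040) (.two (nat_lit 10506731528) (nat_lit 1310720135) (.two (nat_lit 3458203653) (nat_lit 1749025470) (.two (nat_lit 606076929) (nat_lit 46977254725) (.two (nat_lit 1048576) (nat_lit 4200021) (.one (nat_lit 1056059) .nil))))),
   .two (nat_lit 285212687) (nat_lit 21812478084) (.two (nat_lit 2902458373) (nat_lit 3021996704) (.two (nat_lit 50331649) (nat_lit 11006904374) (.two (nat_lit 16777216) (nat_lit 2316308992) (.one (nat_lit 16784700) .nil)))),
   .two (nat_lit 184986632207) (nat_lit 2350907459) (.two (nat_lit 705691652) (nat_lit 156567077225) (.two (nat_lit 605028353) (nat_lit 37314626876) (.two (nat_lit 1048576) (nat_lit 184987684348) (.one (nat_lit 2104637) .nil)))),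
   .two (nat_lit 1277165583) (nat_lit 46489665793) (.two (nat_lit 9948889093) (nat_lit 159217877666) (.two (nat_lit 620756993) (nat_lit 157036843423) (.one (nat_lit 2104638) .nil))),
   .two (nat_lit 2889875471) (nat_lit 10336862223) (.two (nat_lit 205520904) (nat_lit 2988441667) (.two (nat_lit 2889875460) (nat_lit 304087403) (.two (nat_lit 2097153) (nat_lit 775948350) (.two (nat_lit 2097152) (nat_lit 4631566486) .nil)))),
   .two (nat_lit 47548727311) (nat_lit 156465365016) (.two (nat_lit 159217877000) (nat_lit 156465365103) (.two (nat_lit 20638072837) (nat_lit 135266917) (.two (nat_lit 606076929) (nat_lit 12617516325) (.two (nat_lit 2097152) (nat_lit 11610886673) (.one (nat_lit 158177695573) .nil))))),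
   .two (nat_lit 11559501839) (nat_lit 21777874959) (.two (nat_lit 11543773192) (nat_lit 10955523425) (.two (nat_lit 1048576) (nat_lit 12633248187) (.one (nat_lit 16784703) .nil))),
   .two (nat_lit 9781116943) (nat_lit 12054429721) (.two (nat_lit 11551113224) (nat_lit 2902458478) (.two (nat_lit 184549381) (nat_lit 12624855712) (.two (nat_lit 41943041) (nat_lit 117441873) (.two (nat_lit 2097152) (nat_lit 16780942) (.one (nat_lit 174686476384) .nil))))),
   .two (nat_lit 218103823) (nat_lit 12147752985) (.two (nat_lit 705691656) (nat_lit 218103873) (.two (nat_lit 1795162117) (nat_lit 9798943352) (.two (nat_lit 2097153) (nat_lit 158176644630) (.one (nat_lit 1056064) .nil)))),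
   .two (nat_lit 721420303) (nat_lit 3527409679) (.two (nat_lit 3527409672) (nat_lit 285212913) (.two (nat_lit 2889875461) (nat_lit 16777574) (.two (nat_lit 4194305) (nat_lit 16779363) (.two (nat_lit 4194304) (nat_lit 16781850) (.one (nat_lit 4200835) .nil))))),
   .two (nat_lit 272629775) (nat_lit 13195280399) (.two (nat_lit 8388616) (nat_lit 156367847560) (.two (nat_lit 4194308) (nat_lit 880804197) (.two (nat_lit 4194305) (nat_lit 47588574586) (.two (nat_lit 4194304) (nat_lit 746589792) (.one (nat_lit 8396097) .nil))))),
   .two (nat_lit 2349858840) (nat_lit 2350907436) (.two (nat_lit 156968681480) (nat_lit 166230753531) (.two (nat_lit 9934209029) (nat_lit 10939794764) (.two (nat_lit 2097152) (nat_lit 37246471592) (.one (nat_lit 37246475585) .nil)))),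
   .two (nat_lit 9768534031) (nat_lit 156532473991) (.two (nat_lit 285212677) (nat_lit 104858228) (.two (nat_lit 16777217) (nat_lit 21781022041) (.two (nat_lit 16777216) (nat_lit 1053212) (.one (nat_lit 16784707) .nil)))),
   .two (nat_lit 2902458383) (nat_lit 19532873969) (.two (nat_lit 9768534021) (nat_lit 2902458725) (.two (nat_lit 37748737) (nat_lit 21793604921) (.two (nat_lit 4194304) (nat_lit 83890523) (.one (nat_lit 16784643) .nil)))),
   .two (nat_lit 156367847439) (nat_lit 1191182360) (.two (nat_lit 754974728) (nat_lit 28793897079) (.two (nat_lit 11492392964) (nat_lit 10338960059) (.two (nat_lit 4194305) (nat_lit 184550698) (.two (nat_lit 1048576) (nat_lit 16780944) (.one (nat_lit 4201796) .nil))))),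
   .two (nat_lit 11559501839) (nat_lit 202375211) (.two (nat_lit 620757000) (nat_lit 183853121602) (.two (nat_lit 184549381) (nat_lit 1182794359) (.two (nat_lit 16777217) (nat_lit 2894071897) (.two (nat_lit 1048576) (nat_lit 813697550) (.one (nat_lit 8395143) .nil))))),
   .two (nat_lit 3525312527) (nat_lit 47550824493) (.two (nat_lit 10504634376) (nat_lit 158179786878) (.two (nat_lit 1916796933) (nat_lit 9867101490) (.two (nat_lit 4194304) (nat_lit 2101789) (.one (nat_lit 2104645) .nil)))),
   .two (nat_lit 176160783) (nat_lit 239075450) (.two (nat_lit 8388613) (nat_lit 19532874395) (.two (nat_lit 156372041729) (nat_lit 20740834642) (.two (nat_lit 4194304) (nat_lit 8394328) (.one (nat_lit 4200840) .nil)))),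
   .two (nat_lit 183848927247) (nat_lit 166196150339) (.two (nat_lit 13191086085) (nat_lit 158646403430) (.two (nat_lit 9765388289) (nat_lit 2990540850) (.two (nat_lit 1048576) (nat_lit 4198943) (.one (nat_lit 4201799) .nil)))),
   .two (nat_lit 16777231) (nat_lit 4598005879) (.two (nat_lit 16777220) (nat_lit 28089254249) (.two (nat_lit 16777217) (nat_lit 2420115525) (.two (nat_lit 16777216) (nat_lit 159219977721) (.one (nat_lit 4201800) .nil)))),
   .two (nat_lit 3527409679) (nat_lit 12114198551) (.two (nat_lit 612368392) (nat_lit 3021996283) (.two (nat_lit 2097157) (nat_lit 28760343183) (.two (nat_lit 2097153) (nat_lit 343934286) (.two (nat_lit 8388608) (nat_lit 2100882) (.one (nat_lit 2104649) .nil))))),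
   .two (nat_lit 11559501839) (nat_lit 1376780312) (.two (nat_lit 68157448) (nat_lit 11559501888) (.two (nat_lit 705691652) (nat_lit 156380431669) (.two (nat_lit 1048576) (nat_lit 1761610250) (.one (nat_lit 28793904390) .nil)))),
   .two (nat_lit 11492392975) (nat_lit 4601151552) (.two (nat_lit 4194308) (nat_lit 1325400423) (.two (nat_lit 4194305) (nat_lit 16779405) (.two (nat_lit 4194304) (nat_lit 352325245) (.one (nat_lit 47584384041) .nil)))),
   .two (nat_lit 272629775) (nat_lit 1291845647) (.two (nat_lit 272629768) (nat_lit 150995221) (.two (nat_lit 9948889093) (nat_lit 19130220902) (.two (nat_lit 9781116929) (nat_lit 156569175329) (.two (nat_lit 16777216) (nat_lit 4198035) (.one (nat_lit 4201802) .nil))))),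
   .two (nat_lit 713031695) (nat_lit 156968681496) (.two (nat_lit 21785214984) (nat_lit 101712531) (.two (nat_lit 16777217) (nat_lit 4631563741) (.one (nat_lit 1055117) .nil))),
   .two (nat_lit 2902458383) (nat_lit 157038936181) (.two (nat_lit 12117344261) (nat_lit 218104674) (.two (nat_lit 4194304) (nat_lit 620760995) .nil)),
   .two (nat_lit 11492392975) (nat_lit 157038936172) (.two (nat_lit 4194308) (nat_lit 18941478226) (.two (nat_lit 16777216) (nat_lit 4200028) (.one (nat_lit 16784715) .nil))),
   .two (nat_lit 4605345807) (nat_lit 1212153969) (.two (nat_lit 46409973764) (nat_lit 1317012809) (.two (nat_lit 4194304) (nat_lit 47588578345) .nil)),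
   .two (nat_lit 1795162127) (nat_lit 46978301967) (.two (nat_lit 9948889096) (nat_lit 4028629058) (.two (nat_lit 3525312517) (nat_lit 166245434035) (.two (nat_lit 9768534017) (nat_lit 1780485646) (.one (nat_lit 1210064026) .nil)))),
   .two (nat_lit 9866051599) (nat_lit 183853121551) (.two (nat_lit 1779433480) (nat_lit 10007609596) (.two (nat_lit 1276116996) (nat_lit 12054431772) (.two (nat_lit 1048576) (nat_lit 8393250) (.one (nat_lit 1056076) .nil)))),
   .two (nat_lit 2887778319) (nat_lit 11479810063) (.two (nat_lit 11479810056) (nat_lit 4598005880) (.two (nat_lit 809500677) (nat_lit 2097780) (.two (nat_lit 9768534017) (nat_lit 19128125968) (.one (nat_lit 2104653) .nil)))),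
   .two (nat_lit 721420303) (nat_lit 166129041432) (.two (nat_lit 28690087944) (nat_lit 11559501933) (.two (nat_lit 1913651205) (nat_lit 1358955817) (.two (nat_lit 1048576) (nat_lit 352325043) (.one (nat_lit 3557824768) .nil)))),
   .two (nat_lit 1277165583) (nat_lit 165532401704) (.two (nat_lit 8388616) (nat_lit 10336862344) (.two (nat_lit 47555018757) (nat_lit 19597886137) (.two (nat_lit 8388609) (nat_lit 13222545480) (.two (nat_lit 2097152) (nat_lit 8392342) (.one (nat_lit 2102474) .nil))))),
   .two (nat_lit 721420303) (nat_lit 9766436879) (.two (nat_lit 83886088) (nat_lit 19128123508) (.two (nat_lit 8388612) (nat_lit 28705816936) (.two (nat_lit 8388609) (nat_lit 840959298) (.two (nat_lit 8388608) (nat_lit 2102878) (.one (nat_lit 8396110) .nil))))),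
   .two (nat_lit 272629775) (nat_lit 184416206863) (.two (nat_lit 184416206856) (nat_lit 4634705986) (.two (nat_lit 13195280389) (nat_lit 2420114039) (.two (nat_lit 41943041) (nat_lit 19029560763) (.one (nat_lit 4200853) .nil)))),
   .two (nat_lit 1745879055) (nat_lit 21208498191) (.two (nat_lit 21208498184) (nat_lit 772800622) (.two (nat_lit 20637024260) (nat_lit 174686471464) (.two (nat_lit 1048576) (nat_lit 1914703422) (.one (nat_lit 2953843752) .nil)))),
   .two (nat_lit 272629775) (nat_lit 10336862223) (.two (nat_lit 205520904) (nat_lit 47548727360) (.two (nat_lit 2889875461) (nat_lit 157036839276) (.two (nat_lit 34603009) (nat_lit 19094571023) (.two (nat_lit 1048576) (nat_lit 1746931191) (.one (nat_lit 1055128) .nil))))),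
   .two (nat_lit 721420303) (nat_lit 772800537) (.two (nat_lit 705691656) (nat_lit 11559501938) (.two (nat_lit 705691652) (nat_lit 1358955145) (.two (nat_lit 34603009) (nat_lit 1761609027) (.two (nat_lit 1048576) (nat_lit 35655085) (.one (nat_lit 46474992807) .nil))))),
   .two (nat_lit 157036838927) (nat_lit 251658280) (.two (nat_lit 19529728008) (nat_lit 174686470281) (.two (nat_lit 171966469) (nat_lit 10452205929) (.two (nat_lit 4194305) (nat_lit 605031916) (.one (nat_lit 2104655) .nil)))),
   .two (nat_lit 165526110223) (nat_lit 9781116952) (.two (nat_lit 654311432) (nat_lit 11007950963) (.two (nat_lit 639631365) (nat_lit 11492394279) (.two (nat_lit 2097152) (nat_lit 1358958216) (.one (nat_lit 16783772) .nil)))),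
   .two (nat_lit 16777231) (nat_lit 28693233779) (.two (nat_lit 9768534021) (nat_lit 16778082) (.two (nat_lit 4194304) (nat_lit 158662135722) .nil)),
   .two (nat_lit 272629775) (nat_lit 754974735) (.two (nat_lit 754974728) (nat_lit 71304571) (.two (nat_lit 16777216) (nat_lit 4198040) (.one (nat_lit 4201809) .nil))),
   .two (nat_lit 117440527) (nat_lit 20704133236) (.two (nat_lit 158143086597) (nat_lit 2432698392) (.two (nat_lit 1048576) (nat_lit 9982448145) (.one (nat_lit 11543778399) .nil))),
   .two (nat_lit 4194319) (nat_lit 343933036) (.two (nat_lit 4194308) (nat_lit 46507491944) (.two (nat_lit 37748737) (nat_lit 11484007995) (.one (nat_lit 1056082) .nil))),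
   .two (nat_lit 1277165583) (nat_lit 28093448216) (.two (nat_lit 10343153672) (nat_lit 20738736240) (.two (nat_lit 9934209029) (nat_lit 8389320) (.two (nat_lit 9781116929) (nat_lit 11544824347) (.one (nat_lit 2103222) .nil)))),
   .two (nat_lit 11559501839) (nat_lit 12114198543) (.two (nat_lit 11543773192) (nat_lit 11559502019) (.two (nat_lit 605028353) (nat_lit 183962174780) (.two (nat_lit 1048576) (nat_lit 16781860) (.one (nat_lit 16784724) .nil)))),
   .two (nat_lit 822083599) (nat_lit 166132187202) (.two (nat_lit 10506731525) (nat_lit 117441115) (.two (nat_lit 16777217) (nat_lit 2956986437) (.two (nat_lit 16777216) (nat_lit 4198951) (.one (nat_lit 16784727) .nil)))),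
   .two (nat_lit 272629775) (nat_lit 156364701832) (.two (nat_lit 158143086597) (nat_lit 9934209219) (.two (nat_lit 9766436865) (nat_lit 28760343902) (.two (nat_lit 4194304) (nat_lit 20738739758) (.one (nat_lit 2104664) .nil)))),
   .two (nat_lit 1358954511) (nat_lit 2316304501) (.two (nat_lit 1913651205) (nat_lit 83886946) (.two (nat_lit 1048576) (nat_lit 620758557) (.one (nat_lit 16783778) .nil))),
   .two (nat_lit 2954887183) (nat_lit 10439622679) (.two (nat_lit 28693233672) (nat_lit 159251431534) (.two (nat_lit 2887778308) (nat_lit 183949591132) (.two (nat_lit 4194305) (nat_lit 35652987) (.two (nat_lit 2097152) (nat_lit 4200034) (.one (nat_lit 2103715) .nil))))),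
   .two (nat_lit 184549391) (nat_lit 166130089999) (.two (nat_lit 2969567240) (nat_lit 166130090050) (.two (nat_lit 10504634373) (nat_lit 16778974) (.two (nat_lit 9766436865) (nat_lit 285213986) (.two (nat_lit 2097152) (nat_lit 158192373193) (.one (nat_lit 9867104135) .nil))))),
   .two (nat_lit 117440527) (nat_lit 46508539928) (.two (nat_lit 3525312520) (nat_lit 1795162225) (.two (nat_lit 2887778308) (nat_lit 28705817960) (.two (nat_lit 2097152) (nat_lit 16781864) (.one (nat_lit 28772930583) .nil)))),
   .two (nat_lit 21207449615) (nat_lit 12062818440) (.two (nat_lit 11492392965) (nat_lit 9869198653) (.two (nat_lit 1048576) (nat_lit 4198953) (.one (nat_lit 2432700305) .nil))),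
   .two (nat_lit 101711887) (nat_lit 21223178285) (.two (nat_lit 12114198536) (nat_lit 3527409730) (.two (nat_lit 822083589) (nat_lit 11614029873) (.two (nat_lit 16777216) (nat_lit 4198041) (.one (nat_lit 4201819) .nil)))),
   .two (nat_lit 639631375) (nat_lit 10913579137) (.two (nat_lit 159224168453) (nat_lit 2317353594) (.two (nat_lit 612368385) (nat_lit 2887779660) (.two (nat_lit 2097152) (nat_lit 8394341) (.one (nat_lit 9867106464) .nil)))),
   .two (nat_lit 654311439) (nat_lit 1343226528) (.two (nat_lit 4194305) (nat_lit 183946447373) (.one (nat_lit 4201820) .nil)),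
   .two (nat_lit 41943055) (nat_lit 21777875059) (.two (nat_lit 1913651205) (nat_lit 9936306795) (.two (nat_lit 16777217) (nat_lit 11543776751) (.one (nat_lit 1055143) .nil))),
   .two (nat_lit 46414168079) (nat_lit 158144135283) (.two (nat_lit 4605345797) (nat_lit 2921333796) (.two (nat_lit 8388609) (nat_lit 46474989125) (.one (nat_lit 4034926440) .nil))),
   .two (nat_lit 272629775) (nat_lit 156372042085) (.two (nat_lit 4194305) (nat_lit 11551115326) (.two (nat_lit 4194304) (nat_lit 20644370559) .nil)),
   .two (nat_lit 9781116943) (nat_lit 158143086616) (.two (nat_lit 1276117000) (nat_lit 20753416312) (.two (nat_lit 10385096709) (nat_lit 1049683) (.two (nat_lit 4194305) (nat_lit 34608168) .nil))),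
   .two (nat_lit 165532401679) (nat_lit 46474985495) (.two (nat_lit 2954887176) (nat_lit 28093448302) (.two (nat_lit 169869316) (nat_lit 11517561382) (.one (nat_lit 8396125) .nil))),
   .two (nat_lit 46414168079) (nat_lit 10506731535) (.two (nat_lit 2889875464) (nat_lit 158150427266) (.two (nat_lit 4194305) (nat_lit 46984597949) (.one (nat_lit 8396126) .nil))),
   .two (nat_lit 1358954511) (nat_lit 11577327681) (.two (nat_lit 705691652) (nat_lit 83886437) (.two (nat_lit 34603009) (nat_lit 855639418) (.two (nat_lit 1048576) (nat_lit 20652756576) (.one (nat_lit 16783792) .nil)))),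
   .two (nat_lit 159224168463) (nat_lit 1309671466) (.two (nat_lit 641728520) (nat_lit 156465365058) (.two (nat_lit 10372513797) (nat_lit 705692282) (.two (nat_lit 612368385) (nat_lit 1745881121) (.two (nat_lit 4194304) (nat_lit 183953788413) (.one (nat_lit 4201823) .nil))))),
   .two (nat_lit 4605345815) (nat_lit 10385096841) (.two (nat_lit 1795162117) (nat_lit 156372043141) (.two (nat_lit 2097152) (nat_lit 10343156225) (.one (nat_lit 8395185) .nil))),
   .two (nat_lit 8388623) (nat_lit 13191086095) (.two (nat_lit 41943048) (nat_lit 272630449) (.two (nat_lit 8388609) (nat_lit 2418017581) (.two (nat_lit 2097152) (nat_lit 20640173481) (.one (nat_lit 2104672) .nil)))),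
   .two (nat_lit 176160783) (nat_lit 46508539930) (.two (nat_lit 176160776) (nat_lit 10336862344) (.two (nat_lit 8388613) (nat_lit 9867100807) (.two (nat_lit 2097153) (nat_lit 746589107) (.two (nat_lit 2097152) (nat_lit 746590753) (.one (nat_lit 185021241563) .nil))))),
   .two (nat_lit 10336862223) (nat_lit 166129041432) (.two (nat_lit 28690087944) (nat_lit 10907287665) (.two (nat_lit 166129041412) (nat_lit 9934211106) (.two (nat_lit 1048576) (nat_lit 159217881450) (.one (nat_lit 159217884212) .nil)))),
   .two (nat_lit 46980399119) (nat_lit 772800536) (.two (nat_lit 184416206856) (nat_lit 306185511) (.two (nat_lit 1048576) (nat_lit 9936309775) (.one (nat_lit 12617521517) .nil))),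
   .two (nat_lit 639631375) (nat_lit 10343153679) (.two (nat_lit 46978301960) (nat_lit 28093448307) (.two (nat_lit 46407876612) (nat_lit 184993972837) (.two (nat_lit 156365750273) (nat_lit 184423550508) (.one (nat_lit 8396129) .nil)))),
   .two (nat_lit 285212687) (nat_lit 156367847439) (.two (nat_lit 156367847432) (nat_lit 285212738) (.two (nat_lit 46409973764) (nat_lit 158091707010) (.two (nat_lit 4194305) (nat_lit 4647290172) (.two (nat_lit 4194304) (nat_lit 21223181978) (.one (nat_lit 16784738) .nil))))),
   .two (nat_lit 721420303) (nat_lit 10907287802) (.two (nat_lit 620756997) (nat_lit 10001318952) (.two (nat_lit 8388609) (nat_lit 9915339951) .nil)),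
   .two (nat_lit 285212687) (nat_lit 1277165593) (.two (nat_lit 159217877000) (nat_lit 310378747) (.two (nat_lit 176160773) (nat_lit 159266112119) (.two (nat_lit 8388609) (nat_lit 37329306998) (.two (nat_lit 8388608) (nat_lit 16781866) (.one (nat_lit 8396131) .nil))))),
   .two (nat_lit 9934209039) (nat_lit 721420405) (.two (nat_lit 9781116933) (nat_lit 12115249667) (.one (nat_lit 136318872) .nil)),
   .two (nat_lit 4601151503) (nat_lit 46523219992) (.two (nat_lit 654311432) (nat_lit 183949590658) (.two (nat_lit 4194308) (nat_lit 21793604672) (.two (nat_lit 37748737) (nat_lit 166196151618) (.two (nat_lit 1048576) (nat_lit 4198955) (.one (nat_lit 4201828) .nil))))),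
   .two (nat_lit 2889875471) (nat_lit 9881780264) (.two (nat_lit 47555018760) (nat_lit 156971827468) (.two (nat_lit 620756997) (nat_lit 28693234319) (.two (nat_lit 8388609) (nat_lit 10003416382) (.two (nat_lit 16777216) (nat_lit 12121541123) (.one (nat_lit 8395194) .nil))))),
   .two (nat_lit 721420303) (nat_lit 11479810090) (.two (nat_lit 183848927240) (nat_lit 37262196857) (.two (nat_lit 159224168453) (nat_lit 9869198662) (.two (nat_lit 8388608) (nat_lit 183861513870) (.one (nat_lit 16784741) .nil)))),
   .two (nat_lit 10336862223) (nat_lit 174752530447) (.two (nat_lit 174752530440) (nat_lit 4028629058) (.two (nat_lit 10939793413) (nat_lit 1176504389) (.two (nat_lit 1048576) (nat_lit 10437529957) (.one (nat_lit 21812483112) .nil)))),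
   .two (nat_lit 639631375) (nat_lit 1920991592) (.two (nat_lit 2097153) (nat_lit 1954549301) (.one (nat_lit 8395200) .nil)),
   .two (nat_lit 9934209039) (nat_lit 4605345807) (.two (nat_lit 606076936) (nat_lit 158083317884) (.two (nat_lit 4605345797) (nat_lit 166230753880) (.two (nat_lit 8388609) (nat_lit 10538190111) (.two (nat_lit 4194304) (nat_lit 243272206) (.one (nat_lit 2104678) .nil))))),
   .two (nat_lit 809500687) (nat_lit 41943161) (.two (nat_lit 8388613) (nat_lit 1379926708) (.two (nat_lit 8388609) (nat_lit 1846543686) (.two (nat_lit 8388608) (nat_lit 269487568) (.one (nat_lit 4201831) .nil)))),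
   .two (nat_lit 47548727311) (nat_lit 19532873838) (.two (nat_lit 3458203653) (nat_lit 46980399711) (.two (nat_lit 620756993) (nat_lit 11007952952) (.two (nat_lit 16777216) (nat_lit 136321315) .nil))),
   .two (nat_lit 21207449615) (nat_lit 174686470169) (.two (nat_lit 285212680) (nat_lit 20704133257) (.two (nat_lit 2902458373) (nat_lit 19127076903) (.two (nat_lit 2097152) (nat_lit 739248670) (.one (nat_lit 10921973859) .nil)))),
   .two (nat_lit 639631375) (nat_lit 158091707070) (.two (nat_lit 16777217) (nat_lit 11006903683) (.two (nat_lit 16777216) (nat_lit 165526113749) (.one (nat_lit 2103745) .nil))),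
   .two (nat_lit 2349858856) (nat_lit 183947493420) (.two (nat_lit 166230753293) (nat_lit 2349858931) (.two (nat_lit 10370416645) (nat_lit 12147754032) (.two (nat_lit 9766436865) (nat_lit 1745882539) (.one (nat_lit 2104680) .nil)))),
   .two (nat_lit 13191086095) (nat_lit 1417674889) (.two (nat_lit 10947133445) (nat_lit 21210597891) (.one (nat_lit 28793900952) .nil)),
   .two (nat_lit 9768534031) (nat_lit 11559501848) (.two (nat_lit 50331656) (nat_lit 1178600064) (.two (nat_lit 16777217) (nat_lit 4196497) (.two (nat_lit 8388608) (nat_lit 873467461) (.one (nat_lit 1056105) .nil)))),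
   .two (nat_lit 822083599) (nat_lit 1779433588) (.two (nat_lit 184549381) (nat_lit 1410335412) (.two (nat_lit 2097153) (nat_lit 1051575) (.two (nat_lit 16777216) (nat_lit 2101806) (.one (nat_lit 2104682) .nil)))),
   .two (nat_lit 2902458383) (nat_lit 174686470265) (.two (nat_lit 270532613) (nat_lit 10921968941) (.two (nat_lit 2097152) (nat_lit 184555807) .nil)),
   .two (nat_lit 10336862223) (nat_lit 1916796952) (.two (nat_lit 641728520) (nat_lit 1310720110) (.two (nat_lit 1277165573) (nat_lit 19130221210) (.two (nat_lit 2097153) (nat_lit 11513365797) (.two (nat_lit 8388608) (nat_lit 37247519245) (.one (nat_lit 2103751) .nil))))),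
   .two (nat_lit 11479810063) (nat_lit 10913579075) (.two (nat_lit 13191086085) (nat_lit 159224168643) (.two (nat_lit 37748737) (nat_lit 37253809466) (.two (nat_lit 4194304) (nat_lit 46481281467) (.one (nat_lit 8396140) .nil)))),
   .two (nat_lit 11492392975) (nat_lit 157038936079) (.two (nat_lit 156367847432) (nat_lit 174768259432) (.two (nat_lit 4194305) (nat_lit 18941478226) (.two (nat_lit 4194304) (nat_lit 16781704) (.one (nat_lit 16784749) .nil)))),
   .two (nat_lit 184549391) (nat_lit 183946444866) (.two (nat_lit 8388612) (nat_lit 156364702346) (.two (nat_lit 2097153) (nat_lit 336595895) (.two (nat_lit 16777216) (nat_lit 10538192383) (.one (nat_lit 16784750) .nil)))),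
   .two (nat_lit 285212687) (nat_lit 1277165684) (.two (nat_lit 2902458373) (nat_lit 3021996704) (.two (nat_lit 50331649) (nat_lit 11006904374) (.two (nat_lit 16777216) (nat_lit 1053231) (.one (nat_lit 1056111) .nil)))),
   .two (nat_lit 10385096719) (nat_lit 156968681607) (.two (nat_lit 721420292) (nat_lit 185020187292) (.two (nat_lit 34603009) (nat_lit 9781118237) (.two (nat_lit 1048576) (nat_lit 16781872) (.one (nat_lit 68161415) .nil)))),
   .two (nat_lit 166130089999) (nat_lit 159224168488) (.two (nat_lit 19530776584) (nat_lit 3028287727) (.two (nat_lit 159224168453) (nat_lit 11544822120) (.two (nat_lit 612368385) (nat_lit 37314626894) (.two (nat_lit 2097152) (nat_lit 310382205) (.one (nat_lit 8396144) .nil))))),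
   .two (nat_lit 713031695) (nat_lit 10907287667) (.two (nat_lit 721420293) (nat_lit 337642882) (.two (nat_lit 8388608) (nat_lit 1277169193) (.one (nat_lit 2103754) .nil))),
   .two (nat_lit 28758245391) (nat_lit 1279262858) (.two (nat_lit 1847590917) (nat_lit 10439624026) (.two (nat_lit 1048576) (nat_lit 46510640640) (.one (nat_lit 4201841) .nil))),
   .two (nat_lit 218103823) (nat_lit 46978301967) (.two (nat_lit 46407876616) (nat_lit 218103874) (.two (nat_lit 1795162117) (nat_lit 156465365350) (.two (nat_lit 2097153) (nat_lit 165540792392) (.two (nat_lit 1048576) (nat_lit 16782953) (.one (nat_lit 1056114) .nil))))),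
   .two (nat_lit 285212687) (nat_lit 21785215000) (.two (nat_lit 75497480) (nat_lit 18941477485) (.two (nat_lit 41943041) (nat_lit 16779410) (.two (nat_lit 1048576) (nat_lit 8394346) (.one (nat_lit 16784755) .nil)))),
   .two (nat_lit 285212687) (nat_lit 1212153973) (.two (nat_lit 10506731525) (nat_lit 50332514) (.two (nat_lit 4194304) (nat_lit 158158819218) .nil)),
   .two (nat_lit 9948889103) (nat_lit 47548727311) (.two (nat_lit 169869320) (nat_lit 2969567342) (.two (nat_lit 169869316) (nat_lit 788530502) (.two (nat_lit 2097152) (nat_lit 2432700024) (.one (nat_lit 1056116) .nil)))),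
   .two (nat_lit 272629775) (nat_lit 156364701721) (.two (nat_lit 9768534024) (nat_lit 10537140351) (.two (nat_lit 11479810052) (nat_lit 165525062283) (.two (nat_lit 34603009) (nat_lit 4634707231) (.two (nat_lit 1048576) (nat_lit 4200043) (.one (nat_lit 157035796834) .nil))))),
   .two (nat_lit 46980399119) (nat_lit 183946444823) (.two (nat_lit 46980399112) (nat_lit 37313577212) (.two (nat_lit 46409973764) (nat_lit 1050335) (.two (nat_lit 4194305) (nat_lit 1052857) (.two (nat_lit 4194304) (nat_lit 1053233) (.one (nat_lit 4201845) .nil))))),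
   .two (nat_lit 1358954511) (nat_lit 19093521034) (.two (nat_lit 9765388289) (nat_lit 1291846949) (.two (nat_lit 1048576) (nat_lit 2332037486) (.one (nat_lit 739251295) .nil))),
   .two (nat_lit 1847590953) (nat_lit 847249451) (.two (nat_lit 20644364296) (nat_lit 166230753395) (.two (nat_lit 2954887173) (nat_lit 276825427) (.two (nat_lit 2097152) (nat_lit 158150431825) .nil))),
   .two (nat_lit 169869327) (nat_lit 83886095) (.two (nat_lit 83886088) (nat_lit 705691756) (.two (nat_lit 620756997) (nat_lit 12618564227) (.two (nat_lit 50331649) (nat_lit 20738737487) (.two (nat_lit 16777216) (nat_lit 19094572664) (.one (nat_lit 1056118) .nil))))),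
   .two (nat_lit 11559501839) (nat_lit 12114198543) (.two (nat_lit 83886088) (nat_lit 1048833) (.two (nat_lit 9948889093) (nat_lit 156566028923) (.two (nat_lit 2097153) (nat_lit 8391608) (.two (nat_lit 1048576) (nat_lit 37262201355) (.one (nat_lit 8396151) .nil))))),
   .two (nat_lit 272629775) (nat_lit 157035790588) (.two (nat_lit 4194308) (nat_lit 21777877026) (.two (nat_lit 4194304) (nat_lit 11476668056) (.one (nat_lit 4200368) .nil))),
   .two (nat_lit 75497487) (nat_lit 46473937022) (.two (nat_lit 713031684) (nat_lit 1913652298) (.two (nat_lit 41943041) (nat_lit 1913653359) (.two (nat_lit 1048576) (nat_lit 19027462669) (.one (nat_lit 1056120) .nil)))),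
   .two (nat_lit 639631375) (nat_lit 11559501889) (.two (nat_lit 184549380) (nat_lit 13188989561) (.two (nat_lit 16777217) (nat_lit 156533526866) (.one (nat_lit 158177696136) .nil))),
   .two (nat_lit 9768534031) (nat_lit 2936012936) (.two (nat_lit 184549381) (nat_lit 46510638377) (.two (nat_lit 2097152) (nat_lit 3527412225) (.one (nat_lit 4201849) .nil))),
   .two (nat_lit 11479810063) (nat_lit 28757196815) (.two (nat_lit 12117344264) (nat_lit 28790751342) (.two (nat_lit 28690087941) (nat_lit 13224640707) (.two (nat_lit 50331649) (nat_lit 705694231) (.one (nat_lit 739252209) .nil)))),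
   .two (nat_lit 739246095) (nat_lit 218103832) (.two (nat_lit 2902458376) (nat_lit 739246146) (.two (nat_lit 285212677) (nat_lit 184416208206) (.two (nat_lit 16777216) (nat_lit 9866055112) (.one (nat_lit 1056122) .nil)))),
   .two (nat_lit 41943055) (nat_lit 135266417) (.two (nat_lit 1745879045) (nat_lit 37320918366) (.two (nat_lit 8388608) (nat_lit 156532476451) (.one (nat_lit 310384493) .nil))),
   .two (nat_lit 1779433487) (nat_lit 11584667714) (.two (nat_lit 1913651205) (nat_lit 41945148) (.two (nat_lit 1048576) (nat_lit 41946642) (.one (nat_lit 41950271) .nil))),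
   .two (nat_lit 285212687) (nat_lit 157038936181) (.two (nat_lit 12117344261) (nat_lit 11559504429) (.one (nat_lit 16781229) .nil)),
   .two (nat_lit 184549391) (nat_lit 605028469) (.two (nat_lit 11479810052) (nat_lit 9765388647) (.two (nat_lit 620756993) (nat_lit 1175455022) (.two (nat_lit 1048576) (nat_lit 21793607310) (.one (nat_lit 16783825) .nil)))),
   .two (nat_lit 809500687) (nat_lit 46406828076) (.two (nat_lit 11479810056) (nat_lit 158075977995) (.two (nat_lit 11546918917) (nat_lit 183912890981) (.two (nat_lit 9768534017) (nat_lit 2100153) (.two (nat_lit 2097152) (nat_lit 306190664) .nil)))),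
   .two (nat_lit 9781116943) (nat_lit 304087167) (.two (nat_lit 2902458372) (nat_lit 10940842342) (.two (nat_lit 8388609) (nat_lit 9799993435) (.two (nat_lit 16777216) (nat_lit 11014246023) (.one (nat_lit 8395840) .nil)))),
   .two (nat_lit 4601151503) (nat_lit 780140808) (.two (nat_lit 8388613) (nat_lit 306185059) (.two (nat_lit 8388608) (nat_lit 19029559838) (.one (nat_lit 4200914) .nil))),
   .two (nat_lit 50331663) (nat_lit 203423811) (.two (nat_lit 16777220) (nat_lit 3021997388) (.two (nat_lit 16777216) (nat_lit 874515964) (.one (nat_lit 2104699) .nil))),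
   .two (nat_lit 176160783) (nat_lit 183845781618) (.two (nat_lit 16777220) (nat_lit 11006902632) (.two (nat_lit 50331649) (nat_lit 10906240302) (.two (nat_lit 8388608) (nat_lit 1053235) (.one (nat_lit 8396156) .nil)))),
   .two (nat_lit 41943055) (nat_lit 183962173483) (.two (nat_lit 9948889096) (nat_lit 880803949) (.two (nat_lit 184549380) (nat_lit 3464497709) (.one (nat_lit 2961182631) .nil))),
   .two (nat_lit 4605345807) (nat_lit 11513364601) (.two (nat_lit 9933160453) (nat_lit 1786776073) (.one (nat_lit 9772732325) .nil)),
   .two (nat_lit 157036838927) (nat_lit 2961178650) (.two (nat_lit 46414168072) (nat_lit 159217877128) (.two (nat_lit 69206021) (nat_lit 9873391975) (.two (nat_lit 2097153) (nat_lit 12121541555) (.two (nat_lit 2097152) (nat_lit 12121543201) (.one (nat_lit 8396157) .nil))))),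
   .two (nat_lit 739246095) (nat_lit 13195280502) (.two (nat_lit 1291845636) (nat_lit 3457155431) (.two (nat_lit 620756993) (nat_lit 12047094157) (.one (nat_lit 1056126) .nil))),
   .two (nat_lit 46407876623) (nat_lit 3527409859) (.two (nat_lit 2097153) (nat_lit 303039332) (.two (nat_lit 2097152) (nat_lit 672140859) (.one (nat_lit 1056127) .nil))),
   .two (nat_lit 28690087951) (nat_lit 183928619031) (.two (nat_lit 754974728) (nat_lit 9899606141) (.two (nat_lit 28757196805) (nat_lit 1358955574) (.two (nat_lit 9765388289) (nat_lit 16780218) (.two (nat_lit 4194304) (nat_lit 2316306957) (.one (nat_lit 1055188) .nil))))),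
   .two (nat_lit 272629775) (nat_lit 285212697) (.two (nat_lit 11479810056) (nat_lit 159216828552) (.two (nat_lit 2902458372) (nat_lit 19130222110) (.one (nat_lit 101719110) .nil))),
   .two (nat_lit 158144135183) (nat_lit 4631560293) (.two (nat_lit 1913651213) (nat_lit 158144135234) (.two (nat_lit 83886085) (nat_lit 20745028452) (.two (nat_lit 16777216) (nat_lit 3525318961) .nil))),
   .two (nat_lit 2902458383) (nat_lit 46409973775) (.two (nat_lit 46409973768) (nat_lit 11492393318) (.two (nat_lit 4194305) (nat_lit 822084897) (.two (nat_lit 4194304) (nat_lit 37262201324) (.one (nat_lit 809506691) .nil)))),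
   .two (nat_lit 41943055) (nat_lit 20637024364) (.two (nat_lit 8388612) (nat_lit 12147753605) (.two (nat_lit 4194305) (nat_lit 13228836956) (.two (nat_lit 4194304) (nat_lit 184423549453) (.one (nat_lit 8395222) .nil)))),
   .two (nat_lit 2969567247) (nat_lit 34603033) (.two (nat_lit 184986632200) (nat_lit 8389476) (.two (nat_lit 8388608) (nat_lit 158143090235) (.one (nat_lit 16784769) .nil))),
   .two (nat_lit 46414168079) (nat_lit 10506731535) (.two (nat_lit 10506731528) (nat_lit 46414168130) (.two (nat_lit 2889875460) (nat_lit 28093448860) (.two (nat_lit 4194305) (nat_lit 19033755132) (.one (nat_lit 8396163) .nil)))),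
   .two (nat_lit 1343225871) (nat_lit 2936012825) (.two (nat_lit 16777224) (nat_lit 12147753027) (.two (nat_lit 16777220) (nat_lit 28790751590) (.two (nat_lit 16777217) (nat_lit 13221496954) (.two (nat_lit 16777216) (nat_lit 10000273842) (.one (nat_lit 1056132) .nil))))),
   .two (nat_lit 8388623) (nat_lit 3472884072) (.two (nat_lit 37748737) (nat_lit 2927627854) (.one (nat_lit 151000953) .nil)),
   .two (nat_lit 46414168079) (nat_lit 1782579452) (.two (nat_lit 4194308) (nat_lit 156372043294) (.one (nat_lit 612372373) .nil)),
   .two (nat_lit 1779433487) (nat_lit 19096666228) (.two (nat_lit 218103813) (nat_lit 2923432461) (.one (nat_lit 1054651) .nil)),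
   .two (nat_lit 272629775) (nat_lit 1310720121) (.two (nat_lit 183845781508) (nat_lit 12618564245) (.two (nat_lit 4194305) (nat_lit 2100155) (.two (nat_lit 4194304) (nat_lit 1054318) (.one (nat_lit 184989785356) .nil)))),
   .two (nat_lit 754974735) (nat_lit 10436477038) (.two (nat_lit 9933160453) (nat_lit 184549989) (.two (nat_lit 4194305) (nat_lit 1291850206) (.one (nat_lit 16783838) .nil))),
   .two (nat_lit 159224168463) (nat_lit 3021996166) (.two (nat_lit 639631365) (nat_lit 75498880) (.two (nat_lit 2097152) (nat_lit 28697433074) .nil)),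
   .two (nat_lit 218103823) (nat_lit 136315016) (.two (nat_lit 4194308) (nat_lit 9915336049) (.two (nat_lit 4194304) (nat_lit 16781877) (.one (nat_lit 2104709) .nil))),
   .two (nat_lit 50331663) (nat_lit 28093448307) (.two (nat_lit 184993972229) (nat_lit 687867199) (.two (nat_lit 1048576) (nat_lit 1358957075) (.one (nat_lit 1358959792) .nil))),
   .two (nat_lit 50331663) (nat_lit 156372041843) (.two (nat_lit 639631365) (nat_lit 184550696) (.two (nat_lit 2097152) (nat_lit 1325403710) (.one (nat_lit 8396166) .nil))),
   .two (nat_lit 1291845647) (nat_lit 1310720115) (.two (nat_lit 1277165573) (nat_lit 1291846498) (.two (nat_lit 2097152) (nat_lit 150998924) .nil)),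
   .two (nat_lit 47555018767) (nat_lit 13222543404) (.two (nat_lit 11484004365) (nat_lit 876609669) (.two (nat_lit 2954887173) (nat_lit 37253808762) (.two (nat_lit 2097153) (nat_lit 21214791789) (.two (nat_lit 2097152) (nat_lit 2956987890) (.one (nat_lit 11546926271) .nil))))),
   .two (nat_lit 166130089999) (nat_lit 174759870488) (.two (nat_lit 158083317768) (nat_lit 157036838979) (.two (nat_lit 10504634373) (nat_lit 8390368) (.two (nat_lit 612368385) (nat_lit 2099347) (.two (nat_lit 2097152) (nat_lit 8393270) (.one (nat_lit 807410806) .nil))))),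
   .two (nat_lit 285212687) (nat_lit 20644364303) (.two (nat_lit 50331656) (nat_lit 1317011522) (.two (nat_lit 159224168453) (nat_lit 218104421) (.two (nat_lit 2097153) (nat_lit 166237048378) (.one (nat_lit 157043136626) .nil)))),
   .two (nat_lit 184549391) (nat_lit 9934209039) (.two (nat_lit 2969567240) (nat_lit 2988442201) (.two (nat_lit 2097153) (nat_lit 20753417550) (.two (nat_lit 2097152) (nat_lit 16782959) (.one (nat_lit 28087163256) .nil)))),
   .two (nat_lit 41943055) (nat_lit 16777331) (.two (nat_lit 16777221) (nat_lit 11517559425) (.two (nat_lit 41943041) (nat_lit 10436480501) (.one (nat_lit 1056135) .nil))),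
   .two (nat_lit 19530776591) (nat_lit 28790751369) (.two (nat_lit 1913651205) (nat_lit 47596962888) (.two (nat_lit 9765388289) (nat_lit 159217879112) (.two (nat_lit 2097152) (nat_lit 1053058) (.one (nat_lit 1055822) .nil)))),
   .two (nat_lit 75497487) (nat_lit 654311439) (.two (nat_lit 1277165576) (nat_lit 12121538920) (.two (nat_lit 16777217) (nat_lit 47555020070) (.two (nat_lit 2097152) (nat_lit 2357201443) (.one (nat_lit 8396168) .nil)))),
   .two (nat_lit 8388623) (nat_lit 184986632258) (.two (nat_lit 8388612) (nat_lit 19093521088) (.two (nat_lit 8388609) (nat_lit 19529729374) (.two (nat_lit 8388608) (nat_lit 34606601) (.one (nat_lit 1056137) .nil)))),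
   .two (nat_lit 3527409679) (nat_lit 19530776714) (.two (nat_lit 203423749) (nat_lit 10372514480) (.two (nat_lit 2097153) (nat_lit 4196500) (.two (nat_lit 2097152) (nat_lit 4198968) (.one (nat_lit 4201866) .nil)))),
   .two (nat_lit 739246095) (nat_lit 2954887212) (.two (nat_lit 101711880) (nat_lit 639631496) (.two (nat_lit 11543773189) (nat_lit 1310721075) (.two (nat_lit 34603009) (nat_lit 2100156) (.two (nat_lit 4194304) (nat_lit 1053241) (.one (nat_lit 1056139) .nil))))),
   .two (nat_lit 654311439) (nat_lit 10370416683) (.two (nat_lit 654311432) (nat_lit 158144135440) (.two (nat_lit 46407876612) (nat_lit 9915336814) (.two (nat_lit 2097152) (nat_lit 9915340679) .nil))),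
   .two (nat_lit 37748751) (nat_lit 11006902297) (.two (nat_lit 13191086088) (nat_lit 1209008239) (.two (nat_lit 4194308) (nat_lit 12618564276) (.two (nat_lit 4194305) (nat_lit 46473937764) (.two (nat_lit 4194304) (nat_lit 1053242) (.one (nat_lit 10338964593) .nil))))),
   .two (nat_lit 4605345807) (nat_lit 159251431448) (.two (nat_lit 606076936) (nat_lit 4605345857) (.two (nat_lit 809500677) (nat_lit 1786774146) (.two (nat_lit 8388609) (nat_lit 1277167664) (.two (nat_lit 4194304) (nat_lit 11578379754) (.one (nat_lit 8396172) .nil))))),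
   .two (nat_lit 9866051599) (nat_lit 28693233679) (.two (nat_lit 166132187144) (nat_lit 10939793675) (.two (nat_lit 1913651205) (nat_lit 3460302176) (.two (nat_lit 1048576) (nat_lit 4198047) (.one (nat_lit 1054859) .nil)))),
   .two (nat_lit 11492392975) (nat_lit 13191086095) (.two (nat_lit 13191086088) (nat_lit 11492393025) (.two (nat_lit 4194308) (nat_lit 285215281) (.one (nat_lit 16784781) .nil))),
   .two (nat_lit 2889875471) (nat_lit 46514831400) (.two (nat_lit 47555018760) (nat_lit 156533522701) (.two (nat_lit 270532613) (nat_lit 3028288175) (.two (nat_lit 2097153) (nat_lit 37313579142) (.two (nat_lit 4194304) (nat_lit 37314630030) (.one (nat_lit 2103785) .nil))))),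
   .two (nat_lit 4605345807) (nat_lit 4613734423) (.two (nat_lit 16777224) (nat_lit 4605345857) (.two (nat_lit 8388612) (nat_lit 21223178599) (.two (nat_lit 41943041) (nat_lit 3036677454) (.two (nat_lit 4194304) (nat_lit 19545460152) (.one (nat_lit 16784782) .nil))))),
   .two (nat_lit 184416206863) (nat_lit 9881780264) (.two (nat_lit 184416206856) (nat_lit 10385096943) (.two (nat_lit 754974725) (nat_lit 2987393384) (.two (nat_lit 34603009) (nat_lit 13237227158) (.one (nat_lit 16784783) .nil)))),
   .two (nat_lit 11543773199) (nat_lit 9936306307) (.two (nat_lit 739246085) (nat_lit 10540286599) (.two (nat_lit 34603009) (nat_lit 4197311) (.two (nat_lit 1048576) (nat_lit 4200051) (.one (nat_lit 156968688851) .nil)))),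
   .two (nat_lit 1745879055) (nat_lit 10540285976) (.two (nat_lit 10506731528) (nat_lit 2416967789) (.two (nat_lit 166132187141) (nat_lit 2416968289) (.two (nat_lit 9768534017) (nat_lit 135267620) (.two (nat_lit 4194304) (nat_lit 1053244) (.one (nat_lit 11614032974) .nil))))),
   .two (nat_lit 3527409679) (nat_lit 11618222217) (.two (nat_lit 285212677) (nat_lit 1279264067) (.two (nat_lit 16777216) (nat_lit 166232853972) (.one (nat_lit 4201873) .nil))),
   .two (nat_lit 9948889103) (nat_lit 174686470260) (.two (nat_lit 47548727301) (nat_lit 654312743) (.two (nat_lit 2097152) (nat_lit 10385100258) (.one (nat_lit 687871999) .nil))),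
   .two (nat_lit 169869327) (nat_lit 159224168463) (.two (nat_lit 612368392) (nat_lit 873463921) (.two (nat_lit 713031685) (nat_lit 37313577584) (.two (nat_lit 8388609) (nat_lit 10907289696) (.two (nat_lit 8388608) (nat_lit 1053245) (.one (nat_lit 1055213) .nil))))),
   .two (nat_lit 41943055) (nat_lit 9781116943) (.two (nat_lit 9781116936) (nat_lit 713031796) (.two (nat_lit 2902458372) (nat_lit 276824713) (.two (nat_lit 37748737) (nat_lit 11577330183) (.one (nat_lit 269490103) .nil)))),
   .two (nat_lit 276824079) (nat_lit 11492392985) (.two (nat_lit 8388616) (nat_lit 183845781570) (.two (nat_lit 16777220) (nat_lit 185020187314) (.two (nat_lit 16777217) (nat_lit 11610884218) (.two (nat_lit 2097152) (nat_lit 16782964) (.one (nat_lit 2103790) .nil))))),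
   .two (nat_lit 8388623) (nat_lit 1962934297) (.two (nat_lit 10385096712) (nat_lit 8388672) (.two (nat_lit 654311429) (nat_lit 713033089) (.two (nat_lit 16777216) (nat_lit 20711476647) (.one (nat_lit 8396178) .nil)))),
   .two (nat_lit 9866051599) (nat_lit 1916796943) (.two (nat_lit 158143086600) (nat_lit 12117344370) (.two (nat_lit 28757196805) (nat_lit 19130221154) (.two (nat_lit 9765388289) (nat_lit 156971828564) (.two (nat_lit 1048576) (nat_lit 37752362) (.one (nat_lit 4201875) .nil))))),
   .two (nat_lit 639631375) (nat_lit 117440527) (.two (nat_lit 117440520) (nat_lit 10370416756) (.two (nat_lit 1795162117) (nat_lit 1344275822) (.two (nat_lit 1048576) (nat_lit 47548732385) .nil))),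
   .two (nat_lit 2969567247) (nat_lit 11477713016) (.two (nat_lit 184549380) (nat_lit 9873391976) (.two (nat_lit 2097153) (nat_lit 46992984592) (.one (nat_lit 8396180) .nil))),
   .two (nat_lit 1277165583) (nat_lit 159224168463) (.two (nat_lit 1277165576) (nat_lit 37253808247) (.two (nat_lit 9934209029) (nat_lit 9940501179) (.two (nat_lit 9765388289) (nat_lit 19537069381) (.two (nat_lit 1048576) (nat_lit 343939117) .nil)))),
   .two (nat_lit 12117344271) (nat_lit 28790751369) (.two (nat_lit 1913651205) (nat_lit 1916797794) (.two (nat_lit 1048576) (nat_lit 9936310156) .nil)),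
   .two (nat_lit 184993972239) (nat_lit 101711914) (.two (nat_lit 2961178632) (nat_lit 10940842094) (.two (nat_lit 1779433477) (nat_lit 184417256045) (.two (nat_lit 34603009) (nat_lit 2100160) (.two (nat_lit 16777216) (nat_lit 1053246) (.one (nat_lit 1056149) .nil))))),
   .two (nat_lit 50331663) (nat_lit 28093448329) (.two (nat_lit 3531603973) (nat_lit 1358955363) (.two (nat_lit 1048576) (nat_lit 1358956062) (.one (nat_lit 16782547) .nil))),
   .two (nat_lit 822083599) (nat_lit 21811429400) (.two (nat_lit 184986632200) (nat_lit 117440629) (.two (nat_lit 705691652) (nat_lit 1191182946) (.two (nat_lit 34603009) (nat_lit 9814673432) (.two (nat_lit 8388608) (nat_lit 12114203012) (.one (nat_lit 1056150) .nil))))),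
   .two (nat_lit 205520911) (nat_lit 183846830211) (.two (nat_lit 2887778308) (nat_lit 19026412187) (.two (nat_lit 34603009) (nat_lit 2990540895) (.two (nat_lit 2097152) (nat_lit 4200053) (.one (nat_lit 4200948) .nil)))),
   .two (nat_lit 2954887183) (nat_lit 1753219087) (.two (nat_lit 606076936) (nat_lit 159257722999) (.two (nat_lit 13195280389) (nat_lit 3560965445) (.two (nat_lit 4194304) (nat_lit 157043132941) (.one (nat_lit 8396183) .nil)))),
   .two (nat_lit 620757007) (nat_lit 47582281858) (.two (nat_lit 184549380) (nat_lit 12618564205) (.two (nat_lit 2097153) (nat_lit 184550697) (.two (nat_lit 8388608) (nat_lit 11578382371) .nil))),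
   .two (nat_lit 809500687) (nat_lit 11544821887) (.two (nat_lit 605028357) (nat_lit 46474986544) (.two (nat_lit 4194305) (nat_lit 20738739773) (.one (nat_lit 2104728) .nil))),
   .two (nat_lit 11492392975) (nat_lit 183848927247) (.two (nat_lit 183848927240) (nat_lit 47563407722) (.two (nat_lit 37748737) (nat_lit 156481096227) (.one (nat_lit 2104729) .nil))),
   .two (nat_lit 9934209039) (nat_lit 10506731535) (.two (nat_lit 47548727304) (nat_lit 156569174128) (.two (nat_lit 3458203653) (nat_lit 9802089152) (.two (nat_lit 2097153) (nat_lit 10372517385) (.one (nat_lit 37249619958) .nil)))),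
   .two (nat_lit 2889875471) (nat_lit 34603034) (.two (nat_lit 12047089672) (nat_lit 174688567416) (.two (nat_lit 2889875460) (nat_lit 3524265043) (.two (nat_lit 16777217) (nat_lit 1410336076) (.two (nat_lit 16777216) (nat_lit 2319453667) (.one (nat_lit 4201882) .nil))))),
   .two (nat_lit 272629775) (nat_lit 10351542319) (.two (nat_lit 2969567240) (nat_lit 272630117) (.two (nat_lit 16777217) (nat_lit 3557819714) (.two (nat_lit 16777216) (nat_lit 9969866909) .nil))),
   .two (nat_lit 166130089999) (nat_lit 12117344364) (.two (nat_lit 4194308) (nat_lit 606077289) (.two (nat_lit 4194305) (nat_lit 159251435122) (.one (nat_lit 2104731) .nil))),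
   .two (nat_lit 46510637080) (nat_lit 11543773209) (.two (nat_lit 12114198536) (nat_lit 19130220660) (.two (nat_lit 46980399109) (nat_lit 1050337) (.two (nat_lit 16777217) (nat_lit 156367851121) (.one (nat_lit 4200951) .nil)))),
   .two (nat_lit 11492392975) (nat_lit 11618222122) (.two (nat_lit 641728520) (nat_lit 158662132354) (.two (nat_lit 4194305) (nat_lit 157051523500) (.one (nat_lit 8396188) .nil))),
   .two (nat_lit 2961178639) (nat_lit 156367847491) (.two (nat_lit 176160772) (nat_lit 4601151683) (.two (nat_lit 37748737) (nat_lit 46406830230) (.two (nat_lit 1048576) (nat_lit 4198975) (.one (nat_lit 4201885) .nil)))),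
   .two (nat_lit 183848927247) (nat_lit 9781116953) (.two (nat_lit 1929379848) (nat_lit 11513364546) (.two (nat_lit 13191086085) (nat_lit 20652753553) (.two (nat_lit 37748737) (nat_lit 9948890449) (.two (nat_lit 8388608) (nat_lit 1929384425) (.one (nat_lit 4201886) .nil))))),
   .two (nat_lit 46414168079) (nat_lit 11544822391) (.two (nat_lit 8388609) (nat_lit 47582285370) (.one (nat_lit 2104735) .nil)),
   .two (nat_lit 16777231) (nat_lit 606077065) (.two (nat_lit 69206021) (nat_lit 19142804095) (.two (nat_lit 4194305) (nat_lit 28772926789) (.two (nat_lit 4194304) (nat_lit 156548206193) (.one (nat_lit 4201888) .nil)))),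
   .two (nat_lit 3525312527) (nat_lit 1916796943) (.two (nat_lit 1916796936) (nat_lit 3525312621) (.two (nat_lit 28693233669) (nat_lit 11477713517) (.two (nat_lit 9768534017) (nat_lit 11477715040) (.two (nat_lit 4194304) (nat_lit 2101825) (.one (nat_lit 2104737) .nil))))),
   .two (nat_lit 12050235407) (nat_lit 10519314456) (.two (nat_lit 654311432) (nat_lit 9900654700) (.two (nat_lit 2902458372) (nat_lit 183916036746) (.two (nat_lit 16777217) (nat_lit 4197313) (.two (nat_lit 2097152) (nat_lit 4200054) (.one (nat_lit 4201890) .nil))))),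
   .two (nat_lit 9781116943) (nat_lit 46409973775) (.two (nat_lit 46409973768) (nat_lit 9948889758) (.two (nat_lit 605028353) (nat_lit 16779415) (.two (nat_lit 1048576) (nat_lit 1312822829) (.one (nat_lit 166229712254) .nil)))),
   .two (nat_lit 156971827240) (nat_lit 1954545708) (.two (nat_lit 880803853) (nat_lit 156971827315) (.two (nat_lit 12117344261) (nat_lit 1417675367) (.two (nat_lit 37748737) (nat_lit 156573373479) .nil))),
   .two (nat_lit 11551113231) (nat_lit 1913651215) (.two (nat_lit 41943048) (nat_lit 10000269427) (.two (nat_lit 11479810053) (nat_lit 235929961) (.two (nat_lit 4194305) (nat_lit 12147754316) (.two (nat_lit 2097152) (nat_lit 8394359) (.one (nat_lit 183920237038) .nil))))),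
   .two (nat_lit 3464495119) (nat_lit 1916796943) (.two (nat_lit 1178599432) (nat_lit 11517558904) (.two (nat_lit 11479810052) (nat_lit 12155095124) (.two (nat_lit 4194304) (nat_lit 276826639) (.one (nat_lit 8396195) .nil)))),
   .two (nat_lit 174753579023) (nat_lit 158150426669) (.two (nat_lit 169869320) (nat_lit 880804507) (.two (nat_lit 34603009) (nat_lit 8392305) (.one (nat_lit 10376714169) .nil))),
   .two (nat_lit 4194319) (nat_lit 174759871098) (.two (nat_lit 37748737) (nat_lit 9906946916) (.two (nat_lit 1048576) (nat_lit 8393282) (.one (nat_lit 8396196) .nil))),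
   .two (nat_lit 2954887183) (nat_lit 184993972288) (.two (nat_lit 2097157) (nat_lit 184993972419) (.two (nat_lit 34603009) (nat_lit 874513252) (.two (nat_lit 1048576) (nat_lit 2100897) (.one (nat_lit 8396197) .nil)))),
   .two (nat_lit 721420303) (nat_lit 2994733307) (.two (nat_lit 8388613) (nat_lit 183928621583) (.one (nat_lit 16783866) .nil)),
   .two (nat_lit 822083599) (nat_lit 1779433539) (.two (nat_lit 11492392965) (nat_lit 166229706845) (.two (nat_lit 16777216) (nat_lit 165525066152) (.one (nat_lit 1055227) .nil))),
   .two (nat_lit 169869335) (nat_lit 47596961815) (.two (nat_lit 4194312) (nat_lit 1962934393) (.two (nat_lit 184549381) (nat_lit 156968681832) (.two (nat_lit 16777217) (nat_lit 20737689722) (.two (nat_lit 16777216) (nat_lit 1053251) (.one (nat_lit 9933167086) .nil))))),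
   .two (nat_lit 620757007) (nat_lit 9974054956) (.two (nat_lit 83886088) (nat_lit 21785215226) (.two (nat_lit 4605345797) (nat_lit 150995565) (.two (nat_lit 8388609) (nat_lit 150997088) (.two (nat_lit 4194304) (nat_lit 1054328) (.one (nat_lit 1055831) .nil))))),
   .two (nat_lit 3527409679) (nat_lit 11618222217) (.two (nat_lit 13195280389) (nat_lit 166132188456) (.two (nat_lit 16777216) (nat_lit 41948292) .nil)),
   .two (nat_lit 272629775) (nat_lit 1847590977) (.two (nat_lit 18926796805) (nat_lit 156569174374) (.two (nat_lit 4194305) (nat_lit 11511268673) (.two (nat_lit 4194304) (nat_lit 673189367) (.one (nat_lit 2104742) .nil)))),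
   .two (nat_lit 16777231) (nat_lit 10506731544) (.two (nat_lit 50331656) (nat_lit 184419353242) (.two (nat_lit 4194305) (nat_lit 46474986862) (.two (nat_lit 16777216) (nat_lit 3460305368) (.one (nat_lit 16784807) .nil)))),
   .two (nat_lit 184419352591) (nat_lit 9899606040) (.two (nat_lit 47563407368) (nat_lit 183949590643) (.two (nat_lit 184549380) (nat_lit 10372514449) (.two (nat_lit 16777217) (nat_lit 272632358) (.one (nat_lit 3539998936) .nil)))),
   .two (nat_lit 1291845647) (nat_lit 19027460204) (.two (nat_lit 9948889093) (nat_lit 158647452287) (.two (nat_lit 9766436865) (nat_lit 2902460533) (.two (nat_lit 16777216) (nat_lit 2101648) (.one (nat_lit 2103806) .nil)))),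
   .two (nat_lit 8388623) (nat_lit 272629881) (.two (nat_lit 176160772) (nat_lit 46978302657) (.two (nat_lit 156365750273) (nat_lit 37320919116) (.two (nat_lit 4194304) (nat_lit 8392354) (.one (nat_lit 4200959) .nil)))),
   .two (nat_lit 272629775) (nat_lit 855638135) (.two (nat_lit 4194308) (nat_lit 2969568310) (.two (nat_lit 620756993) (nat_lit 13224641823) (.two (nat_lit 16777216) (nat_lit 156971831735) (.one (nat_lit 46992987105) .nil)))),
   .two (nat_lit 157036838927) (nat_lit 19599982707) (.two (nat_lit 1916796933) (nat_lit 673186658) (.two (nat_lit 4194304) (nat_lit 12148805514) .nil)),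
   .two (nat_lit 2969567247) (nat_lit 11543773199) (.two (nat_lit 16777224) (nat_lit 158176641091) (.two (nat_lit 50331653) (nat_lit 1048936) (.two (nat_lit 50331649) (nat_lit 183912894080) (.one (nat_lit 1056170) .nil)))),
   .two (nat_lit 183853121551) (nat_lit 83886195) (.two (nat_lit 13195280389) (nat_lit 11593057320) (.two (nat_lit 605028353) (nat_lit 19100865498) .nil)),
   .two (nat_lit 809500687) (nat_lit 183846830123) (.two (nat_lit 37748744) (nat_lit 28790751484) (.two (nat_lit 708837381) (nat_lit 47547680471) (.two (nat_lit 4194305) (nat_lit 10940843348) (.two (nat_lit 4194304) (nat_lit 2101830) (.one (nat_lit 4199636) .nil))))),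
   .two (nat_lit 13195280399) (nat_lit 10335813678) (.two (nat_lit 705691656) (nat_lit 46414168131) (.two (nat_lit 705691652) (nat_lit 158183981416) (.two (nat_lit 156365750273) (nat_lit 46514834361) (.two (nat_lit 2097152) (nat_lit 8394361) (.one (nat_lit 1277173160) .nil))))),
   .two (nat_lit 742391823) (nat_lit 46414168087) (.two (nat_lit 9940500488) (nat_lit 46474985596) (.two (nat_lit 176160773) (nat_lit 183846830704) (.two (nat_lit 8388609) (nat_lit 2887779683) (.two (nat_lit 4194304) (nat_lit 20705185442) (.one (nat_lit 4201899) .nil))))),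
   .two (nat_lit 285212687) (nat_lit 20644364303) (.two (nat_lit 50331656) (nat_lit 1317011522) (.two (nat_lit 159224168453) (nat_lit 218104421) (.two (nat_lit 612368385) (nat_lit 218105125) (.two (nat_lit 8388608) (nat_lit 16781895) (.one (nat_lit 1350571861) .nil))))),
   .two (nat_lit 343932968) (nat_lit 2097201) (.two (nat_lit 343932941) (nat_lit 11611930897) (.two (nat_lit 8388613) (nat_lit 1914701192) (.two (nat_lit 2097152) (nat_lit 8393288) (.one (nat_lit 46474991570) .nil)))),
   .two (nat_lit 218103823) (nat_lit 19599982607) (.two (nat_lit 183848927240) (nat_lit 3573547074) (.two (nat_lit 2902458372) (nat_lit 166132187739) (.two (nat_lit 37748737) (nat_lit 218108368) (.one (nat_lit 16784812) .nil)))),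
   .two (nat_lit 612368399) (nat_lit 46474985496) (.two (nat_lit 612368392) (nat_lit 3558867061) (.two (nat_lit 176160772) (nat_lit 1377829521) (.two (nat_lit 50331649) (nat_lit 203427488) (.one (nat_lit 159224174727) .nil)))),
   .two (nat_lit 46984593423) (nat_lit 183947493502) (.two (nat_lit 12121538565) (nat_lit 28757197490) (.two (nat_lit 9765388289) (nat_lit 156567079822) (.two (nat_lit 1048576) (nat_lit 840961605) (.one (nat_lit 2104410) .nil)))),
   .two (nat_lit 11551113231) (nat_lit 158143086616) (.two (nat_lit 612368392) (nat_lit 873463923) (.two (nat_lit 605028357) (nat_lit 11484004988) (.two (nat_lit 34603009) (nat_lit 47550825774) (.two (nat_lit 1048576) (nat_lit 4200058) (.one (nat_lit 20711479790) .nil))))),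
   .two (nat_lit 285212687) (nat_lit 339738647) (.two (nat_lit 4601151496) (nat_lit 158091707010) (.two (nat_lit 4194305) (nat_lit 4043313615) (.one (nat_lit 16784813) .nil))),
   .two (nat_lit 10343153679) (nat_lit 183845781528) (.two (nat_lit 739246088) (nat_lit 2927624312) (.two (nat_lit 11543773189) (nat_lit 184423547567) (.two (nat_lit 41943041) (nat_lit 20737690540) (.two (nat_lit 8388608) (nat_lit 1054331) (.one (nat_lit 156976027632) .nil))))),
   .two (nat_lit 28693233679) (nat_lit 28790751369) (.two (nat_lit 1913651205) (nat_lit 158146234907) (.one (nat_lit 4201563) .nil)),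
   .two (nat_lit 276824079) (nat_lit 1312817434) (.two (nat_lit 8388612) (nat_lit 185020187310) (.two (nat_lit 41943041) (nat_lit 608176552) (.two (nat_lit 2097152) (nat_lit 742395460) (.one (nat_lit 2104756) .nil)))),
   .two (nat_lit 37748751) (nat_lit 10503585832) (.two (nat_lit 37748744) (nat_lit 18933088392) (.two (nat_lit 8388612) (nat_lit 806357175) (.two (nat_lit 8388608) (nat_lit 157036842664) (.one (nat_lit 2104757) .nil)))),
   .two (nat_lit 50331663) (nat_lit 1417674865) (.two (nat_lit 16777220) (nat_lit 158653744474) (.two (nat_lit 1048576) (nat_lit 9940506672) .nil)),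
   .two (nat_lit 639631375) (nat_lit 9881780832) (.two (nat_lit 16777217) (nat_lit 12048139602) (.two (nat_lit 2097152) (nat_lit 16783155) (.one (nat_lit 2104758) .nil))),
   .two (nat_lit 13195280399) (nat_lit 11513364590) (.two (nat_lit 8388612) (nat_lit 2923430563) (.two (nat_lit 8388609) (nat_lit 46474989124) (.one (nat_lit 4201911) .nil))),
   .two (nat_lit 10506731535) (nat_lit 236978460) (.two (nat_lit 166130089989) (nat_lit 47584380272) (.two (nat_lit 1048576) (nat_lit 4197817) (.one (nat_lit 4201912) .nil))),
   .two (nat_lit 183848927247) (nat_lit 11517558904) (.two (nat_lit 46414168069) (nat_lit 166232851830) (.two (nat_lit 8388608) (nat_lit 19130224186) (.one (nat_lit 4201913) .nil))),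
   .two (nat_lit 12047089679) (nat_lit 612368686) (.two (nat_lit 11543773189) (nat_lit 20753416883) (.two (nat_lit 8388609) (nat_lit 739249690) (.one (nat_lit 8396218) .nil))),
   .two (nat_lit 169869327) (nat_lit 21785215091) (.two (nat_lit 2097157) (nat_lit 10510926890) (.two (nat_lit 2097153) (nat_lit 185027530469) (.one (nat_lit 8396219) .nil))),
   .two (nat_lit 46409973775) (nat_lit 203423787) (.two (nat_lit 157038936072) (nat_lit 10907287662) (.two (nat_lit 19530776581) (nat_lit 9802088643) (.two (nat_lit 156372041729) (nat_lit 4028632557) (.one (nat_lit 2104764) .nil)))),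
   .two (nat_lit 4601151503) (nat_lit 165532401731) (.two (nat_lit 46414168068) (nat_lit 10003416411) (.two (nat_lit 8388608) (nat_lit 2923434493) (.one (nat_lit 4201917) .nil))),
   .two (nat_lit 3525312527) (nat_lit 775946264) (.two (nat_lit 184419352584) (nat_lit 3525312576) (.two (nat_lit 12117344261) (nat_lit 11007951043) (.two (nat_lit 37748737) (nat_lit 158077027634) (.two (nat_lit 4194304) (nat_lit 156969733684) (.one (nat_lit 2104766) .nil))))),
   .two (nat_lit 16777231) (nat_lit 11618222201) (.two (nat_lit 176160772) (nat_lit 157051520321) (.two (nat_lit 1048576) (nat_lit 1392513462) (.one (nat_lit 839915404) .nil))),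
   .two (nat_lit 156367847439) (nat_lit 11618222130) (.two (nat_lit 3460300808) (nat_lit 19100860698) (.two (nat_lit 159224168453) (nat_lit 166199297411) (.two (nat_lit 8388608) (nat_lit 1053087) (.one (nat_lit 183912897854) .nil)))),
   .two (nat_lit 11559501839) (nat_lit 1376780355) (.two (nat_lit 721420292) (nat_lit 12047091627) (.two (nat_lit 50331649) (nat_lit 13221498038) (.two (nat_lit 1048576) (nat_lit 855644242) .nil))),
   .two (nat_lit 11479810063) (nat_lit 10336862223) (.two (nat_lit 1178599432) (nat_lit 156969730751) (.two (nat_lit 2097153) (nat_lit 10338960723) (.two (nat_lit 2097152) (nat_lit 1312820707) (.one (nat_lit 4201919) .nil)))),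
   .two (nat_lit 4605345807) (nat_lit 28705816712) (.two (nat_lit 8388612) (nat_lit 9915335313) (.two (nat_lit 50331649) (nat_lit 11584670238) (.one (nat_lit 8396224) .nil))),
   .two (nat_lit 4605345807) (nat_lit 47548727311) (.two (nat_lit 4605345800) (nat_lit 304087172) (.two (nat_lit 46414168069) (nat_lit 1277166288) (.two (nat_lit 8388609) (nat_lit 46508541274) (.two (nat_lit 4194304) (nat_lit 9867103673) (.one (nat_lit 37314632856) .nil))))),
   .two (nat_lit 1350565903) (nat_lit 157036838927) (.two (nat_lit 612368392) (nat_lit 11007950985) (.two (nat_lit 176160773) (nat_lit 1948254865) (.two (nat_lit 2097153) (nat_lit 1753221302) (.two (nat_lit 4194304) (nat_lit 304090734) (.one (nat_lit 4201921) .nil))))),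
   .two (nat_lit 183848927247) (nat_lit 19530776600) (.two (nat_lit 156969730056) (nat_lit 9802088515) (.two (nat_lit 9934209029) (nat_lit 156548203198) (.two (nat_lit 37748737) (nat_lit 754977035) (.two (nat_lit 2097152) (nat_lit 822088351) (.one (nat_lit 16783889) .nil))))),
   .two (nat_lit 169869327) (nat_lit 3464495218) (.two (nat_lit 169869316) (nat_lit 20644364963) (.two (nat_lit 8388609) (nat_lit 1779435705) (.two (nat_lit 2097152) (nat_lit 1276120620) (.one (nat_lit 8396226) .nil)))),
   .two (nat_lit 9881780239) (nat_lit 28757196842) (.two (nat_lit 4194312) (nat_lit 318768467) (.two (nat_lit 1048576) (nat_lit 809504304) (.one (nat_lit 4201923) .nil))),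
   .two (nat_lit 272629775) (nat_lit 1786773635) (.two (nat_lit 4194308) (nat_lit 185027527303) (.two (nat_lit 8388609) (nat_lit 2420117179) (.one (nat_lit 4201924) .nil))),
   .two (nat_lit 4601151503) (nat_lit 2988441625) (.two (nat_lit 46407876616) (nat_lit 46980399219) (.two (nat_lit 28693233669) (nat_lit 156566028648) (.two (nat_lit 37748737) (nat_lit 183946447023) (.two (nat_lit 2097152) (nat_lit 185020190197) (.one (nat_lit 1056197) .nil))))),
   .two (nat_lit 16777231) (nat_lit 1916797043) (.two (nat_lit 16777220) (nat_lit 159253530654) (.two (nat_lit 16777216) (nat_lit 775950053) (.one (nat_lit 4200978) .nil))),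
   .two (nat_lit 9768534031) (nat_lit 1795162249) (.two (nat_lit 11492392965) (nat_lit 11614028644) (.two (nat_lit 16777216) (nat_lit 47550827022) (.one (nat_lit 4201926) .nil))),
   .two (nat_lit 272629775) (nat_lit 174686470211) (.two (nat_lit 2889875461) (nat_lit 156533522790) (.two (nat_lit 4194305) (nat_lit 156533523750) (.two (nat_lit 4194304) (nat_lit 2103092) (.one (nat_lit 2103827) .nil)))),
   .two (nat_lit 721420303) (nat_lit 19029557383) (.two (nat_lit 272629765) (nat_lit 16777574) (.two (nat_lit 9768534017) (nat_lit 158662133947) (.two (nat_lit 16777216) (nat_lit 10003421691) .nil))),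
   .two (nat_lit 37748751) (nat_lit 1291845746) (.two (nat_lit 169869316) (nat_lit 2969567884) (.two (nat_lit 2097153) (nat_lit 185023334925) (.one (nat_lit 19532880015) .nil))),
   .two (nat_lit 41943055) (nat_lit 11476664439) (.two (nat_lit 638582789) (nat_lit 3021997158) (.two (nat_lit 606076929) (nat_lit 159250386000) (.two (nat_lit 2097152) (nat_lit 1052229) (.one (nat_lit 2104775) .nil)))),
   .two (nat_lit 13191086095) (nat_lit 158176641126) (.two (nat_lit 13191086088) (nat_lit 772801046) (.two (nat_lit 183848927237) (nat_lit 19529729964) (.two (nat_lit 2097153) (nat_lit 1376782520) (.two (nat_lit 2097152) (nat_lit 13221500980) .nil)))),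
   .two (nat_lit 2889875471) (nat_lit 156365750394) (.two (nat_lit 2887778308) (nat_lit 11614029893) (.two (nat_lit 2097152) (nat_lit 205524469) (.one (nat_lit 639639320) .nil))),
   .two (nat_lit 218103823) (nat_lit 19530777230) (.two (nat_lit 4194305) (nat_lit 1277167670) (.two (nat_lit 4194304) (nat_lit 1277169178) (.one (nat_lit 4201928) .nil))),
   .two (nat_lit 50331663) (nat_lit 158083317825) (.two (nat_lit 16777220) (nat_lit 3028288206) (.two (nat_lit 8388609) (nat_lit 10955523410) (.two (nat_lit 8388608) (nat_lit 19612570500) (.one (nat_lit 8396233) .nil)))),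
   .two (nat_lit 13191086095) (nat_lit 1847590927) (.two (nat_lit 809500680) (nat_lit 3525313858) (.two (nat_lit 8388608) (nat_lit 1746930192) (.one (nat_lit 2104778) .nil))),
   .two (nat_lit 16777231) (nat_lit 28089254405) (.two (nat_lit 16777220) (nat_lit 641730655) (.two (nat_lit 8388608) (nat_lit 159266117714) .nil)),
   .two (nat_lit 1350565903) (nat_lit 28690088074) (.two (nat_lit 4194308) (nat_lit 269484762) (.two (nat_lit 41943041) (nat_lit 71304589) (.two (nat_lit 8388608) (nat_lit 4199322) (.one (nat_lit 4201931) .nil)))),
   .two (nat_lit 47548727311) (nat_lit 21207449615) (.two (nat_lit 21207449608) (nat_lit 236978313) (.two (nat_lit 1176502277) (nat_lit 2316305251) (.two (nat_lit 2097152) (nat_lit 2316305950) (.one (nat_lit 1056204) .nil)))),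
   .two (nat_lit 158143086607) (nat_lit 1310720025) (.two (nat_lit 606076936) (nat_lit 20704133186) (.two (nat_lit 169869316) (nat_lit 1049218) (.two (nat_lit 2097153) (nat_lit 11543776705) (.one (nat_lit 20740839523) .nil)))),
   .two (nat_lit 28806479896) (nat_lit 47547678764) (.two (nat_lit 1343225864) (nat_lit 2961179739) (.two (nat_lit 34603009) (nat_lit 4034922554) (.two (nat_lit 8388608) (nat_lit 21793607128) (.one (nat_lit 16784845) .nil)))),
   .two (nat_lit 343932951) (nat_lit 1916796952) (.two (nat_lit 1178599432) (nat_lit 13221495056) (.two (nat_lit 9768534021) (nat_lit 1753219733) (.two (nat_lit 16777217) (nat_lit 10510927154) (.two (nat_lit 1048576) (nat_lit 272631330) (.one (nat_lit 8396238) .nil))))),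
   .two (nat_lit 2887778319) (nat_lit 1916796968) (.two (nat_lit 9802088460) (nat_lit 739246194) (.two (nat_lit 270532613) (nat_lit 171966833) (.two (nat_lit 13187940357) (nat_lit 10909385169) (.two (nat_lit 2097153) (nat_lit 876610978) (.two (nat_lit 4194304) (nat_lit 174686471134) (.one (nat_lit 4201936) .nil)))))),
   .two (nat_lit 171966475) (nat_lit 11618222105) (.two (nat_lit 21214789640) (nat_lit 2098030) (.two (nat_lit 37748744) (nat_lit 2894069778) (.two (nat_lit 2889875458) (nat_lit 8389882) (.two (nat_lit 4194308) (nat_lit 1914699874) (.two (nat_lit 9768534017) (nat_lit 8392078) (.two (nat_lit 4194304) (nat_lit 8393646) (.one (nat_lit 4201937) .nil))))))),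
   .two (nat_lit 37748751) (nat_lit 13195280399) (.two (nat_lit 37748744) (nat_lit 4605345902) (.two (nat_lit 4194308) (nat_lit 9772728941) (.two (nat_lit 37748737) (nat_lit 165526113423) (.two (nat_lit 4194304) (nat_lit 2101050) (.one (nat_lit 8394002) .nil))))),
   .two (nat_lit 156567076888) (nat_lit 2889875500) (.two (nat_lit 203423752) (nat_lit 1916797179) (.two (nat_lit 169869316) (nat_lit 2927624398) (.two (nat_lit 166132187139) (nat_lit 13228835568) (.two (nat_lit 2097153) (nat_lit 13191090123) (.two (nat_lit 4194304) (nat_lit 8393648) (.one (nat_lit 2102549) .nil)))))),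
   .two (nat_lit 2887778319) (nat_lit 1379926045) (.two (nat_lit 2887778312) (nat_lit 9869197585) (.two (nat_lit 10506731525) (nat_lit 1377828903) (.two (nat_lit 10506731525) (nat_lit 47582281932) (.two (nat_lit 620756993) (nat_lit 4027581766) (.two (nat_lit 1048576) (nat_lit 4199345) (.one (nat_lit 1056210) .nil)))))),
   .two (nat_lit 754974735) (nat_lit 10506731535) (.two (nat_lit 2889875464) (nat_lit 1795162179) (.two (nat_lit 272629765) (nat_lit 788529820) (.two (nat_lit 2097153) (nat_lit 16780667) (.two (nat_lit 4194304) (nat_lit 16782258) (.one (nat_lit 16784851) .nil))))),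
   .two (nat_lit 9934209039) (nat_lit 654311439) (.two (nat_lit 9934209032) (nat_lit 2936012919) (.two (nat_lit 2887778306) (nat_lit 239076388) (.two (nat_lit 169869316) (nat_lit 156380431777) (.two (nat_lit 2097153) (nat_lit 3527413317) (.two (nat_lit 2097152) (nat_lit 3527413317) (.one (nat_lit 4201022) .nil)))))),
   .two (nat_lit 156372041743) (nat_lit 47548727324) (.two (nat_lit 20638072845) (nat_lit 3464495170) (.two (nat_lit 69206021) (nat_lit 880804544) (.two (nat_lit 2097153) (nat_lit 4638900447) (.two (nat_lit 4194304) (nat_lit 8390233) (.one (nat_lit 8394028) .nil))))),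
   .two (nat_lit 9933160459) (nat_lit 11611930726) (.two (nat_lit 11626610701) (nat_lit 101711907) (.two (nat_lit 11476664328) (nat_lit 1426063381) (.two (nat_lit 16777218) (nat_lit 1048952) (.two (nat_lit 721420293) (nat_lit 10369368159) (.two (nat_lit 16777217) (nat_lit 1050028) (.two (nat_lit 16777216) (nat_lit 1052487) (.one (nat_lit 2104788) .nil))))))),
   .two (nat_lit 9934209039) (nat_lit 780140595) (.two (nat_lit 606076936) (nat_lit 1417674867) (.two (nat_lit 8388613) (nat_lit 156533523188) (.two (nat_lit 8388609) (nat_lit 37249614700) (.two (nat_lit 4194304) (nat_lit 2102199) (.one (nat_lit 4201941) .nil))))),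
   .two (nat_lit 157038936079) (nat_lit 159250382896) (.two (nat_lit 171966470) (nat_lit 9899606137) (.two (nat_lit 169869320) (nat_lit 156535619621) (.two (nat_lit 4194306) (nat_lit 2987394788) (.two (nat_lit 2097157) (nat_lit 306184401) (.two (nat_lit 2097153) (nat_lit 135267663) (.two (nat_lit 2097152) (nat_lit 47547681332) (.one (nat_lit 34609689) .nil))))))),
   .two (nat_lit 46409973775) (nat_lit 10940842121) (.two (nat_lit 157038936072) (nat_lit 1411383953) (.two (nat_lit 4599054341) (nat_lit 9802089314) (.two (nat_lit 2097153) (nat_lit 20740838438) (.one (nat_lit 13191093794) .nil)))),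
   .two (nat_lit 37748751) (nat_lit 2416967795) (.two (nat_lit 37748744) (nat_lit 11006902904) (.two (nat_lit 21778923525) (nat_lit 772801826) (.two (nat_lit 8388609) (nat_lit 11006904847) (.two (nat_lit 8388608) (nat_lit 19532880500) .nil)))),
   .two (nat_lit 2961178639) (nat_lit 10437525620) (.two (nat_lit 205520904) (nat_lit 1384120678) (.two (nat_lit 171966469) (nat_lit 46414169450) (.two (nat_lit 605028353) (nat_lit 2921336714) (.one (nat_lit 2105046) .nil)))),
   .two (nat_lit 4605345807) (nat_lit 9966715012) (.two (nat_lit 184423546888) (nat_lit 158646403685) (.two (nat_lit 12121538565) (nat_lit 13187942446) (.two (nat_lit 41943041) (nat_lit 1343229355) (.two (nat_lit 1048576) (nat_lit 20638078904) (.one (nat_lit 1056471) .nil))))),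
   .two (nat_lit 10343153679) (nat_lit 158144135829) (.two (nat_lit 34603013) (nat_lit 156372043293) (.two (nat_lit 1048576) (nat_lit 18926801884) (.one (nat_lit 874519214) .nil))),
   .two (nat_lit 612368399) (nat_lit 1224737127) (.two (nat_lit 9948889093) (nat_lit 159224169314) (.two (nat_lit 4194305) (nat_lit 2332038105) (.one (nat_lit 4202200) .nil))),
   .two (nat_lit 2889875471) (nat_lit 1291845744) (.two (nat_lit 9881780232) (nat_lit 46510637922) (.two (nat_lit 620756993) (nat_lit 159219978134) (.one (nat_lit 3527415095) .nil))),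
   .two (nat_lit 75497487) (nat_lit 1795162978) (.two (nat_lit 41943041) (nat_lit 3003126745) (.one (nat_lit 209720634) .nil)),
   .two (nat_lit 176160783) (nat_lit 158662132075) (.two (nat_lit 9948889093) (nat_lit 47555019618) (.two (nat_lit 620756993) (nat_lit 10007613347) (.one (nat_lit 12050242120) .nil))),
   .two (nat_lit 16777231) (nat_lit 9974055269) (.two (nat_lit 16777220) (nat_lit 174688568700) (.two (nat_lit 8388609) (nat_lit 156581759505) (.two (nat_lit 8388608) (nat_lit 2420118609) (.one (nat_lit 4202201) .nil)))),
   .two (nat_lit 1291845647) (nat_lit 4605345857) (.two (nat_lit 8388616) (nat_lit 10385097061) (.two (nat_lit 612368389) (nat_lit 4613735737) (.two (nat_lit 41943041) (nat_lit 83888653) (.two (nat_lit 4194304) (nat_lit 18933093430) (.one (nat_lit 4634712658) .nil))))),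
   .two (nat_lit 11559501839) (nat_lit 156372041838) (.two (nat_lit 721420296) (nat_lit 156372043293) (.two (nat_lit 16777216) (nat_lit 343939810) .nil)),
   .two (nat_lit 16777231) (nat_lit 337641832) (.two (nat_lit 184549380) (nat_lit 20738737482) (.two (nat_lit 16777217) (nat_lit 2956988307) (.one (nat_lit 205528538) .nil))),
   .two (nat_lit 2902458383) (nat_lit 21214789749) (.two (nat_lit 184549384) (nat_lit 2323645070) (.two (nat_lit 8388613) (nat_lit 150996278) (.two (nat_lit 34603009) (nat_lit 343935495) (.two (nat_lit 1048576) (nat_lit 2357204001) (.one (nat_lit 10007616985) .nil))))),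
   .two (nat_lit 18933088271) (nat_lit 1916797123) (.two (nat_lit 9768534021) (nat_lit 1753219938) (.two (nat_lit 37748737) (nat_lit 9772732313) (.one (nat_lit 608180815) .nil))),
   .two (nat_lit 2902458383) (nat_lit 3527409731) (.two (nat_lit 2902458376) (nat_lit 2956985021) (.two (nat_lit 605028357) (nat_lit 889193801) (.two (nat_lit 4194305) (nat_lit 166144772624) (.two (nat_lit 4194304) (nat_lit 1947210742) (.one (nat_lit 3457162717) .nil))))),
   .two (nat_lit 16777231) (nat_lit 156468510830) (.two (nat_lit 822083592) (nat_lit 21814575723) (.two (nat_lit 1782579205) (nat_lit 157051520321) (.two (nat_lit 16777217) (nat_lit 156569176589) (.two (nat_lit 1048576) (nat_lit 1346378346) .nil)))),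
   .two (nat_lit 11559501839) (nat_lit 337641587) (.two (nat_lit 184549384) (nat_lit 20705181891) (.two (nat_lit 34603013) (nat_lit 843056463) (.two (nat_lit 2097153) (nat_lit 4634709433) (.two (nat_lit 1048576) (nat_lit 10003420166) (.one (nat_lit 1913657995) .nil))))),
   .two (nat_lit 721420303) (nat_lit 159251432108) (.two (nat_lit 1344274437) (nat_lit 10921968958) (.two (nat_lit 37748737) (nat_lit 606079499) (.two (nat_lit 2097152) (nat_lit 71309924) .nil))),
   .two (nat_lit 18933088271) (nat_lit 2350907524) (.two (nat_lit 156372041741) (nat_lit 10504635007) (.two (nat_lit 46407876612) (nat_lit 28798093327) (.two (nat_lit 156372041729) (nat_lit 28758248951) (.two (nat_lit 8388608) (nat_lit 9766442889) (.one (nat_lit 639639040) .nil))))),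
   .two (nat_lit 11559501839) (nat_lit 158143086656) (.two (nat_lit 158143086600) (nat_lit 18941478209) (.two (nat_lit 605028353) (nat_lit 4613736975) (.two (nat_lit 2097152) (nat_lit 1276123857) .nil))),
   .two (nat_lit 285212687) (nat_lit 28093448329) (.two (nat_lit 16777224) (nat_lit 11484005220) (.two (nat_lit 8388609) (nat_lit 12062823742) .nil)),
   .two (nat_lit 4601151503) (nat_lit 4605345910) (.two (nat_lit 20644364296) (nat_lit 239075987) (.two (nat_lit 10385096709) (nat_lit 2923431204) (.two (nat_lit 16777217) (nat_lit 46980401663) (.two (nat_lit 8388608) (nat_lit 11010053123) (.one (nat_lit 13195287147) .nil))))),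
   .two (nat_lit 721420303) (nat_lit 184993972289) (.two (nat_lit 41943048) (nat_lit 11559502690) (.two (nat_lit 8388609) (nat_lit 47596966879) (.one (nat_lit 352328316) .nil))),
   .two (nat_lit 205520911) (nat_lit 158083317881) (.two (nat_lit 158075977736) (nat_lit 9974055107) (.two (nat_lit 11484004357) (nat_lit 165525062988) (.two (nat_lit 4194305) (nat_lit 3020950047) (.two (nat_lit 2097152) (nat_lit 873467790) (.one (nat_lit 1056474) .nil))))),
   .two (nat_lit 156367847439) (nat_lit 10552868998) (.two (nat_lit 117440520) (nat_lit 174686470801) (.two (nat_lit 708837381) (nat_lit 4647290176) (.two (nat_lit 4194305) (nat_lit 2887780878) (.two (nat_lit 4194304) (nat_lit 2103255) (.one (nat_lit 2105051) .nil))))),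
   .two (nat_lit 822083599) (nat_lit 156971827313) (.two (nat_lit 822083592) (nat_lit 166199297390) (.two (nat_lit 16777217) (nat_lit 706745365) (.one (nat_lit 16784106) .nil))),
   .two (nat_lit 721420303) (nat_lit 1847591025) (.two (nat_lit 9881780232) (nat_lit 174686471011) (.two (nat_lit 606076929) (nat_lit 158091710360) (.one (nat_lit 1411391192) .nil))),
   .two (nat_lit 2889875471) (nat_lit 166129041516) (.two (nat_lit 46414168072) (nat_lit 11543773840) (.two (nat_lit 158150426629) (nat_lit 28790753791) (.two (nat_lit 4194304) (nat_lit 1309676586) (.one (nat_lit 183953792543) .nil)))),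
   .two (nat_lit 8388623) (nat_lit 20719862454) (.two (nat_lit 8388612) (nat_lit 3003123038) (.two (nat_lit 50331649) (nat_lit 13195284356) (.one (nat_lit 21785221799) .nil))),
   .two (nat_lit 158075977743) (nat_lit 28693233730) (.two (nat_lit 9768534024) (nat_lit 46523220644) (.two (nat_lit 2969567237) (nat_lit 156971828512) (.two (nat_lit 16777217) (nat_lit 157038938622) (.two (nat_lit 4194304) (nat_lit 9765393448) (.one (nat_lit 1055467) .nil))))),
   .two (nat_lit 12047089679) (nat_lit 1749025440) (.two (nat_lit 184986632197) (nat_lit 158079124803) (.two (nat_lit 16777217) (nat_lit 1279266698) (.one (nat_lit 218110624) .nil))),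
   .two (nat_lit 11559501839) (nat_lit 156535619835) (.two (nat_lit 754974728) (nat_lit 37249614483) (.two (nat_lit 2956984325) (nat_lit 13203671567) (.two (nat_lit 1048576) (nat_lit 3024097165) (.one (nat_lit 16785116) .nil)))),
   .two (nat_lit 183853121551) (nat_lit 156364701809) (.two (nat_lit 11559501832) (nat_lit 28086108523) (.two (nat_lit 183845781508) (nat_lit 343935032) (.two (nat_lit 34603009) (nat_lit 28798093831) (.two (nat_lit 1048576) (nat_lit 9974061730) .nil)))),
   .two (nat_lit 1178599439) (nat_lit 156372042594) (.two (nat_lit 37748737) (nat_lit 47555024183) .nil),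
   .two (nat_lit 639631375) (nat_lit 10343153731) (.two (nat_lit 639631368) (nat_lit 13228836179) (.two (nat_lit 2097153) (nat_lit 209720331) (.one (nat_lit 1753225904) .nil))),
   .two (nat_lit 620757007) (nat_lit 18933088323) (.two (nat_lit 83886088) (nat_lit 47555019423) (.two (nat_lit 4605345797) (nat_lit 50332967) (.two (nat_lit 8388609) (nat_lit 11492396514) (.two (nat_lit 1048576) (nat_lit 109058725) .nil)))),
   .two (nat_lit 1358954511) (nat_lit 10335814308) (.two (nat_lit 50331653) (nat_lit 12624856372) (.two (nat_lit 612368385) (nat_lit 19127077389) (.two (nat_lit 1048576) (nat_lit 8394712) (.one (nat_lit 8396364) .nil)))),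
   .two (nat_lit 11479810063) (nat_lit 28093448305) (.two (nat_lit 11479810056) (nat_lit 158083318376) (.two (nat_lit 809500677) (nat_lit 2961179987) (.two (nat_lit 37748737) (nat_lit 2927628181) (.one (nat_lit 10338967063) .nil)))),
   .two (nat_lit 4194319) (nat_lit 343932994) (.two (nat_lit 276824072) (nat_lit 37316723047) (.two (nat_lit 713031685) (nat_lit 184986633548) (.two (nat_lit 4194305) (nat_lit 839912903) (.two (nat_lit 4194304) (nat_lit 10947137418) (.one (nat_lit 8395500) .nil))))),
   .two (nat_lit 184549391) (nat_lit 847249603) (.two (nat_lit 8388612) (nat_lit 166211880288) (.two (nat_lit 2097153) (nat_lit 276829253) (.one (nat_lit 3022002779) .nil))),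
   .two (nat_lit 11559501839) (nat_lit 19127075073) (.two (nat_lit 12047089672) (nat_lit 9881781790) (.two (nat_lit 1048576) (nat_lit 1358958468) (.one (nat_lit 47581240876) .nil))),
   .two (nat_lit 272629775) (nat_lit 183853121646) (.two (nat_lit 37748744) (nat_lit 343933533) (.two (nat_lit 46414168068) (nat_lit 46978302820) (.two (nat_lit 4194305) (nat_lit 9900657165) (.two (nat_lit 2097152) (nat_lit 4200409) (.one (nat_lit 2105053) .nil))))),
   .two (nat_lit 41943055) (nat_lit 46489666219) (.two (nat_lit 8388612) (nat_lit 687867229) (.two (nat_lit 8388609) (nat_lit 10921972760) (.one (nat_lit 4605352682) .nil))),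
   .two (nat_lit 46409973775) (nat_lit 19027460454) (.two (nat_lit 4601151493) (nat_lit 11007951714) (.two (nat_lit 4194305) (nat_lit 12148805514) (.one (nat_lit 2104047) .nil))),
   .two (nat_lit 12054429711) (nat_lit 2902458484) (.two (nat_lit 50331656) (nat_lit 18933089123) (.two (nat_lit 16777217) (nat_lit 37320920519) (.two (nat_lit 8388608) (nat_lit 16783322) (.one (nat_lit 1786780321) .nil)))),
   .two (nat_lit 203423759) (nat_lit 28693234270) (.two (nat_lit 2954887173) (nat_lit 9936308770) (.two (nat_lit 2097152) (nat_lit 19029564019) .nil)),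
   .two (nat_lit 8388623) (nat_lit 11006902633) (.two (nat_lit 171966469) (nat_lit 136316229) (.two (nat_lit 2097153) (nat_lit 28086111769) (.two (nat_lit 4194304) (nat_lit 1853887558) (.one (nat_lit 2105054) .nil)))),
   .two (nat_lit 9881780239) (nat_lit 12114198592) (.two (nat_lit 12114198536) (nat_lit 754976038) (.two (nat_lit 34603009) (nat_lit 11492395569) (.two (nat_lit 1048576) (nat_lit 16783323) (.one (nat_lit 1779440294) .nil)))),
   .two (nat_lit 218103823) (nat_lit 9766437528) (.two (nat_lit 34603013) (nat_lit 620758314) (.two (nat_lit 2097153) (nat_lit 158192373285) (.two (nat_lit 1048576) (nat_lit 10504639450) (.one (nat_lit 1056398) .nil)))),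
   .two (nat_lit 16777231) (nat_lit 1847591027) (.two (nat_lit 10538188813) (nat_lit 50332515) (.two (nat_lit 16777217) (nat_lit 174753583010) (.one (nat_lit 2105055) .nil))),
   .two (nat_lit 620757007) (nat_lit 2319450231) (.two (nat_lit 205520904) (nat_lit 19109250398) (.two (nat_lit 16777217) (nat_lit 46980400670) (.two (nat_lit 1048576) (nat_lit 19109255797) .nil))),
   .two (nat_lit 16777231) (nat_lit 12117344369) (.two (nat_lit 4613734408) (nat_lit 11513365346) (.two (nat_lit 16777217) (nat_lit 166232852996) (.two (nat_lit 1048576) (nat_lit 47584383959) (.one (nat_lit 16785120) .nil)))),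
   .two (nat_lit 9866051599) (nat_lit 9940500841) (.two (nat_lit 1343225861) (nat_lit 11484006949) (.two (nat_lit 1048576) (nat_lit 11517565555) .nil)),
   .two (nat_lit 10385096719) (nat_lit 158143086713) (.two (nat_lit 184993972232) (nat_lit 21207450252) (.two (nat_lit 16777221) (nat_lit 176162112) (.two (nat_lit 605028353) (nat_lit 343935535) (.two (nat_lit 1048576) (nat_lit 3472889815) (.one (nat_lit 16785121) .nil))))),
   .two (nat_lit 184993972239) (nat_lit 34603127) (.two (nat_lit 19529728008) (nat_lit 184993973090) (.two (nat_lit 16777217) (nat_lit 19033756988) .nil)),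
   .two (nat_lit 16777231) (nat_lit 13195280579) (.two (nat_lit 184549380) (nat_lit 1216349520) (.two (nat_lit 8388609) (nat_lit 28772928015) (.two (nat_lit 8388608) (nat_lit 318772283) (.one (nat_lit 276830929) .nil)))),
   .two (nat_lit 16777231) (nat_lit 156971827337) (.two (nat_lit 13203669000) (nat_lit 708838244) (.two (nat_lit 2097153) (nat_lit 185020191705) (.one (nat_lit 28790757977) .nil))),
   .two (nat_lit 9881780239) (nat_lit 2987393144) (.two (nat_lit 4194312) (nat_lit 2936013159) (.two (nat_lit 272629765) (nat_lit 10519315808) (.two (nat_lit 9781116929) (nat_lit 156367851037) (.two (nat_lit 1048576) (nat_lit 4200413) (.one (nat_lit 11610888874) .nil))))),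
   .two (nat_lit 37748751) (nat_lit 721420886) (.two (nat_lit 2902458372) (nat_lit 159217877858) (.two (nat_lit 4194305) (nat_lit 10955525545) (.two (nat_lit 2097152) (nat_lit 4199507) (.one (nat_lit 4202210) .nil)))),
   .two (nat_lit 16777231) (nat_lit 184419352641) (.two (nat_lit 16777224) (nat_lit 184419353172) (.two (nat_lit 16777220) (nat_lit 4196423) (.two (nat_lit 50331649) (nat_lit 205523471) (.two (nat_lit 4194304) (nat_lit 16783326) (.one (nat_lit 19545463390) .nil))))),
   .two (nat_lit 16777231) (nat_lit 880803965) (.two (nat_lit 156372041736) (nat_lit 166144771383) (.two (nat_lit 8388609) (nat_lit 50334206) (.two (nat_lit 4194304) (nat_lit 47596966875) (.one (nat_lit 16784112) .nil)))),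
   .two (nat_lit 16777231) (nat_lit 184419352687) (.two (nat_lit 822083592) (nat_lit 2420114748) (.two (nat_lit 37748737) (nat_lit 9881785417) (.one (nat_lit 20740840011) .nil))),
   .two (nat_lit 159217877007) (nat_lit 1916797045) (.two (nat_lit 21777874952) (nat_lit 1178599788) (.two (nat_lit 34603013) (nat_lit 12117345122) (.two (nat_lit 2097153) (nat_lit 11513367040) (.two (nat_lit 1048576) (nat_lit 641732519) (.one (nat_lit 1056485) .nil))))),
   .two (nat_lit 46980399119) (nat_lit 184993972339) (.two (nat_lit 184993972237) (nat_lit 3527410272) (.two (nat_lit 13195280389) (nat_lit 166132188454) (.two (nat_lit 156372041729) (nat_lit 184989780515) (.two (nat_lit 8388608) (nat_lit 4199509) (.one (nat_lit 4202214) .nil))))),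
   .two (nat_lit 1291845647) (nat_lit 2987393287) (.two (nat_lit 10385096712) (nat_lit 2418016956) (.two (nat_lit 4599054341) (nat_lit 9948890399) (.two (nat_lit 2097153) (nat_lit 16780838) (.two (nat_lit 1048576) (nat_lit 1176507361) (.one (nat_lit 1056487) .nil))))),
   .two (nat_lit 809500687) (nat_lit 135266429) (.two (nat_lit 1913651208) (nat_lit 11580474675) (.two (nat_lit 34603009) (nat_lit 9802091030) (.two (nat_lit 1048576) (nat_lit 4200415) (.one (nat_lit 4202216) .nil)))),
   .two (nat_lit 754974735) (nat_lit 10000269431) (.two (nat_lit 10939793416) (nat_lit 4613735044) (.two (nat_lit 10503585797) (nat_lit 18941478207) (.two (nat_lit 8388609) (nat_lit 620759571) (.two (nat_lit 2097152) (nat_lit 174752535615) (.one (nat_lit 10939801285) .nil))))),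
   .two (nat_lit 166130089999) (nat_lit 28693233730) (.two (nat_lit 12129927176) (nat_lit 37749097) (.two (nat_lit 184431935493) (nat_lit 272631859) (.two (nat_lit 9766436865) (nat_lit 11479812625) (.two (nat_lit 2097152) (nat_lit 4199510) (.one (nat_lit 1210064382) .nil))))),
   .two (nat_lit 713031695) (nat_lit 1291845744) (.two (nat_lit 1358954509) (nat_lit 1853882728) (.two (nat_lit 9948889093) (nat_lit 1417675618) (.two (nat_lit 620756993) (nat_lit 184423550879) (.one (nat_lit 8396521) .nil)))),
   .two (nat_lit 16777231) (nat_lit 28093448305) (.two (nat_lit 1753219080) (nat_lit 158662132355) (.two (nat_lit 1176502277) (nat_lit 9948890401) (.two (nat_lit 2097153) (nat_lit 184431939021) (.two (nat_lit 8388608) (nat_lit 184554548) (.one (nat_lit 8396293) .nil))))),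
   .two (nat_lit 2902458383) (nat_lit 158077026426) (.two (nat_lit 654311432) (nat_lit 169870686) (.two (nat_lit 16777217) (nat_lit 9867105299) (.one (nat_lit 16784098) .nil))),
   .two (nat_lit 169869327) (nat_lit 28760342664) (.two (nat_lit 705691656) (nat_lit 742392462) (.two (nat_lit 705691652) (nat_lit 19142804868) (.two (nat_lit 34603009) (nat_lit 874515898) (.two (nat_lit 1048576) (nat_lit 13188994038) (.one (nat_lit 165526117040) .nil))))),
   .two (nat_lit 4194319) (nat_lit 20705181817) (.two (nat_lit 4194312) (nat_lit 21812478575) (.two (nat_lit 4599054341) (nat_lit 10003416454) (.two (nat_lit 9765388289) (nat_lit 2961182177) (.two (nat_lit 1048576) (nat_lit 2353009642) (.one (nat_lit 1055473) .nil))))),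
   .two (nat_lit 37748751) (nat_lit 620757107) (.two (nat_lit 47548727304) (nat_lit 21781021314) (.two (nat_lit 50331653) (nat_lit 28793897828) (.two (nat_lit 2097153) (nat_lit 21814577705) (.two (nat_lit 16777216) (nat_lit 4030731297) (.one (nat_lit 2105066) .nil))))),
   .two (nat_lit 2954887183) (nat_lit 10436476995) (.two (nat_lit 47548727304) (nat_lit 166196151138) (.two (nat_lit 2097153) (nat_lit 13187942923) (.two (nat_lit 2097152) (nat_lit 20704140013) .nil))),
   .two (nat_lit 9948889103) (nat_lit 11007951715) (.two (nat_lit 2097153) (nat_lit 21827160614) (.two (nat_lit 2097152) (nat_lit 1962939390) (.one (nat_lit 2105068) .nil))),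
   .two (nat_lit 343932951) (nat_lit 166132187202) (.two (nat_lit 19532873736) (nat_lit 183920231816) (.two (nat_lit 156367847425) (nat_lit 159224171009) (.two (nat_lit 4194304) (nat_lit 8394722) (.one (nat_lit 4202221) .nil)))),
   .two (nat_lit 9881780239) (nat_lit 13221494912) (.two (nat_lit 158075977736) (nat_lit 352322941) (.two (nat_lit 605028353) (nat_lit 37262201834) (.one (nat_lit 16785134) .nil))),
   .two (nat_lit 1847590927) (nat_lit 16777488) (.two (nat_lit 1291845640) (nat_lit 158144135526) (.two (nat_lit 10504634373) (nat_lit 11022632237) (.two (nat_lit 9766436865) (nat_lit 16780839) (.two (nat_lit 2097152) (nat_lit 16783331) (.one (nat_lit 184417262204) .nil))))),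
   .two (nat_lit 218103823) (nat_lit 19027460208) (.two (nat_lit 156533522445) (nat_lit 183928619691) (.two (nat_lit 10504634373) (nat_lit 1224739353) (.two (nat_lit 2097152) (nat_lit 28806486729) .nil))),
   .two (nat_lit 2889875471) (nat_lit 9881780338) (.two (nat_lit 2889875464) (nat_lit 2969567907) (.two (nat_lit 9948889093) (nat_lit 21814576515) (.two (nat_lit 620756993) (nat_lit 2990541325) (.two (nat_lit 8388608) (nat_lit 13203672979) (.one (nat_lit 8396527) .nil))))),
   .two (nat_lit 9934209039) (nat_lit 171966583) (.two (nat_lit 47548727304) (nat_lit 47550825316) (.two (nat_lit 2097153) (nat_lit 10338961952) (.two (nat_lit 16777216) (nat_lit 4200421) (.one (nat_lit 16785136) .nil)))),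
   .two (nat_lit 41943055) (nat_lit 174755676273) (.two (nat_lit 2969567240) (nat_lit 880804435) (.two (nat_lit 184549380) (nat_lit 13195281693) (.two (nat_lit 156367847425) (nat_lit 28101841949) (.one (nat_lit 4202225) .nil)))),
   .two (nat_lit 19599982607) (nat_lit 1376780401) (.two (nat_lit 19599982600) (nat_lit 2349859451) (.two (nat_lit 158143086597) (nat_lit 11513365347) (.two (nat_lit 156364701697) (nat_lit 156535623573) (.one (nat_lit 1056263) .nil)))),
   .two (nat_lit 11492392975) (nat_lit 166230753347) (.two (nat_lit 721420296) (nat_lit 10538189666) (.two (nat_lit 50331649) (nat_lit 1746930187) (.two (nat_lit 16777216) (nat_lit 236985074) .nil))),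
   .two (nat_lit 721420303) (nat_lit 19130220656) (.two (nat_lit 1178599432) (nat_lit 10519315806) (.two (nat_lit 50331649) (nat_lit 12117345822) (.two (nat_lit 4194304) (nat_lit 16783334) (.one (nat_lit 16785138) .nil)))),
   .two (nat_lit 16777231) (nat_lit 20745027703) (.two (nat_lit 1753219080) (nat_lit 12163482989) (.two (nat_lit 16777217) (nat_lit 11611934611) (.one (nat_lit 270539375) .nil))),
   .two (nat_lit 16777231) (nat_lit 3460301057) (.two (nat_lit 4613734408) (nat_lit 11513365347) (.two (nat_lit 34603009) (nat_lit 20707281429) (.two (nat_lit 1048576) (nat_lit 166232854413) (.one (nat_lit 1056499) .nil)))),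
   .two (nat_lit 721420303) (nat_lit 2349858953) (.two (nat_lit 1358954504) (nat_lit 605029220) (.two (nat_lit 2097153) (nat_lit 16778781) (.two (nat_lit 1048576) (nat_lit 1962941033) .nil))),
   .two (nat_lit 813694991) (nat_lit 306184300) (.two (nat_lit 176160776) (nat_lit 239075982) (.two (nat_lit 46409973764) (nat_lit 183846831473) (.two (nat_lit 2097153) (nat_lit 4198804) (.two (nat_lit 2097152) (nat_lit 8394727) (.one (nat_lit 3531610723) .nil))))),
   .two (nat_lit 272629775) (nat_lit 13195280579) (.two (nat_lit 4194308) (nat_lit 343934237) (.two (nat_lit 4194305) (nat_lit 13195285530) (.one (nat_lit 20640176726) .nil))),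
   .two (nat_lit 1277165583) (nat_lit 1950351994) (.two (nat_lit 639631365) (nat_lit 2353005946) (.two (nat_lit 9766436865) (nat_lit 306186750) (.two (nat_lit 2097152) (nat_lit 4200424) (.one (nat_lit 19128131056) .nil)))),
   .two (nat_lit 11479810063) (nat_lit 3457155203) (.two (nat_lit 739246088) (nat_lit 10506731877) (.two (nat_lit 739246085) (nat_lit 876610938) (.two (nat_lit 34603009) (nat_lit 11513367066) (.two (nat_lit 1048576) (nat_lit 306189380) (.one (nat_lit 1055475) .nil))))),
   .two (nat_lit 9781116943) (nat_lit 183848927298) (.two (nat_lit 9781116936) (nat_lit 19130221248) (.two (nat_lit 2902458373) (nat_lit 3560965470) (.two (nat_lit 16777217) (nat_lit 2990542267) (.two (nat_lit 4194304) (nat_lit 218110656) .nil)))),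
   .two (nat_lit 8388623) (nat_lit 1795162225) (.two (nat_lit 117440520) (nat_lit 9772729691) (.two (nat_lit 50331649) (nat_lit 158150431755) (.one (nat_lit 8396532) .nil))),
   .two (nat_lit 9781116943) (nat_lit 166230753552) (.two (nat_lit 654311432) (nat_lit 11544823133) (.two (nat_lit 9781116929) (nat_lit 10001322387) (.two (nat_lit 16777216) (nat_lit 10001323990) (.one (nat_lit 2105077) .nil)))),
   .two (nat_lit 2889875471) (nat_lit 12148801669) (.two (nat_lit 3525312520) (nat_lit 13224641187) (.two (nat_lit 46978301957) (nat_lit 19537069382) (.two (nat_lit 2097153) (nat_lit 156367850996) (.two (nat_lit 2097152) (nat_lit 4200425) (.one (nat_lit 2105078) .nil))))),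
   .two (nat_lit 11492392975) (nat_lit 166232850551) (.two (nat_lit 10385096712) (nat_lit 2098020) (.two (nat_lit 4194305) (nat_lit 11559503389) (.two (nat_lit 16777216) (nat_lit 166230758455) (.one (nat_lit 16785143) .nil)))),
   .two (nat_lit 166130089999) (nat_lit 3531604331) (.two (nat_lit 10504634373) (nat_lit 10343154530) (.two (nat_lit 9765388289) (nat_lit 158150430612) (.one (nat_lit 1786778937) .nil))),
   .two (nat_lit 1358954511) (nat_lit 135267171) (.two (nat_lit 34603009) (nat_lit 620758557) (.two (nat_lit 1048576) (nat_lit 11022636006) (.one (nat_lit 3524270674) .nil))),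
   .two (nat_lit 639631375) (nat_lit 10343153779) (.two (nat_lit 3525312520) (nat_lit 20644364903) (.two (nat_lit 159224168453) (nat_lit 156533523298) (.two (nat_lit 2097153) (nat_lit 880807814) (.one (nat_lit 1417681619) .nil)))),
   .two (nat_lit 285212687) (nat_lit 156573368446) (.two (nat_lit 721420296) (nat_lit 9873391975) (.two (nat_lit 8388613) (nat_lit 11492394274) (.two (nat_lit 8388609) (nat_lit 47563410894) (.two (nat_lit 8388608) (nat_lit 1795167305) (.one (nat_lit 16785145) .nil))))),
   .two (nat_lit 8388623) (nat_lit 822083699) (.two (nat_lit 50331660) (nat_lit 343933794) (.two (nat_lit 50331649) (nat_lit 10443819561) (.two (nat_lit 16777216) (nat_lit 8394731) (.one (nat_lit 16785146) .nil)))),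
   .two (nat_lit 165532401679) (nat_lit 46474985539) (.two (nat_lit 46978301960) (nat_lit 28093449058) (.two (nat_lit 2097153) (nat_lit 11584671644) (.one (nat_lit 8396539) .nil))),
   .two (nat_lit 639631375) (nat_lit 47555018816) (.two (nat_lit 3525312520) (nat_lit 159224170013) (.two (nat_lit 2097152) (nat_lit 10007613315) (.one (nat_lit 8395445) .nil))),
   .two (nat_lit 183848927247) (nat_lit 19537068145) (.two (nat_lit 156372041736) (nat_lit 11626612254) (.two (nat_lit 8388608) (nat_lit 20707285720) .nil)),
   .two (nat_lit 721420303) (nat_lit 166130090097) (.two (nat_lit 83886088) (nat_lit 20711474477) (.two (nat_lit 620756993) (nat_lit 807407020) (.two (nat_lit 8388608) (nat_lit 2103276) (.one (nat_lit 4638907050) .nil)))),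
   .two (nat_lit 2969567247) (nat_lit 184993972288) (.two (nat_lit 620757000) (nat_lit 158083319326) (.two (nat_lit 16777216) (nat_lit 156976026705) (.one (nat_lit 16785148) .nil))),
   .two (nat_lit 4194319) (nat_lit 166197198963) (.two (nat_lit 169869320) (nat_lit 183916036454) (.two (nat_lit 34603013) (nat_lit 10003416364) (.two (nat_lit 34603009) (nat_lit 4034924426) (.one (nat_lit 8396541) .nil)))),
   .two (nat_lit 9881780239) (nat_lit 2316304496) (.two (nat_lit 28086108168) (nat_lit 9881781091) (.two (nat_lit 605028353) (nat_lit 318771090) (.one (nat_lit 10921974455) .nil))),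
   .two (nat_lit 218103823) (nat_lit 21208498286) (.two (nat_lit 20638072840) (nat_lit 11593057619) (.two (nat_lit 606076929) (nat_lit 10351545823) (.two (nat_lit 2097152) (nat_lit 4613739605) (.one (nat_lit 2104950) .nil)))),
   .two (nat_lit 3458203663) (nat_lit 183853122148) (.two (nat_lit 8388613) (nat_lit 10907288872) (.two (nat_lit 8388609) (nat_lit 9934213013) (.one (nat_lit 2105086) .nil))),
   .two (nat_lit 11492392975) (nat_lit 156465365113) (.two (nat_lit 1795162120) (nat_lit 168821353) (.two (nat_lit 34603013) (nat_lit 2902459682) (.two (nat_lit 2097153) (nat_lit 13203674085) (.one (nat_lit 9934215752) .nil)))),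
   .two (nat_lit 620757007) (nat_lit 156468510833) (.two (nat_lit 2969567240) (nat_lit 47584379240) (.two (nat_lit 2902458372) (nat_lit 272631127) (.two (nat_lit 8388609) (nat_lit 156535622160) (.two (nat_lit 4194304) (nat_lit 8394733) (.one (nat_lit 742399573) .nil))))),
   .two (nat_lit 1191182351) (nat_lit 20740833413) (.two (nat_lit 12117344264) (nat_lit 3565158761) (.two (nat_lit 11479810052) (nat_lit 1350567300) (.two (nat_lit 37748737) (nat_lit 174759873070) (.two (nat_lit 4194304) (nat_lit 16783342) (.one (nat_lit 16785151) .nil))))),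
   .two (nat_lit 46980399119) (nat_lit 11510218817) (.two (nat_lit 16777224) (nat_lit 4027580778) (.two (nat_lit 9934209029) (nat_lit 9802089804) (.two (nat_lit 606076929) (nat_lit 1413483962) (.two (nat_lit 2097152) (nat_lit 21781025782) (.one (nat_lit 156367854256) .nil))))),
   .two (nat_lit 9940500495) (nat_lit 2920284281) (.two (nat_lit 68157448) (nat_lit 679477443) (.two (nat_lit 156364701701) (nat_lit 1413481316) (.two (nat_lit 16777217) (nat_lit 1216352647) (.two (nat_lit 4194304) (nat_lit 2323650376) (.one (nat_lit 16785152) .nil))))),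
   .two (nat_lit 19530776591) (nat_lit 1291846282) (.two (nat_lit 166130089988) (nat_lit 10351543643) (.two (nat_lit 9766436865) (nat_lit 50333213) (.two (nat_lit 2097152) (nat_lit 174701154190) (.one (nat_lit 16784117) .nil)))),
   .two (nat_lit 9948889103) (nat_lit 873463923) (.two (nat_lit 4613734408) (nat_lit 1782579820) (.two (nat_lit 171966469) (nat_lit 166144771441) (.two (nat_lit 605028353) (nat_lit 2101653) (.two (nat_lit 1048576) (nat_lit 4199512) (.one (nat_lit 156532481619) .nil))))),
   .two (nat_lit 2902458383) (nat_lit 1276117100) (.two (nat_lit 2889875464) (nat_lit 19093521802) (.two (nat_lit 4194305) (nat_lit 21223180825) (.two (nat_lit 4194304) (nat_lit 1862277774) .nil))),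
   .two (nat_lit 218103823) (nat_lit 843055213) (.two (nat_lit 218103816) (nat_lit 9802089059) (.two (nat_lit 4194308) (nat_lit 2969568798) (.two (nat_lit 4194304) (nat_lit 46523225171) (.one (nat_lit 3540000257) .nil)))),
   .two (nat_lit 4601151503) (nat_lit 19027460163) (.two (nat_lit 4601151496) (nat_lit 174686470502) (.two (nat_lit 46409973764) (nat_lit 673187105) (.two (nat_lit 2097153) (nat_lit 46510640631) (.two (nat_lit 2097152) (nat_lit 239081353) (.one (nat_lit 156533530071) .nil))))),
   .two (nat_lit 218103823) (nat_lit 606077630) (.two (nat_lit 10504634373) (nat_lit 37262198155) (.two (nat_lit 41943041) (nat_lit 16780840) (.two (nat_lit 2097152) (nat_lit 11584674422) .nil))),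
   .two (nat_lit 218103823) (nat_lit 1310720250) (.two (nat_lit 1745879048) (nat_lit 9806283392) (.two (nat_lit 270532613) (nat_lit 9781117795) (.two (nat_lit 9765388289) (nat_lit 21793608073) (.two (nat_lit 16777216) (nat_lit 8394735) (.one (nat_lit 2105089) .nil))))),
   .two (nat_lit 813694991) (nat_lit 306184300) (.two (nat_lit 8388616) (nat_lit 158144135796) (.two (nat_lit 8388613) (nat_lit 1849689413) (.two (nat_lit 37748737) (nat_lit 156466417178) (.two (nat_lit 4194304) (nat_lit 2103280) (.one (nat_lit 1350573643) .nil))))),
   .two (nat_lit 11479810063) (nat_lit 612368505) (.two (nat_lit 4601151496) (nat_lit 183953785464) (.two (nat_lit 183853121541) (nat_lit 21781022013) (.two (nat_lit 9765388289) (nat_lit 2323647003) (.two (nat_lit 1048576) (nat_lit 8394737) (.one (nat_lit 46414175934) .nil))))),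
   .two (nat_lit 1291845647) (nat_lit 3458204301) (.two (nat_lit 2097157) (nat_lit 1358956061) (.two (nat_lit 1048576) (nat_lit 10016004743) .nil)),
   .two (nat_lit 47555018767) (nat_lit 47582281978) (.two (nat_lit 612368392) (nat_lit 158158816296) (.two (nat_lit 11559501829) (nat_lit 209716566) (.two (nat_lit 50331649) (nat_lit 2927627758) (.two (nat_lit 8388608) (nat_lit 16783346) (.one (nat_lit 2105090) .nil))))),
   .two (nat_lit 285212687) (nat_lit 13224640637) (.two (nat_lit 156367847432) (nat_lit 788530483) (.two (nat_lit 4194305) (nat_lit 156581762112) (.one (nat_lit 721427115) .nil))),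
   .two (nat_lit 9948889103) (nat_lit 183947494018) (.two (nat_lit 4599054341) (nat_lit 620757858) (.two (nat_lit 2097153) (nat_lit 620758557) (.two (nat_lit 1048576) (nat_lit 12115253842) .nil))),
   .two (nat_lit 11479810063) (nat_lit 156372042595) (.two (nat_lit 37748737) (nat_lit 343936902) (.one (nat_lit 339745353) .nil)),
   .two (nat_lit 184993972239) (nat_lit 822083699) (.two (nat_lit 713031688) (nat_lit 11492393826) (.two (nat_lit 50331649) (nat_lit 174759873070) (.two (nat_lit 8388608) (nat_lit 16782425) (.one (nat_lit 16785155) .nil)))),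
   .two (nat_lit 8388623) (nat_lit 306184257) (.two (nat_lit 8388616) (nat_lit 843055461) (.two (nat_lit 8388612) (nat_lit 13224643070) (.two (nat_lit 4194304) (nat_lit 13228839963) (.one (nat_lit 166132193911) .nil)))),
   .two (nat_lit 184549391) (nat_lit 174686470259) (.two (nat_lit 18928893960) (nat_lit 1948254569) (.two (nat_lit 184549380) (nat_lit 9867102752) (.two (nat_lit 2097152) (nat_lit 1929384925) (.one (nat_lit 4202244) .nil)))),
   .two (nat_lit 754974735) (nat_lit 156465365057) (.two (nat_lit 3539992584) (nat_lit 174686470501) (.two (nat_lit 101711877) (nat_lit 1325401387) (.two (nat_lit 605028353) (nat_lit 1411387277) (.one (nat_lit 2104054) .nil)))),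
   .two (nat_lit 4194319) (nat_lit 20738736254) (.two (nat_lit 16777224) (nat_lit 156968681832) (.two (nat_lit 4194308) (nat_lit 10537141550) (.two (nat_lit 37748737) (nat_lit 11611934138) (.two (nat_lit 4194304) (nat_lit 184987685878) (.one (nat_lit 10336869040) .nil))))),
   .two (nat_lit 50331663) (nat_lit 19134415517) (.two (nat_lit 21785214981) (nat_lit 3573548399) (.two (nat_lit 612368385) (nat_lit 11559504383) (.two (nat_lit 8388608) (nat_lit 218109860) (.one (nat_lit 183953791590) .nil)))),
   .two (nat_lit 285212687) (nat_lit 165532401774) (.two (nat_lit 285212680) (nat_lit 1417675448) (.two (nat_lit 16777220) (nat_lit 3464496670) (.two (nat_lit 1048576) (nat_lit 11593060243) (.one (nat_lit 1056518) .nil)))),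
   .two (nat_lit 813694991) (nat_lit 1916797795) (.two (nat_lit 8388609) (nat_lit 1344278025) (.two (nat_lit 2097152) (nat_lit 4200436) (.one (nat_lit 4202247) .nil))),
   .two (nat_lit 2961178639) (nat_lit 3460301494) (.two (nat_lit 638582789) (nat_lit 18928895292) (.two (nat_lit 8388609) (nat_lit 19599985151) (.two (nat_lit 8388608) (nat_lit 4200437) (.one (nat_lit 46984601072) .nil)))),
   .two (nat_lit 28693233679) (nat_lit 18926796932) (.two (nat_lit 19532873736) (nat_lit 10336862882) (.two (nat_lit 157036838917) (nat_lit 8390728) (.two (nat_lit 156367847425) (nat_lit 3525315099) (.two (nat_lit 2097152) (nat_lit 8394742) (.one (nat_lit 2105096) .nil))))),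
   .two (nat_lit 742391823) (nat_lit 174692762271) (.two (nat_lit 708837381) (nat_lit 10343154973) (.two (nat_lit 606076929) (nat_lit 71305735) (.two (nat_lit 2097152) (nat_lit 4199515) (.one (nat_lit 2105097) .nil)))),
   .two (nat_lit 2887778319) (nat_lit 9969860731) (.two (nat_lit 11476664328) (nat_lit 1178600122) (.two (nat_lit 1277165572) (nat_lit 1417676110) (.two (nat_lit 606076929) (nat_lit 156968685009) (.two (nat_lit 2097152) (nat_lit 4199516) (.one (nat_lit 37314632331) .nil))))),
   .two (nat_lit 813694991) (nat_lit 156569174083) (.two (nat_lit 8388616) (nat_lit 1749025432) (.two (nat_lit 47548727301) (nat_lit 28697429291) (.two (nat_lit 8388609) (nat_lit 166232853034) (.two (nat_lit 2097152) (nat_lit 10909388682) (.one (nat_lit 8395511) .nil))))),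
   .two (nat_lit 8388623) (nat_lit 11511267449) (.two (nat_lit 117440520) (nat_lit 203424611) (.two (nat_lit 50331649) (nat_lit 1377832394) (.two (nat_lit 16777216) (nat_lit 2103142) (.one (nat_lit 158077034024) .nil)))),
   .two (nat_lit 612368399) (nat_lit 218103873) (.two (nat_lit 10939793416) (nat_lit 10376708760) (.two (nat_lit 184549381) (nat_lit 37253809459) (.two (nat_lit 50331649) (nat_lit 839911961) (.two (nat_lit 1048576) (nat_lit 8394743) (.one (nat_lit 1055480) .nil))))),
   .two (nat_lit 10343153679) (nat_lit 11513364595) (.two (nat_lit 165532401672) (nat_lit 10540287012) (.two (nat_lit 46409973765) (nat_lit 2994735152) (.two (nat_lit 9765388289) (nat_lit 10443822042) (.one (nat_lit 1056522) .nil)))),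
   .two (nat_lit 2969567247) (nat_lit 159257722999) (.two (nat_lit 620757000) (nat_lit 18933088613) (.two (nat_lit 184549381) (nat_lit 20745028982) (.two (nat_lit 16777217) (nat_lit 209718798) (.two (nat_lit 1048576) (nat_lit 176167651) .nil)))),
   .two (nat_lit 713031695) (nat_lit 2902458482) (.two (nat_lit 218103816) (nat_lit 20745028994) (.two (nat_lit 16777217) (nat_lit 8392233) (.two (nat_lit 16777216) (nat_lit 21214794837) (.one (nat_lit 8395513) .nil)))),
   .two (nat_lit 12047089679) (nat_lit 46414168129) (.two (nat_lit 12047089672) (nat_lit 46481278294) (.two (nat_lit 612368385) (nat_lit 1376783876) (.two (nat_lit 1048576) (nat_lit 8394745) (.one (nat_lit 1056523) .nil)))),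
   .two (nat_lit 2902458383) (nat_lit 20740833922) (.two (nat_lit 1358954501) (nat_lit 2316305250) (.two (nat_lit 4194305) (nat_lit 9915338650) (.one (nat_lit 13221501557) .nil))),
   .two (nat_lit 713031695) (nat_lit 47596961902) (.two (nat_lit 47563407368) (nat_lit 1417675618) (.two (nat_lit 16777217) (nat_lit 37253810695) (.two (nat_lit 1048576) (nat_lit 612373537) (.one (nat_lit 8396556) .nil)))),
   .two (nat_lit 4194319) (nat_lit 46481277047) (.two (nat_lit 11551113224) (nat_lit 11577328265) (.two (nat_lit 746586117) (nat_lit 13191087436) (.two (nat_lit 34603009) (nat_lit 9799993859) (.two (nat_lit 1048576) (nat_lit 641733700) (.one (nat_lit 10503592607) .nil))))),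
   .two (nat_lit 218103823) (nat_lit 9766437225) (.two (nat_lit 2902458372) (nat_lit 2099274) (.two (nat_lit 606076929) (nat_lit 16781718) (.two (nat_lit 2097152) (nat_lit 16783354) (.one (nat_lit 2105101) .nil)))),
   .two (nat_lit 13203669007) (nat_lit 158079123579) (.two (nat_lit 205520904) (nat_lit 11477713764) (.two (nat_lit 34603009) (nat_lit 19130223128) (.two (nat_lit 2097152) (nat_lit 4199518) (.one (nat_lit 2104058) .nil)))),
   .two (nat_lit 4194319) (nat_lit 47555019109) (.two (nat_lit 171966469) (nat_lit 12121539958) (.two (nat_lit 2097153) (nat_lit 809504256) (.two (nat_lit 2097152) (nat_lit 28089257875) (.one (nat_lit 2105102) .nil)))),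
   .two (nat_lit 754974735) (nat_lit 157038936181) (.two (nat_lit 11492392968) (nat_lit 19599983458) (.two (nat_lit 37748737) (nat_lit 47596965793) (.one (nat_lit 171973281) .nil))),
   .two (nat_lit 9948889103) (nat_lit 9900655275) (.two (nat_lit 184549380) (nat_lit 185021236573) (.two (nat_lit 2097153) (nat_lit 117444484) (.one (nat_lit 740301477) .nil))),
   .two (nat_lit 276824079) (nat_lit 46510637168) (.two (nat_lit 2887778312) (nat_lit 205521595) (.two (nat_lit 8388612) (nat_lit 638584174) (.two (nat_lit 9766436865) (nat_lit 11546924017) (.one (nat_lit 4202255) .nil)))),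
   .two (nat_lit 2902458383) (nat_lit 1377828996) (.two (nat_lit 654311432) (nat_lit 2097515) (.two (nat_lit 169869316) (nat_lit 10351543615) (.two (nat_lit 606076929) (nat_lit 13221497357) (.two (nat_lit 2097152) (nat_lit 1053791) (.one (nat_lit 168828413) .nil))))),
   .two (nat_lit 4601151503) (nat_lit 19027460217) (.two (nat_lit 157038936072) (nat_lit 159251432785) (.two (nat_lit 2097153) (nat_lit 28089257481) (.two (nat_lit 1048576) (nat_lit 2102368) (.one (nat_lit 2105104) .nil)))),
   .two (nat_lit 4194319) (nat_lit 10007609457) (.two (nat_lit 4194312) (nat_lit 2424308336) (.two (nat_lit 2097157) (nat_lit 46510637923) (.two (nat_lit 2097153) (nat_lit 46510638622) (.two (nat_lit 1048576) (nat_lit 37314630624) (.one (nat_lit 3531610783) .nil))))),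
   .two (nat_lit 16777231) (nat_lit 183853121602) (.two (nat_lit 721420296) (nat_lit 2961179258) (.two (nat_lit 620756997) (nat_lit 9772730440) (.two (nat_lit 41943041) (nat_lit 654314006) (.two (nat_lit 8388608) (nat_lit 83892057) (.one (nat_lit 1920998072) .nil))))),
   .two (nat_lit 8388623) (nat_lit 9802088692) (.two (nat_lit 8388616) (nat_lit 4634707241) (.two (nat_lit 4194305) (nat_lit 343936520) (.two (nat_lit 4194304) (nat_lit 156539819032) (.one (nat_lit 157043137114) .nil)))),
   .two (nat_lit 75497487) (nat_lit 1212153966) (.two (nat_lit 13191086088) (nat_lit 158183982440) (.two (nat_lit 4194305) (nat_lit 158183986169) (.one (nat_lit 19599989482) .nil))),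
   .two (nat_lit 272629775) (nat_lit 673185900) (.two (nat_lit 272629768) (nat_lit 1914700421) (.two (nat_lit 2889875461) (nat_lit 21812479345) (.two (nat_lit 4194305) (nat_lit 2988444159) (.two (nat_lit 4194304) (nat_lit 2103293) (.one (nat_lit 4202257) .nil))))),
   .two (nat_lit 41943055) (nat_lit 807404201) (.two (nat_lit 184416206853) (nat_lit 2927626314) (.two (nat_lit 9765388289) (nat_lit 159253532084) (.two (nat_lit 1048576) (nat_lit 4200446) (.one (nat_lit 1056530) .nil)))),
   .two (nat_lit 285212687) (nat_lit 2886729852) (.two (nat_lit 50331656) (nat_lit 1376781649) (.two (nat_lit 2097153) (nat_lit 1053081) (.two (nat_lit 2097152) (nat_lit 1054719) (.one (nat_lit 773855817) .nil)))),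
   .two (nat_lit 83886095) (nat_lit 165532401777) (.two (nat_lit 83886088) (nat_lit 2424309082) (.two (nat_lit 8388609) (nat_lit 1358956061) (.two (nat_lit 1048576) (nat_lit 855642002) (.one (nat_lit 16784124) .nil)))),
   .two (nat_lit 16777231) (nat_lit 10003415166) (.two (nat_lit 50331656) (nat_lit 104858234) (.two (nat_lit 16777220) (nat_lit 104858937) (.two (nat_lit 4194305) (nat_lit 285215254) (.two (nat_lit 4194304) (nat_lit 1795168089) (.one (nat_lit 1178606307) .nil))))),
   .two (nat_lit 822083599) (nat_lit 46980399218) (.two (nat_lit 46409973768) (nat_lit 19109249696) (.two (nat_lit 4601151493) (nat_lit 2902459687) (.two (nat_lit 4194305) (nat_lit 156581759526) (.two (nat_lit 8388608) (nat_lit 21814580264) (.one (nat_lit 4202260) .nil))))),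
   .two (nat_lit 285212687) (nat_lit 843055171) (.two (nat_lit 183848927240) (nat_lit 285213538) (.two (nat_lit 37748737) (nat_lit 10552872865) (.one (nat_lit 104864328) .nil))),
   .two (nat_lit 184549391) (nat_lit 1384120515) (.two (nat_lit 16777221) (nat_lit 28093449552) (.two (nat_lit 16777217) (nat_lit 46477085211) (.two (nat_lit 4194304) (nat_lit 184423552873) (.one (nat_lit 1283464751) .nil)))),
   .two (nat_lit 2902458383) (nat_lit 880804511) (.two (nat_lit 713031684) (nat_lit 9781117794) (.two (nat_lit 16777217) (nat_lit 1753220637) (.two (nat_lit 2097152) (nat_lit 21785221845) .nil))),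
   .two (nat_lit 16777231) (nat_lit 10003415166) (.two (nat_lit 2902458376) (nat_lit 46477083314) (.two (nat_lit 16777220) (nat_lit 20740835343) (.two (nat_lit 4194305) (nat_lit 183962178624) (.one (nat_lit 809507401) .nil)))),
   .two (nat_lit 117440527) (nat_lit 10003415161) (.two (nat_lit 3460300808) (nat_lit 4647289461) (.two (nat_lit 708837381) (nat_lit 156380431681) (.two (nat_lit 606076929) (nat_lit 809504647) (.one (nat_lit 20704140947) .nil)))),
   .two (nat_lit 184549391) (nat_lit 19130220656) (.two (nat_lit 1178599432) (nat_lit 158192370338) (.two (nat_lit 11479810052) (nat_lit 788530502) (.two (nat_lit 16777217) (nat_lit 166132189698) (.two (nat_lit 1048576) (nat_lit 171971542) (.one (nat_lit 16785174) .nil))))),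
   .two (nat_lit 218103823) (nat_lit 12117344614) (.two (nat_lit 2969567237) (nat_lit 28693234530) (.two (nat_lit 16777217) (nat_lit 608176643) (.two (nat_lit 4194304) (nat_lit 183861516879) .nil))),
   .two (nat_lit 713031695) (nat_lit 2097669) (.two (nat_lit 21785214984) (nat_lit 2098237) (.two (nat_lit 41943045) (nat_lit 606078298) (.two (nat_lit 50331649) (nat_lit 46514836576) (.one (nat_lit 8396567) .nil)))),
   .two (nat_lit 285212687) (nat_lit 1913651322) (.two (nat_lit 822083592) (nat_lit 3557818989) (.two (nat_lit 11492392965) (nat_lit 1947206951) (.two (nat_lit 4194305) (nat_lit 166144773604) (.two (nat_lit 4194304) (nat_lit 2365594277) .nil)))),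
   .two (nat_lit 4194319) (nat_lit 46481277060) (.two (nat_lit 2954887176) (nat_lit 9866052658) (.two (nat_lit 4194308) (nat_lit 28798093381) (.two (nat_lit 4194305) (nat_lit 21777878453) (.two (nat_lit 4194304) (nat_lit 1054720) (.one (nat_lit 4202264) .nil))))),
   .two (nat_lit 41943055) (nat_lit 2316304505) (.two (nat_lit 21785214984) (nat_lit 10000269944) (.two (nat_lit 34603013) (nat_lit 10007610909) (.two (nat_lit 2097152) (nat_lit 46406834786) .nil))),
   .two (nat_lit 285212687) (nat_lit 3527409728) (.two (nat_lit 3527409672) (nat_lit 9781118242) (.two (nat_lit 4194305) (nat_lit 1191187529) (.one (nat_lit 708844120) .nil))),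
   .two (nat_lit 50331663) (nat_lit 19134414972) (.two (nat_lit 46984593416) (nat_lit 1426064013) (.two (nat_lit 2894069765) (nat_lit 822084898) (.two (nat_lit 41943041) (nat_lit 4613737894) (.two (nat_lit 4194304) (nat_lit 839916249) .nil)))),
   .two (nat_lit 4605345807) (nat_lit 46980399217) (.two (nat_lit 306184204) (nat_lit 4605345987) (.two (nat_lit 272629765) (nat_lit 612369737) (.two (nat_lit 4194305) (nat_lit 780144110) (.two (nat_lit 4194304) (nat_lit 11551118377) (.one (nat_lit 775954048) .nil))))),
   .two (nat_lit 8388623) (nat_lit 2902458433) (.two (nat_lit 9940500488) (nat_lit 28806480573) (.two (nat_lit 16777221) (nat_lit 4605347101) (.two (nat_lit 620756993) (nat_lit 2357202343) (.two (nat_lit 4194304) (nat_lit 1962939369) (.one (nat_lit 11513371245) .nil))))),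
   .two (nat_lit 47555018767) (nat_lit 50332514) (.two (nat_lit 612368385) (nat_lit 150998935) (.one (nat_lit 158158821983) .nil)),
   .two (nat_lit 50331663) (nat_lit 166232850562) (.two (nat_lit 2889875464) (nat_lit 16778526) (.two (nat_lit 4194305) (nat_lit 9881782810) (.two (nat_lit 4194304) (nat_lit 16783362) (.one (nat_lit 4202267) .nil)))),
   .two (nat_lit 176160783) (nat_lit 19027460211) (.two (nat_lit 176160776) (nat_lit 1210057361) (.two (nat_lit 176160772) (nat_lit 156533523298) (.two (nat_lit 2097153) (nat_lit 158083321760) (.one (nat_lit 174685428379) .nil)))),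
   .two (nat_lit 218103823) (nat_lit 158177689857) (.two (nat_lit 166130089992) (nat_lit 20753416833) (.two (nat_lit 10504634373) (nat_lit 16778536) (.two (nat_lit 9766436865) (nat_lit 83888659) (.two (nat_lit 1048576) (nat_lit 1277170783) (.one (nat_lit 2105116) .nil))))),
   .two (nat_lit 612368399) (nat_lit 165528207988) (.two (nat_lit 176160772) (nat_lit 184419353442) (.two (nat_lit 8388609) (nat_lit 12117345821) (.two (nat_lit 8388608) (nat_lit 12150905556) .nil))),
   .two (nat_lit 18928893967) (nat_lit 16777894) (.two (nat_lit 184419352581) (nat_lit 2969569791) (.two (nat_lit 4194304) (nat_lit 19612570606) (.one (nat_lit 16785181) .nil))),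
   .two (nat_lit 11559501839) (nat_lit 68157574) (.two (nat_lit 1745879048) (nat_lit 117440707) (.two (nat_lit 12047089669) (nat_lit 117443071) (.two (nat_lit 1048576) (nat_lit 10921972718) (.one (nat_lit 16785182) .nil)))),
   .two (nat_lit 1291845647) (nat_lit 880803955) (.two (nat_lit 9948889101) (nat_lit 11618222695) (.two (nat_lit 41943045) (nat_lit 1795162979) (.two (nat_lit 620756993) (nat_lit 713034278) (.two (nat_lit 16777216) (nat_lit 176165886) (.one (nat_lit 10452212360) .nil))))),
   .two (nat_lit 12047089679) (nat_lit 158144135235) (.two (nat_lit 19596836872) (nat_lit 21208499042) (.two (nat_lit 9765388289) (nat_lit 9967765021) (.two (nat_lit 1048576) (nat_lit 2102370) (.one (nat_lit 2105119) .nil)))),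
   .two (nat_lit 612368399) (nat_lit 2921332985) (.two (nat_lit 47555018760) (nat_lit 3558867554) (.two (nat_lit 3458203653) (nat_lit 343934493) (.two (nat_lit 2097152) (nat_lit 20745031576) (.one (nat_lit 12048144994) .nil)))),
   .two (nat_lit 50331663) (nat_lit 2317353217) (.two (nat_lit 285212680) (nat_lit 47582282344) (.two (nat_lit 16777220) (nat_lit 203425839) (.two (nat_lit 16777217) (nat_lit 169872831) (.two (nat_lit 2097152) (nat_lit 166211884073) (.one (nat_lit 2105120) .nil))))),
   .two (nat_lit 218103823) (nat_lit 10540286071) (.two (nat_lit 9781116936) (nat_lit 1212154213) (.two (nat_lit 2902458373) (nat_lit 166232851830) (.two (nat_lit 16777217) (nat_lit 2956987918) (.two (nat_lit 16777216) (nat_lit 608180167) (.one (nat_lit 171973347) .nil))))),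
   .two (nat_lit 2889875471) (nat_lit 19127074928) (.two (nat_lit 68157448) (nat_lit 243271040) (.two (nat_lit 41943041) (nat_lit 12147754526) (.two (nat_lit 4194304) (nat_lit 174759874451) (.one (nat_lit 339745427) .nil)))),
   .two (nat_lit 46414168079) (nat_lit 1310720867) (.two (nat_lit 8388609) (nat_lit 11544825750) (.one (nat_lit 2104973) .nil)),
   .two (nat_lit 11559501839) (nat_lit 28690088003) (.two (nat_lit 12114198536) (nat_lit 117442077) (.two (nat_lit 1048576) (nat_lit 156380434318) (.one (nat_lit 16785187) .nil))),
   .two (nat_lit 4194319) (nat_lit 276824311) (.two (nat_lit 1175453704) (nat_lit 843055461) (.two (nat_lit 638582789) (nat_lit 47550825846) (.two (nat_lit 8388609) (nat_lit 18925753389) (.one (nat_lit 41950776) .nil)))),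
   .two (nat_lit 822083599) (nat_lit 9966715012) (.two (nat_lit 705691656) (nat_lit 2902459687) (.two (nat_lit 2097153) (nat_lit 739249588) (.two (nat_lit 2097152) (nat_lit 156364706879) (.one (nat_lit 28086115917) .nil)))),
   .two (nat_lit 11479810063) (nat_lit 4605345902) (.two (nat_lit 13195280392) (nat_lit 10439623359) (.two (nat_lit 809500677) (nat_lit 11584669056) (.two (nat_lit 37748737) (nat_lit 8392237) (.two (nat_lit 4194304) (nat_lit 1853887443) (.one (nat_lit 4201214) .nil))))),
   .two (nat_lit 50331663) (nat_lit 28690088201) (.two (nat_lit 46407876616) (nat_lit 166132187788) (.two (nat_lit 34603013) (nat_lit 10519315844) (.two (nat_lit 2097153) (nat_lit 19127078803) (.one (nat_lit 1344281247) .nil)))),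
   .two (nat_lit 285212687) (nat_lit 10000269427) (.two (nat_lit 156367847432) (nat_lit 318767461) (.two (nat_lit 46409973765) (nat_lit 2988442958) (.two (nat_lit 4194305) (nat_lit 11511270856) (.two (nat_lit 4194304) (nat_lit 1053795) (.one (nat_lit 4202278) .nil))))),
   .two (nat_lit 41943055) (nat_lit 184986632305) (.two (nat_lit 41943048) (nat_lit 183913939303) (.two (nat_lit 10503585797) (nat_lit 12115248433) (.two (nat_lit 9765388289) (nat_lit 11511269893) (.two (nat_lit 1048576) (nat_lit 2103304) (.one (nat_lit 3557825212) .nil))))),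
   .two (nat_lit 4194319) (nat_lit 1417674867) (.two (nat_lit 12114198536) (nat_lit 4634706595) (.two (nat_lit 184416206853) (nat_lit 13191088165) (.two (nat_lit 37748737) (nat_lit 21214793226) (.two (nat_lit 8388608) (nat_lit 1054729) (.one (nat_lit 8396583) .nil))))),
   .two (nat_lit 620757007) (nat_lit 47584379012) (.two (nat_lit 2969567240) (nat_lit 46477083298) (.two (nat_lit 83886085) (nat_lit 28793897828) (.two (nat_lit 16777217) (nat_lit 1782583176) (.one (nat_lit 37316729441) .nil)))),
   .two (nat_lit 1291845647) (nat_lit 11517558851) (.two (nat_lit 4605345800) (nat_lit 16778302) (.two (nat_lit 8388612) (nat_lit 16779342) (.two (nat_lit 8388609) (nat_lit 165540793823) (.two (nat_lit 8388608) (nat_lit 16783371) (.one (nat_lit 243277330) .nil))))),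
   .two (nat_lit 8388623) (nat_lit 2420113518) (.two (nat_lit 13195280392) (nat_lit 28760343160) (.two (nat_lit 183853121541) (nat_lit 37249615920) (.two (nat_lit 37748737) (nat_lit 880805405) (.two (nat_lit 16777216) (nat_lit 3024100042) .nil)))),
   .two (nat_lit 9768534031) (nat_lit 9934209277) (.two (nat_lit 205520904) (nat_lit 2954887809) (.two (nat_lit 34603013) (nat_lit 11584669004) (.two (nat_lit 4194305) (nat_lit 158150430170) (.two (nat_lit 1048576) (nat_lit 4200460) (.one (nat_lit 1056552) .nil))))),
   .two (nat_lit 166132187151) (nat_lit 721420533) (.two (nat_lit 166132187144) (nat_lit 10519315839) (.two (nat_lit 9768534017) (nat_lit 9948890654) (.two (nat_lit 2097152) (nat_lit 742395783) (.one (nat_lit 4202281) .nil)))),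
   .two (nat_lit 713031695) (nat_lit 2353004663) (.two (nat_lit 13191086088) (nat_lit 9906946738) (.two (nat_lit 183848927237) (nat_lit 28093450269) (.two (nat_lit 4194305) (nat_lit 47588578331) (.one (nat_lit 4202282) .nil)))),
   .two (nat_lit 9948889103) (nat_lit 3458204301) (.two (nat_lit 2097157) (nat_lit 620758557) (.two (nat_lit 2097152) (nat_lit 218110674) .nil)),
   .two (nat_lit 639631375) (nat_lit 1920991359) (.two (nat_lit 158144135176) (nat_lit 46481277556) (.two (nat_lit 2097157) (nat_lit 9974056252) (.two (nat_lit 2097153) (nat_lit 8392238) (.two (nat_lit 1048576) (nat_lit 46514837495) (.one (nat_lit 158646409944) .nil))))),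
   .two (nat_lit 11559501839) (nat_lit 336593020) (.two (nat_lit 183845781512) (nat_lit 19545457989) (.two (nat_lit 2097153) (nat_lit 183949593095) (.two (nat_lit 2097152) (nat_lit 166199302818) .nil))),
   .two (nat_lit 165526110223) (nat_lit 10947133553) (.two (nat_lit 158083317768) (nat_lit 156481094956) (.two (nat_lit 612368385) (nat_lit 11578381389) (.one (nat_lit 20705189583) .nil))),
   .two (nat_lit 11559501839) (nat_lit 2416967793) (.two (nat_lit 156968681480) (nat_lit 83886729) (.two (nat_lit 19596836869) (nat_lit 1224738111) (.two (nat_lit 9765388289) (nat_lit 174701154187) (.one (nat_lit 12633250448) .nil)))),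
   .two (nat_lit 721420303) (nat_lit 158083318366) (.two (nat_lit 50331653) (nat_lit 75498880) (.two (nat_lit 8388609) (nat_lit 1358956062) (.two (nat_lit 8388608) (nat_lit 158662137669) (.one (nat_lit 8396587) .nil)))),
   .two (nat_lit 9781116943) (nat_lit 205521579) (.two (nat_lit 2902458372) (nat_lit 608175453) (.two (nat_lit 16777217) (nat_lit 71308312) (.one (nat_lit 4202284) .nil))),
   .two (nat_lit 1343225871) (nat_lit 28693233731) (.two (nat_lit 28757196808) (nat_lit 1916797795) (.two (nat_lit 34603009) (nat_lit 185023336344) (.one (nat_lit 2920290914) .nil))),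
   .two (nat_lit 9768534031) (nat_lit 9948889196) (.two (nat_lit 16777224) (nat_lit 28693234021) (.two (nat_lit 16777220) (nat_lit 166132188446) (.two (nat_lit 50331649) (nat_lit 19596839438) (.two (nat_lit 1048576) (nat_lit 1929384989) (.one (nat_lit 2886736486) .nil))))),
   .two (nat_lit 16777231) (nat_lit 21207449736) (.two (nat_lit 46409973768) (nat_lit 159216828776) (.two (nat_lit 158091706373) (nat_lit 185020188750) (.two (nat_lit 50331649) (nat_lit 2886733279) (.two (nat_lit 16777216) (nat_lit 1054734) (.one (nat_lit 4202285) .nil))))),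
   .two (nat_lit 10385096719) (nat_lit 35651717) (.two (nat_lit 46407876616) (nat_lit 21827159394) (.two (nat_lit 156367847425) (nat_lit 28790753799) (.two (nat_lit 4194304) (nat_lit 12147759758) .nil))),
   .two (nat_lit 47555018767) (nat_lit 20705181834) (.two (nat_lit 158077026312) (nat_lit 8389313) (.two (nat_lit 9768534021) (nat_lit 639632730) (.two (nat_lit 37748737) (nat_lit 46984597908) (.two (nat_lit 4194304) (nat_lit 8394769) (.one (nat_lit 4202286) .nil))))),
   .two (nat_lit 654311439) (nat_lit 2350907524) (.two (nat_lit 46978301960) (nat_lit 10385098108) (.two (nat_lit 2097153) (nat_lit 19109251599) (.two (nat_lit 2097152) (nat_lit 16783379) (.one (nat_lit 11477719636) .nil)))),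
   .two (nat_lit 285212687) (nat_lit 28758245513) (.two (nat_lit 19596836872) (nat_lit 840958594) (.two (nat_lit 156364701701) (nat_lit 1847591779) (.two (nat_lit 16777217) (nat_lit 9766439470) (.two (nat_lit 1048576) (nat_lit 16783380) (.one (nat_lit 1291853497) .nil))))),
   .two (nat_lit 11492392975) (nat_lit 28693234530) (.two (nat_lit 50331649) (nat_lit 1916800451) (.two (nat_lit 4194304) (nat_lit 83891258) (.one (nat_lit 2889882216) .nil))),
   .two (nat_lit 1291845647) (nat_lit 11580473476) (.two (nat_lit 4194312) (nat_lit 9881781090) (.two (nat_lit 4194305) (nat_lit 11022633497) (.two (nat_lit 1048576) (nat_lit 10372520534) .nil))),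
   .two (nat_lit 16777231) (nat_lit 18933088323) (.two (nat_lit 46414168072) (nat_lit 654312821) (.two (nat_lit 8388609) (nat_lit 721425462) (.one (nat_lit 47588580003) .nil))),
   .two (nat_lit 2902458383) (nat_lit 9802088560) (.two (nat_lit 156367847432) (nat_lit 352322210) (.two (nat_lit 46409973764) (nat_lit 2365588875) (.two (nat_lit 8388609) (nat_lit 2432700313) (.one (nat_lit 16784127) .nil)))),
   .two (nat_lit 9934209039) (nat_lit 158649548938) (.two (nat_lit 9934209032) (nat_lit 4195392) (.two (nat_lit 169869316) (nat_lit 183949591850) (.two (nat_lit 2097153) (nat_lit 13224644484) (.one (nat_lit 4201216) .nil)))),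
   .two (nat_lit 721420303) (nat_lit 706740350) (.two (nat_lit 2954887176) (nat_lit 822084181) (.two (nat_lit 1358954501) (nat_lit 136316207) (.two (nat_lit 620756993) (nat_lit 1780484623) (.two (nat_lit 16777216) (nat_lit 10907293715) (.one (nat_lit 2104922) .nil))))),
   .two (nat_lit 9934209039) (nat_lit 28760342646) (.two (nat_lit 46477082637) (nat_lit 2097858) (.two (nat_lit 4599054341) (nat_lit 306185502) (.two (nat_lit 2097153) (nat_lit 18928896541) (.two (nat_lit 1048576) (nat_lit 46508545053) (.one (nat_lit 1056560) .nil))))),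
   .two (nat_lit 8388623) (nat_lit 654311561) (.two (nat_lit 9781116941) (nat_lit 183953785195) (.two (nat_lit 9781116933) (nat_lit 780141933) (.two (nat_lit 50331649) (nat_lit 28798096700) .nil))),
   .two (nat_lit 218103823) (nat_lit 1212153971) (.two (nat_lit 218103816) (nat_lit 11614028433) (.two (nat_lit 1358954501) (nat_lit 839910726) (.two (nat_lit 4194305) (nat_lit 37329309606) (.one (nat_lit 183946451559) .nil)))),
   .two (nat_lit 37748751) (nat_lit 47555019618) (.two (nat_lit 2097153) (nat_lit 19100862979) (.two (nat_lit 2097152) (nat_lit 8393829) (.one (nat_lit 156976028238) .nil))),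
   .two (nat_lit 721420303) (nat_lit 10544480378) (.two (nat_lit 606076936) (nat_lit 10452206204) (.two (nat_lit 8388612) (nat_lit 1176503606) (.two (nat_lit 8388609) (nat_lit 239080415) (.one (nat_lit 306190972) .nil)))),
   .two (nat_lit 620757007) (nat_lit 4028629057) (.two (nat_lit 2969567240) (nat_lit 28791800169) (.two (nat_lit 69206021) (nat_lit 251659567) (.two (nat_lit 2097153) (nat_lit 174701152773) (.two (nat_lit 4194304) (nat_lit 270537700) (.one (nat_lit 35658346) .nil))))),
   .two (nat_lit 4601151503) (nat_lit 19093520519) (.two (nat_lit 4194312) (nat_lit 184550242) (.two (nat_lit 4194305) (nat_lit 9781119506) (.two (nat_lit 1048576) (nat_lit 9881785428) (.one (nat_lit 1056561) .nil)))),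
   .two (nat_lit 2954887183) (nat_lit 166237045406) (.two (nat_lit 2097157) (nat_lit 3028288354) (.two (nat_lit 2097153) (nat_lit 156372044306) (.two (nat_lit 8388608) (nat_lit 28087163501) .nil))),
   .two (nat_lit 4605345807) (nat_lit 166132187273) (.two (nat_lit 10506731532) (nat_lit 847249603) (.two (nat_lit 11546918917) (nat_lit 156372043293) (.two (nat_lit 2097152) (nat_lit 156372045699) (.one (nat_lit 8395521) .nil)))),
   .two (nat_lit 1291845647) (nat_lit 158146232447) (.two (nat_lit 4194312) (nat_lit 1358956061) (.two (nat_lit 1048576) (nat_lit 166232857163) .nil)),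
   .two (nat_lit 809500687) (nat_lit 47555018817) (.two (nat_lit 37748744) (nat_lit 47555019619) (.two (nat_lit 4194305) (nat_lit 4638902830) (.two (nat_lit 2097152) (nat_lit 4200469) (.one (nat_lit 306191958) .nil)))),
   .two (nat_lit 41943055) (nat_lit 654312290) (.two (nat_lit 16777217) (nat_lit 2927629624) .nil),
   .two (nat_lit 4194319) (nat_lit 83886195) (.two (nat_lit 37748744) (nat_lit 1392510015) (.two (nat_lit 285212677) (nat_lit 37247518070) (.two (nat_lit 9781116929) (nat_lit 672139806) (.two (nat_lit 2097152) (nat_lit 4200470) (.one (nat_lit 1056562) .nil))))),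
   .two (nat_lit 1350565903) (nat_lit 20638072952) (.two (nat_lit 1916796936) (nat_lit 20705182317) (.two (nat_lit 1283457029) (nat_lit 1176503599) (.two (nat_lit 8388609) (nat_lit 19532878882) (.one (nat_lit 10338967166) .nil)))),
   .two (nat_lit 9948889103) (nat_lit 10940842097) (.two (nat_lit 165526110216) (nat_lit 620758353) (.two (nat_lit 606076929) (nat_lit 117444484) (.one (nat_lit 184556266) .nil))),
   .two (nat_lit 620757007) (nat_lit 156569174131) (.two (nat_lit 2969567240) (nat_lit 21210596394) (.two (nat_lit 184549381) (nat_lit 165528209454) (.two (nat_lit 16777217) (nat_lit 2923432497) (.two (nat_lit 16777216) (nat_lit 4199526) (.one (nat_lit 184419359408) .nil))))),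
   .two (nat_lit 2961178639) (nat_lit 166230753347) (.two (nat_lit 705691656) (nat_lit 10007609539) (.two (nat_lit 34603013) (nat_lit 8390736) (.two (nat_lit 605028353) (nat_lit 1210059289) (.two (nat_lit 1048576) (nat_lit 19597890530) (.one (nat_lit 11578382943) .nil))))),
   .two (nat_lit 37748751) (nat_lit 243269699) (.two (nat_lit 159217877000) (nat_lit 46477084190) (.two (nat_lit 2097152) (nat_lit 780147362) .nil)),
   .two (nat_lit 156367847439) (nat_lit 11492393027) (.two (nat_lit 3460300808) (nat_lit 822083941) (.two (nat_lit 171966469) (nat_lit 50332958) (.two (nat_lit 605028353) (nat_lit 174701152773) (.two (nat_lit 8388608) (nat_lit 101718615) .nil)))),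
   .two (nat_lit 13203669007) (nat_lit 1913651874) (.two (nat_lit 46407876612) (nat_lit 9899607377) (.two (nat_lit 4194305) (nat_lit 9766440441) (.two (nat_lit 4194304) (nat_lit 1948261029) .nil))),
   .two (nat_lit 218103823) (nat_lit 1847591025) (.two (nat_lit 10370416648) (nat_lit 654312290) (.two (nat_lit 606076929) (nat_lit 19612569484) (.one (nat_lit 184431942360) .nil))),
   .two (nat_lit 9940500495) (nat_lit 3558867560) (.two (nat_lit 708837381) (nat_lit 142607689) (.two (nat_lit 4194305) (nat_lit 1417678359) (.two (nat_lit 2097152) (nat_lit 3565164391) (.one (nat_lit 2105140) .nil)))),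
   .two (nat_lit 2902458383) (nat_lit 159251431536) (.two (nat_lit 9781116936) (nat_lit 9967764322) (.two (nat_lit 9781116929) (nat_lit 2418018822) (.two (nat_lit 16777216) (nat_lit 4632615515) .nil))),
   .two (nat_lit 713031695) (nat_lit 2902458433) (.two (nat_lit 2902458376) (nat_lit 184993972581) (.two (nat_lit 16777221) (nat_lit 12054431006) (.two (nat_lit 16777217) (nat_lit 9772730885) (.two (nat_lit 4194304) (nat_lit 8394775) (.one (nat_lit 71309926) .nil))))),
   .two (nat_lit 37748751) (nat_lit 159224169314) (.two (nat_lit 2097153) (nat_lit 185023336344) (.one (nat_lit 8396597) .nil)),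
   .two (nat_lit 46980399119) (nat_lit 672137335) (.two (nat_lit 157038936072) (nat_lit 10000270180) (.two (nat_lit 156367847425) (nat_lit 20704135703) (.two (nat_lit 2097152) (nat_lit 1053799) (.one (nat_lit 4202294) .nil)))),
   .two (nat_lit 822083599) (nat_lit 11513364592) (.two (nat_lit 13224640524) (nat_lit 1325400932) (.two (nat_lit 37748737) (nat_lit 1358957079) (.two (nat_lit 1048576) (nat_lit 19042146914) .nil))),
   .two (nat_lit 9948889103) (nat_lit 9766437226) (.two (nat_lit 285212677) (nat_lit 2099282) (.two (nat_lit 606076929) (nat_lit 9915339129) (.two (nat_lit 2097152) (nat_lit 10540289937) (.one (nat_lit 2105144) .nil)))),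
   .two (nat_lit 654311439) (nat_lit 19130220665) (.two (nat_lit 184419352584) (nat_lit 13237224053) (.two (nat_lit 171966469) (nat_lit 20652754223) (.two (nat_lit 605028353) (nat_lit 4198279) (.one (nat_lit 28086115808) .nil)))),
   .two (nat_lit 20638072847) (nat_lit 10335813759) (.two (nat_lit 21208498184) (nat_lit 21811429734) (.two (nat_lit 11476664324) (nat_lit 183913941007) (.two (nat_lit 9765388289) (nat_lit 10940845559) (.two (nat_lit 1048576) (nat_lit 169874491) (.one (nat_lit 1056570) .nil))))),
   .two (nat_lit 46409973775) (nat_lit 47555018865) (.two (nat_lit 46414168072) (nat_lit 2923430754) (.two (nat_lit 8388609) (nat_lit 158146234905) (.two (nat_lit 8388608) (nat_lit 10942945934) .nil))),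
   .two (nat_lit 165526110223) (nat_lit 158146232591) (.two (nat_lit 165526110216) (nat_lit 3460302170) (.two (nat_lit 612368385) (nat_lit 11511272415) (.one (nat_lit 2921339589) .nil))),
   .two (nat_lit 183848927247) (nat_lit 1283457656) (.two (nat_lit 209715205) (nat_lit 19599983459) (.two (nat_lit 8388609) (nat_lit 19599984158) (.two (nat_lit 1048576) (nat_lit 276828051) (.one (nat_lit 4202301) .nil)))),
   .two (nat_lit 1358954520) (nat_lit 159224168515) (.two (nat_lit 20644364296) (nat_lit 16778305) (.two (nat_lit 159224168453) (nat_lit 3472885078) (.two (nat_lit 612368385) (nat_lit 166245436973) (.two (nat_lit 1048576) (nat_lit 4638904209) (.one (nat_lit 8396606) .nil))))),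
   .two (nat_lit 620757007) (nat_lit 235930242) (.two (nat_lit 184549380) (nat_lit 158075979117) (.two (nat_lit 16777217) (nat_lit 806358948) (.one (nat_lit 1056575) .nil))),
   .two (nat_lit 4601151503) (nat_lit 20644364354) (.two (nat_lit 165532401672) (nat_lit 21210596707) (.two (nat_lit 606076929) (nat_lit 157038937630) (.two (nat_lit 2097152) (nat_lit 276829254) (.one (nat_lit 8396608) .nil)))),
   .two (nat_lit 184549391) (nat_lit 4028629117) (.two (nat_lit 47563407368) (nat_lit 2350908082) (.two (nat_lit 3472883717) (nat_lit 184417257555) (.two (nat_lit 156364701697) (nat_lit 174686472717) (.two (nat_lit 1048576) (nat_lit 2102376) (.one (nat_lit 1056577) .nil))))),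
   .two (nat_lit 176160783) (nat_lit 12050236091) (.two (nat_lit 8388613) (nat_lit 2990539620) (.two (nat_lit 8388609) (nat_lit 184419356578) (.one (nat_lit 8396610) .nil))),
   .two (nat_lit 4194319) (nat_lit 620757859) (.two (nat_lit 16777217) (nat_lit 1312819722) (.two (nat_lit 16777216) (nat_lit 809507450) .nil)),
   .two (nat_lit 4194319) (nat_lit 20753416866) (.two (nat_lit 4194308) (nat_lit 9915336015) (.two (nat_lit 4194305) (nat_lit 855643169) (.one (nat_lit 16785219) .nil))),
   .two (nat_lit 117440527) (nat_lit 772800577) (.two (nat_lit 46407876616) (nat_lit 1291845990) (.two (nat_lit 806354949) (nat_lit 9948890401) (.two (nat_lit 2097153) (nat_lit 166144773639) (.two (nat_lit 1048576) (nat_lit 9934215043) (.one (nat_lit 2105156) .nil))))),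
   .two (nat_lit 218103823) (nat_lit 1276117118) (.two (nat_lit 46984593416) (nat_lit 4647290188) (.two (nat_lit 8388609) (nat_lit 11610885654) (.two (nat_lit 2097152) (nat_lit 1962939480) (.one (nat_lit 2105157) .nil)))),
   .two (nat_lit 18928893967) (nat_lit 1753219187) (.two (nat_lit 104857608) (nat_lit 1291846247) (.two (nat_lit 10343153669) (nat_lit 13191087495) (.two (nat_lit 156372041729) (nat_lit 28089256487) (.two (nat_lit 8388608) (nat_lit 4200473) (.one (nat_lit 4202310) .nil))))),
   .two (nat_lit 4605345807) (nat_lit 158647452005) (.two (nat_lit 8388613) (nat_lit 2921334068) (.two (nat_lit 9768534017) (nat_lit 19597888016) (.two (nat_lit 4194304) (nat_lit 2103322) (.one (nat_lit 185023339198) .nil)))),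
   .two (nat_lit 4194319) (nat_lit 19537068150) (.two (nat_lit 11517558797) (nat_lit 156532474217) (.two (nat_lit 1344274437) (nat_lit 159216829755) (.two (nat_lit 37748737) (nat_lit 183913941521) (.two (nat_lit 1048576) (nat_lit 8393833) (.one (nat_lit 8396615) .nil))))),
   .two (nat_lit 2969567247) (nat_lit 337641831) (.two (nat_lit 184549380) (nat_lit 2099284) (.two (nat_lit 156365750273) (nat_lit 285216247) (.two (nat_lit 2097152) (nat_lit 20719867811) (.one (nat_lit 1277172398) .nil)))),
   .two (nat_lit 4194319) (nat_lit 159224168556) (.two (nat_lit 4194312) (nat_lit 156976022124) (.two (nat_lit 4194308) (nat_lit 2316305709) (.two (nat_lit 4194305) (nat_lit 4605350300) (.two (nat_lit 1048576) (nat_lit 339743832) (.one (nat_lit 3020955185) .nil))))),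
   .two (nat_lit 822083599) (nat_lit 19599982705) (.two (nat_lit 19532873736) (nat_lit 1325400932) (.two (nat_lit 9768534017) (nat_lit 721424259) (.one (nat_lit 4043314494) .nil))),
   .two (nat_lit 739246095) (nat_lit 20644364396) (.two (nat_lit 739246088) (nat_lit 3028288090) (.two (nat_lit 11543773189) (nat_lit 343934241) (.two (nat_lit 9781116929) (nat_lit 10335816195) (.two (nat_lit 16777216) (nat_lit 158075984602) .nil)))),
   .two (nat_lit 1291845647) (nat_lit 10001318011) (.two (nat_lit 46407876616) (nat_lit 9881780830) (.two (nat_lit 270532613) (nat_lit 9881782783) (.two (nat_lit 1048576) (nat_lit 16783388) (.one (nat_lit 1056584) .nil)))),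
   .two (nat_lit 754974735) (nat_lit 2416967795) (.two (nat_lit 310378509) (nat_lit 37262197096) (.two (nat_lit 638582789) (nat_lit 10955524649) (.two (nat_lit 1048576) (nat_lit 46489669535) (.one (nat_lit 21818777346) .nil)))),
   .two (nat_lit 713031695) (nat_lit 18925748352) (.two (nat_lit 4605345800) (nat_lit 339739324) (.two (nat_lit 171966469) (nat_lit 343934493) (.two (nat_lit 1048576) (nat_lit 156472709017) (.one (nat_lit 21777881814) .nil)))),
   .two (nat_lit 13191086095) (nat_lit 9906946170) (.two (nat_lit 3464495112) (nat_lit 166232851300) (.two (nat_lit 156372041729) (nat_lit 4631565281) (.one (nat_lit 1056585) .nil))),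
   .two (nat_lit 8388623) (nat_lit 1358954691) (.two (nat_lit 721420292) (nat_lit 159224170574) (.two (nat_lit 620756993) (nat_lit 10544483807) (.two (nat_lit 8388608) (nat_lit 16783389) (.one (nat_lit 10351549945) .nil)))),
   .two (nat_lit 2887778319) (nat_lit 11492393072) (.two (nat_lit 754974728) (nat_lit 807404182) (.two (nat_lit 11559501829) (nat_lit 639632716) (.two (nat_lit 34603009) (nat_lit 1377831445) (.two (nat_lit 16777216) (nat_lit 2988448466) .nil)))),
   .two (nat_lit 654311439) (nat_lit 740294783) (.two (nat_lit 46407876616) (nat_lit 2969567884) (.two (nat_lit 4599054341) (nat_lit 50334227) (.two (nat_lit 4194304) (nat_lit 269490761) .nil))),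
   .two (nat_lit 2887778319) (nat_lit 10343153731) (.two (nat_lit 2887778312) (nat_lit 10343153859) (.two (nat_lit 47548727301) (nat_lit 8390672) (.two (nat_lit 2097153) (nat_lit 8392213) (.two (nat_lit 1048576) (nat_lit 183846835164) (.one (nat_lit 21778930250) .nil))))),
   .two (nat_lit 169869327) (nat_lit 10544480394) (.two (nat_lit 8388616) (nat_lit 28691136871) (.two (nat_lit 806354949) (nat_lit 158083319144) (.two (nat_lit 2097153) (nat_lit 2961183093) (.two (nat_lit 2097152) (nat_lit 11543779991) .nil)))),
   .two (nat_lit 4194319) (nat_lit 16777574) (.two (nat_lit 754974725) (nat_lit 4196438) (.two (nat_lit 4194305) (nat_lit 117444128) (.two (nat_lit 1048576) (nat_lit 156984414095) (.one (nat_lit 11022637799) .nil)))),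
   .two (nat_lit 13191086095) (nat_lit 156465365113) (.two (nat_lit 19599982600) (nat_lit 9798943352) (.two (nat_lit 2097157) (nat_lit 2923430755) (.two (nat_lit 2097153) (nat_lit 28757199387) (.two (nat_lit 2097152) (nat_lit 1053803) (.one (nat_lit 2104067) .nil))))),
   .two (nat_lit 47555018767) (nat_lit 156533522545) (.two (nat_lit 166130089992) (nat_lit 1317012097) (.two (nat_lit 10504634373) (nat_lit 343934248) (.two (nat_lit 9765388289) (nat_lit 184423552037) (.one (nat_lit 20711478590) .nil)))),
   .two (nat_lit 10343153679) (nat_lit 12147753075) (.two (nat_lit 12147752973) (nat_lit 10343154530) (.two (nat_lit 34603009) (nat_lit 156472709015) (.one (nat_lit 3457161802) .nil))),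
   .two (nat_lit 2954887183) (nat_lit 3464495171) (.two (nat_lit 159217877000) (nat_lit 47555019618) (.two (nat_lit 606076929) (nat_lit 1182797708) (.one (nat_lit 8396620) .nil))),
   .two (nat_lit 809500687) (nat_lit 12054429811) (.two (nat_lit 4194312) (nat_lit 184993973090) (.two (nat_lit 4194305) (nat_lit 156539816451) (.two (nat_lit 1048576) (nat_lit 41948261) (.one (nat_lit 1056589) .nil)))),
   .two (nat_lit 285212687) (nat_lit 11513364546) (.two (nat_lit 183848927240) (nat_lit 285213538) (.two (nat_lit 37748737) (nat_lit 19042145594) .nil)),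
   .two (nat_lit 4194319) (nat_lit 159224169314) (.two (nat_lit 4194305) (nat_lit 19134417417) (.two (nat_lit 8388608) (nat_lit 2920290914) .nil)),
   .two (nat_lit 4605345807) (nat_lit 46980399220) (.two (nat_lit 713031688) (nat_lit 18925748586) (.two (nat_lit 713031684) (nat_lit 159216829826) (.two (nat_lit 41943041) (nat_lit 1343229438) (.two (nat_lit 1048576) (nat_lit 156367852565) (.one (nat_lit 11580481324) .nil))))),
   .two (nat_lit 822083599) (nat_lit 2923430000) (.two (nat_lit 4634705932) (nat_lit 9781117580) (.two (nat_lit 754974725) (nat_lit 9899606882) (.two (nat_lit 50331649) (nat_lit 2886733709) (.one (nat_lit 183946452539) .nil)))),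
   .two (nat_lit 75497487) (nat_lit 19599982849) (.two (nat_lit 1780482056) (nat_lit 1749025129) (.two (nat_lit 1176502277) (nat_lit 4196439) (.two (nat_lit 41943041) (nat_lit 158649551365) (.two (nat_lit 8388608) (nat_lit 205526990) (.one (nat_lit 8395524) .nil))))),
   .two (nat_lit 9881780239) (nat_lit 3524264296) (.two (nat_lit 21777874949) (nat_lit 16778636) (.two (nat_lit 605028353) (nat_lit 1325402659) (.two (nat_lit 1048576) (nat_lit 19109254139) (.one (nat_lit 1056591) .nil)))),
   .two (nat_lit 20638072847) (nat_lit 1779433593) (.two (nat_lit 46407876616) (nat_lit 2923430493) (.two (nat_lit 166132187140) (nat_lit 3557819236) (.two (nat_lit 156365750273) (nat_lit 11476666893) (.two (nat_lit 1048576) (nat_lit 2103329) (.one (nat_lit 1056593) .nil))))),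
   .two (nat_lit 272629775) (nat_lit 20738736249) (.two (nat_lit 10506731528) (nat_lit 19128124024) (.two (nat_lit 34603013) (nat_lit 21210597425) (.two (nat_lit 34603009) (nat_lit 874517600) (.one (nat_lit 2105170) .nil)))),
   .two (nat_lit 822083599) (nat_lit 11610882114) (.two (nat_lit 37748744) (nat_lit 4613735089) (.two (nat_lit 1191182341) (nat_lit 11610882914) (.two (nat_lit 4194305) (nat_lit 158176643605) (.two (nat_lit 4194304) (nat_lit 166211882893) (.one (nat_lit 2105171) .nil))))),
   .two (nat_lit 11492392975) (nat_lit 156971827316) (.two (nat_lit 183848927240) (nat_lit 1191183202) (.two (nat_lit 37748737) (nat_lit 159232561042) (.one (nat_lit 19109255892) .nil))),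
   .two (nat_lit 20738736152) (nat_lit 46477082690) (.two (nat_lit 21785214984) (nat_lit 28089254545) (.two (nat_lit 713031684) (nat_lit 28089255977) (.two (nat_lit 8388609) (nat_lit 3527412225) (.two (nat_lit 4194304) (nat_lit 8394790) (.one (nat_lit 11484012056) .nil))))),
   .two (nat_lit 822083599) (nat_lit 1212153968) (.two (nat_lit 18928893960) (nat_lit 19042140792) (.two (nat_lit 156367847429) (nat_lit 3003124256) (.two (nat_lit 1048576) (nat_lit 4043314494) .nil))),
   .two (nat_lit 16777231) (nat_lit 168820860) (.two (nat_lit 50331656) (nat_lit 156465365688) (.two (nat_lit 1276116996) (nat_lit 37262198858) (.two (nat_lit 16777217) (nat_lit 1053092) (.two (nat_lit 16777216) (nat_lit 1411390078) .nil)))),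
   .two (nat_lit 4194319) (nat_lit 285213269) (.two (nat_lit 2902458372) (nat_lit 10909386082) (.two (nat_lit 34603009) (nat_lit 4197936) (.two (nat_lit 1048576) (nat_lit 4200487) (.one (nat_lit 47550831294) .nil)))),
   .two (nat_lit 83886095) (nat_lit 46477082988) (.two (nat_lit 620756997) (nat_lit 156468512109) (.two (nat_lit 50331649) (nat_lit 21814580540) .nil)),
   .two (nat_lit 19532873743) (nat_lit 13237223619) (.two (nat_lit 157038936069) (nat_lit 2902459934) (.two (nat_lit 2097152) (nat_lit 166245440181) .nil)),
   .two (nat_lit 37748751) (nat_lit 10921968279) (.two (nat_lit 2889875461) (nat_lit 174686471528) (.two (nat_lit 156365750273) (nat_lit 16781733) (.two (nat_lit 4194304) (nat_lit 20652759024) (.one (nat_lit 3036682903) .nil)))),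
   .two (nat_lit 2954887183) (nat_lit 156372041844) (.two (nat_lit 47548727304) (nat_lit 4605346150) (.two (nat_lit 156372041733) (nat_lit 47582282594) (.two (nat_lit 156372041729) (nat_lit 1746931592) (.one (nat_lit 9900661341) .nil)))),
   .two (nat_lit 2961178639) (nat_lit 4028629105) (.two (nat_lit 4605345800) (nat_lit 166129042110) (.two (nat_lit 612368389) (nat_lit 2416968998) (.two (nat_lit 612368385) (nat_lit 9765391821) (.two (nat_lit 1048576) (nat_lit 20738741210) (.one (nat_lit 9799999029) .nil))))),
   .two (nat_lit 721420303) (nat_lit 20644364353) (.two (nat_lit 18933088264) (nat_lit 83886437) (.two (nat_lit 612368389) (nat_lit 1358957054) (.two (nat_lit 8388608) (nat_lit 2432702354) (.one (nat_lit 1954553477) .nil)))),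
   .two (nat_lit 184549391) (nat_lit 12117344321) (.two (nat_lit 184549384) (nat_lit 11546919275) (.two (nat_lit 708837381) (nat_lit 19042142727) (.two (nat_lit 2097152) (nat_lit 10506735520) (.one (nat_lit 4202325) .nil)))),
   .two (nat_lit 11543773199) (nat_lit 1212153968) (.two (nat_lit 19599982600) (nat_lit 158143088000) (.two (nat_lit 34603009) (nat_lit 843056670) (.two (nat_lit 1048576) (nat_lit 4199532) (.one (nat_lit 806361729) .nil)))),
   .two (nat_lit 2889875471) (nat_lit 1210056832) (.two (nat_lit 205520904) (nat_lit 46407877982) (.two (nat_lit 9766436865) (nat_lit 19130222110) (.two (nat_lit 1048576) (nat_lit 46407883381) .nil))),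
   .two (nat_lit 11479810063) (nat_lit 1795162227) (.two (nat_lit 9781116941) (nat_lit 19130221411) (.two (nat_lit 50331649) (nat_lit 2319452679) (.two (nat_lit 16777216) (nat_lit 4199533) (.one (nat_lit 4202326) .nil)))),
   .two (nat_lit 157036838927) (nat_lit 873464080) (.two (nat_lit 4601151496) (nat_lit 102761091) (.two (nat_lit 605028357) (nat_lit 69207432) (.two (nat_lit 4194305) (nat_lit 183912895481) (.one (nat_lit 4202327) .nil)))),
   .two (nat_lit 41943055) (nat_lit 1191182403) (.two (nat_lit 713031688) (nat_lit 2969567903) (.two (nat_lit 713031684) (nat_lit 37313578343) (.two (nat_lit 16777217) (nat_lit 13195281949) (.two (nat_lit 1048576) (nat_lit 159232561031) (.one (nat_lit 2316311203) .nil))))),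
   .two (nat_lit 721420303) (nat_lit 10003415161) (.two (nat_lit 285212680) (nat_lit 708838008) (.two (nat_lit 171966469) (nat_lit 620758558) (.two (nat_lit 1048576) (nat_lit 339743799) (.one (nat_lit 654319165) .nil)))),
   .two (nat_lit 822083599) (nat_lit 159217877114) (.two (nat_lit 822083592) (nat_lit 46978302640) (.two (nat_lit 16777220) (nat_lit 1411384164) (.two (nat_lit 16777217) (nat_lit 156533523997) (.two (nat_lit 8388608) (nat_lit 235936430) .nil)))),
   .two (nat_lit 16777231) (nat_lit 46407877281) (.two (nat_lit 1277165572) (nat_lit 37246469479) (.two (nat_lit 9765388289) (nat_lit 156548206471) (.one (nat_lit 2365594360) .nil))),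
   .two (nat_lit 50331663) (nat_lit 183853121601) (.two (nat_lit 183853121544) (nat_lit 3573547682) (.two (nat_lit 41943045) (nat_lit 285214238) (.two (nat_lit 2097152) (nat_lit 9772733437) (.one (nat_lit 9934217016) .nil)))),
   .two (nat_lit 639631375) (nat_lit 20711473284) (.two (nat_lit 3525312520) (nat_lit 183953785700) (.two (nat_lit 2097153) (nat_lit 10007610909) (.two (nat_lit 1048576) (nat_lit 20638079572) .nil))),
   .two (nat_lit 620757007) (nat_lit 12148801657) (.two (nat_lit 183848927240) (nat_lit 19604177253) (.two (nat_lit 1914699781) (nat_lit 28793899023) (.two (nat_lit 37748737) (nat_lit 10510929380) (.two (nat_lit 2097152) (nat_lit 37754705) (.one (nat_lit 4202328) .nil))))),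
   .two (nat_lit 16777231) (nat_lit 873464056) (.two (nat_lit 721420296) (nat_lit 12147753562) (.two (nat_lit 721420292) (nat_lit 183912891681) (.two (nat_lit 4194305) (nat_lit 1291849207) (.two (nat_lit 1048576) (nat_lit 10372519864) (.one (nat_lit 1950359022) .nil))))),
   .two (nat_lit 285212687) (nat_lit 2923429998) (.two (nat_lit 46980399112) (nat_lit 1862272345) (.two (nat_lit 4194305) (nat_lit 50333214) (.two (nat_lit 2097152) (nat_lit 4199535) (.one (nat_lit 2104069) .nil)))),
   .two (nat_lit 276824079) (nat_lit 1191182693) (.two (nat_lit 11559501829) (nat_lit 638584891) (.two (nat_lit 8388609) (nat_lit 10921971163) (.two (nat_lit 1048576) (nat_lit 1325404045) (.one (nat_lit 165540797158) .nil)))),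
   .two (nat_lit 4613734415) (nat_lit 2923430246) (.two (nat_lit 156968681477) (nat_lit 16779354) (.two (nat_lit 34603009) (nat_lit 12620663316) (.two (nat_lit 1048576) (nat_lit 9869201295) (.one (nat_lit 47581240039) .nil)))),
   .two (nat_lit 176160783) (nat_lit 2954887421) (.two (nat_lit 4605345800) (nat_lit 156535620258) (.two (nat_lit 69206021) (nat_lit 10007610910) (.two (nat_lit 4194304) (nat_lit 1377835649) .nil))),
   .two (nat_lit 47563407375) (nat_lit 1210056836) (.two (nat_lit 4613734408) (nat_lit 156971827896) (.two (nat_lit 171966469) (nat_lit 16778576) (.two (nat_lit 37748737) (nat_lit 1947208216) (.two (nat_lit 1048576) (nat_lit 156533526412) (.one (nat_lit 1056601) .nil))))),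
   .two (nat_lit 654311439) (nat_lit 236978242) (.two (nat_lit 1358954504) (nat_lit 10939794082) (.two (nat_lit 4599054341) (nat_lit 2969568551) (.two (nat_lit 2097153) (nat_lit 721422867) (.two (nat_lit 1048576) (nat_lit 21208503310) (.one (nat_lit 165526117000) .nil))))),
   .two (nat_lit 713031695) (nat_lit 4647289027) (.two (nat_lit 16777220) (nat_lit 37253809494) (.two (nat_lit 156364701697) (nat_lit 8392241) (.two (nat_lit 1048576) (nat_lit 13203674181) (.one (nat_lit 16785242) .nil)))),
   .two (nat_lit 276824079) (nat_lit 843055215) (.two (nat_lit 41943048) (nat_lit 4027580777) (.two (nat_lit 75497477) (nat_lit 166232852552) (.two (nat_lit 8388609) (nat_lit 11543776729) (.two (nat_lit 2097152) (nat_lit 272635905) (.one (nat_lit 8395526) .nil))))),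
   .two (nat_lit 9768534031) (nat_lit 156566028425) (.two (nat_lit 12054429704) (nat_lit 184986632884) (.two (nat_lit 159216828421) (nat_lit 880805154) (.two (nat_lit 156364701697) (nat_lit 3460303374) (.two (nat_lit 4194304) (nat_lit 185020191821) (.one (nat_lit 184419359396) .nil))))),
   .two (nat_lit 4194319) (nat_lit 156472705155) (.two (nat_lit 4194312) (nat_lit 159217877623) (.two (nat_lit 809500677) (nat_lit 158653744453) (.two (nat_lit 37748737) (nat_lit 203427289) (.two (nat_lit 1048576) (nat_lit 673191936) (.one (nat_lit 809507590) .nil))))),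
   .two (nat_lit 176160783) (nat_lit 135266371) (.two (nat_lit 176160776) (nat_lit 772800870) (.two (nat_lit 158150426629) (nat_lit 185020187937) (.two (nat_lit 612368385) (nat_lit 1343229476) (.two (nat_lit 8388608) (nat_lit 1376786293) (.one (nat_lit 4202331) .nil))))),
   .two (nat_lit 285212687) (nat_lit 772801183) (.two (nat_lit 16777220) (nat_lit 21777876300) (.two (nat_lit 16777217) (nat_lit 19596840373) (.two (nat_lit 2097152) (nat_lit 158075982857) (.one (nat_lit 1056604) .nil)))),
   .two (nat_lit 285212687) (nat_lit 11513364546) (.two (nat_lit 183848927240) (nat_lit 822084451) (.two (nat_lit 37748737) (nat_lit 1962938273) (.one (nat_lit 1279269452) .nil))),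
   .two (nat_lit 754974735) (nat_lit 37246468209) (.two (nat_lit 1745879048) (nat_lit 117441378) (.two (nat_lit 34603009) (nat_lit 185002364818) (.one (nat_lit 16784076) .nil))),
   .two (nat_lit 809500687) (nat_lit 47555018817) (.two (nat_lit 4194312) (nat_lit 159224168805) (.two (nat_lit 2894069765) (nat_lit 2923432474) (.two (nat_lit 8388608) (nat_lit 156364705683) (.one (nat_lit 3457161963) .nil)))),
   .two (nat_lit 612368399) (nat_lit 37246468212) (.two (nat_lit 12047089672) (nat_lit 159224169314) (.two (nat_lit 34603009) (nat_lit 37253810694) (.two (nat_lit 1048576) (nat_lit 8393840) (.one (nat_lit 12054437597) .nil)))),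
   .two (nat_lit 37748751) (nat_lit 2416967793) (.two (nat_lit 10939793416) (nat_lit 20738736799) (.two (nat_lit 9934209029) (nat_lit 739247475) (.two (nat_lit 9766436865) (nat_lit 10942944326) (.one (nat_lit 19532880548) .nil)))),
   .two (nat_lit 50331663) (nat_lit 3527409784) (.two (nat_lit 2961178632) (nat_lit 11559502019) (.two (nat_lit 10503585797) (nat_lit 9768536590) (.two (nat_lit 1048576) (nat_lit 2889879431) (.one (nat_lit 1056606) .nil)))),
   .two (nat_lit 9781116943) (nat_lit 638582897) (.two (nat_lit 713031688) (nat_lit 9982444181) (.two (nat_lit 101711877) (nat_lit 645924150) (.two (nat_lit 16777217) (nat_lit 13195283979) (.two (nat_lit 8388608) (nat_lit 19612572286) .nil)))),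
   .two (nat_lit 16777231) (nat_lit 18933088391) (.two (nat_lit 46414168072) (nat_lit 3573548397) (.two (nat_lit 8388609) (nat_lit 788533146) (.one (nat_lit 16785247) .nil))),
   .two (nat_lit 11479810063) (nat_lit 1209008832) (.two (nat_lit 209715205) (nat_lit 304088371) (.two (nat_lit 34603009) (nat_lit 20705185311) (.two (nat_lit 2097152) (nat_lit 739251305) (.one (nat_lit 11479817740) .nil)))),
   .two (nat_lit 285212687) (nat_lit 165532401779) (.two (nat_lit 13203669000) (nat_lit 10343154530) (.two (nat_lit 8388609) (nat_lit 9915338632) (.one (nat_lit 276830934) .nil))),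
   .two (nat_lit 2969567247) (nat_lit 21811429497) (.two (nat_lit 83886088) (nat_lit 13187941437) (.two (nat_lit 721420292) (nat_lit 839910742) (.two (nat_lit 8388609) (nat_lit 620758558) (.two (nat_lit 1048576) (nat_lit 822088810) (.one (nat_lit 16785250) .nil))))),
   .two (nat_lit 10506731535) (nat_lit 28758245489) (.two (nat_lit 166130089992) (nat_lit 156569174882) (.two (nat_lit 156365750273) (nat_lit 9902755722) (.one (nat_lit 4202339) .nil))),
   .two (nat_lit 50331663) (nat_lit 9940500602) (.two (nat_lit 156372041736) (nat_lit 1392510285) (.two (nat_lit 8388609) (nat_lit 16779774) (.two (nat_lit 2097152) (nat_lit 16782450) (.one (nat_lit 16785252) .nil)))),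
   .two (nat_lit 184986632207) (nat_lit 41943681) (.two (nat_lit 713031685) (nat_lit 46977254725) (.two (nat_lit 34603009) (nat_lit 47550827994) (.two (nat_lit 1048576) (nat_lit 8394797) (.one (nat_lit 1056614) .nil)))),
   .two (nat_lit 1358954511) (nat_lit 28690088002) (.two (nat_lit 28690087944) (nat_lit 117441164) (.two (nat_lit 1913651205) (nat_lit 2902460947) (.two (nat_lit 2097152) (nat_lit 1055397) .nil))),
   .two (nat_lit 1178599439) (nat_lit 236978242) (.two (nat_lit 3458203656) (nat_lit 12117345123) (.two (nat_lit 2097153) (nat_lit 205526125) (.one (nat_lit 11477719637) .nil))),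
   .two (nat_lit 156372041743) (nat_lit 28705816936) (.two (nat_lit 46414168068) (nat_lit 1325401474) (.two (nat_lit 2097153) (nat_lit 156481096227) (.two (nat_lit 2097152) (nat_lit 352328441) .nil))),
   .two (nat_lit 16777231) (nat_lit 1948254340) (.two (nat_lit 639631368) (nat_lit 3472884380) (.two (nat_lit 157035790341) (nat_lit 2099246) (.two (nat_lit 16777217) (nat_lit 3558870466) (.two (nat_lit 16777216) (nat_lit 1746933717) (.one (nat_lit 16785255) .nil))))),
   .two (nat_lit 2969567247) (nat_lit 159251431549) (.two (nat_lit 10336862216) (nat_lit 159266111683) (.two (nat_lit 46407876612) (nat_lit 3573549597) (.two (nat_lit 4194304) (nat_lit 2969574128) .nil))),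
   .two (nat_lit 654311439) (nat_lit 184417255547) (.two (nat_lit 169869320) (nat_lit 788530483) (.two (nat_lit 606076929) (nat_lit 11543775758) (.two (nat_lit 1048576) (nat_lit 2103345) (.one (nat_lit 1056616) .nil)))),
   .two (nat_lit 612368399) (nat_lit 218103918) (.two (nat_lit 2902458376) (nat_lit 4638900924) (.two (nat_lit 16777221) (nat_lit 11584669001) (.two (nat_lit 620756993) (nat_lit 1745881614) (.two (nat_lit 1048576) (nat_lit 8394803) (.one (nat_lit 806361762) .nil))))),
   .two (nat_lit 11492392975) (nat_lit 2886730380) (.two (nat_lit 822083589) (nat_lit 185020188039) (.two (nat_lit 34603009) (nat_lit 10907290125) (.two (nat_lit 1048576) (nat_lit 169874499) (.one (nat_lit 269492035) .nil)))),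
   .two (nat_lit 41943055) (nat_lit 46510637177) (.two (nat_lit 813694984) (nat_lit 46510637414) (.two (nat_lit 46414168068) (nat_lit 1746929746) (.two (nat_lit 156372041729) (nat_lit 11513367053) (.two (nat_lit 4194304) (nat_lit 47548734126) .nil)))),
   .two (nat_lit 16777231) (nat_lit 37249613940) (.two (nat_lit 285212680) (nat_lit 775946889) (.two (nat_lit 16777220) (nat_lit 11479812118) (.two (nat_lit 16777217) (nat_lit 166232855592) (.one (nat_lit 3527416402) .nil)))),
   .two (nat_lit 1350565903) (nat_lit 28087156983) (.two (nat_lit 75497480) (nat_lit 2954887857) (.two (nat_lit 18926796805) (nat_lit 10947135570) (.two (nat_lit 50331649) (nat_lit 3558870442) (.two (nat_lit 4194304) (nat_lit 46984597393) (.one (nat_lit 8396650) .nil))))),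
   .two (nat_lit 1795162127) (nat_lit 807403653) (.two (nat_lit 46407876616) (nat_lit 166245433708) (.two (nat_lit 1291845637) (nat_lit 10504635714) (.two (nat_lit 2097153) (nat_lit 1358956062) (.two (nat_lit 1048576) (nat_lit 156481098767) (.one (nat_lit 16785259) .nil))))),
   .two (nat_lit 158143086607) (nat_lit 165528207721) (.two (nat_lit 1276116996) (nat_lit 1178600780) (.two (nat_lit 605028353) (nat_lit 19130224089) (.two (nat_lit 1048576) (nat_lit 272634889) (.one (nat_lit 4202349) .nil)))),
   .two (nat_lit 2887778319) (nat_lit 159224168563) (.two (nat_lit 203423752) (nat_lit 12054430315) (.two (nat_lit 13187940357) (nat_lit 3028288802) (.two (nat_lit 2097153) (nat_lit 20745030160) (.two (nat_lit 1048576) (nat_lit 174686475232) (.one (nat_lit 2104071) .nil))))),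
   .two (nat_lit 713031695) (nat_lit 3024093841) (.two (nat_lit 9934209029) (nat_lit 9936307587) (.two (nat_lit 41943041) (nat_lit 158146237447) (.one (nat_lit 1216356033) .nil))),
   .two (nat_lit 9768534031) (nat_lit 19094569092) (.two (nat_lit 10504634376) (nat_lit 11614028644) (.two (nat_lit 2097153) (nat_lit 183848932316) (.one (nat_lit 1411390036) .nil))),
   .two (nat_lit 46407876623) (nat_lit 2923429955) (.two (nat_lit 159217877000) (nat_lit 12047090326) (.two (nat_lit 21778923525) (nat_lit 47581235261) (.two (nat_lit 37748737) (nat_lit 168824236) (.two (nat_lit 1048576) (nat_lit 46980404237) (.one (nat_lit 156968689439) .nil))))),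
   .two (nat_lit 721420303) (nat_lit 12117344370) (.two (nat_lit 721420296) (nat_lit 13191086754) (.two (nat_lit 50331653) (nat_lit 12117345122) (.two (nat_lit 50331649) (nat_lit 158146236325) (.one (nat_lit 4201224) .nil)))),
   .two (nat_lit 183853121551) (nat_lit 11010048248) (.two (nat_lit 8388616) (nat_lit 166197199206) (.two (nat_lit 8388613) (nat_lit 37247518024) (.two (nat_lit 8388609) (nat_lit 13188991493) (.two (nat_lit 2097152) (nat_lit 4200501) (.one (nat_lit 19029565173) .nil))))),
   .two (nat_lit 11559501839) (nat_lit 2316304519) (.two (nat_lit 9881780232) (nat_lit 2350908066) (.two (nat_lit 1291845637) (nat_lit 673186658) (.two (nat_lit 2097153) (nat_lit 9781120928) (.one (nat_lit 706747107) .nil)))),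
   .two (nat_lit 1277165583) (nat_lit 168820999) (.two (nat_lit 822083592) (nat_lit 2954887363) (.two (nat_lit 16777220) (nat_lit 156567078221) (.two (nat_lit 16777217) (nat_lit 874515886) (.two (nat_lit 4194304) (nat_lit 1054774) (.one (nat_lit 16785264) .nil))))),
   .two (nat_lit 9768534031) (nat_lit 12114198594) (.two (nat_lit 19130220557) (nat_lit 159216828775) (.two (nat_lit 1178599429) (nat_lit 19093521250) (.two (nat_lit 4194305) (nat_lit 47547681283) (.two (nat_lit 4194304) (nat_lit 1053811) (.one (nat_lit 1413488216) .nil))))),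
   .two (nat_lit 11543773199) (nat_lit 639631492) (.two (nat_lit 1343225864) (nat_lit 69207414) (.two (nat_lit 605028353) (nat_lit 9967766038) (.two (nat_lit 1048576) (nat_lit 2887783483) (.one (nat_lit 10436484599) .nil)))),
   .two (nat_lit 9768534031) (nat_lit 202375293) (.two (nat_lit 205520904) (nat_lit 159251431781) (.two (nat_lit 806354949) (nat_lit 47550825779) (.two (nat_lit 2097153) (nat_lit 11006904857) (.two (nat_lit 1048576) (nat_lit 2418020237) (.one (nat_lit 1056625) .nil))))),
   .two (nat_lit 75497487) (nat_lit 136315016) (.two (nat_lit 641728520) (nat_lit 4599054993) (.two (nat_lit 157036838917) (nat_lit 9902753077) (.two (nat_lit 50331649) (nat_lit 9799993859) (.two (nat_lit 16777216) (nat_lit 2102388) (.one (nat_lit 8396659) .nil))))),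
   .two (nat_lit 721420303) (nat_lit 11543773298) (.two (nat_lit 1343225864) (nat_lit 1277166242) (.two (nat_lit 50331653) (nat_lit 11611933211) (.two (nat_lit 1048576) (nat_lit 1780487133) (.one (nat_lit 2105204) .nil)))),
   .two (nat_lit 620757007) (nat_lit 236978297) (.two (nat_lit 3539992584) (nat_lit 37247517300) (.two (nat_lit 184989777925) (nat_lit 822084894) (.two (nat_lit 37748737) (nat_lit 10016000541) (.two (nat_lit 1048576) (nat_lit 3527416402) .nil)))),
   .two (nat_lit 9948889103) (nat_lit 101711992) (.two (nat_lit 19596836877) (nat_lit 12150899322) (.two (nat_lit 157035790341) (nat_lit 4196445) (.two (nat_lit 16777217) (nat_lit 37249618317) (.two (nat_lit 4194304) (nat_lit 166211882887) (.one (nat_lit 4202358) .nil))))),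
   .two (nat_lit 83886095) (nat_lit 1853883032) (.two (nat_lit 1176502277) (nat_lit 16778529) (.two (nat_lit 2097153) (nat_lit 12633247239) (.two (nat_lit 16777216) (nat_lit 21778929670) (.one (nat_lit 109059920) .nil)))),
   .two (nat_lit 2887778319) (nat_lit 11014242551) (.two (nat_lit 203423752) (nat_lit 18933088893) (.two (nat_lit 10343153669) (nat_lit 304089147) (.two (nat_lit 156372041729) (nat_lit 47547683209) (.two (nat_lit 1048576) (nat_lit 9900658577) (.one (nat_lit 2105207) .nil))))),
   .two (nat_lit 754974735) (nat_lit 135266417) (.two (nat_lit 28086108168) (nat_lit 754975587) (.two (nat_lit 605028353) (nat_lit 1426067361) (.one (nat_lit 788535952) .nil))),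
   .two (nat_lit 2969567247) (nat_lit 2350907508) (.two (nat_lit 9781116936) (nat_lit 10372514435) (.two (nat_lit 2902458372) (nat_lit 184419354716) (.two (nat_lit 16777217) (nat_lit 13224643085) (.two (nat_lit 2097152) (nat_lit 47563412453) (.one (nat_lit 183949597326) .nil))))),
   .two (nat_lit 28690087951) (nat_lit 10007609457) (.two (nat_lit 28690087944) (nat_lit 37320918399) (.two (nat_lit 9765388289) (nat_lit 2357201443) (.two (nat_lit 1048576) (nat_lit 3028291459) (.one (nat_lit 8394048) .nil)))),
   .two (nat_lit 285212687) (nat_lit 10909384836) (.two (nat_lit 12050235400) (nat_lit 285213538) (.two (nat_lit 37748737) (nat_lit 10552872865) (.one (nat_lit 16785272) .nil))),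
   .two (nat_lit 1191182351) (nat_lit 772800638) (.two (nat_lit 75497480) (nat_lit 1224737387) (.two (nat_lit 184549381) (nat_lit 1753220381) (.two (nat_lit 50331649) (nat_lit 159216833592) (.one (nat_lit 1056633) .nil)))),
   .two (nat_lit 9881780239) (nat_lit 37313577076) (.two (nat_lit 28690087944) (nat_lit 9881781090) (.two (nat_lit 9765388289) (nat_lit 11626614689) (.one (nat_lit 1343232596) .nil))),
   .two (nat_lit 158083317775) (nat_lit 10436476994) (.two (nat_lit 10939793416) (nat_lit 28093449059) (.two (nat_lit 9765388289) (nat_lit 183953788817) (.one (nat_lit 8395529) .nil))),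
   .two (nat_lit 4194319) (nat_lit 156472705155) (.two (nat_lit 4194312) (nat_lit 159217877623) (.two (nat_lit 1782579205) (nat_lit 184417257557) (.two (nat_lit 9768534017) (nat_lit 8392153) (.two (nat_lit 4194304) (nat_lit 69211223) (.one (nat_lit 9768540934) .nil))))),
   .two (nat_lit 16777231) (nat_lit 13228834935) (.two (nat_lit 2961178632) (nat_lit 50331843) (.two (nat_lit 176160772) (nat_lit 157051520321) (.two (nat_lit 9765388289) (nat_lit 109056988) (.one (nat_lit 13221502535) .nil)))),
   .two (nat_lit 8388623) (nat_lit 19529728128) (.two (nat_lit 176160776) (nat_lit 1049666) (.two (nat_lit 746586117) (nat_lit 806357551) (.two (nat_lit 2097152) (nat_lit 1749028749) (.one (nat_lit 2105211) .nil)))),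
   .two (nat_lit 713031695) (nat_lit 10436477065) (.two (nat_lit 2887778312) (nat_lit 20711473784) (.two (nat_lit 713031684) (nat_lit 10000270180) (.two (nat_lit 2097153) (nat_lit 343934493) (.two (nat_lit 16777216) (nat_lit 11610887140) (.one (nat_lit 1056636) .nil))))),
   .two (nat_lit 205520911) (nat_lit 840958075) (.two (nat_lit 9768534024) (nat_lit 3457155433) (.two (nat_lit 11479810053) (nat_lit 1948256349) (.two (nat_lit 2097153) (nat_lit 1052195) (.two (nat_lit 2097152) (nat_lit 11546924119) (.one (nat_lit 2889882374) .nil))))),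
   .two (nat_lit 16777231) (nat_lit 28693233778) (.two (nat_lit 13203669000) (nat_lit 19532874594) (.two (nat_lit 16777217) (nat_lit 185023334919) (.two (nat_lit 2097152) (nat_lit 158146239097) .nil))),
   .two (nat_lit 9948889103) (nat_lit 9900654725) (.two (nat_lit 46978301960) (nat_lit 20719863117) (.two (nat_lit 2097153) (nat_lit 754977306) (.two (nat_lit 8388608) (nat_lit 13188995768) .nil))),
   .two (nat_lit 203423759) (nat_lit 158150426742) (.two (nat_lit 12054429704) (nat_lit 1947205989) (.two (nat_lit 4599054341) (nat_lit 4605347102) (.two (nat_lit 2097153) (nat_lit 1216350749) (.two (nat_lit 1048576) (nat_lit 1377832851) (.one (nat_lit 2105215) .nil))))),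
   .two (nat_lit 276824079) (nat_lit 2889875576) (.two (nat_lit 276824072) (nat_lit 28089254508) (.two (nat_lit 11476664324) (nat_lit 639632743) (.two (nat_lit 605028353) (nat_lit 608177699) (.two (nat_lit 1048576) (nat_lit 270537815) (.one (nat_lit 1056640) .nil))))),
   .two (nat_lit 4194319) (nat_lit 9948889198) (.two (nat_lit 37748744) (nat_lit 20753416833) (.two (nat_lit 34603013) (nat_lit 104859731) (.two (nat_lit 2097153) (nat_lit 19127077379) (.two (nat_lit 2097152) (nat_lit 19596840863) (.one (nat_lit 16785281) .nil))))),
   .two (nat_lit 10506731535) (nat_lit 159217877356) (.two (nat_lit 2097157) (nat_lit 46510637923) (.two (nat_lit 2097153) (nat_lit 46510638622) (.two (nat_lit 1048576) (nat_lit 156533529240) .nil))),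
   .two (nat_lit 8388623) (nat_lit 9814671488) (.two (nat_lit 1795162120) (nat_lit 9768534882) (.two (nat_lit 620756993) (nat_lit 1312819719) (.two (nat_lit 16777216) (nat_lit 876614727) (.one (nat_lit 4202371) .nil)))),
   .two (nat_lit 272629775) (nat_lit 156465365059) (.two (nat_lit 37748744) (nat_lit 19093520741) (.two (nat_lit 47550824453) (nat_lit 10907289629) (.two (nat_lit 156367847425) (nat_lit 1780487228) (.one (nat_lit 46407883410) .nil)))),
   .two (nat_lit 713031695) (nat_lit 10436477065) (.two (nat_lit 47555018760) (nat_lit 3021996732) (.two (nat_lit 713031684) (nat_lit 10000270180) (.two (nat_lit 2097153) (nat_lit 156472709006) (.one (nat_lit 158077033036) .nil)))),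
   .two (nat_lit 272629775) (nat_lit 11007951043) (.two (nat_lit 2889875461) (nat_lit 159251432788) (.two (nat_lit 4194305) (nat_lit 46474988031) (.two (nat_lit 4194304) (nat_lit 1914705799) (.one (nat_lit 2990546600) .nil)))),
   .two (nat_lit 11492392975) (nat_lit 159250383097) (.two (nat_lit 46407876616) (nat_lit 12062818924) (.two (nat_lit 34603013) (nat_lit 1191183645) (.two (nat_lit 4194305) (nat_lit 4631565372) (.one (nat_lit 807410373) .nil)))),
   .two (nat_lit 620757007) (nat_lit 183953784949) (.two (nat_lit 2887778312) (nat_lit 16777411) (.two (nat_lit 13195280389) (nat_lit 20637026834) (.two (nat_lit 1048576) (nat_lit 8394814) (.one (nat_lit 8396677) .nil)))),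
   .two (nat_lit 1779433487) (nat_lit 174686470257) (.two (nat_lit 28757196808) (nat_lit 11511268699) (.two (nat_lit 156365750273) (nat_lit 12114202157) (.two (nat_lit 1048576) (nat_lit 2103359) (.one (nat_lit 156466420421) .nil)))),
   .two (nat_lit 21207449615) (nat_lit 50332260) (.two (nat_lit 158143086597) (nat_lit 16778529) (.two (nat_lit 605028353) (nat_lit 16781188) (.one (nat_lit 168827515) .nil))),
   .two (nat_lit 165526110223) (nat_lit 1048849) (.two (nat_lit 20638072840) (nat_lit 9899606632) (.two (nat_lit 639631365) (nat_lit 46406829403) (.two (nat_lit 606076929) (nat_lit 20704136739) (.two (nat_lit 1048576) (nat_lit 183913944019) (.one (nat_lit 2105223) .nil))))),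
   .two (nat_lit 11492392975) (nat_lit 19532873839) (.two (nat_lit 11492392968) (nat_lit 1916798017) (.two (nat_lit 9768534021) (nat_lit 16778538) (.two (nat_lit 37748737) (nat_lit 19537073175) (.one (nat_lit 8396557) .nil)))),
   .two (nat_lit 169869327) (nat_lit 10506731633) (.two (nat_lit 47548727304) (nat_lit 339739324) (.two (nat_lit 2097157) (nat_lit 19096667520) (.two (nat_lit 2097153) (nat_lit 4197942) (.two (nat_lit 2097152) (nat_lit 1947210829) (.one (nat_lit 183912897166) .nil))))),
   .two (nat_lit 272629775) (nat_lit 28093448436) (.two (nat_lit 272629768) (nat_lit 1417676073) (.two (nat_lit 4194305) (nat_lit 10007610910) (.two (nat_lit 4194304) (nat_lit 8393845) (.one (nat_lit 159219980910) .nil)))),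
   .two (nat_lit 754974735) (nat_lit 47555018817) (.two (nat_lit 8388616) (nat_lit 9881780582) (.two (nat_lit 176160772) (nat_lit 2099297) (.two (nat_lit 156365750273) (nat_lit 780145022) (.two (nat_lit 16777216) (nat_lit 4599059425) (.one (nat_lit 2105227) .nil))))),
   .two (nat_lit 11559501839) (nat_lit 2316304497) (.two (nat_lit 11559501832) (nat_lit 18925749594) (.two (nat_lit 8388609) (nat_lit 620758558) (.two (nat_lit 1048576) (nat_lit 19142807445) (.one (nat_lit 16785295) .nil)))),
   .two (nat_lit 156372041743) (nat_lit 183916036162) (.two (nat_lit 12117344264) (nat_lit 2994734434) (.two (nat_lit 37748737) (nat_lit 780144173) (.two (nat_lit 1048576) (nat_lit 10909391462) .nil))),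
   .two (nat_lit 218103823) (nat_lit 184987681128) (.two (nat_lit 174752530437) (nat_lit 46474987610) (.two (nat_lit 9765388289) (nat_lit 46508545084) (.one (nat_lit 183912897149) .nil))),
   .two (nat_lit 2889875471) (nat_lit 11618222751) (.two (nat_lit 272629765) (nat_lit 2424310289) (.two (nat_lit 2097152) (nat_lit 20644369524) (.one (nat_lit 2105232) .nil))),
   .two (nat_lit 1358954511) (nat_lit 11544821881) (.two (nat_lit 37748744) (nat_lit 1358954691) (.two (nat_lit 4194308) (nat_lit 2936014124) (.two (nat_lit 4194305) (nat_lit 236980763) (.two (nat_lit 4194304) (nat_lit 2103363) (.one (nat_lit 19530784351) .nil))))),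
   .two (nat_lit 9781116943) (nat_lit 174752530697) (.two (nat_lit 739246088) (nat_lit 19042140523) (.two (nat_lit 2902458372) (nat_lit 9866052930) (.two (nat_lit 9781116929) (nat_lit 9899609639) (.two (nat_lit 8388608) (nat_lit 11022637692) .nil)))),
   .two (nat_lit 4194319) (nat_lit 9974055044) (.two (nat_lit 11543773192) (nat_lit 19096666307) (.two (nat_lit 705691652) (nat_lit 156573369188) (.two (nat_lit 34603009) (nat_lit 46481280915) (.one (nat_lit 11014249038) .nil)))),
   .two (nat_lit 12050235407) (nat_lit 46523220325) (.two (nat_lit 69206021) (nat_lit 1325401388) (.two (nat_lit 37748737) (nat_lit 158177693581) (.one (nat_lit 1056657) .nil))),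
   .two (nat_lit 9948889103) (nat_lit 2954887300) (.two (nat_lit 46978301960) (nat_lit 16777923) (.two (nat_lit 165526110213) (nat_lit 19109250361) (.two (nat_lit 8388609) (nat_lit 1948258195) (.one (nat_lit 9766443624) .nil)))),
   .two (nat_lit 169869327) (nat_lit 10506731635) (.two (nat_lit 169869320) (nat_lit 10506732130) (.two (nat_lit 4599054341) (nat_lit 46510639615) (.two (nat_lit 2097152) (nat_lit 1312822255) (.one (nat_lit 4202386) .nil)))),
   .two (nat_lit 11559501839) (nat_lit 772800624) (.two (nat_lit 11577327629) (nat_lit 16777924) (.two (nat_lit 184986632197) (nat_lit 21223180814) (.two (nat_lit 1048576) (nat_lit 3036681293) (.one (nat_lit 1056659) .nil)))),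
   .two (nat_lit 184549391) (nat_lit 20705181763) (.two (nat_lit 47563407368) (nat_lit 136315551) (.two (nat_lit 1745879045) (nat_lit 158647452515) (.two (nat_lit 605028353) (nat_lit 1847593499) (.two (nat_lit 1048576) (nat_lit 2103365) (.one (nat_lit 185021243273) .nil))))),
   .two (nat_lit 4613734415) (nat_lit 11513364545) (.two (nat_lit 184416206856) (nat_lit 47584379241) (.two (nat_lit 809500677) (nat_lit 2886730596) (.two (nat_lit 37748737) (nat_lit 1343228433) (.two (nat_lit 4194304) (nat_lit 202380370) (.one (nat_lit 202382054) .nil))))),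
   .two (nat_lit 9768534031) (nat_lit 807404388) (.two (nat_lit 4194305) (nat_lit 1344279656) (.one (nat_lit 9766443611) .nil)),
   .two (nat_lit 9781116943) (nat_lit 1309671543) (.two (nat_lit 1191182349) (nat_lit 13221495472) (.two (nat_lit 1191182341) (nat_lit 156364703833) (.two (nat_lit 16777217) (nat_lit 28790756415) (.one (nat_lit 1056660) .nil)))),
   .two (nat_lit 11543773199) (nat_lit 822083779) (.two (nat_lit 705691652) (nat_lit 1216349026) (.two (nat_lit 41943041) (nat_lit 1846544904) (.two (nat_lit 1048576) (nat_lit 183920235632) (.one (nat_lit 11551119963) .nil)))),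
   .two (nat_lit 612368399) (nat_lit 2923429954) (.two (nat_lit 612368392) (nat_lit 742392170) (.two (nat_lit 75497477) (nat_lit 2923430754) (.two (nat_lit 8388609) (nat_lit 1849692071) (.one (nat_lit 4202389) .nil)))),
   .two (nat_lit 1178599439) (nat_lit 654311619) (.two (nat_lit 2902458372) (nat_lit 1413483049) (.two (nat_lit 16777216) (nat_lit 1749028767) (.one (nat_lit 4202390) .nil))),
   .two (nat_lit 1277165583) (nat_lit 11559501937) (.two (nat_lit 11492392968) (nat_lit 20738736994) (.two (nat_lit 50331649) (nat_lit 2099733) (.two (nat_lit 16777216) (nat_lit 10907294445) .nil))),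
   .two (nat_lit 12054429711) (nat_lit 13224640627) (.two (nat_lit 12054429704) (nat_lit 183949591143) (.two (nat_lit 183853121540) (nat_lit 183949591394) (.two (nat_lit 37748737) (nat_lit 184993973790) (.two (nat_lit 8388608) (nat_lit 1749029910) (.one (nat_lit 4202391) .nil))))),
   .two (nat_lit 612368399) (nat_lit 135266425) (.two (nat_lit 12114198536) (nat_lit 8389699) (.two (nat_lit 605028357) (nat_lit 10343156246) (.two (nat_lit 4194304) (nat_lit 672141203) (.one (nat_lit 165528215353) .nil)))),
   .two (nat_lit 1779433487) (nat_lit 157038936180) (.two (nat_lit 28693233672) (nat_lit 166196151138) (.two (nat_lit 9765388289) (nat_lit 3527411230) (.two (nat_lit 4194304) (nat_lit 37246473305) (.one (nat_lit 1056664) .nil)))),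
   .two (nat_lit 8388623) (nat_lit 3525312647) (.two (nat_lit 176160776) (nat_lit 11007951488) (.two (nat_lit 176160772) (nat_lit 19027461483) (.two (nat_lit 2097153) (nat_lit 4638905403) (.one (nat_lit 2105241) .nil)))),
   .two (nat_lit 174752530447) (nat_lit 156533522627) (.two (nat_lit 159216828421) (nat_lit 3525313872) (.two (nat_lit 4194305) (nat_lit 11544825736) (.one (nat_lit 2105242) .nil))),
   .two (nat_lit 272629775) (nat_lit 19612565631) (.two (nat_lit 184549384) (nat_lit 1178600065) (.two (nat_lit 809500677) (nat_lit 20652754311) (.two (nat_lit 16777217) (nat_lit 675285532) (.two (nat_lit 1048576) (nat_lit 46992987247) (.one (nat_lit 117447284) .nil))))),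
   .two (nat_lit 10385096719) (nat_lit 4634706035) (.two (nat_lit 10385096712) (nat_lit 11546919569) (.two (nat_lit 21785214981) (nat_lit 1312818499) (.two (nat_lit 612368385) (nat_lit 46523225115) (.one (nat_lit 1216356076) .nil)))),
   .two (nat_lit 2954887183) (nat_lit 37313577155) (.two (nat_lit 169869316) (nat_lit 9899607381) (.two (nat_lit 606076929) (nat_lit 135271534) (.one (nat_lit 136321623) .nil))),
   .two (nat_lit 205520911) (nat_lit 3531604220) (.two (nat_lit 13195280392) (nat_lit 28757197158) (.two (nat_lit 9873391621) (nat_lit 185020188041) (.two (nat_lit 9768534017) (nat_lit 8392249) (.two (nat_lit 4194304) (nat_lit 1054790) (.one (nat_lit 4202395) .nil))))),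
   .two (nat_lit 11492392975) (nat_lit 2954887235) (.two (nat_lit 1191182344) (nat_lit 3558867810) (.two (nat_lit 50331649) (nat_lit 1377831435) (.two (nat_lit 16777216) (nat_lit 11007957751) .nil))),
   .two (nat_lit 183848927247) (nat_lit 20644364402) (.two (nat_lit 165532401672) (nat_lit 1212154723) (.two (nat_lit 612368385) (nat_lit 608179239) (.one (nat_lit 775953049) .nil))),
   .two (nat_lit 2887778319) (nat_lit 9969860731) (.two (nat_lit 11476664328) (nat_lit 1178600122) (.two (nat_lit 1277165572) (nat_lit 1417676110) (.two (nat_lit 606076929) (nat_lit 156968685009) (.two (nat_lit 1048576) (nat_lit 2103367) (.one (nat_lit 37314632331) .nil))))),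
   .two (nat_lit 272629775) (nat_lit 166136382119) (.two (nat_lit 4194308) (nat_lit 28093450797) (.two (nat_lit 4194304) (nat_lit 19604180903) (.one (nat_lit 8396700) .nil))),
   .two (nat_lit 11559501839) (nat_lit 1276117353) (.two (nat_lit 721420292) (nat_lit 2886731858) (.two (nat_lit 34603009) (nat_lit 50333213) (.two (nat_lit 1048576) (nat_lit 156548209262) .nil))),
   .two (nat_lit 1178599439) (nat_lit 18926797063) (.two (nat_lit 10504634376) (nat_lit 1312818525) (.two (nat_lit 2097153) (nat_lit 9969865752) (.one (nat_lit 2105245) .nil))),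
   .two (nat_lit 101711887) (nat_lit 20638073083) (.two (nat_lit 46978301960) (nat_lit 156465365659) (.two (nat_lit 158144135173) (nat_lit 3524265265) (.two (nat_lit 606076929) (nat_lit 166129043983) (.two (nat_lit 1048576) (nat_lit 2103368) (.one (nat_lit 2105246) .nil))))),
   .two (nat_lit 9781116943) (nat_lit 306184387) (.two (nat_lit 2889875461) (nat_lit 2936014894) (.two (nat_lit 4194305) (nat_lit 10552872363) (.two (nat_lit 4194304) (nat_lit 16783433) (.one (nat_lit 4202399) .nil)))),
   .two (nat_lit 3458203663) (nat_lit 183848927352) (.two (nat_lit 157036838920) (nat_lit 9802088805) (.two (nat_lit 19532873733) (nat_lit 1948256340) (.two (nat_lit 4194305) (nat_lit 606082075) (.one (nat_lit 4202400) .nil)))),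
   .two (nat_lit 11492392975) (nat_lit 4631560318) (.two (nat_lit 11559501832) (nat_lit 168821369) (.two (nat_lit 739246085) (nat_lit 2902459677) (.two (nat_lit 34603009) (nat_lit 620760596) (.two (nat_lit 1048576) (nat_lit 218108954) (.one (nat_lit 16785313) .nil))))),
   .two (nat_lit 654311439) (nat_lit 10907287664) (.two (nat_lit 165526110216) (nat_lit 2332034403) (.two (nat_lit 606076929) (nat_lit 1358958468) (.one (nat_lit 184556199) .nil))),
   .two (nat_lit 157036838927) (nat_lit 1212153971) (.two (nat_lit 1212153869) (nat_lit 236978825) (.two (nat_lit 18928893957) (nat_lit 11578377603) (.two (nat_lit 4194305) (nat_lit 159251436604) (.one (nat_lit 218111796) .nil)))),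
   .two (nat_lit 75497487) (nat_lit 3458204301) (.two (nat_lit 612368389) (nat_lit 21208499043) (.two (nat_lit 34603009) (nat_lit 46984597395) (.one (nat_lit 10544487023) .nil))),
   .two (nat_lit 184993972239) (nat_lit 2969567839) (.two (nat_lit 16777221) (nat_lit 2927625545) (.two (nat_lit 41943041) (nat_lit 9881782785) (.two (nat_lit 8388608) (nat_lit 16783434) (.one (nat_lit 8396706) .nil)))),
   .two (nat_lit 184419352591) (nat_lit 3028288100) (.two (nat_lit 12117344261) (nat_lit 10007610666) (.two (nat_lit 156367847425) (nat_lit 645927914) (.one (nat_lit 8396707) .nil))),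
   .two (nat_lit 159224168463) (nat_lit 183912890483) (.two (nat_lit 184986632205) (nat_lit 47555019618) (.two (nat_lit 2097153) (nat_lit 10376710689) (.two (nat_lit 2097152) (nat_lit 156364705679) (.one (nat_lit 839917281) .nil)))),
   .two (nat_lit 612368399) (nat_lit 159217877101) (.two (nat_lit 612368397) (nat_lit 136315557) (.two (nat_lit 165526110213) (nat_lit 46514832751) (.two (nat_lit 34603009) (nat_lit 2101676) (.two (nat_lit 4194304) (nat_lit 1054796) (.one (nat_lit 20704141140) .nil))))),
   .two (nat_lit 1291845647) (nat_lit 166130090094) (.two (nat_lit 157036838920) (nat_lit 10452205931) (.two (nat_lit 1176502277) (nat_lit 2902459686) (.two (nat_lit 2097153) (nat_lit 1929384997) (.one (nat_lit 8396708) .nil)))),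
   .two (nat_lit 2969567247) (nat_lit 166136381564) (.two (nat_lit 620757000) (nat_lit 13195281793) (.two (nat_lit 41943041) (nat_lit 166229707277) (.two (nat_lit 1048576) (nat_lit 713037784) (.one (nat_lit 1056677) .nil)))),
   .two (nat_lit 272629775) (nat_lit 1310720121) (.two (nat_lit 705691656) (nat_lit 742393164) (.two (nat_lit 34603009) (nat_lit 4632612323) (.two (nat_lit 1048576) (nat_lit 4199543) (.one (nat_lit 12150906521) .nil)))),
   .two (nat_lit 2887778319) (nat_lit 159224168564) (.two (nat_lit 169869320) (nat_lit 47555020069) (.two (nat_lit 606076929) (nat_lit 1052218) (.two (nat_lit 1048576) (nat_lit 10336867423) (.one (nat_lit 2105255) .nil)))),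
   .two (nat_lit 28086108175) (nat_lit 1795162227) (.two (nat_lit 20637024264) (nat_lit 156380431402) (.two (nat_lit 9933160453) (nat_lit 620758310) (.two (nat_lit 4194305) (nat_lit 46489670693) (.one (nat_lit 9781123760) .nil)))),
   .two (nat_lit 41943055) (nat_lit 158649548931) (.two (nat_lit 4605345800) (nat_lit 156569174211) (.two (nat_lit 4194308) (nat_lit 19100861745) (.two (nat_lit 4194305) (nat_lit 184423549455) (.two (nat_lit 16777216) (nat_lit 276830940) .nil)))),
   .two (nat_lit 41943055) (nat_lit 608174775) (.two (nat_lit 4605345797) (nat_lit 11580474682) (.two (nat_lit 4194305) (nat_lit 184423549455) (.two (nat_lit 4194304) (nat_lit 8394830) (.one (nat_lit 9902758475) .nil)))),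
   .two (nat_lit 4194319) (nat_lit 3028287555) (.two (nat_lit 276824072) (nat_lit 4634706277) (.two (nat_lit 46409973765) (nat_lit 4638902358) (.two (nat_lit 34603009) (nat_lit 809504168) (.two (nat_lit 8388608) (nat_lit 174755680141) (.one (nat_lit 166199302902) .nil))))),
   .two (nat_lit 2902458383) (nat_lit 1847590977) (.two (nat_lit 218103816) (nat_lit 10001318249) (.two (nat_lit 10370416645) (nat_lit 11492394269) (.two (nat_lit 2097153) (nat_lit 184554606) (.one (nat_lit 2105257) .nil)))),
   .two (nat_lit 9781116943) (nat_lit 13191086275) (.two (nat_lit 708837381) (nat_lit 2936014894) (.two (nat_lit 4194305) (nat_lit 10552872363) (.two (nat_lit 2097152) (nat_lit 809506697) (.one (nat_lit 10338967027) .nil)))),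
   .two (nat_lit 75497487) (nat_lit 183848927299) (.two (nat_lit 4601151496) (nat_lit 158183981727) (.two (nat_lit 612368389) (nat_lit 10942940473) (.two (nat_lit 41943041) (nat_lit 13224643070) (.two (nat_lit 4194304) (nat_lit 8394833) (.one (nat_lit 19604183656) .nil))))),
   .two (nat_lit 4601151503) (nat_lit 69206134) (.two (nat_lit 46978301960) (nat_lit 11513365187) (.two (nat_lit 46407876612) (nat_lit 4196450) (.two (nat_lit 41943041) (nat_lit 156468514235) (.two (nat_lit 8388608) (nat_lit 37316726675) (.one (nat_lit 4202412) .nil))))),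
   .two (nat_lit 176160783) (nat_lit 1847591157) (.two (nat_lit 612368392) (nat_lit 10001318560) (.two (nat_lit 8388612) (nat_lit 2889877594) (.two (nat_lit 2097153) (nat_lit 675286931) (.one (nat_lit 28764543598) .nil)))),
   .two (nat_lit 8388623) (nat_lit 2902458478) (.two (nat_lit 218103816) (nat_lit 880804706) (.two (nat_lit 16777217) (nat_lit 13195281949) (.two (nat_lit 16777216) (nat_lit 37253813346) (.one (nat_lit 1317018217) .nil)))),
   .two (nat_lit 639631375) (nat_lit 156532473971) (.two (nat_lit 2887778312) (nat_lit 2424308385) (.two (nat_lit 1191182341) (nat_lit 9899608583) (.two (nat_lit 16777216) (nat_lit 1745883015) (.one (nat_lit 2105262) .nil)))),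
   .two (nat_lit 620757007) (nat_lit 10537140339) (.two (nat_lit 18928893960) (nat_lit 174701150566) (.two (nat_lit 3464495109) (nat_lit 775948311) (.two (nat_lit 605028353) (nat_lit 21223182715) (.two (nat_lit 16777216) (nat_lit 672143433) (.one (nat_lit 20745035329) .nil))))),
   .two (nat_lit 285212687) (nat_lit 158144135233) (.two (nat_lit 50331656) (nat_lit 183953785460) (.two (nat_lit 285212677) (nat_lit 3558868329) (.two (nat_lit 2097153) (nat_lit 156539819104) (.one (nat_lit 10007617432) .nil)))),
   .two (nat_lit 612368399) (nat_lit 37249613940) (.two (nat_lit 12050235400) (nat_lit 158083318626) (.two (nat_lit 8388609) (nat_lit 1916798493) (.two (nat_lit 2097152) (nat_lit 205524891) (.one (nat_lit 1212161813) .nil)))),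
   .two (nat_lit 47555018767) (nat_lit 1847590978) (.two (nat_lit 10940841992) (nat_lit 165532402316) (.two (nat_lit 174753579013) (nat_lit 166203491647) (.two (nat_lit 9768534017) (nat_lit 18933091823) (.two (nat_lit 4194304) (nat_lit 158077033033) .nil)))),
   .two (nat_lit 11479810063) (nat_lit 166196150383) (.two (nat_lit 739246088) (nat_lit 10506732126) (.two (nat_lit 11476664324) (nat_lit 21781022001) (.two (nat_lit 34603009) (nat_lit 12050237967) (.two (nat_lit 4194304) (nat_lit 1054803) (.one (nat_lit 158079130213) .nil))))),
   .two (nat_lit 3460300815) (nat_lit 1310720116) (.two (nat_lit 2954887176) (nat_lit 11546919555) (.two (nat_lit 13187940357) (nat_lit 2420114748) (.two (nat_lit 156364701697) (nat_lit 3525315086) (.two (nat_lit 1048576) (nat_lit 2103380) (.one (nat_lit 10940848856) .nil))))),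
   .two (nat_lit 11559501839) (nat_lit 28690088002) (.two (nat_lit 28690087944) (nat_lit 251659108) (.two (nat_lit 9765388289) (nat_lit 822085149) (.two (nat_lit 4194304) (nat_lit 1276120967) (.one (nat_lit 1055501) .nil)))),
   .two (nat_lit 11492392975) (nat_lit 46980399218) (.two (nat_lit 46409973768) (nat_lit 2902459020) (.two (nat_lit 4601151493) (nat_lit 174701151551) (.two (nat_lit 4194305) (nat_lit 889195968) (.two (nat_lit 8388608) (nat_lit 608179295) (.one (nat_lit 4202415) .nil))))),
   .two (nat_lit 184993972239) (nat_lit 1410334839) (.two (nat_lit 28690087944) (nat_lit 11584667843) (.two (nat_lit 1913651205) (nat_lit 183953786171) (.two (nat_lit 9765388289) (nat_lit 8393135) (.two (nat_lit 2097152) (nat_lit 13187945441) (.one (nat_lit 1056688) .nil))))),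
   .two (nat_lit 176160783) (nat_lit 4601151683) (.two (nat_lit 8388613) (nat_lit 843056670) (.two (nat_lit 1048576) (nat_lit 10338964560) (.one (nat_lit 183946452711) .nil))),
   .two (nat_lit 8388623) (nat_lit 10907287662) (.two (nat_lit 8388616) (nat_lit 12048138910) (.two (nat_lit 183848927237) (nat_lit 174759871813) (.two (nat_lit 4194305) (nat_lit 679482463) (.one (nat_lit 4202418) .nil)))),
   .two (nat_lit 721420303) (nat_lit 184986632445) (.two (nat_lit 184416206856) (nat_lit 1782580569) (.two (nat_lit 4194305) (nat_lit 10921970186) (.two (nat_lit 4194304) (nat_lit 19127078803) (.one (nat_lit 4202419) .nil)))),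
   .two (nat_lit 9781116943) (nat_lit 1048696) (.two (nat_lit 705691656) (nat_lit 11492394526) (.two (nat_lit 1048576) (nat_lit 156567082039) (.one (nat_lit 806362907) .nil))),
   .two (nat_lit 184549391) (nat_lit 37247516921) (.two (nat_lit 9948889096) (nat_lit 203425135) (.two (nat_lit 2097153) (nat_lit 19545460633) (.one (nat_lit 16785332) .nil))),
   .two (nat_lit 276824079) (nat_lit 46510637414) (.two (nat_lit 1779433477) (nat_lit 157043131717) (.two (nat_lit 34603009) (nat_lit 46477085192) (.two (nat_lit 1048576) (nat_lit 158079127439) (.one (nat_lit 156532481630) .nil)))),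
   .two (nat_lit 16777231) (nat_lit 4634705985) (.two (nat_lit 16777224) (nat_lit 10439623290) (.two (nat_lit 16777220) (nat_lit 3460302935) (.two (nat_lit 16777217) (nat_lit 10942941711) (.two (nat_lit 4194304) (nat_lit 16783447) (.one (nat_lit 16785334) .nil))))),
   .two (nat_lit 46409973775) (nat_lit 166197199522) (.two (nat_lit 4601151493) (nat_lit 11611932035) (.two (nat_lit 156367847425) (nat_lit 11510223849) (.one (nat_lit 28790759300) .nil))),
   .two (nat_lit 16777231) (nat_lit 183949590641) (.two (nat_lit 285212680) (nat_lit 843055970) (.two (nat_lit 16777217) (nat_lit 20707282826) (.one (nat_lit 4202424) .nil))),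
   .two (nat_lit 11559501839) (nat_lit 156465365058) (.two (nat_lit 11559501832) (nat_lit 157035791719) (.two (nat_lit 9765388289) (nat_lit 183861512739) (.two (nat_lit 1048576) (nat_lit 16782457) (.one (nat_lit 2316312411) .nil)))),
   .two (nat_lit 9781116943) (nat_lit 1212153969) (.two (nat_lit 157038936072) (nat_lit 2432696941) (.two (nat_lit 46409973764) (nat_lit 754975587) (.two (nat_lit 4194305) (nat_lit 11559505796) (.one (nat_lit 16785337) .nil)))),
   .two (nat_lit 13203669007) (nat_lit 9802088560) (.two (nat_lit 10336862216) (nat_lit 156984411442) (.two (nat_lit 2097153) (nat_lit 185002363420) (.two (nat_lit 2097152) (nat_lit 16782458) (.one (nat_lit 16785340) .nil)))),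
   .two (nat_lit 9881780239) (nat_lit 11610882287) (.two (nat_lit 285212680) (nat_lit 2420114097) (.two (nat_lit 654311429) (nat_lit 158079124876) (.two (nat_lit 4194305) (nat_lit 2887781902) (.two (nat_lit 1048576) (nat_lit 157038941277) (.one (nat_lit 1056701) .nil))))),
   .two (nat_lit 16777231) (nat_lit 183853121646) (.two (nat_lit 135266316) (nat_lit 156472705686) (.two (nat_lit 713031685) (nat_lit 285214237) (.two (nat_lit 1048576) (nat_lit 2894074844) (.one (nat_lit 101718742) .nil)))),
   .two (nat_lit 713031695) (nat_lit 158176641145) (.two (nat_lit 2887778312) (nat_lit 166203491655) (.two (nat_lit 2097153) (nat_lit 645927966) (.one (nat_lit 156364708579) .nil))),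
   .two (nat_lit 4194319) (nat_lit 12618563705) (.two (nat_lit 83886088) (nat_lit 19026411879) (.two (nat_lit 620756997) (nat_lit 166129043540) (.two (nat_lit 34603009) (nat_lit 156567079427) (.two (nat_lit 1048576) (nat_lit 50336880) (.one (nat_lit 157051525788) .nil))))),
   .two (nat_lit 184993972239) (nat_lit 47582281865) (.two (nat_lit 21785214984) (nat_lit 1914700433) (.two (nat_lit 47548727301) (nat_lit 184993973090) (.two (nat_lit 2097153) (nat_lit 1216353345) (.one (nat_lit 2105282) .nil)))),
   .two (nat_lit 721420303) (nat_lit 11551113577) (.two (nat_lit 721420292) (nat_lit 8390756) (.two (nat_lit 8388609) (nat_lit 16780860) (.two (nat_lit 8388608) (nat_lit 10552875083) (.one (nat_lit 8396612) .nil)))),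
   .two (nat_lit 285212712) (nat_lit 20644364403) (.two (nat_lit 20644364301) (nat_lit 822083942) (.two (nat_lit 75497477) (nat_lit 2902459234) (.two (nat_lit 8388609) (nat_lit 156380434327) (.one (nat_lit 10544487001) .nil)))),
   .two (nat_lit 9781116943) (nat_lit 11006902400) (.two (nat_lit 754974728) (nat_lit 135266914) (.two (nat_lit 705691652) (nat_lit 822085149) (.two (nat_lit 1048576) (nat_lit 156481097624) (.one (nat_lit 2886736586) .nil)))),
   .two (nat_lit 4194319) (nat_lit 1283457142) (.two (nat_lit 68157448) (nat_lit 243270286) (.two (nat_lit 4601151493) (nat_lit 12617516366) (.two (nat_lit 4194305) (nat_lit 46473939473) (.two (nat_lit 4194304) (nat_lit 8393851) (.one (nat_lit 8396740) .nil))))),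
   .two (nat_lit 612368399) (nat_lit 21223178372) (.two (nat_lit 1358954504) (nat_lit 46514831992) (.two (nat_lit 721420292) (nat_lit 184423549472) (.two (nat_lit 16777216) (nat_lit 8394841) (.one (nat_lit 2105285) .nil)))),
   .two (nat_lit 809500687) (nat_lit 156532473969) (.two (nat_lit 4194312) (nat_lit 10007609948) (.two (nat_lit 46414168068) (nat_lit 608175461) (.two (nat_lit 156364701697) (nat_lit 2923432495) (.two (nat_lit 4194304) (nat_lit 1054810) (.one (nat_lit 4202438) .nil))))),
   .two (nat_lit 809500687) (nat_lit 2994733251) (.two (nat_lit 4194308) (nat_lit 156573369665) (.two (nat_lit 37748737) (nat_lit 839913363) (.one (nat_lit 1056711) .nil))),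
   .two (nat_lit 2961178639) (nat_lit 166230753391) (.two (nat_lit 4194312) (nat_lit 780141242) (.two (nat_lit 1343225861) (nat_lit 12117345612) (.two (nat_lit 9765388289) (nat_lit 184987683336) (.two (nat_lit 1048576) (nat_lit 847253407) (.one (nat_lit 28690094683) .nil))))),
   .two (nat_lit 4605345807) (nat_lit 37316722801) (.two (nat_lit 11559501832) (nat_lit 209715832) (.two (nat_lit 41943045) (nat_lit 21223179632) (.two (nat_lit 9768534017) (nat_lit 46481279504) (.two (nat_lit 4194304) (nat_lit 8394844) (.one (nat_lit 11010054816) .nil))))),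
   .two (nat_lit 11543773199) (nat_lit 1191182451) (.two (nat_lit 1191182349) (nat_lit 37313577664) (.two (nat_lit 1191182341) (nat_lit 185020187490) (.two (nat_lit 9781116929) (nat_lit 2920286754) (.two (nat_lit 16777216) (nat_lit 336598949) (.one (nat_lit 16785085) .nil))))),
   .two (nat_lit 3458203663) (nat_lit 2349858883) (.two (nat_lit 203423752) (nat_lit 13221496182) (.two (nat_lit 9766436865) (nat_lit 135268862) (.two (nat_lit 2097152) (nat_lit 183912895531) (.one (nat_lit 1056713) .nil)))),
   .two (nat_lit 184416206863) (nat_lit 1291845740) (.two (nat_lit 184416206856) (nat_lit 16778308) (.two (nat_lit 183845781508) (nat_lit 158158817359) (.two (nat_lit 34603009) (nat_lit 16781745) (.two (nat_lit 1048576) (nat_lit 20753422240) (.one (nat_lit 10503592574) .nil))))),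
   .two (nat_lit 11492392975) (nat_lit 28693233779) (.two (nat_lit 10506731532) (nat_lit 11492393826) (.two (nat_lit 37748737) (nat_lit 18941480855) (.one (nat_lit 19545463436) .nil))),
   .two (nat_lit 75497487) (nat_lit 184416206915) (.two (nat_lit 184993972232) (nat_lit 185020187331) (.two (nat_lit 713031684) (nat_lit 19127076962) (.two (nat_lit 50331649) (nat_lit 672141203) (.one (nat_lit 1056714) .nil)))),
   .two (nat_lit 2902458383) (nat_lit 174753579125) (.two (nat_lit 10519314440) (nat_lit 11007951714) (.two (nat_lit 2097153) (nat_lit 822085149) (.two (nat_lit 2097152) (nat_lit 165540794250) (.one (nat_lit 2105291) .nil)))),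
   .two (nat_lit 713031695) (nat_lit 9899606128) (.two (nat_lit 158075977736) (nat_lit 46481277289) (.two (nat_lit 41943045) (nat_lit 157038938642) (.two (nat_lit 8388608) (nat_lit 19599989385) .nil))),
   .two (nat_lit 285212687) (nat_lit 2956984579) (.two (nat_lit 4194312) (nat_lit 285213981) (.two (nat_lit 37748737) (nat_lit 3020951098) (.two (nat_lit 1048576) (nat_lit 10372518881) (.one (nat_lit 641736266) .nil)))),
   .two (nat_lit 8388623) (nat_lit 775946489) (.two (nat_lit 9940500488) (nat_lit 28758245733) (.two (nat_lit 708837381) (nat_lit 20711474483) (.two (nat_lit 4194305) (nat_lit 1283459631) (.two (nat_lit 2097152) (nat_lit 10909388691) (.one (nat_lit 639639169) .nil))))),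
   .two (nat_lit 620757007) (nat_lit 20644364996) (.two (nat_lit 184549381) (nat_lit 9974056258) (.two (nat_lit 8388609) (nat_lit 11559505796) (.one (nat_lit 202381897) .nil))),
   .two (nat_lit 16777231) (nat_lit 28693233774) (.two (nat_lit 4613734408) (nat_lit 19532874594) (.two (nat_lit 16777217) (nat_lit 185023334919) (.two (nat_lit 1048576) (nat_lit 272636522) .nil))),
   .two (nat_lit 654311439) (nat_lit 158144135278) (.two (nat_lit 165532401672) (nat_lit 2097861) (.two (nat_lit 2902458373) (nat_lit 874513252) (.two (nat_lit 16777217) (nat_lit 159251436668) (.one (nat_lit 2104078) .nil)))),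
   .two (nat_lit 813694991) (nat_lit 1191182447) (.two (nat_lit 8388616) (nat_lit 19142804112) (.two (nat_lit 176160772) (nat_lit 158177691709) (.two (nat_lit 2097153) (nat_lit 11593058829) (.two (nat_lit 16777216) (nat_lit 270538785) (.one (nat_lit 16785359) .nil))))),
   .two (nat_lit 8388623) (nat_lit 1413480567) (.two (nat_lit 41943048) (nat_lit 46477083299) (.two (nat_lit 8388612) (nat_lit 11614029125) (.two (nat_lit 41943041) (nat_lit 1212156429) (.two (nat_lit 4194304) (nat_lit 10351547356) (.one (nat_lit 12620667513) .nil))))),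
   .two (nat_lit 11479810063) (nat_lit 11477713016) (.two (nat_lit 606076936) (nat_lit 880805156) (.two (nat_lit 2097153) (nat_lit 4601156629) (.one (nat_lit 4202448) .nil))),
   .two (nat_lit 83886095) (nat_lit 3457155194) (.two (nat_lit 11559501832) (nat_lit 158143087244) (.two (nat_lit 8388613) (nat_lit 9948890397) (.two (nat_lit 612368385) (nat_lit 3524269133) (.one (nat_lit 1947212416) .nil)))),
   .two (nat_lit 9881780239) (nat_lit 2316304497) (.two (nat_lit 1745879048) (nat_lit 1426064034) (.two (nat_lit 183845781508) (nat_lit 1291846498) (.two (nat_lit 34603009) (nat_lit 185035919265) (.one (nat_lit 9915341456) .nil)))),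
   .two (nat_lit 184549391) (nat_lit 184987680895) (.two (nat_lit 2887778312) (nat_lit 285213285) (.two (nat_lit 184549380) (nat_lit 1277167682) (.two (nat_lit 2097153) (nat_lit 16780861) (.two (nat_lit 2097152) (nat_lit 1054818) (.one (nat_lit 1056721) .nil))))),
   .two (nat_lit 101711887) (nat_lit 158083317827) (.two (nat_lit 1913651208) (nat_lit 21785215842) (.two (nat_lit 34603009) (nat_lit 166136385422) (.one (nat_lit 8396754) .nil))),
   .two (nat_lit 2889875471) (nat_lit 183853121649) (.two (nat_lit 13195280392) (nat_lit 184989778282) (.two (nat_lit 272629765) (nat_lit 880804706) (.two (nat_lit 4194305) (nat_lit 880805405) (.two (nat_lit 4194304) (nat_lit 8392616) (.one (nat_lit 4201231) .nil))))),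
   .two (nat_lit 713031695) (nat_lit 20704133185) (.two (nat_lit 2887778312) (nat_lit 174759871115) (.two (nat_lit 34603013) (nat_lit 3028288797) (.two (nat_lit 2097153) (nat_lit 20637026830) (.two (nat_lit 2097152) (nat_lit 1054820) (.one (nat_lit 12048145054) .nil))))),
   .two (nat_lit 4601151503) (nat_lit 184986632324) (.two (nat_lit 12114198536) (nat_lit 306184387) (.two (nat_lit 11476664324) (nat_lit 4196455) (.two (nat_lit 9765388289) (nat_lit 1178601994) (.two (nat_lit 1048576) (nat_lit 2923436119) (.one (nat_lit 1056723) .nil))))),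
   .two (nat_lit 16777231) (nat_lit 606077285) (.two (nat_lit 11546918917) (nat_lit 1175455028) (.two (nat_lit 4194305) (nat_lit 168824371) (.two (nat_lit 16777216) (nat_lit 13191091323) (.one (nat_lit 4202453) .nil)))),
   .two (nat_lit 612368399) (nat_lit 46474985537) (.two (nat_lit 742391816) (nat_lit 174759870825) (.two (nat_lit 9768534021) (nat_lit 3525313379) (.two (nat_lit 2097153) (nat_lit 19033754117) (.two (nat_lit 4194304) (nat_lit 2103398) (.one (nat_lit 2105302) .nil))))),
   .two (nat_lit 713031695) (nat_lit 10552868986) (.two (nat_lit 822083592) (nat_lit 11517560173) (.two (nat_lit 16777217) (nat_lit 136320091) (.one (nat_lit 19128130194) .nil))),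
   .two (nat_lit 754974735) (nat_lit 157038936131) (.two (nat_lit 166132187144) (nat_lit 16778310) (.two (nat_lit 11492392965) (nat_lit 19532874594) (.two (nat_lit 16777217) (nat_lit 71305731) (.two (nat_lit 1048576) (nat_lit 1178604516) (.one (nat_lit 46510645116) .nil))))),
   .two (nat_lit 809500687) (nat_lit 4027581037) (.two (nat_lit 11479810053) (nat_lit 12617516327) (.two (nat_lit 4194305) (nat_lit 1745881638) (.two (nat_lit 8388608) (nat_lit 158146237480) (.one (nat_lit 4202456) .nil)))),
   .two (nat_lit 3458203663) (nat_lit 156971827313) (.two (nat_lit 3525312520) (nat_lit 1212154722) (.two (nat_lit 9766436865) (nat_lit 166199298581) (.two (nat_lit 2097152) (nat_lit 4200551) (.one (nat_lit 4202457) .nil)))),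
   .two (nat_lit 4601151503) (nat_lit 10907288218) (.two (nat_lit 11479810053) (nat_lit 156567078271) (.two (nat_lit 4194305) (nat_lit 159251432990) (.two (nat_lit 16777216) (nat_lit 158179791979) (.one (nat_lit 4202458) .nil)))),
   .two (nat_lit 12050235407) (nat_lit 9899606132) (.two (nat_lit 3460300808) (nat_lit 236978783) (.two (nat_lit 739246085) (nat_lit 9768536136) (.two (nat_lit 156365750273) (nat_lit 843058711) (.two (nat_lit 4194304) (nat_lit 1054824) (.one (nat_lit 2920291971) .nil))))),
   .two (nat_lit 9866051599) (nat_lit 156971827313) (.two (nat_lit 10369368072) (nat_lit 708838792) (.two (nat_lit 8388609) (nat_lit 165528210893) (.two (nat_lit 8388608) (nat_lit 1916802038) (.one (nat_lit 4202459) .nil)))),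
   .two (nat_lit 721420303) (nat_lit 184993972288) (.two (nat_lit 184993972232) (nat_lit 721421155) (.two (nat_lit 41943041) (nat_lit 21827162024) (.one (nat_lit 10544486991) .nil))),
   .two (nat_lit 176160783) (nat_lit 69206135) (.two (nat_lit 47555018760) (nat_lit 4599055204) (.two (nat_lit 8388609) (nat_lit 1746930190) (.two (nat_lit 16777216) (nat_lit 343939829) .nil))),
   .two (nat_lit 21793603599) (nat_lit 9899606081) (.two (nat_lit 809500680) (nat_lit 352321731) (.two (nat_lit 721420292) (nat_lit 71304514) (.two (nat_lit 50331649) (nat_lit 11543775752) (.two (nat_lit 1048576) (nat_lit 16781225) (.one (nat_lit 1056734) .nil))))),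
   .two (nat_lit 41943055) (nat_lit 13188989052) (.two (nat_lit 4605345800) (nat_lit 2887778929) (.two (nat_lit 11559501829) (nat_lit 1277166972) (.two (nat_lit 9781116929) (nat_lit 4034923022) (.two (nat_lit 16777216) (nat_lit 8393856) (.one (nat_lit 11525955261) .nil))))),
   .two (nat_lit 809500687) (nat_lit 13221494900) (.two (nat_lit 1913651208) (nat_lit 10370417296) (.two (nat_lit 9933160453) (nat_lit 47582283043) (.two (nat_lit 4194305) (nat_lit 1052223) (.two (nat_lit 4194304) (nat_lit 1054826) (.one (nat_lit 4201233) .nil))))),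
   .two (nat_lit 2902458383) (nat_lit 46980399710) (.two (nat_lit 4194308) (nat_lit 2969568797) (.two (nat_lit 4194304) (nat_lit 166144774040) (.one (nat_lit 1279269578) .nil))),
   .two (nat_lit 41943055) (nat_lit 318767223) (.two (nat_lit 9881780232) (nat_lit 9806284105) (.two (nat_lit 620756993) (nat_lit 184423550438) (.two (nat_lit 16777216) (nat_lit 8394861) (.one (nat_lit 16785376) .nil)))),
   .two (nat_lit 50331663) (nat_lit 183853121646) (.two (nat_lit 721420296) (nat_lit 11014242963) (.two (nat_lit 713031685) (nat_lit 822084898) (.two (nat_lit 41943041) (nat_lit 4613737894) (.two (nat_lit 1048576) (nat_lit 11484009583) (.one (nat_lit 839916249) .nil))))),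
   .two (nat_lit 8388623) (nat_lit 20705181763) (.two (nat_lit 47555018760) (nat_lit 28758245571) (.two (nat_lit 158144135173) (nat_lit 159224169760) (.two (nat_lit 606076929) (nat_lit 10007611902) (.two (nat_lit 8388608) (nat_lit 19530782569) (.one (nat_lit 3531611617) .nil))))),
   .two (nat_lit 1277165583) (nat_lit 9969860732) (.two (nat_lit 28758245384) (nat_lit 47550825080) (.two (nat_lit 9934209029) (nat_lit 2420114786) (.two (nat_lit 620756993) (nat_lit 4197952) (.two (nat_lit 16777216) (nat_lit 19128128623) (.one (nat_lit 3525320522) .nil))))),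
   .two (nat_lit 75497487) (nat_lit 21781020796) (.two (nat_lit 184993972232) (nat_lit 174688568674) (.two (nat_lit 620756993) (nat_lit 9802092036) (.two (nat_lit 16777216) (nat_lit 713036928) (.one (nat_lit 8396770) .nil)))),
   .two (nat_lit 620757007) (nat_lit 183953784949) (.two (nat_lit 9766436872) (nat_lit 184550690) (.two (nat_lit 41943041) (nat_lit 2102383) (.one (nat_lit 159257731013) .nil))),
   .two (nat_lit 2954887183) (nat_lit 2987393148) (.two (nat_lit 9934209032) (nat_lit 10939794061) (.two (nat_lit 169869316) (nat_lit 1050729) (.two (nat_lit 16777217) (nat_lit 1343227422) (.two (nat_lit 16777216) (nat_lit 28691141702) (.one (nat_lit 2104082) .nil))))),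
   .two (nat_lit 2887778319) (nat_lit 1916797036) (.two (nat_lit 2887778312) (nat_lit 156535620289) (.two (nat_lit 2887778308) (nat_lit 235930990) (.two (nat_lit 156367847425) (nat_lit 156567080371) (.two (nat_lit 1048576) (nat_lit 2103406) (.one (nat_lit 10503592547) .nil))))),
   .two (nat_lit 10385096719) (nat_lit 1276117106) (.two (nat_lit 9866051592) (nat_lit 8389704) (.two (nat_lit 1291845636) (nat_lit 10335814982) (.two (nat_lit 620756993) (nat_lit 157035795552) (.one (nat_lit 1056739) .nil)))),
   .two (nat_lit 19532873743) (nat_lit 165540790914) (.two (nat_lit 157038936069) (nat_lit 47596963181) (.two (nat_lit 9768534017) (nat_lit 2902462342) (.one (nat_lit 2365592892) .nil))),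
   .two (nat_lit 83886095) (nat_lit 156372041923) (.two (nat_lit 8388612) (nat_lit 11559503390) (.two (nat_lit 8388608) (nat_lit 47596965781) (.one (nat_lit 8396772) .nil))),
   .two (nat_lit 169869327) (nat_lit 11618222188) (.two (nat_lit 12114198536) (nat_lit 10907288176) (.two (nat_lit 209715205) (nat_lit 12115248479) (.two (nat_lit 605028353) (nat_lit 1310722607) (.two (nat_lit 1048576) (nat_lit 2103407) (.one (nat_lit 1056741) .nil))))),
   .two (nat_lit 713031695) (nat_lit 1846542402) (.two (nat_lit 21785214984) (nat_lit 873464167) (.two (nat_lit 174752530437) (nat_lit 8390762) (.two (nat_lit 41943041) (nat_lit 12047093165) (.two (nat_lit 1048576) (nat_lit 46414173252) (.one (nat_lit 12617521785) .nil))))),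
   .two (nat_lit 754974735) (nat_lit 37246468212) (.two (nat_lit 12047089672) (nat_lit 117441378) (.two (nat_lit 34603009) (nat_lit 165540794265) (.one (nat_lit 2969574098) .nil))),
   .two (nat_lit 176160783) (nat_lit 4601151683) (.two (nat_lit 176160772) (nat_lit 46507492196) (.two (nat_lit 34603009) (nat_lit 4198838) (.two (nat_lit 1048576) (nat_lit 8394865) (.one (nat_lit 8396777) .nil)))),
   .two (nat_lit 218103823) (nat_lit 19599982709) (.two (nat_lit 9781116936) (nat_lit 157038936930) (.two (nat_lit 4194305) (nat_lit 19612569486) (.one (nat_lit 16784147) .nil))),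
   .two (nat_lit 721420303) (nat_lit 1277165684) (.two (nat_lit 1358954504) (nat_lit 156567077556) (.two (nat_lit 9881780229) (nat_lit 19094570358) (.two (nat_lit 34603009) (nat_lit 11007953421) (.two (nat_lit 1048576) (nat_lit 166144774035) (.one (nat_lit 16785386) .nil))))),
   .two (nat_lit 9948889103) (nat_lit 1310720066) (.two (nat_lit 20638072840) (nat_lit 158192370338) (.two (nat_lit 159217876997) (nat_lit 620757858) (.two (nat_lit 606076929) (nat_lit 2969571235) (.one (nat_lit 11477719628) .nil)))),
   .two (nat_lit 2887778319) (nat_lit 10343153731) (.two (nat_lit 2887778312) (nat_lit 159224168643) (.two (nat_lit 2097157) (nat_lit 3464497663) (.two (nat_lit 1048576) (nat_lit 12624861173) (.one (nat_lit 2105323) .nil)))),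
   .two (nat_lit 2969567247) (nat_lit 47548727491) (.two (nat_lit 2097157) (nat_lit 158662133039) (.two (nat_lit 34603009) (nat_lit 12148804103) (.two (nat_lit 1048576) (nat_lit 12148805512) (.one (nat_lit 16785388) .nil)))),
   .two (nat_lit 9881780239) (nat_lit 11476664681) (.two (nat_lit 1291845636) (nat_lit 101713971) (.two (nat_lit 9781116929) (nat_lit 185020190142) (.two (nat_lit 1048576) (nat_lit 16782468) (.one (nat_lit 9966722720) .nil)))),
   .two (nat_lit 654311439) (nat_lit 13188989046) (.two (nat_lit 183848927240) (nat_lit 2961178983) (.two (nat_lit 2902458372) (nat_lit 272631103) (.two (nat_lit 41943041) (nat_lit 3558872102) (.one (nat_lit 4202477) .nil)))),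
   .two (nat_lit 2889875471) (nat_lit 174753579118) (.two (nat_lit 165526110216) (nat_lit 156569174882) (.two (nat_lit 606076929) (nat_lit 166199298597) (.two (nat_lit 2097152) (nat_lit 3460304786) (.one (nat_lit 156468517511) .nil)))),
   .two (nat_lit 2954887183) (nat_lit 2316304496) (.two (nat_lit 37748744) (nat_lit 806356360) (.two (nat_lit 37748737) (nat_lit 1913655189) (.one (nat_lit 4202478) .nil))),
   .two (nat_lit 50331663) (nat_lit 159257723514) (.two (nat_lit 16777220) (nat_lit 11551115357) (.two (nat_lit 41943041) (nat_lit 9948891670) (.two (nat_lit 8388608) (nat_lit 16783478) (.one (nat_lit 8396784) .nil)))),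
   .two (nat_lit 3458203663) (nat_lit 158143086656) (.two (nat_lit 10336862216) (nat_lit 20704133315) (.two (nat_lit 166130089988) (nat_lit 9933161775) (.two (nat_lit 9766436865) (nat_lit 11476666895) (.two (nat_lit 2097152) (nat_lit 1054839) (.one (nat_lit 2105330) .nil))))),
   .two (nat_lit 1795162127) (nat_lit 28790751350) (.two (nat_lit 46407876616) (nat_lit 183861511537) (.two (nat_lit 2097153) (nat_lit 1191184895) (.two (nat_lit 2097152) (nat_lit 9948895260) (.one (nat_lit 807410373) .nil)))),
   .two (nat_lit 184549391) (nat_lit 3464495170) (.two (nat_lit 4605345805) (nat_lit 37329306231) (.two (nat_lit 184549380) (nat_lit 20711475269) (.two (nat_lit 8388609) (nat_lit 11559504406) (.two (nat_lit 8388608) (nat_lit 158662137816) (.one (nat_lit 19033759312) .nil))))),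
   .two (nat_lit 176160783) (nat_lit 11513364593) (.two (nat_lit 13191086088) (nat_lit 10007610210) (.two (nat_lit 8388609) (nat_lit 28089259322) .nil)),
   .two (nat_lit 50331663) (nat_lit 37316722823) (.two (nat_lit 822083592) (nat_lit 11479810740) (.two (nat_lit 16777220) (nat_lit 10947134855) (.two (nat_lit 37748737) (nat_lit 9906951296) (.one (nat_lit 28089260745) .nil)))),
   .two (nat_lit 13203669007) (nat_lit 775946373) (.two (nat_lit 10336862216) (nat_lit 21827158648) (.two (nat_lit 46407876612) (nat_lit 183916037507) (.two (nat_lit 2097153) (nat_lit 10003420215) (.one (nat_lit 4202486) .nil)))),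
   .two (nat_lit 9866051599) (nat_lit 156372041841) (.two (nat_lit 9866051592) (nat_lit 46414168680) (.two (nat_lit 1276116996) (nat_lit 310380591) (.two (nat_lit 605028353) (nat_lit 3464497665) (.two (nat_lit 1048576) (nat_lit 8394872) (.one (nat_lit 12617521790) .nil))))),
   .two (nat_lit 2889875471) (nat_lit 28093448329) (.two (nat_lit 9866051592) (nat_lit 813695338) (.two (nat_lit 9933160453) (nat_lit 158083318626) (.two (nat_lit 4194305) (nat_lit 4638902816) (.two (nat_lit 1048576) (nat_lit 4034924455) (.one (nat_lit 8396791) .nil))))),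
   .two (nat_lit 158075977743) (nat_lit 21814575228) (.two (nat_lit 28086108168) (nat_lit 11546919544) (.two (nat_lit 21777874949) (nat_lit 156535620962) (.two (nat_lit 612368385) (nat_lit 843058602) (.two (nat_lit 8388608) (nat_lit 183845788414) .nil)))),
   .two (nat_lit 620757007) (nat_lit 19100860776) (.two (nat_lit 47555018757) (nat_lit 16779371) (.two (nat_lit 8388609) (nat_lit 318769679) (.two (nat_lit 8388608) (nat_lit 9781122116) (.one (nat_lit 8396792) .nil)))),
   .two (nat_lit 1358954511) (nat_lit 20707278975) (.two (nat_lit 37748744) (nat_lit 83887396) (.two (nat_lit 50331649) (nat_lit 13191089710) (.two (nat_lit 2097152) (nat_lit 4200569) (.one (nat_lit 2105338) .nil)))),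
   .two (nat_lit 4194319) (nat_lit 50331715) (.two (nat_lit 83886088) (nat_lit 3557818985) (.two (nat_lit 50331653) (nat_lit 37249615941) (.two (nat_lit 50331649) (nat_lit 174752535518) (.one (nat_lit 166132194864) .nil)))),
   .two (nat_lit 1350565903) (nat_lit 1780482310) (.two (nat_lit 10336862216) (nat_lit 174692761961) (.two (nat_lit 46407876612) (nat_lit 1350568022) (.two (nat_lit 2097153) (nat_lit 18928897500) (.two (nat_lit 8388608) (nat_lit 3560968071) (.one (nat_lit 157043137272) .nil))))),
   .two (nat_lit 50331663) (nat_lit 1182794397) (.two (nat_lit 83886085) (nat_lit 12624857158) (.two (nat_lit 612368385) (nat_lit 11559503389) (.two (nat_lit 8388608) (nat_lit 21827162024) (.one (nat_lit 1182800653) .nil)))),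
   .two (nat_lit 13195280399) (nat_lit 46510637414) (.two (nat_lit 809500677) (nat_lit 343933795) (.two (nat_lit 37748737) (nat_lit 343934494) (.two (nat_lit 8388608) (nat_lit 9969865752) (.one (nat_lit 37755655) .nil)))),
   .two (nat_lit 9781116943) (nat_lit 166237044874) (.two (nat_lit 9781116936) (nat_lit 184423547968) (.two (nat_lit 2902458372) (nat_lit 18933089578) (.two (nat_lit 16777217) (nat_lit 156372045700) (.one (nat_lit 28757203592) .nil)))),
   .two (nat_lit 4194319) (nat_lit 16777820) (.two (nat_lit 654311429) (nat_lit 28757198151) (.two (nat_lit 37748737) (nat_lit 12147755567) (.two (nat_lit 4194304) (nat_lit 1054843) (.one (nat_lit 1056763) .nil)))),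
   .two (nat_lit 1779433487) (nat_lit 4034921131) (.two (nat_lit 101711877) (nat_lit 746587522) (.two (nat_lit 605028353) (nat_lit 19537070627) (.two (nat_lit 1048576) (nat_lit 46414173305) (.one (nat_lit 10007616241) .nil)))),
   .two (nat_lit 41943055) (nat_lit 50332263) (.two (nat_lit 184549381) (nat_lit 13195281250) (.two (nat_lit 16777217) (nat_lit 10376710681) (.two (nat_lit 8388608) (nat_lit 16783484) (.one (nat_lit 176168595) .nil)))),
   .two (nat_lit 713031695) (nat_lit 10436477045) (.two (nat_lit 713031688) (nat_lit 605029009) (.two (nat_lit 713031684) (nat_lit 1947206498) (.two (nat_lit 2097153) (nat_lit 343934493) (.two (nat_lit 1048576) (nat_lit 136321639) .nil)))),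
   .two (nat_lit 218103823) (nat_lit 136315012) (.two (nat_lit 10336862216) (nat_lit 183861510504) (.two (nat_lit 34603013) (nat_lit 620758310) (.two (nat_lit 2097153) (nat_lit 10016001577) (.two (nat_lit 2097152) (nat_lit 822090416) .nil)))),
   .two (nat_lit 12117344271) (nat_lit 21207449666) (.two (nat_lit 184419352584) (nat_lit 2416968348) (.two (nat_lit 158143086597) (nat_lit 11614029114) (.two (nat_lit 605028353) (nat_lit 4198840) (.two (nat_lit 1048576) (nat_lit 19599988755) (.one (nat_lit 303045204) .nil))))),
   .two (nat_lit 276824079) (nat_lit 10437525625) (.two (nat_lit 169869320) (nat_lit 19537068644) (.two (nat_lit 9934209029) (nat_lit 166196151638) (.two (nat_lit 606076929) (nat_lit 813698483) (.two (nat_lit 1048576) (nat_lit 158653748202) (.one (nat_lit 4631568380) .nil))))),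
   .two (nat_lit 2961178639) (nat_lit 20705181806) (.two (nat_lit 205520904) (nat_lit 780140901) (.two (nat_lit 171966469) (nat_lit 9772729675) (.two (nat_lit 605028353) (nat_lit 156367851407) (.one (nat_lit 2105342) .nil)))),
   .two (nat_lit 713031695) (nat_lit 28791800065) (.two (nat_lit 20638072840) (nat_lit 37253809494) (.two (nat_lit 612368385) (nat_lit 3021999551) (.two (nat_lit 8388608) (nat_lit 10940848791) .nil))),
   .two (nat_lit 184549391) (nat_lit 19026411882) (.two (nat_lit 16777221) (nat_lit 21811430242) (.two (nat_lit 16777217) (nat_lit 157035792907) (.two (nat_lit 1048576) (nat_lit 184419357751) (.one (nat_lit 1055508) .nil)))),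
   .two (nat_lit 184993972239) (nat_lit 12617515075) (.two (nat_lit 184993972232) (nat_lit 1049673) (.two (nat_lit 12054429701) (nat_lit 2953840655) (.two (nat_lit 612368385) (nat_lit 1053114) (.two (nat_lit 8388608) (nat_lit 1054849) (.one (nat_lit 1056767) .nil))))),
   .two (nat_lit 2969567247) (nat_lit 21208498290) (.two (nat_lit 2969567240) (nat_lit 1847591587) (.two (nat_lit 159217876997) (nat_lit 754977299) (.two (nat_lit 2097152) (nat_lit 28089259071) (.one (nat_lit 2350914184) .nil)))),
   .two (nat_lit 184416206863) (nat_lit 880803965) (.two (nat_lit 184416206856) (nat_lit 8389706) (.two (nat_lit 12114198533) (nat_lit 8390767) (.two (nat_lit 156364701697) (nat_lit 156573371972) (.two (nat_lit 8388608) (nat_lit 1175459883) (.one (nat_lit 8396800) .nil))))),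
   .two (nat_lit 1358954511) (nat_lit 2316305251) (.two (nat_lit 605028353) (nat_lit 2332037030) (.one (nat_lit 28690094747) .nil)),
   .two (nat_lit 272629775) (nat_lit 46406828153) (.two (nat_lit 11543773192) (nat_lit 184989778280) (.two (nat_lit 184549380) (nat_lit 10503587129) (.two (nat_lit 16777217) (nat_lit 843058673) (.two (nat_lit 8388608) (nat_lit 28772932266) .nil)))),
   .two (nat_lit 156372041743) (nat_lit 47547678840) (.two (nat_lit 156372041736) (nat_lit 705692312) (.two (nat_lit 612368389) (nat_lit 4631562345) (.two (nat_lit 9768534017) (nat_lit 13195282971) (.two (nat_lit 4194304) (nat_lit 8394884) (.one (nat_lit 1056771) .nil))))),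
   .two (nat_lit 1350565903) (nat_lit 2332033150) (.two (nat_lit 4605345800) (nat_lit 1312818247) (.two (nat_lit 9948889093) (nat_lit 8390769) (.two (nat_lit 612368385) (nat_lit 2432699973) (.two (nat_lit 4194304) (nat_lit 16783493) (.one (nat_lit 1795168976) .nil))))),
   .two (nat_lit 1343225871) (nat_lit 19096666307) (.two (nat_lit 705691652) (nat_lit 1413481780) (.two (nat_lit 34603009) (nat_lit 19029560853) (.two (nat_lit 8388608) (nat_lit 2920290900) .nil))),
   .two (nat_lit 176160783) (nat_lit 158144135278) (.two (nat_lit 47555018760) (nat_lit 10504635776) (.two (nat_lit 606076929) (nat_lit 9806286741) (.one (nat_lit 2105351) .nil))),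
   .two (nat_lit 272629775) (nat_lit 12114198594) (.two (nat_lit 13191086088) (nat_lit 183912891235) (.two (nat_lit 4194305) (nat_lit 9933163015) (.two (nat_lit 4194304) (nat_lit 156566032280) (.one (nat_lit 12617521919) .nil)))),
   .two (nat_lit 713031695) (nat_lit 1846542402) (.two (nat_lit 21785214984) (nat_lit 873464167) (.two (nat_lit 13195280389) (nat_lit 1050738) (.two (nat_lit 41943041) (nat_lit 12047093165) (.two (nat_lit 1048576) (nat_lit 8394888) (.one (nat_lit 12617521785) .nil))))),
   .two (nat_lit 176160783) (nat_lit 843055299) (.two (nat_lit 183848927236) (nat_lit 166203491716) (.two (nat_lit 612368385) (nat_lit 4198845) (.two (nat_lit 8388608) (nat_lit 11479816270) (.one (nat_lit 8395541) .nil)))),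
   .two (nat_lit 218103823) (nat_lit 3525312579) (.two (nat_lit 46978301960) (nat_lit 654312290) (.two (nat_lit 2097153) (nat_lit 28101840793) (.one (nat_lit 1411390059) .nil))),
   .two (nat_lit 721420303) (nat_lit 158083317873) (.two (nat_lit 75497480) (nat_lit 83886946) (.two (nat_lit 41943041) (nat_lit 2365591436) (.one (nat_lit 687872674) .nil))),
   .two (nat_lit 11492392975) (nat_lit 183920230674) (.two (nat_lit 16777224) (nat_lit 13195280579) (.two (nat_lit 8388612) (nat_lit 2902459682) (.two (nat_lit 8388609) (nat_lit 16780872) (.two (nat_lit 16777216) (nat_lit 8394892) (.one (nat_lit 13228841698) .nil))))),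
   .two (nat_lit 285212687) (nat_lit 2923429955) (.two (nat_lit 4601151496) (nat_lit 12633244280) (.two (nat_lit 4194308) (nat_lit 166211881504) (.two (nat_lit 4194304) (nat_lit 16782469) (.one (nat_lit 16785418) .nil)))),
   .two (nat_lit 2969567247) (nat_lit 47548727363) (.two (nat_lit 218103816) (nat_lit 3525312875) (.two (nat_lit 3525312517) (nat_lit 166199298097) (.two (nat_lit 2097153) (nat_lit 1782581763) (.two (nat_lit 2097152) (nat_lit 28760346508) (.one (nat_lit 11544828575) .nil))))),
   .two (nat_lit 183848927247) (nat_lit 218103916) (.two (nat_lit 183848927240) (nat_lit 620758314) (.two (nat_lit 37748737) (nat_lit 620760964) (.one (nat_lit 2889882330) .nil))),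
   .two (nat_lit 754974735) (nat_lit 46980399218) (.two (nat_lit 46409973768) (nat_lit 889193837) (.two (nat_lit 4194305) (nat_lit 174768263078) (.one (nat_lit 159219980921) .nil))),
   .two (nat_lit 41943055) (nat_lit 19532873839) (.two (nat_lit 276824072) (nat_lit 12620662132) (.two (nat_lit 37748737) (nat_lit 3028289054) (.two (nat_lit 1048576) (nat_lit 8393862) (.one (nat_lit 183953792549) .nil)))),
   .two (nat_lit 11492392975) (nat_lit 9899606141) (.two (nat_lit 754974728) (nat_lit 174752531122) (.two (nat_lit 11559501829) (nat_lit 158646405149) (.two (nat_lit 50331649) (nat_lit 158075981229) (.two (nat_lit 16777216) (nat_lit 183845787511) (.one (nat_lit 1056779) .nil))))),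
   .two (nat_lit 4194319) (nat_lit 46481277047) (.two (nat_lit 205520904) (nat_lit 21208498872) (.two (nat_lit 270532613) (nat_lit 183949591888) (.two (nat_lit 34603009) (nat_lit 9799993859) (.two (nat_lit 1048576) (nat_lit 4200318) (.one (nat_lit 8396812) .nil))))),
   .two (nat_lit 8388623) (nat_lit 46474985607) (.two (nat_lit 176160776) (nat_lit 183913939565) (.two (nat_lit 176160772) (nat_lit 46474987038) (.two (nat_lit 16777216) (nat_lit 158653747091) (.one (nat_lit 169877401) .nil)))),
   .two (nat_lit 9768534031) (nat_lit 183946444908) (.two (nat_lit 3525312520) (nat_lit 20707279540) (.two (nat_lit 3458203653) (nat_lit 21811430791) (.two (nat_lit 9766436865) (nat_lit 9869200848) (.two (nat_lit 4194304) (nat_lit 2103438) (.one (nat_lit 9766443745) .nil))))),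
   .two (nat_lit 2889875471) (nat_lit 12155093120) (.two (nat_lit 46414168072) (nat_lit 1950352748) (.two (nat_lit 156372041729) (nat_lit 71308366) (.one (nat_lit 4202510) .nil))),
   .two (nat_lit 184549391) (nat_lit 174686470259) (.two (nat_lit 184549384) (nat_lit 673186407) (.two (nat_lit 184549380) (nat_lit 673186658) (.two (nat_lit 2097153) (nat_lit 150998950) (.one (nat_lit 2105359) .nil)))),
   .two (nat_lit 2954887183) (nat_lit 10506731715) (.two (nat_lit 169869316) (nat_lit 171967795) (.two (nat_lit 2097153) (nat_lit 166132190714) (.two (nat_lit 2097152) (nat_lit 4030732424) (.one (nat_lit 46407883427) .nil)))),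
   .two (nat_lit 184993972239) (nat_lit 1410334839) (.two (nat_lit 10939793416) (nat_lit 4034921828) (.two (nat_lit 9765388289) (nat_lit 10007611930) (.two (nat_lit 1048576) (nat_lit 8394896) (.one (nat_lit 46977260216) .nil)))),
   .two (nat_lit 169869327) (nat_lit 3028287554) (.two (nat_lit 176160776) (nat_lit 10437526121) (.two (nat_lit 8388613) (nat_lit 37247518021) (.two (nat_lit 606076929) (nat_lit 1853884935) (.two (nat_lit 8388608) (nat_lit 183913942928) (.one (nat_lit 8396817) .nil))))),
   .two (nat_lit 639631375) (nat_lit 156372041836) (.two (nat_lit 10504634376) (nat_lit 46414168742) (.two (nat_lit 1277165573) (nat_lit 4605348351) (.two (nat_lit 2097152) (nat_lit 1853887470) (.one (nat_lit 183853129283) .nil)))),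
   .two (nat_lit 1191182351) (nat_lit 10370416707) (.two (nat_lit 9781116941) (nat_lit 673186485) (.two (nat_lit 9781116933) (nat_lit 158077027641) (.two (nat_lit 50331649) (nat_lit 673189434) (.two (nat_lit 16777216) (nat_lit 2103442) (.one (nat_lit 16785426) .nil))))),
   .two (nat_lit 9881780248) (nat_lit 10336862275) (.two (nat_lit 20638072840) (nat_lit 117441178) (.two (nat_lit 159217876997) (nat_lit 721421606) (.two (nat_lit 606076929) (nat_lit 721421854) (.two (nat_lit 8388608) (nat_lit 2102407) (.one (nat_lit 2105363) .nil))))),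
   .two (nat_lit 8388623) (nat_lit 1746927752) (.two (nat_lit 8388616) (nat_lit 19128124450) (.two (nat_lit 176160772) (nat_lit 158144136489) (.two (nat_lit 37748737) (nat_lit 158183983632) (.two (nat_lit 4194304) (nat_lit 8394899) (.one (nat_lit 4202516) .nil))))),
   .two (nat_lit 19599982607) (nat_lit 183845782198) (.two (nat_lit 183848927236) (nat_lit 19127076190) (.two (nat_lit 37748737) (nat_lit 11510223891) (.one (nat_lit 1056789) .nil))),
   .two (nat_lit 46984593423) (nat_lit 721420400) (.two (nat_lit 156372041736) (nat_lit 11626611328) (.two (nat_lit 3531603973) (nat_lit 83887401) (.two (nat_lit 156364701697) (nat_lit 2365590999) (.two (nat_lit 2097152) (nat_lit 1054631) (.one (nat_lit 1056790) .nil))))),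
   .two (nat_lit 16777231) (nat_lit 183853121601) (.two (nat_lit 16777224) (nat_lit 183920231766) (.two (nat_lit 41943041) (nat_lit 11593060242) (.one (nat_lit 83892988) .nil))),
   .two (nat_lit 612368399) (nat_lit 166130090100) (.two (nat_lit 2887778312) (nat_lit 184993973310) (.two (nat_lit 176160772) (nat_lit 2099253) (.two (nat_lit 2097153) (nat_lit 20644366874) (.two (nat_lit 1048576) (nat_lit 1182798878) (.one (nat_lit 1056791) .nil))))),
   .two (nat_lit 41943055) (nat_lit 10437525625) (.two (nat_lit 754974728) (nat_lit 183846830439) (.two (nat_lit 2902458372) (nat_lit 13188990262) (.two (nat_lit 8388609) (nat_lit 874514949) (.two (nat_lit 8388608) (nat_lit 156481099714) (.one (nat_lit 166130097817) .nil))))),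
   .two (nat_lit 165526110223) (nat_lit 10921968131) (.two (nat_lit 174753579016) (nat_lit 158662133128) (.two (nat_lit 606076929) (nat_lit 158158819218) (.one (nat_lit 1761614519) .nil))),
   .two (nat_lit 285212687) (nat_lit 104857722) (.two (nat_lit 18928893960) (nat_lit 21793604964) (.two (nat_lit 37748737) (nat_lit 11626615872) (.one (nat_lit 16784150) .nil))),
   .two (nat_lit 639631375) (nat_lit 166203490442) (.two (nat_lit 157043130376) (nat_lit 11614028450) (.two (nat_lit 69206021) (nat_lit 1417676061) (.two (nat_lit 9781116929) (nat_lit 675286925) (.one (nat_lit 21814581885) .nil)))),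
   .two (nat_lit 203423759) (nat_lit 2987393149) (.two (nat_lit 705691656) (nat_lit 13195281695) (.two (nat_lit 41943041) (nat_lit 158646406647) (.two (nat_lit 1048576) (nat_lit 136320131) (.one (nat_lit 183913947097) .nil)))),
   .two (nat_lit 11492392975) (nat_lit 9900654720) (.two (nat_lit 754974728) (nat_lit 13188989592) (.two (nat_lit 159224168453) (nat_lit 4028630302) (.two (nat_lit 612368385) (nat_lit 28758247962) (.two (nat_lit 16777216) (nat_lit 2102408) (.one (nat_lit 11593063058) .nil))))),
   .two (nat_lit 1358954511) (nat_lit 606077040) (.two (nat_lit 620757000) (nat_lit 166199296361) (.two (nat_lit 721420293) (nat_lit 4196467) (.two (nat_lit 50331649) (nat_lit 4198846) (.two (nat_lit 4194304) (nat_lit 2103451) (.one (nat_lit 2105369) .nil))))),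
   .two (nat_lit 75497487) (nat_lit 159217877187) (.two (nat_lit 612368389) (nat_lit 184417256754) (.two (nat_lit 41943041) (nat_lit 2099728) (.two (nat_lit 8388608) (nat_lit 166199302043) (.one (nat_lit 4202522) .nil)))),
   .two (nat_lit 176160783) (nat_lit 46523220088) (.two (nat_lit 9781116936) (nat_lit 10007609701) (.two (nat_lit 11492392965) (nat_lit 159224169758) (.two (nat_lit 16777217) (nat_lit 2961183744) (.one (nat_lit 168827494) .nil)))),
   .two (nat_lit 620757007) (nat_lit 3565158519) (.two (nat_lit 184423546888) (nat_lit 3003122336) (.two (nat_lit 12121538565) (nat_lit 50332967) (.two (nat_lit 41943041) (nat_lit 620759571) (.two (nat_lit 1048576) (nat_lit 9806289544) .nil)))),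
   .two (nat_lit 713031695) (nat_lit 772800757) (.two (nat_lit 184993972232) (nat_lit 185020188190) (.two (nat_lit 1048576) (nat_lit 8394913) (.one (nat_lit 158143093370) .nil))),
   .two (nat_lit 169869327) (nat_lit 880803949) (.two (nat_lit 28758245384) (nat_lit 1049287) (.two (nat_lit 209715205) (nat_lit 184987682100) (.two (nat_lit 612368385) (nat_lit 9899611260) (.one (nat_lit 1056795) .nil)))),
   .two (nat_lit 12047089679) (nat_lit 19532873795) (.two (nat_lit 12047089672) (nat_lit 157038936421) (.two (nat_lit 184986632197) (nat_lit 185023333750) (.two (nat_lit 34603009) (nat_lit 1782582798) (.two (nat_lit 1048576) (nat_lit 4200610) (.one (nat_lit 185023340091) .nil))))),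
   .two (nat_lit 9948889103) (nat_lit 12617515121) (.two (nat_lit 739246088) (nat_lit 620757858) (.two (nat_lit 620756993) (nat_lit 28757199390) (.two (nat_lit 1048576) (nat_lit 11022636006) (.one (nat_lit 1056330) .nil)))),
   .two (nat_lit 713031695) (nat_lit 1178599546) (.two (nat_lit 1749024776) (nat_lit 1417675618) (.two (nat_lit 41943041) (nat_lit 158146236326) (.one (nat_lit 4202524) .nil))),
   .two (nat_lit 2954887183) (nat_lit 20644364893) (.two (nat_lit 169869316) (nat_lit 3028290047) (.two (nat_lit 2097152) (nat_lit 8394917) (.one (nat_lit 12048144982) .nil))),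
   .two (nat_lit 2954887183) (nat_lit 41943700) (.two (nat_lit 169869316) (nat_lit 3028288802) (.two (nat_lit 2097153) (nat_lit 4605349448) (.two (nat_lit 16777216) (nat_lit 18926803544) .nil))),
   .two (nat_lit 176160783) (nat_lit 150995066) (.two (nat_lit 285212680) (nat_lit 9866053150) (.two (nat_lit 16777216) (nat_lit 10376715012) .nil)),
   .two (nat_lit 2902458383) (nat_lit 184419352690) (.two (nat_lit 183848927240) (nat_lit 1426064765) (.two (nat_lit 37748737) (nat_lit 159232562261) (.one (nat_lit 16785438) .nil))),
   .two (nat_lit 9781116943) (nat_lit 183848927342) (.two (nat_lit 12050235400) (nat_lit 2902458725) (.two (nat_lit 708837381) (nat_lit 2969569790) (.two (nat_lit 2097152) (nat_lit 12163486683) (.one (nat_lit 16785439) .nil)))),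
   .two (nat_lit 9866051599) (nat_lit 807403646) (.two (nat_lit 158143086600) (nat_lit 3458204338) (.two (nat_lit 21207449605) (nat_lit 840960083) (.two (nat_lit 605028353) (nat_lit 807407172) (.two (nat_lit 1048576) (nat_lit 11544827902) (.one (nat_lit 11477720797) .nil))))),
   .two (nat_lit 272629775) (nat_lit 184993972289) (.two (nat_lit 4601151496) (nat_lit 21785215842) (.two (nat_lit 8388609) (nat_lit 47584382872) (.one (nat_lit 4202528) .nil))),
   .two (nat_lit 37748751) (nat_lit 3028287555) (.two (nat_lit 37748744) (nat_lit 2357199207) (.two (nat_lit 11479810053) (nat_lit 2357200197) (.two (nat_lit 8388609) (nat_lit 158079126037) (.two (nat_lit 8388608) (nat_lit 37316726669) (.one (nat_lit 185023339280) .nil))))),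
   .two (nat_lit 50331663) (nat_lit 3020947577) (.two (nat_lit 1358954504) (nat_lit 2349859512) (.two (nat_lit 605028357) (nat_lit 28806481225) (.two (nat_lit 4194305) (nat_lit 739248654) (.two (nat_lit 4194304) (nat_lit 1054887) (.one (nat_lit 4202529) .nil))))),
   .two (nat_lit 11479810063) (nat_lit 158176641145) (.two (nat_lit 1916796936) (nat_lit 1049676) (.two (nat_lit 806354949) (nat_lit 2319452679) (.two (nat_lit 1048576) (nat_lit 21781024647) (.one (nat_lit 20637032286) .nil)))),
   .two (nat_lit 8388623) (nat_lit 11513364588) (.two (nat_lit 8388616) (nat_lit 13224641107) (.two (nat_lit 8388612) (nat_lit 13224641821) (.two (nat_lit 8388609) (nat_lit 28760346023) (.two (nat_lit 16777216) (nat_lit 166136388182) .nil)))),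
   .two (nat_lit 639631375) (nat_lit 672137352) (.two (nat_lit 184416206856) (nat_lit 185021235862) (.two (nat_lit 2956984325) (nat_lit 47548728636) (.two (nat_lit 4194305) (nat_lit 1411385872) (.two (nat_lit 2097152) (nat_lit 1779439693) (.one (nat_lit 739254174) .nil))))),
   .two (nat_lit 612368399) (nat_lit 2923429955) (.two (nat_lit 612368392) (nat_lit 4195017) (.two (nat_lit 46414168068) (nat_lit 4634707230) (.two (nat_lit 8388609) (nat_lit 28693236250) (.two (nat_lit 2097152) (nat_lit 37253812115) (.one (nat_lit 8396834) .nil))))),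
   .two (nat_lit 20644364303) (nat_lit 19027460206) (.two (nat_lit 157036838920) (nat_lit 165532402531) (.two (nat_lit 2097153) (nat_lit 158150430616) (.one (nat_lit 184987687626) .nil))),
   .two (nat_lit 8388623) (nat_lit 9899606083) (.two (nat_lit 41943048) (nat_lit 1376780645) (.two (nat_lit 8388612) (nat_lit 156532475254) (.two (nat_lit 41943041) (nat_lit 166129043983) (.two (nat_lit 8388608) (nat_lit 1054890) (.one (nat_lit 156465371767) .nil))))),
   .two (nat_lit 117440527) (nat_lit 739246212) (.two (nat_lit 19596836872) (nat_lit 12129927881) (.two (nat_lit 156968681477) (nat_lit 9982444857) (.two (nat_lit 34603009) (nat_lit 2969569818) (.two (nat_lit 8388608) (nat_lit 68164200) .nil)))),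
   .two (nat_lit 612368399) (nat_lit 11577327725) (.two (nat_lit 184986632200) (nat_lit 4034921151) (.two (nat_lit 75497477) (nat_lit 12114199936) (.two (nat_lit 612368385) (nat_lit 1343229485) (.two (nat_lit 8388608) (nat_lit 1054892) (.one (nat_lit 12121545318) .nil))))),
   .two (nat_lit 117440527) (nat_lit 12617515118) (.two (nat_lit 10385096712) (nat_lit 639632052) (.two (nat_lit 806354949) (nat_lit 1191183650) (.two (nat_lit 2097153) (nat_lit 156581760541) (.two (nat_lit 1048576) (nat_lit 156533527629) (.one (nat_lit 1914706649) .nil))))),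
   .two (nat_lit 11479810063) (nat_lit 183845781641) (.two (nat_lit 205520904) (nat_lit 9967763651) (.two (nat_lit 270532613) (nat_lit 166199297339) (.two (nat_lit 605028353) (nat_lit 28758248945) (.two (nat_lit 2097152) (nat_lit 157035796323) (.one (nat_lit 47547686500) .nil))))),
   .two (nat_lit 1795162127) (nat_lit 156364701831) (.two (nat_lit 1795162120) (nat_lit 9934209716) (.two (nat_lit 1291845637) (nat_lit 10504635714) (.two (nat_lit 2097153) (nat_lit 1358956062) (.two (nat_lit 1048576) (nat_lit 2103469) (.one (nat_lit 19128131130) .nil))))),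
   .two (nat_lit 713031695) (nat_lit 19532873973) (.two (nat_lit 4601151496) (nat_lit 1417675619) (.two (nat_lit 41943041) (nat_lit 156569175582) (.two (nat_lit 8388608) (nat_lit 4199562) (.one (nat_lit 19134421627) .nil)))),
   .two (nat_lit 639631375) (nat_lit 28693233778) (.two (nat_lit 3525312520) (nat_lit 28693234530) (.two (nat_lit 2097153) (nat_lit 10942941716) (.two (nat_lit 4194304) (nat_lit 2103470) (.one (nat_lit 4202531) .nil)))),
   .two (nat_lit 11543773199) (nat_lit 10001318250) (.two (nat_lit 705691652) (nat_lit 1746929026) (.two (nat_lit 605028353) (nat_lit 1277169193) (.two (nat_lit 16777216) (nat_lit 20705188601) .nil))),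
   .two (nat_lit 1178599439) (nat_lit 3458203714) (.two (nat_lit 3458203656) (nat_lit 183848927906) (.two (nat_lit 46407876612) (nat_lit 183949591394) (.two (nat_lit 2097153) (nat_lit 37316725255) (.two (nat_lit 8388608) (nat_lit 673192661) .nil)))),
   .two (nat_lit 203423759) (nat_lit 1920991592) (.two (nat_lit 10343153669) (nat_lit 28791802016) (.two (nat_lit 2097153) (nat_lit 10443820597) (.two (nat_lit 2097152) (nat_lit 11551119494) (.one (nat_lit 13188996613) .nil)))),
   .two (nat_lit 813694991) (nat_lit 4030726824) (.two (nat_lit 8388612) (nat_lit 10370417987) (.two (nat_lit 8388609) (nat_lit 4599057991) (.two (nat_lit 2097152) (nat_lit 4200968) (.one (nat_lit 2105070) .nil)))),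
   .two (nat_lit 620757007) (nat_lit 20644365154) (.two (nat_lit 16777217) (nat_lit 12624860121) (.one (nat_lit 183953791564) .nil)),
   .two (nat_lit 1291845647) (nat_lit 185021235456) (.two (nat_lit 46407876616) (nat_lit 159266111683) (.two (nat_lit 708837381) (nat_lit 2432697654) (.two (nat_lit 2097153) (nat_lit 9899608596) (.two (nat_lit 2097152) (nat_lit 21781025798) (.one (nat_lit 4202553) .nil))))),
   .two (nat_lit 41943055) (nat_lit 9798942787) (.two (nat_lit 713031688) (nat_lit 11511267686) (.two (nat_lit 75497477) (nat_lit 20704134445) (.two (nat_lit 2097153) (nat_lit 3557822181) (.two (nat_lit 1048576) (nat_lit 4034925656) (.one (nat_lit 1056826) .nil))))),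
   .two (nat_lit 2887778319) (nat_lit 11580473634) (.two (nat_lit 10504634376) (nat_lit 159253529251) (.two (nat_lit 11479810052) (nat_lit 21811431619) (.two (nat_lit 2097153) (nat_lit 20637027866) (.two (nat_lit 2097152) (nat_lit 13221501083) (.one (nat_lit 2105403) .nil))))),
   .two (nat_lit 9934209039) (nat_lit 28693233778) (.two (nat_lit 9934209032) (nat_lit 9768534690) (.two (nat_lit 169869316) (nat_lit 12050237969) (.two (nat_lit 2097152) (nat_lit 1346378516) .nil))),
   .two (nat_lit 46409973775) (nat_lit 874512655) (.two (nat_lit 157036838920) (nat_lit 156468512073) (.two (nat_lit 2097153) (nat_lit 306187784) (.two (nat_lit 2097152) (nat_lit 46409979839) (.one (nat_lit 304093903) .nil)))),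
   .two (nat_lit 1191182351) (nat_lit 4034920810) (.two (nat_lit 9781116933) (nat_lit 20745028994) (.two (nat_lit 50331649) (nat_lit 8392233) (.two (nat_lit 4194304) (nat_lit 9906951177) (.one (nat_lit 8395546) .nil)))),
   .two (nat_lit 272629775) (nat_lit 13195280494) (.two (nat_lit 37748744) (nat_lit 343933794) (.two (nat_lit 4194305) (nat_lit 158083320364) (.two (nat_lit 4194304) (nat_lit 2317359725) .nil))),
   .two (nat_lit 117440527) (nat_lit 1276117711) (.two (nat_lit 159216828421) (nat_lit 1191183202) (.two (nat_lit 4194305) (nat_lit 158192373665) (.one (nat_lit 10452212368) .nil))),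
   .two (nat_lit 3525312527) (nat_lit 3024093547) (.two (nat_lit 4194308) (nat_lit 2418017606) (.two (nat_lit 4194305) (nat_lit 10538190366) (.two (nat_lit 1048576) (nat_lit 205527815) .nil))),
   .two (nat_lit 2954887183) (nat_lit 166132187249) (.two (nat_lit 2954887176) (nat_lit 11614028644) (.two (nat_lit 2097153) (nat_lit 156569175581) (.two (nat_lit 1048576) (nat_lit 183846835154) (.one (nat_lit 303045294) .nil)))),
   .two (nat_lit 639631375) (nat_lit 46473937254) (.two (nat_lit 218103813) (nat_lit 166230755890) (.two (nat_lit 16777216) (nat_lit 2317356938) (.one (nat_lit 2105407) .nil))),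
   .two (nat_lit 1291845647) (nat_lit 184419352713) (.two (nat_lit 1795162120) (nat_lit 306185286) (.two (nat_lit 171966469) (nat_lit 9881781090) (.two (nat_lit 4194305) (nat_lit 1795165856) (.two (nat_lit 1048576) (nat_lit 9802092461) (.one (nat_lit 4202560) .nil))))),
   .two (nat_lit 184549391) (nat_lit 11611930744) (.two (nat_lit 620757000) (nat_lit 21778924148) (.two (nat_lit 184549380) (nat_lit 2099470) (.two (nat_lit 2097153) (nat_lit 183928624198) (.one (nat_lit 20652759826) .nil)))),
   .two (nat_lit 83886095) (nat_lit 174752530564) (.two (nat_lit 11559501832) (nat_lit 20737688186) (.two (nat_lit 11492392964) (nat_lit 11510220108) (.two (nat_lit 34603009) (nat_lit 158158817807) (.two (nat_lit 1048576) (nat_lit 3036682318) (.one (nat_lit 806361814) .nil))))),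
   .two (nat_lit 4194319) (nat_lit 174701150339) (.two (nat_lit 285212680) (nat_lit 608174755) (.two (nat_lit 50331653) (nat_lit 9936308437) (.two (nat_lit 4194305) (nat_lit 174685425178) (.two (nat_lit 4194304) (nat_lit 16783881) (.one (nat_lit 1056833) .nil))))),
   .two (nat_lit 83886095) (nat_lit 3020947582) (.two (nat_lit 11559501832) (nat_lit 3524264296) (.two (nat_lit 11492392964) (nat_lit 158143087950) (.two (nat_lit 605028353) (nat_lit 158158817807) (.two (nat_lit 1048576) (nat_lit 4613739579) (.one (nat_lit 1055515) .nil))))),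
   .two (nat_lit 1277165583) (nat_lit 11610882734) (.two (nat_lit 2887778308) (nat_lit 11577330056) (.two (nat_lit 16777217) (nat_lit 157035794317) (.one (nat_lit 21812485756) .nil))),
   .two (nat_lit 8388623) (nat_lit 21208498284) (.two (nat_lit 176160776) (nat_lit 20738736723) (.two (nat_lit 176160772) (nat_lit 20738737437) (.two (nat_lit 8388609) (nat_lit 28758249165) (.two (nat_lit 16777216) (nat_lit 19537074874) .nil)))),
   .two (nat_lit 9948889103) (nat_lit 19027460162) (.two (nat_lit 166130089992) (nat_lit 721420940) (.two (nat_lit 10504634373) (nat_lit 2332034367) (.two (nat_lit 9766436865) (nat_lit 117443091) (.two (nat_lit 4194304) (nat_lit 2887785033) .nil)))),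
   .two (nat_lit 184549391) (nat_lit 1343225971) (.two (nat_lit 184549384) (nat_lit 166129041611) (.two (nat_lit 11546918919) (nat_lit 159216829123) (.two (nat_lit 708837381) (nat_lit 21223178463) (.two (nat_lit 9933160453) (nat_lit 4043309925) (.two (nat_lit 605028353) (nat_lit 47596964410) (.two (nat_lit 2097152) (nat_lit 705694414) (.one (nat_lit 1052755) .nil))))))),
   .two (nat_lit 203423759) (nat_lit 46980399171) (.two (nat_lit 203423752) (nat_lit 3527410278) (.two (nat_lit 2954887173) (nat_lit 3527410531) (.two (nat_lit 41943041) (nat_lit 21814577673) (.two (nat_lit 2097152) (nat_lit 46980404350) (.one (nat_lit 1279268162) .nil))))),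
   .two (nat_lit 11559501839) (nat_lit 847249523) (.two (nat_lit 721420296) (nat_lit 166237045095) (.two (nat_lit 50331653) (nat_lit 185027526879) (.two (nat_lit 721420292) (nat_lit 9906946924) (.two (nat_lit 2097153) (nat_lit 46414170651) (.two (nat_lit 2097152) (nat_lit 28764542048) (.one (nat_lit 13195285844) .nil)))))),
   .two (nat_lit 16777231) (nat_lit 37249613940) (.two (nat_lit 16777224) (nat_lit 104858292) (.two (nat_lit 16777220) (nat_lit 12150898911) (.two (nat_lit 16777220) (nat_lit 1782580074) (.two (nat_lit 37748737) (nat_lit 4613736988) (.two (nat_lit 2097152) (nat_lit 708842468) (.one (nat_lit 706747358) .nil)))))),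
   .two (nat_lit 16777231) (nat_lit 2353004822) (.two (nat_lit 16777220) (nat_lit 12050237691) (.two (nat_lit 8388609) (nat_lit 10538191385) (.one (nat_lit 4197180) .nil))),
   .two (nat_lit 270532619) (nat_lit 12117344320) (.two (nat_lit 639631375) (nat_lit 19599982627) (.two (nat_lit 270532614) (nat_lit 1916797123) (.two (nat_lit 639631368) (nat_lit 138412127) (.two (nat_lit 2887778306) (nat_lit 21781022095) (.two (nat_lit 2887778308) (nat_lit 37749191) (.two (nat_lit 2097153) (nat_lit 18928895520) (.two (nat_lit 2097152) (nat_lit 4197080) (.one (nat_lit 2104129) .nil)))))))),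
   .two (nat_lit 16777231) (nat_lit 28693233729) (.two (nat_lit 16777224) (nat_lit 28693234021) (.two (nat_lit 16777220) (nat_lit 166132188446) (.two (nat_lit 4194305) (nat_lit 9781119510) (.two (nat_lit 4194304) (nat_lit 16782563) (.one (nat_lit 183928627176) .nil))))),
   .two (nat_lit 4194319) (nat_lit 158150426663) (.two (nat_lit 4194312) (nat_lit 158150426663) (.two (nat_lit 8388616) (nat_lit 21208498272) (.two (nat_lit 4194308) (nat_lit 10335813859) (.two (nat_lit 4194305) (nat_lit 269485023) (.two (nat_lit 4194304) (nat_lit 2357200545) (.one (nat_lit 1346374445) .nil)))))),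
   .two (nat_lit 4194319) (nat_lit 166130090050) (.two (nat_lit 4194312) (nat_lit 10504634563) (.two (nat_lit 4194308) (nat_lit 183946445666) (.two (nat_lit 4194305) (nat_lit 12617517618) (.two (nat_lit 4194304) (nat_lit 174752534415) (.one (nat_lit 8392792) .nil))))),
   .two (nat_lit 37748751) (nat_lit 183853121652) (.two (nat_lit 37748744) (nat_lit 184423547080) (.two (nat_lit 37748744) (nat_lit 28093448650) (.two (nat_lit 4194308) (nat_lit 679479557) (.two (nat_lit 37748737) (nat_lit 8393623) (.two (nat_lit 4194304) (nat_lit 4605351141) (.one (nat_lit 2105437) .nil)))))),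
   .two (nat_lit 4194319) (nat_lit 10443817083) (.two (nat_lit 4194312) (nat_lit 310379187) (.two (nat_lit 4194308) (nat_lit 10335813859) (.two (nat_lit 4194308) (nat_lit 772801381) (.two (nat_lit 156372041729) (nat_lit 71304148) (.two (nat_lit 1048576) (nat_lit 8393959) (.one (nat_lit 8396894) .nil)))))),
   .two (nat_lit 4194319) (nat_lit 10504634435) (.two (nat_lit 4194312) (nat_lit 10504634563) (.two (nat_lit 4194308) (nat_lit 183946445666) (.two (nat_lit 4194305) (nat_lit 2987395595) (.two (nat_lit 4194304) (nat_lit 11517564030) (.one (nat_lit 612373826) .nil))))),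
   .two (nat_lit 37748751) (nat_lit 12054429811) (.two (nat_lit 20745027597) (nat_lit 2097354) (.two (nat_lit 4194306) (nat_lit 46407878678) (.two (nat_lit 4194308) (nat_lit 169869789) (.two (nat_lit 2097153) (nat_lit 8392493) (.two (nat_lit 4194304) (nat_lit 8393960) (.one (nat_lit 2105439) .nil)))))),
   .two (nat_lit 169869327) (nat_lit 12054429811) (.two (nat_lit 176160770) (nat_lit 2098030) (.two (nat_lit 612368385) (nat_lit 12114199031) (.one (nat_lit 1055555) .nil))),
   .two (nat_lit 157038936079) (nat_lit 174753579145) (.two (nat_lit 1344274442) (nat_lit 272630436) (.two (nat_lit 10907287565) (nat_lit 156971827400) (.two (nat_lit 19530776581) (nat_lit 708838244) (.two (nat_lit 2097153) (nat_lit 171969038) (.two (nat_lit 2097152) (nat_lit 156535624781) (.one (nat_lit 4199790) .nil)))))),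
   .two (nat_lit 157038936079) (nat_lit 174753579145) (.two (nat_lit 10907287565) (nat_lit 156971827400) (.two (nat_lit 174753579015) (nat_lit 156971827298) (.two (nat_lit 19530776581) (nat_lit 708838244) (.two (nat_lit 2097153) (nat_lit 171969038) (.two (nat_lit 2097152) (nat_lit 156535624781) (.one (nat_lit 4199791) .nil)))))),
   .two (nat_lit 4030726168) (nat_lit 236978243) (.two (nat_lit 3460300808) (nat_lit 9867100863) (.two (nat_lit 34603013) (nat_lit 12150899557) (.two (nat_lit 708837379) (nat_lit 1846543741) (.two (nat_lit 156367847425) (nat_lit 1051200) (.two (nat_lit 2097152) (nat_lit 1947211074) (.one (nat_lit 1947211074) .nil)))))),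
   .two (nat_lit 157038936079) (nat_lit 174753579145) (.two (nat_lit 10907287565) (nat_lit 3024093386) (.two (nat_lit 19530776581) (nat_lit 708838244) (.two (nat_lit 2097153) (nat_lit 171969038) (.two (nat_lit 1048576) (nat_lit 3024094872) (.one (nat_lit 4201287) .nil))))),
   .two (nat_lit 174753579023) (nat_lit 37313576981) (.two (nat_lit 158075977733) (nat_lit 69206478) (.two (nat_lit 34603009) (nat_lit 35651819) (.one (nat_lit 2105443) .nil))),
   .two (nat_lit 742391823) (nat_lit 11517558905) (.two (nat_lit 612368392) (nat_lit 9902752102) (.two (nat_lit 176160773) (nat_lit 12148801994) (.two (nat_lit 176160771) (nat_lit 11578377505) (.two (nat_lit 8388609) (nat_lit 9867101732) (.two (nat_lit 4194304) (nat_lit 2921337834) (.one (nat_lit 9900661534) .nil)))))),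
   .two (nat_lit 4194319) (nat_lit 46414168177) (.two (nat_lit 4194312) (nat_lit 2357199491) (.two (nat_lit 4194308) (nat_lit 2987393494) (.two (nat_lit 4194308) (nat_lit 269484908) (.two (nat_lit 37748737) (nat_lit 1051357) (.two (nat_lit 4194304) (nat_lit 2349862847) (.one (nat_lit 1056868) .nil)))))),
   .two (nat_lit 4194319) (nat_lit 83886196) (.two (nat_lit 4194312) (nat_lit 21793603784) (.two (nat_lit 4194312) (nat_lit 4043309258) (.two (nat_lit 28690087941) (nat_lit 1950352688) (.two (nat_lit 34603009) (nat_lit 239078987) (.two (nat_lit 16777216) (nat_lit 21210598104) (.one (nat_lit 1054068) .nil)))))),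
   .two (nat_lit 37748751) (nat_lit 612368504) (.two (nat_lit 47548727304) (nat_lit 1954546281) (.two (nat_lit 4194308) (nat_lit 713033039) (.two (nat_lit 4194305) (nat_lit 174686473755) (.two (nat_lit 4194304) (nat_lit 2102508) (.one (nat_lit 4632614222) .nil))))),
   .two (nat_lit 11543773195) (nat_lit 16777358) (.two (nat_lit 19109249051) (nat_lit 1779433588) (.two (nat_lit 285212680) (nat_lit 166196150472) (.two (nat_lit 285212680) (nat_lit 839909578) (.two (nat_lit 16777220) (nat_lit 9933161838) (.two (nat_lit 50331649) (nat_lit 1051204) (.two (nat_lit 2097152) (nat_lit 1053934) (.one (nat_lit 2105445) .nil))))))),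
   .two (nat_lit 46978301967) (nat_lit 171966583) (.two (nat_lit 10506731528) (nat_lit 2418016957) (.two (nat_lit 2889875460) (nat_lit 9867100387) (.two (nat_lit 2889875460) (nat_lit 3021996901) (.two (nat_lit 2097153) (nat_lit 218107461) (.two (nat_lit 2097152) (nat_lit 16782575) (.one (nat_lit 16785511) .nil)))))),
   .two (nat_lit 16777231) (nat_lit 673185865) (.two (nat_lit 8388616) (nat_lit 20738736166) (.two (nat_lit 8388616) (nat_lit 158177689797) (.two (nat_lit 8388612) (nat_lit 13188989399) (.two (nat_lit 8388609) (nat_lit 9766437841) (.two (nat_lit 4194304) (nat_lit 8395298) (.one (nat_lit 8396905) .nil)))))),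
   .two (nat_lit 50331663) (nat_lit 1343225923) (.two (nat_lit 50331656) (nat_lit 47547679403) (.two (nat_lit 16777220) (nat_lit 9966715103) (.two (nat_lit 16777220) (nat_lit 18928894828) (.two (nat_lit 8388609) (nat_lit 3557820997) (.two (nat_lit 8388608) (nat_lit 4198356) (.one (nat_lit 4202602) .nil)))))),
   .two (nat_lit 8388623) (nat_lit 1344274471) (.two (nat_lit 713031697) (nat_lit 9967763577) (.two (nat_lit 3458203656) (nat_lit 880804035) (.two (nat_lit 1283457029) (nat_lit 184987680995) (.two (nat_lit 50331651) (nat_lit 639632226) (.two (nat_lit 50331649) (nat_lit 13222544330) (.two (nat_lit 4194304) (nat_lit 8392661) (.one (nat_lit 8394111) .nil))))))),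
   .two (nat_lit 46978301976) (nat_lit 41943077) (.two (nat_lit 612368399) (nat_lit 46474985490) (.two (nat_lit 46407876616) (nat_lit 46414168162) (.two (nat_lit 2097157) (nat_lit 12054430154) (.two (nat_lit 2097157) (nat_lit 3464495329) (.two (nat_lit 2097153) (nat_lit 156573372017) (.two (nat_lit 1048576) (nat_lit 165532403353) (.one (nat_lit 18925755282) .nil))))))),
   .two (nat_lit 9768534031) (nat_lit 20738736254) (.two (nat_lit 16777224) (nat_lit 69206114) (.two (nat_lit 16777220) (nat_lit 1411383760) (.two (nat_lit 16777220) (nat_lit 1344274657) (.two (nat_lit 16777217) (nat_lit 37314626526) (.two (nat_lit 2097152) (nat_lit 183928623056) (.one (nat_lit 2105453) .nil)))))),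
   .two (nat_lit 1916796943) (nat_lit 10369368192) (.two (nat_lit 1916796936) (nat_lit 12114198732) (.two (nat_lit 742391816) (nat_lit 873464010) (.two (nat_lit 11479810050) (nat_lit 4599056047) (.two (nat_lit 11479810052) (nat_lit 158075979166) (.two (nat_lit 37748737) (nat_lit 2099784) (.two (nat_lit 4194304) (nat_lit 2103844) (.one (nat_lit 2105454) .nil))))))),
   .two (nat_lit 2902458379) (nat_lit 37246468217) (.two (nat_lit 21207449637) (nat_lit 10907287577) (.two (nat_lit 4599054342) (nat_lit 28790751432) (.two (nat_lit 156365750280) (nat_lit 28790751330) (.two (nat_lit 16777218) (nat_lit 1410336807) (.two (nat_lit 46407876612) (nat_lit 46473937368) (.two (nat_lit 2097153) (nat_lit 184416210369) (.two (nat_lit 2097152) (nat_lit 4598009794) (.one (nat_lit 16785519) .nil)))))))),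
   .two (nat_lit 46407876623) (nat_lit 166132187203) (.two (nat_lit 157036838920) (nat_lit 11614028136) (.two (nat_lit 46407876612) (nat_lit 775946467) (.two (nat_lit 2889875460) (nat_lit 706741104) (.two (nat_lit 2097153) (nat_lit 46977255997) (.two (nat_lit 4194304) (nat_lit 1055269) (.one (nat_lit 138420302) .nil)))))),
   .two (nat_lit 721420303) (nat_lit 9866051651) (.two (nat_lit 721420296) (nat_lit 19026411881) (.two (nat_lit 50331653) (nat_lit 3524264163) (.two (nat_lit 50331653) (nat_lit 9798943597) (.two (nat_lit 612368385) (nat_lit 336596911) (.two (nat_lit 8388608) (nat_lit 336596911) (.one (nat_lit 1056880) .nil)))))),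
   .two (nat_lit 41943055) (nat_lit 18928894062) (.two (nat_lit 41943048) (nat_lit 13224640607) (.two (nat_lit 16777221) (nat_lit 156468512079) (.two (nat_lit 16777217) (nat_lit 37249614805) (.two (nat_lit 16777216) (nat_lit 276825747) (.one (nat_lit 4202609) .nil))))),
   .two (nat_lit 9948889103) (nat_lit 3525312576) (.two (nat_lit 3525312520) (nat_lit 1761608298) (.two (nat_lit 46409973764) (nat_lit 28791801139) (.two (nat_lit 4194305) (nat_lit 13222545942) (.two (nat_lit 4194304) (nat_lit 10437529558) (.one (nat_lit 2104153) .nil))))),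
   .two (nat_lit 639631375) (nat_lit 11559501889) (.two (nat_lit 721420296) (nat_lit 158177690860) (.two (nat_lit 12114198533) (nat_lit 11544823165) (.two (nat_lit 34603009) (nat_lit 20705182676) (.two (nat_lit 1048576) (nat_lit 2102515) (.one (nat_lit 2105458) .nil))))),
   .two (nat_lit 813694991) (nat_lit 46510637122) (.two (nat_lit 813694984) (nat_lit 775946874) (.two (nat_lit 2889875458) (nat_lit 2098034) (.two (nat_lit 4194307) (nat_lit 183846830948) (.two (nat_lit 2097153) (nat_lit 20707281459) (.two (nat_lit 2097152) (nat_lit 2319454093) (.one (nat_lit 4199818) .nil)))))),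
   .two (nat_lit 176160783) (nat_lit 47548727360) (.two (nat_lit 176160776) (nat_lit 10336862403) (.two (nat_lit 8388613) (nat_lit 9766438196) (.two (nat_lit 16777217) (nat_lit 158177693350) (.two (nat_lit 8388608) (nat_lit 2350910277) (.one (nat_lit 2105459) .nil))))),
   .two (nat_lit 1913651215) (nat_lit 876609655) (.two (nat_lit 101711880) (nat_lit 2353004639) (.two (nat_lit 705691650) (nat_lit 4195745) (.two (nat_lit 11476664323) (nat_lit 4194786) (.two (nat_lit 34603009) (nat_lit 4196937) (.two (nat_lit 1048576) (nat_lit 4199669) (.one (nat_lit 4202612) .nil)))))),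
   .two (nat_lit 9768534031) (nat_lit 10385096830) (.two (nat_lit 9768534024) (nat_lit 19545457009) (.two (nat_lit 46978301960) (nat_lit 104857695) (.two (nat_lit 50331653) (nat_lit 641729873) (.two (nat_lit 50331649) (nat_lit 2099786) (.two (nat_lit 16777216) (nat_lit 2102518) (.one (nat_lit 16784220) .nil)))))),
   .two (nat_lit 184549387) (nat_lit 1417674865) (.two (nat_lit 158083317775) (nat_lit 1048926) (.two (nat_lit 4613734408) (nat_lit 46481277125) (.two (nat_lit 4613734408) (nat_lit 46481277130) (.two (nat_lit 16777220) (nat_lit 679478594) (.two (nat_lit 156364701697) (nat_lit 8392496) (.two (nat_lit 1048576) (nat_lit 8393975) (.one (nat_lit 16785525) .nil))))))),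
   .two (nat_lit 157036838927) (nat_lit 10372513928) (.two (nat_lit 20637024264) (nat_lit 10940842079) (.two (nat_lit 46980399109) (nat_lit 706741104) (.two (nat_lit 2956984325) (nat_lit 3021996509) (.two (nat_lit 9768534017) (nat_lit 21207451181) (.two (nat_lit 4194304) (nat_lit 1947208404) (.one (nat_lit 1056886) .nil)))))),
   .two (nat_lit 184986632203) (nat_lit 21778923656) (.two (nat_lit 822083599) (nat_lit 10370416661) (.two (nat_lit 822083590) (nat_lit 1309671796) (.two (nat_lit 1277165573) (nat_lit 1224737240) (.two (nat_lit 2097157) (nat_lit 50331872) (.two (nat_lit 16777217) (nat_lit 1914704040) (.two (nat_lit 1048576) (nat_lit 1914704040) (.one (nat_lit 2105464) .nil))))))),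
   .two (nat_lit 8388623) (nat_lit 1745879155) (.two (nat_lit 41943048) (nat_lit 159216829525) (.two (nat_lit 16777220) (nat_lit 336594301) (.two (nat_lit 41943041) (nat_lit 159250386694) (.two (nat_lit 16777216) (nat_lit 1055236) (.one (nat_lit 8396922) .nil))))),
   .two (nat_lit 9982443544) (nat_lit 742391937) (.two (nat_lit 620757000) (nat_lit 157038936759) (.two (nat_lit 9768534021) (nat_lit 184987681226) (.two (nat_lit 612368387) (nat_lit 184987682081) (.two (nat_lit 612368385) (nat_lit 606078500) (.two (nat_lit 8388608) (nat_lit 156466418666) (.one (nat_lit 46407883550) .nil)))))),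
   .two (nat_lit 11551113231) (nat_lit 28086108270) (.two (nat_lit 165525061640) (nat_lit 1176502908) (.two (nat_lit 713031684) (nat_lit 12047090983) (.two (nat_lit 41943041) (nat_lit 1209010726) (.two (nat_lit 8388608) (nat_lit 11578380220) (.one (nat_lit 16784225) .nil))))),
   .two (nat_lit 41943055) (nat_lit 1779433745) (.two (nat_lit 165525061640) (nat_lit 166232851106) (.two (nat_lit 184549381) (nat_lit 9768535335) (.two (nat_lit 16777217) (nat_lit 876613328) (.two (nat_lit 16777216) (nat_lit 4198369) (.one (nat_lit 8395618) .nil))))),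
   .two (nat_lit 713031695) (nat_lit 159232557623) (.two (nat_lit 822083592) (nat_lit 1276117607) (.two (nat_lit 16777220) (nat_lit 9768535335) (.two (nat_lit 16777217) (nat_lit 3560966694) (.two (nat_lit 16777216) (nat_lit 8393957) (.one (nat_lit 8396923) .nil))))),
   .two (nat_lit 713031695) (nat_lit 159232557623) (.two (nat_lit 822083592) (nat_lit 1276117607) (.two (nat_lit 16777220) (nat_lit 9768535335) (.two (nat_lit 16777217) (nat_lit 3560966694) (.two (nat_lit 16777216) (nat_lit 8391408) (.one (nat_lit 8395619) .nil))))),
   .two (nat_lit 37748751) (nat_lit 813695098) (.two (nat_lit 37748744) (nat_lit 19604176991) (.two (nat_lit 166132187141) (nat_lit 9799992657) (.two (nat_lit 4194305) (nat_lit 20705182677) (.two (nat_lit 4194304) (nat_lit 2921334419) (.one (nat_lit 8396924) .nil))))),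
   .two (nat_lit 1795162133) (nat_lit 46977253501) (.two (nat_lit 1358954524) (nat_lit 10370416756) (.two (nat_lit 822083592) (nat_lit 28758245576) (.two (nat_lit 822083592) (nat_lit 183846830292) (.two (nat_lit 16777220) (nat_lit 37247519116) (.two (nat_lit 156364701697) (nat_lit 18926800689) (.two (nat_lit 1048576) (nat_lit 2102522) (.one (nat_lit 16785535) .nil))))))),
   .two (nat_lit 1847590933) (nat_lit 269484157) (.two (nat_lit 10506731535) (nat_lit 1847590933) (.two (nat_lit 169869320) (nat_lit 11614027988) (.two (nat_lit 2097157) (nat_lit 183949592992) (.two (nat_lit 156365750273) (nat_lit 11580478714) (.two (nat_lit 1048576) (nat_lit 4199675) (.one (nat_lit 4201319) .nil)))))),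
   .two (nat_lit 2961178639) (nat_lit 641728639) (.two (nat_lit 50331656) (nat_lit 18928894585) (.two (nat_lit 16777220) (nat_lit 772800975) (.two (nat_lit 16777220) (nat_lit 772800973) (.two (nat_lit 41943041) (nat_lit 21811433222) (.two (nat_lit 1048576) (nat_lit 4198374) (.one (nat_lit 1056896) .nil)))))),
   .two (nat_lit 8388623) (nat_lit 184549489) (.two (nat_lit 16777224) (nat_lit 343933123) (.two (nat_lit 16777220) (nat_lit 9806284105) (.two (nat_lit 50331649) (nat_lit 183853125111) (.two (nat_lit 16777216) (nat_lit 184423552041) (.one (nat_lit 41949995) .nil))))),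
   .two (nat_lit 9866051599) (nat_lit 2350907508) (.two (nat_lit 1276117000) (nat_lit 158144135372) (.two (nat_lit 1276117000) (nat_lit 10001318090) (.two (nat_lit 1276116994) (nat_lit 12115248820) (.two (nat_lit 19530776579) (nat_lit 185023334604) (.two (nat_lit 9765388289) (nat_lit 4196940) (.two (nat_lit 1048576) (nat_lit 4201001) (.one (nat_lit 4202625) .nil))))))),
   .two (nat_lit 13203669007) (nat_lit 158083317826) (.two (nat_lit 13203669000) (nat_lit 158083318117) (.two (nat_lit 16777220) (nat_lit 158083318626) (.two (nat_lit 2097153) (nat_lit 1417678478) (.two (nat_lit 2097152) (nat_lit 46414169755) (.one (nat_lit 8396930) .nil))))),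
   .two (nat_lit 158083317826) (nat_lit 1048598) (.two (nat_lit 11479810063) (nat_lit 4027580438) (.two (nat_lit 10537140234) (nat_lit 158083318374) (.two (nat_lit 184986632197) (nat_lit 158083318627) (.two (nat_lit 34603009) (nat_lit 11580475917) (.two (nat_lit 1048576) (nat_lit 8395269) (.one (nat_lit 8396931) .nil)))))),
   .two (nat_lit 10504634383) (nat_lit 157038936172) (.two (nat_lit 10504634376) (nat_lit 19532874340) (.two (nat_lit 2887778308) (nat_lit 4601152884) (.two (nat_lit 9766436865) (nat_lit 4198196) (.two (nat_lit 4194304) (nat_lit 2103850) (.one (nat_lit 4201325) .nil))))),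
   .two (nat_lit 12047089679) (nat_lit 306184318) (.two (nat_lit 21214789640) (nat_lit 11510219478) (.two (nat_lit 809500677) (nat_lit 183953785303) (.two (nat_lit 37748737) (nat_lit 158183982033) (.two (nat_lit 4194304) (nat_lit 8392685) (.one (nat_lit 8396934) .nil))))),
   .two (nat_lit 16777280) (nat_lit 705691713) (.two (nat_lit 4194319) (nat_lit 889192643) (.two (nat_lit 4194312) (nat_lit 11477713764) (.two (nat_lit 806354949) (nat_lit 156367848989) (.two (nat_lit 2097153) (nat_lit 11546922898) (.two (nat_lit 1048576) (nat_lit 1176507705) (.one (nat_lit 10538195824) .nil)))))),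
   .two (nat_lit 4601151552) (nat_lit 1048709) (.two (nat_lit 12050235407) (nat_lit 135266499) (.two (nat_lit 12050235400) (nat_lit 2987394401) (.two (nat_lit 46409973764) (nat_lit 1913653787) (.two (nat_lit 34603009) (nat_lit 156466418662) (.two (nat_lit 4194304) (nat_lit 202381925) (.one (nat_lit 20704141463) .nil)))))),
   .two (nat_lit 8388672) (nat_lit 2936012919) (.two (nat_lit 10385096719) (nat_lit 612368579) (.two (nat_lit 4605345800) (nat_lit 47550825316) (.two (nat_lit 8388612) (nat_lit 20707281435) (.two (nat_lit 41943041) (nat_lit 2923435063) (.two (nat_lit 8388608) (nat_lit 183848934011) (.one (nat_lit 46984601746) .nil)))))),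
   .two (nat_lit 10506731587) (nat_lit 13195280494) (.two (nat_lit 4605345807) (nat_lit 11614028135) (.two (nat_lit 46414168072) (nat_lit 1379927341) (.two (nat_lit 157038936069) (nat_lit 3028290048) (.two (nat_lit 156367847425) (nat_lit 12624860477) (.one (nat_lit 184423555210) .nil))))),
   .two (nat_lit 184419352643) (nat_lit 8388742) (.two (nat_lit 721420303) (nat_lit 1384120515) (.two (nat_lit 1191182344) (nat_lit 339739956) (.two (nat_lit 156372041733) (nat_lit 19142806033) (.two (nat_lit 37748737) (nat_lit 10544484232) (.two (nat_lit 8388608) (nat_lit 183949597332) (.one (nat_lit 37757069) .nil)))))),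
   .two (nat_lit 4605345856) (nat_lit 10506731633) (.two (nat_lit 166132187151) (nat_lit 13195280579) (.two (nat_lit 166132187144) (nat_lit 4605347358) (.two (nat_lit 9768534017) (nat_lit 185027530642) (.two (nat_lit 4194304) (nat_lit 343938358) (.one (nat_lit 21818777747) .nil))))),
   .two (nat_lit 2969567298) (nat_lit 1916797039) (.two (nat_lit 2969567247) (nat_lit 184419353184) (.two (nat_lit 2969567240) (nat_lit 156971828518) (.two (nat_lit 2889875461) (nat_lit 18941479449) (.two (nat_lit 16777217) (nat_lit 37754173) (.one (nat_lit 4202665) .nil))))),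
   .two (nat_lit 285212736) (nat_lit 28693233778) (.two (nat_lit 166132187151) (nat_lit 822083779) (.two (nat_lit 166132187144) (nat_lit 1191183902) (.two (nat_lit 9768534017) (nat_lit 1191186307) (.two (nat_lit 4194304) (nat_lit 16782655) (.one (nat_lit 889200794) .nil))))),
   .two (nat_lit 721420355) (nat_lit 10000269379) (.two (nat_lit 4194319) (nat_lit 889192643) (.two (nat_lit 4194312) (nat_lit 166211880240) (.two (nat_lit 4194308) (nat_lit 10370419209) (.two (nat_lit 34603009) (nat_lit 10372517785) (.two (nat_lit 1048576) (nat_lit 740300090) (.one (nat_lit 11477719919) .nil)))))),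
   .two (nat_lit 183853121603) (nat_lit 9934209158) (.two (nat_lit 813694991) (nat_lit 285212867) (.two (nat_lit 218103816) (nat_lit 1344275756) (.two (nat_lit 2969567237) (nat_lit 1283459609) (.two (nat_lit 2097153) (nat_lit 2994737048) (.two (nat_lit 2097152) (nat_lit 880810644) (.one (nat_lit 20745035915) .nil)))))),
   .two (nat_lit 11626610755) (nat_lit 1175453821) (.two (nat_lit 4194319) (nat_lit 620757187) (.two (nat_lit 272629768) (nat_lit 150996311) (.two (nat_lit 184549381) (nat_lit 11476666893) (.two (nat_lit 34603009) (nat_lit 11479815152) (.two (nat_lit 1048576) (nat_lit 19042146901) (.one (nat_lit 3524272264) .nil)))))),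
   .two (nat_lit 11543773251) (nat_lit 1279262841) (.two (nat_lit 4194319) (nat_lit 880804035) (.two (nat_lit 4601151496) (nat_lit 156472706348) (.two (nat_lit 158075977733) (nat_lit 165528209923) (.two (nat_lit 34603009) (nat_lit 4030730136) (.two (nat_lit 4194304) (nat_lit 1055431) (.one (nat_lit 8396970) .nil)))))),
   .two (nat_lit 47548727360) (nat_lit 239075442) (.two (nat_lit 37748751) (nat_lit 16777411) (.two (nat_lit 37748744) (nat_lit 184431936826) (.two (nat_lit 169869316) (nat_lit 166132189723) (.two (nat_lit 2097153) (nat_lit 183916040088) (.two (nat_lit 4194304) (nat_lit 740301395) (.one (nat_lit 2319458472) .nil)))))),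
   .two (nat_lit 165532401731) (nat_lit 285212783) (.two (nat_lit 3464495119) (nat_lit 754975333) (.two (nat_lit 16777224) (nat_lit 10343154530) (.two (nat_lit 184549381) (nat_lit 10510928417) (.two (nat_lit 8388609) (nat_lit 185002366269) (.one (nat_lit 16785579) .nil))))),
   .two (nat_lit 8388672) (nat_lit 11610882160) (.two (nat_lit 713031695) (nat_lit 166197199479) (.two (nat_lit 10369368072) (nat_lit 12115248433) (.two (nat_lit 638582789) (nat_lit 28691139087) (.two (nat_lit 2097153) (nat_lit 1376785421) (.two (nat_lit 2097152) (nat_lit 10443823699) (.one (nat_lit 159251439788) .nil)))))),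
   .two (nat_lit 3527409729) (nat_lit 11476664434) (.two (nat_lit 4194319) (nat_lit 10007609539) (.two (nat_lit 68157448) (nat_lit 183920231738) (.two (nat_lit 2894069765) (nat_lit 775948815) (.two (nat_lit 8388609) (nat_lit 2920288143) (.two (nat_lit 1048576) (nat_lit 4201180) (.one (nat_lit 1056943) .nil)))))),
   .two (nat_lit 11559501890) (nat_lit 705691782) (.two (nat_lit 28086108175) (nat_lit 117440707) (.two (nat_lit 28086108168) (nat_lit 9881781790) (.two (nat_lit 605028353) (nat_lit 620762422) (.one (nat_lit 159232565414) .nil)))),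
   .two (nat_lit 2954887232) (nat_lit 166232850545) (.two (nat_lit 37748751) (nat_lit 343933123) (.two (nat_lit 37748744) (nat_lit 847250752) (.two (nat_lit 12121538565) (nat_lit 11010050570) (.two (nat_lit 2097153) (nat_lit 11517563888) (.two (nat_lit 2097152) (nat_lit 10909391445) (.one (nat_lit 46508548261) .nil)))))),
   .two (nat_lit 4194369) (nat_lit 11618222147) (.two (nat_lit 4194319) (nat_lit 41943235) (.two (nat_lit 4194312) (nat_lit 156976022828) (.two (nat_lit 4194308) (nat_lit 1310722567) (.two (nat_lit 2097153) (nat_lit 10003419052) (.two (nat_lit 1048576) (nat_lit 165528212795) (.one (nat_lit 183846837103) .nil)))))),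
   .two (nat_lit 19142803477) (nat_lit 21778923648) (.two (nat_lit 822083599) (nat_lit 304087242) (.two (nat_lit 822083592) (nat_lit 166230753505) (.two (nat_lit 16777220) (nat_lit 606077907) (.two (nat_lit 16777220) (nat_lit 18926797035) (.two (nat_lit 16777217) (nat_lit 1377832840) (.two (nat_lit 16777216) (nat_lit 46407879463) (.one (nat_lit 2104231) .nil))))))),
   .two (nat_lit 16777280) (nat_lit 28790751347) (.two (nat_lit 83886095) (nat_lit 28790751845) (.two (nat_lit 721420296) (nat_lit 13221495247) (.two (nat_lit 620756999) (nat_lit 2416969763) (.two (nat_lit 721420292) (nat_lit 1376781268) (.two (nat_lit 11543773189) (nat_lit 158192372278) (.two (nat_lit 34603009) (nat_lit 21827163205) (.two (nat_lit 16777216) (nat_lit 1055511) (.one (nat_lit 1056990) .nil)))))))),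
   .two (nat_lit 1426063381) (nat_lit 12147753076) (.two (nat_lit 721420403) (nat_lit 28790751269) (.two (nat_lit 11543773199) (nat_lit 4043309259) (.two (nat_lit 16777244) (nat_lit 159216828618) (.two (nat_lit 11559501836) (nat_lit 12114198992) (.two (nat_lit 11559501836) (nat_lit 12147753185) (.two (nat_lit 16777218) (nat_lit 1051195) (.two (nat_lit 11492392963) (nat_lit 1049557) (.two (nat_lit 50331649) (nat_lit 1052603) (.two (nat_lit 4194304) (nat_lit 1055524) (.one (nat_lit 1055660) .nil)))))))))),
   .two (nat_lit 46510637123) (nat_lit 18933088369) (.two (nat_lit 809500687) (nat_lit 10343154021) (.two (nat_lit 809500680) (nat_lit 10343154530) (.two (nat_lit 4194308) (nat_lit 11618223058) (.two (nat_lit 37748739) (nat_lit 158183983622) (.two (nat_lit 37748737) (nat_lit 9873395626) (.two (nat_lit 4194304) (nat_lit 2894076507) (.one (nat_lit 8395694) .nil))))))),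
   .two (nat_lit 47548727360) (nat_lit 276824189) (.two (nat_lit 612368389) (nat_lit 159217878557) (.one (nat_lit 2102733) .nil)),
   .two (nat_lit 16777280) (nat_lit 28790751345) (.two (nat_lit 620757007) (nat_lit 135267050) (.two (nat_lit 721420296) (nat_lit 20704134438) (.two (nat_lit 50331653) (nat_lit 158646404052) (.two (nat_lit 620756997) (nat_lit 101713444) (.two (nat_lit 34603009) (nat_lit 12129932329) (.two (nat_lit 1048576) (nat_lit 16784166) (.one (nat_lit 1056993) .nil))))))),
   .two (nat_lit 3028287509) (nat_lit 21827158126) (.two (nat_lit 75497487) (nat_lit 10015998650) (.two (nat_lit 620757000) (nat_lit 1384120554) (.two (nat_lit 2902458370) (nat_lit 847253018) (.two (nat_lit 184549381) (nat_lit 20711473658) (.two (nat_lit 4194305) (nat_lit 21818771091) (.two (nat_lit 4194304) (nat_lit 16781381) (.one (nat_lit 16785634) .nil))))))),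
   .two (nat_lit 46523219989) (nat_lit 166230753392) (.two (nat_lit 1795162225) (nat_lit 47582281765) (.two (nat_lit 10370416655) (nat_lit 11525947589) (.two (nat_lit 1191182351) (nat_lit 183846830276) (.two (nat_lit 10370416648) (nat_lit 50332102) (.two (nat_lit 1191182344) (nat_lit 10538189025) (.two (nat_lit 158144135173) (nat_lit 4605346772) (.two (nat_lit 9781116933) (nat_lit 169870291) (.two (nat_lit 50331649) (nat_lit 46481280911) (.two (nat_lit 8388608) (nat_lit 337648226) (.one (nat_lit 183853127119) .nil)))))))))),
   .two (nat_lit 46510637123) (nat_lit 28705816647) (.two (nat_lit 272629775) (nat_lit 10351542311) (.two (nat_lit 272629768) (nat_lit 2969567703) (.two (nat_lit 37748739) (nat_lit 16778198) (.two (nat_lit 4194305) (nat_lit 13237228973) (.two (nat_lit 4194304) (nat_lit 13237228973) (.one (nat_lit 13237228973) .nil)))))),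
   .two (nat_lit 2923429954) (nat_lit 1753219140) (.two (nat_lit 46409973775) (nat_lit 2961178663) (.two (nat_lit 46409973775) (nat_lit 37320917192) (.two (nat_lit 183853121544) (nat_lit 9802089314) (.two (nat_lit 13195280389) (nat_lit 1212154360) (.two (nat_lit 41943043) (nat_lit 166232852999) (.two (nat_lit 4194305) (nat_lit 8392637) (.two (nat_lit 4194304) (nat_lit 16781383) (.one (nat_lit 4202724) .nil)))))))),
   .two (nat_lit 1048649) (nat_lit 21208498243) (.two (nat_lit 1048605) (nat_lit 69206054) (.two (nat_lit 19093520396) (nat_lit 2921332963) (.two (nat_lit 9933160453) (nat_lit 1847591416) (.two (nat_lit 4194305) (nat_lit 4599055372) (.two (nat_lit 1048576) (nat_lit 2101320) (.one (nat_lit 2104246) .nil)))))),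
   .two (nat_lit 41943075) (nat_lit 11559501889) (.two (nat_lit 41943055) (nat_lit 46992982760) (.two (nat_lit 822083592) (nat_lit 10443817431) (.two (nat_lit 822083592) (nat_lit 8389484) (.two (nat_lit 8388612) (nat_lit 2420113912) (.two (nat_lit 16777219) (nat_lit 3024096739) (.two (nat_lit 8388609) (nat_lit 4196001) (.two (nat_lit 4194304) (nat_lit 8394072) (.one (nat_lit 8395703) .nil)))))))),
   .two (nat_lit 339738689) (nat_lit 12054429730) (.two (nat_lit 4194319) (nat_lit 183953784870) (.two (nat_lit 4194319) (nat_lit 183953784928) (.two (nat_lit 4194312) (nat_lit 19537068255) (.two (nat_lit 705691656) (nat_lit 10003415503) (.two (nat_lit 605028357) (nat_lit 10437526008) (.two (nat_lit 605028357) (nat_lit 37314626516) (.two (nat_lit 4194305) (nat_lit 46407878305) (.two (nat_lit 4194304) (nat_lit 8395560) (.one (nat_lit 8397029) .nil))))))))),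
   .two (nat_lit 4605345856) (nat_lit 2923430001) (.two (nat_lit 4601151503) (nat_lit 4605345987) (.two (nat_lit 4601151496) (nat_lit 612369737) (.two (nat_lit 4194308) (nat_lit 46414168568) (.two (nat_lit 37748739) (nat_lit 142610010) (.two (nat_lit 37748737) (nat_lit 11551118377) (.two (nat_lit 4194304) (nat_lit 46414173527) (.one (nat_lit 8395704) .nil))))))),
   .two (nat_lit 184986632256) (nat_lit 158144135234) (.two (nat_lit 158075977743) (nat_lit 28758245972) (.two (nat_lit 158075977736) (nat_lit 158144136480) (.two (nat_lit 1745879045) (nat_lit 4028631578) (.two (nat_lit 605028353) (nat_lit 236979852) (.two (nat_lit 2097152) (nat_lit 1055529) (.one (nat_lit 2104249) .nil)))))),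
   .two (nat_lit 159251431491) (nat_lit 10540286020) (.two (nat_lit 1277165604) (nat_lit 4194378) (.two (nat_lit 4601151503) (nat_lit 343933123) (.two (nat_lit 813694984) (nat_lit 12117344715) (.two (nat_lit 4605345799) (nat_lit 2319451436) (.two (nat_lit 713031682) (nat_lit 4195878) (.two (nat_lit 46414168067) (nat_lit 2418018841) (.two (nat_lit 4194305) (nat_lit 706741915) (.two (nat_lit 2097152) (nat_lit 37752895) (.one (nat_lit 8394201) .nil))))))))),
   .two (nat_lit 41943150) (nat_lit 159219974181) (.two (nat_lit 813694991) (nat_lit 174755676796) (.two (nat_lit 46409973768) (nat_lit 1176502497) (.two (nat_lit 184549381) (nat_lit 706741202) (.two (nat_lit 184549381) (nat_lit 880804072) (.two (nat_lit 156365750273) (nat_lit 8390308) (.two (nat_lit 4194304) (nat_lit 8394074) (.one (nat_lit 4202730) .nil))))))),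
   .two (nat_lit 13221494802) (nat_lit 183949590593) (.two (nat_lit 183949590593) (nat_lit 183947493413) (.two (nat_lit 2887778319) (nat_lit 775946336) (.two (nat_lit 183848927247) (nat_lit 10369368162) (.two (nat_lit 183848927240) (nat_lit 166229705168) (.two (nat_lit 11476664328) (nat_lit 742392311) (.two (nat_lit 184986632197) (nat_lit 184987683381) (.two (nat_lit 10506731525) (nat_lit 638583769) (.two (nat_lit 156364701697) (nat_lit 10538194054) (.two (nat_lit 4194304) (nat_lit 1410338886) (.one (nat_lit 4201406) .nil)))))))))),
   .two (nat_lit 9768534083) (nat_lit 12115247229) (.two (nat_lit 1745879055) (nat_lit 10370417254) (.two (nat_lit 1745879048) (nat_lit 10370417507) (.two (nat_lit 174752530437) (nat_lit 37316725273) (.two (nat_lit 9765388289) (nat_lit 339741390) (.two (nat_lit 1048576) (nat_lit 339742790) (.one (nat_lit 68164542) .nil)))))),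
   .two (nat_lit 13224640549) (nat_lit 2902458483) (.two (nat_lit 156581756949) (nat_lit 104857638) (.two (nat_lit 9768534031) (nat_lit 788529355) (.two (nat_lit 9948889097) (nat_lit 10506732386) (.two (nat_lit 2902458381) (nat_lit 306184646) (.two (nat_lit 2902458373) (nat_lit 166132187640) (.two (nat_lit 2902458373) (nat_lit 843056088) (.two (nat_lit 16777217) (nat_lit 183949592229) (.two (nat_lit 16777216) (nat_lit 4199772) (.one (nat_lit 4201409) .nil))))))))),
   .two (nat_lit 1847590977) (nat_lit 10552868901) (.two (nat_lit 1847590927) (nat_lit 4613734602) (.two (nat_lit 620757000) (nat_lit 156365750734) (.two (nat_lit 2887778306) (nat_lit 16779836) (.two (nat_lit 184549379) (nat_lit 2098138) (.two (nat_lit 2097153) (nat_lit 318771258) (.two (nat_lit 2097152) (nat_lit 318771258) (.one (nat_lit 16784322) .nil))))))),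
   .two (nat_lit 620757059) (nat_lit 2424307751) (.two (nat_lit 721420303) (nat_lit 2424307751) (.two (nat_lit 176160776) (nat_lit 183928619231) (.two (nat_lit 8388613) (nat_lit 620757496) (.two (nat_lit 8388609) (nat_lit 166144771084) (.two (nat_lit 1048576) (nat_lit 16782685) (.one (nat_lit 16785643) .nil)))))),
   .two (nat_lit 3525312576) (nat_lit 174755676231) (.two (nat_lit 156971827215) (nat_lit 3525312707) (.two (nat_lit 19532873736) (nat_lit 3021996255) (.two (nat_lit 157038936069) (nat_lit 174686470648) (.two (nat_lit 34603009) (nat_lit 10336866360) (.two (nat_lit 1048576) (nat_lit 10336866360) (.one (nat_lit 2102754) .nil)))))),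
   .two (nat_lit 19029557269) (nat_lit 880803953) (.two (nat_lit 880803953) (nat_lit 10506731557) (.two (nat_lit 157038936079) (nat_lit 1283457221) (.two (nat_lit 713031695) (nat_lit 3024093386) (.two (nat_lit 157038936072) (nat_lit 159224168902) (.two (nat_lit 157038936072) (nat_lit 880804065) (.two (nat_lit 46409973764) (nat_lit 28093449172) (.two (nat_lit 46409973764) (nat_lit 3464496082) (.two (nat_lit 4194305) (nat_lit 174692765610) (.two (nat_lit 4194304) (nat_lit 8394078) (.one (nat_lit 8397036) .nil)))))))))),
   .two (nat_lit 11513364594) (nat_lit 12054429734) (.two (nat_lit 13195280399) (nat_lit 47584378919) (.two (nat_lit 13195280399) (nat_lit 47584379079) (.two (nat_lit 12050235400) (nat_lit 158083318231) (.two (nat_lit 276824071) (nat_lit 183913941110) (.two (nat_lit 184989777925) (nat_lit 159224169430) (.two (nat_lit 8388611) (nat_lit 21778926279) (.two (nat_lit 8388609) (nat_lit 21778926279) (.two (nat_lit 1048576) (nat_lit 2104110) (.one (nat_lit 2105581) .nil))))))))),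
   .two (nat_lit 4605345858) (nat_lit 2990538823) (.two (nat_lit 4605345807) (nat_lit 21814575143) (.two (nat_lit 4605345800) (nat_lit 19130221015) (.two (nat_lit 46414168069) (nat_lit 28693234646) (.two (nat_lit 620756993) (nat_lit 243273784) (.two (nat_lit 16777216) (nat_lit 243273784) (.one (nat_lit 8397038) .nil)))))),
   .two (nat_lit 46510637076) (nat_lit 156365750394) (.two (nat_lit 46510637122) (nat_lit 157036838949) (.two (nat_lit 10504634383) (nat_lit 10003415671) (.two (nat_lit 270532614) (nat_lit 11614029893) (.two (nat_lit 9768534023) (nat_lit 2097629) (.two (nat_lit 2887778306) (nat_lit 4198188) (.two (nat_lit 1178599427) (nat_lit 2099774) (.two (nat_lit 2097153) (nat_lit 4199644) (.two (nat_lit 2097152) (nat_lit 4201265) (.one (nat_lit 2104261) .nil))))))))),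
   .two (nat_lit 46474985490) (nat_lit 3028287602) (.two (nat_lit 46978301976) (nat_lit 21785215074) (.two (nat_lit 46407876616) (nat_lit 3464495329) (.two (nat_lit 2097157) (nat_lit 183853122514) (.two (nat_lit 4599054341) (nat_lit 19537068267) (.two (nat_lit 2097153) (nat_lit 165532403353) (.two (nat_lit 8388608) (nat_lit 18925755282) (.one (nat_lit 18925755282) .nil))))))),
   .two (nat_lit 13222543381) (nat_lit 46477082744) (.two (nat_lit 11477712933) (nat_lit 46477082744) (.two (nat_lit 28693233679) (nat_lit 166130090193) (.two (nat_lit 2887778319) (nat_lit 10439623159) (.two (nat_lit 28693233672) (nat_lit 157036839384) (.two (nat_lit 2887778312) (nat_lit 641729015) (.two (nat_lit 166132187140) (nat_lit 20705184309) (.two (nat_lit 166130089989) (nat_lit 3557819935) (.two (nat_lit 2097153) (nat_lit 4198337) (.two (nat_lit 2097152) (nat_lit 4199776) (.one (nat_lit 4202739) .nil)))))))))),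
   .two (nat_lit 16777280) (nat_lit 28093448229) (.two (nat_lit 184993972239) (nat_lit 10015998147) (.two (nat_lit 184549384) (nat_lit 159257723342) (.two (nat_lit 713031684) (nat_lit 13224641491) (.two (nat_lit 713031684) (nat_lit 1279262955) (.two (nat_lit 16777217) (nat_lit 205525050) (.two (nat_lit 8388608) (nat_lit 205525050) (.one (nat_lit 16785652) .nil))))))),
   .two (nat_lit 8388675) (nat_lit 117440580) (.two (nat_lit 101711887) (nat_lit 174692761638) (.two (nat_lit 101711887) (nat_lit 174692761696) (.two (nat_lit 11492392968) (nat_lit 4034920671) (.two (nat_lit 822083591) (nat_lit 19604178222) (.two (nat_lit 822083589) (nat_lit 1417675256) (.two (nat_lit 50331651) (nat_lit 8390187) (.two (nat_lit 34603009) (nat_lit 855642180) (.two (nat_lit 1048576) (nat_lit 16784182) (.one (nat_lit 1055689) .nil))))))))),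
   .two (nat_lit 183949590548) (nat_lit 156364701824) (.two (nat_lit 12117344370) (nat_lit 174752530469) (.two (nat_lit 1916796943) (nat_lit 13187940551) (.two (nat_lit 11479810063) (nat_lit 68157642) (.two (nat_lit 28757196808) (nat_lit 19029557712) (.two (nat_lit 11479810056) (nat_lit 605028829) (.two (nat_lit 1846542341) (nat_lit 10338961951) (.two (nat_lit 605028353) (nat_lit 21781024647) (.two (nat_lit 16777216) (nat_lit 1055512) (.one (nat_lit 3527416735) .nil))))))))),
   .two (nat_lit 1795162179) (nat_lit 3527409702) (.two (nat_lit 754974735) (nat_lit 3527409702) (.two (nat_lit 4194312) (nat_lit 156581757404) (.two (nat_lit 2956984325) (nat_lit 185021236182) (.two (nat_lit 606076929) (nat_lit 4197073) (.two (nat_lit 1048576) (nat_lit 16784183) (.one (nat_lit 2104267) .nil)))))),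
   .two (nat_lit 158192369731) (nat_lit 639631428) (.two (nat_lit 639631375) (nat_lit 13203669030) (.two (nat_lit 639631375) (nat_lit 13203669088) (.two (nat_lit 2887778312) (nat_lit 174701150435) (.two (nat_lit 2887778312) (nat_lit 183861511013) (.two (nat_lit 721420290) (nat_lit 2098732) (.two (nat_lit 11476664323) (nat_lit 20705182676) (.two (nat_lit 34603009) (nat_lit 639634119) (.two (nat_lit 1048576) (nat_lit 16784184) (.one (nat_lit 16785653) .nil))))))))),
   .two (nat_lit 11626610804) (nat_lit 176160805) (.two (nat_lit 50331663) (nat_lit 813695074) (.two (nat_lit 50331656) (nat_lit 41943265) (.two (nat_lit 713031682) (nat_lit 2349861389) (.two (nat_lit 41943045) (nat_lit 46473937131) (.two (nat_lit 41943041) (nat_lit 1051347) (.two (nat_lit 1048576) (nat_lit 142611922) (.one (nat_lit 1057015) .nil))))))),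
   .two (nat_lit 156535619605) (nat_lit 874512503) (.two (nat_lit 46409973762) (nat_lit 2098141) (.one (nat_lit 4201422) .nil)),
   .two (nat_lit 158646403090) (nat_lit 166197198977) (.two (nat_lit 28757196815) (nat_lit 4599055311) (.two (nat_lit 28757196808) (nat_lit 4599055311) (.two (nat_lit 705691650) (nat_lit 2098734) (.two (nat_lit 1276116996) (nat_lit 4599055311) (.two (nat_lit 606076929) (nat_lit 839912141) (.two (nat_lit 1048576) (nat_lit 2101326) (.one (nat_lit 1057016) .nil))))))),
   .two (nat_lit 20638072851) (nat_lit 8388672) (.two (nat_lit 20644364303) (nat_lit 9766436959) (.two (nat_lit 158144135176) (nat_lit 46481277434) (.two (nat_lit 20638072837) (nat_lit 1384121291) (.two (nat_lit 1277165573) (nat_lit 2927624697) (.two (nat_lit 2097153) (nat_lit 3028289183) (.two (nat_lit 8388608) (nat_lit 2101327) (.one (nat_lit 8394217) .nil))))))),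
   .two (nat_lit 2889875475) (nat_lit 46978302073) (.two (nat_lit 159232557071) (nat_lit 9766436962) (.two (nat_lit 16777224) (nat_lit 1344274657) (.two (nat_lit 16777220) (nat_lit 2098130) (.two (nat_lit 16777220) (nat_lit 46978302187) (.two (nat_lit 16777217) (nat_lit 2954888857) (.two (nat_lit 16777216) (nat_lit 337644330) (.one (nat_lit 16785658) .nil))))))),
   .two (nat_lit 310378517) (nat_lit 168820856) (.two (nat_lit 46409973775) (nat_lit 880803938) (.two (nat_lit 68157448) (nat_lit 13195280609) (.two (nat_lit 183853121538) (nat_lit 1049566) (.two (nat_lit 4601151493) (nat_lit 158150426859) (.two (nat_lit 156372041729) (nat_lit 19596839635) (.two (nat_lit 4194304) (nat_lit 1052752) (.one (nat_lit 1057019) .nil))))))),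
   .two (nat_lit 171966482) (nat_lit 9974055032) (.two (nat_lit 35651621) (nat_lit 9974055032) (.two (nat_lit 46414168079) (nat_lit 3458203857) (.two (nat_lit 176160783) (nat_lit 3527409866) (.two (nat_lit 46414168072) (nat_lit 165526110680) (.two (nat_lit 176160776) (nat_lit 46980399581) (.two (nat_lit 20638072834) (nat_lit 158083320333) (.two (nat_lit 3458203653) (nat_lit 159253530143) (.two (nat_lit 606076929) (nat_lit 8393952) (.two (nat_lit 2097152) (nat_lit 8395581) (.one (nat_lit 2105596) .nil)))))))))),
   .two (nat_lit 285212690) (nat_lit 11618222192) (.two (nat_lit 654311534) (nat_lit 3028287525) (.two (nat_lit 713031695) (nat_lit 788529351) (.two (nat_lit 713031695) (nat_lit 2902458463) (.two (nat_lit 713031688) (nat_lit 1962934736) (.two (nat_lit 713031688) (nat_lit 1191182561) (.two (nat_lit 184549380) (nat_lit 183853124098) (.two (nat_lit 16777217) (nat_lit 20644365986) (.two (nat_lit 16777216) (nat_lit 1384125790) (.one (nat_lit 3573554091) .nil))))))))),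
   .two (nat_lit 1277165587) (nat_lit 3457155193) (.two (nat_lit 4613734415) (nat_lit 19027460194) (.two (nat_lit 4613734408) (nat_lit 1847591137) (.two (nat_lit 9866051589) (nat_lit 183913939934) (.two (nat_lit 9866051589) (nat_lit 20705181928) (.two (nat_lit 34603009) (nat_lit 28758247076) (.two (nat_lit 1048576) (nat_lit 16780089) (.one (nat_lit 16785662) .nil))))))),
   .two (nat_lit 47555018789) (nat_lit 183928619046) (.two (nat_lit 50331715) (nat_lit 9940500681) (.two (nat_lit 165532401679) (nat_lit 721421154) (.two (nat_lit 165532401672) (nat_lit 50332152) (.two (nat_lit 156372041735) (nat_lit 4043311659) (.two (nat_lit 10343153669) (nat_lit 822084617) (.two (nat_lit 10343153669) (nat_lit 156380432013) (.two (nat_lit 612368385) (nat_lit 11559507255) (.two (nat_lit 8388608) (nat_lit 46422563695) (.one (nat_lit 156581762550) .nil))))))))),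
   .two (nat_lit 243269653) (nat_lit 158158815270) (.two (nat_lit 16777283) (nat_lit 9940500681) (.two (nat_lit 184549410) (nat_lit 156372041826) (.two (nat_lit 28093448207) (nat_lit 184550242) (.two (nat_lit 159224168454) (nat_lit 2969568911) (.two (nat_lit 156372041735) (nat_lit 12633246251) (.two (nat_lit 10343153669) (nat_lit 9948890767) (.two (nat_lit 156372041731) (nat_lit 157051522966) (.two (nat_lit 612368385) (nat_lit 2969572663) (.two (nat_lit 8388608) (nat_lit 183861517167) (.one (nat_lit 16782847) .nil)))))))))),
   .two (nat_lit 243269653) (nat_lit 50331843) (.two (nat_lit 16777280) (nat_lit 156372041826) (.two (nat_lit 165532401679) (nat_lit 2969567691) (.two (nat_lit 16777231) (nat_lit 46514831593) (.two (nat_lit 165532401672) (nat_lit 822084552) (.two (nat_lit 16777224) (nat_lit 46514831593) (.two (nat_lit 10343153669) (nat_lit 2902460044) (.two (nat_lit 20644364291) (nat_lit 184551051) (.two (nat_lit 612368385) (nat_lit 4613737247) (.two (nat_lit 8388608) (nat_lit 16781455) (.one (nat_lit 16784365) .nil)))))))))),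
   .two (nat_lit 16777280) (nat_lit 10343153762) (.two (nat_lit 16777231) (nat_lit 2894069995) (.two (nat_lit 16777224) (nat_lit 2894069995) (.two (nat_lit 183853121538) (nat_lit 16778902) (.two (nat_lit 41943041) (nat_lit 16778961) (.two (nat_lit 8388608) (nat_lit 16780108) (.one (nat_lit 16782848) .nil)))))),
   .two (nat_lit 8388643) (nat_lit 158144135206) (.two (nat_lit 169869377) (nat_lit 10947133638) (.two (nat_lit 4194319) (nat_lit 11014242531) (.two (nat_lit 171966470) (nat_lit 165525064195) (.two (nat_lit 2097159) (nat_lit 8390177) (.two (nat_lit 4194308) (nat_lit 3565159432) (.two (nat_lit 2097155) (nat_lit 205524899) (.two (nat_lit 2097153) (nat_lit 8391468) (.two (nat_lit 1048576) (nat_lit 2102718) (.one (nat_lit 1055727) .nil))))))))),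
   .two (nat_lit 158091706406) (nat_lit 2418016388) (.two (nat_lit 158158815239) (nat_lit 1913652882) (.two (nat_lit 4599054341) (nat_lit 10552869899) (.two (nat_lit 4194304) (nat_lit 16781457) (.one (nat_lit 1057053) .nil)))),
   .two (nat_lit 46409973779) (nat_lit 19545457259) (.two (nat_lit 11492392975) (nat_lit 159216828641) (.two (nat_lit 11492392968) (nat_lit 2923430122) (.two (nat_lit 171966469) (nat_lit 2902460043) (.two (nat_lit 4194305) (nat_lit 2969568977) (.two (nat_lit 1048576) (nat_lit 608178317) (.one (nat_lit 16784369) .nil)))))),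
   .two (nat_lit 10015997973) (nat_lit 1913651814) (.two (nat_lit 46508540012) (nat_lit 184549474) (.two (nat_lit 16777231) (nat_lit 19026411984) (.two (nat_lit 16777231) (nat_lit 28690088161) (.two (nat_lit 2887778312) (nat_lit 16778184) (.two (nat_lit 16777224) (nat_lit 3020947691) (.two (nat_lit 2887778306) (nat_lit 1052596) (.two (nat_lit 184549379) (nat_lit 18925749911) (.two (nat_lit 2097153) (nat_lit 16782668) (.two (nat_lit 1048576) (nat_lit 16781458) (.one (nat_lit 19127081951) .nil)))))))))),
   .two (nat_lit 174686470165) (nat_lit 9798942922) (.two (nat_lit 1846542351) (nat_lit 166230753505) (.two (nat_lit 639631368) (nat_lit 34603241) (.two (nat_lit 166129041410) (nat_lit 2098840) (.two (nat_lit 9766436865) (nat_lit 68160289) (.two (nat_lit 2097152) (nat_lit 1052819) (.one (nat_lit 2105632) .nil)))))),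
   .two (nat_lit 171966482) (nat_lit 343933023) (.two (nat_lit 4194319) (nat_lit 47555018974) (.two (nat_lit 4194312) (nat_lit 847249640) (.two (nat_lit 46414168066) (nat_lit 1050265) (.two (nat_lit 34603009) (nat_lit 13191088935) (.two (nat_lit 1048576) (nat_lit 13224643406) (.one (nat_lit 8397091) .nil)))))),
   .two (nat_lit 46409973781) (nat_lit 9982443881) (.two (nat_lit 285212709) (nat_lit 1212153951) (.two (nat_lit 1191182351) (nat_lit 13224640966) (.two (nat_lit 1191182351) (nat_lit 1212154080) (.two (nat_lit 19532873736) (nat_lit 285214361) (.two (nat_lit 1191182344) (nat_lit 12620660968) (.two (nat_lit 28693233669) (nat_lit 11559504675) (.two (nat_lit 156367847429) (nat_lit 20753417879) (.two (nat_lit 37748737) (nat_lit 11559504675) (.two (nat_lit 4194304) (nat_lit 11593060498) (.one (nat_lit 11492400095) .nil)))))))))),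
   .two (nat_lit 185035915331) (nat_lit 306184230) (.two (nat_lit 4194312) (nat_lit 142606840) (.two (nat_lit 4194308) (nat_lit 10351543308) (.two (nat_lit 1048576) (nat_lit 1950355601) (.one (nat_lit 4201458) .nil)))),
   .two (nat_lit 10506731587) (nat_lit 1746927655) (.two (nat_lit 9766436872) (nat_lit 10506732024) (.two (nat_lit 2887778308) (nat_lit 1346372096) (.two (nat_lit 4194304) (nat_lit 2102719) (.one (nat_lit 8395763) .nil)))),
   .two (nat_lit 4647288852) (nat_lit 13191086275) (.two (nat_lit 10003415077) (nat_lit 1862271174) (.two (nat_lit 2887778342) (nat_lit 28089253986) (.two (nat_lit 159232557071) (nat_lit 9867100383) (.two (nat_lit 37748751) (nat_lit 285213128) (.two (nat_lit 2954887176) (nat_lit 889194017) (.two (nat_lit 2954887175) (nat_lit 159232558024) (.two (nat_lit 4194306) (nat_lit 2099913) (.two (nat_lit 2887778307) (nat_lit 3460304803) (.two (nat_lit 4194305) (nat_lit 9967766310) (.two (nat_lit 2097152) (nat_lit 16784282) (.one (nat_lit 20638081290) .nil))))))))))),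
   .two (nat_lit 3558867009) (nat_lit 19599982687) (.two (nat_lit 1277165583) (nat_lit 20740833741) (.two (nat_lit 203423752) (nat_lit 2956984553) (.two (nat_lit 46409973764) (nat_lit 3558868619) (.two (nat_lit 4194305) (nat_lit 46474987217) (.two (nat_lit 4194304) (nat_lit 3525315407) (.one (nat_lit 2105637) .nil)))))),
   .two (nat_lit 3558866964) (nat_lit 156535620237) (.two (nat_lit 3527409679) (nat_lit 47582281953) (.two (nat_lit 203423752) (nat_lit 156535619816) (.two (nat_lit 41943045) (nat_lit 174755677848) (.two (nat_lit 2097153) (nat_lit 4198462) (.two (nat_lit 2097152) (nat_lit 8394178) (.one (nat_lit 8397094) .nil)))))),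
   .two (nat_lit 673185813) (nat_lit 339738826) (.two (nat_lit 47548727311) (nat_lit 174688567521) (.two (nat_lit 2954887176) (nat_lit 21814575337) (.two (nat_lit 169869314) (nat_lit 4195994) (.two (nat_lit 606076929) (nat_lit 4198460) (.two (nat_lit 2097152) (nat_lit 4198542) (.one (nat_lit 4202791) .nil)))))),
   .two (nat_lit 46409973779) (nat_lit 10343153859) (.two (nat_lit 156372041743) (nat_lit 46510637278) (.two (nat_lit 18933088264) (nat_lit 10506731754) (.two (nat_lit 4194306) (nat_lit 8392765) (.two (nat_lit 4194305) (nat_lit 8392765) (.two (nat_lit 4194304) (nat_lit 158653747337) (.one (nat_lit 8397096) .nil)))))),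
   .two (nat_lit 21814575125) (nat_lit 47563407455) (.two (nat_lit 46422556683) (nat_lit 19027460561) (.two (nat_lit 16777224) (nat_lit 19530776811) (.two (nat_lit 11484004357) (nat_lit 46409975506) (.two (nat_lit 8388609) (nat_lit 47548729042) (.two (nat_lit 2097152) (nat_lit 16780110) (.one (nat_lit 2105641) .nil)))))),
   .two (nat_lit 184993972290) (nat_lit 157035790375) (.two (nat_lit 184986632200) (nat_lit 10544480768) (.two (nat_lit 705691652) (nat_lit 10544480768) (.two (nat_lit 8388608) (nat_lit 806360511) (.one (nat_lit 4201463) .nil)))),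
   .two (nat_lit 2988441713) (nat_lit 171966502) (.two (nat_lit 46407876616) (nat_lit 46980399608) (.two (nat_lit 4599054341) (nat_lit 11580474380) (.two (nat_lit 2097152) (nat_lit 156465370605) (.one (nat_lit 156465370605) .nil)))),
   .two (nat_lit 721420404) (nat_lit 1920991271) (.two (nat_lit 50331656) (nat_lit 20644364792) (.two (nat_lit 16777220) (nat_lit 12121539596) (.two (nat_lit 16777216) (nat_lit 157035795885) (.one (nat_lit 4598012903) .nil)))),
   .two (nat_lit 9967763572) (nat_lit 4598005799) (.two (nat_lit 158077026312) (nat_lit 1947206136) (.two (nat_lit 21778923525) (nat_lit 156364702732) (.two (nat_lit 2097152) (nat_lit 11546924479) (.one (nat_lit 9902758887) .nil)))),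
   .two (nat_lit 2954887284) (nat_lit 158662131750) (.two (nat_lit 9766436872) (nat_lit 18928894456) (.two (nat_lit 2887778308) (nat_lit 19545457676) (.two (nat_lit 8388608) (nat_lit 2101401) (.one (nat_lit 2105648) .nil)))),
   .two (nat_lit 158143086613) (nat_lit 742391846) (.two (nat_lit 166196150339) (nat_lit 2956984517) (.two (nat_lit 272629794) (nat_lit 156566028490) (.two (nat_lit 1846542351) (nat_lit 843055970) (.two (nat_lit 10503585798) (nat_lit 4634706892) (.two (nat_lit 12117344263) (nat_lit 20704134685) (.two (nat_lit 166129041412) (nat_lit 1279264397) (.two (nat_lit 11479810051) (nat_lit 806358920) (.two (nat_lit 37748737) (nat_lit 1052738) (.two (nat_lit 4194304) (nat_lit 28690093490) (.one (nat_lit 1055739) .nil)))))))))),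
   .two (nat_lit 8388672) (nat_lit 2416967718) (.two (nat_lit 16777223) (nat_lit 19596839458) (.two (nat_lit 16777219) (nat_lit 183845782540) (.two (nat_lit 16777216) (nat_lit 4201382) (.one (nat_lit 4202803) .nil)))),
   .two (nat_lit 20719861798) (nat_lit 184987680807) (.two (nat_lit 12114198536) (nat_lit 2098129) (.two (nat_lit 1175453699) (nat_lit 16778909) (.two (nat_lit 4194304) (nat_lit 16782789) (.one (nat_lit 16784380) .nil)))),
   .two (nat_lit 159224168557) (nat_lit 2349858854) (.two (nat_lit 183845781512) (nat_lit 20644364792) (.two (nat_lit 46407876611) (nat_lit 1410335756) (.two (nat_lit 2097152) (nat_lit 8394182) (.one (nat_lit 16785716) .nil)))),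
   .two (nat_lit 4601151552) (nat_lit 11618222175) (.two (nat_lit 4601151503) (nat_lit 20644364510) (.two (nat_lit 184993972232) (nat_lit 4601151720) (.two (nat_lit 183853121541) (nat_lit 46510638731) (.two (nat_lit 8388609) (nat_lit 46980400849) (.two (nat_lit 8388608) (nat_lit 4197202) (.one (nat_lit 4202805) .nil)))))),
   .two (nat_lit 156569174211) (nat_lit 1847590950) (.two (nat_lit 11543773192) (nat_lit 4028629505) (.two (nat_lit 8388608) (nat_lit 102767571) .nil)),
   .two (nat_lit 12633243686) (nat_lit 109051943) (.two (nat_lit 10336862215) (nat_lit 19612566016) (.two (nat_lit 1048576) (nat_lit 16782835) .nil)),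
   .two (nat_lit 11559501843) (nat_lit 37246468321) (.two (nat_lit 9881780239) (nat_lit 159250383081) (.two (nat_lit 183845781508) (nat_lit 9881781970) (.two (nat_lit 34603009) (nat_lit 47563410251) (.one (nat_lit 16784383) .nil)))),
   .two (nat_lit 285212690) (nat_lit 2923430113) (.two (nat_lit 9781116943) (nat_lit 13191086312) (.two (nat_lit 4194308) (nat_lit 218105554) (.two (nat_lit 37748737) (nat_lit 16780113) (.one (nat_lit 16785726) .nil)))),
   .two (nat_lit 13187940390) (nat_lit 13237223630) (.two (nat_lit 50331661) (nat_lit 235930112) (.two (nat_lit 2097152) (nat_lit 4201442) .nil)),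
   .two (nat_lit 20711473190) (nat_lit 4613734438) (.two (nat_lit 713031688) (nat_lit 12062818817) (.two (nat_lit 8388608) (nat_lit 16782843) .nil)),
   .two (nat_lit 16777235) (nat_lit 69206241) (.two (nat_lit 16777231) (nat_lit 166130090219) (.two (nat_lit 12062818309) (nat_lit 18928896808) (.two (nat_lit 2097153) (nat_lit 46489669770) (.one (nat_lit 2105664) .nil)))),
   .two (nat_lit 159266111509) (nat_lit 11580473569) (.two (nat_lit 9948889103) (nat_lit 158647451882) (.two (nat_lit 708837381) (nat_lit 11492394705) (.two (nat_lit 4194305) (nat_lit 740298893) (.one (nat_lit 19599991113) .nil)))),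
   .two (nat_lit 3003121702) (nat_lit 10540285991) (.two (nat_lit 156372041735) (nat_lit 10338960393) (.two (nat_lit 2097152) (nat_lit 16784356) .nil)),
   .two (nat_lit 205520934) (nat_lit 10538188838) (.two (nat_lit 13195280391) (nat_lit 4195988) (.two (nat_lit 16777216) (nat_lit 2104293) .nil)),
   .two (nat_lit 12121538598) (nat_lit 174755676198) (.two (nat_lit 156367847432) (nat_lit 183846831116) (.two (nat_lit 16777216) (nat_lit 4028634620) .nil)),
   .two (nat_lit 239075366) (nat_lit 102760487) (.two (nat_lit 3525312519) (nat_lit 4195989) (.two (nat_lit 2097152) (nat_lit 16784358) .nil)),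
   .two (nat_lit 184549395) (nat_lit 28793897185) (.two (nat_lit 620757007) (nat_lit 21785215208) (.two (nat_lit 184549381) (nat_lit 11517561639) (.two (nat_lit 4194305) (nat_lit 184993975118) (.one (nat_lit 4202817) .nil)))),
   .two (nat_lit 47582281766) (nat_lit 641728550) (.two (nat_lit 46407876616) (nat_lit 166132188169) (.two (nat_lit 16777216) (nat_lit 47582288860) .nil)),
   .two (nat_lit 12117344294) (nat_lit 1929379878) (.two (nat_lit 4194312) (nat_lit 12062819340) (.two (nat_lit 2097152) (nat_lit 1055719) .nil)),
   .two (nat_lit 11479810068) (nat_lit 183947493837) (.two (nat_lit 2889875467) (nat_lit 2098127) (.two (nat_lit 46978301957) (nat_lit 46980400849) (.two (nat_lit 2097153) (nat_lit 11010050895) (.one (nat_lit 2105666) .nil)))),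
   .two (nat_lit 21812477990) (nat_lit 156566028326) (.two (nat_lit 158077026312) (nat_lit 21207450635) (.two (nat_lit 8388608) (nat_lit 2104299) .nil)),
   .two (nat_lit 3460300838) (nat_lit 10537140262) (.two (nat_lit 184419352584) (nat_lit 18925749909) (.two (nat_lit 8388608) (nat_lit 1055724) .nil)),
   .two (nat_lit 339738644) (nat_lit 176161000) (.two (nat_lit 8388610) (nat_lit 4197200) (.one (nat_lit 2923438406) .nil)),
   .two (nat_lit 2889875475) (nat_lit 10437526007) (.two (nat_lit 4194306) (nat_lit 9974059133) (.one (nat_lit 20740841796) .nil)),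
   .two (nat_lit 304087058) (nat_lit 809501177) (.two (nat_lit 166130089986) (nat_lit 4198537) (.one (nat_lit 2105674) .nil)),
   .two (nat_lit 83886095) (nat_lit 21777874988) (.two (nat_lit 1358954504) (nat_lit 1779433736) (.two (nat_lit 4599054341) (nat_lit 721421610) (.two (nat_lit 2097152) (nat_lit 16784504) .nil))),
   .two (nat_lit 41943055) (nat_lit 166230753324) (.two (nat_lit 11476664328) (nat_lit 1216348294) (.two (nat_lit 34603013) (nat_lit 19599983231) (.two (nat_lit 4194305) (nat_lit 9900656693) (.two (nat_lit 4194304) (nat_lit 2100836) (.one (nat_lit 2105697) .nil))))),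
   .two (nat_lit 16777231) (nat_lit 19130220657) (.two (nat_lit 16777220) (nat_lit 47550825864) (.two (nat_lit 16777216) (nat_lit 4199991) (.one (nat_lit 4202850) .nil))),
   .two (nat_lit 156968681487) (nat_lit 159251431448) (.two (nat_lit 174753579016) (nat_lit 12617515118) (.two (nat_lit 166129041412) (nat_lit 47582282406) (.two (nat_lit 9765388289) (nat_lit 166197201803) (.two (nat_lit 1048576) (nat_lit 2102840) (.one (nat_lit 1054660) .nil))))),
   .two (nat_lit 218103823) (nat_lit 183853121673) (.two (nat_lit 184419352581) (nat_lit 1182797229) (.one (nat_lit 8393755) .nil)),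
   .two (nat_lit 75497487) (nat_lit 184416206962) (.two (nat_lit 4599054341) (nat_lit 47555019355) (.two (nat_lit 2097153) (nat_lit 8390703) (.two (nat_lit 1048576) (nat_lit 2101670) (.one (nat_lit 2105699) .nil)))),
   .two (nat_lit 183853121551) (nat_lit 9766436989) (.two (nat_lit 13191086085) (nat_lit 1786774122) (.two (nat_lit 2097153) (nat_lit 19599983938) (.two (nat_lit 4194304) (nat_lit 8393178) (.one (nat_lit 4202852) .nil)))),
   .two (nat_lit 1178599439) (nat_lit 672137241) (.two (nat_lit 742391816) (nat_lit 1175453815) (.two (nat_lit 158144135173) (nat_lit 303039332) (.two (nat_lit 2097152) (nat_lit 1209010702) (.one (nat_lit 2105687) .nil)))),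
   .two (nat_lit 1745879055) (nat_lit 28758245627) (.two (nat_lit 183853121541) (nat_lit 10335814328) (.two (nat_lit 8388609) (nat_lit 1050747) (.two (nat_lit 8388608) (nat_lit 1054265) (.one (nat_lit 1055964) .nil)))),
   .two (nat_lit 809500687) (nat_lit 1358954633) (.two (nat_lit 1343225861) (nat_lit 184989779278) (.two (nat_lit 1048576) (nat_lit 4634708503) (.one (nat_lit 4201693) .nil))),
   .two (nat_lit 843055144) (nat_lit 12047089707) (.two (nat_lit 158143086600) (nat_lit 13224640649) (.two (nat_lit 9948889093) (nat_lit 772801902) (.two (nat_lit 16777216) (nat_lit 2319453651) (.one (nat_lit 1057125) .nil)))),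
   .two (nat_lit 352321559) (nat_lit 183949590645) (.two (nat_lit 13191086085) (nat_lit 1224737407) (.two (nat_lit 156364701697) (nat_lit 166232853394) (.two (nat_lit 1048576) (nat_lit 102764955) (.one (nat_lit 2105702) .nil)))),
   .two (nat_lit 809500687) (nat_lit 352321559) (.two (nat_lit 4613734408) (nat_lit 12117344371) (.two (nat_lit 16777220) (nat_lit 608176171) (.two (nat_lit 2097152) (nat_lit 1054266) (.one (nat_lit 16785767) .nil)))),
   .two (nat_lit 176160783) (nat_lit 166197198948) (.two (nat_lit 612368392) (nat_lit 159217878049) (.two (nat_lit 16777217) (nat_lit 46977255468) (.two (nat_lit 2097152) (nat_lit 8394299) (.one (nat_lit 2105704) .nil)))),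
   .two (nat_lit 41943055) (nat_lit 822084188) (.two (nat_lit 8388609) (nat_lit 185002362948) (.two (nat_lit 4194304) (nat_lit 4605349313) (.one (nat_lit 8396004) .nil))),
   .two (nat_lit 101711887) (nat_lit 16777240) (.two (nat_lit 285212680) (nat_lit 1779433588) (.two (nat_lit 16777220) (nat_lit 11476664969) (.two (nat_lit 9781116929) (nat_lit 806357930) (.two (nat_lit 2097152) (nat_lit 1054271) (.one (nat_lit 2105705) .nil))))),
   .two (nat_lit 169869327) (nat_lit 1753219182) (.two (nat_lit 169869316) (nat_lit 47555019418) (.two (nat_lit 8388609) (nat_lit 1377830948) (.two (nat_lit 1048576) (nat_lit 2100846) (.one (nat_lit 1057130) .nil)))),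
   .two (nat_lit 612368399) (nat_lit 20638072855) (.two (nat_lit 9940500488) (nat_lit 156567076992) (.two (nat_lit 69206021) (nat_lit 159224168805) (.two (nat_lit 2097153) (nat_lit 1749026837) (.two (nat_lit 4194304) (nat_lit 8394306) (.one (nat_lit 8397163) .nil))))),
   .two (nat_lit 41943055) (nat_lit 10552868907) (.two (nat_lit 721420296) (nat_lit 11476664434) (.two (nat_lit 721420292) (nat_lit 10537140898) (.two (nat_lit 620756993) (nat_lit 4027583373) (.two (nat_lit 16777216) (nat_lit 1053163) (.one (nat_lit 1057132) .nil))))),
   .two (nat_lit 4194319) (nat_lit 47555018767) (.two (nat_lit 37748744) (nat_lit 11543773320) (.two (nat_lit 4194308) (nat_lit 772801587) (.two (nat_lit 606076929) (nat_lit 47588575263) (.two (nat_lit 2097152) (nat_lit 612371957) (.one (nat_lit 2105709) .nil))))),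
   .two (nat_lit 713031695) (nat_lit 2902458725) (.two (nat_lit 605028353) (nat_lit 46422561124) (.one (nat_lit 8396024) .nil)),
   .two (nat_lit 3458203663) (nat_lit 4605345916) (.two (nat_lit 713031685) (nat_lit 9799992009) (.two (nat_lit 34603009) (nat_lit 183846832167) (.two (nat_lit 1048576) (nat_lit 2102851) (.one (nat_lit 1057134) .nil)))),
   .two (nat_lit 169869327) (nat_lit 9881780291) (.two (nat_lit 34603013) (nat_lit 46992982375) (.two (nat_lit 605028353) (nat_lit 21223180310) (.two (nat_lit 1048576) (nat_lit 2102854) (.one (nat_lit 1057135) .nil)))),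
   .two (nat_lit 612368399) (nat_lit 3036676206) (.two (nat_lit 159224168453) (nat_lit 1929380521) (.two (nat_lit 612368385) (nat_lit 638584943) (.two (nat_lit 1048576) (nat_lit 8394312) (.one (nat_lit 8397168) .nil)))),
   .two (nat_lit 46407876623) (nat_lit 165532401779) (.two (nat_lit 47548727301) (nat_lit 20745028241) (.two (nat_lit 2097153) (nat_lit 813697063) (.two (nat_lit 8388608) (nat_lit 2102857) (.one (nat_lit 2105713) .nil)))),
   .two (nat_lit 620757016) (nat_lit 158077026560) (.two (nat_lit 10504634373) (nat_lit 318767823) (.two (nat_lit 9766436865) (nat_lit 3573548386) (.two (nat_lit 1048576) (nat_lit 2988445253) (.one (nat_lit 2105714) .nil)))),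
   .two (nat_lit 713031695) (nat_lit 3458203715) (.two (nat_lit 41943045) (nat_lit 37247517306) (.two (nat_lit 612368385) (nat_lit 673187156) (.two (nat_lit 8388608) (nat_lit 2101749) (.one (nat_lit 2104586) .nil)))),
   .two (nat_lit 9934209039) (nat_lit 19029557314) (.two (nat_lit 169869316) (nat_lit 11614028135) (.two (nat_lit 2097153) (nat_lit 9902753069) (.two (nat_lit 2097152) (nat_lit 4200010) (.one (nat_lit 4201746) .nil)))),
   .two (nat_lit 739246095) (nat_lit 10437525527) (.two (nat_lit 28691136520) (nat_lit 12147753025) (.two (nat_lit 11492392965) (nat_lit 12114199884) (.two (nat_lit 8388608) (nat_lit 37313582656) (.one (nat_lit 8397171) .nil)))),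
   .two (nat_lit 4194319) (nat_lit 645922918) (.two (nat_lit 185023332365) (nat_lit 12147753076) (.two (nat_lit 746586117) (nat_lit 1410335392) (.two (nat_lit 41943041) (nat_lit 47581235257) (.two (nat_lit 1048576) (nat_lit 2102864) (.one (nat_lit 1057140) .nil))))),
   .two (nat_lit 11559501839) (nat_lit 19128123528) (.two (nat_lit 16777221) (nat_lit 28791800895) (.two (nat_lit 605028353) (nat_lit 3472885037) (.two (nat_lit 1048576) (nat_lit 2104320) (.one (nat_lit 2104610) .nil)))),
   .two (nat_lit 754974735) (nat_lit 3527409775) (.two (nat_lit 4194308) (nat_lit 1795162720) (.two (nat_lit 16777217) (nat_lit 1379931700) (.one (nat_lit 16784690) .nil))),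
   .two (nat_lit 176160783) (nat_lit 18941476966) (.two (nat_lit 1426063373) (nat_lit 10007610211) (.two (nat_lit 16777216) (nat_lit 4638903911) (.one (nat_lit 4201784) .nil))),
   .two (nat_lit 809500687) (nat_lit 10385096729) (.two (nat_lit 10519314440) (nat_lit 13224640621) (.two (nat_lit 2902458372) (nat_lit 47584379748) (.two (nat_lit 2097152) (nat_lit 8395777) (.one (nat_lit 8397173) .nil)))),
   .two (nat_lit 12054429711) (nat_lit 183916036139) (.two (nat_lit 46980399112) (nat_lit 13188989287) (.two (nat_lit 4194305) (nat_lit 10336865716) (.one (nat_lit 2105718) .nil))),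
   .two (nat_lit 1745879055) (nat_lit 12117344321) (.two (nat_lit 46980399109) (nat_lit 18926797457) (.two (nat_lit 2097153) (nat_lit 4197297) (.two (nat_lit 2097152) (nat_lit 4634710446) (.one (nat_lit 2105719) .nil)))),
   .two (nat_lit 772800553) (nat_lit 156984410156) (.two (nat_lit 9781116941) (nat_lit 739246209) (.two (nat_lit 11543773189) (nat_lit 183928620408) (.two (nat_lit 16777216) (nat_lit 1054294) (.one (nat_lit 16785784) .nil)))),
   .two (nat_lit 2889875471) (nat_lit 11007950872) (.two (nat_lit 3527409672) (nat_lit 13188989443) (.two (nat_lit 47548727301) (nat_lit 166132188455) (.two (nat_lit 2097152) (nat_lit 156569176577) (.one (nat_lit 4201794) .nil)))),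
   .two (nat_lit 101711887) (nat_lit 21781020716) (.two (nat_lit 101711880) (nat_lit 12117344371) (.two (nat_lit 12117344261) (nat_lit 2920285485) (.two (nat_lit 4194304) (nat_lit 3524270291) .nil))),
   .two (nat_lit 276824079) (nat_lit 12117344279) (.two (nat_lit 1913651208) (nat_lit 310378630) (.two (nat_lit 13191086085) (nat_lit 156372042330) (.two (nat_lit 34603009) (nat_lit 28693235048) (.two (nat_lit 1048576) (nat_lit 4200023) (.one (nat_lit 1057145) .nil))))),
   .two (nat_lit 158144135208) (nat_lit 9866051627) (.two (nat_lit 19596836872) (nat_lit 158144135283) (.two (nat_lit 10939793413) (nat_lit 158144135781) (.two (nat_lit 156364701697) (nat_lit 3021999003) (.two (nat_lit 1048576) (nat_lit 2102873) (.one (nat_lit 2104646) .nil))))),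
   .two (nat_lit 306184216) (nat_lit 117440552) (.two (nat_lit 37748744) (nat_lit 117440627) (.two (nat_lit 654311429) (nat_lit 4634706569) (.two (nat_lit 620756993) (nat_lit 608176224) (.two (nat_lit 2097152) (nat_lit 156548206090) (.one (nat_lit 16785757) .nil))))),
   .two (nat_lit 46414168079) (nat_lit 21777874959) (.two (nat_lit 11543773192) (nat_lit 780140664) (.two (nat_lit 705691652) (nat_lit 19604177620) (.two (nat_lit 34603009) (nat_lit 8392886) (.two (nat_lit 8388608) (nat_lit 1054298) (.one (nat_lit 8397178) .nil))))),
   .two (nat_lit 4194319) (nat_lit 620757016) (.two (nat_lit 169869320) (nat_lit 1782579462) (.two (nat_lit 2097157) (nat_lit 19130221645) (.two (nat_lit 2097153) (nat_lit 19532876687) (.two (nat_lit 2097152) (nat_lit 4200027) (.one (nat_lit 4202875) .nil))))),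
   .two (nat_lit 28086108175) (nat_lit 159224168472) (.two (nat_lit 612368392) (nat_lit 11543773306) (.two (nat_lit 75497477) (nat_lit 3457156419) (.two (nat_lit 8388608) (nat_lit 1054301) (.one (nat_lit 1057148) .nil)))),
   .two (nat_lit 10385096728) (nat_lit 20738736169) (.two (nat_lit 1795162120) (nat_lit 20738736245) (.two (nat_lit 21777874949) (nat_lit 18941477959) (.two (nat_lit 605028353) (nat_lit 2101659) (.one (nat_lit 2105725) .nil)))),
   .two (nat_lit 10370416655) (nat_lit 2416967704) (.two (nat_lit 18925748232) (nat_lit 20738736242) (.two (nat_lit 1277165572) (nat_lit 9866052296) (.two (nat_lit 16777217) (nat_lit 19027461416) (.two (nat_lit 16777216) (nat_lit 807407999) (.one (nat_lit 2105726) .nil))))),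
   .two (nat_lit 75497487) (nat_lit 46406828152) (.two (nat_lit 183845781508) (nat_lit 184423547940) (.two (nat_lit 34603009) (nat_lit 13195284037) (.one (nat_lit 16785791) .nil))),
   .two (nat_lit 166132187151) (nat_lit 28758245391) (.two (nat_lit 639631368) (nat_lit 166132187201) (.two (nat_lit 203423749) (nat_lit 4194665) (.two (nat_lit 2097153) (nat_lit 11513366570) (.two (nat_lit 2097152) (nat_lit 4200031) (.one (nat_lit 2104656) .nil))))),
   .two (nat_lit 158646403096) (nat_lit 2923429990) (.two (nat_lit 169869320) (nat_lit 4030726211) (.two (nat_lit 2097157) (nat_lit 10942941254) (.two (nat_lit 2097152) (nat_lit 4198947) (.one (nat_lit 4202880) .nil)))),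
   .two (nat_lit 654311439) (nat_lit 20738737449) (.two (nat_lit 16777216) (nat_lit 2102880) (.one (nat_lit 2105729) .nil)),
   .two (nat_lit 272629775) (nat_lit 1426063403) (.two (nat_lit 9781116936) (nat_lit 339741204) (.one (nat_lit 4201811) .nil)),
   .two (nat_lit 1291845647) (nat_lit 47582282335) (.two (nat_lit 9781116929) (nat_lit 236981142) (.two (nat_lit 16777216) (nat_lit 2101797) (.one (nat_lit 2104661) .nil))),
   .two (nat_lit 11479810063) (nat_lit 1745879065) (.two (nat_lit 174752530440) (nat_lit 12117344365) (.two (nat_lit 10939793413) (nat_lit 12117344865) (.two (nat_lit 156364701697) (nat_lit 183949591844) (.two (nat_lit 1048576) (nat_lit 4198950) (.one (nat_lit 4202882) .nil))))),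
   .two (nat_lit 169869327) (nat_lit 2994733192) (.two (nat_lit 4605345797) (nat_lit 157035790697) (.two (nat_lit 606076929) (nat_lit 1051573) (.two (nat_lit 2097152) (nat_lit 8394337) (.one (nat_lit 8396118) .nil)))),
   .two (nat_lit 205520911) (nat_lit 156976021529) (.two (nat_lit 2961178632) (nat_lit 4601151623) (.two (nat_lit 176160773) (nat_lit 159219974819) (.two (nat_lit 8388609) (nat_lit 10906241116) (.two (nat_lit 1048576) (nat_lit 8394339) (.one (nat_lit 1057155) .nil))))),
   .two (nat_lit 809500687) (nat_lit 4613734423) (.two (nat_lit 16777224) (nat_lit 1916797795) (.two (nat_lit 16777216) (nat_lit 1916799489) (.one (nat_lit 4202884) .nil))),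
   .two (nat_lit 13203669007) (nat_lit 156372041967) (.two (nat_lit 8388613) (nat_lit 2099252) (.two (nat_lit 8388608) (nat_lit 12129930780) (.one (nat_lit 16784729) .nil))),
   .two (nat_lit 754974735) (nat_lit 874512428) (.two (nat_lit 11492392968) (nat_lit 20738736243) (.two (nat_lit 203423749) (nat_lit 13203669630) (.two (nat_lit 2097153) (nat_lit 16780214) (.two (nat_lit 16777216) (nat_lit 2102884) (.one (nat_lit 2104666) .nil))))),
   .two (nat_lit 276824079) (nat_lit 20638072847) (.two (nat_lit 41943048) (nat_lit 184986632307) (.two (nat_lit 8388612) (nat_lit 639631981) (.two (nat_lit 41943041) (nat_lit 2101431) (.two (nat_lit 1048576) (nat_lit 2102886) (.one (nat_lit 8397189) .nil))))),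
   .two (nat_lit 41943055) (nat_lit 117441142) (.two (nat_lit 8388609) (nat_lit 47596967516) (.one (nat_lit 16785798) .nil)),
   .two (nat_lit 4605345807) (nat_lit 21777874969) (.two (nat_lit 21207449608) (nat_lit 4605345857) (.two (nat_lit 20637024260) (nat_lit 183853122144) (.two (nat_lit 612368385) (nat_lit 157035793322) (.two (nat_lit 8388608) (nat_lit 1055746) (.one (nat_lit 8397191) .nil))))),
   .two (nat_lit 46414168079) (nat_lit 184986632207) (.two (nat_lit 11543773192) (nat_lit 813695238) (.two (nat_lit 1753219077) (nat_lit 2416968038) (.two (nat_lit 605028353) (nat_lit 276826205) (.two (nat_lit 8388608) (nat_lit 1053228) (.one (nat_lit 1057160) .nil))))),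
   .two (nat_lit 41943055) (nat_lit 654311466) (.two (nat_lit 11551113224) (nat_lit 2936012917) (.two (nat_lit 285212677) (nat_lit 9766437221) (.two (nat_lit 16777217) (nat_lit 37314629117) (.one (nat_lit 2105737) .nil)))),
   .two (nat_lit 612368399) (nat_lit 21777875054) (.two (nat_lit 713031685) (nat_lit 184416207502) (.two (nat_lit 34603009) (nat_lit 12155094370) (.two (nat_lit 1048576) (nat_lit 4200039) (.one (nat_lit 4202890) .nil)))),
   .two (nat_lit 822083599) (nat_lit 1779433539) (.two (nat_lit 16777220) (nat_lit 165525062301) (.two (nat_lit 2097153) (nat_lit 1051575) (.two (nat_lit 2097152) (nat_lit 1054312) (.one (nat_lit 2104683) .nil)))),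
   .two (nat_lit 16777231) (nat_lit 706740348) (.two (nat_lit 620756997) (nat_lit 1276118071) (.two (nat_lit 50331649) (nat_lit 2101432) (.two (nat_lit 1048576) (nat_lit 47596967497) (.one (nat_lit 156548209801) .nil)))),
   .two (nat_lit 8388623) (nat_lit 46523220011) (.two (nat_lit 50331656) (nat_lit 9974056252) (.two (nat_lit 1048576) (nat_lit 8394348) (.one (nat_lit 1057163) .nil))),
   .two (nat_lit 184993972239) (nat_lit 19529728015) (.two (nat_lit 2902458376) (nat_lit 19537068151) (.two (nat_lit 156364701701) (nat_lit 310379156) (.two (nat_lit 34603009) (nat_lit 156581759004) (.two (nat_lit 4194304) (nat_lit 16782957) (.one (nat_lit 16785804) .nil))))),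
   .two (nat_lit 10385096719) (nat_lit 19128123520) (.two (nat_lit 654311429) (nat_lit 3458204287) (.two (nat_lit 606076929) (nat_lit 11559504797) (.two (nat_lit 2097152) (nat_lit 16781876) (.one (nat_lit 16784768) .nil)))),
   .two (nat_lit 13195280399) (nat_lit 28086108276) (.two (nat_lit 713031685) (nat_lit 68158132) (.two (nat_lit 2097153) (nat_lit 336595895) (.two (nat_lit 2097152) (nat_lit 1055747) (.one (nat_lit 2104706) .nil)))),
   .two (nat_lit 1779433487) (nat_lit 21223178285) (.two (nat_lit 654311436) (nat_lit 19127075490) (.two (nat_lit 50331649) (nat_lit 28757197667) (.two (nat_lit 1048576) (nat_lit 4199491) .nil))),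
   .two (nat_lit 12114198543) (nat_lit 158144135192) (.two (nat_lit 2954887176) (nat_lit 3557818639) (.two (nat_lit 169869316) (nat_lit 10369368774) (.two (nat_lit 605028353) (nat_lit 165526113163) (.two (nat_lit 1048576) (nat_lit 2102896) (.one (nat_lit 1057165) .nil))))),
   .two (nat_lit 1343225871) (nat_lit 1847590927) (.two (nat_lit 1343225864) (nat_lit 183846830214) (.two (nat_lit 19530776581) (nat_lit 47547679384) (.two (nat_lit 2097153) (nat_lit 1051581) (.two (nat_lit 8388608) (nat_lit 2102897) (.one (nat_lit 8397198) .nil))))),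
   .two (nat_lit 184549391) (nat_lit 1786773627) (.two (nat_lit 176160772) (nat_lit 19545457000) (.two (nat_lit 612368385) (nat_lit 1051582) (.two (nat_lit 1048576) (nat_lit 8395780) (.one (nat_lit 16785807) .nil)))),
   .two (nat_lit 9948889103) (nat_lit 1847590977) (.two (nat_lit 184549380) (nat_lit 840959277) (.two (nat_lit 16777216) (nat_lit 2102898) (.one (nat_lit 9766443056) .nil))),
   .two (nat_lit 739246095) (nat_lit 158144135183) (.two (nat_lit 158144135176) (nat_lit 12147753077) (.two (nat_lit 28086108165) (nat_lit 166230754147) (.two (nat_lit 1048576) (nat_lit 166230754846) (.one (nat_lit 2105744) .nil)))),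
   .two (nat_lit 9948889103) (nat_lit 21777874968) (.two (nat_lit 68157448) (nat_lit 1358954734) (.two (nat_lit 12114198533) (nat_lit 9802088805) (.two (nat_lit 16777217) (nat_lit 2349860206) (.two (nat_lit 4194304) (nat_lit 46473941532) (.one (nat_lit 16785809) .nil))))),
   .two (nat_lit 9948889103) (nat_lit 165526110472) (.two (nat_lit 34603013) (nat_lit 218104415) (.two (nat_lit 9766436865) (nat_lit 20719866356) (.one (nat_lit 16785810) .nil))),
   .two (nat_lit 2961178639) (nat_lit 11513364504) (.two (nat_lit 9768534024) (nat_lit 18933088391) (.two (nat_lit 171966469) (nat_lit 1384121711) (.two (nat_lit 1048576) (nat_lit 4201477) (.one (nat_lit 1057171) .nil)))),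
   .two (nat_lit 654311439) (nat_lit 10504634412) (.two (nat_lit 10385096712) (nat_lit 28758245626) (.two (nat_lit 47548727301) (nat_lit 9781118289) (.two (nat_lit 1048576) (nat_lit 10016002513) (.one (nat_lit 2104720) .nil)))),
   .two (nat_lit 37748751) (nat_lit 158091706631) (.two (nat_lit 4194308) (nat_lit 16779403) (.two (nat_lit 4194304) (nat_lit 16781888) (.one (nat_lit 16785812) .nil))),
   .two (nat_lit 16777231) (nat_lit 612368451) (.two (nat_lit 16777220) (nat_lit 156472707087) (.two (nat_lit 8388608) (nat_lit 754978295) (.one (nat_lit 16785813) .nil))),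
   .two (nat_lit 8388623) (nat_lit 159216828529) (.two (nat_lit 8388612) (nat_lit 156569174646) (.two (nat_lit 156367847425) (nat_lit 612369797) (.two (nat_lit 8388608) (nat_lit 4198980) (.one (nat_lit 1057174) .nil)))),
   .two (nat_lit 184993972239) (nat_lit 46980399170) (.two (nat_lit 41943045) (nat_lit 10338960073) (.two (nat_lit 41943041) (nat_lit 171967803) (.two (nat_lit 1048576) (nat_lit 4634709495) (.one (nat_lit 4202830) .nil)))),
   .two (nat_lit 272629775) (nat_lit 772800536) (.two (nat_lit 184416206856) (nat_lit 156569174126) (.two (nat_lit 28693233669) (nat_lit 12114199936) (.two (nat_lit 4194304) (nat_lit 19596841446) (.one (nat_lit 1056168) .nil)))),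
   .two (nat_lit 21785214991) (nat_lit 1048624) (.two (nat_lit 4613734408) (nat_lit 10007609453) (.two (nat_lit 16777220) (nat_lit 183953785700) (.two (nat_lit 1048576) (nat_lit 3028290071) (.one (nat_lit 1056169) .nil)))),
   .two (nat_lit 169869327) (nat_lit 1795162179) (.two (nat_lit 705691652) (nat_lit 304087400) (.two (nat_lit 34603009) (nat_lit 13188990253) (.two (nat_lit 16777216) (nat_lit 639636045) (.one (nat_lit 2105752) .nil)))),
   .two (nat_lit 176160783) (nat_lit 166230753330) (.two (nat_lit 612368392) (nat_lit 174686470422) (.two (nat_lit 159217876997) (nat_lit 3028287845) (.two (nat_lit 606076929) (nat_lit 1350569682) (.one (nat_lit 8397209) .nil)))),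
   .two (nat_lit 176160783) (nat_lit 183848927247) (.two (nat_lit 176160776) (nat_lit 843055217) (.two (nat_lit 8388613) (nat_lit 10439623280) (.two (nat_lit 16777217) (nat_lit 675284270) (.two (nat_lit 1048576) (nat_lit 8393643) (.one (nat_lit 8393984) .nil))))),
   .two (nat_lit 9768534031) (nat_lit 157036838952) (.two (nat_lit 16777224) (nat_lit 1277165682) (.two (nat_lit 16777220) (nat_lit 183848927864) (.two (nat_lit 16777217) (nat_lit 183916038374) (.two (nat_lit 16777216) (nat_lit 46477085264) (.one (nat_lit 16782596) .nil))))),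
   .two (nat_lit 612368399) (nat_lit 11559501839) (.two (nat_lit 2961178632) (nat_lit 28772925562) (.two (nat_lit 16777221) (nat_lit 2323645146) (.two (nat_lit 16777217) (nat_lit 645925960) (.two (nat_lit 1048576) (nat_lit 3028290103) (.one (nat_lit 1056893) .nil))))),
   .two (nat_lit 2954887183) (nat_lit 158083317775) (.two (nat_lit 2954887176) (nat_lit 13228834944) (.two (nat_lit 285212677) (nat_lit 2317353643) (.two (nat_lit 16777217) (nat_lit 3525314842) (.two (nat_lit 8388608) (nat_lit 2102189) (.one (nat_lit 2104783) .nil))))),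
   .two (nat_lit 37748751) (nat_lit 4605345808) (.two (nat_lit 606076936) (nat_lit 109052184) (.two (nat_lit 4194306) (nat_lit 2097525) (.two (nat_lit 37748739) (nat_lit 9906947894) (.two (nat_lit 8388609) (nat_lit 4196790) (.two (nat_lit 8388608) (nat_lit 4198203) (.one (nat_lit 4199653) .nil)))))),
   .two (nat_lit 4194319) (nat_lit 2927625588) (.two (nat_lit 4194305) (nat_lit 46507494849) (.two (nat_lit 4194304) (nat_lit 1054684) (.one (nat_lit 68165331) .nil))),
   .two (nat_lit 2902458383) (nat_lit 28693234280) (.two (nat_lit 13191086085) (nat_lit 654312291) (.two (nat_lit 37748737) (nat_lit 11626614677) (.one (nat_lit 16786027) .nil))),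
   .two (nat_lit 285212687) (nat_lit 9802088806) (.two (nat_lit 4194308) (nat_lit 1795164698) (.two (nat_lit 4194304) (nat_lit 166144776032) (.one (nat_lit 16786028) .nil))),
   .two (nat_lit 654311439) (nat_lit 11544822378) (.two (nat_lit 721420293) (nat_lit 612369751) (.two (nat_lit 606076929) (nat_lit 11610884612) (.two (nat_lit 1048576) (nat_lit 16781223) (.one (nat_lit 1056483) .nil)))),
   .two (nat_lit 9781116943) (nat_lit 158079124125) (.two (nat_lit 272629765) (nat_lit 654312290) (.two (nat_lit 9768534017) (nat_lit 184431938069) (.two (nat_lit 4194304) (nat_lit 16782420) (.one (nat_lit 16785124) .nil)))),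
   .two (nat_lit 41943055) (nat_lit 721420402) (.two (nat_lit 83886088) (nat_lit 13195281250) (.two (nat_lit 50331649) (nat_lit 1182799781) (.one (nat_lit 8397421) .nil))),
   .two (nat_lit 620757007) (nat_lit 183853121893) (.two (nat_lit 13195280389) (nat_lit 11559503136) (.two (nat_lit 16777217) (nat_lit 645926363) (.two (nat_lit 8388608) (nat_lit 16784476) (.one (nat_lit 10343160466) .nil)))),
   .two (nat_lit 2969567247) (nat_lit 1847591162) (.two (nat_lit 337641485) (nat_lit 9948889954) (.two (nat_lit 2097153) (nat_lit 19612569485) (.one (nat_lit 605035092) .nil))),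
   .two (nat_lit 2887778319) (nat_lit 19130220654) (.two (nat_lit 4194312) (nat_lit 236978854) (.two (nat_lit 2956984325) (nat_lit 10907288969) (.two (nat_lit 605028353) (nat_lit 1849690638) (.two (nat_lit 1048576) (nat_lit 4200416) (.one (nat_lit 1056491) .nil))))),
   .two (nat_lit 276824079) (nat_lit 10351542399) (.two (nat_lit 2887778312) (nat_lit 9906946704) (.two (nat_lit 184549381) (nat_lit 1343227933) (.two (nat_lit 34603009) (nat_lit 183947496950) (.two (nat_lit 1048576) (nat_lit 16783329) (.one (nat_lit 2105966) .nil))))),
   .two (nat_lit 654311439) (nat_lit 21208498783) (.two (nat_lit 9934209029) (nat_lit 10385098020) (.two (nat_lit 606076929) (nat_lit 159232560575) (.two (nat_lit 2097152) (nat_lit 16783332) (.one (nat_lit 2105967) .nil)))),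
   .two (nat_lit 1358954511) (nat_lit 4605345902) (.two (nat_lit 8388616) (nat_lit 754977279) (.two (nat_lit 8388608) (nat_lit 16784477) (.one (nat_lit 8396401) .nil))),
   .two (nat_lit 3036676120) (nat_lit 156372042595) (.two (nat_lit 156372041729) (nat_lit 20704136707) (.two (nat_lit 1048576) (nat_lit 16783338) (.one (nat_lit 1057392) .nil))),
   .two (nat_lit 10370416655) (nat_lit 9940501180) (.two (nat_lit 1344274437) (nat_lit 158083318627) (.two (nat_lit 37748737) (nat_lit 28798096428) (.one (nat_lit 4203121) .nil))),
   .two (nat_lit 2961178639) (nat_lit 2954887421) (.two (nat_lit 169869320) (nat_lit 18928895029) (.two (nat_lit 2954887173) (nat_lit 10335815731) (.two (nat_lit 9765388289) (nat_lit 9772731939) (.two (nat_lit 1048576) (nat_lit 2102359) (.one (nat_lit 1057394) .nil))))),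
   .two (nat_lit 10385096719) (nat_lit 46977253647) (.two (nat_lit 739246088) (nat_lit 9881782785) (.two (nat_lit 1048576) (nat_lit 16784478) (.one (nat_lit 16786035) .nil))),
   .two (nat_lit 1779433487) (nat_lit 9766437121) (.two (nat_lit 158143086600) (nat_lit 159251432291) (.two (nat_lit 2097153) (nat_lit 10906243475) (.two (nat_lit 1048576) (nat_lit 2104415) (.one (nat_lit 2105972) .nil)))),
   .two (nat_lit 46407876623) (nat_lit 9802088558) (.two (nat_lit 157036838920) (nat_lit 159250383476) (.two (nat_lit 184989777925) (nat_lit 13221496122) (.two (nat_lit 4194305) (nat_lit 1779437917) (.two (nat_lit 4194304) (nat_lit 1055840) (.one (nat_lit 1056504) .nil))))),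
   .two (nat_lit 2887778319) (nat_lit 1212154458) (.two (nat_lit 46978301957) (nat_lit 158646404456) (.two (nat_lit 9766436865) (nat_lit 13187943958) (.two (nat_lit 4194304) (nat_lit 2104417) (.one (nat_lit 1057397) .nil)))),
   .two (nat_lit 37748751) (nat_lit 159250382966) (.two (nat_lit 37748744) (nat_lit 101712526) (.two (nat_lit 157035790341) (nat_lit 673187138) (.two (nat_lit 606076929) (nat_lit 775949741) (.two (nat_lit 2097152) (nat_lit 156380436434) (.one (nat_lit 4203126) .nil))))),
   .two (nat_lit 83886095) (nat_lit 1376780538) (.two (nat_lit 1358954504) (nat_lit 183845782568) (.two (nat_lit 4605345797) (nat_lit 721421854) (.two (nat_lit 8388608) (nat_lit 16782426) (.one (nat_lit 1057399) .nil)))),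
   .two (nat_lit 9934209039) (nat_lit 9881781539) (.two (nat_lit 16777217) (nat_lit 166197202376) (.two (nat_lit 2097152) (nat_lit 822089680) (.one (nat_lit 2105093) .nil))),
   .two (nat_lit 12054429719) (nat_lit 352321602) (.two (nat_lit 183853121544) (nat_lit 156380431707) (.two (nat_lit 41943041) (nat_lit 10385101167) (.two (nat_lit 8388608) (nat_lit 16782398) (.one (nat_lit 8397432) .nil)))),
   .two (nat_lit 158075977743) (nat_lit 174753579117) (.two (nat_lit 20637024264) (nat_lit 1310720867) (.two (nat_lit 4194305) (nat_lit 10504637936) (.two (nat_lit 1048576) (nat_lit 2103283) (.one (nat_lit 2105977) .nil)))),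
   .two (nat_lit 2902458383) (nat_lit 9766437225) (.two (nat_lit 285212677) (nat_lit 2099273) (.two (nat_lit 16777217) (nat_lit 606080474) (.two (nat_lit 2097152) (nat_lit 2936018784) (.one (nat_lit 12148809401) .nil)))),
   .two (nat_lit 612368399) (nat_lit 20738736258) (.two (nat_lit 47548727304) (nat_lit 4638900924) (.two (nat_lit 165532401669) (nat_lit 165526113819) (.two (nat_lit 2097152) (nat_lit 1054712) (.one (nat_lit 1057402) .nil)))),
   .two (nat_lit 46414168079) (nat_lit 2316304520) (.two (nat_lit 169869320) (nat_lit 9806283109) (.two (nat_lit 184549381) (nat_lit 12047091052) (.two (nat_lit 606076929) (nat_lit 183861512734) (.two (nat_lit 2097152) (nat_lit 16782429) (.one (nat_lit 2105979) .nil))))),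
   .two (nat_lit 218103823) (nat_lit 2923430139) (.two (nat_lit 9781116936) (nat_lit 2889876845) (.two (nat_lit 4194305) (nat_lit 28806482470) (.two (nat_lit 1048576) (nat_lit 165528212543) (.one (nat_lit 2420121247) .nil)))),
   .two (nat_lit 13191086095) (nat_lit 1209008239) (.two (nat_lit 809500680) (nat_lit 156567077525) (.two (nat_lit 9933160453) (nat_lit 807404849) (.two (nat_lit 4194305) (nat_lit 740297221) (.two (nat_lit 4194304) (nat_lit 2103291) (.one (nat_lit 4203132) .nil))))),
   .two (nat_lit 272629775) (nat_lit 16777574) (.two (nat_lit 2889875460) (nat_lit 16779339) (.two (nat_lit 612368385) (nat_lit 156481098790) (.one (nat_lit 16786045) .nil))),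
   .two (nat_lit 9934209039) (nat_lit 83886191) (.two (nat_lit 158083317768) (nat_lit 11544823140) (.two (nat_lit 2097153) (nat_lit 16781719) (.two (nat_lit 8388608) (nat_lit 16783356) (.one (nat_lit 16786046) .nil)))),
   .two (nat_lit 822083599) (nat_lit 156969730407) (.two (nat_lit 159216828421) (nat_lit 184550722) (.two (nat_lit 4194305) (nat_lit 47547682339) (.two (nat_lit 4194304) (nat_lit 158091711575) (.one (nat_lit 168829372) .nil)))),
   .two (nat_lit 1277165583) (nat_lit 9881780832) (.two (nat_lit 16777220) (nat_lit 156365751646) (.two (nat_lit 16777217) (nat_lit 1847594504) (.two (nat_lit 16777216) (nat_lit 2102369) (.one (nat_lit 2105983) .nil)))),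
   .two (nat_lit 272629775) (nat_lit 166129041520) (.two (nat_lit 4194312) (nat_lit 47588575295) (.two (nat_lit 37748737) (nat_lit 8393112) (.two (nat_lit 4194304) (nat_lit 1055842) (.one (nat_lit 4203136) .nil)))),
   .two (nat_lit 159224168463) (nat_lit 2418016508) (.two (nat_lit 158144135176) (nat_lit 3464496670) (.two (nat_lit 2097152) (nat_lit 47555022724) (.one (nat_lit 2105985) .nil))),
   .two (nat_lit 184549391) (nat_lit 606077036) (.two (nat_lit 639631368) (nat_lit 9915335330) (.two (nat_lit 1277165572) (nat_lit 166144771459) (.two (nat_lit 16777217) (nat_lit 4199967) (.two (nat_lit 16777216) (nat_lit 4201571) (.one (nat_lit 16786050) .nil))))),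
   .two (nat_lit 83886095) (nat_lit 8388872) (.two (nat_lit 9781116936) (nat_lit 47584379537) (.two (nat_lit 2902458372) (nat_lit 742393895) (.two (nat_lit 612368385) (nat_lit 218106387) (.two (nat_lit 4194304) (nat_lit 16784484) (.one (nat_lit 13195289587) .nil))))),
   .two (nat_lit 754974735) (nat_lit 2349858926) (.two (nat_lit 28757196808) (nat_lit 1358955814) (.two (nat_lit 605028353) (nat_lit 754979902) (.one (nat_lit 1057411) .nil))),
   .two (nat_lit 813694991) (nat_lit 166132187249) (.two (nat_lit 10506731528) (nat_lit 1344275497) (.two (nat_lit 8388612) (nat_lit 10540287322) (.two (nat_lit 4194305) (nat_lit 19094574103) (.one (nat_lit 2105107) .nil)))),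
   .two (nat_lit 41943055) (nat_lit 3527409775) (.two (nat_lit 8388616) (nat_lit 156569174627) (.two (nat_lit 4194308) (nat_lit 10007610658) (.two (nat_lit 8388609) (nat_lit 4197930) (.two (nat_lit 4194304) (nat_lit 8395877) (.one (nat_lit 4202261) .nil))))),
   .two (nat_lit 11559501839) (nat_lit 11577327726) (.two (nat_lit 11543773192) (nat_lit 11559503390) (.two (nat_lit 1048576) (nat_lit 654316572) (.one (nat_lit 1057412) .nil))),
   .two (nat_lit 11618222103) (nat_lit 10436477065) (.two (nat_lit 1847590920) (nat_lit 2994733251) (.two (nat_lit 270532613) (nat_lit 11584671637) (.one (nat_lit 8397445) .nil))),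
   .two (nat_lit 46978301967) (nat_lit 28693233774) (.two (nat_lit 166132187144) (nat_lit 19027461414) (.two (nat_lit 9768534017) (nat_lit 2101658) (.two (nat_lit 4194304) (nat_lit 2104422) (.one (nat_lit 174688576595) .nil)))),
   .two (nat_lit 184549391) (nat_lit 343933058) (.two (nat_lit 9940500488) (nat_lit 184550243) (.two (nat_lit 8388609) (nat_lit 2990542308) (.two (nat_lit 8388608) (nat_lit 4202118) .nil))),
   .two (nat_lit 2902458383) (nat_lit 21812478067) (.two (nat_lit 12050235400) (nat_lit 46992983375) (.two (nat_lit 41943041) (nat_lit 11626614197) (.two (nat_lit 2097152) (nat_lit 3531611739) .nil))),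
   .two (nat_lit 28693233679) (nat_lit 11007952252) (.two (nat_lit 9768534017) (nat_lit 28087159311) (.two (nat_lit 4194304) (nat_lit 673191781) (.one (nat_lit 2105113) .nil))),
   .two (nat_lit 18928893967) (nat_lit 184423548243) (.two (nat_lit 8388609) (nat_lit 28693236272) (.two (nat_lit 8388608) (nat_lit 157038942910) .nil)),
   .two (nat_lit 1358954511) (nat_lit 183845782176) (.two (nat_lit 721420292) (nat_lit 1050700) (.two (nat_lit 9765388289) (nat_lit 822087106) (.two (nat_lit 2097152) (nat_lit 16783361) (.one (nat_lit 2105114) .nil)))),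
   .two (nat_lit 169869327) (nat_lit 645923087) (.two (nat_lit 41943048) (nat_lit 157035790697) (.two (nat_lit 638582789) (nat_lit 136316273) (.two (nat_lit 8388609) (nat_lit 1053085) (.two (nat_lit 1048576) (nat_lit 2104425) (.one (nat_lit 1057415) .nil))))),
   .two (nat_lit 713031695) (nat_lit 218104166) (.two (nat_lit 9948889093) (nat_lit 159257724268) (.two (nat_lit 620756993) (nat_lit 183920232995) (.two (nat_lit 16777216) (nat_lit 183853126718) (.one (nat_lit 185002368517) .nil)))),
   .two (nat_lit 10504634383) (nat_lit 19532874330) (.two (nat_lit 2097157) (nat_lit 156569176092) (.two (nat_lit 34603009) (nat_lit 19094572566) (.two (nat_lit 1048576) (nat_lit 2103299) (.one (nat_lit 1057416) .nil)))),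
   .two (nat_lit 2902458383) (nat_lit 4631560312) (.two (nat_lit 2954887176) (nat_lit 28806480546) (.two (nat_lit 169869316) (nat_lit 21777877064) (.two (nat_lit 606076929) (nat_lit 158192376424) .nil))),
   .two (nat_lit 1745879055) (nat_lit 1914699912) (.two (nat_lit 10370416653) (nat_lit 10955523381) (.two (nat_lit 34603009) (nat_lit 2332035594) (.two (nat_lit 8388608) (nat_lit 3557822353) (.one (nat_lit 1057417) .nil)))),
   .two (nat_lit 1916796943) (nat_lit 4605346043) (.two (nat_lit 1916796936) (nat_lit 41944114) (.two (nat_lit 9933160453) (nat_lit 75498828) (.two (nat_lit 4194305) (nat_lit 8392235) (.two (nat_lit 1048576) (nat_lit 2103300) (.one (nat_lit 2105994) .nil))))),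
   .two (nat_lit 2902458383) (nat_lit 159217878332) (.two (nat_lit 16777217) (nat_lit 156466417554) (.one (nat_lit 20738743995) .nil)),
   .two (nat_lit 13191086095) (nat_lit 50331898) (.two (nat_lit 809500680) (nat_lit 4043309713) (.two (nat_lit 272629765) (nat_lit 12129929255) (.two (nat_lit 612368385) (nat_lit 21781025840) (.one (nat_lit 8397451) .nil)))),
   .two (nat_lit 8388623) (nat_lit 28693233909) (.two (nat_lit 13191086088) (nat_lit 1417676318) (.two (nat_lit 8388608) (nat_lit 4201578) (.one (nat_lit 21781027438) .nil))),
   .two (nat_lit 352321559) (nat_lit 46414168131) (.two (nat_lit 276824072) (nat_lit 185035916653) (.two (nat_lit 606076929) (nat_lit 19545460229) (.two (nat_lit 1048576) (nat_lit 2103301) (.one (nat_lit 8396577) .nil)))),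
   .two (nat_lit 3527409679) (nat_lit 174753579123) (.two (nat_lit 673185804) (nat_lit 10506732386) (.two (nat_lit 9766436865) (nat_lit 11010051996) (.one (nat_lit 4202274) .nil))),
   .two (nat_lit 9948889103) (nat_lit 203424421) (.two (nat_lit 169869316) (nat_lit 620758308) (.two (nat_lit 2097153) (nat_lit 9902756253) (.two (nat_lit 4194304) (nat_lit 2954892309) (.one (nat_lit 2105996) .nil)))),
   .two (nat_lit 28086108175) (nat_lit 4194561) (.two (nat_lit 12117344264) (nat_lit 158646403721) (.two (nat_lit 11479810052) (nat_lit 3457156419) (.two (nat_lit 16777217) (nat_lit 4197932) (.two (nat_lit 16777216) (nat_lit 1054726) (.one (nat_lit 1056548) .nil))))),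
   .two (nat_lit 285212687) (nat_lit 1916797043) (.two (nat_lit 156569174028) (nat_lit 4043310466) (.two (nat_lit 9768534017) (nat_lit 16783290) (.one (nat_lit 16786061) .nil))),
   .two (nat_lit 2887778319) (nat_lit 809500792) (.two (nat_lit 606076936) (nat_lit 2349859174) (.two (nat_lit 11546918917) (nat_lit 37313578273) (.two (nat_lit 37748737) (nat_lit 2350913411) (.one (nat_lit 641736313) .nil)))),
   .two (nat_lit 205520911) (nat_lit 159251431661) (.two (nat_lit 639631368) (nat_lit 156367848072) (.two (nat_lit 157038936069) (nat_lit 1780483409) (.two (nat_lit 2097153) (nat_lit 19026414093) (.two (nat_lit 1048576) (nat_lit 2104427) (.one (nat_lit 1056549) .nil))))),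
   .two (nat_lit 8388623) (nat_lit 68157569) (.two (nat_lit 2887778312) (nat_lit 19599983237) (.two (nat_lit 270532613) (nat_lit 166237046149) (.two (nat_lit 2097153) (nat_lit 184986635729) (.two (nat_lit 2097152) (nat_lit 1054730) (.one (nat_lit 2105999) .nil))))),
   .two (nat_lit 176160783) (nat_lit 11580473476) (.two (nat_lit 46414168072) (nat_lit 1413481069) (.two (nat_lit 1782579205) (nat_lit 235930925) (.two (nat_lit 156372041729) (nat_lit 10503589338) (.two (nat_lit 8388608) (nat_lit 11577333714) (.one (nat_lit 1057424) .nil))))),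
   .two (nat_lit 8388623) (nat_lit 4601151552) (.two (nat_lit 13195280392) (nat_lit 843056670) (.two (nat_lit 8388608) (nat_lit 4199524) (.one (nat_lit 4203153) .nil))),
   .two (nat_lit 9934209039) (nat_lit 2902459034) (.two (nat_lit 16777220) (nat_lit 10336863554) (.two (nat_lit 9766436865) (nat_lit 1795166615) (.two (nat_lit 1048576) (nat_lit 3558873091) (.one (nat_lit 1057426) .nil)))),
   .two (nat_lit 11551113231) (nat_lit 156968681594) (.two (nat_lit 1780482056) (nat_lit 28089254249) (.two (nat_lit 2097157) (nat_lit 3527410531) (.two (nat_lit 2097153) (nat_lit 183920233962) (.two (nat_lit 1048576) (nat_lit 8394765) (.one (nat_lit 183912899049) .nil))))),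
   .two (nat_lit 184549391) (nat_lit 1753219429) (.two (nat_lit 1176502277) (nat_lit 83888666) (.two (nat_lit 2097152) (nat_lit 813700989) (.one (nat_lit 28798099002) .nil))),
   .two (nat_lit 16777231) (nat_lit 158083317873) (.two (nat_lit 75497480) (nat_lit 620758557) (.two (nat_lit 8388608) (nat_lit 174701157050) .nil)),
   .two (nat_lit 11479810063) (nat_lit 46422557540) (.two (nat_lit 50331649) (nat_lit 272633281) (.two (nat_lit 4194304) (nat_lit 28101842872) (.one (nat_lit 4203155) .nil))),
   .two (nat_lit 276824079) (nat_lit 843055222) (.two (nat_lit 101711880) (nat_lit 10439623013) (.two (nat_lit 1291845636) (nat_lit 46406828900) (.two (nat_lit 620756993) (nat_lit 183845784078) (.two (nat_lit 4194304) (nat_lit 1054736) (.one (nat_lit 4203156) .nil))))),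
   .two (nat_lit 169869327) (nat_lit 1358954691) (.two (nat_lit 34603013) (nat_lit 1224738097) (.two (nat_lit 34603009) (nat_lit 157051521541) (.two (nat_lit 1048576) (nat_lit 1377834946) (.one (nat_lit 2106005) .nil)))),
   .two (nat_lit 612368399) (nat_lit 2969567839) (.two (nat_lit 16777221) (nat_lit 47555022370) (.two (nat_lit 8388608) (nat_lit 16784493) (.one (nat_lit 8397367) .nil))),
   .two (nat_lit 1795162127) (nat_lit 18925748923) (.two (nat_lit 34603013) (nat_lit 822084897) (.two (nat_lit 2097153) (nat_lit 9781122110) (.one (nat_lit 16786071) .nil))),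
   .two (nat_lit 16777231) (nat_lit 1346371722) (.two (nat_lit 285212680) (nat_lit 2923430490) (.two (nat_lit 11479810052) (nat_lit 184550686) (.two (nat_lit 612368385) (nat_lit 205526045) (.one (nat_lit 185023340957) .nil)))),
   .two (nat_lit 9934209039) (nat_lit 166132187272) (.two (nat_lit 12117344264) (nat_lit 166196150918) (.two (nat_lit 174752530437) (nat_lit 185021238809) (.two (nat_lit 2097152) (nat_lit 713036849) (.one (nat_lit 8397464) .nil)))),
   .two (nat_lit 8388623) (nat_lit 2990538888) (.two (nat_lit 41943048) (nat_lit 4195391) (.two (nat_lit 721420292) (nat_lit 9768534882) (.two (nat_lit 50331649) (nat_lit 183916038664) (.two (nat_lit 16777216) (nat_lit 4200466) (.one (nat_lit 8397465) .nil))))),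
   .two (nat_lit 612368399) (nat_lit 10907287665) (.two (nat_lit 159224168456) (nat_lit 21208499494) (.two (nat_lit 2097153) (nat_lit 158083324606) .nil)),
   .two (nat_lit 156367847439) (nat_lit 46474985583) (.two (nat_lit 2954887176) (nat_lit 13224641216) (.two (nat_lit 2954887173) (nat_lit 37249615232) (.two (nat_lit 9766436865) (nat_lit 166132190724) (.two (nat_lit 4194304) (nat_lit 2350914610) (.one (nat_lit 4203162) .nil))))),
   .two (nat_lit 16777231) (nat_lit 1182793849) (.two (nat_lit 16777224) (nat_lit 19597886060) (.two (nat_lit 713031685) (nat_lit 158177690938) (.two (nat_lit 8388609) (nat_lit 156548206471) (.one (nat_lit 16786075) .nil)))),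
   .two (nat_lit 2969567247) (nat_lit 28758245493) (.two (nat_lit 166230753293) (nat_lit 9948890654) (.two (nat_lit 2097152) (nat_lit 13237227413) (.one (nat_lit 16785199) .nil))),
   .two (nat_lit 13195280399) (nat_lit 4634706524) (.two (nat_lit 8388612) (nat_lit 4196431) (.two (nat_lit 8388609) (nat_lit 4199969) (.two (nat_lit 8388608) (nat_lit 4201585) (.one (nat_lit 8397469) .nil)))),
   .two (nat_lit 4601151503) (nat_lit 11510218889) (.two (nat_lit 158143086600) (nat_lit 136315512) (.two (nat_lit 21778923525) (nat_lit 2316305702) (.two (nat_lit 37748737) (nat_lit 34605603) (.two (nat_lit 2097152) (nat_lit 19596842083) (.one (nat_lit 4203166) .nil))))),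
   .two (nat_lit 47548727311) (nat_lit 3028287603) (.two (nat_lit 1780482056) (nat_lit 4027581482) (.two (nat_lit 176160773) (nat_lit 183846832152) (.two (nat_lit 41943041) (nat_lit 1053055) (.two (nat_lit 1048576) (nat_lit 1920999018) .nil)))),
   .two (nat_lit 2954887183) (nat_lit 138412160) (.two (nat_lit 9766436872) (nat_lit 306184549) (.two (nat_lit 41943045) (nat_lit 4196433) (.two (nat_lit 41943041) (nat_lit 2350910907) (.two (nat_lit 8388608) (nat_lit 2104434) (.one (nat_lit 8396595) .nil))))),
   .two (nat_lit 754974735) (nat_lit 19127075074) (.two (nat_lit 705691656) (nat_lit 10921968961) (.two (nat_lit 605028353) (nat_lit 2101662) (.two (nat_lit 2097152) (nat_lit 28760348556) (.one (nat_lit 4203167) .nil)))),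
   .two (nat_lit 1779433487) (nat_lit 9802088515) (.two (nat_lit 1779433480) (nat_lit 306184550) (.two (nat_lit 13191086085) (nat_lit 839910774) (.two (nat_lit 9765388289) (nat_lit 1916799510) (.two (nat_lit 1048576) (nat_lit 37753915) (.one (nat_lit 9869205177) .nil))))),
   .two (nat_lit 754974735) (nat_lit 10436477038) (.two (nat_lit 20637024264) (nat_lit 16777877) (.two (nat_lit 11492392964) (nat_lit 158176643112) (.two (nat_lit 4194305) (nat_lit 654314946) (.two (nat_lit 4194304) (nat_lit 2894077722) .nil)))),
   .two (nat_lit 2889875471) (nat_lit 2969567343) (.two (nat_lit 16777224) (nat_lit 4030726785) (.two (nat_lit 16777220) (nat_lit 13191087433) (.two (nat_lit 50331649) (nat_lit 4197935) (.two (nat_lit 8388608) (nat_lit 174701157933) .nil)))),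
   .two (nat_lit 2969567247) (nat_lit 809500801) (.two (nat_lit 2902458376) (nat_lit 9969860968) (.two (nat_lit 2889875461) (nat_lit 3539994695) (.two (nat_lit 37748737) (nat_lit 318769679) (.two (nat_lit 4194304) (nat_lit 16784499) (.one (nat_lit 16785207) .nil))))),
   .two (nat_lit 18933088271) (nat_lit 9899606082) (.two (nat_lit 12054429704) (nat_lit 2316305250) (.two (nat_lit 41943041) (nat_lit 11610887202) (.one (nat_lit 1056569) .nil))),
   .two (nat_lit 9881780239) (nat_lit 19093520579) (.two (nat_lit 83886085) (nat_lit 21207451699) (.two (nat_lit 620756993) (nat_lit 12114202135) (.two (nat_lit 16777216) (nat_lit 1054744) (.one (nat_lit 1057440) .nil)))),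
   .two (nat_lit 813694991) (nat_lit 2923430485) (.two (nat_lit 176160773) (nat_lit 1847593004) (.two (nat_lit 2097153) (nat_lit 37753244) (.two (nat_lit 2097152) (nat_lit 8395892) (.one (nat_lit 2105147) .nil)))),
   .two (nat_lit 9781116943) (nat_lit 20644364405) (.two (nat_lit 218103816) (nat_lit 46414169136) (.two (nat_lit 41943045) (nat_lit 1191186338) (.one (nat_lit 8396604) .nil))),
   .two (nat_lit 157038936079) (nat_lit 185020187292) (.two (nat_lit 4194308) (nat_lit 1050707) (.two (nat_lit 37748737) (nat_lit 185020190238) (.two (nat_lit 4194304) (nat_lit 1055861) (.one (nat_lit 4203169) .nil)))),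
   .two (nat_lit 158075977743) (nat_lit 11618222337) (.two (nat_lit 20644364296) (nat_lit 28086109027) (.two (nat_lit 156372041729) (nat_lit 1053087) (.two (nat_lit 8388608) (nat_lit 1055862) (.one (nat_lit 1057442) .nil)))),
   .two (nat_lit 2889875471) (nat_lit 203423865) (.two (nat_lit 813694984) (nat_lit 742392494) (.two (nat_lit 1344274437) (nat_lit 1050709) (.two (nat_lit 606076929) (nat_lit 166132190676) (.two (nat_lit 1048576) (nat_lit 3558872062) (.one (nat_lit 2106019) .nil))))),
   .two (nat_lit 3527409679) (nat_lit 3558867059) (.two (nat_lit 3558866957) (nat_lit 1950351998) (.two (nat_lit 203423749) (nat_lit 3527410531) (.two (nat_lit 2097153) (nat_lit 183848929822) (.two (nat_lit 2097152) (nat_lit 4200475) (.one (nat_lit 4203172) .nil))))),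
   .two (nat_lit 16777231) (nat_lit 10504634502) (.two (nat_lit 822083592) (nat_lit 165528207997) (.two (nat_lit 2889875461) (nat_lit 304088455) (.two (nat_lit 2097153) (nat_lit 239079794) (.two (nat_lit 2097152) (nat_lit 16784503) (.one (nat_lit 2105001) .nil))))),
   .two (nat_lit 1745879055) (nat_lit 28758245511) (.two (nat_lit 4632608781) (nat_lit 50332263) (.two (nat_lit 270532613) (nat_lit 50332514) (.two (nat_lit 2097153) (nat_lit 1862273547) (.two (nat_lit 16777216) (nat_lit 9867107857) .nil)))),
   .two (nat_lit 754974735) (nat_lit 37246468163) (.two (nat_lit 754974728) (nat_lit 705692286) (.two (nat_lit 184986632197) (nat_lit 1191183203) (.two (nat_lit 34603009) (nat_lit 1191183902) (.two (nat_lit 1048576) (nat_lit 16782442) (.one (nat_lit 1056586) .nil))))),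
   .two (nat_lit 184549391) (nat_lit 4028629243) (.two (nat_lit 9948889096) (nat_lit 10336862572) (.two (nat_lit 754974725) (nat_lit 839911975) (.two (nat_lit 16777216) (nat_lit 1746932803) (.one (nat_lit 136322719) .nil)))),
   .two (nat_lit 639631375) (nat_lit 11618222330) (.two (nat_lit 639631368) (nat_lit 847250465) (.two (nat_lit 285212677) (nat_lit 2987394398) (.two (nat_lit 156364701697) (nat_lit 9806286379) (.two (nat_lit 16777216) (nat_lit 1210062852) (.one (nat_lit 16785227) .nil))))),
   .two (nat_lit 4194319) (nat_lit 4605346398) (.two (nat_lit 9768534021) (nat_lit 20745029681) (.two (nat_lit 4194305) (nat_lit 806358514) (.two (nat_lit 1048576) (nat_lit 184993978227) (.one (nat_lit 174692769599) .nil)))),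
   .two (nat_lit 2961178639) (nat_lit 339738749) (.two (nat_lit 4194312) (nat_lit 1325400730) (.two (nat_lit 809500677) (nat_lit 847250779) (.two (nat_lit 37748737) (nat_lit 156539816497) (.two (nat_lit 1048576) (nat_lit 16783390) (.one (nat_lit 8397477) .nil))))),
   .two (nat_lit 46407876623) (nat_lit 19532873841) (.two (nat_lit 19596836872) (nat_lit 675284314) (.two (nat_lit 2097153) (nat_lit 11577332698) (.one (nat_lit 3557826083) .nil))),
   .two (nat_lit 1358954511) (nat_lit 1779433736) (.two (nat_lit 304087053) (nat_lit 11559502440) (.two (nat_lit 4599054341) (nat_lit 721421610) (.two (nat_lit 2097153) (nat_lit 16781728) (.two (nat_lit 2097152) (nat_lit 16784504) (.one (nat_lit 2105901) .nil))))),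
   .two (nat_lit 183848927247) (nat_lit 21793604100) (.two (nat_lit 2954887176) (nat_lit 21814575465) (.two (nat_lit 203423749) (nat_lit 158143087975) (.two (nat_lit 2097153) (nat_lit 184431938079) (.two (nat_lit 16777216) (nat_lit 2103327) (.one (nat_lit 304093946) .nil))))),
   .two (nat_lit 612368399) (nat_lit 184986632306) (.two (nat_lit 47555018760) (nat_lit 3021996721) (.two (nat_lit 2097157) (nat_lit 276826152) (.two (nat_lit 2097153) (nat_lit 156465367565) (.two (nat_lit 1048576) (nat_lit 2104443) (.one (nat_lit 9940507361) .nil))))),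
   .two (nat_lit 9781116943) (nat_lit 21812478084) (.two (nat_lit 9934209032) (nat_lit 183861511012) (.two (nat_lit 2097153) (nat_lit 754977303) (.two (nat_lit 1048576) (nat_lit 11559509654) .nil))),
   .two (nat_lit 11559501839) (nat_lit 10372513928) (.two (nat_lit 11559501832) (nat_lit 10909385361) (.two (nat_lit 721420293) (nat_lit 9802089809) (.two (nat_lit 4194305) (nat_lit 28806483501) (.two (nat_lit 1048576) (nat_lit 742396999) (.one (nat_lit 4203176) .nil))))),
   .two (nat_lit 721420303) (nat_lit 1048697) (.two (nat_lit 83886088) (nat_lit 28087157098) (.two (nat_lit 9948889093) (nat_lit 12618564935) (.two (nat_lit 34603009) (nat_lit 2101665) (.two (nat_lit 16777216) (nat_lit 1055868) (.one (nat_lit 1057449) .nil))))),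
   .two (nat_lit 75497487) (nat_lit 46473937022) (.two (nat_lit 11551113224) (nat_lit 20704133477) (.two (nat_lit 746586117) (nat_lit 13187941750) (.two (nat_lit 41943041) (nat_lit 9798946318) (.two (nat_lit 2097152) (nat_lit 1054752) (.one (nat_lit 1057450) .nil))))),
   .two (nat_lit 2889875471) (nat_lit 19027460211) (.two (nat_lit 9768534024) (nat_lit 19597886097) (.two (nat_lit 46978301957) (nat_lit 156468512109) (.two (nat_lit 2097153) (nat_lit 13191092087) (.one (nat_lit 2105166) .nil)))),
   .two (nat_lit 2902458383) (nat_lit 11513365347) (.two (nat_lit 37748737) (nat_lit 184554558) (.one (nat_lit 4202320) .nil)),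
   .two (nat_lit 713031695) (nat_lit 183947493494) (.two (nat_lit 75497480) (nat_lit 184987681387) (.two (nat_lit 16777220) (nat_lit 183947494729) (.two (nat_lit 16777217) (nat_lit 183853128338) .nil))),
   .two (nat_lit 21777874959) (nat_lit 1780482170) (.two (nat_lit 9899606029) (nat_lit 21778924208) (.two (nat_lit 9866051589) (nat_lit 2099289) (.two (nat_lit 34603009) (nat_lit 2101667) (.two (nat_lit 1048576) (nat_lit 2103330) (.one (nat_lit 9867108011) .nil))))),
   .two (nat_lit 13191086095) (nat_lit 2416967934) (.two (nat_lit 184419352584) (nat_lit 739246740) (.two (nat_lit 3472883717) (nat_lit 156367849519) (.two (nat_lit 16777217) (nat_lit 174755679704) (.two (nat_lit 16777216) (nat_lit 1054755) (.one (nat_lit 16786091) .nil))))),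
   .two (nat_lit 16777231) (nat_lit 1210057064) (.two (nat_lit 16777220) (nat_lit 9899607406) (.two (nat_lit 16777217) (nat_lit 136318419) (.two (nat_lit 1048576) (nat_lit 2103332) (.one (nat_lit 2106028) .nil)))),
   .two (nat_lit 11479810063) (nat_lit 2097411) (.two (nat_lit 183848927240) (nat_lit 10001318580) (.two (nat_lit 10506731525) (nat_lit 3558868253) (.two (nat_lit 9768534017) (nat_lit 2101625) (.two (nat_lit 1048576) (nat_lit 11513371282) .nil)))),
   .two (nat_lit 12047089679) (nat_lit 4599054599) (.two (nat_lit 10940841992) (nat_lit 135267171) (.two (nat_lit 156364701697) (nat_lit 9967767044) (.two (nat_lit 2097152) (nat_lit 1054757) (.one (nat_lit 174685429368) .nil)))),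
   .two (nat_lit 9768534031) (nat_lit 19027460162) (.two (nat_lit 10506731528) (nat_lit 19027460962) (.two (nat_lit 4194305) (nat_lit 46407883438) .nil)),
   .two (nat_lit 2902458383) (nat_lit 9802088563) (.two (nat_lit 9802088461) (nat_lit 10921968258) (.two (nat_lit 13191086085) (nat_lit 2902459234) (.two (nat_lit 37748737) (nat_lit 159266116920) .nil))),
   .two (nat_lit 1358954511) (nat_lit 10939793475) (.two (nat_lit 28086108168) (nat_lit 9781117583) (.two (nat_lit 158143086597) (nat_lit 10385098016) (.two (nat_lit 50331649) (nat_lit 28757200387) (.two (nat_lit 8388608) (nat_lit 156968686569) (.one (nat_lit 16786093) .nil))))),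
   .two (nat_lit 8388623) (nat_lit 269484159) (.two (nat_lit 41943048) (nat_lit 1050697) (.two (nat_lit 41943041) (nat_lit 10939796906) (.two (nat_lit 4194304) (nat_lit 159216836248) .nil))),
   .two (nat_lit 169869327) (nat_lit 1358954691) (.two (nat_lit 2097157) (nat_lit 1392511063) (.two (nat_lit 34603009) (nat_lit 157051521541) (.two (nat_lit 1048576) (nat_lit 1377834946) (.one (nat_lit 2106030) .nil)))),
   .two (nat_lit 285212687) (nat_lit 4030726264) (.two (nat_lit 19532873736) (nat_lit 822083941) (.two (nat_lit 19596836869) (nat_lit 12129928570) (.two (nat_lit 9765388289) (nat_lit 47596968602) .nil))),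
   .two (nat_lit 822083599) (nat_lit 20644364400) (.two (nat_lit 4613734408) (nat_lit 158083318626) (.two (nat_lit 16777217) (nat_lit 2424312845) (.one (nat_lit 8397487) .nil))),
   .two (nat_lit 1846542351) (nat_lit 184419352691) (.two (nat_lit 10939793416) (nat_lit 1950352760) (.two (nat_lit 9765388289) (nat_lit 4199499) (.one (nat_lit 4202324) .nil))),
   .two (nat_lit 174752530447) (nat_lit 19130220655) (.two (nat_lit 174752530440) (nat_lit 1950352032) (.two (nat_lit 10939793413) (nat_lit 166232852526) (.two (nat_lit 605028353) (nat_lit 183916039595) (.two (nat_lit 8388608) (nat_lit 1054661) (.one (nat_lit 1057456) .nil))))),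
   .two (nat_lit 176160783) (nat_lit 2316304519) (.two (nat_lit 3458203656) (nat_lit 9974055276) (.two (nat_lit 47548727301) (nat_lit 176162847) (.two (nat_lit 612368385) (nat_lit 10537144218) (.one (nat_lit 9974062600) .nil)))),
   .two (nat_lit 2961178639) (nat_lit 156533522542) (.two (nat_lit 75497480) (nat_lit 19596837222) (.two (nat_lit 4599054341) (nat_lit 8391583) (.two (nat_lit 605028353) (nat_lit 166230756820) (.two (nat_lit 1048576) (nat_lit 2103336) (.one (nat_lit 2106033) .nil))))),
   .two (nat_lit 3460300815) (nat_lit 11611930750) (.two (nat_lit 673185805) (nat_lit 19529728674) (.two (nat_lit 159217876997) (nat_lit 21811431949) (.two (nat_lit 2097152) (nat_lit 1054762) (.one (nat_lit 1057459) .nil)))),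
   .two (nat_lit 4194319) (nat_lit 1417674864) (.two (nat_lit 21785214984) (nat_lit 11577328265) (.two (nat_lit 713031684) (nat_lit 183946446870) (.two (nat_lit 41943041) (nat_lit 28690094676) .nil))),
   .two (nat_lit 4605345807) (nat_lit 185023332471) (.two (nat_lit 156367847432) (nat_lit 28764538165) (.two (nat_lit 4194305) (nat_lit 19033754122) (.two (nat_lit 4194304) (nat_lit 8394795) (.one (nat_lit 1057460) .nil)))),
   .two (nat_lit 285212687) (nat_lit 28758245513) (.two (nat_lit 19596836872) (nat_lit 184417256063) (.two (nat_lit 156364701701) (nat_lit 807404931) (.two (nat_lit 16777217) (nat_lit 19094571559) (.two (nat_lit 8388608) (nat_lit 2104817) .nil)))),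
   .two (nat_lit 272629775) (nat_lit 156968682107) (.two (nat_lit 4194308) (nat_lit 11577329000) (.two (nat_lit 156364701697) (nat_lit 3460303373) (.two (nat_lit 1048576) (nat_lit 19130226627) (.one (nat_lit 4202333) .nil)))),
   .two (nat_lit 2969567247) (nat_lit 28791800433) (.two (nat_lit 34603013) (nat_lit 2432697682) (.two (nat_lit 605028353) (nat_lit 687869393) (.two (nat_lit 2097152) (nat_lit 16783404) (.one (nat_lit 1057461) .nil)))),
   .two (nat_lit 9781116943) (nat_lit 12117344371) (.two (nat_lit 13224640524) (nat_lit 183861511012) (.two (nat_lit 37748737) (nat_lit 9881782807) (.two (nat_lit 1048576) (nat_lit 13224648346) .nil))),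
   .two (nat_lit 10343153679) (nat_lit 9867100294) (.two (nat_lit 10940841992) (nat_lit 12617516355) (.two (nat_lit 9765388289) (nat_lit 11618224653) (.two (nat_lit 2097152) (nat_lit 20737693678) (.one (nat_lit 20737695487) .nil)))),
   .two (nat_lit 276824079) (nat_lit 11578376313) (.two (nat_lit 1178599432) (nat_lit 10906239335) (.two (nat_lit 21778923525) (nat_lit 46406828900) (.two (nat_lit 9765388289) (nat_lit 1384123903) (.two (nat_lit 1048576) (nat_lit 4199537) (.one (nat_lit 4202336) .nil))))),
   .two (nat_lit 4194319) (nat_lit 10007609453) (.two (nat_lit 2961178632) (nat_lit 104858294) (.two (nat_lit 2894069765) (nat_lit 3527411029) (.two (nat_lit 34603009) (nat_lit 1312819717) (.two (nat_lit 1048576) (nat_lit 4201598) (.one (nat_lit 1056609) .nil))))),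
   .two (nat_lit 11559501839) (nat_lit 12617515074) (.two (nat_lit 184416206856) (nat_lit 10351542914) (.two (nat_lit 12114198533) (nat_lit 11559502690) (.two (nat_lit 34603009) (nat_lit 11492395520) (.two (nat_lit 1048576) (nat_lit 158192375740) (.one (nat_lit 16786103) .nil))))),
   .two (nat_lit 156971827215) (nat_lit 2349858929) (.two (nat_lit 2416967692) (nat_lit 4030726806) (.two (nat_lit 10939793413) (nat_lit 1178601494) (.two (nat_lit 612368385) (nat_lit 11577332698) (.one (nat_lit 71310966) .nil)))),
   .two (nat_lit 184549391) (nat_lit 272629870) (.two (nat_lit 104857608) (nat_lit 158662133812) (.two (nat_lit 612368385) (nat_lit 1052211) (.two (nat_lit 8388608) (nat_lit 9948894207) (.one (nat_lit 16785253) .nil)))),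
   .two (nat_lit 822083599) (nat_lit 20704133234) (.two (nat_lit 9866051592) (nat_lit 9781118242) (.two (nat_lit 50331649) (nat_lit 11577331175) (.two (nat_lit 16777216) (nat_lit 1054766) (.one (nat_lit 28806488605) .nil)))),
   .two (nat_lit 37246468120) (nat_lit 11559501891) (.two (nat_lit 10343153672) (nat_lit 20652753553) (.two (nat_lit 9765388293) (nat_lit 754977281) (.two (nat_lit 8388608) (nat_lit 16783407) (.one (nat_lit 8397496) .nil)))),
   .two (nat_lit 11479810063) (nat_lit 672137577) (.two (nat_lit 713031684) (nat_lit 19093521251) (.two (nat_lit 37748737) (nat_lit 156566033471) (.one (nat_lit 1057465) .nil))),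
   .two (nat_lit 10336862223) (nat_lit 9866052248) (.two (nat_lit 8388612) (nat_lit 156532475267) (.two (nat_lit 41943041) (nat_lit 706744735) (.two (nat_lit 2097152) (nat_lit 8394800) (.one (nat_lit 1057466) .nil)))),
   .two (nat_lit 272629775) (nat_lit 37246468363) (.two (nat_lit 47548727304) (nat_lit 158176641388) (.two (nat_lit 46414168069) (nat_lit 1310721358) (.two (nat_lit 41943041) (nat_lit 183913942468) (.two (nat_lit 2097152) (nat_lit 8394802) (.one (nat_lit 2106043) .nil))))),
   .two (nat_lit 612368399) (nat_lit 1346372278) (.two (nat_lit 713031685) (nat_lit 1948256305) (.two (nat_lit 2097153) (nat_lit 1312819717) (.two (nat_lit 2097152) (nat_lit 4201600) (.one (nat_lit 136322879) .nil)))),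
   .two (nat_lit 37748751) (nat_lit 13195280492) (.two (nat_lit 176160776) (nat_lit 673186390) (.two (nat_lit 8388613) (nat_lit 4030728244) (.two (nat_lit 37748737) (nat_lit 46514835844) (.two (nat_lit 2097152) (nat_lit 4201601) (.one (nat_lit 171974459) .nil))))),
   .two (nat_lit 2961178639) (nat_lit 136315152) (.two (nat_lit 11551113224) (nat_lit 13191086728) (.two (nat_lit 1343225861) (nat_lit 4028630317) (.two (nat_lit 9766436865) (nat_lit 1853885924) (.two (nat_lit 1048576) (nat_lit 2104450) (.one (nat_lit 1056617) .nil))))),
   .two (nat_lit 2954887183) (nat_lit 13187940624) (.two (nat_lit 16777224) (nat_lit 166230753638) (.two (nat_lit 10335813637) (nat_lit 10538190113) (.two (nat_lit 16777217) (nat_lit 1411386887) (.two (nat_lit 1048576) (nat_lit 16784515) (.one (nat_lit 16786108) .nil))))),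
   .two (nat_lit 2889875471) (nat_lit 2988441851) (.two (nat_lit 2961178632) (nat_lit 740295298) (.two (nat_lit 176160772) (nat_lit 28690090033) (.two (nat_lit 8388609) (nat_lit 28086111709) (.two (nat_lit 4194304) (nat_lit 1344279619) (.one (nat_lit 2105196) .nil))))),
   .two (nat_lit 2889875471) (nat_lit 183853121649) (.two (nat_lit 46409973768) (nat_lit 880805405) (.two (nat_lit 4194304) (nat_lit 11014247411) (.one (nat_lit 8397501) .nil))),
   .two (nat_lit 4194319) (nat_lit 11492393025) (.two (nat_lit 4194312) (nat_lit 28772926816) (.two (nat_lit 34603009) (nat_lit 166211882425) (.two (nat_lit 16777216) (nat_lit 1055876) (.one (nat_lit 4203198) .nil)))),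
   .two (nat_lit 3458203663) (nat_lit 1929380495) (.two (nat_lit 270532613) (nat_lit 19612566907) (.two (nat_lit 50331649) (nat_lit 21812482446) (.two (nat_lit 1048576) (nat_lit 16784517) (.one (nat_lit 1056622) .nil)))),
   .two (nat_lit 184993972239) (nat_lit 19093520499) (.two (nat_lit 1947205644) (nat_lit 9873391979) (.two (nat_lit 1913651205) (nat_lit 21785215842) (.two (nat_lit 156364701697) (nat_lit 8394040) .nil))),
   .two (nat_lit 218103823) (nat_lit 11513364605) (.two (nat_lit 2902458376) (nat_lit 742392491) (.two (nat_lit 285212677) (nat_lit 4196443) (.two (nat_lit 16777217) (nat_lit 608177597) (.two (nat_lit 4194304) (nat_lit 20652758860) (.one (nat_lit 4202351) .nil))))),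
   .two (nat_lit 156968681487) (nat_lit 2927624330) (.two (nat_lit 21785214984) (nat_lit 159250383490) (.two (nat_lit 21785214981) (nat_lit 4027582530) (.two (nat_lit 612368385) (nat_lit 1053095) (.two (nat_lit 8388608) (nat_lit 1055878) (.one (nat_lit 8397503) .nil))))),
   .two (nat_lit 276824079) (nat_lit 754974786) (.two (nat_lit 101711880) (nat_lit 10376709426) (.two (nat_lit 34603009) (nat_lit 142611459) (.one (nat_lit 16786033) .nil))),
   .two (nat_lit 165532401705) (nat_lit 673185907) (.two (nat_lit 159217877005) (nat_lit 18933089122) (.two (nat_lit 37748737) (nat_lit 10544484243) (.one (nat_lit 8396658) .nil))),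
   .two (nat_lit 620757007) (nat_lit 4028629057) (.two (nat_lit 2954887176) (nat_lit 37329306929) (.two (nat_lit 2097153) (nat_lit 166245435914) (.two (nat_lit 2097152) (nat_lit 16783415) (.one (nat_lit 3022002908) .nil)))),
   .two (nat_lit 721420303) (nat_lit 10436477045) (.two (nat_lit 156465365005) (nat_lit 20753416866) (.two (nat_lit 11543773189) (nat_lit 19612566847) (.two (nat_lit 9765388289) (nat_lit 9934214171) (.one (nat_lit 2105205) .nil)))),
   .two (nat_lit 12047089679) (nat_lit 10544480375) (.two (nat_lit 183853121544) (nat_lit 21777875619) (.two (nat_lit 13195280389) (nat_lit 16779356) (.two (nat_lit 34603009) (nat_lit 28093453305) (.one (nat_lit 1057472) .nil)))),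
   .two (nat_lit 11559501839) (nat_lit 1049095) (.two (nat_lit 1376780301) (nat_lit 11559502019) (.two (nat_lit 21777874949) (nat_lit 1358956062) (.two (nat_lit 1048576) (nat_lit 9781122076) (.one (nat_lit 1057473) .nil)))),
   .two (nat_lit 12047089679) (nat_lit 156569174128) (.two (nat_lit 18925748232) (nat_lit 156569174882) (.two (nat_lit 16777217) (nat_lit 46507496417) (.one (nat_lit 18928901953) .nil))),
   .two (nat_lit 11492392975) (nat_lit 28690088058) (.two (nat_lit 117440520) (nat_lit 11577328268) (.two (nat_lit 11492392964) (nat_lit 2987394371) (.two (nat_lit 4194305) (nat_lit 1291848211) (.two (nat_lit 2097152) (nat_lit 1054776) (.one (nat_lit 1056634) .nil))))),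
   .two (nat_lit 754974735) (nat_lit 135266441) (.two (nat_lit 184423546888) (nat_lit 3573548397) (.two (nat_lit 8388609) (nat_lit 251662234) (.one (nat_lit 740303268) .nil))),
   .two (nat_lit 47555018767) (nat_lit 11611930984) (.two (nat_lit 158150426629) (nat_lit 21778925652) (.two (nat_lit 9768534017) (nat_lit 18933091754) (.two (nat_lit 4194304) (nat_lit 2317356945) (.one (nat_lit 2105213) .nil)))),
   .two (nat_lit 169869327) (nat_lit 3028287603) (.two (nat_lit 169869320) (nat_lit 165532402736) (.two (nat_lit 1846542341) (nat_lit 159217879077) (.two (nat_lit 8388609) (nat_lit 2101673) (.two (nat_lit 8388608) (nat_lit 1054777) (.one (nat_lit 3464503118) .nil))))),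
   .two (nat_lit 620757007) (nat_lit 12147753081) (.two (nat_lit 156367847432) (nat_lit 158091707717) (.two (nat_lit 4194305) (nat_lit 1846546790) (.two (nat_lit 4194304) (nat_lit 1054778) (.one (nat_lit 4203203) .nil)))),
   .two (nat_lit 205520911) (nat_lit 19094569087) (.two (nat_lit 742391816) (nat_lit 2416969806) (.two (nat_lit 37748737) (nat_lit 303042015) (.two (nat_lit 2097152) (nat_lit 1055880) (.one (nat_lit 2105214) .nil)))),
   .two (nat_lit 12117344271) (nat_lit 19597885555) (.two (nat_lit 50331656) (nat_lit 159251431787) (.two (nat_lit 10343153669) (nat_lit 166245434756) (.two (nat_lit 41943041) (nat_lit 2101597) (.two (nat_lit 8388608) (nat_lit 4201609) (.one (nat_lit 20745035436) .nil))))),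
   .two (nat_lit 10343153679) (nat_lit 156971827451) (.two (nat_lit 3539992584) (nat_lit 159253529218) (.two (nat_lit 8388613) (nat_lit 37329306947) (.two (nat_lit 9768534017) (nat_lit 158653746681) (.two (nat_lit 1048576) (nat_lit 10372521631) .nil)))),
   .two (nat_lit 184549391) (nat_lit 156573368444) (.two (nat_lit 184423546888) (nat_lit 184550242) (.two (nat_lit 2097153) (nat_lit 1426069446) (.one (nat_lit 16786116) .nil))),
   .two (nat_lit 174753579023) (nat_lit 156569174127) (.two (nat_lit 174753579016) (nat_lit 46980400193) (.two (nat_lit 159217876997) (nat_lit 4196447) (.two (nat_lit 156365750273) (nat_lit 4199974) (.two (nat_lit 1048576) (nat_lit 1948260990) .nil)))),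
   .two (nat_lit 1350565903) (nat_lit 19530776643) (.two (nat_lit 1178599432) (nat_lit 2994733924) (.two (nat_lit 37748737) (nat_lit 4632612343) (.two (nat_lit 4194304) (nat_lit 8395914) (.one (nat_lit 4203205) .nil)))),
   .two (nat_lit 46409973775) (nat_lit 12114198638) (.two (nat_lit 46409973768) (nat_lit 1050333) (.two (nat_lit 218103813) (nat_lit 1050720) (.two (nat_lit 2097153) (nat_lit 16782887) (.two (nat_lit 2097152) (nat_lit 4200507) (.one (nat_lit 16785282) .nil))))),
   .two (nat_lit 4605345807) (nat_lit 306184858) (.two (nat_lit 2956984325) (nat_lit 19100861759) (.two (nat_lit 605028353) (nat_lit 166136385945) (.two (nat_lit 2097152) (nat_lit 183912898154) .nil))),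
   .two (nat_lit 11543773199) (nat_lit 3527409788) (.two (nat_lit 11543773192) (nat_lit 2353005195) (.two (nat_lit 10506731525) (nat_lit 156364703788) (.two (nat_lit 34603009) (nat_lit 4197940) (.two (nat_lit 1048576) (nat_lit 4200508) (.one (nat_lit 1056644) .nil))))),
   .two (nat_lit 11559501839) (nat_lit 12147753095) (.two (nat_lit 1343225864) (nat_lit 156380431669) (.two (nat_lit 34603009) (nat_lit 21781026700) (.one (nat_lit 4203206) .nil))),
   .two (nat_lit 809500687) (nat_lit 21793604672) (.two (nat_lit 218103813) (nat_lit 9969862027) (.two (nat_lit 37748737) (nat_lit 873469874) (.one (nat_lit 156581765653) .nil))),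
   .two (nat_lit 46414168079) (nat_lit 158075977795) (.two (nat_lit 184986632200) (nat_lit 11484006469) (.two (nat_lit 156372041729) (nat_lit 1052213) (.two (nat_lit 8388608) (nat_lit 1054781) (.one (nat_lit 166129049167) .nil)))),
   .two (nat_lit 4601151503) (nat_lit 46481277585) (.two (nat_lit 159224168453) (nat_lit 843055970) (.two (nat_lit 9781116929) (nat_lit 9768539448) .nil)),
   .two (nat_lit 4194319) (nat_lit 47555018818) (.two (nat_lit 169869320) (nat_lit 9969861312) (.two (nat_lit 34603013) (nat_lit 158150428766) (.two (nat_lit 2097153) (nat_lit 158143091041) (.two (nat_lit 1048576) (nat_lit 46481282931) (.one (nat_lit 209723244) .nil))))),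
   .two (nat_lit 157036838927) (nat_lit 19599982707) (.two (nat_lit 9802088460) (nat_lit 46407877280) (.two (nat_lit 1916796933) (nat_lit 673186658) (.two (nat_lit 9768534017) (nat_lit 12148805514) (.one (nat_lit 740301462) .nil)))),
   .two (nat_lit 203423759) (nat_lit 174752530542) (.two (nat_lit 639631368) (nat_lit 12047090285) (.two (nat_lit 2969567237) (nat_lit 269487620) (.two (nat_lit 16777216) (nat_lit 158144140322) (.one (nat_lit 2105222) .nil)))),
   .two (nat_lit 654311448) (nat_lit 2990539115) (.two (nat_lit 1358954501) (nat_lit 202376579) (.two (nat_lit 4194305) (nat_lit 28806482470) (.two (nat_lit 1048576) (nat_lit 165528212543) (.one (nat_lit 1212161900) .nil)))),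
   .two (nat_lit 11559501839) (nat_lit 13221495441) (.two (nat_lit 10503585797) (nat_lit 721421154) (.two (nat_lit 8388609) (nat_lit 10452209544) (.one (nat_lit 16786120) .nil))),
   .two (nat_lit 101711887) (nat_lit 10940842094) (.two (nat_lit 9867100168) (nat_lit 12617515643) (.two (nat_lit 1779433477) (nat_lit 10336863599) (.two (nat_lit 37748737) (nat_lit 183913943435) (.two (nat_lit 4194304) (nat_lit 158143091733) (.one (nat_lit 1056467) .nil))))),
   .two (nat_lit 9934209039) (nat_lit 166199296701) (.two (nat_lit 169869316) (nat_lit 10506732386) (.two (nat_lit 2097153) (nat_lit 2319454088) (.one (nat_lit 37316729421) .nil))),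
   .two (nat_lit 9948889103) (nat_lit 10907287665) (.two (nat_lit 9948889096) (nat_lit 46474986107) (.two (nat_lit 3525312517) (nat_lit 620757858) (.two (nat_lit 2097153) (nat_lit 620758557) (.two (nat_lit 2097152) (nat_lit 10519319539) (.one (nat_lit 2106057) .nil))))),
   .two (nat_lit 9866051599) (nat_lit 174753579119) (.two (nat_lit 9866051592) (nat_lit 20738736741) (.two (nat_lit 11476664324) (nat_lit 3458204994) (.two (nat_lit 50331649) (nat_lit 1052215) (.two (nat_lit 16777216) (nat_lit 20737692741) (.one (nat_lit 1056648) .nil))))),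
   .two (nat_lit 203423767) (nat_lit 28693233777) (.two (nat_lit 10506731532) (nat_lit 37247517316) (.two (nat_lit 2097157) (nat_lit 1417675618) (.two (nat_lit 2097153) (nat_lit 2424312849) (.one (nat_lit 4202377) .nil)))),
   .two (nat_lit 713031695) (nat_lit 876609653) (.two (nat_lit 3525312520) (nat_lit 11479810737) (.two (nat_lit 184989777925) (nat_lit 13228836957) (.two (nat_lit 620756993) (nat_lit 21781025757) (.one (nat_lit 8397514) .nil)))),
   .two (nat_lit 159217877007) (nat_lit 19130220681) (.two (nat_lit 156569174028) (nat_lit 169869984) (.two (nat_lit 10506731525) (nat_lit 159251432290) (.two (nat_lit 2097153) (nat_lit 19130223127) (.two (nat_lit 1048576) (nat_lit 12618567562) (.one (nat_lit 4202378) .nil))))),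
   .two (nat_lit 184416206863) (nat_lit 19530776698) (.two (nat_lit 18925748232) (nat_lit 19597886790) (.two (nat_lit 16777217) (nat_lit 673188371) (.two (nat_lit 4194304) (nat_lit 1054785) (.one (nat_lit 2105229) .nil)))),
   .two (nat_lit 218103823) (nat_lit 4028629350) (.two (nat_lit 174753579013) (nat_lit 16780193) (.two (nat_lit 9766436865) (nat_lit 1795164698) (.two (nat_lit 2097152) (nat_lit 754979908) (.one (nat_lit 2105230) .nil)))),
   .two (nat_lit 721420303) (nat_lit 156372041845) (.two (nat_lit 11492392968) (nat_lit 156569174682) (.two (nat_lit 11479810052) (nat_lit 16778534) (.two (nat_lit 612368385) (nat_lit 28806485001) (.one (nat_lit 1417682763) .nil)))),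
   .two (nat_lit 46407876623) (nat_lit 1753220391) (.two (nat_lit 156372041729) (nat_lit 136321076) (.one (nat_lit 1057484) .nil)),
   .two (nat_lit 41943055) (nat_lit 1191182451) (.two (nat_lit 19596836877) (nat_lit 157043131071) (.two (nat_lit 285212677) (nat_lit 20745028452) (.two (nat_lit 16777217) (nat_lit 47588575776) (.two (nat_lit 1048576) (nat_lit 8393846) (.one (nat_lit 654319072) .nil))))),
   .two (nat_lit 9934209039) (nat_lit 11559501939) (.two (nat_lit 28806479885) (nat_lit 166230753955) (.two (nat_lit 822083589) (nat_lit 19128124260) (.two (nat_lit 9781116929) (nat_lit 1176506248) (.one (nat_lit 2106061) .nil)))),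
   .two (nat_lit 739246095) (nat_lit 174753579259) (.two (nat_lit 101711880) (nat_lit 2921333796) (.two (nat_lit 11492392965) (nat_lit 10335815005) (.two (nat_lit 16777217) (nat_lit 165525066776) (.one (nat_lit 2106062) .nil)))),
   .two (nat_lit 1191182351) (nat_lit 739246194) (.two (nat_lit 11559501832) (nat_lit 2886730380) (.two (nat_lit 721420292) (nat_lit 185020188039) (.two (nat_lit 34603009) (nat_lit 10907290125) (.two (nat_lit 1048576) (nat_lit 2103362) (.one (nat_lit 1057487) .nil))))),
   .two (nat_lit 176160783) (nat_lit 183861511537) (.two (nat_lit 612368385) (nat_lit 889196939) (.two (nat_lit 8388608) (nat_lit 19042145273) (.one (nat_lit 8397520) .nil))),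
   .two (nat_lit 276824087) (nat_lit 1411383413) (.two (nat_lit 8388616) (nat_lit 10437526122) (.two (nat_lit 46407876612) (nat_lit 156573369734) (.two (nat_lit 156365750273) (nat_lit 19134418469) (.two (nat_lit 2097152) (nat_lit 4200516) (.one (nat_lit 2106065) .nil))))),
   .two (nat_lit 4194319) (nat_lit 9881780348) (.two (nat_lit 13191086088) (nat_lit 19596837059) (.two (nat_lit 4194308) (nat_lit 11610883379) (.two (nat_lit 4194305) (nat_lit 9915340867) (.one (nat_lit 28772932174) .nil)))),
   .two (nat_lit 4194319) (nat_lit 158662131839) (.two (nat_lit 13191086088) (nat_lit 19596837059) (.two (nat_lit 4194308) (nat_lit 166229706042) (.two (nat_lit 4194305) (nat_lit 158662137699) (.one (nat_lit 28772932174) .nil)))),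
   .two (nat_lit 11543773199) (nat_lit 4194426) (.two (nat_lit 184416206856) (nat_lit 9802088643) (.two (nat_lit 12114198533) (nat_lit 104858980) (.two (nat_lit 41943041) (nat_lit 12617521885) .nil))),
   .two (nat_lit 276824079) (nat_lit 754975333) (.two (nat_lit 8388612) (nat_lit 285216194) (.two (nat_lit 8388608) (nat_lit 705697668) (.one (nat_lit 3557827044) .nil))),
   .two (nat_lit 10385096719) (nat_lit 158144135363) (.two (nat_lit 9934209029) (nat_lit 4613735730) (.two (nat_lit 620756993) (nat_lit 158077032491) (.one (nat_lit 35658323) .nil))),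
   .two (nat_lit 2902458383) (nat_lit 184993972361) (.two (nat_lit 12047089672) (nat_lit 19100861037) (.two (nat_lit 285212677) (nat_lit 159257724967) (.two (nat_lit 41943041) (nat_lit 638588980) (.one (nat_lit 1057490) .nil)))),
   .two (nat_lit 809500687) (nat_lit 156372041837) (.two (nat_lit 4194312) (nat_lit 156372043044) (.two (nat_lit 605028353) (nat_lit 166232855575) (.one (nat_lit 1057491) .nil))),
   .two (nat_lit 2954887183) (nat_lit 18933088369) (.two (nat_lit 47548727304) (nat_lit 183853122854) (.two (nat_lit 8388609) (nat_lit 18926799395) (.two (nat_lit 2097152) (nat_lit 8394827) (.one (nat_lit 2106068) .nil)))),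
   .two (nat_lit 11479810063) (nat_lit 1358954612) (.two (nat_lit 10385096712) (nat_lit 183949591394) (.two (nat_lit 34603009) (nat_lit 28089259106) (.one (nat_lit 4202406) .nil))),
   .two (nat_lit 19530776591) (nat_lit 218104443) (.two (nat_lit 174753579013) (nat_lit 251659624) (.two (nat_lit 9766436865) (nat_lit 158158819218) (.one (nat_lit 9982451272) .nil))),
   .two (nat_lit 11479810063) (nat_lit 21818770032) (.two (nat_lit 169869316) (nat_lit 46414169386) (.two (nat_lit 2097153) (nat_lit 166232855575) (.one (nat_lit 4203221) .nil))),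
   .two (nat_lit 1277165583) (nat_lit 156465365057) (.two (nat_lit 156968681480) (nat_lit 20638075434) (.two (nat_lit 1048576) (nat_lit 184987684743) (.one (nat_lit 2106070) .nil))),
   .two (nat_lit 2961178639) (nat_lit 156971827315) (.two (nat_lit 3460300808) (nat_lit 1182795053) (.two (nat_lit 8388609) (nat_lit 46980404314) (.one (nat_lit 4202408) .nil))),
   .two (nat_lit 1358954511) (nat_lit 11577327726) (.two (nat_lit 11543773192) (nat_lit 21793604283) (.two (nat_lit 47548727301) (nat_lit 721421701) (.two (nat_lit 2097153) (nat_lit 16781741) (.two (nat_lit 1048576) (nat_lit 2104462) (.one (nat_lit 2106071) .nil))))),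
   .two (nat_lit 9934209039) (nat_lit 28101836926) (.two (nat_lit 285212684) (nat_lit 159251431619) (.two (nat_lit 16777221) (nat_lit 166230754846) (.two (nat_lit 16777216) (nat_lit 10336866197) (.one (nat_lit 2106072) .nil)))),
   .two (nat_lit 183946444823) (nat_lit 183953784951) (.two (nat_lit 12114198536) (nat_lit 174759871163) (.two (nat_lit 184416206853) (nat_lit 158083319081) (.two (nat_lit 9768534017) (nat_lit 166196155385) (.one (nat_lit 1057497) .nil)))),
   .two (nat_lit 41943055) (nat_lit 4601151845) (.two (nat_lit 713031684) (nat_lit 158146233718) (.two (nat_lit 8388609) (nat_lit 9933163974) (.two (nat_lit 8388608) (nat_lit 1054797) (.one (nat_lit 1057498) .nil)))),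
   .two (nat_lit 2994733079) (nat_lit 47582281838) (.two (nat_lit 2961178632) (nat_lit 874513005) (.two (nat_lit 46407876612) (nat_lit 13191087482) (.two (nat_lit 9765388289) (nat_lit 19096669695) (.two (nat_lit 1048576) (nat_lit 4201615) (.one (nat_lit 1057499) .nil))))),
   .two (nat_lit 276824079) (nat_lit 11559501889) (.two (nat_lit 1358954504) (nat_lit 310378853) (.two (nat_lit 1291845637) (nat_lit 780142685) (.two (nat_lit 41943041) (nat_lit 16781742) (.two (nat_lit 16777216) (nat_lit 8395920) (.one (nat_lit 8397532) .nil))))),
   .two (nat_lit 169869327) (nat_lit 46414169379) (.two (nat_lit 605028353) (nat_lit 166197202489) (.two (nat_lit 2097152) (nat_lit 1054799) (.one (nat_lit 1056682) .nil))),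
   .two (nat_lit 205520911) (nat_lit 158177689719) (.two (nat_lit 3527409672) (nat_lit 174686471203) (.two (nat_lit 2889875460) (nat_lit 46473938246) (.two (nat_lit 9768534017) (nat_lit 19094575160) (.one (nat_lit 2105259) .nil)))),
   .two (nat_lit 169869327) (nat_lit 721420398) (.two (nat_lit 2954887176) (nat_lit 9982444179) (.two (nat_lit 11492392965) (nat_lit 28790752579) (.two (nat_lit 605028353) (nat_lit 12163484199) (.two (nat_lit 1048576) (nat_lit 16783440) (.one (nat_lit 2418023930) .nil))))),
   .two (nat_lit 721420303) (nat_lit 19599982717) (.two (nat_lit 272629768) (nat_lit 16777574) (.two (nat_lit 272629765) (nat_lit 16779363) (.two (nat_lit 620756993) (nat_lit 4199978) (.two (nat_lit 16777216) (nat_lit 4200530) (.one (nat_lit 4202413) .nil))))),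
   .two (nat_lit 4194319) (nat_lit 16777454) (.two (nat_lit 2902458376) (nat_lit 37313577654) (.two (nat_lit 1344274437) (nat_lit 2886731062) (.two (nat_lit 9781116929) (nat_lit 158146239224) .nil))),
   .two (nat_lit 272629775) (nat_lit 159216828688) (.two (nat_lit 184549384) (nat_lit 843055753) (.two (nat_lit 156364701701) (nat_lit 156569175338) (.two (nat_lit 16777217) (nat_lit 11614031309) (.two (nat_lit 1048576) (nat_lit 1291850745) (.one (nat_lit 16786141) .nil))))),
   .two (nat_lit 612368399) (nat_lit 10921967975) (.two (nat_lit 176160772) (nat_lit 165540792404) (.two (nat_lit 2097153) (nat_lit 9974058411) (.two (nat_lit 2097152) (nat_lit 3472889759) (.one (nat_lit 16786142) .nil)))),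
   .two (nat_lit 721420303) (nat_lit 158176641268) (.two (nat_lit 620757000) (nat_lit 156968682818) (.two (nat_lit 8388609) (nat_lit 184416209428) (.two (nat_lit 8388608) (nat_lit 11593064047) .nil))),
   .two (nat_lit 276824079) (nat_lit 10506731631) (.two (nat_lit 713031688) (nat_lit 9966715548) (.two (nat_lit 171966469) (nat_lit 46414169380) (.two (nat_lit 34603009) (nat_lit 156367852565) (.one (nat_lit 13224648300) .nil)))),
   .two (nat_lit 83886095) (nat_lit 28690088002) (.two (nat_lit 185002360840) (nat_lit 37246468453) (.two (nat_lit 1358954501) (nat_lit 1175455098) (.two (nat_lit 606076929) (nat_lit 1779437982) (.two (nat_lit 1048576) (nat_lit 1780486023) (.one (nat_lit 2106079) .nil))))),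
   .two (nat_lit 183853121551) (nat_lit 272629882) (.two (nat_lit 18928893960) (nat_lit 10913580397) (.two (nat_lit 37748737) (nat_lit 754978287) (.two (nat_lit 4194304) (nat_lit 16783445) (.one (nat_lit 16785329) .nil)))),
   .two (nat_lit 21208498191) (nat_lit 772800623) (.two (nat_lit 21208498184) (nat_lit 156364702781) (.two (nat_lit 10503585797) (nat_lit 9967764775) (.two (nat_lit 8388609) (nat_lit 159251435048) (.two (nat_lit 8388608) (nat_lit 158647457814) (.one (nat_lit 1057504) .nil))))),
   .two (nat_lit 11492392975) (nat_lit 2923429954) (.two (nat_lit 156367847432) (nat_lit 11544823109) (.two (nat_lit 2097153) (nat_lit 28089258328) (.two (nat_lit 2097152) (nat_lit 9768541905) .nil))),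
   .two (nat_lit 41943055) (nat_lit 13187940489) (.two (nat_lit 46407876616) (nat_lit 343933123) (.two (nat_lit 46407876612) (nat_lit 156472706359) (.two (nat_lit 41943041) (nat_lit 20637027800) (.two (nat_lit 8388608) (nat_lit 1055891) (.one (nat_lit 1056693) .nil))))),
   .two (nat_lit 159217877007) (nat_lit 4601151752) (.two (nat_lit 169869320) (nat_lit 2353005944) (.two (nat_lit 2097153) (nat_lit 1212156417) (.two (nat_lit 1048576) (nat_lit 4199544) (.one (nat_lit 4203233) .nil)))),
   .two (nat_lit 11479810063) (nat_lit 202375287) (.two (nat_lit 12117344264) (nat_lit 2416968329) (.two (nat_lit 11479810052) (nat_lit 157036840268) (.two (nat_lit 34603009) (nat_lit 166230755858) (.two (nat_lit 4194304) (nat_lit 9966719964) (.one (nat_lit 1057506) .nil))))),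
   .two (nat_lit 184423546895) (nat_lit 185023332869) (.two (nat_lit 205520904) (nat_lit 156976022863) (.two (nat_lit 605028353) (nat_lit 156969733625) (.two (nat_lit 1048576) (nat_lit 20638078833) (.one (nat_lit 2105271) .nil)))),
   .two (nat_lit 3460300815) (nat_lit 159224168557) (.two (nat_lit 158083317768) (nat_lit 3457155693) (.two (nat_lit 10503585797) (nat_lit 13224641929) (.two (nat_lit 8388609) (nat_lit 1209010702) (.two (nat_lit 8388608) (nat_lit 166229710816) (.one (nat_lit 1057508) .nil))))),
   .two (nat_lit 4605345807) (nat_lit 2923430002) (.two (nat_lit 156367847432) (nat_lit 156372043294) (.two (nat_lit 4194304) (nat_lit 4034925668) (.one (nat_lit 8396730) .nil))),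
   .two (nat_lit 16777231) (nat_lit 158075977993) (.two (nat_lit 10336862216) (nat_lit 4598007881) (.two (nat_lit 9765388289) (nat_lit 620759601) (.two (nat_lit 2097152) (nat_lit 37246474284) (.one (nat_lit 1056699) .nil)))),
   .two (nat_lit 1913651215) (nat_lit 183949591136) (.two (nat_lit 13191086085) (nat_lit 1410336108) (.two (nat_lit 156367847425) (nat_lit 37246471735) (.two (nat_lit 1048576) (nat_lit 4201620) (.one (nat_lit 4202430) .nil)))),
   .two (nat_lit 184993972239) (nat_lit 158176641382) (.two (nat_lit 11543773189) (nat_lit 1417676064) (.two (nat_lit 34603009) (nat_lit 813698612) (.two (nat_lit 1048576) (nat_lit 8394840) (.one (nat_lit 1056703) .nil)))),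
   .two (nat_lit 612368399) (nat_lit 37246468341) (.two (nat_lit 3458203656) (nat_lit 12121538921) (.two (nat_lit 75497477) (nat_lit 1947206950) (.two (nat_lit 8388609) (nat_lit 10000271907) (.two (nat_lit 2097152) (nat_lit 37320920967) (.one (nat_lit 8396736) .nil))))),
   .two (nat_lit 218103823) (nat_lit 183848927348) (.two (nat_lit 4194312) (nat_lit 620758310) (.two (nat_lit 4194305) (nat_lit 11525949987) (.two (nat_lit 4194304) (nat_lit 158143092600) (.one (nat_lit 4203238) .nil)))),
   .two (nat_lit 2902458383) (nat_lit 2954887232) (.two (nat_lit 218103816) (nat_lit 10538190366) (.two (nat_lit 16777216) (nat_lit 158077031465) (.one (nat_lit 2105281) .nil))),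
   .two (nat_lit 4605345807) (nat_lit 9802088560) (.two (nat_lit 156367847432) (nat_lit 156372043293) (.two (nat_lit 4194304) (nat_lit 8395473) .nil)),
   .two (nat_lit 50331663) (nat_lit 158179786883) (.two (nat_lit 285212680) (nat_lit 843055299) (.two (nat_lit 218103813) (nat_lit 28793899082) (.two (nat_lit 4194305) (nat_lit 3003127890) (.one (nat_lit 20707285581) .nil)))),
   .two (nat_lit 11479810063) (nat_lit 612369076) (.two (nat_lit 809500677) (nat_lit 3464498626) (.two (nat_lit 1048576) (nat_lit 21210601413) (.one (nat_lit 4203239) .nil))),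
   .two (nat_lit 169869327) (nat_lit 880803948) (.two (nat_lit 705691656) (nat_lit 3464495782) (.two (nat_lit 638582789) (nat_lit 47582283043) (.two (nat_lit 605028353) (nat_lit 780144185) (.two (nat_lit 8388608) (nat_lit 3524270159) (.one (nat_lit 1057512) .nil))))),
   .two (nat_lit 9881780239) (nat_lit 135266416) (.two (nat_lit 165532401672) (nat_lit 2902460481) (.two (nat_lit 34603009) (nat_lit 1358959668) (.one (nat_lit 16786153) .nil))),
   .two (nat_lit 159217877007) (nat_lit 11614028136) (.two (nat_lit 2097157) (nat_lit 4197283) (.two (nat_lit 156365750273) (nat_lit 4030729740) (.two (nat_lit 8388608) (nat_lit 4028635051) (.one (nat_lit 1057514) .nil)))),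
   .two (nat_lit 218103823) (nat_lit 19027460161) (.two (nat_lit 12129927176) (nat_lit 37246468692) (.two (nat_lit 9934209029) (nat_lit 166245435920) (.two (nat_lit 2097152) (nat_lit 10000273293) (.one (nat_lit 1056707) .nil)))),
   .two (nat_lit 612368399) (nat_lit 1048697) (.two (nat_lit 184993972232) (nat_lit 10939794068) (.two (nat_lit 34603013) (nat_lit 880805154) (.two (nat_lit 2097153) (nat_lit 185020191821) (.one (nat_lit 13222551102) .nil)))),
   .two (nat_lit 4601151503) (nat_lit 1182795105) (.two (nat_lit 4194305) (nat_lit 3531607561) (.two (nat_lit 4194304) (nat_lit 11551118377) (.one (nat_lit 8397547) .nil))),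
   .two (nat_lit 47555018767) (nat_lit 156533522671) (.two (nat_lit 3558866957) (nat_lit 165532402974) (.two (nat_lit 2097153) (nat_lit 713036825) (.one (nat_lit 11618228923) .nil))),
   .two (nat_lit 1745879055) (nat_lit 1916797794) (.two (nat_lit 34603009) (nat_lit 11614034523) .nil),
   .two (nat_lit 8388623) (nat_lit 12050236078) (.two (nat_lit 13195280389) (nat_lit 12150900090) (.two (nat_lit 41943041) (nat_lit 174752534941) (.two (nat_lit 8388608) (nat_lit 11010054027) (.one (nat_lit 4203244) .nil)))),
   .two (nat_lit 4194319) (nat_lit 46414168180) (.two (nat_lit 4601151496) (nat_lit 880804489) (.two (nat_lit 4194308) (nat_lit 12624857110) (.two (nat_lit 37748737) (nat_lit 1947211777) (.one (nat_lit 4203245) .nil)))),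
   .two (nat_lit 205520911) (nat_lit 1310720112) (.two (nat_lit 21208498184) (nat_lit 166196150921) (.two (nat_lit 1343225861) (nat_lit 2990540121) (.two (nat_lit 605028353) (nat_lit 1212156434) (.two (nat_lit 2097152) (nat_lit 13221499868) (.one (nat_lit 1057518) .nil))))),
   .two (nat_lit 620757007) (nat_lit 2994733122) (.two (nat_lit 47555018760) (nat_lit 4043310454) (.two (nat_lit 8388609) (nat_lit 285216314) (.two (nat_lit 8388608) (nat_lit 16783451) (.one (nat_lit 16785352) .nil)))),
   .two (nat_lit 11479810063) (nat_lit 183861511012) (.two (nat_lit 37748737) (nat_lit 3472886286) (.two (nat_lit 1048576) (nat_lit 3560971919) .nil)),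
   .two (nat_lit 11479810063) (nat_lit 1344274694) (.two (nat_lit 50331656) (nat_lit 10338960686) (.two (nat_lit 2097153) (nat_lit 4199979) (.two (nat_lit 4194304) (nat_lit 13237229616) (.one (nat_lit 2106095) .nil)))),
   .two (nat_lit 1745879055) (nat_lit 28693233729) (.two (nat_lit 184416206856) (nat_lit 156971828066) (.two (nat_lit 34603009) (nat_lit 1279266695) (.one (nat_lit 4202444) .nil))),
   .two (nat_lit 8388623) (nat_lit 4601151552) (.two (nat_lit 4605345800) (nat_lit 843056670) (.two (nat_lit 8388608) (nat_lit 12620665939) (.one (nat_lit 4203248) .nil))),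
   .two (nat_lit 218103823) (nat_lit 10907287662) (.two (nat_lit 159217877000) (nat_lit 1291846950) (.two (nat_lit 2097153) (nat_lit 2432703115) .nil)),
   .two (nat_lit 4601151503) (nat_lit 1753219939) (.two (nat_lit 4194305) (nat_lit 21214793180) (.two (nat_lit 8388608) (nat_lit 4200541) (.one (nat_lit 4203249) .nil))),
   .two (nat_lit 37748751) (nat_lit 1862271682) (.two (nat_lit 822083589) (nat_lit 1916798241) (.two (nat_lit 2097153) (nat_lit 184989781511) (.two (nat_lit 4194304) (nat_lit 16783454) (.one (nat_lit 16786162) .nil)))),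
   .two (nat_lit 9768534031) (nat_lit 1847591027) (.two (nat_lit 205520904) (nat_lit 28758246242) (.two (nat_lit 4194305) (nat_lit 13188991491) (.two (nat_lit 1048576) (nat_lit 840961939) (.one (nat_lit 2106099) .nil)))),
   .two (nat_lit 276824079) (nat_lit 2923430005) (.two (nat_lit 41943048) (nat_lit 235930221) (.two (nat_lit 713031685) (nat_lit 135267623) (.two (nat_lit 9768534017) (nat_lit 336599039) (.one (nat_lit 9802096234) .nil)))),
   .two (nat_lit 28086108175) (nat_lit 158647451714) (.two (nat_lit 174752530440) (nat_lit 174753579365) (.two (nat_lit 10939793413) (nat_lit 19094571052) (.two (nat_lit 605028353) (nat_lit 156466418702) (.one (nat_lit 2105293) .nil)))),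
   .two (nat_lit 20638072847) (nat_lit 166129041522) (.two (nat_lit 28690087944) (nat_lit 270533977) (.two (nat_lit 9765388289) (nat_lit 21812480525) (.two (nat_lit 1048576) (nat_lit 2104469) (.one (nat_lit 2106100) .nil)))),
   .two (nat_lit 16777231) (nat_lit 272629824) (.two (nat_lit 285212680) (nat_lit 13224642078) (.two (nat_lit 16777216) (nat_lit 183916041299) (.one (nat_lit 4203253) .nil))),
   .two (nat_lit 9768534031) (nat_lit 352322234) (.two (nat_lit 16777220) (nat_lit 9969861989) (.two (nat_lit 34603009) (nat_lit 19096669644) (.two (nat_lit 1048576) (nat_lit 16782460) (.one (nat_lit 1056718) .nil)))),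
   .two (nat_lit 813694991) (nat_lit 4601151552) (.two (nat_lit 13195280392) (nat_lit 18928895356) (.two (nat_lit 8388609) (nat_lit 773853562) (.two (nat_lit 8388608) (nat_lit 2103391) (.one (nat_lit 4203254) .nil)))),
   .two (nat_lit 46409973775) (nat_lit 1795162227) (.two (nat_lit 46409973768) (nat_lit 4613735460) (.two (nat_lit 9781116933) (nat_lit 185023334918) (.two (nat_lit 2097152) (nat_lit 158146236300) (.one (nat_lit 4203255) .nil)))),
   .two (nat_lit 4601151503) (nat_lit 47548727428) (.two (nat_lit 3525312520) (nat_lit 158179787112) (.two (nat_lit 183848927237) (nat_lit 2099301) (.two (nat_lit 4194305) (nat_lit 2101682) (.two (nat_lit 2097152) (nat_lit 4200544) (.one (nat_lit 843063966) .nil))))),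
   .two (nat_lit 11492392975) (nat_lit 11610882170) (.two (nat_lit 117440520) (nat_lit 4598006391) (.two (nat_lit 11492392964) (nat_lit 1376782378) (.two (nat_lit 50331649) (nat_lit 28790756415) (.one (nat_lit 1057528) .nil)))),
   .two (nat_lit 169869327) (nat_lit 11618222190) (.two (nat_lit 2961178632) (nat_lit 166230753890) (.two (nat_lit 183853121541) (nat_lit 235930950) (.two (nat_lit 34603009) (nat_lit 165526113780) (.two (nat_lit 8388608) (nat_lit 1054817) (.one (nat_lit 2894077563) .nil))))),
   .two (nat_lit 158144135183) (nat_lit 156532474488) (.two (nat_lit 1277165572) (nat_lit 165525063775) (.two (nat_lit 16777217) (nat_lit 47547683880) (.one (nat_lit 1057529) .nil))),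
   .two (nat_lit 9940500495) (nat_lit 1310720065) (.two (nat_lit 612368392) (nat_lit 20638073189) (.two (nat_lit 176160773) (nat_lit 874513774) (.two (nat_lit 8388609) (nat_lit 706743801) (.two (nat_lit 8388608) (nat_lit 2103395) (.one (nat_lit 8397562) .nil))))),
   .two (nat_lit 285212687) (nat_lit 873464071) (.two (nat_lit 822083592) (nat_lit 10537141608) (.two (nat_lit 50331649) (nat_lit 1053107) (.two (nat_lit 1048576) (nat_lit 16784534) (.one (nat_lit 157051527048) .nil)))),
   .two (nat_lit 4601151503) (nat_lit 9873391744) (.two (nat_lit 46414168072) (nat_lit 2923431454) (.two (nat_lit 8388608) (nat_lit 675288164) (.one (nat_lit 4203259) .nil))),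
   .two (nat_lit 11559501839) (nat_lit 135266420) (.two (nat_lit 21207449608) (nat_lit 4043309924) (.two (nat_lit 612368385) (nat_lit 34608092) (.one (nat_lit 1057533) .nil))),
   .two (nat_lit 37748751) (nat_lit 285213269) (.two (nat_lit 4194308) (nat_lit 16779366) (.two (nat_lit 2097153) (nat_lit 4197936) (.two (nat_lit 2097152) (nat_lit 4200487) (.one (nat_lit 4203262) .nil)))),
   .two (nat_lit 654311439) (nat_lit 236978242) (.two (nat_lit 165532401672) (nat_lit 21812478313) (.two (nat_lit 47548727301) (nat_lit 37262198079) (.two (nat_lit 2097153) (nat_lit 1358957075) (.two (nat_lit 8388608) (nat_lit 18926801983) (.one (nat_lit 102768131) .nil))))),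
   .two (nat_lit 169869327) (nat_lit 19130220661) (.two (nat_lit 742391816) (nat_lit 10335814277) (.two (nat_lit 13187940357) (nat_lit 183949591843) (.two (nat_lit 605028353) (nat_lit 156969735717) (.two (nat_lit 1048576) (nat_lit 13188995151) (.one (nat_lit 2106111) .nil))))),
   .two (nat_lit 9948889103) (nat_lit 10913579268) (.two (nat_lit 9948889096) (nat_lit 1049669) (.two (nat_lit 3525312517) (nat_lit 159250384168) (.two (nat_lit 2097153) (nat_lit 1052222) (.two (nat_lit 2097152) (nat_lit 8393853) (.one (nat_lit 8397568) .nil))))),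
   .two (nat_lit 620757007) (nat_lit 3557818489) (.two (nat_lit 156372041736) (nat_lit 3573548367) (.two (nat_lit 8388609) (nat_lit 21207455576) (.one (nat_lit 8397569) .nil))),
   .two (nat_lit 276824079) (nat_lit 165528207488) (.two (nat_lit 11479810056) (nat_lit 174692762232) (.two (nat_lit 11543773189) (nat_lit 156573369644) (.two (nat_lit 34603009) (nat_lit 184989783151) (.one (nat_lit 4203266) .nil)))),
   .two (nat_lit 8388623) (nat_lit 1795162249) (.two (nat_lit 101711880) (nat_lit 156976021867) (.two (nat_lit 1191182341) (nat_lit 880807336) (.two (nat_lit 16777216) (nat_lit 9806287881) (.one (nat_lit 8397571) .nil)))),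
   .two (nat_lit 272629775) (nat_lit 11559501889) (.two (nat_lit 11559501832) (nat_lit 10540286624) (.two (nat_lit 11492392965) (nat_lit 306185509) (.two (nat_lit 16777217) (nat_lit 46477086123) (.two (nat_lit 8388608) (nat_lit 184419357772) (.one (nat_lit 4203268) .nil))))),
   .two (nat_lit 4601151503) (nat_lit 2886729992) (.two (nat_lit 2969567240) (nat_lit 12114199238) (.two (nat_lit 754974725) (nat_lit 158649550137) (.two (nat_lit 620756993) (nat_lit 19029560829) (.two (nat_lit 2097152) (nat_lit 4201623) (.one (nat_lit 3573555918) .nil))))),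
   .two (nat_lit 184549391) (nat_lit 47555018818) (.two (nat_lit 47555018760) (nat_lit 184550243) (.two (nat_lit 8388609) (nat_lit 12633246219) (.two (nat_lit 8388608) (nat_lit 16782462) (.one (nat_lit 16786181) .nil)))),
   .two (nat_lit 117440527) (nat_lit 156539814549) (.two (nat_lit 184549381) (nat_lit 19134416182) (.two (nat_lit 37748737) (nat_lit 620763021) (.one (nat_lit 16785367) .nil))),
   .two (nat_lit 11543773199) (nat_lit 10907287689) (.two (nat_lit 21811429388) (nat_lit 166230753946) (.two (nat_lit 41943045) (nat_lit 2418019802) (.two (nat_lit 8388608) (nat_lit 158144140278) (.one (nat_lit 706748849) .nil)))),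
   .two (nat_lit 654311439) (nat_lit 183848927299) (.two (nat_lit 4601151496) (nat_lit 9881781542) (.two (nat_lit 4194305) (nat_lit 19545461826) (.one (nat_lit 16786182) .nil))),
   .two (nat_lit 1358954511) (nat_lit 10942939261) (.two (nat_lit 50331656) (nat_lit 46477082819) (.two (nat_lit 16777220) (nat_lit 20640171335) (.two (nat_lit 9768534017) (nat_lit 2920287793) (.two (nat_lit 4194304) (nat_lit 1055896) (.one (nat_lit 12114206469) .nil))))),
   .two (nat_lit 37748751) (nat_lit 880804507) (.two (nat_lit 4194308) (nat_lit 156372043087) (.two (nat_lit 4194305) (nat_lit 10376714169) (.one (nat_lit 8397575) .nil))),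
   .two (nat_lit 285212687) (nat_lit 37748870) (.two (nat_lit 156367847432) (nat_lit 158192371017) (.two (nat_lit 4194305) (nat_lit 28101841902) (.one (nat_lit 16785372) .nil))),
   .two (nat_lit 4601151503) (nat_lit 158083318367) (.two (nat_lit 13191086085) (nat_lit 10343156630) (.two (nat_lit 156372041729) (nat_lit 156535623091) (.two (nat_lit 4194304) (nat_lit 8395929) (.one (nat_lit 8397576) .nil)))),
   .two (nat_lit 176160783) (nat_lit 4631560454) (.two (nat_lit 343932940) (nat_lit 20740833898) (.two (nat_lit 4605345797) (nat_lit 158649550134) (.two (nat_lit 156364701697) (nat_lit 185027531841) (.one (nat_lit 8397577) .nil)))),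
   .two (nat_lit 4601151503) (nat_lit 47555018865) (.two (nat_lit 46414168072) (nat_lit 306185757) (.two (nat_lit 8388608) (nat_lit 11546922897) (.one (nat_lit 4202461) .nil))),
   .two (nat_lit 176160783) (nat_lit 10369368190) (.two (nat_lit 9940500488) (nat_lit 102760809) (.two (nat_lit 2889875460) (nat_lit 2350908794) (.two (nat_lit 4194305) (nat_lit 19128126948) (.two (nat_lit 2097152) (nat_lit 8395930) (.one (nat_lit 2106122) .nil))))),
   .two (nat_lit 285212687) (nat_lit 742393180) (.two (nat_lit 16777217) (nat_lit 4601154058) (.two (nat_lit 4194304) (nat_lit 16784539) (.one (nat_lit 183949598391) .nil))),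
   .two (nat_lit 3464495119) (nat_lit 1344274684) (.two (nat_lit 203423752) (nat_lit 165532403230) (.two (nat_lit 2097152) (nat_lit 10343157636) (.one (nat_lit 310387215) .nil))),
   .two (nat_lit 47555018767) (nat_lit 158144135293) (.two (nat_lit 2988441612) (nat_lit 11618222750) (.two (nat_lit 2954887173) (nat_lit 8390760) (.two (nat_lit 9768534017) (nat_lit 158177694815) (.one (nat_lit 2106123) .nil)))),
   .two (nat_lit 159224168463) (nat_lit 159251431782) (.two (nat_lit 158150426629) (nat_lit 159251433547) (.two (nat_lit 9766436865) (nat_lit 8393140) (.two (nat_lit 4194304) (nat_lit 156365754247) (.one (nat_lit 2106124) .nil)))),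
   .two (nat_lit 2902458408) (nat_lit 9967763707) (.two (nat_lit 20638072845) (nat_lit 9781117286) (.two (nat_lit 69206021) (nat_lit 16778082) (.two (nat_lit 2097153) (nat_lit 11022634903) (.one (nat_lit 2106125) .nil)))),
   .two (nat_lit 1178599439) (nat_lit 1048695) (.two (nat_lit 1916796936) (nat_lit 183912891020) (.two (nat_lit 11479810052) (nat_lit 46473938243) (.two (nat_lit 37748737) (nat_lit 1309676599) (.one (nat_lit 8397582) .nil)))),
   .two (nat_lit 1358954511) (nat_lit 156465366086) (.two (nat_lit 638582789) (nat_lit 721421854) (.two (nat_lit 8388608) (nat_lit 21223183396) (.one (nat_lit 16786191) .nil))),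
   .two (nat_lit 166132187151) (nat_lit 10940842094) (.two (nat_lit 19530776584) (nat_lit 166132188002) (.two (nat_lit 606076929) (nat_lit 1413483011) (.two (nat_lit 2097152) (nat_lit 4199551) (.one (nat_lit 4203280) .nil)))),
   .two (nat_lit 4194319) (nat_lit 1210056821) (.two (nat_lit 4194312) (nat_lit 46407877264) (.two (nat_lit 218103813) (nat_lit 166129042781) (.two (nat_lit 620756993) (nat_lit 9902755305) (.two (nat_lit 2097152) (nat_lit 1054825) (.one (nat_lit 336599793) .nil))))),
   .two (nat_lit 742391823) (nat_lit 772801932) (.two (nat_lit 606076929) (nat_lit 1053109) (.two (nat_lit 1048576) (nat_lit 2104477) (.one (nat_lit 2106129) .nil))),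
   .two (nat_lit 9866051599) (nat_lit 158179786876) (.two (nat_lit 1779433480) (nat_lit 4195399) (.two (nat_lit 159217876997) (nat_lit 4196447) (.two (nat_lit 606076929) (nat_lit 1413484922) (.two (nat_lit 2097152) (nat_lit 10503591793) (.one (nat_lit 1056735) .nil))))),
   .two (nat_lit 8388623) (nat_lit 183848928098) (.two (nat_lit 8388609) (nat_lit 1849692039) (.one (nat_lit 4203282) .nil)),
   .two (nat_lit 639631375) (nat_lit 12114199146) (.two (nat_lit 184549381) (nat_lit 4027581766) (.two (nat_lit 50331649) (nat_lit 28691139085) (.two (nat_lit 16777216) (nat_lit 2103403) (.one (nat_lit 2106131) .nil)))),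
   .two (nat_lit 47596961816) (nat_lit 880803952) (.two (nat_lit 47563407368) (nat_lit 10947136004) (.two (nat_lit 16777216) (nat_lit 28764542038) (.one (nat_lit 1057556) .nil))),
   .two (nat_lit 46414168079) (nat_lit 2954887435) (.two (nat_lit 159217877000) (nat_lit 156372043293) (.two (nat_lit 2097152) (nat_lit 3565162385) (.one (nat_lit 2106133) .nil))),
   .two (nat_lit 11492392975) (nat_lit 166230753416) (.two (nat_lit 705691656) (nat_lit 19142803813) (.two (nat_lit 705691652) (nat_lit 28691137379) (.two (nat_lit 605028353) (nat_lit 639633966) (.two (nat_lit 2097152) (nat_lit 1054828) (.one (nat_lit 1057558) .nil))))),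
   .two (nat_lit 11479810063) (nat_lit 183920230536) (.two (nat_lit 843055116) (nat_lit 3531604625) (.two (nat_lit 2902458372) (nat_lit 159219978131) (.one (nat_lit 4203102) .nil))),
   .two (nat_lit 2889875471) (nat_lit 11593056381) (.two (nat_lit 13195280392) (nat_lit 19599983258) (.two (nat_lit 117440517) (nat_lit 20640171334) (.two (nat_lit 620756993) (nat_lit 239077901) (.two (nat_lit 16777216) (nat_lit 1782585451) (.one (nat_lit 4203287) .nil))))),
   .two (nat_lit 46414168079) (nat_lit 184986632258) (.two (nat_lit 10343153672) (nat_lit 9866052942) (.two (nat_lit 156372041729) (nat_lit 46473940447) (.two (nat_lit 8388608) (nat_lit 1054781) (.one (nat_lit 166129049167) .nil)))),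
   .two (nat_lit 41943055) (nat_lit 754975366) (.two (nat_lit 102760453) (nat_lit 3020948854) (.two (nat_lit 606076929) (nat_lit 12633246238) (.two (nat_lit 1048576) (nat_lit 2102401) (.one (nat_lit 19094577589) .nil)))),
   .two (nat_lit 1343225871) (nat_lit 158083317826) (.two (nat_lit 184986632200) (nat_lit 158083318626) (.two (nat_lit 34603009) (nat_lit 166136385415) (.one (nat_lit 8396769) .nil))),
   .two (nat_lit 8388623) (nat_lit 11010048109) (.two (nat_lit 4605345800) (nat_lit 11010048195) (.two (nat_lit 8388612) (nat_lit 158179788094) (.two (nat_lit 620756993) (nat_lit 2420116923) (.two (nat_lit 16777216) (nat_lit 2319455273) (.one (nat_lit 8397592) .nil))))),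
   .two (nat_lit 9768534031) (nat_lit 2097271) (.two (nat_lit 3527409672) (nat_lit 4599055204) (.two (nat_lit 4194305) (nat_lit 1746930190) (.two (nat_lit 16777216) (nat_lit 2418022326) (.one (nat_lit 4203291) .nil)))),
   .two (nat_lit 4613734415) (nat_lit 1317011522) (.two (nat_lit 20644364296) (nat_lit 50332297) (.two (nat_lit 183845781508) (nat_lit 9906947404) (.two (nat_lit 34603009) (nat_lit 1350571861) (.one (nat_lit 8397596) .nil)))),
   .two (nat_lit 2969567247) (nat_lit 1309671543) (.two (nat_lit 9948889096) (nat_lit 28790751872) (.two (nat_lit 184549380) (nat_lit 1376782378) (.two (nat_lit 620756993) (nat_lit 174685425204) (.two (nat_lit 16777216) (nat_lit 1376786533) (.one (nat_lit 788535895) .nil))))),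
   .two (nat_lit 9781116943) (nat_lit 34603144) (.two (nat_lit 12047089677) (nat_lit 83886746) (.two (nat_lit 34603013) (nat_lit 822086193) (.two (nat_lit 2097152) (nat_lit 11559506934) (.one (nat_lit 16786205) .nil)))),
   .two (nat_lit 4601151503) (nat_lit 780140666) (.two (nat_lit 46414168072) (nat_lit 843056464) (.two (nat_lit 37748737) (nat_lit 37313580527) (.two (nat_lit 8388608) (nat_lit 9866058448) .nil))),
   .two (nat_lit 41943055) (nat_lit 13187940489) (.two (nat_lit 2961178632) (nat_lit 47582282333) (.two (nat_lit 3458203653) (nat_lit 19100861746) (.two (nat_lit 41943041) (nat_lit 20637027800) (.two (nat_lit 1048576) (nat_lit 8394864) (.one (nat_lit 1056742) .nil))))),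
   .two (nat_lit 654311439) (nat_lit 2889876874) (.two (nat_lit 16777217) (nat_lit 2420117397) (.one (nat_lit 4202471) .nil)),
   .two (nat_lit 713031695) (nat_lit 19532873795) (.two (nat_lit 3527409672) (nat_lit 12054430053) (.two (nat_lit 2889875460) (nat_lit 158150428722) (.two (nat_lit 4194305) (nat_lit 156372044314) (.two (nat_lit 2097152) (nat_lit 876614685) (.one (nat_lit 4202472) .nil))))),
   .two (nat_lit 158083317775) (nat_lit 166196150339) (.two (nat_lit 10939793416) (nat_lit 13228836153) (.two (nat_lit 9765388289) (nat_lit 37320920575) (.two (nat_lit 1048576) (nat_lit 157043136328) (.one (nat_lit 4631567012) .nil)))),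
   .two (nat_lit 28690087951) (nat_lit 21812479335) (.two (nat_lit 9765388289) (nat_lit 169874541) (.one (nat_lit 2106143) .nil)),
   .two (nat_lit 276824079) (nat_lit 46409973826) (.two (nat_lit 4605345800) (nat_lit 46409974117) (.two (nat_lit 13195280389) (nat_lit 9869198710) (.two (nat_lit 41943041) (nat_lit 158079127098) (.two (nat_lit 8388608) (nat_lit 4200562) (.one (nat_lit 4203296) .nil))))),
   .two (nat_lit 158177689624) (nat_lit 4601151604) (.two (nat_lit 10338959368) (nat_lit 773850149) (.two (nat_lit 10370416645) (nat_lit 1279264114) (.two (nat_lit 2097153) (nat_lit 4197954) (.two (nat_lit 16777216) (nat_lit 28691144366) .nil)))),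
   .two (nat_lit 8388623) (nat_lit 158647451762) (.two (nat_lit 3464495112) (nat_lit 9934209656) (.two (nat_lit 184989777925) (nat_lit 13195281695) (.two (nat_lit 8388609) (nat_lit 69209610) (.two (nat_lit 4194304) (nat_lit 2102403) (.one (nat_lit 2106145) .nil))))),
   .two (nat_lit 18933088271) (nat_lit 10537140360) (.two (nat_lit 4194312) (nat_lit 183853123102) (.two (nat_lit 4194304) (nat_lit 4605351002) (.one (nat_lit 1057570) .nil))),
   .two (nat_lit 16777231) (nat_lit 46507491449) (.two (nat_lit 10343153672) (nat_lit 159250383209) (.two (nat_lit 11543773189) (nat_lit 11593057582) (.two (nat_lit 8388609) (nat_lit 9933164961) (.two (nat_lit 8388608) (nat_lit 1054836) (.one (nat_lit 1056296) .nil))))),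
   .two (nat_lit 176160783) (nat_lit 21208498284) (.two (nat_lit 176160776) (nat_lit 166230753882) (.two (nat_lit 176160772) (nat_lit 10538190113) (.two (nat_lit 8388609) (nat_lit 1411387826) (.two (nat_lit 8388608) (nat_lit 2103413) (.one (nat_lit 2106147) .nil))))),
   .two (nat_lit 1343225871) (nat_lit 158077027660) (.two (nat_lit 34603009) (nat_lit 9799994842) (.two (nat_lit 1048576) (nat_lit 2317358139) (.one (nat_lit 166229711464) .nil))),
   .two (nat_lit 11559501839) (nat_lit 28764538160) (.two (nat_lit 50331649) (nat_lit 47555023940) (.one (nat_lit 8397604) .nil)),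
   .two (nat_lit 10370416655) (nat_lit 166199296132) (.two (nat_lit 205520904) (nat_lit 1914700408) (.two (nat_lit 2956984325) (nat_lit 2350909488) (.two (nat_lit 50331649) (nat_lit 4599057893) (.two (nat_lit 1048576) (nat_lit 876613535) (.one (nat_lit 2105327) .nil))))),
   .two (nat_lit 166132187151) (nat_lit 185020186749) (.two (nat_lit 28693233672) (nat_lit 10436477286) (.two (nat_lit 1916796933) (nat_lit 168822867) (.two (nat_lit 9768534017) (nat_lit 156465368566) (.two (nat_lit 1048576) (nat_lit 641734699) (.one (nat_lit 1056753) .nil))))),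
   .two (nat_lit 754974735) (nat_lit 806355304) (.two (nat_lit 209715205) (nat_lit 10452207662) (.two (nat_lit 34603009) (nat_lit 276830084) (.one (nat_lit 8397605) .nil))),
   .two (nat_lit 46409973775) (nat_lit 3464495462) (.two (nat_lit 10343153669) (nat_lit 11546920310) (.two (nat_lit 612368385) (nat_lit 4199980) (.two (nat_lit 8388608) (nat_lit 205527122) (.one (nat_lit 37253815895) .nil)))),
   .two (nat_lit 166132187151) (nat_lit 28758245571) (.two (nat_lit 10504634373) (nat_lit 1312819261) (.two (nat_lit 606076929) (nat_lit 2353008117) (.two (nat_lit 1048576) (nat_lit 13188992904) (.one (nat_lit 2105331) .nil)))),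
   .two (nat_lit 9781116943) (nat_lit 303038591) (.two (nat_lit 9866051592) (nat_lit 1862271604) (.two (nat_lit 117440517) (nat_lit 11577328997) (.two (nat_lit 41943041) (nat_lit 20753422321) (.one (nat_lit 8396788) .nil)))),
   .two (nat_lit 75497487) (nat_lit 117440869) (.two (nat_lit 11559501829) (nat_lit 46481278326) (.two (nat_lit 41943041) (nat_lit 9948892644) (.two (nat_lit 8388608) (nat_lit 151000906) (.one (nat_lit 16786214) .nil)))),
   .two (nat_lit 75497487) (nat_lit 117441873) (.two (nat_lit 16777217) (nat_lit 183853125058) (.two (nat_lit 2097152) (nat_lit 37329311750) (.one (nat_lit 8397607) .nil))),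
   .two (nat_lit 75497487) (nat_lit 47548727360) (.two (nat_lit 10007609357) (nat_lit 9967763651) (.two (nat_lit 612368389) (nat_lit 2418017587) (.two (nat_lit 41943041) (nat_lit 4028635097) (.one (nat_lit 2105333) .nil)))),
   .two (nat_lit 184549391) (nat_lit 19027460204) (.two (nat_lit 184549384) (nat_lit 21812478597) (.two (nat_lit 184549380) (nat_lit 706741586) (.two (nat_lit 9766436865) (nat_lit 28806482442) (.two (nat_lit 16777216) (nat_lit 1847598235) (.one (nat_lit 9915341503) .nil))))),
   .two (nat_lit 713031695) (nat_lit 166199296359) (.two (nat_lit 41943045) (nat_lit 4196460) (.two (nat_lit 50331649) (nat_lit 37253814891) .nil)),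
   .two (nat_lit 612368399) (nat_lit 20637024934) (.two (nat_lit 176160772) (nat_lit 2920287115) (.two (nat_lit 41943041) (nat_lit 69211975) (.one (nat_lit 2105337) .nil))),
   .two (nat_lit 2969567247) (nat_lit 337641591) (.two (nat_lit 28691136520) (nat_lit 12129928531) (.two (nat_lit 2097153) (nat_lit 183861512739) (.two (nat_lit 2097152) (nat_lit 156380435522) (.one (nat_lit 2106152) .nil)))),
   .two (nat_lit 654311439) (nat_lit 20704133245) (.two (nat_lit 739246088) (nat_lit 1358955809) (.two (nat_lit 9765388289) (nat_lit 16781751) (.two (nat_lit 1048576) (nat_lit 16784546) (.one (nat_lit 1057577) .nil)))),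
   .two (nat_lit 654311439) (nat_lit 673185907) (.two (nat_lit 10385096712) (nat_lit 20638073895) (.two (nat_lit 9934209029) (nat_lit 2902459934) (.two (nat_lit 4194304) (nat_lit 10452210724) (.one (nat_lit 4203306) .nil)))),
   .two (nat_lit 159224168463) (nat_lit 3557818632) (.two (nat_lit 1175453704) (nat_lit 37249614506) (.two (nat_lit 158144135173) (nat_lit 46980400462) (.two (nat_lit 2097153) (nat_lit 1376783815) (.two (nat_lit 2097152) (nat_lit 1054842) (.one (nat_lit 1057579) .nil))))),
   .two (nat_lit 1350565903) (nat_lit 2969567347) (.two (nat_lit 12117344264) (nat_lit 183928620068) (.two (nat_lit 285212677) (nat_lit 11479811404) (.two (nat_lit 16777217) (nat_lit 12117347752) (.two (nat_lit 16777216) (nat_lit 742397800) (.one (nat_lit 4203308) .nil))))),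
   .two (nat_lit 8388623) (nat_lit 9781117065) (.two (nat_lit 4634705932) (nat_lit 9806282947) (.two (nat_lit 4601151493) (nat_lit 4605347357) (.two (nat_lit 4194304) (nat_lit 21818776194) .nil))),
   .two (nat_lit 16777231) (nat_lit 158176641145) (.two (nat_lit 117440520) (nat_lit 4598006120) (.two (nat_lit 806354949) (nat_lit 9948890401) (.two (nat_lit 2097153) (nat_lit 10000272842) (.two (nat_lit 2097152) (nat_lit 11543779309) (.one (nat_lit 1057581) .nil))))),
   .two (nat_lit 28086108175) (nat_lit 1786774581) (.two (nat_lit 1745879045) (nat_lit 813697078) (.two (nat_lit 605028353) (nat_lit 9867105375) (.one (nat_lit 35659548) .nil))),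
   .two (nat_lit 9934209039) (nat_lit 285213318) (.two (nat_lit 1191182341) (nat_lit 11010049402) (.two (nat_lit 2097153) (nat_lit 4197955) (.two (nat_lit 4194304) (nat_lit 21777880113) (.one (nat_lit 1057582) .nil)))),
   .two (nat_lit 47555018767) (nat_lit 11007951043) (.two (nat_lit 176160772) (nat_lit 46978303312) (.two (nat_lit 2097153) (nat_lit 3028291922) (.two (nat_lit 8388608) (nat_lit 174686476375) (.one (nat_lit 2106159) .nil)))),
   .two (nat_lit 16777231) (nat_lit 28691136629) (.two (nat_lit 218103816) (nat_lit 19530777224) (.two (nat_lit 713031684) (nat_lit 1209008994) (.two (nat_lit 34603009) (nat_lit 47582284295) (.two (nat_lit 8388608) (nat_lit 20737691533) (.one (nat_lit 3557826275) .nil))))),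
   .two (nat_lit 654311439) (nat_lit 11543773251) (.two (nat_lit 10385096717) (nat_lit 28690088299) (.two (nat_lit 1191182341) (nat_lit 2416969757) (.two (nat_lit 16777217) (nat_lit 1052228) (.two (nat_lit 16777216) (nat_lit 1054845) (.one (nat_lit 1057585) .nil))))),
   .two (nat_lit 2889875471) (nat_lit 46978302309) (.two (nat_lit 272629765) (nat_lit 1948255545) (.two (nat_lit 9768534017) (nat_lit 135269873) (.two (nat_lit 2097152) (nat_lit 2353008519) (.one (nat_lit 4203314) .nil)))),
   .two (nat_lit 41943055) (nat_lit 4601151683) (.two (nat_lit 209715205) (nat_lit 156971830775) (.two (nat_lit 1048576) (nat_lit 8394878) (.one (nat_lit 20737694416) .nil))),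
   .two (nat_lit 21785214991) (nat_lit 156581758281) (.two (nat_lit 41943041) (nat_lit 3472890546) .nil),
   .two (nat_lit 721420303) (nat_lit 20704133185) (.two (nat_lit 158143086600) (nat_lit 11559502181) (.two (nat_lit 9866051589) (nat_lit 3539994686) (.two (nat_lit 34603009) (nat_lit 158158818822) (.two (nat_lit 1048576) (nat_lit 16783487) (.one (nat_lit 16786227) .nil))))),
   .two (nat_lit 620757007) (nat_lit 4028629057) (.two (nat_lit 620757000) (nat_lit 1780482409) (.two (nat_lit 169869316) (nat_lit 47563409495) (.two (nat_lit 2097153) (nat_lit 158158817807) (.two (nat_lit 2097152) (nat_lit 16783488) (.one (nat_lit 740301406) .nil))))),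
   .two (nat_lit 1291845647) (nat_lit 673185904) (.two (nat_lit 10336862216) (nat_lit 10955523419) (.two (nat_lit 2097153) (nat_lit 46422561803) (.one (nat_lit 16785404) .nil))),
   .two (nat_lit 50331663) (nat_lit 184417255551) (.two (nat_lit 285212680) (nat_lit 4632611342) (.two (nat_lit 1048576) (nat_lit 270536593) (.one (nat_lit 2105341) .nil))),
   .two (nat_lit 620757007) (nat_lit 183853121602) (.two (nat_lit 83886088) (nat_lit 47588573545) (.two (nat_lit 13195280389) (nat_lit 11559503136) (.two (nat_lit 605028353) (nat_lit 645927965) (.one (nat_lit 8397621) .nil)))),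
   .two (nat_lit 12054429711) (nat_lit 156465365108) (.two (nat_lit 739246088) (nat_lit 156573370905) (.two (nat_lit 1048576) (nat_lit 679484123) .nil)),
   .two (nat_lit 1277165583) (nat_lit 158143086787) (.two (nat_lit 9934209029) (nat_lit 166196151632) (.two (nat_lit 9766436865) (nat_lit 638585360) (.two (nat_lit 2097152) (nat_lit 157038944058) .nil))),
   .two (nat_lit 9940500495) (nat_lit 2316304500) (.two (nat_lit 612368392) (nat_lit 47547679399) (.two (nat_lit 11479810052) (nat_lit 9899607333) (.two (nat_lit 37748737) (nat_lit 847255617) (.one (nat_lit 1317019340) .nil)))),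
   .two (nat_lit 2969567247) (nat_lit 1847591020) (.two (nat_lit 639631368) (nat_lit 10385098013) (.two (nat_lit 2097153) (nat_lit 46489669172) (.two (nat_lit 2097152) (nat_lit 16784548) (.one (nat_lit 9867108798) .nil)))),
   .two (nat_lit 2889875471) (nat_lit 46407876870) (.two (nat_lit 3527409672) (nat_lit 166230753637) (.two (nat_lit 639631365) (nat_lit 4196461) (.two (nat_lit 606076929) (nat_lit 1749029288) (.two (nat_lit 2097152) (nat_lit 1413486582) (.one (nat_lit 3525320552) .nil))))),
   .two (nat_lit 184993972239) (nat_lit 19093520497) (.two (nat_lit 184993972232) (nat_lit 37313577595) (.two (nat_lit 174752530437) (nat_lit 10947136040) (.two (nat_lit 1048576) (nat_lit 19033755534) (.one (nat_lit 8397622) .nil)))),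
   .two (nat_lit 183848927247) (nat_lit 19530776692) (.two (nat_lit 18928893960) (nat_lit 19027460771) (.two (nat_lit 13191086085) (nat_lit 11544823905) (.two (nat_lit 34603009) (nat_lit 10001321494) (.two (nat_lit 1048576) (nat_lit 2105034) .nil)))),
   .two (nat_lit 4613734415) (nat_lit 20738736240) (.two (nat_lit 50331656) (nat_lit 840958633) (.two (nat_lit 16777221) (nat_lit 166130091379) (.two (nat_lit 156372041729) (nat_lit 166229708259) (.two (nat_lit 8388608) (nat_lit 1054850) (.one (nat_lit 1056769) .nil))))),
   .two (nat_lit 9940500495) (nat_lit 11610882185) (.two (nat_lit 47555018760) (nat_lit 184987682874) (.two (nat_lit 2097153) (nat_lit 157043133869) (.two (nat_lit 2097152) (nat_lit 8395943) (.one (nat_lit 8397624) .nil)))),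
   .two (nat_lit 11479810063) (nat_lit 3525312627) (.two (nat_lit 11479810056) (nat_lit 3558868019) (.two (nat_lit 28690087941) (nat_lit 156969731450) (.two (nat_lit 9768534017) (nat_lit 184986637335) (.one (nat_lit 1056770) .nil)))),
   .two (nat_lit 9781116943) (nat_lit 21778923633) (.two (nat_lit 37748744) (nat_lit 2902459685) (.two (nat_lit 606076929) (nat_lit 12620666945) (.one (nat_lit 2106169) .nil))),
   .two (nat_lit 19532873743) (nat_lit 721420933) (.two (nat_lit 166132187140) (nat_lit 9915336049) (.two (nat_lit 9768534017) (nat_lit 18941481967) (.one (nat_lit 16786234) .nil))),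
   .two (nat_lit 12054429711) (nat_lit 183912890563) (.two (nat_lit 705691652) (nat_lit 2961181199) (.two (nat_lit 1048576) (nat_lit 8394883) (.one (nat_lit 11577334406) .nil))),
   .two (nat_lit 50331663) (nat_lit 2316304505) (.two (nat_lit 174753579020) (nat_lit 166129042100) (.two (nat_lit 165526110213) (nat_lit 1050736) (.two (nat_lit 156365750273) (nat_lit 184986635803) (.two (nat_lit 16777216) (nat_lit 3020955309) .nil)))),
   .two (nat_lit 10343153679) (nat_lit 46978302018) (.two (nat_lit 10336862216) (nat_lit 9772728951) (.two (nat_lit 46407876612) (nat_lit 13228836920) (.two (nat_lit 2097153) (nat_lit 165532406847) (.one (nat_lit 8397628) .nil)))),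
   .two (nat_lit 754974735) (nat_lit 4030726210) (.two (nat_lit 46980399112) (nat_lit 9814672002) (.two (nat_lit 11492392965) (nat_lit 21814576477) (.two (nat_lit 4194305) (nat_lit 1795163678) (.two (nat_lit 2097152) (nat_lit 10439628854) (.one (nat_lit 4202500) .nil))))),
   .two (nat_lit 11492392975) (nat_lit 1212153967) (.two (nat_lit 11492392968) (nat_lit 4195403) (.two (nat_lit 809500677) (nat_lit 16778538) (.two (nat_lit 37748737) (nat_lit 1426066867) (.two (nat_lit 4194304) (nat_lit 9781123182) (.one (nat_lit 4202501) .nil))))),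
   .two (nat_lit 1291845647) (nat_lit 9902752104) (.two (nat_lit 9948889093) (nat_lit 11546921025) (.two (nat_lit 9781116929) (nat_lit 20640173621) (.two (nat_lit 16777216) (nat_lit 4200582) (.one (nat_lit 4202502) .nil)))),
   .two (nat_lit 11479810063) (nat_lit 1358954563) (.two (nat_lit 1795162120) (nat_lit 47584379748) (.two (nat_lit 620756993) (nat_lit 165528211345) (.one (nat_lit 11546925748) .nil))),
   .two (nat_lit 1779433487) (nat_lit 12117344366) (.two (nat_lit 28693233672) (nat_lit 1846542699) (.two (nat_lit 101711877) (nat_lit 12620662844) (.two (nat_lit 605028353) (nat_lit 4198844) (.two (nat_lit 1048576) (nat_lit 4200583) (.one (nat_lit 10000276115) .nil))))),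
   .two (nat_lit 9934209039) (nat_lit 47584379017) (.two (nat_lit 184419352584) (nat_lit 174752531092) (.two (nat_lit 806354949) (nat_lit 3024094550) (.two (nat_lit 156367847425) (nat_lit 1948258719) (.two (nat_lit 2097152) (nat_lit 1782585354) (.one (nat_lit 2106173) .nil))))),
   .two (nat_lit 612368399) (nat_lit 2902458481) (.two (nat_lit 16777224) (nat_lit 159224171010) (.two (nat_lit 16777216) (nat_lit 9772733414) (.one (nat_lit 8396808) .nil))),
   .two (nat_lit 159224168463) (nat_lit 2416967817) (.two (nat_lit 10506731528) (nat_lit 47581233794) (.two (nat_lit 10372513797) (nat_lit 37246468963) (.two (nat_lit 8388609) (nat_lit 11610886498) (.two (nat_lit 4194304) (nat_lit 8394890) (.one (nat_lit 8397630) .nil))))),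
   .two (nat_lit 46409973775) (nat_lit 4028629057) (.two (nat_lit 4601151496) (nat_lit 158077026998) (.two (nat_lit 272629765) (nat_lit 4632610926) (.two (nat_lit 4194305) (nat_lit 9867102735) (.two (nat_lit 2097152) (nat_lit 2990544716) (.one (nat_lit 20705188532) .nil))))),
   .two (nat_lit 1779433487) (nat_lit 10003415167) (.two (nat_lit 28690087944) (nat_lit 37316724080) (.two (nat_lit 16777217) (nat_lit 4197959) (.two (nat_lit 16777216) (nat_lit 1054859) (.one (nat_lit 1057599) .nil)))),
   .two (nat_lit 2887778319) (nat_lit 156468512073) (.two (nat_lit 9765388289) (nat_lit 3458209730) (.one (nat_lit 303047101) .nil)),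
   .two (nat_lit 2969567247) (nat_lit 2418016388) (.two (nat_lit 157036838920) (nat_lit 1929380202) (.two (nat_lit 2097157) (nat_lit 20652755491) (.two (nat_lit 1048576) (nat_lit 1426068489) (.one (nat_lit 1057600) .nil)))),
   .two (nat_lit 1191182351) (nat_lit 2988441665) (.two (nat_lit 1291845640) (nat_lit 673185987) (.two (nat_lit 169869316) (nat_lit 10921968978) (.two (nat_lit 2097153) (nat_lit 2969570886) (.two (nat_lit 2097152) (nat_lit 16784554) (.one (nat_lit 1377835711) .nil))))),
   .two (nat_lit 654311439) (nat_lit 166130090104) (.two (nat_lit 10336862216) (nat_lit 1291845990) (.two (nat_lit 20638072837) (nat_lit 9948890401) (.two (nat_lit 2097153) (nat_lit 620761480) (.two (nat_lit 2097152) (nat_lit 16783501) (.one (nat_lit 16786241) .nil))))),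
   .two (nat_lit 21777874959) (nat_lit 46474985596) (.two (nat_lit 158144135176) (nat_lit 1376780483) (.two (nat_lit 1277165572) (nat_lit 1175455037) (.two (nat_lit 34603009) (nat_lit 28087160309) (.two (nat_lit 1048576) (nat_lit 2104491) (.one (nat_lit 9765396467) .nil))))),
   .two (nat_lit 9940500495) (nat_lit 3525312576) (.two (nat_lit 3527409672) (nat_lit 10504635933) (.two (nat_lit 4194304) (nat_lit 20638076837) (.one (nat_lit 2106178) .nil))),
   .two (nat_lit 75497487) (nat_lit 1291846949) (.two (nat_lit 16777217) (nat_lit 19134417411) (.two (nat_lit 16777216) (nat_lit 19604180895) (.one (nat_lit 8397296) .nil))),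
   .two (nat_lit 16777231) (nat_lit 3020947578) (.two (nat_lit 16777224) (nat_lit 11618222755) (.two (nat_lit 16777220) (nat_lit 156532475998) (.two (nat_lit 50331649) (nat_lit 184423550867) (.one (nat_lit 8396813) .nil)))),
   .two (nat_lit 612368399) (nat_lit 9802088643) (.two (nat_lit 176160772) (nat_lit 19130221908) (.two (nat_lit 8388609) (nat_lit 157038941188) (.one (nat_lit 4203331) .nil))),
   .two (nat_lit 713031695) (nat_lit 1846542402) (.two (nat_lit 1178599432) (nat_lit 3524265349) (.two (nat_lit 37748737) (nat_lit 235933242) (.two (nat_lit 4194304) (nat_lit 13187946378) (.one (nat_lit 1057604) .nil)))),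
   .two (nat_lit 8388623) (nat_lit 4599054473) (.two (nat_lit 183845781512) (nat_lit 880804035) (.two (nat_lit 3458203653) (nat_lit 3457155940) (.two (nat_lit 8388609) (nat_lit 158077029848) (.two (nat_lit 8388608) (nat_lit 2103439) (.one (nat_lit 1277173393) .nil))))),
   .two (nat_lit 612368399) (nat_lit 10000269449) (.two (nat_lit 12050235400) (nat_lit 2424309061) (.two (nat_lit 156364701697) (nat_lit 46984595982) (.two (nat_lit 2097152) (nat_lit 156968685447) (.one (nat_lit 8397637) .nil)))),
   .two (nat_lit 41943055) (nat_lit 10003415166) (.two (nat_lit 809500680) (nat_lit 3565159739) (.two (nat_lit 4194305) (nat_lit 2424312891) (.one (nat_lit 4203334) .nil))),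
   .two (nat_lit 13203669007) (nat_lit 608174199) (.two (nat_lit 46978301960) (nat_lit 4194663) (.two (nat_lit 3525312517) (nat_lit 12121540659) (.two (nat_lit 2097153) (nat_lit 205524397) (.two (nat_lit 2097152) (nat_lit 12150904650) (.one (nat_lit 1216357130) .nil))))),
   .two (nat_lit 713031695) (nat_lit 20737687914) (.two (nat_lit 41943045) (nat_lit 10939794797) (.two (nat_lit 41943041) (nat_lit 46507496418) (.one (nat_lit 1056784) .nil))),
   .two (nat_lit 1291845647) (nat_lit 10336862330) (.two (nat_lit 9766436872) (nat_lit 10385097570) (.two (nat_lit 2097153) (nat_lit 21785221892) .nil)),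
   .two (nat_lit 11479810063) (nat_lit 19612566837) (.two (nat_lit 156364701697) (nat_lit 2365593681) (.one (nat_lit 4203335) .nil)),
   .two (nat_lit 713031695) (nat_lit 158077026429) (.two (nat_lit 11551113224) (nat_lit 185020186819) (.two (nat_lit 21785214981) (nat_lit 672138550) (.two (nat_lit 612368385) (nat_lit 28690090512) (.two (nat_lit 1048576) (nat_lit 47588578387) (.one (nat_lit 12147761974) .nil))))),
   .two (nat_lit 9940500495) (nat_lit 174753579366) (.two (nat_lit 4601151493) (nat_lit 20745029684) (.two (nat_lit 4194305) (nat_lit 2102830) (.two (nat_lit 2097152) (nat_lit 8394897) (.one (nat_lit 4203338) .nil)))),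
   .two (nat_lit 11492392975) (nat_lit 165528208718) (.two (nat_lit 4194305) (nat_lit 11626613286) (.two (nat_lit 1048576) (nat_lit 641735241) .nil)),
   .two (nat_lit 822083599) (nat_lit 183848927352) (.two (nat_lit 157038936072) (nat_lit 3036677454) (.two (nat_lit 4194305) (nat_lit 20753419812) (.two (nat_lit 4194304) (nat_lit 16783508) (.one (nat_lit 16786253) .nil)))),
   .two (nat_lit 47548727311) (nat_lit 10436477043) (.two (nat_lit 28758245384) (nat_lit 135267622) (.two (nat_lit 605028353) (nat_lit 156533526901) (.two (nat_lit 2097152) (nat_lit 1054869) (.one (nat_lit 1057614) .nil)))),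
   .two (nat_lit 218103823) (nat_lit 156567077489) (.two (nat_lit 708837381) (nat_lit 620758305) (.two (nat_lit 4194305) (nat_lit 16782408) (.one (nat_lit 2105853) .nil))),
   .two (nat_lit 620757007) (nat_lit 1746928250) (.two (nat_lit 806354949) (nat_lit 183928621118) (.two (nat_lit 620756993) (nat_lit 1054255) (.two (nat_lit 2097152) (nat_lit 1054870) (.one (nat_lit 1057615) .nil)))),
   .two (nat_lit 16777231) (nat_lit 183947493496) (.two (nat_lit 713031688) (nat_lit 166211880240) (.two (nat_lit 16777217) (nat_lit 10504637867) (.two (nat_lit 8388608) (nat_lit 159266117513) (.one (nat_lit 16786256) .nil)))),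
   .two (nat_lit 16777231) (nat_lit 184993972288) (.two (nat_lit 21785214984) (nat_lit 12163482274) (.two (nat_lit 713031684) (nat_lit 721421608) (.two (nat_lit 156364701697) (nat_lit 3003125651) (.one (nat_lit 8397649) .nil)))),
   .two (nat_lit 654311439) (nat_lit 4028629103) (.two (nat_lit 169869320) (nat_lit 2332034349) (.two (nat_lit 606076929) (nat_lit 11543775758) (.two (nat_lit 1048576) (nat_lit 3525318594) (.one (nat_lit 1056792) .nil)))),
   .two (nat_lit 713031695) (nat_lit 158075978085) (.two (nat_lit 41943045) (nat_lit 13221496121) (.two (nat_lit 41943041) (nat_lit 157038939633) (.two (nat_lit 1048576) (nat_lit 4605350946) (.one (nat_lit 8397650) .nil)))),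
   .two (nat_lit 612368399) (nat_lit 11610882156) (.two (nat_lit 47548727304) (nat_lit 11014242965) (.two (nat_lit 46407876612) (nat_lit 1947207047) (.two (nat_lit 8388609) (nat_lit 174753582521) (.two (nat_lit 8388608) (nat_lit 2103447) (.one (nat_lit 2106195) .nil))))),
   .two (nat_lit 272629775) (nat_lit 1914699894) (.two (nat_lit 205520904) (nat_lit 2988441795) (.two (nat_lit 2956984325) (nat_lit 1344275763) (.two (nat_lit 4194305) (nat_lit 21778926127) (.two (nat_lit 1048576) (nat_lit 166199299987) (.one (nat_lit 2106196) .nil))))),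
   .two (nat_lit 9934209039) (nat_lit 705691770) (.two (nat_lit 21208498184) (nat_lit 135266499) (.two (nat_lit 158144135173) (nat_lit 10369369444) (.two (nat_lit 2097153) (nat_lit 20637027829) (.two (nat_lit 1048576) (nat_lit 2104496) (.one (nat_lit 21208505053) .nil))))),
   .two (nat_lit 75497487) (nat_lit 102761068) (.two (nat_lit 2889875460) (nat_lit 2098487) (.two (nat_lit 4194305) (nat_lit 159257725454) (.two (nat_lit 16777216) (nat_lit 18928899037) (.one (nat_lit 8397653) .nil)))),
   .two (nat_lit 176160783) (nat_lit 11006902518) (.two (nat_lit 176160776) (nat_lit 1847591531) (.two (nat_lit 10503585797) (nat_lit 158177691741) (.two (nat_lit 606076929) (nat_lit 9906950541) (.two (nat_lit 8388608) (nat_lit 1054873) (.one (nat_lit 2106198) .nil))))),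
   .two (nat_lit 205520911) (nat_lit 185027527311) (.two (nat_lit 171966469) (nat_lit 183853122852) (.two (nat_lit 50331649) (nat_lit 46507497602) (.one (nat_lit 46507499521) .nil))),
   .two (nat_lit 9781116943) (nat_lit 10001318147) (.two (nat_lit 1277165576) (nat_lit 157043130725) (.two (nat_lit 3531603973) (nat_lit 184987682119) (.two (nat_lit 8388609) (nat_lit 117444091) (.two (nat_lit 1048576) (nat_lit 8394906) (.one (nat_lit 2106199) .nil))))),
   .two (nat_lit 203423759) (nat_lit 156569174140) (.two (nat_lit 4601151496) (nat_lit 158144135771) (.two (nat_lit 2887778308) (nat_lit 37316724019) (.two (nat_lit 2097153) (nat_lit 2889881633) (.one (nat_lit 2106200) .nil)))),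
   .two (nat_lit 10385096719) (nat_lit 166197199469) (.two (nat_lit 708837381) (nat_lit 1224738130) (.two (nat_lit 9781116929) (nat_lit 2923433409) (.two (nat_lit 16777216) (nat_lit 2104497) (.one (nat_lit 2106201) .nil)))),
   .two (nat_lit 169869327) (nat_lit 10519314569) (.two (nat_lit 11543773192) (nat_lit 10510926481) (.two (nat_lit 11559501829) (nat_lit 41946585) (.two (nat_lit 1048576) (nat_lit 16783516) (.one (nat_lit 16786266) .nil)))),
   .two (nat_lit 169869327) (nat_lit 46510637182) (.two (nat_lit 721420296) (nat_lit 2350907752) (.two (nat_lit 272629765) (nat_lit 135267660) (.two (nat_lit 9768534017) (nat_lit 235934819) (.one (nat_lit 1057627) .nil)))),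
   .two (nat_lit 813694991) (nat_lit 158179786878) (.two (nat_lit 13195280392) (nat_lit 12620661408) (.two (nat_lit 75497477) (nat_lit 2100132) (.two (nat_lit 8388609) (nat_lit 2102832) (.two (nat_lit 8388608) (nat_lit 4201650) (.one (nat_lit 8397660) .nil))))),
   .two (nat_lit 174753579023) (nat_lit 12620660874) (.two (nat_lit 3527409672) (nat_lit 270532967) (.two (nat_lit 2889875460) (nat_lit 102763956) (.two (nat_lit 2097152) (nat_lit 4201651) (.one (nat_lit 203430562) .nil)))),
   .two (nat_lit 2902458383) (nat_lit 10503585919) (.two (nat_lit 10519314440) (nat_lit 11577327973) (.two (nat_lit 13195280389) (nat_lit 9765389623) (.two (nat_lit 41943041) (nat_lit 21777877533) (.two (nat_lit 8388608) (nat_lit 1054878) (.one (nat_lit 1057629) .nil))))),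
   .two (nat_lit 156372041743) (nat_lit 47548727360) (.two (nat_lit 10343153672) (nat_lit 236979580) (.two (nat_lit 8388609) (nat_lit 236984432) (.one (nat_lit 2106206) .nil))),
   .two (nat_lit 159224168463) (nat_lit 19530776698) (.two (nat_lit 158144135176) (nat_lit 645923455) (.two (nat_lit 176160773) (nat_lit 13191087469) (.two (nat_lit 8388609) (nat_lit 47550829650) (.one (nat_lit 2106207) .nil)))),
   .two (nat_lit 285212687) (nat_lit 104857722) (.two (nat_lit 156367847432) (nat_lit 687867184) (.two (nat_lit 4194305) (nat_lit 117445658) (.one (nat_lit 16786272) .nil))),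
   .two (nat_lit 2961178639) (nat_lit 3539992709) (.two (nat_lit 1343225864) (nat_lit 13203670361) (.two (nat_lit 34603009) (nat_lit 754977307) (.two (nat_lit 1048576) (nat_lit 16783519) (.one (nat_lit 16786273) .nil)))),
   .two (nat_lit 9934209039) (nat_lit 620757229) (.two (nat_lit 83886093) (nat_lit 13188989623) (.two (nat_lit 16777221) (nat_lit 21208500252) (.two (nat_lit 16777217) (nat_lit 10940845559) (.two (nat_lit 2097152) (nat_lit 16784564) (.one (nat_lit 158091714198) .nil))))),
   .two (nat_lit 10336862223) (nat_lit 20753416308) (.two (nat_lit 21208498184) (nat_lit 174768259733) (.two (nat_lit 2097157) (nat_lit 754978295) (.two (nat_lit 1048576) (nat_lit 21778931350) .nil))),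
   .two (nat_lit 37748751) (nat_lit 16777909) (.two (nat_lit 272629765) (nat_lit 46992983341) (.two (nat_lit 2097153) (nat_lit 9936309673) (.two (nat_lit 16777216) (nat_lit 4200608) (.one (nat_lit 4203362) .nil)))),
   .two (nat_lit 184549391) (nat_lit 11578376318) (.two (nat_lit 156533522444) (nat_lit 184549982) (.two (nat_lit 639631365) (nat_lit 16779776) (.two (nat_lit 2097152) (nat_lit 16782473) (.one (nat_lit 16786275) .nil)))),
   .two (nat_lit 37748751) (nat_lit 184993972419) (.two (nat_lit 4194308) (nat_lit 156539815222) (.two (nat_lit 2097153) (nat_lit 46510639643) (.two (nat_lit 8388608) (nat_lit 4201653) (.one (nat_lit 4203364) .nil)))),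
   .two (nat_lit 620757007) (nat_lit 47548727560) (.two (nat_lit 47563407368) (nat_lit 174686470759) (.two (nat_lit 101711877) (nat_lit 28772926852) (.two (nat_lit 9766436865) (nat_lit 1224739338) (.two (nat_lit 1048576) (nat_lit 2103459) (.one (nat_lit 2106213) .nil))))),
   .two (nat_lit 4605345807) (nat_lit 9866051947) (.two (nat_lit 156372041733) (nat_lit 2987394386) (.two (nat_lit 41943041) (nat_lit 2349863304) (.two (nat_lit 8388608) (nat_lit 1055926) (.one (nat_lit 12054437559) .nil)))),
   .two (nat_lit 156367847439) (nat_lit 28690088002) (.two (nat_lit 19599982600) (nat_lit 156532475222) (.two (nat_lit 4194305) (nat_lit 13187944833) (.two (nat_lit 4194304) (nat_lit 1054884) (.one (nat_lit 168828933) .nil)))),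
   .two (nat_lit 13191086095) (nat_lit 10007609452) (.two (nat_lit 3464495112) (nat_lit 19029558639) (.two (nat_lit 156372041729) (nat_lit 1212157444) (.two (nat_lit 4194304) (nat_lit 8395959) (.one (nat_lit 8397265) .nil)))),
   .two (nat_lit 2961178639) (nat_lit 159251431537) (.two (nat_lit 158144135176) (nat_lit 2316305045) (.two (nat_lit 20638072836) (nat_lit 183845782873) (.two (nat_lit 605028353) (nat_lit 37247520185) (.two (nat_lit 1048576) (nat_lit 9934215319) (.one (nat_lit 9934218067) .nil))))),
   .two (nat_lit 13203669007) (nat_lit 1343225991) (.two (nat_lit 654311432) (nat_lit 202375829) (.two (nat_lit 3525312517) (nat_lit 183912892512) (.two (nat_lit 2097153) (nat_lit 16781760) (.two (nat_lit 2097152) (nat_lit 352327728) (.one (nat_lit 2106214) .nil))))),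
   .two (nat_lit 205520911) (nat_lit 47582281838) (.two (nat_lit 742391816) (nat_lit 21811429980) (.two (nat_lit 270532613) (nat_lit 71304571) (.two (nat_lit 9765388289) (nat_lit 156533525997) (.two (nat_lit 2097152) (nat_lit 21814581371) (.one (nat_lit 2105373) .nil))))),
   .two (nat_lit 50331663) (nat_lit 605028419) (.two (nat_lit 50331656) (nat_lit 166129041767) (.two (nat_lit 16777220) (nat_lit 136316979) (.two (nat_lit 16777217) (nat_lit 1309674026) (.two (nat_lit 16777216) (nat_lit 2953844709) (.one (nat_lit 37329313507) .nil))))),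
   .two (nat_lit 639631375) (nat_lit 10343153859) (.two (nat_lit 203423749) (nat_lit 159224169757) (.two (nat_lit 2097153) (nat_lit 156372046852) (.one (nat_lit 8397671) .nil))),
   .two (nat_lit 47548727311) (nat_lit 21811429506) (.two (nat_lit 159217877000) (nat_lit 46977253997) (.two (nat_lit 176160773) (nat_lit 9798944098) (.two (nat_lit 41943041) (nat_lit 21812483953) (.one (nat_lit 11511275099) .nil)))),
   .two (nat_lit 1178599439) (nat_lit 156567077119) (.two (nat_lit 47548727304) (nat_lit 12050236462) (.two (nat_lit 10504634373) (nat_lit 1413481810) (.two (nat_lit 156365750273) (nat_lit 306187846) (.two (nat_lit 2097152) (nat_lit 4201656) (.one (nat_lit 11513371282) .nil))))),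
   .two (nat_lit 28693233679) (nat_lit 21811429984) (.two (nat_lit 1913651205) (nat_lit 183949591846) (.two (nat_lit 9765388289) (nat_lit 12117347900) (.two (nat_lit 1048576) (nat_lit 138417147) (.one (nat_lit 1057641) .nil)))),
   .two (nat_lit 9934209039) (nat_lit 165525061754) (.two (nat_lit 20738736141) (nat_lit 9933161136) (.two (nat_lit 1277165573) (nat_lit 46977255473) (.two (nat_lit 2097153) (nat_lit 873468323) (.two (nat_lit 2097152) (nat_lit 1054886) (.one (nat_lit 9899614164) .nil))))),
   .two (nat_lit 184993972239) (nat_lit 20704133186) (.two (nat_lit 158143086600) (nat_lit 19604177568) (.two (nat_lit 21207449605) (nat_lit 20644367912) (.two (nat_lit 16777216) (nat_lit 159216836126) .nil))),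
   .two (nat_lit 809500687) (nat_lit 37246468231) (.two (nat_lit 184416206856) (nat_lit 1916797577) (.two (nat_lit 2956984325) (nat_lit 47582282594) (.two (nat_lit 4194305) (nat_lit 11007953426) (.two (nat_lit 2097152) (nat_lit 156364707766) (.one (nat_lit 1057642) .nil))))),
   .two (nat_lit 47555018767) (nat_lit 1310720112) (.two (nat_lit 20638072840) (nat_lit 713033033) (.two (nat_lit 606076929) (nat_lit 21818773039) (.two (nat_lit 2097152) (nat_lit 276829225) (.one (nat_lit 8397676) .nil)))),
   .two (nat_lit 183853121551) (nat_lit 9899606374) (.two (nat_lit 13195280389) (nat_lit 1276118329) (.two (nat_lit 41943041) (nat_lit 1947209274) (.two (nat_lit 1048576) (nat_lit 8394921) (.one (nat_lit 1057645) .nil)))),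
   .two (nat_lit 10385096719) (nat_lit 673185901) (.two (nat_lit 10385096712) (nat_lit 169870012) (.two (nat_lit 2097157) (nat_lit 285213985) (.two (nat_lit 34603009) (nat_lit 9915338189) (.two (nat_lit 1048576) (nat_lit 1191187528) (.one (nat_lit 16786286) .nil))))),
   .two (nat_lit 2889875471) (nat_lit 21208498242) (.two (nat_lit 3527409672) (nat_lit 21208498533) (.two (nat_lit 2889875460) (nat_lit 2099316) (.two (nat_lit 4194305) (nat_lit 9799994842) (.two (nat_lit 2097152) (nat_lit 339744719) (.one (nat_lit 2106223) .nil))))),
   .two (nat_lit 11479810063) (nat_lit 20737687801) (.two (nat_lit 1916796936) (nat_lit 28790751590) (.two (nat_lit 12114198533) (nat_lit 11513367066) (.two (nat_lit 1048576) (nat_lit 306189380) (.one (nat_lit 10503593870) .nil)))),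
   .two (nat_lit 21208498191) (nat_lit 156968681736) (.two (nat_lit 158176641037) (nat_lit 174753579874) (.two (nat_lit 34603009) (nat_lit 807406083) (.two (nat_lit 1048576) (nat_lit 270536606) (.one (nat_lit 1057648) .nil)))),
   .two (nat_lit 11543773199) (nat_lit 19599982949) (.two (nat_lit 11476664324) (nat_lit 11513365790) (.two (nat_lit 34603009) (nat_lit 10506734102) (.two (nat_lit 1048576) (nat_lit 4200619) (.one (nat_lit 156968688239) .nil)))),
   .two (nat_lit 285212687) (nat_lit 9802088686) (.two (nat_lit 19532873736) (nat_lit 822083941) (.two (nat_lit 19599982597) (nat_lit 183928620410) (.two (nat_lit 9768534017) (nat_lit 2902463531) (.one (nat_lit 47596968602) .nil)))),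
   .two (nat_lit 11543773199) (nat_lit 2969567298) (.two (nat_lit 68157448) (nat_lit 19109249658) (.two (nat_lit 9933160453) (nat_lit 16780197) (.two (nat_lit 4194305) (nat_lit 16781762) (.two (nat_lit 4194304) (nat_lit 12163487786) (.one (nat_lit 4203377) .nil))))),
   .two (nat_lit 11492392975) (nat_lit 306184858) (.two (nat_lit 2956984325) (nat_lit 11559503143) (.two (nat_lit 605028353) (nat_lit 721423912) (.two (nat_lit 1048576) (nat_lit 185023338427) (.one (nat_lit 4203378) .nil)))),
   .two (nat_lit 16777231) (nat_lit 12054429833) (.two (nat_lit 183853121549) (nat_lit 10015999356) (.two (nat_lit 8388609) (nat_lit 687869861) (.one (nat_lit 16786291) .nil))),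
   .two (nat_lit 11479810063) (nat_lit 159216828552) (.two (nat_lit 3539992584) (nat_lit 19130222110) (.two (nat_lit 16777216) (nat_lit 184989783076) (.one (nat_lit 4203380) .nil))),
   .two (nat_lit 11543773199) (nat_lit 10343153774) (.two (nat_lit 184986632200) (nat_lit 142607727) (.two (nat_lit 612368385) (nat_lit 19596840853) (.one (nat_lit 1057653) .nil))),
   .two (nat_lit 117440527) (nat_lit 4598006120) (.two (nat_lit 28757196805) (nat_lit 16780198) (.two (nat_lit 9765388289) (nat_lit 166144774578) (.two (nat_lit 16777216) (nat_lit 166129047648) (.one (nat_lit 1057654) .nil)))),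
   .two (nat_lit 203423759) (nat_lit 20644364953) (.two (nat_lit 2954887173) (nat_lit 10007610656) (.two (nat_lit 2097153) (nat_lit 813698612) (.two (nat_lit 2097152) (nat_lit 8394840) (.one (nat_lit 35659711) .nil)))),
   .two (nat_lit 1178599439) (nat_lit 12115247228) (.two (nat_lit 156365750280) (nat_lit 11584669004) (.two (nat_lit 50331649) (nat_lit 9974061218) (.one (nat_lit 4203383) .nil))),
   .two (nat_lit 203423759) (nat_lit 4030726282) (.two (nat_lit 203423752) (nat_lit 19130221148) (.two (nat_lit 3525312517) (nat_lit 9802089865) (.two (nat_lit 9766436865) (nat_lit 4198851) (.two (nat_lit 4194304) (nat_lit 2104506) (.one (nat_lit 46978308777) .nil))))),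
   .two (nat_lit 176160783) (nat_lit 174753579252) (.two (nat_lit 2961178632) (nat_lit 20738737449) (.two (nat_lit 8388609) (nat_lit 102764097) (.two (nat_lit 2097152) (nat_lit 46507497468) (.one (nat_lit 1057657) .nil)))),
   .two (nat_lit 8388623) (nat_lit 12047089731) (.two (nat_lit 41943048) (nat_lit 20704133788) (.two (nat_lit 713031684) (nat_lit 19127076935) (.two (nat_lit 41943041) (nat_lit 166129043983) (.two (nat_lit 8388608) (nat_lit 1055933) (.one (nat_lit 1056804) .nil))))),
   .two (nat_lit 16777231) (nat_lit 156569174625) (.two (nat_lit 16777220) (nat_lit 3527412225) (.two (nat_lit 16777216) (nat_lit 4601157752) (.one (nat_lit 4203386) .nil))),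
   .two (nat_lit 2969567247) (nat_lit 1780482170) (.two (nat_lit 10336862216) (nat_lit 13203670322) (.two (nat_lit 2097153) (nat_lit 50336878) (.one (nat_lit 16786299) .nil))),
   .two (nat_lit 20644364303) (nat_lit 184416206914) (.two (nat_lit 184416206856) (nat_lit 11584669751) (.two (nat_lit 34603009) (nat_lit 157043133958) (.two (nat_lit 1048576) (nat_lit 47555025023) (.one (nat_lit 8397692) .nil)))),
   .two (nat_lit 183848927247) (nat_lit 20705181817) (.two (nat_lit 8388616) (nat_lit 840958820) (.two (nat_lit 8388609) (nat_lit 28791802391) (.two (nat_lit 4194304) (nat_lit 11584673684) (.one (nat_lit 2105400) .nil)))),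
   .two (nat_lit 9940500495) (nat_lit 1310720065) (.two (nat_lit 8388616) (nat_lit 11611933202) (.two (nat_lit 8388608) (nat_lit 4200967) (.one (nat_lit 1954553480) .nil))),
   .two (nat_lit 176160783) (nat_lit 21208498837) (.two (nat_lit 8388613) (nat_lit 159250384950) (.two (nat_lit 612368385) (nat_lit 20637029417) (.one (nat_lit 1057681) .nil))),
   .two (nat_lit 205520911) (nat_lit 9974055176) (.two (nat_lit 4194312) (nat_lit 20644365604) (.two (nat_lit 37748737) (nat_lit 10436482041) (.one (nat_lit 705699433) .nil))),
   .two (nat_lit 183853121551) (nat_lit 1376780405) (.two (nat_lit 21811429389) (nat_lit 4605346467) (.two (nat_lit 1343225861) (nat_lit 183853122403) (.two (nat_lit 605028353) (nat_lit 183853123102) (.two (nat_lit 16777216) (nat_lit 12617522825) .nil)))),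
   .two (nat_lit 2887778319) (nat_lit 46477082744) (.two (nat_lit 1276117000) (nat_lit 13188990067) (.two (nat_lit 9933160453) (nat_lit 174686472608) (.two (nat_lit 2097153) (nat_lit 2923432461) (.two (nat_lit 4194304) (nat_lit 1377834937) (.one (nat_lit 37247525639) .nil))))),
   .two (nat_lit 272629775) (nat_lit 2953838719) (.two (nat_lit 10506731528) (nat_lit 2316305443) (.two (nat_lit 11546918917) (nat_lit 158176644669) (.two (nat_lit 2097152) (nat_lit 20640176134) (.one (nat_lit 4203411) .nil)))),
   .two (nat_lit 50331663) (nat_lit 1417674865) (.two (nat_lit 50331656) (nat_lit 679478594) (.two (nat_lit 9765388289) (nat_lit 746590623) (.two (nat_lit 1048576) (nat_lit 9940506672) (.one (nat_lit 8397716) .nil)))),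
   .two (nat_lit 809500687) (nat_lit 9974055165) (.two (nat_lit 46414168072) (nat_lit 3560964796) (.two (nat_lit 101711877) (nat_lit 12050236762) (.two (nat_lit 605028353) (nat_lit 12050241584) (.one (nat_lit 1057685) .nil)))),
   .two (nat_lit 3464495119) (nat_lit 10940842100) (.two (nat_lit 20638072840) (nat_lit 10343154530) (.two (nat_lit 606076929) (nat_lit 2323649721) (.one (nat_lit 8396860) .nil))),
   .two (nat_lit 166132187151) (nat_lit 158646403193) (.two (nat_lit 28693233672) (nat_lit 183845782612) (.two (nat_lit 10503585797) (nat_lit 876610899) (.two (nat_lit 8388609) (nat_lit 46409977266) (.two (nat_lit 4194304) (nat_lit 12147760942) .nil)))),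
   .two (nat_lit 8388623) (nat_lit 46407877286) (.two (nat_lit 8388612) (nat_lit 1212156094) (.two (nat_lit 8388609) (nat_lit 136318550) (.two (nat_lit 16777216) (nat_lit 708845561) .nil))),
   .two (nat_lit 46407876623) (nat_lit 10343153777) (.two (nat_lit 165532401672) (nat_lit 13188989603) (.two (nat_lit 1753219077) (nat_lit 2920286747) (.two (nat_lit 8388608) (nat_lit 184416214801) .nil))),
   .two (nat_lit 713031695) (nat_lit 1191182447) (.two (nat_lit 11492392968) (nat_lit 156472706349) (.two (nat_lit 50331649) (nat_lit 11618227262) (.one (nat_lit 8396861) .nil))),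
   .two (nat_lit 2902458383) (nat_lit 12117344451) (.two (nat_lit 285212677) (nat_lit 272631113) (.two (nat_lit 16777217) (nat_lit 306187780) (.two (nat_lit 1048576) (nat_lit 742399488) .nil))),
   .two (nat_lit 2902458383) (nat_lit 46507491967) (.two (nat_lit 285212677) (nat_lit 46406829443) (.two (nat_lit 9781116929) (nat_lit 9933164424) (.one (nat_lit 605035085) .nil))),
   .two (nat_lit 13195280399) (nat_lit 10506731635) (.two (nat_lit 11010048013) (nat_lit 10343154368) (.two (nat_lit 157038936069) (nat_lit 343933795) (.two (nat_lit 620756993) (nat_lit 343934494) (.two (nat_lit 16777216) (nat_lit 75503703) (.one (nat_lit 8397718) .nil))))),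
   .two (nat_lit 101711887) (nat_lit 171966981) (.two (nat_lit 1749024776) (nat_lit 10939794761) (.two (nat_lit 620756993) (nat_lit 37246471684) (.two (nat_lit 16777216) (nat_lit 158143092818) (.one (nat_lit 158649557430) .nil)))),
   .two (nat_lit 2902458383) (nat_lit 3527409728) (.two (nat_lit 3527409672) (nat_lit 1962935680) (.two (nat_lit 4194305) (nat_lit 21793606159) (.two (nat_lit 4194304) (nat_lit 16784817) (.one (nat_lit 71309916) .nil)))),
   .two (nat_lit 3525312527) (nat_lit 156569174131) (.two (nat_lit 156569174029) (nat_lit 46474985667) (.two (nat_lit 809500677) (nat_lit 10336864359) (.two (nat_lit 9768534017) (nat_lit 2350910958) (.two (nat_lit 16777216) (nat_lit 37249621744) .nil)))),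
   .two (nat_lit 4605345807) (nat_lit 9881780339) (.two (nat_lit 9948889100) (nat_lit 8388972) (.two (nat_lit 50331653) (nat_lit 11584669037) (.two (nat_lit 620756993) (nat_lit 606082072) (.one (nat_lit 2105406) .nil)))),
   .two (nat_lit 8388623) (nat_lit 156481093764) (.two (nat_lit 9781116936) (nat_lit 21214791827) (.two (nat_lit 16777217) (nat_lit 166237048718) (.one (nat_lit 780147419) .nil))),
   .two (nat_lit 654311439) (nat_lit 174686470257) (.two (nat_lit 654311432) (nat_lit 47548728016) (.two (nat_lit 4599054341) (nat_lit 1325402631) (.two (nat_lit 1048576) (nat_lit 28101840782) (.one (nat_lit 4043317245) .nil)))),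
   .two (nat_lit 4194319) (nat_lit 19027460210) (.two (nat_lit 1916796936) (nat_lit 21208498837) (.two (nat_lit 171966469) (nat_lit 10437527794) (.two (nat_lit 34603009) (nat_lit 11544825281) (.two (nat_lit 1048576) (nat_lit 46477087839) (.one (nat_lit 1057689) .nil))))),
   .two (nat_lit 3460300815) (nat_lit 19100860698) (.two (nat_lit 28086108168) (nat_lit 19096667201) (.two (nat_lit 159224168453) (nat_lit 166199297411) (.two (nat_lit 612368385) (nat_lit 11006907134) (.two (nat_lit 8388608) (nat_lit 10000275905) (.one (nat_lit 1057690) .nil))))),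
   .two (nat_lit 9781116943) (nat_lit 47550825116) (.two (nat_lit 4194308) (nat_lit 822084903) (.two (nat_lit 37748737) (nat_lit 10016001461) (.two (nat_lit 4194304) (nat_lit 9982449903) (.one (nat_lit 16786332) .nil)))),
   .two (nat_lit 9881780239) (nat_lit 1376780401) (.two (nat_lit 21811429388) (nat_lit 218104478) (.two (nat_lit 21777874949) (nat_lit 788530542) (.two (nat_lit 156372041729) (nat_lit 1913656289) (.one (nat_lit 4647296680) .nil)))),
   .two (nat_lit 157036838927) (nat_lit 19127074935) (.two (nat_lit 174752530440) (nat_lit 18926798184) (.two (nat_lit 2097153) (nat_lit 10335818745) (.one (nat_lit 156466421238) .nil))),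
   .two (nat_lit 2889875471) (nat_lit 166237045095) (.two (nat_lit 272629765) (nat_lit 2961182407) (.two (nat_lit 2097152) (nat_lit 184989783975) (.one (nat_lit 184989786134) .nil))),
   .two (nat_lit 16777231) (nat_lit 20640170343) (.two (nat_lit 16777220) (nat_lit 675284270) (.two (nat_lit 8388609) (nat_lit 4030731230) (.one (nat_lit 9982452459) .nil))),
   .two (nat_lit 16777231) (nat_lit 101711987) (.two (nat_lit 41943048) (nat_lit 183946447366) (.two (nat_lit 8388608) (nat_lit 21811434509) (.one (nat_lit 16786333) .nil))),
   .two (nat_lit 9768534031) (nat_lit 166130090100) (.two (nat_lit 10504634376) (nat_lit 3560964745) (.two (nat_lit 2889875461) (nat_lit 3458205718) (.two (nat_lit 34603009) (nat_lit 174755682310) (.one (nat_lit 1057694) .nil)))),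
   .two (nat_lit 639631375) (nat_lit 183912890493) (.two (nat_lit 158143086600) (nat_lit 20738736486) (.two (nat_lit 1276116996) (nat_lit 2100607) (.two (nat_lit 2097153) (nat_lit 185020192682) (.one (nat_lit 20737695661) .nil)))),
   .two (nat_lit 4194319) (nat_lit 16777829) (.two (nat_lit 4194308) (nat_lit 19109251292) (.two (nat_lit 4194305) (nat_lit 739249690) (.two (nat_lit 16777216) (nat_lit 4200970) (.one (nat_lit 1057695) .nil)))),
   .two (nat_lit 9948889103) (nat_lit 166130090050) (.two (nat_lit 1291845640) (nat_lit 2954888385) (.two (nat_lit 184549380) (nat_lit 10940844301) (.two (nat_lit 9766436865) (nat_lit 10540288525) (.two (nat_lit 4194304) (nat_lit 1377835040) (.one (nat_lit 2106272) .nil))))),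
   .two (nat_lit 83886095) (nat_lit 20705182355) (.two (nat_lit 9948889093) (nat_lit 1176503603) (.two (nat_lit 34603009) (nat_lit 46992986003) (.one (nat_lit 16786337) .nil))),
   .two (nat_lit 754974735) (nat_lit 158646403938) (.two (nat_lit 50331649) (nat_lit 9765392273) (.one (nat_lit 183845789695) .nil)),
   .two (nat_lit 721420303) (nat_lit 156364701986) (.two (nat_lit 9866051592) (nat_lit 50331843) (.two (nat_lit 1276116996) (nat_lit 37329307709) (.two (nat_lit 9765388289) (nat_lit 855644242) (.one (nat_lit 1057698) .nil)))),
   .two (nat_lit 1795162127) (nat_lit 12047089774) (.two (nat_lit 183845781512) (nat_lit 11559502182) (.two (nat_lit 34603013) (nat_lit 50332961) (.two (nat_lit 2097153) (nat_lit 1325403655) (.two (nat_lit 1048576) (nat_lit 16784818) (.one (nat_lit 16786339) .nil))))),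
   .two (nat_lit 176160783) (nat_lit 159217877102) (.two (nat_lit 176160776) (nat_lit 46978304037) (.two (nat_lit 8388609) (nat_lit 12148805100) (.two (nat_lit 4194304) (nat_lit 2103819) (.one (nat_lit 4202562) .nil)))),
   .two (nat_lit 176160783) (nat_lit 1948254568) (.two (nat_lit 8388613) (nat_lit 2098510) (.two (nat_lit 8388609) (nat_lit 1780485813) (.two (nat_lit 4194304) (nat_lit 19597889425) (.one (nat_lit 4202563) .nil)))),
   .two (nat_lit 37748751) (nat_lit 2416967793) (.two (nat_lit 742391816) (nat_lit 135267618) (.two (nat_lit 2097153) (nat_lit 19596841593) (.two (nat_lit 2097152) (nat_lit 10942944326) (.one (nat_lit 4203428) .nil)))),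
   .two (nat_lit 16777231) (nat_lit 3028287600) (.two (nat_lit 176160776) (nat_lit 156581758281) (.two (nat_lit 8388609) (nat_lit 3472887305) (.two (nat_lit 8388608) (nat_lit 12129932329) (.one (nat_lit 16786341) .nil)))),
   .two (nat_lit 46414168079) (nat_lit 159251431536) (.two (nat_lit 3464495112) (nat_lit 19094571563) (.two (nat_lit 8388608) (nat_lit 13188994022) (.one (nat_lit 2105412) .nil))),
   .two (nat_lit 1291845647) (nat_lit 19130220680) (.two (nat_lit 68157448) (nat_lit 166245433701) (.two (nat_lit 705691652) (nat_lit 2319453837) (.two (nat_lit 4194304) (nat_lit 8396211) (.one (nat_lit 4203430) .nil)))),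
   .two (nat_lit 1291845647) (nat_lit 9967763576) (.two (nat_lit 50331656) (nat_lit 21210595989) (.two (nat_lit 4599054341) (nat_lit 71304036) (.two (nat_lit 2097153) (nat_lit 68160014) (.two (nat_lit 2097152) (nat_lit 641733599) (.one (nat_lit 13191091522) .nil))))),
   .two (nat_lit 4194319) (nat_lit 746586150) (.two (nat_lit 4194312) (nat_lit 746586150) (.two (nat_lit 4605345800) (nat_lit 21208498272) (.two (nat_lit 4194308) (nat_lit 772800735) (.two (nat_lit 612368385) (nat_lit 1049567) (.two (nat_lit 8388608) (nat_lit 4198343) (.one (nat_lit 8394091) .nil)))))),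
   .two (nat_lit 4194319) (nat_lit 12054429811) (.two (nat_lit 169869320) (nat_lit 47588574244) (.two (nat_lit 4194308) (nat_lit 11611932741) (.two (nat_lit 37748737) (nat_lit 304091604) (.two (nat_lit 2097152) (nat_lit 1055259) (.one (nat_lit 4203399) .nil))))),
   .two (nat_lit 4194319) (nat_lit 12054429811) (.two (nat_lit 169869320) (nat_lit 47588574244) (.two (nat_lit 4194308) (nat_lit 11611932741) (.two (nat_lit 37748737) (nat_lit 304091604) (.two (nat_lit 1048576) (nat_lit 2103837) (.one (nat_lit 4203399) .nil))))),
   .two (nat_lit 4194319) (nat_lit 12054429807) (.two (nat_lit 4194312) (nat_lit 165532402277) (.two (nat_lit 4194308) (nat_lit 1310722063) (.two (nat_lit 37748737) (nat_lit 1052462) (.two (nat_lit 4194304) (nat_lit 2104750) (.one (nat_lit 1056864) .nil))))),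
   .two (nat_lit 4194319) (nat_lit 4605345856) (.two (nat_lit 4194308) (nat_lit 19127075682) (.two (nat_lit 4194305) (nat_lit 20638075401) (.one (nat_lit 1054061) .nil))),
   .two (nat_lit 47548727311) (nat_lit 156465365239) (.two (nat_lit 4601151494) (nat_lit 2097515) (.two (nat_lit 184416206861) (nat_lit 339738721) (.two (nat_lit 28690087941) (nat_lit 9936307518) (.two (nat_lit 606076929) (nat_lit 876613972) (.two (nat_lit 2097152) (nat_lit 1052617) (.one (nat_lit 1057672) .nil)))))),
   .two (nat_lit 47548727311) (nat_lit 156465365239) (.two (nat_lit 184416206861) (nat_lit 339738721) (.two (nat_lit 169869320) (nat_lit 19599982690) (.two (nat_lit 28690087941) (nat_lit 9936307518) (.two (nat_lit 606076929) (nat_lit 876613972) (.two (nat_lit 1048576) (nat_lit 13188990619) (.one (nat_lit 1057672) .nil)))))),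
   .two (nat_lit 183853121551) (nat_lit 1745879155) (.two (nat_lit 21777874949) (nat_lit 236980345) (.two (nat_lit 605028353) (nat_lit 2365591996) (.one (nat_lit 1052764) .nil))),
   .two (nat_lit 4194319) (nat_lit 4605345857) (.two (nat_lit 4194312) (nat_lit 2357199482) (.two (nat_lit 4194308) (nat_lit 1847593019) (.two (nat_lit 612368385) (nat_lit 839913163) (.two (nat_lit 1048576) (nat_lit 4200990) (.one (nat_lit 272635243) .nil))))),
   .two (nat_lit 4194319) (nat_lit 3464495219) (.two (nat_lit 4601151496) (nat_lit 235929961) (.two (nat_lit 4194308) (nat_lit 12054432060) (.two (nat_lit 9768534017) (nat_lit 41946613) (.two (nat_lit 1048576) (nat_lit 8395297) (.one (nat_lit 1055562) .nil))))),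
   .two (nat_lit 2887778319) (nat_lit 166132187485) (.two (nat_lit 4194319) (nat_lit 46414168082) (.two (nat_lit 4194312) (nat_lit 1914699874) (.two (nat_lit 20644364292) (nat_lit 166132187599) (.two (nat_lit 4194308) (nat_lit 28086108395) (.two (nat_lit 8388609) (nat_lit 4196929) (.two (nat_lit 1048576) (nat_lit 8393963) (.one (nat_lit 8397740) .nil))))))),
   .two (nat_lit 46474985496) (nat_lit 243269949) (.two (nat_lit 28093448197) (nat_lit 10940843309) (.two (nat_lit 156372041729) (nat_lit 12114199031) (.one (nat_lit 2104139) .nil))),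
   .two (nat_lit 46407876623) (nat_lit 11618222146) (.two (nat_lit 46407876616) (nat_lit 1417675109) (.two (nat_lit 12114198533) (nat_lit 159251432814) (.two (nat_lit 612368385) (nat_lit 1053915) (.two (nat_lit 8388608) (nat_lit 2101200) (.one (nat_lit 2105446) .nil))))),
   .two (nat_lit 4194319) (nat_lit 654311491) (.two (nat_lit 169869320) (nat_lit 12062818664) (.two (nat_lit 4194308) (nat_lit 19109249247) (.two (nat_lit 9781116931) (nat_lit 4028629861) (.two (nat_lit 9781116929) (nat_lit 166229711841) (.two (nat_lit 2097152) (nat_lit 839914713) (.one (nat_lit 1056875) .nil)))))),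
   .two (nat_lit 612368399) (nat_lit 20753416324) (.two (nat_lit 83886088) (nat_lit 2927624824) (.two (nat_lit 620756997) (nat_lit 4638902692) (.two (nat_lit 50331649) (nat_lit 1175457422) (.two (nat_lit 16777216) (nat_lit 8393951) (.one (nat_lit 8398502) .nil))))),
   .two (nat_lit 157036838927) (nat_lit 3024093303) (.two (nat_lit 157036838920) (nat_lit 608174761) (.two (nat_lit 46978301957) (nat_lit 156569176104) (.two (nat_lit 34603009) (nat_lit 8393624) (.two (nat_lit 1048576) (nat_lit 8395299) (.one (nat_lit 8396908) .nil))))),
   .two (nat_lit 13191086095) (nat_lit 166237044860) (.two (nat_lit 46984593416) (nat_lit 9902752365) (.two (nat_lit 209715205) (nat_lit 3460302993) (.two (nat_lit 605028353) (nat_lit 46980402757) (.two (nat_lit 2097152) (nat_lit 8393969) (.one (nat_lit 1057673) .nil))))),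
   .two (nat_lit 16777231) (nat_lit 183949590593) (.two (nat_lit 16777224) (nat_lit 158079123816) (.two (nat_lit 16777220) (nat_lit 675284270) (.two (nat_lit 8388609) (nat_lit 4030728712) (.two (nat_lit 8388608) (nat_lit 4030731230) (.one (nat_lit 184556331) .nil))))),
   .two (nat_lit 47555018767) (nat_lit 10940842094) (.two (nat_lit 1176502282) (nat_lit 343933535) (.two (nat_lit 47555018760) (nat_lit 337641671) (.two (nat_lit 10336862213) (nat_lit 343934247) (.two (nat_lit 606076929) (nat_lit 2927627712) (.two (nat_lit 2097152) (nat_lit 157043134406) (.one (nat_lit 47582288510) .nil)))))),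
   .two (nat_lit 169869327) (nat_lit 10385096771) (.two (nat_lit 2954887176) (nat_lit 183861510504) (.two (nat_lit 2969567237) (nat_lit 20705183837) (.two (nat_lit 9781116929) (nat_lit 46507495802) (.two (nat_lit 2097152) (nat_lit 1056175) (.one (nat_lit 1057710) .nil))))),
   .two (nat_lit 8388623) (nat_lit 236978296) (.two (nat_lit 8388616) (nat_lit 46523220586) (.two (nat_lit 184549378) (nat_lit 8391944) (.two (nat_lit 721420293) (nat_lit 19530777048) (.two (nat_lit 9766436865) (nat_lit 8392497) (.two (nat_lit 2097152) (nat_lit 8395302) (.one (nat_lit 2105463) .nil)))))),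
   .two (nat_lit 4601151503) (nat_lit 12048138362) (.two (nat_lit 4601151496) (nat_lit 176161386) (.two (nat_lit 20644364290) (nat_lit 4634709031) (.two (nat_lit 169869316) (nat_lit 4601152368) (.two (nat_lit 612368385) (nat_lit 174688571185) (.two (nat_lit 8388608) (nat_lit 2103847) (.one (nat_lit 2105465) .nil)))))),
   .two (nat_lit 184986632216) (nat_lit 10343153699) (.two (nat_lit 156372041743) (nat_lit 9967763477) (.two (nat_lit 705691656) (nat_lit 156372041823) (.two (nat_lit 34603013) (nat_lit 9806285516) (.two (nat_lit 34603013) (nat_lit 156372041952) (.two (nat_lit 2097153) (nat_lit 9806285516) (.two (nat_lit 1048576) (nat_lit 9806285516) (.one (nat_lit 1057711) .nil))))))),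
   .two (nat_lit 12050235415) (nat_lit 9933160990) (.two (nat_lit 183848927240) (nat_lit 9933162391) (.two (nat_lit 46414168066) (nat_lit 4196786) (.two (nat_lit 18933088259) (nat_lit 156468514141) (.two (nat_lit 156372041729) (nat_lit 4198195) (.two (nat_lit 1048576) (nat_lit 4201000) (.one (nat_lit 4203440) .nil)))))),
   .two (nat_lit 41943055) (nat_lit 18941477002) (.two (nat_lit 41943048) (nat_lit 158192371426) (.two (nat_lit 8388612) (nat_lit 2365590444) (.two (nat_lit 9765388289) (nat_lit 18941481355) (.two (nat_lit 1048576) (nat_lit 185027532991) (.one (nat_lit 8396926) .nil))))),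
   .two (nat_lit 34603019) (nat_lit 183846830618) (.two (nat_lit 9934209039) (nat_lit 1048719) (.two (nat_lit 2357198858) (nat_lit 2097361) (.two (nat_lit 9934209032) (nat_lit 11610882420) (.two (nat_lit 721420290) (nat_lit 739247399) (.two (nat_lit 12062818309) (nat_lit 34603466) (.two (nat_lit 50331649) (nat_lit 269487752) (.two (nat_lit 16777216) (nat_lit 2099956) (.one (nat_lit 1057713) .nil)))))))),
   .two (nat_lit 158192369685) (nat_lit 1048720) (.two (nat_lit 156465365022) (nat_lit 46523220088) (.two (nat_lit 3557818378) (nat_lit 50332315) (.two (nat_lit 12047089672) (nat_lit 855638218) (.two (nat_lit 184986632197) (nat_lit 352323713) (.two (nat_lit 9768534017) (nat_lit 235934939) (.two (nat_lit 4194304) (nat_lit 235934939) (.one (nat_lit 16785540) .nil))))))),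
   .two (nat_lit 8388623) (nat_lit 2969567297) (.two (nat_lit 8388616) (nat_lit 1392509638) (.two (nat_lit 16777220) (nat_lit 9974056252) (.two (nat_lit 50331649) (nat_lit 2894074299) (.two (nat_lit 16777216) (nat_lit 159257728059) (.one (nat_lit 8397746) .nil))))),
   .two (nat_lit 1277165583) (nat_lit 184416206986) (.two (nat_lit 1277165576) (nat_lit 11006902917) (.two (nat_lit 639631365) (nat_lit 202377470) (.two (nat_lit 9766436865) (nat_lit 11510223694) (.two (nat_lit 2097152) (nat_lit 1053948) (.one (nat_lit 1056901) .nil))))),
   .two (nat_lit 2887778369) (nat_lit 843055229) (.two (nat_lit 276824079) (nat_lit 12150899337) (.two (nat_lit 11476664328) (nat_lit 3531605302) (.two (nat_lit 605028357) (nat_lit 13195283944) (.two (nat_lit 2097153) (nat_lit 2316311149) (.one (nat_lit 1058137) .nil))))),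
   .two (nat_lit 11559501888) (nat_lit 310378618) (.two (nat_lit 75497487) (nat_lit 185035915459) (.two (nat_lit 75497480) (nat_lit 1795163472) (.two (nat_lit 721420292) (nat_lit 21785216541) (.two (nat_lit 41943041) (nat_lit 1749029921) (.two (nat_lit 2097152) (nat_lit 641735325) (.one (nat_lit 8398170) .nil)))))),
   .two (nat_lit 169869377) (nat_lit 13195280509) (.two (nat_lit 21785214991) (nat_lit 10437525864) (.two (nat_lit 705691656) (nat_lit 47550825782) (.two (nat_lit 11543773189) (nat_lit 4028631577) (.two (nat_lit 34603009) (nat_lit 156969735135) (.two (nat_lit 1048576) (nat_lit 2104004) (.one (nat_lit 2106716) .nil)))))),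
   .two (nat_lit 2887778369) (nat_lit 3460300914) (.two (nat_lit 16777231) (nat_lit 156968681832) (.two (nat_lit 276824072) (nat_lit 20638074151) (.two (nat_lit 8388612) (nat_lit 337645446) (.two (nat_lit 8388608) (nat_lit 68164250) (.one (nat_lit 809510176) .nil))))),
   .two (nat_lit 4605345859) (nat_lit 9802088566) (.two (nat_lit 1178599439) (nat_lit 880805194) (.two (nat_lit 11546918917) (nat_lit 4605348350) (.two (nat_lit 8388609) (nat_lit 1210061864) (.two (nat_lit 2097152) (nat_lit 176167578) (.one (nat_lit 10001327803) .nil))))),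
   .two (nat_lit 47548727360) (nat_lit 37316722820) (.two (nat_lit 165526110223) (nat_lit 184419353237) (.two (nat_lit 4601151496) (nat_lit 21778924910) (.two (nat_lit 2097157) (nat_lit 20740835865) (.two (nat_lit 2097153) (nat_lit 2990542744) (.two (nat_lit 1048576) (nat_lit 11477719631) (.one (nat_lit 1312826303) .nil)))))),
   .two (nat_lit 9948889155) (nat_lit 12148801660) (.two (nat_lit 1191182351) (nat_lit 171967332) (.two (nat_lit 1344274437) (nat_lit 9881784197) (.two (nat_lit 2097152) (nat_lit 9814676795) (.one (nat_lit 156569183918) .nil)))),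
   .two (nat_lit 184993972291) (nat_lit 2923430132) (.two (nat_lit 183848927247) (nat_lit 21785216541) (.two (nat_lit 41943041) (nat_lit 3024098618) (.one (nat_lit 3460309142) .nil))),
   .two (nat_lit 285212736) (nat_lit 184993972335) (.two (nat_lit 285212687) (nat_lit 184993972419) (.two (nat_lit 41943048) (nat_lit 1962935612) (.two (nat_lit 1913651205) (nat_lit 46523222555) (.two (nat_lit 50331649) (nat_lit 20704138208) (.two (nat_lit 1048576) (nat_lit 10921974347) (.one (nat_lit 8398173) .nil)))))),
   .two (nat_lit 16777280) (nat_lit 2097399) (.two (nat_lit 620757007) (nat_lit 1948254855) (.two (nat_lit 184423546888) (nat_lit 166144771372) (.two (nat_lit 183853121541) (nat_lit 101715847) (.two (nat_lit 8388608) (nat_lit 1055429) (.one (nat_lit 1058142) .nil))))),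
   .two (nat_lit 46980399169) (nat_lit 159266111610) (.two (nat_lit 165526110223) (nat_lit 46409975116) (.two (nat_lit 16777220) (nat_lit 157038938626) (.two (nat_lit 4194305) (nat_lit 156481097608) (.two (nat_lit 2097152) (nat_lit 19612572250) (.one (nat_lit 16786783) .nil))))),
   .two (nat_lit 2969567299) (nat_lit 10335813751) (.two (nat_lit 276824079) (nat_lit 218104674) (.two (nat_lit 8388612) (nat_lit 50334226) (.two (nat_lit 8388609) (nat_lit 605032335) (.two (nat_lit 16777216) (nat_lit 28798098018) (.one (nat_lit 151004185) .nil))))),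
   .two (nat_lit 11559501888) (nat_lit 166199296247) (.two (nat_lit 11492392975) (nat_lit 19599983240) (.two (nat_lit 606076936) (nat_lit 4043310380) (.two (nat_lit 169869316) (nat_lit 880806407) (.two (nat_lit 37748737) (nat_lit 3022000013) (.two (nat_lit 4194304) (nat_lit 19537075675) (.one (nat_lit 9969869756) .nil)))))),
   .two (nat_lit 185002360897) (nat_lit 28690088051) (.two (nat_lit 156372041743) (nat_lit 2887778663) (.two (nat_lit 12050235400) (nat_lit 28798093867) (.two (nat_lit 2097153) (nat_lit 612372359) (.two (nat_lit 4194304) (nat_lit 37246474867) (.one (nat_lit 184987690159) .nil))))),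
   .two (nat_lit 2969567296) (nat_lit 11476664449) (.two (nat_lit 1291845647) (nat_lit 158646403767) (.two (nat_lit 46407876616) (nat_lit 28806481229) (.two (nat_lit 3458203653) (nat_lit 185020189209) (.two (nat_lit 2097153) (nat_lit 185027530634) (.two (nat_lit 2097152) (nat_lit 20644371068) (.one (nat_lit 2106720) .nil)))))),
   .two (nat_lit 158646403137) (nat_lit 203423866) (.two (nat_lit 1191182351) (nat_lit 605028984) (.two (nat_lit 12129927176) (nat_lit 37313577826) (.two (nat_lit 34603013) (nat_lit 285214237) (.two (nat_lit 2097153) (nat_lit 168824711) (.two (nat_lit 2097152) (nat_lit 101718634) (.one (nat_lit 740304148) .nil)))))),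
   .two (nat_lit 183916036163) (nat_lit 46414168178) (.two (nat_lit 184419352591) (nat_lit 10343154270) (.two (nat_lit 184419352584) (nat_lit 10343154530) (.two (nat_lit 12117344261) (nat_lit 183953787399) (.two (nat_lit 37748737) (nat_lit 9772732295) (.two (nat_lit 4194304) (nat_lit 9806289523) (.one (nat_lit 8398177) .nil)))))),
   .two (nat_lit 11510218817) (nat_lit 11513364590) (.two (nat_lit 156367847439) (nat_lit 20753416552) (.two (nat_lit 19529728008) (nat_lit 136316295) (.two (nat_lit 806354949) (nat_lit 3460303383) (.two (nat_lit 2097153) (nat_lit 806358928) (.two (nat_lit 2097152) (nat_lit 4202077) (.one (nat_lit 2106722) .nil)))))),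
   .two (nat_lit 12114198595) (nat_lit 46510637170) (.two (nat_lit 9768534031) (nat_lit 2416968546) (.two (nat_lit 2889875460) (nat_lit 10537142790) (.two (nat_lit 4194305) (nat_lit 34609755) (.one (nat_lit 1058147) .nil)))),
   .two (nat_lit 1417674819) (nat_lit 13221495030) (.two (nat_lit 176160783) (nat_lit 174755676833) (.two (nat_lit 1175453704) (nat_lit 4634707229) (.two (nat_lit 156971827205) (nat_lit 12147756458) (.two (nat_lit 8388609) (nat_lit 4598010897) (.two (nat_lit 8388608) (nat_lit 2920290902) (.one (nat_lit 3457164233) .nil)))))),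
   .two (nat_lit 343932993) (nat_lit 46980399218) (.two (nat_lit 41943055) (nat_lit 157038936931) (.two (nat_lit 8388612) (nat_lit 1782581766) (.two (nat_lit 41943041) (nat_lit 19029561244) (.two (nat_lit 8388608) (nat_lit 4202078) (.one (nat_lit 4203876) .nil))))),
   .two (nat_lit 13195280451) (nat_lit 166132187250) (.two (nat_lit 19532873743) (nat_lit 183853122402) (.two (nat_lit 1916796933) (nat_lit 1283459588) (.two (nat_lit 9768534017) (nat_lit 1182797719) (.two (nat_lit 4194304) (nat_lit 9906951480) (.one (nat_lit 9806291112) .nil))))),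
   .two (nat_lit 184986632256) (nat_lit 28758245489) (.two (nat_lit 21777874959) (nat_lit 11007951483) (.two (nat_lit 158075977736) (nat_lit 20738737450) (.two (nat_lit 28758245381) (nat_lit 1376781854) (.two (nat_lit 605028353) (nat_lit 10538193982) (.two (nat_lit 1048576) (nat_lit 2317359715) (.one (nat_lit 174685430743) .nil)))))),
   .two (nat_lit 1916796995) (nat_lit 9899606132) (.two (nat_lit 11543773199) (nat_lit 156971828066) (.two (nat_lit 739246085) (nat_lit 183916040092) (.two (nat_lit 1048576) (nat_lit 4201158) (.one (nat_lit 4203877) .nil)))),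
   .two (nat_lit 2969567296) (nat_lit 28760342647) (.two (nat_lit 654311439) (nat_lit 4195003) (.two (nat_lit 654311432) (nat_lit 28793897828) (.two (nat_lit 2902458372) (nat_lit 46980401666) (.two (nat_lit 16777217) (nat_lit 306188194) (.two (nat_lit 2097152) (nat_lit 4202079) (.one (nat_lit 16786790) .nil)))))),
   .two (nat_lit 16777280) (nat_lit 1954546023) (.two (nat_lit 50331656) (nat_lit 3457156477) (.two (nat_lit 721420292) (nat_lit 12155095555) (.two (nat_lit 8388609) (nat_lit 9933165540) (.two (nat_lit 8388608) (nat_lit 4631566923) (.one (nat_lit 11618231233) .nil))))),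
   .two (nat_lit 11479810115) (nat_lit 174685421925) (.two (nat_lit 218103816) (nat_lit 166129042824) (.two (nat_lit 13191086085) (nat_lit 158183983647) (.two (nat_lit 41943041) (nat_lit 251665086) (.one (nat_lit 11559511104) .nil)))),
   .two (nat_lit 285212736) (nat_lit 159217877114) (.two (nat_lit 41943055) (nat_lit 20719863088) (.two (nat_lit 16777220) (nat_lit 13195281949) (.two (nat_lit 2097153) (nat_lit 10921974351) (.one (nat_lit 874520726) .nil)))),
   .two (nat_lit 18928894019) (nat_lit 8388856) (.two (nat_lit 654311439) (nat_lit 843055299) (.two (nat_lit 809500680) (nat_lit 1761609004) (.two (nat_lit 721420293) (nat_lit 2424310285) (.two (nat_lit 16777217) (nat_lit 12121543649) (.two (nat_lit 8388608) (nat_lit 16784992) (.one (nat_lit 8398183) .nil)))))),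
   .two (nat_lit 11543773248) (nat_lit 11584667843) (.two (nat_lit 705691656) (nat_lit 19033752881) (.two (nat_lit 4599054341) (nat_lit 46984595983) (.two (nat_lit 34603009) (nat_lit 184993977320) (.two (nat_lit 1048576) (nat_lit 10001324732) (.one (nat_lit 705700969) .nil))))),
   .two (nat_lit 46474985538) (nat_lit 184419352642) (.two (nat_lit 184419352591) (nat_lit 10504634563) (.two (nat_lit 19599982600) (nat_lit 1411384631) (.two (nat_lit 156971827205) (nat_lit 46978304541) (.two (nat_lit 156367847425) (nat_lit 156533527606) (.two (nat_lit 8388608) (nat_lit 10338966179) (.one (nat_lit 4203880) .nil)))))),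
   .two (nat_lit 159224168515) (nat_lit 71303289) (.two (nat_lit 3527409679) (nat_lit 1384120678) (.two (nat_lit 46980399112) (nat_lit 11618223432) (.two (nat_lit 1277165572) (nat_lit 2927626769) (.two (nat_lit 606076929) (nat_lit 4200347) (.two (nat_lit 2097152) (nat_lit 4202081) (.one (nat_lit 2106729) .nil)))))),
   .two (nat_lit 2954887232) (nat_lit 156532473969) (.two (nat_lit 1277165583) (nat_lit 713032298) (.two (nat_lit 20644364296) (nat_lit 4027581284) (.two (nat_lit 156968681477) (nat_lit 1746930185) (.two (nat_lit 34603009) (nat_lit 2103196) (.two (nat_lit 2097152) (nat_lit 1410341564) (.one (nat_lit 2106730) .nil)))))),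
   .two (nat_lit 1384120387) (nat_lit 2097401) (.two (nat_lit 2887778319) (nat_lit 780140902) (.two (nat_lit 11476664328) (nat_lit 3531605292) (.two (nat_lit 11476664324) (nat_lit 2954889762) (.two (nat_lit 34603009) (nat_lit 50338432) (.one (nat_lit 21777884163) .nil))))),
   .two (nat_lit 184986632258) (nat_lit 20707278968) (.two (nat_lit 159224168463) (nat_lit 21777875139) (.two (nat_lit 12047089672) (nat_lit 1749026104) (.two (nat_lit 176160772) (nat_lit 156535622171) (.two (nat_lit 8388609) (nat_lit 806360987) (.two (nat_lit 8388608) (nat_lit 1056354) (.one (nat_lit 8398187) .nil)))))),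
   .two (nat_lit 8388672) (nat_lit 2902458434) (.two (nat_lit 2902458383) (nat_lit 1417676318) (.two (nat_lit 16777217) (nat_lit 20745033018) (.one (nat_lit 12121546903) .nil))),
   .two (nat_lit 8388672) (nat_lit 654311535) (.two (nat_lit 218103823) (nat_lit 11584668988) (.two (nat_lit 184549381) (nat_lit 10007613316) (.two (nat_lit 16777216) (nat_lit 8396387) (.one (nat_lit 37329315052) .nil)))),
   .two (nat_lit 183853121601) (nat_lit 1310720114) (.two (nat_lit 165526110223) (nat_lit 183853122402) (.two (nat_lit 41943045) (nat_lit 874514969) (.two (nat_lit 41943041) (nat_lit 166197202844) (.two (nat_lit 2097152) (nat_lit 10376714855) (.one (nat_lit 304095369) .nil))))),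
   .two (nat_lit 21208498241) (nat_lit 37246468208) (.two (nat_lit 10939793423) (nat_lit 174753579874) (.two (nat_lit 174752530437) (nat_lit 840960546) (.two (nat_lit 9765388289) (nat_lit 874519129) (.one (nat_lit 28757206169) .nil)))),
   .two (nat_lit 16777280) (nat_lit 165528207608) (.two (nat_lit 16777231) (nat_lit 11479810730) (.two (nat_lit 50331656) (nat_lit 641729869) (.two (nat_lit 605028357) (nat_lit 9781119510) (.two (nat_lit 50331649) (nat_lit 806358931) (.two (nat_lit 16777216) (nat_lit 11510225512) (.one (nat_lit 37262205958) .nil)))))),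
   .two (nat_lit 12114198594) (nat_lit 1862271108) (.two (nat_lit 2887778319) (nat_lit 1191183202) (.two (nat_lit 639631365) (nat_lit 183928621588) (.two (nat_lit 34603009) (nat_lit 16783261) (.two (nat_lit 1048576) (nat_lit 16784996) (.one (nat_lit 16786796) .nil))))),
   .two (nat_lit 46474985537) (nat_lit 28757196867) (.two (nat_lit 47555018767) (nat_lit 2987393892) (.two (nat_lit 176160772) (nat_lit 11006904874) (.two (nat_lit 606076929) (nat_lit 28798095247) (.two (nat_lit 2097152) (nat_lit 8395464) (.one (nat_lit 8398189) .nil))))),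
   .two (nat_lit 4634705987) (nat_lit 10913579124) (.two (nat_lit 612368399) (nat_lit 641729204) (.two (nat_lit 3460300808) (nat_lit 37253809467) (.two (nat_lit 46414168068) (nat_lit 174688569885) (.two (nat_lit 8388609) (nat_lit 12050240472) (.two (nat_lit 1048576) (nat_lit 4202085) (.one (nat_lit 8398190) .nil)))))),
   .two (nat_lit 184419352641) (nat_lit 1846542402) (.two (nat_lit 28757196815) (nat_lit 166232850794) (.two (nat_lit 28757196808) (nat_lit 3560965459) (.two (nat_lit 1276116996) (nat_lit 9936309731) (.two (nat_lit 9765388289) (nat_lit 12150903803) (.two (nat_lit 1048576) (nat_lit 12050242161) (.one (nat_lit 1058159) .nil)))))),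
   .two (nat_lit 156535619651) (nat_lit 1310720114) (.two (nat_lit 165526110223) (nat_lit 4194665) (.two (nat_lit 165526110216) (nat_lit 19532874595) (.two (nat_lit 158144135173) (nat_lit 10439625236) (.two (nat_lit 606076929) (nat_lit 1279266695) (.two (nat_lit 2097152) (nat_lit 10439629465) (.one (nat_lit 11513373826) .nil)))))),
   .two (nat_lit 8388674) (nat_lit 21781020797) (.two (nat_lit 4194319) (nat_lit 343933285) (.two (nat_lit 20637024264) (nat_lit 11517560142) (.two (nat_lit 28086108165) (nat_lit 41946536) (.two (nat_lit 41943041) (nat_lit 1212160633) (.one (nat_lit 8398192) .nil))))),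
   .two (nat_lit 4605345857) (nat_lit 3527409731) (.two (nat_lit 3527409679) (nat_lit 156372041923) (.two (nat_lit 3527409672) (nat_lit 46414169630) (.two (nat_lit 4194305) (nat_lit 185027532093) (.one (nat_lit 158183990208) .nil)))),
   .two (nat_lit 713031747) (nat_lit 158662131830) (.two (nat_lit 8388623) (nat_lit 807403879) (.two (nat_lit 8388616) (nat_lit 620758382) (.two (nat_lit 184431935493) (nat_lit 276827647) (.two (nat_lit 8388609) (nat_lit 3472887699) (.two (nat_lit 2097152) (nat_lit 21793610344) (.one (nat_lit 28101846060) .nil)))))),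
   .two (nat_lit 19142803523) (nat_lit 21207449716) (.two (nat_lit 9948889103) (nat_lit 9806283400) (.two (nat_lit 1753219080) (nat_lit 1049899) (.two (nat_lit 2894069765) (nat_lit 1392511503) (.two (nat_lit 41943041) (nat_lit 21777878936) (.two (nat_lit 8388608) (nat_lit 1055326) (.one (nat_lit 16786801) .nil)))))),
   .two (nat_lit 12114198595) (nat_lit 9766437226) (.two (nat_lit 19596836872) (nat_lit 156466414920) (.two (nat_lit 156968681477) (nat_lit 2100737) (.two (nat_lit 37748737) (nat_lit 159216835179) (.one (nat_lit 1058162) .nil)))),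
   .two (nat_lit 20705181762) (nat_lit 28793897079) (.two (nat_lit 28758245391) (nat_lit 4195004) (.two (nat_lit 28758245384) (nat_lit 708838244) (.two (nat_lit 1277165572) (nat_lit 28693236247) (.two (nat_lit 605028353) (nat_lit 46508546632) (.one (nat_lit 2106739) .nil))))),
   .two (nat_lit 47563407426) (nat_lit 3464495169) (.two (nat_lit 184549391) (nat_lit 21811430060) (.two (nat_lit 1276117000) (nat_lit 1795163466) (.two (nat_lit 176160773) (nat_lit 19026414098) (.two (nat_lit 41943041) (nat_lit 806358937) (.two (nat_lit 1048576) (nat_lit 608180836) (.one (nat_lit 202384332) .nil)))))),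
   .two (nat_lit 285212736) (nat_lit 19532873795) (.two (nat_lit 285212687) (nat_lit 4601152178) (.two (nat_lit 46980399112) (nat_lit 1191183646) (.two (nat_lit 3527409669) (nat_lit 9781119486) (.two (nat_lit 4194305) (nat_lit 19142808640) (.two (nat_lit 16777216) (nat_lit 9768540745) (.one (nat_lit 16786804) .nil)))))),
   .two (nat_lit 4601151555) (nat_lit 10552868986) (.two (nat_lit 156367847439) (nat_lit 183846830742) (.two (nat_lit 159232557064) (nat_lit 21812480518) (.two (nat_lit 2097153) (nat_lit 641735240) (.one (nat_lit 4203894) .nil)))),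
   .two (nat_lit 11543773250) (nat_lit 746586475) (.two (nat_lit 169869320) (nat_lit 8390711) (.two (nat_lit 739246085) (nat_lit 9799994858) (.two (nat_lit 34603009) (nat_lit 2103198) (.two (nat_lit 1048576) (nat_lit 2104935) (.one (nat_lit 1058167) .nil))))),
   .two (nat_lit 2902458433) (nat_lit 4601151554) (.two (nat_lit 13191086095) (nat_lit 2902458974) (.two (nat_lit 13191086088) (nat_lit 2902459234) (.two (nat_lit 4194308) (nat_lit 16779776) (.two (nat_lit 4194305) (nat_lit 3573553779) (.one (nat_lit 2956993810) .nil))))),
   .two (nat_lit 343932995) (nat_lit 10001317996) (.two (nat_lit 176160783) (nat_lit 28758246006) (.two (nat_lit 9940500488) (nat_lit 10538190113) (.two (nat_lit 46407876612) (nat_lit 2994735636) (.two (nat_lit 156365750273) (nat_lit 10439627812) (.two (nat_lit 8388608) (nat_lit 3024100031) (.one (nat_lit 109061257) .nil)))))),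
   .two (nat_lit 83886147) (nat_lit 156569174131) (.two (nat_lit 184549391) (nat_lit 19130221159) (.two (nat_lit 184549384) (nat_lit 742393208) (.two (nat_lit 16777221) (nat_lit 185023335863) (.two (nat_lit 16777217) (nat_lit 156535626422) (.one (nat_lit 46523229520) .nil))))),
   .two (nat_lit 2969567297) (nat_lit 11610882114) (.two (nat_lit 4194319) (nat_lit 9948889445) (.two (nat_lit 2936012813) (nat_lit 13224641866) (.two (nat_lit 69206021) (nat_lit 13221498341) (.two (nat_lit 2097153) (nat_lit 9765392275) (.two (nat_lit 1048576) (nat_lit 2104936) (.one (nat_lit 304096267) .nil)))))),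
   .two (nat_lit 46510637123) (nat_lit 10544480389) (.two (nat_lit 4194319) (nat_lit 343933795) (.two (nat_lit 159216828421) (nat_lit 46984596935) (.two (nat_lit 41943041) (nat_lit 174755681276) (.two (nat_lit 8388608) (nat_lit 10439629470) (.one (nat_lit 8398200) .nil))))),
   .two (nat_lit 11559501888) (nat_lit 13221494912) (.two (nat_lit 158075977743) (nat_lit 117440707) (.two (nat_lit 158075977736) (nat_lit 754976286) (.two (nat_lit 605028353) (nat_lit 218110656) (.one (nat_lit 336602166) .nil)))),
   .two (nat_lit 306184258) (nat_lit 218103918) (.two (nat_lit 2902458383) (nat_lit 2923431454) (.two (nat_lit 4194305) (nat_lit 19109255773) (.one (nat_lit 809510188) .nil))),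
   .two (nat_lit 16777280) (nat_lit 310378691) (.two (nat_lit 721420296) (nat_lit 47547679588) (.two (nat_lit 8388612) (nat_lit 4613737910) (.two (nat_lit 8388609) (nat_lit 16782312) (.two (nat_lit 1048576) (nat_lit 47588580003) (.one (nat_lit 2953847914) .nil))))),
   .two (nat_lit 8388672) (nat_lit 10452205700) (.two (nat_lit 654311439) (nat_lit 8388803) (.two (nat_lit 654311432) (nat_lit 1853883701) (.two (nat_lit 2902458373) (nat_lit 10007610909) (.two (nat_lit 16777217) (nat_lit 12121543998) (.one (nat_lit 235938844) .nil))))),
   .two (nat_lit 11559501891) (nat_lit 343933038) (.two (nat_lit 41943055) (nat_lit 12062819714) (.two (nat_lit 11559501829) (nat_lit 21785217537) (.two (nat_lit 8388609) (nat_lit 10921972760) (.two (nat_lit 8388608) (nat_lit 16785001) (.one (nat_lit 12062827856) .nil))))),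
   .two (nat_lit 159217877059) (nat_lit 654311533) (.two (nat_lit 10385096719) (nat_lit 46508540265) (.two (nat_lit 654311432) (nat_lit 1746928999) (.two (nat_lit 159217876997) (nat_lit 9881782785) (.two (nat_lit 606076929) (nat_lit 1358958468) (.two (nat_lit 2097152) (nat_lit 2902465216) (.one (nat_lit 16786818) .nil)))))),
   .two (nat_lit 16777280) (nat_lit 166130090097) (.two (nat_lit 184549391) (nat_lit 11517559141) (.two (nat_lit 620757000) (nat_lit 773850430) (.two (nat_lit 184549380) (nat_lit 9906948641) (.two (nat_lit 2097153) (nat_lit 8395438) (.one (nat_lit 3558876374) .nil))))),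
   .two (nat_lit 159224168515) (nat_lit 12633243780) (.two (nat_lit 4613734415) (nat_lit 165532402530) (.two (nat_lit 156364701701) (nat_lit 12155095559) (.two (nat_lit 34603009) (nat_lit 158091713110) (.one (nat_lit 184558855) .nil)))),
   .two (nat_lit 12054429763) (nat_lit 10537140356) (.two (nat_lit 101711887) (nat_lit 157043130730) (.two (nat_lit 11476664328) (nat_lit 21785215842) (.two (nat_lit 270532613) (nat_lit 10510929814) (.two (nat_lit 1048576) (nat_lit 19033756987) (.one (nat_lit 8396972) .nil))))),
   .two (nat_lit 4605345856) (nat_lit 11511267448) (.two (nat_lit 721420303) (nat_lit 1216349564) (.two (nat_lit 2887778308) (nat_lit 156481096227) (.two (nat_lit 2097153) (nat_lit 2969572358) (.two (nat_lit 2097152) (nat_lit 8396395) (.one (nat_lit 2106756) .nil))))),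
   .two (nat_lit 16777280) (nat_lit 158150426756) (.two (nat_lit 9948889103) (nat_lit 19597886072) (.two (nat_lit 11551113224) (nat_lit 620758557) (.two (nat_lit 41943041) (nat_lit 156567080851) (.two (nat_lit 8388608) (nat_lit 2104010) (.one (nat_lit 16786821) .nil))))),
   .two (nat_lit 47563407425) (nat_lit 20738736241) (.two (nat_lit 3460300815) (nat_lit 136316272) (.two (nat_lit 721420293) (nat_lit 1052163) (.two (nat_lit 16777217) (nat_lit 156532479000) (.two (nat_lit 1048576) (nat_lit 16785004) (.one (nat_lit 156532483110) .nil))))),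
   .two (nat_lit 20644364353) (nat_lit 50331760) (.two (nat_lit 50331663) (nat_lit 3464496422) (.two (nat_lit 612368389) (nat_lit 285214238) (.two (nat_lit 41943041) (nat_lit 21827162005) (.two (nat_lit 8388608) (nat_lit 16785005) (.one (nat_lit 16786822) .nil))))),
   .two (nat_lit 37313577027) (nat_lit 16777466) (.two (nat_lit 620757007) (nat_lit 166136382061) (.two (nat_lit 2961178632) (nat_lit 1291846951) (.two (nat_lit 176160772) (nat_lit 47563410895) (.two (nat_lit 612368385) (nat_lit 11006909064) (.one (nat_lit 8398215) .nil))))),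
   .two (nat_lit 158177689665) (nat_lit 1947205699) (.two (nat_lit 2961178639) (nat_lit 773849730) (.two (nat_lit 37748744) (nat_lit 28697429301) (.two (nat_lit 159217876997) (nat_lit 1745881609) (.two (nat_lit 605028353) (nat_lit 158146237462) (.two (nat_lit 1048576) (nat_lit 28691143325) (.one (nat_lit 2106760) .nil)))))),
   .two (nat_lit 272629824) (nat_lit 679477370) (.two (nat_lit 176160783) (nat_lit 46474986133) (.two (nat_lit 176160776) (nat_lit 1948255567) (.two (nat_lit 4194308) (nat_lit 880805405) (.two (nat_lit 606076929) (nat_lit 1312822226) (.two (nat_lit 2097152) (nat_lit 1312823887) (.one (nat_lit 2106761) .nil)))))),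
   .two (nat_lit 2969567297) (nat_lit 236978243) (.two (nat_lit 2969567247) (nat_lit 21812479283) (.two (nat_lit 169869316) (nat_lit 16779774) (.two (nat_lit 2097153) (nat_lit 889199236) (.one (nat_lit 639640525) .nil)))),
   .two (nat_lit 16777282) (nat_lit 165532401776) (.two (nat_lit 165532401679) (nat_lit 50332514) (.two (nat_lit 10343153669) (nat_lit 156481097620) (.two (nat_lit 8388608) (nat_lit 21223185263) .nil))),
   .two (nat_lit 276824129) (nat_lit 4634706032) (.two (nat_lit 8388623) (nat_lit 4027580777) (.two (nat_lit 2887778312) (nat_lit 21781022051) (.two (nat_lit 1782579205) (nat_lit 1779436970) (.two (nat_lit 37748737) (nat_lit 18926803618) (.one (nat_lit 2106762) .nil))))),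
   .two (nat_lit 156372041795) (nat_lit 236978296) (.two (nat_lit 285212687) (nat_lit 11517559456) (.two (nat_lit 13203669000) (nat_lit 20745028982) (.two (nat_lit 639631365) (nat_lit 4647291421) (.two (nat_lit 606076929) (nat_lit 11484009444) (.two (nat_lit 2097152) (nat_lit 8396400) (.one (nat_lit 8398219) .nil)))))),
   .two (nat_lit 4601151554) (nat_lit 156481093764) (.two (nat_lit 4194319) (nat_lit 1358955109) (.two (nat_lit 68157448) (nat_lit 1962936347) (.two (nat_lit 605028357) (nat_lit 10552872363) (.two (nat_lit 34603009) (nat_lit 809506697) (.two (nat_lit 1048576) (nat_lit 16785010) (.one (nat_lit 1058188) .nil)))))),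
   .two (nat_lit 2994733122) (nat_lit 1948254340) (.two (nat_lit 639631375) (nat_lit 2994733413) (.two (nat_lit 2887778312) (nat_lit 746588693) (.two (nat_lit 2097153) (nat_lit 1317018247) (.one (nat_lit 337650711) .nil)))),
   .two (nat_lit 639631427) (nat_lit 157038936421) (.two (nat_lit 1277165576) (nat_lit 10372515890) (.two (nat_lit 639631365) (nat_lit 4197894) (.two (nat_lit 4194305) (nat_lit 28691142513) (.two (nat_lit 2097152) (nat_lit 166132193979) (.one (nat_lit 156567086044) .nil))))),
   .two (nat_lit 183928619073) (nat_lit 37246468208) (.two (nat_lit 184549391) (nat_lit 343933579) (.two (nat_lit 46984593416) (nat_lit 46422558031) (.two (nat_lit 2894069765) (nat_lit 285214237) (.two (nat_lit 8388609) (nat_lit 47596966892) (.two (nat_lit 1048576) (nat_lit 159251438187) (.one (nat_lit 780149972) .nil)))))),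
   .two (nat_lit 183853121602) (nat_lit 16777467) (.two (nat_lit 754974735) (nat_lit 11006903631) (.two (nat_lit 8388612) (nat_lit 83888659) (.two (nat_lit 41943041) (nat_lit 336598056) (.two (nat_lit 1048576) (nat_lit 19537074824) (.one (nat_lit 19604186352) .nil))))),
   .two (nat_lit 4605345856) (nat_lit 18941476988) (.two (nat_lit 620757007) (nat_lit 310378691) (.two (nat_lit 83886088) (nat_lit 847250812) (.two (nat_lit 2894069765) (nat_lit 11492396514) (.two (nat_lit 9765388289) (nat_lit 3464500238) (.two (nat_lit 1048576) (nat_lit 109058725) (.one (nat_lit 101721059) .nil)))))),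
   .two (nat_lit 285212736) (nat_lit 37253808247) (.two (nat_lit 285212687) (nat_lit 19537068664) (.two (nat_lit 285212680) (nat_lit 10007610705) (.two (nat_lit 16777220) (nat_lit 10343155229) (.two (nat_lit 8388609) (nat_lit 9915338632) (.two (nat_lit 1048576) (nat_lit 12155099723) (.one (nat_lit 4613743652) .nil)))))),
   .two (nat_lit 272629824) (nat_lit 46473937016) (.two (nat_lit 272629775) (nat_lit 166237045354) (.two (nat_lit 4194312) (nat_lit 880805406) (.two (nat_lit 41943041) (nat_lit 1950356549) (.two (nat_lit 1048576) (nat_lit 4201163) (.one (nat_lit 11614037240) .nil))))),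
   .two (nat_lit 11543773250) (nat_lit 8388861) (.two (nat_lit 169869327) (nat_lit 1216349513) (.two (nat_lit 176160772) (nat_lit 20738737694) (.two (nat_lit 34603009) (nat_lit 1210060685) (.two (nat_lit 8388608) (nat_lit 2920290932) (.one (nat_lit 1058191) .nil))))),
   .two (nat_lit 2902458433) (nat_lit 10376708220) (.two (nat_lit 713031695) (nat_lit 2969567903) (.two (nat_lit 2902458376) (nat_lit 20745028452) (.two (nat_lit 16777221) (nat_lit 13195281949) (.two (nat_lit 620756993) (nat_lit 20637028231) (.two (nat_lit 1048576) (nat_lit 8396405) (.one (nat_lit 1058192) .nil)))))),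
   .two (nat_lit 11559501888) (nat_lit 10503585910) (.two (nat_lit 620757007) (nat_lit 10504634726) (.two (nat_lit 11476664328) (nat_lit 50332957) (.two (nat_lit 806354949) (nat_lit 218106394) (.two (nat_lit 34603009) (nat_lit 1761612830) (.two (nat_lit 2097152) (nat_lit 4598012600) (.one (nat_lit 1175462962) .nil)))))),
   .two (nat_lit 13191086147) (nat_lit 19027460162) (.two (nat_lit 183848927247) (nat_lit 156533522627) (.two (nat_lit 183848927240) (nat_lit 11477714247) (.two (nat_lit 13191086085) (nat_lit 47582284314) (.two (nat_lit 156365750273) (nat_lit 239081302) (.two (nat_lit 2097152) (nat_lit 9936313924) (.one (nat_lit 2106770) .nil)))))),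
   .two (nat_lit 2969567297) (nat_lit 28793897092) (.two (nat_lit 9768534031) (nat_lit 3472884075) (.two (nat_lit 2969567240) (nat_lit 11614028644) (.two (nat_lit 2902458373) (nat_lit 10506733085) (.two (nat_lit 50331649) (nat_lit 11510225480) (.one (nat_lit 19026420855) .nil))))),
   .two (nat_lit 285212736) (nat_lit 158143086714) (.two (nat_lit 822083599) (nat_lit 19093521033) (.two (nat_lit 739246088) (nat_lit 285214032) (.two (nat_lit 2902458372) (nat_lit 1377832847) (.two (nat_lit 2097152) (nat_lit 20719868488) (.one (nat_lit 1058195) .nil))))),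
   .two (nat_lit 184986632256) (nat_lit 19142803578) (.two (nat_lit 50331663) (nat_lit 184419353237) (.two (nat_lit 50331656) (nat_lit 158179788101) (.two (nat_lit 605028357) (nat_lit 620758557) (.two (nat_lit 4194305) (nat_lit 3524270674) (.one (nat_lit 71312369) .nil))))),
   .two (nat_lit 20644364353) (nat_lit 11546919044) (.two (nat_lit 75497487) (nat_lit 285213291) (.two (nat_lit 75497480) (nat_lit 9814672709) (.two (nat_lit 612368389) (nat_lit 708840922) (.two (nat_lit 41943041) (nat_lit 9814678114) (.one (nat_lit 16786836) .nil))))),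
   .two (nat_lit 169869377) (nat_lit 10007609456) (.two (nat_lit 4194319) (nat_lit 780141922) (.two (nat_lit 34603013) (nat_lit 46980402618) (.two (nat_lit 2097153) (nat_lit 135270284) (.two (nat_lit 1048576) (nat_lit 10001324691) (.one (nat_lit 1913660760) .nil))))),
   .two (nat_lit 339738690) (nat_lit 3028287554) (.two (nat_lit 169869327) (nat_lit 2994733420) (.two (nat_lit 37748744) (nat_lit 20745028942) (.two (nat_lit 8388613) (nat_lit 235933115) (.two (nat_lit 606076929) (nat_lit 847254550) (.two (nat_lit 2097152) (nat_lit 166229711545) (.one (nat_lit 2106774) .nil)))))),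
   .two (nat_lit 11559501891) (nat_lit 3028287598) (.two (nat_lit 612368399) (nat_lit 754975587) (.two (nat_lit 11559501829) (nat_lit 184993974785) (.two (nat_lit 50331649) (nat_lit 184993976196) (.two (nat_lit 16777216) (nat_lit 8395470) (.one (nat_lit 3036685329) .nil))))),
   .two (nat_lit 12117344322) (nat_lit 2902458479) (.two (nat_lit 9781116943) (nat_lit 184419354142) (.two (nat_lit 16777217) (nat_lit 4200354) (.two (nat_lit 16777216) (nat_lit 11546925734) (.one (nat_lit 1178608900) .nil)))),
   .two (nat_lit 4638900289) (nat_lit 46510637122) (.two (nat_lit 813694991) (nat_lit 156535619948) (.two (nat_lit 68157448) (nat_lit 19100861761) (.two (nat_lit 12121538565) (nat_lit 2319452675) (.two (nat_lit 2097153) (nat_lit 775950225) (.two (nat_lit 1048576) (nat_lit 184987687583) (.one (nat_lit 11510227945) .nil)))))),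
   .two (nat_lit 11559501891) (nat_lit 4631560316) (.two (nat_lit 50331663) (nat_lit 159257723504) (.two (nat_lit 50331656) (nat_lit 37320918362) (.two (nat_lit 209715205) (nat_lit 822085149) (.two (nat_lit 8388609) (nat_lit 3003125650) (.two (nat_lit 8388608) (nat_lit 159266118249) (.one (nat_lit 8398232) .nil)))))),
   .two (nat_lit 16777281) (nat_lit 4605345858) (.two (nat_lit 4605345807) (nat_lit 2936014166) (.two (nat_lit 8388612) (nat_lit 21827162017) (.two (nat_lit 8388608) (nat_lit 352328377) (.one (nat_lit 176170144) .nil)))),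
   .two (nat_lit 2969567296) (nat_lit 13224640624) (.two (nat_lit 809500687) (nat_lit 2969568798) (.two (nat_lit 4194305) (nat_lit 19109254185) (.two (nat_lit 16777216) (nat_lit 4202103) (.one (nat_lit 16786843) .nil)))),
   .two (nat_lit 276824129) (nat_lit 1178599544) (.two (nat_lit 13191086095) (nat_lit 11543773855) (.two (nat_lit 41943048) (nat_lit 46977254750) (.two (nat_lit 209715205) (nat_lit 2100743) (.two (nat_lit 4194305) (nat_lit 1779439450) (.two (nat_lit 1048576) (nat_lit 4202105) (.one (nat_lit 1058204) .nil)))))),
   .two (nat_lit 2988441666) (nat_lit 16777470) (.two (nat_lit 9948889103) (nat_lit 47548727491) (.two (nat_lit 169869320) (nat_lit 28806481225) (.two (nat_lit 806354949) (nat_lit 16780808) (.two (nat_lit 606076929) (nat_lit 1053663) (.two (nat_lit 1048576) (nat_lit 2104015) (.one (nat_lit 2106781) .nil)))))),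
   .two (nat_lit 236978241) (nat_lit 158662131844) (.two (nat_lit 9948889103) (nat_lit 183947494018) (.two (nat_lit 3458203656) (nat_lit 11525948260) (.two (nat_lit 270532613) (nat_lit 620758557) (.two (nat_lit 9766436865) (nat_lit 3524270674) (.one (nat_lit 1058207) .nil))))),
   .two (nat_lit 4613734466) (nat_lit 4634706045) (.two (nat_lit 654311439) (nat_lit 20638073442) (.two (nat_lit 3539992584) (nat_lit 10372515141) (.two (nat_lit 2097157) (nat_lit 159232560566) (.two (nat_lit 34603009) (nat_lit 19096672889) (.one (nat_lit 18925757808) .nil))))),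
   .two (nat_lit 46980399169) (nat_lit 822083697) (.two (nat_lit 11492392975) (nat_lit 46980399971) (.two (nat_lit 11492392964) (nat_lit 4196910) (.two (nat_lit 37748737) (nat_lit 10519321187) (.one (nat_lit 4203801) .nil)))),
   .two (nat_lit 276824129) (nat_lit 183949590643) (.two (nat_lit 276824079) (nat_lit 183949591138) (.two (nat_lit 3527409672) (nat_lit 158653744502) (.two (nat_lit 34603013) (nat_lit 37249616411) (.two (nat_lit 37748737) (nat_lit 174753582988) (.two (nat_lit 8388608) (nat_lit 2104955) (.one (nat_lit 2106784) .nil)))))),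
   .two (nat_lit 1376780355) (nat_lit 20711473267) (.two (nat_lit 16777231) (nat_lit 3527410350) (.two (nat_lit 104857608) (nat_lit 605030954) (.two (nat_lit 50331649) (nat_lit 166129045383) (.two (nat_lit 8388608) (nat_lit 28790758028) (.one (nat_lit 1058209) .nil))))),
   .two (nat_lit 21785215043) (nat_lit 21793603710) (.two (nat_lit 1846542351) (nat_lit 12062819695) (.two (nat_lit 183861510149) (nat_lit 11484007937) (.two (nat_lit 156365750273) (nat_lit 1053766) (.two (nat_lit 2097152) (nat_lit 168827494) (.one (nat_lit 806364169) .nil))))),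
   .two (nat_lit 158083317827) (nat_lit 822083699) (.two (nat_lit 184993972239) (nat_lit 620758064) (.two (nat_lit 184993972232) (nat_lit 12129928568) (.two (nat_lit 713031684) (nat_lit 10955526039) (.two (nat_lit 8388608) (nat_lit 19042146973) (.one (nat_lit 620766601) .nil))))),
   .two (nat_lit 183949590593) (nat_lit 156372041840) (.two (nat_lit 11479810063) (nat_lit 10343154530) (.two (nat_lit 809500677) (nat_lit 9974058908) (.two (nat_lit 4194304) (nat_lit 2994738488) (.one (nat_lit 4638908551) .nil)))),
   .two (nat_lit 2902458434) (nat_lit 2319450244) (.two (nat_lit 156367847439) (nat_lit 10921968258) (.two (nat_lit 156367847432) (nat_lit 10552870220) (.two (nat_lit 9933160453) (nat_lit 16781190) (.two (nat_lit 1048576) (nat_lit 151000380) (.one (nat_lit 1058213) .nil))))),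
   .two (nat_lit 2969567296) (nat_lit 183845781621) (.two (nat_lit 10385096719) (nat_lit 12047090274) (.two (nat_lit 46407876616) (nat_lit 184431936811) (.two (nat_lit 34603013) (nat_lit 889195037) (.two (nat_lit 4194305) (nat_lit 1913657977) (.one (nat_lit 1058214) .nil))))),
   .two (nat_lit 9881780289) (nat_lit 3028287598) (.two (nat_lit 612368399) (nat_lit 159232558432) (.two (nat_lit 83886085) (nat_lit 184993976196) (.two (nat_lit 16777216) (nat_lit 47555025541) (.one (nat_lit 8398247) .nil)))),
   .two (nat_lit 183853121601) (nat_lit 251658372) (.two (nat_lit 16777231) (nat_lit 9873391976) (.two (nat_lit 218103816) (nat_lit 35652925) (.two (nat_lit 41943045) (nat_lit 285214237) (.two (nat_lit 2097153) (nat_lit 28798096338) (.two (nat_lit 8388608) (nat_lit 185021241935) (.one (nat_lit 2106792) .nil)))))),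
   .two (nat_lit 272629824) (nat_lit 3464495215) (.two (nat_lit 272629775) (nat_lit 47555019357) (.two (nat_lit 809500680) (nat_lit 47555020066) (.two (nat_lit 4194308) (nat_lit 184423550438) (.two (nat_lit 4194305) (nat_lit 28697433043) (.two (nat_lit 4194304) (nat_lit 3464502868) (.one (nat_lit 4203945) .nil)))))),
   .two (nat_lit 2902458435) (nat_lit 1417674862) (.two (nat_lit 285212687) (nat_lit 21785215843) (.two (nat_lit 16777220) (nat_lit 183853125510) (.two (nat_lit 16777216) (nat_lit 1350572657) (.one (nat_lit 4638909728) .nil)))),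
   .two (nat_lit 285212736) (nat_lit 11513364838) (.two (nat_lit 46409973768) (nat_lit 11492394270) (.two (nat_lit 4601151493) (nat_lit 822086142) (.two (nat_lit 4194305) (nat_lit 183962178624) (.two (nat_lit 16777216) (nat_lit 809507401) (.one (nat_lit 876618780) .nil))))),
   .two (nat_lit 11559501889) (nat_lit 9906946170) (.two (nat_lit 11559501839) (nat_lit 9873391977) (.two (nat_lit 11559501832) (nat_lit 9806284108) (.two (nat_lit 83886085) (nat_lit 158183983659) (.two (nat_lit 8388609) (nat_lit 2936016776) (.two (nat_lit 1048576) (nat_lit 9974061693) (.one (nat_lit 1058221) .nil)))))),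
   .two (nat_lit 2969567296) (nat_lit 47547678845) (.two (nat_lit 9948889103) (nat_lit 184417256085) (.two (nat_lit 1291845640) (nat_lit 158177690949) (.two (nat_lit 46407876612) (nat_lit 1343228430) (.two (nat_lit 605028353) (nat_lit 11477717980) (.two (nat_lit 1048576) (nat_lit 706746964) (.one (nat_lit 2106798) .nil)))))),
   .two (nat_lit 16777280) (nat_lit 18933088323) (.two (nat_lit 46414168079) (nat_lit 50331843) (.two (nat_lit 46414168072) (nat_lit 50333213) (.two (nat_lit 8388609) (nat_lit 158158820669) (.one (nat_lit 16786863) .nil)))),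
   .two (nat_lit 158192369730) (nat_lit 10335813764) (.two (nat_lit 620757007) (nat_lit 28798092643) (.two (nat_lit 209715205) (nat_lit 11626614689) (.two (nat_lit 8388608) (nat_lit 16784082) (.one (nat_lit 16786865) .nil)))),
   .two (nat_lit 1358954563) (nat_lit 37253808256) (.two (nat_lit 620757007) (nat_lit 159224168643) (.two (nat_lit 612368392) (nat_lit 9948890653) (.two (nat_lit 8388609) (nat_lit 3472887704) (.two (nat_lit 8388608) (nat_lit 47563414138) (.one (nat_lit 16786866) .nil))))),
   .two (nat_lit 754974787) (nat_lit 159224168563) (.two (nat_lit 11559501839) (nat_lit 813696339) (.two (nat_lit 721420292) (nat_lit 166136385431) (.two (nat_lit 8388608) (nat_lit 18941483592) (.one (nat_lit 721429616) .nil)))),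
   .two (nat_lit 2969567298) (nat_lit 11477713029) (.two (nat_lit 620757007) (nat_lit 1283457667) (.two (nat_lit 83886088) (nat_lit 310379842) (.two (nat_lit 12121538565) (nat_lit 1291848192) (.two (nat_lit 16777217) (nat_lit 176165857) (.two (nat_lit 2097152) (nat_lit 2936018238) (.one (nat_lit 16786867) .nil)))))),
   .two (nat_lit 16777280) (nat_lit 2886729852) (.two (nat_lit 620757007) (nat_lit 21811430024) (.two (nat_lit 185002360840) (nat_lit 1376781602) (.two (nat_lit 1276116996) (nat_lit 158647454216) (.two (nat_lit 2097153) (nat_lit 1392514117) (.two (nat_lit 2097152) (nat_lit 10452212312) (.one (nat_lit 2332042495) .nil)))))),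
   .two (nat_lit 8388672) (nat_lit 1048832) (.two (nat_lit 75497487) (nat_lit 672137863) (.two (nat_lit 654311432) (nat_lit 158646405653) (.two (nat_lit 16777217) (nat_lit 3020953498) (.two (nat_lit 2097152) (nat_lit 1056391) (.one (nat_lit 2106809) .nil))))),
   .two (nat_lit 754974785) (nat_lit 158646403322) (.two (nat_lit 10336862223) (nat_lit 12062818947) (.two (nat_lit 654311432) (nat_lit 69206884) (.two (nat_lit 270532613) (nat_lit 822085149) (.two (nat_lit 2097153) (nat_lit 184556242) (.one (nat_lit 1058234) .nil))))),
   .two (nat_lit 11543773248) (nat_lit 158083317827) (.two (nat_lit 1343225871) (nat_lit 28093448790) (.two (nat_lit 11543773192) (nat_lit 20644366848) (.two (nat_lit 34603009) (nat_lit 28697431961) (.two (nat_lit 1048576) (nat_lit 41949885) (.one (nat_lit 19134424410) .nil))))),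
   .two (nat_lit 285212736) (nat_lit 37316723049) (.two (nat_lit 37748744) (nat_lit 822084894) (.two (nat_lit 4194308) (nat_lit 156581759517) (.two (nat_lit 4194305) (nat_lit 158177695643) (.two (nat_lit 4194304) (nat_lit 304093887) (.one (nat_lit 2106812) .nil))))),
   .two (nat_lit 8388672) (nat_lit 2969567298) (.two (nat_lit 2969567247) (nat_lit 10913580361) (.two (nat_lit 184549380) (nat_lit 2323648417) (.two (nat_lit 16777216) (nat_lit 184423553629) (.one (nat_lit 880813285) .nil)))),
   .two (nat_lit 46510637121) (nat_lit 10544480389) (.two (nat_lit 13195280399) (nat_lit 9869198005) (.two (nat_lit 68157448) (nat_lit 142607689) (.two (nat_lit 1916796933) (nat_lit 174759874451) (.two (nat_lit 4194304) (nat_lit 158143093370) (.one (nat_lit 1058237) .nil))))),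
   .two (nat_lit 2969567296) (nat_lit 1914699894) (.two (nat_lit 654311439) (nat_lit 606077620) (.two (nat_lit 46407876616) (nat_lit 165540791623) (.two (nat_lit 4599054341) (nat_lit 117443098) (.two (nat_lit 2097153) (nat_lit 10351547422) (.two (nat_lit 1048576) (nat_lit 1277172335) (.one (nat_lit 806364276) .nil)))))),
   .two (nat_lit 159224168515) (nat_lit 156533522542) (.two (nat_lit 3525312527) (nat_lit 20644365154) (.two (nat_lit 3525312517) (nat_lit 20644366850) (.two (nat_lit 2097153) (nat_lit 10007613318) (.two (nat_lit 2097152) (nat_lit 13228841670) (.one (nat_lit 169878506) .nil))))),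
   .two (nat_lit 166130090051) (nat_lit 183920230519) (.two (nat_lit 176160783) (nat_lit 3525313575) (.two (nat_lit 2961178632) (nat_lit 156533523298) (.two (nat_lit 806354949) (nat_lit 11618224642) (.two (nat_lit 2097153) (nat_lit 10947137438) (.two (nat_lit 1048576) (nat_lit 1411390145) (.one (nat_lit 1411392627) .nil)))))),
   .two (nat_lit 3527409728) (nat_lit 822083693) (.two (nat_lit 822083599) (nat_lit 159219975521) (.two (nat_lit 16777220) (nat_lit 174755679753) (.two (nat_lit 4194305) (nat_lit 16784064) (.one (nat_lit 4203966) .nil)))),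
   .two (nat_lit 184549443) (nat_lit 184419352827) (.two (nat_lit 16777231) (nat_lit 184989778283) (.two (nat_lit 16777224) (nat_lit 809502061) (.two (nat_lit 69206021) (nat_lit 19042144136) (.two (nat_lit 4194304) (nat_lit 11477719650) (.one (nat_lit 2106815) .nil))))),
   .two (nat_lit 9768534083) (nat_lit 158091706500) (.two (nat_lit 612368399) (nat_lit 9936307525) (.two (nat_lit 47555018757) (nat_lit 12117345821) (.two (nat_lit 8388609) (nat_lit 4601155489) (.two (nat_lit 16777216) (nat_lit 11614034576) (.one (nat_lit 4203969) .nil))))),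
   .two (nat_lit 9948889155) (nat_lit 10001318011) (.two (nat_lit 9948889103) (nat_lit 1210057773) (.two (nat_lit 46407876616) (nat_lit 721421652) (.two (nat_lit 806354949) (nat_lit 16780811) (.two (nat_lit 2097153) (nat_lit 9781122098) (.two (nat_lit 16777216) (nat_lit 47547685502) (.one (nat_lit 1058116) .nil)))))),
   .two (nat_lit 158144135232) (nat_lit 343933041) (.two (nat_lit 21208498191) (nat_lit 4605346398) (.two (nat_lit 47555018760) (nat_lit 28758246941) (.two (nat_lit 8388609) (nat_lit 19597889432) (.two (nat_lit 2097152) (nat_lit 21785221809) (.one (nat_lit 2106818) .nil))))),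
   .two (nat_lit 46414168131) (nat_lit 11543773298) (.two (nat_lit 169869327) (nat_lit 343933285) (.two (nat_lit 169869320) (nat_lit 75499575) (.two (nat_lit 1276116996) (nat_lit 2099759) (.two (nat_lit 8388609) (nat_lit 158647457639) (.two (nat_lit 1048576) (nat_lit 69213799) (.one (nat_lit 1058243) .nil)))))),
   .two (nat_lit 721420353) (nat_lit 19027460209) (.two (nat_lit 83886095) (nat_lit 21778923879) (.two (nat_lit 83886088) (nat_lit 183947494747) (.two (nat_lit 620756997) (nat_lit 21208501765) (.two (nat_lit 620756993) (nat_lit 706744217) (.two (nat_lit 2097152) (nat_lit 13237230281) (.one (nat_lit 2106820) .nil)))))),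
   .two (nat_lit 276824129) (nat_lit 13224640620) (.two (nat_lit 41943055) (nat_lit 156466414941) (.two (nat_lit 11484004357) (nat_lit 9899609556) (.two (nat_lit 605028353) (nat_lit 2990542736) (.two (nat_lit 1048576) (nat_lit 8396427) (.one (nat_lit 8396955) .nil))))),
   .two (nat_lit 2889875522) (nat_lit 780140908) (.two (nat_lit 2889875464) (nat_lit 10343155018) (.two (nat_lit 272629765) (nat_lit 8392205) (.two (nat_lit 9781116929) (nat_lit 47550831277) (.one (nat_lit 4203975) .nil)))),
   .two (nat_lit 2961178690) (nat_lit 1847591025) (.two (nat_lit 2961178639) (nat_lit 337642340) (.two (nat_lit 171966469) (nat_lit 880805405) (.two (nat_lit 37748737) (nat_lit 780145644) (.two (nat_lit 2097152) (nat_lit 47547685550) (.one (nat_lit 1058248) .nil))))),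
   .two (nat_lit 47555018817) (nat_lit 1849688192) (.two (nat_lit 809500687) (nat_lit 183953785192) (.two (nat_lit 4194312) (nat_lit 10007610654) (.two (nat_lit 159216828421) (nat_lit 184423549455) (.two (nat_lit 37748737) (nat_lit 10000274489) (.two (nat_lit 1048576) (nat_lit 158079130206) (.one (nat_lit 4203977) .nil)))))),
   .two (nat_lit 46474985539) (nat_lit 9948889197) (.two (nat_lit 9948889103) (nat_lit 270534018) (.two (nat_lit 3525312517) (nat_lit 1795164673) (.two (nat_lit 2097153) (nat_lit 184556211) (.one (nat_lit 203432924) .nil)))),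
   .two (nat_lit 9768534083) (nat_lit 156372041795) (.two (nat_lit 11479810063) (nat_lit 4605345987) (.two (nat_lit 11479810056) (nat_lit 4605347357) (.two (nat_lit 37748737) (nat_lit 37320922429) (.one (nat_lit 8398283) .nil)))),
   .two (nat_lit 2954887232) (nat_lit 159250382963) (.two (nat_lit 41943055) (nat_lit 46977254713) (.two (nat_lit 806354949) (nat_lit 12624857613) (.two (nat_lit 8388609) (nat_lit 4027585495) (.two (nat_lit 1048576) (nat_lit 8396433) (.one (nat_lit 10510935003) .nil))))),
   .two (nat_lit 772800577) (nat_lit 1291845746) (.two (nat_lit 9881780239) (nat_lit 135267170) (.two (nat_lit 11543773189) (nat_lit 2969571205) (.two (nat_lit 16777216) (nat_lit 2953845322) (.one (nat_lit 788537480) .nil)))),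
   .two (nat_lit 183912890435) (nat_lit 20753416314) (.two (nat_lit 9781116943) (nat_lit 2921333408) (.two (nat_lit 3539992584) (nat_lit 1948256811) (.two (nat_lit 16777217) (nat_lit 185021239178) (.two (nat_lit 2097152) (nat_lit 2953845324) (.one (nat_lit 35661195) .nil))))),
   .two (nat_lit 47548727360) (nat_lit 2936012919) (.two (nat_lit 654311439) (nat_lit 13222544690) (.two (nat_lit 169869316) (nat_lit 50334227) (.two (nat_lit 37748737) (nat_lit 11544828581) (.one (nat_lit 9902761005) .nil)))),
   .two (nat_lit 4605345858) (nat_lit 19029557315) (.two (nat_lit 3527409679) (nat_lit 156372041923) (.two (nat_lit 3527409672) (nat_lit 46414169630) (.two (nat_lit 4194305) (nat_lit 185027532093) (.one (nat_lit 8396974) .nil)))),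
   .two (nat_lit 2969567297) (nat_lit 11584667757) (.two (nat_lit 620757007) (nat_lit 156539815212) (.two (nat_lit 184549380) (nat_lit 21785218474) (.two (nat_lit 16777217) (nat_lit 1216353279) (.two (nat_lit 2097152) (nat_lit 156573375051) (.one (nat_lit 2106836) .nil))))),
   .two (nat_lit 11559501889) (nat_lit 772800579) (.two (nat_lit 11559501839) (nat_lit 184986632387) (.two (nat_lit 705691656) (nat_lit 50332957) (.two (nat_lit 34603013) (nat_lit 754978298) (.two (nat_lit 2097153) (nat_lit 20737694371) (.one (nat_lit 68166794) .nil))))),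
   .two (nat_lit 4605345856) (nat_lit 2316304451) (.two (nat_lit 18933088271) (nat_lit 2316304992) (.two (nat_lit 13195280392) (nat_lit 156566030855) (.two (nat_lit 8388609) (nat_lit 1343230943) (.two (nat_lit 8388608) (nat_lit 183845788282) (.one (nat_lit 9866060735) .nil))))),
   .two (nat_lit 2902458434) (nat_lit 1413480572) (.two (nat_lit 156367847439) (nat_lit 10921968258) (.two (nat_lit 156367847432) (nat_lit 3036677485) (.two (nat_lit 171966469) (nat_lit 16781190) (.two (nat_lit 1048576) (nat_lit 151000380) (.one (nat_lit 2953847889) .nil))))),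
   .two (nat_lit 21208498241) (nat_lit 2969567347) (.two (nat_lit 21208498191) (nat_lit 3539993976) (.two (nat_lit 1277165573) (nat_lit 721424262) (.two (nat_lit 2097152) (nat_lit 16784083) (.one (nat_lit 28758254748) .nil)))),
   .two (nat_lit 21811429443) (nat_lit 8388868) (.two (nat_lit 1779433487) (nat_lit 4195386) (.two (nat_lit 10942939144) (nat_lit 2349860187) (.two (nat_lit 28089253893) (nat_lit 156364704259) (.two (nat_lit 620756993) (nat_lit 19529731991) (.two (nat_lit 16777216) (nat_lit 158075984541) (.one (nat_lit 873473007) .nil)))))),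
   .two (nat_lit 11559501888) (nat_lit 21781020797) (.two (nat_lit 11559501839) (nat_lit 4027581077) (.two (nat_lit 754974728) (nat_lit 183946446149) (.two (nat_lit 809500677) (nat_lit 19612568069) (.two (nat_lit 37748737) (nat_lit 202380252) (.two (nat_lit 4194304) (nat_lit 1055316) (.one (nat_lit 1058265) .nil)))))),
   .two (nat_lit 183853121601) (nat_lit 18926796913) (.two (nat_lit 2969567247) (nat_lit 10504634563) (.two (nat_lit 620757000) (nat_lit 8391176) (.two (nat_lit 2097153) (nat_lit 1350569863) (.two (nat_lit 8388608) (nat_lit 11544828502) (.one (nat_lit 2106843) .nil))))),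
   .two (nat_lit 28758245443) (nat_lit 4638900483) (.two (nat_lit 8388623) (nat_lit 166197199206) (.two (nat_lit 1178599432) (nat_lit 4028630338) (.two (nat_lit 158150426629) (nat_lit 11007954423) (.two (nat_lit 37748737) (nat_lit 18926802813) (.two (nat_lit 2097152) (nat_lit 339745403) (.one (nat_lit 4203996) .nil)))))),
   .two (nat_lit 8388674) (nat_lit 12114198776) (.two (nat_lit 8388623) (nat_lit 2987393706) (.two (nat_lit 3464495112) (nat_lit 11513365839) (.two (nat_lit 156372041733) (nat_lit 9936308754) (.two (nat_lit 156372041729) (nat_lit 174755680141) (.two (nat_lit 4194304) (nat_lit 37253814871) (.one (nat_lit 8398304) .nil)))))),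
   .two (nat_lit 285212738) (nat_lit 28693233730) (.two (nat_lit 285212687) (nat_lit 156971827557) (.two (nat_lit 28693233672) (nat_lit 19142805559) (.two (nat_lit 1916796933) (nat_lit 3003125254) (.two (nat_lit 9768534017) (nat_lit 156581762073) (.two (nat_lit 4194304) (nat_lit 654318267) (.one (nat_lit 16786913) .nil)))))),
   .two (nat_lit 16777280) (nat_lit 18933088323) (.two (nat_lit 184549391) (nat_lit 2994733746) (.two (nat_lit 46414168072) (nat_lit 721421598) (.two (nat_lit 4605345797) (nat_lit 50334206) (.two (nat_lit 8388609) (nat_lit 16782340) (.two (nat_lit 16777216) (nat_lit 41949769) (.one (nat_lit 2969576514) .nil)))))),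
   .two (nat_lit 218103873) (nat_lit 1310720115) (.two (nat_lit 21208498191) (nat_lit 218104674) (.two (nat_lit 1277165573) (nat_lit 184553350) (.two (nat_lit 2097152) (nat_lit 19042146965) (.one (nat_lit 2106851) .nil)))),
   .two (nat_lit 4605345859) (nat_lit 165540790396) (.two (nat_lit 50331663) (nat_lit 46481277291) (.two (nat_lit 721420296) (nat_lit 679478604) (.two (nat_lit 3531603973) (nat_lit 16779824) (.two (nat_lit 8388609) (nat_lit 16781219) (.two (nat_lit 1048576) (nat_lit 9940507208) (.one (nat_lit 10503595153) .nil)))))),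
   .two (nat_lit 11618222145) (nat_lit 11610882114) (.two (nat_lit 11543773199) (nat_lit 1950351717) (.two (nat_lit 2887778312) (nat_lit 20640171318) (.two (nat_lit 13195280389) (nat_lit 19027462663) (.two (nat_lit 156372041729) (nat_lit 3458207640) (.two (nat_lit 1048576) (nat_lit 185023339143) (.one (nat_lit 4204005) .nil)))))),
   .two (nat_lit 16777280) (nat_lit 4605345859) (.two (nat_lit 46414168079) (nat_lit 50331843) (.two (nat_lit 46414168072) (nat_lit 654312821) (.two (nat_lit 4605345797) (nat_lit 10016000541) (.two (nat_lit 8388609) (nat_lit 721425462) (.two (nat_lit 2097152) (nat_lit 47588580003) (.one (nat_lit 8398311) .nil)))))),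
   .two (nat_lit 1947205699) (nat_lit 1950351468) (.two (nat_lit 159224168463) (nat_lit 4194953) (.two (nat_lit 276824072) (nat_lit 156569175325) (.two (nat_lit 183848927236) (nat_lit 156364704259) (.two (nat_lit 41943041) (nat_lit 183845785489) (.two (nat_lit 1048576) (nat_lit 8395477) (.one (nat_lit 184423556548) .nil)))))),
   .two (nat_lit 2923429953) (nat_lit 9915334775) (.two (nat_lit 9881780239) (nat_lit 156968682146) (.two (nat_lit 3539992584) (nat_lit 9802089314) (.two (nat_lit 272629765) (nat_lit 9948890653) (.two (nat_lit 4194305) (nat_lit 2936016797) (.two (nat_lit 1048576) (nat_lit 18941483600) (.one (nat_lit 1058281) .nil)))))),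
   .two (nat_lit 47548727362) (nat_lit 28772925569) (.two (nat_lit 37748751) (nat_lit 10452206204) (.two (nat_lit 13195280392) (nat_lit 159219976748) (.two (nat_lit 8388609) (nat_lit 11559508680) (.one (nat_lit 4204010) .nil)))),
   .two (nat_lit 184993972291) (nat_lit 183912890479) (.two (nat_lit 11543773199) (nat_lit 1753219938) (.two (nat_lit 705691652) (nat_lit 183853125509) (.two (nat_lit 1048576) (nat_lit 310383928) (.one (nat_lit 11584676008) .nil)))),
   .two (nat_lit 11559501888) (nat_lit 46977253499) (.two (nat_lit 169869327) (nat_lit 822083779) (.two (nat_lit 705691656) (nat_lit 10921968945) (.two (nat_lit 12047089669) (nat_lit 606079502) (.two (nat_lit 606076929) (nat_lit 2886734812) (.two (nat_lit 2097152) (nat_lit 168827476) (.one (nat_lit 156566037638) .nil)))))),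
   .two (nat_lit 3464495169) (nat_lit 2923430018) (.two (nat_lit 272629775) (nat_lit 880804506) (.two (nat_lit 37748744) (nat_lit 47555020318) (.two (nat_lit 606076929) (nat_lit 775950227) (.two (nat_lit 2097152) (nat_lit 4202142) (.one (nat_lit 4204012) .nil))))),
   .two (nat_lit 218103874) (nat_lit 11618222193) (.two (nat_lit 41943055) (nat_lit 654312290) (.two (nat_lit 2969567237) (nat_lit 10544484246) (.two (nat_lit 16777216) (nat_lit 2927629624) (.one (nat_lit 8398317) .nil)))),
   .two (nat_lit 9781116995) (nat_lit 11513364546) (.two (nat_lit 11492392975) (nat_lit 1212154213) (.two (nat_lit 18928893960) (nat_lit 46422558770) (.two (nat_lit 13191086085) (nat_lit 185002364422) (.two (nat_lit 37748737) (nat_lit 2902465211) (.one (nat_lit 272639057) .nil))))),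
   .two (nat_lit 47596961859) (nat_lit 12617515121) (.two (nat_lit 654311439) (nat_lit 156532474215) (.two (nat_lit 11543773192) (nat_lit 218104674) (.two (nat_lit 705691652) (nat_lit 150997507) (.two (nat_lit 16777217) (nat_lit 1053762) (.two (nat_lit 16777216) (nat_lit 11510225561) (.one (nat_lit 1058287) .nil)))))),
   .two (nat_lit 4601151552) (nat_lit 2357198966) (.two (nat_lit 75497487) (nat_lit 13191086275) (.two (nat_lit 11551113224) (nat_lit 9969861959) (.two (nat_lit 612368389) (nat_lit 165528209967) (.two (nat_lit 41943041) (nat_lit 71308318) (.two (nat_lit 2097152) (nat_lit 109058744) (.one (nat_lit 8398320) .nil)))))),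
   .two (nat_lit 16777280) (nat_lit 269484156) (.two (nat_lit 620757007) (nat_lit 158646403768) (.two (nat_lit 50331656) (nat_lit 4598007139) (.two (nat_lit 721420292) (nat_lit 11577329182) (.two (nat_lit 8388609) (nat_lit 21793610443) (.one (nat_lit 16786929) .nil))))),
   .two (nat_lit 11559501890) (nat_lit 3028287553) (.two (nat_lit 11559501839) (nat_lit 1384121728) (.two (nat_lit 721420292) (nat_lit 1417677312) (.two (nat_lit 50331649) (nat_lit 8394684) (.two (nat_lit 16777216) (nat_lit 8395479) (.one (nat_lit 10552878272) .nil))))),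
   .two (nat_lit 2994733123) (nat_lit 166144770167) (.two (nat_lit 3464495119) (nat_lit 10351542914) (.two (nat_lit 3464495112) (nat_lit 159266112877) (.two (nat_lit 3527409669) (nat_lit 218106386) (.two (nat_lit 4194305) (nat_lit 156539820665) (.one (nat_lit 37262206123) .nil))))),
   .two (nat_lit 158143086656) (nat_lit 3458203770) (.two (nat_lit 166130089999) (nat_lit 20704134480) (.two (nat_lit 1914699781) (nat_lit 34606984) (.two (nat_lit 2097152) (nat_lit 873470550) (.one (nat_lit 8398323) .nil)))),
   .two (nat_lit 9881780289) (nat_lit 2420113530) (.two (nat_lit 1795162127) (nat_lit 21781021365) (.two (nat_lit 4194312) (nat_lit 9881782786) (.two (nat_lit 16777217) (nat_lit 166232854408) (.two (nat_lit 1048576) (nat_lit 10372520534) (.one (nat_lit 4204020) .nil))))),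
   .two (nat_lit 3527409728) (nat_lit 11476664449) (.two (nat_lit 2961178639) (nat_lit 339739285) (.two (nat_lit 46407876616) (nat_lit 21814576459) (.two (nat_lit 176160772) (nat_lit 10338962882) (.two (nat_lit 2097153) (nat_lit 12054434786) (.two (nat_lit 8388608) (nat_lit 1056418) (.one (nat_lit 28093457350) .nil)))))),
   .two (nat_lit 9934209091) (nat_lit 166132187202) (.two (nat_lit 10370416655) (nat_lit 1312818555) (.two (nat_lit 9934209029) (nat_lit 37316726680) (.two (nat_lit 2097152) (nat_lit 1749030205) (.one (nat_lit 2106870) .nil)))),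
   .two (nat_lit 183912890433) (nat_lit 310378618) (.two (nat_lit 9768534031) (nat_lit 1913651557) (.two (nat_lit 1350565896) (nat_lit 19093521250) (.two (nat_lit 605028357) (nat_lit 20644368288) (.two (nat_lit 4194304) (nat_lit 1056419) (.one (nat_lit 165528216656) .nil))))),
   .two (nat_lit 12117344323) (nat_lit 2097414) (.two (nat_lit 9948889103) (nat_lit 20705181891) (.two (nat_lit 16777224) (nat_lit 47582283099) (.two (nat_lit 285212677) (nat_lit 18928896532) (.two (nat_lit 16777217) (nat_lit 675286941) (.two (nat_lit 4194304) (nat_lit 807410262) (.one (nat_lit 2106871) .nil)))))),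
   .two (nat_lit 285212736) (nat_lit 11513364545) (.two (nat_lit 285212687) (nat_lit 71303799) (.two (nat_lit 183848927240) (nat_lit 822084895) (.two (nat_lit 809500677) (nat_lit 50334206) (.two (nat_lit 37748737) (nat_lit 9948894212) (.two (nat_lit 4194304) (nat_lit 4647295656) (.one (nat_lit 1782588621) .nil)))))),
   .two (nat_lit 2969567298) (nat_lit 46481277047) (.two (nat_lit 2969567247) (nat_lit 13228835516) (.two (nat_lit 2969567240) (nat_lit 46514832228) (.two (nat_lit 184549380) (nat_lit 13228837408) (.two (nat_lit 9766436865) (nat_lit 13228838803) (.two (nat_lit 2097152) (nat_lit 183953792474) (.one (nat_lit 16786938) .nil)))))),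
   .two (nat_lit 156535619651) (nat_lit 9798942833) (.two (nat_lit 117440527) (nat_lit 19596837227) (.two (nat_lit 19532873736) (nat_lit 1745880410) (.two (nat_lit 184416206853) (nat_lit 708839939) (.two (nat_lit 34603009) (nat_lit 11580477324) (.two (nat_lit 1048576) (nat_lit 1379932888) (.one (nat_lit 4204028) .nil)))))),
   .two (nat_lit 11543773248) (nat_lit 16777351) (.two (nat_lit 620757007) (nat_lit 4027581749) (.two (nat_lit 184549380) (nat_lit 336595466) (.two (nat_lit 16777217) (nat_lit 46406834773) (.one (nat_lit 138421364) .nil)))),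
   .two (nat_lit 156367847491) (nat_lit 1191182448) (.two (nat_lit 9781116943) (nat_lit 1212154722) (.two (nat_lit 2902458373) (nat_lit 9869199881) (.two (nat_lit 16777217) (nat_lit 742396885) (.two (nat_lit 4194304) (nat_lit 47596967224) (.one (nat_lit 28793906864) .nil))))),
   .two (nat_lit 8388672) (nat_lit 1410334831) (.two (nat_lit 169869327) (nat_lit 880804035) (.two (nat_lit 13195280392) (nat_lit 12147754375) (.two (nat_lit 13187940357) (nat_lit 2323646986) (.two (nat_lit 41943041) (nat_lit 18926800780) (.two (nat_lit 2097152) (nat_lit 166203497090) (.one (nat_lit 158177697951) .nil)))))),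
   .two (nat_lit 3525312576) (nat_lit 46510637172) (.two (nat_lit 272629775) (nat_lit 20638074185) (.two (nat_lit 4194308) (nat_lit 19027461662) (.two (nat_lit 4194305) (nat_lit 1310726835) (.one (nat_lit 19530785962) .nil)))),
   .two (nat_lit 9948889155) (nat_lit 174686470257) (.two (nat_lit 10336862223) (nat_lit 10385097570) (.two (nat_lit 46407876612) (nat_lit 156984414103) (.two (nat_lit 2097152) (nat_lit 151001968) .nil))),
   .two (nat_lit 4601151554) (nat_lit 3539992693) (.two (nat_lit 37748751) (nat_lit 10015998600) (.two (nat_lit 11476664328) (nat_lit 3560965427) (.two (nat_lit 721420292) (nat_lit 20640173540) (.two (nat_lit 606076929) (nat_lit 1413486446) (.two (nat_lit 2097152) (nat_lit 16785061) (.one (nat_lit 2106878) .nil)))))),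
   .two (nat_lit 2969567298) (nat_lit 183949590595) (.two (nat_lit 272629775) (nat_lit 156481094963) (.two (nat_lit 2889875461) (nat_lit 822086166) (.two (nat_lit 16777217) (nat_lit 1916803771) (.one (nat_lit 28705826238) .nil)))),
   .two (nat_lit 9948889155) (nat_lit 166230753398) (.two (nat_lit 9948889103) (nat_lit 20638073494) (.two (nat_lit 46407876616) (nat_lit 2969568543) (.two (nat_lit 806354949) (nat_lit 16779774) (.two (nat_lit 2097153) (nat_lit 1761612789) (.two (nat_lit 16777216) (nat_lit 270540260) (.one (nat_lit 202384663) .nil)))))),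
   .two (nat_lit 2969567299) (nat_lit 174686470211) (.two (nat_lit 46978301967) (nat_lit 11626612093) (.two (nat_lit 3525312517) (nat_lit 37262200727) (.two (nat_lit 2097152) (nat_lit 20652758330) (.one (nat_lit 28705824919) .nil)))),
   .two (nat_lit 2969567296) (nat_lit 236978242) (.two (nat_lit 3458203663) (nat_lit 9948889283) (.two (nat_lit 3458203656) (nat_lit 2969568798) (.two (nat_lit 2097153) (nat_lit 19109254461) (.one (nat_lit 21812487337) .nil)))),
   .two (nat_lit 218103874) (nat_lit 2097288) (.two (nat_lit 2902458383) (nat_lit 171967332) (.two (nat_lit 69206021) (nat_lit 2969571205) (.two (nat_lit 2097152) (nat_lit 19612570939) (.one (nat_lit 1962942637) .nil)))),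
   .two (nat_lit 2969567298) (nat_lit 21785215086) (.two (nat_lit 2969567247) (nat_lit 21785215171) (.two (nat_lit 75497480) (nat_lit 654312989) (.two (nat_lit 16777217) (nat_lit 46514835336) (.two (nat_lit 8388608) (nat_lit 2936019584) (.one (nat_lit 11525956541) .nil))))),
   .two (nat_lit 3527409730) (nat_lit 183853121651) (.two (nat_lit 157038936079) (nat_lit 880805159) (.two (nat_lit 46414168069) (nat_lit 708841352) (.two (nat_lit 4194304) (nat_lit 184993979091) (.one (nat_lit 4204034) .nil)))),
   .two (nat_lit 3021996097) (nat_lit 16777456) (.two (nat_lit 37748751) (nat_lit 13237223788) (.two (nat_lit 11492392968) (nat_lit 3021996899) (.two (nat_lit 2969567237) (nat_lit 2349861383) (.two (nat_lit 37748737) (nat_lit 807408662) (.two (nat_lit 4194304) (nat_lit 304093831) (.one (nat_lit 2106883) .nil)))))),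
   .two (nat_lit 11513364545) (nat_lit 166230753393) (.two (nat_lit 18928893967) (nat_lit 773850461) (.two (nat_lit 2887778308) (nat_lit 166232854430) (.two (nat_lit 2097152) (nat_lit 809507529) (.one (nat_lit 3560973466) .nil)))),
   .two (nat_lit 272629826) (nat_lit 3464495219) (.two (nat_lit 272629775) (nat_lit 3464495717) (.two (nat_lit 272629768) (nat_lit 3028288807) (.two (nat_lit 4194308) (nat_lit 343934493) (.two (nat_lit 4194305) (nat_lit 75504317) (.one (nat_lit 4204038) .nil))))),
   .two (nat_lit 21208498243) (nat_lit 2969567341) (.two (nat_lit 158144135183) (nat_lit 2902459234) (.two (nat_lit 1277165572) (nat_lit 16781190) (.two (nat_lit 2097152) (nat_lit 158662138459) (.one (nat_lit 158192379074) .nil)))),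
   .two (nat_lit 3458203715) (nat_lit 1782579332) (.two (nat_lit 47548727311) (nat_lit 2319450780) (.two (nat_lit 10942939144) (nat_lit 2418018822) (.two (nat_lit 16777217) (nat_lit 47584385622) (.one (nat_lit 2106888) .nil)))),
   .two (nat_lit 19596836931) (nat_lit 10007609460) (.two (nat_lit 156968681487) (nat_lit 184423547518) (.two (nat_lit 184993972232) (nat_lit 34605574) (.two (nat_lit 612368385) (nat_lit 168824714) (.two (nat_lit 1048576) (nat_lit 158653749853) (.one (nat_lit 1410344022) .nil))))),
   .two (nat_lit 4601151552) (nat_lit 11544821887) (.two (nat_lit 157036838927) (nat_lit 4601151683) (.two (nat_lit 3460300808) (nat_lit 12148802861) (.two (nat_lit 705691652) (nat_lit 10001321494) (.two (nat_lit 156367847425) (nat_lit 1055356) (.one (nat_lit 10000278517) .nil))))),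
   .two (nat_lit 9866051651) (nat_lit 620757102) (.two (nat_lit 9948889103) (nat_lit 18925748918) (.two (nat_lit 9948889096) (nat_lit 21811430243) (.two (nat_lit 16777220) (nat_lit 303042439) (.two (nat_lit 16777216) (nat_lit 37313583793) (.one (nat_lit 151004483) .nil))))),
   .two (nat_lit 3527409728) (nat_lit 158144135406) (.two (nat_lit 9934209039) (nat_lit 28793898291) (.two (nat_lit 1277165573) (nat_lit 19130223130) (.two (nat_lit 2097153) (nat_lit 742398572) (.one (nat_lit 4204041) .nil)))),
   .two (nat_lit 2969567297) (nat_lit 11584667757) (.two (nat_lit 2969567247) (nat_lit 10437526370) (.two (nat_lit 166130089988) (nat_lit 12054432283) (.two (nat_lit 9766436865) (nat_lit 9873396708) (.two (nat_lit 2097152) (nat_lit 156573375051) (.one (nat_lit 16786954) .nil))))),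
   .two (nat_lit 4601151555) (nat_lit 654311532) (.two (nat_lit 46409973775) (nat_lit 1795162709) (.two (nat_lit 2902458376) (nat_lit 742393145) (.two (nat_lit 2902458372) (nat_lit 205524442) (.two (nat_lit 4194305) (nat_lit 2969572378) (.two (nat_lit 4194304) (nat_lit 185035922088) (.one (nat_lit 708846690) .nil)))))),
   .two (nat_lit 11559501890) (nat_lit 46510637122) (.two (nat_lit 11559501839) (nat_lit 46510637923) (.two (nat_lit 721420292) (nat_lit 10909387271) (.two (nat_lit 50331649) (nat_lit 19130224518) (.two (nat_lit 16777216) (nat_lit 272636598) (.one (nat_lit 19545465866) .nil))))),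
   .two (nat_lit 46489665602) (nat_lit 12117344321) (.two (nat_lit 654311439) (nat_lit 156367848041) (.two (nat_lit 12117344264) (nat_lit 638584192) (.two (nat_lit 11479810053) (nat_lit 158091708959) (.two (nat_lit 16777217) (nat_lit 174685428394) (.one (nat_lit 68167138) .nil))))),
   .two (nat_lit 4605345858) (nat_lit 2097417) (.two (nat_lit 41943055) (nat_lit 158192371031) (.two (nat_lit 1277165572) (nat_lit 9873394179) (.two (nat_lit 8388609) (nat_lit 184555371) (.two (nat_lit 2097152) (nat_lit 16784093) (.one (nat_lit 46992991281) .nil))))),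
   .two (nat_lit 2988441666) (nat_lit 4027580540) (.two (nat_lit 20638072847) (nat_lit 184986632852) (.two (nat_lit 10336862216) (nat_lit 13221495652) (.two (nat_lit 3458203653) (nat_lit 2316306967) (.two (nat_lit 8388609) (nat_lit 12115253839) (.one (nat_lit 2106892) .nil))))),
   .two (nat_lit 184986632258) (nat_lit 1795162223) (.two (nat_lit 9881780239) (nat_lit 135266499) (.two (nat_lit 9881780232) (nat_lit 1846543689) (.two (nat_lit 705691652) (nat_lit 1325402659) (.two (nat_lit 34603009) (nat_lit 19109254139) (.two (nat_lit 16777216) (nat_lit 34609830) (.one (nat_lit 1058318) .nil)))))),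
   .two (nat_lit 11559501891) (nat_lit 46510637168) (.two (nat_lit 754974735) (nat_lit 3527410530) (.two (nat_lit 11559501829) (nat_lit 11580475908) (.two (nat_lit 50331649) (nat_lit 11614031764) (.two (nat_lit 16777216) (nat_lit 28793903707) (.one (nat_lit 4204047) .nil))))),
   .two (nat_lit 889192515) (nat_lit 2889875693) (.two (nat_lit 721420303) (nat_lit 185020186988) (.two (nat_lit 46407876616) (nat_lit 21210596673) (.two (nat_lit 806354949) (nat_lit 28705819145) (.two (nat_lit 2097153) (nat_lit 37329310738) (.two (nat_lit 1048576) (nat_lit 9969867376) (.one (nat_lit 46406837640) .nil)))))),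
   .two (nat_lit 1291845699) (nat_lit 47548727363) (.two (nat_lit 3458203663) (nat_lit 184431935847) (.two (nat_lit 3458203656) (nat_lit 9948889954) (.two (nat_lit 46407876612) (nat_lit 19612568067) (.two (nat_lit 2097153) (nat_lit 156984414105) (.two (nat_lit 2097152) (nat_lit 16784094) (.one (nat_lit 2106896) .nil)))))),
   .two (nat_lit 2969567298) (nat_lit 19530776643) (.two (nat_lit 2969567247) (nat_lit 1780483385) (.two (nat_lit 184549380) (nat_lit 28758248932) (.two (nat_lit 2097153) (nat_lit 4613741164) (.one (nat_lit 11611940528) .nil)))),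
   .two (nat_lit 272629826) (nat_lit 18933088371) (.two (nat_lit 809500687) (nat_lit 18933088869) (.two (nat_lit 809500680) (nat_lit 1216350235) (.two (nat_lit 4194308) (nat_lit 3565160995) (.two (nat_lit 4194305) (nat_lit 174759877233) (.one (nat_lit 876619012) .nil))))),
   .two (nat_lit 16777280) (nat_lit 168820860) (.two (nat_lit 721420303) (nat_lit 10939794068) (.two (nat_lit 101711880) (nat_lit 83887440) (.two (nat_lit 1276116996) (nat_lit 16780823) (.two (nat_lit 620756993) (nat_lit 1411390078) (.one (nat_lit 102769875) .nil))))),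
   .two (nat_lit 183853121601) (nat_lit 11513364592) (.two (nat_lit 183848927247) (nat_lit 183853122402) (.two (nat_lit 13191086085) (nat_lit 166237047337) (.two (nat_lit 156367847425) (nat_lit 166203497049) (.one (nat_lit 166136390753) .nil)))),
   .two (nat_lit 75497539) (nat_lit 2936012919) (.two (nat_lit 1178599439) (nat_lit 746587481) (.two (nat_lit 654311429) (nat_lit 19537072015) (.two (nat_lit 4194304) (nat_lit 1920996665) (.one (nat_lit 13191095501) .nil)))),
   .two (nat_lit 2889875523) (nat_lit 136315012) (.two (nat_lit 1343225871) (nat_lit 2350908033) (.two (nat_lit 1276117000) (nat_lit 9967765021) (.two (nat_lit 2097153) (nat_lit 166199299985) (.two (nat_lit 1048576) (nat_lit 1914706526) (.one (nat_lit 2106897) .nil))))),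
   .two (nat_lit 13195280451) (nat_lit 2418016384) (.two (nat_lit 18933088271) (nat_lit 28691137886) (.two (nat_lit 156372041733) (nat_lit 136317480) (.two (nat_lit 156372041729) (nat_lit 1746931592) (.two (nat_lit 2097152) (nat_lit 10443823725) (.one (nat_lit 2106898) .nil))))),
   .two (nat_lit 1376780355) (nat_lit 138412140) (.two (nat_lit 721420303) (nat_lit 809501320) (.two (nat_lit 4613734408) (nat_lit 843056413) (.two (nat_lit 11479810052) (nat_lit 9765390851) (.two (nat_lit 50331649) (nat_lit 12114205402) (.one (nat_lit 873473080) .nil))))),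
   .two (nat_lit 639631427) (nat_lit 46980399171) (.two (nat_lit 10370416655) (nat_lit 157038936422) (.two (nat_lit 10370416648) (nat_lit 4196415) (.two (nat_lit 9934209029) (nat_lit 4197912) (.two (nat_lit 4194305) (nat_lit 169874446) (.two (nat_lit 2097152) (nat_lit 272636548) (.one (nat_lit 156365759454) .nil)))))),
   .two (nat_lit 19027460161) (nat_lit 1291845744) (.two (nat_lit 1291845647) (nat_lit 174686471010) (.two (nat_lit 9948889093) (nat_lit 706742825) (.two (nat_lit 606076929) (nat_lit 1962939704) (.one (nat_lit 158177699034) .nil)))),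
   .two (nat_lit 11559501888) (nat_lit 9798942856) (.two (nat_lit 9948889103) (nat_lit 1210057336) (.two (nat_lit 169869320) (nat_lit 1358956061) (.two (nat_lit 2097153) (nat_lit 1862274968) (.two (nat_lit 1048576) (nat_lit 2921339547) (.one (nat_lit 2920293343) .nil))))),
   .two (nat_lit 184549441) (nat_lit 28760342660) (.two (nat_lit 184549391) (nat_lit 11580474012) (.two (nat_lit 742391816) (nat_lit 11492395564) (.two (nat_lit 2097153) (nat_lit 183962180202) (.one (nat_lit 16786964) .nil)))),
   .two (nat_lit 310378562) (nat_lit 37316722806) (.two (nat_lit 1178599439) (nat_lit 2357199209) (.two (nat_lit 158647451661) (nat_lit 21818770810) (.two (nat_lit 69206021) (nat_lit 20644366874) (.two (nat_lit 2097153) (nat_lit 46409980527) (.one (nat_lit 4204053) .nil))))),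
   .two (nat_lit 46978302019) (nat_lit 1417674865) (.two (nat_lit 10007609368) (nat_lit 174686470502) (.two (nat_lit 159224168456) (nat_lit 136317446) (.two (nat_lit 2097153) (nat_lit 2357202824) (.two (nat_lit 2097152) (nat_lit 8395488) (.one (nat_lit 2106903) .nil))))),
   .two (nat_lit 2988441667) (nat_lit 28693233777) (.two (nat_lit 3458203663) (nat_lit 1916797794) (.two (nat_lit 46407876612) (nat_lit 1413484439) (.two (nat_lit 2097152) (nat_lit 71309964) (.one (nat_lit 239084523) .nil)))),
   .two (nat_lit 4605345857) (nat_lit 16777482) (.two (nat_lit 50331663) (nat_lit 847249603) (.two (nat_lit 813694984) (nat_lit 285214238) (.two (nat_lit 612368385) (nat_lit 1411387274) (.two (nat_lit 2097152) (nat_lit 13228841675) (.one (nat_lit 2106907) .nil))))),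
   .two (nat_lit 218103874) (nat_lit 243269896) (.two (nat_lit 218103823) (nat_lit 11551114616) (.two (nat_lit 2969567237) (nat_lit 12155096503) (.two (nat_lit 16777217) (nat_lit 156372045702) (.two (nat_lit 16777216) (nat_lit 1182800534) (.one (nat_lit 8398365) .nil))))),
   .two (nat_lit 21777875011) (nat_lit 1795162222) (.two (nat_lit 1358954511) (nat_lit 3524264296) (.two (nat_lit 1358954504) (nat_lit 3557819693) (.two (nat_lit 21777874949) (nat_lit 721422849) (.two (nat_lit 605028353) (nat_lit 50335620) (.two (nat_lit 16777216) (nat_lit 3524271671) (.one (nat_lit 1058334) .nil)))))),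
   .two (nat_lit 721420353) (nat_lit 158083317875) (.two (nat_lit 20644364303) (nat_lit 3539993950) (.two (nat_lit 612368389) (nat_lit 47596965793) (.two (nat_lit 8388608) (nat_lit 166144776800) (.one (nat_lit 8398367) .nil)))),
   .two (nat_lit 9881780291) (nat_lit 2416967789) (.two (nat_lit 19596836879) (nat_lit 3003122347) (.two (nat_lit 19596836872) (nat_lit 184431936898) (.two (nat_lit 28690087941) (nat_lit 158091708963) (.two (nat_lit 9765388289) (nat_lit 1862276107) (.two (nat_lit 1048576) (nat_lit 16785080) (.one (nat_lit 16786980) .nil)))))),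
   .two (nat_lit 11543773250) (nat_lit 156984410236) (.two (nat_lit 285212687) (nat_lit 772801183) (.two (nat_lit 285212680) (nat_lit 21777876300) (.two (nat_lit 1746927621) (nat_lit 156364704291) (.two (nat_lit 50331649) (nat_lit 705696805) (.two (nat_lit 2097152) (nat_lit 1056442) (.one (nat_lit 2106471) .nil)))))),
   .two (nat_lit 11492393027) (nat_lit 13191086147) (.two (nat_lit 183848927247) (nat_lit 3003122302) (.two (nat_lit 183848927240) (nat_lit 822084451) (.two (nat_lit 156367847429) (nat_lit 174768261635) (.two (nat_lit 37748737) (nat_lit 10955526041) (.two (nat_lit 4194304) (nat_lit 4647295673) (.one (nat_lit 4204070) .nil)))))),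
   .two (nat_lit 2969567298) (nat_lit 11007950957) (.two (nat_lit 157036838927) (nat_lit 9948889954) (.two (nat_lit 46978301957) (nat_lit 1291849606) (.two (nat_lit 2097152) (nat_lit 1862277999) .nil))),
   .two (nat_lit 50331715) (nat_lit 166132187249) (.two (nat_lit 721420303) (nat_lit 4195007) (.two (nat_lit 9768534024) (nat_lit 4043311622) (.two (nat_lit 4194305) (nat_lit 2365591436) (.two (nat_lit 4194304) (nat_lit 654318297) (.one (nat_lit 16786983) .nil))))),
   .two (nat_lit 28693233731) (nat_lit 19100860549) (.two (nat_lit 8388623) (nat_lit 11580474012) (.two (nat_lit 813694984) (nat_lit 1916797794) (.two (nat_lit 69206021) (nat_lit 3464499104) (.two (nat_lit 2097152) (nat_lit 1749032560) (.one (nat_lit 184989787515) .nil))))),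
   .two (nat_lit 11584667714) (nat_lit 11577327734) (.two (nat_lit 3539992591) (nat_lit 46481277287) (.two (nat_lit 1779433480) (nat_lit 645924150) (.two (nat_lit 158143086597) (nat_lit 10913582613) (.two (nat_lit 605028353) (nat_lit 3464500274) (.two (nat_lit 8388608) (nat_lit 19612572286) (.one (nat_lit 16786984) .nil)))))),
   .two (nat_lit 639631427) (nat_lit 10343153799) (.two (nat_lit 1277165583) (nat_lit 645923437) (.two (nat_lit 813694984) (nat_lit 19130221410) (.two (nat_lit 9934209029) (nat_lit 46514835354) (.two (nat_lit 2097152) (nat_lit 2990545525) (.one (nat_lit 4204074) .nil))))),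
   .two (nat_lit 3003121730) (nat_lit 156567076986) (.two (nat_lit 9934209039) (nat_lit 20719863149) (.two (nat_lit 184549380) (nat_lit 11543775792) (.two (nat_lit 16777217) (nat_lit 37247520650) (.two (nat_lit 2097152) (nat_lit 16785088) (.one (nat_lit 16786990) .nil))))),
   .two (nat_lit 46510637123) (nat_lit 8388875) (.two (nat_lit 272629775) (nat_lit 158083318368) (.two (nat_lit 272629768) (nat_lit 21785215843) (.two (nat_lit 4194308) (nat_lit 46984597394) (.two (nat_lit 8388608) (nat_lit 1749031534) (.one (nat_lit 4204081) .nil))))),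
   .two (nat_lit 28086108227) (nat_lit 20652753015) (.two (nat_lit 12047089679) (nat_lit 822084280) (.two (nat_lit 12047089672) (nat_lit 11492394321) (.two (nat_lit 184986632197) (nat_lit 721422850) (.two (nat_lit 34603009) (nat_lit 11492396962) (.two (nat_lit 8388608) (nat_lit 10537146983) (.one (nat_lit 1058355) .nil)))))),
   .two (nat_lit 2988441667) (nat_lit 1191182449) (.two (nat_lit 3458203663) (nat_lit 21223179606) (.two (nat_lit 218103813) (nat_lit 19128125959) (.two (nat_lit 2097153) (nat_lit 218109247) (.one (nat_lit 1277174882) .nil)))),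
   .two (nat_lit 285212739) (nat_lit 156569174134) (.two (nat_lit 285212687) (nat_lit 46409974422) (.two (nat_lit 12050235400) (nat_lit 822084895) (.two (nat_lit 184989777925) (nat_lit 822086142) (.two (nat_lit 16777217) (nat_lit 166232855592) (.two (nat_lit 4194304) (nat_lit 16785090) (.one (nat_lit 2106932) .nil)))))),
   .two (nat_lit 11559501890) (nat_lit 37246468209) (.two (nat_lit 19596836879) (nat_lit 1358955362) (.two (nat_lit 183845781508) (nat_lit 251662228) (.two (nat_lit 1048576) (nat_lit 166144777071) .nil))),
   .two (nat_lit 2954887235) (nat_lit 3524264056) (.two (nat_lit 203423759) (nat_lit 20711473828) (.two (nat_lit 705691656) (nat_lit 3028288802) (.two (nat_lit 21777874949) (nat_lit 8392221) (.two (nat_lit 605028353) (nat_lit 174686475232) (.two (nat_lit 1048576) (nat_lit 1948261011) (.one (nat_lit 1058357) .nil)))))),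
   .two (nat_lit 9934209091) (nat_lit 3024093303) (.two (nat_lit 713031695) (nat_lit 4634707281) (.two (nat_lit 41943045) (nat_lit 28693236243) (.two (nat_lit 41943041) (nat_lit 9969865735) (.two (nat_lit 8388608) (nat_lit 46508546633) (.one (nat_lit 4605354966) .nil))))),
   .two (nat_lit 272629824) (nat_lit 3524264061) (.two (nat_lit 9768534031) (nat_lit 47548727491) (.two (nat_lit 205520904) (nat_lit 9967764766) (.two (nat_lit 11476664324) (nat_lit 2956986927) (.two (nat_lit 9765388289) (nat_lit 10439628699) (.two (nat_lit 1048576) (nat_lit 3024100031) (.one (nat_lit 1058361) .nil)))))),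
   .two (nat_lit 285212737) (nat_lit 184993972334) (.two (nat_lit 285212687) (nat_lit 184993972419) (.two (nat_lit 713031688) (nat_lit 9781118493) (.two (nat_lit 16777217) (nat_lit 158150430616) (.two (nat_lit 8388608) (nat_lit 16784098) (.one (nat_lit 1426072883) .nil))))),
   .two (nat_lit 12117344321) (nat_lit 285212783) (.two (nat_lit 822083599) (nat_lit 156971828514) (.two (nat_lit 11479810053) (nat_lit 158091708963) (.two (nat_lit 4194305) (nat_lit 46489670651) (.two (nat_lit 16777216) (nat_lit 1782586022) (.one (nat_lit 4204091) .nil))))),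
   .two (nat_lit 2954887235) (nat_lit 2994733165) (.two (nat_lit 713031695) (nat_lit 336593256) (.two (nat_lit 11551113224) (nat_lit 158176642334) (.two (nat_lit 2887778308) (nat_lit 679480832) (.two (nat_lit 605028353) (nat_lit 9900658577) (.two (nat_lit 8388608) (nat_lit 19597892203) (.one (nat_lit 2106940) .nil)))))),
   .two (nat_lit 9866051650) (nat_lit 19033751674) (.two (nat_lit 2961178639) (nat_lit 166230753877) (.two (nat_lit 2961178632) (nat_lit 874513746) (.two (nat_lit 46407876612) (nat_lit 235932167) (.two (nat_lit 605028353) (nat_lit 46514837416) (.two (nat_lit 1048576) (nat_lit 46514838207) (.one (nat_lit 10436486674) .nil)))))),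
   .two (nat_lit 285212737) (nat_lit 2923429955) (.two (nat_lit 285212687) (nat_lit 9802088643) (.two (nat_lit 9781116936) (nat_lit 21814576432) (.two (nat_lit 4194308) (nat_lit 16779774) (.two (nat_lit 4194305) (nat_lit 822088730) (.two (nat_lit 4194304) (nat_lit 13237230248) (.one (nat_lit 28806489028) .nil)))))),
   .two (nat_lit 11610882113) (nat_lit 1291845744) (.two (nat_lit 37748751) (nat_lit 11525948260) (.two (nat_lit 2097157) (nat_lit 28693236242) (.two (nat_lit 2097153) (nat_lit 183946451532) (.one (nat_lit 336602294) .nil)))),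
   .two (nat_lit 166132187201) (nat_lit 1847591163) (.two (nat_lit 612368399) (nat_lit 339739248) (.two (nat_lit 1780482056) (nat_lit 166132188003) (.two (nat_lit 176160773) (nat_lit 28693235230) (.two (nat_lit 8388609) (nat_lit 4601158249) (.one (nat_lit 2106944) .nil))))),
   .two (nat_lit 2954887232) (nat_lit 166136381578) (.two (nat_lit 1277165583) (nat_lit 10376708714) (.two (nat_lit 169869320) (nat_lit 343934237) (.two (nat_lit 20644364292) (nat_lit 158143089169) (.two (nat_lit 34603009) (nat_lit 3458210522) (.one (nat_lit 1058369) .nil))))),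
   .two (nat_lit 2954887232) (nat_lit 156532473969) (.two (nat_lit 739246095) (nat_lit 11551113905) (.two (nat_lit 169869320) (nat_lit 1417676061) (.two (nat_lit 156968681477) (nat_lit 18926799363) (.two (nat_lit 156364701697) (nat_lit 1210063546) (.one (nat_lit 1058370) .nil))))),
   .two (nat_lit 276824129) (nat_lit 2923430245) (.two (nat_lit 156367847432) (nat_lit 9766437731) (.two (nat_lit 746586117) (nat_lit 806357551) (.two (nat_lit 9768534017) (nat_lit 1920996386) (.two (nat_lit 2097152) (nat_lit 209722046) (.one (nat_lit 4204099) .nil))))),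
   .two (nat_lit 11577327682) (nat_lit 4194427) (.two (nat_lit 9768534031) (nat_lit 21777875302) (.two (nat_lit 183845781512) (nat_lit 4634707229) (.two (nat_lit 166132187140) (nat_lit 10538191387) (.two (nat_lit 2097153) (nat_lit 10503591818) (.two (nat_lit 2097152) (nat_lit 1056457) (.one (nat_lit 46473946221) .nil)))))),
   .two (nat_lit 156533522499) (nat_lit 158083317868) (.two (nat_lit 19530776591) (nat_lit 1417675349) (.two (nat_lit 3464495112) (nat_lit 69207414) (.two (nat_lit 157036838917) (nat_lit 8392228) (.two (nat_lit 156365750273) (nat_lit 10343158788) (.two (nat_lit 2097152) (nat_lit 8395432) (.one (nat_lit 47548736564) .nil)))))),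
   .two (nat_lit 12117344321) (nat_lit 16777328) (.two (nat_lit 1916796943) (nat_lit 16778082) (.two (nat_lit 1178599429) (nat_lit 21223180806) (.two (nat_lit 4194305) (nat_lit 12633250395) (.one (nat_lit 16787014) .nil)))),
   .two (nat_lit 2969567299) (nat_lit 174686470211) (.two (nat_lit 46978301967) (nat_lit 3472885122) (.two (nat_lit 3525312517) (nat_lit 156380434327) (.two (nat_lit 2097152) (nat_lit 20652758330) (.one (nat_lit 28705824919) .nil)))),
   .two (nat_lit 9934209091) (nat_lit 10343153799) (.two (nat_lit 10370416655) (nat_lit 12150899352) (.two (nat_lit 37748744) (nat_lit 1417675618) (.two (nat_lit 708837381) (nat_lit 184993974832) (.two (nat_lit 4194305) (nat_lit 12115252243) (.two (nat_lit 8388608) (nat_lit 10909391461) (.one (nat_lit 2106951) .nil)))))),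
   .two (nat_lit 21785215043) (nat_lit 10436477044) (.two (nat_lit 9866051599) (nat_lit 28093449058) (.two (nat_lit 1343225861) (nat_lit 10376712087) (.two (nat_lit 1048576) (nat_lit 2994738488) (.one (nat_lit 1384128680) .nil)))),
   .two (nat_lit 3028287553) (nat_lit 218103923) (.two (nat_lit 285212687) (nat_lit 10007609950) (.two (nat_lit 285212680) (nat_lit 3028288355) (.two (nat_lit 16777220) (nat_lit 47555020317) (.two (nat_lit 50331649) (nat_lit 1283461016) (.two (nat_lit 16777216) (nat_lit 8396494) (.one (nat_lit 8398059) .nil)))))),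
   .two (nat_lit 306184257) (nat_lit 1309671550) (.two (nat_lit 41943055) (nat_lit 20637025122) (.two (nat_lit 8388612) (nat_lit 28690091911) (.two (nat_lit 16777216) (nat_lit 20737694416) (.one (nat_lit 8398410) .nil)))),
   .two (nat_lit 8388672) (nat_lit 21778923633) (.two (nat_lit 21208498191) (nat_lit 28793897634) (.two (nat_lit 813694984) (nat_lit 183949591837) (.two (nat_lit 46409973764) (nat_lit 47548729873) (.two (nat_lit 9766436865) (nat_lit 157043134343) (.two (nat_lit 2097152) (nat_lit 174692768442) (.one (nat_lit 2106955) .nil)))))),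
   .two (nat_lit 754974787) (nat_lit 11577327683) (.two (nat_lit 12047089679) (nat_lit 9982444158) (.two (nat_lit 12047089672) (nat_lit 11559502691) (.two (nat_lit 184986632197) (nat_lit 19042142731) (.two (nat_lit 34603009) (nat_lit 10955526030) (.two (nat_lit 1048576) (nat_lit 21827164857) (.one (nat_lit 16787020) .nil)))))),
   .two (nat_lit 272629824) (nat_lit 3565158519) (.two (nat_lit 272629775) (nat_lit 28697428589) (.two (nat_lit 37748744) (nat_lit 158083319079) (.two (nat_lit 4194308) (nat_lit 11551116751) (.two (nat_lit 4194305) (nat_lit 9799996456) (.two (nat_lit 2097152) (nat_lit 876616265) (.one (nat_lit 3525321848) .nil)))))),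
   .two (nat_lit 21208498242) (nat_lit 2902458480) (.two (nat_lit 218103823) (nat_lit 174753579874) (.two (nat_lit 158144135173) (nat_lit 2365591446) (.two (nat_lit 2097152) (nat_lit 19142808888) (.one (nat_lit 28772933767) .nil)))),
   .two (nat_lit 8388672) (nat_lit 13222543485) (.two (nat_lit 8388623) (nat_lit 2365588117) (.two (nat_lit 176160776) (nat_lit 3003123013) (.two (nat_lit 11492392964) (nat_lit 3458206222) (.two (nat_lit 2097153) (nat_lit 28101841884) (.two (nat_lit 2097152) (nat_lit 156380437076) (.one (nat_lit 16787022) .nil)))))),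
   .two (nat_lit 4634705987) (nat_lit 19127074924) (.two (nat_lit 184986632207) (nat_lit 156372043109) (.two (nat_lit 183845781508) (nat_lit 46477085204) (.two (nat_lit 41943041) (nat_lit 2353008519) (.two (nat_lit 4194304) (nat_lit 10443823702) (.one (nat_lit 4204111) .nil))))),
   .two (nat_lit 11479810115) (nat_lit 3464495219) (.two (nat_lit 272629775) (nat_lit 3464495717) (.two (nat_lit 272629768) (nat_lit 3028288807) (.two (nat_lit 4194308) (nat_lit 9806286753) (.two (nat_lit 4194304) (nat_lit 1417681630) (.one (nat_lit 37758064) .nil))))),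
   .two (nat_lit 183962173506) (nat_lit 159250383097) (.two (nat_lit 3460300815) (nat_lit 183962173797) (.two (nat_lit 3460300808) (nat_lit 158091707692) (.two (nat_lit 46409973764) (nat_lit 166230755847) (.two (nat_lit 4194305) (nat_lit 1779437455) (.two (nat_lit 4194304) (nat_lit 135273160) (.one (nat_lit 2106960) .nil)))))),
   .two (nat_lit 11559501888) (nat_lit 20704133187) (.two (nat_lit 21207449615) (nat_lit 3573548361) (.two (nat_lit 158143086597) (nat_lit 46523223969) (.two (nat_lit 1048576) (nat_lit 13203674429) (.one (nat_lit 21827167559) .nil)))),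
   .two (nat_lit 8388672) (nat_lit 10452205700) (.two (nat_lit 654311439) (nat_lit 612369788) (.two (nat_lit 2902458372) (nat_lit 10007610909) (.two (nat_lit 16777217) (nat_lit 12121543998) (.one (nat_lit 21777884397) .nil)))),
   .two (nat_lit 3458203715) (nat_lit 9881780339) (.two (nat_lit 9948889103) (nat_lit 673185987) (.two (nat_lit 9948889096) (nat_lit 166130091337) (.two (nat_lit 169869316) (nat_lit 620758557) (.two (nat_lit 2097153) (nat_lit 19545460633) (.two (nat_lit 2097152) (nat_lit 50338526) (.one (nat_lit 16787027) .nil)))))),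
   .two (nat_lit 176160835) (nat_lit 673185927) (.two (nat_lit 41943055) (nat_lit 1950352024) (.two (nat_lit 41943048) (nat_lit 171967823) (.two (nat_lit 8388612) (nat_lit 19599985170) (.two (nat_lit 8388609) (nat_lit 158649552778) (.two (nat_lit 4194304) (nat_lit 157043137133) (.one (nat_lit 11484013870) .nil)))))),
   .two (nat_lit 8388672) (nat_lit 21210595451) (.two (nat_lit 8388623) (nat_lit 46510637702) (.two (nat_lit 41943048) (nat_lit 9902753089) (.two (nat_lit 13191086085) (nat_lit 2349861403) (.two (nat_lit 8388609) (nat_lit 3527414760) (.two (nat_lit 1048576) (nat_lit 156472711755) (.one (nat_lit 4204134) .nil)))))),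
   .two (nat_lit 16777280) (nat_lit 1913651322) (.two (nat_lit 620757007) (nat_lit 19093521140) (.two (nat_lit 822083592) (nat_lit 2923430754) (.two (nat_lit 721420292) (nat_lit 1376781853) (.two (nat_lit 4194305) (nat_lit 158143091683) (.two (nat_lit 4194304) (nat_lit 156984416847) (.one (nat_lit 184986642003) .nil)))))),
   .two (nat_lit 8388672) (nat_lit 157038936172) (.two (nat_lit 8388623) (nat_lit 157038936658) (.two (nat_lit 41943048) (nat_lit 3527412223) (.two (nat_lit 8388609) (nat_lit 158079128558) (.two (nat_lit 4194304) (nat_lit 8396847) (.one (nat_lit 46409983580) .nil))))),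
   .two (nat_lit 12054429761) (nat_lit 183912890435) (.two (nat_lit 12114198543) (nat_lit 47588574547) (.two (nat_lit 11476664324) (nat_lit 10510929804) (.two (nat_lit 1048576) (nat_lit 9873397050) (.one (nat_lit 183953793175) .nil)))),
   .two (nat_lit 285212736) (nat_lit 11513364546) (.two (nat_lit 285212687) (nat_lit 71303799) (.two (nat_lit 16777224) (nat_lit 156468512950) (.two (nat_lit 13191086085) (nat_lit 822086142) (.two (nat_lit 16777217) (nat_lit 166232855592) (.two (nat_lit 2097152) (nat_lit 1379932856) (.one (nat_lit 185035924539) .nil)))))),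
   .two (nat_lit 2954887232) (nat_lit 46414168175) (.two (nat_lit 612368399) (nat_lit 2988442367) (.two (nat_lit 169869320) (nat_lit 343934242) (.two (nat_lit 169869316) (nat_lit 9940503068) (.two (nat_lit 2097153) (nat_lit 4605350888) (.two (nat_lit 1048576) (nat_lit 773855819) (.one (nat_lit 165532410805) .nil)))))),
   .two (nat_lit 11543773250) (nat_lit 184419352697) (.two (nat_lit 176160783) (nat_lit 21777876509) (.two (nat_lit 8388609) (nat_lit 13187944363) (.two (nat_lit 8388608) (nat_lit 158146239051) (.one (nat_lit 2987402402) .nil)))),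
   .two (nat_lit 4634705986) (nat_lit 156364701811) (.two (nat_lit 620757007) (nat_lit 158075979111) (.two (nat_lit 4599054341) (nat_lit 158179789317) (.two (nat_lit 2097153) (nat_lit 1913657943) (.one (nat_lit 1058408) .nil)))),
   .two (nat_lit 47548727363) (nat_lit 156581757050) (.two (nat_lit 13203669007) (nat_lit 9802089314) (.two (nat_lit 2954887173) (nat_lit 620758557) (.two (nat_lit 4194305) (nat_lit 183947498450) (.two (nat_lit 4194304) (nat_lit 3022002959) (.one (nat_lit 4204137) .nil))))),
   .two (nat_lit 285212736) (nat_lit 2923429953) (.two (nat_lit 46409973775) (nat_lit 822083779) (.two (nat_lit 156367847432) (nat_lit 706741092) (.two (nat_lit 157038936069) (nat_lit 203427569) (.two (nat_lit 2097153) (nat_lit 37754035) (.two (nat_lit 2097152) (nat_lit 4601158421) (.one (nat_lit 2106987) .nil)))))),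
   .two (nat_lit 272629826) (nat_lit 28697428092) (.two (nat_lit 37748751) (nat_lit 343933794) (.two (nat_lit 4194308) (nat_lit 21818771985) (.two (nat_lit 2097153) (nat_lit 343938181) (.two (nat_lit 2097152) (nat_lit 21818777489) (.one (nat_lit 8398444) .nil))))),
   .two (nat_lit 713031746) (nat_lit 638582920) (.two (nat_lit 713031695) (nat_lit 873464168) (.two (nat_lit 713031688) (nat_lit 638584142) (.two (nat_lit 171966469) (nat_lit 713035689) (.two (nat_lit 1048576) (nat_lit 158079130210) (.one (nat_lit 12114207901) .nil))))),
   .two (nat_lit 46474985539) (nat_lit 9966715164) (.two (nat_lit 203423759) (nat_lit 166136382092) (.two (nat_lit 705691656) (nat_lit 2927625601) (.two (nat_lit 705691652) (nat_lit 28087160733) (.two (nat_lit 2097152) (nat_lit 1954552450) (.one (nat_lit 1056948) .nil))))),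
   .two (nat_lit 9967763523) (nat_lit 13187940488) (.two (nat_lit 285212687) (nat_lit 158647452322) (.two (nat_lit 3539992584) (nat_lit 2988443165) (.two (nat_lit 16777217) (nat_lit 1176506249) (.two (nat_lit 1048576) (nat_lit 1962941083) (.one (nat_lit 9766446110) .nil))))),
   .two (nat_lit 4601151552) (nat_lit 218103922) (.two (nat_lit 2902458383) (nat_lit 9802090013) (.two (nat_lit 16777217) (nat_lit 1279269464) (.one (nat_lit 166232860333) .nil))),
   .two (nat_lit 8388672) (nat_lit 306184312) (.two (nat_lit 612368399) (nat_lit 47582282354) (.two (nat_lit 9940500488) (nat_lit 159251432733) (.two (nat_lit 1916796933) (nat_lit 46984595981) (.two (nat_lit 41943041) (nat_lit 1176507594) (.two (nat_lit 4194304) (nat_lit 19033758294) (.one (nat_lit 4204141) .nil)))))),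
   .two (nat_lit 8388672) (nat_lit 4601151683) (.two (nat_lit 713031688) (nat_lit 20707280182) (.two (nat_lit 1276116996) (nat_lit 37752523) (.two (nat_lit 8388609) (nat_lit 306189288) (.two (nat_lit 1048576) (nat_lit 174688574072) (.one (nat_lit 839918571) .nil))))),
   .two (nat_lit 9934209091) (nat_lit 9806282874) (.two (nat_lit 8388623) (nat_lit 2923430554) (.two (nat_lit 4194312) (nat_lit 10007610210) (.two (nat_lit 4194308) (nat_lit 10007610909) (.two (nat_lit 4194305) (nat_lit 11578381273) (.two (nat_lit 1048576) (nat_lit 239083224) (.one (nat_lit 3020954508) .nil)))))),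
   .two (nat_lit 46984593473) (nat_lit 20738736195) (.two (nat_lit 2954887183) (nat_lit 1745879678) (.two (nat_lit 169869320) (nat_lit 28093450462) (.two (nat_lit 285212677) (nat_lit 1350568466) (.two (nat_lit 16777217) (nat_lit 166229707465) (.two (nat_lit 16777216) (nat_lit 8394063) (.one (nat_lit 2105567) .nil)))))),
   .two (nat_lit 11610882068) (nat_lit 780140660) (.two (nat_lit 4601151602) (nat_lit 28093448229) (.two (nat_lit 184986632207) (nat_lit 9969860807) (.two (nat_lit 4194319) (nat_lit 9940500682) (.two (nat_lit 184986632200) (nat_lit 12050235856) (.two (nat_lit 4194312) (nat_lit 159257723342) (.two (nat_lit 12047089669) (nat_lit 4601155013) (.two (nat_lit 34603009) (nat_lit 4030731233) (.two (nat_lit 1048576) (nat_lit 4199760) (.one (nat_lit 4201387) .nil))))))))),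
   .two (nat_lit 8388672) (nat_lit 184431935607) (.two (nat_lit 184549391) (nat_lit 612368579) (.two (nat_lit 184549384) (nat_lit 19033752885) (.two (nat_lit 16777221) (nat_lit 10544482826) (.two (nat_lit 16777217) (nat_lit 75503703) (.two (nat_lit 8388608) (nat_lit 4201253) (.one (nat_lit 2990548683) .nil)))))),
   .two (nat_lit 8388627) (nat_lit 21777875054) (.two (nat_lit 4194421) (nat_lit 50331683) (.two (nat_lit 50331663) (nat_lit 156468510923) (.two (nat_lit 50331663) (nat_lit 11476664415) (.two (nat_lit 50331656) (nat_lit 310379369) (.two (nat_lit 50331656) (nat_lit 1913651426) (.two (nat_lit 8388612) (nat_lit 165525062604) (.two (nat_lit 8388612) (nat_lit 28690088917) (.two (nat_lit 41943041) (nat_lit 1052604) (.two (nat_lit 8388608) (nat_lit 1054034) (.one (nat_lit 4204176) .nil)))))))))),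
   .two (nat_lit 47555018865) (nat_lit 12148801659) (.two (nat_lit 3464495119) (nat_lit 166230753892) (.two (nat_lit 11492392968) (nat_lit 310379852) (.two (nat_lit 46407876612) (nat_lit 8390180) (.two (nat_lit 50331651) (nat_lit 46514834893) (.two (nat_lit 2097153) (nat_lit 184993977396) (.two (nat_lit 8388608) (nat_lit 158158822902) (.one (nat_lit 19612573886) .nil))))))),
   .two (nat_lit 713031747) (nat_lit 3036676211) (.two (nat_lit 8388623) (nat_lit 184986632808) (.two (nat_lit 8388616) (nat_lit 336594316) (.two (nat_lit 8388612) (nat_lit 19127075793) (.two (nat_lit 184549381) (nat_lit 11543774164) (.two (nat_lit 16777217) (nat_lit 135267981) (.two (nat_lit 4194304) (nat_lit 1056848) (.one (nat_lit 1058449) .nil))))))),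
   .two (nat_lit 809500707) (nat_lit 37320917129) (.two (nat_lit 713031695) (nat_lit 156367847619) (.two (nat_lit 713031688) (nat_lit 1279264054) (.two (nat_lit 41943045) (nat_lit 183848931018) (.two (nat_lit 620756993) (nat_lit 2424312877) (.two (nat_lit 16777216) (nat_lit 1954552504) (.one (nat_lit 8398431) .nil)))))),
   .two (nat_lit 306184258) (nat_lit 159224168566) (.two (nat_lit 4601151503) (nat_lit 13228835444) (.two (nat_lit 4601151496) (nat_lit 3565159749) (.two (nat_lit 13195280389) (nat_lit 1795164699) (.two (nat_lit 41943041) (nat_lit 19042144147) (.two (nat_lit 4194304) (nat_lit 12129935655) (.one (nat_lit 4204179) .nil)))))),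
   .two (nat_lit 11543773251) (nat_lit 46980399225) (.two (nat_lit 176160783) (nat_lit 47548727491) (.two (nat_lit 176160776) (nat_lit 174753580407) (.two (nat_lit 8388613) (nat_lit 742394405) (.two (nat_lit 8388609) (nat_lit 12050237071) (.two (nat_lit 1048576) (nat_lit 4201255) (.one (nat_lit 4204181) .nil)))))),
   .two (nat_lit 12054429763) (nat_lit 158176641091) (.two (nat_lit 11543773199) (nat_lit 28093448550) (.two (nat_lit 705691656) (nat_lit 11618222946) (.two (nat_lit 34603013) (nat_lit 46414169042) (.two (nat_lit 2097155) (nat_lit 3531606534) (.two (nat_lit 2097153) (nat_lit 19033755530) (.two (nat_lit 1048576) (nat_lit 13188995656) (.one (nat_lit 9967770494) .nil))))))),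
   .two (nat_lit 12117344323) (nat_lit 28690088052) (.two (nat_lit 739246095) (nat_lit 708838014) (.two (nat_lit 184419352584) (nat_lit 156968683702) (.two (nat_lit 806354949) (nat_lit 183848931256) (.two (nat_lit 806354949) (nat_lit 183848931256) (.two (nat_lit 2097153) (nat_lit 183848931256) (.two (nat_lit 2097152) (nat_lit 166232858702) (.one (nat_lit 2107030) .nil))))))),
   .two (nat_lit 46414168131) (nat_lit 20740833406) (.two (nat_lit 47555018767) (nat_lit 2317352998) (.two (nat_lit 4605345807) (nat_lit 11614028145) (.two (nat_lit 9940500488) (nat_lit 35651811) (.two (nat_lit 9802088460) (nat_lit 136315749) (.two (nat_lit 10506731525) (nat_lit 10504634872) (.two (nat_lit 10506731525) (nat_lit 8391226) (.two (nat_lit 612368385) (nat_lit 2350911416) (.two (nat_lit 2097152) (nat_lit 8396883) (.one (nat_lit 8398489) .nil))))))))),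
   .two (nat_lit 11543773248) (nat_lit 136314947) (.two (nat_lit 739246095) (nat_lit 3525312872) (.two (nat_lit 11559501832) (nat_lit 169870178) (.two (nat_lit 705691652) (nat_lit 136315384) (.two (nat_lit 721420292) (nat_lit 11543774151) (.two (nat_lit 9781116929) (nat_lit 184986637371) (.two (nat_lit 2097152) (nat_lit 1056852) (.one (nat_lit 1947212705) .nil)))))))]

theorem k4 : chkL tab c4 (nat_lit 8800) = true := by decide +kernel

theorem l4 : c4.length = 2200 := by decide +kernel

end K4

end Pool.Agent.Work.MP_bf01b2_co.MR
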