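import Pool.Agent.Work.MP_bf01b2_co.MR.K4T

/-!
# Three and four roots in `Q_5`: certificates of the entries 11000 to 13199
-/

set_option autoImplicit false
set_option maxRecDepth 100000

namespace Pool.Agent.Work.MP_bf01b2_co.MR

namespace K4

open JT

/-- certificates of the entries 11000 to 13199 -/
def c5 : List Rc :=
  [.two (nat_lit 19027460213) (nat_lit 20740833355) (.two (nat_lit 4601151499) (nat_lit 20638073038) (.two (nat_lit 46409973775) (nat_lit 1411383499) (.two (nat_lit 157038936072) (nat_lit 69206887) (.two (nat_lit 813694983) (nat_lit 19029558601) (.two (nat_lit 639631365) (nat_lit 1212154360) (.two (nat_lit 102760453) (nat_lit 239077946) (.two (nat_lit 4194305) (nat_lit 2101182) (.two (nat_lit 8388608) (nat_lit 4201258) (.one (nat_lit 4204186) .nil))))))))),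
   .two (nat_lit 276824130) (nat_lit 1426063427) (.two (nat_lit 184549391) (nat_lit 11476664677) (.two (nat_lit 184549384) (nat_lit 11476665186) (.two (nat_lit 16777221) (nat_lit 158646405639) (.two (nat_lit 8388609) (nat_lit 9766442103) (.two (nat_lit 16777216) (nat_lit 3022003865) (.one (nat_lit 2105574) .nil)))))),
   .two (nat_lit 270532626) (nat_lit 9899606082) (.two (nat_lit 2954887203) (nat_lit 158143086627) (.two (nat_lit 270532619) (nat_lit 9899606373) (.two (nat_lit 2954887183) (nat_lit 20737687647) (.two (nat_lit 270532614) (nat_lit 11476664780) (.two (nat_lit 2954887176) (nat_lit 158176641248) (.two (nat_lit 1277165570) (nat_lit 185020187590) (.two (nat_lit 639631365) (nat_lit 21811430344) (.two (nat_lit 606076929) (nat_lit 10436478604) (.two (nat_lit 2097152) (nat_lit 68160287) (.one (nat_lit 1057000) .nil)))))))))),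
   .two (nat_lit 184549395) (nat_lit 9933160563) (.two (nat_lit 9933160563) (nat_lit 620757027) (.two (nat_lit 620757007) (nat_lit 28690088139) (.two (nat_lit 620757007) (nat_lit 742391903) (.two (nat_lit 83886088) (nat_lit 1384121193) (.two (nat_lit 620757000) (nat_lit 19096666338) (.two (nat_lit 713031685) (nat_lit 2886732331) (.two (nat_lit 8388609) (nat_lit 28690091911) (.two (nat_lit 8388608) (nat_lit 168824902) (.one (nat_lit 168827826) .nil))))))))),
   .two (nat_lit 8388627) (nat_lit 18926796916) (.two (nat_lit 41943150) (nat_lit 159219974181) (.two (nat_lit 2889875471) (nat_lit 159251432119) (.two (nat_lit 16777224) (nat_lit 2894071080) (.two (nat_lit 16777220) (nat_lit 1413484210) (.two (nat_lit 16777217) (nat_lit 21778930071) (.two (nat_lit 2097152) (nat_lit 4201261) (.one (nat_lit 2107035) .nil))))))),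
   .two (nat_lit 16777251) (nat_lit 705691713) (.two (nat_lit 16777231) (nat_lit 156968682105) (.two (nat_lit 2097158) (nat_lit 156566029614) (.two (nat_lit 16777224) (nat_lit 19027460559) (.two (nat_lit 9768534021) (nat_lit 2988444210) (.two (nat_lit 37748737) (nat_lit 166230758370) (.two (nat_lit 16777216) (nat_lit 1054043) (.one (nat_lit 1058460) .nil))))))),
   .two (nat_lit 3021996097) (nat_lit 46414168130) (.two (nat_lit 4194319) (nat_lit 3531604639) (.two (nat_lit 4194312) (nat_lit 11014243660) (.two (nat_lit 4194308) (nat_lit 184416207352) (.two (nat_lit 4194308) (nat_lit 19596837844) (.two (nat_lit 4194305) (nat_lit 9899607693) (.two (nat_lit 1048576) (nat_lit 9974060376) (.one (nat_lit 1058465) .nil))))))),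
   .two (nat_lit 4601151552) (nat_lit 46414168178) (.two (nat_lit 183848927247) (nat_lit 9933161138) (.two (nat_lit 3464495112) (nat_lit 9802089808) (.two (nat_lit 13191086085) (nat_lit 10503588551) (.two (nat_lit 13191086085) (nat_lit 183912891943) (.two (nat_lit 156372041729) (nat_lit 20740839726) (.two (nat_lit 8388608) (nat_lit 11577335610) (.one (nat_lit 775954652) .nil))))))),
   .two (nat_lit 158646403186) (nat_lit 10437525619) (.two (nat_lit 158075977743) (nat_lit 4638900848) (.two (nat_lit 158075977736) (nat_lit 47555019223) (.two (nat_lit 184423546888) (nat_lit 12047091231) (.two (nat_lit 21777874949) (nat_lit 343933910) (.two (nat_lit 165525061635) (nat_lit 8391229) (.two (nat_lit 605028353) (nat_lit 847254957) (.two (nat_lit 1048576) (nat_lit 8395567) (.one (nat_lit 343941336) .nil)))))))),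
   .two (nat_lit 9866051651) (nat_lit 721420322) (.two (nat_lit 721420303) (nat_lit 20637024294) (.two (nat_lit 721420303) (nat_lit 20637024352) (.two (nat_lit 721420296) (nat_lit 3524264163) (.two (nat_lit 721420296) (nat_lit 68159014) (.two (nat_lit 50331653) (nat_lit 336593879) (.two (nat_lit 50331653) (nat_lit 68159014) (.two (nat_lit 612368385) (nat_lit 1050279) (.two (nat_lit 8388608) (nat_lit 1055536) (.one (nat_lit 1057008) .nil))))))))),
   .two (nat_lit 19130220657) (nat_lit 166197198980) (.two (nat_lit 156569174040) (nat_lit 2988442267) (.two (nat_lit 10504634376) (nat_lit 1312818477) (.two (nat_lit 2889875460) (nat_lit 1210059271) (.two (nat_lit 4194305) (nat_lit 13188992903) (.two (nat_lit 2097152) (nat_lit 13191094088) (.one (nat_lit 2105585) .nil)))))),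
   .two (nat_lit 4605345858) (nat_lit 705691716) (.two (nat_lit 2954887282) (nat_lit 4605345828) (.two (nat_lit 169869327) (nat_lit 2961178720) (.two (nat_lit 158143086609) (nat_lit 156533522527) (.two (nat_lit 10369368072) (nat_lit 2988442059) (.two (nat_lit 2961178631) (nat_lit 874513807) (.two (nat_lit 8388610) (nat_lit 1050152) (.two (nat_lit 46414168067) (nat_lit 10335816217) (.two (nat_lit 620756993) (nat_lit 158075981720) (.two (nat_lit 16777216) (nat_lit 8394191) (.one (nat_lit 8394191) .nil)))))))))),
   .two (nat_lit 306184258) (nat_lit 645923119) (.two (nat_lit 41943055) (nat_lit 156367847619) (.two (nat_lit 13195280392) (nat_lit 157038937418) (.two (nat_lit 19537068037) (nat_lit 10506734102) (.two (nat_lit 620756993) (nat_lit 4199645) (.two (nat_lit 4194304) (nat_lit 16785495) (.one (nat_lit 4204194) .nil)))))),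
   .two (nat_lit 1753219110) (nat_lit 239075447) (.two (nat_lit 8388623) (nat_lit 156481094298) (.two (nat_lit 2961178632) (nat_lit 166144772191) (.two (nat_lit 754974725) (nat_lit 12050237966) (.two (nat_lit 9765388289) (nat_lit 205522588) (.two (nat_lit 1048576) (nat_lit 4202541) (.one (nat_lit 4199911) .nil)))))),
   .two (nat_lit 183853121601) (nat_lit 4632608806) (.two (nat_lit 21214789647) (nat_lit 3525312707) (.two (nat_lit 156971827208) (nat_lit 11517559650) (.two (nat_lit 270532613) (nat_lit 158183982636) (.two (nat_lit 19599982597) (nat_lit 46414169034) (.two (nat_lit 9768534017) (nat_lit 184423548559) (.two (nat_lit 1048576) (nat_lit 2104122) (.one (nat_lit 2105590) .nil))))))),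
   .two (nat_lit 352321602) (nat_lit 9934209139) (.two (nat_lit 16777231) (nat_lit 46508540578) (.two (nat_lit 270532614) (nat_lit 37750092) (.two (nat_lit 16777224) (nat_lit 46508540368) (.two (nat_lit 184549381) (nat_lit 11546922438) (.two (nat_lit 4194305) (nat_lit 1224742076) (.two (nat_lit 4194304) (nat_lit 2102626) (.one (nat_lit 2104268) .nil))))))),
   .two (nat_lit 8388627) (nat_lit 2902458492) (.two (nat_lit 8388672) (nat_lit 1358954531) (.two (nat_lit 8388623) (nat_lit 1962935002) (.two (nat_lit 50331656) (nat_lit 10510927169) (.two (nat_lit 16777220) (nat_lit 310380064) (.two (nat_lit 16777220) (nat_lit 9974055883) (.two (nat_lit 9765388289) (nat_lit 8392642) (.two (nat_lit 1048576) (nat_lit 8395579) (.one (nat_lit 303048395) .nil)))))))),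
   .two (nat_lit 176160787) (nat_lit 20753416324) (.two (nat_lit 176160878) (nat_lit 352321573) (.two (nat_lit 83886095) (nat_lit 2927624824) (.two (nat_lit 11559501832) (nat_lit 9798944069) (.two (nat_lit 721420292) (nat_lit 10939796027) (.two (nat_lit 176160772) (nat_lit 12633246270) (.two (nat_lit 620756993) (nat_lit 8393951) (.two (nat_lit 16777216) (nat_lit 8395580) (.one (nat_lit 8398502) .nil)))))))),
   .two (nat_lit 185020186661) (nat_lit 37314625603) (.two (nat_lit 1343225867) (nat_lit 19094569631) (.two (nat_lit 1779433487) (nat_lit 2097517) (.two (nat_lit 9933160454) (nat_lit 1847591778) (.two (nat_lit 1779433480) (nat_lit 673186260) (.two (nat_lit 1276116996) (nat_lit 28758245880) (.two (nat_lit 1276116996) (nat_lit 236979160) (.two (nat_lit 605028353) (nat_lit 69211206) (.two (nat_lit 1048576) (nat_lit 606083686) (.one (nat_lit 2105593) .nil))))))))),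
   .two (nat_lit 11577327681) (nat_lit 19599982629) (.two (nat_lit 1916796943) (nat_lit 184986632387) (.two (nat_lit 11479810056) (nat_lit 21811429598) (.two (nat_lit 166129041410) (nat_lit 4196927) (.two (nat_lit 806354949) (nat_lit 3527410638) (.two (nat_lit 9768534017) (nat_lit 158144136856) (.two (nat_lit 2097152) (nat_lit 1055550) (.one (nat_lit 1057021) .nil))))))),
   .two (nat_lit 4030726211) (nat_lit 183947493500) (.two (nat_lit 157036838927) (nat_lit 11614028136) (.two (nat_lit 46407876616) (nat_lit 4195173) (.two (nat_lit 205520904) (nat_lit 3021996509) (.two (nat_lit 2887778306) (nat_lit 46977255997) (.two (nat_lit 9768534019) (nat_lit 21207451181) (.two (nat_lit 9768534017) (nat_lit 1055258) (.two (nat_lit 4194304) (nat_lit 1056857) (.one (nat_lit 1058439) .nil)))))))),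
   .two (nat_lit 889192469) (nat_lit 156968681593) (.two (nat_lit 28772925455) (nat_lit 135266399) (.two (nat_lit 9881780232) (nat_lit 13221495290) (.two (nat_lit 158083317765) (nat_lit 4598009907) (.two (nat_lit 1358954501) (nat_lit 13221495290) (.two (nat_lit 41943041) (nat_lit 4598009907) (.two (nat_lit 8388608) (nat_lit 4598009907) (.one (nat_lit 16787114) .nil))))))),
   .two (nat_lit 3464495141) (nat_lit 28758245571) (.two (nat_lit 10940842051) (nat_lit 12121538763) (.two (nat_lit 20644364303) (nat_lit 28758246242) (.two (nat_lit 20644364296) (nat_lit 28758246941) (.two (nat_lit 159224168453) (nat_lit 20738740131) (.two (nat_lit 606076929) (nat_lit 46514836794) (.two (nat_lit 8388608) (nat_lit 11511274360) (.one (nat_lit 10913586142) .nil))))))),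
   .two (nat_lit 4605345858) (nat_lit 159219974183) (.two (nat_lit 272629797) (nat_lit 18933088613) (.two (nat_lit 4605345856) (nat_lit 10506731618) (.two (nat_lit 1178599439) (nat_lit 880805194) (.two (nat_lit 742391816) (nat_lit 46414169031) (.two (nat_lit 742391816) (nat_lit 343933896) (.two (nat_lit 11546918917) (nat_lit 156573371076) (.two (nat_lit 11546918917) (nat_lit 3028289164) (.two (nat_lit 9766436865) (nat_lit 176167578) (.two (nat_lit 2097152) (nat_lit 9772733873) (.one (nat_lit 10001327803) .nil)))))))))),
   .two (nat_lit 2097221) (nat_lit 159224168643) (.two (nat_lit 47555018816) (nat_lit 304087238) (.two (nat_lit 10940841999) (nat_lit 47555019619) (.two (nat_lit 10940841992) (nat_lit 159224170013) (.two (nat_lit 28758245381) (nat_lit 166136385446) (.two (nat_lit 156365750273) (nat_lit 209720634) (.two (nat_lit 2097152) (nat_lit 75504505) (.one (nat_lit 46407883730) .nil))))))),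
   .two (nat_lit 47555018816) (nat_lit 1847591269) (.two (nat_lit 20644364303) (nat_lit 2098550) (.two (nat_lit 4605345798) (nat_lit 159251434980) (.two (nat_lit 10940841992) (nat_lit 47555019719) (.two (nat_lit 176160772) (nat_lit 3021997712) (.two (nat_lit 174753579013) (nat_lit 10544483012) (.two (nat_lit 8388609) (nat_lit 156533529224) (.two (nat_lit 2097152) (nat_lit 3028295872) (.one (nat_lit 840967856) .nil)))))))),
   .two (nat_lit 4194369) (nat_lit 183928619046) (.two (nat_lit 4194369) (nat_lit 183928619104) (.two (nat_lit 721420303) (nat_lit 10503586019) (.two (nat_lit 11559501832) (nat_lit 11510219784) (.two (nat_lit 104857608) (nat_lit 166230754957) (.two (nat_lit 2097157) (nat_lit 9869198348) (.two (nat_lit 1178599429) (nat_lit 185002362511) (.two (nat_lit 4194305) (nat_lit 285215531) (.two (nat_lit 8388608) (nat_lit 285218306) (.one (nat_lit 285218306) .nil))))))))),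
   .two (nat_lit 11551113281) (nat_lit 9765388327) (.two (nat_lit 3460300865) (nat_lit 236978373) (.two (nat_lit 813694991) (nat_lit 185023332579) (.two (nat_lit 184549384) (nat_lit 9765388792) (.two (nat_lit 1780482056) (nat_lit 318769863) (.two (nat_lit 16777221) (nat_lit 46507492363) (.two (nat_lit 102760453) (nat_lit 318769863) (.two (nat_lit 620756993) (nat_lit 813702031) (.two (nat_lit 16777216) (nat_lit 813702031) (.one (nat_lit 1058510) .nil))))))))),
   .two (nat_lit 10015997973) (nat_lit 1913651814) (.two (nat_lit 3525312576) (nat_lit 135266672) (.two (nat_lit 50331759) (nat_lit 9900654788) (.two (nat_lit 2887778319) (nat_lit 285213538) (.two (nat_lit 2887778312) (nat_lit 285214237) (.two (nat_lit 806354949) (nat_lit 13237227432) (.two (nat_lit 34603009) (nat_lit 156567083791) (.two (nat_lit 1048576) (nat_lit 158177696631) (.one (nat_lit 1057055) .nil)))))))),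
   .two (nat_lit 183853121602) (nat_lit 1346371623) (.two (nat_lit 3460300808) (nat_lit 41944072) (.two (nat_lit 47550824453) (nat_lit 41944072) (.two (nat_lit 8388608) (nat_lit 1056977) (.one (nat_lit 1057030) .nil)))),
   .two (nat_lit 159224168565) (nat_lit 21778923558) (.two (nat_lit 2954887234) (nat_lit 183953785035) (.two (nat_lit 37748751) (nat_lit 1417675618) (.two (nat_lit 606076936) (nat_lit 3531606539) (.two (nat_lit 4194308) (nat_lit 159224169481) (.two (nat_lit 4194308) (nat_lit 1417676430) (.two (nat_lit 2097153) (nat_lit 158079126309) (.two (nat_lit 2097152) (nat_lit 310385630) (.one (nat_lit 4638907358) .nil)))))))),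
   .two (nat_lit 1178599491) (nat_lit 28087156831) (.two (nat_lit 75497487) (nat_lit 159217877858) (.two (nat_lit 75497480) (nat_lit 159217878557) (.two (nat_lit 713031684) (nat_lit 2350911384) (.two (nat_lit 41943041) (nat_lit 183913945675) (.two (nat_lit 8388608) (nat_lit 46978306173) (.one (nat_lit 4201460) .nil)))))),
   .two (nat_lit 1384120435) (nat_lit 156364701794) (.two (nat_lit 28086108175) (nat_lit 37249615143) (.two (nat_lit 822083592) (nat_lit 809501177) (.two (nat_lit 11479810052) (nat_lit 158176642712) (.two (nat_lit 612368385) (nat_lit 1379928872) (.two (nat_lit 1048576) (nat_lit 20644368511) (.one (nat_lit 185002367988) .nil)))))),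
   .two (nat_lit 9899606037) (nat_lit 773850188) (.two (nat_lit 2887778319) (nat_lit 9948889312) (.two (nat_lit 2887778312) (nat_lit 3036676328) (.two (nat_lit 2887778306) (nat_lit 16779979) (.two (nat_lit 2097153) (nat_lit 1054029) (.two (nat_lit 2097152) (nat_lit 1054144) (.one (nat_lit 2107091) .nil)))))),
   .two (nat_lit 3525312578) (nat_lit 1212153954) (.two (nat_lit 813694991) (nat_lit 641728974) (.two (nat_lit 813694984) (nat_lit 2956984555) (.two (nat_lit 19599982597) (nat_lit 2961180312) (.two (nat_lit 2097153) (nat_lit 47588577338) (.two (nat_lit 2097152) (nat_lit 47588578748) (.one (nat_lit 8398548) .nil)))))),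
   .two (nat_lit 3028287506) (nat_lit 37247516874) (.two (nat_lit 4605345807) (nat_lit 156969730510) (.two (nat_lit 20638072840) (nat_lit 847249640) (.two (nat_lit 20638072834) (nat_lit 8391372) (.two (nat_lit 156365750273) (nat_lit 243273787) (.two (nat_lit 8388608) (nat_lit 2102721) (.one (nat_lit 2107095) .nil)))))),
   .two (nat_lit 11484004469) (nat_lit 21223178278) (.two (nat_lit 813694983) (nat_lit 1224740389) (.two (nat_lit 41943045) (nat_lit 1411384329) (.two (nat_lit 8388608) (nat_lit 2102723) (.one (nat_lit 16784374) .nil)))),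
   .two (nat_lit 11584667669) (nat_lit 21781021365) (.two (nat_lit 46409973827) (nat_lit 1417674850) (.two (nat_lit 158075977743) (nat_lit 843055572) (.two (nat_lit 4601151503) (nat_lit 21785215201) (.two (nat_lit 158075977736) (nat_lit 174688568983) (.two (nat_lit 20637024264) (nat_lit 3531604203) (.two (nat_lit 20637024260) (nat_lit 3527411355) (.two (nat_lit 21777874949) (nat_lit 174688568983) (.two (nat_lit 156364701697) (nat_lit 21210600764) (.two (nat_lit 1048576) (nat_lit 4198550) (.one (nat_lit 4202794) .nil)))))))))),
   .two (nat_lit 9948889155) (nat_lit 10504634563) (.two (nat_lit 1291845647) (nat_lit 2097375) (.two (nat_lit 9766436872) (nat_lit 9781117432) (.two (nat_lit 813694983) (nat_lit 12633246243) (.two (nat_lit 50331653) (nat_lit 1283458060) (.two (nat_lit 2887778307) (nat_lit 1929384997) (.two (nat_lit 41943041) (nat_lit 16780077) (.two (nat_lit 8388608) (nat_lit 156365757332) (.one (nat_lit 16785708) .nil)))))))),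
   .two (nat_lit 2988441715) (nat_lit 11593056295) (.two (nat_lit 270532615) (nat_lit 16778787) (.two (nat_lit 19530776579) (nat_lit 1050268) (.two (nat_lit 2097152) (nat_lit 16784285) (.one (nat_lit 16784376) .nil)))),
   .two (nat_lit 20753416213) (nat_lit 11477713548) (.two (nat_lit 1343225893) (nat_lit 337641668) (.two (nat_lit 101711887) (nat_lit 1780482512) (.two (nat_lit 2887778319) (nat_lit 13203669454) (.two (nat_lit 754974729) (nat_lit 46507492895) (.two (nat_lit 11476664328) (nat_lit 156380430571) (.two (nat_lit 16777218) (nat_lit 13188992950) (.two (nat_lit 46422556675) (nat_lit 2099917) (.two (nat_lit 9765388289) (nat_lit 183846837147) (.two (nat_lit 1048576) (nat_lit 183846837147) (.one (nat_lit 2107100) .nil)))))))))),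
   .two (nat_lit 1343225923) (nat_lit 156468511077) (.two (nat_lit 9866051599) (nat_lit 37750067) (.two (nat_lit 4194312) (nat_lit 9974055883) (.two (nat_lit 4194312) (nat_lit 158653743607) (.two (nat_lit 183848927234) (nat_lit 3557823676) (.two (nat_lit 1343225861) (nat_lit 1283458705) (.two (nat_lit 156372041729) (nat_lit 101718805) (.two (nat_lit 1048576) (nat_lit 12150905844) (.one (nat_lit 4202798) .nil)))))))),
   .two (nat_lit 176160787) (nat_lit 10015998650) (.two (nat_lit 9768534031) (nat_lit 37253808353) (.two (nat_lit 620757000) (nat_lit 183848927467) (.two (nat_lit 2969567237) (nat_lit 1954549811) (.two (nat_lit 4194305) (nat_lit 11626613543) (.two (nat_lit 4194304) (nat_lit 8395680) (.one (nat_lit 8398558) .nil)))))),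
   .two (nat_lit 19109249062) (nat_lit 4632608900) (.two (nat_lit 37748744) (nat_lit 654311928) (.two (nat_lit 4194308) (nat_lit 183861511180) (.two (nat_lit 2097152) (nat_lit 47550829997) (.one (nat_lit 4202765) .nil)))),
   .two (nat_lit 13191086147) (nat_lit 873463847) (.two (nat_lit 2961178632) (nat_lit 165526111774) (.two (nat_lit 176160772) (nat_lit 1376781323) (.two (nat_lit 8388608) (nat_lit 4199876) (.one (nat_lit 2104314) .nil)))),
   .two (nat_lit 47548727411) (nat_lit 276824103) (.two (nat_lit 1343225864) (nat_lit 2418016760) (.two (nat_lit 705691652) (nat_lit 606077964) (.two (nat_lit 1048576) (nat_lit 2104226) (.one (nat_lit 8398561) .nil)))),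
   .two (nat_lit 218103874) (nat_lit 1948254247) (.two (nat_lit 47596961859) (nat_lit 156969730248) (.two (nat_lit 117440527) (nat_lit 20704133591) (.two (nat_lit 705691656) (nat_lit 9781118493) (.two (nat_lit 34603013) (nat_lit 117441545) (.two (nat_lit 34603013) (nat_lit 9781118606) (.two (nat_lit 34603009) (nat_lit 117443373) (.two (nat_lit 2097152) (nat_lit 16784291) (.one (nat_lit 9766445355) .nil)))))))),
   .two (nat_lit 3464495218) (nat_lit 12633243686) (.two (nat_lit 889192515) (nat_lit 746586311) (.two (nat_lit 46414168132) (nat_lit 28705816936) (.two (nat_lit 46414168079) (nat_lit 183928619231) (.two (nat_lit 11559501841) (nat_lit 11517560351) (.two (nat_lit 10336862216) (nat_lit 166144772807) (.two (nat_lit 83886088) (nat_lit 11517560351) (.two (nat_lit 4605345797) (nat_lit 285215533) (.two (nat_lit 165526110211) (nat_lit 1929383857) (.two (nat_lit 2097153) (nat_lit 16781377) (.two (nat_lit 2097152) (nat_lit 10921974677) (.one (nat_lit 16787174) .nil))))))))))),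
   .two (nat_lit 218103875) (nat_lit 156539813927) (.two (nat_lit 218103875) (nat_lit 159257723081) (.two (nat_lit 2969567266) (nat_lit 3565159268) (.two (nat_lit 2969567247) (nat_lit 184993973090) (.two (nat_lit 2969567240) (nat_lit 176161738) (.two (nat_lit 2969567239) (nat_lit 19537070598) (.two (nat_lit 184549380) (nat_lit 11618223759) (.two (nat_lit 184549379) (nat_lit 174692765610) (.two (nat_lit 16777217) (nat_lit 8391470) (.two (nat_lit 8388608) (nat_lit 306192595) (.one (nat_lit 4204263) .nil)))))))))),
   .two (nat_lit 4605345858) (nat_lit 3560964134) (.two (nat_lit 4605345800) (nat_lit 306184696) (.two (nat_lit 46414168069) (nat_lit 28793897996) (.two (nat_lit 16777216) (nat_lit 4201381) (.one (nat_lit 4202802) .nil)))),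
   .two (nat_lit 11492393055) (nat_lit 1048615) (.two (nat_lit 1962934467) (nat_lit 1175453897) (.two (nat_lit 12114198565) (nat_lit 156548202719) (.two (nat_lit 46992982054) (nat_lit 343933382) (.two (nat_lit 46984593423) (nat_lit 754975224) (.two (nat_lit 46984593423) (nat_lit 37262198413) (.two (nat_lit 46984593416) (nat_lit 37262198413) (.two (nat_lit 3531603975) (nat_lit 117444484) (.two (nat_lit 3531603973) (nat_lit 16781438) (.two (nat_lit 3531603973) (nat_lit 16781438) (.two (nat_lit 8388609) (nat_lit 16781438) (.two (nat_lit 1048576) (nat_lit 46523225586) (.one (nat_lit 11551123179) .nil)))))))))))),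
   .two (nat_lit 135266402) (nat_lit 1358954691) (.two (nat_lit 12617515029) (nat_lit 1291846498) (.two (nat_lit 11559501888) (nat_lit 1947206086) (.two (nat_lit 11559501888) (nat_lit 2416967905) (.two (nat_lit 156968681487) (nat_lit 1358956061) (.two (nat_lit 10503585798) (nat_lit 11559505797) (.two (nat_lit 156968681480) (nat_lit 11559503570) (.two (nat_lit 19596836869) (nat_lit 20719864608) (.two (nat_lit 19596836869) (nat_lit 11559504675) (.two (nat_lit 9765388289) (nat_lit 16784238) (.two (nat_lit 1048576) (nat_lit 16782836) (.one (nat_lit 11593064759) .nil))))))))))),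
   .two (nat_lit 721420382) (nat_lit 2316304482) (.two (nat_lit 11559501888) (nat_lit 1947206100) (.two (nat_lit 11559501888) (nat_lit 37313577185) (.two (nat_lit 1846542351) (nat_lit 11559503390) (.two (nat_lit 1846542344) (nat_lit 11559503570) (.two (nat_lit 28757196805) (nat_lit 11559504675) (.two (nat_lit 28757196805) (nat_lit 11559503570) (.two (nat_lit 9765388289) (nat_lit 46422560890) (.two (nat_lit 1048576) (nat_lit 16782837) (.one (nat_lit 34612969) .nil))))))))),
   .two (nat_lit 772800550) (nat_lit 21814575143) (.two (nat_lit 16777224) (nat_lit 874513419) (.two (nat_lit 8388608) (nat_lit 4199928) .nil)),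
   .two (nat_lit 19042140357) (nat_lit 9768534211) (.two (nat_lit 272629794) (nat_lit 16777687) (.two (nat_lit 272629775) (nat_lit 12163483282) (.two (nat_lit 272629768) (nat_lit 12163483282) (.two (nat_lit 1291845640) (nat_lit 2889878310) (.two (nat_lit 1862270981) (nat_lit 4634708772) (.two (nat_lit 4194305) (nat_lit 12121544120) (.two (nat_lit 8388608) (nat_lit 18928899574) (.one (nat_lit 8397117) .nil)))))))),
   .two (nat_lit 276824159) (nat_lit 12117344294) (.two (nat_lit 3527409760) (nat_lit 3531604167) (.two (nat_lit 169869377) (nat_lit 4034920671) (.two (nat_lit 4194338) (nat_lit 184993972680) (.two (nat_lit 4194319) (nat_lit 1417675256) (.two (nat_lit 21785214991) (nat_lit 11543774151) (.two (nat_lit 47555018761) (nat_lit 169870990) (.two (nat_lit 159224168455) (nat_lit 156971831180) (.two (nat_lit 4194306) (nat_lit 336598510) (.two (nat_lit 171966467) (nat_lit 3028290342) (.two (nat_lit 606076929) (nat_lit 21781027698) (.two (nat_lit 4194304) (nat_lit 8397066) (.one (nat_lit 159217886960) .nil)))))))))))),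
   .two (nat_lit 47596961812) (nat_lit 2988441825) (.two (nat_lit 4028629016) (nat_lit 2432696553) (.two (nat_lit 46407876610) (nat_lit 16781369) (.two (nat_lit 2097153) (nat_lit 654315652) (.one (nat_lit 16787197) .nil)))),
   .two (nat_lit 158653743142) (nat_lit 2953838631) (.two (nat_lit 713031688) (nat_lit 4598006273) (.two (nat_lit 2097152) (nat_lit 8397067) .nil)),
   .two (nat_lit 21208498214) (nat_lit 109052535) (.two (nat_lit 12047089672) (nat_lit 156466414601) (.two (nat_lit 4194304) (nat_lit 8395745) .nil)),
   .two (nat_lit 46474985510) (nat_lit 19612565864) (.two (nat_lit 4194312) (nat_lit 183861511180) (.two (nat_lit 1048576) (nat_lit 4202765) .nil)),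
   .two (nat_lit 13191086275) (nat_lit 1350565927) (.two (nat_lit 1929379847) (nat_lit 166199297036) (.two (nat_lit 2097152) (nat_lit 37755866) .nil)),
   .two (nat_lit 102760486) (nat_lit 12117344960) (.two (nat_lit 4601151495) (nat_lit 2099912) (.two (nat_lit 2097152) (nat_lit 4202767) .nil)),
   .two (nat_lit 11546918950) (nat_lit 37320917695) (.two (nat_lit 4601151496) (nat_lit 1786774016) (.two (nat_lit 4194304) (nat_lit 2102780) .nil)),
   .two (nat_lit 2902458386) (nat_lit 4599054798) (.two (nat_lit 9948889103) (nat_lit 673187475) (.two (nat_lit 184549380) (nat_lit 46407879463) (.two (nat_lit 620756993) (nat_lit 4599058572) (.one (nat_lit 2107134) .nil)))),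
   .two (nat_lit 806354962) (nat_lit 10940843343) (.two (nat_lit 2887778319) (nat_lit 2923430120) (.two (nat_lit 11476664322) (nat_lit 2100010) (.two (nat_lit 9765388289) (nat_lit 673188686) (.one (nat_lit 1058560) .nil)))),
   .two (nat_lit 28093448808) (nat_lit 2953838631) (.two (nat_lit 75497480) (nat_lit 9933161484) (.two (nat_lit 8388608) (nat_lit 1055720) .nil)),
   .two (nat_lit 13224640530) (nat_lit 1948254670) (.two (nat_lit 4030726165) (nat_lit 2097658) (.two (nat_lit 10506731525) (nat_lit 28791802663) (.two (nat_lit 156367847425) (nat_lit 1948258444) (.one (nat_lit 47582291711) .nil)))),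
   .two (nat_lit 236978194) (nat_lit 174688567521) (.two (nat_lit 3525312527) (nat_lit 21814575337) (.two (nat_lit 1277165570) (nat_lit 4198460) (.two (nat_lit 9766436865) (nat_lit 4198542) (.one (nat_lit 21781030645) .nil)))),
   .two (nat_lit 4601151507) (nat_lit 2894071087) (.two (nat_lit 4601151503) (nat_lit 174759870967) (.two (nat_lit 4194306) (nat_lit 8392765) (.two (nat_lit 37748737) (nat_lit 158653747337) (.one (nat_lit 4204292) .nil)))),
   .two (nat_lit 21214789670) (nat_lit 318767776) (.two (nat_lit 50331656) (nat_lit 158083318793) (.two (nat_lit 16777216) (nat_lit 8395754) .nil)),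
   .two (nat_lit 156569174128) (nat_lit 21827158250) (.two (nat_lit 11492392962) (nat_lit 4198533) (.one (nat_lit 11479818564) .nil)),
   .two (nat_lit 34603026) (nat_lit 159266111720) (.two (nat_lit 16777218) (nat_lit 1054137) (.one (nat_lit 1058574) .nil)),
   .two (nat_lit 8388627) (nat_lit 11577327848) (.two (nat_lit 46409973762) (nat_lit 1052806) (.one (nat_lit 1058576) .nil)),
   .two (nat_lit 21814575125) (nat_lit 46507491561) (.two (nat_lit 166130089986) (nat_lit 1052807) (.one (nat_lit 1058577) .nil)),
   .two (nat_lit 3028287506) (nat_lit 809501177) (.two (nat_lit 46409973762) (nat_lit 8392840) (.one (nat_lit 8398611) .nil)),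
   .two (nat_lit 721420307) (nat_lit 185020186858) (.two (nat_lit 2902458370) (nat_lit 1052811) (.one (nat_lit 16787222) .nil)),
   .two (nat_lit 10003415061) (nat_lit 159266111720) (.two (nat_lit 605028357) (nat_lit 3573549902) (.one (nat_lit 16787223) .nil)),
   .two (nat_lit 8388623) (nat_lit 156365750287) (.two (nat_lit 8388616) (nat_lit 874512509) (.two (nat_lit 8388612) (nat_lit 1291846268) (.two (nat_lit 2097153) (nat_lit 1317014792) (.two (nat_lit 2097152) (nat_lit 8392497) (.one (nat_lit 352326874) .nil))))),
   .two (nat_lit 4605345807) (nat_lit 2920284203) (.two (nat_lit 41943048) (nat_lit 12114198802) (.two (nat_lit 34603013) (nat_lit 11551113312) (.two (nat_lit 2097155) (nat_lit 20745029409) (.two (nat_lit 620756993) (nat_lit 158646405329) (.two (nat_lit 8388608) (nat_lit 2099801) (.one (nat_lit 2103859) .nil)))))),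
   .two (nat_lit 813694991) (nat_lit 9802088488) (.two (nat_lit 1753219080) (nat_lit 11513364609) (.two (nat_lit 13191086085) (nat_lit 2357199521) (.two (nat_lit 8388609) (nat_lit 4197756) (.two (nat_lit 8388608) (nat_lit 4198218) (.one (nat_lit 4201030) .nil))))),
   .two (nat_lit 46414168079) (nat_lit 20705181825) (.two (nat_lit 159217877000) (nat_lit 28798092589) (.two (nat_lit 2097153) (nat_lit 185027531817) (.one (nat_lit 2105798) .nil))),
   .two (nat_lit 809500687) (nat_lit 184550042) (.two (nat_lit 21777874949) (nat_lit 1212155256) (.two (nat_lit 4194305) (nat_lit 2101659) (.two (nat_lit 1048576) (nat_lit 2104423) (.one (nat_lit 2107194) .nil)))),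
   .two (nat_lit 9940500495) (nat_lit 1310720113) (.two (nat_lit 612368392) (nat_lit 37316723049) (.two (nat_lit 11484004357) (nat_lit 9969861970) (.two (nat_lit 2097153) (nat_lit 4198812) (.two (nat_lit 2097152) (nat_lit 4201576) (.one (nat_lit 2105990) .nil))))),
   .two (nat_lit 11559501839) (nat_lit 10443817086) (.two (nat_lit 21793603592) (nat_lit 12054430053) (.two (nat_lit 721420292) (nat_lit 8390733) (.two (nat_lit 156367847425) (nat_lit 156472709471) (.two (nat_lit 4194304) (nat_lit 8394759) (.one (nat_lit 8397454) .nil))))),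
   .two (nat_lit 21785214991) (nat_lit 705691906) (.two (nat_lit 21785214984) (nat_lit 37246469848) (.two (nat_lit 2969567237) (nat_lit 775947638) (.two (nat_lit 41943041) (nat_lit 156367850933) (.two (nat_lit 4194304) (nat_lit 1055852) (.one (nat_lit 1058619) .nil))))),
   .two (nat_lit 809500687) (nat_lit 11593056383) (.two (nat_lit 9781116936) (nat_lit 10540288529) (.two (nat_lit 16777216) (nat_lit 4200463) (.one (nat_lit 1058620) .nil))),
   .two (nat_lit 809500687) (nat_lit 822084188) (.two (nat_lit 4194308) (nat_lit 185002362948) (.two (nat_lit 37748737) (nat_lit 16782880) (.two (nat_lit 16777216) (nat_lit 4202831) (.one (nat_lit 4203158) .nil)))),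
   .two (nat_lit 46409973775) (nat_lit 12617515143) (.two (nat_lit 21777874952) (nat_lit 37320918052) (.two (nat_lit 75497477) (nat_lit 3524265285) (.two (nat_lit 612368385) (nat_lit 37313580519) (.two (nat_lit 1048576) (nat_lit 8395886) (.one (nat_lit 1058621) .nil))))),
   .two (nat_lit 2961178639) (nat_lit 2365588135) (.two (nat_lit 16777220) (nat_lit 166129042797) (.two (nat_lit 605028353) (nat_lit 11546923357) (.two (nat_lit 1048576) (nat_lit 4201583) (.one (nat_lit 156566036140) .nil)))),
   .two (nat_lit 1358954511) (nat_lit 873464060) (.two (nat_lit 21777874952) (nat_lit 18941477559) (.two (nat_lit 158075977733) (nat_lit 16780189) (.two (nat_lit 605028353) (nat_lit 19142807947) (.two (nat_lit 1048576) (nat_lit 16784496) (.one (nat_lit 16787262) .nil))))),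
   .two (nat_lit 739246095) (nat_lit 339738881) (.two (nat_lit 184419352584) (nat_lit 28790752552) (.two (nat_lit 37748737) (nat_lit 9899609575) (.two (nat_lit 4194304) (nat_lit 9899612107) (.one (nat_lit 1057436) .nil)))),
   .two (nat_lit 813694991) (nat_lit 1950351617) (.two (nat_lit 606076936) (nat_lit 46414171682) (.two (nat_lit 4194304) (nat_lit 2105891) .nil)),
   .two (nat_lit 157038936079) (nat_lit 156532474120) (.two (nat_lit 739246093) (nat_lit 20652753259) (.two (nat_lit 3525312517) (nat_lit 46507492702) (.two (nat_lit 4194305) (nat_lit 1054242) (.two (nat_lit 2097152) (nat_lit 4202832) (.one (nat_lit 2107199) .nil))))),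
   .two (nat_lit 236978200) (nat_lit 165528207723) (.two (nat_lit 203423749) (nat_lit 2420114797) (.two (nat_lit 37748737) (nat_lit 16782883) (.two (nat_lit 16777216) (nat_lit 2105681) (.one (nat_lit 16787264) .nil)))),
   .two (nat_lit 8388623) (nat_lit 339738743) (.two (nat_lit 4605345800) (nat_lit 1950353471) (.two (nat_lit 41943041) (nat_lit 46510640630) (.two (nat_lit 4194304) (nat_lit 8397138) (.one (nat_lit 18928901783) .nil)))),
   .two (nat_lit 10506731535) (nat_lit 4027580930) (.two (nat_lit 1175453704) (nat_lit 2319450769) (.two (nat_lit 2097157) (nat_lit 13228838332) (.two (nat_lit 2097152) (nat_lit 156566034306) (.one (nat_lit 2107201) .nil)))),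
   .two (nat_lit 11551113231) (nat_lit 19093520521) (.two (nat_lit 12117344264) (nat_lit 1853882729) (.two (nat_lit 2097157) (nat_lit 1786775576) (.two (nat_lit 4194305) (nat_lit 3524267454) (.two (nat_lit 1048576) (nat_lit 2104441) (.one (nat_lit 2107202) .nil))))),
   .two (nat_lit 11492392975) (nat_lit 20704133235) (.two (nat_lit 11559501832) (nat_lit 12147754032) (.two (nat_lit 21777874949) (nat_lit 2332034349) (.two (nat_lit 605028353) (nat_lit 156380435442) (.one (nat_lit 1057446) .nil)))),
   .two (nat_lit 159217877007) (nat_lit 687866106) (.two (nat_lit 2954887176) (nat_lit 9881781543) (.two (nat_lit 2097153) (nat_lit 166245435942) (.two (nat_lit 2097152) (nat_lit 16784506) (.one (nat_lit 2106023) .nil)))),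
   .two (nat_lit 4601151503) (nat_lit 166130090100) (.two (nat_lit 10504634376) (nat_lit 171966827) (.two (nat_lit 46409973765) (nat_lit 2100126) (.two (nat_lit 4194305) (nat_lit 2102820) (.two (nat_lit 1048576) (nat_lit 2105683) (.one (nat_lit 4204355) .nil))))),
   .two (nat_lit 184419352616) (nat_lit 156532474108) (.two (nat_lit 37246468109) (nat_lit 184419353189) (.two (nat_lit 184419352581) (nat_lit 1050712) (.two (nat_lit 37748737) (nat_lit 1053090) (.two (nat_lit 1048576) (nat_lit 4202836) (.one (nat_lit 1058628) .nil))))),
   .two (nat_lit 1343225871) (nat_lit 185021235715) (.two (nat_lit 10369368072) (nat_lit 2988444161) (.two (nat_lit 8388608) (nat_lit 102769186) .nil)),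
   .two (nat_lit 46409973775) (nat_lit 20738737475) (.two (nat_lit 4194305) (nat_lit 21812481493) (.two (nat_lit 1048576) (nat_lit 2105685) (.one (nat_lit 2107205) .nil))),
   .two (nat_lit 8388623) (nat_lit 2969567476) (.two (nat_lit 10385096712) (nat_lit 10007610704) (.two (nat_lit 50331649) (nat_lit 813697564) (.two (nat_lit 1048576) (nat_lit 8394793) (.one (nat_lit 8398662) .nil)))),
   .two (nat_lit 11559501839) (nat_lit 2920284804) (.two (nat_lit 21777874949) (nat_lit 4613735730) (.two (nat_lit 605028353) (nat_lit 184552980) (.two (nat_lit 1048576) (nat_lit 16782446) (.one (nat_lit 1057458) .nil)))),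
   .two (nat_lit 28086108175) (nat_lit 159253528848) (.two (nat_lit 159224168456) (nat_lit 806355587) (.two (nat_lit 612368389) (nat_lit 159216829808) (.two (nat_lit 4194305) (nat_lit 1054245) (.two (nat_lit 1048576) (nat_lit 8395901) (.one (nat_lit 4204359) .nil))))),
   .two (nat_lit 9781116943) (nat_lit 11513364617) (.two (nat_lit 843055116) (nat_lit 19545457987) (.two (nat_lit 37748737) (nat_lit 8393755) (.one (nat_lit 16786102) .nil))),
   .two (nat_lit 9881780239) (nat_lit 1048697) (.two (nat_lit 2887778312) (nat_lit 11559502182) (.two (nat_lit 739246085) (nat_lit 11479812118) (.two (nat_lit 34603009) (nat_lit 2100786) (.two (nat_lit 1048576) (nat_lit 2104447) (.one (nat_lit 4204360) .nil))))),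
   .two (nat_lit 4601151503) (nat_lit 156533522545) (.two (nat_lit 3460300808) (nat_lit 3558868262) (.two (nat_lit 156364701697) (nat_lit 4200280) (.one (nat_lit 4204361) .nil))),
   .two (nat_lit 75497487) (nat_lit 68158071) (.two (nat_lit 612368389) (nat_lit 336595000) (.two (nat_lit 16777217) (nat_lit 2101670) (.two (nat_lit 1048576) (nat_lit 2103348) (.one (nat_lit 2107210) .nil)))),
   .two (nat_lit 10506731535) (nat_lit 352321656) (.two (nat_lit 721420296) (nat_lit 28093448550) (.two (nat_lit 721420292) (nat_lit 4197280) (.two (nat_lit 41943041) (nat_lit 4198824) (.two (nat_lit 1048576) (nat_lit 4201607) (.one (nat_lit 16787275) .nil))))),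
   .two (nat_lit 16777231) (nat_lit 612368451) (.two (nat_lit 50331656) (nat_lit 780141234) (.two (nat_lit 16777220) (nat_lit 156472707087) (.two (nat_lit 41943041) (nat_lit 183912896438) (.one (nat_lit 16787276) .nil)))),
   .two (nat_lit 11479810063) (nat_lit 2416967797) (.two (nat_lit 104857608) (nat_lit 705692712) (.two (nat_lit 16777221) (nat_lit 158079124789) (.two (nat_lit 16777217) (nat_lit 1413483018) (.two (nat_lit 8388608) (nat_lit 336598924) (.one (nat_lit 1057474) .nil))))),
   .two (nat_lit 203423759) (nat_lit 1795162227) (.two (nat_lit 654311432) (nat_lit 11511267970) (.two (nat_lit 11559501829) (nat_lit 2099294) (.two (nat_lit 9766436865) (nat_lit 11610885642) (.two (nat_lit 1048576) (nat_lit 2105686) (.one (nat_lit 1058637) .nil))))),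
   .two (nat_lit 13191086095) (nat_lit 19134415364) (.two (nat_lit 3539992584) (nat_lit 47584379748) (.two (nat_lit 16777217) (nat_lit 4198826) (.two (nat_lit 1048576) (nat_lit 8397143) (.one (nat_lit 1058638) .nil)))),
   .two (nat_lit 285212687) (nat_lit 159251431491) (.two (nat_lit 285212680) (nat_lit 21812478315) (.two (nat_lit 13191086085) (nat_lit 10940843384) (.two (nat_lit 37748737) (nat_lit 2101675) (.two (nat_lit 4194304) (nat_lit 8397144) (.one (nat_lit 4204367) .nil))))),
   .two (nat_lit 612368399) (nat_lit 185002360969) (.two (nat_lit 9940500488) (nat_lit 157036839588) (.two (nat_lit 721420293) (nat_lit 21210598909) (.two (nat_lit 2097152) (nat_lit 4201611) (.one (nat_lit 8398672) .nil)))),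
   .two (nat_lit 2988441624) (nat_lit 3524264201) (.two (nat_lit 184416206856) (nat_lit 2923430584) (.two (nat_lit 11546918917) (nat_lit 12114199936) (.two (nat_lit 2097153) (nat_lit 4199976) (.two (nat_lit 1048576) (nat_lit 773855068) (.one (nat_lit 4204369) .nil))))),
   .two (nat_lit 822083599) (nat_lit 336593535) (.two (nat_lit 11492392965) (nat_lit 168822083) (.two (nat_lit 16777217) (nat_lit 47581238367) (.one (nat_lit 1057194) .nil))),
   .two (nat_lit 46407876623) (nat_lit 1358954612) (.two (nat_lit 654311432) (nat_lit 11007952209) (.two (nat_lit 34603009) (nat_lit 10001320461) (.two (nat_lit 1048576) (nat_lit 2103360) (.one (nat_lit 2106055) .nil)))),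
   .two (nat_lit 156372041743) (nat_lit 12047089915) (.two (nat_lit 1753219080) (nat_lit 2316307350) (.two (nat_lit 34603009) (nat_lit 37320920623) (.two (nat_lit 1048576) (nat_lit 8395916) (.one (nat_lit 1056652) .nil)))),
   .two (nat_lit 47548727311) (nat_lit 310378616) (.two (nat_lit 183853121544) (nat_lit 169870668) (.two (nat_lit 41943041) (nat_lit 46978307913) (.one (nat_lit 2107218) .nil))),
   .two (nat_lit 184419352591) (nat_lit 135266441) (.two (nat_lit 135266316) (nat_lit 28089254251) (.two (nat_lit 10503585797) (nat_lit 19599983458) (.two (nat_lit 8388609) (nat_lit 159219978124) (.one (nat_lit 4203211) .nil)))),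
   .two (nat_lit 352321559) (nat_lit 4634705985) (.two (nat_lit 4613734408) (nat_lit 12620662125) (.two (nat_lit 156367847425) (nat_lit 772806179) (.two (nat_lit 1048576) (nat_lit 12163490129) (.one (nat_lit 1058643) .nil)))),
   .two (nat_lit 159217877007) (nat_lit 843055354) (.two (nat_lit 159217877000) (nat_lit 183853123292) (.two (nat_lit 159224168453) (nat_lit 2319451470) (.two (nat_lit 2097153) (nat_lit 4197944) (.two (nat_lit 2097152) (nat_lit 4201613) (.one (nat_lit 4204372) .nil))))),
   .two (nat_lit 183848927247) (nat_lit 183853122137) (.two (nat_lit 13191086085) (nat_lit 2100130) (.two (nat_lit 37748737) (nat_lit 2102825) (.two (nat_lit 4194304) (nat_lit 8397145) (.one (nat_lit 4204373) .nil)))),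
   .two (nat_lit 75497487) (nat_lit 1413481064) (.two (nat_lit 612368389) (nat_lit 10540288057) (.two (nat_lit 41943041) (nat_lit 2100795) (.two (nat_lit 8388608) (nat_lit 2104465) (.one (nat_lit 4204374) .nil)))),
   .two (nat_lit 16777231) (nat_lit 156365750903) (.two (nat_lit 16777220) (nat_lit 840960056) (.two (nat_lit 8388609) (nat_lit 2418020704) (.two (nat_lit 8388608) (nat_lit 1055890) (.one (nat_lit 1058647) .nil)))),
   .two (nat_lit 612368399) (nat_lit 754974837) (.two (nat_lit 11492392973) (nat_lit 3557819446) (.two (nat_lit 184549381) (nat_lit 20640172101) (.two (nat_lit 16777217) (nat_lit 4198832) (.two (nat_lit 1048576) (nat_lit 4200534) (.one (nat_lit 4204376) .nil))))),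
   .two (nat_lit 612368399) (nat_lit 2969567839) (.two (nat_lit 16777221) (nat_lit 11584669001) (.two (nat_lit 2097153) (nat_lit 3531609959) (.one (nat_lit 8397539) .nil))),
   .two (nat_lit 3460300815) (nat_lit 166230753930) (.two (nat_lit 4601151493) (nat_lit 2416969776) (.two (nat_lit 156367847425) (nat_lit 12048144313) (.one (nat_lit 2107225) .nil))),
   .two (nat_lit 612368399) (nat_lit 166245433707) (.two (nat_lit 10370416645) (nat_lit 9974056992) (.two (nat_lit 2097153) (nat_lit 8394657) (.one (nat_lit 16785889) .nil))),
   .two (nat_lit 20638072847) (nat_lit 158143087952) (.two (nat_lit 606076929) (nat_lit 19127077391) (.two (nat_lit 2097152) (nat_lit 1947212915) (.one (nat_lit 1057509) .nil))),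
   .two (nat_lit 713031695) (nat_lit 1212154093) (.two (nat_lit 4194312) (nat_lit 1417675348) (.two (nat_lit 41943045) (nat_lit 13224641824) (.two (nat_lit 605028353) (nat_lit 1786777950) (.two (nat_lit 1048576) (nat_lit 19100865553) (.one (nat_lit 4204378) .nil))))),
   .two (nat_lit 2969567247) (nat_lit 10907287796) (.two (nat_lit 169869320) (nat_lit 13237227413) (.one (nat_lit 16787291) .nil)),
   .two (nat_lit 8388623) (nat_lit 4601151552) (.two (nat_lit 4605345800) (nat_lit 843056670) (.two (nat_lit 8388608) (nat_lit 12620665939) (.one (nat_lit 4204380) .nil))),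
   .two (nat_lit 75497487) (nat_lit 721420959) (.two (nat_lit 16777220) (nat_lit 3028288901) (.two (nat_lit 16777217) (nat_lit 2101670) (.two (nat_lit 8388608) (nat_lit 2103348) (.one (nat_lit 2106108) .nil)))),
   .two (nat_lit 9781116943) (nat_lit 46980399169) (.two (nat_lit 9781116936) (nat_lit 4195014) (.two (nat_lit 2889875461) (nat_lit 156581758268) (.two (nat_lit 37748737) (nat_lit 13237225994) (.two (nat_lit 4194304) (nat_lit 16783461) (.one (nat_lit 16785364) .nil))))),
   .two (nat_lit 3464495119) (nat_lit 156533522540) (.two (nat_lit 2954887176) (nat_lit 813696364) (.two (nat_lit 606076929) (nat_lit 20644367876) (.two (nat_lit 2097152) (nat_lit 8397146) (.one (nat_lit 8398685) .nil)))),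
   .two (nat_lit 75497487) (nat_lit 135266419) (.two (nat_lit 75497480) (nat_lit 11510219816) (.two (nat_lit 612368389) (nat_lit 174685425162) (.two (nat_lit 8388608) (nat_lit 336598924) (.one (nat_lit 1057474) .nil)))),
   .two (nat_lit 176160783) (nat_lit 1914699912) (.two (nat_lit 50331656) (nat_lit 37320918320) (.two (nat_lit 16777217) (nat_lit 28798093834) (.two (nat_lit 16777216) (nat_lit 8395932) (.one (nat_lit 2107230) .nil)))),
   .two (nat_lit 46407876623) (nat_lit 1954546294) (.two (nat_lit 159224168453) (nat_lit 706741579) (.two (nat_lit 156364701697) (nat_lit 8395914) (.one (nat_lit 2107231) .nil))),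
   .two (nat_lit 20644364303) (nat_lit 174685422206) (.two (nat_lit 159224168453) (nat_lit 1053073) (.two (nat_lit 8388608) (nat_lit 1055902) (.one (nat_lit 1058656) .nil))),
   .two (nat_lit 272629775) (nat_lit 19597885692) (.two (nat_lit 10506731528) (nat_lit 159251432745) (.two (nat_lit 4194305) (nat_lit 2100801) (.two (nat_lit 4194304) (nat_lit 2104479) (.one (nat_lit 158177698203) .nil)))),
   .two (nat_lit 176160783) (nat_lit 10921967975) (.two (nat_lit 176160772) (nat_lit 158662133037) (.two (nat_lit 2097153) (nat_lit 11626615181) (.two (nat_lit 2097152) (nat_lit 16784544) (.one (nat_lit 2106137) .nil)))),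
   .two (nat_lit 9768534031) (nat_lit 4028629103) (.two (nat_lit 157036838920) (nat_lit 742394396) (.two (nat_lit 8388608) (nat_lit 203429826) (.one (nat_lit 2106138) .nil))),
   .two (nat_lit 184986632207) (nat_lit 1847590978) (.two (nat_lit 1343225864) (nat_lit 28691139092) (.two (nat_lit 1048576) (nat_lit 2102402) (.one (nat_lit 2106142) .nil))),
   .two (nat_lit 16777231) (nat_lit 272629824) (.two (nat_lit 285212680) (nat_lit 13224642078) (.two (nat_lit 16777216) (nat_lit 183916041299) (.one (nat_lit 4204385) .nil))),
   .two (nat_lit 176160783) (nat_lit 174753579259) (.two (nat_lit 176160776) (nat_lit 2921333796) (.two (nat_lit 176160772) (nat_lit 156567080504) (.two (nat_lit 8388608) (nat_lit 2103411) (.one (nat_lit 2107234) .nil)))),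
   .two (nat_lit 4605345807) (nat_lit 1312817290) (.two (nat_lit 4601151496) (nat_lit 28764538165) (.two (nat_lit 4194305) (nat_lit 19033754122) (.two (nat_lit 4194304) (nat_lit 1055905) (.one (nat_lit 34611631) .nil)))),
   .two (nat_lit 8388623) (nat_lit 874512505) (.two (nat_lit 1780482056) (nat_lit 2886731079) (.two (nat_lit 2097153) (nat_lit 2953842173) (.two (nat_lit 8388608) (nat_lit 21778927507) (.one (nat_lit 8398691) .nil)))),
   .two (nat_lit 46414168079) (nat_lit 184419355137) (.two (nat_lit 8388608) (nat_lit 4201635) (.one (nat_lit 4203312) .nil)),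
   .two (nat_lit 41943055) (nat_lit 21778923772) (.two (nat_lit 3458203656) (nat_lit 20745028216) (.two (nat_lit 705691652) (nat_lit 4638902336) (.two (nat_lit 605028353) (nat_lit 9974058522) (.two (nat_lit 1048576) (nat_lit 2105691) (.one (nat_lit 8397620) .nil))))),
   .two (nat_lit 218103823) (nat_lit 1411383424) (.two (nat_lit 306184204) (nat_lit 706740867) (.two (nat_lit 272629765) (nat_lit 1746932759) (.one (nat_lit 16787300) .nil))),
   .two (nat_lit 16777231) (nat_lit 19537068392) (.two (nat_lit 8388613) (nat_lit 19109250356) (.two (nat_lit 8388609) (nat_lit 165540796349) (.one (nat_lit 13221503430) .nil))),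
   .two (nat_lit 10504634383) (nat_lit 9768535430) (.two (nat_lit 4194305) (nat_lit 46508547780) .nil),
   .two (nat_lit 639631375) (nat_lit 20740833406) (.two (nat_lit 156569174028) (nat_lit 9867101490) (.two (nat_lit 9768534017) (nat_lit 2101689) (.two (nat_lit 4194304) (nat_lit 2105692) (.one (nat_lit 2107237) .nil)))),
   .two (nat_lit 159217877007) (nat_lit 343933053) (.two (nat_lit 169869320) (nat_lit 310379135) (.two (nat_lit 4599054341) (nat_lit 19537070181) (.two (nat_lit 34603009) (nat_lit 880806413) (.two (nat_lit 1048576) (nat_lit 20745033657) (.one (nat_lit 8398694) .nil))))),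
   .two (nat_lit 272629775) (nat_lit 156533522541) (.two (nat_lit 46510637069) (nat_lit 19027460736) (.two (nat_lit 2889875461) (nat_lit 2099310) (.two (nat_lit 4194305) (nat_lit 2101691) (.two (nat_lit 4194304) (nat_lit 2104485) (.one (nat_lit 4204391) .nil))))),
   .two (nat_lit 16777231) (nat_lit 183920231731) (.two (nat_lit 16777217) (nat_lit 156372044310) (.two (nat_lit 16777216) (nat_lit 303047087) .nil)),
   .two (nat_lit 13191086095) (nat_lit 10343153779) (.two (nat_lit 9781116940) (nat_lit 166132187802) (.two (nat_lit 117440517) (nat_lit 1849690207) (.two (nat_lit 612368385) (nat_lit 16780869) (.two (nat_lit 8388608) (nat_lit 16785757) (.one (nat_lit 8398621) .nil))))),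
   .two (nat_lit 169869327) (nat_lit 12054430292) (.two (nat_lit 47555018757) (nat_lit 28790752578) (.two (nat_lit 8388609) (nat_lit 1054253) (.two (nat_lit 1048576) (nat_lit 2105694) (.one (nat_lit 1057591) .nil)))),
   .two (nat_lit 47548727311) (nat_lit 8388882) (.two (nat_lit 10343153672) (nat_lit 159217878558) (.two (nat_lit 8388608) (nat_lit 158144141125) (.one (nat_lit 2107240) .nil))),
   .two (nat_lit 1779433487) (nat_lit 183953784960) (.two (nat_lit 158083317768) (nat_lit 10369370191) (.two (nat_lit 605028353) (nat_lit 2894074258) (.two (nat_lit 1048576) (nat_lit 8395942) (.one (nat_lit 8397248) .nil)))),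
   .two (nat_lit 158075977743) (nat_lit 183949590775) (.two (nat_lit 809500680) (nat_lit 21793604672) (.two (nat_lit 4194308) (nat_lit 16781491) (.two (nat_lit 605028353) (nat_lit 4199970) (.two (nat_lit 1048576) (nat_lit 4202847) (.one (nat_lit 4204393) .nil))))),
   .two (nat_lit 620757016) (nat_lit 10437525633) (.two (nat_lit 10538188812) (nat_lit 721421701) (.two (nat_lit 156364701697) (nat_lit 1210060298) (.two (nat_lit 1048576) (nat_lit 12148809518) .nil))),
   .two (nat_lit 2902458383) (nat_lit 1786773776) (.two (nat_lit 41943048) (nat_lit 754975366) (.two (nat_lit 9934209029) (nat_lit 3020948854) (.two (nat_lit 606076929) (nat_lit 12633246238) (.two (nat_lit 1048576) (nat_lit 8395944) (.one (nat_lit 2106171) .nil))))),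
   .two (nat_lit 10504634383) (nat_lit 46510637300) (.two (nat_lit 18928893960) (nat_lit 12618565714) (.two (nat_lit 9768534017) (nat_lit 1176505865) (.two (nat_lit 4194304) (nat_lit 2103433) (.one (nat_lit 2107242) .nil)))),
   .two (nat_lit 11492392975) (nat_lit 157038936172) (.two (nat_lit 4601151496) (nat_lit 185035916622) (.two (nat_lit 4194305) (nat_lit 16780870) (.two (nat_lit 4194304) (nat_lit 16784553) (.one (nat_lit 4204395) .nil)))),
   .two (nat_lit 18933088271) (nat_lit 4194561) (.two (nat_lit 184419352589) (nat_lit 46414168674) (.two (nat_lit 809500677) (nat_lit 10007612903) (.two (nat_lit 4194304) (nat_lit 13195287674) (.one (nat_lit 4202505) .nil)))),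
   .two (nat_lit 754974735) (nat_lit 185020186741) (.two (nat_lit 185020186636) (nat_lit 12062819714) (.two (nat_lit 34603009) (nat_lit 11492399034) (.one (nat_lit 16786248) .nil))),
   .two (nat_lit 166132187151) (nat_lit 11511267843) (.two (nat_lit 46978301960) (nat_lit 158649551393) (.two (nat_lit 2097152) (nat_lit 4201644) (.one (nat_lit 2106185) .nil))),
   .two (nat_lit 9948889103) (nat_lit 10940842092) (.two (nat_lit 203423752) (nat_lit 9881782783) (.two (nat_lit 2097152) (nat_lit 16784557) (.one (nat_lit 2106187) .nil))),
   .two (nat_lit 21777874959) (nat_lit 876609655) (.two (nat_lit 11543773192) (nat_lit 174755677544) (.two (nat_lit 34603009) (nat_lit 2923434357) (.two (nat_lit 1048576) (nat_lit 4201646) (.one (nat_lit 4203340) .nil)))),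
   .two (nat_lit 41943055) (nat_lit 156984410235) (.two (nat_lit 2969567240) (nat_lit 243270308) (.two (nat_lit 184549380) (nat_lit 209716531) (.two (nat_lit 620756993) (nat_lit 165525064206) (.two (nat_lit 16777216) (nat_lit 1054872) (.one (nat_lit 4027589245) .nil))))),
   .two (nat_lit 2887778319) (nat_lit 754974831) (.two (nat_lit 101711880) (nat_lit 1426064052) (.two (nat_lit 1779433477) (nat_lit 2988443692) (.two (nat_lit 16777217) (nat_lit 184987685264) (.two (nat_lit 1048576) (nat_lit 2104495) (.one (nat_lit 135276320) .nil))))),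
   .two (nat_lit 742391823) (nat_lit 37246468704) (.two (nat_lit 4194308) (nat_lit 1176503650) (.two (nat_lit 4194305) (nat_lit 1053119) (.two (nat_lit 4194304) (nat_lit 1054877) (.one (nat_lit 1058668) .nil)))),
   .two (nat_lit 16777231) (nat_lit 156367848522) (.two (nat_lit 1913651205) (nat_lit 37262198799) (.two (nat_lit 9765388289) (nat_lit 754978295) (.two (nat_lit 4194304) (nat_lit 1055823) (.one (nat_lit 1058669) .nil)))),
   .two (nat_lit 1291845647) (nat_lit 673185900) (.two (nat_lit 10385096712) (nat_lit 37314626216) (.two (nat_lit 203423749) (nat_lit 19545458002) (.two (nat_lit 2097153) (nat_lit 16782897) (.two (nat_lit 16777216) (nat_lit 2105696) (.one (nat_lit 2106216) .nil))))),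
   .two (nat_lit 620757007) (nat_lit 156372041844) (.two (nat_lit 3460300808) (nat_lit 12054430345) (.two (nat_lit 171966469) (nat_lit 1761612185) (.two (nat_lit 8388608) (nat_lit 1054754) (.one (nat_lit 16787310) .nil)))),
   .two (nat_lit 159217877007) (nat_lit 28093448302) (.two (nat_lit 159217877000) (nat_lit 8389320) (.two (nat_lit 2954887173) (nat_lit 8392884) (.two (nat_lit 9781116929) (nat_lit 2988444183) (.two (nat_lit 16777216) (nat_lit 2103222) (.one (nat_lit 2107247) .nil))))),
   .two (nat_lit 10519314456) (nat_lit 13224641378) (.two (nat_lit 16777217) (nat_lit 18928900732) .nil),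
   .two (nat_lit 18933088271) (nat_lit 12050236094) (.two (nat_lit 171966469) (nat_lit 1317014054) (.two (nat_lit 1048576) (nat_lit 8394920) (.one (nat_lit 8397675) .nil))),
   .two (nat_lit 10385096719) (nat_lit 28791800502) (.two (nat_lit 654311429) (nat_lit 2887779678) (.two (nat_lit 606076929) (nat_lit 156380436526) (.one (nat_lit 1277173375) .nil))),
   .two (nat_lit 9934209039) (nat_lit 158143086701) (.two (nat_lit 183845781512) (nat_lit 156569174374) (.two (nat_lit 183845781508) (nat_lit 3460303779) (.two (nat_lit 2097153) (nat_lit 4198849) (.two (nat_lit 4194304) (nat_lit 165526116497) (.one (nat_lit 2107248) .nil))))),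
   .two (nat_lit 13203669007) (nat_lit 3531606539) (.two (nat_lit 8388608) (nat_lit 2104505) (.one (nat_lit 2107249) .nil)),
   .two (nat_lit 9881780239) (nat_lit 37313577068) (.two (nat_lit 184986632200) (nat_lit 12054432283) (.two (nat_lit 1048576) (nat_lit 8395963) (.one (nat_lit 8397688) .nil))),
   .two (nat_lit 184416206863) (nat_lit 4647288970) (.two (nat_lit 184416206856) (nat_lit 158662132357) (.two (nat_lit 12114198533) (nat_lit 16779381) (.two (nat_lit 34603009) (nat_lit 1862274471) (.two (nat_lit 1048576) (nat_lit 16784572) (.one (nat_lit 47547685592) .nil))))),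
   .two (nat_lit 9768534031) (nat_lit 874512510) (.two (nat_lit 10907287565) (nat_lit 2319451510) (.two (nat_lit 2097153) (nat_lit 157038942335) (.one (nat_lit 4203389) .nil))),
   .two (nat_lit 20738736168) (nat_lit 12062818578) (.two (nat_lit 117440520) (nat_lit 165526111291) (.two (nat_lit 203423749) (nat_lit 20719863878) (.two (nat_lit 9781116929) (nat_lit 2418022574) (.one (nat_lit 2106238) .nil)))),
   .two (nat_lit 4194319) (nat_lit 10538189428) (.two (nat_lit 4194308) (nat_lit 46474987633) (.two (nat_lit 4194305) (nat_lit 2100975) (.two (nat_lit 4194304) (nat_lit 12147759393) (.one (nat_lit 1057680) .nil)))),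
   .two (nat_lit 184986632207) (nat_lit 156573368446) (.two (nat_lit 18933088269) (nat_lit 638584117) (.two (nat_lit 8388609) (nat_lit 28790757405) (.one (nat_lit 1057682) .nil))),
   .two (nat_lit 8388623) (nat_lit 46489665655) (.two (nat_lit 83886088) (nat_lit 10947133799) (.two (nat_lit 620756997) (nat_lit 679480749) (.two (nat_lit 16777216) (nat_lit 645928778) (.one (nat_lit 8398706) .nil)))),
   .two (nat_lit 2969567247) (nat_lit 20738736406) (.two (nat_lit 21208498184) (nat_lit 3003123810) (.two (nat_lit 606076929) (nat_lit 754978295) (.two (nat_lit 8388608) (nat_lit 102766520) (.one (nat_lit 2106263) .nil)))),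
   .two (nat_lit 11479810063) (nat_lit 218104469) (.two (nat_lit 822083589) (nat_lit 2418017629) (.two (nat_lit 2097153) (nat_lit 158079126025) (.two (nat_lit 2097152) (nat_lit 2990542737) (.one (nat_lit 2106264) .nil)))),
   .two (nat_lit 13191086095) (nat_lit 9899606137) (.two (nat_lit 159217877000) (nat_lit 605028990) (.two (nat_lit 69206021) (nat_lit 9966716263) (.two (nat_lit 37748737) (nat_lit 3524267500) (.two (nat_lit 1048576) (nat_lit 1346377665) (.one (nat_lit 1057691) .nil))))),
   .two (nat_lit 4605345807) (nat_lit 28705816712) (.two (nat_lit 8388616) (nat_lit 1325401122) (.two (nat_lit 8388612) (nat_lit 1358956949) (.two (nat_lit 16777217) (nat_lit 11584670238) (.two (nat_lit 2097152) (nat_lit 19604182109) (.one (nat_lit 16787315) .nil))))),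
   .two (nat_lit 184549391) (nat_lit 9933160515) (.two (nat_lit 184549384) (nat_lit 876610250) (.two (nat_lit 176160772) (nat_lit 20637025122) (.two (nat_lit 8388609) (nat_lit 46473939463) (.two (nat_lit 2097152) (nat_lit 855643103) (.one (nat_lit 10552874306) .nil))))),
   .two (nat_lit 11559501839) (nat_lit 847249523) (.two (nat_lit 721420296) (nat_lit 304087707) (.two (nat_lit 50331653) (nat_lit 46481277802) (.two (nat_lit 2097155) (nat_lit 142607202) (.two (nat_lit 2097153) (nat_lit 209717763) (.two (nat_lit 1048576) (nat_lit 156567083459) (.one (nat_lit 2105436) .nil)))))),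
   .two (nat_lit 285212687) (nat_lit 46980399138) (.two (nat_lit 285212687) (nat_lit 46980399140) (.two (nat_lit 50331656) (nat_lit 11546919277) (.two (nat_lit 4194311) (nat_lit 2902458965) (.two (nat_lit 16777220) (nat_lit 339738847) (.two (nat_lit 4194307) (nat_lit 185002361704) (.two (nat_lit 4194305) (nat_lit 117446131) (.two (nat_lit 2097152) (nat_lit 4198340) (.one (nat_lit 4201279) .nil)))))))),
   .two (nat_lit 8388623) (nat_lit 272629881) (.two (nat_lit 8388616) (nat_lit 2954887824) (.two (nat_lit 4599054341) (nat_lit 1178600290) (.two (nat_lit 8388609) (nat_lit 158649551367) (.two (nat_lit 1048576) (nat_lit 47548732397) (.one (nat_lit 336597062) .nil))))),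
   .two (nat_lit 9768534031) (nat_lit 183846830201) (.two (nat_lit 639631368) (nat_lit 159219974762) (.two (nat_lit 203423749) (nat_lit 339739950) (.two (nat_lit 4194305) (nat_lit 185021238853) (.two (nat_lit 16777216) (nat_lit 2104129) (.one (nat_lit 16782698) .nil))))),
   .two (nat_lit 4194319) (nat_lit 746586150) (.two (nat_lit 4634705937) (nat_lit 10336862342) (.two (nat_lit 11543773192) (nat_lit 11611932423) (.two (nat_lit 4194308) (nat_lit 772800735) (.two (nat_lit 20638072835) (nat_lit 775949202) (.two (nat_lit 612368385) (nat_lit 4198343) (.two (nat_lit 1048576) (nat_lit 4200988) (.one (nat_lit 8397736) .nil))))))),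
   .two (nat_lit 4194319) (nat_lit 46481277068) (.two (nat_lit 169869328) (nat_lit 109052184) (.two (nat_lit 8388616) (nat_lit 21208498272) (.two (nat_lit 37748743) (nat_lit 184423548763) (.two (nat_lit 4194308) (nat_lit 772800735) (.two (nat_lit 41943043) (nat_lit 158144136037) (.two (nat_lit 37748737) (nat_lit 1053924) (.two (nat_lit 1048576) (nat_lit 4199653) (.one (nat_lit 1057705) .nil)))))))),
   .two (nat_lit 4194319) (nat_lit 3531604086) (.two (nat_lit 4194312) (nat_lit 1786774122) (.two (nat_lit 4194308) (nat_lit 12048139577) (.two (nat_lit 605028353) (nat_lit 46409978267) (.two (nat_lit 1048576) (nat_lit 8393958) (.one (nat_lit 8395586) .nil))))),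
   .two (nat_lit 4194319) (nat_lit 4605345857) (.two (nat_lit 4194312) (nat_lit 2357199209) (.two (nat_lit 4194308) (nat_lit 10436479035) (.two (nat_lit 37748737) (nat_lit 21785219824) (.two (nat_lit 4194304) (nat_lit 8392648) (.one (nat_lit 1057706) .nil))))),
   .two (nat_lit 4194319) (nat_lit 3531604086) (.two (nat_lit 4194312) (nat_lit 1786774122) (.two (nat_lit 4194308) (nat_lit 12048139577) (.two (nat_lit 605028353) (nat_lit 46409978267) (.two (nat_lit 1048576) (nat_lit 203426617) (.one (nat_lit 8396897) .nil))))),
   .two (nat_lit 4194319) (nat_lit 3531604086) (.two (nat_lit 4194312) (nat_lit 159224169067) (.two (nat_lit 4194308) (nat_lit 1175455775) (.two (nat_lit 37748737) (nat_lit 336597558) (.two (nat_lit 4194304) (nat_lit 3524271288) (.one (nat_lit 8396898) .nil))))),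
   .two (nat_lit 4601151499) (nat_lit 1343225977) (.two (nat_lit 4601151503) (nat_lit 19530776925) (.two (nat_lit 159216828426) (nat_lit 12618564208) (.two (nat_lit 169869320) (nat_lit 19599982690) (.two (nat_lit 28690087941) (nat_lit 3525313380) (.two (nat_lit 34603009) (nat_lit 236979146) (.two (nat_lit 1048576) (nat_lit 2102505) (.one (nat_lit 1055557) .nil))))))),
   .two (nat_lit 47548727319) (nat_lit 1384120584) (.two (nat_lit 171966470) (nat_lit 183912890732) (.two (nat_lit 272629767) (nat_lit 2097363) (.two (nat_lit 1344274437) (nat_lit 156465368084) (.two (nat_lit 37748737) (nat_lit 35656020) (.two (nat_lit 4194304) (nat_lit 8391388) (.one (nat_lit 4201288) .nil)))))),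
   .two (nat_lit 47548727319) (nat_lit 1384120584) (.two (nat_lit 272629768) (nat_lit 34603219) (.two (nat_lit 4194312) (nat_lit 1914699874) (.two (nat_lit 1344274437) (nat_lit 156465368084) (.two (nat_lit 37748737) (nat_lit 35656020) (.two (nat_lit 4194304) (nat_lit 1055263) (.one (nat_lit 8395593) .nil)))))),
   .two (nat_lit 46409973771) (nat_lit 183946444866) (.two (nat_lit 2887778319) (nat_lit 166132187485) (.two (nat_lit 159224168454) (nat_lit 19026411879) (.two (nat_lit 4194312) (nat_lit 1914699874) (.two (nat_lit 2889875458) (nat_lit 35654615) (.two (nat_lit 20644364292) (nat_lit 166132187599) (.two (nat_lit 605028353) (nat_lit 4198191) (.two (nat_lit 1048576) (nat_lit 4200992) (.one (nat_lit 1058680) .nil)))))))),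
   .two (nat_lit 47548727319) (nat_lit 1384120584) (.two (nat_lit 4194312) (nat_lit 1914699874) (.two (nat_lit 1344274437) (nat_lit 156465368084) (.two (nat_lit 37748737) (nat_lit 35656020) (.two (nat_lit 4194304) (nat_lit 1053930) (.one (nat_lit 1057707) .nil))))),
   .two (nat_lit 4601151503) (nat_lit 1310720121) (.two (nat_lit 10940841992) (nat_lit 1916797547) (.two (nat_lit 2097157) (nat_lit 742393145) (.two (nat_lit 34603009) (nat_lit 28758247963) (.two (nat_lit 1048576) (nat_lit 1176506259) (.one (nat_lit 1947211114) .nil))))),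
   .two (nat_lit 4601151503) (nat_lit 158176641145) (.two (nat_lit 169869320) (nat_lit 880804558) (.two (nat_lit 4194308) (nat_lit 4638900447) (.two (nat_lit 2097157) (nat_lit 156976022373) (.two (nat_lit 2097153) (nat_lit 47547681341) (.two (nat_lit 8388608) (nat_lit 158177693636) (.one (nat_lit 8396904) .nil)))))),
   .two (nat_lit 612368399) (nat_lit 19042140408) (.two (nat_lit 612368392) (nat_lit 19042140780) (.two (nat_lit 1745879045) (nat_lit 185027528017) (.two (nat_lit 605028353) (nat_lit 3028290103) (.two (nat_lit 1048576) (nat_lit 46523223995) (.one (nat_lit 1056893) .nil))))),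
   .two (nat_lit 169869377) (nat_lit 156976021621) (.two (nat_lit 4194319) (nat_lit 12115247462) (.two (nat_lit 4194312) (nat_lit 12115248417) (.two (nat_lit 4194308) (nat_lit 46414173193) (.two (nat_lit 4194304) (nat_lit 1753225841) (.one (nat_lit 8398920) .nil))))),
   .two (nat_lit 28757196867) (nat_lit 1283457143) (.two (nat_lit 2969567247) (nat_lit 3464495770) (.two (nat_lit 612368392) (nat_lit 184550737) (.two (nat_lit 10506731525) (nat_lit 183953787405) (.two (nat_lit 620756993) (nat_lit 158176646158) (.two (nat_lit 4194304) (nat_lit 28757203592) (.one (nat_lit 1058889) .nil)))))),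
   .two (nat_lit 822083651) (nat_lit 1175453822) (.two (nat_lit 11492392975) (nat_lit 272630436) (.two (nat_lit 156365750280) (nat_lit 2889877526) (.two (nat_lit 34603013) (nat_lit 16782352) (.two (nat_lit 1048576) (nat_lit 11626617498) (.one (nat_lit 16787530) .nil))))),
   .two (nat_lit 3525312578) (nat_lit 21207449714) (.two (nat_lit 10504634383) (nat_lit 20704133761) (.two (nat_lit 10504634376) (nat_lit 269485401) (.two (nat_lit 2887778308) (nat_lit 21811431949) (.two (nat_lit 4194305) (nat_lit 185021241939) (.one (nat_lit 2106715) .nil))))),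
   .two (nat_lit 705691713) (nat_lit 285212737) (.two (nat_lit 285212687) (nat_lit 19530776936) (.two (nat_lit 4194312) (nat_lit 46978302819) (.two (nat_lit 4194308) (nat_lit 184986634768) (.two (nat_lit 8388609) (nat_lit 1310725129) (.two (nat_lit 4194304) (nat_lit 156533530077) (.one (nat_lit 2107467) .nil)))))),
   .two (nat_lit 339738689) (nat_lit 19109249146) (.two (nat_lit 285212687) (nat_lit 19530776936) (.two (nat_lit 4194312) (nat_lit 9982444863) (.two (nat_lit 13191086085) (nat_lit 1310722593) (.two (nat_lit 8388609) (nat_lit 46978307109) (.two (nat_lit 8388608) (nat_lit 10336869040) (.one (nat_lit 2107468) .nil)))))),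
   .two (nat_lit 4605345857) (nat_lit 47584379012) (.two (nat_lit 37748751) (nat_lit 46414170624) (.two (nat_lit 2097153) (nat_lit 1379931176) (.two (nat_lit 2097152) (nat_lit 4202086) (.one (nat_lit 2106741) .nil)))),
   .two (nat_lit 306184257) (nat_lit 156481093764) (.two (nat_lit 9781116943) (nat_lit 11513365794) (.two (nat_lit 809500677) (nat_lit 184552898) (.two (nat_lit 605028353) (nat_lit 708843396) (.two (nat_lit 1048576) (nat_lit 37756416) (.one (nat_lit 1058169) .nil))))),
   .two (nat_lit 184986632256) (nat_lit 9915334773) (.two (nat_lit 19596836888) (nat_lit 843055299) (.two (nat_lit 12117344264) (nat_lit 19127076144) (.two (nat_lit 1191182341) (nat_lit 174685425553) (.two (nat_lit 16777216) (nat_lit 9866058420) (.one (nat_lit 16787533) .nil))))),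
   .two (nat_lit 2969567296) (nat_lit 2353004663) (.two (nat_lit 218103823) (nat_lit 3460301451) (.two (nat_lit 272629768) (nat_lit 9948891646) (.two (nat_lit 4194305) (nat_lit 16782379) (.two (nat_lit 16777216) (nat_lit 4203718) .nil)))),
   .two (nat_lit 822083697) (nat_lit 1175453822) (.two (nat_lit 11492392975) (nat_lit 1950351984) (.two (nat_lit 11492392968) (nat_lit 183916037474) (.two (nat_lit 2097157) (nat_lit 9915337251) (.two (nat_lit 2097153) (nat_lit 2902463478) (.two (nat_lit 1048576) (nat_lit 151002590) (.one (nat_lit 1058170) .nil)))))),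
   .two (nat_lit 310378563) (nat_lit 184431935615) (.two (nat_lit 822083599) (nat_lit 343933596) (.two (nat_lit 16777224) (nat_lit 2961180026) (.two (nat_lit 620756997) (nat_lit 28798094811) (.two (nat_lit 8388609) (nat_lit 16782404) (.two (nat_lit 8388608) (nat_lit 16785882) (.one (nat_lit 8398203) .nil)))))),
   .two (nat_lit 12054429761) (nat_lit 184549486) (.two (nat_lit 620757007) (nat_lit 1753219678) (.two (nat_lit 620757000) (nat_lit 2994734434) (.two (nat_lit 713031685) (nat_lit 11559505796) (.two (nat_lit 1048576) (nat_lit 159257729653) (.one (nat_lit 8398204) .nil))))),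
   .two (nat_lit 4638900289) (nat_lit 721420404) (.two (nat_lit 50331663) (nat_lit 9899608079) (.two (nat_lit 8388612) (nat_lit 16780738) (.two (nat_lit 2097153) (nat_lit 1054623) (.two (nat_lit 2097152) (nat_lit 9933169112) (.one (nat_lit 2107470) .nil))))),
   .two (nat_lit 159224168515) (nat_lit 1276117353) (.two (nat_lit 20644364296) (nat_lit 4027584407) (.two (nat_lit 8388608) (nat_lit 672143963) (.one (nat_lit 1058895) .nil))),
   .two (nat_lit 3527409728) (nat_lit 174686470760) (.two (nat_lit 203423752) (nat_lit 19532875294) (.two (nat_lit 2097153) (nat_lit 159253536304) (.one (nat_lit 4204624) .nil))),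
   .two (nat_lit 721420398) (nat_lit 109052027) (.two (nat_lit 41943055) (nat_lit 721421605) (.two (nat_lit 3531603973) (nat_lit 165540794734) (.two (nat_lit 9765388289) (nat_lit 176168445) (.one (nat_lit 158646413219) .nil)))),
   .two (nat_lit 772800622) (nat_lit 9766436992) (.two (nat_lit 174753579023) (nat_lit 34603640) (.two (nat_lit 20637024264) (nat_lit 11578378786) (.two (nat_lit 4194305) (nat_lit 2886737391) (.one (nat_lit 1058173) .nil)))),
   .two (nat_lit 1191182449) (nat_lit 1745879283) (.two (nat_lit 117440527) (nat_lit 672137848) (.two (nat_lit 705691656) (nat_lit 11492394526) (.two (nat_lit 4194305) (nat_lit 168827503) (.one (nat_lit 806364502) .nil)))),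
   .two (nat_lit 2954887232) (nat_lit 1795162720) (.two (nat_lit 50331656) (nat_lit 11511268653) (.two (nat_lit 285212677) (nat_lit 46407880166) (.two (nat_lit 16777217) (nat_lit 13188994003) (.two (nat_lit 2097152) (nat_lit 16785883) (.one (nat_lit 16786814) .nil))))),
   .two (nat_lit 285212739) (nat_lit 19532873845) (.two (nat_lit 2902458383) (nat_lit 3024093841) (.two (nat_lit 13191086093) (nat_lit 158091708939) (.two (nat_lit 37748737) (nat_lit 159266116920) (.one (nat_lit 13237231765) .nil)))),
   .two (nat_lit 822083651) (nat_lit 11580473462) (.two (nat_lit 183853121551) (nat_lit 9802089103) (.two (nat_lit 713031688) (nat_lit 11492394272) (.two (nat_lit 50331653) (nat_lit 10007611930) (.two (nat_lit 41943041) (nat_lit 3560969261) (.two (nat_lit 4194304) (nat_lit 8397276) (.one (nat_lit 4203903) .nil)))))),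
   .two (nat_lit 9881780289) (nat_lit 343933037) (.two (nat_lit 8388623) (nat_lit 1358955093) (.two (nat_lit 8388616) (nat_lit 1862272342) (.two (nat_lit 8388612) (nat_lit 16781679) (.two (nat_lit 16777217) (nat_lit 8394656) (.two (nat_lit 8388608) (nat_lit 16785885) (.one (nat_lit 16787537) .nil)))))),
   .two (nat_lit 3464495221) (nat_lit 1191182583) (.two (nat_lit 3464495119) (nat_lit 28793898350) (.two (nat_lit 13191086085) (nat_lit 8391206) (.two (nat_lit 620756993) (nat_lit 1216353278) (.two (nat_lit 4194304) (nat_lit 8397278) (.one (nat_lit 16786816) .nil))))),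
   .two (nat_lit 4601151552) (nat_lit 10343153779) (.two (nat_lit 10343153704) (nat_lit 4601151683) (.two (nat_lit 156372041740) (nat_lit 9802090014) (.two (nat_lit 156372041729) (nat_lit 183949595676) (.two (nat_lit 1048576) (nat_lit 2961188020) .nil)))),
   .two (nat_lit 46414168129) (nat_lit 46510637169) (.two (nat_lit 339738648) (nat_lit 46414168930) (.two (nat_lit 4194308) (nat_lit 19033754145) (.two (nat_lit 37748737) (nat_lit 10443820935) (.two (nat_lit 4194304) (nat_lit 8395465) (.one (nat_lit 4203905) .nil))))),
   .two (nat_lit 184419352686) (nat_lit 68157686) (.two (nat_lit 19599982607) (nat_lit 2316305250) (.two (nat_lit 184419352581) (nat_lit 1276122069) (.two (nat_lit 1048576) (nat_lit 9936312906) (.one (nat_lit 34612268) .nil)))),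
   .two (nat_lit 184419352641) (nat_lit 12163481722) (.two (nat_lit 2902458383) (nat_lit 166232851089) (.two (nat_lit 184419352584) (nat_lit 12633244998) (.two (nat_lit 171966469) (nat_lit 3036678694) (.two (nat_lit 4194305) (nat_lit 721425457) (.two (nat_lit 1048576) (nat_lit 104864329) (.one (nat_lit 13187949555) .nil)))))),
   .two (nat_lit 10436477045) (nat_lit 21785215096) (.two (nat_lit 3464495119) (nat_lit 19027461413) (.two (nat_lit 11543773189) (nat_lit 2100738) (.two (nat_lit 34603009) (nat_lit 35656744) (.two (nat_lit 8388608) (nat_lit 1056362) (.one (nat_lit 1058898) .nil))))),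
   .two (nat_lit 12117344320) (nat_lit 12163481722) (.two (nat_lit 2902458383) (nat_lit 19599984158) (.two (nat_lit 37748737) (nat_lit 10385101873) (.two (nat_lit 1048576) (nat_lit 104864329) (.one (nat_lit 4203907) .nil)))),
   .two (nat_lit 1376780355) (nat_lit 20705181812) (.two (nat_lit 28086108175) (nat_lit 1948255598) (.two (nat_lit 10335813637) (nat_lit 184987685856) (.two (nat_lit 16777216) (nat_lit 13188998105) .nil))),
   .two (nat_lit 2969567299) (nat_lit 156567076972) (.two (nat_lit 16777231) (nat_lit 1283458417) (.two (nat_lit 8388612) (nat_lit 184554548) (.two (nat_lit 16777216) (nat_lit 1344283848) .nil))),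
   .two (nat_lit 3527409730) (nat_lit 21208498241) (.two (nat_lit 21208498191) (nat_lit 46477082819) (.two (nat_lit 174753579016) (nat_lit 2923431242) (.two (nat_lit 34603013) (nat_lit 37751311) (.two (nat_lit 34603009) (nat_lit 156365757091) (.one (nat_lit 2107475) .nil))))),
   .two (nat_lit 1962934382) (nat_lit 772800626) (.two (nat_lit 184416206863) (nat_lit 11492394321) (.two (nat_lit 12114198533) (nat_lit 19042144158) (.two (nat_lit 1048576) (nat_lit 47563414164) (.one (nat_lit 1058900) .nil)))),
   .two (nat_lit 11559501890) (nat_lit 183853121666) (.two (nat_lit 8388623) (nat_lit 11559502019) (.two (nat_lit 8388616) (nat_lit 4647290185) (.two (nat_lit 8388612) (nat_lit 16780804) (.two (nat_lit 9765388289) (nat_lit 21223184231) (.two (nat_lit 1048576) (nat_lit 8397279) (.one (nat_lit 16787541) .nil)))))),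
   .two (nat_lit 721420403) (nat_lit 28697428086) (.two (nat_lit 41943055) (nat_lit 50332263) (.two (nat_lit 1175453704) (nat_lit 855639416) (.two (nat_lit 184549381) (nat_lit 11014244881) (.two (nat_lit 16777217) (nat_lit 21818774493) (.two (nat_lit 16777216) (nat_lit 2961186391) (.one (nat_lit 16787542) .nil)))))),
   .two (nat_lit 272629827) (nat_lit 9948889283) (.two (nat_lit 620757000) (nat_lit 2319451510) (.two (nat_lit 1358954501) (nat_lit 1379929563) (.two (nat_lit 16777217) (nat_lit 4634711083) (.two (nat_lit 4194304) (nat_lit 16785006) (.one (nat_lit 16787543) .nil))))),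
   .two (nat_lit 339738732) (nat_lit 157051519100) (.two (nat_lit 4194319) (nat_lit 822084188) (.two (nat_lit 1929379848) (nat_lit 46507492721) (.two (nat_lit 183848927236) (nat_lit 1053040) (.two (nat_lit 156372041729) (nat_lit 10338964542) (.two (nat_lit 8388608) (nat_lit 11546925667) (.one (nat_lit 4204632) .nil)))))),
   .two (nat_lit 183928619074) (nat_lit 11577327731) (.two (nat_lit 184423546895) (nat_lit 1745880103) (.two (nat_lit 1929379848) (nat_lit 11611933194) (.two (nat_lit 156364701697) (nat_lit 10913585021) (.two (nat_lit 1048576) (nat_lit 2105824) (.one (nat_lit 1058905) .nil))))),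
   .two (nat_lit 2902458433) (nat_lit 10007609453) (.two (nat_lit 612368399) (nat_lit 13237223782) (.two (nat_lit 18925748232) (nat_lit 8391571) (.two (nat_lit 183845781508) (nat_lit 8393073) (.two (nat_lit 34603009) (nat_lit 8394657) (.two (nat_lit 1048576) (nat_lit 16785889) (.one (nat_lit 16787546) .nil)))))),
   .two (nat_lit 117440579) (nat_lit 21777875011) (.two (nat_lit 9881780239) (nat_lit 3524264296) (.two (nat_lit 158075977736) (nat_lit 2365588827) (.two (nat_lit 21777874949) (nat_lit 16780805) (.two (nat_lit 605028353) (nat_lit 37262201834) (.two (nat_lit 1048576) (nat_lit 2969574039) (.one (nat_lit 16787547) .nil)))))),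
   .two (nat_lit 3464495169) (nat_lit 166230753932) (.two (nat_lit 606076936) (nat_lit 159224169766) (.two (nat_lit 47555018757) (nat_lit 1411385895) (.two (nat_lit 8388609) (nat_lit 2104376) (.two (nat_lit 4194304) (nat_lit 47548736595) .nil)))),
   .two (nat_lit 10907287668) (nat_lit 4043309186) (.two (nat_lit 654311439) (nat_lit 1310720616) (.two (nat_lit 654311432) (nat_lit 169870700) (.two (nat_lit 3525312517) (nat_lit 9881782785) (.two (nat_lit 2097153) (nat_lit 285219507) (.one (nat_lit 16787548) .nil))))),
   .two (nat_lit 3464495169) (nat_lit 4028629058) (.two (nat_lit 19530776591) (nat_lit 343933596) (.two (nat_lit 3525312520) (nat_lit 21818770782) (.two (nat_lit 19530776581) (nat_lit 166203493868) (.two (nat_lit 2097153) (nat_lit 8393797) (.two (nat_lit 2097152) (nat_lit 8396399) (.one (nat_lit 1283466336) .nil)))))),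
   .two (nat_lit 46510637121) (nat_lit 11492393072) (.two (nat_lit 2889875471) (nat_lit 117441833) (.two (nat_lit 822083589) (nat_lit 156569176577) (.two (nat_lit 50331649) (nat_lit 4201529) (.two (nat_lit 16777216) (nat_lit 4202978) (.one (nat_lit 4204637) .nil))))),
   .two (nat_lit 4194370) (nat_lit 158083317873) (.two (nat_lit 4194319) (nat_lit 46514832228) (.two (nat_lit 2097157) (nat_lit 159253531169) (.two (nat_lit 2097153) (nat_lit 21781027418) (.one (nat_lit 4204638) .nil)))),
   .two (nat_lit 4194370) (nat_lit 2969567297) (.two (nat_lit 4194319) (nat_lit 20652754262) (.two (nat_lit 184989777925) (nat_lit 13187943885) (.two (nat_lit 50331649) (nat_lit 183848932314) (.two (nat_lit 1048576) (nat_lit 2105827) (.one (nat_lit 16787551) .nil))))),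
   .two (nat_lit 11559501889) (nat_lit 3557818501) (.two (nat_lit 276824079) (nat_lit 754977279) (.two (nat_lit 8388609) (nat_lit 605033441) (.two (nat_lit 1048576) (nat_lit 8396401) (.one (nat_lit 156532483026) .nil)))),
   .two (nat_lit 8388674) (nat_lit 1795162225) (.two (nat_lit 117440527) (nat_lit 1853883741) (.two (nat_lit 11492392964) (nat_lit 165532405253) (.two (nat_lit 50331649) (nat_lit 158150431755) (.two (nat_lit 16777216) (nat_lit 8396403) (.one (nat_lit 8398944) .nil))))),
   .two (nat_lit 184549441) (nat_lit 11584668322) (.two (nat_lit 41943048) (nat_lit 50332966) (.two (nat_lit 184549380) (nat_lit 8393074) (.two (nat_lit 41943041) (nat_lit 166196156250) (.two (nat_lit 1048576) (nat_lit 8397907) .nil)))),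
   .two (nat_lit 9881780290) (nat_lit 2097404) (.two (nat_lit 1291845647) (nat_lit 304087399) (.two (nat_lit 1277165576) (nat_lit 9881781090) (.two (nat_lit 639631365) (nat_lit 4043311623) (.two (nat_lit 9766436865) (nat_lit 19545460615) (.two (nat_lit 2097152) (nat_lit 183962180293) (.one (nat_lit 16786829) .nil)))))),
   .two (nat_lit 772800579) (nat_lit 620757122) (.two (nat_lit 11559501839) (nat_lit 135266662) (.two (nat_lit 705691656) (nat_lit 721422850) (.two (nat_lit 2097153) (nat_lit 754978722) (.two (nat_lit 2097152) (nat_lit 158091714015) (.one (nat_lit 16786830) .nil))))),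
   .two (nat_lit 1745879107) (nat_lit 2353004655) (.two (nat_lit 21214789647) (nat_lit 806355306) (.two (nat_lit 20644364296) (nat_lit 11476666886) (.two (nat_lit 612368385) (nat_lit 10506736688) (.two (nat_lit 8388608) (nat_lit 1056372) (.one (nat_lit 1058913) .nil))))),
   .two (nat_lit 754974786) (nat_lit 37313577068) (.two (nat_lit 754974735) (nat_lit 156465366314) (.two (nat_lit 705691652) (nat_lit 20753420193) (.two (nat_lit 1048576) (nat_lit 16784076) (.one (nat_lit 1358963677) .nil)))),
   .two (nat_lit 1343225923) (nat_lit 1749025444) (.two (nat_lit 4194312) (nat_lit 1417676061) (.two (nat_lit 156367847429) (nat_lit 1913656297) (.two (nat_lit 1048576) (nat_lit 183848934057) (.one (nat_lit 4203921) .nil)))),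
   .two (nat_lit 8388672) (nat_lit 2902458480) (.two (nat_lit 2902458383) (nat_lit 10443818293) (.two (nat_lit 285212677) (nat_lit 343934493) (.two (nat_lit 16777217) (nat_lit 37253812126) (.two (nat_lit 16777216) (nat_lit 37320923778) (.one (nat_lit 8398946) .nil))))),
   .two (nat_lit 47548727360) (nat_lit 183912890618) (.two (nat_lit 46407876623) (nat_lit 2923431207) (.two (nat_lit 46407876612) (nat_lit 166132189715) (.two (nat_lit 34603009) (nat_lit 13222549372) (.two (nat_lit 1048576) (nat_lit 2104013) (.one (nat_lit 2107491) .nil))))),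
   .two (nat_lit 158083317825) (nat_lit 185020187239) (.two (nat_lit 12114198536) (nat_lit 156539815213) (.two (nat_lit 21785214981) (nat_lit 21777877542) (.two (nat_lit 605028353) (nat_lit 645929611) (.one (nat_lit 1058197) .nil)))),
   .two (nat_lit 4605345903) (nat_lit 47550824566) (.two (nat_lit 13195280399) (nat_lit 9802089768) (.two (nat_lit 11484004357) (nat_lit 4198771) (.two (nat_lit 8388609) (nat_lit 2104378) (.two (nat_lit 2097152) (nat_lit 4202980) (.one (nat_lit 4204644) .nil))))),
   .two (nat_lit 285212737) (nat_lit 11010048120) (.two (nat_lit 285212687) (nat_lit 20707279481) (.two (nat_lit 3527409672) (nat_lit 16780180) (.two (nat_lit 19599982597) (nat_lit 10552873317) (.two (nat_lit 50331649) (nat_lit 775951387) (.two (nat_lit 4194304) (nat_lit 1291853422) (.one (nat_lit 4204645) .nil)))))),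
   .two (nat_lit 1376780355) (nat_lit 775946351) (.two (nat_lit 809500687) (nat_lit 352321731) (.two (nat_lit 11479810056) (nat_lit 19042141484) (.two (nat_lit 11479810052) (nat_lit 21207452180) (.two (nat_lit 50331649) (nat_lit 166129045383) (.two (nat_lit 8388608) (nat_lit 166229711500) (.one (nat_lit 16786839) .nil)))))),
   .two (nat_lit 218103873) (nat_lit 21208498291) (.two (nat_lit 20638072847) (nat_lit 183861510504) (.two (nat_lit 20638072840) (nat_lit 11593057619) (.two (nat_lit 9934209029) (nat_lit 46992984611) (.two (nat_lit 605028353) (nat_lit 11578381274) (.two (nat_lit 1048576) (nat_lit 2104950) (.one (nat_lit 2106777) .nil)))))),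
   .two (nat_lit 12054429763) (nat_lit 174685421676) (.two (nat_lit 1191182351) (nat_lit 2894070396) (.two (nat_lit 10369368072) (nat_lit 889194530) (.two (nat_lit 184549381) (nat_lit 1753221631) (.two (nat_lit 50331649) (nat_lit 159216833592) (.two (nat_lit 8388608) (nat_lit 16785893) (.one (nat_lit 16786842) .nil)))))),
   .two (nat_lit 11551113282) (nat_lit 156465365108) (.two (nat_lit 11479810063) (nat_lit 1410335351) (.two (nat_lit 169869320) (nat_lit 4605346659) (.two (nat_lit 11546918917) (nat_lit 10436480454) (.two (nat_lit 37748737) (nat_lit 1310726046) (.two (nat_lit 1048576) (nat_lit 2988449366) (.one (nat_lit 2107494) .nil)))))),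
   .two (nat_lit 3464495171) (nat_lit 10372513911) (.two (nat_lit 18928893976) (nat_lit 11517560189) (.two (nat_lit 176160772) (nat_lit 721423855) (.two (nat_lit 16777217) (nat_lit 174692769271) (.one (nat_lit 174692770924) .nil)))),
   .two (nat_lit 47596961858) (nat_lit 874512508) (.two (nat_lit 13203669007) (nat_lit 46980399971) (.two (nat_lit 2889875461) (nat_lit 2365590021) (.two (nat_lit 2097153) (nat_lit 19029563283) (.two (nat_lit 2097152) (nat_lit 4202104) (.one (nat_lit 4204647) .nil))))),
   .two (nat_lit 3464495169) (nat_lit 11477713015) (.two (nat_lit 156372041743) (nat_lit 2956984963) (.two (nat_lit 12050235400) (nat_lit 21818770782) (.two (nat_lit 176160773) (nat_lit 675288087) (.two (nat_lit 4194304) (nat_lit 9940508211) (.one (nat_lit 2107496) .nil))))),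
   .two (nat_lit 4194370) (nat_lit 822083694) (.two (nat_lit 37748751) (nat_lit 18941477485) (.two (nat_lit 68157448) (nat_lit 4043311158) (.two (nat_lit 2902458372) (nat_lit 337645005) (.two (nat_lit 4194305) (nat_lit 806360087) (.two (nat_lit 2097152) (nat_lit 16785894) (.one (nat_lit 16787561) .nil)))))),
   .two (nat_lit 46409973826) (nat_lit 1780482176) (.two (nat_lit 46409973775) (nat_lit 1344275781) (.two (nat_lit 4599054341) (nat_lit 12050240526) (.two (nat_lit 1048576) (nat_lit 2106595) .nil))),
   .two (nat_lit 184419352641) (nat_lit 184416206962) (.two (nat_lit 3460300815) (nat_lit 174753579365) (.two (nat_lit 28086108168) (nat_lit 10372515166) (.two (nat_lit 34603013) (nat_lit 19029561701) (.two (nat_lit 4194305) (nat_lit 159250388008) (.two (nat_lit 2097152) (nat_lit 19029565866) (.one (nat_lit 1058922) .nil)))))),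
   .two (nat_lit 1310720066) (nat_lit 2902458482) (.two (nat_lit 218103823) (nat_lit 10907288418) (.two (nat_lit 10343153669) (nat_lit 2365591434) (.two (nat_lit 8388608) (nat_lit 1325408392) .nil))),
   .two (nat_lit 11513364545) (nat_lit 20719861893) (.two (nat_lit 2902458383) (nat_lit 19599983902) (.two (nat_lit 285212677) (nat_lit 156569176602) (.two (nat_lit 9768534017) (nat_lit 10385104388) (.one (nat_lit 11580482623) .nil)))),
   .two (nat_lit 117440579) (nat_lit 11006902633) (.two (nat_lit 4194312) (nat_lit 9881781090) (.two (nat_lit 605028357) (nat_lit 12163485596) (.two (nat_lit 1048576) (nat_lit 10372520534) (.one (nat_lit 4203934) .nil)))),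
   .two (nat_lit 3573547074) (nat_lit 174686470257) (.two (nat_lit 174753579023) (nat_lit 855638710) (.two (nat_lit 218103816) (nat_lit 9799992666) (.two (nat_lit 69206021) (nat_lit 28101840793) (.two (nat_lit 2097152) (nat_lit 19545463479) (.one (nat_lit 16787563) .nil))))),
   .two (nat_lit 19027460161) (nat_lit 159224168561) (.two (nat_lit 20644364303) (nat_lit 46474986790) (.two (nat_lit 10336862213) (nat_lit 11618227262) (.two (nat_lit 2097152) (nat_lit 1753225879) (.one (nat_lit 158077035633) .nil)))),
   .two (nat_lit 50331715) (nat_lit 20745027712) (.two (nat_lit 721420303) (nat_lit 18933089123) (.two (nat_lit 13195280389) (nat_lit 28705820564) (.two (nat_lit 8388608) (nat_lit 28772935000) .nil))),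
   .two (nat_lit 285212737) (nat_lit 9802089051) (.two (nat_lit 285212680) (nat_lit 9802089760) (.two (nat_lit 272629765) (nat_lit 1291848218) (.two (nat_lit 9768534017) (nat_lit 2969572420) (.two (nat_lit 4194304) (nat_lit 16785898) (.one (nat_lit 4203862) .nil))))),
   .two (nat_lit 9881780289) (nat_lit 47582281839) (.two (nat_lit 9934209039) (nat_lit 1795164671) (.two (nat_lit 2097153) (nat_lit 16783268) (.two (nat_lit 2097152) (nat_lit 1862278726) (.one (nat_lit 4599063742) .nil)))),
   .two (nat_lit 184549488) (nat_lit 156535619716) (.two (nat_lit 11479810063) (nat_lit 9948890654) (.two (nat_lit 16777217) (nat_lit 46409978878) (.two (nat_lit 4194304) (nat_lit 16785899) (.one (nat_lit 12129936667) .nil)))),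
   .two (nat_lit 2961178690) (nat_lit 1847591028) (.two (nat_lit 2961178639) (nat_lit 184987682111) (.two (nat_lit 4194308) (nat_lit 12155095591) (.two (nat_lit 8388609) (nat_lit 183846836814) (.one (nat_lit 20644374519) .nil)))),
   .two (nat_lit 83886190) (nat_lit 705691765) (.two (nat_lit 9934209039) (nat_lit 1325400696) (.two (nat_lit 1358954504) (nat_lit 69207375) (.two (nat_lit 16777220) (nat_lit 304089614) (.two (nat_lit 8388609) (nat_lit 1411390071) (.one (nat_lit 16787565) .nil))))),
   .two (nat_lit 285212736) (nat_lit 1209008254) (.two (nat_lit 822083599) (nat_lit 2994733251) (.two (nat_lit 2961178632) (nat_lit 158192371017) (.two (nat_lit 16777220) (nat_lit 3464496670) (.two (nat_lit 2097153) (nat_lit 1052561) (.two (nat_lit 1048576) (nat_lit 8396412) (.one (nat_lit 28697437252) .nil)))))),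
   .two (nat_lit 11559501889) (nat_lit 158646403322) (.two (nat_lit 1358954511) (nat_lit 21777875565) (.two (nat_lit 2969567240) (nat_lit 1847593495) (.two (nat_lit 2097153) (nat_lit 174701154190) (.two (nat_lit 1048576) (nat_lit 158091713162) (.one (nat_lit 102769735) .nil))))),
   .two (nat_lit 46474985539) (nat_lit 158649548933) (.two (nat_lit 46409973775) (nat_lit 3458205004) (.two (nat_lit 184549380) (nat_lit 773853078) (.two (nat_lit 2097152) (nat_lit 16785021) (.one (nat_lit 16786850) .nil)))),
   .two (nat_lit 11559501889) (nat_lit 343932993) (.two (nat_lit 8388623) (nat_lit 166144771375) (.two (nat_lit 83886085) (nat_lit 10544483807) (.two (nat_lit 8388609) (nat_lit 20738741282) (.two (nat_lit 2097152) (nat_lit 10351549945) (.one (nat_lit 16787566) .nil))))),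
   .two (nat_lit 158144135281) (nat_lit 10537140474) (.two (nat_lit 809500687) (nat_lit 1325400696) (.two (nat_lit 4194312) (nat_lit 20753418277) (.two (nat_lit 16777220) (nat_lit 3560966688) (.two (nat_lit 16777217) (nat_lit 156533527537) (.two (nat_lit 1048576) (nat_lit 4202989) (.one (nat_lit 1058211) .nil)))))),
   .two (nat_lit 3458203714) (nat_lit 156976022132) (.two (nat_lit 654311432) (nat_lit 9867101534) (.two (nat_lit 1291845636) (nat_lit 69209531) (.two (nat_lit 2097153) (nat_lit 1954550824) (.two (nat_lit 2097152) (nat_lit 8396415) (.one (nat_lit 2106788) .nil))))),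
   .two (nat_lit 3464495170) (nat_lit 46992982135) (.two (nat_lit 3464495119) (nat_lit 13237224098) (.two (nat_lit 3464495112) (nat_lit 2332034371) (.two (nat_lit 47555018757) (nat_lit 1224741895) (.two (nat_lit 4194304) (nat_lit 9940507209) (.one (nat_lit 28798100498) .nil))))),
   .two (nat_lit 4605345857) (nat_lit 1212153969) (.two (nat_lit 183853121551) (nat_lit 708837996) (.two (nat_lit 4605345800) (nat_lit 156535620930) (.two (nat_lit 2956984325) (nat_lit 47588578345) (.two (nat_lit 1048576) (nat_lit 4202112) (.one (nat_lit 1058928) .nil))))),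
   .two (nat_lit 183853121603) (nat_lit 1049090) (.two (nat_lit 13195280399) (nat_lit 4598007852) (.two (nat_lit 9933160453) (nat_lit 8393755) (.two (nat_lit 1048576) (nat_lit 2332039758) (.one (nat_lit 8398961) .nil)))),
   .two (nat_lit 9765388403) (nat_lit 10385096820) (.two (nat_lit 612368399) (nat_lit 754975381) (.two (nat_lit 2902458376) (nat_lit 46514832228) (.two (nat_lit 270532613) (nat_lit 20652757980) (.two (nat_lit 2097152) (nat_lit 218113142) .nil)))),
   .two (nat_lit 28806479988) (nat_lit 156465365106) (.two (nat_lit 1846542351) (nat_lit 9881780899) (.two (nat_lit 1846542344) (nat_lit 4043310406) (.two (nat_lit 28757196805) (nat_lit 28101839369) (.two (nat_lit 9765388289) (nat_lit 1325404040) (.two (nat_lit 2097152) (nat_lit 174768268402) .nil))))),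
   .two (nat_lit 4194370) (nat_lit 3464495171) (.two (nat_lit 4194319) (nat_lit 47555019109) (.two (nat_lit 183848927245) (nat_lit 20637025593) (.two (nat_lit 708837381) (nat_lit 4027583997) (.two (nat_lit 606076929) (nat_lit 28089257875) (.two (nat_lit 2097152) (nat_lit 8396417) (.one (nat_lit 2107506) .nil)))))),
   .two (nat_lit 159257722991) (nat_lit 10538188912) (.two (nat_lit 183853121559) (nat_lit 156465365688) (.two (nat_lit 158143086600) (nat_lit 159257724268) (.two (nat_lit 34603013) (nat_lit 880806399) (.two (nat_lit 2097153) (nat_lit 1056262) (.one (nat_lit 2107507) .nil))))),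
   .two (nat_lit 4601151554) (nat_lit 343933037) (.two (nat_lit 276824079) (nat_lit 4030727552) (.two (nat_lit 41943045) (nat_lit 156569178462) (.two (nat_lit 41943041) (nat_lit 184989784705) (.one (nat_lit 4204660) .nil)))),
   .two (nat_lit 46980399169) (nat_lit 4028629106) (.two (nat_lit 37748751) (nat_lit 2902459688) (.two (nat_lit 169869316) (nat_lit 10439627109) (.two (nat_lit 16777217) (nat_lit 2353012209) (.one (nat_lit 2107509) .nil)))),
   .two (nat_lit 158144135409) (nat_lit 156539814012) (.two (nat_lit 639631375) (nat_lit 47555019427) (.two (nat_lit 10504634376) (nat_lit 3531604836) (.two (nat_lit 166130089989) (nat_lit 19604179488) (.two (nat_lit 2097153) (nat_lit 46984598845) (.one (nat_lit 8398250) .nil))))),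
   .two (nat_lit 16777280) (nat_lit 343933543) (.two (nat_lit 721420296) (nat_lit 4638901624) (.two (nat_lit 176160773) (nat_lit 10552872865) (.two (nat_lit 8388608) (nat_lit 183861516978) (.one (nat_lit 1358963851) .nil)))),
   .two (nat_lit 2954887232) (nat_lit 16777454) (.two (nat_lit 2902458383) (nat_lit 159251431619) (.two (nat_lit 2902458376) (nat_lit 19094570299) (.two (nat_lit 2969567237) (nat_lit 1847593498) (.two (nat_lit 41943041) (nat_lit 10001323927) (.two (nat_lit 16777216) (nat_lit 37247525300) (.one (nat_lit 8398966) .nil)))))),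
   .two (nat_lit 158144135233) (nat_lit 839910033) (.two (nat_lit 18925748232) (nat_lit 874514953) (.two (nat_lit 16777217) (nat_lit 47547683880) (.two (nat_lit 1048576) (nat_lit 2104962) (.one (nat_lit 1058219) .nil)))),
   .two (nat_lit 3464495218) (nat_lit 20705181825) (.two (nat_lit 10343153679) (nat_lit 236979248) (.two (nat_lit 9967763468) (nat_lit 10376710665) (.two (nat_lit 606076929) (nat_lit 20745031560) (.two (nat_lit 2097152) (nat_lit 8395473) (.one (nat_lit 2107511) .nil))))),
   .two (nat_lit 156372041837) (nat_lit 20705181828) (.two (nat_lit 159217877007) (nat_lit 679478588) (.two (nat_lit 169869316) (nat_lit 185027531817) (.two (nat_lit 2097152) (nat_lit 8397295) (.one (nat_lit 2107393) .nil)))),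
   .two (nat_lit 157038936173) (nat_lit 166130090098) (.two (nat_lit 156367847439) (nat_lit 1786774121) (.two (nat_lit 156367847432) (nat_lit 1283458373) (.two (nat_lit 46980399109) (nat_lit 158144140250) (.two (nat_lit 2097152) (nat_lit 1346381209) .nil)))),
   .two (nat_lit 272629870) (nat_lit 165532401777) (.two (nat_lit 809500687) (nat_lit 165532402980) (.two (nat_lit 4194308) (nat_lit 21785218948) (.two (nat_lit 1048576) (nat_lit 21781027451) (.one (nat_lit 11543782369) .nil)))),
   .two (nat_lit 21785215043) (nat_lit 37246468212) (.two (nat_lit 19596836879) (nat_lit 156539816473) (.two (nat_lit 34603009) (nat_lit 1786777495) (.two (nat_lit 1048576) (nat_lit 276830815) (.one (nat_lit 8398968) .nil)))),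
   .two (nat_lit 46474985537) (nat_lit 166132187249) (.two (nat_lit 9940500495) (nat_lit 270533974) (.two (nat_lit 708837381) (nat_lit 174759873983) (.two (nat_lit 4194305) (nat_lit 343939735) (.one (nat_lit 2107513) .nil)))),
   .two (nat_lit 721420355) (nat_lit 156573368444) (.two (nat_lit 10940841999) (nat_lit 788529795) (.two (nat_lit 218103816) (nat_lit 270533476) (.two (nat_lit 11484004357) (nat_lit 158662135688) (.two (nat_lit 2097152) (nat_lit 9915341389) (.one (nat_lit 16787578) .nil))))),
   .two (nat_lit 157036838979) (nat_lit 10913579124) (.two (nat_lit 166130089999) (nat_lit 12617516355) (.two (nat_lit 10504634373) (nat_lit 46977255963) (.two (nat_lit 41943041) (nat_lit 166229709891) (.two (nat_lit 1048576) (nat_lit 13195289586) .nil)))),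
   .two (nat_lit 46980399218) (nat_lit 16777471) (.two (nat_lit 822083599) (nat_lit 2956984952) (.two (nat_lit 12129927176) (nat_lit 156535621680) (.two (nat_lit 10372513797) (nat_lit 156581759526) (.two (nat_lit 612368385) (nat_lit 21814580264) (.two (nat_lit 2097152) (nat_lit 171973285) (.one (nat_lit 4204667) .nil)))))),
   .two (nat_lit 2969567296) (nat_lit 11007950963) (.two (nat_lit 11007950888) (nat_lit 47596961987) (.two (nat_lit 673185804) (nat_lit 19545459210) (.two (nat_lit 9766436865) (nat_lit 889197880) (.one (nat_lit 156984418448) .nil)))),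
   .two (nat_lit 159217877059) (nat_lit 47596961902) (.two (nat_lit 1291845647) (nat_lit 20705182059) (.two (nat_lit 165526110216) (nat_lit 34604419) (.two (nat_lit 1291845636) (nat_lit 165525065205) (.two (nat_lit 50331649) (nat_lit 20704138303) (.two (nat_lit 1048576) (nat_lit 2104963) (.one (nat_lit 16787580) .nil)))))),
   .two (nat_lit 11492393026) (nat_lit 9899606128) (.two (nat_lit 158075977743) (nat_lit 3472884346) (.two (nat_lit 11492392968) (nat_lit 37313577827) (.two (nat_lit 157036838917) (nat_lit 165525066751) (.two (nat_lit 1048576) (nat_lit 20719868546) (.one (nat_lit 889201914) .nil))))),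
   .two (nat_lit 18933088367) (nat_lit 28690088056) (.two (nat_lit 1745879055) (nat_lit 10376710697) (.two (nat_lit 34603009) (nat_lit 645929546) (.one (nat_lit 156539823402) .nil))),
   .two (nat_lit 184993972288) (nat_lit 158176641149) (.two (nat_lit 46984593423) (nat_lit 10940842341) (.two (nat_lit 166129041416) (nat_lit 10504635726) (.two (nat_lit 19596836869) (nat_lit 337644035) (.two (nat_lit 9765388289) (nat_lit 1317017449) (.two (nat_lit 1048576) (nat_lit 13188997579) (.one (nat_lit 1058220) .nil)))))),
   .two (nat_lit 4605345856) (nat_lit 12117344372) (.two (nat_lit 184419352591) (nat_lit 4605347357) (.two (nat_lit 37748737) (nat_lit 9806288184) (.one (nat_lit 847258921) .nil))),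
   .two (nat_lit 12117344323) (nat_lit 158646403137) (.two (nat_lit 21207449615) (nat_lit 18928894316) (.two (nat_lit 21207449608) (nat_lit 809502061) (.two (nat_lit 2097157) (nat_lit 11580477332) (.two (nat_lit 1048576) (nat_lit 9869202748) (.one (nat_lit 4204669) .nil))))),
   .two (nat_lit 46477082691) (nat_lit 209715319) (.two (nat_lit 13195280399) (nat_lit 157038936930) (.two (nat_lit 8388612) (nat_lit 156569179196) (.two (nat_lit 4194304) (nat_lit 1224746195) .nil))),
   .two (nat_lit 12117344370) (nat_lit 1350566013) (.two (nat_lit 1350565903) (nat_lit 1947206240) (.two (nat_lit 4194312) (nat_lit 11618223646) (.two (nat_lit 37748737) (nat_lit 336598013) (.two (nat_lit 4194304) (nat_lit 4027587188) (.one (nat_lit 4204670) .nil))))),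
   .two (nat_lit 218103918) (nat_lit 1847591041) (.two (nat_lit 75497487) (nat_lit 1291846949) (.two (nat_lit 16777220) (nat_lit 19134417411) (.two (nat_lit 50331649) (nat_lit 19604180895) (.two (nat_lit 2097152) (nat_lit 8397296) (.one (nat_lit 11544831395) .nil))))),
   .two (nat_lit 4605345857) (nat_lit 183928619133) (.two (nat_lit 4605345807) (nat_lit 158146232943) (.two (nat_lit 4194312) (nat_lit 20644367857) (.two (nat_lit 4194305) (nat_lit 8395836) (.two (nat_lit 1048576) (nat_lit 16785905) (.one (nat_lit 1058943) .nil))))),
   .two (nat_lit 3527409731) (nat_lit 47582281854) (.two (nat_lit 117440527) (nat_lit 9765388649) (.two (nat_lit 12129927176) (nat_lit 9765389662) (.two (nat_lit 21778923525) (nat_lit 687869444) (.two (nat_lit 37748737) (nat_lit 28790756386) (.two (nat_lit 1048576) (nat_lit 165526117856) (.one (nat_lit 19127084995) .nil)))))),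
   .two (nat_lit 12624855148) (nat_lit 28790751347) (.two (nat_lit 12624855063) (nat_lit 605029009) (.two (nat_lit 21785214984) (nat_lit 18925750311) (.two (nat_lit 270532613) (nat_lit 11584671637) (.two (nat_lit 1048576) (nat_lit 8397298) (.one (nat_lit 1058944) .nil))))),
   .two (nat_lit 2969567346) (nat_lit 9867100277) (.two (nat_lit 184549391) (nat_lit 3024094052) (.two (nat_lit 2097157) (nat_lit 19545461729) (.two (nat_lit 1048576) (nat_lit 4202116) (.one (nat_lit 2107521) .nil)))),
   .two (nat_lit 4601151554) (nat_lit 880803950) (.two (nat_lit 8388623) (nat_lit 37316723049) (.two (nat_lit 813694984) (nat_lit 156468513310) (.two (nat_lit 8388609) (nat_lit 11614032959) (.two (nat_lit 2097152) (nat_lit 4202995) (.one (nat_lit 2107522) .nil))))),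
   .two (nat_lit 2954887232) (nat_lit 9881780337) (.two (nat_lit 713031695) (nat_lit 166144770691) (.two (nat_lit 83886088) (nat_lit 142608923) (.two (nat_lit 41943041) (nat_lit 11511272469) (.two (nat_lit 8388608) (nat_lit 3540000384) (.one (nat_lit 158183991249) .nil))))),
   .two (nat_lit 11492393025) (nat_lit 1782579313) (.two (nat_lit 11492392975) (nat_lit 47584379503) (.two (nat_lit 721420296) (nat_lit 46414169373) (.two (nat_lit 9768534021) (nat_lit 21827160609) (.two (nat_lit 37748737) (nat_lit 21793607559) (.two (nat_lit 4194304) (nat_lit 788535950) (.one (nat_lit 4203952) .nil)))))),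
   .two (nat_lit 169869377) (nat_lit 3464495219) (.two (nat_lit 4601151503) (nat_lit 235929961) (.two (nat_lit 4601151496) (nat_lit 1050680) (.two (nat_lit 1283457029) (nat_lit 1913654709) (.two (nat_lit 37748737) (nat_lit 11578382239) (.two (nat_lit 4194304) (nat_lit 2105844) (.one (nat_lit 2107523) .nil)))))),
   .two (nat_lit 184993972290) (nat_lit 20704133185) (.two (nat_lit 276824079) (nat_lit 10506731877) (.two (nat_lit 171966477) (nat_lit 21785216288) (.two (nat_lit 171966469) (nat_lit 10007611902) (.two (nat_lit 4194305) (nat_lit 1283462123) (.two (nat_lit 4194304) (nat_lit 1056389) (.one (nat_lit 11543782644) .nil)))))),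
   .two (nat_lit 2969567298) (nat_lit 158144135281) (.two (nat_lit 20638072847) (nat_lit 11525947752) (.two (nat_lit 20638072840) (nat_lit 20652754254) (.two (nat_lit 174752530437) (nat_lit 11477716883) (.two (nat_lit 1048576) (nat_lit 18941483609) (.one (nat_lit 16787588) .nil))))),
   .two (nat_lit 16777283) (nat_lit 19033751676) (.two (nat_lit 18928893967) (nat_lit 303039121) (.two (nat_lit 2961178632) (nat_lit 166144773587) (.two (nat_lit 37748737) (nat_lit 46977258494) (.two (nat_lit 1048576) (nat_lit 4202118) (.one (nat_lit 1058949) .nil))))),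
   .two (nat_lit 4605345856) (nat_lit 11510218885) (.two (nat_lit 13195280399) (nat_lit 19127075177) (.two (nat_lit 813694984) (nat_lit 19093523940) (.two (nat_lit 9766436865) (nat_lit 746590099) (.two (nat_lit 1048576) (nat_lit 8397301) (.one (nat_lit 1058228) .nil))))),
   .two (nat_lit 185035915330) (nat_lit 303038585) (.two (nat_lit 10370416655) (nat_lit 37262197356) (.two (nat_lit 184549384) (nat_lit 1411384623) (.two (nat_lit 739246085) (nat_lit 159217879568) (.two (nat_lit 605028353) (nat_lit 11022636061) (.two (nat_lit 1048576) (nat_lit 2105846) (.one (nat_lit 1276126283) .nil)))))),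
   .two (nat_lit 11577327681) (nat_lit 28705816708) (.two (nat_lit 11543773199) (nat_lit 158158815904) (.two (nat_lit 1291845640) (nat_lit 19093522967) (.two (nat_lit 620756993) (nat_lit 1054629) (.two (nat_lit 4194304) (nat_lit 1057271) (.one (nat_lit 4203957) .nil))))),
   .two (nat_lit 16777280) (nat_lit 37249613945) (.two (nat_lit 16777231) (nat_lit 746586735) (.two (nat_lit 16777224) (nat_lit 12054431042) (.two (nat_lit 75497477) (nat_lit 158179789319) (.two (nat_lit 8388609) (nat_lit 4199495) (.two (nat_lit 4194304) (nat_lit 8397304) (.one (nat_lit 8398982) .nil)))))),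
   .two (nat_lit 68157551) (nat_lit 9982443653) (.two (nat_lit 16777231) (nat_lit 236979560) (.two (nat_lit 11492392965) (nat_lit 605031943) (.two (nat_lit 50331649) (nat_lit 183913944943) (.two (nat_lit 2097152) (nat_lit 1392515707) (.one (nat_lit 16786870) .nil))))),
   .two (nat_lit 1291845697) (nat_lit 1343225976) (.two (nat_lit 1291845647) (nat_lit 10537140862) (.two (nat_lit 739246088) (nat_lit 352325040) (.two (nat_lit 8388609) (nat_lit 16783270) (.two (nat_lit 8388608) (nat_lit 18941484564) (.one (nat_lit 8398263) .nil))))),
   .two (nat_lit 285212736) (nat_lit 156971827315) (.two (nat_lit 2902458383) (nat_lit 1849689128) (.two (nat_lit 11580473357) (nat_lit 9781117794) (.two (nat_lit 184989777925) (nat_lit 1325404040) (.two (nat_lit 2097152) (nat_lit 50337087) (.one (nat_lit 2106808) .nil))))),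
   .two (nat_lit 47548727362) (nat_lit 4605345900) (.two (nat_lit 813694991) (nat_lit 9768534655) (.two (nat_lit 8388616) (nat_lit 156567078196) (.two (nat_lit 272629765) (nat_lit 2961181197) (.two (nat_lit 4194305) (nat_lit 20745032673) (.two (nat_lit 4194304) (nat_lit 46481286352) .nil))))),
   .two (nat_lit 8388672) (nat_lit 19042140817) (.two (nat_lit 19529728008) (nat_lit 28697430537) (.two (nat_lit 16777217) (nat_lit 209722034) (.one (nat_lit 13195289739) .nil))),
   .two (nat_lit 3527409729) (nat_lit 47582281843) (.two (nat_lit 9934209039) (nat_lit 2319450746) (.two (nat_lit 1780482056) (nat_lit 11546921479) (.two (nat_lit 8388609) (nat_lit 184417262178) (.one (nat_lit 2106811) .nil)))),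
   .two (nat_lit 1277165635) (nat_lit 873463926) (.two (nat_lit 16777231) (nat_lit 1343226723) (.two (nat_lit 16777220) (nat_lit 12617517581) (.two (nat_lit 50331649) (nat_lit 1914703763) (.two (nat_lit 1048576) (nat_lit 2105849) (.one (nat_lit 1058951) .nil))))),
   .two (nat_lit 239075393) (nat_lit 19597885567) (.two (nat_lit 9934209039) (nat_lit 18925748892) (.two (nat_lit 184549384) (nat_lit 19027462663) (.two (nat_lit 16777217) (nat_lit 46977258525) (.two (nat_lit 16777216) (nat_lit 13222550213) (.one (nat_lit 16787592) .nil))))),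
   .two (nat_lit 10007609459) (nat_lit 156969730167) (.two (nat_lit 47548727311) (nat_lit 184423548256) (.two (nat_lit 159224168453) (nat_lit 2100745) (.two (nat_lit 156372041729) (nat_lit 19128129356) (.two (nat_lit 2097152) (nat_lit 8396424) (.one (nat_lit 1411392737) .nil))))),
   .two (nat_lit 183912890483) (nat_lit 37314625646) (.two (nat_lit 158144135183) (nat_lit 1175454760) (.two (nat_lit 46523219981) (nat_lit 165526111561) (.two (nat_lit 721420293) (nat_lit 183947495946) (.two (nat_lit 16777217) (nat_lit 236983324) (.two (nat_lit 1048576) (nat_lit 21778931243) (.one (nat_lit 235939787) .nil)))))),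
   .two (nat_lit 2969567296) (nat_lit 28758245973) (.two (nat_lit 620757000) (nat_lit 156533524508) (.two (nat_lit 46407876612) (nat_lit 285216247) (.two (nat_lit 2097153) (nat_lit 10385101850) (.two (nat_lit 2097152) (nat_lit 16785914) (.one (nat_lit 20705190917) .nil))))),
   .two (nat_lit 20638072899) (nat_lit 9915334775) (.two (nat_lit 2902458383) (nat_lit 1746929006) (.two (nat_lit 2097157) (nat_lit 3036678694) (.two (nat_lit 2097153) (nat_lit 166245438462) (.two (nat_lit 2097152) (nat_lit 20704139902) (.one (nat_lit 1058954) .nil))))),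
   .two (nat_lit 285212737) (nat_lit 9802088689) (.two (nat_lit 46409973775) (nat_lit 1191182694) (.two (nat_lit 2889875464) (nat_lit 10016000541) (.two (nat_lit 9768534017) (nat_lit 166211883992) (.two (nat_lit 2097152) (nat_lit 4203862) .nil)))),
   .two (nat_lit 13224640629) (nat_lit 19127074939) (.two (nat_lit 809500687) (nat_lit 9933161091) (.two (nat_lit 46407876616) (nat_lit 46510638376) (.two (nat_lit 4599054341) (nat_lit 1916800487) (.two (nat_lit 37748737) (nat_lit 157035795492) (.two (nat_lit 1048576) (nat_lit 46978309759) (.one (nat_lit 1058956) .nil)))))),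
   .two (nat_lit 2969567297) (nat_lit 11007951206) (.two (nat_lit 2969567240) (nat_lit 21812479287) (.two (nat_lit 270532613) (nat_lit 1795165617) (.two (nat_lit 34603009) (nat_lit 2103207) (.two (nat_lit 1048576) (nat_lit 203431484) (.one (nat_lit 12115256552) .nil))))),
   .two (nat_lit 4601151554) (nat_lit 20705181817) (.two (nat_lit 9940500495) (nat_lit 19597886767) (.two (nat_lit 176160773) (nat_lit 203426320) (.two (nat_lit 8388609) (nat_lit 2103208) (.two (nat_lit 8388608) (nat_lit 2105852) (.one (nat_lit 8398989) .nil))))),
   .two (nat_lit 11559501890) (nat_lit 10503585924) (.two (nat_lit 205520911) (nat_lit 11559502690) (.two (nat_lit 9933160453) (nat_lit 166144772614) (.two (nat_lit 4194305) (nat_lit 1325406811) (.one (nat_lit 47550833764) .nil)))),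
   .two (nat_lit 183853121601) (nat_lit 21827158138) (.two (nat_lit 16777231) (nat_lit 46414169382) (.two (nat_lit 41943045) (nat_lit 2332037003) (.two (nat_lit 1048576) (nat_lit 185002370436) .nil))),
   .two (nat_lit 184986632258) (nat_lit 13195280495) (.two (nat_lit 11551113231) (nat_lit 135267622) (.two (nat_lit 75497477) (nat_lit 1913654709) (.two (nat_lit 41943041) (nat_lit 11610887205) (.two (nat_lit 1048576) (nat_lit 10538197424) (.one (nat_lit 2107534) .nil))))),
   .two (nat_lit 2969567345) (nat_lit 641728638) (.two (nat_lit 218103823) (nat_lit 156567077489) (.two (nat_lit 165525061640) (nat_lit 606079028) (.two (nat_lit 171966469) (nat_lit 28705820109) (.two (nat_lit 4194305) (nat_lit 16782408) (.two (nat_lit 1048576) (nat_lit 2105853) (.one (nat_lit 4204687) .nil)))))),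
   .two (nat_lit 16777282) (nat_lit 809500867) (.two (nat_lit 16777224) (nat_lit 4634707231) (.two (nat_lit 16777220) (nat_lit 4634708478) (.two (nat_lit 16777217) (nat_lit 156533528441) (.two (nat_lit 16777216) (nat_lit 1210064368) (.one (nat_lit 2107537) .nil))))),
   .two (nat_lit 20705181763) (nat_lit 34603140) (.two (nat_lit 50331672) (nat_lit 169869961) (.two (nat_lit 822083592) (nat_lit 19128124260) (.two (nat_lit 16777220) (nat_lit 11477715480) (.two (nat_lit 16777217) (nat_lit 1746934450) (.one (nat_lit 2107538) .nil))))),
   .two (nat_lit 166132187253) (nat_lit 28705816694) (.two (nat_lit 285212687) (nat_lit 9802089768) (.two (nat_lit 809500677) (nat_lit 10385099283) (.two (nat_lit 156364701697) (nat_lit 10540291112) (.two (nat_lit 1048576) (nat_lit 4203803) .nil)))),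
   .two (nat_lit 11543773251) (nat_lit 218103922) (.two (nat_lit 2902458383) (nat_lit 156364702056) (.two (nat_lit 2954887176) (nat_lit 806356294) (.two (nat_lit 169869316) (nat_lit 168824723) (.two (nat_lit 2097152) (nat_lit 183946451609) (.one (nat_lit 1058240) .nil))))),
   .two (nat_lit 2887778369) (nat_lit 1212153923) (.two (nat_lit 276824079) (nat_lit 13191086275) (.two (nat_lit 276824072) (nat_lit 1782580524) (.two (nat_lit 8388612) (nat_lit 174686472711) (.two (nat_lit 8388609) (nat_lit 1054634) (.two (nat_lit 8388608) (nat_lit 1057278) (.one (nat_lit 1058963) .nil)))))),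
   .two (nat_lit 11492393025) (nat_lit 3524264057) (.two (nat_lit 41943055) (nat_lit 285212867) (.two (nat_lit 721420296) (nat_lit 28086110734) (.two (nat_lit 620756993) (nat_lit 159250387938) (.two (nat_lit 1048576) (nat_lit 8398110) .nil)))),
   .two (nat_lit 11559501888) (nat_lit 158646403187) (.two (nat_lit 158646403112) (nat_lit 11559502019) (.two (nat_lit 1376780300) (nat_lit 117441899) (.two (nat_lit 1343225861) (nat_lit 157051522969) (.two (nat_lit 1048576) (nat_lit 166211885721) (.one (nat_lit 218113250) .nil))))),
   .two (nat_lit 20644364405) (nat_lit 21793603833) (.two (nat_lit 620757007) (nat_lit 21785216295) (.two (nat_lit 41943045) (nat_lit 10351544866) (.two (nat_lit 16777217) (nat_lit 343938930) (.two (nat_lit 8388608) (nat_lit 218111498) (.one (nat_lit 8398996) .nil))))),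
   .two (nat_lit 166197198915) (nat_lit 183912890484) (.two (nat_lit 2416967704) (nat_lit 157036839602) (.two (nat_lit 1745879048) (nat_lit 840960537) (.two (nat_lit 34603009) (nat_lit 2921337890) (.two (nat_lit 1048576) (nat_lit 2106655) .nil)))),
   .two (nat_lit 184431935604) (nat_lit 37316722807) (.two (nat_lit 11543773199) (nat_lit 9766437223) (.two (nat_lit 1191182344) (nat_lit 158176642382) (.two (nat_lit 9781116933) (nat_lit 21781024190) (.two (nat_lit 605028353) (nat_lit 174688573269) (.two (nat_lit 1048576) (nat_lit 4203007) (.one (nat_lit 1058965) .nil)))))),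
   .two (nat_lit 343932995) (nat_lit 9798942835) (.two (nat_lit 176160783) (nat_lit 3020948113) (.two (nat_lit 612368392) (nat_lit 673187192) (.two (nat_lit 47548727301) (nat_lit 8392204) (.two (nat_lit 2097153) (nat_lit 16783275) (.two (nat_lit 2097152) (nat_lit 1057280) (.one (nat_lit 2107542) .nil)))))),
   .two (nat_lit 4194369) (nat_lit 183853121603) (.two (nat_lit 4194319) (nat_lit 183853122133) (.two (nat_lit 2887778312) (nat_lit 880805186) (.two (nat_lit 176160772) (nat_lit 1053046) (.two (nat_lit 2097153) (nat_lit 4200364) (.two (nat_lit 1048576) (nat_lit 203430551) (.one (nat_lit 4204695) .nil)))))),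
   .two (nat_lit 13237223533) (nat_lit 183949590652) (.two (nat_lit 46409973775) (nat_lit 13237223619) (.two (nat_lit 46409973768) (nat_lit 2365588798) (.two (nat_lit 272629765) (nat_lit 620762144) (.two (nat_lit 2097152) (nat_lit 9969867448) (.one (nat_lit 4203973) .nil))))),
   .two (nat_lit 21777875011) (nat_lit 13203669120) (.two (nat_lit 809500687) (nat_lit 285213285) (.two (nat_lit 4194312) (nat_lit 158091708462) (.two (nat_lit 10385096709) (nat_lit 272634226) (.two (nat_lit 9781116929) (nat_lit 10939800182) (.one (nat_lit 4203974) .nil))))),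
   .two (nat_lit 2954887232) (nat_lit 117440623) (.two (nat_lit 754974735) (nat_lit 2954887363) (.two (nat_lit 754974728) (nat_lit 184987682109) (.two (nat_lit 2902458372) (nat_lit 46407880166) (.two (nat_lit 16777217) (nat_lit 10437531534) (.two (nat_lit 1048576) (nat_lit 2105857) (.one (nat_lit 46977262812) .nil)))))),
   .two (nat_lit 47548727362) (nat_lit 1182794349) (.two (nat_lit 41943048) (nat_lit 9934210380) (.two (nat_lit 13195280389) (nat_lit 159251434997) (.two (nat_lit 605028353) (nat_lit 4028634164) (.two (nat_lit 1048576) (nat_lit 10538195607) (.one (nat_lit 8399000) .nil))))),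
   .two (nat_lit 4601151554) (nat_lit 746586230) (.two (nat_lit 176160783) (nat_lit 184986633059) (.two (nat_lit 1283457029) (nat_lit 46473940443) (.two (nat_lit 34603009) (nat_lit 11014247469) (.two (nat_lit 8388608) (nat_lit 1056394) (.one (nat_lit 1058969) .nil))))),
   .two (nat_lit 3558867184) (nat_lit 1392509047) (.two (nat_lit 654311439) (nat_lit 28791801145) (.two (nat_lit 10385096709) (nat_lit 166230756836) (.two (nat_lit 16777217) (nat_lit 28087162715) (.two (nat_lit 2097152) (nat_lit 16785922) (.one (nat_lit 2107546) .nil))))),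
   .two (nat_lit 2961178690) (nat_lit 174701150334) (.two (nat_lit 2961178639) (nat_lit 165528208028) (.two (nat_lit 2961178632) (nat_lit 159253529917) (.two (nat_lit 46414168068) (nat_lit 10338961948) (.two (nat_lit 8388609) (nat_lit 4200365) (.two (nat_lit 1048576) (nat_lit 687873673) (.one (nat_lit 16787611) .nil)))))),
   .two (nat_lit 11559501890) (nat_lit 1782579447) (.two (nat_lit 822083599) (nat_lit 708837996) (.two (nat_lit 822083592) (nat_lit 10338960730) (.two (nat_lit 2956984325) (nat_lit 50333213) (.two (nat_lit 8388609) (nat_lit 4631566950) (.one (nat_lit 4204700) .nil))))),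
   .two (nat_lit 184549484) (nat_lit 21778923639) (.two (nat_lit 184549391) (nat_lit 276824723) (.two (nat_lit 2969567240) (nat_lit 21812478820) (.two (nat_lit 184549380) (nat_lit 807406107) (.two (nat_lit 41943041) (nat_lit 21827163192) (.two (nat_lit 2097152) (nat_lit 9873399424) (.one (nat_lit 10504643771) .nil)))))),
   .two (nat_lit 166196150388) (nat_lit 673185918) (.two (nat_lit 21785214991) (nat_lit 28790751845) (.two (nat_lit 183845781512) (nat_lit 1753223072) (.two (nat_lit 2097152) (nat_lit 1057284) (.one (nat_lit 184987690094) .nil)))),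
   .two (nat_lit 4601151552) (nat_lit 19530776692) (.two (nat_lit 4601151503) (nat_lit 2921333385) (.two (nat_lit 4601151496) (nat_lit 203425814) (.two (nat_lit 4599054341) (nat_lit 12117347831) (.two (nat_lit 2097153) (nat_lit 37754761) (.two (nat_lit 1048576) (nat_lit 11007959990) .nil))))),
   .two (nat_lit 11618222145) (nat_lit 218103923) (.two (nat_lit 713031695) (nat_lit 19142804097) (.two (nat_lit 713031688) (nat_lit 28806481957) (.two (nat_lit 50331653) (nat_lit 2357201443) (.two (nat_lit 16777217) (nat_lit 1920997195) (.two (nat_lit 1048576) (nat_lit 183861517942) (.one (nat_lit 8399005) .nil)))))),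
   .two (nat_lit 236978243) (nat_lit 19532873795) (.two (nat_lit 47548727311) (nat_lit 21814576477) (.two (nat_lit 169869316) (nat_lit 11479815165) (.two (nat_lit 2097152) (nat_lit 1279269464) (.one (nat_lit 37758366) .nil)))),
   .two (nat_lit 4605345857) (nat_lit 185020186738) (.two (nat_lit 4194319) (nat_lit 243271040) (.two (nat_lit 4194308) (nat_lit 1913655649) (.two (nat_lit 4194305) (nat_lit 20737692682) (.two (nat_lit 4194304) (nat_lit 10443823714) (.one (nat_lit 11484014011) .nil))))),
   .two (nat_lit 11559501891) (nat_lit 2349858927) (.two (nat_lit 654311439) (nat_lit 158177690225) (.two (nat_lit 654311432) (nat_lit 3525313890) (.two (nat_lit 2097157) (nat_lit 21793607103) (.two (nat_lit 2097153) (nat_lit 12114203610) (.two (nat_lit 2097152) (nat_lit 1057285) (.one (nat_lit 1058974) .nil)))))),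
   .two (nat_lit 4601151554) (nat_lit 168820864) (.two (nat_lit 620757007) (nat_lit 4631560874) (.two (nat_lit 2954887176) (nat_lit 46980400460) (.two (nat_lit 2902458372) (nat_lit 4631562769) (.two (nat_lit 2097153) (nat_lit 4030731323) (.two (nat_lit 2097152) (nat_lit 16785036) (.one (nat_lit 2106826) .nil)))))),
   .two (nat_lit 772800622) (nat_lit 1224736902) (.two (nat_lit 1358954511) (nat_lit 2349859512) (.two (nat_lit 19599982604) (nat_lit 1050681) (.two (nat_lit 605028357) (nat_lit 19042144136) (.two (nat_lit 1048576) (nat_lit 157051525722) (.one (nat_lit 16787615) .nil))))),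
   .two (nat_lit 2954887234) (nat_lit 3464495169) (.two (nat_lit 169869327) (nat_lit 343933285) (.two (nat_lit 169869320) (nat_lit 185027528058) (.two (nat_lit 102760453) (nat_lit 9899608602) (.two (nat_lit 2097153) (nat_lit 679483275) (.two (nat_lit 2097152) (nat_lit 158075985445) (.one (nat_lit 706749608) .nil)))))),
   .two (nat_lit 46489665601) (nat_lit 4634706029) (.two (nat_lit 272629775) (nat_lit 4027580774) (.two (nat_lit 218103816) (nat_lit 303039801) (.two (nat_lit 184549380) (nat_lit 8393079) (.two (nat_lit 612368385) (nat_lit 1054639) (.two (nat_lit 1048576) (nat_lit 16785926) (.one (nat_lit 4204704) .nil)))))),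
   .two (nat_lit 158075977795) (nat_lit 169869431) (.two (nat_lit 21777874959) (nat_lit 11477713527) (.two (nat_lit 21777874952) (nat_lit 1411384694) (.two (nat_lit 705691652) (nat_lit 2100750) (.two (nat_lit 605028353) (nat_lit 270540364) (.one (nat_lit 2107553) .nil))))),
   .two (nat_lit 2902458433) (nat_lit 209715318) (.two (nat_lit 713031695) (nat_lit 11492393318) (.two (nat_lit 16777229) (nat_lit 1786774872) (.two (nat_lit 16777221) (nat_lit 9906948637) (.two (nat_lit 16777217) (nat_lit 2961183704) (.two (nat_lit 2097152) (nat_lit 8396430) (.one (nat_lit 16787618) .nil)))))),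
   .two (nat_lit 11559501888) (nat_lit 3457155741) (.two (nat_lit 739246088) (nat_lit 10351546265) (.two (nat_lit 1048576) (nat_lit 16784969) (.one (nat_lit 16786892) .nil))),
   .two (nat_lit 272629824) (nat_lit 174759870592) (.two (nat_lit 2961178639) (nat_lit 166230753637) (.two (nat_lit 4194312) (nat_lit 209717807) (.two (nat_lit 37748737) (nat_lit 9906952039) (.two (nat_lit 2097152) (nat_lit 71312563) .nil)))),
   .two (nat_lit 158083317825) (nat_lit 12617515122) (.two (nat_lit 12047089679) (nat_lit 184993973537) (.two (nat_lit 20644364292) (nat_lit 1052175) (.two (nat_lit 34603009) (nat_lit 158083325515) (.one (nat_lit 1745888339) .nil)))),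
   .two (nat_lit 1779433539) (nat_lit 35651703) (.two (nat_lit 203423759) (nat_lit 19537068664) (.two (nat_lit 739246088) (nat_lit 18933089617) (.two (nat_lit 209715205) (nat_lit 10370421101) (.two (nat_lit 156365750273) (nat_lit 47547685541) (.one (nat_lit 2107555) .nil))))),
   .two (nat_lit 135266371) (nat_lit 4194561) (.two (nat_lit 12117344271) (nat_lit 2316305251) (.two (nat_lit 11479810052) (nat_lit 1052176) (.two (nat_lit 16777217) (nat_lit 843060286) (.two (nat_lit 1048576) (nat_lit 4203015) (.one (nat_lit 1058980) .nil))))),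
   .two (nat_lit 4605345857) (nat_lit 11479810722) (.two (nat_lit 4605345800) (nat_lit 171967814) (.two (nat_lit 156367847429) (nat_lit 28798093858) (.two (nat_lit 37748737) (nat_lit 1182799781) (.two (nat_lit 16777216) (nat_lit 4202127) (.one (nat_lit 4203981) .nil))))),
   .two (nat_lit 11618222188) (nat_lit 2349858926) (.two (nat_lit 1779433487) (nat_lit 1417675430) (.two (nat_lit 1779433480) (nat_lit 156539816841) (.two (nat_lit 1745879045) (nat_lit 3028290047) (.two (nat_lit 605028353) (nat_lit 19100865518) (.two (nat_lit 1048576) (nat_lit 8396432) (.one (nat_lit 8399013) .nil)))))),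
   .two (nat_lit 1310720110) (nat_lit 12129927301) (.two (nat_lit 1291845647) (nat_lit 203426334) (.two (nat_lit 2097153) (nat_lit 1191189195) (.one (nat_lit 2106830) .nil))),
   .two (nat_lit 1745879107) (nat_lit 28693233730) (.two (nat_lit 28693233679) (nat_lit 11476665657) (.two (nat_lit 21777874949) (nat_lit 843058660) (.two (nat_lit 605028353) (nat_lit 4201125) (.one (nat_lit 1059361) .nil)))),
   .two (nat_lit 10015998062) (nat_lit 47555018861) (.two (nat_lit 16777231) (nat_lit 11551113840) (.two (nat_lit 16777224) (nat_lit 75498850) (.two (nat_lit 8388613) (nat_lit 185002364397) (.two (nat_lit 9768534017) (nat_lit 16783280) (.two (nat_lit 4194304) (nat_lit 11593063953) (.one (nat_lit 4204710) .nil)))))),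
   .two (nat_lit 2902458485) (nat_lit 19127074948) (.two (nat_lit 2961178639) (nat_lit 218104418) (.two (nat_lit 9866051592) (nat_lit 1761609029) (.two (nat_lit 16777221) (nat_lit 739248667) (.two (nat_lit 605028353) (nat_lit 11593060243) (.two (nat_lit 1048576) (nat_lit 8397320) (.one (nat_lit 1058983) .nil)))))),
   .two (nat_lit 8388672) (nat_lit 16777882) (.two (nat_lit 9948889096) (nat_lit 880805405) (.two (nat_lit 16777217) (nat_lit 11618226051) (.two (nat_lit 1048576) (nat_lit 9906952885) (.one (nat_lit 336602222) .nil)))),
   .two (nat_lit 822083700) (nat_lit 772800641) (.two (nat_lit 9934209039) (nat_lit 1291848211) (.two (nat_lit 606076929) (nat_lit 156364706879) (.two (nat_lit 1048576) (nat_lit 16785042) (.one (nat_lit 16787624) .nil)))),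
   .two (nat_lit 46474985537) (nat_lit 839909735) (.two (nat_lit 272629768) (nat_lit 2099259) (.two (nat_lit 1344274437) (nat_lit 303042015) (.two (nat_lit 37748737) (nat_lit 772806517) (.two (nat_lit 1048576) (nat_lit 2105865) (.one (nat_lit 2106831) .nil))))),
   .two (nat_lit 1310720065) (nat_lit 269484158) (.two (nat_lit 165526110223) (nat_lit 1050330) (.two (nat_lit 165526110216) (nat_lit 11510220140) (.two (nat_lit 10504634373) (nat_lit 1913654701) (.two (nat_lit 9766436865) (nat_lit 28690093112) (.two (nat_lit 1048576) (nat_lit 2105866) (.one (nat_lit 1058256) .nil)))))),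
   .two (nat_lit 4634705985) (nat_lit 19093520504) (.two (nat_lit 11543773199) (nat_lit 639632037) (.two (nat_lit 46407876616) (nat_lit 239076704) (.two (nat_lit 47550824453) (nat_lit 20738738687) (.two (nat_lit 156364701697) (nat_lit 773854191) (.two (nat_lit 1048576) (nat_lit 2105867) (.one (nat_lit 1058257) .nil)))))),
   .two (nat_lit 47555018868) (nat_lit 706740345) (.two (nat_lit 156372041743) (nat_lit 3024094052) (.two (nat_lit 69206021) (nat_lit 243275064) (.one (nat_lit 8396973) .nil))),
   .two (nat_lit 16777280) (nat_lit 9934209139) (.two (nat_lit 272629775) (nat_lit 889192643) (.two (nat_lit 639631373) (nat_lit 156367848290) (.two (nat_lit 102760453) (nat_lit 165540793860) (.two (nat_lit 41943041) (nat_lit 28791806604) (.one (nat_lit 16786898) .nil))))),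
   .two (nat_lit 2988441665) (nat_lit 104857728) (.two (nat_lit 184986632207) (nat_lit 1312817816) (.two (nat_lit 46978301965) (nat_lit 156569176598) (.two (nat_lit 9766436865) (nat_lit 183916042087) (.two (nat_lit 1048576) (nat_lit 2104979) (.one (nat_lit 46473947075) .nil))))),
   .two (nat_lit 4605345856) (nat_lit 184419352691) (.two (nat_lit 10343153679) (nat_lit 156969731112) (.two (nat_lit 11546918925) (nat_lit 156372042594) (.two (nat_lit 809500677) (nat_lit 20745031560) (.two (nat_lit 2097152) (nat_lit 165528216686) .nil)))),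
   .two (nat_lit 4601151598) (nat_lit 10015998074) (.two (nat_lit 2902458383) (nat_lit 13224641873) (.two (nat_lit 4194308) (nat_lit 721422867) (.two (nat_lit 4194305) (nat_lit 16783281) (.two (nat_lit 8388608) (nat_lit 19026419306) (.one (nat_lit 1058985) .nil))))),
   .two (nat_lit 83886190) (nat_lit 11543773299) (.two (nat_lit 9934209039) (nat_lit 1325400696) (.two (nat_lit 1358954504) (nat_lit 136316230) (.two (nat_lit 16777220) (nat_lit 304089614) (.two (nat_lit 16777217) (nat_lit 2101144) (.two (nat_lit 1048576) (nat_lit 174701156962) (.one (nat_lit 2107562) .nil)))))),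
   .two (nat_lit 12114198594) (nat_lit 2990538884) (.two (nat_lit 4601151503) (nat_lit 10335814266) (.two (nat_lit 4601151496) (nat_lit 101713228) (.two (nat_lit 69206021) (nat_lit 336596448) (.two (nat_lit 37748737) (nat_lit 183946449957) (.two (nat_lit 2097152) (nat_lit 1057292) (.one (nat_lit 1058987) .nil)))))),
   .two (nat_lit 9881780290) (nat_lit 183845781612) (.two (nat_lit 9881780239) (nat_lit 1310721346) (.two (nat_lit 34603013) (nat_lit 9881782783) (.two (nat_lit 2097153) (nat_lit 34608184) (.two (nat_lit 2097152) (nat_lit 1056404) (.one (nat_lit 169879457) .nil))))),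
   .two (nat_lit 20704133187) (nat_lit 4194562) (.two (nat_lit 620757007) (nat_lit 183949591604) (.two (nat_lit 742391816) (nat_lit 159216829774) (.two (nat_lit 218103813) (nat_lit 1212156435) (.two (nat_lit 605028353) (nat_lit 2936018820) (.two (nat_lit 2097152) (nat_lit 1426070152) (.one (nat_lit 16786899) .nil)))))),
   .two (nat_lit 20638072898) (nat_lit 889192570) (.two (nat_lit 20638072847) (nat_lit 159232558468) (.two (nat_lit 218103813) (nat_lit 9766439455) (.two (nat_lit 16777217) (nat_lit 3022001186) (.two (nat_lit 2097152) (nat_lit 9982450306) (.one (nat_lit 2107564) .nil))))),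
   .two (nat_lit 159251431537) (nat_lit 2923430135) (.two (nat_lit 183853121559) (nat_lit 9869197954) (.two (nat_lit 184423546888) (nat_lit 306186753) (.two (nat_lit 4194305) (nat_lit 2103218) (.two (nat_lit 2097152) (nat_lit 4203021) (.one (nat_lit 2107565) .nil))))),
   .two (nat_lit 12617515074) (nat_lit 1379926686) (.two (nat_lit 9881780232) (nat_lit 2416968547) (.two (nat_lit 13191086085) (nat_lit 101717019) (.two (nat_lit 4194304) (nat_lit 1057826) .nil))),
   .two (nat_lit 3036676210) (nat_lit 28093448307) (.two (nat_lit 158075977743) (nat_lit 159266112903) (.two (nat_lit 184993972229) (nat_lit 183946448357) (.two (nat_lit 41943041) (nat_lit 184416213659) (.one (nat_lit 16787630) .nil)))),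
   .two (nat_lit 4601151597) (nat_lit 4605345916) (.two (nat_lit 21785214991) (nat_lit 4601151683) (.two (nat_lit 46984593416) (nat_lit 11546920239) (.two (nat_lit 21207449605) (nat_lit 185027529239) (.two (nat_lit 9765388289) (nat_lit 1920996316) (.two (nat_lit 1048576) (nat_lit 8397326) (.one (nat_lit 1058991) .nil)))))),
   .two (nat_lit 2420113518) (nat_lit 1384120442) (.two (nat_lit 13195280399) (nat_lit 11513365841) (.two (nat_lit 10506731525) (nat_lit 3565160974) (.two (nat_lit 620756993) (nat_lit 174688574107) (.one (nat_lit 4203989) .nil)))),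
   .two (nat_lit 2969567296) (nat_lit 10437525626) (.two (nat_lit 1291845647) (nat_lit 184416207205) (.two (nat_lit 2887778312) (nat_lit 218105122) (.two (nat_lit 270532613) (nat_lit 158192373230) (.two (nat_lit 9766436865) (nat_lit 28806485061) (.two (nat_lit 2097152) (nat_lit 16785045) (.one (nat_lit 16787632) .nil)))))),
   .two (nat_lit 12117344321) (nat_lit 10437525626) (.two (nat_lit 46978301967) (nat_lit 3460303392) (.two (nat_lit 2097153) (nat_lit 876613535) (.two (nat_lit 1048576) (nat_lit 12618573232) .nil))),
   .two (nat_lit 10336862275) (nat_lit 10439622722) (.two (nat_lit 285212687) (nat_lit 19096667499) (.two (nat_lit 2902458372) (nat_lit 2100753) (.two (nat_lit 606076929) (nat_lit 165532406783) (.two (nat_lit 8388608) (nat_lit 183947501115) (.one (nat_lit 2107569) .nil))))),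
   .two (nat_lit 20644364354) (nat_lit 11626611353) (.two (nat_lit 13203669000) (nat_lit 2894071134) (.two (nat_lit 11546918917) (nat_lit 9948890654) (.two (nat_lit 37748737) (nat_lit 4638905414) (.two (nat_lit 2097152) (nat_lit 4605352612) (.one (nat_lit 159224177671) .nil))))),
   .two (nat_lit 21785215043) (nat_lit 156465365107) (.two (nat_lit 158083317775) (nat_lit 9798943377) (.two (nat_lit 184416206861) (nat_lit 183953787403) (.two (nat_lit 2097153) (nat_lit 243275064) (.one (nat_lit 8398294) .nil)))),
   .two (nat_lit 159224168515) (nat_lit 10939793542) (.two (nat_lit 2887778319) (nat_lit 20644365155) (.two (nat_lit 2097157) (nat_lit 159224172420) (.two (nat_lit 1048576) (nat_lit 8397327) (.one (nat_lit 1058994) .nil)))),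
   .two (nat_lit 16777280) (nat_lit 28691136640) (.two (nat_lit 9934209039) (nat_lit 4043310387) (.two (nat_lit 2097157) (nat_lit 9781119510) (.two (nat_lit 2097153) (nat_lit 12163488461) (.one (nat_lit 9800000484) .nil)))),
   .two (nat_lit 46510637170) (nat_lit 19127074933) (.two (nat_lit 13195280399) (nat_lit 10372515151) (.two (nat_lit 159216828421) (nat_lit 880805405) (.two (nat_lit 16777217) (nat_lit 11543780024) (.one (nat_lit 156364711004) .nil)))),
   .two (nat_lit 10913579075) (nat_lit 166196150397) (.two (nat_lit 10385096719) (nat_lit 4631560855) (.two (nat_lit 11543773192) (nat_lit 156539815234) (.two (nat_lit 50331653) (nat_lit 1053048) (.two (nat_lit 620756993) (nat_lit 19537074010) (.two (nat_lit 1048576) (nat_lit 16785936) (.one (nat_lit 16787635) .nil)))))),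
   .two (nat_lit 12163481710) (nat_lit 12617515122) (.two (nat_lit 117440527) (nat_lit 2886731139) (.two (nat_lit 654311429) (nat_lit 156466417084) (.two (nat_lit 2097153) (nat_lit 2969572380) (.two (nat_lit 1048576) (nat_lit 156533531663) .nil)))),
   .two (nat_lit 28693233779) (nat_lit 46977253501) (.two (nat_lit 3558866968) (nat_lit 156971827558) (.two (nat_lit 2887778312) (nat_lit 1916797794) (.two (nat_lit 13187940357) (nat_lit 159219976707) (.two (nat_lit 156364701697) (nat_lit 185023337535) (.two (nat_lit 1048576) (nat_lit 239084677) .nil))))),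
   .two (nat_lit 2994733122) (nat_lit 2350908052) (.two (nat_lit 2887778312) (nat_lit 8390716) (.two (nat_lit 34603013) (nat_lit 8392210) (.two (nat_lit 34603009) (nat_lit 8395839) (.two (nat_lit 8388608) (nat_lit 1057297) (.one (nat_lit 1058996) .nil))))),
   .two (nat_lit 11559501889) (nat_lit 772800628) (.two (nat_lit 11559501839) (nat_lit 46406828711) (.two (nat_lit 705691656) (nat_lit 11559503389) (.two (nat_lit 2097153) (nat_lit 9781120928) (.two (nat_lit 1048576) (nat_lit 2104983) (.one (nat_lit 1058997) .nil))))),
   .two (nat_lit 654311491) (nat_lit 11618222193) (.two (nat_lit 41943055) (nat_lit 10385097570) (.two (nat_lit 46409973764) (nat_lit 10376713531) (.one (nat_lit 2961186951) .nil))),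
   .two (nat_lit 12114198595) (nat_lit 2990538871) (.two (nat_lit 1178599439) (nat_lit 605028712) (.two (nat_lit 1178599432) (nat_lit 9933161821) (.two (nat_lit 183845781508) (nat_lit 840961939) (.two (nat_lit 1048576) (nat_lit 9900661377) (.one (nat_lit 2107574) .nil))))),
   .two (nat_lit 1291845699) (nat_lit 236978241) (.two (nat_lit 3458203663) (nat_lit 150995304) (.two (nat_lit 203423752) (nat_lit 620758302) (.two (nat_lit 2887778308) (nat_lit 16780819) (.two (nat_lit 9766436865) (nat_lit 16783283) (.two (nat_lit 16777216) (nat_lit 2105874) (.one (nat_lit 2107575) .nil)))))),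
   .two (nat_lit 742391873) (nat_lit 184549619) (.two (nat_lit 83886095) (nat_lit 12624855708) (.two (nat_lit 11551113224) (nat_lit 9869198635) (.two (nat_lit 713031684) (nat_lit 47563409938) (.two (nat_lit 612368385) (nat_lit 4201536) (.two (nat_lit 16777216) (nat_lit 4605352557) (.one (nat_lit 8399032) .nil)))))),
   .two (nat_lit 4605345856) (nat_lit 9802088556) (.two (nat_lit 205520911) (nat_lit 1182794359) (.two (nat_lit 276824072) (nat_lit 157038938140) (.two (nat_lit 2956984325) (nat_lit 47555022327) (.two (nat_lit 605028353) (nat_lit 47550829537) (.two (nat_lit 1048576) (nat_lit 12620669957) .nil))))),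
   .two (nat_lit 156569174083) (nat_lit 2097411) (.two (nat_lit 3525312527) (nat_lit 156569174613) (.two (nat_lit 166132187144) (nat_lit 3558868253) (.two (nat_lit 166132187140) (nat_lit 2101625) (.two (nat_lit 34603009) (nat_lit 2103220) (.two (nat_lit 1048576) (nat_lit 11513371282) (.one (nat_lit 4203991) .nil)))))),
   .two (nat_lit 11014242412) (nat_lit 28758245614) (.two (nat_lit 9781116943) (nat_lit 156976022828) (.two (nat_lit 2902458372) (nat_lit 176163357) (.two (nat_lit 2097153) (nat_lit 20644371115) (.one (nat_lit 8399033) .nil)))),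
   .two (nat_lit 46409973826) (nat_lit 11544821887) (.two (nat_lit 46407876623) (nat_lit 12150900062) (.two (nat_lit 4601151493) (nat_lit 1948257770) (.two (nat_lit 2097153) (nat_lit 156569179181) (.two (nat_lit 2097152) (nat_lit 1782588799) .nil)))),
   .two (nat_lit 772800753) (nat_lit 184417255544) (.two (nat_lit 19530776591) (nat_lit 1795162773) (.two (nat_lit 156968681480) (nat_lit 11022632261) (.two (nat_lit 166129041412) (nat_lit 1191184914) (.two (nat_lit 9766436865) (nat_lit 12633250448) (.one (nat_lit 16786904) .nil))))),
   .two (nat_lit 158083317825) (nat_lit 165540790396) (.two (nat_lit 50331663) (nat_lit 158083318366) (.two (nat_lit 50331656) (nat_lit 8389986) (.two (nat_lit 176160772) (nat_lit 1358956062) (.two (nat_lit 620756993) (nat_lit 1283463024) (.two (nat_lit 1048576) (nat_lit 645929583) (.one (nat_lit 9899615355) .nil)))))),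
   .two (nat_lit 11551113281) (nat_lit 9899606131) (.two (nat_lit 1350565903) (nat_lit 156364702353) (.two (nat_lit 3024093197) (nat_lit 780141922) (.two (nat_lit 69206021) (nat_lit 11618225664) (.two (nat_lit 2097153) (nat_lit 1054645) (.two (nat_lit 8388608) (nat_lit 2105875) (.one (nat_lit 8399034) .nil)))))),
   .two (nat_lit 184993972289) (nat_lit 9765388406) (.two (nat_lit 1343225871) (nat_lit 2956984680) (.two (nat_lit 11618222093) (nat_lit 12114200630) (.two (nat_lit 183853121541) (nat_lit 158143091735) (.two (nat_lit 8388608) (nat_lit 1057300) (.one (nat_lit 8399035) .nil))))),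
   .two (nat_lit 285212736) (nat_lit 184419352641) (.two (nat_lit 285212687) (nat_lit 13224641180) (.two (nat_lit 809500680) (nat_lit 11492394269) (.two (nat_lit 4194308) (nat_lit 16780820) (.two (nat_lit 4194305) (nat_lit 11492398106) (.two (nat_lit 16777216) (nat_lit 4203029) (.one (nat_lit 11546928336) .nil)))))),
   .two (nat_lit 1913651267) (nat_lit 185035915374) (.two (nat_lit 3539992591) (nat_lit 37247518072) (.two (nat_lit 1913651205) (nat_lit 2902460947) (.two (nat_lit 9766436865) (nat_lit 1055397) (.one (nat_lit 1058703) .nil)))),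
   .two (nat_lit 3527409730) (nat_lit 209715319) (.two (nat_lit 2889875471) (nat_lit 37253810727) (.two (nat_lit 9768534017) (nat_lit 847254526) (.two (nat_lit 16777216) (nat_lit 37757910) .nil))),
   .two (nat_lit 3028287596) (nat_lit 10940842101) (.two (nat_lit 203423759) (nat_lit 41944454) (.two (nat_lit 176160772) (nat_lit 9967767015) (.two (nat_lit 2097153) (nat_lit 159224175296) (.one (nat_lit 4599064569) .nil)))),
   .two (nat_lit 2923429954) (nat_lit 754974834) (.two (nat_lit 11492392975) (nat_lit 9802089314) (.two (nat_lit 9933160453) (nat_lit 11559505797) (.two (nat_lit 1048576) (nat_lit 2936021128) .nil))),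
   .two (nat_lit 21785215043) (nat_lit 156465365107) (.two (nat_lit 1178599439) (nat_lit 11484005220) (.two (nat_lit 1779433477) (nat_lit 183953787398) (.two (nat_lit 34603009) (nat_lit 243275064) (.one (nat_lit 156573376655) .nil)))),
   .two (nat_lit 9781116995) (nat_lit 304087716) (.two (nat_lit 37748744) (nat_lit 285213990) (.two (nat_lit 654311429) (nat_lit 183913941509) (.two (nat_lit 620756993) (nat_lit 21778929515) (.two (nat_lit 4194304) (nat_lit 2104984) (.one (nat_lit 16787644) .nil))))),
   .two (nat_lit 28693233731) (nat_lit 158647451770) (.two (nat_lit 1916796943) (nat_lit 2097853) (.two (nat_lit 46407876616) (nat_lit 165528209926) (.two (nat_lit 2097153) (nat_lit 675288058) (.two (nat_lit 1048576) (nat_lit 20740842699) .nil)))),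
   .two (nat_lit 176160835) (nat_lit 156367847491) (.two (nat_lit 8388623) (nat_lit 20637025122) (.two (nat_lit 8388612) (nat_lit 183912892935) (.two (nat_lit 8388609) (nat_lit 1054647) (.two (nat_lit 8388608) (nat_lit 4202137) (.one (nat_lit 4204733) .nil))))),
   .two (nat_lit 47555018818) (nat_lit 236978287) (.two (nat_lit 10336862223) (nat_lit 11014244892) (.two (nat_lit 9766436865) (nat_lit 8395841) (.two (nat_lit 1048576) (nat_lit 2105879) (.one (nat_lit 2107582) .nil)))),
   .two (nat_lit 809500739) (nat_lit 46422557540) (.two (nat_lit 18926796805) (nat_lit 2319452679) (.two (nat_lit 2097153) (nat_lit 13191092049) (.two (nat_lit 2097152) (nat_lit 339745454) (.one (nat_lit 4204735) .nil)))),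
   .two (nat_lit 184419352642) (nat_lit 1049091) (.two (nat_lit 11577327640) (nat_lit 1916797123) (.two (nat_lit 11543773192) (nat_lit 156971828766) (.two (nat_lit 34603009) (nat_lit 4634712755) (.one (nat_lit 4204736) .nil)))),
   .two (nat_lit 156569174125) (nat_lit 10906239095) (.two (nat_lit 1913651215) (nat_lit 159253529953) (.two (nat_lit 11476664324) (nat_lit 1782582793) (.two (nat_lit 34603009) (nat_lit 1379931160) (.two (nat_lit 1048576) (nat_lit 11614037066) .nil)))),
   .two (nat_lit 1343225923) (nat_lit 10437525570) (.two (nat_lit 9866051599) (nat_lit 28758245571) (.two (nat_lit 276824072) (nat_lit 13188990991) (.two (nat_lit 4605345797) (nat_lit 673189367) (.two (nat_lit 156372041729) (nat_lit 1780487227) (.two (nat_lit 1048576) (nat_lit 2105880) (.one (nat_lit 2107586) .nil)))))),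
   .two (nat_lit 8388672) (nat_lit 754974836) (.two (nat_lit 176160783) (nat_lit 35651943) (.two (nat_lit 176160776) (nat_lit 1914701134) (.two (nat_lit 620756997) (nat_lit 156976025481) (.two (nat_lit 8388608) (nat_lit 9799999063) (.one (nat_lit 2106842) .nil))))),
   .two (nat_lit 1916796995) (nat_lit 37246468208) (.two (nat_lit 156968681487) (nat_lit 156971828066) (.two (nat_lit 19596836869) (nat_lit 10372517789) (.two (nat_lit 1048576) (nat_lit 159253535339) (.one (nat_lit 3460310386) .nil)))),
   .two (nat_lit 3028287599) (nat_lit 18941477114) (.two (nat_lit 612368399) (nat_lit 2969567839) (.two (nat_lit 612368392) (nat_lit 16780182) (.two (nat_lit 16777221) (nat_lit 2424312873) (.two (nat_lit 16777216) (nat_lit 8397337) (.one (nat_lit 8398898) .nil))))),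
   .two (nat_lit 46409973826) (nat_lit 12114198642) (.two (nat_lit 156367847439) (nat_lit 19026413605) (.two (nat_lit 166130089989) (nat_lit 1053050) (.two (nat_lit 9766436865) (nat_lit 37316728689) (.two (nat_lit 4194304) (nat_lit 1210063486) (.one (nat_lit 2107587) .nil))))),
   .two (nat_lit 19029557315) (nat_lit 37247516929) (.two (nat_lit 1291845647) (nat_lit 1948255623) (.two (nat_lit 1358954501) (nat_lit 339741230) (.two (nat_lit 606076929) (nat_lit 12620664725) (.two (nat_lit 2097152) (nat_lit 20640176785) (.one (nat_lit 4204740) .nil))))),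
   .two (nat_lit 4605345856) (nat_lit 9936306297) (.two (nat_lit 184986632207) (nat_lit 847249603) (.two (nat_lit 705691656) (nat_lit 746587439) (.two (nat_lit 272629765) (nat_lit 10907290119) (.two (nat_lit 4194305) (nat_lit 9899611174) (.two (nat_lit 2097152) (nat_lit 4202138) (.one (nat_lit 4204741) .nil)))))),
   .two (nat_lit 4605345901) (nat_lit 166197198968) (.two (nat_lit 20638072847) (nat_lit 880804707) (.two (nat_lit 47555018757) (nat_lit 20738738690) (.two (nat_lit 8388609) (nat_lit 21208502178) (.two (nat_lit 8388608) (nat_lit 156365757961) (.one (nat_lit 2107590) .nil))))),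
   .two (nat_lit 272629826) (nat_lit 47596961987) (.two (nat_lit 272629768) (nat_lit 183962174807) (.two (nat_lit 605028357) (nat_lit 16780791) (.two (nat_lit 34603009) (nat_lit 13224648151) (.one (nat_lit 9866060903) .nil)))),
   .two (nat_lit 2994733122) (nat_lit 156533522543) (.two (nat_lit 11551113231) (nat_lit 806356310) (.two (nat_lit 34603013) (nat_lit 847252915) (.two (nat_lit 34603009) (nat_lit 158083322932) (.two (nat_lit 1048576) (nat_lit 2988450239) (.one (nat_lit 21777884273) .nil))))),
   .two (nat_lit 185020186689) (nat_lit 10338959488) (.two (nat_lit 2954887183) (nat_lit 11614028136) (.two (nat_lit 12114198541) (nat_lit 11513367066) (.two (nat_lit 156364701697) (nat_lit 12048145060) (.one (nat_lit 1058269) .nil)))),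
   .two (nat_lit 183848927299) (nat_lit 159224168563) (.two (nat_lit 75497487) (nat_lit 28793897320) (.two (nat_lit 75497480) (nat_lit 171967822) (.two (nat_lit 159224168453) (nat_lit 2353008074) (.two (nat_lit 41943041) (nat_lit 10439626642) (.two (nat_lit 2097152) (nat_lit 4201172) (.one (nat_lit 2106846) .nil)))))),
   .two (nat_lit 721420353) (nat_lit 68157563) (.two (nat_lit 2887778319) (nat_lit 83887389) (.two (nat_lit 10504634373) (nat_lit 16781691) (.two (nat_lit 9766436865) (nat_lit 202380317) (.two (nat_lit 2097152) (nat_lit 185020195229) (.one (nat_lit 1058271) .nil))))),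
   .two (nat_lit 184993972290) (nat_lit 4631560313) (.two (nat_lit 612368399) (nat_lit 37247518042) (.two (nat_lit 46407876612) (nat_lit 184993974807) (.two (nat_lit 2097153) (nat_lit 158083324606) (.one (nat_lit 2106443) .nil)))),
   .two (nat_lit 272629827) (nat_lit 1847591026) (.two (nat_lit 2889875471) (nat_lit 10370418048) (.two (nat_lit 272629765) (nat_lit 807406114) (.two (nat_lit 4194305) (nat_lit 773854204) (.two (nat_lit 4194304) (nat_lit 166130096755) (.one (nat_lit 2106850) .nil))))),
   .two (nat_lit 9948889204) (nat_lit 158646403197) (.two (nat_lit 10385096728) (nat_lit 772800869) (.two (nat_lit 1795162120) (nat_lit 10503588359) (.two (nat_lit 620756993) (nat_lit 168827554) (.one (nat_lit 47581242579) .nil)))),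
   .two (nat_lit 28758245443) (nat_lit 101711994) (.two (nat_lit 19596836879) (nat_lit 4599054696) (.two (nat_lit 19596836872) (nat_lit 1914701134) (.two (nat_lit 218103813) (nat_lit 2954889758) (.two (nat_lit 2097153) (nat_lit 16783290) (.two (nat_lit 1048576) (nat_lit 2105883) (.one (nat_lit 2107592) .nil)))))),
   .two (nat_lit 47582281793) (nat_lit 1309671532) (.two (nat_lit 2954887183) (nat_lit 28693234288) (.two (nat_lit 2954887176) (nat_lit 166132188482) (.two (nat_lit 18928893957) (nat_lit 1053052) (.two (nat_lit 156365750273) (nat_lit 158649553949) (.two (nat_lit 2097152) (nat_lit 9798951414) (.one (nat_lit 21814584799) .nil)))))),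
   .two (nat_lit 822083693) (nat_lit 156569174254) (.two (nat_lit 822083599) (nat_lit 21814577700) (.two (nat_lit 9768534017) (nat_lit 83891258) (.two (nat_lit 4194304) (nat_lit 16785051) (.one (nat_lit 4204004) .nil)))),
   .two (nat_lit 343932995) (nat_lit 46474986143) (.two (nat_lit 176160776) (nat_lit 157036840268) (.two (nat_lit 176160772) (nat_lit 740298637) (.two (nat_lit 1048576) (nat_lit 1377836685) (.one (nat_lit 2107593) .nil)))),
   .two (nat_lit 1417674862) (nat_lit 10942939264) (.two (nat_lit 13191086095) (nat_lit 20745028216) (.two (nat_lit 276824072) (nat_lit 10003417634) (.two (nat_lit 8388609) (nat_lit 10540289951) (.two (nat_lit 1048576) (nat_lit 4203036) (.one (nat_lit 336602531) .nil))))),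
   .two (nat_lit 3525312578) (nat_lit 1916797041) (.two (nat_lit 28693233679) (nat_lit 11544822402) (.two (nat_lit 9940500488) (nat_lit 156533523298) (.two (nat_lit 10506731525) (nat_lit 11578380173) (.two (nat_lit 2097152) (nat_lit 46481283681) (.one (nat_lit 2106854) .nil))))),
   .two (nat_lit 47555018817) (nat_lit 158662131831) (.two (nat_lit 50331663) (nat_lit 159257725468) (.two (nat_lit 156364701697) (nat_lit 620762957) (.two (nat_lit 1048576) (nat_lit 8397341) (.one (nat_lit 8399050) .nil)))),
   .two (nat_lit 117440579) (nat_lit 168821398) (.two (nat_lit 4194312) (nat_lit 9881781090) (.two (nat_lit 605028357) (nat_lit 855643130) (.two (nat_lit 1048576) (nat_lit 843064659) .nil))),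
   .two (nat_lit 2923429998) (nat_lit 2317353079) (.two (nat_lit 10504634383) (nat_lit 4030727484) (.two (nat_lit 166130089989) (nat_lit 742396969) (.two (nat_lit 2097152) (nat_lit 4203038) (.one (nat_lit 2107595) .nil)))),
   .two (nat_lit 218103874) (nat_lit 158144135413) (.two (nat_lit 174753579023) (nat_lit 21793604958) (.two (nat_lit 3458203653) (nat_lit 10385099264) (.two (nat_lit 2097153) (nat_lit 9915338632) (.two (nat_lit 2097152) (nat_lit 3472890464) (.one (nat_lit 16787660) .nil))))),
   .two (nat_lit 174692761717) (nat_lit 156535619706) (.two (nat_lit 184549400) (nat_lit 809500867) (.two (nat_lit 2969567240) (nat_lit 9902753077) (.two (nat_lit 218103813) (nat_lit 13224642078) (.two (nat_lit 606076929) (nat_lit 8395845) (.two (nat_lit 2097152) (nat_lit 10544488073) (.one (nat_lit 8399053) .nil)))))),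
   .two (nat_lit 10506731633) (nat_lit 2987393150) (.two (nat_lit 1913651215) (nat_lit 9768535356) (.two (nat_lit 1916796933) (nat_lit 34605575) (.two (nat_lit 34603009) (nat_lit 12150903827) (.two (nat_lit 1048576) (nat_lit 4202140) (.one (nat_lit 1059022) .nil))))),
   .two (nat_lit 16777328) (nat_lit 158653743221) (.two (nat_lit 285212687) (nat_lit 2956985188) (.two (nat_lit 746586117) (nat_lit 156984415547) (.one (nat_lit 19612573839) .nil))),
   .two (nat_lit 46978302062) (nat_lit 183949590642) (.two (nat_lit 1178599439) (nat_lit 69206884) (.two (nat_lit 9768534021) (nat_lit 2101150) (.two (nat_lit 1048576) (nat_lit 19029566775) .nil))),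
   .two (nat_lit 673185907) (nat_lit 10939793524) (.two (nat_lit 174752530447) (nat_lit 1780484135) (.two (nat_lit 159217876997) (nat_lit 101716956) (.two (nat_lit 1048576) (nat_lit 2887787630) .nil))),
   .two (nat_lit 4030726211) (nat_lit 19128123505) (.two (nat_lit 3527409679) (nat_lit 47548728712) (.two (nat_lit 2887778308) (nat_lit 28089259002) (.two (nat_lit 2097152) (nat_lit 171973262) (.one (nat_lit 4204751) .nil)))),
   .two (nat_lit 9881780289) (nat_lit 41943149) (.two (nat_lit 9881780239) (nat_lit 20711473777) (.two (nat_lit 813694984) (nat_lit 16780183) (.two (nat_lit 83886085) (nat_lit 8393086) (.two (nat_lit 16777217) (nat_lit 8395847) (.two (nat_lit 2097152) (nat_lit 2432706014) .nil))))),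
   .two (nat_lit 236978291) (nat_lit 4194565) (.two (nat_lit 3527409679) (nat_lit 1847591984) (.two (nat_lit 46474985484) (nat_lit 19532875047) (.two (nat_lit 203423749) (nat_lit 156468513318) (.two (nat_lit 612368385) (nat_lit 102767674) (.two (nat_lit 8388608) (nat_lit 183846839680) .nil))))),
   .two (nat_lit 4601151552) (nat_lit 218103922) (.two (nat_lit 2902458383) (nat_lit 9802088643) (.two (nat_lit 2902458376) (nat_lit 156468512073) (.two (nat_lit 4194308) (nat_lit 2969568797) (.two (nat_lit 8388609) (nat_lit 1279269578) (.one (nat_lit 16786920) .nil))))),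
   .two (nat_lit 721420355) (nat_lit 46977254033) (.two (nat_lit 1780482056) (nat_lit 37246469479) (.two (nat_lit 713031685) (nat_lit 20737690123) (.two (nat_lit 8388609) (nat_lit 19026415495) (.two (nat_lit 16777216) (nat_lit 20711480843) (.one (nat_lit 8399056) .nil))))),
   .two (nat_lit 184419352641) (nat_lit 2316304497) (.two (nat_lit 184419352591) (nat_lit 158646403939) (.two (nat_lit 9866051589) (nat_lit 159219978124) (.two (nat_lit 1048576) (nat_lit 19532883338) .nil))),
   .two (nat_lit 11559501890) (nat_lit 12147753077) (.two (nat_lit 2988441640) (nat_lit 16777882) (.two (nat_lit 9948889096) (nat_lit 9799992696) (.two (nat_lit 184549380) (nat_lit 19027463663) (.two (nat_lit 2097153) (nat_lit 1325407787) (.one (nat_lit 1309680820) .nil))))),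
   .two (nat_lit 46523220034) (nat_lit 12620660858) (.two (nat_lit 4601151503) (nat_lit 336593257) (.two (nat_lit 4194312) (nat_lit 19042141526) (.two (nat_lit 117440517) (nat_lit 9966717475) (.two (nat_lit 8388609) (nat_lit 1055816) (.two (nat_lit 4194304) (nat_lit 1056413) (.one (nat_lit 16787665) .nil)))))),
   .two (nat_lit 2969567298) (nat_lit 166230753395) (.two (nat_lit 2969567247) (nat_lit 183846831146) (.two (nat_lit 47582281741) (nat_lit 1291847198) (.two (nat_lit 2097153) (nat_lit 16784960) (.one (nat_lit 16786712) .nil)))),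
   .two (nat_lit 12147753026) (nat_lit 339738881) (.two (nat_lit 184419352591) (nat_lit 28790753792) (.two (nat_lit 156367847425) (nat_lit 28790758078) (.one (nat_lit 303047744) .nil))),
   .two (nat_lit 2969567299) (nat_lit 343933049) (.two (nat_lit 16777231) (nat_lit 46414169382) (.two (nat_lit 41943045) (nat_lit 10016001953) (.two (nat_lit 4194304) (nat_lit 185002370436) .nil))),
   .two (nat_lit 4605345857) (nat_lit 9899606083) (.two (nat_lit 18933088271) (nat_lit 9899606624) (.two (nat_lit 184993972232) (nat_lit 9765390883) (.two (nat_lit 605028353) (nat_lit 8395849) (.two (nat_lit 1048576) (nat_lit 8397345) (.one (nat_lit 1059027) .nil))))),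
   .two (nat_lit 310378606) (nat_lit 166132187249) (.two (nat_lit 205520911) (nat_lit 1753219939) (.two (nat_lit 2956984325) (nat_lit 1753221633) (.two (nat_lit 4194305) (nat_lit 1753223044) (.two (nat_lit 4194304) (nat_lit 9806291442) (.one (nat_lit 37758875) .nil))))),
   .two (nat_lit 2994733123) (nat_lit 156533522540) (.two (nat_lit 37748751) (nat_lit 156372044286) (.two (nat_lit 4194305) (nat_lit 28087161885) (.two (nat_lit 4194304) (nat_lit 3525320191) (.one (nat_lit 2107604) .nil)))),
   .two (nat_lit 4028629057) (nat_lit 9936306298) (.two (nat_lit 9781116943) (nat_lit 156365751633) (.two (nat_lit 708837381) (nat_lit 166211881487) (.two (nat_lit 4194305) (nat_lit 21778927500) (.two (nat_lit 4194304) (nat_lit 2104022) (.one (nat_lit 4204011) .nil))))),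
   .two (nat_lit 285212739) (nat_lit 235929727) (.two (nat_lit 9781116943) (nat_lit 605029742) (.two (nat_lit 2902458372) (nat_lit 10537142798) (.two (nat_lit 16777217) (nat_lit 165525068390) (.one (nat_lit 19026421150) .nil)))),
   .two (nat_lit 158646403137) (nat_lit 69206148) (.two (nat_lit 1343225871) (nat_lit 1358955857) (.two (nat_lit 169869316) (nat_lit 12129930725) (.two (nat_lit 2097153) (nat_lit 336596876) (.two (nat_lit 1048576) (nat_lit 620764797) (.one (nat_lit 18941486049) .nil))))),
   .two (nat_lit 159217877059) (nat_lit 47581233270) (.two (nat_lit 20638072847) (nat_lit 11543773801) (.two (nat_lit 28690087944) (nat_lit 20638073699) (.two (nat_lit 1343225861) (nat_lit 1277168142) (.two (nat_lit 605028353) (nat_lit 1780486023) (.two (nat_lit 1048576) (nat_lit 2105892) (.one (nat_lit 183912899759) .nil)))))),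
   .two (nat_lit 47548727363) (nat_lit 1916797044) (.two (nat_lit 3458203663) (nat_lit 1916797536) (.two (nat_lit 3458203656) (nat_lit 184419353894) (.two (nat_lit 1178599429) (nat_lit 21208501750) (.two (nat_lit 2097153) (nat_lit 1916803780) (.one (nat_lit 2106862) .nil))))),
   .two (nat_lit 12117344322) (nat_lit 1224736892) (.two (nat_lit 12117344271) (nat_lit 184431936125) (.two (nat_lit 12117344264) (nat_lit 166211880282) (.two (nat_lit 166129041412) (nat_lit 775950243) (.two (nat_lit 1048576) (nat_lit 2956991064) (.one (nat_lit 9969869828) .nil))))),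
   .two (nat_lit 4601151555) (nat_lit 679477315) (.two (nat_lit 165532401679) (nat_lit 171967853) (.two (nat_lit 20644364292) (nat_lit 13224644030) (.two (nat_lit 156372041729) (nat_lit 10338964539) (.two (nat_lit 8388608) (nat_lit 4202143) (.one (nat_lit 4204757) .nil))))),
   .two (nat_lit 47555018869) (nat_lit 4632609027) (.two (nat_lit 11551113231) (nat_lit 4027581482) (.two (nat_lit 2961178632) (nat_lit 47582283045) (.two (nat_lit 713031684) (nat_lit 1053055) (.two (nat_lit 34603009) (nat_lit 2103227) (.two (nat_lit 1048576) (nat_lit 1920999018) (.one (nat_lit 1059030) .nil)))))),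
   .two (nat_lit 2988441665) (nat_lit 4030726260) (.two (nat_lit 3527409679) (nat_lit 156969730409) (.two (nat_lit 9766436872) (nat_lit 2353005881) (.two (nat_lit 41943045) (nat_lit 12117346829) (.two (nat_lit 41943041) (nat_lit 19597890600) (.two (nat_lit 8388608) (nat_lit 2104992) (.one (nat_lit 606087336) .nil)))))),
   .two (nat_lit 176160835) (nat_lit 159253528695) (.two (nat_lit 8388623) (nat_lit 9902752419) (.two (nat_lit 8388616) (nat_lit 47584380229) (.two (nat_lit 4194308) (nat_lit 19537070599) (.two (nat_lit 4194305) (nat_lit 156539817863) (.two (nat_lit 4194304) (nat_lit 1216354940) (.one (nat_lit 8399063) .nil)))))),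
   .two (nat_lit 47548727362) (nat_lit 687865979) (.two (nat_lit 2969567247) (nat_lit 184417256799) (.two (nat_lit 1862270981) (nat_lit 10504636938) (.two (nat_lit 156372041729) (nat_lit 12148805512) (.two (nat_lit 8388608) (nat_lit 673195279) .nil)))),
   .two (nat_lit 47555018818) (nat_lit 158176641154) (.two (nat_lit 612368399) (nat_lit 2920284781) (.two (nat_lit 705691656) (nat_lit 159224169314) (.two (nat_lit 13187940357) (nat_lit 1920993795) (.two (nat_lit 2097153) (nat_lit 19100864403) (.two (nat_lit 2097152) (nat_lit 13228844152) .nil))))),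
   .two (nat_lit 2416967795) (nat_lit 21781020794) (.two (nat_lit 1178599439) (nat_lit 11577328273) (.two (nat_lit 1178599432) (nat_lit 1051544) (.two (nat_lit 9768534021) (nat_lit 10906242570) (.two (nat_lit 37748737) (nat_lit 1376786253) (.two (nat_lit 4194304) (nat_lit 1057317) (.one (nat_lit 1059032) .nil)))))),
   .two (nat_lit 4601151555) (nat_lit 10940842104) (.two (nat_lit 9940500495) (nat_lit 874512744) (.two (nat_lit 3527409672) (nat_lit 2921334062) (.two (nat_lit 47555018757) (nat_lit 19130224113) (.two (nat_lit 2097153) (nat_lit 46514836449) (.two (nat_lit 2097152) (nat_lit 8396449) (.one (nat_lit 8399065) .nil)))))),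
   .two (nat_lit 157038936131) (nat_lit 1847590977) (.two (nat_lit 10336862223) (nat_lit 1346373681) (.two (nat_lit 10370416645) (nat_lit 71305731) (.two (nat_lit 2097153) (nat_lit 2889880543) (.two (nat_lit 2097152) (nat_lit 4030732924) (.one (nat_lit 4204018) .nil))))),
   .two (nat_lit 285212739) (nat_lit 20738736241) (.two (nat_lit 9781116943) (nat_lit 183947495945) (.two (nat_lit 16777217) (nat_lit 740298636) (.two (nat_lit 16777216) (nat_lit 4632615515) (.one (nat_lit 2107610) .nil)))),
   .two (nat_lit 9948889205) (nat_lit 19597885558) (.two (nat_lit 1291845647) (nat_lit 46474987038) (.two (nat_lit 620756993) (nat_lit 183947498544) (.two (nat_lit 1048576) (nat_lit 2902466185) (.one (nat_lit 2107611) .nil)))),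
   .two (nat_lit 158143086658) (nat_lit 166230753537) (.two (nat_lit 158143086607) (nat_lit 12048140335) (.two (nat_lit 158144135173) (nat_lit 18925750790) (.two (nat_lit 606076929) (nat_lit 13224645680) (.two (nat_lit 2097152) (nat_lit 1055448) (.one (nat_lit 1059036) .nil))))),
   .two (nat_lit 10506731587) (nat_lit 11525947644) (.two (nat_lit 166132187151) (nat_lit 16778971) (.two (nat_lit 166132187144) (nat_lit 46992983400) (.two (nat_lit 166132187140) (nat_lit 16781696) (.two (nat_lit 9768534017) (nat_lit 158192374853) (.two (nat_lit 4194304) (nat_lit 158192377455) (.one (nat_lit 4204021) .nil)))))),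
   .two (nat_lit 184993972289) (nat_lit 10000269427) (.two (nat_lit 3460300815) (nat_lit 1780483388) (.two (nat_lit 34603013) (nat_lit 183916037662) (.two (nat_lit 34603009) (nat_lit 174692768351) (.one (nat_lit 8399069) .nil)))),
   .two (nat_lit 13195280451) (nat_lit 47548727363) (.two (nat_lit 18933088271) (nat_lit 740296029) (.two (nat_lit 156372041733) (nat_lit 21812480523) (.two (nat_lit 4194305) (nat_lit 21214796360) (.one (nat_lit 2107614) .nil)))),
   .two (nat_lit 612368500) (nat_lit 117440621) (.two (nat_lit 1191182351) (nat_lit 2323645078) (.two (nat_lit 10385096712) (nat_lit 46481278297) (.two (nat_lit 12062818309) (nat_lit 243273621) (.two (nat_lit 2097152) (nat_lit 8397350) (.one (nat_lit 2107615) .nil))))),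
   .two (nat_lit 754974785) (nat_lit 310378630) (.two (nat_lit 1350565903) (nat_lit 1358954691) (.two (nat_lit 620757000) (nat_lit 10003415908) (.two (nat_lit 184549381) (nat_lit 19096667677) (.two (nat_lit 16777217) (nat_lit 9936310153) (.two (nat_lit 4194304) (nat_lit 8397351) (.one (nat_lit 4202639) .nil)))))),
   .two (nat_lit 11577327682) (nat_lit 183853121650) (.two (nat_lit 12054429711) (nat_lit 135267869) (.two (nat_lit 41943041) (nat_lit 638589523) (.one (nat_lit 174685431131) .nil))),
   .two (nat_lit 11618222145) (nat_lit 9933160575) (.two (nat_lit 20644364303) (nat_lit 9899608093) (.two (nat_lit 184986632197) (nat_lit 176165913) (.two (nat_lit 1048576) (nat_lit 4605355056) .nil))),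
   .two (nat_lit 9881780289) (nat_lit 4598006391) (.two (nat_lit 9881780232) (nat_lit 1050685) (.two (nat_lit 1358954501) (nat_lit 37313580535) (.two (nat_lit 620756993) (nat_lit 183912898114) (.one (nat_lit 1059040) .nil)))),
   .two (nat_lit 1779433539) (nat_lit 2097415) (.two (nat_lit 9900654616) (nat_lit 174752531837) (.two (nat_lit 11476664324) (nat_lit 2101633) (.two (nat_lit 9765388289) (nat_lit 37247521833) (.two (nat_lit 1048576) (nat_lit 2105896) (.one (nat_lit 1059041) .nil))))),
   .two (nat_lit 11543773250) (nat_lit 83886193) (.two (nat_lit 620757007) (nat_lit 9899606687) (.two (nat_lit 1749024776) (nat_lit 185020187491) (.two (nat_lit 12114198533) (nat_lit 843056670) (.two (nat_lit 16777217) (nat_lit 1913657960) (.one (nat_lit 156468520884) .nil))))),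
   .two (nat_lit 218103873) (nat_lit 183853121653) (.two (nat_lit 218103823) (nat_lit 8389691) (.two (nat_lit 184549389) (nat_lit 156372043048) (.two (nat_lit 41943045) (nat_lit 1191186338) (.two (nat_lit 16777216) (nat_lit 142613107) (.one (nat_lit 8398328) .nil))))),
   .two (nat_lit 12114198594) (nat_lit 166132187249) (.two (nat_lit 3525312527) (nat_lit 183949591875) (.two (nat_lit 2887778308) (nat_lit 183916039621) (.two (nat_lit 4194305) (nat_lit 37246475815) (.one (nat_lit 4204025) .nil)))),
   .two (nat_lit 4601151555) (nat_lit 46414168176) (.two (nat_lit 46414168079) (nat_lit 2923430754) (.two (nat_lit 4605345797) (nat_lit 158179789315) (.two (nat_lit 8388609) (nat_lit 2353011373) (.one (nat_lit 19599992263) .nil)))),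
   .two (nat_lit 184419352641) (nat_lit 159251431545) (.two (nat_lit 157038936079) (nat_lit 12148801896) (.two (nat_lit 1780482056) (nat_lit 46477083982) (.two (nat_lit 1176502277) (nat_lit 205523471) (.two (nat_lit 41943041) (nat_lit 183947497359) (.two (nat_lit 8388608) (nat_lit 9934215880) (.one (nat_lit 2106875) .nil)))))),
   .two (nat_lit 13191086147) (nat_lit 183962173556) (.two (nat_lit 183848927247) (nat_lit 11476664994) (.two (nat_lit 11559501832) (nat_lit 10906240378) (.two (nat_lit 156367847429) (nat_lit 9982447092) (.two (nat_lit 620756993) (nat_lit 19529733187) (.two (nat_lit 1048576) (nat_lit 4202148) (.one (nat_lit 1059042) .nil)))))),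
   .two (nat_lit 158176641089) (nat_lit 21812478065) (.two (nat_lit 1376780328) (nat_lit 174686470768) (.two (nat_lit 158144135176) (nat_lit 1051545) (.two (nat_lit 1913651205) (nat_lit 11513368040) (.two (nat_lit 9766436865) (nat_lit 19529731975) (.two (nat_lit 2097152) (nat_lit 1055449) (.one (nat_lit 1059043) .nil)))))),
   .two (nat_lit 754974785) (nat_lit 156465365242) (.two (nat_lit 117440527) (nat_lit 28757197421) (.two (nat_lit 20637024264) (nat_lit 1426066866) (.two (nat_lit 4194305) (nat_lit 156581762057) (.two (nat_lit 4194304) (nat_lit 9814679006) (.one (nat_lit 16787684) .nil))))),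
   .two (nat_lit 654311534) (nat_lit 11610882162) (.two (nat_lit 4194319) (nat_lit 620759553) (.two (nat_lit 16777217) (nat_lit 156532478972) (.two (nat_lit 16777216) (nat_lit 809507450) (.one (nat_lit 1058301) .nil)))),
   .two (nat_lit 9948889155) (nat_lit 4027580538) (.two (nat_lit 1291845647) (nat_lit 19596837513) (.two (nat_lit 46407876616) (nat_lit 19545457991) (.two (nat_lit 2954887173) (nat_lit 16780776) (.two (nat_lit 9765388289) (nat_lit 1176507361) (.two (nat_lit 1048576) (nat_lit 10504642209) (.one (nat_lit 2920293708) .nil)))))),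
   .two (nat_lit 11513364545) (nat_lit 889192570) (.two (nat_lit 620757007) (nat_lit 12155093649) (.two (nat_lit 218103816) (nat_lit 9768535394) (.two (nat_lit 809500677) (nat_lit 11559504403) (.two (nat_lit 612368385) (nat_lit 4201033) (.one (nat_lit 4204773) .nil))))),
   .two (nat_lit 11543773248) (nat_lit 50331765) (.two (nat_lit 9866051599) (nat_lit 156533523107) (.two (nat_lit 50331660) (nat_lit 46977254709) (.two (nat_lit 822083589) (nat_lit 3020950026) (.two (nat_lit 50331649) (nat_lit 156364705673) (.two (nat_lit 16777216) (nat_lit 3457161813) (.one (nat_lit 1058303) .nil)))))),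
   .two (nat_lit 4613734465) (nat_lit 18933088371) (.two (nat_lit 117440527) (nat_lit 10436477574) (.two (nat_lit 11476664328) (nat_lit 754976037) (.two (nat_lit 620756997) (nat_lit 1853886818) (.two (nat_lit 8388609) (nat_lit 135271423) (.two (nat_lit 2097152) (nat_lit 1057321) (.one (nat_lit 2107622) .nil)))))),
   .two (nat_lit 754974786) (nat_lit 37313577068) (.two (nat_lit 754974735) (nat_lit 37246468693) (.two (nat_lit 11543773192) (nat_lit 9781119486) (.two (nat_lit 34603009) (nat_lit 2969572395) (.two (nat_lit 16777216) (nat_lit 1056422) (.one (nat_lit 1059047) .nil))))),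
   .two (nat_lit 2969567296) (nat_lit 28758245443) (.two (nat_lit 2969567247) (nat_lit 337641831) (.two (nat_lit 184549384) (nat_lit 158647455235) (.two (nat_lit 16777217) (nat_lit 2104395) (.two (nat_lit 2097152) (nat_lit 16785063) (.one (nat_lit 2106880) .nil))))),
   .two (nat_lit 3028287553) (nat_lit 46992982148) (.two (nat_lit 176160783) (nat_lit 184550737) (.two (nat_lit 184549380) (nat_lit 1954551100) (.one (nat_lit 21210604513) .nil))),
   .two (nat_lit 822083694) (nat_lit 3028287609) (.two (nat_lit 158083317784) (nat_lit 1426063989) (.two (nat_lit 20644364296) (nat_lit 9781118250) (.two (nat_lit 612368389) (nat_lit 654315396) (.two (nat_lit 2097152) (nat_lit 8395482) (.one (nat_lit 16787688) .nil))))),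
   .two (nat_lit 166132187201) (nat_lit 46508540161) (.two (nat_lit 166132187151) (nat_lit 184417256045) (.two (nat_lit 28691136520) (nat_lit 13191088670) (.two (nat_lit 41943041) (nat_lit 4201548) (.two (nat_lit 4194304) (nat_lit 8397354) (.one (nat_lit 2107625) .nil))))),
   .two (nat_lit 679477358) (nat_lit 304087159) (.two (nat_lit 10370416655) (nat_lit 9974055522) (.two (nat_lit 742391816) (nat_lit 174692762992) (.two (nat_lit 708837381) (nat_lit 10007610910) (.two (nat_lit 9781116929) (nat_lit 159217882069) (.two (nat_lit 16777216) (nat_lit 673192555) (.one (nat_lit 2106881) .nil)))))),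
   .two (nat_lit 2954887234) (nat_lit 46980399225) (.two (nat_lit 2921332760) (nat_lit 843055299) (.two (nat_lit 104857608) (nat_lit 19530777934) (.two (nat_lit 1178599429) (nat_lit 166130092554) (.two (nat_lit 612368385) (nat_lit 740298633) (.two (nat_lit 8388608) (nat_lit 1413489955) .nil))))),
   .two (nat_lit 2969567297) (nat_lit 166230753534) (.two (nat_lit 2969567247) (nat_lit 159217877652) (.two (nat_lit 9766436872) (nat_lit 218106367) (.two (nat_lit 41943041) (nat_lit 69211105) (.two (nat_lit 8388608) (nat_lit 2105000) (.one (nat_lit 9772738427) .nil))))),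
   .two (nat_lit 47555018819) (nat_lit 174686470255) (.two (nat_lit 3464495119) (nat_lit 10538189413) (.two (nat_lit 20638072840) (nat_lit 166203494286) (.two (nat_lit 2097152) (nat_lit 8395483) (.one (nat_lit 2107626) .nil)))),
   .two (nat_lit 12054429763) (nat_lit 184417255552) (.two (nat_lit 37748751) (nat_lit 1753219430) (.two (nat_lit 2954887176) (nat_lit 1413481782) (.two (nat_lit 169869316) (nat_lit 4634709495) (.two (nat_lit 2097153) (nat_lit 4201549) (.two (nat_lit 8388608) (nat_lit 2350916613) .nil))))),
   .two (nat_lit 612368493) (nat_lit 2902458482) (.two (nat_lit 218103823) (nat_lit 1954546285) (.two (nat_lit 218103816) (nat_lit 1786774851) (.two (nat_lit 2969567237) (nat_lit 159257726415) (.two (nat_lit 16777217) (nat_lit 10510930951) (.two (nat_lit 4194304) (nat_lit 8396457) (.one (nat_lit 16786948) .nil)))))),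
   .two (nat_lit 156569174129) (nat_lit 1344274559) (.two (nat_lit 157036838927) (nat_lit 2319452679) (.two (nat_lit 2097153) (nat_lit 4199458) (.two (nat_lit 4194304) (nat_lit 2988451112) .nil))),
   .two (nat_lit 4605345856) (nat_lit 742392167) (.two (nat_lit 620757000) (nat_lit 13195281793) (.two (nat_lit 8388612) (nat_lit 9936311323) (.two (nat_lit 1048576) (nat_lit 8397355) (.one (nat_lit 8399083) .nil)))),
   .two (nat_lit 12117344321) (nat_lit 184549489) (.two (nat_lit 12117344271) (nat_lit 19109250400) (.two (nat_lit 171966469) (nat_lit 166144772643) (.two (nat_lit 50331649) (nat_lit 158075983725) (.two (nat_lit 1048576) (nat_lit 16785066) (.one (nat_lit 4204780) .nil))))),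
   .two (nat_lit 10385096821) (nat_lit 159257723002) (.two (nat_lit 41943055) (nat_lit 12633244332) (.two (nat_lit 41943048) (nat_lit 185002362220) (.two (nat_lit 822083589) (nat_lit 21785217537) (.two (nat_lit 50331649) (nat_lit 46414174912) (.one (nat_lit 8399085) .nil))))),
   .two (nat_lit 4605345856) (nat_lit 13237223546) (.two (nat_lit 620757007) (nat_lit 156372043294) (.two (nat_lit 8388609) (nat_lit 754979889) (.two (nat_lit 4194304) (nat_lit 276830793) (.one (nat_lit 8398343) .nil)))),
   .two (nat_lit 3525312578) (nat_lit 1182793856) (.two (nat_lit 2887778319) (nat_lit 158192370355) (.two (nat_lit 2961178632) (nat_lit 3021997370) (.two (nat_lit 176160772) (nat_lit 9948891672) (.two (nat_lit 9765388289) (nat_lit 10437530683) (.two (nat_lit 1048576) (nat_lit 9781124748) (.one (nat_lit 1059054) .nil)))))),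
   .two (nat_lit 47555018816) (nat_lit 12115247227) (.two (nat_lit 20644364303) (nat_lit 10906240345) (.two (nat_lit 169869316) (nat_lit 8392213) (.two (nat_lit 612368385) (nat_lit 672143289) (.two (nat_lit 1048576) (nat_lit 158647460366) (.one (nat_lit 19093530099) .nil))))),
   .two (nat_lit 4601151552) (nat_lit 158083317876) (.two (nat_lit 184993972248) (nat_lit 104858930) (.two (nat_lit 41943045) (nat_lit 9802090013) (.two (nat_lit 41943041) (nat_lit 641733949) (.one (nat_lit 4204783) .nil)))),
   .two (nat_lit 822083701) (nat_lit 303038585) (.two (nat_lit 184549391) (nat_lit 2317353585) (.two (nat_lit 9948889096) (nat_lit 46474987038) (.two (nat_lit 605028353) (nat_lit 20719865747) (.two (nat_lit 1048576) (nat_lit 2105003) (.one (nat_lit 156532484037) .nil))))),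
   .two (nat_lit 673185859) (nat_lit 10385096816) (.two (nat_lit 10385096719) (nat_lit 10907288418) (.two (nat_lit 159217876997) (nat_lit 46992986004) (.two (nat_lit 2097152) (nat_lit 822091940) .nil))),
   .two (nat_lit 3525312579) (nat_lit 19130220657) (.two (nat_lit 9768534031) (nat_lit 10504634726) (.two (nat_lit 46978301960) (nat_lit 11010049346) (.two (nat_lit 46407876612) (nat_lit 4197910) (.two (nat_lit 2097153) (nat_lit 4200382) (.two (nat_lit 2097152) (nat_lit 1056429) (.one (nat_lit 2107632) .nil)))))),
   .two (nat_lit 310378562) (nat_lit 11513364610) (.two (nat_lit 4194319) (nat_lit 4605346398) (.two (nat_lit 272629768) (nat_lit 12114199395) (.two (nat_lit 4194308) (nat_lit 19093524833) (.two (nat_lit 9768534017) (nat_lit 12155100792) (.one (nat_lit 8399089) .nil))))),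
   .two (nat_lit 4605345858) (nat_lit 19532873843) (.two (nat_lit 19532873768) (nat_lit 13195280579) (.two (nat_lit 19532873741) (nat_lit 13195281949) (.two (nat_lit 4194305) (nat_lit 166136388464) .nil))),
   .two (nat_lit 4601151552) (nat_lit 1191182449) (.two (nat_lit 9781116943) (nat_lit 9802088643) (.two (nat_lit 9781116936) (nat_lit 19029558601) (.two (nat_lit 4194308) (nat_lit 2332038122) (.two (nat_lit 4194304) (nat_lit 16785964) (.one (nat_lit 16787698) .nil))))),
   .two (nat_lit 83886191) (nat_lit 10906239223) (.two (nat_lit 9881780239) (nat_lit 269485098) (.two (nat_lit 1947205644) (nat_lit 19545459241) (.two (nat_lit 9765388289) (nat_lit 620763843) (.one (nat_lit 1059059) .nil)))),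
   .two (nat_lit 11559501933) (nat_lit 1175453957) (.two (nat_lit 11559501839) (nat_lit 158646403679) (.two (nat_lit 1276117000) (nat_lit 721421604) (.two (nat_lit 4601151493) (nat_lit 10335818775) (.two (nat_lit 1048576) (nat_lit 4203053) (.one (nat_lit 4204788) .nil))))),
   .two (nat_lit 4605345857) (nat_lit 50331783) (.two (nat_lit 41943055) (nat_lit 183962174114) (.two (nat_lit 83886088) (nat_lit 21214792224) (.two (nat_lit 50331649) (nat_lit 1182799781) (.two (nat_lit 16777216) (nat_lit 20640179378) .nil)))),
   .two (nat_lit 184993972291) (nat_lit 12617515073) (.two (nat_lit 184416206863) (nat_lit 156472706395) (.two (nat_lit 739246085) (nat_lit 10510929804) (.two (nat_lit 1048576) (nat_lit 746592925) (.one (nat_lit 8399093) .nil)))),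
   .two (nat_lit 21827158125) (nat_lit 9933160575) (.two (nat_lit 12047089679) (nat_lit 18941478206) (.two (nat_lit 184986632197) (nat_lit 50335211) (.two (nat_lit 34603009) (nat_lit 16782368) (.two (nat_lit 4194304) (nat_lit 34612535) .nil)))),
   .two (nat_lit 176160834) (nat_lit 673186036) (.two (nat_lit 159217877007) (nat_lit 880804035) (.two (nat_lit 176160776) (nat_lit 47582283049) (.two (nat_lit 176160772) (nat_lit 47582283294) (.two (nat_lit 2097153) (nat_lit 8394687) (.two (nat_lit 16777216) (nat_lit 9906955238) .nil))))),
   .two (nat_lit 47555018818) (nat_lit 10940842099) (.two (nat_lit 157036838927) (nat_lit 159224170013) (.two (nat_lit 2097153) (nat_lit 243275064) (.one (nat_lit 10007618734) .nil))),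
   .two (nat_lit 156581757038) (nat_lit 184419352690) (.two (nat_lit 183848927247) (nat_lit 47596963207) (.two (nat_lit 13191086085) (nat_lit 1358957075) (.two (nat_lit 156372041729) (nat_lit 183962181289) (.one (nat_lit 4204790) .nil)))),
   .two (nat_lit 4601151554) (nat_lit 166130090050) (.two (nat_lit 4601151503) (nat_lit 10504634563) (.two (nat_lit 4601151496) (nat_lit 184987682092) (.two (nat_lit 13195280389) (nat_lit 1279266696) (.two (nat_lit 8388608) (nat_lit 10370423416) (.one (nat_lit 4204791) .nil))))),
   .two (nat_lit 1916796995) (nat_lit 11610882173) (.two (nat_lit 754974735) (nat_lit 10338960019) (.two (nat_lit 50331656) (nat_lit 9802089809) (.two (nat_lit 285212677) (nat_lit 4601155056) (.two (nat_lit 4194305) (nat_lit 16783220) (.two (nat_lit 1048576) (nat_lit 4202158) (.one (nat_lit 4204792) .nil)))))),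
   .two (nat_lit 272629827) (nat_lit 9781117040) (.two (nat_lit 9781116943) (nat_lit 3560966676) (.two (nat_lit 16777217) (nat_lit 2990545571) (.one (nat_lit 4204793) .nil))),
   .two (nat_lit 20704133186) (nat_lit 2887778427) (.two (nat_lit 1277165583) (nat_lit 11610883380) (.two (nat_lit 746586117) (nat_lit 183912892950) (.two (nat_lit 606076929) (nat_lit 12121542547) (.two (nat_lit 2097152) (nat_lit 8396463) (.one (nat_lit 8399098) .nil))))),
   .two (nat_lit 772800577) (nat_lit 184987680901) (.two (nat_lit 11479810063) (nat_lit 158143087209) (.two (nat_lit 742391816) (nat_lit 1376781606) (.two (nat_lit 174752530437) (nat_lit 10001321382) (.two (nat_lit 9768534017) (nat_lit 20704138230) (.two (nat_lit 4194304) (nat_lit 21812485784) (.one (nat_lit 2107643) .nil)))))),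
   .two (nat_lit 2969567297) (nat_lit 19027460231) (.two (nat_lit 1291845647) (nat_lit 184416207205) (.two (nat_lit 2887778312) (nat_lit 218105122) (.two (nat_lit 270532613) (nat_lit 37329309164) (.two (nat_lit 2097153) (nat_lit 16783296) (.two (nat_lit 2097152) (nat_lit 1056432) (.one (nat_lit 1059068) .nil)))))),
   .two (nat_lit 12117344321) (nat_lit 1746927735) (.two (nat_lit 21785214991) (nat_lit 158144135834) (.two (nat_lit 19029557261) (nat_lit 3558868261) (.two (nat_lit 10372513797) (nat_lit 28758248930) (.two (nat_lit 4194305) (nat_lit 37253814910) (.one (nat_lit 4204043) .nil))))),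
   .two (nat_lit 272629827) (nat_lit 337641591) (.two (nat_lit 2889875471) (nat_lit 10336862882) (.two (nat_lit 9768534024) (nat_lit 10940843345) (.two (nat_lit 272629765) (nat_lit 19094571559) (.two (nat_lit 2097153) (nat_lit 9802094410) (.two (nat_lit 4194304) (nat_lit 46414174846) (.one (nat_lit 4204045) .nil)))))),
   .two (nat_lit 4030726211) (nat_lit 159251431532) (.two (nat_lit 75497487) (nat_lit 1413481064) (.two (nat_lit 10336862216) (nat_lit 158079124779) (.two (nat_lit 9873391621) (nat_lit 2101636) (.two (nat_lit 41943041) (nat_lit 2103234) (.two (nat_lit 4194304) (nat_lit 8397361) (.one (nat_lit 8399101) .nil)))))),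
   .two (nat_lit 4601151555) (nat_lit 1392509185) (.two (nat_lit 11492392975) (nat_lit 2923430755) (.two (nat_lit 272629765) (nat_lit 788531747) (.two (nat_lit 4194305) (nat_lit 1358962257) (.one (nat_lit 708846686) .nil)))),
   .two (nat_lit 4601151554) (nat_lit 11559501953) (.two (nat_lit 83886095) (nat_lit 13191087450) (.two (nat_lit 1178599429) (nat_lit 20719864333) (.two (nat_lit 4194305) (nat_lit 16783299) (.two (nat_lit 16777216) (nat_lit 2105908) (.one (nat_lit 4204800) .nil))))),
   .two (nat_lit 28086108227) (nat_lit 4599054599) (.two (nat_lit 37247516696) (nat_lit 135267171) (.two (nat_lit 184986632197) (nat_lit 4599058817) (.two (nat_lit 34603009) (nat_lit 169875367) (.two (nat_lit 1048576) (nat_lit 158144144616) .nil)))),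
   .two (nat_lit 11513364545) (nat_lit 12617515128) (.two (nat_lit 3539992591) (nat_lit 10372514151) (.two (nat_lit 843055116) (nat_lit 1392510264) (.two (nat_lit 809500677) (nat_lit 855643109) (.two (nat_lit 1048576) (nat_lit 4203061) (.one (nat_lit 16787713) .nil))))),
   .two (nat_lit 2902458480) (nat_lit 184419352813) (.two (nat_lit 184549391) (nat_lit 12050236780) (.two (nat_lit 285212677) (nat_lit 19532876289) (.two (nat_lit 37748737) (nat_lit 28101841894) (.two (nat_lit 4194304) (nat_lit 16784095) (.one (nat_lit 11479819314) .nil))))),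
   .two (nat_lit 169869377) (nat_lit 28806480008) (.two (nat_lit 13191086095) (nat_lit 10504635689) (.two (nat_lit 9781116933) (nat_lit 158079127895) (.two (nat_lit 9781116929) (nat_lit 1749031594) (.one (nat_lit 4634716147) .nil)))),
   .two (nat_lit 285212789) (nat_lit 2317353215) (.two (nat_lit 285212687) (nat_lit 156533523099) (.two (nat_lit 1277165576) (nat_lit 11492394280) (.two (nat_lit 218103813) (nat_lit 10907290113) (.two (nat_lit 16777217) (nat_lit 2102346) (.two (nat_lit 2097152) (nat_lit 16785974) (.one (nat_lit 16787714) .nil)))))),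
   .two (nat_lit 16777281) (nat_lit 310378562) (.two (nat_lit 16777231) (nat_lit 156372043115) (.two (nat_lit 8388612) (nat_lit 822086142) (.two (nat_lit 8388609) (nat_lit 9948895121) (.two (nat_lit 16777216) (nat_lit 8396466) (.one (nat_lit 109061371) .nil))))),
   .two (nat_lit 159224168515) (nat_lit 10940842099) (.two (nat_lit 157036838927) (nat_lit 1216350762) (.two (nat_lit 2097153) (nat_lit 19033758348) (.one (nat_lit 847259041) .nil))),
   .two (nat_lit 285212739) (nat_lit 157035790598) (.two (nat_lit 4194319) (nat_lit 822084897) (.two (nat_lit 4194308) (nat_lit 19042143751) (.two (nat_lit 34603009) (nat_lit 4030732120) (.two (nat_lit 16777216) (nat_lit 165528215190) (.one (nat_lit 1059075) .nil))))),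
   .two (nat_lit 46474985538) (nat_lit 166132187249) (.two (nat_lit 10506731535) (nat_lit 156533523997) (.two (nat_lit 4194305) (nat_lit 46407883438) (.one (nat_lit 2350917879) .nil))),
   .two (nat_lit 21208498241) (nat_lit 16777353) (.two (nat_lit 21208498191) (nat_lit 184431936145) (.two (nat_lit 158144135180) (nat_lit 754976081) (.two (nat_lit 2969567237) (nat_lit 174686472704) (.two (nat_lit 2097153) (nat_lit 4043313053) (.two (nat_lit 8388608) (nat_lit 69212865) (.one (nat_lit 2107652) .nil)))))),
   .two (nat_lit 46978302019) (nat_lit 156532473993) (.two (nat_lit 184986632207) (nat_lit 10007610730) (.two (nat_lit 1343225861) (nat_lit 21778927075) (.two (nat_lit 2097153) (nat_lit 705695633) (.two (nat_lit 2097152) (nat_lit 2953845325) (.one (nat_lit 2107653) .nil))))),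
   .two (nat_lit 16777281) (nat_lit 20644364403) (.two (nat_lit 158083317775) (nat_lit 156984411437) (.two (nat_lit 20644364292) (nat_lit 20753419753) (.two (nat_lit 8388609) (nat_lit 174701157003) (.one (nat_lit 166237054357) .nil)))),
   .two (nat_lit 4605345856) (nat_lit 1376780401) (.two (nat_lit 13195280399) (nat_lit 20704133770) (.two (nat_lit 41943048) (nat_lit 12047091759) (.two (nat_lit 184993972229) (nat_lit 156968684979) (.two (nat_lit 156364701697) (nat_lit 174759875625) (.two (nat_lit 1048576) (nat_lit 8397368) (.one (nat_lit 1058323) .nil)))))),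
   .two (nat_lit 218103873) (nat_lit 13224640627) (.two (nat_lit 218103823) (nat_lit 12150900088) (.two (nat_lit 184549381) (nat_lit 156971830767) (.two (nat_lit 16777217) (nat_lit 4199499) (.two (nat_lit 1048576) (nat_lit 4202164) (.one (nat_lit 4204807) .nil))))),
   .two (nat_lit 620757059) (nat_lit 12624855295) (.two (nat_lit 721420303) (nat_lit 10947134111) (.two (nat_lit 18933088264) (nat_lit 3539993913) (.two (nat_lit 612368389) (nat_lit 1358957054) (.two (nat_lit 605028353) (nat_lit 1954553477) (.one (nat_lit 8399112) .nil))))),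
   .two (nat_lit 21785215043) (nat_lit 788529288) (.two (nat_lit 11492392975) (nat_lit 4195006) (.two (nat_lit 1178599437) (nat_lit 1426065958) (.two (nat_lit 4194305) (nat_lit 9974061686) (.one (nat_lit 8399113) .nil)))),
   .two (nat_lit 158646403186) (nat_lit 9902751869) (.two (nat_lit 713031695) (nat_lit 159250383476) (.two (nat_lit 713031688) (nat_lit 156566029657) (.two (nat_lit 41943045) (nat_lit 156364704269) (.two (nat_lit 41943041) (nat_lit 1054661) (.two (nat_lit 1048576) (nat_lit 8396469) (.one (nat_lit 1059082) .nil)))))),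
   .two (nat_lit 3527409730) (nat_lit 159250383110) (.two (nat_lit 9768534031) (nat_lit 185020187282) (.two (nat_lit 9934209032) (nat_lit 10335815010) (.two (nat_lit 183845781508) (nat_lit 2319453697) (.two (nat_lit 9765388289) (nat_lit 2103234) (.two (nat_lit 4194304) (nat_lit 2105913) (.one (nat_lit 2953848279) .nil)))))),
   .two (nat_lit 2889875522) (nat_lit 10537140352) (.two (nat_lit 184416206863) (nat_lit 21781021341) (.two (nat_lit 9768534024) (nat_lit 174685422956) (.two (nat_lit 272629765) (nat_lit 1053061) (.two (nat_lit 9768534017) (nat_lit 2316310388) (.two (nat_lit 4194304) (nat_lit 1057338) (.one (nat_lit 18928903177) .nil)))))),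
   .two (nat_lit 20704133186) (nat_lit 21208498289) (.two (nat_lit 158144135183) (nat_lit 20704134685) (.two (nat_lit 606076929) (nat_lit 806358920) (.two (nat_lit 2097152) (nat_lit 3457161890) (.one (nat_lit 1059083) .nil)))),
   .two (nat_lit 176160834) (nat_lit 2316304519) (.two (nat_lit 3458203663) (nat_lit 9974056268) (.two (nat_lit 75497477) (nat_lit 2416970258) (.two (nat_lit 612368385) (nat_lit 235933579) (.two (nat_lit 2097152) (nat_lit 37320923720) (.one (nat_lit 8398358) .nil))))),
   .two (nat_lit 1753219314) (nat_lit 2097287) (.two (nat_lit 37748751) (nat_lit 10007609701) (.two (nat_lit 606076936) (nat_lit 184993974330) (.two (nat_lit 20638072837) (nat_lit 4198790) (.two (nat_lit 2097153) (nat_lit 183953790874) (.two (nat_lit 2097152) (nat_lit 880810621) (.one (nat_lit 2107660) .nil)))))),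
   .two (nat_lit 654311491) (nat_lit 11010048122) (.two (nat_lit 10385096719) (nat_lit 11580474045) (.two (nat_lit 37748744) (nat_lit 46422559238) (.two (nat_lit 4194305) (nat_lit 156984414102) (.two (nat_lit 2097152) (nat_lit 1782585942) (.one (nat_lit 16786968) .nil))))),
   .two (nat_lit 37313577076) (nat_lit 1178599557) (.two (nat_lit 21793603599) (nat_lit 158646403688) (.two (nat_lit 184419352584) (nat_lit 157035791720) (.two (nat_lit 1913651205) (nat_lit 157038939590) (.two (nat_lit 9765388289) (nat_lit 339743799) (.two (nat_lit 1048576) (nat_lit 4203067) (.one (nat_lit 16787725) .nil)))))),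
   .two (nat_lit 185020186691) (nat_lit 1914700039) (.two (nat_lit 21208498191) (nat_lit 21811429734) (.two (nat_lit 101711880) (nat_lit 9967766979) (.two (nat_lit 9765388289) (nat_lit 2954894009) (.one (nat_lit 19530786040) .nil)))),
   .two (nat_lit 184993972288) (nat_lit 28790751348) (.two (nat_lit 12147752984) (nat_lit 21785215171) (.two (nat_lit 12114198536) (nat_lit 21785216541) (.two (nat_lit 34603009) (nat_lit 4605351231) (.one (nat_lit 11517568078) .nil)))),
   .two (nat_lit 3028287554) (nat_lit 754974830) (.two (nat_lit 176160783) (nat_lit 184550042) (.two (nat_lit 822083592) (nat_lit 10007610210) (.two (nat_lit 16777220) (nat_lit 1417677312) (.two (nat_lit 156364701697) (nat_lit 8394694) (.two (nat_lit 1048576) (nat_lit 47588581910) (.one (nat_lit 1059086) .nil)))))),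
   .two (nat_lit 12117344322) (nat_lit 158646403182) (.two (nat_lit 174752530447) (nat_lit 156468512138) (.two (nat_lit 1343225861) (nat_lit 28693235230) (.two (nat_lit 605028353) (nat_lit 4601155477) (.two (nat_lit 1048576) (nat_lit 1346378385) (.one (nat_lit 156364710890) .nil))))),
   .two (nat_lit 50331715) (nat_lit 37748873) (.two (nat_lit 83886095) (nat_lit 740295275) (.two (nat_lit 157038936072) (nat_lit 12618564929) (.two (nat_lit 2887778308) (nat_lit 165540792850) (.two (nat_lit 4194305) (nat_lit 28772929415) (.two (nat_lit 16777216) (nat_lit 3560970849) (.one (nat_lit 16787728) .nil)))))),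
   .two (nat_lit 2969567297) (nat_lit 46481277047) (.two (nat_lit 620757007) (nat_lit 46514832228) (.two (nat_lit 184549381) (nat_lit 156472707608) (.two (nat_lit 16777217) (nat_lit 156976028244) (.one (nat_lit 2106906) .nil)))),
   .two (nat_lit 166230753396) (nat_lit 1317011572) (.two (nat_lit 159224168463) (nat_lit 46508540576) (.two (nat_lit 3525312520) (nat_lit 183953785700) (.two (nat_lit 270532613) (nat_lit 166136384009) (.two (nat_lit 2097153) (nat_lit 37253812104) (.two (nat_lit 1048576) (nat_lit 20638079572) (.one (nat_lit 8399122) .nil)))))),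
   .two (nat_lit 4601151552) (nat_lit 889192570) (.two (nat_lit 9781116943) (nat_lit 20707280181) (.two (nat_lit 4194308) (nat_lit 11559504403) (.two (nat_lit 4194305) (nat_lit 158192375622) (.two (nat_lit 2097152) (nat_lit 4201033) (.one (nat_lit 4204819) .nil))))),
   .two (nat_lit 620757102) (nat_lit 166129041536) (.two (nat_lit 9948889103) (nat_lit 46473938245) (.two (nat_lit 16777220) (nat_lit 839911950) (.two (nat_lit 16777217) (nat_lit 638589604) (.one (nat_lit 1929389153) .nil)))),
   .two (nat_lit 9781117040) (nat_lit 166229704826) (.two (nat_lit 11543773199) (nat_lit 10921970201) (.two (nat_lit 34603009) (nat_lit 1325405138) (.two (nat_lit 16777216) (nat_lit 158143095992) .nil))),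
   .two (nat_lit 11559501889) (nat_lit 184986632258) (.two (nat_lit 11559501839) (nat_lit 1376780483) (.two (nat_lit 1343225864) (nat_lit 721421598) (.two (nat_lit 9866051589) (nat_lit 285216243) (.two (nat_lit 34603009) (nat_lit 16783304) (.two (nat_lit 8388608) (nat_lit 269493499) .nil))))),
   .two (nat_lit 11559501888) (nat_lit 672137352) (.two (nat_lit 117440527) (nat_lit 183912891025) (.two (nat_lit 4194312) (nat_lit 11559504383) (.two (nat_lit 605028353) (nat_lit 21814580279) (.two (nat_lit 1048576) (nat_lit 272637553) (.one (nat_lit 1058332) .nil))))),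
   .two (nat_lit 184419352641) (nat_lit 13221494920) (.two (nat_lit 1343225871) (nat_lit 19096666307) (.two (nat_lit 68157448) (nat_lit 847251490) (.two (nat_lit 705691652) (nat_lit 11546921488) (.two (nat_lit 34603009) (nat_lit 10942944229) (.two (nat_lit 1048576) (nat_lit 8397375) (.one (nat_lit 10007619059) .nil)))))),
   .two (nat_lit 184549443) (nat_lit 18926796928) (.two (nat_lit 218103823) (nat_lit 20638074172) (.two (nat_lit 9934209029) (nat_lit 2936015395) (.two (nat_lit 9766436865) (nat_lit 10351547370) (.two (nat_lit 16777216) (nat_lit 21778932264) (.one (nat_lit 2106462) .nil))))),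
   .two (nat_lit 156367847491) (nat_lit 2097790) (.two (nat_lit 183848927240) (nat_lit 19596837731) (.two (nat_lit 13191086085) (nat_lit 606080500) (.two (nat_lit 34603009) (nat_lit 37314630655) (.two (nat_lit 1048576) (nat_lit 673193486) (.one (nat_lit 1059092) .nil))))),
   .two (nat_lit 3028287598) (nat_lit 11511267593) (.two (nat_lit 8388623) (nat_lit 158079124077) (.two (nat_lit 813694984) (nat_lit 28693234983) (.two (nat_lit 69206021) (nat_lit 10007610910) (.two (nat_lit 2097153) (nat_lit 4199479) (.two (nat_lit 4194304) (nat_lit 1377835649) (.one (nat_lit 2106912) .nil)))))),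
   .two (nat_lit 165526110275) (nat_lit 166245433460) (.two (nat_lit 12047089679) (nat_lit 50332314) (.two (nat_lit 1358954504) (nat_lit 1049995) (.two (nat_lit 4599054341) (nat_lit 156380433935) (.two (nat_lit 34603009) (nat_lit 16782412) (.two (nat_lit 1048576) (nat_lit 2104862) (.one (nat_lit 1059093) .nil)))))),
   .two (nat_lit 184986632256) (nat_lit 1210057342) (.two (nat_lit 822083592) (nat_lit 1914701125) (.two (nat_lit 10335813637) (nat_lit 2101639) (.two (nat_lit 16777217) (nat_lit 2104402) (.two (nat_lit 1048576) (nat_lit 16785078) (.one (nat_lit 16787734) .nil))))),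
   .two (nat_lit 8388675) (nat_lit 13237223619) (.two (nat_lit 176160776) (nat_lit 2332034379) (.two (nat_lit 176160772) (nat_lit 11611933191) (.two (nat_lit 2097153) (nat_lit 780145630) (.two (nat_lit 2097152) (nat_lit 16785079) (.one (nat_lit 2106913) .nil))))),
   .two (nat_lit 11559501888) (nat_lit 2316304500) (.two (nat_lit 772800536) (nat_lit 1358954691) (.two (nat_lit 184416206856) (nat_lit 721424291) (.two (nat_lit 1048576) (nat_lit 3539998013) (.one (nat_lit 16786978) .nil)))),
   .two (nat_lit 272629824) (nat_lit 156372041795) (.two (nat_lit 183853121551) (nat_lit 46510638365) (.two (nat_lit 4601151493) (nat_lit 19033755103) (.two (nat_lit 37748737) (nat_lit 8394697) (.two (nat_lit 8388608) (nat_lit 4203072) (.one (nat_lit 20640180133) .nil))))),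
   .two (nat_lit 1291845697) (nat_lit 3525312578) (.two (nat_lit 813694991) (nat_lit 165540791634) (.two (nat_lit 1176502277) (nat_lit 16781704) (.two (nat_lit 8388609) (nat_lit 337646633) (.two (nat_lit 2097152) (nat_lit 183920237247) (.one (nat_lit 16787735) .nil))))),
   .two (nat_lit 809500739) (nat_lit 156567077001) (.two (nat_lit 11479810063) (nat_lit 813695665) (.two (nat_lit 606076936) (nat_lit 343934237) (.two (nat_lit 47548727301) (nat_lit 20640175133) (.two (nat_lit 2097152) (nat_lit 28089260631) (.one (nat_lit 337650864) .nil))))),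
   .two (nat_lit 11618222196) (nat_lit 876609785) (.two (nat_lit 4605345807) (nat_lit 158079126050) (.two (nat_lit 41943041) (nat_lit 13224647358) (.one (nat_lit 4204067) .nil))),
   .two (nat_lit 11559501889) (nat_lit 20745027716) (.two (nat_lit 75497487) (nat_lit 117441830) (.two (nat_lit 16777220) (nat_lit 156539817866) (.two (nat_lit 8388608) (nat_lit 11007957664) (.one (nat_lit 2107672) .nil)))),
   .two (nat_lit 41943107) (nat_lit 21223178359) (.two (nat_lit 16777231) (nat_lit 12048138599) (.two (nat_lit 16777224) (nat_lit 4632610126) (.two (nat_lit 612368389) (nat_lit 11544825747) (.two (nat_lit 8388608) (nat_lit 158077033062) (.one (nat_lit 2107673) .nil))))),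
   .two (nat_lit 9881780290) (nat_lit 4194433) (.two (nat_lit 3539992591) (nat_lit 4601152117) (.two (nat_lit 158647451661) (nat_lit 269484900) (.two (nat_lit 708837381) (nat_lit 1761610245) (.two (nat_lit 606076929) (nat_lit 158176646990) (.two (nat_lit 2097152) (nat_lit 9936313020) (.one (nat_lit 11010058295) .nil)))))),
   .two (nat_lit 4601151552) (nat_lit 10947133558) (.two (nat_lit 612368399) (nat_lit 4601151683) (.two (nat_lit 2961178632) (nat_lit 1379927367) (.two (nat_lit 75497477) (nat_lit 28089256495) (.two (nat_lit 8388609) (nat_lit 608179230) (.two (nat_lit 1048576) (nat_lit 645929656) (.one (nat_lit 1059098) .nil)))))),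
   .two (nat_lit 47588573249) (nat_lit 158647451715) (.two (nat_lit 2961178639) (nat_lit 37314625894) (.two (nat_lit 1276117000) (nat_lit 2961180003) (.two (nat_lit 101711877) (nat_lit 174755678750) (.two (nat_lit 605028353) (nat_lit 12618569582) (.two (nat_lit 1048576) (nat_lit 2105017) (.one (nat_lit 1058341) .nil)))))),
   .two (nat_lit 158176641089) (nat_lit 3464495225) (.two (nat_lit 176160783) (nat_lit 158143087282) (.two (nat_lit 2889875464) (nat_lit 156968682339) (.two (nat_lit 2889875460) (nat_lit 1053065) (.two (nat_lit 4194305) (nat_lit 1054666) (.two (nat_lit 4194304) (nat_lit 8397927) .nil))))),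
   .two (nat_lit 16777280) (nat_lit 20644364403) (.two (nat_lit 21785214991) (nat_lit 47596963132) (.two (nat_lit 713031685) (nat_lit 19545460622) (.two (nat_lit 2097152) (nat_lit 16785083) (.one (nat_lit 158177699036) .nil)))),
   .two (nat_lit 46474985537) (nat_lit 10913579261) (.two (nat_lit 1178599439) (nat_lit 174692762991) (.two (nat_lit 69206021) (nat_lit 9974058478) (.two (nat_lit 9781116929) (nat_lit 47555026518) (.one (nat_lit 2107675) .nil)))),
   .two (nat_lit 754974786) (nat_lit 158646403137) (.two (nat_lit 21207449615) (nat_lit 47563407721) (.two (nat_lit 754974728) (nat_lit 159216829782) (.two (nat_lit 9866051589) (nat_lit 165540794265) (.two (nat_lit 1048576) (nat_lit 156984416951) (.one (nat_lit 16787740) .nil))))),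
   .two (nat_lit 183848927298) (nat_lit 19026411634) (.two (nat_lit 183848927247) (nat_lit 10000270686) (.two (nat_lit 2902458373) (nat_lit 1782581800) (.two (nat_lit 37748737) (nat_lit 11476668295) (.two (nat_lit 1048576) (nat_lit 822090377) (.one (nat_lit 16787741) .nil))))),
   .two (nat_lit 4605345858) (nat_lit 166197198969) (.two (nat_lit 9768534031) (nat_lit 136315583) (.two (nat_lit 9768534024) (nat_lit 69207389) (.two (nat_lit 708837381) (nat_lit 1753221654) (.two (nat_lit 606076929) (nat_lit 2319454099) (.two (nat_lit 2097152) (nat_lit 4202172) (.one (nat_lit 136324439) .nil)))))),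
   .two (nat_lit 11559501889) (nat_lit 839909735) (.two (nat_lit 2961178632) (nat_lit 4043310454) (.two (nat_lit 176160772) (nat_lit 166229709869) (.two (nat_lit 16777216) (nat_lit 37320924836) (.one (nat_lit 1058724) .nil)))),
   .two (nat_lit 4605345858) (nat_lit 2923430004) (.two (nat_lit 809500687) (nat_lit 156372043088) (.two (nat_lit 4194308) (nat_lit 19134420016) (.two (nat_lit 4194304) (nat_lit 1779440336) (.one (nat_lit 1059102) .nil)))),
   .two (nat_lit 20704133185) (nat_lit 12618563704) (.two (nat_lit 2969567247) (nat_lit 28791800433) (.two (nat_lit 11559501832) (nat_lit 2349860130) (.two (nat_lit 1276116996) (nat_lit 687869393) (.two (nat_lit 2097153) (nat_lit 16784467) (.two (nat_lit 2097152) (nat_lit 1057345) (.one (nat_lit 1059103) .nil)))))),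
   .two (nat_lit 4634706035) (nat_lit 46978302068) (.two (nat_lit 46409973775) (nat_lit 1914700404) (.two (nat_lit 46409973768) (nat_lit 1277169089) (.two (nat_lit 4194305) (nat_lit 21778927505) (.two (nat_lit 2097152) (nat_lit 4202173) (.one (nat_lit 4204832) .nil))))),
   .two (nat_lit 184419352643) (nat_lit 185021235319) (.two (nat_lit 50331663) (nat_lit 3527410325) (.two (nat_lit 285212680) (nat_lit 9936307501) (.two (nat_lit 809500677) (nat_lit 156548206012) (.two (nat_lit 16777217) (nat_lit 37316730359) (.one (nat_lit 285222191) .nil))))),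
   .two (nat_lit 19130220655) (nat_lit 185002360960) (.two (nat_lit 11479810063) (nat_lit 183861511012) (.two (nat_lit 809500677) (nat_lit 9881782807) (.two (nat_lit 156364701697) (nat_lit 28101843560) (.one (nat_lit 4204833) .nil)))),
   .two (nat_lit 16777280) (nat_lit 9934209134) (.two (nat_lit 2954887183) (nat_lit 620757187) (.two (nat_lit 16777224) (nat_lit 69208975) (.two (nat_lit 2887778308) (nat_lit 12620663316) (.two (nat_lit 16777217) (nat_lit 1849692039) (.two (nat_lit 4194304) (nat_lit 12115253837) (.one (nat_lit 171976097) .nil)))))),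
   .two (nat_lit 10913579124) (nat_lit 9867100294) (.two (nat_lit 10939793423) (nat_lit 9967764521) (.two (nat_lit 165526110216) (nat_lit 183853122883) (.two (nat_lit 10336862213) (nat_lit 159224171997) (.two (nat_lit 9765388289) (nat_lit 10510932606) (.one (nat_lit 11517569282) .nil))))),
   .two (nat_lit 218103874) (nat_lit 136315012) (.two (nat_lit 10336862223) (nat_lit 1224737410) (.two (nat_lit 10336862216) (nat_lit 352322925) (.two (nat_lit 270532613) (nat_lit 184553350) (.two (nat_lit 1048576) (nat_lit 2332038460) (.one (nat_lit 16786985) .nil))))),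
   .two (nat_lit 184549441) (nat_lit 1350566025) (.two (nat_lit 184549391) (nat_lit 239076407) (.two (nat_lit 2902458376) (nat_lit 306185505) (.two (nat_lit 809500677) (nat_lit 150997509) (.two (nat_lit 16777217) (nat_lit 2323650392) (.two (nat_lit 4194304) (nat_lit 158150434454) (.one (nat_lit 8399138) .nil)))))),
   .two (nat_lit 46474985537) (nat_lit 158646403201) (.two (nat_lit 9768534031) (nat_lit 159216829741) (.two (nat_lit 171966469) (nat_lit 136318865) (.two (nat_lit 1048576) (nat_lit 2105022) (.one (nat_lit 10537149980) .nil)))),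
   .two (nat_lit 12054429761) (nat_lit 13224640627) (.two (nat_lit 1753219087) (nat_lit 158079123816) (.two (nat_lit 1753219080) (nat_lit 183949591394) (.two (nat_lit 47555018757) (nat_lit 184419356099) (.two (nat_lit 8388609) (nat_lit 2353011352) (.one (nat_lit 174755685420) .nil))))),
   .two (nat_lit 2969567299) (nat_lit 174686470281) (.two (nat_lit 157036838927) (nat_lit 166144770411) (.two (nat_lit 157036838920) (nat_lit 1962935661) (.two (nat_lit 69206021) (nat_lit 28101842235) (.one (nat_lit 16787747) .nil)))),
   .two (nat_lit 2316304494) (nat_lit 37249613940) (.two (nat_lit 19599982607) (nat_lit 28757197460) (.two (nat_lit 10939793416) (nat_lit 4196416) (.two (nat_lit 169869316) (nat_lit 4197914) (.two (nat_lit 2097153) (nat_lit 13187948077) (.one (nat_lit 10940852444) .nil))))),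
   .two (nat_lit 28086108227) (nat_lit 2350907459) (.two (nat_lit 1745879055) (nat_lit 337642114) (.two (nat_lit 1745879048) (nat_lit 1377830247) (.two (nat_lit 28086108165) (nat_lit 304090555) (.two (nat_lit 34603009) (nat_lit 2921337875) (.two (nat_lit 1048576) (nat_lit 2921340424) (.one (nat_lit 2988450802) .nil)))))),
   .two (nat_lit 2889875522) (nat_lit 605028615) (.two (nat_lit 16777231) (nat_lit 3020948809) (.two (nat_lit 16777220) (nat_lit 12147756552) (.two (nat_lit 16777217) (nat_lit 159253535356) (.one (nat_lit 28760352296) .nil)))),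
   .two (nat_lit 4601151554) (nat_lit 11584667770) (.two (nat_lit 1913651224) (nat_lit 306184798) (.two (nat_lit 1175453704) (nat_lit 3024094567) (.two (nat_lit 9765388293) (nat_lit 9902755308) (.two (nat_lit 8388609) (nat_lit 156566034268) (.two (nat_lit 8388608) (nat_lit 1056447) (.one (nat_lit 1059108) .nil)))))),
   .two (nat_lit 1310720111) (nat_lit 13191086200) (.two (nat_lit 46980399119) (nat_lit 1310720866) (.two (nat_lit 1277165572) (nat_lit 11546921478) (.two (nat_lit 9766436865) (nat_lit 156367852856) (.one (nat_lit 10504643817) .nil)))),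
   .two (nat_lit 218103873) (nat_lit 2988441714) (.two (nat_lit 2954887183) (nat_lit 1291846950) (.two (nat_lit 2902458372) (nat_lit 156533525991) (.two (nat_lit 2097153) (nat_lit 2432703115) (.one (nat_lit 2107685) .nil)))),
   .two (nat_lit 12114198595) (nat_lit 166232850564) (.two (nat_lit 1178599439) (nat_lit 46473938301) (.two (nat_lit 183845781508) (nat_lit 606080534) (.two (nat_lit 34603009) (nat_lit 606083006) (.two (nat_lit 1048576) (nat_lit 2105924) (.one (nat_lit 1058347) .nil))))),
   .two (nat_lit 10385096948) (nat_lit 2416967801) (.two (nat_lit 11559501839) (nat_lit 46473937256) (.two (nat_lit 11559501832) (nat_lit 839910742) (.two (nat_lit 11543773189) (nat_lit 620758558) (.two (nat_lit 8388609) (nat_lit 3524270708) (.one (nat_lit 1058348) .nil))))),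
   .two (nat_lit 1178599491) (nat_lit 2987393151) (.two (nat_lit 9768534031) (nat_lit 11510219407) (.two (nat_lit 612368392) (nat_lit 28086109506) (.two (nat_lit 705691652) (nat_lit 1954548234) (.two (nat_lit 4194305) (nat_lit 10906242963) (.two (nat_lit 1048576) (nat_lit 12050242206) (.one (nat_lit 1058349) .nil)))))),
   .two (nat_lit 236978243) (nat_lit 185023332483) (.two (nat_lit 9940500495) (nat_lit 673186150) (.two (nat_lit 176160776) (nat_lit 2954889748) (.two (nat_lit 8388609) (nat_lit 37247520657) (.two (nat_lit 2097152) (nat_lit 19100869658) .nil)))),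
   .two (nat_lit 50331715) (nat_lit 184989778047) (.two (nat_lit 4601151503) (nat_lit 117440870) (.two (nat_lit 272629768) (nat_lit 9982447110) (.two (nat_lit 4194305) (nat_lit 13237229420) (.two (nat_lit 16777216) (nat_lit 183916042957) (.one (nat_lit 4204079) .nil))))),
   .two (nat_lit 11618222190) (nat_lit 12047089780) (.two (nat_lit 184986632207) (nat_lit 47588575296) (.two (nat_lit 705691652) (nat_lit 8392219) (.two (nat_lit 34603009) (nat_lit 3560970088) (.two (nat_lit 4194304) (nat_lit 20737696851) .nil)))),
   .two (nat_lit 20638072898) (nat_lit 3457155205) (.two (nat_lit 20638072847) (nat_lit 9866052215) (.two (nat_lit 28690087944) (nat_lit 1780483460) (.two (nat_lit 1913651205) (nat_lit 1746932799) (.two (nat_lit 2097152) (nat_lit 1055397) (.one (nat_lit 2107686) .nil))))),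
   .two (nat_lit 11559501888) (nat_lit 705692009) (.two (nat_lit 1358954504) (nat_lit 156465367071) (.two (nat_lit 721420292) (nat_lit 12147756478) (.two (nat_lit 620756993) (nat_lit 1054668) (.two (nat_lit 1048576) (nat_lit 2902466022) (.one (nat_lit 1058352) .nil))))),
   .two (nat_lit 713031747) (nat_lit 159250382967) (.two (nat_lit 639631375) (nat_lit 159250383505) (.two (nat_lit 1780482056) (nat_lit 156465366311) (.two (nat_lit 713031685) (nat_lit 1309674940) (.two (nat_lit 606076929) (nat_lit 4598010887) (.two (nat_lit 2097152) (nat_lit 174759878212) (.one (nat_lit 8399143) .nil)))))),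
   .two (nat_lit 12617515073) (nat_lit 183962173562) (.two (nat_lit 1358954511) (nat_lit 12617515614) (.two (nat_lit 68157448) (nat_lit 822087138) (.two (nat_lit 4194305) (nat_lit 10436482062) (.two (nat_lit 4194304) (nat_lit 1056449) (.one (nat_lit 1059112) .nil))))),
   .two (nat_lit 16777280) (nat_lit 739246194) (.two (nat_lit 620757007) (nat_lit 10906240325) (.two (nat_lit 184549380) (nat_lit 3558870466) (.two (nat_lit 9765388289) (nat_lit 352329282) (.one (nat_lit 1059114) .nil)))),
   .two (nat_lit 2969567299) (nat_lit 142606457) (.two (nat_lit 16777231) (nat_lit 176162135) (.two (nat_lit 18926796805) (nat_lit 13195283959) (.two (nat_lit 2097153) (nat_lit 8395860) (.two (nat_lit 2097152) (nat_lit 8397382) (.one (nat_lit 2107691) .nil))))),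
   .two (nat_lit 679477315) (nat_lit 203424404) (.two (nat_lit 75497480) (nat_lit 16780188) (.two (nat_lit 169869316) (nat_lit 158150429200) (.two (nat_lit 2097153) (nat_lit 8394701) (.two (nat_lit 8388608) (nat_lit 16785991) (.one (nat_lit 21223188374) .nil))))),
   .two (nat_lit 8388722) (nat_lit 285212788) (.two (nat_lit 41943055) (nat_lit 10335814260) (.two (nat_lit 41943048) (nat_lit 13187941711) (.two (nat_lit 713031685) (nat_lit 174752533034) (.two (nat_lit 8388609) (nat_lit 235933575) (.two (nat_lit 1048576) (nat_lit 645930639) (.one (nat_lit 1058354) .nil)))))),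
   .two (nat_lit 4605345858) (nat_lit 10015998062) (.two (nat_lit 16777231) (nat_lit 13195280579) (.two (nat_lit 184549384) (nat_lit 2357200186) (.two (nat_lit 184549380) (nat_lit 310382103) (.two (nat_lit 50331649) (nat_lit 158083323837) (.two (nat_lit 4194304) (nat_lit 166203497037) (.one (nat_lit 8399148) .nil)))))),
   .two (nat_lit 306184258) (nat_lit 102760585) (.two (nat_lit 612368399) (nat_lit 47548728163) (.two (nat_lit 46414168069) (nat_lit 10907290139) (.two (nat_lit 2097153) (nat_lit 4200398) (.two (nat_lit 2097152) (nat_lit 8397384) (.one (nat_lit 2107693) .nil))))),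
   .two (nat_lit 8388672) (nat_lit 174701150331) (.two (nat_lit 8388623) (nat_lit 166132187823) (.two (nat_lit 41943048) (nat_lit 37750085) (.two (nat_lit 50331653) (nat_lit 9940503990) (.two (nat_lit 50331649) (nat_lit 339743773) (.two (nat_lit 4194304) (nat_lit 16785993) (.one (nat_lit 4203994) .nil)))))),
   .two (nat_lit 183912890435) (nat_lit 35651711) (.two (nat_lit 1745879055) (nat_lit 12115248451) (.two (nat_lit 12114198533) (nat_lit 102763022) (.two (nat_lit 34603009) (nat_lit 1948260992) (.one (nat_lit 1059397) .nil)))),
   .two (nat_lit 1191182403) (nat_lit 18933088381) (.two (nat_lit 184993972239) (nat_lit 21793603945) (.two (nat_lit 75497480) (nat_lit 9781117794) (.two (nat_lit 713031684) (nat_lit 16780828) (.two (nat_lit 16777217) (nat_lit 813698962) (.two (nat_lit 16777216) (nat_lit 10007618922) .nil))))),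
   .two (nat_lit 306184257) (nat_lit 11618222196) (.two (nat_lit 4601151503) (nat_lit 2994735654) (.two (nat_lit 8388609) (nat_lit 3024099989) (.one (nat_lit 46980408736) .nil))),
   .two (nat_lit 1358954607) (nat_lit 156976021622) (.two (nat_lit 41943055) (nat_lit 2902458981) (.two (nat_lit 620757000) (nat_lit 13195281250) (.two (nat_lit 184549380) (nat_lit 46481279502) (.two (nat_lit 16777217) (nat_lit 1786778594) (.two (nat_lit 1048576) (nat_lit 1350575046) .nil))))),
   .two (nat_lit 47596961859) (nat_lit 136315012) (.two (nat_lit 10336862223) (nat_lit 159266111846) (.two (nat_lit 10336862216) (nat_lit 16779329) (.two (nat_lit 34603013) (nat_lit 166144772643) (.two (nat_lit 605028353) (nat_lit 19142808585) (.two (nat_lit 2097152) (nat_lit 822090416) (.one (nat_lit 16787758) .nil)))))),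
   .two (nat_lit 166230753391) (nat_lit 16777484) (.two (nat_lit 1277165583) (nat_lit 11492394526) (.two (nat_lit 16777217) (nat_lit 3458208766) (.two (nat_lit 1048576) (nat_lit 10552878599) .nil))),
   .two (nat_lit 50331763) (nat_lit 4194573) (.two (nat_lit 11492392975) (nat_lit 184419353443) (.two (nat_lit 171966469) (nat_lit 4647292833) (.two (nat_lit 1048576) (nat_lit 171976142) .nil))),
   .two (nat_lit 184993972289) (nat_lit 306184327) (.two (nat_lit 13195280399) (nat_lit 4634708525) (.two (nat_lit 8388609) (nat_lit 19599989438) (.one (nat_lit 46481286219) .nil))),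
   .two (nat_lit 10007609461) (nat_lit 37329305723) (.two (nat_lit 822083608) (nat_lit 158083318117) (.two (nat_lit 50331656) (nat_lit 46514833924) (.two (nat_lit 16777217) (nat_lit 19033756646) (.two (nat_lit 2097152) (nat_lit 28798100956) .nil)))),
   .two (nat_lit 46510637121) (nat_lit 158662132369) (.two (nat_lit 721420296) (nat_lit 1312818477) (.two (nat_lit 2889875460) (nat_lit 16781706) (.two (nat_lit 50331649) (nat_lit 10439627813) (.two (nat_lit 8388608) (nat_lit 2432705941) .nil)))),
   .two (nat_lit 19130220656) (nat_lit 11517559021) (.two (nat_lit 1178599439) (nat_lit 19033752173) (.two (nat_lit 276824072) (nat_lit 876611636) (.two (nat_lit 11546918917) (nat_lit 880806401) (.two (nat_lit 37748737) (nat_lit 880807812) (.two (nat_lit 1048576) (nat_lit 2956993624) .nil))))),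
   .two (nat_lit 2889875523) (nat_lit 183853121602) (.two (nat_lit 272629775) (nat_lit 13195280579) (.two (nat_lit 272629768) (nat_lit 13195281949) (.two (nat_lit 4194305) (nat_lit 166237048718) (.two (nat_lit 4194304) (nat_lit 47555028330) .nil)))),
   .two (nat_lit 203423811) (nat_lit 21781020799) (.two (nat_lit 2954887183) (nat_lit 28089254531) (.two (nat_lit 2954887176) (nat_lit 47550827022) (.two (nat_lit 2097153) (nat_lit 46473941977) (.two (nat_lit 1048576) (nat_lit 28793903796) (.one (nat_lit 4204086) .nil))))),
   .two (nat_lit 19130220789) (nat_lit 2927624327) (.two (nat_lit 13195280399) (nat_lit 19130221152) (.two (nat_lit 46409973768) (nat_lit 158183985048) (.two (nat_lit 4194304) (nat_lit 21818776186) (.one (nat_lit 8399151) .nil)))),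
   .two (nat_lit 28757196867) (nat_lit 9982443639) (.two (nat_lit 117440527) (nat_lit 19596837554) (.two (nat_lit 11492392968) (nat_lit 12617517085) (.two (nat_lit 174752530437) (nat_lit 16780830) (.two (nat_lit 50331649) (nat_lit 158075984457) (.one (nat_lit 183845790754) .nil))))),
   .two (nat_lit 1310720065) (nat_lit 174685421817) (.two (nat_lit 174752530447) (nat_lit 183947494758) (.two (nat_lit 1344274437) (nat_lit 158075981335) (.two (nat_lit 9766436865) (nat_lit 12150902685) (.two (nat_lit 1048576) (nat_lit 4203083) (.one (nat_lit 4204848) .nil))))),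
   .two (nat_lit 8388674) (nat_lit 183848927299) (.two (nat_lit 8388623) (nat_lit 28760342887) (.two (nat_lit 8388616) (nat_lit 10942940473) (.two (nat_lit 8388612) (nat_lit 4197919) (.two (nat_lit 4194305) (nat_lit 847254527) (.two (nat_lit 8388608) (nat_lit 135274175) (.one (nat_lit 174688577713) .nil)))))),
   .two (nat_lit 721420400) (nat_lit 9873391877) (.two (nat_lit 50331663) (nat_lit 165532402274) (.two (nat_lit 176160776) (nat_lit 1358956062) (.two (nat_lit 9765388289) (nat_lit 645929583) (.one (nat_lit 9899615355) .nil)))),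
   .two (nat_lit 809500788) (nat_lit 11559501938) (.two (nat_lit 721420303) (nat_lit 19096666784) (.two (nat_lit 721420296) (nat_lit 28089255238) (.two (nat_lit 8388613) (nat_lit 159253531139) (.two (nat_lit 8388609) (nat_lit 9936313018) (.one (nat_lit 4204087) .nil))))),
   .two (nat_lit 2889875522) (nat_lit 11510218864) (.two (nat_lit 2889875471) (nat_lit 46978302309) (.two (nat_lit 205520904) (nat_lit 183947495972) (.two (nat_lit 4194305) (nat_lit 159216832401) (.two (nat_lit 2097152) (nat_lit 13221501620) (.one (nat_lit 1059121) .nil))))),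
   .two (nat_lit 47555018816) (nat_lit 19027460711) (.two (nat_lit 3464495112) (nat_lit 156466414968) (.two (nat_lit 10504634373) (nat_lit 159224170013) (.two (nat_lit 9766436865) (nat_lit 679482680) (.one (nat_lit 28697436304) .nil)))),
   .two (nat_lit 236978242) (nat_lit 166245433460) (.two (nat_lit 654311439) (nat_lit 183947494018) (.two (nat_lit 184986632205) (nat_lit 19109250424) (.two (nat_lit 13187940357) (nat_lit 9881783791) (.two (nat_lit 34603009) (nat_lit 11022636039) (.two (nat_lit 1048576) (nat_lit 16784097) (.one (nat_lit 16787762) .nil)))))),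
   .two (nat_lit 12054429763) (nat_lit 28790751349) (.two (nat_lit 19093520424) (nat_lit 11014242666) (.two (nat_lit 1947205644) (nat_lit 8390722) (.two (nat_lit 1913651205) (nat_lit 174692764166) (.two (nat_lit 9765388289) (nat_lit 46984600159) (.one (nat_lit 2994741407) .nil))))),
   .two (nat_lit 13224640620) (nat_lit 20644364533) (.two (nat_lit 8388623) (nat_lit 184419353180) (.two (nat_lit 8388616) (nat_lit 183949591844) (.two (nat_lit 8388612) (nat_lit 156569177988) (.two (nat_lit 8388608) (nat_lit 1212160704) (.one (nat_lit 157043139893) .nil))))),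
   .two (nat_lit 285212736) (nat_lit 306184259) (.two (nat_lit 2902458383) (nat_lit 742392170) (.two (nat_lit 1191182344) (nat_lit 47584380987) (.two (nat_lit 4601151493) (nat_lit 28772928015) (.two (nat_lit 4194305) (nat_lit 16782312) (.two (nat_lit 4194304) (nat_lit 705701014) .nil))))),
   .two (nat_lit 203423811) (nat_lit 4647289092) (.two (nat_lit 11479810063) (nat_lit 174753580374) (.two (nat_lit 9781116933) (nat_lit 47582284317) (.two (nat_lit 2097153) (nat_lit 46510643139) (.two (nat_lit 4194304) (nat_lit 8397388) (.one (nat_lit 2107699) .nil))))),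
   .two (nat_lit 3527409729) (nat_lit 1847590977) (.two (nat_lit 3527409679) (nat_lit 158077027676) (.two (nat_lit 2887778308) (nat_lit 157038941257) (.two (nat_lit 2097152) (nat_lit 4202179) (.one (nat_lit 4204852) .nil)))),
   .two (nat_lit 880803907) (nat_lit 2097669) (.two (nat_lit 21785214991) (nat_lit 10940842650) (.two (nat_lit 159217877000) (nat_lit 1417675618) (.two (nat_lit 47548727301) (nat_lit 166136384003) (.two (nat_lit 50331649) (nat_lit 3531609047) (.two (nat_lit 2097152) (nat_lit 8397391) (.one (nat_lit 8399157) .nil)))))),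
   .two (nat_lit 47548727360) (nat_lit 184993972339) (.two (nat_lit 46407876631) (nat_lit 310379579) (.two (nat_lit 28093448205) (nat_lit 12618564913) (.two (nat_lit 13195280389) (nat_lit 28691141619) (.two (nat_lit 8388608) (nat_lit 156533527871) (.one (nat_lit 3458213862) .nil))))),
   .two (nat_lit 3458203714) (nat_lit 174688567412) (.two (nat_lit 46407876623) (nat_lit 608174711) (.two (nat_lit 2988441613) (nat_lit 269485401) (.two (nat_lit 47548727301) (nat_lit 37752308) (.two (nat_lit 34603009) (nat_lit 3560969283) (.two (nat_lit 2097152) (nat_lit 10439629416) (.one (nat_lit 1059126) .nil)))))),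
   .two (nat_lit 612368451) (nat_lit 855638650) (.two (nat_lit 654311437) (nat_lit 1920992644) (.two (nat_lit 1358954501) (nat_lit 8393100) (.two (nat_lit 620756993) (nat_lit 1920998950) (.one (nat_lit 8398392) .nil)))),
   .two (nat_lit 20738736236) (nat_lit 1312817276) (.two (nat_lit 1343225871) (nat_lit 1847592308) (.two (nat_lit 270532613) (nat_lit 156569176575) (.two (nat_lit 34603009) (nat_lit 2102350) (.two (nat_lit 1048576) (nat_lit 2105936) (.one (nat_lit 4204855) .nil))))),
   .two (nat_lit 310378612) (nat_lit 12620660871) (.two (nat_lit 1178599439) (nat_lit 159224169851) (.two (nat_lit 9768534021) (nat_lit 47588575759) (.two (nat_lit 37748737) (nat_lit 142613160) (.one (nat_lit 8399160) .nil)))),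
   .two (nat_lit 276824130) (nat_lit 20753416324) (.two (nat_lit 8388623) (nat_lit 9934210088) (.two (nat_lit 83886088) (nat_lit 183913941521) (.two (nat_lit 8388609) (nat_lit 1055829) (.two (nat_lit 1048576) (nat_lit 8397393) (.one (nat_lit 1059129) .nil))))),
   .two (nat_lit 1191182575) (nat_lit 3028287608) (.two (nat_lit 1350565903) (nat_lit 117440870) (.two (nat_lit 641728520) (nat_lit 16779331) (.two (nat_lit 2889875460) (nat_lit 16780832) (.two (nat_lit 41943041) (nat_lit 318771079) (.two (nat_lit 8388608) (nat_lit 16786002) (.one (nat_lit 8399162) .nil)))))),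
   .two (nat_lit 184986632256) (nat_lit 2894069896) (.two (nat_lit 158075977743) (nat_lit 165532402321) (.two (nat_lit 28691136520) (nat_lit 135268863) (.two (nat_lit 41943041) (nat_lit 12047094787) (.two (nat_lit 8388608) (nat_lit 10437533297) (.one (nat_lit 2107707) .nil))))),
   .two (nat_lit 11559501889) (nat_lit 159224168563) (.two (nat_lit 11559501839) (nat_lit 109052264) (.two (nat_lit 11559501832) (nat_lit 183920232967) (.two (nat_lit 16777217) (nat_lit 2927629279) (.two (nat_lit 8388608) (nat_lit 21827165832) (.one (nat_lit 16787773) .nil))))),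
   .two (nat_lit 203423858) (nat_lit 754974834) (.two (nat_lit 101711887) (nat_lit 807404870) (.two (nat_lit 822083589) (nat_lit 9967768631) (.two (nat_lit 1048576) (nat_lit 3458210427) (.one (nat_lit 2106938) .nil)))),
   .two (nat_lit 285212737) (nat_lit 37247516791) (.two (nat_lit 169869336) (nat_lit 16777411) (.two (nat_lit 2954887176) (nat_lit 37329306929) (.two (nat_lit 203423749) (nat_lit 20719864335) (.two (nat_lit 606076929) (nat_lit 184557133) (.one (nat_lit 12618572830) .nil))))),
   .two (nat_lit 46409973827) (nat_lit 3028287613) (.two (nat_lit 28093448207) (nat_lit 840959357) (.two (nat_lit 158150426629) (nat_lit 9867103706) (.two (nat_lit 612368385) (nat_lit 1344280405) (.two (nat_lit 2097152) (nat_lit 4203092) (.one (nat_lit 8398774) .nil))))),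
   .two (nat_lit 2902458435) (nat_lit 142606471) (.two (nat_lit 4613734415) (nat_lit 165532402021) (.two (nat_lit 18925748232) (nat_lit 183953786230) (.two (nat_lit 21785214981) (nat_lit 174768262623) (.two (nat_lit 34603009) (nat_lit 2961182599) (.two (nat_lit 1048576) (nat_lit 8395491) (.one (nat_lit 8399166) .nil)))))),
   .two (nat_lit 11559501888) (nat_lit 3558867057) (.two (nat_lit 2954887183) (nat_lit 165540791601) (.two (nat_lit 169869316) (nat_lit 16780833) (.two (nat_lit 606076929) (nat_lit 159232562217) (.two (nat_lit 2097152) (nat_lit 16786005) (.one (nat_lit 185002370139) .nil))))),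
   .two (nat_lit 780140611) (nat_lit 28757196922) (.two (nat_lit 11543773199) (nat_lit 46474986843) (.two (nat_lit 34603013) (nat_lit 156976026595) (.two (nat_lit 1048576) (nat_lit 10504641139) (.one (nat_lit 2107711) .nil)))),
   .two (nat_lit 721420353) (nat_lit 2418016387) (.two (nat_lit 721420303) (nat_lit 673186487) (.two (nat_lit 813694984) (nat_lit 183848928099) (.two (nat_lit 8388612) (nat_lit 46510639637) (.two (nat_lit 8388609) (nat_lit 2103249) (.two (nat_lit 4194304) (nat_lit 8396484) (.one (nat_lit 4204864) .nil)))))),
   .two (nat_lit 47555018816) (nat_lit 21208498291) (.two (nat_lit 47555018767) (nat_lit 4028630064) (.two (nat_lit 9967763468) (nat_lit 10343155229) (.two (nat_lit 606076929) (nat_lit 880809279) (.one (nat_lit 18926806126) .nil)))),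
   .two (nat_lit 4605345856) (nat_lit 156971827813) (.two (nat_lit 809500680) (nat_lit 156372043293) (.two (nat_lit 8388609) (nat_lit 239083204) (.one (nat_lit 8399169) .nil))),
   .two (nat_lit 4634705986) (nat_lit 2953838719) (.two (nat_lit 9934209039) (nat_lit 10537140881) (.two (nat_lit 1277165581) (nat_lit 10906240376) (.two (nat_lit 169869316) (nat_lit 1053070) (.two (nat_lit 2097153) (nat_lit 11577332785) (.two (nat_lit 2097152) (nat_lit 4202181) (.one (nat_lit 1059138) .nil)))))),
   .two (nat_lit 1916796995) (nat_lit 46414168176) (.two (nat_lit 46414168079) (nat_lit 28693234530) (.two (nat_lit 1916796933) (nat_lit 12155095556) (.two (nat_lit 8388609) (nat_lit 10338964437) (.two (nat_lit 4194304) (nat_lit 156976029837) .nil)))),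
   .two (nat_lit 12163481666) (nat_lit 135266417) (.two (nat_lit 28086108175) (nat_lit 16777920) (.two (nat_lit 28086108168) (nat_lit 754975587) (.two (nat_lit 20637024260) (nat_lit 10921970179) (.two (nat_lit 605028353) (nat_lit 19142810336) (.one (nat_lit 16787005) .nil))))),
   .two (nat_lit 721420353) (nat_lit 12054429763) (.two (nat_lit 184993972239) (nat_lit 50332256) (.two (nat_lit 184993972232) (nat_lit 10552872432) (.two (nat_lit 41943041) (nat_lit 156548206482) (.two (nat_lit 8388608) (nat_lit 158192376509) (.one (nat_lit 16787780) .nil))))),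
   .two (nat_lit 184986632256) (nat_lit 9799991423) (.two (nat_lit 184549391) (nat_lit 156532475219) (.two (nat_lit 184549380) (nat_lit 1343229401) (.two (nat_lit 620756993) (nat_lit 1343231035) (.two (nat_lit 16777216) (nat_lit 2105031) (.one (nat_lit 16787006) .nil))))),
   .two (nat_lit 218103873) (nat_lit 21208498291) (.two (nat_lit 20638072847) (nat_lit 2432696680) (.two (nat_lit 20638072840) (nat_lit 11593057619) (.two (nat_lit 9934209029) (nat_lit 46992984611) (.two (nat_lit 606076929) (nat_lit 156984415298) (.two (nat_lit 2097152) (nat_lit 16786006) (.one (nat_lit 2106777) .nil)))))),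
   .two (nat_lit 285212736) (nat_lit 306184305) (.two (nat_lit 46409973775) (nat_lit 156581757123) (.two (nat_lit 4634705932) (nat_lit 318768456) (.two (nat_lit 3527409669) (nat_lit 2936016393) (.two (nat_lit 156367847425) (nat_lit 28772930601) (.two (nat_lit 8388608) (nat_lit 1950359168) (.one (nat_lit 4204095) .nil)))))),
   .two (nat_lit 4605345857) (nat_lit 3558867079) (.two (nat_lit 11479810063) (nat_lit 2357199482) (.two (nat_lit 606076936) (nat_lit 1317014046) (.two (nat_lit 8388609) (nat_lit 19094574116) (.two (nat_lit 4194304) (nat_lit 2106592) .nil)))),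
   .two (nat_lit 1178599491) (nat_lit 1283457287) (.two (nat_lit 654311439) (nat_lit 9768534882) (.two (nat_lit 2902458372) (nat_lit 21210597909) (.two (nat_lit 16777217) (nat_lit 775950225) (.two (nat_lit 16777216) (nat_lit 18928903289) .nil)))),
   .two (nat_lit 158176641089) (nat_lit 12054429763) (.two (nat_lit 9866051599) (nat_lit 9940501183) (.two (nat_lit 9866051592) (nat_lit 184993973090) (.two (nat_lit 21777874949) (nat_lit 1216352161) (.two (nat_lit 1048576) (nat_lit 174692768348) (.one (nat_lit 1057926) .nil))))),
   .two (nat_lit 218103919) (nat_lit 156372041852) (.two (nat_lit 612368399) (nat_lit 10385097316) (.two (nat_lit 612368392) (nat_lit 166144771432) (.two (nat_lit 16777220) (nat_lit 46414173503) (.one (nat_lit 9814680742) .nil)))),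
   .two (nat_lit 135266420) (nat_lit 166132187393) (.two (nat_lit 822083599) (nat_lit 306184799) (.two (nat_lit 46980399112) (nat_lit 3003123764) (.two (nat_lit 171966469) (nat_lit 16780834) (.two (nat_lit 16777217) (nat_lit 4201558) (.two (nat_lit 1048576) (nat_lit 46523228727) (.one (nat_lit 4204869) .nil)))))),
   .two (nat_lit 166132187249) (nat_lit 20737687680) (.two (nat_lit 1745879064) (nat_lit 156569174882) (.two (nat_lit 156364701701) (nat_lit 37316726676) (.two (nat_lit 16777216) (nat_lit 3560970866) (.one (nat_lit 4204870) .nil)))),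
   .two (nat_lit 3558867052) (nat_lit 166132187249) (.two (nat_lit 10506731535) (nat_lit 159251432737) (.two (nat_lit 3525312517) (nat_lit 12050240506) (.two (nat_lit 2097152) (nat_lit 174688574076) (.one (nat_lit 47548736864) .nil)))),
   .two (nat_lit 3464495171) (nat_lit 1325400200) (.two (nat_lit 1745879064) (nat_lit 3531605378) (.two (nat_lit 75497477) (nat_lit 12633247198) (.two (nat_lit 8388609) (nat_lit 11626615806) (.two (nat_lit 1048576) (nat_lit 16785096) (.one (nat_lit 8399175) .nil))))),
   .two (nat_lit 18933088364) (nat_lit 306184327) (.two (nat_lit 620757007) (nat_lit 156372042340) (.two (nat_lit 620757000) (nat_lit 19604178266) (.two (nat_lit 713031684) (nat_lit 2969568798) (.two (nat_lit 4194305) (nat_lit 156539819086) (.two (nat_lit 8388608) (nat_lit 159219981831) (.one (nat_lit 8397960) .nil)))))),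
   .two (nat_lit 11492393025) (nat_lit 75497582) (.two (nat_lit 713031695) (nat_lit 28806480235) (.two (nat_lit 158158815240) (nat_lit 10544481668) (.two (nat_lit 1916796933) (nat_lit 11517560350) (.two (nat_lit 9768534017) (nat_lit 47555023887) (.two (nat_lit 4194304) (nat_lit 2432705725) .nil))))),
   .two (nat_lit 184549486) (nat_lit 156365750405) (.two (nat_lit 2969567247) (nat_lit 47582283048) (.two (nat_lit 184549380) (nat_lit 21208501735) (.two (nat_lit 2097153) (nat_lit 28705820552) (.two (nat_lit 2097152) (nat_lit 16784100) (.one (nat_lit 156969740910) .nil))))),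
   .two (nat_lit 9802088563) (nat_lit 9766436986) (.two (nat_lit 157036838927) (nat_lit 1849688747) (.two (nat_lit 157036838920) (nat_lit 158179788077) (.two (nat_lit 156367847429) (nat_lit 1377832379) (.two (nat_lit 2097153) (nat_lit 272636489) (.one (nat_lit 9967772658) .nil))))),
   .two (nat_lit 159224168556) (nat_lit 873463923) (.two (nat_lit 1350565903) (nat_lit 3020948074) (.two (nat_lit 9768534024) (nat_lit 235930937) (.two (nat_lit 46407876612) (nat_lit 1052195) (.two (nat_lit 4194305) (nat_lit 1054674) (.two (nat_lit 4194304) (nat_lit 1057368) (.one (nat_lit 4204873) .nil)))))),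
   .two (nat_lit 46978302019) (nat_lit 9974055022) (.two (nat_lit 47555018767) (nat_lit 11611930984) (.two (nat_lit 9940500488) (nat_lit 20738738205) (.two (nat_lit 159224168453) (nat_lit 20705185197) (.two (nat_lit 612368385) (nat_lit 37247521819) (.two (nat_lit 4194304) (nat_lit 10437533216) (.one (nat_lit 10001327106) .nil)))))),
   .two (nat_lit 3458203714) (nat_lit 166132187202) (.two (nat_lit 13203669007) (nat_lit 19532874594) (.two (nat_lit 47548727301) (nat_lit 46510642236) (.two (nat_lit 2097152) (nat_lit 158192379188) .nil))),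
   .two (nat_lit 843055171) (nat_lit 705691773) (.two (nat_lit 8388623) (nat_lit 4601151683) (.two (nat_lit 8388616) (nat_lit 28693235045) (.two (nat_lit 8388612) (nat_lit 183848929821) (.two (nat_lit 8388609) (nat_lit 4199503) (.two (nat_lit 1048576) (nat_lit 4203097) (.one (nat_lit 4204874) .nil)))))),
   .two (nat_lit 11559501890) (nat_lit 20704133365) (.two (nat_lit 174752530447) (nat_lit 10519315806) (.two (nat_lit 12047089669) (nat_lit 1291848192) (.two (nat_lit 34603009) (nat_lit 19042144136) (.two (nat_lit 1048576) (nat_lit 184431942240) (.one (nat_lit 16787787) .nil))))),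
   .two (nat_lit 4605345856) (nat_lit 46510637167) (.two (nat_lit 46510637080) (nat_lit 13195280579) (.two (nat_lit 3527409672) (nat_lit 13195281949) (.two (nat_lit 4194305) (nat_lit 21214795069) (.one (nat_lit 8399180) .nil)))),
   .two (nat_lit 203423810) (nat_lit 1317011522) (.two (nat_lit 2887778319) (nat_lit 47555019110) (.two (nat_lit 2887778312) (nat_lit 37253809466) (.two (nat_lit 270532613) (nat_lit 184993974806) (.two (nat_lit 2097153) (nat_lit 645927966) (.two (nat_lit 1048576) (nat_lit 807410360) (.one (nat_lit 1059149) .nil)))))),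
   .two (nat_lit 46409973827) (nat_lit 251658359) (.two (nat_lit 9781116943) (nat_lit 28793897320) (.two (nat_lit 4194312) (nat_lit 620759571) (.two (nat_lit 4194305) (nat_lit 2988449461) (.one (nat_lit 1058372) .nil)))),
   .two (nat_lit 285212780) (nat_lit 21785215085) (.two (nat_lit 21785214991) (nat_lit 2902459684) (.two (nat_lit 16777220) (nat_lit 19604179502) (.two (nat_lit 41943041) (nat_lit 50338496) (.one (nat_lit 8398405) .nil)))),
   .two (nat_lit 158646403139) (nat_lit 205521021) (.two (nat_lit 205520911) (nat_lit 158077026955) (.two (nat_lit 1178599432) (nat_lit 11511268674) (.two (nat_lit 11479810052) (nat_lit 2954892311) (.two (nat_lit 1048576) (nat_lit 2105947) (.one (nat_lit 4204878) .nil))))),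
   .two (nat_lit 4605345857) (nat_lit 2923430002) (.two (nat_lit 156367847439) (nat_lit 46414169378) (.two (nat_lit 18928893957) (nat_lit 780144110) (.two (nat_lit 9766436865) (nat_lit 2424315377) (.one (nat_lit 47584388306) .nil)))),
   .two (nat_lit 20738736193) (nat_lit 4598005886) (.two (nat_lit 10370416655) (nat_lit 3557818728) (.two (nat_lit 28758245384) (nat_lit 166129042745) (.two (nat_lit 10504634373) (nat_lit 157035793934) (.two (nat_lit 605028353) (nat_lit 2104408) (.two (nat_lit 1048576) (nat_lit 2105035) (.one (nat_lit 1059151) .nil)))))),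
   .two (nat_lit 46489665601) (nat_lit 184419352643) (.two (nat_lit 3539992591) (nat_lit 9969861941) (.two (nat_lit 11479810052) (nat_lit 158653746681) (.two (nat_lit 16777217) (nat_lit 276828051) (.two (nat_lit 1048576) (nat_lit 10372521631) (.one (nat_lit 20740842564) .nil))))),
   .two (nat_lit 10544480499) (nat_lit 236978311) (.two (nat_lit 2961178639) (nat_lit 158079124126) (.two (nat_lit 47555018760) (nat_lit 184987682874) (.two (nat_lit 13187940357) (nat_lit 11014245918) (.two (nat_lit 2097153) (nat_lit 156573373467) (.two (nat_lit 2097152) (nat_lit 8396492) (.one (nat_lit 8399184) .nil)))))),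
   .two (nat_lit 16777282) (nat_lit 47555018818) (.two (nat_lit 159224168463) (nat_lit 50332515) (.two (nat_lit 176160772) (nat_lit 21223180806) (.two (nat_lit 612368385) (nat_lit 2432700310) (.two (nat_lit 8388608) (nat_lit 16785101) (.one (nat_lit 16787793) .nil))))),
   .two (nat_lit 10336862275) (nat_lit 19532873795) (.two (nat_lit 165526110223) (nat_lit 11614028418) (.two (nat_lit 46980399112) (nat_lit 2099269) (.two (nat_lit 159217876997) (nat_lit 28693237182) (.two (nat_lit 4194305) (nat_lit 10940847167) (.two (nat_lit 2097152) (nat_lit 28089263369) .nil))))),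
   .two (nat_lit 754974785) (nat_lit 4634706035) (.two (nat_lit 754974735) (nat_lit 3560965496) (.two (nat_lit 721420293) (nat_lit 11479815166) (.two (nat_lit 16777216) (nat_lit 809510266) .nil))),
   .two (nat_lit 3558867009) (nat_lit 3531604231) (.two (nat_lit 20644364303) (nat_lit 3558867811) (.two (nat_lit 47548727301) (nat_lit 11618227262) (.two (nat_lit 2097152) (nat_lit 21785222737) (.one (nat_lit 2107730) .nil)))),
   .two (nat_lit 276824129) (nat_lit 306184258) (.two (nat_lit 41943055) (nat_lit 4027580777) (.two (nat_lit 4601151496) (nat_lit 184987682105) (.two (nat_lit 11484004357) (nat_lit 336596445) (.two (nat_lit 2097153) (nat_lit 11543778353) (.two (nat_lit 4194304) (nat_lit 1057373) (.one (nat_lit 1058376) .nil)))))),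
   .two (nat_lit 47548727360) (nat_lit 10503585928) (.two (nat_lit 185002360847) (nat_lit 9899606614) (.two (nat_lit 2954887176) (nat_lit 10921970186) (.two (nat_lit 9765388289) (nat_lit 1948259324) (.two (nat_lit 1048576) (nat_lit 2104037) (.one (nat_lit 2106953) .nil))))),
   .two (nat_lit 37249613934) (nat_lit 37313577071) (.two (nat_lit 1916796943) (nat_lit 13187941417) (.two (nat_lit 184549384) (nat_lit 1950352730) (.two (nat_lit 9768534021) (nat_lit 13237226933) (.two (nat_lit 34603009) (nat_lit 654316621) (.two (nat_lit 1048576) (nat_lit 16785103) (.one (nat_lit 19529738423) .nil)))))),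
   .two (nat_lit 19130220655) (nat_lit 11517558919) (.two (nat_lit 4605345807) (nat_lit 13224641120) (.two (nat_lit 4605345800) (nat_lit 4196422) (.two (nat_lit 13191086085) (nat_lit 2894073353) (.two (nat_lit 37748737) (nat_lit 8394707) (.two (nat_lit 4194304) (nat_lit 8396496) (.one (nat_lit 8399187) .nil)))))),
   .two (nat_lit 19093520501) (nat_lit 1950351598) (.two (nat_lit 4605345807) (nat_lit 306184858) (.two (nat_lit 3460300808) (nat_lit 46414170643) (.two (nat_lit 605028353) (nat_lit 4201561) (.two (nat_lit 2097152) (nat_lit 34612608) .nil)))),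
   .two (nat_lit 10007609452) (nat_lit 20640170108) (.two (nat_lit 612368399) (nat_lit 37749395) (.two (nat_lit 1343225864) (nat_lit 12054431042) (.two (nat_lit 9765388293) (nat_lit 13224643071) (.two (nat_lit 8388609) (nat_lit 272634883) (.two (nat_lit 8388608) (nat_lit 806362630) (.one (nat_lit 1058381) .nil)))))),
   .two (nat_lit 13224640627) (nat_lit 19093520513) (.two (nat_lit 9906946072) (nat_lit 2316305456) (.two (nat_lit 46984593416) (nat_lit 4634709487) (.two (nat_lit 34603009) (nat_lit 1178606288) (.one (nat_lit 1059156) .nil)))),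
   .two (nat_lit 46414168174) (nat_lit 12047089774) (.two (nat_lit 18933088271) (nat_lit 1846542996) (.two (nat_lit 184423546888) (nat_lit 135267620) (.two (nat_lit 46978301957) (nat_lit 1053072) (.two (nat_lit 9766436865) (nat_lit 780145685) (.two (nat_lit 2097152) (nat_lit 8397409) (.one (nat_lit 2107733) .nil)))))),
   .two (nat_lit 4605345858) (nat_lit 10351542396) (.two (nat_lit 8388623) (nat_lit 822084898) (.two (nat_lit 16777221) (nat_lit 10007612932) (.two (nat_lit 8388609) (nat_lit 174768264147) (.two (nat_lit 4194304) (nat_lit 8398238) .nil)))),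
   .two (nat_lit 12054429761) (nat_lit 1761607804) (.two (nat_lit 16777231) (nat_lit 12054430302) (.two (nat_lit 16777224) (nat_lit 183920231783) (.two (nat_lit 8388612) (nat_lit 754978274) (.two (nat_lit 8388609) (nat_lit 19142809488) (.two (nat_lit 4194304) (nat_lit 1182801601) (.one (nat_lit 8399190) .nil)))))),
   .two (nat_lit 11618222192) (nat_lit 3524264062) (.two (nat_lit 184993972239) (nat_lit 9765388972) (.two (nat_lit 184993972232) (nat_lit 166229706092) (.two (nat_lit 1753219077) (nat_lit 174752535608) (.two (nat_lit 1048576) (nat_lit 1317019284) (.one (nat_lit 10537150015) .nil))))),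
   .two (nat_lit 4601151554) (nat_lit 46481277585) (.two (nat_lit 679477261) (nat_lit 13224641378) (.two (nat_lit 159224168453) (nat_lit 28760345092) (.two (nat_lit 9781116929) (nat_lit 9768539448) (.one (nat_lit 4202672) .nil)))),
   .two (nat_lit 272629824) (nat_lit 3003121798) (.two (nat_lit 75497487) (nat_lit 1224737460) (.two (nat_lit 721420296) (nat_lit 2323647003) (.two (nat_lit 41943041) (nat_lit 4199504) (.two (nat_lit 8388608) (nat_lit 4203106) (.one (nat_lit 8399191) .nil))))),
   .two (nat_lit 4605345906) (nat_lit 2353004652) (.two (nat_lit 8388623) (nat_lit 10552869548) (.two (nat_lit 8388616) (nat_lit 166144771436) (.two (nat_lit 117440517) (nat_lit 243273164) (.two (nat_lit 620756993) (nat_lit 2956989518) (.two (nat_lit 16777216) (nat_lit 2956993104) (.one (nat_lit 4613744154) .nil)))))),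
   .two (nat_lit 47582281842) (nat_lit 9802088705) (.two (nat_lit 47548727311) (nat_lit 184989778563) (.two (nat_lit 742391816) (nat_lit 202377240) (.two (nat_lit 806354949) (nat_lit 183949592094) (.two (nat_lit 2097153) (nat_lit 28760347684) (.two (nat_lit 2097152) (nat_lit 13187947137) (.one (nat_lit 2107736) .nil)))))),
   .two (nat_lit 183949590644) (nat_lit 11022631034) (.two (nat_lit 13203669007) (nat_lit 19130221160) (.two (nat_lit 16777224) (nat_lit 11511268651) (.two (nat_lit 16777220) (nat_lit 47582285335) (.two (nat_lit 16777217) (nat_lit 773854191) (.two (nat_lit 16777216) (nat_lit 2105955) (.one (nat_lit 16787801) .nil)))))),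
   .two (nat_lit 705691756) (nat_lit 19599982705) (.two (nat_lit 169869327) (nat_lit 157038936714) (.two (nat_lit 169869320) (nat_lit 708838769) (.two (nat_lit 806354949) (nat_lit 1212156415) (.two (nat_lit 9765388289) (nat_lit 35656781) (.two (nat_lit 1048576) (nat_lit 18926804486) (.one (nat_lit 2107738) .nil)))))),
   .two (nat_lit 156465365103) (nat_lit 2097422) (.two (nat_lit 28790751256) (nat_lit 1344274791) (.two (nat_lit 28757196808) (nat_lit 158144138757) (.two (nat_lit 156365750273) (nat_lit 47547683795) (.two (nat_lit 1048576) (nat_lit 2105956) (.one (nat_lit 19094578287) .nil))))),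
   .two (nat_lit 272629824) (nat_lit 1913651310) (.two (nat_lit 12114198543) (nat_lit 9768534211) (.two (nat_lit 18925748232) (nat_lit 2994735636) (.two (nat_lit 16777217) (nat_lit 775952992) (.one (nat_lit 12050244895) .nil)))),
   .two (nat_lit 135266420) (nat_lit 174768259210) (.two (nat_lit 21207449615) (nat_lit 50332260) (.two (nat_lit 21207449608) (nat_lit 16778538) (.two (nat_lit 158143086597) (nat_lit 16779825) (.two (nat_lit 605028353) (nat_lit 1224743569) (.one (nat_lit 1059163) .nil))))),
   .two (nat_lit 47555018816) (nat_lit 46978302018) (.two (nat_lit 47555018767) (nat_lit 46407876972) (.two (nat_lit 46978301960) (nat_lit 28798092592) (.two (nat_lit 3525312517) (nat_lit 158083321278) (.two (nat_lit 2097153) (nat_lit 165532409421) (.one (nat_lit 13228844100) .nil))))),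
   .two (nat_lit 20638072898) (nat_lit 1048847) (.two (nat_lit 158077026328) (nat_lit 12617515616) (.two (nat_lit 158143086600) (nat_lit 673187358) (.two (nat_lit 605028353) (nat_lit 2102353) (.two (nat_lit 1048576) (nat_lit 2105042) (.one (nat_lit 2107740) .nil))))),
   .two (nat_lit 165532401774) (nat_lit 12050235506) (.two (nat_lit 721420303) (nat_lit 10443817581) (.two (nat_lit 9940500488) (nat_lit 46489669055) (.two (nat_lit 8388609) (nat_lit 19096671194) (.two (nat_lit 8388608) (nat_lit 16786022) (.one (nat_lit 8399197) .nil))))),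
   .two (nat_lit 16777280) (nat_lit 11546919164) (.two (nat_lit 822083599) (nat_lit 11513365078) (.two (nat_lit 2889875464) (nat_lit 50333213) (.two (nat_lit 4194305) (nat_lit 1929383835) (.two (nat_lit 4194304) (nat_lit 788535988) (.one (nat_lit 4204894) .nil))))),
   .two (nat_lit 19130220655) (nat_lit 336593017) (.two (nat_lit 166132187151) (nat_lit 18926797865) (.two (nat_lit 46407876616) (nat_lit 156569175330) (.two (nat_lit 1916796933) (nat_lit 159250386458) (.two (nat_lit 156365750273) (nat_lit 1947210829) (.two (nat_lit 2097152) (nat_lit 1947214403) (.one (nat_lit 2107743) .nil)))))),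
   .two (nat_lit 203423810) (nat_lit 3003121801) (.two (nat_lit 10504634383) (nat_lit 183845782128) (.two (nat_lit 639631368) (nat_lit 2886731107) (.two (nat_lit 2969567237) (nat_lit 28087160723) (.two (nat_lit 16777216) (nat_lit 12618570351) (.one (nat_lit 2107744) .nil))))),
   .two (nat_lit 21785215043) (nat_lit 12148801655) (.two (nat_lit 158083317775) (nat_lit 184987681410) (.two (nat_lit 158083317768) (nat_lit 20719865317) (.two (nat_lit 2097153) (nat_lit 9948895179) (.two (nat_lit 2097152) (nat_lit 16785107) (.one (nat_lit 2107745) .nil))))),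
   .two (nat_lit 117440579) (nat_lit 9899606129) (.two (nat_lit 4194319) (nat_lit 9881781090) (.two (nat_lit 605028357) (nat_lit 166144774045) (.two (nat_lit 1048576) (nat_lit 10372520534) (.one (nat_lit 4204114) .nil)))),
   .two (nat_lit 20738736238) (nat_lit 166136381578) (.two (nat_lit 1913651215) (nat_lit 10343154729) (.two (nat_lit 2887778312) (nat_lit 109054857) (.two (nat_lit 2097157) (nat_lit 343935487) (.two (nat_lit 34603009) (nat_lit 2104838) (.one (nat_lit 1059170) .nil))))),
   .two (nat_lit 11543773248) (nat_lit 1411383424) (.two (nat_lit 9866051599) (nat_lit 673186470) (.two (nat_lit 9866051592) (nat_lit 1411384689) (.two (nat_lit 1276116996) (nat_lit 2101650) (.two (nat_lit 156365750273) (nat_lit 10000275276) (.two (nat_lit 2097152) (nat_lit 772809293) (.one (nat_lit 1059171) .nil)))))),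
   .two (nat_lit 11559501890) (nat_lit 2886729848) (.two (nat_lit 83886095) (nat_lit 9806284156) (.two (nat_lit 8388612) (nat_lit 11559503390) (.two (nat_lit 34603009) (nat_lit 47588577171) (.two (nat_lit 1048576) (nat_lit 9974062587) (.one (nat_lit 8398420) .nil))))),
   .two (nat_lit 184993972289) (nat_lit 874512508) (.two (nat_lit 1178599439) (nat_lit 1344275052) (.two (nat_lit 1178599432) (nat_lit 2921334143) (.two (nat_lit 176160773) (nat_lit 12115250704) (.two (nat_lit 8388609) (nat_lit 158146239099) (.one (nat_lit 158150436182) .nil))))),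
   .two (nat_lit 184993972290) (nat_lit 184417255552) (.two (nat_lit 37748751) (nat_lit 11014242665) (.two (nat_lit 9766436872) (nat_lit 2990540091) (.two (nat_lit 165528207365) (nat_lit 2994735633) (.two (nat_lit 41943041) (nat_lit 9799995271) (.two (nat_lit 16777216) (nat_lit 4605352579) (.one (nat_lit 8399204) .nil)))))),
   .two (nat_lit 16777280) (nat_lit 13195280579) (.two (nat_lit 184549384) (nat_lit 2357200186) (.two (nat_lit 184549380) (nat_lit 310382103) (.two (nat_lit 8388609) (nat_lit 318773155) (.two (nat_lit 16777216) (nat_lit 8397415) (.one (nat_lit 880812983) .nil))))),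
   .two (nat_lit 1343225923) (nat_lit 11614027904) (.two (nat_lit 1916796943) (nat_lit 19529728683) (.two (nat_lit 11479810056) (nat_lit 1410336108) (.two (nat_lit 1276116996) (nat_lit 1279267205) (.two (nat_lit 37748737) (nat_lit 303043608) (.two (nat_lit 1048576) (nat_lit 4202196) (.one (nat_lit 1058389) .nil)))))),
   .two (nat_lit 1291845875) (nat_lit 3525312633) (.two (nat_lit 50331663) (nat_lit 165532402973) (.two (nat_lit 8388613) (nat_lit 28705820167) (.two (nat_lit 16777217) (nat_lit 4599059425) (.two (nat_lit 16777216) (nat_lit 10001325610) (.one (nat_lit 606087448) .nil))))),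
   .two (nat_lit 156569174129) (nat_lit 35651718) (.two (nat_lit 157036838927) (nat_lit 47550825316) (.two (nat_lit 46407876612) (nat_lit 775949805) (.two (nat_lit 620756993) (nat_lit 158079129528) (.two (nat_lit 16777216) (nat_lit 11477720587) (.one (nat_lit 16787030) .nil))))),
   .two (nat_lit 343933036) (nat_lit 157036839034) (.two (nat_lit 8388623) (nat_lit 10336862849) (.two (nat_lit 4605345800) (nat_lit 740296067) (.two (nat_lit 69206021) (nat_lit 713036141) (.two (nat_lit 37748737) (nat_lit 2103253) (.two (nat_lit 4194304) (nat_lit 2105960) (.one (nat_lit 8398423) .nil)))))),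
   .two (nat_lit 12163481666) (nat_lit 37246468212) (.two (nat_lit 12617515032) (nat_lit 3472884071) (.two (nat_lit 12047089672) (nat_lit 1795165635) (.two (nat_lit 34603009) (nat_lit 1325404040) (.two (nat_lit 1048576) (nat_lit 16785109) (.one (nat_lit 16787813) .nil))))),
   .two (nat_lit 21785215043) (nat_lit 37313577027) (.two (nat_lit 10939793423) (nat_lit 3464497181) (.two (nat_lit 174752530437) (nat_lit 880807396) (.two (nat_lit 9765388289) (nat_lit 19604182897) (.two (nat_lit 1048576) (nat_lit 1921000786) .nil)))),
   .two (nat_lit 183916036162) (nat_lit 1786773631) (.two (nat_lit 156372041743) (nat_lit 2990539111) (.two (nat_lit 11479810056) (nat_lit 2994734434) (.two (nat_lit 3531603973) (nat_lit 4198803) (.two (nat_lit 8388609) (nat_lit 4200406) (.two (nat_lit 1048576) (nat_lit 47550833807) .nil))))),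
   .two (nat_lit 2969567296) (nat_lit 13224640625) (.two (nat_lit 11479810063) (nat_lit 11525948716) (.two (nat_lit 809500677) (nat_lit 166245436842) (.two (nat_lit 9765388289) (nat_lit 1413485546) (.two (nat_lit 1048576) (nat_lit 20719871067) .nil)))),
   .two (nat_lit 37249613934) (nat_lit 37313577071) (.two (nat_lit 9768534031) (nat_lit 11559502485) (.two (nat_lit 184549384) (nat_lit 12117346839) (.two (nat_lit 16777217) (nat_lit 4634709920) (.two (nat_lit 1048576) (nat_lit 16786026) (.one (nat_lit 2969576566) .nil))))),
   .two (nat_lit 2969567296) (nat_lit 10907287687) (.two (nat_lit 3458203663) (nat_lit 721421691) (.two (nat_lit 9881780229) (nat_lit 46507493912) (.two (nat_lit 2097153) (nat_lit 1392512927) (.two (nat_lit 1048576) (nat_lit 3472890548) (.one (nat_lit 1059176) .nil))))),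
   .two (nat_lit 203423811) (nat_lit 165540790396) (.two (nat_lit 721420303) (nat_lit 839910034) (.two (nat_lit 185002360840) (nat_lit 9765389680) (.two (nat_lit 4605345797) (nat_lit 28790755212) (.two (nat_lit 8388608) (nat_lit 235936444) (.one (nat_lit 1058762) .nil))))),
   .two (nat_lit 28806479982) (nat_lit 1310720135) (.two (nat_lit 9934209039) (nat_lit 184431936120) (.two (nat_lit 28772925448) (nat_lit 9967765021) (.two (nat_lit 34603009) (nat_lit 11477716883) (.two (nat_lit 1048576) (nat_lit 251665098) (.one (nat_lit 16787032) .nil))))),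
   .two (nat_lit 20644364401) (nat_lit 1913651443) (.two (nat_lit 2887778319) (nat_lit 21214790331) (.two (nat_lit 639631368) (nat_lit 10016000039) (.two (nat_lit 285212677) (nat_lit 4027584897) (.two (nat_lit 16777217) (nat_lit 2886737447) (.one (nat_lit 16787817) .nil))))),
   .two (nat_lit 13191086147) (nat_lit 158083317826) (.two (nat_lit 159217877007) (nat_lit 166132187835) (.two (nat_lit 9934209032) (nat_lit 21210597915) (.two (nat_lit 2097153) (nat_lit 9802095359) (.one (nat_lit 2106983) .nil)))),
   .two (nat_lit 47555018817) (nat_lit 46474985539) (.two (nat_lit 3525312527) (nat_lit 183853122917) (.two (nat_lit 10506731525) (nat_lit 706744200) (.two (nat_lit 4194304) (nat_lit 136321678) (.one (nat_lit 2107775) .nil)))),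
   .two (nat_lit 183912890434) (nat_lit 158091706500) (.two (nat_lit 9881780239) (nat_lit 168822069) (.two (nat_lit 83886085) (nat_lit 184423551865) (.two (nat_lit 8388609) (nat_lit 822090221) (.two (nat_lit 8388608) (nat_lit 16785456) (.one (nat_lit 1846551836) .nil))))),
   .two (nat_lit 4601151552) (nat_lit 18933088368) (.two (nat_lit 18933088271) (nat_lit 9802090013) (.two (nat_lit 41943041) (nat_lit 47584385699) (.one (nat_lit 4204928) .nil))),
   .two (nat_lit 3527409730) (nat_lit 236978288) (.two (nat_lit 46978301967) (nat_lit 3527411229) (.two (nat_lit 2097153) (nat_lit 3527416548) (.one (nat_lit 104868223) .nil))),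
   .two (nat_lit 3525312578) (nat_lit 28793897092) (.two (nat_lit 9768534031) (nat_lit 639632716) (.two (nat_lit 2956984325) (nat_lit 337645469) (.two (nat_lit 2097152) (nat_lit 1947213437) (.one (nat_lit 18926806996) .nil)))),
   .two (nat_lit 3525312576) (nat_lit 1358955024) (.two (nat_lit 16777231) (nat_lit 12148803980) (.two (nat_lit 184549380) (nat_lit 1210062005) (.two (nat_lit 8388608) (nat_lit 606086453) .nil))),
   .two (nat_lit 16777280) (nat_lit 35651709) (.two (nat_lit 16777231) (nat_lit 166203490965) (.two (nat_lit 184549384) (nat_lit 209716525) (.two (nat_lit 184549380) (nat_lit 156573373134) (.two (nat_lit 2097153) (nat_lit 1392514107) (.two (nat_lit 8388608) (nat_lit 2106251) (.one (nat_lit 16787841) .nil)))))),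
   .two (nat_lit 184549441) (nat_lit 270532726) (.two (nat_lit 184549391) (nat_lit 156365750906) (.two (nat_lit 184549384) (nat_lit 10504636604) (.two (nat_lit 16777221) (nat_lit 10504638167) (.two (nat_lit 9781116929) (nat_lit 166197204875) (.two (nat_lit 4194304) (nat_lit 2106252) (.one (nat_lit 2107778) .nil)))))),
   .two (nat_lit 4601151555) (nat_lit 1224736892) (.two (nat_lit 9781116943) (nat_lit 46510639169) (.two (nat_lit 605028357) (nat_lit 721423842) (.two (nat_lit 4194305) (nat_lit 9881787492) (.two (nat_lit 1048576) (nat_lit 46477089398) (.one (nat_lit 1779442722) .nil))))),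
   .two (nat_lit 11492393025) (nat_lit 183913939063) (.two (nat_lit 37748751) (nat_lit 2902458726) (.two (nat_lit 37748744) (nat_lit 183962177174) (.two (nat_lit 2097153) (nat_lit 37249618967) (.two (nat_lit 2097152) (nat_lit 9982451279) (.one (nat_lit 2107779) .nil))))),
   .two (nat_lit 8388672) (nat_lit 3021996143) (.two (nat_lit 8388623) (nat_lit 10437526122) (.two (nat_lit 8388616) (nat_lit 10540288057) (.two (nat_lit 4194308) (nat_lit 1210060368) (.two (nat_lit 2097153) (nat_lit 13224644521) (.two (nat_lit 4194304) (nat_lit 20745035395) (.one (nat_lit 3560972447) .nil)))))),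
   .two (nat_lit 47563407425) (nat_lit 3525312578) (.two (nat_lit 2887778319) (nat_lit 1224737388) (.two (nat_lit 3460300808) (nat_lit 28791801139) (.two (nat_lit 605028357) (nat_lit 203427596) (.two (nat_lit 4194305) (nat_lit 46977261493) (.one (nat_lit 4204932) .nil))))),
   .two (nat_lit 4601151554) (nat_lit 788529271) (.two (nat_lit 4194319) (nat_lit 285213991) (.two (nat_lit 4194308) (nat_lit 83888659) (.two (nat_lit 4194305) (nat_lit 184555441) (.two (nat_lit 4194304) (nat_lit 183912897150) (.one (nat_lit 4204933) .nil))))),
   .two (nat_lit 156569174125) (nat_lit 12114198642) (.two (nat_lit 10504634383) (nat_lit 11546919549) (.two (nat_lit 10506731528) (nat_lit 20738737475) (.two (nat_lit 2889875461) (nat_lit 11007954397) (.two (nat_lit 2097153) (nat_lit 1745885240) (.two (nat_lit 1048576) (nat_lit 2105395) (.one (nat_lit 1059206) .nil)))))),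
   .two (nat_lit 809500739) (nat_lit 9873391975) (.two (nat_lit 11479810056) (nat_lit 2994734414) (.two (nat_lit 11479810052) (nat_lit 880807414) (.two (nat_lit 37748737) (nat_lit 713037769) (.two (nat_lit 4194304) (nat_lit 8396852) (.one (nat_lit 8398442) .nil))))),
   .two (nat_lit 16777280) (nat_lit 1276117106) (.two (nat_lit 50331663) (nat_lit 37313578307) (.two (nat_lit 16777220) (nat_lit 156465367565) (.two (nat_lit 8388609) (nat_lit 166229709798) (.two (nat_lit 8388608) (nat_lit 1056821) (.one (nat_lit 1059207) .nil))))),
   .two (nat_lit 16777280) (nat_lit 1176502388) (.two (nat_lit 16777231) (nat_lit 158083318877) (.two (nat_lit 8388616) (nat_lit 150998933) (.two (nat_lit 2097152) (nat_lit 159266120337) (.one (nat_lit 2107784) .nil)))),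
   .two (nat_lit 813695084) (nat_lit 3460300911) (.two (nat_lit 813694991) (nat_lit 11614028442) (.two (nat_lit 8388616) (nat_lit 183861513789) (.two (nat_lit 16777217) (nat_lit 37247521770) (.two (nat_lit 16777216) (nat_lit 2106065) (.one (nat_lit 8399241) .nil))))),
   .two (nat_lit 272629826) (nat_lit 12121539116) (.two (nat_lit 272629775) (nat_lit 185020188851) (.two (nat_lit 16777220) (nat_lit 135271468) (.two (nat_lit 8388608) (nat_lit 3024101196) (.one (nat_lit 4204938) .nil)))),
   .two (nat_lit 8388674) (nat_lit 10015998818) (.two (nat_lit 8388612) (nat_lit 46409975326) (.two (nat_lit 8388609) (nat_lit 1346376874) (.two (nat_lit 16777216) (nat_lit 104866884) .nil))),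
   .two (nat_lit 8388675) (nat_lit 9781117039) (.two (nat_lit 2902458383) (nat_lit 19033752877) (.two (nat_lit 16777221) (nat_lit 3565160995) (.two (nat_lit 16777217) (nat_lit 2424314467) (.one (nat_lit 8399243) .nil)))),
   .two (nat_lit 46980399169) (nat_lit 19545456764) (.two (nat_lit 822083599) (nat_lit 104857962) (.two (nat_lit 11492392968) (nat_lit 156367848780) (.two (nat_lit 171966469) (nat_lit 10385100258) (.two (nat_lit 37748737) (nat_lit 156532480638) (.one (nat_lit 11543782434) .nil))))),
   .two (nat_lit 9934209091) (nat_lit 1795162179) (.two (nat_lit 41943055) (nat_lit 21778924240) (.two (nat_lit 754974728) (nat_lit 203425867) (.two (nat_lit 4605345797) (nat_lit 3558870567) (.two (nat_lit 8388609) (nat_lit 46474991998) (.two (nat_lit 2097152) (nat_lit 3028294340) (.one (nat_lit 8399245) .nil)))))),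
   .two (nat_lit 3527409731) (nat_lit 1746928244) (.two (nat_lit 11492392968) (nat_lit 12150901279) (.two (nat_lit 2097153) (nat_lit 1379932088) (.two (nat_lit 2097152) (nat_lit 12050243583) (.one (nat_lit 2107790) .nil)))),
   .two (nat_lit 47555018819) (nat_lit 10940842100) (.two (nat_lit 174753579023) (nat_lit 3557819715) (.two (nat_lit 159217876997) (nat_lit 158183983622) (.two (nat_lit 605028353) (nat_lit 10443823416) (.two (nat_lit 1048576) (nat_lit 8397709) (.one (nat_lit 8399247) .nil))))),
   .two (nat_lit 12054429762) (nat_lit 158079123580) (.two (nat_lit 4601151503) (nat_lit 1753219938) (.two (nat_lit 4194308) (nat_lit 156573373478) (.two (nat_lit 2097152) (nat_lit 843064906) .nil))),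
   .two (nat_lit 21777875011) (nat_lit 11525947511) (.two (nat_lit 117440527) (nat_lit 158075978085) (.two (nat_lit 4194312) (nat_lit 2969568549) (.two (nat_lit 171966469) (nat_lit 620760546) (.two (nat_lit 4194305) (nat_lit 620762188) (.two (nat_lit 1048576) (nat_lit 4202551) (.one (nat_lit 4204944) .nil)))))),
   .two (nat_lit 1913651267) (nat_lit 4601151610) (.two (nat_lit 1178599439) (nat_lit 11006903630) (.two (nat_lit 9768534021) (nat_lit 46406831533) (.two (nat_lit 37748737) (nat_lit 47547685463) (.one (nat_lit 8399251) .nil)))),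
   .two (nat_lit 20719861826) (nat_lit 3557818494) (.two (nat_lit 16777231) (nat_lit 156468511077) (.two (nat_lit 612368392) (nat_lit 157051520321) (.two (nat_lit 176160773) (nat_lit 10385100273) (.two (nat_lit 9768534017) (nat_lit 185020193953) (.two (nat_lit 4194304) (nat_lit 21811437036) (.one (nat_lit 1059220) .nil)))))),
   .two (nat_lit 3525312578) (nat_lit 156569174131) (.two (nat_lit 156569174056) (nat_lit 157036839107) (.two (nat_lit 10506731532) (nat_lit 46508541256) (.two (nat_lit 28693233669) (nat_lit 4632612361) (.two (nat_lit 37748737) (nat_lit 2103814) (.two (nat_lit 16777216) (nat_lit 37249621744) (.one (nat_lit 4204949) .nil)))))),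
   .two (nat_lit 654311491) (nat_lit 10537140360) (.two (nat_lit 1795162127) (nat_lit 28790751847) (.two (nat_lit 4194312) (nat_lit 150997529) (.two (nat_lit 4194305) (nat_lit 174768264348) (.two (nat_lit 16777216) (nat_lit 47581242966) .nil)))),
   .two (nat_lit 2350907459) (nat_lit 10369368321) (.two (nat_lit 183853121551) (nat_lit 183846830699) (.two (nat_lit 11543773192) (nat_lit 11611931954) (.two (nat_lit 705691652) (nat_lit 10940843550) (.two (nat_lit 34603009) (nat_lit 203427733) (.two (nat_lit 1048576) (nat_lit 4028635815) (.one (nat_lit 2107798) .nil)))))),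
   .two (nat_lit 11559501889) (nat_lit 10369368350) (.two (nat_lit 822083599) (nat_lit 9936306934) (.two (nat_lit 11559501832) (nat_lit 20737689695) (.two (nat_lit 605028357) (nat_lit 37329310698) (.two (nat_lit 4194304) (nat_lit 1175461893) (.one (nat_lit 1058414) .nil))))),
   .two (nat_lit 185020186691) (nat_lit 28693233731) (.two (nat_lit 739246095) (nat_lit 156971827558) (.two (nat_lit 739246088) (nat_lit 1916797794) (.two (nat_lit 11543773189) (nat_lit 2923430866) (.two (nat_lit 8388611) (nat_lit 2990541318) (.two (nat_lit 8388609) (nat_lit 20640173962) (.two (nat_lit 1048576) (nat_lit 675289831) (.one (nat_lit 13195287422) .nil))))))),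
   .two (nat_lit 158083317825) (nat_lit 306184306) (.two (nat_lit 9866051599) (nat_lit 47584379240) (.two (nat_lit 4194312) (nat_lit 10947134806) (.two (nat_lit 47555018757) (nat_lit 1916799511) (.two (nat_lit 8388609) (nat_lit 239079314) (.two (nat_lit 1048576) (nat_lit 12620667583) (.one (nat_lit 37313584023) .nil)))))),
   .two (nat_lit 809500739) (nat_lit 721420355) (.two (nat_lit 16777231) (nat_lit 270533275) (.two (nat_lit 16777224) (nat_lit 19128124260) (.two (nat_lit 16777220) (nat_lit 1377832505) (.two (nat_lit 16777217) (nat_lit 1780486043) (.two (nat_lit 1048576) (nat_lit 156533529225) (.one (nat_lit 184416212392) .nil)))))),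
   .two (nat_lit 20738736239) (nat_lit 47555018787) (.two (nat_lit 1310720024) (nat_lit 19100861033) (.two (nat_lit 158144135176) (nat_lit 1216349538) (.two (nat_lit 721420293) (nat_lit 1384124099) (.two (nat_lit 16777217) (nat_lit 9934215106) (.two (nat_lit 2097152) (nat_lit 47563412813) (.one (nat_lit 16787827) .nil)))))),
   .two (nat_lit 272629795) (nat_lit 1410334846) (.two (nat_lit 654311439) (nat_lit 68157797) (.two (nat_lit 654311432) (nat_lit 19026412918) (.two (nat_lit 169869316) (nat_lit 4631563868) (.two (nat_lit 2097153) (nat_lit 2886734977) (.two (nat_lit 2097152) (nat_lit 4199761) (.one (nat_lit 16787828) .nil)))))),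
   .two (nat_lit 1795162179) (nat_lit 739246194) (.two (nat_lit 2887778319) (nat_lit 855638719) (.two (nat_lit 2887778312) (nat_lit 9814672685) (.two (nat_lit 270532613) (nat_lit 16781099) (.two (nat_lit 2097155) (nat_lit 21223182721) (.two (nat_lit 2097153) (nat_lit 13237228719) (.two (nat_lit 1048576) (nat_lit 19545464831) (.one (nat_lit 16787882) .nil))))))),
   .two (nat_lit 11543773248) (nat_lit 11626610755) (.two (nat_lit 16777231) (nat_lit 1343226051) (.two (nat_lit 16777224) (nat_lit 1376781640) (.two (nat_lit 16777220) (nat_lit 10909388305) (.two (nat_lit 8388609) (nat_lit 28760346509) (.two (nat_lit 4194304) (nat_lit 156481100375) (.one (nat_lit 285218215) .nil)))))),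
   .two (nat_lit 104857708) (nat_lit 18926796913) (.two (nat_lit 11551113231) (nat_lit 20640170600) (.two (nat_lit 16777224) (nat_lit 10504635744) (.two (nat_lit 16777220) (nat_lit 11611936250) (.two (nat_lit 41943045) (nat_lit 606078500) (.two (nat_lit 41943041) (nat_lit 156466418666) (.two (nat_lit 8388608) (nat_lit 2105388) (.one (nat_lit 69217006) .nil))))))),
   .two (nat_lit 1291845697) (nat_lit 713031809) (.two (nat_lit 1291845647) (nat_lit 10504634563) (.two (nat_lit 1291845640) (nat_lit 3458204121) (.two (nat_lit 9766436872) (nat_lit 28772925943) (.two (nat_lit 612368389) (nat_lit 1426066224) (.two (nat_lit 612368389) (nat_lit 13222547243) (.two (nat_lit 612368385) (nat_lit 337646633) (.two (nat_lit 2097152) (nat_lit 183953792541) (.one (nat_lit 8398482) .nil)))))))),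
   .two (nat_lit 184986632256) (nat_lit 158144135202) (.two (nat_lit 158144135183) (nat_lit 21777875139) (.two (nat_lit 9867100168) (nat_lit 13221495007) (.two (nat_lit 16777223) (nat_lit 11477715222) (.two (nat_lit 605028357) (nat_lit 21208498680) (.two (nat_lit 166130089989) (nat_lit 1379928880) (.two (nat_lit 2097153) (nat_lit 1379928880) (.two (nat_lit 16777216) (nat_lit 2102612) (.one (nat_lit 2104239) .nil)))))))),
   .two (nat_lit 809500739) (nat_lit 2416967747) (.two (nat_lit 176160783) (nat_lit 13221495412) (.two (nat_lit 169869320) (nat_lit 1853883693) (.two (nat_lit 8388613) (nat_lit 10335816205) (.two (nat_lit 8388609) (nat_lit 1914705078) (.two (nat_lit 1048576) (nat_lit 166197205701) (.one (nat_lit 1056995) .nil)))))),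
   .two (nat_lit 12117344320) (nat_lit 780140666) (.two (nat_lit 46414168079) (nat_lit 12117344451) (.two (nat_lit 11479810056) (nat_lit 185027528854) (.two (nat_lit 209715205) (nat_lit 1749027386) (.two (nat_lit 3531603973) (nat_lit 156535622198) (.two (nat_lit 9781116929) (nat_lit 8395267) (.two (nat_lit 1048576) (nat_lit 12050243072) (.one (nat_lit 109060309) .nil))))))),
   .two (nat_lit 8388672) (nat_lit 721420401) (.two (nat_lit 50331663) (nat_lit 8388803) (.two (nat_lit 176160776) (nat_lit 156581758274) (.two (nat_lit 16777220) (nat_lit 11618223047) (.two (nat_lit 16777220) (nat_lit 11517561398) (.two (nat_lit 16777217) (nat_lit 46984598569) (.two (nat_lit 1048576) (nat_lit 8395563) (.one (nat_lit 8397031) .nil))))))),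
   .two (nat_lit 306184257) (nat_lit 1954545787) (.two (nat_lit 184993972239) (nat_lit 156367847619) (.two (nat_lit 156372041736) (nat_lit 21210596673) (.two (nat_lit 654311429) (nat_lit 775950027) (.two (nat_lit 8388609) (nat_lit 285218949) (.two (nat_lit 4194304) (nat_lit 2936018253) (.one (nat_lit 4202805) .nil)))))),
   .two (nat_lit 272629795) (nat_lit 3524264054) (.two (nat_lit 272629775) (nat_lit 158143087209) (.two (nat_lit 270532614) (nat_lit 772802704) (.two (nat_lit 101711880) (nat_lit 37247517542) (.two (nat_lit 4194306) (nat_lit 11543776780) (.two (nat_lit 11546918917) (nat_lit 185020187590) (.two (nat_lit 37748737) (nat_lit 28790753989) (.two (nat_lit 4194304) (nat_lit 1057000) (.one (nat_lit 1950359737) .nil)))))))),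
   .two (nat_lit 12150898753) (nat_lit 28690088074) (.two (nat_lit 11551113231) (nat_lit 159219974760) (.two (nat_lit 713031688) (nat_lit 336594209) (.two (nat_lit 41943045) (nat_lit 336593876) (.two (nat_lit 41943045) (nat_lit 705693220) (.two (nat_lit 41943041) (nat_lit 1175458794) (.two (nat_lit 8388608) (nat_lit 2319458348) (.one (nat_lit 4204189) .nil))))))),
   .two (nat_lit 9940500588) (nat_lit 47548727331) (.two (nat_lit 9940500495) (nat_lit 9799991985) (.two (nat_lit 13203669000) (nat_lit 1279264042) (.two (nat_lit 16777220) (nat_lit 21208500771) (.two (nat_lit 16777217) (nat_lit 69211188) (.two (nat_lit 16777216) (nat_lit 46481283683) (.one (nat_lit 2107038) .nil)))))),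
   .two (nat_lit 184549394) (nat_lit 9867100225) (.two (nat_lit 9940500588) (nat_lit 47548727331) (.two (nat_lit 9940500495) (nat_lit 9799991985) (.two (nat_lit 13203669000) (nat_lit 1279264042) (.two (nat_lit 16777220) (nat_lit 1847593507) (.two (nat_lit 16777217) (nat_lit 69211188) (.two (nat_lit 16777216) (nat_lit 46481283683) (.one (nat_lit 2107039) .nil))))))),
   .two (nat_lit 9768534083) (nat_lit 236978287) (.two (nat_lit 3458203671) (nat_lit 2319450754) (.two (nat_lit 46407876616) (nat_lit 156468512078) (.two (nat_lit 19597885445) (nat_lit 1050151) (.two (nat_lit 9768534021) (nat_lit 2887778807) (.two (nat_lit 50331649) (nat_lit 10335817610) (.two (nat_lit 1048576) (nat_lit 10439629440) (.one (nat_lit 1055677) .nil))))))),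
   .two (nat_lit 8388672) (nat_lit 184986632259) (.two (nat_lit 8388623) (nat_lit 158144135836) (.two (nat_lit 176160776) (nat_lit 1309673506) (.two (nat_lit 10503585797) (nat_lit 28691139087) (.two (nat_lit 16777217) (nat_lit 4027584399) (.two (nat_lit 1048576) (nat_lit 35659812) (.one (nat_lit 2105583) .nil)))))),
   .two (nat_lit 2889875522) (nat_lit 47563407485) (.two (nat_lit 2889875471) (nat_lit 47555018949) (.two (nat_lit 176160784) (nat_lit 166211880822) (.two (nat_lit 721420296) (nat_lit 639632226) (.two (nat_lit 50331653) (nat_lit 8390174) (.two (nat_lit 50331649) (nat_lit 1954549653) (.two (nat_lit 16777216) (nat_lit 2104114) (.one (nat_lit 2105586) .nil))))))),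
   .two (nat_lit 16777280) (nat_lit 156976021752) (.two (nat_lit 16777231) (nat_lit 156976022124) (.two (nat_lit 612368392) (nat_lit 28705817900) (.two (nat_lit 11484004357) (nat_lit 9781119510) (.two (nat_lit 620756993) (nat_lit 2102494) (.two (nat_lit 16777216) (nat_lit 2105432) (.one (nat_lit 16787107) .nil)))))),
   .two (nat_lit 2954887232) (nat_lit 10942939265) (.two (nat_lit 713031695) (nat_lit 1746928213) (.two (nat_lit 50331656) (nat_lit 742392674) (.two (nat_lit 83886085) (nat_lit 157038938649) (.two (nat_lit 16777217) (nat_lit 47588578271) (.two (nat_lit 16777216) (nat_lit 343939708) (.one (nat_lit 2107044) .nil)))))),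
   .two (nat_lit 156533522540) (nat_lit 12117344329) (.two (nat_lit 156533522540) (nat_lit 3557818405) (.two (nat_lit 10504634383) (nat_lit 11543773892) (.two (nat_lit 184419352584) (nat_lit 9766439004) (.two (nat_lit 705691652) (nat_lit 4199338) (.two (nat_lit 83886083) (nat_lit 2987396543) (.two (nat_lit 620756993) (nat_lit 806360116) (.two (nat_lit 16777216) (nat_lit 2104121) (.one (nat_lit 4204977) .nil)))))))),
   .two (nat_lit 9933160466) (nat_lit 4043309188) (.two (nat_lit 1048653) (nat_lit 2097293) (.two (nat_lit 9933160459) (nat_lit 11525947601) (.two (nat_lit 13203669007) (nat_lit 4598005956) (.two (nat_lit 4599054342) (nat_lit 156364703131) (.two (nat_lit 13203669000) (nat_lit 10436477153) (.two (nat_lit 46407876610) (nat_lit 11577330233) (.two (nat_lit 18926796805) (nat_lit 21207451167) (.two (nat_lit 2097153) (nat_lit 12617521278) (.two (nat_lit 2097152) (nat_lit 2886735179) (.one (nat_lit 1058471) .nil)))))))))),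
   .two (nat_lit 157036838947) (nat_lit 166132187249) (.two (nat_lit 10506731535) (nat_lit 1176502904) (.two (nat_lit 157036838920) (nat_lit 809502018) (.two (nat_lit 12047089669) (nat_lit 46477086149) (.two (nat_lit 34603009) (nat_lit 10370423298) (.two (nat_lit 1048576) (nat_lit 156468519481) (.one (nat_lit 2107048) .nil)))))),
   .two (nat_lit 166230753301) (nat_lit 3457155193) (.two (nat_lit 2936012877) (nat_lit 2097501) (.two (nat_lit 166230753301) (nat_lit 19042140792) (.two (nat_lit 1426063387) (nat_lit 1049849) (.two (nat_lit 11544821769) (nat_lit 19109251302) (.two (nat_lit 183845781512) (nat_lit 11525947869) (.two (nat_lit 9866051589) (nat_lit 46523223579) (.two (nat_lit 605028353) (nat_lit 4613740876) (.two (nat_lit 2097152) (nat_lit 16785499) (.one (nat_lit 2107826) .nil))))))))),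
   .two (nat_lit 184549441) (nat_lit 176161132) (.two (nat_lit 184549391) (nat_lit 184423548292) (.two (nat_lit 2902458376) (nat_lit 3024095750) (.two (nat_lit 176160772) (nat_lit 1224740747) (.two (nat_lit 8388609) (nat_lit 46477089405) (.two (nat_lit 4194304) (nat_lit 8397984) (.one (nat_lit 8399458) .nil)))))),
   .two (nat_lit 37246468208) (nat_lit 37320917349) (.two (nat_lit 28093448207) (nat_lit 1325401456) (.two (nat_lit 4613734408) (nat_lit 10443819547) (.two (nat_lit 209715205) (nat_lit 9781120899) (.two (nat_lit 8388609) (nat_lit 12062823742) (.two (nat_lit 4194304) (nat_lit 1058488) .nil))))),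
   .two (nat_lit 721420353) (nat_lit 47555019618) (.two (nat_lit 721420296) (nat_lit 47555020317) (.two (nat_lit 620756997) (nat_lit 746590088) (.two (nat_lit 50331649) (nat_lit 12155099740) (.two (nat_lit 8388608) (nat_lit 16786593) (.one (nat_lit 165540801019) .nil))))),
   .two (nat_lit 2316304451) (nat_lit 18941477545) (.two (nat_lit 117440527) (nat_lit 4631561522) (.two (nat_lit 705691656) (nat_lit 16779795) (.two (nat_lit 11492392964) (nat_lit 4199457) (.two (nat_lit 2097153) (nat_lit 1745885832) (.two (nat_lit 2097152) (nat_lit 1312826413) (.one (nat_lit 46474996192) .nil)))))),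
   .two (nat_lit 4601151554) (nat_lit 12114198886) (.two (nat_lit 276824079) (nat_lit 840959357) (.two (nat_lit 276824072) (nat_lit 47548728862) (.two (nat_lit 8388612) (nat_lit 1277169560) (.two (nat_lit 8388609) (nat_lit 773855856) (.two (nat_lit 4194304) (nat_lit 1057954) (.one (nat_lit 1059427) .nil)))))),
   .two (nat_lit 184993972288) (nat_lit 10537140585) (.two (nat_lit 4613734415) (nat_lit 1753220637) (.two (nat_lit 16777220) (nat_lit 9940504466) (.two (nat_lit 34603009) (nat_lit 3565165131) (.two (nat_lit 1048576) (nat_lit 8397987) (.one (nat_lit 352332303) .nil))))),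
   .two (nat_lit 16777280) (nat_lit 165532402021) (.two (nat_lit 184549391) (nat_lit 183953786230) (.two (nat_lit 28093448200) (nat_lit 117443094) (.two (nat_lit 159224168453) (nat_lit 166245438489) (.two (nat_lit 50331649) (nat_lit 1753225864) (.two (nat_lit 16777216) (nat_lit 13228844050) (.one (nat_lit 1954555568) .nil)))))),
   .two (nat_lit 11559501889) (nat_lit 185020187295) (.two (nat_lit 2887778319) (nat_lit 1191183654) (.two (nat_lit 2887778312) (nat_lit 46422559267) (.two (nat_lit 184416206853) (nat_lit 183913944026) (.two (nat_lit 2097153) (nat_lit 21793610353) (.two (nat_lit 16777216) (nat_lit 1344283744) (.one (nat_lit 638593545) .nil)))))),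
   .two (nat_lit 16777282) (nat_lit 19530776936) (.two (nat_lit 721420303) (nat_lit 10942940509) (.two (nat_lit 272629768) (nat_lit 269486609) (.two (nat_lit 806354949) (nat_lit 157051524083) (.two (nat_lit 2097153) (nat_lit 2353011344) (.two (nat_lit 1048576) (nat_lit 11578384533) (.one (nat_lit 1948264111) .nil)))))),
   .two (nat_lit 2887778369) (nat_lit 156367848290) (.two (nat_lit 184549384) (nat_lit 4197800) (.two (nat_lit 8388612) (nat_lit 184986637623) (.two (nat_lit 8388608) (nat_lit 1312827063) .nil))),
   .two (nat_lit 339738689) (nat_lit 16777573) (.two (nat_lit 4194319) (nat_lit 184431936819) (.two (nat_lit 4194312) (nat_lit 1948258195) (.two (nat_lit 34603009) (nat_lit 10504641105) (.two (nat_lit 1048576) (nat_lit 151003285) (.one (nat_lit 839919285) .nil))))),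
   .two (nat_lit 4601151552) (nat_lit 11577328287) (.two (nat_lit 3460300815) (nat_lit 639632713) (.two (nat_lit 37748744) (nat_lit 2953841155) (.two (nat_lit 47548727301) (nat_lit 19596842017) (.two (nat_lit 156364701697) (nat_lit 183947500124) (.two (nat_lit 1048576) (nat_lit 2106532) (.one (nat_lit 11580484115) .nil)))))),
   .two (nat_lit 10436476995) (nat_lit 1277166233) (.two (nat_lit 4194319) (nat_lit 159224171031) (.two (nat_lit 1344274437) (nat_lit 46406832025) (.two (nat_lit 41943041) (nat_lit 9765395063) (.two (nat_lit 1048576) (nat_lit 4203685) (.one (nat_lit 2894080482) .nil))))),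
   .two (nat_lit 47555018816) (nat_lit 158144135829) (.two (nat_lit 2887778319) (nat_lit 165532402530) (.two (nat_lit 705691656) (nat_lit 156372045699) (.two (nat_lit 2097153) (nat_lit 746591550) (.two (nat_lit 2097152) (nat_lit 1057958) (.one (nat_lit 2108004) .nil))))),
   .two (nat_lit 11559501888) (nat_lit 19127075447) (.two (nat_lit 4194319) (nat_lit 1358956061) (.two (nat_lit 2097157) (nat_lit 9936310151) (.two (nat_lit 2097153) (nat_lit 166232857163) (.two (nat_lit 1048576) (nat_lit 2106535) (.one (nat_lit 4205157) .nil))))),
   .two (nat_lit 822083651) (nat_lit 339739248) (.two (nat_lit 11492392975) (nat_lit 171967332) (.two (nat_lit 1291845640) (nat_lit 19027462679) (.two (nat_lit 1344274437) (nat_lit 11559507255) (.two (nat_lit 4194304) (nat_lit 10016007861) .nil)))),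
   .two (nat_lit 4605345856) (nat_lit 1916797123) (.two (nat_lit 4605345807) (nat_lit 339739954) (.two (nat_lit 1178599432) (nat_lit 156372043293) (.two (nat_lit 9768534021) (nat_lit 1786777486) (.two (nat_lit 37748737) (nat_lit 4605354145) (.one (nat_lit 9969870509) .nil))))),
   .two (nat_lit 285212739) (nat_lit 1413480807) (.two (nat_lit 184549391) (nat_lit 10343155229) (.two (nat_lit 176160772) (nat_lit 1761613113) (.two (nat_lit 4194304) (nat_lit 1350575048) (.one (nat_lit 843065788) .nil)))),
   .two (nat_lit 843055171) (nat_lit 159224168643) (.two (nat_lit 612368399) (nat_lit 28793899527) (.two (nat_lit 176160772) (nat_lit 71307159) (.two (nat_lit 8388609) (nat_lit 171973487) (.one (nat_lit 19532883641) .nil)))),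
   .two (nat_lit 8388672) (nat_lit 3472884580) (.two (nat_lit 8388616) (nat_lit 1224740755) (.two (nat_lit 8388609) (nat_lit 184989784687) (.two (nat_lit 4194304) (nat_lit 10913588907) .nil))),
   .two (nat_lit 285212738) (nat_lit 775946923) (.two (nat_lit 285212687) (nat_lit 1413483033) (.two (nat_lit 16777220) (nat_lit 11614032850) (.two (nat_lit 4194305) (nat_lit 16784238) (.one (nat_lit 11614037680) .nil)))),
   .two (nat_lit 721420402) (nat_lit 47555018947) (.two (nat_lit 176160783) (nat_lit 1358956061) (.two (nat_lit 8388613) (nat_lit 46422560648) (.two (nat_lit 612368385) (nat_lit 855644765) (.two (nat_lit 8388608) (nat_lit 16786600) (.one (nat_lit 16788070) .nil))))),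
   .two (nat_lit 159224168559) (nat_lit 21827158211) (.two (nat_lit 10385096719) (nat_lit 10003416390) (.two (nat_lit 11559501832) (nat_lit 2357201424) (.two (nat_lit 176160773) (nat_lit 13191090072) (.two (nat_lit 8388609) (nat_lit 10003421797) (.two (nat_lit 4194304) (nat_lit 9814680509) (.one (nat_lit 10338970062) .nil)))))),
   .two (nat_lit 721420353) (nat_lit 174692761961) (.two (nat_lit 721420303) (nat_lit 209716524) (.two (nat_lit 1350565896) (nat_lit 1358957054) (.two (nat_lit 11479810052) (nat_lit 158662136811) (.two (nat_lit 37748737) (nat_lit 2961185370) (.two (nat_lit 16777216) (nat_lit 9806291906) (.one (nat_lit 166199306696) .nil)))))),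
   .two (nat_lit 11007950915) (nat_lit 9974055107) (.two (nat_lit 166130089999) (nat_lit 165532403024) (.two (nat_lit 19530776584) (nat_lit 10343155230) (.two (nat_lit 10504634373) (nat_lit 12155096968) (.two (nat_lit 9768534017) (nat_lit 11611937356) (.two (nat_lit 4194304) (nat_lit 2106537) (.one (nat_lit 2108007) .nil)))))),
   .two (nat_lit 1358954612) (nat_lit 41943235) (.two (nat_lit 9881780239) (nat_lit 679478601) (.two (nat_lit 9881780232) (nat_lit 880805406) (.two (nat_lit 1358954501) (nat_lit 8393763) (.two (nat_lit 620756993) (nat_lit 10343160499) (.two (nat_lit 2097152) (nat_lit 8397994) (.one (nat_lit 1358965196) .nil)))))),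
   .two (nat_lit 156535619651) (nat_lit 4647289027) (.two (nat_lit 166132187151) (nat_lit 1224738171) (.two (nat_lit 166132187144) (nat_lit 9781118494) (.two (nat_lit 10506731525) (nat_lit 28101840793) (.two (nat_lit 9765388289) (nat_lit 11614034535) (.two (nat_lit 4194304) (nat_lit 21777884849) .nil))))),
   .two (nat_lit 318767169) (nat_lit 306184387) (.two (nat_lit 169869327) (nat_lit 156984411494) (.two (nat_lit 169869320) (nat_lit 205523470) (.two (nat_lit 169869316) (nat_lit 184416211933) (.two (nat_lit 2097153) (nat_lit 10452212365) (.two (nat_lit 1048576) (nat_lit 1291854795) (.one (nat_lit 9765398191) .nil)))))),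
   .two (nat_lit 4638900289) (nat_lit 285213538) (.two (nat_lit 16777224) (nat_lit 158075980297) (.two (nat_lit 8388612) (nat_lit 11476669412) (.two (nat_lit 2097153) (nat_lit 165525068445) (.two (nat_lit 1048576) (nat_lit 721428631) (.one (nat_lit 13187950261) .nil))))),
   .two (nat_lit 16777280) (nat_lit 11584667843) (.two (nat_lit 16777231) (nat_lit 276825394) (.two (nat_lit 184549384) (nat_lit 21785218474) (.two (nat_lit 21785214981) (nat_lit 156581762011) (.two (nat_lit 41943041) (nat_lit 11626617512) (.two (nat_lit 2097152) (nat_lit 46523229124) (.one (nat_lit 13222554083) .nil)))))),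
   .two (nat_lit 46477082690) (nat_lit 13228835483) (.two (nat_lit 46980399119) (nat_lit 185035916656) (.two (nat_lit 11559501832) (nat_lit 11546922892) (.two (nat_lit 4194305) (nat_lit 8395433) (.two (nat_lit 16777216) (nat_lit 4203589) (.one (nat_lit 46992992803) .nil))))),
   .two (nat_lit 721420354) (nat_lit 11479810701) (.two (nat_lit 721420303) (nat_lit 12050237984) (.two (nat_lit 50331653) (nat_lit 158079128892) (.two (nat_lit 2097152) (nat_lit 156481103536) .nil))),
   .two (nat_lit 754974785) (nat_lit 21777875301) (.two (nat_lit 4194319) (nat_lit 11525948719) (.two (nat_lit 809500680) (nat_lit 10955524613) (.two (nat_lit 705691652) (nat_lit 11546924004) (.two (nat_lit 34603009) (nat_lit 20740840011) (.two (nat_lit 4194304) (nat_lit 46507500475) (.one (nat_lit 339749330) .nil)))))),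
   .two (nat_lit 28693233729) (nat_lit 4647289027) (.two (nat_lit 9781116943) (nat_lit 18928896033) (.two (nat_lit 2416967692) (nat_lit 11479812625) (.two (nat_lit 158143086597) (nat_lit 10372518869) (.two (nat_lit 605028353) (nat_lit 20707285688) (.two (nat_lit 1048576) (nat_lit 4203612) (.one (nat_lit 19127085626) .nil)))))),
   .two (nat_lit 2988441667) (nat_lit 46477082819) (.two (nat_lit 3458203663) (nat_lit 166132188702) (.two (nat_lit 34603013) (nat_lit 9869201302) (.two (nat_lit 2097153) (nat_lit 10506739870) (.one (nat_lit 46507501234) .nil)))),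
   .two (nat_lit 285212736) (nat_lit 9969860968) (.two (nat_lit 2902458383) (nat_lit 13191087438) (.two (nat_lit 184419352584) (nat_lit 9781118493) (.two (nat_lit 12117344261) (nat_lit 165540794265) (.two (nat_lit 37748737) (nat_lit 2969575585) (.one (nat_lit 166232861144) .nil))))),
   .two (nat_lit 174688567363) (nat_lit 19093521036) (.two (nat_lit 157038936079) (nat_lit 269485375) (.two (nat_lit 4634705932) (nat_lit 806357518) (.two (nat_lit 19532873733) (nat_lit 269488022) (.two (nat_lit 2097153) (nat_lit 9798949533) (.two (nat_lit 2097152) (nat_lit 11577335966) (.one (nat_lit 4205161) .nil)))))),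
   .two (nat_lit 1291845697) (nat_lit 166230753895) (.two (nat_lit 1291845647) (nat_lit 1277168166) (.two (nat_lit 9934209029) (nat_lit 251662216) (.two (nat_lit 50331649) (nat_lit 28791807456) (.two (nat_lit 2097152) (nat_lit 16786611) (.one (nat_lit 2108013) .nil))))),
   .two (nat_lit 158143086656) (nat_lit 337642115) (.two (nat_lit 166130089999) (nat_lit 11476665652) (.two (nat_lit 12129927176) (nat_lit 166196151837) (.two (nat_lit 10504634373) (nat_lit 185002364819) (.two (nat_lit 50331649) (nat_lit 1055418) (.two (nat_lit 2097152) (nat_lit 1057973) (.one (nat_lit 16788078) .nil)))))),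
   .two (nat_lit 721420353) (nat_lit 159224169314) (.two (nat_lit 721420296) (nat_lit 159224170013) (.two (nat_lit 50331653) (nat_lit 11484008328) (.two (nat_lit 8388609) (nat_lit 37262203481) (.two (nat_lit 8388608) (nat_lit 16786614) (.one (nat_lit 8399471) .nil))))),
   .two (nat_lit 19596836931) (nat_lit 166199296632) (.two (nat_lit 10369368088) (nat_lit 318768474) (.two (nat_lit 16777224) (nat_lit 3557820955) (.two (nat_lit 50331653) (nat_lit 157035794328) (.two (nat_lit 50331649) (nat_lit 184986638953) (.two (nat_lit 1048576) (nat_lit 16786615) (.one (nat_lit 11626621415) .nil)))))),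
   .two (nat_lit 318767169) (nat_lit 157038936259) (.two (nat_lit 4613734415) (nat_lit 171967812) (.two (nat_lit 46407876616) (nat_lit 11010049565) (.two (nat_lit 2097157) (nat_lit 19142808560) (.two (nat_lit 2097153) (nat_lit 1178606249) (.two (nat_lit 1048576) (nat_lit 2106552) (.one (nat_lit 16788080) .nil)))))),
   .two (nat_lit 713031746) (nat_lit 184419353237) (.two (nat_lit 4194319) (nat_lit 37253810695) (.two (nat_lit 41943045) (nat_lit 4199461) (.two (nat_lit 41943041) (nat_lit 138420362) (.one (nat_lit 1059441) .nil)))),
   .two (nat_lit 1291845697) (nat_lit 1210057065) (.two (nat_lit 1191182351) (nat_lit 337642883) (.two (nat_lit 83886088) (nat_lit 159217879566) (.two (nat_lit 620756997) (nat_lit 2102310) (.two (nat_lit 41943041) (nat_lit 337648235) (.two (nat_lit 2097152) (nat_lit 8398009) (.one (nat_lit 8399475) .nil)))))),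
   .two (nat_lit 11492393071) (nat_lit 11476664681) (.two (nat_lit 11492392975) (nat_lit 1050673) (.two (nat_lit 11559501832) (nat_lit 9765390859) (.two (nat_lit 721420292) (nat_lit 1053735) (.two (nat_lit 605028353) (nat_lit 166211884349) (.two (nat_lit 1048576) (nat_lit 2902467663) (.one (nat_lit 1059444) .nil)))))),
   .two (nat_lit 156581757044) (nat_lit 47550824807) (.two (nat_lit 742391823) (nat_lit 251659638) (.two (nat_lit 12117344264) (nat_lit 721422861) (.two (nat_lit 184419352581) (nat_lit 2102312) (.two (nat_lit 50331649) (nat_lit 165526116937) (.two (nat_lit 4194304) (nat_lit 9881789485) (.one (nat_lit 809511392) .nil)))))),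
   .two (nat_lit 46414168129) (nat_lit 742392167) (.two (nat_lit 157038936079) (nat_lit 19529728867) (.two (nat_lit 11559501832) (nat_lit 47581235731) (.two (nat_lit 8388613) (nat_lit 11543777159) (.two (nat_lit 8388609) (nat_lit 21811436160) (.two (nat_lit 1048576) (nat_lit 4203711) (.one (nat_lit 8399478) .nil)))))),
   .two (nat_lit 20638072898) (nat_lit 166196150878) (.two (nat_lit 165526110223) (nat_lit 158143087932) (.two (nat_lit 46978301960) (nat_lit 46507495303) (.two (nat_lit 606076929) (nat_lit 9866058355) (.two (nat_lit 1048576) (nat_lit 2106560) (.one (nat_lit 2108023) .nil))))),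
   .two (nat_lit 20704133185) (nat_lit 10942939795) (.two (nat_lit 1410334744) (nat_lit 156573369650) (.two (nat_lit 46984593416) (nat_lit 19532876287) (.two (nat_lit 28690087941) (nat_lit 19029562371) (.two (nat_lit 34603009) (nat_lit 11484011194) (.two (nat_lit 8388608) (nat_lit 1057985) (.one (nat_lit 20637035115) .nil)))))),
   .two (nat_lit 11479810115) (nat_lit 11484005220) (.two (nat_lit 4194312) (nat_lit 165532405638) (.two (nat_lit 4194305) (nat_lit 10376713532) (.two (nat_lit 1048576) (nat_lit 8398018) (.one (nat_lit 11577338429) .nil)))),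
   .two (nat_lit 16777280) (nat_lit 158083318627) (.two (nat_lit 158083317768) (nat_lit 620758558) (.two (nat_lit 10343153669) (nat_lit 19042144136) (.two (nat_lit 612368385) (nat_lit 620762422) (.two (nat_lit 8388608) (nat_lit 16785569) (.one (nat_lit 8399480) .nil))))),
   .two (nat_lit 3527409728) (nat_lit 1277166224) (.two (nat_lit 10370416655) (nat_lit 159219975511) (.two (nat_lit 813694984) (nat_lit 10506734079) (.two (nat_lit 10504634373) (nat_lit 4199466) (.two (nat_lit 4194305) (nat_lit 2104877) (.two (nat_lit 8388608) (nat_lit 2106563) (.one (nat_lit 12048148941) .nil)))))),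
   .two (nat_lit 2902458434) (nat_lit 1212154465) (.two (nat_lit 2902458383) (nat_lit 1379928610) (.two (nat_lit 2889875461) (nat_lit 2969572663) (.two (nat_lit 4194304) (nat_lit 855647924) .nil))),
   .two (nat_lit 310378563) (nat_lit 10506732387) (.two (nat_lit 2889875464) (nat_lit 12155095558) (.two (nat_lit 272629765) (nat_lit 10443820951) (.two (nat_lit 4194305) (nat_lit 156372050083) (.one (nat_lit 71313958) .nil)))),
   .two (nat_lit 343932993) (nat_lit 1795162470) (.two (nat_lit 8388623) (nat_lit 1795163678) (.two (nat_lit 620756997) (nat_lit 11618226054) (.two (nat_lit 50331649) (nat_lit 4605354139) (.one (nat_lit 889203284) .nil)))),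
   .two (nat_lit 8388672) (nat_lit 11559502182) (.two (nat_lit 8388623) (nat_lit 37329306971) (.two (nat_lit 1291845640) (nat_lit 19537072008) (.two (nat_lit 8388609) (nat_lit 158662138528) (.two (nat_lit 16777216) (nat_lit 8398021) (.one (nat_lit 83896932) .nil))))),
   .two (nat_lit 185020186690) (nat_lit 174701150870) (.two (nat_lit 9781116943) (nat_lit 174752531785) (.two (nat_lit 218103816) (nat_lit 4631562762) (.two (nat_lit 166144770053) (nat_lit 1053740) (.two (nat_lit 16777217) (nat_lit 2323652080) (.two (nat_lit 8388608) (nat_lit 1343235242) (.one (nat_lit 746596825) .nil)))))),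
   .two (nat_lit 184419352690) (nat_lit 4647289027) (.two (nat_lit 183848927247) (nat_lit 9781118493) (.two (nat_lit 13191086085) (nat_lit 165540795705) (.two (nat_lit 1048576) (nat_lit 10003424213) (.one (nat_lit 4205179) .nil)))),
   .two (nat_lit 184993972288) (nat_lit 28790751844) (.two (nat_lit 101711887) (nat_lit 10913580348) (.two (nat_lit 101711880) (nat_lit 158083319326) (.two (nat_lit 11476664324) (nat_lit 13228838802) (.two (nat_lit 34603009) (nat_lit 10007614774) (.two (nat_lit 8388608) (nat_lit 68166815) (.one (nat_lit 8399484) .nil)))))),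
   .two (nat_lit 158075977794) (nat_lit 46422557540) (.two (nat_lit 12129927176) (nat_lit 2886732291) (.two (nat_lit 21777874949) (nat_lit 156380435772) (.two (nat_lit 2097152) (nat_lit 10537150128) .nil))),
   .two (nat_lit 272629824) (nat_lit 310378691) (.two (nat_lit 272629775) (nat_lit 10544481601) (.two (nat_lit 4194312) (nat_lit 20644366874) (.two (nat_lit 1343225861) (nat_lit 4199469) (.two (nat_lit 37748737) (nat_lit 37313583737) (.two (nat_lit 1048576) (nat_lit 37316732018) (.one (nat_lit 47550835226) .nil)))))),
   .two (nat_lit 218103919) (nat_lit 306184387) (.two (nat_lit 4601151503) (nat_lit 1291846949) (.two (nat_lit 272629768) (nat_lit 620760963) (.two (nat_lit 4194305) (nat_lit 12129932605) (.two (nat_lit 16777216) (nat_lit 11580482513) (.one (nat_lit 4205182) .nil))))),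
   .two (nat_lit 285212736) (nat_lit 19532874085) (.two (nat_lit 2902458383) (nat_lit 11614029174) (.two (nat_lit 166132187144) (nat_lit 10385099290) (.two (nat_lit 10506731525) (nat_lit 10016003097) (.two (nat_lit 16777217) (nat_lit 157038942856) (.two (nat_lit 4194304) (nat_lit 16786636) (.one (nat_lit 159253538480) .nil)))))),
   .two (nat_lit 21208498241) (nat_lit 2969567427) (.two (nat_lit 1795162127) (nat_lit 12114199887) (.two (nat_lit 183845781512) (nat_lit 855640591) (.two (nat_lit 158144135173) (nat_lit 183962178523) (.two (nat_lit 2097153) (nat_lit 166245440168) (.two (nat_lit 1048576) (nat_lit 2106573) (.one (nat_lit 1059456) .nil)))))),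
   .two (nat_lit 16777283) (nat_lit 28093448802) (.two (nat_lit 184549391) (nat_lit 1753220391) (.two (nat_lit 713031688) (nat_lit 2969571205) (.two (nat_lit 41943041) (nat_lit 10552874296) (.two (nat_lit 8388608) (nat_lit 16785572) (.one (nat_lit 8399489) .nil))))),
   .two (nat_lit 184549487) (nat_lit 1753219430) (.two (nat_lit 620757007) (nat_lit 1753220637) (.two (nat_lit 41943045) (nat_lit 1291849605) (.two (nat_lit 16777217) (nat_lit 46514838095) (.two (nat_lit 8388608) (nat_lit 1224745099) (.one (nat_lit 3565168301) .nil))))),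
   .two (nat_lit 272629824) (nat_lit 310378691) (.two (nat_lit 272629775) (nat_lit 28798092646) (.two (nat_lit 4194312) (nat_lit 158083320346) (.two (nat_lit 4194308) (nat_lit 9772733470) (.two (nat_lit 605028353) (nat_lit 775953059) (.two (nat_lit 1048576) (nat_lit 174755685490) (.one (nat_lit 4205062) .nil)))))),
   .two (nat_lit 1343225923) (nat_lit 1384120515) (.two (nat_lit 272629775) (nat_lit 28093449501) (.two (nat_lit 4194312) (nat_lit 10007611902) (.two (nat_lit 13195280389) (nat_lit 156364705683) (.two (nat_lit 4194305) (nat_lit 2994739880) (.two (nat_lit 4194304) (nat_lit 235939502) .nil))))),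
   .two (nat_lit 117440579) (nat_lit 11476665003) (.two (nat_lit 9881780239) (nat_lit 46977255969) (.two (nat_lit 1358954501) (nat_lit 184986637309) (.two (nat_lit 9781116929) (nat_lit 12147759786) (.two (nat_lit 1048576) (nat_lit 16786641) (.one (nat_lit 1059458) .nil))))),
   .two (nat_lit 12617515073) (nat_lit 1358954691) (.two (nat_lit 11559501839) (nat_lit 705693024) (.two (nat_lit 184416206856) (nat_lit 13203672978) (.two (nat_lit 34603009) (nat_lit 9781122358) (.two (nat_lit 1048576) (nat_lit 159232565393) (.one (nat_lit 11492403788) .nil))))),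
   .two (nat_lit 21785215043) (nat_lit 11610882712) (.two (nat_lit 9768534031) (nat_lit 9940502567) (.two (nat_lit 1779433480) (nat_lit 4197861) (.two (nat_lit 9933160453) (nat_lit 209719188) (.two (nat_lit 4194305) (nat_lit 19134420284) (.two (nat_lit 1048576) (nat_lit 159219983309) (.one (nat_lit 1059459) .nil)))))),
   .two (nat_lit 11559501889) (nat_lit 166229705348) (.two (nat_lit 184986632215) (nat_lit 1795163430) (.two (nat_lit 705691656) (nat_lit 184431939482) (.two (nat_lit 16777217) (nat_lit 13191093794) (.two (nat_lit 4194304) (nat_lit 13188998113) (.one (nat_lit 19128134085) .nil))))),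
   .two (nat_lit 11479810115) (nat_lit 11559502690) (.two (nat_lit 822083596) (nat_lit 11580475941) (.two (nat_lit 4194308) (nat_lit 157051524092) (.two (nat_lit 620756993) (nat_lit 47550831267) (.two (nat_lit 16777216) (nat_lit 4203732) (.one (nat_lit 16788101) .nil))))),
   .two (nat_lit 272629824) (nat_lit 159257723524) (.two (nat_lit 809500687) (nat_lit 9940501887) (.two (nat_lit 4194312) (nat_lit 343934493) (.two (nat_lit 4194308) (nat_lit 19537072009) (.two (nat_lit 4194305) (nat_lit 12618570322) (.two (nat_lit 1048576) (nat_lit 136324033) (.one (nat_lit 2108038) .nil)))))),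
   .two (nat_lit 4647288899) (nat_lit 10372514435) (.two (nat_lit 2969567247) (nat_lit 1377830256) (.two (nat_lit 12050235400) (nat_lit 9781118493) (.two (nat_lit 69206021) (nat_lit 9781122358) (.two (nat_lit 2097152) (nat_lit 159232565395) (.one (nat_lit 2889885362) .nil))))),
   .two (nat_lit 285212736) (nat_lit 10540286576) (.two (nat_lit 1191182351) (nat_lit 46477083983) (.two (nat_lit 3460300808) (nat_lit 822085149) (.two (nat_lit 605028357) (nat_lit 50337078) (.two (nat_lit 1048576) (nat_lit 158158823571) (.one (nat_lit 21814585816) .nil))))),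
   .two (nat_lit 2969567296) (nat_lit 10907287909) (.two (nat_lit 2969567247) (nat_lit 19128124790) (.two (nat_lit 20638072840) (nat_lit 16780779) (.two (nat_lit 159217876997) (nat_lit 16782383) (.two (nat_lit 16777217) (nat_lit 1277173278) (.two (nat_lit 2097152) (nat_lit 16786647) (.one (nat_lit 12148811440) .nil)))))),
   .two (nat_lit 2887778369) (nat_lit 183949590886) (.two (nat_lit 4194319) (nat_lit 10913580361) (.two (nat_lit 4194312) (nat_lit 176164266) (.two (nat_lit 8388612) (nat_lit 12114203605) (.two (nat_lit 2097153) (nat_lit 235936372) (.two (nat_lit 1048576) (nat_lit 159219982486) (.one (nat_lit 2107066) .nil)))))),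
   .two (nat_lit 880803953) (nat_lit 47596961987) (.two (nat_lit 713031695) (nat_lit 654312989) (.two (nat_lit 41943045) (nat_lit 11525951368) (.two (nat_lit 16777217) (nat_lit 9906951480) (.two (nat_lit 1048576) (nat_lit 9940508807) (.one (nat_lit 9915345396) .nil))))),
   .two (nat_lit 218103874) (nat_lit 19597886072) (.two (nat_lit 218103823) (nat_lit 20738737489) (.two (nat_lit 1780482056) (nat_lit 184553350) (.two (nat_lit 41943041) (nat_lit 46508547628) (.two (nat_lit 8388608) (nat_lit 10001327082) (.one (nat_lit 8399495) .nil))))),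
   .two (nat_lit 21208498241) (nat_lit 839910244) (.two (nat_lit 165525061640) (nat_lit 35654178) (.two (nat_lit 184549381) (nat_lit 183913942931) (.two (nat_lit 2097153) (nat_lit 839916116) (.two (nat_lit 16777216) (nat_lit 12618572897) (.one (nat_lit 1059464) .nil))))),
   .two (nat_lit 343932995) (nat_lit 9881780834) (.two (nat_lit 176160783) (nat_lit 9781118248) (.two (nat_lit 11492392968) (nat_lit 1853886348) (.two (nat_lit 50331649) (nat_lit 209722005) (.two (nat_lit 16777216) (nat_lit 8398040) (.one (nat_lit 12054440429) .nil))))),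
   .two (nat_lit 4613734465) (nat_lit 4634706115) (.two (nat_lit 9934209039) (nat_lit 1309672290) (.two (nat_lit 16777224) (nat_lit 19596840839) (.two (nat_lit 50331649) (nat_lit 157036845640) (.two (nat_lit 2097152) (nat_lit 19042149510) (.one (nat_lit 156567087611) .nil))))),
   .two (nat_lit 1947205745) (nat_lit 10909385065) (.two (nat_lit 4605345807) (nat_lit 3460303392) (.two (nat_lit 171966469) (nat_lit 713037112) (.two (nat_lit 1048576) (nat_lit 4203738) (.one (nat_lit 46977263281) .nil)))),
   .two (nat_lit 2902458480) (nat_lit 41943235) (.two (nat_lit 2902458383) (nat_lit 11014243636) (.two (nat_lit 218103816) (nat_lit 2317356947) (.two (nat_lit 16777217) (nat_lit 37247523483) (.two (nat_lit 2097152) (nat_lit 16786651) (.one (nat_lit 2108041) .nil))))),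
   .two (nat_lit 184549487) (nat_lit 184993972581) (.two (nat_lit 713031695) (nat_lit 11559503137) (.two (nat_lit 620757000) (nat_lit 184993973789) (.two (nat_lit 184549380) (nat_lit 8392609) (.two (nat_lit 16777217) (nat_lit 3565165148) (.two (nat_lit 8388608) (nat_lit 16786653) (.one (nat_lit 8399439) .nil)))))),
   .two (nat_lit 16777280) (nat_lit 9934209634) (.two (nat_lit 16777231) (nat_lit 2420114751) (.two (nat_lit 9766436872) (nat_lit 37262200712) (.two (nat_lit 41943041) (nat_lit 2988447032) (.two (nat_lit 8388608) (nat_lit 239083679) (.one (nat_lit 16788106) .nil))))),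
   .two (nat_lit 9899606129) (nat_lit 156372041923) (.two (nat_lit 183853121551) (nat_lit 638584150) (.two (nat_lit 1343225864) (nat_lit 158183985032) (.two (nat_lit 34603009) (nat_lit 11551119965) (.two (nat_lit 8388608) (nat_lit 174752539645) (.one (nat_lit 185027537418) .nil))))),
   .two (nat_lit 4601151555) (nat_lit 34603369) (.two (nat_lit 46414168079) (nat_lit 12150901259) (.two (nat_lit 4605345797) (nat_lit 21223183352) (.two (nat_lit 4194305) (nat_lit 109058662) (.two (nat_lit 8388608) (nat_lit 18928903313) (.one (nat_lit 4205195) .nil))))),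
   .two (nat_lit 843055171) (nat_lit 156533522627) (.two (nat_lit 183848927247) (nat_lit 20705183049) (.two (nat_lit 183848927240) (nat_lit 46474987038) (.two (nat_lit 13191086085) (nat_lit 13222548524) (.two (nat_lit 37748737) (nat_lit 28791806557) (.two (nat_lit 4194304) (nat_lit 28791808145) (.one (nat_lit 28760352434) .nil)))))),
   .two (nat_lit 159251431536) (nat_lit 46477082819) (.two (nat_lit 9934209039) (nat_lit 12620662089) (.two (nat_lit 169869320) (nat_lit 3527411230) (.two (nat_lit 2097157) (nat_lit 809504673) (.two (nat_lit 2097153) (nat_lit 4634711350) (.two (nat_lit 1048576) (nat_lit 4202662) (.one (nat_lit 1059468) .nil)))))),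
   .two (nat_lit 185027526770) (nat_lit 47596961987) (.two (nat_lit 2969567247) (nat_lit 11584669214) (.two (nat_lit 184549381) (nat_lit 809504664) (.two (nat_lit 37748737) (nat_lit 156573375051) (.two (nat_lit 1048576) (nat_lit 9936314504) (.one (nat_lit 4205197) .nil))))),
   .two (nat_lit 2349858929) (nat_lit 641728871) (.two (nat_lit 165526110223) (nat_lit 739248649) (.two (nat_lit 171966469) (nat_lit 184553347) (.two (nat_lit 4194305) (nat_lit 1426070197) (.two (nat_lit 1048576) (nat_lit 2106590) (.one (nat_lit 1059470) .nil))))),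
   .two (nat_lit 11559501890) (nat_lit 12050236017) (.two (nat_lit 272629775) (nat_lit 10351543596) (.two (nat_lit 83886088) (nat_lit 11580476888) (.two (nat_lit 11492392964) (nat_lit 843059076) (.two (nat_lit 37748737) (nat_lit 46992989689) (.two (nat_lit 16777216) (nat_lit 19100869686) (.one (nat_lit 8399503) .nil)))))),
   .two (nat_lit 184549441) (nat_lit 159224169314) (.two (nat_lit 184549384) (nat_lit 11484008328) (.two (nat_lit 8388609) (nat_lit 183861516879) (.two (nat_lit 8388608) (nat_lit 16786655) (.one (nat_lit 4638910987) .nil)))),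
   .two (nat_lit 3525312576) (nat_lit 12620661377) (.two (nat_lit 28693233679) (nat_lit 46474986786) (.two (nat_lit 606076936) (nat_lit 1350568468) (.two (nat_lit 13191086085) (nat_lit 166237048711) (.two (nat_lit 156367847425) (nat_lit 166237051515) (.two (nat_lit 8388608) (nat_lit 3458211994) (.one (nat_lit 2108048) .nil)))))),
   .two (nat_lit 47596961858) (nat_lit 159217877187) (.two (nat_lit 10336862223) (nat_lit 2432697718) (.two (nat_lit 1849688072) (nat_lit 3458205214) (.two (nat_lit 10372513797) (nat_lit 183947497352) (.two (nat_lit 612368385) (nat_lit 236983608) (.two (nat_lit 8388608) (nat_lit 18926805154) (.one (nat_lit 4613745109) .nil)))))),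
   .two (nat_lit 8388672) (nat_lit 156367847619) (.two (nat_lit 8388623) (nat_lit 2923431203) (.two (nat_lit 8388616) (nat_lit 306185758) (.two (nat_lit 8388612) (nat_lit 4634709891) (.two (nat_lit 8388609) (nat_lit 2353009981) (.two (nat_lit 16777216) (nat_lit 166199305152) (.one (nat_lit 813705721) .nil)))))),
   .two (nat_lit 47548727360) (nat_lit 839909736) (.two (nat_lit 169869327) (nat_lit 11525948758) (.two (nat_lit 285212680) (nat_lit 168823323) (.two (nat_lit 285212677) (nat_lit 21207454753) (.two (nat_lit 9781116929) (nat_lit 1913657961) (.two (nat_lit 1048576) (nat_lit 2106593) (.one (nat_lit 16788114) .nil)))))),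
   .two (nat_lit 11559501888) (nat_lit 46507491970) (.two (nat_lit 9948889103) (nat_lit 673186658) (.two (nat_lit 1291845640) (nat_lit 606079505) (.two (nat_lit 2969567237) (nat_lit 183947498534) (.two (nat_lit 2097153) (nat_lit 9781125276) (.one (nat_lit 20738746032) .nil))))),
   .two (nat_lit 11577327682) (nat_lit 11513365166) (.two (nat_lit 184549391) (nat_lit 19027462663) (.two (nat_lit 16777221) (nat_lit 19093525521) (.two (nat_lit 16777217) (nat_lit 156567083643) (.two (nat_lit 1048576) (nat_lit 874521615) (.one (nat_lit 1224747500) .nil))))),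
   .two (nat_lit 184419352690) (nat_lit 1862271337) (.two (nat_lit 183848927247) (nat_lit 889193804) (.two (nat_lit 19596836872) (nat_lit 3560967653) (.two (nat_lit 13191086085) (nat_lit 9915338644) (.two (nat_lit 34603009) (nat_lit 10955527484) (.two (nat_lit 1048576) (nat_lit 4634715160) (.one (nat_lit 9966725614) .nil)))))),
   .two (nat_lit 218103873) (nat_lit 183848927872) (.two (nat_lit 654311439) (nat_lit 159253529906) (.two (nat_lit 4194312) (nat_lit 9948890653) (.two (nat_lit 171966469) (nat_lit 117444512) (.two (nat_lit 37748737) (nat_lit 11510225563) (.two (nat_lit 1048576) (nat_lit 3525321829) (.one (nat_lit 156567087667) .nil)))))),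
   .two (nat_lit 11479810114) (nat_lit 183953785489) (.two (nat_lit 11479810063) (nat_lit 156372043047) (.two (nat_lit 276824072) (nat_lit 158079126025) (.two (nat_lit 809500677) (nat_lit 166237050172) (.two (nat_lit 1048576) (nat_lit 157043138710) (.one (nat_lit 8399509) .nil))))),
   .two (nat_lit 2316304496) (nat_lit 21827158211) (.two (nat_lit 3460300815) (nat_lit 3036677501) (.two (nat_lit 285212680) (nat_lit 2956986894) (.two (nat_lit 171966469) (nat_lit 620762422) (.two (nat_lit 4194304) (nat_lit 18941485204) (.one (nat_lit 2886739640) .nil))))),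
   .two (nat_lit 4613734466) (nat_lit 239076011) (.two (nat_lit 4613734415) (nat_lit 19599983458) (.two (nat_lit 46407876616) (nat_lit 46980401682) (.two (nat_lit 2097157) (nat_lit 218107808) (.two (nat_lit 34603009) (nat_lit 28691143323) (.two (nat_lit 4194304) (nat_lit 605037663) (.one (nat_lit 1059478) .nil)))))),
   .two (nat_lit 46407876725) (nat_lit 117440707) (.two (nat_lit 1795162127) (nat_lit 12114199887) (.two (nat_lit 46407876616) (nat_lit 3573549597) (.two (nat_lit 2097157) (nat_lit 156380435445) (.two (nat_lit 34603009) (nat_lit 46474992210) (.two (nat_lit 1048576) (nat_lit 2106601) (.one (nat_lit 21777885809) .nil)))))),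
   .two (nat_lit 285212736) (nat_lit 2316305059) (.two (nat_lit 1191182351) (nat_lit 1913652553) (.two (nat_lit 705691656) (nat_lit 822085150) (.two (nat_lit 2902458372) (nat_lit 11611934604) (.two (nat_lit 50331649) (nat_lit 20737694301) (.two (nat_lit 16777216) (nat_lit 166197208157) (.one (nat_lit 156364712407) .nil)))))),
   .two (nat_lit 9948889155) (nat_lit 1914700413) (.two (nat_lit 46407876623) (nat_lit 855639379) (.two (nat_lit 11559501832) (nat_lit 806357518) (.two (nat_lit 270532613) (nat_lit 16782646) (.two (nat_lit 1048576) (nat_lit 11593064595) (.one (nat_lit 1059479) .nil))))),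
   .two (nat_lit 3458203714) (nat_lit 19142804130) (.two (nat_lit 9948889103) (nat_lit 673186658) (.two (nat_lit 3458203656) (nat_lit 28705820570) (.two (nat_lit 2097153) (nat_lit 28705822010) (.two (nat_lit 2097152) (nat_lit 166144778380) (.one (nat_lit 2107067) .nil))))),
   .two (nat_lit 10506731587) (nat_lit 4647289027) (.two (nat_lit 166132187151) (nat_lit 159266112841) (.two (nat_lit 166132187144) (nat_lit 2332037003) (.two (nat_lit 9768534017) (nat_lit 11593061693) (.two (nat_lit 4194304) (nat_lit 788537484) (.one (nat_lit 185023343050) .nil))))),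
   .two (nat_lit 184993972290) (nat_lit 165525061994) (.two (nat_lit 639631375) (nat_lit 37320918362) (.two (nat_lit 11476664328) (nat_lit 12054431262) (.two (nat_lit 806354949) (nat_lit 209719176) (.two (nat_lit 2097153) (nat_lit 159257728317) (.two (nat_lit 2097152) (nat_lit 672146601) (.one (nat_lit 20638083700) .nil)))))),
   .two (nat_lit 16777280) (nat_lit 10335813992) (.two (nat_lit 822083599) (nat_lit 20707280182) (.two (nat_lit 1779433480) (nat_lit 184552874) (.two (nat_lit 183848927236) (nat_lit 47596966935) (.two (nat_lit 37748737) (nat_lit 37262204409) (.two (nat_lit 16777216) (nat_lit 4203754) (.one (nat_lit 4205209) .nil)))))),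
   .two (nat_lit 9899606127) (nat_lit 19096666307) (.two (nat_lit 2961178639) (nat_lit 184419353443) (.two (nat_lit 10369368072) (nat_lit 184419354142) (.two (nat_lit 638582789) (nat_lit 46477086613) (.two (nat_lit 8388609) (nat_lit 269491756) (.two (nat_lit 8388608) (nat_lit 1058028) (.one (nat_lit 166237055610) .nil)))))),
   .two (nat_lit 158646403137) (nat_lit 11559502019) (.two (nat_lit 157036838927) (nat_lit 174752531298) (.two (nat_lit 46407876616) (nat_lit 318769679) (.two (nat_lit 158143086597) (nat_lit 3036681179) (.two (nat_lit 2097153) (nat_lit 1779440201) (.two (nat_lit 2097152) (nat_lit 1058029) (.one (nat_lit 1277175474) .nil)))))),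
   .two (nat_lit 184993972289) (nat_lit 1048936) (.two (nat_lit 9866051599) (nat_lit 10913580348) (.two (nat_lit 9866051592) (nat_lit 158083319326) (.two (nat_lit 1343225861) (nat_lit 13228838802) (.two (nat_lit 605028353) (nat_lit 13228840253) (.two (nat_lit 1048576) (nat_lit 21785224271) (.one (nat_lit 1059483) .nil)))))),
   .two (nat_lit 9866051650) (nat_lit 102760811) (.two (nat_lit 176160783) (nat_lit 46407877971) (.two (nat_lit 176160776) (nat_lit 2921335327) (.two (nat_lit 8388613) (nat_lit 35655564) (.two (nat_lit 8388609) (nat_lit 21778930333) (.two (nat_lit 1048576) (nat_lit 47555028080) (.one (nat_lit 8399516) .nil)))))),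
   .two (nat_lit 739246146) (nat_lit 4043309924) (.two (nat_lit 754974728) (nat_lit 20737690129) (.two (nat_lit 11543773189) (nat_lit 10351546259) (.two (nat_lit 34603009) (nat_lit 174701156968) (.two (nat_lit 1048576) (nat_lit 16786671) (.one (nat_lit 16788125) .nil))))),
   .two (nat_lit 2416967796) (nat_lit 185035915459) (.two (nat_lit 156968681487) (nat_lit 10351543605) (.two (nat_lit 1846542344) (nat_lit 46422560649) (.two (nat_lit 9765388289) (nat_lit 46523225400) (.two (nat_lit 2097152) (nat_lit 47581242325) (.one (nat_lit 1059330) .nil))))),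
   .two (nat_lit 183949590645) (nat_lit 10343153859) (.two (nat_lit 11479810063) (nat_lit 10343154530) (.two (nat_lit 11479810056) (nat_lit 1954549642) (.two (nat_lit 8388609) (nat_lit 9902758489) (.two (nat_lit 4194304) (nat_lit 28093456547) (.one (nat_lit 8399518) .nil))))),
   .two (nat_lit 2969567298) (nat_lit 10001318512) (.two (nat_lit 2969567247) (nat_lit 69206884) (.two (nat_lit 11559501832) (nat_lit 10436479511) (.two (nat_lit 806354949) (nat_lit 16782647) (.two (nat_lit 1048576) (nat_lit 1862277999) (.one (nat_lit 1176513144) .nil))))),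
   .two (nat_lit 158176641137) (nat_lit 158177689957) (.two (nat_lit 169869327) (nat_lit 10439624056) (.two (nat_lit 169869320) (nat_lit 184419355155) (.two (nat_lit 705691652) (nat_lit 706745358) (.two (nat_lit 34603009) (nat_lit 158647458440) (.two (nat_lit 4194304) (nat_lit 156465374208) (.one (nat_lit 8399519) .nil)))))),
   .two (nat_lit 50331715) (nat_lit 12155093660) (.two (nat_lit 1291845647) (nat_lit 10940842850) (.two (nat_lit 12054429704) (nat_lit 4043311622) (.two (nat_lit 1176502277) (nat_lit 2936018234) (.two (nat_lit 2097152) (nat_lit 158662140055) (.one (nat_lit 8399520) .nil))))),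
   .two (nat_lit 876609644) (nat_lit 9781117123) (.two (nat_lit 37748751) (nat_lit 11492394269) (.two (nat_lit 156367847432) (nat_lit 2954889742) (.two (nat_lit 4194308) (nat_lit 16782386) (.two (nat_lit 2097153) (nat_lit 16784953) (.two (nat_lit 16777216) (nat_lit 3527418950) (.one (nat_lit 4205217) .nil)))))),
   .two (nat_lit 1417674863) (nat_lit 46422557035) (.two (nat_lit 713031695) (nat_lit 9781118493) (.two (nat_lit 16777220) (nat_lit 12054433669) (.two (nat_lit 41943041) (nat_lit 28101843544) (.two (nat_lit 1048576) (nat_lit 9915344557) .nil)))),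
   .two (nat_lit 739246146) (nat_lit 12054430348) (.two (nat_lit 739246095) (nat_lit 165532402531) (.two (nat_lit 739246088) (nat_lit 20644366850) (.two (nat_lit 11543773189) (nat_lit 10510931260) (.two (nat_lit 16777216) (nat_lit 873473723) .nil)))),
   .two (nat_lit 184549441) (nat_lit 272629955) (.two (nat_lit 1178599439) (nat_lit 13221496158) (.two (nat_lit 47563407368) (nat_lit 46980401690) (.two (nat_lit 16777221) (nat_lit 339743744) (.two (nat_lit 16777217) (nat_lit 157038942891) (.two (nat_lit 1048576) (nat_lit 19545466093) (.one (nat_lit 1913661106) .nil)))))),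
   .two (nat_lit 47555018816) (nat_lit 3525312707) (.two (nat_lit 46407876623) (nat_lit 46414169373) (.two (nat_lit 612368392) (nat_lit 10369370630) (.two (nat_lit 75497477) (nat_lit 2349863949) (.two (nat_lit 34603009) (nat_lit 21778930263) (.two (nat_lit 1048576) (nat_lit 2106615) (.one (nat_lit 10335824371) .nil)))))),
   .two (nat_lit 880803953) (nat_lit 156367847619) (.two (nat_lit 713031695) (nat_lit 11513365840) (.two (nat_lit 713031688) (nat_lit 1379928586) (.two (nat_lit 41943045) (nat_lit 10372517768) (.two (nat_lit 620756993) (nat_lit 1279269465) (.two (nat_lit 8388608) (nat_lit 4203769) (.one (nat_lit 8399525) .nil)))))),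
   .two (nat_lit 272629824) (nat_lit 1746928250) (.two (nat_lit 205520911) (nat_lit 1310722586) (.two (nat_lit 1276116996) (nat_lit 165528211347) (.two (nat_lit 9765388289) (nat_lit 1310726775) (.two (nat_lit 1048576) (nat_lit 1746936869) (.one (nat_lit 10372524556) .nil))))),
   .two (nat_lit 11559501888) (nat_lit 9966715243) (.two (nat_lit 822083599) (nat_lit 1950352723) (.two (nat_lit 46409973768) (nat_lit 3003124256) (.two (nat_lit 159216828421) (nat_lit 46992985992) (.two (nat_lit 4194305) (nat_lit 156548207933) (.two (nat_lit 1048576) (nat_lit 10372523698) .nil))))),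
   .two (nat_lit 2902458434) (nat_lit 19599983198) (.two (nat_lit 2902458383) (nat_lit 19599983458) (.two (nat_lit 9781116936) (nat_lit 9936308777) (.two (nat_lit 11479810053) (nat_lit 2969572663) (.two (nat_lit 4194304) (nat_lit 19612575407) .nil)))),
   .two (nat_lit 11559501891) (nat_lit 1913651395) (.two (nat_lit 50331663) (nat_lit 156372043115) (.two (nat_lit 8388616) (nat_lit 174768261637) (.two (nat_lit 176160773) (nat_lit 34608085) (.two (nat_lit 34603009) (nat_lit 11551119969) (.two (nat_lit 8388608) (nat_lit 1058043) (.one (nat_lit 1059494) .nil)))))),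
   .two (nat_lit 46510637121) (nat_lit 9881780582) (.two (nat_lit 2889875471) (nat_lit 9881781790) (.two (nat_lit 721420292) (nat_lit 21210599308) (.two (nat_lit 9781116929) (nat_lit 272636598) (.two (nat_lit 16777216) (nat_lit 4203776) (.one (nat_lit 11479820857) .nil))))),
   .two (nat_lit 2902458435) (nat_lit 20707279208) (.two (nat_lit 156367847439) (nat_lit 2099252) (.two (nat_lit 157036838920) (nat_lit 16780786) (.two (nat_lit 18926796805) (nat_lit 12050240526) (.two (nat_lit 2097153) (nat_lit 19532880520) (.two (nat_lit 2097152) (nat_lit 1950360542) (.one (nat_lit 2108072) .nil)))))),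
   .two (nat_lit 11593056321) (nat_lit 37313577317) (.two (nat_lit 165526110223) (nat_lit 1175456267) (.two (nat_lit 708837381) (nat_lit 16782390) (.two (nat_lit 605028353) (nat_lit 19096672889) (.two (nat_lit 1048576) (nat_lit 2106635) (.one (nat_lit 2108076) .nil))))),
   .two (nat_lit 285212736) (nat_lit 1212154723) (.two (nat_lit 183848927240) (nat_lit 285214237) (.two (nat_lit 13191086085) (nat_lit 19142808888) (.two (nat_lit 4194304) (nat_lit 9781125272) (.one (nat_lit 4205229) .nil)))),
   .two (nat_lit 159224168563) (nat_lit 4043309415) (.two (nat_lit 11559501839) (nat_lit 813696339) (.two (nat_lit 721420296) (nat_lit 166136385431) (.two (nat_lit 50331649) (nat_lit 1283463837) (.two (nat_lit 8388608) (nat_lit 822093023) (.one (nat_lit 16788143) .nil))))),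
   .two (nat_lit 306184258) (nat_lit 183946445478) (.two (nat_lit 11543773199) (nat_lit 1224738135) (.two (nat_lit 12114198536) (nat_lit 10003417622) (.two (nat_lit 28690087941) (nat_lit 1346376691) (.two (nat_lit 37748737) (nat_lit 2365594198) (.two (nat_lit 4194304) (nat_lit 16786703) (.one (nat_lit 318777909) .nil)))))),
   .two (nat_lit 16777280) (nat_lit 10947134072) (.two (nat_lit 184993972239) (nat_lit 16778530) (.two (nat_lit 1350565896) (nat_lit 50335619) (.two (nat_lit 9768534017) (nat_lit 47596970138) (.one (nat_lit 1786784385) .nil)))),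
   .two (nat_lit 285212738) (nat_lit 157038936259) (.two (nat_lit 285212687) (nat_lit 46980400670) (.two (nat_lit 2889875460) (nat_lit 156581760929) (.two (nat_lit 4194305) (nat_lit 183928625757) (.two (nat_lit 16777216) (nat_lit 4203794) (.one (nat_lit 18928904823) .nil))))),
   .two (nat_lit 83886190) (nat_lit 13195280579) (.two (nat_lit 50331663) (nat_lit 142607676) (.two (nat_lit 41943048) (nat_lit 11492396931) (.two (nat_lit 8388609) (nat_lit 3003127101) (.two (nat_lit 8388608) (nat_lit 16786707) (.one (nat_lit 28798101165) .nil))))),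
   .two (nat_lit 11584667714) (nat_lit 1947205827) (.two (nat_lit 28757196815) (nat_lit 156573370417) (.two (nat_lit 11543773192) (nat_lit 20644366848) (.two (nat_lit 705691652) (nat_lit 166136385433) (.two (nat_lit 605028353) (nat_lit 8395453) (.two (nat_lit 8388608) (nat_lit 10000278602) (.one (nat_lit 1059505) .nil)))))),
   .two (nat_lit 46414168130) (nat_lit 19599983201) (.two (nat_lit 46414168079) (nat_lit 71305769) (.two (nat_lit 156367847429) (nat_lit 183953788808) (.two (nat_lit 37748737) (nat_lit 183953791567) (.two (nat_lit 8388608) (nat_lit 4203796) (.one (nat_lit 9940511172) .nil))))),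
   .two (nat_lit 285212736) (nat_lit 75498113) (.two (nat_lit 8388623) (nat_lit 10552870204) (.two (nat_lit 285212680) (nat_lit 183853124115) (.two (nat_lit 16777220) (nat_lit 46414172035) (.two (nat_lit 16777217) (nat_lit 158183989388) (.one (nat_lit 10921977517) .nil))))),
   .two (nat_lit 20644364354) (nat_lit 4601152160) (.two (nat_lit 809500687) (nat_lit 1954547058) (.two (nat_lit 4601151496) (nat_lit 2961182134) (.two (nat_lit 13195280389) (nat_lit 156364705683) (.two (nat_lit 37748737) (nat_lit 1056319) (.two (nat_lit 4194304) (nat_lit 13187949593) (.one (nat_lit 8399538) .nil)))))),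
   .two (nat_lit 639631427) (nat_lit 2323645103) (.two (nat_lit 10370416655) (nat_lit 4196405) (.two (nat_lit 37748744) (nat_lit 10007610909) (.two (nat_lit 11484004357) (nat_lit 10942943131) (.two (nat_lit 4194305) (nat_lit 1210063463) (.two (nat_lit 16777216) (nat_lit 19530785742) (.one (nat_lit 2108083) .nil)))))),
   .two (nat_lit 19532873840) (nat_lit 1216348517) (.two (nat_lit 183853121551) (nat_lit 318768480) (.two (nat_lit 620757000) (nat_lit 1954548248) (.two (nat_lit 41943045) (nat_lit 46422562110) (.two (nat_lit 4194304) (nat_lit 8398109) (.one (nat_lit 608183992) .nil))))),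
   .two (nat_lit 285212736) (nat_lit 4601151683) (.two (nat_lit 11492392975) (nat_lit 3524264804) (.two (nat_lit 4194312) (nat_lit 50335619) (.two (nat_lit 4194305) (nat_lit 28772930877) (.two (nat_lit 1048576) (nat_lit 21223187392) (.one (nat_lit 12147763683) .nil))))),
   .two (nat_lit 37246468209) (nat_lit 807403879) (.two (nat_lit 218103823) (nat_lit 2887780896) (.two (nat_lit 2097157) (nat_lit 19142808888) (.two (nat_lit 1048576) (nat_lit 28772933767) (.one (nat_lit 1059509) .nil)))),
   .two (nat_lit 3464495169) (nat_lit 46510637697) (.two (nat_lit 10343153679) (nat_lit 809502238) (.two (nat_lit 46414168068) (nat_lit 11510222749) (.two (nat_lit 34603009) (nat_lit 9902758475) (.two (nat_lit 4194304) (nat_lit 1058081) (.one (nat_lit 47547689463) .nil))))),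
   .two (nat_lit 16777282) (nat_lit 47555018947) (.two (nat_lit 50331663) (nat_lit 2894071087) (.two (nat_lit 8388616) (nat_lit 285215230) (.two (nat_lit 176160773) (nat_lit 10385101867) (.two (nat_lit 612368385) (nat_lit 19109256750) (.two (nat_lit 16777216) (nat_lit 276833479) (.one (nat_lit 889203301) .nil)))))),
   .two (nat_lit 9906946115) (nat_lit 19545457319) (.two (nat_lit 165532401679) (nat_lit 2936014192) (.two (nat_lit 50331656) (nat_lit 1753220637) (.two (nat_lit 50331653) (nat_lit 46984597403) (.two (nat_lit 16777217) (nat_lit 276830830) (.two (nat_lit 1048576) (nat_lit 8398114) (.one (nat_lit 8399542) .nil)))))),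
   .two (nat_lit 46409973826) (nat_lit 2332033666) (.two (nat_lit 46409973775) (nat_lit 1191183902) (.two (nat_lit 4601151493) (nat_lit 174768264507) (.two (nat_lit 2097152) (nat_lit 20707287993) (.one (nat_lit 4205239) .nil)))),
   .two (nat_lit 8388672) (nat_lit 47548727653) (.two (nat_lit 713031695) (nat_lit 12115248502) (.two (nat_lit 158144135176) (nat_lit 158653745678) (.two (nat_lit 1745879045) (nat_lit 166136385416) (.two (nat_lit 8388609) (nat_lit 1056325) (.two (nat_lit 8388608) (nat_lit 1058083) (.one (nat_lit 746596923) .nil)))))),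
   .two (nat_lit 2969567296) (nat_lit 10907288161) (.two (nat_lit 174753579023) (nat_lit 3036677436) (.two (nat_lit 46978301960) (nat_lit 19612569486) (.two (nat_lit 2097153) (nat_lit 620762422) (.two (nat_lit 2097152) (nat_lit 16785575) (.one (nat_lit 184560198) .nil))))),
   .two (nat_lit 47555018817) (nat_lit 1178600099) (.two (nat_lit 4194319) (nat_lit 3028288798) (.two (nat_lit 4601151496) (nat_lit 713034269) (.two (nat_lit 158075977733) (nat_lit 4199484) (.two (nat_lit 4194305) (nat_lit 21811436157) (.two (nat_lit 1048576) (nat_lit 4203814) (.one (nat_lit 4205240) .nil)))))),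
   .two (nat_lit 37249613891) (nat_lit 2902459018) (.two (nat_lit 18928893967) (nat_lit 20652754289) (.two (nat_lit 822083592) (nat_lit 10003417625) (.two (nat_lit 12117344261) (nat_lit 21223183371) (.two (nat_lit 37748737) (nat_lit 620762422) (.two (nat_lit 4194304) (nat_lit 218112161) (.one (nat_lit 1916807820) .nil)))))),
   .two (nat_lit 11543773248) (nat_lit 9969860968) (.two (nat_lit 101711887) (nat_lit 1346372946) (.two (nat_lit 739246088) (nat_lit 184989780515) (.two (nat_lit 1779433477) (nat_lit 158649553898) (.two (nat_lit 34603009) (nat_lit 10338966129) (.two (nat_lit 4194304) (nat_lit 1058087) (.one (nat_lit 1059513) .nil)))))),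
   .two (nat_lit 8388675) (nat_lit 4647289027) (.two (nat_lit 176160783) (nat_lit 20652754220) (.two (nat_lit 612368392) (nat_lit 12047092244) (.two (nat_lit 183845781508) (nat_lit 11584672731) (.two (nat_lit 34603009) (nat_lit 158183988705) (.two (nat_lit 8388608) (nat_lit 9765397758) (.one (nat_lit 1224747622) .nil)))))),
   .two (nat_lit 46508539969) (nat_lit 13224640707) (.two (nat_lit 713031695) (nat_lit 174755677486) (.two (nat_lit 183848927240) (nat_lit 184986636191) (.two (nat_lit 2097153) (nat_lit 13187947103) (.two (nat_lit 2097152) (nat_lit 10369376419) (.one (nat_lit 46507501239) .nil))))),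
   .two (nat_lit 2969567297) (nat_lit 10907287910) (.two (nat_lit 2969567247) (nat_lit 10907289118) (.two (nat_lit 169869316) (nat_lit 11626616120) (.two (nat_lit 2097152) (nat_lit 16786736) (.one (nat_lit 16788154) .nil)))),
   .two (nat_lit 50331715) (nat_lit 243270285) (.two (nat_lit 721420303) (nat_lit 11484005220) (.two (nat_lit 46984593416) (nat_lit 1224740759) (.two (nat_lit 8388609) (nat_lit 46422563695) (.one (nat_lit 16787132) .nil)))),
   .two (nat_lit 1847590978) (nat_lit 3472884388) (.two (nat_lit 2902458383) (nat_lit 304088365) (.two (nat_lit 50331656) (nat_lit 1753220637) (.two (nat_lit 713031685) (nat_lit 28101840782) (.two (nat_lit 16777217) (nat_lit 2103911) (.two (nat_lit 2097152) (nat_lit 8398131) (.one (nat_lit 2108091) .nil)))))),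
   .two (nat_lit 272629826) (nat_lit 310378691) (.two (nat_lit 11479810063) (nat_lit 20711474486) (.two (nat_lit 183853121544) (nat_lit 705694231) (.two (nat_lit 705691652) (nat_lit 10003420124) (.two (nat_lit 34603009) (nat_lit 10913585784) (.two (nat_lit 4194304) (nat_lit 168830241) (.one (nat_lit 159219984938) .nil)))))),
   .two (nat_lit 47555018816) (nat_lit 156533523038) (.two (nat_lit 3525312527) (nat_lit 612369724) (.two (nat_lit 639631368) (nat_lit 3464496670) (.two (nat_lit 203423749) (nat_lit 47555022724) (.two (nat_lit 2097153) (nat_lit 343938358) (.two (nat_lit 2097152) (nat_lit 20644372641) (.one (nat_lit 1954556353) .nil)))))),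
   .two (nat_lit 3464495171) (nat_lit 50331843) (.two (nat_lit 47555018767) (nat_lit 50333213) (.two (nat_lit 176160772) (nat_lit 16782647) (.two (nat_lit 8388608) (nat_lit 19142813367) .nil))),
   .two (nat_lit 243269699) (nat_lit 1049228) (.two (nat_lit 1350565903) (nat_lit 28790752541) (.two (nat_lit 4605345800) (nat_lit 184416209422) (.two (nat_lit 183845781508) (nat_lit 12620664728) (.two (nat_lit 4194305) (nat_lit 183953791679) (.two (nat_lit 1048576) (nat_lit 4203830) (.one (nat_lit 4205245) .nil)))))),
   .two (nat_lit 754974785) (nat_lit 19529728362) (.two (nat_lit 9881780239) (nat_lit 183913939812) (.two (nat_lit 1795162120) (nat_lit 183947495957) (.two (nat_lit 705691652) (nat_lit 50336822) (.two (nat_lit 2097153) (nat_lit 20737694371) (.two (nat_lit 2097152) (nat_lit 1058106) (.one (nat_lit 1276127793) .nil)))))),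
   .two (nat_lit 184993972290) (nat_lit 158649549443) (.two (nat_lit 276824079) (nat_lit 183949591838) (.two (nat_lit 101711880) (nat_lit 679480763) (.two (nat_lit 11476664324) (nat_lit 174692765587) (.two (nat_lit 4194305) (nat_lit 11618229774) (.two (nat_lit 1048576) (nat_lit 813704486) (.one (nat_lit 4205246) .nil)))))),
   .two (nat_lit 285212736) (nat_lit 13191086275) (.two (nat_lit 2902458383) (nat_lit 166197201435) (.two (nat_lit 4194308) (nat_lit 50335619) (.two (nat_lit 4194305) (nat_lit 28772930877) (.two (nat_lit 2097152) (nat_lit 21223187392) (.one (nat_lit 2108095) .nil))))),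
   .two (nat_lit 8388672) (nat_lit 1291846498) (.two (nat_lit 8388616) (nat_lit 1224739331) (.two (nat_lit 8388612) (nat_lit 183928624089) (.two (nat_lit 41943041) (nat_lit 11525954124) (.two (nat_lit 16777216) (nat_lit 310387692) (.one (nat_lit 8399552) .nil))))),
   .two (nat_lit 11577327682) (nat_lit 3565159084) (.two (nat_lit 159224168463) (nat_lit 873465191) (.two (nat_lit 184986632200) (nat_lit 166136384009) (.two (nat_lit 12047089669) (nat_lit 10376713184) (.two (nat_lit 8388609) (nat_lit 806361763) (.two (nat_lit 8388608) (nat_lit 1913660428) (.one (nat_lit 1059521) .nil)))))),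
   .two (nat_lit 2969567298) (nat_lit 11007951043) (.two (nat_lit 9948889103) (nat_lit 12148802864) (.two (nat_lit 10504634376) (nat_lit 16780794) (.two (nat_lit 3525312517) (nat_lit 1191187499) (.two (nat_lit 16777217) (nat_lit 4028636738) (.two (nat_lit 2097152) (nat_lit 16786750) (.one (nat_lit 9867110964) .nil)))))),
   .two (nat_lit 158083317877) (nat_lit 822083779) (.two (nat_lit 50331663) (nat_lit 18933090816) (.two (nat_lit 8388613) (nat_lit 11492396933) (.two (nat_lit 8388609) (nat_lit 158091711802) (.two (nat_lit 16777216) (nat_lit 11484013723) (.one (nat_lit 16788162) .nil))))),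
   .two (nat_lit 158083317825) (nat_lit 620757644) (.two (nat_lit 50331663) (nat_lit 276826656) (.two (nat_lit 75497477) (nat_lit 165540795705) (.two (nat_lit 1048576) (nat_lit 158091714696) (.one (nat_lit 16788163) .nil)))),
   .two (nat_lit 285212736) (nat_lit 46980399710) (.two (nat_lit 4601151503) (nat_lit 9781118242) (.two (nat_lit 272629768) (nat_lit 2902462339) (.two (nat_lit 4194305) (nat_lit 11593061693) (.two (nat_lit 4194304) (nat_lit 16786752) (.one (nat_lit 16788164) .nil))))),
   .two (nat_lit 9934209091) (nat_lit 12155093352) (.two (nat_lit 4605345807) (nat_lit 156569175330) (.two (nat_lit 37748744) (nat_lit 12624859026) (.two (nat_lit 606076929) (nat_lit 243276423) (.two (nat_lit 2097152) (nat_lit 4203841) (.one (nat_lit 8399557) .nil))))),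
   .two (nat_lit 1291845699) (nat_lit 12048138933) (.two (nat_lit 1358954511) (nat_lit 9899607582) (.two (nat_lit 34603013) (nat_lit 28806483873) (.two (nat_lit 2097153) (nat_lit 2886736460) (.two (nat_lit 2097152) (nat_lit 11610891376) (.one (nat_lit 336603823) .nil))))),
   .two (nat_lit 847249475) (nat_lit 10015998147) (.two (nat_lit 183853121551) (nat_lit 721421697) (.two (nat_lit 183853121544) (nat_lit 16778781) (.two (nat_lit 13195280389) (nat_lit 2365591449) (.two (nat_lit 41943041) (nat_lit 20719867197) (.two (nat_lit 4194304) (nat_lit 9772737758) (.one (nat_lit 8399560) .nil)))))),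
   .two (nat_lit 12117344321) (nat_lit 10335813991) (.two (nat_lit 12117344271) (nat_lit 839910714) (.two (nat_lit 11543773192) (nat_lit 171969031) (.two (nat_lit 11476664324) (nat_lit 20640173977) (.two (nat_lit 34603009) (nat_lit 10338966126) (.two (nat_lit 1048576) (nat_lit 4203845) (.one (nat_lit 1059529) .nil)))))),
   .two (nat_lit 2969567299) (nat_lit 41943235) (.two (nat_lit 218103823) (nat_lit 10913580361) (.two (nat_lit 218103816) (nat_lit 10007610909) (.two (nat_lit 2969567237) (nat_lit 2323648417) (.two (nat_lit 16777217) (nat_lit 184423552317) (.two (nat_lit 2097152) (nat_lit 8398151) (.one (nat_lit 16788170) .nil)))))),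
   .two (nat_lit 4601151552) (nat_lit 21812478575) (.two (nat_lit 813694991) (nat_lit 2420114752) (.two (nat_lit 8388616) (nat_lit 159217878557) (.two (nat_lit 8388612) (nat_lit 174688572400) (.two (nat_lit 8388609) (nat_lit 19530783401) (.two (nat_lit 8388608) (nat_lit 19530785891) (.one (nat_lit 2108108) .nil)))))),
   .two (nat_lit 8388672) (nat_lit 21777875301) (.two (nat_lit 8388623) (nat_lit 46473938294) (.two (nat_lit 104857608) (nat_lit 1052156) (.two (nat_lit 156367847429) (nat_lit 1853886344) (.two (nat_lit 34603009) (nat_lit 19537074776) (.two (nat_lit 1048576) (nat_lit 8398152) (.one (nat_lit 1059533) .nil)))))),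
   .two (nat_lit 11577327732) (nat_lit 21827158211) (.two (nat_lit 12047089679) (nat_lit 3573548361) (.two (nat_lit 12047089672) (nat_lit 754976286) (.two (nat_lit 184986632197) (nat_lit 352325537) (.two (nat_lit 156364701697) (nat_lit 156481100466) (.two (nat_lit 4194304) (nat_lit 166245441690) (.one (nat_lit 1059536) .nil)))))),
   .two (nat_lit 243269699) (nat_lit 166130090625) (.two (nat_lit 75497487) (nat_lit 1309672756) (.two (nat_lit 11551113224) (nat_lit 19093521949) (.two (nat_lit 1176502277) (nat_lit 34606993) (.two (nat_lit 612368385) (nat_lit 11578382946) (.two (nat_lit 8388608) (nat_lit 11006911634) (.one (nat_lit 1059537) .nil)))))),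
   .two (nat_lit 11610882156) (nat_lit 10007609539) (.two (nat_lit 11551113231) (nat_lit 12147754269) (.two (nat_lit 21785214984) (nat_lit 12617518568) (.two (nat_lit 183845781508) (nat_lit 158077030301) (.two (nat_lit 8388609) (nat_lit 1411390143) (.two (nat_lit 2097152) (nat_lit 8398154) (.one (nat_lit 2108114) .nil)))))),
   .two (nat_lit 4605345905) (nat_lit 158144135363) (.two (nat_lit 1277165583) (nat_lit 156372042595) (.two (nat_lit 1277165576) (nat_lit 746588678) (.two (nat_lit 47555018757) (nat_lit 2101128) (.two (nat_lit 606076929) (nat_lit 10947141773) (.one (nat_lit 174759881203) .nil))))),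
   .two (nat_lit 10504634435) (nat_lit 10913579365) (.two (nat_lit 47555018767) (nat_lit 11611932022) (.two (nat_lit 159224168456) (nat_lit 11511269906) (.two (nat_lit 16777221) (nat_lit 13188994012) (.two (nat_lit 16777217) (nat_lit 184987687508) (.two (nat_lit 2097152) (nat_lit 8398157) (.one (nat_lit 8399572) .nil)))))),
   .two (nat_lit 28690088003) (nat_lit 19537068675) (.two (nat_lit 2887778319) (nat_lit 165532402531) (.two (nat_lit 2887778312) (nat_lit 165532403230) (.two (nat_lit 2097157) (nat_lit 10343157636) (.two (nat_lit 606076929) (nat_lit 3457161893) (.two (nat_lit 1048576) (nat_lit 12618573036) (.one (nat_lit 235940313) .nil)))))),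
   .two (nat_lit 1178599491) (nat_lit 9772728951) (.two (nat_lit 8388623) (nat_lit 10540288040) (.two (nat_lit 46409973768) (nat_lit 343935486) (.two (nat_lit 4601151493) (nat_lit 8393792) (.two (nat_lit 156367847425) (nat_lit 847256232) (.two (nat_lit 4194304) (nat_lit 3028296968) (.one (nat_lit 4205270) .nil)))))),
   .two (nat_lit 285212736) (nat_lit 158179787111) (.two (nat_lit 9781116943) (nat_lit 12114199938) (.two (nat_lit 68157448) (nat_lit 16781187) (.two (nat_lit 4194305) (nat_lit 269491672) (.two (nat_lit 4194304) (nat_lit 1058082) (.one (nat_lit 28760353212) .nil))))),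
   .two (nat_lit 8388672) (nat_lit 11610882405) (.two (nat_lit 713031695) (nat_lit 183949591886) (.two (nat_lit 4605345800) (nat_lit 303041041) (.two (nat_lit 638582789) (nat_lit 10942943111) (.two (nat_lit 37748737) (nat_lit 3524270786) (.two (nat_lit 1048576) (nat_lit 12148809877) (.one (nat_lit 202385084) .nil)))))),
   .two (nat_lit 8388672) (nat_lit 873464405) (.two (nat_lit 8388623) (nat_lit 166229706066) (.two (nat_lit 8388616) (nat_lit 47547682374) (.two (nat_lit 4194308) (nat_lit 847254587) (.two (nat_lit 4194305) (nat_lit 4632615692) (.two (nat_lit 1048576) (nat_lit 3560972447) (.one (nat_lit 20740843191) .nil)))))),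
   .two (nat_lit 9934209091) (nat_lit 142607010) (.two (nat_lit 1277165583) (nat_lit 156372042595) (.two (nat_lit 1277165576) (nat_lit 12121542564) (.two (nat_lit 8388609) (nat_lit 2921339494) (.two (nat_lit 1048576) (nat_lit 12048148146) .nil)))),
   .two (nat_lit 11551113281) (nat_lit 47581233897) (.two (nat_lit 4194319) (nat_lit 10510927165) (.two (nat_lit 4194312) (nat_lit 166136385298) (.two (nat_lit 4194308) (nat_lit 235933585) (.two (nat_lit 4194305) (nat_lit 11517565620) (.two (nat_lit 1048576) (nat_lit 104865955) (.one (nat_lit 10372523702) .nil)))))),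
   .two (nat_lit 4194369) (nat_lit 184993972821) (.two (nat_lit 4194319) (nat_lit 184993973533) (.two (nat_lit 809500680) (nat_lit 10906242798) (.two (nat_lit 4194308) (nat_lit 235934891) (.two (nat_lit 8388609) (nat_lit 28760350668) (.two (nat_lit 2097152) (nat_lit 1058402) (.one (nat_lit 1059555) .nil)))))),
   .two (nat_lit 18933088367) (nat_lit 19130220902) (.two (nat_lit 272629775) (nat_lit 1753220638) (.two (nat_lit 4194308) (nat_lit 46514836794) (.two (nat_lit 4194304) (nat_lit 8396979) (.one (nat_lit 2319460013) .nil)))),
   .two (nat_lit 310378562) (nat_lit 708838033) (.two (nat_lit 184993972239) (nat_lit 11577328977) (.two (nat_lit 68157448) (nat_lit 183853125510) (.two (nat_lit 4194305) (nat_lit 19033756988) (.two (nat_lit 8388608) (nat_lit 9969869851) (.one (nat_lit 1379936812) .nil))))),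
   .two (nat_lit 713031746) (nat_lit 2990539442) (.two (nat_lit 713031695) (nat_lit 19599983944) (.two (nat_lit 713031688) (nat_lit 721423867) (.two (nat_lit 41943045) (nat_lit 19042144147) (.two (nat_lit 41943041) (nat_lit 1761614520) (.two (nat_lit 8388608) (nat_lit 165540799727) (.one (nat_lit 165540801181) .nil)))))),
   .two (nat_lit 4601151552) (nat_lit 47596962504) (.two (nat_lit 1795162127) (nat_lit 1312818557) (.two (nat_lit 16777224) (nat_lit 46510640936) (.two (nat_lit 4194308) (nat_lit 46992987454) (.two (nat_lit 4194304) (nat_lit 3525322417) .nil)))),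
   .two (nat_lit 1358954563) (nat_lit 12617515669) (.two (nat_lit 9781116943) (nat_lit 9802090013) (.two (nat_lit 4194308) (nat_lit 18941482297) (.two (nat_lit 1048576) (nat_lit 318775431) (.one (nat_lit 47584389846) .nil)))),
   .two (nat_lit 809500739) (nat_lit 1182794367) (.two (nat_lit 11479810063) (nat_lit 156976023637) (.two (nat_lit 169869320) (nat_lit 343934493) (.two (nat_lit 2097157) (nat_lit 13195284387) (.two (nat_lit 2097153) (nat_lit 1749031496) (.two (nat_lit 1048576) (nat_lit 1344283871) (.one (nat_lit 19597896212) .nil)))))),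
   .two (nat_lit 11492393073) (nat_lit 1182794088) (.two (nat_lit 822083599) (nat_lit 11584669053) (.two (nat_lit 50331656) (nat_lit 9772732311) (.two (nat_lit 8388609) (nat_lit 159232562493) (.two (nat_lit 8388608) (nat_lit 11626619884) (.one (nat_lit 713042623) .nil))))),
   .two (nat_lit 203423811) (nat_lit 46477082819) (.two (nat_lit 2954887183) (nat_lit 20707280215) (.two (nat_lit 11476664328) (nat_lit 4634709515) (.two (nat_lit 806354949) (nat_lit 843060228) (.two (nat_lit 156365750273) (nat_lit 46406834763) (.two (nat_lit 1048576) (nat_lit 304096664) (.one (nat_lit 10001328786) .nil)))))),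
   .two (nat_lit 1310720114) (nat_lit 4194666) (.two (nat_lit 165526110223) (nat_lit 166132188002) (.two (nat_lit 165526110216) (nat_lit 171969030) (.two (nat_lit 158144135173) (nat_lit 166132192450) (.two (nat_lit 156365750273) (nat_lit 12620666168) (.two (nat_lit 8388608) (nat_lit 11479818399) (.one (nat_lit 2353015262) .nil)))))),
   .two (nat_lit 218103873) (nat_lit 2418016617) (.two (nat_lit 37748751) (nat_lit 620758310) (.two (nat_lit 37748744) (nat_lit 620759601) (.two (nat_lit 4194308) (nat_lit 19142808585) (.two (nat_lit 2097153) (nat_lit 10519321201) (.two (nat_lit 4194304) (nat_lit 183913948527) (.one (nat_lit 2887789054) .nil)))))),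
   .two (nat_lit 156468510787) (nat_lit 21811430242) (.two (nat_lit 11543773192) (nat_lit 2420117404) (.two (nat_lit 34603009) (nat_lit 1279269744) (.one (nat_lit 4205285) .nil))),
   .two (nat_lit 4028629057) (nat_lit 2923430755) (.two (nat_lit 46978301960) (nat_lit 2923431454) (.two (nat_lit 46409973764) (nat_lit 639635361) (.two (nat_lit 4194305) (nat_lit 1948260956) (.two (nat_lit 4194304) (nat_lit 10538198078) (.one (nat_lit 4205286) .nil))))),
   .two (nat_lit 4601151552) (nat_lit 37262197399) (.two (nat_lit 654311439) (nat_lit 10540287282) (.two (nat_lit 809500680) (nat_lit 620759550) (.two (nat_lit 4194308) (nat_lit 10016003136) (.two (nat_lit 4194305) (nat_lit 47596968616) (.two (nat_lit 4194304) (nat_lit 9781126470) (.one (nat_lit 1191193013) .nil)))))),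
   .two (nat_lit 11559501888) (nat_lit 159250383476) (.two (nat_lit 117440527) (nat_lit 28757199387) (.two (nat_lit 4194308) (nat_lit 1291849603) (.two (nat_lit 4194305) (nat_lit 2902463807) (.two (nat_lit 4194304) (nat_lit 19142811802) (.one (nat_lit 1059559) .nil))))),
   .two (nat_lit 8388672) (nat_lit 157035790697) (.two (nat_lit 2961178639) (nat_lit 47582283038) (.two (nat_lit 3525312520) (nat_lit 156465367565) (.two (nat_lit 21207449605) (nat_lit 176166072) (.two (nat_lit 605028353) (nat_lit 1847597687) (.two (nat_lit 1048576) (nat_lit 8398436) (.one (nat_lit 1059560) .nil)))))),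
   .two (nat_lit 8388672) (nat_lit 13191086275) (.two (nat_lit 176160783) (nat_lit 28760343862) (.two (nat_lit 46409973768) (nat_lit 20644366895) (.two (nat_lit 46409973764) (nat_lit 19128128492) (.two (nat_lit 2097153) (nat_lit 174688574072) (.two (nat_lit 2097152) (nat_lit 8398437) (.one (nat_lit 2108137) .nil)))))),
   .two (nat_lit 46978302018) (nat_lit 4601151683) (.two (nat_lit 822083599) (nat_lit 1410335586) (.two (nat_lit 4194312) (nat_lit 166130092571) (.two (nat_lit 184549378) (nat_lit 2101170) (.two (nat_lit 2097155) (nat_lit 20740837256) (.two (nat_lit 2097153) (nat_lit 675287094) (.two (nat_lit 1048576) (nat_lit 20738744471) (.one (nat_lit 2104304) .nil))))))),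
   .two (nat_lit 4601151552) (nat_lit 158646403691) (.two (nat_lit 272629775) (nat_lit 174686471503) (.two (nat_lit 101711880) (nat_lit 2887780870) (.two (nat_lit 1913651205) (nat_lit 2350911384) (.two (nat_lit 37748737) (nat_lit 1310726781) (.two (nat_lit 2097152) (nat_lit 185020196474) (.one (nat_lit 174755686845) .nil)))))),
   .two (nat_lit 4601151552) (nat_lit 21207450217) (.two (nat_lit 272629775) (nat_lit 37246469455) (.two (nat_lit 101711880) (nat_lit 10504636940) (.two (nat_lit 2887778308) (nat_lit 3524267919) (.two (nat_lit 37748737) (nat_lit 9900661436) (.two (nat_lit 2097152) (nat_lit 138419078) (.one (nat_lit 1057052) .nil)))))),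
   .two (nat_lit 47555018819) (nat_lit 874513001) (.two (nat_lit 1178599439) (nat_lit 9873392940) (.two (nat_lit 270532614) (nat_lit 243272221) (.two (nat_lit 742391816) (nat_lit 46414169031) (.two (nat_lit 169869314) (nat_lit 9772733429) (.two (nat_lit 69206021) (nat_lit 9772731076) (.two (nat_lit 2097153) (nat_lit 176167578) (.two (nat_lit 4194304) (nat_lit 166136391298) (.one (nat_lit 10001327803) .nil)))))))),
   .two (nat_lit 8388672) (nat_lit 336593254) (.two (nat_lit 4194319) (nat_lit 2994733529) (.two (nat_lit 11614027817) (nat_lit 638583009) (.two (nat_lit 46407876616) (nat_lit 9768535581) (.two (nat_lit 4599054341) (nat_lit 1216352165) (.two (nat_lit 8388609) (nat_lit 34609922) (.two (nat_lit 1048576) (nat_lit 46508548255) (.one (nat_lit 303045614) .nil))))))),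
   .two (nat_lit 2887778369) (nat_lit 159219974874) (.two (nat_lit 11551113231) (nat_lit 1849690230) (.two (nat_lit 8388616) (nat_lit 10436480565) (.two (nat_lit 16777220) (nat_lit 47548732501) (.two (nat_lit 50331649) (nat_lit 69214238) (.two (nat_lit 16777216) (nat_lit 8398430) (.one (nat_lit 1059580) .nil)))))),
   .two (nat_lit 1291845669) (nat_lit 3525312707) (.two (nat_lit 3525312546) (nat_lit 16777584) (.two (nat_lit 2887778319) (nat_lit 285213538) (.two (nat_lit 2887778312) (nat_lit 285214237) (.two (nat_lit 270532613) (nat_lit 50335651) (.two (nat_lit 16777217) (nat_lit 158646410966) (.two (nat_lit 1048576) (nat_lit 158177696632) (.one (nat_lit 1929390814) .nil))))))),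
   .two (nat_lit 9934209061) (nat_lit 654312076) (.two (nat_lit 16777332) (nat_lit 28758245576) (.two (nat_lit 9948889103) (nat_lit 166130091399) (.two (nat_lit 9948889096) (nat_lit 102761421) (.two (nat_lit 9948889095) (nat_lit 165526113886) (.two (nat_lit 184549378) (nat_lit 2099914) (.two (nat_lit 620756995) (nat_lit 4028634974) (.two (nat_lit 620756993) (nat_lit 1055521) (.two (nat_lit 2097152) (nat_lit 1056978) (.one (nat_lit 1058514) .nil))))))))),
   .two (nat_lit 183949590641) (nat_lit 19127074911) (.two (nat_lit 37748751) (nat_lit 10335814094) (.two (nat_lit 4194312) (nat_lit 136315113) (.two (nat_lit 166129041412) (nat_lit 165526115330) (.two (nat_lit 4194305) (nat_lit 4027587183) (.two (nat_lit 4194304) (nat_lit 28758249601) (.one (nat_lit 2105636) .nil)))))),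
   .two (nat_lit 13224640621) (nat_lit 47547678759) (.two (nat_lit 166196150380) (nat_lit 641728878) (.two (nat_lit 2889875570) (nat_lit 270532810) (.two (nat_lit 205520911) (nat_lit 159251432290) (.two (nat_lit 11476664328) (nat_lit 13224642077) (.two (nat_lit 34603013) (nat_lit 20707283942) (.two (nat_lit 2097153) (nat_lit 235936338) (.two (nat_lit 4194304) (nat_lit 19597894687) (.one (nat_lit 1176513067) .nil)))))))),
   .two (nat_lit 343933037) (nat_lit 12115247143) (.two (nat_lit 158144135276) (nat_lit 1350566254) (.two (nat_lit 203423759) (nat_lit 4605348061) (.two (nat_lit 169869320) (nat_lit 343934493) (.two (nat_lit 169869316) (nat_lit 19537072009) (.two (nat_lit 34603009) (nat_lit 12618570322) (.two (nat_lit 8388608) (nat_lit 10335822879) (.one (nat_lit 605039147) .nil))))))),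
   .two (nat_lit 12147752981) (nat_lit 19142804130) (.two (nat_lit 101711988) (nat_lit 46422556871) (.two (nat_lit 101711988) (nat_lit 1191182434) (.two (nat_lit 1779433487) (nat_lit 46992983366) (.two (nat_lit 9933160454) (nat_lit 16779833) (.two (nat_lit 1276117000) (nat_lit 185035916831) (.two (nat_lit 1276116994) (nat_lit 16781237) (.two (nat_lit 10369368067) (nat_lit 2969573502) (.two (nat_lit 9765388289) (nat_lit 9814679168) (.two (nat_lit 1048576) (nat_lit 16785619) (.one (nat_lit 1058517) .nil)))))))))),
   .two (nat_lit 11543773248) (nat_lit 158653743199) (.two (nat_lit 9881780239) (nat_lit 101712738) (.two (nat_lit 9881780232) (nat_lit 101713437) (.two (nat_lit 1358954501) (nat_lit 2920288136) (.two (nat_lit 34603009) (nat_lit 11517562941) (.two (nat_lit 1048576) (nat_lit 47588577417) (.one (nat_lit 11006910745) .nil)))))),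
   .two (nat_lit 46474985490) (nat_lit 166232851541) (.two (nat_lit 156468510836) (nat_lit 1209008631) (.two (nat_lit 1916796943) (nat_lit 2953839961) (.two (nat_lit 46407876616) (nat_lit 876613690) (.two (nat_lit 742391816) (nat_lit 1209008631) (.two (nat_lit 11479810050) (nat_lit 1052598) (.two (nat_lit 4599054341) (nat_lit 876613690) (.two (nat_lit 156365750273) (nat_lit 1055522) (.two (nat_lit 4194304) (nat_lit 1055643) (.one (nat_lit 4205312) .nil))))))))),
   .two (nat_lit 184986632258) (nat_lit 37249614181) (.two (nat_lit 1358954511) (nat_lit 158179787620) (.two (nat_lit 1916796936) (nat_lit 1745880605) (.two (nat_lit 11479810052) (nat_lit 46507495304) (.two (nat_lit 16777217) (nat_lit 202382040) (.two (nat_lit 1048576) (nat_lit 318774151) (.one (nat_lit 772811194) .nil)))))),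
   .two (nat_lit 8388627) (nat_lit 158075978335) (.two (nat_lit 1426063470) (nat_lit 638582882) (.two (nat_lit 50331663) (nat_lit 4601152361) (.two (nat_lit 50331663) (nat_lit 1913651426) (.two (nat_lit 176160774) (nat_lit 1410336403) (.two (nat_lit 50331656) (nat_lit 1343226090) (.two (nat_lit 2889875458) (nat_lit 1055253) (.two (nat_lit 8388612) (nat_lit 1410336403) (.two (nat_lit 4194305) (nat_lit 1056842) (.two (nat_lit 4194304) (nat_lit 1058440) (.one (nat_lit 4205313) .nil)))))))))),
   .two (nat_lit 8388627) (nat_lit 21778924133) (.two (nat_lit 8388643) (nat_lit 21778924133) (.two (nat_lit 4613734511) (nat_lit 1782579298) (.two (nat_lit 8388623) (nat_lit 136316955) (.two (nat_lit 16777224) (nat_lit 1277166540) (.two (nat_lit 16777224) (nat_lit 9766438547) (.two (nat_lit 16777220) (nat_lit 102764464) (.two (nat_lit 16777220) (nat_lit 2954890019) (.two (nat_lit 41943041) (nat_lit 2102606) (.two (nat_lit 8388608) (nat_lit 2107017) (.one (nat_lit 8398552) .nil)))))))))),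
   .two (nat_lit 2994733093) (nat_lit 69206054) (.two (nat_lit 21208498243) (nat_lit 156372041928) (.two (nat_lit 165532401679) (nat_lit 2921332963) (.two (nat_lit 183853121545) (nat_lit 2097665) (.two (nat_lit 184989777927) (nat_lit 13195283959) (.two (nat_lit 11546918917) (nat_lit 10510926337) (.two (nat_lit 21208498181) (nat_lit 880807861) (.two (nat_lit 606076929) (nat_lit 8392768) (.two (nat_lit 2097152) (nat_lit 8395676) (.one (nat_lit 8397099) .nil))))))))),
   .two (nat_lit 47555018819) (nat_lit 102760487) (.two (nat_lit 2097292) (nat_lit 158183981417) (.two (nat_lit 13203669007) (nat_lit 19604177119) (.two (nat_lit 50331656) (nat_lit 47555019256) (.two (nat_lit 10336862216) (nat_lit 158083320621) (.two (nat_lit 16777220) (nat_lit 9974055947) (.two (nat_lit 46407876612) (nat_lit 158083320621) (.two (nat_lit 2097153) (nat_lit 158083320621) (.two (nat_lit 8388608) (nat_lit 16787083) (.one (nat_lit 16787161) .nil))))))))),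
   .two (nat_lit 16777280) (nat_lit 19093520422) (.two (nat_lit 16777280) (nat_lit 9933160657) (.two (nat_lit 1779433487) (nat_lit 3539992799) (.two (nat_lit 1276117000) (nat_lit 50332152) (.two (nat_lit 8388615) (nat_lit 12147755527) (.two (nat_lit 9933160453) (nat_lit 19042141196) (.two (nat_lit 10503585797) (nat_lit 2990544301) (.two (nat_lit 8388609) (nat_lit 9798946872) (.two (nat_lit 8388608) (nat_lit 1055646) (.one (nat_lit 1058523) .nil))))))))),
   .two (nat_lit 4601151552) (nat_lit 209715828) (.two (nat_lit 41943055) (nat_lit 3524264804) (.two (nat_lit 41943048) (nat_lit 9802092055) (.two (nat_lit 46409973764) (nat_lit 165532405685) (.two (nat_lit 8388611) (nat_lit 269490592) (.two (nat_lit 41943041) (nat_lit 775953920) (.two (nat_lit 8388608) (nat_lit 1056981) (.one (nat_lit 1059588) .nil))))))),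
   .two (nat_lit 822083602) (nat_lit 843055461) (.two (nat_lit 306184258) (nat_lit 2357198946) (.two (nat_lit 4601151503) (nat_lit 9806284111) (.two (nat_lit 809500680) (nat_lit 41944730) (.two (nat_lit 83886088) (nat_lit 10909384939) (.two (nat_lit 13195280389) (nat_lit 19042144147) (.two (nat_lit 156372041729) (nat_lit 822091818) (.two (nat_lit 4194304) (nat_lit 12129935655) (.one (nat_lit 16785709) .nil)))))))),
   .two (nat_lit 8388674) (nat_lit 773849446) (.two (nat_lit 8388623) (nat_lit 21812480366) (.two (nat_lit 11559501832) (nat_lit 156569176626) (.two (nat_lit 721420292) (nat_lit 675286922) (.two (nat_lit 9781116929) (nat_lit 28793904839) (.two (nat_lit 2097152) (nat_lit 4605351340) (.one (nat_lit 2108165) .nil)))))),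
   .two (nat_lit 8388672) (nat_lit 183861510353) (.two (nat_lit 8388672) (nat_lit 1780482244) (.two (nat_lit 16777231) (nat_lit 28764538162) (.two (nat_lit 8388616) (nat_lit 12633245338) (.two (nat_lit 8388616) (nat_lit 1862271209) (.two (nat_lit 184549381) (nat_lit 2317356947) (.two (nat_lit 50331649) (nat_lit 304095274) (.two (nat_lit 16777216) (nat_lit 13222550423) (.one (nat_lit 304096971) .nil)))))))),
   .two (nat_lit 4601151552) (nat_lit 156539814505) (.two (nat_lit 41943055) (nat_lit 46523220836) (.two (nat_lit 41943048) (nat_lit 183962175130) (.two (nat_lit 41943048) (nat_lit 4601151720) (.two (nat_lit 8388612) (nat_lit 19042144147) (.two (nat_lit 156372041729) (nat_lit 158192377519) (.two (nat_lit 4194304) (nat_lit 174759878915) (.one (nat_lit 4204255) .nil))))))),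
   .two (nat_lit 11559501889) (nat_lit 41943235) (.two (nat_lit 8388623) (nat_lit 20652753119) (.two (nat_lit 8388616) (nat_lit 2936013312) (.two (nat_lit 16777224) (nat_lit 11618223047) (.two (nat_lit 8388612) (nat_lit 2936013312) (.two (nat_lit 16777221) (nat_lit 3028290245) (.two (nat_lit 8388609) (nat_lit 158144142323) (.two (nat_lit 2097152) (nat_lit 8395681) (.one (nat_lit 8397103) .nil)))))))),
   .two (nat_lit 2954887235) (nat_lit 608174119) (.two (nat_lit 10370416707) (nat_lit 19599982792) (.two (nat_lit 713031695) (nat_lit 806355167) (.two (nat_lit 713031688) (nat_lit 12047090168) (.two (nat_lit 713031688) (nat_lit 156465366669) (.two (nat_lit 41943045) (nat_lit 183845782537) (.two (nat_lit 41943045) (nat_lit 156465366669) (.two (nat_lit 41943041) (nat_lit 606082500) (.two (nat_lit 1048576) (nat_lit 4202711) (.one (nat_lit 4204256) .nil))))))))),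
   .two (nat_lit 2889875523) (nat_lit 10351542311) (.two (nat_lit 2889875523) (nat_lit 11525947589) (.two (nat_lit 272629775) (nat_lit 2969567703) (.two (nat_lit 9866051592) (nat_lit 158647453219) (.two (nat_lit 117440520) (nat_lit 47584381639) (.two (nat_lit 9933160453) (nat_lit 13237228973) (.two (nat_lit 9933160453) (nat_lit 13237228973) (.two (nat_lit 4194305) (nat_lit 13237228973) (.two (nat_lit 4194304) (nat_lit 16785624) (.one (nat_lit 4204258) .nil))))))))),
   .two (nat_lit 2889875571) (nat_lit 251658439) (.two (nat_lit 11492393074) (nat_lit 806355402) (.two (nat_lit 1191182351) (nat_lit 806355402) (.two (nat_lit 754974735) (nat_lit 235930061) (.two (nat_lit 1276117000) (nat_lit 158192371231) (.two (nat_lit 1276117000) (nat_lit 10351542505) (.two (nat_lit 11492392962) (nat_lit 1052599) (.two (nat_lit 171966469) (nat_lit 185002362522) (.two (nat_lit 9781116929) (nat_lit 2956992154) (.two (nat_lit 16777216) (nat_lit 4202713) (.one (nat_lit 4205322) .nil)))))))))),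
   .two (nat_lit 41943107) (nat_lit 159250382886) (.two (nat_lit 41943107) (nat_lit 21811429472) (.two (nat_lit 713031695) (nat_lit 19599982815) (.two (nat_lit 16777224) (nat_lit 9866052088) (.two (nat_lit 16777224) (nat_lit 1212155533) (.two (nat_lit 16777220) (nat_lit 672137728) (.two (nat_lit 16777220) (nat_lit 1212155533) (.two (nat_lit 16777217) (nat_lit 1175456557) (.two (nat_lit 8388608) (nat_lit 1058444) (.one (nat_lit 1058532) .nil))))))))),
   .two (nat_lit 4601151523) (nat_lit 158653743728) (.two (nat_lit 13195280497) (nat_lit 742392007) (.two (nat_lit 3460300824) (nat_lit 9906947394) (.two (nat_lit 13195280390) (nat_lit 165528211881) (.two (nat_lit 13195280391) (nat_lit 4199318) (.two (nat_lit 4194306) (nat_lit 2323649965) (.two (nat_lit 18933088259) (nat_lit 4200962) (.two (nat_lit 4194305) (nat_lit 2323649965) (.two (nat_lit 8388608) (nat_lit 4202714) (.one (nat_lit 16787173) .nil))))))))),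
   .two (nat_lit 11559501889) (nat_lit 46406828900) (.two (nat_lit 11559501839) (nat_lit 46406828900) (.two (nat_lit 50331656) (nat_lit 1853884933) (.two (nat_lit 156364701701) (nat_lit 21818774587) (.two (nat_lit 34603009) (nat_lit 8395555) (.two (nat_lit 8388608) (nat_lit 16787085) (.one (nat_lit 168831725) .nil)))))),
   .two (nat_lit 343933037) (nat_lit 641728551) (.two (nat_lit 8388679) (nat_lit 4195073) (.two (nat_lit 4194331) (nat_lit 8389083) (.two (nat_lit 18928893960) (nat_lit 343934493) (.two (nat_lit 2894069765) (nat_lit 1279264412) (.two (nat_lit 183848927236) (nat_lit 2357201701) (.two (nat_lit 37748737) (nat_lit 2357201701) (.two (nat_lit 1048576) (nat_lit 8397019) (.one (nat_lit 8399627) .nil)))))))),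
   .two (nat_lit 10504634435) (nat_lit 46409974419) (.two (nat_lit 156367847439) (nat_lit 1377830189) (.two (nat_lit 272629766) (nat_lit 8391226) (.two (nat_lit 10336862215) (nat_lit 4605349493) (.two (nat_lit 2889875458) (nat_lit 8392632) (.two (nat_lit 46414168067) (nat_lit 2103831) (.two (nat_lit 612368385) (nat_lit 2105422) (.two (nat_lit 2097152) (nat_lit 8398479) (.one (nat_lit 8399628) .nil)))))))),
   .two (nat_lit 1358954612) (nat_lit 843055142) (.two (nat_lit 75497587) (nat_lit 1392509128) (.two (nat_lit 4034920465) (nat_lit 2990539620) (.two (nat_lit 46414168072) (nat_lit 12117345821) (.two (nat_lit 8388613) (nat_lit 608174592) (.two (nat_lit 4605345797) (nat_lit 156468513574) (.two (nat_lit 8388609) (nat_lit 47584381733) (.two (nat_lit 2097152) (nat_lit 12620669147) (.one (nat_lit 4202801) .nil)))))))),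
   .two (nat_lit 183853121649) (nat_lit 4601151683) (.two (nat_lit 4601151503) (nat_lit 158083318231) (.two (nat_lit 276824072) (nat_lit 11513364984) (.two (nat_lit 276824072) (nat_lit 28760345381) (.two (nat_lit 8388612) (nat_lit 9869197824) (.two (nat_lit 8388612) (nat_lit 28760345381) (.two (nat_lit 8388609) (nat_lit 28760345381) (.two (nat_lit 1048576) (nat_lit 4201380) (.one (nat_lit 4204264) .nil)))))))),
   .two (nat_lit 184549473) (nat_lit 11007951205) (.two (nat_lit 2969567296) (nat_lit 11007951714) (.two (nat_lit 2969567247) (nat_lit 11611933209) (.two (nat_lit 46978301960) (nat_lit 1291849605) (.two (nat_lit 3525312517) (nat_lit 2969572663) (.two (nat_lit 2097153) (nat_lit 16784238) (.two (nat_lit 2097152) (nat_lit 1291855549) (.one (nat_lit 740304620) .nil))))))),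
   .two (nat_lit 16777313) (nat_lit 171967332) (.two (nat_lit 285212736) (nat_lit 171967332) (.two (nat_lit 2902458383) (nat_lit 158079126043) (.two (nat_lit 2902458376) (nat_lit 20740837267) (.two (nat_lit 184989777925) (nat_lit 285218103) (.two (nat_lit 37748737) (nat_lit 16784238) (.two (nat_lit 2097152) (nat_lit 1426073259) (.one (nat_lit 270542572) .nil))))))),
   .two (nat_lit 3021996129) (nat_lit 37749367) (.two (nat_lit 3021996097) (nat_lit 620757858) (.two (nat_lit 4194319) (nat_lit 620758557) (.two (nat_lit 169869320) (nat_lit 10955522560) (.two (nat_lit 4194312) (nat_lit 352324390) (.two (nat_lit 4194308) (nat_lit 1054131) (.two (nat_lit 2097153) (nat_lit 1346375804) (.two (nat_lit 1048576) (nat_lit 4201438) (.one (nat_lit 9802095614) .nil)))))))),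
   .two (nat_lit 1358954691) (nat_lit 2349858914) (.two (nat_lit 11559501888) (nat_lit 185020187078) (.two (nat_lit 11559501888) (nat_lit 2316304609) (.two (nat_lit 1745879055) (nat_lit 117442077) (.two (nat_lit 1745879048) (nat_lit 156548204177) (.two (nat_lit 183845781508) (nat_lit 11559504675) (.two (nat_lit 183845781508) (nat_lit 11559503570) (.two (nat_lit 34603009) (nat_lit 16784238) (.two (nat_lit 1048576) (nat_lit 2969572853) (.one (nat_lit 1392517430) .nil))))))))),
   .two (nat_lit 9772728678) (nat_lit 21223178278) (.two (nat_lit 1175453804) (nat_lit 159251431647) (.two (nat_lit 276824079) (nat_lit 21778924024) (.two (nat_lit 8388616) (nat_lit 873464841) (.two (nat_lit 8388616) (nat_lit 9765389965) (.two (nat_lit 8388612) (nat_lit 184986636414) (.two (nat_lit 8388609) (nat_lit 184986635082) (.two (nat_lit 8388608) (nat_lit 2102774) (.one (nat_lit 1058555) .nil)))))))),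
   .two (nat_lit 28705816774) (nat_lit 183853121893) (.two (nat_lit 184549443) (nat_lit 183853122402) (.two (nat_lit 16777231) (nat_lit 13195280888) (.two (nat_lit 880803852) (nat_lit 2969568265) (.two (nat_lit 880803852) (nat_lit 165540791949) (.two (nat_lit 41943043) (nat_lit 19142808888) (.two (nat_lit 41943041) (nat_lit 159266117102) (.two (nat_lit 8388608) (nat_lit 16785673) (.one (nat_lit 16785724) .nil)))))))),
   .two (nat_lit 156372041923) (nat_lit 68157797) (.two (nat_lit 272629768) (nat_lit 165525062668) (.two (nat_lit 1048576) (nat_lit 1780489172) .nil)),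
   .two (nat_lit 2988441795) (nat_lit 1209008487) (.two (nat_lit 176160776) (nat_lit 1914703769) (.two (nat_lit 8388608) (nat_lit 1058498) .nil)),
   .two (nat_lit 4194661) (nat_lit 158653743304) (.two (nat_lit 169869377) (nat_lit 10007610210) (.two (nat_lit 4194319) (nat_lit 10007610909) (.two (nat_lit 4194312) (nat_lit 8391462) (.two (nat_lit 169869320) (nat_lit 21214791313) (.two (nat_lit 4194308) (nat_lit 873469362) (.two (nat_lit 4194308) (nat_lit 873469362) (.two (nat_lit 2097153) (nat_lit 10000276368) (.two (nat_lit 1048576) (nat_lit 4201439) (.one (nat_lit 21777885972) .nil))))))))),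
   .two (nat_lit 337641490) (nat_lit 1417674976) (.two (nat_lit 169869327) (nat_lit 11584667880) (.two (nat_lit 46407876610) (nat_lit 8391464) (.two (nat_lit 156364701697) (nat_lit 11544825988) (.one (nat_lit 2107132) .nil)))),
   .two (nat_lit 8388628) (nat_lit 46992982477) (.two (nat_lit 2894069771) (nat_lit 16778190) (.two (nat_lit 16777218) (nat_lit 8394057) (.two (nat_lit 16777217) (nat_lit 8395667) (.one (nat_lit 8399647) .nil)))),
   .two (nat_lit 742391846) (nat_lit 8388814) (.two (nat_lit 343932940) (nat_lit 28760343564) (.two (nat_lit 8388608) (nat_lit 11010053614) .nil)),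
   .two (nat_lit 2097359) (nat_lit 1947205827) (.two (nat_lit 12129927175) (nat_lit 158649549836) (.two (nat_lit 16777216) (nat_lit 2105616) .nil)),
   .two (nat_lit 11626610798) (nat_lit 46414168289) (.two (nat_lit 4605345807) (nat_lit 3036676330) (.two (nat_lit 9934209029) (nat_lit 1392511783) (.two (nat_lit 41943041) (nat_lit 9915338892) (.one (nat_lit 16787199) .nil)))),
   .two (nat_lit 174686470165) (nat_lit 183946446149) (.two (nat_lit 21208498187) (nat_lit 1048811) (.two (nat_lit 183845781506) (nat_lit 4198458) (.two (nat_lit 2097153) (nat_lit 4199868) (.one (nat_lit 1059619) .nil)))),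
   .two (nat_lit 184986632256) (nat_lit 2418016481) (.two (nat_lit 1795162127) (nat_lit 772800746) (.two (nat_lit 166130089986) (nat_lit 1051433) (.two (nat_lit 9766436865) (nat_lit 1052813) (.one (nat_lit 673194303) .nil)))),
   .two (nat_lit 158646403167) (nat_lit 876609738) (.two (nat_lit 156465365013) (nat_lit 9802089314) (.two (nat_lit 2316304494) (nat_lit 37749198) (.two (nat_lit 19599982607) (nat_lit 185020188307) (.two (nat_lit 19599982607) (nat_lit 34603243) (.two (nat_lit 19599982600) (nat_lit 185020188307) (.two (nat_lit 156968681477) (nat_lit 19130224693) (.two (nat_lit 183848927236) (nat_lit 68160295) (.two (nat_lit 34603009) (nat_lit 272636800) (.two (nat_lit 1048576) (nat_lit 775953369) (.one (nat_lit 4205350) .nil)))))))))),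
   .two (nat_lit 183853121893) (nat_lit 11546918950) (.two (nat_lit 306184258) (nat_lit 37320917215) (.two (nat_lit 4601151503) (nat_lit 13195280888) (.two (nat_lit 4601151496) (nat_lit 1786774016) (.two (nat_lit 4601151495) (nat_lit 337645455) (.two (nat_lit 46409973763) (nat_lit 673191405) (.two (nat_lit 4194305) (nat_lit 673191405) (.two (nat_lit 2097152) (nat_lit 138421950) (.one (nat_lit 2107130) .nil)))))))),
   .two (nat_lit 809500867) (nat_lit 4613734439) (.two (nat_lit 9948889096) (nat_lit 876610568) (.two (nat_lit 8388608) (nat_lit 9900661716) .nil)),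
   .two (nat_lit 3028287506) (nat_lit 159217877217) (.two (nat_lit 4605345807) (nat_lit 12115247339) (.two (nat_lit 20638072834) (nat_lit 8392763) (.two (nat_lit 156372041729) (nat_lit 156969735612) (.one (nat_lit 2108201) .nil)))),
   .two (nat_lit 8388672) (nat_lit 13187940577) (.two (nat_lit 176160783) (nat_lit 158143086827) (.two (nat_lit 13195280389) (nat_lit 706744371) (.two (nat_lit 612368385) (nat_lit 20705185917) (.one (nat_lit 2107138) .nil)))),
   .two (nat_lit 276824129) (nat_lit 1191182560) (.two (nat_lit 276824079) (nat_lit 12163481832) (.two (nat_lit 2097157) (nat_lit 19612568360) (.two (nat_lit 606076929) (nat_lit 285216907) (.one (nat_lit 8398595) .nil)))),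
   .two (nat_lit 806354982) (nat_lit 156573368679) (.two (nat_lit 158083317768) (nat_lit 839910408) (.two (nat_lit 1048576) (nat_lit 1210065158) .nil)),
   .two (nat_lit 184419352594) (nat_lit 19093520618) (.two (nat_lit 166129041410) (nat_lit 4201358) (.one (nat_lit 1058575) .nil)),
   .two (nat_lit 184549486) (nat_lit 176161002) (.two (nat_lit 713031682) (nat_lit 16782778) (.one (nat_lit 8398612) .nil)),
   .two (nat_lit 11559501842) (nat_lit 739246312) (.two (nat_lit 2902458370) (nat_lit 1054139) (.one (nat_lit 16788281) .nil)),
   .two (nat_lit 2969567343) (nat_lit 773849321) (.two (nat_lit 184549378) (nat_lit 2101386) (.one (nat_lit 2108221) .nil)),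
   .two (nat_lit 176160787) (nat_lit 3036676330) (.two (nat_lit 1277165570) (nat_lit 8392844) (.one (nat_lit 8398612) .nil)),
   .two (nat_lit 10506731535) (nat_lit 10537140343) (.two (nat_lit 10506731528) (nat_lit 839909585) (.two (nat_lit 183845781512) (nat_lit 184989778116) (.two (nat_lit 166132187141) (nat_lit 135267665) (.two (nat_lit 2097153) (nat_lit 28757201363) (.two (nat_lit 2097152) (nat_lit 1053933) (.one (nat_lit 1057709) .nil)))))),
   .two (nat_lit 4194319) (nat_lit 158083317825) (.two (nat_lit 184986632200) (nat_lit 708838001) (.two (nat_lit 75497477) (nat_lit 174685422899) (.two (nat_lit 8388609) (nat_lit 4598008342) (.two (nat_lit 1048576) (nat_lit 10913584349) (.one (nat_lit 806361908) .nil))))),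
   .two (nat_lit 169869327) (nat_lit 46414168131) (.two (nat_lit 169869320) (nat_lit 20745029409) (.two (nat_lit 1277165572) (nat_lit 1050020) (.two (nat_lit 620756995) (nat_lit 28086110343) (.two (nat_lit 620756993) (nat_lit 28086112783) (.two (nat_lit 8388608) (nat_lit 1057175) (.one (nat_lit 1059655) .nil)))))),
   .two (nat_lit 9948889204) (nat_lit 19529728125) (.two (nat_lit 1291845647) (nat_lit 10907288161) (.two (nat_lit 11476664328) (nat_lit 9814675342) (.two (nat_lit 1048576) (nat_lit 10016004743) (.one (nat_lit 16788342) .nil)))),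
   .two (nat_lit 184549441) (nat_lit 343933042) (.two (nat_lit 41943055) (nat_lit 1325402659) (.two (nat_lit 8388609) (nat_lit 166245439316) (.two (nat_lit 8388608) (nat_lit 16785895) (.one (nat_lit 8397907) .nil)))),
   .two (nat_lit 184549441) (nat_lit 272629824) (.two (nat_lit 184549391) (nat_lit 1178600784) (.two (nat_lit 16777221) (nat_lit 1849690639) (.two (nat_lit 16777217) (nat_lit 4200355) (.two (nat_lit 16777216) (nat_lit 4202106) (.one (nat_lit 4205431) .nil))))),
   .two (nat_lit 2954887232) (nat_lit 2969567476) (.two (nat_lit 10385096719) (nat_lit 47582283042) (.two (nat_lit 9781116933) (nat_lit 673189380) (.two (nat_lit 620756993) (nat_lit 337649222) (.one (nat_lit 2108280) .nil)))),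
   .two (nat_lit 47582281793) (nat_lit 1384120449) (.two (nat_lit 2954887183) (nat_lit 10544480616) (.two (nat_lit 2954887176) (nat_lit 157043131705) (.two (nat_lit 169869316) (nat_lit 185027530239) (.two (nat_lit 2097153) (nat_lit 8397131) (.two (nat_lit 2097152) (nat_lit 8397288) (.one (nat_lit 2108236) .nil)))))),
   .two (nat_lit 184993972290) (nat_lit 306184443) (.two (nat_lit 158075977752) (nat_lit 21785215843) (.two (nat_lit 171966469) (nat_lit 243272222) (.two (nat_lit 605028353) (nat_lit 708842563) (.two (nat_lit 1048576) (nat_lit 4202985) (.one (nat_lit 8398956) .nil))))),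
   .two (nat_lit 218103873) (nat_lit 10369368181) (.two (nat_lit 612368399) (nat_lit 46992982379) (.two (nat_lit 158083317768) (nat_lit 1392511888) (.two (nat_lit 806354949) (nat_lit 4034924884) (.two (nat_lit 2097153) (nat_lit 2920289314) (.two (nat_lit 2097152) (nat_lit 1056382) (.one (nat_lit 1059705) .nil)))))),
   .two (nat_lit 20705181762) (nat_lit 1376780904) (.two (nat_lit 742391816) (nat_lit 839910760) (.two (nat_lit 12114198533) (nat_lit 773851684) (.two (nat_lit 9768534017) (nat_lit 1377835664) (.one (nat_lit 2107503) .nil)))),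
   .two (nat_lit 285212737) (nat_lit 1175453813) (.two (nat_lit 16777231) (nat_lit 13195280741) (.two (nat_lit 3460300808) (nat_lit 310381992) (.two (nat_lit 4194305) (nat_lit 8394600) (.two (nat_lit 4194304) (nat_lit 1058601) (.one (nat_lit 16788346) .nil))))),
   .two (nat_lit 8388675) (nat_lit 21223178358) (.two (nat_lit 612368399) (nat_lit 135267704) (.two (nat_lit 184549381) (nat_lit 11584671152) (.two (nat_lit 2097153) (nat_lit 855643181) (.two (nat_lit 2097152) (nat_lit 1057260) (.one (nat_lit 1059707) .nil))))),
   .two (nat_lit 46980399169) (nat_lit 639631482) (.two (nat_lit 157036838927) (nat_lit 2420114797) (.two (nat_lit 708837381) (nat_lit 4043312606) (.two (nat_lit 2097153) (nat_lit 16784952) (.one (nat_lit 2108766) .nil)))),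
   .two (nat_lit 11618222195) (nat_lit 28690088069) (.two (nat_lit 3460300815) (nat_lit 343933543) (.two (nat_lit 3460300808) (nat_lit 4638901624) (.two (nat_lit 605028357) (nat_lit 156372045295) (.two (nat_lit 156367847425) (nat_lit 1350571926) (.two (nat_lit 4194304) (nat_lit 8395472) (.one (nat_lit 8399740) .nil)))))),
   .two (nat_lit 9881780289) (nat_lit 2923430005) (.two (nat_lit 620757007) (nat_lit 10544480898) (.two (nat_lit 158083317768) (nat_lit 156367849503) (.two (nat_lit 75497477) (nat_lit 10540291089) (.two (nat_lit 8388608) (nat_lit 11614034549) (.one (nat_lit 16788349) .nil))))),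
   .two (nat_lit 285212911) (nat_lit 156971827324) (.two (nat_lit 272629775) (nat_lit 16777574) (.two (nat_lit 2889875464) (nat_lit 16780181) (.two (nat_lit 754974725) (nat_lit 4198772) (.two (nat_lit 4194305) (nat_lit 16784443) (.two (nat_lit 4194304) (nat_lit 16785902) (.one (nat_lit 16787401) .nil)))))),
   .two (nat_lit 2902458433) (nat_lit 1279262838) (.two (nat_lit 37748751) (nat_lit 83888666) (.two (nat_lit 2097153) (nat_lit 1178606191) (.one (nat_lit 4205438) .nil))),
   .two (nat_lit 4601151552) (nat_lit 19537068150) (.two (nat_lit 8388623) (nat_lit 13191086275) (.two (nat_lit 8388616) (nat_lit 158649550142) (.two (nat_lit 11484004357) (nat_lit 12117346842) (.two (nat_lit 41943041) (nat_lit 138417992) (.two (nat_lit 2097152) (nat_lit 4204330) (.one (nat_lit 2107529) .nil)))))),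
   .two (nat_lit 306184257) (nat_lit 165532402276) (.two (nat_lit 37748744) (nat_lit 165532402980) (.two (nat_lit 639631365) (nat_lit 4197898) (.two (nat_lit 606076929) (nat_lit 11513370445) (.two (nat_lit 4194304) (nat_lit 2105851) (.one (nat_lit 2107531) .nil))))),
   .two (nat_lit 185027526721) (nat_lit 2886729854) (.two (nat_lit 11551113231) (nat_lit 3024093852) (.two (nat_lit 41943048) (nat_lit 19130221929) (.two (nat_lit 8388612) (nat_lit 339741212) (.two (nat_lit 9765388289) (nat_lit 2104381) (.two (nat_lit 2097152) (nat_lit 1056393) (.one (nat_lit 1059711) .nil)))))),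
   .two (nat_lit 16777281) (nat_lit 184993972341) (.two (nat_lit 16777231) (nat_lit 184993972832) (.two (nat_lit 46984593416) (nat_lit 19545457965) (.two (nat_lit 2894069765) (nat_lit 16781685) (.two (nat_lit 34603009) (nat_lit 8394665) (.two (nat_lit 1048576) (nat_lit 16787243) (.one (nat_lit 8398992) .nil)))))),
   .two (nat_lit 11513364545) (nat_lit 47555019448) (.two (nat_lit 41943048) (nat_lit 18928896031) (.two (nat_lit 8388612) (nat_lit 156535622174) (.two (nat_lit 8388609) (nat_lit 4200366) (.two (nat_lit 16777216) (nat_lit 4203011) (.one (nat_lit 4205440) .nil))))),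
   .two (nat_lit 4605345859) (nat_lit 20638072898) (.two (nat_lit 46414168079) (nat_lit 1310720867) (.two (nat_lit 4605345797) (nat_lit 1176504836) (.two (nat_lit 8388609) (nat_lit 1914703764) (.two (nat_lit 4194304) (nat_lit 2104973) (.one (nat_lit 2108289) .nil))))),
   .two (nat_lit 822083651) (nat_lit 8388717) (.two (nat_lit 8388623) (nat_lit 11492393317) (.two (nat_lit 176160776) (nat_lit 16779322) (.two (nat_lit 41943045) (nat_lit 16782875) (.two (nat_lit 41943041) (nat_lit 16784446) (.two (nat_lit 1048576) (nat_lit 788536919) (.one (nat_lit 16788354) .nil)))))),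
   .two (nat_lit 4030726211) (nat_lit 3558867181) (.two (nat_lit 9934209039) (nat_lit 28793897598) (.two (nat_lit 11551113224) (nat_lit 306186268) (.two (nat_lit 1176502277) (nat_lit 11513368055) (.two (nat_lit 41943041) (nat_lit 4201525) (.two (nat_lit 8388608) (nat_lit 2104982) (.one (nat_lit 2108291) .nil)))))),
   .two (nat_lit 8388672) (nat_lit 183845781570) (.two (nat_lit 16777231) (nat_lit 1310722567) (.two (nat_lit 50331649) (nat_lit 773853073) (.two (nat_lit 16777216) (nat_lit 874521021) (.one (nat_lit 1059716) .nil)))),
   .two (nat_lit 306184258) (nat_lit 2994733716) (.two (nat_lit 10343153672) (nat_lit 1916799506) (.two (nat_lit 4194305) (nat_lit 2103222) (.two (nat_lit 2097152) (nat_lit 4203030) (.one (nat_lit 4205445) .nil)))),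
   .two (nat_lit 4634705986) (nat_lit 50331905) (.two (nat_lit 13191086095) (nat_lit 165525063734) (.two (nat_lit 2902458372) (nat_lit 11010053087) (.two (nat_lit 1048576) (nat_lit 18928900732) (.one (nat_lit 1059009) .nil)))),
   .two (nat_lit 1291845697) (nat_lit 11543773250) (.two (nat_lit 169869327) (nat_lit 1358954691) (.two (nat_lit 705691656) (nat_lit 1224738097) (.two (nat_lit 2097157) (nat_lit 50335223) (.two (nat_lit 34603009) (nat_lit 2103224) (.two (nat_lit 1048576) (nat_lit 9766445494) (.one (nat_lit 2107441) .nil)))))),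
   .two (nat_lit 10007609456) (nat_lit 184986632301) (.two (nat_lit 612368399) (nat_lit 9866052281) (.two (nat_lit 705691656) (nat_lit 142607714) (.two (nat_lit 19537068037) (nat_lit 19093523920) (.two (nat_lit 2097153) (nat_lit 8395842) (.two (nat_lit 16777216) (nat_lit 1058604) (.one (nat_lit 16788358) .nil)))))),
   .two (nat_lit 880803907) (nat_lit 158077026543) (.two (nat_lit 11626610712) (nat_lit 176161126) (.two (nat_lit 185002360840) (nat_lit 1413481853) (.two (nat_lit 612368389) (nat_lit 2102812) (.two (nat_lit 41943041) (nat_lit 2104387) (.two (nat_lit 2097152) (nat_lit 4204333) (.one (nat_lit 8399751) .nil)))))),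
   .two (nat_lit 2969567296) (nat_lit 236978241) (.two (nat_lit 654311439) (nat_lit 3558867612) (.two (nat_lit 203423752) (nat_lit 19109251599) (.two (nat_lit 2097153) (nat_lit 16782409) (.two (nat_lit 2097152) (nat_lit 16787246) (.one (nat_lit 2107449) .nil))))),
   .two (nat_lit 772800577) (nat_lit 158144135288) (.two (nat_lit 46407876623) (nat_lit 4605346397) (.two (nat_lit 612368392) (nat_lit 19529731526) (.two (nat_lit 2097153) (nat_lit 1054649) (.two (nat_lit 1048576) (nat_lit 2107183) (.one (nat_lit 1059720) .nil))))),
   .two (nat_lit 9768534083) (nat_lit 11577327745) (.two (nat_lit 9934209039) (nat_lit 28089254522) (.two (nat_lit 46407876616) (nat_lit 11513367066) (.two (nat_lit 156365750273) (nat_lit 166129046557) (.two (nat_lit 1048576) (nat_lit 2105882) (.one (nat_lit 1059721) .nil))))),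
   .two (nat_lit 47548727362) (nat_lit 20644364396) (.two (nat_lit 13191086095) (nat_lit 1344275055) (.two (nat_lit 75497480) (nat_lit 840959319) (.two (nat_lit 184993972229) (nat_lit 1746931191) (.two (nat_lit 2097153) (nat_lit 4201540) (.two (nat_lit 2097152) (nat_lit 4204336) (.one (nat_lit 8399047) .nil)))))),
   .two (nat_lit 184986632259) (nat_lit 3525312632) (.two (nat_lit 16777231) (nat_lit 2954887363) (.two (nat_lit 16777224) (nat_lit 304088379) (.two (nat_lit 16777220) (nat_lit 2101629) (.two (nat_lit 37748737) (nat_lit 855644013) (.two (nat_lit 1048576) (nat_lit 16785951) (.one (nat_lit 16788362) .nil)))))),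
   .two (nat_lit 272629824) (nat_lit 166144770166) (.two (nat_lit 16777231) (nat_lit 809500867) (.two (nat_lit 16777224) (nat_lit 28089255223) (.two (nat_lit 11492392965) (nat_lit 184419355162) (.two (nat_lit 16777217) (nat_lit 2104390) (.two (nat_lit 8388608) (nat_lit 337649289) (.one (nat_lit 2108299) .nil)))))),
   .two (nat_lit 47582281793) (nat_lit 158146232438) (.two (nat_lit 18928893967) (nat_lit 873464171) (.two (nat_lit 3460300808) (nat_lit 47582283040) (.two (nat_lit 3525312517) (nat_lit 18928896541) (.two (nat_lit 34603009) (nat_lit 46508545053) (.two (nat_lit 1048576) (nat_lit 4203040) (.one (nat_lit 1059026) .nil)))))),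
   .two (nat_lit 158144135233) (nat_lit 1049092) (.two (nat_lit 47582281751) (nat_lit 3464495770) (.two (nat_lit 2961178632) (nat_lit 28758247937) (.two (nat_lit 16777217) (nat_lit 69211203) (.two (nat_lit 1048576) (nat_lit 2105890) (.one (nat_lit 1059724) .nil))))),
   .two (nat_lit 310378562) (nat_lit 9902752365) (.two (nat_lit 37748744) (nat_lit 28798092589) (.two (nat_lit 708837381) (nat_lit 20644367876) (.two (nat_lit 2097153) (nat_lit 8395850) (.two (nat_lit 4194304) (nat_lit 2105891) (.one (nat_lit 2108301) .nil))))),
   .two (nat_lit 8388674) (nat_lit 1358954691) (.two (nat_lit 8388616) (nat_lit 166144771375) (.two (nat_lit 721420293) (nat_lit 1853885919) (.two (nat_lit 8388609) (nat_lit 16783293) (.two (nat_lit 16777216) (nat_lit 8398641) (.one (nat_lit 8398840) .nil))))),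
   .two (nat_lit 880803952) (nat_lit 1048840) (.two (nat_lit 41943055) (nat_lit 10552869921) (.two (nat_lit 1426063373) (nat_lit 20745028452) (.two (nat_lit 16777221) (nat_lit 1753221655) (.two (nat_lit 4194305) (nat_lit 10436484576) (.one (nat_lit 1058309) .nil))))),
   .two (nat_lit 156465365229) (nat_lit 1325400192) (.two (nat_lit 754974735) (nat_lit 20704134484) (.two (nat_lit 11543773189) (nat_lit 1191183902) (.two (nat_lit 37748737) (nat_lit 10537147009) (.one (nat_lit 16788366) .nil)))),
   .two (nat_lit 2923429953) (nat_lit 47555019418) (.two (nat_lit 184993972232) (nat_lit 2889876845) (.two (nat_lit 1343225861) (nat_lit 4198786) (.two (nat_lit 605028353) (nat_lit 4201550) (.two (nat_lit 1048576) (nat_lit 4202156) (.one (nat_lit 1059727) .nil))))),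
   .two (nat_lit 156535619651) (nat_lit 11517558913) (.two (nat_lit 4638900248) (nat_lit 166132187493) (.two (nat_lit 4605345800) (nat_lit 4196414) (.two (nat_lit 8388612) (nat_lit 4198787) (.two (nat_lit 156367847425) (nat_lit 1417680789) (.two (nat_lit 4194304) (nat_lit 9940508282) (.one (nat_lit 3460310166) .nil)))))),
   .two (nat_lit 285212738) (nat_lit 10909384823) (.two (nat_lit 1916796943) (nat_lit 10955523378) (.two (nat_lit 69206021) (nat_lit 159266115477) (.two (nat_lit 2097152) (nat_lit 16785966) (.one (nat_lit 16788368) .nil)))),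
   .two (nat_lit 12617515073) (nat_lit 158079123576) (.two (nat_lit 19599982607) (nat_lit 19596837221) (.two (nat_lit 9881780232) (nat_lit 1051546) (.two (nat_lit 2889875461) (nat_lit 34609009) (.two (nat_lit 4194304) (nat_lit 46473944667) (.one (nat_lit 1059729) .nil))))),
   .two (nat_lit 16777280) (nat_lit 739246194) (.two (nat_lit 620757007) (nat_lit 156465366351) (.two (nat_lit 270532613) (nat_lit 754978295) (.two (nat_lit 2097153) (nat_lit 1055823) (.two (nat_lit 2097152) (nat_lit 16785967) (.one (nat_lit 2108306) .nil))))),
   .two (nat_lit 16777280) (nat_lit 1417675109) (.two (nat_lit 16777224) (nat_lit 174692762998) (.two (nat_lit 16777220) (nat_lit 10913582585) (.two (nat_lit 2097153) (nat_lit 847255377) (.two (nat_lit 8388608) (nat_lit 50340399) (.one (nat_lit 8399763) .nil))))),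
   .two (nat_lit 721420353) (nat_lit 19530777238) (.two (nat_lit 721420296) (nat_lit 10336864313) (.two (nat_lit 721420292) (nat_lit 1054237) (.two (nat_lit 605028353) (nat_lit 2105676) (.two (nat_lit 1048576) (nat_lit 2107186) (.one (nat_lit 1059732) .nil))))),
   .two (nat_lit 1795162179) (nat_lit 166130090232) (.two (nat_lit 37748751) (nat_lit 1795162709) (.two (nat_lit 2902458376) (nat_lit 4599055661) (.two (nat_lit 272629765) (nat_lit 2102814) (.two (nat_lit 2097153) (nat_lit 4200385) (.two (nat_lit 2097152) (nat_lit 4203056) (.one (nat_lit 4205461) .nil)))))),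
   .two (nat_lit 41943107) (nat_lit 159251431671) (.two (nat_lit 713031695) (nat_lit 21827158660) (.two (nat_lit 285212680) (nat_lit 1277167134) (.two (nat_lit 16777217) (nat_lit 10947140183) (.one (nat_lit 8399766) .nil)))),
   .two (nat_lit 8388672) (nat_lit 318767763) (.two (nat_lit 16777224) (nat_lit 176164266) (.two (nat_lit 2097153) (nat_lit 847256650) (.two (nat_lit 16777216) (nat_lit 2105906) (.one (nat_lit 2108311) .nil)))),
   .two (nat_lit 8388672) (nat_lit 754974837) (.two (nat_lit 754974761) (nat_lit 1920992562) (.two (nat_lit 184549381) (nat_lit 880805405) (.two (nat_lit 16777217) (nat_lit 809507512) (.one (nat_lit 4204798) .nil)))),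
   .two (nat_lit 2316304494) (nat_lit 19096666363) (.two (nat_lit 37246468120) (nat_lit 4195388) (.two (nat_lit 10939793416) (nat_lit 4197275) (.two (nat_lit 28693233669) (nat_lit 1745883501) (.two (nat_lit 34603009) (nat_lit 4201552) (.two (nat_lit 1048576) (nat_lit 4204339) (.one (nat_lit 1059736) .nil)))))),
   .two (nat_lit 28758245493) (nat_lit 185020186744) (.two (nat_lit 205520911) (nat_lit 166230753890) (.two (nat_lit 184986632200) (nat_lit 46510638403) (.two (nat_lit 184416206853) (nat_lit 174753581595) (.two (nat_lit 9768534017) (nat_lit 9899613240) (.two (nat_lit 1048576) (nat_lit 4202161) (.one (nat_lit 4205465) .nil)))))),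
   .two (nat_lit 4194369) (nat_lit 285213272) (.two (nat_lit 205520904) (nat_lit 740295990) (.two (nat_lit 2889875460) (nat_lit 158176643605) (.two (nat_lit 9768534017) (nat_lit 166211882893) (.two (nat_lit 4194304) (nat_lit 16785971) (.one (nat_lit 4205466) .nil))))),
   .two (nat_lit 285212786) (nat_lit 37253808246) (.two (nat_lit 16777231) (nat_lit 184993974786) (.two (nat_lit 16777217) (nat_lit 75505165) (.one (nat_lit 8399103) .nil))),
   .two (nat_lit 203423810) (nat_lit 166132187202) (.two (nat_lit 203423759) (nat_lit 4194665) (.two (nat_lit 3525312520) (nat_lit 10338960762) (.two (nat_lit 46978301957) (nat_lit 10338963817) (.two (nat_lit 9768534017) (nat_lit 2954893209) (.two (nat_lit 2097152) (nat_lit 104866214) (.one (nat_lit 2108315) .nil)))))),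
   .two (nat_lit 47555018816) (nat_lit 19530776840) (.two (nat_lit 612368399) (nat_lit 2969567839) (.two (nat_lit 20738736141) (nat_lit 4638901555) (.two (nat_lit 1277165573) (nat_lit 10544482838) (.two (nat_lit 2097153) (nat_lit 3531609959) (.two (nat_lit 2097152) (nat_lit 8397367) (.one (nat_lit 8399772) .nil)))))),
   .two (nat_lit 159232557164) (nat_lit 13195280493) (.two (nat_lit 41943055) (nat_lit 822084188) (.two (nat_lit 13195280392) (nat_lit 11010049370) (.two (nat_lit 46409973765) (nat_lit 4605349313) (.two (nat_lit 4194305) (nat_lit 8394692) (.two (nat_lit 8388608) (nat_lit 4204340) (.one (nat_lit 4205469) .nil)))))),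
   .two (nat_lit 19029557315) (nat_lit 19530776840) (.two (nat_lit 20738736152) (nat_lit 11010048195) (.two (nat_lit 9881780232) (nat_lit 1916798289) (.two (nat_lit 1358954501) (nat_lit 183848929822) (.two (nat_lit 2097153) (nat_lit 1279269521) (.one (nat_lit 4205470) .nil))))),
   .two (nat_lit 4605345856) (nat_lit 9802089315) (.two (nat_lit 4601151493) (nat_lit 156372043294) (.two (nat_lit 156367847425) (nat_lit 11551118377) (.two (nat_lit 4194304) (nat_lit 8396467) (.one (nat_lit 8399110) .nil)))),
   .two (nat_lit 3527409730) (nat_lit 174686470260) (.two (nat_lit 157036838927) (nat_lit 28089256459) (.two (nat_lit 2097153) (nat_lit 11580481150) (.one (nat_lit 4205424) .nil))),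
   .two (nat_lit 11551113282) (nat_lit 12047089730) (.two (nat_lit 713031695) (nat_lit 1377830255) (.two (nat_lit 713031684) (nat_lit 1052185) (.two (nat_lit 156364701697) (nat_lit 174688571271) (.two (nat_lit 1048576) (nat_lit 4204341) (.one (nat_lit 8399775) .nil))))),
   .two (nat_lit 166196150339) (nat_lit 184419352690) (.two (nat_lit 1846542351) (nat_lit 11513365347) (.two (nat_lit 28757196805) (nat_lit 20707282828) (.two (nat_lit 1048576) (nat_lit 158179793515) (.one (nat_lit 4204057) .nil)))),
   .two (nat_lit 16777280) (nat_lit 11618222145) (.two (nat_lit 713031695) (nat_lit 11492396960) (.two (nat_lit 8388608) (nat_lit 16784067) (.one (nat_lit 2894079086) .nil))),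
   .two (nat_lit 1745879107) (nat_lit 3558867065) (.two (nat_lit 166130089999) (nat_lit 135267663) (.two (nat_lit 9934209029) (nat_lit 21811431949) (.two (nat_lit 37748737) (nat_lit 1054663) (.two (nat_lit 1048576) (nat_lit 2105916) (.one (nat_lit 1059744) .nil))))),
   .two (nat_lit 2954887232) (nat_lit 2902458480) (.two (nat_lit 2902458383) (nat_lit 165526111561) (.two (nat_lit 285212677) (nat_lit 166230754846) (.two (nat_lit 16777217) (nat_lit 740299820) (.two (nat_lit 16777216) (nat_lit 706747952) (.one (nat_lit 2107663) .nil))))),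
   .two (nat_lit 8388675) (nat_lit 158647452012) (.two (nat_lit 176160776) (nat_lit 2418017587) (.two (nat_lit 8388613) (nat_lit 156533525014) (.two (nat_lit 8388609) (nat_lit 1746933600) (.two (nat_lit 8388608) (nat_lit 2105917) (.one (nat_lit 2107665) .nil))))),
   .two (nat_lit 1343225923) (nat_lit 1753219185) (.two (nat_lit 28093448207) (nat_lit 1745880445) (.two (nat_lit 159217876997) (nat_lit 156372046910) (.two (nat_lit 2097152) (nat_lit 165525069317) (.one (nat_lit 1059745) .nil)))),
   .two (nat_lit 9781117038) (nat_lit 1277165684) (.two (nat_lit 9934209039) (nat_lit 12633244998) (.two (nat_lit 169869316) (nat_lit 620760528) (.two (nat_lit 16777217) (nat_lit 2104401) (.two (nat_lit 2097152) (nat_lit 16785982) (.one (nat_lit 4598016915) .nil))))),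
   .two (nat_lit 12163481710) (nat_lit 20704133237) (.two (nat_lit 158143086607) (nat_lit 10921968965) (.two (nat_lit 34603013) (nat_lit 16780775) (.two (nat_lit 2097153) (nat_lit 16783307) (.two (nat_lit 1048576) (nat_lit 16785986) (.one (nat_lit 2108322) .nil))))),
   .two (nat_lit 158176641137) (nat_lit 28791799945) (.two (nat_lit 21785214991) (nat_lit 28790752645) (.two (nat_lit 705691652) (nat_lit 12121541134) (.two (nat_lit 34603009) (nat_lit 8393805) (.two (nat_lit 1048576) (nat_lit 8397379) (.one (nat_lit 1059747) .nil))))),
   .two (nat_lit 2969567297) (nat_lit 2350907514) (.two (nat_lit 3525312527) (nat_lit 18941477506) (.two (nat_lit 2887778312) (nat_lit 16781218) (.two (nat_lit 2097152) (nat_lit 157035797138) (.one (nat_lit 1059748) .nil)))),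
   .two (nat_lit 47563407426) (nat_lit 46984593527) (.two (nat_lit 184549391) (nat_lit 10913580351) (.two (nat_lit 10335813637) (nat_lit 11584672102) (.two (nat_lit 41943041) (nat_lit 9948894207) (.two (nat_lit 1048576) (nat_lit 8398646) (.one (nat_lit 16788389) .nil))))),
   .two (nat_lit 272629824) (nat_lit 16777820) (.two (nat_lit 285212680) (nat_lit 13224642078) (.two (nat_lit 16777217) (nat_lit 166132192284) (.two (nat_lit 16777216) (nat_lit 4203077) (.one (nat_lit 4204841) .nil)))),
   .two (nat_lit 41943107) (nat_lit 165540790934) (.two (nat_lit 184549384) (nat_lit 3531606539) (.two (nat_lit 4194305) (nat_lit 156573373479) (.two (nat_lit 16777216) (nat_lit 46980405973) (.one (nat_lit 4205478) .nil)))),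
   .two (nat_lit 4634705985) (nat_lit 18933088323) (.two (nat_lit 272629775) (nat_lit 166237046799) (.two (nat_lit 4605345797) (nat_lit 843057662) (.two (nat_lit 8388609) (nat_lit 4200399) (.two (nat_lit 8388608) (nat_lit 4203082) (.one (nat_lit 4205479) .nil))))),
   .two (nat_lit 218103873) (nat_lit 9902751870) (.two (nat_lit 318767128) (nat_lit 11614028135) (.two (nat_lit 50331656) (nat_lit 608177597) (.two (nat_lit 9768534017) (nat_lit 16783312) (.two (nat_lit 4194304) (nat_lit 16785997) (.one (nat_lit 158146242813) .nil))))),
   .two (nat_lit 19596836931) (nat_lit 8388746) (.two (nat_lit 185027526679) (nat_lit 1049245) (.two (nat_lit 158083317768) (nat_lit 4027582530) (.two (nat_lit 1913651205) (nat_lit 8393099) (.two (nat_lit 156364701697) (nat_lit 11618228176) (.two (nat_lit 1048576) (nat_lit 8397390) (.one (nat_lit 46977263869) .nil)))))),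
   .two (nat_lit 2927624259) (nat_lit 9867100297) (.two (nat_lit 75497487) (nat_lit 158077029262) (.two (nat_lit 69206021) (nat_lit 20644367863) (.two (nat_lit 37748737) (nat_lit 21208504246) (.two (nat_lit 4194304) (nat_lit 9772736138) (.one (nat_lit 8399784) .nil))))),
   .two (nat_lit 3458203714) (nat_lit 28693233777) (.two (nat_lit 46407876623) (nat_lit 4030727549) (.two (nat_lit 9768534021) (nat_lit 2101645) (.two (nat_lit 156364701697) (nat_lit 2887783465) (.two (nat_lit 1048576) (nat_lit 2105939) (.one (nat_lit 4204860) .nil))))),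
   .two (nat_lit 16777280) (nat_lit 8388675) (.two (nat_lit 176160783) (nat_lit 10437528091) (.two (nat_lit 8388609) (nat_lit 9915341517) (.one (nat_lit 2108329) .nil))),
   .two (nat_lit 3527409906) (nat_lit 150995077) (.two (nat_lit 285212687) (nat_lit 4195364) (.two (nat_lit 1277165581) (nat_lit 16781218) (.two (nat_lit 2097152) (nat_lit 16785094) (.one (nat_lit 4204867) .nil)))),
   .two (nat_lit 156533522672) (nat_lit 184419352700) (.two (nat_lit 3527409679) (nat_lit 166230753637) (.two (nat_lit 10538188813) (nat_lit 4196420) (.two (nat_lit 639631365) (nat_lit 4198799) (.two (nat_lit 4194305) (nat_lit 2105677) (.two (nat_lit 2097152) (nat_lit 4203095) (.one (nat_lit 2107720) .nil)))))),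
   .two (nat_lit 3458203714) (nat_lit 19134414974) (.two (nat_lit 165532401679) (nat_lit 1745879907) (.two (nat_lit 41943045) (nat_lit 12147755533) (.two (nat_lit 34603009) (nat_lit 2104407) (.two (nat_lit 1048576) (nat_lit 2105946) (.one (nat_lit 1059754) .nil))))),
   .two (nat_lit 13191086147) (nat_lit 166130090098) (.two (nat_lit 18933088271) (nat_lit 272632328) (.two (nat_lit 37748737) (nat_lit 69211986) (.two (nat_lit 8388608) (nat_lit 2105034) (.one (nat_lit 2108331) .nil)))),
   .two (nat_lit 46978302018) (nat_lit 28093448312) (.two (nat_lit 20644364303) (nat_lit 10336863552) (.two (nat_lit 13191086085) (nat_lit 4632612343) (.two (nat_lit 37748737) (nat_lit 2105678) (.two (nat_lit 4194304) (nat_lit 2105948) (.one (nat_lit 4205484) .nil))))),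
   .two (nat_lit 13195280499) (nat_lit 1410334837) (.two (nat_lit 13191086095) (nat_lit 183953787788) (.two (nat_lit 2902458372) (nat_lit 159219978131) (.two (nat_lit 1048576) (nat_lit 4203102) (.one (nat_lit 1059757) .nil)))),
   .two (nat_lit 11543773248) (nat_lit 3527409788) (.two (nat_lit 11543773199) (nat_lit 239076009) (.two (nat_lit 3527409672) (nat_lit 11006904389) (.two (nat_lit 156367847429) (nat_lit 20637026831) (.two (nat_lit 34603009) (nat_lit 11546926168) (.two (nat_lit 1048576) (nat_lit 4204343) (.one (nat_lit 806364423) .nil)))))),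
   .two (nat_lit 166230753390) (nat_lit 679477364) (.two (nat_lit 11479810063) (nat_lit 3531605358) (.two (nat_lit 169869316) (nat_lit 8392229) (.two (nat_lit 2097153) (nat_lit 166232855575) (.two (nat_lit 2097152) (nat_lit 4203103) (.one (nat_lit 2108334) .nil))))),
   .two (nat_lit 46414168129) (nat_lit 184986632258) (.two (nat_lit 156372041743) (nat_lit 9765388930) (.two (nat_lit 184986632200) (nat_lit 19604179012) (.two (nat_lit 1753219077) (nat_lit 46473940447) (.two (nat_lit 156372041729) (nat_lit 1745885129) (.two (nat_lit 8388608) (nat_lit 1057376) (.one (nat_lit 21785226158) .nil)))))),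
   .two (nat_lit 159224168515) (nat_lit 12047089730) (.two (nat_lit 20644364303) (nat_lit 174685422206) (.two (nat_lit 20644364296) (nat_lit 12114199886) (.two (nat_lit 159224168453) (nat_lit 1053073) (.two (nat_lit 612368385) (nat_lit 1054676) (.two (nat_lit 8388608) (nat_lit 1056465) (.one (nat_lit 1059759) .nil)))))),
   .two (nat_lit 203423810) (nat_lit 28086108832) (.two (nat_lit 2969567245) (nat_lit 101713438) (.two (nat_lit 16777217) (nat_lit 168826751) (.two (nat_lit 16777216) (nat_lit 2418022999) (.one (nat_lit 2106961) .nil)))),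
   .two (nat_lit 880803907) (nat_lit 1049094) (.two (nat_lit 713031695) (nat_lit 156364702058) (.two (nat_lit 83886088) (nat_lit 9798946701) (.two (nat_lit 16777216) (nat_lit 165532409535) (.one (nat_lit 8399792) .nil)))),
   .two (nat_lit 343932995) (nat_lit 136315012) (.two (nat_lit 612368399) (nat_lit 37314626210) (.two (nat_lit 612368392) (nat_lit 12618565689) (.two (nat_lit 176160772) (nat_lit 9900658108) (.two (nat_lit 156364701697) (nat_lit 276829197) (.two (nat_lit 2097152) (nat_lit 2349867479) (.one (nat_lit 1058760) .nil)))))),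
   .two (nat_lit 4605345857) (nat_lit 11513364837) (.two (nat_lit 46414168072) (nat_lit 10372515190) (.two (nat_lit 209715205) (nat_lit 1178603001) (.two (nat_lit 9765388289) (nat_lit 11010053969) (.two (nat_lit 1048576) (nat_lit 4203109) (.one (nat_lit 4205489) .nil))))),
   .two (nat_lit 285212739) (nat_lit 9806282874) (.two (nat_lit 612368408) (nat_lit 788531718) (.two (nat_lit 8388609) (nat_lit 10351551490) .nil)),
   .two (nat_lit 166197198915) (nat_lit 1376780398) (.two (nat_lit 1376780312) (nat_lit 28691137868) (.two (nat_lit 705691652) (nat_lit 28691139092) (.two (nat_lit 34603009) (nat_lit 3022001157) (.two (nat_lit 1048576) (nat_lit 157036845683) (.one (nat_lit 2108338) .nil))))),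
   .two (nat_lit 306184259) (nat_lit 3028287738) (.two (nat_lit 46409973775) (nat_lit 16778972) (.two (nat_lit 46409973768) (nat_lit 251661202) (.two (nat_lit 713031685) (nat_lit 158179790730) (.two (nat_lit 4194304) (nat_lit 16784932) (.one (nat_lit 4205491) .nil))))),
   .two (nat_lit 2923429998) (nat_lit 9948889212) (.two (nat_lit 822083599) (nat_lit 9802089052) (.two (nat_lit 3527409672) (nat_lit 50332964) (.two (nat_lit 2889875461) (nat_lit 687870962) (.two (nat_lit 4194304) (nat_lit 16787256) (.one (nat_lit 4204429) .nil))))),
   .two (nat_lit 10907287797) (nat_lit 3539992698) (.two (nat_lit 1291845647) (nat_lit 10907288160) (.two (nat_lit 203423752) (nat_lit 19612569479) (.two (nat_lit 2097152) (nat_lit 4647295685) (.one (nat_lit 218113613) .nil)))),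
   .two (nat_lit 159217877059) (nat_lit 183853121649) (.two (nat_lit 13195280399) (nat_lit 2317354316) (.two (nat_lit 8388612) (nat_lit 35654153) (.two (nat_lit 8388609) (nat_lit 9766443613) (.one (nat_lit 2350917514) .nil)))),
   .two (nat_lit 2902458434) (nat_lit 21814575237) (.two (nat_lit 37748751) (nat_lit 12062820868) (.two (nat_lit 2097153) (nat_lit 185002367583) (.one (nat_lit 16787814) .nil))),
   .two (nat_lit 183949590593) (nat_lit 156548203140) (.two (nat_lit 16777224) (nat_lit 183848928621) (.two (nat_lit 159217876997) (nat_lit 1950354954) (.two (nat_lit 606076929) (nat_lit 4201562) (.two (nat_lit 1048576) (nat_lit 2105961) (.one (nat_lit 2107751) .nil))))),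
   .two (nat_lit 9768534126) (nat_lit 1358954607) (.two (nat_lit 11559501839) (nat_lit 174688567917) (.two (nat_lit 12054429709) (nat_lit 28793898353) (.two (nat_lit 41943045) (nat_lit 21223183383) (.two (nat_lit 16777216) (nat_lit 13228843565) (.one (nat_lit 8399796) .nil))))),
   .two (nat_lit 4605345858) (nat_lit 136315015) (.two (nat_lit 8388623) (nat_lit 156969730722) (.two (nat_lit 3464495112) (nat_lit 10909386774) (.two (nat_lit 13191086085) (nat_lit 165526112782) (.two (nat_lit 37748737) (nat_lit 2104411) (.two (nat_lit 4194304) (nat_lit 8398649) (.one (nat_lit 4205493) .nil)))))),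
   .two (nat_lit 4601151554) (nat_lit 28764537449) (.two (nat_lit 713031688) (nat_lit 3560965435) (.two (nat_lit 620756997) (nat_lit 46510640667) (.two (nat_lit 50331649) (nat_lit 41949022) (.two (nat_lit 8388608) (nat_lit 16785457) (.one (nat_lit 8399802) .nil))))),
   .two (nat_lit 16777280) (nat_lit 1276117106) (.two (nat_lit 50331663) (nat_lit 2953839244) (.two (nat_lit 50331656) (nat_lit 1846543695) (.two (nat_lit 16777220) (nat_lit 156465367565) (.two (nat_lit 8388609) (nat_lit 11476669399) (.two (nat_lit 8388608) (nat_lit 1056818) (.one (nat_lit 16788411) .nil)))))),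
   .two (nat_lit 285212737) (nat_lit 158176641139) (.two (nat_lit 184416206863) (nat_lit 150996698) (.two (nat_lit 11559501832) (nat_lit 13187942947) (.two (nat_lit 34603009) (nat_lit 184431941953) (.two (nat_lit 1048576) (nat_lit 16785462) (.one (nat_lit 1059212) .nil))))),
   .two (nat_lit 2988441665) (nat_lit 183853121654) (.two (nat_lit 612368399) (nat_lit 28791801140) (.two (nat_lit 2894069765) (nat_lit 156533525014) (.two (nat_lit 8388609) (nat_lit 10503589779) (.two (nat_lit 8388608) (nat_lit 1057678) (.one (nat_lit 1059217) .nil))))),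
   .two (nat_lit 158144135233) (nat_lit 12617515126) (.two (nat_lit 612368399) (nat_lit 3525313144) (.two (nat_lit 2961178632) (nat_lit 18926798131) (.two (nat_lit 2894069765) (nat_lit 4028632634) (.two (nat_lit 8388609) (nat_lit 806361065) (.two (nat_lit 1048576) (nat_lit 109061006) (.one (nat_lit 1059218) .nil)))))),
   .two (nat_lit 3527409730) (nat_lit 1847591027) (.two (nat_lit 10504634383) (nat_lit 157038937629) (.two (nat_lit 2097153) (nat_lit 708844115) (.one (nat_lit 2887787547) .nil))),
   .two (nat_lit 10385096820) (nat_lit 20637024383) (.two (nat_lit 276824079) (nat_lit 11559503244) (.two (nat_lit 41943045) (nat_lit 889195957) (.two (nat_lit 41943041) (nat_lit 16784816) (.two (nat_lit 16777216) (nat_lit 1057679) (.one (nat_lit 1059772) .nil))))),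
   .two (nat_lit 16777280) (nat_lit 1277165678) (.two (nat_lit 16777231) (nat_lit 10336862826) (.two (nat_lit 16777224) (nat_lit 1847592271) (.two (nat_lit 16777220) (nat_lit 156466416141) (.two (nat_lit 16777217) (nat_lit 11477718232) (.two (nat_lit 16777216) (nat_lit 169877712) (.one (nat_lit 2107817) .nil)))))),
   .two (nat_lit 2889875523) (nat_lit 83886193) (.two (nat_lit 620757007) (nat_lit 638583419) (.two (nat_lit 620757000) (nat_lit 156364703069) (.two (nat_lit 10503585797) (nat_lit 843056669) (.two (nat_lit 8388609) (nat_lit 28757201888) (.two (nat_lit 1048576) (nat_lit 46980405964) (.one (nat_lit 16784301) .nil)))))),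
   .two (nat_lit 1291845697) (nat_lit 4028629059) (.two (nat_lit 1291845647) (nat_lit 46474985667) (.two (nat_lit 203423752) (nat_lit 2902459686) (.two (nat_lit 654311429) (nat_lit 37314628150) (.two (nat_lit 41943043) (nat_lit 3558870550) (.two (nat_lit 2097153) (nat_lit 1929384997) (.two (nat_lit 2097152) (nat_lit 174692769581) (.one (nat_lit 2105568) .nil))))))),
   .two (nat_lit 8388643) (nat_lit 9899606152) (.two (nat_lit 276824079) (nat_lit 37249614506) (.two (nat_lit 46407876616) (nat_lit 28697429291) (.two (nat_lit 171966469) (nat_lit 46508543483) (.two (nat_lit 2097153) (nat_lit 843059111) (.two (nat_lit 4194304) (nat_lit 1058442) (.one (nat_lit 1058452) .nil)))))),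
   .two (nat_lit 41943107) (nat_lit 2969567270) (.two (nat_lit 10007609411) (nat_lit 183845781540) (.two (nat_lit 4613734415) (nat_lit 1417675109) (.two (nat_lit 16777224) (nat_lit 47548728684) (.two (nat_lit 12114198533) (nat_lit 19530779194) (.two (nat_lit 612368387) (nat_lit 1053609) (.two (nat_lit 612368385) (nat_lit 1053915) (.two (nat_lit 8388608) (nat_lit 2105426) (.one (nat_lit 2107032) .nil)))))))),
   .two (nat_lit 16777280) (nat_lit 639631427) (.two (nat_lit 8388623) (nat_lit 165526110565) (.two (nat_lit 8388616) (nat_lit 165526111074) (.two (nat_lit 8388612) (nat_lit 2988442570) (.two (nat_lit 8388612) (nat_lit 11611932315) (.two (nat_lit 8388609) (nat_lit 46978307038) (.two (nat_lit 8388608) (nat_lit 16784171) (.one (nat_lit 16785639) .nil))))))),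
   .two (nat_lit 620757027) (nat_lit 1276117057) (.two (nat_lit 620757007) (nat_lit 1276117349) (.two (nat_lit 8388614) (nat_lit 20637025122) (.two (nat_lit 620757000) (nat_lit 4598006220) (.two (nat_lit 176160773) (nat_lit 20637026818) (.two (nat_lit 8388609) (nat_lit 12114202511) (.two (nat_lit 16777216) (nat_lit 1055532) (.one (nat_lit 16785641) .nil))))))),
   .two (nat_lit 8388643) (nat_lit 47548727360) (.two (nat_lit 8388623) (nat_lit 159217877187) (.two (nat_lit 176160774) (nat_lit 2887779635) (.two (nat_lit 8388616) (nat_lit 46407877067) (.two (nat_lit 4194306) (nat_lit 236981877) (.two (nat_lit 8388612) (nat_lit 9799992864) (.two (nat_lit 8388609) (nat_lit 166199299987) (.two (nat_lit 8388608) (nat_lit 1312822597) (.one (nat_lit 1786783344) .nil)))))))),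
   .two (nat_lit 645922853) (nat_lit 158144135286) (.two (nat_lit 9940500495) (nat_lit 9799991985) (.two (nat_lit 13203669000) (nat_lit 1279264042) (.two (nat_lit 16777220) (nat_lit 21208500771) (.two (nat_lit 16777217) (nat_lit 69211188) (.two (nat_lit 16777216) (nat_lit 46481283683) (.one (nat_lit 2107040) .nil)))))),
   .two (nat_lit 10385096821) (nat_lit 28790751352) (.two (nat_lit 4194319) (nat_lit 174692762228) (.two (nat_lit 68157448) (nat_lit 47588575288) (.two (nat_lit 4194308) (nat_lit 28798092246) (.two (nat_lit 4194308) (nat_lit 18933091023) (.two (nat_lit 4194305) (nat_lit 18933091023) (.two (nat_lit 16777216) (nat_lit 4202582) (.one (nat_lit 4204974) .nil))))))),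
   .two (nat_lit 184549395) (nat_lit 673186335) (.two (nat_lit 620757027) (nat_lit 673186335) (.two (nat_lit 156367847439) (nat_lit 2927625317) (.two (nat_lit 9766436872) (nat_lit 251659599) (.two (nat_lit 13195280389) (nat_lit 239078905) (.two (nat_lit 41943041) (nat_lit 16781248) (.two (nat_lit 8388608) (nat_lit 16784179) (.one (nat_lit 16787887) .nil))))))),
   .two (nat_lit 184986632258) (nat_lit 156468510832) (.two (nat_lit 184986632207) (nat_lit 708838001) (.two (nat_lit 12047089672) (nat_lit 9772729718) (.two (nat_lit 184416206853) (nat_lit 1786777081) (.two (nat_lit 8388609) (nat_lit 806361908) (.two (nat_lit 1048576) (nat_lit 8395573) (.one (nat_lit 21207459462) .nil)))))),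
   .two (nat_lit 41943075) (nat_lit 4601151552) (.two (nat_lit 41943055) (nat_lit 156367847619) (.two (nat_lit 83886088) (nat_lit 813696337) (.two (nat_lit 9781116933) (nat_lit 11513368181) (.two (nat_lit 50331649) (nat_lit 46409980438) (.two (nat_lit 16777216) (nat_lit 46414176331) (.one (nat_lit 156380440229) .nil)))))),
   .two (nat_lit 8388672) (nat_lit 47596961914) (.two (nat_lit 50331663) (nat_lit 41943235) (.two (nat_lit 50331656) (nat_lit 166136382773) (.two (nat_lit 16777220) (nat_lit 28798093834) (.two (nat_lit 16777217) (nat_lit 13222549388) (.two (nat_lit 16777216) (nat_lit 166130096848) (.one (nat_lit 2107827) .nil)))))),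
   .two (nat_lit 4194369) (nat_lit 46414169630) (.two (nat_lit 4194308) (nat_lit 3458210477) (.two (nat_lit 1048576) (nat_lit 3527419003) (.one (nat_lit 1060092) .nil))),
   .two (nat_lit 4601151555) (nat_lit 156969730914) (.two (nat_lit 705691656) (nat_lit 10921970181) (.two (nat_lit 605028357) (nat_lit 1277169543) (.two (nat_lit 4194305) (nat_lit 807410282) (.two (nat_lit 4194304) (nat_lit 9866060755) (.one (nat_lit 1060093) .nil))))),
   .two (nat_lit 1276117057) (nat_lit 183962174072) (.two (nat_lit 169869327) (nat_lit 843057182) (.two (nat_lit 606076936) (nat_lit 18933090851) (.two (nat_lit 184549381) (nat_lit 2988447592) (.two (nat_lit 2097153) (nat_lit 19026419159) (.two (nat_lit 1048576) (nat_lit 47582290886) (.one (nat_lit 166197210780) .nil)))))),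
   .two (nat_lit 3525312578) (nat_lit 174752531299) (.two (nat_lit 3525312520) (nat_lit 174752531998) (.two (nat_lit 3527409669) (nat_lit 185021241939) (.two (nat_lit 4194304) (nat_lit 183946454084) (.one (nat_lit 2108670) .nil)))),
   .two (nat_lit 705691713) (nat_lit 2902458980) (.two (nat_lit 4194319) (nat_lit 11525948784) (.two (nat_lit 37748744) (nat_lit 156532476432) (.two (nat_lit 4601151493) (nat_lit 174768263057) (.two (nat_lit 50331649) (nat_lit 9900662256) (.two (nat_lit 16777216) (nat_lit 71312381) (.one (nat_lit 4205823) .nil)))))),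
   .two (nat_lit 12117344320) (nat_lit 166245434760) (.two (nat_lit 3525312520) (nat_lit 2420114973) (.two (nat_lit 203423749) (nat_lit 641732509) (.two (nat_lit 2097153) (nat_lit 183949597332) (.two (nat_lit 4194304) (nat_lit 16786603) (.one (nat_lit 10921978456) .nil))))),
   .two (nat_lit 184993972291) (nat_lit 1913651841) (.two (nat_lit 12054429711) (nat_lit 806356294) (.two (nat_lit 18925748232) (nat_lit 165532405638) (.two (nat_lit 8388609) (nat_lit 21223185060) (.two (nat_lit 1048576) (nat_lit 1358963800) (.one (nat_lit 8400128) .nil))))),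
   .two (nat_lit 1212153972) (nat_lit 16777902) (.two (nat_lit 3460300815) (nat_lit 754975587) (.two (nat_lit 20637024264) (nat_lit 754976286) (.two (nat_lit 171966469) (nat_lit 11559505796) (.two (nat_lit 605028353) (nat_lit 156367854216) (.two (nat_lit 1048576) (nat_lit 4203692) (.one (nat_lit 2108008) .nil)))))),
   .two (nat_lit 50331715) (nat_lit 156367848481) (.two (nat_lit 46980399119) (nat_lit 11007952209) (.two (nat_lit 46407876616) (nat_lit 675286479) (.two (nat_lit 2097157) (nat_lit 4647293979) (.two (nat_lit 2097153) (nat_lit 12163488374) (.two (nat_lit 1048576) (nat_lit 2106541) (.one (nat_lit 1060097) .nil)))))),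
   .two (nat_lit 1795162179) (nat_lit 174688567973) (.two (nat_lit 117440527) (nat_lit 1916798309) (.two (nat_lit 4194312) (nat_lit 1358956061) (.two (nat_lit 171966469) (nat_lit 318772211) (.two (nat_lit 4194305) (nat_lit 28772932218) (.two (nat_lit 1048576) (nat_lit 1178608803) (.one (nat_lit 16788074) .nil)))))),
   .two (nat_lit 9781116995) (nat_lit 183916036291) (.two (nat_lit 11492392975) (nat_lit 46409975127) (.two (nat_lit 742391816) (nat_lit 16779798) (.two (nat_lit 203423749) (nat_lit 3024097171) (.two (nat_lit 2097153) (nat_lit 620763767) (.two (nat_lit 16777216) (nat_lit 2319460282) (.one (nat_lit 2108674) .nil)))))),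
   .two (nat_lit 285212736) (nat_lit 876610596) (.two (nat_lit 117440527) (nat_lit 34603876) (.two (nat_lit 20637024264) (nat_lit 37329309580) (.two (nat_lit 4194305) (nat_lit 183962178872) (.two (nat_lit 1048576) (nat_lit 16786606) (.one (nat_lit 11593067631) .nil))))),
   .two (nat_lit 158143086658) (nat_lit 13222543721) (.two (nat_lit 721420303) (nat_lit 28757197667) (.two (nat_lit 165526110216) (nat_lit 2349862812) (.two (nat_lit 605028353) (nat_lit 4202024) (.two (nat_lit 2097152) (nat_lit 16786607) (.one (nat_lit 1060099) .nil))))),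
   .two (nat_lit 16777280) (nat_lit 9798943080) (.two (nat_lit 721420303) (nat_lit 19529729326) (.two (nat_lit 9766436872) (nat_lit 11543775761) (.two (nat_lit 721420292) (nat_lit 28690093019) (.two (nat_lit 41943041) (nat_lit 168827497) (.two (nat_lit 1048576) (nat_lit 16787405) (.one (nat_lit 2108011) .nil)))))),
   .two (nat_lit 47548727362) (nat_lit 156372042330) (.two (nat_lit 9940500495) (nat_lit 673187105) (.two (nat_lit 2889875464) (nat_lit 8393062) (.two (nat_lit 713031684) (nat_lit 4200301) (.two (nat_lit 4194305) (nat_lit 8397232) (.two (nat_lit 8388608) (nat_lit 4204494) (.one (nat_lit 4205828) .nil)))))),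
   .two (nat_lit 270532724) (nat_lit 2889876073) (.two (nat_lit 185002360847) (nat_lit 9936307589) (.two (nat_lit 9866051592) (nat_lit 50334243) (.two (nat_lit 11559501829) (nat_lit 18925753322) (.two (nat_lit 34603009) (nat_lit 2105777) (.two (nat_lit 16777216) (nat_lit 1058767) (.one (nat_lit 1060101) .nil)))))),
   .two (nat_lit 47555018817) (nat_lit 639631720) (.two (nat_lit 10385096719) (nat_lit 1178600743) (.two (nat_lit 37748744) (nat_lit 21793606158) (.two (nat_lit 721420292) (nat_lit 3558872062) (.two (nat_lit 50331649) (nat_lit 18926805962) (.one (nat_lit 2108678) .nil))))),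
   .two (nat_lit 13191086147) (nat_lit 156581757528) (.two (nat_lit 18928893967) (nat_lit 2887779693) (.two (nat_lit 218103816) (nat_lit 166199298584) (.two (nat_lit 11543773189) (nat_lit 10370420615) (.two (nat_lit 9765388289) (nat_lit 46407883441) (.two (nat_lit 1048576) (nat_lit 2106544) (.one (nat_lit 1060103) .nil)))))),
   .two (nat_lit 4605345857) (nat_lit 10503586151) (.two (nat_lit 4194319) (nat_lit 2357200175) (.two (nat_lit 272629768) (nat_lit 739248660) (.two (nat_lit 9768534021) (nat_lit 10939798494) (.two (nat_lit 37748737) (nat_lit 1376787927) (.two (nat_lit 4194304) (nat_lit 8398001) (.one (nat_lit 4205832) .nil)))))),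
   .two (nat_lit 183912890483) (nat_lit 156380430695) (.two (nat_lit 11543773199) (nat_lit 1795162978) (.two (nat_lit 11543773192) (nat_lit 16779821) (.two (nat_lit 83886085) (nat_lit 13228839949) (.two (nat_lit 16777217) (nat_lit 8397234) (.two (nat_lit 8388608) (nat_lit 1057970) (.one (nat_lit 16788745) .nil)))))),
   .two (nat_lit 754974786) (nat_lit 183953785509) (.two (nat_lit 8388623) (nat_lit 156380432901) (.two (nat_lit 19599982597) (nat_lit 151000081) (.two (nat_lit 50331649) (nat_lit 4202025) (.two (nat_lit 4194304) (nat_lit 8398800) (.one (nat_lit 4205164) .nil))))),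
   .two (nat_lit 343933041) (nat_lit 1410335586) (.two (nat_lit 176160776) (nat_lit 166129043971) (.two (nat_lit 8388613) (nat_lit 156364706801) (.two (nat_lit 612368385) (nat_lit 156466421271) (.two (nat_lit 1048576) (nat_lit 2107345) (.one (nat_lit 1060106) .nil))))),
   .two (nat_lit 12054429811) (nat_lit 21793603941) (.two (nat_lit 166130089999) (nat_lit 2956985188) (.two (nat_lit 746586125) (nat_lit 2969569810) (.two (nat_lit 41943045) (nat_lit 166130095123) (.two (nat_lit 4194305) (nat_lit 2104874) (.two (nat_lit 16777216) (nat_lit 46984602570) (.one (nat_lit 8400139) .nil)))))),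
   .two (nat_lit 9802088563) (nat_lit 10504634563) (.two (nat_lit 9802088488) (nat_lit 9900655920) (.two (nat_lit 157038936076) (nat_lit 11007952414) (.two (nat_lit 156367847429) (nat_lit 2102308) (.two (nat_lit 8388609) (nat_lit 2104875) (.two (nat_lit 8388608) (nat_lit 4203700) (.one (nat_lit 4205836) .nil)))))),
   .two (nat_lit 10385096815) (nat_lit 185021235817) (.two (nat_lit 1291845647) (nat_lit 4028630306) (.two (nat_lit 2954887176) (nat_lit 1191185858) (.two (nat_lit 18933088261) (nat_lit 654317389) (.two (nat_lit 8388609) (nat_lit 2887785984) (.two (nat_lit 8388608) (nat_lit 2107346) (.one (nat_lit 8400141) .nil)))))),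
   .two (nat_lit 47563407425) (nat_lit 3531604327) (.two (nat_lit 1350565903) (nat_lit 11476665669) (.two (nat_lit 822083592) (nat_lit 28790753812) (.two (nat_lit 16777220) (nat_lit 10906245802) (.two (nat_lit 8388608) (nat_lit 1058771) (.one (nat_lit 8400142) .nil))))),
   .two (nat_lit 158143086659) (nat_lit 185035915874) (.two (nat_lit 185002360847) (nat_lit 37320918348) (.two (nat_lit 21208498184) (nat_lit 166196154268) (.two (nat_lit 605028353) (nat_lit 4638906958) (.two (nat_lit 1048576) (nat_lit 8398804) (.one (nat_lit 1060111) .nil))))),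
   .two (nat_lit 3003121729) (nat_lit 174753579203) (.two (nat_lit 47563407375) (nat_lit 166197200414) (.two (nat_lit 171966469) (nat_lit 304091020) (.two (nat_lit 4194305) (nat_lit 337648213) (.two (nat_lit 1048576) (nat_lit 1176510599) (.one (nat_lit 16788752) .nil))))),
   .two (nat_lit 13195280497) (nat_lit 19532874085) (.two (nat_lit 183853121551) (nat_lit 166132188002) (.two (nat_lit 9802088460) (nat_lit 19033755542) (.two (nat_lit 156367847425) (nat_lit 2323649848) (.two (nat_lit 8388608) (nat_lit 9969869761) (.one (nat_lit 11580483246) .nil))))),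
   .two (nat_lit 183912890433) (nat_lit 3558868347) (.two (nat_lit 11513364493) (nat_lit 10504635934) (.two (nat_lit 11479810053) (nat_lit 672142330) (.two (nat_lit 4194305) (nat_lit 4027589727) (.one (nat_lit 1060113) .nil)))),
   .two (nat_lit 310378563) (nat_lit 184550025) (.two (nat_lit 9948889103) (nat_lit 37253809538) (.two (nat_lit 184549384) (nat_lit 10443820951) (.two (nat_lit 8388609) (nat_lit 21793610333) (.two (nat_lit 4194304) (nat_lit 713040989) (.one (nat_lit 16788082) .nil))))),
   .two (nat_lit 12117344320) (nat_lit 10343154315) (.two (nat_lit 276824079) (nat_lit 687868437) (.two (nat_lit 9765388293) (nat_lit 46489670630) (.two (nat_lit 34603009) (nat_lit 2432705592) (.one (nat_lit 4205842) .nil)))),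
   .two (nat_lit 843055171) (nat_lit 1317011820) (.two (nat_lit 11479810063) (nat_lit 9881781090) (.two (nat_lit 75497485) (nat_lit 11022633497) (.two (nat_lit 75497477) (nat_lit 20707282828) (.two (nat_lit 8388609) (nat_lit 171971898) (.two (nat_lit 16777216) (nat_lit 185023340695) (.one (nat_lit 47588583898) .nil)))))),
   .two (nat_lit 11559501888) (nat_lit 28093448816) (.two (nat_lit 2961178639) (nat_lit 117441821) (.two (nat_lit 10369368072) (nat_lit 20652756391) (.two (nat_lit 1276116996) (nat_lit 46481280908) (.two (nat_lit 50331649) (nat_lit 1057203) (.two (nat_lit 1048576) (nat_lit 8398010) (.one (nat_lit 10436488161) .nil)))))),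
   .two (nat_lit 46508539969) (nat_lit 19599982787) (.two (nat_lit 276824079) (nat_lit 4632611331) (.two (nat_lit 9765388293) (nat_lit 639635352) (.two (nat_lit 8388609) (nat_lit 2956991162) (.two (nat_lit 1048576) (nat_lit 138421378) (.one (nat_lit 243281154) .nil))))),
   .two (nat_lit 11551113282) (nat_lit 11559502019) (.two (nat_lit 721420303) (nat_lit 11007953429) (.two (nat_lit 171966469) (nat_lit 807407503) (.two (nat_lit 4194305) (nat_lit 2102587) (.two (nat_lit 1048576) (nat_lit 807410543) (.one (nat_lit 2108691) .nil))))),
   .two (nat_lit 20644364353) (nat_lit 184986632387) (.two (nat_lit 18933088271) (nat_lit 21207450940) (.two (nat_lit 184423546888) (nat_lit 11476668306) (.two (nat_lit 2097153) (nat_lit 12047096444) (.two (nat_lit 1048576) (nat_lit 2107349) (.one (nat_lit 2108692) .nil))))),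
   .two (nat_lit 184993972290) (nat_lit 21207450260) (.two (nat_lit 19596836879) (nat_lit 21785216290) (.two (nat_lit 183845781512) (nat_lit 184993976196) (.two (nat_lit 2097153) (nat_lit 1056300) (.two (nat_lit 2097152) (nat_lit 672146410) (.one (nat_lit 2108693) .nil))))),
   .two (nat_lit 37316722926) (nat_lit 183912890563) (.two (nat_lit 4194319) (nat_lit 47588575757) (.two (nat_lit 156971827205) (nat_lit 1954550778) (.two (nat_lit 4194305) (nat_lit 1057204) (.two (nat_lit 4194304) (nat_lit 8398806) (.one (nat_lit 8400150) .nil))))),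
   .two (nat_lit 47548727362) (nat_lit 174759871137) (.two (nat_lit 8388623) (nat_lit 156567078196) (.two (nat_lit 46414168072) (nat_lit 10372516376) (.two (nat_lit 46414168069) (nat_lit 166199299987) (.two (nat_lit 4194305) (nat_lit 2969574892) (.two (nat_lit 16777216) (nat_lit 4203707) (.one (nat_lit 4205847) .nil)))))),
   .two (nat_lit 2988441666) (nat_lit 708837736) (.two (nat_lit 9866051599) (nat_lit 183916037455) (.two (nat_lit 28757196808) (nat_lit 4030728721) (.two (nat_lit 28690087941) (nat_lit 19597892269) (.two (nat_lit 4194304) (nat_lit 157036848279) (.one (nat_lit 2108696) .nil))))),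
   .two (nat_lit 654311491) (nat_lit 46508540538) (.two (nat_lit 1291845647) (nat_lit 2099250) (.two (nat_lit 11007950860) (nat_lit 16780772) (.two (nat_lit 10336862213) (nat_lit 16783214) (.two (nat_lit 606076929) (nat_lit 16784059) (.two (nat_lit 2097152) (nat_lit 16787415) (.one (nat_lit 2954897994) .nil)))))),
   .two (nat_lit 158192369730) (nat_lit 705692009) (.two (nat_lit 166132187151) (nat_lit 28690088803) (.two (nat_lit 156971827208) (nat_lit 1052133) (.two (nat_lit 28757196805) (nat_lit 3539997661) (.two (nat_lit 9768534017) (nat_lit 11543780847) (.two (nat_lit 4194304) (nat_lit 1058776) (.one (nat_lit 1060121) .nil)))))),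
   .two (nat_lit 16777283) (nat_lit 2886730086) (.two (nat_lit 184549391) (nat_lit 165525065183) (.two (nat_lit 8388612) (nat_lit 706745364) (.two (nat_lit 8388609) (nat_lit 2105781) (.two (nat_lit 2097152) (nat_lit 16787417) (.one (nat_lit 8400154) .nil))))),
   .two (nat_lit 4601151597) (nat_lit 183920231268) (.two (nat_lit 46984593416) (nat_lit 13224643095) (.two (nat_lit 654311429) (nat_lit 157035794319) (.two (nat_lit 37748737) (nat_lit 20711479892) (.two (nat_lit 1048576) (nat_lit 16786620) (.one (nat_lit 16788763) .nil))))),
   .two (nat_lit 2902458434) (nat_lit 185027527312) (.two (nat_lit 2969567247) (nat_lit 9936307566) (.two (nat_lit 41943048) (nat_lit 18941479429) (.two (nat_lit 809500677) (nat_lit 2927630148) (.two (nat_lit 8388609) (nat_lit 4202934) (.two (nat_lit 16777216) (nat_lit 19096675511) (.one (nat_lit 4205173) .nil)))))),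
   .two (nat_lit 620757105) (nat_lit 169869669) (.two (nat_lit 4194319) (nat_lit 158158816602) (.two (nat_lit 11476664328) (nat_lit 2923431454) (.two (nat_lit 806354949) (nat_lit 1379931148) (.two (nat_lit 50331649) (nat_lit 1849695777) (.two (nat_lit 1048576) (nat_lit 16786621) (.one (nat_lit 1060124) .nil)))))),
   .two (nat_lit 158144135233) (nat_lit 46477082819) (.two (nat_lit 10504634383) (nat_lit 166132188450) (.two (nat_lit 2887778312) (nat_lit 4197862) (.two (nat_lit 2097157) (nat_lit 4199465) (.two (nat_lit 34603009) (nat_lit 18926803558) (.two (nat_lit 1048576) (nat_lit 2106558) (.one (nat_lit 20704144660) .nil)))))),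
   .two (nat_lit 20644364398) (nat_lit 156533522790) (.two (nat_lit 10343153679) (nat_lit 9867101523) (.two (nat_lit 3458203656) (nat_lit 18933092230) (.two (nat_lit 156365750273) (nat_lit 20644372635) (.one (nat_lit 8400157) .nil)))),
   .two (nat_lit 2316304499) (nat_lit 21827158373) (.two (nat_lit 19532873743) (nat_lit 9982445607) (.two (nat_lit 46523219981) (nat_lit 742395807) (.two (nat_lit 34603009) (nat_lit 28089260680) (.two (nat_lit 1048576) (nat_lit 10506740824) (.one (nat_lit 16788766) .nil))))),
   .two (nat_lit 772800578) (nat_lit 185035915929) (.two (nat_lit 9948889103) (nat_lit 47582283089) (.two (nat_lit 169869320) (nat_lit 16779795) (.two (nat_lit 69206021) (nat_lit 2432701447) (.two (nat_lit 37748737) (nat_lit 159251440598) (.one (nat_lit 2108703) .nil))))),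
   .two (nat_lit 1795162179) (nat_lit 166229705328) (.two (nat_lit 754974735) (nat_lit 34603876) (.two (nat_lit 20637024264) (nat_lit 174701154199) (.two (nat_lit 4194305) (nat_lit 20652759919) (.one (nat_lit 16788089) .nil)))),
   .two (nat_lit 9802088515) (nat_lit 20753416874) (.two (nat_lit 9781116943) (nat_lit 1212155166) (.two (nat_lit 4194312) (nat_lit 620760497) (.two (nat_lit 11492392964) (nat_lit 9765392275) (.two (nat_lit 37748737) (nat_lit 101718639) (.two (nat_lit 1048576) (nat_lit 184989787199) (.one (nat_lit 1059314) .nil)))))),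
   .two (nat_lit 184549491) (nat_lit 11618222438) (.two (nat_lit 184549416) (nat_lit 11618223398) (.two (nat_lit 184549389) (nat_lit 10007611906) (.two (nat_lit 184549381) (nat_lit 10913584440) (.two (nat_lit 16777216) (nat_lit 8398020) (.one (nat_lit 8400160) .nil))))),
   .two (nat_lit 2969567296) (nat_lit 4194991) (.two (nat_lit 654311439) (nat_lit 9936307504) (.two (nat_lit 272629768) (nat_lit 9948891646) (.two (nat_lit 4194308) (nat_lit 16782379) (.two (nat_lit 9781116929) (nat_lit 4202030) (.two (nat_lit 16777216) (nat_lit 4203718) (.one (nat_lit 4205857) .nil)))))),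
   .two (nat_lit 272629827) (nat_lit 174686470501) (.two (nat_lit 2889875471) (nat_lit 47582284314) (.two (nat_lit 2889875460) (nat_lit 159251436560) (.two (nat_lit 4194305) (nat_lit 203430554) (.two (nat_lit 2097152) (nat_lit 21214799774) (.one (nat_lit 8399482) .nil))))),
   .two (nat_lit 9881780334) (nat_lit 705692009) (.two (nat_lit 9881780248) (nat_lit 174685422924) (.two (nat_lit 28690087944) (nat_lit 16780775) (.two (nat_lit 50331653) (nat_lit 11476669459) (.two (nat_lit 9765388289) (nat_lit 185002366269) (.two (nat_lit 1048576) (nat_lit 9781126114) (.one (nat_lit 184986642097) .nil)))))),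
   .two (nat_lit 3527409729) (nat_lit 158177689961) (.two (nat_lit 47548727311) (nat_lit 4030727504) (.two (nat_lit 10506731528) (nat_lit 10370420141) (.two (nat_lit 169869316) (nat_lit 156468516713) (.two (nat_lit 2097153) (nat_lit 4202031) (.two (nat_lit 2097152) (nat_lit 4203719) (.one (nat_lit 203434513) .nil)))))),
   .two (nat_lit 9881780289) (nat_lit 185020187240) (.two (nat_lit 9866051599) (nat_lit 21223180835) (.two (nat_lit 1276116996) (nat_lit 318773859) (.two (nat_lit 16777216) (nat_lit 1057992) (.one (nat_lit 1060130) .nil)))),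
   .two (nat_lit 50331761) (nat_lit 19529728364) (.two (nat_lit 83886095) (nat_lit 705693022) (.two (nat_lit 11559501832) (nat_lit 20637029398) (.two (nat_lit 50331649) (nat_lit 839916196) (.two (nat_lit 1048576) (nat_lit 83894424) (.one (nat_lit 13221504688) .nil))))),
   .two (nat_lit 158075977795) (nat_lit 46481277560) (.two (nat_lit 183853121551) (nat_lit 21207451008) (.two (nat_lit 19604176904) (nat_lit 19026415506) (.two (nat_lit 620756993) (nat_lit 142613096) (.two (nat_lit 16777216) (nat_lit 1057993) (.one (nat_lit 8400163) .nil))))),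
   .two (nat_lit 1376780401) (nat_lit 158192370021) (.two (nat_lit 272629775) (nat_lit 11559503142) (.two (nat_lit 1795162120) (nat_lit 28793900499) (.two (nat_lit 1191182341) (nat_lit 843059076) (.two (nat_lit 16777217) (nat_lit 10506738355) (.two (nat_lit 1048576) (nat_lit 19142812636) (.one (nat_lit 4205860) .nil)))))),
   .two (nat_lit 174686470261) (nat_lit 28760343173) (.two (nat_lit 174753579023) (nat_lit 185023333745) (.two (nat_lit 3527409672) (nat_lit 183913942924) (.two (nat_lit 606076929) (nat_lit 13191095293) (.one (nat_lit 2108029) .nil)))),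
   .two (nat_lit 1191182449) (nat_lit 1745879725) (.two (nat_lit 46407876623) (nat_lit 754976133) (.two (nat_lit 705691656) (nat_lit 11492394526) (.two (nat_lit 9933160453) (nat_lit 807410299) (.two (nat_lit 2097152) (nat_lit 184419361915) (.one (nat_lit 2108709) .nil))))),
   .two (nat_lit 184549441) (nat_lit 11007951467) (.two (nat_lit 28758245391) (nat_lit 46409974627) (.two (nat_lit 9781116936) (nat_lit 2889878032) (.two (nat_lit 166130089989) (nat_lit 19042145318) (.two (nat_lit 2097153) (nat_lit 4202935) (.two (nat_lit 4194304) (nat_lit 2107354) (.one (nat_lit 2108420) .nil)))))),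
   .two (nat_lit 46414168308) (nat_lit 16777411) (.two (nat_lit 183853121551) (nat_lit 184431936826) (.two (nat_lit 183853121544) (nat_lit 16778781) (.two (nat_lit 41943045) (nat_lit 16781187) (.two (nat_lit 41943041) (nat_lit 20719867197) (.two (nat_lit 8388608) (nat_lit 16786634) (.one (nat_lit 8399487) .nil)))))),
   .two (nat_lit 12129927233) (nat_lit 4195374) (.two (nat_lit 218103823) (nat_lit 272631103) (.two (nat_lit 606076936) (nat_lit 47596964381) (.two (nat_lit 1176502277) (nat_lit 9936311325) (.two (nat_lit 37748737) (nat_lit 9967770194) (.two (nat_lit 4194304) (nat_lit 8398027) (.one (nat_lit 8400166) .nil)))))),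
   .two (nat_lit 184993972288) (nat_lit 12617515638) (.two (nat_lit 612368399) (nat_lit 46992983408) (.two (nat_lit 2969567240) (nat_lit 184993973790) (.two (nat_lit 184549380) (nat_lit 184993976196) (.two (nat_lit 41943041) (nat_lit 13187949768) (.one (nat_lit 1060135) .nil))))),
   .two (nat_lit 184549491) (nat_lit 1417675410) (.two (nat_lit 1191182351) (nat_lit 28760343920) (.two (nat_lit 104857608) (nat_lit 2969571204) (.two (nat_lit 37748737) (nat_lit 822090407) (.two (nat_lit 4194304) (nat_lit 16787419) (.one (nat_lit 4205864) .nil))))),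
   .two (nat_lit 754974831) (nat_lit 306184387) (.two (nat_lit 272629775) (nat_lit 3539996110) (.two (nat_lit 16777220) (nat_lit 843059076) (.two (nat_lit 37748737) (nat_lit 11525954214) (.two (nat_lit 16777216) (nat_lit 306193533) (.one (nat_lit 4205071) .nil))))),
   .two (nat_lit 11543773248) (nat_lit 1795162728) (.two (nat_lit 739246095) (nat_lit 19142805538) (.two (nat_lit 721420296) (nat_lit 28790752798) (.two (nat_lit 721420292) (nat_lit 2886734892) (.two (nat_lit 50331649) (nat_lit 1056304) (.two (nat_lit 1048576) (nat_lit 16787420) (.one (nat_lit 1060137) .nil)))))),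
   .two (nat_lit 11543773248) (nat_lit 41943717) (.two (nat_lit 158083317775) (nat_lit 168822117) (.two (nat_lit 68157448) (nat_lit 1417677311) (.two (nat_lit 184986632197) (nat_lit 10443822063) (.two (nat_lit 156367847425) (nat_lit 46406834774) (.two (nat_lit 1048576) (nat_lit 4203726) (.one (nat_lit 1060138) .nil)))))),
   .two (nat_lit 11559501888) (nat_lit 11006902945) (.two (nat_lit 4194319) (nat_lit 1358955805) (.two (nat_lit 9781116936) (nat_lit 158146234885) (.two (nat_lit 705691652) (nat_lit 1413485585) (.two (nat_lit 37748737) (nat_lit 19127082537) (.two (nat_lit 1048576) (nat_lit 4203727) (.one (nat_lit 19127085676) .nil)))))),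
   .two (nat_lit 705691713) (nat_lit 721421155) (.two (nat_lit 169869320) (nat_lit 28705820115) (.two (nat_lit 822083589) (nat_lit 183913942929) (.two (nat_lit 50331649) (nat_lit 706747004) (.two (nat_lit 4194304) (nat_lit 1862280147) (.one (nat_lit 16788779) .nil))))),
   .two (nat_lit 2969567296) (nat_lit 9967764086) (.two (nat_lit 2887778319) (nat_lit 2969568541) (.two (nat_lit 203423752) (nat_lit 16780776) (.two (nat_lit 2954887173) (nat_lit 1054575) (.two (nat_lit 2097153) (nat_lit 1057208) (.two (nat_lit 1048576) (nat_lit 2106576) (.one (nat_lit 1060140) .nil)))))),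
   .two (nat_lit 11584667714) (nat_lit 2416968038) (.two (nat_lit 12114198543) (nat_lit 13191088654) (.two (nat_lit 809500677) (nat_lit 2953845412) (.two (nat_lit 4194304) (nat_lit 11476673654) (.one (nat_lit 1060141) .nil)))),
   .two (nat_lit 46477082690) (nat_lit 10370417281) (.two (nat_lit 2887778319) (nat_lit 3527410978) (.two (nat_lit 10504634376) (nat_lit 675285532) (.two (nat_lit 156367847429) (nat_lit 28087160723) (.two (nat_lit 606076929) (nat_lit 28690095641) (.two (nat_lit 1048576) (nat_lit 2106578) (.one (nat_lit 1060142) .nil)))))),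
   .two (nat_lit 11492393077) (nat_lit 343933123) (.two (nat_lit 11492392975) (nat_lit 10007610910) (.two (nat_lit 50331653) (nat_lit 612373816) (.two (nat_lit 16777216) (nat_lit 1417683096) (.one (nat_lit 8399492) .nil)))),
   .two (nat_lit 159224168515) (nat_lit 11007951456) (.two (nat_lit 10370416655) (nat_lit 1954546989) (.two (nat_lit 166130089992) (nat_lit 8392169) (.two (nat_lit 158144135173) (nat_lit 8393774) (.two (nat_lit 606076929) (nat_lit 8396337) (.two (nat_lit 2097152) (nat_lit 8398813) (.one (nat_lit 2108719) .nil)))))),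
   .two (nat_lit 16777280) (nat_lit 9906947407) (.two (nat_lit 16777224) (nat_lit 343936449) (.two (nat_lit 41943045) (nat_lit 20740837256) (.two (nat_lit 612368385) (nat_lit 13224649654) (.one (nat_lit 8400176) .nil)))),
   .two (nat_lit 3464495218) (nat_lit 158144135525) (.two (nat_lit 1277165583) (nat_lit 156372042594) (.two (nat_lit 46414168072) (nat_lit 18926799403) (.two (nat_lit 46414168068) (nat_lit 12115251095) (.two (nat_lit 8388609) (nat_lit 184417262161) (.two (nat_lit 2097152) (nat_lit 8396965) (.one (nat_lit 136325603) .nil)))))),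
   .two (nat_lit 4605345856) (nat_lit 10336862403) (.two (nat_lit 721420303) (nat_lit 11611931492) (.two (nat_lit 2954887176) (nat_lit 156481096227) (.two (nat_lit 169869316) (nat_lit 2969572358) (.two (nat_lit 8388609) (nat_lit 2936019582) (.two (nat_lit 8388608) (nat_lit 687875158) (.one (nat_lit 2108721) .nil)))))),
   .two (nat_lit 285212782) (nat_lit 1212154456) (.two (nat_lit 822083599) (nat_lit 9802090014) (.two (nat_lit 4194308) (nat_lit 19042144158) (.two (nat_lit 37748737) (nat_lit 166211886601) (.two (nat_lit 16777216) (nat_lit 4204510) (.one (nat_lit 4205602) .nil))))),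
   .two (nat_lit 4028629106) (nat_lit 1178600078) (.two (nat_lit 822083599) (nat_lit 19599983911) (.two (nat_lit 606076936) (nat_lit 12163485120) (.two (nat_lit 11479810052) (nat_lit 185021240360) (.two (nat_lit 156365750273) (nat_lit 9814680653) (.one (nat_lit 2108722) .nil))))),
   .two (nat_lit 847249475) (nat_lit 28693234021) (.two (nat_lit 639631375) (nat_lit 2894071109) (.two (nat_lit 639631368) (nat_lit 4197866) (.two (nat_lit 1176502277) (nat_lit 12150903822) (.two (nat_lit 2097153) (nat_lit 21814584408) (.one (nat_lit 4205875) .nil))))),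
   .two (nat_lit 1358954563) (nat_lit 156968682128) (.two (nat_lit 620757007) (nat_lit 18933089570) (.two (nat_lit 28690087944) (nat_lit 1291849177) (.two (nat_lit 209715205) (nat_lit 2332038122) (.two (nat_lit 41943041) (nat_lit 218110615) (.two (nat_lit 1048576) (nat_lit 8398037) (.one (nat_lit 1060148) .nil)))))),
   .two (nat_lit 83886195) (nat_lit 9768534211) (.two (nat_lit 9881780239) (nat_lit 10338960692) (.two (nat_lit 28772925448) (nat_lit 13224642077) (.two (nat_lit 16777221) (nat_lit 239079314) (.two (nat_lit 8388609) (nat_lit 156468517557) (.two (nat_lit 8388608) (nat_lit 156535628878) (.one (nat_lit 4205877) .nil)))))),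
   .two (nat_lit 20738736241) (nat_lit 9974055107) (.two (nat_lit 37748751) (nat_lit 159224170013) (.two (nat_lit 69206021) (nat_lit 2357202840) (.two (nat_lit 2097153) (nat_lit 2319456843) (.two (nat_lit 2097152) (nat_lit 4203734) (.one (nat_lit 4205878) .nil))))),
   .two (nat_lit 272629826) (nat_lit 11559502182) (.two (nat_lit 1343225871) (nat_lit 166245435924) (.two (nat_lit 605028357) (nat_lit 12129932315) (.two (nat_lit 34603009) (nat_lit 183928628252) (.one (nat_lit 16788791) .nil)))),
   .two (nat_lit 3464495169) (nat_lit 4028629598) (.two (nat_lit 47548727311) (nat_lit 109053233) (.two (nat_lit 2954887176) (nat_lit 8393063) (.two (nat_lit 176160773) (nat_lit 2103152) (.two (nat_lit 8388609) (nat_lit 2104882) (.two (nat_lit 2097152) (nat_lit 8398816) (.one (nat_lit 8400184) .nil)))))),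
   .two (nat_lit 272629824) (nat_lit 156372041923) (.two (nat_lit 4601151503) (nat_lit 343934237) (.two (nat_lit 18933088264) (nat_lit 166199299495) (.two (nat_lit 46409973765) (nat_lit 159224173572) (.two (nat_lit 8388609) (nat_lit 4202939) (.two (nat_lit 8388608) (nat_lit 4204513) (.one (nat_lit 239086634) .nil)))))),
   .two (nat_lit 184993972291) (nat_lit 11626612092) (.two (nat_lit 12054429704) (nat_lit 721421854) (.two (nat_lit 46409973764) (nat_lit 19033756691) (.two (nat_lit 4194305) (nat_lit 20745036969) (.one (nat_lit 8400185) .nil)))),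
   .two (nat_lit 639631427) (nat_lit 157038936421) (.two (nat_lit 46980399119) (nat_lit 4632610866) (.two (nat_lit 158144135176) (nat_lit 19130224100) (.two (nat_lit 1277165572) (nat_lit 19130226542) (.two (nat_lit 9766436865) (nat_lit 19130227387) (.two (nat_lit 2097152) (nat_lit 156569183280) (.one (nat_lit 2954898042) .nil)))))),
   .two (nat_lit 16777283) (nat_lit 1417675618) (.two (nat_lit 184549384) (nat_lit 166136384003) (.two (nat_lit 16777221) (nat_lit 184423551957) (.two (nat_lit 41943041) (nat_lit 19142812767) (.one (nat_lit 889203842) .nil)))),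
   .two (nat_lit 2969567297) (nat_lit 1746928985) (.two (nat_lit 2969567240) (nat_lit 2099725) (.two (nat_lit 1176502277) (nat_lit 11626616660) (.two (nat_lit 612368385) (nat_lit 203433043) (.one (nat_lit 16788794) .nil)))),
   .two (nat_lit 3525312578) (nat_lit 185035916617) (.two (nat_lit 3525312520) (nat_lit 2969568798) (.two (nat_lit 2887778308) (nat_lit 150998937) (.two (nat_lit 2097153) (nat_lit 1392515677) (.two (nat_lit 2097152) (nat_lit 16787426) (.one (nat_lit 16788795) .nil))))),
   .two (nat_lit 8388672) (nat_lit 251658897) (.two (nat_lit 176160783) (nat_lit 185002362919) (.two (nat_lit 1178599432) (nat_lit 156539816458) (.two (nat_lit 9948889093) (nat_lit 1853887801) (.two (nat_lit 4194304) (nat_lit 28764545168) (.one (nat_lit 16788796) .nil))))),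
   .two (nat_lit 159224168563) (nat_lit 654312043) (.two (nat_lit 50331663) (nat_lit 20644365154) (.two (nat_lit 13203669000) (nat_lit 19134417411) (.two (nat_lit 46407876612) (nat_lit 1182797715) (.two (nat_lit 2097153) (nat_lit 184423556216) (.one (nat_lit 8400189) .nil))))),
   .two (nat_lit 654311541) (nat_lit 2954887363) (.two (nat_lit 654311439) (nat_lit 166230754846) (.two (nat_lit 46992982021) (nat_lit 236983324) (.two (nat_lit 156364701697) (nat_lit 21793612980) (.one (nat_lit 2920295391) .nil)))),
   .two (nat_lit 156533522499) (nat_lit 4194993) (.two (nat_lit 184986632207) (nat_lit 843056488) (.two (nat_lit 19599982600) (nat_lit 19530779165) (.two (nat_lit 171966469) (nat_lit 10907292715) (.two (nat_lit 4194305) (nat_lit 2103983) (.two (nat_lit 1048576) (nat_lit 2107363) (.one (nat_lit 135277072) .nil)))))),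
   .two (nat_lit 19093520499) (nat_lit 285213342) (.two (nat_lit 117440527) (nat_lit 9966717447) (.two (nat_lit 1913651205) (nat_lit 10016003036) (.two (nat_lit 50331649) (nat_lit 168827495) (.two (nat_lit 1048576) (nat_lit 156380439573) (.one (nat_lit 9899616835) .nil))))),
   .two (nat_lit 16777280) (nat_lit 158653743776) (.two (nat_lit 16777231) (nat_lit 13224642604) (.two (nat_lit 1350565896) (nat_lit 184553347) (.two (nat_lit 41943041) (nat_lit 21223187496) (.one (nat_lit 8399844) .nil)))),
   .two (nat_lit 2969567296) (nat_lit 156466414240) (.two (nat_lit 16777231) (nat_lit 46414169477) (.two (nat_lit 12054429704) (nat_lit 183928621599) (.two (nat_lit 1176502277) (nat_lit 2902462339) (.two (nat_lit 2097153) (nat_lit 28705825832) (.one (nat_lit 46514842187) .nil))))),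
   .two (nat_lit 2416967790) (nat_lit 75498161) (.two (nat_lit 101711887) (nat_lit 16780174) (.two (nat_lit 2961178632) (nat_lit 2887780884) (.two (nat_lit 285212677) (nat_lit 1376785369) (.two (nat_lit 16777217) (nat_lit 174685428379) (.two (nat_lit 2097152) (nat_lit 11492402143) (.one (nat_lit 16788801) .nil)))))),
   .two (nat_lit 184549491) (nat_lit 184993972419) (.two (nat_lit 41943055) (nat_lit 1291846950) (.two (nat_lit 184549389) (nat_lit 21785216542) (.two (nat_lit 184549381) (nat_lit 21785218948) (.two (nat_lit 8388609) (nat_lit 10921976870) (.one (nat_lit 352332273) .nil))))),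
   .two (nat_lit 1779433539) (nat_lit 1344274795) (.two (nat_lit 739246095) (nat_lit 20640171358) (.two (nat_lit 2961178632) (nat_lit 203426333) (.two (nat_lit 13187940357) (nat_lit 10909388691) (.two (nat_lit 612368385) (nat_lit 156532480685) (.two (nat_lit 4194304) (nat_lit 168830039) (.one (nat_lit 1060163) .nil)))))),
   .two (nat_lit 8388672) (nat_lit 174768260138) (.two (nat_lit 822083624) (nat_lit 8390026) (.two (nat_lit 50331660) (nat_lit 343934493) (.two (nat_lit 11559501829) (nat_lit 183920237152) (.two (nat_lit 8388608) (nat_lit 16786652) (.one (nat_lit 9814682690) .nil))))),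
   .two (nat_lit 47555018816) (nat_lit 28758245989) (.two (nat_lit 46508539928) (nat_lit 3531604836) (.two (nat_lit 639631368) (nat_lit 166203492874) (.two (nat_lit 822083589) (nat_lit 3531609124) (.two (nat_lit 50331649) (nat_lit 8395445) (.two (nat_lit 2097152) (nat_lit 8398822) (.one (nat_lit 16788804) .nil)))))),
   .two (nat_lit 185035915331) (nat_lit 2316304990) (.two (nat_lit 183928619031) (nat_lit 10335815015) (.two (nat_lit 754974728) (nat_lit 1052140) (.two (nat_lit 1343225861) (nat_lit 20652758027) (.two (nat_lit 9765388289) (nat_lit 10519321201) (.two (nat_lit 1048576) (nat_lit 16787431) (.one (nat_lit 1060165) .nil)))))),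
   .two (nat_lit 4601151554) (nat_lit 874512745) (.two (nat_lit 11492392975) (nat_lit 183947494244) (.two (nat_lit 272629768) (nat_lit 318769682) (.two (nat_lit 9948889093) (nat_lit 1312822236) (.two (nat_lit 4194305) (nat_lit 1317018184) (.two (nat_lit 8388608) (nat_lit 10338968681) (.one (nat_lit 16788806) .nil)))))),
   .two (nat_lit 343932994) (nat_lit 4601151683) (.two (nat_lit 8388623) (nat_lit 1178600777) (.two (nat_lit 8388616) (nat_lit 10372517768) (.two (nat_lit 8388609) (nat_lit 158146239050) (.two (nat_lit 4194304) (nat_lit 28757207515) .nil)))),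
   .two (nat_lit 11479810158) (nat_lit 183861511012) (.two (nat_lit 3539992584) (nat_lit 4197869) (.two (nat_lit 708837381) (nat_lit 1426068444) (.two (nat_lit 37748737) (nat_lit 20652759636) (.two (nat_lit 2097152) (nat_lit 1947215036) (.one (nat_lit 1060168) .nil))))),
   .two (nat_lit 11559501891) (nat_lit 20704133315) (.two (nat_lit 754974735) (nat_lit 158075979068) (.two (nat_lit 9866051592) (nat_lit 184431938083) (.two (nat_lit 1276116996) (nat_lit 11578381274) (.two (nat_lit 606076929) (nat_lit 101718694) (.two (nat_lit 1048576) (nat_lit 16787435) (.one (nat_lit 16788809) .nil)))))),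
   .two (nat_lit 3458203714) (nat_lit 11593056917) (.two (nat_lit 9781116943) (nat_lit 19128124726) (.two (nat_lit 11479810056) (nat_lit 11611933191) (.two (nat_lit 1916796933) (nat_lit 4647294788) (.two (nat_lit 2097153) (nat_lit 4202942) (.two (nat_lit 2097152) (nat_lit 37249623223) (.one (nat_lit 3560974965) .nil)))))),
   .two (nat_lit 46414168131) (nat_lit 47548727983) (.two (nat_lit 742391823) (nat_lit 3557819711) (.two (nat_lit 169869320) (nat_lit 1317014046) (.two (nat_lit 11546918917) (nat_lit 174759875624) (.two (nat_lit 34603009) (nat_lit 840965602) (.two (nat_lit 1048576) (nat_lit 2106592) (.one (nat_lit 8400202) .nil)))))),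
   .two (nat_lit 8388722) (nat_lit 9781117123) (.two (nat_lit 41943055) (nat_lit 705694222) (.two (nat_lit 9881780229) (nat_lit 174752534424) (.two (nat_lit 41943041) (nat_lit 1795168902) (.two (nat_lit 4194304) (nat_lit 11610890381) (.one (nat_lit 1059473) .nil))))),
   .two (nat_lit 13224640624) (nat_lit 10552869059) (.two (nat_lit 809500687) (nat_lit 2969568798) (.two (nat_lit 2902458372) (nat_lit 159219979308) (.two (nat_lit 156372041729) (nat_lit 156581763688) (.two (nat_lit 4194304) (nat_lit 166211888279) (.one (nat_lit 4205899) .nil))))),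
   .two (nat_lit 10940842095) (nat_lit 28757197164) (.two (nat_lit 1847590927) (nat_lit 21811430942) (.two (nat_lit 28758245381) (nat_lit 1053744) (.two (nat_lit 4194305) (nat_lit 1056309) (.two (nat_lit 4194304) (nat_lit 12048147507) (.one (nat_lit 1060172) .nil))))),
   .two (nat_lit 47582281795) (nat_lit 9881780834) (.two (nat_lit 203423759) (nat_lit 11626613286) (.two (nat_lit 2887778308) (nat_lit 16783218) (.two (nat_lit 2097153) (nat_lit 16784950) (.two (nat_lit 2097152) (nat_lit 16787436) (.one (nat_lit 16788813) .nil))))),
   .two (nat_lit 183912890484) (nat_lit 21827158211) (.two (nat_lit 184416206863) (nat_lit 3036677449) (.two (nat_lit 184416206856) (nat_lit 1795163678) (.two (nat_lit 12114198533) (nat_lit 37262201900) (.two (nat_lit 34603009) (nat_lit 16784051) (.two (nat_lit 4194304) (nat_lit 2316315079) .nil))))),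
   .two (nat_lit 9899606131) (nat_lit 185035915459) (.two (nat_lit 158158815256) (nat_lit 3525313890) (.two (nat_lit 46407876616) (nat_lit 9814673923) (.two (nat_lit 2097157) (nat_lit 10385103537) (.two (nat_lit 2097152) (nat_lit 16786658) (.one (nat_lit 16788814) .nil))))),
   .two (nat_lit 46978302066) (nat_lit 9802088805) (.two (nat_lit 46409973775) (nat_lit 1344275781) (.two (nat_lit 183845781512) (nat_lit 4198761) (.two (nat_lit 4599054341) (nat_lit 12050240526) (.two (nat_lit 2097153) (nat_lit 2349865608) (.two (nat_lit 1048576) (nat_lit 2106595) (.one (nat_lit 2108051) .nil)))))),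
   .two (nat_lit 4030726210) (nat_lit 174753579365) (.two (nat_lit 165526110223) (nat_lit 1376781671) (.two (nat_lit 21207449608) (nat_lit 11578380639) (.two (nat_lit 159216828421) (nat_lit 156466418702) (.two (nat_lit 4194305) (nat_lit 9934216734) (.two (nat_lit 1048576) (nat_lit 2107373) (.one (nat_lit 1060175) .nil)))))),
   .two (nat_lit 218103922) (nat_lit 11007951518) (.two (nat_lit 2902458383) (nat_lit 1344275822) (.two (nat_lit 2902458376) (nat_lit 20638077916) (.two (nat_lit 2097153) (nat_lit 251665059) (.two (nat_lit 2097152) (nat_lit 318777956) .nil)))),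
   .two (nat_lit 721420353) (nat_lit 4195377) (.two (nat_lit 2889875471) (nat_lit 83886947) (.two (nat_lit 11492392968) (nat_lit 2319454106) (.two (nat_lit 156372041729) (nat_lit 185035922952) (.two (nat_lit 1048576) (nat_lit 10376717492) (.one (nat_lit 8399508) .nil))))),
   .two (nat_lit 11559501890) (nat_lit 11476665003) (.two (nat_lit 11559501839) (nat_lit 10335815042) (.two (nat_lit 28690087944) (nat_lit 46422561746) (.two (nat_lit 9765388289) (nat_lit 19545463370) (.two (nat_lit 1048576) (nat_lit 1962943620) (.one (nat_lit 166129052123) .nil))))),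
   .two (nat_lit 21785215089) (nat_lit 889192812) (.two (nat_lit 285212687) (nat_lit 158083318626) (.two (nat_lit 822083592) (nat_lit 2894072363) (.two (nat_lit 16777220) (nat_lit 166136385431) (.two (nat_lit 16777217) (nat_lit 1920997969) (.two (nat_lit 1048576) (nat_lit 276833259) (.one (nat_lit 11593067022) .nil)))))),
   .two (nat_lit 4601151552) (nat_lit 11578376551) (.two (nat_lit 183848927247) (nat_lit 1344276495) (.two (nat_lit 12050235400) (nat_lit 2349861402) (.two (nat_lit 1847590917) (nat_lit 11546924023) (.two (nat_lit 9766436865) (nat_lit 10439629402) (.two (nat_lit 1048576) (nat_lit 4204529) (.one (nat_lit 1060176) .nil)))))),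
   .two (nat_lit 158083317825) (nat_lit 352321731) (.two (nat_lit 2416967720) (nat_lit 2323645282) (.two (nat_lit 135266316) (nat_lit 1317014036) (.two (nat_lit 1913651205) (nat_lit 156539820708) (.two (nat_lit 1048576) (nat_lit 8398055) (.one (nat_lit 1059889) .nil))))),
   .two (nat_lit 705691713) (nat_lit 184993972581) (.two (nat_lit 809500687) (nat_lit 11543774567) (.two (nat_lit 47584378893) (nat_lit 1310722586) (.two (nat_lit 638582789) (nat_lit 165528211347) (.two (nat_lit 8388609) (nat_lit 10939800151) (.two (nat_lit 1048576) (nat_lit 8398834) (.one (nat_lit 11484015194) .nil)))))),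
   .two (nat_lit 9781117038) (nat_lit 843055461) (.two (nat_lit 285212687) (nat_lit 158079126052) (.two (nat_lit 10385096709) (nat_lit 20707283964) (.two (nat_lit 9781116929) (nat_lit 1916803754) (.two (nat_lit 16777216) (nat_lit 4204531) (.one (nat_lit 4205905) .nil))))),
   .two (nat_lit 46978302018) (nat_lit 13191086721) (.two (nat_lit 159232557071) (nat_lit 174686472704) (.two (nat_lit 708837381) (nat_lit 47563414164) (.two (nat_lit 16777216) (nat_lit 272638949) (.one (nat_lit 2108754) .nil)))),
   .two (nat_lit 11559501888) (nat_lit 705692331) (.two (nat_lit 11559501839) (nat_lit 28086111110) (.two (nat_lit 754974728) (nat_lit 11476668762) (.two (nat_lit 11492392964) (nat_lit 2886734872) (.two (nat_lit 50331649) (nat_lit 1056311) (.two (nat_lit 1048576) (nat_lit 16786664) (.one (nat_lit 1060179) .nil)))))),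
   .two (nat_lit 183912890477) (nat_lit 75498161) (.two (nat_lit 184416206871) (nat_lit 11618223394) (.two (nat_lit 2961178632) (nat_lit 1746930187) (.two (nat_lit 285212677) (nat_lit 303043545) (.two (nat_lit 16777217) (nat_lit 672143975) (.two (nat_lit 2097152) (nat_lit 11492402143) (.one (nat_lit 8400212) .nil)))))),
   .two (nat_lit 11559501888) (nat_lit 47547679080) (.two (nat_lit 1358954511) (nat_lit 28757198158) (.two (nat_lit 1291845640) (nat_lit 166130093480) (.two (nat_lit 10504634373) (nat_lit 16783221) (.two (nat_lit 9765388289) (nat_lit 2954896436) (.one (nat_lit 4631571019) .nil))))),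
   .two (nat_lit 4605345858) (nat_lit 11559502470) (.two (nat_lit 16777231) (nat_lit 11014243661) (.two (nat_lit 9948889096) (nat_lit 2350909972) (.two (nat_lit 184549380) (nat_lit 3458208778) (.two (nat_lit 620756993) (nat_lit 337648284) (.two (nat_lit 1048576) (nat_lit 304096312) (.one (nat_lit 2108758) .nil)))))),
   .two (nat_lit 20704133187) (nat_lit 109052525) (.two (nat_lit 713031695) (nat_lit 174752531299) (.two (nat_lit 3460300808) (nat_lit 10007613318) (.two (nat_lit 4194305) (nat_lit 41949878) (.two (nat_lit 1048576) (nat_lit 159219983377) (.one (nat_lit 20640180726) .nil))))),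
   .two (nat_lit 1358954613) (nat_lit 880804035) (.two (nat_lit 1358954537) (nat_lit 343934494) (.two (nat_lit 83886085) (nat_lit 343938359) (.two (nat_lit 16777216) (nat_lit 75507372) .nil))),
   .two (nat_lit 4634705987) (nat_lit 8389682) (.two (nat_lit 205520911) (nat_lit 13222544771) (.two (nat_lit 4194312) (nat_lit 156372044307) (.two (nat_lit 9933160453) (nat_lit 9799996456) (.two (nat_lit 4194305) (nat_lit 159217884644) (.two (nat_lit 1048576) (nat_lit 4632618157) (.one (nat_lit 1059480) .nil)))))),
   .two (nat_lit 4613734466) (nat_lit 28693234022) (.two (nat_lit 9948889103) (nat_lit 1377831463) (.two (nat_lit 2097157) (nat_lit 19042144136) (.two (nat_lit 2097153) (nat_lit 20740840014) (.two (nat_lit 4194304) (nat_lit 270543352) .nil)))),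
   .two (nat_lit 28806479988) (nat_lit 1947206247) (.two (nat_lit 117440527) (nat_lit 1175455096) (.two (nat_lit 11543773197) (nat_lit 9915337223) (.two (nat_lit 806354949) (nat_lit 318772258) (.two (nat_lit 2097153) (nat_lit 788535971) (.two (nat_lit 1048576) (nat_lit 12163490934) (.one (nat_lit 1060183) .nil)))))),
   .two (nat_lit 3028287553) (nat_lit 218104421) (.two (nat_lit 176160783) (nat_lit 218105125) (.two (nat_lit 50331656) (nat_lit 47555020317) (.two (nat_lit 721420292) (nat_lit 28086113252) (.two (nat_lit 620756993) (nat_lit 12155099742) (.two (nat_lit 1048576) (nat_lit 8398059) (.one (nat_lit 8400216) .nil)))))),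
   .two (nat_lit 3525312576) (nat_lit 11614028644) (.two (nat_lit 205520904) (nat_lit 69209992) (.two (nat_lit 50331649) (nat_lit 1411390036) (.two (nat_lit 2097152) (nat_lit 1058804) (.one (nat_lit 1060185) .nil)))),
   .two (nat_lit 721420353) (nat_lit 37253809186) (.two (nat_lit 10343153679) (nat_lit 50333008) (.two (nat_lit 46984593416) (nat_lit 184550942) (.two (nat_lit 75497477) (nat_lit 184553347) (.two (nat_lit 612368385) (nat_lit 20753422975) (.two (nat_lit 1048576) (nat_lit 8398837) (.one (nat_lit 2953849389) .nil)))))),
   .two (nat_lit 12163481667) (nat_lit 19093521036) (.two (nat_lit 1358954511) (nat_lit 28086109575) (.two (nat_lit 19529728008) (nat_lit 673188354) (.two (nat_lit 270532613) (nat_lit 3003125663) (.two (nat_lit 9765388289) (nat_lit 159217883773) (.two (nat_lit 1048576) (nat_lit 2107382) (.one (nat_lit 1060186) .nil)))))),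
   .two (nat_lit 2988441665) (nat_lit 10510927167) (.two (nat_lit 2961178632) (nat_lit 236980736) (.two (nat_lit 746586117) (nat_lit 1309676538) (.two (nat_lit 612368385) (nat_lit 9866058365) (.two (nat_lit 1048576) (nat_lit 2107383) (.one (nat_lit 10538200394) .nil))))),
   .two (nat_lit 11517558894) (nat_lit 10506731715) (.two (nat_lit 742391823) (nat_lit 46984594764) (.two (nat_lit 9867100168) (nat_lit 11584670218) (.two (nat_lit 1277165572) (nat_lit 71307144) (.two (nat_lit 606076929) (nat_lit 1413487190) (.two (nat_lit 2097152) (nat_lit 156367856788) (.one (nat_lit 2108058) .nil)))))),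
   .two (nat_lit 11513364545) (nat_lit 4028629627) (.two (nat_lit 183848927247) (nat_lit 3021997420) (.two (nat_lit 2887778312) (nat_lit 166232854430) (.two (nat_lit 9768534017) (nat_lit 102767282) (.two (nat_lit 1048576) (nat_lit 1379936723) .nil)))),
   .two (nat_lit 183853121601) (nat_lit 166132187494) (.two (nat_lit 713031695) (nat_lit 843057181) (.two (nat_lit 3527409672) (nat_lit 645926363) (.two (nat_lit 46980399109) (nat_lit 2994739044) (.two (nat_lit 4194305) (nat_lit 11584674436) (.two (nat_lit 4194304) (nat_lit 8398062) (.one (nat_lit 171977257) .nil)))))),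
   .two (nat_lit 184986632258) (nat_lit 158083318626) (.two (nat_lit 68157448) (nat_lit 1853884961) (.two (nat_lit 9866051589) (nat_lit 11517563931) (.two (nat_lit 34603009) (nat_lit 12050243719) (.one (nat_lit 4205915) .nil)))),
   .two (nat_lit 47555018819) (nat_lit 16778292) (.two (nat_lit 721420303) (nat_lit 9806284108) (.two (nat_lit 46984593416) (nat_lit 9915337255) (.two (nat_lit 47555018757) (nat_lit 16783222) (.two (nat_lit 8388609) (nat_lit 16785857) (.two (nat_lit 1048576) (nat_lit 8397825) (.one (nat_lit 1060188) .nil)))))),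
   .two (nat_lit 3573547118) (nat_lit 2098020) (.two (nat_lit 3539992584) (nat_lit 183947497363) (.two (nat_lit 16777217) (nat_lit 28758252216) (.two (nat_lit 1048576) (nat_lit 10538198704) .nil))),
   .two (nat_lit 3573547074) (nat_lit 4028629349) (.two (nat_lit 218103823) (nat_lit 28791801145) (.two (nat_lit 47582281740) (nat_lit 1761611227) (.two (nat_lit 19530776581) (nat_lit 9982448654) (.two (nat_lit 16777217) (nat_lit 18926803574) (.two (nat_lit 2097152) (nat_lit 16786672) (.one (nat_lit 1377839640) .nil)))))),
   .two (nat_lit 11618222146) (nat_lit 37313577564) (.two (nat_lit 184993972239) (nat_lit 158176643583) (.two (nat_lit 41943045) (nat_lit 3524269042) (.two (nat_lit 605028353) (nat_lit 18933095045) (.two (nat_lit 8388608) (nat_lit 12617525181) (.one (nat_lit 185027537423) .nil))))),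
   .two (nat_lit 2902458434) (nat_lit 3024093852) (.two (nat_lit 46409973775) (nat_lit 1384122417) (.two (nat_lit 46409973768) (nat_lit 47547682235) (.two (nat_lit 9933160453) (nat_lit 2432701756) (.two (nat_lit 4194304) (nat_lit 16788058) .nil)))),
   .two (nat_lit 12617515074) (nat_lit 10452206205) (.two (nat_lit 46978301967) (nat_lit 3472885104) (.two (nat_lit 1291845640) (nat_lit 1175458149) (.two (nat_lit 2097157) (nat_lit 50335620) (.two (nat_lit 34603009) (nat_lit 169876091) (.two (nat_lit 1048576) (nat_lit 2107385) (.one (nat_lit 10537150965) .nil)))))),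
   .two (nat_lit 4605345856) (nat_lit 235930239) (.two (nat_lit 13195280399) (nat_lit 269485381) (.two (nat_lit 19604176904) (nat_lit 12147755539) (.two (nat_lit 9933160453) (nat_lit 8394615) (.two (nat_lit 4194305) (nat_lit 168827470) (.two (nat_lit 4194304) (nat_lit 889201784) (.one (nat_lit 16788829) .nil)))))),
   .two (nat_lit 158083317826) (nat_lit 50332296) (.two (nat_lit 166132187159) (nat_lit 21811430701) (.two (nat_lit 166129041416) (nat_lit 47584381465) (.two (nat_lit 9933160453) (nat_lit 166237049873) (.two (nat_lit 605028353) (nat_lit 166232857230) (.two (nat_lit 1048576) (nat_lit 4203761) (.one (nat_lit 4205919) .nil)))))),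
   .two (nat_lit 713031790) (nat_lit 754975381) (.two (nat_lit 654311439) (nat_lit 156533523832) (.two (nat_lit 183845781512) (nat_lit 1753223072) (.two (nat_lit 2097153) (nat_lit 135273123) (.two (nat_lit 2097152) (nat_lit 218113142) (.one (nat_lit 673197399) .nil))))),
   .two (nat_lit 236978243) (nat_lit 18928895029) (.two (nat_lit 9940500495) (nat_lit 10907288870) (.two (nat_lit 612368392) (nat_lit 843059545) (.two (nat_lit 176160773) (nat_lit 2103160) (.two (nat_lit 8388609) (nat_lit 184987688501) (.two (nat_lit 8388608) (nat_lit 2107388) (.one (nat_lit 2108769) .nil)))))),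
   .two (nat_lit 158143086659) (nat_lit 12633244276) (.two (nat_lit 1358954511) (nat_lit 9866053665) (.two (nat_lit 46407876616) (nat_lit 18941479449) (.two (nat_lit 34603013) (nat_lit 19545460622) (.two (nat_lit 2097153) (nat_lit 37262203578) (.two (nat_lit 2097152) (nat_lit 839918745) (.one (nat_lit 16788834) .nil)))))),
   .two (nat_lit 2961178690) (nat_lit 673186150) (.two (nat_lit 176160783) (nat_lit 46977254750) (.two (nat_lit 243269645) (nat_lit 2353008106) (.two (nat_lit 1782579205) (nat_lit 1053747) (.two (nat_lit 612368385) (nat_lit 156468517487) (.two (nat_lit 2097152) (nat_lit 2424316988) (.one (nat_lit 8400227) .nil)))))),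
   .two (nat_lit 2969567297) (nat_lit 1049654) (.two (nat_lit 1343225871) (nat_lit 12129929760) (.two (nat_lit 721420293) (nat_lit 157035795485) (.two (nat_lit 2097153) (nat_lit 28705823330) (.two (nat_lit 2097152) (nat_lit 1058034) (.one (nat_lit 1059490) .nil))))),
   .two (nat_lit 18933088366) (nat_lit 28086108822) (.two (nat_lit 2961178639) (nat_lit 3558867811) (.two (nat_lit 705691656) (nat_lit 880806399) (.two (nat_lit 20644364292) (nat_lit 13188994013) (.two (nat_lit 2097153) (nat_lit 1056262) (.two (nat_lit 1048576) (nat_lit 28087166847) (.one (nat_lit 1059491) .nil)))))),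
   .two (nat_lit 185020186736) (nat_lit 8389298) (.two (nat_lit 11543773199) (nat_lit 19100861789) (.two (nat_lit 11543773192) (nat_lit 1182796313) (.two (nat_lit 705691652) (nat_lit 813700130) (.two (nat_lit 34603009) (nat_lit 4638907053) (.two (nat_lit 1048576) (nat_lit 8398067) (.one (nat_lit 184423557629) .nil)))))),
   .two (nat_lit 158143086656) (nat_lit 4632609636) (.two (nat_lit 1277165576) (nat_lit 158646404638) (.two (nat_lit 11484004357) (nat_lit 156532478930) (.two (nat_lit 41943041) (nat_lit 4631566922) (.two (nat_lit 1048576) (nat_lit 2424317106) (.one (nat_lit 8400228) .nil))))),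
   .two (nat_lit 276824130) (nat_lit 339739262) (.two (nat_lit 276824079) (nat_lit 10506732387) (.two (nat_lit 705691656) (nat_lit 156573373447) (.two (nat_lit 2097153) (nat_lit 638589576) (.two (nat_lit 1048576) (nat_lit 12620670125) (.one (nat_lit 706751128) .nil))))),
   .two (nat_lit 1276117057) (nat_lit 158144135525) (.two (nat_lit 612368399) (nat_lit 9866052967) (.two (nat_lit 1276117000) (nat_lit 9806286267) (.two (nat_lit 270532613) (nat_lit 11546924011) (.two (nat_lit 2097153) (nat_lit 19596843607) (.two (nat_lit 1048576) (nat_lit 8398068) (.one (nat_lit 69216858) .nil)))))),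
   .two (nat_lit 10007609457) (nat_lit 251658603) (.two (nat_lit 75497487) (nat_lit 620759554) (.two (nat_lit 713031684) (nat_lit 28705820574) (.two (nat_lit 41943041) (nat_lit 174701156953) (.two (nat_lit 1048576) (nat_lit 41952409) (.one (nat_lit 8400231) .nil))))),
   .two (nat_lit 8388672) (nat_lit 11492393317) (.two (nat_lit 713031695) (nat_lit 4043311154) (.two (nat_lit 50331660) (nat_lit 3464498667) (.two (nat_lit 176160772) (nat_lit 318772238) (.two (nat_lit 612368385) (nat_lit 16785859) (.two (nat_lit 16777216) (nat_lit 8398070) (.one (nat_lit 889203717) .nil)))))),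
   .two (nat_lit 272629826) (nat_lit 1191182988) (.two (nat_lit 50331663) (nat_lit 4601152844) (.two (nat_lit 285212680) (nat_lit 158649552781) (.two (nat_lit 4194305) (nat_lit 21793613039) (.one (nat_lit 16788841) .nil)))),
   .two (nat_lit 1358954563) (nat_lit 109052523) (.two (nat_lit 4605345807) (nat_lit 218105154) (.two (nat_lit 4605345800) (nat_lit 4198763) (.two (nat_lit 46980399109) (nat_lit 16783225) (.two (nat_lit 4194305) (nat_lit 16784954) (.two (nat_lit 16777216) (nat_lit 12620669957) (.one (nat_lit 4205931) .nil)))))),
   .two (nat_lit 843055171) (nat_lit 183953785192) (.two (nat_lit 612368399) (nat_lit 205522233) (.two (nat_lit 166129041416) (nat_lit 13224645679) (.two (nat_lit 8388609) (nat_lit 306191035) (.two (nat_lit 1048576) (nat_lit 46984602588) (.one (nat_lit 8400236) .nil))))),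
   .two (nat_lit 2969567297) (nat_lit 159251432076) (.two (nat_lit 9948889103) (nat_lit 13222544707) (.two (nat_lit 2887778312) (nat_lit 2969569794) (.two (nat_lit 620756997) (nat_lit 1846548343) (.two (nat_lit 34603009) (nat_lit 9900663931) (.one (nat_lit 269495325) .nil))))),
   .two (nat_lit 2921332844) (nat_lit 306184387) (.two (nat_lit 46407876623) (nat_lit 10506732884) (.two (nat_lit 2887778312) (nat_lit 156468513290) (.two (nat_lit 2887778308) (nat_lit 9765392269) (.two (nat_lit 9766436865) (nat_lit 9765395024) (.two (nat_lit 1048576) (nat_lit 4203770) (.one (nat_lit 1060205) .nil)))))),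
   .two (nat_lit 9766436975) (nat_lit 75498148) (.two (nat_lit 10504634383) (nat_lit 19134416182) (.two (nat_lit 1178599432) (nat_lit 35656738) (.two (nat_lit 2097153) (nat_lit 3028294315) (.two (nat_lit 1048576) (nat_lit 46409983666) .nil)))),
   .two (nat_lit 2969567346) (nat_lit 28790751871) (.two (nat_lit 169869327) (nat_lit 620758557) (.two (nat_lit 16777220) (nat_lit 28690093025) (.two (nat_lit 2097153) (nat_lit 10519321198) (.two (nat_lit 16777216) (nat_lit 605037732) (.one (nat_lit 3020958208) .nil))))),
   .two (nat_lit 285212736) (nat_lit 156569174882) (.two (nat_lit 285212680) (nat_lit 10909387271) (.two (nat_lit 16777220) (nat_lit 876616366) (.two (nat_lit 4194304) (nat_lit 16786684) (.one (nat_lit 16788847) .nil)))),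
   .two (nat_lit 1358954563) (nat_lit 183912890978) (.two (nat_lit 739246095) (nat_lit 21223180835) (.two (nat_lit 11476664324) (nat_lit 318773859) (.two (nat_lit 1048576) (nat_lit 1358963843) (.one (nat_lit 101723233) .nil)))),
   .two (nat_lit 117440579) (nat_lit 37313577586) (.two (nat_lit 4194319) (nat_lit 11559503137) (.two (nat_lit 68157448) (nat_lit 21223180835) (.two (nat_lit 605028357) (nat_lit 37262201834) (.two (nat_lit 9765388289) (nat_lit 675292251) (.one (nat_lit 1060208) .nil))))),
   .two (nat_lit 2902458433) (nat_lit 19096666743) (.two (nat_lit 4194319) (nat_lit 166245434702) (.two (nat_lit 9781116936) (nat_lit 174752533000) (.two (nat_lit 4194308) (nat_lit 37329309583) (.two (nat_lit 37748737) (nat_lit 156566035997) (.two (nat_lit 4194304) (nat_lit 1058045) (.one (nat_lit 4205937) .nil)))))),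
   .two (nat_lit 11584667715) (nat_lit 158646403685) (.two (nat_lit 12054429711) (nat_lit 185020188707) (.two (nat_lit 11543773192) (nat_lit 156539816482) (.two (nat_lit 705691652) (nat_lit 158183985032) (.two (nat_lit 605028353) (nat_lit 209721952) (.two (nat_lit 8388608) (nat_lit 2316313820) (.one (nat_lit 11584678405) .nil)))))),
   .two (nat_lit 47555018816) (nat_lit 21208498837) (.two (nat_lit 46407876623) (nat_lit 10343155229) (.two (nat_lit 34603013) (nat_lit 1786777479) (.two (nat_lit 2097153) (nat_lit 336599650) (.two (nat_lit 2097152) (nat_lit 8398078) (.one (nat_lit 2108786) .nil))))),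
   .two (nat_lit 2923429953) (nat_lit 11511267686) (.two (nat_lit 754974735) (nat_lit 183946446136) (.two (nat_lit 68157448) (nat_lit 4613736988) (.two (nat_lit 272629765) (nat_lit 605033469) (.two (nat_lit 2097153) (nat_lit 183912897188) (.two (nat_lit 2097152) (nat_lit 1058047) (.one (nat_lit 4205939) .nil)))))),
   .two (nat_lit 754974785) (nat_lit 28087157397) (.two (nat_lit 37748751) (nat_lit 754976029) (.two (nat_lit 4601151496) (nat_lit 16780785) (.two (nat_lit 4194308) (nat_lit 2103165) (.two (nat_lit 4194305) (nat_lit 20738743866) (.two (nat_lit 2097152) (nat_lit 10540295219) (.one (nat_lit 2108788) .nil)))))),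
   .two (nat_lit 37313577073) (nat_lit 2420113603) (.two (nat_lit 3539992591) (nat_lit 19599984157) (.two (nat_lit 11479810052) (nat_lit 185035919265) (.two (nat_lit 16777217) (nat_lit 1950358164) (.two (nat_lit 1048576) (nat_lit 156548211926) (.one (nat_lit 16788853) .nil))))),
   .two (nat_lit 183912890435) (nat_lit 165528207988) (.two (nat_lit 1358954511) (nat_lit 20737690143) (.two (nat_lit 9881780229) (nat_lit 638586769) (.two (nat_lit 37748737) (nat_lit 1309680760) (.one (nat_lit 1060214) .nil)))),
   .two (nat_lit 4605345859) (nat_lit 166132187746) (.two (nat_lit 46414168079) (nat_lit 2889878054) (.two (nat_lit 272629765) (nat_lit 28764540812) (.two (nat_lit 4194305) (nat_lit 3531610773) (.two (nat_lit 4194304) (nat_lit 8398081) (.one (nat_lit 4205223) .nil))))),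
   .two (nat_lit 310378563) (nat_lit 28760343218) (.two (nat_lit 28693233679) (nat_lit 46523221534) (.two (nat_lit 8388613) (nat_lit 16782368) (.two (nat_lit 8388609) (nat_lit 10540292771) (.two (nat_lit 4194304) (nat_lit 18941486333) (.one (nat_lit 4205225) .nil))))),
   .two (nat_lit 1417674862) (nat_lit 9781117286) (.two (nat_lit 41943055) (nat_lit 9814672731) (.two (nat_lit 16777224) (nat_lit 183853125510) (.two (nat_lit 8388609) (nat_lit 2936019616) (.two (nat_lit 16777216) (nat_lit 1417683099) (.one (nat_lit 8400247) .nil))))),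
   .two (nat_lit 183949590643) (nat_lit 28101837433) (.two (nat_lit 184419352591) (nat_lit 10921968989) (.two (nat_lit 184419352584) (nat_lit 2332035609) (.two (nat_lit 2889875461) (nat_lit 156380434318) (.two (nat_lit 4194305) (nat_lit 10351549016) (.two (nat_lit 4194304) (nat_lit 16786690) (.one (nat_lit 16788856) .nil)))))),
   .two (nat_lit 184993972288) (nat_lit 12617515621) (.two (nat_lit 184986632207) (nat_lit 165532405635) (.two (nat_lit 34603009) (nat_lit 2894076512) (.two (nat_lit 1048576) (nat_lit 8398083) (.one (nat_lit 1384131077) .nil)))),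
   .two (nat_lit 158144135232) (nat_lit 20737688213) (.two (nat_lit 46984593423) (nat_lit 1914703308) (.two (nat_lit 2894069765) (nat_lit 69211989) (.two (nat_lit 9765388289) (nat_lit 1746937086) (.one (nat_lit 1745890674) .nil)))),
   .two (nat_lit 4605345858) (nat_lit 1862272041) (.two (nat_lit 184549391) (nat_lit 183853123102) (.two (nat_lit 8388612) (nat_lit 16782388) (.two (nat_lit 4194305) (nat_lit 11484011174) (.two (nat_lit 4194304) (nat_lit 8398084) (.one (nat_lit 8400249) .nil))))),
   .two (nat_lit 12117344372) (nat_lit 4605345987) (.two (nat_lit 184419352591) (nat_lit 4605347357) (.two (nat_lit 12117344261) (nat_lit 158653748211) (.two (nat_lit 37748737) (nat_lit 3028295844) (.one (nat_lit 8400250) .nil)))),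
   .two (nat_lit 318767169) (nat_lit 4034921095) (.two (nat_lit 612368399) (nat_lit 166129043986) (.two (nat_lit 46407876612) (nat_lit 9781122047) (.two (nat_lit 2097153) (nat_lit 1056315) (.two (nat_lit 1048576) (nat_lit 2106629) (.one (nat_lit 1060219) .nil))))),
   .two (nat_lit 285212736) (nat_lit 11513364838) (.two (nat_lit 46409973775) (nat_lit 159232558386) (.two (nat_lit 46409973768) (nat_lit 16780787) (.two (nat_lit 46409973764) (nat_lit 16783230) (.two (nat_lit 4194305) (nat_lit 352328360) (.two (nat_lit 4194304) (nat_lit 16786694) (.one (nat_lit 4205948) .nil)))))),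
   .two (nat_lit 2923430003) (nat_lit 41943694) (.two (nat_lit 13195280399) (nat_lit 183949593133) (.two (nat_lit 8388612) (nat_lit 687869836) (.two (nat_lit 37748737) (nat_lit 1224746195) (.one (nat_lit 16788861) .nil)))),
   .two (nat_lit 13224640579) (nat_lit 20652753528) (.two (nat_lit 11479810063) (nat_lit 9781118289) (.two (nat_lit 654311432) (nat_lit 183949593090) (.two (nat_lit 2902458373) (nat_lit 12117348229) (.two (nat_lit 16777217) (nat_lit 37249619256) (.two (nat_lit 1048576) (nat_lit 2889883797) (.one (nat_lit 4205950) .nil)))))),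
   .two (nat_lit 47582281794) (nat_lit 156372042354) (.two (nat_lit 169869327) (nat_lit 3028288797) (.two (nat_lit 156372041736) (nat_lit 157035794317) (.two (nat_lit 34603009) (nat_lit 1746934359) (.two (nat_lit 1048576) (nat_lit 2106631) (.one (nat_lit 1060223) .nil))))),
   .two (nat_lit 3527409731) (nat_lit 3464495740) (.two (nat_lit 41943055) (nat_lit 1782580548) (.two (nat_lit 10370416648) (nat_lit 46477084190) (.two (nat_lit 639631365) (nat_lit 183920234381) (.two (nat_lit 4194305) (nat_lit 2105799) (.two (nat_lit 2097152) (nat_lit 37253817350) (.one (nat_lit 2108800) .nil)))))),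
   .two (nat_lit 11559501889) (nat_lit 3028287845) (.two (nat_lit 176160783) (nat_lit 183861511471) (.two (nat_lit 11559501832) (nat_lit 10913581597) (.two (nat_lit 721420293) (nat_lit 11618227216) (.two (nat_lit 16777217) (nat_lit 13195287227) (.two (nat_lit 1048576) (nat_lit 166245442737) (.one (nat_lit 34613783) .nil)))))),
   .two (nat_lit 1947205749) (nat_lit 21827158211) (.two (nat_lit 1947205673) (nat_lit 11559503233) (.two (nat_lit 1947205644) (nat_lit 1795163678) (.two (nat_lit 28757196805) (nat_lit 16783231) (.two (nat_lit 156364701697) (nat_lit 16785864) (.two (nat_lit 4194304) (nat_lit 20637033652) (.one (nat_lit 4598016660) .nil)))))),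
   .two (nat_lit 11513364591) (nat_lit 9806282947) (.two (nat_lit 83886095) (nat_lit 183853122850) (.two (nat_lit 158091706381) (nat_lit 243273198) (.two (nat_lit 8388612) (nat_lit 20740838440) (.two (nat_lit 50331649) (nat_lit 185023341778) (.one (nat_lit 4205953) .nil))))),
   .two (nat_lit 11559501889) (nat_lit 1343226508) (.two (nat_lit 11559501839) (nat_lit 19027461455) (.two (nat_lit 50331656) (nat_lit 236980749) (.two (nat_lit 11476664324) (nat_lit 174701154192) (.two (nat_lit 620756993) (nat_lit 184416216247) (.one (nat_lit 1060226) .nil))))),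
   .two (nat_lit 10436476993) (nat_lit 142607655) (.two (nat_lit 11551113224) (nat_lit 4631562759) (.two (nat_lit 270532613) (nat_lit 813698951) (.two (nat_lit 2097153) (nat_lit 806361681) (.two (nat_lit 2097152) (nat_lit 21214798978) (.one (nat_lit 8400259) .nil))))),
   .two (nat_lit 4605345857) (nat_lit 1212155422) (.two (nat_lit 8388612) (nat_lit 46510642204) (.two (nat_lit 4194305) (nat_lit 8397257) (.two (nat_lit 8388608) (nat_lit 4204546) (.one (nat_lit 46514842726) .nil)))),
   .two (nat_lit 10385096771) (nat_lit 37249614501) (.two (nat_lit 654311439) (nat_lit 10506732901) (.two (nat_lit 37748744) (nat_lit 9948890653) (.two (nat_lit 9934209029) (nat_lit 185023336330) (.two (nat_lit 4194305) (nat_lit 20652759732) (.two (nat_lit 2097152) (nat_lit 9768543395) (.one (nat_lit 16788868) .nil)))))),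
   .two (nat_lit 16777280) (nat_lit 28764537192) (.two (nat_lit 620757007) (nat_lit 11584669006) (.two (nat_lit 183853121544) (nat_lit 12129929743) (.two (nat_lit 13195280389) (nat_lit 16782389) (.two (nat_lit 41943041) (nat_lit 159266118312) (.two (nat_lit 8388608) (nat_lit 16786696) (.one (nat_lit 156573379147) .nil)))))),
   .two (nat_lit 11492393075) (nat_lit 104858273) (.two (nat_lit 9781116943) (nat_lit 9802089315) (.two (nat_lit 2889875464) (nat_lit 2969569811) (.two (nat_lit 159224168453) (nat_lit 165528214152) (.two (nat_lit 8388608) (nat_lit 10540295126) (.one (nat_lit 4205226) .nil))))),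
   .two (nat_lit 3464495169) (nat_lit 205522245) (.two (nat_lit 3464495112) (nat_lit 166232853962) (.two (nat_lit 176160773) (nat_lit 306190969) (.two (nat_lit 4194304) (nat_lit 28101846269) (.one (nat_lit 16788869) .nil)))),
   .two (nat_lit 2954887234) (nat_lit 9915335015) (.two (nat_lit 2902458383) (nat_lit 1210058037) (.two (nat_lit 218103816) (nat_lit 9900657167) (.two (nat_lit 1277165572) (nat_lit 12163488329) (.two (nat_lit 16777216) (nat_lit 2106633) (.one (nat_lit 2108806) .nil))))),
   .two (nat_lit 8388674) (nat_lit 822083942) (.two (nat_lit 2902458383) (nat_lit 2927625550) (.two (nat_lit 16777228) (nat_lit 10443820507) (.two (nat_lit 713031685) (nat_lit 16783232) (.two (nat_lit 16777217) (nat_lit 185027534383) (.two (nat_lit 16777216) (nat_lit 8398090) (.one (nat_lit 8399531) .nil)))))),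
   .two (nat_lit 47555018867) (nat_lit 352321731) (.two (nat_lit 9881780239) (nat_lit 12617517091) (.two (nat_lit 1175453704) (nat_lit 156481097608) (.two (nat_lit 8388609) (nat_lit 9866058324) (.two (nat_lit 1048576) (nat_lit 9873400942) (.one (nat_lit 1060231) .nil))))),
   .two (nat_lit 11543773248) (nat_lit 874512743) (.two (nat_lit 1343225871) (nat_lit 3525313925) (.two (nat_lit 705691656) (nat_lit 20644366874) (.two (nat_lit 34603013) (nat_lit 8394625) (.two (nat_lit 156364701697) (nat_lit 1317019173) (.two (nat_lit 1048576) (nat_lit 8398851) (.one (nat_lit 1060232) .nil)))))),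
   .two (nat_lit 46414168130) (nat_lit 889192643) (.two (nat_lit 46414168079) (nat_lit 174768260404) (.two (nat_lit 47555018765) (nat_lit 10016000541) (.two (nat_lit 12062818309) (nat_lit 8394626) (.two (nat_lit 156365750273) (nat_lit 8396348) (.two (nat_lit 2097152) (nat_lit 8398092) (.one (nat_lit 8400265) .nil)))))),
   .two (nat_lit 158083317825) (nat_lit 721420963) (.two (nat_lit 620757007) (nat_lit 158083318627) (.two (nat_lit 156372041736) (nat_lit 46992984590) (.two (nat_lit 75497477) (nat_lit 11626614689) (.two (nat_lit 8388609) (nat_lit 28705823329) (.two (nat_lit 1048576) (nat_lit 847258866) (.one (nat_lit 8400266) .nil)))))),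
   .two (nat_lit 21827158083) (nat_lit 713032319) (.two (nat_lit 620757007) (nat_lit 9906947388) (.two (nat_lit 176160776) (nat_lit 19612569486) (.two (nat_lit 612368385) (nat_lit 158662138548) (.two (nat_lit 8388608) (nat_lit 16786701) (.one (nat_lit 183928629732) .nil))))),
   .two (nat_lit 9967763569) (nat_lit 10552869222) (.two (nat_lit 10939793423) (nat_lit 184987683355) (.two (nat_lit 159217876997) (nat_lit 18941482022) (.two (nat_lit 606076929) (nat_lit 12062825124) (.two (nat_lit 2097152) (nat_lit 3036685430) (.one (nat_lit 2108078) .nil))))),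
   .two (nat_lit 1178599491) (nat_lit 10443818020) (.two (nat_lit 21214789647) (nat_lit 10906240306) (.two (nat_lit 28693233672) (nat_lit 156372044315) (.two (nat_lit 4601151493) (nat_lit 1053751) (.two (nat_lit 156367847425) (nat_lit 672146613) (.one (nat_lit 1060235) .nil))))),
   .two (nat_lit 2954887235) (nat_lit 721421155) (.two (nat_lit 1358954504) (nat_lit 184417258009) (.two (nat_lit 620756997) (nat_lit 1277169564) (.two (nat_lit 9781116929) (nat_lit 156533530779) (.one (nat_lit 2108812) .nil)))),
   .two (nat_lit 4605345857) (nat_lit 37316723331) (.two (nat_lit 37748751) (nat_lit 780144110) (.two (nat_lit 69206021) (nat_lit 11551118377) (.two (nat_lit 4194305) (nat_lit 11511275053) (.two (nat_lit 2097152) (nat_lit 4203790) (.one (nat_lit 2108813) .nil))))),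
   .two (nat_lit 157036838979) (nat_lit 13221495144) (.two (nat_lit 1753219087) (nat_lit 2349860126) (.two (nat_lit 813694984) (nat_lit 19093523940) (.two (nat_lit 1276116996) (nat_lit 142611455) (.two (nat_lit 605028353) (nat_lit 184417263114) (.two (nat_lit 1048576) (nat_lit 8398852) (.one (nat_lit 8400270) .nil)))))),
   .two (nat_lit 11559501888) (nat_lit 10538189448) (.two (nat_lit 9881780239) (nat_lit 158075979814) (.two (nat_lit 47563407368) (nat_lit 18926800295) (.two (nat_lit 739246085) (nat_lit 156567080849) (.two (nat_lit 34603009) (nat_lit 9948895878) (.two (nat_lit 1048576) (nat_lit 2106640) (.one (nat_lit 2416978395) .nil)))))),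
   .two (nat_lit 754974834) (nat_lit 12114199182) (.two (nat_lit 11492392975) (nat_lit 3524265285) (.two (nat_lit 68157448) (nat_lit 1426065958) (.two (nat_lit 1291845636) (nat_lit 202380326) (.two (nat_lit 34603009) (nat_lit 16785866) (.two (nat_lit 16777216) (nat_lit 9798952915) (.one (nat_lit 16788879) .nil)))))),
   .two (nat_lit 754974785) (nat_lit 158143087266) (.two (nat_lit 169869327) (nat_lit 1358955814) (.two (nat_lit 10385096717) (nat_lit 166129045395) (.two (nat_lit 16777217) (nat_lit 28757203560) (.two (nat_lit 2097152) (nat_lit 11543782483) (.one (nat_lit 1060240) .nil))))),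
   .two (nat_lit 843055171) (nat_lit 21827158634) (.two (nat_lit 11479810063) (nat_lit 13237224768) (.two (nat_lit 158083317768) (nat_lit 3560966662) (.two (nat_lit 46414168068) (nat_lit 9936310160) (.two (nat_lit 8388609) (nat_lit 4201148) (.two (nat_lit 4194304) (nat_lit 8398853) (.one (nat_lit 8400273) .nil)))))),
   .two (nat_lit 169869420) (nat_lit 620757187) (.two (nat_lit 9867100183) (nat_lit 166144771372) (.two (nat_lit 2887778312) (nat_lit 2936016308) (.two (nat_lit 639631365) (nat_lit 12114202520) (.two (nat_lit 605028353) (nat_lit 3558873734) (.two (nat_lit 1048576) (nat_lit 3540001861) (.one (nat_lit 1060242) .nil)))))),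
   .two (nat_lit 3558867009) (nat_lit 645923433) (.two (nat_lit 158083317775) (nat_lit 9900655922) (.two (nat_lit 3458203656) (nat_lit 9772730885) (.two (nat_lit 1916796933) (nat_lit 12148806621) (.two (nat_lit 9768534017) (nat_lit 11611937374) (.two (nat_lit 4194304) (nat_lit 2106641) (.one (nat_lit 2108080) .nil)))))),
   .two (nat_lit 218103873) (nat_lit 19130221193) (.two (nat_lit 2902458392) (nat_lit 3460302126) (.two (nat_lit 218103816) (nat_lit 11546921507) (.two (nat_lit 2902458372) (nat_lit 156367852590) (.two (nat_lit 50331649) (nat_lit 742398577) (.two (nat_lit 2097152) (nat_lit 4204550) (.one (nat_lit 4205971) .nil)))))),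
   .two (nat_lit 184549441) (nat_lit 11484004715) (.two (nat_lit 184549391) (nat_lit 156472707594) (.two (nat_lit 8388612) (nat_lit 16781190) (.two (nat_lit 8388609) (nat_lit 1426070198) (.two (nat_lit 2097152) (nat_lit 645932042) (.one (nat_lit 8400276) .nil))))),
   .two (nat_lit 1343225972) (nat_lit 9948889283) (.two (nat_lit 83886095) (nat_lit 158183982393) (.two (nat_lit 10343153672) (nat_lit 37246470669) (.two (nat_lit 46414168068) (nat_lit 12633248808) (.two (nat_lit 8388609) (nat_lit 1057227) (.two (nat_lit 8388608) (nat_lit 9933169918) (.one (nat_lit 1060245) .nil)))))),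
   .two (nat_lit 166132187246) (nat_lit 9967763814) (.two (nat_lit 203423759) (nat_lit 159253531161) (.two (nat_lit 2954887173) (nat_lit 37753850) (.two (nat_lit 2097153) (nat_lit 9869204118) (.two (nat_lit 2097152) (nat_lit 166132195483) (.one (nat_lit 158649560732) .nil))))),
   .two (nat_lit 3458203714) (nat_lit 166136382060) (.two (nat_lit 9940500495) (nat_lit 236979485) (.two (nat_lit 2889875464) (nat_lit 2961181197) (.two (nat_lit 2889875460) (nat_lit 20745032673) (.two (nat_lit 9768534017) (nat_lit 174759878186) (.two (nat_lit 4194304) (nat_lit 46481286352) (.one (nat_lit 8400278) .nil)))))),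
   .two (nat_lit 3527409731) (nat_lit 1920991914) (.two (nat_lit 10370416655) (nat_lit 174688568862) (.two (nat_lit 639631365) (nat_lit 11484008333) (.two (nat_lit 606076929) (nat_lit 10338968564) (.one (nat_lit 2108823) .nil)))),
   .two (nat_lit 11618222192) (nat_lit 13191086728) (.two (nat_lit 8388623) (nat_lit 158649550179) (.two (nat_lit 4194312) (nat_lit 1417676318) (.two (nat_lit 8388612) (nat_lit 10909388702) (.two (nat_lit 37748737) (nat_lit 11577334424) (.two (nat_lit 8388608) (nat_lit 4631569675) (.one (nat_lit 303049243) .nil)))))),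
   .two (nat_lit 12617515119) (nat_lit 185035915459) (.two (nat_lit 9881780239) (nat_lit 158177690949) (.two (nat_lit 705691656) (nat_lit 1191186307) (.two (nat_lit 34603009) (nat_lit 3472889150) (.two (nat_lit 1048576) (nat_lit 16787463) (.one (nat_lit 1060248) .nil))))),
   .two (nat_lit 306184257) (nat_lit 352322927) (.two (nat_lit 2902458376) (nat_lit 10372517790) (.two (nat_lit 4194305) (nat_lit 1862277810) (.two (nat_lit 4194304) (nat_lit 16787464) (.one (nat_lit 9902762451) .nil)))),
   .two (nat_lit 8388672) (nat_lit 19042140817) (.two (nat_lit 1358954511) (nat_lit 20745030160) (.two (nat_lit 721420293) (nat_lit 166136385422) (.two (nat_lit 16777217) (nat_lit 209722034) (.two (nat_lit 1048576) (nat_lit 13195289739) (.one (nat_lit 8400281) .nil))))),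
   .two (nat_lit 10343153777) (nat_lit 1745879397) (.two (nat_lit 117440527) (nat_lit 135267170) (.two (nat_lit 12047089672) (nat_lit 1224740749) (.two (nat_lit 34603009) (nat_lit 13237228856) (.two (nat_lit 8388608) (nat_lit 156566038192) .nil)))),
   .two (nat_lit 285212736) (nat_lit 37316723049) (.two (nat_lit 37748751) (nat_lit 822086142) (.two (nat_lit 2902458372) (nat_lit 10540289927) (.two (nat_lit 37748737) (nat_lit 156567084571) (.two (nat_lit 4194304) (nat_lit 169878516) (.one (nat_lit 4205978) .nil))))),
   .two (nat_lit 203423811) (nat_lit 47581233813) (.two (nat_lit 16777231) (nat_lit 1343227422) (.two (nat_lit 184549381) (nat_lit 19597889421) (.two (nat_lit 16777217) (nat_lit 1056317) (.two (nat_lit 16777216) (nat_lit 11611940029) (.one (nat_lit 2108827) .nil))))),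
   .two (nat_lit 159251431539) (nat_lit 2969567427) (.two (nat_lit 159251431464) (nat_lit 166245434762) (.two (nat_lit 159251431437) (nat_lit 2969568797) (.two (nat_lit 9934209029) (nat_lit 12062822280) (.two (nat_lit 9766436865) (nat_lit 285222010) (.one (nat_lit 16788892) .nil))))),
   .two (nat_lit 12117344322) (nat_lit 739246443) (.two (nat_lit 11543773199) (nat_lit 166232851770) (.two (nat_lit 11543773192) (nat_lit 184419354142) (.two (nat_lit 739246085) (nat_lit 1782583192) (.two (nat_lit 34603009) (nat_lit 10540291389) (.two (nat_lit 1048576) (nat_lit 11513373666) (.one (nat_lit 1060253) .nil)))))),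
   .two (nat_lit 654311540) (nat_lit 183947493994) (.two (nat_lit 2902458383) (nat_lit 158177690970) (.two (nat_lit 169869320) (nat_lit 3036678694) (.two (nat_lit 270532613) (nat_lit 166245438462) (.two (nat_lit 9766436865) (nat_lit 20704139902) (.two (nat_lit 1048576) (nat_lit 2107402) (.one (nat_lit 1060254) .nil)))))),
   .two (nat_lit 11559501889) (nat_lit 37246468748) (.two (nat_lit 8388623) (nat_lit 117441830) (.two (nat_lit 50331656) (nat_lit 2424311228) (.two (nat_lit 721420293) (nat_lit 1309676584) (.two (nat_lit 41943041) (nat_lit 739255379) (.one (nat_lit 16788895) .nil))))),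
   .two (nat_lit 2902458435) (nat_lit 11546919274) (.two (nat_lit 157036838927) (nat_lit 11626612035) (.two (nat_lit 2889875464) (nat_lit 10016000541) (.two (nat_lit 2889875460) (nat_lit 2102329) (.two (nat_lit 2097153) (nat_lit 11479816815) (.two (nat_lit 2097152) (nat_lit 4203797) (.one (nat_lit 4205984) .nil)))))),
   .two (nat_lit 3558867059) (nat_lit 654311619) (.two (nat_lit 3558866984) (nat_lit 1291847198) (.two (nat_lit 203423749) (nat_lit 20753421624) (.two (nat_lit 2097152) (nat_lit 117448866) (.one (nat_lit 16788897) .nil)))),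
   .two (nat_lit 10907287662) (nat_lit 1209008487) (.two (nat_lit 2961178639) (nat_lit 1279264118) (.two (nat_lit 28691136520) (nat_lit 708839952) (.two (nat_lit 176160773) (nat_lit 12114202525) (.two (nat_lit 8388609) (nat_lit 1056318) (.two (nat_lit 1048576) (nat_lit 8398102) (.one (nat_lit 1060258) .nil)))))),
   .two (nat_lit 166132187201) (nat_lit 1224737430) (.two (nat_lit 13203669007) (nat_lit 19532874594) (.two (nat_lit 285212680) (nat_lit 158179789336) (.two (nat_lit 69206021) (nat_lit 12129932605) (.two (nat_lit 2097152) (nat_lit 4203799) (.one (nat_lit 9869208041) .nil))))),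
   .two (nat_lit 9967763569) (nat_lit 11559502454) (.two (nat_lit 809500687) (nat_lit 83887396) (.two (nat_lit 218103816) (nat_lit 3527412269) (.two (nat_lit 2902458373) (nat_lit 20740837259) (.two (nat_lit 16777217) (nat_lit 3024099978) (.two (nat_lit 2097152) (nat_lit 156569183197) (.one (nat_lit 2108835) .nil)))))),
   .two (nat_lit 2969567298) (nat_lit 166230753890) (.two (nat_lit 2969567247) (nat_lit 1310721320) (.two (nat_lit 9934209032) (nat_lit 13237227413) (.two (nat_lit 2097153) (nat_lit 16784960) (.two (nat_lit 2097152) (nat_lit 16786712) (.one (nat_lit 16788900) .nil))))),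
   .two (nat_lit 673185901) (nat_lit 11580473704) (.two (nat_lit 11492392975) (nat_lit 46980399971) (.two (nat_lit 157036838920) (nat_lit 708840915) (.two (nat_lit 69206021) (nat_lit 10519321187) (.two (nat_lit 2097152) (nat_lit 4203801) (.one (nat_lit 4205989) .nil))))),
   .two (nat_lit 4605345859) (nat_lit 1291846268) (.two (nat_lit 13203669007) (nat_lit 183853122854) (.two (nat_lit 50331656) (nat_lit 46481279523) (.two (nat_lit 8388613) (nat_lit 21793608677) (.two (nat_lit 2097153) (nat_lit 12121545342) (.two (nat_lit 2097152) (nat_lit 109061206) (.one (nat_lit 2108838) .nil)))))),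
   .two (nat_lit 1191182403) (nat_lit 806355612) (.two (nat_lit 11543773199) (nat_lit 1191183902) (.two (nat_lit 34603013) (nat_lit 16782394) (.two (nat_lit 605028353) (nat_lit 184417262250) (.two (nat_lit 1048576) (nat_lit 2107404) (.one (nat_lit 16788903) .nil))))),
   .two (nat_lit 83886195) (nat_lit 166203490937) (.two (nat_lit 176160783) (nat_lit 4043311651) (.two (nat_lit 8388613) (nat_lit 11626615854) (.two (nat_lit 8388609) (nat_lit 16784961) (.two (nat_lit 8388608) (nat_lit 16787470) (.one (nat_lit 8400296) .nil))))),
   .two (nat_lit 21208498241) (nat_lit 13187941009) (.two (nat_lit 1343225871) (nat_lit 11477714245) (.two (nat_lit 822083592) (nat_lit 183913942931) (.two (nat_lit 2097153) (nat_lit 1175461387) (.two (nat_lit 16777216) (nat_lit 1058074) (.one (nat_lit 21207460927) .nil))))),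
   .two (nat_lit 12617515122) (nat_lit 4634706539) (.two (nat_lit 285212687) (nat_lit 9802089768) (.two (nat_lit 166132187144) (nat_lit 1052148) (.two (nat_lit 9768534021) (nat_lit 47581238312) (.two (nat_lit 9768534017) (nat_lit 705699300) (.two (nat_lit 1048576) (nat_lit 4203803) (.one (nat_lit 20719873202) .nil)))))),
   .two (nat_lit 2889875523) (nat_lit 50331843) (.two (nat_lit 822083599) (nat_lit 339739980) (.two (nat_lit 184549384) (nat_lit 4197877) (.two (nat_lit 16777220) (nat_lit 4199483) (.two (nat_lit 4194305) (nat_lit 16784962) (.two (nat_lit 16777216) (nat_lit 4203804) (.one (nat_lit 4205993) .nil)))))),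
   .two (nat_lit 306184258) (nat_lit 156372042594) (.two (nat_lit 4601151496) (nat_lit 20745030151) (.two (nat_lit 4194308) (nat_lit 28764540812) (.two (nat_lit 8388609) (nat_lit 166232859579) (.one (nat_lit 2353016062) .nil)))),
   .two (nat_lit 654311540) (nat_lit 166196150908) (.two (nat_lit 101711887) (nat_lit 218105125) (.two (nat_lit 50331656) (nat_lit 873466382) (.two (nat_lit 721420293) (nat_lit 336596871) (.two (nat_lit 2097153) (nat_lit 159216837067) (.two (nat_lit 2097152) (nat_lit 28086117630) (.one (nat_lit 1060266) .nil)))))),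
   .two (nat_lit 218103922) (nat_lit 1343226214) (.two (nat_lit 2954887183) (nat_lit 269485382) (.two (nat_lit 47548727304) (nat_lit 168824723) (.two (nat_lit 606076929) (nat_lit 822093082) (.one (nat_lit 1060267) .nil)))),
   .two (nat_lit 285212736) (nat_lit 3024094052) (.two (nat_lit 822083592) (nat_lit 184989780494) (.two (nat_lit 16777220) (nat_lit 156367852508) (.two (nat_lit 16777217) (nat_lit 28089260628) (.two (nat_lit 4194304) (nat_lit 855647159) (.one (nat_lit 4205620) .nil))))),
   .two (nat_lit 3527409728) (nat_lit 3558867810) (.two (nat_lit 203423752) (nat_lit 3527411230) (.two (nat_lit 2887778308) (nat_lit 2319456864) (.two (nat_lit 2097152) (nat_lit 28693242985) (.one (nat_lit 4205996) .nil)))),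
   .two (nat_lit 880803948) (nat_lit 11492393605) (.two (nat_lit 47563407375) (nat_lit 10443818288) (.two (nat_lit 721420296) (nat_lit 28086110734) (.two (nat_lit 21207449605) (nat_lit 47588577169) (.two (nat_lit 605028353) (nat_lit 184556166) (.two (nat_lit 1048576) (nat_lit 8398110) (.one (nat_lit 1060269) .nil)))))),
   .two (nat_lit 47596961859) (nat_lit 2098232) (.two (nat_lit 10336862223) (nat_lit 11593057598) (.two (nat_lit 10940841992) (nat_lit 20652755472) (.two (nat_lit 34603013) (nat_lit 2432701422) (.two (nat_lit 2097153) (nat_lit 16784963) (.two (nat_lit 2097152) (nat_lit 16787472) (.one (nat_lit 2108084) .nil)))))),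
   .two (nat_lit 184986632258) (nat_lit 166245434684) (.two (nat_lit 184986632200) (nat_lit 855642002) (.two (nat_lit 34603009) (nat_lit 166211885721) (.two (nat_lit 1048576) (nat_lit 16787473) (.one (nat_lit 16788910) .nil)))),
   .two (nat_lit 11559501891) (nat_lit 705692009) (.two (nat_lit 28690087951) (nat_lit 156581758286) (.two (nat_lit 166196150285) (nat_lit 10351545819) (.two (nat_lit 11559501829) (nat_lit 183845787478) (.two (nat_lit 50331649) (nat_lit 1056324) (.two (nat_lit 1048576) (nat_lit 166144779529) (.one (nat_lit 1059325) .nil)))))),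
   .two (nat_lit 11492393075) (nat_lit 41943235) (.two (nat_lit 176160783) (nat_lit 46508541232) (.two (nat_lit 8388616) (nat_lit 1310723573) (.two (nat_lit 83886085) (nat_lit 19033755534) (.two (nat_lit 16777217) (nat_lit 304093771) (.two (nat_lit 2097152) (nat_lit 156372051170) (.one (nat_lit 2108847) .nil)))))),
   .two (nat_lit 47555018818) (nat_lit 37314625893) (.two (nat_lit 612368399) (nat_lit 606079502) (.two (nat_lit 159217876997) (nat_lit 11525951379) (.two (nat_lit 8388609) (nat_lit 18926806089) (.one (nat_lit 12618574942) .nil)))),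
   .two (nat_lit 166197198915) (nat_lit 12147753573) (.two (nat_lit 21207449615) (nat_lit 184987684750) (.two (nat_lit 605028353) (nat_lit 337648224) (.two (nat_lit 1048576) (nat_lit 2106655) (.one (nat_lit 37314636293) .nil)))),
   .two (nat_lit 9781116995) (nat_lit 3560964730) (.two (nat_lit 183848927247) (nat_lit 185035916622) (.two (nat_lit 156971827213) (nat_lit 16780790) (.two (nat_lit 13191086085) (nat_lit 10016003940) (.two (nat_lit 37748737) (nat_lit 184556219) (.two (nat_lit 4194304) (nat_lit 16787474) (.one (nat_lit 272640586) .nil)))))),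
   .two (nat_lit 713031747) (nat_lit 11614028433) (.two (nat_lit 8388623) (nat_lit 19599983459) (.two (nat_lit 8388616) (nat_lit 184419355138) (.two (nat_lit 8388612) (nat_lit 20740838716) (.two (nat_lit 1048576) (nat_lit 4203808) (.one (nat_lit 1060274) .nil))))),
   .two (nat_lit 46414168175) (nat_lit 159251431781) (.two (nat_lit 2954887183) (nat_lit 165532402983) (.two (nat_lit 2954887176) (nat_lit 1384123840) (.two (nat_lit 169869316) (nat_lit 47555025580) (.two (nat_lit 2097152) (nat_lit 10343162011) (.one (nat_lit 21214800955) .nil))))),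
   .two (nat_lit 47555018817) (nat_lit 19597886068) (.two (nat_lit 721420303) (nat_lit 3464496418) (.two (nat_lit 9766436872) (nat_lit 185035918763) (.two (nat_lit 176160772) (nat_lit 2103172) (.two (nat_lit 2097153) (nat_lit 2961186304) (.two (nat_lit 16777216) (nat_lit 4632618194) (.one (nat_lit 2108851) .nil)))))),
   .two (nat_lit 183853121652) (nat_lit 46523220622) (.two (nat_lit 620757007) (nat_lit 156372043294) (.two (nat_lit 156367847429) (nat_lit 10510930992) (.two (nat_lit 8388609) (nat_lit 21793611258) (.two (nat_lit 4194304) (nat_lit 2323653779) (.one (nat_lit 8400308) .nil))))),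
   .two (nat_lit 2988441666) (nat_lit 4034921107) (.two (nat_lit 2902458383) (nat_lit 159217878332) (.two (nat_lit 2902458376) (nat_lit 47582283294) (.two (nat_lit 16777221) (nat_lit 37320920979) (.two (nat_lit 16777217) (nat_lit 606083737) (.two (nat_lit 8388608) (nat_lit 10907296994) (.one (nat_lit 9940511953) .nil)))))),
   .two (nat_lit 285212737) (nat_lit 37247517296) (.two (nat_lit 1277165583) (nat_lit 822084898) (.two (nat_lit 1780482056) (nat_lit 174701153772) (.two (nat_lit 16777221) (nat_lit 11484009495) (.two (nat_lit 8388609) (nat_lit 10552878293) (.one (nat_lit 8400309) .nil))))),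
   .two (nat_lit 176160834) (nat_lit 9948889283) (.two (nat_lit 176160783) (nat_lit 46422558010) (.two (nat_lit 176160776) (nat_lit 16780791) (.two (nat_lit 4605345797) (nat_lit 156581763657) (.two (nat_lit 16777216) (nat_lit 46984602822) (.one (nat_lit 8400088) .nil))))),
   .two (nat_lit 11513364545) (nat_lit 158091706988) (.two (nat_lit 218103823) (nat_lit 203425155) (.two (nat_lit 606076936) (nat_lit 28705820071) (.two (nat_lit 169869316) (nat_lit 10372518884) (.two (nat_lit 9768534017) (nat_lit 11578383032) (.two (nat_lit 2097152) (nat_lit 16787475) (.one (nat_lit 2108854) .nil)))))),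
   .two (nat_lit 16777280) (nat_lit 46414168422) (.two (nat_lit 620757007) (nat_lit 11584669006) (.two (nat_lit 183853121544) (nat_lit 183928621583) (.two (nat_lit 183853121540) (nat_lit 16783237) (.two (nat_lit 41943041) (nat_lit 158192378922) (.one (nat_lit 20745039526) .nil))))),
   .two (nat_lit 19599982701) (nat_lit 9806282947) (.two (nat_lit 83886095) (nat_lit 18933089570) (.two (nat_lit 4605345800) (nat_lit 11559503390) (.two (nat_lit 41943045) (nat_lit 47596965781) (.two (nat_lit 37748737) (nat_lit 183953791617) (.two (nat_lit 4194304) (nat_lit 8398116) (.one (nat_lit 4206008) .nil)))))),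
   .two (nat_lit 2969567297) (nat_lit 2988442206) (.two (nat_lit 2954887183) (nat_lit 184550690) (.two (nat_lit 2954887176) (nat_lit 12129930726) (.two (nat_lit 2887778308) (nat_lit 156984415187) (.two (nat_lit 16777217) (nat_lit 2104902) (.two (nat_lit 2097152) (nat_lit 16787477) (.one (nat_lit 337652913) .nil)))))),
   .two (nat_lit 2969567297) (nat_lit 12115247735) (.two (nat_lit 2969567247) (nat_lit 2921334066) (.two (nat_lit 1847590920) (nat_lit 166144773556) (.two (nat_lit 218103813) (nat_lit 165526116201) (.two (nat_lit 16777217) (nat_lit 166130096713) (.two (nat_lit 2097152) (nat_lit 16786725) (.one (nat_lit 2108857) .nil)))))),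
   .two (nat_lit 343933043) (nat_lit 185035915459) (.two (nat_lit 11559501839) (nat_lit 47555020071) (.two (nat_lit 185002360840) (nat_lit 18933092230) (.two (nat_lit 612368385) (nat_lit 156380437080) (.two (nat_lit 2097152) (nat_lit 1358963868) (.one (nat_lit 16788922) .nil))))),
   .two (nat_lit 4605345857) (nat_lit 183916036770) (.two (nat_lit 11479810063) (nat_lit 109053245) (.two (nat_lit 4194312) (nat_lit 13195281949) (.two (nat_lit 171966469) (nat_lit 20711477128) (.two (nat_lit 37748737) (nat_lit 1056327) (.two (nat_lit 1048576) (nat_lit 184989787246) (.one (nat_lit 1060283) .nil)))))),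
   .two (nat_lit 10007609457) (nat_lit 16777411) (.two (nat_lit 75497487) (nat_lit 184553349) (.two (nat_lit 41943041) (nat_lit 185035923621) (.one (nat_lit 16788924) .nil))),
   .two (nat_lit 8388672) (nat_lit 754975333) (.two (nat_lit 8388623) (nat_lit 12163483675) (.two (nat_lit 16777224) (nat_lit 11618226053) (.two (nat_lit 16777217) (nat_lit 8394040) (.two (nat_lit 8388608) (nat_lit 16786728) (.one (nat_lit 8400000) .nil))))),
   .two (nat_lit 28758245485) (nat_lit 1209008487) (.two (nat_lit 2961178639) (nat_lit 337642340) (.two (nat_lit 3460300808) (nat_lit 880805405) (.two (nat_lit 184989777925) (nat_lit 873468892) (.two (nat_lit 605028353) (nat_lit 3460307532) (.two (nat_lit 2097152) (nat_lit 1058838) (.one (nat_lit 1060285) .nil)))))),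
   .two (nat_lit 8388675) (nat_lit 156581757569) (.two (nat_lit 176160783) (nat_lit 1325401433) (.two (nat_lit 612368392) (nat_lit 1780485572) (.two (nat_lit 16777220) (nat_lit 11517563950) (.two (nat_lit 2097153) (nat_lit 10443823755) (.two (nat_lit 2097152) (nat_lit 8398871) (.one (nat_lit 2108862) .nil)))))),
   .two (nat_lit 19532873795) (nat_lit 236978784) (.two (nat_lit 47548727311) (nat_lit 21814576477) (.two (nat_lit 9934209032) (nat_lit 159219976737) (.two (nat_lit 10370416645) (nat_lit 1279266702) (.two (nat_lit 2097153) (nat_lit 4202056) (.two (nat_lit 2097152) (nat_lit 4204568) (.one (nat_lit 2921343985) .nil)))))),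
   .two (nat_lit 2969567341) (nat_lit 174753579366) (.two (nat_lit 2902458383) (nat_lit 807404845) (.two (nat_lit 2902458376) (nat_lit 840961507) (.two (nat_lit 9934209029) (nat_lit 166144776853) (.two (nat_lit 2097152) (nat_lit 654319771) (.one (nat_lit 16788928) .nil))))),
   .two (nat_lit 158144135284) (nat_lit 11543773866) (.two (nat_lit 1277165583) (nat_lit 1846544432) (.two (nat_lit 10369368072) (nat_lit 46474988076) (.two (nat_lit 2894069765) (nat_lit 184417262152) (.two (nat_lit 8388608) (nat_lit 1058090) (.one (nat_lit 1060290) .nil))))),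
   .two (nat_lit 11517558851) (nat_lit 159216829044) (.two (nat_lit 4194319) (nat_lit 46514832743) (.two (nat_lit 47555018760) (nat_lit 159250385422) (.two (nat_lit 9768534021) (nat_lit 10544485395) (.two (nat_lit 37748737) (nat_lit 10443823714) (.two (nat_lit 4194304) (nat_lit 1058091) (.one (nat_lit 8400323) .nil)))))),
   .two (nat_lit 184993972288) (nat_lit 158176641640) (.two (nat_lit 101711887) (nat_lit 2927625545) (.two (nat_lit 101711880) (nat_lit 158083319326) (.two (nat_lit 11476664324) (nat_lit 176164769) (.two (nat_lit 34603009) (nat_lit 12054438048) (.one (nat_lit 1060292) .nil))))),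
   .two (nat_lit 11559501888) (nat_lit 158176641695) (.two (nat_lit 4194319) (nat_lit 11559503389) (.two (nat_lit 4194308) (nat_lit 687869838) (.two (nat_lit 34603009) (nat_lit 889199239) (.two (nat_lit 1048576) (nat_lit 4203820) (.one (nat_lit 4205750) .nil))))),
   .two (nat_lit 4605345858) (nat_lit 12633244009) (.two (nat_lit 156367847439) (nat_lit 159224171941) (.two (nat_lit 8388612) (nat_lit 166245438473) (.two (nat_lit 4194305) (nat_lit 21785224487) (.one (nat_lit 8400325) .nil)))),
   .two (nat_lit 10385096820) (nat_lit 41943235) (.two (nat_lit 639631375) (nat_lit 185027527984) (.two (nat_lit 2902458376) (nat_lit 10007610909) (.two (nat_lit 285212677) (nat_lit 1216354921) (.two (nat_lit 16777216) (nat_lit 2107417) (.one (nat_lit 2108870) .nil))))),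
   .two (nat_lit 8388672) (nat_lit 9902752365) (.two (nat_lit 9940500495) (nat_lit 12618564909) (.two (nat_lit 37748744) (nat_lit 3028289054) (.two (nat_lit 8388612) (nat_lit 4634709892) (.two (nat_lit 4194305) (nat_lit 46514838182) (.two (nat_lit 2097152) (nat_lit 1216357393) (.one (nat_lit 2108871) .nil)))))),
   .two (nat_lit 47555018818) (nat_lit 183846830742) (.two (nat_lit 13203669007) (nat_lit 10343155229) (.two (nat_lit 176160772) (nat_lit 10370423380) (.two (nat_lit 2097152) (nat_lit 11618231585) (.one (nat_lit 8400328) .nil)))),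
   .two (nat_lit 2954887234) (nat_lit 156566028943) (.two (nat_lit 169869327) (nat_lit 10947134838) (.two (nat_lit 1780482056) (nat_lit 9899608602) (.two (nat_lit 1277165572) (nat_lit 2886734878) (.two (nat_lit 8388609) (nat_lit 10504642066) (.two (nat_lit 2097152) (nat_lit 46481286187) (.one (nat_lit 1060297) .nil)))))),
   .two (nat_lit 47582281841) (nat_lit 46477082819) (.two (nat_lit 203423759) (nat_lit 20640172554) (.two (nat_lit 270532613) (nat_lit 11546922888) (.two (nat_lit 9766436865) (nat_lit 156566037610) (.one (nat_lit 1060298) .nil)))),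
   .two (nat_lit 183853121647) (nat_lit 46474986108) (.two (nat_lit 11479810063) (nat_lit 47548728164) (.two (nat_lit 12117344264) (nat_lit 1277168155) (.two (nat_lit 1283457029) (nat_lit 2103175) (.two (nat_lit 9768534017) (nat_lit 2105805) (.two (nat_lit 4194304) (nat_lit 8398125) (.one (nat_lit 4206027) .nil)))))),
   .two (nat_lit 721420405) (nat_lit 2954887363) (.two (nat_lit 158144135183) (nat_lit 156532475272) (.two (nat_lit 1913651208) (nat_lit 2100728) (.two (nat_lit 822083589) (nat_lit 21207456340) (.two (nat_lit 16777216) (nat_lit 270541864) (.one (nat_lit 1060300) .nil))))),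
   .two (nat_lit 880803950) (nat_lit 654311782) (.two (nat_lit 8388623) (nat_lit 12129928531) (.two (nat_lit 184549384) (nat_lit 46414172038) (.two (nat_lit 16777217) (nat_lit 11517565622) (.two (nat_lit 8388608) (nat_lit 16786734) (.one (nat_lit 8400333) .nil))))),
   .two (nat_lit 285212786) (nat_lit 8389299) (.two (nat_lit 16777231) (nat_lit 1753220390) (.two (nat_lit 41943048) (nat_lit 9982447036) (.two (nat_lit 184549381) (nat_lit 47582287706) (.two (nat_lit 8388609) (nat_lit 9766444576) (.two (nat_lit 8388608) (nat_lit 16786735) (.one (nat_lit 352332937) .nil)))))),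
   .two (nat_lit 1847590978) (nat_lit 183848927849) (.two (nat_lit 2889875471) (nat_lit 2350908259) (.two (nat_lit 2889875464) (nat_lit 1210060231) (.two (nat_lit 4601151493) (nat_lit 46407880583) (.two (nat_lit 4194305) (nat_lit 9799998080) (.two (nat_lit 2097152) (nat_lit 4204572) (.one (nat_lit 2108878) .nil)))))),
   .two (nat_lit 10506731637) (nat_lit 352322184) (.two (nat_lit 16777231) (nat_lit 1212155217) (.two (nat_lit 822083592) (nat_lit 19532876290) (.two (nat_lit 16777220) (nat_lit 708841374) (.two (nat_lit 16777217) (nat_lit 159219980962) (.two (nat_lit 2097152) (nat_lit 4203674) (.one (nat_lit 16788943) .nil)))))),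
   .two (nat_lit 9866051650) (nat_lit 8389300) (.two (nat_lit 184423546895) (nat_lit 28790752098) (.two (nat_lit 11551113224) (nat_lit 672139783) (.two (nat_lit 1343225861) (nat_lit 184423552037) (.two (nat_lit 605028353) (nat_lit 37320922429) (.two (nat_lit 2097152) (nat_lit 183845790999) (.one (nat_lit 1060304) .nil)))))),
   .two (nat_lit 1916797039) (nat_lit 157035790972) (.two (nat_lit 4613734415) (nat_lit 183949591842) (.two (nat_lit 50331656) (nat_lit 47547682715) (.two (nat_lit 16777217) (nat_lit 9798949464) (.two (nat_lit 16777216) (nat_lit 1058097) (.one (nat_lit 4206033) .nil))))),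
   .two (nat_lit 13237223491) (nat_lit 166237045388) (.two (nat_lit 11492392975) (nat_lit 158143087459) (.two (nat_lit 822083596) (nat_lit 873466377) (.two (nat_lit 50331653) (nat_lit 11610886023) (.two (nat_lit 34603009) (nat_lit 28705825835) (.one (nat_lit 16788719) .nil))))),
   .two (nat_lit 1916797039) (nat_lit 184416207212) (.two (nat_lit 12117344271) (nat_lit 2316305950) (.two (nat_lit 11479810052) (nat_lit 1054600) (.two (nat_lit 16777217) (nat_lit 47547686453) (.two (nat_lit 16777216) (nat_lit 184416216324) (.one (nat_lit 4206035) .nil))))),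
   .two (nat_lit 174686470256) (nat_lit 9969861227) (.two (nat_lit 11492392975) (nat_lit 28693234530) (.two (nat_lit 9768534024) (nat_lit 117442078) (.two (nat_lit 157036838917) (nat_lit 71307155) (.two (nat_lit 4194305) (nat_lit 11007957664) (.two (nat_lit 2097152) (nat_lit 3024102431) (.one (nat_lit 2108884) .nil)))))),
   .two (nat_lit 4605345902) (nat_lit 184419352933) (.two (nat_lit 8388623) (nat_lit 11580474727) (.two (nat_lit 8388616) (nat_lit 10506734124) (.two (nat_lit 47555018757) (nat_lit 20740840010) (.two (nat_lit 4194304) (nat_lit 8398130) (.one (nat_lit 4206037) .nil))))),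
   .two (nat_lit 12147753075) (nat_lit 209715559) (.two (nat_lit 184416206863) (nat_lit 156472706395) (.two (nat_lit 184416206856) (nat_lit 46481280916) (.two (nat_lit 34603009) (nat_lit 10376714902) (.two (nat_lit 1048576) (nat_lit 8398878) (.one (nat_lit 8400342) .nil))))),
   .two (nat_lit 11492393025) (nat_lit 37249614901) (.two (nat_lit 4194319) (nat_lit 156481096227) (.two (nat_lit 11492392964) (nat_lit 12150904708) (.two (nat_lit 4194305) (nat_lit 1057230) (.two (nat_lit 1048576) (nat_lit 4204575) (.one (nat_lit 1060311) .nil))))),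
   .two (nat_lit 28758245443) (nat_lit 156581757584) (.two (nat_lit 1358954511) (nat_lit 11578379154) (.two (nat_lit 3539992584) (nat_lit 47548730864) (.two (nat_lit 721420292) (nat_lit 11511273293) (.two (nat_lit 34603009) (nat_lit 1344283741) (.one (nat_lit 2108888) .nil))))),
   .two (nat_lit 1426063470) (nat_lit 12054430053) (.two (nat_lit 1426063384) (nat_lit 209716598) (.two (nat_lit 21793603592) (nat_lit 8392185) (.two (nat_lit 20652752901) (nat_lit 21818774542) (.two (nat_lit 156372041729) (nat_lit 46489672357) (.two (nat_lit 4194304) (nat_lit 1182803064) (.one (nat_lit 8400345) .nil)))))),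
   .two (nat_lit 47555018818) (nat_lit 11007951458) (.two (nat_lit 47555018767) (nat_lit 47582283048) (.two (nat_lit 3525312520) (nat_lit 47555020318) (.two (nat_lit 10370416645) (nat_lit 746590088) (.two (nat_lit 9766436865) (nat_lit 20745034418) (.two (nat_lit 2097152) (nat_lit 1384129676) (.one (nat_lit 1377840311) .nil)))))),
   .two (nat_lit 21785215043) (nat_lit 9765388920) (.two (nat_lit 46407876623) (nat_lit 20644368261) (.two (nat_lit 2097153) (nat_lit 176169119) (.one (nat_lit 168832183) .nil))),
   .two (nat_lit 1291845742) (nat_lit 47548727944) (.two (nat_lit 654311439) (nat_lit 136317456) (.two (nat_lit 2902458372) (nat_lit 2887782291) (.two (nat_lit 16777217) (nat_lit 11010055705) (.two (nat_lit 2097152) (nat_lit 4203829) (.one (nat_lit 2108092) .nil))))),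
   .two (nat_lit 10940842099) (nat_lit 9974055107) (.two (nat_lit 156372041743) (nat_lit 3024094052) (.two (nat_lit 742391816) (nat_lit 1920995212) (.two (nat_lit 2097153) (nat_lit 243275064) (.two (nat_lit 4194304) (nat_lit 10007618734) (.one (nat_lit 4206044) .nil))))),
   .two (nat_lit 46978302067) (nat_lit 9802088643) (.two (nat_lit 47548727311) (nat_lit 4196406) (.two (nat_lit 183845781512) (nat_lit 3527413239) (.two (nat_lit 270532613) (nat_lit 4200329) (.two (nat_lit 2097153) (nat_lit 272637440) (.two (nat_lit 1048576) (nat_lit 11544830918) (.one (nat_lit 34613765) .nil)))))),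
   .two (nat_lit 184419352691) (nat_lit 847249603) (.two (nat_lit 13191086095) (nat_lit 156372043293) (.two (nat_lit 4194308) (nat_lit 20745031560) (.two (nat_lit 4194305) (nat_lit 773856839) (.two (nat_lit 2097152) (nat_lit 165528216686) (.one (nat_lit 2108893) .nil))))),
   .two (nat_lit 4601151552) (nat_lit 11477714249) (.two (nat_lit 4601151496) (nat_lit 46474988970) (.two (nat_lit 4601151493) (nat_lit 2961182609) (.two (nat_lit 4194305) (nat_lit 243276462) (.two (nat_lit 8388608) (nat_lit 3460310268) (.one (nat_lit 10338970991) .nil))))),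
   .two (nat_lit 16777280) (nat_lit 1049269) (.two (nat_lit 176160783) (nat_lit 1191185829) (.two (nat_lit 721420292) (nat_lit 21207454766) (.two (nat_lit 612368385) (nat_lit 10385106215) (.one (nat_lit 16788958) .nil)))),
   .two (nat_lit 158646403137) (nat_lit 37247517296) (.two (nat_lit 9934209039) (nat_lit 183845782836) (.two (nat_lit 1780482056) (nat_lit 1209012127) (.two (nat_lit 2097153) (nat_lit 19529737502) (.one (nat_lit 1853893178) .nil)))),
   .two (nat_lit 8388672) (nat_lit 20637025122) (.two (nat_lit 8388616) (nat_lit 28690091911) (.two (nat_lit 8388609) (nat_lit 28705823306) (.two (nat_lit 8388608) (nat_lit 151004292) (.one (nat_lit 4647300139) .nil)))),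
   .two (nat_lit 20704133186) (nat_lit 142606531) (.two (nat_lit 158176641047) (nat_lit 158083319120) (.two (nat_lit 158143086600) (nat_lit 158083319326) (.two (nat_lit 21207449605) (nat_lit 176164769) (.two (nat_lit 605028353) (nat_lit 13228840253) (.two (nat_lit 16777216) (nat_lit 9798952105) (.one (nat_lit 1060319) .nil)))))),
   .two (nat_lit 184419352687) (nat_lit 28764537451) (.two (nat_lit 9881780239) (nat_lit 10443819917) (.two (nat_lit 13191086088) (nat_lit 159224170014) (.two (nat_lit 4194308) (nat_lit 9915341441) (.two (nat_lit 16777216) (nat_lit 13228844341) (.one (nat_lit 13237234200) .nil))))),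
   .two (nat_lit 46523220084) (nat_lit 2956984682) (.two (nat_lit 2969567247) (nat_lit 46978303292) (.two (nat_lit 606076936) (nat_lit 16778781) (.two (nat_lit 69206021) (nat_lit 10519318427) (.two (nat_lit 2097153) (nat_lit 2936019636) (.two (nat_lit 4194304) (nat_lit 1929390564) .nil))))),
   .two (nat_lit 10336862275) (nat_lit 20644364940) (.two (nat_lit 3464495119) (nat_lit 10907288418) (.two (nat_lit 20638072840) (nat_lit 21818772965) (.two (nat_lit 47555018757) (nat_lit 46508545015) (.two (nat_lit 8388609) (nat_lit 184987687545) (.two (nat_lit 2097152) (nat_lit 8398135) (.one (nat_lit 8400352) .nil)))))),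
   .two (nat_lit 2969567298) (nat_lit 10437525861) (.two (nat_lit 620757007) (nat_lit 156539815212) (.two (nat_lit 11551113224) (nat_lit 285215258) (.two (nat_lit 166130089988) (nat_lit 183953788819) (.two (nat_lit 612368385) (nat_lit 156567083683) (.two (nat_lit 2097152) (nat_lit 8398136) (.one (nat_lit 2108897) .nil)))))),
   .two (nat_lit 3527409730) (nat_lit 4605346440) (.two (nat_lit 10370416655) (nat_lit 156535620450) (.two (nat_lit 9867100168) (nat_lit 47555020317) (.two (nat_lit 708837381) (nat_lit 12624860477) (.two (nat_lit 2097152) (nat_lit 4203833) (.one (nat_lit 8400354) .nil))))),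
   .two (nat_lit 117440579) (nat_lit 168821803) (.two (nat_lit 9881780239) (nat_lit 2350908794) (.two (nat_lit 11476664328) (nat_lit 2961182599) (.two (nat_lit 2097153) (nat_lit 10939801056) (.two (nat_lit 2097152) (nat_lit 183912899507) (.one (nat_lit 873475059) .nil))))),
   .two (nat_lit 12617515074) (nat_lit 1379926686) (.two (nat_lit 9881780239) (nat_lit 2416968547) (.two (nat_lit 183848927240) (nat_lit 269487533) (.two (nat_lit 809500677) (nat_lit 1175460425) (.two (nat_lit 4194304) (nat_lit 1057826) (.one (nat_lit 1060323) .nil))))),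
   .two (nat_lit 3003121729) (nat_lit 840958312) (.two (nat_lit 2902458383) (nat_lit 807404918) (.two (nat_lit 28086108168) (nat_lit 28760345118) (.two (nat_lit 2956984325) (nat_lit 2103178) (.two (nat_lit 605028353) (nat_lit 4202058) (.two (nat_lit 2097152) (nat_lit 3557827692) (.one (nat_lit 1060324) .nil)))))),
   .two (nat_lit 184993972288) (nat_lit 37316723364) (.two (nat_lit 3460300815) (nat_lit 28093449758) (.two (nat_lit 1276116996) (nat_lit 4198291) (.two (nat_lit 605028353) (nat_lit 37755509) (.two (nat_lit 1048576) (nat_lit 4203835) (.one (nat_lit 4205582) .nil))))),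
   .two (nat_lit 3527409731) (nat_lit 157036839778) (.two (nat_lit 46978301960) (nat_lit 46409976340) (.two (nat_lit 3525312517) (nat_lit 21781027492) (.two (nat_lit 2097152) (nat_lit 4203836) (.one (nat_lit 3458215026) .nil)))),
   .two (nat_lit 11543773250) (nat_lit 2961179293) (.two (nat_lit 11543773199) (nat_lit 11511268691) (.two (nat_lit 1343225864) (nat_lit 2418019770) (.two (nat_lit 705691652) (nat_lit 8394635) (.two (nat_lit 156372041729) (nat_lit 236984951) (.two (nat_lit 2097152) (nat_lit 158143095959) (.one (nat_lit 1060325) .nil)))))),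
   .two (nat_lit 46984593473) (nat_lit 1916797285) (.two (nat_lit 654311439) (nat_lit 184989780511) (.two (nat_lit 10385096709) (nat_lit 1209012109) (.two (nat_lit 4194305) (nat_lit 184416213625) (.two (nat_lit 4194304) (nat_lit 16786749) (.one (nat_lit 1060326) .nil))))),
   .two (nat_lit 2994733122) (nat_lit 159251431782) (.two (nat_lit 203423759) (nat_lit 9772729648) (.two (nat_lit 3525312520) (nat_lit 343936484) (.two (nat_lit 20644364292) (nat_lit 158177694747) (.two (nat_lit 9766436865) (nat_lit 21818777135) (.two (nat_lit 2097152) (nat_lit 21818778823) (.one (nat_lit 2108903) .nil)))))),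
   .two (nat_lit 75497539) (nat_lit 174701150829) (.two (nat_lit 285212687) (nat_lit 10007610210) (.two (nat_lit 285212680) (nat_lit 10007611906) (.two (nat_lit 16777220) (nat_lit 19100865851) (.two (nat_lit 1048576) (nat_lit 8396968) (.one (nat_lit 1060328) .nil))))),
   .two (nat_lit 2988441666) (nat_lit 37249615224) (.two (nat_lit 10519314440) (nat_lit 272632328) (.two (nat_lit 9768534021) (nat_lit 158177693585) (.two (nat_lit 2097153) (nat_lit 2323652064) (.two (nat_lit 8388608) (nat_lit 46508549407) (.one (nat_lit 2108905) .nil))))),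
   .two (nat_lit 343933041) (nat_lit 4601151683) (.two (nat_lit 46414168079) (nat_lit 843056670) (.two (nat_lit 159224168453) (nat_lit 1054604) (.two (nat_lit 612368385) (nat_lit 1057231) (.two (nat_lit 1048576) (nat_lit 8398882) (.one (nat_lit 8400362) .nil))))),
   .two (nat_lit 12147753075) (nat_lit 183916036453) (.two (nat_lit 3525312527) (nat_lit 3460303392) (.two (nat_lit 270532613) (nat_lit 876613535) (.two (nat_lit 605028353) (nat_lit 339747960) (.one (nat_lit 1060331) .nil)))),
   .two (nat_lit 11492393025) (nat_lit 2319450755) (.two (nat_lit 46409973775) (nat_lit 3472885049) (.two (nat_lit 2889875464) (nat_lit 11492396456) (.two (nat_lit 272629765) (nat_lit 10510930906) (.two (nat_lit 4194305) (nat_lit 16785872) (.two (nat_lit 4194304) (nat_lit 8398883) (.one (nat_lit 4206060) .nil)))))),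
   .two (nat_lit 9881780289) (nat_lit 166196150629) (.two (nat_lit 620757007) (nat_lit 158075979798) (.two (nat_lit 1276117000) (nat_lit 16779802) (.two (nat_lit 159216828421) (nat_lit 285218670) (.two (nat_lit 4194305) (nat_lit 9899615267) (.one (nat_lit 1060333) .nil))))),
   .two (nat_lit 19027460161) (nat_lit 28757196995) (.two (nat_lit 10370416655) (nat_lit 13195282971) (.two (nat_lit 20637024260) (nat_lit 2921337916) (.two (nat_lit 606076929) (nat_lit 34612333) (.one (nat_lit 1060334) .nil)))),
   .two (nat_lit 1358954563) (nat_lit 28758246012) (.two (nat_lit 639631375) (nat_lit 19545457969) (.two (nat_lit 2887778312) (nat_lit 10519317007) (.two (nat_lit 12114198533) (nat_lit 807407503) (.two (nat_lit 156364701697) (nat_lit 28705823423) (.two (nat_lit 1048576) (nat_lit 2106687) (.one (nat_lit 1060335) .nil)))))),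
   .two (nat_lit 780140611) (nat_lit 839910033) (.two (nat_lit 822083599) (nat_lit 10007610909) (.two (nat_lit 16777220) (nat_lit 166136386873) (.two (nat_lit 1048576) (nat_lit 159224177838) (.one (nat_lit 1376791618) .nil)))),
   .two (nat_lit 285212738) (nat_lit 10007609701) (.two (nat_lit 176160783) (nat_lit 788530483) (.two (nat_lit 13203669000) (nat_lit 47555021310) (.two (nat_lit 183861510149) (nat_lit 713036825) (.two (nat_lit 16777217) (nat_lit 184993979067) (.two (nat_lit 2097152) (nat_lit 1962943579) (.one (nat_lit 318778543) .nil)))))),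
   .two (nat_lit 16777325) (nat_lit 184993972581) (.two (nat_lit 16777231) (nat_lit 19537070598) (.two (nat_lit 16777221) (nat_lit 2323648412) (.two (nat_lit 41943041) (nat_lit 10921974411) (.two (nat_lit 8388608) (nat_lit 620765339) (.one (nat_lit 8400368) .nil))))),
   .two (nat_lit 1277165684) (nat_lit 620757187) (.two (nat_lit 9934209039) (nat_lit 4043310387) (.two (nat_lit 169869320) (nat_lit 9781119510) (.two (nat_lit 4599054341) (nat_lit 1929386661) (.two (nat_lit 1048576) (nat_lit 159251440566) (.one (nat_lit 304097797) .nil))))),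
   .two (nat_lit 4028629057) (nat_lit 855639346) (.two (nat_lit 46978301960) (nat_lit 2902461939) (.two (nat_lit 203423749) (nat_lit 46523226792) (.two (nat_lit 2097152) (nat_lit 16786754) (.one (nat_lit 16788977) .nil)))),
   .two (nat_lit 11492393025) (nat_lit 2349859446) (.two (nat_lit 10385096719) (nat_lit 2987394393) (.two (nat_lit 1343225864) (nat_lit 11584670224) (.two (nat_lit 705691652) (nat_lit 16783245) (.two (nat_lit 620756993) (nat_lit 11484011199) (.two (nat_lit 1048576) (nat_lit 16787493) (.one (nat_lit 16788978) .nil)))))),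
   .two (nat_lit 4601151552) (nat_lit 9906946738) (.two (nat_lit 713031695) (nat_lit 13191087440) (.two (nat_lit 184993972232) (nat_lit 156468514221) (.two (nat_lit 46409973764) (nat_lit 47588578331) (.two (nat_lit 612368385) (nat_lit 3560971823) (.two (nat_lit 8388608) (nat_lit 3560973511) (.one (nat_lit 185023343862) .nil)))))),
   .two (nat_lit 185035915330) (nat_lit 605028984) (.two (nat_lit 174753579023) (nat_lit 1049926) (.two (nat_lit 183845781512) (nat_lit 1224740743) (.two (nat_lit 2097153) (nat_lit 10369374824) (.two (nat_lit 2097152) (nat_lit 1058115) (.one (nat_lit 1060339) .nil))))),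
   .two (nat_lit 4601151552) (nat_lit 156976022569) (.two (nat_lit 8388623) (nat_lit 10439623984) (.two (nat_lit 813694984) (nat_lit 843056670) (.two (nat_lit 8388612) (nat_lit 4199485) (.two (nat_lit 8388609) (nat_lit 183916045459) (.one (nat_lit 2108916) .nil))))),
   .two (nat_lit 880803952) (nat_lit 1224737127) (.two (nat_lit 41943055) (nat_lit 10385097570) (.two (nat_lit 1291845640) (nat_lit 158150429188) (.two (nat_lit 9948889093) (nat_lit 158183985044) (.two (nat_lit 4194305) (nat_lit 2961186951) (.one (nat_lit 16788982) .nil))))),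
   .two (nat_lit 11479810115) (nat_lit 1384120997) (.two (nat_lit 843055128) (nat_lit 156472706369) (.two (nat_lit 4605345800) (nat_lit 46510638622) (.two (nat_lit 4194308) (nat_lit 8394638) (.two (nat_lit 9781116929) (nat_lit 183916042874) (.two (nat_lit 16777216) (nat_lit 9902760893) (.one (nat_lit 4206071) .nil)))))),
   .two (nat_lit 16777281) (nat_lit 20644365608) (.two (nat_lit 16777224) (nat_lit 21785218530) (.two (nat_lit 176160772) (nat_lit 16782398) (.two (nat_lit 8388609) (nat_lit 16784971) (.two (nat_lit 8388608) (nat_lit 16787494) (.one (nat_lit 8400376) .nil))))),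
   .two (nat_lit 184993972290) (nat_lit 9814671981) (.two (nat_lit 50331663) (nat_lit 46414171576) (.two (nat_lit 16777221) (nat_lit 169874456) (.two (nat_lit 16777217) (nat_lit 304093812) (.two (nat_lit 2097152) (nat_lit 1392518432) (.one (nat_lit 2108921) .nil))))),
   .two (nat_lit 3573547075) (nat_lit 1344274794) (.two (nat_lit 3458203663) (nat_lit 352322894) (.two (nat_lit 203423752) (nat_lit 2432699867) (.two (nat_lit 174753579013) (nat_lit 16782399) (.two (nat_lit 9766436865) (nat_lit 16784973) (.two (nat_lit 2097152) (nat_lit 16787496) (.one (nat_lit 16788986) .nil)))))),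
   .two (nat_lit 721420533) (nat_lit 11543773379) (.two (nat_lit 16777231) (nat_lit 47581234519) (.two (nat_lit 218103816) (nat_lit 10000271888) (.two (nat_lit 822083589) (nat_lit 11543778307) (.two (nat_lit 9781116929) (nat_lit 12147760707) (.two (nat_lit 2097152) (nat_lit 1058857) (.one (nat_lit 788540084) .nil)))))),
   .two (nat_lit 4605345856) (nat_lit 156535620213) (.two (nat_lit 276824079) (nat_lit 157038938140) (.two (nat_lit 205520904) (nat_lit 47555022327) (.two (nat_lit 158075977733) (nat_lit 47550829537) (.two (nat_lit 34603009) (nat_lit 12620669957) (.one (nat_lit 1060347) .nil))))),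
   .two (nat_lit 880803952) (nat_lit 9802089139) (.two (nat_lit 37748751) (nat_lit 343933795) (.two (nat_lit 46409973768) (nat_lit 158653746634) (.two (nat_lit 184989777925) (nat_lit 8394639) (.two (nat_lit 8388609) (nat_lit 28089263294) (.one (nat_lit 8400380) .nil))))),
   .two (nat_lit 12117344321) (nat_lit 28093448858) (.two (nat_lit 10506731535) (nat_lit 813696346) (.two (nat_lit 13195280392) (nat_lit 1916799490) (.two (nat_lit 8388612) (nat_lit 9969864586) (.two (nat_lit 4194305) (nat_lit 46984598845) (.two (nat_lit 16777216) (nat_lit 3460310087) (.one (nat_lit 4205254) .nil)))))),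
   .two (nat_lit 46474985537) (nat_lit 876609897) (.two (nat_lit 3525312527) (nat_lit 1413481776) (.two (nat_lit 19532873736) (nat_lit 10001321422) (.two (nat_lit 11479810052) (nat_lit 3022001193) (.two (nat_lit 2097153) (nat_lit 4202062) (.two (nat_lit 4194304) (nat_lit 2107434) (.one (nat_lit 2108925) .nil)))))),
   .two (nat_lit 37313577073) (nat_lit 608174700) (.two (nat_lit 3539992591) (nat_lit 2923431206) (.two (nat_lit 13224640525) (nat_lit 156548205084) (.two (nat_lit 809500677) (nat_lit 855643109) (.two (nat_lit 9765388289) (nat_lit 47550831230) (.two (nat_lit 1048576) (nat_lit 4203844) (.one (nat_lit 16788990) .nil)))))),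
   .two (nat_lit 1916797037) (nat_lit 12163482276) (.two (nat_lit 16777231) (nat_lit 809502050) (.two (nat_lit 285212680) (nat_lit 19532876289) (.two (nat_lit 809500677) (nat_lit 16781218) (.two (nat_lit 156365750273) (nat_lit 1279270474) (.two (nat_lit 2097152) (nat_lit 4204587) (.one (nat_lit 2108103) .nil)))))),
   .two (nat_lit 184986632258) (nat_lit 3036676788) (.two (nat_lit 4194319) (nat_lit 184550694) (.two (nat_lit 4194312) (nat_lit 788531747) (.two (nat_lit 705691652) (nat_lit 21793608741) (.two (nat_lit 34603009) (nat_lit 11479816870) (.two (nat_lit 1048576) (nat_lit 4203780) (.one (nat_lit 1060352) .nil)))))),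
   .two (nat_lit 754974785) (nat_lit 1417675427) (.two (nat_lit 41943055) (nat_lit 754975587) (.two (nat_lit 276824072) (nat_lit 47596965360) (.two (nat_lit 721420293) (nat_lit 183853125507) (.two (nat_lit 16777217) (nat_lit 47588578621) (.two (nat_lit 1048576) (nat_lit 47563416647) (.one (nat_lit 19042151017) .nil)))))),
   .two (nat_lit 184993972289) (nat_lit 1343226528) (.two (nat_lit 1343225871) (nat_lit 71304531) (.two (nat_lit 1343225864) (nat_lit 11546922473) (.two (nat_lit 183853121541) (nat_lit 158143091735) (.two (nat_lit 8388609) (nat_lit 4202063) (.two (nat_lit 1048576) (nat_lit 8398892) (.one (nat_lit 1417686228) .nil)))))),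
   .two (nat_lit 9806282862) (nat_lit 4194998) (.two (nat_lit 4638900248) (nat_lit 185023333735) (.two (nat_lit 157043130376) (nat_lit 28089257403) (.two (nat_lit 184419352581) (nat_lit 8394640) (.two (nat_lit 37748737) (nat_lit 8397269) (.two (nat_lit 16777216) (nat_lit 10003425261) (.one (nat_lit 4206082) .nil)))))),
   .two (nat_lit 11559501888) (nat_lit 1410335354) (.two (nat_lit 754974735) (nat_lit 166129042764) (.two (nat_lit 156968681480) (nat_lit 3573549578) (.two (nat_lit 28757196805) (nat_lit 16783249) (.two (nat_lit 9765388289) (nat_lit 46523226792) (.two (nat_lit 1048576) (nat_lit 16786758) (.one (nat_lit 4631570094) .nil)))))),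
   .two (nat_lit 272629870) (nat_lit 3539992937) (.two (nat_lit 83886095) (nat_lit 9798944131) (.two (nat_lit 754974733) (nat_lit 9933163974) (.two (nat_lit 620756997) (nat_lit 10503590952) (.two (nat_lit 605028353) (nat_lit 9814680749) (.one (nat_lit 10335824536) .nil))))),
   .two (nat_lit 4647288898) (nat_lit 306184387) (.two (nat_lit 159232557071) (nat_lit 21812479291) (.two (nat_lit 2969567240) (nat_lit 4197883) (.two (nat_lit 2889875461) (nat_lit 11611935729) (.two (nat_lit 2097153) (nat_lit 158146239053) (.two (nat_lit 4194304) (nat_lit 3022005558) (.one (nat_lit 4206084) .nil)))))),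
   .two (nat_lit 4601151552) (nat_lit 1753219938) (.two (nat_lit 46409973768) (nat_lit 10007611948) (.two (nat_lit 4194308) (nat_lit 10376714826) (.two (nat_lit 4194304) (nat_lit 9974064260) (.one (nat_lit 813706283) .nil)))),
   .two (nat_lit 184993972290) (nat_lit 34603367) (.two (nat_lit 16777231) (nat_lit 159224169757) (.two (nat_lit 4613734408) (nat_lit 21785218554) (.two (nat_lit 16777220) (nat_lit 11618227232) (.two (nat_lit 50331649) (nat_lit 19529737334) (.one (nat_lit 1059531) .nil))))),
   .two (nat_lit 28693233731) (nat_lit 303039126) (.two (nat_lit 46407876623) (nat_lit 165528209926) (.two (nat_lit 13187940357) (nat_lit 675288058) (.two (nat_lit 9768534017) (nat_lit 158143093332) (.two (nat_lit 1048576) (nat_lit 20740842699) (.one (nat_lit 2108933) .nil))))),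
   .two (nat_lit 47555018816) (nat_lit 19128124457) (.two (nat_lit 46407876623) (nat_lit 47555020066) (.two (nat_lit 10336862216) (nat_lit 11014244892) (.two (nat_lit 158083317765) (nat_lit 2102295) (.two (nat_lit 9766436865) (nat_lit 157043138066) (.two (nat_lit 2097152) (nat_lit 8398894) (.one (nat_lit 157036850356) .nil)))))),
   .two (nat_lit 12117344321) (nat_lit 37246468712) (.two (nat_lit 12117344271) (nat_lit 37246469418) (.two (nat_lit 11543773192) (nat_lit 156971828766) (.two (nat_lit 705691652) (nat_lit 37753897) (.two (nat_lit 34603009) (nat_lit 4634712755) (.two (nat_lit 4194304) (nat_lit 46977262792) (.one (nat_lit 174685432381) .nil)))))),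
   .two (nat_lit 158646403138) (nat_lit 21827158664) (.two (nat_lit 10336862223) (nat_lit 1209010725) (.two (nat_lit 34603013) (nat_lit 822088736) (.two (nat_lit 2097153) (nat_lit 1055425) (.two (nat_lit 8388608) (nat_lit 69215499) (.one (nat_lit 2108110) .nil))))),
   .two (nat_lit 19130220656) (nat_lit 1049271) (.two (nat_lit 1913651215) (nat_lit 19096667452) (.two (nat_lit 1178599432) (nat_lit 1053038) (.two (nat_lit 11476664324) (nat_lit 239080489) (.two (nat_lit 34603009) (nat_lit 11614034598) (.two (nat_lit 1048576) (nat_lit 9936315687) (.one (nat_lit 1059535) .nil)))))),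
   .two (nat_lit 1343225923) (nat_lit 10437525861) (.two (nat_lit 2961178639) (nat_lit 183846831409) (.two (nat_lit 20638072840) (nat_lit 20637026830) (.two (nat_lit 21207449605) (nat_lit 8394643) (.two (nat_lit 606076929) (nat_lit 1057238) (.two (nat_lit 1048576) (nat_lit 2106697) (.one (nat_lit 1060358) .nil)))))),
   .two (nat_lit 1216348227) (nat_lit 46510637717) (.two (nat_lit 159232557071) (nat_lit 183853122854) (.two (nat_lit 157038936072) (nat_lit 46414171560) (.two (nat_lit 184549381) (nat_lit 2994738185) (.two (nat_lit 4194305) (nat_lit 3464501936) (.two (nat_lit 8388608) (nat_lit 16787503) (.one (nat_lit 16788999) .nil)))))),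
   .two (nat_lit 11513364545) (nat_lit 2902459017) (.two (nat_lit 218103823) (nat_lit 19532875089) (.two (nat_lit 2902458376) (nat_lit 1212156418) (.two (nat_lit 809500677) (nat_lit 185035919265) (.two (nat_lit 8388609) (nat_lit 788538313) (.one (nat_lit 16789000) .nil))))),
   .two (nat_lit 166197198958) (nat_lit 21811429571) (.two (nat_lit 8388623) (nat_lit 46474988045) (.two (nat_lit 8388612) (nat_lit 11006907432) (.two (nat_lit 8388609) (nat_lit 1056336) (.two (nat_lit 8388608) (nat_lit 21812487422) (.one (nat_lit 4631571657) .nil))))),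
   .two (nat_lit 183949590644) (nat_lit 75498101) (.two (nat_lit 809500687) (nat_lit 9940501887) (.two (nat_lit 37748744) (nat_lit 343934493) (.two (nat_lit 11546918917) (nat_lit 1853886346) (.two (nat_lit 4194305) (nat_lit 12618570322) (.two (nat_lit 2097152) (nat_lit 4203851) (.one (nat_lit 2108115) .nil)))))),
   .two (nat_lit 19027460161) (nat_lit 1962934904) (.two (nat_lit 8388623) (nat_lit 2902459677) (.two (nat_lit 184549384) (nat_lit 165526112782) (.two (nat_lit 184549380) (nat_lit 1377834022) (.two (nat_lit 8388609) (nat_lit 10907294354) (.two (nat_lit 2097152) (nat_lit 11584677010) (.one (nat_lit 2108939) .nil)))))),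
   .two (nat_lit 754974833) (nat_lit 10939794056) (.two (nat_lit 11559501839) (nat_lit 156465365859) (.two (nat_lit 721420296) (nat_lit 2886733253) (.two (nat_lit 8388612) (nat_lit 822088766) (.two (nat_lit 8388609) (nat_lit 16784977) (.two (nat_lit 8388608) (nat_lit 806364254) (.one (nat_lit 1060364) .nil)))))),
   .two (nat_lit 4634705987) (nat_lit 10504634563) (.two (nat_lit 2889875471) (nat_lit 1411384631) (.two (nat_lit 641728520) (nat_lit 10907290138) (.two (nat_lit 2889875460) (nat_lit 12115252275) (.two (nat_lit 4194305) (nat_lit 2104914) (.two (nat_lit 4194304) (nat_lit 8398156) (.one (nat_lit 4206093) .nil)))))),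
   .two (nat_lit 28790751343) (nat_lit 183916036291) (.two (nat_lit 9866051599) (nat_lit 1916798337) (.two (nat_lit 28757196808) (nat_lit 12117345821) (.two (nat_lit 10939793413) (nat_lit 675286930) (.two (nat_lit 605028353) (nat_lit 4201154) (.two (nat_lit 2097152) (nat_lit 1058868) (.one (nat_lit 1060366) .nil)))))),
   .two (nat_lit 2416967795) (nat_lit 156569174211) (.two (nat_lit 1916796943) (nat_lit 672139811) (.two (nat_lit 11479810052) (nat_lit 12114203694) (.two (nat_lit 37748737) (nat_lit 1056339) (.two (nat_lit 4194304) (nat_lit 4598015014) (.one (nat_lit 1060367) .nil))))),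
   .two (nat_lit 236978242) (nat_lit 306184863) (.two (nat_lit 46407876623) (nat_lit 9802089314) (.two (nat_lit 46407876616) (nat_lit 9869199875) (.two (nat_lit 4599054341) (nat_lit 876614617) (.two (nat_lit 2097153) (nat_lit 4631566951) (.two (nat_lit 2097152) (nat_lit 21814586043) .nil))))),
   .two (nat_lit 16777280) (nat_lit 19100860776) (.two (nat_lit 721420303) (nat_lit 310379854) (.two (nat_lit 3464495112) (nat_lit 3539995151) (.two (nat_lit 47555018757) (nat_lit 9781122961) (.two (nat_lit 8388609) (nat_lit 1191191878) (.one (nat_lit 8399573) .nil))))),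
   .two (nat_lit 183949590593) (nat_lit 11611931267) (.two (nat_lit 176160783) (nat_lit 13222544695) (.two (nat_lit 4605345800) (nat_lit 2100733) (.two (nat_lit 13191086085) (nat_lit 18926802813) (.two (nat_lit 156367847425) (nat_lit 28087166159) (.one (nat_lit 2108944) .nil))))),
   .two (nat_lit 16777280) (nat_lit 166136382817) (.two (nat_lit 176160776) (nat_lit 12129930726) (.two (nat_lit 721420292) (nat_lit 1786778648) (.two (nat_lit 8388609) (nat_lit 16784980) (.two (nat_lit 8388608) (nat_lit 16787509) (.one (nat_lit 9940511263) .nil))))),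
   .two (nat_lit 8388672) (nat_lit 46409974425) (.two (nat_lit 2961178639) (nat_lit 156468512066) (.two (nat_lit 1749024776) (nat_lit 12617520134) (.two (nat_lit 16777217) (nat_lit 9772737794) (.one (nat_lit 8400401) .nil)))),
   .two (nat_lit 12117344371) (nat_lit 166229705063) (.two (nat_lit 4613734415) (nat_lit 46978305460) (.two (nat_lit 50331653) (nat_lit 158649552785) (.two (nat_lit 16777217) (nat_lit 1846549185) (.two (nat_lit 1048576) (nat_lit 16787510) (.one (nat_lit 1060370) .nil))))),
   .two (nat_lit 16777282) (nat_lit 4195385) (.two (nat_lit 285212687) (nat_lit 843056413) (.two (nat_lit 104857608) (nat_lit 822087155) (.two (nat_lit 10372513797) (nat_lit 16783253) (.two (nat_lit 612368385) (nat_lit 20707285581) (.two (nat_lit 8388608) (nat_lit 4203854) (.one (nat_lit 16789011) .nil)))))),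
   .two (nat_lit 2902458481) (nat_lit 813695333) (.two (nat_lit 285212687) (nat_lit 158653744502) (.two (nat_lit 1780482056) (nat_lit 156465366558) (.two (nat_lit 102760453) (nat_lit 4598010892) (.two (nat_lit 50331649) (nat_lit 1913658894) (.two (nat_lit 8388608) (nat_lit 16786767) (.one (nat_lit 16789012) .nil)))))),
   .two (nat_lit 272629824) (nat_lit 4631560794) (.two (nat_lit 272629775) (nat_lit 673187199) (.two (nat_lit 28757196808) (nat_lit 1849690638) (.two (nat_lit 10336862213) (nat_lit 10909388684) (.two (nat_lit 606076929) (nat_lit 18928900770) (.two (nat_lit 2097152) (nat_lit 12050244677) (.one (nat_lit 2108949) .nil)))))),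
   .two (nat_lit 236978241) (nat_lit 16777912) (.two (nat_lit 2969567247) (nat_lit 1310721318) (.two (nat_lit 3458203656) (nat_lit 754977299) (.two (nat_lit 2954887173) (nat_lit 620760964) (.two (nat_lit 156367847425) (nat_lit 12048145973) (.two (nat_lit 4194304) (nat_lit 2106704) (.one (nat_lit 2108950) .nil)))))),
   .two (nat_lit 218103873) (nat_lit 2956984977) (.two (nat_lit 218103823) (nat_lit 12150900088) (.two (nat_lit 10519314440) (nat_lit 11546922423) (.two (nat_lit 184549381) (nat_lit 4200342) (.two (nat_lit 37748737) (nat_lit 8395430) (.two (nat_lit 4194304) (nat_lit 8398904) (.one (nat_lit 4206103) .nil)))))),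
   .two (nat_lit 16777280) (nat_lit 166203490664) (.two (nat_lit 83886095) (nat_lit 2994734414) (.two (nat_lit 156367847432) (nat_lit 10376712079) (.two (nat_lit 4194305) (nat_lit 41949769) (.two (nat_lit 4194304) (nat_lit 19134425675) .nil)))),
   .two (nat_lit 50331760) (nat_lit 4194661) (.two (nat_lit 50331663) (nat_lit 1849689462) (.two (nat_lit 1276117000) (nat_lit 236979742) (.two (nat_lit 156364701701) (nat_lit 19532879699) (.two (nat_lit 16777217) (nat_lit 47548734990) (.two (nat_lit 4194304) (nat_lit 16786769) (.one (nat_lit 4206104) .nil)))))),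
   .two (nat_lit 721420399) (nat_lit 165532402266) (.two (nat_lit 83886095) (nat_lit 1753223044) (.two (nat_lit 8388609) (nat_lit 185002367610) (.two (nat_lit 16777216) (nat_lit 813704239) (.one (nat_lit 3036686952) .nil)))),
   .two (nat_lit 10506731587) (nat_lit 11511267990) (.two (nat_lit 13203669007) (nat_lit 19532874594) (.two (nat_lit 3525312520) (nat_lit 11546922895) (.two (nat_lit 2097153) (nat_lit 28705823318) (.two (nat_lit 2097152) (nat_lit 16786771) (.one (nat_lit 16789019) .nil))))),
   .two (nat_lit 8388672) (nat_lit 654312076) (.two (nat_lit 184549391) (nat_lit 10007610909) (.two (nat_lit 16777221) (nat_lit 37253812104) (.two (nat_lit 16777217) (nat_lit 156976028243) (.two (nat_lit 8388608) (nat_lit 3020956618) (.one (nat_lit 11577339323) .nil))))),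
   .two (nat_lit 1847590977) (nat_lit 1779434146) (.two (nat_lit 11559501839) (nat_lit 135267665) (.two (nat_lit 1846542344) (nat_lit 270536147) (.two (nat_lit 270532613) (nat_lit 10016003924) (.two (nat_lit 620756993) (nat_lit 1780489713) (.two (nat_lit 1048576) (nat_lit 16787514) (.one (nat_lit 1060381) .nil)))))),
   .two (nat_lit 721420353) (nat_lit 10007610210) (.two (nat_lit 176160776) (nat_lit 150997537) (.two (nat_lit 50331653) (nat_lit 46984598485) (.two (nat_lit 8388609) (nat_lit 37262203481) (.two (nat_lit 8388608) (nat_lit 16787515) (.one (nat_lit 8400414) .nil))))),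
   .two (nat_lit 9934209091) (nat_lit 8389305) (.two (nat_lit 156567076905) (nat_lit 156535620924) (.two (nat_lit 37748744) (nat_lit 3028289054) (.two (nat_lit 1795162117) (nat_lit 12150905529) (.two (nat_lit 16777216) (nat_lit 2106708) (.one (nat_lit 4206111) .nil))))),
   .two (nat_lit 343932993) (nat_lit 174755676794) (.two (nat_lit 12054429711) (nat_lit 157035791671) (.two (nat_lit 1175453704) (nat_lit 4197887) (.two (nat_lit 9765388293) (nat_lit 4200343) (.two (nat_lit 156372041729) (nat_lit 166199303739) (.two (nat_lit 4194304) (nat_lit 8398909) (.one (nat_lit 4206112) .nil)))))),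
   .two (nat_lit 46510637121) (nat_lit 117441379) (.two (nat_lit 50331656) (nat_lit 10909387271) (.two (nat_lit 721420293) (nat_lit 37753890) (.two (nat_lit 16777217) (nat_lit 1916803774) (.two (nat_lit 4194304) (nat_lit 16787518) (.one (nat_lit 4206113) .nil))))),
   .two (nat_lit 176160834) (nat_lit 183947494018) (.two (nat_lit 176160783) (nat_lit 1210058062) (.two (nat_lit 612368392) (nat_lit 19094572943) (.two (nat_lit 8388609) (nat_lit 184416213651) (.two (nat_lit 2097152) (nat_lit 235938959) (.one (nat_lit 1060386) .nil))))),
   .two (nat_lit 2969567297) (nat_lit 21812478312) (.two (nat_lit 16777231) (nat_lit 9940501806) (.two (nat_lit 2969567240) (nat_lit 4632612343) (.two (nat_lit 184549380) (nat_lit 2102313) (.two (nat_lit 2097153) (nat_lit 184993979001) (.two (nat_lit 2097152) (nat_lit 156380439805) (.one (nat_lit 606087849) .nil)))))),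
   .two (nat_lit 16777280) (nat_lit 310378691) (.two (nat_lit 41943055) (nat_lit 174768260401) (.two (nat_lit 721420296) (nat_lit 28086110734) (.two (nat_lit 721420292) (nat_lit 1054616) (.two (nat_lit 9765388289) (nat_lit 1786780244) (.two (nat_lit 1048576) (nat_lit 880812983) (.one (nat_lit 1060388) .nil)))))),
   .two (nat_lit 2954887234) (nat_lit 1283457387) (.two (nat_lit 13191086095) (nat_lit 13228836885) (.two (nat_lit 1310720013) (nat_lit 138415594) (.two (nat_lit 69206021) (nat_lit 8394649) (.two (nat_lit 2097153) (nat_lit 4202070) (.two (nat_lit 4194304) (nat_lit 1210066064) (.one (nat_lit 2108965) .nil)))))),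
   .two (nat_lit 12117344321) (nat_lit 9966715523) (.two (nat_lit 276824079) (nat_lit 10003417634) (.two (nat_lit 2894069765) (nat_lit 165528211345) (.two (nat_lit 4194305) (nat_lit 1057239) (.two (nat_lit 1048576) (nat_lit 8398912) (.one (nat_lit 1059544) .nil))))),
   .two (nat_lit 16777330) (nat_lit 8389306) (.two (nat_lit 50331663) (nat_lit 19537070608) (.two (nat_lit 11559501829) (nat_lit 174752537279) (.two (nat_lit 16777216) (nat_lit 1058133) (.one (nat_lit 1060390) .nil)))),
   .two (nat_lit 1753219182) (nat_lit 21777875626) (.two (nat_lit 41943055) (nat_lit 4598007106) (.two (nat_lit 2902458376) (nat_lit 19134417435) (.two (nat_lit 16777221) (nat_lit 20737694363) (.two (nat_lit 1048576) (nat_lit 18941486347) (.one (nat_lit 158646414017) .nil))))),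
   .two (nat_lit 47548727362) (nat_lit 1182794349) (.two (nat_lit 11551113231) (nat_lit 9765389654) (.two (nat_lit 713031688) (nat_lit 159251434997) (.two (nat_lit 1846542341) (nat_lit 21208503348) (.two (nat_lit 612368385) (nat_lit 10538195607) (.two (nat_lit 1048576) (nat_lit 8398913) (.one (nat_lit 1060392) .nil)))))),
   .two (nat_lit 343932995) (nat_lit 19545457261) (.two (nat_lit 612368399) (nat_lit 158662133062) (.two (nat_lit 47563407368) (nat_lit 343936902) (.two (nat_lit 620756993) (nat_lit 168829918) (.one (nat_lit 1059369) .nil)))),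
   .two (nat_lit 4605345859) (nat_lit 165526111074) (.two (nat_lit 46414168072) (nat_lit 158647454228) (.two (nat_lit 4605345797) (nat_lit 2103194) (.two (nat_lit 606076929) (nat_lit 2961188156) (.one (nat_lit 8400425) .nil)))),
   .two (nat_lit 11559501889) (nat_lit 11577328219) (.two (nat_lit 822083599) (nat_lit 20704135196) (.two (nat_lit 9866051592) (nat_lit 50334206) (.two (nat_lit 1276116996) (nat_lit 183962178624) (.two (nat_lit 50331649) (nat_lit 1057240) (.two (nat_lit 16777216) (nat_lit 1058883) (.one (nat_lit 156566039702) .nil)))))),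
   .two (nat_lit 46477082690) (nat_lit 1920991848) (.two (nat_lit 3527409679) (nat_lit 874515903) (.two (nat_lit 2887778308) (nat_lit 11546924002) (.two (nat_lit 9768534017) (nat_lit 706748851) (.two (nat_lit 4194304) (nat_lit 2107461) (.one (nat_lit 4206122) .nil))))),
   .two (nat_lit 9881780289) (nat_lit 46514832738) (.two (nat_lit 9781116936) (nat_lit 8392192) (.two (nat_lit 8388613) (nat_lit 10370422632) (.two (nat_lit 606076929) (nat_lit 9781123730) (.two (nat_lit 2097152) (nat_lit 16786775) (.one (nat_lit 16789035) .nil))))),
   .two (nat_lit 28693233777) (nat_lit 1344274793) (.two (nat_lit 46407876623) (nat_lit 1413484439) (.two (nat_lit 2097153) (nat_lit 3460307551) (.two (nat_lit 1048576) (nat_lit 239084523) (.one (nat_lit 2108973) .nil)))),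
   .two (nat_lit 4601151554) (nat_lit 47596962433) (.two (nat_lit 13191086095) (nat_lit 28101838130) (.two (nat_lit 13191086088) (nat_lit 2969568797) (.two (nat_lit 4194308) (nat_lit 150998926) (.two (nat_lit 8388609) (nat_lit 37758252) (.one (nat_lit 4206126) .nil))))),
   .two (nat_lit 50331715) (nat_lit 205522257) (.two (nat_lit 3527409672) (nat_lit 20753418766) (.two (nat_lit 2887778308) (nat_lit 1291852434) (.two (nat_lit 16777216) (nat_lit 2350916754) (.one (nat_lit 4206127) .nil)))),
   .two (nat_lit 12117344323) (nat_lit 37313577566) (.two (nat_lit 184419352591) (nat_lit 158646403939) (.two (nat_lit 19596836872) (nat_lit 19532877702) (.two (nat_lit 605028353) (nat_lit 158146239138) (.two (nat_lit 1048576) (nat_lit 4203864) (.one (nat_lit 28690098773) .nil))))),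
   .two (nat_lit 285212737) (nat_lit 10506732181) (.two (nat_lit 285212687) (nat_lit 37316726232) (.two (nat_lit 4194308) (nat_lit 807408609) (.two (nat_lit 156367847425) (nat_lit 2365596883) (.one (nat_lit 171977415) .nil)))),
   .two (nat_lit 2988441665) (nat_lit 9915335292) (.two (nat_lit 13191086095) (nat_lit 37247518012) (.two (nat_lit 10385096712) (nat_lit 183913941509) (.two (nat_lit 18928893957) (nat_lit 158158819207) (.two (nat_lit 4194305) (nat_lit 2104922) (.two (nat_lit 16777216) (nat_lit 4204614) (.one (nat_lit 4206128) .nil)))))),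
   .two (nat_lit 16777280) (nat_lit 101712230) (.two (nat_lit 16777231) (nat_lit 46473938259) (.two (nat_lit 16777224) (nat_lit 12114202296) (.two (nat_lit 721420292) (nat_lit 18925753463) (.two (nat_lit 50331649) (nat_lit 2349866807) (.two (nat_lit 1048576) (nat_lit 183861519640) (.one (nat_lit 46978313171) .nil)))))),
   .two (nat_lit 10939793524) (nat_lit 37314626241) (.two (nat_lit 3460300815) (nat_lit 28087158852) (.two (nat_lit 13191086088) (nat_lit 185020189197) (.two (nat_lit 4194308) (nat_lit 9866057784) (.two (nat_lit 2097153) (nat_lit 46473943678) (.two (nat_lit 2097152) (nat_lit 12117353542) (.one (nat_lit 1060412) .nil)))))),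
   .two (nat_lit 8388672) (nat_lit 336593254) (.two (nat_lit 4194319) (nat_lit 2887780483) (.two (nat_lit 176160776) (nat_lit 47547683285) (.two (nat_lit 50331653) (nat_lit 37246475120) (.one (nat_lit 1060413) .nil)))),
   .two (nat_lit 46508539969) (nat_lit 19109249652) (.two (nat_lit 276824079) (nat_lit 12163483761) (.two (nat_lit 2961178632) (nat_lit 9766440538) (.two (nat_lit 50331653) (nat_lit 21777878919) (.two (nat_lit 2097153) (nat_lit 183848933960) (.two (nat_lit 1048576) (nat_lit 9800000617) (.one (nat_lit 8400446) .nil)))))),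
   .two (nat_lit 11492393025) (nat_lit 19127075447) (.two (nat_lit 4194319) (nat_lit 2902459686) (.two (nat_lit 4194312) (nat_lit 12633246243) (.two (nat_lit 4194308) (nat_lit 165526115321) (.two (nat_lit 34603009) (nat_lit 46474993418) (.two (nat_lit 1048576) (nat_lit 169878611) (.one (nat_lit 2108991) .nil)))))),
   .two (nat_lit 2961178689) (nat_lit 9799991985) (.two (nat_lit 9940500495) (nat_lit 1779437053) (.two (nat_lit 16777220) (nat_lit 46977258507) (.two (nat_lit 16777217) (nat_lit 135273950) (.two (nat_lit 16777216) (nat_lit 1059189) (.one (nat_lit 8400448) .nil))))),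
   .two (nat_lit 47582281840) (nat_lit 19134415465) (.two (nat_lit 8388623) (nat_lit 236980408) (.two (nat_lit 169869320) (nat_lit 10007610909) (.two (nat_lit 2097157) (nat_lit 11517565669) (.two (nat_lit 1048576) (nat_lit 20638082521) (.one (nat_lit 168831488) .nil))))),
   .two (nat_lit 19532873841) (nat_lit 166229705063) (.two (nat_lit 4613734415) (nat_lit 171967332) (.two (nat_lit 2887778312) (nat_lit 620758557) (.two (nat_lit 171966469) (nat_lit 69211100) (.two (nat_lit 4194305) (nat_lit 269490862) (.two (nat_lit 16777216) (nat_lit 46409983163) (.one (nat_lit 1059553) .nil)))))),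
   .two (nat_lit 156465365057) (nat_lit 158179787404) (.two (nat_lit 10370416655) (nat_lit 9798944863) (.two (nat_lit 742391816) (nat_lit 184416210435) (.two (nat_lit 708837381) (nat_lit 12047096393) (.two (nat_lit 4194304) (nat_lit 1058401) (.one (nat_lit 2108993) .nil))))),
   .two (nat_lit 285212736) (nat_lit 9802089096) (.two (nat_lit 11492392975) (nat_lit 183845783896) (.two (nat_lit 9781116936) (nat_lit 12050239077) (.two (nat_lit 2097157) (nat_lit 1279269460) (.two (nat_lit 2097152) (nat_lit 1279272409) (.one (nat_lit 1059554) .nil))))),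
   .two (nat_lit 16777280) (nat_lit 20637024615) (.two (nat_lit 184549391) (nat_lit 166229706926) (.two (nat_lit 8388616) (nat_lit 20705185684) (.two (nat_lit 8388609) (nat_lit 3458211780) (.two (nat_lit 8388608) (nat_lit 304096714) (.one (nat_lit 4206146) .nil))))),
   .two (nat_lit 16777280) (nat_lit 2886730086) (.two (nat_lit 16777231) (nat_lit 2349862453) (.two (nat_lit 8388612) (nat_lit 638588220) (.two (nat_lit 8388608) (nat_lit 10370426211) (.one (nat_lit 1060419) .nil)))),
   .two (nat_lit 276824129) (nat_lit 12050236053) (.two (nat_lit 8388623) (nat_lit 1343229587) (.two (nat_lit 16777220) (nat_lit 11610888858) (.two (nat_lit 2097152) (nat_lit 13228844522) (.one (nat_lit 1060420) .nil)))),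
   .two (nat_lit 2961178689) (nat_lit 1746928252) (.two (nat_lit 37748751) (nat_lit 4598008842) (.two (nat_lit 272629768) (nat_lit 1309674975) (.two (nat_lit 16777220) (nat_lit 269490875) (.two (nat_lit 4194304) (nat_lit 16787830) (.one (nat_lit 2108997) .nil))))),
   .two (nat_lit 639631427) (nat_lit 10338959717) (.two (nat_lit 41943055) (nat_lit 235933596) (.two (nat_lit 8388609) (nat_lit 304096285) (.one (nat_lit 1060422) .nil))),
   .two (nat_lit 28758245443) (nat_lit 156548203363) (.two (nat_lit 2961178632) (nat_lit 28101841274) (.two (nat_lit 184549381) (nat_lit 21785220172) (.two (nat_lit 16777217) (nat_lit 11611937445) (.two (nat_lit 1048576) (nat_lit 2107767) (.one (nat_lit 1060423) .nil))))),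
   .two (nat_lit 10385096817) (nat_lit 159217877187) (.two (nat_lit 654311439) (nat_lit 1310721566) (.two (nat_lit 2902458372) (nat_lit 12048143408) (.two (nat_lit 2097153) (nat_lit 3003128419) (.two (nat_lit 4194304) (nat_lit 2887787479) (.one (nat_lit 2109000) .nil))))),
   .two (nat_lit 183912890434) (nat_lit 165528207988) (.two (nat_lit 739246095) (nat_lit 352323611) (.two (nat_lit 9881780232) (nat_lit 183912891933) (.two (nat_lit 1291845637) (nat_lit 28757202086) (.two (nat_lit 16777217) (nat_lit 11577335686) (.two (nat_lit 4194304) (nat_lit 19529737142) (.one (nat_lit 28693245232) .nil)))))),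
   .two (nat_lit 3525312622) (nat_lit 1916797123) (.two (nat_lit 3525312536) (nat_lit 1312818480) (.two (nat_lit 2887778312) (nat_lit 4030728714) (.two (nat_lit 2097157) (nat_lit 12050240539) (.two (nat_lit 34603009) (nat_lit 156535628738) (.one (nat_lit 4206153) .nil))))),
   .two (nat_lit 12117344321) (nat_lit 165525062260) (.two (nat_lit 46407876623) (nat_lit 10372515119) (.two (nat_lit 183845781512) (nat_lit 156468514327) (.two (nat_lit 2097157) (nat_lit 742398141) (.two (nat_lit 34603009) (nat_lit 183846838271) (.two (nat_lit 1048576) (nat_lit 2107768) (.one (nat_lit 1060426) .nil)))))),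
   .two (nat_lit 772800629) (nat_lit 4647289461) (.two (nat_lit 117440527) (nat_lit 2316305704) (.two (nat_lit 169869320) (nat_lit 12633247640) (.two (nat_lit 2097153) (nat_lit 158075984539) (.two (nat_lit 1048576) (nat_lit 2106979) (.one (nat_lit 102771961) .nil))))),
   .two (nat_lit 3028287602) (nat_lit 12148802154) (.two (nat_lit 612368399) (nat_lit 35653728) (.two (nat_lit 606076936) (nat_lit 343934493) (.two (nat_lit 176160772) (nat_lit 1277170877) (.two (nat_lit 2097153) (nat_lit 608183430) (.one (nat_lit 2108132) .nil))))),
   .two (nat_lit 3527409730) (nat_lit 1780482409) (.two (nat_lit 3527409679) (nat_lit 4028629858) (.two (nat_lit 46978301960) (nat_lit 3527411229) (.two (nat_lit 3525312517) (nat_lit 11546922888) (.two (nat_lit 2097153) (nat_lit 3527416548) (.two (nat_lit 2097152) (nat_lit 183916045626) (.one (nat_lit 156367858795) .nil)))))),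
   .two (nat_lit 3527409729) (nat_lit 4028629858) (.two (nat_lit 46978301960) (nat_lit 3527411229) (.two (nat_lit 203423749) (nat_lit 11546922888) (.two (nat_lit 2097153) (nat_lit 3527416515) (.two (nat_lit 2097152) (nat_lit 4204921) (.one (nat_lit 37247527416) .nil))))),
   .two (nat_lit 8388672) (nat_lit 3003122751) (.two (nat_lit 218103823) (nat_lit 673189456) (.two (nat_lit 184549381) (nat_lit 1277170816) (.two (nat_lit 50331649) (nat_lit 35660231) (.two (nat_lit 16777216) (nat_lit 2107770) (.one (nat_lit 16789067) .nil))))),
   .two (nat_lit 8388672) (nat_lit 2990539442) (.two (nat_lit 41943055) (nat_lit 4196682) (.two (nat_lit 83886088) (nat_lit 10338963335) (.two (nat_lit 8388609) (nat_lit 1749032527) (.two (nat_lit 16777216) (nat_lit 156367857602) (.one (nat_lit 16789068) .nil))))),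
   .two (nat_lit 1795162179) (nat_lit 37246469443) (.two (nat_lit 11476664328) (nat_lit 9982448811) (.two (nat_lit 2097153) (nat_lit 1426070089) (.two (nat_lit 1048576) (nat_lit 21793614429) .nil))),
   .two (nat_lit 3525312626) (nat_lit 10942939830) (.two (nat_lit 2887778319) (nat_lit 775947614) (.two (nat_lit 2889875464) (nat_lit 9967768621) (.two (nat_lit 2097153) (nat_lit 184986638971) (.two (nat_lit 2097152) (nat_lit 11513375363) .nil)))),
   .two (nat_lit 754974785) (nat_lit 10336862883) (.two (nat_lit 37748751) (nat_lit 83887398) (.two (nat_lit 37748744) (nat_lit 83888689) (.two (nat_lit 4194308) (nat_lit 13203674149) (.two (nat_lit 4194305) (nat_lit 1795171676) (.one (nat_lit 2109005) .nil))))),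
   .two (nat_lit 20753416308) (nat_lit 158144135526) (.two (nat_lit 9948889103) (nat_lit 1746929026) (.two (nat_lit 166130089992) (nat_lit 19142808540) (.two (nat_lit 9766436865) (nat_lit 19545463370) (.two (nat_lit 1048576) (nat_lit 28691147227) .nil)))),
   .two (nat_lit 2969567346) (nat_lit 157036839602) (.two (nat_lit 184549391) (nat_lit 35652957) (.two (nat_lit 166130089992) (nat_lit 13237228723) (.two (nat_lit 9766436865) (nat_lit 19545463370) (.two (nat_lit 16777216) (nat_lit 185021246106) .nil)))),
   .two (nat_lit 8388672) (nat_lit 158075978594) (.two (nat_lit 8388616) (nat_lit 166129045383) (.two (nat_lit 612368385) (nat_lit 19532881719) (.two (nat_lit 8388608) (nat_lit 21814584573) (.one (nat_lit 47581244742) .nil)))),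
   .two (nat_lit 285212737) (nat_lit 1379926647) (.two (nat_lit 272629775) (nat_lit 4647290172) (.two (nat_lit 272629768) (nat_lit 185035918938) (.two (nat_lit 4194308) (nat_lit 158158820393) (.two (nat_lit 37748737) (nat_lit 788535974) (.two (nat_lit 4194304) (nat_lit 855647516) (.one (nat_lit 21781031631) .nil)))))),
   .two (nat_lit 47555018818) (nat_lit 203424998) (.two (nat_lit 47555018767) (nat_lit 46508542182) (.two (nat_lit 9867100168) (nat_lit 28798095239) (.two (nat_lit 2097153) (nat_lit 310385371) (.two (nat_lit 4194304) (nat_lit 21812487321) (.one (nat_lit 2109006) .nil))))),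
   .two (nat_lit 10015998062) (nat_lit 12155093620) (.two (nat_lit 16777231) (nat_lit 12148803980) (.two (nat_lit 203423752) (nat_lit 166245437136) (.two (nat_lit 184549380) (nat_lit 1210062005) (.two (nat_lit 2097153) (nat_lit 813702932) (.two (nat_lit 4194304) (nat_lit 612379160) .nil))))),
   .two (nat_lit 9934209133) (nat_lit 117441378) (.two (nat_lit 606076936) (nat_lit 83891391) (.two (nat_lit 2097153) (nat_lit 1392515736) (.two (nat_lit 4194304) (nat_lit 158091717148) .nil))),
   .two (nat_lit 721420355) (nat_lit 21777875702) (.two (nat_lit 754974735) (nat_lit 12047091004) (.two (nat_lit 739246088) (nat_lit 10921971598) (.two (nat_lit 8388609) (nat_lit 3524270872) (.two (nat_lit 1048576) (nat_lit 1795171597) (.one (nat_lit 739256772) .nil))))),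
   .two (nat_lit 3558867054) (nat_lit 156548202857) (.two (nat_lit 184549391) (nat_lit 28758246690) (.two (nat_lit 16777224) (nat_lit 37314629278) (.two (nat_lit 16777221) (nat_lit 156466418826) (.two (nat_lit 16777217) (nat_lit 46474992320) (.two (nat_lit 2097152) (nat_lit 9781126376) (.one (nat_lit 46489676764) .nil)))))),
   .two (nat_lit 11559501889) (nat_lit 304087713) (.two (nat_lit 16777231) (nat_lit 20705182563) (.two (nat_lit 184549384) (nat_lit 19100862994) (.two (nat_lit 41943045) (nat_lit 10437531539) (.two (nat_lit 16777217) (nat_lit 46481286204) (.one (nat_lit 2109007) .nil))))),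
   .two (nat_lit 2416967796) (nat_lit 35651944) (.two (nat_lit 156968681487) (nat_lit 21208499042) (.two (nat_lit 1846542344) (nat_lit 706744215) (.two (nat_lit 9765388289) (nat_lit 840964689) (.two (nat_lit 1048576) (nat_lit 2107772) (.one (nat_lit 28791811067) .nil))))),
   .two (nat_lit 12047089731) (nat_lit 3565159020) (.two (nat_lit 713031695) (nat_lit 20638075205) (.two (nat_lit 1350565896) (nat_lit 135270067) (.two (nat_lit 47550824453) (nat_lit 3022002521) (.two (nat_lit 156367847425) (nat_lit 1057674) (.two (nat_lit 1048576) (nat_lit 8399229) (.one (nat_lit 8400464) .nil)))))),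
   .two (nat_lit 12117344322) (nat_lit 37247517326) (.two (nat_lit 4194319) (nat_lit 2317356685) (.two (nat_lit 605028357) (nat_lit 47548731285) (.two (nat_lit 34603009) (nat_lit 37316730887) (.two (nat_lit 1048576) (nat_lit 46477092220) (.one (nat_lit 4206162) .nil))))),
   .two (nat_lit 47555018816) (nat_lit 21812479350) (.two (nat_lit 47555018760) (nat_lit 158647455225) (.two (nat_lit 176160772) (nat_lit 9867106981) (.two (nat_lit 2097152) (nat_lit 813704185) (.one (nat_lit 8400467) .nil)))),
   .two (nat_lit 16777280) (nat_lit 20704133158) (.two (nat_lit 285212738) (nat_lit 339738720) (.two (nat_lit 50331663) (nat_lit 28089254111) (.two (nat_lit 705691656) (nat_lit 16779774) (.two (nat_lit 16777220) (nat_lit 272630792) (.two (nat_lit 34603013) (nat_lit 18941479620) (.two (nat_lit 2097153) (nat_lit 159216831276) (.two (nat_lit 2097152) (nat_lit 4201368) (.one (nat_lit 184417261058) .nil)))))))),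
   .two (nat_lit 4601151552) (nat_lit 21207450217) (.two (nat_lit 272629775) (nat_lit 37246469455) (.two (nat_lit 101711880) (nat_lit 2887780870) (.two (nat_lit 2887778308) (nat_lit 3524267919) (.two (nat_lit 37748737) (nat_lit 1310726781) (.two (nat_lit 2097152) (nat_lit 166132194173) (.one (nat_lit 174755686845) .nil)))))),
   .two (nat_lit 276824129) (nat_lit 11614028442) (.two (nat_lit 11551113231) (nat_lit 2353005954) (.two (nat_lit 8388616) (nat_lit 10436480565) (.two (nat_lit 8388612) (nat_lit 185035920469) (.two (nat_lit 16777217) (nat_lit 269490929) (.two (nat_lit 16777216) (nat_lit 8398430) (.one (nat_lit 1060692) .nil)))))),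
   .two (nat_lit 11559501890) (nat_lit 20705181899) (.two (nat_lit 754974785) (nat_lit 11476664785) (.two (nat_lit 117440527) (nat_lit 21777876263) (.two (nat_lit 1745879048) (nat_lit 9766439428) (.two (nat_lit 12047089669) (nat_lit 46508543882) (.two (nat_lit 2097153) (nat_lit 1779440200) (.two (nat_lit 1048576) (nat_lit 11511275844) (.one (nat_lit 16785694) .nil))))))),
   .two (nat_lit 2961178689) (nat_lit 157036839626) (.two (nat_lit 8388623) (nat_lit 166229706066) (.two (nat_lit 8388616) (nat_lit 10335817344) (.two (nat_lit 16777220) (nat_lit 1053712) (.two (nat_lit 16777217) (nat_lit 1410341530) (.two (nat_lit 16777216) (nat_lit 612376731) (.one (nat_lit 1060452) .nil)))))),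
   .two (nat_lit 705691713) (nat_lit 21785215590) (.two (nat_lit 4194319) (nat_lit 21785215843) (.two (nat_lit 4194312) (nat_lit 243272222) (.two (nat_lit 34603013) (nat_lit 4030732542) (.two (nat_lit 4194305) (nat_lit 9967771222) (.two (nat_lit 2097152) (nat_lit 11546929282) (.one (nat_lit 4202785) .nil)))))),
   .two (nat_lit 4194369) (nat_lit 21785215579) (.two (nat_lit 4194319) (nat_lit 21785215843) (.two (nat_lit 4194312) (nat_lit 21785217537) (.two (nat_lit 34603013) (nat_lit 156976026698) (.two (nat_lit 4194305) (nat_lit 2104856) (.two (nat_lit 1048576) (nat_lit 2107757) (.one (nat_lit 8398543) .nil)))))),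
   .two (nat_lit 705691713) (nat_lit 21785215590) (.two (nat_lit 4194319) (nat_lit 21785215843) (.two (nat_lit 4194312) (nat_lit 243272222) (.two (nat_lit 34603013) (nat_lit 4030732542) (.two (nat_lit 4194305) (nat_lit 9967771222) (.two (nat_lit 2097152) (nat_lit 11546929282) (.one (nat_lit 4202786) .nil)))))),
   .two (nat_lit 4194369) (nat_lit 20711473351) (.two (nat_lit 4194369) (nat_lit 343933023) (.two (nat_lit 742391823) (nat_lit 47547680069) (.two (nat_lit 705691656) (nat_lit 10343155347) (.two (nat_lit 4194312) (nat_lit 773849321) (.two (nat_lit 2956984325) (nat_lit 37320920979) (.two (nat_lit 2097153) (nat_lit 3524270994) (.two (nat_lit 2097152) (nat_lit 3524270994) (.one (nat_lit 68165922) .nil)))))))),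
   .two (nat_lit 16777280) (nat_lit 28798091881) (.two (nat_lit 620757007) (nat_lit 713033039) (.two (nat_lit 8388616) (nat_lit 3558868632) (.two (nat_lit 8388616) (nat_lit 12148801769) (.two (nat_lit 176160773) (nat_lit 1948258195) (.two (nat_lit 41943041) (nat_lit 19530784431) (.two (nat_lit 8388608) (nat_lit 9967770601) (.one (nat_lit 16788222) .nil))))))),
   .two (nat_lit 1191182451) (nat_lit 11510218955) (.two (nat_lit 1191182451) (nat_lit 183845781969) (.two (nat_lit 9768534031) (nat_lit 46489668529) (.two (nat_lit 9768534024) (nat_lit 1291850569) (.two (nat_lit 16777221) (nat_lit 46510642304) (.two (nat_lit 4194305) (nat_lit 11022638832) (.two (nat_lit 16777216) (nat_lit 4204910) (.one (nat_lit 1058513) .nil))))))),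
   .two (nat_lit 4601151554) (nat_lit 183920230763) (.two (nat_lit 13191086095) (nat_lit 11551115439) (.two (nat_lit 156367847432) (nat_lit 47548730928) (.two (nat_lit 46409973764) (nat_lit 20644370557) (.two (nat_lit 4194305) (nat_lit 19094576628) (.two (nat_lit 8388608) (nat_lit 20738746618) (.one (nat_lit 2108159) .nil)))))),
   .two (nat_lit 13224640620) (nat_lit 117440712) (.two (nat_lit 11479810164) (nat_lit 11492393055) (.two (nat_lit 754974735) (nat_lit 174752532731) (.two (nat_lit 174752530440) (nat_lit 157038938637) (.two (nat_lit 20637024258) (nat_lit 4030732591) (.two (nat_lit 21777874949) (nat_lit 1379927705) (.two (nat_lit 156364701697) (nat_lit 16786307) (.two (nat_lit 1048576) (nat_lit 16784279) (.one (nat_lit 16787158) .nil)))))))),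
   .two (nat_lit 19530776613) (nat_lit 159224168643) (.two (nat_lit 47555018817) (nat_lit 1377829067) (.two (nat_lit 3525312527) (nat_lit 159224169314) (.two (nat_lit 3525312520) (nat_lit 159224170013) (.two (nat_lit 1277165573) (nat_lit 1283461016) (.two (nat_lit 2097153) (nat_lit 41948472) (.two (nat_lit 2097152) (nat_lit 183920237425) (.one (nat_lit 11511274453) .nil))))))),
   .two (nat_lit 8388627) (nat_lit 46980399790) (.two (nat_lit 8388672) (nat_lit 156968681675) (.two (nat_lit 8388672) (nat_lit 159216828514) (.two (nat_lit 34603019) (nat_lit 742393987) (.two (nat_lit 8388623) (nat_lit 1343226729) (.two (nat_lit 1749024776) (nat_lit 101713437) (.two (nat_lit 83886085) (nat_lit 9866055557) (.two (nat_lit 16777217) (nat_lit 185020192056) (.two (nat_lit 16777216) (nat_lit 183845785723) (.one (nat_lit 1058509) .nil))))))))),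
   .two (nat_lit 270532626) (nat_lit 1312817794) (.two (nat_lit 11477712933) (nat_lit 2319450310) (.two (nat_lit 2954887232) (nat_lit 9966714978) (.two (nat_lit 270532619) (nat_lit 21210596661) (.two (nat_lit 2887778319) (nat_lit 3527410120) (.two (nat_lit 13203669001) (nat_lit 10370418206) (.two (nat_lit 270532615) (nat_lit 4195280) (.two (nat_lit 3472883717) (nat_lit 2418020234) (.two (nat_lit 16777217) (nat_lit 2920289594) (.two (nat_lit 16777216) (nat_lit 166129045627) (.one (nat_lit 4205315) .nil)))))))))),
   .two (nat_lit 4647288898) (nat_lit 166232851060) (.two (nat_lit 4613734415) (nat_lit 10003416389) (.two (nat_lit 1350565896) (nat_lit 285216194) (.two (nat_lit 713031684) (nat_lit 318772261) (.two (nat_lit 34603009) (nat_lit 46409981430) (.two (nat_lit 8388608) (nat_lit 16787823) (.one (nat_lit 16787162) .nil)))))),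
   .two (nat_lit 16777280) (nat_lit 34603675) (.two (nat_lit 16777231) (nat_lit 2886732192) (.two (nat_lit 176160776) (nat_lit 158176643591) (.two (nat_lit 806354949) (nat_lit 16783873) (.two (nat_lit 612368385) (nat_lit 4631568087) (.two (nat_lit 2097152) (nat_lit 16787824) (.one (nat_lit 1060457) .nil)))))),
   .two (nat_lit 10538188867) (nat_lit 158646403698) (.two (nat_lit 16777231) (nat_lit 11543774050) (.two (nat_lit 16777224) (nat_lit 11543774749) (.two (nat_lit 16777220) (nat_lit 166130093976) (.two (nat_lit 50331649) (nat_lit 184417262155) (.two (nat_lit 16777216) (nat_lit 1410341876) (.one (nat_lit 1060458) .nil)))))),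
   .two (nat_lit 184549394) (nat_lit 159224168805) (.two (nat_lit 285212707) (nat_lit 11014242928) (.two (nat_lit 47555018818) (nat_lit 157035790434) (.two (nat_lit 612368399) (nat_lit 19042141519) (.two (nat_lit 4613734408) (nat_lit 159224170013) (.two (nat_lit 16777220) (nat_lit 679480102) (.two (nat_lit 16777220) (nat_lit 679480102) (.two (nat_lit 34603009) (nat_lit 310386726) (.two (nat_lit 1048576) (nat_lit 156372050199) (.one (nat_lit 11551125084) .nil))))))))),
   .two (nat_lit 16777235) (nat_lit 9934209219) (.two (nat_lit 272629824) (nat_lit 3525312721) (.two (nat_lit 272629826) (nat_lit 2969567327) (.two (nat_lit 16777231) (nat_lit 9934209890) (.two (nat_lit 16777224) (nat_lit 9934210589) (.two (nat_lit 16777220) (nat_lit 156969734023) (.two (nat_lit 16777217) (nat_lit 28691140658) (.two (nat_lit 16777216) (nat_lit 4201375) (.one (nat_lit 169880313) .nil)))))))),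
   .two (nat_lit 16777280) (nat_lit 156573368937) (.two (nat_lit 16777231) (nat_lit 10510927193) (.two (nat_lit 1780482056) (nat_lit 13237224992) (.two (nat_lit 16777224) (nat_lit 11544823327) (.two (nat_lit 176160773) (nat_lit 19128127379) (.two (nat_lit 41943041) (nat_lit 2350915247) (.two (nat_lit 16777216) (nat_lit 47582291670) (.one (nat_lit 9967774463) .nil))))))),
   .two (nat_lit 9866051651) (nat_lit 158083318412) (.two (nat_lit 11543773199) (nat_lit 28093449511) (.two (nat_lit 705691656) (nat_lit 880806400) (.two (nat_lit 34603013) (nat_lit 880807814) (.two (nat_lit 2097153) (nat_lit 156539819324) (.two (nat_lit 1048576) (nat_lit 1277174873) (.one (nat_lit 8399623) .nil)))))),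
   .two (nat_lit 11618222145) (nat_lit 11022631614) (.two (nat_lit 83886095) (nat_lit 11578377555) (.two (nat_lit 1291845640) (nat_lit 158143090360) (.two (nat_lit 620756997) (nat_lit 10907289229) (.two (nat_lit 620756995) (nat_lit 739252550) (.two (nat_lit 605028353) (nat_lit 8396876) (.two (nat_lit 1048576) (nat_lit 2107814) (.one (nat_lit 2108169) .nil))))))),
   .two (nat_lit 679477315) (nat_lit 174686470756) (.two (nat_lit 13203669007) (nat_lit 165532402530) (.two (nat_lit 47548727304) (nat_lit 109054473) (.two (nat_lit 169869316) (nat_lit 1786777479) (.two (nat_lit 2097153) (nat_lit 21818776206) (.two (nat_lit 16777216) (nat_lit 47548735687) (.one (nat_lit 16787171) .nil)))))),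
   .two (nat_lit 318767169) (nat_lit 10540286678) (.two (nat_lit 9768534031) (nat_lit 156532475261) (.two (nat_lit 9768534024) (nat_lit 740299598) (.two (nat_lit 2887778308) (nat_lit 1209010887) (.two (nat_lit 9766436867) (nat_lit 4027586952) (.two (nat_lit 50331649) (nat_lit 2105421) (.two (nat_lit 1048576) (nat_lit 16787879) (.one (nat_lit 19529739017) .nil))))))),
   .two (nat_lit 4601151552) (nat_lit 4605345987) (.two (nat_lit 183848927247) (nat_lit 11610884179) (.two (nat_lit 183848927240) (nat_lit 4598009315) (.two (nat_lit 13191086085) (nat_lit 166237051182) (.two (nat_lit 37748737) (nat_lit 183912898362) (.two (nat_lit 1048576) (nat_lit 4204174) (.one (nat_lit 4206188) .nil)))))),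
   .two (nat_lit 12617515073) (nat_lit 20705182054) (.two (nat_lit 3460300815) (nat_lit 11611931958) (.two (nat_lit 713031688) (nat_lit 9900658101) (.two (nat_lit 41943045) (nat_lit 165525064394) (.two (nat_lit 1178599429) (nat_lit 11510220431) (.two (nat_lit 612368385) (nat_lit 2106246) (.two (nat_lit 8388608) (nat_lit 2105565) (.one (nat_lit 2108173) .nil))))))),
   .two (nat_lit 117440707) (nat_lit 165532402294) (.two (nat_lit 4605345856) (nat_lit 47550825772) (.two (nat_lit 1350565903) (nat_lit 16779798) (.two (nat_lit 8388616) (nat_lit 10003419016) (.two (nat_lit 28089253893) (nat_lit 1317018280) (.two (nat_lit 8388609) (nat_lit 9768543170) (.two (nat_lit 16777216) (nat_lit 9969870510) (.one (nat_lit 41954968) .nil))))))),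
   .two (nat_lit 13237223619) (nat_lit 158083318396) (.two (nat_lit 318767170) (nat_lit 9906947392) (.two (nat_lit 10385096719) (nat_lit 46977255980) (.two (nat_lit 8388616) (nat_lit 1343229831) (.two (nat_lit 16777221) (nat_lit 21778930250) (.two (nat_lit 2097153) (nat_lit 20652762051) (.two (nat_lit 1048576) (nat_lit 4028639674) (.one (nat_lit 13187952271) .nil))))))),
   .two (nat_lit 285212867) (nat_lit 159253528935) (.two (nat_lit 2969567298) (nat_lit 37247518024) (.two (nat_lit 2902458383) (nat_lit 19029559825) (.two (nat_lit 654311432) (nat_lit 2956988307) (.two (nat_lit 1344274437) (nat_lit 185002367596) (.two (nat_lit 37748737) (nat_lit 13222553264) (.one (nat_lit 1344286394) .nil)))))),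
   .two (nat_lit 10015998147) (nat_lit 10343154021) (.two (nat_lit 2994733123) (nat_lit 9948890442) (.two (nat_lit 50331663) (nat_lit 243273128) (.two (nat_lit 1753219084) (nat_lit 28793900947) (.two (nat_lit 165532401669) (nat_lit 11479816815) (.two (nat_lit 4194305) (nat_lit 19134424752) (.one (nat_lit 11479821970) .nil)))))),
   .two (nat_lit 21777875139) (nat_lit 19134415208) (.two (nat_lit 3464495171) (nat_lit 2920285527) (.two (nat_lit 159224168463) (nat_lit 2886732293) (.two (nat_lit 8388616) (nat_lit 1782583187) (.two (nat_lit 9873391621) (nat_lit 28690094760) (.two (nat_lit 41943041) (nat_lit 11543782340) (.two (nat_lit 4194304) (nat_lit 37253818928) (.one (nat_lit 19033763536) .nil))))))),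
   .two (nat_lit 8388803) (nat_lit 117440869) (.two (nat_lit 754974785) (nat_lit 1753220469) (.two (nat_lit 754974735) (nat_lit 713034269) (.two (nat_lit 28690087944) (nat_lit 1325405175) (.two (nat_lit 11559501829) (nat_lit 847256218) (.two (nat_lit 156364701697) (nat_lit 9814681264) (.one (nat_lit 1410346657) .nil)))))),
   .two (nat_lit 847249603) (nat_lit 9902752103) (.two (nat_lit 2889875522) (nat_lit 3458205036) (.two (nat_lit 2889875471) (nat_lit 156969732626) (.two (nat_lit 1384120333) (nat_lit 1746931603) (.two (nat_lit 272629765) (nat_lit 2987399797) (.two (nat_lit 2097153) (nat_lit 9768543230) (.two (nat_lit 2097152) (nat_lit 4205112) (.one (nat_lit 4206333) .nil))))))),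
   .two (nat_lit 9781117123) (nat_lit 13191086275) (.two (nat_lit 2902458435) (nat_lit 9969861975) (.two (nat_lit 37748751) (nat_lit 16779774) (.two (nat_lit 9781116936) (nat_lit 11477716872) (.two (nat_lit 708837381) (nat_lit 159266118312) (.two (nat_lit 2097153) (nat_lit 28806489028) (.two (nat_lit 2097152) (nat_lit 20740843182) (.one (nat_lit 2109187) .nil))))))),
   .two (nat_lit 272629955) (nat_lit 156372041923) (.two (nat_lit 1343225923) (nat_lit 10510927148) (.two (nat_lit 9866051599) (nat_lit 9772730885) (.two (nat_lit 18933088264) (nat_lit 183845785489) (.two (nat_lit 47550824453) (nat_lit 310385320) (.two (nat_lit 37748737) (nat_lit 20644373570) (.two (nat_lit 4194304) (nat_lit 1059403) (.one (nat_lit 1309683426) .nil))))))),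
   .two (nat_lit 1343226051) (nat_lit 158662132072) (.two (nat_lit 285212739) (nat_lit 1779434782) (.two (nat_lit 2889875471) (nat_lit 20719865751) (.two (nat_lit 272629765) (nat_lit 18933095039) (.two (nat_lit 605028353) (nat_lit 159232566274) (.two (nat_lit 4194304) (nat_lit 16788051) (.one (nat_lit 4206363) .nil)))))),
   .two (nat_lit 8388803) (nat_lit 13191086275) (.two (nat_lit 8388672) (nat_lit 1410335586) (.two (nat_lit 8388623) (nat_lit 28087159314) (.two (nat_lit 9940500488) (nat_lit 157035794323) (.two (nat_lit 270532613) (nat_lit 4034927267) (.two (nat_lit 2097153) (nat_lit 46977262698) (.two (nat_lit 8388608) (nat_lit 156532484541) (.one (nat_lit 46474997486) .nil))))))),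
   .two (nat_lit 13191086275) (nat_lit 19537068392) (.two (nat_lit 8388675) (nat_lit 4601152875) (.two (nat_lit 176160783) (nat_lit 28087159314) (.two (nat_lit 176160776) (nat_lit 156466417549) (.two (nat_lit 13187940357) (nat_lit 4034927267) (.two (nat_lit 2097153) (nat_lit 8397969) (.two (nat_lit 2097152) (nat_lit 21785225811) (.one (nat_lit 8400675) .nil))))))),
   .two (nat_lit 1753219267) (nat_lit 235929959) (.two (nat_lit 12147753026) (nat_lit 37320918346) (.two (nat_lit 101711887) (nat_lit 159217879566) (.two (nat_lit 20644364296) (nat_lit 10335817619) (.two (nat_lit 4599054341) (nat_lit 310385320) (.two (nat_lit 34603009) (nat_lit 4599063536) (.two (nat_lit 1048576) (nat_lit 156372052407) (.one (nat_lit 159216840444) .nil))))))),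
   .two (nat_lit 183946444897) (nat_lit 1786774125) (.two (nat_lit 166130090051) (nat_lit 1283458383) (.two (nat_lit 2887778319) (nat_lit 3464498671) (.two (nat_lit 11551113224) (nat_lit 12147756963) (.two (nat_lit 806354949) (nat_lit 612375222) (.two (nat_lit 2097153) (nat_lit 156364711611) (.two (nat_lit 1048576) (nat_lit 37314635441) (.one (nat_lit 156364713687) .nil))))))),
   .two (nat_lit 9967763651) (nat_lit 37749367) (.two (nat_lit 3021996097) (nat_lit 620757858) (.two (nat_lit 4194319) (nat_lit 620758557) (.two (nat_lit 705691656) (nat_lit 809505764) (.two (nat_lit 4194308) (nat_lit 1054131) (.two (nat_lit 4194308) (nat_lit 34608562) (.two (nat_lit 4194305) (nat_lit 10921976767) (.two (nat_lit 4194304) (nat_lit 174752541202) (.one (nat_lit 1343235824) .nil)))))))),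
   .two (nat_lit 184989778119) (nat_lit 166237045095) (.two (nat_lit 847249475) (nat_lit 306185553) (.two (nat_lit 37748751) (nat_lit 156372044288) (.two (nat_lit 37748744) (nat_lit 156372045702) (.two (nat_lit 4194308) (nat_lit 9772733756) (.two (nat_lit 2097153) (nat_lit 239084522) (.two (nat_lit 8388608) (nat_lit 2107073) (.one (nat_lit 2109088) .nil))))))),
   .two (nat_lit 16777313) (nat_lit 4601151683) (.two (nat_lit 285212736) (nat_lit 1849689392) (.two (nat_lit 4194319) (nat_lit 16778781) (.two (nat_lit 4194312) (nat_lit 16781187) (.two (nat_lit 4194308) (nat_lit 3036681536) (.two (nat_lit 4194305) (nat_lit 10452213900) (.two (nat_lit 4194304) (nat_lit 1059549) (.one (nat_lit 9869209216) .nil))))))),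
   .two (nat_lit 21811429571) (nat_lit 183920230605) (.two (nat_lit 20704133185) (nat_lit 184993973090) (.two (nat_lit 184993972239) (nat_lit 1947207197) (.two (nat_lit 11543773192) (nat_lit 20644368262) (.two (nat_lit 705691652) (nat_lit 343938359) (.two (nat_lit 34603009) (nat_lit 156976028527) (.two (nat_lit 1048576) (nat_lit 183853131450) (.one (nat_lit 176172869) .nil))))))),
   .two (nat_lit 8388803) (nat_lit 184989778517) (.two (nat_lit 12050235457) (nat_lit 101712738) (.two (nat_lit 185002360847) (nat_lit 101713437) (.two (nat_lit 83886088) (nat_lit 11543777157) (.two (nat_lit 620756997) (nat_lit 11543778615) (.two (nat_lit 50331649) (nat_lit 839917703) (.two (nat_lit 16777216) (nat_lit 46507501239) (.one (nat_lit 10000276478) .nil))))))),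
   .two (nat_lit 285212867) (nat_lit 10909385336) (.two (nat_lit 754974834) (nat_lit 3524264804) (.two (nat_lit 285212687) (nat_lit 156367851236) (.two (nat_lit 4194312) (nat_lit 50335619) (.two (nat_lit 4194308) (nat_lit 50337078) (.two (nat_lit 4194305) (nat_lit 165540798612) (.two (nat_lit 1048576) (nat_lit 158179796653) (.one (nat_lit 166229715728) .nil))))))),
   .two (nat_lit 21811429571) (nat_lit 3560964841) (.two (nat_lit 8388672) (nat_lit 12617515231) (.two (nat_lit 159217877007) (nat_lit 20637026830) (.two (nat_lit 3527409672) (nat_lit 1175459028) (.two (nat_lit 605028357) (nat_lit 1853885221) (.two (nat_lit 156372041729) (nat_lit 157035798667) (.two (nat_lit 4194304) (nat_lit 47547689617) (.one (nat_lit 10000276478) .nil))))))),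
   .two (nat_lit 276824129) (nat_lit 165528207585) (.two (nat_lit 16777231) (nat_lit 21777878675) (.two (nat_lit 8388612) (nat_lit 705698458) (.two (nat_lit 8388609) (nat_lit 1962943479) (.one (nat_lit 1059612) .nil)))),
   .two (nat_lit 1410334818) (nat_lit 156573368359) (.two (nat_lit 10015998566) (nat_lit 174692761797) (.two (nat_lit 1376780355) (nat_lit 47555020099) (.two (nat_lit 28086108175) (nat_lit 156372044301) (.two (nat_lit 28086108168) (nat_lit 310383585) (.two (nat_lit 159224168453) (nat_lit 46489672589) (.two (nat_lit 159224168453) (nat_lit 46489672589) (.two (nat_lit 612368385) (nat_lit 174685428621) (.two (nat_lit 8388608) (nat_lit 11510229597) (.one (nat_lit 16788253) .nil))))))))),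
   .two (nat_lit 2954887363) (nat_lit 171966666) (.two (nat_lit 169869377) (nat_lit 10007610210) (.two (nat_lit 4194319) (nat_lit 10007610909) (.two (nat_lit 169869320) (nat_lit 10947137417) (.two (nat_lit 171966469) (nat_lit 184417262162) (.two (nat_lit 2097153) (nat_lit 19529737166) (.two (nat_lit 1048576) (nat_lit 4205278) (.one (nat_lit 10909396613) .nil))))))),
   .two (nat_lit 4194661) (nat_lit 158662131911) (.two (nat_lit 34603026) (nat_lit 687867280) (.two (nat_lit 705691713) (nat_lit 3573547472) (.two (nat_lit 705691713) (nat_lit 2902458593) (.two (nat_lit 37748751) (nat_lit 156566030861) (.two (nat_lit 1276117000) (nat_lit 166211882899) (.two (nat_lit 9933160453) (nat_lit 1325405509) (.two (nat_lit 708837381) (nat_lit 2416970531) (.two (nat_lit 2097153) (nat_lit 9902761540) (.two (nat_lit 2097152) (nat_lit 37316731138) (.one (nat_lit 11614039821) .nil)))))))))),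
   .two (nat_lit 721420386) (nat_lit 1410335345) (.two (nat_lit 3036676163) (nat_lit 11484005220) (.two (nat_lit 16777231) (nat_lit 12054432279) (.two (nat_lit 46984593416) (nat_lit 11022634902) (.two (nat_lit 2894069765) (nat_lit 285218103) (.two (nat_lit 8388609) (nat_lit 20652759919) (.two (nat_lit 1048576) (nat_lit 47596971701) (.one (nat_lit 156566040300) .nil))))))),
   .two (nat_lit 1753219267) (nat_lit 12129927534) (.two (nat_lit 16777236) (nat_lit 28093449506) (.two (nat_lit 184993972289) (nat_lit 11559502278) (.two (nat_lit 285212738) (nat_lit 18933088478) (.two (nat_lit 16777231) (nat_lit 1753220637) (.two (nat_lit 4613734408) (nat_lit 46514835336) (.two (nat_lit 713031685) (nat_lit 2332038459) (.two (nat_lit 9765388289) (nat_lit 185002369159) (.two (nat_lit 1048576) (nat_lit 50338783) (.one (nat_lit 1060666) .nil))))))))),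
   .two (nat_lit 2969567330) (nat_lit 4030726804) (.two (nat_lit 46510637153) (nat_lit 184431936116) (.two (nat_lit 3527409728) (nat_lit 1862272345) (.two (nat_lit 285212687) (nat_lit 157038937629) (.two (nat_lit 13203669000) (nat_lit 2923433891) (.two (nat_lit 2889875461) (nat_lit 156984415545) (.two (nat_lit 4194305) (nat_lit 16785578) (.two (nat_lit 2097152) (nat_lit 11614037677) (.one (nat_lit 16789307) .nil)))))))),
   .two (nat_lit 46510637153) (nat_lit 184431936116) (.two (nat_lit 3527409728) (nat_lit 1862272345) (.two (nat_lit 285212687) (nat_lit 157038937629) (.two (nat_lit 13203669000) (nat_lit 2923433891) (.two (nat_lit 2889875461) (nat_lit 156984415545) (.two (nat_lit 4194305) (nat_lit 16785578) (.two (nat_lit 2097152) (nat_lit 11614037677) (.one (nat_lit 16789307) .nil))))))),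
   .two (nat_lit 184549473) (nat_lit 47548727491) (.two (nat_lit 2969567296) (nat_lit 10336863612) (.two (nat_lit 169869327) (nat_lit 620758557) (.two (nat_lit 169869320) (nat_lit 620760963) (.two (nat_lit 2097157) (nat_lit 1929385277) (.two (nat_lit 2097153) (nat_lit 12114208433) (.two (nat_lit 2097152) (nat_lit 3557828269) (.one (nat_lit 168832793) .nil))))))),
   .two (nat_lit 272629827) (nat_lit 136315105) (.two (nat_lit 169869327) (nat_lit 12050237969) (.two (nat_lit 34603013) (nat_lit 46409980521) (.two (nat_lit 34603009) (nat_lit 1191191574) (.one (nat_lit 16789308) .nil)))),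
   .two (nat_lit 20705181891) (nat_lit 788529350) (.two (nat_lit 1291845697) (nat_lit 10370417996) (.two (nat_lit 1191182351) (nat_lit 19599984157) (.two (nat_lit 742391816) (nat_lit 9881784197) (.two (nat_lit 9948889093) (nat_lit 1379932842) (.two (nat_lit 37748737) (nat_lit 337650618) (.two (nat_lit 2097152) (nat_lit 37758648) (.one (nat_lit 166232862463) .nil))))))),
   .two (nat_lit 21785215171) (nat_lit 185021235396) (.two (nat_lit 10007609411) (nat_lit 1325401433) (.two (nat_lit 75497487) (nat_lit 807407021) (.two (nat_lit 156365750280) (nat_lit 184993976197) (.two (nat_lit 822083589) (nat_lit 37320923779) (.two (nat_lit 2097153) (nat_lit 41951400) (.two (nat_lit 16777216) (nat_lit 1377838766) (.one (nat_lit 83898154) .nil))))))),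
   .two (nat_lit 2990538848) (nat_lit 158091706728) (.two (nat_lit 272629827) (nat_lit 11593056479) (.two (nat_lit 2889875471) (nat_lit 9781117432) (.two (nat_lit 705691656) (nat_lit 20652753932) (.two (nat_lit 46407876616) (nat_lit 19096670264) (.two (nat_lit 2956984325) (nat_lit 4599059885) (.two (nat_lit 4194305) (nat_lit 4599059885) (.two (nat_lit 16777216) (nat_lit 19093531419) (.one (nat_lit 19093531419) .nil)))))))),
   .two (nat_lit 9934209219) (nat_lit 28806480503) (.two (nat_lit 203423810) (nat_lit 20637025123) (.two (nat_lit 184549391) (nat_lit 11543774749) (.two (nat_lit 184549384) (nat_lit 28690091928) (.two (nat_lit 16777221) (nat_lit 2920287013) (.two (nat_lit 620756993) (nat_lit 2316313632) (.two (nat_lit 16777216) (nat_lit 2108127) (.one (nat_lit 2104318) .nil))))))),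
   .two (nat_lit 13224640707) (nat_lit 165532402276) (.two (nat_lit 343933036) (nat_lit 641728735) (.two (nat_lit 880803948) (nat_lit 4195176) (.two (nat_lit 272629794) (nat_lit 165532402980) (.two (nat_lit 272629775) (nat_lit 28093450751) (.two (nat_lit 272629768) (nat_lit 21785218948) (.two (nat_lit 4194308) (nat_lit 10007614774) (.two (nat_lit 4194305) (nat_lit 3464503457) (.two (nat_lit 4194304) (nat_lit 8399584) (.one (nat_lit 608185103) .nil))))))))),
   .two (nat_lit 41943398) (nat_lit 11525947430) (.two (nat_lit 8388675) (nat_lit 183913939415) (.two (nat_lit 176160783) (nat_lit 2350907896) (.two (nat_lit 169869320) (nat_lit 3531604480) (.two (nat_lit 11476664328) (nat_lit 612371143) (.two (nat_lit 612368387) (nat_lit 352328673) (.two (nat_lit 8388609) (nat_lit 3573555460) (.two (nat_lit 8388608) (nat_lit 269495098) (.one (nat_lit 269495098) .nil)))))))),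
   .two (nat_lit 9802088643) (nat_lit 47596962480) (.two (nat_lit 4601151552) (nat_lit 183861511012) (.two (nat_lit 9781116943) (nat_lit 9802090013) (.two (nat_lit 4194312) (nat_lit 1291849605) (.two (nat_lit 4194308) (nat_lit 18941482297) (.two (nat_lit 4194305) (nat_lit 46523228319) (.two (nat_lit 4194304) (nat_lit 158158825950) (.one (nat_lit 184561532) .nil))))))),
   .two (nat_lit 1916797123) (nat_lit 3036676770) (.two (nat_lit 1384120387) (nat_lit 11525948742) (.two (nat_lit 9781116943) (nat_lit 19599984157) (.two (nat_lit 9781116936) (nat_lit 46409977761) (.two (nat_lit 9768534021) (nat_lit 18941482299) (.two (nat_lit 37748737) (nat_lit 13203677334) (.two (nat_lit 8388608) (nat_lit 47584388781) (.one (nat_lit 16788257) .nil))))))),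
   .two (nat_lit 46481277024) (nat_lit 156481093991) (.two (nat_lit 16777283) (nat_lit 1376780511) (.two (nat_lit 176160783) (nat_lit 1913651712) (.two (nat_lit 176160776) (nat_lit 1913651712) (.two (nat_lit 612368392) (nat_lit 101716099) (.two (nat_lit 176160772) (nat_lit 101716099) (.two (nat_lit 8388609) (nat_lit 101716099) (.two (nat_lit 8388608) (nat_lit 1058500) (.one (nat_lit 1059618) .nil)))))))),
   .two (nat_lit 184986632256) (nat_lit 679478607) (.two (nat_lit 184986632207) (nat_lit 184993975745) (.two (nat_lit 2902458370) (nat_lit 1056809) (.two (nat_lit 156372041729) (nat_lit 21811438518) (.one (nat_lit 183946454782) .nil)))),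
   .two (nat_lit 47548727360) (nat_lit 1350567286) (.two (nat_lit 3464495119) (nat_lit 28757199369) (.two (nat_lit 20638072836) (nat_lit 158183987877) (.two (nat_lit 156372041729) (nat_lit 12618572793) (.one (nat_lit 16785727) .nil)))),
   .two (nat_lit 47548727362) (nat_lit 11006902497) (.two (nat_lit 654311439) (nat_lit 10537142796) (.two (nat_lit 4194308) (nat_lit 46474992246) (.two (nat_lit 9765388289) (nat_lit 1310729462) (.one (nat_lit 16788260) .nil)))),
   .two (nat_lit 47548727491) (nat_lit 1795162207) (.two (nat_lit 3021996097) (nat_lit 9948890407) (.two (nat_lit 169869327) (nat_lit 50334227) (.two (nat_lit 10385096712) (nat_lit 28693237644) (.two (nat_lit 4194308) (nat_lit 269490761) (.two (nat_lit 4194305) (nat_lit 11543782371) (.two (nat_lit 4194304) (nat_lit 16785681) (.one (nat_lit 1060669) .nil))))))),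
   .two (nat_lit 3021996389) (nat_lit 156548202696) (.two (nat_lit 339738689) (nat_lit 184550696) (.two (nat_lit 37748751) (nat_lit 721422867) (.two (nat_lit 654311432) (nat_lit 156465368972) (.two (nat_lit 4194308) (nat_lit 165526117000) (.two (nat_lit 4194305) (nat_lit 2920293421) (.two (nat_lit 1048576) (nat_lit 16788211) (.one (nat_lit 71315261) .nil))))))),
   .two (nat_lit 21223178439) (nat_lit 1417675109) (.two (nat_lit 10007609411) (nat_lit 721421608) (.two (nat_lit 16777231) (nat_lit 184993973789) (.two (nat_lit 16777224) (nat_lit 184993976197) (.two (nat_lit 16777220) (nat_lit 2323649848) (.two (nat_lit 16777217) (nat_lit 10007617700) (.two (nat_lit 8388608) (nat_lit 16788212) (.one (nat_lit 1350577782) .nil))))))),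
   .two (nat_lit 8388803) (nat_lit 285212767) (.two (nat_lit 16777235) (nat_lit 174759871792) (.two (nat_lit 8388672) (nat_lit 2316304609) (.two (nat_lit 75497487) (nat_lit 1947207315) (.two (nat_lit 8388623) (nat_lit 3557818601) (.two (nat_lit 75497480) (nat_lit 1947207315) (.two (nat_lit 713031684) (nat_lit 183912893219) (.two (nat_lit 50331653) (nat_lit 166129045632) (.two (nat_lit 620756993) (nat_lit 8395670) (.two (nat_lit 8388608) (nat_lit 1055715) (.one (nat_lit 1060701) .nil)))))))))),
   .two (nat_lit 306184387) (nat_lit 3558867039) (.two (nat_lit 50331715) (nat_lit 21812478416) (.two (nat_lit 50331715) (nat_lit 69206241) (.two (nat_lit 83886095) (nat_lit 156533526093) (.two (nat_lit 10338959368) (nat_lit 174686474144) (.two (nat_lit 2887778308) (nat_lit 4043315814) (.two (nat_lit 9766436865) (nat_lit 28705825944) (.two (nat_lit 16777216) (nat_lit 2420120537) (.one (nat_lit 16789311) .nil)))))))),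
   .two (nat_lit 285212767) (nat_lit 46508540578) (.two (nat_lit 16777235) (nat_lit 11511268678) (.two (nat_lit 16777280) (nat_lit 46508540368) (.two (nat_lit 16777280) (nat_lit 203423969) (.two (nat_lit 16777231) (nat_lit 11611934145) (.two (nat_lit 159232557064) (nat_lit 12618567559) (.two (nat_lit 183848927236) (nat_lit 10437532283) (.two (nat_lit 2097153) (nat_lit 28793906272) (.two (nat_lit 2097152) (nat_lit 4202771) (.one (nat_lit 1344286478) .nil))))))))),
   .two (nat_lit 165532401762) (nat_lit 10436477606) (.two (nat_lit 183912890563) (nat_lit 46514831558) (.two (nat_lit 12054429761) (nat_lit 1276118355) (.two (nat_lit 739246095) (nat_lit 9772730889) (.two (nat_lit 739246088) (nat_lit 10510929804) (.two (nat_lit 184986632197) (nat_lit 9873397050) (.two (nat_lit 34603009) (nat_lit 1753227427) (.two (nat_lit 8388608) (nat_lit 1058501) (.one (nat_lit 1745891076) .nil)))))))),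
   .two (nat_lit 339738718) (nat_lit 47596962504) (.two (nat_lit 9881780290) (nat_lit 165528207818) (.two (nat_lit 754974785) (nat_lit 19599982814) (.two (nat_lit 159232557071) (nat_lit 166197200415) (.two (nat_lit 754974735) (nat_lit 2889875961) (.two (nat_lit 37748744) (nat_lit 83890051) (.two (nat_lit 4194308) (nat_lit 46992987454) (.two (nat_lit 37748737) (nat_lit 20753424558) (.two (nat_lit 4194304) (nat_lit 3525322417) (.one (nat_lit 35663532) .nil))))))))),
   .two (nat_lit 13191086275) (nat_lit 3472883911) (.two (nat_lit 285212691) (nat_lit 1212155170) (.two (nat_lit 117440579) (nat_lit 165528207818) (.two (nat_lit 306184257) (nat_lit 721420510) (.two (nat_lit 4601151503) (nat_lit 1392511516) (.two (nat_lit 37748744) (nat_lit 721424259) (.two (nat_lit 4194308) (nat_lit 889197888) (.two (nat_lit 4194305) (nat_lit 1291853995) (.two (nat_lit 2097152) (nat_lit 158179796653) (.one (nat_lit 2109248) .nil))))))))),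
   .two (nat_lit 1191182431) (nat_lit 13188989632) (.two (nat_lit 13191086275) (nat_lit 3472883911) (.two (nat_lit 4601151552) (nat_lit 156481094991) (.two (nat_lit 37748751) (nat_lit 11559503389) (.two (nat_lit 37748744) (nat_lit 11559505797) (.two (nat_lit 4194308) (nat_lit 11022636347) (.two (nat_lit 2097153) (nat_lit 28793906861) (.two (nat_lit 2097152) (nat_lit 28793906861) (.one (nat_lit 2109249) .nil)))))))),
   .two (nat_lit 3021996129) (nat_lit 11626611380) (.two (nat_lit 183848927266) (nat_lit 16778091) (.two (nat_lit 47548727311) (nat_lit 11626614454) (.two (nat_lit 606076936) (nat_lit 721424259) (.two (nat_lit 169869316) (nat_lit 4043314494) (.two (nat_lit 2097153) (nat_lit 12150908217) (.two (nat_lit 2097152) (nat_lit 46477092529) (.one (nat_lit 10372525831) .nil))))))),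
   .two (nat_lit 19096666179) (nat_lit 9881780685) (.two (nat_lit 4194319) (nat_lit 41943275) (.two (nat_lit 4194308) (nat_lit 739250234) (.two (nat_lit 4194305) (nat_lit 21785217870) (.one (nat_lit 4205349) .nil)))),
   .two (nat_lit 9940500575) (nat_lit 9881780986) (.two (nat_lit 713031699) (nat_lit 873465980) (.two (nat_lit 176160878) (nat_lit 159232557280) (.two (nat_lit 184431935499) (nat_lit 156465367565) (.two (nat_lit 612368399) (nat_lit 739246315) (.two (nat_lit 75497480) (nat_lit 3020951686) (.two (nat_lit 176160770) (nat_lit 1054026) (.two (nat_lit 612368389) (nat_lit 3020951686) (.two (nat_lit 612368385) (nat_lit 16785614) (.two (nat_lit 1048576) (nat_lit 8398534) (.one (nat_lit 8400735) .nil)))))))))),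
   .two (nat_lit 47582281923) (nat_lit 11584668265) (.two (nat_lit 2954887234) (nat_lit 11610883417) (.two (nat_lit 169869327) (nat_lit 37320919567) (.two (nat_lit 612368392) (nat_lit 19597890762) (.two (nat_lit 46414168068) (nat_lit 184986639048) (.two (nat_lit 2097153) (nat_lit 1954555133) (.two (nat_lit 2097152) (nat_lit 1057044) (.one (nat_lit 1947217523) .nil))))))),
   .two (nat_lit 156372042085) (nat_lit 9933160546) (.two (nat_lit 310378563) (nat_lit 843056465) (.two (nat_lit 4194319) (nat_lit 18933090816) (.two (nat_lit 4194312) (nat_lit 18933092230) (.two (nat_lit 4194308) (nat_lit 1182799164) (.two (nat_lit 4194305) (nat_lit 10376717667) (.two (nat_lit 8388608) (nat_lit 1057045) (.one (nat_lit 34614944) .nil))))))),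
   .two (nat_lit 4194399) (nat_lit 18933088613) (.two (nat_lit 847249475) (nat_lit 306185553) (.two (nat_lit 37748751) (nat_lit 156372044288) (.two (nat_lit 37748744) (nat_lit 156372045702) (.two (nat_lit 4194308) (nat_lit 9772733756) (.two (nat_lit 2097153) (nat_lit 239084522) (.two (nat_lit 2097152) (nat_lit 184989786370) (.one (nat_lit 2109088) .nil))))))),
   .two (nat_lit 9781117023) (nat_lit 174755676794) (.two (nat_lit 4601151683) (nat_lit 2936012997) (.two (nat_lit 4601151554) (nat_lit 183861511012) (.two (nat_lit 4194319) (nat_lit 9948890653) (.two (nat_lit 4194312) (nat_lit 1291849605) (.two (nat_lit 4194308) (nat_lit 18941482297) (.two (nat_lit 4194305) (nat_lit 46523228319) (.two (nat_lit 16777216) (nat_lit 1057046) (.one (nat_lit 183946456765) .nil)))))))),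
   .two (nat_lit 339738721) (nat_lit 9982444144) (.two (nat_lit 4601151554) (nat_lit 183861511012) (.two (nat_lit 4194319) (nat_lit 9948890653) (.two (nat_lit 4194312) (nat_lit 1291849605) (.two (nat_lit 4194308) (nat_lit 18941482297) (.two (nat_lit 4194305) (nat_lit 46523228319) (.two (nat_lit 4194304) (nat_lit 336600021) (.one (nat_lit 183946456765) .nil))))))),
   .two (nat_lit 47548727491) (nat_lit 9940500575) (.two (nat_lit 176160787) (nat_lit 183845782370) (.two (nat_lit 4613734466) (nat_lit 9940500704) (.two (nat_lit 612368399) (nat_lit 2416970260) (.two (nat_lit 50331656) (nat_lit 705693331) (.two (nat_lit 16777220) (nat_lit 1343228707) (.two (nat_lit 16777220) (nat_lit 1343227602) (.two (nat_lit 16777217) (nat_lit 612373925) (.two (nat_lit 16777216) (nat_lit 168830736) (.one (nat_lit 2109281) .nil))))))))),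
   .two (nat_lit 12150898786) (nat_lit 19127075463) (.two (nat_lit 13224640620) (nat_lit 13221495242) (.two (nat_lit 1749024876) (nat_lit 165525062094) (.two (nat_lit 28690087951) (nat_lit 1761609247) (.two (nat_lit 28690087951) (nat_lit 775946743) (.two (nat_lit 4194312) (nat_lit 9982447674) (.two (nat_lit 1276116994) (nat_lit 4199755) (.two (nat_lit 4194308) (nat_lit 9982447674) (.two (nat_lit 156364701697) (nat_lit 16784279) (.two (nat_lit 1048576) (nat_lit 16787144) (.one (nat_lit 1060706) .nil)))))))))),
   .two (nat_lit 28087156834) (nat_lit 19033752215) (.two (nat_lit 13188988949) (nat_lit 8390785) (.two (nat_lit 10343153772) (nat_lit 10906239440) (.two (nat_lit 10343153772) (nat_lit 28086108385) (.two (nat_lit 47548727307) (nat_lit 343935501) (.two (nat_lit 10336862223) (nat_lit 46977254943) (.two (nat_lit 156372041736) (nat_lit 19026416971) (.two (nat_lit 156372041736) (nat_lit 19026416971) (.two (nat_lit 46407876610) (nat_lit 806362621) (.two (nat_lit 46407876612) (nat_lit 183845786955) (.two (nat_lit 2097153) (nat_lit 1057026) (.two (nat_lit 1048576) (nat_lit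 35660034) (.one (nat_lit 1059623) .nil)))))))))))),
   .two (nat_lit 169869409) (nat_lit 10376708735) (.two (nat_lit 11551113282) (nat_lit 158646404492) (.two (nat_lit 11551113231) (nat_lit 9966717483) (.two (nat_lit 606076936) (nat_lit 156472709003) (.two (nat_lit 3531603973) (nat_lit 71309994) (.two (nat_lit 2097153) (nat_lit 9768543766) (.two (nat_lit 1048576) (nat_lit 166199306835) (.one (nat_lit 11546930979) .nil))))))),
   .two (nat_lit 9881780319) (nat_lit 19093520584) (.two (nat_lit 183962173461) (nat_lit 1782581339) (.two (nat_lit 101711988) (nat_lit 19142803920) (.two (nat_lit 10385096814) (nat_lit 20637024718) (.two (nat_lit 1779433487) (nat_lit 16781096) (.two (nat_lit 9881780233) (nat_lit 4198321) (.two (nat_lit 1276117000) (nat_lit 184551059) (.two (nat_lit 2902458370) (nat_lit 2920291968) (.two (nat_lit 10385096709) (nat_lit 3524269387) (.two (nat_lit 4194305) (nat_lit 9866060980) (.two (nat_lit 4194304) (nat_lit 1057050) (.one (nat_lit 1059624) .nil))))))))))),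
   .two (nat_lit 2927624259) (nat_lit 876609769) (.two (nat_lit 721420290) (nat_lit 8391503) (.one (nat_lit 8397128) .nil)),
   .two (nat_lit 2969567296) (nat_lit 2988441834) (.two (nat_lit 2097157) (nat_lit 4647291727) (.one (nat_lit 83898223) .nil)),
   .two (nat_lit 11610882405) (nat_lit 156548202719) (.two (nat_lit 11559501888) (nat_lit 839910408) (.two (nat_lit 4194319) (nat_lit 9948890121) (.two (nat_lit 11492392968) (nat_lit 303044019) (.two (nat_lit 2097157) (nat_lit 10519318652) (.two (nat_lit 2097153) (nat_lit 1795167727) (.two (nat_lit 1048576) (nat_lit 16788247) (.one (nat_lit 151004954) .nil))))))),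
   .two (nat_lit 809500739) (nat_lit 158646403306) (.two (nat_lit 809500677) (nat_lit 28790754125) (.one (nat_lit 1060730) .nil)),
   .two (nat_lit 775946278) (nat_lit 37253809487) (.two (nat_lit 12117344290) (nat_lit 2098125) (.two (nat_lit 2954887183) (nat_lit 209715712) (.two (nat_lit 606076936) (nat_lit 46514836794) (.two (nat_lit 169869316) (nat_lit 46984597628) (.two (nat_lit 2097153) (nat_lit 46510642671) (.two (nat_lit 4194304) (nat_lit 8398583) (.one (nat_lit 8398613) .nil))))))),
   .two (nat_lit 11546918950) (nat_lit 1786774853) (.two (nat_lit 1216348227) (nat_lit 2923430392) (.two (nat_lit 183962173463) (nat_lit 166199297036) (.two (nat_lit 185002360839) (nat_lit 8392760) (.two (nat_lit 4605345797) (nat_lit 136320429) (.two (nat_lit 4194305) (nat_lit 2105606) (.two (nat_lit 4194304) (nat_lit 16788251) (.one (nat_lit 16789371) .nil))))))),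
   .two (nat_lit 11626611045) (nat_lit 156532474079) (.two (nat_lit 11543773248) (nat_lit 855639048) (.two (nat_lit 721420303) (nat_lit 9933161481) (.two (nat_lit 11476664328) (nat_lit 318772659) (.two (nat_lit 50331653) (nat_lit 10503590012) (.two (nat_lit 34603009) (nat_lit 4599059949) (.two (nat_lit 16777216) (nat_lit 1059607) (.one (nat_lit 135276314) .nil))))))),
   .two (nat_lit 183920230438) (nat_lit 1761609005) (.two (nat_lit 41943107) (nat_lit 218104312) (.two (nat_lit 713031695) (nat_lit 12062818817) (.two (nat_lit 159232557064) (nat_lit 20638078392) (.two (nat_lit 184549380) (nat_lit 20638078392) (.two (nat_lit 2097153) (nat_lit 8395741) (.two (nat_lit 4194304) (nat_lit 8398585) (.one (nat_lit 8399675) .nil))))))),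
   .two (nat_lit 46980399142) (nat_lit 183853122402) (.two (nat_lit 306184258) (nat_lit 1786774016) (.two (nat_lit 4601151503) (nat_lit 1786774016) (.two (nat_lit 47550824455) (nat_lit 673191405) (.two (nat_lit 171966467) (nat_lit 673191405) (.two (nat_lit 4194305) (nat_lit 673191405) (.two (nat_lit 1048576) (nat_lit 2107130) (.one (nat_lit 2108220) .nil))))))),
   .two (nat_lit 352321602) (nat_lit 11584667882) (.two (nat_lit 612368389) (nat_lit 3003125897) (.one (nat_lit 16789374) .nil)),
   .two (nat_lit 183912890406) (nat_lit 20644366848) (.two (nat_lit 47588573250) (nat_lit 1746928652) (.two (nat_lit 705691656) (nat_lit 46414170954) (.two (nat_lit 806354949) (nat_lit 28093453807) (.two (nat_lit 2097152) (nat_lit 156372051737) (.one (nat_lit 2418027326) .nil))))),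
   .two (nat_lit 337641510) (nat_lit 9802088952) (.two (nat_lit 9802088515) (nat_lit 1411383809) (.two (nat_lit 11543773191) (nat_lit 2102712) (.two (nat_lit 11476664323) (nat_lit 2102769) (.two (nat_lit 1048576) (nat_lit 171976457) (.one (nat_lit 2108228) .nil))))),
   .two (nat_lit 28772925478) (nat_lit 158079123968) (.two (nat_lit 4613734407) (nat_lit 2104280) (.two (nat_lit 1048576) (nat_lit 46474996546) .nil)),
   .two (nat_lit 16777251) (nat_lit 9934209134) (.two (nat_lit 16777231) (nat_lit 1277166175) (.two (nat_lit 16777224) (nat_lit 1277166887) (.two (nat_lit 16777220) (nat_lit 28791802406) (.two (nat_lit 41943041) (nat_lit 9867106261) (.two (nat_lit 8388608) (nat_lit 2102606) (.one (nat_lit 8398552) .nil)))))),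
   .two (nat_lit 2954887203) (nat_lit 21207449714) (.two (nat_lit 10504634383) (nat_lit 21811430004) (.two (nat_lit 10504634376) (nat_lit 183946446149) (.two (nat_lit 4194308) (nat_lit 873467402) (.two (nat_lit 4194305) (nat_lit 1053914) (.two (nat_lit 2097152) (nat_lit 4202577) (.one (nat_lit 4204971) .nil)))))),
   .two (nat_lit 272629827) (nat_lit 158647451769) (.two (nat_lit 2889875471) (nat_lit 9866051944) (.two (nat_lit 16777224) (nat_lit 46473938259) (.two (nat_lit 16777220) (nat_lit 101712852) (.two (nat_lit 50331651) (nat_lit 185020190467) (.two (nat_lit 50331649) (nat_lit 2105421) (.two (nat_lit 2097152) (nat_lit 1058677) (.one (nat_lit 1058455) .nil))))))),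
   .two (nat_lit 9768534083) (nat_lit 83886188) (.two (nat_lit 176160783) (nat_lit 9766437223) (.two (nat_lit 754974728) (nat_lit 174692762925) (.two (nat_lit 8388613) (nat_lit 10001320655) (.two (nat_lit 9781116933) (nat_lit 9772732203) (.two (nat_lit 8388609) (nat_lit 9766440890) (.two (nat_lit 2097152) (nat_lit 4205381) (.one (nat_lit 4204972) .nil))))))),
   .two (nat_lit 46474985537) (nat_lit 21207449667) (.two (nat_lit 3525312527) (nat_lit 1279263343) (.two (nat_lit 1277165576) (nat_lit 183845782830) (.two (nat_lit 13191086085) (nat_lit 19597889461) (.two (nat_lit 13191086085) (nat_lit 11477714463) (.two (nat_lit 620756993) (nat_lit 1052607) (.two (nat_lit 16777216) (nat_lit 1056853) (.one (nat_lit 1059245) .nil))))))),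
   .two (nat_lit 11618222145) (nat_lit 156364701763) (.two (nat_lit 713031695) (nat_lit 1913651870) (.two (nat_lit 9881780232) (nat_lit 235931846) (.two (nat_lit 83886085) (nat_lit 10437532631) (.two (nat_lit 12114198533) (nat_lit 606080954) (.two (nat_lit 34603009) (nat_lit 606080954) (.two (nat_lit 1048576) (nat_lit 2107254) (.one (nat_lit 2108367) .nil))))))),
   .two (nat_lit 46474985537) (nat_lit 10913579118) (.two (nat_lit 8388623) (nat_lit 10452206241) (.two (nat_lit 159224168456) (nat_lit 3021997363) (.two (nat_lit 184549381) (nat_lit 183913942521) (.two (nat_lit 606076929) (nat_lit 1224742104) (.two (nat_lit 16777216) (nat_lit 2104116) (.one (nat_lit 2107824) .nil)))))),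
   .two (nat_lit 8388643) (nat_lit 156548202615) (.two (nat_lit 8388623) (nat_lit 1962935002) (.two (nat_lit 50331656) (nat_lit 10510927169) (.two (nat_lit 166129041410) (nat_lit 184423551837) (.two (nat_lit 16777220) (nat_lit 310380064) (.two (nat_lit 9765388289) (nat_lit 8395289) (.two (nat_lit 1048576) (nat_lit 50339915) (.one (nat_lit 1058469) .nil))))))),
   .two (nat_lit 168820773) (nat_lit 156569174153) (.two (nat_lit 9934209039) (nat_lit 10939794569) (.two (nat_lit 3539992584) (nat_lit 2353005872) (.two (nat_lit 2902458373) (nat_lit 156968684041) (.two (nat_lit 16777217) (nat_lit 2349862796) (.two (nat_lit 2097152) (nat_lit 4205382) (.one (nat_lit 4206470) .nil)))))),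
   .two (nat_lit 184549413) (nat_lit 775946359) (.two (nat_lit 11492392975) (nat_lit 10003416097) (.two (nat_lit 1178599432) (nat_lit 184551659) (.two (nat_lit 2889875461) (nat_lit 19142807033) (.two (nat_lit 37748737) (nat_lit 16782561) (.two (nat_lit 16777216) (nat_lit 4202586) (.one (nat_lit 16787113) .nil)))))),
   .two (nat_lit 9934209059) (nat_lit 174752530669) (.two (nat_lit 9934209039) (nat_lit 1343226553) (.two (nat_lit 1780482056) (nat_lit 156465366353) (.two (nat_lit 2902458373) (nat_lit 269487752) (.two (nat_lit 16777217) (nat_lit 41949420) (.two (nat_lit 8388608) (nat_lit 1058679) (.one (nat_lit 8399284) .nil)))))),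
   .two (nat_lit 169869377) (nat_lit 156372042085) (.two (nat_lit 4194319) (nat_lit 10007611926) (.two (nat_lit 4194308) (nat_lit 1053730) (.two (nat_lit 2097153) (nat_lit 1057199) (.two (nat_lit 4194304) (nat_lit 1059667) (.one (nat_lit 1060780) .nil))))),
   .two (nat_lit 83886191) (nat_lit 12121539233) (.two (nat_lit 8388623) (nat_lit 117441921) (.two (nat_lit 1779433480) (nat_lit 2988445580) (.two (nat_lit 605028353) (nat_lit 21812484734) (.two (nat_lit 1048576) (nat_lit 2106579) (.one (nat_lit 2109357) .nil))))),
   .two (nat_lit 47555018816) (nat_lit 2098223) (.two (nat_lit 46407876631) (nat_lit 9906947392) (.two (nat_lit 159217877000) (nat_lit 11517561354) (.two (nat_lit 169869316) (nat_lit 8395825) (.two (nat_lit 606076929) (nat_lit 8397241) (.two (nat_lit 2097152) (nat_lit 8399700) (.one (nat_lit 2109358) .nil)))))),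
   .two (nat_lit 352321602) (nat_lit 46481277291) (.two (nat_lit 754974735) (nat_lit 202376513) (.two (nat_lit 1175453704) (nat_lit 10385099290) (.two (nat_lit 158075977733) (nat_lit 3036682087) (.two (nat_lit 34603009) (nat_lit 28764543652) (.two (nat_lit 1048576) (nat_lit 8398815) (.one (nat_lit 8400815) .nil)))))),
   .two (nat_lit 183916036163) (nat_lit 11551113577) (.two (nat_lit 184419352591) (nat_lit 185027529231) (.two (nat_lit 12117344261) (nat_lit 746592864) (.two (nat_lit 4194304) (nat_lit 9806294115) .nil))),
   .two (nat_lit 165532401775) (nat_lit 2097840) (.two (nat_lit 159217877007) (nat_lit 8391563) (.two (nat_lit 2954887176) (nat_lit 8393064) (.two (nat_lit 1277165573) (nat_lit 8395826) (.two (nat_lit 2097153) (nat_lit 8397242) (.two (nat_lit 2097152) (nat_lit 8399701) (.one (nat_lit 2109360) .nil)))))),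
   .two (nat_lit 285212910) (nat_lit 809501313) (.two (nat_lit 184549391) (nat_lit 21210596739) (.two (nat_lit 2969567240) (nat_lit 19532877264) (.two (nat_lit 9768534021) (nat_lit 166144774036) (.two (nat_lit 37748737) (nat_lit 166211885668) (.two (nat_lit 8388608) (nat_lit 251668960) .nil))))),
   .two (nat_lit 2969567298) (nat_lit 11014243634) (.two (nat_lit 2969567240) (nat_lit 166136385433) (.two (nat_lit 16777217) (nat_lit 166136388184) (.two (nat_lit 16777216) (nat_lit 8398041) (.one (nat_lit 156539825426) .nil)))),
   .two (nat_lit 3573547075) (nat_lit 1310720616) (.two (nat_lit 2969567247) (nat_lit 159217879087) (.two (nat_lit 46978301960) (nat_lit 183928624133) (.two (nat_lit 2097153) (nat_lit 889201748) (.one (nat_lit 2108734) .nil)))),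
   .two (nat_lit 2927624259) (nat_lit 37750073) (.two (nat_lit 8388616) (nat_lit 4201125) (.two (nat_lit 4194304) (nat_lit 8398820) (.one (nat_lit 166232861837) .nil))),
   .two (nat_lit 158144135234) (nat_lit 9974055561) (.two (nat_lit 2961178639) (nat_lit 28758246242) (.two (nat_lit 10369368072) (nat_lit 4599056900) (.two (nat_lit 1276116996) (nat_lit 840961933) (.two (nat_lit 606076929) (nat_lit 12047096404) (.two (nat_lit 1048576) (nat_lit 2108246) (.one (nat_lit 2109361) .nil)))))),
   .two (nat_lit 4028629057) (nat_lit 775946904) (.two (nat_lit 9948889103) (nat_lit 12618564946) (.two (nat_lit 156367847432) (nat_lit 35655121) (.two (nat_lit 4194308) (nat_lit 2103153) (.two (nat_lit 2097153) (nat_lit 4204315) (.two (nat_lit 2097152) (nat_lit 4204517) (.one (nat_lit 2108735) .nil)))))),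
   .two (nat_lit 880803952) (nat_lit 12047090339) (.two (nat_lit 183853121551) (nat_lit 9768537525) (.two (nat_lit 3527409669) (nat_lit 1056267) (.two (nat_lit 4194304) (nat_lit 1058686) (.one (nat_lit 1060160) .nil)))),
   .two (nat_lit 713031746) (nat_lit 218106367) (.two (nat_lit 184549380) (nat_lit 28697433931) (.two (nat_lit 16777217) (nat_lit 8397244) (.two (nat_lit 8388608) (nat_lit 16788311) (.one (nat_lit 8400789) .nil)))),
   .two (nat_lit 4605345859) (nat_lit 822084262) (.two (nat_lit 185002360855) (nat_lit 183853122854) (.two (nat_lit 343932941) (nat_lit 754977279) (.two (nat_lit 8388613) (nat_lit 687870958) (.two (nat_lit 8388609) (nat_lit 16787228) (.two (nat_lit 8388608) (nat_lit 16788312) (.one (nat_lit 8400194) .nil)))))),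
   .two (nat_lit 185035915373) (nat_lit 20704133733) (.two (nat_lit 11559501839) (nat_lit 158143088667) (.two (nat_lit 705691656) (nat_lit 184554524) (.two (nat_lit 2097153) (nat_lit 873471468) (.two (nat_lit 1048576) (nat_lit 2108249) (.one (nat_lit 1060786) .nil))))),
   .two (nat_lit 9881780291) (nat_lit 19596837512) (.two (nat_lit 19599982607) (nat_lit 2921333603) (.two (nat_lit 606076936) (nat_lit 1745884183) (.two (nat_lit 37748737) (nat_lit 1056307) (.two (nat_lit 1048576) (nat_lit 4205402) (.one (nat_lit 2109363) .nil))))),
   .two (nat_lit 880803952) (nat_lit 157038936421) (.two (nat_lit 41943055) (nat_lit 157038936930) (.two (nat_lit 9766436872) (nat_lit 28793899526) (.two (nat_lit 10370416645) (nat_lit 3560969229) (.two (nat_lit 2097153) (nat_lit 171973211) (.two (nat_lit 4194304) (nat_lit 8400025) .nil))))),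
   .two (nat_lit 16777280) (nat_lit 2927624555) (.two (nat_lit 8388623) (nat_lit 156367848989) (.two (nat_lit 8388612) (nat_lit 2902465158) (.two (nat_lit 8388608) (nat_lit 855648173) (.one (nat_lit 4206516) .nil)))),
   .two (nat_lit 16777280) (nat_lit 1317012088) (.two (nat_lit 16777231) (nat_lit 4030727494) (.two (nat_lit 16777224) (nat_lit 4634709441) (.two (nat_lit 8388612) (nat_lit 3560968081) (.two (nat_lit 8388609) (nat_lit 4202941) (.two (nat_lit 4194304) (nat_lit 8398824) (.one (nat_lit 4206517) .nil)))))),
   .two (nat_lit 9881780289) (nat_lit 19530777253) (.two (nat_lit 1795162127) (nat_lit 773850455) (.two (nat_lit 169869320) (nat_lit 1358956062) (.two (nat_lit 2097157) (nat_lit 9781122076) (.two (nat_lit 34603009) (nat_lit 156567083637) (.two (nat_lit 1048576) (nat_lit 2107369) (.one (nat_lit 2108743) .nil)))))),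
   .two (nat_lit 11559501935) (nat_lit 1049648) (.two (nat_lit 41943055) (nat_lit 159219976723) (.two (nat_lit 8388612) (nat_lit 2987398142) (.two (nat_lit 8388609) (nat_lit 1056308) (.two (nat_lit 8388608) (nat_lit 4204522) (.one (nat_lit 4206518) .nil))))),
   .two (nat_lit 272629826) (nat_lit 156481094264) (.two (nat_lit 4194319) (nat_lit 183962175536) (.two (nat_lit 654311432) (nat_lit 20704136646) (.two (nat_lit 10385096709) (nat_lit 156969735208) (.two (nat_lit 37748737) (nat_lit 1780492202) (.one (nat_lit 1060791) .nil))))),
   .two (nat_lit 276824129) (nat_lit 11513364837) (.two (nat_lit 41943055) (nat_lit 1176503597) (.two (nat_lit 243269645) (nat_lit 639633949) (.two (nat_lit 28760342533) (nat_lit 1309676573) (.two (nat_lit 9765388289) (nat_lit 166203497112) (.two (nat_lit 1048576) (nat_lit 4204526) (.one (nat_lit 4206520) .nil)))))),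
   .two (nat_lit 754974787) (nat_lit 740295317) (.two (nat_lit 9948889103) (nat_lit 2988444186) (.two (nat_lit 156364701701) (nat_lit 169876962) (.two (nat_lit 1048576) (nat_lit 169880544) .nil))),
   .two (nat_lit 8388672) (nat_lit 28790752557) (.two (nat_lit 16777224) (nat_lit 28086110729) (.two (nat_lit 16777221) (nat_lit 235933585) (.two (nat_lit 2097153) (nat_lit 839917999) (.two (nat_lit 1048576) (nat_lit 8399707) (.one (nat_lit 1060793) .nil))))),
   .two (nat_lit 1913651315) (nat_lit 3560965503) (.two (nat_lit 352321549) (nat_lit 880805405) (.two (nat_lit 16777221) (nat_lit 10939798496) (.two (nat_lit 16777217) (nat_lit 303045222) (.two (nat_lit 1048576) (nat_lit 8398052) (.one (nat_lit 1060794) .nil))))),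
   .two (nat_lit 13195280451) (nat_lit 2332033687) (.two (nat_lit 157038936079) (nat_lit 1283459587) (.two (nat_lit 46409973764) (nat_lit 8393738) (.two (nat_lit 4194305) (nat_lit 4647299580) .nil))),
   .two (nat_lit 176160834) (nat_lit 318767776) (.two (nat_lit 50331663) (nat_lit 1846543719) (.two (nat_lit 21793603592) (nat_lit 10343158110) (.two (nat_lit 16777220) (nat_lit 4200307) (.two (nat_lit 8388609) (nat_lit 1058589) (.two (nat_lit 1048576) (nat_lit 8399708) (.one (nat_lit 8400827) .nil)))))),
   .two (nat_lit 184993972290) (nat_lit 10452206891) (.two (nat_lit 184993972232) (nat_lit 28806483873) (.two (nat_lit 34603009) (nat_lit 3539999325) (.two (nat_lit 1048576) (nat_lit 16786661) (.one (nat_lit 16789436) .nil)))),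
   .two (nat_lit 11492393025) (nat_lit 183848928100) (.two (nat_lit 11492392968) (nat_lit 880805406) (.two (nat_lit 50331653) (nat_lit 176167605) (.two (nat_lit 4194304) (nat_lit 8398054) (.one (nat_lit 8400829) .nil)))),
   .two (nat_lit 9967763523) (nat_lit 9802089848) (.two (nat_lit 285212680) (nat_lit 156535623088) (.two (nat_lit 16777220) (nat_lit 4201523) (.two (nat_lit 156364701697) (nat_lit 1224744499) (.two (nat_lit 1048576) (nat_lit 2887789542) .nil)))),
   .two (nat_lit 46474985537) (nat_lit 104858228) (.two (nat_lit 205520911) (nat_lit 174686471462) (.two (nat_lit 9768534024) (nat_lit 183912894809) (.two (nat_lit 3458203653) (nat_lit 185020191706) (.two (nat_lit 2097153) (nat_lit 4202943) (.two (nat_lit 4194304) (nat_lit 158075989100) .nil))))),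
   .two (nat_lit 176160835) (nat_lit 117441830) (.two (nat_lit 50331656) (nat_lit 20711475718) (.two (nat_lit 16777221) (nat_lit 156539817878) (.two (nat_lit 605028353) (nat_lit 28798098082) (.two (nat_lit 1048576) (nat_lit 8398831) (.one (nat_lit 1060798) .nil))))),
   .two (nat_lit 47582281836) (nat_lit 608174761) (.two (nat_lit 157038936079) (nat_lit 3558868260) (.two (nat_lit 10504634381) (nat_lit 1053034) (.two (nat_lit 1914699781) (nat_lit 1055796) (.two (nat_lit 41943041) (nat_lit 2105792) (.two (nat_lit 8388608) (nat_lit 2107376) (.one (nat_lit 8400831) .nil)))))),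
   .two (nat_lit 9881780290) (nat_lit 28758246012) (.two (nat_lit 9948889103) (nat_lit 156365751648) (.two (nat_lit 2887778312) (nat_lit 9881782783) (.two (nat_lit 270532613) (nat_lit 16783220) (.two (nat_lit 34603009) (nat_lit 2106511) (.one (nat_lit 2108608) .nil))))),
   .two (nat_lit 11559501890) (nat_lit 28690088610) (.two (nat_lit 721420303) (nat_lit 13221496134) (.two (nat_lit 11559501832) (nat_lit 12050240552) (.two (nat_lit 4194305) (nat_lit 1325406811) (.two (nat_lit 1048576) (nat_lit 12062829024) .nil)))),
   .two (nat_lit 3028287727) (nat_lit 156548203160) (.two (nat_lit 16777231) (nat_lit 20711476663) (.two (nat_lit 11492392964) (nat_lit 20737692685) (.two (nat_lit 50331649) (nat_lit 37253815766) (.two (nat_lit 1048576) (nat_lit 1350575228) (.one (nat_lit 9933172874) .nil))))),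
   .two (nat_lit 184986632259) (nat_lit 8390357) (.two (nat_lit 754974735) (nat_lit 1343229362) (.two (nat_lit 156372041733) (nat_lit 4027585557) (.two (nat_lit 41943041) (nat_lit 3457162805) (.two (nat_lit 1048576) (nat_lit 16788317) (.one (nat_lit 1060181) .nil))))),
   .two (nat_lit 8388674) (nat_lit 1224738113) (.two (nat_lit 185002360840) (nat_lit 1853885919) (.two (nat_lit 47548727301) (nat_lit 19142808599) (.two (nat_lit 2097153) (nat_lit 10351549945) (.two (nat_lit 2097152) (nat_lit 8398840) (.one (nat_lit 2108402) .nil))))),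
   .two (nat_lit 10385096771) (nat_lit 1050326) (.two (nat_lit 612368399) (nat_lit 1051536) (.two (nat_lit 3036676109) (nat_lit 13195282966) (.two (nat_lit 4599054341) (nat_lit 8394599) (.two (nat_lit 2097153) (nat_lit 1058755) (.one (nat_lit 1060800) .nil))))),
   .two (nat_lit 4605345858) (nat_lit 10338960227) (.two (nat_lit 46409973768) (nat_lit 310381992) (.two (nat_lit 754974725) (nat_lit 243274775) (.two (nat_lit 4194305) (nat_lit 8398622) (.two (nat_lit 1048576) (nat_lit 16788318) (.one (nat_lit 1060801) .nil))))),
   .two (nat_lit 185020186689) (nat_lit 156971827557) (.two (nat_lit 11543773199) (nat_lit 3024094582) (.two (nat_lit 47582281740) (nat_lit 9798947797) (.two (nat_lit 2097153) (nat_lit 1376787080) (.two (nat_lit 2097152) (nat_lit 184416216236) (.one (nat_lit 1060802) .nil))))),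
   .two (nat_lit 4634706031) (nat_lit 16778291) (.two (nat_lit 809500687) (nat_lit 11492395539) (.two (nat_lit 11479810053) (nat_lit 37329310727) (.two (nat_lit 9781116929) (nat_lit 156968690915) (.one (nat_lit 11476676869) .nil)))),
   .two (nat_lit 4605345857) (nat_lit 46409974413) (.two (nat_lit 4605345807) (nat_lit 11479811443) (.two (nat_lit 3460300808) (nat_lit 8392174) (.two (nat_lit 171966469) (nat_lit 47588578345) (.two (nat_lit 4194305) (nat_lit 8397250) (.two (nat_lit 1048576) (nat_lit 4204538) (.one (nat_lit 1060803) .nil)))))),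
   .two (nat_lit 46980399169) (nat_lit 37314626925) (.two (nat_lit 11479810061) (nat_lit 16780783) (.two (nat_lit 708837381) (nat_lit 16782385) (.two (nat_lit 2097153) (nat_lit 16784952) (.two (nat_lit 16777216) (nat_lit 2107387) (.one (nat_lit 2108766) .nil))))),
   .two (nat_lit 11618222195) (nat_lit 1049653) (.two (nat_lit 3460300815) (nat_lit 75502590) (.two (nat_lit 41943041) (nat_lit 705700910) (.one (nat_lit 1060192) .nil))),
   .two (nat_lit 4601151554) (nat_lit 4605346398) (.two (nat_lit 4194319) (nat_lit 243271040) (.two (nat_lit 9940500488) (nat_lit 638585351) (.two (nat_lit 612368389) (nat_lit 159253533715) (.two (nat_lit 34603009) (nat_lit 775953905) (.two (nat_lit 1048576) (nat_lit 4204541) (.one (nat_lit 4205925) .nil)))))),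
   .two (nat_lit 705691713) (nat_lit 3028288104) (.two (nat_lit 4194319) (nat_lit 3028288809) (.two (nat_lit 183953784845) (nat_lit 809505827) (.two (nat_lit 2097153) (nat_lit 10335820450) (.two (nat_lit 2097152) (nat_lit 4204542) (.one (nat_lit 1060198) .nil))))),
   .two (nat_lit 1847590977) (nat_lit 9966715537) (.two (nat_lit 612368399) (nat_lit 10552870951) (.two (nat_lit 156969730056) (nat_lit 780144052) (.two (nat_lit 184549381) (nat_lit 10906245735) (.two (nat_lit 1048576) (nat_lit 2108255) (.one (nat_lit 1059492) .nil))))),
   .two (nat_lit 1191182575) (nat_lit 272630425) (.two (nat_lit 157036838927) (nat_lit 47550825316) (.two (nat_lit 46407876616) (nat_lit 239078893) (.two (nat_lit 12047089669) (nat_lit 1310727648) (.two (nat_lit 1048576) (nat_lit 2106613) (.one (nat_lit 1060804) .nil))))),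
   .two (nat_lit 9881780289) (nat_lit 3020948126) (.two (nat_lit 184986632207) (nat_lit 16778601) (.two (nat_lit 705691656) (nat_lit 11559503389) (.two (nat_lit 34603013) (nat_lit 3003126771) (.two (nat_lit 605028353) (nat_lit 2969574025) (.two (nat_lit 1048576) (nat_lit 2108256) (.one (nat_lit 16789445) .nil)))))),
   .two (nat_lit 2316304499) (nat_lit 11484004714) (.two (nat_lit 37246468120) (nat_lit 8390707) (.two (nat_lit 2316304397) (nat_lit 8392176) (.two (nat_lit 11543773189) (nat_lit 183953788817) (.two (nat_lit 34603009) (nat_lit 276830813) (.two (nat_lit 1048576) (nat_lit 8398072) (.one (nat_lit 8400232) .nil)))))),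
   .two (nat_lit 16777280) (nat_lit 174692762257) (.two (nat_lit 1358954511) (nat_lit 101714462) (.two (nat_lit 75497477) (nat_lit 2886736460) (.two (nat_lit 1048576) (nat_lit 352330759) (.one (nat_lit 8400838) .nil)))),
   .two (nat_lit 822083697) (nat_lit 1346372206) (.two (nat_lit 3460300815) (nat_lit 12633245032) (.two (nat_lit 205520904) (nat_lit 687870962) (.two (nat_lit 37748737) (nat_lit 336600582) (.two (nat_lit 1048576) (nat_lit 4204429) (.one (nat_lit 1059868) .nil))))),
   .two (nat_lit 158144135409) (nat_lit 243270297) (.two (nat_lit 2887778319) (nat_lit 158083318626) (.two (nat_lit 11476664328) (nat_lit 21785216541) (.two (nat_lit 806354949) (nat_lit 2994737057) (.two (nat_lit 2097153) (nat_lit 46984598845) (.two (nat_lit 16777216) (nat_lit 35660828) (.one (nat_lit 2108778) .nil)))))),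
   .two (nat_lit 11559501890) (nat_lit 1049655) (.two (nat_lit 166129041431) (nat_lit 185002362188) (.two (nat_lit 28690087944) (nat_lit 3573549578) (.two (nat_lit 1913651205) (nat_lit 16783226) (.two (nat_lit 9765388289) (nat_lit 16785860) (.two (nat_lit 1048576) (nat_lit 11593066465) (.one (nat_lit 1060807) .nil)))))),
   .two (nat_lit 285212737) (nat_lit 2424308336) (.two (nat_lit 612368399) (nat_lit 687869393) (.two (nat_lit 16777221) (nat_lit 8394619) (.two (nat_lit 2097153) (nat_lit 8397253) (.two (nat_lit 2097152) (nat_lit 8398847) (.one (nat_lit 8400840) .nil))))),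
   .two (nat_lit 3558867011) (nat_lit 166144771110) (.two (nat_lit 2902458383) (nat_lit 4599055667) (.two (nat_lit 218103816) (nat_lit 10370419229) (.two (nat_lit 2969567237) (nat_lit 807408691) (.two (nat_lit 156372041729) (nat_lit 3524271674) (.two (nat_lit 1048576) (nat_lit 2108257) (.one (nat_lit 8400841) .nil)))))),
   .two (nat_lit 47548727360) (nat_lit 10007609953) (.two (nat_lit 612368399) (nat_lit 158177690936) (.two (nat_lit 2961178632) (nat_lit 9967766015) (.two (nat_lit 2894069765) (nat_lit 37247521833) (.two (nat_lit 9765388289) (nat_lit 679484925) (.two (nat_lit 1048576) (nat_lit 2927633508) (.one (nat_lit 1060810) .nil)))))),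
   .two (nat_lit 310378611) (nat_lit 2319450769) (.two (nat_lit 28093448207) (nat_lit 166197200935) (.two (nat_lit 2097165) (nat_lit 11618225616) (.two (nat_lit 3458203653) (nat_lit 9869202446) (.two (nat_lit 2097153) (nat_lit 18925755907) (.two (nat_lit 2097152) (nat_lit 775956394) (.one (nat_lit 4206539) .nil)))))),
   .two (nat_lit 1916796995) (nat_lit 11476665657) (.two (nat_lit 28693233672) (nat_lit 183912893924) (.two (nat_lit 21777874949) (nat_lit 4200316) (.two (nat_lit 605028353) (nat_lit 4204431) (.one (nat_lit 1059361) .nil)))),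
   .two (nat_lit 1358954563) (nat_lit 166196150885) (.two (nat_lit 9881780239) (nat_lit 19596840363) (.two (nat_lit 11476664324) (nat_lit 174701156953) (.two (nat_lit 1048576) (nat_lit 16787456) (.one (nat_lit 1060206) .nil)))),
   .two (nat_lit 843055217) (nat_lit 352322212) (.two (nat_lit 9781116943) (nat_lit 171970452) (.two (nat_lit 16777217) (nat_lit 11580480160) (.two (nat_lit 1048576) (nat_lit 9768544748) .nil))),
   .two (nat_lit 4601151554) (nat_lit 679478588) (.two (nat_lit 37748744) (nat_lit 185027531817) (.two (nat_lit 4194305) (nat_lit 2105798) (.two (nat_lit 4194304) (nat_lit 2107393) (.one (nat_lit 4206540) .nil)))),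
   .two (nat_lit 117440627) (nat_lit 37246468766) (.two (nat_lit 9781116943) (nat_lit 605029742) (.two (nat_lit 9781116936) (nat_lit 21207454684) (.two (nat_lit 8388609) (nat_lit 9966721620) (.two (nat_lit 8388608) (nat_lit 19529737143) (.one (nat_lit 1175465272) .nil))))),
   .two (nat_lit 306184302) (nat_lit 28101838169) (.two (nat_lit 4194312) (nat_lit 156380433891) (.two (nat_lit 101711877) (nat_lit 4200323) (.two (nat_lit 37748737) (nat_lit 1058591) (.two (nat_lit 4194304) (nat_lit 1059682) (.one (nat_lit 4206541) .nil))))),
   .two (nat_lit 183912890477) (nat_lit 2994733695) (.two (nat_lit 12047089679) (nat_lit 2961180000) (.two (nat_lit 739246088) (nat_lit 8393068) (.two (nat_lit 11543773189) (nat_lit 8393784) (.two (nat_lit 34603009) (nat_lit 8397260) (.two (nat_lit 1048576) (nat_lit 8398857) (.one (nat_lit 158183991916) .nil)))))),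
   .two (nat_lit 156569174128) (nat_lit 236978863) (.two (nat_lit 9768534031) (nat_lit 50335170) (.two (nat_lit 16777220) (nat_lit 3024097181) (.two (nat_lit 2097153) (nat_lit 742400966) (.one (nat_lit 16789454) .nil)))),
   .two (nat_lit 4613734465) (nat_lit 20644365604) (.two (nat_lit 101711880) (nat_lit 35655134) (.two (nat_lit 12114198533) (nat_lit 183913944113) (.two (nat_lit 34603009) (nat_lit 12618571320) (.two (nat_lit 1048576) (nat_lit 8399715) (.one (nat_lit 1376791570) .nil))))),
   .two (nat_lit 83886195) (nat_lit 11584668328) (.two (nat_lit 41943055) (nat_lit 9881782785) (.two (nat_lit 16777221) (nat_lit 46414174899) (.two (nat_lit 16777216) (nat_lit 157043139631) (.one (nat_lit 3036686838) .nil)))),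
   .two (nat_lit 2902458433) (nat_lit 306185059) (.two (nat_lit 37748744) (nat_lit 16779776) (.two (nat_lit 184989777925) (nat_lit 12129932322) (.two (nat_lit 4194305) (nat_lit 16784062) (.two (nat_lit 2097152) (nat_lit 174688576704) (.one (nat_lit 4206543) .nil))))),
   .two (nat_lit 47548727360) (nat_lit 37249614488) (.two (nat_lit 9940500495) (nat_lit 1310721314) (.two (nat_lit 612368392) (nat_lit 166199299978) (.two (nat_lit 8388609) (nat_lit 2103999) (.two (nat_lit 8388608) (nat_lit 2107403) (.one (nat_lit 2109392) .nil))))),
   .two (nat_lit 47555018817) (nat_lit 9967764066) (.two (nat_lit 169869327) (nat_lit 11517560175) (.two (nat_lit 46407876616) (nat_lit 2357202363) (.two (nat_lit 12054429701) (nat_lit 12115252264) (.two (nat_lit 605028353) (nat_lit 46984601073) (.two (nat_lit 1048576) (nat_lit 8399716) (.one (nat_lit 13187951794) .nil)))))),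
   .two (nat_lit 822083693) (nat_lit 3527409859) (.two (nat_lit 822083599) (nat_lit 184419353940) (.two (nat_lit 2889875464) (nat_lit 117444484) (.two (nat_lit 4194305) (nat_lit 16784064) (.two (nat_lit 16777216) (nat_lit 4204557) (.one (nat_lit 47584390395) .nil))))),
   .two (nat_lit 16777281) (nat_lit 809500867) (.two (nat_lit 16777231) (nat_lit 158179788818) (.two (nat_lit 822083592) (nat_lit 876614656) (.two (nat_lit 9781116929) (nat_lit 1210064368) (.two (nat_lit 2097152) (nat_lit 4204559) (.one (nat_lit 2109393) .nil))))),
   .two (nat_lit 8388674) (nat_lit 1224738113) (.two (nat_lit 185002360840) (nat_lit 1853885919) (.two (nat_lit 165526110213) (nat_lit 19142808599) (.two (nat_lit 2097153) (nat_lit 8398786) (.one (nat_lit 2108402) .nil)))),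
   .two (nat_lit 1178599534) (nat_lit 50332514) (.two (nat_lit 16777224) (nat_lit 205524461) (.two (nat_lit 16777220) (nat_lit 28760346526) (.two (nat_lit 4194305) (nat_lit 19545463403) (.two (nat_lit 8388608) (nat_lit 10540295162) (.one (nat_lit 4206000) .nil))))),
   .two (nat_lit 135266419) (nat_lit 11584667843) (.two (nat_lit 135266344) (nat_lit 2961179952) (.two (nat_lit 135266317) (nat_lit 1786776074) (.two (nat_lit 21777874949) (nat_lit 203430555) (.two (nat_lit 1048576) (nat_lit 746595266) (.one (nat_lit 2108849) .nil))))),
   .two (nat_lit 4605345906) (nat_lit 71303785) (.two (nat_lit 8388623) (nat_lit 184419355159) (.two (nat_lit 8388612) (nat_lit 104862676) (.two (nat_lit 8388609) (nat_lit 46409981453) (.two (nat_lit 8388608) (nat_lit 742401285) (.one (nat_lit 1060279) .nil))))),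
   .two (nat_lit 306184257) (nat_lit 2317353321) (.two (nat_lit 156367847439) (nat_lit 184987682097) (.two (nat_lit 1291845640) (nat_lit 2102251) (.two (nat_lit 620756993) (nat_lit 1178607103) (.two (nat_lit 16777216) (nat_lit 104868854) .nil)))),
   .two (nat_lit 4605345856) (nat_lit 3460301161) (.two (nat_lit 11479810063) (nat_lit 109053232) (.two (nat_lit 183848927240) (nat_lit 3565161895) (.two (nat_lit 809500677) (nat_lit 8394630) (.two (nat_lit 156367847425) (nat_lit 1417682406) (.two (nat_lit 4194304) (nat_lit 8398868) (.one (nat_lit 159219985657) .nil)))))),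
   .two (nat_lit 1310720065) (nat_lit 183953785700) (.two (nat_lit 2961178632) (nat_lit 156969734047) (.two (nat_lit 8388609) (nat_lit 183913945689) (.two (nat_lit 1048576) (nat_lit 183846839393) (.one (nat_lit 2109394) .nil)))),
   .two (nat_lit 4601151552) (nat_lit 612369044) (.two (nat_lit 4605345807) (nat_lit 1212155422) (.two (nat_lit 8388612) (nat_lit 21781025840) (.two (nat_lit 620756993) (nat_lit 4204320) (.two (nat_lit 16777216) (nat_lit 4205413) (.one (nat_lit 16789459) .nil))))),
   .two (nat_lit 218103924) (nat_lit 19033752875) (.two (nat_lit 620757000) (nat_lit 1853887803) (.two (nat_lit 2097152) (nat_lit 8398121) (.one (nat_lit 8400319) .nil))),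
   .two (nat_lit 9948889197) (nat_lit 11477713559) (.two (nat_lit 1291845647) (nat_lit 1411384689) (.two (nat_lit 639631368) (nat_lit 156984415218) (.two (nat_lit 2097153) (nat_lit 20652760626) (.two (nat_lit 2097152) (nat_lit 620768087) (.one (nat_lit 2108865) .nil))))),
   .two (nat_lit 20705181763) (nat_lit 20637025316) (.two (nat_lit 21208498191) (nat_lit 1051537) (.two (nat_lit 1947205644) (nat_lit 4599056917) (.two (nat_lit 1913651205) (nat_lit 13222547341) (.two (nat_lit 16777217) (nat_lit 69212763) (.two (nat_lit 16777216) (nat_lit 2107418) (.one (nat_lit 2109396) .nil)))))),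
   .two (nat_lit 3527409730) (nat_lit 21812478609) (.two (nat_lit 3527409679) (nat_lit 2100114) (.two (nat_lit 11007950861) (nat_lit 1379929997) (.two (nat_lit 4194305) (nat_lit 706747915) (.two (nat_lit 2097152) (nat_lit 4204571) (.one (nat_lit 4206549) .nil))))),
   .two (nat_lit 11559501888) (nat_lit 156465365600) (.two (nat_lit 12114198543) (nat_lit 165540791604) (.two (nat_lit 11543773192) (nat_lit 156380434318) (.two (nat_lit 605028353) (nat_lit 16784969) (.two (nat_lit 16777216) (nat_lit 1058845) (.one (nat_lit 16789462) .nil))))),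
   .two (nat_lit 1795162223) (nat_lit 742392165) (.two (nat_lit 9934209039) (nat_lit 109055412) (.two (nat_lit 2954887173) (nat_lit 343936908) (.two (nat_lit 2097153) (nat_lit 209722018) (.two (nat_lit 4194304) (nat_lit 2108262) (.one (nat_lit 2108882) .nil))))),
   .two (nat_lit 4605345857) (nat_lit 1379926637) (.two (nat_lit 41943055) (nat_lit 788530511) (.two (nat_lit 83886088) (nat_lit 21214792223) (.two (nat_lit 620756997) (nat_lit 166136385427) (.two (nat_lit 50331649) (nat_lit 847257059) (.two (nat_lit 16777216) (nat_lit 20640179378) (.one (nat_lit 8400855) .nil)))))),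
   .two (nat_lit 28693233729) (nat_lit 135266661) (.two (nat_lit 28693233679) (nat_lit 4631561520) (.two (nat_lit 28693233672) (nat_lit 183912893924) (.two (nat_lit 705691652) (nat_lit 4201125) (.two (nat_lit 1048576) (nat_lit 4204576) (.one (nat_lit 1059361) .nil))))),
   .two (nat_lit 83886324) (nat_lit 35652203) (.two (nat_lit 16777231) (nat_lit 740297243) (.two (nat_lit 184549381) (nat_lit 874516359) (.two (nat_lit 37748737) (nat_lit 184431944892) (.one (nat_lit 16788954) .nil)))),
   .two (nat_lit 47548727360) (nat_lit 11543773802) (.two (nat_lit 813694991) (nat_lit 9798944109) (.two (nat_lit 4605345800) (nat_lit 184986633757) (.two (nat_lit 8388612) (nat_lit 136320848) (.two (nat_lit 41943041) (nat_lit 1914706517) (.two (nat_lit 8388608) (nat_lit 2106676) (.one (nat_lit 1060315) .nil)))))),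
   .two (nat_lit 16777280) (nat_lit 156533523832) (.two (nat_lit 612368392) (nat_lit 158144140294) (.two (nat_lit 8388609) (nat_lit 3573553830) (.two (nat_lit 1048576) (nat_lit 2108263) (.one (nat_lit 1060824) .nil)))),
   .two (nat_lit 158192369730) (nat_lit 1947206262) (.two (nat_lit 9881780239) (nat_lit 1310721346) (.two (nat_lit 705691656) (nat_lit 16783220) (.two (nat_lit 605028353) (nat_lit 654320028) (.two (nat_lit 1048576) (nat_lit 2107425) (.one (nat_lit 1060825) .nil))))),
   .two (nat_lit 159251431532) (nat_lit 28793897598) (.two (nat_lit 75497487) (nat_lit 608176175) (.two (nat_lit 21785214984) (nat_lit 2101613) (.two (nat_lit 1914699781) (nat_lit 4201525) (.two (nat_lit 41943041) (nat_lit 2105809) (.two (nat_lit 8388608) (nat_lit 2108264) (.one (nat_lit 8400858) .nil)))))),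
   .two (nat_lit 46474985538) (nat_lit 158146232990) (.two (nat_lit 822083599) (nat_lit 37750099) (.two (nat_lit 9948889096) (nat_lit 46474987038) (.two (nat_lit 184549380) (nat_lit 2317358121) (.two (nat_lit 2097153) (nat_lit 158649558947) (.one (nat_lit 169880577) .nil))))),
   .two (nat_lit 12117344321) (nat_lit 28790751899) (.two (nat_lit 28086108175) (nat_lit 4195645) (.two (nat_lit 1916796936) (nat_lit 101717048) (.two (nat_lit 156364701697) (nat_lit 843063708) (.two (nat_lit 1048576) (nat_lit 4204580) (.one (nat_lit 28790762717) .nil))))),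
   .two (nat_lit 46980399215) (nat_lit 37247517359) (.two (nat_lit 157038936079) (nat_lit 10538191359) (.two (nat_lit 46409973764) (nat_lit 874517490) (.two (nat_lit 4194305) (nat_lit 2105810) (.two (nat_lit 2097152) (nat_lit 4205417) (.one (nat_lit 4205663) .nil))))),
   .two (nat_lit 21208498290) (nat_lit 183953785474) (.two (nat_lit 20638072847) (nat_lit 1786776067) (.two (nat_lit 159217876997) (nat_lit 12121545298) (.two (nat_lit 2097152) (nat_lit 156372050942) (.one (nat_lit 8400373) .nil)))),
   .two (nat_lit 218103873) (nat_lit 1178600077) (.two (nat_lit 809500687) (nat_lit 11593057582) (.two (nat_lit 16777224) (nat_lit 2990542296) (.two (nat_lit 2902458373) (nat_lit 2889881467) (.two (nat_lit 4194305) (nat_lit 16785875) (.two (nat_lit 8388608) (nat_lit 2889885695) (.one (nat_lit 4206555) .nil)))))),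
   .two (nat_lit 47548727360) (nat_lit 1050327) (.two (nat_lit 174753579023) (nat_lit 2987394386) (.two (nat_lit 1779433480) (nat_lit 10538191382) (.two (nat_lit 1276116996) (nat_lit 159251437413) (.two (nat_lit 605028353) (nat_lit 2104908) (.two (nat_lit 1048576) (nat_lit 2107431) (.one (nat_lit 1060828) .nil)))))),
   .two (nat_lit 218103873) (nat_lit 166136382082) (.two (nat_lit 8388623) (nat_lit 352322925) (.two (nat_lit 3036676109) (nat_lit 3028291462) (.two (nat_lit 16777217) (nat_lit 4605352620) (.two (nat_lit 16777216) (nat_lit 168831511) .nil)))),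
   .two (nat_lit 3558867055) (nat_lit 20652753259) (.two (nat_lit 639631375) (nat_lit 2969569794) (.two (nat_lit 2887778308) (nat_lit 16781218) (.two (nat_lit 2097153) (nat_lit 10016005645) (.two (nat_lit 4194304) (nat_lit 203433043) (.one (nat_lit 2108927) .nil))))),
   .two (nat_lit 11513364545) (nat_lit 16778968) (.two (nat_lit 2969567247) (nat_lit 10942941223) (.two (nat_lit 9768534029) (nat_lit 166245435942) (.two (nat_lit 10343153669) (nat_lit 18941482029) (.two (nat_lit 37748737) (nat_lit 16785876) (.two (nat_lit 1048576) (nat_lit 13195289587) (.one (nat_lit 8400385) .nil)))))),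
   .two (nat_lit 158143086658) (nat_lit 773850433) (.two (nat_lit 156969730056) (nat_lit 1947208190) (.two (nat_lit 19597885445) (nat_lit 1054610) (.two (nat_lit 50331649) (nat_lit 1058593) (.two (nat_lit 16777216) (nat_lit 1058861) (.one (nat_lit 1060829) .nil))))),
   .two (nat_lit 3036676163) (nat_lit 10343154314) (.two (nat_lit 28093448207) (nat_lit 166245435914) (.two (nat_lit 159224168453) (nat_lit 3036682941) (.two (nat_lit 8388608) (nat_lit 156548210833) (.one (nat_lit 16788995) .nil)))),
   .two (nat_lit 47555018817) (nat_lit 18926797466) (.two (nat_lit 157036838927) (nat_lit 272632336) (.two (nat_lit 10370416645) (nat_lit 2424311697) (.two (nat_lit 2097153) (nat_lit 8398626) (.two (nat_lit 8388608) (nat_lit 2108266) (.one (nat_lit 2109406) .nil))))),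
   .two (nat_lit 11543773248) (nat_lit 675283306) (.two (nat_lit 159224168463) (nat_lit 11006903621) (.two (nat_lit 12114198536) (nat_lit 272632349) (.two (nat_lit 19596836869) (nat_lit 675288024) (.two (nat_lit 8388609) (nat_lit 3457161892) (.two (nat_lit 1048576) (nat_lit 8398896) (.one (nat_lit 8400863) .nil)))))),
   .two (nat_lit 11559501890) (nat_lit 1779433829) (.two (nat_lit 176160783) (nat_lit 166144771386) (.two (nat_lit 721420296) (nat_lit 159216834417) (.two (nat_lit 605028353) (nat_lit 28798098989) (.two (nat_lit 1048576) (nat_lit 8398897) (.one (nat_lit 16789472) .nil))))),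
   .two (nat_lit 47555018818) (nat_lit 1277165931) (.two (nat_lit 9934209039) (nat_lit 10544482838) (.two (nat_lit 16777221) (nat_lit 2424312873) (.two (nat_lit 2097153) (nat_lit 12121546233) (.two (nat_lit 2097152) (nat_lit 8398898) (.one (nat_lit 16789001) .nil))))),
   .two (nat_lit 46409973826) (nat_lit 20738737475) (.two (nat_lit 46409973768) (nat_lit 21812481493) (.two (nat_lit 46409973764) (nat_lit 46978307911) (.two (nat_lit 156367847425) (nat_lit 1210063486) (.two (nat_lit 4194304) (nat_lit 2107443) (.one (nat_lit 2109409) .nil))))),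
   .two (nat_lit 880803948) (nat_lit 12163483016) (.two (nat_lit 11492392968) (nat_lit 184423549453) (.two (nat_lit 721420293) (nat_lit 8394644) (.two (nat_lit 8388609) (nat_lit 16787235) (.two (nat_lit 8388608) (nat_lit 1059691) (.one (nat_lit 16789002) .nil))))),
   .two (nat_lit 11559501889) (nat_lit 2988442272) (.two (nat_lit 13203669007) (nat_lit 19532875037) (.two (nat_lit 46978301960) (nat_lit 19599986152) (.two (nat_lit 203423749) (nat_lit 4201526) (.two (nat_lit 16777217) (nat_lit 2107172) (.two (nat_lit 16777216) (nat_lit 19597894864) (.one (nat_lit 337652964) .nil)))))),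
   .two (nat_lit 47548727362) (nat_lit 12624855664) (.two (nat_lit 169869327) (nat_lit 142607714) (.two (nat_lit 174759870472) (nat_lit 37314629108) (.two (nat_lit 285212677) (nat_lit 11007956013) (.two (nat_lit 2097153) (nat_lit 8398629) (.two (nat_lit 2097152) (nat_lit 1059692) (.one (nat_lit 16789474) .nil)))))),
   .two (nat_lit 8388674) (nat_lit 1779434136) (.two (nat_lit 2923429911) (nat_lit 135269817) (.two (nat_lit 12117344261) (nat_lit 10443822109) (.two (nat_lit 156367847425) (nat_lit 37253814871) (.two (nat_lit 8388608) (nat_lit 4204599) (.one (nat_lit 4206563) .nil))))),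
   .two (nat_lit 12050235631) (nat_lit 343933123) (.two (nat_lit 11626610711) (nat_lit 28764538160) (.two (nat_lit 185002360840) (nat_lit 775948806) (.two (nat_lit 721420292) (nat_lit 21778930332) (.two (nat_lit 2097152) (nat_lit 8399725) (.one (nat_lit 2109412) .nil))))),
   .two (nat_lit 4605345857) (nat_lit 3024093855) (.two (nat_lit 4601151503) (nat_lit 4605347106) (.two (nat_lit 46414168072) (nat_lit 47584384880) (.two (nat_lit 4194305) (nat_lit 3565166130) (.two (nat_lit 4194304) (nat_lit 8399726) (.one (nat_lit 4206565) .nil))))),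
   .two (nat_lit 4605345856) (nat_lit 184419353182) (.two (nat_lit 4605345807) (nat_lit 809502765) (.two (nat_lit 41943048) (nat_lit 775952216) (.two (nat_lit 4194305) (nat_lit 8396373) (.two (nat_lit 4194304) (nat_lit 8399727) (.one (nat_lit 16789478) .nil))))),
   .two (nat_lit 203423810) (nat_lit 166211879536) (.two (nat_lit 721420303) (nat_lit 1176503655) (.two (nat_lit 11559501832) (nat_lit 47582285251) (.two (nat_lit 4601151493) (nat_lit 840963116) (.two (nat_lit 4194305) (nat_lit 1948260961) (.two (nat_lit 4194304) (nat_lit 1847602357) .nil))))),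
   .two (nat_lit 21777875011) (nat_lit 10343154022) (.two (nat_lit 159224168463) (nat_lit 166196152349) (.two (nat_lit 176160776) (nat_lit 9966721654) (.two (nat_lit 8388608) (nat_lit 1058130) (.one (nat_lit 1060377) .nil)))),
   .two (nat_lit 11492393027) (nat_lit 12050236473) (.two (nat_lit 2889875480) (nat_lit 50333213) (.two (nat_lit 171966469) (nat_lit 10452209544) (.two (nat_lit 37748737) (nat_lit 739252820) (.two (nat_lit 1048576) (nat_lit 4204601) (.one (nat_lit 1060378) .nil))))),
   .two (nat_lit 21777875011) (nat_lit 166237046079) (.two (nat_lit 713031688) (nat_lit 46977256948) (.two (nat_lit 41943045) (nat_lit 159216835208) (.two (nat_lit 8388608) (nat_lit 19026420694) (.one (nat_lit 1209019050) .nil)))),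
   .two (nat_lit 272629826) (nat_lit 16778969) (.two (nat_lit 159232557071) (nat_lit 9765389671) (.two (nat_lit 2969567240) (nat_lit 11543774750) (.two (nat_lit 28089253893) (nat_lit 37313582964) (.two (nat_lit 37748737) (nat_lit 12617523612) (.two (nat_lit 16777216) (nat_lit 174688576521) (.one (nat_lit 4206108) .nil)))))),
   .two (nat_lit 285212736) (nat_lit 20740833639) (.two (nat_lit 9781116943) (nat_lit 35652952) (.two (nat_lit 1191182344) (nat_lit 2100734) (.two (nat_lit 2902458372) (nat_lit 4199489) (.two (nat_lit 2097153) (nat_lit 272636590) (.two (nat_lit 2097152) (nat_lit 4204604) (.one (nat_lit 4205271) .nil)))))),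
   .two (nat_lit 3558867061) (nat_lit 18928894570) (.two (nat_lit 2887778319) (nat_lit 158079124781) (.two (nat_lit 742391816) (nat_lit 28790752798) (.two (nat_lit 28758245381) (nat_lit 156465370102) (.two (nat_lit 606076929) (nat_lit 12050242165) (.two (nat_lit 4194304) (nat_lit 1058879) (.one (nat_lit 1060387) .nil)))))),
   .two (nat_lit 20704133187) (nat_lit 19027460702) (.two (nat_lit 10370416655) (nat_lit 336594221) (.two (nat_lit 10370416648) (nat_lit 3020954221) (.two (nat_lit 1048576) (nat_lit 3022005524) (.one (nat_lit 2109415) .nil)))),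
   .two (nat_lit 3527409730) (nat_lit 639632052) (.two (nat_lit 46407876623) (nat_lit 10909387271) (.two (nat_lit 4599054341) (nat_lit 37753890) (.two (nat_lit 2097153) (nat_lit 4202071) (.two (nat_lit 1048576) (nat_lit 4205424) (.one (nat_lit 1060391) .nil))))),
   .two (nat_lit 184986632259) (nat_lit 37247517321) (.two (nat_lit 16777231) (nat_lit 19599985179) (.two (nat_lit 11546918917) (nat_lit 855644013) (.two (nat_lit 16777217) (nat_lit 3560970875) (.two (nat_lit 1048576) (nat_lit 4205425) (.one (nat_lit 16789480) .nil))))),
   .two (nat_lit 184419352641) (nat_lit 158646404485) (.two (nat_lit 166129041416) (nat_lit 2956988318) (.two (nat_lit 8388609) (nat_lit 1056344) (.two (nat_lit 1048576) (nat_lit 4204610) (.one (nat_lit 1060841) .nil)))),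
   .two (nat_lit 285212737) (nat_lit 9802089051) (.two (nat_lit 285212687) (nat_lit 9802089760) (.two (nat_lit 2889875464) (nat_lit 1291848218) (.two (nat_lit 272629765) (nat_lit 10351547443) (.two (nat_lit 4194305) (nat_lit 16785881) (.two (nat_lit 1048576) (nat_lit 4203862) (.one (nat_lit 1060842) .nil)))))),
   .two (nat_lit 166132187201) (nat_lit 28790753324) (.two (nat_lit 2887778312) (nat_lit 9869201287) (.two (nat_lit 34603009) (nat_lit 4202073) (.two (nat_lit 1048576) (nat_lit 2108274) (.one (nat_lit 1060843) .nil)))),
   .two (nat_lit 183949590642) (nat_lit 806355618) (.two (nat_lit 1178599439) (nat_lit 183846832667) (.two (nat_lit 9768534021) (nat_lit 840961932) (.two (nat_lit 34603009) (nat_lit 2887785090) (.two (nat_lit 1048576) (nat_lit 19029566775) (.one (nat_lit 4206572) .nil))))),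
   .two (nat_lit 11618222145) (nat_lit 16778781) (.two (nat_lit 41943045) (nat_lit 28705820552) (.two (nat_lit 41943041) (nat_lit 16784067) (.two (nat_lit 1048576) (nat_lit 2894079086) (.one (nat_lit 8400877) .nil)))),
   .two (nat_lit 306184257) (nat_lit 46414169385) (.two (nat_lit 156372041736) (nat_lit 306186753) (.two (nat_lit 46409973765) (nat_lit 8395831) (.two (nat_lit 4194305) (nat_lit 8398630) (.two (nat_lit 16777216) (nat_lit 4204612) (.one (nat_lit 8400878) .nil))))),
   .two (nat_lit 4028629057) (nat_lit 19532875047) (.two (nat_lit 9768534024) (nat_lit 706742793) (.two (nat_lit 2889875461) (nat_lit 158077031442) (.two (nat_lit 612368385) (nat_lit 18926807031) (.one (nat_lit 2108972) .nil)))),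
   .two (nat_lit 306184257) (nat_lit 4605346391) (.two (nat_lit 156372041743) (nat_lit 21210600430) (.two (nat_lit 4194305) (nat_lit 8398631) (.two (nat_lit 4194304) (nat_lit 8399731) (.one (nat_lit 4206129) .nil)))),
   .two (nat_lit 83886191) (nat_lit 2954887784) (.two (nat_lit 20753416215) (nat_lit 156969731424) (.two (nat_lit 28772925448) (nat_lit 10439626186) (.two (nat_lit 713031685) (nat_lit 157036844913) (.two (nat_lit 8388609) (nat_lit 2104923) (.two (nat_lit 2097152) (nat_lit 16788340) (.one (nat_lit 2109423) .nil)))))),
   .two (nat_lit 184986632258) (nat_lit 46414169379) (.two (nat_lit 184993972232) (nat_lit 9765390883) (.two (nat_lit 713031684) (nat_lit 1053762) (.two (nat_lit 605028353) (nat_lit 8396380) (.two (nat_lit 8388608) (nat_lit 1059701) (.one (nat_lit 1060848) .nil))))),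
   .two (nat_lit 13195280500) (nat_lit 101712562) (.two (nat_lit 9866051599) (nat_lit 28798092589) (.two (nat_lit 183853121544) (nat_lit 9765395072) (.two (nat_lit 1048576) (nat_lit 8400241) .nil))),
   .two (nat_lit 3525312578) (nat_lit 4634706524) (.two (nat_lit 9940500495) (nat_lit 156533524993) (.two (nat_lit 4194308) (nat_lit 2102339) (.two (nat_lit 2097153) (nat_lit 4204328) (.two (nat_lit 8388608) (nat_lit 4204615) (.one (nat_lit 158150437975) .nil))))),
   .two (nat_lit 16777280) (nat_lit 1277165926) (.two (nat_lit 16777231) (nat_lit 156539815251) (.two (nat_lit 713031688) (nat_lit 156567081958) (.two (nat_lit 41943041) (nat_lit 2887785051) (.two (nat_lit 8388608) (nat_lit 183861519640) (.one (nat_lit 2109426) .nil))))),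
   .two (nat_lit 3458203714) (nat_lit 813695620) (.two (nat_lit 50331663) (nat_lit 4598008084) (.two (nat_lit 3464495112) (nat_lit 2886733243) (.two (nat_lit 47548727301) (nat_lit 209721218) (.two (nat_lit 2097153) (nat_lit 156380438954) (.two (nat_lit 8388608) (nat_lit 46407887143) (.one (nat_lit 2109427) .nil)))))),
   .two (nat_lit 8388675) (nat_lit 185035915923) (.two (nat_lit 176160783) (nat_lit 185002362193) (.two (nat_lit 50331656) (nat_lit 1410338394) (.two (nat_lit 721420293) (nat_lit 12617521003) (.two (nat_lit 16777217) (nat_lit 11618230782) (.two (nat_lit 16777216) (nat_lit 8399227) (.one (nat_lit 184993983541) .nil)))))),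
   .two (nat_lit 16777281) (nat_lit 3527410325) (.two (nat_lit 218103823) (nat_lit 136317456) (.two (nat_lit 169869316) (nat_lit 687870954) (.two (nat_lit 2097153) (nat_lit 318773873) (.two (nat_lit 2097152) (nat_lit 339748395) (.one (nat_lit 16789492) .nil))))),
   .two (nat_lit 184549443) (nat_lit 47548728054) (.two (nat_lit 218103823) (nat_lit 20638074172) (.two (nat_lit 2902458376) (nat_lit 19530781765) (.two (nat_lit 16777217) (nat_lit 9900662394) (.two (nat_lit 8388608) (nat_lit 2106462) (.one (nat_lit 16789493) .nil))))),
   .two (nat_lit 272629824) (nat_lit 754975323) (.two (nat_lit 272629775) (nat_lit 11492394373) (.two (nat_lit 218103816) (nat_lit 165528211336) (.two (nat_lit 16777217) (nat_lit 239082077) (.two (nat_lit 1048576) (nat_lit 1279272000) (.one (nat_lit 235941878) .nil))))),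
   .two (nat_lit 16777280) (nat_lit 679477869) (.two (nat_lit 612368399) (nat_lit 1175457671) (.two (nat_lit 8388609) (nat_lit 47581241379) (.two (nat_lit 8388608) (nat_lit 1059769) (.one (nat_lit 8400465) .nil)))),
   .two (nat_lit 28093448259) (nat_lit 1779434149) (.two (nat_lit 46407876623) (nat_lit 2994735646) (.two (nat_lit 184993972229) (nat_lit 37247523253) (.two (nat_lit 156372041729) (nat_lit 3457163148) (.two (nat_lit 2097152) (nat_lit 1059198) (.one (nat_lit 2109431) .nil))))),
   .two (nat_lit 4613734465) (nat_lit 4605345987) (.two (nat_lit 276824079) (nat_lit 47563407815) (.two (nat_lit 16777232) (nat_lit 19127075682) (.two (nat_lit 8388616) (nat_lit 158176643609) (.two (nat_lit 16777221) (nat_lit 156976023180) (.two (nat_lit 2097155) (nat_lit 612372389) (.two (nat_lit 620756993) (nat_lit 2416973112) (.two (nat_lit 1048576) (nat_lit 2105479) (.one (nat_lit 1055726) .nil)))))))),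
   .two (nat_lit 16777280) (nat_lit 20704133158) (.two (nat_lit 285212737) (nat_lit 806355141) (.two (nat_lit 47563407398) (nat_lit 13224642424) (.two (nat_lit 50331663) (nat_lit 1749024991) (.two (nat_lit 83886095) (nat_lit 11610882920) (.two (nat_lit 705691656) (nat_lit 16778781) (.two (nat_lit 34603013) (nat_lit 156380432013) (.two (nat_lit 34603013) (nat_lit 11492394636) (.two (nat_lit 2097153) (nat_lit 705698782) (.two (nat_lit 2097152) (nat_lit 4201360) (.one (nat_lit 16788218) .nil)))))))))),
   .two (nat_lit 285212737) (nat_lit 806355141) (.two (nat_lit 285212708) (nat_lit 13187941019) (.two (nat_lit 83886095) (nat_lit 11610882920) (.two (nat_lit 705691664) (nat_lit 16778082) (.two (nat_lit 705691656) (nat_lit 16778781) (.two (nat_lit 34603013) (nat_lit 11492394636) (.two (nat_lit 2097155) (nat_lit 1950355347) (.two (nat_lit 2097153) (nat_lit 10506736961) (.two (nat_lit 1048576) (nat_lit 773856140) (.one (nat_lit 16789090) .nil))))))))),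
   .two (nat_lit 1343225891) (nat_lit 1753219267) (.two (nat_lit 184993972290) (nat_lit 19026411720) (.two (nat_lit 1343225871) (nat_lit 1753219938) (.two (nat_lit 1343225864) (nat_lit 1753220637) (.two (nat_lit 705691652) (nat_lit 20644368259) (.two (nat_lit 34603009) (nat_lit 2994738488) (.two (nat_lit 1048576) (nat_lit 46514838385) (.one (nat_lit 1055701) .nil))))))),
   .two (nat_lit 4194369) (nat_lit 183928619046) (.two (nat_lit 4194369) (nat_lit 183928619104) (.two (nat_lit 721420322) (nat_lit 1048934) (.two (nat_lit 4194319) (nat_lit 3539993046) (.two (nat_lit 721420303) (nat_lit 2886730186) (.two (nat_lit 713031688) (nat_lit 159217878557) (.two (nat_lit 2097157) (nat_lit 166245440481) (.two (nat_lit 41943045) (nat_lit 2953844226) (.two (nat_lit 2097153) (nat_lit 880812230) (.two (nat_lit 1048576) (nat_lit 2923436938) (.one (nat_lit 2108155) .nil)))))))))),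
   .two (nat_lit 10015998019) (nat_lit 2954887363) (.two (nat_lit 721420303) (nat_lit 705692514) (.two (nat_lit 721420296) (nat_lit 2987395601) (.two (nat_lit 270532613) (nat_lit 11479814066) (.two (nat_lit 41943043) (nat_lit 156532477837) (.two (nat_lit 4194305) (nat_lit 9982449074) (.two (nat_lit 8388608) (nat_lit 10538198048) (.one (nat_lit 2109438) .nil))))))),
   .two (nat_lit 4194369) (nat_lit 184423546918) (.two (nat_lit 276824129) (nat_lit 11492393157) (.two (nat_lit 3531604006) (nat_lit 21778924117) (.two (nat_lit 276824079) (nat_lit 159251431647) (.two (nat_lit 185002360847) (nat_lit 11577328488) (.two (nat_lit 8388616) (nat_lit 9765389965) (.two (nat_lit 721420296) (nat_lit 11543777406) (.two (nat_lit 8388612) (nat_lit 9765389965) (.two (nat_lit 50331653) (nat_lit 11543777406) (.two (nat_lit 50331649) (nat_lit 11543777406) (.two (nat_lit 1048576) (nat_lit 1411394286) (.one (nat_lit 1411394286) .nil))))))))))),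
   .two (nat_lit 2961178689) (nat_lit 2988441795) (.two (nat_lit 2961178639) (nat_lit 2887778759) (.two (nat_lit 8388624) (nat_lit 11610882914) (.two (nat_lit 8388616) (nat_lit 203426320) (.two (nat_lit 176160770) (nat_lit 2101171) (.two (nat_lit 4194307) (nat_lit 839916808) (.two (nat_lit 50331649) (nat_lit 1055517) (.two (nat_lit 16777216) (nat_lit 9765397852) (.one (nat_lit 1060863) .nil)))))))),
   .two (nat_lit 46510637122) (nat_lit 310378691) (.two (nat_lit 41943055) (nat_lit 171967333) (.two (nat_lit 4605345809) (nat_lit 47584380263) (.two (nat_lit 2889875464) (nat_lit 4605347358) (.two (nat_lit 272629765) (nat_lit 11618223756) (.two (nat_lit 4194307) (nat_lit 343936899) (.two (nat_lit 4194305) (nat_lit 343938358) (.two (nat_lit 1048576) (nat_lit 1786781844) (.one (nat_lit 8399613) .nil)))))))),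
   .two (nat_lit 822083619) (nat_lit 10372514412) (.two (nat_lit 11559501890) (nat_lit 20705181899) (.two (nat_lit 117440527) (nat_lit 21777876263) (.two (nat_lit 1745879048) (nat_lit 9766439428) (.two (nat_lit 12047089669) (nat_lit 46508543882) (.two (nat_lit 2097153) (nat_lit 1779440200) (.two (nat_lit 1048576) (nat_lit 169877689) (.one (nat_lit 2319461978) .nil))))))),
   .two (nat_lit 184549394) (nat_lit 10372514412) (.two (nat_lit 11559501890) (nat_lit 20705181899) (.two (nat_lit 11559501890) (nat_lit 20705182464) (.two (nat_lit 117440527) (nat_lit 21777876263) (.two (nat_lit 1745879048) (nat_lit 9766439428) (.two (nat_lit 12047089669) (nat_lit 46508543882) (.two (nat_lit 2097153) (nat_lit 1779440200) (.two (nat_lit 2097152) (nat_lit 37313582504) (.one (nat_lit 16789091) .nil)))))))),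
   .two (nat_lit 2961178689) (nat_lit 157036839626) (.two (nat_lit 8388623) (nat_lit 166229706066) (.two (nat_lit 8388616) (nat_lit 10335817344) (.two (nat_lit 16777220) (nat_lit 1053712) (.two (nat_lit 16777217) (nat_lit 1410341530) (.two (nat_lit 4194304) (nat_lit 9772737934) (.one (nat_lit 1060453) .nil)))))),
   .two (nat_lit 2961178689) (nat_lit 157036839626) (.two (nat_lit 8388623) (nat_lit 166229706066) (.two (nat_lit 8388616) (nat_lit 10335817344) (.two (nat_lit 16777220) (nat_lit 1053712) (.two (nat_lit 16777217) (nat_lit 1410341530) (.two (nat_lit 4194304) (nat_lit 9772737934) (.one (nat_lit 1060864) .nil)))))),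
   .two (nat_lit 8388643) (nat_lit 184986632387) (.two (nat_lit 276824129) (nat_lit 47550824816) (.two (nat_lit 8388623) (nat_lit 184986633502) (.two (nat_lit 8388616) (nat_lit 3021998594) (.two (nat_lit 8388612) (nat_lit 3458207650) (.two (nat_lit 8388609) (nat_lit 12620668389) (.two (nat_lit 8388608) (nat_lit 28791808185) (.one (nat_lit 337653338) .nil))))))),
   .two (nat_lit 8388627) (nat_lit 184986632387) (.two (nat_lit 276824129) (nat_lit 47550824816) (.two (nat_lit 276824129) (nat_lit 4634706015) (.two (nat_lit 8388623) (nat_lit 184986633502) (.two (nat_lit 8388616) (nat_lit 3021998594) (.two (nat_lit 8388612) (nat_lit 3458207650) (.two (nat_lit 8388609) (nat_lit 12620668389) (.two (nat_lit 1048576) (nat_lit 109060280) (.one (nat_lit 336604763) .nil)))))))),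
   .two (nat_lit 706740261) (nat_lit 1384120973) (.two (nat_lit 4194369) (nat_lit 209715397) (.two (nat_lit 169869327) (nat_lit 3565159268) (.two (nat_lit 13195280390) (nat_lit 2920287675) (.two (nat_lit 169869320) (nat_lit 176161738) (.two (nat_lit 34603013) (nat_lit 10510929811) (.two (nat_lit 2097153) (nat_lit 19026419158) (.two (nat_lit 2097152) (nat_lit 9933167493) (.one (nat_lit 8400486) .nil)))))))),
   .two (nat_lit 171966482) (nat_lit 1182794349) (.two (nat_lit 4194369) (nat_lit 20711473351) (.two (nat_lit 4194369) (nat_lit 343933023) (.two (nat_lit 169869327) (nat_lit 184993973585) (.two (nat_lit 705691656) (nat_lit 1786776119) (.two (nat_lit 4194312) (nat_lit 46407880824) (.two (nat_lit 2956984325) (nat_lit 37320920979) (.two (nat_lit 4194305) (nat_lit 159250388293) (.two (nat_lit 1048576) (nat_lit 8395673) (.one (nat_lit 8398544) .nil))))))))),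
   .two (nat_lit 11492392979) (nat_lit 183913939305) (.two (nat_lit 169869377) (nat_lit 1191182431) (.two (nat_lit 4194319) (nat_lit 1746928080) (.two (nat_lit 4194319) (nat_lit 28758245601) (.two (nat_lit 4194312) (nat_lit 21208499743) (.two (nat_lit 4194312) (nat_lit 2097385) (.two (nat_lit 16777218) (nat_lit 47584384849) (.two (nat_lit 4194308) (nat_lit 2418020409) (.two (nat_lit 34603009) (nat_lit 706747282) (.two (nat_lit 1048576) (nat_lit 706747282) (.one (nat_lit 2109441) .nil)))))))))),
   .two (nat_lit 169869377) (nat_lit 251658439) (.two (nat_lit 169869377) (nat_lit 11492393055) (.two (nat_lit 169869327) (nat_lit 721421649) (.two (nat_lit 705691656) (nat_lit 9881784452) (.two (nat_lit 4194312) (nat_lit 3021996265) (.two (nat_lit 18928893957) (nat_lit 1055634) (.two (nat_lit 34603013) (nat_lit 9881784452) (.two (nat_lit 4194305) (nat_lit 1055634) (.two (nat_lit 4194304) (nat_lit 1055634) (.one (nat_lit 159253540694) .nil))))))))),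
   .two (nat_lit 171966482) (nat_lit 310378691) (.two (nat_lit 4605345857) (nat_lit 171966673) (.two (nat_lit 4605345857) (nat_lit 19529728196) (.two (nat_lit 4194319) (nat_lit 13195281250) (.two (nat_lit 4194312) (nat_lit 13195281949) (.two (nat_lit 171966469) (nat_lit 20711477128) (.two (nat_lit 4194305) (nat_lit 47547685474) (.two (nat_lit 1048576) (nat_lit 1417681817) (.one (nat_lit 4027588886) .nil)))))))),
   .two (nat_lit 8388643) (nat_lit 47548727945) (.two (nat_lit 8388672) (nat_lit 183913939143) (.two (nat_lit 8388623) (nat_lit 28691137861) (.two (nat_lit 176160774) (nat_lit 10907290139) (.two (nat_lit 8388616) (nat_lit 706742836) (.two (nat_lit 8388612) (nat_lit 2418020243) (.two (nat_lit 156365750273) (nat_lit 11614036006) (.two (nat_lit 4194304) (nat_lit 3028297343) (.one (nat_lit 4206183) .nil)))))))),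
   .two (nat_lit 8388627) (nat_lit 740295313) (.two (nat_lit 8388672) (nat_lit 20705181899) (.two (nat_lit 8388672) (nat_lit 18925748319) (.two (nat_lit 1178599439) (nat_lit 773850425) (.two (nat_lit 1745879048) (nat_lit 1746930188) (.two (nat_lit 46407876612) (nat_lit 9866056827) (.two (nat_lit 37748737) (nat_lit 11611938853) (.two (nat_lit 4194304) (nat_lit 1058442) (.one (nat_lit 1060456) .nil)))))))),
   .two (nat_lit 46474985537) (nat_lit 10942939493) (.two (nat_lit 3525312527) (nat_lit 13191088281) (.two (nat_lit 19532873736) (nat_lit 184423549442) (.two (nat_lit 156367847429) (nat_lit 165540795350) (.two (nat_lit 37748737) (nat_lit 310386321) (.two (nat_lit 2097152) (nat_lit 18933096767) (.one (nat_lit 16788230) .nil)))))),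
   .two (nat_lit 8388674) (nat_lit 46992982760) (.two (nat_lit 8388623) (nat_lit 807405766) (.two (nat_lit 50331656) (nat_lit 1210059289) (.two (nat_lit 16777220) (nat_lit 9766438543) (.two (nat_lit 16777219) (nat_lit 9936312713) (.two (nat_lit 16777217) (nat_lit 46414176055) (.two (nat_lit 8388608) (nat_lit 4205496) (.one (nat_lit 2108168) .nil))))))),
   .two (nat_lit 41943107) (nat_lit 9881780821) (.two (nat_lit 713031695) (nat_lit 28790752557) (.two (nat_lit 822083592) (nat_lit 746589888) (.two (nat_lit 13187940357) (nat_lit 1954549679) (.two (nat_lit 2097155) (nat_lit 713037672) (.two (nat_lit 34603009) (nat_lit 16786308) (.two (nat_lit 1048576) (nat_lit 2107761) (.one (nat_lit 16789101) .nil))))))),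
   .two (nat_lit 343932993) (nat_lit 158075978085) (.two (nat_lit 8388623) (nat_lit 158075978594) (.two (nat_lit 8388616) (nat_lit 156968684046) (.two (nat_lit 183853121538) (nat_lit 4198329) (.two (nat_lit 156372041731) (nat_lit 12048144777) (.two (nat_lit 156372041729) (nat_lit 19532881719) (.two (nat_lit 4194304) (nat_lit 156365761464) (.one (nat_lit 1060868) .nil))))))),
   .two (nat_lit 4601151552) (nat_lit 174692762232) (.two (nat_lit 4601151503) (nat_lit 276826176) (.two (nat_lit 4194312) (nat_lit 2927627803) (.two (nat_lit 8388612) (nat_lit 809505861) (.two (nat_lit 9765388289) (nat_lit 2106245) (.two (nat_lit 1048576) (nat_lit 4202716) (.one (nat_lit 4206190) .nil)))))),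
   .two (nat_lit 352321731) (nat_lit 1344275045) (.two (nat_lit 16777280) (nat_lit 1049889) (.two (nat_lit 16777231) (nat_lit 1310722595) (.two (nat_lit 8388616) (nat_lit 28790758256) (.two (nat_lit 8388608) (nat_lit 35663557) .nil)))),
   .two (nat_lit 10504634726) (nat_lit 157038936421) (.two (nat_lit 46980399170) (nat_lit 183913940349) (.two (nat_lit 46978301967) (nat_lit 4197850) (.two (nat_lit 11476664328) (nat_lit 742398629) (.two (nat_lit 2097153) (nat_lit 4204446) (.two (nat_lit 2097152) (nat_lit 1059894) (.one (nat_lit 2109624) .nil)))))),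
   .two (nat_lit 11584667843) (nat_lit 37313577590) (.two (nat_lit 4194369) (nat_lit 1753221633) (.two (nat_lit 4194312) (nat_lit 1753223044) (.two (nat_lit 4194308) (nat_lit 336599625) (.two (nat_lit 37748737) (nat_lit 337650652) (.two (nat_lit 1048576) (nat_lit 2108471) (.one (nat_lit 873475796) .nil)))))),
   .two (nat_lit 9802088643) (nat_lit 2097790) (.two (nat_lit 4028629057) (nat_lit 28793898358) (.two (nat_lit 184986632207) (nat_lit 13224643085) (.two (nat_lit 4194312) (nat_lit 9867106981) (.two (nat_lit 4194305) (nat_lit 9766446073) (.two (nat_lit 1048576) (nat_lit 775956939) (.one (nat_lit 2109625) .nil)))))),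
   .two (nat_lit 13191086275) (nat_lit 156968683038) (.two (nat_lit 4601151496) (nat_lit 706744212) (.two (nat_lit 4605345797) (nat_lit 135271736) (.two (nat_lit 4194305) (nat_lit 156567086148) (.two (nat_lit 8388608) (nat_lit 158077037010) (.one (nat_lit 2109626) .nil))))),
   .two (nat_lit 9948889283) (nat_lit 2954888557) (.two (nat_lit 2969567247) (nat_lit 270535182) (.two (nat_lit 9948889096) (nat_lit 185021239178) (.two (nat_lit 218103813) (nat_lit 11611937387) (.two (nat_lit 2097153) (nat_lit 10016007859) (.one (nat_lit 9765400195) .nil))))),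
   .two (nat_lit 1947205827) (nat_lit 8389665) (.two (nat_lit 4194369) (nat_lit 4605346658) (.two (nat_lit 4194319) (nat_lit 156472710460) (.two (nat_lit 2097153) (nat_lit 11476673571) (.two (nat_lit 1048576) (nat_lit 21812488686) (.one (nat_lit 1310732430) .nil))))),
   .two (nat_lit 156372041923) (nat_lit 1049215) (.two (nat_lit 46980399219) (nat_lit 19127075682) (.two (nat_lit 21777874959) (nat_lit 156372043293) (.two (nat_lit 705691656) (nat_lit 158183985032) (.two (nat_lit 272629765) (nat_lit 20711479885) (.two (nat_lit 9768534017) (nat_lit 4638909366) (.two (nat_lit 1048576) (nat_lit 4205624) (.one (nat_lit 2109627) .nil))))))),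
   .two (nat_lit 18933088868) (nat_lit 174755676521) (.two (nat_lit 4601151554) (nat_lit 10343155229) (.two (nat_lit 4194312) (nat_lit 183953788808) (.two (nat_lit 9765388293) (nat_lit 20740840075) (.two (nat_lit 34603009) (nat_lit 159219984891) (.one (nat_lit 4206780) .nil))))),
   .two (nat_lit 117440707) (nat_lit 19127075447) (.two (nat_lit 9948889155) (nat_lit 166132189199) (.two (nat_lit 4194319) (nat_lit 156380435769) (.two (nat_lit 2097153) (nat_lit 185023343092) (.one (nat_lit 46508551869) .nil)))),
   .two (nat_lit 117440707) (nat_lit 101712929) (.two (nat_lit 13237223491) (nat_lit 171967332) (.two (nat_lit 11492392975) (nat_lit 46980401687) (.two (nat_lit 46407876616) (nat_lit 46992985999) (.two (nat_lit 2097157) (nat_lit 2332040048) (.two (nat_lit 1048576) (nat_lit 606088874) .nil))))),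
   .two (nat_lit 157038936259) (nat_lit 183853122402) (.two (nat_lit 713031695) (nat_lit 11614032850) (.two (nat_lit 713031684) (nat_lit 1782586014) (.two (nat_lit 4194305) (nat_lit 47588583888) (.one (nat_lit 11614039680) .nil)))),
   .two (nat_lit 822083779) (nat_lit 19033752877) (.two (nat_lit 176160783) (nat_lit 3003127101) (.two (nat_lit 16777217) (nat_lit 847258621) (.two (nat_lit 8388608) (nat_lit 47563418121) (.one (nat_lit 889204338) .nil)))),
   .two (nat_lit 9881780582) (nat_lit 8389248) (.two (nat_lit 11559501891) (nat_lit 12155093860) (.two (nat_lit 176160783) (nat_lit 3472886276) (.two (nat_lit 754974728) (nat_lit 20711477146) (.two (nat_lit 11559501829) (nat_lit 10443822396) (.two (nat_lit 50331649) (nat_lit 1954554000) (.two (nat_lit 1048576) (nat_lit 2936022702) (.one (nat_lit 8401085) .nil))))))),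
   .two (nat_lit 11559502019) (nat_lit 8389249) (.two (nat_lit 3028287598) (nat_lit 9814672742) (.two (nat_lit 612368399) (nat_lit 1795164671) (.two (nat_lit 50331656) (nat_lit 20644368259) (.two (nat_lit 16777220) (nat_lit 3460308440) (.two (nat_lit 16777217) (nat_lit 46514839692) (.two (nat_lit 4194304) (nat_lit 1384132307) .nil)))))),
   .two (nat_lit 218104406) (nat_lit 46984593769) (.two (nat_lit 41943107) (nat_lit 117443070) (.two (nat_lit 721420296) (nat_lit 8393753) (.two (nat_lit 50331653) (nat_lit 8396269) (.two (nat_lit 41943041) (nat_lit 16787359) (.two (nat_lit 8388608) (nat_lit 16788537) (.one (nat_lit 8401086) .nil)))))),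
   .two (nat_lit 157038936672) (nat_lit 1344274791) (.two (nat_lit 4028629057) (nat_lit 171969035) (.two (nat_lit 1178599432) (nat_lit 169874389) (.two (nat_lit 203423749) (nat_lit 28793903779) (.two (nat_lit 2097153) (nat_lit 11479819276) (.two (nat_lit 2097152) (nat_lit 4205626) (.one (nat_lit 2109631) .nil)))))),
   .two (nat_lit 10015998147) (nat_lit 18933089122) (.two (nat_lit 16777231) (nat_lit 3565162385) (.two (nat_lit 50331653) (nat_lit 20711479972) (.two (nat_lit 41943041) (nat_lit 16784238) (.two (nat_lit 4194304) (nat_lit 176172675) .nil)))),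
   .two (nat_lit 156372041923) (nat_lit 9766437495) (.two (nat_lit 754974785) (nat_lit 739247436) (.two (nat_lit 50331663) (nat_lit 2316306951) (.two (nat_lit 276824072) (nat_lit 10921973051) (.two (nat_lit 2097153) (nat_lit 1376790972) (.one (nat_lit 1411395205) .nil))))),
   .two (nat_lit 218104165) (nat_lit 11614028408) (.two (nat_lit 218103874) (nat_lit 10506732881) (.two (nat_lit 2902458383) (nat_lit 20640175420) (.two (nat_lit 37748737) (nat_lit 183946454071) (.two (nat_lit 1048576) (nat_lit 4205627) (.one (nat_lit 1060596) .nil))))),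
   .two (nat_lit 158143086787) (nat_lit 4043309415) (.two (nat_lit 4647288898) (nat_lit 742393134) (.two (nat_lit 157036838927) (nat_lit 9768536584) (.two (nat_lit 28087156744) (nat_lit 104861585) (.two (nat_lit 69206021) (nat_lit 11559509463) (.two (nat_lit 2097153) (nat_lit 1057886) (.two (nat_lit 2097152) (nat_lit 1059900) (.one (nat_lit 2109632) .nil))))))),
   .two (nat_lit 13237223619) (nat_lit 2923431209) (.two (nat_lit 12050235407) (nat_lit 9915337227) (.two (nat_lit 12050235400) (nat_lit 37329309582) (.two (nat_lit 708837381) (nat_lit 16782646) (.two (nat_lit 4194305) (nat_lit 183928627347) (.two (nat_lit 2097152) (nat_lit 4205629) (.one (nat_lit 4632621139) .nil)))))),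
   .two (nat_lit 9906946406) (nat_lit 1049218) (.two (nat_lit 11584667715) (nat_lit 638584142) (.two (nat_lit 9866051607) (nat_lit 1761610249) (.two (nat_lit 1276117000) (nat_lit 2894073743) (.two (nat_lit 46409973765) (nat_lit 10376713532) (.two (nat_lit 37748737) (nat_lit 687875033) (.two (nat_lit 1048576) (nat_lit 8399934) (.one (nat_lit 1061057) .nil))))))),
   .two (nat_lit 9799991653) (nat_lit 157038936670) (.two (nat_lit 318767169) (nat_lit 37249615232) (.two (nat_lit 157036838927) (nat_lit 37246471623) (.two (nat_lit 171966477) (nat_lit 16781188) (.two (nat_lit 2097157) (nat_lit 1279269487) (.two (nat_lit 37748737) (nat_lit 1948264949) (.one (nat_lit 1060597) .nil)))))),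
   .two (nat_lit 174752530627) (nat_lit 2097795) (.two (nat_lit 3036676163) (nat_lit 1753220433) (.two (nat_lit 19530776591) (nat_lit 47547681290) (.two (nat_lit 184423546888) (nat_lit 336599637) (.two (nat_lit 9766436865) (nat_lit 10376717356) (.two (nat_lit 1048576) (nat_lit 8399935) (.one (nat_lit 1061058) .nil)))))),
   .two (nat_lit 2994733251) (nat_lit 2098210) (.two (nat_lit 19596836931) (nat_lit 41944418) (.two (nat_lit 352321559) (nat_lit 10343157636) (.two (nat_lit 10504634373) (nat_lit 12047096424) (.two (nat_lit 50331649) (nat_lit 183845790801) (.two (nat_lit 1048576) (nat_lit 2107948) (.one (nat_lit 2109635) .nil)))))),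
   .two (nat_lit 28093448549) (nat_lit 11476664682) (.two (nat_lit 21785215043) (nat_lit 2316305250) (.two (nat_lit 158075977743) (nat_lit 9873394190) (.two (nat_lit 20637024264) (nat_lit 813700090) (.two (nat_lit 159216828421) (nat_lit 10544487019) (.two (nat_lit 4194305) (nat_lit 8397919) (.two (nat_lit 1048576) (nat_lit 4205632) (.one (nat_lit 1061060) .nil))))))),
   .two (nat_lit 1384120515) (nat_lit 12617515621) (.two (nat_lit 1376780399) (nat_lit 1417676106) (.two (nat_lit 184986632207) (nat_lit 2894075198) (.two (nat_lit 8388609) (nat_lit 138421274) (.two (nat_lit 4194304) (nat_lit 1384131077) (.one (nat_lit 4206789) .nil))))),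
   .two (nat_lit 174753579203) (nat_lit 174688567654) (.two (nat_lit 4030726211) (nat_lit 13188990252) (.two (nat_lit 165526110223) (nat_lit 10947136016) (.two (nat_lit 9768534024) (nat_lit 2103122) (.two (nat_lit 2889875461) (nat_lit 2104814) (.two (nat_lit 4194305) (nat_lit 2106464) (.two (nat_lit 2097152) (nat_lit 4205633) (.one (nat_lit 4206790) .nil))))))),
   .two (nat_lit 46477082819) (nat_lit 10544481605) (.two (nat_lit 18933088271) (nat_lit 19532875294) (.two (nat_lit 46409973773) (nat_lit 9772732313) (.two (nat_lit 171966469) (nat_lit 1283463777) (.two (nat_lit 605028353) (nat_lit 4203617) (.two (nat_lit 1048576) (nat_lit 343944866) .nil))))),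
   .two (nat_lit 159224168643) (nat_lit 158075978085) (.two (nat_lit 158075977794) (nat_lit 19134416182) (.two (nat_lit 1916796943) (nat_lit 1051141) (.two (nat_lit 13191086093) (nat_lit 303042440) (.two (nat_lit 13191086085) (nat_lit 4631566925) (.two (nat_lit 606076929) (nat_lit 269492361) (.two (nat_lit 2097152) (nat_lit 135278239) .nil)))))),
   .two (nat_lit 13195280579) (nat_lit 742392167) (.two (nat_lit 47563407425) (nat_lit 18933089822) (.two (nat_lit 41943048) (nat_lit 9765395109) (.two (nat_lit 4194305) (nat_lit 1343236632) (.one (nat_lit 1061063) .nil)))),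
   .two (nat_lit 4605345987) (nat_lit 4194948) (.two (nat_lit 158647451715) (nat_lit 183920231268) (.two (nat_lit 184419352591) (nat_lit 4605347357) (.two (nat_lit 12050235400) (nat_lit 28764542265) (.two (nat_lit 4194305) (nat_lit 10907296796) (.two (nat_lit 2097152) (nat_lit 16788546) (.one (nat_lit 16789704) .nil)))))),
   .two (nat_lit 117440707) (nat_lit 158143086956) (.two (nat_lit 11559501889) (nat_lit 37246470674) (.two (nat_lit 11559501832) (nat_lit 1317018237) (.two (nat_lit 605028353) (nat_lit 11618231310) (.two (nat_lit 8388608) (nat_lit 1410345464) (.one (nat_lit 1417687136) .nil))))),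
   .two (nat_lit 306184387) (nat_lit 20644364901) (.two (nat_lit 4601151552) (nat_lit 10510927186) (.two (nat_lit 183848927247) (nat_lit 10913582536) (.two (nat_lit 8388616) (nat_lit 1212157827) (.two (nat_lit 8388612) (nat_lit 12117352609) (.two (nat_lit 4194304) (nat_lit 8399939) (.one (nat_lit 4206793) .nil)))))),
   .two (nat_lit 10907287909) (nat_lit 19033752168) (.two (nat_lit 673185859) (nat_lit 8390024) (.two (nat_lit 156372041743) (nat_lit 1176504835) (.two (nat_lit 3464495112) (nat_lit 19128127373) (.two (nat_lit 47555018757) (nat_lit 2988448381) (.two (nat_lit 8388609) (nat_lit 2106466) (.two (nat_lit 8388608) (nat_lit 2107949) (.one (nat_lit 2109642) .nil))))))),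
   .two (nat_lit 165532402276) (nat_lit 2956984681) (.two (nat_lit 183848927298) (nat_lit 20644365610) (.two (nat_lit 10343153679) (nat_lit 3558869523) (.two (nat_lit 813694984) (nat_lit 20707282828) (.two (nat_lit 8388612) (nat_lit 2104815) (.two (nat_lit 156367847425) (nat_lit 46514840646) (.two (nat_lit 4194304) (nat_lit 2108484) (.one (nat_lit 2109643) .nil))))))),
   .two (nat_lit 11010048195) (nat_lit 1847592230) (.two (nat_lit 46980399119) (nat_lit 21778926115) (.two (nat_lit 156365750280) (nat_lit 339744061) (.two (nat_lit 2097153) (nat_lit 2936022706) (.one (nat_lit 2109644) .nil)))),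
   .two (nat_lit 2954887363) (nat_lit 37253808489) (.two (nat_lit 339738690) (nat_lit 10007610654) (.two (nat_lit 169869327) (nat_lit 41945629) (.two (nat_lit 9766436872) (nat_lit 156364705683) (.two (nat_lit 171966469) (nat_lit 184417262244) (.two (nat_lit 2097153) (nat_lit 1058720) (.two (nat_lit 1048576) (nat_lit 2108485) (.one (nat_lit 4206797) .nil))))))),
   .two (nat_lit 1358954691) (nat_lit 156364702339) (.two (nat_lit 158143086658) (nat_lit 318768436) (.two (nat_lit 1191182351) (nat_lit 19127077390) (.two (nat_lit 83886088) (nat_lit 12047094753) (.two (nat_lit 11492392964) (nat_lit 156364708454) (.two (nat_lit 50331649) (nat_lit 605037641) (.two (nat_lit 1048576) (nat_lit 4205102) (.one (nat_lit 16789710) .nil))))))),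
   .two (nat_lit 1358954691) (nat_lit 11484004989) (.two (nat_lit 19532873795) (nat_lit 37329306990) (.two (nat_lit 8388623) (nat_lit 1862273552) (.two (nat_lit 83886088) (nat_lit 159224172420) (.two (nat_lit 46409973764) (nat_lit 165540797093) (.two (nat_lit 9768534017) (nat_lit 3472893022) (.two (nat_lit 4194304) (nat_lit 13203680220) (.one (nat_lit 4206799) .nil))))))),
   .two (nat_lit 10907288161) (nat_lit 183920230760) (.two (nat_lit 10913579075) (nat_lit 1310721321) (.two (nat_lit 3464495119) (nat_lit 16781662) (.two (nat_lit 157036838920) (nat_lit 16783187) (.two (nat_lit 203423749) (nat_lit 8396272) (.two (nat_lit 606076929) (nat_lit 8398753) (.two (nat_lit 8388608) (nat_lit 21778934760) (.one (nat_lit 2109648) .nil))))))),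
   .two (nat_lit 13195280579) (nat_lit 9869197929) (.two (nat_lit 11551113281) (nat_lit 2969568545) (.two (nat_lit 18928893967) (nat_lit 3539995154) (.two (nat_lit 184419352584) (nat_lit 606082044) (.two (nat_lit 11479810052) (nat_lit 606084590) (.two (nat_lit 50331649) (nat_lit 4030735365) (.two (nat_lit 2097152) (nat_lit 4205638) (.one (nat_lit 2109649) .nil))))))),
   .two (nat_lit 13195280579) (nat_lit 156535620201) (.two (nat_lit 12054429762) (nat_lit 19597886766) (.two (nat_lit 4194319) (nat_lit 158144137755) (.two (nat_lit 68157448) (nat_lit 209719181) (.two (nat_lit 638582789) (nat_lit 2990545495) (.two (nat_lit 4194305) (nat_lit 159224177729) (.two (nat_lit 1048576) (nat_lit 2108487) (.one (nat_lit 8401106) .nil))))))),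
   .two (nat_lit 9948889283) (nat_lit 4605346416) (.two (nat_lit 218103873) (nat_lit 780141936) (.two (nat_lit 1350565903) (nat_lit 889195018) (.two (nat_lit 809500680) (nat_lit 352326640) (.two (nat_lit 4194308) (nat_lit 8395433) (.two (nat_lit 4194305) (nat_lit 8397923) (.two (nat_lit 4194304) (nat_lit 8399944) (.one (nat_lit 4206803) .nil))))))),
   .two (nat_lit 9974055107) (nat_lit 2097797) (.two (nat_lit 158144135276) (nat_lit 10913580412) (.two (nat_lit 37748751) (nat_lit 10343157636) (.two (nat_lit 169869316) (nat_lit 10510932625) (.two (nat_lit 2097153) (nat_lit 4204450) (.two (nat_lit 2097152) (nat_lit 4205641) (.one (nat_lit 843067435) .nil)))))),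
   .two (nat_lit 13191086275) (nat_lit 3464496421) (.two (nat_lit 4605345807) (nat_lit 9802091007) (.two (nat_lit 813694984) (nat_lit 608179186) (.two (nat_lit 1277165572) (nat_lit 4201969) (.two (nat_lit 9766436865) (nat_lit 8397924) (.two (nat_lit 2097152) (nat_lit 8399946) (.one (nat_lit 2109652) .nil)))))),
   .two (nat_lit 20719862117) (nat_lit 2316304994) (.two (nat_lit 9899606132) (nat_lit 159224169806) (.two (nat_lit 4194319) (nat_lit 9948890653) (.two (nat_lit 11543773192) (nat_lit 276830796) (.two (nat_lit 34603009) (nat_lit 8397925) (.two (nat_lit 8388608) (nat_lit 4205103) (.one (nat_lit 1061077) .nil)))))),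
   .two (nat_lit 47596961987) (nat_lit 184987681128) (.two (nat_lit 1310720065) (nat_lit 12617517595) (.two (nat_lit 9967763468) (nat_lit 9765393380) (.two (nat_lit 9934209029) (nat_lit 1276123771) (.two (nat_lit 606076929) (nat_lit 806364258) (.two (nat_lit 1048576) (nat_lit 2107952) (.one (nat_lit 1061078) .nil)))))),
   .two (nat_lit 9967764069) (nat_lit 46422557034) (.two (nat_lit 654311491) (nat_lit 156969731424) (.two (nat_lit 1277165583) (nat_lit 9915337251) (.two (nat_lit 158144135176) (nat_lit 174768265867) (.two (nat_lit 9766436865) (nat_lit 11022640166) (.two (nat_lit 2097152) (nat_lit 16788555) (.one (nat_lit 2109655) .nil)))))),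
   .two (nat_lit 47555019363) (nat_lit 13221495145) (.two (nat_lit 158075977794) (nat_lit 46414168931) (.two (nat_lit 184549391) (nat_lit 75500062) (.two (nat_lit 1795162120) (nat_lit 269489468) (.two (nat_lit 612368385) (nat_lit 135277026) (.one (nat_lit 1061080) .nil))))),
   .two (nat_lit 9934209219) (nat_lit 16777862) (.two (nat_lit 11551113282) (nat_lit 1050663) (.two (nat_lit 11479810063) (nat_lit 2316307895) (.two (nat_lit 11479810056) (nat_lit 46406833172) (.two (nat_lit 83886085) (nat_lit 4201130) (.two (nat_lit 16777217) (nat_lit 4203622) (.two (nat_lit 1048576) (nat_lit 4205644) (.one (nat_lit 1061081) .nil))))))),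
   .two (nat_lit 847249603) (nat_lit 202375528) (.two (nat_lit 9866051650) (nat_lit 158150428035) (.two (nat_lit 158075977743) (nat_lit 158077030279) (.two (nat_lit 746586117) (nat_lit 1056242) (.two (nat_lit 9766436865) (nat_lit 8397927) (.two (nat_lit 2097152) (nat_lit 1059917) (.one (nat_lit 2109658) .nil)))))),
   .two (nat_lit 285212867) (nat_lit 4194951) (.two (nat_lit 2923429953) (nat_lit 46523221328) (.two (nat_lit 2889875471) (nat_lit 166211881487) (.two (nat_lit 2889875464) (nat_lit 16782362) (.two (nat_lit 19599982597) (nat_lit 16784883) (.two (nat_lit 9768534017) (nat_lit 16786536) (.two (nat_lit 4194304) (nat_lit 16788558) (.one (nat_lit 4206811) .nil))))))),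
   .two (nat_lit 12054430304) (nat_lit 156566028648) (.two (nat_lit 184993972289) (nat_lit 28690089341) (.two (nat_lit 184986632207) (nat_lit 746588707) (.two (nat_lit 705691656) (nat_lit 8394580) (.two (nat_lit 176160772) (nat_lit 2104820) (.two (nat_lit 8388609) (nat_lit 1058723) (.two (nat_lit 1048576) (nat_lit 165532412921) (.one (nat_lit 10906251364) .nil))))))),
   .two (nat_lit 117440707) (nat_lit 28798091903) (.two (nat_lit 11517558850) (nat_lit 156367848813) (.two (nat_lit 713031695) (nat_lit 117442077) (.two (nat_lit 11551113224) (nat_lit 251662216) (.two (nat_lit 721420292) (nat_lit 645928249) (.two (nat_lit 50331649) (nat_lit 12155101335) (.two (nat_lit 4194304) (nat_lit 21778935468) .nil)))))),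
   .two (nat_lit 9948889283) (nat_lit 8389256) (.two (nat_lit 11559501889) (nat_lit 9906947443) (.two (nat_lit 176160783) (nat_lit 10351544837) (.two (nat_lit 620757000) (nat_lit 159224172420) (.two (nat_lit 620756997) (nat_lit 645929617) (.two (nat_lit 16777217) (nat_lit 11578385462) (.two (nat_lit 2097152) (nat_lit 2961189391) (.one (nat_lit 10001329814) .nil))))))),
   .two (nat_lit 159224168643) (nat_lit 16777865) (.two (nat_lit 158083317825) (nat_lit 1426064706) (.two (nat_lit 612368399) (nat_lit 185002364818) (.two (nat_lit 16777220) (nat_lit 746591546) (.two (nat_lit 8388609) (nat_lit 16786537) (.two (nat_lit 2097152) (nat_lit 343944881) .nil))))),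
   .two (nat_lit 21785215171) (nat_lit 16777866) (.two (nat_lit 21785215087) (nat_lit 156548203895) (.two (nat_lit 2969567255) (nat_lit 1753221631) (.two (nat_lit 184549384) (nat_lit 276829501) (.two (nat_lit 620756993) (nat_lit 1753228367) (.two (nat_lit 8388608) (nat_lit 16788559) (.one (nat_lit 8400630) .nil)))))),
   .two (nat_lit 19027460702) (nat_lit 158091706729) (.two (nat_lit 3573547074) (nat_lit 174686471011) (.two (nat_lit 654311439) (nat_lit 159217879582) (.two (nat_lit 10370416648) (nat_lit 2332038459) (.two (nat_lit 606076929) (nat_lit 705701560) (.one (nat_lit 16789724) .nil))))),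
   .two (nat_lit 21827158373) (nat_lit 158646403430) (.two (nat_lit 185035915330) (nat_lit 11543774589) (.two (nat_lit 10939793423) (nat_lit 16781663) (.two (nat_lit 285212680) (nat_lit 708841374) (.two (nat_lit 9768534021) (nat_lit 158662138512) (.two (nat_lit 9765388289) (nat_lit 158649559507) (.one (nat_lit 4206813) .nil)))))),
   .two (nat_lit 10552869059) (nat_lit 174753579874) (.two (nat_lit 9948889103) (nat_lit 874514969) (.two (nat_lit 156372041736) (nat_lit 166130096795) (.two (nat_lit 8388609) (nat_lit 337651376) (.one (nat_lit 889204362) .nil)))),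
   .two (nat_lit 12054430054) (nat_lit 158158815594) (.two (nat_lit 16777282) (nat_lit 158083318627) (.two (nat_lit 16777231) (nat_lit 183953787398) (.two (nat_lit 158083317768) (nat_lit 11022634903) (.two (nat_lit 20644364292) (nat_lit 2332039761) (.two (nat_lit 50331649) (nat_lit 75506711) (.two (nat_lit 1048576) (nat_lit 645932722) (.one (nat_lit 8400631) .nil))))))),
   .two (nat_lit 4647289027) (nat_lit 156535619779) (.two (nat_lit 11492393026) (nat_lit 9969861972) (.two (nat_lit 822083599) (nat_lit 880806436) (.two (nat_lit 205520904) (nat_lit 1350569863) (.two (nat_lit 41943045) (nat_lit 184986638969) (.two (nat_lit 41943041) (nat_lit 1057898) (.two (nat_lit 1048576) (nat_lit 4205105) (.one (nat_lit 4206814) .nil))))))),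
   .two (nat_lit 13237223619) (nat_lit 1413480807) (.two (nat_lit 10506731587) (nat_lit 169871876) (.two (nat_lit 19530776584) (nat_lit 12050239383) (.two (nat_lit 157036838917) (nat_lit 9948895871) (.two (nat_lit 9766436865) (nat_lit 13224649665) (.two (nat_lit 2097152) (nat_lit 4205106) (.one (nat_lit 4206815) .nil)))))),
   .two (nat_lit 10504634563) (nat_lit 1358955124) (.two (nat_lit 156372041795) (nat_lit 12048139558) (.two (nat_lit 159232557071) (nat_lit 2961182609) (.two (nat_lit 2889875461) (nat_lit 11544828502) (.two (nat_lit 4194305) (nat_lit 2106475) (.two (nat_lit 8388608) (nat_lit 4205648) (.one (nat_lit 4206816) .nil)))))),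
   .two (nat_lit 28693234021) (nat_lit 16777867) (.two (nat_lit 19096666179) (nat_lit 16779304) (.two (nat_lit 9781116943) (nat_lit 10942941716) (.two (nat_lit 10940841992) (nat_lit 608178067) (.two (nat_lit 174753579013) (nat_lit 183861516898) (.two (nat_lit 156364701697) (nat_lit 807412837) (.two (nat_lit 1048576) (nat_lit 2107955) (.one (nat_lit 2109176) .nil))))))),
   .two (nat_lit 159266111683) (nat_lit 1176502635) (.two (nat_lit 847249475) (nat_lit 184431936857) (.two (nat_lit 184549391) (nat_lit 9940503072) (.two (nat_lit 9766436872) (nat_lit 1761613113) (.two (nat_lit 2097153) (nat_lit 183861518472) (.two (nat_lit 2097152) (nat_lit 1786783410) (.one (nat_lit 16789729) .nil)))))),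
   .two (nat_lit 156533522627) (nat_lit 16778275) (.two (nat_lit 158144135233) (nat_lit 1325401456) (.two (nat_lit 2969567247) (nat_lit 10001321422) (.two (nat_lit 620757000) (nat_lit 11611935699) (.two (nat_lit 183848927236) (nat_lit 16784885) (.two (nat_lit 156367847425) (nat_lit 10955531350) (.two (nat_lit 4194304) (nat_lit 1325411984) .nil)))))),
   .two (nat_lit 20705181891) (nat_lit 9899606632) (.two (nat_lit 9802088564) (nat_lit 11577329000) (.two (nat_lit 1745879055) (nat_lit 2350910890) (.two (nat_lit 19596836872) (nat_lit 9867105279) (.two (nat_lit 184989777925) (nat_lit 1056246) (.two (nat_lit 34603009) (nat_lit 2107300) (.two (nat_lit 1048576) (nat_lit 2108497) (.one (nat_lit 1061090) .nil))))))),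
   .two (nat_lit 310378854) (nat_lit 2956984679) (.two (nat_lit 12620660802) (nat_lit 156539815293) (.two (nat_lit 12050235407) (nat_lit 11551116762) (.two (nat_lit 9766436872) (nat_lit 1178606153) (.two (nat_lit 37748737) (nat_lit 46414177325) (.two (nat_lit 8388608) (nat_lit 9936318065) .nil))))),
   .two (nat_lit 2416967875) (nat_lit 20738736779) (.two (nat_lit 20638072942) (nat_lit 847250812) (.two (nat_lit 276824079) (nat_lit 69208590) (.two (nat_lit 46984593416) (nat_lit 19094572952) (.two (nat_lit 21778923525) (nat_lit 3020954204) (.two (nat_lit 37748737) (nat_lit 780151314) (.one (nat_lit 28764548719) .nil)))))),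
   .two (nat_lit 285212867) (nat_lit 183916036291) (.two (nat_lit 285212736) (nat_lit 158079124807) (.two (nat_lit 2902458383) (nat_lit 3458206241) (.two (nat_lit 12050235400) (nat_lit 4613740360) (.two (nat_lit 11479810052) (nat_lit 16784043) (.two (nat_lit 9768534017) (nat_lit 28791809052) (.two (nat_lit 2097152) (nat_lit 4205108) (.one (nat_lit 71315564) .nil))))))),
   .two (nat_lit 18933088852) (nat_lit 10437525864) (.two (nat_lit 11476664385) (nat_lit 1950353448) (.two (nat_lit 169869327) (nat_lit 47550829537) (.two (nat_lit 169869316) (nat_lit 1056247) (.two (nat_lit 2097153) (nat_lit 1057900) (.two (nat_lit 2097152) (nat_lit 772811816) (.one (nat_lit 1061091) .nil)))))),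
   .two (nat_lit 889192643) (nat_lit 11479810683) (.two (nat_lit 721420353) (nat_lit 10942940509) (.two (nat_lit 46978301967) (nat_lit 2953841160) (.two (nat_lit 1276117000) (nat_lit 158192373656) (.two (nat_lit 184431935493) (nat_lit 20707285590) (.two (nat_lit 9765388289) (nat_lit 11578384533) (.two (nat_lit 2097152) (nat_lit 4205109) (.one (nat_lit 2109177) .nil))))))),
   .two (nat_lit 20704133315) (nat_lit 10001318247) (.two (nat_lit 12624855105) (nat_lit 10436478237) (.two (nat_lit 218103823) (nat_lit 46507494856) (.two (nat_lit 1343225864) (nat_lit 47548731279) (.two (nat_lit 11492392964) (nat_lit 166130096800) (.two (nat_lit 2097153) (nat_lit 1057901) (.two (nat_lit 2097152) (nat_lit 16788562) (.one (nat_lit 16789732) .nil))))))),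
   .two (nat_lit 117440707) (nat_lit 713032330) (.two (nat_lit 3464495170) (nat_lit 165526111552) (.two (nat_lit 813694991) (nat_lit 184431939020) (.two (nat_lit 46414168072) (nat_lit 10519318417) (.two (nat_lit 2954887173) (nat_lit 16784888) (.two (nat_lit 2097153) (nat_lit 185002370036) (.two (nat_lit 16777216) (nat_lit 8399955) (.one (nat_lit 8401125) .nil))))))),
   .two (nat_lit 166196150467) (nat_lit 12115247727) (.two (nat_lit 185035915331) (nat_lit 158646404381) (.two (nat_lit 117440527) (nat_lit 1948259297) (.two (nat_lit 203423749) (nat_lit 1056249) (.two (nat_lit 606076929) (nat_lit 1058725) (.two (nat_lit 16777216) (nat_lit 2108500) (.one (nat_lit 2109670) .nil)))))),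
   .two (nat_lit 9802088643) (nat_lit 183913940349) (.two (nat_lit 21777874959) (nat_lit 159251433997) (.two (nat_lit 4194312) (nat_lit 2103125) (.two (nat_lit 46409973764) (nat_lit 37313584631) (.two (nat_lit 606076929) (nat_lit 19029567395) (.two (nat_lit 2097152) (nat_lit 11546930177) (.one (nat_lit 4206823) .nil)))))),
   .two (nat_lit 159224168643) (nat_lit 16777868) (.two (nat_lit 47555018816) (nat_lit 150996291) (.two (nat_lit 620757007) (nat_lit 109055886) (.two (nat_lit 176160772) (nat_lit 16785564) (.two (nat_lit 2097152) (nat_lit 8400599) .nil)))),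
   .two (nat_lit 4605345987) (nat_lit 10538189419) (.two (nat_lit 285212736) (nat_lit 41945116) (.two (nat_lit 50331663) (nat_lit 37253810704) (.two (nat_lit 8388616) (nat_lit 639638122) (.two (nat_lit 2097153) (nat_lit 20719872484) (.one (nat_lit 46992993970) .nil))))),
   .two (nat_lit 28757196995) (nat_lit 19128123751) (.two (nat_lit 159217877059) (nat_lit 11014243171) (.two (nat_lit 9866051599) (nat_lit 9867102734) (.two (nat_lit 3464495112) (nat_lit 3524267924) (.two (nat_lit 46414168068) (nat_lit 21207456370) (.two (nat_lit 8388609) (nat_lit 2954896403) (.two (nat_lit 2097152) (nat_lit 1059925) (.one (nat_lit 1061096) .nil))))))),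
   .two (nat_lit 4605345987) (nat_lit 4195364) (.two (nat_lit 10913579075) (nat_lit 337642340) (.two (nat_lit 28758245391) (nat_lit 142608938) (.two (nat_lit 9867100168) (nat_lit 1954549642) (.two (nat_lit 69206021) (nat_lit 166136388464) (.two (nat_lit 2097152) (nat_lit 11618231990) (.one (nat_lit 8401129) .nil)))))),
   .two (nat_lit 156533522627) (nat_lit 4598006119) (.two (nat_lit 20704133186) (nat_lit 3021997368) (.two (nat_lit 184423546895) (nat_lit 156465367552) (.two (nat_lit 10369368072) (nat_lit 184987685843) (.two (nat_lit 102760453) (nat_lit 1779440243) (.two (nat_lit 8388609) (nat_lit 1058726) (.two (nat_lit 2097152) (nat_lit 8399958) (.one (nat_lit 1061098) .nil))))))),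
   .two (nat_lit 20704133733) (nat_lit 183861510505) (.two (nat_lit 9881780289) (nat_lit 2987394367) (.two (nat_lit 2889875471) (nat_lit 9881782785) (.two (nat_lit 18925748232) (nat_lit 183848932350) (.two (nat_lit 285212677) (nat_lit 4201978) (.two (nat_lit 620756993) (nat_lit 20707288141) (.two (nat_lit 1048576) (nat_lit 4205655) (.one (nat_lit 1061099) .nil))))))),
   .two (nat_lit 1916797537) (nat_lit 889192812) (.two (nat_lit 285212738) (nat_lit 166132188002) (.two (nat_lit 285212687) (nat_lit 11614031774) (.two (nat_lit 9768534021) (nat_lit 16784044) (.two (nat_lit 37748737) (nat_lit 855648733) (.one (nat_lit 4206828) .nil))))),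
   .two (nat_lit 9948889283) (nat_lit 28086108778) (.two (nat_lit 2921332801) (nat_lit 185023333685) (.two (nat_lit 2887778319) (nat_lit 19142808560) (.two (nat_lit 721420292) (nat_lit 183848934050) (.two (nat_lit 2097153) (nat_lit 1056904) (.two (nat_lit 2097152) (nat_lit 166144780835) (.one (nat_lit 4206829) .nil)))))),
   .two (nat_lit 12620661093) (nat_lit 21811429991) (.two (nat_lit 3527409731) (nat_lit 1310721317) (.two (nat_lit 639631375) (nat_lit 71305737) (.two (nat_lit 2887778312) (nat_lit 19532877702) (.two (nat_lit 34603013) (nat_lit 641735324) (.two (nat_lit 34603009) (nat_lit 1916807661) (.one (nat_lit 1061102) .nil)))))),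
   .two (nat_lit 4605346400) (nat_lit 185035915628) (.two (nat_lit 50331715) (nat_lit 20644365609) (.two (nat_lit 721420303) (nat_lit 9873395614) (.two (nat_lit 8388613) (nat_lit 11559507255) (.two (nat_lit 8388609) (nat_lit 46422563695) (.two (nat_lit 4194304) (nat_lit 19033762259) (.one (nat_lit 158662143647) .nil)))))),
   .two (nat_lit 46477082819) (nat_lit 12054430347) (.two (nat_lit 3003121729) (nat_lit 10343154982) (.two (nat_lit 9940500495) (nat_lit 19545459210) (.two (nat_lit 8388616) (nat_lit 183912894348) (.two (nat_lit 746586117) (nat_lit 104864414) (.two (nat_lit 4194305) (nat_lit 21827167185) (.two (nat_lit 2097152) (nat_lit 183861522054) .nil)))))),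
   .two (nat_lit 16777411) (nat_lit 174753580354) (.two (nat_lit 11551113231) (nat_lit 16779774) (.two (nat_lit 11551113224) (nat_lit 822088730) (.two (nat_lit 713031684) (nat_lit 2954893897) (.two (nat_lit 41943041) (nat_lit 9881789506) (.two (nat_lit 2097152) (nat_lit 8399960) (.one (nat_lit 2109178) .nil)))))),
   .two (nat_lit 1343226051) (nat_lit 2432696678) (.two (nat_lit 2961178689) (nat_lit 10538190164) (.two (nat_lit 176160783) (nat_lit 10436479513) (.two (nat_lit 11492392968) (nat_lit 136320316) (.two (nat_lit 4194305) (nat_lit 37329314924) (.two (nat_lit 16777216) (nat_lit 1059929) (.one (nat_lit 1061103) .nil)))))),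
   .two (nat_lit 1358954691) (nat_lit 12050235751) (.two (nat_lit 2961178689) (nat_lit 1795163678) (.two (nat_lit 1276117000) (nat_lit 10376714862) (.two (nat_lit 605028353) (nat_lit 13237232593) (.two (nat_lit 1048576) (nat_lit 16787924) (.one (nat_lit 16789744) .nil))))),
   .two (nat_lit 46474986085) (nat_lit 1224737127) (.two (nat_lit 19530776691) (nat_lit 166132188458) (.two (nat_lit 37748751) (nat_lit 251662216) (.two (nat_lit 169869316) (nat_lit 166144776848) (.two (nat_lit 4194305) (nat_lit 159266122245) (.one (nat_lit 11546931419) .nil))))),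
   .two (nat_lit 13237223619) (nat_lit 157038936931) (.two (nat_lit 46409973775) (nat_lit 9781118493) (.two (nat_lit 3458203656) (nat_lit 21781027410) (.two (nat_lit 2097153) (nat_lit 1379935161) (.two (nat_lit 2097152) (nat_lit 1178611442) .nil)))),
   .two (nat_lit 16777411) (nat_lit 20745028452) (.two (nat_lit 16777231) (nat_lit 13195281949) (.two (nat_lit 16777224) (nat_lit 1283461000) (.two (nat_lit 8388612) (nat_lit 21223183678) (.two (nat_lit 8388609) (nat_lit 47596970988) (.two (nat_lit 1048576) (nat_lit 10016009853) .nil))))),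
   .two (nat_lit 4605345987) (nat_lit 46489666910) (.two (nat_lit 8388623) (nat_lit 11559503389) (.two (nat_lit 176160776) (nat_lit 687869849) (.two (nat_lit 176160773) (nat_lit 19042146912) (.two (nat_lit 9781116929) (nat_lit 176169907) (.two (nat_lit 16777216) (nat_lit 176172726) .nil))))),
   .two (nat_lit 639631555) (nat_lit 876610878) (.two (nat_lit 813694991) (nat_lit 21781025774) (.two (nat_lit 46409973764) (nat_lit 1746934360) (.two (nat_lit 156372041729) (nat_lit 46508549173) (.two (nat_lit 2097152) (nat_lit 4205110) (.one (nat_lit 2109681) .nil))))),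
   .two (nat_lit 21827158211) (nat_lit 1049637) (.two (nat_lit 135266371) (nat_lit 11479812625) (.two (nat_lit 158075977736) (nat_lit 20640175069) (.two (nat_lit 11492392964) (nat_lit 1056251) (.two (nat_lit 156364701697) (nat_lit 2990548031) (.two (nat_lit 4194304) (nat_lit 269494781) (.one (nat_lit 1060603) .nil)))))),
   .two (nat_lit 310378691) (nat_lit 9802089770) (.two (nat_lit 4601151503) (nat_lit 156372045700) (.two (nat_lit 809500677) (nat_lit 21777882608) (.two (nat_lit 37748737) (nat_lit 158075986908) (.two (nat_lit 1048576) (nat_lit 159219986110) .nil)))),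
   .two (nat_lit 1358955106) (nat_lit 847249772) (.two (nat_lit 343932994) (nat_lit 9881781543) (.two (nat_lit 41943055) (nat_lit 159266115008) (.two (nat_lit 83886088) (nat_lit 166203495739) (.two (nat_lit 41943041) (nat_lit 159266120658) (.two (nat_lit 1048576) (nat_lit 276835958) .nil))))),
   .two (nat_lit 21827158211) (nat_lit 37313577566) (.two (nat_lit 158646403137) (nat_lit 19545457970) (.two (nat_lit 4613734415) (nat_lit 1413483033) (.two (nat_lit 11492392968) (nat_lit 168825875) (.two (nat_lit 171966469) (nat_lit 620762422) (.two (nat_lit 4194305) (nat_lit 3540000915) (.two (nat_lit 4194304) (nat_lit 9814682049) (.one (nat_lit 873475798) .nil))))))),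
   .two (nat_lit 50331843) (nat_lit 13195280984) (.two (nat_lit 16777280) (nat_lit 13195281695) (.two (nat_lit 8388623) (nat_lit 50334206) (.two (nat_lit 1846542344) (nat_lit 3565162387) (.two (nat_lit 176160773) (nat_lit 654318251) (.two (nat_lit 41943041) (nat_lit 183946454044) (.two (nat_lit 1048576) (nat_lit 185027537396) (.one (nat_lit 8401138) .nil))))))),
   .two (nat_lit 10907288167) (nat_lit 3460301164) (.two (nat_lit 4030726210) (nat_lit 1176504843) (.two (nat_lit 46409973768) (nat_lit 13222548476) (.two (nat_lit 159217876997) (nat_lit 4201133) (.two (nat_lit 606076929) (nat_lit 157038945278) (.two (nat_lit 2097152) (nat_lit 4205111) (.one (nat_lit 2109683) .nil)))))),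
   .two (nat_lit 13237223619) (nat_lit 2923430755) (.two (nat_lit 157036838927) (nat_lit 183848929819) (.two (nat_lit 156367847432) (nat_lit 9934215784) (.two (nat_lit 2097153) (nat_lit 1178608657) (.two (nat_lit 2097152) (nat_lit 20740843182) (.one (nat_lit 2109083) .nil))))),
   .two (nat_lit 41943235) (nat_lit 1795162728) (.two (nat_lit 9881780337) (nat_lit 183846830948) (.two (nat_lit 1358954511) (nat_lit 2317356947) (.two (nat_lit 50331653) (nat_lit 8396284) (.two (nat_lit 8388609) (nat_lit 46978311091) (.two (nat_lit 16777216) (nat_lit 2108506) (.one (nat_lit 2109684) .nil)))))),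
   .two (nat_lit 4634706115) (nat_lit 847249603) (.two (nat_lit 4634705986) (nat_lit 174759871800) (.two (nat_lit 9940500495) (nat_lit 3558868510) (.two (nat_lit 47555018760) (nat_lit 2353008531) (.two (nat_lit 47555018757) (nat_lit 47550831233) (.two (nat_lit 2097153) (nat_lit 306193335) (.two (nat_lit 2097152) (nat_lit 876620319) (.one (nat_lit 2109105) .nil))))))),
   .two (nat_lit 13195280579) (nat_lit 2936013163) (.two (nat_lit 16777281) (nat_lit 13195281250) (.two (nat_lit 16777231) (nat_lit 13195281949) (.two (nat_lit 16777224) (nat_lit 1283461000) (.two (nat_lit 8388612) (nat_lit 19142808888) (.two (nat_lit 8388609) (nat_lit 1291856384) (.one (nat_lit 1060604) .nil)))))),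
   .two (nat_lit 9802089054) (nat_lit 11593056618) (.two (nat_lit 352321603) (nat_lit 209716068) (.two (nat_lit 2902458383) (nat_lit 104860192) (.two (nat_lit 46409973768) (nat_lit 10351546262) (.two (nat_lit 272629765) (nat_lit 687872880) (.two (nat_lit 4194304) (nat_lit 117450422) (.one (nat_lit 4206837) .nil)))))),
   .two (nat_lit 3527409859) (nat_lit 184431936872) (.two (nat_lit 2889875471) (nat_lit 10519318418) (.two (nat_lit 822083589) (nat_lit 19029562680) (.two (nat_lit 50331649) (nat_lit 1782587533) (.two (nat_lit 4194304) (nat_lit 16788571) (.one (nat_lit 19130232491) .nil))))),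
   .two (nat_lit 822083779) (nat_lit 156472705666) (.two (nat_lit 11618222145) (nat_lit 1191183654) (.two (nat_lit 713031695) (nat_lit 1191183902) (.two (nat_lit 50331656) (nat_lit 880807814) (.two (nat_lit 16777221) (nat_lit 19094575752) (.two (nat_lit 16777217) (nat_lit 47582291032) (.two (nat_lit 2097152) (nat_lit 8399417) (.one (nat_lit 8401142) .nil))))))),
   .two (nat_lit 184993972419) (nat_lit 158662133081) (.two (nat_lit 50331663) (nat_lit 18933092227) (.two (nat_lit 8388612) (nat_lit 165540795705) (.two (nat_lit 41943041) (nat_lit 11525955735) (.two (nat_lit 1048576) (nat_lit 209727088) .nil)))),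
   .two (nat_lit 310378691) (nat_lit 37316723047) (.two (nat_lit 4634705985) (nat_lit 21214790960) (.two (nat_lit 4194319) (nat_lit 4605347357) (.two (nat_lit 4194312) (nat_lit 166203494297) (.two (nat_lit 4601151493) (nat_lit 19537074826) (.two (nat_lit 156367847425) (nat_lit 158150435949) (.two (nat_lit 1048576) (nat_lit 8399964) (.one (nat_lit 8401143) .nil))))))),
   .two (nat_lit 11559502019) (nat_lit 37313577827) (.two (nat_lit 11492392975) (nat_lit 705696787) (.two (nat_lit 1358954501) (nat_lit 156532480676) (.two (nat_lit 605028353) (nat_lit 16784238) (.two (nat_lit 1048576) (nat_lit 21827169913) .nil)))),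
   .two (nat_lit 142606531) (nat_lit 11610883411) (.two (nat_lit 16777231) (nat_lit 20644368259) (.two (nat_lit 16777220) (nat_lit 13228840253) (.two (nat_lit 8388609) (nat_lit 159266120701) (.two (nat_lit 1048576) (nat_lit 75509362) .nil)))),
   .two (nat_lit 2969567589) (nat_lit 8389261) (.two (nat_lit 2969567298) (nat_lit 20745028452) (.two (nat_lit 184549391) (nat_lit 19033756988) (.two (nat_lit 620756993) (nat_lit 165525070819) (.two (nat_lit 16777216) (nat_lit 1060517) .nil)))),
   .two (nat_lit 13224640707) (nat_lit 8389262) (.two (nat_lit 9806282862) (nat_lit 156569175325) (.two (nat_lit 41943055) (nat_lit 19109251597) (.two (nat_lit 9881780232) (nat_lit 9902755720) (.two (nat_lit 1291845636) (nat_lit 3460307553) (.two (nat_lit 41943041) (nat_lit 16787367) (.two (nat_lit 16777216) (nat_lit 8399965) (.one (nat_lit 16789246) .nil))))))),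
   .two (nat_lit 639631555) (nat_lit 721420886) (.two (nat_lit 184549441) (nat_lit 183846831403) (.two (nat_lit 184549391) (nat_lit 243272206) (.two (nat_lit 2969567240) (nat_lit 157036843995) (.two (nat_lit 9948889093) (nat_lit 8396287) (.two (nat_lit 620756993) (nat_lit 3565168525) (.two (nat_lit 16777216) (nat_lit 8399967) (.one (nat_lit 8401000) .nil))))))),
   .two (nat_lit 285212867) (nat_lit 9802089767) (.two (nat_lit 285212687) (nat_lit 1279266702) (.two (nat_lit 4194308) (nat_lit 16784238) (.two (nat_lit 4194304) (nat_lit 21827169913) .nil))),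
   .two (nat_lit 721420646) (nat_lit 8389264) (.two (nat_lit 184549441) (nat_lit 19100861759) (.two (nat_lit 184549391) (nat_lit 69208589) (.two (nat_lit 813694984) (nat_lit 1929386595) (.two (nat_lit 16777217) (nat_lit 184987690061) (.two (nat_lit 2097152) (nat_lit 8399969) (.one (nat_lit 8401146) .nil)))))),
   .two (nat_lit 1291846245) (nat_lit 2987393385) (.two (nat_lit 276824130) (nat_lit 1291846949) (.two (nat_lit 4613734415) (nat_lit 19537070627) (.two (nat_lit 2887778312) (nat_lit 276830037) (.two (nat_lit 1176502277) (nat_lit 11543780861) (.two (nat_lit 41943041) (nat_lit 1310730147) (.two (nat_lit 8388608) (nat_lit 13222554617) (.one (nat_lit 2109691) .nil))))))),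
   .two (nat_lit 9799991653) (nat_lit 9802089052) (.two (nat_lit 673185904) (nat_lit 1209009538) (.two (nat_lit 1191182360) (nat_lit 336595475) (.two (nat_lit 205520904) (nat_lit 156984415215) (.two (nat_lit 2889875460) (nat_lit 9866058401) (.two (nat_lit 2097153) (nat_lit 1057903) (.two (nat_lit 2097152) (nat_lit 1059938) (.one (nat_lit 1061116) .nil))))))),
   .two (nat_lit 2969567427) (nat_lit 2097809) (.two (nat_lit 2969567298) (nat_lit 2099241) (.two (nat_lit 10538188840) (nat_lit 9948890654) (.two (nat_lit 9934209037) (nat_lit 218107781) (.two (nat_lit 9934209029) (nat_lit 1761613113) (.two (nat_lit 37748737) (nat_lit 16785570) (.two (nat_lit 2097152) (nat_lit 16788027) (.one (nat_lit 4206845) .nil))))))),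
   .two (nat_lit 2969567427) (nat_lit 165526110864) (.two (nat_lit 9967763523) (nat_lit 157051520343) (.two (nat_lit 12129927183) (nat_lit 2923431454) (.two (nat_lit 9781116936) (nat_lit 840963069) (.two (nat_lit 157036838917) (nat_lit 4201985) (.two (nat_lit 9766436865) (nat_lit 272638964) (.two (nat_lit 2097152) (nat_lit 4205116) (.one (nat_lit 16789758) .nil))))))),
   .two (nat_lit 9802089061) (nat_lit 174759870825) (.two (nat_lit 2927624259) (nat_lit 46510638374) (.two (nat_lit 4605345807) (nat_lit 37316725283) (.two (nat_lit 9802088461) (nat_lit 156472709006) (.two (nat_lit 156971827205) (nat_lit 10443823704) (.two (nat_lit 8388609) (nat_lit 2923439124) (.two (nat_lit 4194304) (nat_lit 8399971) (.one (nat_lit 4206275) .nil))))))),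
   .two (nat_lit 156372041923) (nat_lit 166132187788) (.two (nat_lit 4605345858) (nat_lit 157038936930) (.two (nat_lit 8388623) (nat_lit 184431939471) (.two (nat_lit 8388612) (nat_lit 183928625795) (.two (nat_lit 4194305) (nat_lit 251668963) (.one (nat_lit 1325412066) .nil))))),
   .two (nat_lit 157038936673) (nat_lit 10376708455) (.two (nat_lit 47596961858) (nat_lit 612369762) (.two (nat_lit 620757007) (nat_lit 1753220637) (.two (nat_lit 713031688) (nat_lit 1224742203) (.two (nat_lit 4194305) (nat_lit 3565168301) (.one (nat_lit 8401151) .nil))))),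
   .two (nat_lit 847249603) (nat_lit 4634706536) (.two (nat_lit 2954887232) (nat_lit 1384121698) (.two (nat_lit 159217877007) (nat_lit 4605349764) (.two (nat_lit 11479810052) (nat_lit 159217883752) (.two (nat_lit 37748737) (nat_lit 10001327185) (.two (nat_lit 2097152) (nat_lit 4205117) (.one (nat_lit 10909396645) .nil)))))),
   .two (nat_lit 822083779) (nat_lit 310379852) (.two (nat_lit 8388623) (nat_lit 1191183902) (.two (nat_lit 50331656) (nat_lit 28764542267) (.two (nat_lit 2097153) (nat_lit 1317020607) (.two (nat_lit 2097152) (nat_lit 12155103717) (.one (nat_lit 2109183) .nil))))),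
   .two (nat_lit 156569174211) (nat_lit 2357199209) (.two (nat_lit 310378562) (nat_lit 183949592094) (.two (nat_lit 37748744) (nat_lit 1853886361) (.two (nat_lit 4194308) (nat_lit 612375167) (.two (nat_lit 2097153) (nat_lit 4203632) (.two (nat_lit 2097152) (nat_lit 4205118) (.one (nat_lit 2109184) .nil)))))),
   .two (nat_lit 9948889283) (nat_lit 337641835) (.two (nat_lit 218103873) (nat_lit 37247518035) (.two (nat_lit 2954887183) (nat_lit 10385098270) (.two (nat_lit 169869320) (nat_lit 16782364) (.two (nat_lit 20638072836) (nat_lit 10000276972) (.two (nat_lit 156364701697) (nat_lit 20753425491) (.two (nat_lit 1048576) (nat_lit 2108518) (.one (nat_lit 1061121) .nil))))))),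
   .two (nat_lit 2969567589) (nat_lit 1411383928) (.two (nat_lit 2969567298) (nat_lit 19027461416) (.two (nat_lit 2969567247) (nat_lit 10907290131) (.two (nat_lit 2887778312) (nat_lit 151001681) (.two (nat_lit 620756993) (nat_lit 10906248163) (.two (nat_lit 16777216) (nat_lit 159250394737) .nil))))),
   .two (nat_lit 156971827557) (nat_lit 47582282356) (.two (nat_lit 19599982659) (nat_lit 158177690949) (.two (nat_lit 28693233679) (nat_lit 102764435) (.two (nat_lit 34603013) (nat_lit 4201125) (.two (nat_lit 2097153) (nat_lit 1059361) (.one (nat_lit 1061122) .nil)))))]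

theorem k5 : chkL tab c5 (nat_lit 11000) = true := by decide +kernel

theorem l5 : c5.length = 2200 := by decide +kernel

end K4

end Pool.Agent.Work.MP_bf01b2_co.MR
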